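import Pool.Agent.H551.GP.Check

/-!
Configurations of `m` points `0, …, m-1` seen from the point `0`, and the corresponding clauses.
-/

namespace Pool.Agent.H551.GP

/-- Some pair of the list is opposite with respect to the point `0`. -/
def OppPair (d : Nat → Nat → Nat) : List Nat → Prop
  | [] => False
  | x :: xs => (∃ y ∈ xs, d x 0 + d 0 y ≤ d x y) ∨ OppPair d xs

/-- A configuration of `m` points without five-point chain, where the points `1, …, m-1` are pairwise
incomparable from `0`, the points `1, …, s` are pairwise not opposite from `0`, and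
every `s+1` of the points `1, …, m-1` contain an opposite pair when `s < 4`. -/
structure Cfg (d : Nat → Nat → Nat) (m s : Nat) : Prop where
  chain : ∀ a b c e f, a < m → b < m → c < m → e < m → f < m → [a, b, c, e, f].Nodup →
    ¬ (d a b + d b c ≤ d a c ∧ d a c + d c e ≤ d a e ∧ d a e + d e f ≤ d a f)
  anti : ∀ u v, 1 ≤ u → 1 ≤ v → u < m → v < m → u ≠ v → ¬ (d 0 u + d u v ≤ d 0 v)
  gen : ∀ i j, 1 ≤ i → i < j → j ≤ s → ¬ (d i 0 + d 0 j ≤ d i j)
  max : s < 4 → ∀ q : List Nat, q.Pairwise (· < ·) → (∀ x ∈ q, 1 ≤ x ∧ x < m) → q.length = s + 1 →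
    OppPair d q

def ne5 (a b c e f : Nat) : Bool :=
  (!(Nat.beq a b)) && ((!(Nat.beq a c)) && ((!(Nat.beq a e)) && ((!(Nat.beq a f)) &&
  ((!(Nat.beq b c)) && ((!(Nat.beq b e)) && ((!(Nat.beq b f)) &&
  ((!(Nat.beq c e)) && ((!(Nat.beq c f)) && (!(Nat.beq e f))))))))))

theorem ne_of_nbeq {a b : Nat} (h : Nat.beq a b = false) : a ≠ b := by
  intro he
  rw [he] at h
  simp at h

theorem ne5_nodup {a b c e f : Nat} (h : ne5 a b c e f = true) : [a, b, c, e, f].Nodup := by
  simp only [ne5, Bool.and_eq_true, Bool.not_eq_true'] at h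
  obtain ⟨h1, h2, h3, h4, h5, h6, h7, h8, h9, h10⟩ := h
  have g1 := ne_of_nbeq h1
  have g2 := ne_of_nbeq h2
  have g3 := ne_of_nbeq h3
  have g4 := ne_of_nbeq h4
  have g5 := ne_of_nbeq h5
  have g6 := ne_of_nbeq h6
  have g7 := ne_of_nbeq h7
  have g8 := ne_of_nbeq h8
  have g9 := ne_of_nbeq h9
  have g10 := ne_of_nbeq h10
  simp [g1, g2, g3, g4, g5, g6, g7, g8, g9, g10]

def lt5 (m a b c e f : Nat) : Bool :=
  Nat.blt a m && (Nat.blt b m && (Nat.blt c m && (Nat.blt e m && Nat.blt f m)))

def prL (x : Nat) : List Nat → List Lit → List Lit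
  | [], t => t
  | y :: ys, t => nrm (.B x 0 y, true) :: prL x ys t

def pairsL : List Nat → List Lit
  | [] => []
  | x :: xs => prL x xs (pairsL xs)

def digs : Nat → Nat → List Nat
  | 0, _ => []
  | f + 1, n => (n % 16) :: digs f (n / 16)

/-- Check that a list is strictly increasing, with entries above `lo` and below `m`. -/
def incr (m : Nat) : Nat → List Nat → Bool
  | _, [] => true
  | lo, x :: xs => Nat.blt lo x && (Nat.blt x m && incr m x xs)

def orc (m s : Nat) (c : Nat) : Option (List Lit) :=
  bif Nat.beq (c % 4) 0 then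
    let p0 := c / 4 % 16
    let p1 := c / 64 % 16
    let p2 := c / 1024 % 16
    let p3 := c / 16384 % 16
    let p4 := c / 262144 % 16
    bif lt5 m p0 p1 p2 p3 p4 && ne5 p0 p1 p2 p3 p4 then
      some [nrm (.B p0 p1 p2, false), nrm (.B p0 p2 p3, false), nrm (.B p0 p3 p4, false)]
    else none
  else bif Nat.beq (c % 4) 1 then
    let u := c / 4 % 16
    let v := c / 64 % 16
    bif Nat.blt 0 u && (Nat.blt 0 v && (Nat.blt u m && (Nat.blt v m && !(Nat.beq u v)))) then
      some [nrm (.B 0 u v, false)]
    else none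
  else bif Nat.beq (c % 4) 2 then
    let i := c / 4 % 16
    let j := c / 64 % 16
    bif Nat.blt 0 i && (Nat.blt i j && Nat.ble j s) then some [nrm (.B i 0 j, false)] else none
  else
    let q := digs (s + 1) (c / 4)
    bif Nat.blt s 4 && incr m 0 q then some (pairsL q) else none

theorem incr_sound (m : Nat) : ∀ (q : List Nat) (lo : Nat), incr m lo q = true →
    (∀ x ∈ q, lo < x ∧ x < m) ∧ q.Pairwise (· < ·)
  | [], lo, _ => by simp
  | x :: xs, lo, h => by
    simp only [incr, Bool.and_eq_true, Nat.blt_eq] at h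
    obtain ⟨h1, h2, h3⟩ := h
    obtain ⟨ih1, ih2⟩ := incr_sound m xs x h3
    refine ⟨?_, ?_⟩
    · intro y hy
      rcases List.mem_cons.1 hy with rfl | hy
      · exact ⟨h1, h2⟩
      · exact ⟨lt_trans h1 (ih1 y hy).1, (ih1 y hy).2⟩
    · exact List.pairwise_cons.2 ⟨fun y hy => (ih1 y hy).1, ih2⟩

theorem digs_length : ∀ f n, (digs f n).length = f
  | 0, _ => rfl
  | f + 1, n => by simp [digs, digs_length f]

theorem prL_mem_right (x : Nat) : ∀ (ys : List Nat) (t : List Lit) (l : Lit), l ∈ t → l ∈ prL x ys t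
  | [], t, l, h => h
  | y :: ys, t, l, h => List.mem_cons_of_mem _ (prL_mem_right x ys t l h)

theorem prL_mem_left (x : Nat) : ∀ (ys : List Nat) (t : List Lit) (y : Nat), y ∈ ys →
    nrm (.B x 0 y, true) ∈ prL x ys t
  | [], t, y, h => by simp at h
  | z :: ys, t, y, h => by
    rcases List.mem_cons.1 h with rfl | h
    · exact List.mem_cons_self
    · exact List.mem_cons_of_mem _ (prL_mem_left x ys t y h)

theorem oppPair_lit {d : Nat → Nat → Nat} (hs : ∀ i j, d i j = d j i) :
    ∀ q : List Nat, OppPair d q → ∃ l ∈ pairsL q, l.holds d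
  | [], h => by simp [OppPair] at h
  | x :: xs, h => by
    rcases h with ⟨y, hy, hh⟩ | h
    · exact ⟨_, prL_mem_left x xs _ y hy, (holds_nrm hs _).2 hh⟩
    · obtain ⟨l, hl, hh⟩ := oppPair_lit hs xs h
      exact ⟨l, prL_mem_right x xs _ l hl, hh⟩

theorem orc_sound {d : Nat → Nat → Nat} {m s : Nat} (hs : ∀ i j, d i j = d j i) (hc : Cfg d m s) :
    ∀ i c, orc m s i = some c → ∃ l ∈ c, l.holds d := by
  intro i c h
  unfold orc at h
  have key : ∀ x y z : Nat, ¬ (d x y + d y z ≤ d x z) → (nrm (.B x y z, false)).holds d := by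
    intro x y z h
    exact (holds_nrm hs _).2 h
  cases h0 : Nat.beq (i % 4) 0 with
  | true =>
    rw [h0] at h
    simp only [cond_true] at h
    generalize i / 4 % 16 = p0 at *
    generalize i / 64 % 16 = p1 at *
    generalize i / 1024 % 16 = p2 at *
    generalize i / 16384 % 16 = p3 at *
    generalize i / 262144 % 16 = p4 at *
    cases h1 : (lt5 m p0 p1 p2 p3 p4 && ne5 p0 p1 p2 p3 p4) with
    | false => rw [h1] at h; simp at h
    | true =>
      rw [h1] at h
      simp only [cond_true, Option.some.injEq] at h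
      subst h
      simp only [Bool.and_eq_true] at h1
      have h2 := h1.1
      simp only [lt5, Bool.and_eq_true, Nat.blt_eq] at h2
      obtain ⟨g0, g1, g2, g3, g4⟩ := h2
      have h3 := hc.chain p0 p1 p2 p3 p4 g0 g1 g2 g3 g4 (ne5_nodup h1.2)
      by_cases c1 : d p0 p1 + d p1 p2 ≤ d p0 p2
      · by_cases c2 : d p0 p2 + d p2 p3 ≤ d p0 p3
        · refine ⟨_, List.mem_cons_of_mem _ (List.mem_cons_of_mem _ List.mem_cons_self), key _ _ _ ?_⟩
          exact fun c3 => h3 ⟨c1, c2, c3⟩
        · exact ⟨_, List.mem_cons_of_mem _ List.mem_cons_self, key _ _ _ c2⟩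
      · exact ⟨_, List.mem_cons_self, key _ _ _ c1⟩
  | false =>
    rw [h0] at h
    simp only [cond_false] at h
    cases h1 : Nat.beq (i % 4) 1 with
    | true =>
      rw [h1] at h
      simp only [cond_true] at h
      generalize i / 4 % 16 = u at *
      generalize i / 64 % 16 = v at *
      cases h2 : (Nat.blt 0 u && (Nat.blt 0 v && (Nat.blt u m && (Nat.blt v m && !(Nat.beq u v))))) with
      | false => rw [h2] at h; simp at h
      | true =>
        rw [h2] at h
        simp only [cond_true, Option.some.injEq] at h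
        subst h
        simp only [Bool.and_eq_true, Bool.not_eq_true', Nat.blt_eq] at h2
        obtain ⟨g1, g2, g3, g4, g5⟩ := h2
        exact ⟨_, List.mem_cons_self, key _ _ _ (hc.anti u v g1 g2 g3 g4 (ne_of_nbeq g5))⟩
    | false =>
      rw [h1] at h
      simp only [cond_false] at h
      cases h2 : Nat.beq (i % 4) 2 with
      | true =>
        rw [h2] at h
        simp only [cond_true] at h
        generalize i / 4 % 16 = u at *
        generalize i / 64 % 16 = v at *
        cases h3 : (Nat.blt 0 u && (Nat.blt u v && Nat.ble v s)) with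
        | false => rw [h3] at h; simp at h
        | true =>
          rw [h3] at h
          simp only [cond_true, Option.some.injEq] at h
          subst h
          simp only [Bool.and_eq_true, Nat.blt_eq, Nat.ble_eq] at h3
          obtain ⟨g1, g2, g3⟩ := h3
          exact ⟨_, List.mem_cons_self, key _ _ _ (hc.gen u v g1 g2 g3)⟩
      | false =>
        rw [h2] at h
        simp only [cond_false] at h
        have hlen := digs_length (s + 1) (i / 4)
        generalize digs (s + 1) (i / 4) = q at *
        cases h3 : (Nat.blt s 4 && incr m 0 q) with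
        | false => rw [h3] at h; simp at h
        | true =>
          rw [h3] at h
          simp only [cond_true, Option.some.injEq] at h
          subst h
          simp only [Bool.and_eq_true, Nat.blt_eq] at h3
          obtain ⟨g1, g2⟩ := incr_sound m q 0 h3.2
          exact oppPair_lit hs q (hc.max h3.1 q g2 g1 hlen)

end Pool.Agent.H551.GP
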