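import Mathlib.Data.Nat.Bitwise
import Mathlib.Tactic

/-!
A small verified checker: RUP steps over clauses stored as bit masks, with input clauses justified by
linear certificates about a symmetric distance function, four-point clauses, given clauses and images of
already refuted patterns.
-/

namespace Pool.Agent.H551.GP

/-- Atomic statements about a distance function `d : ℕ → ℕ → ℕ`. -/
inductive Atom where
  | L (i j k : Nat)
  | B (a b c : Nat)
  | D (x a b k : Nat)

def Atom.val (d : Nat → Nat → Nat) : Atom → Prop
  | .L i j k => d i j < k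
  | .B a b c => d a b + d b c ≤ d a c
  | .D x a b k => d x a + 8 ≤ d x b + k

/-- A literal is an atom with a sign. -/
abbrev Lit := Atom × Bool

def Lit.holds (d : Nat → Nat → Nat) (l : Lit) : Prop :=
  match l.2 with
  | true => l.1.val d
  | false => ¬ l.1.val d

def Lit.flip (l : Lit) : Lit := (l.1, !l.2)

theorem Lit.holds_flip (d : Nat → Nat → Nat) (l : Lit) : (Lit.flip l).holds d ↔ ¬ l.holds d := by
  rcases l with ⟨a, s⟩
  cases s <;> simp [Lit.flip, Lit.holds]

/-- Normal form of a literal, using the symmetry of the distance. -/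
def nrm : Lit → Lit
  | (.L i j k, s) => bif Nat.ble i j then (.L i j k, s) else (.L j i k, s)
  | (.B a b c, s) => bif Nat.ble a c then (.B a b c, s) else (.B c b a, s)
  | (.D x a b k, s) =>
      bif Nat.ble a b then (.D x a b k, s)
      else bif Nat.ble k 15 then (.D x b a (15 - k), !s) else (.D x a b k, s)

theorem holds_nrm {d : Nat → Nat → Nat} (hs : ∀ i j, d i j = d j i) (l : Lit) :
    (nrm l).holds d ↔ l.holds d := by
  rcases l with ⟨a, s⟩
  cases a with
  | L i j k =>
    simp only [nrm]
    cases Nat.ble i j
    · simp only [cond_false]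
      cases s <;> simp [Lit.holds, Atom.val, hs j i]
    · simp only [cond_true]
  | B a b c =>
    simp only [nrm]
    cases Nat.ble a c
    · simp only [cond_false]
      cases s <;> simp only [Lit.holds, Atom.val, hs c b, hs b a, hs c a] <;>
        rw [Nat.add_comm]
    · simp only [cond_true]
  | D x a b k =>
    simp only [nrm]
    cases Nat.ble a b
    · simp only [cond_false]
      cases h : Nat.ble k 15
      · simp only [cond_false]
      · simp only [cond_true]
        have hk : k ≤ 15 := Nat.le_of_ble_eq_true h
        cases s <;> simp only [Lit.holds, Atom.val, Bool.not_true, Bool.not_false] <;> omega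
    · simp only [cond_true]

def Atom.beq : Atom → Atom → Bool
  | .L i j k, .L i' j' k' => Nat.beq i i' && (Nat.beq j j' && Nat.beq k k')
  | .B i j k, .B i' j' k' => Nat.beq i i' && (Nat.beq j j' && Nat.beq k k')
  | .D x i j k, .D x' i' j' k' => Nat.beq x x' && (Nat.beq i i' && (Nat.beq j j' && Nat.beq k k'))
  | _, _ => false

theorem Atom.eq_of_beq {a b : Atom} (h : a.beq b = true) : a = b := by
  cases a <;> cases b <;> simp [Atom.beq] at h ⊢ <;> tauto

def Lit.beq (a b : Lit) : Bool := a.1.beq b.1 && (a.2 == b.2)

theorem Lit.eq_of_beq {a b : Lit} (h : Lit.beq a b = true) : a = b := by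
  rcases a with ⟨a, s⟩; rcases b with ⟨b, t⟩
  simp only [Lit.beq, Bool.and_eq_true, beq_iff_eq] at h
  rw [Atom.eq_of_beq h.1, h.2]

def lbeq : List Lit → List Lit → Bool
  | [], [] => true
  | a :: as, b :: bs => Lit.beq a b && lbeq as bs
  | _, _ => false

theorem eq_of_lbeq : ∀ {a b : List Lit}, lbeq a b = true → a = b
  | [], [], _ => rfl
  | a :: as, b :: bs, h => by
    simp only [lbeq, Bool.and_eq_true] at h
    rw [Lit.eq_of_beq h.1, eq_of_lbeq h.2]
  | [], _ :: _, h => by simp [lbeq] at h
  | _ :: _, [], h => by simp [lbeq] at h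

def mapA (g : Nat → Nat) : Atom → Atom
  | .L i j k => .L (g i) (g j) k
  | .B a b c => .B (g a) (g b) (g c)
  | .D x a b k => .D (g x) (g a) (g b) k

def mapL (g : Nat → Nat) (l : Lit) : Lit := (mapA g l.1, l.2)

theorem holds_mapL (d : Nat → Nat → Nat) (g : Nat → Nat) (l : Lit) :
    (mapL g l).holds d ↔ l.holds (fun i j => d (g i) (g j)) := by
  rcases l with ⟨a, s⟩
  cases a <;> cases s <;> simp [mapL, mapA, Lit.holds, Atom.val]

/-! ### Decoding -/

def decA (c : Nat) : Atom :=
  bif Nat.beq (c % 4) 0 then .L (c / 4 % 16) (c / 64 % 16) (c / 1024 % 16)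
  else bif Nat.beq (c % 4) 1 then .B (c / 4 % 16) (c / 64 % 16) (c / 1024 % 16)
  else .D (c / 4 % 16) (c / 64 % 16) (c / 1024 % 16) (c / 16384 % 64)

/-- Atom number `v` of the table `T` (20 bits per entry). -/
def atomOf (T v : Nat) : Atom := decA ((T >>> (20 * v)) % 1048576)

/-- Literal with code `c`: positive when `c` is even. -/
def litOf (T c : Nat) : Lit := (atomOf T (c / 2), Nat.beq (c % 2) 0)

/-- A list of numbers below `1023`, each stored increased by one in base `1024`. -/
def codesF : Nat → Nat → List Nat
  | 0, _ => []
  | f + 1, n => bif Nat.beq n 0 then [] else (n % 1024 - 1) :: codesF f (n / 1024)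

def codes (n : Nat) : List Nat := codesF 40 n

def maskOf : List Nat → Nat
  | [] => 0
  | c :: cs => Nat.lor (1 <<< c) (maskOf cs)

/-! ### Linear certificates -/

def np (i j : Nat) : Nat × Nat := bif Nat.ble i j then (i, j) else (j, i)

def dp (d : Nat → Nat → Nat) (p : Nat × Nat) : Nat := d p.1 p.2

theorem dp_np {d : Nat → Nat → Nat} (hs : ∀ i j, d i j = d j i) (i j : Nat) :
    dp d (np i j) = d i j := by
  unfold np
  cases Nat.ble i j
  · simp [dp, hs j i]
  · simp [dp]

/-- An inequality `Σ l + c ≤ Σ r + e`. -/
structure Ineq where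
  l : List (Nat × Nat)
  r : List (Nat × Nat)
  c : Nat
  e : Nat

def sumd (d : Nat → Nat → Nat) : List (Nat × Nat) → Nat
  | [] => 0
  | p :: ps => dp d p + sumd d ps

def Ineq.ok (d : Nat → Nat → Nat) (q : Ineq) : Prop := sumd d q.l + q.c ≤ sumd d q.r + q.e

/-- The inequality expressing that a literal fails. -/
def negI (l : Lit) : Ineq :=
  match l with
  | (.L i j k, true) => ⟨[], [np i j], k, 0⟩
  | (.L i j k, false) => ⟨[np i j], [], 1, k⟩
  | (.B a b c, true) => ⟨[np a c], [np a b, np b c], 1, 0⟩
  | (.B a b c, false) => ⟨[np a b, np b c], [np a c], 0, 0⟩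
  | (.D x a b k, true) => ⟨[np x b], [np x a], k + 1, 8⟩
  | (.D x a b k, false) => ⟨[np x a], [np x b], 8, k⟩

theorem negI_ok {d : Nat → Nat → Nat} (hs : ∀ i j, d i j = d j i) (l : Lit)
    (h : ¬ l.holds d) : (negI l).ok d := by
  rcases l with ⟨a, s⟩
  cases a <;> cases s <;>
    simp only [Lit.holds, Atom.val, negI, Ineq.ok, sumd, dp_np hs, not_not] at h ⊢ <;> omega

def app : List (Nat × Nat) → List (Nat × Nat) → List (Nat × Nat)
  | [], b => b
  | x :: a, b => x :: app a b

theorem sumd_app (d : Nat → Nat → Nat) : ∀ a b, sumd d (app a b) = sumd d a + sumd d b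
  | [], b => by simp [app, sumd]
  | x :: a, b => by simp [app, sumd, sumd_app d a b, Nat.add_assoc]

def Ineq.add (p q : Ineq) : Ineq := ⟨app p.l q.l, app p.r q.r, p.c + q.c, p.e + q.e⟩

theorem Ineq.add_ok {d : Nat → Nat → Nat} {p q : Ineq} (hp : p.ok d) (hq : q.ok d) :
    (p.add q).ok d := by
  simp only [Ineq.ok, Ineq.add, sumd_app] at *
  omega

def peq (p q : Nat × Nat) : Bool := Nat.beq p.1 q.1 && Nat.beq p.2 q.2

theorem peq_eq {p q : Nat × Nat} (h : peq p q = true) : p = q := by
  rcases p with ⟨a, b⟩; rcases q with ⟨c, e⟩
  simp [peq] at h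
  simp [h.1, h.2]

def rem1 (p : Nat × Nat) : List (Nat × Nat) → Option (List (Nat × Nat))
  | [] => none
  | q :: qs => bif peq p q then some qs else
      match rem1 p qs with
      | none => none
      | some t => some (q :: t)

theorem rem1_sum (d : Nat → Nat → Nat) (p : Nat × Nat) :
    ∀ (l t : List (Nat × Nat)), rem1 p l = some t → sumd d l = dp d p + sumd d t
  | [], t, h => by simp [rem1] at h
  | q :: qs, t, h => by
    simp only [rem1] at h
    cases hpq : peq p q with
    | true =>
      rw [hpq] at h
      simp only [cond_true, Option.some.injEq] at h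
      subst h
      rw [peq_eq hpq, sumd]
    | false =>
      rw [hpq] at h
      simp only [cond_false] at h
      cases hr : rem1 p qs with
      | none => rw [hr] at h; simp at h
      | some t' =>
        rw [hr] at h
        simp only [Option.some.injEq] at h
        subst h
        simp only [sumd, rem1_sum d p qs t' hr]
        omega

def subm : List (Nat × Nat) → List (Nat × Nat) → Bool
  | [], _ => true
  | x :: r, l => match rem1 x l with
    | none => false
    | some l' => subm r l'

theorem subm_le (d : Nat → Nat → Nat) :
    ∀ (r l : List (Nat × Nat)), subm r l = true → sumd d r ≤ sumd d l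
  | [], l, _ => by simp [sumd]
  | x :: r, l, h => by
    simp only [subm] at h
    cases hr : rem1 x l with
    | none => rw [hr] at h; simp at h
    | some l' =>
      rw [hr] at h
      simp only at h
      have h1 := rem1_sum d x l l' hr
      have h2 := subm_le d r l' h
      simp only [sumd]
      omega

/-- Contradictory inequality. -/
def Ineq.bad (q : Ineq) : Bool := subm q.r q.l && Nat.blt q.e q.c

theorem Ineq.bad_false {d : Nat → Nat → Nat} {q : Ineq} (h : q.bad = true) (hq : q.ok d) : False := by
  simp only [Ineq.bad, Bool.and_eq_true] at h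
  have h1 := subm_le d _ _ h.1
  have h2 : q.e < q.c := by simpa [Nat.blt_eq] using h.2
  simp only [Ineq.ok] at hq
  omega

/-- Facts about the distance function used by the checker.
`k` points (the first ones) are distinct from all of the `n` points. -/
structure Dist (d : Nat → Nat → Nat) (k n : Nat) : Prop where
  symm : ∀ i j, d i j = d j i
  tri : ∀ a b c, d a c ≤ d a b + d b c
  pos : ∀ i j, i < k → j < n → i ≠ j → 1 ≤ d i j
  four : ∀ a b c e, d a b + d b c ≤ d a c ∨ d b a + d a c ≤ d b c ∨ d a c + d c b ≤ d a b ∨
    d a b + d b e ≤ d a e ∨ d b a + d a e ≤ d b e ∨ d a e + d e b ≤ d a b ∨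
    d a c + d c e ≤ d a e ∨ d c a + d a e ≤ d c e ∨ d a e + d e c ≤ d a c ∨
    d b c + d c e ≤ d b e ∨ d c b + d b e ≤ d c e ∨ d b e + d e c ≤ d b c

/-- Decode a row: a list of numbers in base `2^16`, types: triangle, positivity, literal of the clause. -/
def rowI (k n : Nat) (ls : List Lit) (r : Nat) : Option Ineq :=
  bif Nat.beq (r % 4) 0 then
    some ⟨[np (r / 4 % 16) (r / 1024 % 16)],
      [np (r / 4 % 16) (r / 64 % 16), np (r / 64 % 16) (r / 1024 % 16)], 0, 0⟩
  else bif Nat.beq (r % 4) 1 then
    bif Nat.blt (r / 4 % 16) k && (Nat.blt (r / 64 % 16) n && !(Nat.beq (r / 4 % 16) (r / 64 % 16))) then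
      some ⟨[], [np (r / 4 % 16) (r / 64 % 16)], 1, 0⟩
    else none
  else match ls[r / 4]? with
    | none => none
    | some l => some (negI l)

theorem rowI_ok {d : Nat → Nat → Nat} {k n : Nat} (hd : Dist d k n) (ls : List Lit)
    (hls : ∀ l ∈ ls, ¬ l.holds d) (r : Nat) (q : Ineq) (h : rowI k n ls r = some q) : q.ok d := by
  unfold rowI at h
  cases h0 : Nat.beq (r % 4) 0 with
  | true =>
    rw [h0] at h
    simp only [cond_true, Option.some.injEq] at h
    subst h
    simp only [Ineq.ok, sumd, dp_np hd.symm]
    have := hd.tri (r / 4 % 16) (r / 64 % 16) (r / 1024 % 16)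
    omega
  | false =>
    rw [h0] at h
    simp only [cond_false] at h
    cases h1 : Nat.beq (r % 4) 1 with
    | true =>
      rw [h1] at h
      simp only [cond_true] at h
      cases h2 : (Nat.blt (r / 4 % 16) k &&
        (Nat.blt (r / 64 % 16) n && !(Nat.beq (r / 4 % 16) (r / 64 % 16)))) with
      | false => rw [h2] at h; simp at h
      | true =>
        rw [h2] at h
        simp only [cond_true, Option.some.injEq] at h
        subst h
        simp only [Bool.and_eq_true, Bool.not_eq_true', Nat.blt_eq] at h2
        have hne : r / 4 % 16 ≠ r / 64 % 16 := by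
          intro he
          have := h2.2.2
          rw [he] at this
          simp at this
        have := hd.pos _ _ h2.1 h2.2.1 hne
        simp only [Ineq.ok, sumd, dp_np hd.symm]
        omega
    | false =>
      rw [h1] at h
      simp only [cond_false] at h
      cases h2 : ls[r / 4]? with
      | none => rw [h2] at h; simp at h
      | some l =>
        rw [h2] at h
        simp only [Option.some.injEq] at h
        subst h
        exact negI_ok hd.symm l (hls l (List.mem_of_getElem? h2))

def sumRows (k n : Nat) (ls : List Lit) : Nat → Nat → Option Ineq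
  | 0, _ => none
  | f + 1, rs => bif Nat.beq rs 0 then some ⟨[], [], 0, 0⟩ else
      match rowI k n ls (rs % 65536 - 1) with
      | none => none
      | some q => match sumRows k n ls f (rs / 65536) with
        | none => none
        | some t => some (q.add t)

theorem sumRows_ok {d : Nat → Nat → Nat} {k n : Nat} (hd : Dist d k n) (ls : List Lit)
    (hls : ∀ l ∈ ls, ¬ l.holds d) : ∀ (f rs : Nat) (q : Ineq), sumRows k n ls f rs = some q → q.ok d
  | 0, rs, q, h => by simp [sumRows] at h
  | f + 1, rs, q, h => by
    simp only [sumRows] at h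
    cases h0 : Nat.beq rs 0 with
    | true =>
      rw [h0] at h
      simp only [cond_true, Option.some.injEq] at h
      subst h
      simp [Ineq.ok, sumd]
    | false =>
      rw [h0] at h
      simp only [cond_false] at h
      cases h1 : rowI k n ls (rs % 65536 - 1) with
      | none => rw [h1] at h; simp at h
      | some q1 =>
        rw [h1] at h
        simp only at h
        cases h2 : sumRows k n ls f (rs / 65536) with
        | none => rw [h2] at h; simp at h
        | some t =>
          rw [h2] at h
          simp only [Option.some.injEq] at h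
          subst h
          exact Ineq.add_ok (rowI_ok hd ls hls _ _ h1) (sumRows_ok hd ls hls f _ _ h2)

def linOK (k n : Nat) (ls : List Lit) (rs : Nat) : Bool :=
  match sumRows k n ls 60 rs with
  | none => false
  | some q => q.bad

theorem linOK_sound {d : Nat → Nat → Nat} {k n : Nat} (hd : Dist d k n) (ls : List Lit) (rs : Nat)
    (h : linOK k n ls rs = true) : ∃ l ∈ ls, l.holds d := by
  by_contra hcon
  push_neg at hcon
  unfold linOK at h
  cases h1 : sumRows k n ls 60 rs with
  | none => rw [h1] at h; simp at h
  | some q =>
    rw [h1] at h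
    exact Ineq.bad_false h (sumRows_ok hd ls hcon _ _ _ h1)

/-! ### Input clauses -/

def fourL (a b c e : Nat) : List Lit :=
  [nrm (.B a b c, true), nrm (.B b a c, true), nrm (.B a c b, true),
   nrm (.B a b e, true), nrm (.B b a e, true), nrm (.B a e b, true),
   nrm (.B a c e, true), nrm (.B c a e, true), nrm (.B a e c, true),
   nrm (.B b c e, true), nrm (.B c b e, true), nrm (.B b e c, true)]

theorem fourL_ok {d : Nat → Nat → Nat} {k n : Nat} (hd : Dist d k n) (a b c e : Nat) :
    ∃ l ∈ fourL a b c e, l.holds d := by
  have key : ∀ x y z : Nat, d x y + d y z ≤ d x z → (nrm (.B x y z, true)).holds d := by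
    intro x y z h
    exact (holds_nrm hd.symm _).2 h
  rcases hd.four a b c e with h | h | h | h | h | h | h | h | h | h | h | h
  all_goals exact ⟨_, by simp only [fourL, List.mem_cons, true_or, or_true], key _ _ _ h⟩

def permOf (g : Nat) (i : Nat) : Nat := (g >>> (4 * i)) % 16

/-- `ng : List (List Lit)`: patterns known to be impossible; an image clause. -/
def imgL (pat : List Lit) (g : Nat) : List Lit := pat.map (fun l => nrm (Lit.flip (mapL (permOf g) l)))

/-- Source of an input clause, encoded in a number. -/
def srcOK (k n : Nat) (G : List (List Lit)) (imgs : Nat → Option (List Lit)) (ls : List Lit) (s : Nat) : Bool :=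
  bif Nat.beq (s % 4) 0 then linOK k n ls (s / 4)
  else bif Nat.beq (s % 4) 1 then
    lbeq ls (fourL (s / 4 % 16) (s / 64 % 16) (s / 1024 % 16) (s / 16384 % 16))
  else bif Nat.beq (s % 4) 2 then
    match G[s / 4]? with
    | none => false
    | some c => lbeq ls c
  else match imgs (s / 4) with
    | none => false
    | some c => lbeq ls c

theorem srcOK_sound {d : Nat → Nat → Nat} {k n : Nat} (hd : Dist d k n) (G : List (List Lit))
    (hG : ∀ c ∈ G, ∃ l ∈ c, l.holds d) (imgs : Nat → Option (List Lit))
    (hI : ∀ i c, imgs i = some c → ∃ l ∈ c, l.holds d) (ls : List Lit) (s : Nat)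
    (h : srcOK k n G imgs ls s = true) : ∃ l ∈ ls, l.holds d := by
  unfold srcOK at h
  cases h0 : Nat.beq (s % 4) 0 with
  | true =>
    rw [h0] at h
    exact linOK_sound hd ls _ h
  | false =>
    rw [h0] at h
    simp only [cond_false] at h
    cases h1 : Nat.beq (s % 4) 1 with
    | true =>
      rw [h1] at h
      simp only [cond_true] at h
      rw [eq_of_lbeq h]
      exact fourL_ok hd _ _ _ _
    | false =>
      rw [h1] at h
      simp only [cond_false] at h
      cases h2 : Nat.beq (s % 4) 2 with
      | true =>
        rw [h2] at h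
        simp only [cond_true] at h
        cases h3 : G[s / 4]? with
        | none => rw [h3] at h; simp at h
        | some c =>
          rw [h3] at h
          simp only at h
          rw [eq_of_lbeq h]
          exact hG c (List.mem_of_getElem? h3)
      | false =>
        rw [h2] at h
        simp only [cond_false] at h
        cases h3 : imgs (s / 4) with
        | none => rw [h3] at h; simp at h
        | some c =>
          rw [h3] at h
          simp only at h
          rw [eq_of_lbeq h]
          exact hI _ c h3

/-! ### Clause database and unit propagation -/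

inductive Tree where
  | leaf : Tree
  | node : Nat → Tree → Tree → Tree

/-- Lookup; `0` when missing. Fuel bounds the depth. -/
def Tree.get : Tree → Nat → Nat
  | .leaf, _ => 0
  | .node v l r, n =>
    bif Nat.beq n 0 then v
    else bif Nat.beq (n % 2) 0 then r.get (n / 2 - 1) else l.get (n / 2)

def Tree.ins (c : Nat) : Nat → Tree → Nat → Tree
  | 0, t, _ => t
  | f + 1, t, n =>
    match t with
    | .leaf =>
      bif Nat.beq n 0 then .node c .leaf .leaf
      else bif Nat.beq (n % 2) 0 then .node 0 .leaf (Tree.ins c f .leaf (n / 2 - 1))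
      else .node 0 (Tree.ins c f .leaf (n / 2)) .leaf
    | .node v l r =>
      bif Nat.beq n 0 then .node c l r
      else bif Nat.beq (n % 2) 0 then .node v l (Tree.ins c f r (n / 2 - 1))
      else .node v (Tree.ins c f l (n / 2)) r

/-- All stored nonzero values satisfy `P`. -/
def Tree.All (P : Nat → Prop) : Tree → Prop
  | .leaf => True
  | .node v l r => (v ≠ 0 → P v) ∧ l.All P ∧ r.All P

theorem Tree.get_all {P : Nat → Prop} : ∀ (t : Tree) (n : Nat), t.All P → t.get n ≠ 0 → P (t.get n)
  | .leaf, n, _, h => by simp [Tree.get] at h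
  | .node v l r, n, ht, h => by
    simp only [Tree.get] at h ⊢
    cases h0 : Nat.beq n 0 with
    | true => rw [h0] at h; simp only [cond_true] at h ⊢; exact ht.1 h
    | false =>
      rw [h0] at h
      simp only [cond_false] at h ⊢
      cases h1 : Nat.beq (n % 2) 0 with
      | true => rw [h1] at h; simp only [cond_true] at h ⊢; exact Tree.get_all r _ ht.2.2 h
      | false => rw [h1] at h; simp only [cond_false] at h ⊢; exact Tree.get_all l _ ht.2.1 h

theorem Tree.ins_all {P : Nat → Prop} {c : Nat} (hc : P c) :
    ∀ (f : Nat) (t : Tree) (n : Nat), t.All P → (Tree.ins c f t n).All P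
  | 0, t, n, ht => ht
  | f + 1, .leaf, n, ht => by
    simp only [Tree.ins]
    cases Nat.beq n 0 with
    | true => simp only [cond_true]; exact ⟨fun _ => hc, trivial, trivial⟩
    | false =>
      simp only [cond_false]
      cases Nat.beq (n % 2) 0 with
      | true =>
        simp only [cond_true]
        exact ⟨fun h => absurd rfl h, trivial, Tree.ins_all hc f _ _ trivial⟩
      | false =>
        simp only [cond_false]
        exact ⟨fun h => absurd rfl h, Tree.ins_all hc f _ _ trivial, trivial⟩
  | f + 1, .node v l r, n, ht => by
    simp only [Tree.ins]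
    cases Nat.beq n 0 with
    | true => simp only [cond_true]; exact ⟨fun _ => hc, ht.2.1, ht.2.2⟩
    | false =>
      simp only [cond_false]
      cases Nat.beq (n % 2) 0 with
      | true =>
        simp only [cond_true]
        exact ⟨ht.1, ht.2.1, Tree.ins_all hc f _ _ ht.2.2⟩
      | false =>
        simp only [cond_false]
        exact ⟨ht.1, Tree.ins_all hc f _ _ ht.2.1, ht.2.2⟩

/-- Truth of the literal with code `b`. -/
def bitTrue (T : Nat) (d : Nat → Nat → Nat) (b : Nat) : Prop := (litOf T b).holds d

/-- A mask is satisfied when one of its literals holds. -/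
def Sat (T : Nat) (d : Nat → Nat → Nat) (m : Nat) : Prop := ∃ b, m.testBit b = true ∧ bitTrue T d b

theorem bitTrue_xor (T : Nat) (d : Nat → Nat → Nat) (b : Nat) :
    bitTrue T d (b ^^^ 1) ↔ ¬ bitTrue T d b := by
  unfold bitTrue litOf
  have h1 : (b ^^^ 1) / 2 = b / 2 := by
    have := Nat.xor_div_two (a := b) (b := 1)
    simpa using this
  have h2 : Nat.beq ((b ^^^ 1) % 2) 0 = !(Nat.beq (b % 2) 0) := by
    have h3 : (b ^^^ 1) % 2 = (b + 1) % 2 := by
      have := Nat.xor_mod_two_eq (m := b) (n := 1)
      simpa using this
    rw [h3]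
    rcases Nat.mod_two_eq_zero_or_one b with h | h
    · have : (b + 1) % 2 = 1 := by omega
      rw [this, h]; rfl
    · have : (b + 1) % 2 = 0 := by omega
      rw [this, h]; rfl
  rw [h1, h2]
  cases Nat.beq (b % 2) 0 <;> simp [Lit.holds]

/-- One pass of unit propagation, hints in base `65536`. -/
def rup (t : Tree) : Nat → Nat → Nat → Bool
  | 0, _, _ => false
  | f + 1, hs, F =>
    let c := t.get (hs % 65536)
    bif Nat.beq c 0 then false
    else
      let rest := Nat.xor c (Nat.land c F)
      bif Nat.beq rest 0 then true
      else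
        let b := Nat.log2 rest
        bif Nat.beq rest (1 <<< b) then rup t f (hs / 65536) (Nat.lor F (1 <<< (b ^^^ 1)))
        else false

theorem rup_sound {T : Nat} {d : Nat → Nat → Nat} {t : Tree} (ht : t.All (Sat T d)) :
    ∀ (f hs F : Nat), (∀ b, F.testBit b = true → ¬ bitTrue T d b) → rup t f hs F = true → False
  | 0, hs, F, _, h => by simp [rup] at h
  | f + 1, hs, F, hF, h => by
    simp only [rup] at h
    cases h0 : Nat.beq (t.get (hs % 65536)) 0 with
    | true => rw [h0] at h; simp at h
    | false =>
      rw [h0] at h
      simp only [cond_false] at h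
      have hc0 : t.get (hs % 65536) ≠ 0 := by
        intro h'
        rw [h'] at h0
        simp at h0
      obtain ⟨b, hb1, hb2⟩ := Tree.get_all t _ ht hc0
      generalize t.get (hs % 65536) = c at *
      have hbF : F.testBit b = false := by
        by_contra hcon
        exact hF b (by simpa using hcon) hb2
      have hrb : (Nat.xor c (Nat.land c F)).testBit b = true := by
        change (c ^^^ (c &&& F)).testBit b = true
        rw [Nat.testBit_xor, Nat.testBit_and, hb1, hbF]; rfl
      cases h1 : Nat.beq (Nat.xor c (Nat.land c F)) 0 with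
      | true =>
        have : Nat.xor c (Nat.land c F) = 0 := by simpa using h1
        rw [this] at hrb
        simp at hrb
      | false =>
        rw [h1] at h
        simp only [cond_false] at h
        cases h2 : Nat.beq (Nat.xor c (Nat.land c F)) (1 <<< Nat.log2 (Nat.xor c (Nat.land c F))) with
        | false => rw [h2] at h; simp at h
        | true =>
          rw [h2] at h
          simp only [cond_true] at h
          have he : Nat.xor c (Nat.land c F) = 1 <<< Nat.log2 (Nat.xor c (Nat.land c F)) := by
            simpa using h2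
          generalize Nat.log2 (Nat.xor c (Nat.land c F)) = b' at *
          rw [he, Nat.one_shiftLeft, Nat.testBit_two_pow] at hrb
          have hbb : b' = b := by simpa using hrb
          subst hbb
          refine rup_sound ht f (hs / 65536) _ ?_ h
          intro b'' hb''
          change (F ||| 1 <<< (b' ^^^ 1)).testBit b'' = true at hb''
          rw [Nat.testBit_or, Bool.or_eq_true] at hb''
          rcases hb'' with hb'' | hb''
          · exact hF b'' hb''
          · rw [Nat.one_shiftLeft, Nat.testBit_two_pow] at hb''
            have : b' ^^^ 1 = b'' := by simpa using hb''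
            rw [← this, bitTrue_xor]
            exact fun hn => hn hb2

/-- Load the input clauses: each is a pair (codes, source). -/
def load (k n T : Nat) (G : List (List Lit)) (imgs : Nat → Option (List Lit)) :
    List (Nat × Nat) → Tree → Nat → Option (Tree × Nat)
  | [], t, i => some (t, i)
  | (c, s) :: cs, t, i =>
    bif srcOK k n G imgs ((codes c).map (litOf T)) s then
      load k n T G imgs cs (Tree.ins (maskOf (codes c)) 20 t i) (i + 1)
    else none

theorem maskOf_sat {T : Nat} {d : Nat → Nat → Nat} :
    ∀ cs : List Nat, (∃ l ∈ cs.map (litOf T), l.holds d) → Sat T d (maskOf cs)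
  | [], h => by simp at h
  | c :: cs, h => by
    simp only [List.map_cons, List.mem_cons] at h
    obtain ⟨l, hl, hh⟩ := h
    change ∃ b, ((1 <<< c) ||| maskOf cs).testBit b = true ∧ _
    rcases hl with hl | hl
    · refine ⟨c, ?_, ?_⟩
      · rw [Nat.testBit_or, Nat.one_shiftLeft, Nat.testBit_two_pow]
        simp
      · unfold bitTrue; rw [← hl]; exact hh
    · obtain ⟨b, hb1, hb2⟩ := maskOf_sat cs ⟨l, hl, hh⟩
      exact ⟨b, by rw [Nat.testBit_or, hb1]; simp, hb2⟩

theorem load_sound {d : Nat → Nat → Nat} {k n : Nat} (hd : Dist d k n) (T : Nat) (G : List (List Lit))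
    (hG : ∀ c ∈ G, ∃ l ∈ c, l.holds d) (imgs : Nat → Option (List Lit))
    (hI : ∀ i c, imgs i = some c → ∃ l ∈ c, l.holds d) :
    ∀ (cs : List (Nat × Nat)) (t : Tree) (i : Nat) (r : Tree × Nat), t.All (Sat T d) →
      load k n T G imgs cs t i = some r → r.1.All (Sat T d)
  | [], t, i, r, ht, h => by
    simp only [load, Option.some.injEq] at h
    subst h
    exact ht
  | (c, s) :: cs, t, i, r, ht, h => by
    simp only [load] at h
    cases h0 : srcOK k n G imgs ((codes c).map (litOf T)) s with
    | false => rw [h0] at h; simp at h
    | true =>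
      rw [h0] at h
      simp only [cond_true] at h
      exact load_sound hd T G hG imgs hI cs _ _ r
        (Tree.ins_all (maskOf_sat _ (srcOK_sound hd G hG imgs hI _ s h0)) _ _ _ ht) h

/-- Run the learned steps: each is a pair (mask, hints); `true` once the empty clause is derived. -/
def steps : List (Nat × Nat) → Tree → Nat → Option (Tree × Nat)
  | [], t, i => some (t, i)
  | (m, hs) :: cs, t, i =>
    bif rup t 400 hs m then steps cs (Tree.ins m 20 t i) (i + 1) else none

theorem rup_sat {T : Nat} {d : Nat → Nat → Nat} {t : Tree} (ht : t.All (Sat T d)) {f hs m : Nat}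
    (h : rup t f hs m = true) : Sat T d m := by
  by_contra hcon
  refine rup_sound ht f hs m ?_ h
  intro b hb hb'
  exact hcon ⟨b, hb, hb'⟩

theorem steps_sound {T : Nat} {d : Nat → Nat → Nat} :
    ∀ (cs : List (Nat × Nat)) (t : Tree) (i : Nat) (r : Tree × Nat), t.All (Sat T d) →
      steps cs t i = some r → r.1.All (Sat T d)
  | [], t, i, r, ht, h => by
    simp only [steps, Option.some.injEq] at h
    subst h
    exact ht
  | (m, hs) :: cs, t, i, r, ht, h => by
    simp only [steps] at h
    cases h0 : rup t 400 hs m with
    | false => rw [h0] at h; simp at h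
    | true =>
      rw [h0] at h
      simp only [cond_true] at h
      exact steps_sound cs _ _ r (Tree.ins_all (rup_sat ht h0) _ _ _ ht) h

/-- Whole refutation: load, learn, and refute with the last hints. -/
def refute (k n T : Nat) (G : List (List Lit)) (imgs : Nat → Option (List Lit))
    (cs : List (Nat × Nat)) (st : List (Nat × Nat)) (last : Nat) : Bool :=
  match load k n T G imgs cs .leaf 1 with
  | none => false
  | some (t, i) =>
    match steps st t i with
    | none => false
    | some (t', _) => rup t' 400 last 0

theorem refute_sound {d : Nat → Nat → Nat} {k n : Nat} (hd : Dist d k n) (T : Nat) (G : List (List Lit))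
    (hG : ∀ c ∈ G, ∃ l ∈ c, l.holds d) (imgs : Nat → Option (List Lit))
    (hI : ∀ i c, imgs i = some c → ∃ l ∈ c, l.holds d) (cs st : List (Nat × Nat)) (last : Nat)
    (h : refute k n T G imgs cs st last = true) : False := by
  unfold refute at h
  cases h1 : load k n T G imgs cs .leaf 1 with
  | none => rw [h1] at h; simp at h
  | some r =>
    obtain ⟨t, i⟩ := r
    rw [h1] at h
    simp only at h
    have ht := load_sound hd T G hG imgs hI cs .leaf 1 (t, i) trivial h1
    cases h2 : steps st t i with
    | none => rw [h2] at h; simp at h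
    | some r' =>
      obtain ⟨t', i'⟩ := r'
      rw [h2] at h
      simp only at h
      have ht' := steps_sound st t i (t', i') ht h2
      refine rup_sound ht' 400 last 0 ?_ h
      intro b hb
      simp at hb

end Pool.Agent.H551.GP
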