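import Pool.Agent.H551.GP.Cfg

/-!
Mutual-visibility sets in graphs where every four vertices contain a collinear triple: reduction to
finite configurations.
-/

namespace Pool.Agent.H551.GP

variable {V : Type*}

/-- Metric facts about a mutual-visibility set `S`, when every four vertices contain a collinear
triple. -/
structure MS (d : V → V → ℕ) (S : Finset V) : Prop where
  symm : ∀ x y, d x y = d y x
  tri : ∀ x y z, d x z ≤ d x y + d y z
  self : ∀ x, d x x = 0
  pos : ∀ x y, x ≠ y → 1 ≤ d x y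
  four : ∀ a b c e, d a b + d b c ≤ d a c ∨ d b a + d a c ≤ d b c ∨ d a c + d c b ≤ d a b ∨
    d a b + d b e ≤ d a e ∨ d b a + d a e ≤ d b e ∨ d a e + d e b ≤ d a b ∨
    d a c + d c e ≤ d a e ∨ d c a + d a e ≤ d c e ∨ d a e + d e c ≤ d a c ∨
    d b c + d c e ≤ d b e ∨ d c b + d b e ≤ d c e ∨ d b e + d e c ≤ d b c
  vis : ∀ u ∈ S, ∀ v ∈ S, ∀ t, 0 < t → t < d u v → ∃ x, x ∉ S ∧ d u x = t ∧ d x v + t = d u v

/-- No five points of `S` lie in this order on a geodesic. -/
theorem no_chain {d : V → V → ℕ} {S : Finset V} (h : MS d S) {a b c e f : V}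
    (ha : a ∈ S) (hb : b ∈ S) (hc : c ∈ S) (he : e ∈ S) (hf : f ∈ S)
    (hab : a ≠ b) (hbc : b ≠ c) (hce : c ≠ e) (hef : e ≠ f)
    (h1 : d a b + d b c ≤ d a c) (h2 : d a c + d c e ≤ d a e) (h3 : d a e + d e f ≤ d a f) :
    False := by
  have pab := h.pos _ _ hab
  have pbc := h.pos _ _ hbc
  have pce := h.pos _ _ hce
  have pef := h.pos _ _ hef
  have t1 := h.tri a c f
  obtain ⟨b', hb', hb1, hb2⟩ := h.vis a ha c hc (d a b) (by omega) (by omega)
  obtain ⟨e', he', he1, he2⟩ := h.vis c hc f hf (d c e) (by omega) (by omega)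
  have pbb : 1 ≤ d b b' := h.pos _ _ (fun hh => hb' (hh ▸ hb))
  have pee : 1 ≤ d e e' := h.pos _ _ (fun hh => he' (hh ▸ he))
  have t2 := h.tri a b c
  have t3 := h.tri a c e
  have t4 := h.tri a e f
  have t5 := h.tri c e f
  have t6 := h.tri a b e
  have t7 := h.tri b c e
  have t8 := h.tri a b' e
  have t9 := h.tri b' c e
  have t10 := h.tri a b f
  have t11 := h.tri b e' f
  have t12 := h.tri b c e'
  have t13 := h.tri a b' f
  have t14 := h.tri b' e' f
  have t15 := h.tri b' c e'
  have t16 := h.tri b c b'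
  have t17 := h.tri e c e'
  have s1 := h.symm c b'
  have s2 := h.symm e c
  have s3 := h.symm b b'
  have s4 := h.symm b' e
  have s5 := h.symm b' e'
  have s6 := h.symm b e
  have s7 := h.symm b e'
  have s8 := h.symm e e'
  have hfour := h.four b b' e e'
  have c1 : d b e = d b c + d c e := by omega
  have c2 : d b' e = d b c + d c e := by omega
  have c3 : d b e' = d b c + d c e := by omega
  have c4 : d b' e' = d b c + d c e := by omega
  have c5 : d b b' ≤ 2 * d b c := by omega
  have c6 : d e e' ≤ 2 * d c e := by omega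
  clear t1 t2 t3 t4 t5 t6 t7 t8 t9 t10 t11 t12 t13 t14 t15 t16 t17
  rcases hfour with g | g | g | g | g | g | g | g | g | g | g | g <;> omega

/-- Enumeration of `a :: L`. -/
def fOf (a : V) (L : List V) (i : ℕ) : V := (a :: L).getD i a

theorem fOf_inj {a : V} {L : List V} (hnd : (a :: L).Nodup) {i j : ℕ} (hi : i < L.length + 1)
    (hj : j < L.length + 1) (h : fOf a L i = fOf a L j) : i = j := by
  have hi' : i < (a :: L).length := by simpa using hi
  have hj' : j < (a :: L).length := by simpa using hj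
  unfold fOf at h
  rw [List.getD_eq_getElem _ _ hi', List.getD_eq_getElem _ _ hj'] at h
  exact (List.Nodup.getElem_inj_iff hnd).1 h

theorem fOf_mem {a : V} {L : List V} {i : ℕ} (h1 : 1 ≤ i) (hi : i < L.length + 1) :
    fOf a L i ∈ L := by
  unfold fOf
  obtain ⟨j, rfl⟩ : ∃ j, i = j + 1 := ⟨i - 1, by omega⟩
  have : j < L.length := by omega
  simp [List.getD, List.getElem?_eq_getElem this]

theorem fOf_mem_take {a : V} {L : List V} {i s : ℕ} (h1 : 1 ≤ i) (hi : i < L.length + 1) (hs : i ≤ s) :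
    fOf a L i ∈ L.take s := by
  unfold fOf
  obtain ⟨j, rfl⟩ : ∃ j, i = j + 1 := ⟨i - 1, by omega⟩
  have hj : j < L.length := by omega
  have hj2 : j < (L.take s).length := by simp; omega
  have : (L.take s)[j] = L[j] := by simp
  simp only [List.getD, List.getElem?_cons_succ, List.getElem?_eq_getElem hj, Option.getD_some]
  rw [← this]
  exact List.getElem_mem hj2

theorem fOf_mem_all {a : V} {L : List V} {S : Finset V} (ha : a ∈ S) (hL : ∀ x ∈ L, x ∈ S) (i : ℕ) :
    fOf a L i ∈ S := by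
  by_cases h : i < (a :: L).length
  · unfold fOf
    rw [List.getD_eq_getElem _ _ h]
    have := List.getElem_mem h
    rcases List.mem_cons.1 this with h' | h'
    · rw [h']; exact ha
    · exact hL _ h'
  · unfold fOf
    rw [List.getD_eq_default _ _ (by omega)]
    exact ha

theorem oppPair_of {D : ℕ → ℕ → ℕ} (hs : ∀ i j, D i j = D j i) :
    ∀ (q : List ℕ) (i j : ℕ), i ∈ q → j ∈ q → i ≠ j → D i 0 + D 0 j ≤ D i j → OppPair D q
  | [], i, j, hi, _, _, _ => by simp at hi
  | x :: xs, i, j, hi, hj, hij, h => by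
    rcases List.mem_cons.1 hi with h1 | h1
    · rcases List.mem_cons.1 hj with h2 | h2
      · exact absurd (h1.trans h2.symm) hij
      · left
        refine ⟨j, h2, ?_⟩
        rw [← h1]; exact h
    · rcases List.mem_cons.1 hj with h2 | h2
      · left
        refine ⟨i, h1, ?_⟩
        rw [← h2, hs j 0, hs 0 i, hs j i]
        omega
      · right
        exact oppPair_of hs xs i j h1 h2 hij h

theorem dist_of {d : V → V → ℕ} {S : Finset V} (h : MS d S) {a : V} {L : List V}
    (hnd : (a :: L).Nodup) :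
    Dist (fun i j => d (fOf a L i) (fOf a L j)) (L.length + 1) (L.length + 1) where
  symm := fun _ _ => h.symm _ _
  tri := fun _ _ _ => h.tri _ _ _
  pos := fun i j hi hj hij => h.pos _ _ (fun he => hij (fOf_inj hnd hi hj he))
  four := fun _ _ _ _ => h.four _ _ _ _

theorem cfg_of {d : V → V → ℕ} {S : Finset V} (h : MS d S) {a : V} {L : List V} (ha : a ∈ S)
    (hL : ∀ x ∈ L, x ∈ S) (hnd : (a :: L).Nodup) (s : ℕ) (hsl : s ≤ L.length)
    (hanti : ∀ u ∈ L, ∀ v ∈ L, u ≠ v → ¬ (d a u + d u v ≤ d a v))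
    (hgen : ∀ u ∈ L.take s, ∀ v ∈ L.take s, u ≠ v → ¬ (d u a + d a v ≤ d u v))
    (hmax : s < 4 → ∀ Q : Finset V, (∀ x ∈ Q, x ∈ L) → Q.card = s + 1 →
      ∃ u ∈ Q, ∃ v ∈ Q, u ≠ v ∧ d u a + d a v ≤ d u v) :
    Cfg (fun i j => d (fOf a L i) (fOf a L j)) (L.length + 1) s where
  chain := by
    intro p0 p1 p2 p3 p4 h0 h1 h2 h3 h4 hnp ⟨c1, c2, c3⟩
    have hne : ∀ i j, i < L.length + 1 → j < L.length + 1 → i ≠ j → fOf a L i ≠ fOf a L j :=
      fun i j hi hj hij he => hij (fOf_inj hnd hi hj he)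
    simp only [List.nodup_cons, List.mem_cons, List.not_mem_nil, or_false, not_or] at hnp
    obtain ⟨⟨n01, n02, n03, n04⟩, ⟨n12, n13, n14⟩, ⟨n23, n24⟩, n34, -⟩ := hnp
    exact no_chain h (fOf_mem_all ha hL p0) (fOf_mem_all ha hL p1) (fOf_mem_all ha hL p2)
      (fOf_mem_all ha hL p3) (fOf_mem_all ha hL p4) (hne _ _ h0 h1 n01) (hne _ _ h1 h2 n12)
      (hne _ _ h2 h3 n23) (hne _ _ h3 h4 n34) c1 c2 c3
  anti := by
    intro u v hu hv hum hvm huv
    exact hanti _ (fOf_mem hu hum) _ (fOf_mem hv hvm) (fun he => huv (fOf_inj hnd hum hvm he))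
  gen := by
    intro i j hi hij hjs
    exact hgen _ (fOf_mem_take hi (by omega) (by omega)) _ (fOf_mem_take (by omega) (by omega) hjs)
      (fun he => (by omega : i ≠ j) (fOf_inj hnd (by omega) (by omega) he))
  max := by
    classical
    intro hs4 q hq hqr hlen
    have hqn : q.Nodup := hq.imp (fun h => ne_of_lt h)
    have hinj : (q.map (fOf a L)).Nodup := by
      refine List.Nodup.map_on ?_ hqn
      intro x hx y hy hxy
      exact fOf_inj hnd (hqr x hx).2 (hqr y hy).2 hxy
    obtain ⟨u, hu, v, hv, huv, hh⟩ := hmax hs4 (q.map (fOf a L)).toFinset (by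
      intro x hx
      simp only [List.mem_toFinset, List.mem_map] at hx
      obtain ⟨i, hi, rfl⟩ := hx
      exact fOf_mem (hqr i hi).1 (hqr i hi).2) (by
      rw [List.toFinset_card_of_nodup hinj, List.length_map, hlen])
    simp only [List.mem_toFinset, List.mem_map] at hu hv
    obtain ⟨i, hi, rfl⟩ := hu
    obtain ⟨j, hj, rfl⟩ := hv
    have h0 : fOf a L 0 = a := rfl
    refine oppPair_of (fun _ _ => h.symm _ _) q i j hi hj (fun he => huv (by rw [he])) ?_
    simp only [h0]
    exact hh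

end Pool.Agent.H551.GP
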