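import Pool.Agent.H551.GP.Comb

/-!
Counting: a mutual-visibility set is split into one point, an antichain, and two sets that are
pairwise neither comparable nor opposite.
-/

namespace Pool.Agent.H551.GP

variable {V : Type*}

/-- The finite facts used. -/
structure Certs : Prop where
  c65 : ∀ D : ℕ → ℕ → ℕ, Dist D 6 6 → Cfg D 6 5 → False
  c84 : ∀ D : ℕ → ℕ → ℕ, Dist D 8 8 → Cfg D 8 4 → False
  c91 : ∀ D : ℕ → ℕ → ℕ, Dist D 9 9 → Cfg D 9 1 → False
  c92 : ∀ D : ℕ → ℕ → ℕ, Dist D 9 9 → Cfg D 9 2 → False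
  c93 : ∀ D : ℕ → ℕ → ℕ, Dist D 9 9 → Cfg D 9 3 → False

theorem gen_le {d : V → V → ℕ} {S : Finset V} (h : MS d S) (hc : Certs) {a : V} (ha : a ∈ S)
    (X : Finset V) (hX : ∀ x ∈ X, x ∈ S) (haX : a ∉ X)
    (hanti : ∀ u ∈ X, ∀ v ∈ X, u ≠ v → ¬ (d a u + d u v ≤ d a v))
    (hgen : ∀ u ∈ X, ∀ v ∈ X, u ≠ v → ¬ (d u a + d a v ≤ d u v)) : X.card ≤ 4 := by
  by_contra hcon
  obtain ⟨E, hEX, hE⟩ := Finset.exists_subset_card_eq (show 5 ≤ X.card by omega)
  have hlen : E.toList.length = 5 := by rw [Finset.length_toList, hE]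
  have hnd : (a :: E.toList).Nodup := by
    refine List.nodup_cons.2 ⟨?_, Finset.nodup_toList _⟩
    rw [Finset.mem_toList]
    exact fun hh => haX (hEX hh)
  have h1 := dist_of h hnd
  have h2 := cfg_of h ha (L := E.toList) (fun x hx => hX _ (hEX (Finset.mem_toList.1 hx))) hnd 5
    (by omega)
    (fun u hu v hv => hanti u (hEX (Finset.mem_toList.1 hu)) v (hEX (Finset.mem_toList.1 hv)))
    (fun u hu v hv => hgen u (hEX (Finset.mem_toList.1 (List.mem_of_mem_take hu))) v
      (hEX (Finset.mem_toList.1 (List.mem_of_mem_take hv))))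
    (by omega)
  rw [hlen] at h1 h2
  exact hc.c65 _ h1 h2

theorem anti_le {d : V → V → ℕ} {S : Finset V} (h : MS d S) (hc : Certs) {a : V} (ha : a ∈ S)
    (X : Finset V) (hX : ∀ x ∈ X, x ∈ S) (haX : a ∉ X)
    (hanti : ∀ u ∈ X, ∀ v ∈ X, u ≠ v → ¬ (d a u + d u v ≤ d a v)) : X.card ≤ 7 := by
  classical
  by_contra hcon
  obtain ⟨E, hEX, hE⟩ := Finset.exists_subset_card_eq (show 8 ≤ X.card by omega)
  let Gn : Finset V → Prop := fun I => ∀ u ∈ I, ∀ v ∈ I, u ≠ v → ¬ (d u a + d a v ≤ d u v)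
  have hne : (E.powerset.filter Gn).Nonempty := by
    refine ⟨∅, ?_⟩
    simp [Gn]
  obtain ⟨I, hI, hImax⟩ := Finset.exists_max_image (E.powerset.filter Gn) Finset.card hne
  rw [Finset.mem_filter, Finset.mem_powerset] at hI
  obtain ⟨hIE, hIG⟩ := hI
  have hI1 : 1 ≤ I.card := by
    obtain ⟨x, hx⟩ : E.Nonempty := by
      rw [← Finset.card_pos, hE]; norm_num
    have := hImax {x} (by
      rw [Finset.mem_filter, Finset.mem_powerset]
      refine ⟨by simpa using hx, ?_⟩
      intro u hu v hv huv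
      rw [Finset.mem_singleton] at hu hv
      exact absurd (hu.trans hv.symm) huv)
    simpa using this
  by_cases h4 : 4 ≤ I.card
  · obtain ⟨J, hJI, hJ⟩ := Finset.exists_subset_card_eq h4
    have hJE : J ⊆ E := hJI.trans hIE
    have hEJ : (E \ J).card = 4 := by
      rw [Finset.card_sdiff_of_subset hJE, hE, hJ]
    obtain ⟨R, hRE, hR⟩ := Finset.exists_subset_card_eq (show 3 ≤ (E \ J).card by omega)
    have hJlen : J.toList.length = 4 := by rw [Finset.length_toList, hJ]
    have hRlen : R.toList.length = 3 := by rw [Finset.length_toList, hR]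
    have hmemL : ∀ x ∈ J.toList ++ R.toList, x ∈ E := by
      intro x hx
      rcases List.mem_append.1 hx with hx | hx
      · exact hJE (Finset.mem_toList.1 hx)
      · exact (Finset.mem_sdiff.1 (hRE (Finset.mem_toList.1 hx))).1
    have hnd : (a :: (J.toList ++ R.toList)).Nodup := by
      refine List.nodup_cons.2 ⟨fun hh => haX (hEX (hmemL _ hh)), ?_⟩
      refine List.nodup_append.2 ⟨Finset.nodup_toList _, Finset.nodup_toList _, ?_⟩
      intro x hx y hy hxy
      rw [← hxy] at hy
      exact (Finset.mem_sdiff.1 (hRE (Finset.mem_toList.1 hy))).2 (Finset.mem_toList.1 hx)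
    have htake : (J.toList ++ R.toList).take 4 = J.toList := by
      rw [← hJlen, List.take_left]
    have hlen : (J.toList ++ R.toList).length = 7 := by rw [List.length_append, hJlen, hRlen]
    have h1 := dist_of h hnd
    have h2 := cfg_of h ha (L := J.toList ++ R.toList)
      (fun x hx => hX _ (hEX (hmemL x hx))) hnd 4 (by omega)
      (fun u hu v hv => hanti u (hEX (hmemL u hu)) v (hEX (hmemL v hv)))
      (by
        rw [htake]
        intro u hu v hv
        exact hIG u (hJI (Finset.mem_toList.1 hu)) v (hJI (Finset.mem_toList.1 hv)))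
      (by omega)
    rw [hlen] at h1 h2
    exact hc.c84 _ h1 h2
  · have hIlen : I.toList.length = I.card := Finset.length_toList _
    have hRlen : (E \ I).toList.length = 8 - I.card := by
      rw [Finset.length_toList, Finset.card_sdiff_of_subset hIE, hE]
    have hmemL : ∀ x ∈ I.toList ++ (E \ I).toList, x ∈ E := by
      intro x hx
      rcases List.mem_append.1 hx with hx | hx
      · exact hIE (Finset.mem_toList.1 hx)
      · exact (Finset.mem_sdiff.1 (Finset.mem_toList.1 hx)).1
    have hnd : (a :: (I.toList ++ (E \ I).toList)).Nodup := by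
      refine List.nodup_cons.2 ⟨fun hh => haX (hEX (hmemL _ hh)), ?_⟩
      refine List.nodup_append.2 ⟨Finset.nodup_toList _, Finset.nodup_toList _, ?_⟩
      intro x hx y hy hxy
      rw [← hxy] at hy
      exact (Finset.mem_sdiff.1 (Finset.mem_toList.1 hy)).2 (Finset.mem_toList.1 hx)
    have htake : (I.toList ++ (E \ I).toList).take I.card = I.toList := by
      rw [← hIlen, List.take_left]
    have hlen : (I.toList ++ (E \ I).toList).length = 8 := by
      rw [List.length_append, hIlen, hRlen]; omega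
    have h1 := dist_of h hnd
    have h2 := cfg_of h ha (L := I.toList ++ (E \ I).toList)
      (fun x hx => hX _ (hEX (hmemL x hx))) hnd I.card (by omega)
      (fun u hu v hv => hanti u (hEX (hmemL u hu)) v (hEX (hmemL v hv)))
      (by
        rw [htake]
        intro u hu v hv
        exact hIG u (Finset.mem_toList.1 hu) v (Finset.mem_toList.1 hv))
      (by
        intro _ Q hQ hQc
        by_contra hno
        have : Q ∈ E.powerset.filter Gn := by
          rw [Finset.mem_filter, Finset.mem_powerset]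
          refine ⟨fun x hx => hmemL x (hQ x hx), ?_⟩
          intro u hu v hv huv hh
          exact hno ⟨u, hu, v, hv, huv, hh⟩
        have := hImax Q this
        omega)
    rw [hlen] at h1 h2
    have hcases : I.card = 1 ∨ I.card = 2 ∨ I.card = 3 := by omega
    rcases hcases with hs | hs | hs
    · rw [hs] at h2; exact hc.c91 _ h1 h2
    · rw [hs] at h2; exact hc.c92 _ h1 h2
    · rw [hs] at h2; exact hc.c93 _ h1 h2

/-- The point `z` has a point of `S` between `a` and `z`. -/
def IsLong (d : V → V → ℕ) (S : Finset V) (a z : V) : Prop :=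
  ∃ u ∈ S, u ≠ a ∧ u ≠ z ∧ d a u + d u z ≤ d a z

/-- Two long points of `S` are not opposite. -/
theorem long_gen {d : V → V → ℕ} {S : Finset V} (h : MS d S) {a z w : V} (ha : a ∈ S)
    (hz : z ∈ S) (hw : w ∈ S) (hzl : IsLong d S a z) (hwl : IsLong d S a w) :
    ¬ (d z a + d a w ≤ d z w) := by
  intro hh
  obtain ⟨u, hu, hua, huz, hub⟩ := hzl
  obtain ⟨v, hv, hva, hvw, hvb⟩ := hwl
  have t1 := h.tri z u a
  have t2 := h.tri z v w
  have t3 := h.tri a v w
  have t4 := h.tri z a v
  have s1 := h.symm z u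
  have s2 := h.symm u a
  have s3 := h.symm z a
  exact no_chain h hz hu ha hv hw (Ne.symm huz) hua (Ne.symm hva) hvw (by omega) (by omega)
    (by omega)

/-- A chain `u < w < z < z'` above `a` is impossible. -/
theorem no_four {d : V → V → ℕ} {S : Finset V} (h : MS d S) {a u w z z' : V} (ha : a ∈ S)
    (hu : u ∈ S) (hw : w ∈ S) (hz : z ∈ S) (hz' : z' ∈ S) (h1 : u ≠ a) (h2 : u ≠ w) (h3 : w ≠ z)
    (h4 : z ≠ z') (g1 : d a u + d u w ≤ d a w) (g2 : d a w + d w z ≤ d a z)
    (g3 : d a z + d z z' ≤ d a z') : False :=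
  no_chain h ha hu hw hz hz' (Ne.symm h1) h2 h3 h4 g1 g2 g3

theorem card_le {d : V → V → ℕ} {S : Finset V} (h : MS d S) (hc : Certs) : S.card ≤ 16 := by
  classical
  by_contra hcon
  obtain ⟨a, ha⟩ : S.Nonempty := by
    rw [← Finset.card_pos]; omega
  let T := S.filter fun z => z ≠ a ∧ ¬ IsLong d S a z
  let M := S.filter fun z => (z ≠ a ∧ IsLong d S a z) ∧
    ¬ ∃ w ∈ S, w ≠ a ∧ w ≠ z ∧ IsLong d S a w ∧ d a w + d w z ≤ d a z
  let N := S.filter fun z => (z ≠ a ∧ IsLong d S a z) ∧
    ∃ w ∈ S, w ≠ a ∧ w ≠ z ∧ IsLong d S a w ∧ d a w + d w z ≤ d a z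
  have hcov : S ⊆ ({a} ∪ T) ∪ (M ∪ N) := by
    intro z hz
    simp only [T, M, N, Finset.mem_union, Finset.mem_filter, Finset.mem_singleton]
    by_cases h1 : z = a
    · exact Or.inl (Or.inl h1)
    · by_cases h2 : IsLong d S a z
      · by_cases h3 : ∃ w ∈ S, w ≠ a ∧ w ≠ z ∧ IsLong d S a w ∧ d a w + d w z ≤ d a z
        · exact Or.inr (Or.inr ⟨hz, ⟨h1, h2⟩, h3⟩)
        · exact Or.inr (Or.inl ⟨hz, ⟨h1, h2⟩, h3⟩)
      · exact Or.inl (Or.inr ⟨hz, h1, h2⟩)
  have hT : T.card ≤ 7 := by
    refine anti_le h hc ha T (fun x hx => (Finset.mem_filter.1 hx).1)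
      (fun hx => (Finset.mem_filter.1 hx).2.1 rfl) ?_
    intro u hu v hv huv hh
    have hu' := Finset.mem_filter.1 hu
    have hv' := Finset.mem_filter.1 hv
    exact hv'.2.2 ⟨u, hu'.1, hu'.2.1, huv, hh⟩
  have hM : M.card ≤ 4 := by
    refine gen_le h hc ha M (fun x hx => (Finset.mem_filter.1 hx).1)
      (fun hx => (Finset.mem_filter.1 hx).2.1.1 rfl) ?_ ?_
    · intro u hu v hv huv hh
      have hu' := Finset.mem_filter.1 hu
      have hv' := Finset.mem_filter.1 hv
      exact hv'.2.2 ⟨u, hu'.1, hu'.2.1.1, huv, hu'.2.1.2, hh⟩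
    · intro u hu v hv huv
      have hu' := Finset.mem_filter.1 hu
      have hv' := Finset.mem_filter.1 hv
      exact long_gen h ha hu'.1 hv'.1 hu'.2.1.2 hv'.2.1.2
  have hN : N.card ≤ 4 := by
    refine gen_le h hc ha N (fun x hx => (Finset.mem_filter.1 hx).1)
      (fun hx => (Finset.mem_filter.1 hx).2.1.1 rfl) ?_ ?_
    · intro u hu v hv huv hh
      have hu' := Finset.mem_filter.1 hu
      have hv' := Finset.mem_filter.1 hv
      obtain ⟨w, hw, hwa, hwu, ⟨x, hx, hxa, hxw, hxb⟩, hwb⟩ := hu'.2.2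
      exact no_four h ha hx hw hu'.1 hv'.1 hxa hxw hwu huv hxb hwb hh
    · intro u hu v hv huv
      have hu' := Finset.mem_filter.1 hu
      have hv' := Finset.mem_filter.1 hv
      exact long_gen h ha hu'.1 hv'.1 hu'.2.1.2 hv'.2.1.2
  have h1 := Finset.card_le_card hcov
  have h2 := Finset.card_union_le ({a} ∪ T) (M ∪ N)
  have h3 := Finset.card_union_le {a} T
  have h4 := Finset.card_union_le M N
  simp only [Finset.card_singleton] at h3
  omega

end Pool.Agent.H551.GP
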