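import Mathlib.Combinatorics.SimpleGraph.Metric
import Mathlib.Data.Finset.Card

/-!
General position sets and mutual-visibility sets of a finite graph.
-/

namespace Pool.Agent.H551.GP

open SimpleGraph

variable {V : Type*}

/-- `S` is a general position set: no geodesic (shortest walk) of `G` contains three distinct
vertices of `S`. -/
def IsGenPos (G : SimpleGraph V) (S : Finset V) : Prop :=
  ∀ (u v : V) (p : G.Walk u v), p.length = G.dist u v →
    ∀ x ∈ S, ∀ y ∈ S, ∀ z ∈ S, x ∈ p.support → y ∈ p.support → z ∈ p.support →
      x = y ∨ x = z ∨ y = z

/-- `S` is a mutual-visibility set: any two distinct vertices of `S` are joined by a geodesic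
(shortest walk) none of whose inner vertices belongs to `S`. -/
def IsMutVis (G : SimpleGraph V) (S : Finset V) : Prop :=
  ∀ u ∈ S, ∀ v ∈ S, u ≠ v → ∃ p : G.Walk u v, p.length = G.dist u v ∧
    ∀ w ∈ p.support, w ∈ S → w = u ∨ w = v

/-- General position number: the largest cardinality of a general position set. -/
noncomputable def gp (G : SimpleGraph V) [Fintype V] : ℕ := by
  classical
  exact (Finset.univ.filter fun S : Finset V => IsGenPos G S).sup Finset.card

/-- Mutual-visibility number: the largest cardinality of a mutual-visibility set. -/
noncomputable def mu (G : SimpleGraph V) [Fintype V] : ℕ := by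
  classical
  exact (Finset.univ.filter fun S : Finset V => IsMutVis G S).sup Finset.card

end Pool.Agent.H551.GP
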