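import Pool.Agent.H551.GP.Step

/-! Certificate data. -/

set_option linter.all false
set_option maxRecDepth 100000

namespace Pool.Agent.H551.GP.E65

def T : Nat := 0x1141014110150100d410140d014c100d010100d010c1009410140901481005410140501441009010100901081005010100501041008c100c0900c81004c100c0500c4100481008050084101049014c90114d0150d014d100d09014c501149015090149100d490148d010c90108d009050108501145015050145100d450144d00d05010c50104d009450148501449008c500c8500c49

def c1 : PP 6 5 T 0xa := iS 0x1002 0x1c000c02180218 (by decide +kernel)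
def c2 : PP 6 5 T 0x22 := iS 0x1802 0x1c000c03180318 (by decide +kernel)
def c3 : PP 6 5 T 0x280 := iS 0x2808 0x1c000c02180218 (by decide +kernel)
def c4 : PP 6 5 T 0x880 := iS 0x3008 0x1c000c05180518 (by decide +kernel)
def c5 : PP 6 5 T 0xa000 := iS 0x400e 0x1c000c03180318 (by decide +kernel)
def c6 : PP 6 5 T 0x22000 := iS 0x480e 0x1c000c04180418 (by decide +kernel)
def c7 : PP 6 5 T 0x280000 := iS 0x5814 0x1c000c05180518 (by decide +kernel)
def c8 : PP 6 5 T 0x2800000 := iS 0x6818 0x1c000c04180418 (by decide +kernel)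
def c9 : PP 6 5 T 0x8800000 := iS 0x7018 0x1c000c05180518 (by decide +kernel)
def c10 : PP 6 5 T 0x28 := iS 0x1804 0x1c000c03280328 (by decide +kernel)
def c11 : PP 6 5 T 0xa0000000 := iS 0x801e 0x1c000c04280428 (by decide +kernel)
def c12 : PP 6 5 T 0xa00 := iS 0x300a 0x1c000c05280528 (by decide +kernel)
def c13 : PP 6 5 T 0xa00000000 := iS 0x9022 0x1c000c03280328 (by decide +kernel)
def c14 : PP 6 5 T 0xa000000000 := iS 0xa026 0x1c000c05280528 (by decide +kernel)
def c15 : PP 6 5 T 0xa0000000000 := iS 0xb02a 0x1c000c04280428 (by decide +kernel)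
def c16 : PP 6 5 T 0x220000000000 := iS 0xb82a 0x1c000c05280528 (by decide +kernel)
def c17 : PP 6 5 T 0x800000200000 := iS 0x5830 0x1c000c05380538 (by decide +kernel)
def c18 : PP 6 5 T 0x2000800000000 := iS 0xc824 0x1c000c04380438 (by decide +kernel)
def c19 : PP 6 5 T 0x28000000000000 := iS 0xd834 0x1c000c04380438 (by decide +kernel)
def c20 : PP 6 5 T 0x88000000000000 := iS 0xe034 0x1c000c05380538 (by decide +kernel)
def c21 : PP 6 5 T 0x280000000000 := iS 0xb82c 0x1c000c05480548 (by decide +kernel)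
def c22 : PP 6 5 T 0xa0000000000000 := iS 0xe036 0x1c000c05480548 (by decide +kernel)
def c23 : PP 6 5 T 0x400008008 := iS 0x2304004 0x2c001c000c4214 (by decide +kernel)
def c24 : PP 6 5 T 0x800000000108 := iS 0x90c004 0x2c001c000c5324 (by decide +kernel)
def c25 : PP 6 5 T 0x100800000000008 := iS 0x390c004 0x2c001c000c5214 (by decide +kernel)
def c26 : PP 6 5 T 0x1000020020000 := iS 0x310481e 0x2c001c000c3214 (by decide +kernel)
def c27 : PP 6 5 T 0x22000100 := iS 0x90681e 0x2c001c000c5424 (by decide +kernel)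
def c28 : PP 6 5 T 0x40022000000 := iS 0x2b0681e 0x2c001c000c5214 (by decide +kernel)
def c29 : PP 6 5 T 0x200204 := iS 0x30580a 0x2c001c000c3524 (by decide +kernel)
def c30 : PP 6 5 T 0x4000200200 := iS 0x270580a 0x2c001c000c3214 (by decide +kernel)
def c31 : PP 6 5 T 0x18000200 := iS 0x1d0700a 0x2c001c000c4524 (by decide +kernel)
def c32 : PP 6 5 T 0x100008000200 := iS 0x2d0700a 0x2c001c000c4214 (by decide +kernel)
def c33 : PP 6 5 T 0x20004020 := iS 0xf07806 0x2c001c000c4234 (by decide +kernel)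
def c34 : PP 6 5 T 0x120000020 := iS 0x2107806 0x2c001c000c4314 (by decide +kernel)
def c35 : PP 6 5 T 0x1000000220 := iS 0x2502806 0x2c001c000c5314 (by decide +kernel)
def c36 : PP 6 5 T 0x80008010 := iS 0x508010 0x2c001c000c3424 (by decide +kernel)
def c37 : PP 6 5 T 0x1000080008000 := iS 0x3108010 0x2c001c000c2314 (by decide +kernel)
def c38 : PP 6 5 T 0x800000000810 := iS 0x503030 0x2c001c000c3524 (by decide +kernel)
def c39 : PP 6 5 T 0x804000000800 := iS 0x2703030 0x2c001c000c2314 (by decide +kernel)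
def c40 : PP 6 5 T 0x40800008000000 := iS 0x3707030 0x2c001c000c4314 (by decide +kernel)
def c41 : PP 6 5 T 0x80010008 := iS 0x1101020 0x2c001c000c4234 (by decide +kernel)
def c42 : PP 6 5 T 0x180000008 := iS 0x2101020 0x2c001c000c3414 (by decide +kernel)
def c43 : PP 6 5 T 0x81000200 := iS 0x1902820 0x2c001c000c5244 (by decide +kernel)
def c44 : PP 6 5 T 0x10080000200 := iS 0x2902820 0x2c001c000c5414 (by decide +kernel)
def c45 : PP 6 5 T 0x400020020 := iS 0x2301812 0x2c001c000c2414 (by decide +kernel)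
def c46 : PP 6 5 T 0x800001020000 := iS 0x190c012 0x2c001c000c5344 (by decide +kernel)
def c47 : PP 6 5 T 0x4800000020000 := iS 0x330c012 0x2c001c000c5414 (by decide +kernel)
def c48 : PP 6 5 T 0x100002000800 := iS 0x2d0301a 0x2c001c000c2414 (by decide +kernel)
def c49 : PP 6 5 T 0x40000002200000 := iS 0x370581a 0x2c001c000c3414 (by decide +kernel)
def c50 : PP 6 5 T 0x1000000808 := iS 0x250100c 0x2c001c000c3514 (by decide +kernel)
def c51 : PP 6 5 T 0x24000800 := iS 0x1b0780c 0x2c001c000c5244 (by decide +kernel)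
def c52 : PP 6 5 T 0x10020000800 := iS 0x290780c 0x2c001c000c4514 (by decide +kernel)
def c53 : PP 6 5 T 0x200420 := iS 0xb01816 0x2c001c000c5324 (by decide +kernel)
def c54 : PP 6 5 T 0x100000000200020 := iS 0x3901816 0x2c001c000c2514 (by decide +kernel)
def c55 : PP 6 5 T 0x40088000000 := iS 0x2b0801c 0x2c001c000c2514 (by decide +kernel)
def c56 : PP 6 5 T 0x800004002 := iS 0xf09002 0x2c001c000c4124 (by decide +kernel)
def c57 : PP 6 5 T 0x200400000000002 := iS 0x2f0e802 0x2c001c000c5124 (by decide +kernel)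
def c58 : PP 6 5 T 0x802000000010000 := iS 0x110c83c 0x2c001c000c3124 (by decide +kernel)
def c59 : PP 6 5 T 0x8000000081 := iS 0x10a008 0x2c001c000c3514 (by decide +kernel)
def c60 : PP 6 5 T 0x8000100080 := iS 0x150a008 0x2c001c000c3124 (by decide +kernel)
def c61 : PP 6 5 T 0x400200000000080 := iS 0x3b0b808 0x2c001c000c4514 (by decide +kernel)
def c62 : PP 6 5 T 0x200004000080 := iS 0x1b0b808 0x2c001c000c4124 (by decide +kernel)
def c63 : PP 6 5 T 0x800000400000020 := iS 0x230f006 0x2c001c000c4134 (by decide +kernel)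
def c64 : PP 6 5 T 0x800000000001020 := iS 0xd0f006 0x2c001c000c4324 (by decide +kernel)
def c65 : PP 6 5 T 0x1000000000000a0 := iS 0x3902006 0x2c001c000c5134 (by decide +kernel)
def c66 : PP 6 5 T 0x400a0 := iS 0x1302006 0x2c001c000c5324 (by decide +kernel)
def c67 : PP 6 5 T 0x880000010 := iS 0x508024 0x2c001c000c3414 (by decide +kernel)
def c68 : PP 6 5 T 0x880010000 := iS 0x1108024 0x2c001c000c2314 (by decide +kernel)
def c69 : PP 6 5 T 0x10080800000000 := iS 0x350b024 0x2c001c000c5324 (by decide +kernel)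
def c70 : PP 6 5 T 0x200000000100800 := iS 0x150303a 0x2c001c000c2314 (by decide +kernel)
def c71 : PP 6 5 T 0x200200400000000 := iS 0x230b83a 0x2c001c000c4534 (by decide +kernel)
def c72 : PP 6 5 T 0x240200000000000 := iS 0x370b83a 0x2c001c000c4324 (by decide +kernel)
def c73 : PP 6 5 T 0x80001002 := iS 0xd00820 0x2c001c000c3424 (by decide +kernel)
def c74 : PP 6 5 T 0x80400080 := iS 0x1702020 0x2c001c000c5424 (by decide +kernel)
def c75 : PP 6 5 T 0x2000000004020 := iS 0xf01832 0x2c001c000c2414 (by decide +kernel)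
def c76 : PP 6 5 T 0x206000000000000 := iS 0x330e832 0x2c001c000c5424 (by decide +kernel)
def c77 : PP 6 5 T 0x80040000800 := iS 0x1f0302c 0x2c001c000c4514 (by decide +kernel)
def c78 : PP 6 5 T 0x40088000000000 := iS 0x370a02c 0x2c001c000c3424 (by decide +kernel)
def c79 : PP 6 5 T 0x40802 := iS 0x130080c 0x2c001c000c3524 (by decide +kernel)
def c80 : PP 6 5 T 0x800000000400800 := iS 0x170f00c 0x2c001c000c4524 (by decide +kernel)
def c81 : PP 6 5 T 0x408000000020 := iS 0x2f01828 0x2c001c000c2514 (by decide +kernel)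
def c82 : PP 6 5 T 0x4008800000000 := iS 0x3309028 0x2c001c000c4524 (by decide +kernel)
def c83 : PP 6 5 T 0x200080000400 := iS 0xb0802e 0x2c001c000c5414 (by decide +kernel)
def c84 : PP 6 5 T 0x200081000000 := iS 0x190802e 0x2c001c000c2514 (by decide +kernel)
def c85 : PP 6 5 T 0x2204000000000 := iS 0x270c82e 0x2c001c000c5434 (by decide +kernel)
def c86 : PP 6 5 T 0x12200000000000 := iS 0x350c82e 0x2c001c000c3524 (by decide +kernel)
def c87 : PP 6 5 T 0x200001002 := iS 0xd08802 0x2c001c000c4214 (by decide +kernel)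
def c88 : PP 6 5 T 0x210000002 := iS 0x1d08802 0x2c001c000c4134 (by decide +kernel)
def c89 : PP 6 5 T 0x2000000102 := iS 0x909802 0x2c001c000c5134 (by decide +kernel)
def c90 : PP 6 5 T 0x2000000002001 := iS 0x10c80e 0x2c001c000c2414 (by decide +kernel)
def c91 : PP 6 5 T 0x2000040002000 := iS 0x1f0c80e 0x2c001c000c3124 (by decide +kernel)
def c92 : PP 6 5 T 0x20000000042000 := iS 0x130d80e 0x2c001c000c5414 (by decide +kernel)
def c93 : PP 6 5 T 0x20000001002000 := iS 0x190d80e 0x2c001c000c5134 (by decide +kernel)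
def c94 : PP 6 5 T 0x8000080400 := iS 0xb0a014 0x2c001c000c3124 (by decide +kernel)
def c95 : PP 6 5 T 0x80000000081000 := iS 0xd0e014 0x2c001c000c4514 (by decide +kernel)
def c96 : PP 6 5 T 0x80000004080000 := iS 0x1b0e014 0x2c001c000c4134 (by decide +kernel)
def c97 : PP 6 5 T 0x1000080008 := iS 0x2505004 0x2c001c000c5124 (by decide +kernel)
def c98 : PP 6 5 T 0x80048 := iS 0x705004 0x2c001c000c5234 (by decide +kernel)
def c99 : PP 6 5 T 0x200020004 := iS 0x304822 0x2c001c000c2414 (by decide +kernel)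
def c100 : PP 6 5 T 0x240020000 := iS 0x1f04822 0x2c001c000c3214 (by decide +kernel)
def c101 : PP 6 5 T 0x20040200000000 := iS 0x2b0d822 0x2c001c000c5234 (by decide +kernel)
def c102 : PP 6 5 T 0x80002100000000 := iS 0x210e026 0x2c001c000c4524 (by decide +kernel)
def c103 : PP 6 5 T 0x80102000000000 := iS 0x2d0e026 0x2c001c000c4234 (by decide +kernel)
def c104 : PP 6 5 T 0x1000000020002 := iS 0x3100812 0x2c001c000c4124 (by decide +kernel)
def c105 : PP 6 5 T 0x400000000020002 := iS 0x3b00812 0x2c001c000c3424 (by decide +kernel)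
def c106 : PP 6 5 T 0x4a0000 := iS 0x1705012 0x2c001c000c5434 (by decide +kernel)
def c107 : PP 6 5 T 0x2000010000008 := iS 0x1d01032 0x2c001c000c3414 (by decide +kernel)
def c108 : PP 6 5 T 0x12002000000000 := iS 0x3509832 0x2c001c000c5244 (by decide +kernel)
def c109 : PP 6 5 T 0x20000000210000 := iS 0x1105836 0x2c001c000c4514 (by decide +kernel)
def c110 : PP 6 5 T 0x20000004200000 := iS 0x1b05836 0x2c001c000c3414 (by decide +kernel)
def c111 : PP 6 5 T 0x4000200002 := iS 0x2700816 0x2c001c000c5124 (by decide +kernel)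
def c112 : PP 6 5 T 0x40000000202000 := iS 0x3703816 0x2c001c000c5144 (by decide +kernel)
def c113 : PP 6 5 T 0x602000 := iS 0x1703816 0x2c001c000c4534 (by decide +kernel)
def c114 : PP 6 5 T 0x8000000108 := iS 0x901028 0x2c001c000c3514 (by decide +kernel)
def c115 : PP 6 5 T 0x18200000000 := iS 0x2908828 0x2c001c000c4534 (by decide +kernel)
def c116 : PP 6 5 T 0x80000000120000 := iS 0x1504838 0x2c001c000c5414 (by decide +kernel)
def c117 : PP 6 5 T 0x80000001020000 := iS 0x1904838 0x2c001c000c3514 (by decide +kernel)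
def c118 : PP 6 5 T 0x82004000000000 := iS 0x270c838 0x2c001c000c5424 (by decide +kernel)
def c119 : PP 6 5 T 0x800000200001000 := iS 0xd0883c 0x2c001c000c3214 (by decide +kernel)
def c120 : PP 6 5 T 0x800000200000004 := iS 0x30883c 0x2c001c000c4134 (by decide +kernel)
def c121 : PP 6 5 T 0x800020000400000 := iS 0x170a83c 0x2c001c000c5214 (by decide +kernel)
def c122 : PP 6 5 T 0x800020000000100 := iS 0x90a83c 0x2c001c000c5144 (by decide +kernel)
def c123 : PP 6 5 T 0x400000800002000 := iS 0x3b0900e 0x2c001c000c2314 (by decide +kernel)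
def c124 : PP 6 5 T 0x800002010 := iS 0x50900e 0x2c001c000c4124 (by decide +kernel)
def c125 : PP 6 5 T 0x8000000402000 := iS 0x170d00e 0x2c001c000c5314 (by decide +kernel)
def c126 : PP 6 5 T 0x8400000002000 := iS 0x2f0d00e 0x2c001c000c5144 (by decide +kernel)
def c127 : PP 6 5 T 0x400200000800000 := iS 0x3b0b818 0x2c001c000c2514 (by decide +kernel)
def c128 : PP 6 5 T 0x200000800400 := iS 0xb0b818 0x2c001c000c4124 (by decide +kernel)
def c129 : PP 6 5 T 0x80000000900000 := iS 0x150e018 0x2c001c000c4134 (by decide +kernel)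
def c130 : PP 6 5 T 0x20002001 := iS 0x10381e 0x2c001c000c4234 (by decide +kernel)
def c131 : PP 6 5 T 0x10020800000 := iS 0x290601e 0x2c001c000c5124 (by decide +kernel)
def c132 : PP 6 5 T 0x20800040 := iS 0x70601e 0x2c001c000c5244 (by decide +kernel)
def c133 : PP 6 5 T 0x210008000 := iS 0x1d04022 0x2c001c000c2314 (by decide +kernel)
def c134 : PP 6 5 T 0x200008010 := iS 0x504022 0x2c001c000c4214 (by decide +kernel)
def c135 : PP 6 5 T 0x108000200000000 := iS 0x390d022 0x2c001c000c5244 (by decide +kernel)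
def c136 : PP 6 5 T 0x20018000000 := iS 0x1d0702a 0x2c001c000c2514 (by decide +kernel)
def c137 : PP 6 5 T 0x20008000400 := iS 0xb0702a 0x2c001c000c4214 (by decide +kernel)
def c138 : PP 6 5 T 0x80020100000000 := iS 0x210e02a 0x2c001c000c3524 (by decide +kernel)
def c139 : PP 6 5 T 0x80024000000000 := iS 0x270e02a 0x2c001c000c4234 (by decide +kernel)
def c140 : PP 6 5 T 0x800000000008001 := iS 0x10f010 0x2c001c000c4324 (by decide +kernel)
def c141 : PP 6 5 T 0x848000 := iS 0x1306010 0x2c001c000c5344 (by decide +kernel)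
def c142 : PP 6 5 T 0x820000004 := iS 0x307824 0x2c001c000c4314 (by decide +kernel)
def c143 : PP 6 5 T 0x4020800000000 := iS 0x330a824 0x2c001c000c5234 (by decide +kernel)
def c144 : PP 6 5 T 0x21800000000 := iS 0x250a824 0x2c001c000c5344 (by decide +kernel)
def c145 : PP 6 5 T 0x8000008004000 := iS 0xf07034 0x2c001c000c3514 (by decide +kernel)
def c146 : PP 6 5 T 0x8000008100000 := iS 0x1507034 0x2c001c000c4314 (by decide +kernel)
def c147 : PP 6 5 T 0x8200400000000 := iS 0x230b834 0x2c001c000c3524 (by decide +kernel)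
def c148 : PP 6 5 T 0x8204000000000 := iS 0x270b834 0x2c001c000c4324 (by decide +kernel)
def c149 : PP 6 5 T 0x800100008000000 := iS 0x2d0f01c 0x2c001c000c5124 (by decide +kernel)
def c150 : PP 6 5 T 0x800000008000040 := iS 0x70f01c 0x2c001c000c4524 (by decide +kernel)
def c151 : PP 6 5 T 0x40000008002000 := iS 0x370381c 0x2c001c000c5134 (by decide +kernel)
def c152 : PP 6 5 T 0x8042000 := iS 0x130381c 0x2c001c000c4534 (by decide +kernel)
def c153 : PP 6 5 T 0x200020000100 := iS 0x90782e 0x2c001c000c4514 (by decide +kernel)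
def c154 : PP 6 5 T 0x40200200000000 := iS 0x370882e 0x2c001c000c5234 (by decide +kernel)
def c155 : PP 6 5 T 0x201200000000 := iS 0x250882e 0x2c001c000c4534 (by decide +kernel)
def c156 : PP 6 5 T 0x80000004008000 := iS 0x1b04038 0x2c001c000c5314 (by decide +kernel)
def c157 : PP 6 5 T 0x80400000008000 := iS 0x2f04038 0x2c001c000c4514 (by decide +kernel)
def c158 : PP 6 5 T 0x80100800000000 := iS 0x2d09038 0x2c001c000c5324 (by decide +kernel)
def c159 : PP 6 5 T 0x180000800000000 := iS 0x3909038 0x2c001c000c4524 (by decide +kernel)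
def c160 : PP 6 5 T 0x2000040080 := iS 0x1309808 0x2c001c000c3214 (by decide +kernel)
def c161 : PP 6 5 T 0x20010000080 := iS 0x1d0a808 0x2c001c000c5144 (by decide +kernel)
def c162 : PP 6 5 T 0x200000000080010 := iS 0x50e814 0x2c001c000c5124 (by decide +kernel)
def c163 : PP 6 5 T 0x8000000480000 := iS 0x170d014 0x2c001c000c4314 (by decide +kernel)
def c164 : PP 6 5 T 0x8000000084000 := iS 0xf0d014 0x2c001c000c5144 (by decide +kernel)
def c165 : PP 6 5 T 0x80000800040 := iS 0x70b018 0x2c001c000c2414 (by decide +kernel)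
def c166 : PP 6 5 T 0x80040800000 := iS 0x1f0b018 0x2c001c000c5124 (by decide +kernel)
def c167 : PP 6 5 T 0x20000000840000 := iS 0x130d818 0x2c001c000c3414 (by decide +kernel)
def c168 : PP 6 5 T 0x20000000810000 := iS 0x110d818 0x2c001c000c5134 (by decide +kernel)
def c169 : PP 6 5 T 0x80201 := iS 0x10500a 0x2c001c000c5234 (by decide +kernel)
def c170 : PP 6 5 T 0x400000000800200 := iS 0x3b0600a 0x2c001c000c5244 (by decide +kernel)
def c171 : PP 6 5 T 0x802000000010 := iS 0x50c026 0x2c001c000c5214 (by decide +kernel)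
def c172 : PP 6 5 T 0x8012000000000 := iS 0x290d026 0x2c001c000c4324 (by decide +kernel)
def c173 : PP 6 5 T 0x8002400000000 := iS 0x230d026 0x2c001c000c5244 (by decide +kernel)
def c174 : PP 6 5 T 0x20021000000000 := iS 0x250d82a 0x2c001c000c3424 (by decide +kernel)
def c175 : PP 6 5 T 0x100800000000080 := iS 0x3902030 0x2c001c000c3124 (by decide +kernel)
def c176 : PP 6 5 T 0x800000000081 := iS 0x102030 0x2c001c000c5324 (by decide +kernel)
def c177 : PP 6 5 T 0x4800000800000 := iS 0x3306030 0x2c001c000c4134 (by decide +kernel)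
def c178 : PP 6 5 T 0x800000801000 := iS 0xd06030 0x2c001c000c5344 (by decide +kernel)
def c179 : PP 6 5 T 0x200000000000204 := iS 0x30283a 0x2c001c000c5314 (by decide +kernel)
def c180 : PP 6 5 T 0x200020100000000 := iS 0x210a83a 0x2c001c000c5344 (by decide +kernel)
def c181 : PP 6 5 T 0x8000002010000 := iS 0x1106834 0x2c001c000c5314 (by decide +kernel)
def c182 : PP 6 5 T 0x108080000000000 := iS 0x390b034 0x2c001c000c3424 (by decide +kernel)
def c183 : PP 6 5 T 0x9080000000000 := iS 0x310b034 0x2c001c000c5324 (by decide +kernel)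
def c184 : PP 6 5 T 0x40002000080 := iS 0x2b0201a 0x2c001c000c4124 (by decide +kernel)
def c185 : PP 6 5 T 0x400000002000080 := iS 0x3b0201a 0x2c001c000c5424 (by decide +kernel)
def c186 : PP 6 5 T 0x2081000 := iS 0xd0501a 0x2c001c000c5434 (by decide +kernel)
def c187 : PP 6 5 T 0x80010000200 := iS 0x1d0282c 0x2c001c000c5414 (by decide +kernel)
def c188 : PP 6 5 T 0x82100000000 := iS 0x210982c 0x2c001c000c5434 (by decide +kernel)
def c189 : PP 6 5 T 0x20800000004000 := iS 0xf0c036 0x2c001c000c5414 (by decide +kernel)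
def c190 : PP 6 5 T 0x220000400000000 := iS 0x230e836 0x2c001c000c5424 (by decide +kernel)
def c191 : PP 6 5 T 0x15555000000000000015 := iS 0x140100c4d12c4911c4510c410fc3d 0xc841 (by decide +kernel)
def c192 : PP 6 5 T 0x15540015400000050000000 := iS 0x7c3b0745915c5514c5113c410fc3d 0x10841 (by decide +kernel)
def c193 : PP 6 5 T 0x15540000015000000000000540 := iS 0x2c070246518c6117c5d16c410fc3d 0x14841 (by decide +kernel)
def c194 : PP 6 5 T 0x540000540540000000000015000 := iS 0x440d03c6b1a46714c5113c4711443 0x10c41 (by decide +kernel)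
def c195 : PP 6 5 T 0x15000540000540000400000140000 := iS 0x54130bc711bc6d17c5d16c4711443 0x14c41 (by decide +kernel)
def c196 : PP 6 5 T 0x540000540540000000000005400000 := iS 0x6c17064771d47317c5d16c531444f 0x15041 (by decide +kernel)
def c197 : PP 6 5 T 0x540015015000001000500000000 := iS 0xc42108c6b1a467164571544d12c49 0x10c81 (by decide +kernel)
def c198 : PP 6 5 T 0x15015000015000100005000000000 := iS 0x9c250e4711bc6d194631844d12c49 0x14c81 (by decide +kernel)
def c199 : PP 6 5 T 0x540015015000000000150000000000 := iS 0xb4290ac771d473194631845915c55 0x15081 (by decide +kernel)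
def c200 : PP 6 5 T 0x555540000000000054000000000000 := iS 0xdc330d4771d4731c46f1b46b1a467 0x150c1 (by decide +kernel)
def c201 : PP 6 5 T 0x22200000 := iS 0x160681e 0x354213 (by decide +kernel)
def c202 : PP 6 5 T 0x208200 := iS 0x100580a 0x435213 (by decide +kernel)
def c203 : PP 6 5 T 0x8020200 := iS 0x120700a 0x345213 (by decide +kernel)
def c204 : PP 6 5 T 0x22000020 := iS 0x1a07806 0x542313 (by decide +kernel)
def c205 : PP 6 5 T 0x8000220 := iS 0x1c02806 0x452313 (by decide +kernel)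
def c206 : PP 6 5 T 0x80008200 := iS 0xa08010 0x524313 (by decide +kernel)
def c207 : PP 6 5 T 0x20220 := iS 0xa01812 0x523413 (by decide +kernel)
def c208 : PP 6 5 T 0x800000020800 := iS 0xc0c012 0x253413 (by decide +kernel)
def c209 : PP 6 5 T 0x80208000 := iS 0x2004016 0x243513 (by decide +kernel)
def c210 : PP 6 5 T 0x8020020 := iS 0x60481c 0x234513 (by decide +kernel)
def c211 : PP 6 5 T 0x200200000000002 := iS 0x2e0e802 0x453123 (by decide +kernel)
def c212 : PP 6 5 T 0x2000000000a0 := iS 0x2e02006 0x451323 (by decide +kernel)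
def c213 : PP 6 5 T 0x200200080000000 := iS 0x200b83a 0x145323 (by decide +kernel)
def c214 : PP 6 5 T 0x8080000080 := iS 0x2802020 0x351423 (by decide +kernel)
def c215 : PP 6 5 T 0x80000000802 := iS 0x20302c 0x315423 (by decide +kernel)
def c216 : PP 6 5 T 0x88000000020 := iS 0x60a02c 0x135423 (by decide +kernel)
def c217 : PP 6 5 T 0x800008000000020 := iS 0x3c01828 0x413523 (by decide +kernel)
def c218 : PP 6 5 T 0x8880000000 := iS 0x2009028 0x143523 (by decide +kernel)
def c219 : PP 6 5 T 0x2200000000020 := iS 0x60c82e 0x134523 (by decide +kernel)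
def c220 : PP 6 5 T 0x80002000000002 := iS 0x3809802 0x452133 (by decide +kernel)
def c221 : PP 6 5 T 0x20008000002000 := iS 0x280d80e 0x254133 (by decide +kernel)
def c222 : PP 6 5 T 0x20000000002008 := iS 0x3603804 0x541233 (by decide +kernel)
def c223 : PP 6 5 T 0x2000a0000 := iS 0x1404822 0x514233 (by decide +kernel)
def c224 : PP 6 5 T 0x20000200200000 := iS 0x160d822 0x154233 (by decide +kernel)
def c225 : PP 6 5 T 0x2000202000 := iS 0xe05826 0x415233 (by decide +kernel)
def c226 : PP 6 5 T 0x80002000020000 := iS 0x120e026 0x145233 (by decide +kernel)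
def c227 : PP 6 5 T 0x2000020002 := iS 0x2600812 0x521433 (by decide +kernel)
def c228 : PP 6 5 T 0x80000a0000 := iS 0x2805012 0x251433 (by decide +kernel)
def c229 : PP 6 5 T 0x2002000200000 := iS 0x1609832 0x152433 (by decide +kernel)
def c230 : PP 6 5 T 0x20000000200002 := iS 0x205836 0x215433 (by decide +kernel)
def c231 : PP 6 5 T 0x8000002008 := iS 0xe01028 0x412533 (by decide +kernel)
def c232 : PP 6 5 T 0x8200020000 := iS 0x1208828 0x142533 (by decide +kernel)
def c233 : PP 6 5 T 0x80000000020002 := iS 0x204838 0x214533 (by decide +kernel)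
def c234 : PP 6 5 T 0x20800002000 := iS 0x2a0900e 0x523143 (by decide +kernel)
def c235 : PP 6 5 T 0x80000800800000 := iS 0x240e018 0x235143 (by decide +kernel)
def c236 : PP 6 5 T 0x8000020002000 := iS 0x340381e 0x531243 (by decide +kernel)
def c237 : PP 6 5 T 0x80000020800000 := iS 0x380601e 0x351243 (by decide +kernel)
def c238 : PP 6 5 T 0x200808000 := iS 0x1804022 0x513243 (by decide +kernel)
def c239 : PP 6 5 T 0x8000208000000 := iS 0x1c0d022 0x153243 (by decide +kernel)
def c240 : PP 6 5 T 0x20008002000 := iS 0xe0702a 0x315243 (by decide +kernel)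
def c241 : PP 6 5 T 0x80020000008000 := iS 0x100e02a 0x135243 (by decide +kernel)
def c242 : PP 6 5 T 0x800020000008000 := iS 0x2a0f010 0x521343 (by decide +kernel)
def c243 : PP 6 5 T 0x200000808000 := iS 0x2e06010 0x251343 (by decide +kernel)
def c244 : PP 6 5 T 0x20808000000 := iS 0x1c0a824 0x152343 (by decide +kernel)
def c245 : PP 6 5 T 0x808000008000000 := iS 0x3c07034 0x215343 (by decide +kernel)
def c246 : PP 6 5 T 0x800000208000000 := iS 0x220f01c 0x321543 (by decide +kernel)
def c247 : PP 6 5 T 0x200200008000 := iS 0x100882e 0x132543 (by decide +kernel)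
def c248 : PP 6 5 T 0x80000820000000 := iS 0x1e09038 0x123543 (by decide +kernel)
def c249 : PP 6 5 T 0x8002000000080 := iS 0x3409808 0x432153 (by decide +kernel)
def c250 : PP 6 5 T 0x20020000000080 := iS 0x360a808 0x342153 (by decide +kernel)
def c251 : PP 6 5 T 0x200020000080000 := iS 0x2a0e814 0x423153 (by decide +kernel)
def c252 : PP 6 5 T 0x8080000080000 := iS 0x2c0d014 0x243153 (by decide +kernel)
def c253 : PP 6 5 T 0x220000000800000 := iS 0x3a0d818 0x234153 (by decide +kernel)
def c254 : PP 6 5 T 0x8000000080200 := iS 0x340500a 0x431253 (by decide +kernel)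
def c255 : PP 6 5 T 0x20000000800200 := iS 0x360600a 0x341253 (by decide +kernel)
def c256 : PP 6 5 T 0x802000800000 := iS 0x180c026 0x413253 (by decide +kernel)
def c257 : PP 6 5 T 0x20002080000 := iS 0x140682a 0x314253 (by decide +kernel)
def c258 : PP 6 5 T 0x820000000080 := iS 0x2a02030 0x421353 (by decide +kernel)
def c259 : PP 6 5 T 0x880000800000 := iS 0x2c06030 0x241353 (by decide +kernel)
def c260 : PP 6 5 T 0x200000000800200 := iS 0x180283a 0x412353 (by decide +kernel)
def c261 : PP 6 5 T 0x200020002000000 := iS 0x1a0a83a 0x142353 (by decide +kernel)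
def c262 : PP 6 5 T 0x8000002000080 := iS 0x806834 0x214353 (by decide +kernel)
def c263 : PP 6 5 T 0x8080000000200 := iS 0xa0b034 0x124353 (by decide +kernel)
def c264 : PP 6 5 T 0x200000002080000 := iS 0x3a0501a 0x231453 (by decide +kernel)
def c265 : PP 6 5 T 0x80000080200 := iS 0x140282c 0x312453 (by decide +kernel)
def c266 : PP 6 5 T 0x20800000000080 := iS 0x80c036 0x213453 (by decide +kernel)
def c267 : PP 6 5 T 0x220000000000200 := iS 0xa0e836 0x123453 (by decide +kernel)
def c268 : PP 6 5 T 0x2000000000000000 := iS 0x3e 0x217 (by decide +kernel)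
def c269 : PP 6 5 T 0x80000000000000000 := iS 0x44 0x317 (by decide +kernel)
def c270 : PP 6 5 T 0x80000000000000000000 := iS 0x50 0x417 (by decide +kernel)
def c271 : PP 6 5 T 0x80000000000000000000000 := iS 0x5c 0x517 (by decide +kernel)
def c272 : PP 6 5 T 0x20000000000000000 := iS 0x42 0x127 (by decide +kernel)
def c273 : PP 6 5 T 0x2000000000000000000 := iS 0x4a 0x327 (by decide +kernel)
def c274 : PP 6 5 T 0x2000000000000000000000 := iS 0x56 0x427 (by decide +kernel)
def c275 : PP 6 5 T 0x2000000000000000000000000 := iS 0x62 0x527 (by decide +kernel)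
def c276 : PP 6 5 T 0x800000000000000000 := iS 0x48 0x137 (by decide +kernel)
def c277 : PP 6 5 T 0x20000000000000000000 := iS 0x4e 0x237 (by decide +kernel)
def c278 : PP 6 5 T 0x80000000000000000000000000 := iS 0x68 0x437 (by decide +kernel)
def c279 : PP 6 5 T 0x2000000000000000000000000000 := iS 0x6e 0x537 (by decide +kernel)
def c280 : PP 6 5 T 0x800000000000000000000 := iS 0x54 0x147 (by decide +kernel)
def c281 : PP 6 5 T 0x20000000000000000000000 := iS 0x5a 0x247 (by decide +kernel)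
def c282 : PP 6 5 T 0x800000000000000000000000000 := iS 0x6c 0x347 (by decide +kernel)
def c283 : PP 6 5 T 0x80000000000000000000000000000 := iS 0x74 0x547 (by decide +kernel)
def c284 : PP 6 5 T 0x800000000000000000000000 := iS 0x60 0x157 (by decide +kernel)
def c285 : PP 6 5 T 0x20000000000000000000000000 := iS 0x66 0x257 (by decide +kernel)
def c286 : PP 6 5 T 0x20000000000000000000000000000 := iS 0x72 0x357 (by decide +kernel)
def c287 : PP 6 5 T 0x800000000000000000000000000000 := iS 0x78 0x457 (by decide +kernel)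
def c288 : PP 6 5 T 0x8000000000000000 := iS 0x40 0x21b (by decide +kernel)
def c289 : PP 6 5 T 0x200000000000000000 := iS 0x46 0x31b (by decide +kernel)
def c290 : PP 6 5 T 0x200000000000000000000 := iS 0x52 0x41b (by decide +kernel)
def c291 : PP 6 5 T 0x200000000000000000000000 := iS 0x5e 0x51b (by decide +kernel)
def c292 : PP 6 5 T 0x8000000000000000000 := iS 0x4c 0x32b (by decide +kernel)
def c293 : PP 6 5 T 0x8000000000000000000000 := iS 0x58 0x42b (by decide +kernel)
def c294 : PP 6 5 T 0x8000000000000000000000000 := iS 0x64 0x52b (by decide +kernel)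
def c295 : PP 6 5 T 0x200000000000000000000000000 := iS 0x6a 0x43b (by decide +kernel)
def c296 : PP 6 5 T 0x8000000000000000000000000000 := iS 0x70 0x53b (by decide +kernel)
def c297 : PP 6 5 T 0x200000000000000000000000000000 := iS 0x76 0x54b (by decide +kernel)
def c298 : PP 6 5 T 0x5018000000000 := rS 0x8446492a934b267259acae69 (k8 c295 c293 c282 c292 c278 c281 c277 c274 (k4 c273 c82 c115 c197 k0)) (by decide +kernel)
def c299 : PP 6 5 T 0x40218000000 := rS 0xec3e3d27904a6551f964a257 (k8 c293 c290 c281 c288 c274 c280 c272 c270 (k4 c268 c55 c246 c192 k0)) (by decide +kernel)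
def c300 : PP 6 5 T 0x80200400000000 := rS 0x3e3b0580c5c130d8543a0c088041e241c8805627188d452331e93c82532a8fcb2512b90cb6472f9b48a712e9bcce6b349249a4b (k8 c292 c277 c273 c295 c282 c278 c296 c291 (k8 c286 c289 c279 c284 c276 c271 c269 c293 (k8 c290 c281 c288 c274 c280 c272 c270 c268 (k8 c20 c16 c22 c86 c298 c21 c197 c71 (k8 c155 c247 c220 c226 c194 c130 c225 c299 (k4 c96 c195 c25 c39 (k2 c120 c83 (k1 c192 k0)))))))) (by decide +kernel)
def c301 : PP 6 5 T 0x80200000000200 := rS 0xd088142a27188d45233128841e3a0f87402381110c9e472999c8a6b289a4ae591f954823d (k8 c268 c272 c274 c288 c281 c293 c295 c290 (k8 c282 c289 c278 c280 c276 c270 c269 c300 (k8 c159 c211 c248 c213 c192 c140 c13 c102 (k8 c20 c16 c22 c86 c298 c30 c35 c116 (k2 c124 c194 k0))))) (by decide +kernel)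
def c302 : PP 6 5 T 0x80200000000000 := rS 0x11068640a060482c1e3a0f80470170e88856432791ca667229aca2691e96c825f308fcca5d31954b257 (k8 c293 c281 c274 c294 c291 c285 c288 c275 (k8 c284 c272 c271 c268 c295 c290 c282 c289 (k8 c278 c280 c276 c270 c269 c21 c300 c248 (k8 c235 c159 c211 c213 c192 c140 c80 c301 (k4 c193 c212 c184 c124 (k2 c117 c194 k0)))))) (by decide +kernel)
def c303 : PP 6 5 T 0x80000000009400 := rS 0x31108e00006048b83433118b4925526964ce4b3595cd23d2d904be611f994ba63 (k8 c294 c291 c285 c288 c275 c284 c272 c271 (k8 c268 c295 c293 c282 c292 c278 c281 c277 (k8 c274 c273 c302 c158 c20 c156 c157 c32 (k4 c193 c176 c175 c87 (k2 c76 c197 k0))))) (by decide +kernel)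
def c304 : PP 6 5 T 0x80000000001400 := rS 0x38247627100c43a020c05002050803c462d1e96c825f308fcca5d31924aa4d2c99c966b2b9a486472293ca651 (k8 c290 c280 c270 c289 c276 c269 c295 c293 (k8 c282 c292 c278 c281 c277 c274 c273 c294 (k8 c291 c285 c288 c275 c284 c272 c271 c268 (k8 c302 c158 c303 c194 c45 c233 c116 c117 (k8 c191 c201 c107 c197 c232 c119 c30 c185 (k1 c193 k0)))))) (by decide +kernel)
def c305 : PP 6 5 T 0x80000000001000 := rS 0x5426148b81c110206402030504c4a2d2a984b2653995cee633a90c9e472999c8a6b289a47a41248fc9a4b (k8 c292 c277 c288 c273 c272 c268 c295 c290 (k8 c282 c289 c278 c280 c276 c270 c269 c297 (k8 c294 c287 c293 c283 c285 c281 c275 c274 (k8 c302 c103 c95 c304 c50 c79 c48 c191 (k4 c117 c194 c157 c241 (k2 c39 c199 (k1 c216 k0))))))) (by decide +kernel)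
def c306 : PP 6 5 T 0x4008211000020 := rS 0x170d8b8504f2d94cbe73289dcba75 (k8 c297 c291 c287 c290 c283 c284 c280 c271 (k4 c270 c115 c81 c136 (k2 c177 c196 k0))) (by decide +kernel)
def c307 : PP 6 5 T 0x80004000000800 := rS 0xb8505438148945a0c03954c259329ccae77319d4924d3692ce26f (k8 c296 c286 c292 c279 c277 c273 c297 c294 (k8 c287 c293 c283 c285 c281 c275 c274 c4 (k8 c305 c302 c103 c139 c198 c199 c70 c165 (k1 c113 k0)))) (by decide +kernel)
def c308 : PP 6 5 T 0x80000000000820 := rS 0x84621d1988c1e0c0c8b44c492a934b267259acae69 (k8 c295 c293 c282 c292 c278 c281 c277 c274 (k8 c273 c307 c302 c48 c305 c5 c158 c20 (k4 c33 c75 c306 c197 k0))) (by decide +kernel)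
def c309 : PP 6 5 T 0x80000000000800 := rS 0x14068561200014062516830aa612c994e6573b98cea3d219048e491f9348a4b (k8 c292 c289 c277 c288 c273 c276 c272 c269 (k8 c268 c297 c294 c287 c293 c283 c285 c281 (k8 c275 c274 c305 c302 c103 c50 c308 c191 (k4 c79 c215 c96 c199 (k1 c240 k0))))) (by decide +kernel)
def c310 : PP 6 5 T 0x80020000000010 := rS 0x170c870000313080362b0602c9e5b2997ce6513b974ea3d219048e491f9348a4b (k8 c292 c289 c277 c288 c273 c276 c272 c269 (k8 c268 c297 c291 c287 c290 c283 c284 c280 (k8 c271 c270 c309 c305 c15 c137 c138 c139 (k4 c231 c191 c88 c28 (k2 c237 c196 k0))))) (by decide +kernel)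
def c311 : PP 6 5 T 0x80080000800002 := rS 0x130780c14 (k4 c129 c165 c166 c111 (k1 c214 k0)) (by decide +kernel)
def c312 : PP 6 5 T 0x80018000100000 := rS 0x40780e3019830163d2d904be611f994ba63 (k8 c294 c291 c285 c288 c275 c284 c272 c271 (k8 c268 c309 c305 c20 c298 c60 c91 c193 (k1 c44 k0))) (by decide +kernel)
def c313 : PP 6 5 T 0x80000000000012 := rS 0x34130c87012201c0c44e150b80c4625060a8522d2796ca65f39944ee5d3a924aa4d2c99c966b2b9a4c265369c4c66f (k8 c296 c294 c286 c279 c285 c275 c295 c293 (k8 c282 c292 c278 c281 c277 c274 c273 c297 (k8 c291 c287 c290 c283 c284 c280 c271 c270 (k8 c302 c310 c199 c305 c103 c158 c1 c311 (k8 c113 c312 c118 c198 c197 c179 c88 c27 (k2 c162 c196 (k1 c152 k0))))))) (by decide +kernel)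
def c314 : PP 6 5 T 0x80000000000010 := rS 0x545e170484c3e1d010045429128b4220c2196c8e5f36914e25d378f482491f934965530964ca732b9dcc675 (k8 c297 c294 c287 c293 c283 c285 c281 c275 (k8 c274 c292 c277 c288 c273 c272 c268 c296 (k8 c291 c286 c289 c279 c284 c276 c271 c269 (k8 c305 c6 c302 c103 c310 c199 c313 c191 (k8 c130 c41 c97 c187 c166 c24 c113 c195 k0))))) (by decide +kernel)
def c315 : PP 6 5 T 0x80100000000000 := rS 0xf05c0c1d0a82476040583c18251198cba653097cb657289647e55299049e3d (k8 c268 c270 c272 c280 c274 c288 c281 c290 (k8 c293 c271 c284 c275 c285 c291 c294 c158 (k8 c103 c305 c5 c309 c314 c63 c35 c53 (k4 c33 c193 c129 c192 (k1 c74 k0))))) (by decide +kernel)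
def c316 : PP 6 5 T 0x80000000000000 := rS 0x2d (k2 c302 c315 k0) (by decide +kernel)
def c317 : PP 6 5 T 0x402020 := rS 0x84462c1d8280e39048486818188cc3601249549a593392cd657348dc7a5b2097cc23f32974c66d389ccee6f3a93ca651 (k8 c290 c280 c270 c297 c296 c287 c283 c286 (k8 c279 c294 c291 c285 c288 c275 c284 c272 (k8 c271 c268 c316 c295 c293 c282 c292 c278 (k8 c281 c277 c274 c273 c2 c151 c125 c90 (k8 c196 c200 c92 c169 c264 c65 c193 c80 (k4 c48 c123 c154 c197 k0)))))) (by decide +kernel)
def c318 : PP 6 5 T 0x200000101120 := rS 0x98bc30270f028441d038c4423b2196c8e5f36914e25d378f49e41299547e592895cc265319249a67259acd237 (k8 c316 c295 c282 c292 c278 c277 c273 c294 (k8 c285 c275 c293 c290 c281 c288 c274 c280 (k8 c272 c270 c268 c296 c291 c286 c289 c279 (k8 c284 c276 c271 c269 c64 c154 c219 c212 (k8 c153 c197 c193 c192 c218 c84 c39 c186 (k1 c195 k0)))))) (by decide +kernel)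
def c319 : PP 6 5 T 0x800500120 := rS 0xbc260a0801c3c1d018ec1a432d91cbe6d229c4ba6f1e904c23f3298c9e532a964a257 (k8 c293 c290 c281 c274 c280 c270 c294 c285 (k8 c288 c275 c272 c268 c296 c291 c286 c289 (k8 c279 c284 c276 c271 c269 c317 c64 c10 (k8 c142 c192 c74 c68 c193 c106 c208 c195 k0)))) (by decide +kernel)
def c320 : PP 6 5 T 0x400002018008000 := rS 0x15878423d27904a6551f964a257 (k8 c293 c290 c281 c288 c274 c280 c272 c270 (k4 c268 c133 c192 c188 (k1 c55 k0))) (by decide +kernel)
def c321 : PP 6 5 T 0x500920 := rS 0xac401f0e0906827198bc34390c8ec5a0e0888c1a4930934ca6d259c4c66f339ace6693b9d46e4f2d94cbe512e9148e43 (k8 c269 c276 c289 c291 c290 c284 c280 c271 (k8 c270 c316 c297 c287 c295 c283 c282 c278 (k8 c296 c294 c286 c292 c279 c285 c277 c275 (k8 c273 c317 c319 c45 c194 c318 c64 c48 (k8 c70 c196 c40 c146 c81 c200 c198 c320 (k4 c11 c34 c77 c101 k0)))))) (by decide +kernel)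
def c322 : PP 6 5 T 0x500120 := rS 0x6a331c0480c0b1198cba651f984be412d8f46e75379dcd273389acda67 (k8 c278 c279 c282 c286 c283 c295 c287 c296 (k8 c297 c316 c268 c271 c272 c284 c275 c288 (k8 c285 c291 c294 c319 c321 c193 c66 c65 (k2 c163 c190 (k1 c200 k0))))) (by decide +kernel)
def c323 : PP 6 5 T 0x500020 := rS 0x3e1d07060221b040ec1a3d27904a6551f964a2572191cce45359a4b65f399dcba75 (k8 c297 c291 c287 c283 c284 c271 c295 c282 (k8 c289 c278 c276 c269 c293 c290 c281 c288 (k8 c274 c280 c272 c270 c268 c317 c64 c322 (k4 c205 c207 c196 c194 (k2 c204 c206 (k1 c192 k0)))))) (by decide +kernel)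
def c324 : PP 6 5 T 0x80500200 := rS 0x1832000d4062e098e4302807814ce6d359c4e6693b9bcea371e90c8247248fc9a452596cbe5d (k8 c291 c284 c271 c292 c289 c277 c288 c273 (k8 c276 c272 c269 c268 c316 c297 c296 c287 (k8 c295 c283 c286 c282 c279 c278 c323 c36 (k8 c44 c43 c261 c257 c195 c25 c189 c191 (k2 c200 c73 (k1 c125 k0)))))) (by decide +kernel)
def c325 : PP 6 5 T 0x80000100210 := rS 0x251c8b868131989c926126994da4b3898cde432d91cbe452e99cd673349dcea37 (k8 c316 c297 c287 c295 c283 c282 c278 c291 (k8 c289 c284 c276 c271 c269 c296 c294 c286 (k8 c292 c279 c285 c277 c275 c273 c78 c263 (k4 c265 c200 c195 c267 (k2 c171 c198 k0))))) (by decide +kernel)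
def c326 : PP 6 5 T 0x20500200 := rS 0x8c620313848422f160683207058ac0a492a934b267259acae692196c8e5f36914e25d378dc9e5339944ee75 (k8 c297 c287 c290 c283 c280 c270 c316 c296 (k8 c291 c286 c289 c279 c284 c276 c271 c269 (k8 c295 c293 c282 c292 c278 c281 c277 c274 (k8 c273 c323 c325 c12 c3 c28 c196 c32 (k8 c40 c154 c195 c94 c98 c85 c142 c197 k0))))) (by decide +kernel)
def c327 : PP 6 5 T 0x200002080410 := rS 0x8c620c13884925526964ce4b3595cd237 (k8 c316 c295 c293 c282 c292 c278 c281 c277 (k8 c274 c273 c154 c94 c186 c85 c124 c197 k0)) (by decide +kernel)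
def c328 : PP 6 5 T 0x800a00400000000 := rS 0x223019884925526964ce4b3595cd237 (k8 c316 c295 c293 c282 c292 c278 c281 c277 (k4 c274 c273 c154 c147 (k2 c197 c47 (k1 c58 k0)))) (by decide +kernel)
def c329 : PP 6 5 T 0x500200 := rS 0x11190c4442600094062e098e458181486c741d1587c1605249849a653692ce263378f48641238fc8a5b2f9746e552c9ccae773a93ca651 (k8 c290 c280 c270 c297 c287 c293 c283 c281 (k8 c274 c316 c291 c284 c271 c289 c288 c276 (k8 c272 c269 c268 c296 c294 c286 c292 c279 (k8 c285 c277 c275 c273 c323 c12 c324 c325 (k8 c326 c192 c31 c121 c196 c199 c72 c327 (k8 c195 c25 c171 c191 c198 c328 c18 c82 (k2 c104 c181 k0))))))) (by decide +kernel)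
def c330 : PP 6 5 T 0x800000500000 := rS 0x6a3303060161b02824ce6d359c4e6693b9bcea371e96c825f308fcca5d3193ca651 (k8 c290 c280 c270 c294 c291 c285 c288 c275 (k8 c284 c272 c271 c268 c316 c297 c296 c287 (k8 c295 c283 c286 c282 c279 c278 c329 c323 (k4 c40 c38 c196 c193 (k2 c262 c266 (k1 c200 k0)))))) (by decide +kernel)
def c331 : PP 6 5 T 0x120000000002110 := rS 0x90002701924c24d329b49671319bc7a432091c7e45 (k8 c289 c288 c276 c272 c269 c268 c296 c294 (k8 c286 c292 c279 c285 c277 c275 c273 c222 (k4 c221 c191 c198 c89 k0))) (by decide +kernel)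
def c332 : PP 6 5 T 0x4002000088110 := rS 0xa45a06110ec040115884aa612c994e6573b98cea3d219048e491f9348a4b (k8 c292 c289 c277 c288 c273 c276 c272 c269 (k8 c268 c297 c294 c287 c293 c283 c285 c281 (k8 c275 c274 c134 c188 c89 c191 c140 c23 (k4 c98 c61 c143 c199 k0)))) (by decide +kernel)
def c333 : PP 6 5 T 0x500000 := rS 0x1d8741429130943e0e068d06639088485e0902974be5b1b9d4ee73349ac8a672390cde633892cda65269849257289647e55299049e3d (k8 c268 c270 c272 c280 c274 c288 c281 c290 (k8 c293 c273 c275 c277 c285 c279 c292 c286 (k8 c294 c296 c269 c276 c278 c289 c282 c295 (k8 c283 c287 c297 c316 c271 c284 c291 c323 (k8 c329 c330 c195 c106 c162 c163 c200 c331 (k8 c194 c36 c332 c198 c174 c94 c52 c80 (k1 c192 k0))))))) (by decide +kernel)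
def c334 : PP 6 5 T 0x20002000400000 := rS 0x1d8740e310987c0401028403419108507a4f2094caa3f2c944ae752e9dce65f2d8dc9645269248e43 (k8 c269 c276 c273 c277 c289 c292 c316 c271 (k8 c284 c283 c287 c291 c297 c293 c290 c281 (k8 c288 c274 c280 c272 c270 c268 c333 c224 (k8 c49 c196 c109 c210 c230 c191 c42 c7 (k4 c229 c160 c26 c150 (k1 c192 k0)))))) (by decide +kernel)
def c335 : PP 6 5 T 0x4000000400000 := rS 0x1d1d8c45a381287c4e02048140221080d034190a0f49e41299547e592895c6e4930934ca6d259c4c66f2191c8a67359ccd2773a974be5b (k8 c271 c284 c291 c297 c287 c295 c283 c282 (k8 c278 c289 c276 c269 c296 c294 c286 c292 (k8 c279 c285 c277 c275 c273 c316 c293 c290 (k8 c281 c288 c274 c280 c272 c270 c268 c333 (k8 c49 c196 c200 c109 c224 c230 c210 c203 (k8 c191 c114 c42 c334 c198 c72 c76 c149 (k2 c26 c192 k0))))))) (by decide +kernel)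
def c336 : PP 6 5 T 0x800400000 := rS 0x148ac6a2d0e0ec3e09070c834190a154c259329ccae77319d4ba512f94cb64f1b8fc823d (k8 c268 c272 c288 c316 c270 c271 c280 c284 (k8 c290 c291 c297 c294 c287 c293 c283 c285 (k8 c281 c275 c274 c333 c49 c196 c335 c145 (k8 c202 c209 c245 c192 c153 c19 c69 c244 (k1 c199 k0))))) (by decide +kernel)
def c337 : PP 6 5 T 0x400000 := rS 0x56291c82c0003118b40a1c0487c7621070c834191784c285530964ca732b9dcc6751e90c8247248fc9a452593ca6512d97cba37 (k8 c316 c291 c284 c271 c290 c280 c270 c292 (k8 c289 c277 c288 c273 c276 c272 c269 c268 (k8 c297 c294 c287 c293 c283 c285 c281 c275 (k8 c274 c333 c7 c17 c49 c196 c335 c145 (k8 c239 c245 c209 c202 c192 c34 c153 c336 (k4 c23 c191 c79 c57 (k2 c137 c182 (k1 c199 k0)))))))) (by decide +kernel)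
def c338 : PP 6 5 T 0x2000000 := rS 0x16 (k2 c337 c8 k0) (by decide +kernel)
def c339 : PP 6 5 T 0x8000000 := rS 0x16 (k2 c337 c9 k0) (by decide +kernel)
def c340 : PP 6 5 T 0x8080000000004 := rS 0x10283c5e381804c7a432091c923f269149616 (k8 c337 c292 c289 c277 c288 c273 c276 c272 (k8 c269 c268 c252 c183 c182 c259 c141 c75 (k2 c57 c191 k0))) (by decide +kernel)
def c341 : PP 6 5 T 0x208020000004004 := rS 0x382c5c150604412201e96c825f308fcca5d318dc864f2394cce4535944d216 (k8 c337 c295 c290 c282 c289 c278 c280 c276 (k8 c270 c269 c316 c294 c291 c285 c288 c275 (k8 c284 c272 c271 c268 c180 c260 c99 c194 (k4 c112 c126 c70 c258 (k1 c193 k0))))) (by decide +kernel)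
def c342 : PP 6 5 T 0x820100004000 := rS 0xb0481476301181c220c1e96c825f308fcca5d31858925526964ce4b3595cd219 (k8 c338 c295 c293 c282 c292 c278 c281 c277 (k8 c274 c273 c337 c294 c291 c285 c288 c275 (k8 c284 c272 c271 c268 c178 c46 c258 c234 (k4 c197 c58 c75 c170 (k2 c38 c193 k0))))) (by decide +kernel)
def c343 : PP 6 5 T 0x8020000004004 := rS 0xec200504834282f108e4263d219048e491f9348a4b2794cce6b289a4b65f369c4ba6f (k8 c296 c291 c286 c279 c284 c271 c295 c290 (k8 c282 c278 c280 c270 c292 c289 c277 c288 (k8 c273 c276 c272 c269 c268 c164 c341 c135 (k8 c342 c195 c126 c29 c54 c194 c122 c191 (k1 c105 k0))))) (by decide +kernel)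
def c344 : PP 6 5 T 0x500000000008114 := rS 0x16260e0943e000906c926126994da4b3898cde3d27904a6551f964a2572191c8a16 (k8 c337 c289 c276 c269 c293 c290 c281 c288 (k8 c274 c280 c272 c270 c268 c296 c294 c286 (k8 c292 c279 c285 c277 c275 c273 c339 c141 (k4 c191 c36 c89 c192 (k2 c198 c51 (k1 c94 k0)))))) (by decide +kernel)
def c345 : PP 6 5 T 0x10020000000004 := rS 0x310f0903a2702024722f1d884240d070c87a4f2094caa3f2c944ae4930934ca6d259c4c66f0b0dcea77349ccd667 (k8 c278 c282 c283 c295 c287 c297 c316 c337 (k8 c296 c294 c286 c292 c279 c285 c277 c275 (k8 c273 c293 c290 c281 c288 c274 c280 c272 (k8 c270 c268 c200 c343 c5 c141 c238 c242 (k8 c178 c251 c254 c344 c81 c34 c198 c192 (k2 c108 c37 k0)))))) (by decide +kernel)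
def c346 : PP 6 5 T 0x10000000000004 := rS 0x28041e3a130885829158c87a432091c923f2691496162a984b2653995cee633a8dcde69389acda67 (k8 c278 c279 c282 c286 c295 c296 c316 c297 (k8 c294 c287 c293 c283 c285 c281 c275 c274 (k8 c337 c292 c289 c277 c288 c273 c276 c272 (k8 c269 c268 c200 c340 c345 c199 c147 c148 (k4 c127 c243 c56 c217 (k1 c191 k0)))))) (by decide +kernel)
def c347 : PP 6 5 T 0x10010000000000 := rS 0x2b168c4161d128c8045530964ca732b9dcc6750b0dcde69389acda67 (k8 c278 c279 c282 c286 c295 c296 c316 c337 (k8 c297 c294 c287 c293 c283 c285 c281 c275 (k8 c274 c346 c200 c172 c131 c50 c107 c128 (k2 c183 c199 k0)))) (by decide +kernel)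
def c348 : PP 6 5 T 0x10001010000000 := rS 0x1c8801031038c81602118a02c492a934b267259acae691e96c825f308fcca5d318dcea6f3b9cce26d (k8 c279 c286 c283 c287 c296 c297 c316 c294 (k8 c291 c285 c288 c275 c284 c272 c271 c268 (k8 c295 c293 c282 c292 c278 c281 c277 c274 (k8 c273 c337 c347 c144 c346 c50 c200 c161 (k4 c107 c193 c197 c260 (k1 c135 k0)))))) (by decide +kernel)
def c349 : PP 6 5 T 0x10001000000000 := rS 0x211c0404e0d0307c380f098c8020214124c24d329b49671319bc864f2394cce4535944d2161b9d4ee73 (k8 c283 c287 c297 c316 c337 c295 c290 c282 (k8 c289 c278 c280 c276 c270 c269 c296 c294 (k8 c286 c292 c279 c285 c277 c275 c273 c347 (k8 c346 c1 c200 c97 c141 c348 c11 c132 (k4 c236 c59 c194 c198 (k2 c100 c180 k0)))))) (by decide +kernel)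
def c350 : PP 6 5 T 0x10000000000000 := rS 0x3a0487c28130e8885e07138905005010c87a4f2094caa3f2c944ae432d91cbe6d229c4ba6f0b19cd673349dcea37 (k8 c316 c297 c287 c295 c283 c282 c278 c337 (k8 c296 c291 c286 c289 c279 c284 c276 c271 (k8 c269 c293 c290 c281 c288 c274 c280 c272 (k8 c270 c268 c200 c346 c10 c347 c349 c14 (k8 c249 c256 c173 c132 c98 c195 c67 c30 (k2 c192 c122 k0)))))) (by decide +kernel)
def c351 : PP 6 5 T 0x8000000000000 := rS 0x34 (k2 c350 c19 k0) (by decide +kernel)
def c352 : PP 6 5 T 0x200000 := rS 0x3634 (k2 c350 c339 (k1 c110 k0)) (by decide +kernel)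
def c353 : PP 6 5 T 0x40000 := rS 0x2c34 (k2 c350 c337 (k1 c167 k0)) (by decide +kernel)
def c354 : PP 6 5 T 0x10000 := rS 0x2c34 (k2 c350 c337 (k1 c168 k0)) (by decide +kernel)
def c355 : PP 6 5 T 0x200000000000000 := rS 0x2c34 (k2 c350 c337 (k1 c253 k0)) (by decide +kernel)
def c356 : PP 6 5 T 0x200 := rS 0x2c34 (k2 c350 c337 (k1 c255 k0)) (by decide +kernel)
def c357 : PP 6 5 T 0x2000 := rS 0x3234 (k2 c350 c338 (k1 c93 k0)) (by decide +kernel)
def c358 : PP 6 5 T 0x200000000 := rS 0x2410 (k2 c354 c353 (k1 c223 k0)) (by decide +kernel)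
def c359 : PP 6 5 T 0x8000000000 := rS 0x2410 (k2 c354 c353 (k1 c228 k0)) (by decide +kernel)
def c360 : PP 6 5 T 0x1000000000 := rS 0xe4de633892cda65269849227 (k8 c359 c273 c275 c277 c285 c279 c292 c286 (k4 c294 c296 c355 c198 k0)) (by decide +kernel)
def c361 : PP 6 5 T 0x2 := rS 0x2024 (k2 c360 c354 (k1 c227 k0)) (by decide +kernel)
def c362 : PP 6 5 T 0x80000000000 := rS 0x4224 (k2 c360 c358 (k1 c188 k0)) (by decide +kernel)
def c363 : PP 6 5 T 0x20000000000 := rS 0x6050388c7a432091c923f269149601090406833 (k8 c351 c350 c354 c353 c361 c292 c289 c277 (k8 c288 c273 c276 c272 c269 c268 c143 c250 (k2 c45 c98 (k1 c191 k0)))) (by decide +kernel)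
def c364 : PP 6 5 T 0x100000000000 := rS 0xacea633b95ce6652c984aa29 (k8 c363 c274 c275 c281 c285 c283 c293 c287 (k4 c294 c297 c362 c199 k0)) (by decide +kernel)
def c365 : PP 6 5 T 0x80 := rS 0x362c (k2 c364 c339 (k1 c62 k0)) (by decide +kernel)
def c366 : PP 6 5 T 0x20 := rS 0xa834122c (k4 c364 c356 c357 c352 (k1 c318 k0)) (by decide +kernel)
def c367 : PP 6 5 T 0x8 := rS 0x2407 (k2 c365 c353 (k1 c98 k0)) (by decide +kernel)
theorem fin : ∀ d, Hyp 6 5 d → False := fS (T := T) (rS 0x92c8a4d1f9248e41218f40605 (k8 c366 c367 c268 c269 c272 c276 c273 c288 (k4 c277 c289 c292 c361 (k1 c191 k0))) (by decide +kernel))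

end Pool.Agent.H551.GP.E65
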