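import Pool.Agent.H551.GP.E84ni1
import Pool.Agent.H551.GP.E84ni2
import Pool.Agent.H551.GP.E84ni3

/-! Certificate data. -/

set_option linter.all false
set_option maxRecDepth 100000

namespace Pool.Agent.H551.GP.E84n

def a0 : PP 8 4 T 0x5000110440002040000000010000000000000000000000000000000000000000000000000000015 := rS 0xd5 (k2 i3190 i1993 k0) (by decide +kernel)
def a1 : PP 8 4 T 0x100440000102110000004000000000000000000000000000000000015000000000000000000000 := rS 0x262e9 (k2 i3180 i3161 (k1 i2009 k0)) (by decide +kernel)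
def a2 : PP 8 4 T 0x2200000000000000000000000000000000000000000020000000000000000000000 := rS 0xe9 (k2 i3180 i427 k0) (by decide +kernel)
def a3 : PP 8 4 T 0x800000000000000002000000000000008000000000000000000000000000000000000000000000000000 := rS 0xeb (k2 i3181 i1755 k0) (by decide +kernel)
def a4 : PP 8 4 T 0x22000000000000000000000000000000000200000000000000000000000000000000 := rS 0x137 (k2 i3165 i1205 k0) (by decide +kernel)
def a5 : PP 8 4 T 0x802000000000000000000000000000000000000000000200000000000000000000000 := rS 0x131 (k2 i3161 i1738 k0) (by decide +kernel)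
def a6 : PP 8 4 T 0x2000002000000000000000000000000000000000000000000008000000000000000 := rS 0xf9 (k2 i3188 i178 k0) (by decide +kernel)
def a7 : PP 8 4 T 0x44000000000000012004000000005040000000000010000000000000000000000000000000050000000 := rS 0x25f1d (k2 i3149 i3160 (k1 i1998 k0)) (by decide +kernel)
def a8 : PP 8 4 T 0x802000000000000000000000000000000000000000000000000000000080000000000 := rS 0x10b (k2 i3184 i692 k0) (by decide +kernel)
def a9 : PP 8 4 T 0x202000000000000000000000000000000000000000000000000000000000800000000 := rS 0x12f (k2 i3160 i1469 k0) (by decide +kernel)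
def a10 : PP 8 4 T 0x400000000005000002000401401000000054000000000000000000000000000000000000000000000000 := rS 0x20f0b (k2 i3184 i3178 (k1 i2006 k0)) (by decide +kernel)
def a11 : PP 8 4 T 0x50040002010000000001000000000000000000000000000000000000150000000000000000 := rS 0x8ecbe62d5 (k4 i3190 i3161 i3160 i3149 (k1 i1992 k0)) (by decide +kernel)
def a12 : PP 8 4 T 0x40010040000001052000000000044000000000000000000000000054000000000000000000000000000 := rS 0x14d (k2 i3169 i2017 k0) (by decide +kernel)
def a13 : PP 8 4 T 0x800000000000000002000000000000000008000000000000000000000000000000000000000000000000 := rS 0x107 (k2 i3178 i1752 k0) (by decide +kernel)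
def a14 : PP 8 4 T 0x2002000000000000000000000000000020000000000000000000000000000000000000 := rS 0xe1 (k2 i3176 i941 k0) (by decide +kernel)
def a15 : PP 8 4 T 0x4400000001000002004000101000040001000000140000000000000000000000000000000000000000 := rS 0x1c307 (k2 i3178 i3176 (k1 i2004 k0)) (by decide +kernel)
def a16 : PP 8 4 T 0x2000000000000000000000000000000000000000000000000000000000000200000 := rS 0x10b (k2 i3184 i432 k0) (by decide +kernel)
def a17 : PP 8 4 T 0x2200000000000000000000000000000000000000000000000000000000000008000 := rS 0xd5 (k2 i3190 i424 k0) (by decide +kernel)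
def a18 : PP 8 4 T 0x2000000000000002000000000000000000800000000000000000000000000000000000000000000000 := rS 0xfb (k2 i3189 i1220 k0) (by decide +kernel)
def a19 : PP 8 4 T 0x8002000000000000000000000000000008000000000000000000000000000000000000 := rS 0x14d (k2 i3169 i1477 k0) (by decide +kernel)
def a20 : PP 8 4 T 0x800000000000000002000000000000000000000000000000008000000000000000000000000000000000 := rS 0xf5 (k2 i3186 i1486 k0) (by decide +kernel)
def a21 : PP 8 4 T 0x40400100000000112000000100004000000001000000000000050000000000000000000000000000000 := rS 0x1d2e1 (k2 i3176 i3180 (k1 i2020 k0)) (by decide +kernel)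
def a22 : PP 8 4 T 0x401400000000000002000000500400000000540000000000000000000000000000000000000000000000 := rS 0x385f2fb (k4 i3189 i3188 i3176 i2026 k0) (by decide +kernel)
def a23 : PP 8 4 T 0x10040000010442000000000000000000000000000001000005000000000000000000000000000000 := rS 0x7acddef41 (k4 i3171 i3187 i3165 i3186 (k1 i2019 k0)) (by decide +kernel)
def a24 : PP 8 4 T 0x2002000000000000000000000000000080000000000000000000000000000000000000 := rS 0x141 (k2 i3171 i1210 k0) (by decide +kernel)
def a25 : PP 8 4 T 0x20002000000000000000000000000000002000000000000000000000000000000000000 := rS 0xf5 (k2 i3186 i955 k0) (by decide +kernel)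
def a26 : PP 8 4 T 0x800000000000000002000000000000000000000000008000000000000000000000000000000000000000 := rS 0xf7 (k2 i3187 i1487 k0) (by decide +kernel)
def a27 : PP 8 4 T 0x2000002000000000080000000000000000000000000000000000000000000000000 := rS 0xfb (k2 i3189 i179 k0) (by decide +kernel)
def a28 : PP 8 4 T 0x202000000000000000000000000000000800000000000000000000000000000000000 := rS 0xeb (k2 i3181 i688 k0) (by decide +kernel)
def a29 : PP 8 4 T 0x2000000000000002000000000000000000080000000000000000000000000000000000000000000000 := rS 0xe1 (k2 i3176 i1751 k0) (by decide +kernel)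
def a30 : PP 8 4 T 0x4410002000001000010000000000000000000000000000000000000000540000000000000 := rS 0xa0c2def39 (k4 i3166 i3187 i3184 i3171 (k1 i2003 k0)) (by decide +kernel)
def a31 : PP 8 4 T 0x2000000000000000000000800000000000000000000000000000000000000000000 := rS 0xf9 (k2 i3188 i435 k0) (by decide +kernel)
def a32 : PP 8 4 T 0x2200000000000000200000000000000000000000000000000000000000000000000 := rS 0xeb (k2 i3181 i429 k0) (by decide +kernel)
def a33 : PP 8 4 T 0x20002000000000000000000000000008000000000000000000000000000000000000000 := rS 0xfb (k2 i3189 i957 k0) (by decide +kernel)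
def a34 : PP 8 4 T 0x2000000000000020000000000000000000000000000000000000000000000000000 := rS 0xf7 (k2 i3187 i434 k0) (by decide +kernel)
def a35 : PP 8 4 T 0x22000000000000000000000000000000000080000000000000000000000000000000 := rS 0xe1 (k2 i3176 i681 k0) (by decide +kernel)
def a36 : PP 8 4 T 0x800000000000000002000000000000002000000000000000000000000000000000000000000000000000 := rS 0xe9 (k2 i3180 i1754 k0) (by decide +kernel)
def a37 : PP 8 4 T 0x1000000000011002000000000440000000000000000540000000000000000000000000000000000000 := rS 0xa0bddf34d (k4 i3169 i3188 i3187 i3171 (k1 i2024 k0)) (by decide +kernel)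
def a38 : PP 8 4 T 0x202000000000000000000000000000000000000000000000000000000002000000000 := rS 0x107 (k2 i3178 i684 k0) (by decide +kernel)
def a39 : PP 8 4 T 0x410040002100000005000000000000000000000000000000000000000400000000000005000 := rS 0x485ab07 (k4 i3178 i3190 i3152 i1995 k0) (by decide +kernel)
def a40 : PP 8 4 T 0x2000000002000000020000000000000000000000000000000000000000000000000 := rS 0x123 (k2 i3153 i1463 k0) (by decide +kernel)
def a41 : PP 8 4 T 0x20002000000000000000000000000000800000000000000000000000000000000000000 := rS 0xf9 (k2 i3188 i956 k0) (by decide +kernel)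
def a42 : PP 8 4 T 0x20002000000000000000000000000000000000000000000000000000200000000000000 := rS 0x139 (k2 i3166 i1742 k0) (by decide +kernel)
def a43 : PP 8 4 T 0x40000000404002000000001010000000000000000000000000000000000000000015000000000000 := rS 0x83bae7321 (k4 i3152 i3166 i3181 i3178 (k1 i2002 k0)) (by decide +kernel)
def a44 : PP 8 4 T 0x2000000000000080002000000000000000000000000000000000000000000000000 := rS 0x121 (k2 i3152 i1194 k0) (by decide +kernel)
def a45 : PP 8 4 T 0x802000000000000000000000000000000000200000000000000000000000000000000 := rS 0x14b (k2 i3163 i1740 k0) (by decide +kernel)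
def a46 : PP 8 4 T 0x2000000002000000000000000000000000000000000000000000000000200000000 := rS 0x11d (k2 i3149 i1460 k0) (by decide +kernel)
def a47 : PP 8 4 T 0x400000100000000502000000400000001000000000000000005000000000000000000000000000000000 := rS 0x9bba5f6f5 (k4 i3186 i3189 i3180 i3165 (k1 i2022 k0)) (by decide +kernel)
def a48 : PP 8 4 T 0x2000000000000002000000000000000000000000000000000800000000000000000000000000000000 := rS 0xf5 (k2 i3186 i1218 k0) (by decide +kernel)
def a49 : PP 8 4 T 0x2000002000000000020000000000000000000000000000000000000000000000000 := rS 0x121 (k2 i3152 i1731 k0) (by decide +kernel)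
def a50 : PP 8 4 T 0x40000400042000000000011000000000000000000000000000000000000000000000005400000 := rS 0x9ccbe7b1d (k4 i3149 i3168 i3160 i3166 (k1 i1997 k0)) (by decide +kernel)
def a51 : PP 8 4 T 0x2002000000000000000000000000000000000000000008000000000000000000000000 := rS 0x13b (k2 i3167 i1207 k0) (by decide +kernel)
def a52 : PP 8 4 T 0x20002000000000000000000000000000000080000000000000000000000000000000000 := rS 0x13b (k2 i3167 i1743 k0) (by decide +kernel)
def a53 : PP 8 4 T 0x10000000000001002041000000040000000000001000000000000000005000000000000000000000000 := rS 0x6bd367729 (k4 i3156 i3167 i3169 i3173 (k1 i2011 k0)) (by decide +kernel)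
def a54 : PP 8 4 T 0x802000000000000000000000000000000000000000000000000000000020000000000 := rS 0x12f (k2 i3160 i1737 k0) (by decide +kernel)
def a55 : PP 8 4 T 0x10400000400000002101000104000000400000014000000000000000000000000000000000000000000 := rS 0x1c2d7 (k2 i3173 i3176 (k1 i2014 k0)) (by decide +kernel)
def a56 : PP 8 4 T 0x2000000000000000000000000000000000000000000800000000000000000000000 := rS 0xf5 (k2 i3186 i433 k0) (by decide +kernel)
def a57 : PP 8 4 T 0x2002000000000000000000000000000200000000000000000000000000000000000000 := rS 0xe3 (k2 i3177 i942 k0) (by decide +kernel)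
def a58 : PP 8 4 T 0x202000000000000000000000000000000000000000000008000000000000000000000 := rS 0x131 (k2 i3161 i1470 k0) (by decide +kernel)
def a59 : PP 8 4 T 0x800000000000000002000000000000000080000000000000000000000000000000000000000000000000 := rS 0x10b (k2 i3184 i1484 k0) (by decide +kernel)
def a60 : PP 8 4 T 0x800000000000000002000000000000000000800000000000000000000000000000000000000000000000 := rS 0xf9 (k2 i3188 i1488 k0) (by decide +kernel)
def a61 : PP 8 4 T 0x2000002000000000000000000000000000000000000000000000000080000000000 := rS 0xf5 (k2 i3186 i175 k0) (by decide +kernel)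
def a62 : PP 8 4 T 0x40000000042050000000000000000000000000000000000000000000015000000000000000000 := rS 0x12794cf6633b (k4 i3167 i3161 i3168 i3156 (k2 i3155 i2007 k0)) (by decide +kernel)
def a63 : PP 8 4 T 0x2200000000000000000000000000000000000000020000000000000000000000000 := rS 0x129 (k2 i3156 i1466 k0) (by decide +kernel)
def a64 : PP 8 4 T 0x5000000000000002004001000000040000000000400000000000000000000000005000000000000000 := rS 0x71be6470b (k4 i3184 i3153 i3188 i3177 (k1 i2005 k0)) (by decide +kernel)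
def a65 : PP 8 4 T 0x22000000000000000000000000000000000000000000000200000000000000000000 := rS 0x131 (k2 i3161 i1202 k0) (by decide +kernel)
def a66 : PP 8 4 T 0x440000000005002000000100040000000010000000014000000000000000000000000000000000000 := rS 0x3adc34d (k4 i3169 i3176 i3181 i2023 k0) (by decide +kernel)
def a67 : PP 8 4 T 0x2000000000000080000000000800000000000000000000000000000000000000000 := rS 0xe3 (k2 i3177 i164 k0) (by decide +kernel)
def a68 : PP 8 4 T 0x802000000000000000000000000000000000800000000000000000000000000000000 := rS 0xf9 (k2 i3188 i697 k0) (by decide +kernel)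
def a69 : PP 8 4 T 0x802000000000000000000000000000000008000000000000000000000000000000000 := rS 0xfb (k2 i3189 i698 k0) (by decide +kernel)
def a70 : PP 8 4 T 0x2002000000000000000000000000000000000000000000000000000000000000800 := rS 0xd5 (k2 i3190 i416 k0) (by decide +kernel)
def a71 : PP 8 4 T 0x20002000000000000000000000000000080000000000000000000000000000000000000 := rS 0x14d (k2 i3169 i1745 k0) (by decide +kernel)
def a72 : PP 8 4 T 0x2200000000000000000000000000000000000000000002000000000000000000000 := rS 0x127 (k2 i3155 i1465 k0) (by decide +kernel)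
def a73 : PP 8 4 T 0x202000000000000000000000000000000000020000000000000000000000000000000 := rS 0x14b (k2 i3163 i1472 k0) (by decide +kernel)
def a74 : PP 8 4 T 0x2002000000000000000000000000000000000000000000080000000000000000000 := rS 0x127 (k2 i3155 i1197 k0) (by decide +kernel)
def a75 : PP 8 4 T 0x2000000000000000000000200000000000000000000000000000000000000000000 := rS 0x149 (k2 i3157 i1735 k0) (by decide +kernel)
def a76 : PP 8 4 T 0x2000002000000000000000000000000000000000000000000000000008000000000 := rS 0x11d (k2 i3149 i1728 k0) (by decide +kernel)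
def a77 : PP 8 4 T 0x802000000000000000000000000000000002000000000000000000000000000000000 := rS 0x135 (k2 i3164 i1741 k0) (by decide +kernel)
def a78 : PP 8 4 T 0x1000000000000412000000000004000000004000000000000500000000000000000000000000000000 := rS 0xf97ab8e9737 (k4 i3165 i3163 i3177 i3186 (k2 i3188 i2021 k0)) (by decide +kernel)
def a79 : PP 8 4 T 0x400000000000014002000000400000004000000000005000000000000000000000000000000000000000 := rS 0x14175cfdeefb (k4 i3189 i3187 i3170 i3181 (k2 i3171 i2025 k0)) (by decide +kernel)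
def a80 : PP 8 4 T 0x2000000000000002000000000000000000000000000000000000000000000000008000000000000000 := rS 0x10b (k2 i3184 i1216 k0) (by decide +kernel)
def a81 : PP 8 4 T 0x22000000000000000000000000000000000000000000000000000000000080000000 := rS 0x12f (k2 i3160 i1201 k0) (by decide +kernel)
def a82 : PP 8 4 T 0x2000000000000080000000000000000000000000000000000000000000000000800 := rS 0xd7 (k2 i3173 i158 k0) (by decide +kernel)
def a83 : PP 8 4 T 0x2000000000000000000000000000000000000002000000000000000000000000000 := rS 0xfb (k2 i3189 i436 k0) (by decide +kernel)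
def a84 : PP 8 4 T 0x800000000000002000000000000000000002000000000000000000000000000000000000000000000 := rS 0xe9 (k2 i3180 i1213 k0) (by decide +kernel)
def a85 : PP 8 4 T 0x2002000000000000000000000002000000000000000000000000000000000000000000 := rS 0xd7 (k2 i3173 i938 k0) (by decide +kernel)
def a86 : PP 8 4 T 0x800000000000002000000000000000000080000000000000000000000000000000000000000000000 := rS 0xe3 (k2 i3177 i1483 k0) (by decide +kernel)
def a87 : PP 8 4 T 0x2000000000000000000000000000000200000000000000000000000000000000000 := rS 0x129 (k2 i3156 i1734 k0) (by decide +kernel)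
def a88 : PP 8 4 T 0x2000000000000000000000000000000000000000200000000000000000000000000 := rS 0x12b (k2 i3158 i1736 k0) (by decide +kernel)
def a89 : PP 8 4 T 0x2000000000000000000000000000000000000000000000000000000000000200000 := rS 0x0 (k1 a16 k0) (by decide +kernel)
def a90 : PP 8 4 T 0x2000000000000000000000000000000000000000000080000000000000000000000 := rS 0x127 (k2 i3155 i1733 k0) (by decide +kernel)
def a91 : PP 8 4 T 0x2000000000000000000000800000000000000000000000000000000000000000000 := rS 0x0 (k1 a31 k0) (by decide +kernel)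
def a92 : PP 8 4 T 0x2000000000000020000000000000000000000000000000000000000000000000000 := rS 0x0 (k1 a34 k0) (by decide +kernel)
def a93 : PP 8 4 T 0x2000000000000000000000000000000000000000000800000000000000000000000 := rS 0x0 (k1 a56 k0) (by decide +kernel)
def a94 : PP 8 4 T 0x2000000000000000000000200000000000000000000000000000000000000000000 := rS 0x0 (k1 a75 k0) (by decide +kernel)
def a95 : PP 8 4 T 0x2000000000000000000000000000000000000002000000000000000000000000000 := rS 0x0 (k1 a83 k0) (by decide +kernel)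
def a96 : PP 8 4 T 0x22000000000000000000000000020000000000000000000000000000000000000000 := rS 0xff (k2 i3172 i676 k0) (by decide +kernel)
def a97 : PP 8 4 T 0x2002000000000000000000008000000000000000000000000000000000000000000 := rS 0xe1 (k2 i3176 i422 k0) (by decide +kernel)
def a98 : PP 8 4 T 0x2000000000000000000000000000000000000000000000000000000000000080000 := rS 0x125 (k2 i3154 i1732 k0) (by decide +kernel)
def a99 : PP 8 4 T 0x2000000000000080000000000080000000000000000000000000000000000000000 := rS 0xe1 (k2 i3176 i163 k0) (by decide +kernel)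
def a100 : PP 8 4 T 0x40000004102000000000000000000000000000000400000500000000000000000000000000000 := rS 0x26aeb9eba67f0f (k4 i3195 i3170 i3180 i3168 (k2 i3181 i3164 (k1 i2018 k0))) (by decide +kernel)
def a101 : PP 8 4 T 0x12011000000000000000000000000000000000000000000540000000000000000000 := rS 0x297276bcc5b749 (k4 i3157 i3174 i3161 i3173 (k2 i3155 i3163 (k1 i2008 k0))) (by decide +kernel)
def a102 : PP 8 4 T 0x2000000000000000000000000000002000000000000000008000000000000000000 := rS 0xd1 (k2 a92 i1170 k0) (by decide +kernel)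
def a103 : PP 8 4 T 0x2002000000000000000000000000000000000000080000000000000000000000000000 := rS 0xdb (k2 i3174 i940 k0) (by decide +kernel)
def a104 : PP 8 4 T 0x2000000000000080000000000020000000000000000000000000000000000000000 := rS 0xd9 (k2 i3191 i159 k0) (by decide +kernel)
def a105 : PP 8 4 T 0x800000000000002000000000000000800000000000000000000000000000000000000000000000000 := rS 0xe7 (k2 i3179 i1212 k0) (by decide +kernel)
def a106 : PP 8 4 T 0x800000000000002000000000000000000000008000000000000000000000000000000000000000000 := rS 0xd7 (k2 i3173 i1480 k0) (by decide +kernel)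
def a107 : PP 8 4 T 0x102000000001000000000000000000000000000000000000000000000001500000000 := rS 0x4d5d3078ec865ed9 (k8 i3191 i3160 i3152 i3149 i3178 i3180 i3164 i1999 k0) (by decide +kernel)
def a108 : PP 8 4 T 0x2000000000000000000004040000000000500000000100540000000000000000000 := rS 0x2dac4beb3 (k4 a91 a93 a94 a90 (k1 i2038 k0)) (by decide +kernel)
def a109 : PP 8 4 T 0x2200000000000000000000000000000000000000000000000000000000000008000 := rS 0x107 (k2 i3178 i425 k0) (by decide +kernel)
def a110 : PP 8 4 T 0x2000000000000000000000000000002000000000000000020000000000000000000 := rS 0x5f (k2 a93 i914 k0) (by decide +kernel)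
def a111 : PP 8 4 T 0x2000000000000002000000000000000000000000000800000000000000000000000000000000000000 := rS 0xf7 (k2 i3187 i1219 k0) (by decide +kernel)
def a112 : PP 8 4 T 0x802000000000000000000000000000002000000000000000000000000000000000000 := rS 0xf7 (k2 i3187 i696 k0) (by decide +kernel)
def a113 : PP 8 4 T 0x802000000000000000000000000000002000000000000000000000000000000000000 := rS 0x10f (k2 i3195 i695 k0) (by decide +kernel)
def a114 : PP 8 4 T 0x20002000000000000000000000000000002000000000000000000000000000000000000 := rS 0x10f (k2 i3195 i954 k0) (by decide +kernel)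
def a115 : PP 8 4 T 0x2002000000000000000000000000000008000000000000000000000000000000000000 := rS 0x13f (k2 i3170 i1209 k0) (by decide +kernel)
def a116 : PP 8 4 T 0x2000000000000002000000000000000000008000000000000000000000000000000000000000000000 := rS 0xdb (k2 i3174 i1749 k0) (by decide +kernel)
def a117 : PP 8 4 T 0x2002000000000000000000000000000000000000020000000000000000000000000000 := rS 0x13d (k2 i3168 i1208 k0) (by decide +kernel)
def a118 : PP 8 4 T 0x22000000000000000000008000000000000000000000000000000000000000000000 := rS 0xe3 (k2 i3177 i682 k0) (by decide +kernel)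
def a119 : PP 8 4 T 0x202000000000000000000000000000000800000000000000000000000000000000000 := rS 0x10f (k2 i3195 i687 k0) (by decide +kernel)
def a120 : PP 8 4 T 0x1002000000000000040000000000000000010000000000000000000000500000000000 := rS 0x47dbb39a6d1dfedf (k8 i3175 i3172 i3151 i3169 i3166 i3192 i3150 i2001 k0) (by decide +kernel)
def a121 : PP 8 4 T 0x800000000000002000000000000000000000000000020000000000000000000000000000000000000 := rS 0xdf (k2 i3175 i1482 k0) (by decide +kernel)
def a122 : PP 8 4 T 0x2000000000000000000000000000000000000000000000000002000000000000200 := rS 0xb1 (k2 a94 i1267 k0) (by decide +kernel)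
def a123 : PP 8 4 T 0x8002000000000000000000000000000000800000000000000000000000000000000000 := rS 0xe9 (k2 i3180 i948 k0) (by decide +kernel)
def a124 : PP 8 4 T 0x2000000000000000000000000000000000200000000000080000000000000000000 := rS 0xb1 (k2 a94 i1275 k0) (by decide +kernel)
def a125 : PP 8 4 T 0x2000000000000000000008000000000000000000000000080000000000000000000 := rS 0x5b (k2 a90 i761 k0) (by decide +kernel)
def a126 : PP 8 4 T 0x2000002000000000000000000000000000000000000000000000000080000000000 := rS 0xd9 (k2 i3191 i174 k0) (by decide +kernel)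
def a127 : PP 8 4 T 0x402000001000000000000000000000000000000000000000000000000054000000000 := rS 0x47646f597c2db337 (k8 i3165 i3191 i3184 i3160 i3186 i3153 i3149 i2000 k0) (by decide +kernel)
def a128 : PP 8 4 T 0x800000000000000002000000000000000000200000000000000000000000000000000000000000000000 := rS 0xed (k2 i3182 i1756 k0) (by decide +kernel)
def a129 : PP 8 4 T 0x800000000000002000000000000000000000000200000000000000000000000000000000000000000 := rS 0x107 (k2 i3178 i1211 k0) (by decide +kernel)
def a130 : PP 8 4 T 0x2001000000000040000000000000000000000000000000000000000000000000540 := rS 0x51daed57fd263725 (k8 i3154 i3148 i3157 i3172 i3190 i3173 i3151 i1994 k0) (by decide +kernel)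
def a131 : PP 8 4 T 0x8002000000000000000000000000000000000000000000000000000020000000000000 := rS 0xdd (k2 i3192 i943 k0) (by decide +kernel)
def a132 : PP 8 4 T 0x2000000000000000054000000000000000000000400000000400000000000015000 := rS 0x99a42a6d (k4 a95 a89 a88 a98 (k1 i2029 k0)) (by decide +kernel)
def a133 : PP 8 4 T 0x800000000000002000000000000000000000000000000000080000000000000000000000000000000 := rS 0xdb (k2 i3174 i1481 k0) (by decide +kernel)
def a134 : PP 8 4 T 0x802000000000000000000000000002000801080000000000202080000000000000000 := rS 0xd4c92b95556592ea1d9a7b2d9a4da5f (k8 a93 a95 a88 a90 i753 i1909 a69 a5 (k4 i2584 i2249 i2457 i1665 (k2 i1125 i2039 (k1 i1908 k0)))) (by decide +kernel)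
def a135 : PP 8 4 T 0x10002000000000000000000000000000000000004000000000000000440008000000000 := rS 0x3978c8dbb1f (k4 i3150 i3192 i3153 a76 (k2 i1875 a30 k0)) (by decide +kernel)
def a136 : PP 8 4 T 0x2000000000000040000020000000080000000080000000000000000000800000000 := rS 0x2245aa50f2d52b151785836190e9f91cdd6cc7e1f33 (k8 i3162 i3195 i3150 i3191 i3192 i1141 i1142 i2477 (k8 i2782 i2585 a50 i1080 i939 i104 i885 i1664 (k4 i249 i2846 i1403 a120 k0))) (by decide +kernel)
def a137 : PP 8 4 T 0x802000000000000001010000000002000001000000000000000000000005500800000 := rS 0x610d4562943b1c7691 (k8 a112 i1155 i1641 a69 a54 a8 i1117 i2032 (k1 i1906 k0)) (by decide +kernel)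
def a138 : PP 8 4 T 0x2000000000000000200000000000000800000000000000002000000000200000004 := rS 0x5008cc82779dc0e531f92c6dbb39 (k8 i3166 i3192 i3148 i3154 i3150 i3156 i3194 i3167 (k4 i125 i2497 i1611 i959 (k2 i612 a0 k0))) (by decide +kernel)
def a139 : PP 8 4 T 0x902000000000000001000000000002000001000000000000000000000005500800000 := rS 0x188e4 (k2 a107 a137 (k1 a40 k0)) (by decide +kernel)
def a140 : PP 8 4 T 0x2000000000000000000020000000080000000080000000000000000000800000000 := rS 0x349447e (k4 i1142 i1663 a136 a99 k0) (by decide +kernel)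
def a141 : PP 8 4 T 0x802000000000000000000220000002000000000080000000000000000000000000000 := rS 0x6158086b2a80592411008c4e0321940a6af30add2c3766c64631141aa49e7b2c9209a4b12a156a952ea050e3b48858367e47064b6693697e770394c7e4b1b6ece5633f6cc3e6701 (k8 i3193 i3162 i3195 i3191 i3170 a94 i3166 i3192 (k8 i3148 i3154 i3150 i3156 i3194 i3167 a93 a95 (k8 a88 a90 i2782 i1141 i1142 i2585 a50 a112 (k8 i1155 a69 a45 a5 i104 i885 i1872 i2582 (k8 i2783 i2586 a62 i2584 i753 i2516 i1087 i2622 (k8 a28 i2661 i1746 i1909 i3050 i1911 i1988 i1283 (k8 i1900 i829 a108 a134 i999 a135 a140 a139 (k8 i2497 a138 i959 i766 i1908 a0 i2039 i1497 (k1 i522 k0))))))))) (by decide +kernel)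
def a142 : PP 8 4 T 0x2000000000000000000000000000000800000000000010002000001000200000004 := rS 0x8295c1c0d2a81193111a00482e79acae03279dc0e531f92c6dbb39 (k8 i3166 i3192 i3148 i3154 i3150 i3156 i3194 i3167 (k8 i3155 i3193 i3158 i3164 i3179 i2497 i959 i726 (k8 a28 a138 a0 i766 i522 i354 i1497 a17 (k1 a1 k0)))) (by decide +kernel)
def a143 : PP 8 4 T 0x902000000000000001000000000000000001000000000015000000000000000000000 := rS 0x2086a2ea1ddee79acae03272d9a4da5f (k8 a93 a95 a88 a90 i3155 i3193 i3158 i3164 (k4 i3179 i3183 a69 a5 (k2 i2039 a1 (k1 i431 k0)))) (by decide +kernel)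
def a144 : PP 8 4 T 0x802000000000000001000000000000000801080000000010000000000000000800008 := rS 0x2a8a0562a9099311 (k8 a28 i2776 i999 i766 a143 i1666 i1665 i2249 k0) (by decide +kernel)
def a145 : PP 8 4 T 0x1002000000000000000000000001000010000080004000008000000000000000000000 := rS 0x31bf4c2aa2837e9303 (k8 i3194 i3157 i3175 i1666 i1665 i1311 a97 i538 (k1 a53 k0)) (by decide +kernel)
def a146 : PP 8 4 T 0x1002000000000000000000000000000000000000004002000840200000400000000000 := rS 0x1a62d448283c09 (k4 i223 i565 i564 i1277 (k2 i1303 a82 (k1 a120 k0))) (by decide +kernel)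
def a147 : PP 8 4 T 0x802000000000000000000220000000000000000080000001000000000000000000000 := rS 0x1ca215230c463e51a9da437168f51202508148445209480260458e630af31d14d6cb5b41199112c8945e1d2baa49e482692cdf154ca156a955fa6c76910b06cfc8e0ca5d3aed46c9e4b016cc6d66b168b8dbeef73cd656dd8fc3e6703 (k8 i3194 i3162 i3195 i3150 i3192 i3158 i3164 i3179 (k8 i3183 i3175 i3177 a92 a94 a91 i3148 i3191 (k8 i3193 i3154 i3155 a87 i3182 a141 i1410 i2782 (k8 i1141 i1142 i2585 a50 a112 i1155 i1179 i135 (k8 i104 i885 i1872 i1991 i939 i58 i2783 i2586 (k8 a62 i2516 i1087 a145 i2477 i1080 i2582 i2584 (k8 a28 a143 a1 i848 i430 i431 a116 i1405 (k8 i1986 a37 a42 a52 i2041 i2631 i1017 i740 (k8 a146 a11 i517 i2573 i700 i1278 i1784 i977 (k8 i1004 a120 a67 a99 i2034 i1663 i376 i1411 (k2 i730 i171 (k1 a107 k0)))))))))))) (by decide +kernel)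
def a148 : PP 8 4 T 0x802000000000000000000220000000000000000080000000000000000000000000000 := rS 0x15e8b3198556c82a25d3a9b48a4d524f24134fc8e25ab5329559ac51ad199c3e0303 (k8 i3194 i3193 i3195 i3162 a92 a87 a94 a91 (k8 i104 i1991 i1291 i2783 i1141 i1142 i2586 a62 (k8 i2516 i1087 i130 a112 i1179 a141 i1410 a147 (k4 i766 i1658 i1127 i616 (k2 i618 i1987 (k1 i2041 k0)))))) (by decide +kernel)
def a149 : PP 8 4 T 0x2000000000000000000220000000440000000080005000000000000000000000000 := rS 0x821a8aace64c65149f8bc44b25737a652b4f57bf22aa9279209a7e4712d3aef73cd6570193acd628d68b8e670f81d25beed (k8 i3182 i3175 i3157 i3194 i3195 i3162 i3177 a92 (k8 a87 a94 a91 i3155 i3193 i3158 i3164 i3179 (k8 i3183 i1911 i2783 i1141 i1142 i2586 a62 i2516 (k8 i1087 i939 a53 i423 a128 i104 i1991 i58 (k8 a145 i2584 a28 i949 i1189 i2041 a52 i618 (k4 a79 i766 i1978 a1 (k1 i431 k0))))))) (by decide +kernel)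
def a150 : PP 8 4 T 0x2000000000000000000200000000800800080080000000000000000000000000000 := rS 0x331209e (k4 i1418 i1179 i1188 i2588 k0) (by decide +kernel)
def a151 : PP 8 4 T 0x400000000000000402000000000000000000000000000084801084000000000000000000000000000000 := rS 0x3350eb767c466aef (k8 i3183 i3164 a28 i1983 i1901 i932 i848 a47 k0) (by decide +kernel)
def a152 : PP 8 4 T 0x2000000000000000000020000000000000000080008000000000000000000000000 := rS 0x1560a66651de22592baa49e4826a38967e37c552ae79acae032776c3e6703 (k8 i3194 i3162 i3195 i3182 i3155 i3193 i3158 i3164 (k8 i3179 i104 i939 i58 i1142 i2783 i1141 i2586 (k8 a62 i2516 i1087 a145 i2584 a28 i125 i1405 (k4 i1406 i430 i1619 a1 k0)))) (by decide +kernel)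
def a153 : PP 8 4 T 0x2000000000000000000000000400540818000000000000000001140500000800000 := rS 0xf01f46476906748dbb1f (k8 i3150 i3192 i3153 i932 i931 i2787 a25 i2034 (k2 a30 a6 k0)) (by decide +kernel)
def a154 : PP 8 4 T 0x2000000000000000000220000000000000000080000000000000000000000000000 := rS 0x7288548c31f0ed22cc4388d46a71eb486e3916a2404a1029088a4129004c0974fa6e274f5fa1532935aa562a6f8893cf6482692c4a2f0b06c321d3f238c6ed9abbe468d09c9e4b016cc6dbb1f87cccb703 (k8 i3194 a90 i3162 i3195 i3150 i3192 i3148 i3191 (k8 i3193 i3154 i3155 a98 a87 i3153 i3183 i3164 (k8 i3182 a152 i1141 i1142 i2477 i2782 i2585 a50 (k8 i1080 i2582 i2783 i2586 a62 i753 i2516 a28 (k8 i58 i939 i104 i885 i130 i1991 i1872 i135 (k8 a128 a148 a150 i1189 a151 a149 i2631 i1017 (k8 i740 a146 a11 i517 i2573 i700 i1278 i977 (k8 i194 i1004 a120 i1195 a67 a99 i1663 a153 (k8 a47 i893 i1155 i2034 i376 i1411 i730 i171 (k1 a107 k0)))))))))) (by decide +kernel)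
def a155 : PP 8 4 T 0x2000000000000000000000000400540012080000000000000001140540400800000 := rS 0x1f8ed0027 (k4 i1772 i1670 i1156 i1333 (k1 i2034 k0)) (by decide +kernel)
def a156 : PP 8 4 T 0x2000000000000001000000000400540810080000000015800101140140400800000 := rS 0x763f13a00b885438bc3a6b82444b6693697ddf2780cae6ae7 (k8 i3179 i3164 i3158 i3193 i3155 i3183 a93 a95 (k8 a88 a90 a28 a1 i431 i2477 i1080 a153 (k4 a155 i2039 i571 i1766 (k2 i1333 i1156 (k1 i2034 k0))))) (by decide +kernel)
def a157 : PP 8 4 T 0x2000000000000001000000000000040800080080002004002000000000000800000 := rS 0x872ea159e814d08d46a71eb48d6371c8b51304012840a2b2a9088a414c948031537c449a4f2c8bc3a5b349b4bf2377a3426e79acae032792b66370f (k8 i3195 i3148 i3191 i3154 i3155 i3193 i3158 i3164 (k8 i3179 a98 a87 i3183 i3153 a93 a95 a88 (k8 a90 i2477 i1080 i2584 i2516 i2586 a28 i58 (k8 i939 i2631 i1017 i1020 i740 a146 a11 i2457 (k8 i896 i517 i2573 i700 a1 i1278 i977 i194 (k8 i1004 i431 a120 i1195 a67 a99 i1663 a156 (k4 i1336 i2793 i1670 i571 (k2 i932 i2039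 k0)))))))) (by decide +kernel)
def a158 : PP 8 4 T 0x102000000000000081244008000000000005080000000000002000000041100000004 := rS 0x208144c0f62b90462951a9e770394c7e4b1b6ece4b6e7 (k8 i3179 a90 i3166 i3192 i3148 i3154 i3150 i3156 (k8 i3194 i3167 a67 a99 i1928 i1663 a107 a40 (k4 i166 i2032 i611 i745 (k2 a0 i959 k0)))) (by decide +kernel)
def a159 : PP 8 4 T 0x2000000000000001044000000000002005000000000002004000000051100000002 := rS 0x623c04627228ee26d1 (k8 a92 a112 i1153 i477 i734 i1538 a127 i2032 (k1 a49 k0)) (by decide +kernel)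
def a160 : PP 8 4 T 0x2000000000000001244000000000002005000000010002004000040051100000004 := rS 0x2313b148e3b1901002159dc0e531f92c6dbb39 (k8 i3166 i3192 i3148 i3154 i3150 i3156 i3194 i3167 (k8 a89 a159 a0 i612 i392 i265 i1616 i734 (k2 i1537 i2032 k0))) (by decide +kernel)
def a161 : PP 8 4 T 0x2000000000000001000000040000800800080080000004004000000000000800000 := rS 0xb512a1530a1a62101b20865435b1d874e159762687428dd6c9067a05331537c444a2f0e994b2482696cd26d2fb9e6aef99c3e0303 (k8 i3194 i3193 i3195 i3162 i3183 i3164 i3179 a93 (k8 a95 a88 a90 i2586 a62 i2584 i1025 i2477 (k8 i1080 i2582 a28 i58 i939 i154 i1336 i2793 (k8 i1179 i1180 i2667 i1670 i932 a112 i1930 i2589 (k8 a47 a13 a59 i1753 i2039 i2457 i766 i999 (k8 a138 a158 a160 i1928 i314 i283 i977 a120 k0)))))) (by decide +kernel)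
def a162 : PP 8 4 T 0x1000000000001002000000000000000000000001000540000000000005000000000000000000000000 := rS 0x8c2295efc71b7d66b146b460749 (k8 i3157 i3194 a92 a87 a94 a91 i3175 i3177 (k4 a53 i423 i2041 a37 (k1 a52 k0))) (by decide +kernel)
def a163 : PP 8 4 T 0x2000000000000000000020000800000005000080000000000000000000100000000 := rS 0x30c46a5500a4591244d3c72ce5d2618a2b69d158e2718c45067d128bc3abf4dabdf8614b98d9abd2baa49e48269be2a950b06c324b47304fd3577bfdbad98fc3e670181b8e92df (k8 i3175 i3157 i3177 i3194 i3193 i3162 i3195 i3150 (k8 i3191 i3192 i3172 i3183 i3164 i1142 i1515 i1141 (k8 i2783 i2782 i2585 a50 i104 i939 i58 i2586 (k8 a62 i2516 i1087 a145 a154 i849 a152 i1409 (k8 a157 a53 i423 a161 i1457 i2477 i1080 i2582 (k8 i1329 i2622 a28 i2661 i1915 i337 i1747 a67 (k8 i333 i1919 a162 i1144 i1143 i3124 a3 i282 (k8 a47 a120 a54 i977 i1384 i312 i1945 i2032 k0)))))))) (by decide +kernel)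
def a164 : PP 8 4 T 0x102000000000000000000001000200000000000000000000000000000001100000000 := rS 0x8dcaed (k4 i3182 i171 i249 a107 k0) (by decide +kernel)
def a165 : PP 8 4 T 0x2000000000000008000020000000000005000080000000000000000000000000004 := rS 0x401331c000507b9046a36930c5aba4c22d905414c4856c54ed3d222f0ea6d5efc30a5cc6cd5e95d524f37c546aa744a9442592413496311285836193f4451cb54a96e770394c7e4b1b6ece5ceb358a35a33577b661f3380b8e92df (k8 i3175 i3157 i3177 i3193 i3162 i3195 i3191 i3183 (k8 i3164 a92 a87 a94 a91 i3179 i3166 i3192 (k8 i3148 i3154 i3150 i3156 i3194 i3167 a90 i104 (k8 i885 i1141 a28 i1142 i2782 i2585 a50 i2582 (k8 i2661 i2783 i2586 a62 i2584 a142 a164 i1403 (k8 a163 i1117 i939 i58 i2516 i1087 a145 a154 (k8 i849 a152 i1409 a157 a53 i423 a161 i2477 (k8 i1080 i1150 a3 i132 i1794 i898 a47 a54 (k8 a143 i766 i618 i2041 i1144 i981 i1944 a120 (k8 a99 i1663 a107 i166 i611 a0 i1679 i2032 (k2 i959 i745 k0))))))))))) (by decide +kernel)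
def a166 : PP 8 4 T 0x400000000000014102000000000000005000000000004000005004000000000000000000001500800000 := rS 0x76261ba45391262b91df35 (k8 i3164 i3183 a107 a40 a47 a79 a112 i1779 (k2 a139 i1155 (k1 a135 k0))) (by decide +kernel)
def a167 : PP 8 4 T 0x2000000000000000000540054000000880000000400014000000000000000000000 := rS 0x414aaca64c45cf3595c064eed34ac4dab3 (k8 a91 a95 a94 a88 i3182 i3155 i3193 i3158 (k8 i3164 i3179 a28 i617 i2043 i766 i430 a1 k0)) (by decide +kernel)
def a168 : PP 8 4 T 0x2000000000000000000020000000000005000080000000000000000000000000004 := rS 0x40a4407b20a82233c169e6a5dc66888a4cb3c431718c44f625329653ead55afd36af7e1852e6366af4aea9279209a6f8aa542c1b0c9f8968e9dc0e531f92c6dbb3975cfe56e79ac064eef59ac51ad16cc3e66e3a4b7cb6ed (k8 i3182 a90 i3175 i3157 i3177 i3162 i3195 i3191 (k8 a92 a87 a94 a91 i3183 i3155 i3193 i3164 (k8 i3179 i3158 i3170 i3181 i3166 i3192 i3148 i3154 (k8 i3150 i3156 i3194 i3167 i1141 i2783 i1142 i2782 (k8 i2585 a50 i104 i939 i58 i2586 a62 i2516 (k8 i1087 a145 a154 i849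 a152 i1409 a157 a53 (k8 i423 a161 i1457 a97 i1289 i1190 i2584 i1025 (k8 i2582 i753 a28 i2661 i949 a142 a165 i1143 (k8 i2041 a162 a52 a29 a167 i1753 i431 i548 (k8 a166 a1 i2012 i245 i1538 i611 i2292 a0 k0)))))))))) (by decide +kernel)
def a169 : PP 8 4 T 0x2000000000000000000020000000000005000080000000000000000000000000000 := rS 0x5117499659ad9f04a715626c901444b2ad55afd36af7e1852e6366af4aea9279209a6f8aa542c1b0c9f8968e34ac4dab376b9e6b2b80c9ddedd6cc7e1f3381b8e92df (k8 i3175 i3157 i3177 i3194 i3162 i3195 i3150 i3191 (k8 i3192 i3183 i3155 i3193 i3158 i3164 i3179 i3182 (k8 a91 a95 a94 a88 i1141 i2783 i1142 i2782 (k8 i2585 a50 i104 i939 i58 i2586 a62 i2516 (k8 i1087 a145 a154 i849 a152 i1409 a157 a53 (k8 i423 a161 i1457 a97 i1289 i2584 a28 a168 (k8 i2776 a144 i766 a47 a1 a3 i1753 i430 (k4 i1143 i2043 a162 a29 k0)))))))) (by decide +kernel)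
def a170 : PP 8 4 T 0x2000000000000000000020000000000008000080000000000000000000000000000 := rS 0x5582998d48a4cb39767788a0cb29b57bf0c29731b357a575493c904d37c552a160d864fc4b4739e6b2b80c9ddeb358a35a2dd6cc7e1f3381b8e92df (k8 i3175 i3157 i3177 i3194 i3162 i3195 i3150 i3191 (k8 i3192 a92 a87 a94 a91 i3183 i3155 i3193 (k8 i3158 i3164 i3179 i1141 i2783 i1142 i2782 i2585 (k8 a50 i104 i939 i58 i2586 a62 i2516 i1087 (k8 a145 a154 i849 a152 i1409 a157 a53 i423 (k8 a161 i2584 i2622 a28 i125 i1684 i932 i1144 (k4 i2041 i1978 i1979 i431 (k2 i1619 a1 k0)))))))) (by decide +kernel)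
def a171 : PP 8 4 T 0x2000000000000000000020000000000000000080000000000000000000000000000 := rS 0xa2a6574cf4221d36af7e1859a975e98cae7954858904f0d934327e259be2a8e4ab8dbf4981a36670f8fb65bb01 (k8 i3193 i3192 i3191 i3150 i3195 i3162 a87 i3194 (k8 i3157 i3175 i3177 i104 i1141 i939 i58 i2783 (k8 i1142 i2782 i2586 i2585 i2516 a62 a50 i1087 (k8 i1012 a145 a152 a154 i1409 i849 a157 a53 (k8 i423 a161 a170 a169 i1870 i1669 i1143 a29 (k1 a162 k0)))))) (by decide +kernel)
def a172 : PP 8 4 T 0x10002000000000000000000000000000000000000000000200000000000000000800008 := rS 0x3c47610139086e392286646dd8fc6d1a13 (k8 a98 a87 i3148 i3150 i3192 i3153 i43 i220 (k8 i194 i1004 i999 i1766 i443 i1156 i1727 a30 k0)) (by decide +kernel)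
def a173 : PP 8 4 T 0x402000000000000000000000000000000080000000000200000140000000000800000 := rS 0xade238080a400272006e361393c9602d9 (k8 i3191 i3193 i3154 i3155 a98 i3148 i66 a11 (k8 i1766 i740 i186 i451 i452 i1727 i294 a127 k0)) (by decide +kernel)
def a174 : PP 8 4 T 0x1000000000000402000000000000000000004040000000000500000000100440000000000000000000 := rS 0x14218db (k4 i3174 a78 a108 a65 k0) (by decide +kernel)
def a175 : PP 8 4 T 0x402000000000000000000000000000000080000000000000000020000000000800000 := rS 0xade2380809c52000dc6cb613 (k8 a98 a90 i3148 i66 i740 i186 i745 i451 (k4 i452 i1727 i294 a127 k0)) (by decide +kernel)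
def a176 : PP 8 4 T 0x4002000000000000000000000000000000002000000000100000000005040000820000 := rS 0x723106a26108a5e3139fb763f1b (k8 i3148 i3150 i3192 i3170 a77 i1727 i1835 i1504 (k4 a127 i1117 i1771 a43 (k1 a40 k0))) (by decide +kernel)
def a177 : PP 8 4 T 0x4002000000000000000000000000000000002000000000000000000005008001000000 := rS 0x3946ac4114fdbb1f (k8 i3150 i3192 i3170 i1772 i1771 i246 a40 a43 k0) (by decide +kernel)
def a178 : PP 8 4 T 0x2000000000000000000000000004002004000000400000002400001000008004001 := rS 0x6b0d8a11638105438 (k8 i913 i912 i748 i299 i1874 i1880 i372 i522 (k1 a132 k0)) (by decide +kernel)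
def a179 : PP 8 4 T 0x2000000000000000014000000002000000000000400000000400400000000005020 := rS 0x406ec7 (k4 i1641 i1779 a132 i524 k0) (by decide +kernel)
def a180 : PP 8 4 T 0x2000000000000000000000000000000800000000000020000400000000000404000 := rS 0x1ca0d1a088301b8295c844520b9e571b92b76670f8fb660327 (k8 i3155 i3193 i3191 i3150 i3195 i3162 i3192 i3154 (k8 i3148 i3158 i3179 i867 i603 a11 i119 a2 (k4 i2596 a50 i1131 i1130 (k2 i1569 i169 (k1 a39 k0))))) (by decide +kernel)
def a181 : PP 8 4 T 0x4002001000000000000000020000000000000000000041020100000010000002000010 := rS 0x8694cdcb4559d0940001b209e6556c1603339dc0e531f92c6dbb3975cfe56e7 (k8 i3179 i3158 i3170 i3181 i3166 i3192 i3148 i3154 (k8 i3150 i3156 i3194 i3167 i3162 i3193 a2 i1289 (k8 i1026 i871 i2012 i1122 a0 i1037 i606 i2392 (k4 i1066 i1065 i883 i1203 (k1 a101 k0))))) (by decide +kernel)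
def a182 : PP 8 4 T 0x2000000000000000000000080000000000000000002000000000800000000000080 := rS 0xf4580b (k4 i87 i1223 i1782 i1158 k0) (by decide +kernel)
def a183 : PP 8 4 T 0x12000000000000000000000000010000000000050000000000000000800000000000 := rS 0x6f8ab7e1f4b6dcf666ff (k8 i3172 i3162 i3168 i3174 i3163 i3195 i3175 i936 (k2 i1054 a12 k0)) (by decide +kernel)
def a184 : PP 8 4 T 0x2100000000000000000000010080000000010000000010800200000000000000000 := rS 0x45100f154aee79acae0327 (k8 i3155 i3193 i3158 i3164 i3179 i569 i831 i565 (k2 a1 i240 (k1 a9 k0))) (by decide +kernel)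
def a185 : PP 8 4 T 0x20000000000000400000000000000000100000040000000a0200000400000000000 := rS 0x8a8b4e018 (k4 i526 i789 i1039 a117 (k1 a120 k0)) (by decide +kernel)
def a186 : PP 8 4 T 0x2000000000000000000000000000140000005054000000080204000000000020020 := rS 0x8348a6c4c3615a056e15 (k8 a89 a125 a124 i385 i524 i484 i995 i993 (k2 i736 i2045 k0)) (by decide +kernel)
def a187 : PP 8 4 T 0x400000000000002000000000000000014400080000000000000000400000000404000000000015000 := rS 0x14f5db197b4577bb5c6d7 (k8 i3173 i3177 i3182 i3183 i1748 i1986 a132 i1680 (k2 a59 a22 k0)) (by decide +kernel)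
def a188 : PP 8 4 T 0x202000000000000000000000008000140000005054880000080000000000000000000 := rS 0x48a6d06ce5e23d6a815ba7cdaed (k8 i3182 a95 i1713 a125 a124 i689 a28 i586 (k4 i548 i1415 i1418 i1149 (k1 i2045 k0))) (by decide +kernel)
def a189 : PP 8 4 T 0x2000001000000008000000000000002000000000000000000000100000000000001 := rS 0x8445150d8823b0b06c33192fc9e4b016cc6c2b236ec7e670f (k8 i3195 i3162 i3150 i3192 i3153 a89 i3148 i3191 (k8 i3193 i3154 i3155 a93 a25 i2790 i913 a50 (k4 i2787 i740 a30 i993 (k2 i385 a11 (k1 i896 k0))))) (by decide +kernel)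
def a190 : PP 8 4 T 0x2000001000000000000000000400000000800000000000080084000000000000000 := rS 0xd31e8705745a3bfe3a5f (k8 a93 i3149 i3172 i3151 a48 i896 i701 i1256 (k2 i1192 a64 k0)) (by decide +kernel)
def a191 : PP 8 4 T 0x2200000000000004100000000005000040000000040000000000000000000000000 := rS 0x1accad1469b4d2ef (k8 i3183 a88 a95 a87 a92 a63 i431 i2042 k0) (by decide +kernel)
def a192 : PP 8 4 T 0x8002200000000000000100000000005000040000000000000000000000000000000000 := rS 0x19e67329ada28d369a5df3b (k8 i3167 i3183 a88 a95 a87 a92 i431 a63 (k2 i1475 i950 (k1 i2042 k0))) (by decide +kernel)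
def a193 : PP 8 4 T 0x4002000000000000000002000000000000000000000080000000000011000000000008 := rS 0xcdca479fb763f47 (k8 i3151 i3150 i3192 i3170 i2971 i1462 i192 a43 k0) (by decide +kernel)
def a194 : PP 8 4 T 0x2000000000000040001000020000000010000000080000000000000000000000400 := rS 0x2d8a8bd2460 (k4 i1622 i1621 i1015 a115 (k2 i1241 a120 k0)) (by decide +kernel)
def a195 : PP 8 4 T 0x2000000000000000000000000020000000000000000000000000000200008000008 := rS 0x145fa53300240249029021a4f2640652d9 (k8 i3191 i3156 i3193 i189 i2546 i675 i188 i24 (k8 i748 i23 i1264 i1000 i827 i1198 i1312 a101 k0)) (by decide +kernel)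
def a196 : PP 8 4 T 0x1000000000000012000000000000000000004000000000000500000000000540000000000000000000 := rS 0x448b8af7e36dc701 (k8 i3193 i3177 i3174 a101 i423 a108 a78 a5 k0) (by decide +kernel)
def a197 : PP 8 4 T 0x400000000000000102000000000000000000001000000000005800000000000000000000000000000000 := rS 0x66c4e6aef (k4 i3183 i3164 a68 i894 (k1 a47 k0)) (by decide +kernel)
def a198 : PP 8 4 T 0x2000002000000000014000000000000000000000400000000400000000000005000 := rS 0x458f1b (k4 i3148 a27 i1727 a132 k0) (by decide +kernel)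
def a199 : PP 8 4 T 0x2200002000000000014000000000000000000000000000000000000000000005000 := rS 0x1ac8ec708bbe4b1b (k8 i3148 i3154 i3183 i1727 a27 i1464 i431 a132 k0) (by decide +kernel)
def a200 : PP 8 4 T 0x12200000002000000000000000010000000000000000000540000000000050000400 := rS 0x2ac12a303bf1a4cb07ab48ea506b064b1b80b6e8effa5b65db49 (k8 i3157 i3182 i3191 i3163 i3172 i3151 i3174 i3193 (k8 i3148 i3154 i1462 i1459 i171 i1464 i1467 a17 (k8 i430 a7 a101 i1191 a99 i1196 a97 i2027 k0))) (by decide +kernel)
def a201 : PP 8 4 T 0x4002000000000000000000002000000000400000110000000000000000000000000000 := rS 0x3bc4666ed (k4 i3182 i3162 i689 i807 (k1 a100 k0)) (by decide +kernel)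
def a202 : PP 8 4 T 0x400000000000000002000001001000000010400000400540010000000000000000001560500000000000 := rS 0x3087cc777c8e42fb (k8 i3189 i3152 i3153 i3183 i412 i2034 a10 i376 k0) (by decide +kernel)
def a203 : PP 8 4 T 0x402000000000000000000000000000001000004000000000000000800040000000000 := rS 0xf31999cf61f0b (k4 i3184 i3195 i3168 i3162 (k2 i952 i1070 (k1 a23 k0))) (by decide +kernel)
def a204 : PP 8 4 T 0x400000000000000002000000001000000010400000400540010000000000000000001560500000000000 := rS 0x1e03e (k2 i2034 a202 (k1 a6 k0)) (by decide +kernel)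
def a205 : PP 8 4 T 0xa02200000000000000000000000000000000000000000000000000000000000000000 := rS 0x1acaa8566964ae5d4396cd26d2fbbdcf37 (k8 i3165 i3179 i3183 a93 a95 a88 a90 a69 (k8 a5 a58 i686 i690 i1473 a72 i431 i2039 k0)) (by decide +kernel)
def a206 : PP 8 4 T 0x2000000000000000200200005000540040000000004000000000000000000000000 := rS 0x1855ead59ac51ad1 (k8 a92 a87 a94 a91 i1291 i1987 i1127 i2041 k0) (by decide +kernel)
def a207 : PP 8 4 T 0x22000000000000000000004040000000040400000008000401000000000000000000 := rS 0x9a4b2e145024f81c061f33 (k8 i3162 i3195 i3193 i3194 i1351 a4 a65 a108 (k2 i487 i531 (k1 a62 k0))) (by decide +kernel)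
def a208 : PP 8 4 T 0x2000000000000000200002000000000000000000008000000000000000000000000 := rS 0x5825a6074407082167e86c9c540c90c904d259c11c514915ccea98ecce1f1f6cb760701 (k8 i3193 i3194 i3192 i3191 i3150 i3195 i3162 i3149 (k8 i97 i121 i2321 i616 i1398 i1369 i1368 i487 (k8 i875 a62 i2451 i2777 i1125 i749 i2521 a74 (k8 a50 i2491 i709 i710 i1222 i1192 i1262 i277 (k1 a130 k0))))) (by decide +kernel)
def a209 : PP 8 4 T 0x2000000000000000000000001000000000000020000000002000000000000800000 := rS 0x2c12d303bf5101c20938871d (k8 i3149 i2451 i749 i2491 i709 i710 a74 i1222 (k4 i1192 i1262 i277 a130 k0)) (by decide +kernel)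
def a210 : PP 8 4 T 0x2000000000000000000000000000000000000014008000000200000400020000000 := rS 0x1440d0c161ce2ad344b7e1f4b6dcf6671d (k8 i3149 i3162 i3168 i3174 i3163 i3195 i3175 i1342 (k8 i1192 a51 i718 a120 a12 i1237 a65 i479 k0)) (by decide +kernel)
def a211 : PP 8 4 T 0x2000000000000000000000000010000000000014008000400040000000020800001 := rS 0x145fb0d051c85c042200c824f80c3e770394c7e4b1b6ece64ed9 (k8 i3191 i3155 i3166 i3192 i3148 i3154 i3150 i3156 (k8 i3194 i3167 i3195 i3193 i1350 i741 i999 a11 (k8 a0 a210 i1079 i315 i679 a70 i494 a101 k0))) (by decide +kernel)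
def a212 : PP 8 4 T 0x2000000000000004000000000001000800000000000224000000015040000800008 := rS 0x638ed3e848c334723762b0dc91785bbe3edd87cfd1a13 (k8 a98 a87 i3170 i3195 i3192 i3150 i3183 i3184 (k8 i947 a43 i172 a40 i1004 i194 i1971 a172 (k4 i610 i1188 i952 i1602 (k1 i2035 k0)))) (by decide +kernel)
def a213 : PP 8 4 T 0x2000000000000004000000000001000804210000000000000000155000021000000 := rS 0x13e3b63b3450c561b922eef8fb761f3f (k8 i3170 i3195 i3192 i3150 i3183 i947 a43 i172 (k4 a40 i1236 i1975 i259 (k2 i254 i1188 (k1 i2035 k0)))) (by decide +kernel)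
def a214 : PP 8 4 T 0x102000000000000004100000000001000840000000040205000000015040000800008 := rS 0x1044f9659ae79acae0327 (k8 i3155 i3193 i3158 i3164 i3179 i1971 a212 i1188 (k2 a1 a191 k0)) (by decide +kernel)
def a215 : PP 8 4 T 0x200000000000000400000a000001400800000000000000000004155000000800000 := rS 0x18e9f1dae922c561b922eef8fb761f3f (k8 i3170 i3195 i3192 i3150 i3183 i947 a43 i172 (k4 a40 i855 i887 i1155 (k2 i1187 i1680 (k1 i2035 k0)))) (by decide +kernel)
def a216 : PP 8 4 T 0x2000000000000000000002000001100000000000008004540000005840020800008 := rS 0x8a8c1716e8167a0c7e7d88a6d92192a8e46e8e438d55e6755bf21a94394061ee34684d66ed (k8 i3182 a91 a98 a87 i3177 i3195 i3193 i1079 (k8 i885 i679 a101 a97 i1673 i423 i2760 i2627 (k8 i884 i1004 i194 i767 i43 a208 i1445 i689 (k8 i126 i405 i924 i1104 a213 a215 a108 a172 (k2 a214 a52 k0))))) (by decide +kernel)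
def a217 : PP 8 4 T 0x2000000000000000014000000005002004000000000000000000555000000000000 := rS 0x319e0cf8cc8dbb1f (k8 i3150 i3192 i3153 a25 i1150 a30 i2035 a27 k0) (by decide +kernel)
def a218 : PP 8 4 T 0x2000000000000000000002000001200000000080000000000000000800000800008 := rS 0xce5d2d906911fa04769fa2c35727f43a6ca6792412c9a391b93ca2420f8658ac3720c46693388d529174737ddf1f6ec3e7e8d09cce0303 (k8 i3194 i3193 i3162 a98 a87 i3170 i3195 i3192 (k8 i3150 i3183 i3175 i884 i947 i885 i2760 i78 (k8 i1368 i319 i2676 a43 i172 a40 i43 i238 (k8 i999 i440 i2454 i1004 i194 i2601 i2753 a62 (k8 i1012 i2599 i2803 i2627 i102 i1142 i679 i1750 (k8 i2773 i2766 i1863 i404 a217 i923 a196 i887 (k2 a215 i1951 k0))))))) (by decide +kernel)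
def a219 : PP 8 4 T 0x2000000000000000000002000000040000000080000000000000000800000800008 := rS 0x1192e2296e8131b3d063f4ca74fa870e26cc239548ac6eaf7e13ca21f0c94c904b26c34ae0d720c46693388d529174710966b146b46371f6ec3e7ee399c060613 (k8 a98 i3194 i3193 i3162 i3177 i3170 i3195 i3192 (k8 i3150 i3148 a92 a87 a94 a91 i999 i884 (k8 i947 i885 i2760 i78 i1368 i319 i2676 a43 (k8 i1459 i441 i679 i2601 i2753 a62 i2599 i43 (k8 i238 i440 i2454 a101 i423 i1004 i899 i2754 (k8 i194 i2693 i2803 i1080 i2627 i126 i1678 a218 (k8 i405 i924 i1104 a216 a213 a215 i2041 a108 (k2 a52 a172 k0)))))))) (by decide +kernel)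
def a220 : PP 8 4 T 0x2000000000000000000002000000000000000080000000000000000800000800008 := rS 0x3c4763c14200bb195ba0d2caf7e1449e421b8e4e30d0e07c32533d920964d91b763f4771c051a132dcce1f03 (k8 i3194 i3195 i3162 a90 a98 a87 i3193 i3177 (k8 i3151 i3150 i3192 i3153 i2601 i2753 a62 i753 (k8 i2599 i43 i238 i1080 i679 i78 i194 i1004 (k8 i999 i2454 i440 a101 i423 a219 i1375 i1901 (k8 a71 a172 a108 i1236 i1235 i254 i1730 a30 k0))))) (by decide +kernel)
def a221 : PP 8 4 T 0x2000000000000000000002000000000000000080000000000000000800000800000 := rS 0x6221810065300920824b0e284e26f26cee07298fc9636dd9cc061f33 (k8 i3162 i3195 i3193 i3166 i3192 i3148 i3154 i3150 (k8 i3156 i3194 i3167 i2601 i58 i78 i2598 i1080 (k8 i2753 i2494 a62 i959 i2599 a220 a0 i700 (k2 i316 a211 k0)))) (by decide +kernel)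
def a222 : PP 8 4 T 0x10002000000000000000000000040400000000000000000000000004140000000000560 := rS 0x1e3c0223ba3ac566130ac8dbb1f (k8 i3150 i3192 i3153 a89 a98 a91 a94 i3151 (k4 i392 i524 a30 i2028 (k1 i1730 k0))) (by decide +kernel)
def a223 : PP 8 4 T 0x12000000000000000000000000010080000000000000000002000080040010000000 := rS 0xf205a7121e244f6798cb6e8effa5b6647339ec3d1a5b (k8 a90 a87 i3195 i3168 i3162 i3153 i3191 i3163 (k8 i3172 i3151 i3174 a71 i1012 i753 i993 i1777 (k4 a23 i1195 a45 a7 (k1 i1307 k0)))) (by decide +kernel)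
def a224 : PP 8 4 T 0x12000000000000000000000001010080000000000000000002000000540010000560 := rS 0x3c1c0446e3f57c654e3b58acc2615 (k8 a89 a98 a91 a94 i392 i1898 a71 i1900 (k4 i1372 a223 i524 a222 (k2 i2028 i1878 k0))) (by decide +kernel)
def a225 : PP 8 4 T 0x12000000000000000000002000810000000000000000000000000000000010000000 := rS 0xa411079a6dba3bfe96d9 (k8 i3191 i3163 i3172 i3151 i3174 a67 a7 i1396 (k2 i1395 i2128 k0)) (by decide +kernel)
def a226 : PP 8 4 T 0x2000000000000000000000000400040000000000008000000000200000000000541 := rS 0x15c991e8447e9b58acc2615 (k8 a89 a98 a91 a94 i1445 i297 i1874 i1877 (k2 i1936 i2028 (k1 i540 k0))) (by decide +kernel)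
def a227 : PP 8 4 T 0x12000000000000000000002080000000000000000000000440000000000000000000 := rS 0x19456283f602e3 (k4 i3177 i3193 i423 a101 (k2 i1398 i1397 (k1 i2324 k0))) (by decide +kernel)
def a228 : PP 8 4 T 0x2000000000000000100002000000000000000080000000200000000000000000000 := rS 0x8299ccaca55964fa7f4a45d1ceb9fca656e781ceddb0f (k8 i3195 i3182 i3167 i3194 i3179 i3158 i3156 i3170 (k8 i3181 i884 i947 i885 i102 i126 i608 i498 (k4 i1397 i1025 i1673 i430 (k1 i2012 k0)))) (by decide +kernel)
def a229 : PP 8 4 T 0x4002000000000000000100000000000000000000100000020000200010000000000000 := rS 0x3119b94440e9fb763ee7 (k8 i3179 i3150 i3192 i3170 i603 i604 i166 i285 (k2 i1571 a43 k0)) (by decide +kernel)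
def a230 : PP 8 4 T 0x12200000002000000000002000010000000000000000000540000000000010000400 := rS 0x794aed (k4 i3182 i171 a200 i1395 k0) (by decide +kernel)
def a231 : PP 8 4 T 0x12000000000000000000012000010020000000000000000000000008000010000000 := rS 0xd30fa894adba3bfe96d9 (k8 i3191 i3163 i3172 i3151 i3174 i289 i1671 i1395 (k2 a99 a7 k0)) (by decide +kernel)
def a232 : PP 8 4 T 0x2000000000000000000002000000000000000080008000400040001000000800000 := rS 0x8a412c004c90507b906b17470cc3ab93fa84162f33aadf8516493ce30d4a49e4b016cc6dd73f94cadcf039db763f0f (k8 i3195 i3150 i3192 i3167 i3194 i3179 i3158 i3156 (k8 i3170 i3181 i3148 i3191 i3193 i3154 i3155 i885 (k8 i679 i78 i1350 a208 a228 a101 a97 i1673 (k8 a221 i534 i2598 i102 i1142 i718 a231 i884 (k8 i947 i2760 a43 i166 a230 i2012 i962 i1025 (k2 i740 i603 (k1 a11 k0))))))) (by decide +kernel)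
def a233 : PP 8 4 T 0x2000000000000000000002000000000000000080008000400040000000000800000 := rS 0x414ca0e2c910820103b483e24118c0ceab7e1449ec9509c61a753e8d52917470745eeb9fca656e781cee4f2580b6636dba3bfe970f (k8 i3195 i3163 i3172 i3151 i3174 i3148 i3191 i3193 (k8 i3154 i3155 i3167 i3194 i3179 i3158 i3156 i3170 (k8 i3181 a221 i718 i884 i947 i885 i2760 i126 (k8 i1096 i679 i78 i2598 a208 i1350 a228 a101 (k8 a97 i1673 a232 i1571 i985 i1396 a7 i1191 (k8 i447 i740 a11 a229 i346 i1025 a17 i2012 k0)))))) (by decide +kernel)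
def a234 : PP 8 4 T 0x2000000000000000000000000000000000000000000020000040000000400800000 := rS 0x114832792c05b31b (k8 i3148 i3191 i3193 i3154 i3155 i2595 i604 a11 k0) (by decide +kernel)
def a235 : PP 8 4 T 0x2200001000000004140000000001000000000000040000000000500000000000002 := rS 0x4646e9e45c8dbb1f (k8 i3150 i3192 i3153 i452 a191 i997 a33 a30 k0) (by decide +kernel)
def a236 : PP 8 4 T 0x2200000000000000140000000100020000000080040000000008402014004000002 := rS 0x121124d0ac70cf4eb0d2ef1 (k8 a6 i1372 i375 i1678 i989 a235 i294 i297 (k2 a127 i1179 (k1 a113 k0))) (by decide +kernel)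
def a237 : PP 8 4 T 0x2200001001000004144002000001000000000080040000000004000014040800002 := rS 0xb666a05074e892658a2b1c06d4e3d690745f0d508eddf2390bee1ed9a5bfe8edb (k8 i3174 i3151 i3172 i3163 i3191 i3195 i3189 i3152 (k8 i3153 i3183 i1156 i2598 i679 a221 i718 a7 (k8 i1195 a225 i66 a235 i294 i1879 i1936 a127 (k4 a10 i924 a45 a36 (k2 i2031 i886 k0))))) (by decide +kernel)
def a238 : PP 8 4 T 0x2200000000000000000002054100000000000080040000000400002014000800102 := rS 0x174805e8ad06b7620dd2ccd5fa719ef1618407ec70606d267160a9c66b93fb95462d3db24904b4713528071e82da41f119d4fa1d17c3542cb079ac7669589b5671b09855deed87b6696ffa3b6e473380c0cb71f (k8 i3150 a90 i3194 i3193 i3162 i3153 i3174 i3151 (k8 i3172 i3163 i3191 i3195 i3182 i3183 a89 a98 (k8 i3148 a91 a95 a94 a88 i1156 i431 a17 (k8 i430 i2598 i679 a221 i718 i126 i1096 i1571 (k8 i1396 a7 a82 i1195 i1191 i885 i2601 i884 (k8 i2659 a62 i2761 i753 i977 i1652 i1461 i102 (k8 i1142 a231 a225 i1518 i78 i1368 i66 i2027 (k8 i1687 a236 i2028 i1952 i1727 i989 a237 i1646 (k8 i1909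 i1678 i1780 i1511 i886 i1375 i899 i1795 (k2 i2031 i2043 (k1 i1865 k0))))))))))) (by decide +kernel)
def a239 : PP 8 4 T 0x2000000000000000000000040410080000004010000000000001000014050800540 := rS 0x20224f1158406e3f5ba0c771b58acc2615 (k8 a89 a98 a91 a94 i3148 i1156 i1375 i1901 (k8 i1372 i1777 i2028 i899 i1727 a127 i2031 a45 k0)) (by decide +kernel)
def a240 : PP 8 4 T 0x2200000000000000000002040200000000000080040000000004002014000800102 := rS 0x67bc586c708395926b4ea5c163d03b48f64825a389a1f119d4faa7868745e7150a5236b15984c2b0f2dcce03036cd2dff476dc8ddf1f (k8 i3150 i3183 i3153 i3174 i3151 i3172 i3163 i3191 (k8 i3194 i3193 i3162 a90 i3195 a89 a98 a91 (k8 a94 i3148 i885 i2598 i78 a221 i718 i679 (k8 a225 i126 i1096 i1571 i1396 i2601 i884 i2659 (k8 a62 i753 a7 i1191 i1195 a82 a239 i1678 (k8 i431 i2761 i1461 i2028 i414 i1952 i1727 i989 (k1 a237 k0))))))) (by decide +kernel)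
def a241 : PP 8 4 T 0x2000000000000000000000000000000000000080000000000028200000004000000 := rS 0x9089268562913bc4b613 (k8 a98 a90 a6 i745 i186 i294 i297 a127 (k2 i1179 a113 k0)) (by decide +kernel)
def a242 : PP 8 4 T 0x2000000000000000080000000000000000000000000000000000000002000800000 := rS 0x1982a (k2 i410 i411 (k1 i2603 k0)) (by decide +kernel)
def a243 : PP 8 4 T 0x2200000000000000000002010000000000000080040000440420002000000800000 := rS 0x3397a39788f93a97522ac12fc5786ce2a73d81c7a0b6907c46753e8745f0d509459248259352829000ec4ec71223a4b012d84e670f81b6696ffa3b6e471b (k8 i3148 i3153 i3174 i3151 i3172 i3163 i3191 i3194 (k8 i3195 i3162 a98 a90 i3193 i3154 i884 i985 (k8 a242 i745 i1156 i740 i186 i885 i2601 i2659 (k8 a62 i2761 a228 i2598 i679 a221 i718 i126 (k8 i1096 i1571 i1396 a7 a82 i1195 i1191 i753 (k8 a225 i78 i66 a227 a101 i1196 a97 a238 (k8 a239 i1678 a240 a6 a241 i1412 a235 i1105 k0))))))) (by decide +kernel)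
def a244 : PP 8 4 T 0x2000000000000008040004000410020004100080000000000000002014050000000 := rS 0x1fa0c56bc48b087ad286c8e1ed9a5bfe8edb (k8 i3174 i3151 i3172 i3163 i3191 i3195 i3153 i679 (k8 a7 i1195 i989 i2764 i1105 i372 i923 i1412 (k1 i2031 k0))) (by decide +kernel)
def a245 : PP 8 4 T 0x2000000000000000000004000410000000100080000000000000200014054000000 := rS 0x209323f158f5a50d4dc8e1ed9a5bfe8edb (k8 i3174 i3151 i3172 i3163 i3191 i3195 i3153 i1180 (k8 i679 a7 i1195 i294 i297 i1936 i2031 i924 k0)) (by decide +kernel)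
def a246 : PP 8 4 T 0x2000000000000000000002000000000000000080000000400040002000000800000 := rS 0x10499158fd3cf045a7472cf5ba049cc71d8004e29201141f04239955a591eb25a4480f92c48230d934ea7d43c5d1ca70e8be1aa13398d285b09c9e4b016cc6dd73f94cadcf039dc8db7477fd2e1f33 (k8 i3162 i3195 i3163 i3172 i3151 i3174 i3153 i3167 (k8 i3194 i3179 i3158 i3156 i3170 i3181 i3148 i3191 (k8 i3193 i3154 i3155 a98 a90 i885 a233 i1674 (k8 i2598 i679 a221 i718 a225 i884 i947 i2627 (k8 i126 i1096 i2601 i66 i1571 i985 i2659 i1396 (k8 a62 a7 i2761 i1195 a234 i1288 i1025 i205 (k8 i2012 a17 i346 a11 i186 i745 i740 i1156 (k8 a242 a243 a124 a125 a244 a245 i1512 i452 (k4 a235 a191 a6 a61 (k2 i2773 i2031 (k1 i924 k0))))))))))) (by decide +kernel)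
def a247 : PP 8 4 T 0x2000000000000004040002000000000000000080000000400060000000000800000 := rS 0xde329c1cadd02f12714608c9328ec9000138a436a73398c1ac507b0c16d20fa95c83119ae4fe354a45d1c1d17c3543236ec7e7eeb94cadcf039d96c270f6cd2dff476dbb5df1b (k8 i3148 i3183 i3182 i3174 i3151 i3172 i3163 i3191 (k8 i3195 a98 a90 i3167 i3194 i3179 i3158 i3156 (k8 i3181 i3170 i3150 i3192 i3153 i2598 i679 a221 (k8 i718 i884 i947 i885 i2760 i102 i1142 a231 (k8 a246 a43 i171 i1395 a7 a82 i172 i166 (k8 a40 i1459 a233 i1674 a225 i66 i186 i745 (k8 i740 i739 i1156 i2634 i2761 i2012 a228 a200 (k8 a199 a124 a125 a245 a235 i1746 i1780 a30 k0)))))))) (by decide +kernel)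
def a248 : PP 8 4 T 0x4102100000000000000000000000000020000000000050011000000000000000000000 := rS 0x194a82b321cf3595c064eeb9fca6073b (k8 i3167 i3194 i3156 i3170 i3181 i3155 i3193 i3158 (k4 i3164 i3179 i2012 a1 (k2 i1100 i1101 (k1 i2323 k0)))) (by decide +kernel)
def a249 : PP 8 4 T 0x2000000002000000000002000010000000000080040000400200000000010000004 := rS 0xa802138025125b2608652cc4528558ba381e0b6907d4b0d9dc0e531f92c6dbb3987b6696ffa3b6ddae7 (k8 i3179 i3182 i3174 i3151 i3172 i3163 i3191 i3195 (k8 i3166 i3192 i3148 i3154 i3150 i3156 i3194 i3167 (k8 i679 i171 i1395 a7 a82 i166 i884 i947 (k8 i2522 i885 i689 i603 i1025 a248 i428 i1132 (k4 a228 i477 a230 a0 (k2 i758 i572 k0)))))) (by decide +kernel)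
def a250 : PP 8 4 T 0x2000000000000004000002000000000000000080000000400060000000000800000 := rS 0x6f194f22c729d78b18661d17ae4ff0d508ec4ec924410ca002c894626731c5d1c554a44646dd8fbb61e5b (k8 a90 i3195 i3182 i3150 i3192 i3153 i689 i885 (k8 i2522 i884 i947 a233 i1674 a246 i861 i866 (k8 i740 i2634 a248 i739 i2761 i745 i1156 i2598 (k8 i679 i102 i1142 a221 i718 a231 a247 a27 (k4 i1640 i298 i452 a191 (k2 a33 i996 (k1 a30 k0))))))) (by decide +kernel)
def a251 : PP 8 4 T 0x2000000000000000000002000000000000000080000000400040000000000800004 := rS 0x3f418ad78915bb39024e28c1192652c9200027149008a0b1eb483ea572094626731c44aa358ba394e330e8bd727f4a435425b09c9e4b016cc6e46dba3bfe96ed9fb763f0f (k8 i3195 i3150 i3192 i3170 i3182 i3163 i3172 i3151 (k8 i3174 i3153 i3148 i3191 i3193 i3154 i3155 a98 (k8 a90 i2598 i679 i885 i102 i1142 a221 i718 (k8 a231 a225 i884 i947 i2760 i2522 i689 a233 (k8 i1674 a246 i861 a43 i171 i1395 a7 i1195 (k8 a82 a249 a11 i186 i745 i740 i739 i866 (k8 i2634 i2761 a248 a228 a230 a124 a250 a125 (k4 i2764 i1105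 i898 i923 (k2 i1411 i2031 k0))))))))) (by decide +kernel)
def a252 : PP 8 4 T 0x2000000000000000000000000000000000000000000000010080000000001000004 := rS 0x964981c061f33 (k4 i3162 i3195 i3193 i3194 (k2 i700 i438 (k1 a62 k0))) (by decide +kernel)
def a253 : PP 8 4 T 0x2000000000000000000002000000000000000080000000000040000000000800004 := rS 0x8a4155160a51b6cc064b27 (k8 i3155 i3154 i3193 i3191 i3148 a251 i882 i883 (k2 i2575 i2391 (k1 a11 k0))) (by decide +kernel)
def a254 : PP 8 4 T 0x2000000000000000000002000000000000000080000000000000000000000800004 := rS 0x10c324d (k4 i2601 i43 a252 a253 k0) (by decide +kernel)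
def a255 : PP 8 4 T 0x2000000000000000000000000001000804800080000000000000555000000000000 := rS 0x4f26120c561b922eef8fb761f3f (k8 i3170 i3195 i3192 i3150 i3183 i947 a43 i172 (k4 a40 i923 i924 a217 (k1 i2773 k0))) (by decide +kernel)
def a256 : PP 8 4 T 0x200000000000000400000a000041000800000000000000000000555000000000000 := rS 0x9f63a4574c561b922eef8fb761f3f (k8 i3170 i3195 i3192 i3150 i3183 i947 a43 i172 (k4 a40 i887 i2602 i1679 (k2 i1187 i2035 k0))) (by decide +kernel)
def a257 : PP 8 4 T 0x2000000000000000000002000000000000200080000000000000000000000800000 := rS 0x41083f53abc12071eb483ea52eb3cb1112aa74c86755bf20a510593ca6486495c1ae48b9086235470cc3a2f5c9fd290d508ac6e0258acc261546c3e371f6ecfcd33b81b9e572975c064eed9ac8db34b7fd1db725 (k8 i3154 i3174 i3151 i3172 i3163 i3191 i3153 i3164 (k8 i3182 i3155 i3193 i3181 i3156 i3158 i3179 i3194 (k8 i3167 a88 i3170 i3192 i3150 i3148 i3195 a87 (k8 a89 a98 a91 a94 a254 i1004 i899 i2598 (k8 i679 i885 i102 i1142 a221 i718 a231 i884 (k8 i2760 i2676 i999 i947 a43 i1459 i441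 i2776 (k8 i998 i2599 i2454 i302 a228 a230 a101 a97 (k8 i1673 i2012 i1551 i2522 i689 a1 i1028 a212 (k8 i171 i1395 a7 i1195 i1191 i1196 a227 a225 (k4 i1333 i1402 i2028 a176 k0)))))))))) (by decide +kernel)
def a258 : PP 8 4 T 0x2000000000000000000000000001000804800080000000000000155000010800000 := rS 0x7427 (k2 i735 a255 (k1 i1156 k0)) (by decide +kernel)
def a259 : PP 8 4 T 0x2000000000000000000002000000000000000080000000000000000000000800000 := rS 0xe922b641a04bacf4ea8cc8586919cae1f558354aaf7e415c85327944560b1892084c91b8e404330e8be2e3543955728e4a434ff1150a34d2eb9fca656e781cee6b0193b6e8effa5b6636ed6ec7c270f (k8 i3195 a98 i3150 i3192 i3182 i3148 i3191 i3163 (k8 i3172 i3151 i3174 i3155 i3193 i3164 i3167 i3194 (k8 i3179 i3158 i3156 i3170 i3181 a88 a87 i2598 (k8 i689 i102 i679 i885 i884 i1142 i2522 i2627 (k8 i2760 i947 a221 i718 a231 a254 i194 i1004 (k8 i2776 i999 i998 i2676 i302 i899 a228 i2454 (k8 i2599 a43 a230 a101 a227 i171 i1459 a97 (k8 i1395 i441 i1673 a7 a1 i2012 a99 i1551 (k8 i1028 a212 a257 a258 a108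 i2602 a256 i1155 k0))))))))) (by decide +kernel)
def a260 : PP 8 4 T 0x20002000000000000000000000041000140000000000005000000000000000000000000 := rS 0x1169b59ac51ad1 (k4 a92 a87 a94 a91 (k2 a41 a52 (k1 i2041 k0))) (by decide +kernel)
def a261 : PP 8 4 T 0x1000200000000000000000000a000000000000000000000000000000005000000800008 := rS 0x53b083ac713bc13a7b1b8e5423b48b1598251a8853e9567a66290d379d4e2735d48dbb1f4684e673d6dd2e1edf (k8 i3175 i3195 i3163 i3174 i3168 i3162 a98 a87 (k8 i3150 i3192 i3153 i887 a259 i2468 i970 i1400 (k8 a118 a12 a57 i1950 a14 i1685 i2483 i1117 (k8 i861 i886 i1792 i854 i1155 i2598 i194 i1004 (k8 i714 i1909 a30 a135 a27 i721 i2035 a225 (k1 i1944 k0)))))) (by decide +kernel)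
def a262 : PP 8 4 T 0x10002000000000000004014000000005000000000000000000000000555000000000000 := rS 0xc67848dbb1f (k4 i3150 i3192 i3153 a30 (k2 i2035 a27 k0)) (by decide +kernel)
def a263 : PP 8 4 T 0x12000000000000000000000000090000000040000000000000000000000010000000 := rS 0x7da6dba3bfe96d9 (k8 i3191 i3163 i3172 i3151 i3174 a99 i241 a7 k0) (by decide +kernel)
def a264 : PP 8 4 T 0x200000000000000000001a000100000000000000000000000000005000010800000 := rS 0x348581f17b044a931a8852a898a1bcea7139a8e1aa13fc7db7477fd2db33999cf61edf (k8 i3175 i3195 i3168 i3162 i3166 i3191 i3163 i3172 (k8 i3151 i3174 i3150 i102 i2598 a118 a263 a259 (k8 i2468 i970 i1400 a12 i1206 a14 i2483 i1117 (k8 i1368 i861 i1248 i1079 i1395 i2033 a7 i1193 k0)))) (by decide +kernel)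
def a265 : PP 8 4 T 0x200000000000000000001a040000000000000000000000100000005000010800500 := rS 0x7088fc3cf01139548c751b0d4e7f88aea1a3d508869ec56609562b30985636ef91c85f6ed (k8 i3182 i3189 i3152 i3153 i3183 i3148 a89 a98 (k8 a91 a94 i861 i886 i1792 a36 i2483 i2598 (k8 i1784 a118 i887 i689 i102 a225 i1944 a263 (k8 i1679 a264 i171 a107 a10 i248 a6 i1727 (k2 i1301 i2028 k0))))) (by decide +kernel)
def a266 : PP 8 4 T 0x400000000000000002000000000000000010488040000000000000000000001040000004000120800004 := rS 0x211348a052303c1ae478b1c22c31329882a50c9ae4f2580b6636e777c8e42fb (k8 i3189 i3152 i3153 i3183 i3179 i3148 i3191 i3193 (k8 i3154 i3155 i1946 i43 i1382 i741 i722 i721 (k8 i1945 i1912 i337 a76 a10 i1459 i166 a132 (k4 i264 i225 i708 a11 (k1 a252 k0))))) (by decide +kernel)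
def a267 : PP 8 4 T 0x200000000000000000000a000000000000000000000000540000005000000800000 := rS 0x1348400228400e3f69104701f3d29538e48bae14e1d01c659e9f0598412a94c98d12951ab169efc57c517e21660f52f0d5d174e2830da843273129bcea5593c9602d98dac566130ab6e8effa5bb5df3f6ec7e53396fc3e7b33 (k8 i3162 i3168 i3195 i3175 i3166 i3156 i3150 i3192 (k8 i3170 i3183 i3182 i3163 i3172 i3151 i3174 a89 (k8 a98 a91 a94 i3148 i3191 i3193 i3154 i3155 (k8 i767 i970 i1400 i861 a259 i43 i2598 i66 (k8 i151 i2468 i1931 i887 a118 i1902 i1784 i886 (k8 i2483 i1455 a12 a227 a101 a36 i1792 i1117 (k8 a14 i1206 a51 a57 a85 i1196 i1198 a70 (k8 i1685 i1950 a260 a261 a266 a225 a265 i949 (k8 a43 a79 i171 i1909 i1395 i714 i2493 a7 (k8 i296 i1191 i2028 i483 i1874 a11 i446 a252 k0)))))))))) (by decide +kernel)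
def a268 : PP 8 4 T 0x2002000000000000001000010140000000000000084000000000004000000005040 := rS 0x196470482d5725 (k4 i3154 a97 a70 i1196 (k2 i1617 i545 (k1 i2027 k0))) (by decide +kernel)
def a269 : PP 8 4 T 0x12000000000000000000022000000000000000000000000540000005000010800000 := rS 0xcb23958884a2090c920326b20ce076907e0a0f06a95c88e32c5e22770cb044a5556824c20b55bf146a13f8d442638a1c4de7539c9e4b016cc6e070f99bae7f2995b9e76dba3bfe96ed6ec7e7adf (k8 i3175 i3168 i3150 i3192 i3182 i3163 i3172 i3151 (k8 i3174 i3167 i3179 i3158 i3156 i3170 i3181 i3162 (k8 i3195 i3194 i3148 i3191 i3193 i3154 i3155 a259 (k8 i970 i1400 i709 a12 a51 i727 i1117 i102 (k8 i2598 a263 a101 a97 a70 i1198 i1196 i1287 (k8 i767 i861 i1248 i43 i2470 i689 i949 i1026 (k8 a100 a43 i171 i1459 i166 a230 i1395 a7 (k8 i1191 a268 i2012 i875 i2776 i1125 a252 i739 (k4 a62 a11 i1133 i225 (k2 i505 i2027 k0)))))))))) (by decide +kernel)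
def a270 : PP 8 4 T 0x12000000000000000000012000100000000000000000000000000005000010800000 := rS 0x1a42c0f8bd822551a84fe3510a4d2a898a1c4de7539c7db7477fd2db33999cf61edf (k8 i3175 i3195 i3168 i3162 i3166 i3191 i3163 i3172 (k8 i3151 i3174 i3150 a259 i970 i1400 i709 a12 (k8 i1206 a14 i1368 i727 i1117 i102 i2598 a263 (k4 i861 i1248 i1079 i1395 (k2 i2033 a7 (k1 i1193 k0)))))) (by decide +kernel)
def a271 : PP 8 4 T 0x102000000001000000900000000000000400000000000001100400000000100800040 := rS 0x2610c924b071601a5782c0e030f99b9e571b92cd64eed (k8 i3182 i3155 i3164 i3154 i3148 i3158 i3179 i3162 (k8 i3195 i3193 i3194 i430 i505 i465 a1 a39 (k4 i605 i868 i596 a62 (k1 i707 k0)))) (by decide +kernel)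
def a272 : PP 8 4 T 0x12000000000000000000002000000000000000000000000540000005000010800000 := rS 0x4c219241c580695e0a4b3232c0e1e64a3cce228b11dcaa45c98d2b14498d4e221889cc4a6f3a9555a0930aa556fc81c061f3373cae37259ac9e773f6ec7ddadfa5b6e7b29 (k8 i3156 i3168 i3174 i3163 i3175 i3182 i3150 i3192 (k8 i3170 i3167 i3155 i3164 i3154 i3148 i3158 i3179 (k8 i3162 i3195 i3193 i3194 a101 a97 i421 i1198 (k8 i1196 i1287 i767 i970 i1400 i861 a259 i689 (k8 i727 i709 i1117 i1368 a12 a14 a51 a269 (k8 a270 i171 i208 a43 a107 i1475 i947 i946 (k8 i248 i1301 a271 i2040 i1050 a63 i1579 i1491 (k4 a1 a39 i868 i596 (k2 a62 i707 k0))))))))) (by decide +kernel)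
def a273 : PP 8 4 T 0x402000000000000000000000041000141000004000005100000000000000000800000 := rS 0x22d36788cacd628d68cce7b0f (k8 i3195 i3168 i3162 a92 a87 a94 a91 a260 (k4 a23 i2649 i1853 i2041 k0)) (by decide +kernel)
def a274 : PP 8 4 T 0x1000000000000002000000000000000000000000000000000002000000000000001000100020800000 := rS 0xfd4ef1138d832d3a3bfe3f1d (k8 i3149 i3150 i3172 i3151 i1192 i43 i972 i1768 (k4 i1729 i1917 i1422 a64 k0)) (by decide +kernel)
def a275 : PP 8 4 T 0x402000000000000000080000000000000004000000000000000000000044000000000 := rS 0x52f1 (k2 a27 i259 (k1 a127 k0)) (by decide +kernel)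
def a276 : PP 8 4 T 0x2100000000000000008000000000000000000000000000000000000000000005000 := rS 0x7291dcf2b8dc95de13 (k8 a98 i3183 i3154 i3148 i3158 i3179 i210 i172 (k1 a39 k0)) (by decide +kernel)
def a277 : PP 8 4 T 0x2100000000000000020000000000000000000000000000000000000000000005000 := rS 0x3948ee795c6e4a69 (k8 a88 i3154 i3148 i3158 i3179 i1535 a40 a39 k0) (by decide +kernel)
def a278 : PP 8 4 T 0x12000000000000000000006000000000000500000000100540000000000000000000 := rS 0xaf (k2 a227 a108 k0) (by decide +kernel)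
def a279 : PP 8 4 T 0x2000000000000000008002000000000000000000000020800084000014048020400 := rS 0x3d53a8582070eaa90283893c456875baecbf1b (k8 i3148 a93 i3115 i887 i929 i372 i1727 a127 (k8 a68 a45 i883 i2536 i2269 i1514 i820 i1913 (k2 i1959 i2031 k0))) (by decide +kernel)
def a280 : PP 8 4 T 0x2000000000000000008002000000000000000000000120100084000014408020400 := rS 0x5ed155cab29afd6e1fa1d3c9ebb40a0e24f115a1ddeed71b5cbf1b (k8 i3148 a93 i3173 i3177 i3182 i3183 i929 i372 (k8 i1727 a127 a68 a45 i3115 i2533 a13 a84 (k8 i1396 i887 i1455 a279 i581 a108 i1748 i1987 (k1 a22 k0)))) (by decide +kernel)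
def a281 : PP 8 4 T 0x2100000000000000100054005010004040500000050100540004000054010002402 := rS 0x94a11855a095307e18cb318f5fb45574addb497384dc6d7 (k8 i3173 i3177 a98 i3179 i3157 i3182 i3158 a108 (k8 i1748 i423 i1782 i539 i626 a196 a81 i2031 (k4 i202 i1494 i961 a55 (k2 i2040 a121 k0)))) (by decide +kernel)
def a282 : PP 8 4 T 0x8002001000000000080400000005000000000000000014000000000000000000002002 := rS 0x948a2b4c2c11699d26c95cb7e93038fbb5cf3b (k8 i3167 i3179 i3182 i3150 i3194 i3157 i3175 i949 (k8 i946 a19 i1475 i1193 a44 i960 i1493 a53 (k2 i2040 a14 k0))) (by decide +kernel)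
def a283 : PP 8 4 T 0x8002101001000000000400008004000000000004000014000020004000004000002002 := rS 0x2528461568254cd3549c47b4533a4d92b995bb692e709d1dff3b (k8 i3167 i3172 i3151 a98 i3179 i3157 i3182 i3158 (k8 i949 i946 a19 i1475 a116 i1783 i801 i575 (k8 a282 a64 i202 i1494 i961 a55 i2040 a121 k0))) (by decide +kernel)
def a284 : PP 8 4 T 0x2101000000000000500010004800004000000000054000020000000000000022002 := rS 0x4a509526156818132b76d25ce13 (k8 a98 i3179 i3157 i3182 i3158 i202 i1913 i1494 (k4 i961 i2268 a55 i2040 (k1 a121 k0))) (by decide +kernel)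
def a285 : PP 8 4 T 0x2101000000000000400200004000000000000000000000000000000000000000000 := rS 0x56d0e56eda4b9d62ef (k8 i3183 a94 i3179 i3157 i3182 i3158 i1215 i1291 (k1 a55 k0)) (by decide +kernel)
def a286 : PP 8 4 T 0x800000000000002000000000000000009000000800000000000000000000020240010400880000000 := rS 0x24a2833448b462180bae5469552b4dfeeb (k8 i3181 i3172 a67 a129 a121 i1479 i1214 i707 (k8 i526 i1572 i1304 i2109 i2112 a120 i2033 a115 k0)) (by decide +kernel)
def a287 : PP 8 4 T 0x800000000000002002000000000000008000000000000000000000000020100040000000000000000 := rS 0x8b9d51cc924135821e0ead85e4ba2c4d02832e8d408a61433036031399c0211110380e2122154ae4123824a6af0593d6a3f528f57b0f81c0666ff9dca63f258db7672b15984c2b276cbbdc6db (k8 i3174 i3177 i3183 i3191 i3155 a89 a98 a91 (k8 a94 i3166 i3192 i3148 i3154 i3150 i3156 i3167 (k8 i3172 i3162 i3193 i3194 i3195 i1215 i1958 a129 (k8 i375 a84 a74 a70 i423 i419 i1196 i210 (k8 i867 i119 i118 a11 i723 i479 i603 i604 (k8 i2407 i2406 i2366 i1955 i2122 i2155 i251 i250 (k8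 i2028 a0 i355 i1971 i894 i1974 a54 i1747 (k8 i486 i315 a174 i721 i1929 i1574 a286 a62 (k4 i1125 i868 i1011 i947 (k1 a229 k0)))))))))) (by decide +kernel)
def a288 : PP 8 4 T 0x12000000000000000008000000910000001000000000020000080000000010000000 := rS 0x841ccc06c4c4a280f09d0f0588d3da73577b6e8effa5b66025f (k8 a93 i3193 i3191 i3163 i3172 i3151 i3174 i3183 (k8 i3164 a67 a13 i685 a2 i929 i1915 a7 (k8 i242 i350 a54 i462 a47 a276 i729 i596 k0))) (by decide +kernel)
def a289 : PP 8 4 T 0x2000000000000000000000000000000000000000000000010080010002000000000 := rS 0x128324981c061f33 (k8 i3162 i3195 i3193 i3194 i2594 i348 a62 i438 k0) (by decide +kernel)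
def a290 : PP 8 4 T 0x2000000000000000000000000000000000000000000020010080000000000008000 := rS 0x120404b81c061f33 (k8 i3162 i3195 i3193 i3194 i2404 i596 a62 i2480 k0) (by decide +kernel)
def a291 : PP 8 4 T 0x2000000000000000008000000000000000000000000020010080000000000000000 := rS 0x9024258301f0581c061f33 (k8 i3162 i3195 i3193 i3194 a2 a290 a276 i2274 (k2 i462 a62 (k1 i2594 k0))) (by decide +kernel)
def a292 : PP 8 4 T 0x22002000000000000000000000000000000400000000100100000000000000000000 := rS 0x2dd02535793dc6db (k8 i3174 i3177 a74 i423 i419 a4 a118 a108 k0) (by decide +kernel)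
def a293 : PP 8 4 T 0x800000000000002102000000000000500000000000000000000000040000000400000000000000042 := rS 0x1251631994c2a956aad729575cfe532b73c0e76df (k8 i3175 i3167 i3194 i3179 i3158 i3156 i3170 i3181 (k8 a121 i1214 a97 i1199 i421 i1198 i963 i447 (k2 i2012 i2040 (k1 a19 k0)))) (by decide +kernel)
def a294 : PP 8 4 T 0x2100000000000000100000000000000000000000040000000000000002102002000 := rS 0x8b994683175cfe532b73c0e7707 (k8 i3178 i3167 i3194 i3179 i3158 i3156 i3170 i3181 (k4 i1042 i348 i1491 i944 (k1 i2012 k0))) (by decide +kernel)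
def a295 : PP 8 4 T 0x800000000000002002000000000000408000000000000000000000000020000000000000000004000 := rS 0x5f9ad08823ec31a6062e800341933a3c3e1d0b8900ac9060850f058891e9eaf56aad6abb52af5425326108a269589b567356dd1dff4b6cc6e670f8fb75df2b7184e025f (k8 a93 i3193 a98 i3177 i3158 i3183 i3192 i3150 (k8 i3195 i3162 i3148 i3191 i3163 i3172 i3151 i3174 (k8 i3164 a91 a95 a94 a88 i607 a287 a291 (k8 i419 i819 i1215 a129 a86 a84 a97 i1199 (k8 i423 a13 i210 i685 a2 i929 i724 a276 (k8 i2275 i2339 i462 i708 i862 i350 a180 i544 (k8 a294 a50 i780 i2259 a293 i1191 a7 i1204 (k4 a292 a197 i1868 i1607 (k1 i2043 k0))))))))) (by decide +kernel)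
def a296 : PP 8 4 T 0x102000000000000000000019000000010400050440000000000000000000225000000 := rS 0x24a2c713a9bc2d3387c7db2dd (k8 i3192 i3191 i3150 i3195 i3162 a50 i1232 i1500 (k4 i2468 a100 i2044 a19 k0)) (by decide +kernel)
def a297 : PP 8 4 T 0x102000000000000000000019000000010400040440000000000100000001224008001 := rS 0xeb171a0080a183e88e67079dc0e531f92c6dbb39 (k8 i3166 i3192 i3148 i3154 i3150 i3156 i3194 i3167 (k8 i3178 i3162 i244 i1234 a296 i228 a0 i340 (k2 i944 i1062 (k1 a100 k0)))) (by decide +kernel)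
def a298 : PP 8 4 T 0x800000000000002002000000000000408000000000000000000000000020000000000000000000000 := rS 0x501b20ca760e4356c8340a154c5d0da3c4a2003844026706838e64c50914843d1faf54a955aae50f112ad3d8a095782c9e7f29946770394c7e4b1b6ece562b309855deeb6db8e025f (k8 a93 i3193 i3177 i3174 i3181 i3183 a89 a98 (k8 a91 a94 i3166 i3192 i3148 i3154 i3150 i3156 (k8 i3194 i3167 i607 i419 i844 a74 a70 i423 (k8 i1196 i116 a13 i118 i685 i929 i1214 a84 (k8 a121 a129 i1215 i375 i1958 a287 i41 i819 (k8 a291 i836 a295 i108 i2365 i2405 i602 i599 (k8 i596 i859 i875 i780 i443 i2028 i1503 i1860 (k8 a197 a108 a292 a288 a297 i1547 i806 i341 (k2 i2410 a0 k0))))))))) (by decide +kernel)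
def a299 : PP 8 4 T 0x2000000000000000200000000000000000000000000020020400000000000000001 := rS 0x84040b914067620c9e4b016cc6e770394c7dbb39 (k8 i3166 i3192 i3150 i3156 i3194 i3167 i3148 i3191 (k8 i3193 i3154 i3155 i867 i614 i1123 i2411 i2469 (k2 a0 a11 (k1 i518 k0)))) (by decide +kernel)
def a300 : PP 8 4 T 0x400000000000000002000000000000000000000000000000001800000000020000000000000200000000 := rS 0x66c4d0f119abbe025f (k8 a93 i3193 i3183 i3164 i685 i929 a68 i2485 (k1 a47 k0)) (by decide +kernel)
def a301 : PP 8 4 T 0x2002000000000000000002000000000001400000000100100000000000200000000 := rS 0x16e812993e1adb (k4 i3174 a292 a74 i419 (k2 i1402 i2483 (k1 a278 k0))) (by decide +kernel)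
def a302 : PP 8 4 T 0x2002000000000000408000000000000000000000040020000080000000000000020 := rS 0x4c801e29c7e1e0ea95807c5ac350685118800e2507044ba0d82c469ec504abc167f28d0c8aa129ac566130ad2e6adb76b8e4b01 (k8 i3193 i3154 i3177 i3182 i3174 i3164 i3163 a89 (k8 a98 a91 a94 i419 i819 i41 a298 i607 (k8 i844 a70 i423 i1196 i116 a13 i685 a2 (k8 i521 i2335 i1953 a276 i859 i599 i596 i244 (k8 i1867 a300 a292 a301 a21 i1501 i1326 i1234 (k4 i1502 i1426 a288 i2028 (k2 i1307 i1308 (k1 i3126 k0)))))))) (by decide +kernel)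
def a303 : PP 8 4 T 0x102000000000000000000000000000000400000400000000000080000000000008008 := rS 0x1d62e251a0366707 (k8 i3178 i3162 i108 i340 i859 i944 i1062 a100 k0) (by decide +kernel)
def a304 : PP 8 4 T 0x2002000000000000408000000000000000000000040020020080000000004000000 := rS 0x12030420f0c0082e0582c451e77648048f3387c7db2dd9dc0e53258dce42701 (k8 i3193 a98 i3166 i3148 i3154 i3156 i3194 i3167 (k8 i3192 i3191 i3150 i3195 i3162 i210 i446 a299 (k8 i806 i875 i685 a2 a302 i708 a0 a50 (k4 a303 i724 a276 i462 (k1 a294 k0))))) (by decide +kernel)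
def a305 : PP 8 4 T 0x2002000000000000408000000000000000000000000020000040000000000000000 := rS 0x16e8386870f8c040a95a745530f50a3f14331462708894440e03a8442442bb9482470494d5e0b27946873590bb68eff58acc261593c9602d98db8db6ef (k8 i3183 i3174 i3177 i3148 i3191 i3193 i3154 i3155 (k8 a89 a98 a91 a94 i3172 i3151 i3182 i3152 (k8 i3164 a298 i607 a74 a70 i423 i419 i1196 (k8 i210 i867 i172 i119 a11 i723 i308 i479 (k8 i603 i604 i347 i2407 i1955 i322 i251 i250 (k8 i2131 i1867 i3135 i2028 i1747 a67 i2128 i1860 (k4 a15 i1573 i1574 i1204 (k2 i1442 i721 (k1 a196 k0))))))))) (by decide +kernel)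
def a306 : PP 8 4 T 0x12002000000000000500010000000004000020040050000100000000000000000000 := rS 0x6f8a9892a7130aa55aab6fc3e96db9ecce5729 (k8 i3156 i3158 i3162 i3168 i3174 i3163 i3195 i3175 (k8 a97 i1199 i421 i1198 i1360 i1598 i2040 a51 (k2 i1319 a12 k0))) (by decide +kernel)
def a307 : PP 8 4 T 0x1200000000000000000800a000010000000000000000000000000000004000000000 := rS 0x2e94e1d (k4 i721 a225 i887 i1944 k0) (by decide +kernel)
def a308 : PP 8 4 T 0x400000000000102002000000000000508010000010004001440040050100100000000004000000000 := rS 0x2056eb43ec34a64fa5cd5b6ed (k8 i3182 i3174 i3164 i3163 a74 i419 a292 a306 (k4 a21 a307 i1402 a278 k0)) (by decide +kernel)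
def a309 : PP 8 4 T 0x2002000000000000408000000000000001000000040020020000000000000000000 := rS 0x634aa68f5194f22cd6115d9e5e0cc89add0429a78ad0e6154ab5567f28d0d42913994cba271208c431172a746acf49ae62cc90603e0a6500068844759cce7b0f68a34da698dcd5deed09cee06e795ca67eeb80b6dbe5f (k8 a93 i3175 i3174 i3193 i3181 i3170 i3156 i3158 (k8 i3179 i3194 i3167 a98 i3182 i3183 i3164 i3148 (k8 a88 a95 a87 a92 i3195 i3168 i3162 a91 (k8 i210 a305 a304 i780 i963 a2 i2405 a276 (k8 i2275 i2012 i949 a19 i950 i1114 i1906 i172 (k8 i685 i2538 i2155 a107 i1955 i2259 i419 i836 (k8 a110 i819 a298 i607 i844 a97 i1199 i421 (k8 i1198 i929 i372 a13 i353 a308 i151 a68 (k8 a47 a127 i1972 i1948 i1727 i467 i451 i2042 (k4 a33 a23 i816 i1182 (k2 i1445 i2040 k0))))))))))) (by decide +kernel)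
def a310 : PP 8 4 T 0x2002000000000000408000000000000000000000040020020000000000000000000 := rS 0x8a08a7cd68467a762c3564830ca0f2e80035052390922d1469b4d2ef75cfe532b73c0e7613 (k8 a98 i3167 i3194 i3179 i3158 i3156 i3170 i3181 (k8 i3183 a88 a95 a87 a92 a110 a305 i210 (k8 a2 a304 i780 i2259 i2405 i963 a276 i2275 (k8 i1114 i2012 i1906 i950 a309 i1868 i1606 i1952 (k2 i2042 i451 k0))))) (by decide +kernel)
def a311 : PP 8 4 T 0x2002000000000000408000000000000000000000000020020000000000000000000 := rS 0x80c0b03d1c668291c8413 (k8 a98 a305 i210 a2 a310 i544 i2365 a180 (k2 a276 i708 (k1 i2339 k0))) (by decide +kernel)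
def a312 : PP 8 4 T 0x2002000000000000408000000000000000000000000020000000000000000000000 := rS 0x9a42 (k2 a305 a311 (k1 a291 k0)) (by decide +kernel)
def a313 : PP 8 4 T 0x2000000000000000008000000000000000000000000020010000000000000000000 := rS 0x22e7547324903525810061b008881c442199caa572091e1f0380cce77298fc9636dd9cc9db213 (k8 a98 i3191 i3155 i3166 i3192 i3148 i3154 i3150 (k8 i3156 i3167 i3162 i3193 i3194 i3195 i210 i867 (k8 i119 i118 i543 a291 a11 i603 i604 i2406 (k8 i2155 i2122 a0 i486 i355 a62 i1125 i868 (k2 i1011 i947 (k1 a229 k0)))))) (by decide +kernel)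
def a314 : PP 8 4 T 0x2002000000000000008000000000000000000000000020000200000000000000000 := rS 0x17b45532ec7a286628c0e111103a9e4c04abc17431fafd94ef76b8dfeb15984c2b25 (k8 i3154 a89 a98 a91 a94 i3172 i3177 i3182 (k8 i3183 a312 i1453 i376 a105 a70 i423 i1196 (k8 a313 a13 i603 i604 i2407 i2345 i322 i251 (k4 i250 i3135 i3121 i2028 (k2 i1747 i1985 (k1 a22 k0)))))) (by decide +kernel)
def a315 : PP 8 4 T 0x2002000000000000008000000000000000000000000020000000000000000008000 := rS 0x5ac34fa510200d067742975928f10044026788d3d8a4c3f94e86ca211148247a5cd5b6ed9dc0e531f92c6dbb3909b660327 (k8 i3155 i3193 i3191 a98 i3166 i3192 i3148 i3154 (k8 i3150 i3156 i3194 i3167 i3182 i3174 i3164 i3163 (k8 i210 i867 a314 a11 a312 a105 i419 i844 (k8 a313 i116 a13 i685 i2365 i2405 i602 i596 (k8 i875 a299 i443 i1503 i806 a300 a303 a0 (k4 i2333 i1327 a292 a301 (k1 a21 k0))))))) (by decide +kernel)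
def a316 : PP 8 4 T 0x2002000000000000008000000000000000000000000020000000000000000000000 := rS 0x4527c226b422e99abd89d1504cf864583e9d32944ba3500068326747b4c2e770e818480564b04182107a848445a1afd94af29a1e0b11a79048e91263451a6d34cd5deed71b6e8effa5b65d73f94cadcf039dcce1f1f6ec6e4f2580acc265f (k8 a93 a98 a91 i3193 i3154 i3155 i3148 i3192 (k8 i3150 i3195 i3162 i3167 i3194 i3179 i3158 i3156 (k8 i3170 i3181 i3191 i3163 i3172 i3151 i3174 i3177 (k8 i3182 i3183 i3164 a88 a95 a87 a92 a313 (k8 a110 i210 i867 a13 i685 a2 i929 i419 (k8 i423 a312 i1453 a105 a314 a11 i819 a315 (k8 i724 a276 i1246 i2275 i2339 i462 i465 i863 (k8 i806 i708 i1191 a180 i544 a294 a50 i780 (k8 i357 i2259 i2257 i963 i1906 i1301 i2012 a7 (k8 i950 a292 a48 a68 i1416 i895 a22 a47 (k4 i1946 i3115 i1606 i2042 (k1 i451 k0)))))))))))) (by decide +kernel)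
def a317 : PP 8 4 T 0x2000000000000000808000000000000001040000000120140000000000000002000 := rS 0x19b13412dd030c29abd7e8788d3dfb3577c05665f (k8 a93 a91 i3193 i3183 i3164 a316 a13 i685 (k8 i929 i1453 i2277 i622 a101 a4 a118 a108 (k2 a68 i895 (k1 a47 k0)))) (by decide +kernel)
def a318 : PP 8 4 T 0x400000000000002000000000000000408000000000000001800000000020040000000000000000000 := rS 0x2b556b429a1e0b11a7bf656eda4b9cbf01 (k8 i3193 a93 i3179 i3157 i3182 i3158 a316 a13 (k8 i685 a2 i929 i921 a197 i581 i1287 a55 k0)) (by decide +kernel)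
def a319 : PP 8 4 T 0x400000000000002000000000000000008000000000000000000000000020400080000000000014000 := rS 0x3a3f5aa9576b740ab1430c54aac56fd1382d26b9149e50e8365944ba7f42a7916cf8b2746a7732800d6912786832674791c48c91085c0a0c82930d32b76d25cf016eb663f0f9984ddf3b81ca67eeb36a35a25f (k8 a93 a92 a87 a95 i3181 i3170 i3156 i3194 (k8 i3167 i3183 a98 i3162 i3195 i3150 i3191 i3192 (k8 i3193 i3179 i3157 i3182 i3158 a88 a313 a2 (k8 a276 i2339 i708 i724 i2275 i462 i210 a180 (k8 i544 a294 a50 i2533 a110 i467 i780 i963 (k8 i806 i357 i1906 i2012 i950 i451 i2042 i1606 (k8 i2581 i2259 i2257 a317 a318 i929 i1076 i275 (k8 i949 a19 i2383 i1955 a316 i372 i581 i574 (k8 a101 i819 a55 a4 a118 i1559 i1286 i1287 (k2 i375 i862 (k1 a281 k0))))))))))) (by decide +kernel)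
def a320 : PP 8 4 T 0x12000000000000000000000020000000000000000000000000010000002010006000 := rS 0x285a61f043014adba3bfe96d9 (k8 i3191 i3163 i3172 i3151 i3174 i1286 i1493 i1494 (k4 i350 a44 i196 a7 k0)) (by decide +kernel)
def a321 : PP 8 4 T 0x400000000000002000000000000000008000000000000000000000000020000080000000000014000 := rS 0xf54eb74087d423f60ad00ebf552b43b0d2920c56417e89c4657058a4f28765a153c8b67c593a353b994d69128974004f0d064ce8f23b24421702930fe2406414db2b76d25cf016eb663f0f9984cd2ef9dc0e533f75a35a25f (k8 a93 a92 a87 i3181 i3170 i3156 i3194 i3167 (k8 i3183 a88 a98 i3162 i3195 i3150 i3191 i3192 (k8 i3193 i3179 i3157 i3182 i3158 a95 a2 a276 (k8 i462 i2581 a313 i2339 i708 i724 i2275 i210 (k8 a180 i544 a294 a50 i2533 i780 i2259 i2257 (k8 a110 i467 i963 i806 i357 i1906 i2012 i950 (k8 i451 i2042 i1606 a317 i929 i1076 i275 i2383 (k8 i119 i1569 i1955 a316 i867 i372 a318 a319 (k8 i677 i2536 a320 a55 i1721 i2269 i582 i1514 (k8 i376 i820 i1396 i1402 a307 a225 i1959 i2031 k0)))))))))) (by decide +kernel)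
def a322 : PP 8 4 T 0x2000000000000000008000000010000000000000000020800080000000000014000 := rS 0x2056e70543494e2b7e89c527965944ba4f3faad074f43c450a910ead532954f22d9f164e8d4ee65001ac7e1f528f57b428698ce61a0c99d1e47123244217028320a4c6dd1dff4b6cb763f0f9984e02ef34cee06e795ca67eeb36a35a25f (k8 a93 a92 a87 a95 i3181 i3170 i3156 i3158 (k8 i3179 i3194 i3167 a88 i3183 i3193 a98 i3162 (k8 i3195 i3150 i3192 i3191 i3163 i3172 i3151 i3174 (k8 a313 a2 a276 i2339 i708 i724 i2275 i462 (k8 i210 a180 i544 a294 a50 i2579 i536 i677 (k8 a321 i1215 i1958 a129 i350 i375 i467 i780 (k8 i963 i806 i357 i1906 i2012 i950 i451 i2042 (k8 a121 i1112 a84 i862 a110 i1606 i685 i929 (k8 a13 a197 a106 i2581 i2533 i2259 i2257 a317 (k8 i1076 i275 i1955 a316 i372 a288 a7 a282 (k4 i575 i802 i1363 i2031 k0))))))))))) (by decide +kernel)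
def a323 : PP 8 4 T 0x2000000000000000008000000000000000000000000020800080000000000014000 := rS 0x2a4c20604a815a6386904e6935cb2d0a9e45b3e2c9d1a9dcca6b48944ba002786832674791d92210b814987f55a543ab5a1090190580b75b31f87ccc266977cee06e795ca67eeb36a35a2ed (k8 i3182 a92 a87 a95 i3181 i3170 i3156 i3158 (k8 i3179 i3194 i3167 i3183 a88 a98 i3162 i3195 (k8 i3150 i3191 i3192 i3193 a2 a276 i462 a321 (k8 a84 i862 a121 a106 i2581 a313 i2339 i708 (k8 i724 i2275 i210 a180 i544 a294 a50 i2533 (k8 i780 i2259 i2257 a110 i467 i963 i806 i357 (k8 i1906 i2012 i950 i451 i2042 i1606 a317 i949 (k8 a19 i2579 i867 i677 i536 a320 a322 i196 (k4 i820 i961 i2268 i2040 k0))))))))) (by decide +kernel)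
def a324 : PP 8 4 T 0x2000000000000000008000000000000000000000000020000080000000000014000 := rS 0x16e8150c3152531f87506a555aed6b4214a14f29e459ae234f15a1d22fd1393cba5105a746a7767a4d731632800341912084ce8f0b8148ec906414990168a34da697684e770373cae533f75b75b31f87ccdde5f (k8 a93 i3183 i3162 i3195 i3150 i3191 i3192 i3181 (k8 i3170 i3156 i3158 i3179 i3194 i3167 a98 i3182 (k8 a88 a95 a87 a92 i3193 a313 a2 a276 (k8 i2275 i210 i2339 i708 a180 i544 i724 i462 (k8 a294 a50 i780 i963 i2012 i949 a19 i950 (k8 i806 i357 i1906 i2383 i2257 i2259 i2533 i1955 (k8 a316 a110 i929 i372 a13 i685 i467 i451 (k8 i2042 i1076 i1606 i275 a321 a84 a86 a106 (k8 a129 a197 i862 i375 a323 i574 a101 i819 (k2 a4 a118 (k1 a281 k0))))))))))) (by decide +kernel)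
def a325 : PP 8 4 T 0x2000000000000000408000000000000000000000000020440000000000000024002 := rS 0xa1ab5483e69a9cc745570f56ebd862a556fd28a4d73163299d1e170291d920c82a050712788a4ba4c15a1c4e2195bb692e7a3bfdaf012fc6c273b81ca67eeb (k8 i3181 i3170 i3156 i3194 i3167 a98 i3148 a93 (k8 i3193 i3173 i3172 i3151 i3179 i3157 i3182 i3158 (k8 i724 i1955 i929 i372 a313 i2259 i1835 i1727 (k8 a127 a68 a45 a2 a276 i2275 i210 i2339 (k8 i708 a180 i544 i963 i2012 i949 a19 i2257 (k8 a316 i581 i574 a101 a285 a118 i1958 a108 (k8 i1748 i2261 a284 a282 a64 i375 i1286 a129 (k1 a55 k0)))))))) (by decide +kernel)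
def a326 : PP 8 4 T 0x8012001000000000000500000015000010000000000054000000010000000050002002 := rS 0x4280c0d349ae5b7477fd2db2ed (k8 i3182 i3191 i3163 i3172 i3151 i3174 i949 a19 (k4 a282 i2040 a7 i961 (k1 i196 k0))) (by decide +kernel)
def a327 : PP 8 4 T 0x12101000000000000408000014000000000000000044000020090400046010022002 := rS 0xe632983d2d9427003aa03e3f52a547b4253af526b91bb3e2c6523b250283893c4525d91b763f3d95bb692e78dbbe770394cfdd613 (k8 a98 i3181 i3170 i3156 i3194 i3167 i3183 i3148 (k8 i3179 i3157 i3182 i3158 i3168 i3150 i3192 i3153 (k8 i2259 i1835 i1727 a127 a68 a45 i2275 i210 (k8 i963 i2012 i950 i1956 i949 a19 a285 a284 (k8 a55 i1958 a121 a129 i375 i350 a326 i2268 (k8 i575 i820 i2031 a283 i802 i1744 i1936 a30 k0)))))) (by decide +kernel)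
def a328 : PP 8 4 T 0x2000000000000000008000000000000000000000000020000080000000000004000 := rS 0xfd68bf552b43a63869499685149a8200b28974764f39800341933a3cfe171208c0ac91383043052b8ad0e4123931fa6d80cce1f1f6cb74265f (k8 a93 a98 i3192 i3191 i3150 i3195 i3162 i3193 (k8 a95 a316 a313 i210 i867 i929 i372 i119 (k8 a2 i724 a276 i1955 i2275 i2339 i1569 i462 (k8 i708 i2581 a180 i544 a294 a50 i780 i2579 (k8 i2533 i394 i2259 i2257 i2383 a324 i1952 i1835 (k8 i1868 a317 a325 i677 i536 i2536 a320 a327 (k4 i1721 i582 i376 a280 k0))))))) (by decide +kernel)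
def a329 : PP 8 4 T 0x2000000000000080000000000000000000000000000000000000000200000000000 := rS 0x11f (k2 i3150 i1193 k0) (by decide +kernel)
def a330 : PP 8 4 T 0x2000000000000002000000000000000000000000000002000000000000000000000 := rS 0x5b (k2 a90 i769 k0) (by decide +kernel)
def a331 : PP 8 4 T 0x2000000000000000000000000000000000000000000000000020000008000000000 := rS 0x5b (k2 a90 i745 k0) (by decide +kernel)
def a332 : PP 8 4 T 0x8002000000000000000000000000000000000000800000000000000000000000000000 := rS 0x13d (k2 i3168 i1476 k0) (by decide +kernel)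
def a333 : PP 8 4 T 0x2000002000000000000000000000000000000000000000000000800000000000000 := rS 0xdd (k2 i3192 i176 k0) (by decide +kernel)
def a334 : PP 8 4 T 0x2000000000000000000000000000000000800000000000800000000000000000000 := rS 0x5f (k2 a93 i921 k0) (by decide +kernel)
def a335 : PP 8 4 T 0x2000000000000080000000000000000000000000000000000002000000000000000 := rS 0x123 (k2 i3153 i1195 k0) (by decide +kernel)
def a336 : PP 8 4 T 0x2000000000000000000000041000540040000000005000000000000000000000000 := rS 0x68a3562b3 (k4 a91 a94 a87 a92 (k1 i2041 k0)) (by decide +kernel)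
def a337 : PP 8 4 T 0x2002000000000000000000000000000000020000000000000000000000000000000000 := rS 0x139 (k2 i3166 i1206 k0) (by decide +kernel)
def a338 : PP 8 4 T 0x800000000000002000000000000000000200000000000000000000000000000000000000000000000 := rS 0xef (k2 i3183 i1215 k0) (by decide +kernel)
def a339 : PP 8 4 T 0x2000000000000000000000000000000000000000000000000000800000000000002 := rS 0xd1 (k2 a92 i1153 k0) (by decide +kernel)
def a340 : PP 8 4 T 0x22000000000000000000000000000000000020000000000000000000000000000000 := rS 0x135 (k2 i3164 i1204 k0) (by decide +kernel)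
def a341 : PP 8 4 T 0x2000000000000080000000000000000000000000000000000000000000020000000 := rS 0x11d (k2 i3149 i1192 k0) (by decide +kernel)
def a342 : PP 8 4 T 0x2000000000000000080000000000000000000000000000000000000000000002000 := rS 0x6d (k2 a95 i1687 k0) (by decide +kernel)
def a343 : PP 8 4 T 0x2200000000000000200000000000000000000000000000000000000000000000000 := rS 0x103 (k2 i3194 i428 k0) (by decide +kernel)
def a344 : PP 8 4 T 0x2000000000000080000000000020000000000000000000000000000000000000000 := rS 0xdb (k2 i3174 i160 k0) (by decide +kernel)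
def a345 : PP 8 4 T 0x20002000000000000000000000000000000000000000000000000000800000000000000 := rS 0x10b (k2 i3184 i952 k0) (by decide +kernel)
def a346 : PP 8 4 T 0x2000000000000000000200020000000000000000000000000000000000000000000 := rS 0xb1 (k2 a94 i1291 k0) (by decide +kernel)
def a347 : PP 8 4 T 0x20002000000000000000000000000002000000000000000000000000000000000000000 := rS 0x13f (k2 i3170 i1746 k0) (by decide +kernel)
def a348 : PP 8 4 T 0x8002000000000000000000000000000000000000000000000000000020000000000000 := rS 0x107 (k2 i3178 i944 k0) (by decide +kernel)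
def a349 : PP 8 4 T 0x2000000000000000000000000000000000000000000000000000000000000000015 := rS 0x9cb7637258fca6073b (k8 i3167 i3194 i3156 i3150 i3154 i3148 i3192 i3166 (k1 a0 k0)) (by decide +kernel)
def a350 : PP 8 4 T 0x8002000000000000000000000000000000000000000080000000000000000000000000 := rS 0x13b (k2 i3167 i1475 k0) (by decide +kernel)
def a351 : PP 8 4 T 0x800000000000002000000000000000000020000000000000000000000000000000000000000000000 := rS 0xeb (k2 i3181 i1214 k0) (by decide +kernel)
def a352 : PP 8 4 T 0x4002100000000000000100000000000000000000000050000000000000000000000000 := rS 0x4ee06e795ca67eeb (k8 i3181 i3170 i3156 i3158 i3179 i3194 i3167 i2012 k0) (by decide +kernel)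
def a353 : PP 8 4 T 0x2000000000000000000000000000000000002000000000002000000000000000000 := rS 0x8d (k2 a87 i1012 k0) (by decide +kernel)
def a354 : PP 8 4 T 0x2000000000000000008000000000000000000000000000000800000000000000000 := rS 0x13 (k2 a98 i210 k0) (by decide +kernel)
def a355 : PP 8 4 T 0x2000002000000000000000000000000000000000000000000000800000000000000 := rS 0xf7 (k2 i3187 i177 k0) (by decide +kernel)
def a356 : PP 8 4 T 0x2000000000000000080000000000000000000000000000000000000000000008000 := rS 0x15 (k2 a89 i408 k0) (by decide +kernel)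
def a357 : PP 8 4 T 0x22000000000000000000000000000000000000008000000000000000000000000000 := rS 0x133 (k2 i3162 i1203 k0) (by decide +kernel)
def a358 : PP 8 4 T 0x2000000000000000000000000000000008000000000020000000000000000000000 := rS 0x5f (k2 a93 i929 k0) (by decide +kernel)
def a359 : PP 8 4 T 0x2000000000000080000000000000000000000000000000000000000800000000000 := rS 0xdf (k2 i3175 i162 k0) (by decide +kernel)
def a360 : PP 8 4 T 0x8002000000000000000000000000000000000000000000000000000008000000000000 := rS 0x139 (k2 i3166 i1474 k0) (by decide +kernel)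
def a361 : PP 8 4 T 0x202000000000000000000000000000000002000000000000000000000000000000000 := rS 0x137 (k2 i3165 i1473 k0) (by decide +kernel)
def a362 : PP 8 4 T 0x102100000000000000000000000000000000000000000015000000000000000000000 := rS 0x12780cae6ae7 (k4 i3179 i3164 i3158 i3193 (k2 i3155 a1 k0)) (by decide +kernel)
def a363 : PP 8 4 T 0x2002000000000000000000000000000000000000000000000000000000800000000000 := rS 0xff (k2 i3172 i936 k0) (by decide +kernel)
def a364 : PP 8 4 T 0x2000000002000000000000000000000000000000000000000000020000000000000 := rS 0xdd (k2 i3192 i169 k0) (by decide +kernel)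
def a365 : PP 8 4 T 0x2000002000000000000000000000000000000000000000000002000000000000000 := rS 0x147 (k2 i3151 i1730 k0) (by decide +kernel)
def a366 : PP 8 4 T 0x2000000000000000020000000000000000000000000000000800000000000000000 := rS 0x69 (k2 a88 i1535 k0) (by decide +kernel)
def a367 : PP 8 4 T 0x2000000000000000000800008000000000000000000000000000000000000000000 := rS 0x6d (k2 a95 i1721 k0) (by decide +kernel)
def a368 : PP 8 4 T 0x8002000000000000008000000000000000000000000000000000000000000000000000 := rS 0xef (k2 i3183 i950 k0) (by decide +kernel)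
def a369 : PP 8 4 T 0x2002000000000000000000000000000000000000000000000000000000000000200 := rS 0x125 (k2 i3154 i1196 k0) (by decide +kernel)
def a370 : PP 8 4 T 0x22000000000000000000000000000000000000080000000000000000000000000000 := rS 0xdf (k2 i3175 i680 k0) (by decide +kernel)
def a371 : PP 8 4 T 0x2000000000000000000000000000000000000000000000000200000080000000000 := rS 0x15 (k2 a89 i385 k0) (by decide +kernel)
def a372 : PP 8 4 T 0x2002000000000000000000000000000000000000000000000000000000800000000000 := rS 0xdd (k2 i3192 i935 k0) (by decide +kernel)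
def a373 : PP 8 4 T 0x202000000000000000000000000000000000000000000020000000000000000000000 := rS 0x101 (k2 i3193 i685 k0) (by decide +kernel)
def a374 : PP 8 4 T 0x2000000000000000000000000000000000800000000000200000000000000000000 := rS 0xb3 (k2 a91 i1437 k0) (by decide +kernel)
def a375 : PP 8 4 T 0x22000000000000000000000000000000000000000000000800000000000000000000 := rS 0x101 (k2 i3193 i677 k0) (by decide +kernel)
def a376 : PP 8 4 T 0x2000002000000000000000000000000000000000000000000000080000000000000 := rS 0x11f (k2 i3150 i1729 k0) (by decide +kernel)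
def a377 : PP 8 4 T 0x12000000000000040000000000010000000000000000000000000000000050000000 := rS 0xd9a5bfe8edb (k4 i3174 i3151 i3172 i3163 (k2 i3191 a7 k0)) (by decide +kernel)
def a378 : PP 8 4 T 0x802000000000000000000000000000000000000000000000000000000080000000000 := rS 0xd9 (k2 i3191 i691 k0) (by decide +kernel)
def a379 : PP 8 4 T 0x400000000000000002000001001000000054000000000000000000000000000000000000000000000000 := rS 0x7dc8646ef (k4 i3183 i3153 i3152 i3189 (k1 a10 k0)) (by decide +kernel)
def a380 : PP 8 4 T 0x202000000000000002000000000000000000000000000000000000000000000000000 := rS 0xef (k2 i3183 i690 k0) (by decide +kernel)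
def a381 : PP 8 4 T 0x2000000000000002000000000000000000000080000000000000000000000000000000000000000000 := rS 0xd7 (k2 i3173 i1748 k0) (by decide +kernel)
def a382 : PP 8 4 T 0x2000000002000000000000000200000000000000000000000000000000000000000 := rS 0xed (k2 i3182 i171 k0) (by decide +kernel)
def a383 : PP 8 4 T 0x22000000000000000000000000000000000000000000000800000000000000000000 := rS 0xd7 (k2 i3173 i678 k0) (by decide +kernel)
def a384 : PP 8 4 T 0x2000000000000000000000040400000000000000000000000005000000000010540 := rS 0xa84d66b1 (k4 a94 a91 a98 a89 (k1 i2028 k0)) (by decide +kernel)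
def a385 : PP 8 4 T 0x2200000000000000800000000000000000000000000000000000000000000000000 := rS 0xed (k2 i3182 i430 k0) (by decide +kernel)
def a386 : PP 8 4 T 0x2000000000000000000000000000000000000000000000000150000000000000000 := rS 0x11b6cc064b27 (k4 i3155 i3154 i3193 i3191 (k2 i3148 a11 k0)) (by decide +kernel)
def a387 : PP 8 4 T 0x2000000000000000000000000000000008000000000008000000000000000000000 := rS 0x6d (k2 a95 i1705 k0) (by decide +kernel)
def a388 : PP 8 4 T 0x2000000000000004100000000005000040000000450000000000000000000000000 := rS 0x349b51ad1 (k4 a92 a87 a95 a88 (k1 i2042 k0)) (by decide +kernel)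
def a389 : PP 8 4 T 0x1012000000000000000000000000000000000000054000000000000000000000000000 := rS 0x2673d6dd2e1edf (k4 i3175 i3195 i3163 i3174 (k2 i3168 i3162 (k1 a12 k0))) (by decide +kernel)
def a390 : PP 8 4 T 0x20002000000000000000000000000000000000008000000000000000000000000000000 := rS 0x13d (k2 i3168 i1744 k0) (by decide +kernel)
def a391 : PP 8 4 T 0x2000000000000000400540054000000000000000400000000000000000000000000 := rS 0x599b56269 (k4 a88 a94 a95 a91 (k1 i2043 k0)) (by decide +kernel)
def a392 : PP 8 4 T 0x2000000002000000000000000000000000000000000000000000000000000002000 := rS 0x11b (k2 i3148 i1459 k0) (by decide +kernel)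
def a393 : PP 8 4 T 0x400000000000002000000001000040001000000140000000000000000000000000000000000000000 := rS 0x7fd1ddb21 (k4 i3152 i3182 i3151 i3172 (k1 a15 k0)) (by decide +kernel)
def a394 : PP 8 4 T 0x800000000000000002000000000000000000000000000000000000000800000000000000000000000000 := rS 0xe7 (k2 i3179 i1753 k0) (by decide +kernel)
def a395 : PP 8 4 T 0x800000000000002000000000000000000000000080000000000000000000000000000000000000000 := rS 0xff (k2 i3172 i1479 k0) (by decide +kernel)
def a396 : PP 8 4 T 0x2000000000000000800800000000000000000000000000000000000000000000000 := rS 0xb3 (k2 a91 i1453 k0) (by decide +kernel)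
def a397 : PP 8 4 T 0x2002000000000000000000000000000000000000002000000000000000000000000 := rS 0x129 (k2 i3156 i1198 k0) (by decide +kernel)
def a398 : PP 8 4 T 0x802000000000000000000000000000000000002000000000000000000000000000000 := rS 0x133 (k2 i3162 i1739 k0) (by decide +kernel)
def a399 : PP 8 4 T 0x8002000000000000000000000000002000000000000000000000000000000000000000 := rS 0x141 (k2 i3171 i1478 k0) (by decide +kernel)
def a400 : PP 8 4 T 0x2002000000000000000000000002000000000000000000000000000000000000000000 := rS 0x103 (k2 i3194 i937 k0) (by decide +kernel)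
def a401 : PP 8 4 T 0x2000000000000000000000000000000000000000000000000000200000000000008 := rS 0x13 (k2 a98 i194 k0) (by decide +kernel)
def a402 : PP 8 4 T 0x2000000000000080000000000000000000000000000000000000000000000000080 := rS 0x11b (k2 i3148 i1191 k0) (by decide +kernel)
def a403 : PP 8 4 T 0x400000000000112000000000000000000001000000000000050000000000000000000000000000000 := rS 0x76b6e6b4b (k4 i3163 i3164 i3174 i3182 (k1 a21 k0)) (by decide +kernel)
def a404 : PP 8 4 T 0x401400000000000002000000000000000000540000000000000000000000000000000000000000000000 := rS 0x38ddaef (k4 i3183 i3182 i3177 a22 k0) (by decide +kernel)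
def a405 : PP 8 4 T 0x8002000000000000000200000000000000000000000000000000000000000000000000 := rS 0xe7 (k2 i3179 i946 k0) (by decide +kernel)
def a406 : PP 8 4 T 0x10402000000000000000000000000000001000005000000000000000000000000000000 := rS 0x43e7b33 (k4 i3162 i3168 i3195 a23 k0) (by decide +kernel)
def a407 : PP 8 4 T 0x2000000000000000000000000002000000000000020000000000000000000000000 := rS 0x69 (k2 a88 i1551 k0) (by decide +kernel)
def a408 : PP 8 4 T 0x2000000002000000002000000000000000000000000000000000000000000000000 := rS 0x147 (k2 i3151 i1462 k0) (by decide +kernel)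
def a409 : PP 8 4 T 0x2000000002000000000000000000000000000000000000000000000002000000000 := rS 0xd9 (k2 i3191 i167 k0) (by decide +kernel)
def a410 : PP 8 4 T 0x2000000000000002000000000000000000000000800000000000000000000000000000000000000000 := rS 0xff (k2 i3172 i1747 k0) (by decide +kernel)
def a411 : PP 8 4 T 0x20002000000000000000000000000000000000000000000000000000800000000000000 := rS 0xdd (k2 i3192 i951 k0) (by decide +kernel)
def a412 : PP 8 4 T 0x2000000000000000000000000000800000000000008000000000000000000000000 := rS 0xb3 (k2 a91 i1445 k0) (by decide +kernel)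
def a413 : PP 8 4 T 0x22000000000000000000000000020000000000000000000000000000000000000000 := rS 0xd9 (k2 i3191 i675 k0) (by decide +kernel)
def a414 : PP 8 4 T 0x2000000000000000000000000008000000000000080000000000000000000000000 := rS 0x6d (k2 a95 i1713 k0) (by decide +kernel)
def a415 : PP 8 4 T 0x2200000000000000000000000000000000000000000020000000000000000000000 := rS 0x101 (k2 i3193 i426 k0) (by decide +kernel)
def a416 : PP 8 4 T 0x2000000000000000000000000000000000000000000000000080000080000000000 := rS 0x5f (k2 a93 i896 k0) (by decide +kernel)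
def a417 : PP 8 4 T 0x2002000000000000000000000000000000000000080000000000000000000000000000 := rS 0x10f (k2 i3195 i939 k0) (by decide +kernel)
def a418 : PP 8 4 T 0x2000000000000000000000000000000000008000000000002000000000000000000 := rS 0x5b (k2 a90 i753 k0) (by decide +kernel)
def a419 : PP 8 4 T 0x10002000001000000000000000000000000000000000000000000000540000000000000 := rS 0x47dbb23 (k4 i3153 i3192 i3150 a30 k0) (by decide +kernel)
def a420 : PP 8 4 T 0x2002000000000000000000020000000000000000000000000000000000000000000 := rS 0x12b (k2 i3158 i1199 k0) (by decide +kernel)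
def a421 : PP 8 4 T 0x2002000000000000000000000000000000000000000000800000000000000000000 := rS 0xdb (k2 i3174 i419 k0) (by decide +kernel)
def a422 : PP 8 4 T 0x1000000000011002000000000000000000000000000540000000000000000000000000000000000000 := rS 0x1bee3 (k2 i3177 i3175 (k1 a37 k0)) (by decide +kernel)
def a423 : PP 8 4 T 0x202000000000000000000000000000000000000000000000000000000002000000000 := rS 0xd9 (k2 i3191 i683 k0) (by decide +kernel)
def a424 : PP 8 4 T 0x2000000002000000000000000000000000000000000000000000000000000008000 := rS 0xe7 (k2 i3179 i166 k0) (by decide +kernel)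
def a425 : PP 8 4 T 0x2100000001000000000000000000000000000000000000000400000000000005000 := rS 0x92c6e56e7 (k4 i3179 i3158 i3148 i3154 (k1 a39 k0)) (by decide +kernel)
def a426 : PP 8 4 T 0x202000000000000000000000000000000000000000000020000000000000000000000 := rS 0xe7 (k2 i3179 i686 k0) (by decide +kernel)
def a427 : PP 8 4 T 0x2002000000000000000000080000000000000000000000000000000000000000000 := rS 0xe3 (k2 i3177 i423 k0) (by decide +kernel)
def a428 : PP 8 4 T 0x2000000000000000200000000008000000000000000000000000000000000000000 := rS 0xd1 (k2 a92 i1185 k0) (by decide +kernel)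
def a429 : PP 8 4 T 0x4002000000001000000000000000000000000000000000000000000015000000000000 := rS 0x47dbb3f (k4 i3170 i3192 i3150 a43 k0) (by decide +kernel)
def a430 : PP 8 4 T 0x2000000000000080000000000000000000000000000000000000000800000000000 := rS 0xdd (k2 i3192 i161 k0) (by decide +kernel)
def a431 : PP 8 4 T 0x2002000000000000000000002000000000000000000000000000000000000000000 := rS 0x103 (k2 i3194 i420 k0) (by decide +kernel)
def a432 : PP 8 4 T 0x8002000000000000000000000000000000800000000000000000000000000000000000 := rS 0x10f (k2 i3195 i947 k0) (by decide +kernel)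
def a433 : PP 8 4 T 0x2000000000000002000000000000000000000000000200000000000000000000000000000000000000 := rS 0xdf (k2 i3175 i1750 k0) (by decide +kernel)
def a434 : PP 8 4 T 0x2000000000000000000000000800000000000000000000000000000000000000200 := rS 0x13 (k2 a98 i202 k0) (by decide +kernel)
def a435 : PP 8 4 T 0x2000000000000000000000000000000000000000000000000000800000000000020 := rS 0x15 (k2 a89 i392 k0) (by decide +kernel)
def a436 : PP 8 4 T 0x400000000000000502000000000000001000000000000000005000000000000000000000000000000000 := rS 0x1df35 (k2 i3164 i3183 (k1 a47 k0)) (by decide +kernel)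
def a437 : PP 8 4 T 0x2000000000000000000000000000000000000000000000000000000000005400000 := rS 0xdd6cc7e1f33 (k4 i3162 i3195 i3150 i3191 (k2 i3192 a50 k0)) (by decide +kernel)
def a438 : PP 8 4 T 0x1002001000000000000000000001000000000000000005000000000000000000000000 := rS 0x40e92df (k4 i3175 i3157 i3194 a53 k0) (by decide +kernel)
def a439 : PP 8 4 T 0x400000000000002101000000000000400000014000000000000000000000000000000000000000000 := rS 0x73d25db2b (k4 i3158 i3182 i3157 i3179 (k1 a55 k0)) (by decide +kernel)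
def a440 : PP 8 4 T 0x2000000000000000000000000000000000000000000000015000000000000000000 := rS 0x99c3e0303 (k4 i3194 i3193 i3195 i3162 (k1 a62 k0)) (by decide +kernel)
def a441 : PP 8 4 T 0x2000002000000000000000000000000000000000000000000000000000000020000 := rS 0x11b (k2 i3148 i1727 k0) (by decide +kernel)
def a442 : PP 8 4 T 0x1000000000000002000001000000040000000000400000000000000000000000005000000000000000 := rS 0x1ff47 (k2 i3151 i3172 (k1 a64 k0)) (by decide +kernel)
def a443 : PP 8 4 T 0x2000000000000000000000000000000000000000000000000020000020000000000 := rS 0x13 (k2 a98 i186 k0) (by decide +kernel)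
def a444 : PP 8 4 T 0x202000000000000000000002000000000000000000000000000000000000000000000 := rS 0xed (k2 i3182 i689 k0) (by decide +kernel)
def a445 : PP 8 4 T 0x2200000000000000000000020000000000000000000000000000000000000000000 := rS 0x149 (k2 i3157 i1467 k0) (by decide +kernel)
def a446 : PP 8 4 T 0x2000000000000000000000000000000000000000000000000000080000000000008 := rS 0x8d (k2 a87 i1004 k0) (by decide +kernel)
def a447 : PP 8 4 T 0x400000000005002000000000000000000010000000014000000000000000000000000000000000000 := rS 0x3b5bf3f (k4 i3170 i3175 i3182 a66 k0) (by decide +kernel)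
def a448 : PP 8 4 T 0x2000000000000000000000000000200000000000002000000000000000000000000 := rS 0x8d (k2 a87 i1020 k0) (by decide +kernel)
def a449 : PP 8 4 T 0x2000000000000000000000000000080000000000002000000000000000000000000 := rS 0xb1 (k2 a94 i1283 k0) (by decide +kernel)
def a450 : PP 8 4 T 0x2002000000000000000000002000000000000000000000000000000000000000000 := rS 0xdf (k2 i3175 i421 k0) (by decide +kernel)
def a451 : PP 8 4 T 0x2200000000000000000000000000000000000000000000000800000000000000000 := rS 0x125 (k2 i3154 i1464 k0) (by decide +kernel)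
def a452 : PP 8 4 T 0x2002000000000000000000000000000000000000000000800000000000000000000 := rS 0x101 (k2 i3193 i418 k0) (by decide +kernel)
def a453 : PP 8 4 T 0x202000000000000000000000000000000000000200000000000000000000000000000 := rS 0x133 (k2 i3162 i1471 k0) (by decide +kernel)
def a454 : PP 8 4 T 0x2000000000000008000000000000000000000000020000000000000000000000000 := rS 0x8d (k2 a87 i1028 k0) (by decide +kernel)
def a455 : PP 8 4 T 0x2000000000000000000000000000000002000000000002000000000000000000000 := rS 0x69 (k2 a88 i1543 k0) (by decide +kernel)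
def a456 : PP 8 4 T 0x22000000000000000000000000000000000000080000000000000000000000000000 := rS 0x10f (k2 i3195 i679 k0) (by decide +kernel)
def a457 : PP 8 4 T 0x2000000000000000000000002000800000000000000000000000000000000000000 := rS 0xd1 (k2 a92 i1177 k0) (by decide +kernel)
def a458 : PP 8 4 T 0x2000000000000000000000000000000000000000000000000008000000000000080 := rS 0xb3 (k2 a91 i1419 k0) (by decide +kernel)
def a459 : PP 8 4 T 0x2000000002000000000000000000000000000000000000000000002000000000000 := rS 0x11f (k2 i3150 i1461 k0) (by decide +kernel)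
def a460 : PP 8 4 T 0x2000000000000001000000000000000005000000400115000000000000000000000 := rS 0x2f9b4d25b (k4 a90 a88 a95 a93 (k1 i2039 k0)) (by decide +kernel)
def a461 : PP 8 4 T 0x2000000000000000000000000000000000000000000000000008000000000000800 := rS 0x15 (k2 a89 i400 k0) (by decide +kernel)
def a462 : PP 8 4 T 0x1000000000000412000000000000000000004000000000000500000000000000000000000000000000 := rS 0xdb (k2 i3174 a78 k0) (by decide +kernel)
def a463 : PP 8 4 T 0x400000000000014002000000000000004000000000005000000000000000000000000000000000000000 := rS 0xef (k2 i3183 a79 k0) (by decide +kernel)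
def a464 : PP 8 4 T 0x2200000000000000000000000000000000000000800000000000000000000000000 := rS 0xef (k2 i3183 i431 k0) (by decide +kernel)
def a465 : PP 8 4 T 0x8002000000000000000000020000000000000000000000000000000000000000000000 := rS 0xed (k2 i3182 i949 k0) (by decide +kernel)
def a466 : PP 8 4 T 0x4102000000000000000000000000000000400000500000000000000000000000000000 := rS 0x133 (k2 i3162 a100 k0) (by decide +kernel)
def a467 : PP 8 4 T 0x12001000000000000000000000000000000000000000000540000000000000000000 := rS 0x101 (k2 i3193 a101 k0) (by decide +kernel)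
def a468 : PP 8 4 T 0x2000000002000000008000000000000000000000000000000000000000000000000 := rS 0xef (k2 i3183 i172 k0) (by decide +kernel)
def a469 : PP 8 4 T 0x2000000000000080000010000000014400040540000000800000000000200800000 := rS 0xfa6f608b56a71 (k4 i2466 i2482 a329 a44 (k2 i968 i1501 (k1 i2044 k0))) (by decide +kernel)
def a470 : PP 8 4 T 0x2101000000000000400010010000004400040440000000800080000000001808040 := rS 0x1bcfa1c0534d2b4204aacea2322ad44071 (k8 i2466 i596 i2482 i41 i244 i971 i2389 i343 (k8 a439 a121 a469 a130 i558 i1234 i1232 i2044 k0)) (by decide +kernel)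
def a471 : PP 8 4 T 0x2000000000000000000011000000014400040550000000000000000000421000000 := rS 0xde7d (k2 i1234 i1232 (k1 i2044 k0)) (by decide +kernel)
def a472 : PP 8 4 T 0x2101000000000000400010000000004400040440000000800080000000004008020 := rS 0x37c55100805875a695560655275119161ab5101c42c07 (k8 i2336 i518 i2466 i596 i2482 a375 i41 i244 (k8 i971 i2387 i228 a470 i1558 a469 a471 i558 (k4 a130 i262 a337 i1318 (k1 a389 k0)))) (by decide +kernel)
def a473 : PP 8 4 T 0x2000000000000000408000000000000000000000000020800080000000000000000 := rS 0x198274fc64f6984525d5c3f52a554f42692b4120b311843a721eaf4fe878292522fd08aac36851031476a94e8d526b93c8dd9f163a88c8a160381006776491d1e67888041c4c (k8 a313 a328 i2405 a373 i2365 i875 a354 a299 (k8 i806 a303 a349 i2336 i518 i41 i244 i971 (k8 a466 a368 i1956 i972 a465 a19 i355 i1906 (k8 i2387 a435 i116 i596 i1503 i780 i2389 i602 (k8 a316 a110 i30 a2 a358 i845 a285 i1958 (k8 a472 i2475 i1016 i837 i558 i263 i1352 a130 (k8 a439 a67 a121 a129 i375 a384 i1900 i539 (k4 i540 i841 a52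 i1112 (k2 a135 i2046 (k1 i729 k0)))))))))) (by decide +kernel)
def a474 : PP 8 4 T 0x2000000000000000008000000000000000000000000020800080000000000000000 := rS 0x15cbb538f5a43f6082416bf6501dfa116281006776491d1e67888041c4c (k8 a313 a328 i2405 a373 i2365 i875 a354 a299 (k8 i806 a303 a349 i116 i602 a316 i2336 a473 (k8 a396 i2412 i1388 i1245 i376 a130 i1959 a67 (k2 i1944 a384 (k1 i626 k0))))) (by decide +kernel)
def a475 : PP 8 4 T 0x2001000000000000808000080000000000000000000000000000000000000000440 := rS 0xa6692e81247 (k4 a354 i1388 i626 a130 (k2 i1944 a67 k0)) (by decide +kernel)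
def a476 : PP 8 4 T 0x2101000000000000400000005000020000000000000000000000000000000000000 := rS 0x15b43 (k2 a121 i1558 (k1 a439 k0)) (by decide +kernel)
def a477 : PP 8 4 T 0x2101000000000000400010014000014400050544000000000000000000000808440 := rS 0xe01d5ab4a8409 (k4 i343 a439 a130 a84 (k2 a341 i2044 (k1 i709 k0))) (by decide +kernel)
def a478 : PP 8 4 T 0x2000000000000000008000000000000000000000000020000080000000000000000 := rS 0xc3153818d6aac4ab2c0eae5ba04de7d861cc167f29ae527163a93d52510b01006833ba14bac947aac462008804ce0e22c162247a7b1498fd (k8 a316 a313 i116 a13 a354 a373 a2 i41 (k8 a328 i2365 i2405 i602 i596 i244 i2389 i875 (k8 a299 i443 i1503 i806 a300 a303 a349 i518 (k8 i2333 i2387 i2463 i971 a466 a19 a465 a474 (k8 i844 i557 i836 a467 a340 a357 a4 a118 (k8 a108 i459 a475 a476 a477 i1287 i1352 i2044 (k2 a117 i1279 (k1 a438 k0)))))))) (by decide +kernel)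
def a479 : PP 8 4 T 0x2001000000000000001010021040014000000000000000000000015500000000100 := rS 0x618aa214a63 (k4 i1352 i1285 i2033 a337 (k2 i1277 a438 k0)) (by decide +kernel)
def a480 : PP 8 4 T 0x2000000000000000408000000000000000000000000020000000000000000000400 := rS 0x2203ea5865089ead608b5a42f2981c12935cc586217110cc30350219dca51518392aa9262ac88432091dfb05 (k8 a2 a316 a354 i867 a478 a386 i2391 a313 (k8 i2388 a476 i603 i323 i607 a468 i2366 i525 (k8 i355 i526 i2112 i604 i707 i1572 a429 a465 (k8 a19 i2123 i2345 i564 i315 a130 a329 a44 (k8 a479 i871 a439 a467 a129 a81 i2033 i230 k0))))) (by decide +kernel)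
def a481 : PP 8 4 T 0x2000000000000000000000000000001000501000000100140200000820000000020 := rS 0xf7194c2295cb7299883f13 (k8 a54 i2117 i316 i565 i1929 a108 i539 i540 (k2 a52 i3113 (k1 a406 k0))) (by decide +kernel)
def a482 : PP 8 4 T 0x2001000000000000000000000000000000000000000000140040000200002000000 := rS 0x29c34386e (k4 i1039 i1040 a357 i715 (k1 a467 k0)) (by decide +kernel)
def a483 : PP 8 4 T 0x2000000000000000408000010000000000000000000020000000000000000000000 := rS 0x5386870f8c0168bd06b5a113d0f11a7a44508512974ae935c9e59f161885c66181a810cee528a8c1c9540af5fb05660894aab448295244219048e4c (k8 a313 a354 i867 a478 a386 i2388 a480 i277 (k8 i2391 i362 i604 i251 a2 a316 a285 i1974 (k8 a476 i603 i323 i607 a468 i2366 i525 i355 (k8 i526 i2112 i707 i1572 a429 a368 i1972 a465 (k8 a19 i119 i1971 i347 i1867 i250 a110 a13 (k8 a373 a358 i871 a439 a84 a197 a481 a482 (k4 i2033 i1573 i1574 a340 (k2 i715 a467 k0)))))))) (by decide +kernel)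
def a484 : PP 8 4 T 0x2001000000000000002000000000000000000000000004100040000000800000000 := rS 0x5327c34387c (k4 i1573 i1574 a340 i1274 (k2 i715 a467 k0)) (by decide +kernel)
def a485 : PP 8 4 T 0x2000000000000000408000000000000000000000000020000000000000000000000 := rS 0x9cb516509822f31ab14ad30525546518295dfaa9558241c935cc586217110cc303502130ce44219048ee5 (k8 a468 a354 i867 a478 a386 i2366 a313 i525 (k8 i355 i526 i2112 i604 i707 i1572 a429 a465 (k8 a19 i603 i2123 i2391 i2388 a316 i119 a2 (k8 i607 i323 a476 a480 a82 i362 a483 i1352 (k4 i316 a484 a393 a479 (k2 a84 a482 (k1 i870 k0))))))) (by decide +kernel)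
def a486 : PP 8 4 T 0x2001000000000002800000040000000000000000000100540000000000000000000 := rS 0x16e81861f506bf (k4 a396 i895 i1327 a467 (k2 i1975 a118 (k1 a108 k0))) (by decide +kernel)
def a487 : PP 8 4 T 0x2000000000000000008000000000000000000000000020000000000000000000000 := rS 0x2d51a945e894a988f86e281fd5ec12794d94b949aecbb1619a846a28660c436070c010ce251105c88437e92c98417291caa57 (k8 i119 i118 a354 a468 i867 a313 i73 a316 (k8 a478 a386 i707 i604 i347 i2366 i525 i526 (k8 i2345 i269 i1572 i251 i250 i355 i2186 i2112 (k8 a429 i1971 i3121 a19 a465 a485 i2414 i1390 (k8 i1245 i626 i844 a486 i528 i608 i527 i1058 (k4 i1318 i1054 i1326 i1594 (k2 i1237 i2033 k0))))))) (by decide +kernel)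
def a488 : PP 8 4 T 0x2000002001000000801000040140000000000000000000000000000000000010140 := rS 0x14cd205d0c7a3f (k4 a6 a365 a105 i620 (k2 a393 a384 (k1 a67 k0))) (by decide +kernel)
def a489 : PP 8 4 T 0x2000000000000000000000000000000000000000000020002200010000000000000 := rS 0xeb1747324aa57 (k4 i119 i118 i1125 i868 (k2 a123 i1011 (k1 a229 k0))) (by decide +kernel)
def a490 : PP 8 4 T 0x2000000000000000800000000000000000000000000020200200000000800000000 := rS 0x49b04623317a8c5ab944a5592070c02cc46e261246a4b0200c366700838fe5310a956a57 (k8 i119 i1398 i249 i11 i95 i844 i603 i2406 (k8 i2366 i2153 i2122 a349 i486 i355 a489 a440 (k8 i528 i527 i2348 i526 i2345 i2411 i1058 i1318 (k8 i1406 i1237 i322 i315 i2110 i1042 i1245 i1367 (k1 i2033 k0))))) (by decide +kernel)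
def a491 : PP 8 4 T 0x2000000000000000000000000000000000000000000000220080000000000000000 := rS 0x16c545e89311b802055094da606 (k8 i439 a402 i95 i819 i2333 i2257 i528 i527 (k4 i1341 i1054 a51 i1238 (k1 a120 k0))) (by decide +kernel)
def a492 : PP 8 4 T 0x2000000000000000000000000000000000000010008000010010000500000000080 := rS 0x484412e2ad3 (k4 a402 a51 i488 a120 (k2 a440 i1341 (k1 i959 k0))) (by decide +kernel)
def a493 : PP 8 4 T 0x2000000000000000001000000140014010020400000000000000011500002000000 := rS 0x2e4668f (k4 i1130 i233 i1330 i2033 k0) (by decide +kernel)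
def a494 : PP 8 4 T 0x2001000000000000801000001140000000020410041000010090000500000000080 := rS 0xb9199bc04160ca5513144998c6a317234e861b (k8 i779 a105 a402 a393 a459 a364 a492 i1366 (k8 a438 i1340 a14 a493 a437 a252 i968 i193 (k2 i1329 i2033 k0))) (by decide +kernel)
def a495 : PP 8 4 T 0x2000000000000000000000001000000000000000000000010080000800010000000 := rS 0x259240217 (k4 i1080 i1077 i699 i437 (k1 a440 k0)) (by decide +kernel)
def a496 : PP 8 4 T 0x2001000000000000800000000000000000000000000020200000000000800000000 := rS 0x1864582f339dc9a6138a8d82060f2a43a4222a94827c5a95cfe53 (k8 i95 i844 i119 i1398 i608 i185 i249 a490 (k8 a386 i1230 i2248 i440 i439 i1574 i241 i2872 (k8 i2841 a491 i805 i543 a495 a494 i1040 i1000 (k1 a252 k0)))) (by decide +kernel)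
def a497 : PP 8 4 T 0x2000000000000000000000000000000000000000000000210080000200001000080 := rS 0x184041e (k4 i440 a252 i2841 i1000 k0) (by decide +kernel)
def a498 : PP 8 4 T 0x2000000000000000800000000040000000000000000020000140000000000000080 := rS 0x1cac1528901e0d2015686d3 (k8 a402 a105 i118 a386 i461 i339 i866 i1380 (k2 i1246 a409 (k1 a393 k0))) (by decide +kernel)
def a499 : PP 8 4 T 0x2000000000000000000000000000000000000000000000210080000200010000080 := rS 0x19 (k2 i1040 a497 k0) (by decide +kernel)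
def a500 : PP 8 4 T 0x2001000000000000800000000000000000000000000020210000000000000000080 := rS 0x964906091482d309c45ec110879520f2090a22b52b9143aa3119f0ee67 (k8 i543 i805 i608 a496 i1593 i1234 i604 i119 (k8 i1398 a373 a498 i21 a290 i2248 i440 i724 (k8 i1246 a495 i2872 i2841 a499 a494 a164 i1380 (k2 i2594 i2274 (k1 a440 k0))))) (by decide +kernel)
def a501 : PP 8 4 T 0x2001000000000000800000000000000000000000000020210000000000000000000 := rS 0x631719b20e84a1a92434050cb948c240785c8043039548a23 (k8 a496 i604 i118 a500 i439 a386 a234 i339 (k8 i866 i867 a409 i2078 i2142 a437 i748 i2079 (k4 a440 i606 i605 i1585 (k2 a405 i983 (k1 a429 k0))))) (by decide +kernel)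
def a502 : PP 8 4 T 0x2001000000000000800000000000000000000000000020200000000000000000000 := rS 0x126315c8cc6a89528bc5ac13b9184802478683ed20383480094a90cc46e2602d4645119f0fe53 (k8 i95 i844 i608 a496 i604 i1593 i493 a501 (k8 i528 i527 a491 i1058 i2858 a386 i461 a498 (k8 a130 i182 i787 i2597 i788 i866 i867 i2561 (k8 i1245 i1237 a359 i1325 i1317 i2079 i287 i1330 (k2 i1003 i1322 (k1 i2033 k0)))))) (by decide +kernel)
def a503 : PP 8 4 T 0x2000000000000000001001000000010000020018000020020020000100000001100 := rS 0x24d4aa318a257233178d4ee46120091e1a (k8 i787 i2597 i788 i866 i867 i2561 i2079 i318 (k8 i287 i1330 i190 i1003 i325 i208 i1322 i2033 k0)) (by decide +kernel)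
def a504 : PP 8 4 T 0x2000000000000000800000000000000000000000000020200200000000000000000 := rS 0x22 (k2 i604 a490 k0) (by decide +kernel)
def a505 : PP 8 4 T 0x2000000000000000800000000000000000000000000020220000000000000000000 := rS 0x2d608081e4006a54e2433712caa7c5a95cfe5304985f845 (k8 a504 a502 a397 a369 i95 i844 i119 i1398 (k8 i608 i118 i73 i528 a491 i1359 i1058 i461 (k4 a386 i339 i788 i1246 (k2 i1000 a503 k0)))) (by decide +kernel)
def a506 : PP 8 4 T 0x2000000000000000000000000000000000000000000020010020000000000000000 := rS 0xc62e33641d09435248680a197288c8c171203caa57 (k8 i119 i118 i339 i866 i2595 i867 i185 a409 (k8 i2078 i2142 a437 i748 i2079 a440 i606 i605 (k4 i1585 a405 i983 a429 k0))) (by decide +kernel)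
def a507 : PP 8 4 T 0x2000000000000000001000000040004010020400000020008080000500000000080 := rS 0x14a351883400c80c25628d3 (k8 a402 a120 a14 i438 i605 i437 i2274 i2717 (k2 i1115 i1380 (k1 a493 k0))) (by decide +kernel)
def a508 : PP 8 4 T 0x2000000000000000800000000000000000000000000020200000000000000000000 := rS 0xd4663152ae42c6447094de4825a5628894998da67151b045e2d028183c0f21104ee1d2691552617e1fcf853 (k8 i95 i608 i844 a502 a397 a450 a504 a505 (k8 i1230 i805 a506 a386 a290 i440 i439 i2333 (k8 a499 a495 i1246 i241 i2872 a402 a492 i1366 (k8 i1340 a120 a14 a507 a440 i1008 i2594 i868 (k8 i869 i699 i1329 i1326 i985 i1546 i2700 i2033 k0))))) (by decide +kernel)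
def a509 : PP 8 4 T 0x22002000000000000810000001001140800004000005120000000155000010800000 := rS 0x4f8ed20cd13c4d04af43b0d7e51 (k8 a508 a396 a487 a358 a427 a292 a68 i735 (k4 i895 a273 i1156 i1188 (k1 a217 k0))) (by decide +kernel)
def a510 : PP 8 4 T 0x2001000000000004814004041001140800100000005100540000155000010800000 := rS 0x74274fa0a32cd (k4 a486 a260 a108 i1188 (k2 i735 a262 (k1 i1156 k0))) (by decide +kernel)
def a511 : PP 8 4 T 0x2000000000000004814000080001010000000000000000000000155400000000080 := rS 0x13e3b63ae94cbf (k4 a396 i460 i626 i337 (k2 i334 i1685 (k1 i2035 k0))) (by decide +kernel)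
def a512 : PP 8 4 T 0x2000000000000004810000041091140800044000005120000000155000010800000 := rS 0xfd5ba0618c327954a253 (k8 i622 a508 i118 i1390 a487 a263 a4 a118 (k2 a509 a510 k0)) (by decide +kernel)
def a513 : PP 8 4 T 0x10002001000000000004814000040001000800100000000100540004155000000800000 := rS 0x9c74824fadd9b0c (k8 a467 a486 a118 i1188 a108 a262 i736 i1156 k0) (by decide +kernel)
def a514 : PP 8 4 T 0x2000000000000000010400041001140800804000005120000004155000000800000 := rS 0x4f8ed20cd13c4d0ec3 (k8 a487 a358 a68 i736 i895 a273 i1156 i1188 (k1 a217 k0)) (by decide +kernel)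
def a515 : PP 8 4 T 0x2000000000000000811000001010014810044000020120000000145100001800080 := rS 0x168b686a0df8810e4655ea24c98d2e2f8a2e4c23f43c4586bfa193caa7d2894d3acf52b906b17 (k8 a432 i2700 a429 a382 a454 a407 i622 a508 (k8 i1327 i118 i1390 a105 a396 a487 a373 a358 (k8 a458 i1223 i1026 a447 a363 a24 a51 a57 (k8 i2033 a511 a260 a512 a213 a513 a514 a292 (k2 a108 a403 (k1 a267 k0)))))) (by decide +kernel)
def a516 : PP 8 4 T 0x400000000000102000000000000000000008000000000000050000000000540000005000000800000 := rS 0x16b0d (k2 a118 a267 (k1 a403 k0)) (by decide +kernel)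
def a517 : PP 8 4 T 0x2000000000000000811000001010014810044000025120000000145100001800400 := rS 0xa73193e3e66a09021c8cabdf8d3512652e2f8a2e50ebf4eb3c12a5720d62eb7299f4a24f2ad0e2207 (k8 a515 a373 a105 i118 i1390 a508 i1327 i622 (k8 a516 a432 i2700 a429 a382 i1387 a454 a407 (k8 a396 a358 i1026 a447 a363 a24 a57 i2033 (k8 a99 a130 a427 a260 a512 a213 a108 i895 (k4 a514 i1188 i406 a463 (k1 a59 k0)))))) (by decide +kernel)
def a518 : PP 8 4 T 0x2001000000000004810004040001000800000000000120400000155040010800000 := rS 0x18e3b4f89e26cd4121d86818613caa51 (k8 a508 i118 i1390 a467 a4 a487 a358 a108 (k4 a486 a68 i735 i1188 (k2 i1156 a275 (k1 i2035 k0)))) (by decide +kernel)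
def a519 : PP 8 4 T 0x2000000000000004810004000001000800000000002120400080155000000800040 := rS 0x2303aa7b1d3e6a5d2f55ca30eb4970fd61aac560b04a95c917 (k8 a432 a429 a382 i1387 i2412 a416 i123 a487 (k8 a397 i1391 a130 a341 a99 a518 i1987 i626 (k4 i625 i1190 i1679 a394 (k2 i2035 a463 (k1 a411 k0))))) (by decide +kernel)
def a520 : PP 8 4 T 0x2000000000000000811000001010014810044000020120000080145100001800000 := rS 0x228625c9840e0b8ba759e355b94cfa51279568711 (k8 a373 a105 i118 i1390 a508 i1327 i622 a516 (k8 i2700 a454 a407 a432 i2412 a515 a519 i1026 (k2 a517 a447 (k1 a51 k0)))) (by decide +kernel)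
def a521 : PP 8 4 T 0x2000000000000000000000000000020800000000000000000000000000000800000 := rS 0xe4b4 (k2 i1103 i1102 (k1 a259 k0)) (by decide +kernel)
def a522 : PP 8 4 T 0x2000000000000000800000000000000000000000000020012080000000000000000 := rS 0x18e3b13c4e308240a7c38cd7eabcc03f030bc58955ba2412a5721758a371c8d466cf4e8c62e0d4994c321601284c88e54895927f3da1e0b112bb0e864f2a9f4a22b22815820f (k8 a290 i1246 i517 i41 a416 a508 i1327 i118 (k8 i1390 a105 a487 i119 a373 a2 a358 a418 (k8 i2584 i1125 i2594 i1087 i868 i869 i2573 i700 (k8 i699 i1007 i622 i1367 i462 a432 i985 a407 (k8 a454 i1546 i2700 a401 a446 a277 a212 a429 (k8 a382 i1387 i190 a516 a521 a520 i91 i1001 (k8 i1424 i1000 a511 a397 a486 a518 i1188 a213 (k4 a108 a513 a68 i736 (k2 a345 a275 (k1 i2035 k0)))))))))) (by decide +kernel)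
def a523 : PP 8 4 T 0x2000000000000000014000001004001040000200005000540000555200006000000 := rS 0x208f4b74e09d02cfa2bc1351957bf21a6e4ca5ce21c (k8 i1040 i1240 i1244 i980 i1039 a357 a467 a427 (k8 a260 a336 a419 a111 i2745 i1337 a76 a262 (k4 i721 i1592 a196 i815 k0))) (by decide +kernel)
def a524 : PP 8 4 T 0x400000000004002000000000000000000000000000014000808200000000000000000000000000000 := rS 0x1155c9c0de79 (k4 i60 i1440 i815 i1065 (k2 a117 a447 k0)) (by decide +kernel)
def a525 : PP 8 4 T 0x4002000000000000000810000000004014040008600000120400000555000000000000 := rS 0xb44b1ba1a8041abd6e6b422719f1988b0e864f2a9f4a27f (k8 i844 a508 i1327 i118 i1390 a105 a487 a373 (k8 a390 i1981 a262 i1591 i1907 i1935 i625 a524 (k4 a108 a4 i1894 i1893 (k2 a403 i2895 k0)))) (by decide +kernel)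
def a526 : PP 8 4 T 0x2000000000000000014000041005001040210240005000000000555000000000000 := rS 0x232cf4b335329b (k4 i1337 i1864 i1975 a336 (k2 i1068 a71 (k1 a262 k0))) (by decide +kernel)
def a527 : PP 8 4 T 0x2000000000000000010400000005000000800200000020000000555040000000000 := rS 0x85a7b199ecd89a1e22c3 (k8 a487 a373 a358 a68 i895 i1068 i2035 a59 (k2 i1602 a436 k0)) (by decide +kernel)
def a528 : PP 8 4 T 0x2000000000000000014004041005001040410240005100540000555000000000000 := rS 0x81 (k2 a526 a108 k0) (by decide +kernel)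
def a529 : PP 8 4 T 0x4002000000000000000811000081001010000000000045020000000155500002000410 := rS 0x34c0ea244b3d73145d3f58651498254ae4 (k8 a429 a382 i1387 i1366 a508 a487 a427 i626 (k8 a438 a181 i1951 a337 i2033 a511 a99 a130 k0)) (by decide +kernel)
def a530 : PP 8 4 T 0x2000000000000000080488000010000000040000000000000000000000000000000 := rS 0xea894f0d (k4 a118 i337 i1679 i722 (k1 a263 k0)) (by decide +kernel)
def a531 : PP 8 4 T 0x2000000000000000800000001000000000000000000120010080140000000000000 := rS 0x2e130ce63ae9690d5b2bd069d3d8b45e9588b0d7f433e8ac16670d81582913a22ce6513093caa93318c466183bc5d3ec81d8d4007f5094d8a0d251241f05 (k8 a2 a290 a522 a440 i2274 a277 i2415 i819 (k8 i844 i437 i1115 a339 i605 a428 a405 i805 (k8 i438 i233 i2717 i2245 i1366 i118 i1390 i1048 (k8 a508 i1094 i2247 i606 a102 i1246 i517 i779 (k8 i543 i2412 a416 i1327 a105 a396 a487 a373 (k8 i1100 i1077 a523 a525 i1592 a527 a529 a528 (k8 a118 a403 i887 a530 i2035 i1950 i1951 i2742 k0))))))) (by decide +kernel)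
def a532 : PP 8 4 T 0x2000000000000000010400000004021000800200000020000000555040000000000 := rS 0x13897 (k2 i1376 a527 (k1 i1678 k0)) (by decide +kernel)
def a533 : PP 8 4 T 0x2000000000000000800000000000000000000000000120010080140000000000000 := rS 0xd303a894ec667a7574bd4bab906b740c3128fd5430d7eab27954a22b05a44e88b29a7c76c507c1412a5720ccee310c0d4000d8bb209449 (k8 a522 a440 i605 a405 i2274 i437 i1115 i438 (k8 i2717 i805 i233 a429 a382 i1387 a2 a290 (k8 a277 a339 a428 i2415 i2247 i606 a102 i2412 (k8 a416 a508 i118 i1390 i123 a396 a487 a531 (k8 a431 i624 a467 a4 a118 a532 a108 i1899 (k8 i1987 i626 i1678 i1105 i2035 i337 i1679 i460 (k2 a99 a130 k0))))))) (by decide +kernel)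
def a534 : PP 8 4 T 0x14002000000000000004000000000004000040000000800000000000000000000000000 := rS 0x13b4f (k2 a394 i1907 (k1 a463 k0)) (by decide +kernel)
def a535 : PP 8 4 T 0x400000000000102000000000000000000000000000000001250000000000000000000000000000000 := rS 0x16b0d (k2 a4 i1402 (k1 a403 k0)) (by decide +kernel)
def a536 : PP 8 4 T 0x400000000004002000000000000000000000000004004000808200000000000000000000000000000 := rS 0x1289a (k2 i816 a524 (k1 i1181 k0)) (by decide +kernel)
def a537 : PP 8 4 T 0x400000000000102000000000000001000008000000000000050000000000000000000000000000000 := rS 0x16b0d (k2 a118 i886 (k1 a403 k0)) (by decide +kernel)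
def a538 : PP 8 4 T 0x4002000000000000000800000000004004040000200000120400000204000002000000 := rS 0x168963743500b741abcd6cd678a0f51988b0e864f2a9f4a27f (k8 i844 a508 i1327 i118 i1390 a105 a487 a373 (k8 a42 i235 i234 i1977 i1968 a534 i625 a536 (k4 a537 a108 a4 i1894 (k2 i1893 a403 (k1 i2895 k0))))) (by decide +kernel)
def a539 : PP 8 4 T 0x402000000000000000001400000100404001800200000020000000095048000400000 := rS 0x9551c518eb916a25a74e179bc7c1c668f50f11 (k8 a373 a358 i1256 i895 i735 i736 i1439 i1083 (k8 a436 a341 i1343 i1423 i1065 a59 a120 i406 (k2 a14 i2033 k0))) (by decide +kernel)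
def a540 : PP 8 4 T 0x400000000000102000000000000000000008000000000000052200000000000000000000000000000 := rS 0xb95a260dd0d (k4 a118 i1933 i1932 a403 (k2 i2742 i1399 k0)) (by decide +kernel)
def a541 : PP 8 4 T 0x2000000000000000800000000000000000000000000120010080000000000000000 := rS 0x29ecd352e95cb741a0626853c26c4c361ca1e22bfa193caa7d288ad82744585c8a9331a7cfe536283e0aa5720ccee310c0d4000d8bb209449 (k8 a522 a440 i605 a405 i2274 i437 i1115 i438 (k8 i2717 i805 i233 a429 a382 a2 a290 a277 (k8 i2415 i844 a428 i2245 i1366 i41 i967 i2247 (k8 i606 i1246 a416 a508 i1327 i118 i1390 a105 (k8 a396 a373 a358 a538 a533 i1044 i2721 i1043 (k8 i1771 a398 a535 a539 a540 a108 i626 i625 (k2 i1948 a394 (k1 a436 k0)))))))) (by decide +kernel)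
def a542 : PP 8 4 T 0x2000000000000000800000000000000000000000000020010080000000000000000 := rS 0xcf4e8e46ec7421ec4f132e3146a3b4f8cc620d003211e8b3a0609449079dd0f052bb0c5645 (k8 i41 a416 a487 i119 a2 a358 i805 a290 (k8 a522 a440 i438 i606 i2247 i1133 i605 i437 (k8 i2274 i2717 i233 a428 a339 i1115 a277 a541 (k8 a5 i1766 i1891 i610 a275 i1044 i235 i1592 (k2 i1871 i2035 k0))))) (by decide +kernel)
def a543 : PP 8 4 T 0x2000000000000000000000000000000000000000000200020080000000000000000 := rS 0x788ec72378c86c20053c228022b (k8 a416 i2259 i531 i532 i2335 i443 i780 a52 (k4 i1774 i1852 i1070 a441 (k1 a419 k0))) (by decide +kernel)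
def a544 : PP 8 4 T 0x2100000000000000100000000002000000000000040000000000000000000000000 := rS 0xcb17 (k2 a399 a407 (k1 a352 k0)) (by decide +kernel)
def a545 : PP 8 4 T 0x10002000000000000000000000000001001002001000000000000000000000000000000 := rS 0xf713 (k2 a77 i1895 (k1 a406 k0)) (by decide +kernel)
def a546 : PP 8 4 T 0x2000000000000000800000001000000000000240000000800000000000000000000 := rS 0x11530a5172633f2d5faab (k8 i123 a452 i883 i622 i536 i1066 i1667 i1391 (k2 a14 a438 k0)) (by decide +kernel)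
def a547 : PP 8 4 T 0x2100000000000000100000000000000000000000040000000000020000000004000 := rS 0xcb17 (k2 a348 i1023 (k1 a352 k0)) (by decide +kernel)
def a548 : PP 8 4 T 0x400000000000000002000000000000000000400000000000001800000000020000000000000000000000 := rS 0x66c4d0f11 (k4 a373 a358 a68 i895 (k1 a436 k0)) (by decide +kernel)
def a549 : PP 8 4 T 0x2000000000000002800000080000000000000000000000540000000000000000000 := rS 0x5b43174fd (k4 a427 i626 a467 i1948 (k1 a118 k0)) (by decide +kernel)
def a550 : PP 8 4 T 0x400000000000102000000000000000000408000008000000050040000000000000000000000000000 := rS 0x8a250deba5cad0e2bd86d169e99 (k8 i1113 a26 a116 a118 i1989 i802 a403 i1190 (k4 a404 i1399 i1685 a389 (k1 a14 k0))) (by decide +kernel)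
def a551 : PP 8 4 T 0x2000000000000000800000081008000000000000000000000000000000000000000 := rS 0x454c2634a2e532bf7eaf556ba (k8 i626 i123 i1987 a427 a396 i1113 i1190 i1685 (k4 i540 i1391 a14 a438 k0)) (by decide +kernel)
def a552 : PP 8 4 T 0x400000000000010002000000000000004004000000005000000000000000000000000545000000000000 := rS 0x8b0d18af0 (k4 a419 a49 a262 a463 (k1 a131 k0)) (by decide +kernel)
def a553 : PP 8 4 T 0x2000000000000000000000000000000000000000000020020000024001000004000 := rS 0x8e338888ce582c441a21 (k8 i724 i462 a373 a2 a364 a425 a107 i1617 (k2 i247 i875 k0)) (by decide +kernel)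
def a554 : PP 8 4 T 0x2000000000000000000000000000000000090000000000800000000000800000500 := rS 0xd25101d42fd (k4 a452 i312 i454 i1663 (k2 a130 a99 k0)) (by decide +kernel)
def a555 : PP 8 4 T 0x2000000000000000000000001080000000000000001000800000000000412000000 := rS 0x1141718d40730fb4e1afd (k8 a452 a375 a99 i240 i1092 a377 i536 i310 (k2 a438 a372 k0)) (by decide +kernel)
def a556 : PP 8 4 T 0x2001002000000000000000040000000000000000000000000000000000000000540 := rS 0xd2530f47e11 (k4 a441 a6 a365 a384 (k2 a130 a67 k0)) (by decide +kernel)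
def a557 : PP 8 4 T 0x102000000000000000800000000000000000000000000000140000000001100000200 := rS 0x10c0f14c44b472a91faab (k8 i123 a369 i1387 a382 a164 a107 i883 i248 (k2 a467 a81 k0)) (by decide +kernel)
def a558 : PP 8 4 T 0x2000000001000000000000000000000000000000000020000400010000002000008 := rS 0x683c4b05 (k4 a2 i348 i340 i462 (k1 a425 k0)) (by decide +kernel)
def a559 : PP 8 4 T 0x2000000000000000100000000000000000000000000020000080000002002000000 := rS 0xcc74060860a57 (k4 i119 a2 i110 i859 (k2 i349 a294 (k1 i1587 k0))) (by decide +kernel)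
def a560 : PP 8 4 T 0x2000000000000000000000000000000000000400000020020080024001000000000 := rS 0x408e071d62f11 (k4 a373 a348 i1062 a553 (k2 a466 i596 (k1 i2481 k0))) (by decide +kernel)
def a561 : PP 8 4 T 0x22002000000000000000000000041000000000000000001000000000000000000000000 := rS 0x264c697 (k4 a71 a51 a57 a260 k0) (by decide +kernel)
def a562 : PP 8 4 T 0x2000000000000000000000000090000000040000000000800000000000000000400 := rS 0x3b0d (k2 a375 i716 (k1 a263 k0)) (by decide +kernel)
def a563 : PP 8 4 T 0x400000000000102000000000000000000400040008001000450040000100540000000000000000000 := rS 0x2056e85 (k4 i1606 a550 a535 a108 k0) (by decide +kernel)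
def a564 : PP 8 4 T 0x2000000000000000000000040400000000400000000100540000000010020000000 := rS 0x16e81 (k2 i1236 i722 (k1 a108 k0)) (by decide +kernel)
def a565 : PP 8 4 T 0x2000000000000000000000000000041000200000000000000000800040000000000 := rS 0xf713 (k2 a45 i1893 (k1 a203 k0)) (by decide +kernel)
def a566 : PP 8 4 T 0x2000000000000000000000000000000800000000000000020000010000000400008 := rS 0x688219 (k4 i1130 i2597 a437 i188 k0) (by decide +kernel)
def a567 : PP 8 4 T 0x2002002000000000000000000400000000000000000000000001000000000000040 := rS 0x111f8255e0b (k4 a70 a427 a369 a6 (k2 a441 a384 k0)) (by decide +kernel)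
def a568 : PP 8 4 T 0x2102000000000080000002000000000000000000000010100400000001000001000 := rS 0x391480f65958120b56aac0ec151c44aa4f (k8 a74 i767 a444 a99 a44 a402 a97 a420 (k8 a70 a369 a362 i505 i502 i2027 a425 a382 k0)) (by decide +kernel)
def a569 : PP 8 4 T 0x502000000000000009000000000000000004001000000000000000000000000000000 := rS 0x10b4f (k2 a3 i1870 (k1 a436 k0)) (by decide +kernel)
def a570 : PP 8 4 T 0x2200000000000000000000000000000000000000000000000010000002000000000 := rS 0x2290cb20f (k4 a17 a2 i858 i346 (k1 a386 k0)) (by decide +kernel)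
def a571 : PP 8 4 T 0x2202000000000002000002000000000000000000000100000000000008010000000 := rS 0xc65d3956d0d5fb0d06213f94cb25165bc542af0593e9e813eb144a41 (k8 a331 a570 i1792 i126 i1975 a36 a74 a70 (k8 a427 i880 a76 a385 i1397 a2 i882 i102 (k8 i727 i735 i1955 i1455 a292 a108 a230 i887 (k2 a379 a530 k0)))) (by decide +kernel)
def a572 : PP 8 4 T 0x2202000000000000080002000000000000400000000100000000000010020000000 := rS 0x532fca65928b2d5e4f (k8 a74 a427 a385 i1397 a2 i882 i1455 a564 (k1 i337 k0)) (by decide +kernel)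
def a573 : PP 8 4 T 0x2202000001000002000002000000000000000000000100000000000008100000000 := rS 0x1763e5ba0944c652b0e862978b069ec512905a61c (k8 a571 a341 a331 a570 i1792 a36 i1248 a76 (k8 i13 a84 i1955 i1382 a379 a393 a572 i151 (k2 i736 i1948 (k1 i407 k0)))) (by decide +kernel)
def a574 : PP 8 4 T 0x2002000000000002000002000000000000000000000100100000000000200000000 := rS 0x10485 (k2 i128 a301 (k1 i2485 k0)) (by decide +kernel)
def a575 : PP 8 4 T 0x2200000000000002001000004100000000800000000000000000000008000001500 := rS 0x1460753af87cb76583d5a47 (k8 a451 a445 a17 a385 i151 i736 i895 i1914 (k2 a458 i1720 (k1 i2027 k0))) (by decide +kernel)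
def a576 : PP 8 4 T 0x2202000000000002000002000000000000000000000000000000000008000000000 := rS 0x8b1d4c8306b914ac310871564f05abc120f2394cb251658a5825d35b144a41 (k8 a331 a570 i1792 a464 i1970 i1248 i13 a385 (k8 i1397 a2 i882 a451 a17 a369 a427 a70 (k8 a74 a97 a571 a574 i1955 i1382 a573 a392 (k4 a575 a564 a572 i1912 (k1 a132 k0))))) (by decide +kernel)
def a577 : PP 8 4 T 0x2001000000000000000008000000000000000000000000500000000000000000000 := rS 0x9f0d (k2 a118 a125 (k1 a467 k0)) (by decide +kernel)
def a578 : PP 8 4 T 0x400000000000000002200000000000000000046000000000000500000000100040000000000000000000 := rS 0x17b45572fe866b29964a2cb (k8 a385 i1397 a2 i882 a464 a84 i1455 a108 (k2 a381 i1986 (k1 a404 k0))) (by decide +kernel)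
def a579 : PP 8 4 T 0x2200000000000002000002000000000000000000000000040000000008000000000 := rS 0x2c0e09698f83882a7974d6813eaed6efd28b2ca659 (k8 a2 i882 a385 i1397 a576 a577 i1948 i126 (k8 i1975 a464 i1970 a36 a578 i735 i736 a341 (k4 i1261 a458 a461 a130 k0))) (by decide +kernel)
def a580 : PP 8 4 T 0x2000000000000000000000000000000000000000000000484000000100020400200 := rS 0x115179c1524c44925a642 (k8 i1262 a341 i699 i1343 a440 i574 i789 i199 (k2 a117 a120 k0)) (by decide +kernel)
def a581 : PP 8 4 T 0x2200000000000000000802000140000000800040000000080000040008000000208 := rS 0x232914d33970958a2252671240bcf6161992c8e532ca1e26421a8c5c943698718225209e45a3e (k8 i736 i1424 i1767 a331 a570 i1248 i735 a341 (k8 a84 a393 a459 a364 i1262 a68 i2490 a2 (k8 i882 a451 i1046 i192 a580 i2472 i1079 i998 (k8 i2451 i1368 i1342 a120 a14 i2033 i1458 i1457 (k2 i1150 a41 (k1 a406 k0)))))) (by decide +kernel)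
def a582 : PP 8 4 T 0x2002000000000000000001800000140000000000404000000080080091400000000000 := rS 0x5c26c5a330c134e2934480d2a9f (k8 i996 i1725 a446 a337 a115 a117 i789 a252 (k4 i233 i1039 i2721 i2033 (k1 i1457 k0))) (by decide +kernel)
def a583 : PP 8 4 T 0x2000000000000000000000000000000020000000000000080080000000060000004 := rS 0x1343216 (k4 i1343 i230 i2463 a252 k0) (by decide +kernel)
def a584 : PP 8 4 T 0x2000000000000000001800000140000000000404000000080001091000060000200 := rS 0x26864002c02a262a2f01b4c3642 (k8 i1262 i2533 a341 a446 i1083 a582 a583 i262 (k4 a120 a349 i1039 i446 (k1 a252 k0))) (by decide +kernel)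
def a585 : PP 8 4 T 0x2200000000000002000002000000000000800000000000000000000008000000000 := rS 0x136b88c184ce3b49aa52a008a0e40a89318bc062d1b8c41a352139010ab519bc16d352af87c1c0f9cc7a7710d0d9265568ac52f16089576b77e94596532c81c9c41 (k8 a331 a579 i1222 a2 i882 a385 i1397 a576 (k8 a577 i1948 a570 i1248 a76 i13 i14 a445 (k8 a63 a343 a84 i2485 i2564 i1256 i2608 i1436 (k8 i735 i736 i895 i1382 a341 a461 i2907 i407 (k8 a367 a130 a393 i1262 a364 a392 a459 a584 (k8 i1424 a581 i198 i1349 a583 i262 i296 a120 (k8 a349 a14 a85 a115 a339 i449 i960 a419 (k2 i2040 a41 (k1 i1457 k0))))))))) (by decide +kernel)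
def a586 : PP 8 4 T 0x2000000000000000000000000400000000000000000000080004040008020000204 := rS 0x12e2d8c1847218268ec0005448bc521f0d909329ba20f5e2d3 (k8 a341 a76 a122 a442 a111 a433 i1262 i2533 (k8 i10 i13 i198 a583 i262 a349 a339 i446 (k4 a252 i234 i2711 a419 (k2 i1263 a71 (k1 i2034 k0))))) (by decide +kernel)
def a587 : PP 8 4 T 0x2200000000000002000002000000000000000000000000000000040008020000200 := rS 0x2e46aa54f08520974ac511293389ec902f0b1bc5a311992c72023c9958225409f40e415191ce6422726537441e8fd06f153addfa516594cb2d3 (k8 a341 a2 i882 a385 i1397 a576 a577 i1914 (k8 a76 a585 i1421 a122 a442 a111 a433 a579 (k8 i1262 i2454 a451 i200 a331 i1222 i126 i1975 (k8 a570 i1248 a63 i1767 a586 a401 i1046 i192 (k8 i1002 i1001 i1272 a580 i1079 i998 i714 i2451 (k8 i1368 i1342 a120 a14 a24 i2045 i2484 i893 (k4 i1382 i1117 i1189 i2033 k0))))))) (by decide +kernel)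
def a588 : PP 8 4 T 0x2200000000000002000002000000000000000000000000000000000008020000200 := rS 0x451502d308609a0045815126317a5c06364da655e1ba21087af153addfa516594cb24e6987c7e83 (k8 a585 i1421 i10 a341 a579 a2 i882 a385 (k8 i1397 a576 a577 i1914 a76 a122 i1262 a442 (k8 i2533 a381 a433 a111 a587 a446 i1777 i1083 (k8 i1349 a583 i262 i1774 a349 i446 a252 i2711 (k4 i1263 a336 a120 a85 k0))))) (by decide +kernel)
def a589 : PP 8 4 T 0x2000000000000040000004000000400010504044000000080200080508000000020 := rS 0x780c9c5324d8a25d222b (k8 i14 i993 i1778 a120 a185 a57 a117 i229 (k2 i2045 i1768 k0)) (by decide +kernel)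
def a590 : PP 8 4 T 0x2000000000000000000004000000000000500000000000080200080508020000800 := rS 0x1249aa8441cda69b1f9bcf64b02004061b (k8 i782 a446 i560 a349 i486 i1776 i1231 i1421 (k8 i995 a341 i718 a589 i277 i2388 i1086 a440 k0)) (by decide +kernel)
def a591 : PP 8 4 T 0x2000000000000000000004000000000000500000000000080200080108020000800 := rS 0xb864e04d31185122e020043603 (k8 a446 i782 i560 a349 a590 i92 i1014 i316 (k4 i790 i1350 i229 i710 (k1 a437 k0))) (by decide +kernel)
def a592 : PP 8 4 T 0x2000000000000000000004000000140000500040002000010000080008020000020 := rS 0xf41b379e4e219488ad363f (k8 i1421 i995 i14 i993 i229 i1280 i1768 i1232 (k2 i781 i2045 (k1 i1776 k0))) (by decide +kernel)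
def a593 : PP 8 4 T 0x20000000000000400000000000000000000000000000000a0200000200000000000 := rS 0x3712c5e89 (k4 i68 i91 i73 a185 (k1 i1272 k0)) (by decide +kernel)
def a594 : PP 8 4 T 0x2000000000000000000004040000140050500040004000010000080008020000020 := rS 0x30aa5363f (k4 i1421 i995 i573 a592 (k1 a336 k0)) (by decide +kernel)
def a595 : PP 8 4 T 0x2000000000000000000004040010000000500000000000080040080008020010800 := rS 0x1bcf219389ec001b02934c6994b9cd122c45a6d22031c8ad4e07698fc8841 (k8 a331 a386 i1421 a341 i1222 i1914 i14 i18 (k8 a446 i993 i995 i1773 a591 i68 i977 i1244 (k8 i981 i1237 a593 a594 i268 a349 i1776 i1240 (k4 i1038 i1768 i1232 i2045 k0)))) (by decide +kernel)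
def a596 : PP 8 4 T 0x102200001000000000080000000000000000000400000000000200040000000000002 := rS 0x232394f0ce2c7547a742c4a458ed9231 (k8 i1692 a343 a339 i2292 i477 i478 i1641 i1132 (k4 i970 a466 a360 a192 (k2 i298 a33 (k1 a419 k0)))) (by decide +kernel)
def a597 : PP 8 4 T 0x2200000000000002000002000000000000000000000000000000000208020000000 := rS 0x26d2f181c9ec906f4892c323b02004ee7126a64e60388bc58c1b3c8dd5ec310a96864706b058a0f5f8fc22442e9ac14076990c1283272ddfa516594cb2813ea844a41 (k8 a331 a570 i880 i126 i1975 a2 i882 a385 (k8 i1397 a576 a577 a579 a585 a588 i702 a341 (k8 i1222 a130 a464 i1970 a386 i483 i1421 i1455 (k8 a17 i1792 i1248 i561 a451 a84 i361 i728 (k8 i1955 a187 a595 i1767 i786 a132 a76 a444 (k8 i1001 i977 i980 a593 i1240 i807 a596 a349 (k8 a435 i229 i486 i734 i1232 a440 a418 i1875 (k4 a135 i1244 a41 i2045 k0)))))))) (by decide +kernel)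
def a598 : PP 8 4 T 0x20002000000000000000000004000000001000501010000000080000000100020000020 := rS 0x4c450e62f5498d12d3379ed3697 (k8 a71 a41 a390 i1231 a341 i1342 i1350 i573 (k4 i316 i758 a120 i2045 (k1 a57 k0))) (by decide +kernel)
def a599 : PP 8 4 T 0x2000001000000040000000000400200000000000000000000004040000000000000 := rS 0x7b45 (k2 a433 i1785 (k1 a442 k0)) (by decide +kernel)
def a600 : PP 8 4 T 0x2000000000000040000000000000000010000020000000080000000100004000020 := rS 0x130c2181705c0715 (k8 a117 i24 i710 a120 a437 i1014 i229 i790 k0) (by decide +kernel)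
def a601 : PP 8 4 T 0x2000000000000040000000000000000000000020000000080200000100004000820 := rS 0x924d54220e64b (k4 i486 i78 a600 i277 (k2 i2388 i1086 (k1 a440 k0))) (by decide +kernel)
def a602 : PP 8 4 T 0x2000000000000000000004000000000000500000000000080200040108020000820 := rS 0x1e89119269c5224b1db4c3679 (k8 i1767 i786 a341 a435 i486 i734 a601 i789 (k4 a598 a440 a135 a418 k0)) (by decide +kernel)
def a603 : PP 8 4 T 0x2200000000000002000002000000000000000000000000000000000008020000000 := rS 0x974d9cd22713d9805c182418c04054c804de2d3c8dd5ec3108441aa52202886091f87da7430791c52f160a84ba6b409f58a2553addfa516594cb207271057e83 (k8 a585 i1455 a331 a579 i1222 a2 i882 a385 (k8 i1397 a576 a577 i1914 a570 i1792 i126 i1975 (k8 a464 i1970 i880 i1248 a76 i13 a451 a17 (k8 a84 a341 i10 i1421 a588 i702 a130 a386 (k8 i361 i561 i483 i728 i1955 a187 a595 i1767 (k8 a597 i1231 i560 a599 a602 a349 i533 i221 (k8 i220 i302 i303 a418 i750 i1169 i1092 i1176 (k2 a449 i2045 k0)))))))) (by decide +kernel)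
def a604 : PP 8 4 T 0x2000001000000040000004000400001000505054000000000000040000000000808 := rS 0x12e9b4c9805c3f (k4 a461 i302 i303 a599 (k2 i1176 a449 (k1 i2045 k0))) (by decide +kernel)
def a605 : PP 8 4 T 0x2200000000000042000002000000000000000010000000000000040008000000010 := rS 0x45d1eb84f26932975e451482f0f020167354a44de753d8b512182400802778899452f1409f54eb77e94596532c81d06c66183d8a2508974d60d2210c9c41108748e79 (k8 i1767 a451 a603 i727 a331 a579 i701 a386 (k8 i482 a464 i1970 i483 a570 i1792 a17 i1955 (k8 a132 a585 i1222 a2 i882 a385 i1397 a576 (k8 a577 i1914 i126 i1975 a76 i13 a63 a444 (k8 i807 a596 a349 i221 i220 i2093 i1001 a418 (k8 i1010 i1009 i1169 i2755 i758 a604 a130 i222 (k8 i2096 i1395 a120 i415 a24 a57 i2045 i1418 (k4 i1417 i2812 a465 a466 k0)))))))) (by decide +kernel)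
def a606 : PP 8 4 T 0x2200000000000042000002000000000000000000000000000000040008000000010 := rS 0x106205a249002009842e7026bf40e44218749c41 (k8 a331 a579 a603 i701 a386 i1222 a576 i525 (k8 a605 i709 i1280 i478 a349 i221 i2093 i303 (k2 i750 a130 (k1 i1348 k0)))) (by decide +kernel)
def a607 : PP 8 4 T 0x2001000000000040000000000000000000000020000000080200000000014000060 := rS 0x9058605a17 (k4 i709 i1240 a437 a601 (k2 i2105 a130 k0)) (by decide +kernel)
def a608 : PP 8 4 T 0x2200000000000042000002000000000000000000000000000000040008000000000 := rS 0x618aa612e9b54c60e67b0b1203263269c4de91258ec08813eaddfa516594cb20741910861d271043679 (k8 i1767 i786 a331 a579 a603 i701 a386 a585 (k8 i1222 a2 i882 a385 i1397 a576 a577 i126 (k8 i1975 a606 a435 i486 i734 i1272 a607 i789 (k8 i1350 i229 a440 a437 a418 a259 a135 i1086 (k4 a41 a71 i2045 a57 (k2 a448 a438 k0)))))) (by decide +kernel)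
def a609 : PP 8 4 T 0x2001000000000000000004001000000000500010000000084000440008000000000 := rS 0xc3154c25d37183d920c64d3ca44de73 (k8 i758 i1272 i734 i1767 i789 i1350 a440 a418 (k4 a135 a41 a71 i2045 (k2 a57 a448 (k1 a438 k0)))) (by decide +kernel)
def a610 : PP 8 4 T 0x2200000000000002000002000000000000000000000000000000040008000000020 := rS 0x2e22e774aa2d3e7b49982308f260e430178a9c13aa9258d477436483cca4735bc5027d628956efd28b2ca65941b0c1a442193882210e86c16d2 (k8 a608 a82 i786 a603 i727 a331 a579 i701 (k8 a386 i482 i1955 a585 a2 i882 a385 i1397 (k8 a576 a577 a570 i1792 i126 i1975 a76 a464 (k8 a451 a63 a17 a343 a84 a435 i354 i486 (k8 i572 a179 a609 a117 i709 a437 i1876 i229 (k8 i1130 a419 i790 i1369 a390 a33 a52 i1018 (k4 i809 a192 a447 i1408 k0))))))) (by decide +kernel)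
def a611 : PP 8 4 T 0x20102200000000000000080000000001000000000500000000000000000000002000000 := rS 0x23e2e3545a7c76c9 (k8 a343 a345 a33 a52 i412 a192 i1130 a466 k0) (by decide +kernel)
def a612 : PP 8 4 T 0x2200000000000002000002000000000000000020000000000000040008000000000 := rS 0x4bd147caf4c8ea32094e988ea7719a249002008e4309b0bc56226578a9d6efd28b2ca65903a0d8cc307b144a112e9ac1a442193882210e91c362f1e82da405 (k8 a610 a608 a82 a335 a359 i786 a451 a603 (k8 i727 a331 a579 i701 a386 i482 a464 i1970 (k8 i483 a570 i1792 a17 i1955 a132 a585 i1222 (k8 a2 i882 a385 i1397 a576 a577 i1914 a76 (k8 a63 a444 a117 i709 i1447 a437 i1876 i478 (k8 a349 i221 i2093 i2094 i2509 i1010 i750 i1640 (k8 i1348 a611 a419 i1106 i540 a384 a80 i1371 (k1 a422 k0)))))))) (by decide +kernel)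
def a613 : PP 8 4 T 0x400000000000000002000000000000000080442000000800000000500000000000000000000002000000 := rS 0x11747ae06abc67d162343 (k8 a84 a444 a111 i1152 a404 i413 i1417 i1130 (k2 a465 a466 k0)) (by decide +kernel)
def a614 : PP 8 4 T 0x2200000000000002000002000000000000000000000000000000040008000000000 := rS 0x30c552c9b4c8e8e691379d4f6a90c12c90020098cee71028bda4798899452f1a7a04fabb5bbf4a2cb299657e836330c1ec512844ba6b06910864e208843a47 (k8 a451 a603 i727 a331 a579 i701 a386 i482 (k8 a464 i1970 i483 a570 i1792 a17 i1955 a132 (k8 a585 i1455 a2 i882 a385 i1397 a576 a577 (k8 i1948 i126 i1975 a36 a76 i13 a63 a444 (k8 i1767 a608 a359 a610 a612 i807 i1350 a596 (k8 a349 i221 i1046 i220 i1084 a418 i1010 i1009 (k8 i1169 i1091 a609 i1106 a613 i2045 a24 a449 (k1 a438 k0)))))))) (by decide +kernel)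
def a615 : PP 8 4 T 0x2200000000000002000002000001000040000000000000080040090000002000000 := rS 0x958aae4c070379309693021d22e8f009e13e1ba1b24ca03 (k8 a446 a63 a343 a84 i67 i2722 i1043 i1038 (k8 i1130 a192 i1973 a349 i1369 i486 i229 i1272 (k4 i789 i790 i1065 a117 (k2 i1018 a447 k0)))) (by decide +kernel)
def a616 : PP 8 4 T 0x1002001000000000000000004000000101000505054005000000200080000000000042 := rS 0x34c163c16a58129b0faa21839 (k8 i18 a389 a438 a81 a457 i222 i2045 i1244 (k4 i1777 i560 a335 a130 k0)) (by decide +kernel)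
def a617 : PP 8 4 T 0x400000000000000002201000000000000000042000001001040501200000000090200080001010000040 := rS 0x2f68a9a4bc5000713d8583661111bdca9919ae4609e2518ccecf249ccfb11a1b24ca6b5b94596532cafc4239 (k8 i18 i727 i1455 a2 i882 a385 i1397 a577 (k8 a464 a63 a343 a84 a444 i126 i1096 i1010 (k8 i1067 i1588 i1351 a440 a388 i996 i2669 i1712 (k8 i1113 a459 i1399 a107 i1047 i272 i1572 i1776 (k8 i709 i966 a616 a24 i2045 a111 i1417 a404 k0))))) (by decide +kernel)
def a618 : PP 8 4 T 0x400000000000002002000000000000000100046000000001000501110000000000200100000000000002 := rS 0xbda2ae535163da3c2c4a88d0d7e6f3ba5ce699 (k8 a57 a417 a24 i807 i1400 i1455 a84 a444 (k8 i477 i478 i1132 i714 a466 i2045 a465 a111 (k2 i1417 a404 k0))) (by decide +kernel)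
def a619 : PP 8 4 T 0x102200000000000000000000000001000040000500000000008000080001100000020 := rS 0x183913c238b0691ec9 (k8 a343 i1132 i486 a466 i273 a192 a107 i996 (k1 a459 k0)) (by decide +kernel)
def a620 : PP 8 4 T 0x400400000000000002000000000000000000440000000800000000000000000000000080000000000000 := rS 0x5e0f85945 (k4 a111 i994 i995 a404 (k1 i2900 k0)) (by decide +kernel)
def a621 : PP 8 4 T 0x2000000000000000000006000000541000504014000000000000000008001000000 := rS 0xb1c83679 (k4 i1768 i785 i2045 a437 (k1 a259 k0)) (by decide +kernel)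
def a622 : PP 8 4 T 0x102200000000000000000000000001000040008500000000010200080001100000000 := rS 0x21283449 (k4 a418 i1776 a440 i268 (k1 a619 k0)) (by decide +kernel)
def a623 : PP 8 4 T 0x2001000000000000000006000000500000504014004000000200080008001000040 := rS 0x964900aa0c3154b2445679269cc2c1b (k8 i785 a437 a259 i526 i1768 i14 i993 a621 (k4 a24 a449 a438 a616 (k2 i1086 i966 (k1 a440 k0)))) (by decide +kernel)
def a624 : PP 8 4 T 0x2200000000000002000002000000000000000010000000000000000008000000000 := rS 0x472522ebc4fd1530730b06cf6633bc459221379d49a790c8d516112e9ad3ac5488ac88430e81c9c813e894829b1b2fd06bb5bbf4a2cb299669f43 (k8 a84 a36 a2 i882 a385 i1397 a576 a577 (k8 i1948 a585 i1455 a614 a620 a331 a570 i126 (k8 i1975 a579 i1222 a603 i701 a386 i14 i993 (k8 i1792 i1779 a464 i1970 i483 i1773 i1121 a615 (k8 i1768 i526 a617 i1400 i727 a343 a444 i807 (k8 i1350 a622 i785 a437 a259 a623 a433 i1113 (k4 a404 a192 i1991 a466 (k1 i1102 k0)))))))) (by decide +kernel)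
def a625 : PP 8 4 T 0x2200000000000002000002000000000000000000000000000000000008000000000 := rS 0x170a83b18cf4490d1842f15381d49a790ca2d3a35488d822441090c3a830393976b77eb15025da79f622c93594cb251658ac4a41 (k8 a331 a570 i14 a385 i1397 a2 i882 a464 (k8 a343 a444 i126 a36 i1970 i1975 i1792 a576 (k8 a577 i1948 a579 i1222 a585 a603 i701 i727 (k8 a386 i483 a614 i993 i1121 i1779 i1773 a615 (k8 i1768 i526 a617 a624 a117 i709 i1280 a437 (k4 i747 i785 i1351 a622 (k2 a438 i808 (k1 i1139 k0)))))))) (by decide +kernel)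
def a626 : PP 8 4 T 0x102200000000000000000000000000000000008500000000000200080001100000000 := rS 0x22c9c478689a193ca2c225d (k8 i3049 i483 i1773 i60 i1043 i526 i1776 i872 (k2 a622 a466 (k1 a399 k0))) (by decide +kernel)
def a627 : PP 8 4 T 0x400000000000000002201000000000000000042000000001040501200000000090200080001010000040 := rS 0x310649c (k4 a617 i1780 i1779 i2960 k0) (by decide +kernel)
def a628 : PP 8 4 T 0x400000000000000002200000000000000000042000000000000508020000000000000080008000000000 := rS 0x1d03a7716ae5506145934024a08910866303bf49c210c9742e1a249e5922520add9a7f3ed0e226f8a8e5222b (k8 i14 i993 i18 a117 i57 a444 a84 i126 (k8 i102 a625 a537 a331 a570 a343 i60 a418 (k8 i1776 i714 i3049 i1043 i2539 a578 a74 i1222 (k8 i1351 i2533 a386 i483 i269 i478 i526 i1773 (k8 i1047 a438 i1139 i974 i808 i782 a626 a627 k0))))) (by decide +kernel)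
def a629 : PP 8 4 T 0x2200000000000000000002000000000040404220000000010200080008000000000 := rS 0x3f5a6092e8703f1205858327963464009e0299c94c9358a50e03488ac5a1b249953acf6681ca2cb (k8 a385 i1397 i479 a625 i1068 i1592 a63 i1010 (k8 i785 i1240 i14 i993 a446 i2490 i13 a464 (k8 a343 a440 i1588 i486 a388 a349 a33 i997 (k8 i1076 i2722 i478 i560 a406 i1357 i709 a5 (k4 i222 a341 a572 a130 k0))))) (by decide +kernel)
def a630 : PP 8 4 T 0x400000000000000002200000000000000000042000000000040500220000000000200080008000000000 := rS 0x943199a2e4e4f974304c64adcff4388c549265499f53a7b67b35726f (k8 i57 i1065 a625 i1068 a628 i1592 i126 i1589 (k8 a63 i1010 a117 a444 a84 i102 a537 a343 (k8 a629 i526 i531 i2722 a578 a192 a191 i1351 (k2 a447 i1674 k0)))) (by decide +kernel)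
def a631 : PP 8 4 T 0x400000000000001002200000000000000000042000000000000500000000000000100000108000000004 := rS 0x44b4c5e1f0e0209c422e9056ecd3f9f68711 (k8 a444 a84 i126 i102 a625 a537 a331 i1766 (k8 a386 a578 i702 i701 i1270 i198 a341 a583 (k1 a120 k0))) (by decide +kernel)
def a632 : PP 8 4 T 0x400000000000000002200000000000000000042000000000000500220000000000000080008000000000 := rS 0x26040968a24994882d0d9ec0715 (k8 a117 a446 a628 i785 i1240 a631 a63 i1010 (k4 a630 i492 i1773 a440 (k1 i2347 k0))) (by decide +kernel)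
def a633 : PP 8 4 T 0x2000000000000000000000000000000080004000000000000200080008000000000 := rS 0x172247908465222b (k8 i14 i993 a52 i1773 i3045 a406 i483 a5 k0) (by decide +kernel)
def a634 : PP 8 4 T 0x400000000000000002000000000000001001042000000000040000020000000000200000008000020004 := rS 0xd351b954a1c620842c840044c0a5c88d0c5287 (k8 i2490 i13 a84 a444 i483 i523 a5 a349 (k8 a436 i478 i1504 i1771 i709 i1382 a40 i1653 (k2 a341 a393 k0))) (by decide +kernel)
def a635 : PP 8 4 T 0x2000000000000000000004000000000000500000000000080200080108020000040 := rS 0xb04b4c86fd (k4 a74 i41 a341 i1262 (k2 a591 a130 k0)) (by decide +kernel)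
def a636 : PP 8 4 T 0x2200000000000000000000000001001042000100000000000000010008002000000 := rS 0x117198c4eee51127d88c9 (k8 a343 i1771 i1606 i1772 a40 i2979 i1571 i233 (k2 a192 a429 k0)) (by decide +kernel)
def a637 : PP 8 4 T 0x400000000000000002200000000000000000042000000000000500020000000000000080008000000000 := rS 0x113428d53a043c00430170e938ba11459d40e441686cf60f28b2d0ec1129056ecd3f9f687118a80d222b (k8 i14 i993 a446 a117 a444 a84 i126 i102 (k8 a625 a537 a331 a570 i1248 i2490 a385 i1397 (k8 a17 a628 i785 i1240 a631 i479 a632 a633 (k8 a634 i1765 a578 a635 i709 a437 i478 i1043 (k4 a349 i3046 i354 a636 (k2 a398 a436 k0)))))) (by decide +kernel)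
def a638 : PP 8 4 T 0x800000000000000002200000000000000004000000000000000000000000000000200080008004400000 := rS 0x66e5620c41a668b930229d021e002186483cca473580d3ec71ab3d167b (k8 i1776 a633 a3 i1120 a59 a26 a446 a464 (k8 a451 a63 a17 a343 a437 i478 i1043 a349 (k8 i3046 i523 i229 a192 a388 i2346 i1505 a132 (k2 a40 i1615 (k1 a429 k0))))) (by decide +kernel)
def a639 : PP 8 4 T 0x800000000000000002200000000000000000002000000000000500020000000000200080008004000000 := rS 0x9c8b19d1e4a249d49e4d0e1dc2c8b169ed92c35bb34fe7da1c459e9f2181ca2cb (k8 a385 i1397 i479 i41 a26 a3 a444 a84 (k8 i126 i102 a625 a537 i1954 a343 i1776 i1240 (k8 a633 a638 i2470 i709 i707 a635 a629 i749 (k4 a440 i1132 i490 a466 (k2 a191 a399 k0))))) (by decide +kernel)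
def a640 : PP 8 4 T 0x800000000000000002200000000000000000002000000000000500020000000000200080008000000000 := rS 0x3a0c844e5620441a042508435110791cd62520b0d9ac7 (k8 a59 a625 i1954 a331 a570 a464 a451 a17 (k8 a444 a639 i2539 i269 i268 i482 i2303 a132 (k4 a40 a107 i272 i273 (k1 i2960 k0)))) (by decide +kernel)
def a641 : PP 8 4 T 0x2200000000000000000006000000000000500020000100000080000000008000000 := rS 0x1fa6354aba1861001309e532c9459715 (k8 a117 a385 i1397 a2 i882 i2533 i779 i780 (k4 i1279 a278 a108 i574 (k2 i2261 a292 (k1 a438 k0)))) (by decide +kernel)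
def a642 : PP 8 4 T 0x400000000000002200000000000001001040000000000004000020000100000080000008000000020 := rS 0x146e552b4d88210e2102c572c954d629 (k8 i13 a464 a72 a2 i2334 i518 a460 i709 (k4 i1504 i1771 a341 i1382 (k2 a40 i1653 (k1 a393 k0)))) (by decide +kernel)
def a643 : PP 8 4 T 0x2200000000000000000042000000000000500020000000000000080008000000000 := rS 0x9d339e094182680116050d924845d22a7d9f4e64a1d822520add9a7f3ed0e2203 (k8 a446 a444 a84 i126 i102 a625 a537 a331 (k8 a570 i1248 i2490 a343 a637 a3 a26 a640 (k8 i1766 a386 i2451 a641 a642 i1774 a349 i446 (k4 a252 a440 i1043 i2246 (k2 i3046 a191 k0))))) (by decide +kernel)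
def a644 : PP 8 4 T 0x102200000000000001000000000004000004000000000000001080080008004000002 := rS 0x10b4f672762667479e09418458d49ac9329ac7203 (k8 a446 i18 a464 a63 a343 i446 i1114 i452 (k8 a252 a440 i1043 i1130 i2246 a398 i3046 a388 (k2 a3 i1871 (k1 a436 k0)))) (by decide +kernel)
def a645 : PP 8 4 T 0x2200000000000000000002000000000000500020000000000100080008000000000 := rS 0x1f90c04b4c9e1c038589804258045a1b2482c845d29964a2cb20a1d6ecd3f9f6871101a7d749b (k8 i1447 a643 i1686 a446 a444 a84 i126 i102 (k8 a625 a537 i2490 a331 a385 i1397 a2 i882 (k8 i1766 a386 i557 i2451 a641 i1240 a644 i437 (k8 a349 a440 i518 i520 i709 i2463 a341 i1261 (k2 a278 a130 (k1 a292 k0)))))) (by decide +kernel)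
def a646 : PP 8 4 T 0x400000000000000102200000000000001000000000004000044000000000000000000090008002000000 := rS 0x19b9462c410c5d089d899e19229 (k8 i13 a343 i1043 a398 i3046 a436 a192 i1504 (k4 i1771 i1042 a40 i1615 (k1 a429 k0))) (by decide +kernel)
def a647 : PP 8 4 T 0x2000000000000000000004000000000000500020000000000200080008005000060 := rS 0x13c901c0b12c5a4d (k8 i526 i1240 i486 a437 i709 a440 a635 i749 k0) (by decide +kernel)
def a648 : PP 8 4 T 0x1002200000000000000000082000000400000000000000000000200080008008000000 := rS 0x3a31064774e2512c998c884f42520add9a7f3ed0e2345 (k8 a29 a444 a84 i126 i102 a625 a537 a331 (k8 a570 i785 i2539 a390 i1940 a422 i1904 i1903 (k4 i1675 i1780 i1779 a626 (k1 i2960 k0)))) (by decide +kernel)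
def a649 : PP 8 4 T 0x400000000000000102200000000000001000004000004000004500020000000000200080008004000060 := rS 0x181a83d167b (k4 i1776 a633 a17 i354 (k2 a647 a646 k0)) (by decide +kernel)
def a650 : PP 8 4 T 0x2200000000000000000002000000000000500020000000000000080008000000000 := rS 0x2762c77478589475001340a8b3d86e9e072227d74c928b2d0eb7669fcfb4388c54069b (k8 i1447 a446 a117 a444 a84 i126 i102 a625 (k8 a537 i2490 a385 i1397 a343 a643 i1686 a645 (k8 i479 a640 a648 i1776 a633 a649 i525 a349 (k8 a629 i477 i478 i1132 i2470 a466 a399 a192 k0)))) (by decide +kernel)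
def a651 : PP 8 4 T 0x2000000000000000000000000000000000200020000000000000000008000000000 := rS 0x781e (k2 i1770 i1769 (k1 i2873 k0)) (by decide +kernel)
def a652 : PP 8 4 T 0x2000000000000040000000000000000000000020000000004200000000041000440 := rS 0x4f243f09a09 (k4 i222 i526 a130 a440 (k2 a74 i749 k0)) (by decide +kernel)
def a653 : PP 8 4 T 0x2200000000000000000002000000000000000020000000000000080008000000000 := rS 0x15ce8044793084452599a2e9d45a7d9f183c9dcf6190b06d102d0581da62f1f0703e3d89a09220388b24b26535904562943b362a81 (k8 a651 a117 a625 i2490 i13 i14 a331 a464 (k8 a63 a2 a343 a444 a446 i993 a650 a68 (k8 i1256 i1436 i735 i736 i1083 a341 a458 a461 (k8 i2909 a120 i782 i1343 i230 i1776 i2470 i973 (k8 a406 a569 a33 a52 a347 a192 a388 i490 (k8 a652 a386 a252 i874 i708 a466 i2334 i1587 k0)))))) (by decide +kernel)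
def a654 : PP 8 4 T 0x102200000000000004000000000000000000800400000000020080040008000800000 := rS 0x743345d3a8b4f95e303b021ed926535a451e59 (k8 a2 i874 a110 a464 a63 a343 i2472 i708 (k8 i1155 a135 i2334 a33 a52 a347 a192 a388 (k2 a466 i1587 k0))) (by decide +kernel)
def a655 : PP 8 4 T 0x1102200000000000004000000000400000000800400000000020080040108000000000 := rS 0x3d26c742e4485d222b898f9a61c (k8 i735 a341 i736 a68 i14 a110 a654 i1343 (k4 a120 i404 i1176 a203 (k1 i816 k0))) (by decide +kernel)
def a656 : PP 8 4 T 0x1002000000000000040000000000000000000000000000000008080000100040000040 := rS 0x17a240018 (k4 i438 i437 i230 i1078 (k1 a120 k0)) (by decide +kernel)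
def a657 : PP 8 4 T 0x102200000000000001000000000400000004800020000000000100040008000000000 := rS 0x4295cec4c25924845d2c954d6418a8b4361f14b3e2679698700e3e (k8 i736 a458 i735 a341 i1767 a68 a569 i13 (k8 i1436 i786 i1240 a117 a331 a464 a72 a2 (k8 i1766 a386 i2451 a656 a440 a655 i1628 i1632 (k1 a460 k0)))) (by decide +kernel)
def a658 : PP 8 4 T 0x1002000000000000040000000000000000000000000000000020200000100040000400 := rS 0x17a240818 (k4 i526 i525 i230 i315 (k1 a120 k0)) (by decide +kernel)
def a659 : PP 8 4 T 0x2200000000000000000002000000000000800020000000000000000008000000000 := rS 0x2723039639ecee16338ec000525134064927bf012440581da6cf1f0703f13648a5e28753add9a7f3ed0e23153c8b43637 (k8 a653 i786 i1240 i1767 a117 a444 a84 i126 (k8 i102 a625 a537 i1914 i2490 a76 i13 a343 (k8 a68 i1436 i735 i736 a569 a341 a458 a461 (k8 a657 i222 a130 a74 i749 i221 a658 a440 (k8 i486 a349 a339 i2291 i478 i2470 i2472 a596 (k4 i1875 a135 a235 a347 k0)))))) (by decide +kernel)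
def a660 : PP 8 4 T 0x2002000000000000000000000400100000400020000000510200040008020000010 := rS 0x12d18458ecc6001c928065c2493d52af14bc53661 (k8 i1280 i1447 a76 i13 a427 a450 a74 i749 (k8 a564 i221 a440 i3086 a349 i487 a339 i2292 (k2 a419 a336 (k1 a71 k0)))) (by decide +kernel)
def a661 : PP 8 4 T 0x2000000000000040000000000400000000400020000000510200040008020000110 := rS 0x4060a7e8b4360730a647ef1 (k8 a76 i1421 a599 i1280 i479 i786 i1240 a660 (k4 a130 i303 i560 a349 k0)) (by decide +kernel)
def a662 : PP 8 4 T 0x2000000000000000000000000000000000000020000000010000000000004000020 := rS 0x15216240649673 (k4 i78 i486 i229 a440 (k2 a437 i1086 (k1 a209 k0))) (by decide +kernel)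
def a663 : PP 8 4 T 0x2000000000000040000000000400000000400020000000510200040008020000000 := rS 0x490c0a1b (k4 i786 a662 i41 i1262 (k1 a661 k0)) (by decide +kernel)
def a664 : PP 8 4 T 0x2000000000000040000000000400000000400020000000510200040008000000000 := rS 0x25fa622702d1248010042e1d039840a1b (k8 i786 a662 i1280 i479 a663 i709 i478 a349 (k8 i221 i2093 i303 i749 i750 a74 i1348 a130 k0)) (by decide +kernel)
def a665 : PP 8 4 T 0x2000000000000000000000040400501010005000000000000205140540000000540 := rS 0x12e3b8c44cb810 (k4 a384 i483 a5 a406 (k2 a203 a71 (k1 i2034 k0))) (by decide +kernel)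
def a666 : PP 8 4 T 0x2200000000000000001000000040000810000020008000000000000000000001440 := rS 0x14aab49255960f5691ce609 (k8 i1348 i78 a451 a445 a17 a385 i1102 i877 (k2 i538 i1364 (k1 i2027 k0))) (by decide +kernel)
def a667 : PP 8 4 T 0x2200000000000000000002000000000000000020000000010200000008000000000 := rS 0x46e5522accf16478243e623a9dd1248010041a1710a8c161d690141e655691ca6596089482a75bb34fe7da1c4436374181ca2cb (k8 a385 i1397 i479 a659 a653 i786 a444 a84 (k8 i126 i102 a625 a537 i1914 a331 a570 i1248 (k8 a2 i882 a451 a445 a63 a17 a662 a664 (k8 a341 a82 a99 i727 i709 i482 i478 a349 (k8 i221 i2093 i2509 i1010 i750 i1356 i1348 a666 (k4 a466 a350 i537 i2027 (k2 a382 i248 (k1 a107 k0)))))))) (by decide +kernel)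
def a668 : PP 8 4 T 0x2000000000000000000004000000000040500000008100501000000000000000000 := rS 0x15e4f (k2 i1351 i539 (k1 a108 k0)) (by decide +kernel)
def a669 : PP 8 4 T 0x2200000000000001000000000000000004001800000000020000000000000000000 := rS 0x214ae592a9ac965d (k8 i532 i73 a464 a72 a2 i1628 i1632 a460 k0) (by decide +kernel)
def a670 : PP 8 4 T 0x2200000000000000000002000000000000000020000000000200000008000000000 := rS 0xcecf4a1d1727731c5d3a8b4fc6076931c974088f0c12498c9329aca65928b2c52f143add9a7f3ed0e2315409e46e83 (k8 a659 a653 i1767 a651 a117 a444 a84 i126 (k8 i102 a625 a537 i2490 a76 i13 a385 i1397 (k8 a2 i882 a464 a63 a343 a667 i30 i526 (k8 i874 i525 i532 i234 i1369 a435 a419 a33 (k8 a52 a347 a192 a668 a669 i1408 a466 a447 (k2 i1068 i1674 (k1 a388 k0))))))) (by decide +kernel)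
def a671 : PP 8 4 T 0x21002200000000000001000012000000000400000400004000000000000000000000000 := rS 0xcecf4a1d22e9d45a7e234364994d693 (k8 i1369 a464 a63 a343 a84 a444 a33 a52 (k4 a347 a192 a466 a447 (k2 i1068 i1674 (k1 a388 k0)))) (by decide +kernel)
def a672 : PP 8 4 T 0x1002000000000000000000004000000000000500000005100520000000000000000000 := rS 0x573f09ea9 (k4 i574 i790 a438 a108 (k1 a427 k0)) (by decide +kernel)
def a673 : PP 8 4 T 0x20000000000000000000000000000000000000000000004a0080000100000000000 := rS 0xe0202e4b (k4 i73 i2463 i702 i701 (k1 a580 k0)) (by decide +kernel)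
def a674 : PP 8 4 T 0x2000000000000000000004000000000000400020000100520080040008000000000 := rS 0x9698b875193da2930077e9895c6127aa54f15408b4360b (k8 i557 i786 i1240 a651 a117 i1914 i574 a673 (k8 i1279 a108 a672 a427 i460 i540 i539 i1940 (k4 a52 a135 i1106 a359 (k2 i199 a130 k0)))) (by decide +kernel)
def a675 : PP 8 4 T 0x2200000000000000000002000000000000000020000000000000000008000000000 := rS 0x1d8ac7542b3a2e9d4fc6076390023cce8b0c1289a49211748a833c8dd92652a9aca65928b2c822978a1d6ecd3f9f68711 (k8 a444 a84 i126 i102 a625 a537 i2490 a76 (k8 i13 a331 a385 i1397 a2 i882 a464 a72 (k8 a63 a343 a653 i1767 a659 a670 i1766 a386 (k8 i2451 a674 a440 i438 i2247 i2246 i1132 i437 (k8 i234 a339 a419 a33 a347 a192 a388 i1870 (k4 i1068 a460 a466 i1627 k0)))))) (by decide +kernel)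
def a676 : PP 8 4 T 0x20002200000000000000000002000000000000000000000000008080000008000000000 := rS 0x746723cce6535b34e3174fa75928b (k8 a52 a343 a347 a33 a192 a675 a625 a464 (k4 a63 i2246 i1132 a388 (k2 a201 i1068 k0))) (by decide +kernel)
def a677 : PP 8 4 T 0x20002200000000000000000002000000000000000000000000010100000008000000000 := rS 0x728d418212b21462330c858044825c5d3a8b4fb24b26523954d687669748441 (k8 a331 a386 i1766 a625 i2490 a464 a72 a451 (k8 a63 a2 a343 a33 a52 a347 a192 a676 (k8 a440 i700 i699 i1007 i192 i1002 a177 a460 (k4 i1498 i441 i1117 a392 (k1 a429 k0))))) (by decide +kernel)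
def a678 : PP 8 4 T 0x4002200000000000001000000000000000004000000000000002100000008000000000 := rS 0x3946a0c109590a592a9acba160c8cc8e31011088265 (k8 a63 a331 a386 i700 i1002 a451 i192 i1007 (k8 i699 i1766 a464 a72 a2 a177 a460 i1498 (k4 i441 i1117 a392 a429 k0))) (by decide +kernel)
def a679 : PP 8 4 T 0x10102200000000000001000000000000000004000000000000011080000008000000000 := rS 0x13c361d8e40018250a5e21b (k8 i779 a76 i13 a440 i438 i437 i234 a339 (k2 a419 a644 (k1 i2722 k0))) (by decide +kernel)
def a680 : PP 8 4 T 0x502000000000000001000000000008000004000100000000000000000000000000000 := rS 0x10b4f (k2 a26 i1605 (k1 a436 k0)) (by decide +kernel)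
def a681 : PP 8 4 T 0x2200000000000000000012001004100000500000000100040000810408800002008 := rS 0x26cc3154a29512a31687cc69703d1618ae29964a2cb6089482a75bb34fe7da1c4526711991c6265 (k8 a63 i1002 a451 i192 a675 i1368 a444 a84 (k8 i126 i102 a625 a537 i1914 a331 a570 i1248 (k8 a385 i1397 a2 i882 a108 a278 a381 i460 (k8 i1900 i540 a81 i1001 i1648 i397 i248 i2033 (k4 a14 i1018 i1181 a162 k0))))) (by decide +kernel)
def a682 : PP 8 4 T 0x2200000000000000000012001004100001400000000000000100810408000000008 := rS 0x1a6a5518703e0727394440c2b204fa7f88d0cb25535a1d8225669748441 (k8 a331 a386 i1766 a625 a570 i1248 i2490 a464 (k8 a72 a2 a84 a444 i102 i126 a535 a460 (k8 i441 i442 a392 a681 i1222 i1270 i701 i1648 (k2 i248 a341 (k1 a393 k0))))) (by decide +kernel)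
def a683 : PP 8 4 T 0x22000000000000000021014001404104000400000010100540000814400800000408 := rS 0x9b30c5528a3448b4c63d4b81e8aa55707d0231 (k8 i1002 a4 a81 a108 i248 a381 i460 i1900 (k8 i1782 i540 i1001 i397 i1654 i2033 a14 i1018 (k2 i1181 a162 k0))) (by decide +kernel)
def a684 : PP 8 4 T 0x2200000000000000020012000004000000400000000100040000810008800800408 := rS 0xe2be1a532c94596296089482a75bb34fe7da1c4526711991c6265548bce699 (k8 i2766 a259 i1079 i2754 a63 i1002 a451 i192 (k8 a675 i1368 a444 a84 i126 i102 a625 a537 (k8 i1914 a331 a570 i1248 i13 a385 i1397 a2 (k4 i882 a683 a227 a272 (k1 a564 k0))))) (by decide +kernel)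
def a685 : PP 8 4 T 0x2200000000000000000012000004000000400000000000000100810008000800008 := rS 0xd351a9438080f939ca2262212864760894ba0b21104a659548bce699 (k8 i2766 a259 i1079 i2754 a2 i882 a331 a386 (k8 i557 i1766 a570 i1248 a451 a84 a682 i1771 (k8 i1772 a40 a684 i1270 i702 i701 i248 i200 (k2 a341 a393 k0)))) (by decide +kernel)
def a686 : PP 8 4 T 0x2200000000000001000000000000000004000000000100000100000010200000000 := rS 0x5742964aa6b (k4 a464 a72 a2 i1504 (k2 i1498 a460 k0)) (by decide +kernel)
def a687 : PP 8 4 T 0x2200000000000000000002000000000000000000000000010100000008000000000 := rS 0x2169ec65129442958a225a62d1f0707a824fc4d203a5c8d45e73188cc6f163a858047b24464845d889948e2b14a1d822520b352671 (k8 a675 i1368 a625 a331 a570 i1248 i2490 i13 (k8 i14 a451 a63 a444 i1766 a386 a677 a679 (k8 a418 i700 i699 i1010 a678 a446 i192 i1002 (k8 a259 i1079 a348 a465 a135 i1155 a112 a680 (k8 a685 i1256 i735 i736 i1158 a341 i1342 a120 (k8 a14 a686 i1382 i2033 i406 a59 i1602 a436 k0)))))) (by decide +kernel)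
def a688 : PP 8 4 T 0x102000000000000000020000000000000001000000000000000000000001100000000 := rS 0x46e5 (k2 a40 i1575 (k1 a107 k0)) (by decide +kernel)
def a689 : PP 8 4 T 0x2000001000000000000004000400001000505014000000000000840000020000801 := rS 0x730105c0ad3 (k4 a341 a435 i1155 a349 (k2 i717 a604 k0)) (by decide +kernel)
def a690 : PP 8 4 T 0x2200000000000000080002000000001000400000000000002000040008020000800 := rS 0x652e9b4ec607639379d402793d994a2cb209dce28114a647ed353add9a7f3ed0e22f1 (k8 a76 a444 a84 i126 i102 a625 a537 i1914 (k8 a341 i1421 a599 i13 i1236 a675 i807 a331 (k8 a385 i1397 a63 a418 a353 i959 i1010 i1009 (k8 i1875 a689 a419 i1641 a41 a71 a611 a621 k0)))) (by decide +kernel)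
def a691 : PP 8 4 T 0x2200000000000000000002000000000001000000000100010000000008120000000 := rS 0x42500c02491b93814af7e8fd22838953d8cc50683c8e6b29965e2875089482c35b9fcfb4388afd9a770394596d3408a412430d9c42244 (k8 a687 i483 a675 i781 i41 i1262 i13 i1236 (k8 a341 a385 i1397 i479 i807 a625 i1456 a444 (k8 a84 i126 i102 a537 i1954 a331 a570 i880 (k8 i2490 a76 a2 i882 a464 a451 a17 i482 (k8 a688 a132 a59 a436 a68 a112 i1421 a572 (k8 a187 a130 a108 a595 a690 a596 i221 a440 (k2 a349 i486 k0))))))) (by decide +kernel)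
def a692 : PP 8 4 T 0x402000000000000004100000041004044000004400411100111200000000004000000 := rS 0x2642c9c0019d160531a449403 (k8 i221 a440 a102 i487 i486 i491 i490 a349 (k4 a388 i478 i1943 a273 k0)) (by decide +kernel)
def a693 : PP 8 4 T 0x402000000000000040000000041000001010005000001000000008000040000000000 := rS 0x5b154d8be303b (k4 a203 a406 i404 a41 (k2 a561 i1423 (k1 a120 k0))) (by decide +kernel)
def a694 : PP 8 4 T 0x2200000000000000000002000000000001000000000100010000000008020000000 := rS 0x5018e83290009e4909f67d38f6971f44d04a957985f80b5208222c907994d641158a50ecd3ba4c0e5165b4c12432206d1271 (k8 a675 i1342 i781 a687 i41 i1262 a341 a385 (k8 i1397 i479 i1368 i807 a625 i2490 i13 i14 (k8 a331 a464 a63 a17 a343 a444 a691 i728 (k8 i361 a130 a397 a427 a450 a301 a68 i736 (k8 i1375 i815 a436 a3 a26 a692 a353 i959 (k4 a693 i1169 i734 i220 (k2 a435 a349 k0))))))) (by decide +kernel)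
def a695 : PP 8 4 T 0x402001000000000000000004000000000000500050000000082200040008000000000 := rS 0xc80920051d2a4027b259045629 (k8 i13 i14 a331 i29 a418 i959 i1086 a609 (k4 a435 a203 a349 i1169 (k1 i220 k0))) (by decide +kernel)
def a696 : PP 8 4 T 0x2200000000000000000002000000000000000000000100010000000008020000000 := rS 0x8c8ed38004f99d1605489280649678dc14fd3993a18afa2a0c78ba1fa89caa5620e442c789a1022c9329aca65915bc582a1129056ecd3f9f687113b81ca2cb69a045209219103671 (k8 a675 i781 a687 i41 i1262 i13 i1236 a341 (k8 a385 i1397 i479 i807 a444 a84 i126 i102 (k8 a625 a537 a331 a570 i880 i1248 a76 i14 (k8 a2 i882 a464 a63 a343 i483 a694 a77 (k8 i1602 i1504 i3088 i1771 i1382 a40 a393 i406 (k8 i1653 i1654 i736 a29 i1781 a462 a108 a370 (k8 a292 a130 a595 i1793 a695 i221 a440 a102 (k8 i486 i491 i490 i1606 a349 a388 a339 a347 (k1 a419 k0))))))))) (by decide +kernel)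
def a697 : PP 8 4 T 0x102200000000000001000000000000000004000400000200011200000008004000000 := rS 0x2753ecf8c1e4f61945800ce054892806c9329ac8713 (k8 a5 i41 a464 a63 a343 i221 a440 a102 (k8 i486 i490 a349 i2292 i1038 i1891 i1768 a406 (k4 a569 a33 a347 a388 k0))) (by decide +kernel)
def a698 : PP 8 4 T 0x402200000000000040000002000000001000105104000000000200000008040020001 := rS 0x99418fd44e5528d044c7398606e8e0145c0a974ea2d371864bc5822520a9d6e7f3ed0cee714fb350f11 (k8 a444 i2490 a625 a680 a675 i807 a84 i126 (k8 i102 a537 i1914 a331 a570 i1248 a76 a343 (k8 a406 a41 a52 a347 a71 i523 a192 a349 (k8 a466 a446 i220 i1092 a611 i1131 i1130 i248 (k4 a364 a393 i406 i736 (k2 a599 i2045 k0)))))) (by decide +kernel)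
def a699 : PP 8 4 T 0x2200000000000000000002000000000000000000000000010000000008020000000 := rS 0xa031b865206f3a804f27b24042265c0da043ed388994a2cb208ac5287669dce244 (k8 a687 a675 i807 a625 i2490 i13 i14 a331 (k8 a385 i1397 a63 a444 a341 i10 i1236 i781 (k8 a696 a5 i1765 a697 a418 a353 i959 i1010 (k4 i1009 a698 i1169 i993 (k2 i220 i524 (k1 a349 k0)))))) (by decide +kernel)
def a700 : PP 8 4 T 0x2000000000000000000000000000002000000000000000000200000008000000001 := rS 0x5018e83229 (k4 i13 i1169 i734 i220 (k2 a435 a349 k0)) (by decide +kernel)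
def a701 : PP 8 4 T 0x400000000004002000000000000004000000000000214000000000000000000000000000000000000 := rS 0x17315 (k2 a57 i1143 (k1 a447 k0)) (by decide +kernel)
def a702 : PP 8 4 T 0x2000000000000000000002000000000000200000000000000000000008000000000 := rS 0xa45e8f03c84 (k4 i1402 i1770 i1769 i3047 (k2 i1395 i1385 k0)) (by decide +kernel)
def a703 : PP 8 4 T 0x4002000000000000004000006000000441800404014000000000000000008005000000 := rS 0x12a980b50d2681 (k4 a702 i1368 a84 a437 (k2 a621 a521 (k1 a701 k0))) (by decide +kernel)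
def a704 : PP 8 4 T 0x402200000000000000000002000000001000405104000000000000000008004000000 := rS 0x9939a54308e8ba5d3a8b4dc613ecf64a1d6ecd3f9f687113ba4ce281 (k8 a702 a675 i1368 i807 a444 a84 i126 i102 (k8 a625 a537 i2490 a343 a569 a680 a406 a41 (k8 a52 a347 a71 a192 a466 a703 i2762 i885 (k2 a701 i2045 k0)))) (by decide +kernel)
def a705 : PP 8 4 T 0x2200000000000000000002001000000000400080000100000000000008000000000 := rS 0x4f8694cb25165add9a7f3ed0e2281 (k8 a702 a444 a84 i126 i102 a625 a537 a385 (k4 i1397 a2 i882 a456 (k2 i758 a278 k0))) (by decide +kernel)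
def a706 : PP 8 4 T 0x2000000000000000000000001000200000400054000100100000800000000000048 := rS 0x7e825a60b860b8c315 (k8 a57 a448 i1106 a389 i303 a359 i199 a292 (k1 a130 k0)) (by decide +kernel)
def a707 : PP 8 4 T 0x2000000000000000080402000410800000400500000100100200000000012000008 := rS 0x3f2180969a8816ba179fc0f4f (k8 a59 i479 i102 i1176 a613 i302 i1679 a99 (k4 i2097 a263 a130 a292 k0)) (by decide +kernel)
def a708 : PP 8 4 T 0x2200000000000000000002000000000000000000000000012000000008002000000 := rS 0x18dfa4e862ecc3154b26d32731d4653aa9010cc6ea15fa9d6e7f3ed0cee714081e9ec662a144b113583c1a2161b34225d89244026f28b2cea650d904f27b418748847 (k8 a451 a687 a699 i735 a418 a353 a331 i747 (k8 a63 i1010 a385 i1397 i1009 i959 a700 a704 (k8 a5 i483 a625 i1954 i727 i482 a17 a464 (k8 a444 a570 a77 a688 a132 a59 i479 a702 (k8 a675 i807 a84 i126 i102 a537 i1914 i1456 (k8 i880 i2683 i233 i1006 i2755 i1640 a611 a135 (k8 a705 a706 a707 i2045 a24 a449 i1903 a389 (k4 a578 a292 i1350 a438 k0)))))))) (by decide +kernel)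
def a709 : PP 8 4 T 0x2201000000000000000042000000000000000000000000012000000008000000000 := rS 0x1862a984d8d8c64e5b9fcfb435f9c5020725d3d8cc542896226b0783442c366844bb12379459675329e4f6830e91c76910091152730b0643641 (k8 a331 i747 a708 a437 a259 i1086 a687 i959 (k8 a700 i1155 a451 a699 i735 a418 a353 a63 (k8 i1010 a385 i1397 i1009 a704 a5 i483 a625 (k8 i1954 i727 i482 a17 a464 a444 a570 a77 (k8 a688 a132 a59 i29 i479 a702 a675 i1456 (k8 a84 i126 i102 a537 a578 i1350 a609 a620 (k4 a623 a57 a448 a438 k0))))))) (by decide +kernel)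
def a710 : PP 8 4 T 0x22200000000000000000002000000000000000000000000012000000008000000000 := rS 0x16d31f28974097e87c0ec662a144b113583c1a2161b34225d89244026f28b2cea650d904f27b418748847 (k8 a451 a687 a699 i735 a418 a353 a331 i747 (k8 a63 i1010 a385 i1397 i1009 i959 a700 a704 (k8 a5 i483 a625 i1954 i727 i482 a17 a464 (k8 a444 a570 a77 a688 a132 i479 a81 a292 (k4 i222 a709 i1679 i1680 (k2 a99 a461 (k1 a130 k0))))))) (by decide +kernel)
def a711 : PP 8 4 T 0x2200000000000000000002000000000000000000000000012000000008000000000 := rS 0x176fd5193a1ac6628450a5d89244de750d804f27b079948e6b29964a2cb5089482c35bb34fe7da1c450283068843a44 (k8 a687 a699 i727 i482 i735 a702 a444 a84 (k8 i126 i102 a625 a537 i1954 a331 a570 i880 (k8 a385 i1397 a2 i882 a464 a451 a63 a17 (k8 a418 a353 i959 i747 i1010 i1009 a700 a704 (k8 a5 a77 i483 a688 a132 a710 a278 a263 (k2 a74 i1679 (k1 a709 k0))))))) (by decide +kernel)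
def a712 : PP 8 4 T 0x102200001000000000080000000000000000008400000000000200000000000000002 := rS 0xe06c16 (k4 i478 a596 i714 i71 k0) (by decide +kernel)
def a713 : PP 8 4 T 0x2200000000000000080042000000000040008000000000090000000008000000000 := rS 0x751b27476390205c03190791cd6f112905867738a040e5165a0c1a210e80c889125125fac53cc490a2b88d3d0ecd (k8 a625 i2490 a59 a444 i14 i1602 a436 a398 (k8 i141 a74 a711 a440 a102 a687 i221 a699 (k8 i727 i482 i735 a385 i1397 i479 a702 a675 (k8 i807 i1954 a331 a570 a76 a464 a451 a17 (k8 a390 a712 i966 a349 i1876 a435 a179 a419 (k2 a627 a619 k0)))))) (by decide +kernel)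
def a714 : PP 8 4 T 0x12200000000000000080042000000000040000000000000090000000008000000000 := rS 0x22a6f3a9846c1600014721b3d9e62485a7b2456f14389482b7669fcfb43889dce28103a0c3a0322244e64a2494596fd (k8 a74 a385 i1397 a711 a440 i1094 a102 a687 (k8 i221 a699 i735 i479 a702 a675 i807 a444 (k8 a84 i126 i102 a625 a537 a331 a570 i2490 (k8 a76 i14 a343 a59 i1602 a436 a398 a713 (k8 i785 i1875 i486 a349 i478 a596 i2640 a627 (k2 i1271 a618 (k1 a389 k0))))))) (by decide +kernel)
def a715 : PP 8 4 T 0x102200000000000000020000000000001440000400040000000000000008100000000 := rS 0x323a0c62e9c1ab3d3e3911211cac9329ac4a41 (k8 a331 a570 a464 a63 a343 a40 a688 a107 (k8 i3088 i1606 i1871 i247 a388 a399 i1512 a466 (k2 a429 i2960 k0))) (by decide +kernel)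
def a716 : PP 8 4 T 0x12200000000000000000002000000000000000000000100010000000008000000000 := rS 0x176a32714cb25165a844a415b9fcfb4340a0d8cc54599d1ec948928927738c44d60f068843ac3668448847 (k8 a451 a687 i483 a625 i1954 a699 i727 i482 (k8 a17 a464 a444 a675 i807 a711 a440 a102 (k8 a343 i1132 i490 i491 a715 a132 i735 a702 (k8 a84 i126 i102 a537 a331 a570 i880 a385 (k4 i1397 a2 i882 a278 (k2 a263 i1679 (k1 a714 k0))))))) (by decide +kernel)
def a717 : PP 8 4 T 0x2200000000000000000042000000000000000000000100010000000008000000000 := rS 0x4f2622c9b3aa746c191d8000a1b3d939e22520adcfe7da1afd02430380cc66f7ec310651659e6254f631ac1e0d61844884742b15166747b25224a248843a7738c450ecd (k8 a625 i2490 a444 a675 i807 a699 i727 a711 (k8 a440 a102 a343 i1132 i490 i491 a715 i1771 (k8 a451 a687 i483 i1954 i482 a17 a464 a132 (k8 a59 a436 a398 a385 i1397 i735 a716 a292 (k8 a357 i487 i221 i479 i41 a702 i1456 a84 (k8 i126 i102 a537 a331 a570 a76 a578 a713 (k8 i785 i486 a349 a339 i1038 a596 i1641 a627 (k4 a620 a201 a623 a192 (k1 i1113 k0)))))))))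 (by decide +kernel)
def a718 : PP 8 4 T 0x2200000000000000000002000000000000000000000100010000000008000000000 := rS 0x2da63e512e812fd0fc318cc545846220f239ad86cd039459683068843a4448a3d926725124ee71 (k8 a675 i807 a711 a440 i490 a343 i1132 a102 (k8 a687 a699 i727 i482 i735 a385 i1397 i479 (k8 a625 i1954 a464 a451 a17 a444 i483 i491 (k8 a715 a132 a716 a81 a292 i222 a717 i1679 (k4 i1680 a99 a461 a130 k0))))) (by decide +kernel)
def a719 : PP 8 4 T 0x2200000000000000000002000000000000000000000000010000000008000000000 := rS 0x2868205c25124891143b34ee71 (k8 a675 i807 a625 i2490 a444 a687 a711 a440 (k4 a718 i1765 a697 i2303 (k1 i268 k0))) (by decide +kernel)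
def a720 : PP 8 4 T 0x2000000000000000000000000000000000000000000200020000000008000000000 := rS 0x2044 (k2 i1766 i1765 (k1 i2347 k0)) (by decide +kernel)
def a721 : PP 8 4 T 0x2200000000000000080002000000000000000000000000000000004008000000000 := rS 0x11431a61728b4d9ed2e6f8c2ba18cf4fc5d06793a19a24564ea169e5535945962b43add9a7f3ed0e227740925227347aa4a659279c4ba4c (k8 a719 a720 a675 i789 a2 i882 i574 i874 (k8 i836 a110 i30 a702 i807 a444 a84 i126 (k8 i102 a625 a537 i2490 i14 a385 i1397 a464 (k8 a72 a59 i1602 i1640 a460 a436 i529 i530 (k8 a398 a68 a350 a414 i1068 a278 a108 a463 (k8 a357 i1900 a390 a41 a52 i1065 i2045 a668 (k2 a671 a57 k0))))))) (by decide +kernel)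
def a722 : PP 8 4 T 0x2000000001000000000000000000000000000000080000000000014000000001000 := rS 0x6317 (k2 a350 i1505 (k1 a429 k0)) (by decide +kernel)
def a723 : PP 8 4 T 0x2200000000000000000002000000000000000000000000000200000008000000000 := rS 0x274f3198b22862214215ccee56231c6a330203430118883c8e55358a50ec3669dce29147964ba4c (k8 a719 a720 a2 i874 a110 a675 i807 a625 (k8 i1954 i2490 i13 a464 a72 a451 a17 a444 (k8 i2347 i526 i2346 i525 i233 i354 a721 a132 (k8 a40 a722 i529 a460 i1504 i1042 a715 a429 (k4 a52 i3045 a399 a545 k0))))) (by decide +kernel)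
def a724 : PP 8 4 T 0x102200000000000001000000000000000004000400040000020000000008100000000 := rS 0xcc63173a270f4798c8d514e51131073134215caa6b48a3cb25d (k8 a720 a2 i874 a110 a464 a72 i529 a460 (k8 a77 i3088 i1771 i1772 a40 a715 i247 a52 (k8 i3045 a406 a545 i1896 a399 i1512 i2960 a429 k0))) (by decide +kernel)
def a725 : PP 8 4 T 0x2200000000000000000002000000000000000000000000000000000008000000000 := rS 0x623372888020c2b0d4e9173308484452ea3c987738b344a87149062259 (k8 a2 a444 a331 i13 i2490 a570 a625 a675 (k8 i807 a719 i874 a720 a723 a386 a686 a724 (k8 a350 a466 i1062 i1587 i441 i2258 i442 a392 (k2 i1610 i2952 (k1 a429 k0))))) (by decide +kernel)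
def a726 : PP 8 4 T 0x102200000001000000000000000000000000000000080000020000002000100000000 := rS 0x242088c0665 (k4 a63 i1002 i2952 i788 (k2 a107 a570 k0)) (by decide +kernel)
def a727 : PP 8 4 T 0x2200000000000000000000000000000000000600000000020000020000000000000 := rS 0x104481b (k4 i357 i1062 i787 a570 k0) (by decide +kernel)
def a728 : PP 8 4 T 0x102200000001000000000000000000000000000000080008020000014000000000000 := rS 0x20228c01917 (k4 a350 a722 a429 i2346 (k2 a726 i1498 k0)) (by decide +kernel)
def a729 : PP 8 4 T 0x22000000000000000001014001100004000000010080100540400815400008000408 := rS 0x4b4d4495448b4c69703bf55c834ca9cf481 (k8 a4 i395 i2200 i1106 i815 a108 a292 i460 (k8 i1900 i540 i1001 i397 i1674 i2033 a99 i200 (k1 a130 k0))) (by decide +kernel)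
def a730 : PP 8 4 T 0x2200000000000001000002000000000000000410080100020020004000000000000 := rS 0x8a260c6833cc490b4f6325d3a8b4d9ee303b5ca04df0c279459649489cd525349a1d3ea5608c5e20d07b15866b0e82c4647178694225720d4ac391b8096e7f3ed0d9e748ba3cb311 (k8 a444 a2 i874 a350 a466 i1068 a84 i126 (k8 i102 a537 i788 a446 a401 i1587 a727 a728 (k8 a409 i880 i787 i317 a451 i184 i300 i2543 (k8 a464 a468 a40 a17 a392 a198 a459 a408 (k8 a382 a414 i1707 i1369 i882 i574 i836 a110 (k8 i30 a385 i1397 i789 a230 a357 a4 i1065 (k8 a729 a419 a390 a41 a52 a347 a71 i2035 (k8 a59 i1601 a436 a398 a68 a668 i2045 a671 (k1 a57 k0))))))))) (by decide +kernel)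
def a731 : PP 8 4 T 0x20102000000000000005014004000004000004100000008100501000155000400000000 := rS 0x42d3e26c641275163b (k8 a345 a52 a347 a668 i2035 a68 a59 i1601 (k1 a436 k0)) (by decide +kernel)
def a732 : PP 8 4 T 0x2200000000000001000002000000000000000400080100020020004000000000000 := rS 0x2bd06993d0ea32818613d366230a5173153833d6e7d3fd0cca5328b2c929343a7c62f10683d8ac3358741623238bc34a112b906a563a45d1e59888e46e02 (k8 i788 a446 a401 a444 a2 i874 a350 a466 (k8 i1587 a727 a728 a409 i880 i787 i317 a451 (k8 i184 i300 i2543 a464 a468 a40 a17 a392 (k8 a198 a459 a414 i1707 i1369 i30 a385 i1397 (k8 i882 a63 a84 i102 i126 a537 i1068 a730 (k8 a117 i1408 a447 i1018 i1674 i1181 i790 a230 (k8 a4 a731 a419 i395 i1106 i816 i540 a108 k0))))))) (by decide +kernel)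
def a733 : PP 8 4 T 0x22200000000000002000002000000000040400200080100020000000000000000000 := rS 0x114382549c635dae56e6fa194ca2cb24a4d1e598bd3d027d (k8 i126 i1975 a36 a350 a2 i874 i1369 i30 (k8 a385 i1397 i882 a84 a357 a118 i1065 i1948 (k4 a668 a578 i1674 i789 (k2 a447 a117 k0)))) (by decide +kernel)
def a734 : PP 8 4 T 0x12200000002000000000000000010004000040400000000520020014000040000000 := rS 0x2e51295169c0c0d22728ccaa5608c43a0b029245e1a (k8 i787 i317 i30 i261 i300 i2543 a459 a408 (k8 a382 a63 a263 a200 a377 i790 i789 a329 (k4 i1018 i1278 i1408 i2033 k0))) (by decide +kernel)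
def a735 : PP 8 4 T 0x2200000000000000000002000000000000000400080100020020004000000000000 := rS 0x11518418ee242b6609de20d2383d8ac3358a434391b80a18a11287d4ae42b0d4e91788a4d1e516594cb27f (k8 i102 a2 i882 a385 i1397 i874 i1369 a444 (k8 a350 a466 a727 i1587 a728 a382 i1395 a409 (k8 i880 a734 i788 a446 a401 i787 a443 a464 (k8 a468 a40 a17 a451 a392 a198 a725 a732 (k4 i888 a127 i394 a68 (k2 a419 a733 (k1 a52 k0))))))) (by decide +kernel)
def a736 : PP 8 4 T 0x2200000000000000000002000000000000000400080000020020004000000000000 := rS 0x3b8c9e1145c1b8e4320225bc41a4707b1586e41a958e91747966226b (k8 a464 a444 a2 i874 a350 a466 i1587 a727 (k8 a728 a468 a40 a17 a451 a392 a198 i73 (k8 i788 i181 a401 a446 a735 i531 i532 a52 (k2 i1069 a419 k0)))) (by decide +kernel)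
def a737 : PP 8 4 T 0x20002200000000000001000002000000100000501604004000020000000000000000000 := rS 0x8a1c172913994d1e593da6d2eb73f9f68711 (k8 a444 a84 i126 i102 a537 a71 a41 a390 (k8 a2 i874 i882 i836 a110 i1065 i2045 a671 (k1 a117 k0))) (by decide +kernel)
def a738 : PP 8 4 T 0x2200000000000001000002000000000000000400080000020000004000000000000 := rS 0x4f869b9329531adcfa7fa194ca2cb25925265d40a0d17181d811e2391b8619e7989318226b07b0d8a4743a7c56442090c1ae41a9584e748ba3cb311 (k8 a444 a2 i874 a350 a466 a725 i1587 a727 (k8 a728 a392 i441 a736 a386 a371 a414 i1707 (k8 a451 a40 a468 a17 a464 i2347 a132 a275 (k8 a398 i1067 i526 i1044 i299 a198 i525 a435 (k8 a419 a52 a68 a45 a5 i1369 i30 i73 (k8 a385 i1397 i882 a84 i102 i126 a537 a668 (k4 i1674 a701 a737 a357 (k2 i1272 a278 k0)))))))) (by decide +kernel)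
def a739 : PP 8 4 T 0x400000000004002000000000000000000000000000014000000420000000000000000000000000000 := rS 0x17315 (k2 a117 i1408 (k1 a447 k0)) (by decide +kernel)
def a740 : PP 8 4 T 0x200000000000000008040a000010000000000000000000000000000000000000000 := rS 0x1747f (k2 i102 i887 (k1 a530 k0)) (by decide +kernel)
def a741 : PP 8 4 T 0x2200000000000000000002000000000000000400080000020000004000000000000 := rS 0x1c12a4e31ade1acc5fa2d06812ec6224391d8dd8c040c044564420a8486f161b144a0d7250c1e473594ca2cb1392526874f9586a748ba3cb311 (k8 a444 a2 i874 a350 a466 a727 i1587 a414 (k8 i1707 i1369 i30 a725 a385 i1397 i882 a464 (k8 a451 a17 a84 a728 a392 a409 a40 a468 (k8 a198 i441 i880 a736 a386 a371 i2347 i526 (k8 i525 a132 i1044 a435 i299 a275 a419 a5 (k8 a45 a68 a52 i1455 a738 a733 a740 a668 (k4 a278 i1674 i789 a739 k0))))))) (by decide +kernel)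
def a742 : PP 8 4 T 0x2200000000000000000002000000000000000400080000020000000000000000000 := rS 0x10c8a410d00c64012b1d22f112392d1e59 (k8 a2 i874 i73 a451 a444 a350 a466 i1587 (k8 i2258 a741 i192 i1586 i788 i269 i780 a386 k0)) (by decide +kernel)
def a743 : PP 8 4 T 0x12200000000000000001000004110000000040000000000000000000000050001500 := rS 0x19a4a36583d5a47 (k8 a451 a445 a17 a385 a263 a377 i2027 a402 k0) (by decide +kernel)
def a744 : PP 8 4 T 0x400000000004002000000000000000000000000000004000000400000000000000008000028400000 := rS 0x2511270 (k4 i781 i1343 a739 i1672 k0) (by decide +kernel)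
def a745 : PP 8 4 T 0x12000000000000000401000010110000000040000000000540400000000050005400 := rS 0xcab04b4946fc (k4 a467 a263 a377 a369 (k2 a97 i2027 (k1 a402 k0))) (by decide +kernel)
def a746 : PP 8 4 T 0x2200000000000000054004000410000010500200040100000001400044050001002 := rS 0x13acf1ca14f23e890a420c97891c1e6b (k8 a464 a17 a451 a198 a343 a132 i1835 a127 (k4 i2031 a398 a77 i296 (k2 i1067 i1591 (k1 a235 k0)))) (by decide +kernel)
def a747 : PP 8 4 T 0x2201000000000000014016000010000000500200040100060000400040050001502 := rS 0x1774f6328d4ed203aa912958a18592655689d52934798c7aae28b2ca659 (k8 a2 i882 a385 i1397 a108 i1782 i2261 i874 (k8 i1369 i574 a725 a445 a63 a343 i961 a672 (k8 a14 a337 i2040 i457 a130 a67 a99 a746 (k2 a59 i1679 (k1 a578 k0))))) (by decide +kernel)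
def a748 : PP 8 4 T 0x4002200000000000000000002000000000000400200040000020000008000010000000 := rS 0x1774f63226289551a9c103d573f6862762b0cba001d8ad02b75c9be184f059088a4b2080c3ea50d284447d06b05268f2894cb2475683d967f (k8 i102 a385 a17 a445 a451 a2 i882 i1397 (k8 i874 i1369 i1613 i1609 i126 i1585 i312 i1586 (k8 i2154 i1395 i192 i788 i73 i269 a386 i557 (k8 i2533 a745 a357 i1065 a118 a4 a416 i394 (k8 i780 a543 i2155 i2960 a725 a84 a292 a108 (k8 i1782 a747 a434 i200 i1671 a447 a337 a746 (k2 a59 i1679 (k1 a578 k0)))))))) (by decide +kernel)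
def a749 : PP 8 4 T 0x4002200000000000000000002000000000000000400000000020000008000000000000 := rS 0x11638a226820e97456427891586410b8358a870d0880631a183c8e6b1392d26673a23cb311 (k8 a444 a2 i874 a466 a742 i1369 i73 a725 (k8 a464 a451 a17 a84 i16 i192 i1585 i1586 (k8 i3020 i2960 i1609 i970 i788 i2155 i269 a198 (k8 a386 a416 a543 a744 a748 a68 a127 a275 (k2 i1835 a132 k0))))) (by decide +kernel)
def a750 : PP 8 4 T 0x400000000004002000000000000004054000000004004000800200000000000000155000008000000 := rS 0x274767b (k4 a536 i395 i1592 i2035 k0) (by decide +kernel)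
def a751 : PP 8 4 T 0x4002200000000000000054002000000000000800200000104020000014000008001000 := rS 0x3d21874858ca7862370133c80cd1c90c54290850cca5513a45268f2c91497137891c1e6b (k8 a464 a17 a451 a198 a68 i73 i269 a2 (k8 i874 i1369 a110 a725 a72 a63 a84 a132 (k8 i1835 a127 a416 i295 i889 a386 i1068 i788 (k8 a446 i1002 a750 a33 i1606 a419 a460 i395 (k1 i2572 k0))))) (by decide +kernel)
def a752 : PP 8 4 T 0x4002200000000000000014002000000000000800200000104020000014000008001000 := rS 0x77193da790ccd12b90623701100862a428e452c6789641e6523954d6272292c4713 (k8 a68 i272 i73 i269 a725 a464 a72 a451 (k8 a63 a17 a2 a198 a751 i2158 i298 i1601 (k8 a127 a416 a386 i788 a446 i1002 a429 a409 (k4 i888 a460 i1707 i2572 (k2 a33 i395 (k1 a419 k0)))))) (by decide +kernel)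
def a753 : PP 8 4 T 0x4102200000001000000000000000000000000000000000000020000014000500000000 := rS 0x40018906065 (k4 a63 a429 a107 i1002 (k2 a570 i788 k0)) (by decide +kernel)
def a754 : PP 8 4 T 0x2001000000000000000000001000000020000000004000000000000000000000010 := rS 0xc315 (k2 a337 i1278 (k1 a438 k0)) (by decide +kernel)
def a755 : PP 8 4 T 0x2200000000000000014002000110000000400200040100020080000000058001000 := rS 0x1774f6322546a71e98c10ae5cbf56e8137c30764f02800162b3f83d5a4728b2c4ea9299642ec1 (k8 i1247 i66 a2 i882 i574 a725 a385 i1397 (k8 a451 a445 a17 i102 a416 i557 i780 i518 (k8 i2533 i394 a745 a357 a4 a118 a292 i1065 (k8 a108 a747 i2261 i1782 a434 i200 a754 a746 (k2 a59 i1679 (k1 a578 k0)))))) (by decide +kernel)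
def a756 : PP 8 4 T 0x4000000000040020000000000000000000000000000040000004000100000a0000000000000000000 := rS 0x254e060 (k4 i790 i789 i1018 a739 k0) (by decide +kernel)
def a757 : PP 8 4 T 0x2001000000000000000000000080000000000000000000000400000000000000440 := rS 0x12d3 (k2 a99 i200 (k1 a130 k0)) (by decide +kernel)
def a758 : PP 8 4 T 0x400000000004002000000000000000001010000140014000000000000000000000015500000000000 := rS 0x11114 (k2 a447 i2033 (k1 a337 k0)) (by decide +kernel)
def a759 : PP 8 4 T 0x800400000000004002001001000000000015010080100044004400000400115000400015414008000408 := rS 0x7b1d27528a31681d4e2a89a118ecd4fb3c7237 (k8 a446 a401 a3 a26 a36 a59 a460 a77 (k8 a127 i333 i460 i1001 a757 a758 i1678 i2035 (k2 i1895 i395 k0))) (by decide +kernel)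
def a760 : PP 8 4 T 0x4002200000000000000000002000000000000000400000100020000000000018001000 := rS 0x230624e9862a94518b40ea71527e268467b35754f4bab972fd5ba04de371c82e1802149008687419fcaa516589c92915494cae6727a4ccb432292c3ea5188bd422578b0c8e0f62b904621198d4e88f2cc44d6c1 (k8 i1247 a464 a444 a2 i874 a466 a727 a749 (k8 i2539 i272 a753 a40 a17 a451 a468 a198 (k8 a409 i880 i317 a459 a382 i1396 i73 i269 (k8 a84 a63 i1369 a756 a742 i529 i882 i574 (k8 a110 i30 a725 a385 i1397 a72 i102 a752 (k8 i933 a755 a386 a443 i788 a734 i300 a401 (k8 a446 a357 a4 a118 a292 i1065 a108 i1900 (k8 a759 a578 i1948 i1951 a460 a77 i1606 a127 (k8 i333 i460 i1001 a757 a758 a14 i1018 i1678 (k2 a672 a463 (k1 a731 k0))))))))))) (by decide +kernel)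
def a761 : PP 8 4 T 0x2000001000000000000000000000000000000000000200020000000000008000000 := rS 0x371c808523b8c900f08a218648a4b (k8 i73 i269 i67 a543 i531 i532 a386 a52 (k4 i1069 a443 i788 i1851 (k2 a446 a419 k0))) (by decide +kernel)
def a762 : PP 8 4 T 0x4002200000000000000000002000000000000000400000000020000000000008001000 := rS 0x80210b16e7020871065d7883c8e6b1395cce4f49996864525b1586e41188466353a23cb311 (k8 a444 a2 i874 a466 a727 a749 i2539 i272 (k8 a753 a468 a40 i73 i269 a84 a63 i1369 (k8 a756 a742 i529 a725 a464 a451 a17 a198 (k8 a761 a752 a760 i741 i781 i721 i782 a386 (k2 a641 i2828 k0))))) (by decide +kernel)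
def a763 : PP 8 4 T 0x4002200000000000000000002000000000000000400000000020000000000008000000 := rS 0x18e4118846a74479662233 (k8 a749 a444 a2 i874 a466 a727 i2539 i272 (k2 a753 a762 (k1 a392 k0))) (by decide +kernel)
def a764 : PP 8 4 T 0x4002000000000000000000000000000000000000000050000000000014000000002001 := rS 0x10c00ae5 (k4 a392 i521 a429 a349 (k1 i1002 k0)) (by decide +kernel)
def a765 : PP 8 4 T 0x4002200000001000000000002000000000000000200040000020000014000404000000 := rS 0x2acc2634abf2282d6981c16b90491038a40c0802e1f88b25960f56aa4a693479641a04018c0ca01 (k8 i446 a63 a429 i1002 a349 a764 a2 i874 (k8 i1369 i882 i574 a445 a17 a385 a343 a444 (k8 i1396 i971 a753 a437 i728 i727 i228 i2105 (k8 i2718 i361 i1380 a341 i1383 a658 a130 a14 (k4 a51 a397 a97 i2040 k0))))) (by decide +kernel)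
def a766 : PP 8 4 T 0x22002000000000040010400000000000000000000400100100404000040800005000 := rS 0x22c7533c586cd1ed1504af (k8 a427 a292 a48 i1256 i895 i251 a198 a442 (k2 i337 i1912 (k1 a132 k0))) (by decide +kernel)
def a767 : PP 8 4 T 0x400000000000002000000001000000001000000000000000000044400100540400006044820005420 := rS 0x8b1d4cf161b347b45412bc0cfd40c322a714a2257ea25ba94123f698858a16 (k8 i1572 i1576 i11 a341 i1422 i1261 i1382 i721 (k8 a393 i3031 i280 i1651 i710 a14 a389 a4 (k8 a766 a130 i2338 a108 a48 i1256 i895 i251 (k4 a198 a442 i337 i1912 (k1 a132 k0))))) (by decide +kernel)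
def a768 : PP 8 4 T 0x400000000000002001000001000040011000000000000000000000400100540400002000810005520 := rS 0x458ea678b0d9a3da2a095e3f5f81944b740a943f0c (k8 a467 a81 i248 a4 a577 a393 a130 i3031 (k8 a458 i2338 a108 a48 i1255 i895 i251 a198 (k4 a442 i337 i1912 a132 k0))) (by decide +kernel)
def a769 : PP 8 4 T 0x400000000005002001000001000000411010011000004000000000450100540400002000810005420 := rS 0x28c0ed25598812614a2943f0c (k8 a467 a81 i248 a447 i1018 i263 a438 i537 (k4 a768 a402 a99 i2027 k0)) (by decide +kernel)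
def a770 : PP 8 4 T 0x2200000000000000008406000100000000100000000100040000000000800000000 := rS 0x41aed994f (k4 a13 i251 i1945 i895 (k1 a578 k0)) (by decide +kernel)
def a771 : PP 8 4 T 0x2201000000000002000002000000000000400000000100040000000000000000000 := rS 0xbba7add030c29964a2cb (k8 a385 i1397 a2 i882 a467 a4 a577 a36 (k2 i1948 a578 k0)) (by decide +kernel)
def a772 : PP 8 4 T 0x2000000000000000014000000000000002000000400100000400000044000005000 := rS 0x101431e26f1 (k4 a198 a77 i1602 a127 (k2 a132 i1835 k0)) (by decide +kernel)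
def a773 : PP 8 4 T 0x2000000000000000000000000000000008000200000000000000000000000800000 := rS 0xf09e (k2 i1707 i1708 (k1 i2650 k0)) (by decide +kernel)
def a774 : PP 8 4 T 0x4002201000001000000001012000000000004000000040000060000002000810001020 := rS 0x836621586bf5501c12a331a252b145287d030c5bd0c1e655691caa6b28b2d52934795d8a2715a44ba0b21058a659 (k8 a2 i882 i1572 i707 i557 a543 a110 i898 (k8 a725 i1576 i529 i874 i1369 i574 a385 i1397 (k8 a464 a72 a451 a445 a63 a17 a84 a577 (k8 a467 a4 a81 i248 a769 a14 a337 a51 (k8 i1651 i262 i519 i2027 a367 a770 a772 a460 (k2 i895 a771 k0)))))) (by decide +kernel)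
def a775 : PP 8 4 T 0x2200000001000000001802004000000000000000000000000000002000800001500 := rS 0xcd25287d47436583d5a47 (k8 a451 a445 a17 a385 a84 i3031 i2926 i248 (k2 a393 i2027 (k1 a402 k0))) (by decide +kernel)
def a776 : PP 8 4 T 0x2202000001000002010412000010000000000000040100060000000000000001000 := rS 0x1e2c761ad9068142d3cfa7f88d0d920f3291cd6516589ce65349a3cb2af (k8 a427 a2 i874 i1369 i882 i836 a725 a385 (k8 i1397 a464 a451 a63 a17 a343 a84 a444 (k8 i102 i126 a36 i128 i1975 i895 a108 a308 (k2 a740 a198 (k1 a379 k0))))) (by decide +kernel)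
def a777 : PP 8 4 T 0x4002200000001000000000002000000000000000200040000060000014000004000000 := rS 0x8461b357eab04bf10e1d3782cbab9210ac2cc5110100630a183c8e55359459627489cca6592bb054225208340265 (k8 a63 i446 a764 i787 a570 i880 i1248 i529 (k8 a2 i882 i836 a110 a725 a385 i1397 a464 (k8 a72 a451 a17 a84 a429 i1002 a349 a765 (k8 i1576 i1572 i898 i707 i2647 a543 i557 i1399 (k8 a767 a773 a774 a369 a97 a775 a776 i251 (k2 a460 a772 k0)))))) (by decide +kernel)
def a778 : PP 8 4 T 0x102000000000000001014000000000000000000200400015020600044004000005000 := rS 0x4327e2718428e476c60204456f1 (k8 a198 a371 i2347 i525 a132 a435 i298 i1602 (k4 a419 a143 a33 a275 (k1 i1707 k0))) (by decide +kernel)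
def a779 : PP 8 4 T 0x2200000000000001014002000000000000000200000004020010004000002001001 := rS 0x1dc64f69e898e50c850117456052111622592aa45e247079ac6e27 (k8 a725 i1044 a464 a17 a451 a198 a110 a72 (k8 a2 a444 a778 a386 i228 a416 a543 a349 (k8 a772 a460 a401 a143 i1707 i2572 a33 a203 (k1 a419 k0)))) (by decide +kernel)
def a780 : PP 8 4 T 0x4002200000000000000000002000000000000000400000000020000000000000000000 := rS 0x38b68682d5efc41c4852811597598187885d863162b901aa112804821b278cc6a743ec46860f3291cd65328b2c4e9347964ae67 (k8 a742 i529 a2 i874 i1369 a725 a385 i1397 (k8 i882 a464 a451 a63 a17 a84 a444 i126 (k8 a466 a727 a749 a756 a763 i787 i446 a570 (k8 i880 a764 a777 a40 a459 a468 i970 a198 (k8 a437 a779 i1970 i888 i1975 i1968 a127 a68 (k4 a771 a427 a70 a292 (k2 a108 a230 (k1 i721 k0)))))))) (by decide +kernel)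
def a781 : PP 8 4 T 0x2202000002000002000002000000000000400000000000000000000000000000000 := rS 0x1c5b4349e0b5794cb2516589cba6b409f54225 (k8 a409 i880 i126 i1975 a464 i1970 a725 a385 (k8 i1397 a2 i882 a427 a70 a74 a292 a108 (k2 a230 i721 k0))) (by decide +kernel)
def a782 : PP 8 4 T 0x20000000000000000010100001000140000000040000004a0000015000042000000 := rS 0x1462f69010884316a24821b259c0c649 (k8 i30 i1351 i789 i73 i67 i181 i230 i1039 (k4 a673 a386 i525 a600 (k2 i316 a99 (k1 i2033 k0)))) (by decide +kernel)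
def a783 : PP 8 4 T 0x400000000000000002000000001000000010404000410000000500000000000000001000056050000000 := rS 0x61bc47cc7 (k4 i410 i2031 a6 i376 (k1 a379 k0)) (by decide +kernel)
def a784 : PP 8 4 T 0x20002200000000000004000000000001000000000000040000000000000000000000000 := rS 0x8b4fb24ca6b (k4 a464 a63 a343 a33 (k2 a52 a388 k0)) (by decide +kernel)
def a785 : PP 8 4 T 0x80022010000010000020000020004000000004000000000000a0024000000000000000 := rS 0xa98e3d523494624448c45ac11782c46020e868531123a4d1e3519ae69e216289d027d5b94596532ca84c6494a9943e0730454e0bf (k8 i1455 i789 a117 i790 i2819 i2838 a63 i1018 (k8 i30 i1351 i2546 a2 i882 a385 i1397 a577 (k8 i126 i1975 a725 i1791 i729 a36 a465 a360 (k8 a348 i874 i1369 a451 a444 a443 i787 i2543 (k8 i788 i184 i300 i317 i1247 i1239 i1002 i191 (k8 a107 a757 a120 i2033 a335 i414 a783 i889 k0)))))) (by decide +kernel)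
def a786 : PP 8 4 T 0x80020000000010000000000020000000140000000000000004a0000000001100000000 := rS 0x614a310d88983111a8ccdeb90b87cc070 (k8 i789 i790 i2838 i2463 a465 i1399 a360 a348 (k8 a444 i1248 a107 i272 i1572 i248 a437 a782 k0)) (by decide +kernel)
def a787 : PP 8 4 T 0x20000000000080022010000010000020000020000000000000000000000000a0000000000000000000 := rS 0x7e8353b485a1d8a9c05e1a50a24044012254c0651089d268f29964c649 (k8 i30 i1351 a2 i882 i874 i1369 a725 i729 (k8 a63 i790 i1018 a786 a570 i788 i191 i2546 (k8 i787 i317 i789 a117 i2543 i1239 a120 a67 (k2 a48 a80 (k1 a785 k0))))) (by decide +kernel)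
def a788 : PP 8 4 T 0x22010000010000020000020000000000000004000000000a0000000000000000000 := rS 0x788ac7cc75f44d7a824d5154889188b5822f0107434a31490049154aa5d326338181426529925268f2c8d466b98ca759f1633a144227 (k8 a725 i729 i128 a742 a780 a368 a399 a784 (k8 a465 a360 a348 a2 i874 i1369 i30 i882 (k8 a63 i2546 i790 i789 i1351 a448 a449 i1018 (k8 a117 a786 a570 i353 i324 i787 i2543 i788 (k8 i317 i1247 i1239 i1002 i191 i2033 a787 a422 (k8 i1447 i2905 a68 i895 i415 i1451 i889 a6 (k1 a127 k0))))))) (by decide +kernel)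
def a789 : PP 8 4 T 0x2201000001000002000002000000000000000400000000020000000000000000000 := rS 0x6330c5534703d44d044f48aa4a6598ca74ce5d359e59f16 (k8 a780 a368 i1972 a464 i1970 a742 a399 a784 (k8 a2 i882 i574 a110 a788 a771 a68 a406 (k4 i815 i816 a117 i1279 (k2 a412 a438 k0)))) (by decide +kernel)
def a790 : PP 8 4 T 0x10002202000000000002000010001000005000801000040000000000000000000000000 := rS 0x9531a68f4bb89add92cb32ab4c2ab (k8 a97 a397 a445 a63 a385 a343 i151 a68 (k4 i1948 a406 i816 a412 (k2 i1182 i2040 k0))) (by decide +kernel)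
def a791 : PP 8 4 T 0x2200000000000002000002000000000000000400000000020000000000000002000 := rS 0x62371c8ed869f5080834b686afd464041aac9eaf123f0562372b1cff11a1994a2cb489cd525349a3cb2571a8cd73194e99cba6b10b144e813e9e59f16 (k8 a780 a368 i1972 i126 i1975 a725 i1791 i729 (k8 a464 i1970 a742 a399 a784 a465 a360 a348 (k8 i529 a2 i874 i1369 i882 i574 i836 a110 (k8 a385 i1397 a63 a84 a444 i102 a342 a392 (k8 i1569 i889 a789 a107 a427 a74 a97 a790 (k8 a570 i1647 i1455 a292 a108 i787 i788 i881 (k4 a563 a307 i394 a401 (k2 a446 i1002 (k1 i2035 k0))))))))) (by decide +kernel)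
def a792 : PP 8 4 T 0x2200000001000002000002000000000000000400000000020000000000000000000 := rS 0xc7788fd86a55109174a05b2fd064f57bf0fe0f2394596915494d268f2cae6329d33d3cba6b6289d027d3cb3e2c0d (k8 a791 a780 a368 i1972 i126 i1975 a725 i1791 (k8 a464 i1970 a36 a742 a399 a784 a465 a2 (k8 i874 i1369 i882 i574 a110 a385 i1397 a451 (k8 a17 i102 a789 a427 a74 a790 i1455 a108 (k8 a776 i887 i880 i881 i364 i1945 i2236 a198 (k2 i1680 a379 k0)))))) (by decide +kernel)
def a793 : PP 8 4 T 0x2200000000000002000002000000000000000400000000020000000000000000000 := rS 0x51a245a0b01074802f218688a1903a54c6700b9816e4e7ea0e2429788ad421f618c44ac152b901a8162974fa0f3291cd65328b2c4e4949a3cb235199bd7316 (k8 a780 a465 i1399 a360 a348 a2 i874 i1369 (k8 i30 a725 a385 i1397 i882 a464 a451 a63 (k8 a17 i126 i1970 i1791 i1975 a791 a792 a382 (k8 a408 a409 a459 a468 i1395 i880 i888 a198 (k8 i1968 a127 a68 a781 a771 a577 i790 i2463 (k8 i789 i1351 i1018 i2819 a782 i526 a437 a641 (k8 i317 a386 i2543 i788 i300 i1239 i191 a757 (k1 i2033 k0))))))))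 (by decide +kernel)
def a794 : PP 8 4 T 0x2200000000000005000000000001001004000000040104000000000000000000000 := rS 0x114784fa11925932954d719 (k8 a784 a464 a72 a63 a2 a343 a460 i1606 (k2 a545 a388 (k1 i1853 k0))) (by decide +kernel)
def a795 : PP 8 4 T 0x10002000001000000000000000000000000000000000000200020000000004000000000 := rS 0xe856372206082390b86cf043 (k8 a543 i532 a761 i707 i1852 i787 a437 a386 (k4 i1044 a371 a419 i1070 k0)) (by decide +kernel)
def a796 : PP 8 4 T 0x2200000002000000000002000000000000000400000000020000000000004000000 := rS 0x3001208cc2e744f22d92783dc4d0c5d78b0c8e0f06b14d6276695d23194eb3e2c67 (k8 a742 a780 a368 a399 a784 a110 i529 a793 (k8 a725 a464 a40 a392 a17 a451 a468 a198 (k8 a795 a794 a69 i2572 a406 a343 i1853 a191 (k4 i1075 i2650 a360 i787 (k2 i446 a437 (k1 a779 k0)))))) (by decide +kernel)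
def a797 : PP 8 4 T 0x2200000002000000000002000000000000000400000000020000000000000000000 := rS 0x8b1c703b0d0dd3c8b3c1ee26862ebc5863162835920f239ac4e912b8ce329d67c58cecd (k8 a793 a742 a780 a368 a399 a784 a360 i529 (k8 a110 a725 a464 a451 a17 a343 a392 a40 (k8 a459 a468 a198 a795 a794 a69 i2572 a406 (k8 i1853 a191 i996 a796 i395 a419 i298 i3079 (k1 a132 k0))))) (by decide +kernel)
def a798 : PP 8 4 T 0x10102200000000000001008000000000000000000000000004000000150002000000000 := rS 0xad0d1378214774f2c9545240 (k8 a570 a443 a72 a2 a13 i373 i1866 a419 (k4 a143 a436 a61 i927 k0)) (by decide +kernel)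
def a799 : PP 8 4 T 0x2200000000000000000002000000000000000400000000020000000000008000000 := rS 0x18a3b4fbc0f05c43b0c62371c808802411884331132a44ae3519c653acf8b19d9ae5 (k8 a797 a793 a742 a780 a368 a399 a784 a360 (k8 a348 i529 a110 a63 a444 i67 i2539 i272 (k8 a107 a570 i788 a401 a446 i1002 a798 i928 (k4 a794 i532 a761 i1076 (k2 i1069 a49 (k1 a262 k0)))))) (by decide +kernel)
def a800 : PP 8 4 T 0x2200002000000000014002000000000000000400000000020000000000000000000 := rS 0x793da78eb13430c472852e80840420288c8a0c1b8ee2259079948e5535a44ae3519c653acf8b19d9ae500894821b (k8 a799 i787 a570 i446 a797 a793 a742 a780 (k8 a368 a399 a784 a360 a348 i529 a110 a464 (k8 a72 a451 a63 a17 a2 a444 a333 a376 (k8 a198 i2346 i1569 i521 a386 a107 a349 a543 (k8 i1503 a401 i1002 a794 a143 i1499 a262 i2572 (k2 i1075 a406 k0)))))) (by decide +kernel)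
def a801 : PP 8 4 T 0x2200000000000000014002000000000000000400000000020000000000000000000 := rS 0x183a05d3c8b069e18c7b89d3d0c5d78b244e912b8ce329d67c58cecd72904021b (k8 a799 i446 i787 a797 a793 a742 a780 a368 (k8 a399 a784 a360 i529 a110 a725 a343 a800 (k8 a795 a794 a20 a69 i2572 a379 a406 a342 (k4 i1853 a191 i2650 i1075 (k2 a437 a779 k0))))) (by decide +kernel)
def a802 : PP 8 4 T 0x2200000000000000008002000000000000000400000000020000000000000000000 := rS 0x2705c10af539e05a0705af0f61c5228d0d13100dc7e85118f4234f3fc45960f2a9aca65925a44aeb98ca759f1633afd9ae560894821b (k8 a799 i787 a570 i1248 a797 a793 i1456 a742 (k8 a780 a368 a399 a784 a465 i529 a110 i73 (k8 a2 i882 a464 a72 a17 a385 a444 i102 (k8 a13 i1952 i1959 i251 i1867 i376 i1956 a107 (k8 a143 a436 i1649 i728 i727 i2572 i934 i361 (k8 i1379 i1383 a406 i1985 i1986 a384 i972 i1261 (k1 a580 k0))))))) (by decide +kernel)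
def a803 : PP 8 4 T 0x2200000000000000000002000000000000000400000000020000000000000000000 := rS 0x114862a43175e2c46190436cd8ca759f162b99c4e91 (k8 a110 a725 a742 i529 a780 a368 a399 a784 (k8 a793 a799 i787 a802 a801 a49 a795 a794 (k4 i1524 a416 a371 a386 k0))) (by decide +kernel)
def a804 : PP 8 4 T 0x10002000000000000004000002000000001008000800000000000000000000000000000 := rS 0x9e3da769f17 (k4 a332 a20 i1645 i2572 (k2 a463 i1716 k0)) (by decide +kernel)
def a805 : PP 8 4 T 0x2000000000000000000002000000000002000800000000000000000000200000000 := rS 0x69a245e2d0e0cd461b3fae22a70 (k8 i807 a117 i808 i102 i2539 i1649 i2967 i727 (k4 i1240 i1138 i1404 a341 (k1 a120 k0))) (by decide +kernel)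
def a806 : PP 8 4 T 0x10002200000000000005020002000000000000000000000000020000000000000000000 := rS 0x371d8d03424108e4f6784221e22592a9ad22752b9d896e511975e227 (k8 a725 a49 a795 i1576 a40 i73 a803 i1628 (k8 i79 a110 a464 a72 a2 a444 a804 a460 (k8 a669 i1896 i3081 a805 a107 i803 i804 i395 (k2 i1120 a419 k0)))) (by decide +kernel)
def a807 : PP 8 4 T 0x2200000000000008020000000000000000000000000000000000000000000000000 := rS 0x40a031a0d9920f (k8 a17 a343 i1793 i1794 a446 i354 i1114 a349 k0) (by decide +kernel)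
def a808 : PP 8 4 T 0x2200000000000001020002000000000000000000000000020000000000000000000 := rS 0x1048a43100a90d1314a14ba9d45c619ef188964aa6b1395cec4b (k8 i73 a803 i1628 a725 a464 a72 a2 a444 (k8 a49 a807 a806 a52 a347 i531 i1631 i1841 (k8 a143 a460 a127 i1523 a416 a371 i2498 a386 k0))) (by decide +kernel)
def a809 : PP 8 4 T 0x2000000000000000000002000000000000000800000000000000000000200000000 := rS 0x44b4c5e2d0e28c367f5c05e2a70 (k8 i807 a117 i2470 i808 i102 i2539 i1649 i727 (k4 i1240 i1138 a341 i1343 (k1 a120 k0))) (by decide +kernel)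
def a810 : PP 8 4 T 0x402000000000000000000000040000540000800020004000420000500004044400000 := rS 0x29788f816a717b4812041e91056374490c302d20bf49c07305162aa9 (k8 i574 a117 a48 a162 i2819 i1279 a397 i787 (k8 i1240 a437 a673 i230 i1044 i387 a386 i1256 (k8 i525 i222 a600 i316 a67 a82 i2034 a556 (k2 i256 a127 k0)))) (by decide +kernel)
def a811 : PP 8 4 T 0x20002200000000000001000002000000000000000000000000020000000000000000000 := rS 0x3944aa4618f94ea3448dc5a3d058083a40218bc46450d01c9cfd302655f455e2090d13429752e9d458e5363b8891caa6b13aa4a6593a95c96953f85d431531b2c3eb838084ecbf (k8 i1456 a803 a809 i807 i808 i2898 a385 i1405 (k8 a117 i2562 i2470 i102 i1675 i73 i1628 i79 (k8 a2 i882 i574 a725 a464 a72 a451 a444 (k8 a345 a41 a42 a52 a347 a71 i531 i1631 (k8 a143 a460 i933 i934 a48 i1986 i1991 a162 (k8 a397 i1279 i2819 a810 i269 i273 i317 i2533 (k8 a386 i2543 i788 i300 i1255 i1239 a446 i191 (k8 a757 i1985 i2034 i376 i1411 i928 a382 a107 k0)))))))) (by decide +kernel)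
def a812 : PP 8 4 T 0x10002000000000000000000022000000011008000020000000000000000000000000000 := rS 0x99a2a6d2ebc411ed3b15 (k8 a117 i1645 i2572 i933 i934 i1410 i1448 a48 (k2 i1991 a422 k0)) (by decide +kernel)
def a813 : PP 8 4 T 0x2200000000000081000202000000000000000000000000020000000000410000000 := rS 0x1841072bc4130d7e13d00614b0fd38c7422be9f113594552532ca862a6365b16267843c6570704a9fd2276038f54e0b (k8 a82 a67 a335 a402 a803 a110 i102 i1675 (k8 i807 i808 a811 a812 a669 a398 a808 a385 (k8 i1405 a117 i2562 a2 i882 i574 i1397 a464 (k8 a444 a128 i1986 a436 i1601 i1631 i1412 i1911 (k8 a449 i1855 i790 a438 a4 a369 a567 a230 (k2 a384 a379 (k1 i1952 k0))))))) (by decide +kernel)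
def a814 : PP 8 4 T 0x10002200000000000000010500001002444010000020004000020000400500008000000 := rS 0x1089c413000dfa38550fd76afa22646ecb569ac8a4b1ea9da515 (k8 a117 a120 a67 a335 i73 i269 a464 a445 (k8 a385 i1779 i1943 a422 a381 a29 a80 a391 (k8 i2034 a97 a401 a438 i788 i1279 a386 i2533 k0))) (by decide +kernel)
def a815 : PP 8 4 T 0x2200000000000001000002000000000010000000000000020000000100008000000 := rS 0x70291b8fd324078228865c42a752ebd538f5a45535aa4a69347964af1531b2d7ec54d9bc8a4b119d45ea11d9e10f195c1c12a7f489d8321d (k8 i782 i67 a803 a110 i102 i1675 i807 i808 (k8 a811 a812 a669 i1069 i2562 i317 i79 i273 (k8 i73 i269 i1400 i1073 a808 i1456 a385 i1405 (k8 a117 i1628 a2 i874 i1369 i882 i574 a464 (k8 a72 a120 a335 a67 a813 i1409 a814 i1631 (k8 a460 a543 i531 a761 a386 i1939 a6 a376 (k2 a443 i2034 (k1 i1851 k0)))))))) (by decide +kernel)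
def a816 : PP 8 4 T 0x102000000000000000000020000000004020000800000000000000000000500000000 := rS 0x728954835 (k4 i359 i1403 i804 a382 (k1 a107 k0)) (by decide +kernel)
def a817 : PP 8 4 T 0x2200000000000001000002000000000000000000000000020000000000008000000 := rS 0x4230c1a5d15b90842520870588911916220f23954d62749a3cb2752b92c42c543c6570704a9d8fe91 (k8 a110 i102 a803 i1675 i807 i808 a811 a812 (k8 a808 a809 i73 i1628 i79 a2 i874 i1369 (k8 a725 a464 a72 a451 a17 a444 i269 i273 (k8 a816 a815 i1239 i2543 a570 a386 a107 a416 (k4 a543 a392 a468 a460 (k1 a772 k0)))))) (by decide +kernel)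
def a818 : PP 8 4 T 0x2000000000000000000000000000000000000000000000000010000080000000000 := rS 0x8a43 (k2 a416 a371 (k1 a386 k0)) (by decide +kernel)
def a819 : PP 8 4 T 0x4102200002000000001010000000000000000000000000000020200000000102000000 := rS 0x4633728d584040683c8e6b (k8 a464 a451 a17 i2346 i525 a198 i354 a468 (k2 i2112 i251 (k1 a753 k0))) (by decide +kernel)
def a820 : PP 8 4 T 0x2200000000000001000002000000000000000000000000020000000000000000000 := rS 0x31c8c311a10665d011080a45780ec56370c09402411c86cf0878cb1622590791caa6b13a462e5725a54fe705c05c4276 (k8 a803 a809 i2470 i808 i807 i102 i1675 i73 (k8 i1628 a332 a110 a725 a464 a72 a451 a17 (k8 a2 a444 a808 a811 a812 a669 a817 i1852 (k8 i787 i446 i803 a437 i1044 a818 i1070 a419 (k8 a819 i228 a386 a349 a543 i192 a460 i1625 (k4 i1867 a107 a199 a392 k0)))))) (by decide +kernel)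
def a821 : PP 8 4 T 0x20000000000000000000000404000000000000200000004a0004000000044400040 := rS 0x58f5a409020448889218605a41 (k8 i787 i1240 a437 a673 i230 a386 i2347 i525 (k4 i222 a600 a335 a82 (k1 a384 k0))) (by decide +kernel)
def a822 : PP 8 4 T 0x2200000000000000000002000000000000000000000000020000000000000000000 := rS 0x318683a1eb48722d010748089218bc46450d0fd4eaf03d109c604da646f194baed06ce3d275025da7b30421f31c5542175bae0e0753b24d1e4b3ec44d6532c9459627 (k8 a725 a385 i1397 a2 i882 a464 a444 i126 (k8 i73 i874 i1369 a803 i79 i807 i808 i2563 (k8 i2470 i2562 a117 i1405 i2898 a809 a820 a36 (k8 i1970 i1975 i1910 i809 i810 i2564 i1948 i1410 (k8 a390 i1775 i1940 i1447 a672 a578 a422 i2819 (k8 a381 a410 a80 a821 i269 i273 i317 a641 (k8 a816 a386 i2543 i788 i1239 a401 a120 a335 (k4 i2034 i1145 i1146 i2242 k0)))))))) (by decide +kernel)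
def a823 : PP 8 4 T 0x2200000000000000000002000000000000000800000000000020000000008000000 := rS 0xa303b481aa516b903ac112aac9e091abf0000b17a24c6a930c540a9350ae0e04947c4592cb07ab4aa21019344647 (k8 a451 i184 a822 i189 i2539 a72 a445 a17 (k8 a385 a343 a444 i125 i751 i807 i808 i2562 (k8 i1369 i261 a117 i1280 i1139 i1405 a816 i317 (k8 i300 a349 a438 i1114 a369 a74 a97 i804 (k8 i1250 i741 a107 i1239 a382 a392 a120 a402 (k2 a99 i2027 k0)))))) (by decide +kernel)
def a824 : PP 8 4 T 0x2200000000000080000020000000000000000200000000540000011000450000000 := rS 0x435c86e19c5d420b (k8 a82 a344 a465 i1585 i1065 a429 a357 a200 k0) (by decide +kernel)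
def a825 : PP 8 4 T 0x2002000000000000080000004041000000000105000001100540004000000008000101 := rS 0x123131ca0a3210038f54e0b (k8 a82 a67 a335 a402 a384 a561 a108 i1874 (k2 a68 i913 (k1 a406 k0))) (by decide +kernel)
def a826 : PP 8 4 T 0x2200000000000000000402080000001000805000000000000004008000000001020 := rS 0x62845869d45b3e30cd89c46860f23a1d7a6b (k8 a464 i1986 i934 a451 a17 a84 a444 a68 (k8 i895 a406 a569 a52 a347 i291 i523 i1615 (k1 a187 k0))) (by decide +kernel)
def a827 : PP 8 4 T 0x2002200000000000080000426000000000000100000001100040024001000008000100 := rS 0x466269a1520d229f43af55c0f3589ce629548f54ea1378c8f6790085c1a042412d1c750e8d446470f94596532c9c4ef17649352e99 (k8 a57 a24 a822 a343 a465 a823 i1408 a2 (k8 i882 a385 i1397 i183 a451 i184 i357 i781 (k8 a824 a201 i1132 a440 i748 i522 i66 i958 (k8 a353 a418 i873 i1400 a344 a67 a335 i1139 (k8 a443 i2600 a725 a464 a17 a825 i1986 i934 (k8 i1190 a178 a826 i2031 i2045 a8 a41 a406 k0)))))) (by decide +kernel)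
def a828 : PP 8 4 T 0x2000001000000000000000000000800000000000000000000000500100000000000 := rS 0x6f19 (k2 a41 i994 (k1 a419 k0)) (by decide +kernel)
def a829 : PP 8 4 T 0x2002200000000000000000404000000000010105054000000000008008102008001020 := rS 0x628453a8b63c619b134126d223961bc41e47358ed2e99 (k8 a57 a24 i395 a464 a451 a17 a6 i376 (k8 i296 i913 a828 i2045 a68 i895 a406 i411 (k4 a52 a347 i523 i1615 (k1 a132 k0)))) (by decide +kernel)
def a830 : PP 8 4 T 0x22002200000000000000000402001000000000805000001000000004008000000001020 := rS 0x15c91 (k2 a25 a561 (k1 a826 k0)) (by decide +kernel)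
def a831 : PP 8 4 T 0x2200000000000000000000000004002000000000000000002000009002008000000 := rS 0x61a18540f239ac0217 (k8 i66 i958 a464 a451 a17 i912 a178 i2174 (k1 i928 k0)) (by decide +kernel)
def a832 : PP 8 4 T 0x2200000000000080000022000000000010000000001000040020000100008000000 := rS 0x1069b8c2453ecd899707e994bc50d6735498cde243d9e502b786284febf7eaa8120b07a94640d02120968e3a87446470f94596532c9c62ec9268c582353b81d46ad (k8 a445 a99 a402 a823 i357 i1250 i986 a822 (k8 a343 a465 i1408 a2 i882 a385 i1397 i183 (k8 a451 i184 i781 a824 a201 i1132 a440 i748 (k8 i522 i873 i288 a17 a82 i262 i2027 a97 (k8 a367 i102 a344 a745 a118 a4 a353 a418 (k8 i872 i1400 i1405 i1139 i2600 a464 a438 a24 (k8 a57 a829 a827 a5 i1970 i1188 a831 a406 (k2 a41 a830 (k1 i2045 k0))))))))) (by decide +kernel)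
def a833 : PP 8 4 T 0x20002200000000000000000404000000140000105054000000000000008002000001020 := rS 0x18ccd6284586824ea2c729b4883c8e6b (k8 a464 a451 a17 a25 a41 a42 a52 a347 (k4 i2045 i290 i523 i1615 (k2 i895 a132 (k1 i411 k0)))) (by decide +kernel)
def a834 : PP 8 4 T 0x10002000000000000080000004000000141010105054000000000000400114050000000 := rS 0x72f14d0f9062b890f54ea1 (k8 a344 a67 a335 a406 a8 a68 i2031 i2045 (k2 a6 i296 (k1 a828 k0))) (by decide +kernel)
def a835 : PP 8 4 T 0x2200000000000080000022000000000010000000000000040020000100008000000 := rS 0xc74f0e121194ba64c0bf5ba05550c0483476043c9ed4a48120c8968e379d4fec907ab4a65913934e6290f945962323c5d82350e9c4ee3103a8416a3 (k8 a99 a82 a344 a402 i986 a823 i1408 i781 (k8 i357 i1250 a465 a451 i184 a385 i1397 i183 (k8 a443 i2600 a822 a725 a2 i882 a445 a17 (k8 a343 i102 a824 i1400 a201 i1132 i873 i872 (k8 a440 i288 a418 a353 i748 i395 i522 i262 (k8 a745 i2027 a4 a118 a367 a832 a448 a449 (k4 a833 a834 i913 a831 (k2 i2181 i1711 k0)))))))) (by decide +kernel)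
def a836 : PP 8 4 T 0x2200000000000000000022000000002000100010000000000000001000008000000 := rS 0x18ec3120c8220d470118a75240dc54383792c1e47359342f17 (k8 a465 i66 a822 a464 a451 a17 a102 i1172 (k8 i913 i912 i992 a440 i1065 i1880 i748 a201 (k4 i522 i524 i873 i872 (k2 i2174 i2181 (k1 a132 k0))))) (by decide +kernel)
def a837 : PP 8 4 T 0x2001000000000000000000001000200000000000004000000000000000000000000 := rS 0xc315 (k2 a57 a448 (k1 a438 k0)) (by decide +kernel)
def a838 : PP 8 4 T 0x10002200000000000080000022000000001010005050000000080020400100010000000 := rS 0x45b3d3a67251d0dc9f4da5c72f11f20c571213934521f288f54ea140add32fd31b2d52c9 (k8 a343 i1139 a385 i1405 a74 a837 a125 a124 (k8 a344 a67 a335 i1397 i183 a443 a822 a725 (k8 a406 a8 a68 i2031 a6 i296 i1371 a828 (k8 i1189 a834 i1400 i1272 i1588 i1592 i1067 i492 (k1 a191 k0))))) (by decide +kernel)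
def a839 : PP 8 4 T 0x102000000000000000100020000000000000000400000000091020000100000000004 := rS 0x37184e800478149517 (k8 a465 a440 i261 i1132 a349 a466 i960 i1065 (k1 i1271 k0)) (by decide +kernel)
def a840 : PP 8 4 T 0x2200000000000080000022000000000010000000000000000020000100008000000 := rS 0x5f89064974da381b181d9bcea043c9ec909948add02fd27444ca513980c9b1754b24c6cb0e9c4ee31 (k8 i986 a823 i1408 i781 a385 i1405 a343 i1139 (k8 a465 a822 i189 i2600 i1397 a63 a444 a835 (k8 a74 a124 a125 a836 a837 a839 a418 a353 (k8 i748 i1010 i1009 i395 a838 i522 a201 a41 (k4 a71 i873 i872 i1457 (k1 a833 k0)))))) (by decide +kernel)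
def a841 : PP 8 4 T 0x22002200000000000000000020000000000000005054000000080000008002000001020 := rS 0x17c9b4ba6502b7 (k4 a125 a124 a57 a24 (k2 a41 a833 (k1 i1457 k0))) (by decide +kernel)
def a842 : PP 8 4 T 0x2002200000000000000000022000000000000000014000000080000000100008000000 := rS 0x458ac31bb3d34bf63a0c57128ca456e810791cd6734ba6464243d9e41a042412d1c758bb249a31 (k8 i986 a822 a343 a465 i1065 a201 i1132 a440 (k8 i748 i522 a353 a418 i872 i873 a57 a24 (k8 i2600 a464 a451 a17 a124 a125 a836 a841 (k8 a406 a8 a68 i410 i1455 i2045 i1152 i994 (k4 i291 i1616 i524 a132 k0))))) (by decide +kernel)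
def a843 : PP 8 4 T 0x10002200000000000000000022000080000000105010000000040000001002008001000 := rS 0x78d3d8ac3660f57ab663a0c565d89244fa7f88d0c1e516589dcaaf299661aa0 (k8 i324 a413 a2 i882 a227 a409 a725 a385 (k8 i1397 a17 a84 a444 i102 i126 a836 a406 (k8 a5 a8 a68 i410 a108 i1989 i1783 a537 (k4 i329 i1654 a36 a199 (k1 a379 k0))))) (by decide +kernel)
def a844 : PP 8 4 T 0x2002200000000000040001022000000000010000014000000000000000100008000000 := rS 0x9f4833626808c9855efc27a1e1aa006a8808793db954a48120c8968e3a9f6234329964a24d8baa59263658c52e99 (k8 a57 a24 i986 a385 i1405 a343 i1139 a465 (k8 a822 i1397 a2 i882 a84 a444 i126 i1065 (k8 a201 i1132 i873 i872 a440 i288 a409 a418 (k8 a353 i748 a393 i522 i324 a413 i2626 a842 (k8 a467 a227 a397 a260 a843 a45 i1975 a406 (k2 a680 a831 k0)))))) (by decide +kernel)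
def a845 : PP 8 4 T 0x2200000000000000000022000000000010000000000000000020000100008000000 := rS 0x1c82419a80e90d37451a61f28b2c46478b8bd82350e9c4ee31 (k8 i986 a823 i1408 i781 i357 i1250 i1137 a465 (k8 a451 i184 a385 i1397 i183 a840 a120 a844 (k4 a357 i1400 a377 i1585 (k2 i880 a429 (k1 a409 k0))))) (by decide +kernel)
def a846 : PP 8 4 T 0x11022200000000000000000002001410001000005000004000000021408102010001020 := rS 0x22c51ba69329761d15fabf1f31d062b2ec481e473589c521f28b2d02b7 (k8 a118 a4 a385 i1397 i183 a443 a725 a464 (k8 a451 a17 a406 a5 a8 a68 i410 i2031 (k8 i1455 a292 a80 i376 i1372 a837 a422 i994 (k2 i1616 i524 (k1 a132 k0))))) (by decide +kernel)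
def a847 : PP 8 4 T 0x2200000000000000000022000000000000000000000000000020000100008000000 := rS 0xba632618a1161afd2e9d458e53718068ec08793d9209691122396e8153b94eb0c1ea9064a337a862a8818c441e6b269cc421f2888c8e958baa5926365874e277 (k8 a823 i1408 i781 a385 i1405 a343 i1139 a465 (k8 i104 a451 i184 i1397 i183 i2539 i2600 a822 (k8 a464 a17 a444 i986 a845 a337 i279 i1317 (k8 i281 i1404 i1403 i2897 a389 i1065 a382 i2172 (k8 a4 a118 a201 a107 a836 i1132 a440 a418 (k8 a353 i748 i395 i522 a846 a41 a42 a52 (k8 a347 a71 i1457 i290 i523 i1615 a833 a132 (k2 i1144 i1679 k0)))))))) (by decide +kernel)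
def a848 : PP 8 4 T 0x20012200000000000000000022000000000000000054000000000000008002000001020 := rS 0x1855efc2794cb25165aa4f6792412d1c758bb249b14 (k8 a389 a822 a343 a465 i1065 a201 i1132 a440 (k8 a353 a418 i1139 a385 i1397 a2 i882 a841 (k4 a467 a227 a397 a561 k0))) (by decide +kernel)
def a849 : PP 8 4 T 0x2200000000000000000022000080000000100014000000000000000000008000000 := rS 0x8b15863767a697ec7418ad6f12272441e47359ecf23f4ba66291986a801a310b810904b649344832471d62e73 (k8 i2600 a465 i1065 a201 i873 i872 a822 a343 (k8 i1132 a440 i748 i66 i984 i522 i324 a413 (k8 a848 a389 a57 a24 i2236 a353 a418 a464 (k8 a451 a17 a836 a843 a406 a125 a8 a68 (k8 i410 i1455 i2045 i1152 i995 i291 i1616 i524 (k1 a132 k0)))))) (by decide +kernel)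
def a850 : PP 8 4 T 0x2200000000000000001022000000000000000014000000000000000200008000000 := rS 0x4fa419b13404650f0d5003544043c9edcaa524090643125a38ea7d88d0d924d0b9ce2ed3 (k8 a329 a465 i2600 i66 a822 a343 a84 a444 (k8 i126 i1065 a201 i1132 i984 i873 i872 a440 (k8 i1384 a409 a418 a353 i748 a393 i522 i324 (k8 a413 i2626 a848 a849 a45 i1975 a406 a680 (k1 a831 k0))))) (by decide +kernel)
def a851 : PP 8 4 T 0x2200000000000000000022000000000000000000000000000020000000008000000 := rS 0xc5caa2120cd4074869b9a62c0eb04e3174a87ca2cb1191c6a77 (k8 a823 i357 a451 i184 a385 i1397 i183 i104 (k8 a465 i1408 i1250 i781 a847 a329 a850 a357 (k8 i1400 a377 i1585 i880 i881 a409 i1651 a429 k0))) (by decide +kernel)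
def a852 : PP 8 4 T 0x2000000000000000500010011020014000000004054000511020000000000000004 := rS 0x4f7e82d540030814950d (k8 a413 a440 i261 i1047 a349 i2040 i559 a97 (k2 i756 a467 k0)) (by decide +kernel)
def a853 : PP 8 4 T 0x2002202000000000000000010000000004000000000040000000000000000000000000 := rS 0xab30b25966556a54c6a9 (k8 a85 a51 a14 a445 a63 a385 a343 a397 (k2 a97 i2040 k0)) (by decide +kernel)
def a854 : PP 8 4 T 0x10002200000000000000000014000080001000105054000000000000400002000001020 := rS 0x62845863d1baf534c7418ae240f239ac7e974cc521aa0 (k8 i324 a413 a389 a57 a24 i2236 a464 a451 (k8 a17 a406 a8 a68 i410 i2045 i1417 i995 (k4 i1258 i329 i524 i1654 (k1 a132 k0)))) (by decide +kernel)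
def a855 : PP 8 4 T 0x2200000000000000000002000080000000000010000000000020005002008000000 := rS 0x19a9e89a41024e5bbf41a3b3a80408793d92152634ac510f0d50445920f32ab48e6b29964a2cb0b9cc064d37ae5268f8cb3d3a678b3946a77 (k8 a823 i357 a409 a429 a350 a399 a368 a784 (k8 i873 i1368 a851 i1399 a822 i189 i2600 i66 (k8 a385 i1397 a2 i882 a464 a451 a445 a63 (k8 a17 a343 a444 i324 a413 i2626 a389 a14 (k8 a51 a85 a852 a418 a353 i748 i958 i1010 (k8 i395 i522 a853 a577 a467 a124 a854 a112 (k2 a178 i892 (k1 a680 k0)))))))) (by decide +kernel)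
def a856 : PP 8 4 T 0x1400000000000002000000000000000000500000008010000000000000000000000000000000000000 := rS 0x1774f (k2 a26 i1685 (k1 a404 k0)) (by decide +kernel)
def a857 : PP 8 4 T 0x2000000000000000000000000000000080008000000000010020000004008000000 := rS 0xf1158407713001700a4a2480c5279 (k8 i1854 i275 i189 a418 a440 i261 i491 a349 (k4 a5 a339 i451 i812 (k2 a441 a127 k0))) (by decide +kernel)
def a858 : PP 8 4 T 0x2000000000000000000000000000000080008000000000010010000004004000000 := rS 0x81406430c1282e49 (k8 a418 i713 a440 a437 i2247 i1046 i486 i1038 (k1 a349 k0)) (by decide +kernel)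
def a859 : PP 8 4 T 0x1000000000000402000001000000000000006000600000000500000000000000005000001000000000 := rS 0x1088c3a1f6943222e5 (k8 a382 a444 a462 a442 a81 a341 i248 i727 (k1 a107 k0)) (by decide +kernel)
def a860 : PP 8 4 T 0x2000000000000000044000000000000000000000400000000440000004800014000 := rS 0x18a0d (k2 i1570 i1576 (k1 a132 k0)) (by decide +kernel)
def a861 : PP 8 4 T 0x2000000000000002000000001000000000002000000000000000000000000000205000001400014040 := rS 0x529012200fc455ea7 (k8 a410 a381 a444 i1396 a107 i222 i728 a384 (k1 i361 k0)) (by decide +kernel)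
def a862 : PP 8 4 T 0x2000000000000000040000000000000000000000400000000440800004800014000 := rS 0xc3 (k2 i2130 a860 k0) (by decide +kernel)
def a863 : PP 8 4 T 0x2200000001000000000006000000000000500000000000002000800021000000000 := rS 0xc3532913f451033446070891086180bbc6220f239aca2cb13c4c7e3d63a1cea65 (k8 a63 i1010 i933 i259 i1839 i257 a54 a725 (k8 a385 i1397 a464 a451 a17 a444 a355 i1156 (k8 i254 i699 i1007 i1836 i479 a862 i1969 a107 (k4 a861 a680 i728 a859 (k2 i374 i367 k0))))) (by decide +kernel)
def a864 : PP 8 4 T 0x2000000000000000004002000000000000000000000000000004000020200014140 := rS 0xae7e0f5a6a74082c38a4 (k8 i728 i727 i361 i2879 i367 a341 i1839 a130 (k2 a384 a427 k0)) (by decide +kernel)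
def a865 : PP 8 4 T 0x2200000000000000044002000000000000000000000000000040000020040000000 := rS 0x18a0d108240e112203c8e6b28b2c823f (k8 i256 a443 a385 i1397 a464 a451 a17 a386 (k4 i1836 i479 i222 a864 (k2 i482 i1842 (k1 a132 k0)))) (by decide +kernel)
def a866 : PP 8 4 T 0x102200000000000000044000000000000000000000000000000000000020500010000 := rS 0x63918a0f239ac4a41 (k8 a443 a570 a464 a451 a17 i1842 a107 a132 (k1 a392 k0)) (by decide +kernel)
def a867 : PP 8 4 T 0x2200000000000000004002001000000010000500000104000004440420200010048 := rS 0x171165e23d0c8562bc19e9a4ba6628631ebf4102d889641e5535afd9a3953a91a61c (k8 i727 a341 i728 i367 a401 i1968 i1456 a464 (k8 a72 a17 a2 a444 i1001 a864 a369 a122 (k8 i1348 a120 a837 a24 i2034 i1152 a828 a49 (k4 i1503 a460 i932 i934 (k2 a466 i1417 (k1 a465 k0)))))) (by decide +kernel)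
def a868 : PP 8 4 T 0x2200000000000000044002000000000000000000000000002000000020400010000 := rS 0x64487148202ec45963f2b9dcea651b9e4e2a9010bce63b0b1083e27 (k8 a725 i1396 a865 i699 i1156 a259 i1079 i700 (k8 i2754 i2451 a353 i1837 a63 i1010 i2509 i442 (k8 i256 a385 a444 i443 a866 i728 i727 i1342 (k2 a867 i1379 k0)))) (by decide +kernel)
def a869 : PP 8 4 T 0x2200000001000000000006000400000000100000000000002084000020020020040 := rS 0x4b8bce62d8c22472371d8580471009e44a412e265069ba234c7af1 (k8 a441 i1839 a341 a442 a111 a48 a433 i1835 (k8 a443 a570 a353 i959 i2451 i700 i699 a863 (k8 i1837 i1874 i1342 a172 i1001 a259 i1079 a71 (k1 i2034 k0)))) (by decide +kernel)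
def a870 : PP 8 4 T 0x2200000000000000004002000000000000000000000000000000000020600020000 := rS 0x8c2585e891c8b46e3b00061224a24a6d33441eb4d4e813781c38a472b2c4e4d5bb34fe7da1c447e420fb1de27b (k8 i3093 a441 i258 i1396 a865 i256 a444 a84 (k8 i126 i102 i1968 a537 a822 a725 a385 a46 (k8 i728 i727 i1379 i2878 i2879 i367 a341 i1839 (k8 a442 a433 a111 a869 a440 a102 i438 i437 (k8 i255 i1044 i1039 i235 i230 i1078 i2034 a419 (k1 a71 k0)))))) (by decide +kernel)
def a871 : PP 8 4 T 0x2200000000000041000002000000000000000000000000008080000020040020040 := rS 0x1e8b5026f429d59c974ea6d3f184c8bd12391b8ec008f33a2c30913e9fe234364994d6271fbc4f6a7 (k8 i1913 i3093 a441 i256 a725 a464 a63 a343 (k8 a84 a444 i102 i126 a102 i438 i2247 i2246 (k8 i1132 i437 i255 i1044 i235 i230 i1078 a599 (k8 a419 a33 a41 a347 a71 a388 i1068 i1871 (k4 i1400 a535 i1039 i1839 (k1 i2034 k0)))))) (by decide +kernel)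
def a872 : PP 8 4 T 0x2200000000000000004002000000000000000000000000000000000020420020040 := rS 0x21906ce1e25d3a9b4fa64762f398b63033448e46e16011c402792412da64713936262b668fc841f63bc4b8c51a8c5c8211290622a7 (k8 i1913 a444 a443 a570 a870 a107 a459 a364 (k8 i1842 i1835 a441 i258 i1396 a865 i256 i1968 (k8 i49 a54 a822 a725 a451 a341 a871 a440 (k8 a353 i959 i2451 i700 i699 i1837 i1874 i1342 (k8 i192 a172 i1001 a259 i1079 i1156 a599 a33 (k8 a41 a347 a71 i2034 i2035 i1256 a569 i933 k0)))))) (by decide +kernel)
def a873 : PP 8 4 T 0x2200000000000000004002000000000000000000000000002000000020100020000 := rS 0xcf63a1d1d174ea2d3e911a8ee3031198e46e16011d402773cc4592652389e26416697084c5 (k8 i1842 i1836 i1835 i1968 a443 a54 a725 a451 (k8 a63 a343 a444 a353 i2509 i959 i1010 i700 (k8 i699 i1837 i1874 i192 i1002 a172 i1156 i1117 (k8 a25 a33 a52 a347 a192 a466 i931 i259 (k2 a569 i2035 k0))))) (by decide +kernel)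
def a874 : PP 8 4 T 0x2200000000000000004002000000000000000000000000000000000020010020000 := rS 0x2655ea95e2e12a863b214eb4f6745d2e9d4fa6e302d1c8dc766131a3cce8b0c244944927884ff1164994d6516589c9b1366bc4847b (k8 i3093 i1836 a441 i1968 a54 a822 a725 a385 (k8 i1397 a464 a63 a343 a444 i102 i727 i701 (k8 a873 a440 a102 i438 i2247 i2246 i1132 i487 (k8 i1048 i255 i1044 i235 i1040 a419 a828 a33 (k8 a347 a71 a192 a388 a3 i1068 i1871 a466 (k8 a436 i1675 i808 i934 i1139 i1986 i1991 a336 k0)))))) (by decide +kernel)
def a875 : PP 8 4 T 0x2200000000000000004002000000000000000000000000000000000020000020040 := rS 0x9021258889acd2134c3e1c (k8 a874 i10 a341 i1836 i1968 a822 a872 a871 (k2 i11 a440 (k1 a873 k0))) (by decide +kernel)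
def a876 : PP 8 4 T 0x2200000000000000004002000000000000000000000000000000000020000020000 := rS 0xbe2ab8169c0ec6f3ab3a2e9d4fc606a891c8dc76004799d1618489289221528183ed30e1ec84f188b2596653589c9acd (k8 i1968 a822 a725 a464 a63 a385 a343 a444 (k8 a441 i1836 i3093 a874 a341 i10 a875 i1379 (k8 i728 a873 a440 a102 i438 i2247 i2246 i1132 (k8 i437 i255 i1044 i235 i230 i1114 a419 a33 (k8 a347 a192 a388 i1068 i1400 a466 a201 i1039 (k4 i808 a117 i1137 a120 k0)))))) (by decide +kernel)
def a877 : PP 8 4 T 0x2000000001000000000000000000000000000800000000000000014000004000000 := rS 0x6317 (k2 a332 i1508 (k1 a429 k0)) (by decide +kernel)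
def a878 : PP 8 4 T 0x2200000000000000000000000001000040002000000000000000015000200000000 := rS 0x9f8b1d592e5 (k4 a46 a343 i1499 a429 (k2 i1075 a192 k0)) (by decide +kernel)
def a879 : PP 8 4 T 0x2200000000000000000001000040000000050000000004500010000000000000080 := rS 0x1564f2cb2d5a55 (k4 a72 a445 a385 a2 (k2 i1222 i458 (k1 i2037 k0))) (by decide +kernel)
def a880 : PP 8 4 T 0x2000002000000000000000000000000020000000000000008080000000006400040 := rS 0x1fa538693d4e6f0f074a23d (k8 a365 i439 i1343 i230 i1318 i2109 i701 a81 (k2 i567 a567 (k1 a467 k0))) (by decide +kernel)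
def a881 : PP 8 4 T 0x2201000000000000000001000408000010012204000004148005540500000000000 := rS 0x994bafd02aa8626ca67f2cb2d5a55 (k8 a72 a445 a385 a2 i1668 i567 i1073 a467 (k4 i2037 a4 a367 i1855 (k2 i1113 i2034 k0))) (by decide +kernel)
def a882 : PP 8 4 T 0x2200002000000080000000000008000000006200000000008080400400200000000 := rS 0x1509a292652f0d373f4fa892893d6aa76081c3a2d2b9142e230d9dc6ec71c8607a3f (k8 a6 a365 i1500 i235 i3008 i997 i79 i783 (k8 i11 i971 i41 i1498 a329 a341 a402 a44 (k8 a67 i727 i701 i439 a880 i1501 a567 a881 (k4 a357 i1324 i2738 a467 (k2 i2034 i566 (k1 a457 k0)))))) (by decide +kernel)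
def a883 : PP 8 4 T 0x2000000000000000000080000008000000002000000000000000000000000000000 := rS 0x13494 (k2 i1685 i1686 (k1 i2749 k0)) (by decide +kernel)
def a884 : PP 8 4 T 0x2200000000000000000000000000000020000200000000008080000000200000000 := rS 0x55508a2533f9f61a4f5a81cdec10f074b2cb56954ae4588a4c2e230c06cee63 (k8 i2245 i79 i783 i1500 i11 i971 i2930 a453 (k8 i41 i1498 a72 a445 a385 a2 i1343 i230 (k8 i1344 i1318 i1340 i727 i701 a81 i1501 i1668 (k4 i567 i439 a403 i2037 (k1 a106 k0))))) (by decide +kernel)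
def a885 : PP 8 4 T 0x2200000000000000000000000000000045000000000004000000200000202400000 := rS 0x334ba273d164aa6b (k8 a464 a72 a2 i235 i1876 i1891 i729 a460 k0) (by decide +kernel)
def a886 : PP 8 4 T 0x2200000000000000000000000000000004000200000000000080100000200000002 := rS 0x2eb3422277827592672b9158e911db3c3030 (k8 i1499 i1500 i2719 a339 i1168 i3008 i41 i1498 (k8 i1587 a343 i1512 a235 a76 a441 i729 i443 (k1 a794 k0))) (by decide +kernel)
def a887 : PP 8 4 T 0x2200000000000000000000000000000004000200000000000080000000200000002 := rS 0x62a10507a1c15c8a1711a2c9418 (k8 i1500 i1037 i2247 i11 i971 i41 i1498 a886 (k4 i235 i234 a885 i3095 (k1 i1503 k0))) (by decide +kernel)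
def a888 : PP 8 4 T 0x2200000000000040000010000000004010002004040000000005540400002000440 := rS 0x4299fa994bc51362d (k8 i1039 i1073 a120 a24 a57 a853 i2034 a130 (k1 a434 k0)) (by decide +kernel)
def a889 : PP 8 4 T 0x412000000000000000000004000810000000400000000000000000000000000000000 := rS 0x10345 (k2 a410 i1860 (k1 a462 k0)) (by decide +kernel)
def a890 : PP 8 4 T 0x402000002000000040000004000010540010000008001000000000540400000000440 := rS 0x40b1faa7418f47f0d (k8 a357 a6 a365 i1439 a889 a567 i2034 a130 (k1 i1263 k0)) (by decide +kernel)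
def a891 : PP 8 4 T 0x402200002000000040000010000008004010006000041000008080440400002000040 := rS 0x3f154534aaa534b74c93d2f0d3714592cb32ab416631c8f47ea1 (k8 i310 a6 a365 i235 i2245 i2382 a445 a63 (k8 a385 a343 i439 a888 a357 i1324 i1271 i2738 (k8 i1932 a890 a457 i2749 i566 i2040 a467 a97 k0))) (by decide +kernel)
def a892 : PP 8 4 T 0x402200002000000000000000000008000000006200001000008080440400200000000 := rS 0x2d8aa5152ab0334d92cb32ab526672b91546b90c0c0c689 (k8 a884 i2245 i1499 i1500 i2718 i2985 i41 i1498 (k8 i1587 i2930 a445 a63 a385 a343 a882 a891 (k4 i458 i456 i2040 a14 (k2 i2715 a120 k0)))) (by decide +kernel)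
def a893 : PP 8 4 T 0x2200000000000000000000000000000000000200000000000080000000200000002 := rS 0x16a7d2894cfea50f819506f173c06e394f1e04e7b4ec4d0c61679cd224a63a8c6018339dc8257228ec6ac9 (k8 a343 i1114 a339 i41 i1498 i21 i79 i1587 (k8 i1500 i1499 i2985 i3008 i1037 i1168 i2757 i2719 (k8 i2711 a887 a69 i1645 i817 i738 i1708 i1707 (k8 i235 i1044 a235 a892 i2733 i1077 i1078 i239 (k4 i365 i1668 i567 i496 (k2 i1502 i728 (k1 a879 k0))))))) (by decide +kernel)
def a894 : PP 8 4 T 0x2200000000000000000000000000000008000000000000000080000000202000002 := rS 0x118679e4f7164e99d1677188cd224a0d88dca3b1ab24eb13 (k8 a69 a893 a343 i1114 a339 a46 i11 i67 (k8 i1037 i1168 i232 i1041 a877 i2247 i2246 i1645 (k4 a429 i817 a878 a368 (k2 a406 a784 k0)))) (by decide +kernel)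
def a895 : PP 8 4 T 0x2000000000000000000000000000000000000000000000000080000800008000000 := rS 0xe0a0 (k2 i317 i318 (k1 i2555 k0)) (by decide +kernel)
def a896 : PP 8 4 T 0x2200000000000000000000000020000000000000000000020080000000200000002 := rS 0x935498cc29555ae512062902580cb32ab482356482ce667180145e1a (k8 i446 a895 i2 i784 i1506 i2579 i2383 a343 (k8 i1114 i21 a445 a63 a385 i824 i196 i819 (k8 i820 i279 i1250 i1514 i1518 i961 i536 i2268 (k2 i1510 i2040 k0)))) (by decide +kernel)
def a897 : PP 8 4 T 0x2000000000000040000000000010000000080000000000000000000000048000000 := rS 0x3b0d (k2 a35 i2537 (k1 a377 k0)) (by decide +kernel)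
def a898 : PP 8 4 T 0x2200000000000000000001000010000000000000000004100010000000208000080 := rS 0x519fc3e53699f46076 (k8 i783 i784 i2936 a402 i454 i1301 a897 i1649 (k1 a879 k0)) (by decide +kernel)
def a899 : PP 8 4 T 0x400000000000000002000000000000000000041008000000000800000000000000000000000000000000 := rS 0x5ed157f43 (k4 a106 a367 a48 i1415 (k1 a404 k0)) (by decide +kernel)
def a900 : PP 8 4 T 0x2200000000000000000041000000000008050000000104540000000000000000000 := rS 0xbda2ab906818650dfabf552dcb2cb56954d74f (k8 a20 a464 a72 a445 a385 a2 i856 i2037 (k8 a367 a97 a106 a467 a4 a899 a108 a381 (k2 i1986 a404 k0))) (by decide +kernel)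
def a901 : PP 8 4 T 0x2200002000000000000041000010000008000000000104540000000000208000040 := rS 0x295a6a651bf1821da1c34fce53e8c0ec3d (k8 a365 i783 i784 i2936 a46 a900 a35 a133 (k8 i2537 i1516 a467 i1650 a567 a67 i368 a393 k0)) (by decide +kernel)
def a902 : PP 8 4 T 0x2001000000000000000000000800000000000000000000000000000000000000440 := rS 0x1a609 (k2 a434 a67 (k1 a130 k0)) (by decide +kernel)
def a903 : PP 8 4 T 0x2001000000000000000000000000000000000000004000020000000000089000010 := rS 0x2a51071 (k4 i1357 i270 i575 a754 k0) (by decide +kernel)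
def a904 : PP 8 4 T 0x2200000000000000000010001410004008008800045000800000000054050000000 := rS 0x16cbf40aa92e958a1c592cb32ab47a3f7844dfa83 (k8 a334 a452 a69 a127 a6 a365 a445 a63 (k8 a385 a343 i798 a438 i1676 a24 i2040 i1893 (k2 a367 i2031 (k1 i857 k0)))) (by decide +kernel)
def a905 : PP 8 4 T 0x2000000000000000000000000410000008401020000000000000000054050000000 := rS 0x102b71e8fde113 (k4 a69 a127 a6 a365 (k2 i2560 i1363 (k1 i2031 k0))) (by decide +kernel)
def a906 : PP 8 4 T 0x2200000000000000000000000010000008001000000104160000000040201000042 := rS 0x126b930b045aa9691c43ea70ea0dfb0d292ecf49e8ca2d9e111bbc052c989ad4169d4889cec67180680a63 (k8 i447 i2 i446 i784 i1506 i783 i2542 a110 (k8 i1645 i2383 a822 a69 a343 i275 a127 a376 (k8 a441 i988 i451 a784 a191 a406 i3007 a901 (k8 a375 a452 a334 i2536 a902 a903 a905 a377 (k4 i575 a329 a44 i960 (k2 i986 i1509 (k1 a904 k0))))))) (by decide +kernel)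
def a907 : PP 8 4 T 0x2200000000000000000000000000000008000000000000000080000000200000002 := rS 0x29788d99c9f459e00ea13393c60274e85c345d5a945224c0cc4d9265358ac82572280c0a75 (k8 a893 i2 i23 i41 i1498 i21 a416 a464 (k8 a63 a343 a69 a894 a252 a110 a491 a822 (k8 a543 i446 i708 i1645 i2542 i784 i2533 i1506 (k8 a896 a898 a906 i1853 i1075 a388 i988 a376 (k2 i1838 a127 k0))))) (by decide +kernel)
def a908 : PP 8 4 T 0x2200000000000000000000000000000000000000000000020080000000200000002 := rS 0x420c0eccd0d174b2553595c8a87 (k8 a907 i41 i1498 a464 a72 a2 a543 i446 (k4 i2540 i783 i784 a460 (k1 i2937 k0))) (by decide +kernel)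
def a909 : PP 8 4 T 0x2200000000000000000000000000000000000000000000000080000000200000002 := rS 0x5d668444ef01ca14f3194eb3e2c67458c466910b928304d63a1cea352480c76c92c954d64111b94ae45 (k8 i41 i1498 a46 i11 i21 a464 a72 a2 (k8 a343 a339 i23 i959 i1114 a893 a907 i1689 (k8 a908 a252 a440 i43 i1168 i232 i1041 i2247 (k8 i2246 a429 a368 a399 a784 a878 a545 a885 (k4 a235 a76 a441 i729 (k2 i443 a460 k0)))))) (by decide +kernel)
def a910 : PP 8 4 T 0x4002000000000000000008000011000010000000000000000812000540108000800010 := rS 0x3e528f684d249ae62a2f53a65126039074c6fd4da5e30f1 (k8 a76 a419 a71 a41 a452 i535 i2474 i828 (k8 i829 a754 a837 i1915 i1080 a417 a171 i1281 (k4 a120 a447 a335 a129 (k2 i2034 i375 k0)))) (by decide +kernel)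
def a911 : PP 8 4 T 0x2001000000000000000000001000441040505014000100540000000000000000000 := rS 0x1306339aba18b7 (k4 a577 a467 a108 a370 (k2 i539 i2045 (k1 a837 k0))) (by decide +kernel)
def a912 : PP 8 4 T 0x20002200000000000000000001001000001800505014000104540000000100201000008 := rS 0xbda61e601f0feb939455130d55abcc2097e16596ad2aa6d1697 (k8 a71 a52 a41 a72 a445 a385 a2 a911 (k8 a369 a397 a427 a97 a292 i190 a561 a389 (k8 a171 i847 i2037 i1501 i1502 a44 i238 a120 k0))) (by decide +kernel)
def a913 : PP 8 4 T 0x2000000000000000000000001000000000500010000000084000440008000000000 := rS 0x16efd (k2 a74 a125 (k1 a609 k0)) (by decide +kernel)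
def a914 : PP 8 4 T 0x20002000000000000000000000000000000000000000000000210080000000000000001 := rS 0x22a89698bcc22d030795e1922aa4de162412c0405 (k8 i517 a349 i437 a440 i699 i2670 i2754 i41 (k8 i1007 i2250 i440 i439 a497 i1311 i238 a402 (k2 i1341 a561 (k1 a120 k0)))) (by decide +kernel)
def a915 : PP 8 4 T 0x20002200000000000000000001001000001800505014000104540000000000201000008 := rS 0xc0fc1626d1697 (k4 a71 a52 a41 a912 (k2 a911 i1000 (k1 a397 k0))) (by decide +kernel)
def a916 : PP 8 4 T 0x2200000000000002000000000000000000000000000100010080000000200000000 := rS 0x2c39148a24f4aa38691745a7e303b40ad5e28348a75842688b255ae52b9ecf2772aa84ea710c91472371991c6265549bc2c48258080a01 (k8 a909 i517 a349 i437 a440 i699 i2670 i2754 (k8 a63 i1002 a451 i192 a446 a401 i41 i1007 (k8 i2451 i1010 i2573 a72 i751 a353 a418 i1498 (k8 a46 a445 a343 a380 i729 i730 i1909 i2484 (k8 i2485 a76 a625 i3126 i1155 a419 a33 a52 (k8 a192 a429 a466 i2760 a913 a914 a915 i828 (k2 a910 i977 k0))))))) (by decide +kernel)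
def a917 : PP 8 4 T 0x2000000000000000000000000000440000000000000000812080000020000000008 := rS 0x14e2d1782c7a99448fc0e720e98d06fd508e46ea90b0ec3245 (k8 i41 i1007 i254 i699 i2754 a446 a401 i2573 (k8 a452 a334 i535 i2474 i828 i454 i257 i191 (k4 a837 i1840 i558 i1080 (k2 i977 a902 (k1 i2034 k0))))) (by decide +kernel)
def a918 : PP 8 4 T 0x20002200000000000000000501000000000800400080000100410080000000200000000 := rS 0x5daad5e803fbf09eb986b2d5a6b2b9ecf2710c915526f0b120960202a44a201 (k8 a909 a914 a25 i517 a349 i437 a440 i699 (k8 i2670 i2754 i41 i1007 i2451 a353 a418 i1498 (k8 a464 a445 a385 a456 a171 i2454 a467 i847 (k4 a915 a427 a97 i1865 (k1 a391 k0))))) (by decide +kernel)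
def a919 : PP 8 4 T 0x20002002000000000000000000001000000000400054000100100000000000000000000 := rS 0x8ac355e61 (k4 a397 a427 a292 a561 (k1 a389 k0)) (by decide +kernel)
def a920 : PP 8 4 T 0x12001000000000000000000000000441000405054000000500000000000000000000 := rS 0x9940c509cb7 (k4 a577 a467 a389 a124 (k2 a57 i2045 k0)) (by decide +kernel)
def a921 : PP 8 4 T 0x20002200000000000000000501000000000800400000000100410080000000200000000 := rS 0xc6982720618b77e9ccae7b3c9c43245549bc2c48258080a914da5ca201 (k8 a909 a914 a71 a41 a25 i517 a349 i437 (k8 a440 i699 i2670 i2754 i41 i1007 i2451 a353 (k8 a418 i1498 a918 a919 a577 a920 a4 a915 (k2 i2045 i1350 (k1 a837 k0))))) (by decide +kernel)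
def a922 : PP 8 4 T 0x4002200001000000004000001001400010000850000000004500084560500000000000 := rS 0x2651293a1aa89e5965ab4aa9b4bc607a2b (k8 a416 i1256 a419 a71 a41 a72 a445 a385 (k8 a2 a190 i2037 a106 i1636 i359 a701 i2034 k0)) (by decide +kernel)
def a923 : PP 8 4 T 0x4002201001000000004000001001000010000850000000004500080560520000000040 := rS 0x13e1a1e1f29c8a0b (k8 i557 i41 a902 a922 i256 a81 i1270 a467 k0) (by decide +kernel)
def a924 : PP 8 4 T 0x2202000000000000000001000000000000050000000004500000000000000000000 := rS 0x1564f2cb2d5a55 (k4 a72 a445 a385 a2 (k2 a74 a97 (k1 i2037 k0))) (by decide +kernel)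
def a925 : PP 8 4 T 0x2200000000000000000000000000000004000000000100010080000000200000000 := rS 0xb5fa2f03a8ce67d3fa08a695470d22e514ba75169b48c616abd788ec22c34fb3d88bf888a108cd649ac82252c88dca573c9dcaa750c91472371991c626554858904b0101402c7 (k8 i1689 a909 i517 a349 i437 a440 i699 i2754 (k8 a63 i1002 a451 i192 a446 a401 i41 i1007 (k8 i1010 a72 i751 a353 i1498 a46 i11 a2 (k8 i858 i21 a464 a343 a916 a460 a686 a361 (k8 i2932 i1503 i1870 i1605 i1867 i1835 i254 a49 (k8 i3070 a868 a419 a25 a41 a52 a347 a71 (k8 a914 a192 a429 a466 i2760 a917 a921 i925 (k8 i1441 i923 i1649 a879 i1079 a924 i1001 a923 k0)))))))) (by decide +kernel)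
def a926 : PP 8 4 T 0x4002201001000000004000001001040010000850000000004500080420420000000008 := rS 0x2d039047237 (k4 a446 a401 i21 a879 (k2 i1001 a923 k0)) (by decide +kernel)
def a927 : PP 8 4 T 0x4002201001000000004000001001040010000840000000004500080420420000000008 := rS 0x13e1a7c (k4 a926 a340 i1274 a467 k0) (by decide +kernel)
def a928 : PP 8 4 T 0x2200000000000000000000000000000004800000000000010080000000200000000 := rS 0x21b153e2bcc2fc17a8ce67f2b9c5526f1d89c8af15ab0c20912894d2e9b142559f11470d22e8b4fb253b181991dca3101014ca163c9209601669ae265c (k8 a925 a5 a464 i1970 a909 i437 a440 a353 (k8 i699 a63 i517 a349 i1002 a46 a451 i192 (k8 a172 a347 a343 a33 a52 a192 a429 i1116 (k8 a28 a569 i2760 i444 a41 a71 a917 a914 (k8 a25 i443 i1952 a876 a441 i41 i1766 i1156 (k8 i2670 i2754 i2451 i1498 i925 i923 i1649 i1079 (k4 a927 a397 a427 a924 (k2 a561 a340 (k1 a389 k0))))))))) (by decide +kernel)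
def a929 : PP 8 4 T 0x1002000000000000000000000000000000010020000000000000000000100201000000 := rS 0x17b4c3cc0 (k4 i1501 i1502 a44 i238 (k1 a120 k0)) (by decide +kernel)
def a930 : PP 8 4 T 0x2000000000000000000000000000000800080000000000000000000000000000000 := rS 0xe4b8 (k2 i847 i846 (k1 a171 k0)) (by decide +kernel)
def a931 : PP 8 4 T 0x2200000000000000000000000000000000000080000200010080000000200000000 := rS 0x893e025f84f16c561a57508648ab561840d65129a5d36283fa38691745a7d929d8c0cc8ee5188080a650b1209601 (k8 a909 i437 a440 i699 a63 i517 a349 i1002 (k8 a46 a451 i192 a172 a347 a343 a33 a52 (k8 a192 a429 i1116 a930 i444 a41 a71 a917 (k8 a914 a464 i443 i1952 a876 i41 i1007 i2573 (k8 i1498 a456 a417 i977 i2454 a467 a369 a924 (k2 i190 a929 k0)))))) (by decide +kernel)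
def a932 : PP 8 4 T 0x20002202000000000000000001001000000000040000000004500000000000201000008 := rS 0x4545a893e2bcc209 (k8 a369 a397 a427 a924 i190 i1000 a561 a929 k0) (by decide +kernel)
def a933 : PP 8 4 T 0x2200000000000000000000000000000004000000000000010080000000200000000 := rS 0x2ac9e624c204fb0c7e9ccfe834aa3868b729c5ca2974ea2d369f48ad5871814040b8c92cb2d5a5535b94ae7b3c9c432451991c6265549bc2c48258080a01 (k8 a909 i517 a349 i437 a440 i699 i2670 i2754 (k8 a63 i1002 a451 i192 i41 i1007 i2451 a353 (k8 a418 i1498 a46 a464 a72 a445 a385 a2 (k8 a343 a925 i443 i444 a172 i1952 a876 a25 (k8 a33 a41 a52 a347 a71 a914 a192 a917 (k8 i1931 a429 i1116 i2760 a928 a930 a931 a932 (k8 a920 a340 a4 i2045 a837 i1350 i538 i2037 k0))))))) (by decide +kernel)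
def a934 : PP 8 4 T 0x2000000000000000000000000000000008000000400200000080000000200000000 := rS 0x186f1638404e4572d3d8a2b (k8 a416 i1524 a20 a46 i41 i1766 i443 i1690 (k2 a441 i1952 (k1 a379 k0))) (by decide +kernel)
def a935 : PP 8 4 T 0x2201000000000000000001000000000000050000000000510080000000200000000 := rS 0x19c9a472e526974ad0a28c11ea95a62f4ca24101c3998c9ca71681d5a417295c8a772a9d4ca711c8dd526f0b120960202804ba6b51aed0c0b (k8 i557 a933 i1683 i1649 a464 a934 a909 i517 (k8 a349 i437 a440 i699 i2670 i2754 a446 a401 (k8 i2451 a63 i1010 a72 i751 i41 i1498 a46 (k8 i21 a445 a879 i1001 a902 a900 i1350 i2454 (k8 i701 i702 i191 a837 i1079 a341 i1381 a122 (k8 i1265 a120 a393 a14 a24 a115 a351 i2044 (k2 a153 i932 (k1 i1151 k0)))))))) (by decide +kernel)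
def a936 : PP 8 4 T 0x2001000000000000000000000000000000020000000004500000000000000000000 := rS 0x9f0d (k2 a340 i1274 (k1 a467 k0)) (by decide +kernel)
def a937 : PP 8 4 T 0x2200000000000000010042000000000008000010000000000000145000200800000 := rS 0xd62e9e5c269331417a5d12d31e8b54e3f1d9cd78820e2904ee5 (k8 a46 a725 i728 i727 i933 i934 i2627 i1156 (k8 i1422 i368 i1384 i1386 a341 i1342 i1375 i1079 (k8 a120 a57 i2034 i1417 i1418 a465 i2809 a429 k0))) (by decide +kernel)
def a938 : PP 8 4 T 0x2201000000000000000000000000000000040000000000510080000000200000000 := rS 0x7d2b9156abb628ad0c31328cc8e371c8080a16389209601 (k8 a909 i437 a440 i2451 i699 i517 a349 a401 (k8 a446 a451 i192 a63 i1002 a933 a416 i1524 (k4 i1683 a937 i41 i1498 (k2 a936 a935 k0)))) (by decide +kernel)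
def a939 : PP 8 4 T 0x402200000001000040000044044140000000410000000100440000000000080000000 := rS 0x81a2af97b4260b2d5a6b (k8 a464 a445 a385 i1305 a393 a338 a391 a18 (k2 i1338 a174 k0)) (by decide +kernel)
def a940 : PP 8 4 T 0x2201000000000000000000000000000000040000000000410080000000200000000 := rS 0x3a1e89d36c75f200f8974cc50c689528fda62f539845a060f2bd564f86a0ca0cb20b94aea1388648a391baa4de162412c040500c4cba6b51add7686 (k8 a933 i1683 i856 i1649 a464 a934 a69 a909 (k8 i517 a349 i437 a440 i699 i2670 i2754 a446 (k8 a401 i41 i1007 i2451 i2573 i1498 a46 i21 (k8 a385 a938 a374 a65 i31 i497 i2250 i440 (k8 i439 a497 i1311 a889 i238 a402 a458 i1379 (k8 i1341 a492 a438 a837 a24 a939 i1710 i1709 (k4 i3009 i1336 i738 i1260 (k2 i2034 i1156 k0)))))))) (by decide +kernel)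
def a941 : PP 8 4 T 0x2200000000000000000000000000000000040000000000610080000000200000000 := rS 0x3a1e89d36c75f2012e993e45120a51fb4c5ea78c8183d0d41b2dca7b3ca8432451c8dcde162412e265d35a8d6ebb432bc9eab448245a617e0080a01 (k8 a909 i517 a349 a940 a397 i1000 a369 i190 (k8 a97 a74 a427 a933 i1683 i856 i1649 a464 (k8 a934 a69 i437 a440 i699 i2670 a446 a401 (k8 i41 i1007 i2573 a353 a418 a46 a385 a374 (k8 a65 i440 i439 a914 a889 i238 a402 a458 (k8 i1379 a406 a120 a939 i1111 a24 i1710 i1709 (k4 i3009 i1336 i738 i1260 (k2 i2034 i1156 k0)))))))) (by decide +kernel)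
def a942 : PP 8 4 T 0x2200000000000000000000000000000000040000000000410080000000200000000 := rS 0x7881c7ad3a28fd4e830f31d80be40434f85127bf0ae4550a16265d35add6abb628ad0c31328cc8e371c8080a16389209601 (k8 a909 i437 a440 i2451 i699 i517 a349 a401 (k8 a446 a451 i192 a63 i1002 a933 a416 i1524 (k8 i1683 a937 i856 a464 a934 a69 i63 i2573 (k8 i41 i1498 a940 a74 a941 a900 a340 i1710 (k8 i1709 i1501 i3009 i1502 i1442 a889 i1333 a18 (k4 a44 i1260 i1301 a567 (k1 a442 k0))))))) (by decide +kernel)
def a943 : PP 8 4 T 0x2200000000000000000000000000000000040000000000010080000000200000000 := rS 0x26638e87f448cb3ccea48b0d51ec11eb492a934ba6c5ab98a8bd328953980e41d31a0dfb0d292dd46ad72a8472371991c626554858040589a750c772412c0255 (k8 a72 a909 i437 a440 i751 a933 i1644 a69 (k8 i517 a349 i699 i2754 a63 i1002 a451 i192 (k8 a446 a401 i2573 a46 a445 i1649 i856 a942 (k8 a375 a452 a334 i535 i2474 i828 i829 a889 (k8 i191 a837 i1080 a417 a171 i977 i1180 a449 (k8 i1281 i1018 a120 a335 a44 a153 i1116 a429 (k8 i2033 a350 a368 a784 a422 a80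 i2034 i414 (k2 i1156 i738 k0)))))))) (by decide +kernel)
def a944 : PP 8 4 T 0x11002000000000000000000000000600540018000000000000000000140500000800000 := rS 0x998e3a1fd107ad2 (k8 a120 a335 a422 a80 i2034 i414 i1156 i738 k0) (by decide +kernel)
def a945 : PP 8 4 T 0x10002000000000000000001000000000004008000000010000812080014000200000008 := rS 0x7889c7cc714af97ab64d2914e954b8b62a2f5182d129903980e41d31a0dfa2b5085872375cc59ca31481e6267b (k8 a418 a69 a353 a406 i1002 a46 a429 a465 (k8 a446 a401 i699 i2573 a416 a452 a334 i535 (k8 i2474 i828 i829 i454 i1111 i191 i558 i1650 (k8 i1080 a417 i977 a449 i1018 a902 i2033 a944 (k8 i1180 i1417 i857 i1928 i415 i1451 i738 a6 (k1 a127 k0)))))) (by decide +kernel)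
def a946 : PP 8 4 T 0x2200000000000000000018001000106008000000040000400000000000000000000 := rS 0x184c695559c934be64b2ccaad (k8 a445 a63 a385 a343 i857 i855 i854 a367 (k4 i1726 a412 i1017 i2040 k0)) (by decide +kernel)
def a947 : PP 8 4 T 0x412000000000000000000004000000800000400004000000000000000000000000000 := rS 0x10345 (k2 a111 i1336 (k1 a462 k0)) (by decide +kernel)
def a948 : PP 8 4 T 0x2012200000000000000000010001000004000000000045004440000000000000000000 := rS 0x282a9fa9564b2ccaad (k8 a445 a63 a385 a343 a14 a853 i2040 a467 (k1 i497 k0)) (by decide +kernel)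
def a949 : PP 8 4 T 0x10002002000000000080000000000400000000200000000000000000140000000800000 := rS 0x3b7889c7a07 (k4 a402 a335 i1769 a567 (k2 i1156 a419 k0)) (by decide +kernel)
def a950 : PP 8 4 T 0x400000000000000002000000000000000010000000400000000280000000000000000000000220000000 := rS 0x78b1d863c1428846e5 (k8 a46 i11 i720 i1236 i1235 i328 i258 a365 (k1 a379 k0)) (by decide +kernel)
def a951 : PP 8 4 T 0x400000000000002000000001000000001000000040000008200000000000000004000008000000000 := rS 0x69a9478c6 (k4 i738 i1769 i414 a335 (k1 a393 k0)) (by decide +kernel)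
def a952 : PP 8 4 T 0x12000000000000040000000000410500010000004000000000005540400010000000 := rS 0x8a2585a1e (k4 a377 i1303 i2034 a120 (k1 a24 k0)) (by decide +kernel)
def a953 : PP 8 4 T 0x10012000000000000080000000000400000000200000000000440080140000000800000 := rS 0x145fa07 (k4 a402 a949 i439 a467 k0) (by decide +kernel)
def a954 : PP 8 4 T 0x10002000000000000000401000000400000008280000000000440080140000200800000 := rS 0x1fa5103a91a63d780ec4ea30e8fdcb4f628ae1b43 (k8 a133 a35 a416 i1524 a20 a46 i1333 a950 (k8 i1650 a951 i1156 a419 a365 a953 a393 i1379 (k2 i439 a567 (k1 a467 k0)))) (by decide +kernel)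
def a955 : PP 8 4 T 0x2200000000000000000000000000000000000000000000210080000000200000000 := rS 0x11431a25a62f308b40c1e2095ce21922aa4df0d27ae4a7196799e2ce518a746a8f0b30542933f1dcaa861991c04052412c0265 (k8 a63 a909 i437 a440 i517 a349 a451 i192 (k8 a933 a72 i751 a943 i1637 i2573 i1516 i699 (k8 a930 i1116 i1644 i1002 a46 a429 a350 a368 (k8 a784 a945 a465 i759 a35 i2670 i2754 i41 (k8 i1007 i2451 i1498 i21 i440 i439 a497 i1311 (k4 i238 a402 i1341 a492 (k2 a120 a948 k0))))))) (by decide +kernel)
def a956 : PP 8 4 T 0x2200000000000000000000000000000000400000000000010080000000200000000 := rS 0x100a75ba6596391baa4ba6b5ca40f3133dabdf85129c659e678b394629d1aa3c2cc150a4cee861991c04052412c02658693cfc55 (k8 a72 a943 i759 a35 a63 a909 i437 a440 (k8 i517 a349 a451 i192 a933 i751 i1637 i2573 (k8 i1516 i699 a930 i1116 i1644 i1002 a46 a429 (k8 a350 a368 a784 a945 a955 a467 a427 a418 (k8 a69 a353 a406 a465 a464 a934 i2754 a446 (k4 a401 a385 i1111 a946 (k2 a889 a108 (k1 a954 k0)))))))) (by decide +kernel)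
def a957 : PP 8 4 T 0x2200000000000000000000000000000000000000000000010080000000200000000 := rS 0x22d3ebf4c2dd04728aabdf85129c6572cf33c586ac14993d1f0d3f2750c6f188cc2c71509dc044802b24ca472ab949601 (k8 a909 i437 a46 a72 a451 a63 a343 i517 (k8 a440 a349 i751 i2573 i2451 i699 i192 i1002 (k8 i2670 a933 i1644 a943 a35 a930 i759 i1637 (k8 i1516 i1116 a429 a350 a368 a465 a784 a945 (k8 a955 a467 a427 a853 a389 a956 i151 i924 (k4 i1724 i1113 i1938 a192 k0)))))) (by decide +kernel)
def a958 : PP 8 4 T 0x12202000000000000000011000000005000800000040104100000000000000000000 := rS 0x9f459e232cf4eae90c7b3f1f592cb3294e2673 (k8 i923 a68 a334 a63 a385 a343 a306 a924 (k8 i2569 i925 i926 i1645 i1951 a784 a406 i1853 (k2 a883 a191 k0))) (by decide +kernel)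
def a959 : PP 8 4 T 0x12000000000000008000480000000000000800050000000000000000000000000000 := rS 0x8a9bd309b (k4 i1152 i1950 i1439 a57 (k1 a389 k0)) (by decide +kernel)
def a960 : PP 8 4 T 0x12202000000000000000001000000005400800000040104100000000000000000000 := rS 0x11967a769ebf5d218fc9f389f62eb829add7a73 (k8 i923 i1415 i151 a334 a958 a465 i1330 i1407 (k8 i1190 a924 i925 i926 i1724 a20 i1645 a959 (k2 a784 a463 k0))) (by decide +kernel)
def a961 : PP 8 4 T 0x20000000000000000000000000000000000000000000004a0080000000004000000 := rS 0x5870 (k2 i789 a673 (k1 i1240 k0)) (by decide +kernel)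
def a962 : PP 8 4 T 0x2000000000000000000000000000000000820000000000000000000000200000000 := rS 0x17c84 (k2 i1442 i1441 (k1 i2932 k0)) (by decide +kernel)
def a963 : PP 8 4 T 0x12200000000000000000000000000000000800000000000000080000000200000000 := rS 0xdf154dc619e714aa7e2e664ed3d7eba49a18fc7d55abcc2fc27aa4e6b72995c8a1b00a44a28f2cad4ba4c (k8 a957 a543 a822 a2 i874 a491 a110 a909 (k8 i780 i41 i1498 a334 i151 i923 i574 a961 (k8 a467 a397 a427 a97 a962 a924 i925 i1638 (k8 i926 i1724 a20 i1645 a960 a350 a414 i1673 (k4 i800 a959 a463 a41 (k2 a561 i1439 (k1 a389 k0))))))) (by decide +kernel)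
def a964 : PP 8 4 T 0x20002202000000000000000400001000000000480050000104100000000000000000000 := rS 0x198bd43a14f0b640a60c66e4ba2d36592a9acc2af (k8 a427 a397 a464 a72 a2 a41 a52 a71 (k8 a919 i1319 a336 i1864 i1060 i1059 i1670 i857 (k2 i3147 a460 (k1 i849 k0)))) (by decide +kernel)
def a965 : PP 8 4 T 0x2200000000000000000408040010000000080000000104000000000000200000500 := rS 0xcd21f8454ef10eb084ccc1ea150f452c954d67d (k8 i101 a464 a72 a2 a116 i857 i1935 i1784 (k8 a460 i729 i730 i2478 a76 i1915 i1952 i376 (k2 a442 a384 (k1 a402 k0)))) (by decide +kernel)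
def a966 : PP 8 4 T 0x10402200000000000001000000041000501004080010001100000100000000200000000 := rS 0x450c497459e28a7b5d31050842c954d657 (k8 i1498 a464 a72 a2 a460 a686 i1503 i1669 (k8 i3095 a29 a406 i1853 i1856 a336 a422 a51 k0)) (by decide +kernel)
def a967 : PP 8 4 T 0x1000000000010002000000000000000000000041000540040000000001000000000000000000000000 := rS 0xc514 (k2 a422 a336 (k1 a51 k0)) (by decide +kernel)
def a968 : PP 8 4 T 0x10412000000000000000000000000000081008080050000000000000000000000000000 := rS 0x8b1d92a7a3a9b972798ad0d269d (k8 i1645 i1638 a133 a24 i1856 i1410 a389 i1708 (k4 a406 i1057 i817 a447 (k1 a332 k0))) (by decide +kernel)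
def a969 : PP 8 4 T 0x12202000000000001000400001000001000680050000100100100000000200000000 := rS 0x1be2a62459e0f69743464ae6157c4d329b (k8 i1337 i1864 a45 a427 a397 i1498 a964 a966 (k8 a968 i1893 a406 i1853 a336 a51 i1319 a389 k0)) (by decide +kernel)
def a970 : PP 8 4 T 0x12200000000000000000400000000000000080000000000400080000000200000000 := rS 0x188f0420dd383b458e430674f9ed9f193c05d28763789d2c70403356ec91595c8a912ea0d420b548255eab7e13c360128a4ce64c (k8 a957 i836 i1638 a491 a909 i780 a961 a467 (k8 a97 a427 a369 i574 i557 i819 a963 a543 (k8 a110 i41 i1498 a416 a343 a965 i848 a108 (k8 a969 i1362 a651 i57 i799 i800 i2467 i1363 (k8 a71 i1983 i1894 i1716 i1673 a437 i1852 i1853 (k4 i1070 a191 i1044 i1857 (k2 a419 i1503 (k1 a49 k0)))))))) (by decide +kernel)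
def a971 : PP 8 4 T 0x400000000000002200000000000000000808000000004040402000000000000000000000000000000 := rS 0x12b174fc5572983726d929d (k8 i1646 a343 i1074 i1933 i1932 i1457 a57 i2738 (k2 a192 i1725 (k1 a447 k0))) (by decide +kernel)
def a972 : PP 8 4 T 0x400000000000002202000000000001000800000000004008008010000000000000000000000000000 := rS 0x8a19d2b175ca78eccf (k8 i1980 i817 i818 i1458 a332 i1676 a414 a447 (k1 a853 k0)) (by decide +kernel)
def a973 : PP 8 4 T 0x400000000000002200000000000000000808000000004000402000000100000000000000000000000 := rS 0x8b (k2 i1853 a971 k0) (by decide +kernel)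
def a974 : PP 8 4 T 0x12200000000000000000000000000000000080000000000400080000000200000000 := rS 0x172958bc55169b4fc60f27b899c59a9d432d97abe49d0d92912ea0ce6a930abdf84f0d804a24c (k8 a957 a491 a909 i780 a961 a467 a427 a397 (k8 i574 i836 a963 a543 a110 a343 a133 i1638 (k8 a970 i135 i1724 i1723 i1646 i849 i2560 a69 (k8 a972 a973 a406 a33 a41 a52 a561 a192 (k2 i1725 i1457 (k1 a447 k0)))))) (by decide +kernel)
def a975 : PP 8 4 T 0x2000000000000002000800000000000000020000000000000000000001200000000 := rS 0x1fa9de2c51307446d3605147ac7 (k8 i3009 i1260 a18 i1501 a44 i11 i1234 i729 (k4 i1792 a76 i1915 i1426 (k1 a442 k0))) (by decide +kernel)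
def a976 : PP 8 4 T 0x12200000000000000000800000000000000000000000000400080000000200000000 := rS 0x788fd4eb762c4d0ccd1ea168a55358ac4a592ea0d431163b4d80070f1f0fefc2786c02b52b914a24c (k8 a957 a491 i41 i1498 a822 a909 i780 a961 (k8 a467 a974 a924 i1502 i1301 i1501 a44 i3009 (k8 a73 i819 a963 a543 a2 i858 a416 a464 (k8 a72 a18 i2932 i1260 a975 a460 a143 i1524 (k4 i856 a889 i1426 a567 (k1 a442 k0)))))) (by decide +kernel)
def a977 : PP 8 4 T 0x12200000000000000000000000000000000000000000000400080000000200000000 := rS 0x271e30900bc5f87976c03e1fd56af7e13d96ad3595c8a1b009456a4c (k8 a957 a822 a491 a909 i780 i41 i1498 a464 (k8 a445 a385 a961 a467 a427 a97 a974 a924 (k8 i1501 i2931 i1502 a976 a391 i1331 i1252 i1251 (k2 i3126 i1308 k0)))) (by decide +kernel)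
def a978 : PP 8 4 T 0x2001000000000000000000010000000000020000000000000100000000200000040 := rS 0xb04b4c3cc0 (k4 i1501 i1502 a44 i1265 (k2 i236 a130 k0)) (by decide +kernel)
def a979 : PP 8 4 T 0x12000000001000000002001000010004400040150000000000100004000424004801 := rS 0x3bae4323502254062f (k8 a183 i302 i1518 a349 i354 i228 i1250 a877 (k1 a471 k0)) (by decide +kernel)
def a980 : PP 8 4 T 0x2000000000000000000000002000000000000000000000000080000000000000101 := rS 0x605 (k2 i2387 i1085 (k1 a349 k0)) (by decide +kernel)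
def a981 : PP 8 4 T 0x12200000000000000002000000000000000040000000000000080000000200000000 := rS 0x3349c50de750b010062f38aa4e60a0e0243ed30788dca1b00a3cb2b5261f40ea17e9488aad (k8 a445 i41 a977 a452 i823 i454 a978 a957 (k8 a822 a2 i874 a909 i780 a46 i11 a17 (k8 a44 i1305 i1265 a377 a130 i2475 a980 i798 (k8 a183 i302 a349 i518 i971 i969 a389 a115 (k2 i1613 a979 k0))))) (by decide +kernel)
def a982 : PP 8 4 T 0x1000000000000012000000000000000000400000000000008500000000000000000000000000000000 := rS 0x16f13 (k2 a69 i857 (k1 a462 k0)) (by decide +kernel)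
def a983 : PP 8 4 T 0x2000000000000000008000000000000000000000000000000000008008000000000 := rS 0x70ce (k2 i291 i290 (k1 i3139 k0)) (by decide +kernel)
def a984 : PP 8 4 T 0x2000000000000080000010000000014400040140000000800000004000200800000 := rS 0x76 (k2 a469 i712 k0) (by decide +kernel)
def a985 : PP 8 4 T 0x2000000000000082011410000500154404040150000000800001000000204000000 := rS 0x26c76ce4f9da2e34188dd12390c05cf2e551c469e2d178cd8426 (k8 i729 i730 a983 a359 a329 a36 a380 i1649 (k8 a46 i1973 a984 a437 i1876 i231 i1043 i1041 (k8 i2033 a348 a466 i1715 i810 i374 i1151 a204 k0))) (by decide +kernel)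
def a986 : PP 8 4 T 0x2000000000000000000000000000000000000200010000000080000000200000001 := rS 0x3028c02e23 (k4 i11 i971 i1499 i518 (k2 i1002 a349 k0)) (by decide +kernel)
def a987 : PP 8 4 T 0x12000000000000082001011000000114410050100000000000000145000200000000 := rS 0x25d363b6727ced171f8d14b426121e22a3168bc7aa7 (k8 a67 a335 a359 a329 i1649 a380 i153 i730 (k8 a403 a129 i2033 i375 a348 a466 i1715 i810 (k4 i374 i1151 i1983 i2034 k0))) (by decide +kernel)
def a988 : PP 8 4 T 0x2200000000000081000000000000101014400000000100000100140000200000000 := rS 0x968c26de23b1fb1050842c954d657168bc7aa7 (k8 a67 a335 a359 a329 i1498 a464 a72 a2 (k8 a460 a686 i1503 i257 i255 a49 a828 a419 (k2 i2034 a71 k0))) (by decide +kernel)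
def a989 : PP 8 4 T 0x2001000000000000000000001000080000000000004000000000000000000000000 := rS 0xc315 (k2 a24 a449 (k1 a438 k0)) (by decide +kernel)
def a990 : PP 8 4 T 0x2000000001000001000000000000001008000000000000000000804040004000000 := rS 0x34631d99e263d0a5e313 (k8 a69 a355 i255 a203 a127 i1980 i817 i738 (k2 a877 i413 k0)) (by decide +kernel)
def a991 : PP 8 4 T 0x412000000000000000000004000000801000400000000000000000000000000000000 := rS 0x10345 (k2 a111 i1337 (k1 a462 k0)) (by decide +kernel)
def a992 : PP 8 4 T 0x12200000000000081000000000000140010040000000000000080144000200000000 := rS 0x81a28f9363b5bc4d0c2b22b943601489749883168bc7aa7 (k8 a67 a335 a359 a329 a963 a957 a543 a110 (k8 a909 i780 a46 i41 a416 a988 a69 i856 (k4 a990 a991 i2034 a80 (k2 i1333 a462 k0)))) (by decide +kernel)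
def a993 : PP 8 4 T 0x12200000000000080000000000000004000040000004000000080000000200400000 := rS 0x955cd0a22cc4ba6552891b8e4043119814301b479656a4c3a804ca7d03a85fa5222ab5822f (k8 a359 a981 a445 i41 a977 a452 i823 i454 (k8 a978 a63 a909 a986 a957 a822 a2 i874 (k8 i780 a437 i518 i1612 i1041 a349 a401 a446 (k8 i191 i1084 a837 a989 a992 a380 a403 a351 (k2 a121 a987 k0))))) (by decide +kernel)
def a994 : PP 8 4 T 0x2200000000000080000010000000155410440140000100800100140000200810001 := rS 0x4009936b7633c50cc5618359a323b03c8e6b1e9c43a3b378b4f679 (k8 i972 i714 a329 i968 i1155 a341 i709 a335 (k8 a464 a451 a17 a469 a984 i809 i1610 i290 (k8 i1616 a988 a198 a132 i856 a828 i1690 i2045 (k1 i1769 k0)))) (by decide +kernel)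
def a995 : PP 8 4 T 0x12200000000000080000001000000145400440140000100800100140000200800021 := rS 0x2004c9b5bb1a308662b0e26cd428c81b1018c5e86b8089e4b20f23954d6e52b9f40ea17eab47a354aa26286f169c43a7b (k8 i714 a341 i709 a329 i968 a389 a337 a14 (k8 i1116 a335 a445 a452 i823 i454 a978 i1498 (k8 a46 a464 a72 a451 a17 a2 i972 i524 (k8 a994 a351 a465 i986 a403 i522 a429 a361 (k8 a380 a205 i290 i1616 a460 a406 a132 i856 (k4 a41 i1690 i2045 i1769 k0)))))) (by decide +kernel)
def a996 : PP 8 4 T 0x12200000000000000000021000000141000454054000104000001080140201000000 := rS 0x3ca044cc65bb169e8666a15871018d0cb25535b95e29b (k8 i994 a376 a46 a464 a72 a2 a351 i986 (k8 a403 i1957 a361 a380 a460 a20 i1524 i856 (k4 a379 i1690 i1769 i1768 (k1 i2045 k0)))) (by decide +kernel)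
def a997 : PP 8 4 T 0x12200000000000080000000000000004000040040000000000080100000200000000 := rS 0xf281133196ec5a7a198685668c8ecb94dbc46c7b2a9ac56e52ba451e595a974ea0132a0cfa07509155a3d0ca652ea902131fa958a1bc5a710b18ca41d (k8 a341 a977 i536 a993 i709 a329 i968 a389 (k8 a14 a452 a957 i708 i2387 a989 a837 i43 (k8 a335 a445 i41 i823 i454 a978 a963 a63 (k8 a909 a986 a543 a822 a2 i874 a110 i1498 (k8 a46 a416 a464 a72 i714 a995 a376 i994 (k8 a996 a469 a984 i809 i2967 i290 a460 a20 (k4 i1524 i856 a379 i1690 (k2 i1769 i1768 (k1 i2045 k0))))))))) (by decide +kernel)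
def a998 : PP 8 4 T 0x1000000000000012200000000000080001010000000144400541140000104800000040000204800101 := rS 0x19a875faa98a0d52a1464762cb2c1ead23954d6a303a847aa705a551314378b4e21d (k8 a341 i709 a329 i968 a389 a337 a14 a82 (k8 a67 a335 i823 i454 i1649 a464 a72 a451 (k8 a445 a17 a385 a2 a469 a984 i1632 i288 (k4 i1610 i1616 i2027 a367 (k2 a982 a985 (k1 a460 k0)))))) (by decide +kernel)
def a999 : PP 8 4 T 0x12200000000000080000000000000004000040040000000000080000000200000000 := rS 0x5b218ed13668ca20318bd0d7081a2ab87e113c8dc700944a5d3314549bc6a710205816a71e8745ae52b86d1e595a974987500995067d03a85fa4556b04c652 (k8 a977 i536 a981 a445 i41 a452 i823 i454 (k8 a978 a963 a63 a909 a986 a957 a543 a822 (k8 a2 i874 i780 i1498 a46 a329 a341 a335 (k8 a67 a82 a993 i708 i709 i1116 i968 i2387 (k8 a389 a837 a989 a337 i262 a997 i18 i1852 (k8 i1874 i296 a384 a381 i1861 a998 a351 a465 (k8 i986 a403 a429 a380 a205 i1611 a669 a462 (k1 i856 k0)))))))) (by decide +kernel)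
def a1000 : PP 8 4 T 0x10202200000000000000000000000000001000001000000104000000000000000800000 := rS 0x3d21a26cd42964aa6b (k8 a464 a72 a2 a361 a380 a205 a460 a406 (k1 i2473 k0)) (by decide +kernel)
def a1001 : PP 8 4 T 0x10002000000000000000000000000000001008001000000000000000000000000800000 := rS 0xf713 (k2 a69 i2473 (k1 a406 k0)) (by decide +kernel)
def a1002 : PP 8 4 T 0x10002000000000000000000000000000001002001100000000000000000000000000000 := rS 0xf713 (k2 a77 i1896 (k1 a406 k0)) (by decide +kernel)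
def a1003 : PP 8 4 T 0x12200000000000000000000000000004000040040000000000080200000200000000 := rS 0x905a243a6e3bb3c4ccc42a1d2ab9a1444e2190b2a408798c80caa6b1195c3691479656a5d261d402653e81d42fd291155ad3 (k8 a999 a445 i41 a977 a452 i823 i454 a978 (k8 a63 a909 a986 a957 a543 a822 a2 i874 (k8 a110 i780 i1498 i11 a464 a72 a401 a42 (k8 i1852 a349 i2387 i518 i228 i798 a1000 a403 (k8 a351 a121 a1001 a1002 a460 i729 i3139 i810 (k4 i2044 a471 i1318 i558 (k2 i262 a130 k0))))))) (by decide +kernel)
def a1004 : PP 8 4 T 0x10102000001000000000008000000000001400000100000000000000104000000800000 := rS 0xce8b0d8ee3b (k4 i1155 i712 a419 a466 (k2 i1956 a368 k0)) (by decide +kernel)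
def a1005 : PP 8 4 T 0x10002200000000000000000000000000001404001100000104000000100000204000000 := rS 0xef174f0d074370c05c66f16109a22cc42964aa6b (k8 a464 a72 a2 a1002 a460 a380 i729 i730 (k8 a76 a983 a1004 a437 i1043 a419 i373 i374 (k2 a348 i1715 (k1 a466 k0)))) (by decide +kernel)
def a1006 : PP 8 4 T 0x4002000000000000002000000000000000400004100000000000000000000000000000 := rS 0xef11 (k2 a380 i809 (k1 a466 k0)) (by decide +kernel)
def a1007 : PP 8 4 T 0x2200000000000000000000000000000004001100000104020000100000204000000 := rS 0x889dd08cd8ba75169f3dc61925535a451e59 (k8 a2 i874 a110 a464 a72 a343 a1005 a390 (k8 a33 a52 a347 a192 a1006 a460 a669 a361 (k1 a466 k0))) (by decide +kernel)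
def a1008 : PP 8 4 T 0x12200000000000040000000000000100004450100000100020100100000204000000 := rS 0x1ed155cab5dbc6843f08af588bf888a108a766ade26782cb2d5a553595d6aa1 (k8 i823 a822 i1498 a464 a72 a445 a385 a2 (k8 a1007 a398 i1932 i1973 a889 a460 a686 a361 (k8 i2932 i1503 i1872 i1835 i257 a403 a49 a86 (k4 a106 a391 a381 i1781 (k1 a442 k0))))) (by decide +kernel)
def a1009 : PP 8 4 T 0x1000000000000412000001000000040000004000400000000400000000000000001000040000000000 := rS 0x1003e (k2 a442 a462 (k1 i1333 k0)) (by decide +kernel)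
def a1010 : PP 8 4 T 0x2800000000000002200000000000000000040000000000000000000000000000000000000000000000 := rS 0x2fd5ecb569ad56bd (k8 a338 a106 a464 a445 a385 a381 a18 a391 k0) (by decide +kernel)
def a1011 : PP 8 4 T 0x800000000000412200000000000000000044000000000000410000000100000000000000000000000 := rS 0xbf57a028abd55b2d5a6b (k8 a464 a445 a385 a106 a338 a1010 a462 i1861 (k2 i1338 a391 k0)) (by decide +kernel)
def a1012 : PP 8 4 T 0x1000000000000412000000000000040000004000400141000400040000000000001100540004000000 := rS 0xdf15440dce23b1fbc1009b (k8 a991 a462 a1009 i1333 a565 i1362 a376 i2034 (k2 a337 i1318 (k1 a389 k0))) (by decide +kernel)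
def a1013 : PP 8 4 T 0x12000000000000000000000000000000020000050000000000000000000004000000 := rS 0xdf15 (k2 a337 i1318 (k1 a389 k0)) (by decide +kernel)
def a1014 : PP 8 4 T 0x2000000001000000000000000600541018000000000000000004140540004000000 := rS 0x3a19b347ac5 (k4 i1524 i1386 i153 i288 (k2 i2034 a990 k0)) (by decide +kernel)
def a1015 : PP 8 4 T 0x12000000000000000000000000000000020000040000000800080000000000000001 := rS 0x150043800c3663 (k4 i536 i780 i191 a1013 (k2 a349 i798 (k1 i2387 k0))) (by decide +kernel)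
def a1016 : PP 8 4 T 0x12000000000000040000000000010000010000020000000800080000000000000001 := rS 0x1c0407d504f (k4 i32 i798 i1356 a980 (k2 a377 i1261 k0)) (by decide +kernel)
def a1017 : PP 8 4 T 0x12000000001000040000004000600141018400040000000000000140540004000000 := rS 0x7f444dc4c7ac5 (k4 i1524 i1386 a69 a991 (k2 a1012 a80 (k1 a1014 k0))) (by decide +kernel)
def a1018 : PP 8 4 T 0x12200000000000000000000000000004000040040000000000080000000200000000 := rS 0x12c37010145a0805a9286a75baee26864c8bd52711cb4c1e2b7286d225d261d4ca83519f40ea17e9155ac131a24a401 (k8 a909 a977 a1015 i536 a981 a445 i41 a452 (k8 i823 i454 a978 i1649 a963 a63 a986 a957 (k8 a543 a110 i780 a46 a416 a17 a999 a1003 (k8 a1016 i575 a183 a837 a1008 a69 i1683 i856 (k8 a889 a1011 a393 i361 a130 i1264 i262 a349 (k2 a446 a1017 (k1 a989 k0))))))) (by decide +kernel)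
def a1019 : PP 8 4 T 0x12200000000000000000000000000000000040040000000000080000000200000000 := rS 0x17809a405382a0de618aa491263009f40ea17e9488aad (k8 a445 i41 a977 a452 i823 i454 a978 a909 (k8 i536 a1015 a1018 a115 i1281 i1321 a438 a389 (k4 i2387 a1016 a349 a359 (k1 i1084 k0)))) (by decide +kernel)
def a1020 : PP 8 4 T 0x2000000001000000000000000000008010000000000000000000014000000000000 := rS 0x6317 (k2 a19 i1510 (k1 a429 k0)) (by decide +kernel)
def a1021 : PP 8 4 T 0x402001000000000000000000000000001008400000008000000000042040000800560 := rS 0x281f3c55e8b13c618e113ca9c7ad2 (k8 a130 a335 a902 i972 i524 i1692 a1001 i738 (k4 a52 i539 a556 a384 (k2 a127 i257 k0))) (by decide +kernel)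
def a1022 : PP 8 4 T 0x412000000000000000000004000000000000400000000000000008000040000000000 := rS 0x10345 (k2 a80 i1333 (k1 a462 k0)) (by decide +kernel)
def a1023 : PP 8 4 T 0x400000000000402000001001000000001000000440000008200000000100000005000040000000540 := rS 0x140404eaf (k4 i1861 a951 a384 a127 (k1 i1835 k0)) (by decide +kernel)
def a1024 : PP 8 4 T 0x4012201000001000000001000000040001400450180008104000000004040000800560 := rS 0x22c2118579e688811fbc46d435baed0d1366a1461102c954d677538f5a435 (k8 i1116 a130 a335 a902 i838 a464 a72 a2 (k8 a466 a429 a361 a380 a205 a460 i1683 i856 (k8 a1011 a1021 a376 a1022 a1023 a462 i1097 a381 (k4 a1001 a384 a52 i523 k0)))) (by decide +kernel)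
def a1025 : PP 8 4 T 0x12201000001000000001000000040000000450180000104020000004040004000540 := rS 0x4fa2cf110a1a9232ab06a759e678b0102c1917b4992cb07ab48e91479656a62 (k8 i837 a822 a2 i874 a110 a451 a445 a17 (k8 a385 a343 a130 a359 i1091 a437 i708 a1024 (k8 a350 a368 a399 i521 i537 a784 i2027 a129 (k4 a403 a1000 i1853 i1075 (k1 a192 k0))))) (by decide +kernel)
def a1026 : PP 8 4 T 0x12200000000000000000000000000000000040000000000000080000000200000000 := rS 0xc85d1002040cc16623b874e272609f40ea151ab456e52b91436492e930ea0132a0dfa52 (k8 a977 a452 a963 a63 a909 a986 a957 a543 (k8 i30 i780 i41 i1498 a46 a416 a445 i1649 (k8 i823 i454 a978 a981 a1019 i78 i2475 i838 (k8 i837 i558 i1611 a1025 i1349 i1348 i998 i231 (k1 a437 k0))))) (by decide +kernel)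
def a1027 : PP 8 4 T 0x8202200000000000000000000000000001000000100000104000000000000000800000 := rS 0x13e8b3c4659e6764a750ccd42964d655 (k8 a72 a464 a2 a361 a380 a460 i1645 a343 (k4 a350 a368 a784 a1000 (k2 i1853 i1075 (k1 a192 k0)))) (by decide +kernel)
def a1028 : PP 8 4 T 0x400000000000402000001001000000001000000440000008200000000100000001000040000000540 := rS 0x3f (k2 i1333 a1023 k0) (by decide +kernel)
def a1029 : PP 8 4 T 0x400000000000202201000001000000001000000040001000400180008104000000014040000800560 := rS 0xc71327c53183ca05e2361845d0d1366a14b25535a9c7ad2 (k8 a130 a335 a902 a464 a72 a2 a361 a380 (k8 a205 a460 a1027 a429 a1021 a376 a1028 i1097 (k4 a1001 i1837 a33 a127 (k2 i1691 i738 k0)))) (by decide +kernel)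
def a1030 : PP 8 4 T 0x8002200000000000000000000000000000000002100000100000000000000000000000 := rS 0x4fa2d929d (k4 a399 a343 i1853 i1075 (k1 a192 k0)) (by decide +kernel)
def a1031 : PP 8 4 T 0x2000000000000000000000001400400000000000008000000001200000000000541 := rS 0x578fc2296 (k4 a226 i1874 i297 i1900 (k1 a384 k0)) (by decide +kernel)
def a1032 : PP 8 4 T 0x2000000000000000000000000000002000000000008000000000000000000800800 := rS 0x1421c388b4de01218b8a6a9039209a4b (k8 a102 a110 a440 i87 i97 i535 i534 i2357 (k4 i447 i1320 i1237 a209 (k2 i1080 i822 (k1 a211 k0)))) (by decide +kernel)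
def a1033 : PP 8 4 T 0x2000000000000000000000000000000000000500000008000000010000200000020 := rS 0x668b0311f11 (k4 a58 i726 i1497 a466 (k2 i521 a350 k0)) (by decide +kernel)
def a1034 : PP 8 4 T 0x402000000000000001008000000000000000000000000008000000000001000000000 := rS 0x42d3d0f11 (k4 a58 a387 a13 i1867 (k1 a436 k0)) (by decide +kernel)
def a1035 : PP 8 4 T 0x102200000000000000044000000000000000000000000000000040000005100011000 := rS 0x1ca236203c8e6b (k4 a464 a451 a17 a132 (k2 a860 a40 (k1 a107 k0))) (by decide +kernel)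
def a1036 : PP 8 4 T 0x2200000000000000000000000000002000000000000008000050000004000000020 := rS 0x11718a3844cc19b95840d10b3d8f1143c4cea653b954904d258948835078446e2b (k8 a818 i993 i524 a17 i354 a386 a570 a102 (k8 a110 a440 a72 i751 a63 i1010 a112 a387 (k8 a58 a275 i1150 a1033 i482 a1035 a468 i291 (k4 a1034 a107 i892 i1571 (k2 a432 a429 k0))))) (by decide +kernel)
def a1037 : PP 8 4 T 0x502200000000000001000000000000000004000000000000000050000004100011000 := rS 0x10b4f6131c5625 (k4 a570 a818 a275 a1035 (k2 a13 i1867 (k1 a436 k0))) (by decide +kernel)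
def a1038 : PP 8 4 T 0x102000000000000001008000000000000000000000000000000000000001100000000 := rS 0x46e5 (k2 a468 i251 (k1 a107 k0)) (by decide +kernel)
def a1039 : PP 8 4 T 0x102200000000000000000000000000002400000000000000000050400004100011000 := rS 0x1cbc58cc362a18671666c66260f239acea653b954904d258946e2b (k8 a818 i993 a570 a102 a110 a440 a72 i751 (k8 a63 i1010 a464 a451 a17 a112 a25 i892 (k8 a466 a360 a1037 i1524 a1038 a132 a198 i298 (k1 a419 k0)))) (by decide +kernel)
def a1040 : PP 8 4 T 0x102200000000000001000000000000002800000000000000000050000000100011001 := rS 0x72f16731586868983c8e6b158944e44 (k8 a386 a700 a570 a818 a464 a451 a17 a112 (k4 a1037 a1038 i1524 i932 (k2 a198 i1976 (k1 a189 k0)))) (by decide +kernel)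
def a1041 : PP 8 4 T 0x102200000000000000000000000000002000000000000000000050410000100011001 := rS 0x391843363a790ecc18c5d1d13158944e44 (k8 a386 a700 a570 a818 a112 a1039 a432 i985 (k8 a1040 i153 i893 a275 i1711 a1035 a429 a468 k0)) (by decide +kernel)
def a1042 : PP 8 4 T 0x2001000000000000000000001000020000000000014000000000000000000000000 := rS 0xc315 (k2 a14 i1018 (k1 a438 k0)) (by decide +kernel)
def a1043 : PP 8 4 T 0x402000000000000000020000000000000000000000000000000000000044100000000 := rS 0x52f1 (k2 a49 i1842 (k1 a127 k0)) (by decide +kernel)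
def a1044 : PP 8 4 T 0x2001000000000000000000000000000000080000000001500000000000000000000 := rS 0x9f0d (k2 a35 i759 (k1 a467 k0)) (by decide +kernel)
def a1045 : PP 8 4 T 0x2000000001000000000020000100000000000000000000000000014000000000000 := rS 0x6317 (k2 a465 i987 (k1 a429 k0)) (by decide +kernel)
def a1046 : PP 8 4 T 0x202200000000000000000010000000014000000050000000002000000000000800800 := rS 0xfe6f2887d42537e9d4ca772aa3cfab5 (k8 a444 a73 a28 a72 i751 a63 i1010 a70 (k4 i828 i821 i237 i494 (k2 i969 a1044 (k1 i2044 k0)))) (by decide +kernel)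
def a1047 : PP 8 4 T 0x2001000000000000000000001000000000000080004000000200000400000000000 := rS 0x523013cdf15 (k4 a417 i58 i758 a438 (k2 i1017 a146 k0)) (by decide +kernel)
def a1048 : PP 8 4 T 0x202200000000000004008000000000010010000050000000002000010000000800800 := rS 0x1729319b954a0f (k4 a17 i361 a468 i291 (k2 a1020 a1045 (k1 a1046 k0))) (by decide +kernel)
def a1049 : PP 8 4 T 0x2200000000000000000000001000002000000000000000000040000000100800801 := rS 0x14bc58cc367a3c46c58844c8e6b389209a4b1d8d41e111b8ac1a5713a252a65398bc080322104c6fd (k8 a70 a1032 i740 a386 i999 a349 i316 a1047 (k8 a63 a1042 i277 a700 a1036 i481 a818 i993 (k8 i524 a17 i354 a435 a102 a110 a440 i750 (k8 a464 a451 a112 a1041 a1043 a9 a28 i1149 (k4 a1048 a132 a198 i258 (k1 a127 k0)))))) (by decide +kernel)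
def a1050 : PP 8 4 T 0x2200000000000000000000001000002000000000000000000040000000000800801 := rS 0xb949a3c66b5729f4407f379443ea1299cd2a897ea94ea653b954e2482692c6a0f1798cae27220100641 (k8 i740 i999 a349 a386 a700 a1036 a1032 i316 (k8 a17 i354 a102 a110 a440 i750 a72 i751 (k8 a63 i1010 i361 a70 i277 a1042 a1047 i828 (k8 i821 i237 i494 i969 a1044 a1049 a936 a46 (k4 i728 i1611 i726 a1020 (k2 a1045 i2044 k0)))))) (by decide +kernel)
def a1051 : PP 8 4 T 0x2200000000000000000000000000002000000000000000000040000000000800801 := rS 0x1d8687d4272272a05e0401825a6482692cc641 (k8 i740 a1032 a102 a110 a440 a82 i88 i999 (k8 a349 i316 a1050 i1087 i1086 i755 i1269 a456 (k2 i718 a377 k0))) (by decide +kernel)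
def a1052 : PP 8 4 T 0x2000000000000000000000000000000000000000000000002080000000000000800 := rS 0x3852 (k2 i557 i558 (k1 i2474 k0)) (by decide +kernel)
def a1053 : PP 8 4 T 0x2000000000000000000000000000000000000000000000002000000000000000802 := rS 0x1502c (k2 i560 i559 (k1 i2651 k0)) (by decide +kernel)
def a1054 : PP 8 4 T 0x2200000000000000000000001000002400000040000000000010010000100000800 := rS 0x1454da097eb43eaed0d4f3fc318c515c9be2a934aa5ce2c3508b8c0631d0080a0d088618a440d8adfa3f8cc4c1ead239acea653b9544e170090d9a53241349699 (k8 i1110 a102 a110 a440 i828 i892 a1052 a1053 (k8 a1051 i733 a72 i751 a63 i1010 a464 a451 (k8 a445 a17 a112 a25 a461 a70 a818 i747 (k8 a386 a1043 a437 i484 i482 i229 i1006 i1168 (k8 i533 i303 i302 i2185 i373 i750 a989 a1042 (k8 i1281 a363 i2684 i1137 i494 a132 a183 a1044 (k8 a59 a275 i1680 a340 i2044 i1456 i933 a613 (k2 a48 a422 k0)))))))) (by decide +kernel)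
def a1055 : PP 8 4 T 0x2000000000000000008000000120010400050554000000000000010080000000000 := rS 0x5aae50c3372a4e290d (k8 a413 a389 a115 a468 i2174 i372 a1045 i2626 (k1 i2044 k0)) (by decide +kernel)
def a1056 : PP 8 4 T 0x2200001000000004004020000000000000000000000000000001200000000011800 := rS 0x2889a53a798cc55f8c47ed3239ad4a0f (k8 a17 i361 a464 a451 a82 a461 i987 i1458 (k4 i1880 a132 i299 i337 (k2 i1189 a442 (k1 a111 k0)))) (by decide +kernel)
def a1057 : PP 8 4 T 0x2200000000000000000002000020010400000010000000000020000000008000000 := rS 0x188cd4424 (k4 i880 i881 i287 i1651 (k1 a855 k0)) (by decide +kernel)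
def a1058 : PP 8 4 T 0x2200000000000000000000001000002400000040000000000000010000100000800 := rS 0x18c15c2d586931ec512a973898c5e1178810702a379f4ff0d0d1394019203f55aa5079d4ca772a85c02432413496cf (k8 i1149 a102 a110 a440 a1052 a1053 a1051 a72 (k8 i751 a63 i1010 a17 i361 a445 a70 a1054 (k8 i181 i300 i301 a437 a413 i759 i1273 i1272 (k8 i912 i913 i748 a61 i1874 i2187 i534 i796 (k8 a989 a1042 a389 i1877 a115 a1055 a1057 i2044 (k2 i1250 a1056 (k1 i561 k0))))))) (by decide +kernel)
def a1059 : PP 8 4 T 0x2000000000000000000000000000000010000080000000002000000000000400800 := rS 0x30808301b (k4 i835 a437 i1006 i2694 (k1 i303 k0)) (by decide +kernel)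
def a1060 : PP 8 4 T 0x2200000000000000000000001000002400000000000000000000000000100000800 := rS 0xb84f1fd845137a4d8a11069c5422e300e856445a9f4ae630106220c74a81437171a14ce6897ec4cf2ad239ad4a0f3a994ee551385c02432413496cf (k8 i1149 a102 a110 a440 a1052 a1053 a1051 i733 (k8 a72 i751 a63 i1010 a17 i361 a464 a451 (k8 a445 a353 a112 a70 i277 a1059 i828 a1058 (k8 a348 i357 i354 i1099 i413 a466 a437 a349 (k8 i533 a58 a73 a444 i1007 i388 i1168 i303 (k8 i302 i2185 i750 i481 i484 a1043 i1281 i2684 (k4 i494 a132 a1044 i374 (k2 i2044 i2814 k0)))))))) (by decide +kernel)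
def a1061 : PP 8 4 T 0x2000000000000000000000002000000000000000000000002000000000000400000 := rS 0xd1c8324e (k4 i1087 i2755 i1086 a437 (k1 i2514 k0)) (by decide +kernel)
def a1062 : PP 8 4 T 0x2200000000000000000000000000002800000000000000000000001000008000000 := rS 0x4f31c7032121209a4b (k8 a102 a110 a440 i872 i873 i913 i2181 a831 (k1 i1711 k0)) (by decide +kernel)
def a1063 : PP 8 4 T 0x2200000000000000000000000000002800000000000000000040000000000400000 := rS 0x18cc308b3c68221d110301b189209a4b0791cd627 (k8 i733 a464 a451 a17 a102 a110 a440 i984 (k8 a1062 a437 i1007 i1168 i1131 i1130 i2790 i484 (k2 i2130 a860 (k1 i413 k0)))) (by decide +kernel)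
def a1064 : PP 8 4 T 0x2200000000000000000000000000002000000000000000000000000000000000800 := rS 0xb8519fca26f49a54e2a117180c60202860887d5a86c82204787ca67344aa42e773aa94aaad3283dfa43009209a4b (k8 a102 a110 a440 a1053 a1052 a70 a17 a63 (k8 a445 a72 i361 i1010 i751 a1051 a1061 i277 (k8 a1059 i828 i237 a1063 a1060 i743 i2504 i728 (k8 i1502 a386 a437 i229 i1006 i533 i303 i302 (k8 i2185 i750 a1042 i1281 i2684 i494 a1044 i1649 (k2 i2044 i1138 k0)))))) (by decide +kernel)
def a1065 : PP 8 4 T 0x2000000000000000000000001000020000000000004000000000000400000008800 := rS 0xcb5118058b98abf5a689 (k8 i277 a82 a70 a14 i104 a120 a438 i979 (k2 i1391 i323 k0)) (by decide +kernel)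
def a1066 : PP 8 4 T 0x2000000000000040000000000010000000080000000000000000000000140000000 := rS 0x3b0d (k2 a35 i719 (k1 a377 k0)) (by decide +kernel)
def a1067 : PP 8 4 T 0x2000000000000000008000001000002400000000000000000000000000100800800 := rS 0x5519149175c2556a7d3a99d27102b8cd0a0e72c4e0a7164b359e251aa24a26f3b834fe1f29a84e62f0200c88410090c904d2598dfad3 (k8 a82 a70 a1032 a102 a110 a440 a1052 a1053 (k8 i740 a386 i999 a349 i316 a1047 i821 i828 (k8 i237 a1066 i482 i711 i969 i494 i277 i1116 (k8 i860 i1149 i892 i1124 i750 a1064 a112 a468 (k8 a276 i1867 i291 a1034 a1038 a1020 a722 i1174 (k8 a936 a444 a1065 i2044 a465 a1045 a352 i362 (k1 i1659 k0))))))) (by decide +kernel)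
def a1068 : PP 8 4 T 0x2100000000000000000000001000020000000000004000000000000400000001800 := rS 0x307211c580f56c55a689 (k8 i277 a82 a14 i1558 a1065 a120 i305 a425 (k2 i978 a459 k0)) (by decide +kernel)
def a1069 : PP 8 4 T 0x402001000000000001014000000000000000020000000000500200000044000005000 := rS 0x31cd68723958aa11 (k8 i484 i1542 a936 i225 a387 i508 a275 a132 k0) (by decide +kernel)
def a1070 : PP 8 4 T 0x2100000000000040000000000000008010000000004000000000000000000005020 := rS 0x3918047161962a2f (k8 i316 a115 i1550 a120 i265 i1241 a425 a408 k0) (by decide +kernel)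
def a1071 : PP 8 4 T 0x2000000000000000014002000000002400000000000000000010000000000005800 := rS 0x18e6b4391cac5556c462705158444e4421804b2482692d9acb (k8 i619 i892 a102 a110 a440 i868 a1053 a1052 (k8 a386 a700 i484 a818 a1064 a112 a444 i1288 (k4 i768 a362 i305 a387 (k2 i508 a275 (k1 a132 k0))))) (by decide +kernel)
def a1072 : PP 8 4 T 0x2000000000000000014000000000016400040540000000000000000000000805800 := rS 0x50c6789ac466623c40caad8bae20a713184592cf3787d967d28a84a6cd13910862b89bf56a41009209a4b (k8 a102 a110 a440 a1053 i740 a1071 a70 a112 (k8 a818 a1052 a386 a700 i892 i828 i821 i494 (k8 a1069 i619 i237 i969 i1149 i1124 i484 a1032 (k8 i750 a1064 i2044 a465 i1290 i1027 a466 i305 (k4 a352 a9 i548 a198 (k2 a132 a127 (k1 i258 k0))))))) (by decide +kernel)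
def a1073 : PP 8 4 T 0x2000000000000000000000001000002400000000000000000000000000100804800 := rS 0x1ca4718154e893449dd8a2715c4cfe1f29a84e6fd69b0d2a0d221045e040190c02482692cc705 (k8 a1064 a1032 a102 a110 a440 a1053 a1052 i999 (k8 a349 i316 i740 a386 i482 a1068 a1067 a82 (k8 a70 a1047 i821 i828 i237 a1066 a112 a818 (k8 a700 a1043 i711 i277 a1070 a1072 i1540 i970 (k2 i225 a459 (k1 a425 k0)))))) (by decide +kernel)
def a1074 : PP 8 4 T 0x2000000000000000000000001000002400000000000000000000000000100800800 := rS 0x154645245d70b5499f620751999cae23728392a7f069dda70538b24b2251aa24a2a13787ca6731781006442080486637e9209a4b (k8 a102 a110 a440 a70 a1032 a1052 a1053 i740 (k8 a386 i999 a349 i316 a1047 i828 i237 i969 (k8 i821 i494 i277 i1116 i860 i868 i1124 i750 (k8 a1064 a82 i711 i482 a1066 a1068 a1073 a424 (k8 i245 i502 i542 i285 i971 a107 a936 a1020 (k4 a444 i2044 a465 a1045 (k2 a352 i362 (k1 i1659 k0)))))))) (by decide +kernel)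
def a1075 : PP 8 4 T 0x2100000000000000000000001000020000000000004000000000000400000000800 := rS 0x18c1 (k2 i1518 a1068 (k1 i561 k0)) (by decide +kernel)
def a1076 : PP 8 4 T 0x2100000000000000400002000000000000000000000014000000000000000000000 := rS 0xab11 (k2 a444 i768 (k1 a362 k0)) (by decide +kernel)
def a1077 : PP 8 4 T 0x2100000000000000100000000000014400050554040014000000000000200000800 := rS 0xcb175c2d596a3 (k4 i1649 i620 a1076 i2044 (k2 a465 i1027 (k1 a352 k0))) (by decide +kernel)
def a1078 : PP 8 4 T 0x2000000000000000000000000010012410000154000000000000010000200001800 := rS 0x552949c1c86ad4fc933b8ccce0e2bbf5a70564964a2e52390cfa1f299209a4b (k8 a102 a110 a440 i828 i237 i1502 a1052 i1530 (k8 a46 i494 i868 i1124 a1064 a82 a70 i1497 (k8 a425 i542 i285 i752 a1020 a1077 i102 a35 (k4 a377 a467 i1381 i760 (k1 i580 k0))))) (by decide +kernel)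
def a1079 : PP 8 4 T 0x2000000000000000000000001000002400000000000000000000000000000800800 := rS 0x3b95818953a880de1f5094ce6897ec143271221045e040190c02482692cc635 (k8 i1116 a1032 a102 a110 a440 a1053 a1052 i999 (k8 a349 i316 i740 a386 i750 i43 a1064 a70 (k8 i277 a1047 i828 i821 i237 i969 a1074 i1500 (k4 a1075 a1078 i481 i1628 (k1 a1033 k0))))) (by decide +kernel)
def a1080 : PP 8 4 T 0x2000000000000000000000002000000000000000000000002010000400000000800 := rS 0xec35421f3913812d3 (k8 a82 i88 i1087 i1086 i1269 i755 a456 i718 (k1 a377 k0)) (by decide +kernel)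
def a1081 : PP 8 4 T 0x2100000000000000010000000000002800000000000010000000000044000015020 := rS 0x1ad8ecd43a7cac662ab0d931388c5c8e65 (k8 i1025 i265 a432 a28 a112 i611 a276 i766 (k8 a352 a362 a414 a387 i893 a275 i508 a132 k0)) (by decide +kernel)
def a1082 : PP 8 4 T 0x2100000000000000000000000000002800000000000000000200000044100800020 := rS 0x15590243388dca0e329641ac51ac4c904d258462317 (k8 a432 a28 i484 a102 a110 a440 a112 i1117 (k8 a1043 i482 a489 i1025 a1081 a424 i245 i542 (k4 a107 a352 i2520 i1125 k0))) (by decide +kernel)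
def a1083 : PP 8 4 T 0x2000000000000000000000000000002000000000000000000000000000000800800 := rS 0x181644a20472a44e2f220ac08410198c8601241349705 (k8 a1064 a102 a110 a440 a1053 a1052 a1032 i999 (k8 i740 a349 a818 a386 i316 a700 a1080 a1079 (k4 a1082 i110 i723 a142 (k1 i985 k0)))) (by decide +kernel)
def a1084 : PP 8 4 T 0x2000000000000001000000000000002000020100000000000000000000000005804 := rS 0x60c64f9ac8e872b28e22fd8994ce689548446e2302004a24540938801a0c85c904d25b158705 (k8 a1064 a276 a277 a102 a110 a440 a1083 i1006 (k8 a437 i747 i301 a124 i269 i493 a1053 a349 (k8 i2137 i992 i524 a1061 i277 a1059 i828 a112 (k8 a70 a73 i1593 a936 i1710 i304 i508 a680 (k2 a132 a178 (k1 i1691 k0)))))) (by decide +kernel)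
def a1085 : PP 8 4 T 0x2000000000000000000001000000002400040500000000000000000400000005800 := rS 0xc64f9accc47882a8caad8bd0d707b3ca6592954bbf42204008dc70938a4354071319cd12a937938801a0c85c904d25b2d8ac3829f406cd (k8 i892 i302 a1084 a1064 a276 a277 i619 a102 (k8 a110 a440 a1083 i1006 a437 i747 i301 i1272 (k8 a1061 i277 a1059 i534 i750 i300 a413 a389 (k8 a115 i913 i992 a1053 a349 i524 a70 a989 (k8 a1075 i1124 i1110 a353 i82 i2044 a351 a465 (k8 i1290 i1027 a439 a403 i305 a352 a188 a414 (k2 a132 i299 k0))))))) (by decide +kernel)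
def a1086 : PP 8 4 T 0x2100000000000000000000000000000000000000000000000000000002000005020 := rS 0x8ee5 (k2 a409 i2142 (k1 a425 k0)) (by decide +kernel)
def a1087 : PP 8 4 T 0x2000000000000000000000000000002400000500000000000000000400000005800 := rS 0x51506ae5dd3cd4c719c58ca6723aa8a8ad3f3f626535b9cd12c94aaa4c6111b8e0a24586a049ccb62b0d6a25020060aa02006832030b9209a4b (k8 a102 a110 a440 a1083 i302 i1006 a437 i747 (k8 i300 a1064 a1053 a349 a1086 i880 a276 a277 (k8 i619 i301 a124 a413 i269 i493 i913 i992 (k8 i524 i534 a1061 a1075 i1124 i277 a1059 i854 (k8 i828 a112 a70 a1085 i1556 a1044 i760 i305 (k8 i1619 i1659 a352 a360 i298 a132 a394 i1947 (k4 i585 a899 a381 a462 k0))))))) (by decide +kernel)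
def a1088 : PP 8 4 T 0x2000000000000004014000000000002000000800000000000000000000000005024 := rS 0x3591d386624134963b (k8 a435 a102 a110 a440 i752 i918 i1618 i548 (k1 a179 k0)) (by decide +kernel)
def a1089 : PP 8 4 T 0x2000000000000000000000000000002400000000000000000000000400000005800 := rS 0xd6c72395866743bb0d8b0566b3c22371c08c801a0c85c0803009209a4b (k8 a102 a110 a440 a1053 i302 a349 a1083 i1006 (k8 a437 i747 i2137 i913 i992 i524 i1149 i892 (k8 a1064 a277 a276 a1088 a1087 i1585 i1011 i264 (k2 i298 i508 (k1 a132 k0))))) (by decide +kernel)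
def a1090 : PP 8 4 T 0x2001000000000000000000000120010400000054000000102120010000000008000 := rS 0x5cad4fa753f9dc66a32b891ca5364a4e290d (k8 a413 a389 a115 i1124 i828 a424 i338 i501 (k8 i2190 i285 i2508 i843 i1011 a936 i881 a1045 (k1 i2044 k0))) (by decide +kernel)
def a1091 : PP 8 4 T 0x2000000000000000000000000000002400000000000000000000000400100000800 := rS 0x7d5a9d5727f3bab5806519955ca0c07a4e286f869446a4e502948a1d20068320438a54066304bf40305299cd12a90b9209a4b (k8 a102 a110 a440 a1083 a1061 i277 a1059 i828 (k8 a1064 a1053 a70 i88 i534 i302 a1075 i750 (k8 a349 i1006 a437 i747 i2503 i269 i2212 i300 (k8 i301 i2210 i493 a413 i1272 a389 a115 a1090 (k8 a1089 a392 i1489 i1610 i1492 i561 i1494 i751 (k4 a1044 a1045 i1010 i1247 (k2 i1273 i2044 k0))))))) (by decide +kernel)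
def a1092 : PP 8 4 T 0x2000000000000000000000000000000000000000000000012000000800000400020 := rS 0x6c3241 (k4 i2187 i229 i747 a437 k0) (by decide +kernel)
def a1093 : PP 8 4 T 0x1002000000000000000010000000000022000040100004010000000000020000015800 := rS 0xa2a6d5cbb3531c47102a95c8eaa322b6329939a252ea90b9209a4b7eb2d8705 (k8 a1064 a276 i619 a70 a102 a110 a440 a1083 (k8 a1061 a989 i277 a1059 i1110 a25 i1558 a1042 (k8 a476 i305 i1579 i1657 a362 a9 i258 a132 (k4 i1947 i585 i1182 a381 (k1 a422 k0))))) (by decide +kernel)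
def a1094 : PP 8 4 T 0x2100000000000004010001000000010400050554002000000400000820000015000 := rS 0x318466b8819a2e925c8d5c8c3 (k8 a276 a425 a364 i1137 i2044 a19 i1282 a466 (k4 i548 a9 a132 i258 k0)) (by decide +kernel)
def a1095 : PP 8 4 T 0x2000000000000000000000000000002400000500000000000000000000100005800 := rS 0x24d72a25611992cf300cc04013ec30e2b561c1482953fa84de1f299cd12a969b1456798984488271406036630285e2a2e2c9209a4b (k8 a102 a110 a440 i868 a1091 a363 a1083 a1092 (k8 i533 i748 a437 i1169 i733 i1007 i484 a112 (k8 a353 i388 a1043 a82 a1061 i277 a1059 i828 (k8 i237 i2684 i311 a1066 a1093 i181 a1064 a276 (k8 a1071 i750 a183 a340 a1053 a349 i2094 i303 (k8 i1149 i1124 a1094 i305 i304 i1290 i1633 i2044 k0)))))) (by decide +kernel)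
def a1096 : PP 8 4 T 0x2000000000000004014000000000002000000800000000000000004000000015000 := rS 0x639ac8e9c331209a4b (k8 a102 a110 a440 i752 i918 i1617 i548 i1640 (k1 a132 k0)) (by decide +kernel)
def a1097 : PP 8 4 T 0x2000000000000000000000000000002400000000000000000000000000100005800 := rS 0x18e6b23a1cac553a1dd870566b3c22332200802c5158603605171e4904d2589c2f13 (k8 a112 a1083 i733 a102 a110 a440 a353 a1091 (k8 a1092 i748 a437 i388 a1043 a1053 a349 i1007 (k8 i2094 i484 i1149 i892 a1064 a276 a1096 a1095 (k4 i1540 i1011 i1708 i225 (k2 i508 a275 (k1 a132 k0)))))) (by decide +kernel)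
def a1098 : PP 8 4 T 0x2000000000000000000000000000000400050050002000002000000801100008018 := rS 0x16ab94a9d5267788190686711b94b26f (k8 i2684 i868 a424 i245 i541 i340 i341 a107 (k4 i752 i1282 i1062 i2696 (k2 i2701 a444 (k1 i2044 k0)))) (by decide +kernel)
def a1099 : PP 8 4 T 0x2000000000000000000000000000002400000000000000000000000000100000800 := rS 0x683cfa7f12c3142443898030630106c0a6f1734c021f299cd12a90b9209a4b (k8 a102 a110 a440 a1083 a1061 i277 a1059 i828 (k8 i237 a1053 a82 a1091 i2684 a1092 i748 a349 (k8 i533 a437 i303 i750 i1007 i311 a183 i2207 (k4 a1066 a340 a1098 i482 (k1 a1097 k0))))) (by decide +kernel)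
def a1100 : PP 8 4 T 0x2000000000000000000000000000002400000000000000000000000000000001800 := rS 0x25526771a19c1c5782b24b2e52390cfa1f299d46260379fe187131814e68954a84882e0106036200b9209a4b (k8 a102 a110 a440 a1083 a1099 i2504 a437 i1006 (k8 i302 i1007 i2185 a1061 i277 a1059 i229 i533 (k8 i750 a183 a35 i2684 i303 i2682 i1499 i828 (k8 i237 i1502 a1052 i1530 a46 i868 i1124 a1064 (k8 i1497 a425 i541 i340 i752 i1282 i2696 a1077 k0))))) (by decide +kernel)
def a1101 : PP 8 4 T 0x2000000000000000000000000000002400000000000000000000000000000000800 := rS 0x126b54a9dd5ac02b03172a33fc30de7117180ea6350808620522060fa1b12880121f299cd12a90b9209a4b (k8 a102 a110 a440 a1083 a1061 i277 a1059 i828 (k8 i237 i88 a1099 i110 i2504 i1502 a437 i1007 (k8 i229 i2682 i1006 i2185 i533 i1499 i303 i302 (k8 i750 i2684 a183 a35 i1649 i1138 a1100 i481 (k4 i561 i1494 i1628 i1517 (k2 i1248 i1281 (k1 i2044 k0))))))) (by decide +kernel)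
def a1102 : PP 8 4 T 0x2100000000000000000000000000000800000000000000002000000000000401005 := rS 0x3c48402a8683204 (k8 a349 i1006 a437 i2521 i747 i872 i339 a1086 k0) (by decide +kernel)
def a1103 : PP 8 4 T 0x2000000000000000000000000000002000000000000000000000000000000001800 := rS 0x23b941ec91a088301b01004904d25c142e8e (k8 a1101 a1083 a1064 a102 a110 a440 a1053 a1102 (k8 i2184 a437 i1131 i1130 i2777 i2122 a364 i207 (k1 a425 k0))) (by decide +kernel)
def a1104 : PP 8 4 T 0x2000000000000000000000000000002000000000000000000000000000000000800 := rS 0xd8646645060851c17009209a4b (k8 a102 a110 a440 a1053 a1083 a1101 i725 a1103 (k4 i482 i1610 i1007 i873 (k1 a437 k0))) (by decide +kernel)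
def a1105 : PP 8 4 T 0x4002000000000000000008000000000000000000000000000000000111000000000000 := rS 0x66e5 (k2 a468 i290 (k1 a429 k0)) (by decide +kernel)
def a1106 : PP 8 4 T 0x2200000000000001000000000000000001000000000014000000000008100010000 := rS 0x2ea1caa6b (k4 a464 a72 i737 i1765 (k1 a460 k0)) (by decide +kernel)
def a1107 : PP 8 4 T 0x2200000000000000000020000100001400000000000000002000010040100001020 := rS 0x14bc58cc513b0c228b1cc62265711a159b1018c5cf6792c83c8e6b3a994ee55 (k8 a72 i751 a63 i1010 a464 a451 a17 i868 (k8 a353 a418 a465 i987 a466 a1006 a361 a9 (k8 a58 a205 a406 a42 a52 i523 a1105 a1106 (k4 a1043 a132 a199 i258 (k1 a127 k0))))) (by decide +kernel)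
def a1108 : PP 8 4 T 0x2200000000000000000010000000004400010000000000002000000400000800800 := rS 0x2ee9ecc4faf68abf4d20d028789216329d6799e87165a445227b3c9c408032686cea774ca5d2a653787cfe555b945425339aa488410090cc6fd (k8 a70 i534 a1052 a1053 i740 a386 a1080 a1047 (k8 i828 i821 i494 a577 a72 a1044 i237 i969 (k8 a63 a1042 a989 a837 i751 i1010 i66 i30 (k8 i999 a349 a662 a353 a418 a1104 a1046 i2044 (k8 a466 a84 a350 a368 a399 a784 a545 a406 (k8 a1001 a535 a68 i2045 i1455 a111 i1417 a856 (k4 i2046 a36 i1948 a404 k0))))))) (by decide +kernel)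
def a1109 : PP 8 4 T 0x2001000000000000000000011000008000000000004000000000000000000000000 := rS 0xc315 (k2 a115 i1281 (k1 a438 k0)) (by decide +kernel)
def a1110 : PP 8 4 T 0x2001000000000000000000010000000000020000000000500000000000000000000 := rS 0x9f0d (k2 a340 i1273 (k1 a467 k0)) (by decide +kernel)
def a1111 : PP 8 4 T 0x2200000000000000000020000100001400000000000000002000010040000001020 := rS 0xcdca2018c5cee55 (k8 a72 i751 a465 i987 a1107 a46 i1611 a429 k0) (by decide +kernel)
def a1112 : PP 8 4 T 0x2200000000000000000010000000000400000000000000002000000400000800800 := rS 0xa27c5094d26735498dfa442080486ad (k8 a445 a1052 a1053 i740 a386 a70 i534 a1080 (k4 a1047 a1109 i828 i821 (k2 a1108 i494 (k1 a1110 k0)))) (by decide +kernel)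
def a1113 : PP 8 4 T 0x2000000000000000000000000000000000000000000000002040000800000800001 := rS 0x14d4262378705a710200c9a1b (k8 i66 i30 i999 a349 a662 i91 i1080 i2684 (k4 i316 i822 i715 a211 k0)) (by decide +kernel)
def a1114 : PP 8 4 T 0x2200000000000000000000000000000400000000000000002000000000000801800 := rS 0x295700f15a446a04018bc0243 (k8 a1052 a1053 a1113 i999 a349 i1116 a1104 i898 (k4 a17 a1112 i361 a1111 k0)) (by decide +kernel)
def a1115 : PP 8 4 T 0x400000000020102000000000000004100404000001141000055054050018000000000000000000000 := rS 0x41a0598853522d369f (k8 a33 a41 a52 a388 i1869 i508 a535 i895 (k1 i2045 k0)) (by decide +kernel)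
def a1116 : PP 8 4 T 0x2000000000000000000010000000000400010100000000002000000000100805800 := rS 0xa61ed158cf14d1ac22834097625195f9948e9d6799d545656c5a87115a0fcf6796496476913893436994b9bd6e514ab2d8ac349a240803829dcfe1f29a84e6a922104c62f0090dfad3 (k8 a82 a70 a1052 a1053 a1113 i534 i740 a386 (k8 a1080 a1047 i821 i828 i237 a1066 i711 a1114 (k8 i999 a349 i277 a1070 a276 a277 i619 a1075 (k8 i494 a577 i969 a989 a837 i66 i30 a662 (k8 a1104 i1155 i868 i1124 a353 a418 a461 i2044 (k8 a444 a84 a201 i1288 a1076 a439 a350 a368 (k8 a399 i305 i1579 a367 a1115 a406 a5 a45 (k8 a68 i483 i507 i2045 a198 a132 a111 i1258 (k2 a442 i337 k0))))))))) (by decide +kernel)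
def a1117 : PP 8 4 T 0x2100000000000000000000000000000000000200000000004200000000000805000 := rS 0x7291c6055 (k4 i1540 i970 i225 a459 (k1 a425 k0)) (by decide +kernel)
def a1118 : PP 8 4 T 0x2100000000000040000000000010000000020000000000100200000000040005000 := rS 0x1c8c023870ab0d (k4 a340 i1542 a377 i225 (k2 i1233 a425 (k1 a408 k0))) (by decide +kernel)
def a1119 : PP 8 4 T 0x402000000000000000014001008000000000000000080000002400000000400805800 := rS 0x4009906295dd3d8cf135845169b8c0fcf67915a44e2040193436994b9bc3eb728a84a6735491082631780486fd (k8 a70 a1052 a1053 a1113 i534 i740 a386 a1080 (k8 a1047 i828 i821 i494 a577 i237 i969 a989 (k8 a837 i66 i30 i999 a349 a662 a1104 i898 (k8 a353 a418 a461 a406 a41 a52 i523 i547 (k8 a198 a132 a59 i1680 i258 a899 a127 i2045 (k1 i1770 k0)))))) (by decide +kernel)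
def a1120 : PP 8 4 T 0x2000000000000000000000000000000400000000000000002000000000100805800 := rS 0xcf352690e8340976245711a14aabf239996acd882a8caad8bd0d707f3ba44f67964964e2040193436994b9bd6ecb62b0cea4b3ec14a21f29a84e6a9318bdfa442080486d3 (k8 a82 a1052 a1053 i740 a386 a70 a1113 i534 (k8 a1080 a1047 i821 i828 i237 i494 a1114 a1118 (k8 i29 a1117 a276 a277 i619 a577 i969 a989 (k8 a837 i66 i30 i999 a349 a662 i868 i1124 (k8 a353 a418 a1104 i711 a1066 a1116 a351 a465 (k8 i1290 i1027 a439 a466 a1006 a201 a352 i305 (k8 a367 i1657 a361 a9 a58 a1119 a5 a45 (k4 a68 a69 i2045 a460 (k2 i1152 i548 k0))))))))) (by decide +kernel)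
def a1121 : PP 8 4 T 0x2000000000000000000000000000000400000000000000002000000000000805800 := rS 0x47728808705 (k4 a1114 a1052 a1120 a46 (k2 i1530 a425 k0)) (by decide +kernel)
def a1122 : PP 8 4 T 0x2100000001000000100020000000010000000000040000000000014000000000800 := rS 0x551914917 (k4 a465 a1045 a352 i362 (k1 i1659 k0)) (by decide +kernel)
def a1123 : PP 8 4 T 0x2000000001000040000010000010014400010554000000000000000001540000000 := rS 0x2d2207f (k4 a1066 a107 i2044 a444 k0) (by decide +kernel)
def a1124 : PP 8 4 T 0x2000000000000000000000000000000400000000000000002000000000000801800 := rS 0x154a5270721ab53f081727d499dcea672b8cc46e5072560a6f2887d4253449cd5263179c488041a89482030dbf5a64d218059259 (k8 i868 i1124 a1053 a1052 i30 a82 a70 i66 (k8 i999 i740 i860 i1116 a349 a386 a662 a1113 (k8 i534 a1080 a1047 i277 i828 i821 i237 i494 (k8 i969 a1114 a1075 a1121 a424 i245 i285 i502 (k8 i542 i971 i712 a1020 a936 a1122 a1123 a1077 (k4 i102 a35 a377 a467 (k2 i1381 i760 (k1 i580 k0)))))))) (by decide +kernel)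
def a1125 : PP 8 4 T 0x2200000000000000000010000000000400000000000000002000000000000400820 := rS 0x7f3e9bd6a4e5024d2a712018c342f0cbf4964d39a2552ad3a994ee55 (k8 a72 i751 a63 i1010 a445 a1061 i277 a1059 (k8 i30 i29 a70 i229 a1092 a437 i534 i747 (k8 i750 a1042 a1109 i300 i301 a1057 i1272 i1273 (k2 i759 i2044 k0)))) (by decide +kernel)
def a1126 : PP 8 4 T 0x2200000000000000000010000000000400000000000000002000000000100001800 := rS 0xc761a9874bf4d20e25194eb3cce3508c584f115a2dd027d3fc31426f8a89488934aa5d327117060c6020d815fad3489ecf2430087ca67344aa42ead3a994ee55 (k8 a72 i751 a63 i1010 a445 a1124 a1061 i277 (k8 a1059 i828 i237 a1053 a1052 a353 a418 a1104 (k8 a82 a70 a1125 i748 a349 i533 a437 i302 (k8 i750 a837 a989 a1042 a1109 i1007 i349 a363 (k8 i2684 i2185 a389 a1066 a340 a4 a118 i2044 (k8 a444 a725 a201 i484 a348 a350 a368 a399 (k8 a784 a406 a68 i2045 i1455 i1175 i1176 i373 (k2 i337 a1035 k0)))))))) (by decide +kernel)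
def a1127 : PP 8 4 T 0x2200000000000000000020000000400040000000000000002000100000000401820 := rS 0x63b154c8237c34a24e5011480c36086822350ca44964d3d9e4a6734491cd717389dcaa315283d2e6365aa5fabf (k8 i1457 a70 a1061 a385 i1405 a989 a17 i361 (k8 i987 a72 i751 i1408 a465 a464 a451 i277 (k8 a1059 i828 a353 a418 i30 i29 a1104 i229 (k8 i354 i523 a437 i1250 a1105 i747 i269 i300 (k8 i301 i493 a413 i1272 a920 i920 i1919 i337 (k1 a132 k0)))))) (by decide +kernel)
def a1128 : PP 8 4 T 0x2200000000000000000020000000000400000000000000002000000000000001800 := rS 0x18a11618f57a825ba058f0c1a288df15158b830020d81516394d8ee31134ba656b10319c62efd489ecf20139a2552176583c8e6b3a994ee55 (k8 a72 i751 a63 i1010 a464 a451 a17 a385 (k8 a1124 a1061 i277 a1059 a1053 a353 a418 a1104 (k8 a70 a465 i1408 i1405 a466 a201 a837 a989 (k8 a205 a406 a345 a41 a42 a52 a1127 i748 (k8 a349 a437 i302 i388 a363 i2684 i1138 i1137 (k8 a389 i412 a4 a118 i2045 i1415 i1256 i329 (k2 i563 i1654 (k1 a132 k0)))))))) (by decide +kernel)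
def a1129 : PP 8 4 T 0x2200000000000000000000000000000400000000000000002000000000000001800 := rS 0xfd0c37c552695388b96a7d3180840055c9dceaa52aab4ca0f7e8043e5339a255217 (k8 a1124 a1061 i277 a1059 i828 i237 a1053 a70 (k8 a17 a63 a445 a72 i361 i1010 i751 a1128 (k8 a1125 a1126 a349 i533 i1502 i728 i302 i750 (k4 a1042 a1109 a363 i2684 (k2 a389 i2044 (k1 a35 k0)))))) (by decide +kernel)
def a1130 : PP 8 4 T 0x20012000000000000004500000000001040000085054050000500000000000000000800 := rS 0x5d1a9048b4da7dfa91 (k8 a1104 a70 a33 a41 a52 a920 a388 i926 (k1 i1947 k0)) (by decide +kernel)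
def a1131 : PP 8 4 T 0x12100000000000000500011000000154400015554000000580000000000000000800 := rS 0x5ed153c9a43a0e251967c593a6533a1554545fb36867e7ea4502b7 (k8 a125 a124 a1104 a70 i2044 a133 i848 i1724 (k8 a1044 i760 i1670 i1619 i1659 a544 a352 a368 (k8 a1130 a406 a68 a69 i2045 i2046 a111 i1417 (k1 a856 k0)))) (by decide +kernel)
def a1132 : PP 8 4 T 0x20002000000000000000014400000020040000005054080000500000000000000005820 := rS 0x63298226b4122d36fd48c348e03 (k8 i24 i1618 a413 a1104 a70 a41 a52 a920 (k4 i547 i523 i920 a132 (k1 i337 k0))) (by decide +kernel)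
def a1133 : PP 8 4 T 0x14002000000000000001014014000004141001105054000000000000400015500000000 := rS 0x9da7b3d8c9a43a0c5712 (k8 a406 a8 a68 a69 i2045 i2032 i1151 a59 (k2 i1641 a463 k0)) (by decide +kernel)
def a1134 : PP 8 4 T 0x2100000000000000000014000020144000100854000000102000000014500005820 := rS 0x28a84c6532ac226b412f9169b8c2b48e9f42b34cd177ea44f67929b2d8ac3018ec4b0d (k8 a413 a1086 a435 i24 a276 a277 i619 i828 (k8 a353 a418 a1104 a70 a332 i752 i2510 i1632 (k8 i1716 i1618 i1621 a1133 a41 a52 a1132 a920 (k8 i547 i523 a367 i920 a132 a439 i336 a395 k0)))) (by decide +kernel)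
def a1135 : PP 8 4 T 0x20012000000000000004100000000001040000025054050010500000000000000000800 := rS 0x421a9048b4da7dfa91 (k8 a1104 a70 a33 a41 a52 a920 a388 i1442 (k1 i1869 k0)) (by decide +kernel)
def a1136 : PP 8 4 T 0x2000000000000000000010000000000400000500000000002000000000000005820 := rS 0x63844703778a68d6832ec4a329d678ccce6523c59585651c44f83f489ecf2c92c94ce6cb62b0c769538a652efd4998c5e8954b4c465122c356aa012c1502b737938801a0c9342e4b (k8 i29 a1124 i30 i229 a437 i747 i301 i1272 (k8 a125 a124 a1129 a1086 i300 i880 a413 i269 (k8 i493 i2137 a82 a1061 i277 a1092 i534 a1070 (k8 a70 a989 a837 i750 a1075 a435 a276 a277 (k8 i619 a1059 i828 i868 i1124 a353 a418 a1104 (k8 a461 a1131 a73 i1593 a936 a1110 a466 i304 (k8 i1579 i1621 a360 a368 a399 a1135 a406 a5 (k8 a68 i507 i2045 a198 i995 a419 i524 i298 (k1 a132 k0))))))))) (by decide +kernel)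
def a1137 : PP 8 4 T 0x20002000000000000000014001000060040000005054000008500400000000000005820 := rS 0x31cd6a666845048b4dbf5230d (k8 a413 a1104 a70 a41 a52 a920 i523 i894 (k4 i920 i508 i336 a132 k0)) (by decide +kernel)
def a1138 : PP 8 4 T 0x10002000000000000000014004000000140000105054000008000000004000000005820 := rS 0x18e111c0dde29a35a0cbb121fa447647 (k8 i264 a435 a1104 a461 a406 a5 a68 i507 (k4 i2045 a198 i995 a419 (k2 i524 i298 (k1 a132 k0)))) (by decide +kernel)
def a1139 : PP 8 4 T 0x2000000000000000000010000000000400000000000000002000000000100005820 := rS 0x56d0d451823aacac33321d0ee6f5ba056a512728046934ba64e229229004e95318684a2f0cbf5a64b269ecf25339a25521765b158705 (k8 a1129 a276 a277 i619 a1124 a1061 i277 a1059 (k8 i828 a353 a418 i30 i29 a82 a70 i229 (k8 a1092 a1086 a437 i534 a1075 i2505 i747 i269 (k8 i275 i750 a837 a989 a1070 i2137 i300 i301 (k8 i493 i880 a124 a125 i1272 a1134 a1136 i1010 (k8 i1585 i1011 i1659 i264 a1138 a1137 a395 i1553 (k1 a439 k0))))))) (by decide +kernel)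
def a1140 : PP 8 4 T 0x20002000000000000004014005008001140000105054000000000000155000000000800 := rS 0xbba7a098c9b4f8ec7e91 (k8 a1104 a461 a345 a33 a41 i2035 i2045 a59 (k2 i1680 a899 k0)) (by decide +kernel)
def a1141 : PP 8 4 T 0x2100000000000000414005001000020000145154006010000000145000000000800 := rS 0x1746a4d21d065d894659a8588154aeaa3233d3a3548a652efd (k8 a70 a989 a837 a1104 i2696 i1678 i1104 a1042 (k8 a476 i1579 i1657 a362 a361 a380 a1140 a406 (k4 a5 a68 a69 i2045 (k2 a460 i1182 (k1 i1947 k0))))) (by decide +kernel)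
def a1142 : PP 8 4 T 0x20002000000000000000014004000000140000105054080000000400000040400005800 := rS 0xc614045e2271ec4cd68245a6c7e91 (k8 a1104 a461 a41 a52 i2045 i547 a68 i1256 (k4 i736 a198 i563 a127 (k2 a132 i258 k0))) (by decide +kernel)
def a1143 : PP 8 4 T 0x2000000000000000000004000000148400110514002000002000004040000005800 := rS 0x270d49a43a0cbb128c88d0a552b91d9b10332b14717489ecf2c92c9cd12a90bb158705 (k8 a1129 a276 a277 a1124 a1061 i277 a1059 i868 (k8 i1124 a353 a418 a1104 a19 i1633 i1281 i1282 (k8 a466 a1006 i304 i1581 i1619 a361 a9 a1142 (k8 a406 a5 a68 a69 i2045 a460 i1450 i1908 k0)))) (by decide +kernel)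
def a1144 : PP 8 4 T 0x2100000000000000414015001000004400155554006010000000145000000000800 := rS 0x95 (k2 a1141 i2044 k0) (by decide +kernel)
def a1145 : PP 8 4 T 0x2000000000000000000002000000140400040110000000002200000800000005800 := rS 0xa663268d6114197625195f99554474eb3cce5656c5a87117ea44f6796496596c561c14fa815bc322a7344aa42e6f (k8 i2684 a1124 a1061 i277 a1059 a363 a389 a118 (k8 a4 a340 a1129 a276 a277 i619 i868 i1124 (k8 a353 a418 a1104 a70 a444 a84 a201 i1288 (k8 a1076 a350 a368 a399 i305 a439 i1579 a367 (k8 a1115 a406 a5 a68 i483 i507 i2045 a132 (k2 i1176 i337 k0)))))) (by decide +kernel)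
def a1146 : PP 8 4 T 0x2000000000000000000015000000000400150504006000002000145040000005800 := rS 0x499ecf25939a2596c561c14e2994baa42efd (k8 a70 a1124 a1061 a989 a837 i750 a1129 a276 (k8 a277 i619 i277 a1059 i868 a353 a418 a1143 (k1 a1144 k0))) (by decide +kernel)
def a1147 : PP 8 4 T 0x2000000000000000014000000000140000000850000000002000004841100005800 := rS 0x2769ec613b3d4c9a43a0c53128c91d3e8511b34cd17489ecf2815bc322a6f (k8 i2684 a363 a389 a118 a4 a353 a418 a1104 (k8 a332 i752 i2510 i1625 i1632 i1716 i1617 a1142 (k8 a406 a54 a68 a69 i2045 i1176 i2791 i1914 (k4 i2032 a59 i1640 a463 k0)))) (by decide +kernel)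
def a1148 : PP 8 4 T 0x2000000000000000000010000000000400040500006000002200145840000005800 := rS 0x2d532977e9f502b786454e27344aa42e6f (k8 i2684 a1124 a1061 i277 a1059 i750 a363 a389 (k8 a118 a4 a340 a70 a989 a837 a1145 a1146 k0)) (by decide +kernel)
def a1149 : PP 8 4 T 0x802100000000000000000000000000140000005054000008000600000800000005800 := rS 0x286ab512f94cc64d1ac22832ebf522cb62b0d02b7569f61915 (k8 a363 a389 a340 i1581 a118 a4 a276 a277 (k8 i619 a1104 a70 a5 a68 i483 i507 i2045 (k4 a132 i1176 i337 i336 (k2 a367 a395 (k1 a439 k0))))) (by decide +kernel)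
def a1150 : PP 8 4 T 0x2000000000000000000010000000000400000000000000002000000000100005800 := rS 0x4c826326d3e3b8c44c8ecf43a74ac352a9d0eeb7409fe18a119894df15159112e99388c45c601b8e430630106c0ac362bf47ed34892cf6790087ca67344aa42f05 (k8 a1129 a1124 a1061 i277 a1059 i828 i237 a1053 (k8 a353 a418 i29 a1104 a82 a461 a70 a277 (k8 a276 a1139 i748 a349 i533 a437 a401 a446 (k8 i303 i302 i1003 i750 a837 a989 i1007 i388 (k8 a363 i2684 i2207 i2094 i2185 a389 a1066 a4 (k8 a118 a1147 a1148 i1540 i1062 i1011 i1592 i1708 (k8 i1067 i225 a1149 a406 a203 a33 a41 i2035 (k2 i2045 a275 (k1 i736 k0))))))))) (by decide +kernel)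
def a1151 : PP 8 4 T 0x2100000000000000000000000000000400000014000000002000000000000408820 := rS 0x511aa814a4520254c61a17865fa4b269cd12a9 (k8 a1061 i277 a1059 i30 i29 a70 i229 a1092 (k8 a437 i534 a1075 i747 i269 i2212 i300 i2210 (k2 i493 a1090 k0))) (by decide +kernel)
def a1152 : PP 8 4 T 0x2100000000000000000000000000000400000014000000002000000000100408800 := rS 0x1f44a7f86284882e30060041b02b4c021f299cd12a9 (k8 a1061 i277 a1059 i828 i237 a1053 a82 a1151 (k8 i748 a349 a437 i303 i302 i1007 i311 a183 (k4 a1066 i2207 a340 a1098 k0))) (by decide +kernel)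
def a1153 : PP 8 4 T 0x2000000000000000000000000000000000000000008000002000000000000400800 := rS 0x105c4d (k4 i30 i534 i533 a1092 k0) (by decide +kernel)
def a1154 : PP 8 4 T 0x2000000000000000000000000000000000000008000000002000000000000400800 := rS 0x6c3244019405e4b (k8 i29 i2684 i1009 i302 i493 i1006 i269 a437 k0) (by decide +kernel)
def a1155 : PP 8 4 T 0x2000000000000000000010000000000400000000000000002000000000000005800 := rS 0x47728808705 (k4 a1129 a1052 a1150 a46 (k2 i1530 a425 k0)) (by decide +kernel)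
def a1156 : PP 8 4 T 0x2000000000000000000000000000000400000000000000002000000000000009800 := rS 0x1fa189550a4cee3417180ea1833808ae7d0d8144001649643e5339a2553053898cde17 (k8 a1124 a1154 a1153 i750 a1129 a1061 i277 a1059 (k8 i828 i237 i868 i1124 a1053 a1152 a1151 i2504 (k8 i1502 i1497 a349 i541 a437 i1011 i303 i302 (k8 i340 i752 i1282 i311 i2696 a183 a1077 a35 k0)))) (by decide +kernel)
def a1157 : PP 8 4 T 0x2000000000000000000000000000000400000000000000002000000000000001800 := rS 0x2ee9ebda2b193487418ad0b128cc34a2a0118a48a40138683204018bc42251ab913ebf239999aaa3aab62f4332ae186c56583cde973898e0a5339a25521764804f27b25bf47e91 (k8 a1104 a461 a70 i29 a418 a353 a1053 i1124 (k8 a1124 a1061 i277 a1059 i828 a1129 a1153 i750 (k8 a989 a1154 a1156 i619 a277 a276 a1155 i1027 (k8 a351 a465 i1290 i1065 a439 a1006 a352 i305 (k8 a367 a414 a425 a364 a409 a46 i1137 i302 (k8 a349 i1006 a437 i2505 i747 i269 i275 i273 (k8 i300 i493 a413 a1132 a406 a1002 a8 a68 (k8 a69 a920 i2032 a111 i1418 a59 i1680 a404 k0)))))))) (by decide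 +kernel)
def a1158 : PP 8 4 T 0x20002000000000000005000000001001141401025500005000400000000000000000000 := rS 0x40a195c9f (k4 a33 a260 i2046 i1862 (k1 i1710 k0)) (by decide +kernel)
def a1159 : PP 8 4 T 0x2000000000000005014000001001141401025500005000400000405041108000000 := rS 0xdc72f14f3190f128c89c4629 (k8 i275 i273 i785 a1158 a406 a69 i2032 i2046 (k4 a27 i298 i996 a419 k0)) (by decide +kernel)
def a1160 : PP 8 4 T 0x800000000000000002100000000000000000000000000000000000000000000000400000000000015000 := rS 0x35b1d8ac3 (k4 a276 a277 a59 a394 (k1 a132 k0)) (by decide +kernel)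
def a1161 : PP 8 4 T 0x400000000000000102000000000000001014000001000140001008400005000208004404041508000000 := rS 0x72f16309c6e9a45abcbb1214a1e3219 (k8 i67 a390 i817 i1890 a436 a5 i499 i491 (k4 a336 i995 i786 i2032 (k2 a27 i298 (k1 a419 k0)))) (by decide +kernel)
def a1162 : PP 8 4 T 0x400000000000000002000000000000004514010001001014400020504004000000200405041118000800 := rS 0xae5ba6cf08b3da159a544194158a055c461a3f69a4446530f994c2994bbf4ce4a (k8 i269 i490 a70 a989 a837 i1047 i1049 i2151 (k8 i565 i273 a1104 a82 a461 a340 a73 i1596 (k8 a377 i2040 i309 i919 i1314 a330 a455 a1161 (k4 i492 a1159 i1074 i1933 (k2 a336 i500 k0))))) (by decide +kernel)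
def a1163 : PP 8 4 T 0x2100000000000000500010001000154001018400015000208404400041508015000 := rS 0x4fa2c6c5d1cb318cf1889acacaa56b1586317253d3a3367c58cf19 (k8 a390 i490 a352 a368 a360 a544 a1160 a425 (k8 a459 a276 a277 i1313 i2040 i497 i2315 a58 (k8 a198 a132 a1161 i298 i1970 a419 i491 i996 (k1 a388 k0)))) (by decide +kernel)
def a1164 : PP 8 4 T 0x2000000000000000004004008010000000500000800008000004000050050010000 := rS 0x14e271eaf0b8ae (k4 i585 i507 i586 i1781 (k2 i1765 i1984 (k1 i2031 k0))) (by decide +kernel)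
def a1165 : PP 8 4 T 0x2100000000000000100010001000014400008554004000000200400041108015800 := rS 0x1169b1b0e55ec6789ad54bf2b2b686b43fa856e5114a0506858c8fda6590c88ca61f30a652efd3eb3c671632a74ce4aa78c5c8470eb0d8acb (k8 i619 a277 a276 i781 i2149 a425 a459 a1160 (k8 i269 i490 a544 i1049 a352 a360 a368 a1162 (k8 a70 a989 a837 i1047 i2151 i565 i273 i67 (k8 i603 a82 a461 a390 i1896 i815 i1894 i1890 (k8 a1163 a577 i309 a897 i2044 a84 i1288 a1076 (k8 i1455 i2040 a1164 a198 a132 a187 i298 a419 (k2 i995 i1773 (k1 a336 k0)))))))) (by decide +kernel)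
def a1166 : PP 8 4 T 0x2100000000000000500010001020154440010554055000000604400001000015000 := rS 0xde32394f2bd8cf135afe86aa3f2b56a5062b0c62e44e8cd9f16 (k8 a352 a368 a360 a544 a425 a459 a276 a277 (k8 i309 i880 i1313 i2044 i2040 a133 a367 i2315 (k8 a198 a132 a187 a388 i298 a260 i996 a419 k0))) (by decide +kernel)
def a1167 : PP 8 4 T 0x2000000000000004100000000001000040002100050008000000000000000000000 := rS 0x1ad3ecd (k4 i1973 i1075 i508 a388 k0) (by decide +kernel)
def a1168 : PP 8 4 T 0x2100000000000000000010001000010400000554004000000200000000108005820 := rS 0x8c9e57eaa2b2b6871140ad16f0c3f945428b3d9f59e338b274ce3f48b2d8ac31d895922b20924b21d2987cca6118b929e112511d32977ea4d12d3 (k8 a82 i277 a1070 a70 a989 a837 i2149 i269 (k8 i2303 a1160 a425 a459 i1047 i1049 i2151 i565 (k8 i781 i603 a1157 i261 a818 i611 a1086 a435 (k8 a276 a277 i619 a1104 a461 i490 a544 a352 (k8 a360 a368 a1162 a1165 i492 a1166 i494 a897 (k8 a377 a577 i2044 a4 a444 a84 i1288 a1076 (k4 i2040 a367 a1167 a1115 (k1 a1138 k0)))))))) (by decide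 +kernel)
def a1169 : PP 8 4 T 0x400000000000004002000001000000000000010001005000000008000405000000000500000000010800 := rS 0x7b455729d368b1b33a323f69a652efd (k8 a70 a989 a837 a82 a461 a390 a463 a419 (k4 i1978 i1151 i3100 a336 (k2 a381 i1781 (k1 a442 k0)))) (by decide +kernel)
def a1170 : PP 8 4 T 0x14002000001000000001014010000004140001105054000000000000500015500000800 := rS 0x1ed154eb61b0fda691 (k8 a1104 a82 a461 a419 a1133 i1916 a116 i1783 (k1 a442 k0)) (by decide +kernel)
def a1171 : PP 8 4 T 0x2100000000000000000010001000000400000154000000000200000400108005820 := rS 0xa0ae5b46102792ec499a273d8e4528543b19e29d2b1ad3e668b9d92e994abf58ac3318ec4ac91590492232987cca61a78449447 (k8 i2149 i269 i2303 a1160 i1047 i1049 i2151 i565 (k8 i273 a1157 i261 a818 i611 a1086 a435 i534 (k8 a276 a277 a70 a1075 a837 a989 a1168 a332 (k8 a352 a414 i2309 i489 a179 a198 a132 a387 (k8 i1631 i2158 i299 a1169 i785 i809 a275 a5 (k4 a398 a45 a1170 a1142 (k2 a260 a577 (k1 i499 k0)))))))) (by decide +kernel)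
def a1172 : PP 8 4 T 0x40000000000000210000000000000010000400a010000000108010050008000404400040051015000 := rS 0x4f0d9163957b19e26b14a0e32c5618c5c89d19b3e2cbf (k8 a367 a352 a368 a360 a544 a425 a459 a276 (k8 a277 a390 i815 i1890 a1164 a198 a132 a187 (k4 i298 i577 a419 a388 (k1 i996 k0)))) (by decide +kernel)
def a1173 : PP 8 4 T 0x400000000000102100000000000000000404000000140000155054050018000000000000000005820 := rS 0x11848b15869d19b3e2cc9 (k8 i611 a352 a368 a360 a544 a276 a277 a1104 (k2 a1138 a1115 k0)) (by decide +kernel)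
def a1174 : PP 8 4 T 0x2000000000000004100000008001200040000000050000000000000000000000000 := rS 0x352f53ebf (k4 a367 i1113 i1990 a388 (k1 i586 k0)) (by decide +kernel)
def a1175 : PP 8 4 T 0x2100000000000000000004002010000000000154040010008400000040108005820 := rS 0x364f0f0d6834b29d32293ca2c4e7b5faa8acada1c4568a3678ce2c9d7e8fd22a565b0c7625648643e1d1199422c118b91107d409fe1915 (k8 a400 a389 a35 a4 a340 i573 a425 a459 (k8 a408 i2303 i1049 i273 i781 i2151 i67 i611 (k8 a1086 a435 a276 i619 i361 a1104 a461 a70 (k8 a544 a352 a360 a368 i280 i2030 a444 a84 (k8 i1288 a1076 a439 a367 a1172 i785 i492 a1167 (k8 i275 a1174 i283 a1173 i1376 a1164 i2031 a388 (k2 i1347 i996 k0))))))) (by decide +kernel)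
def a1176 : PP 8 4 T 0x2100000000000000000010000000000400000154000000000200000400108005820 := rS 0x51ad52517331fcfaa15bc30a31554305c8532388c3a4a0fbf54a25159049259 (k8 i603 a1157 i261 a818 a1086 i361 a70 i2151 (k8 i269 i781 i273 i2149 i565 a425 a408 a1171 (k8 a400 i2313 a389 a577 i309 a340 a35 a1175 (k4 a350 i576 a201 i1634 (k1 i2030 k0))))) (by decide +kernel)
def a1177 : PP 8 4 T 0x2101000000000000001011000100014400000554000010020600010400002000000 := rS 0x3f14cfaad51154663144a845a51 (k8 i528 i1039 i310 i231 i1041 i233 i791 i2033 (k4 i1553 i1594 a184 i2044 (k1 a1044 k0))) (by decide +kernel)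
def a1178 : PP 8 4 T 0x2101000000000000401010000100014010000000020000000400011500000000000 := rS 0xada1a895633 (k4 i1545 i1659 i2033 a395 (k2 i1553 a439 k0)) (by decide +kernel)
def a1179 : PP 8 4 T 0x2000000000000001000000000000000000008100080015004000000000000000000 := rS 0xd4cf439750a9f (k4 a414 i1896 i1892 i818 (k2 i1980 a460 (k1 i548 k0))) (by decide +kernel)
def a1180 : PP 8 4 T 0x400000000000002100000000000008000404000000000000500000400000560404000000000015000 := rS 0x5c45abd8ac3 (k4 a276 a277 a187 i1978 (k2 a108 i531 k0)) (by decide +kernel)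
def a1181 : PP 8 4 T 0x400000000000002100000000000008000015008000140010100000080000560404500500000015000 := rS 0xa71e8dd78ae451a9069b5db0e9ebf (k8 a367 a1160 a276 i1951 i1151 a899 a1180 i547 (k4 i585 i586 i1773 i1781 (k2 i1984 i2034 k0))) (by decide +kernel)
def a1182 : PP 8 4 T 0x2100000000000000000010000000000400000154000000000000000400100405820 := rS 0x5d41a2d771857b193a6b67a057f0c5baa87253a19ed44336688d5a9f88198aa653ec5cecc15ad3d2e994ab9126570893d52511691d12312612c301b7e8fda6a565b1586631d8d59259221049243 (k8 i518 a1157 i261 a386 i603 i611 i354 a435 (k8 i534 a276 a277 i619 i361 a82 a461 a70 (k8 a1176 a437 i486 i229 i1041 i231 i2106 i1039 (k8 i528 i2388 i789 i2347 i530 a1070 a425 a1075 (k8 a837 a989 a1160 a1076 a408 a1177 a332 i1629 (k8 a1178 i792 a352 a362 a414 i1621 a9 a380 (k8 i232 i2033 a1179 a395 a184 i235 a439 a577 (k8 a467 a367 a4 a1181 i548 a179 a132 a187 (k4 a463 i1680 a52 a899 (k2 i531 a108 k0)))))))))) (by decide +kernel)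
def a1183 : PP 8 4 T 0x400000000000002100000000000008000404000000000000100200400000560404000000000015000 := rS 0x104cc (k2 i1068 a1180 (k1 i895 k0)) (by decide +kernel)
def a1184 : PP 8 4 T 0x2100000000000000000010000000000000000214000000000200000440104405820 := rS 0xba8345af230cf57afd029b5baa976851c94cfb43633c53a9f8ba895a6b3321d834f4ba652a56720449ea9289545aa1238c5124c1992c30fd1fa9596c56198c76352cc44fe93 (k8 i1590 i1668 a453 i603 i354 a435 i534 a276 (k8 a277 i619 i361 a461 a70 a437 i486 i1586 (k8 i229 i231 i1042 i2106 i310 i1039 i1540 i528 (k8 i2388 i789 i2347 a425 a362 a1075 a837 a989 (k8 a1160 a408 a387 i529 i2353 i1582 i2033 a350 (k8 a414 a179 a198 a132 a395 i1594 a184 i2115 (k8 i1602 i1680 a439 a577 a828 a535 a367 a187 (k4 a1183 a463 i2048 a52 (k2 i1416 i531 (k1 a108 k0)))))))))) (by decide +kernel)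
def a1185 : PP 8 4 T 0x2101000000000000401000000110010000050000020000008400000001150000000 := rS 0x2b686a25a88d5654 (k8 i1050 i1659 i1537 i768 i2030 a395 i1553 a439 k0) (by decide +kernel)
def a1186 : PP 8 4 T 0x400000000010002100000000000000000400001000140000000000405000000404404000000015000 := rS 0x8b4d8d872af633c58ac3 (k8 a276 a277 a198 a132 a187 i298 a419 i995 (k2 i1773 a336 k0)) (by decide +kernel)
def a1187 : PP 8 4 T 0x2000000000000000004004008010000000100000800008000004000040050010000 := rS 0x418a598bf (k4 a367 i508 i1968 i895 (k1 a1164 k0)) (by decide +kernel)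
def a1188 : PP 8 4 T 0x2100000000000000100010001000014000050200005000108600400041150015800 := rS 0x8c2bcd7435faa95a56199562c6540c316ea11fb4d4acb62b0cb3112999ceec1722652efd (k8 a70 a989 a837 a425 a408 i79 i490 i565 (k8 a453 i603 a276 a277 i619 i361 a82 a461 (k8 i309 a577 a377 a4 a1185 a352 i1539 a360 (k8 a362 i1581 i2040 a367 a106 a1187 a187 a1186 (k1 a260 k0))))) (by decide +kernel)
def a1189 : PP 8 4 T 0x10002100000000000000000000000000000000000000400000000400444000000015000 := rS 0x38633c58ac3 (k4 a276 a277 a198 a132 (k2 a419 i298 k0)) (by decide +kernel)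
def a1190 : PP 8 4 T 0x10002000000000000000080000000000000000000000000000000000444000000000000 := rS 0x72f1 (k2 a27 i298 (k1 a419 k0)) (by decide +kernel)
def a1191 : PP 8 4 T 0x2000000000000000000000001000141048040000005000200000000000000000000 := rS 0x15e9b5bc4d070d (k4 a65 a374 a69 i856 (k2 a991 i500 (k1 a336 k0))) (by decide +kernel)
def a1192 : PP 8 4 T 0x2100000000000000100010001000014000050200005000000200400041118015800 := rS 0x364d4658caf1497624874589cf68566950666411aad5aa0280fd22cb62b0e221f33928ef4f23a652efd (k8 a70 a989 a837 i2149 a1160 i79 i269 i490 (k8 i2151 a453 a276 a277 i619 a1104 a461 a1188 (k8 i494 i1313 i498 i312 i2040 i1585 i1050 a330 (k8 a455 a1161 i785 i492 a1191 a436 a5 a54 (k4 i499 i2032 a260 a336 (k2 a1190 i995 k0)))))) (by decide +kernel)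
def a1193 : PP 8 4 T 0x400000000000014102100000000000000114000001000000000040400005000208400401041108000800 := rS 0xa2248745b1c4e7b1b88d0acd4f0cca8cf320fd229d33a652efd (k8 a70 a989 a837 i490 a544 a1104 a461 a352 (k8 a454 i1050 i1545 a463 a330 a455 i1537 i996 (k8 a1161 i786 a1190 i492 a1191 a436 i2032 a54 k0))) (by decide +kernel)
def a1194 : PP 8 4 T 0x2000000000000000500010015000014000020000045000008000000000000000000 := rS 0xc855 (k2 i1541 i2040 (k1 i1050 k0)) (by decide +kernel)
def a1195 : PP 8 4 T 0x400000000000010102100000000000001114000001000000001040400005000208400401041108000800 := rS 0xd934c6578a4bb1243a2c4e7b118ce2c3f48a652efd (k8 a70 a989 a837 a1104 a461 a1193 a360 i272 (k8 a1161 i785 i492 a1191 a436 a5 a54 i499 (k4 i2032 a336 a1190 i995 k0))) (by decide +kernel)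
def a1196 : PP 8 4 T 0x2100000000000000100010001000004000040200001000000200400441118015800 := rS 0x2245c43ab93f1842b34a8ac28281570d3e25d32957eb4d96c56198e22530f99c9477a78c5c847 (k8 i2149 a425 a459 a1160 i79 i269 i490 i2151 (k8 i565 a453 i534 a276 a277 i619 a82 a70 (k8 a1075 a837 a989 a1192 a340 i1596 a377 i309 (k8 a1194 i1314 a330 a455 a1195 a33 a260 i1707 (k2 i499 a436 (k1 a5 k0)))))) (by decide +kernel)
def a1197 : PP 8 4 T 0x10002100000000000000100004012010000020150210000010008400400041108015800 := rS 0xd93c8b359ed55435a08d4656678ccab1632bf47ea565b0e22190f8753a673bb0462e4 (k8 a425 a459 a408 i79 i490 a544 i781 i2151 (k8 i67 a453 a276 i619 i361 a461 a70 i1089 (k8 a352 i1539 a360 a368 a362 i280 i272 i2030 (k8 a84 a439 a1172 a1187 i492 a388 a1189 i996 k0)))) (by decide +kernel)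
def a1198 : PP 8 4 T 0x102100000000000000001000020110000000050000000010000400000001150000000 := rS 0x222a2d54657 (k4 i1581 i1553 i1288 a362 (k2 i2030 i1537 k0)) (by decide +kernel)
def a1199 : PP 8 4 T 0x2100000000000000000010000000000400000054000000000000000400100405820 := rS 0xa12d15623519a8accf19a2d3e558b460caad409f56ea186220a315543053ae433844c25323874941f0d24cff113b9d1fa3f52b2d863b12b245659221049243 (k8 i518 a1157 i261 a386 i603 a818 i611 a1086 (k8 a435 a276 i619 i361 a461 a70 a1182 i79 (k8 a453 i1668 i1590 a1184 i2151 i269 i781 i2149 (k8 i565 i1047 i2303 i490 a425 a544 a408 a1196 (k8 a400 i2313 i573 a389 i309 a577 a340 a4 (k8 a1198 i1089 a1197 a352 i1539 a33 a52 a360 (k8 a368 a362 a388 i280 i272 a1187 i2030 a439 (k1 a84 k0)))))))) (by decide +kernel)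
def a1200 : PP 8 4 T 0x2100000000000000000000000000000000000000000000000040000000200005000 := rS 0x8ee5 (k2 a46 i1530 (k1 a425 k0)) (by decide +kernel)
def a1201 : PP 8 4 T 0x2100000000000000000010000000000400000014000000000000000400000405820 := rS 0x28929504d39084884320bf49263 (k8 i534 a1157 a70 i261 i518 a386 a1200 a1199 (k4 i837 a1047 a440 i2313 (k1 i1094 k0))) (by decide +kernel)
def a1202 : PP 8 4 T 0x2100000000000000000010000000000400000014000000000000000400000405800 := rS 0x142408610e2a1939935502c228000a03 (k8 i302 a1201 a349 i478 i560 i559 i2383 i976 (k4 i1039 a400 a252 a389 (k2 a386 a413 (k1 i300 k0)))) (by decide +kernel)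
def a1203 : PP 8 4 T 0x2000000000000000000004000000000000100000008000521004080000002010000 := rS 0x419751626 (k4 i1044 i1773 a720 i736 (k1 a668 k0)) (by decide +kernel)
def a1204 : PP 8 4 T 0x2100000000000000000004000000000000100200008010564404440040004015000 := rS 0x4f13412bcba8b8c0a58cf135a1cac5519c458ac3 (k8 a276 a277 a453 i1586 i1540 a362 a387 i2353 (k8 a198 a132 i259 a1189 a52 i531 i539 a108 (k2 a68 i736 (k1 a127 k0)))) (by decide +kernel)
def a1205 : PP 8 4 T 0x400000000000010002000000000000000000004000001010000100010008002564000000000000000000 := rS 0x15e832ea64f49e8bb3cec64 (k8 i792 i791 a454 a332 a463 i1716 i1112 i1892 (k2 i815 i540 (k1 a108 k0))) (by decide +kernel)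
def a1206 : PP 8 4 T 0x400000000000010002100000000000000500000001000000000050110808010564000000000000000800 := rS 0x20d5e5d4b264f29e67c5cc892561552aab4ea456e81863f56a57 (k8 i530 a1076 a70 a467 a4 a577 a1104 i1908 (k8 i2361 a476 a1205 i2037 i1352 i1353 a19 a454 (k8 a463 i1075 i1112 i1718 i532 i540 i1376 a108 k0))) (by decide +kernel)
def a1207 : PP 8 4 T 0x10002100000000000000100000001000000000050110008010564400440000002015800 := rS 0x1c319e26b65b15874f (k8 a1160 a276 a277 i619 a1206 a198 a132 a419 (k1 i2115 k0)) (by decide +kernel)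
def a1208 : PP 8 4 T 0x402000000000000000014000000005000000000000000002020400551044000000000 := rS 0xa5e2c619b3c4664 (k8 i792 i1537 a454 i1545 i2035 a27 i258 a127 k0) (by decide +kernel)
def a1209 : PP 8 4 T 0x1000000000000002000000000000000014000020005000000000000008000000401555000000000800 := rS 0x53bc58ccf3228c7ed3 (k8 a82 a461 i1553 i1353 a454 i2035 a27 i336 (k1 a442 k0)) (by decide +kernel)
def a1210 : PP 8 4 T 0x2100000000000000000000000010000000000010000000001000000800000405820 := rS 0x10cba35aa95a3311a1620556689c7b13a2a095e5d4ea2c729f8c2d4ae751ba069eb7860c4fa59089fca64f1091c884c25aa43ec9310d4863b7e8fda6cb62b0d122b208603651 (k8 i494 i318 a437 i2183 a818 i92 a276 a277 (k8 i619 a82 a461 a70 a435 i518 i354 i316 (k8 i611 i2117 i573 i486 i229 i228 i2106 a1200 (k8 i1351 i2358 a1066 i2347 i603 a1118 i1042 a467 (k8 a577 a1160 a4 a1203 a1204 i530 a1076 a1207 (k8 a33 a42 a52 a347 i531 i539 a108 a48 (k8 a68 i1256 i736 i894 a1208 a362 a361 a9 (k4 i232 a1209 i2037 i2361 (k2 a899 a460 (k1 i1683 k0)))))))))) (by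 decide +kernel)
def a1211 : PP 8 4 T 0x2100000000000000000000000000000000000014000000001000000800000405800 := rS 0x430a473211808a0202a8482180d8062a07 (k8 i87 a363 i1078 i318 a437 i2183 i311 a1210 (k8 a349 i221 i303 a386 i1016 i557 a389 a383 k0)) (by decide +kernel)
def a1212 : PP 8 4 T 0x400000000000002100000000000000000400001000140000000004084000008404000000000005020 := rS 0x22d36368c8e55ec6789ac226162b0c769f (k8 a414 a435 a276 a277 i1047 i2303 i2309 a198 (k8 a132 a187 i299 a260 a419 i995 i1773 a336 k0)) (by decide +kernel)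
def a1213 : PP 8 4 T 0x2000000000000000004000008000140010000000880000000004500500000010000 := rS 0x4da9c7a375e2b9149f (k8 a414 i547 i585 i586 i1773 i1781 i1984 i1418 (k1 i2034 k0)) (by decide +kernel)
def a1214 : PP 8 4 T 0x2000000000000001000000000000000001000000400015020000000008100000000 := rS 0xba87 (k2 i737 a720 (k1 a460 k0)) (by decide +kernel)
def a1215 : PP 8 4 T 0x2100000000000000000020000000000000000004000000001000000400000405820 := rS 0x10e5d8909c52c6789ac727b6688d0b101695c30112612d7e555525d32662cab488211591d52c91a90c823b7e8fd8ac331d0e2e7544a94cacb (k8 i619 i1027 i361 i1403 i1065 a465 a351 i534 (k8 a276 a277 a461 a70 a435 i261 i518 i354 (k8 i611 i573 i265 a818 a1200 a386 i1290 a229 (k8 a352 a837 a989 a439 i1620 a367 a1212 a440 (k8 i2347 i526 i530 i1039 a362 a361 a9 a380 (k8 a1179 i235 a1213 a198 a132 i258 a1214 a127 (k2 a5 a69 (k1 a460 k0)))))))) (by decide +kernel)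
def a1216 : PP 8 4 T 0x2100000000000000000000000000000400000014000000000000000000000405800 := rS 0xa12043087150c935502c228000a735c00c5e49 (k8 a1157 a1211 i302 a1202 a171 a1215 a349 i478 (k8 i560 i559 i2383 i1039 a400 a252 a389 a386 (k2 a413 i300 k0))) (by decide +kernel)
def a1217 : PP 8 4 T 0x12000000000000000404012008000140000400054800100000000000000000810800 := rS 0xf4273cbc2249b538f68ab740af15cbb428fda691 (k8 a1104 a82 a461 i1868 i1947 i585 i586 i1402 (k8 i887 a381 i1781 i1984 i1417 a462 a442 a398 (k2 a76 i2045 (k1 i713 k0)))) (by decide +kernel)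
def a1218 : PP 8 4 T 0x2000000000000000000004000000140000501054000000000000080000004000800 := rS 0x4d9ec7e91 (k4 a1104 a461 i1776 i995 (k1 i2045 k0)) (by decide +kernel)
def a1219 : PP 8 4 T 0x12100000000000000000012008010140000400054000100000400004000000815800 := rS 0x135183d8dcf28114adc7285633c4d6cb62b0c362b1da450ebf (k8 i1455 i933 a1104 i1155 i898 i66 a276 a277 (k8 i619 a1217 a198 a132 i1602 i298 a740 i259 (k4 i1402 i973 a1218 i714 (k2 a419 i2045 (k1 a41 k0))))) (by decide +kernel)
def a1220 : PP 8 4 T 0x2000000000000000000000000000140000400054000100000000000000020820820 := rS 0x5ba04f236538a40e1b (k8 i66 i87 i1835 i1913 i524 i973 i1236 i722 (k1 a1218 k0)) (by decide +kernel)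
def a1221 : PP 8 4 T 0x2100000000000000000010000000000400000014000000000400000000000005820 := rS 0xcd55165a1d4fe773e8c442c1722843e450ca4d12d386a545e11419492e997eaa4e6632e870844c2586c9216 (k8 a1216 a1157 i66 i486 a440 i707 i558 i2335 (k8 i2357 i837 i575 a70 a837 a989 i557 a334 (k8 a1220 i316 a1075 a375 a82 i277 a1070 i43 (k8 i526 i236 i2574 a425 a408 a46 a459 i1233 (k8 i711 a1066 i970 i2044 a201 i883 a360 a1219 k0))))) (by decide +kernel)
def a1222 : PP 8 4 T 0x2100000000000000000010000000000400000014000000000000000000000005820 := rS 0x3a9f4eeb53f8c5442156118025527a852689699cd2a2f5498c844c2586c9216 (k8 a1216 a1157 i66 i486 a440 i707 i2357 i575 (k8 i316 a1075 i837 a82 i277 a1070 i2574 i789 (k8 i2464 i2 a1221 i305 i1529 i304 i1532 i1555 (k4 i1287 i711 i1594 i970 (k1 i2044 k0))))) (by decide +kernel)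
def a1223 : PP 8 4 T 0x2000000000000000000000008000141000444054880100000000000000000000000 := rS 0x4dadd02795e2b9149f (k8 a414 i547 i585 i586 i1853 i1861 i1989 i1418 (k1 i2045 k0)) (by decide +kernel)
def a1224 : PP 8 4 T 0x2100000000000000000000000000000400000014000000000000000000000005820 := rS 0x44c522743319e26b3db3446853fc404259722a8cc4756994eb17a1ae022834ba64e65d2b870a4630f909424554954984b64bf5a64965b15861b0c8ac2c91 (k8 a1104 a1216 i898 i43 i66 a276 a277 i619 (k8 a1157 a82 a70 i611 i486 a440 i2464 i575 (k8 i526 i2574 i707 i236 i2357 i557 i558 i441 (k8 i2335 i837 a837 a989 a334 a1220 a1222 a351 (k8 a465 i2647 i1027 i1290 i265 a352 a439 a425 (k8 i544 a46 a362 a1066 a361 a9 a380 a1179 (k8 a1223 a198 a132 a460 a1214 i258 a69 a127 k0))))))) (by decide +kernel)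
def a1225 : PP 8 4 T 0x2000000000000000000004008000501040101054800008000000000000000000000 := rS 0x25cf6835717198bf (k8 a367 i508 i507 i585 i895 i1891 i1899 i2045 k0) (by decide +kernel)
def a1226 : PP 8 4 T 0x2100000000000000000010000000000400000014000000000400000000000005800 := rS 0x20381bc653cf135a64f2aa64a759e332b2b62d435a254ea9318b05c8cb62b0c769133a6cca5945adca6fd3b9fc42430c87c58a12234cfa8186455507325134a2000280c2c49 (k8 a1157 a1216 i998 a1224 a349 i2312 i708 a440 (k8 i1094 i559 a400 a389 a4 a340 a82 i967 (k8 i309 i560 i1303 i43 a252 a1200 a1066 i711 (k8 a70 i567 a577 i2292 i2406 i2641 a457 i2384 (k8 a1104 i1155 a276 a277 i619 a425 a408 a459 (k8 i1241 i970 i978 i2044 a84 a201 i1288 a1076 (k8 a360 a368 a399 a405 a439 a1167 a1174 a1225 (k4 a198 a388 a33 i996 (k2 a419 a1189 (k1 i1873 k0)))))))))) (by decide +kernel)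
def a1227 : PP 8 4 T 0x2100000000000000000010000000000400000014000000000000000000000005800 := rS 0x24ceab54aa88a8ac230bc0e652c9dcfe21218643e2c50911a67d86455507325134a2000280c2c49 (k8 a1157 a1216 i998 a1224 a349 i2312 i708 a440 (k8 i1094 i559 a400 a389 a340 a82 i967 i309 (k8 i560 i1303 i43 a252 a1200 a1066 i711 i2406 (k8 i2641 i87 i1078 a1226 i305 i225 i304 i1557 (k4 i1288 i1539 i1634 i2044 k0))))) (by decide +kernel)
def a1228 : PP 8 4 T 0x400000000000001002000000000000000404025008000400040000054800000000000000000000810800 := rS 0x1e06e7b784614e3d4bd1506995e2b9763f69a45030c (k8 a389 a4 a1104 a82 a461 i1947 i585 i586 (k8 i1144 a899 a381 i1899 i1781 i1984 a422 a442 (k4 a390 a376 i2045 i972 k0))) (by decide +kernel)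
def a1229 : PP 8 4 T 0x1002100000000000000000025008004400040000054000000000000000000400815800 := rS 0xf27b41a652e291caed3ac635d3c7ecb62b0c769140c308e09 (k8 i88 i1656 a389 a4 a1104 i1155 a276 a277 (k8 i619 a461 a1160 a1228 a132 i1641 i1680 i299 (k4 i258 i1410 i1144 a899 (k2 i714 i973 (k1 i2045 k0))))) (by decide +kernel)
def a1230 : PP 8 4 T 0x2100000000000000000000000000000400000014000000000000000000000005800 := rS 0x12e993da0cf2ae539704c290808e20b55527ceb175c204eeb745c30427329911371521929502c289340005018642c077e8fd2249 (k8 a1157 a1104 a461 a70 i87 a1216 i43 i998 (k8 a1224 a349 i708 i2312 i560 i559 a440 a252 (k8 a400 a457 i967 i567 i1094 a1200 a389 i2292 (k8 a577 i711 a4 a1227 a465 i2647 i2815 i1140 (k8 a201 a466 a9 a1229 i1836 i484 i483 i1913 (k4 i562 i973 i736 i1891 (k2 i981 i1899 (k1 i2045 k0)))))))) (by decide +kernel)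
def a1231 : PP 8 4 T 0x1002000000000000000000000001000000000000004000000008000000000000000800 := rS 0x184c6fd (k4 a70 i2304 i1047 a438 k0) (by decide +kernel)
def a1232 : PP 8 4 T 0x2100000000000000000000000000000010000220000000405000000000000005820 := rS 0x3740c30c44f1711c5a110c06cb24415904763f69c54864c2aadca2fd (k8 a70 i1359 a577 i1540 a440 i557 a117 a82 (k8 a461 a435 i261 a818 a386 i603 i269 i526 (k8 i2347 i1240 i225 a120 a600 i316 a467 a4 (k2 a1203 a1204 k0)))) (by decide +kernel)
def a1233 : PP 8 4 T 0x2100000000000000000000001000000000000224000000001000000000000005800 := rS 0xd900044502930964329a240315 (k8 a117 i559 i277 i798 i557 a1231 a440 a1232 (k4 i525 a349 a386 i2184 (k1 i787 k0))) (by decide +kernel)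
def a1234 : PP 8 4 T 0x2100000000000000000000002000000000040220000000001000000000000405820 := rS 0x378ca7916af35afd55435a08d46cf1995a2c5532ab462c17227422b7409f48e67254303e1a269643a1950884882b443244a43208edfa3f69a9596c561c44a273 (k8 i78 i496 a453 a276 a277 i619 i361 a82 (k8 a461 a70 a435 i261 i518 a1086 i611 i573 (k8 a818 a386 a1200 i2160 i2108 i1343 i603 i2388 (k8 a437 i1357 a377 a440 i1588 i2149 a1118 a4 (k8 a118 i2303 a544 a425 a408 a459 a1198 i1089 (k8 i1539 a352 a362 a360 a368 i280 i272 i2030 (k8 a84 a439 a367 a1187 a187 i577 a388 a33 (k2 i996 a1189 k0)))))))) (by decide +kernel)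
def a1235 : PP 8 4 T 0x2100000000000000000000000000000000000224000000001000000000000405800 := rS 0x82430c8709a2c228000a03541fc0e09 (k8 i88 i87 i1668 a1233 i1085 a1234 a349 i478 (k4 i560 i2383 i1239 i1039 (k2 a252 i742 (k1 a386 k0)))) (by decide +kernel)
def a1236 : PP 8 4 T 0x400000000000000022000000000000004004004040001000000400100008000561000545000000000000 := rS 0x13c788c9711481 (k4 a4 a207 a108 a52 (k2 i532 a552 (k1 i1075 k0))) (by decide +kernel)
def a1237 : PP 8 4 T 0x400000000000000022000000000000000014004040001400000000100008002561404551040000000000 := rS 0x9e3d89e268219b3cec64 (k8 i792 i791 a454 i1545 a1236 a68 i736 i816 (k2 a1208 i1716 k0)) (by decide +kernel)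
def a1238 : PP 8 4 T 0x400000000000000002100000000000000414000044001040000050100008010561400451840002000800 := rS 0x1ed1504cf4f8ccc89211ab220551c8fd6eb52bc31fa9b (k8 i1175 a70 a467 i530 a1076 a577 a461 i321 (k8 a1237 a362 i2037 a9 i1352 i1353 i232 i1718 (k4 a454 a1236 a48 i1256 (k1 a1209 k0)))) (by decide +kernel)
def a1239 : PP 8 4 T 0x400000000000000002100000000000000414000044001000000050100008010561400451840002000800 := rS 0x5c3ca0d2c915ba0618fd (k8 a70 a467 a4 a577 a1104 a1238 i1376 i1855 (k2 a108 i532 k0)) (by decide +kernel)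
def a1240 : PP 8 4 T 0x2000000000000000400001004000000000050000018014560000000000000000000 := rS 0xaaad (k2 i1353 i792 (k1 i2037 k0)) (by decide +kernel)
def a1241 : PP 8 4 T 0x400000000000000002100000000000000414000005000000000050100008010561400451840002000800 := rS 0x4653e39452612eae19b3d3a644abf56a57 (k8 i530 a1076 a70 a476 a1240 a407 a454 i1545 (k8 a1239 i1900 i540 i539 i321 i1112 a52 a262 k0)) (by decide +kernel)
def a1242 : PP 8 4 T 0x2100000000000000000000001000000000000124000000001000000000000005820 := rS 0x45a0e30bb19abd8c9335d0d7eaa1ba04c50c1753c9e7f1891c5ab50886d42182c9105635208ec7ed365b15867d0fa2442432b9316e5125c54a6fd (k8 a70 i798 a117 a1231 i1359 a577 a440 i530 (k8 i557 a1200 i277 i1356 i1361 a276 a277 i619 (k8 a82 a461 a435 i261 i354 a818 a386 i603 (k8 i526 i309 i269 i2347 a1076 i1039 i2106 i1042 (k8 a1066 a600 a1160 a120 a467 i316 a4 a1203 (k8 a1241 a367 a106 i2361 i1636 a132 a187 i319 (k4 i1680 a1190 a899 a52 (k1 a207 k0)))))))) (by decide +kernel)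
def a1243 : PP 8 4 T 0x2100000000000000000000001000000000000124000000001000000000000005800 := rS 0x10036450101498432594c0315 (k8 a117 i559 i798 a1231 i557 a440 a1242 a349 (k4 i525 i2184 a386 i787 k0)) (by decide +kernel)
def a1244 : PP 8 4 T 0x2101000000000000400002004000000000000000000010000000000000000000000 := rS 0x15b43 (k2 a84 i1288 (k1 a439 k0)) (by decide +kernel)
def a1245 : PP 8 4 T 0x2101000000000000401000004110000000050000000010000400000001550000000 := rS 0x56d0d44b5 (k4 a1244 i2030 a395 i1553 (k1 a439 k0)) (by decide +kernel)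
def a1246 : PP 8 4 T 0x2100000000000000100000002080000020000000010000000000000400000000000 := rS 0x8b99c6493 (k4 i1634 i280 i576 a360 (k1 a352 k0)) (by decide +kernel)
def a1247 : PP 8 4 T 0x2100000000000000000010002000000400000120000000000000000000000405820 := rS 0xde329e45b3c66af4ec58d6673b95927115a28e86bf550c582e4328456e813f88c8e4a8607c344d2c87432a110910562f443244a43208edfa3f699254acb62b0cfa63 (k8 i97 i1361 a276 a277 i619 i361 a1157 a82 (k8 a461 a70 a435 i261 i518 a1086 i611 i573 (k8 i316 a818 a386 a1200 i2160 i2108 i1343 i603 (k8 i2388 a437 i1357 a377 a440 i2149 i273 a897 (k8 a4 a118 i2303 i1049 a425 a408 a459 a1245 (k8 a367 a106 a1246 i2030 a444 i1369 a1076 i808 (k8 i576 a1187 a466 a544 a187 a360 a368 i577 (k4 a388 a33 i996 a1189 k0)))))))) (by decide +kernel)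
def a1248 : PP 8 4 T 0x2100000000000000000010000000000400000004000000000000000000000405800 := rS 0x2090c321c268b08a000280d5075038249270 (k8 a1230 a1157 i88 i87 a1235 a1243 i1085 a1247 (k8 a349 i478 i560 i2383 i1239 i1039 a252 i742 (k1 a386 k0))) (by decide +kernel)
def a1249 : PP 8 4 T 0x2000000000000000000000000000000000000020000000000000000000000800800 := rS 0x9a0421a20a61b (k4 i66 i2466 i710 i557 (k2 i276 i707 (k1 a662 k0))) (by decide +kernel)
def a1250 : PP 8 4 T 0x2100000000000000000000000000000400000004000000000000000000000005800 := rS 0x2c134ae675a2a9907649aa170750b9c092cb (k8 i619 a1157 a1230 a1249 a1235 a1248 a1243 i130 (k8 i1408 i1139 i1140 i1407 i576 i1627 i2393 a1076 (k1 i805 k0))) (by decide +kernel)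
def a1251 : PP 8 4 T 0x2100000000000000000000001000000000000208000000011200000000100005820 := rS 0x5c984feb527a55401f17874221a3186494d386a4ce23b12b245641 (k8 i261 a818 i611 a1086 a435 i57 i1590 a357 (k8 a82 a440 i229 i1320 i486 i2303 i1232 i1053 (k8 i2151 a377 a1075 i755 i880 i1667 i1048 i1066 (k1 a1196 k0)))) (by decide +kernel)
def a1252 : PP 8 4 T 0x2100000000000000000000001000000000000208000000001040000000000005820 := rS 0x28d82953f9f03caa17958622d2918caa182794498897ea961a7788a4ce235109648841 (k8 i261 a386 i603 a1200 i354 i57 i1590 a453 (k8 i79 a357 i361 a70 i277 a1251 i2348 i789 (k8 i526 i791 i1319 a467 a482 i1042 a362 i316 (k8 i568 i565 i569 i1666 a1075 i1513 i241 a493 k0)))) (by decide +kernel)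
def a1253 : PP 8 4 T 0x2100000000000000000000000000000000000208000000001040000000000005820 := rS 0x14894a8 (k4 a1252 i1055 i1056 i2386 k0) (by decide +kernel)
def a1254 : PP 8 4 T 0x2100000000000000000000000000000000000208000000001000000000000405820 := rS 0x43 (k2 i518 a1253 k0) (by decide +kernel)
def a1255 : PP 8 4 T 0x2000000000000000000000000000000000000008000000001000000000000400808 := rS 0x219043a181686c8a07 (k8 i87 i221 i2184 i1001 a437 i1231 i2183 i558 (k1 a386 k0)) (by decide +kernel)
def a1256 : PP 8 4 T 0x2000000000000000000000000000000000000008000000000000000000000400806 := rS 0x4121948324d540b08a09 (k8 i88 i478 i560 i559 i2383 i2714 i1056 a252 (k2 i827 a386 k0)) (by decide +kernel)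
def a1257 : PP 8 4 T 0x2100000000000000000000015000010000000000015000208400000040000005820 := rS 0x1b26a32af2ec4916273d8e452c678a74d69f8b99973421fb2d8ac31db2434994ba4d12d3a784628fd (k8 a70 a438 i2303 a1160 a82 i277 a1070 a989 (k8 a837 i486 i611 a435 a276 a277 i619 a461 (k8 a439 a351 i2040 a350 a414 i2309 a179 a198 (k8 a132 i2158 i299 a1169 i785 i492 a127 a5 (k4 i499 a561 a336 a419 (k1 i995 k0)))))) (by decide +kernel)
def a1258 : PP 8 4 T 0x20002000000000000005000000001001141401020500005000600000000000000000000 := rS 0x5b1e15c7b (k4 a390 a260 a1158 i500 (k1 i1932 k0)) (by decide +kernel)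
def a1259 : PP 8 4 T 0x400000000000000002100000000000000114000021000004400000100005000608400401041108000800 := rS 0x7f8cb3e2c9d42b34ef1133950f89132a652efd (k8 a70 a989 a837 i1049 a1104 i1313 i1314 i1622 (k8 a73 i1629 a330 a455 a544 a352 a368 a1258 (k2 i1556 a1195 k0))) (by decide +kernel)
def a1260 : PP 8 4 T 0x2100000000000000000000001000000400000000000000010000000000000405800 := rS 0x8b4db393e768b8ca32af4ec450e6b2b50d7eaa56c50c2312813dc8a0a791c3e934ba643a650894c34630c929fa3f69b15870d1d895922b1091086414a9d4080101924dc89 (k8 i277 a1250 a1157 a1255 a1256 a349 a1254 i1057 (k8 i261 i518 a386 a1200 a818 i611 a1086 a435 (k8 a357 a276 a277 a82 a461 a70 a440 i229 (k8 i1320 i486 i2386 i2303 i1049 i1232 a837 a989 (k8 a1070 i2151 i2149 a1160 a377 a425 i755 i309 (k8 a459 i1048 a438 a1259 a1257 a367 a106 i497 (k8 i2315 a387 a58 a179 a187 a561 a1186 a360 (k4 a466 i1715 a463 i1152 (k2 i1978 a336 k0))))))))) (by decide +kernel)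
def a1261 : PP 8 4 T 0x2101000000000000500020004000000000000000000000000000000000000000000 := rS 0x15b43 (k2 a351 i1290 (k1 a439 k0)) (by decide +kernel)
def a1262 : PP 8 4 T 0x2101000000000000401010000100014010000000000014020400011500082000000 := rS 0x1463311c40aa65 (k4 a1178 i792 a362 a9 (k2 i232 i240 (k1 i2033 k0))) (by decide +kernel)
def a1263 : PP 8 4 T 0x2100000000000000000000001000000400000000000000000000000000000405800 := rS 0x7a3753a6c4ec6789ac727b66a162055332a8cb175c3043c934ba645e31238b4a46308860ae4f2892c98897e8fda6a565b158671868ec6ac910a54ea592210c82040080cdc49 (k8 a1157 a1250 a1255 a1256 a349 i261 i518 a386 (k8 i603 a1254 i1057 a1200 i611 i354 a435 a357 (k8 i57 a276 a277 i619 i361 a82 a461 a70 (k8 i277 a1260 i73 i2348 i789 i530 i526 i2347 (k8 i1319 a467 a482 i2106 i1042 i316 a837 a989 (k8 a1070 i565 i1306 a1262 a465 i1027 a1261 a352 (k8 i792 a362 a361 a380 a1179 i235 a1213 a198 (k4 a132 a1214 a828 i2121 (k2 i1044 i1308 (k1 i2034 k0)))))))))) (by decide +kernel)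
def a1264 : PP 8 4 T 0x2100000000000000000000000000000400000000000000000000000000000405800 := rS 0x2912950040080c926e (k8 a1250 a1157 a1255 a1256 a349 a1263 i1055 i1056 (k1 i2386 k0)) (by decide +kernel)
def a1265 : PP 8 4 T 0x2100000000000000000000000000000400000000000000000000000000000005800 := rS 0x9a4b220043ca90c858dc49 (k8 a1157 a1250 a1264 i43 i2643 i969 i559 i236 (k2 i966 i526 (k1 a440 k0))) (by decide +kernel)
def a1266 : PP 8 4 T 0x2000000000000000000000041000140000000000005000000004080000000010000 := rS 0x1169b (k2 i995 i1773 (k1 a336 k0)) (by decide +kernel)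
def a1267 : PP 8 4 T 0x400000000002002200000000000000014404001010140000100000005000000004400040048015000 := rS 0x418f62438138de32a714abde2c6239ac3a71 (k8 a117 i781 a464 a451 a132 a199 a187 i2158 (k8 i337 a561 a1266 i786 a419 a127 i1877 a68 (k1 i2031 k0))) (by decide +kernel)
def a1268 : PP 8 4 T 0x2000000000000000020000000000000000000200000000000000000001108000000 := rS 0x110cdcb11 (k4 a453 a40 i2960 a107 (k1 i272 k0)) (by decide +kernel)
def a1269 : PP 8 4 T 0x2200000000000000000000001000000000000204000000011200000000000005820 := rS 0x8dcac262a0618b75094686bf0eaa8e2934aa5d321f10c5022612998c34670c929fa3f69b2d9265568ec562520c44feb9 (k8 i1065 i1668 a453 i261 a570 a818 a435 a445 (k8 a63 a343 i619 a82 a461 a70 a440 i229 (k8 i1588 i486 i2304 i567 i1047 i2303 a1231 i1500 (k8 i2151 a837 a989 a1042 a1109 a117 i2040 i781 (k8 a367 a106 i498 i309 a577 a377 a4 a1268 (k4 a1267 a468 i2155 a107 k0)))))) (by decide +kernel)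
def a1270 : PP 8 4 T 0x502000000000000000014004000080000004500000400000540404000040000015000 := rS 0x17eae539744ccca1d3d0ac6 (k8 a132 i1602 a59 a395 a436 a275 i1970 i1914 (k2 a108 i1720 (k1 a187 k0))) (by decide +kernel)
def a1271 : PP 8 4 T 0x102200000000000000000010004000154010040044000000460000414440002015800 := rS 0x1183d0dcf3124da0d0a39a7bc58ca261b158231721990e812b4316e7d7e8fd22a5659655a472a9aca2b538c505ad3 (k8 a82 i1039 a120 a117 a822 i528 a464 a72 (k8 a451 a445 a2 i619 i361 a1104 a461 a70 (k8 a1110 a577 a467 i2037 a4 a387 i529 a728 (k8 i1505 a408 a40 a468 i2033 a132 a199 a59 (k8 i2115 i1602 a197 a828 a1270 a398 i1043 i2045 (k2 a419 a390 k0)))))) (by decide +kernel)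
def a1272 : PP 8 4 T 0x2000000000000000000010000140014010000000000000000000014500182000000 := rS 0x62c1 (k2 i1306 i1042 (k1 i2033 k0)) (by decide +kernel)
def a1273 : PP 8 4 T 0x800000000000002200000000000000420000004400000000000000000000000000000000000010800 := rS 0xf15d455eaeda6ad35bc57e3f (k8 a461 i1528 a49 a464 a445 a82 a86 a338 (k4 a1010 a391 a442 i1781 k0)) (by decide +kernel)
def a1274 : PP 8 4 T 0x112200000000000000424001004540000000040000000000000000000000200010800 := rS 0xf68aae5eaed807ca1b4d5a6b72bc57e3f (k8 a461 i1528 a49 a46 a464 a445 a82 a1273 (k8 a403 a393 i2931 i1252 a391 a381 i1781 a442 k0)) (by decide +kernel)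
def a1275 : PP 8 4 T 0x112200000000000000044001004040000000040000000000000000000000280015800 := rS 0x7c5d3014cc452b2c8e6b (k8 a464 a451 i619 i361 a132 a1274 i1919 i1918 (k2 i1305 i2931 k0)) (by decide +kernel)
def a1276 : PP 8 4 T 0x10002000000000000000000000000000000000000000000000000000440008000400000 := rS 0x72f1 (k2 a76 i1876 (k1 a419 k0)) (by decide +kernel)
def a1277 : PP 8 4 T 0x2200000000000000000000004000154010000244000000020240410441000405800 := rS 0x14e9b5b8e4f086898f59a278c8dd3a85a7b3d84c718080cea32b8783b0d290fd4a592ac44feb95a844364b509445a330c1dc9ed3 (k8 a82 a185 i79 i526 i233 i1039 i528 i309 (k8 i73 i269 i2347 a822 i1065 i1668 a453 a72 (k8 a2 i361 a461 a1271 a375 i715 i565 i568 (k8 a263 i1587 a1272 i1499 i3008 a1275 i2719 a13 (k8 i1867 i1906 i1956 a784 a1276 i729 i1308 a143 (k4 a436 i1708 i1852 i856 (k2 i1073 i243 (k1 a952 k0)))))))) (by decide +kernel)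
def a1278 : PP 8 4 T 0x2200000000000000014004008000000000100000000000560004000000000015000 := rS 0x46114272e20d774f57bc58c4735ad57f43 (k8 a106 a367 a822 a464 a451 a132 a199 a187 (k8 a59 i1680 a899 a108 i1765 i531 a795 a52 k0)) (by decide +kernel)
def a1279 : PP 8 4 T 0x102200000000000000024000000000000000000400040000020040000001100011000 := rS 0x1321d8ecd (k4 i1792 i141 i1523 a1035 (k1 a724 k0)) (by decide +kernel)
def a1280 : PP 8 4 T 0x2200000000000000004000008000000000000200000000560040014001000015800 := rS 0x51080cee5620fda6a53bc4686c15ba0618fd (k8 a70 a467 a4 a577 i1513 a106 a453 i79 (k8 i361 a82 a461 a1278 a40 a722 a1279 a393 (k1 i2985 k0))) (by decide +kernel)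
def a1281 : PP 8 4 T 0x2200000000000000000000008000000000040200000000560040014001000015800 := rS 0xbaaf662f04283512edcb4f6120618b77eb4d4a6b88ad686c1 (k8 i1513 a106 a822 a453 a464 i361 a82 a70 (k8 a577 a467 a4 a1280 a13 a468 i1945 a393 (k4 a899 i1649 i329 a1038 (k2 i1986 i1970 (k1 a108 k0))))) (by decide +kernel)
def a1282 : PP 8 4 T 0x2200000000000000000000001000000000000204004000020200000041000405820 := rS 0x203e28c3c1d8694983435513d26954ba645e737eb4d4a6556a2476431ac44feb95a8454251168cc3077 (k8 i79 i526 i233 i1039 i528 i309 i2347 a822 (k8 i1065 i1668 a453 i354 i518 a435 i277 a445 (k8 a63 i361 a82 a70 i837 i316 a837 a989 (k8 a1042 a1109 a185 a1277 a106 i1513 a1281 a375 (k4 i715 i565 a263 a403 (k2 a1272 i1501 k0)))))) (by decide +kernel)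
def a1283 : PP 8 4 T 0x2200000000000000000000001000000000000204000000001000000000000405820 := rS 0x2bd16831e4614e85a7d1576a378b1a84c362a55c9171b9990e812b24d570c5b9f4a64f8a98866110c2d4a24c5c9fe22777e8fda6cb2cab48e55358ec6a2b129108641 (k8 i261 i518 a386 a570 a818 i354 a435 a464 (k8 a72 a451 a445 a2 i619 a82 a461 a70 (k8 i79 a453 i1668 i1065 a1269 i528 a822 i526 (k8 i2347 i233 a1282 a51 i1351 i2358 a1110 a577 (k8 a467 a1281 i1589 i2037 a4 a387 i529 a1203 (k8 a350 a728 i1673 a40 a468 a447 a132 a199 (k8 a395 a86 a1010 a59 i1602 i336 a1190 a442 (k4 a197 a52 i1781 a207 k0)))))))) (by decide +kernel)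
def a1284 : PP 8 4 T 0x2002000000000000000080000041000140000000000005000000004404000000010000 := rS 0x6f19 (k2 a561 a1266 (k1 a1190 k0)) (by decide +kernel)
def a1285 : PP 8 4 T 0x2002200000000000000014000001000140000000000005000200004404040008015000 := rS 0x27899715c2978b188e6b (k8 a464 a451 a132 a199 i2158 a1284 i499 a5 (k2 i1765 a127 k0)) (by decide +kernel)
def a1286 : PP 8 4 T 0x2002200000000000000404000005100154000000000005000200004414040008015000 := rS 0x2e4cee562324caad (k8 a445 a63 a343 a1285 a40 a722 a1045 i2040 k0) (by decide +kernel)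
def a1287 : PP 8 4 T 0x2200001000000000484000005000000000000000005000000000200000000011800 := rS 0x33279723d67b252e9532a4d5afd (k8 a70 a445 a1109 a63 a1042 a989 a343 i1976 (k4 i1877 a1056 i299 i2040 (k1 a414 k0))) (by decide +kernel)
def a1288 : PP 8 4 T 0x2002000001000000000000000041000140000000000005000000004500000000010000 := rS 0x6f19 (k2 a561 a1266 (k1 a419 k0)) (by decide +kernel)
def a1289 : PP 8 4 T 0x2002200000000000000014000005000000000000000005000200000400040008015800 := rS 0x9e265c570e452f1630fd964735a652efd (k8 a70 a989 a837 a464 a451 i619 a461 a132 (k8 a199 i2158 a1287 a1288 i499 a5 i1765 a127 k0)) (by decide +kernel)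
def a1290 : PP 8 4 T 0x2200000000000000020000000000000000000000000000000010000000500010000 := rS 0x4f132ba16205915b959a25 (k8 a570 i1792 a40 a818 a2 a107 a361 a58 (k2 a205 a1106 (k1 a1043 k0))) (by decide +kernel)
def a1291 : PP 8 4 T 0x2002200000000000000004000005000000000000000005000200010410000408415800 := rS 0x40c4190fd4acb15a652e9532a4d5afd (k8 a70 a445 a1109 a63 a1042 a989 a837 a818 (k4 i619 i361 a461 a1286 (k2 a1289 a1290 (k1 i1612 k0)))) (by decide +kernel)
def a1292 : PP 8 4 T 0x2002200000000000000014004005000000000100044005000000000400040008015800 := rS 0x26cf6833cc62243713a987b45570e452f1630fda6916591cd6994bbf43a71 (k8 a117 i781 a70 a989 a837 a464 a451 i619 (k8 a1104 a82 a461 a132 a199 i2158 a1287 a1288 (k8 a381 i1781 a442 i1915 i1916 a127 a419 a398 (k4 a68 a390 a41 i2045 k0)))) (by decide +kernel)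
def a1293 : PP 8 4 T 0x2200000000000000420000005100014000000000005000000010010000400411000 := rS 0x5c99c662072b24caad (k8 a445 a63 a343 a40 a1290 i1612 a722 a1045 (k1 i2040 k0)) (by decide +kernel)
def a1294 : PP 8 4 T 0x2002200000000000000004000005000000000000044005000400210410000408415800 := rS 0x1010c5ba84a2d31587c3a7162a4d5a9532bf596a5 (k8 i361 i619 a70 a63 a1042 a445 a1109 a1293 (k8 a117 i781 i2151 a818 a82 a1291 i309 a577 (k2 a377 a1292 (k1 a4 k0)))) (by decide +kernel)
def a1295 : PP 8 4 T 0x2000000001000000500000015100014000000000015000000000014000000001000 := rS 0x17267 (k2 a722 a1045 (k1 i2040 k0)) (by decide +kernel)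
def a1296 : PP 8 4 T 0x2200000000000000000000005000000000000004000000008210410000408415800 := rS 0x286bda2afd70ae4d9e0ce7b8995d9a8b8cc419c38108c976e5a7b0922a565b24d62529984e7144ca5d2a654998d5afd (k8 a70 a445 i2304 a1109 a63 a1042 a989 a837 (k8 a1231 i1093 i1047 i567 a570 a464 a343 i619 (k8 i361 a1104 a1294 a13 a468 i1945 a1295 i1612 (k8 i290 i291 a107 a42 i1978 a380 a58 a205 (k8 i1980 i489 a406 i1073 a336 i2040 i1457 a381 (k2 i1987 a351 (k1 a404 k0))))))) (by decide +kernel)
def a1297 : PP 8 4 T 0x2002000000000000000004000009000000400000100005000200010400000008015800 := rS 0xec9e8b8e064f1632bd8b1143884aca01f91cd7041588d32977eafe86c1 (k8 i1513 a106 a367 a70 a989 a837 i273 a818 (k8 a1265 a464 a451 a461 i494 i497 i824 a387 (k8 a58 a1290 a187 a132 a199 a1285 a1288 a360 (k2 i299 a466 (k1 i1715 k0))))) (by decide +kernel)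
def a1298 : PP 8 4 T 0x2002000000000000000004000009000000400000100005000400210400000008015800 := rS 0x1442072b11030c5b9fd42511fb4d4a55820ac3e234ca5dfa1d38afe86c1 (k8 i1513 a106 a367 a117 i781 a70 a989 a837 (k8 i273 i2151 a818 a1265 a72 i361 a82 a461 (k8 a1297 i309 a1044 a577 a377 a4 a1267 a40 (k2 a1290 a393 (k1 i1649 k0))))) (by decide +kernel)
def a1299 : PP 8 4 T 0x2000000001000000000001000100014400050154000000000000015000000000000 := rS 0x1da2cb9 (k4 a1045 a429 i2044 a332 k0) (by decide +kernel)
def a1300 : PP 8 4 T 0x2000000000000000000000001000000400000004000000008000000000000405820 := rS 0x26d16ce191fca2b52babe20bc1888544e5611f583435faa83a7149a552e9911c50e6113094cc61a7eb4d4a6556954d63b1a8948843209d60849 (k8 a1157 a1265 a1283 i261 i518 a386 a570 i354 (k8 a435 a464 a72 a445 a63 i361 a82 a70 (k8 i486 i2304 i567 i1047 i2303 i1093 a1231 i273 (k8 a837 a989 a1042 a1109 a117 i781 a1296 a367 (k8 a106 i1513 i1596 a1298 a468 a393 i1650 i1651 (k8 i329 a107 i1986 a58 a444 i497 a1044 a1299 (k4 i291 i1978 i1152 a336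 k0))))))) (by decide +kernel)
def a1301 : PP 8 4 T 0x2001000000000000400001014000000000000000000015540000000000000000000 := rS 0xfa7f (k2 a1044 a1110 (k1 i2037 k0)) (by decide +kernel)
def a1302 : PP 8 4 T 0x202200001000000000000000000000000001000000000004000000000050100010000 := rS 0x13c4d9a59 (k4 a2 a380 a205 a1106 (k1 a127 k0)) (by decide +kernel)
def a1303 : PP 8 4 T 0x2200001000000001000000000000000001000000000004000000000050100010000 := rS 0x11313964ab11 (k4 a1302 a72 a2 a1106 (k2 a143 a127 k0)) (by decide +kernel)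
def a1304 : PP 8 4 T 0x2200001000000000080000000100154410000100000004000004414540582010000 := rS 0x3d1ba04f2cc3eae052a342a6c72a7 (k8 i2121 i2115 a828 i1602 i240 i258 a1272 i1330 (k4 a1303 i1973 i1975 i1043 (k2 i1307 i2034 k0))) (by decide +kernel)
def a1305 : PP 8 4 T 0x2200000000000000080000000001000400000100000000000000404000802010000 := rS 0x45a7c6d198b1de22c9 (k8 a343 a9 i1625 a466 a611 a1190 i2722 i1773 (k1 a192 k0)) (by decide +kernel)
def a1306 : PP 8 4 T 0x2200001000000000080000000101154410000100000004000004414540082010000 := rS 0x60ae4fae51028c4631 (k8 i1041 a1305 i240 a1304 a46 i3009 a1045 i1305 (k1 i2033 k0)) (by decide +kernel)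
def a1307 : PP 8 4 T 0x800000000000002200001000000000401040004400000000000000000000000000000000000010800 := rS 0xaf5f8f28abd1fb4d5a6b (k8 a464 a445 a82 a461 a338 a1010 a442 i1259 (k2 i1781 a391 k0)) (by decide +kernel)
def a1308 : PP 8 4 T 0x2000000000000000000000000400540010000000000000000004500504082000000 := rS 0x7a37 (k2 i1044 i1308 (k1 i2034 k0)) (by decide +kernel)
def a1309 : PP 8 4 T 0x2200000000000000014000000100154410000100000004000004000540082415020 := rS 0x7a37409e598263e884ec3253a6d0a3978b193a59239ac7635 (k8 i354 a435 a464 a451 a2 a179 a132 a199 (k8 i2115 i1602 a828 i2121 a1306 i233 i1612 i1629 (k4 a1308 a1106 i1973 i1975 (k2 i1043 i1307 (k1 i2034 k0))))) (by decide +kernel)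
def a1310 : PP 8 4 T 0x2200001001000005000000000000001004000000000004020000015000000011000 := rS 0x4f192e2762c67 (k4 a722 a429 a399 a794 (k2 a784 i1765 (k1 a795 k0))) (by decide +kernel)
def a1311 : PP 8 4 T 0x2200000000000000020000000000001000000000000004020000011041002011000 := rS 0x111d8648767b35e2e5 (k8 a40 a49 i1792 a807 i1524 a1310 i233 i232 (k1 i2979 k0)) (by decide +kernel)
def a1312 : PP 8 4 T 0x2000000000000000004000000000154410000100000000160000000500000405820 := rS 0x402aa18b72987dfa3f52b2cb2ad2aad58a310886088432b8945641248d60891 (k8 a1104 a1265 i354 a1157 i261 a818 a570 i530 (k8 i518 a386 i526 i2347 i1041 a1311 a822 a72 (k8 a445 a2 i619 i361 a461 a70 a1309 i565 (k4 a577 a467 a1301 a1278 (k1 a4 k0))))) (by decide +kernel)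
def a1313 : PP 8 4 T 0x2000000000000000008000000110154011000040000015800200011544006000800 := rS 0x28aa71caf96e7b4344e227c3fb3580201ea8c3c8386b4d234f5c9dc66e5 (k8 a468 i2112 a877 a1045 a13 a1104 a82 a375 (k8 a334 i565 i2119 i1308 a1272 i2033 i729 i1516 (k8 i1305 a73 a143 a436 i817 i856 i1709 i235 (k2 i243 a18 (k1 a1012 k0))))) (by decide +kernel)
def a1314 : PP 8 4 T 0x2000000000000000000000001000000400000004004000000000000000000405820 := rS 0x1f4fe5313c659f16338dc669d42b95847127c5126954ba645e737eb4d4a5932ab4aa891d8d456250dad4aea1288b462182612c8843209d60849 (k8 a1157 a1265 a1283 i261 i518 a386 a1300 a440 (k8 i526 i1041 i1039 i528 i309 i530 a822 i269 (k8 a570 a818 i354 a435 i277 a72 a445 a63 (k8 a2 i361 a82 a70 i837 i316 a837 a989 (k8 a1042 a1109 a120 a185 a117 a1312 a468 i1867 (k8 i1906 i2112 i1957 a722 a429 a368 a784 a1276 (k4 a1313 a1044 a1110 a1299 k0))))))) (by decide +kernel)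
def a1315 : PP 8 4 T 0x2000000000000000000000001000000400000004000000000000000000000405820 := rS 0x1ca33611992681554316e53278b8c4c51884430575a944984b3a9104a2b1a90c82fd1fa4492cb2cab4ab04 (k8 a1265 a72 a445 a2 i619 a1157 a1104 a461 (k8 a70 i261 i518 i354 a818 a570 a386 a1283 (k8 a1300 a440 i528 a822 i530 i526 i2347 i1041 (k8 a1311 a1314 i534 i1351 i2358 a577 a467 a1301 (k4 a4 i1636 i537 a1278 (k2 i319 a468 (k1 a722 k0))))))) (by decide +kernel)
def a1316 : PP 8 4 T 0x2000000000000000000000001000000400000004000000000000000000000405800 := rS 0x38c34a44220c54e618171803645010149201 (k8 i559 a1157 a1315 a349 i221 i2184 i303 i302 (k8 a437 i1016 a363 i2183 a386 i557 a375 i798 (k1 a389 k0))) (by decide +kernel)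
def a1317 : PP 8 4 T 0x2200000000000000014000000040140004400054040104000000402000024015820 := rS 0xb7409e54e3614b318c9d4891cd6cf (k8 i989 a464 a451 a1104 a179 a132 a794 i259 (k4 i1692 i336 i1972 i1236 (k2 i722 a1218 k0))) (by decide +kernel)
def a1318 : PP 8 4 T 0x2200000000000000004000000000150000000214000000020000000001000805821 := rS 0x1333588a333884608711444ee650d8ed225708974e663419483842 (k8 i707 i558 i557 a334 i2357 i837 i2335 a1220 (k8 i441 a1104 i1155 i66 a63 i79 a453 i971 (k8 a773 i970 a986 i1587 i1651 a1317 i1792 i1576 (k1 a724 k0)))) (by decide +kernel)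
def a1319 : PP 8 4 T 0x12200001000000000080001000000014400040550000004000000000040521010000 := rS 0x287113eae05285 (k4 i1602 i258 a471 i1234 (k2 a1302 a351 (k1 a403 k0))) (by decide +kernel)
def a1320 : PP 8 4 T 0x2200000000000000080000000001000400000500000000000000404000800010000 := rS 0x1169f1b4659e678b0c622c9 (k8 a343 a9 i1571 a466 a350 a368 a784 a1190 (k2 i996 i1773 (k1 a192 k0))) (by decide +kernel)
def a1321 : PP 8 4 T 0x12200001000000040080001000010014400000550000004000000000040561010000 := rS 0x7f (k2 a1066 a1319 k0) (by decide +kernel)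
def a1322 : PP 8 4 T 0x12200001000000000080001000011154400400154000004000000004000060810800 := rS 0x9b5bc610c20409e452233d8e4eed30c8ac7691 (k8 a1104 i1155 i898 i43 a82 i712 i298 i714 (k8 a1320 i258 i973 i1236 a1321 i1689 a1001 i2479 (k2 a41 i2045 k0))) (by decide +kernel)
def a1323 : PP 8 4 T 0x4012200001000000040080001000010014400000150000004000000000040160810000 := rS 0x88088ee19 (k4 i43 i711 a1321 a466 (k1 a9 k0)) (by decide +kernel)
def a1324 : PP 8 4 T 0x2000000000000000014000001000000400000004000000000000000000000005800 := rS 0x136813cadcf713132184117193c58c9d6991cd62b1da456aa12b87c8a1949ab61a112e9cd06520e1d52a654ba64c6427e930960401924e289128580304 (k8 a1265 i559 a1316 i860 i277 i710 a1157 i998 (k8 a349 i966 a440 a70 i707 i2357 a837 a989 (k8 a63 a1042 a1318 i558 i557 a334 i837 i2335 (k8 a1220 a375 a445 a1109 i43 i526 i236 i441 (k8 i2574 a822 a1104 i1155 i898 a464 a451 a82 (k8 a179 a132 a199 a1322 a360 a1323 i1689 i1690 (k4 a69 i2473 i2479 i1768 (k2 i1770 a991 (k1 i2045 k0))))))))) (by decide +kernel)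
def a1325 : PP 8 4 T 0x2200000001000005000000000000001404000100000104000000004000000801000 := rS 0x13916339dc6b1142154b26b (k8 a464 a2 a72 a460 a361 i1116 i712 a722 (k2 a466 a794 (k1 a399 k0))) (by decide +kernel)
def a1326 : PP 8 4 T 0x2000000000000000004000001000000400000004000000000000000000000005800 := rS 0x7610c5c65114221d9ecd72b10ea592a9ac5691129c512572e81006994ba54c6422612c02490b19608fd (k8 a70 a1265 a63 a1316 a1157 i559 i966 a440 (k8 i707 i2357 a1042 a989 a837 i998 a349 i2335 (k8 i441 i277 i710 i860 a1104 i898 a464 a72 (k8 a2 a1318 a1324 a40 i1792 a807 i1524 a460 (k4 a361 a1325 a360 i2967 (k2 a466 i711 k0)))))) (by decide +kernel)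
def a1327 : PP 8 4 T 0x12000000000000000008000000000141000400254010000000080000001060800001 := rS 0xf29b408dcf6b7898f450cc1088a2219 (k8 i43 a453 i971 a986 a1038 i250 i3135 a54 (k4 i1929 i1890 i3134 i1235 (k2 a991 i972 (k1 i2045 k0)))) (by decide +kernel)
def a1328 : PP 8 4 T 0x2200000000000000008011000010014400000550040000000000000000160800800 := rS 0x118679e62716660a222223d9fc4ed3488653a35 (k8 i1116 i1906 i43 a1104 a82 i1955 a1066 i713 (k8 a471 a9 i250 i251 a466 a54 i1973 a368 (k2 a406 a784 k0))) (by decide +kernel)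
def a1329 : PP 8 4 T 0x12200000000000000008000000010000001400000000104000080000000220000000 := rS 0x14440a997e3d4328982cd3f164aa6b (k8 a464 a72 a2 a1026 i2478 i1516 i720 a460 (k4 i1959 i3030 i328 i1235 (k2 a982 a410 k0))) (by decide +kernel)
def a1330 : PP 8 4 T 0x2000000000000000008001000010014400000150000000000000004000160805800 := rS 0x2e4cea5820d5ca77 (k8 i711 a468 i1116 a1265 i361 a722 a1045 a1328 k0) (by decide +kernel)
def a1331 : PP 8 4 T 0x2000000000000000000000001000000400000004000000000000000000000005800 := rS 0x798cc407117191dc427542b09070d39a4d2a974c87cba570e148c645212856a4c0212ce22501864361644805fa91249955b04 (k8 a1265 a445 a63 a1157 a1104 a70 i559 i277 (k8 a1316 i66 i43 i998 i860 i710 i966 a349 (k8 a440 a822 i2574 i707 i526 i2357 i557 i558 (k8 i441 i2335 i236 a837 a989 a1042 a1109 i837 (k8 a375 a334 a1326 i1867 a1327 a1329 i711 a1330 (k4 a360 i290 a466 a42 (k2 i1852 a1000 k0))))))) (by decide +kernel)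
def a1332 : PP 8 4 T 0x102000000000000000000000000000000000000000000000000000002001100400000 := rS 0x46e5 (k2 a459 i1572 (k1 a107 k0)) (by decide +kernel)
def a1333 : PP 8 4 T 0x2200001000000000000004002411040020000400040000000000001050058000800 := rS 0x13ecf1b1e84c83a20f5163f64a0618d3 (k8 a82 a377 a4 a343 a461 i578 i1346 a442 (k4 a48 i2031 i785 i786 (k2 i1981 i996 (k1 a191 k0)))) (by decide +kernel)
def a1334 : PP 8 4 T 0x2000000000000000000004000410000020500000000000000004040050058000000 := rS 0x7a27 (k2 i786 i1347 (k1 i2031 k0)) (by decide +kernel)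
def a1335 : PP 8 4 T 0x2200000000000000004000002000000000000200000000411000000000000405820 := rS 0x4fa2c6ccf41a5862a714bc58c9d40b161893108756e7d5089456110d11032882890476fd1fb4d22c95691cd67788928ce1f (k8 i237 i1588 a440 a453 i79 a464 a451 a445 (k8 a343 a1104 a82 a461 a70 a435 i261 i2313 (k8 i573 i229 i485 i486 i2303 a818 a570 i309 (k8 a1110 a577 i1343 i1500 i1589 a377 a1268 a4 (k8 a179 a132 a199 i2158 i2166 a1332 a1333 i1376 (k4 i1983 a1334 i1773 i996 (k1 a191 k0))))))) (by decide +kernel)
def a1336 : PP 8 4 T 0x2200000000000000004000002000000000000204000000011000000000000405800 := rS 0x7186a80e640179448a000294c864a03c540609 (k8 i88 i1085 a400 i87 a440 i2382 i567 a1335 (k8 a349 i478 i2312 i1078 a386 i1094 i300 a413 (k2 i796 a389 k0))) (by decide +kernel)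
def a1337 : PP 8 4 T 0x2000000000000000000000002000000000000000000000020000000000000000800 := rS 0x8641228040609 (k4 i88 i1085 i2383 i2388 (k2 i788 a980 (k1 a386 k0))) (by decide +kernel)
def a1338 : PP 8 4 T 0x2200000000000000004004002010040000050000000000000010000000558015820 := rS 0x77338c52893512d44c83a23054e2978b193ac51fa948e6b1d8bcc62d008ac4a818634c7a88 (k8 i573 i1346 a82 a377 a4 a570 a818 i2 (k8 i974 i97 i316 a435 a464 a451 i361 a461 (k8 a1290 a179 a132 a199 i2158 i2166 i1694 a442 (k8 a48 i2031 a725 i2030 i1634 i281 i1652 i576 (k2 i1675 a1333 k0))))) (by decide +kernel)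
def a1339 : PP 8 4 T 0x2000000000000000004000000000000000000000400011000400000040208015000 := rS 0x27899710ef114b110ac7181d99a57 (k8 i1497 i730 i783 i784 i3011 i2937 a132 i1841 (k4 a49 i1524 a460 a5 (k2 i1765 a127 k0))) (by decide +kernel)
def a1340 : PP 8 4 T 0x202200001000000000000000000000000001000000000000000000000050100010000 := rS 0x57 (k2 a58 a1302 k0) (by decide +kernel)
def a1341 : PP 8 4 T 0x2200000000000000004000002000000000000100000000401000000000000405820 := rS 0xa24aad5827618c451636428a506a778b193a9662885030c11874feb73ea844a2b08868882f44144823b7e8fda691529655a472a9acc6b9649289a1f (k8 i237 a1337 a440 a343 i1139 i97 a464 a72 (k8 a451 a445 a2 i361 a1104 a82 a461 a70 (k8 a435 i261 i2313 i573 i316 i485 i486 i2303 (k8 a818 a570 i309 a1110 a577 a1044 i1343 i273 (k8 a377 a4 a1339 a1290 a1338 a179 a132 a199 (k8 i1898 i1376 i2158 i1602 a1334 i1773 a1340 a1332 (k4 a619 i1345 i808 i1675 (k2 i2030 i281 k0)))))))) (by decide +kernel)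
def a1342 : PP 8 4 T 0x2200000000000000004000002000000000000004000000001000000000000405800 := rS 0x1c61aa0399005e51228000a7503c5406092194c944d (k8 a1337 a440 i567 i2382 i88 i1085 a400 i87 (k8 a1336 a1341 a349 i478 i2312 i1078 a386 i1094 (k4 i300 a413 i796 a389 k0))) (by decide +kernel)
def a1343 : PP 8 4 T 0x1002200000000000000014004000000440000000244005000000200000000000805802 := rS 0x20cf636a23193279a7a7a329d7881dfa916499d162c40c30e27788b959e30 (k8 i970 i989 a459 a453 i79 a1249 a389 a4 (k8 i560 i2292 i2291 a343 a1104 a70 i87 a199 (k8 i1511 a784 a191 a26 i2650 i2657 a379 a422 (k4 a596 a712 a48 a616 k0)))) (by decide +kernel)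
def a1344 : PP 8 4 T 0x102200000000000000020000000000001440000400040000000000000000900000000 := rS 0x27 (k2 a715 i1576 k0) (by decide +kernel)
def a1345 : PP 8 4 T 0x2000000000000000004000000000000400000204000000000000000000000005800 := rS 0x63d3c6e9e4b275e2c567b94423011444ee9164c55366330864ce8b222240a1b39adca2000b410a64a26aa092fd (k8 a70 a1157 a1331 a1337 a440 i567 a1265 a1342 (k8 i966 i2312 a577 i1094 i66 i486 i276 i967 (k8 i2292 i2291 i43 i96 i97 a457 a400 a343 (k8 a1104 i79 a453 i971 i970 i1500 a459 i989 (k8 a1344 a199 i1511 a1343 a191 i1778 a26 i1692 (k1 a379 k0)))))) (by decide +kernel)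
def a1346 : PP 8 4 T 0x102000000000000000014000000000040400000404000000000000000000000005800 := rS 0x630dc228357d1132798ca793acf8b3248e6b4d86cce8b220b16e537ea06187328800944d8a9c42ca8249d5e304 (k8 a1265 a199 a1345 a1157 a1331 a1342 a1249 a400 (k8 a1337 a440 i966 i2312 i1094 a389 a4 a70 (k8 i567 a577 i560 i967 i2292 i2291 i66 a457 (k8 a464 a451 a343 a466 a368 a399 a192 a784 (k8 i2650 i2657 a422 a381 a48 i562 a1218 a132 (k1 a596 k0)))))) (by decide +kernel)
def a1347 : PP 8 4 T 0x202200000000000000014000000000000000000000000000000000000040100015000 := rS 0xa18c4735bc50a23 (k8 a9 a361 a199 a464 a451 a132 a1340 i258 k0) (by decide +kernel)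
def a1348 : PP 8 4 T 0x2000000000000000000004000000440040100044000000000240000200000820800 := rS 0x4c9ed0679539704c29038fd2271 (k8 a1249 a1104 a461 i87 i1836 i484 i483 i1913 (k4 i973 i736 i1891 i981 (k1 i2045 k0))) (by decide +kernel)
def a1349 : PP 8 4 T 0x2000000000000000014000000000040400000004000000000000000000100005800 := rS 0x2202b48845030c8a9c56e537e9cca22c4580088432513536770b2a20849 (k8 a1157 a1265 a1331 a1342 i711 a457 a1337 a440 (k8 i2382 i967 i966 i2292 i560 i2312 i1094 a70 (k8 i567 a577 a1249 a400 a389 a4 a1348 a1104 (k2 i898 a1346 (k1 a1347 k0))))) (by decide +kernel)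
def a1350 : PP 8 4 T 0x2000000000000000004000000000040400000004000000000000000000100005800 := rS 0x11111310ee912099c228186454e2b729bf4e6511622c00440b410864a2692536a8 (k8 a1331 a457 a1157 a1337 a440 i2382 a1265 a1342 (k8 i967 i966 i2292 i560 i2312 i1094 a70 i567 (k8 a577 a1249 a400 a389 a4 a1348 i2291 i739 (k4 a1104 i711 a1349 a1290 (k2 a9 a1344 k0))))) (by decide +kernel)
def a1351 : PP 8 4 T 0x2000000000000000080004000040440000100044000000000000000200200800800 := rS 0x4ca0cf679538990c291fa44e223 (k8 i11 a1249 a1104 a461 i258 i1689 i1690 i336 (k4 i973 i2473 i736 i981 (k1 i2045 k0))) (by decide +kernel)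
def a1352 : PP 8 4 T 0x2000000000000000000011000000000400050554000000000000000200200000000 := rS 0x490cd2aa3 (k4 i1649 i979 i1611 i2044 (k1 i1242 k0)) (by decide +kernel)
def a1353 : PP 8 4 T 0x2000000000000000004000000000040400000004000000000000000000000005800 := rS 0x448f25c3da147232189da329c43a7d9ec463a8d9ab52b88022a52c91cd69b5cb24863b0d8ad226745910587d56adcfe5529bf5030c39944004a26c54e216544109275 (k8 a1345 a1157 a1265 a1331 a1342 a1249 a400 a1337 (k8 a440 i966 i2312 i1094 a389 a4 a70 i567 (k8 a72 a1044 a577 a445 a1110 i560 i967 i2292 (k8 i2291 a1104 i898 i66 i2796 i2382 a343 i1139 (k8 a457 a464 a451 a2 i361 a1348 a1350 i1497 (k8 i728 i730 i1649 a1351 a132 a807 i1526 i1524 (k8 a191 a347 a1352 i1508 i712 i1880 i2967 i714 (k4 a460 i1857 a406 a5 k0)))))))) (by decide +kernel)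
def a1354 : PP 8 4 T 0x2200001000000000004000000000000001000000000000000200040051100815002 := rS 0x18ec5889dc8e6b (k4 a464 a451 i711 a1340 (k2 a688 a596 (k1 a132 k0))) (by decide +kernel)
def a1355 : PP 8 4 T 0x2000000000000000004000000000000400000004000000000000000000000005800 := rS 0xc9887663ad440854384452f13c8e06e3c8ca58ea81861fcfa73448b0a20545800e2251586c88167ea454aad23954d7155cb260853251355049 (k8 a1157 a1331 a1337 a440 i567 a1265 a343 i1139 (k8 a400 a464 a72 a451 a445 i361 a1104 a70 (k8 a1342 i967 i66 i898 i860 a1249 i966 i2292 (k8 i486 i2312 i560 i276 i1094 a1110 a1044 a389 (k8 a4 a1345 a1353 a71 i1243 i1778 i1244 i1855 (k8 a365 i1839 i1873 a1001 a1002 a1354 i728 i1689 (k4 a1352 a132 i712 i1616 k0))))))) (by decide +kernel)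
def a1356 : PP 8 4 T 0x102000000000000000008000000000000000000000000000008200000000100404004 := rS 0x34220209402e5 (k4 a468 i478 i346 a349 (k2 a107 i486 (k1 i2155 k0))) (by decide +kernel)
def a1357 : PP 8 4 T 0x1002000000000000000000000000000000000000004000000008100000000000000804 := rS 0x1c61a2f50000e640029440e43 (k8 i2382 i87 i493 i485 a386 i1094 a349 i300 (k4 i1078 a413 i796 a389 k0)) (by decide +kernel)
def a1358 : PP 8 4 T 0x202200000000000008000000000000000001000000000000000000006040108010000 := rS 0x788a46c39 (k4 i1977 i988 i274 a376 (k1 a1340 k0)) (by decide +kernel)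
def a1359 : PP 8 4 T 0x2200000000000000008004000010000020050000000000008200000500140404804 := rS 0x83538a52c794f0f6323767c5c663049300ceb53a95e20271fa454b4f089ac568512a746aa311868080140c303ad3 (k8 a82 i1343 a377 a4 i478 a349 i486 i2155 (k8 i2163 i354 i1906 i346 i1867 a371 a464 i1952 (k8 a13 i361 a1104 a461 i1955 a1356 a58 a453 (k8 a444 i489 i2030 i1344 i1345 i1614 a19 a1358 (k8 i1956 a784 i1347 a463 i1075 i1718 i275 i1898 (k2 i1376 i2031 k0)))))) (by decide +kernel)
def a1360 : PP 8 4 T 0x2000000000000000000004000018010020100810000000000005000044051000000 := rS 0xa714a0d327a (k4 i1716 i1112 i815 i1890 (k2 i283 i2031 k0)) (by decide +kernel)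
def a1361 : PP 8 4 T 0x402000000000000008000000000000000000000000000000000000006044008000000 := rS 0x788a46c39 (k4 i1977 i988 i274 a376 (k1 a127 k0)) (by decide +kernel)
def a1362 : PP 8 4 T 0x400000000000000102200000000000001000004000011410061100900040004000005006044059000000 := rS 0x14c29419c132793d2799e8689b24b255 (k8 a72 a2 a343 a143 a436 a1361 a191 i1716 (k4 i1075 i1112 a1360 i816 (k2 i1890 a905 (k1 i283 k0)))) (by decide +kernel)
def a1363 : PP 8 4 T 0x400000000000000002200000000000001000004002011050021100900040004000004006044059000000 := rS 0x530a506704c9e4f4864f33e27101ea2d929b (k8 a457 a343 i578 i1346 a1362 a205 a1361 a191 (k8 i1715 i1716 i1075 i1112 a1360 i816 i1890 a905 (k1 i283 k0))) (by decide +kernel)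
def a1364 : PP 8 4 T 0x2200000000000000008000002000000000000000000000408200000000000405800 := rS 0x111893c478293ca0d4e964a89cce303b334ea5719881030c0e9fd6e7d50a74341917a20a235020b402fd1fb4d225956954c603049343f4f728ad0a25 (k8 i346 i1867 a371 a468 a13 i237 a1337 i88 (k8 i1085 i97 a72 a445 a2 a1104 a82 a461 (k8 a70 i478 i974 a349 i354 i2313 i573 i316 (k8 i229 i486 i1906 i309 a1110 a577 a1044 i1343 (k8 a377 a4 a1359 i1612 i1497 i1500 i2540 i783 (k8 i784 a722 i1954 i1675 a1363 i1898 i1376 i1855 (k4 i275 i2031 a365 a127 (k2 a205 a143 k0)))))))) (by decide +kernel)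
def a1365 : PP 8 4 T 0x2200000000000000008000000001001000000200040000000000000001100800000 := rS 0x8c33cf237898a1983011444f627 (k8 i1955 i713 a453 i971 i970 a1038 i250 a54 (k4 i3134 i972 i988 a406 (k1 a784 k0))) (by decide +kernel)
def a1366 : PP 8 4 T 0x102200000000000000008000000001001400004500040000000000000001100000000 := rS 0x1138c9e450cf6608a2ce5 (k8 a468 a466 a107 a1038 a368 i250 i1973 a784 (k2 a54 a406 k0)) (by decide +kernel)
def a1367 : PP 8 4 T 0x202200000000000000008000000000001041000000040000000000010050100800000 := rS 0x318bb38729f1bc61e07964844d69d3d89caf13 (k8 a205 a58 i1955 i713 i1906 a464 i1952 a343 (k8 i973 a1302 a406 a376 a33 a42 a784 a192 (k2 i988 a1105 k0))) (by decide +kernel)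
def a1368 : PP 8 4 T 0x402000000000000000008010000010000400010144000000000000001201540800800 := rS 0xe231173ca486e9569a45ca35389dcf627 (k8 i1955 i713 i711 a1249 i1116 a468 a1104 a82 (k8 i978 i1957 a1123 i972 a19 a406 a1105 a42 k0)) (by decide +kernel)
def a1369 : PP 8 4 T 0x2200000000000000008010000010000410010044040000000000000201140800800 := rS 0x3cc646ecf4a24c611311c40ea7b139dda691729c53a35 (k8 i1116 i1906 a1249 a468 a1104 a82 i711 i1955 (k8 i713 a1365 a1366 a9 a205 a1368 i1510 a1123 (k4 i2654 i1956 a784 i972 (k1 a406 k0)))) (by decide +kernel)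
def a1370 : PP 8 4 T 0x2000000000000000000000000000000400000004000000000000000000000005800 := rS 0x1722487669ecf319138e064318b9d8eab52b880fe7d39a851267161440a00388d4321b0b2144a446107ca64a26ae4071554025fa9124a95925956954d704 (k8 a1265 a464 a72 a445 a2 a343 i361 a1157 (k8 a1104 a70 i88 a1331 a400 i1085 i1139 a1337 (k8 a440 i567 i237 a1355 a1357 i346 i1867 a1364 (k8 i66 i43 i1116 a1249 i966 i486 i2312 i560 (k8 i2384 i276 i309 i1094 a1110 a1044 a1369 i1497 (k8 i728 i1500 a1352 a332 i1508 i712 a1105 a983 (k8 a42 i1852 i713 i729 a1001 a406 a460 a5 k0))))))) (by decide +kernel)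
def a1371 : PP 8 4 T 0x2000000000000000500001011000014000000200015000210000000000000000000 := rS 0x5599d727f (k4 i1667 i1066 i1588 i498 (k1 i2040 k0)) (by decide +kernel)
def a1372 : PP 8 4 T 0x2000000000000000004000001000000400000000000000008000000000000405800 := rS 0x156233ac50c2b52813d401d0fa4d2a110d14cc64d7eb4d96c932ab4e30d1d8d44b042210486040080cdc49 (k8 a1157 a1370 a1255 a1256 a349 i518 i261 a386 (k8 a1265 a570 i354 a435 a357 i57 a445 a63 (k8 a343 i619 a82 a70 i73 i2304 i2386 i486 (k8 i2303 a1042 a1109 i237 i781 a377 i755 i309 (k4 i880 i1048 a438 a1371 (k2 i273 a1298 (k1 a1291 k0))))))) (by decide +kernel)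
def a1373 : PP 8 4 T 0x2000000000000000004000001000000400000000000000000000000000100405800 := rS 0xa219ae4fec13a0783a2f49a552e99188b4a4a131860a2b52786c984b44bf54a6556c121a352210486040080cdc49 (k8 a1157 a1370 a1255 a1256 a349 i518 i261 a386 (k8 i354 a357 a1265 a445 a63 i361 a70 i277 (k8 a1372 a440 i269 i1272 a822 i2348 i526 i1319 (k8 i309 a467 a482 i1042 a837 a989 a1042 a1109 (k8 i316 i715 i565 a1312 i1306 i1667 i1066 i1586 (k2 i2033 a263 k0)))))) (by decide +kernel)
def a1374 : PP 8 4 T 0x2000000000000000000000002000000000000008000000000000000000000000020 := rS 0xa44a (k2 i1055 i1056 (k1 i2386 k0)) (by decide +kernel)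
def a1375 : PP 8 4 T 0x2000000000000000004000000000000400000000000000000000000000000405800 := rS 0x7da1aa98e7f88a8ce81e0e8bd2a974c8b4a4634984430515a95c66e527930404b44aa4883521904080101bf492a532c121a6e (k8 a1370 a357 a1265 a63 i361 a1157 a70 a1255 (k8 a1256 a349 i261 i518 i354 a386 a1374 i277 (k8 a1372 a1373 a440 i1272 a46 i1612 i1497 i728 (k8 i2348 i526 i2347 a1020 i1319 a467 a482 a837 (k8 a989 a1042 i316 i715 i565 a1312 i1650 a453 (k4 i1667 i3008 a1275 a106 (k2 i1595 a403 k0))))))) (by decide +kernel)
def a1376 : PP 8 4 T 0x2000000000000000000000000000000000000008000000001000000000000800800 := rS 0x1349644008795219 (k8 i43 i2643 i969 i559 i236 i966 i526 a440 k0) (by decide +kernel)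
def a1377 : PP 8 4 T 0x2012200000000000040408000001100154000000000004004648000010000000001000 := rS 0x4dabd788b5127d9cc1a18c9706755b24caad35b1dca61 (k8 i1048 a468 i142 a464 a445 a63 a343 i497 (k8 i489 a948 a1295 a351 i1250 i291 i1711 a393 (k4 i1978 i329 i1986 i1418 (k1 a336 k0)))) (by decide +kernel)
def a1378 : PP 8 4 T 0x12200000000000000008000001000000000000010000000008010000000000405824 := rS 0x43112b450c25027a803a1f49a552e990d14cc6fd69a959665568d48843 (k8 i518 a386 i354 a445 a63 i619 i361 a82 (k8 a70 i2304 i2386 i486 a837 a989 a1042 a1109 (k8 i237 i781 a377 i755 i309 i1048 a438 a1377 (k2 a58 i1497 (k1 a1356 k0))))) (by decide +kernel)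
def a1379 : PP 8 4 T 0x2200000000000000008000000001150011400200040004000004400500286400000 := rS 0x29d36395b9e10d131eb344f191bb3c607f88964ab4f (k8 a13 a72 a2 a453 i1667 i1499 i2719 i1956 (k8 a784 a1276 i729 i1308 a143 a436 i1708 i856 (k4 i1852 i1074 i243 i2034 k0))) (by decide +kernel)
def a1380 : PP 8 4 T 0x2000000000000000000000000000000400000000000000000000000000000005800 := rS 0xf2392ea1c4c37189d4405751ae4ce1e418bd26954ba64662d29284c6182893c364c25a15129d2209456a91a90c823b72b1c08c20080c2f0d399c4dc5556994b30452bf47e49 (k8 a1157 a461 a70 i361 a1265 a2 a63 a445 (k8 a72 a1370 i57 i58 a357 a1376 a1255 a1256 (k8 a1375 a349 i142 a468 a435 i261 i518 i354 (k8 a1374 a818 a570 a386 i1906 i277 i1867 a1378 (k8 a440 i269 i1272 i2348 i526 i1319 i309 a467 (k8 a482 i2112 a837 a989 a1042 a1109 i316 a334 (k8 i565 a722 a1045 i2119 i529 a1272 a1379 i1041 (k4 i1957 a1313 i738 a720 (k2 i1876 i1767 (k1 a1007 k0)))))))))) (by decide +kernel)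
def a1381 : PP 8 4 T 0x2000000000000000500000001000014000000200015001210000000000000000000 := rS 0x158b5 (k2 i1397 a1371 (k1 i1314 k0)) (by decide +kernel)
def a1382 : PP 8 4 T 0x2000000000000004100000000001000004002000450000010000000000000000000 := rS 0x13e8b (k2 i1854 i1076 (k1 a388 k0)) (by decide +kernel)
def a1383 : PP 8 4 T 0x400000000000002000000000000000000404000618010004100000000000000004400054050000000 := rS 0x2f68a821eaed8b4f (k8 a26 i1526 i1685 i1386 i2031 a48 i1416 a404 k0) (by decide +kernel)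
def a1384 : PP 8 4 T 0x400000000000002000000000000004100404000611010004100010450000008004400054050000000 := rS 0x780f226832e1e9149f (k8 a1383 a388 i492 i491 i815 a5 i2031 a127 (k1 a365 k0)) (by decide +kernel)
def a1385 : PP 8 4 T 0x2000000000000000004000001000000000000204000000009000000000100408800 := rS 0x2f5769f4dab998391b3c44c293ca9cd6a4a1afd54ad409f618b7509459f1665994aa872b27448c95cc447ed363c15ca4d33a652e637e87ca695498ec222b20874e3142c88c34440200cc201 (k8 i559 i1047 i303 a349 i485 i486 i2153 i604 (k8 a1231 a117 i781 i261 a818 i2303 a435 a115 (k8 a14 i567 i237 a70 i2304 a989 a837 i2307 (k8 i73 a424 a17 a356 a82 a461 a453 i1065 (k8 i1064 a107 a544 i347 i927 i53 i1580 i2322 (k8 a352 a368 a1381 i309 a577 a377 a340 a4 (k8 i1581 i2040 a367 a106 i580 a1187 i367 a1382 (k8 i275 a1384 a76 i786 i1876 i864 a1288 i995 (k4 i997 i1948 i1986 i2048 k0))))))))) (by decide +kernel)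
def a1386 : PP 8 4 T 0x2000000000000000000000001000140000002004005000210000000000000000000 := rS 0x572dd368b (k4 i1854 i1073 i1933 a336 (k1 i500 k0)) (by decide +kernel)
def a1387 : PP 8 4 T 0x12000000000000001044400000080800001400004000000000000400055500000000 := rS 0xc5438f50345 (k4 a111 i1336 i1258 a982 (k2 i1654 i2032 k0)) (by decide +kernel)
def a1388 : PP 8 4 T 0x2012000000000000001044400041080140001400404004000008004400051500410000 := rS 0x31226872e1e9149b138de3261 (k8 i1047 a561 a1266 a1276 a1387 a336 i492 i491 (k4 i817 a5 i2032 a1043 k0)) (by decide +kernel)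
def a1389 : PP 8 4 T 0x2000000000000000104000001000000000000004010000208000000041100409800 := rS 0x18a2743a04d45ca2ab944bf3bb2a2c331fb1e0a534aa4e283b1a99c228386aad4aa0220a4f2974cbf4c64d42b355a7d88394461a0200cc201 (k8 i559 i1047 i303 a349 i486 i2153 a424 a107 (k8 a73 i1313 a380 a361 i73 i2304 a70 a837 (k8 a989 a1386 i275 i485 i494 i2214 i580 a65 (k8 a374 i2303 i2307 i355 a435 a1231 a115 a14 (k8 i567 a17 a356 a461 i285 a352 a1295 a332 (k8 a396 i620 a1388 a381 i499 i625 i1862 a982 (k2 i1765 i1789 (k1 i2032 k0)))))))) (by decide +kernel)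
def a1390 : PP 8 4 T 0x2100000000000000000000015004000048001000005000200000000000000000800 := rS 0xae65462867b3f2ee26914ca5dfa83 (k8 a374 a70 a989 a837 a1104 a69 i1684 a1191 (k4 i818 a133 a406 a439 (k2 a260 i626 k0))) (by decide +kernel)
def a1391 : PP 8 4 T 0x2000000000000000000000001000140000000000005000200004000008008010000 := rS 0x2b8ba36 (k4 i786 i1765 a1266 i499 k0) (by decide +kernel)
def a1392 : PP 8 4 T 0x2000000000000000204000005001000000001000005000200000000055500008800 := rS 0x43b1516c782a159aad3ec41ca9f190100601 (k8 i559 i303 a349 i612 a428 a424 a107 a73 (k8 i1313 a380 a361 a17 a356 i618 i1615 a1390 (k1 i2032 k0))) (by decide +kernel)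
def a1393 : PP 8 4 T 0x2000000000000000004000001000000000000004010000208000000041100409800 := rS 0x1755d121b3110e9c193219a85882458ee511aad4aa0220a4f24d138443404018052e997e984c63f (k8 a461 i2304 i1047 a70 a837 a989 i559 i303 (k8 a349 i486 i2303 a1391 i73 a1386 i275 i485 (k8 i494 i2214 i580 i2153 a424 a356 a1104 a107 (k8 a361 a380 a1389 i612 a1392 i1645 i2032 i1616 (k4 a1043 a1266 a5 i499 k0))))) (by decide +kernel)
def a1394 : PP 8 4 T 0x2000000000000000004000001000000400000004000000208000000000100401800 := rS 0x56b2d92332b09156a55013dca634aa4e28353391056410200cc201329d41c49 (k8 a1157 a1380 a1385 i1049 i559 i1047 i303 a349 (k8 i261 a818 i485 i2307 i355 a1231 a115 a14 (k8 i2304 a424 i31 i494 i2214 i580 a1393 i347 (k4 i287 i504 i2322 i1582 (k1 a1295 k0))))) (by decide +kernel)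
def a1395 : PP 8 4 T 0x2000000000000000100001000000014400050154050000000000010000000008800 := rS 0xeeb98b0ce0ae5 (k4 a424 a17 i285 a352 (k2 a1122 a332 (k1 i2044 k0))) (by decide +kernel)
def a1396 : PP 8 4 T 0x4002000000000000001844000001004140001042004005000010000000041509000000 := rS 0x39144619e87352e95cc513a6d1713 (k8 a398 i1854 i1073 i1768 a1043 a336 i626 i625 (k4 i1683 i1950 a534 i2032 (k2 a42 i274 k0))) (by decide +kernel)
def a1397 : PP 8 4 T 0x2000000000000000800000001004141008041000005000000000000000000000000 := rS 0xaf8c2ecf713 (k4 a69 i818 i1683 a406 (k2 i626 a260 k0)) (by decide +kernel)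
def a1398 : PP 8 4 T 0x2000000000000000820000001000140000000000005000000004008000000010000 := rS 0x2bc6c6b (k4 i1789 i1616 i625 a1266 k0) (by decide +kernel)
def a1399 : PP 8 4 T 0x2000000000000000004000001010014400000154055010010000000041148018800 := rS 0xd6aea70d9e22662a1c5279653054a3255a7e2ec85ab350b101fa458f057291d32977e8d4320401804467f3ec303ad3 (k8 a82 i781 a377 a340 a897 i2153 i559 i303 (k8 a349 i229 i355 a70 a989 a837 i109 a424 (k8 a17 a356 a1104 a461 a107 a361 a380 a444 (k8 a1395 a405 a428 i583 i612 i362 i1613 a1245 (k8 a1396 i275 a1397 a1398 i2032 a76 i786 a379 (k2 a1266 a394 (k1 i625 k0))))))) (by decide +kernel)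
def a1400 : PP 8 4 T 0x2000000000000000004000001000000400000004000000008000000000100401800 := rS 0x22d3e36130a4f2a735a917f43552d13acf5cab596c98b0cd0e563bc4448813ec30feb750944ca757e8fda6c782b949a633987ca695498ec6a67088ac82490e9c62859118681c440200cc201 (k8 i559 i1047 i303 a349 i485 a1380 i486 i2153 (k8 i604 a1231 a117 i781 a1157 i261 a818 i2303 (k8 i2307 i355 a435 a115 a14 i567 i237 i1093 (k8 i2304 i73 a424 a17 a356 a82 a461 a70 (k8 a1385 i1049 a1394 i309 a577 a897 a377 a340 (k8 a4 a1399 a38 i804 i347 i927 i287 a466 (k8 i504 i2322 i1581 a1122 a368 a399 a1395 i2040 (k8 a84 a367 i580 a1187 i367 a1382 i275 a1384 (k4 i786 i997 i1773 a388 k0))))))))) (by decide +kernel)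
def a1401 : PP 8 4 T 0x2000000000000000004000001000000400000004000000008000000000000401800 := rS 0x1962ec93b0cc401a0200cc26726c141c01 (k8 i559 a1380 a17 i73 i2307 i1047 i303 a349 (k8 i486 a1400 i1612 i783 i612 a332 i1548 a352 k0)) (by decide +kernel)
def a1402 : PP 8 4 T 0x2000000000000004044000000005000000000000000000000000515004802000000 := rS 0x6ec5 (k2 i1576 i1044 (k1 i2035 k0)) (by decide +kernel)
def a1403 : PP 8 4 T 0x2002000000000000000000004001000000000000000005000000000500008000010800 := rS 0x7b455729de23f69a652efd (k8 a70 a989 a837 a82 a461 a76 i1914 a1288 (k2 a381 i1781 (k1 a442 k0))) (by decide +kernel)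
def a1404 : PP 8 4 T 0x2000000000000040004005000800014400010114004010060200000000100008004 := rS 0x56b2caa66328d0fe535587d4ae52b8114251198c43073 (k8 i837 i526 i1042 i2110 i528 i309 i525 i2351 (k8 a424 i367 i243 i580 i565 a1066 a1299 i1022 (k4 i355 i792 i545 i1621 (k1 i2037 k0)))) (by decide +kernel)
def a1405 : PP 8 4 T 0x2002000000000000000000000001000140000000000005000000006500000000010000 := rS 0x15ef1 (k2 a365 i1781 (k1 a1288 k0)) (by decide +kernel)
def a1406 : PP 8 4 T 0x2000000000000040004004000800014400010014004000060000000001500008004 := rS 0x5a9d62059729108243 (k8 i596 i338 a386 a424 i604 a107 a453 a444 (k1 a1404 k0)) (by decide +kernel)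
def a1407 : PP 8 4 T 0x2000000000000000004000001000000400002004005000020000000001104008804 := rS 0x33d3e9d8b21cee35111f4a61f530f58a3713add3639898fd8ee52895c56111d8cc62994bbf52a4f499c6282f020b430442090da689 (k8 i277 a82 i596 i338 a386 i526 i1039 i525 (k8 i316 a120 a117 a115 a185 a1065 a70 a989 (k8 a837 i1042 i2110 a435 i2347 a818 i2351 i528 (k8 a424 a356 a461 a398 i1852 i1073 i1933 a1403 (k8 i1044 a1043 a1405 i2034 i243 i565 a936 a1406 (k8 i2125 i1625 i1703 a429 i1858 i1076 a368 i2035 k0)))))) (by decide +kernel)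
def a1408 : PP 8 4 T 0x2000000000000000100000000010014400000054000000000000014001544008800 := rS 0xb93b99da7053e9d620e5 (k8 a424 a107 a453 a73 a17 a82 i542 a877 (k2 a1122 a1123 k0)) (by decide +kernel)
def a1409 : PP 8 4 T 0x2000000000000000004000000400140018005000000000000000460540000008800 := rS 0x1184d0e47af04eb16274f1fa458ee5 (k8 a424 a356 a1104 a461 a20 a69 i1524 i1645 (k4 a379 a365 i360 i2034 (k2 a406 a41 k0))) (by decide +kernel)
def a1410 : PP 8 4 T 0x2000000000000000004000000000150410001004004000424000000001500008804 := rS 0x6b1ca1d547b56b2caa66328d14e7f5b87dfa3f2b8ac36c908a84a23b199cc9e9338c505e0416b4cba370c164884121a159a7d3aad620e5 (k8 a424 a107 a444 a453 a73 a380 a361 i596 (k8 i338 a386 i604 i526 i1043 i532 a82 i1039 (k8 i525 i316 a120 a117 a115 a185 i837 i2110 (k8 a435 i528 i309 i2347 i2411 i269 a818 i2351 (k8 a461 a70 i237 a577 a1066 a1406 a1408 i1022 (k8 i355 i792 i545 i1621 a1179 i2037 a1409 i235 (k2 a1213 a460 k0))))))) (by decide +kernel)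
def a1411 : PP 8 4 T 0x12000000000000000505000000000150018400040000010020000051540086008800 := rS 0x5b8e54ebf3da91727733bf47e9182b948e5719a4e28d3 (k8 a82 a120 a115 i2110 i2351 i109 a424 a17 (k8 a1104 a461 a70 i542 a877 a1122 a1262 i817 (k4 i1451 i367 i235 i857 (k1 a1017 k0)))) (by decide +kernel)
def a1412 : PP 8 4 T 0x12000000000000001505000000040150018401140000010024000001540086008824 := rS 0x1fa84b652a98f6553319468d37295c7637 (k8 i1043 a435 i2351 a424 a82 a1411 i1022 i355 (k8 i792 a1179 a1409 i367 i243 a393 i856 a133 k0)) (by decide +kernel)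
def a1413 : PP 8 4 T 0x12000000000000000404000000000010014400000000100020000010505584008800 := rS 0x226b740d1450bc57314d4aa2aa91727733bf58f052395c56c9088cc621849c51a65922104868566c41cac1 (k8 i1306 a424 a107 a380 a361 i596 i338 a386 (k8 i604 a82 a120 a115 i526 i1042 i2110 i2347 (k8 i2411 a818 i2351 i109 a17 a356 a70 i542 (k8 a877 a1122 a1262 i791 i362 a460 i1789 i585 (k4 i586 i2032 a381 i1861 (k2 i1988 a54 (k1 a462 k0))))))) (by decide +kernel)
def a1414 : PP 8 4 T 0x2000000000000000004000001000000400000004005000024000000005500008804 := rS 0x1138c8a114c5351ecaa66328d10ec151879961d41c34a47566a16205948b1dca892b8ad9211168c430994bbf4e69517810ba790d9108243 (k8 i596 i338 a386 i269 a1407 i532 i525 i316 (k8 a1065 i837 a70 a989 a837 i526 i1042 i1039 (k8 i2347 i2411 a818 i2351 i277 a424 a356 a1104 (k8 i604 a107 a361 a380 a453 a1410 a375 a334 (k8 i715 i621 i565 a555 i1306 a1412 a1413 i1022 (k8 i355 i792 a1179 a460 i1789 i547 i2032 a52 (k2 a54 a406 k0))))))) (by decide +kernel)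
def a1415 : PP 8 4 T 0x400000000000102000000000000000800400001008001001050040000120540000000000000000000 := rS 0x2095f4f (k4 a26 a551 a563 a548 k0) (by decide +kernel)
def a1416 : PP 8 4 T 0x400000000000002000000000000005844404001001001001150050000120540000415004802000000 := rS 0x1aa9cae89a0c507a1c27e2287 (k8 i1703 a9 a1415 a1402 i235 i234 i815 a54 (k4 a108 a436 i625 a394 k0)) (by decide +kernel)
def a1417 : PP 8 4 T 0x2000000000000004044000000001001002000000000000000000415004802000000 := rS 0xe0f69f (k4 i1606 i1895 a1402 i235 k0) (by decide +kernel)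
def a1418 : PP 8 4 T 0x2000000000000000004000001000000400000004005000024000000005100008804 := rS 0x2bd988540c316e7f29afcfa1f6550d44cf52a7573165599d82352c089fa9163c15ca5764a84a23b198c4e69527a4ce314178105a1869a24ba790d9108243 (k8 i596 i338 a386 i269 a1407 i532 i277 a82 (k8 i526 i1039 i525 i316 a120 a117 a115 a185 (k8 a1065 i837 i1042 i2110 a435 i528 i309 i2411 (k8 i2351 a424 a17 a356 a1104 a70 a1414 i245 (k8 i2125 a484 i544 i2391 a429 a1122 a544 i362 (k8 a368 i2033 a395 i323 i2118 i1594 i1719 i2414 (k8 a1066 a577 a467 a4 a1417 a1416 a549 a486 k0))))))) (by decide +kernel)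
def a1419 : PP 8 4 T 0x2000000000000000004000001000000400000004005000024000000001100408804 := rS 0x1d531487a9b5b0e5e2261b9e47e510d84476994bbf6282f020b430442090da689 (k8 i277 a82 i596 i338 a386 i526 i1039 i525 (k8 i316 a120 a70 a989 a837 a435 i2347 i269 (k8 i528 a461 a1407 i1043 a1418 a76 i1876 a1403 (k4 a828 a1405 a577 i2034 (k2 i715 i1915 k0))))) (by decide +kernel)
def a1420 : PP 8 4 T 0x2000000000000000004000000400150410002044002000420000000401504008804 := rS 0x3c628dc4e6b522a95a5565998ca343f87c7e5715b2422a1288ec083327a4ce31416861a7131ca6cb2442090d0acd3ead620e5 (k8 a424 a107 a444 a73 a380 a361 i596 i338 (k8 a386 i604 i1073 i1852 a398 a82 i526 i1039 (k8 a120 a117 a115 a185 i2110 i525 a435 i528 (k8 i309 i2347 i2411 a818 i2351 a461 i237 a1066 (k8 a1408 i1022 i355 i1392 i792 i1621 i2037 i580 (k4 a1213 a1214 i1044 a1043 (k2 i2034 i1386 k0))))))) (by decide +kernel)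
def a1421 : PP 8 4 T 0x2000001000000000004000000000000000000000800000000000000000000018000 := rS 0x62d3d8ee5 (k4 a424 a356 a394 i1789 (k1 a379 k0)) (by decide +kernel)
def a1422 : PP 8 4 T 0x2000000001000000000000000000000000000000000002020000004000004000004 := rS 0xd4ec64 (k4 i792 i791 i1022 a877 k0) (by decide +kernel)
def a1423 : PP 8 4 T 0x2000000000000000004000000000150410002004006000020000000001504008804 := rS 0xd4f113078a4a73eb350b102c8fcae111d95466e53993d26718a0bc082d0c1108243698e536b7 (k8 i1933 i1073 i1852 a82 i596 i338 a386 i526 (k8 i1039 i525 i316 a120 a117 a115 a185 i837 (k8 a424 i2110 a1422 a435 i2347 i2351 a461 i604 (k8 a107 a361 a380 a73 a1406 a1420 i565 a1308 (k2 a76 a1214 (k1 a1421 k0)))))) (by decide +kernel)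
def a1424 : PP 8 4 T 0x2000000000000000100000000000010410000000002004100240005500800008820 := rS 0x28996a55caaccec11a961fb0572a4e28d3 (k8 a82 a120 a115 a424 a17 a70 i245 i2125 (k8 a484 i544 i2391 a1122 i362 i1391 i2033 i323 k0)) (by decide +kernel)
def a1425 : PP 8 4 T 0x2000000000000000004000001000000400000004004000024000000001100408804 := rS 0x461147b898e4cc281a09de09d629a90ec151b2c3c8386948ba7566a14f3102c88cc095179cd2e997ea458e892895c5604648445a312a8cc301b2210486e5 (k8 a424 i596 i338 a386 i269 i526 i2110 a1422 (k8 i1042 i1039 i2347 i2411 i525 a818 i2351 i528 (k8 i277 a356 a1104 a70 a837 a989 i837 i316 (k8 a1065 a1419 a1424 i604 a107 a1423 a361 a380 (k8 a453 i532 a1410 a375 a334 i565 i2414 i2118 (k8 i1306 a1412 a460 i1789 i1908 a1421 a76 a1413 (k8 i2032 i355 i360 a54 i1889 i547 a406 a52 k0))))))) (by decide +kernel)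
def a1426 : PP 8 4 T 0x2000000000000000014000000005000000000000000000000000555000000008000 := rS 0x674598ee5 (k4 a424 a356 a429 i2035 (k1 a368 k0)) (by decide +kernel)
def a1427 : PP 8 4 T 0x2000000000000000000001004000000000040000008014560000020000000000824 := rS 0xca33194fafd (k4 a70 a936 i1022 i355 (k2 a1240 i2368 k0)) (by decide +kernel)
def a1428 : PP 8 4 T 0x2000000000000004044000000001000000002100000000000000455040104000000 := rS 0xc54f89c7313 (k4 a398 i1852 i1767 i1075 (k2 a1043 i2035 k0)) (by decide +kernel)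
def a1429 : PP 8 4 T 0x2000000000000000004004000001140000100000008100540000555044100008000 := rS 0x9f62c622745412be2a9b (k8 a412 a51 i540 a108 a48 a68 a422 a1043 (k2 a33 a1426 k0)) (by decide +kernel)
def a1430 : PP 8 4 T 0x2000000000000004044400000081200000000000000000000000555000000000000 := rS 0x3153e3d (k4 i1785 i1113 i1654 i2035 k0) (by decide +kernel)
def a1431 : PP 8 4 T 0x2000000000000000004404000081001000100000008100540000555044100008000 := rS 0x412595e9963b3e2ce5 (k8 a424 a429 a368 a356 a1430 i540 a1429 a108 (k1 i1376 k0)) (by decide +kernel)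
def a1432 : PP 8 4 T 0x2000000000000000000000000000401000101000000100140200200800002000020 := rS 0x20c507a (k4 i235 i234 i816 a481 k0) (by decide +kernel)
def a1433 : PP 8 4 T 0x2000000000000000004000000000000010000000008000160000040001504008804 := rS 0x20d5e264c8e4ba79512fd94cf56a762c93338d56a75881647e9163c14ae2b648ec08314d8b956b73f954661872a0618532210486fd (k8 a70 i596 i338 a386 i2358 a467 a4 a424 (k8 i526 i2110 a1422 a1044 a577 i2359 i534 a412 (k8 i1042 i525 a435 i2411 a818 i2351 a17 a356 (k8 a1104 a461 i604 a107 a453 a444 a1427 i542 (k8 a1020 a429 a544 i1352 a368 a1301 a396 i620 (k8 a1428 i532 a1432 a1430 a1431 i540 i736 a108 k0)))))) (by decide +kernel)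
def a1434 : PP 8 4 T 0x2000000000000004044000000001000000002000000000000000455000806000000 := rS 0x4f89c7287 (k4 i1703 i1852 i1767 i1076 (k1 a1402 k0)) (by decide +kernel)
def a1435 : PP 8 4 T 0x2000000000000000004004000001101000100000008100540000555044100008000 := rS 0x2092caf (k4 i540 a1429 a108 i1376 k0) (by decide +kernel)
def a1436 : PP 8 4 T 0x2000000000000000004000001001000000000000008100540000550044902008800 := rS 0x196945f2613c9163c1556b740c31facf8b0cdca31 (k8 i1042 a424 i2110 a429 a368 a70 a467 a4 (k8 a577 i2359 a17 a356 a1104 a1402 a1435 i1113 (k2 i1112 a396 (k1 a476 k0)))) (by decide +kernel)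
def a1437 : PP 8 4 T 0x2000000000000000004000001000000400000004000000000000000001100401800 := rS 0x4546106261c974f2cf4ec58ce352c0886e81862dca64f1726cc431198ec22c90c06c0604220ac82fd1fa458f0572a24a24c25924860e (k8 a1380 i596 a1157 a1401 a440 i528 i277 a424 (k8 a17 a356 a1104 a461 a70 i338 a818 a386 (k8 i525 i221 i269 i526 i2411 i2347 a435 i2110 (k8 i1042 a1425 a412 i534 i1351 i2358 a577 a467 (k8 a4 a1203 a1433 i245 i2125 i544 a429 a544 (k8 a368 a1434 i532 a1432 a1436 i736 a1276 a668 (k1 a52 k0))))))) (by decide +kernel)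
def a1438 : PP 8 4 T 0x2000000000000000004000001000000400000004000000000000000000100401800 := rS 0x82452a89086572612c920e (k8 a1380 a1157 a1401 a440 i2351 i596 a1437 i2549 (k2 i347 i339 (k1 a386 k0))) (by decide +kernel)
def a1439 : PP 8 4 T 0x2000000000000000100000000000014400050154000014000000014000204008800 := rS 0x3b99e0ae5 (k4 a424 a17 i542 a877 (k1 a1077 k0)) (by decide +kernel)
def a1440 : PP 8 4 T 0x2000000000000000104000000000150410002044000015540000044544204008820 := rS 0x29788f14ea4552b4cc3465a8d027f863f47e3b3e9d56b1082a4ce31469c4c729b (k8 i1073 i1852 a398 a82 a120 a117 a115 a17 (k8 a362 a444 a453 a73 a435 a461 a70 a467 (k8 a1044 a4 i1649 i620 a1439 i355 i1621 i2037 (k4 i580 i367 i2034 a365 (k2 i1839 a127 k0))))) (by decide +kernel)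
def a1441 : PP 8 4 T 0x2000000000000000104000000000150410002044000005140200004444206008820 := rS 0x53879070d290dc7ea12c88c762d898e536b7 (k8 i1933 i1073 i1852 a398 i1039 a435 i11 i604 (k8 i309 a461 i1044 a1440 a375 a334 i565 a889 (k1 a1308 k0))) (by decide +kernel)
def a1442 : PP 8 4 T 0x2000000000000001004000000000000000000000000011020000000008000018000 := rS 0x6b2ea1de2c742c40af05 (k8 a17 i2351 a362 a361 a356 a76 i738 a720 (k2 a1421 a460 k0)) (by decide +kernel)
def a1443 : PP 8 4 T 0x2000000000000000104000000000150410001044000115544000044440206018820 := rS 0x4329cd6a41caa8f6ad3332c68a33fbf47ecd1da14fa755ac420a9338c505ad3 (k8 a82 i1039 a120 a117 a115 a17 a362 a444 (k8 a453 a73 a361 a435 i730 a461 a70 a1044 (k8 i1649 a1439 i620 i355 i1621 a1179 i2037 i235 (k4 i580 a1213 i367 a460 (k1 a1409 k0))))) (by decide +kernel)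
def a1444 : PP 8 4 T 0x12000000000000001005001000000150410400144800110020201054400004008800 := rS 0x291c44936b740d1578ae53aa948b93b99dfa3f82b948ec91d81126718a0b430d3 (k8 a82 i526 i1039 a120 a117 a115 i525 a435 (k8 i2411 i109 a424 a17 a461 a70 i542 a877 (k8 a1122 a1177 i362 i367 i585 i586 a381 i1861 (k4 i1988 i1417 a462 i2034 (k2 a54 i234 k0))))) (by decide +kernel)
def a1445 : PP 8 4 T 0x2000000000000000004000001000000400000004004000024200004000200008804 := rS 0x14a9a249b5cc659cab451ec72661a274d4871eb0546cb0f075070d29174f24f4a8bce6974cbf47ed348a24a22b2090d923b020b50a7d5a8c4eb102bc146e272a86dca59118459a18 (k8 i526 i730 i2347 i11 i604 a424 i269 a1422 (k8 a1442 i1044 a17 i2351 a362 a453 i1041 a444 (k8 a73 a361 i1039 i525 a435 i2411 i41 i2544 (k8 a818 i528 i277 a1104 a82 a461 a70 a837 (k8 a989 i837 i316 a1065 a185 a1441 i532 a1443 (k8 a375 a334 i715 i565 i2414 i1650 i1305 i1308 (k8 a1412 a460 i1908 a1444 i355 i360 a1179 i547 (k8 a1213 i548 a52 a1261 i1151 a406 i2034 a54 (k1 i242 k0))))))))) (by decide +kernel)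
def a1446 : PP 8 4 T 0x2000000000000000004000001000000400000004000000004200004000200001800 := rS 0x5624d9635519fca6ab279896a7d88154b21b01811fb0572a24a257261241c23 (k8 i11 a1380 a1157 a440 i2351 i528 i277 a424 (k8 a17 a70 i525 i221 i269 i604 a1422 a362 (k8 a73 a444 a1445 i1351 i2359 i2358 a1044 i1649 (k4 a1427 i620 a1020 i2037 (k1 i1352 k0))))) (by decide +kernel)
def a1447 : PP 8 4 T 0x2000000000000000004000001000000400000004000000000000000000000401800 := rS 0xbc0471869cc0aa12918c844519904404c2581c9201 (k8 i559 a1157 i87 a1401 a440 a1438 i2544 i1612 (k8 a1446 a386 i2357 i557 i820 i518 i837 a375 (k4 i798 a349 a183 i302 k0))) (by decide +kernel)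
def a1448 : PP 8 4 T 0x2000000000000000000000001000140000402000005000210000000000000000000 := rS 0x5726d6e8b (k4 i1854 i1932 i1074 a336 (k1 i500 k0)) (by decide +kernel)
def a1449 : PP 8 4 T 0x2000000000000000800000001000141008401400005000000000000000000000000 := rS 0xaf8c1ed7713 (k4 a69 i1684 i817 a406 (k2 i626 a260 k0)) (by decide +kernel)
def a1450 : PP 8 4 T 0x2000000000000000104010005000010000401000005000208000400055500018800 := rS 0xae1c9ade2c4438c5447765458caad3a9f59a85880fd22c782b94ce994ba4e28fd (k8 a70 a438 a115 a989 a837 i2307 a424 a17 (k8 a356 a1104 a461 a107 a361 a380 a73 a453 (k8 i1313 i1049 a352 i2040 a332 i620 i1651 a1449 (k4 i2032 a49 i1789 i1880 (k2 a1288 i625 k0))))) (by decide +kernel)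
def a1451 : PP 8 4 T 0x2000000000000000004000001100000000401000004000249200004000100008820 := rS 0x56b2cca56122e592e51d8ac82353388d2a2f5589c22974c8fd271430bf4521a (k8 i486 i275 a70 i1048 a438 a115 a461 a837 (k8 a989 i2303 a1391 i580 i316 a1065 i2153 i2307 (k8 i355 i261 a818 a435 a424 i612 a1045 a1450 (k4 i347 i1580 i2322 i1582 (k1 i2040 k0))))) (by decide +kernel)
def a1452 : PP 8 4 T 0x2000000000000000004000001000000000000008000000011200000000100008820 := rS 0x1755d121cbc5888766a15391012b206232149e628275598506505293d40230f8752e9908868a61931929fa3f69a458ee5868ec5641 (k8 i261 a818 a435 a357 a424 a356 a1104 a82 (k8 a461 a70 a440 i1320 i229 i2386 i486 i2303 (k8 a837 a989 i1232 i237 i2153 a377 i755 i2214 (k8 i309 i919 i1048 i580 a1391 a438 a1448 i275 (k8 a1451 i16 i285 i2169 a107 a1392 a361 a380 (k8 i1645 i2032 a49 i1880 a1043 a1288 a5 i499 k0)))))) (by decide +kernel)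
def a1453 : PP 8 4 T 0x2000000000000000004000001000000400402000004001020240000100180008820 := rS 0x3322059119804ca74dadc723f728eca2c90886c96252b8cc62184ca5dfb1469a252a2f (k8 i316 a1065 i277 a82 a120 a70 a989 a837 (k8 i526 i1042 i2110 i2351 i347 i73 i269 i2347 (k8 i2411 i2348 a435 a424 a461 i1852 i1932 i1074 (k8 i243 a1308 a1403 a1424 i604 a107 a1442 a380 k0)))) (by decide +kernel)
def a1454 : PP 8 4 T 0x12000000000000000404000000000150010401040000000020200000544580008824 := rS 0x44e3228451ed8a66350d10e7566a16205948b1d92111295c62550d92c661872a8d825d (k8 i532 i1306 i2118 a424 i526 i2110 i73 i269 (k8 a1422 i1042 i2351 i347 i2347 i2411 a356 a1104 (k8 i604 a107 a361 a380 a453 a1412 a1413 a460 (k8 i355 i1789 a1179 i547 i2032 a52 a54 a406 k0)))) (by decide +kernel)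
def a1455 : PP 8 4 T 0x2000000000000000101000000040010410000000000000000200005500800008820 := rS 0x29172ab338d4b10572a4e28d3 (k8 a82 a120 a115 a424 a17 i245 i2125 i544 (k4 i2391 a1122 i2033 i362 k0)) (by decide +kernel)
def a1456 : PP 8 4 T 0x2000000000000000004000001000000400000008000000000040000000100001804 := rS 0x6609a2059119e582a34ab2c3c8317a5d3255188b466521298c3611648609e572892c98fd72839127139c345644208100249 (k8 a1157 i559 a349 i261 a386 a818 a357 i58 (k8 i57 i277 a1380 a424 a70 a1452 i73 i2348 (k8 i2351 i789 i526 i2411 i2347 i269 i1319 i347 (k8 a467 i2110 a482 i1042 a1422 a837 a989 i316 (k8 a334 i565 i2414 a1065 i2118 i1306 a1453 a1455 (k4 i604 a107 a1454 a1442 (k1 a380 k0))))))) (by decide +kernel)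
def a1457 : PP 8 4 T 0x2000000000000000100000000000000000000000000000011000000000200008020 := rS 0x117329d8ea1a338649505 (k8 a17 a440 i229 i2307 i486 i1500 i783 i1049 (k2 a332 a352 k0)) (by decide +kernel)
def a1458 : PP 8 4 T 0x2000000000000000000000000000140010402000000000000004400504086000000 := rS 0x53a6d6e39 (k4 i1852 i1932 i1074 i243 (k1 a1308 k0)) (by decide +kernel)
def a1459 : PP 8 4 T 0x12000000000000001105000000040150010400000800100000000415504082008800 := rS 0x148e2249b5ba068abc5729d54a45c99c7f0572a4e28d3 (k8 a82 a120 a115 a424 a17 a461 i542 a1122 (k8 i2033 i362 i367 i585 i586 a381 i1861 i1988 (k4 i1417 a462 a1308 a54 (k1 i234 k0)))) (by decide +kernel)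
def a1460 : PP 8 4 T 0x2000000000000000004000001000000400000000000000000000000000000401800 := rS 0x298529b892e632ab67228f639330d13a6a43974f231609d4fa8551a544f10658783a8317a5d325516948c61b088609e512593192596695c6620220ac86411d810070d399c4dc8900bf47e9124c15ca0e (k8 a1380 a424 a17 a1157 a1104 a461 a70 i559 (k8 i277 a1447 i57 i58 a357 a1255 a349 a435 (k8 i261 i518 a818 a386 a1456 i1612 i1497 i730 (k8 i723 i612 a1457 i73 i2348 i789 i526 i2347 (k8 i269 i1319 a467 a482 a1422 a837 a989 i316 (k8 a334 i715 i565 i2414 a362 a1442 a1065 i1650 (k8 a361 a73 a453 i1305 i1041 a1458 i532 a1412 (k8 a460 i1908 a1459 i355 i360 a1179 i547 i548 (k8 a1213 a52 a1261 a406 i1151 a54 a1308 i242 k0))))))))) (by decide +kernel)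
def a1461 : PP 8 4 T 0x1002000000000000000104004000010500060002000000004008200000000158018800 := rS 0x1c460514541ab95437523c1774f609a926cf8b27cca75882d44a3f728acfecb51964467d4e99e0a9740c31a6a7 (k8 i283 a82 a377 a4 i1855 a17 i2307 a544 (k8 a340 i2153 i604 i2161 i620 a897 a371 a424 (k8 a461 i347 a1076 a107 a453 i1049 i1075 a352 (k8 a368 a19 a388 i1344 a394 i1947 a1421 i2030 (k8 a376 i362 i585 a899 a381 a1334 a422 i274 (k1 a42 k0)))))) (by decide +kernel)
def a1462 : PP 8 4 T 0x2100000000000000100000000000000040002000040008001000000000000000000 := rS 0x353359f164f9950e9d (k8 a544 a387 i1580 i1076 a352 a368 i1972 a388 (k1 i508 k0)) (by decide +kernel)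
def a1463 : PP 8 4 T 0x2000000000000000104004002010000020002000000000001200000000158018800 := rS 0x29582ab49b3e2c653ac4130252ba2dfae523c55367f65a8cb2233ec31a69d339289b05 (k8 a17 a1337 a440 i2307 a544 a82 a377 a340 (k8 i2153 i604 i2161 i620 a897 a457 a400 i109 (k8 a424 a70 i1854 a1462 i347 a1461 a107 a453 (k8 i1049 a352 a368 a19 a1174 i1344 i362 a1245 k0)))) (by decide +kernel)
def a1464 : PP 8 4 T 0x200000000000000410000500a011140020100000050000000004000054050000000 := rS 0x27cd7185ed15043d45c5536a7 (k8 i283 a457 a400 i578 i1346 i2031 a48 i1415 (k4 a422 i586 a33 a388 k0)) (by decide +kernel)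
def a1465 : PP 8 4 T 0x2000000000000000104000000000000000000000050000000000080000000018000 := rS 0x6b45a7de2c74eb3e2d05 (k8 a17 a352 a368 a544 a356 a376 i997 i1773 (k2 a1421 a388 k0)) (by decide +kernel)
def a1466 : PP 8 4 T 0x2000000000000000104004002010100020000000000004008200000010158018800 := rS 0x4b2084e3755291829367c58ca75882d44a3f48b94567f65a8cb2233ea0618d34e99e0aa7 (k8 i283 a17 i2307 a544 a82 a377 a4 a340 (k8 i2153 i604 i2161 i620 a897 a371 a424 a1104 (k8 a461 i347 a1076 a107 a453 i1049 a352 a368 (k8 a19 i1344 i2030 i362 a1465 i786 a1334 a1464 (k1 i1376 k0))))) (by decide +kernel)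
def a1467 : PP 8 4 T 0x2000000000000000104004002010100020000000000000001200000000158018800 := rS 0x2d15685a79a93e8b8c25e8a82678de2c6588a1caca77e8fd23154d8ad96a32c88d030c69a74ce4a26c145279 (k8 a1463 i275 a17 a1337 a440 i2307 a544 a82 (k8 a377 a4 i2153 i604 i2161 i620 a371 a457 (k8 a400 a1104 a461 a70 i283 a1466 a387 a58 (k8 i1580 a352 a1465 a368 a1334 a48 i1376 a422 (k8 i578 a33 a388 a394 i1869 a1187 a197 a1244 k0))))) (by decide +kernel)
def a1468 : PP 8 4 T 0x2000000000000000100000000010200060040000000010008000000001550008800 := rS 0x52b05569367c58ca75883f5ca4765a8cfb0c69a74cf05 (k8 a17 i2307 a544 a82 a377 a340 i2161 i620 (k8 i109 a424 a70 a107 a453 i1049 a352 a368 (k4 a19 a1174 i1344 i362 (k1 a1245 k0)))) (by decide +kernel)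
def a1469 : PP 8 4 T 0x2000000000000000104004002010000020000000000000001200000000158018800 := rS 0xe230a689a0cb885a79a93e955ad0956cf1bc595a654395a2224459ed30293ca75fa3f48c14c66725134567f65a8cb2233ea0618d3 (k8 a82 a377 a4 a340 i2153 i604 i2161 i620 (k8 a897 a371 a1337 a440 i2307 i97 a17 a1104 (k8 a461 a70 a544 a1463 i275 a1467 i1940 i1939 (k8 a1468 a38 i347 i928 i1580 i1581 a352 a1465 (k8 a368 a1174 a439 a1244 a121 i1112 a388 a394 (k8 i1869 i507 a197 a5 a1334 a406 i282 a42 k0)))))) (by decide +kernel)
def a1470 : PP 8 4 T 0x2000000000000000004004002000000400000000000000000200000000150001801 := rS 0xb5528958257190c59105089fd96a344164461a25134920e3ec31a6a1288100609 (k8 i88 i1085 a349 i2313 i309 a82 a377 a340 (k8 a1380 a1157 a1337 a440 i486 i2153 i604 i573 (k8 i2161 i620 a897 i2303 a17 a1469 i982 i612 (k4 i504 i1345 i2169 i2170 (k2 a1076 i2030 k0))))) (by decide +kernel)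
def a1471 : PP 8 4 T 0x2000000000000000004000000000000400000004000000000000000000000401800 := rS 0xc8198803ab744144081f0094c88fd074540609251355049 (k8 a1157 a1460 a1337 a440 i88 i1085 a400 a1380 (k8 a70 a1357 i567 i478 i237 a349 i2313 i573 (k4 a577 i1343 a1470 i1612 (k2 a1457 i612 k0)))) (by decide +kernel)
def a1472 : PP 8 4 T 0x2000000000000000004000000000000400000000000000000000000000000401800 := rS 0xa013700d5009 (k4 i88 a1460 i1085 a1471 (k2 a1256 a1374 (k1 a349 k0))) (by decide +kernel)
def a1473 : PP 8 4 T 0x2000000000000000000000001000000400000000000000000000000000000801800 := rS 0x492557277199fd6a733a9f43eab2c32438526598c404521130084b44805fb057283832031a9c4de49 (k8 a1157 a1376 a1249 i1116 i998 i43 a1380 a424 (k8 a17 a70 i559 i277 i966 a349 a440 i707 (k8 i526 i596 i2357 i2412 i557 i558 i2410 i595 (k8 i2389 i236 i1502 i1500 i837 i2482 i2476 i285 (k4 i2469 a1261 a476 i2044 (k1 a1020 k0)))))) (by decide +kernel)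
def a1474 : PP 8 4 T 0x2000000000000000000000000000000400000000000000000000000000000801800 := rS 0x1fa84733aa562e933bad5727d44964a2cb640c1565302910004a26c555057379c44a1b7e9260a0e (k8 a1380 a17 a1157 a70 i66 i860 a1249 a1376 (k8 i502 a1473 a400 a1337 a440 i966 i967 i486 (k8 i567 i2390 i598 i597 i2413 i2312 i2406 i276 (k8 a936 i1140 a1244 i1508 i1510 a405 i1101 i2646 (k4 i1094 a447 i2044 a133 k0))))) (by decide +kernel)
def a1475 : PP 8 4 T 0x202000000000000000108050005000014000000000041000208000000010000000800 := rS 0x172248a40d1536b7532f15ea2651955a753eb35329731bf5070d (k8 a65 a374 a70 i2304 a989 a837 a380 a73 (k8 a453 i1313 i1049 i2040 i620 i626 i329 i328 (k8 i1988 i1417 a410 i1859 a336 a462 i491 a5 k0))) (by decide +kernel)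
def a1476 : PP 8 4 T 0x2000000000000000108000001000000000000004000000209200010000108009800 := rS 0xad65994ac2488aed5629529e5404f119649a614ca5cc6fd49ae4cee519c152b14 (k8 a1231 a14 a17 i285 a424 i2307 a1122 a115 (k8 a70 i2304 a989 a837 i1047 i73 a487 i245 (k8 i31 i494 a1386 i2214 i275 i580 i1945 a1475 (k4 a107 i347 i1580 i2322 (k2 i1582 a1295 k0))))) (by decide +kernel)
def a1477 : PP 8 4 T 0x202000000000000000100000000000014400050054000000008000010000000008800 := rS 0x32ad4ea67 (k4 i2307 a453 a444 i1049 (k1 a1395 k0)) (by decide +kernel)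
def a1478 : PP 8 4 T 0x2100000000000000100000000000000000002000040008011000000000000000000 := rS 0x8b (k2 i1854 a1462 k0) (by decide +kernel)
def a1479 : PP 8 4 T 0x400000000000000102000000000000004100004008a41010005000000050000008000000000000000000 := rS 0x172248a669ad3eba5ed157f43 (k8 a106 a367 a410 i1985 i368 a856 i586 i1948 (k4 a388 a436 i491 a5 k0)) (by decide +kernel)
def a1480 : PP 8 4 T 0x2000000000000000100000001000000400000004000000008000000000100001820 := rS 0xcd352094e85149e47aa4a1afd9eaa8b2b5966551a1cac2488a04fb0c3fadd42515c8cdfa3f69c15cb4f6288c762b2210492432c934c6613987ca6954987434718a2746a670709d8417 (k8 a1474 a1472 i1955 a1380 i2307 i355 i1906 a1231 (k8 a117 i486 i781 a115 a14 i566 i237 i1093 (k8 i1047 i2304 i73 a487 i595 a1157 i261 a386 (k8 a818 a435 i245 i116 a13 a424 a17 a82 (k8 a461 a70 i285 a1122 a1476 i309 a577 a897 (k8 a377 a340 a4 a1477 a107 i347 i927 i324 (k8 i1580 i2322 i1581 a352 i2040 a368 a367 a106 (k8 i580 i1386 a1478 i275 i1866 a1479 i2031 a1384 (k2 i895 i508 k0))))))))) (by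 decide +kernel)
def a1481 : PP 8 4 T 0x2000000001000048009000000104800000000000000000000000000000000000000 := rS 0xa1a8d70bd (k4 i1418 i1151 i329 a351 (k1 a393 k0)) (by decide +kernel)
def a1482 : PP 8 4 T 0x2000000000000000000000001000000400000004000000008000000000100001820 := rS 0x448b87928280ff4251af55c9b3d9f59b108cb059c2552ad4708b3a8c862ab4fc5d90d348b9446012210492432c934c2994b98dfa1f29a4c3a1a38c513a35338398417 (k8 a1474 a1472 a1380 i2307 i355 i1906 a1231 a117 (k8 i486 i781 a115 i566 i237 a70 i2304 a989 (k8 a837 i1047 i73 a487 i595 a1157 i261 a386 (k8 i559 i245 a424 a1104 a82 a1480 a405 a428 (k8 i583 i982 i612 i1064 i618 a1105 a201 i362 (k8 i2169 i291 i1613 a42 a107 a380 a73 i1980 (k8 a1481 a336 a206 i329 a393 a133 i2030 i309 (k4 a1386 i499 a406 a5 k0)))))))) (by decide +kernel)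
def a1483 : PP 8 4 T 0x2000000000000000000000001000000400000004000000008000000000000001820 := rS 0x3206620269241c17 (k8 a1474 a1380 a1157 i73 a1482 i1612 a1457 i612 k0) (by decide +kernel)
def a1484 : PP 8 4 T 0x2000000000000000000001001100000400050144004000000000015100000008820 := rS 0x384512a2f69a4d12e5 (k8 a424 i277 a1020 a82 i316 a1065 a120 a1299 (k1 a117 k0)) (by decide +kernel)
def a1485 : PP 8 4 T 0x2000000000000000000000005000000400002004000000400000010000000001820 := rS 0x118455150699532f12eaf51205950c5693e2a6267c592689169f56a313ac40af054dadce67f2895466180d91082432c80c984b24b941cfd5da958417 (k8 a1474 a1472 i362 i1945 a70 a1380 a424 a1157 (k8 a1483 a440 i24 a487 i595 i261 a386 i269 (k8 i526 i2110 a1422 i528 a1044 i836 i1933 i1073 (k8 a17 i2351 a362 a453 i1041 a444 a73 i1039 (k8 i277 a1020 a429 a368 a1484 a51 i1351 i1352 (k8 a467 i2037 a4 i620 i626 i1855 i329 i328 (k4 i1990 i1415 a410 a207 (k2 a422 a52 k0)))))))) (by decide +kernel)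
def a1486 : PP 8 4 T 0x2000000000000000000001004000000010000004080015420200000400000000800 := rS 0x126ac8a13dfad3288b430cb (k8 i2368 i526 i1039 i528 a82 a70 a185 a120 (k2 a1301 a115 (k1 i1621 k0))) (by decide +kernel)
def a1487 : PP 8 4 T 0x2000000000000000000000005000000400002004000000400000000000000001820 := rS 0x9e62308b8cc3444ad62057829fca2551986036442090cb2c20b80c984b24b941cfd (k8 a70 a1380 a424 a1157 a1483 a440 i24 a1474 (k8 a1472 a487 i595 i261 a386 i269 i526 i2110 (k8 a1422 i528 a1044 a17 i2351 a362 a444 i277 (k4 a1485 i355 a1486 i1014 (k2 i316 i790 (k1 a1427 k0)))))) (by decide +kernel)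
def a1488 : PP 8 4 T 0x2000000000000000000000001000000400002004000000400000000000100001820 := rS 0x45460b91767a1cd6345d2f4e2a68a2547a2f4ba6546935218d96aa3f87ce6fd1fb4e9ec511a2476c9509445a3713b34729b4ea144a9f3ac40aa330c06c88412180dca596105cae4c259260a0e (k8 a1380 a17 a1157 a1483 a440 i2351 a1474 a1472 (k8 a487 a424 i24 i595 i261 a386 i269 i526 (k8 i2110 a1422 a362 a453 i1075 i347 i1867 i1857 (k8 i1073 i1852 a380 i1954 i1044 i1039 i528 i309 (k8 i2411 a435 i277 i245 i116 a13 a82 a461 (k8 a70 i836 i237 a1044 a1487 i123 i2359 i580 (k8 i1636 i323 a837 a989 i316 i1386 a1065 a120 (k8 i2034 a117 i1985 i368 a1408 i586 i1683 i1950 (k4 a348 a460 a463 i531 (k1 a52 k0)))))))))) (by decide +kernel)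
def a1489 : PP 8 4 T 0x2000000000000000000000001000000400002004000000000000000000100001820 := rS 0x2f4ba643c6341949fa3f448ec5a2766c40aa330c06c88412180dca592b9309649828398417 (k8 a1474 a1472 a1380 a17 a1157 a1483 a440 i2351 (k8 a487 a424 i24 i595 i261 a386 i269 i526 (k8 i2110 a1422 a362 a380 i1954 i1039 a435 i277 (k8 a461 a70 a1488 a334 i2358 i565 a837 a989 (k2 i316 a1458 k0))))) (by decide +kernel)
def a1490 : PP 8 4 T 0x400000000000004002000000000000000000400000005800000000000000000000000000000000000000 := rS 0x19f19 (k2 a41 i1152 (k1 a463 k0)) (by decide +kernel)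
def a1491 : PP 8 4 T 0x2000000000000000000000001000000400000004004000400000000000100001820 := rS 0x10e6b5d2f5049b4eafc72aa3da7ccd171a204e293864509e9517a5d32d348d3c46891db25422d428959a755ac40af052e9e4e61f5b9fca2551986036442090cb2c20b80c984b24b941cfd (k8 a70 a1380 a424 a1157 a1483 a440 i24 a1474 (k8 a1472 a487 i595 i261 a386 i269 i526 i2110 (k8 a1422 i528 a1044 a577 i237 i836 a1489 i532 (k8 a17 i2351 a362 a444 a453 a380 i347 i1867 (k8 i1039 i309 i2411 a435 i277 i245 a13 a1104 (k8 a82 a837 a989 i316 a1065 a185 a120 a467 (k8 a115 a117 a4 a1408 a348 i355 i1183 a1179 (k8 a1486 i235 a367 i1905 a1490 i2045 i1415 a899 (k2 i586 i1683 (k1 a460 k0)))))))))) (by decide +kernel)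
def a1492 : PP 8 4 T 0x2000000000000000000000001000000400000004000000400000000000100001820 := rS 0x412f15ea2652b526815d8d618a55593c5c623faddfa89289f56b102a8cc301b2210486037296584172bc141c5d3c9309649 (k8 a1157 a1483 a440 a1489 i532 a1380 a17 i2351 (k8 a1474 a1472 a487 a424 i24 i595 i261 a386 (k8 i269 i526 i2110 a1422 a362 a444 a73 i528 (k8 i277 a70 a577 a1044 a1491 i534 i1351 i2359 (k8 i2216 a467 a1427 i1945 a4 a1020 i1352 i2037 (k4 i620 i626 i329 a108 (k1 i1415 k0))))))) (by decide +kernel)
def a1493 : PP 8 4 T 0x4002000000001000040009000000105800000000000000000000000000000000000000 := rS 0x33e334f (k4 a13 a41 a1481 a463 k0) (by decide +kernel)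
def a1494 : PP 8 4 T 0x2100000001000000508000004000154011001000000105004000004500182000820 := rS 0x45460d513438a16ca64da74727b3fa7ccd17a10d172a57e8fda6911d9d44ecd8816546c1 (k8 i1306 i2119 a487 a362 a380 i1954 a453 a435 (k8 a1104 a82 a461 a70 i362 a1261 a1272 a393 (k8 a348 i355 i1183 a133 a1179 i235 i1905 a1493 (k8 a1308 i243 i242 i856 a54 a460 a406 i547 (k1 a52 k0))))) (by decide +kernel)
def a1495 : PP 8 4 T 0x12000000000000001000004008000000001400404000115000000200000002000000 := rS 0x57510d51340a1c507a (k8 i235 i234 i817 i1894 a54 a460 a462 i585 (k1 a381 k0)) (by decide +kernel)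
def a1496 : PP 8 4 T 0x12000000001000001000014008210140011400444000115000001440440096000800 := rS 0x17a6a4d21c72a71fb4d222d (k8 i1039 a1104 a82 a461 i243 a1495 a1017 a952 (k2 a460 i1417 (k1 i586 k0))) (by decide +kernel)
def a1497 : PP 8 4 T 0x2000000000000001000008008000000001000000000115000000000000000000000 := rS 0x35a1d7abf (k4 a367 i1988 i857 i586 (k1 a460 k0)) (by decide +kernel)
def a1498 : PP 8 4 T 0x12000000000000000100000008010150011400044000115000001450440096008800 := rS 0x1727733b9466a45bb362105 (k8 a17 a362 a380 a1497 i580 i2110 a424 i542 (k2 a877 a1122 (k1 a1496 k0))) (by decide +kernel)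
def a1499 : PP 8 4 T 0x2000000000000000000000001000000400000004000000000000000000100001820 := rS 0x1349d1c9ed3e668b8d14eb75faa926958a0f45e734ba64e2cb0f18c3a8386948ba797e8fda74f448ec56c9509445a85129d46e2766c40aa330d80dca5782860984b2210492432cb082e0e (k8 a1380 a1474 a1472 a487 i595 a1157 i261 a386 (k8 a1483 a440 i526 a17 i2351 a424 i24 i269 (k8 i2110 a1422 a362 a380 i1954 i1044 a453 i347 (k8 i1867 i1039 i528 i309 i2411 a818 a435 i277 (k8 a13 a82 a461 a70 a1489 i532 a1492 a375 (k8 a334 i715 i2358 i565 i2414 i798 a837 a989 (k8 i837 i316 i1308 a389 a1065 a115 a1494 a367 (k8 a1497 i243 a1498 a348 i355 i1183 a1179 i235 (k2 i1905 a952 (k1 a1490 k0)))))))))) (by decide +kernel)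
def a1500 : PP 8 4 T 0x2000000000000000000000001000000400000004004000400000000000000001820 := rS 0x8a8c1719e8735ae97aa64d8f53aa45f8e5547b4f99a2e3438a4e289517a5d323f69d3d8a891db245a85129f4eab51b89d9b102bc14e6a33f944aa330c06c884121965841701930964972839fa20 (k8 a1499 a70 a1380 a424 a1157 a1483 a440 i24 (k8 a1474 a1472 a487 i595 i261 a386 i269 i526 (k8 i2110 a1422 i528 a1044 i1649 i836 a17 i2351 (k8 a362 a380 i1954 i1044 a444 a453 a73 i347 (k8 i1867 i1039 i2411 a435 i277 i116 a13 a82 (k8 a461 a837 a989 i316 a1065 a120 a115 a117 (k8 a1439 a348 i355 i1183 a1179 a1486 i235 a367 (k8 i580 i1905 i1386 a1490 i2034 i1985 i368 i586 (k4 i1683 i1950 a460 a463 (k2 i531 a52 k0)))))))))) (by decide +kernel)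
def a1501 : PP 8 4 T 0x2000000000000000000000001000000400000004000000400000000000000001820 := rS 0x93560d5564f3132d467f7ea24a2b58815466180d910824301b94b2c20b95c984b24c141c20 (k8 a1499 a1380 a17 a1157 a1483 a440 i2351 a1474 (k8 a1472 a487 a424 i24 i595 i261 a386 i269 (k8 i526 i2110 a1422 a362 a444 i528 i277 a70 (k8 a1044 i1649 i620 a1500 i1351 i2359 a1427 a1301 (k2 a1020 i1352 k0))))) (by decide +kernel)
def a1502 : PP 8 4 T 0x2100000001000000508000004040154011001000000005024400000500082000820 := rS 0x115183544d0e285b299369d1c9ecfe9f3345e84345ca95fa3f69a447627668c4eac13ec40b25d (k8 i532 a487 a362 a73 i1305 a453 i1041 a380 (k8 i1954 a435 a1104 a82 a461 a70 i362 a1261 (k8 a1262 a393 a348 i355 i1183 a133 a1179 i235 (k8 i1905 a1493 a1308 i243 i242 i856 a54 a460 (k2 a406 i547 (k1 a52 k0)))))) (by decide +kernel)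
def a1503 : PP 8 4 T 0x2000000000000000000000001000000400000004000000000000000000000001820 := rS 0x9a4e8e4f69f3345d4e345bafd545d499e52b141e8bce6974ca8ce2cb0f18c3a83869484037139d59b102aa145a3312a8592182b944364c25bf47ed382b948f4f4480c762b2210492432cb082e0e (k8 a1380 a1474 a1472 a487 i595 a1157 i261 a386 (k8 a818 a435 i24 i277 a13 i109 a424 a17 (k8 a82 a461 a70 a1483 a440 i269 i528 i2351 (k8 i526 i2411 i309 i347 i2110 i1039 i1867 a1422 (k8 a362 a380 a453 i1954 i1044 a1499 a1501 a375 (k8 a334 i715 i2358 i565 i2414 i798 i1650 a837 (k8 a989 i837 i316 i1308 a389 a1065 a1458 a115 (k8 i532 a1502 a367 a1497 a1498 i243 a348 i355 (k4 i1183 a1179 i235 i1905 (k2 a952 a1490 k0)))))))))) (by decide +kernel)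
def a1504 : PP 8 4 T 0x2000000000000000008000001000000000000008004000011000004000140009820 := rS 0xad65994ac24888a4f2bb5598506505293d7293500d43a1a3386494d382b9446891591082432cc3592994bbf52a2f (k8 i316 a1065 a70 a989 a837 i612 a357 a487 (k8 i595 i261 a386 a818 i277 i245 a424 a17 (k8 a82 a440 i229 i2307 i486 i1232 i355 a377 (k8 a1020 a1122 i755 i2214 i309 i919 i1048 i580 (k8 i1945 a1448 i275 a1475 a107 i347 i1580 i2322 (k2 i1582 a1295 k0)))))) (by decide +kernel)
def a1505 : PP 8 4 T 0x2000000000000000000000000000000000000008000000420000000000000000800 := rS 0x4f28bf4e30d (k4 a357 i57 a70 i2348 (k2 i789 a467 k0)) (by decide +kernel)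
def a1506 : PP 8 4 T 0x2000000000000000008000001000000000000008000000401000004000100009820 := rS 0x18c9a1f (k4 i237 a1505 i1320 a1504 k0) (by decide +kernel)
def a1507 : PP 8 4 T 0x12000000000000001000000008000040001400400000115000000200000002000000 := rS 0xaea21aa2681438a0f4b7 (k8 a1497 i235 i234 i817 i1893 a54 a460 a462 (k2 i585 a381 k0)) (by decide +kernel)
def a1508 : PP 8 4 T 0x12000000000000000100000008000150011400040000115000000414544082008800 := rS 0x5e9a934871cae4ee671fb4d22e50d8dd48a75bb362105 (k8 a17 a362 a380 a1497 i243 i580 i1044 i2151 (k8 a424 a1104 a82 a461 i542 a877 a1122 a1507 (k4 a1017 a1308 a460 i1417 (k1 i586 k0)))) (by decide +kernel)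
def a1509 : PP 8 4 T 0x2000000000000000008000001000000000000008000000001000004000100409820 := rS 0x4d274727b4f99a2e3453add7eaa3ab34ba858824cf2371295e28550c254983d16a8c362f4ba6496cb0f18d065213bf47ed382b948f4f62a24063b1591082432c9ce1ac9 (k8 i612 a357 i58 a487 i595 i261 a386 a818 (k8 a435 i24 i277 i116 a13 i109 a424 a17 (k8 a82 a461 a70 i1955 a1506 a334 i2358 i565 (k8 i2414 i566 a837 a989 i316 i2151 i2119 i1304 (k8 i1308 a440 a1065 a437 a1422 a120 i2351 i2209 (k8 i1044 a1458 a115 a362 i1867 i532 a380 a453 (k8 a1502 a367 a1497 i243 a1508 a348 i355 i1183 (k4 a1179 i235 i1905 a204 (k1 a1490 k0))))))))) (by decide +kernel)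
def a1510 : PP 8 4 T 0x2000000000000000008000001000000000000008000000001000004000000409820 := rS 0x4d274727b4f99a2ea71a2dd7eaa2e9e47a37139d59a934ac41471417a5d3255658783a831698c365227860a24b42930ae2064bf47ed382b948f4f62a24063b1591082432c9c4e70d (k8 a357 i58 i57 a487 i595 i261 a386 a818 (k8 a435 i24 i277 i116 a13 i109 a424 a17 (k8 a82 a461 a70 i612 a1509 i1497 a1457 i1503 (k8 i73 i2348 i526 i789 a1505 i269 i1319 a482 (k8 a334 i715 i565 i2414 a1422 a837 a989 i316 (k8 a120 i1650 a362 a1065 a115 a380 a453 i1954 (k8 i1044 i1308 a1458 i532 a1502 a367 a1497 a1508 (k8 i243 a348 i355 i1183 a1179 i235 i1905 a204 (k1 a1490 k0))))))))) (by decide +kernel)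
def a1511 : PP 8 4 T 0x2000000000000000000000001000000400000000000000000000000000000001820 := rS 0xaf4d97583123c985267b419409e973eb35404a0f98d33198822c9a1d0d2753e2f670e14a2112b2032358b8ca1a6e220ac82fd69a4492c77290c46596105c1c89 (k8 i277 a1380 a1474 a1472 a487 i245 i595 a424 (k8 a356 a1157 a1104 a82 a70 i261 a818 a386 (k8 a1503 a357 a1510 a360 i70 i2110 i285 i2169 (k8 i1612 i288 i290 i291 i2189 i1711 i1906 a437 (k8 i1232 i526 i618 a107 a42 i1937 i534 i2151 (k8 i269 a377 a380 a73 a989 i755 i309 i919 (k8 i1980 i1321 i1048 a1448 a406 i1613 a5 a1493 (k2 i499 a336 k0)))))))) (by decide +kernel)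
def a1512 : PP 8 4 T 0x2000000000000000000000000000000000000000000000001040000000000408808 := rS 0xc1003645 (k4 i221 i2184 a386 a437 (k1 i2204 k0)) (by decide +kernel)
def a1513 : PP 8 4 T 0x2000000000000000000000001000000400000000000000000000000000000001800 := rS 0x50080c86596105c1c49 (k8 a1157 a1380 a1474 a1472 a487 i595 a1512 i559 (k2 a1511 a349 k0)) (by decide +kernel)
def a1514 : PP 8 4 T 0x2100000001000000109004006011000020000000040000001200000440518000800 := rS 0x5c891a93e7b8ca2d30384ba99063742b3c53163c9952a872b44684245aa95fa3f48d3cb24d3fb2d467d40c31a61f (k8 i2151 a82 a377 a4 a340 i2163 i620 a897 (k8 a1337 a487 a13 a1104 a461 a70 i362 a1244 (k8 i2030 a393 a38 i347 i927 a121 i1580 a1478 (k8 a352 i275 a368 i1866 i1956 a197 a1334 i1898 (k8 i282 i283 i578 a42 i1940 i1112 a388 a406 (k2 i507 a5 k0)))))) (by decide +kernel)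
def a1515 : PP 8 4 T 0x1002000000000000004108005008011500020100100050000010004000040058000000 := rS 0x2ba886a8ca5d3e8b1c1e050835da9e9e37 (k8 i1956 a13 i283 i1944 a899 a1334 i275 i274 (k8 i1854 i1075 i1855 a42 a388 a422 i585 a381 k0)) (by decide +kernel)
def a1516 : PP 8 4 T 0x1002000000000000000108004008011400020000000014004018200000040118008800 := rS 0x8b4c1d620b5128fc465965a8d030c2a9fc3ed367c5a0a67 (k8 i2307 a17 a352 a368 a82 i2151 a897 i1657 (k8 a377 a4 i2163 i620 a487 i245 a461 i347 (k4 a1076 a362 a453 a1515 (k2 i1939 a1468 k0)))) (by decide +kernel)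
def a1517 : PP 8 4 T 0x400000000000002000000001000000008404000410000004100000000000000001000056050000000 := rS 0x17b45412ee9ec5 (k4 i116 a13 i1944 a783 (k2 a48 i1416 (k1 a404 k0))) (by decide +kernel)
def a1518 : PP 8 4 T 0x2000000000000000109004002011000020000000000000001200000440118008800 := rS 0x45a612ea6149e448872b33e2c65a1afd543d82b9446598aa6cc661339289a818634c3e27 (k8 i1955 i2151 a82 a377 a4 a1337 a440 i2307 (k8 i96 i97 a457 a400 a487 i245 a424 a17 (k8 i1959 a1514 a367 a106 i1660 a352 a368 a1516 (k8 a387 i502 a1478 i275 a1517 i1898 i283 i578 (k1 a1174 k0))))) (by decide +kernel)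
def a1519 : PP 8 4 T 0x2000000000000000108000002000000000000000000000001000000000010008820 := rS 0x1962e92600860a881798c342b20a8488b729945fa9d1a99c944d (k8 a1337 a440 i2307 i355 i1906 a70 i2313 i2386 (k8 a577 i485 i309 i261 a818 i486 i97 i316 (k8 i573 a17 a1457 a1518 i1344 a19 i1550 a352 k0))) (by decide +kernel)
def a1520 : PP 8 4 T 0x2000000000000000000000000000000400000000000000000000000000000001820 := rS 0xb55289442c12b8c862c83eb2e187f0fa8c3aa122069105100b4e0a232cb082e0e251355049 (k8 a1157 a1513 a1337 a440 a1380 a1474 a1472 a487 (k8 i245 a17 a82 i2 i2313 i573 i486 i485 (k8 i309 i1343 i2163 i2151 a897 a377 i620 a340 (k8 a1519 i982 i612 i504 i1345 i784 i2169 i2170 (k2 a1076 i2030 k0))))) (by decide +kernel)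
def a1521 : PP 8 4 T 0x2000000000000000000000000000000400000000000000000000000000000001800 := rS 0x1bc8a00029289b155400c86596105c1c49 (k8 a1157 a1380 a1474 a1472 a487 i595 a1512 a1513 (k8 a400 a1337 a440 a1520 a349 i478 a1256 a1357 k0)) (by decide +kernel)
def a1522 : PP 8 4 T 0x2000000000000000000000000000000000000000000000000200000000000002020 := rS 0x763a958404d259986a0f (k8 i108 i354 i521 i2302 i2346 i482 i481 i1588 (k2 a1033 i1628 k0)) (by decide +kernel)
def a1523 : PP 8 4 T 0x2000000000000000000000001000000400000000000000010000000000100000820 := rS 0x12a71829ccc6b53e8bd401788100de7521920020325ae54a0f49a262e66288648a77181fd800c (k8 a1521 i561 i1515 i522 i1507 a1522 i228 i493 (k8 i521 a350 i277 i1510 i108 i361 i987 i2302 (k8 i24 i559 a440 a252 i1588 i1009 a386 a466 (k8 i740 i300 i2187 a73 a444 a1153 a1059 a1125 (k2 i796 a1075 (k1 i2044 k0)))))) (by decide +kernel)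
def a1524 : PP 8 4 T 0x2000000000000000000000001000000400000000000000000000000000100000820 := rS 0x753e9bce2734a8942ca10e148c64220930ee0769b9406591199972a507a4c60890f8648a0c (k8 a1521 a1522 i228 i236 i277 i522 i1510 i108 (k8 i361 i987 i521 i2952 i2339 i24 a392 a82 (k8 i87 i1507 a1523 i788 a386 i2357 i557 i558 (k8 i820 i518 i858 i1674 i837 i2466 i1232 i1234 (k2 i971 a1123 k0))))) (by decide +kernel)
def a1525 : PP 8 4 T 0x2000000000000000000000000000000000000000000000014100000000200000020 := rS 0x801b219200619 (k4 i228 i24 a440 a252 (k2 i2504 a386 (k1 i260 k0))) (by decide +kernel)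
def a1526 : PP 8 4 T 0x2000000000000000000000001000000400000000000000000000000000000000820 := rS 0xfe71869cc361650870a4632110498b53a88032454988ccc302580dcac05181d4a0f448cc020c (k8 a1521 i559 i1610 i277 i108 i361 i87 i1648 (k8 i561 a392 i24 i2302 i522 i521 i2952 i1510 (k8 a1522 i228 a1524 i1500 i728 a1525 i788 a386 (k8 i2357 i557 i558 i820 i518 i780 i837 a375 (k2 i2466 i720 (k1 a979 k0)))))) (by decide +kernel)
def a1527 : PP 8 4 T 0x2000000000000000002010000000004400000000002001000200000800042002008 := rS 0x250fe7d3a9dcde3138ad54220241344a73 (k8 i2694 i2207 i2346 i221 i482 i2185 i1248 i1280 (k8 i2682 i2684 i751 i1499 i1502 i1516 i2044 i1517 k0)) (by decide +kernel)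
def a1528 : PP 8 4 T 0x2000000000000000000000001000000400000000000000000000000000000000800 := rS 0xe30d291bc844922954e6410c05e2ab90f8b8c02d0da4c0463028040efd602b41809 (k8 i88 a1521 i1494 i561 a70 i87 i559 a1526 (k8 i533 a349 a1109 i2184 i1001 i303 i302 i2116 (k8 i1249 a363 i2693 a437 i2183 i2694 i1490 a1527 (k4 i1007 a386 a1255 i557 (k2 a375 i798 (k1 a389 k0)))))) (by decide +kernel)
def a1529 : PP 8 4 T 0x2000000000000000000000002000000000000000000000010000000000000002020 := rS 0x5880482290c9601 (k8 i2 i2302 i2387 a1522 a440 a386 a1061 i740 k0) (by decide +kernel)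
def a1530 : PP 8 4 T 0x2000000000000000000000000000000400000000000000000200000000000000800 := rS 0x5c2d4ea77388d4fe7d37954401629905fac056a941e33339cc94492888c8619160000a0304935500c (k8 a1521 a1528 a1337 i88 i1085 a1529 a349 i560 (k8 i2714 a252 i1570 i2312 a1053 a440 i1094 i2384 (k8 i1609 i108 i361 i1494 i561 a70 i22 i2385 (k8 i478 i482 i1490 i1056 a1110 a1044 i1116 a1249 (k4 i712 i971 i728 a1352 (k1 i1250 k0)))))) (by decide +kernel)
def a1531 : PP 8 4 T 0x2000000000000000000000000000000400000000000000000000000000000000800 := rS 0x6e0b9149449000149a038aaa01809 (k8 i88 a1521 a1528 a400 i1085 a1337 a1529 a349 (k4 a1053 a440 a1530 i967 (k2 a1357 a1256 k0))) (by decide +kernel)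
def a1532 : PP 8 4 T 0x2000000000000000000000000000000800000000000000000200000000008000000 := rS 0x6424 (k2 i872 i873 (k1 i2169 k0)) (by decide +kernel)
def a1533 : PP 8 4 T 0x800000000000002200001000000000481000004000000000000000000000000000000000000010800 := rS 0x5328d763f (k4 a461 i1680 a395 a1307 (k1 i336 k0)) (by decide +kernel)
def a1534 : PP 8 4 T 0x12200000000000000080002000001040000005054000000500000000040000000800 := rS 0x5fa69071213bf62e874fa39234f (k8 a59 a1104 a1531 i1187 i931 a432 a70 a725 (k4 a275 a68 a920 i1455 (k1 a1490 k0))) (by decide +kernel)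
def a1535 : PP 8 4 T 0x12200000000000000015000000000140000005054000000500600000000000005820 := rS 0x2ae84b5630449c3f889fd1c2b65bc4faad7ea74d63b (k8 a435 a464 a179 a70 a445 a1110 a199 i619 (k8 a371 a1531 a930 a28 a461 a467 a186 a132 (k4 a1534 a403 a106 a1533 k0))) (by decide +kernel)
def a1536 : PP 8 4 T 0x2200000000000000004000000000000000800000000000000200000001100001800 := rS 0x8b1c4e3d898fe2287472445643 (k8 i41 a371 a1104 a1531 i931 a28 a461 a68 (k4 i1256 i736 a275 i563 (k1 a1035 k0))) (by decide +kernel)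
def a1537 : PP 8 4 T 0x2200000000000000015000000000140000005054000000500600004000100005820 := rS 0x6384632374d20d030c35a44761b472ddfa25 (k8 i346 a70 a577 a1531 a1532 a435 a1104 a464 (k8 a1535 a4 a1536 i2045 a1218 a41 i524 a1190 (k1 a132 k0))) (by decide +kernel)
def a1538 : PP 8 4 T 0x12000000000000000014000000000140000005054080008500600004000000005820 := rS 0x18c27899ad048b4dc602281270fd0e8e488ad6efd (k8 a70 a577 a371 a1104 a1531 i931 a461 a467 (k8 a124 a186 a1138 a41 a52 a920 i547 a68 (k2 i736 a132 (k1 a275 k0)))) (by decide +kernel)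
def a1539 : PP 8 4 T 0x2000000000000000000000000000140000005054000010500200014000100005820 := rS 0xc613c4cd6114122d371840c30cc5682b0d8ac1720c44a3f88c5d0e9115addfa4732955928e (k8 a1531 i612 i766 i1025 i265 a70 a577 a371 (k8 a1104 i931 a432 a28 a461 i346 i985 a429 (k8 a408 a40 a468 a1537 a362 a352 a1538 a4 (k8 a1138 a41 a52 i2045 i523 i547 a68 i736 (k2 a132 a275 k0))))) (by decide +kernel)
def a1540 : PP 8 4 T 0x2000000000000000000000000000140000005054000010500200014000100001820 := rS 0x19e0a0e64c5cca8e (k8 a1531 i1025 a432 i612 a1539 a17 i542 a352 k0) (by decide +kernel)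
def a1541 : PP 8 4 T 0x12200000000000000005000000000140000405054000000500600008000000005820 := rS 0x6c9a623f47e91 (k4 a1104 a461 a70 a1535 (k2 a920 i1616 (k1 i995 k0))) (by decide +kernel)
def a1542 : PP 8 4 T 0x2200000000000000004000001000000000000000000000010200000000100005820 := rS 0xe5e2c66284632374d20618c149a0cd6ad4fa4476b7239944a322c8d4de1f28a84a6974c9ccc62f0b06402437e9e4f648259c4368e (k8 a1531 a1532 a662 i486 a440 a418 a353 a70 (k8 i41 i559 i229 a437 a1113 i534 a1047 a837 (k8 a989 i828 i821 i494 i237 i969 i1117 a489 (k8 a1540 i2169 i1025 i265 a577 a435 a1104 i1187 (k8 a445 a464 a1536 a1109 i1613 a1541 a4 i2045 (k8 a1218 a41 i524 i1616 a132 a199 i299 a419 k0)))))) (by decide +kernel)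
def a1543 : PP 8 4 T 0x12000000000000000014000000000140000405054000008500400400000004015800 := rS 0x1c319e26b2ec4a32374d27d1c915ba049cfd (k8 a70 a467 a124 a577 a1104 a1531 i1187 a920 (k8 a1218 a41 a947 a5 i507 a198 a132 a419 (k1 i299 k0))) (by decide +kernel)
def a1544 : PP 8 4 T 0x12000000000000000014000000000140000005054080008500600000000000005820 := rS 0x6a45b1e302789a08224e7e8fd0e911d8ac368e (k8 a1531 a1532 a371 a435 a1104 i931 a461 a70 (k8 a467 a186 a1543 a68 i736 a406 a275 a52 (k2 a132 i547 k0))) (by decide +kernel)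
def a1545 : PP 8 4 T 0x2000000000000000014004000000140000505054000008000400000000004005820 := rS 0x70c6789acbb1208c646e9a4fa39223b (k8 a435 a1104 a1531 i1187 i2045 a1218 a41 i524 (k4 a406 a5 i507 a198 (k2 a132 a419 (k1 i299 k0)))) (by decide +kernel)
def a1546 : PP 8 4 T 0x2000000000000000004000001000000000000000000000010200000000100005820 := rS 0xd48b08b1e30271ec4d048186198acc5828fe231743a4456713d9e532973787d6e515094ce6631780486fd23994b2350b064904b0d955928e (k8 a1531 i611 i766 a1532 i486 a440 i229 a437 (k8 i1117 a489 i1025 i265 a70 i41 i559 a1113 (k8 i534 a1047 i828 i821 i494 a577 i237 i969 (k8 a989 a837 a353 a418 a662 a371 a1104 i931 (k8 a432 a28 a461 a1542 a277 a362 a352 a1544 (k8 a4 a1545 a68 i1256 i736 a406 a275 i563 (k2 a52 a132 (k1 i547 k0)))))))) (by decide +kernel)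
def a1547 : PP 8 4 T 0x2000000000000000008000000000000000000000000000002000011001100000800 := rS 0x890a232221c39523118ba38f679 (k8 a353 a418 a1531 a432 a28 a1104 a468 a1105 (k4 a107 a42 i250 a406 (k1 a54 k0))) (by decide +kernel)
def a1548 : PP 8 4 T 0x2000000000000000000000001000000000000000000000010200000000100001820 := rS 0x11b941cc3128c464591ac44e27b3ca652e51509bc3e533998c5e0121bf4904b0b06d1c19 (k8 i229 a1531 a1532 a437 i486 a440 a70 i41 (k8 i559 a1113 i534 a1047 i828 i237 i969 i821 (k8 i494 a989 a837 a353 a418 a662 a28 i1117 (k8 a489 a1540 i16 i2169 a1547 a1546 a424 i245 (k1 a107 k0))))) (by decide +kernel)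
def a1549 : PP 8 4 T 0x2000000000000000000000001000000000000000000000010200000000000001820 := rS 0x302c89440480192c368e (k8 a1531 a1532 i486 i24 a440 a1548 i110 i2480 (k2 a142 i985 k0)) (by decide +kernel)
def a1550 : PP 8 4 T 0x2000000000000000000000001000000000000000000000000200000000000001820 := rS 0x33160988e (k4 a1531 a1549 i874 i875 (k1 i2366 k0)) (by decide +kernel)
def a1551 : PP 8 4 T 0x12000000000000000004004000000040000405054400000500400008002000005820 := rS 0x18c2b6284624374d3f47e91 (k8 a1104 a461 a70 a920 i995 a947 i524 i1616 (k2 a8 a132 (k1 i410 k0))) (by decide +kernel)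
def a1552 : PP 8 4 T 0x2000000000000000005004000020040000005054400000500400008002000005820 := rS 0x628458ea666a080f0d (k8 a413 i87 a1551 i2607 i920 i411 i1913 i1919 (k1 a132 k0)) (by decide +kernel)
def a1553 : PP 8 4 T 0x2000000000000000000000001000000000000000000000010000000000000001820 := rS 0x20d362b4eb098293729ad5a0f4b91c64245b9c61b043998cca2f1a868a64e502942e59379e4f6402410c12fd69c5d0e9f472440289019449645 (k8 a1550 i485 i493 i24 i277 i559 a1104 a1531 (k8 i1187 i931 a432 a82 a70 i88 i517 a440 (k8 a386 a418 a353 i1009 a506 i740 i2212 i300 (k8 i301 i827 i260 i2210 i2187 i1025 a1153 a1059 (k8 a1102 a413 i796 a125 i872 i873 i265 a989 (k8 a17 a445 a464 a409 a1109 i1613 a1552 i1906 (k4 i372 a1493 i919 a920 k0))))))) (by decide +kernel)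
def a1554 : PP 8 4 T 0x2000000000000000014000000000000800002000000100000400000040001005000 := rS 0x1ac4e84 (k4 i1136 i1768 i1868 a772 k0) (by decide +kernel)
def a1555 : PP 8 4 T 0x2100000000000000100000000000140000405054880100000000400000020010800 := rS 0x40add371213ae46f1955b3914fd489fd1ccb (k8 i2368 a1531 a930 a1104 a70 i547 i548 a1223 (k8 a52 i1773 a1261 a135 a406 i1151 i721 a45 (k1 i2045 k0))) (by decide +kernel)
def a1556 : PP 8 4 T 0x12000000000000000080048000000000800010000000000000000000000020000000 := rS 0x284a25aa9a227f (k4 a930 a28 i722 i887 (k2 i336 a403 (k1 a395 k0))) (by decide +kernel)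
def a1557 : PP 8 4 T 0x12100000000000000104000000000140000405054080100000400400000024015800 := rS 0x8c2686e395ba0452bb633c4d63f43a7d1c91629f582e4 (k8 a425 a408 i1233 a277 a1104 a1531 i1187 i931 (k8 a461 a1555 a198 a132 i1680 i259 i1236 a1556 (k4 i299 a1218 i2045 a419 (k1 a41 k0)))) (by decide +kernel)
def a1558 : PP 8 4 T 0x2000000000000000000000001000000000000000000000000000000000000001820 := rS 0x1ad387a3c844de7141c34e6974cb14365d0b070a4630791c842b61c15926620884b04c0c915fa7747004063b (k8 a435 i24 i559 a1531 i125 a70 a1550 i228 (k8 a1553 i874 i2481 i788 i875 i614 a2 a487 (k8 a818 a386 i1618 i596 i2357 i557 i558 i518 (k8 i2335 i780 a277 a837 a989 i837 a375 a334 (k8 i2466 i1232 a1220 a1554 a1557 i879 i1908 a179 k0))))) (by decide +kernel)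
def a1559 : PP 8 4 T 0x2000000000000000000000001000000000000000000000000000000000000000820 := rS 0x10c82240d914b230198311c01 (k8 i559 a1531 a1558 i1610 i522 i2339 a1522 i873 (k4 i985 i260 i858 a386 k0)) (by decide +kernel)
def a1560 : PP 8 4 T 0x2000000000000000000004000000800000000000400000000440020800800004040 := rS 0x2708b1d4c3a (k4 i1175 i1176 i2203 i1913 (k2 i1914 a862 k0)) (by decide +kernel)
def a1561 : PP 8 4 T 0x2000000000000000000000001000000000000000000000000200000000000001800 := rS 0x5a5090b4f51b097a824d9ad8304409f48eb786145926f3c9ece253509209a4303b4e228748a652e637e87c4273129d41ea51139468180b8b8c01b01014028e (k8 a1531 i559 a1559 a349 i2184 i303 i302 i2693 (k8 a437 i1130 a364 i1131 i2127 i2122 i124 i349 (k8 i2694 i725 i2116 a70 i533 a989 a837 a1104 (k8 i931 a28 a82 i87 i41 i525 i221 i2185 (k8 i565 i1280 a418 a353 i2684 i2777 i494 a183 (k8 a577 i207 a340 a4 a425 i1573 a464 a1560 (k8 i2045 i1416 a1536 i329 a13 i1867 a393 a197 (k1 a84 k0)))))))) (by decide +kernel)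
def a1562 : PP 8 4 T 0x2000000000000000000000000000000800000000000000004110000000002000000 := rS 0x59261089234199dc4a75 (k8 i124 i349 i125 i233 i1130 i1007 a386 a440 (k2 a560 i874 k0)) (by decide +kernel)
def a1563 : PP 8 4 T 0x2000000000000000000000001000000000000000000000000000000000000000800 := rS 0x1a44208843017258b8c01b01014028e (k8 a1531 i559 a1559 a349 i2184 i303 i302 i2778 (k4 i2693 a437 i725 i2183 (k2 a1562 i482 (k1 a1561 k0)))) (by decide +kernel)
def a1564 : PP 8 4 T 0x2000000000000000000000000000000000000000000000000200000000000000820 := rS 0x49258bcc64d54104368e (k8 a1531 a1532 i22 a1563 a1337 i97 i316 i486 (k2 a1080 a440 k0)) (by decide +kernel)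
def a1565 : PP 8 4 T 0x2000000000000000014000000000000800002000000010000600000000001005000 := rS 0x22c73589d082b (k4 a371 i1136 i1768 i1869 (k2 i1602 i484 (k1 a132 k0))) (by decide +kernel)
def a1566 : PP 8 4 T 0x400000000000000002100000000000000404004000000040040005054800018000000000240000010800 := rS 0x168ab412646ef013c4c525c66215fb1143a39229b40c322aa8 (k8 a1563 a400 a389 a4 a457 a1104 a1531 i931 (k8 a28 a70 i1869 i508 i507 i1968 a5 i1765 (k4 a127 a376 i980 i2045 (k2 a1225 a197 (k1 a1244 k0))))) (by decide +kernel)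
def a1567 : PP 8 4 T 0x2000000000000000080000000000214000000000000000000000000200000000800 := rS 0x14542532e62e8e8aaa1763f (k8 a461 i1680 a1563 a400 a1531 a432 i1144 i981 (k2 a447 i336 (k1 a395 k0))) (by decide +kernel)
def a1568 : PP 8 4 T 0x2000000000000000000000000000040000004000000000000200000000000001800 := rS 0x2789a0932c6358fd0e9115b2cac9549b05c87962b0c3259a7845030c8a9c436b77e9cca22c45858869b3794c8e5524c15900f189291c000280d5009 (k8 i88 a1563 i1085 a1564 a349 a1531 i477 i2659 (k8 i598 i1132 a32 a1053 i765 i225 i2385 i1056 (k8 a457 i41 i478 i2292 i560 i2312 i1094 a70 (k8 a577 a1532 i1240 a400 a389 a4 a1348 a1160 (k8 i2406 i1038 a276 a277 a1565 a425 a408 i1241 (k8 a521 i1133 i2413 a371 a1104 i931 a461 a1566 (k4 a132 a1567 i2045 a68 (k2 i736 a275 k0)))))))) (by decide +kernel)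
def a1569 : PP 8 4 T 0x2000000000000000000000000000040000000000000000000200000000000001800 := rS 0x35b1d38383d0453e914d90c2c8b5bbf48e5524b0d8b056403c6281861cc94518a9bca671160000a0354024368e (k8 a1531 a1532 i88 a1563 i1085 a1564 a349 i560 (k8 i1240 i2385 i1056 a400 i2312 i477 i1094 a389 (k8 a4 i2659 i598 i1132 a32 a277 a276 a1053 (k8 i765 i225 a70 a577 i2292 i478 i41 a457 (k8 a1104 i1187 a1348 a1568 i714 i879 i299 i1907 (k1 a132 k0)))))) (by decide +kernel)
def a1570 : PP 8 4 T 0x2000000000000000000000000000000000000000000000000200000000000001800 := rS 0x1ad8e11678e2329649b05c8c56183e0a4718b20aa8b25124580002c5d3e8e4880d5009 (k8 i88 a1563 i1085 a1104 a1531 i1187 a432 a1564 (k8 a349 i560 a1053 i477 i2292 i765 i1132 i2659 (k8 i225 a32 i598 a276 a277 a425 a408 i1241 (k8 a1569 a71 i1244 i1983 i1873 i299 a534 a132 k0)))) (by decide +kernel)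
def a1571 : PP 8 4 T 0x2000000000000000000000000000000000000000000000000100000000000000820 := rS 0xb920804b218049aa8 (k8 a1563 a1337 i2 i2387 i485 a386 a440 i740 (k1 a1061 k0)) (by decide +kernel)
def a1572 : PP 8 4 T 0x2000000000000000000000000000000000000000000000000100000000000000800 := rS 0x1b82e4a248000b15018249aa8 (k8 a1563 a1337 i88 i1085 a400 a1571 a349 a1053 (k4 a440 i967 a1357 a1256 k0)) (by decide +kernel)
def a1573 : PP 8 4 T 0x2000000000000000000000000000000000000000000000000000000000000000800 := rS 0x1a0589420000300a4401aa11c09 (k8 i88 a1531 a1563 i1085 a1572 a1564 a1570 a349 (k4 i482 i477 i478 i726 (k1 i2775 k0))) (by decide +kernel)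
def a1574 : PP 8 4 T 0x2100000000000000100000000000000000000000040000000400008000000000000 := rS 0xcb17 (k2 a360 i1545 (k1 a352 k0)) (by decide +kernel)
def a1575 : PP 8 4 T 0x2100000000000000100020000000000000000000041000000000000000000000000 := rS 0xcb17 (k2 a465 i1026 (k1 a352 k0)) (by decide +kernel)
def a1576 : PP 8 4 T 0x2001000002000000000010000000000000000000005000000400014000000000160 := rS 0x9344a545aa38a3485ea952b04620b (k8 a1573 a459 a408 a382 i572 i315 a130 a438 (k4 a757 a329 a14 a337 (k2 a115 i2033 k0))) (by decide +kernel)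
def a1577 : PP 8 4 T 0x402000000000000000000000000000000000000000000000000000080044000400000 := rS 0x52f1 (k2 a376 i1838 (k1 a127 k0)) (by decide +kernel)
def a1578 : PP 8 4 T 0x400000000000000002000000000000000041040000110200000050000020000048000000001550000000 := rS 0x5fd0d44b55e9519f45 (k8 a433 a454 i1050 i1990 i767 i2030 a395 i1719 (k1 a404 k0)) (by decide +kernel)
def a1579 : PP 8 4 T 0x401000000000000002000000000000000800140000000000000000000000000000000000000000000000 := rS 0x286bf (k2 a396 a105 (k1 a404 k0)) (by decide +kernel)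
def a1580 : PP 8 4 T 0x400000000000000002100000000000000140040014010200000050000040000048400000001550005140 := rS 0xbfa1a8996bd67c58caa560b928a0b (k8 a1573 a433 a425 a408 a382 a1578 a352 a368 (k4 i1990 a1579 i2027 a395 (k2 i1719 a404 k0))) (by decide +kernel)
def a1581 : PP 8 4 T 0x402000000000000000080000000000000000000000000000000000000044008000000 := rS 0x52f1 (k2 a27 i2158 (k1 a127 k0)) (by decide +kernel)
def a1582 : PP 8 4 T 0x402001000002000000000014000000000000000000001000008400014040000000120 := rS 0x1f43506af280f4c4a7690440e0b (k8 a1573 i2301 i2303 a130 a902 a1576 a335 i487 (k4 i2306 a374 a65 a384 (k1 a1022 k0))) (by decide +kernel)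
def a1583 : PP 8 4 T 0x400000000000000022100000000000000140040014010200000000000040000048400000001550005140 := rS 0xfe7d (k2 a340 a35 (k1 a1580 k0)) (by decide +kernel)
def a1584 : PP 8 4 T 0x400000000000000402100000000000000140044014010200001000000040000048400040001148005140 := rS 0x1fcfa82868745a81a29cc4633 (k8 a1574 i272 i834 a433 i1864 i980 i782 a1583 (k4 a462 i1442 i926 a1580 k0)) (by decide +kernel)
def a1585 : PP 8 4 T 0x2100000000000000000000000000040000002004800000010200000000000405020 := rS 0x1e8fda4a70ec3506503126576ab5693d5efc638dc4eb74da2e262b50aa44a350f8240e2121b929e114296466475c99cc24a0d065920b (k8 a1573 i611 i229 a437 i269 i1047 i2309 a1575 (k8 i2149 a1574 i603 i1869 i2303 a1160 a425 i41 (k8 a1200 i2301 i2148 i271 i354 i346 i572 i308 (k8 a371 a398 i1854 i1073 i1933 i1768 a1577 a1581 (k8 a1582 a427 a74 a420 a97 i1946 a1584 a336 (k8 i487 a374 a65 i1229 a889 a377 a1022 a335 (k1 a384 k0))))))) (by decide +kernel)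
def a1586 : PP 8 4 T 0x2101000000000000000000000000000000000000801000008400000000000005120 := rS 0x2f68aca5dab47cab579c0a03d3128d4ed21a81e9e1152b05c8335c99d920b (k8 a1573 i611 i2309 a1575 a1574 a425 a408 a382 (k8 i2303 a1160 i2301 i354 a130 a902 a757 a1576 (k8 a335 i487 i488 i2306 i2305 a384 i2875 i1946 (k4 i2027 a80 i1411 a1579 k0)))) (by decide +kernel)
def a1587 : PP 8 4 T 0x10002102000000000000004040000000000080000000000000008400404050000015140 := rS 0xbfa1a8996bda2a987af06389e26372e53d4ac1722b5560b (k8 a1573 a97 a420 a425 a408 a382 a1160 i491 (k8 i1773 a5 i1765 a1190 a127 a365 a567 a410 (k4 i1984 a1579 i2027 a395 (k2 i1719 a404 k0)))) (by decide +kernel)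
def a1588 : PP 8 4 T 0x2102000000000000004050000000140000000000005000008400004050000005120 := rS 0x630dd7c3fa1a8996bda2a6917191daa40f4f08a9582e457ab5560b (k8 a1573 a97 a420 a427 a425 a408 a382 i2303 (k8 a1160 i2301 i572 a435 a260 a1587 a336 a111 (k8 i1417 a1579 i2027 a395 i407 a404 a1266 i1719 (k1 a1190 k0)))) (by decide +kernel)
def a1589 : PP 8 4 T 0x2000000000000000004200040100000000000000000000000001000000000010140 := rS 0x29c7e0b (k4 a1573 i1411 i1984 a384 k0) (by decide +kernel)
def a1590 : PP 8 4 T 0x22002000000000000000000000000000000400000000100000000000000000000000 := rS 0x50 (k2 a292 a65 k0) (by decide +kernel)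
def a1591 : PP 8 4 T 0x2102000000000000004040000000040000000000045000000200000010048405020 := rS 0x431065d88ad624742a09cc87b1b2554c2c3f8fd12933eb4e86a265af47b15a2a6056a117aa41207a784494a5608c5c83323ae592af27ab5560b (k8 a1573 a97 a420 a74 a427 i611 a1575 i2149 (k8 a1574 a425 a459 a408 a382 i269 i2303 a1160 (k8 i2301 i2148 i572 i315 i308 a371 a1588 a433 (k8 a57 i1786 a1589 a1579 i2027 a395 a99 i1594 (k8 i1634 i280 i407 a897 a120 a384 i978 i980 (k8 i3100 i2040 i785 i1050 i1049 a1577 i767 a453 (k4 a5 a68 a403 a1590 k0))))))) (by decide +kernel)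
def a1592 : PP 8 4 T 0x2100000000000000004000000000040000000004800000010200000000000405020 := rS 0x515943e5ea8d4e3d690761a50312ed56ad57bf0527933a843e093081e9e112529582e423868320b (k8 a1573 i229 a437 i2149 a425 a408 a382 i269 (k8 i2303 a1160 i2301 i1047 i2148 i271 i308 i2309 (k8 a1585 i275 a1586 a427 a420 a97 i1946 a1591 (k8 i487 a65 i1229 a377 a335 a67 a99 a1589 (k4 a384 i2027 a80 a1579 k0))))) (by decide +kernel)
def a1593 : PP 8 4 T 0x2000000000000000080000000000000000002000000000000000000040009000000 := rS 0x4f13 (k2 a398 i1768 (k1 a1581 k0)) (by decide +kernel)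
def a1594 : PP 8 4 T 0x2101000002000000000000000000000000000000045000000400000000000004160 := rS 0x5c8cc6ac9 (k4 i611 i354 a1574 a1575 (k1 a1576 k0)) (by decide +kernel)
def a1595 : PP 8 4 T 0x2101000000000000000040000000040000000004004000008400000000000005120 := rS 0x5ed147d435faa95acb332655261a78454ac17228c0e0b (k8 a1573 i2301 a757 a425 a408 a382 i2303 a1160 (k8 i1047 i572 a837 a1594 i2308 i1622 i2027 a367 (k4 a106 a1212 a80 i1411 (k1 a404 k0)))) (by decide +kernel)
def a1596 : PP 8 4 T 0x2101000000000000084000000000040000000004000000008400000000000005120 := rS 0x28aca5e8f95aab579c0a0625d8f546a76901e9e1152b05c80b (k8 a1573 a425 a408 a382 i2303 a1160 i2301 a130 (k8 a902 a757 a335 i1679 a1595 i487 i488 i2306 (k4 i2305 i2875 a384 a1589 (k2 i2027 a80 (k1 a1579 k0))))) (by decide +kernel)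
def a1597 : PP 8 4 T 0x400400000000000002002000000000001000000000000000005050000020000008000000000000000000 := rS 0x5c8943107115a9d0a84f (k8 a74 i1050 i1049 i767 a453 a197 a403 a436 (k2 a1590 a5 k0)) (by decide +kernel)
def a1598 : PP 8 4 T 0x2000000000000004100000000001000000000000450000000000081000000010000 := rS 0x13e8b (k2 i1773 i996 (k1 a388 k0)) (by decide +kernel)
def a1599 : PP 8 4 T 0x2102000000000000004000000000040000000000445000000200000000048405020 := rS 0x4545b181b9959ab7439fd127d69b3c7ca2a1afd74b919a845ea964d3c62e44e8ec52856304494c5238ad5e0b (k8 a1573 a427 a371 i2149 a277 i269 i2303 a132 (k8 i1602 i2158 a435 a179 a425 a459 a1160 i611 (k8 i572 i315 i308 a1574 a1575 a1591 i107 a86 (k8 i1679 i1680 i1951 a99 i1594 i280 a897 i1683 (k8 a530 i1948 a1597 a1598 a1190 i1424 a561 a120 k0))))) (by decide +kernel)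
def a1600 : PP 8 4 T 0x2100000000000000000000040000140000000000405000000404004000000015020 := rS 0x378c8ed520b (k4 a1573 i572 a435 a260 (k2 a1266 a1189 k0)) (by decide +kernel)
def a1601 : PP 8 4 T 0x400000000004002000000000000000000040000000214000000000000000000000000000000000000 := rS 0x17315 (k2 a57 i1144 (k1 a447 k0)) (by decide +kernel)
def a1602 : PP 8 4 T 0x4002000001000000000000040040080050000000000005000000000100000000010020 := rS 0x6f194c8fc76a9a1a4c5e0b (k8 a1573 i315 i1634 a395 i572 a435 i407 a1601 (k2 a260 a1266 (k1 a419 k0))) (by decide +kernel)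
def a1603 : PP 8 4 T 0x2102000000000000004000000000040000000000405000000200000000048405020 := rS 0x10c419743b1216b3536b71f2fd74d33fc450ea21ca54accb4fc5ccca10481e9ea560b913a3b78a158c11253148e2b57ab5560b (k8 a1573 a97 a420 a427 a371 i2149 a277 i269 (k8 i2303 a132 i1602 a198 a435 a179 a425 a408 (k8 a382 a1160 i2301 i2148 i308 a1599 a350 a414 (k8 i2308 i489 i1674 i299 i2027 a387 a58 i1665 (k8 a99 a1602 i107 i1680 a530 a1490 i1948 i1423 (k4 a436 i782 a5 a68 (k2 a377 a1590 k0))))))) (by decide +kernel)
def a1604 : PP 8 4 T 0x2100000000000000004000000000040000000004000000010200000000000405020 := rS 0x51594bb1f2f546a71eb483b0d2818956ad57bf18c6b60a969ee462a843e4704984220725068320b (k8 a1573 i229 a437 i269 i2301 i2303 i1047 i2148 (k8 i2149 i271 i308 a277 a425 a1160 a382 a408 (k8 a1592 a132 a1596 a427 a420 a97 a1603 i487 (k8 a65 i1229 a377 a335 a67 a99 a1589 a384 (k4 i1679 i2027 a80 a1579 k0))))) (by decide +kernel)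
def a1605 : PP 8 4 T 0x2001000000000000000000040000040000000000005000000000000000000010160 := rS 0x8b4d8d873191f3c476a7168f5a49944c51520b (k8 a1573 i572 a438 a337 a837 a130 a335 a329 (k8 a902 a435 a556 a384 a561 i296 a419 a828 (k2 i1773 a336 k0))) (by decide +kernel)
def a1606 : PP 8 4 T 0x2200000000000000020000000000000000000000000000000010000001108010000 := rS 0x4475 (k2 a1268 a1290 (k1 i273 k0)) (by decide +kernel)
def a1607 : PP 8 4 T 0x2001000000000000480000090000000000000000400000000400000000000005140 := rS 0xa1afd54a55ed169ec1692ed460b (k8 a1573 a757 i1679 a130 a44 a59 a381 i1986 (k4 i415 i2027 a367 a106 (k1 a404 k0))) (by decide +kernel)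
def a1608 : PP 8 4 T 0x102001000000000000480000010000040000000000401000008400000001100005120 := rS 0x522d55650312bd82a3690440e0b (k8 a1573 i2301 i2303 a130 a757 a44 a1607 a1605 (k4 i487 i2305 i1397 i2027 (k1 a164 k0))) (by decide +kernel)
def a1609 : PP 8 4 T 0x102000000000000000000000000200000000000000000000000000000001108000000 := rS 0x46e5 (k2 a382 i2154 (k1 a107 k0)) (by decide +kernel)
def a1610 : PP 8 4 T 0x2000000000000000092000000000040000000000005000000000000000000010020 := rS 0x8aa653639a28fc78be1d8bd520b (k8 a1573 i572 i315 a435 i1693 i1694 i1426 a18 (k4 i1877 i1258 i1786 a1405 (k1 a162 k0))) (by decide +kernel)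
def a1611 : PP 8 4 T 0x400000000000002202001000000000081000000100144000040000005000000204000000048401020 := rS 0xec34ee87419753d17890e064271bc6456a11daa41211252bd560b (k8 a1573 a97 a427 i269 i2303 i2148 i572 a435 (k8 i308 a371 a260 a1266 i786 a1190 a419 a1581 (k8 a360 i299 a5 a68 a69 i1715 a1590 a744 (k1 a743 k0)))) (by decide +kernel)
def a1612 : PP 8 4 T 0x2202001000000000181040000181040000000000005000000200001000048401020 := rS 0x8b27d2a2c1ca254c8b1ec55303f048440e4a57d0d262f3fb4d420b (k8 a1573 i308 a99 a897 i315 i1634 a395 a427 (k8 i269 i2301 i2303 i2148 i407 a1611 a57 i1786 (k8 i1939 a384 i2166 i1937 a120 i978 i2657 a1602 (k1 a192 k0)))) (by decide +kernel)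
def a1613 : PP 8 4 T 0x102202001000000000090000000101040000000000005000000200001000048405020 := rS 0x1d86a0cbb1266a1d6e3e5fae8fed35130542c92382422072532d5b4f428ad560b (k8 a1573 a97 a371 i1602 a59 a445 a385 i269 (k8 i2301 i2303 i2148 i2149 i611 i308 a1610 i2027 (k8 a99 a897 a1612 i107 i1680 a530 i1683 i1948 (k4 a436 a5 a68 a1590 (k2 i1421 a743 k0))))) (by decide +kernel)
def a1614 : PP 8 4 T 0x2000000000000000004000000000040000000004000000010200000000000405020 := rS 0x146c1690761a503129556fc18c458c9d78b14426b2aab59704208ad423b129643e4704984220725068320b (k8 a1573 i229 a437 i269 i2301 i2303 i1047 i2148 (k8 i2149 i271 i603 i346 a435 i308 a371 i22 (k8 a1604 a385 a445 a72 a464 a1339 a1606 a199 (k8 a179 a132 a1347 a1332 a1608 a97 a1609 a1613 (k4 i487 a65 i1229 a377 (k2 a44 a99 (k1 i2027 k0))))))) (by decide +kernel)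
def a1615 : PP 8 4 T 0x12000000000000000000000040000080000000004004000040202000000008400000 := rS 0x2245c1489d02381614438702987e2ab739a85069115b4de20b (k8 a1573 a365 a335 a371 i912 i1376 i308 i834 (k8 i1902 a24 i271 i564 a389 a377 i1358 i782 (k4 i1244 i2828 i1876 i1839 (k2 a108 a127 (k1 a5 k0))))) (by decide +kernel)
def a1616 : PP 8 4 T 0x22002000000000000000000000000000000400000000000000002000040000010000 := rS 0x4f131497102f1 (k4 a365 a4 a1590 i1839 (k2 a5 i1765 (k1 a127 k0))) (by decide +kernel)
def a1617 : PP 8 4 T 0x2000000000000000004000000000000000000004000000010200000000000405020 := rS 0x144c41c8693df8d31e0fd5e8353a580e110487c94910d06456a11d8bd520b (k8 a1573 i572 i315 a435 i308 a371 i229 a437 (k8 i912 i269 i271 i2148 i2303 i2301 a1614 i1898 (k8 i1376 i1900 i1372 a384 a335 a130 a74 a1616 (k4 a377 a1615 i1229 i487 k0)))) (by decide +kernel)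
def a1618 : PP 8 4 T 0x2101000002000000000000000000040000000000005004120200000000100004020 := rS 0x114416a1f3f955970c332b89ea11296492115191c3ac16902430073e94d4a0b (k8 a1573 a382 i564 a936 i2345 i526 i2105 a130 (k8 a44 a341 i2106 a757 i2347 i30 i603 i346 (k8 i308 i790 a1605 a1594 a467 i2370 i1620 a35 (k4 a81 a1076 a362 i2030 (k1 a9 k0))))) (by decide +kernel)
def a1619 : PP 8 4 T 0x2100000000000000001001020150000000050000000010000400000001150000000 := rS 0x4510 (k2 a1198 i2030 (k1 a9 k0)) (by decide +kernel)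
def a1620 : PP 8 4 T 0x2001000000000000000000000000000000000000000000500000000000080000100 := rS 0x9f0d (k2 a81 i1269 (k1 a467 k0)) (by decide +kernel)
def a1621 : PP 8 4 T 0x2000000000000000005000040440000000010000800004000601000000050015140 := rS 0x3fad558cba2af576ab1f284a6252cd3c424352b920a0b (k8 a1573 a464 a425 a382 i41 a1200 a394 i603 (k8 i346 i564 i308 a384 i585 i1946 a1589 a80 (k4 a1579 i2027 a1076 i1556 (k1 a1619 k0)))) (by decide +kernel)
def a1622 : PP 8 4 T 0x400000000000012001000000000000001001000140000000010000000000120200000001150000000 := rS 0x440447f27284a60b (k8 a1573 i564 i308 a467 i2547 i2030 a403 a9 k0) (by decide +kernel)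
def a1623 : PP 8 4 T 0x2101000000000000001001008140000000000000000004120200000000150004000 := rS 0x88954447f8650d42252c9f4a60b (k8 a1573 i564 a936 i603 i346 i308 a106 a1622 (k4 a35 i2030 i1657 a9 (k1 a362 k0))) (by decide +kernel)
def a1624 : PP 8 4 T 0x2001000000000000400000000000000000000000800000120600000000000005100 := rS 0xfeac55ad542252ca8c3ac16901c3e21219f4ae5352b920a0b (k8 a1573 a464 a425 a382 i564 i2353 a936 i41 (k8 a1200 a1620 i2345 a130 a44 a341 a757 i603 (k4 i346 i308 a1076 a1623 (k2 i2027 i1556 (k1 a1619 k0))))) (by decide +kernel)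
def a1625 : PP 8 4 T 0x2001000000000000000000000000040400000004804000020200000000000005020 := rS 0x15622223fc316a4f3ac5ce2b8651814a7d72084af0521a844a595191c3ac16901c3e090c144a60b (k8 a1573 i564 i528 i526 i2105 a1620 i2345 a130 (k8 a44 a341 i2106 a757 i603 i346 i308 i41 (k8 a464 i2353 a1200 a425 a936 a382 a1618 a1624 (k8 i1391 i2887 a465 i1065 i789 a201 a467 a35 (k4 i2030 a9 i1537 a362 k0))))) (by decide +kernel)
def a1626 : PP 8 4 T 0x2101000000000000404000010000000000000000400000000400000000000015140 := rS 0x5157a3ea1afd5eaa538f582d2a7a95c8bb63315460b (k8 a1573 a757 a277 a132 i1679 a425 a382 a1160 (k8 a130 a44 a335 a902 i2027 a1607 a367 a106 (k4 a384 a1589 a80 a404 k0))) (by decide +kernel)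
def a1627 : PP 8 4 T 0x2101000000000000001000020100000000000000000000120600000000150004000 := rS 0x7433158f8b53fa84a6252ca8c0e0b (k8 a1573 i2345 a757 i603 i346 i564 i308 i1556 (k4 i1288 a1619 a936 i529 (k2 i530 i2962 k0))) (by decide +kernel)
def a1628 : PP 8 4 T 0x2101000000000000004000000000000000000000400000120600000000000005100 := rS 0x1455e8f95eca56aed4ac6a7b918a21218454ea30e8f582d20387ca60b (k8 a1573 i564 a1620 i2345 a130 a44 a335 a341 (k8 a757 a902 i2347 i41 a1200 a277 a425 a1160 (k8 a132 a382 i1679 a1627 a1626 i626 a384 a1589 (k2 a80 a1579 k0)))) (by decide +kernel)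
def a1629 : PP 8 4 T 0x800000000000000002200000000000000004000000000000004000000400000020600010000900005000 := rS 0x33331dcace5133118ecd1590c4a91088c43111 (k8 a9 i526 i1042 i2347 a110 i346 i41 a371 (k8 a36 a59 a132 a860 a40 a1311 i2979 a724 (k2 i233 a728 k0))) (by decide +kernel)
def a1630 : PP 8 4 T 0x400000000000002200000000000000004404040540000000000000400000020601010000940005100 := rS 0x66663b959ca26623358ebaa7a1c53455e8f8564312a44220718862220b (k8 a1573 a9 i526 i1042 i2345 i2347 a110 i346 (k8 i41 a371 a384 a1589 a80 i256 i1704 a1629 (k8 a404 i1679 i1948 a132 a860 a40 a1311 i2979 (k2 a724 i233 (k1 a728 k0))))) (by decide +kernel)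
def a1631 : PP 8 4 T 0x2201000000000000004004000100000000050000400000020600010000140005100 := rS 0xcccc772b335ca2643b118eae88888622b21a844a910c0454e1d1ead57f4355305a4a303b2d5a0b (k8 a1573 a445 a385 i2345 a757 a130 a44 i2027 (k8 a106 a367 a822 a335 a341 a902 i2347 i526 (k8 a110 i346 i308 i41 a371 i1042 i2030 a9 (k8 a1630 a1607 a132 i1703 a860 a40 i1792 a1311 (k4 i2979 a724 i233 a728 k0))))) (by decide +kernel)
def a1632 : PP 8 4 T 0x2200001000000005000000000001000004000000040004020000000000000010000 := rS 0x13c64b891 (k4 a110 a794 a784 i1765 (k1 a795 k0)) (by decide +kernel)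
def a1633 : PP 8 4 T 0x2201000000000000004004000100014000050000400000020600010500040405100 := rS 0xa0f4844e21de2c463b3ce83033ae59a5719b94402b08a8d82d203a24300b (k8 a1573 i526 i230 i2345 a130 a44 a757 i2347 (k8 a371 a1631 a46 i1612 i1497 i730 a1045 a722 (k8 i2033 i1041 i2719 i3008 a132 a49 i1524 a1632 (k4 i1591 i1592 i1504 i3095 k0)))) (by decide +kernel)
def a1634 : PP 8 4 T 0x2200000000000000004001000200000000000000000000000200000000500015000 := rS 0xc5881045625 (k4 i346 a371 i22 a164 (k2 a1290 a1347 k0)) (by decide +kernel)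
def a1635 : PP 8 4 T 0x2200000000000001020000000000000000000000040000020000010041202011000 := rS 0xa0f4843a270608767bc52257 (k8 i529 a110 a49 a807 i1524 a1311 a1632 i1041 (k4 i1591 i1592 i1504 i3095 k0)) (by decide +kernel)
def a1636 : PP 8 4 T 0x2001000000000000004000000000040400000004004000000200000000000405020 := rS 0x8c33cf3162e9ee263113218eac64eb159a20339dc662372a90fe933ea556a5556996086b158ec5ea9128d522110d92c5a475b87c121828930a60b (k8 a1573 i564 a1617 i528 i526 i2105 a1620 a577 (k8 i2106 i1039 i73 i269 i2347 a110 i354 i346 (k8 i572 i315 a435 a371 a1625 a1628 a63 a445 (k8 a72 a822 a1042 a1110 a1109 a1044 a1633 a382 (k8 i248 i2111 a877 a722 a1634 i730 a1635 a179 (k8 a132 i3008 i1689 i1690 i1041 a69 i817 a720 (k4 a429 a1030 a368 a406 (k1 a784 k0)))))))) (by decide +kernel)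
def a1637 : PP 8 4 T 0x2101000000000000004000000000000000000000008000120200000000000005020 := rS 0xcf1bc64668a4f99d5cca4e95c626a62884863b1ab2422a323875821f1c8f5a4090c2a536a703804fb0c27924a60b (k8 a1573 i564 i30 i1351 a467 a340 i2 i2345 (k8 a902 a412 i572 i526 i2105 a130 a335 a1031 (k8 a1620 a44 a341 i2106 a757 i2347 i611 i354 (k8 a435 i41 a1200 a277 a1628 i1042 i2353 i1908 (k8 a1624 a1621 i2370 a551 i539 a1574 a52 i1773 (k2 i1979 a262 k0)))))) (by decide +kernel)
def a1638 : PP 8 4 T 0x2201000000000000004004000100000000050000008000020600010000040405100 := rS 0x337299840aa51b05a40765ab4d60b (k8 a1573 a464 a445 a385 i2345 a130 a44 a757 (k4 i2027 a1631 i537 a46 (k2 i1612 a722 k0))) (by decide +kernel)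
def a1639 : PP 8 4 T 0x2001000000000000004000000000000000000000008000120200000000000405020 := rS 0x2acae67100cc46e5522d4cacb821fcfb0c279646a490891d6e1f04860a60b (k8 a1573 i564 i526 i2105 a1620 a577 i2106 i2347 (k8 i30 i354 i603 i1351 a467 a340 a35 a1637 (k8 a385 a63 a822 a1638 a382 i248 i2111 a1634 (k4 a722 i1497 i537 a1240 k0)))) (by decide +kernel)
def a1640 : PP 8 4 T 0x2001000000000000004000000000000400000004000000000200000000000405020 := rS 0x12e6354944980b (k4 a1573 a1617 i528 i572 (k2 a1639 a989 (k1 a1636 k0))) (by decide +kernel)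
def a1641 : PP 8 4 T 0x2100000000000000104000054040000000000000805000020600010500040005100 := rS 0xa71e875a5154a2e46667499f594590881c622121a9582e42ba24300b (k8 a1573 i526 i230 i2353 a425 a408 a382 i41 (k8 a1200 i1042 i2345 i2347 i603 i2027 i1328 i1367 (k8 i545 a1574 a1575 i2033 a14 a658 a341 a335 (k2 a67 a1621 k0)))) (by decide +kernel)
def a1642 : PP 8 4 T 0x400000000000002002000000000000000004000040081040000000004005002060204010000100000020 := rS 0x41a056e5d3d218f2bf4f31e2e33679d8ea641594c76510d92c8e310c1c632374c845520b (k8 a1573 i572 i2347 a57 a1266 a561 a117 i526 (k8 i1042 i2106 i73 i269 i528 a435 i564 a371 (k8 i792 i1540 i791 a454 i1545 a332 a1284 a463 (k8 i1719 a1428 i1715 i1716 i532 i857 i1894 i815 (k1 a108 k0))))) (by decide +kernel)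
def a1643 : PP 8 4 T 0x2100000000000000004000000000040400000004804000000200000000040405020 := rS 0x1962e765c99d94b53ac40aa714ac50fe3f499f5a6a244a845e591a9cca651048b4c24f56aac4243a791c30112b9313ac95dabdf80b (k8 a1573 a1640 a427 i1946 i611 i1908 a1617 i2353 (k8 i2347 i526 i2106 a1160 i41 a1200 a97 a420 (k8 a74 a397 i1039 i2105 i528 i564 i836 i354 (k8 i603 i315 i308 i230 a1641 a99 i1594 i1634 (k8 i407 a1066 a120 a14 a117 a1642 a362 a453 (k8 a444 i2037 i545 a1575 i2044 a332 i1547 a352 k0)))))) (by decide +kernel)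
def a1644 : PP 8 4 T 0x400000000000002000000000000000001010000140004000040800000000000000015500000000000 := rS 0x12b17 (k2 a332 i1675 (k1 a758 k0)) (by decide +kernel)
def a1645 : PP 8 4 T 0x2000000000000000000000040000040000000044005000000006000000080010020 := rS 0x228991c9c5e23b17aa61a0b (k8 a1573 a81 i572 i315 a435 a365 i2873 i1877 (k2 i1786 a389 (k1 a1288 k0))) (by decide +kernel)
def a1646 : PP 8 4 T 0x400000000000000002000000000000000804040040100040000000044005000000004000000080010160 := rS 0x1455ea987a0b (k4 a1573 a1645 a384 a1589 (k2 a410 a1579 k0)) (by decide +kernel)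
def a1647 : PP 8 4 T 0x400000000000000002000000000000000804040040100040000000044005000000000000000080010160 := rS 0x2f68a3e (k4 a1646 a80 i1411 a1579 k0) (by decide +kernel)
def a1648 : PP 8 4 T 0x2100000000000000000000000000000000000000000014000400000000800000000 := rS 0xab11 (k2 a9 i1537 (k1 a362 k0)) (by decide +kernel)
def a1649 : PP 8 4 T 0x2100000000000000004000000000040400000004804000000200000000000405020 := rS 0xa3658780e7329824c2ad55d3c22a560b9176af7e08cae470c130b20b (k8 a1573 i603 a1617 i526 i2106 i2353 a1648 a1640 (k8 a427 i1946 a425 a408 a382 i2347 a1160 a97 (k8 a420 a397 i2105 i564 i836 i2345 a1643 a1647 (k2 i240 i2027 k0)))) (by decide +kernel)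
def a1650 : PP 8 4 T 0x1002000000002000000004000054000000000000000800000020600000100040005100 := rS 0x1947c51a9c7a1d69164220752b04ae0b (k8 a1573 i2353 a408 a382 i2345 i2347 i603 a658 (k4 a341 a335 a67 a99 (k2 a1621 i2027 (k1 i1328 k0)))) (by decide +kernel)
def a1651 : PP 8 4 T 0x1002100000000000000004000054000000000000004800000020600000000000005100 := rS 0x2883e5ea9c7a88651c1470d0f01ce653168629e1152b05c8bb1195cb20b (k8 a1573 i603 i2353 a1648 i1946 a425 a408 a382 (k8 i2347 a1160 i526 i1039 i564 i836 i2345 a1650 (k8 a81 i240 a389 i2027 i1356 i2873 i2109 a1589 (k2 a384 a1579 (k1 a80 k0))))) (by decide +kernel)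
def a1652 : PP 8 4 T 0x2100000000000000004000000000000400000004800000000200000000000405020 := rS 0x18d2f140491c304c57ab556fc (k8 a1640 a97 a420 a427 a1617 i526 i2106 i2105 (k4 a1651 a24 a51 a1649 k0)) (by decide +kernel)
def a1653 : PP 8 4 T 0x2100000000000000184000054040000000000000005000020600010500040005100 := rS 0x2883e5e8f5a5154a2e4666749a9d76ca03d3c22311090d4ac172224300b (k8 a1573 i526 i230 a425 a408 a382 i41 a1200 (k8 i1042 i2347 a1160 i2345 i2027 i1679 i336 i1367 (k8 i545 a1574 a1575 i2033 a14 a658 a335 a1589 (k2 a384 a1579 (k1 a80 k0))))) (by decide +kernel)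
def a1654 : PP 8 4 T 0x2002000001000000000000000040000440000000000005000000000100000000010020 := rS 0xd915194c8ed520b (k8 a1573 i572 a435 a57 a561 a336 a419 i1773 k0) (by decide +kernel)
def a1655 : PP 8 4 T 0x1002100000000000000184000054000000000000000005000020600010500040005100 := rS 0x349440b (k4 a1573 a1653 a658 a99 k0) (by decide +kernel)
def a1656 : PP 8 4 T 0x400000000000000002000000000000000085000054140040000000044005000000400000000080015160 := rS 0x2ed940b (k4 a1573 i2027 i1679 a1647 k0) (by decide +kernel)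
def a1657 : PP 8 4 T 0x2100001000000000084000054000040000000004005000020200000000000005020 := rS 0x15c447e5107a2a2f2c8d592073994ca209a78454ac17211d363916860760b (k8 a1573 a435 i526 i1039 i2115 a828 i2106 a425 (k8 a408 a382 i2347 a1160 i2105 i528 i564 i836 (k8 i2345 i611 i354 i603 i315 a1654 a1655 a1656 (k4 i241 i240 i1666 a1648 k0)))) (by decide +kernel)
def a1658 : PP 8 4 T 0x2100001000000000084000054000000000000004005000020200000000000005020 := rS 0x71868f03c3f53c552c3b178d59211039cca6091691c300b (k8 a1573 i526 i2106 i1039 i2105 i564 i836 i2345 (k8 i2347 i611 i354 i315 a435 a1657 a24 i1898 (k4 i1372 a1655 a384 a81 (k2 i2873 a389 k0)))) (by decide +kernel)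
def a1659 : PP 8 4 T 0x400000000000000002000000000000080085000054100000000000000000000000400000000000015140 := rS 0x1455db287cbd51a9c7a0b (k8 a1573 a335 a67 a99 a1589 a384 i2027 i1679 (k2 a80 a1579 k0)) (by decide +kernel)
def a1660 : PP 8 4 T 0x401000000000000002000000000000000081100014140000000000000000000000400000000000005140 := rS 0x2ed940b (k4 a1573 i2027 i1679 a1579 k0) (by decide +kernel)
def a1661 : PP 8 4 T 0x2100000000000000000000000080000000000000000010100400000000080000000 := rS 0x15c447e (k4 i241 i240 i1666 a1648 k0) (by decide +kernel)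
def a1662 : PP 8 4 T 0x2100000000000000004000000000000400000004000000000200000000000405020 := rS 0x2883e5eaed943d519c14e880f34e2a6278b18d6c152d3dc8c5179642207288245a470c130c2af56aadf80b (k8 a1573 a1640 a97 a420 a427 a397 a1617 i526 (k8 i2106 i1039 i2105 i528 i2345 i2347 i603 i315 (k8 a277 a425 a1160 a382 a408 a1652 a132 a198 (k8 a1658 a51 a1659 a658 a120 i2121 i231 a1661 (k4 i2873 i2027 i1679 a1589 (k2 a384 a1579 (k1 a80 k0))))))) (by decide +kernel)
def a1663 : PP 8 4 T 0x2000000000000000400000014140000010000000015000000400000100000005160 := rS 0x126334ab95802f548d5920b (k8 a1573 i611 i354 i572 i315 i2027 a408 i1518 (k2 i1614 a1020 (k1 a1295 k0))) (by decide +kernel)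
def a1664 : PP 8 4 T 0x2202000000000000004001000200000000000044000000100200010000046015000 := rS 0x5c45a2831389d61a7e2b99c407719a4c467d7294c4a0b (k8 a1573 i346 i564 a382 i1326 i248 i1365 i2111 (k8 a877 a1634 a722 i1497 a924 a35 i1668 i799 (k4 i1041 a389 a429 a853 (k1 a465 k0)))) (by decide +kernel)
def a1665 : PP 8 4 T 0x2002200000000000000014000040000000000000000005000000000000100002015020 := rS 0x4d8e58cf11d91cd697 (k8 a24 a464 i2106 a435 a199 a132 i2115 a828 (k1 a1654 k0)) (by decide +kernel)
def a1666 : PP 8 4 T 0x2202000000000000004000000000000000000004004000020200000000040005020 := rS 0x4d8e5e2c44bc5062d351295123b1a8440e7329944364b048b48e1830abd5aab659956a0b (k8 a1573 a822 a63 a385 a97 a420 a427 a397 (k8 i526 i2106 i1039 i2105 i73 i269 i528 i564 (k8 i836 i2345 i2347 i354 a435 i230 a1664 a1663 (k8 a99 i1652 a658 a24 a1665 a49 i1880 a828 (k1 a1654 k0))))) (by decide +kernel)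
def a1667 : PP 8 4 T 0x2000000000000000400000014140000000000000015000000000000100082005060 := rS 0x75100c124c0440248e0b (k8 a1573 i2106 i2105 a1663 i2027 i1344 i1345 i1306 (k2 i2930 i1041 k0)) (by decide +kernel)
def a1668 : PP 8 4 T 0x2202000000000000004000000200000000000004004000020200000000000005020 := rS 0x22a71629f99a57101dcce23199f5ca2b128d4227329944364b16860c2af5ac343c0b (k8 a1573 a1666 a81 a822 a427 a397 i526 i1039 (k8 i73 i269 i528 i564 i836 i2347 i354 i346 (k8 a371 a382 i1326 i2111 i249 a722 a877 a1634 (k4 i529 i730 a924 a1635 (k2 i799 a1665 (k1 a389 k0)))))) (by decide +kernel)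
def a1669 : PP 8 4 T 0x2000000000000000004000000000000400000004004000000200000000000405020 := rS 0x943b2206515632758a75111f9a6a252878762f0881c5a470c130c2af56aadf8cb329ae080b (k8 a1573 a1662 a464 a63 a385 a1640 a97 a420 (k8 a427 a397 a1617 i526 i2106 i1039 i2345 i2347 (k8 i315 a435 a1666 a1668 a1667 a99 i241 i240 (k8 i1668 i2994 a179 a132 a1665 a1305 a120 i233 (k2 i281 i3003 k0))))) (by decide +kernel)
def a1670 : PP 8 4 T 0x1002202000000000000004000000000000000000004000000020600010000040005100 := rS 0x146c16929422073994ca21b258b430ad55b2d6a0b (k8 a1573 a822 a385 a97 a420 i526 i1039 i73 (k8 i269 i528 i564 i836 i2345 i2347 a1664 a658 (k2 a44 a99 (k1 i2027 k0)))) (by decide +kernel)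
def a1671 : PP 8 4 T 0x2000000000000000002000000000000020000000000000000000000000082000000 := rS 0x3a2484030 (k4 i1345 i1306 i1344 i1041 (k1 i2930 k0)) (by decide +kernel)
def a1672 : PP 8 4 T 0x2202000000000000000000000200000000000020000000520000010001006001000 := rS 0x3f95cee67199f5cab5 (k8 a822 a382 i1326 i2111 a722 a877 i529 i799 (k1 a924 k0)) (by decide +kernel)
def a1673 : PP 8 4 T 0x2000000000000000004000000000000400000004000000000200000000000405020 := rS 0x1d928223f2894ac1441c21a1e8a989970455ab5f8470486ca27303860964c298946a0b (k8 a1573 i354 i346 i564 a1617 i73 i526 i2345 (k8 i836 i528 i269 i2105 i2106 a1640 a420 a97 (k8 a1662 a385 a1669 a51 a1670 a81 a389 i1356 (k8 a1671 a1672 i2027 i241 i240 i281 i799 i3003 k0)))) (by decide +kernel)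
def a1674 : PP 8 4 T 0x2101000002000000800000000000000400000114004000000600000000140004020 := rS 0x8693cfcb511c5caeb828980ce7d5094c4a5952b05461d6901c120b (k8 a1573 i222 i519 a130 a341 a757 a408 a382 (k8 i603 i346 i564 i308 i1328 i545 a1594 i1311 (k8 i1391 i505 a465 a1648 a201 i2030 i1389 a35 (k1 a467 k0)))) (by decide +kernel)
def a1675 : PP 8 4 T 0x2101000000000000404000010000140000005054000000000600400000040015040 := rS 0xe5e29a13244531286a0cfcb51195d03451fadd5cbc28aecd54f15a844a591090d4e2d0e8f5a47d553054ae404a8ca60b (k8 a1573 i564 a757 i222 a425 a382 a408 i2027 (k8 i1596 a130 a335 a341 a329 a902 i41 a1200 (k8 i603 i346 i308 a371 a1160 a1626 i1947 i2315 (k8 i586 i585 a577 i1411 a381 i1862 a1187 a1648 (k8 a1076 i2030 a899 a35 a462 a54 a112 i2031 (k4 i2045 a76 i1875 a828 k0)))))) (by decide +kernel)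
def a1676 : PP 8 4 T 0x2000000000000000000000000000000000004000000000000200000000000020020 := rS 0xd91426 (k4 i484 i523 i524 a633 k0) (by decide +kernel)
def a1677 : PP 8 4 T 0x2101000000000000004000000000000400000004004000000600000000040005020 := rS 0xc9271644c52230d3e2d572953f8745aac6928d96993981d2ea1298ec5ea9129646ac93886cf2113d9209a7525804ee21218594ac118b90120b (k8 a1573 i222 a425 a459 a408 a382 a1673 i41 (k8 a1200 i711 i2 i966 a1117 i707 a440 a418 (k8 a1676 a353 i66 a662 i611 i354 i603 i346 (k8 i572 i315 a435 i564 i308 a989 i519 a1047 (k8 a837 a1674 a757 a130 a1675 a329 a341 i1556 (k8 i1558 i1290 i1288 a1619 a340 a73 a389 a1013 (k4 a466 a115 i2033 a360 k0))))))) (by decide +kernel)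
def a1678 : PP 8 4 T 0x2101000000000000404000010000000000000000008000000400000000000015140 := rS 0x1a954a560b91460b (k8 a1573 a757 a425 a408 a382 i2027 a1626 i2361 k0) (by decide +kernel)
def a1679 : PP 8 4 T 0x400000000000000002000000000000000804000040500000000000000800000000001000000000010140 := rS 0x511763e5eafe860b (k8 a1573 a105 a396 a1589 a384 i1946 a404 a80 k0) (by decide +kernel)
def a1680 : PP 8 4 T 0x400000000000000002100000000000000814000000500000000000000808000000401001000000014160 := rS 0x33678de32674fa295c9d1d8d5923954a6c020b (k8 a1573 i2 a412 i572 a1031 i611 i354 a435 (k8 i1908 a1679 i539 a551 i2370 a52 i1773 i1979 (k2 a1574 a262 k0))) (by decide +kernel)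
def a1681 : PP 8 4 T 0x2101000000000000004000010000000000000000008000000400000000000015160 := rS 0x2bd8c6b55b298b4f52b0462e4538f5a40b (k8 a1573 a130 a335 a902 a425 a459 a408 a382 (k8 a1160 a277 a1678 i123 a1680 a132 i625 a1659 k0)) (by decide +kernel)
def a1682 : PP 8 4 T 0x2101000000000000004000000000000400000004000000000600000000040005020 := rS 0x1103e45d6a923fab146070e98812a129894b2710d844f648269d496013b884861652b05c80b (k8 a1573 a425 a408 a382 a1673 i41 a1200 i711 (k8 i2 i966 a1117 i707 a440 a418 a1676 i66 (k8 a662 i603 i346 i564 i308 i222 a1677 a211 (k8 i480 a757 a1681 i1556 i1352 i1288 a19 a1619 (k2 a466 a73 k0))))) (by decide +kernel)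
def a1683 : PP 8 4 T 0x2101000000000000000000000000000400000514004000000600000000084005020 := rS 0x15d551056b2e2e663094012893994c5ea952b05c90d5181c860b (k8 a1573 i41 i1302 a757 a81 a425 a408 a382 (k8 i572 i315 i564 a1047 a1013 i262 a1620 i1311 (k8 a1594 a350 i545 i1622 a466 i2027 a58 i497 k0))) (by decide +kernel)
def a1684 : PP 8 4 T 0x2101000000000000004000000000000400000004000000000600000000000005020 := rS 0x88c5cf892282b0124f3101e1a1e2980ce21b089ec904d3a92c02771090c2c0b (k8 a1573 a1673 i41 a1200 i711 i2 i966 a1117 (k8 i707 a440 a418 a1676 i66 a662 i24 i564 (k8 a1682 a81 i1302 a1683 i1350 i1349 a1681 a467 (k4 i1352 i1313 a19 a73 (k1 a466 k0))))) (by decide +kernel)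
def a1685 : PP 8 4 T 0x2000000000000040000000000010000000000000000000200000000000040000040 := rS 0x3b0d (k2 a65 i1229 (k1 a377 k0)) (by decide +kernel)
def a1686 : PP 8 4 T 0x400000000000012102000000000000500001000000004400050554000010500000000000000000000 := rS 0x150cc575c440c24f56aad2b14 (k8 a389 a14 a97 a420 a74 a397 a403 i2044 (k4 a58 a1575 i2037 i1619 k0)) (by decide +kernel)
def a1687 : PP 8 4 T 0x400000000000012102000000000040400000000000004400050514004000000200000000040004020 := rS 0xcab93395a2cb44ac50e61c298bd5259649855aab2881d420b (k8 a1573 i308 i519 a1685 a97 a420 a397 i611 (k8 i603 i572 i315 i564 a377 i718 a389 a14 (k4 a1686 a201 a1076 a350 (k2 a465 i1579 (k1 i2040 k0))))) (by decide +kernel)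
def a1688 : PP 8 4 T 0x2102000000000000500001000000014400050554000010500000000000000000000 := rS 0xae558819a2eb83093d5aab (k8 a97 a420 a74 a397 i2044 a465 a1575 a466 (k2 i1619 a58 (k1 i2037 k0))) (by decide +kernel)
def a1689 : PP 8 4 T 0x2102000000000000500000001000014400050554004010500000000000000000000 := rS 0x655c99cad165a1855aab (k8 a97 a420 a397 a1688 a201 a1076 a350 a465 (k2 i1579 i2040 k0)) (by decide +kernel)
def a1690 : PP 8 4 T 0x2102000000000000400000000000000400000514004000000600000000040005020 := rS 0x19a205a678aa50e70c289fd267d69d0d44a1298bd52596488486a5608c5c80956aac0e0b (k8 a1573 i519 a97 a420 a369 a425 a459 a408 (k8 a382 i41 a1200 i611 i603 i572 i315 i564 (k8 i308 i2027 a395 a99 i1594 i1634 a1066 a1685 (k8 a1687 a370 a1689 a14 i1674 i978 a120 a1574 (k1 i280 k0))))) (by decide +kernel)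
def a1691 : PP 8 4 T 0x400000000000000002000000000000080815000054100000000000000000000000400000000000015140 := rS 0x35b1d4e3d (k4 a335 a67 a1659 a1679 (k1 a132 k0)) (by decide +kernel)
def a1692 : PP 8 4 T 0x2100000000000000000002000000000000000000000014040000000000000000000 := rS 0xab11 (k2 a444 i767 (k1 a362 k0)) (by decide +kernel)
def a1693 : PP 8 4 T 0x2000000000000040000011000000004400050514000000000000001400020000000 := rS 0x2d8aa511273 (k4 i718 i1342 i2044 a14 (k2 i978 a120 k0)) (by decide +kernel)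
def a1694 : PP 8 4 T 0x2100000000000000004000000000000400000004004000000600000000040005020 := rS 0x2d8aa511273514303ab51195ca27f69ae46667499f59407508bc4a59649c436c53a9dc434f089ec904b009342c4352b0462e4049855e4f56aadf80b (k8 a1573 a1684 a97 a420 a74 a427 a397 a369 (k8 a425 a459 a408 a382 i41 a1673 i707 i2 (k8 i966 a440 a418 a1676 a1160 a1200 i711 a1117 (k8 a277 i66 a662 i611 i603 i346 i315 i308 (k8 i519 a1690 i1328 i1367 i545 a1574 a1575 a1691 (k8 a1066 a1685 i505 a1648 a1692 a1693 a377 i2030 (k4 a370 i280 i2044 a14 (k2 i978 a120 k0)))))))) (by decide +kernel)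
def a1695 : PP 8 4 T 0x1002100000000000000100000004080000000000000000000000400000500000000000 := rS 0x664a0c910d3 (k4 a99 a120 i280 i281 (k2 a1574 i1673 k0)) (by decide +kernel)
def a1696 : PP 8 4 T 0x2100000000000000004000000000000400000004000000000600000000040005020 := rS 0x2d44657289fda67d6528c5a070ec54c4a1298bc4a59649c4362162d3c227b2412c024d0b10d4ac1720255e4f56aadf80b (k8 a1573 a1684 a97 a420 a74 a427 a369 a425 (k8 a408 a382 i41 a1673 i707 i2 i966 a440 (k8 a418 a1676 a1160 a277 a1200 i66 a662 i611 (k8 i603 i346 i315 i564 i308 a1694 a51 a211 (k8 i480 i1237 a1695 i2027 i1328 a1691 a1066 a1685 (k4 i505 a1648 a1692 i2030 k0)))))) (by decide +kernel)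
def a1697 : PP 8 4 T 0x2100000000000000000000004080000000000000000010000400000000080000000 := rS 0x15c447e (k4 i241 i240 i1665 a1648 k0) (by decide +kernel)
def a1698 : PP 8 4 T 0x2002000000000000000000011000000004400050514000000000000000000000000000 := rS 0xe695 (k2 a14 a417 (k1 i2044 k0)) (by decide +kernel)
def a1699 : PP 8 4 T 0x400000000000000002000000000000000804000040100000000000000800000000001000000000010140 := rS 0xa2aed4cbd (k4 a1589 a1679 i1946 a410 (k1 a1579 k0)) (by decide +kernel)
def a1700 : PP 8 4 T 0x400000000000000002000000000000000015000054140000000000000000000000401000000000015140 := rS 0x1f5114ec635af5940b (k8 a1573 i2027 a1589 a1699 a132 i336 a1660 a384 (k1 a80 k0)) (by decide +kernel)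
def a1701 : PP 8 4 T 0x2100000000000000004000000000000400000004000000000600000000000005020 := rS 0xc7144ca24723f1e34d94a34b8b40f0d0e87956ad5798412fc60a969ee415a84762f54964227b2412c024d0b10d8a0b (k8 a1573 a277 i41 a1673 i707 i2 i966 a440 (k8 a418 a1676 i603 i572 i315 a435 i308 a371 (k8 a425 a1160 a382 a408 a1684 a369 a397 a427 (k8 a420 a97 a1696 i10 a81 i1302 i1303 a224 (k8 a1697 i2027 a1691 a1700 i20 i1877 i1346 i1786 (k2 a120 a51 (k1 a1405 k0))))))) (by decide +kernel)
def a1702 : PP 8 4 T 0x2100000000000000004000000000000400000004000000000200000000000005020 := rS 0x8bc446422231dcea212192c2c01 (k8 i2 a1673 i966 i41 a1200 a1117 i711 a1701 (k4 i224 i264 a9 a360 (k1 a466 k0))) (by decide +kernel)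
def a1703 : PP 8 4 T 0x2000000002000000005000000140014410000004000000000200000100100005020 := rS 0x66b98b246223162904563b178d4227b3a994ee5582120960126858860b (k8 a1573 i41 a1673 i707 i2 i966 a440 a1702 (k8 a72 i751 a63 i1010 a418 a1676 i354 i315 (k8 a435 a371 i22 a40 a459 a1347 a1041 a466 (k2 a1111 a360 (k1 i2033 k0))))) (by decide +kernel)
def a1704 : PP 8 4 T 0x2200000001000000014000000000000400000500000000000000000041100015020 := rS 0x328b0898c9d888ec8e6b (k8 a464 a451 a435 a1347 a179 a132 a107 a466 (k2 a1320 a360 k0)) (by decide +kernel)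
def a1705 : PP 8 4 T 0x2000000000000000005000000140014410010044000000000200000100100005020 := rS 0x1fd72915a89844c762394822b1d8946a710d844f647359d4ca772ac10904b009342c43 (k8 i41 a1673 i707 i2 i966 a440 a1702 a72 (k8 i751 a63 i1010 a464 a451 a418 a1676 i66 (k8 a662 i354 i346 a435 a371 i22 a1703 a1704 (k8 i141 a1290 a860 a725 i734 a1111 i2994 i2044 k0)))) (by decide +kernel)
def a1706 : PP 8 4 T 0x2002001000000000000005000008140000400000004004000000200000100000005020 := rS 0x1fd72515a8ccaee5102246a710d9d4ee552412c024d0b10d267d299cc5e9554996080b (k8 a1573 a1702 a63 i572 a1042 i315 a1047 i564 (k8 i1596 i1636 i41 a1673 i707 i2 i966 a440 (k8 a72 i751 i1010 i66 a662 i354 a337 a1705 (k8 a46 i1497 i1611 i728 i497 a1045 a1044 a1698 k0)))) (by decide +kernel)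
def a1707 : PP 8 4 T 0x2001000000000000004000000100000400000004004000000200000000000005160 := rS 0x5cad466e5101fd130c304552a73178d4e21b3a994ee552412c024d0b10c5a93549f554a323b05a4cb56c10a60b (k8 a1573 i564 a1702 a445 a385 a130 a44 a451 (k8 a757 i2027 i1596 i572 i1636 a329 i41 a1673 (k8 i707 i2 i966 a440 a72 i751 a63 i1010 (k8 i66 a662 i354 i315 a1047 a1042 a1706 a438 (k8 a389 i1277 a35 a1705 a46 i1611 i728 a1045 (k1 i2044 k0)))))) (by decide +kernel)
def a1708 : PP 8 4 T 0x2001000000000000004000000100000400000004000000000200000000000005160 := rS 0x2162b92203318c5d2866312a85635089ed96ad3a994ee552412c024d0b10d464782305a40b (k8 a1573 a130 a44 a1702 a451 a757 i41 a1673 (k8 i707 i2 i966 a440 a72 i751 a63 i1010 (k8 a445 a385 a418 a1676 i354 a371 i2027 a1707 (k8 i537 i538 a350 i1505 i1671 a466 a429 a40 (k2 a46 a1347 k0))))) (by decide +kernel)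
def a1709 : PP 8 4 T 0x2000000001000000004000000000000400000004000000000200000000500005020 := rS 0xc4208ac4a113d9d4ca772ac10904b009342c43 (k8 i41 a1673 i707 i2 i966 a440 a1702 a72 (k8 i751 a63 i1010 a418 a1676 i346 a371 i22 (k2 a1704 a1290 k0))) (by decide +kernel)
def a1710 : PP 8 4 T 0x2000000001000000000020000000000000000000000000000000014100000000000 := rS 0x6317 (k2 a465 i986 (k1 a429 k0)) (by decide +kernel)
def a1711 : PP 8 4 T 0x2201000000000000000011000000004400010514044004000200000000000000020 := rS 0xc314279421a7e4a9cca62f54994aa0b (k8 a1573 a72 a63 i572 i315 i564 a1047 a1042 (k4 i2044 a35 a1044 i759 (k2 a389 i1311 (k1 a948 k0)))) (by decide +kernel)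
def a1712 : PP 8 4 T 0x10402000000000000000004000000000000000005000400000000600100000200005020 := rS 0x188f0638dc4e90158047611 (k8 a1676 a435 i2 a371 a406 a700 i993 i1690 (k2 a419 a132 (k1 a49 k0))) (by decide +kernel)
def a1713 : PP 8 4 T 0x20002200000001000000104000000000000000000000040000000000014000000000000 := rS 0x631767275169f (k4 a33 a52 a347 a191 (k2 a192 i989 (k1 a429 k0))) (by decide +kernel)
def a1714 : PP 8 4 T 0x2001000000000000004000000000000400000004000000000200000000040005060 := rS 0x88a1625191ca6cc4b933ad59a332b88126233eb95483d0e8b5a4a754894b235649c4367b3c91cd675329dcab042412c024d0b10c120b (k8 a1573 i222 i41 a1673 i707 i2 i966 a440 (k8 a1702 a72 i751 a63 i1010 a464 a451 a353 (k8 a418 i66 a662 i611 i354 i603 i346 i572 (k8 a902 a130 a329 a341 a335 a1708 a382 i1326 (k8 i248 i1365 a1709 i1497 i1611 i730 i727 a722 (k8 a1710 a1711 a412 a1031 a1713 a1712 a77 a205 (k1 a143 k0))))))) (by decide +kernel)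
def a1715 : PP 8 4 T 0x20000000000000000000000000000000000000040000000002000000000008000a0 := rS 0xc41c5094c02710d934860b (k8 a1573 i41 i707 i66 a662 i2 i564 i308 (k2 i480 i519 (k1 a211 k0))) (by decide +kernel)
def a1716 : PP 8 4 T 0x2200000002000000004000000000000400000500000000000000000040100015020 := rS 0x8c8dd9e3333c598c9d888c58a3b649948e6b (k8 a464 a451 a63 i611 a435 a40 a459 a1347 (k8 a179 a132 a466 a350 a360 a368 a1598 a784 (k1 a1190 k0))) (by decide +kernel)
def a1717 : PP 8 4 T 0x2000000000000000004000000000000400000004000000000200000000100005020 := rS 0x2293b188b24509114f88988e5208ac76251ab24f2113d9d4ca772ac10904b009342c43 (k8 i41 a1673 i707 i2 i966 a440 a1702 a72 (k8 i751 a63 i1010 a418 a1676 a353 i611 i354 (k8 i346 a435 a371 i22 a1716 a1704 a1709 i1526 (k8 a9 i1575 a1041 a466 a1002 a399 a192 a52 k0)))) (by decide +kernel)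
def a1718 : PP 8 4 T 0x2202000000000040000011000000000000010414044004000200000000040000060 := rS 0xe7150e24e1a7e28a84a62f549849e0b (k8 a1573 a74 a397 i572 i315 i564 i308 a1685 (k4 a924 a35 i1637 a377 (k2 a948 i718 (k1 a389 k0)))) (by decide +kernel)
def a1719 : PP 8 4 T 0x2000000000000080400000014100000000000000000000000400000000000005140 := rS 0x28d820b (k4 a1573 a44 a99 i2027 k0) (by decide +kernel)
def a1720 : PP 8 4 T 0x2202000000000000000000000100000000000004000000000200000000240805020 := rS 0x86874fc6228b4d72b55094ce21b65ab48e072b99c66772a92096012690c6ae504aacfa0b (k8 a1573 i1502 a97 i222 a46 i354 i41 i707 (k8 i2 i966 a440 a72 i751 i1611 a722 i1497 (k8 a1715 a451 a445 a385 i66 a662 i564 i308 (k8 i728 a1045 a1719 a1685 a1718 a924 a211 a35 (k1 a377 k0))))) (by decide +kernel)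
def a1721 : PP 8 4 T 0x2202000000000040000001000200000000010000000004100200000000040000000 := rS 0x2187e0ea84a60b (k4 a1573 i564 i308 i1381 (k2 a924 a377 (k1 a35 k0))) (by decide +kernel)
def a1722 : PP 8 4 T 0x2202000000000040000000000200004400000110040004000200000400240000040 := rS 0x4545ab944c5838b428a84fa0b (k8 a1573 i1502 i308 a1685 a1721 i727 a201 i1342 (k4 a465 i1383 a853 a120 k0)) (by decide +kernel)
def a1723 : PP 8 4 T 0x1400000000000002202000000000001000401000000000001150000000014400000000000000000000 := rS 0x2de265c8821e1a8328154d6af (k8 a427 a464 a72 a924 a374 a65 a982 a403 (k4 a460 a205 i1930 a462 k0)) (by decide +kernel)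
def a1724 : PP 8 4 T 0x10002000000000000000004000000001000005005000400001000600000000200005020 := rS 0x3989b10b8c72c844aecd (k8 i730 i1497 a1676 i603 i1689 a460 a132 a5 (k2 i1879 a1712 k0)) (by decide +kernel)
def a1725 : PP 8 4 T 0x1000000000000012000001000000000000400000000000008100000000000000000000050010000000 := rS 0x990513 (k4 a69 a982 a127 i735 k0) (by decide +kernel)
def a1726 : PP 8 4 T 0x2000000000000000004000000000000400000004000000000200000000040005020 := rS 0x2de26832e21e1a7e428a503451f3c56a3d0eb494ebf49d0d487d57bf0122b298bcb2710d844f66b3a9940e576699c66772ac10904b009342c431ab94400b (k8 a1573 a1717 a46 i354 i41 a1673 i707 i2 (k8 i966 a440 a1702 a72 i751 i1611 a722 i730 (k8 i1497 a1715 a63 i1010 a464 a418 a1676 i66 (k8 a662 i603 i315 i564 a371 i222 a1714 a427 (k8 i1502 a1720 a129 i1365 i1452 i367 a1722 a341 (k8 a335 i727 a567 a384 a80 i1333 i256 i1504 (k8 a1723 a35 a1725 a460 i925 a5 i1930 a462 k0))))))) (by decide +kernel)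
def a1727 : PP 8 4 T 0x2001000000000000004000000100000400000004000000000200000000000005020 := rS 0x1267d31b041003549c436ad3a9940e5733ad446b916879ca33101dcab042412c024d0b10c6a0b (k8 a1573 i354 i41 a1673 i707 i2 i966 a440 (k8 a1702 a72 i751 a1717 i1611 a46 a1726 i1303 (k8 a1710 i11 i1396 a722 i1497 a1715 a63 i1010 (k8 a445 i66 a662 i572 i24 a1708 i1265 i1349 (k2 i1501 a1109 (k1 a1711 k0)))))) (by decide +kernel)
def a1728 : PP 8 4 T 0x2000000000000000004000000100000400000004000000000200000000000005020 := rS 0x2150e9d5f3122cbb63c44f8bd602ad5e097e0acf2113db2d5a47359d4ca078c99c66772a92096012685886e5823246aa3118803c0b (k8 a1573 a1726 a1717 i11 i240 i354 i611 a1702 (k8 a46 i41 a1673 i707 i2 i966 a440 a72 (k8 i751 i1611 a722 a1713 a1715 a63 i1010 a464 (k8 a451 a445 a385 a418 a1676 a353 a371 a1727 (k8 a369 a427 a97 i2027 i1252 i1305 a73 i3009 (k8 i2931 a466 a132 a391 a399 i1524 i2932 a1724 k0)))))) (by decide +kernel)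
def a1729 : PP 8 4 T 0x802200000000000001000000000000000000000000000014000000000000000000000 := rS 0x4450a55 (k4 a72 a77 a205 a143 k0) (by decide +kernel)
def a1730 : PP 8 4 T 0x2000000000000000004000000000000400000004000000000200000000000005020 := rS 0x441091714271e2c413b1c711352464cecd1995dca203b9d4d6552399608113c9ec904d258585643009646ac9 (k8 i611 i354 i603 i2 i41 a371 a1673 i966 (k8 i707 a440 a418 a353 a1676 a1702 a63 a451 (k8 a72 a464 i1010 i751 a1717 a46 i1497 i1611 (k8 i730 a722 a1713 a1728 a1729 a1712 i2182 i1875 (k8 a132 a49 i1879 a127 a399 i1841 a466 a361 k0))))) (by decide +kernel)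
def a1731 : PP 8 4 T 0x2001000000000000000000000000000000000008002000004200000000000400004 := rS 0x24940304f0d94e1a0b (k8 a1573 a357 i564 i269 i1272 a437 a467 i1006 (k1 i1312 k0)) (by decide +kernel)
def a1732 : PP 8 4 T 0x2101000002000000000000000100004000000008044000000600000000040004060 := rS 0x22e655c32d2a4e251806603178d59217448b582a369024620b (k8 a1573 a459 i222 a130 a99 a44 a329 i1317 (k8 i969 i611 i354 i315 i24 a1574 a1594 a1731 (k4 i1048 i2727 i2885 i2033 (k2 i1027 a465 (k1 a352 k0))))) (by decide +kernel)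
def a1733 : PP 8 4 T 0x2101000002000000000000000100000000000408004000000600000000040005060 := rS 0x130a018551849e1b56b2c96653314c070d0ba245aa369025260b (k8 a1573 i1322 i222 a130 a99 a329 i1317 i969 (k8 a357 i24 i564 a1732 i38 i490 i545 i1621 (k8 i269 i1272 a1731 a1663 a437 a467 i229 i2349 k0))) (by decide +kernel)
def a1734 : PP 8 4 T 0x2101000000000000004000000000000000000008008000000600000000000005160 := rS 0x415a4c (k4 i1320 i2859 a1681 i2347 k0) (by decide +kernel)
def a1735 : PP 8 4 T 0x2101000002000000000000000100000000000008044000000600000000040004060 := rS 0x248c009 (k4 i222 a1594 a1732 i1282 k0) (by decide +kernel)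
def a1736 : PP 8 4 T 0x2001000000000000000000008000000000000008080004400000000000000000000 := rS 0x27944970d (k4 a357 i489 i497 i1272 (k1 a467 k0)) (by decide +kernel)
def a1737 : PP 8 4 T 0x2101000000000000404000010100000000000808080000400400000000000005160 := rS 0x6b08928acaa60a8da40b (k8 a1573 a130 a99 a44 i2027 a1736 i1628 i2303 (k2 i2309 a1626 k0)) (by decide +kernel)
def a1738 : PP 8 4 T 0x2101000002000000004000000100000000000008000000000600000000040005060 := rS 0x9c4a4918158cb331d8c653018242e0b (k8 a1573 i969 i222 i24 i564 a1734 a1733 a1735 (k4 i545 a1737 i1622 i1621 (k2 a1731 i1048 (k1 i2834 k0)))) (by decide +kernel)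
def a1739 : PP 8 4 T 0x2000000000000000000000000000000000000000000000000a00000000000400020 := rS 0x321b (k2 i2149 i2106 (k1 a437 k0)) (by decide +kernel)
def a1740 : PP 8 4 T 0x2101000000000000004000000100000000000008000000000200000000040005060 := rS 0x3908e17 (k4 i969 a1739 a425 a1738 k0) (by decide +kernel)
def a1741 : PP 8 4 T 0x2101000000000000004000000000000000000008000000000600000000080005160 := rS 0x8a98510490d0642e4d1698ca0d22094d520b (k8 a1573 i572 i564 i22 a130 a1620 a1734 a329 (k8 i527 i968 i229 a437 i747 i270 i1312 a337 (k1 a438 k0))) (by decide +kernel)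
def a1742 : PP 8 4 T 0x2000000000000000000000000000000000000008000000000200000000000000220 := rS 0x1104e (k2 i223 i262 (k1 i2833 k0)) (by decide +kernel)
def a1743 : PP 8 4 T 0x2101000000000000004000000100000000000008000000000200000000000005060 := rS 0x585a4669078120b (k8 a1573 a1742 a1740 a130 a1741 a329 a1739 i968 k0) (by decide +kernel)
def a1744 : PP 8 4 T 0x2002000000000000000000000001000140000000000005000000006400000000010000 := rS 0x38 (k2 a1405 i1877 k0) (by decide +kernel)
def a1745 : PP 8 4 T 0x2002000000000000000000000000000100000000000005000000006000000000010020 := rS 0x4b8ed520b (k4 a1573 i572 a435 a24 (k1 a1744 k0)) (by decide +kernel)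
def a1746 : PP 8 4 T 0x2000000000000000000000040000140000000000005000000006000000000010160 := rS 0x6f191caa54e0b (k4 a1573 i94 i572 i1877 (k2 a260 a1266 (k1 a222 k0))) (by decide +kernel)
def a1747 : PP 8 4 T 0x2000000000000000000000040000000000000008005000000002000000020010160 := rS 0x14a00f4961fa64302c (k8 i1231 i1232 i2716 i2907 a1746 i1324 i1323 i3094 (k1 i1236 k0)) (by decide +kernel)
def a1748 : PP 8 4 T 0x2100000000000040004000000100000000000408044000000200000000040005060 := rS 0x6b4b8f5954f2b9542299260b0303f3e870fe515094cb30d0488486af27ab556332385d6ab930bf1920b (k8 a1573 i611 a1743 a397 a1575 i1399 i969 a1739 (k8 a1574 a97 a420 a74 a427 i41 a1200 a1742 (k8 a357 i603 i564 i308 a1685 a1066 a377 a1118 (k8 i2907 i1232 i1231 i229 i2716 i2347 i791 i529 (k4 a1160 i2037 a1747 i1243 (k2 a1699 a1600 k0)))))) (by decide +kernel)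
def a1749 : PP 8 4 T 0x2100000000000000004000000100000000000408044000000200000000040005060 := rS 0x53c224a2a444e8574a329463d16b49262f2c8d412c557ab55689608c5c8332385d6ab930bf1920b (k8 a1573 i611 a1743 a397 a1575 i1399 i969 a1739 (k8 a1574 a425 a459 a408 i1317 a97 a420 a427 (k8 a277 a1742 i354 i603 i315 i1322 a1748 a329 (k8 a335 a99 a1719 i2033 i506 i1057 a453 a362 (k4 i1540 i2303 a1160 a1700 k0))))) (by decide +kernel)
def a1750 : PP 8 4 T 0x400000000000004002000000000000004015000054101010000000008005000000400004200002015160 := rS 0x17e9e63d0e3237a2a897a97530f47e990e0ed520b (k8 a1573 i572 a435 i1040 i2716 i2907 a1747 a384 (k8 i1243 a1589 a1700 a410 i1916 a260 a395 a1190 (k2 a463 i1719 (k1 a856 k0)))) (by decide +kernel)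
def a1751 : PP 8 4 T 0x2100000000000000004000000100000000000008044000000200000000040005060 := rS 0xd2510745b4f08861264c679912b173b2e4669d508bc6ac938c3412c530abd5aab7e22582317211c2e0b (k8 a1573 i969 a1739 a425 a459 a408 i1317 a1743 (k8 a97 a420 a427 a397 a277 a1742 a357 i57 (k8 i611 i354 i315 i308 a544 a1574 a1575 a1749 (k8 a332 i1676 a352 a454 i1548 i1550 i526 i2347 (k4 a1160 a1750 i1231 i2033 (k2 a377 a99 k0)))))) (by decide +kernel)
def a1752 : PP 8 4 T 0x2100000000000000004000000100000000000008004000000200000000040005060 := rS 0x5dafcd4c7780e4f0825b89e3237a2af50297530f69e114c93058181f86c3851a1b4d44cb33284a63b549c61a09629855e4f56aadf8c17211c2e0b (k8 a1573 i969 a1739 a425 a408 a1743 a97 a420 (k8 a74 a427 a397 a277 a1742 a357 i57 i572 (k8 a435 i564 i308 a1751 i545 i2027 a1719 a395 (k8 a1685 a377 i781 i2907 i1232 i1231 i229 i2716 (k8 i2347 a1160 a1747 a384 i1243 i1235 a1589 a410 (k8 i1916 a260 a1276 i721 a196 i1440 i1852 a419 (k4 a27 a198 i1719 i1946 (k1 a404 k0)))))))) (by decide +kernel)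
def a1753 : PP 8 4 T 0x2100000000000000004000000100000000000008000000000200000000040005060 := rS 0x53d8cd2089ac5a1d26454c4c17211c2ea1868258aaf56aadf80b (k8 a1573 a1743 a97 a420 a427 a277 a1742 a357 (k8 i308 i969 a1739 a425 a408 a1752 a51 i1320 (k8 i2825 i1237 a1650 i2347 a377 a132 a1160 a1659 k0))) (by decide +kernel)
def a1754 : PP 8 4 T 0x2100000000000000005000054140000000000008005000000400000100000015160 := rS 0x45512991fb4c794f17b15940b (k8 a1573 i2027 a277 i315 a1160 a1700 a1691 i20 (k4 i1786 i2857 a1745 a120 k0)) (by decide +kernel)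
def a1755 : PP 8 4 T 0x2000000000000000000000000000000000000000000000000200000000000020020 := rS 0x1e8965c (k4 i483 i2303 a1676 i1892 k0) (by decide +kernel)
def a1756 : PP 8 4 T 0x2100000000000000004000000100000000000008000000000600000000000005060 := rS 0x2286216860984b0da25a63c6553d462f0896412c557ab5561d60878424324985f80b (k8 a1573 a1743 a397 i1008 i41 a1200 a1753 i1306 (k8 i10 a97 a420 a427 a277 a1742 i603 a1755 (k8 i315 a1697 a1160 i2027 a1700 a1691 i2857 i270 (k4 i486 a440 i526 i1040 (k2 a1754 a120 (k1 a51 k0)))))) (by decide +kernel)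
def a1757 : PP 8 4 T 0x2100000000000000004000000100000000000008000000000200000000000005060 := rS 0x2692c321b23124c2fc (k8 a1743 a397 i1008 a1756 i2149 i2106 i486 i526 (k1 a440 k0)) (by decide +kernel)
def a1758 : PP 8 4 T 0x20000000000000000000000000000000000000080000000002000000000000000a0 := rS 0xc41c (k2 i480 i519 (k1 i2825 k0)) (by decide +kernel)
def a1759 : PP 8 4 T 0x2100000000000000004000000000000000000008000000000200000000000005020 := rS 0x4772a901207 (k4 a1758 a1742 a1757 a382 (k2 i208 a425 k0)) (by decide +kernel)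
def a1760 : PP 8 4 T 0x2201000000000000000000008000000000000008005000000200000000000001020 := rS 0x43116689e26872b20cb881a29415c4f2090ca611868240e6b4baa57e0b (k8 a1573 a367 i572 a989 a464 a1758 a1742 a357 (k8 a1755 i564 i41 i22 i1271 a1605 a467 a381 (k8 i1862 i499 a374 i497 a982 a5 i1765 i1970 (k2 a58 i1497 (k1 a1037 k0))))) (by decide +kernel)
def a1761 : PP 8 4 T 0x2001000000000000004000000100000000000008004000000200000000000405020 := rS 0x2883e5eaed5f4f63314421a2518286bf550f546d253904560308894b20903b2d5a472a9ae080b (k8 a1573 a1759 a464 a72 a451 a445 a385 a1758 (k8 a1742 i603 i346 a1755 i24 a371 i22 a902 (k8 a130 a757 a335 a1719 a367 a106 a1760 a1731 (k8 i486 a1339 a1606 a132 a59 a1607 i1679 a1589 (k2 a384 a404 (k1 a80 k0)))))) (by decide +kernel)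
def a1762 : PP 8 4 T 0x2200002000000000004000000000000000000000000000000000000000000005000 := rS 0xc5 (k2 a49 a199 k0) (by decide +kernel)
def a1763 : PP 8 4 T 0x2000000000000000004000000100000000000008004000000200000000040005020 := rS 0x823cadc7027a28de32a640a5d323d160607e1b0e145a6ab27abcc2fc0ba84a63b54844e30d0481d96ad23bc6080b (k8 a1573 a1759 a1762 a451 a445 a385 a1758 a1742 (k8 a357 i57 a1755 i572 a435 i564 i308 i969 (k8 a1761 a397 a427 a74 a97 a1719 a1685 a377 (k8 i781 i2907 i1232 i1231 a1747 i2716 i1243 i1235 (k8 a384 a260 a1266 a410 a1276 a419 i721 i1852 (k2 a196 i1440 k0)))))) (by decide +kernel)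
def a1764 : PP 8 4 T 0x2001000000000000004000000100000000000008004000000200000000000005020 := rS 0x5a16690240e0b (k4 a1573 a1758 a1742 a130 (k2 a1761 a329 (k1 i968 k0))) (by decide +kernel)
def a1765 : PP 8 4 T 0x2000000000000000000000000000000000080000000000000000000000808000000 := rS 0xe832 (k2 i272 i273 (k1 i2998 k0)) (by decide +kernel)
def a1766 : PP 8 4 T 0x2200000000000040014000040000000000000008005000000000000100004415020 := rS 0x1140c2245e0b (k4 a1573 i315 i1318 a437 (k2 a120 a1665 k0)) (by decide +kernel)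
def a1767 : PP 8 4 T 0x2200000000000000014000044100000000000008005010000000000040080415160 := rS 0x9a1ca5e8aa21f265823d8a9e442880c8694f4f630ed525535bc5a6cb23ab45a0b (k8 a1573 i1304 a445 a451 a385 a1719 a1762 a464 (k8 a72 i572 a435 a132 a59 i2121 a1766 i67 (k8 i270 a1339 a1593 a337 i2857 i1306 i1059 a384 (k4 a1700 a80 i1372 i2180 (k2 a162 a828 k0))))) (by decide +kernel)
def a1768 : PP 8 4 T 0x2000000000000000404000014140000000000000415011000400000040080415160 := rS 0x34200cb005a0b (k4 a1573 i1304 i2027 a1667 (k2 i1306 a437 (k1 a1339 k0))) (by decide +kernel)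
def a1769 : PP 8 4 T 0x2200000000000000004000044100000000000008005010000000000040080415160 := rS 0x447e5131196655691caa6b (k8 a464 a72 a451 a445 a63 a385 a1767 a1768 (k2 i241 i240 (k1 i2994 k0))) (by decide +kernel)
def a1770 : PP 8 4 T 0x2000000000000000004000000100000000000008004000000200000000000005020 := rS 0x4d2585892ab57985f81e1590c02112c8240f04 (k8 a1759 a1758 a1742 i603 a1755 i2 i41 a371 (k8 a1763 a1764 a397 a427 a97 i1008 a1769 i966 (k2 i707 a440 k0))) (by decide +kernel)
def a1771 : PP 8 4 T 0x2000000000000000004000000100000000000008000000000200000000000005020 := rS 0x34d12ab0d8b4a04c25c54c42f388240ecb5691e080b (k8 a1573 a1759 a451 a445 a385 a1758 a1742 i57 (k8 i315 a1770 a51 i488 i1320 i1319 i1237 i269 (k4 i2349 i1318 a1719 a120 k0))) (by decide +kernel)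
def a1772 : PP 8 4 T 0x2000000000000000004000000000000000000008000000000200000000040005020 := rS 0x10681a2a19783e6331498186686c40b55c99c5a336908d121715a8422252c8d61a472a9ae08e55f875480b (k8 a1573 a1771 i2878 i1452 a382 a1759 a464 a72 (k8 a451 a357 i354 i603 i346 a1755 i308 a371 (k8 i969 i1317 i248 a377 i288 a329 a722 a1710 (k8 i1399 a1634 a1339 i730 a437 i229 a1635 a132 (k4 i414 i415 i1689 a80 (k2 i1333 i2903 (k1 a982 k0))))))) (by decide +kernel)
def a1773 : PP 8 4 T 0x2001000000000000004000000000000000000008004000000200000000000005020 := rS 0xd08032230b9356a2d2834856530896412076591caa6b822903c0b (k8 a1573 a1772 a1771 a1759 a464 a72 a451 a385 (k8 a1758 a1742 i603 a1755 i564 a371 a130 a1620 (k8 a329 i1397 i527 i968 i249 i229 a1634 a437 (k1 a1339 k0)))) (by decide +kernel)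
def a1774 : PP 8 4 T 0x2200000000000000004000000200000000000000000000000200000000088015000 := rS 0x5a884462b2c91caa6b (k8 a464 a72 a451 i603 a371 i2154 a1339 i1396 (k1 a1634 k0)) (by decide +kernel)
def a1775 : PP 8 4 T 0x2000000000000000004000000000000000000008004000000200000000000005020 := rS 0x318e8c566a5040b9118b56a182612556617e0ad522564b2ccaad239ad261d2599c66890d87a08111ab95480b (k8 a1573 a1771 a382 i354 a1755 a1759 a1772 a1774 (k8 i1318 i288 a722 i486 i2878 i1365 a464 a451 (k8 a445 a63 a385 i611 i346 i572 a371 a1773 (k8 a397 a97 i1008 a440 i526 a822 i1040 i249 (k8 a1710 a1634 i2040 i730 a1635 i1057 a132 i3008 k0))))) (by decide +kernel)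
def a1776 : PP 8 4 T 0x2000000000000000004000000000000400000000000000000200000000000005020 := rS 0x10ec614a068ac5668f8403d5788c3083691416a4c4dc545a62338cd121b0f29c3abf72a91e26b23c100e09869b8562f088946a0b (k8 a1573 i354 i346 a1755 i315 a371 a1730 a357 (k8 a1742 a1758 a1759 a451 a464 a1762 a1771 a382 (k8 i1452 i2878 i367 a1772 a1774 i1318 i288 a722 (k8 a1775 i2844 a51 a412 i1320 i2894 i1319 a120 (k8 i1439 i526 i249 i2350 a335 a1634 a384 i730 (k4 a1635 a80 i1333 i257 (k2 a132 a1725 (k1 i1689 k0)))))))) (by decide +kernel)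
def a1777 : PP 8 4 T 0x400000000000000002001000000000000400040010100000000000000400000000404000000000015140 := rS 0x17b45a1afd5caa1eb494e0b (k8 a1573 a902 a130 a335 a1719 a384 a367 a106 (k2 a381 i1986 (k1 a404 k0))) (by decide +kernel)
def a1778 : PP 8 4 T 0x202202000000000000000000000000000000040000000000500000000000000000000 := rS 0x2d4fa57 (k4 a58 a73 a444 a924 k0) (by decide +kernel)
def a1779 : PP 8 4 T 0x2202000000000040008000000000000000000000000000100200000001048001000 := rS 0x2d4fa5710444467f5094dca0b (k8 a1573 a468 i564 i308 a897 i2155 a1778 a107 (k4 i1497 i1502 i2539 a924 k0)) (by decide +kernel)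
def a1780 : PP 8 4 T 0x2002000000000040000000000100000400000004000000100200000000041005020 := rS 0x668b24622273f9dcea7b109202c4d2090d42531d8453a3532954961b823084a0b (k8 a1573 i346 a1776 a276 a1779 i486 a72 a63 (k8 i354 i1906 a1755 a435 i564 i308 i41 i22 (k8 i526 a437 a440 a1720 a418 i1010 i751 a1066 (k4 i1955 a1778 a1039 a466 (k2 a1366 a350 k0))))) (by decide +kernel)
def a1781 : PP 8 4 T 0x2000000000000000000000000100000400000004004000000200000000040005160 := rS 0x128938a0cd124c16860a2a1548d592e532985a6ab7e2ec7e6ba7845964756c11840b (k8 a1573 a1776 a276 a445 a354 a385 a1755 a13 (k8 a464 i375 i1945 a1777 a97 a1719 a397 a63 (k8 a468 i611 i354 i572 i308 a1685 a1780 i1039 (k4 i229 i230 i2112 a658 (k2 a1020 a1295 (k1 a14 k0)))))) (by decide +kernel)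
def a1782 : PP 8 4 T 0x2000000000000000000000000100000400000004004000000200000000000005160 := rS 0x45e22753ba48f820198583288600b436a30f2acc2fc0891e9ecb32ab4d7041faed840b (k8 a1573 a1776 i1945 i375 a276 a464 a445 a63 (k8 a385 a13 a354 a1755 a1777 a397 a97 a1781 (k8 i2119 i271 i1303 i2027 a1663 a1667 a437 i1614 (k8 i1306 i1305 i1344 i712 i1500 a73 a19 a466 k0)))) (by decide +kernel)
def a1783 : PP 8 4 T 0x2000000000000000000000000100000400000004004000000200000000000005060 := rS 0x38c34e6604406c3cfd040bd520b (k8 a1573 i572 i315 a1782 a369 i222 i2148 i262 (k4 i263 a1047 a81 i2838 (k1 a1013 k0))) (by decide +kernel)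
def a1784 : PP 8 4 T 0x2000000000000000000000000100000400000004000000000200000000040005060 := rS 0xc945428869aadf8bb1f9ae9e110480d964756c118515169885e0b (k8 a1573 i315 a1783 i1237 a51 a1776 a276 a445 (k8 a354 a385 i24 i1349 a1755 a13 a464 i375 (k8 i1945 a1777 a97 a1719 a120 i308 a1685 i230 (k1 a1780 k0)))) (by decide +kernel)
def a1785 : PP 8 4 T 0x2000000000000000000000000100000400000004000000000200000000000005060 := rS 0x889d4ee193e080361e8ba4866c051a21a6ab7e0b413153100c5e111a91e9ee565ab4d7041faed840b (k8 a1573 a1776 i1945 i375 a276 a464 a445 a385 (k8 a468 a13 a354 i354 a1755 i315 i24 a1783 (k8 a51 i1349 i1237 a1777 a97 a1719 a120 i2163 (k8 i2027 i1614 i1344 a19 a1784 i271 i1306 i1305 (k4 a1671 a877 i1500 a73 (k1 a466 k0)))))) (by decide +kernel)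
def a1786 : PP 8 4 T 0x20000000000000000000000000000000000000040000000002000000000000000a0 := rS 0x1c09662280705e0b (k8 a1573 i315 i480 i479 i519 i2301 a210 i1359 k0) (by decide +kernel)
def a1787 : PP 8 4 T 0x2001000001000000500000015200000000000000015000000000010100000001000 := rS 0x2e4ce3344c512695 (k8 a1042 i1365 a438 a337 i288 a722 a1710 i2040 k0) (by decide +kernel)
def a1788 : PP 8 4 T 0x2000000001000000000002000000000000000000000000000000000001410000000 := rS 0x4311 (k2 a444 i727 (k1 a107 k0)) (by decide +kernel)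
def a1789 : PP 8 4 T 0x2000000000000000000011000000014400050444000000000200000000405000020 := rS 0x3a9c42c4d (k4 i526 a437 a662 i971 (k1 i2044 k0)) (by decide +kernel)
def a1790 : PP 8 4 T 0x400000000000000002000000000000000000040000600000000000000400000000005000000000010140 := rS 0x17b45572fe860b (k4 a1573 a129 i1451 a384 (k2 a381 i1986 (k1 a404 k0))) (by decide +kernel)
def a1791 : PP 8 4 T 0x400000000000002201000001000000100001004001004400010004044010000208014000400000120 := rS 0x11867c562c702715c98183ba6cfe1b1c9449689301cd2a994b94c762f54b2ccaad2abc68ab916b480e0b (k8 a1573 a1786 a130 a329 a1710 a80 a6 a72 (k8 a445 a63 a385 i572 i315 a435 i564 a989 (k8 a837 a1042 a1047 i2040 i1277 i1047 i1311 i296 (k8 i269 a1044 a828 a877 a1789 i229 i529 i2037 (k4 i789 a756 a117 a368 (k2 a422 a784 k0)))))) (by decide +kernel)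
def a1792 : PP 8 4 T 0x2200001000000000000000000200000001000000000000000000000051108010000 := rS 0x110 (k2 a1609 a1340 k0) (by decide +kernel)
def a1793 : PP 8 4 T 0x2200001000000000008000000200000000000000000010000000000051008011000 := rS 0x226276695c4085 (k4 i1867 a1792 i1497 i2540 (k2 i1954 a1729 (k1 a127 k0))) (by decide +kernel)
def a1794 : PP 8 4 T 0x2200001000000000000001000200000001000000000000000000000051100010000 := rS 0x110 (k2 a164 a1340 k0) (by decide +kernel)
def a1795 : PP 8 4 T 0x400000000000112200000000000000000801000001400400011500040000000000000000000800000 := rS 0x24632865b33cfd16 (k8 a466 a403 a368 i1724 i1723 a784 i855 a1001 k0) (by decide +kernel)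
def a1796 : PP 8 4 T 0x202200001000000000008000000000000000000000000000000000000050000000000 := rS 0x9e26cd (k4 a380 a205 i1954 a127 k0) (by decide +kernel)
def a1797 : PP 8 4 T 0x400000000000102201000000000000000801000001000400010400048014000200000010205000020 := rS 0x142184f3c9c4ea162694d96ad2aaad360b (k8 a1573 a412 a367 a72 a445 a385 i564 i526 (k8 a437 i1500 a662 i973 i1350 a1795 a1301 a65 k0)) (by decide +kernel)
def a1798 : PP 8 4 T 0x2001000000000000000000000000000400000004000000000200000000040005120 := rS 0xa24f2612431112b880ee1b312acce295f0cde23e5a87576d2538aca60308965934f72a750acb56954d704a19f44a931a8f58ac211a900e0b (k8 a1573 a1786 a1785 i248 a1776 i116 i1386 i354 (k8 i1365 i346 i1326 a129 a276 a464 a72 a445 (k8 a385 i1867 i1906 a468 a13 i611 i603 a1755 (k8 i24 i564 a371 a902 a130 i1944 a341 a1788 (k8 a1790 a6 i2175 i376 i256 a722 a367 a1791 (k8 a1793 a877 a1794 i1497 a1796 a1797 i1006 i229 (k2 i1351 i528 (k1 a1301 k0)))))))) (by decide +kernel)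
def a1799 : PP 8 4 T 0x2202000000000040008000000000000000000000000000000200000001048001040 := rS 0x145420b (k4 a1573 i308 a1685 a1779 k0) (by decide +kernel)
def a1800 : PP 8 4 T 0x2202000001000040000000000000000000000000000000100200000001540000000 := rS 0x1103fa84a60b (k4 a1573 i564 i308 a1066 (k2 a107 a1778 k0)) (by decide +kernel)
def a1801 : PP 8 4 T 0x2200000000000000008002000a00000001000000000014000000000000200000000 := rS 0x8789b344eba5ed3d4711 (k8 a444 i115 a13 i1985 i368 i3116 i729 a1729 (k2 i934 a436 k0)) (by decide +kernel)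
def a1802 : PP 8 4 T 0x2202000000000040008000000200000000000000000010000200000001040011140 := rS 0x3e13a9c38b42b880a2a172a14fa3d6288d5e0b (k8 a1573 a427 i248 i116 i1386 i1326 i1867 a468 (k8 i308 a1685 a1800 i1497 a1721 i727 a1801 a725 (k2 a384 i1422 k0))) (by decide +kernel)
def a1803 : PP 8 4 T 0x2200001000000000008900000401020000000000040000000000400000000000000 := rS 0x1191b8e59e98 (k4 i1726 i1105 i1936 i1956 (k2 a784 a419 k0)) (by decide +kernel)
def a1804 : PP 8 4 T 0x2000000000000000000000000000000400000004000000000200000000040005120 := rS 0x23237678e62c624ac5572675eaf866971f3c54e2d692ad5e617e00476a908894b2c963b953acb32ab60943498d47aa403b15840b (k8 a1573 a1776 i116 a1786 a1785 i1386 i354 i1365 (k8 a129 a276 a445 a63 a385 i1906 a468 i142 (k8 i611 i603 i346 a1755 i572 a435 i2 a1798 (k8 a397 a427 a97 a1802 a329 a67 a567 a384 (k8 i1372 i2175 i376 i1412 a722 a1710 a853 a1803 (k4 i2040 a447 a226 a368 (k2 i1956 a784 (k1 a419 k0)))))))) (by decide +kernel)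
def a1805 : PP 8 4 T 0x2000000000000000000000000090000000040000000000800000000000000000000 := rS 0xb (k2 a1573 a562 k0) (by decide +kernel)
def a1806 : PP 8 4 T 0x1002000000000000040000000000000000000000000000000020200000100040000000 := rS 0xb (k2 a1573 a658 k0) (by decide +kernel)
def a1807 : PP 8 4 T 0x2001000000000040000000000000000000000000000000000000000000000000140 := rS 0xb (k2 a1573 a130 k0) (by decide +kernel)
def a1808 : PP 8 4 T 0x12000000000000000401000010110000000040000000000540400000000050005000 := rS 0xb (k2 a1573 a745 k0) (by decide +kernel)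
def a1809 : PP 8 4 T 0x2000000000000040001000020000000010000000080000000000000000000000000 := rS 0xb (k2 a1573 a194 k0) (by decide +kernel)
def a1810 : PP 8 4 T 0x2000000000000000000000040400501010005000000000000205140540000000140 := rS 0xb (k2 a1573 a665 k0) (by decide +kernel)
def a1811 : PP 8 4 T 0x2000000000000000000000040400000000000000000000000005000000000010140 := rS 0xb (k2 a1573 a384 k0) (by decide +kernel)
def a1812 : PP 8 4 T 0x12200000002000000000000000010000000000000000000540000000000050000000 := rS 0xb (k2 a1573 a200 k0) (by decide +kernel)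
def a1813 : PP 8 4 T 0x12000000000000000000000001010080000000000000000002000000540010000160 := rS 0xb (k2 a1573 a224 k0) (by decide +kernel)
def a1814 : PP 8 4 T 0x2101000000000000400010014000014400050544000000000000000000000808040 := rS 0xb (k2 a1573 a477 k0) (by decide +kernel)
def a1815 : PP 8 4 T 0x2000000000000000002000008000000000000000000000000000000000000000000 := rS 0xb (k2 a1573 i1514 k0) (by decide +kernel)
def a1816 : PP 8 4 T 0x2000000000000000000000000000000000000000000000800200000000000000000 := rS 0xb (k2 a1573 i564 k0) (by decide +kernel)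
def a1817 : PP 8 4 T 0x2000000000000000000000008000000000000000000000000000000000000008000 := rS 0xb (k2 a1573 i579 k0) (by decide +kernel)
def a1818 : PP 8 4 T 0x2001002000000000000000040000000000000000000000000000000000000000140 := rS 0xb (k2 a1573 a556 k0) (by decide +kernel)
def a1819 : PP 8 4 T 0x2000000000000000000000000000000000090000000000800000000000800000100 := rS 0xb (k2 a1573 a554 k0) (by decide +kernel)
def a1820 : PP 8 4 T 0x2000000000000000000000000000000000000000000000800000000000020000000 := rS 0xb (k2 a1573 i716 k0) (by decide +kernel)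
def a1821 : PP 8 4 T 0x2000000000000000000000000020000000000000000000080000000000000000000 := rS 0xb (k2 a1573 i756 k0) (by decide +kernel)
def a1822 : PP 8 4 T 0x2000000000000000000000020080000000000000000000000000000000000000000 := rS 0xb (k2 a1573 i1554 k0) (by decide +kernel)
def a1823 : PP 8 4 T 0x2000000000000000000000000080000000000000000000000000000000000008000 := rS 0xb (k2 a1573 i322 k0) (by decide +kernel)
def a1824 : PP 8 4 T 0x2001000000000000000000000080000000000000000000000400000000000000040 := rS 0xb (k2 a1573 a757 k0) (by decide +kernel)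
def a1825 : PP 8 4 T 0x2001000000000000000000000800000000000000000000000000000000000000040 := rS 0xb (k2 a1573 a902 k0) (by decide +kernel)
def a1826 : PP 8 4 T 0x2001000000000000808000080000000000000000000000000000000000000000040 := rS 0xb (k2 a1573 a475 k0) (by decide +kernel)
def a1827 : PP 8 4 T 0x2000000000000000000000080000000000000000000000000002000000000000000 := rS 0xb (k2 a1573 i1782 k0) (by decide +kernel)
def a1828 : PP 8 4 T 0x2000000000000000000000002000000000000000000000000000000200000000000 := rS 0xb (k2 a1573 i975 k0) (by decide +kernel)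
def a1829 : PP 8 4 T 0x2000000000000000000000000000000000000000000000000000000800000000020 := rS 0xb (k2 a1573 i315 k0) (by decide +kernel)
def a1830 : PP 8 4 T 0x2000000000000000000000000000000000000000002000000000000800000000000 := rS 0xb (k2 a1573 i1015 k0) (by decide +kernel)
def a1831 : PP 8 4 T 0x2000000000000000000000000400040000000000008000000000200000000000141 := rS 0xb (k2 a1573 a226 k0) (by decide +kernel)
def a1832 : PP 8 4 T 0x2000000000000000000000002000000000000000000000000000000000000000020 := rS 0xb (k2 a1573 i572 k0) (by decide +kernel)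
def a1833 : PP 8 4 T 0x2000000000000000000000000020000000000000000000000200000000000000000 := rS 0xb (k2 a1573 i308 k0) (by decide +kernel)
def a1834 : PP 8 4 T 0x2000000000000000401000014140000000000000000000000400000000000005140 := rS 0xb (k2 a1573 i2027 k0) (by decide +kernel)
def a1835 : PP 8 4 T 0x12200000000000000001000004110000000040000000000000000000000050001100 := rS 0xb (k2 a1573 a743 k0) (by decide +kernel)
def a1836 : PP 8 4 T 0x400000000000202201000001000000001000000040001000400180008104000000014040000800160 := rS 0xb (k2 a1573 a1029 k0) (by decide +kernel)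
def a1837 : PP 8 4 T 0x2000000000000000000000001400400000000000008000000001200000000000141 := rS 0xb (k2 a1573 a1031 k0) (by decide +kernel)
def a1838 : PP 8 4 T 0x2001000000000000000000000000000400000004000000000200000000000005120 := rS 0x268c5115599cee753c85852be19bc490191f2d4c24d41aeca0a71594d521164d3dca9d1ab2ccaad2a9ae09433e8947aa403b15850d1692c361e (k8 a1804 i271 i486 i1303 a81 a1776 i116 a1786 (k8 a1785 i1386 i346 i1326 a129 a276 a464 a72 (k8 a445 a63 a385 i354 i1906 a468 a13 i611 (k8 a1755 a1832 a1816 a371 a1825 a1620 i1944 a374 (k8 i528 i1311 i1397 a1790 i229 a440 a6 i2175 (k8 i376 i257 a437 a353 i1010 i751 a722 a367 (k4 a1796 a1787 a1795 a412 k0))))))) (by decide +kernel)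
def a1839 : PP 8 4 T 0x2000000000000000008000040200000000000000400011000004000001080010140 := rS 0xaccd899750e235d0a16c83532147ac5 (k8 i116 i1386 i1867 a1811 i1435 i243 i242 i368 (k4 i2128 i1684 i1930 a54 (k2 i1969 a460 (k1 a1034 k0)))) (by decide +kernel)
def a1840 : PP 8 4 T 0x2000000000000000000000000000000400000004000000000200000000000005120 := rS 0x1191bb3c7316314552ab933af57c334ba9de23e55abcc2fc16878023b548444a5964b1dca9d659955a5535c11854349a900e35 (k8 i354 a1786 a1785 i1365 a129 a1776 a276 a464 (k8 a72 a445 a63 a385 i1906 a468 i142 i611 (k8 i603 i346 a1755 a1832 a435 i2 a1804 i1303 (k8 a1838 a397 a427 a97 a1839 a6 i140 i1372 (k8 i2175 i376 i1412 a722 a1710 a1803 a853 i2040 (k4 a447 a1831 a368 i1956 (k2 a784 a419 k0))))))) (by decide +kernel)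
def a1841 : PP 8 4 T 0x2000000000000000000000000000000400000004000000000200000000000005020 := rS 0xe31539c34c0882707810a9 (k8 a1832 a1840 i222 i223 i262 i263 a81 i758 (k2 a337 i2838 (k1 a389 k0))) (by decide +kernel)
def a1842 : PP 8 4 T 0x2202000000000040108000001100000000000008000000000200010001040001040 := rS 0x126951998c58180d871121750b95966556c34c2ab (k8 a97 a397 a357 a445 a63 a385 a468 a1833 (k8 i969 i1317 a377 a1799 a437 i1231 i2825 i2112 (k2 i2715 a1020 (k1 a1295 k0)))) (by decide +kernel)
def a1843 : PP 8 4 T 0x2000000000000000000000040000000000000008000000000004000000088010140 := rS 0xf54e88 (k4 i270 i2152 i2857 a1811 k0) (by decide +kernel)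
def a1844 : PP 8 4 T 0x2000000000000000008000000100000000000008000000000200000000000005020 := rS 0x228621685c98892586d461e6992556af30bf1763f218bd5211128d59247a7b2ccaad35c101207 (k8 a1758 a1742 a276 a464 a445 a63 a385 a13 (k8 a354 i611 i354 i346 a1755 a1832 a1829 i41 (k8 i375 i1945 a1777 a397 a427 a97 i1008 a1719 (k8 a1842 i2119 a1843 i486 i1318 a440 i707 i1304 (k2 a1663 a120 (k1 a51 k0)))))) (by decide +kernel)
def a1845 : PP 8 4 T 0x12200000000000000008000000200000000000000000010000200000001050011140 := rS 0x44c4ecd3f15e22205e8a5e23e5da9d6ad2118ad434f63b950a6ba19f47ac5 (k8 i116 i1386 i1326 a129 a464 i1867 a468 i142 (k8 a13 a1833 a371 i248 a377 a1788 a67 i1944 (k8 a1790 a6 i256 i1412 a1794 a1796 i1497 a403 (k4 i849 i1954 a1729 a127 k0)))) (by decide +kernel)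
def a1846 : PP 8 4 T 0x12201000000000000008000000200000000000000000010000200000001080011140 := rS 0x44c4ecd3f15e22205ebc4523e5aa0d7650538aca74f63a15966ba19f47ac5 (k8 i116 i1386 i1326 a129 a464 a385 i1867 i142 (k8 a13 a1816 a371 a1825 a1620 i1944 a374 i1397 (k8 a1790 i257 a6 i1412 a1794 a1796 i1497 a403 (k4 i849 i1954 a1729 a127 k0)))) (by decide +kernel)
def a1847 : PP 8 4 T 0x2000000001000000000820000000000000000000000000000000014000000000000 := rS 0x183393517 (k4 a465 i1457 i1458 a429 (k1 i2664 k0)) (by decide +kernel)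
def a1848 : PP 8 4 T 0x2000000000000000000000000000000400000000000000000200000000000005020 := rS 0x8c8dd9e398b18a2ab94a99d7abe19a5d4ef11f2ad5e617e0783a93a1a900e09869b8d65556995969d823958ec2648d4b225008ed5211 (k8 a1755 a1832 a435 i2 i346 i603 i354 i611 (k8 a1776 i142 a468 a276 i1906 a385 a63 a445 (k8 a72 a464 a1841 a357 a1742 a1758 a1844 a129 (k8 i1365 i2878 a1845 a1846 a397 a427 a97 a1839 (k8 a6 i140 i1372 i2175 i376 i1412 a722 a1803 (k8 a1847 a853 i2040 a447 a1831 a368 i1956 a784 (k1 a419 k0))))))) (by decide +kernel)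
def a1849 : PP 8 4 T 0x2001000000000000401000000110000000040000000010000000000001150008000 := rS 0x440f9057291d5623 (k8 i245 a1817 i109 a424 a17 a1245 a107 a73 k0) (by decide +kernel)
def a1850 : PP 8 4 T 0x2000000000000000000000000000000000000000000000000200000000208008020 := rS 0x3209a30248648201 (k8 i2 i22 i67 i747 i784 i526 a1457 i982 k0) (by decide +kernel)
def a1851 : PP 8 4 T 0x2100000000000000000000000000000000000200000014004000000000000000000 := rS 0xab11 (k2 a453 i1540 (k1 a362 k0)) (by decide +kernel)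
def a1852 : PP 8 4 T 0x2000000000000000000000000000000000000800000000004200010000004008000 := rS 0x9819248c9ca67 (k4 i542 a424 a877 i752 (k2 i2110 a440 (k1 i526 k0))) (by decide +kernel)
def a1853 : PP 8 4 T 0x2001000000000000401000010100000400000004004014000200010000240008020 := rS 0xaa4f189449818380ccee534a9cc5e9354ae56a7fa12ac467d3a92c3705 (k8 a17 a1850 i486 a1851 i1502 i245 a1817 a439 (k8 a133 a84 a351 a1832 a1109 a1829 a1047 a476 (k8 a1816 a1852 i1611 i2044 a1789 a662 i1358 i1041 (k2 a782 i791 (k1 a1301 k0))))) (by decide +kernel)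
def a1854 : PP 8 4 T 0x2000000000000000000010000401144000000000800000000005060100000000020 := rS 0x2699c3944998762f (k8 a1829 a435 i355 i359 i360 i548 i2034 i1151 k0) (by decide +kernel)
def a1855 : PP 8 4 T 0x2001000000000000401000010100000400000004004010000200010001050008020 := rS 0x8142573fd095705 (k8 a17 a1817 a439 a133 i502 a1833 a1849 a1853 k0) (by decide +kernel)
def a1856 : PP 8 4 T 0x2001000000000000401800010500040400000004804000000205040101050008020 := rS 0x188cd12182612c362124888b0354eae52742218bd469582aad32a9 (k8 a1832 a837 a1817 a17 a476 a1823 a1829 i41 (k8 a439 a1109 a351 i1646 a1854 a1855 i604 i868 (k8 i723 i2153 i486 a440 i526 i230 i2110 i1042 (k1 i2033 k0)))) (by decide +kernel)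
def a1857 : PP 8 4 T 0x2001000000000000001011020040014400010544000000000200014100404000120 := rS 0x303017aa4fe53 (k4 a1816 i1556 a1832 a1829 (k2 a479 a1789 (k1 i1041 k0))) (by decide +kernel)
def a1858 : PP 8 4 T 0x2001000000000000001001020100010400010144000000000200010100600008020 := rS 0xc62e925c8cceee551824961b (k8 a1850 i486 i342 a1823 a424 a1852 i1611 a1045 (k4 a1857 a19 i1509 a429 k0)) (by decide +kernel)
def a1859 : PP 8 4 T 0x20010000000000004000000a0000100000000000800000000000020000000008020 := rS 0x45537195ca499c8a64998670555d152ea9 (k8 a1832 i1900 a381 a1817 a17 i70 i355 i612 (k8 i547 i548 i1621 a1261 a52 i1151 a115 a422 k0)) (by decide +kernel)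
def a1860 : PP 8 4 T 0x2001000000000000401000020100000400000044000010000200010101050008020 := rS 0x12ce81b3e8816a235095d2aa982aacfe53 (k8 a1816 i1556 a1817 a17 a1832 a476 i502 a1833 (k8 i245 a1244 a1849 i1502 a1850 a1858 i486 a1851 k0)) (by decide +kernel)
def a1861 : PP 8 4 T 0x2001000000000000401800080500000400000004804000000205040101050008020 := rS 0x49ae4623344b24304c2586c4249111606aac39a64862f72a8c12974aaa60aab (k8 a1817 a17 a1832 a476 i1900 i342 a1823 a424 (k8 a1829 i41 a837 a1047 a1856 a1859 a1860 i604 (k8 i868 i723 i2153 i486 a440 i526 i2411 i230 (k4 i2110 i1042 a1261 a1020 (k1 a479 k0))))) (by decide +kernel)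
def a1862 : PP 8 4 T 0x800000000000002001000000000001005010080001210481010104800000004200110000400008020 := rS 0x43a456c832813e1a7b3c9c89a1949b3c607733904a63b54b146e2778044369f19b256a7f (k8 a133 a84 i618 i285 i1112 i269 a1755 a1421 (k8 a76 a376 i1789 a1832 a435 a1816 i22 i542 (k8 a1852 a1426 i1979 i1509 i1041 i526 a1789 i1854 (k8 a858 a456 i758 a467 a374 i500 i1111 i856 (k1 i2046 k0))))) (by decide +kernel)
def a1863 : PP 8 4 T 0x800000000000002001000000000000405000080100000400000004808010000200100001050008020 := rS 0x1449e4c24860ca171a334fa751021446a12980cae9554c1556b94506c969d4c2ed6a7f (k8 a133 a84 i1947 i540 i1942 i2306 i269 i539 (k8 i1405 a1817 a17 a1832 a476 i502 i24 a1816 (k8 a1833 i245 i1869 a1849 a1851 i1502 i730 a1862 (k8 i1116 i1022 a437 i1006 i229 i1351 i528 a1240 k0)))) (by decide +kernel)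
def a1864 : PP 8 4 T 0x2000000000000000014000000005000400000000000020004040144001000008020 := rS 0x17181306a212499e223b (k8 a435 a373 i544 i868 i723 i355 a440 a1426 (k2 i707 a1332 k0)) (by decide +kernel)
def a1865 : PP 8 4 T 0x2001000000000000404000000100000400000004800000000204000001040008060 := rS 0xd463173224959432c8cd929f4ea29304b1c9897cbb4a90c020363c15caa316875829754af55c3d690254eab628dde011 (k8 a1755 a1421 a376 i1789 a1817 a1825 i342 a1807 (k8 a335 a1811 i1987 a1832 i1900 a44 a341 a329 (k8 a1823 a424 a17 a356 i24 i2 i41 a476 (k8 i1947 i2036 a1861 a1831 i2306 i540 i539 i1942 (k8 i1112 i618 i285 a1864 a1863 a439 i1352 i1353 (k4 a19 i1509 i1022 a429 k0)))))) (by decide +kernel)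
def a1866 : PP 8 4 T 0x2001000000000000015080080100000001010000000000040200000005550008000 := rS 0xa50eb6419421a7e15a84a6c751b356ae5 (k8 a424 a1788 i1949 a1823 a356 a1816 a1833 a371 (k8 i2030 a35 a467 a374 i500 i1684 i1929 i2032 k0)) (by decide +kernel)
def a1867 : PP 8 4 T 0x2001000000000000801011080141000401010504004000000200044104004000020 := rS 0x122875b20cf27b2805a1a193f0c0e2894ac519e9339a64a62f4faa46a6727b357461 (k8 i1391 i626 i1949 i1389 i2370 i355 a1832 a551 (k8 a1829 a1816 a837 a1047 i1366 i1950 a438 a14 (k8 a337 a117 i2033 i2044 i1041 a35 a437 a467 (k4 i713 i972 a374 i500 (k2 i1684 i854 (k1 i2046 k0)))))) (by decide +kernel)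
def a1868 : PP 8 4 T 0x2000000000000005000080000005200401405500000000000000000000000000000 := rS 0x12287 (k2 i1684 i1111 (k1 i2046 k0)) (by decide +kernel)
def a1869 : PP 8 4 T 0x2001000000000000804000080100000400000004800010000200000001040008060 := rS 0xe6908644ca2823c9ec9a198c8c114981cb3cc49d5cb2466753b92c36206693d6a7d4288c8253008ed8f0572a8d4e2d0eb05a4094b95d8a3713bc022ba4faa46a67 (k8 i2370 i355 a1832 a551 i626 a1755 a1421 a76 (k8 a376 i1789 i502 i1900 i342 a1807 a44 a341 (k8 a329 a1825 a1823 a424 a17 a356 a435 i2 (k8 a1816 i22 i245 i1869 i1328 a1788 i1389 i1949 (k8 a1866 a1850 i486 a1852 a1851 i1611 i612 a1045 (k8 i1908 a1867 i1951 a1831 i540 i539 i2035 a52 (k8 i1041 i526 a858 i1854 a1868 a374 a68 a467 (k2 a406 a370 (k1 i1110 k0))))))))) (by decide +kernel)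
def a1870 : PP 8 4 T 0x2001000000000000004000000100000400000004800000000204000001040008060 := rS 0x450c694308e172934e8c4668964860984b0d88492222c0d53e67650dde0c521804762f72a8c5ac14bab87ad2048454ea9 (k8 a1832 a1825 a1755 i342 a1807 a335 a1811 i1900 (k8 a44 a329 a1823 a424 a1829 a435 i2 i41 (k8 i1789 a1421 a376 a1865 i2370 a551 i355 a1869 (k8 i604 i868 i723 i2153 i486 a440 i526 i2411 (k8 i230 i2110 i1042 i1908 i1367 a1045 a1426 i1391 (k4 i2033 a1831 a438 a14 k0)))))) (by decide +kernel)
def a1871 : PP 8 4 T 0x2001000000000000400000000000000000080000000000400000000000000008000 := rS 0x56d0e0aab (k4 a1817 a17 a133 i1556 (k1 a439 k0)) (by decide +kernel)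
def a1872 : PP 8 4 T 0x2001000000000000401000000100000400000004004010000200010101050008020 := rS 0x569cd522f (k4 a1829 a1832 a1047 a1860 (k1 a1855 k0)) (by decide +kernel)
def a1873 : PP 8 4 T 0x2001000000000000405000000500040400000004404010000205000101050008020 := rS 0x8689174f3194d0e50a373dc404e55262449218449982e344c80c762f548459a752586c407f29a84af05 (k8 a17 i502 a1833 a1816 a1871 a1849 a1850 i486 (k8 a1851 i730 a1755 a1832 a1829 a435 i24 a837 (k8 a1872 i1116 i355 i358 a437 i1006 i1168 i229 (k8 i1620 a1442 a362 a1179 i1044 a361 i235 i2034 (k4 a41 i1073 i532 a406 (k2 a460 a69 k0)))))) (by decide +kernel)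
def a1874 : PP 8 4 T 0x2001000000000005505011080000200481010104000000000200110000404008020 := rS 0x21d22b6419409f0d3c9ece44d0ca4c609d3b99c82c73f94c969f4aaa60aab19b144ef08c8dc223b (k8 a435 a1755 i1773 a52 a419 a76 a49 i285 (k8 a1817 a17 a1832 a476 i1112 i486 a1816 a1871 (k8 a356 i22 i542 a1852 a544 i2035 i1509 i1041 (k8 i526 a1789 a858 i1854 a456 i758 a467 a374 (k4 i500 i1111 i856 i2046 k0))))) (by decide +kernel)
def a1875 : PP 8 4 T 0x2001000000000000004000000100000400000004000010000204000001040008060 := rS 0xa24f2612430650b8d10ac57833c6ec98ca2930395c988ea4b0db34fa205a88d4201018ee0aab1687582975495cfecb35ab87ad2048454e53 (k8 a1816 a1825 a1755 i342 a1807 a335 a1811 a1870 (k8 i625 a1871 i502 a1832 i1900 a44 a341 a329 (k8 a1817 a17 a435 i24 i2 a1833 i245 a1244 (k8 a1849 i1502 i730 a1850 i486 a1851 a1873 i1405 (k8 a1831 i540 i539 a52 i617 i1773 i1978 a419 (k8 a49 i1503 a1874 i1116 i1022 a437 i1006 i229 (k2 i1351 i528 (k1 a1240 k0)))))))) (by decide +kernel)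
def a1876 : PP 8 4 T 0x2001000000000000004000000100000400000004000000000204000001040008060 := rS 0x126b9188cd12c90c130961b1a8849222339612acb3590c5ea982b9546ab16b055c3d6902422a7 (k8 a1825 a1755 i342 a1807 a335 a1811 a44 a329 (k8 a1817 a1823 a424 a17 a1832 a1829 i41 a1870 (k8 i625 a476 a1875 i544 i604 i868 i723 i355 (k8 i2153 i486 a440 i526 i2411 i230 i2110 i1042 (k2 a1261 a1020 (k1 i2033 k0)))))) (by decide +kernel)
def a1877 : PP 8 4 T 0x2001000000000000004000000100000400000004000000000204000000040001060 := rS 0x27cd68b42334f6825b9f09cac388a44e9367c513a791bc58c661339946a4a489252ab50d32d924d2c86466560b88c48815710456a129aa4230572aad4e1d1eb48120e (k8 a1848 i342 a1807 a335 a341 a1825 a1817 a424 (k8 a17 a1755 a1832 a1816 a1833 a371 i22 a1811 (k8 i1862 a1876 i111 i860 i347 i287 i2209 i604 (k8 i2351 i504 i2324 a437 a1244 a476 i747 i912 (k8 i269 i2211 i1580 i2307 i1047 i2306 a352 a1465 (k8 a1478 a544 a438 a368 a19 i786 i275 a117 (k8 a1295 i1582 i1581 a125 i2031 i815 i894 i1442 (k4 i492 i508 i1606 a388 k0))))))))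 (by decide +kernel)
def a1878 : PP 8 4 T 0x2000001000000000005800000000000000000000000000000000000000000008000 := rS 0x62d3d8ee5 (k4 a424 a356 a60 i1527 (k1 a379 k0)) (by decide +kernel)
def a1879 : PP 8 4 T 0x2001000000000000400500050000000000000000400000000000000000000008000 := rS 0x5d50a0aab (k4 a1817 a17 a439 a391 (k1 a86 k0)) (by decide +kernel)
def a1880 : PP 8 4 T 0x2001000000000000000000001000000000000080000000500000000000000000000 := rS 0x9f0d (k2 a456 i758 (k1 a467 k0)) (by decide +kernel)
def a1881 : PP 8 4 T 0x2000001000000001004000000000000401000000000014000000020050004018020 := rS 0x4397624272a93092183305c066b (k8 a1421 i24 i1116 i355 a437 i1006 i229 i1620 (k4 a1442 a127 a5 a69 (k1 a460 k0))) (by decide +kernel)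
def a1882 : PP 8 4 T 0x2001000000000000401000020100000400000004000010000200010101050008020 := rS 0x39145527d101fca6a1 (k8 a1833 a1816 a1871 a1849 i1502 a1832 i1313 a1860 (k1 a1880 k0)) (by decide +kernel)
def a1883 : PP 8 4 T 0x2001001000000000404100000100040400000004000010000200000011040008060 := rS 0x19e8a4c2b95ac9198e57277310d4ea4b4286d9a7d102d4462b508060aab538b43a6b08afd82d20495cfe53 (k8 a1816 a1871 i502 i342 a1807 a44 a1878 a1755 (k8 a1421 a341 a329 a1825 a1817 a17 i2 a1833 (k8 a371 i245 a1244 a1849 i1502 i730 a1850 i1504 (k8 i486 a1851 a1881 a1872 a1852 i1405 a1831 i1611 (k4 i612 a1882 a1879 i540 (k2 i539 i1978 (k1 a1874 k0))))))) (by decide +kernel)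
def a1884 : PP 8 4 T 0x2001001000000000404100000100040400000004000000000200000011040008060 := rS 0x49ae4623344b24304c2586c6a2124888ce584a90c5ea982b9546ab16b05a409 (k8 i342 a1807 a44 a329 a1817 a1823 a424 a17 (k8 a1832 a1829 i41 a476 a1883 i544 i604 i868 (k8 i723 i355 i2153 i486 a440 i526 i2411 i230 (k4 i2110 i1042 a1261 a1020 (k1 i2033 k0))))) (by decide +kernel)
def a1885 : PP 8 4 T 0x2100000000000000000000000000000000080100048000000200000000008000000 := rS 0x117649d92670329cc94a1 (k8 a1833 i269 i834 i1049 i488 i1638 i799 i616 (k2 a332 a352 k0)) (by decide +kernel)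
def a1886 : PP 8 4 T 0x1000000000001002000000000000000000000000000442000400000000000000000000000000000000 := rS 0x13319 (k2 a25 i1111 (k1 a422 k0)) (by decide +kernel)
def a1887 : PP 8 4 T 0x1400000000001002000000000000001000510000001015405005500000000000000000000000000000 := rS 0x33a2c9f (k4 a856 a447 i2046 a368 k0) (by decide +kernel)
def a1888 : PP 8 4 T 0x2000001000000000004000000008000000000000000000000000400000000008000 := rS 0x62d3d8ee5 (k4 a424 a356 a26 i1526 (k1 a379 k0)) (by decide +kernel)
def a1889 : PP 8 4 T 0x2001000000000000000000040100040000010004040000000200000001448008060 := rS 0x75311fa206110929421182a8d82b50eb4812e5 (k8 a424 i342 a1807 a341 a1788 a44 a1823 a17 (k8 a1755 a1833 i269 a1850 i1047 a107 i2030 a1605 (k2 a453 a1885 k0))) (by decide +kernel)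
def a1890 : PP 8 4 T 0x1400000000000002101001001000000000500040144040400110504040000044200000011540000160 := rS 0x33928914eae53715649e4f662241849a8343941270d66a14fd1015a84a61160ad43ad2 (k8 a1807 a341 a1788 a44 a1755 a1816 a1833 a371 (k8 a107 i2030 a361 a380 a35 i1637 a467 a1725 (k8 a374 i528 i1311 a440 a1605 a418 a353 i1124 (k8 a51 a412 i1406 a544 a1886 a1887 i2046 i1105 k0)))) (by decide +kernel)
def a1891 : PP 8 4 T 0x1000000000001002000000000000005000400000005440401100504000000204000000000000000000 := rS 0x3c9ec9091439361a83 (k8 a374 a65 i528 a982 a1886 a440 a418 a353 (k1 i2046 k0)) (by decide +kernel)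
def a1892 : PP 8 4 T 0x2000000000000080000010000140014000000100000000000000014400042000000 := rS 0x18a245ac1 (k4 a44 a329 i230 i1041 (k1 i2033 k0)) (by decide +kernel)
def a1893 : PP 8 4 T 0x1400000000001002001000000000081000411000145454401110504000000040200014000444000020 := rS 0x1fc330c399459f16298bd524b (k8 i486 a1832 a1829 a1816 a447 a368 a1891 a1880 (k4 a467 a1892 a35 a1789 k0)) (by decide +kernel)
def a1894 : PP 8 4 T 0x2000001000000000004000000000000008000000000000000000000040000008000 := rS 0x62d3d8ee5 (k4 a424 a356 a20 i1524 (k1 a379 k0)) (by decide +kernel)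
def a1895 : PP 8 4 T 0x1000000000001002000000000000000000000000000442000000040000000000000000000000000000 := rS 0x13319 (k2 a25 i1110 (k1 a422 k0)) (by decide +kernel)
def a1896 : PP 8 4 T 0x2000000000000005000000000005001405000500000000000000100010000800000 := rS 0xf27b (k2 i714 i973 (k1 i2046 k0)) (by decide +kernel)
def a1897 : PP 8 4 T 0x1000000000000002001001000000000004100000100040400100004000010000200010011040008060 := rS 0x891704e55260602e91399459e941ca6e2a6230a7526b9648cd0acd101dcea4b2786d6a7d1194c02a982b9546a70eafd82d204a7c76871595e86af651ac2267 (k8 i542 a1755 a1421 a1884 i625 a105 i502 a371 (k8 a1894 a435 a1888 i342 a1807 a44 a1878 a341 (k8 a1825 a1823 a424 a17 a1832 i2 a1816 i245 (k8 i1328 a1788 a1889 i1389 i486 a1851 a1852 a1890 (k8 i730 i1504 i1611 i612 a1045 i1367 a544 i1391 (k8 a1605 a51 a412 a1831 a1893 i1105 a1891 a1880 (k8 a1895 a1896 a437 i229 i791 a1442 a460 a127 (k1 a5 k0)))))))) (by decide +kernel)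
def a1898 : PP 8 4 T 0x2000001000000000000000000000000000800000000000000000000050010000000 := rS 0x4f13 (k2 a68 i735 (k1 a127 k0)) (by decide +kernel)
def a1899 : PP 8 4 T 0x2001000000000000800000000000000000500000400020400000000000000000000 := rS 0x16e4f2e9455aaf (k4 i625 i122 a508 i609 (k2 i871 a577 (k1 a108 k0))) (by decide +kernel)
def a1900 : PP 8 4 T 0x1000000000000002001001000000000004100000100040400100004000000000200000011040008060 := rS 0x4604e8a2e2de185138c54e64c24ae0c4182799836175a8d0465957b28a603729ac22830eb48122b (k8 a371 i342 a1807 a341 a1898 a1755 a1421 a424 (k8 i24 a1816 a1884 i625 a1899 i245 a1897 a1788 (k8 i1116 i356 i355 i1389 a437 i545 i546 i1006 (k8 i229 i1092 a51 i1407 i528 a389 a577 a108 (k4 a207 i1765 a795 a52 k0))))) (by decide +kernel)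
def a1901 : PP 8 4 T 0x2001000000000000004000000100000400000004000000000200000000040001060 := rS 0x5c892284ecf4e8de2c6732928921a64864ac171227cd6bd14a5d0345788f8822b1d8460a0e (k8 a1848 a17 a1755 a435 a371 i22 a1877 a6 (k8 a80 i1333 i1372 i256 i1411 a1421 a1888 a1900 (k8 i860 i347 i2209 i504 a437 i747 i269 i1580 (k8 i2307 a352 a1465 a544 a368 i786 a388 a127 (k2 i491 a5 k0))))) (by decide +kernel)
def a1902 : PP 8 4 T 0x2002000000000000500010001000010000000000054000000000000000000008000 := rS 0x1251682aacc2ad (k4 a420 a397 a1817 a17 (k2 a352 i2040 (k1 a19 k0))) (by decide +kernel)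
def a1903 : PP 8 4 T 0x1000000000000002002000000000000416000000000040000000004014000000000050045508008020 := rS 0x21c529c3ca6a2a99490b064c85ca545ea963984ce9142b3620e5 (k8 a424 a107 a380 a361 i912 i542 a397 a356 (k8 a1832 a1829 i1518 i1250 a1902 i612 i1614 i1613 (k8 i980 a115 a162 i1073 i1450 i275 i1645 i2032 k0))) (by decide +kernel)
def a1904 : PP 8 4 T 0x1000000000000002002000000000040414000000100040000000004004010000200050005048008020 := rS 0x10e293d1e5349f8aa65907016255721ca130456a963a8cc2675a93e0a573fa850acd3e994eb1010b94464a (k8 i269 i245 a424 a1850 a107 a453 i1049 a73 (k8 a380 a361 a1833 a897 i502 a17 a74 a1692 (k8 i542 a397 a1823 a356 a1832 a371 a1903 a393 (k8 i2030 a351 a121 i782 i781 a1902 i980 a117 (k4 a428 a162 i1073 i1448 (k2 i275 i818 (k1 i2032 k0))))))) (by decide +kernel)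
def a1905 : PP 8 4 T 0x2000002000000000800000040100000000000000000000000000000000000018040 := rS 0x60b954609 (k4 i342 a1823 a424 i1245 (k1 a488 k0)) (by decide +kernel)
def a1906 : PP 8 4 T 0x1000000000000002002000000000040414000000100040000000004000000100200050005048008020 := rS 0x2c98c464a (k4 i269 i2153 i487 i604 (k1 a1904 k0)) (by decide +kernel)
def a1907 : PP 8 4 T 0x2002000000000000500001000000010400050444044000000200000000405008020 := rS 0xc89254ae60a61 (k4 a397 a17 a1575 a1832 (k2 a1789 a1902 (k1 i1550 k0))) (by decide +kernel)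
def a1908 : PP 8 4 T 0x2000000000000040000000000100020000000000000000000000000400000008000 := rS 0x60d0dcaa3 (k4 a1823 a424 a121 i1518 (k1 a393 k0)) (by decide +kernel)
def a1909 : PP 8 4 T 0x22002000000000000400000000000010400000404044014100200000000004008020 := rS 0x64120324d2a1fce67d29aad5a4b11ad49f05 (k8 a17 a74 a1692 i245 i486 a420 a1817 a1816 (k8 a340 a370 a35 i2037 i791 i229 a440 a1907 (k1 i1124 k0))) (by decide +kernel)
def a1910 : PP 8 4 T 0x2002000000000040400000000000010400000404044014100200000000044008020 := rS 0xc8240649a543e9fce61c86a84a62f51aad5a4b11ad49f05 (k8 a17 a74 a1692 i245 i486 a420 a1817 a1823 (k8 a1829 a1816 a1833 a1909 a377 i718 i720 i1234 (k4 i2037 i791 i229 a440 (k2 a1907 i1124 k0)))) (by decide +kernel)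
def a1911 : PP 8 4 T 0x2002000000000000404000000800010400000404040014000200000000044008060 := rS 0x21d0acd48950fe733ea7618cf8ca7d92793d8742c384c120e219441345a9b8a988eab529c15564f56d152e2f28b4d424b (k8 i486 a1833 a67 a1685 a1829 i1898 a410 a420 (k8 a74 a1817 a17 a1816 a1692 a1851 a1910 a51 (k8 a412 i1237 a1806 a120 i229 a662 a440 i283 (k8 i282 a437 i1342 a418 a353 i1124 i1112 a42 (k8 i1976 a377 a544 a340 a370 a35 i2037 a1895 (k4 a330 a455 a1001 i2046 k0)))))) (by decide +kernel)
def a1912 : PP 8 4 T 0x2002002000000000004000000100000400000004000000000200010001040008060 := rS 0x1070d5ba14f81c67b022c935ca746233448b5921848930424911160ee4b0d99c86531db1e0ae5519849e376289e8a974094542cb578452ad3530f45e57 (k8 i502 a1829 a365 a567 a67 a1908 a1755 a427 (k8 a1905 a1833 a1685 i1860 i1898 a410 a76 a49 (k8 a376 a74 a397 a1823 a424 a17 a356 a435 (k8 a1816 i41 i542 a1906 i486 a1852 a1911 i604 (k8 i868 i723 a440 a110 i526 i2411 i1039 i230 (k8 i2110 i1042 a544 a1575 a1020 a429 i2033 a368 (k4 i1574 i1573 a1417 i721 (k2 a340 i1442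 (k1 a196 k0))))))))) (by decide +kernel)
def a1913 : PP 8 4 T 0x2000000000000040000000000050000000080000000000000000000000040000000 := rS 0x3b0d (k2 a35 i720 (k1 a377 k0)) (by decide +kernel)
def a1914 : PP 8 4 T 0x2002002000000000004000000100000400000004000000000200010000040008060 := rS 0xc6652512434b96486466560b890ce4154b94a2a165abc229569a987a2f (k8 a1829 a365 a567 a67 a1908 a1755 a427 a1905 (k8 a1833 a1685 a424 a1832 i22 i542 a1912 i860 (k8 i347 i287 i2209 i504 a1045 a437 i747 i269 (k2 i1580 i487 (k1 a1902 k0))))) (by decide +kernel)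
def a1915 : PP 8 4 T 0x2002000000000000400000000000000000040000000015500000000000000008000 := rS 0x1f56b1082aac9ead (k8 a420 a74 a1817 a17 a362 a1692 a73 i2037 k0) (by decide +kernel)
def a1916 : PP 8 4 T 0x2002002000000000004000000100000400000004000000000200000000040008060 := rS 0xb0572a93092183306c2e343fb2ca2d3530f542530184546af (k8 a427 a1823 a1755 i24 a1816 a1833 a365 a567 (k8 a67 a1685 a1905 a1913 a1914 i1116 i2211 i355 (k4 a437 i1006 i229 i1620 (k2 i2351 a1915 (k1 i544 k0))))) (by decide +kernel)
def a1917 : PP 8 4 T 0x2000000000000080000000040000000000000000000000000004000000000010140 := rS 0x14e3d (k2 a335 a67 (k1 a1811 k0)) (by decide +kernel)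
def a1918 : PP 8 4 T 0x2002000000000000000000000000000000000004004000000206000000008000160 := rS 0x4352c99418ac5e1130abc9e17 (k8 i66 a74 a427 a397 a1755 a1829 a371 i1256 (k4 i1786 a1746 a1616 a1615 k0)) (by decide +kernel)
def a1919 : PP 8 4 T 0x2000001000000000404140050800000000000000400000000000000000000008000 := rS 0x29cbe62b1dcaab (k4 a1817 a424 a356 i1918 (k2 a391 a379 (k1 a60 k0))) (by decide +kernel)
def a1920 : PP 8 4 T 0x2002001000000000404000000100000000000004000000100204010000008008060 := rS 0x90ae743232588335cb0286ba532f47a6310928924154b9546ad35a55a6af048445e67 (k8 i542 a1829 a1755 i342 a427 a1917 a1908 a1421 (k8 a420 a1823 a424 a1832 i22 i747 i269 a1850 (k8 i487 a1918 a1589 a1811 a1919 a86 a393 i1250 (k8 i2968 i1519 i612 a1902 i1049 i1580 a1268 i347 k0)))) (by decide +kernel)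
def a1921 : PP 8 4 T 0x2000000000000040004200000100000000000000000000000000000000000008000 := rS 0x60d0dcaa3 (k4 a1823 a424 a338 i1252 (k1 a393 k0)) (by decide +kernel)
def a1922 : PP 8 4 T 0x2002001000000000404000000100000000000004000000100204000000008008060 := rS 0x35 (k2 i2211 a1920 k0) (by decide +kernel)
def a1923 : PP 8 4 T 0x2000000000000000400100050000000000000000400000000002000000000008000 := rS 0xbf5db1d46ab (k4 a1817 a1823 a356 i1788 (k2 i1260 a391 k0)) (by decide +kernel)
def a1924 : PP 8 4 T 0x2002000000000000002080000000004400000004400020104200000000000000020 := rS 0x6d193c85c308338ad8e64c131f0385d24888863b17aa57ec4 (k8 i1519 i107 a1832 a1829 a435 i41 i604 i868 (k8 i609 i1574 i1573 i1576 a440 i718 i1600 i1360 (k4 i1441 i526 i707 i1933 (k2 a919 a1276 (k1 i1043 k0))))) (by decide +kernel)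
def a1925 : PP 8 4 T 0x2000000000000000000000000000000400000000000008000000000000004008020 := rS 0xb864484d (k4 i2351 i502 i229 i860 (k1 a437 k0)) (by decide +kernel)
def a1926 : PP 8 4 T 0x2002000000000000406080000800010400000004400000100200010000044008060 := rS 0x126584e9dccf0525b246657 (k8 a1925 i2968 i612 i486 a17 i542 a1852 a544 (k2 a1911 i1639 (k1 a1924 k0))) (by decide +kernel)
def a1927 : PP 8 4 T 0x2002000000000000404000000100000400000004000000000204000000040008060 := rS 0x2a124b2183308c2e342bb0286ba530f4365301b955a6b789452a2f3fa8d42bd69abc1211 (k8 a1755 i342 a427 a1917 a1921 a1833 a1823 a1913 (k8 a1829 a1908 a1685 a1916 a1421 a420 a424 i24 (k8 a1816 a1922 a1923 a1811 a1919 a86 a393 a1925 (k8 a1926 i1116 i247 i355 a437 i604 i1006 a1915 (k1 i1620 k0))))) (by decide +kernel)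
def a1928 : PP 8 4 T 0x2002000000000000004000000100000400000004000000000204000000040008060 := rS 0xc1a1b29a61172a8c12af (k8 a427 i342 a1823 a424 a1755 a1917 a1927 a105 (k2 i1245 a393 k0)) (by decide +kernel)
def a1929 : PP 8 4 T 0x2000001000000040405100050100000000000000400000000000000000000008000 := rS 0x176bfa139546ab (k4 a1817 a1823 a424 a393 (k2 a1878 a86 (k1 a391 k0))) (by decide +kernel)
def a1930 : PP 8 4 T 0x2002000000000000522000000000010000000000000000100200000000008008020 := rS 0x242b9d0c8b93199c42352512482a9 (k8 a1832 i22 i747 i269 i2211 a1850 i2307 i487 (k4 i1250 a1902 i1049 i1580 (k2 a1268 i347 k0))) (by decide +kernel)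
def a1931 : PP 8 4 T 0x2002000000000040404000000100000400000004000000000200000000040008060 := rS 0x2083a9b8aa40c49d3c9ed9e7733920e23526a159a543a894b2572588c36c919af988c03fa54a2a12980c5f0572a8d5ead358453e87788ae8a971d8a57a3e (k8 a1928 i1411 i256 a435 i1372 a80 a371 a1916 (k8 a1894 a1888 a1755 a1421 a420 a427 a1823 a424 (k8 a17 a1829 i24 a1816 a1833 a1685 a1908 a1913 (k8 a1929 i1426 i1425 i2969 i612 a1930 i2954 i486 (k8 a1925 i604 i347 a1851 a1915 i1792 a455 a1422 (k8 a1881 a662 a440 i542 a1852 i1794 a418 a353 (k8 a544 a1910 i2046 a51 a412 a210 a1886 a1898 k0))))))) (by decide +kernel)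
def a1932 : PP 8 4 T 0x2000001000000000000000040000000000000044005000200008000100000010020 := rS 0x4d8e5131438a5c770d (k8 a65 a435 i1372 i1358 a389 a337 i296 a828 (k1 a1654 k0)) (by decide +kernel)
def a1933 : PP 8 4 T 0x2000000000000080000001000100000000000000008000000200000001148008000 := rS 0x7e3a9f620a182b95461d6088cce4a (k8 i269 i2307 i2153 a44 a341 a1823 a424 a17 (k4 a1833 a107 a73 a453 (k2 i2030 a1885 k0))) (by decide +kernel)
def a1934 : PP 8 4 T 0x400000000000002000001000000080400000040100000400000004001000200208000000048008020 := rS 0x4592465649f0fe5688890e0625ac34230516924827350884ce4a (k8 i269 i2307 a1850 a1833 i834 i22 i747 a329 (k8 a17 a1755 a65 i1397 a1932 i488 a1933 a38 (k8 i347 i843 a403 i504 i1580 i1360 a352 a19 k0))) (by decide +kernel)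
def a1935 : PP 8 4 T 0x2100000000000000100080000004000040000000451000000000000000000000000 := rS 0x339729d (k4 a544 a1575 a388 i1951 k0) (by decide +kernel)
def a1936 : PP 8 4 T 0x2002001000000080400080000104000000000044400000108208000001540009020 := rS 0x394d26513198a1c52ac8459756d0d329f8ea7d882d5425354c15ca47519855e4fa2a052e3b16b05061d148acce59 (k8 i604 i2307 a371 i256 a341 a1898 a44 a329 (k8 a435 i1372 i1333 a80 a74 a427 a397 a1823 (k8 i109 a424 a17 a1832 a1816 a1833 a568 a107 (k8 a73 a453 i2030 i1049 a35 a196 i1930 i491 (k8 a1935 i1101 i800 a389 a919 a337 a57 a967 (k2 i296 a828 k0)))))) (by decide +kernel)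
def a1937 : PP 8 4 T 0x2002001000000080400080000104000400000004400000000208000000048001020 := rS 0x9b8aa663294452e4cac91995848632899c4223398d4944920a85530572838c2afa2a5c7743 (k8 a86 a435 i1372 a80 a427 a397 a1848 a424 (k8 a17 a1832 a1833 i22 i747 i269 i2211 i834 (k8 i2153 a1850 i2307 a1934 i487 a1936 i347 i287 (k8 i504 i1580 a1045 a1935 a1902 a52 i1938 a14 (k2 i1181 a422 k0))))) (by decide +kernel)
def a1938 : PP 8 4 T 0x2000001000000000000000000000002000000000000000000200000010000000001 := rS 0x9e262b (k4 a371 a112 a700 a127 k0) (by decide +kernel)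
def a1939 : PP 8 4 T 0x2100000000000000400080000004001404000404041004204000000000000000000 := rS 0x156228467ae53ac93c9ed9a483aad49a59 (k8 i607 i528 i1397 a1851 a440 i1949 a418 a353 (k8 i1124 a544 a1575 i1951 i2046 a361 a455 a362 k0)) (by decide +kernel)
def a1940 : PP 8 4 T 0x2002001000000001404000000000000000400404000014120208000010000008020 := rS 0x2e9c631121b9f872272a9cc302b298ed5211 (k8 a1755 a1832 a435 a1816 a371 i526 i836 i791 (k8 a1442 i2114 a1915 i1044 a127 a419 i799 a5 (k1 a919 k0))) (by decide +kernel)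
def a1941 : PP 8 4 T 0x2002001000000004404080000001000400400404000014104208000010000008020 := rS 0xab11421e4f64826b356a758293d3e3b438ad2201 (k8 i2 a1938 a371 a1894 a435 a1888 a74 a17 (k8 a1851 a1692 i1949 a1940 a440 a418 a353 i2046 (k2 a361 a455 (k1 a362 k0)))) (by decide +kernel)
def a1942 : PP 8 4 T 0x2002001000000000000000000000000400400004400020104208000000000000020 := rS 0x1c0f7181b8e4f2730c2d8985d2494c76a95793d022b (k8 a371 i1333 a74 a427 a1832 a435 a1816 i868 (k8 i609 a440 a108 i526 i836 i1933 i2114 i1043 (k4 a419 a390 a919 i801 k0))) (by decide +kernel)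
def a1943 : PP 8 4 T 0x2002001000000000404080000000000400400004040000000208000010004008020 := rS 0xce5ca75924826b356a59289dc6b053093cd6114f8ed0e2b488049657 (k8 a1925 i486 i2 a1938 a371 a1894 a435 a1888 (k8 a1755 a1421 a74 a397 a17 i355 a1852 a1939 (k8 a1942 a1692 i1949 a1940 a440 i1124 a544 a1575 (k2 a1941 i1951 k0)))) (by decide +kernel)
def a1944 : PP 8 4 T 0x2000000000000000404000000100000400000004000000000200000000040001060 := rS 0x2ac4508cd5a8d0b2662b86d74bf41b043ad215c1556af27ab4d6114fbc476295e8f9f80e (k8 a1848 a1901 a1928 i1411 i256 a435 a1916 a1888 (k8 a1755 a1421 a420 a74 a427 a1817 a17 a371 (k8 a1931 a341 a44 a1898 a1878 a391 a1937 a1925 (k8 a1943 i544 i542 a1692 i1949 a1881 a361 a455 (k1 a362 k0))))) (by decide +kernel)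
def a1945 : PP 8 4 T 0x2000000000000080000000000100000000000000008004040200000000148008000 := rS 0xb512c14b223 (k4 i2153 i604 a17 i347 (k2 a1692 a1933 k0)) (by decide +kernel)
def a1946 : PP 8 4 T 0x2000001000000080004000000500040400000000008000040200000000048008060 := rS 0x11518678de2c9d32b24ac3900c14126b08a7c764920884ce4a (k8 i269 i2307 a1850 i22 i747 a435 a1888 a1755 (k8 a1421 i342 a17 i2 a1831 a1945 i504 i1580 (k4 a544 a352 a1465 a368 (k2 a419 a388 (k1 a52 k0))))) (by decide +kernel)
def a1947 : PP 8 4 T 0x2100000000000000100000000004000040000000450000000000000000000000000 := rS 0x33a2c9d (k4 a544 a352 a388 a368 k0) (by decide +kernel)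
def a1948 : PP 8 4 T 0x2002000000000000804000000100000400000004000000000200000000048008060 := rS 0x1ca6932898cc50e2956422cbab632c34ea7e882d44a572898cfa5933884467325284a6a9829855e4f358453f4553a052e3b16a0c3ad260d0d46e5788a47c2b (k8 a371 a1928 i256 a1916 a424 a1823 a105 i1245 (k8 a393 a341 a1898 a329 a435 i1372 i1333 i140 (k8 a80 a1888 a1755 a1421 a74 a427 a397 a17 (k8 a1832 a1816 a1833 i269 i834 i2153 a1850 i2307 (k8 i604 i1328 a1946 a1932 i505 i347 a1692 a107 (k8 i2030 a453 a35 i1049 a196 i1930 i491 a1947 (k8 i1100 i800 a389 a919 a337 a57 a967 i296 (k1 a828 k0)))))))) (by decide +kernel)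
def a1949 : PP 8 4 T 0x2100000000000000000000000000000002000000000014000000000000000000000 := rS 0xab11 (k2 a361 a455 (k1 a362 k0)) (by decide +kernel)
def a1950 : PP 8 4 T 0x800000000000000002000000000000000000000000005001405005500000000000000000000000000000 := rS 0x19acf (k2 a3 a36 (k1 i2046 k0)) (by decide +kernel)
def a1951 : PP 8 4 T 0x2100001001000000844000000004001404000404040004204000010001000000000 := rS 0xcd67b129e854eb24f27b241d49a59 (k8 a508 i528 a1851 a440 a418 a353 i1124 a544 (k4 a1949 a1950 a379 i1794 (k2 i1792 i2046 k0))) (by decide +kernel)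
def a1952 : PP 8 4 T 0x2000001000000000004000000000000000000400000014020000000050000018000 := rS 0x2245c13b36205535a1d0b05 (k8 a17 a1949 a1894 a1421 i791 a362 a380 a1442 (k2 a460 a127 (k1 a5 k0))) (by decide +kernel)
def a1953 : PP 8 4 T 0x2000001001000000044000000005001405005500000000000000010011000800000 := rS 0x3966b3d894f (k4 a1950 a379 i1794 i1792 (k2 i1879 a1896 k0)) (by decide +kernel)
def a1954 : PP 8 4 T 0x2002001000000000804000000000000400400004040000000208000010004008020 := rS 0x64a70f27b0b120324d429d4b2513b8d58f05729ac229f1da1c56910092c4a57 (k8 a1925 i347 i486 i2 a1938 a371 a1894 a435 (k8 a1888 a1755 a1421 a424 a17 a356 i355 a1852 (k8 a1951 a1942 a1851 a1949 a1952 i229 a440 a437 (k4 a418 a353 a1953 i1124 (k1 a544 k0))))) (by decide +kernel)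
def a1955 : PP 8 4 T 0x2000000000000000004000000100000400000004000000000200000000040001060 := rS 0x5d86330e2738aa156a345c188b2662b86d061d6930686ca148f8d6f127bf0561182b95460e (k8 a1848 a1823 a424 a17 a1755 a371 a1901 a74 (k8 a1916 a1421 a1928 i256 a1944 a105 i1245 a393 (k8 a341 a1898 a1948 a1925 a1954 i544 i545 i546 (k8 i542 a1692 a1949 a51 a171 i1407 a1881 a389 (k2 i1970 a1590 k0))))) (by decide +kernel)
def a1956 : PP 8 4 T 0x2001000000000000401000001500000400100008000000000205000004158009000 := rS 0x615693d6c2941a4cca79648ccac243fa5456a129c15caab44924823526864ce63251c4b223 (k8 i2153 i604 i57 i269 i488 i2307 i67 i526 (k8 i2211 i22 i747 i1317 a1817 a424 a17 a1816 (k8 a1833 a371 a476 a1871 a1849 i347 i287 i504 (k8 a1478 i1580 a1020 i1440 i275 i2031 a125 i1582 (k2 i1048 a1295 k0))))) (by decide +kernel)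
def a1957 : PP 8 4 T 0x2001000000000000015000080500000400000008000000000205000004058001020 := rS 0x950a7d2bae8d44f651644223548390253 (k8 a1816 i1862 a1848 a1832 i2153 a1850 i604 a1956 (k8 i2885 i625 i626 i2324 i1328 i1869 i347 a1866 k0)) (by decide +kernel)
def a1958 : PP 8 4 T 0x2001002000000000004000000100000400000000000000000200000000040001060 := rS 0x502613c304b0dab84ec51f94e1a173729c3a3d60b48120e (k8 a1848 i342 a1807 a44 a335 a341 a1825 a1955 (k8 i969 a357 a1816 a6 a49 a76 a1818 a1957 (k4 i486 a437 i1272 i229 (k2 a467 i2350 k0)))) (by decide +kernel)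
def a1959 : PP 8 4 T 0x2000001000000000004000000004000400000000000008019000000040008018000 := rS 0x891704e8a1b8a4ca7964c14d667 (k8 i2307 a1421 a17 i504 a1478 i1580 i275 a1465 (k4 a1947 i786 i491 a127 (k1 a5 k0))) (by decide +kernel)
def a1960 : PP 8 4 T 0x2001001000000000004000000100000400000010000000000200000000048008060 := rS 0x15e6165194fc753ec416a252ba5cc64d1088c94490c90456a129aa5caa30eb05a409358453e3b (k8 a435 a1888 a1755 a1421 i342 a1807 a44 a341 (k8 a1823 a424 a1832 a1816 a1833 a371 i22 i67 (k8 i747 i269 i2153 a1850 i526 i488 a989 a1959 (k8 i347 a1788 a107 a73 a453 i2030 i1049 a1871 (k2 i1392 i625 (k1 a1605 k0)))))) (by decide +kernel)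
def a1961 : PP 8 4 T 0x2001000000000000004000000100000400000000000000000200000000040001060 := rS 0x33469103b214b2ca14af47cad57954a0332613c30572586d7e6b78b047ad21594c061182b94120e38c342e6e (k8 a1955 i969 a357 i57 a1848 i342 a424 a17 (k8 a1755 i24 a1816 a371 a1807 a335 a44 a1958 (k8 a1421 a1878 a1960 i486 a1925 a437 i1272 i229 (k8 i2110 a467 a1422 i2350 i1314 a1917 a1589 i256 (k8 a1879 a508 a1949 a1952 a362 a877 a380 a1881 k0))))) (by decide +kernel)
def a1962 : PP 8 4 T 0x2002002000000000004000000100000400000008000000000200000000040008060 := rS 0x4ea7cce871c960f05564a08ae4b1989498b70d860387f28a068ad365a984ec51b8fc7a435094c061182b95460938c355e4f (k8 a74 a427 a357 i57 i342 a1823 a424 a17 (k8 a1755 i24 a1816 a1833 i41 a365 a6 a376 (k8 a49 a76 a567 a1905 a1917 a410 i1860 a1685 (k8 a1913 a377 i1232 i781 i721 i229 i2209 i2110 (k8 i486 a1925 a196 i2411 a1422 i1440 a1915 i1852 (k4 a358 i544 i1076 a544 (k1 a1864 k0))))))) (by decide +kernel)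
def a1963 : PP 8 4 T 0x2000001000000000000000040000000000000008001000000200000000048000160 := rS 0x27899e131154d8e45297a28f85ad231874941915a8476a9089c61a89 (k8 i1317 a357 i57 a1755 a1832 a435 a1833 a371 (k8 i67 i269 i781 i488 a377 a329 a1917 a80 (k8 i1372 i256 i296 a828 a1654 a162 i1059 a398 (k2 i1768 a127 k0)))) (by decide +kernel)
def a1964 : PP 8 4 T 0x2002000000000000404000000100000400000008000000000204000000040008060 := rS 0x70c48c8dd749d4ba654c67160f4b063600717a7f28b4d42531daa60aa386ab4d6112bb24aa4c2592406330c06de2af308242ee5 (k8 a424 i969 i342 a397 a427 a1962 a1963 a437 (k8 i2110 i24 i1008 i486 a440 a1422 i2411 a1925 (k8 a1755 a1421 a420 a357 a1823 a17 a1832 a435 (k8 a1816 a1833 a1917 a1685 a1913 a1921 a377 a1929 (k8 i1319 a1915 a1923 i1231 i544 a1811 i2716 i1243 (k4 a544 a1919 i1916 a260 (k2 i1519 a419 (k1 i1879 k0)))))))) (by decide +kernel)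
def a1965 : PP 8 4 T 0x2000001000000000005000000100000010000008041004000200000110004408020 := rS 0x95189fc43112c24ceeb91a8ac8653178460ae5518946618649309649 (k8 i1008 i486 a440 i2411 a437 i2110 i347 a1823 (k8 a424 a17 a1755 a1829 a1816 i41 a371 i355 (k8 a1575 a1852 a1020 a1952 a373 i723 i844 a1332 (k2 i1058 i2033 k0)))) (by decide +kernel)
def a1966 : PP 8 4 T 0x2002000000000000404000000100000400000008000000000200000000040008060 := rS 0xcc5aa146859332e97ec116b497a290e8f856a182aae1a8927ab4d6112b86036f1579841217 (k8 i969 i342 a397 a427 a1962 a1963 a437 a1925 (k8 a1755 a1421 a420 a74 i1317 a357 a1817 a17 (k8 a1833 a371 a1964 i2907 i256 i1411 a377 i1040 (k8 a44 a1878 a391 a1965 i544 i542 a1949 a1692 (k2 a1881 i1949 k0))))) (by decide +kernel)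
def a1967 : PP 8 4 T 0x2000000000000000004000000100000400000000000000000200000000040001060 := rS 0x664410a342c998523e16b49834365154664c0c15c961b789255e617e2242e6e1580c230572a8c120e (k8 a1848 i342 a1823 a424 a17 a1755 i24 a371 (k8 a1955 i969 i1317 a1961 a397 a427 i1008 a1962 (k8 a1963 i486 a1925 a437 a440 i2110 a1422 a1966 (k8 a105 i1245 a393 a329 a1917 i256 a1965 i544 (k4 i542 a1949 a362 a1881 (k1 a380 k0)))))) (by decide +kernel)
def a1968 : PP 8 4 T 0x20000000000000000000000000000000000000000000000002000000000000000a0 := rS 0x6f (k2 a1758 a1786 k0) (by decide +kernel)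
def a1969 : PP 8 4 T 0x2001000000000000400010090008040400010504000000000200000000000808020 := rS 0x319c932931781d2aa982aacfe53 (k8 a1816 a1871 a1817 a17 a1832 a476 a1968 a1829 (k4 i1718 i1112 a1814 i540 (k1 a1047 k0))) (by decide +kernel)
def a1970 : PP 8 4 T 0x2001000000000000400010010000000400010504004000000200000000000808020 := rS 0x126731781d2aa982aacfe53 (k8 a1816 a1871 a1817 a17 a1832 a476 a1968 a1829 (k2 a1047 a1109 (k1 a1814 k0))) (by decide +kernel)
def a1971 : PP 8 4 T 0x2001002000000000404010000000040400000404000000204200000001000808120 := rS 0x6b6724514981ca6e2a624fd095a7d1021cfe951594c02a963aac7ac16920cea23429653a671ab24904d82b144f4566970ae295b2b94e07 (k8 a1968 a1825 a1818 i500 i1928 i502 i499 i1971 (k8 a381 a76 a49 a17 i528 a440 i1124 i1116 (k8 i542 a544 i868 a1949 i245 i1011 a374 a1807 (k8 a44 a335 a1817 a356 a1832 i2 a1816 a371 (k8 a476 a1871 i856 i2032 i1501 i1313 a439 a1969 (k8 a1970 a51 a412 a1837 i540 i539 a1886 a1896 (k2 a1862 i1978 k0))))))) (by decide +kernel)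
def a1972 : PP 8 4 T 0x2001002000000000004001000100040400000004000000200200000101004008020 := rS 0x2619e623ea7d74ca669715c271baa546c16901c12833d9e4ea852c95ceeb919b953a671a85832c9241349705 (k8 a17 i486 i528 a440 i1124 i229 a437 i1116 (k8 i542 a544 a424 i285 a1045 a1852 i502 i868 (k8 a1949 i1011 a353 a418 a374 i342 a1968 a1807 (k8 a44 a1823 a1832 a376 a76 a1818 i499 i1971 (k8 a1971 i626 a551 i1328 a1867 i1951 i540 a1868 k0))))) (by decide +kernel)
def a1973 : PP 8 4 T 0x2001001001000000044000040005040405405500001000000000000001000810160 := rS 0x9114d1537151f189a435 (k8 i1116 a1807 a1605 a1917 a51 a412 a80 i257 (k2 a1886 a1953 k0)) (by decide +kernel)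
def a1974 : PP 8 4 T 0x2001000000000000004000000100000400000004000000000200000000080008020 := rS 0x1489e26b62e2b90e9f78a74ee67428d4ea972cb24f27b0b120326126a0ca0a715a84a63b17aa4220763c15ca090ec356a57128b4961b (k8 i271 i486 i1303 i350 i502 i1395 a81 i10 (k8 i342 a424 a17 a356 a1968 a1755 a1832 a1829 (k8 a435 a1816 a1833 a371 a1825 a1620 a374 i528 (k8 i1311 i229 a440 a437 a418 a353 i1124 i868 (k8 a1813 i1011 i1116 a1949 i542 a1852 a544 a1972 (k8 a1888 a1894 a1973 i499 i500 a5 i1765 i1928 (k1 a127 k0))))))) (by decide +kernel)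
def a1975 : PP 8 4 T 0x402000000000000041000011000808010404040514000000000000000500000000000 := rS 0x450fa89882652697 (k8 i1898 i1718 i1112 a680 i283 a73 a120 a1698 k0) (by decide +kernel)
def a1976 : PP 8 4 T 0x2002000000000041500019000004010401054104004000000204000100405008020 := rS 0x136904433e2a64390bd52793b92d3a671a85a0a87 (k8 i856 a17 a437 i1116 i542 a544 i486 a1852 (k8 i1933 a1832 a1829 a1907 a1902 a417 a454 a120 (k2 i2046 i1443 (k1 i855 k0)))) (by decide +kernel)
def a1977 : PP 8 4 T 0x402000000000000040000000000800000000405000008000000000000500000000000 := rS 0x8c0e122884dc568a97 (k8 i1898 a410 a51 a412 a120 a1886 i282 a406 (k1 a42 k0)) (by decide +kernel)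
def a1978 : PP 8 4 T 0x2100000000000000000000010000000000020000000014000000000000000000000 := rS 0xab11 (k2 a73 i1541 (k1 a362 k0)) (by decide +kernel)
def a1979 : PP 8 4 T 0x2002000000000001400009000900000401450104000000200204000120404008020 := rS 0x9e31ae4ee331ab24f61624064e24d7292d2ad35781c1211179e62687 (k8 i856 a54 i1933 a1829 a1755 i342 a1968 a427 (k8 a1917 a1908 i486 a424 i528 i1359 i229 a440 (k8 a437 i1890 i1124 i1116 i285 a1852 a1045 a1977 (k2 a1976 a1975 k0)))) (by decide +kernel)
def a1980 : PP 8 4 T 0x2002000000000041500019000800010401450104000002000204000120404008020 := rS 0x278c6773d858e219268cc062f729e62687 (k8 i856 a54 i1933 a424 a1829 i24 i285 a1422 (k8 i229 a662 a437 i1890 i712 a1977 a1976 a1975 k0)) (by decide +kernel)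
def a1981 : PP 8 4 T 0x2000000000000000200000000000000400000000000000004200000000000000000 := rS 0x9a49 (k2 i1124 i2411 (k1 a440 k0)) (by decide +kernel)
def a1982 : PP 8 4 T 0x2002000000000001400000000900000400000004000010000204000000080008020 := rS 0xa2553fae684c13ea14ea2329c15caa355ad49e57128b55ac92586d06b614255a6af03824222f (k8 a1829 a1755 i342 a1968 a427 a1917 a1908 i242 (k8 i243 i1435 i271 i486 a1981 a420 i1303 i350 (k8 i502 i1269 i1395 a1817 a1823 a424 a17 a1816 (k8 i245 a1851 a1949 a1978 i1305 a393 a351 a133 (k2 a1980 a1979 (k1 i2037 k0)))))) (by decide +kernel)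
def a1983 : PP 8 4 T 0x2000002000000000004000000100000400000004000000000200000000080008020 := rS 0x124890c131723510924ce5866a5450d365a987e3d218bc220782b954609169855efc19b24961b (k8 i271 i486 a1981 i285 a1974 a427 a397 i1303 (k8 i342 a1823 a424 a17 a1968 a1755 a1829 i41 (k8 a365 a6 a567 a1905 a1917 i242 a1908 i1968 (k8 a1982 i544 i868 i723 i355 a1575 a440 i526 (k2 i2109 a1272 (k1 a1020 k0)))))) (by decide +kernel)
def a1984 : PP 8 4 T 0x2000001000000040405000050100000000000000400000000000000000000008000 := rS 0xbd (k2 a1921 a1929 k0) (by decide +kernel)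
def a1985 : PP 8 4 T 0x2002001000000001404080000000000400000004000014000208000010080008020 := rS 0x330d5062b0886d0b05 (k8 a17 a1949 i271 a1755 a371 i1436 a1881 a1943 (k1 i542 k0)) (by decide +kernel)
def a1986 : PP 8 4 T 0x2000000000000000404000000100000400000004000010000200000000080008020 := rS 0x384dc64e49049a74ce373b8d4f27b0b120e21926950fe51a72096ec51433686ba5e8f94e3d692fd827d429d4a60303b1e0ae5558261ab52b8955ead7e0cd924b0d9ac229f1da1de22b (k8 a371 a1983 a1894 a435 a1888 a1755 a1421 i271 (k8 i486 a1981 i285 a1974 a420 a427 i350 i502 (k8 i1395 a81 i342 a1817 a424 a17 a356 a1968 (k8 i24 a1816 a1851 a1949 a1978 i1305 a1878 a1984 (k8 a335 a67 a1917 a1589 a391 a86 i1949 a1985 (k8 i1841 i1928 i257 a379 a374 i925 a1915 a1422 (k8 i229 a662 a440 a437 i1890 a353 i1116 i712 (k8 i1837 i542 a544 i1639 a1950 a1686 a25 i1180 (k2 a419 i297 k0))))))))) (by decide +kernel)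
def a1987 : PP 8 4 T 0x2000000000000000404000000100000400000004000000000200000000080008020 := rS 0x19e278b20872311f061a44c60a746a511092444672c10c0ec782b94121d57ab5f8336492c366b08a7de23b (k8 a435 a1983 a1888 a1755 a1421 i271 i486 a1981 (k8 i285 a1974 a420 a427 i10 i342 a424 a17 (k8 a356 a1968 i41 a1986 i544 i604 i868 i723 (k8 i607 i355 a544 i1574 a440 a1984 i526 a1917 (k4 i1042 i2114 a1942 a429 (k2 i735 a368 (k1 a1402 k0))))))) (by decide +kernel)
def a1988 : PP 8 4 T 0x2000000000000000800000000000000000000004080000000000000000080000000 := rS 0xe2738aae0c50d (k4 a81 i545 i546 a51 (k2 a171 i2898 (k1 a389 k0))) (by decide +kernel)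
def a1989 : PP 8 4 T 0x2002001000000000804000000000000400000004000000000208000010080008020 := rS 0x20c3667 (k4 a1988 i271 i1436 a1954 k0) (by decide +kernel)
def a1990 : PP 8 4 T 0x12000001000000005000015000005004405010504000000010008000020004000020 := rS 0x1cc6536901b9c8f3153d920e2191d92cfe82 (k8 i257 i925 i486 a435 i229 a662 a440 i1890 (k8 a1698 a353 a389 i1837 i2046 i1180 a25 i297 (k1 a419 k0))) (by decide +kernel)
def a1991 : PP 8 4 T 0x12000001000000000004015010001004400000004000014000208010020004008020 := rS 0x1b8e462182633e9cc53ea14eac782b9466c94f8ed0e2b3b92c4ecd (k8 i1968 i13 i486 a1852 a371 a1894 a435 a1888 (k8 a1981 i285 a424 a17 a356 a1851 a1949 a1978 (k8 i1841 a379 a3 a1990 i526 i1041 i2114 i1044 (k1 a1426 k0)))) (by decide +kernel)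
def a1992 : PP 8 4 T 0x2000000000000000004000000100000400000004000000000200000000080008020 := rS 0x440fa583fa096e285ca746a671f29da49360d0d7eca43bc592ad57985f84b0d8ac220782b95460986ad4ae25 (k8 i350 i502 i1395 a81 i342 a1823 a424 a17 (k8 a1968 a1755 a371 i271 i486 a1974 a397 a427 (k8 a420 a1981 a1983 a1894 a1987 a396 a105 i1245 (k8 i1367 a393 a67 a1917 a1988 i355 a544 a1575 (k8 a1989 i1928 i257 i925 a1991 i1441 a403 a426 k0))))) (by decide +kernel)
def a1993 : PP 8 4 T 0x2001000000000000000000000000000000000008000000210010000000080400020 := rS 0x8a98510490d18c32a9 (k8 a1832 i229 i1320 a437 i747 i270 i1312 a337 (k1 a438 k0)) (by decide +kernel)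
def a1994 : PP 8 4 T 0x2001000000000000004000000100000400000000000000000200000000080008020 := rS 0x664410a342c99994295f9acaabd1f3c55a891998436af31060964c0ba0d823d16941a4411594c061103c15ca092b894e26e (k8 a1992 i57 i350 i502 i342 a424 a17 a1968 (k8 a1755 i24 a1816 a371 i22 a1807 a1620 a329 (k8 a335 a44 a374 i968 a1993 i73 i526 i527 (k8 i2350 i269 a1731 i2110 i231 i2859 a1818 a1917 (k8 a1589 a1422 a1421 a1878 i257 a1879 a1965 a508 (k4 i542 a1949 a362 a1881 (k1 a380 k0))))))) (by decide +kernel)
def a1995 : PP 8 4 T 0x2002000000000040400000000100000000000000000011500000000000080008000 := rS 0x286c13f1f60ae55195c4aad (k8 a420 i350 i502 a1823 a424 a17 a1978 a1915 (k2 i1305 a133 (k1 a393 k0))) (by decide +kernel)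
def a1996 : PP 8 4 T 0x2002002000000000000000000100000400000008000000000200000000080008020 := rS 0x5c8d442672c14526638a0b4aa181993192954492da61b658fc8653018bc220782b9546090eabc9261 (k8 a397 i1008 a427 i10 i342 a1823 a424 a17 (k8 a1968 a1755 a1829 i24 a1816 i41 a6 a1905 (k8 a1843 a1917 i486 i1318 a1908 a1981 a440 i285 (k8 i526 a1422 i1040 a120 a51 a115 i527 a1995 (k4 i544 i723 i355 a1575 (k1 a1272 k0)))))) (by decide +kernel)
def a1997 : PP 8 4 T 0x2000001000000040005100050100000000000000400000000000000000000008000 := rS 0xa1329caa3 (k4 a1823 a424 a1929 a393 (k1 a105 k0)) (by decide +kernel)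
def a1998 : PP 8 4 T 0x1002002000000000000400510001000014000000000454000000000000000000008000 := rS 0x45e86c85d2ad5ead (k8 a420 a427 a1817 a391 a1902 a86 a405 a447 k0) (by decide +kernel)
def a1999 : PP 8 4 T 0x2002001000000000004000000100000000000008000000000200000000088008020 := rS 0x226272e0dd14c94eb3e2d43651952a933aafcfb106096452bd5cc54c6671088c7c88250ad520782b941257129c55ead358453e3b (k8 a435 a1888 a1755 a1421 a420 a427 i57 i350 (k8 i502 i342 a424 a17 a1968 a1832 a371 i269 (k8 i270 a1843 i2153 a1850 i2307 i488 a337 i1403 (k8 i1411 i2157 i604 i1306 a107 a1978 a1878 a453 (k8 i1321 i1057 i1049 a1998 a105 a447 a368 a399 (k4 a405 a388 a1465 i491 (k2 i786 a5 (k1 a127 k0)))))))) (by decide +kernel)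
def a2000 : PP 8 4 T 0x2100000000000000002000010000000000000000000004000040000000080000000 := rS 0x164f820 (k4 i1306 i1305 i723 a1978 k0) (by decide +kernel)
def a2001 : PP 8 4 T 0x2000001000000000405001050100000400000008001004000200000100004008020 := rS 0x10a342c998528366a6d74395e8f87ad2158ec0f0555824d611448602e4c2592486bf (k8 a1878 i41 i1008 i486 a440 i707 i526 i1318 (k8 a1755 a1421 i342 a1817 a17 a1968 a435 a371 (k8 a1984 a335 a1917 a1589 i2114 a391 a828 i1949 (k4 i1439 i257 a1965 i544 (k2 i542 a1949 (k1 a1881 k0)))))) (by decide +kernel)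
def a2002 : PP 8 4 T 0x2000000000000000004000000100000400000000000000000200000000000001020 := rS 0x664410a342c99852834d8e47cd2a1b29822d2a85c303326325124b0dbc492ad57985f86e2bad44a1d0f0ac86031d8440f0572a8c120e (k8 a1848 i342 a1823 a424 a17 a1968 a1755 a435 (k8 i24 i41 a371 a1967 i10 i350 i1395 i502 (k8 a1992 a1994 a397 a427 a420 i1008 a1996 a1999 (k8 i486 i1318 a1981 a440 i285 i526 i707 a1422 (k8 i1040 a2000 a2001 a105 a393 a1917 i2114 a828 (k8 i1439 i257 a1965 i544 i542 a1949 a362 a1881 (k1 a380 k0))))))) (by decide +kernel)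
def a2003 : PP 8 4 T 0x2001000000000000000000000100000400000004000000000200000004048001020 := rS 0x2dd064e42ab052653cb2526871995a23141218cc267268d494490c90456a172d3d4e2d0e8f5828129a5552b565ab9a43f048440e5961415560e (k8 a1848 a1817 a17 a2002 a487 a1968 a1755 i342 (k8 i375 a1807 a1917 a1826 a1244 a1832 a476 a1816 (k8 i1862 a44 a335 a341 a329 a1825 a13 a424 (k8 a1833 a371 i22 i67 i747 i269 i2211 i526 (k8 i2307 i1047 i2306 a1872 a438 a38 i347 i287 (k8 i927 a115 i504 a1478 i1580 i275 a1295 i1866 (k4 i1582 a197 a125 i2031 k0))))))) (by decide +kernel)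
def a2004 : PP 8 4 T 0x400000000000000002001000000000001400000080100000400000004040010000200000000044008020 := rS 0x21c52915b20ca0720b065271667c653e8a4c0e53715311dd3a35008bd4623538b47b454ba5552b53aa1466b96492e0aab3e8804a5760875a407049fca6a1 (k8 a1833 a1816 a1871 i342 a1968 a1807 a341 a44 (k8 a1925 i347 a1849 i1502 a1817 a17 i486 a1981 (k8 a1261 i285 a1949 a1851 a1244 a1832 a476 i1900 (k8 a381 a335 a329 a1825 i245 a1823 a1829 i2 (k8 i355 a544 a1852 a1872 a51 a412 a1837 i540 (k8 i539 i1112 a52 i1979 a463 a19 a1892 a437 (k8 a1789 a1880 a374 i500 a1886 i1929 i856 a1896 k0))))))) (by decide +kernel)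
def a2005 : PP 8 4 T 0x20000000000000000000000004000400100040000000000a0005140100000000020 := rS 0x1369938180762f (k4 a1829 a435 i790 i789 (k2 a448 i1448 (k1 i2034 k0))) (by decide +kernel)
def a2006 : PP 8 4 T 0x2001002000000000000000000100000400000004000000000200000000040001020 := rS 0x4da6524635613d3a393d944aa4c2486112171a194cccd3e8804a752b92c36a1018ec5f4f538b43a3d60a5d527f29ad596ae690fc1211039658505558386e27 (k8 a76 a376 a1848 a1817 a17 a2002 a487 a1968 (k8 a1755 i342 i375 a1807 a1917 a1826 a1244 a1816 (k8 a1871 a1832 i1900 a44 a335 a341 a329 a1825 (k8 a13 a1829 a435 i24 a1833 a2003 i486 a1925 (k8 a1851 i347 a1849 i1502 i729 a2004 i38 i542 (k8 i1116 i358 a437 i1006 i229 i1620 i528 a1179 (k8 i235 i1905 a2005 a1301 a1240 i1621 a837 i1450 (k1 i2034 k0)))))))) (by decide +kernel)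
def a2007 : PP 8 4 T 0x2001002000000000000000000100000400000000000000000200000000048001020 := rS 0x8552a70e8f582cb40ab9a43f6101c120e0894c4e6e (k8 a2006 a76 a1816 a1755 a1848 i342 a1968 a2002 (k8 i375 a1807 a1917 i1862 a1826 a44 a335 a341 (k4 a1825 a1832 a1850 a1956 k0))) (by decide +kernel)
def a2008 : PP 8 4 T 0x2001002000000000000000000100000400000000000000000200000000040001020 := rS 0xa04c27860961b0bc34dc53573487ec2038241c11 (k8 a1755 a1848 i342 a1968 a2002 i375 a1807 a1917 (k8 a1816 a2006 a357 i969 a2007 i486 a437 i1272 (k2 i229 a467 (k1 i2350 k0)))) (by decide +kernel)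
def a2009 : PP 8 4 T 0x2001000000000000000000000100000400000004000000000200000000048001020 := rS 0x130841cc2 (k4 a2002 a1848 a1850 a2003 (k1 i1955 k0)) (by decide +kernel)
def a2010 : PP 8 4 T 0x2100000000000002000000000000000000000000000014000000000000000000000 := rS 0xab11 (k2 a380 a330 (k1 a362 k0)) (by decide +kernel)
def a2011 : PP 8 4 T 0x2001000000000000000000000100000400000004000000000200000000040001020 := rS 0xc69827a6c727b2895498490c2242e371a0c4ca66669f440253a95c961b5080c762fa7a9c5a1d1eb052ea93f94d6acb573487e090881cb2c282aac1cf1 (k8 a2008 a1848 a1817 a17 a2002 a487 a1968 a1755 (k8 i342 i375 a1807 a1917 a1826 a1244 a1816 a1871 (k8 a1832 i1900 a44 a335 a341 a329 a1825 a13 (k8 a1829 a435 i24 a1833 a2009 i486 a1925 a1851 (k8 i347 a1849 i1502 a2010 a2004 i38 i1505 i542 (k8 i1957 i1116 i358 a437 i1006 i229 i1620 i528 (k4 a1179 i235 a828 a2005 (k2 i2034 a1240 (k1 a837 k0))))))))) (by decide +kernel)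
def a2012 : PP 8 4 T 0x2001000000000000000000000100000400000000000000000200000000048001020 := rS 0x9c42a9538747ac165a055cd21fb080e0907044a66e (k8 a2011 a1816 a1755 a1848 i342 a1968 a2002 i375 (k8 a1807 a1917 i1862 a1826 a44 a335 a341 a1825 (k4 a1832 a1850 i1955 a1956 k0))) (by decide +kernel)
def a2013 : PP 8 4 T 0x2001000000000000000000000100000400000000000000000200000000040001020 := rS 0xa04c27860961b0bc34dcae6914c2207048387ec2 (k8 a2002 i375 a1848 i342 a1968 a1755 a1816 a1807 (k8 a1917 a2011 a357 i969 a2012 i486 a437 i1272 (k2 i229 a467 (k1 i2350 k0)))) (by decide +kernel)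
def a2014 : PP 8 4 T 0x1000000000000002002000000000040409000001100050000000000004004000200040000148008000 := rS 0x19c9f8ba6a32c84cc54ca2c381d439103e8960b4f11964c2af569fd4267252746ab95ad0946e5 (k8 a424 a1823 a393 a84 a351 i2211 i1906 i269 (k8 i2307 a1833 a1913 a420 a427 a397 a487 i245 (k8 a13 a17 i347 a1978 a107 i2030 a453 i781 (k8 i782 i1049 a117 i980 a1902 a260 a162 a405 (k2 a428 a463 (k1 a1481 k0)))))) (by decide +kernel)
def a2015 : PP 8 4 T 0x1000000000000002002000000000040409000001100050400000000004000000200040000148008000 := rS 0x19592565cd09caa324904ce4a (k8 i269 i2307 i22 i747 a1823 a424 a393 a351 (k4 a2014 i504 i1580 a1902 k0)) (by decide +kernel)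
def a2016 : PP 8 4 T 0x100000000000000200000000000000020a000000000040000000000000000000000010000000000020 := rS 0x4dc553319490e1123218c5c029d (k8 i1906 i2 a405 i982 i612 i1345 a1105 i1613 (k4 a42 i1937 a115 i1450 (k1 a422 k0))) (by decide +kernel)
def a2017 : PP 8 4 T 0x2000000001000000000000000000000000000000020000009200000000500000000 := rS 0x12c44ae74 (k4 i1049 i1580 a453 i347 (k1 a107 k0)) (by decide +kernel)
def a2018 : PP 8 4 T 0x100000000000000200200000000000040a000000000050000000000054000000000010000000008020 := rS 0x32572a9 (k4 a1832 i1250 a2016 a1902 k0) (by decide +kernel)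
def a2019 : PP 8 4 T 0x2002000000000000008000000100000400000004000000000200000000048008020 := rS 0x190305c8da84c132b2d7a97a2a987a63338846a4a2490402a972a8e9ebb11964a2a14ab4d5e3f03824222f (k8 a1829 a1755 i342 a1968 i375 a427 a1917 a1908 (k8 a1833 a1685 a487 i245 i1945 a13 a1823 a424 (k8 a1832 i2 i22 i747 i269 i2211 a1850 i2307 (k8 i487 a1918 a1811 a410 i1898 i1985 a1579 a2017 (k4 a2018 a393 a2015 a351 (k2 i1957 a1902 (k1 i982 k0))))))) (by decide +kernel)
def a2020 : PP 8 4 T 0x2002000000000040400000000100000400000004000010000200000000044008020 := rS 0x32c5d247386074c4b9339dc6a16388649a542980dca5103a545e7f51a84eab5279f4aead828cd924b (k8 i486 a1981 i285 a17 a420 a1925 a1978 a74 (k8 a1692 a1851 a1833 a1823 a1913 a1829 a1908 a1968 (k8 a1685 a424 i24 a1816 a1915 a1422 i229 a662 (k8 a437 i1116 i712 i542 a1045 a1910 a210 a377 (k4 a370 i2044 a19 i1549 (k1 a352 k0)))))) (by decide +kernel)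
def a2021 : PP 8 4 T 0x2000000000000040800000000100000000000000000000000000000000000008040 := rS 0x60d0dcaa3 (k4 a1823 a424 a105 i1245 (k1 a393 k0)) (by decide +kernel)
def a2022 : PP 8 4 T 0x2002000000000000008000000100000400000000000000000200000000048008020 := rS 0x4343a6e0ca85a6af1f81c1211 (k8 a1755 i342 a1968 i375 a427 a1917 a1833 i67 (k4 a2019 i1232 a357 a377 k0)) (by decide +kernel)
def a2023 : PP 8 4 T 0x2000000000000000000000000100000400000000000000000200000000040001020 := rS 0x268cc9254649b8ae4b0db2cfe5169abcc2fc5094c061103b954609071647ec2 (k8 a2002 i375 a487 a1848 i342 a1823 a424 a1968 (k8 a1755 i24 a1816 a1833 a2013 a397 a427 a1917 (k8 a1685 a1913 a2021 a2022 i486 a1925 a2020 a1981 (k4 a1915 i1008 i285 a1422 (k1 a440 k0))))) (by decide +kernel)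
def a2024 : PP 8 4 T 0x2001000000000000000000000000000000000000000000210010000000088000020 := rS 0xdc17 (k2 i66 i271 (k1 a1993 k0)) (by decide +kernel)
def a2025 : PP 8 4 T 0x2001000000000001008000000000000401000000000000000204000000080008120 := rS 0x19e911ca2937154f9893a77339bc6a162586d7342569d4fb10439fc53130ca5d97455b1709a2d57141a4a72094c02a90881e0aaba7a0c7a27 (k8 i1954 i1308 i1435 a13 a1817 a17 a1968 a1755 (k8 a1832 i2 a1816 i22 a1825 a1807 a1620 a1811 (k8 a329 i2350 i499 i500 a381 a1826 i1900 i229 (k8 a5 i1928 a1871 i856 a436 a73 a453 i1313 (k8 a439 a351 a2024 i486 a437 i1116 i968 i542 (k8 a1852 i1906 a1970 a1969 a51 a412 i539 a1837 (k2 a1886 i1979 (k1 a1896 k0)))))))) (by decide +kernel)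
def a2026 : PP 8 4 T 0x2000000000000000000000000100000400000000000000000200000000000001020 := rS 0xc514280b4aa18199319289249fc966ea106d96c15334d5aaf30bf07a2766a14ae250e8787e59610248653018bc220782b95460e (k8 a1848 a1823 a424 a17 a1968 a1755 a1829 i24 (k8 a1816 i41 i342 a2002 a487 i375 a2023 i10 (k8 i350 i502 i1867 a2010 i1954 i1308 a2025 a397 (k8 a427 a420 a1917 a1811 a2000 a2021 i2152 a393 (k8 a1982 i486 a133 i1008 i1318 a1981 a440 i285 (k4 i526 a1422 i1040 a1915 (k2 a120 i527 (k1 a51 k0)))))))) (by decide +kernel)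
def a2027 : PP 8 4 T 0x2001000000000000004000040000004000000000051000000000000000000018160 := rS 0x46114371cb2536624ba7cd63e7880476a982a9c7ad2 (k8 a1807 a335 a1825 a17 a1832 a435 i2 a1818 (k8 a1917 a1421 a1888 i1372 a1605 a412 i616 a1837 (k4 a1465 a1947 a419 a52 k0))) (by decide +kernel)
def a2028 : PP 8 4 T 0x2000000000000001054080080000000001000000000000200000000045540000000 := rS 0x14a1d6c83 (k4 a374 i500 i1684 i1929 (k1 i2032 k0)) (by decide +kernel)
def a2029 : PP 8 4 T 0x2001000000000000004000000200000400000000000000000200000000048008020 := rS 0xfe6f86144ef165cb246675279c513105a89d2b14668950af06298cae6a5d2b85653548458e7d2c8b43ad2039cd4267498d4c26510928924111b9594ad04aae8705 (k8 a17 a129 a1817 i222 i1285 a439 a424 i248 (k8 i22 i747 i269 a1850 a2017 i1392 i2211 i1365 (k8 i2307 a1833 i834 a1968 a1807 a341 a329 i604 (k8 i1325 a356 a1755 a1832 a1816 a371 a2027 i626 (k8 i625 i2324 i2306 i1789 a1421 i1869 i347 a2010 (k8 a438 a1042 a76 a1788 a1609 a337 a117 i1389 (k8 a453 i288 i612 a1710 a352 a332 a2028 a467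 (k2 a357 a35 (k1 i2044 k0))))))))) (by decide +kernel)
def a2030 : PP 8 4 T 0x2001000000000000808000000000000000000000000000000000000000000010140 := rS 0x1fabda4bf (k4 a396 a1807 a1826 i376 (k1 a1917 k0)) (by decide +kernel)
def a2031 : PP 8 4 T 0x2001000000000000800000040000000400000000000010000200000000044008020 := rS 0x1e4f61624064c24d4eae4ee671aa0c529743a7c7cf1158ed8ee516875a4c30481c227512a159a57828cd924b (k8 i486 a1981 i285 a17 a1925 a2010 a1949 i347 (k8 a1851 a1755 a1968 i222 a2030 a1807 a341 a329 (k8 a424 a356 a435 a371 a1818 a1917 a1888 a1894 (k8 i1372 i256 a1898 a1881 i542 a1852 a1710 a544 (k8 a1952 i1391 i229 a440 a437 a418 a353 a1973 k0))))) (by decide +kernel)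
def a2032 : PP 8 4 T 0x2001000000000005000080080005000401000504000000204200000000000000020 := rS 0x3918d20993c9ed0eb62e20c5ea9 (k8 a1832 a1829 a374 i499 i500 i1684 i1892 i1933 (k4 a1868 i2046 i540 i854 (k1 a1047 k0))) (by decide +kernel)
def a2033 : PP 8 4 T 0x2002000000000000000000011000000004400050504000000000000000000000000000 := rS 0x71 (k2 a117 a1698 k0) (by decide +kernel)
def a2034 : PP 8 4 T 0x2001000000000001054091080005004401010504001000044200054000000000120 := rS 0x4c0c9e0607b488e514984d98a2a873fc30e6b72894c023b538f5a407a2a5d52cf (k8 i1951 a1832 i1900 a381 a1968 a1807 a335 a1825 (k8 a435 i2 a1816 a2032 a577 a1880 a467 a35 (k8 i1683 a2033 a438 a412 i540 i539 a1837 a1895 (k4 i1940 i2035 i2046 i1041 (k2 i1854 i526 k0))))) (by decide +kernel)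
def a2035 : PP 8 4 T 0x2001000000000000000000000200000400000000000000000200000000040008020 := rS 0x4c281261a6e30ae4ee371aa75e0c533a7cd4ba5713d6a9319b350a253ab24ae4b0db0c3a2d65165a4ad3e88c1253548440ec782b955743 (k8 a129 a1817 a424 a17 a356 a1968 a1755 a1832 (k8 a1816 i222 i248 i1325 i1285 a1807 i604 a439 (k8 a329 a341 a2030 a2029 i486 a1925 a1981 a1851 (k8 i347 a1949 a2010 i285 i1367 a1788 i1389 a2031 (k8 i626 i625 a551 i2370 i1789 a1421 i1908 i355 (k8 a376 a1852 a1710 i1391 a2034 a357 i1008 a467 (k2 a440 i2350 k0))))))) (by decide +kernel)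
def a2036 : PP 8 4 T 0x2001000000000000000000000000000000000000000000000200000000088000020 := rS 0xa04d048648253 (k4 a1816 i22 i67 i2148 (k2 i526 a1620 (k1 a2024 k0))) (by decide +kernel)
def a2037 : PP 8 4 T 0x2001000000000000000000020200000000010000000000400000000000084000020 := rS 0x389ccc08828821530d (k8 a81 a1832 i1285 i1313 i262 i263 a1880 i2838 (k1 a1013 k0)) (by decide +kernel)
def a2038 : PP 8 4 T 0x2001000000000000800000040000000400000000000000000200000000080008120 := rS 0x2e4d371dcce911a8a50e9f1f3c4822b008ed8ee525895861116b480e8342b34b2502995c3705 (k8 a17 a2036 a1925 a1816 a1620 a508 a2010 a1949 (k8 a374 a1968 a1807 a329 a1755 a2030 i347 i486 (k8 a424 a356 a435 i2 a371 i22 a1818 a1917 (k8 a1888 a1894 i257 a1881 a1938 i542 a1852 a1951 (k2 a1952 i968 (k1 a1993 k0)))))) (by decide +kernel)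
def a2039 : PP 8 4 T 0x2001000000000000000000000200000400000000000000000200000000000008020 := rS 0x379842cb93b8dc32354ebc18a4d33a7cd4ba573350a752cad45a93619409ed2650255a7d1989592572586c3c53548440ec782b955743 (k8 a129 a1817 a424 a17 a356 a1968 a1755 a1832 (k8 a1816 a2035 a2036 i486 a1925 a1981 i347 i285 (k8 i1326 a2037 i343 a439 a1807 i1269 a1620 a2030 (k8 i1367 a329 i1398 a508 a1851 a1949 a2010 a2038 (k8 i626 i625 a551 i2370 i2350 i1789 a1421 i1908 (k8 i355 i229 a376 a1852 a1710 a437 i1391 i968 (k1 a2034 k0))))))) (by decide +kernel)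
def a2040 : PP 8 4 T 0x2002000000000000004000000400004000000000010000200200000000048008020 := rS 0x8c2286e3964a6cc46f4f9ade23e1e8b5a4011daa4220782824c2af39a84ce4a (k8 i269 i2307 a1833 i834 a427 a397 a369 a17 (k8 a1968 a1755 a1832 a435 i2 a1685 a329 a335 (k8 a1917 a567 a1421 a1888 a1963 a1932 a412 i616 (k4 a1837 a1465 a1947 a419 (k1 a52 k0))))) (by decide +kernel)
def a2041 : PP 8 4 T 0x2002002000000000000000000400000000000000000000000000000000000000040 := rS 0x3d (k2 a365 a567 k0) (by decide +kernel)
def a2042 : PP 8 4 T 0x2002000000000000000000000400000000000004004000000204000000008000020 := rS 0x3c0881c12af (k4 a427 a369 a1968 a1755 (k2 a1811 a1918 k0)) (by decide +kernel)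
def a2043 : PP 8 4 T 0x2000001000000000000000000000000000000000000200000000000050000010000 := rS 0x4f13 (k2 a5 i1765 (k1 a127 k0)) (by decide +kernel)
def a2044 : PP 8 4 T 0x2102000000000000000001000604000000000004454000000200000000058000020 := rS 0x1c62ab8440c9910d4597506291f0ac224a39a85e207 (k8 a1968 a2041 a1833 i834 i269 a1755 a371 a2042 (k8 i256 a1898 a2043 i491 a1590 a1947 i612 i288 (k4 i289 a337 i1407 a389 k0))) (by decide +kernel)
def a2045 : PP 8 4 T 0x2000000000000000004000000200000400000000000000000200000000048008020 := rS 0x6e5a95d3e6b7898ca2a7158ec220782824c2af27bf0b24d0c99d26350e994424a2490446e5 (k8 a424 i248 i22 i747 i269 a1850 a2017 i1382 (k8 i2211 i1365 i2307 i67 i526 i604 a2039 a74 (k8 a427 a397 a369 a17 a1968 a1755 a435 a371 (k8 i367 a2040 i487 a2041 a1421 a1888 a1959 a1692 (k2 a2044 a1963 k0))))) (by decide +kernel)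
def a2046 : PP 8 4 T 0x400000000000002102000000000000408000000001001400010044050000200201000004040000020 := rS 0x4f9ee3075668de20cf3b9fe2c394da1cf2856498a24295f0cde23e538b56ad286a0c56a1008ed521103824c2af (k8 a427 a397 a369 a1968 a1755 a1832 a435 i2 (k8 a1833 a371 a374 a65 a1685 i1397 a329 a67 (k8 a1917 a2041 i2175 i376 i256 a127 a1932 i612 (k8 i1608 a398 a69 a412 a1837 a352 i1723 a332 (k8 a368 a403 i1956 a380 a453 a419 a390 a33 (k1 i2046 k0)))))) (by decide +kernel)
def a2047 : PP 8 4 T 0x2002002000000000400000000200000000000000054000000001000000000018060 := rS 0x13e8b4c2222a9416ae4d6c95d0cda6bf530fc5ea982824c2af (k8 a427 a397 a369 a17 a1832 a1829 a6 a567 (k8 i1451 a1917 i2172 i368 i612 i1946 a1575 i1383 (k4 a1902 a14 a120 i283 (k2 i1938 i1113 (k1 a1947 k0))))) (by decide +kernel)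
def a2048 : PP 8 4 T 0x2102001000000000000000000241000000000000050000000205000000058000020 := rS 0x2ea0c527967ae50e6b64ae8670c3fa99a62b508440e0930abc9a19 (k8 i67 i526 a427 a397 a369 a1968 a1755 a1833 (k8 a371 a1917 a1811 a1913 a377 i2172 i368 i612 (k8 i1946 i1683 a1575 i1951 a1382 i275 a1898 a2043 (k1 a1590 k0)))) (by decide +kernel)
def a2049 : PP 8 4 T 0x2002000000000000408000000200000000000000004000000200000000048008020 := rS 0xe632374da799e948b2e592bb5f0cd4e3e788ed521103c1546670e994424a2490446e51eb053a35 (k8 i2211 i1906 i114 i1959 a424 i248 i22 i747 (k8 i269 a1850 a2017 i1382 i2307 a1823 a17 a1968 (k8 a1755 a1832 a435 a2047 a2048 i140 i2175 i376 (k8 i1944 i612 a1847 a352 a1902 a368 i1725 i1182 (k4 i1956 a33 i297 a419 k0))))) (by decide +kernel)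
def a2050 : PP 8 4 T 0x2000000000000000400000000200000400000000000000000200000000048008020 := rS 0x140de6282d0df87d488ace6a126864ce65251248223728f5829d1a89d8421 (k8 a1850 a2045 i1955 i2211 i1906 i114 i1959 a424 (k8 i248 i22 i747 i269 a2017 i2307 i67 i526 (k8 a1833 i834 a371 i912 i1325 a2039 a129 a17 (k4 a2049 i1320 i487 a2046 k0)))) (by decide +kernel)
def a2051 : PP 8 4 T 0x2000000000000000000000000200000400000000000000000200000000048008020 := rS 0x13e8b4c2222a753b8b621165cad44a6b649bcaeba19c30fe515334c7ebf650f584650ea4cce211a9289241508bc220782b9546c1049855e4f7e1f4b223 (k8 i248 i604 i1325 a2039 a74 a427 a397 a369 (k8 i114 a1823 a424 a17 a1968 a1755 a1829 a1833 (k8 i22 i747 i269 i2211 a1850 i2307 i1365 i1382 (k8 a2017 a2045 i1959 a2050 a396 i376 a1917 a1811 (k8 a1685 a1913 a377 i2172 i368 i505 a357 i612 (k8 i1946 i347 a1692 a1575 a352 a1609 i1383 a332 (k4 a453 a2033 a120 i283 (k2 i1938 i1113 (k1 a1947 k0))))))))) (by decide +kernel)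
def a2052 : PP 8 4 T 0x2000001000000000004000000000000400000000000010000200000010004008020 := rS 0x1e4f616240649a9d3b99d2235008458ee5649d4962542b34af054f8ed0e2b (k8 a371 a1894 a435 a1888 a17 a1925 a2010 a1949 (k8 i347 i486 a1851 a1981 a424 a356 a1755 i2 (k8 a1881 a1938 i542 a1852 a544 a1952 i229 a440 (k4 a437 a418 a353 a1953 k0)))) (by decide +kernel)
def a2053 : PP 8 4 T 0x2000000000000000004000000200000400000000000000000200000000040008020 := rS 0x7a3f143c54e11038255e1d5a95c365911c149efc (k8 a2039 a74 a17 i248 i604 a2051 a1925 a1692 (k8 i1381 a427 a369 a1968 a1755 i367 a2041 a2052 (k2 i256 i1840 (k1 a1811 k0)))) (by decide +kernel)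
def a2054 : PP 8 4 T 0x2000001000000005008000000001001405005500000000000000500000000000000 := rS 0x4613c37 (k4 i1956 i2046 a419 a33 k0) (by decide +kernel)
def a2055 : PP 8 4 T 0x2000001000000001108001000200001405011104000000200008000100004008020 := rS 0x1962ece1ca6ce5154eae526673b8d4f616240649a3b82b94670d3892cfebe (k8 i376 i1723 i486 i1359 a65 i285 a424 a17 (k8 a435 i528 i229 a440 a437 a418 i1116 i712 (k8 i542 i1365 a1710 i1906 a1698 a389 i1179 i297 (k4 a2054 a368 a454 a352 k0)))) (by decide +kernel)
def a2056 : PP 8 4 T 0x2000000000000000000000000200000400000000000000200200000000040008020 := rS 0xcf3bc58f7155cc60c49b1ba7498390c25526494485cdc873cc4922295f3c47ca716b4856a1008ec2207a1824c2af3eb24ea4b42ad49efc13b099a570d9644705 (k8 a17 i248 i604 a2051 a1925 a2010 a2053 i1954 (k8 a2039 a74 a1692 a1949 i486 a1851 a1981 i1325 (k8 a427 a397 a369 a129 a1968 a1755 a435 i2 (k8 a1833 a371 a1685 a329 a67 a1917 a2041 i376 (k8 i256 a1938 a127 a398 a69 a2055 i969 i1317 (k8 i1008 i1321 i1057 a437 i296 a440 i1646 i1044 (k8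 a828 i527 a419 i1457 a51 a390 a447 a332 (k2 a368 a2054 k0)))))))) (by decide +kernel)
def a2057 : PP 8 4 T 0x2000000000000000000000000200000400000000000000000208000000040008020 := rS 0xcb17670e536724ea4cce771a9bcf616241c4324d2a1fd0e7986c48ba9141b2c52be788aca601018ec22e5a19f4ea8519b24961d5a93df82761334ae1b2c88e0a51 (k8 a2056 a17 i248 i604 a2051 a1925 a2010 a2053 (k8 i1954 a2039 a74 a1692 i1381 i486 a1981 i285 (k8 a1949 a1851 i1325 a129 a424 a1755 a435 i24 (k8 i2 a1816 a371 a6 i376 i256 a396 a1898 (k8 a1938 a2043 a127 a1590 a398 a69 i1723 a1915 (k8 a1422 i229 a662 a440 a437 a418 i1009 i1116 (k8 i712 i542 i1365 i1906 a1686 i1179 i297 a2054 (k2 a368 a454 (k1 a352 k0))))))))) (by decide +kernel)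
def a2058 : PP 8 4 T 0x2000000000000000000000000200000400000000040000000200000000040008020 := rS 0x48a7cf27b4c121104d8ab3c5a933bae53a3517984fac93a92d0acd5f9bce70c0ead4ae1b2c88e0a4f43ae94c3d61304fed31fabc0e097e04546a1 (k8 a1833 a1823 a1755 a2039 a369 a1968 a427 a2057 (k8 a1917 a1913 i114 a2053 i1959 a1811 i368 i1683 (k8 a74 a17 i248 i604 a2051 a1925 a1692 i1381 (k8 a377 a370 a357 i1451 a2010 a1949 i486 a1851 (k8 a1981 i1325 a397 a1829 i355 a544 a1575 a1852 (k8 i1365 i1383 i1951 a2033 a1806 a120 a440 i283 (k4 a418 a353 i1113 i1110 (k1 i2046 k0)))))))) (by decide +kernel)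
def a2059 : PP 8 4 T 0x2000000000000000000000000000000400000000000000000200000000040001020 := rS 0x18d95142a93092180b8b46831331fda63f2895c365911a84a6030881d460957bf1480e (k8 a1848 a2026 a2039 a427 a369 a1823 a1968 a1755 (k8 i24 a1816 a1833 i248 i604 a2051 a1925 a2056 (k8 a2057 a1917 a1913 a2058 i1505 i542 i1384 i1116 (k8 a437 i1006 i229 i1620 a1806 a1915 a51 i545 k0)))) (by decide +kernel)
def a2060 : PP 8 4 T 0x2000000000000000108001000200001405011004000000200008000000084008020 := rS 0x169d496cd2c95e0af1 (k8 a6 a17 a1925 a487 a2010 i486 a1851 i1303 (k1 a2055 k0)) (by decide +kernel)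
def a2061 : PP 8 4 T 0x2000000000000000008000000200000400000000000000200208000000084008020 := rS 0x19e773dc5a30b98a8dcc4184e8e4989549a24926e439e6249114a0c56011dd0cc2c93ea144a7525ad49efc13b34b25782bc596be (k8 i376 a396 a6 a17 a1925 a487 a2010 i1954 (k8 a2039 a74 a1692 i486 a1851 i347 i1867 i1326 (k8 a1981 a397 a129 a435 i2 a371 a374 i257 (k8 a1938 a127 a398 a69 a2060 i1008 i1318 i1321 (k8 i1057 a440 i296 i1646 i526 i527 i1044 a51 (k4 i1405 a419 a447 a390 (k2 a332 a368 (k1 a2054 k0)))))))) (by decide +kernel)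
def a2062 : PP 8 4 T 0x2100000000000008100000000000000000000000040000000000000000000000000 := rS 0xcb17 (k2 a368 a454 (k1 a352 k0)) (by decide +kernel)
def a2063 : PP 8 4 T 0x400000000000012102000000000005108001000001005405010504000000502008400000000000000 := rS 0x4d1c8707f2cbc596be3d9e4e24f (k8 a74 i749 a353 a418 i376 a396 a6 a487 (k4 i1723 a2054 a1686 i297 (k1 i1179 k0))) (by decide +kernel)
def a2064 : PP 8 4 T 0x400000000000012102000000000005108001000001005401010504000000102208000000000800020 := rS 0xe4828a8a23113430aca63b549855e27789e4e24f (k8 a74 i749 a353 a6 i1954 a427 a397 a1832 (k8 a435 a1816 a371 a2063 a69 a1001 a127 a561 (k2 i257 a389 (k1 i923 k0)))) (by decide +kernel)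
def a2065 : PP 8 4 T 0x400000000000012102000000000005008001000001004401010504000000102208000000004000020 := rS 0x39a2132821c0a232900b1c43201018ec9ec925bc54e37 (k8 i1956 i140 a6 i486 a1981 a74 a435 i24 (k8 i2 i1006 i749 a437 a2064 a25 a1938 a419 (k4 i257 i1936 i296 i924 (k1 a1013 k0)))) (by decide +kernel)
def a2066 : PP 8 4 T 0x12000000000000000008000000200000400000004040000100208000000004008020 := rS 0x11538c60fc392a9cc304c248dd9e933ba746a53018ed52e5a19855e33649f50a253a92d9ab52c95e0a4f7e3c596be (k8 i376 a396 a6 a2039 a74 a17 a1925 a487 (k8 a1692 a2010 i486 a1851 i347 i1867 i1326 a1981 (k8 i285 a427 a397 a129 a424 a1832 a435 i24 (k8 a1816 i355 a544 a1852 i1365 a2062 i1956 a2065 (k8 a440 i526 i836 a1422 i2114 a1915 a419 i799 (k2 a561 a389 k0)))))) (by decide +kernel)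
def a2067 : PP 8 4 T 0x2000000000000000008000000000000400000004000000000208000000004001020 := rS 0xe3153f460aa393992430171b8d12a313314c063b17aa5566157bf21a572cbc596be28879480e (k8 a1848 a2026 a2059 a2061 i376 a396 a6 a487 (k8 a1925 a81 a2039 a427 a397 a1817 a1832 a1829 (k8 a435 i24 a1816 a2066 i1505 i1673 i542 i1957 (k8 i1116 a437 i1006 i1091 i2114 i1620 a419 a1915 (k2 a561 i800 (k1 a389 k0)))))) (by decide +kernel)
def a2068 : PP 8 4 T 0x2000000000000000008000000000000400000000000000000208000000004001020 := rS 0x898a50c833f15498493714596bb5f29de22b2980dca617e2903c336492c4ecd2c95e0a0e (k8 a1848 a17 a1925 a487 a2010 i1954 i486 a1981 (k8 i285 a2059 a2026 a2039 a397 a424 i24 a1816 (k8 a371 a6 i140 i376 i1944 a396 a2061 a2067 (k8 i1008 a440 a1422 a1915 i926 i1723 i257 a69 (k1 a127 k0))))) (by decide +kernel)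
def a2069 : PP 8 4 T 0x2000000000000040000008000800002000400000000000000000000500000000000 := rS 0x8aa24e499 (k4 i1111 i854 i283 a417 (k1 a120 k0)) (by decide +kernel)
def a2070 : PP 8 4 T 0x2000000000000000008000000000000400000000000000000200000000004001020 := rS 0x9e8c2459e9d338b4ee35379e4f616240649a5435c4cba875d0a16c81a2a0d4cd35f8fd9a75428f4b2a1018bc220782b95820930abdf8a4868784a5719b24960e (k8 a1848 i486 a1981 i285 a1925 i347 a2059 a81 (k8 a2026 a2039 a427 a397 a369 i114 a424 a17 (k8 a1968 a1755 a1829 i24 a1833 a487 i1959 i1867 (k8 a1851 a2010 a2068 i1451 a1917 a1811 i1435 a410 (k8 i1860 i243 i242 i368 a982 i1930 a54 i1946 (k8 a460 a1422 i229 a440 a437 i1890 a353 i1008 (k8 i1116 i712 i1303 i542 i1906 a2062 a2069 a406 (k2 i2046 a33 k0)))))))) (by decide +kernel)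
def a2071 : PP 8 4 T 0x12000000000000000004000000200000400000004000000002208000100004008020 := rS 0x4eae526671aadc2c285a864b20382b949ead2b8cd924b78a9df807 (k8 a1968 a2039 i367 a2041 i486 a1981 i285 a1925 (k8 a420 a74 a424 a17 i24 i868 i1006 a1692 (k8 a2052 a437 i1928 i1116 i542 i1365 a1710 a544 (k1 a1991 k0)))) (by decide +kernel)
def a2072 : PP 8 4 T 0x2000001000000000004000000000000004000000000015020000000000000018000 := rS 0x8c2284e5c66a160a6b (k8 a1421 a17 a1949 a2010 a460 a1442 i531 a795 (k1 a52 k0)) (by decide +kernel)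
def a2073 : PP 8 4 T 0x2000000000000000004000000200000400000004000000000208000000084008020 := rS 0x2767a746a314108444678896072552885c304c248b4860363c15ca1d86894ae336492cd6114f8ed0ef153bf00e2b (k8 a371 a1968 a2039 i367 a2041 a1894 a435 a1888 (k8 a1755 a1421 i486 a1981 i285 a1925 i347 a81 (k8 i10 a424 a17 a356 i24 i41 i1303 a2071 (k8 a440 i526 i707 i528 a1422 i2114 a2072 a373 (k8 i544 i604 i723 a1942 a1332 i355 a544 a2062 (k2 i735 a1402 k0)))))) (by decide +kernel)
def a2074 : PP 8 4 T 0x2000000000000000004000000200000400000008000000000200000000004008020 := rS 0x2d1722233960aa4c2480c230572984ae336492d0ef153bf00e2b (k8 a371 a1968 a2039 i367 a2041 a1894 i486 a1981 (k8 i285 a1925 a397 a424 a17 a1755 i24 i1008 (k8 a440 a1422 a2072 i544 i604 a1575 i249 i1399 k0))) (by decide +kernel)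
def a2075 : PP 8 4 T 0x2000000000000000000000000000000400000000000000000200000000004001020 := rS 0x22058a7a159b1314af04c801e0fcde8778a9d867d1295c5611038255efc520383a1e (k8 a2059 i10 a1848 a2026 a2039 a427 a369 a1968 (k8 a1755 a371 a1925 i347 i1326 a2070 i367 a2041 (k8 a1894 a2074 a2073 a1811 i1307 i1308 i1385 i1840 (k4 a45 i1975 i3047 a128 (k2 a2052 a436 (k1 a426 k0)))))) (by decide +kernel)
def a2076 : PP 8 4 T 0x2000001001000000008100014400004000000008055000000008010150100000020 := rS 0x130794a2e5931265af866275dd3d5345 (k8 a80 a1832 a13 i1944 i1955 i2175 i376 a1579 (k4 a127 i612 a1710 i2040 (k2 a398 i1726 (k1 i1059 k0)))) (by decide +kernel)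
def a2077 : PP 8 4 T 0x1000000000001002000001001000001054020000000040005000000005000000000000151500400020 := rS 0x4da6472cf1353876a9 (k8 a1832 a435 a379 i2032 a3 i1876 i1143 a828 (k1 a162 k0)) (by decide +kernel)
def a2078 : PP 8 4 T 0x2000000000000000000000000000000400000000000000000200000000000001020 := rS 0x1329b4e0e588b84a8c8631766a144ac82ba1d3e6b61a2cba295ea5e8a6332965e315498f8ce4d1688446a7440d4dc4a248642e1a0f2b55e6104bf286a455b960ac70710456011daa42207 (k8 a1968 a1755 a1832 a435 i2 a371 i22 a1848 (k8 a356 a17 a424 a1817 a2026 a129 a2039 a369 (k8 a397 a427 a420 a2059 a2075 i66 i67 i747 (k8 i269 i271 i2211 i270 i2152 i2154 a1850 i1304 (k8 i526 i2307 a1843 i1365 a337 a2041 i604 a2017 (k8 i1320 a80 i1372 i1412 i2157 a2043 i491 a2076 (k8 a1421 a1888 a1894 a1959 a1947 i347 a1949 a2010 (k8 a405 i982 i612 i1100 a447 a2077 i1880 i1615 (k2 a828 i1943 (k1 a162 k0)))))))))) (by decide +kernel)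
def a2079 : PP 8 4 T 0x2000000000000000100000000000000800000000000010000000000000000809000 := rS 0x2418958cc5588c5e0a65 (k8 i1025 a17 a432 a28 i766 a352 a362 i1505 (k2 i502 i861 k0)) (by decide +kernel)
def a2080 : PP 8 4 T 0x2000000000000000000000000000000800000000000010000000000000004009020 := rS 0x2510951901624064464d01c4496e5 (k8 a424 i486 a28 i24 i874 i245 i229 a440 (k4 a437 a2079 i1125 a138 (k2 i2520 a107 k0))) (by decide +kernel)
def a2081 : PP 8 4 T 0x2000000000000000000000000000000800000000000020000200000000000000020 := rS 0x1249a3533888961b (k8 a1532 i486 i604 i2366 i2125 i875 a489 a440 k0) (by decide +kernel)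
def a2082 : PP 8 4 T 0x2000000000000000008000000000000000000000000000000200000000000001020 := rS 0x890a23291110e208e52090c023b08c462e7b3c9209a4b18894423507964368e (k8 a2078 a1532 a2081 a2080 i354 i726 i346 i985 (k8 i486 i874 a440 a353 a418 a432 a28 a1755 (k8 a435 i2 i41 i22 a468 a276 a1105 a107 (k4 a1041 a42 i250 a406 (k1 a54 k0))))) (by decide +kernel)
def a2083 : PP 8 4 T 0x4102000000000000000000000000200000000000010000000000000011001104800000 := rS 0x860791073110c968e5 (k8 a382 a164 a429 a107 a259 i288 i248 a1013 (k1 a81 k0)) (by decide +kernel)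
def a2084 : PP 8 4 T 0x102200000000000001000000000000001004005000040114000000000000000000000 := rS 0x4e4619f13 (k4 a1729 a569 a406 a794 (k1 a347 k0)) (by decide +kernel)
def a2085 : PP 8 4 T 0x2000000000000002080000000090000000040000000000000008000000000000000 := rS 0x5b2fd74a7 (k4 i140 i407 i1720 i1948 (k1 a530 k0)) (by decide +kernel)
def a2086 : PP 8 4 T 0x2200000000000002004000000110000000040000000000000408000001000015140 := rS 0x286bf5daa946c1633169f455eb2d5a6b (k8 a464 a445 a385 i1411 a80 a36 i1792 a132 (k4 i1426 a2085 a1834 i1679 (k2 a367 a106 (k1 a404 k0)))) (by decide +kernel)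
def a2087 : PP 8 4 T 0x2202000000000000010000000000000000000000000000000208000000040001020 := rS 0x10d5ba0cfb43892890b4f60b18a74540af4ba2b43a4452f1009ad9ac33f8449e5169aad96095288462160c8d44a7126c5e224732ab41e590da380ea1 (k8 a1833 a1968 a2078 a1532 a2081 a2080 a445 i1025 (k8 i265 a28 a432 i874 a662 i346 i354 i229 (k8 a437 i985 i726 a2083 i222 a385 a97 a1719 (k8 a1685 a74 a1755 a930 a2082 a2086 a464 i2 (k8 a6 i256 a1938 i931 a371 a2043 i1411 i1333 (k8 a80 a1816 a132 i1426 a59 i1602 a1660 a436 (k4 a395 i1594 a68 a537 (k2 a1590 a196 k0)))))))) (by decide +kernel)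
def a2088 : PP 8 4 T 0x2102000000000000000000000000000000000000000000000208000000040001020 := rS 0x105125bb35127da194544d355ab49eaf30a84a6a9039fcf6792412d2b4540af54a21188583235129c49b1704a44034f60b18d65688955925d14bc456116191ccac507964368e (k8 a2078 a1532 a2081 a2080 a277 i1025 i265 a2082 (k8 a1755 a371 a6 i256 a2043 i611 i766 a28 (k8 a362 i507 a132 i1426 a1160 i2 a1938 i222 (k8 a432 i874 a662 i346 i354 i229 a437 i985 (k8 i726 a2083 i1411 i1333 a80 a521 i486 a440 (k8 a353 a418 a930 a1968 a1832 a1816 a1833 a397 (k8 a427 a74 a420 a97 a1659 a1660 a1685 a395 (k4 i1594 i281 a2085 a537 (k2 a693 a108 (k1 a68 k0)))))))))) (by decide +kernel)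
def a2089 : PP 8 4 T 0x2100000000000000000000000000000000000000000000000208000000040001020 := rS 0x132735b98c9cac41a6d961d16aeda4a37e8e58c6b2b53d8aa90391cca7b3c9209655649bd874540a5c76bd5288462160c8d44a0f38934b21b8bc44125d088ad3e9114bc4028e (k8 a2078 i2 a6 i256 a1938 i1187 a371 a1755 (k8 a2043 i222 a28 a432 a1532 a2081 i874 a662 (k8 a2080 i346 i354 i229 a437 i985 i726 a2083 (k8 i1411 a435 i1372 i1333 a80 a2082 a1771 i611 (k8 i766 i486 a440 a353 a418 i1025 i265 a1968 (k8 a1832 a277 a1160 a362 i507 a132 i299 a2088 (k8 a1824 a1807 i1679 a329 a341 a1579 a828 a1898 (k4 a1626 i1582 i1353 a125 (k2 i758 a837 (k1 i2045 k0)))))))))) (by decide +kernel)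
def a2090 : PP 8 4 T 0x2002000000000000000000000000000000000000000000000208000000040001020 := rS 0x30546bf1131156410881c8e655288462160c8d44a0f38934b21b8bc451c3d04b2d5b04 (k8 a2089 a445 a385 i222 i20 a2078 a28 a432 (k8 a1532 a2081 i874 a662 a2080 i346 i354 i229 (k8 a437 i985 i726 a2083 i1025 i265 a1968 a1755 (k8 i22 a97 a2087 a1290 i2954 i1654 i1425 a1834 k0)))) (by decide +kernel)
def a2091 : PP 8 4 T 0x2000000000000000000000000000000000000000000000000208000000040001020 := rS 0x4ec71c268e6995b98cfb4341aa83a2d693f59aad65c113e911482486a1298045ea90881cfe47329ecf24825a54dea5108c42c191a894e24d8bc45860f2c86d1cf1408ad2e3b (k8 a435 i1372 a371 i1333 a6 a2078 a1532 a2081 (k8 a2080 a2082 a28 a432 i874 a662 i346 i354 (k8 i229 a437 i985 i726 a2083 a1771 a521 i486 (k8 a440 a353 a418 i1025 i265 a930 a1968 a1755 (k8 a1832 a1829 i2 a1816 a1833 i41 i222 i256 (k8 a1938 i1187 a2089 a385 a445 a2086 a2090 a1807 (k8 a329 a341 a1719 a1898 a106 i1596 i538 a537 (k4 a837 a1047 i2045 a828 (k2 i299 i1875 (k1 a1035 k0)))))))))) (by decide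 +kernel)
def a2092 : PP 8 4 T 0x2102000000000000005000000140000000000000000000000401000000000015040 := rS 0x156ad578258b4f (k4 a1160 a277 a369 a427 (k2 a420 a97 (k1 a1700 k0))) (by decide +kernel)
def a2093 : PP 8 4 T 0x2001000000000000400000000100000000040000000008400400000000080005140 := rS 0xaa56941a44f (k4 i1269 a1807 a1620 i1582 (k2 a1719 i498 k0)) (by decide +kernel)
def a2094 : PP 8 4 T 0x12000000000000000000000000000000000000010000000000200000000004000220 := rS 0x39a209ca9 (k4 a1832 i223 i262 i758 (k1 a1013 k0)) (by decide +kernel)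
def a2095 : PP 8 4 T 0x4102100000000000000105000000100000000040004010011400401000000080015140 := rS 0xcb7e958cca3 (k4 i241 a352 a362 a2092 (k2 a1988 a2093 k0)) (by decide +kernel)
def a2096 : PP 8 4 T 0x2000000000000000000000000000000000000000000000000208000000000001020 := rS 0x517eaa95acb8202582a3868787a530881cfe4732955926f5288462160c8d44a7126c5e22c307964368e (k8 a2078 a1532 a2081 a2080 a2082 a28 a432 i874 (k8 a662 i346 i354 i229 a437 i985 i726 a2083 (k8 a1771 i611 i766 i1025 i265 a930 a1968 a1755 (k8 a1816 i20 a2091 a81 i241 i1306 a2094 a2095 (k4 a385 a445 a1834 a97 (k2 i498 a1620 k0)))))) (by decide +kernel)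
def a2097 : PP 8 4 T 0x4012000001000000040000040040080010000000014001000000200100000040000020 := rS 0x4b450c6730e2845e11 (k8 a1755 a1829 a1833 a377 i718 a210 a389 a1602 (k1 a24 k0)) (by decide +kernel)
def a2098 : PP 8 4 T 0x2102001000000000000000000000000000000000000000000200000010040001020 := rS 0x9e2682862ec72c635974569537b0d8a9f3318544cb28b4d5e3f08a84ac55648254a21188583235129c49b178881d5aab60b908e6507964368e (k8 a2078 a1532 a2081 a2080 i1025 i265 a425 a408 (k8 a97 a420 a1968 a28 a432 i874 a662 i346 (k8 i354 i229 a437 i985 i726 a2083 i222 i611 (k8 i766 a362 a1833 a1755 a2096 a427 a1917 a1685 (k8 i505 a1834 a397 a352 a414 a277 a2082 a1771 (k8 a521 a371 a2043 i507 a132 i299 i1680 a2097 (k4 a1590 a68 i736 a127 k0))))))) (by decide +kernel)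
def a2099 : PP 8 4 T 0x2000000000000000014000000000000000000000000008000400000020000015000 := rS 0x35b1d9a87 (k4 a387 i1968 i259 i508 (k1 a132 k0)) (by decide +kernel)
def a2100 : PP 8 4 T 0x2102000000000000000000000000000000000000000000000200000000040001020 := rS 0xa2aed7ebd531a98e3d7850d44cb28b4d56ad57a840ea5108c42c191a894e24d8b8fc134f60b9052568895592c56191cca0f2c86d1c11 (k8 a1755 a2078 a1532 a2081 a2080 i1025 i265 a2082 (k8 a277 i611 i766 a28 a362 a2099 a425 a408 (k8 a1160 i222 a2096 a432 i874 a662 i346 i354 (k8 i229 a437 i985 i726 a2083 a1968 a1833 a427 (k8 a420 a97 a1917 a1685 i505 a1834 a395 a2098 (k8 a365 a27 a198 a2041 a1589 i1719 i1946 a410 (k1 a404 k0))))))) (by decide +kernel)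
def a2101 : PP 8 4 T 0x2101000000000000004000081000000000000014080108400400000000000015140 := rS 0x11586a48f87356144d6cb (k8 i2324 i507 i499 a1626 a1880 i1581 i1621 a340 (k2 a115 a389 k0)) (by decide +kernel)
def a2102 : PP 8 4 T 0x2100000000000000000000000000000000000000000000000200000000040001020 := rS 0x22a306a48bc04f132e2b9a4fd14958ccc51594d52110391cca7b3c9209655649bd4a21188583235129c49b1788b0c1e590da387e09 (k8 i222 a2096 a2078 a1532 a2081 a2080 a2082 a28 (k8 a432 i874 a662 i346 i354 i229 a437 i985 (k8 i726 a2083 a1771 i611 i766 i486 a440 a353 (k8 a418 i1025 i265 a1968 a1755 a1832 a1816 a371 (k8 a277 a352 a362 a2099 a2100 a1807 a1917 a2101 (k8 a5 i1765 a2043 a1082 a198 a406 i547 a52 k0)))))) (by decide +kernel)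
def a2103 : PP 8 4 T 0x4102000000000000000020000000000001000001100000000000000011001100000000 := rS 0x9c8c0c908e5 (k4 a40 a688 a429 a1002 (k2 i1615 a347 k0)) (by decide +kernel)
def a2104 : PP 8 4 T 0x2002000000000000000000000040000000000000000000000200000000040001020 := rS 0x40add06be1e3014e5352858327165ab4ba296331462792413496258b9d48e6535a1d2221208ec863500c45e3046183cb21b470ac9eab28b4d5e3f048440ea1 (k8 a1833 a1968 a1755 i222 a2096 a427 a1917 a1685 (k8 a97 a74 a371 a2078 a1532 a2081 a2080 a2082 (k8 a2102 a1762 a28 i2 i354 i41 a435 i22 (k8 i726 a1041 i931 a464 i1025 i265 i124 a432 (k8 i346 i486 i874 a440 a353 i985 a2103 a132 (k8 i259 a2043 a445 a385 a662 i229 a437 a2083 (k8 a1816 i336 a1834 a1811 i1693 i1256 i1784 i1339 (k1 a108 k0)))))))) (by decide +kernel)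
def a2105 : PP 8 4 T 0x2000001000000000000000000000000000800000000000000004000050000000000 := rS 0x4f13 (k2 a68 i736 (k1 a127 k0)) (by decide +kernel)
def a2106 : PP 8 4 T 0x2000000000000000000000000000000000000000000000000200000000040001020 := rS 0x34d44af30c35f8832eaec5239a7b198a9f43a45e26b56b2e0809208ac86011d8440e7523994f24825a54dea5108c42c191a894e24d8bc45860f2c86d1c3f (k8 a2096 a2078 a1532 a2081 a2080 a2082 a28 a432 (k8 i874 a662 i346 i354 i229 a437 i985 i726 (k8 a2083 a1771 a521 i486 a440 a353 i1025 i265 (k8 i124 a1968 a1755 a435 i2 i41 a371 i22 (k8 i222 a2102 a385 a445 a464 a1762 a1041 i931 (k8 i1187 a2103 a132 a59 i299 i259 i1680 a2043 (k8 a2105 a1777 a1590 a397 a427 a2104 a1917 a2097 k0))))))) (by decide +kernel)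
def a2107 : PP 8 4 T 0x112000000000000000800001000000000000040000000010000000000000000000000 := rS 0xfb43 (k2 a105 i1328 (k1 a403 k0)) (by decide +kernel)
def a2108 : PP 8 4 T 0x2002000000000000401000000140000000000000000000000400000000000005140 := rS 0x156ad (k2 a420 a97 (k1 a1834 k0)) (by decide +kernel)
def a2109 : PP 8 4 T 0x2000000000000000000000000000000000000000000000000200000000000001020 := rS 0x15aab28349facb04b0546b5868794a55108c42cc91a894e2192383c9a652c86cff1788a380e53 (k8 a1816 a1968 a2078 a28 a432 a930 a1532 a2081 (k8 i1025 i874 a2080 i265 i229 a662 i346 i354 (k8 i611 a437 i985 i726 i766 a2083 a2106 a81 (k8 i1395 i241 i1306 a2094 a2107 a2108 a1807 a1620 (k2 i498 i1314 (k1 a1719 k0)))))) (by decide +kernel)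
def a2110 : PP 8 4 T 0x8002000000000000000000000000000000000000000000000000000000000000008010 := rS 0x80d9235 (k4 a348 a405 i340 i597 (k1 a349 k0)) (by decide +kernel)
def a2111 : PP 8 4 T 0x2000000000000000000001001200000400040100000000000200010100050008010 := rS 0x4a9bce27364058940049ae4ee030db94667d (k8 i1325 i284 a424 i268 i340 a877 a1710 i1365 (k8 a349 i477 i478 i597 i1093 i709 i969 i1100 (k1 i2044 k0))) (by decide +kernel)
def a2112 : PP 8 4 T 0x202002001000000000008800000200000400000000000000000200000510040009000 := rS 0xb9379dce293321211273010612a010b8d0fe878909ceacd0d99c0a615493cfacb5aa0c3a2b (k8 a371 i2923 a1898 i1455 a396 i1325 a74 a450 (k8 a397 a2109 i541 i268 a380 a453 i1954 a127 (k8 a69 i1723 a2111 i1116 i1115 i1098 a437 a349 (k8 i1092 i230 i221 i341 i1364 i749 i752 i1008 (k2 i1027 i2044 k0))))) (by decide +kernel)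
def a2113 : PP 8 4 T 0x2002000000000000008000000000000400000000000000000208000000040019000 := rS 0x8989d0ccd3f4445ad25ac35065d0e9f686295eaf9482f788ad42c7 (k8 a356 a1833 a371 a6 i2226 i375 i376 i1412 (k8 i256 a129 i1325 i2923 a2043 a1898 a1590 i1455 (k8 a377 a329 a2112 a403 i849 i1723 i1954 a69 (k1 a127 k0)))) (by decide +kernel)
def a2114 : PP 8 4 T 0x202000000000000000008100001200000404040000000000000200050004040008010 := rS 0x1ecf2914f85894b867800589d181dc061b728ce2e85669d43ab5 (k8 a444 i1381 a453 a380 a361 a2110 i284 a424 (k8 i268 i340 a877 a429 i1906 a2111 a349 i988 (k8 i1383 i477 i478 i1190 a102 i972 i713 i2046 k0))) (by decide +kernel)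
def a2115 : PP 8 4 T 0x202002000000000040008000000a00000400000000000000000200000000040009000 := rS 0x2453e9b4a45572cf3b9c4f27b4ba752664240e512020c0042e34399be181d5a9d59a850d99c0a615493cfb455e89c6e875d1fd46a1 (k8 a1833 a1823 a1913 i368 i1683 i3117 i3116 i1985 (k8 a410 i1325 a74 a450 a397 a2109 i541 i268 (k8 a361 a380 a453 a444 i1381 a377 a357 a370 (k8 a2114 i1116 i1115 a437 a349 i230 a401 i221 (k8 i341 i1364 i1905 i1897 a418 a353 i749 i752 (k8 a454 i1026 a1698 i2044 i2807 i1686 a1895 i2046 k0)))))) (by decide +kernel)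
def a2116 : PP 8 4 T 0x102000000000000000000000000000000400000000000000000200010000400008010 := rS 0x163a000ee030db946717 (k8 a2110 i284 a424 i268 i340 a877 a349 a466 (k2 i478 i971 k0)) (by decide +kernel)
def a2117 : PP 8 4 T 0x102000000000000000000000000000000400000000000000000200000000400009000 := rS 0xee752409404011a19e2e05 (k8 a2109 a2110 i541 a2116 i1115 a349 i2207 i221 (k2 i1062 i752 (k1 a466 k0))) (by decide +kernel)
def a2118 : PP 8 4 T 0x2002000000000000008000000200000400000000000000000200000000040019000 := rS 0x299a63d038255ec51fc404659 (k8 a487 i245 a2117 a2113 i116 a427 i222 i1380 (k4 i1386 a1917 a1811 a2115 k0)) (by decide +kernel)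
def a2119 : PP 8 4 T 0x212000000000000000000010000000010400040454000000000000000000000000000 := rS 0x928a1f4eab5 (k4 a444 a453 a73 a389 (k2 i2044 a115 k0)) (by decide +kernel)
def a2120 : PP 8 4 T 0x2002001000000000000004000000000000100000000000100204000010000010000 := rS 0x1065d1594d5e4f (k4 a74 a427 a1816 a371 (k2 a2043 a2105 (k1 a108 k0))) (by decide +kernel)
def a2121 : PP 8 4 T 0x2000000000000000000000040000001020004000000000000004000120020810140 := rS 0x8c9e47145530f62681 (k8 i2865 a54 i1839 a1811 a410 i282 a274 a42 (k1 a406 k0)) (by decide +kernel)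
def a2122 : PP 8 4 T 0x400000000000004212002000000000000000010000005011400040440000000000204002004044810040 := rS 0x8c0e19ea61bbc05281440b4e0b70e145a6af04a84f66f (k8 i969 i713 a1833 i222 a427 a1917 a1685 a377 (k8 i721 a2119 i1240 i710 i2865 a2121 a2120 a376 (k4 a2041 i988 i282 a463 (k1 a42 k0)))) (by decide +kernel)
def a2123 : PP 8 4 T 0x400000000000004002000000000000000000000000805000020000000000000000000002100000000000 := rS 0x8cb3c7037 (k4 i1917 i282 i988 a42 (k1 a463 k0)) (by decide +kernel)
def a2124 : PP 8 4 T 0x400000000000004002002000000000000000015000005010400150554000000100204006000000010140 := rS 0x281e3c54e1d440b524af (k8 a427 i2044 i1242 i1510 i1342 a2123 a2041 a1811 (k2 a2120 i1840 k0)) (by decide +kernel)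
def a2125 : PP 8 4 T 0x202002000000000000008000000100000400000000000000000204010000040018050 := rS 0x7829c52880e0b4e0b740c313e6f3d9cd229564058942f002e53a303b80c36e519c5d534f3e9d56a2766944fed35782546a1 (k8 a1833 a1823 i222 a427 a1917 a1913 a1685 a380 (k8 i1954 a444 a453 a73 a13 a450 a2110 i284 (k8 a424 i268 i340 a877 a429 i1906 a1045 a349 (k8 i1078 i477 i478 i597 a1908 a102 i1093 i713 (k8 i969 a428 a2122 a4 a118 a2124 i1240 i709 (k4 i710 a2121 a2123 a2120 (k1 a2041 k0))))))) (by decide +kernel)
def a2126 : PP 8 4 T 0x2002000000000000008000000000000400000000000000000200000000040019040 := rS 0x24cde7738b24c8483980830950085c68cb3f945a6a12986e0a475199c0a0930abc9ead1f9f4eab58808cb2a5 (k8 a2118 a487 i245 a2117 a444 a453 a73 a2113 (k8 a420 a74 a427 a397 i222 a2109 i541 a1823 (k8 i109 a17 i268 a1816 a1833 a1917 a1685 a1913 (k8 a2021 a2125 i1116 i1115 i1099 a437 a349 i1092 (k8 i221 i341 i1123 i749 i752 i1008 i1549 a1688 k0))))) (by decide +kernel)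
def a2127 : PP 8 4 T 0x202000000000000040000000001100000400040000000000200200010000020008010 := rS 0xe695389bc5e630c80172303b80c36e519c5ceb0d (k8 a65 a453 a2110 i284 a424 i268 i340 a877 (k8 a429 a1045 a349 i1041 i2290 i1077 i1232 i1358 (k2 a1908 i718 (k1 a2119 k0)))) (by decide +kernel)
def a2128 : PP 8 4 T 0x2002000000000000008000000000000400000000000000000200000000040019000 := rS 0xee715c9bc902d011cd2a010b8d21a7f6014038d30329620232ca85466702985524f (k8 a74 a450 a397 a2109 i541 a1823 a1833 a487 (k8 i245 a2117 a2118 a2126 a402 i480 i479 i600 (k8 a1913 a65 a2127 i1116 i1115 i1099 i717 a349 (k4 i1000 i221 i1231 i1249 (k2 i749 i752 (k1 a2119 k0)))))) (by decide +kernel)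
def a2129 : PP 8 4 T 0x202000001000000000004000000000000400000000000000000200020010000009000 := rS 0x19e9d3b9e4f66424244049f0099c0a85669d50e2b (k8 a371 a1894 a453 a380 a361 a2109 i541 i1115 (k8 i1184 a349 a1938 i221 i341 a418 a353 i752 (k2 a407 a454 (k1 i2046 k0)))) (by decide +kernel)
def a2130 : PP 8 4 T 0x202000000000000004000000000004001404000400000000000000102010000800000 := rS 0x4e2159a75 (k4 a453 a380 a361 a1896 (k1 i1512 k0)) (by decide +kernel)
def a2131 : PP 8 4 T 0x202002000000000000000000000000000400000000000000000208000000040019000 := rS 0x10c419c43b154d220706f39a453e16250ed9e00181dc06352ea1c52f11586dca338b81552c3 (k8 a2128 a450 a2109 a2110 i284 a424 i268 a371 (k8 a6 i256 a1894 a2043 a2129 i340 a877 a429 (k8 a349 i989 a339 i477 i478 a1888 a102 i1093 (k8 i969 a2130 i296 i297 a337 i2919 i709 a1898 (k2 a389 a1590 k0))))) (by decide +kernel)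
def a2132 : PP 8 4 T 0x2002000000000000004001000200000000000000000000000204000000040010040 := rS 0x1070c1e0754e2b50b4d5e09 (k8 i222 a427 a1917 a1833 a371 i367 i1381 a1811 (k2 a377 i1256 (k1 a1616 k0))) (by decide +kernel)
def a2133 : PP 8 4 T 0x4212002000000000004000010000004011400040440000000000204002010044810040 := rS 0x10d4e3da744ec53cbc10acd3a9456e81441c0de1c50b4d5e09 (k8 i222 a427 a1917 a1833 a377 i969 a2119 i710 (k8 i2865 i2468 a1685 a453 a380 a361 a2120 i973 (k4 a49 a76 i1511 i713 (k2 a2122 i2046 (k1 a20 k0))))) (by decide +kernel)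
def a2134 : PP 8 4 T 0x4212002000000000004000010000004011400040440000000000204002000044810040 := rS 0x7b142205a700e285a6af04864ea6f (k8 i969 a453 i1041 i222 a427 a1917 a1833 a377 (k4 a2119 i1240 i710 a2133 (k2 i1890 a2121 k0))) (by decide +kernel)
def a2135 : PP 8 4 T 0x4002002000000000005000015000004011401150554000000100204006010000810140 := rS 0x43538f69d13b14f2f0 (k8 a2120 i973 a49 a76 i1511 i713 a2124 i2046 (k1 a20 k0)) (by decide +kernel)
def a2136 : PP 8 4 T 0x4002002000000000005000015000004011401150554000000100204006000000810140 := rS 0x3ca1c6f4e532747a7b628a03a8816a495e19 (k8 i1041 a427 i2044 i1242 i1510 i1342 a2135 i1841 (k8 i1890 i1840 i1511 a1811 a2124 i1917 a20 i972 (k1 a1950 k0))) (by decide +kernel)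
def a2137 : PP 8 4 T 0x4002002000000000005000004000004001421100500000000100204002110000810040 := rS 0x86a71ed3aa613b14f2f0 (k8 a2120 i973 a49 a76 a2041 i1511 i713 a2123 (k2 i2046 a20 k0)) (by decide +kernel)
def a2138 : PP 8 4 T 0x202002000000000000004000000000000400000000000000000204010000040018050 := rS 0xf628440705a705ba0618b94aa7cde7348b202c4a0cb3c00303b80c36e519c5d5285669f4ea513fb4d5e0951a854ab5 (k8 a444 a2132 a1833 a1823 i222 a427 a1917 a1913 (k8 a1685 a453 a73 a380 a361 a450 a2110 i284 (k8 a424 i268 i340 a877 a429 a349 i989 i1041 (k8 i477 i478 i597 a102 i1093 i969 a428 i1100 (k8 a1045 a2134 a4 a118 a2136 i1240 i709 i710 (k2 a2137 i1890 (k1 a2121 k0))))))) (by decide +kernel)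
def a2139 : PP 8 4 T 0x202002000000000000000000000000000400000000000000000200000000040019040 := rS 0x1266f3b9c59264241cc04184a8042e3465a94fe51698fd6a753e96542530dc148ea33381412615793d5ac3 (k8 a2128 a420 a74 a427 a397 i222 a2109 i541 (k8 a1823 i109 a17 i268 a1816 a1833 a426 a73 (k8 a453 a444 a2131 a1917 a1685 a1913 a2132 a2021 (k8 a2138 i1116 i1115 i1099 a437 a349 i1092 i221 (k4 i341 i1123 i749 i752 (k2 i1008 i1549 (k1 a1688 k0))))))) (by decide +kernel)
def a2140 : PP 8 4 T 0x2000000000000000000000000000000000000000000000000200000000800008010 := rS 0xb003 (k4 i2122 i245 a349 i2406 k0) (by decide +kernel)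
def a2141 : PP 8 4 T 0x2002000000000000000000000000000400000000000000000200000000040009080 := rS 0x3b9c5726f240b404734a8042e34869fd80a528071a6a15199cc2a927c404605 (k8 a2109 a2140 a2117 a74 a450 a397 i541 a1823 (k8 a1833 a402 i480 i479 i1380 i600 a1913 a65 (k8 a2127 i1116 i1115 i1099 i717 a349 i1000 i221 (k4 i1231 i1249 i749 i752 (k1 a2119 k0))))) (by decide +kernel)
def a2142 : PP 8 4 T 0x2002000000000000000000000000000400000000000000000200000000040009000 := rS 0x1ed229f3c8587619002746077018e46a872e30c4c29788400e7512a16202b2186d8ee519c5c4605 (k8 a2109 a2140 a2110 i284 a424 a356 i268 i41 (k8 a371 a2117 a361 a423 a453 a2141 a2139 a441 (k8 i1836 i484 i1953 i483 a1894 a2129 i3086 i340 (k8 a877 a429 i1512 a349 i1041 a339 i478 i1768 (k4 a1888 i734 i714 a1953 k0))))) (by decide +kernel)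
def a2143 : PP 8 4 T 0x2000000000000000000000000000000800000000000000000200000000000008010 := rS 0x604a0000c3223 (k4 a2140 i1131 i220 a349 (k2 i477 i598 (k1 i2659 k0))) (by decide +kernel)
def a2144 : PP 8 4 T 0x2001000000000000400000000200000000000000000000000000000000000008100 := rS 0x56d0e0aab (k4 a1817 a17 a129 i1285 (k1 a439 k0)) (by decide +kernel)
def a2145 : PP 8 4 T 0x2000000000000005000000080001000401140508000000002000000000000000000 := rS 0x2309e89a1cb8b648940f679 (k8 a353 a418 i1009 i1172 i500 i499 i856 a5 (k2 i2046 a406 (k1 a33 k0))) (by decide +kernel)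
def a2146 : PP 8 4 T 0x400000000000004002000000000000004000000080001000000000000008000000000020000000000000 := rS 0x8ca7d1498 (k4 i540 i539 i2771 a52 (k1 a463 k0)) (by decide +kernel)
def a2147 : PP 8 4 T 0x4002001000000000001008001001001000401010540020000402000020000000018140 := rS 0x933898cde81570fd4ab93fa5596d282aae9ecf (k8 a454 a13 a1817 a17 a1807 a2030 a476 a1871 (k8 i1027 a2144 i375 a1917 i1862 a2145 a2146 i750 (k2 i1550 i2044 k0))) (by decide +kernel)
def a2148 : PP 8 4 T 0x2000000000000000008000000000000000000000000000000200000000040019008 := rS 0x5ca54e30d379fd80a528071a606399dc5a9d320d09618242a472415094d46678ba159a7d3aad6202304bf51e05 (k8 a2109 a2143 a2142 i222 a2140 a2117 a444 a453 (k8 a73 a380 a361 a2110 i541 a1823 a1816 a1833 (k8 i22 a401 i1085 i221 i220 i1046 i340 i341 (k8 i1905 i2681 i752 i1092 a2147 a402 i480 i479 (k8 i1380 i600 a1913 i1231 a65 i1359 i1099 i1249 (k1 a2119 k0)))))) (by decide +kernel)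
def a2149 : PP 8 4 T 0x2001000000000001208001000000000401010500000000008200016000040818040 := rS 0x6ece7821c52792e2d90250571c87e9338ae52aa53fb043a2d65b485653728253a91379ec4e9f (k8 a428 i1954 i713 i969 a102 i1906 i222 a424 (k8 a1816 a371 a1807 a2030 a329 a341 a44 a1871 (k8 a2144 i1101 a1710 i709 i1509 i375 i2044 a1917 (k8 i1094 i1862 i500 i499 i1097 i1929 i856 a2043 (k2 i2046 a376 (k1 i988 k0)))))) (by decide +kernel)
def a2150 : PP 8 4 T 0x2000000000000000008000000000000000000000000000000200000000040019000 := rS 0xfea55494038d3031dd90300b1286a0001a8436e5518cd0acd3e9d56b1011bf51e05 (k8 a2109 a2143 a2142 a2140 a2117 a444 a453 a73 (k8 a380 a361 i284 a1823 a424 i268 a1833 a2148 (k8 a349 i1115 i477 i478 i598 i597 a877 a2149 (k4 a402 i480 i479 i2293 (k2 i1380 a1913 (k1 a2127 k0)))))) (by decide +kernel)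
def a2151 : PP 8 4 T 0x202001000000000000004000000004001400000400004000000008002040040808010 := rS 0x542691038438a5e2cf (k8 i989 a6 i256 a1894 a2130 i296 i297 a754 (k1 a457 k0)) (by decide +kernel)
def a2152 : PP 8 4 T 0x2000000000000000004000000000000000000000000000000208020000040009000 := rS 0x52f18823c4605 (k4 a2109 a2140 a2143 a2117 (k2 a6 i256 (k1 a2129 k0))) (by decide +kernel)
def a2153 : PP 8 4 T 0x202000000000000004000000080004040400140480000000008000002000040800000 := rS 0x4607113438a4b8b63c9eca091 (k8 a102 i1094 i841 i1097 i500 i499 i1929 i856 (k4 a5 a2130 a406 a42 k0)) (by decide +kernel)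
def a2154 : PP 8 4 T 0x4202000000000000000204010080000004440140410000000008000002000040818000 := rS 0xf27b1ba1e30f05d1a93aca4a1cd0acd3e9d56acf489bd3e97 (k8 i1899 a428 i969 a102 i989 a444 a453 a73 (k8 a380 a361 a2153 i2044 i1101 i1678 i625 i626 (k4 a1421 a534 i1683 a376 (k2 a390 i972 (k1 i2046 k0))))) (by decide +kernel)
def a2155 : PP 8 4 T 0x202001000000000000004000000000000000000000000000000200010000040018050 := rS 0x1c8a50f185b20d746a283289f0d3f2055c3f4f9c522c845858946349b3c00b9181dc062b2986dcaab19c5d1e2d0eb05a409 (k8 i222 a1807 a44 a341 a329 a2143 a2110 i284 (k8 a1817 a424 i268 a1816 a371 i340 a877 a429 (k8 a1710 a349 i989 i1509 i2290 i477 i478 i2292 (k8 i597 a102 i709 a428 a2151 a1917 i1862 a2154 (k8 a35 i760 a1871 a467 i625 i626 a374 i500 (k4 a534 i1684 i1929 a42 (k1 a2130 k0))))))) (by decide +kernel)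
def a2156 : PP 8 4 T 0x212101000000000000100000004000010400040454020000400000000000000000000 := rS 0x9e516518170b5 (k4 a444 a2119 i1026 a1261 (k2 i1311 i1389 (k1 a467 k0))) (by decide +kernel)
def a2157 : PP 8 4 T 0x4002000000000000000000000080004048401005540020000000000020000000000000 := rS 0x8748d3936628ad153acf (k8 a454 a407 a381 a115 i1550 i1450 a2146 a1895 (k2 a20 a1950 k0)) (by decide +kernel)
def a2158 : PP 8 4 T 0x4002000000000000005800000080005000401045500000000000000000000000000000 := rS 0x1211843d3d746a (k4 i625 i626 a394 i1683 (k2 a463 i2046 (k1 a114 k0))) (by decide +kernel)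
def a2159 : PP 8 4 T 0x4002000000000000005000000080005040401000520000000002000020000000000000 := rS 0x29c8631244f679 (k4 a353 a418 i917 i750 (k2 i2046 a2146 (k1 a20 k0))) (by decide +kernel)
def a2160 : PP 8 4 T 0x4002000000000000001000001080004014401150550020000002000000000000000000 := rS 0x2e1966f3d9e53acf (k8 a454 a407 a353 a418 a2145 a2158 i2044 i1027 k0) (by decide +kernel)
def a2161 : PP 8 4 T 0x2000000000000000000000000000000000000000000000000200000000040019040 := rS 0x2450eb641ae8a0ca27c34fc7149b3d3a773c9ed2e8132121527357008303f4aa7c02171a0bda4530daaccf1742b34fa755ac4046097ea3c0ac3 (k8 a2150 a2109 a2143 a2142 i222 a2140 a2117 a444 (k8 a453 a73 a380 a361 a2110 i541 a1817 i268 (k8 a1816 a1807 a359 a2155 i1116 i1115 i1184 i1098 (k8 a2152 a437 a349 a1917 i1092 i1085 i221 i341 (k8 i1862 i1900 a418 a353 i752 a407 a454 a2157 (k8 a2159 a2160 a35 i760 a1871 a467 i626 a374 (k4 i500 i1684 i854 i2046 k0))))))) (by decide +kernel)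
def a2162 : PP 8 4 T 0x2000000000000000000000000000000000000000000000000200000000040009080 := rS 0xde713bb24c848011cd2a010b8d0c30d3fa95524f28071a6415094e0a4751aaccf1011bf51e05 (k8 a2109 a2143 a2142 a2140 a2117 i541 a1817 a1823 (k8 i109 a17 a1816 a1833 i22 a402 i480 i479 (k8 i1222 i2293 i1380 a1913 a65 i2822 a2127 i1116 (k8 i1115 i1099 i717 a349 i221 i341 i1123 i752 (k2 i749 i1008 (k1 a2156 k0)))))) (by decide +kernel)
def a2163 : PP 8 4 T 0x2000000000000000000000000000000000000000000000000200000000000029000 := rS 0x48a7c2c3b000c0ee03678e46a8762171862614bc456430db9467178823c4605 (k8 a2109 a2140 a2143 a2117 a2110 i284 a424 i268 (k8 i41 a371 a441 i1836 i484 i1953 i483 i602 (k8 a1894 a2129 i3086 i1794 i340 a877 a429 a349 (k4 a339 i478 a1888 i734 (k1 a2130 k0))))) (by decide +kernel)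
def a2164 : PP 8 4 T 0x2000000000000000000000000000000000000000000000000200000000040009000 := rS 0xe11 (k2 a2163 a2162 (k1 a2161 k0)) (by decide +kernel)
def a2165 : PP 8 4 T 0x4002002000001000000008000000000014050000000004000000008014000000000000 := rS 0x4d0b532b9a1aec72975f2914ef130abd523b (k8 i373 a450 a427 a397 a6 i140 i375 i376 (k8 i1371 i296 i1944 a129 a1847 a1601 i1383 a336 (k1 a828 k0))) (by decide +kernel)
def a2166 : PP 8 4 T 0x2002000000000000009000000000000000000100000000000200010004080018010 := rS 0xb62a988c1e626372ea5c50b65334c7e894a9ece691388bd908b0b128c6930c80060030db9467178681c860930abd523d (k8 i1959 a450 a427 a397 a369 i41 i1302 a81 (k8 a2110 i284 a424 i268 i340 a429 a349 i1041 (k8 i1509 i2290 i477 i478 i2292 i597 i1078 i1357 (k8 a102 i1093 i713 i1100 a1013 a2165 a1917 a1811 (k8 i243 i242 i1898 i1930 i3107 a54 i972 a406 (k4 a273 a561 i980 a120 k0)))))) (by decide +kernel)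
def a2167 : PP 8 4 T 0x12002000000000000008011000000004400015514000000000008020000002000000 := rS 0x123138cad90d143f1cd2abe179855ea9 (k8 a450 a427 a397 i2226 i376 i1098 i1091 i2044 (k4 a389 i1723 i1724 a561 (k2 a69 i854 (k1 a406 k0)))) (by decide +kernel)
def a2168 : PP 8 4 T 0x2000000001000040001008000040000008000000000000000004000000000000000 := rS 0xa1a94fcbe (k4 i857 i856 i1451 a133 (k1 a393 k0)) (by decide +kernel)
def a2169 : PP 8 4 T 0x2000000000000005000008000801400405005500000000000000020000000000000 := rS 0x2787691 (k4 i855 i335 i2046 i1183 k0) (by decide +kernel)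
def a2170 : PP 8 4 T 0x2002000000000000008000000000000000000000000000000200000000000009000 := rS 0x120738ca690f13142d94cd31fae526cf379dcf27b38a74c848448e404180085c683d1386dcaa333a159a755a8461a0721b043c7d8823c4605049855ead (k8 a420 a427 a397 a369 a2109 a2140 a2143 a2117 (k8 a73 a2164 i1305 i41 i1302 a81 a2163 a444 (k8 a453 a380 a361 i541 a1823 a424 i268 i1954 (k8 i1959 a2166 i1116 i1115 a437 a349 a401 i2093 (k8 i221 i341 i1905 i1356 a418 a353 i752 i1008 (k8 a454 i1549 i1026 a2167 a1917 a1811 i243 i242 (k4 a54 a2168 a2169 a41 (k2 i2805 a406 (k1 i854 k0))))))))) (by decide +kernel)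
def a2171 : PP 8 4 T 0x2000000000000001004001000004001411010540000000000008016040080808000 := rS 0xb98a1fc5a6f4da08f0283da750e3978b961acf49b04e219 (k8 i1041 i1357 i1305 i1509 i989 a81 a424 a6 (k8 i296 a1894 i1512 i714 a1896 i2046 i257 i2649 (k4 i1439 i2916 i925 a389 (k2 a1710 a2033 k0)))) (by decide +kernel)
def a2172 : PP 8 4 T 0x2000000001000000004001041040004400010554005000000004414000080010140 := rS 0xa5a1a98fc3d4ca5d731416c3582d3 (k8 a1917 i1305 a81 i1303 a389 a1710 a24 a57 (k4 a1744 a1698 a1811 a133 (k2 i367 a393 k0))) (by decide +kernel)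
def a2173 : PP 8 4 T 0x2000000000000001004001041000000001010100001000000200010000080018110 := rS 0x7b8997450b6530f534974c8b0dc3f44a7ce69138b2116162518c76930c8006077018ac36e5518ce2e8f8681c86c1 (k8 i1305 i41 i1302 a81 a2143 a2110 i284 a1823 (k8 a424 i268 a371 i340 a877 a429 a349 i1041 (k8 i1509 a339 i2290 i477 i478 i2292 i597 i1357 (k8 a102 i1093 a428 a1013 a2171 a2172 i968 i2645 (k8 i2846 a336 i1258 a1811 i243 i242 i1930 a54 (k2 i1890 a273 k0)))))) (by decide +kernel)
def a2174 : PP 8 4 T 0x2002000000000000000000000000000000000000000000000208000000000009000 := rS 0x8a9ccfe99412405087788ae1a9f0c05c3671449ecf277339bc909d67a4d5ab932008023461aa55e090f0456a753eb350b104788c0a61 (k8 a397 a2109 a2140 a2143 a2117 a361 a380 a73 (k8 a453 a444 a2163 a2164 a369 a427 a450 a2170 (k8 a2173 i1115 a349 i341 i1026 a420 i1549 a454 (k8 a407 i221 i1008 i541 i752 a353 a418 i2093 (k8 i1356 i268 i1116 a437 i1184 a81 a371 a6 (k8 a1894 a2129 i2046 i257 i2769 i925 i924 a2033 (k1 a389 k0))))))) (by decide +kernel)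
def a2175 : PP 8 4 T 0x12002000000000040005000000000000008400000000000000204000000000008040 := rS 0x53adde11315a85caa3 (k8 a1823 a424 a1833 a371 a69 a1894 a2168 a889 (k1 a2041 k0)) (by decide +kernel)
def a2176 : PP 8 4 T 0x2002000000000000000000000000000000000000000000000200000000000009000 := rS 0x522997a6b788f69c3a13c65208741b4c7ecf4e9dcf27b3212004184f8042e3461ab552af3082436678ba159a755a8461a0721b043c7d8823c4605 (k8 a2109 a2140 a2143 a2117 a73 a2164 i1305 i41 (k8 i1302 a81 a2163 a444 a453 a380 a361 a2110 (k8 i541 i268 a369 a397 a427 a450 a420 a2170 (k8 a2173 i1116 i1115 i1184 a437 a349 i221 i341 (k8 a418 a353 i752 a407 a454 a2174 a1917 i1435 (k8 a2175 i2046 a25 a700 i1168 a463 i1308 a355 (k4 a394 a128 a1811 a1997 (k1 i367 k0)))))))) (by decide +kernel)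
def a2177 : PP 8 4 T 0x4002001000000000000008041000004004400010510000000400008014000000808000 := rS 0x1be282d3fa55734365af57ca4a2b1dcb4f (k8 a13 a424 a356 a80 i375 i376 i1412 a1579 (k8 a129 a1847 i1725 a1871 i1383 a447 i968 a1698 k0)) (by decide +kernel)
def a2178 : PP 8 4 T 0x212001000000000000200000000000000400000410001000001200000000000008200 := rS 0x1727337a54feac2732ca647 (k8 i109 a1816 i1388 i223 i343 a1871 i1101 i1271 (k2 i757 i1289 (k1 a2119 k0))) (by decide +kernel)
def a2179 : PP 8 4 T 0x202001000000000000008000000000000000000000000000000200010000080018010 := rS 0x3386e797821c527f2e2d95ccb280247e9f3d9852271641242c4a49864009d181dc06411594c36e519c5d1e853aad61a27668f5827d5da9c0e43 (k8 i41 i1302 a1825 i1944 a73 i1305 i1959 a380 (k8 i1954 a81 a444 a453 a361 a2143 a2110 i284 (k8 a424 i268 a1816 a371 i22 i340 a877 a429 (k8 i1906 a349 i1041 i1509 i477 i478 i959 i597 (k8 i1357 a102 i2640 i713 a428 a2177 a2178 a1620 (k8 a2030 a1811 i500 i499 a1871 i1928 i856 a2043 (k4 i973 a376 i2046 i988 k0))))))) (by decide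 +kernel)
def a2180 : PP 8 4 T 0x212001000000000000108040000000000400000410020000002208020000002008000 := rS 0x5137020fe734ab2d7aa417d14825363c15574f (k8 a13 a1817 a17 a356 a1816 i22 a80 i2226 (k8 i375 i1412 a1579 i1098 i1091 a1871 a2144 a2156 (k2 i1310 i1009 k0))) (by decide +kernel)
def a2181 : PP 8 4 T 0x4002001000000000001008001001001000401010500020000002205020000000018140 := rS 0x63179c95cd229a9e9ecf (k8 a454 a13 a1825 a1816 a1807 a1811 a2147 a359 (k2 a2146 a1047 k0)) (by decide +kernel)
def a2182 : PP 8 4 T 0x2000000000000000008000000000000000000000000000000200000000000009000 := rS 0x1ccde955c9fc9ccb040fceea938a7592642592112390106002171a2ec7a412986e0a475599e2e85669d56a1186b04fb104788c0aa77e81c3c43 (k8 i41 a2164 i1302 a2176 a1825 a2109 a2140 a2143 (k8 a2117 a73 i1305 a81 a2163 a444 a453 a380 (k8 a361 a2110 i541 a1817 i109 a17 i268 a1816 (k8 i22 i1959 i1944 a2179 i1116 i1115 a437 a349 (k8 a401 i2093 i221 i1046 i341 i1123 i1905 i1356 (k8 i2755 i752 a2180 a2181 i1388 i223 a1871 i1027 (k4 a476 i1272 i758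 a2119 k0))))))) (by decide +kernel)
def a2183 : PP 8 4 T 0x202000000000000000004000000000000000000000000000200208010000080018110 := rS 0x2a134af1c1750e29788ad1e85669f4eab53b86d9e30728ce2e9130858949f640000683 (k8 a374 i340 a349 i597 a428 i477 i478 i2640 (k8 a102 a2110 i284 a424 a429 i989 i268 a877 (k8 a444 a453 a73 a380 a361 a2143 a371 a6 (k8 i257 a1894 a2043 a2130 i499 i297 a2173 a457 k0)))) (by decide +kernel)
def a2184 : PP 8 4 T 0x202001000000000000004000000000000000000000000000000200010000080018010 := rS 0x32cfcbba7a193a398c1ee2679149716cbda2ab87e6f1e8b506d2280253e61489c5904945858941967800607701904a61b72aac671747a159a7586a9c0e43 (k8 i41 i1302 a1825 a81 a453 a380 a361 a2143 (k8 a2110 i284 a1817 a424 i268 a1816 i22 i340 (k8 a877 a429 a349 i989 i1041 i477 i478 i2292 (k8 i959 i597 i1357 a102 i2640 a428 a2178 a1620 (k8 a1807 a374 a329 a335 i968 a2183 a1811 a381 (k8 i1987 i500 i499 i1928 i1933 a5 i1891 a406 (k8 a42 a347 a1896 a20 i1684 i856 a1579 a1871 k0))))))) (by decide +kernel)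
def a2185 : PP 8 4 T 0x2000000000000000000000000000000000000000000000000208000000000009000 := rS 0x2505e733fa64de82480a10e81788aca70555a159a7586a7c30170db248e71449ecf2772419d3acf32008023461bf43c118823c4605 (k8 a2109 a2140 a2143 a2117 a2163 a2164 a2176 a2182 (k8 a2184 i1115 a349 i341 a454 a407 i541 i221 (k8 i752 a353 a418 i2093 i1356 i109 i1123 i268 (k8 i1116 a437 i1184 a81 a453 a380 a361 a1817 (k8 a17 a1816 a371 a6 i1333 a1894 a2129 i2046 (k8 i257 i1172 i2769 i925 i924 i405 a2156 i1098 k0)))))) (by decide +kernel)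
def a2186 : PP 8 4 T 0x4002001000000000001000001000004000401010510020000402004020000082018140 := rS 0x5d21994913f2d902734aa4d5c2f56b48a07b3ca759e83 (k8 i1435 a454 a407 a353 a418 a1620 a1807 i1313 (k8 a359 a1917 i1549 i1098 i1091 i1862 i500 a2160 (k4 i854 a1871 i2046 i626 (k1 i1684 k0)))) (by decide +kernel)
def a2187 : PP 8 4 T 0x2000000000000000000000000000000000000000000000000200000000000009000 := rS 0xe66f4a9fc9ccb040fceea938b24c84b2422404184f8042e3461bf40f0d0f0456a753eb350b104788e2e675591e0a412194c3605 (k8 a2109 i268 a1816 i41 i22 a17 i109 a1817 (k8 i541 a2110 a2140 a2143 a2117 a361 a380 a73 (k8 a453 a444 a2163 a2164 a81 i1302 a2176 a2182 (k8 a2184 i1116 i1115 i1184 a437 a349 i2093 i221 (k8 i1046 i341 i1123 i1356 i2755 i752 a2185 a2186 (k4 i1388 i223 a1871 a476 (k2 i1272 i758 (k1 a2156 k0)))))))) (by decide +kernel)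
def a2188 : PP 8 4 T 0x2002000000000000008000000000000000000000000000000208000000040001000 := rS 0x8620cba1d14af94807788ac4a5904c101e11 (k8 i1953 a2187 a276 a369 i603 i346 a371 a6 (k8 a458 i375 i376 i256 i2923 a2043 a1898 a1845 (k1 a1590 k0))) (by decide +kernel)
def a2189 : PP 8 4 T 0x202002000000000000008000000000000000000000000000000200000000040001040 := rS 0x5ba98388351434fcbb28a95a6a129894b209578447f138203c4ecd (k8 a380 i1954 a2187 a276 a205 a2188 i1953 a427 (k8 a369 i603 i346 a1816 a1833 a1917 a1802 a1685 (k8 i1945 a1778 a35 a1913 i926 a377 i328 i721 (k1 a889 k0)))) (by decide +kernel)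
def a2190 : PP 8 4 T 0x202002000000000000008000000000000000000010000000000200010000040801000 := rS 0x934ca5d2b1439928c6003780c865302aa49ecb8203caed352c34a006 (k8 a2189 i479 a65 i1380 a402 a58 a2187 a276 (k8 a385 a74 a450 a2109 a1816 i41 i999 i969 (k8 a349 i2290 i477 i1093 a389 a14 a24 a57 (k2 a115 a1377 k0)))) (by decide +kernel)
def a2191 : PP 8 4 T 0x202002000000000000008000000000000000000010000000000200010000040001000 := rS 0x228935c99c5a2f19808e6180085d421b02985cb0407b4d4b0d449403806 (k8 a2189 i480 i479 i2863 a65 i1380 a402 a2187 (k8 a276 a468 a397 a2109 i268 a1833 a2190 i478 (k8 a437 i717 a349 i2112 a183 i1000 a722 a1045 (k2 a1020 a120 (k1 a853 k0))))) (by decide +kernel)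
def a2192 : PP 8 4 T 0x202002000000000000008000000000000000000000000000000200010000040001000 := rS 0x300928c470280188205 (k8 a2109 i22 a2189 i479 a2191 i1358 i1359 i2290 (k2 i1046 a349 k0)) (by decide +kernel)
def a2193 : PP 8 4 T 0x12002000000000040008000000100000000000014000000000200010000000001002 := rS 0x9e60c5c649a5c24d32974ac50e68b2519cc66157aa55aab63b9592cb32c101e9d (k8 i1906 a2187 a276 a63 a385 a343 a468 i142 (k8 a97 a420 a450 a427 a397 i2290 i449 i477 (k8 i2292 i1093 a389 a14 a24 a57 a115 a853 (k4 a336 a1295 a465 i1250 (k2 a1493 i1711 k0))))) (by decide +kernel)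
def a2194 : PP 8 4 T 0x12002000000000000008000000000000000000010000000000200010000040001040 := rS 0x45126b9339cc661801005121c37a95a6a102894b20957aa5ca1164c101e3f (k8 a2188 a2187 a276 a343 i1953 a468 a450 a427 (k8 a369 i603 i346 a2109 a1833 a1917 a1802 a1842 (k8 a377 i1342 a2193 a349 i220 i2094 i1092 a722 (k4 a1045 a1020 a389 a853 k0)))) (by decide +kernel)
def a2195 : PP 8 4 T 0x12002000000000000008000000000000000000010000000000200010000040801000 := rS 0x1bc064302b4d4a06 (k8 a2194 i1380 a402 a2109 i41 i999 i969 a349 (k1 a2193 k0)) (by decide +kernel)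
def a2196 : PP 8 4 T 0x12002000000000000008000000000000000000010000000000200010000040001000 := rS 0x8a24d7267168bc660239860021744a9438d303284360530b96080f (k8 a2187 a276 a468 a397 a2109 i268 a1833 a2194 (k8 a402 i480 i1380 i1342 a2195 i478 a437 i717 (k8 a349 i2112 a183 i1000 a722 a1045 a1020 a120 (k1 a853 k0)))) (by decide +kernel)
def a2197 : PP 8 4 T 0x8002002000000000000008000000100000000000000044000000000010400000005040 := rS 0x12f454ca9978a24db062a945ca4d9e330498552ad5591dcac96599608bb (k8 i1945 a276 a63 a385 a343 a468 a354 a97 (k8 a420 a450 a397 a369 a360 a368 a19 a465 (k8 a1295 a853 i1518 i1182 a2108 i329 i328 i1990 (k2 a410 i1898 (k1 a162 k0))))) (by decide +kernel)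
def a2198 : PP 8 4 T 0x2200000000000000008000000001001000000200040000000000000001000800000 := rS 0x4219 (k2 i43 i1500 (k1 a1365 k0)) (by decide +kernel)
def a2199 : PP 8 4 T 0x102002000000000000008000000100000400050050000000100200010000000801000 := rS 0xaeb53b1d62e912519cc6001780c865302894b24f56aad96558203d3a07 (k8 i479 i1906 a2187 a276 a72 a385 a97 a420 (k8 a74 i603 i346 a2109 a1816 i41 i999 i1079 (k8 a349 i2290 i449 i477 a102 a2197 a2198 a466 (k2 a201 i1627 (k1 i2037 k0))))) (by decide +kernel)
def a2200 : PP 8 4 T 0x2002000000000000008000000000000400000010000000000200010000040001000 := rS 0x16a57101d4f67733921223301060021752b4c0e513f9ccfb0c2986c0a252c8255ee508996080f1da747f11 (k8 a2192 a2188 i1906 i373 a2187 a276 a63 i1953 (k8 a468 a427 a369 i603 i346 a2109 i268 a1816 (k8 a2196 a340 a370 a35 a65 i479 a1917 a1802 (k8 a2199 i478 a437 a349 i2112 i1168 i221 a722 (k4 a877 a418 i1010 a1366 (k2 i1497 i728 (k1 a924 k0))))))) (by decide +kernel)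
def a2201 : PP 8 4 T 0x2002000000000000008000000000000400000000000000000200010000040001000 := rS 0x1d861176029546d303a2038513a8bc2c6731a44004a01924e1110d9340a252c825524f56aac8e1165c101e9d (k8 i1906 a2187 a276 a385 i1953 a354 a97 a420 (k8 a74 a450 a369 i603 i346 a2109 i525 i268 (k8 a2192 a2200 i749 i221 a440 a349 a102 i2290 (k8 i449 i478 i1077 a2198 i1358 i709 i710 i479 (k8 a341 i2163 a1802 a1834 a2197 i1345 a466 i1508 k0))))) (by decide +kernel)
def a2202 : PP 8 4 T 0x202002000000000000008000000000000000000000000000000200000000080001000 := rS 0x289fd04b7142f94ef11f291827d1594c4a5904abc8e1165954d70407a8c0e43 (k8 i41 i1302 i2119 a2187 a276 a464 a72 a385 (k8 i1953 a354 a427 a369 i603 i346 a1816 a371 (k8 a73 i1305 a2108 a1839 a6 i140 i376 a1796 (k4 i1928 i257 i1724 a374 (k1 a1778 k0))))) (by decide +kernel)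
def a2203 : PP 8 4 T 0x2202000000000000008000000000000000000000044000000008010000000000000 := rS 0x4aae526bd5f0cd48a77898552ad55b1dcac965994769d (k8 i1906 i373 a63 a385 a343 a468 i142 a97 (k8 a420 a450 a397 a6 i140 i375 i2175 i376 (k4 i1412 i1365 a1847 a1803 (k1 i2040 k0)))) (by decide +kernel)
def a2204 : PP 8 4 T 0x2002000000000000008000000000000000000010000000000200010000080801000 := rS 0x249722c4ab00dcd3528fcea912519cc600018144a59049855ea956aac8e1164b2cca5535c101e9d86a8c0e43 (k8 i41 i1302 i2119 a81 i1906 a2187 a276 a464 (k8 a72 a63 a385 a343 i1953 a354 a97 a420 (k8 a450 a427 a397 a369 i603 i346 a2109 i999 (k8 a349 i2290 i449 i477 a102 a2198 a2203 a1839 (k8 a1917 a2193 a1834 i1057 i968 i2848 i2040 i2845 k0))))) (by decide +kernel)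
def a2205 : PP 8 4 T 0x102000000000000000008000000000000400000000000000000200010000000401000 := rS 0x33624278c95d9e208b1d4f27b3b99c62481ba4466020c004360512965ca658203c769d (k8 i1906 i373 a2187 a276 a63 a468 i603 i346 (k8 a2109 i268 i478 a437 a349 i2112 i1168 a446 (k8 i221 i1003 a722 a877 a418 a353 i1010 a429 (k8 a1366 a368 i1497 a784 a1276 a406 i729 a1729 k0)))) (by decide +kernel)
def a2206 : PP 8 4 T 0x2002000000000000008000000000000400000000000000000200010000000001000 := rS 0x710b4443a1e (k4 a2201 i10 a2202 a2205 (k2 i709 a2204 k0)) (by decide +kernel)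
def a2207 : PP 8 4 T 0x2002000000000000008000000000000000000000000000000200010000000001000 := rS 0x300864968e02b26080f (k8 a2187 a276 a343 a2109 a2206 i1132 i1130 i477 (k2 i220 a349 k0)) (by decide +kernel)
def a2208 : PP 8 4 T 0x2002000000000000008000000000000400000000000000000200000000040001000 := rS 0x13ecf5c228ff1949a652e6351c505ea74da561a835ba94a01c1381a267d66ad62041509355ea9a79ae2e75128b53a393d9c49e6f309dc90558203ce618010046805 (k8 a2109 a2207 i1115 a349 i220 i1092 a2187 a276 (k8 a72 i221 i751 a397 i1008 a74 i749 a418 (k8 a401 i1905 i1000 i346 i1062 a348 a464 a13 (k8 a450 a427 i525 a1833 i22 a466 a201 a1006 (k8 a73 a205 a2189 i1954 i480 i479 i1380 i721 (k8 a374 a65 i1099 a947 a889 a183 a389 i328 (k8 a492 a24 a57 a115 a561 i720 a336 i2044 (k2 i1978 i1189 (k1 a463 k0))))))))) (by decide +kernel)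
def a2209 : PP 8 4 T 0x2002000000000000008000000000000000000000000000000200000000040001000 := rS 0x2897a0760a08a27d86456305d89a1d4acc14244448e398255ea923b1d966b8203c3017219ecf271279bc9002008d00a61 (k8 a397 a2109 a2207 i1115 a349 i221 i1008 a74 (k8 i749 a353 a418 i41 i999 i220 a2187 a276 (k8 a464 a385 i142 a354 a450 a427 a369 i1092 (k8 a2208 i1131 a1063 i250 i251 i248 i1703 a54 (k8 i1970 a406 a561 a389 a340 a65 a1590 i1573 (k4 i479 i1416 a2108 i329 k0)))))) (by decide +kernel)
def a2210 : PP 8 4 T 0x2002000000000000008000000000000000000000000000000200000000000001000 := rS 0x295823f1123a2207518743c770c120047500c5c686b2ab2c23042390c0a252c83c12af (k8 a427 a369 a2187 i603 i346 a2109 i41 a354 (k8 a276 i1953 a385 a72 a464 a2207 a348 i1115 (k8 i1062 a349 i221 i220 i751 a2209 i10 i2119 (k8 i1302 a2202 a466 i1131 i2131 i1574 a1839 a2108 k0)))) (by decide +kernel)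
def a2211 : PP 8 4 T 0x202002000000000000000000000200000000000054000000400400014100000005000 := rS 0x513fc322ab933c1126e5 (k8 a382 i1365 a425 a722 a1710 a853 a389 a35 (k2 a65 a1778 k0)) (by decide +kernel)
def a2212 : PP 8 4 T 0x10012102000000000000000000000100000000000000000000000608000000040001041 := rS 0x692883a114197624911d0a47af115a8586391b9ec900202b05c80f (k8 a2187 a425 a408 a2109 a349 i221 a418 a446 (k8 a401 a2210 a1833 a371 a6 i20 i256 a419 (k8 a1938 a203 a5 a68 i483 i1421 a2092 a377 (k1 a99 k0)))) (by decide +kernel)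
def a2213 : PP 8 4 T 0x202102000000000040100000000000014400040454004010500000001400020000000 := rS 0x33ae19461549f4eab5 (k8 a444 a453 a73 a450 a397 a1689 a1693 i545 (k1 a1575 k0)) (by decide +kernel)
def a2214 : PP 8 4 T 0x10802002000000000000000000000000000000004000000000500000040400020000000 := rS 0x7626532d90629409755e4f (k8 a74 a427 a5 a45 a54 a68 a108 a564 (k2 i721 i334 (k1 a135 k0))) (by decide +kernel)
def a2215 : PP 8 4 T 0x212102000000000000000000000000000400000010000000000204000000040011048 := rS 0x19e90899d8fe1c28b4ca65904b0c6e3318b248e233d9e442436283c5ea14a98d27198a1bc90730c2a55e61 (k8 a397 a427 a450 i220 i1092 i221 i1008 a389 (k8 a561 a115 a51 a14 a1833 a183 a2187 a277 (k8 i41 a1200 a353 a418 a9 i224 i1123 i1003 (k8 i2094 a446 a2210 a369 i603 a1816 a1917 a1685 (k4 a377 a1066 a2213 a2214 (k2 a406 i1149 (k1 a1096 k0))))))) (by decide +kernel)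
def a2216 : PP 8 4 T 0x212102000000000000000000000100000400000010000000000200000000040001041 := rS 0x226911d17052f1080fe33141590d5ea92388c72373d9bc9061398600405 (k8 a2109 a349 i220 i1092 a397 i221 i1008 a418 (k8 a446 a401 a9 i224 a450 a427 i41 a371 (k8 a389 a561 a2212 a2215 a441 i1836 i483 a419 (k2 a1938 a5 (k1 a203 k0))))) (by decide +kernel)
def a2217 : PP 8 4 T 0x22102000000000000004000000100001010005000000000000408000050000015040 := rS 0x89209a65d511855ea960b91e23d (k8 i20 a6 a425 a408 a450 a427 a397 a2092 (k4 a2043 a99 a1590 a693 (k1 a68 k0))) (by decide +kernel)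
def a2218 : PP 8 4 T 0x202000000000000080001000000110000000040000000000000000000001140000000 := rS 0xa30e88cfab5 (k4 a444 a73 a9 a341 (k2 a99 i2030 k0)) (by decide +kernel)
def a2219 : PP 8 4 T 0x22102000000000040000000000100000000000000000000000608000000040001041 := rS 0xb9120824452f11583cc2af54b0d127b3c9200405 (k8 a2109 a349 i221 a353 a418 i2093 a2210 a450 (k8 a427 a397 a2187 a371 a6 i256 a1938 a2217 (k2 a693 i483 (k1 a5 k0)))) (by decide +kernel)
def a2220 : PP 8 4 T 0x822002000000000000000000000000000000000000000000000000000000000000000 := rS 0x1065d (k2 a5 a68 (k1 a1590 k0)) (by decide +kernel)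
def a2221 : PP 8 4 T 0x2102002000000000004000000100000000000000000000000400000000000015040 := rS 0xa1d1576bf512f54c6a638f412af62b05c94f (k8 a1160 a425 a408 a277 a427 a369 a365 a27 (k8 a198 a2041 a1589 a2092 i1719 i1946 a410 a395 (k1 a404 k0))) (by decide +kernel)
def a2222 : PP 8 4 T 0x402100000000000000154000000000001000005000800000000000155040000000000 := rS 0x19d9c9d45a7c7718 (k8 a406 a203 a33 a52 a347 i2035 i547 a2062 k0) (by decide +kernel)
def a2223 : PP 8 4 T 0x2102000000000000000004000100000000100000000000100204000000400011040 := rS 0xbfa1d1576a2532f4d43d638a1e34f04abd86c560b908e0f (k8 a2187 i224 a425 a408 a277 a2210 a427 a369 (k8 a1160 a2221 a2120 i258 i1839 a132 a1589 a1811 (k4 a2092 i1946 a410 a395 (k2 i1719 a404 k0)))) (by decide +kernel)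
def a2224 : PP 8 4 T 0x202102000000000000000000000100000400000010000000000200000000040001041 := rS 0x12e9b8c2652283538a5e210898fda6b7289fd030c60b90422b21a844a0f2388c6e7b3c9bc9061398600405 (k8 a2109 a349 i220 i1092 a397 i221 i1008 a353 (k8 a418 a446 a9 i224 a2187 i346 a1833 i41 (k8 a371 a1200 a425 a408 a2216 a4 a35 a65 (k8 a118 a2218 a2219 a2220 a2223 a441 i1836 i1913 (k4 a2105 a1938 a599 a406 (k2 a41 a71 (k1 i2045 k0))))))) (by decide +kernel)
def a2225 : PP 8 4 T 0x202002000000000000000000000000000400000010000000000200010000040001041 := rS 0x18d2ae58a081270d3f144eed32a9959704529ccde2d648cc304801284a60507824c2a956aac8e23 (k8 a9 i224 a97 a420 a450 a397 a369 a2187 (k8 a2109 a1816 a1833 a349 i221 i220 i2094 i1123 (k8 i1000 i1008 i1092 a2211 a2224 a385 a63 a72 (k8 a1719 i751 a1685 a1778 a35 i1637 a1066 a389 (k4 a46 a14 a51 a1295 k0))))) (by decide +kernel)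
def a2226 : PP 8 4 T 0x212002000000000000000000000200000000000054000000000200010000040001000 := rS 0xd2160cc3aa12983d6a4711a243605 (k8 a2109 i268 a1013 a9 i224 a444 a2187 a1816 (k4 a1833 i1381 i288 a2211 (k2 a377 a329 k0))) (by decide +kernel)
def a2227 : PP 8 4 T 0x10012002000000000000000000000000800010000000000000000208000000040000042 := rS 0x385141975a712161ec722953bc542535793c7691251e4de16 (k8 i478 i969 i1073 i477 a102 a339 a74 a427 (k8 a1816 a1833 a6 i140 i256 i296 i714 a828 (k4 a406 a329 a5 a68 (k2 a1685 a377 (k1 a564 k0))))) (by decide +kernel)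
def a2228 : PP 8 4 T 0x10002002000000000080000000000000000040000000000000000004440000000000040 := rS 0x72f10829c12af (k4 a427 a369 a67 a1917 (k2 a2041 i1873 (k1 a419 k0))) (by decide +kernel)
def a2229 : PP 8 4 T 0x6002102000000000000004000000104000040000000004000000404400000000015040 := rS 0x35b1d9e3878a5d331954abcc2c5 (k8 a277 a397 a427 a450 a561 a57 a24 a2221 (k4 a1288 i1976 i299 a534 (k1 a132 k0))) (by decide +kernel)
def a2230 : PP 8 4 T 0x1000000000000002000000000000040000000000000000000000000000000000005000000000020040 := rS 0x14ef1 (k2 a441 i1913 (k1 a442 k0)) (by decide +kernel)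
def a2231 : PP 8 4 T 0x2002102000000000000000001000100000440000150004000000204400000461801040 := rS 0x27e2eb83f9dc42435083c8e9549af422d31bc668ac31ea6932614baa55e09 (k8 a369 a427 a450 a24 a397 a57 a336 i1258 (k8 a2210 a111 a561 i995 a2228 a2230 a1589 a115 (k8 a14 i224 a2187 a1833 i41 a1200 i711 a1066 (k4 a471 a465 i1190 a2229 k0)))) (by decide +kernel)
def a2232 : PP 8 4 T 0x212002000000000000000000000000000400000010000000000200010000040001040 := rS 0x7a2e44e081c698dc7ea53ca6a32994ba2628a10d814c2af1195ceab51d98d161921a44e64a549bc2c00 (k8 a2225 i478 i969 a450 i477 i1093 a102 i41 (k8 i1038 i2292 i2290 a339 a444 a453 a58 a9 (k8 a427 a397 a2109 i268 a1833 a389 a1013 a24 (k8 a57 a561 a336 i1073 a2226 a2227 i995 a2228 (k4 a377 a2231 a205 a1000 (k2 a406 i1891 k0)))))) (by decide +kernel)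
def a2233 : PP 8 4 T 0x22102000000000040004000000000001000000010000000000408000050000815040 := rS 0x1101c3da08725d511855ea952b05c83d3c899e313 (k8 a2220 a6 a127 i973 i20 a425 a408 a382 (k8 a450 a427 a397 a2092 a2043 i2180 a1590 i714 (k2 i735 a693 (k1 i1342 k0)))) (by decide +kernel)
def a2234 : PP 8 4 T 0x22102000000000041000001000000001441010110000000000208000000440801040 := rS 0x176a2672e43a9d4fa22307b2e0410e263c8a5e22b50894c2af54b0cff133b88486a560b908e0f (k8 a2187 i224 a425 a408 a382 i41 a1200 i711 (k8 a2220 a35 a2210 a450 a427 a397 i346 a1833 (k8 a371 a6 i256 i973 a127 i737 a2233 i483 (k8 i1891 a406 a693 a33 a347 i1342 i1403 i2046 (k2 i2030 i1951 (k1 i407 k0)))))) (by decide +kernel)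
def a2235 : PP 8 4 T 0x202002000000000000000000000000000400000010000000000200010000040001040 := rS 0x3da2a612f183d9e4b829080fda6c152b90430589adca27f40c31222f4585894630011d6a753eb34468521a84a625079855ea9 (k8 a450 a427 a397 a2187 i346 a1816 a1833 i41 (k8 a361 a9 a380 a73 a453 a444 i224 a2225 (k8 i2290 i477 i478 i2292 i1077 a102 a2232 a4 (k8 a35 a65 a118 a2220 a1778 a1200 a425 a382 (k8 a408 a2218 a2234 a2223 i1836 i483 i973 i1891 (k4 a406 a71 a260 a433 (k2 i1786 a2230 k0))))))) (by decide +kernel)
def a2236 : PP 8 4 T 0x2002002000000000000000000000200000000000000000000000000014100000005000 := rS 0x2e4cf0423b941293 (k8 a115 a369 a382 i208 a425 a722 a1710 a853 k0) (by decide +kernel)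
def a2237 : PP 8 4 T 0x2002102000000000000100000000000000400000014000000004a00004000040000000 := rS 0xb93b9fceab53e99c44543093d5a93 (k8 a115 a420 a74 a397 i225 i224 i1617 i1541 (k4 i767 i1540 i1664 i1625 (k2 a1575 a1698 k0))) (by decide +kernel)
def a2238 : PP 8 4 T 0x2102000000000080100000000100014010000000004000000400015500000005040 := rS 0xceb86528c126156aad82e4 (k8 a425 a408 a97 a420 a397 a369 a99 a1719 (k2 i2033 i545 (k1 a1575 k0))) (by decide +kernel)
def a2239 : PP 8 4 T 0x12102000000000000000000000000000400000010000000000200010000040001041 := rS 0xcb3aad4ae77088a19e274844cfe1c3e945a6476288486532c93d87111ba24964118b24f67917a852a6349c6552af52c50de48398605a61198080a0f (k8 a2187 a2109 a349 i2094 a397 i1000 i220 i1092 (k8 i221 i1008 a389 a2236 a427 a450 a561 a115 (k8 a51 a14 a1833 a183 a353 a418 i1122 i1003 (k8 i22 i1046 i2093 a446 a2235 a2210 a74 i603 (k8 a1816 i41 a1200 a277 a2237 a2238 a1685 a1118 (k8 a377 a1066 a2214 a406 a700 i1149 i1169 i484 (k4 a1096 a2099 a1692 i1011 (k2 a2107 a1688 k0))))))))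 (by decide +kernel)
def a2240 : PP 8 4 T 0x12002000000000000000000000000000400000010000000000200010000040001041 := rS 0x172678b1dcea5532c112714889bc9061398600405 (k8 a2109 a349 i220 i1092 a397 i221 i1008 a2235 (k8 a389 a115 a2239 a63 a72 i1010 i751 a466 (k2 a350 a465 (k1 a853 k0)))) (by decide +kernel)
def a2241 : PP 8 4 T 0x2100000000000000000000000200000000000000000000000000000000000005100 := rS 0x8ee5 (k2 a382 i208 (k1 a425 k0)) (by decide +kernel)
def a2242 : PP 8 4 T 0x22102000000000080000000000010000000000000000010000400000001140005040 := rS 0x15c44b56528c3aad559f4fe515282582e4 (k8 a425 a408 a369 a2241 a65 a35 a340 a97 (k8 a420 a341 a99 a1719 a568 i2030 i505 a1648 k0)) (by decide +kernel)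
def a2243 : PP 8 4 T 0x22102000000000000000000000000000000000000000000000604000000000011040 := rS 0x5614089e25961a04a2b762a94120f (k8 a2187 a369 a2241 a277 a118 a65 a4 a2210 (k4 i603 a2221 a2223 a2120 (k2 a1648 a2099 k0))) (by decide +kernel)
def a2244 : PP 8 4 T 0x22102000000000000000000000000000000000010000000000600000000040001041 := rS 0x974dc60769941a454e29788407ed315a844a591c8dc5a7b3c9bc906139860040540ade262121a94120f (k8 a2187 a369 a2241 i41 a1200 a2220 a118 a4 (k8 a2109 a349 i220 i1092 a397 i221 i1008 a353 (k8 a418 i1000 a446 a401 i603 i346 a1833 a371 (k8 a2242 a2219 a2243 a441 i1836 i1913 a1938 a2105 (k4 a599 a203 a406 a828 (k2 a71 i2045 k0)))))) (by decide +kernel)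
def a2245 : PP 8 4 T 0x502000001000000005000000000001000401005500000000000200000010800000001 := rS 0x27d0e91 (k4 a1938 i1704 a680 i2046 k0) (by decide +kernel)
def a2246 : PP 8 4 T 0x502000000000000005000000000001000401005500000000000208000000840000001 := rS 0x52f1 (k2 a6 i256 (k1 a2245 k0)) (by decide +kernel)
def a2247 : PP 8 4 T 0x502000000000000005000000000001000401005500000000000000000010802000000 := rS 0x27d0e91 (k4 i1169 i1704 a680 i2046 k0) (by decide +kernel)
def a2248 : PP 8 4 T 0x402000000000000004004000000801021000005000000000000000115044802000000 := rS 0xc65fa7e303b (k4 a203 a406 a33 i1725 (k2 a1402 i337 k0)) (by decide +kernel)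
def a2249 : PP 8 4 T 0x502000000000000001000000000000820000000100000000000000000000800000000 := rS 0x21d3cba (k4 i1182 i1181 i3005 a680 k0) (by decide +kernel)
def a2250 : PP 8 4 T 0x2102000000000000000000000000000400000010000000000200010000040001041 := rS 0x24076a608a6c7a27140fd28938b2e59e9d3b9d56a856699c4454230ac86095793d87111c8cc964118b24f67937920c2730c0080a7d409fe270c (k8 a2240 a2220 a35 a4 a340 a2109 a349 i220 (k8 i1092 a397 i221 i1008 a353 a418 i1122 i1003 (k8 i22 i1046 i2094 a401 a2235 a2210 a74 a427 (k8 a369 i41 a371 a2244 i225 i224 i1617 a330 (k8 a455 i767 i1540 i1625 a544 a2062 a1575 a466 (k8 a19 i2044 a2246 a2247 i13 i1839 a2249 i1836 (k4 a1811 i335 a2248 i1168 k0))))))) (by decide +kernel)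
def a2251 : PP 8 4 T 0x2002000000000000000000000000000400000010000000000200010000040001041 := rS 0x21d3cba4a18d34a61e8fc22286689c74908cae5269d6799e2c773abc4aa6565c12267f40c30f27b6486090371c8080a0f049855ea956aad8711 (k8 a2235 a2210 a97 a420 a450 a427 a397 a369 (k8 a2187 a2109 a349 a401 a446 i221 i220 i1122 (k8 a418 a353 a2240 a4 a35 a2220 a2250 a385 (k8 a63 a72 a1762 i1010 i751 a466 a350 a368 (k8 a399 a19 a465 a784 a406 a419 a700 i892 (k8 i1169 i484 i256 i1839 a1811 i335 a412 i2040 (k4 i1182 i1181 i1683 a680 k0))))))) (by decide +kernel)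
def a2252 : PP 8 4 T 0x112102000000000000004000000100000400050454004010500401000000000815040 := rS 0x1945664ad22d433aa8862c1a7b9012af5493d5aab4aa4e28c5 (k8 a277 a389 a115 a14 a97 a420 a74 a450 (k8 a427 a369 a425 a1160 a408 a459 a1700 i970 (k4 a395 a466 a403 a405 (k2 a1692 a1689 (k1 i505 k0))))) (by decide +kernel)
def a2253 : PP 8 4 T 0x112102000000000040000000000100000400000050014000000201000000040811040 := rS 0x171423aad4a8463f9dcfa212194cb20f27b0d2a938a1bca2a1 (k8 a1833 a1685 i969 a389 a115 a14 a2210 a74 (k8 a2187 i603 a1816 i41 a1200 a1118 i711 a1066 (k4 a2252 i225 i767 i1539 (k2 a403 i2044 (k1 a351 k0))))) (by decide +kernel)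
def a2254 : PP 8 4 T 0x112002000000000000000000000000000400000010000000000200000000040001042 := rS 0x31d8a9f188e170f13591e08bd52a9822d31b8fc7b454d46526994ba26281b0283c126157b0c766333a2cca73252a4de16 (k8 i478 i969 a450 i477 i1093 i2641 i2292 i449 (k8 i2290 a339 a2210 a427 a397 a369 a2187 a2109 (k8 i268 a389 a1013 a24 a57 a115 a561 a336 (k8 a111 i1258 a2227 i995 a2228 a2230 a1811 i367 (k8 i1984 a2253 a451 a464 a1762 a853 a419 i987 (k4 i1190 i1880 i299 a132 k0)))))) (by decide +kernel)
def a2255 : PP 8 4 T 0x22102000000000004000000000001001440000010000000000608004000040801040 := rS 0x2b32998a34fa22307b42a1cb8263c84052f1159855ea956aad865189b154a093bb4c42432c89542c13a8c5c80f (k8 a2187 a425 a459 i970 a408 a1833 i346 i603 (k8 i41 a1200 a2242 i711 a369 a2241 a277 a2220 (k8 a65 a2210 a97 a420 a450 a427 a397 a371 (k8 a6 i256 a2233 i973 a127 i483 i737 i1771 (k8 i1891 a406 a693 a33 i280 i2046 a1834 a2010 (k1 i505 k0)))))) (by decide +kernel)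
def a2256 : PP 8 4 T 0x122102000000000000000000000000001440000010004000000600000400040801040 := rS 0x7b454c25e307b3c97052101fa759e338b1d462d3722844a5930abd53133b884860f (k8 a2187 i41 a1200 i711 a2220 a450 a427 a397 (k8 i603 i346 a1833 a425 a2242 a459 i970 a466 (k8 a360 a368 a399 a2255 a2243 i1836 i483 i973 (k4 i1891 a406 a71 a260 (k2 a433 i1786 (k1 a2230 k0)))))) (by decide +kernel)
def a2257 : PP 8 4 T 0x502000000000000001000000000000401401000500000000000008000000840800000 := rS 0x2790e3914b3d3b16 (k8 a466 a399 a368 i256 i297 i1704 a1896 a680 k0) (by decide +kernel)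
def a2258 : PP 8 4 T 0x502002000000000001000004000000001401100500000000100204000010800810000 := rS 0x7b4fd384e87781e53b16 (k8 a466 a399 i973 a2120 i1704 a76 a436 a680 (k2 i713 a1950 k0)) (by decide +kernel)
def a2259 : PP 8 4 T 0x1502002000000000001000004000000001401100500000000100204000500805810040 := rS 0x1e63238530f4f6284434c12af (k8 a427 a369 a1917 a120 a2258 i1890 i1839 a1811 (k4 i282 a42 i1852 a406 k0)) (by decide +kernel)
def a2260 : PP 8 4 T 0x122102000000000000000000000000001440000050014000000200000400041801040 := rS 0x9e438e452101fa6c5b154a2e5269d67c58eab542b3462222a118ee212186c0a0f279bcfa813f9456f13 (k8 a2220 a118 a65 a35 a4 a340 i969 a74 (k8 a2187 a2109 i268 i41 a1200 i711 a2256 i225 (k8 i224 i1531 a330 a455 i767 i1539 a466 a368 (k8 a399 a19 a465 i2044 a1698 i978 a2249 a2257 (k4 a2259 i1836 i1873 i1704 (k2 a1896 a680 k0)))))) (by decide +kernel)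
def a2261 : PP 8 4 T 0x22002000000000000000000000000000040008000000000000000000000000800000 := rS 0xba83 (k2 i2472 i1891 (k1 a1590 k0)) (by decide +kernel)
def a2262 : PP 8 4 T 0x502200000000000000000000000000001440004500040000000000000000000000000 := rS 0x1e13d194eb3e2cc9 (k8 a343 a466 a368 a399 a784 a192 a406 i1075 k0) (by decide +kernel)
def a2263 : PP 8 4 T 0x402200000000000000004000000000001000004200050000010000010000004800000 := rS 0xf31967b953a331821d926b (k8 a464 a343 a773 i970 i1586 i1592 a459 i989 (k2 a1713 a1382 (k1 a406 k0))) (by decide +kernel)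
def a2264 : PP 8 4 T 0x2002000000000000000000000000000400000010000000000200010000040001040 := rS 0xaeb53b1d4f70489944fe7d861ccca911786516162519cc6008890ca61b2681552c3 (k8 a2210 a450 a2109 i525 i268 a1816 i41 a2235 (k8 a2251 i2290 i449 i477 i478 i2292 i1038 i1077 (k8 a102 i2641 i1093 a2254 a340 a35 a65 a2220 (k4 a2260 a2261 a2263 a2262 (k2 i2470 i1627 (k1 a924 k0)))))) (by decide +kernel)
def a2265 : PP 8 4 T 0x802002000000000000000004000000000000100000000000500000000000000000000 := rS 0x419755e4f (k4 a74 a427 a5 a68 (k1 a108 k0)) (by decide +kernel)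
def a2266 : PP 8 4 T 0x412002000000000001001004000100001421000100000000000408000140120805040 := rS 0x196a35da559d4f4ea7e30873d9e57a26410f68a0956aaceeb9 (k8 i1403 i711 a97 a420 a369 a80 i20 a1022 (k8 i1422 i1411 a274 i2472 i737 a406 a33 a347 (k4 a1950 i2046 i1105 i1951 (k2 i281 a1579 (k1 a1834 k0))))) (by decide +kernel)
def a2267 : PP 8 4 T 0x212102000000000000000004000000001460000000004000100200000100020801040 := rS 0x2612f448c1ed06792e0a5e2101fb05c8473ab344685159855ea989a04a62121a94120f (k8 a2187 a369 a2241 i41 a1200 a1816 i2865 a2265 (k8 a450 a427 a397 a371 a361 a9 a380 a453 (k8 i224 a425 a408 a2266 a2223 a441 i1836 i483 (k8 i973 a2105 i1891 a406 a462 a71 a260 a433 k0)))) (by decide +kernel)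
def a2268 : PP 8 4 T 0x112100000000000000800000000000000000040000000010140000000000000000000 := rS 0x16857 (k2 i505 a2107 (k1 a1692 k0)) (by decide +kernel)
def a2269 : PP 8 4 T 0x8112002000000000000400000000100000020050000054000000200000000000001040 := rS 0x16854a191928c151b25263307824c2a927ab556b9 (k8 i1403 a97 a420 a74 a450 a397 a369 a2187 (k8 a360 a19 a405 i280 i1344 i2040 a2108 a121 (k2 i225 a403 (k1 i767 k0)))) (by decide +kernel)
def a2270 : PP 8 4 T 0x12102000000000000000004000000001460040000054000100200000100020801040 := rS 0xe8c88bb2e2277528848659078249e7d (k8 i2864 a74 a369 a2187 i603 i41 a1200 a2241 (k4 i711 a2267 a2268 a2269 (k2 a352 a466 (k1 i2646 k0)))) (by decide +kernel)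
def a2271 : PP 8 4 T 0x2002000000000000000004000000000040108000000000500000000000000800000 := rS 0x2ea0d5e4f (k4 a74 a427 i2472 i1891 (k1 a108 k0)) (by decide +kernel)
def a2272 : PP 8 4 T 0x402202000000000000004000000000001440054000050000510000010000004800000 := rS 0x575a9d8eb11 (k4 a1778 a2263 a2262 i2470 (k2 i1627 a924 k0)) (by decide +kernel)
def a2273 : PP 8 4 T 0x402002000000000001001000000100001421004100000000000408000100120805040 := rS 0x196a35da559d4f4ea7e30873caf44c3da2824eeb9 (k8 i1403 i711 a369 a80 i20 i1422 i1411 a274 (k8 i737 a406 a33 a347 a1950 i2046 i1105 i1951 (k2 i281 a1579 (k1 a2108 k0)))) (by decide +kernel)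
def a2274 : PP 8 4 T 0x622102000000000000000000000000001420004000004000000200000100020801040 := rS 0x5147a984bc60f2a714bc4203f60b908e756688d0a6157aa5a62121a94120f (k8 a2187 a369 a2241 i41 a1200 a341 a450 a427 (k8 a397 a361 a9 a380 a453 i224 a425 a408 (k8 a2273 a2243 a441 i1836 i1913 i973 a406 a71 (k4 a260 i1346 a433 a442 k0)))) (by decide +kernel)
def a2275 : PP 8 4 T 0x522102000000000000000000000000001460004100000000100600000100020801040 := rS 0x9e438e44c29080fd9a852bb28b2a504b3d3aa319b0527163b884860f (k8 a2187 i41 a1200 i711 a466 a19 i1344 a360 (k8 i280 a399 a368 a369 a2241 i603 a2108 i505 (k8 a1949 a2010 a2273 a2243 i1836 i484 i1873 i737 (k2 a1896 a680 k0)))) (by decide +kernel)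
def a2276 : PP 8 4 T 0x1122102000000000000000004000000001460000100000000100200000500061801040 := rS 0x9e438e452101fa159a222a1193acf8b06c0a9b899ed02533b884860f (k8 a2187 i41 a1200 i711 a1816 i2865 a2271 a2265 (k8 i2919 a2109 i268 a466 a368 a399 a2275 i225 (k8 i224 a330 a455 a2257 a2259 i1836 i1873 i1704 (k2 a1896 a680 k0)))) (by decide +kernel)
def a2277 : PP 8 4 T 0x2002000000000000000000000000000400000000000000000200010000040001040 := rS 0x23b94607488c320a7b899f502655b9fd101c288bc328b0b19cc69100128064916c54e0432986c9a0507aa49ec3 (k8 a2210 a74 a450 a2187 a2109 i525 i268 a1816 (k8 i41 a2264 a117 i1240 i749 i221 a440 a349 (k8 a102 i2290 i449 i478 i2292 i1038 i1077 i1358 (k8 i709 i710 i2467 i2468 i2641 i2865 i2864 a2265 (k8 a2271 a2272 a2270 a2274 a2276 i970 a459 i1531 (k1 a425 k0)))))) (by decide +kernel)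
def a2278 : PP 8 4 T 0x10a02000000000000000014000000000000000000000000000000000444041100400000 := rS 0x9d8e8511b345287 (k8 a69 a54 a380 a9 a361 a1190 a1276 i2032 k0) (by decide +kernel)
def a2279 : PP 8 4 T 0x10202000000000000040014000000000141000405054000000000004044541120400000 := rS 0x3da2a696ea7788e90312 (k8 a406 a45 a2278 a355 i334 i722 i2045 a111 (k2 i1257 a442 k0)) (by decide +kernel)
def a2280 : PP 8 4 T 0x212102000000000040100000000000000400440050000000000604000000020001001 := rS 0x198d4b8639dc22286789d20231589586370c0cc2e2d3d9e45ea14aa5d33198a1bc900202aa55e611090d8a0f (k8 a2187 a277 i41 a1200 a397 a427 a450 a2109 (k8 a349 i221 i1008 a389 a561 a57 a24 a14 (k8 a1833 a183 a353 a418 i1000 i999 i2094 i220 (k8 a446 a2210 i346 a371 a9 a2279 a700 i1149 (k8 i1169 i484 a1096 i258 a2119 a132 a1575 i548 k0))))) (by decide +kernel)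
def a2281 : PP 8 4 T 0x10002100000000000040004002000010141000405054000010040404044500000015000 := rS 0xf68a9a5ba9d8c3a789ad7e56629750312 (k8 a406 a45 a5 a277 a1692 i1455 i507 a198 (k8 a1189 a132 i334 a740 i2045 a111 i1257 a442 k0)) (by decide +kernel)
def a2282 : PP 8 4 T 0x800000000000002000000000000000001000000100014010000000000000000000015500000000000 := rS 0x146b9 (k2 a351 a395 (k1 i2033 k0)) (by decide +kernel)
def a2283 : PP 8 4 T 0x2102000000000000000002000000001000005054000000000600044100000001080 := rS 0x5d08448b20f27b0da63f418bd42974cc66290d282a55e61 (k8 a397 a427 a450 i479 a65 a389 a561 a57 (k8 a24 a1833 a183 a374 a458 a402 a2210 a74 (k4 a2187 i603 a406 a2281 (k2 a5 i483 k0)))) (by decide +kernel)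
def a2284 : PP 8 4 T 0x2102000000000000000000000000000400000010000000000200010000040001001 := rS 0x222813a40acb4a1c44fac1721fc8ec51090cb20f27b0da63f52a0d121c1b8cc9641188b5927b3c8bd429549c50de48309cc300202c34a006 (k8 a2277 i479 a65 a2109 a349 i220 i1092 a397 (k8 i221 i1008 a389 a115 a14 a1833 a183 a353 (k8 a418 i1122 i1000 i1003 i22 i1046 i2094 a446 (k8 i480 i2863 a374 i1380 a458 a402 a2210 a74 (k8 a2187 i603 i41 a1200 a277 a2237 a1066 a425 (k8 a408 i1233 a2280 a2282 a403 a1692 a2283 a700 (k2 i1169 i484 (k1 a2099 k0)))))))) (by decide +kernel)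
def a2285 : PP 8 4 T 0x2002000000000000000000000000000400000010000000000200010000040001001 := rS 0x2648042207fa19f442c560b916a6565c1232934c98d2e9517c50e66f3c9ed922d1885c6618240dc042b21a840a25079855ea956aad86d31fa95070d449403806 (k8 a2277 i480 i479 i2863 a65 a374 i1380 a458 (k8 a402 a2210 a97 a420 a450 a427 a397 a2187 (k8 i346 a2109 a1833 i41 a371 a349 a446 i221 (k8 i220 i2094 i999 i1003 i1000 i1122 a418 a353 (k8 i1008 i1092 a389 a183 a14 a24 a51 a57 (k8 a115 a561 a2284 a385 a63 i1397 a1295 a408 (k8 a40 a46 i1233 a2282 a1066 a403 a1347 a2279 (k2 i484 a700 k0)))))))) (by decide +kernel)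
def a2286 : PP 8 4 T 0x10002000000000000000080000000004000000000000000000000000440000000000000 := rS 0x72f1 (k2 a27 i299 (k1 a419 k0)) (by decide +kernel)
def a2287 : PP 8 4 T 0x10002000000000000001054000000000001005005000000000000000440041500000000 := rS 0xa44f12 (k4 a406 a135 a54 i2032 k0) (by decide +kernel)
def a2288 : PP 8 4 T 0x212102000000000000000000000000001440041054040000000200440000000801000 := rS 0x6b08b3c707a63a7d911723ae19a23428ac4ac34aa1e331454abcc2c53b884860f (k8 a2187 i41 a1200 i711 a277 a397 a427 a450 (k8 a389 a561 a1001 a14 a2210 i346 a371 a361 (k8 a9 a380 a2119 i224 a465 a1575 a428 a2286 (k4 a2287 i714 i1981 i1873 (k2 a534 a132 k0))))) (by decide +kernel)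
def a2289 : PP 8 4 T 0x2112002000000000000000000000000000400040404010002000000000000000000000 := rS 0x5c508eab53e93d5a93 (k8 a115 a420 a74 i1541 i767 i1539 a403 a2033 (k1 a351 k0)) (by decide +kernel)
def a2290 : PP 8 4 T 0x12102000000000040000000000000001440401050054000000200440400060801000 := rS 0x5dd3cd49f5fd0d7aca5a1d4fab918b0592e42b11cab113f9dc4243509641ead55a5527454d264c2a94bc50deaf (k8 a427 i969 a389 a24 a450 a397 a57 a336 (k8 a111 a115 a14 a97 a420 a2187 i603 a1833 (k8 i41 a1200 i711 a1066 a2288 a2289 i225 a362 (k8 a425 i504 a408 a459 a1575 i1233 i970 a1693 (k8 i2040 i1417 a84 i1455 a856 a1947 a394 i1946 (k1 a1579 k0)))))) (by decide +kernel)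
def a2291 : PP 8 4 T 0x2002000000000000000000000000000400000010000000000200010000040001000 := rS 0x13ec662af42231530e170f13591e083d1bd1534798ca4d32978a194de73488bd16162519cc63b001340a0f30abd52c3698fc38a541c34a006 (k8 a2277 i479 a65 a374 i1380 i480 a458 a402 (k8 a2210 a450 a427 a397 a2187 a2109 i525 a2285 (k8 a339 i2290 i449 i477 i478 i2292 i1077 a102 (k8 i1093 i969 i2641 a389 a24 a57 a115 a561 (k8 a1386 a336 a111 i995 i1258 a2290 a451 a464 (k8 a1762 a853 a419 a442 i987 i1873 i1984 i1880 (k2 a132 i1190 (k1 i299 k0)))))))) (by decide +kernel)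
def a2292 : PP 8 4 T 0x2002000000000000000000000000000400000000000000000200010000040001000 := rS 0x1019889270280180a4f (k8 a74 a2109 a2277 i479 a2291 i749 i1358 i221 (k2 i2290 a349 k0)) (by decide +kernel)
def a2293 : PP 8 4 T 0x6012102000000000000000000000004000010000000000000000600000000040001042 := rS 0x698406e3f61a94120f8cd147a9a4c98516a94babcc63b (k8 a339 i2290 a427 a24 a450 i2292 a397 a57 (k8 a336 i1258 a111 a561 a2187 a369 a2241 a2210 (k4 a2227 i995 a2229 a2228 (k1 a2230 k0)))) (by decide +kernel)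
def a2294 : PP 8 4 T 0x10002000000000000000054000000000001000005000000008000200440000000001000 := rS 0x35844ba278903c8e41 (k8 i22 i1578 a2187 a406 a135 a5 i484 i507 (k1 a132 k0)) (by decide +kernel)
def a2295 : PP 8 4 T 0x12002000000000000000000000000000800001010000000000200000000040801002 := rS 0x6b08a70707a638dc7e064d46532978a224360530abd8717378ecc68b39aa53e912395882c582b20940f (k8 a2187 i477 i1132 a32 a277 i22 i1133 i1578 (k8 a102 i1187 a450 i1093 i2292 i2290 a339 i969 (k8 a432 a2210 a427 a397 a2109 i268 a1013 a389 (k8 a24 a57 a561 a336 a2293 a458 i995 a2286 (k4 a2294 i714 i879 i1873 (k2 i1907 a132 k0)))))) (by decide +kernel)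
def a2296 : PP 8 4 T 0x4122002000000000000001000000100011044001000004008000200000400000801000 := rS 0x662e99c93a1a612ea28c32c0e7b89adca20f049855ea956aac8e41 (k8 i22 i1578 a97 a420 a450 a427 a397 a369 (k8 a2187 a65 a118 a2220 a2261 i479 i505 a406 (k8 a1834 a71 a260 a395 i1634 a701 a1601 a569 (k1 i1948 k0)))) (by decide +kernel)
def a2297 : PP 8 4 T 0x2002000000000000000000000000000000000000000000000200010000040001000 := rS 0xecb51945247086b04f2e452b148f0543959909117a2c94634a8002c030cc5e228e2086c0a590782552c3 (k8 a2210 a450 a369 a2187 i603 a2109 i268 i22 (k8 a2292 a28 a432 i1130 i220 a437 a349 a521 (k8 i2290 i477 i2292 i1077 a102 i1132 i1133 i931 (k8 a32 i1578 a277 a2241 a425 a1565 a408 a2296 (k4 a2295 i877 i1358 i1634 (k2 i1366 i479 (k1 a2108 k0))))))) (by decide +kernel)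
def a2298 : PP 8 4 T 0x802102000000000000000000000000000000000000000000000200000000480001000 := rS 0x7a114097586075282582212183c8ea3 (k8 i240 i224 a2187 i41 a1200 i1306 a369 a2241 (k4 i1302 a2210 a5 a45 (k2 i483 i1307 (k1 a2092 k0)))) (by decide +kernel)
def a2299 : PP 8 4 T 0x202102000000000000000000000000001000000000000000000200010000000001008 := rS 0xa5e227632193f181dc4d9e9d3b99d94a3239d59a23428ad860762a9412c11090c1e1e1c8dc6631649ecf26f241851e18 (k8 i220 i1130 a397 i221 i1008 a353 a418 i1122 (k8 i1003 i2094 a446 a401 a2297 a2187 i41 a1200 (k8 i1306 a369 a2241 a277 i1302 a2210 a371 a361 (k8 a9 a380 a453 i224 i240 a2108 a1988 i752 (k8 a544 a2062 a2298 a203 a406 a33 i2046 i2035 (k4 i737 a27 i258 a127 k0)))))) (by decide +kernel)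
def a2300 : PP 8 4 T 0x2102000000000000000000000000001000000000000000000600010000000001008 := rS 0x297889d8c864fc60771366a14ea2367a74ee573f19d94a31596556c38681d8ac11090d6aa50483c3c391b8cc62c93d9e4de4830a3c3111 (k8 a2299 i220 i1130 a397 i221 i1008 a353 a418 (k8 i1122 i1003 i2094 a446 a401 a2297 a2187 a369 (k8 a2241 i1395 i41 a1200 i1306 a277 i1302 a81 (k8 a2210 a97 i603 a371 a1697 a2108 a1988 a2107 (k8 i506 i752 a544 a2062 i1663 i1668 a1949 a2010 (k8 a2298 a203 a406 a33 i2046 i2035 i737 a27 (k2 i258 a127 k0))))))) (by decide +kernel)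
def a2301 : PP 8 4 T 0x20002000000000000005014000041001001401005114001000000040155000880000100 := rS 0x1e8fc2283538a0e4c6434553e3b0ec340e77 (k8 i1625 i1302 a81 i10 a345 a33 a561 i2046 (k8 i2035 a389 i1704 i2121 i923 i1836 i257 i1840 (k1 a1811 k0))) (by decide +kernel)
def a2302 : PP 8 4 T 0x112000000000000000000001000008200004010000000000000000000000000000000 := rS 0xa19fd28be (k4 i1113 i1112 i1723 a121 (k1 a403 k0)) (by decide +kernel)
def a2303 : PP 8 4 T 0x2102000000000000000000000000001000000010000000000200010000000001008 := rS 0x2ed44958a1cc5e991f2794e3d08a1c52812ec4a32938b2e59e9d3b9d4fa856699c4454234455ea956b0e1a071090d8ab5528241e1e1c8dd123325904622d649ecf26f241851e18 (k8 i220 i1130 a397 i221 i1008 a353 a418 i1122 (k8 i1000 i1003 i22 i1046 i2094 i2093 a446 a401 (k8 a2297 a2187 a369 a2241 i1395 a277 i41 a1200 (k8 i1302 a81 a2210 a420 a450 a427 a2299 a2300 (k8 i225 i224 i1617 a330 a455 i1541 i1540 i1625 (k8 a544 a2062 a1575 a466 a19 a2301 a406 a5 (k8 a45 a54 a69 i483 i1307 i242 i2046 a1811 (k8 a2302 i405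 i1091 a389 a14 a1272 i1685 i407 k0)))))))) (by decide +kernel)
def a2304 : PP 8 4 T 0x2102000000000000005000000000000000000000000010000401000000080015040 := rS 0x51aad4a09 (k4 a369 a2241 a97 a1697 (k1 a2092 k0)) (by decide +kernel)
def a2305 : PP 8 4 T 0x12000000000000000001011000100104010010000000000000008015120800000000 := rS 0x284943f8bd4711 (k4 a9 i2133 i405 i1663 (k2 i2033 a403 (k1 a121 k0))) (by decide +kernel)
def a2306 : PP 8 4 T 0x2102000000000000000000000000000000000010000000000200010000000001001 := rS 0x1c934b6530fd27165cc44ea7d33888a8463b8f422991433c74274823d922d1892c66184480882052c9855ead61c340ec56088486b5528241e1e (k8 a2297 a2187 a369 a2241 i1395 i41 a1200 i1306 (k8 a277 i1302 a81 a2210 a420 a427 a397 i603 (k8 a2109 i22 a349 i2093 i220 i2094 i1046 i1003 (k8 i1000 i1122 i1130 a2303 a700 i1168 i1149 i1169 (k8 i2769 i484 i1308 a1096 a2304 i225 i224 i1617 (k8 i1541 i1540 a9 a1575 a466 a19 a2305 a1811 (k4 i243 i335 i854 i2805 k0))))))) (by decide +kernel)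
def a2307 : PP 8 4 T 0x20012002000000000000000000000000000000000050004000000000000000000800000 := rS 0x1b931154b9855ea9 (k8 a450 a427 a397 a71 a561 a260 a389 i2645 k0) (by decide +kernel)
def a2308 : PP 8 4 T 0x2102000000000000005000000000000040008000000010000400000000080805040 := rS 0x3c408444c38 (k4 i714 i713 i1873 i3087 (k2 a2304 i1307 k0)) (by decide +kernel)
def a2309 : PP 8 4 T 0x10002102000000000000000000000000001040000000000000000600000000081801000 := rS 0x3d0889cf07b8988caeca5196556c303b0442435aa94120f (k8 a2187 a369 a2241 i1395 i41 a1200 i1306 i1302 (k8 a2210 a97 i603 a1697 a2108 i506 a1648 a2298 (k4 a2308 a406 i1768 i484 (k2 i1308 a2304 k0)))) (by decide +kernel)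
def a2310 : PP 8 4 T 0x10002002000000000005000000000001001415005500000000000200401000080000000 := rS 0x1c0f9e2a71e8446e29409753d1204abc0e43 (k8 i41 i1302 a427 a369 a406 i2046 a5 a45 (k8 a54 i996 i483 i1307 i242 a2041 a1811 a419 (k1 i296 k0))) (by decide +kernel)
def a2311 : PP 8 4 T 0x2002000000000000000000000000000050008000000000000000000000080800040 := rS 0x7aa7408fc22261c0255e1d (k8 i10 a427 a369 i714 i713 i1873 i296 i3087 (k2 i1915 i1307 (k1 a1811 k0))) (by decide +kernel)
def a2312 : PP 8 4 T 0x10002002000000000005000000000001001411005500000000000200401000080800000 := rS 0x87 (k2 a1001 a2310 k0) (by decide +kernel)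
def a2313 : PP 8 4 T 0x2102000000000000000000000000000000000010000000000200010000000001000 := rS 0x6f8aa612e9b3c1ed3acf8b444ea8f42b3462222a11a32893b994e6910c92516162518c7600109043605079855ea98681c3c43 (k8 i41 a2297 i1302 a81 a450 a427 a397 a2187 (k8 a2109 i268 i22 a1200 a2306 a339 i2290 i477 (k8 i478 i2292 i959 i1038 a102 i1093 i2641 i711 (k8 a1013 a2307 a2309 i225 i224 i1531 a330 a455 (k8 i765 i1539 a9 a466 a368 a399 a2311 a2312 (k4 i2649 i1856 a336 a57 (k2 i2645 a389 k0))))))) (by decide +kernel)
def a2314 : PP 8 4 T 0x4002202000000000000000000000000000400000500000000000000015000080005040 := rS 0x28846c152c41c80956aad9647 (k8 a451 a385 a97 a420 a369 a429 a466 a382 (k4 a408 a9 a1834 i240 k0)) (by decide +kernel)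
def a2315 : PP 8 4 T 0x2002000000000000000000000000001000000010000000000200010000000001008 := rS 0x943e27916981f0f422a7172d62287409745272890ea2b195ca4d3acf33c591e773a9bcf27b188cc30481b8e4126157c340e1e21b24ca5578c11860f (k8 a2187 a2210 a2313 a1762 a72 a63 a343 i41 (k8 a2297 i1302 a81 a427 a397 a369 a401 a446 (k8 i221 i220 i2094 i1003 a418 a353 i1008 i1010 (k8 i751 i1130 a2314 a350 a368 a399 a19 a465 (k8 a784 a853 a419 a406 a389 i255 a5 a45 (k8 a69 a205 i884 i1091 i242 i483 i1307 a1811 (k4 i405 i1938 a192 a2302 (k2 i1112 i1597 k0)))))))) (by decide +kernel)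
def a2316 : PP 8 4 T 0x10202202000000000000000000000000001000004000000000000200000000081801000 := rS 0x31422c71409d487860a8e267d11a141e0956aad860721b2c8e6b (k8 a464 a451 a385 i41 i1302 a2210 a97 a420 (k8 a369 a2187 a361 a9 a73 a205 i240 i1305 (k8 a406 a1834 i1768 i973 i2135 i484 i1841 a132 k0))) (by decide +kernel)
def a2317 : PP 8 4 T 0x102200000000000000000000000000000440000400000000000000081000000800000 := rS 0x9d8b27ceac9 (k4 a343 i970 i996 a466 (k2 a399 a192 k0)) (by decide +kernel)
def a2318 : PP 8 4 T 0x12202000000000000004000000000000050000050044000000000182000000800000 := rS 0x372522ab94f27526cf30aa55aab64b2cca6b (k8 a464 a63 a385 a343 a97 a420 a450 a397 (k8 i989 i1510 i1512 a388 i2669 a853 i2040 a389 (k1 i2644 k0))) (by decide +kernel)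
def a2319 : PP 8 4 T 0x102202001000000000004000000000001440001050044000000200400000084800000 := rS 0x2b880ec75188d8723e538f4222940976248704abe327b44c340e43 (k8 i41 i1302 a81 a1013 a2311 a2307 a427 a369 (k8 a1001 a406 a5 a45 a54 i483 i1307 i242 (k8 a1811 i296 a419 a2318 i970 a2317 i711 i1627 (k1 a1005 k0)))) (by decide +kernel)
def a2320 : PP 8 4 T 0x2002000000000000000000000000001000000010000000000200010000000001000 := rS 0x1be2a984ba6cf1113dc65128f3986516162519cc63b0000c360530abd530d0387886c978c11860f (k8 a2187 a2210 a2313 a1762 a343 i41 a2297 i1302 (k8 a81 a450 a427 a397 a2109 i268 a2315 a349 (k8 a339 i2290 i449 i477 i478 i2292 i1038 i1093 (k8 i1132 a1013 a2307 a2311 a2316 a2319 i2649 i1856 (k4 a336 a57 i2645 a389 k0))))) (by decide +kernel)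
def a2321 : PP 8 4 T 0x2002000000000000000000000000000000000010000000000200010000000001000 := rS 0x14e3f4d8b8e5155ca4ccf164ca3c743d088c466181c9dcea6f1380890011b92e329078954cb04159340a0f049855ec38681c3c43 (k8 i41 a2297 i1302 a81 a2210 a427 a397 a369 (k8 a2187 a2109 i525 a371 a2313 a63 a72 a1762 (k8 a2320 a25 a102 i993 i477 a440 a349 a700 (k8 i1008 i1010 i751 a401 i220 i2094 i1003 i484 (k8 i1308 a419 i1130 i2769 a2314 a350 a19 a465 (k4 a853 a389 i1091 i2805 (k2 i405 i335 (k1 a1811 k0)))))))) (by decide +kernel)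
def a2322 : PP 8 4 T 0x2002000000000000000000000000000000000000000000000200010000000001000 := rS 0x80c3088380788605 (k8 a2109 i41 a2297 a2321 i1356 i1357 i2093 i1038 (k1 a349 k0)) (by decide +kernel)
def a2323 : PP 8 4 T 0x12002000000000000000000000000001000000000000000000200000000040001040 := rS 0x70a2d3528891d1189466282f5094c12af54ab557173a8946e7b3c9c49e6f30b2cee558211d92e507920e618010046805 (k8 a2109 a2322 i1115 a349 i220 i1092 i221 a2187 (k8 a364 i2777 i207 a425 a72 i751 a385 a397 (k8 i1008 a74 i749 a353 a418 a446 i346 i1062 (k8 a348 a97 a420 a450 a427 a369 a1816 a1833 (k8 a183 a389 a561 a406 a205 a466 i1131 i248 (k4 a1719 a1685 a377 a2214 k0)))))) (by decide +kernel)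
def a2324 : PP 8 4 T 0x2002000000000000000000000000001000000000000000000200000000040001040 := rS 0xcc5d33930635c28982a5438892e8e8c44626b7289fcfb0c29824c2af54c5cea253d9e596772ac108ec90c3941e48010046805 (k8 a2109 a2322 i1115 a349 i221 a2187 a364 i220 (k8 i2777 i207 a425 a72 i751 a385 a353 a418 (k8 i346 i1062 a348 a450 a427 a397 a369 a1816 (k8 a2323 a340 a35 a65 a118 a2220 a1778 a406 (k8 a466 a71 i1131 i931 i248 i1573 a2108 i327 (k4 i1405 a260 i1143 i1144 (k2 a569 i1948 k0))))))) (by decide +kernel)
def a2325 : PP 8 4 T 0x2002000000000000000000000000001000000000000000000200000000040001000 := rS 0x7b454d2dd02a71d46532978a0be1a83280707ed3030ad42af548e46e2d3d9e4e24f37985e30423b2490e56183ce618010046805 (k8 a2109 a2322 i1115 a349 i220 i1092 a2187 a2210 (k8 a364 i221 i2777 i207 a425 a1762 a397 i1008 (k8 a74 i749 a353 a418 i1000 a446 a401 a450 (k8 a427 a1833 a371 a2324 a402 a458 i480 i479 (k8 a374 a65 a183 a389 a24 a57 a561 a419 (k4 i334 a565 i722 i2045 (k2 a111 i1257 (k1 a442 k0)))))))) (by decide +kernel)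
def a2326 : PP 8 4 T 0x2000000000000000004000000000002000000500000000000440020000002405000 := rS 0x2158910638451e288b9ae08e5 (k8 a364 a425 a464 a348 i1169 a1063 i1836 i2134 (k4 a466 a132 a361 i1841 k0)) (by decide +kernel)
def a2327 : PP 8 4 T 0x20002200001000000000004000004200000000000000000000000000040800000000000 := rS 0xcf33a6528a74eb4c7e3b (k8 a345 i404 a359 a347 i367 i366 a599 i1673 (k2 i1104 a784 k0)) (by decide +kernel)
def a2328 : PP 8 4 T 0x4002000000000000000002000000000000000000500000000000000000000080400000 := rS 0x88a3cf820 (k4 i1306 i1305 i725 a73 (k1 a466 k0)) (by decide +kernel)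
def a2329 : PP 8 4 T 0x20012002000000000000005000000000000000000014000000000400060000002005040 := rS 0x295462e5c9ca2a0930abd52ab65bc608e5 (k8 a364 a425 a1762 a385 a97 a450 a427 a397 (k8 a369 a561 a389 a171 i1091 i327 a2327 a2108 k0)) (by decide +kernel)
def a2330 : PP 8 4 T 0x2002000000000000000000000000000000000000000000000200000000000001000 := rS 0x2dd774f5a2fd8ca462a8c42221f2387a1153c4506812e8a624851d4658207868792277789acaacb8211cde71649e4f6170c1206e39011d402e58b8d1864f579841243508144a0f (k8 a2187 i346 a2109 a1833 i41 a369 a397 a427 (k8 a74 a2210 a2322 a348 a364 i1115 i1062 a349 (k8 a401 a446 i221 i220 i999 a418 a353 i2777 (k8 i749 i1008 i207 a425 a385 a72 a464 a1762 (k8 i751 a2326 a2325 a81 i1302 a2328 a2329 a419 (k8 a1002 a406 i255 a5 a45 a68 a205 i242 (k8 i483 i1307 a466 a1811 i1131 i725 i2237 i1575 (k8 a2108 a132 i1452 a164 a59 i1679 a740 a578 k0)))))))) (by decide +kernel)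
def a2331 : PP 8 4 T 0x20212000000000000000000400000100021400401500000000000008000040000000000 := rS 0x19e875ea068a7b4fa750acd (k8 a380 a361 a347 a33 a390 a80 i1333 i1411 (k2 a982 i1105 (k1 i2046 k0))) (by decide +kernel)
def a2332 : PP 8 4 T 0x20212000000000000080000000040000021400401500000000000204000000140000040 := rS 0x4c5119cb789a1d025c13040127b4fa750acd (k8 a380 a361 a347 a33 a390 i222 a1917 i484 (k8 i483 i1770 i737 a5 i1930 i2046 a462 i1104 (k1 a433 k0))) (by decide +kernel)
def a2333 : PP 8 4 T 0x20212000000000000080000400004100021400401500000000000200000000140000040 := rS 0x19e875ea068aae1f8aca67b4fa750acd (k8 a380 a361 a347 a33 a390 a1816 a371 a2331 (k4 a2332 a381 i1862 i1987 (k2 a982 i1105 (k1 i2046 k0)))) (by decide +kernel)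
def a2334 : PP 8 4 T 0x20212100000000000000000000000000001400000080000000000600000000041001040 := rS 0xaf1f8450028139e128bf652ad0650540bd46773192800033a8c5c8160d814aead3f304424352b4812fd1283d4253 (k8 a1816 a1833 a2187 i346 a2330 i222 a1807 a2241 (k8 i41 a1200 a44 a2218 i1556 a58 a2109 i268 (k8 a437 a425 a459 i970 i220 a349 i477 i2290 (k8 i711 a99 a359 a1047 i1094 i923 i497 a1834 (k8 a396 i624 a2333 i1768 i973 i1097 i484 i256 (k2 i1862 a1917 k0)))))) (by decide +kernel)
def a2335 : PP 8 4 T 0x20012001000000000001000000010100001401401554005004400400000000000005140 := rS 0x19cba43b29565060a8da47b4fa6d3a974cab95314 (k8 a389 a85 a561 a57 a71 a347 a41 a33 (k8 a390 a1807 a99 a44 a920 i497 a1834 a1449 (k2 i626 i2046 (k1 i1950 k0)))) (by decide +kernel)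
def a2336 : PP 8 4 T 0x20212100000000000000000000000000001400001010000000000600000000041001040 := rS 0x32c224e1394504c30e8ecf6973b98cc200019d462e442b34aeb5569f9822121a95a4097e8941ea129a662873378583605 (k8 a2109 i268 a437 i969 a2334 a389 a57 a1816 (k8 a1833 a2187 i346 a2330 i222 a1807 a2241 i41 (k8 a1200 a44 a2218 i1556 a444 a58 a380 a361 (k8 a425 a459 i970 i220 a349 i961 i2290 i711 (k8 a71 a390 a345 a341 a276 a2335 a374 i735 (k4 a467 i484 i1389 a1675 k0)))))) (by decide +kernel)
def a2337 : PP 8 4 T 0x20212100000000000000000000000000001400000010000000000600000000041001040 := rS 0x32d746a272fd043f089456e2813c4cf081a2ab952998a1ce867e5aa84a64d12b0c424362a941ec1693f52e6f0b06cc6610000c0a09 (k8 i222 a2109 i220 a349 i961 i2290 i268 a437 (k8 i969 a71 a2330 a1807 a44 a2187 a2241 a277 (k8 i41 a1200 a276 i346 i525 a1816 a1833 a444 (k8 a2218 a133 a2334 a389 a57 a85 a561 a381 (k8 i1862 a2336 a398 i1768 i973 i1933 a1386 i484 (k8 i256 a462 i1724 a467 a187 i926 i1389 i1947 k0)))))) (by decide +kernel)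
def a2338 : PP 8 4 T 0x12000000000000080000000000000000008460000000000000200000000100000140 := rS 0x11578fd6e274044c5653 (k8 a1816 a371 a69 i1710 i737 i856 a1022 i1862 (k2 i484 a1917 k0)) (by decide +kernel)
def a2339 : PP 8 4 T 0x20112100000000000000000000000000001400000080000000000600000000001001140 := rS 0x2247843b34f8573fab156cb4193ca0a829a945ec151b49fa7b31924834f429a992cf8b1dc42433a8c5c86525058369d4fa2cce0001814b20f (k8 a2187 i603 a2109 i220 a349 i449 a52 a33 (k8 a347 i268 a437 i477 i2641 a425 a459 i970 (k8 i41 a1200 i711 a466 a368 a405 a388 i1869 (k8 a394 i22 i959 i2290 a390 a2330 a1807 a99 (k8 a44 a359 a2241 a1816 a1047 i1094 i757 i923 (k8 i623 i2315 a1834 i1556 i1582 i1313 a2010 a2338 (k2 i2046 a436 (k1 a398 k0)))))))) (by decide +kernel)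
def a2340 : PP 8 4 T 0x20012100000000000000000000000000001400000010000000000600010000041001040 := rS 0x4a45112735ca4c6716889d462e4528b45ec151b4812fd379dc2c1b02884860f (k8 a2187 i41 a1200 a2109 i268 a437 i711 i969 (k8 a2330 i222 a1807 a99 a44 a359 a329 a2241 (k8 a425 a459 i970 a2337 a466 a360 a19 a465 (k4 a2339 a1013 a389 i2033 (k1 a14 k0))))) (by decide +kernel)
def a2341 : PP 8 4 T 0x12000000000000080000000000000000008440000000000200200000000800000140 := rS 0x578447eb71444c5643 (k8 i41 a371 a69 i1704 i856 a1022 i1836 i500 (k1 a1917 k0)) (by decide +kernel)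
def a2342 : PP 8 4 T 0x400000000000020102000000000000001000000000000001405000500000000000000000000000000000 := rS 0x448f07b4fa759f16 (k8 a466 a368 a347 a33 a390 i2046 a436 a398 k0) (by decide +kernel)
def a2343 : PP 8 4 T 0x20012100000000000000000000000000001400000010000000000200010000041001040 := rS 0x4556a733eaf4a281570447eb71444d0d4f352e5929367c58ff113aa159aab111508c5369025fa9f4da2d3a6f3b884860f339949400018583605 (k8 a2109 i268 a437 i220 a349 i477 i2641 i449 (k8 a2187 i41 a1200 i711 i969 a347 a52 a41 (k8 a33 a2330 i222 a1807 a1816 a2340 i225 i224 (k8 i1656 a330 a455 i1539 a9 i1664 a466 a368 (k8 a19 a405 a465 a388 a394 a2342 a69 i1704 (k8 i856 a2257 i1836 a1917 i1862 i500 i1987 i1710 (k4 i1094 i934 a2033 a389 k0))))))) (by decide +kernel)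
def a2344 : PP 8 4 T 0x112000000000000000201000000140000000040080000011008400000000000805140 := rS 0x15acb559416ab9 (k4 a171 a259 i1094 i584 (k2 a2107 i1314 (k1 a1834 k0))) (by decide +kernel)
def a2345 : PP 8 4 T 0x20012100000000000000000000000000001000000010000000000200010000041001040 := rS 0x6689e2682289f158b565aad5ca98a1ccf2472a959907f88a38c249251bc00160190456530d814b2c362a941e1d60a8da4097e9ed3697 (k8 a71 a41 a390 a2330 i222 a1807 a99 a44 (k8 a341 a2187 a2241 a277 a276 i603 a2109 i268 (k8 a1816 a371 i22 i220 a437 a349 i969 i477 (k8 i959 i961 a2343 a28 a930 i1132 i1133 i765 (k8 i1578 a1565 a2344 a389 a85 a561 i583 i2324 (k8 a1244 a1834 i1581 i1314 a920 a68 i735 i894 (k1 a1069 k0))))))) (by decide +kernel)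
def a2346 : PP 8 4 T 0x20012100000000000000400000050000001000000050000004002600000000000001140 := rS 0xa02082379aca2aa1590ca6c35283c3ac151b48f69b4b9e5e2fd (k8 a2330 a1818 a353 a71 a41 a390 a1807 a99 (k8 a44 a341 a2187 a2241 a276 a1816 i41 a371 (k8 a1834 i497 i585 i1009 a920 a1626 a1898 i1836 k0))) (by decide +kernel)
def a2347 : PP 8 4 T 0x20012000000000000000000000041000000000000054000000200000000000000000000 := rS 0x22861 (k2 i1311 a389 (k1 a561 k0)) (by decide +kernel)
def a2348 : PP 8 4 T 0x20012100000000000001000001051000001411000550000004002600040000000001140 := rS 0x10c81a2b3c7c644c980dc832813d7eca1594d4e2d178f5a4fd1d9ed3e9b1ca752e79 (k8 a353 a71 a347 a42 a41 a33 a390 a345 (k8 a2330 a1807 a335 a359 a329 a1825 a1816 a371 (k8 a2346 a396 i1389 a467 a374 a2347 i1008 i2686 (k4 i1392 i2034 a454 a80 (k2 i1333 i2046 (k1 a982 k0)))))) (by decide +kernel)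
def a2349 : PP 8 4 T 0x20012001000000000000000000000000001000400050000000502000000000000000000 := rS 0x6f3da6d2e79 (k4 a353 a71 a41 a390 (k2 i1009 a920 k0)) (by decide +kernel)
def a2350 : PP 8 4 T 0x400000000020012101000000000000114000091000001010000050000004002200055000040000040 := rS 0x319746a6544d565c2820c52f11f264c62b29a9c5a1d178f546d2048ecf69b1ca2d2e79 (k8 a353 a71 a52 a42 a41 a390 a345 i222 (k8 a1807 a99 a335 a359 a341 a329 a1825 a1816 (k8 a371 i539 a837 i2034 a6 i256 a1898 a2349 (k8 i499 i497 a5 a439 i625 i626 a2222 i1679 k0)))) (by decide +kernel)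
def a2351 : PP 8 4 T 0x20212100000000000000000000000000001000000010000000000600010000040001040 := rS 0x1b8c4503313cecca57ab6867e5a9d4aecd42a84a64d12b0d8aa560b49fa8f449cc6221078dc903364aa404010c10c0a09 (k8 i222 a2109 i41 a2345 i1038 a349 i1085 i1122 (k8 i2094 i221 a446 a2187 a1200 i1042 i1092 i230 (k8 i1130 a2330 a1807 a44 a2241 a277 a276 i346 (k8 i525 a1816 a1833 a361 a380 a58 a453 a444 (k8 a2218 a133 i1556 a2350 a2346 a2348 i1389 i752 (k4 a467 i545 a2347 i1320 k0)))))) (by decide +kernel)
def a2352 : PP 8 4 T 0x102000000000000000000020000000000400000400000000002000000000000000000 := rS 0xeb17 (k2 a465 i2688 (k1 a466 k0)) (by decide +kernel)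
def a2353 : PP 8 4 T 0x112000000000000080000010000100000410000550000000000000015000000000000 := rS 0x6f8aa512716168bd82a3 (k8 a99 a44 a359 a329 a466 a19 i2033 a14 (k2 i1057 a389 k0)) (by decide +kernel)
def a2354 : PP 8 4 T 0x12000000000000000000000000000020000000050000000002000000000000000000 := rS 0xdf15 (k2 a14 i2685 (k1 a389 k0)) (by decide +kernel)
def a2355 : PP 8 4 T 0x112000000000000080000000000100000410000450000000002000015000000000000 := rS 0x491d1722d17b054695 (k8 a2354 a99 a44 a359 a329 a2352 a2353 i2033 (k1 i1590 k0)) (by decide +kernel)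
def a2356 : PP 8 4 T 0x20012100000000000000000000000000001000000010000000000600010000040001040 := rS 0x37940c44f652bd5b433f1f446543315d6a7688a84a64d12b0d8aa50eb0546d27ea3d1273188841e37240cc964164aa404010c10c0a09 (k8 i222 a2109 i41 a2345 i1038 a349 i1085 i1122 (k8 i22 i1046 i2094 i221 a446 a2187 a1200 i1042 (k8 i1092 i230 i1130 a2330 a1807 a99 a44 a341 (k8 a2241 a277 a276 i346 i525 a1816 a1833 a2351 (k8 a2355 i807 i1628 i752 i751 i1625 i2974 i2030 (k8 a133 i1556 a2350 a2346 i1389 i545 a467 i1320 (k1 a2347 k0))))))) (by decide +kernel)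
def a2357 : PP 8 4 T 0x20012100000000000000000000000000001000000010000000000200010000040001040 := rS 0x77888888c3324008627344a3c02180288486a507b4812fd (k8 a2330 i222 a1807 a2187 a2241 i41 a1200 a2109 (k8 a2345 i1038 i1130 i230 i1092 i1042 a349 i221 (k4 i2094 a2356 i224 a9 (k2 i1625 a2355 k0)))) (by decide +kernel)
def a2358 : PP 8 4 T 0x20102100000000000004100004008000001000050054050010011000000000000000000 := rS 0xf2564c95686bf3da2d3a97 (k8 a71 a347 a52 a390 a367 a106 i1657 a1174 (k2 a362 a1478 (k1 a1115 k0))) (by decide +kernel)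
def a2359 : PP 8 4 T 0x20102100000000000000000004010000001400050054000000000600010000001001140 := rS 0x9544aa594ab5cb2526cf19c58ca493398cea770005806410d9340a591090d4a2d17b0546d27e8c5c80f (k8 a2187 a425 a459 a2330 a1807 a99 a44 a359 (k8 a329 a2241 i41 a1200 i603 a2109 i525 i268 (k8 i22 i220 a437 a349 i711 i970 i2290 i449 (k8 i959 i963 a466 a360 a368 a19 a405 a465 (k4 a2358 a1719 i623 a754 (k2 a1042 i2033 k0)))))) (by decide +kernel)
def a2360 : PP 8 4 T 0x102101000000000000000000009000020000040100040010000000000000000000000 := rS 0x32158c655 (k4 i1657 i537 a362 a1042 (k1 i1579 k0)) (by decide +kernel)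
def a2361 : PP 8 4 T 0x2101000000000000000010001010000410050510000010100400014001140005140 := rS 0xb42795046622b98594ab8aa5126678b0b45ea35687622c152b4862e4 (k8 a425 a459 a1807 a2241 a44 a2218 a341 a1198 (k8 a99 a359 a329 a466 a350 a19 i2033 a14 (k8 a2360 a1719 i1019 i505 a438 a1648 a362 i1350 (k2 i2030 i767 k0)))) (by decide +kernel)
def a2362 : PP 8 4 T 0x20002101000000000000000004011000001000100254000000112400054040000005140 := rS 0x994198c52f15531996cf4399cacc362a943ac151b48767b4fa6c729d4b8c5c879 (k8 a353 a425 a459 a71 a347 a42 a41 a33 (k8 a390 a345 a1807 a99 a44 a341 a2241 a277 (k8 a276 i1011 i1588 i1707 i1067 i505 i2035 a1834 (k4 a27 i259 i537 a1898 (k2 a837 i2045 k0))))) (by decide +kernel)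
def a2363 : PP 8 4 T 0x2101000000000000000000001010000410050510000010102400014001140005140 := rS 0xb988b054ad2 (k4 a1807 a2241 a44 a2218 (k2 a2352 a2361 k0)) (by decide +kernel)
def a2364 : PP 8 4 T 0x20002100000000000000000000000000001400000010000000000600010000040001040 := rS 0x46b53b1d55233240dc048900860564d02a8cde73409456ead3e87622c152b4812fd12a84b2212183cff0c (k8 a2357 a35 a2187 i41 a1200 i603 a1833 i346 (k8 a2330 i222 a1807 a2241 a44 a2218 a341 a340 (k8 a1198 a118 a65 a4 a370 a357 a99 a2109 (k8 i525 a371 a2359 i1038 i230 a349 a446 i221 (k4 i2094 i1085 a2362 a2363 (k2 i807 i1625 (k1 i2030 k0))))))) (by decide +kernel)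
def a2365 : PP 8 4 T 0x20102100000000000000400024050000001004101054000000000600000000000001140 := rS 0x67a619b1341970521035bc4564361874f69b4baa94a0f60a8da4fd (k8 a2330 a1807 a99 a44 a2187 a2241 a1834 a71 (k8 a41 a390 a341 a276 i41 a371 a1818 i585 (k8 a1626 i1836 i483 a1898 a5 i1970 i2045 a569 (k1 i1143 k0)))) (by decide +kernel)
def a2366 : PP 8 4 T 0x400000000000000102100000000000000400084000040000005000000000000000600000000000001000 := rS 0x5c89040d6cd63b0d8a0f (k8 a2187 a277 a276 i1679 i1948 i1947 a132 a436 (k2 i483 a5 k0)) (by decide +kernel)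
def a2367 : PP 8 4 T 0x20102100000000000008400024088040001004101054000008000600000000000001000 := rS 0x1ad78995da169e9b45afe8745 (k8 a381 a106 a367 a52 a41 a3 i1870 a2366 (k4 i1144 a404 a1225 i1986 k0)) (by decide +kernel)
def a2368 : PP 8 4 T 0x20002100000000000000000000000000001000000010000000000600010000040001040 := rS 0x9904104cb3d5cb85532cacc82519c00033ca1c32658ba395a052cb0d8a1d518ecf69b4b9f4de73409456f113fc31822121a95a4097e8941ea1 (k8 a1833 a2187 i346 a2330 i222 a1807 a2241 i41 (k8 a1200 a44 a2357 a35 a2218 a118 a65 a4 (k8 a370 a357 a340 a71 a41 a390 a345 a99 (k8 a341 a277 a276 i603 a2109 a1198 a2364 a432 (k8 i1025 i1130 i931 a1565 i220 a349 i449 i477 (k8 a352 i1133 i505 a1834 i584 a2365 a2367 i1143 (k4 a1675 i2045 i484 i735 k0))))))) (by decide +kernel)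
def a2369 : PP 8 4 T 0x20002100000000000000000000004000001400050054000002000200000000841001040 := rS 0x2b686945ab2d7aae088fc50bb89a1a9e6a5cb2526cf8b1d4ca4a001dc2c030d8153e9b45a7622c11090d4ad204bf44a0f50b350a67 (k8 i2973 a455 a330 a1833 a2187 i346 a2330 i222 (k8 a1807 a2241 i41 a1200 a44 a2218 a347 a52 (k8 a41 a33 a2109 i268 i220 a437 i1626 a349 (k8 i477 i2641 i1539 a466 a368 a19 a405 a465 (k8 a388 a394 a2342 a69 i3005 i1704 a2257 i1836 (k8 a1917 i1987 i626 i934 i2044 a121 i1557 a439 k0)))))) (by decide +kernel)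
def a2370 : PP 8 4 T 0x20002100000000000000000000000000001400000010000000000200010000040001040 := rS 0x15cca088fd2893142ee26b98b2199e773a9e552c91992004010c0145ea33da7d3a7d379ce227f86304424352b49fa2507a84ae41558259a8533888a846 (k8 a2368 i225 i224 i2973 a455 a330 i222 i1656 (k8 i22 i1578 a1833 a2187 i346 a2330 a1807 a2241 (k8 i41 a1200 a44 a2357 a35 a2218 a370 a357 (k8 a340 a347 a33 a390 a99 a359 a2109 a2369 (k8 i1038 a349 i221 i2094 i1122 i1085 a353 i1011 (k8 i752 a2062 i2046 a466 a2352 a69 i3005 i1704 (k4 a19 a1892 a2246 i1836 (k2 a476 a1917 (k1 i626 k0))))))))) (by decide +kernel)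
def a2371 : PP 8 4 T 0x20002100000000000000000000000000001000000010000000000200010000040001040 := rS 0x101920328e2a1188205 (k8 a2109 i22 a2368 i225 a2370 i1130 i765 i220 (k2 i959 a349 k0)) (by decide +kernel)
def a2372 : PP 8 4 T 0x102000000000000000401000011140000400040000008000010400015500000005140 := rS 0x3ac5cee933350d72aa (k8 a1834 i1405 a106 i537 i1636 a1644 a350 i1588 (k1 a466 k0)) (by decide +kernel)
def a2373 : PP 8 4 T 0x2100000000000001100000054005001401005500000002000600555000000001140 := rS 0x138429e866333ccec31090d8aa507b05a4fd (k8 a2330 a1807 a44 a2187 a2241 a277 i41 a1200 (k8 a276 i1619 a2062 i2035 i2046 a59 a1659 i737 (k1 i484 k0))) (by decide +kernel)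
def a2374 : PP 8 4 T 0x20002100000000000000000000000000001000000000000000000600010000040001040 := rS 0x5a1d8eacd42950aeab652b49a59168bd463b3da7c729d478c4301b1b8cd92a93c94496413e9395e6245c44fe48010042e1d029c1822121a95a4097e8941ea1 (k8 a1833 a2187 i346 a2330 i222 a1807 a2241 i41 (k8 a1200 a44 a2371 a2109 a341 i709 i478 a349 (k8 i221 i2506 a2218 a52 i750 i539 i749 i2869 (k8 i22 i1046 i1359 a353 i1085 i1122 i2094 a446 (k8 i268 a437 i1042 i1130 a347 a42 a33 a390 (k8 a345 a99 a359 a329 i603 i525 a1198 a2372 (k8 i123 i505 i1390 a1949 a2010 i1011 a2373 i1389 (k1 i2509 k0)))))))) (by decide +kernel)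
def a2375 : PP 8 4 T 0x20002100000000000000000000000000001000000000000000000200010000040001040 := rS 0x447e2889a199e773aa159a67111508d11579fcc4796492c66484780830010b9c13a8b4f9ec82a10d8144a2121a941e1d60b4812fd (k8 a2330 i222 a1807 a44 a341 a2187 a2241 i41 (k8 a1200 i346 a2109 i268 a1833 i22 a390 a33 (k8 a52 a347 a2371 i709 i478 a437 a349 i1130 (k8 i221 i2094 i1046 i1122 a353 i750 i2506 i539 (k8 a2218 a2374 i225 i224 i1617 a330 a455 i1540 (k8 i1625 a2062 i2046 a69 i1704 a2246 i1836 a1917 k0)))))) (by decide +kernel)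
def a2376 : PP 8 4 T 0x10202100000000000004000000000004001400005000400000000200000000000801000 := rS 0x22c72ea7224c362a159a752388c76771090c1e87 (k8 a1001 a2187 i41 a1200 i711 i1155 a9 i224 (k8 a453 a380 a361 a277 a276 a406 i2046 a5 (k2 i1641 i483 (k1 a132 k0)))) (by decide +kernel)
def a2377 : PP 8 4 T 0x14202100000000000004000000000004001400001000000000000200004000001001000 := rS 0x446e383d1ac1e47118ec2c1b458000605 (k8 a2109 i220 a349 i2292 i268 a437 i1155 a9 (k8 i224 a2187 a534 a2376 i714 i1776 i1873 a1189 k0)) (by decide +kernel)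
def a2378 : PP 8 4 T 0x14202100000000000000000000054004001400001000000000000200004000001001140 := rS 0xb912081ee9ece61b154a0f1eb0546d27eb348e23 (k8 a9 i224 a380 a2330 a1807 a99 a44 a335 (k8 a2187 a2241 a277 a276 a2377 a3 i1980 a1700 (k2 a406 i483 (k1 a5 k0)))) (by decide +kernel)
def a2379 : PP 8 4 T 0x14212100000000000000000000054004001400400004000000000200004000001001140 := rS 0x111fadc4f133c0ada4fd (k8 a2330 a1807 a371 a2378 a398 i1768 i1933 a1022 (k2 i484 a1917 k0)) (by decide +kernel)
def a2380 : PP 8 4 T 0x400000000010212100000000000000000000010000001400000084000000000200000000001001140 := rS 0xce5e9a95c334fc5d28c8652ad0650540bd46d27e95cc64a458000605 (k8 a2109 i220 a349 i2292 i477 i2290 a58 a2330 (k8 a1807 a99 a359 a1047 i1094 i923 i497 a439 (k8 i623 i624 a405 a428 i1671 a2379 i625 i1987 (k2 a534 i1105 k0)))) (by decide +kernel)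
def a2381 : PP 8 4 T 0x2100000000000080100000000100014010000000041000000400011000000000000 := rS 0x17233168bd82a3 (k4 a99 a44 a359 a329 (k2 a1574 a1575 (k1 i2033 k0))) (by decide +kernel)
def a2382 : PP 8 4 T 0x14002101000000000000000400041004140040000000005000000400400000000005140 := rS 0x358458ecf1c0dd34f161b145ad2 (k8 a1807 a329 a277 a276 a1818 a336 i994 a828 (k4 i1152 a2286 i1873 a534 (k1 a132 k0))) (by decide +kernel)
def a2383 : PP 8 4 T 0x202100000000000000000000000000001400000010000000000200010000041001040 := rS 0x19cba352b97eca55a7e2ec854a652e958a224e69330a2cce633b8ecde000b00c36058cc3686ad3f304424352b4812fd12a84a6317211c460f (k8 a2187 a9 i224 a425 a459 a1816 a1833 i346 (k8 a2330 i222 a1807 a2241 i41 a1200 a44 a2218 (k8 i1556 a133 a35 a2375 a2109 i268 i220 a437 (k8 a349 i969 i1155 i711 i2290 i449 i2292 i961 (k8 i1637 a2380 a1013 a389 a14 a24 a57 a85 (k8 a2381 a405 a428 i583 a439 a396 a2382 i625 (k2 i626 a534 (k1 i1950 k0)))))))) (by decide +kernel)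
def a2384 : PP 8 4 T 0x2101000000000004500020010000000000000000000000000400000000000015140 := rS 0x66351958717 (k4 a465 a276 i1027 a1626 (k2 a352 i548 k0)) (by decide +kernel)
def a2385 : PP 8 4 T 0x202100000000000000000000000000001400000010000000000200010000040001040 := rS 0xa0ae27aad954f67844745d5c4492a793db2490374980866730085c302b02b0d8a2f51c64eab52388e1aad3f304424352b4812fd1283d4253 (k8 a1816 a1833 a2187 i346 a2330 i222 a1807 a2241 (k8 i41 a1200 a44 a2218 i1556 a35 a9 i224 (k8 a444 a453 a2375 a99 a359 a277 a276 a2109 (k8 a371 a2383 i43 i1038 i1092 i232 a349 i1638 (k8 a446 i221 i1122 a418 a353 a2354 a406 a1892 (k8 a5 a2278 i483 i1145 a1160 a2384 i123 i1389 (k2 a1691 a467 (k1 i499 k0)))))))) (by decide +kernel)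
def a2386 : PP 8 4 T 0x202100000000000000000000000000001400000000000000000200010000040001040 := rS 0x6012485ce07e508144a2121a941e1d60b4812fd (k8 a2330 i222 a1807 a44 a341 a2187 a2241 i41 (k8 a1200 i346 a2109 a1833 a2218 a2385 i709 i2506 (k2 i478 i221 (k1 a349 k0)))) (by decide +kernel)
def a2387 : PP 8 4 T 0x112000000000000080000000000100000400000550000000000000011000004000000 := rS 0x448cd7316 (k4 a466 a465 a360 a1013 (k1 a2353 k0)) (by decide +kernel)
def a2388 : PP 8 4 T 0x10002101000000000000500000050000000040000000050000000400400000000005140 := rS 0x723708278d6f1618c5c8aa52b0546d2 (k8 a1807 a99 a44 a2241 a1834 a425 a459 a276 (k4 a1818 i585 a1947 a1626 (k2 i996 i1873 (k1 a419 k0)))) (by decide +kernel)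
def a2389 : PP 8 4 T 0x2000000000000080000000040000400040000000000000000000200000000000140 := rS 0x7e11 (k2 i1873 i297 (k1 a1917 k0)) (by decide +kernel)
def a2390 : PP 8 4 T 0x10102101000000000001000000040000401445000400050000000000001000000800140 := rS 0x89d3cf06a4f8d8f63978b4876cf4eb262c75 (k8 i970 a466 a405 a399 a368 i1155 a1807 a1818 (k8 a2389 i714 a419 i996 a1947 i2046 a394 a398 (k1 a436 k0))) (by decide +kernel)
def a2391 : PP 8 4 T 0x2100000000000000000000020000001400040000000000000600010000041001040 := rS 0x1ee26792e2055c8566a1ca883281c9370d442a0f8955094c4a59528b45ec151c64e21d69025fa67459949400018cd26b98b1d462e4889dc2c1b02884860f (k8 a2187 i41 a1200 a2109 i268 a437 i711 a2386 (k8 a425 a459 i970 a466 a465 a19 a360 i220 (k8 a349 i477 i2641 i2292 i449 a2330 i222 a1807 (k8 a341 i709 a2375 a99 a44 a359 a329 a2241 (k8 i603 i346 a1816 a1833 i1557 a1198 a479 i2033 (k8 a340 a457 a1013 i1094 i923 i1314 a2338 a330 (k8 a455 a2390 i1862 i499 i1097 a5 i1891 a406 k0))))))) (by decide +kernel)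
def a2392 : PP 8 4 T 0x2101000000000080100000001100004000000000055000000400011000000000010 := rS 0x12a89 (k2 a754 a1042 (k1 a2381 k0)) (by decide +kernel)
def a2393 : PP 8 4 T 0x11002101000000000004500000010001400040000000050000000400400000000005140 := rS 0x97a2a655caa52b0546d2 (k8 a1807 a99 a44 a2241 a1834 a2388 a1174 a381 (k2 i1899 a422 k0)) (by decide +kernel)
def a2394 : PP 8 4 T 0x2100000000000000000000000000001400000000000000000600010000041001040 := rS 0x7f5632d371554325269d67c58ea317214d4ad27ec66223b3b884860f3199d1661049949400018583605 (k8 a2109 i268 a437 i220 a349 i477 i2641 i222 (k8 i961 i2292 i449 i2290 a2187 i41 a1200 i711 (k8 i1155 a2386 a2375 a2330 a1807 a2241 a1816 a425 (k8 a459 i970 a466 a368 a399 a19 a405 a2392 (k4 a400 a457 i623 a2393 (k2 i1556 a2391 k0)))))) (by decide +kernel)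
def a2395 : PP 8 4 T 0x10102101000000000000400000014000001440040404045002008200001000800800140 := rS 0x2267b3c9712e815721d065086a6ce4a84ac5684b5299c43ad266a1526b98b1d4ca7d (k8 i1541 i2641 i1539 a466 a465 a19 a455 a330 (k8 a1807 a341 i709 a1816 i768 a439 a1698 a121 (k8 a438 i2044 a457 a456 i1094 i923 a2341 a2390 (k4 i1862 i1899 i499 i1097 (k2 i841 a5 (k1 a406 k0)))))) (by decide +kernel)
def a2396 : PP 8 4 T 0x2001000000000080000010001100004000000000014000000000015000000000010 := rS 0x12a89168bd82a3 (k4 a99 a44 a359 a329 (k2 a754 a1042 (k1 i2033 k0))) (by decide +kernel)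
def a2397 : PP 8 4 T 0x10102101000000000001000000040000401441000500050000000040001000840800140 := rS 0x223f1444d0cd2 (k4 a1807 a2390 a69 i1704 (k2 a2257 i1836 (k1 a1917 k0))) (by decide +kernel)
def a2398 : PP 8 4 T 0x2000000000000085000000000005001401144580000000008200000000800000140 := rS 0x873ca0ca10d (k4 a456 i1094 i923 i1097 (k2 a2341 i2046 k0)) (by decide +kernel)
def a2399 : PP 8 4 T 0x2100000000000000000000000000001400000000000000000200010000041001040 := rS 0xf90c39a7cf6984ba068aae4aab16acb4dc5550b964a4d3acf19c58fe7542b3462ab111508c6530a2c9467319dce26f0005806530d81442435283c3ad204bf63311 (k8 a2386 a2375 a2330 i222 a1807 a341 a2187 a2241 (k8 i41 a1200 a2109 i268 a1816 i220 a437 a349 (k8 i969 i709 i711 i2290 i449 i477 i2292 i961 (k8 i2641 a2394 i225 i224 i1656 i1531 a330 a455 (k8 i1539 i1664 a466 a360 a368 a399 a19 a405 (k8 a465 a2396 a400 a457 i623 i768 a2395 i1557 (k8 a2397 a381 i1862 i1899 a422 i1941 i1112 a2398 (k2 a2387 i2044 (k1 a340 k0))))))))) (by decide +kernel)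
def a2400 : PP 8 4 T 0x102101000000000000400000010000000000040000000110000400000000000015140 := rS 0x15caa6a5530d4ad2 (k8 a1807 a2241 a276 a1719 a1626 i1657 i507 a362 k0) (by decide +kernel)
def a2401 : PP 8 4 T 0x2100000000000001100000000004001405000100040000002000000000000000000 := rS 0xcf4e9dcf679 (k4 a353 a418 i752 a544 (k2 a2062 i2046 k0)) (by decide +kernel)
def a2402 : PP 8 4 T 0x2100000000000080900000011000001405000000000010002400000000000015140 := rS 0x331d59a9f2bab956c362a95834f (k8 a1160 a44 a2241 a277 a276 i123 a1691 i2324 (k4 a551 a2010 i1011 a2401 (k1 i2370 k0))) (by decide +kernel)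
def a2403 : PP 8 4 T 0x102101000000000000100000011000001415400040000110402400015000000015140 := rS 0x278ec9a37c3578514b9c4fc6a5518d96c352b48f679 (k8 a353 a418 a1807 a2241 a276 a2402 a1678 a1719 (k8 a1626 a2400 i750 a989 i2315 i586 a35 i1009 (k4 a920 a2355 i1418 i1716 k0))) (by decide +kernel)
def a2404 : PP 8 4 T 0x102001000000000080000000001100008410020040040000002000015000000000000 := rS 0x138c470309de1b15 (k8 a115 a340 i752 i1282 a2355 a438 i749 i2869 k0) (by decide +kernel)
def a2405 : PP 8 4 T 0x2100000000000000000000000000001400000000000000000600010000040001040 := rS 0x3b154ea668ba492a7c5c9fd58a129894b2a5168745ec151b49fb11449cc6221078cd92a904a0d0e850897624798c9ec9002008608605 (k8 a2109 i41 a2399 i1038 a349 i221 a418 a2375 (k8 a353 a406 a5 i483 a77 a69 a68 i222 (k8 i1085 i1122 i2094 a2187 a1200 i1042 i1092 i230 (k8 a2386 a2330 a1807 a99 a44 a359 a341 a329 (k8 a2241 i603 i346 a1816 a1833 a2403 i1556 i1290 (k8 a1198 i1558 a479 a19 a2404 i2962 i2974 a466 (k1 i751 k0))))))) (by decide +kernel)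
def a2406 : PP 8 4 T 0x2100000000000000000000000000001400000000000000000200010000040001040 := rS 0x28abb5e8f936af31328c3154a24e9f165ca78ee756699d56222a11822854397624793daa5924b19920043144804311120815862121a941e2d178f582a369025fb19 (k8 a2375 a2330 i222 a1807 a99 a44 a335 a359 (k8 a329 a2187 a2241 i41 a1200 a276 a2109 i22 (k8 a2386 a2399 i1038 i230 i1042 a349 i221 i2094 (k8 i1046 i1122 i1085 a418 a353 a406 a5 a69 (k8 a77 i483 a2405 i225 i224 i1656 i1617 a330 (k8 i1540 i1625 a2401 a2352 a466 a26 a19 i2033 (k8 a14 i1019 a476 a438 a551 a412 a1917 a1589 (k2 i1686 a80 (k1 a1579 k0))))))))) (by decide +kernel)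
def a2407 : PP 8 4 T 0x14002101000000000000200000011004000040000000005008000400400000000005140 := rS 0x15ebf652ad329752b0546d2 (k8 a1807 a99 a44 a2241 a989 a837 i583 a1834 (k2 a396 i2324 (k1 a2382 k0))) (by decide +kernel)
def a2408 : PP 8 4 T 0x10002100000000000000400000050000401040001000000000000600000000000801140 := rS 0x89170f6101c9ad86aa52b49fa0f (k8 a2187 a2330 a1807 a2241 a1719 a276 i585 a2389 (k4 a1626 i714 i483 a406 (k1 a5 k0))) (by decide +kernel)
def a2409 : PP 8 4 T 0x14102100000000000000200000010004011045041000005008000200000000000801140 := rS 0xa7ae99c984bd155cb75c14554cb4dc5550535283d46d27e8ec8e41 (k8 i22 i1578 i1155 a2330 a1807 a99 a2187 a2241 (k8 a1816 a2407 a400 a457 i624 a1719 i498 i584 (k8 a577 a2408 a381 i1899 a422 i1143 i1144 a3 (k1 a2366 k0)))) (by decide +kernel)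
def a2410 : PP 8 4 T 0x14002101000000000000000010041004144040000000005000000400400000000005140 := rS 0xcf4ed3d34be (k4 a2382 a336 a60 i1646 (k2 i1151 a463 k0)) (by decide +kernel)
def a2411 : PP 8 4 T 0x2100000000000000000000000000001000000000000000000200010000040001040 := rS 0x26cf639633c4d6112ec4a8aae49aa532978a1cd6e8141c349c7c5cab10a7923959906124a2c946731a547671378002c034fa1c32653fc5ceb114746482a10d8144a596188486c55283c5a1d60b4812fd (k8 a2330 i222 a1807 a44 a341 a329 a2187 a2241 (k8 a277 i41 a1200 a276 i603 i346 a2109 i268 (k8 a1833 i22 a2375 a2406 a28 i124 a432 a930 (k8 i1025 i1130 i931 i1187 i220 a437 a349 i969 (k8 i709 i1155 a521 i2290 i449 i477 i2292 i959 (k8 i961 a352 i1133 i1578 a1565 a1002 a2409 i1289 (k8 a1198 i1582 a340 i1442 a124 a125 i757 a389 (k8 a24 a57 a85 a115 a2410 a381 a462 a5 (k8 i483 i507 a198 a132 i299 i714 a828 i2045 k0))))))))) (by decide +kernel)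
def a2412 : PP 8 4 T 0x2100000000000000000000000000000000000000000000000600010000040001040 := rS 0x32d704e4aa4d5b0d5a9f8ea5750894b22121a945ea32413512c93bb3c66714baa4fa51570fc5011690256e7361bf59a8f0c0080a538989c024b480ad8a0f (k8 a2187 a277 a371 a2411 a102 i477 a700 a112 (k8 a1816 a2109 a349 i220 i1130 i892 a2330 a276 (k8 i1092 i854 i222 a1807 i484 i1169 i256 a1917 (k8 i500 a1069 i1085 i1900 i917 i2094 i2790 a1096 (k8 i1122 i2093 i525 a440 a99 a359 a2241 i41 (k8 a1200 i603 i346 a1833 a2099 i1011 a2363 i102 (k8 a35 i1556 i1637 a2354 a467 a1892 i1389 a2384 k0))))))) (by decide +kernel)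
def a2413 : PP 8 4 T 0x2100000000000000000000000000000000000000000000000200010000040001040 := rS 0x618aa5126b98b444eaab111508c63571dc7ecf4c8a11e11548cc302701120024b4828c5ed226815fac362a94120f (k8 a2187 i222 a2241 a277 a276 a2330 a2109 i525 (k8 a1807 a359 a99 a2411 a102 i477 a440 a349 (k8 a700 i220 i2094 i1085 i484 i1130 i1169 i2769 (k8 i2790 i256 a1096 a1917 i540 a2412 i225 i224 (k8 i1656 i1540 a9 a466 a2352 a19 a1892 a14 (k2 i1019 a438 k0)))))) (by decide +kernel)
def a2414 : PP 8 4 T 0x20002000000000000000000000000000000000000000000000000200000000040001080 := rS 0x399c43048011bc02628a9340afd5793c82a986984a01c (k8 i480 i479 i2822 a65 i2293 i22 i1222 i2295 (k8 a2330 a2109 i525 a561 a438 i2290 i1320 a349 (k4 i221 i220 i749 i1092 (k1 a2347 k0)))) (by decide +kernel)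
def a2415 : PP 8 4 T 0x10212101000000000000000000014000811444041054041000000400040041100805000 := rS 0x40706b3d33d8ebf4fb299117a1ae19a2361b147677429d462e4 (k8 a425 a459 i970 a1002 i711 i1155 a277 a276 (k8 a9 a380 a2119 a351 a465 a1575 a439 a428 (k8 a396 a2286 i1152 a2287 a534 i714 a132 i1873 k0))) (by decide +kernel)
def a2416 : PP 8 4 T 0x10002100000000000000000000045000001400040000000000240604000000021001000 := rS 0x2e9a8f49f2b50d7ebd5a3298eb9648ce2d111bd1534873ca5628934c9cd2e6517a2cce633a9c4ee3b001bc2c031586c9a0512965fac31090d8aad8698512313eb05c80f (k8 a2187 a425 a408 i1233 a459 i2863 i2822 a65 (k8 i2823 a277 i41 a1200 a276 a2330 i603 i346 (k8 a2109 i525 i268 a371 i220 a437 i1232 a349 (k8 i1155 i711 i710 i970 i2290 i449 i2292 i1077 (k8 i963 a989 a1047 a837 a1109 a438 a1042 a1386 (k8 a1191 a336 a111 i995 a2415 a466 a360 a405 (k8 a465 a1190 i2040 a2033 i1417 a396 a105 a1692 (k4 a856 a2294 a1947 i1891 (k1 i507 k0))))))))) (by decide +kernel)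
def a2417 : PP 8 4 T 0x2100000000000000000000000000001400000000000000000600010000040001000 := rS 0xb5a1c4422934ca5cba958a0be246f389e4f62d199206e02398042e183e8c582e4158144a5961b154a091faad5e4f20aa4fed350884860f41c34c289280723206 (k8 a2413 a2414 i480 i479 i2863 i2822 a65 a374 (k8 a2187 i41 a1200 a1833 a402 a1066 i2293 i22 (k8 i1222 i2295 i2294 a458 i222 a2241 a277 a276 (k8 i603 i346 a2109 a371 a425 a408 a459 i1233 (k8 a2416 i43 i1038 i1092 a349 a446 i221 i2094 (k8 i1000 a418 a353 i749 i1008 a406 a183 a389 (k8 a2354 a5 a24 a57 a115 i483 a2279 a2282 (k2 a2281 a403 k0)))))))) (by decide +kernel)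
def a2418 : PP 8 4 T 0x2000000000000000000011011000010410040000000002000200000000821001000 := rS 0x7432a4ce62f2518ce2003b9bc2c030d815fa7d (k8 i1541 a2330 a2109 i268 i220 a437 i1232 i1626 (k8 a349 i710 i2290 i477 i1077 a1047 a1109 i2641 (k2 i2044 i1539 k0))) (by decide +kernel)
def a2419 : PP 8 4 T 0x12000000000000000000000011000000410040000001000040a00000000060001000 := rS 0x49450ee75379c490023980430955cd08cf113ead444572a1048605 (k8 a2109 i41 i22 i225 i1578 i224 i767 i1541 (k8 a9 i2973 a403 a351 a121 a2418 i1038 i1092 (k8 a349 i221 i749 i1008 i1011 i752 a389 i2044 (k1 a115 k0)))) (by decide +kernel)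
def a2420 : PP 8 4 T 0x2100000000000000000000000000000400000000000000000200010000040001000 := rS 0x19994b8a19d56a933195e2895179dc5073088b466183789c04c938920027d6792c62c1483908e4d02965fac362a9412ab27905527f69a84424307ab61a61449403806 (k8 a2413 i480 i479 i2863 i2822 a65 i2823 a2187 (k8 i41 a1200 a1833 a402 a1066 i2293 i22 i1222 (k8 i2294 i222 a2241 a277 a276 a2330 i603 a2109 (k8 i525 a2419 a425 a2417 a408 a459 a102 i1149 (k8 i1233 i477 a440 i1359 a1981 a349 a700 i1008 (k8 i220 i2094 i1000 i484 i1092 i1169 a1096 a183 (k8 a2354 a389 a2099 a492 a115 i1398 a1851 a2282 (k4 i2044 a439 a1575 i545 k0)))))))) (by decide +kernel)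
def a2421 : PP 8 4 T 0x2100000000000000000000000000000000000000000000000200010000040001000 := rS 0xd6114e0e0f4c71b91d3e9a2b24590794ca5d164a3398c760037858061932c5d1d1930aa55e500e0fc0c410d9340a597eb0d8a0f (k8 a2187 a277 a276 a2330 i603 a2109 i525 i268 (k8 i22 a2413 a458 i480 i479 i2295 i2293 i2822 (k8 a2414 a2420 a432 i1025 i1130 i220 a437 i1232 (k8 a349 a339 i2290 i449 i477 i2292 a989 a837 (k8 a1386 a352 a102 i1133 a336 a428 i1578 i995 (k4 a2286 a2294 i714 i879 (k2 i1873 i1907 (k1 a132 k0)))))))) (by decide +kernel)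
def a2422 : PP 8 4 T 0x2100000000000000000000000000000000000000000000000200000000040001000 := rS 0x90c80c0088c1700b9468212186c0a0f (k8 a2187 a2109 i268 i41 a1200 a2421 a364 i1115 (k4 i1117 a425 a349 a437 (k2 i207 i221 (k1 i2777 k0)))) (by decide +kernel)
def a2423 : PP 8 4 T 0x401000000000000002000000000000000000160000000400000000000000000000000000000000000000 := rS 0x17f43 (k2 a351 i1457 (k1 a404 k0)) (by decide +kernel)
def a2424 : PP 8 4 T 0x22002200000000000000000000001000114000000000045000000000000000000000000 := rS 0x1435faa972bba7af68ace5727536c9659955a6b (k8 a464 a445 a63 a385 a343 a41 a347 a561 (k8 a784 a381 i1986 a3 i1950 a2423 i2040 a367 (k2 a106 a404 k0))) (by decide +kernel)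
def a2425 : PP 8 4 T 0x2001000000000000000000041000000050000000005000000000400000000000140 := rS 0x3f088e134f116b492e99 (k8 a837 a989 a1807 a329 a1818 a336 a828 i1873 (k2 i296 a1917 k0)) (by decide +kernel)
def a2426 : PP 8 4 T 0x10202200000000000000040000000000001000800800000000000200010000010801000 := rS 0x18ac3140e4f0113d89c1e47359c50b138b8c43605 (k8 a2109 i268 i1508 a332 a205 a361 i709 a464 (k8 a451 a2187 i735 i815 i484 a406 i1852 i973 (k2 a1105 i1841 (k1 a132 k0)))) (by decide +kernel)
def a2427 : PP 8 4 T 0x1000000000000002000000000000000008100008400000000000000000000000000000000000000000 := rS 0x5dd3d7f43 (k4 a106 a367 a13 i1944 (k1 a404 k0)) (by decide +kernel)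
def a2428 : PP 8 4 T 0x202200000000000000044000000000000000000000000010000000000040000015000 := rS 0x17052876211caa6b42b34aef1 (k8 a1762 a58 a380 a361 a464 a72 a451 a132 (k4 i1524 i1841 a460 a2043 k0)) (by decide +kernel)
def a2429 : PP 8 4 T 0x10402000000000000000000000000000001040000000000000000200000000000820000 := rS 0x7b3c9705243 (k4 i41 i1836 i483 i973 (k2 i1891 a406 k0)) (by decide +kernel)
def a2430 : PP 8 4 T 0x1000000000000002001000000000000508100011000000000000000015000000400010000000005140 := rS 0x14aab72a9c5ad2 (k4 a1807 a329 a1825 a468 (k2 a2427 a1787 (k1 a1719 k0))) (by decide +kernel)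
def a2431 : PP 8 4 T 0x10202200000000000000044000000000001000000000000000000200000000001001000 := rS 0x42262b2c83c2c1b458000605 (k8 a2109 i220 a349 i2292 i268 a437 a2187 i603 (k4 a371 a205 a2428 a2429 k0)) (by decide +kernel)
def a2432 : PP 8 4 T 0x102200000000000000020000000000001440000400040000000000000000001800000 := rS 0x8444748ba713e3b649959e6b (k8 a464 a807 a63 a343 i1155 i1526 a388 a399 (k4 a466 i971 i1500 a1344 k0)) (by decide +kernel)
def a2433 : PP 8 4 T 0x10102200000000000000020000000000001440000000040010000000000001005000000 := rS 0x1e4f713428e4ae32100c4ec9c4fb359ec9329ac7616 (k8 a437 i1155 a464 a63 a343 a807 i1792 i1526 (k8 a388 a2432 i1508 i711 i712 i1627 i1880 i2967 (k4 a1729 i714 i1857 a406 k0))) (by decide +kernel)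
def a2434 : PP 8 4 T 0x2000000000000000000000001000001400000000000000000200010000041001040 := rS 0x2245c0831622c35eb1e8aae8ca5628934ca244a5907bf592cb32ab48e6b820ec2c1b3199d16610000c0a09 (k8 i222 a2109 i220 a349 i961 i2292 i449 i2290 (k8 i268 a437 i1155 a2422 a464 a451 a445 a63 (k8 a385 a343 a2330 a2187 i603 i346 a754 a837 (k8 a1109 a438 a1042 a2424 a2425 a381 a1607 i1986 (k4 a2430 a2431 a2433 a132 (k2 i483 a2429 (k1 a5 k0))))))) (by decide +kernel)
def a2435 : PP 8 4 T 0x2000000000000080008400040000000000000000000000000000000000000001140 := rS 0x7e11 (k2 i1953 i376 (k1 a1917 k0)) (by decide +kernel)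
def a2436 : PP 8 4 T 0x202000000002000000000000000000000000000000000000000200000000040001040 := rS 0x289f9542152a84a62507b2d5a555191e08c169025fa57 (k8 a58 a2330 i222 a1807 a44 a2422 a451 a1824 (k8 a72 a445 a385 a2187 i346 a1816 a1833 a382 (k4 a46 a1834 a2218 i497 (k1 a1044 k0)))) (by decide +kernel)
def a2437 : PP 8 4 T 0x20002200000001000080000000040000020000000000040000000000014000000001140 := rS 0x5fb093ec9 (k4 a343 a33 a1713 i1725 (k1 a2435 k0)) (by decide +kernel)
def a2438 : PP 8 4 T 0x10402000000000000080000000040000001040004000000000000200000000040800040 := rS 0x281f1e02209 (k4 i222 a2429 a406 a1917 (k2 i973 i256 k0)) (by decide +kernel)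
def a2439 : PP 8 4 T 0x20002200000001000080000000040040020000000000040000000000010000000001140 := rS 0x33 (k2 i1671 a2437 k0) (by decide +kernel)
def a2440 : PP 8 4 T 0x202200001000000080008000040000000000000000000000000000000040040001140 := rS 0xf85011 (k4 i1953 a1796 a1917 i256 k0) (by decide +kernel)
def a2441 : PP 8 4 T 0x1202000000000000000000010040000001040004000040000000200010000040801040 := rS 0x127435529464c34ac5d3a9f8c396262b07b2596ad5191e08c1693c5fa09 (k8 i222 a2330 a1818 a1807 a44 a2422 a451 a1824 (k8 a445 a385 a343 a2187 a371 a205 a2436 a2438 (k8 a33 a347 a192 a2439 a2440 a1713 i289 a1834 (k2 a106 i1635 (k1 a447 k0))))) (by decide +kernel)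
def a2442 : PP 8 4 T 0x20102200000000000080000000040040020440000000040000000000010000000801140 := rS 0xe8318bb913a9f649dce21d (k8 a341 i709 i1676 a343 a33 a347 a2439 a192 (k2 a459 a466 (k1 i970 k0))) (by decide +kernel)
def a2443 : PP 8 4 T 0x10102200001000000000008000000000001400000000040000000000104001000800000 := rS 0x3a2746c3b (k4 i1155 a419 i1780 a1004 (k1 a2198 k0)) (by decide +kernel)
def a2444 : PP 8 4 T 0x2000000000000000000000040000021400000000000000000200010000041001040 := rS 0x522f556c667b0d31451f044ba9d1825e24368cb14ee331283d9665569ad46471e9c43a3b78c44f6394db49fa095cb2609155422cce00018583605 (k8 a2109 i268 a437 i220 a349 i449 i2292 a2434 (k8 a400 a2422 a343 i1139 i222 a2330 a1807 a457 (k8 a2389 i714 a2441 a1818 i1155 a341 i709 a335 (k8 a451 a1824 a464 a445 a63 a385 a2187 i346 (k8 i1671 i1676 a2432 a2442 a419 a2438 i1777 a2317 (k8 i1780 a5 i483 a1917 a80 a422 a2443 i989 (k4 a132 a1174 i1990 a1719 (k1 i415 k0)))))))) (by decide +kernel)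
def a2445 : PP 8 4 T 0x4102200000000000000008000000001001400000000040000000000110001004800000 := rS 0x1dcea30 (k4 a1105 a2198 i1508 a466 k0) (by decide +kernel)
def a2446 : PP 8 4 T 0x21102200000000000000001010000040011440000000040000000000110001004805140 := rS 0x93a1aa94a323b1d462c38bb393a9f64b2d5a47 (k8 a451 a445 a385 a343 a33 a347 a784 a192 (k8 a2445 i989 i970 a466 i712 i289 a1834 a106 (k2 i1635 a447 k0))) (by decide +kernel)
def a2447 : PP 8 4 T 0x2000000000000000000000040000001400000000000000000200010000041001040 := rS 0xaecd3b1d62ece4fa628a3e089e4ba9d4bb1624368ca56227b1cbc44a5907994d6a3238f582d204bf476160d99d1600018162a9b5caa19304 (k8 a2422 a343 a2434 i1139 a457 a400 a2109 i220 (k8 a349 i2292 i449 i268 a437 i1155 a2330 i222 (k8 a1807 a44 a335 a451 a1824 a464 a63 a2187 (k8 i603 i346 a1818 a2389 i714 a2441 a2444 a2446 (k8 a419 a2438 a2433 i1777 i1779 a5 a398 i483 (k8 a1917 a80 a422 i1112 a388 a192 i1067 a466 (k2 a1006 i1627 (k1 a1729 k0)))))))) (by decide +kernel)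
def a2448 : PP 8 4 T 0x1000000000005002000000000000080408110010400010000000000000000000400110000000005140 := rS 0x284a449aac60c1 (k4 a44 a1105 a2427 i1509 (k2 a1719 a447 (k1 a129 k0))) (by decide +kernel)
def a2449 : PP 8 4 T 0x1000000000021002200000001000080040110000400000040000000040000000000010000000005140 := rS 0x1e2c34ab169f1767274729f64b2d5a47 (k8 a451 a445 a385 a343 a33 a42 a347 a784 (k4 a192 a3 i1794 i1105 (k2 a2448 a1762 (k1 a379 k0)))) (by decide +kernel)
def a2450 : PP 8 4 T 0x1000000000001202000000000000000040110000000441000000000000000000200010000041001040 := rS 0x7c28521e156bba79ec22c24c465cb1307b2d5a4735c114e3d38858361d69025fa67458000605 (k8 a2109 i220 a349 i2292 i449 a2330 i222 a1807 (k8 a341 i268 a437 i709 a335 a1825 a2422 a464 (k8 a451 a445 a385 a2187 a205 a2436 a2449 a422 (k8 a2431 a2429 i1941 a13 i1944 a2427 a406 a1719 (k2 i973 a1790 (k1 i256 k0)))))) (by decide +kernel)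
def a2451 : PP 8 4 T 0x21102200000000000000001110000040001440000000040000000000010001004805140 := rS 0x4a3393a39 (k4 a42 a347 a784 a2446 (k1 i1105 k0)) (by decide +kernel)
def a2452 : PP 8 4 T 0x2200000000000080040100000400660040000000000000000000400000000005142 := rS 0x2ee9e111fa913cf055b3d3ac9659955a47358f4ce39 (k8 i1936 i449 a335 a464 a451 a445 a63 a385 (k8 a343 i1678 i1105 a1174 a235 a191 a1719 a6 (k4 a441 a26 i1686 a1790 k0))) (by decide +kernel)
def a2453 : PP 8 4 T 0x102200000000000000008000000004001440000000040000000000110001004800000 := rS 0x4593ac9 (k4 a343 i1906 a2445 a192 k0) (by decide +kernel)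
def a2454 : PP 8 4 T 0x2000000000000000000000000000001400000000000000000200010000041001040 := rS 0x448b81061a7d2a394c31633115eb1d2f45572e537155422cce3b00058061b02894b20f64b2d5a6b53a8c8f0460b4812fd (k8 a2330 i222 a1807 a44 a2422 a451 a1824 a1825 (k8 a464 a445 a385 a343 a2187 i603 i346 a2109 (k8 i268 i220 a437 a349 i1155 i449 i2292 a2434 (k8 a400 a457 i1139 a2447 a381 i1899 a1607 i1986 (k8 a2450 a2451 a2433 a422 i1936 a2452 i1112 a2453 (k4 a132 i483 a2429 a5 k0)))))) (by decide +kernel)
def a2455 : PP 8 4 T 0x202000000000000000000000040000001000005000000000000200014000040001040 := rS 0x33c6186e5898ad9304693c5fa09 (k8 i222 a2330 a1818 a1807 a2422 a343 a371 a205 (k4 a2436 a2440 a406 a722 (k1 a1713 k0))) (by decide +kernel)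
def a2456 : PP 8 4 T 0x1000000000010002001000000000000000000001000160000000000010000000000000000000000000 := rS 0x268c515 (k4 a14 a1042 a422 a412 k0) (by decide +kernel)
def a2457 : PP 8 4 T 0x2000000000000000000000040000001400000000000000000200010000040001040 := rS 0x15c402372a912a97a28f822994397475128ca4d3acf33c5973117886c4a0f5191c5ed27ea24723719aa4127b3c9d4ca7724008021821814ab04 (k8 a2422 a72 a2109 i41 a2454 i1038 a349 i221 (k8 i751 a63 i1010 a353 a418 i222 i1085 i2094 (k8 a446 a401 i230 a2330 a1807 a359 a451 a1824 (k8 a2187 i346 i268 a1818 a2455 a2352 a466 a350 (k8 a368 a399 a19 a784 a406 a419 a5 a69 (k8 i1106 i483 a1917 a80 i1371 a2456 a1892 a382 (k4 i248 a107 i1497 a1005 k0))))))) (by decide +kernel)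
def a2458 : PP 8 4 T 0x4002000000000000000000000000000000400000000000000000200010000040001048 := rS 0x1c910198c4ea653b920ab04 (k8 a2422 a72 i221 i751 a63 i1010 i1003 i2094 (k2 a466 a429 (k1 a2436 k0))) (by decide +kernel)
def a2459 : PP 8 4 T 0x10002200000000000004040000000001001400005500000000000200011000000401000 := rS 0x13ecd6230c23114397624851283c8e6b (k8 a464 a451 a2187 i346 a545 a406 a5 a69 (k4 a205 i483 a2205 a132 (k2 i1792 i1525 (k1 i2046 k0)))) (by decide +kernel)
def a2460 : PP 8 4 T 0x2000000000000000000000000000001400000000000000000200010000040001040 := rS 0x678c2759f1663ab8ee753c9ec6248010042e18218141efd04b2ccaad23954d704 (k8 a2422 a464 a72 a451 a445 a63 a385 i222 (k8 a2330 a2187 a2109 i41 a2454 i43 i1038 a349 (k8 i221 i1003 a418 a353 i1010 i751 a2457 a1607 (k4 a2458 a368 a399 a2459 (k2 a350 a784 k0))))) (by decide +kernel)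
def a2461 : PP 8 4 T 0x2000000000000000000000000000000400000000000000000200010000040001040 := rS 0x1fcfab54a9c4de5163a5d0345570fd86b75ca4d32281d1cc231654860ee7513808900125c65203d6929c8653268141efd04b2ccaad23954d704 (k8 a2422 a464 a72 a451 a445 a63 a385 i222 (k8 a2330 a2187 a2109 i525 a1816 i41 a1825 a1807 (k8 a335 a2460 a25 a102 i477 a440 a349 a700 (k8 i1010 i751 i220 i1085 a2458 i484 i1092 i1168 (k8 i1169 i2769 a19 a465 i854 i373 i256 a1811 (k8 a381 i1862 i1900 a1607 i500 i1172 i917 a2456 (k4 a865 a1110 a1044 i2044 k0))))))) (by decide +kernel)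
def a2462 : PP 8 4 T 0x10212200000000000000000000040000801000401004000000000000000000000800000 := rS 0x5b1722657 (k4 a58 a205 a1000 a947 (k1 i1930 k0)) (by decide +kernel)
def a2463 : PP 8 4 T 0x10002200000000000040000000045100000400000000000000240200010000021001000 := rS 0x4226c363b34ae203f314ed113ec5e86875c1d5347948c512a934ca5d164a3398c006f0b00ca61b268144a5907bf592655691cd683869856acb (k8 a385 i1397 i2822 a65 a374 a464 a451 a445 (k8 a63 a343 a2330 a2187 i603 i346 a2109 i525 (k8 i268 a1816 i220 a437 i1232 a349 i2290 i449 (k8 i477 i2292 a989 a837 a1109 a1042 a438 a102 (k8 a1386 a336 a1371 i2040 a1001 a351 a465 i1330 (k8 a2462 a466 a2433 a403 i711 i1627 i2478 i1689 (k4 a1377 a1729 a132 a2429 k0))))))) (by decide +kernel)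
def a2464 : PP 8 4 T 0x2000000000000000000000000000000400000000000000000200010000040001000 := rS 0x529008440ff433eb0c42c560b9126994b98e2895179bce2793d8b46233240dc04730085c30b5449861a838ca95524f57aaca01c1fb4c0c411590d424d028941ec9659955b04 (k8 a2422 a445 a63 a385 a343 a2187 i346 a2109 (k8 i525 a1833 i41 a371 i22 a2461 a402 a458 (k8 i480 i479 i2294 i2295 i1222 i2293 i1380 a2414 (k8 a374 a65 i2822 i2863 i1397 a2463 i43 i1038 (k8 i1092 a349 a446 i221 i2094 i1003 i1000 a418 (k8 a353 i749 i1008 a183 a2354 a389 a492 a24 (k8 a57 a115 a1295 a408 a40 a46 a468 i1233 (k4 a2282 a1066 a403 a1347 (k2 a2279 i1836 (k1 i1169 k0)))))))))) (by decide +kernel)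
def a2465 : PP 8 4 T 0x2000000000000000000000000000000000000000000000000200010000040001000 := rS 0x80c9619470159304 (k8 a2422 a343 a2109 a2464 i1130 i1132 i220 i477 (k1 a349 k0)) (by decide +kernel)
def a2466 : PP 8 4 T 0x20002000000000000000000000040000000400000000000000000200000000040001040 := rS 0x62d3d9c8713041868566c4056598bb94ea25079ecf2772400802052ac11a4f17e825229f4eb1c7634 (k8 a2465 a345 i412 a347 a33 a25 i222 a2330 (k8 a1818 a1807 a2422 a72 a2109 i1115 a349 i221 (k8 i751 a353 a418 a2187 i346 i1062 a364 a348 (k8 i603 a371 a466 a1006 a361 a2440 a2428 i484 (k4 i738 i2046 a1950 a807 (k1 a379 k0)))))) (by decide +kernel)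
def a2467 : PP 8 4 T 0x20002000000000000000000000040000000000000000000000000200000000040001040 := rS 0x410a5023e5ba64de7128a4cc67da1aa94a223fa392e9b488aca60f65ab62e391ba25527b3c9dcaa2d241cc3002008154ea323c103a3d60a545ed21a3c5fa09 (k8 i222 a2330 a1818 a2465 a1807 a359 i1098 a44 (k8 a335 a341 a2422 a451 a1824 a1825 a2109 i1115 (k8 a349 i220 i1092 i221 i2681 a72 i751 a353 (k8 a418 i1085 i2093 a446 a401 a348 a445 a385 (k8 a2187 a1816 a371 a25 a41 a71 a2466 a930 (k8 i1131 i248 a1834 a106 i1596 i538 i1636 i498 (k8 a739 i1135 a837 a577 a1810 i1333 i256 i2045 (k1 a1898 k0)))))))) (by decide +kernel)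
def a2468 : PP 8 4 T 0x202000000000000000000000040000000000000000000000000200000000040001040 := rS 0x4830e262b239d44a0f0c05c867b3b920ab04690ea32391b808023402bc5fa09 (k8 i222 a2330 a1818 a2109 a2465 i1115 a349 a446 (k8 a401 a2467 a419 a1807 a2422 a72 i221 i751 (k8 a418 i41 i999 i220 a2187 i346 i1062 a451 (k4 a371 a205 a2440 a203 (k1 a2326 k0))))) (by decide +kernel)
def a2469 : PP 8 4 T 0x2000000000000000000000040000000000000000000000000200000000040001040 := rS 0xce4d3196e97379c422514998cfb435fb1506812eaa90b1261a9522223fa3a22991d465e25365ab4d7173a8941e391b85c86a93d9e4ee482a9cc3002008154647823052a2f69025fa34 (k8 a2465 a2330 i222 a1807 a359 i1098 a44 a2422 (k8 a451 a1824 a2109 i1115 a349 i220 i1092 a72 (k8 i221 i751 a353 a418 i1085 i41 i999 a446 (k8 a401 a2187 i346 i1062 a348 a464 a445 a385 (k8 a1816 a1818 a2467 a419 i1106 a2468 a466 a930 (k8 i1131 a1063 i248 i2130 a406 a1002 a1834 a5 (k8 a45 a68 i1575 a367 a106 i1596 i538 i1636 (k8 i498 i483 a739 i1135 a989 a577 a132 i2045 (k2 i413 i1152 k0))))))))) (by decide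 +kernel)
def a2470 : PP 8 4 T 0x202201000001000001040000081400001410005500000000000001140540040000000 := rS 0x6233a9e871330c52f11f264c69d45a6d3e3b8c25d0b13 (k8 a205 a361 i1900 a406 a203 a33 a41 a52 (k8 a347 i539 a837 i2034 a6 i256 a1796 a127 (k4 i738 a1950 i2046 a379 (k1 a807 k0)))) (by decide +kernel)
def a2471 : PP 8 4 T 0x2001000000000000400000010000002000000500400000000440020000042405140 := rS 0x14abba78447ec21429c7ad2 (k8 a1807 a335 a1825 i1169 a2326 i256 i1836 a13 (k2 i1944 a1790 (k1 a1777 k0))) (by decide +kernel)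
def a2472 : PP 8 4 T 0x4002201000001000000040000081400001410005500000000000001140540040000000 := rS 0x19b10 (k2 a466 a1006 (k1 a2470 k0)) (by decide +kernel)
def a2473 : PP 8 4 T 0x20002000001000000000000004000400141010105054000000000001140540050000000 := rS 0x29410f9363b (k4 a345 a41 i2034 i2045 (k2 i256 a1898 k0)) (by decide +kernel)
def a2474 : PP 8 4 T 0x2000000000000000000000000000000000000000000000000200000000040001040 := rS 0x11629750b128cbc56e99379c586514998cfb4355294447f472457ac74ba068aae4ab047a2f0ea8da4a71594dfacb5691cd717729d44a0f1c8dd121721aa4127b3c9dcab0416920e618010046805 (k8 a2109 a2465 i1115 a349 i220 i1092 i221 i2681 (k8 a2422 a72 i751 a353 a418 i222 i1085 i41 (k8 i999 i2093 a446 a401 a2187 i346 i1062 a364 (k8 a348 a464 a451 a445 a385 a2330 a1816 a371 (k8 a1825 a1807 a1824 a341 a359 a335 a44 i1098 (k8 a2469 a381 i1862 i1900 a1607 i1986 a2471 a2472 (k8 a930 i1131 i248 a1834 a106 i1596 i538 i1636 (k8 i498 a2427 a739 i1135 a837 a577 a1762 a2473 (k4 a406 a1002 a5 i1575 (k2 i483 a132 k0))))))))))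 (by decide +kernel)
def a2475 : PP 8 4 T 0x2000000001000040000020000140000000000000000000000000000100000000000 := rS 0x18343 (k2 a351 i1249 (k1 a393 k0)) (by decide +kernel)
def a2476 : PP 8 4 T 0x4012000000000000000000010000000010400040554000000000000000000000000000 := rS 0x110 (k2 a466 a2119 k0) (by decide +kernel)
def a2477 : PP 8 4 T 0x2000000000000000000000000000000000000000000000000200000000040001000 := rS 0x1368b673198611628a4ba8589244448e5c9fd46994b98c5f144a9c61a6f30c654aaf28071a606398b4ee793daa42e4b0c120047500b962e34359548f040490486a1268144a0f (k8 a2187 i346 a2109 i525 a1833 i41 i22 i222 (k8 a2422 a451 a72 a464 a2465 a348 a364 i1115 (k8 i1062 a349 i221 i220 i1046 i999 i1085 a418 (k8 a353 i751 i2681 i1092 a2474 a402 i480 i479 (k8 i2295 i1380 a2414 i1223 i1231 a65 i1359 i1099 (k8 a389 a183 a492 a24 a57 i326 a1913 a2475 (k8 a2476 i1131 a1063 a406 a1002 a5 a54 i1575 (k4 i483 i250 a132 i413 (k2 i1978 i1151 (k1 a336 k0)))))))))) (by decide +kernel)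
def a2478 : PP 8 4 T 0x8202100000000000080000000004000000000000000000000000200000000001001100 := rS 0xa918b29c8ad239f446072198c6a67309949400018583605283f43c535283d26c9 (k8 a405 a19 a2187 a2241 a1816 a2477 a2330 a1620 (k8 a2109 i268 a437 i220 a349 i477 i2641 i2640 (k8 i449 i1115 i2290 i41 i1302 a9 a73 i224 (k4 i1313 a425 a1719 a459 (k2 i623 a2392 k0))))) (by decide +kernel)
def a2479 : PP 8 4 T 0x2001000000000000000000041000000040000000005000000000400000000000150 := rS 0x89 (k2 a754 a2425 k0) (by decide +kernel)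
def a2480 : PP 8 4 T 0x28002100000000000080000000000000000400000080000000000200000000001001100 := rS 0x873f9d59a222a11a22ab42d3cd49f2cc340e6745a44ca4a0000cee212183c2c1b02a8d06507e878a6c9 (k8 a405 a1816 a2477 a2330 a1620 a374 a99 a2109 (k8 i268 a437 a2187 i41 a1200 i711 i220 a349 (k8 i477 i2641 a102 i2292 i449 i1302 a81 i603 (k8 a33 a1947 a394 i1869 i2315 a2478 a2339 i225 (k4 i224 a330 i1539 i1663 (k2 a2341 a2342 k0)))))) (by decide +kernel)
def a2481 : PP 8 4 T 0x8202100000000000080000000000000000000000000000000000200000000001001100 := rS 0x15457283f43c53 (k4 a1816 a2477 a2330 a1620 (k2 a58 a2478 (k1 i497 k0))) (by decide +kernel)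
def a2482 : PP 8 4 T 0x8002100000000000080000000040000000400000000000000000600000000001001100 := rS 0x10ecd429f0ae7f18ab1c8598699d22653b8841e4f41a6d96c98c9c9506125058368b318ec00030390c0a507e878a711 (k8 a2481 a1816 a2477 a2330 a1620 a2109 i41 i1302 (k8 i220 a349 a339 i2290 i2292 i268 a437 i477 (k8 i2640 a2479 i496 a2480 a405 i623 a457 a374 (k8 i1269 a2187 a1200 i711 i2641 a102 i449 a81 (k8 i603 a425 a2388 a459 i1556 i1582 i1313 a1949 (k2 a2010 a2338 (k1 a2390 k0))))))) (by decide +kernel)
def a2483 : PP 8 4 T 0x8002100000000000080000000040000000400000000000000000200000000001001100 := rS 0x10e7f42b3462222a11a23198699d22653b8841ea3419c8a0534daa0c24a0b06d16631d80006070f10dfa05 (k8 a2109 a2330 i41 a2477 i1302 i220 a349 a339 (k8 i2290 i2292 i268 a437 i477 i2640 a2479 a457 (k8 a1816 a1620 i496 a374 a99 a2187 a1200 i711 (k8 i2641 a102 i449 a81 a2480 a2481 a2482 i225 (k4 i224 i1531 a330 a455 (k2 i1663 a2341 (k1 a2390 k0))))))) (by decide +kernel)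
def a2484 : PP 8 4 T 0x20202000000000000081000400040104021401405500000000000200000000180000100 := rS 0x98a23396f1343a04b826080fc570d0390c7a9d (k8 a347 a335 i41 i1302 a81 a371 a2331 a1917 (k8 i484 i483 i1769 i737 a5 i1930 i2046 a462 (k2 i1104 a433 k0))) (by decide +kernel)
def a2485 : PP 8 4 T 0x2100000000000080000000040000000400000000000000000200000000001001100 := rS 0x447eb713c4cf1184a50d7eca5691cfa2342c419a573aa7d56c85cc5cf6394d9c950835294056532cbf61a070f0ecc66745a44c2652500006771090c1e6f168583605 (k8 a2109 i268 a437 a329 i968 a2187 i41 a1200 (k8 i711 i220 a349 i477 i2641 i2640 a102 i2292 (k8 i449 i2290 a339 a2477 i1302 a81 a2330 i603 (k8 a1816 a371 a1620 a2241 a374 a2479 i496 a457 (k8 a2389 i714 a2483 a171 a352 i584 a428 i2646 (k8 i504 a1006 a466 a1949 a9 a73 i224 i1313 (k8 a1719 a396 a105 i624 a2380 a2484 a398 i1768 (k4 i1933 a1022 i484 a1917 k0)))))))) (by decide +kernel)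
def a2486 : PP 8 4 T 0x1000000000000002100000000000000100100000000010044080000050000080000000000000000000 := rS 0x6b4faa97f43 (k4 a133 i1723 i760 a856 (k2 i586 a1947 k0)) (by decide +kernel)
def a2487 : PP 8 4 T 0x8002000000002000000001000000040014010000000000000000000010500000000000 := rS 0x18a9466b9 (k4 a465 a360 a382 a459 (k1 i2033 k0)) (by decide +kernel)
def a2488 : PP 8 4 T 0x8002100000000000000000000000040014010000000000000000200000100001001000 := rS 0x18a948ce55c8cc5e353292800030b06c0ac11090c1e1e (k8 a2477 a2187 i41 a1200 i1306 a2109 i268 a437 (k8 i220 a349 i477 i2641 i1115 i238 a360 a465 (k4 a2487 a425 i2100 i1531 (k1 i2033 k0)))) (by decide +kernel)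
def a2489 : PP 8 4 T 0x2100000000000080000000040000000400000000000000000200000000001001000 := rS 0xad23ae0467f3ec416aab2b9d59117438dcf29a8ca4d52994ba562889399449c0837a8c5a2b29895fb0d38878c667459248291309949400019dc4243078583605 (k8 a2109 i268 a437 a2187 i41 a1200 i711 i220 (k8 a349 i477 i2641 i2640 a102 i22 i959 i2292 (k8 i449 i2290 a2477 i1357 a81 a2330 i346 a1816 (k8 a371 a329 a99 i968 a2485 i223 i1310 i757 (k8 a1013 a389 a14 a24 a57 a85 a115 a561 (k8 a336 i1073 i994 a1001 a2488 a352 i2646 i504 (k8 i583 a201 a466 a936 i760 a9 a1698 i224 (k2 i1289 a2415 k0)))))))) (by decide +kernel)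
def a2490 : PP 8 4 T 0x2100000000000000000000040000000400000000000000000200000000001001000 := rS 0x2b48eb8119fcfb105aaacae7543b206e798ba6a329354a652e958a224e66f169449ca30434c565312bf61a0738878c667459248291309949400019dc4243078583605 (k8 a2109 i268 a437 a2187 i41 a1200 i711 i220 (k8 a349 i477 i2641 i2640 a102 i22 i959 i2292 (k8 i449 i2290 a2477 i1357 i1302 a81 a2330 i346 (k8 a1816 a371 a2489 a1807 i2097 i223 i1310 i1263 (k8 i1271 i757 a1013 a389 a14 a24 a57 a85 (k8 a115 a561 a336 a2488 i1073 i994 a352 a1001 (k8 i2646 i504 i583 a201 a466 a936 i760 a9 (k4 a1698 i224 i1289 a2415 k0)))))))) (by decide +kernel)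
def a2491 : PP 8 4 T 0x8002100000000000080000000000000000000000040000000000200000000001001000 := rS 0x948a2261a710f28cde2d0b06c0a93 (k8 a19 a2109 i268 a437 a329 i968 a99 a2477 (k4 i1357 a81 a1013 a389 (k2 a2488 a14 k0))) (by decide +kernel)
def a2492 : PP 8 4 T 0x8002100000000000080000000000000000400000000000000000200000000001001000 := rS 0x44e325c049ecf25039105224a4094d2eae458000605 (k8 a2109 i220 a349 i2292 a2490 i1899 a1816 i1862 (k8 i477 a102 i22 a2491 i1094 i1097 i841 i1310 (k4 i499 a2480 a5 a406 k0))) (by decide +kernel)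
def a2493 : PP 8 4 T 0x2001000000000081200000080100001441010410005000400400000000080805140 := rS 0xce5ca1ce49d1cae97f18651ee267914ab5565c5b20ca10d53d15026f16a7cea57 (k8 i504 i2646 a428 a329 i968 i1862 a381 a1825 (k8 a81 a1620 a374 i500 i499 i2314 i1313 i1928 (k8 i1933 a5 i1891 a1719 a406 a396 i626 a42 (k4 a347 a2335 a982 a171 (k2 a1896 i1951 k0))))) (by decide +kernel)
def a2494 : PP 8 4 T 0x2100000000000080000000000000000400000000000000000200000000001001000 := rS 0x56d0d707f55aa6289539b2c9c0852b908e7d11b350b102b9d59117378b4a6597ec340e710f18cce8b2490522613292800033b884860f0b06c0aae (k8 a2490 a2109 i268 a437 a2187 i41 a1200 i711 (k8 i220 a349 i477 i2641 i2640 a102 i22 i959 (k8 i2292 i449 i2290 a2477 i1357 i1302 a81 a2330 (k8 i603 a1816 a329 i968 a2492 a352 i2646 i504 (k8 a466 a1949 a2010 a9 a73 i224 a425 a382 (k8 a2493 i223 i1388 i757 i1101 a389 a85 i583 (k4 i760 a2476 a351 i1289 (k1 a439 k0)))))))) (by decide +kernel)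
def a2495 : PP 8 4 T 0x2100000000000000000000000000000400000000000000000200000000001001000 := rS 0xada1ae0feab3ab222e9354a562889399bd962d2728c10d33b8841efd8681c86710f19c9241309949400018583605 (k8 a2109 i268 a437 i220 a349 i477 i2641 i2640 (k8 i22 i959 i449 a2477 i1357 i41 i1302 a81 (k8 a2330 a2187 a1200 i711 a2494 a1807 i2097 i223 (k8 i1263 i2884 i1271 i757 a1013 a389 a14 a85 (k8 a115 a2488 a352 i2646 i583 i760 a2476 a351 (k2 i1289 a439 k0)))))) (by decide +kernel)
def a2496 : PP 8 4 T 0x8002000000000000080000000040000000400000000000000000200000000001001100 := rS 0x7c551d044a508b96225d1808587121b318f6393926d50f11283c0e431d98cc2ad23b04ee33a7a1e32cf33a4494794f3253a8b0000c2c1b02ad4a0fd0f14d9704 (k8 a2495 a385 a1816 a2477 a2330 a1620 i1397 a2109 (k8 i268 a437 i220 a349 i2292 a399 a343 a192 (k8 i2650 i477 a102 i449 a368 a784 a1001 a26 (k8 a360 a332 a44 a451 a445 i2640 i2290 a339 (k8 i41 i1302 a2187 i346 a1818 a2479 a457 i496 (k8 a2389 i714 a235 a419 a406 i142 i1689 i996 (k8 a5 a205 a459 i483 a164 a107 a1320 a1659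 (k2 i1096 i1596 k0)))))))) (by decide +kernel)
def a2497 : PP 8 4 T 0x10002000000000000000000000000000001040001000000200000000000000000000000 := rS 0xf713 (k2 a5 i1891 (k1 a406 k0)) (by decide +kernel)
def a2498 : PP 8 4 T 0x8002000000000000080000000000000000400000000000000000200000000001001100 := rS 0x15c5029bf43c5d3ca7992160dc659e674ec11224a458000605 (k8 a2109 i220 a349 i2292 i477 a102 a2495 a399 (k8 i449 a368 a784 i268 a437 a343 a192 i2650 (k4 a2497 a2477 a2330 a1816 (k2 a1620 a2496 (k1 i499 k0))))) (by decide +kernel)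
def a2499 : PP 8 4 T 0x8002000000000000080000000000000000400000000000000000200000000001001000 := rS 0x6ef14d30d0629891ec442113ad286aa88aa52e958a1fcfa732893810112e9e50b194f2e5269d679dc56531283dfa1d869c43c6333a2c924148984ca4a0000d92cb56956086f168583605 (k8 a2109 i268 a437 a329 i968 a2495 a72 a445 (k8 a385 a343 i220 a349 i477 i2641 i2640 a102 (k8 i22 i959 i2292 i449 i2290 a2477 i1357 a81 (k8 i10 a2330 a2187 i346 a1816 a371 a332 a368 (k8 a399 a19 a465 a192 a784 i1606 i2650 a2497 (k8 i483 a2498 i223 i1310 i757 i1273 i759 a389 (k8 a14 a24 a85 a2119 i2040 a106 a403 a725 (k8 i727 i1396 i713 a406 a54 a68 i250 a920 (k2 a1762 i994 (k1 a1354 k0)))))))))) (by decide +kernel)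
def a2500 : PP 8 4 T 0x25002200000000000080000010040240000000000000000000000000000000000001142 := rS 0x12a93a1b946a67 (k4 i449 i1115 a382 a129 (k2 i1365 a2439 (k1 a447 k0))) (by decide +kernel)
def a2501 : PP 8 4 T 0x25002200000000000080000010040040000440000000000000200000000000000805142 := rS 0x88a50ac93a1aa94a3533b2d5a47 (k8 a451 a445 a385 i449 i1115 a2500 a1719 a106 (k4 i1635 i497 a447 a58 (k1 a2442 k0))) (by decide +kernel)
def a2502 : PP 8 4 T 0x10402000000000000000000000040000000000004000000000000201000000001001100 := rS 0x1f0a022785381c86160da2d224a0000c0a83283f43c53 (k8 a1816 a2477 a2330 a1620 a374 a2109 i220 a349 (k8 i477 a102 i2292 i268 a437 i41 i1302 a1825 (k4 a406 a2429 i973 a1811 (k1 i257 k0)))) (by decide +kernel)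
def a2503 : PP 8 4 T 0x2000000000000080000000040000000400000000000000000200000000001001100 := rS 0x7c551d14a7710b19869d6284622872ec486d193d8e572724dc5550f1129641e3b318d4ce8b48984940001858360564ab4d6a32381c863d8bad4a0fd0f14d9704 (k8 a2495 a385 a1816 a2477 a2330 a1620 i1397 a2499 (k8 a335 i41 i1302 a451 a1824 a464 a445 a343 (k8 a2109 i268 a437 i220 a349 i477 i2640 a102 (k8 i2292 i449 i1115 i2290 a339 a2187 i603 i346 (k8 a1818 a2479 a400 a457 i496 i1139 a2389 i714 (k8 a2501 a419 a2502 a5 a69 a205 i483 a2433 (k8 i1779 a2445 a132 i1689 i711 a164 a466 a1719 (k2 i1096 i1596 k0)))))))) (by decide +kernel)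
def a2504 : PP 8 4 T 0x20002201000000000000000000001000010000000000045000000000000000000000000 := rS 0x8a24d32ad (k4 a445 a837 a1109 a438 (k1 a2424 k0)) (by decide +kernel)
def a2505 : PP 8 4 T 0x2000000000000080000000000000000400000000000000000200000000001001100 := rS 0x1545752c41c8b98aaa12ace4ec60f25c5b2f58f4557140a62507a9cc63533a2d22612500006c965ab4d6a323c11fa070f10d826f168583605 (k8 a2109 i268 a437 a329 i968 a44 i41 a2477 (k8 i1302 a2330 a2495 a451 a1824 a464 a445 a385 (k8 a343 i220 a349 i477 i2640 a102 i2292 i449 (k8 i1115 i2290 a1825 a2187 i346 a1816 a1620 a2503 (k8 a381 a1607 i1986 i500 i499 i1933 a2497 a347 (k8 a784 i1105 a2504 a400 i1139 a2449 a2451 a382 (k2 a58 a1719 (k1 i497 k0)))))))) (by decide +kernel)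
def a2506 : PP 8 4 T 0x10202200000000000000000000000000001000001000000100000000000000000800000 := rS 0x57 (k2 a58 a1000 k0) (by decide +kernel)
def a2507 : PP 8 4 T 0x2002200000000000000010010000400800000000000055000000000440000000015000 := rS 0x18c9f61d0d7ebd5532596ad239ae329949a555345 (k8 a111 a85 a14 a115 a57 a2424 a464 a451 (k8 a445 a385 a343 i2040 i1417 a367 a106 a2427 (k2 a856 a132 (k1 a2286 k0)))) (by decide +kernel)
def a2508 : PP 8 4 T 0x2000000000000080000000000000800400000000000000000200000000001001000 := rS 0x5a1d686b862c44225d1b9e44a5907a9c0e437e8ed169132c5cfaad3f956329949a555314399381049209bc5b0d38878c24a0b06cce630000c0b04 (k8 a2495 a2109 i220 a349 i2290 i449 i268 a437 (k8 i477 i2640 a2477 i1357 a81 a329 i968 i22 (k8 i959 a2505 i223 i757 a389 a85 a14 a115 (k8 a57 a2424 a72 i759 a445 i1273 a2499 i2641 (k8 a102 i2292 a339 a2330 i41 i1302 a1825 a2187 (k8 i603 i346 i1073 i994 a2497 i483 a2506 a2433 (k4 a2507 a351 i1065 a403 (k1 a201 k0)))))))) (by decide +kernel)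
def a2509 : PP 8 4 T 0x202000000000000080000000000000000400000000000000000200000000001001000 := rS 0xb819b94eec2638e4503e410462675118acb20f0e8d5231740adcfe5544c65269533c128aae4d98d16995498494978a1cc9c08248000641378b42c1b02c34e21e (k8 a2477 i1357 a81 a2109 i268 a437 a329 i968 (k8 i22 i220 a349 i959 a2505 i223 i757 a389 (k8 a24 i477 i2640 a85 a57 i2292 i2290 a2508 (k8 a336 a381 a2495 i449 a14 a115 a2424 a1013 (k8 a72 i759 a125 a124 a2499 a102 i1115 i10 (k8 a2187 i603 a371 a9 a453 a205 a2429 a462 (k8 i1435 i1436 i296 i258 a2428 a2426 a468 i290 (k2 a2476 a1710 k0)))))))) (by decide +kernel)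
def a2510 : PP 8 4 T 0x1000000000000102200000000000000000100008000000000050000000000000200000000000001000 := rS 0xc608a9042275a30e8625078761aa70387886fd (k8 a2330 i41 a2477 i1302 a1825 a81 i10 a2187 (k8 i346 a106 a2427 a403 a725 i727 i1395 i484 (k2 a1035 i415 k0))) (by decide +kernel)
def a2511 : PP 8 4 T 0x2000000000000080000000000000000400000000000000000200000000001001000 := rS 0x16875a1ae157115ed155c9b49aa532974ac50fe7d399381117378b61a710f18cce8b24904c2652500006160d81592cb56954d704 (k8 a2495 a464 a72 a445 a385 a343 a2109 i268 (k8 a437 i220 a349 i477 i2641 i2640 i22 i959 (k8 i2292 i449 i2290 a2477 i1357 a81 a329 i968 (k8 a2499 a2505 i223 i757 i1273 i759 a389 a14 (k8 a24 a57 a85 a115 a2508 a336 a381 i1986 (k4 a2509 a2510 i2040 a351 (k2 i1065 a403 (k1 a201 k0)))))))) (by decide +kernel)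
def a2512 : PP 8 4 T 0x2000000000000000000000000000800400000000000000000200000000001001000 := rS 0xb43ac5e86b862c44225d1b9e44a5907a9c768b489945a7d569fcab194ca4d2aa98a1cc92413793810d30390dfb0d38878c24a0b06cce630000c0b04 (k8 a2495 a2109 i220 a349 i2290 i449 i268 a437 (k8 i477 i2640 a2477 i1357 a81 a2330 i41 i1302 (k8 a2511 a1807 i223 i1271 i22 i959 i757 a389 (k8 a85 a14 a115 a57 a2424 a72 i759 a445 (k8 i1273 i1263 i2641 a102 i2292 a339 a1825 a2187 (k8 i603 i346 i1073 i994 a2497 i483 a2506 a2433 (k4 a2507 a351 a465 i1065 (k2 a403 a201 k0)))))))) (by decide +kernel)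
def a2513 : PP 8 4 T 0x8002000000000000000000000000000000400000000000000000200000000001001000 := rS 0x222aa5c9dcce6564b2cfaad3f9552a93a2af55c9b31a2d32a94bc50e649209bc9c086981c86fd3092800030b06c0b0d38878d704 (k8 a2495 a464 a2477 i1357 a81 a2109 i268 a437 (k8 i220 a349 i477 i2640 a2330 i41 i1302 a2511 (k8 a1807 i223 i1271 i22 i959 i757 a389 a24 (k8 a85 a57 i2292 i2290 a2512 a336 i1986 a381 (k8 a115 a14 a72 i759 a445 i1273 a385 a343 (k4 i2641 i449 a332 a465 (k2 i2040 a2119 (k1 a2510 k0)))))))) (by decide +kernel)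
def a2514 : PP 8 4 T 0x202000000000000000000000000000000400000000000000000200000000001001000 := rS 0x5c2ee9e776131c508208c4cea23159641e1d538d522815b9fcab1949a54cf455eab9366345a6552978a1cc92413793810d30390dfa612500006160d8161a710f1ae0917 (k8 a2513 a2495 a464 a2477 i1357 a81 a2109 i268 (k8 a437 i220 a349 i477 i2640 a2330 i41 i1302 (k8 a2511 a1807 i223 i1271 i22 i959 i757 a389 (k8 a24 a85 a57 i2292 i2290 a2512 a336 i1986 (k8 a381 i449 a14 a115 a2424 a72 i759 a125 (k8 a124 a102 i1115 a1825 i10 a2187 i603 a371 (k8 a9 a453 a205 a2429 a462 i1436 i258 a2428 (k4 a2426 a13 i1944 a2476 (k1 a2423 k0))))))))) (by decide +kernel)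
def a2515 : PP 8 4 T 0x2000000000000000000000000000000400000000000000000200000000001001000 := rS 0xb43ad0d70ab88c5d7b455726d26a94ca5d2b143f9f4e66f27021a66b2aab596c9823f61a07219c43c6333a2c9241309949400018583605 (k8 a2109 i268 a437 i220 a349 i477 i2641 i2640 (k8 i22 i959 i2292 i449 i2290 a2477 i1357 i41 (k8 i1302 a81 a2330 a2495 a343 a385 a445 a72 (k8 a464 a2511 a1807 i223 i1271 i757 i1273 i759 (k8 a389 a14 a24 a57 a85 a115 a2512 a336 (k8 a381 i1986 a2513 a2514 a2510 i2040 a351 i1065 (k2 a403 a201 k0))))))) (by decide +kernel)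
def a2516 : PP 8 4 T 0x2000000000000000000000040000000000000000000000000200000000001001000 := rS 0x6b08b1cba378ca68766345a7d227961b160ac816a5d32a98a1cc926f2702196b52c91c82fd2b29463118b8944235079fd1c072194cc24a0000c2c1b02c34e21e (k8 a2477 i1357 a81 a2109 i268 a437 i220 a349 (k8 i477 i2640 a1816 i41 i1302 a2515 a930 a2187 (k8 i1115 i726 i346 a432 a28 i985 a2083 i1133 (k8 a2330 i22 i1578 i603 i1395 a2107 a2093 i223 (k8 i1271 i959 i757 a389 a85 a57 a24 i1263 (k8 i1132 a32 a277 a276 a1565 a102 i1187 i2292 (k8 i2290 a339 a336 a561 i994 a2497 a2286 i483 (k2 i507 a132 k0)))))))) (by decide +kernel)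
def a2517 : PP 8 4 T 0x2000000000000000000000000000000000800000000000000200000000001001000 := rS 0x2228138743c472b10586c582b211c4a0000c0a0f (k8 a2187 a2109 i220 a349 i477 a2515 i1132 a32 (k8 a277 a276 i22 i1133 i1578 a2477 i10 i735 (k2 i1436 i484 (k1 a2099 k0)))) (by decide +kernel)
def a2518 : PP 8 4 T 0x2000000000000000000000000000000000000000000000000200000000001001000 := rS 0x9b3d8e5e2c635844bb1241d155c994bc50e66f5ba045a4e041e596c561ad48f05529593ec8108c4ff1788a38c291249286a3b001c42c032094c3605129641efd8681c3c43 (k8 i41 a2477 i1302 a81 a2330 a2187 i603 i346 (k8 a2109 i268 a1816 i22 i220 a437 i1357 a349 (k8 a339 i1115 i477 i959 a102 i2640 a2515 a28 (k8 a432 a930 i985 i726 i1132 i1187 i1133 a2083 (k8 a32 i1578 i1395 a276 a277 a2107 a1565 a2093 (k8 i223 i1263 a124 a125 i1271 i757 a389 a24 (k8 a57 a2516 a381 a2517 a462 a5 i483 i507 (k4 a132 a198 i299 i714 (k2 a828 i2045 k0))))))))) (by decide +kernel)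
def a2519 : PP 8 4 T 0xa002000000002000000001000000040000010000000000000000000000100000000000 := rS 0x4a8bc6a93 (k4 a19 a348 a363 a14 (k1 a2487 k0)) (by decide +kernel)
def a2520 : PP 8 4 T 0x8012000000002000000001000000040000010000010002000402000000100000000000 := rS 0x94398bc6a93 (k4 a19 a348 a1830 i1017 (k2 a2487 a2354 k0)) (by decide +kernel)
def a2521 : PP 8 4 T 0x8002100000000000000000000000000000000000000000000000200000000400001000 := rS 0x1a42e049c8c46f30c55c8a32394dfb0d038b43a7144aa490020081430c11090c1e1e (k8 a2477 a2187 i41 a1200 i1306 a2518 a2109 i1038 (k8 a349 i221 i2755 i2093 i1356 i10 i1040 i1302 (k8 a81 a2330 a1816 i224 i240 a425 a2519 a2520 (k4 i1008 a438 a389 i1348 (k2 i1091 a1807 (k1 a430 k0)))))) (by decide +kernel)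
def a2522 : PP 8 4 T 0x1012001000000000000000000001000000010000014001000000000000000002000040 := rS 0xd217024e462 (k4 a438 a389 i1348 i1091 (k2 a1807 a430 k0)) (by decide +kernel)
def a2523 : PP 8 4 T 0xa002100000000000080000000000000000400000000000000000200000000000001000 := rS 0x8ee55228e1a2d0e920663138a2404010c01582212183c3c771ac444473 (k8 a417 a2521 a9 a348 a332 a2477 a2187 i41 (k8 a1200 i1306 a2109 a2518 i1038 a349 i2093 i1356 (k8 i1003 i2094 i221 i10 i1040 a81 a99 a2355 (k2 a2519 i2100 (k1 a425 k0))))) (by decide +kernel)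
def a2524 : PP 8 4 T 0xa002100000000000000000000000000000400000000000000000200000000000001000 := rS 0x8ca472a8c10d34a8bdfa0716875123301004300560884860f0f0d526b9 (k8 a465 a19 a348 a2477 a2187 i41 a1200 i1306 (k8 a2109 a2518 i1038 a349 i2094 i2093 i10 i1040 (k8 i1302 a2330 a363 a14 a2523 a1807 i2097 a2519 (k2 a1272 a425 (k1 i2100 k0))))) (by decide +kernel)
def a2525 : PP 8 4 T 0x1012001000000000000000000000000000010000010001000002000000000002000040 := rS 0xdea9 (k2 i2755 i1008 (k1 a2522 k0)) (by decide +kernel)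
def a2526 : PP 8 4 T 0x8002100000000000000000000000000000400000000000000000200000000000001000 := rS 0x16aa437348e62f3045622225c8d4ee537ec340e2d0e920663138a2404010c10c0a1e (k8 a2477 a2109 i41 a2518 i1038 a349 i2093 i1356 (k8 i1003 i2094 i221 i10 i1040 i1302 a81 a2330 (k8 a1816 a332 a348 a465 a2521 a9 a2524 a2525 (k4 a1830 i1017 a120 a389 (k2 a2355 i1399 (k1 i249 k0)))))) (by decide +kernel)
def a2527 : PP 8 4 T 0x14002100000000000000000400000004041000000044400000100600000000000001000 := rS 0x138c6a7a6822832ec48a6fd868cce2890f1ecf24801004304302b0d8a0f (k8 a2187 a277 a276 a2109 i41 a2518 i1038 a349 (k8 i221 a353 a418 a2477 i2093 i1356 i2094 a81 (k8 a2330 a1816 a406 a5 a68 i483 a920 a1160 (k2 a132 a1490 (k1 i1640 k0))))) (by decide +kernel)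
def a2528 : PP 8 4 T 0x4202100000000000000000000040000000000000000001000000200000000000001000 := rS 0x638445090359457eaa65a7cccb8528d5c8a32395c462d0e8cd92c310b141e6f17a552e7349c6628714481e1a1e7eaa490020090c0a18 (k8 a2518 a2109 i41 i1038 a349 i221 i2755 a2330 (k8 a2477 a81 i1302 i2093 i1356 a2525 a561 a115 (k8 a417 a24 a14 a363 i1008 a2187 a277 a1200 (k8 a276 i2777 i2094 i10 i1040 a9 a58 i224 (k8 i240 a425 a364 a382 a1272 a1575 a414 a1988 (k8 a1261 a367 i497 i585 a2527 i1169 i1836 i258 (k1 a132 k0))))))) (by decide +kernel)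
def a2529 : PP 8 4 T 0x2100000000000080000000040000001400000000001000000600000000000001000 := rS 0x6b28afd54083f32d5a9f3e99a86b83b2d54a3572104a65916874663164b04420f378bd2a9739a4e231741a1d0a112ec48f7198a1c5120786879faa93c92004010c10c0aa3 (k8 a99 a2109 i41 a2518 i1038 a349 i221 a353 (k8 i2755 a2330 a2477 a81 i1302 i2093 i1356 a2525 (k8 a561 a418 a406 a5 i483 a77 a69 a68 (k8 a2526 a2528 a115 a417 a24 a14 a363 i1008 (k8 a2187 a1200 i1306 i2777 i1003 i2094 i10 i1040 (k8 i603 a1816 i22 a425 a364 a382 i1395 a2355 (k8 a1272 a2282 a2381 i1630 i1715 i1290 a1988 a403 (k4 a2403 a1261 i1723 i1310 (k2 i585 a2527 k0))))))))) (by decide +kernel)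
def a2530 : PP 8 4 T 0x2100000000000080000000040000001400000000001000000200000000000001000 := rS 0x3b0d444a5230cc62c939c50e2484480802050c01c870d0f3f62317 (k8 a2526 a2528 a2330 a2477 a81 i41 i1302 a2518 (k8 a2109 i1038 a349 i2093 i221 i1356 a2525 a417 (k8 i2777 i1003 i2094 a2529 i2100 i224 i207 a2355 (k1 i1625 k0)))) (by decide +kernel)
def a2531 : PP 8 4 T 0x2100000000000000000000040000001400000000001000000600000000000001000 := rS 0x6b5fa7d54765c2946ae41687466c91083cde2f4aa5ce69388c5d0f123dc66287144c35527924008021802a8ca2416593810d30390dfa1e (k8 a2477 a2330 i41 i1302 a2530 a1807 i223 i2884 (k8 i22 i1310 i2097 a2109 a2518 i1038 a349 i221 (k8 a353 i2755 a81 i2093 i1356 a2525 a561 a418 (k8 a406 a69 a2526 a2528 a115 a417 a24 a14 (k8 a363 i1008 a2187 a1200 i2777 i2094 i10 i1040 (k8 a425 a364 a382 a1272 a2352 a1261 i1715 a367 (k2 i585 a2527 k0))))))) (by decide +kernel)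
def a2532 : PP 8 4 T 0x2100000000000000000000040000001400000000001000000200000000000001000 := rS 0x5c2ac6aa52332c9ca30434c5a1d19b24420f17a55271438921120200814300721c343cfd (k8 a2330 a2477 a81 i41 i1302 a2518 a2109 i1038 (k8 a349 i2093 i221 i1356 a2525 a115 a14 a363 (k8 a2187 a1200 i2777 i2094 i10 i1040 a2530 a1807 (k8 i2097 i223 i2884 a2531 i2100 i207 i1655 a1272 (k1 a1261 k0))))) (by decide +kernel)
def a2533 : PP 8 4 T 0x2100000000000000000000040000000400000000001000000200000000000001000 := rS 0x472b1d0ee111433d211120920660200860860561b141f17 (k8 a2526 a2187 a277 a276 a2109 i41 a2518 i1038 (k8 a349 i2094 i221 i22 a2528 a2532 i1149 i1169 (k4 i1836 a1096 a466 i1011 (k2 i1578 a2099 k0)))) (by decide +kernel)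
def a2534 : PP 8 4 T 0x4002100000000000000000000040000001000000004002000000200000000400001000 := rS 0x31c222813a0a309f331ad7e65552e1969304450a2fd1687466c9618858a9717a54e65324434e28901004304302a8c3c3552b908e0f (k8 a2187 i224 a425 a382 a364 a2477 i240 a2109 (k8 i41 a2518 i1038 a349 i2093 i1356 a81 i221 (k8 a1816 i1017 a2354 a1830 a449 a277 a1200 a276 (k8 i2777 i2094 i10 i1040 a2330 i1311 a389 a1620 (k8 a115 i1388 a1272 a1261 i1027 a367 i585 a352 (k8 a414 a2527 a2349 i735 i1436 i484 i258 a132 k0)))))) (by decide +kernel)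
def a2535 : PP 8 4 T 0x202100000000000000000000040000001400000000000000000200000000000001000 := rS 0x8a1cbb128c9dcc8ca692ad5a09281b8824d2cbf61a071b9c5127b3cb255248010040a1860884871739980a6856695cfa755aa8c3ca57211c460f (k8 a2187 a9 i224 a425 a382 a2477 i240 a444 (k8 a453 a73 a58 a380 a361 a1816 a2533 i1017 (k8 a2526 i41 a1200 i1306 a2518 a2109 i1038 a349 (k8 i221 i2755 i2777 a353 a418 i2093 i1356 a446 (k8 i1302 a81 a2330 i603 i525 i22 a2534 i1009 (k8 i1310 i1313 i497 a1807 a1834 i1392 i1548 a2348 (k4 a406 a5 a69 i483 (k1 a2402 k0)))))))) (by decide +kernel)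
def a2536 : PP 8 4 T 0x202100000000000000000000040000000400000000000000000200000000000001000 := rS 0x2194ad5c24cceab3553d8e3d088a19e90528d5c8a32388dfa071687466c961b158221078bd2a733014c910d38a2404010c10c0a1e (k8 a2477 a2109 i41 a2518 i1038 a349 i2093 i1356 (k8 a81 i221 a1816 a2533 i1017 a2354 a1830 a2187 (k8 a1200 i1306 a277 a276 i2777 i2094 i10 i1040 (k8 i1302 a2330 a9 i224 i240 a425 a364 a382 (k8 a2535 i1149 i1169 i1836 i1840 i258 a1160 a132 (k8 i585 i548 i1282 a1272 i1290 a1261 a1700 i1387 k0)))))) (by decide +kernel)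
def a2537 : PP 8 4 T 0x2100000000000000000000040000001400000004000000000600000000000001000 := rS 0xb83ba4c45141687466218b8bd2a733014c910d38a2404010c01622a37e81c3c431aa95c80f (k8 a2187 a425 a382 a364 i41 a2477 i1302 a2330 (k8 a1824 a2536 a2109 a2518 i1038 a349 i2093 i1356 (k8 a81 i221 a1816 a2533 i1017 a2354 a1830 a2526 (k8 a1200 i2094 i10 i1040 a389 a2534 a115 i1625 (k2 a1272 a2352 k0))))) (by decide +kernel)
def a2538 : PP 8 4 T 0x2100000000000000000000040000001400000000000000000600000000000001000 := rS 0x561f596ab2a198ae7669024a06e528d546e47ec340e481992c823138a2404010c01582212183c3c6339980a711 (k8 a2536 a1816 a2533 i1017 i37 a2477 a2187 i41 (k8 a1200 i1306 a2109 a2518 i1038 a349 i2093 i1356 (k8 i1003 i22 i1046 i2094 i221 i1302 a81 a2330 (k8 a425 a1824 a364 a382 a2537 i1009 i1310 a1807 (k8 a2355 i1628 i752 i751 i497 i545 i2974 a1834 (k1 i1313 k0)))))) (by decide +kernel)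
def a2539 : PP 8 4 T 0x4102000000000000000000000000000000400000000000000000a00000000000000008 := rS 0x1dcea222a0cc9641 (k8 i22 i1046 i2094 i225 i224 i1540 i1625 a466 k0) (by decide +kernel)
def a2540 : PP 8 4 T 0x2100000000000000000000040000000400000000000000000200000000000001000 := rS 0xe8573b84450cf4811e22591992c04010c10c0a4161b141f17 (k8 a2526 a2187 a277 a276 i22 a2109 i41 a2518 (k8 i1038 a349 i1046 i2094 i603 a2536 a2539 a2538 (k4 i1149 i1169 i1836 a1096 (k2 a2099 a466 (k1 a1851 k0))))) (by decide +kernel)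
def a2541 : PP 8 4 T 0x4202100000000000000000000000000041000000000001000000200000000000001000 := rS 0x63844502741460d64e28afd54cb4f9995b435c24d32734a8be286f29bf61a0716874663138a24f6796492004010286186c5608848657518786aa57211c460f (k8 a2187 a9 i224 a425 a382 a364 a2477 i240 (k8 a58 i41 a1200 i1306 a277 a276 a2518 a2109 (k8 i1038 a349 i221 i2777 a353 a418 i2093 i1356 (k8 i1003 i2094 i10 i1040 i1302 a81 a2330 a1816 (k8 i1008 a2525 a363 a14 a417 a57 a115 a1272 (k8 a2282 i1290 a1575 a414 a1988 a439 a367 i497 (k8 a467 a188 a2527 a2349 i735 i1436 i484 i258 (k1 a132 k0)))))))) (by decide +kernel)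
def a2542 : PP 8 4 T 0x4202100000000000000000000000000041000000004000000000200000000000001000 := rS 0x63844502741460d69f332fccaaa5c32d264e04450a2fd16874667b3cb25862162a8c6aa57211c460f4c8bd2a733014c910d38a2404010c10c0a1e (k8 a2477 a2109 i41 a2518 i1038 a349 i2093 i1356 (k8 a81 i221 a1816 a2541 i1017 a2354 a1830 a448 (k8 a2187 a9 i224 a425 a382 a364 i240 a277 (k8 a1200 a276 i2777 a353 a418 i2094 i10 i1040 (k8 a2330 i1311 a389 a1620 a467 a115 i1388 a1272 (k8 a1261 i1027 a367 a352 a414 a188 a2527 a2349 (k4 i735 i1436 i484 i258 (k1 a132 k0)))))))) (by decide +kernel)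
def a2543 : PP 8 4 T 0x202100000000000000000000000000001400000000000000000200000000000001000 := rS 0x8633afd3eca5eae156b649a0ca06e4a9cc5e607ec345a1d199c51279648862f454094d2eae5492004012181430856695cfa75518786aa57211c460f (k8 a2187 a9 i224 a425 a382 a364 a2477 i240 (k8 a453 a73 a58 a380 a361 a2518 a2109 i41 (k8 i1038 a349 i221 i2755 a2540 i1900 a1816 i1862 (k8 a381 a2526 a1200 i2777 a353 i2093 i1356 i2094 (k8 i10 i1040 a81 a2330 a2541 a1830 i1017 a2354 (k8 a2542 i1009 i1440 i1321 i500 i497 a1272 i1988 (k4 a1261 i1190 a396 i2370 (k2 a2401 a982 k0)))))))) (by decide +kernel)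
def a2544 : PP 8 4 T 0x202100000000000000000000000000000400000000000000000200000000000001000 := rS 0x1fcc8ab4a99d7a4e399a904513bb1d6e11378a19f134811d6a2386a9c0efd199c5121e64aa490020090c0a1861b141f17a2a055c53 (k8 a1816 a2540 i1862 a381 a2526 a2187 a277 a276 (k8 a2518 a2109 i41 i1038 a349 i221 i2755 i2777 (k8 a2477 i2093 i1356 i2094 a2330 i1302 a1825 a81 (k8 a9 a444 i224 a2543 a112 i1149 i1169 i1172 (k8 i1836 i1928 i258 a1096 i500 a462 a132 a1880 (k8 a467 i1415 i548 a2354 i586 a352 i760 a2156 k0)))))) (by decide +kernel)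
def a2545 : PP 8 4 T 0x20002001000000000000014000000000001000000050080000502400000000480015000 := rS 0x18c2835a09170d (k4 a81 a52 a2349 i547 (k2 i1436 a132 (k1 i258 k0))) (by decide +kernel)
def a2546 : PP 8 4 T 0x4002100000000000000000400000004041000000044080000100600000000400011000 := rS 0x9a4ea0cd5128cd3ca6fd869c5121e3d9e592480100486050c30d8a0f (k8 a2187 a277 a276 a2518 a2109 i41 i1038 a349 (k8 i221 i2777 a353 a418 a2477 i2093 i1356 a81 (k8 a2330 a1816 a1160 a2545 a406 a2527 a68 i1908 (k2 a920 a1490 k0)))) (by decide +kernel)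
def a2547 : PP 8 4 T 0x2100000000000000000000000000001400000000001000000200000000000001000 := rS 0x449065c130a420b7271457eaa65a7c46542b998ecb8499cd2a2f8a1be1a2d0e8dc664b209c5127b6488502534bab9524851bf40e1e1aa95c84788c5c04010c10c0a0f (k8 a2187 a2109 i41 a2518 i1038 a349 a2526 a2544 (k8 a2539 a425 a382 a364 a2477 i1302 a2330 a1824 (k8 i221 i2755 a2540 i1900 a1816 i1862 a1200 i2777 (k8 a418 i2093 i1356 i22 i1046 i2094 a446 i10 (k8 i1040 a81 i1008 a2525 a363 a14 a417 a115 (k8 a1272 a2352 a1575 i1628 i751 i1625 i1716 a1988 (k8 a1261 a367 i497 i1658 a577 a2546 i1836 i484 (k4 i483 i1436 a695 a5 k0)))))))) (by decide +kernel)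
def a2548 : PP 8 4 T 0x2100000000000000000000000000001400000004000000000200000000000001000 := rS 0x8920cb826148413e23332fcecaa5c32d264e5b8222851168746e333db2442814bab952a37e81c6aa57211e2317078bd2a733014c910d38a2404010c10c0a1e (k8 a2477 a2109 i41 a2518 i1038 a349 i2093 i1356 (k8 a81 i221 a1816 a2547 i1017 a2354 a1830 a2187 (k8 a2526 a2544 a2539 a425 a382 a364 i1302 a2330 (k8 a1824 i2755 a2540 i1900 i1862 a1200 i2777 a418 (k8 i2094 a446 i10 i1040 i1311 a389 a1620 a577 (k8 a467 a115 i1388 a1272 a1261 a2352 a367 i752 (k8 i1625 i1716 a2546 i1836 i484 i483 i1436 a695 (k1 a5 k0)))))))) (by decide +kernel)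
def a2549 : PP 8 4 T 0x2100000000000000000000000000001400000000000000000200000000000001000 := rS 0x2b0facb55950cc573b3481250371ccc0537ec340e481992c823138a243cae1aa95c84788c5c04010c10c0a0f (k8 a2187 a2109 i41 a2518 i1038 a349 a2526 a2544 (k8 a2539 a425 a382 a364 a2540 a2477 i2093 i1356 (k8 i1003 i22 i1046 i2094 i221 i1302 a81 a2330 (k8 a1816 a2547 i1017 a2548 i1009 i1310 a1807 a2355 (k8 i1628 i752 i751 i497 i2370 i2974 a1719 i1313 k0))))) (by decide +kernel)
def a2550 : PP 8 4 T 0x2100000000000000000000000000000400000000000000000200000000000001000 := rS 0xe8573b84450cf4811e231762b0cb20f1992c04010c10c0a41 (k8 i22 a2109 i41 a2518 i1038 a349 i1046 i2094 (k8 a2187 i603 a276 a277 a2526 a2544 a2539 a2549 (k4 i1149 i1169 i1836 a1096 (k2 a2099 a466 (k1 a1851 k0))))) (by decide +kernel)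
def a2551 : PP 8 4 T 0x2000000000000000000000080000000000000000000000200008000040000010000 := rS 0x1497106f1 (k4 a6 a374 i499 i257 (k1 a2043 k0)) (by decide +kernel)
def a2552 : PP 8 4 T 0x202000000000000000000000000000001400000000001000000200000000000011000 := rS 0xc362afc50b8411fca2530791cee554288cde733318d2a3e1eab952391b8b43aa717a66287103c343cfd4b8ec569b8c1ee27043c9211202008608605 (k8 a2109 i41 a2518 i1038 a349 i2093 i221 a353 (k8 a2550 a205 a418 a406 a41 a371 a203 a71 (k8 a2330 a2477 a81 i1302 i1356 a2525 a57 a363 (k8 a1825 i10 i1040 a446 a401 i2755 a561 a1827 (k8 i2034 a14 a51 a2504 a417 i1008 a9 a361 (k8 a72 i751 a451 a2187 a1816 a2551 a1044 a2349 (k4 a2119 i1436 i1457 i1841 (k2 i376 a2545 k0)))))))) (by decide +kernel)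
def a2553 : PP 8 4 T 0x400000000000000002000000000000000014000000600540010000000080000000001544500000001000 := rS 0xd17ee5 (k4 a382 i1452 a722 a204 k0) (by decide +kernel)
def a2554 : PP 8 4 T 0x202000000000000000000000000000001400000000001000000200000000000001000 := rS 0xab52b169ece43b1c125027a0d862614841023d332b9326339a545f142983e1aa71687472371992c827144aa596ad359d4caa323bf40e772aa159a57609f43c3b15a7d369d4bc60f713821e49002008608605 (k8 a2109 i41 a2518 i1038 a349 i221 a353 a2550 (k8 a205 a418 a406 a71 a347 a41 a33 a371 (k8 a203 a2477 a73 i1305 a58 a380 a361 a72 (k8 i751 i1302 a2330 a451 a1824 a63 i1010 a464 (k8 a445 a385 i2755 i2093 i1356 i22 i1046 i2094 (k8 a446 a401 i10 i1040 a1825 a81 a2187 a1816 (k8 a2525 a363 a14 a417 a51 a57 a561 a2504 (k8 a1827 i1862 a2552 i1836 i484 i1953 i1436 a913 (k8 a2349 i223 a1607 i738 i2046 a1950 a807 a2553 (k2 i497 a1834 k0)))))))))) (by decide +kernel)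
def a2555 : PP 8 4 T 0x202000000000000000000000000000001400000004000000000200000000000011000 := rS 0xc363afc503e5c208fe51159641efd869c5121e3b954469b8c1ee267924008021821814e6534a980cb04 (k8 a2550 a63 a2554 i1018 a1816 i1017 a2109 i41 (k8 a2518 i1038 a349 i221 a353 a205 a418 a406 (k8 a41 a9 a72 i751 a2477 i2093 i1356 a81 (k8 a2330 a2187 i603 a371 i1311 a1044 a2349 a2119 (k4 i1435 i1436 i1457 i258 (k2 i376 a2428 k0)))))) (by decide +kernel)
def a2556 : PP 8 4 T 0x202000000000000000000000040000001400000000000000000200000000000011000 := rS 0x10ec6102fd862940d15483e78b49560941940dc4115894b20f869e49002008600acb56a8c8f047e81c86852bb04fa1e (k8 a2477 a73 i1305 a58 a361 i41 i1302 a2330 (k8 a2550 a451 a1824 a445 a385 a2109 a2518 i1038 (k8 a349 i221 a353 a81 a2187 i603 i346 a371 (k8 i22 a2555 i1009 i1440 i1310 i497 a1807 a1818 (k8 a1917 a1834 a80 i1333 i257 a1846 i1452 a1340 (k2 a2428 a982 (k1 i1689 k0))))))) (by decide +kernel)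
def a2557 : PP 8 4 T 0x202000000000000000000000040000001400000000000000000200000000000001000 := rS 0x1a43c048fca0b741970521020c354e077e8b43a391b9c5121e1d8ad36978c1ee27043c92004010c10c0a99179ccc053 (k8 a1816 a2554 i1017 a1830 a448 a2109 i41 a2518 (k8 i1038 a349 i221 a353 a2550 a205 a418 a406 (k8 a71 a41 a371 a203 a2477 i2093 i1356 a446 (k8 a401 i10 i1040 a2330 i1302 a1825 a81 i22 (k8 a2556 i1836 i483 i1436 i1930 a2349 a1022 i1310 (k2 i2034 a1807 (k1 a335 k0))))))) (by decide +kernel)
def a2558 : PP 8 4 T 0x202000000000000000000000000000001400000000000000000200000000000011000 := rS 0x289b87c3d570e46e2d0ea9c0e1e7e8bd32604b8ec569b8c1ee27043c9211202008608605 (k8 a2109 i41 a2518 i1038 a349 i2093 i221 a353 (k8 a2550 a205 a418 a406 a41 a371 a203 a71 (k8 a2554 a448 a1830 a2330 a2477 i1302 a1825 i10 (k8 i1040 a446 a401 a2557 a1827 i2034 a2555 a2551 (k1 i1009 k0))))) (by decide +kernel)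
def a2559 : PP 8 4 T 0x202000000000000000000000000000001400000000000000000200000000000001000 := rS 0x62d3d9ce543a918eab049409e83618985210788f9023d571cc5e993025d3a9b4fc60762b2983e1aa716874723725904e2893d9e552cb569acea655191dfa073b954900200860860542b34af1382304fa1e (k8 a2477 a73 i1305 a2550 a205 a58 a380 a361 (k8 a2109 i41 a2518 i1038 a349 i221 a72 i751 (k8 i1302 a2330 a451 a1824 a63 i1010 a464 a445 (k8 a385 i2755 a353 a418 i2093 i1356 i22 i1046 (k8 a446 a401 i10 i1040 a1825 a81 a2187 a1816 (k8 a371 a203 a406 a33 a41 a347 a71 a2554 (k8 a448 a1830 i1017 a2557 a1827 i1862 i2034 a6 (k8 a2558 i1836 i484 i1953 i1436 a913 a2349 i223 (k8 i497 a1607 a1834 i738 a382 i2046 a1950 a807 (k1 a379 k0)))))))))) (by decide +kernel)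
def a2560 : PP 8 4 T 0x2001000000000000000000040000000000000000000000200010000020000010040 := rS 0x690fc1283 (k4 a374 i1310 i257 a1807 (k1 a1917 k0)) (by decide +kernel)
def a2561 : PP 8 4 T 0x612001000000000000000004000008000410040410001000002000000000002000040 := rS 0x834d2f170734ac50deb5 (k8 a444 i1008 a2525 a14 a417 a2119 i1190 i1189 (k2 i1415 a947 k0)) (by decide +kernel)
def a2562 : PP 8 4 T 0x612001000000000000000004000008000410000010010001502000000000002000040 := rS 0x41a6978b84a9ccde603faa4eeb5 (k8 a444 i751 i2755 a1044 a2561 i1009 a1880 i1018 (k4 a2119 i1190 i1189 i1415 (k1 a947 k0))) (by decide +kernel)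
def a2563 : PP 8 4 T 0x202000000000000000000000000000000400000000000000000200000000000001000 := rS 0xaf2827984c75b844503a4844c46411594cb20f86a9c0efd241c512020086086050f194ab04 (k8 a2550 a72 a63 a2477 a2109 i41 a2518 i1038 (k8 a349 i2093 i1356 i221 a2330 i1302 a1825 a81 (k8 a2187 i603 a1816 a371 i22 a9 a205 a2559 (k8 i1168 i1169 i1836 i1928 i258 a2428 i374 a2562 (k2 i500 a2560 k0))))) (by decide +kernel)
def a2564 : PP 8 4 T 0x112001000000000000400000000000000410000410000000202010015001102000040 := rS 0xe42f52b496a09 (k4 i1310 i1397 a1807 a164 (k2 a359 a2355 (k1 i1091 k0))) (by decide +kernel)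
def a2565 : PP 8 4 T 0x2000000000000000000000000000001400000000000000000200000000000001000 := rS 0xbf4d2d12f14319fcfa7337820a22143a0cbac68910456a1298943b0d5381dfa33189c5121e3d9e552cb56ae5263a8cb3cce9d78b0c6b163b954ea652405e2304078e46e02008608605 (k8 a2109 i41 a2518 i1038 a349 a446 a401 a2187 (k8 a2550 a2563 i43 i221 a63 i1010 a72 i751 (k8 a466 a348 a2205 a1762 a399 a350 a368 a784 (k8 a419 a19 a2352 a445 a385 i2755 a353 a418 (k8 a2477 i2093 i1356 i1003 i2094 a2330 i1302 a1825 (k8 a81 i10 i346 a1816 a1833 a371 i22 a203 (k8 a2459 a5 a68 a69 i1689 a2564 a1620 i1009 (k8 a1880 a1110 a1044 i1348 a389 a989 a1698 a920 (k2 i2926 a707 k0))))))))) (by decide +kernel)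
def a2566 : PP 8 4 T 0x2001000000000000000000000000000000000000000000200010000020000010040 := rS 0x2bd6ea7 (k4 a1825 i1928 i500 a2560 k0) (by decide +kernel)
def a2567 : PP 8 4 T 0x2000000000000000000000000000000400000000000000000200000000000001000 := rS 0x18e21522d12b1417b04fe7d399bc10510889c509061a4c6ab98b444eea33a9548ead32c1082531283dfb0d0385c5a1d198c4e2890f2a490020090c0a18 (k8 a2518 a2109 i41 i1038 a349 i221 i2755 a2477 (k8 i2093 i1356 i1003 i2094 i10 i1040 i43 i1302 (k8 a81 a2330 a2187 i346 a1816 i22 a2550 a63 (k8 a445 a451 a72 i1010 a1824 i751 a2563 a466 (k8 a2352 a348 a19 a2205 a2565 i1169 i733 i1836 (k8 a2566 a1620 i1009 a1880 a1110 a1044 i1265 i2096 (k4 a389 a2354 a1698 i2033 (k2 i727 i2135 (k1 a1035 k0))))))))) (by decide +kernel)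
def a2568 : PP 8 4 T 0x102000000000000000401000010040000000040000000000200410000001100005040 := rS 0x52aad6a09 (k4 i1310 i1397 i498 a164 (k1 a1834 k0)) (by decide +kernel)
def a2569 : PP 8 4 T 0x102001000000000000000000000004141000040150000000502400020011980015000 := rS 0x1435aae14ace633157a854d46586833d9e4d6b7379f55b0472a049d0d (k8 a81 a467 a124 a364 a425 a445 a1110 i1009 (k8 a577 a464 a353 a418 i1436 i250 a2349 i2045 (k8 a1002 i1418 a688 a132 i413 i415 i1151 i1395 (k2 a351 a403 k0)))) (by decide +kernel)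
def a2570 : PP 8 4 T 0x2000000000000000000000000000000000000000000000000200000000000011000 := rS 0x7e9b614618e3b13c4c50a71687472713d9e4449f489cc5e974c98c105156b2e08e5238d192a360c5cea771085cff114701c4a0f20878a6897eaa490020090c0a18 (k8 a2518 a2109 i41 i1038 a349 i221 i2755 a2330 (k8 i2093 a1816 a2477 i22 a2187 i346 i1302 a2567 (k8 a28 a930 i43 i725 i125 i124 a432 a2328 (k8 i241 i2777 i1130 i207 a364 a425 a385 a445 (k8 a2568 a1620 i1348 a837 a989 i2096 a1880 a1063 (k8 i2812 i1131 a353 a418 i1356 a401 i10 i1040 (k8 a1825 a2569 a54 i13 i255 i2134 a406 a1035 (k2 a41 i2131 (k1 a1308 k0))))))))) (by decide +kernel)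
def a2571 : PP 8 4 T 0x2000000000000000000000000000000000000000000000000200000000000001000 := rS 0x224832e098521040938e6b728ab5970423b9546c1108d0ff173ac44ee8e54b24e248448dc04010b8600f0d0f3f44a0f029048653 (k8 a1816 i41 i22 a2109 a2187 i346 a2330 a2477 (k8 a81 i1302 a2518 i43 i1038 a349 a446 i2093 (k8 i221 i1356 i2777 i2755 a2567 i125 a28 i124 (k8 a432 a930 i1130 i725 a2328 i241 a364 i207 (k8 a425 a385 a445 a2568 a577 a1880 a467 a124 (k4 a2570 i1836 i484 i483 (k2 i1436 a695 (k1 a5 k0)))))))) (by decide +kernel)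
def a2572 : PP 8 4 T 0x12000000000000000000011000000004400040514000000000000000000242000000 := rS 0x454e67d (k4 i1502 i1092 a1698 a389 k0) (by decide +kernel)
def a2573 : PP 8 4 T 0x2002000000000000008000000000001400005500000000000200100810080010000 := rS 0x1023c130fd983b438255e3567a762d112b214400c78a9c0e43 (k8 i41 i1302 i242 a2041 a2571 i482 i1504 i481 (k8 a58 a466 a399 a368 a348 a427 a369 a387 (k4 i373 a2054 i2226 i729 (k2 a1811 i3126 (k1 i1307 k0))))) (by decide +kernel)
def a2574 : PP 8 4 T 0x2002000000000000000000000000001400005400000000000200101810080010000 := rS 0xc5a7a799ac378a154ec772a1d9e9d8b1d441112b0300e43 (k8 i41 i1302 a2571 i481 a58 i482 i1499 a466 (k8 a399 a368 a387 a392 a342 i242 i1504 a2041 (k4 a2573 i730 i2046 a26 (k2 i1525 a379 k0)))) (by decide +kernel)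
def a2575 : PP 8 4 T 0x2100000000000000100000000000001000005100050000000200000020000000000 := rS 0x45a7e30cd8988c866b43c44ac0c (k8 a2571 i481 a58 a387 i2298 i41 i1570 a54 (k4 i1969 a406 a680 a52 (k1 a1947 k0))) (by decide +kernel)
def a2576 : PP 8 4 T 0x12002000000000000500010000000004000000040050000002000000000000000000 := rS 0xc5144aaa55aab37984e24f (k8 a74 i749 a397 i1008 a97 a420 a450 a2354 (k2 a389 i2040 (k1 a51 k0))) (by decide +kernel)
def a2577 : PP 8 4 T 0x2102000000000000000000000000001400000000000000202200000000000000000 := rS 0x9f66c4cb810171c90a290f24d3acf33c58ea651886072b9011c4de77009e4f60510154826b43c459261279fd565686ad5960c (k8 a2571 i2297 i1397 a65 i481 a97 i1665 a74 (k8 a397 i504 a58 a387 i2298 i22 i1490 i482 (k8 a1522 a418 a353 i959 i751 i1008 i749 a349 (k8 a2352 a401 i220 i2682 i1491 i1499 a466 a350 (k8 a368 a399 a19 a2572 a2575 i1504 a2576 i1091 (k4 a2574 i483 a5 i1970 (k2 a680 i2046 k0))))))) (by decide +kernel)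
def a2578 : PP 8 4 T 0x2102000000000000000000000000001400000000000000200200000000000000000 := rS 0x1be2a9449ae62c710b19cc67300194940324c340a4d65b24ac0c30aa55aab (k8 a97 a420 a450 a397 a2571 i481 i504 i2297 (k8 i2346 a1522 a65 a2577 i221 a440 i1580 a349 (k8 i1093 i2290 i2291 i478 i1358 a352 a1575 a19 (k4 i2040 a14 i2644 a389 k0)))) (by decide +kernel)
def a2579 : PP 8 4 T 0x20002100000000000000100000000000000000000000450000000000000000000000000 := rS 0x1169f (k2 a33 a52 (k1 a1947 k0)) (by decide +kernel)
def a2580 : PP 8 4 T 0x2102000000000000000000000000001400000000000000002200000000000000000 := rS 0xb83c725a8461a832ec4a328514a4ccf163a99462181cae40471379dc02793d8144055209ad9711649849e7f559581851 (k8 a2578 a2571 i481 a97 i1665 a74 a397 i504 (k8 a58 i2297 i2298 i22 i1490 i482 a1522 a418 (k8 a353 i959 i751 i1008 i749 a349 a2352 a401 (k8 i220 i2682 i1491 i1499 a466 a350 a19 a2575 (k8 i1504 a2579 a406 a5 a68 a2220 i483 a301 (k4 a2576 a2572 i1091 a2574 k0)))))) (by decide +kernel)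
def a2581 : PP 8 4 T 0x400000000001012002000000000000000000000008000000110044000100100200000000000800000 := rS 0x89b356eb43814c4087889fd56563a88c1843 (k8 i41 a2571 i1570 i971 i481 a97 i1665 a58 (k8 a387 i482 a1816 a389 a403 i2468 a574 a2265 (k1 a680 k0))) (by decide +kernel)
def a2582 : PP 8 4 T 0x2102000000000000000000000000001400000000000000000200000000000000000 := rS 0x3dc4e18813e9be87154a215265d4f1d632b93cc591616339ccc600329280649289fd56ad549840a2321934d6cb88b24ac0c (k8 a2571 i481 i504 a58 i2297 i2298 i2346 i41 (k8 i1570 a1522 a397 a450 a420 a97 i1665 a2578 (k8 a2580 i221 a440 i1580 a349 i487 i1093 i2291 (k8 i478 i2292 a352 a1478 a1575 a2579 i971 a1947 (k8 a2497 a19 a1002 i2040 a14 a121 i2644 i1598 (k4 a535 a2581 a2220 a2261 (k1 a406 k0))))))) (by decide +kernel)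
def a2583 : PP 8 4 T 0x2001000000000000000000000000000000000080000000202200000000000000000 := rS 0x31843b15448602e02009040a0c21c34e24b (k8 i29 i1359 a65 i41 a2571 a1522 i22 i959 (k8 a349 i999 i220 i2093 a417 i717 i2694 a2525 (k1 i480 k0))) (by decide +kernel)
def a2584 : PP 8 4 T 0x2100000000000000000000000000001400080000000000202200000000040000000 := rS 0x3353ebda28f80ebf692aa86a163a1d4685088255e5d89464cf163a88222772a994621801004820564958d60c3d9e52a737e9c4970d (k8 a65 i29 i1359 a2582 a2583 a2354 a353 a418 (k8 a2571 i2298 i481 i504 a1522 i22 i959 a349 (k8 i220 i2682 i1491 i1490 i751 a58 i482 i1499 (k8 a466 a350 a2579 a406 a5 i499 i1310 i483 (k8 a1002 i2984 a387 a342 a1833 a133 i1665 a1913 (k8 i3033 i458 a1917 a80 i1412 a856 i849 a2401 k0)))))) (by decide +kernel)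
def a2585 : PP 8 4 T 0x2100000000000000000000000000001400000000000000202200000000040000000 := rS 0x3494a1da11b8fe7d508cd7289168d527163a8c430020081441112b1dcaa4186ad5960c3892ce6fd (k8 a2582 a2583 i29 i1359 a2571 i2297 i1397 a65 (k8 i22 i1490 i751 i481 a58 i482 a1522 i959 (k8 a349 i220 i2682 i1499 a466 a19 a348 i2681 (k8 i2093 a2352 i1610 a1833 i1502 a2584 a2572 a403 (k4 i1231 a129 a377 a2355 k0))))) (by decide +kernel)
def a2586 : PP 8 4 T 0x2100000000000000000000000000001400000000000000202200000000000000000 := rS 0x9e5fb3587435ed1474a41f3c5a43d5381c3c9539abce2098690d8e877e92c66391ba246acf4e8a50a8108976251933c58ea20889dcaa6518860040120815925635830f679 (k8 a353 a418 a2571 i2298 i481 i504 a1522 i22 (k8 i959 a349 i220 i2682 i1491 i1490 i751 a58 (k8 i482 i1499 a466 a350 a2579 a406 a5 i483 (k8 a45 a1002 a2575 a399 a368 a348 i2093 a446 (k8 a401 i1610 i29 a2582 a387 a342 i41 a65 (k8 i1310 i1359 i499 a2583 a2354 a2585 i1302 i242 (k8 i1307 a1807 a1818 a1811 a2355 a419 a80 i1412 (k4 a129 i373 i730 i1452 (k2 i2046 a856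 k0))))))))) (by decide +kernel)
def a2587 : PP 8 4 T 0x12001000000000000000010000000000400040514000000000200000000042000040 := rS 0x38d25a02440938b444ac0c (k8 a2571 i481 a58 a466 a19 i482 i222 a2572 (k2 a1807 i727 (k1 a341 k0))) (by decide +kernel)
def a2588 : PP 8 4 T 0x12001000000000000000010000000000400040554000000080200000000002000040 := rS 0x7c60ad43d141008c86938b444ac0c (k8 a2571 i481 a58 a466 a19 i41 i1570 i482 (k4 a389 a2587 i1396 i2831 (k2 a1698 i1501 k0))) (by decide +kernel)
def a2589 : PP 8 4 T 0x2101000000000000000010000000004000000020040000002200010000000000040 := rS 0xa417a5684d256aac121f3132d465619a25527518860040120814400c (k8 a2571 i482 a1522 i22 i959 a349 i220 i2682 (k8 i1499 i2755 i2093 i1610 i481 i2984 i2297 i750 (k8 i1356 i1348 i537 i1352 a1807 a439 a476 a359 (k2 a1892 a129 k0)))) (by decide +kernel)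
def a2590 : PP 8 4 T 0x12001000000000000000010000000000400000554000000100200000000002000000 := rS 0x1380e7f2a8308253 (k8 a1816 i22 a2571 i1490 a1044 i479 a467 a2588 k0) (by decide +kernel)
def a2591 : PP 8 4 T 0x2100000000000000000000000000001400000000000000002200000000000000000 := rS 0x2a928b50eb48121f3ec30e26f3f9cc0e514999c6b163aaa462185c808ee0129814405520b2cb2438895818fd (k8 a2582 a2571 i481 a58 i41 i461 i2297 i22 (k8 i1490 i482 a1522 a1816 i959 i751 a349 a2352 (k8 i220 i2682 i2755 i1499 a466 a348 a350 a19 (k8 a2586 i479 a1880 a1044 i1009 a2589 a2590 a340 (k8 a81 i222 a1807 a341 i727 i2044 a476 a2360 k0))))) (by decide +kernel)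
def a2592 : PP 8 4 T 0x10002001000000000000000000040000001040000080000000000200440400000000100 := rS 0x72f16901d361d (k4 i718 i1179 i480 a1807 (k2 a1818 a2389 (k1 a419 k0))) (by decide +kernel)
def a2593 : PP 8 4 T 0x10002001000000000000100010000000005040000000055100200200440400000000000 := rS 0x32a92aa939abd5a090295482cb51958400c (k8 a2571 i482 i481 i2984 i2297 i22 i1490 a1522 (k8 i1310 i1314 i499 a2592 i496 a1042 i2040 a2479 (k1 i458 k0))) (by decide +kernel)
def a2594 : PP 8 4 T 0x2002001000000000000000010000000004400040514000000000200000000040000040 := rS 0x7568d23e824400c (k8 a2571 i482 i222 i1502 a1807 a1698 a341 i727 k0) (by decide +kernel)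
def a2595 : PP 8 4 T 0x12001000000000000000010000000004400040554000000080200000000000000040 := rS 0x7c60ad43d141008c1843 (k8 i41 a2571 i1570 i482 a389 a2594 i1396 i2831 (k2 a1698 i1501 k0)) (by decide +kernel)
def a2596 : PP 8 4 T 0x2001000000000000000000000000000000000020000000000200000000001800040 := rS 0x69824381f (k4 i1357 i709 i222 a341 (k1 a1807 k0)) (by decide +kernel)
def a2597 : PP 8 4 T 0x12001000000000000000010000000004400000550001000100200000000000000000 := rS 0x379380e7f2a8308253 (k8 a1816 i22 a2571 i1490 a1044 i479 a467 i1271 (k1 a2595 k0)) (by decide +kernel)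
def a2598 : PP 8 4 T 0x11002000000000000000000000080000500040000000000000000000000000000000000 := rS 0x12f45 (k2 a381 i1899 (k1 a422 k0)) (by decide +kernel)
def a2599 : PP 8 4 T 0x2100000000000000000000000000001400000000000000000200000000000000000 := rS 0x1cbc55e995550d28b54d87550d28a8255a1f379f61871399fc0e511bae5265d4f1845e758c9e4ef164eb3c328b0b19cc63b00194940324bf4a6c702880aa411190c9a6b65b24ac0c (k8 a2571 i481 i504 i2297 i2298 i2346 i41 i1570 (k8 i22 i1490 i482 a1522 a342 a1816 a2582 a2591 (k8 i221 a440 i1580 a349 a339 i2290 i2291 i478 (k8 i2292 i1038 a2062 a544 a352 i1627 a1478 a2579 (k8 i971 i2753 i2640 a1947 a2497 a19 a465 i997 (k8 a2593 i479 a1044 i1094 a2596 a2597 a340 a357 (k8 a81 i1581 i222 a2594 a1807 a438 a341 a457 (k8 i727 i2044 a121 a439 a1174 a2598 a1818 a2389 (k1 a419 k0))))))))) (by decide +kernel)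
def a2600 : PP 8 4 T 0x2002000000000000000000000000001400000080000000000200000000000000000 := rS 0x88a4bb128ca759e670f0ba2c310c0e4ea793d80890013b92c0a4d8899608a93faacac0c (k8 a2571 i481 a97 i1665 a450 a2599 a63 a58 (k8 i2346 a1522 i1093 i838 i477 a440 a349 a418 (k8 a353 i1010 a401 i220 i1002 a466 i1091 i1092 (k8 a350 a368 a399 a784 a406 a5 a54 i483 (k1 a2574 k0))))) (by decide +kernel)
def a2601 : PP 8 4 T 0x12202000000000000000000000000000400000050000000002200000000000000000 := rS 0x24ccf148b2e4de753b95483112b030ca61 (k8 a397 a63 a2571 i481 a58 i22 i1490 i751 (k8 i1010 i1008 a2352 a466 a389 a350 a19 a853 k0)) (by decide +kernel)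
def a2602 : PP 8 4 T 0x12202000000000000000000000000000400000050000000000200000000000000000 := rS 0xdf154a2e62c933a9dc66350b19cc6002500c92897288c864d6586c0b116495818655698552ab (k8 a97 a450 a397 a445 a63 a2571 i481 i504 (k8 a58 a1522 i268 i2297 i2346 i41 i1570 a392 (k8 a1013 a2601 i221 a440 a349 i488 i2291 i478 (k8 i1114 i1609 i1627 i971 a1020 a466 a465 i2040 (k2 a853 i2644 (k1 a389 k0)))))) (by decide +kernel)
def a2603 : PP 8 4 T 0x2000000000000000000000000000000000000020000000200200000000000000000 := rS 0x4066224814184f (k8 i31 a2571 a1522 i749 i1358 i221 i2290 a349 k0) (by decide +kernel)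
def a2604 : PP 8 4 T 0x2002000000000000000000000000001400000000000000200200000000000000000 := rS 0x39c121a71 (k4 a2603 a65 a2599 a2600 (k1 a2602 k0)) (by decide +kernel)
def a2605 : PP 8 4 T 0x2000000000000000000000000000001400000080000000200200000000000000000 := rS 0xdcba9e3cc65269d67c585e753ba2c2c671d98c004a01924c2b929b1c0a2321934d68788b24ac0c32c10e2fd (k8 a2604 a2603 a2599 a63 a2571 i481 i504 a58 (k8 a387 i2298 i2346 i41 i1570 a1522 a342 a1816 (k8 a171 i1017 a2583 i221 a440 a349 i488 a339 (k8 i2291 i478 i2292 i1627 i971 i2753 a466 a368 (k8 a399 a19 a784 a1382 a388 a2497 i997 a2593 k0))))) (by decide +kernel)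
def a2606 : PP 8 4 T 0x2000000000000000000000008000001400000000000000202200000000000000000 := rS 0xcd4faf68a3e691f80f435fb1d0ea310025fa95869cce28508abcbb128cb3cce9d8b1d4cb112b1dcaa0c20c10f679 (k8 a353 a418 a2599 i22 a2571 i1490 i751 i481 (k8 a58 a63 i1010 a466 a399 a350 a368 a784 (k8 a406 a5 i499 i483 a545 a2603 a2605 a65 (k8 a2354 a2604 i1310 i482 i2984 a387 a342 a367 (k8 a106 i458 i498 a1807 a1917 a80 i1412 a856 (k2 i849 i2046 k0)))))) (by decide +kernel)
def a2607 : PP 8 4 T 0x2200000000000000500010004000014000000054040000200000000000000000000 := rS 0x18a286132ab61aa9 (k8 i496 a65 a445 a63 i1311 a389 i2040 a51 k0) (by decide +kernel)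
def a2608 : PP 8 4 T 0x2000000000000000000000000000001400000000000000202200000000000000000 := rS 0x50cfaa460b480e60371fd562d4999c6a310c459723301254ea7700880ab1164958cb04049056acb7ea24e61b02830e30d (k8 a65 a2603 a2571 a1522 i268 a2605 a1013 a2604 (k8 i2297 i1397 i22 i1310 a2599 a63 i481 i504 (k8 a58 i1490 i482 i959 i751 i1010 a2354 a349 (k8 i1610 a2352 a466 i220 i1002 a348 a350 a19 (k8 i2681 a2606 i1665 a2607 i1008 i1223 a1807 a44 (k4 a2353 i1501 a129 a403 k0)))))) (by decide +kernel)
def a2609 : PP 8 4 T 0x2000000000000000000000000000001400000000000000200200000000000000000 := rS 0x6c9e5ca759e5d8b1e4ea778ca55329749a2c2c671d98c00612500c922f549cdfa7186a0d42c70288c864d35c459256061955b04 (k8 a2599 a445 a63 a2571 i481 i504 a58 i2298 (k8 i2346 i41 i1570 a1522 a342 a1833 a374 a65 (k8 a2603 a2604 a2605 i496 a183 a2608 i221 a440 (k8 i1312 a349 i488 a339 i2291 i478 i2292 a1109 (k8 a989 a837 a1042 a2504 i1627 i971 a1448 a466 (k4 a2497 a368 a399 a465 (k2 a388 a2593 (k1 i997 k0)))))))) (by decide +kernel)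
def a2610 : PP 8 4 T 0x2002000000000000000000000000001400000000000000002200000000000000000 := rS 0x11989a759e6786458e2753b9e4f65520c44ac0c32c109e73 (k8 a2600 a74 a2599 a63 a2571 i481 a58 i22 (k8 i1490 a418 a353 i751 i1010 i749 a466 a2602 (k4 a350 a368 a399 a2220 (k2 a784 a406 k0)))) (by decide +kernel)
def a2611 : PP 8 4 T 0x2002000000000000000000000000001400000000000000000200000000000000000 := rS 0x3dc4e18813e9be865d4a4553c798cae5269d67a162cc53a9dc328b0b19cc6002500c927355aa4c2051008c864d35b2d0f11649955b043f944ac0c (k8 a2571 i481 a2609 i1666 a2599 a445 a63 i504 (k8 a58 a387 i2297 i2298 i2346 i41 i1570 i482 (k8 a1522 a397 a450 a97 a2600 a2610 i221 a440 (k8 a349 i487 i2291 i478 i2292 i1038 i1627 i971 (k8 a2432 a466 i1503 a368 a399 a19 a465 a784 (k8 a1382 a388 a853 i2040 a2497 a121 i2644 i1598 (k4 a535 a2581 a2220 a2261 (k1 a2262 k0)))))))) (by decide +kernel)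
def a2612 : PP 8 4 T 0x2001000000000000000000000000000000000080000000100200000000000000000 := rS 0x82c4800aa09643298149a0c (k8 a2571 i2346 a1522 a1816 i41 i1094 a1880 i477 (k4 a440 a1061 a349 i999 k0)) (by decide +kernel)
def a2613 : PP 8 4 T 0x12000000000000000000000000000001400000000000000002200000000000000000 := rS 0x14a95a12d5822f0eb48126238080fe7d29ab4e6fd378cd72890c0c45a02008140e511aa4e2c7532c1222563b9541841 (k8 i22 a2571 i1490 i751 i481 a58 a2599 a63 (k8 i1010 a466 a19 a348 a2609 i479 a1522 i959 (k8 a349 i1001 i1002 i220 i2093 a2352 i1610 i1009 (k8 a2611 a2612 a445 a1816 a1110 i1666 i482 a2590 (k8 i750 i1348 a1807 a341 a359 a44 i727 a403 (k2 a121 a129 (k1 a2282 k0))))))) (by decide +kernel)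
def a2614 : PP 8 4 T 0x10002000000000000000000004000400000000500000000000000201540010050400000 := rS 0x3e7809c56a1 (k4 a1833 a371 a1276 a419 (k2 i2031 a6 k0)) (by decide +kernel)
def a2615 : PP 8 4 T 0x2000000000000000000000000000001400000000000000002200000000000000000 := rS 0xc5a7a799ac3788e87a1d690243f0c418a5031242c653acf338d462171b8e62c023a9dc02793d90d8ee502880aa4143c44ac0c32c116e5353bf40e51 (k8 a2609 i479 a2611 a1825 a1816 a577 a2599 a63 (k8 a2571 i481 a58 a387 i22 i1490 i482 a1522 (k8 a392 a342 i41 a418 a353 i959 i751 i1010 (k8 a349 a466 a401 a446 i999 i1002 a348 a350 (k8 a368 a399 a784 a545 a406 a45 a54 a68 (k8 a2613 a81 i222 a1807 a341 a335 a2614 a355 (k4 i373 i730 i2046 a26 (k2 i1525 a379 k0)))))))) (by decide +kernel)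
def a2616 : PP 8 4 T 0x2200000000000004140000000001400000000000040000000008000000000000002 := rS 0xe5e23b (k4 a339 a6 i297 a235 k0) (by decide +kernel)
def a2617 : PP 8 4 T 0x2000000000000000000000000000001400000000000000000200000000000000000 := rS 0x144484e7b4c2b87e835aa6c7a1d5434a2a090887d026f1bd3cbb0c4f1e632b949a759e858b1c58a613a9dc328b0b19c766300128064939a9d6efd3f81ca265820ad425363814402321934d68788b24ac0c (k8 a2571 i481 i504 a58 a387 i2298 i2346 i41 (k8 i1570 i482 a1522 a342 a1816 a1833 a371 a2599 (k8 a63 a2609 i479 i1666 a2611 a577 a1825 a2612 (k8 a2615 i221 a440 a349 i487 a339 i2291 i478 (k8 i2292 i1038 i1627 i971 i2640 a2432 a2596 a466 (k8 i1503 a368 a399 a19 a465 a784 a1382 a388 (k8 a2597 a2497 a26 i997 a357 a4 a81 i483 (k8 i222 a2594 a1807 a438 a341 a335 a457 i727 (k8 a197 a2616 a1917 a2598 i1941 a135 a2262 i2031 (k1 a54 k0)))))))))) (by decide +kernel)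
def a2618 : PP 8 4 T 0x2002000000000000000000000000000400000000000000200200000000000000000 := rS 0xa71e81d361e390fd6b0d4190d96c95c8444e3a14194ce938b1d46218010040a20889dc12af37984e24f2412d204d3faacac0c (k8 a2571 i481 a97 i1665 i2346 a2617 a102 a440 (k8 a74 i749 a397 i1008 a427 a369 i1628 a58 (k8 i482 a1522 i477 a349 i220 i2682 i1499 a466 (k8 a19 a350 i1491 i1169 i1168 a700 i484 a2352 (k8 i504 i2297 i41 a374 a65 i1397 i257 a2576 (k4 a2572 i2805 i1302 i1308 (k2 i335 a1811 k0))))))) (by decide +kernel)
def a2619 : PP 8 4 T 0x2000000000000000000000040000100000000080000000000000800024002010140 := rS 0x14e3d1fa6c3c83 (k4 i924 i1092 i2805 i257 (k2 i1308 i335 (k1 a1811 k0))) (by decide +kernel)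
def a2620 : PP 8 4 T 0x2002000000000000000000000000000400000000000000000200000000000000000 := rS 0x26928a65a8fc7a1f409f6187303944fe7137aac9eaf3082596c9618941eb90889c74284c9953e8789b34ce938b1d46218010040a4826882227725a40ac0c (k8 a2571 i481 a2617 a102 i1628 a58 i482 i2346 (k8 a440 a1522 i477 a349 i220 i2682 i1499 a466 (k8 a19 a350 i892 a112 a387 a680 i1491 i2769 (k8 i1169 i1168 a700 i484 a2352 i108 i346 a1034 (k8 i504 i2297 a369 a397 a427 a74 a97 i1008 (k8 i749 i1665 a2618 i479 a2619 a2576 a340 a4 (k8 a81 i1839 i256 a864 a1811 i2044 i335 i1181 k0))))))) (by decide +kernel)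
def a2621 : PP 8 4 T 0x2000000000000000000000000000000400000000000000200200000000000000000 := rS 0x6330aad2a2f031cce2ad86a84aa4165b257211138b552283299d27163a8c4300200814904d10444ee4b4815818fd (k8 a2620 a2571 i481 a2617 a102 i1628 a58 i482 (k8 i2346 a440 a1522 i477 a349 i220 i2682 i1499 (k8 a466 a19 a350 i1491 i1169 i2755 i2681 a700 (k8 i484 a2352 i504 i2297 i22 i1490 a1833 a65 (k8 i1314 a2603 a2583 a2566 a183 a2354 i2294 i1223 (k2 a492 i2040 k0)))))) (by decide +kernel)
def a2622 : PP 8 4 T 0x12000000000000000000000000000000400000000000000000200000000000000000 := rS 0x7eaf048f52c62409c09cb93bc44ac890889c50993a8c4406f39aa4300200814904b4813418535381ca2fd (k8 a2620 a2621 i479 a1825 a1816 a2571 i2346 a2617 (k8 a102 a440 a1522 i477 a349 i220 i2755 a1880 (k8 i1009 i482 i2682 i1499 i2769 i1169 a700 i484 (k8 i2093 i481 a58 i1628 a2352 a467 a2590 a124 (k4 i750 i917 i1839 i1348 (k2 i540 i1371 (k1 a1811 k0))))))) (by decide +kernel)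
def a2623 : PP 8 4 T 0x2000000000000000000000000000000400000000000000000200000000000000000 := rS 0x1c52a97a2ab96a3f048f43e813ec314e73379fc0e517ea4e2c7532a6450a91884430b9138098677240059b1325c652053028809a2507c44ac0c (k8 a2571 i481 a58 i108 i346 i2346 i482 a1522 (k8 a1816 a2617 a25 a102 a112 i892 i477 a440 (k8 i1628 a1034 a349 a700 a2352 i220 i484 i2682 (k8 i2755 i1169 i2769 i1491 i1499 a466 a19 a2620 (k8 a2621 i479 i1666 i1009 a1880 a1825 a2622 a340 (k8 a4 a81 i1839 i222 i256 a864 a1811 a381 (k4 i1900 a2456 i917 i2044 k0))))))) (by decide +kernel)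
def a2624 : PP 8 4 T 0x2000000000000000000000000000000000000000000000000200000000000000000 := rS 0x12c06160c8d11c23100141843 (k8 i41 a2571 a1522 i482 i1570 a2623 i726 i1131 (k4 i725 i220 i2775 a349 (k1 i477 k0))) (by decide +kernel)
def a2625 : PP 8 4 T 0x20002002000000000005000400000001001401000500004000202000000000000000000 := rS 0x81a2a1930974f9855ea93d9e5070d (k8 a65 a374 a353 a418 a450 a427 a397 a33 (k4 a71 a260 i2046 a433 (k2 i1863 a982 k0))) (by decide +kernel)
def a2626 : PP 8 4 T 0x10202000000000000005014000000001001401000500000000002000005000000400000 := rS 0x9e1b21c57123c894423b0d064f645 (k8 a2624 a418 i1007 a437 i395 i2504 a423 a353 (k4 a406 a8 a69 a2278 (k2 i2046 i996 k0))) (by decide +kernel)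
def a2627 : PP 8 4 T 0x202102000000000004000000000001005400000580020000002000004000000404040 := rS 0xf4229745c6062e462b0d82a35291c1a8850010061a268650acd2b9644a45 (k8 a2624 a423 i868 i1579 a2010 a1949 i1007 i30 (k8 a437 i189 i748 i834 i835 i1492 i264 i363 (k8 i280 i1344 a276 a277 a425 a459 a2626 a52 (k4 a71 i523 i1346 a2092 k0)))) (by decide +kernel)
def a2628 : PP 8 4 T 0x20002002000000000005015000000001001401010500004000202000002000000000040 := rS 0xd3088fde0b689a05474fa2b1d0cbe4f8255e7b3ca0e1ae5 (k8 a459 a65 a374 a353 a418 a427 a369 a33 (k8 a2625 i2046 i1691 a18 a60 i3031 i1338 a69 (k4 a462 a379 a6 a441 (k2 a1917 a2168 k0)))) (by decide +kernel)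
def a2629 : PP 8 4 T 0x202000000000000000001000000110000000040000000000200000000000140000040 := rS 0x1a425 (k2 a423 a1685 (k1 a2218 k0)) (by decide +kernel)
def a2630 : PP 8 4 T 0x2002000000000000000000000028400040000000004000000000080000000800000 := rS 0x4ca5c588930abd521b (k8 i66 a450 a427 a397 i278 i822 i1778 i2657 (k1 a336 k0)) (by decide +kernel)
def a2631 : PP 8 4 T 0x202102000000000004000000000001005400000580020000202000004000000000040 := rS 0x994bafc7a7e6928516361cb193c878cb058ac310a946046318340003158581e2530abd527b3ca6c52270f8250acd3e9655a232b9008645 (k8 a2624 i439 a386 i1579 i185 a420 i868 a1978 (k8 a2010 a1949 a369 i182 a331 a443 i1179 a353 (k8 a418 a450 a427 a397 a423 i338 a2627 i898 (k8 i999 i740 i1492 i447 i963 i962 a2241 i744 (k8 a276 a277 i1534 a2628 a1001 i2046 i2032 i298 (k8 i1692 i452 a2630 a1685 a2629 a335 i1723 i1777 (k2 i1113 a336 k0))))))) (by decide +kernel)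
def a2632 : PP 8 4 T 0x2002000000000000001000000408000000000000000000000004400000000008040 := rS 0xf422c204abd8af1 (k8 a2041 i1526 a427 a369 a1888 i602 i1959 a1811 k0) (by decide +kernel)
def a2633 : PP 8 4 T 0x10112102000000000005001001000021001421010500000000002000004014400401040 := rS 0x6ec618b0c4a0f53a658a9e1fa1c57123c884767b020683245 (k8 a2624 i1007 a437 i748 a418 i395 i2504 a353 (k8 a406 a8 a69 i402 i2046 i1526 a2302 i283 (k4 a2632 a1086 a276 a1332 (k2 i2032 i996 (k1 a1190 k0))))) (by decide +kernel)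
def a2634 : PP 8 4 T 0x2102000000000004000000000001005400000580020000202000004000000400040 := rS 0xe52af902c3a28f9e2c5a78f422a74325d16394fc6182a32383510a002084061a57aac9a7b3c865070d5a8a44e1f04a159a7d2cab446572010e2245 (k8 a2624 a2631 i439 a386 i1579 i185 a420 i868 (k8 a1978 a2010 a1949 a369 i182 a331 a443 i884 (k8 a65 a374 i1007 a353 a418 i30 a97 a427 (k8 a437 i189 i2504 i748 i834 i835 i1492 i264 (k8 i280 i1344 a2633 a33 a42 a52 a71 i2046 (k8 i282 i523 i1346 a20 i1523 a2041 a1811 a80 (k4 i2225 i1332 a982 i1452 (k2 a1700 a1878 k0)))))))) (by decide +kernel)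
def a2635 : PP 8 4 T 0x2102000000000004000000000001005400000580020000202000004000000000040 := rS 0x1ca21180344a000185a22232b9008645 (k8 a2624 i439 a386 i1579 i185 a2631 a2634 i999 (k4 i740 i860 i1492 i962 (k2 i744 a459 (k1 a107 k0)))) (by decide +kernel)
def a2636 : PP 8 4 T 0x20002002000000000005000000000021005421400580000000002000008000000000060 := rS 0x286953f28d6c3e5d8f422a74325d16394f8255e7b3cc557317 (k8 a360 a171 a417 a353 a418 a427 a369 a33 (k8 a42 a52 a71 i2046 i282 i523 i1346 i1684 (k4 a1811 i403 i407 i856 (k2 i1671 a133 (k1 a447 k0))))) (by decide +kernel)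
def a2637 : PP 8 4 T 0x2102000000000004000000000001005400000580020000202000000000000000040 := rS 0xf422a71c3193c3f438ae251916a2140170d00442c36289408311908d9a852b8255e7b3c9650629139008645 (k8 a2624 i439 a386 a331 a443 a374 i868 a353 (k8 a418 a427 a369 i1579 a1949 a2010 i185 a2635 (k8 i16 i1546 i287 i1615 i291 i1611 i962 i260 (k8 i740 i834 i835 i976 a2636 a406 a8 a69 (k8 i402 i2046 i2032 i1712 i2166 i1874 i1878 a1811 k0))))) (by decide +kernel)
def a2638 : PP 8 4 T 0x202102000000000000001000000020001420000500050000002020000000000400040 := rS 0x53c7a113525d171818b29c8c561a941e2566a1412af67a741a470206832a319c599245 (k8 a2624 i1124 a352 a360 i280 i1007 a437 i748 (k8 i264 i521 a544 a2062 a427 a369 a361 a380 (k8 a423 i338 i363 a276 a277 a425 a2108 a459 (k8 a2626 a52 a71 a2579 i523 i1346 a394 a1699 k0)))) (by decide +kernel)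
def a2639 : PP 8 4 T 0x20002102000000000000101000000020000020000000050000000000000000000000060 := rS 0x2941ec31f3c58b4f1e8454e6a4ba2c720957ab5560d23a8c6716 (k8 a352 a360 i280 i264 i521 a97 a420 a427 (k8 a369 a42 a52 a71 a2579 i282 i523 i1346 (k8 a394 i1789 a2041 a1811 i2225 a1421 a2241 a1700 k0))) (by decide +kernel)
def a2640 : PP 8 4 T 0x2002000000000000001000000040000000020000000010000420000000000001040 := rS 0x38aaa565ab43e09 (k8 a369 i182 a420 i1328 i1325 i1541 a2108 i339 k0) (by decide +kernel)
def a2641 : PP 8 4 T 0x12102000000000000000000000000005400000580050000002020000000000400040 := rS 0x14acb07958aacc3ea16331160a8c8e0d11a2140040d0255aab3c96432b51489d9e9d19c599245 (k8 a2624 i1124 a352 a360 a544 a2062 a331 a443 (k8 i884 i1007 i868 a353 a97 a420 a369 a437 (k8 i748 i834 i835 i273 i521 i264 i280 i1344 (k8 a2638 a2639 a1002 a2640 a2633 a330 a2010 i339 (k2 i506 a2241 (k1 a1834 k0)))))) (by decide +kernel)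
def a2642 : PP 8 4 T 0x20002102000000000000100010000000004000000000054000000000000000000000000 := rS 0x17f434a32d7b455dd3d306a4ba7cc2af54ab556cf (k8 a2062 a97 a420 a450 a427 a397 a33 a71 (k8 a2579 a260 a394 i1946 a433 i1990 a1579 i2040 (k2 a121 i1725 (k1 a404 k0)))) (by decide +kernel)
def a2643 : PP 8 4 T 0x2100000000000000000000000000000000000000010000000000002000000005000 := rS 0x8ee5 (k2 a459 i1531 (k1 a425 k0)) (by decide +kernel)
def a2644 : PP 8 4 T 0x10202100000000000000014000000000001404000100040000002020405041100000000 := rS 0x6c9e6333446c91489d0a79 (k8 a353 a1002 a331 a443 i1124 a9 a380 i2032 (k2 a2401 a1190 (k1 i996 k0))) (by decide +kernel)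
def a2645 : PP 8 4 T 0x112002000000000000100011000000004000000100054000000020000000800000000 := rS 0x3ed0d28cb3f958c2a956aac3e09 (k8 a369 i182 a97 a420 a450 a397 i185 i1664 (k4 i506 i2040 a121 i1597 (k1 a403 k0))) (by decide +kernel)
def a2646 : PP 8 4 T 0x10002100000000000001014000000000001404000100040000002020405041500000000 := rS 0x1bb193cc91489d0a79 (k8 a353 a1002 a331 a443 i1124 a2401 i2032 i996 (k1 a1190 k0)) (by decide +kernel)
def a2647 : PP 8 4 T 0x12102000000000000000000000000005404000180054000002020400441000005040 := rS 0x2d512508ecb2b33182e411c4462c561a94420930aa55aab2cc556a338b46572c9 (k8 i1124 a171 a2642 a352 a360 i884 a417 i868 (k8 a97 a420 a450 a397 a369 i744 a2241 a276 (k8 a277 a2643 a2644 a2645 a107 a408 a2646 a2010 (k4 i506 i1577 i2040 a2108 (k2 i978 a1695 k0))))) (by decide +kernel)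
def a2648 : PP 8 4 T 0x10002100001000000001040000000410021404000180040000002000400014054000000 := rS 0x17b455fad932381baee9e9e64a6d0a81891ecf343 (k8 a121 a353 a418 a406 a45 a1002 i1179 i1124 (k8 a2401 a26 i1686 i997 a419 i1936 a245 i1726 (k2 a116 i1988 (k1 a404 k0)))) (by decide +kernel)
def a2649 : PP 8 4 T 0x2102000000000000000000000000005400000580040000202000000000000000040 := rS 0x2188b31e2a7692845a9465a8c46e5638310f190798c762f12800561b0b1953acf30aa55aab3cb261a1d5c8a44e1f2010c1245 (k8 a2624 a369 i439 a386 i182 a331 a443 a171 (k8 i1230 a65 i1124 a353 a97 a420 a450 a397 (k8 a2062 a544 a2637 a2641 i66 i898 i740 i860 (k8 i1080 i1155 i447 i597 a2642 a1001 a2647 a342 (k8 a392 i1570 i1647 i465 i2040 i979 i822 a1685 (k4 a67 a2041 a2648 a380 (k2 i2499 a107 k0))))))) (by decide +kernel)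
def a2650 : PP 8 4 T 0x2002000000000000400040000000044040000080040000002400100001008004040 := rS 0xa21f0f54ec1528441a885001012af (k8 a427 a369 i748 i834 i835 i521 i523 i363 (k4 i1344 i282 i1346 a1811 (k2 a2108 i407 k0))) (by decide +kernel)
def a2651 : PP 8 4 T 0x20002202000000000000000000000000005400000580040000002020000000000000040 := rS 0x2f528a66198de035000ac2c1b8989620bb42c5d9c974ea2c729f30aa55aab0cb25722913b2c1e6523884aa45 (k8 a2624 a72 i743 a451 a63 a17 a385 a331 (k8 a443 a171 i1124 i1007 a97 a420 a450 a397 (k8 a33 a42 a52 a347 a71 a784 a192 i1871 (k8 i1951 a466 a423 a205 a2650 a437 i898 i740 (k8 i1116 a127 i447 a1367 a2041 i2040 i1984 i1105 k0))))) (by decide +kernel)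
def a2652 : PP 8 4 T 0x902002000000000000400001000000004001000080040011002400004004008004040 := rS 0x1e345538f56cbb62b30ae7e5228d823f6983510a002025562b (k8 a8 a97 a369 i748 i834 i835 i521 a344 (k8 i402 i1344 i280 a2108 i364 i1665 a143 i1791 (k4 i1949 i848 i1386 i368 (k2 a116 a2041 (k1 a442 k0))))) (by decide +kernel)
def a2653 : PP 8 4 T 0x2002000000000000000000000000005400000580040000202000000000000000040 := rS 0x440b544d318b041a9452b90c62f128002c1b19c5a22858946442232a91cca0f65c10126154ab5567b3c96432c90ec5572b5139008645 (k8 a2624 i439 a386 a331 i884 a171 a417 i1230 (k8 i1124 i1007 i868 a353 a418 a97 a420 a450 (k8 a397 a369 a2649 a385 a17 a63 a451 a72 (k8 i184 i743 a2651 a406 a1002 a205 a466 a360 (k8 a2652 a437 i740 i860 i1080 i447 a107 a164 (k8 i2040 a392 a408 a459 a1719 a2108 i978 a120 (k1 i280 k0))))))) (by decide +kernel)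
def a2654 : PP 8 4 T 0x2002000000000000410000000000048040000080040000002400100001008004040 := rS 0x1f3007aa751a94220d440bc6a0404abce24f (k8 a74 i749 a427 a369 i748 i356 i318 i835 (k8 i521 i523 i1365 i1634 i282 i1346 a2108 a1811 (k1 i1426 k0))) (by decide +kernel)
def a2655 : PP 8 4 T 0x2002000000000000000000000000001400000580040000202000000000000000040 := rS 0x16a25a698530446e3f31bc05e001585836c56725d3a8b1cc608e0f89896091032b2e2e92138a48043049855ea9569ecf219648762a45 (k8 a2624 a417 i1230 i1124 i1007 a353 a418 a420 (k8 a450 a427 a397 a369 i439 a386 a443 a331 (k8 a2653 a19 i1367 i1549 a466 a352 a423 a205 (k8 a17 a451 a406 a42 a52 a347 a71 a784 (k8 a807 a2654 a437 i898 i740 i1080 a127 i447 (k8 a6 a376 a441 a2041 a260 a1917 i282 i980 (k1 a120 k0))))))) (by decide +kernel)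
def a2656 : PP 8 4 T 0x20002000000000000000000000000000000000000080000000202000000000000000081 := rS 0xb1003643449343245 (k8 a2624 i1007 i30 i1341 a914 i835 a386 a437 (k1 i740 k0)) (by decide +kernel)
def a2657 : PP 8 4 T 0x20002102000000000000000000000000404400000580040000202000000000000000080 := rS 0x29ef15f31dcac561b350a3640d1460462ba60c86316225401f0d85880050025d3e0957aa496792c9bcc30d0ec5572d367a759245 (k8 a2624 i1124 a544 a2062 a402 a171 a417 i1230 (k8 a65 a397 i1008 i868 a353 i29 a450 a427 (k8 a369 a33 a71 a2656 i2 i959 i958 i748 (k8 i182 a377 i278 i822 i448 a2642 a260 i1579 (k8 i963 i962 a433 i1863 i980 a1949 a2010 a354 (k4 a366 a459 i1691 a1891 (k2 a376 a60 (k1 a379 k0)))))))) (by decide +kernel)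
def a2658 : PP 8 4 T 0x2000000000000000000000000000000000000080000000202000000000000000081 := rS 0x2c210bc82160da249a190ec55a645 (k8 a2624 a402 a417 i1230 i1007 i30 i1341 i835 (k4 a437 i740 i1080 a386 (k2 a120 a497 k0))) (by decide +kernel)
def a2659 : PP 8 4 T 0x10002102000000000000000000000020401400000100060000002000000000000000002 := rS 0x8b1b0e58c9e10b158623668cc8c572cb2476430189c80250b18d121b02a14562943c48f679 (k8 a353 a418 a406 a69 a54 a8 a1002 i2 (k8 i748 i278 i448 i958 i860 i959 a331 i23 (k8 i700 a339 i1124 i868 i1579 i963 i1546 a2010 (k8 i185 a354 a366 i1530 a2401 i2032 i298 a1190 (k2 i452 a2630 k0))))) (by decide +kernel)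
def a2660 : PP 8 4 T 0x10202100000000000000000000000000001400000100050000002020400001000005000 := rS 0xc58621158ce2cc54f335928543c48f679 (k8 a353 a418 a406 a69 a1002 i1124 a380 a2401 (k8 i1526 a352 a360 a8 i744 a276 a2643 a2644 k0)) (by decide +kernel)
def a2661 : PP 8 4 T 0x2002000000000000100010000100004000000000054000000000000200000002000 := rS 0x25596a330aa55aab (k8 a97 a420 a450 a397 i1647 i466 i979 i2040 k0) (by decide +kernel)
def a2662 : PP 8 4 T 0x2102000000000000000000000000005400000580040000202000000000000000000 := rS 0x57663284695888c58ac310834671632a1c57128c98552ad559ecf2595ca6d6a3b07b2458a512858c6895007c800969c343a1b028000c45 (k8 a2624 a2655 a2658 i2 i748 i1230 a65 a402 (k8 a369 i959 i182 a377 i278 i448 i958 i860 (k8 i363 i822 i1124 i597 a339 i884 i1179 a171 (k8 i868 a353 a418 a97 a420 a450 a397 a2657 (k8 a406 a8 a69 a2659 a352 a360 a2661 i744 (k8 a276 a277 a2643 a2660 i978 a2645 i2040 a2646 (k2 i506 a2010 k0))))))) (by decide +kernel)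
def a2663 : PP 8 4 T 0x2102000000000000000000000000001400000580040000202000000000000000000 := rS 0x8e32602495ac9162803e4004b4e1a1d0b0000c45 (k8 a2624 a2655 a2658 i958 i1230 a65 a402 a369 (k8 i959 i182 a377 i822 i1124 a420 a2662 i1241 (k2 i1242 i1533 (k1 a1574 k0)))) (by decide +kernel)
def a2664 : PP 8 4 T 0x2200000000000000000000000000021000000000040000002000000201500000000 := rS 0x9d8c44e20e51833cf679 (k8 a353 a418 i2654 i978 a459 a107 a205 a406 (k2 a347 a784 k0)) (by decide +kernel)
def a2665 : PP 8 4 T 0x2002000000000000000000000000001400000580040000202000000000000000000 := rS 0x3098a8b7844d0a0d880ca2e924a8844655239959704158a4c62c44a804a1f1386c2c35079000a0069818126154ab556c9868757245 (k8 a2624 a171 i1230 a65 i1124 a97 a420 a450 (k8 a397 a369 a2655 a402 a2658 i2 i959 i597 (k8 i1114 i958 i748 a331 i182 i860 a377 i278 (k8 i822 i448 a443 i898 a2663 a385 a63 a451 (k8 a72 i184 i743 a2664 i2040 a19 i1242 a466 (k8 i1609 a361 a205 a127 a175 a1043 a199 a1367 k0)))))) (by decide +kernel)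
def a2666 : PP 8 4 T 0x2002000000000000000000000000004000000080080000002000000000000404040 := rS 0x1843e78a9d3a3d62d3e8abe358c1cac706305a6474428008031686812af56934329f65a8d76a55ed0a2f154aaad7245 (k8 a2624 a171 a97 i1673 a417 a350 a447 a338 (k8 a129 a86 a395 i546 a414 i1007 i30 a420 (k8 a427 a369 a437 i976 i189 i748 i834 i835 (k8 i1618 a344 i1344 a2108 a342 a392 i522 i2341 (k8 a391 a18 a60 i1527 i1259 i1646 a2123 a2041 (k2 a442 a379 (k1 i2225 k0))))))) (by decide +kernel)
def a2667 : PP 8 4 T 0x202002000000000000000000000000404400000080080001202000000000000000040 := rS 0xf1618d87298162252ec5a7d1540be60b958e31358c81863028d4001b0b0841e1f2010c126157aa55a9f65aed4abd3fd0a2f154aaad7245 (k8 a2624 a171 a97 i1673 a417 a350 a447 a133 (k8 a338 a129 a86 i546 a414 a420 a450 a427 (k8 a397 a369 i439 a386 i182 i339 i743 a2666 (k8 i66 i740 i1116 i260 i447 i449 i450 i2264 (k8 i1506 a342 a392 i1613 a391 a2629 a18 a60 (k8 i1527 i1378 i278 i822 a162 i1937 i980 a1105 (k2 a376 a379 k0))))))) (by decide +kernel)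
def a2668 : PP 8 4 T 0x202002000000000000000000000000404400000080080001202000000000000000000 := rS 0xf1618d87298318b1129762d3e8aa05f3043ee5638c4366b0b0c86a400601400d3032f57742049855ea956b261a1d8ac5d3e9555b2d7245 (k8 a2624 a171 i546 a97 i1673 a414 a350 a417 (k8 i1230 a65 i1124 a420 a450 a427 a397 a369 (k8 a447 a86 a338 a2667 a402 a2658 i2 i449 (k8 i959 i1114 i450 i958 i2264 i748 i1506 a342 (k8 a392 i182 i1613 a391 a377 a18 a60 i1527 (k8 i1378 i278 i822 i448 a162 i1937 i980 a1105 (k2 a376 a379 k0))))))) (by decide +kernel)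
def a2669 : PP 8 4 T 0x2102000000000000400000000140000020000000010000000400000000000005040 := rS 0x3006209 (k4 a369 a2643 a2108 i1345 k0) (by decide +kernel)
def a2670 : PP 8 4 T 0x2000000000000001000008040000000001040000400015000000000000000000000 := rS 0x10e5d (k2 i1930 i856 (k1 a460 k0)) (by decide +kernel)
def a2671 : PP 8 4 T 0x20002002000000000000000000000000000020000000000000000004000000000000060 := rS 0x1e8454e97458e412af (k8 a427 a369 a42 a52 a71 i282 i523 i1346 (k1 a1811 k0)) (by decide +kernel)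
def a2672 : PP 8 4 T 0x2102000000000001000000000000009001040080080015002000000001008004040 := rS 0x10e5d894647eb73583146a523a21402f1a81006af269ecf2712799596b9 (k8 a171 i546 i38 a74 i749 a353 a418 i30 (k8 a427 i189 i748 i356 i318 i834 i835 i1618 (k8 i1365 i1634 a2669 i2341 a2670 i403 a2671 a406 (k2 a5 a69 (k1 a460 k0))))) (by decide +kernel)
def a2673 : PP 8 4 T 0x2000000000000000000001000140000020050000000000000000001001554000000 := rS 0x182a1 (k2 i278 i1345 (k1 i2030 k0)) (by decide +kernel)
def a2674 : PP 8 4 T 0x2000000000000000000001000150000000050080000000000000008001550000000 := rS 0x1802d (k2 i977 i2030 (k1 i1614 k0)) (by decide +kernel)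
def a2675 : PP 8 4 T 0x2102000000000001000000000000009401050080080005202000000001400000040 := rS 0x21cbb1240d157cbb602f458a05ba8d4a6b190bc6a000b06c420f0f900860957ab556590ca0e1a1d5ab2d7245 (k8 a2624 a171 i546 i884 i1230 a65 a374 i1007 (k8 i868 a97 a420 a427 a369 i439 a386 i182 (k8 i339 i743 a2672 a437 i740 i1116 i1080 i450 (k8 i2264 i1365 i1634 a2670 a2674 i822 i2829 i1241 (k8 i2968 a391 a18 i1338 a462 a5 a69 a460 k0))))) (by decide +kernel)
def a2676 : PP 8 4 T 0x2002000000000001000001000000008001050080080015202000000001400000080 := rS 0x10e5d892068abe5db017a2c44adc421f518c4366b178c8800c02a9400d304abd52ad55a0e1a1d8ab2d7245 (k8 a2624 a171 i546 a417 i1230 a65 a374 a97 (k8 a420 a450 a427 a369 a402 a2658 i1379 i2 (k8 i449 i959 i450 i1077 i2264 i748 i1506 i1647 (k8 i182 i743 a2670 a2673 a120 i2829 i1241 i2968 (k4 a391 a18 i1338 a462 (k2 a5 a69 (k1 a460 k0))))))) (by decide +kernel)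
def a2677 : PP 8 4 T 0x20002002000000000000000004000000000000000080000000002000000000008000040 := rS 0x1fa214004 (k4 i748 i834 i835 i403 (k1 a2671 k0)) (by decide +kernel)
def a2678 : PP 8 4 T 0x2002000000000000000000000000001400000580000000202000000000000000000 := rS 0xb5a6894c0446ea35298c7ef0188bc6a00158142c1b4bc616e210f89c5313359020843039fd247d2b894468588334ab1733024c2af549ecf2590ca0e1a1d8aa6d6a45 (k8 a2624 i884 i1179 a417 i1230 a65 a374 i1007 (k8 i868 a353 a418 a450 a427 a397 a369 a2665 (k8 a350 i1619 a1006 a466 a361 a9 a423 a58 (k8 a73 a2668 i1637 a2676 i439 a2675 a386 a464 (k8 a205 a443 a331 i182 i743 a2670 a406 a71 (k8 a2677 a437 i260 i898 i740 i1116 i1080 i1506 (k8 a127 a1022 i447 i1365 i1634 a376 a441 a260 (k4 a2673 a1917 i980 a120 k0)))))))) (by decide +kernel)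
def a2679 : PP 8 4 T 0x2002000000000000000001000000000000000280000000202000000000000000000 := rS 0xa36091c1a8817810061a5285c3e40218cc0ecb07991287c00958124d0c9c49e45 (k8 a2624 a74 i749 i1007 i30 a369 i1011 i2629 (k8 i1096 i1095 i1010 i501 i506 a2658 i2956 i439 (k8 a386 i182 i740 i1325 a437 i189 i748 i318 (k4 i835 i1492 i264 i1518 (k2 i280 a2108 k0))))) (by decide +kernel)
def a2680 : PP 8 4 T 0x2002000000000000000000000000001400000080000000202000000000000000000 := rS 0x51a95820d2381c5e351080c021a4903c2f4365900fc54330952a438b9d8eab55cc54124d0c9c49e45 (k8 a2624 a74 i749 i1007 i30 a369 a417 a171 (k8 i884 a2679 a2678 a332 i2452 i1676 i2508 i752 (k8 i751 i838 a386 i546 a133 i2492 i338 a447 (k8 a437 i958 i189 i2504 i356 i318 a2658 i1618 (k4 i1489 i1515 i1365 i1634 (k1 a2108 k0)))))) (by decide +kernel)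
def a2681 : PP 8 4 T 0x10202100000000000004010000000001001400000500000000002000004000000405000 := rS 0xe5238c10b123d9e4081a0cb358645 (k8 a2624 a276 a380 i1007 a437 i748 a353 a418 (k4 a406 a77 a2626 i264 (k2 a459 a425 k0))) (by decide +kernel)
def a2682 : PP 8 4 T 0x10212102000000000000000000000000001400000540040000002020000000000000041 := rS 0x7a3f088e064a76330d8abf07a78fc25668255e9544a5e286f3893c562943a16247913884767b11834081a0b8659e9d5c9859245 (k8 a2624 i1124 a397 a1575 a544 a2062 i1007 i740 (k8 a437 i748 i521 i273 a418 i395 i2504 a331 (k8 a353 a406 a77 a69 a54 a8 a74 i749 (k8 i1008 a389 a24 a337 a2354 a427 a369 a380 (k8 a423 a2119 a2401 i338 i1723 i1526 a276 i2032 (k4 i337 a2681 i1712 i1874 (k2 i296 i1877 (k1 a1811 k0)))))))) (by decide +kernel)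
def a2683 : PP 8 4 T 0x102102000000000000000000000000001400000100040000202000014001000400040 := rS 0x32d6a653fa80acd36630d4a316283d5aab2ca55126349c50568742c4a327354abce24f37c34f21f2010c12211d9ec460d5c9859247020683245 (k8 a2624 i1007 a437 i748 i264 i1124 a397 a1575 (k8 i521 i273 a418 i395 i2504 a369 i439 a386 (k8 i182 a353 a65 i1008 a74 i749 a427 a450 (k8 a2680 a2347 a406 a77 a69 a8 a389 a115 (k8 a51 a337 a2354 i868 a97 a420 i338 a688 (k8 a1332 a1609 a276 a2646 a2381 a2010 a1685 i1665 (k4 i1579 i880 a2107 i2040 k0))))))) (by decide +kernel)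
def a2684 : PP 8 4 T 0x2102000000000000000000000000001400000500040000202000000000000000041 := rS 0x1f8f54e115029176c53f278fab56695c1c2419c5a22b904ab4b2c94aa4e282b43a16251939aa55e71279bcc30d3c8ecf6350681034172010c3245 (k8 a2624 i1007 i439 a386 i740 a437 i748 i521 (k8 i357 a418 i395 a353 a65 a397 i1008 a74 (k8 i749 a427 a450 a2680 a2347 a406 a77 a69 (k8 a8 a389 a115 a2354 i1124 i868 a420 a369 (k8 a1575 a2682 a466 a360 a2683 a1086 i501 a2010 (k8 i1398 a1978 a2401 i2044 i1526 i1685 i843 i842 (k4 i602 i368 i1386 i402 (k1 a1811 k0)))))))) (by decide +kernel)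
def a2685 : PP 8 4 T 0x2802202000000000000000000000000000400000400040000002000000000000000000 := rS 0x4457093 (k4 a115 a853 a205 a2352 k0) (by decide +kernel)
def a2686 : PP 8 4 T 0x2002002001000000000000000000000000000000000000000000000100100000000002 := rS 0x9b459855ea94b98d323b (k8 a339 a57 a51 a24 a450 a427 a397 i452 (k2 a828 a336 k0)) (by decide +kernel)
def a2687 : PP 8 4 T 0x212100000000000000000018000000001405000554040000002000000000000000000 := rS 0x2f5774f5fd0d3c7e66b252b45 (k8 a116 a2354 i1124 a380 a2119 a2401 a133 i1723 (k4 a26 i1685 i1988 a404 k0)) (by decide +kernel)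
def a2688 : PP 8 4 T 0x12102001001000001050008000000001405000140040000002000000000000000002 := rS 0x8e646132d774f5ea792a938a1bce24f5c9859345 (k8 a116 i1124 a397 a1575 a74 i749 i1008 a389 (k8 a115 a2354 a2401 i1988 a26 i1685 a1579 a379 (k2 a2576 a354 (k1 i963 k0)))) (by decide +kernel)
def a2689 : PP 8 4 T 0x2002000000000000000000000000001400000500040000202000000000000000040 := rS 0x11308434f6631dca338b31622b61f8e1e2a353b047a2d692844a160020c3a8915a04528742a7573058946552af3d9e62873869bce24f30b244e1f2010c1245 (k8 a2624 a369 i439 a386 i182 a331 i1124 a397 (k8 a74 i749 i1008 a65 a2680 a389 a353 a418 (k8 a427 a450 a2347 a406 a2685 a1575 a544 a77 (k8 a69 a54 a45 a8 a337 i1230 a374 a2684 (k8 i958 i860 i821 a1685 a329 a335 a44 a67 (k8 a99 a2041 a2686 i296 i2031 a2687 i1879 a466 (k8 a360 a2519 i298 a2688 a36 i2499 a379 a107 (k1 i250 k0)))))))) (by decide +kernel)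
def a2690 : PP 8 4 T 0x2002000000000000000000000000001400000400040000202000000000000000040 := rS 0xfb435132d6aa069b0462a57211c4a0d11810061a1985c1e7f320d442012b444e81f2010c124d0cb252a8949c16251954abcf6798a1ce1a6f309c49e45 (k8 a2624 a74 i749 a397 i1008 a65 a2680 a389 (k8 a353 a418 a427 a450 a2347 a406 a2685 a115 (k8 a337 a2354 i1124 i1007 i30 a369 i439 a386 (k8 i182 a2689 a453 i1011 i2629 i1500 i1061 i1010 (k8 i1667 i501 i740 i2956 a437 i189 i748 i272 (k8 i1492 a1086 i264 a107 a2241 a1332 a408 a2381 (k4 a1685 i880 i506 a2108 (k2 a395 i1593 (k1 a403 k0))))))))) (by decide +kernel)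
def a2691 : PP 8 4 T 0x1000000000000212100000000000000000110000000001405000554040000002000000000000000000 := rS 0xbba7afe869e3f3359295 (k8 a2354 i1124 a380 a2119 a2401 a133 i1723 a26 (k2 i1685 a404 k0)) (by decide +kernel)
def a2692 : PP 8 4 T 0x1000000000000012102000000000000000101000008000404000540040000002000000000000000000 := rS 0x5fd0cfc7d2b99196bba7ab4b29549c50de7127ae4c2c9 (k8 i1124 a397 a1575 a74 i749 i1008 a389 a115 (k8 a2354 i868 a420 a26 i1685 a1579 a2576 i1579 (k4 a1978 i2044 a133 i1723 (k1 a404 k0)))) (by decide +kernel)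
def a2693 : PP 8 4 T 0x2002000000000000000000000000001400000400040000202000000000000000000 := rS 0x32b2d7656a7b313ebda2a68ea371c8096a3d538b4841e508ec2c1b028fda6065ca759f052c865921d17a252e634ca4e288114a1d0b128c9cd52af3893cde61869ecf245 (k8 a2624 a353 a418 a65 a397 i1008 a74 i749 (k8 a427 a450 a2680 a2347 a406 a77 a69 a54 (k8 a45 a389 a115 a57 a51 a24 a337 a363 (k8 i1230 i1124 i1007 i868 a2685 a2062 a544 a1575 (k8 a2690 a402 a458 i519 i748 a437 i1155 i821 (k8 a377 i1302 i1303 i242 i1307 i2889 i700 a401 (k8 a446 i2671 i2034 a111 i1417 a2692 i2046 a1950 (k4 a2010 i1949 a1579 i1579 (k1 a2576 k0))))))))) (by decide +kernel)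
def a2694 : PP 8 4 T 0x2102000000000001000000000000001000000040880001202000000001400000040 := rS 0xf68ab64d8407e3678a8072c669b0d4a0d23810760362868420f0b87c4e40218255aab2686506974c8ad022943a16251954abcf6794fb2cc714869bcc271278059c45 (k8 a2624 i548 i2264 a74 i749 a397 i1008 a65 (k8 a389 a51 i545 a414 a353 a418 a427 a450 (k8 a2347 a406 a77 a69 a54 a45 a8 a57 (k8 a24 a374 i1007 i30 a97 a420 a369 i439 (k8 a386 a331 i182 i740 i338 i743 a437 i1790 (k8 i189 i395 i748 i1618 i2341 a2241 a276 a1719 (k8 i2032 i1976 a1685 a27 a2286 i402 a1288 i995 (k4 i2045 a116 i1783 a2230 k0)))))))) (by decide +kernel)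
def a2695 : PP 8 4 T 0x2002000000000000000000000000001400000400000000202000000000000000000 := rS 0x19b9440c713b0c76351c8598a37010c4360f02819140135414ae2511c419acb2a9d53f1733134b21931c50ba2b14a1d0b128c9cd52af3893cde61869ecf245 (k8 a2624 a353 a418 a65 a397 i1008 a74 i749 (k8 a427 a450 a2680 a2347 a406 a77 a69 a54 (k8 a8 a5 a389 a51 i1007 i868 i30 a2693 (k8 a350 a414 i1588 i1619 i545 a1006 a466 a9 (k8 a423 a58 a205 a460 i2264 i547 a2694 i519 (k8 i599 i748 i1506 a349 i1774 i1790 a437 a401 (k8 i1116 i1155 a1105 a135 a2286 i2032 a46 i1611 (k1 a429 k0)))))))) (by decide +kernel)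
def a2696 : PP 8 4 T 0x2002000000000000000000000000001400000000000000202000000000000000000 := rS 0x3da2ad936101f8d872f150319a6c561a940e0d238107621018681e1f0b89d97052027d9a543308cae25219d90a8714a04569931a5e25148c9cc12af54ab5564b269ecf2590c9bcc27127a0e1a45 (k8 a2624 a65 a374 a74 i749 a397 i1008 i1007 (k8 i868 a353 a418 i30 i29 a97 a420 a450 (k8 a427 a369 a2680 a2347 a389 a406 a24 a51 (k8 a57 a8 a45 a54 a69 a77 a2695 i2452 (k8 i2508 i1628 i1626 i752 i751 i2510 i1716 a386 (k8 a1729 i545 a331 i2492 i182 i338 a437 i189 (k8 i2504 i395 i748 i1618 i1489 i519 a2241 a276 (k8 a277 a1719 i2032 a1685 a27 i299 a2286 i402 (k4 a1288 i995 i2045 a116 (k2 i1783 a2230 k0)))))))))) (by decide +kernel)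
def a2697 : PP 8 4 T 0x402002000000000080000000000000100040000080004000000000000014000800040 := rS 0x25d36365b8a9e2a71e9855ea9 (k8 a450 a427 a397 a335 a67 a2041 a127 i2589 (k4 i899 i1180 i1777 a336 k0)) (by decide +kernel)
def a2698 : PP 8 4 T 0x2000000000000000000000000020000000000000000000000008000000000800000 := rS 0x16c2a (k2 i402 i403 (k1 i2589 k0)) (by decide +kernel)
def a2699 : PP 8 4 T 0x2102000000000000108010000100004000000000044000000000000200000004002 := rS 0x1941847 (k4 a354 a276 i963 a2661 k0) (by decide +kernel)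
def a2700 : PP 8 4 T 0x2002000000000000100010000100004000000000044000000040000200200000002 := rS 0x650611c8045 (k4 a2624 a386 i1530 i744 (k2 i963 a2661 k0)) (by decide +kernel)
def a2701 : PP 8 4 T 0x402000000000000001004000000000000005000000000000000020000041500000000 := rS 0x62b1c5227 (k4 a331 a443 a275 a1043 (k1 i2032 k0)) (by decide +kernel)
def a2702 : PP 8 4 T 0x2002000000000000000000000000100040000080004000000000000280000800000 := rS 0x4ba6c72b730abd521b (k8 i66 a450 a427 a397 i2589 i294 i1180 i1244 (k1 a336 k0)) (by decide +kernel)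
def a2703 : PP 8 4 T 0x1000000000000002002000000000040140018000100804008100000044000200000000000100000002 := rS 0xc1c86460d0d4695659f97cbba798552ad55a0e1abd (k8 i1417 a65 a374 a97 a420 a450 a397 a20 (k8 i1684 a982 i856 a1579 i1182 i1719 a133 i1515 (k4 i2040 a393 i962 a459 k0))) (by decide +kernel)
def a2704 : PP 8 4 T 0x12002000000000000100011000000004000000100044000000020000000800000000 := rS 0x190ad11 (k4 a9 i185 a2645 i1579 k0) (by decide +kernel)
def a2705 : PP 8 4 T 0x2102000000000000000000000000000400000080040000202000000000000800040 := rS 0xc8564f9ad082343885865d49ad93481a2a5d4cc5638f5e02b528b140d33183c008b129855ea92cc3626cd67a6520835c9d56a9d648a44e1f2010c1245 (k8 a2624 a369 i439 a386 i182 a331 a443 i1124 (k8 a544 i884 a2679 a171 a374 a2696 i1111 i1149 (k8 i892 a112 a65 i868 a450 a427 a397 i860 (k8 a175 i740 i338 i447 a2697 a1685 i822 i363 (k8 a2702 a127 a365 a27 a49 a2041 i1243 a410 (k8 i1859 a336 a462 i1450 i1930 a2699 a2700 a2703 (k4 a2704 i2032 i1868 i1605 (k2 a1949 a388 (k1 i1579 k0))))))))) (by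 decide +kernel)
def a2706 : PP 8 4 T 0x2102000000000000000000000000000400000080040000202000000000000000040 := rS 0x3f538f4228850010702a1b8682e09578652045 (k8 a2624 a2696 i1007 a427 a369 a2705 a437 i992 (k8 i912 i913 i748 i834 i835 i524 i1347 i2165 (k2 i2179 a1811 k0))) (by decide +kernel)
def a2707 : PP 8 4 T 0x2102000000000000000000000000000400000080040000202000000000000000000 := rS 0xc8564f9ad088711885865d49ad903454d25d8ac71ebc05663162254aa0458943e290d90c4e16079000a031d801a6064e8255ea92cb24de618687626cd67a6520835c9d56a45 (k8 a2624 i884 a2679 a171 a374 a2696 i1111 i1149 (k8 i892 a112 i1230 a65 a397 i1008 i1124 i868 (k8 a450 a427 a369 a544 a2706 a402 a2658 a339 (k8 i23 i2 i959 i597 i958 i734 i700 i748 (k8 a443 i182 i860 a175 a377 i363 i278 i822 (k8 i448 a2702 a127 a365 a27 a49 i1243 a336 (k8 a111 i1336 i1180 i1450 i1930 a2699 a2700 a2704 (k4 a2703 i2032 i1868 i1605 (k2 a1949 a388 (k1 i1579 k0)))))))))) (by decide +kernel)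
def a2708 : PP 8 4 T 0x402200000000000001000000000000000005000000000110000020000041000000000 := rS 0x2b308d62323b14425563bc04e29 (k8 a443 a331 a127 a27 a72 i743 a1043 a451 (k4 i184 a464 i2032 a460 (k1 a1034 k0))) (by decide +kernel)
def a2709 : PP 8 4 T 0x2202000000000000000018000000902008000400040000000000000000000000000 := rS 0x49274a6a9 (k4 a450 a421 i1644 a946 (k1 i1450 k0)) (by decide +kernel)
def a2710 : PP 8 4 T 0x2202000000000000000000000000002400000480040010200000000000000800040 := rS 0x1c80c61c4508872ead93481a2a5d4c3d62bc0562c5034cc60045894c2af54c3626cd4ca0d720f358a44e1f0488c8e212010caa45 (k8 a2624 a72 i439 a386 i743 a451 i184 a369 (k8 i182 a331 a443 a464 a17 a171 a374 i1111 (k8 i892 a112 a65 a450 a427 a397 i860 a175 (k8 i740 i447 a2697 a1685 i822 a2702 a127 a1043 (k8 a365 a2041 i1243 a410 i1859 a336 a462 i1930 (k4 a2709 a2708 a361 i1867 (k2 a772 a107 (k1 a392 k0)))))))) (by decide +kernel)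
def a2711 : PP 8 4 T 0x2002000000000000000000000000000400000480040000202000000000000000040 := rS 0xfd4e3d08a2140041c0a86e1a0b8255e590ca420845 (k8 a2624 a2707 a2696 i1007 i868 a427 a369 a2710 (k8 a437 i992 i912 i913 i748 i834 i835 i524 (k4 i1347 i2165 i2179 a1811 k0))) (by decide +kernel)
def a2712 : PP 8 4 T 0x2002000000000000000000000000000400000480040000202000000000000000000 := rS 0x7203187114221cbab64d25c7ac5780acc62c44a8116251088c3e290d89c2c40028ec00d3031acaa4707c11720930abd52598687626cd4ca410645 (k8 a2624 a374 a2696 i1111 i892 a112 i1230 a65 (k8 i868 a450 a427 a397 a369 a171 a2707 a17 (k8 a451 a72 a464 a2711 a402 a2658 a339 i2 (k8 i959 i958 i734 i748 a443 i182 i184 i743 (k8 i860 a175 a377 i278 i822 i448 a2702 a127 (k8 a1043 a365 i1243 a336 i1180 i1930 a2709 a2708 (k4 a361 i1867 a772 a107 (k1 a392 k0)))))))) (by decide +kernel)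
def a2713 : PP 8 4 T 0x2000000000000000009000000400540010000000000000000004150500000000000 := rS 0x7a3b (k2 i373 i1959 (k1 i2034 k0)) (by decide +kernel)
def a2714 : PP 8 4 T 0x2000000000000001005010000000014015000000000111000080014500480000088 := rS 0x62a5069a94657 (k4 i442 i240 a460 i468 (k2 i1380 i1003 (k1 i2033 k0))) (by decide +kernel)
def a2715 : PP 8 4 T 0x2100000000000001000010004400554015000100000110000084054500180000088 := rS 0x6288aca518c4444c36095472b5 (k8 i2889 a401 i703 i1306 a2713 a2714 a9 i1571 (k4 i249 a362 i2033 i441 (k1 i1647 k0))) (by decide +kernel)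
def a2716 : PP 8 4 T 0x2102000000000000000010000400000405000540000100202010014000000000000 := rS 0xd5215286c33f304faa32bb94462056aacb21d66a652a9b17a252e938a1bcc271278fe1a835bc4c6e2b480b4324d698e404b50f0188445 (k8 a2624 a386 i439 i440 i2889 i700 a401 a402 (k8 i30 i1007 a497 a2696 a818 i993 a112 i854 (k8 a374 a65 a1022 a74 i749 a397 i1008 a389 (k8 a115 a24 a337 a363 a947 a2354 i1111 i892 (k8 i1230 i868 a97 a420 a2715 i11 a46 i1498 (k8 i1650 a1978 i1305 a1698 a2713 a133 a2714 a393 (k2 i1490 i1380 k0))))))) (by decide +kernel)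
def a2717 : PP 8 4 T 0x2000000000000000000000000400540010000000000000000004140504080800000 := rS 0x763d (k2 i1308 i1156 (k1 i2034 k0)) (by decide +kernel)
def a2718 : PP 8 4 T 0x2100000000000000000010010000014018000000000010000004814548090000000 := rS 0xc152a8c627d630818a57 (k8 a387 i1524 i737 i738 a1978 i1159 i1650 i414 (k2 i1305 i2033 k0)) (by decide +kernel)
def a2719 : PP 8 4 T 0x2102000000000000000000000000000400000400040000202000000000000800000 := rS 0x1f5ca7f18ae94abf6215842224faf6228443ae53aad55965921d67a5526251a97632333aad4523a130e4042d0c9340c1e210dc7e2b20a28c6a957a9d4297448be287127a6d6e73379861b134ca0d2045 (k8 a2624 a2696 a374 i1111 a112 a65 a397 i1008 (k8 a2712 i854 a947 a74 i749 a389 a363 a337 (k8 a24 i821 a889 a427 a450 a51 a336 a175 (k8 a818 a1022 i993 a386 i440 i439 i30 i1007 (k8 a497 i700 a401 a2717 i734 i13 i2889 i2671 (k8 i193 a25 a172 i1116 i860 a115 a2354 i1149 (k8 i1230 i1124 i868 a97 a420 a544 a1575 a2718 (k8 a2716 a361 i3047 i1605 i1772 i1504 a1949 i1771 (k8 i1608 a164 i2048 i1571 i1665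 a40 i1600 a1299 k0))))))))) (by decide +kernel)
def a2720 : PP 8 4 T 0x2002000000000000000000000000000400000400040000202000000000000800000 := rS 0x21e2e215c4104c391687804061b8fd4e4215a84824d0cb345e8949a292e9b5bc4cc71439c34de712798552af4ca410645 (k8 a2624 a374 a2696 i1111 a427 a450 a397 a74 (k8 i749 i1008 a65 a2712 a389 a51 a112 i854 (k8 a947 a24 a336 a115 a337 a363 i892 i1007 (k8 i30 a175 i821 a818 a386 a889 a1022 i993 (k8 i439 i700 i440 a497 a401 a2717 a2719 a853 (k4 a957 a465 i737 a678 k0)))))) (by decide +kernel)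
def a2721 : PP 8 4 T 0x2002000000000000000000000000000400000400040000202000000000000000000 := rS 0x1c7a3f538440838150dc341731a5d1314398255e1937984e24f41c352045 (k8 a2624 a2696 a65 a374 a74 i749 a397 i1008 (k8 i1007 a427 a369 a2712 a389 a337 a24 a51 (k8 a2720 a437 i992 i912 i913 i748 i524 i333 (k4 i296 i1877 i519 a1811 k0)))) (by decide +kernel)
def a2722 : PP 8 4 T 0x14002000000000000004000000000004000008000400000000000000000000000000000 := rS 0x13b4f (k2 a20 i1644 (k1 a463 k0)) (by decide +kernel)
def a2723 : PP 8 4 T 0x402002000000000005000001000000508405050000080200000040000001510800040 := rS 0xa86e8961a58623231a8d4a050022c5e350d9855ea90f9001245 (k8 a2624 a369 a386 i182 a450 a427 a397 i66 (k8 i1116 i1080 a173 i740 i260 i1365 i1634 i447 (k8 i450 i1506 a336 i291 a2673 i1778 a2701 i899 k0))) (by decide +kernel)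
def a2724 : PP 8 4 T 0x2002000000000000000000000000000400000480000000202000000000000000000 := rS 0xfd4e3d08a2140041c0a86e1a0b8848043039fd249b048643b134ca0d6a712788c4a7d5b9710e9f8cb34ae6b67a410b108b9d49a592a9995e45 (k8 a2624 a427 a2721 i1619 i868 i30 i1588 a350 (k8 a466 a361 a2696 i1149 i548 a58 i892 a25 (k8 a414 a2722 a460 i1930 a73 a423 a9 a74 (k8 i749 a201 a374 i1111 a112 i1230 i1007 a369 (k8 i1180 a2668 i1637 a2676 i439 a386 i743 a2723 (k8 a437 i992 i912 i913 i748 i834 i835 i524 (k4 i1347 i2165 i2179 a1811 k0))))))) (by decide +kernel)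
def a2725 : PP 8 4 T 0x2000000000000000000000000000002080000000000200002000000000000800000 := rS 0x4201c662645 (k4 a2624 a112 a25 a172 (k2 a173 i700 k0)) (by decide +kernel)
def a2726 : PP 8 4 T 0x2002000000000000000000000000000400000400000000202000000000000000000 := rS 0x71e8fd4e11020e054370d05d14634ba26289b39adcb8872ba16206b2a9d53f17330255ea926964326f309c49f0d8cc4d9acf4ca410645 (k8 a2624 a374 a2696 i1111 i1149 i892 a112 a25 (k8 a65 a74 i749 a397 i1008 i1007 i868 i30 (k8 a450 a427 a369 a2721 a350 a414 i1588 i1619 (k8 i548 a466 a361 a58 a2722 a460 i1930 a2724 (k8 a947 a389 a337 a24 a51 a336 a2725 a437 (k8 i992 i912 i913 i748 i524 i333 i296 i1877 (k2 i519 a1811 k0))))))) (by decide +kernel)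
def a2727 : PP 8 4 T 0x2002000000000000000000000000000400000000000000202000000000000000000 := rS 0x6203462c32381076211c0a8061a0785cd6404e150cc25219d99e90269ec3245 (k8 a2624 i1007 a418 i30 a2696 i1149 a2726 i2452 (k8 i2508 i752 i751 i918 a386 i548 i2492 i338 (k8 a437 i189 i912 i913 i2504 i395 i748 i1618 (k4 i371 i1507 i1489 a179 (k1 i1880 k0))))) (by decide +kernel)
def a2728 : PP 8 4 T 0x1000000000000012002000000000000000101000008600004000100000011100000000000000000000 := rS 0x56881fcfacb5daf9294f2993d5aab (k8 a97 a420 a74 a421 a26 i1112 i1113 i1686 (k4 a1579 i1597 i1723 a2302 (k2 i2037 a58 k0))) (by decide +kernel)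
def a2729 : PP 8 4 T 0x802002000000000001000000000000201404000180040001002000000000000000000 := rS 0x4ec5a23044faf4b2c93bc3536b542d156c812894d16af (k8 a427 i1938 a421 a2727 a45 a2265 a116 a77 (k8 i884 i1179 a456 i752 i1124 i868 i1988 a2728 (k4 a2401 a205 a466 a399 (k1 a192 k0)))) (by decide +kernel)
def a2730 : PP 8 4 T 0x802002000000000000000000000000201404000180040001002000000000000000000 := rS 0x35994ad054faf59f164eb30f65964c3536b52ed156c812894d16af (k8 a427 i1938 a421 a2727 a45 a2265 a116 a5 (k8 i884 i1179 a456 i1124 i868 a418 a2729 i1910 (k8 a1006 a368 i1990 a2728 a192 a2010 i1579 i507 (k1 a1947 k0)))) (by decide +kernel)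
def a2731 : PP 8 4 T 0x802002000000000000000000000000201404000180040000002080400000000000040 := rS 0x690fd4743782f92919a7b054ac561b1dca9e230820acd2a22c12af648dc0485 (k8 a77 i700 a446 i1124 a427 a369 i1938 a2730 (k8 a330 a72 i703 i704 a2401 a46 i1689 a354 (k8 a366 i208 i1534 a26 a33 i1112 i1113 a379 (k4 a121 i1719 a6 a393 (k1 a2228 k0))))) (by decide +kernel)
def a2732 : PP 8 4 T 0x20802000000000000001000000000000001404000100040000002000000000000000000 := rS 0x2091064d3d3a9f429ecf277 (k8 i752 a353 a418 a77 a33 a347 a1950 i1124 (k2 a2342 a2401 (k1 a205 k0))) (by decide +kernel)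
def a2733 : PP 8 4 T 0x802002000000000000000000000000001404000180040000002080400000000000040 := rS 0x1acca5682c59989d45a7e30994bd156c812e94cf659649462a9b (k8 i1179 a417 a2727 i1124 i868 a418 a421 a5 (k8 a45 a2265 a116 i1901 a2731 a422 a33 a52 (k8 a347 a2732 a1006 a192 a2010 i1579 i507 a1947 k0))) (by decide +kernel)
def a2734 : PP 8 4 T 0x20002100000000000001000000000000001404000100040100002000000000000000000 := rS 0x190ac6b42165929f (k8 a33 i1124 i868 a2401 i1868 a1949 a2579 i1579 k0) (by decide +kernel)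
def a2735 : PP 8 4 T 0x402000000000000001000000000000001404000100040100002000000000000000000 := rS 0x2ba16206b2ac10b27745c60f679 (k8 a353 a418 a406 a52 i752 i868 a2734 a72 (k4 a464 a2262 a361 a58 (k1 a460 k0))) (by decide +kernel)
def a2736 : PP 8 4 T 0x402000000000000000000000000000001404000100040100002000000000000000000 := rS 0x1acca568295622cc2cb24ee9f45c60f679 (k8 a353 a418 a406 a52 a33 i752 i1124 i868 (k8 a2735 a380 a330 a2262 a362 i1579 i507 a1947 k0)) (by decide +kernel)
def a2737 : PP 8 4 T 0x20002100000000000001000000000000001404000100040000002000000000000000000 := rS 0x190ac6b42165929f (k8 a33 i1124 i868 a2401 i1869 a1949 a2579 i1579 k0) (by decide +kernel)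
def a2738 : PP 8 4 T 0x412202000000000000000000000000001400000100040000002080010000000000041 := rS 0x7c3ae4069f8631788084ca532793592513ba841e59198093e8b4ec60f679 (k8 a353 a418 a406 a347 a52 a33 i700 i193 (k8 i868 i595 i820 i752 a2727 i1124 i30 a74 (k8 a421 a63 a957 a2262 a192 i1002 a1778 a764 (k4 a429 i719 a2314 a1812 k0)))) (by decide +kernel)
def a2739 : PP 8 4 T 0x2002000000000000000000000000001404000180040000002080410000000000041 := rS 0xac6a66414b918899ecf30d (k8 a456 a353 a418 a2733 a406 a2736 a2738 a2737 (k2 i1970 i1971 (k1 i2253 k0))) (by decide +kernel)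
def a2740 : PP 8 4 T 0x12002000000000000000004000000200000401000000000100000000000000000000 := rS 0x40d14a64f (k4 a74 a421 a433 i1863 (k1 a196 k0)) (by decide +kernel)
def a2741 : PP 8 4 T 0x400000000000000002000001000000004054000000005000000000000000000000000554000000000000 := rS 0x1c830 (k2 i2035 a379 (k1 a459 k0)) (by decide +kernel)
def a2742 : PP 8 4 T 0x2102000000000004000001000405541018000000000010100084154100100800040 := rS 0x5ec10e9f9960c6131c46288809caa5327aac760fa7c4d8a2b3e95d5af1 (k8 a2041 a420 a387 a1978 i898 i1524 a69 a20 (k8 i595 i1155 a97 a74 a421 i703 i737 a362 (k8 a127 a9 i258 a2741 a276 i465 i2037 i719 (k2 i1515 i1080 (k1 a2713 k0))))) (by decide +kernel)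
def a2743 : PP 8 4 T 0x2002000000000000010014000400000018400000000000100804014100200800041 := rS 0x4a509462f40074ba291331862c152b0c12535793e9ef111a4dca45 (k8 a2624 a46 a1020 i11 a2041 a20 a74 a427 (k8 a421 a369 a354 i208 i1534 i1532 a379 i1690 (k8 i258 i1766 a564 a108 i1080 i1650 a951 i2033 (k1 a121 k0)))) (by decide +kernel)
def a2744 : PP 8 4 T 0x12102000000000004000015000001401018401000000010100080154100000800041 := rS 0x2e0eb04fcc265a8d8e0c2a91dca204cbc47ea72993d563b5083e9f13628acfa5756a7d2f18 (k8 a1001 a71 a33 a420 a387 a1978 i898 i1524 (k8 a69 a20 i595 i820 i1155 a97 a74 a421 (k8 a889 a1022 a2041 a2740 a2742 a46 a2743 i704 (k8 a425 a342 i1647 i465 a2741 i2037 i1516 i720 (k2 a2713 i1080 k0))))) (by decide +kernel)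
def a2745 : PP 8 4 T 0x2002000000000000000000000000001400000080040000002010000000000800040 := rS 0x18a958cc3130a5e2a353b4982934a8bcfcbe0ead99e9f82c613acd89a18ea33448dc722d012840242049e4b2c9288d4563b3bc362ab94dad50645 (k8 a2624 i923 i884 i1179 a171 a417 a456 i752 (k8 i1155 i898 i1116 a2727 i1124 i868 a353 a369 (k8 a386 i959 i820 i700 i977 a401 a446 i190 (k8 i193 i2671 a2739 a69 i153 i1644 a1001 a2738 (k8 a33 a2062 a2744 i2479 i857 i856 i1080 i1725 (k8 i1637 i1516 a120 a67 a99 a2041 i1928 a127 (k4 i1954 i738 i1452 i1691 (k1 i2033 k0)))))))) (by decide +kernel)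
def a2746 : PP 8 4 T 0x802002000000000000000000000000001404000080040000002000000000000800040 := rS 0x10a958cc3788e54ed23fb0543105f2505a9e4eb3e327d82b34a88b4c25e8ab642a04125330abd527b3cb2436251d9de1b154dad452270f9445e1d319d40040 (k8 a2745 i740 i2629 i447 i742 i1080 a2727 i183 (k8 a331 a443 i884 i1179 a417 a456 i752 i1155 (k8 i860 i66 i1124 a353 a418 a450 a427 a397 (k8 a421 a369 a45 a77 a2265 a116 i1901 a162 (k8 i1938 a2730 a330 a72 i1542 a2732 a2062 a544 (k8 a2401 i2657 i1112 i1113 a2302 i822 i1518 i1723 (k8 a377 a67 a2389 a2041 a2054 a2648 i1452 i1689 (k1 a2218 k0)))))))) (by decide +kernel)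
def a2747 : PP 8 4 T 0x2002000000000000000000000000001404000080040000002000000000000800040 := rS 0x16e984b972311330abd527b3c9461a83319d40040 (k8 a2745 i740 i2629 i447 i923 a456 a2727 a353 (k8 a418 a450 a427 a397 a2746 a406 a2736 a71 (k2 a260 i1930 (k1 a2740 k0)))) (by decide +kernel)
def a2748 : PP 8 4 T 0x2002000000000000000000000000001400000080040000002000000000000800040 := rS 0x285a62d088dc7e984bbc231134318c001d0f89c5240049855ea93c944570d (k8 a456 i898 a2727 a353 a450 a427 a397 a369 (k8 a2745 a443 a331 i183 i742 i740 i447 a2747 (k8 a69 a1001 a127 a71 a260 a6 a376 a441 (k4 i980 a1917 i822 a377 k0)))) (by decide +kernel)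
def a2749 : PP 8 4 T 0x802102000000000000000000000000001404000180040000002020000000000800000 := rS 0xcd4f8e4a898318b112a000074c2a90d9de1b154db4c3e0614a168a975b204a2533db3d3ac9 (k8 i1124 a544 a2062 a418 a421 a2727 a45 a2265 (k8 i1901 a116 a77 a54 a2748 i1301 a402 i1179 (k8 a417 a456 i752 i66 a450 a397 i2494 i740 (k8 a377 i278 i822 i448 a162 a2730 i1937 i2657 (k2 a330 a1896 k0))))) (by decide +kernel)
def a2750 : PP 8 4 T 0x802102000000000000000000000000001404000180040000002000000000000800000 := rS 0x35994accc45a7e30261b87004a121104f659648ee1ad30f818bab640944a645 (k8 a2624 a421 a2727 a45 a2265 a5 a2748 i1301 (k8 a402 a456 i1155 i1124 i868 a418 a2749 a386 (k8 i2573 i700 a377 a446 i721 a135 a33 a52 (k4 a2732 a2010 i1579 i507 (k1 a1947 k0))))) (by decide +kernel)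
def a2751 : PP 8 4 T 0x2000000000000000000000000000000000000200000000002000000000000800000 := rS 0x432080c0245 (k4 a2624 i2629 i2671 i740 (k2 i700 a386 k0)) (by decide +kernel)
def a2752 : PP 8 4 T 0x802002000000000000000000000000001404000080040000002000000000000800000 := rS 0x2759f188b2652f45889556d044094cf6513a9de2a9b (k8 i1179 a417 i752 a2751 a2727 a418 a421 a45 (k8 a2750 a2265 a72 a205 a116 i1901 a2730 a466 (k4 a422 a368 a399 a784 k0))) (by decide +kernel)
def a2753 : PP 8 4 T 0x2000000000000040000000000000000000000080008000000020000000040800000 := rS 0x110a000074370d (k4 a456 i66 i2494 i740 (k2 a377 i448 (k1 i278 k0))) (by decide +kernel)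
def a2754 : PP 8 4 T 0x2000000000000002000000000000000000000000000200000080000000000000000 := rS 0xac6a (k2 i1970 i1971 (k1 i2253 k0)) (by decide +kernel)
def a2755 : PP 8 4 T 0x2002000000000000000000000000001404000080040000002000000000000800000 := rS 0x3fc40430466a848441312656e97459723113299855ea9269ecf2753bc3506d30f818a245 (k8 a2624 a2727 a2748 i1301 a402 i923 a456 i752 (k8 a2751 a353 a418 i30 a450 a427 a397 a421 (k8 a2752 a406 a2736 a52 a71 i1930 a2740 a260 (k8 a2753 a386 i2573 a2754 a2737 a931 a2262 a1066 (k1 a1778 k0))))) (by decide +kernel)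
def a2756 : PP 8 4 T 0x20402002000000000000000000000000000000000080000000000020000040040800080 := rS 0x160dd308917bc0c61d138a4c2af54c55a697 (k8 a71 a402 a417 a450 a427 a397 a443 a331 (k8 i2494 a2753 a127 i1080 i1340 a260 a376 a120 (k1 i980 k0))) (by decide +kernel)
def a2757 : PP 8 4 T 0x2102000000000044000001000115000008000000000010100080514040140000008 := rS 0x52f1630c5860d11b2a207f13954a64f55c4d8a0f1b9f55a57 (k8 a387 a420 a1978 a446 i595 i1524 a69 a97 (k8 a74 a421 i703 i737 a1066 a362 i2037 a9 (k4 i466 a276 i1003 i2035 (k2 a27 i258 (k1 a127 k0))))) (by decide +kernel)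
def a2758 : PP 8 4 T 0x2002000000000000080000000400000000400000000000100000000000220000000 := rS 0x2e8a44c535793c4645 (k8 a2624 i11 a74 a427 a421 i1690 i258 i1766 (k1 a564 k0)) (by decide +kernel)
def a2759 : PP 8 4 T 0x400000000000000002102000000000004050001000405000000200000000014100080554000220000000 := rS 0x32caa0c23b09e23c3f94c9eab07a94faad (k8 a420 a1978 i1381 i595 a97 a74 a421 a950 (k8 i1235 a365 a2741 a354 a276 i704 i466 i2037 k0)) (by decide +kernel)
def a2760 : PP 8 4 T 0x2102000000000040100001000415000008400000040010100080510040060000008 := rS 0x3fb2caaa30611d84f10817102c7101f59e535793d5aaba795d8a0f1b8cd4ab7 (k8 i2479 i1381 i193 a446 i595 i1524 a387 a20 (k8 a97 a420 a74 a427 a421 a2062 a1978 a2757 (k8 a2758 a2759 a108 i443 a441 a2741 a354 a276 (k4 i328 i704 i466 a1913 (k1 i2037 k0))))) (by decide +kernel)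
def a2761 : PP 8 4 T 0x2002000000000000000000000000001400000080040000002000000000000800000 := rS 0x7e10c4208a75b87004a12110516394fc613b134307da60641ad61a53269ecf259649446a75158ecee45 (k8 a2624 i752 i1155 i898 a2751 i1116 a2727 i1124 (k8 i868 a353 a418 i30 a421 a456 i884 i923 (k8 a2748 a402 i1301 a2755 a69 i1644 a1001 a33 (k8 a42 a52 a2756 a386 i2573 i700 a377 i2479 (k4 a889 a2760 a2262 a957 (k2 a1778 a1066 k0)))))) (by decide +kernel)
def a2762 : PP 8 4 T 0x802002000000000000000000000000001404000000040000002020000000000800000 := rS 0x44c210d3d98c7628e1caf151a9d820716b48001d0f89c4aa114a24369d19c5a22b640944a6b982c521ac9429cce24f37984ea77 (k8 i752 a2751 a397 i1008 a74 i749 a2761 a77 (k8 i1124 a2220 a389 a2685 a1575 a421 a2727 a45 (k8 a2265 a2687 a466 a360 a544 i66 a1013 a54 (k8 i821 i860 a331 i183 i741 i740 a377 a329 (k8 a402 a44 a67 a99 a2041 a2519 a2686 i1879 (k4 i298 a2688 a36 i729 (k2 a379 a107 (k1 i250 k0)))))))) (by decide +kernel)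
def a2763 : PP 8 4 T 0x12002002000000000000000000010000000000000000000000000000010010000040 := rS 0x7da6a604abc7e11 (k8 a441 a6 a427 a369 a2041 a1917 i242 a377 k0) (by decide +kernel)
def a2764 : PP 8 4 T 0x802002000000000000000000000000001404000000040000002000000000000800000 := rS 0xfb4c0c1d780dc720221106330d418a4ba53549ecde613893ca23b508bce645 (k8 a2624 a2761 i1079 i821 i1155 a2727 a74 i749 (k8 a397 i1008 a418 a450 a421 a5 a54 a68 (k8 a2220 a919 a2762 a386 i700 a401 a446 a419 (k4 a2214 a2763 a402 i1301 (k1 a377 k0))))) (by decide +kernel)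
def a2765 : PP 8 4 T 0x20002002002000000000000000000000000000000000000000000000000400000000042 := rS 0x16261126369a9812394bc555ea9308fc6e11 (k8 a441 a376 a6 a397 a450 a427 a561 a71 (k8 a42 a369 a2041 a1917 i447 i282 a260 a120 (k1 i980 k0))) (by decide +kernel)
def a2766 : PP 8 4 T 0x402100000000000000000000000000001404000000040000002020000000000800000 := rS 0x18b0cca0d19958d516663246a398c1ecf2c7078946ec508bc0522b13970ea45 (k8 a2624 a2751 a2736 i1766 i898 a443 a127 a441 (k8 a49 a376 i860 i338 a275 a353 a418 a406 (k8 a42 i1116 i1124 a2737 a1006 i1970 i1971 a360 (k4 i467 i1579 a276 a2643 (k1 a2222 k0))))) (by decide +kernel)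
def a2767 : PP 8 4 T 0x402202000000000000000000000000001400040100040000002000000000000000000 := rS 0x8814ca27745c60f679 (k8 a353 a418 a406 a52 i752 a2727 a421 a2262 (k1 a1778 k0)) (by decide +kernel)
def a2768 : PP 8 4 T 0x2002000000000000000000000000001404000000040000002000000000000800000 := rS 0x4320b320a7f86454b91889abd527b3c9bcc271279d4e645 (k8 a2624 a2761 a2751 a74 i749 a397 i1008 a353 (k8 a418 a450 a427 a2764 a406 a2736 a561 a389 (k4 a35 a2767 a2737 a2766 (k2 a2754 a386 k0)))) (by decide +kernel)
def a2769 : PP 8 4 T 0x2100000000000004050001010115000020050000000000000000554001550005000 := rS 0x8cc072a8c60c3 (k4 a276 i2035 i280 a459 (k2 i2030 a425 (k1 i1533 k0))) (by decide +kernel)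
def a2770 : PP 8 4 T 0x2100000000000000100000000000000000000000040000000000008000000000010 := rS 0xcb17 (k2 a360 i1546 (k1 a352 k0)) (by decide +kernel)
def a2771 : PP 8 4 T 0x20002002000000000040000000000000000010000000000000000000040400000000002 := rS 0x4c0b0c6978aabd5261 (k8 a397 a450 a427 a561 a71 i448 a120 a260 (k1 i980 k0)) (by decide +kernel)
def a2772 : PP 8 4 T 0x2100000000000004050001010115000020050000000002000000554001550004000 := rS 0xd (k2 i1489 a2769 k0) (by decide +kernel)
def a2773 : PP 8 4 T 0x2100000000000000100000000004000040000000040000000040000000200010002 := rS 0xd6650611c8045 (k4 a2624 a386 i1530 i744 (k2 i963 i467 (k1 a1947 k0))) (by decide +kernel)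
def a2774 : PP 8 4 T 0x400000000000020402102000000000000110044000011001000150000040014100040010401040800000 := rS 0x1514acb5ed15042153a2066d3030458e371f8f5e023028001e1d138a4805356aac362b1da7c728b67ad49e45 (k8 a2624 a74 a1692 a2062 a52 a42 a33 i1155 (k8 i898 i66 a97 a420 a421 a386 a443 a331 (k8 i741 i338 i740 i260 i185 a127 a365 a6 (k8 a376 a27 a441 a2765 a402 a2770 a2771 i282 (k8 a2773 i2031 a48 i1415 a1579 i1379 i2037 a2772 k0))))) (by decide +kernel)
def a2775 : PP 8 4 T 0x2002000000000000000000000000001400000000040000002000000000000800000 := rS 0x17f434a24c62a572918405465af68a9878a9c7a070eb485a891b8cc02020290484b567aee0ab70f9fd027d864552e394fb16309d2bc4e9e8617a84e6770494d5ea956aac9a7b3c965926f309c49e51128d4ea2b (k8 i898 a2751 i1116 i860 a2727 a74 i749 a397 (k8 i1008 i1124 i868 a353 a418 i30 a97 a420 (k8 a450 a427 a421 a369 i752 a2761 i821 i1079 (k8 a2768 a20 a69 a387 i1644 a1001 i1524 a33 (k8 a42 a71 a561 a389 a340 a4 a35 a81 (k8 a118 a2767 i1683 a2062 a1692 a2774 i21 i517 (k8 i700 i959 a2770 a446 i190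 i1000 a120 a341 (k8 a402 a335 a67 a2041 a2473 a433 i1990 a1579 (k8 i2037 i703 i704 a46 i208 i1532 a1020 a1299 (k2 a121 i1725 (k1 a404 k0))))))))))) (by decide +kernel)
def a2776 : PP 8 4 T 0x1000000000000002002000000000000400100000000000405000500080100002000000000000000000 := rS 0x17f435dd3cfc6a3e95e205529abd5aab2c9456a7127b362e7b (k8 a418 a350 a1006 a74 i749 a201 a2727 i868 (k8 a97 a420 a427 a421 i1619 a466 a58 a73 (k4 a460 i2037 a394 i1946 (k2 a133 i1723 (k1 a404 k0))))) (by decide +kernel)
def a2777 : PP 8 4 T 0x2000000000000000000000000000000000000800000000002000000000000800000 := rS 0x1048645 (k4 a2624 i2452 i2492 a386 k0) (by decide +kernel)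
def a2778 : PP 8 4 T 0x802002000000000000000000000000000404000000080000002000000000000800000 := rS 0x65aee9ebda29a96c8340974a6af27964a2cd3d9550a57881dceb17 (k8 a350 a2751 a2777 a466 a58 a361 i1619 a418 (k8 a1006 a2727 i868 a74 a427 a421 a5 a45 (k8 a68 a108 a460 a116 i1988 a394 i1946 a1579 (k1 a2776 k0)))) (by decide +kernel)
def a2779 : PP 8 4 T 0x1002002000000000000000011000000000000010400080014100000000000000000000 := rS 0x24e867e6594c9ead8ba555655 (k8 i1619 a97 i1673 a350 a420 a74 a421 i546 (k4 i2037 a133 i1637 a447 k0)) (by decide +kernel)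
def a2780 : PP 8 4 T 0x2002000000000000000000000000001404000000000000002000000000000800000 := rS 0x854ae46930de28916840040521104c4016507cff0c508bd82735c31c4ec52e33a9e6b8aa75171889824a6af54ab5564d3c964de61288946a2b4fad4e24f669ecaa852b9f620773ac5ccc45 (k8 a2624 a2775 a350 a2751 a2777 a466 a73 a58 (k8 a361 i1619 a418 a1006 a74 i749 a201 a414 (k8 i898 i1116 i860 a2727 a397 i1008 i868 a353 (k8 i30 a97 a420 a450 a427 a421 a369 a2778 (k8 a406 a52 a347 a561 i547 a1950 i2046 a460 (k8 i1794 i1766 a275 a2779 a171 i1250 i1137 i821 (k8 a389 a35 a81 i2037 i2263 i545 i740 a386 (k8 i517 i700 i443 i1238 i190 a441 i1952 a120 (k4 a379 a382 a46 a2218 k0))))))))) (by decide +kernel)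
def a2781 : PP 8 4 T 0x2002000000000000000000000000001400000000000000002000000000000800000 := rS 0x5ed1504995d9fd02b7862fce6b88aa5d3718a7a18fa57882d62e6657aa4f6792c9bcc27127944ea77 (k8 a2777 a2751 a2727 a74 i749 a397 i1008 i868 (k8 a353 a418 a450 a427 a2775 a350 a201 a466 (k8 a58 a73 a2780 a20 a1001 a41 a71 a561 (k8 a2779 a171 i1457 a389 i857 a4 a35 i1683 (k4 i1144 i2045 a48 i1415 (k1 a2423 k0)))))) (by decide +kernel)
def a2782 : PP 8 4 T 0x2002000001000080055000000140002010000080000100100080155100000800040 := rS 0x5b26d069f1353874f14a2054e2f0e94d5e4f8cc357293 (k8 a1020 a171 a456 a25 a74 a427 a421 a341 (k8 a359 a67 a953 i2033 a2041 a419 a379 i1156 (k4 a26 i735 i1181 a108 (k1 i855 k0)))) (by decide +kernel)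
def a2783 : PP 8 4 T 0x2002000000000000000000000000000000000080000100100000800800001800000 := rS 0x83538a44c535793c389b (k8 i2803 i1080 a74 a427 a421 i1156 i254 i335 (k2 i2488 a564 k0)) (by decide +kernel)
def a2784 : PP 8 4 T 0x2002000000000000000000000011002014040080000102100080154000001800041 := rS 0x412654c9e780ed6e954dd085cd318b054ac561a8d8ee523080131989c362a2d (k8 i977 a417 a456 a112 a25 a369 i703 i704 (k8 a46 i1689 i1649 a354 a366 i208 i1534 i1532 (k8 a2782 a120 a393 i2803 a121 i855 a2783 a419 (k4 a217 a2041 i1112 a889 (k1 i924 k0))))) (by decide +kernel)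
def a2785 : PP 8 4 T 0x2002000000000080805000000100006010000080800100100080115140000800040 := rS 0x20d6e294dbc4209440a8d4e3d17874125327c661ab91bd3d76af (k8 a427 i1946 a394 i993 a171 a456 a25 a74 (k8 a421 a369 a341 a359 a335 a67 a99 a953 (k8 i2033 a1699 a2041 i1182 i1835 i855 a1898 a108 k0))) (by decide +kernel)
def a2786 : PP 8 4 T 0x2102000000000001100001000011002004040080000014100080014040001800049 := rS 0x88f5e03b1734c62c35283526c1a7b28d45529abc9eab8a8dc1e2d1ca24125d8c9f55a85 (k8 a1949 a420 a1978 a25 a172 a369 i190 a401 (k8 i977 i595 i993 a417 a97 a74 a427 a421 (k8 a2784 a460 i2037 a394 i1246 i1367 i465 a2241 (k8 a276 i1003 a2785 a120 a2783 a419 a365 a441 (k1 a1699 k0))))) (by decide +kernel)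
def a2787 : PP 8 4 T 0x2000000000000040000000010101202004040000000002000080554000000000001 := rS 0x954f509823161a8dca4610315e119 (k8 a25 a419 a49 i703 i704 a46 i1649 a354 (k4 i1532 i1533 a393 a217 (k2 a121 i1112 k0))) (by decide +kernel)
def a2788 : PP 8 4 T 0x2102000000000001100001000011002004040080000014100080014040001800009 := rS 0xbba7b28d4554c2f68a82408f5e0b71da95361c1707da60629abc9eab86c546e2d1ca24125d8c9f55a85 (k8 a1949 a420 a1978 a25 a172 a369 i190 a401 (k8 i977 i993 a417 a456 a97 a74 a427 a421 (k8 a2786 a402 i1301 a120 a377 i2803 i365 a2783 (k8 i855 a419 a365 i1235 a108 a48 i1415 i924 (k4 a2787 a460 i2037 a394 (k2 i1946 a1579 k0)))))) (by decide +kernel)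
def a2789 : PP 8 4 T 0x2002000000000080001000000000002014000080000102100080154100000800041 := rS 0x62a562b1dca461002546c31d3c54f19 (k8 a25 a67 a2041 a419 i373 a99 a369 i703 (k4 i704 a46 i1689 a366 (k2 i208 i1532 (k1 a2782 k0)))) (by decide +kernel)
def a2790 : PP 8 4 T 0x400000000000002002000000000081001400000000002015400080000114100080154100000800041 := rS 0x1774f351557b455b2054e535793e330d (k8 a456 a25 a74 a427 a421 a67 a953 a108 (k4 a116 i1988 a2789 a460 (k2 a394 i1946 (k1 a404 k0)))) (by decide +kernel)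
def a2791 : PP 8 4 T 0x400000000000002002000000000001001400000010002015400080000114100080154000001800041 := rS 0x53bc16e3b4d8b9a71989c362a2d (k8 i977 a417 a456 a112 a25 a2790 a120 i2803 (k4 a2783 i855 a419 a889 (k1 a2041 k0))) (by decide +kernel)
def a2792 : PP 8 4 T 0x2102000000000001100001000010002004000080040014100080010040001800009 := rS 0x14f53a013cc561adc620d1da6d44200e0b83ed3033057e83a19f90a9d29abc9eab89c362a37078b47289048ccbb19 (k8 a25 a172 i193 a369 i190 a401 i977 i595 (k8 i993 a417 a456 a112 a97 a74 a427 a421 (k8 a544 a1949 a2788 a133 i925 i1723 i1516 a2791 (k8 a402 i1301 a120 a377 a1066 a1913 i2803 a2783 (k8 i1647 i1652 i855 a276 a277 a217 a108 a889 (k2 a26 a950 k0)))))) (by decide +kernel)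
def a2793 : PP 8 4 T 0x2002000000000000000000000000000404000080040004002010000000000800000 := rS 0x254c69a4bd1574bf41a6514934ec597a9f88a10d65532b2e086157aa55aab2c86592511a9d4eecd8aae56a2b00a84ba02214652045 (k8 a2624 a2781 a25 a386 i700 a172 i2573 i959 (k8 a818 i884 a171 a417 i892 a2777 a2751 i1116 (k8 a2727 i1124 i1007 i868 a97 a420 a450 a427 (k8 a397 a2792 a385 a63 a72 a464 a460 a361 (k8 i1605 i1872 a466 a399 a19 a192 i1938 i924 (k8 i1608 a391 a29 i1903 a1886 a412 i1181 i2040 k0)))))) (by decide +kernel)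
def a2794 : PP 8 4 T 0x2000000000000004004000000005002000000000000000000000515040100000000 := rS 0xc413c662637 (k4 i993 a112 a25 i734 (k2 a262 a1043 k0)) (by decide +kernel)
def a2795 : PP 8 4 T 0x2002000000000000000000000000000404000080040000002010000000000800000 := rS 0x4dad9288160a9da41d178e906994524d3aa318a953f1661830446b3288622562e8cd1239168094237210ac12535793d5619649444a353a9de331366b3d210d8aae56a45 (k8 a2624 i884 a171 a417 a456 a2781 i1149 i892 (k8 a112 a25 a2777 a2751 i1116 i860 a2727 i1124 (k8 i1007 a97 a74 a427 a421 a369 a818 a386 (k8 i993 i2573 i700 i977 a401 i190 i193 a172 (k8 a2793 a58 i1498 i1579 i507 i442 i441 a1034 (k8 a466 a680 a164 i1002 i1647 a399 a19 a388 (k8 i1938 i924 a2794 a2783 i718 a120 i334 i1574 (k4 a953 i2033 a108 a2249 (k1 i855 k0))))))))) (by decide +kernel)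
def a2796 : PP 8 4 T 0x10002002000000000080000000000000000040000000000000000004440000000000000 := rS 0x7 (k2 a402 a2228 k0) (by decide +kernel)
def a2797 : PP 8 4 T 0x402102000000000001100010000100800004000000044014000020000241000000002 := rS 0x10b0d26854e90c1e23 (k8 i185 i338 i21 a544 a1949 i1450 a2699 a2700 (k1 a2701 k0)) (by decide +kernel)
def a2798 : PP 8 4 T 0x402002000000000001100010000100800004000000044114000020000241000000002 := rS 0x72031871142084d6478208c1ec57809c5245 (k8 a2624 a443 a331 a127 a49 i338 i185 a2797 (k8 a451 a464 a686 a2708 a361 i1867 a772 a107 (k1 a392 k0))) (by decide +kernel)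
def a2799 : PP 8 4 T 0x2002000000000000000000000000000404000080040000002000000040000800000 := rS 0x13a9f8b1accb112b1756c9a4ba654a2c41a80c6d31f8f5e03730abd525964894ea778cb359f0d5c8a43e510e8011713480ec4e40 (k8 a2795 a331 i1156 a2781 a112 a175 i740 i2494 (k8 a2727 i183 a443 a171 a456 i1149 i892 a25 (k8 a2777 a2751 i860 i1124 i868 a450 a427 a397 (k8 i993 a127 a365 a6 a2796 a2753 a377 i2616 (k8 i822 i363 i1111 i1243 a336 i1180 i1930 a2798 (k4 a58 i1579 i507 a466 (k2 a680 a399 (k1 a388 k0)))))))) (by decide +kernel)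
def a2800 : PP 8 4 T 0x2102000000000000001001000050000000040000000014100000000001550004040 := rS 0xaacb06290fa092993d5aab (k8 a97 a420 a74 a421 a369 a1978 i2030 a2241 (k2 i465 i1489 (k1 i2037 k0))) (by decide +kernel)
def a2801 : PP 8 4 T 0x12002000000000000001001000050000000040000000014100020000001110000040 := rS 0x88b9608232993c3e0f (k8 i338 i183 a74 a421 i185 a2800 a1812 a1778 (k1 a107 k0)) (by decide +kernel)
def a2802 : PP 8 4 T 0x402000000000000005100000000000000444000500040008000000000000000000000 := rS 0x13a9f8b1accb11 (k4 a58 i1579 i508 a466 (k2 a680 a399 (k1 a388 k0))) (by decide +kernel)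
def a2803 : PP 8 4 T 0x2002000000000080000001000000002004000080000014100020000001100800000 := rS 0x20d307e31a8d42c103c3452270e8011713 (k8 a112 a175 i740 i2494 a331 a443 a456 a402 (k8 a44 a344 a99 i447 a2801 a2697 i925 i1111 k0)) (by decide +kernel)
def a2804 : PP 8 4 T 0x2002000000000000000000000000000404000080040000002000000000000800000 := rS 0x991620d40636995c422a458743e405ac34b2c928894ea7789b359e90 (k8 a2781 i1149 i892 a112 a2777 a2751 i860 a2727 (k8 i1124 i868 a456 i884 a2795 i183 i2494 a175 (k8 a2799 i902 a2802 a2803 a2753 a377 i2616 i822 (k2 i1111 a2702 k0)))) (by decide +kernel)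
def a2805 : PP 8 4 T 0x10002002000000000080000004000000000000000000000100100000140000000800000 := rS 0x9c748278a054e070e94d5e4f (k8 a74 a427 a421 a341 a402 a67 a949 a2041 (k4 a108 a419 i735 i1156 k0)) (by decide +kernel)
def a2806 : PP 8 4 T 0x2100000000000001101000000000014014000000041115000002814500080004000 := rS 0xa518a8d8a23354410ab9 (k8 a1575 a1949 a362 a460 a9 i1790 i240 i1159 (k2 i1386 i2033 k0)) (by decide +kernel)
def a2807 : PP 8 4 T 0x2002202000000000001000000000000000004000000040000002000000008000000000 := rS 0x8b2e12645 (k4 a2624 a115 a853 a678 (k1 a465 k0)) (by decide +kernel)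
def a2808 : PP 8 4 T 0x2002000000000000000000000000000404400000040004002010000000010800000 := rS 0xa551b948c202a50d827e3eae60a3c1d2d44c1e56b24e2353a9dd9a990796466954ba4e28d31c8dc5a89048bd366f30a9d423f86c4c56802897404428cabca64f5b9cd2045 (k8 a2624 a2781 a2804 i854 a74 a421 a427 a25 (k8 a386 i700 a172 a2727 a108 a818 a112 a1590 (k8 a1022 i821 a889 a397 i1008 a947 i1079 a369 (k8 i190 i1000 i993 a401 a2805 a120 a115 a24 (k8 a14 i193 i868 i595 i1110 i892 a2777 a2751 (k8 i1116 i749 i1124 a420 a377 a2717 a702 i734 (k8 i1769 a2807 a1575 a1978 i2044 i1305 a133 a2806 (k4 i703 i704 a46 i1650 (k2 i208 a393 k0))))))))) (by decide +kernel)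
def a2809 : PP 8 4 T 0x2002000000000000000000000000000404400000040004002010000000000800000 := rS 0x88ec78280e2007f0d29abd524f0cc4d329731c51a65d1c8dc56b78ca40a22d30a240442048bce645 (k8 a2624 a2804 i1079 a369 a386 i700 i190 a397 (k8 i1000 a2727 a2781 a25 i854 a818 i993 a401 (k8 a172 a2805 a120 a51 a24 i1110 a112 i1007 (k8 a74 a450 a427 a421 a1590 a1022 a108 a2808 (k4 i1236 i1235 i254 i1835 (k1 a1744 k0)))))) (by decide +kernel)
def a2810 : PP 8 4 T 0x10012002000000000040000004000010000000800000000000100000140000010800000 := rS 0x1e23b5381c4e1e (k4 a377 i735 i1301 i243 (k2 i1156 a2041 (k1 a419 k0))) (by decide +kernel)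
def a2811 : PP 8 4 T 0x2002102000000000000000000000000000400040040040004002000000000000800000 := rS 0xfab55cab4b2c937984e24f3a9dd2a93 (k8 a115 a14 a2777 a2751 a74 i749 a397 i1008 (k4 i1124 i868 a420 a1575 (k2 a1692 a1978 (k1 i2044 k0)))) (by decide +kernel)
def a2812 : PP 8 4 T 0x2002000000000000000000000000000404000000040004002010000000000800000 := rS 0x44571043fa08a67749c51a65d1c8dc56b78ca40a22d30a240442048bce645 (k8 a2624 a2804 i1079 a369 a386 i700 i190 a397 (k8 i1000 a2727 a2781 a25 i854 a818 i993 a401 (k8 a172 a2805 a120 a115 a2777 a421 a2809 i925 (k4 a2811 a853 a1778 a2352 k0)))) (by decide +kernel)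
def a2813 : PP 8 4 T 0x2002000000000000000000000000000404000000040000002010000000000800000 := rS 0xb932b2e22564998d2b14699745a891c8086e4215824c2a956aad92513a9de32b7480bce645 (k8 a2624 a2804 i1079 a2781 i854 a25 a2777 a2751 (k8 a2727 i1124 a97 a420 a450 a397 a369 a818 (k8 a386 i993 i700 a401 i190 i1000 a172 a2805 (k8 a120 a14 a51 a115 a2812 a58 i505 i1579 (k2 a2352 i2040 k0))))) (by decide +kernel)
def a2814 : PP 8 4 T 0x402002000000000080000000000000100040000000000000000000000014000800002 := rS 0x4ba6c6c39153c4c6a71e81c5a6157aa4363b (k8 i1156 i66 a450 a427 a397 a329 a402 a335 (k8 a67 i447 a2041 a127 i294 i899 a828 i1777 (k1 a336 k0))) (by decide +kernel)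
def a2815 : PP 8 4 T 0x2002002000000000000000000000000000404000000040000002000000000000800000 := rS 0x88ae208932995d9ecd3b9d5927f8634d1600138a533134807ca21d2013d4273 (k8 a2804 i821 a74 a2813 i741 a2727 i183 a2781 (k8 a112 i1110 a443 a331 i740 a175 a2814 a377 (k8 a35 i1124 a2751 a2777 i892 i1149 a2802 a421 (k4 a115 a2811 a853 a1778 (k1 a2352 k0))))) (by decide +kernel)
def a2816 : PP 8 4 T 0x402102000000000001100000000000800004000000044014000020000241000000002 := rS 0x2957261 (k4 a397 a1575 i1383 a2797 k0) (by decide +kernel)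
def a2817 : PP 8 4 T 0x2202000000000000000000000000000444040000000000002000000000000800000 := rS 0x4ea7e2d1129b24a2753bc4d9a90 (k8 a2781 i892 a112 a2777 a2751 a2727 i1124 a421 (k4 a1778 a466 a680 a399 (k1 a192 k0))) (by decide +kernel)
def a2818 : PP 8 4 T 0x11402102000000000041100000000800100044000000040014000020000441000000002 := rS 0x2c31a691297a29855ea9 (k8 a450 a427 a397 a410 i1898 i283 a967 i448 (k2 a120 a2816 k0)) (by decide +kernel)
def a2819 : PP 8 4 T 0x11402102000000000041100004000010100044000010040014000020000441040000002 := rS 0x16a24c69a4bd1504a71f8f5e06157aa4522740c303a4f (k8 a74 i741 a377 a4 a331 a443 a450 a427 (k8 a397 a127 a365 a6 a2818 i2031 a48 i1375 (k4 a967 a412 i1443 a2816 (k1 a120 k0)))) (by decide +kernel)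
def a2820 : PP 8 4 T 0x1002000001000000001004001000050442025550040000000000000000001550000000 := rS 0xc772a918ac1a7af07ebb5f8f688b7 (k8 i854 a1895 i1346 a18 a29 a80 i2047 a128 (k4 i1252 i1795 i2030 a382 (k2 i414 a379 k0))) (by decide +kernel)
def a2821 : PP 8 4 T 0x2102000000000000002000000000000000050000000014100000000000100004000 := rS 0xa80c6591dca5356aad6a4f (k8 a74 a1692 a97 a420 a421 a408 i1533 i1246 (k2 a425 i2037 (k1 i1489 k0))) (by decide +kernel)
def a2822 : PP 8 4 T 0x1002102001000000045104000000010002044400040040014100000584501550004004 := rS 0x9f35995880c1e019489651a6d10814ead49e85609fcfb0c (k8 a377 a340 a35 a2821 a1949 a74 a1692 a544 (k8 a4 a120 a828 i280 a2820 i2030 a2800 i1777 (k4 i1380 i1386 i1492 i468 (k2 i1526 a388 k0)))) (by decide +kernel)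
def a2823 : PP 8 4 T 0x2002000000000000000011000000000440050040000000002000184200000800010 := rS 0x25134934b98d5ea937984e24f3a9dd3290 (k8 a2781 i1110 a2777 a2751 a74 i749 a397 i1008 (k8 a450 a427 i1238 i1244 i1242 a336 i2044 i2668 k0)) (by decide +kernel)
def a2824 : PP 8 4 T 0x2002000000000000000000000000000404000000040000002000000000000800000 := rS 0x4bd15049b16b0c6c3910bc454335aae60b153f9f618d31195c760345814000f0e87c4e43149005ea14cadce66157aa4b2c93893ca21b129d4ef1989b359e90 (k8 a2781 i1149 i892 a112 a25 a2777 a2751 i860 (k8 i66 a2727 a74 i749 i1124 i868 a450 a427 (k8 a397 a2804 i854 i1110 i821 i1079 a2813 a443 (k8 i21 a331 i183 i741 i338 i740 i260 a175 (k8 i999 i1156 a2802 i185 a2814 a377 a340 a35 (k8 a2815 a2817 a1575 a1692 a2770 a2819 a61 i902 (k8 i294 i899 i371 a2823 a828 a2822 a48 i1375 (k1 a967 k0)))))))) (by decide +kernel)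
def a2825 : PP 8 4 T 0x2002000000000081000010000001002018000000000100100000114140000800000 := rS 0x528c58c9549a64742614af57c9a41bc56ca353b040e2f8cc4c6ec5 (k8 i1524 i993 a112 a25 a359 a402 a44 a67 (k8 a99 a2805 a2041 i151 i855 i857 i1988 i1928 (k8 a127 a419 i1111 i1450 i1726 i738 i1159 i415 (k1 i2033 k0)))) (by decide +kernel)
def a2826 : PP 8 4 T 0x1000000000010002002000000000044010101000101200008050000000010100080554000000000001 := rS 0x2553d42608c586a372918405465aeca64f56aae9e57 (k8 a387 a20 a97 a420 a74 a421 i1683 a1579 (k8 i2037 i703 i704 a46 i1649 a354 i1532 i1533 (k4 a393 a262 a121 i1112 k0))) (by decide +kernel)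
def a2827 : PP 8 4 T 0x2002000000000000000000000000000408000080000000002080004040000800001 := rS 0x186314fa897e7e5ea628a823ea04463d63bc16e3b528703e2e69ad5731529abc9e590c9446acd67a74ee3762a847289048b4c25d014652045 (k8 a2624 a2781 a25 i700 a172 a397 i1000 a369 (k8 i190 a401 i2573 i1524 i993 a2777 i1644 i1149 (k8 i892 i1116 a2727 i1007 i868 a74 a427 a421 (k8 a417 a171 i884 a2825 a120 i238 i1080 i365 (k8 a2783 i2479 a419 a1190 a365 i1703 i1235 i1234 (k8 a108 a48 i924 i1415 a2826 i1724 a1913 i1113 (k2 i1652 i329 (k1 a262 k0)))))))) (by decide +kernel)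
def a2828 : PP 8 4 T 0x12000000000000040000000010410502018000000000010010084114540010800000 := rS 0x2e54aa382b958c201d0983c374aa5d2714 (k8 a120 a115 a24 a14 i993 a377 a2717 i734 (k8 i737 i738 a46 a957 i1650 i414 a2475 a2718 k0)) (by decide +kernel)
def a2829 : PP 8 4 T 0x2002000000000000000004000010102018400004000110110080114540001800000 := rS 0x44763c14071003f53a6e1a5330abd524f56c4d2e638a34c6f19 (k8 a25 i993 a2805 a120 a51 a24 a112 a420 (k8 a74 a450 a427 a397 a421 a1590 a947 a889 (k8 a1022 a108 a2828 a564 i1235 i254 i1835 a1744 k0))) (by decide +kernel)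
def a2830 : PP 8 4 T 0x2002000000000000000000000000000400040000040000002010000000000800000 := rS 0x1115c410a6772ba4e28d35b9746e398ca40a22f398cc022b43224122d01108c245 (k8 a2624 a397 a386 i700 i1000 a369 i190 a2824 (k8 a818 i959 i193 a2827 i1079 a2727 a2781 a25 (k8 a401 i993 a172 i854 a2805 a120 a115 a387 (k4 a2777 a421 a2811 a853 (k2 a1778 a2352 k0))))) (by decide +kernel)
def a2831 : PP 8 4 T 0x2002000000000000000000000000000400000000040000002010000000000800000 := rS 0xc586a2528ed3e1c5eae84ebfa1c356a7ea2a092b14698bd32b7399745a33448e404a1628dc0242158249a590c9bcc2511ac659e904ea18ee45 (k8 a2624 a2777 a2824 i1644 a2781 i1149 a25 i1116 (k8 a2727 a397 i1008 i1007 i868 i30 a369 a818 (k8 a386 i959 i993 i1524 i2573 i700 a401 i190 (k8 i193 i1000 a172 a2827 i854 i1110 i1079 a2805 (k8 a120 a14 a2829 a48 a2830 i102 a35 a133 (k8 i1724 i2489 i926 i1415 a2810 a856 i1156 i1381 (k4 i720 i1945 i1652 a262 k0))))))) (by decide +kernel)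
def a2832 : PP 8 4 T 0x2000000000000004104000000001000040000000040000000020080000200000002 := rS 0x4f9accac70611c8627 (k8 a331 i21 i1530 i744 i1690 i963 i468 i997 (k1 a388 k0)) (by decide +kernel)
def a2833 : PP 8 4 T 0x12002000000000084100001000001002008000000040010100020000001000800000 := rS 0x30721918e6b4fae97e7e6288586b71b0a9049b1cbc530a350a9d820757c669e57148749e0045c4c7627 (k8 a331 i1156 a112 a175 i740 a74 i741 a443 (k8 a387 a20 a25 a427 a402 a44 a67 a344 (k8 a99 a2814 a2763 i1936 i154 i1111 a127 a419 (k8 i855 i371 a2832 i1523 a2801 i1724 i926 i1113 (k4 i1946 i1679 a388 a379 (k2 i962 a459 k0)))))) (by decide +kernel)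
def a2834 : PP 8 4 T 0x2002000000000000000000000000000400000080040000002000000000000800000 := rS 0x39060c15199196213f2f92abd49ad903454d25d8e3d780ad32bb528fc58835018da6b55cc355ea956aacb2c9379844acfa7a750c771490c4e1f288749e00459022690 (k8 a2781 a112 a2831 a175 i740 a74 i741 a2727 (k8 i183 a331 i21 a443 a2777 a2824 i1644 a20 (k8 i1149 i860 a397 i1008 i1124 i868 a97 a420 (k8 a450 a427 a456 a171 i884 a2833 a2753 a377 (k8 i2616 i822 a2698 i363 i1684 i1111 a2702 a127 (k8 a365 a27 i1243 a336 a111 i1336 i1180 i1450 (k8 i1417 i1182 a982 i856 a2700 a1579 i2040 i1719 (k4 i1515 i962 a2168 a459 k0)))))))) (by decide +kernel)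
def a2835 : PP 8 4 T 0x2002000000000000000000000000000400400000040000002000000040000800000 := rS 0x95498b1351519ae51297a2c154cb529b24de61389d4ee570286c5eb73ea05767f8634d320045a84e61f288749e861e8fde029139022690 (k8 a2781 a112 a2831 a331 a443 a127 a6 a365 (k8 a2824 a74 i741 a2727 i183 a2834 i821 a175 (k8 i740 i1110 a2814 a377 a35 i1683 a4 a340 (k8 i854 i1080 i66 i260 a387 a2777 a2751 i749 (k8 a397 i1008 i1124 a421 i933 i2031 a924 a410 (k8 i1898 i283 a1575 a2770 a2811 a1886 a120 i1242 (k2 i1182 i2044 k0))))))) (by decide +kernel)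
def a2836 : PP 8 4 T 0x2102000000000000000000000000800400000000040000002000000000000800000 := rS 0xb55c965926f309c4ea573ea4d3a774aaecff0c69a64002714a2e2690509cc3e510e9009e86 (k8 a2824 a74 a2831 i741 a2727 i183 a2834 i821 (k8 a2781 a112 a175 a443 a331 i740 i1110 a2814 (k8 a377 a35 i1683 i1182 a2777 i1644 i1450 a340 (k8 a387 a2751 i749 a397 i1008 i1124 i868 a1575 (k2 a1692 i2044 k0))))) (by decide +kernel)
def a2837 : PP 8 4 T 0x2002000000000000000000000000800400000000040000002000000000000800000 := rS 0x2e2226565c112a933194cc2a956aad929d3baecff0c69a64002714a2e2690509cc3e510e9009e86 (k8 a2824 a74 a2831 i741 a2727 i183 a2834 i821 (k8 a2781 a112 a175 a443 a331 i740 i1110 a2814 (k8 a377 a35 i1683 a2777 i1644 i1124 a97 a420 (k8 a450 a397 a421 a412 i1450 i1182 a2836 a385 (k4 a63 a1778 i2040 a2352 k0))))) (by decide +kernel)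
def a2838 : PP 8 4 T 0x2002000000000000000000000000000400400000040000002000000000000800000 := rS 0x31dca3f5201946c560a20422d8a8cd72c31b0e5e305152d4a6612cb259f4f4e9dc1e250286c4657430bcfa7f8634d3200138a5171348284e61f28874804f (k8 a74 a2831 i741 a2727 i183 a2834 i821 a2781 (k8 a112 a175 a443 a331 i740 i1110 a2814 a377 (k8 a35 a340 i1080 a2824 a387 i185 i66 i260 (k8 i860 i338 a2777 i1644 a20 i1149 i1124 i868 (k8 a397 a421 i933 a2835 a924 a61 i294 i899 (k8 i371 a1575 a2770 a2811 a2823 a2832 a120 a2821 (k8 i1523 i280 a2800 i2030 a458 a382 i414 a379 k0))))))) (by decide +kernel)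
def a2839 : PP 8 4 T 0x2002000000000000000000000000000400000000040000002000000000000800000 := rS 0x4bd15049b4c9cd164030abd527127c662690 (k8 a2781 a112 a25 a74 i749 a450 a427 a397 (k8 a2831 a175 a2834 i1110 a2837 a2838 a48 i1375 (k1 a967 k0))) (by decide +kernel)
def a2840 : PP 8 4 T 0x2002000000000000000000000000000400000000000000002000000000000800000 := rS 0x52281a69960a4e870d3f28dcacb06084001d0f8a480434580c4e5c3e95d0a87882d4d6554aa7e2e6667b362719481dcea2529ab556593893ca245 (k8 a2624 a2727 a74 i749 i868 a97 a420 a421 (k8 i860 a2751 a2777 a2781 a25 a112 i892 i1149 (k8 a2839 a350 a414 i1673 i1619 i548 a201 a466 (k8 a2722 a361 a58 a73 a460 i1766 a172 a2725 (k8 i700 a386 a443 i183 i741 i740 i743 i449 (k8 i2263 a392 i1647 i2037 a35 a133 i1637 i1515 (k4 a701 a2814 a377 a393 (k1 i363 k0)))))))) (by decide +kernel)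
def a2841 : PP 8 4 T 0x802002000000000000000000000100201404000180040000002000000000000000000 := rS 0x38c8334a441269e4eb3cfb05669519251201de1ab569a5d0ac7530fc56a00481c5a1145abc083d179c49e880d05c3245 (k8 a2624 i1007 a2840 a437 i835 a74 i749 i318 (k8 i1786 i748 a427 i1938 i523 i976 i520 a369 (k8 i834 a8 i402 a1811 i2166 a77 i84 a344 (k8 i884 a456 i752 i747 a2727 i1124 a2730 a330 (k8 a72 i1542 a2062 a544 a2401 i1718 a2302 i1112 (k4 i1711 a2641 a2627 a1908 k0)))))) (by decide +kernel)
def a2842 : PP 8 4 T 0x2002000000000000000000000000000020000280000010002020000000400001040 := rS 0x51b048e7c49958e24f (k8 a74 i749 i1011 i1590 i1096 i1577 i1344 i1593 (k1 a2640 k0)) (by decide +kernel)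
def a2843 : PP 8 4 T 0x2002000000000000000000000000201404000080040000002000000000000000000 := rS 0x4fc159abf1f951488515c48bab6579e5925186a80ea0716a201a230210034170c9650645 (k8 a2624 i923 i868 i1007 a2840 a437 i747 i748 (k8 i2137 i521 i835 i976 i520 a2842 i834 a456 (k8 a2727 i1124 a353 a427 a2740 i1930 a2736 a8 (k8 a77 a2841 a2730 i402 i1451 a330 a72 i1113 (k1 a2401 k0))))) (by decide +kernel)
def a2844 : PP 8 4 T 0x1802002000000000000000000000020500020004000000000100000000000000000060 := rS 0x4bd1632b61fa045653 (k8 a421 a8 a45 i402 a2265 a2671 a116 i1901 (k1 a422 k0)) (by decide +kernel)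
def a2845 : PP 8 4 T 0x2002000000000000000000000000001404000080040000002000000000000000000 := rS 0xb62e46226994dabcf67928c554075038b5100d11810801a0b864b245 (k8 a2624 i868 i1007 a2840 a437 i747 i748 i2137 (k8 i521 i835 i976 i520 a2842 i834 a417 a2727 (k8 a353 a418 a427 i1179 a2843 a2844 a406 a2736 (k2 a2677 i1930 k0)))) (by decide +kernel)
def a2846 : PP 8 4 T 0x2002000000000000000000000000002000000080000000000000000000008400020 := rS 0x3f538f42238150dc12af502200e2d (k8 i976 i520 i835 i834 a427 a369 i992 i912 (k4 i913 i524 i1347 i2165 (k2 i2179 a1811 k0))) (by decide +kernel)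
def a2847 : PP 8 4 T 0x2002000000000000000000000000000400000080040000002000000000000000000 := rS 0x6516232941e93a1a5582a361894fcbe1e8447cb64ba2d3f1862c4e9ebb4320d2207442805ab98a8255ead559ecf240109dc1a040d05c3245 (k8 a2624 i1007 a2840 a437 i748 i521 i752 i2504 (k8 i747 a353 a418 a97 a420 a427 a369 a417 (k8 a171 i976 i834 i835 i520 a2846 i923 a2845 (k8 i1684 a20 a69 i1523 a406 a33 a52 a71 (k8 a2677 a2671 i523 i1346 i857 i856 i2593 i2225 (k8 i407 i1426 i1725 a133 i1637 i338 i363 a1700 (k2 a447 i264 (k1 a360 k0)))))))) (by decide +kernel)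
def a2848 : PP 8 4 T 0x22002000000000000000000000000001404000000040204002000000000000000000 := rS 0x821d59a7f8c44cf679 (k8 a353 a418 a2220 a406 a35 i1971 i1011 a2737 (k1 a2767 k0)) (by decide +kernel)
def a2849 : PP 8 4 T 0x20402002000000000080500010000000000004000000040000000400010014000005000 := rS 0x820cdcaa4618a9e2a353b040e09 (k8 a369 a402 a44 a67 a99 a2041 a127 i372 (k4 a2108 a382 i289 a2241 (k1 a1713 k0))) (by decide +kernel)
def a2850 : PP 8 4 T 0x20402002000000000040000000000000200000000000000000000000000454000400020 := rS 0x2200e3f16bc06f15 (k8 a57 a1577 a127 i980 a6 i520 a120 a2671 k0) (by decide +kernel)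
def a2851 : PP 8 4 T 0x1002102000000000000104000000000000000000000000000000409000500000015040 := rS 0x180a362a9412ab (k4 a97 a369 a2241 a277 (k2 a1695 a2092 (k1 i1426 k0))) (by decide +kernel)
def a2852 : PP 8 4 T 0x22002000000000000000000000000001404000000040004002000000000000000000 := rS 0x174eb13 (k4 a2220 i1011 a2848 a2736 k0) (by decide +kernel)
def a2853 : PP 8 4 T 0x2002000000000000000000000000201404000000040000002000000000000000000 := rS 0x7432c100e3e16a9d86f11534d72476583e22568c44d4211860f51715a2abcf6c937984a22f3893c4e293c88c6a403b834081a0b864e645 (k8 a2624 a2847 i1007 a2840 a437 i748 i521 i752 (k8 i747 i2210 i2137 a353 i275 i2505 a74 i749 (k8 i318 a2727 a397 i1008 i1124 a418 a427 a433 (k8 a57 i1938 i1786 a389 i523 a413 a2220 a406 (k8 a2852 a58 i501 i505 i1577 a2352 a2849 a2850 (k8 a61 i372 i332 i981 a442 i520 a2851 a63 (k2 a2262 i1010 k0))))))) (by decide +kernel)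
def a2854 : PP 8 4 T 0x802002000000000000000000000000001404000000040004002000000000000000000 := rS 0x17a9e66ad4ea5964a168ab628a04a7058a434e66f309c49e77 (k8 i752 a74 i749 a397 i1008 a2847 a2220 a389 (k8 a2685 a421 a45 a2727 a2265 a116 a77 i1124 (k4 i868 i1011 a1692 a2010 (k2 a2401 i1988 (k1 a2692 k0))))) (by decide +kernel)
def a2855 : PP 8 4 T 0x802002000000000000000000000000001404000000040000002000000000000000000 := rS 0x7da1ad544a060b4dc8255291cfecb07c44ac078298e290d04ab55671279443a1f3798446403b834081a0b864e645 (k8 a2624 a2847 i1007 a2840 a437 i748 i521 i752 (k8 i747 i2137 a397 i1008 i271 i2503 a2727 a74 (k8 i749 a97 a420 a369 a2220 a389 a51 a2685 (k8 i519 a2854 a58 i501 i505 i1665 i1577 a2241 (k8 a1086 a425 a1719 a408 a377 a1834 i880 a395 (k2 i1593 a403 k0)))))) (by decide +kernel)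
def a2856 : PP 8 4 T 0x402000000000000004014000000005000004000000000000000000515044000400000 := rS 0x18e37 (k2 a1577 a275 (k1 i2035 k0)) (by decide +kernel)
def a2857 : PP 8 4 T 0x1000000000001502102000000000040100000000015400004000000040000000401510404100414020 := rS 0x2d038f94ef1150c466c312b159e0d (k8 i521 a2062 a277 a1086 a276 a1574 a1332 a2856 (k4 a61 i332 a442 a458 (k2 i1423 a2851 k0))) (by decide +kernel)
def a2858 : PP 8 4 T 0x2002000000000000000000000000001404000000040000002000000000000000000 := rS 0x3a19608d31ed148ecb07c4504565ba8502b986044c5154ba7516394da7e31134cabd52c937984a21d108ecf62f3893c4e293c88c6a403b834081a0b864e645 (k8 a2624 a2847 i1007 a2840 a437 i748 i521 i752 (k8 i747 i2210 i2137 a353 i275 i2505 a74 i749 (k8 i318 a418 i395 i2504 i2503 a2727 a397 i1008 (k8 i1124 a450 a427 a2853 a2855 a406 a33 a41 (k8 a42 a52 a347 a71 a561 a260 i523 a389 (k8 i1406 a4 a413 a118 a2852 i2045 a58 i501 (k8 i505 i1577 a48 i1255 a2849 a2857 a63 a2262 (k1 i1010 k0)))))))) (by decide +kernel)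
def a2859 : PP 8 4 T 0x2102000000000000000000000000014400040000040004002000000000000000000 := rS 0x7d5aae55a59649bcc271279dce675 (k8 i1011 a2847 i752 a74 i749 a397 i1008 i1124 (k4 i868 a420 a1575 a1692 (k2 a1978 i2044 k0))) (by decide +kernel)
def a2860 : PP 8 4 T 0x12002000000000000000000000000000404000000040004002000000000000000000 := rS 0x44571043fa094c071e8fd26634ba2628950494d5e6f309c49e513b9cc5438088dd20040d05c3245 (k8 a2624 i1007 a2840 a437 i748 a2858 i992 i524 (k8 i913 i912 a2847 i752 a2727 a74 i749 a397 (k8 i1008 a427 a421 a369 a2354 a389 a337 a24 (k8 a51 a115 i296 i1877 i519 a1811 i333 i925 (k4 a2859 a853 a1778 a2352 k0))))) (by decide +kernel)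
def a2861 : PP 8 4 T 0x1002102000000000080000000000000000404000000040004002000000000000000000 := rS 0x791d3c334a24d343e518f40e2d04abc767b179c49e0d1c0446e0478b0c54900d05c327f862759245 (k8 a2624 i1124 a544 a2860 a35 i1007 a2840 a437 (k8 a2858 i912 i372 a61 i748 i992 i524 i913 (k8 i521 a74 i749 i318 a418 i395 a427 a369 (k8 a329 a402 a335 a99 a1917 i297 i1450 a2859 (k4 i1671 i1181 i264 a1888 (k1 a2851 k0)))))) (by decide +kernel)
def a2862 : PP 8 4 T 0x1002102000000000000000000000000000404000000040004002000000100000000040 := rS 0x791d3c334a24d34a31f0f412af1d9ec5e712783470111b811e2c33fa9d430c1524034170ca759245 (k8 a2624 i1124 a544 i1007 a2840 a437 a2858 i912 (k8 a2860 a413 i332 a35 i372 a61 i748 i992 (k8 i524 i913 i521 a74 i749 i318 a418 i395 (k8 a427 a369 i1878 a1811 i2180 i297 i1450 a2859 (k4 i1671 i1181 i264 a1888 (k1 a2851 k0)))))) (by decide +kernel)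
def a2863 : PP 8 4 T 0x2002001000000040004000000100000000000000000000000002000000000018040 := rS 0xbd35b2d5ead (k4 a420 a427 a2021 a1421 (k2 a1921 a1923 k0)) (by decide +kernel)
def a2864 : PP 8 4 T 0x1002102000000000000000000000000000404400000040004002000000000000000040 := rS 0x63b969e305e2517e936083d763c528fcc689160255e51108359ab7088dc08f1619f5027f53a86182a5c9850ab52c93d8a9d648e1201a0b865a645 (k8 a2624 a2861 i1007 a2840 a437 a2858 i913 i1124 (k8 a544 i1879 a74 i868 a1692 a1949 a397 a1575 (k8 i912 a2860 a413 i332 a35 a4 a340 i372 (k8 a61 i748 i992 i524 i2591 i892 i521 i2504 (k8 a2727 a427 a369 a2862 i68 i1237 i1424 i1383 (k8 a1811 i1787 a2863 a2821 a1070 i1259 a2859 i2047 (k4 i978 a128 a459 i1692 (k1 a379 k0)))))))) (by decide +kernel)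
def a2865 : PP 8 4 T 0x2102000000000040000000000000000400040000040004002000000000000008080 := rS 0x1269519b945e71278d4808900a941a040d05c3245 (k8 a2624 i1007 a2840 a437 i748 i521 i1380 i958 (k8 i1341 i747 i2210 a74 i749 i318 a424 i2167 (k2 a1908 a1020 (k1 a2859 k0)))) (by decide +kernel)
def a2866 : PP 8 4 T 0x2102000000000040000000000000000400050000040004002000000000000000080 := rS 0x8ee51825126c1078b0b251008841a040d05c3245 (k8 a2624 i1007 a2840 a437 i748 i521 i2504 i958 (k8 a2727 i868 i520 a2865 a2821 i1241 a2859 i978 (k2 a459 i1532 (k1 a425 k0)))) (by decide +kernel)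
def a2867 : PP 8 4 T 0x1002102000000000000000000000000000404000000040004002000000000000000000 := rS 0xf47e821601da609578742237021f4fea750c3054900d05c3245 (k8 a2624 i1007 a2840 a437 a2858 i912 a2860 a413 (k8 i332 a35 a340 i748 i992 i524 i2503 a427 (k8 a369 a2861 a2866 a2862 a2864 i1424 i1255 a1811 k0))) (by decide +kernel)
def a2868 : PP 8 4 T 0x402202000000000001004000000000000404040500000000100000200000000011000 := rS 0x1889d63c593f113591c1e53 (k8 a421 a17 a451 a464 a1778 a680 a466 i299 (k2 a399 a132 (k1 i1879 k0))) (by decide +kernel)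
def a2869 : PP 8 4 T 0x2002000000000000000000011000000000400050504000000000000000000000000000 := rS 0x92 (k2 a2033 a115 k0) (by decide +kernel)
def a2870 : PP 8 4 T 0x2002000000000000000000000000000404000000040004002000000000000000000 := rS 0x1145aae60a7f3ec30ea4f2cb24de61289dc1b13668e022370230c54900d05c3245 (k8 a2624 i1007 a2840 a437 a2858 i912 i372 i748 (k8 i992 i524 i913 i892 a112 i521 i752 a2727 (k8 a397 i1008 i1124 i868 a74 i1011 a2860 a340 (k4 a35 a2868 a1575 a1692 (k2 a2867 a2869 k0))))) (by decide +kernel)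
def a2871 : PP 8 4 T 0x10002100000000000000100000000000000000000000440000000400440000000015000 := rS 0x33 (k2 a1574 a1189 k0) (by decide +kernel)
def a2872 : PP 8 4 T 0x2002000000000000000000000000000404000000040000002000000000000000000 := rS 0x1d0cb043591cfe0f2b30c2238150dd9b138ca4156c9288ecf623201dc1a040d05c3245 (k8 a2624 i1007 a2840 a437 i748 i521 i752 i747 (k8 i2137 a418 i395 a2727 i1124 a97 a2858 a25 (k8 a112 i892 i992 i912 i913 i524 i372 a2870 (k8 i501 i1665 i1577 i508 a2871 a63 a2868 i1010 k0)))) (by decide +kernel)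
def a2873 : PP 8 4 T 0x20022102000000000000000000000000000400000000040000002000000000000008000 := rS 0x7e3d03afd829449a9e2c2a614444809579005e71279dcae75431e5427f4f84516040d05c3245 (k8 a2624 i1007 a2840 a437 i748 a52 i523 a33 (k8 a35 a413 a353 a2872 i1708 a387 i752 a74 (k8 i749 i318 i747 a427 a369 i338 a38 i928 (k8 i927 a466 i332 a19 a2859 i1518 i1725 i600 (k2 i1959 i376 (k1 a1811 k0)))))) (by decide +kernel)
def a2874 : PP 8 4 T 0x21002102000000000000000000000000000400000000040000002000000000000000000 := rS 0xe41811c583344a500e3f49b4d44c1528941e0928874421f1788c800d020682e195a9f4b2ad2ba85767f861ccde613893d0c45 (k8 a2624 a2872 a74 i749 a397 i1008 a2847 a389 (k8 a35 i1683 a413 a387 a420 i868 a1978 a1692 (k8 i1007 a2840 a437 i748 i521 i747 i2137 i318 (k8 i271 i2504 i2503 a2727 a369 a2873 a1086 a2241 (k8 a2821 i2030 a99 i1634 i407 a2866 a2859 a2671 (k4 i1672 a120 i264 i978 (k2 a425 a459 k0))))))) (by decide +kernel)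
def a2875 : PP 8 4 T 0x1002102000000000000000000000000000400000000040000002000000000000008000 := rS 0x3f1e81d36c14a24e2d1161091cac704abc802f3bd3cae7562885767f1c0446e0478a9c54908cc4d0c7b3c8682e1950c30e66f309c49e45 (k8 a2624 a74 i749 a397 i1008 a2847 a389 a413 (k8 i1007 a2840 a437 a353 a418 a2872 a69 a2874 (k8 a406 i912 i332 a61 i748 i992 i524 i913 (k8 a35 i1683 i2504 i1523 i1708 a387 a20 i752 (k8 i318 i747 a427 a369 a356 a424 i338 a379 (k8 a38 a466 a19 a2859 i1518 i1182 i600 i1959 (k2 i297 a1811 k0))))))) (by decide +kernel)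
def a2876 : PP 8 4 T 0x1002102000000000000000000000000000400000000040000002000000000000000000 := rS 0x23b94602c1e2500e3f49b4d44c1528941ea7088e0543748465767f50c3012af3d9e4a2010e8843e6f308bce22320034081a0b864e7135a93cfa595695d0c45 (k8 a2624 a2872 a387 a420 i868 a1978 a74 a1692 (k8 a69 a2847 i1007 a2840 a437 i748 i521 i747 (k8 i2137 i749 i318 a397 i1008 i271 i2504 i2503 (k8 i958 a2727 a353 a418 a427 a369 a389 a413 (k8 a35 i1683 a2874 a406 i992 i912 i913 i524 (k8 i332 a2875 a1086 a2241 a2821 i2030 a99 i1634 (k8 i407 a2866 a2859 a1811 i1878 i978 a459 i1532 (k1 a425 k0)))))))) (by decide +kernel)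
def a2877 : PP 8 4 T 0x2102000000000000000000000000000400000000040000002000000000000000000 := rS 0x66468b1ac1e9f5d0957a82a2a997e3d1f8456e38150de8690039fa32634ba252b143ead572cf04abd524f56965926f30900767b3b834081a0b86626573aa18f245 (k8 a2624 a353 a2872 i1708 a387 a69 i1007 a2840 (k8 a437 i748 i521 i752 a418 i395 i747 a397 (k8 i1008 i1124 i868 a420 a74 a450 a427 a369 (k8 a2062 a1575 a1692 a1978 a2876 a14 a337 a24 (k8 a51 a561 a2869 i519 a406 a133 i992 i912 (k8 i913 i2591 i524 i296 i1877 i1724 a1811 a410 (k8 i333 i1415 i2620 i926 a856 i338 i1946 a2722 (k2 a2871 a360 (k1 i264 k0))))))))) (by decide +kernel)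
def a2878 : PP 8 4 T 0x1002002000000000000000000000000000400000000040000002000000000000000000 := rS 0x4da5e8abc412e533195a445207f3ec30a66f309c49e513b9ce26573aa18f304 (k8 a2877 a353 a2872 i1708 a387 a69 a2847 i752 (k8 a2727 a74 i749 a397 i1008 a421 a389 a340 (k8 a35 a2767 a1778 a924 a25 i1110 a2352 i933 (k4 i934 a48 i1375 i1417 (k1 a422 k0))))) (by decide +kernel)
def a2879 : PP 8 4 T 0x2002000000000000000000000000000400000000040000002000000000000000000 := rS 0x14cc35e0f47e1112a78702a1bb3e21174801d71194998d2e898a41226863b824c2af549ecf2040d05c3245 (k8 a2624 i1007 a2840 a437 i748 a353 a418 a450 (k8 a427 a397 a369 i752 a2872 a69 a2877 a2878 (k8 a337 a24 a51 a115 a561 a853 i519 a406 (k8 a465 a2352 i1149 i992 i912 i913 a2722 a423 (k4 i524 i296 i1877 i1190 (k2 i371 a1811 (k1 i1984 k0))))))) (by decide +kernel)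
def a2880 : PP 8 4 T 0x1802002000000000000000000000000000405040000000000002000000000000000000 := rS 0x194775caf68a725b435025d299bcc271279459b173d9d4cc4d (k8 i30 a2879 i1588 a418 a350 a1006 a2727 a74 (k8 i749 a397 i1008 a421 a5 a45 a2220 a2265 (k4 a389 a116 i1988 a171 (k2 i838 a2776 (k1 i546 k0))))) (by decide +kernel)
def a2881 : PP 8 4 T 0x1002102000000000000000000000000001404040400000004002000000000000000000 := rS 0x1ed15043f4c8b14ed3448a9e2a140a95870c06988e6c512add94b867440aa0929abd561d0f9bcc22f11a7c8e035a9c49ecd8b9d49ac1109f55a0f1a810801a0b864a29b4ea5cd68b8c44d0a593d9e4cc45 (k8 a2624 a2879 a353 a418 i868 a1949 a2880 a406 (k8 a52 i547 a71 a347 a41 a2727 i1007 a2840 (k8 a437 i747 i748 i2210 i542 a420 a1978 i2504 (k8 a2821 i30 i1588 a350 a1006 a74 i749 a201 (k8 i189 i1618 a414 i2137 i318 a397 i1008 i271 (k8 i2503 a97 a427 a421 a369 i1619 a466 i2046 (k8 a2779 i2037 a2670 a423 i1794 a171 i545 i2340 (k8 a389 a276 a2241 a4 a413 a198 a2701 i1403 (k8 a2218 i332 a120 i981 i2908 i2045 a48 i1255 (k1 a442 k0))))))))))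 (by decide +kernel)
def a2882 : PP 8 4 T 0x1002102000000000000000000000000001404040000000004002000000000000000000 := rS 0x7b45412647e2c5129da710153c56ea140a969ec561c301a31399504a76089ad2e8b1ca6e3009559e5921d0f9bcc22f1191c06b53893d9b173d9d49ac1109f55a0f330d408400d05c325189a14b245 (k8 a2624 i868 a1949 a2880 a2727 i1007 a2840 a437 (k8 i747 i748 i2210 a2879 i542 a420 a1978 i2504 (k8 a2821 i30 i1588 a418 a350 a1006 a74 i749 (k8 a201 i189 i1618 i2137 i318 a397 i1008 i271 (k8 i2503 i1124 a353 a97 a369 a406 a41 a42 (k8 a52 a71 i547 i523 a2881 i2508 i751 i838 (k8 i1507 i1489 a389 a1105 a277 a1160 a2241 a4 (k8 a413 a118 a198 a2701 a436 a2218 i332 i2030 (k4 a1695 i1423 i981 i2045 (k2 a48 i1255 (k1 a442 k0))))))))))) (by decide +kernel)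
def a2883 : PP 8 4 T 0x1002102000000000000000000000000000404040000000004002000000000000000000 := rS 0x65a4cee0c181ace6cf48304a6c937984a20110a7d2aab078d408402380c34170cad62e7533134e24f3e9655a45 (k8 a2624 a420 i868 a1978 a74 i749 i30 a2879 (k8 i1588 a350 a201 i1007 a2840 a437 i189 i1618 (k8 i747 i748 i2210 i542 a97 i1673 a414 i2504 (k8 i958 a2727 a397 i1008 i1124 a421 a2821 a2882 (k8 i1149 a2846 i548 a178 i1505 i1507 i1509 i2340 (k1 a1688 k0)))))) (by decide +kernel)
def a2884 : PP 8 4 T 0x1002102000000000000000000000000000404000000000004002000000000000000000 := rS 0x6a94a8a303a48eccb16ae4e4c1a1c34fc09649bcc251108bd2aab078d408402380c34170cad62e7533134e24f3e9655a45 (k8 a2624 a420 i868 a1978 a74 i749 i30 a2879 (k8 i1588 a350 a201 i1007 a2840 a437 i189 i1618 (k8 i747 i748 i2210 i542 a97 i1673 i318 i2504 (k8 a2727 a397 i1008 i1124 a369 a2883 a35 a133 (k8 i1515 a389 a171 i976 i546 a2779 a447 i520 (k4 a1695 i751 i1365 i1489 (k1 a2108 k0))))))) (by decide +kernel)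
def a2885 : PP 8 4 T 0x10802002000000000041415000000104100005040000000000100400400015550005000 := rS 0x2987e36788f68aa0632da1a811594c9ead (k8 a420 a74 a421 a8 a45 a2220 a2265 i2032 (k8 a1808 a116 i1783 a27 a2286 i402 a442 i1916 k0)) (by decide +kernel)
def a2886 : PP 8 4 T 0x2102000000000000000000000000000404040000000004002000000000000000000 := rS 0x19e9089b4d4ac3628941a762a3041253649443a211d87cde27149e4469f4aaac1e352011c06b53893d9b173d9d49a853e9655a734ca4e32af5498596660398e28040d05c3245 (k8 a2624 i1007 a2840 a437 i748 a2884 a51 i519 (k8 a2879 i545 a397 a450 a427 a561 a115 a57 (k8 a417 a420 i868 a1978 a1949 i30 i1588 a418 (k8 a350 a1006 a74 i749 a201 i189 i1618 i747 (k8 i2210 i542 a97 i1673 a414 i2137 a353 i275 (k8 i2505 i1008 i271 i395 i2504 i2503 a2727 i1124 (k8 a421 a369 a2821 i2037 a1688 i1489 i764 a277 (k4 a276 a2241 a1719 a2885 (k2 a406 i1149 (k1 a1088 k0)))))))))) (by decide +kernel)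
def a2887 : PP 8 4 T 0x802102000000000000000000000000000404000000000004002000000000000000000 := rS 0x3e5029de2d36329586c5069504a765e8f68ab6408acba0929ab556511087cde61138a4f223078d4804701b362e7b3a9350a59659980e638a01034170cafcfc45 (k8 a2624 a2886 i1723 i1007 a2840 a437 i748 a2884 (k8 a51 i519 a2879 i545 i868 a1949 i30 i1588 (k8 a418 a350 a1006 i189 i1618 i747 i2210 i542 (k8 i2137 a353 i275 i2505 a397 i1008 i271 i2504 (k8 a2727 a97 a420 a421 a369 a5 a8 a45 (k8 a2265 a116 i1783 i1988 a2776 i2508 i751 i1489 (k8 a277 a276 a2241 i2032 a1719 a27 i337 a1066 (k2 a442 i402 k0)))))))) (by decide +kernel)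
def a2888 : PP 8 4 T 0x2102000000000000000000000000000404000000000004002000000000000000000 := rS 0x1e8fd4e111c0a86e9089a0cfc078c98d2e898a024c2af549ecf2040d05c3245 (k8 a2624 i1007 a2840 a437 i748 a353 a418 a450 (k8 a427 a397 a369 a2884 a337 a24 a51 a561 (k8 i519 a2886 i925 a2887 a406 i992 i912 i913 (k4 i524 i333 i296 i1877 (k1 a1811 k0))))) (by decide +kernel)
def a2889 : PP 8 4 T 0x4002000000000000000000000000000000400000100000008004000000000000000000 := rS 0xef11 (k2 a58 i1628 (k1 a466 k0)) (by decide +kernel)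
def a2890 : PP 8 4 T 0x1012002000000000000000001000000000000010414080014100000000000000000000 := rS 0xe4b8 (k2 a2779 a389 (k1 a171 k0)) (by decide +kernel)
def a2891 : PP 8 4 T 0x2002000000000000000000000000000404000000000000002000000000000000000 := rS 0x1e8fd4e111c0a86e9003c64c69744c51070d3f1f6207789956080929abd52792c9bcc251020682e195a9c49ecd3d95cea4d8b9989645 (k8 a2624 i29 a2879 a350 i30 i1588 a2889 a418 (k8 a1006 a74 i749 a201 i1007 a2840 a437 i748 (k8 a2727 a397 i1008 i868 a353 a450 a427 a421 (k8 a369 a2888 a72 a1729 i751 a466 a73 a1778 (k8 a35 i925 a2890 a337 a24 a51 a561 i519 (k8 a406 i992 i912 i913 i524 i333 i296 i1877 (k1 a1811 k0))))))) (by decide +kernel)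
def a2892 : PP 8 4 T 0x400000000000000002000000000000000800041000000000000800000000000000000000000000000000 := rS 0x17b45 (k2 a48 i1415 (k1 a1579 k0)) (by decide +kernel)
def a2893 : PP 8 4 T 0x1002002000000000000000000000000000400050400000000002000000000000000000 := rS 0x19f194820d36bf40a652e7365431709d2a94d5aab3d9e4b26f309453eb53893cae7526c5ccc4ba7add7686 (k8 a2891 i1683 i856 a20 i29 a2879 a350 i30 (k8 i1588 a2889 a74 i749 a201 a414 a2727 a397 (k8 i1008 i868 a353 a418 a97 a420 a421 i1619 (k8 i1644 a2779 a2890 i2037 a171 i1410 i1144 a4 (k4 a396 a1490 a2892 i2045 (k2 a25 i1149 (k1 a2722 k0))))))) (by decide +kernel)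
def a2894 : PP 8 4 T 0x400000000000000402002000000000000000065000000101000105054000000000000000000000000000 := rS 0xca411892e9b8c1855ea9 (k8 a450 a427 a397 a406 a41 a71 a260 i2045 (k2 i1405 a2892 k0)) (by decide +kernel)
def a2895 : PP 8 4 T 0x1002102000000000000000000000000000400040000000000002000000000000000000 := rS 0x19e904cae127435128502a561c301a732a094ecc15dadc127b3c944061d0f9bcc22f11a55560f1a81080b53893e9f1362a18421a0b864fa595695cea4d8b9989645 (k8 a2624 i29 a2879 a350 i30 i1588 a2889 a420 (k8 i868 a1978 i1007 a2840 a437 i2504 a2891 i1523 (k8 a69 a20 a74 i749 a201 i747 i748 i2210 (k8 i542 a97 i1673 i2137 i318 a397 i1008 i271 (k8 i2503 i189 a2727 a353 a418 a369 i856 i1683 (k8 a2821 a2893 i2508 i751 i838 i1489 a389 a276 (k8 a2241 a4 a413 i2030 a395 i1634 a447 a1601 (k2 a2894 i1149 (k1 a1088 k0))))))))) (by decide +kernel)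
def a2896 : PP 8 4 T 0x1002102000000000000000000000000000400000000000000002000000000000000000 := rS 0xa55181d960d442805ab92a094e476869f956c937984a221179941e35021008e030d05c32b53893cfa595695cea4d8b9989645 (k8 a2624 i29 a2879 a350 i30 i1588 a2889 a420 (k8 i868 a1978 a74 i749 a201 i1007 a2840 a437 (k8 i189 i1618 i747 i748 i2210 i542 i38 i318 (k8 i2504 a2727 a397 i1008 i1124 a97 a2895 a35 (k8 a2890 a389 i2508 i751 a171 i976 i834 i835 (k4 i1489 i546 i520 a1695 (k2 i363 a2669 k0))))))) (by decide +kernel)
def a2897 : PP 8 4 T 0x10002000000000000000000000000000000408000000080000002000000000000400000 := rS 0x18c32a31c229c3b1ac6ecf481e4767b8ba7c1e35021008e0326d3e26c5108683245 (k8 a2624 i1007 a437 i2504 i1523 a69 a20 i30 (k8 i189 i1618 i747 i748 i2210 i542 a414 a350 (k8 a418 i395 a353 a406 i1149 i992 i548 a2722 (k4 a463 i524 a2286 i751 (k2 i1906 a132 (k1 i1489 k0)))))) (by decide +kernel)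
def a2898 : PP 8 4 T 0x2002000000000000000000000000000400000000000000002000000000000000000 := rS 0x430fc7d881dcab048ac610c575a9d62e660b944e26f2c934965330abd524f (k8 a74 a450 a427 a397 a421 i29 i30 i868 (k8 i1008 i749 a2727 a2840 a2879 a350 i1588 a201 (k8 a2889 a2891 a2897 a561 a2896 a72 i751 a466 (k4 a73 a1778 a2890 a35 k0)))) (by decide +kernel)
def a2899 : PP 8 4 T 0x2000000000000000000000001000000000000020000000200000000000040000002 := rS 0x69a840c2f86874c445 (k8 a2624 i1358 i1230 a65 i1077 i447 i796 a402 (k1 a377 k0)) (by decide +kernel)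
def a2900 : PP 8 4 T 0x20002100000000000081000000000010001405041500048000000020000000002000100 := rS 0x14a2106c419025a7b383e0f609ed3e9d (k8 a347 a33 a390 a44 i2204 i182 i2046 a1950 (k4 i349 a2062 a2342 i2276 (k2 i744 a2241 (k1 a2218 k0)))) (by decide +kernel)
def a2901 : PP 8 4 T 0x12100000000000000001001000000000010050200040010000000005500000004000 := rS 0x2952a35a124d9311 (k8 a453 i1064 i1589 a403 a547 a121 a129 a2282 k0) (by decide +kernel)
def a2902 : PP 8 4 T 0x1802100001000000001000000000010001415040520040000200020140000002000100 := rS 0x25e8a3e5ba647519409e456624da0c5227178f54ed28687c3a45 (k8 a2624 i1230 i182 a65 a377 a67 a335 a359 (k8 a331 a443 a374 i1447 i1358 a8 a398 a45 (k8 a2900 a419 i1106 i802 i2031 a80 i1371 a422 k0))) (by decide +kernel)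
def a2903 : PP 8 4 T 0x1002102000000000000000000000000001404040404040004200000000000000000000 := rS 0xd6c90624d3e8b521e0f621618aa2625329d5e2c1038bd46d207a8462330c22436371c80802230f89c527d42b348059219885a7039814944d04aa55a49868756a45 (k8 a2624 i1398 i1230 a65 a2898 a420 a450 a369 (k8 i528 a440 i485 i1093 a389 i1239 i1358 i2245 (k8 i2409 a386 a2010 a1949 a1978 a443 a331 i182 (k8 i185 a2899 a349 a401 a446 i189 i190 i1045 (k8 i193 i2724 i795 i2204 a377 a263 a359 a402 (k8 a44 a2763 a2901 i1049 i349 a2902 a127 i2222 (k8 i902 i811 i388 i2030 i492 i1075 i1364 a2241 (k2 i616 i468 (k1 a1947 k0))))))))) (by decide +kernel)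
def a2904 : PP 8 4 T 0x2000000000000000000000000000000400000500000010001000000000000008000 := rS 0x4462e24029008645 (k8 a2624 i595 a386 i261 i338 a2110 a38 a466 k0) (by decide +kernel)
def a2905 : PP 8 4 T 0x2000000000000000000000000000000000000000000000201000000000000000020 := rS 0x1048645 (k4 a2624 i2333 i261 a386 k0) (by decide +kernel)
def a2906 : PP 8 4 T 0x20002102000000000001000000000000145405001500040000000000000000000000000 := rS 0xc9671893a9f3d9855ea9 (k8 a450 a427 a397 a390 a33 a347 a260 i2046 (k2 i616 a2062 k0)) (by decide +kernel)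
def a2907 : PP 8 4 T 0x1002000000000000000000000001000000000000010000000200010000000000000000 := rS 0x11063698bc5a4d031083a45 (k8 a2624 i1230 a386 i439 a491 a499 a495 a402 (k2 a492 a120 (k1 i1340 k0))) (by decide +kernel)
def a2908 : PP 8 4 T 0x2100000000000080000000000000000000050000000004200040000000440005140 := rS 0x2a09222a5108756a5960a854645 (k8 a2624 a99 a344 a44 i608 i1398 i1230 a1200 (k4 a2241 a2629 i2030 a362 (k1 i764 k0))) (by decide +kernel)
def a2909 : PP 8 4 T 0x2102000000000000500000000000014000000000054000000000000000000000000 := rS 0xb930aa55aab (k4 a97 a420 a450 a397 (k2 a1575 i2040 k0)) (by decide +kernel)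
def a2910 : PP 8 4 T 0x2102000000000000000000000000014000000400054000000040000000000402040 := rS 0x3419000d190cb (k4 i465 a2909 i464 i463 (k2 i1038 a437 (k1 i357 k0))) (by decide +kernel)
def a2911 : PP 8 4 T 0x802102000000000001100000000000815404004500054000000000000000000000000 := rS 0xa1afd7a9e652e53acf309e50b45 (k8 a111 a77 a398 a397 a2062 a544 a1575 a2909 (k4 i2046 i1417 a396 a105 (k1 a856 k0))) (by decide +kernel)
def a2912 : PP 8 4 T 0x802102000000000000000000000000155404054500044004200040000004440400040 := rS 0x14e2e1a060041b008e98c258827e2ec81b8fd40d361b14420d4d195164a26824c2af54814ba2b1483c9319669650a79 (k8 a398 a77 i608 a2010 a2906 a2898 a2904 a54 (k8 a8 a5 a2905 a450 a427 a397 a369 i527 (k8 a440 i491 i1049 a336 a2910 a1200 a277 a276 (k8 a2908 a1685 i402 i995 a2911 a405 a428 a466 (k8 a423 i2032 a2286 a339 i394 a349 a437 i1122 (k2 i310 i2203 (k1 i1176 k0))))))) (by decide +kernel)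
def a2913 : PP 8 4 T 0x1802102000000000000000000000000001404054500040004200000000000000000040 := rS 0x788ec6e395386805442626cc4952189c3e090b924464038aa632cd2ca5d0299429e5266e (k8 a2903 i1322 a398 a77 i1059 a45 i1323 i608 (k8 a2010 a2906 a450 i57 a2907 i185 a2898 i739 (k8 a369 i182 a331 i21 i1058 a2912 a412 i1320 (k8 a422 i788 i787 a410 a401 a446 i395 a2041 (k1 a419 k0))))) (by decide +kernel)
def a2914 : PP 8 4 T 0x10002000000000000000280000000020800000000000000000000000040040000400010 := rS 0xa7170d030020d804749f (k8 a428 a2286 a339 i394 a349 a437 i1122 i310 (k2 i2203 i1176 k0)) (by decide +kernel)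
def a2915 : PP 8 4 T 0x802100000000000001040000000000000004000000000000000000000005500005000 := rS 0xc3628ac5285 (k4 a77 a54 a8 a277 (k2 a276 i2032 k0)) (by decide +kernel)
def a2916 : PP 8 4 T 0x802102000000000001000000000020155404004500044000200044000004500404000 := rS 0x321b000d018c712c422e3764268ca8b25134c2af54814925d15c650a79 (k8 a398 a77 a2906 a8 a5 a2898 a2905 a450 (k8 a427 a397 i527 a440 i491 i1049 a336 a2911 (k8 i995 a405 a466 a423 a2914 a2915 i464 i463 (k2 i357 i1038 (k1 a437 k0))))) (by decide +kernel)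
def a2917 : PP 8 4 T 0x1802102000000000000000000000000001404054500040004200000000000000000000 := rS 0xb8342d2618842a01fb4c0d0d0ea5526052189c2e234487c80715482532794ba04dccd079649245 (k8 a2624 a2898 i608 a2904 a2010 a2903 a45 i1323 (k8 a398 i1059 a369 a450 i57 a2907 i182 i1317 (k8 i185 i739 a331 i21 a2905 i1322 i1058 i1230 (k8 a65 a2913 a402 a458 a377 i823 a2916 i1320 (k4 i1238 i787 a120 i318 k0))))) (by decide +kernel)
def a2918 : PP 8 4 T 0x2102000000000000100000000000814040000000054000000000000000000000000 := rS 0x5dd3cd49fa1afd7aca5c9855f45 (k8 a111 a427 a397 a1575 a2909 i1417 a396 a105 (k4 a856 a1947 a394 i1946 (k1 a1579 k0))) (by decide +kernel)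
def a2919 : PP 8 4 T 0x10802102000000000000200000000000814004050400054004200040040005440404050 := rS 0xa06334c420d048ad9a59 (k8 i608 a2010 a8 a369 a2910 a1200 a2908 a2915 (k2 a1685 a2914 k0)) (by decide +kernel)
def a2920 : PP 8 4 T 0x10802102000000000004000000000000154404050500044004200040040004440400000 := rS 0x6b1c42a069818a82535c413f1764268ca8b25134c2af54c343a052e8ad0acd079649245 (k8 a2624 a2898 i608 a2904 a2010 a77 a8 a5 (k8 a2905 i1230 a65 a450 a427 a397 i527 a440 (k8 i491 i1049 a336 a2918 a405 a428 a466 a534 (k8 a38 a460 a2919 a402 a377 i823 a2914 i1489 (k1 a2915 k0))))) (by decide +kernel)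
def a2921 : PP 8 4 T 0x1802102000000000000000000000000001404050500040004200000000000000000000 := rS 0x3c780bc76391fa9c3402a20b4989b3133c6e7a8ca5526052189c2e4911a243e4038aa4122b42a64f297409b99a59 (k8 i608 a2010 a2903 a45 i1323 a398 i1059 a77 (k8 a8 a369 a450 i57 a2907 i182 i1317 i185 (k8 a2898 i739 a331 i21 a2905 i1322 i1058 a2906 (k8 a2917 i1775 i1981 a2920 a412 i1320 i1238 a422 (k8 i788 i787 a410 a80 a401 i394 i318 a419 (k2 i2034 a365 k0)))))) (by decide +kernel)
def a2922 : PP 8 4 T 0x2000000000000000100000000000000000000000000000000000010000000008010 := rS 0x601 (k2 i597 i340 (k1 a349 k0)) (by decide +kernel)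
def a2923 : PP 8 4 T 0x1802102000000000000000000000000001404050400040004200000000000000000000 := rS 0x16b4c5e025029c02c1630c5c825078846a9a52a8c1a644598e84546592993113a334b26157c343ab54aa4c0a270b92446890f900e2a90497532794ba04dc45 (k8 a2624 a2903 a45 i1323 a398 i1059 a5 a369 (k8 a450 i57 a2907 i182 i1317 i185 a2898 i739 (k8 a331 a2905 i1322 i1058 i1398 i1230 a65 a427 (k8 a397 i608 a2010 a2921 a453 i1064 a1851 a2107 (k8 a362 a403 i488 i491 a2909 i2927 a395 a129 (k8 a336 i2729 i744 a2922 i764 a107 a1332 a2915 (k8 a408 i962 i336 i2030 a349 i1176 a344 i1000 (k1 a120 k0)))))))) (by decide +kernel)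
def a2924 : PP 8 4 T 0x2000000000000000000000000000000000000000000020200000000000000000000 := rS 0xca (k2 i607 a508 k0) (by decide +kernel)
def a2925 : PP 8 4 T 0x2100000000000000900000040000200000000008050000000000000000000000000 := rS 0x5dd3cd4bd45a7e8acf (k8 a2062 a433 i2738 i1938 i1990 a1947 a394 i1946 (k1 a1579 k0)) (by decide +kernel)
def a2926 : PP 8 4 T 0x2102000000000080000000000000014000040400054004200040000000440404000 := rS 0x1a07049f4b2ad (k4 a420 a2924 a1978 a369 (k2 a402 a2910 (k1 a2908 k0))) (by decide +kernel)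
def a2927 : PP 8 4 T 0x10402000000000000000000000000000001000001000000000008000000080000000010 := rS 0x1018e8327a (k4 a406 i388 i812 i1045 (k2 a339 a349 k0)) (by decide +kernel)
def a2928 : PP 8 4 T 0x402102000000000001100001000100005005040008054000208020000000500004010 := rS 0x4b9e054c306a644b108cb29726157aa5070d38a54b24d (k8 i527 a2924 i1058 i57 a65 a374 a450 a427 (k8 a397 a1575 a2909 a2642 a2107 a423 a2925 i466 (k4 a276 a2701 a2927 i1856 (k1 a1448 k0)))) (by decide +kernel)
def a2929 : PP 8 4 T 0x1002000000000000040000008000000200010400000000000000000400080000000000 := rS 0x178b47ca7 (k4 i333 i851 i981 i404 (k1 a120 k0)) (by decide +kernel)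
def a2930 : PP 8 4 T 0x1402100000000000041200000000000200015400008000000000020000001500404000 := rS 0x2e060b58437158ed6c27 (k8 a331 i1060 i2737 a2929 a1577 a2701 i980 a276 (k2 a120 i463 (k1 i2733 k0))) (by decide +kernel)
def a2931 : PP 8 4 T 0x402002000000000000000000000000141000000000004000208000000080000000010 := rS 0x464f26157aa5064d (k8 i527 a374 a450 a427 a397 a1448 a260 a2927 k0) (by decide +kernel)
def a2932 : PP 8 4 T 0x402002000000000000000000000000101000000010004000208000000080000000010 := rS 0x1e63296 (k4 a2931 a71 i1856 a2927 k0) (by decide +kernel)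
def a2933 : PP 8 4 T 0x1002102000000000000000000000000001404040500044004200000000000000000000 := rS 0x36191a00c1847610ad32258845d902152a81a66525135070d0ead52a930290c2e234487c807154824dccd42c4cfaad079649245 (k8 a2624 a2898 a2924 a2904 a420 a1978 a2923 a1949 (k8 a2010 a2903 a369 a450 i57 a2907 i182 i1317 (k8 i185 i739 i21 a2905 i1322 i1058 i1398 i1230 (k8 a65 a374 i527 a440 i1049 a2926 a377 i364 (k8 i823 a2928 a405 a466 a423 a2930 a2932 a2701 (k4 a354 a276 i1123 i464 (k2 i180 i357 (k1 a437 k0)))))))) (by decide +kernel)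
def a2934 : PP 8 4 T 0x1002102000000000000000000000000001404040500040004200000000000000000000 := rS 0x1a9865d153c418a703b485e550d0b498620781492431388d121f048a48071372a59a85899f4b2ad (k8 a420 a2924 a1978 a2923 a1949 a2010 a450 a2903 (k8 i57 a2907 a443 a369 i182 i1317 i185 a331 (k8 i21 a2898 a2905 a2904 a2933 i1320 i1238 i787 (k8 i791 i318 a120 a402 a67 a2908 a2041 a127 (k4 a761 i372 a460 i468 k0))))) (by decide +kernel)
def a2935 : PP 8 4 T 0x1002102000000000000000000000000001404040400040004200000000000000000000 := rS 0x1ad7ebd5dd3a84cb889d2267d42b34b2b586abd5aab (k8 a97 a420 a427 a65 i1398 a2924 a2010 a1949 (k8 a1978 a2923 a2934 a453 a2107 a403 a436 a86 (k4 a338 a60 a394 a391 k0))) (by decide +kernel)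
def a2936 : PP 8 4 T 0x802102000000000084100000000000000004040500040014101080000000440005000 := rS 0x22cca4a269ad3e54a71198ee57888146c103874530d5a93d425312a7586c5 (k8 a277 a276 a544 i858 a421 i819 a74 a1692 (k8 a2220 a54 a341 a402 a44 a99 a2800 a2763 (k8 a46 i1689 a425 a379 i1529 a26 a394 i791 (k4 a440 i1049 i2247 a388 k0)))) (by decide +kernel)
def a2937 : PP 8 4 T 0x400000000000802002000000000001000001000000000004050000000015100000000000000000000 := rS 0x5dd3d7e6a652bc9ead559750b455ead90253 (k8 a421 a45 a2265 i1989 a116 a77 a5 a97 (k8 a420 a74 a427 i2037 a460 a396 a394 i1946 (k1 a404 k0))) (by decide +kernel)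
def a2938 : PP 8 4 T 0x400000000000802102000001000004101000000040000004040500040014101080000000440005000 := rS 0x34d4a09 (k4 a369 a2241 a2936 a393 k0) (by decide +kernel)
def a2939 : PP 8 4 T 0x802102000000000000000000000000024004050500044014101010000000000004000 := rS 0xf00387476391bc643c000c1941a4a60a8dca4d23080a8238833d93435caa55a7914c357ab640b356a4f50908a645 (k8 a2624 a421 a386 i819 a74 a1692 a2010 a45 (k8 a2265 i1989 a2220 a54 a398 a420 a450 i104 (k8 a121 i1100 i1105 a403 a9 a2937 i703 i704 (k8 i791 a46 i1649 i1533 a440 i1490 i1049 i438 (k8 i437 a2938 a2642 i1043 i234 a339 i10 i1301 (k2 a419 a2763 k0)))))) (by decide +kernel)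
def a2940 : PP 8 4 T 0x802002000000000001000001000000000004050000000015100000000000000000000 := rS 0x284ca2993d5aab (k4 a97 a420 a74 a421 (k2 i2037 a2937 (k1 a105 k0))) (by decide +kernel)
def a2941 : PP 8 4 T 0x10802102000000000004000000000000204004050500044014101010000000000004000 := rS 0x4f8ec72371a8c4001801b158633069184095211e4526525134a8b527b353a45 (k8 a2624 i1943 a2010 a74 a1692 a2940 i791 a440 (k8 i1049 a54 a398 a386 a2939 i703 i704 i1490 (k8 i1611 a354 a366 i1046 i438 i437 a2643 i206 (k4 i1043 i234 a339 i1112 (k1 a262 k0))))) (by decide +kernel)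
def a2942 : PP 8 4 T 0x12000000000000000000000000000200000000020000000000000800040050000000 := rS 0x69a845c1b (k4 i394 i1106 i795 a359 (k1 a377 k0)) (by decide +kernel)
def a2943 : PP 8 4 T 0x802100000000000001040000000000000004000000000000000020000001400005000 := rS 0x4227 (k2 a331 i744 (k1 a2915 k0)) (by decide +kernel)
def a2944 : PP 8 4 T 0x10802002000000000000000000000000000000040400000000000020440000240400000 := rS 0x3c472070c34836a114c343a4f (k8 a74 i741 a2220 a54 i823 i783 a377 a437 (k4 a402 i2051 a2763 a419 k0)) (by decide +kernel)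
def a2945 : PP 8 4 T 0x802102000000000001000000000000000004040420040002100020000000000404010 := rS 0x324649e63034423b1b8743e27278ae1a234c464f4b64094c4a45 (k8 a2624 i764 a421 a45 a2265 i801 a390 i802 (k8 i1538 a2220 a8 a74 a331 i183 i741 i1775 (k8 a2942 a2944 i1489 a2915 a2286 a1190 a428 a2770 k0))) (by decide +kernel)
def a2946 : PP 8 4 T 0x1802102000000000000000000000000000404050504044014100000000000000000000 := rS 0xe51a8ce2e200006062922100c1a4102b3e32983d1c0ca730b9289a232a03d6acd5493c930d5b204a645 (k8 a2624 a421 a45 a2265 a2220 a2898 a74 a450 (k8 a2010 a1692 a2904 a2940 i1538 i791 a440 i967 (k8 i1093 i1049 a389 i801 i802 a390 i1981 i485 (k8 a2945 i1490 i1046 a386 a2941 a2643 a252 a349 (k4 i703 a19 i232 i1115 (k2 a46 a429 k0)))))) (by decide +kernel)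
def a2947 : PP 8 4 T 0x8002000000000000000000000000000000000000000000001000000000000000408000 := rS 0x219040845 (k4 a2624 a2110 i339 i518 (k1 a386 k0)) (by decide +kernel)
def a2948 : PP 8 4 T 0x112102000000000005114008000001004004450020044000000000015040000000010 := rS 0x707c1f1d2246e3901004c89565a7e84b504a62327a (k8 i801 a390 i802 a369 i886 a537 a2302 a105 (k8 a121 a2909 i962 a349 a401 a446 i190 a262 (k4 i1356 i1107 a2942 i1421 k0))) (by decide +kernel)
def a2949 : PP 8 4 T 0x12000000000000000000000000000200000400020000000000000800040040000000 := rS 0x383e (k2 i1107 a2942 (k1 i1421 k0)) (by decide +kernel)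
def a2950 : PP 8 4 T 0x400000000000010112102000000000004104001000001204004050000044000000000405000000000010 := rS 0x371c80802644ab2d3f42 (k8 a403 a2302 a105 a121 a2909 i962 a349 a401 (k2 a446 a552 k0)) (by decide +kernel)
def a2951 : PP 8 4 T 0x400000000000010112102000000000004104008000001604004050000044000000000405000000000010 := rS 0xdc7202009913e6b5d2d116af (k8 a427 i1938 a2950 i887 i1946 i1686 a388 i962 (k4 a349 a401 a446 a552 k0)) (by decide +kernel)
def a2952 : PP 8 4 T 0x12000000000000000000000000000240000400020000000000000800040000000000 := rS 0x3c89 (k2 i397 a2949 (k1 i1356 k0)) (by decide +kernel)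
def a2953 : PP 8 4 T 0x112102000000000005104008000001004004450020044000000080014040100005000 := rS 0x3012b140a17 (k4 i2468 i518 a277 i859 (k2 a2948 a1332 k0)) (by decide +kernel)
def a2954 : PP 8 4 T 0x12102000000000005100008000001004004450020044020000010014040000004000 := rS 0xd86404e523830c89565d0a22c30b8848445 (k8 a2624 a386 i724 i2468 a487 a373 a537 a105 (k8 a121 a2909 a2953 i26 a392 i1492 a558 i188 (k1 a437 k0))) (by decide +kernel)
def a2955 : PP 8 4 T 0x112000000000000000000000000008200004410000000000000000000000000000000 := rS 0x168be (k2 i1113 a2302 (k1 i1455 k0)) (by decide +kernel)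
def a2956 : PP 8 4 T 0x12102000000000005100008000001004004450020044020021000014040000005000 := rS 0x604602804804388b0c42c5 (k8 a277 i724 a487 a373 a2953 a2954 i445 i261 (k2 i867 a2948 (k1 i1532 k0))) (by decide +kernel)
def a2957 : PP 8 4 T 0x400000000000010112102000000000004104008000001604004050000044000000080404000100401000 := rS 0xc04a05 (k4 i518 i859 a2951 a1332 k0) (by decide +kernel)
def a2958 : PP 8 4 T 0x12102000000000004100008000001004004450020044020021000014040000005000 := rS 0x3023014024021d3d99116185d37193d08476984b9cca645 (k8 a2624 a421 i836 i1902 i802 a2952 i724 i801 (k8 a390 i1447 i2468 a487 a373 a2956 a36 a2957 (k4 a386 i445 i261 i867 (k2 a2951 i1532 k0)))) (by decide +kernel)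
def a2959 : PP 8 4 T 0x1802102000000000000000000000000000404050504044004100000000000000000000 := rS 0x41a32064826b121088e0c4f83d16980b9c0e6c949a759e331a9322c4b61956225857924568386ad90253 (k8 a421 a45 a2265 a2220 a68 a8 a2898 a427 (k8 a2946 a373 i118 a487 i606 a466 a440 a348 (k8 a360 a368 a399 a19 a405 i836 a389 i2468 (k8 i802 i1938 a2947 a2955 a2958 i26 i461 i462 (k4 i468 i867 a559 a388 (k2 a437 i1492 (k1 i188 k0))))))) (by decide +kernel)
def a2960 : PP 8 4 T 0x1802102000000000000000000000000000404040504044004100000000000000000000 := rS 0x4c3912ce2583e4355a49 (k8 a2898 a420 a2220 a2959 a1978 i1361 i606 a389 (k2 a440 i837 k0)) (by decide +kernel)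
def a2961 : PP 8 4 T 0x2000000000000000000000000000000000000080004000101000000000000000000 := rS 0x964d (k2 i837 i1094 (k1 a440 k0)) (by decide +kernel)
def a2962 : PP 8 4 T 0x1002000000000000040000000001000000000000010000000008080000100000000000 := rS 0x17a240018 (k4 i438 i437 i231 i1077 (k1 a120 k0)) (by decide +kernel)
def a2963 : PP 8 4 T 0x400000000011602002000000000005105001000111001005050014054000018000000100140000000 := rS 0x17b455dd3d306a4ba6d16bf3c29d442a0e90086d330abd524f0288c4a45 (k8 a2624 a423 a9 i485 a74 a450 a427 a397 (k8 a2218 a2962 a386 i741 a2701 i2030 i332 a2927 (k8 i1720 i1854 i1073 i1856 a1382 a336 a394 i1946 (k2 a433 i1990 (k1 a404 k0))))) (by decide +kernel)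
def a2964 : PP 8 4 T 0x1602102000000000001100001000000005405050554044000010000000000000005000 := rS 0x6b4fd39e2a703b4916c72139440c116d0d29195ca759e6154a843f0c5282586c5189949449 (k8 a2898 a440 i1049 a2643 a277 a276 a369 a2241 (k8 a389 a81 a413 a450 a397 a2062 a544 a1575 (k8 a2642 i2044 a121 i978 i1517 a2963 a46 a1200 (k8 i1689 i2247 a2962 a402 a67 a2041 a379 a26 (k2 a394 a1947 k0))))) (by decide +kernel)
def a2965 : PP 8 4 T 0x20002002000000000000000000000000100000000000004000000000000000000000000 := rS 0x4b9855ea9 (k4 a450 a427 a397 a71 (k1 a260 k0)) (by decide +kernel)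
def a2966 : PP 8 4 T 0x402002000000000000000000000000101000000014004000018000000080000000000 := rS 0x12e9b459e2326157aa40a45 (k8 a2624 i485 a450 a427 a397 a2965 a2927 i1854 (k2 i1073 i1856 (k1 a336 k0))) (by decide +kernel)
def a2967 : PP 8 4 T 0x1402002000000000040000020000010001010000014004000018000000080000000000 := rS 0x1a170645a3b4c29c2e45 (k8 a2624 i967 i332 a2966 i2784 i981 i387 a120 (k2 a437 i318 k0)) (by decide +kernel)
def a2968 : PP 8 4 T 0x1602102000000000000000020000010001004040014004014118000000000140005000 := rS 0xb03042208ada6c154b350a7d56b0c462544a941245 (k8 a2624 a369 a2241 i1403 a423 a9 a276 a420 (k8 a1978 a1949 a2010 a450 a2821 a2218 a2967 a2701 (k4 a386 i438 a2962 i1039 k0))) (by decide +kernel)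
def a2969 : PP 8 4 T 0x1202102000000000000000000000000005404040514044014010000000000000001000 := rS 0x18d08c3320b9440b84ab21531366ad49e853eab5421f861cca2a5078249449 (k8 a2898 a440 a369 a2904 a2241 a2935 a2961 a389 (k8 a81 a413 a420 a1978 a1949 a74 a1692 a2010 (k8 a2960 a450 a2964 i1100 i2044 a2968 a46 i744 (k4 i1611 a425 a1045 i1046 (k1 i206 k0))))) (by decide +kernel)
def a2970 : PP 8 4 T 0x502100000000000000000000000000001404000500040014018000000000000005000 := rS 0x84804315a2a327964a74d6cf1288e2d4e2a27d9a8561814ca45 (k8 a2624 i1049 i485 a276 a1949 a2010 a680 a362 (k8 a436 a466 i1538 i764 a3 a394 a399 a405 (k8 a1382 a2579 a388 a2927 i2247 a386 a1200 a2701 k0))) (by decide +kernel)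
def a2971 : PP 8 4 T 0x2000000000000000200000001080008000000000000000000000000000000000010 := rS 0x1018b86ab9 (k4 i130 i327 i1634 i1122 (k2 i1077 a349 k0)) (by decide +kernel)
def a2972 : PP 8 4 T 0x22102000000000000000000000140000000040000000016100000000001500004000 := rS 0x100384360ad49e7d56a843e45 (k8 a2624 a81 a413 a420 a1978 a74 a1692 a2821 (k4 i703 i2030 a386 i741 k0)) (by decide +kernel)
def a2973 : PP 8 4 T 0x1002102000000000000000000000000001404040514044014010000000000000001000 := rS 0x1a00c8c3320b9440a32a3219717490944710189940a4a29aa557135a93cfaad861cca2a5079241245 (k8 a2624 a369 a2898 a2904 a2241 a2935 a2961 a389 (k8 a420 a1978 a74 a1692 a2960 a97 a450 a421 (k8 a440 i485 i1049 a2643 a2970 a9 a423 a2969 (k8 a19 i1366 a352 i2037 a2971 a2972 a46 i744 (k4 i1611 a425 i1046 a429 (k1 i206 k0)))))) (by decide +kernel)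
def a2974 : PP 8 4 T 0x400000000001022002000000000001000400000000000005000000004115120000000000000000000 := rS 0x2ee9ebda29a9045330abd02b7 (k8 a118 a4 a427 a397 a421 a672 a460 a48 (k4 i1416 a394 i1946 a404 k0)) (by decide +kernel)
def a2975 : PP 8 4 T 0x1002102000000000000000000000000001404040514044014000000000000000001000 := rS 0x2115bc232404510c4e5ca1afc4a2365440aa4c6194d571366ad49e853eab41f0c399449245 (k8 a2624 a2898 a2935 a2961 a389 a2904 a420 a1978 (k8 a1949 a74 a1692 a2010 a2960 a97 a421 a276 (k8 a2973 i791 a362 i2037 a9 a423 a396 a105 (k8 a2974 i1766 a543 i531 a386 a52 a795 a126 (k2 a1200 a2701 k0))))) (by decide +kernel)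
def a2976 : PP 8 4 T 0x1002002000000000000000001000000000000050014000014108010000000000002000 := rS 0xd2030b594182a908a6a927ab55645 (k8 a2624 a97 a420 a74 a450 a421 a386 i1490 (k4 i438 i2037 i1039 i465 (k2 a2962 a402 k0))) (by decide +kernel)
def a2977 : PP 8 4 T 0x1002100000000000040100000000200000010000000041000000000000000000004000 := rS 0x178b46ab9 (k4 a1575 a547 i1383 i365 (k1 a120 k0)) (by decide +kernel)
def a2978 : PP 8 4 T 0x1002102000000000000000000000050000000040000044014100000000001550004000 := rS 0x168bc629564225a60652304c2a95a93cfaad (k8 a420 a1978 a74 a1692 a450 a397 a2821 i2030 (k8 a2800 a402 i1340 a2977 i1100 i983 i366 i1384 (k1 a120 k0))) (by decide +kernel)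
def a2979 : PP 8 4 T 0x1402100000000000000000001000040001404050554051000010020000000210406000 := rS 0xa469a99834341a50f4933c8d5729d67c65926b1880512111f8f430f00d8ad02a10fade18e5198a48627 (k8 a331 i21 a443 i1609 a392 a389 a118 a81 (k8 a413 a4 i902 i783 a127 a437 a365 a6 (k8 a441 i2049 i1038 i1041 i467 i463 a2579 a2062 (k8 a544 a1575 a547 a1382 a1020 a406 i2044 i815 (k4 a121 i1517 i2031 a67 (k2 a393 a2977 k0)))))) (by decide +kernel)
def a2980 : PP 8 4 T 0x1002102000000000000000000000000001404040514044014010000000000000000000 := rS 0x44048551087480650b928c3135a93cfaad07a843f0c399449223518315645 (k8 a2624 a97 a2975 i1647 i1569 a2898 a2935 a2961 (k8 a389 a81 a413 a2904 a420 a1978 a74 a1692 (k8 a2960 a397 a440 i967 i1049 a2976 i741 a2979 (k4 i1489 a2978 a362 a423 k0)))) (by decide +kernel)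
def a2981 : PP 8 4 T 0x1002102000000000000000000000000001404040514044014000000000000000000000 := rS 0x225a62d1781948ca1aae4aac926030a661559456a4f3eab41e49 (k8 a2898 a2904 a420 a1978 a74 a1692 a2935 a97 (k8 a397 a421 a2975 a2980 i613 i791 a1575 a547 (k8 i2037 i466 i465 i365 i1383 a402 i1340 a120 k0))) (by decide +kernel)
def a2982 : PP 8 4 T 0x1202000000000000000001000000110000000040000000000000000000500142000000 := rS 0x34d1225 (k4 a423 i230 a2218 a120 k0) (by decide +kernel)
def a2983 : PP 8 4 T 0x2002000000000000000000000000000000000020000000100000080000016000000 := rS 0x16e8340974f62629abc9e45 (k8 a2624 a74 a427 a421 i1044 i1776 i1766 a651 (k2 i735 i801 (k1 a108 k0))) (by decide +kernel)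
def a2984 : PP 8 4 T 0x2002000000000000000000000400000040000000000000000001200000002000040 := rS 0x88fc12af (k4 a427 a369 i2114 i1873 (k1 a1811 k0)) (by decide +kernel)
def a2985 : PP 8 4 T 0x1202102000000000000000000000100000000040420054014108080000000104004000 := rS 0x2562ec88c0e46ef1538f510070e87927436515582ab3eab572b52785d42530c22c5a3b178015245 (k8 a2624 a450 i437 i1077 a339 i1240 i2247 i438 (k8 a421 i819 i967 a74 a1692 i1407 a420 a1978 (k8 a97 a2821 i703 i2037 a105 i1366 a2982 i10 (k8 i1301 i1356 i2873 i2109 a880 a2983 a2984 a419 (k4 a2642 a405 i1100 a739 k0))))) (by decide +kernel)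
def a2986 : PP 8 4 T 0x10002002000000000080000000000000000040000020000000100000400000006000000 := rS 0xe5e237538f40e1d (k8 a341 a402 a335 a67 a2983 a2041 a2984 a419 k0) (by decide +kernel)
def a2987 : PP 8 4 T 0x1202102000000000000000000000000000000040420054014118080000000000005000 := rS 0x255974269c65929360c588ca3728806a3b19a2c00180d98552ad55ae56a4f528246223 (k8 a9 a2643 a369 a2241 a74 a1692 i1407 a97 (k8 a420 a450 a397 i779 i438 i437 i2247 i232 (k8 a339 i1115 a2985 a46 i1649 a425 a429 i1533 (k8 a19 a405 a2642 a2986 a393 a105 a121 a1295 k0)))) (by decide +kernel)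
def a2988 : PP 8 4 T 0x2000000000000000000000001020000000000024000000008000000000000000000 := rS 0x203170640a45 (k4 a2624 i485 i311 i796 (k2 i1045 i1077 (k1 a349 k0))) (by decide +kernel)
def a2989 : PP 8 4 T 0x2002001000000000000000000000000000402024000100100000140000001000000 := rS 0x4b461003b5b94d5e4f (k8 a74 a427 a421 i1933 i1069 a108 a419 i1362 (k1 a71 k0)) (by decide +kernel)
def a2990 : PP 8 4 T 0x1402002000000000001804001000000000005040024004015120020000001500000000 := rS 0xbda2ad9027941aee9e6a2ebc46e39150680419299855e4b (k8 i73 a427 a397 a421 i181 i788 i787 a2701 (k8 a401 a446 a61 a761 a460 a394 i1946 a2892 (k4 a2989 i1363 a672 a116 (k2 i1989 a1579 k0)))) (by decide +kernel)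
def a2991 : PP 8 4 T 0x2000000000000000000000000000000000000000000008000000000000200000000 := rS 0x45 (k2 a2624 i1498 k0) (by decide +kernel)
def a2992 : PP 8 4 T 0x2000000000000000000000000000000000000000000000200000000000020000000 := rS 0x45 (k2 a2624 i1230 k0) (by decide +kernel)
def a2993 : PP 8 4 T 0x2200000000000001000000000000000004000000000100000000000010200000000 := rS 0x45 (k2 a2624 a686 k0) (by decide +kernel)
def a2994 : PP 8 4 T 0x2000000000000000800000000040000000000000000020000040000000000000080 := rS 0x45 (k2 a2624 a498 k0) (by decide +kernel)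
def a2995 : PP 8 4 T 0x2000000000000000000000000000000000000000000000080000000000080000000 := rS 0x45 (k2 a2624 i1270 k0) (by decide +kernel)
def a2996 : PP 8 4 T 0x2000000000000000000000000000000000000000000000008000000000000800000 := rS 0x45 (k2 a2624 i967 k0) (by decide +kernel)
def a2997 : PP 8 4 T 0x2000000000000000000000000000000000000000000000002000000000002000000 := rS 0x45 (k2 a2624 i1007 k0) (by decide +kernel)
def a2998 : PP 8 4 T 0x4002200000000000001000000000000000004000000000000002000000008000000000 := rS 0x45 (k2 a2624 a678 k0) (by decide +kernel)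
def a2999 : PP 8 4 T 0x2000000000000000000000000000000000000000000002000000000000800000000 := rS 0x45 (k2 a2624 i1538 k0) (by decide +kernel)
def a3000 : PP 8 4 T 0x2000000000000000000000000000000000000000000000000050000000000000000 := rS 0x45 (k2 a2624 a386 k0) (by decide +kernel)
def a3001 : PP 8 4 T 0x2000000000000000000000000000000000000000000008000000000000000008000 := rS 0x45 (k2 a2624 i501 k0) (by decide +kernel)
def a3002 : PP 8 4 T 0x2000000000000000000000000000000000000000000200000000000008000000000 := rS 0x45 (k2 a2624 i1766 k0) (by decide +kernel)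
def a3003 : PP 8 4 T 0x2000000000000000000000000000000000000000000000000000000000002000020 := rS 0x45 (k2 a2624 i228 k0) (by decide +kernel)
def a3004 : PP 8 4 T 0x2000000000000000000000000000000000000000000000008000000000000000020 := rS 0x45 (k2 a2624 i485 k0) (by decide +kernel)
def a3005 : PP 8 4 T 0x2000000000000000000000000000000000000000000000000000000000800008000 := rS 0x45 (k2 a2624 i244 k0) (by decide +kernel)
def a3006 : PP 8 4 T 0x2001000000000000000000010000000000020000000000000000000000200000040 := rS 0x45 (k2 a2624 a978 k0) (by decide +kernel)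
def a3007 : PP 8 4 T 0x2000000000000000000000000000000000000000000000014000000000200000020 := rS 0x45 (k2 a2624 a1525 k0) (by decide +kernel)
def a3008 : PP 8 4 T 0x2000000000000000000000000000000800000000000000004010000000002000000 := rS 0x45 (k2 a2624 a1562 k0) (by decide +kernel)
def a3009 : PP 8 4 T 0x400000000000000002000000000000000800048000000000000040000000000000000000000000000000 := rS 0x17b45 (k2 a116 i1989 (k1 a1579 k0)) (by decide +kernel)
def a3010 : PP 8 4 T 0x402000000000000004014000000005000004000000000000001000414044000001008 := rS 0xc42e39 (k4 a401 i998 i1003 a2856 k0) (by decide +kernel)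
def a3011 : PP 8 4 T 0x2000000000000000000000000000000000080000008008000000000000000000000 := rS 0x1173a92ccc6f479355450 (k8 i1666 i1665 i2349 a930 i1320 i537 i2305 i1668 (k2 a350 a2889 k0)) (by decide +kernel)
def a3012 : PP 8 4 T 0x400000000001012001000000000000101000000000000000000014085000008020000000000400000 := rS 0xd351a95caa0178c8181a0006406925c9c95005 (k8 a3004 a438 a389 i1139 i576 i2758 i180 a349 (k8 a437 i449 i450 i318 i834 a392 i289 i1634 (k2 a344 a393 k0))) (by decide +kernel)
def a3013 : PP 8 4 T 0x2000000000000000000000000000000000080000080008000000000000000000002 := rS 0x25728c8191110a3c4640219415447 (k8 i2995 i1665 i1666 i2249 a3000 i184 a930 a2991 (k4 a58 i449 i450 a392 (k2 i287 a107 k0))) (by decide +kernel)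
def a3014 : PP 8 4 T 0x6002000000000000000000000000004000001080000000008008000004041000000000 := rS 0x13b4f633359ebd4d46516af2ec49e2c54383d7e6b1489cc661279541ac37208622232010ca0aa23a5d32a9 (k8 a85 a57 a24 i2995 i1665 i1666 i2249 a3000 (k8 i184 a58 a2991 a107 a468 a392 i53 i759 (k8 i1048 a3011 a331 a443 i2315 i3033 a3001 a387 (k8 a688 a198 a127 a5 i499 i491 a561 a336 (k4 i1418 i1152 i849 i2032 (k2 a59 i1640 (k1 a463 k0))))))) (by decide +kernel)
def a3015 : PP 8 4 T 0x2000000000000000000000000000000000080804080008008000000000000000000 := rS 0x210567954a652f1486d0d82c947bf480433898e2e9f0b884c24f2a86066471286c0401029355450 (k8 i1666 i1665 i2349 a3004 a3013 a349 i189 i803 (k8 i2995 i192 i1045 i53 i759 i1048 a2991 i711 (k8 a414 a350 a3011 i1358 i2249 a3000 a97 a930 (k8 i504 i1515 a133 a35 a3012 a24 a57 a85 (k4 a1386 i388 a3014 i1632 k0))))) (by decide +kernel)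
def a3016 : PP 8 4 T 0x2000000000000000000000000000000000080100080008000000000000000000000 := rS 0x56853cc513297549b84a330c06c04013081494764fc5e228f2393caa834394cfafd26aa8a063 (k8 a3011 i1666 i1665 i2349 a97 i101 i569 a387 (k8 i925 i53 i759 i2995 a930 a58 a350 a414 (k8 a466 a2889 a3004 i1048 a3013 a349 i189 i1045 (k8 i192 i803 a3015 i1056 a989 a837 a438 a1448 (k2 i1632 i388 (k1 a3014 k0)))))) (by decide +kernel)
def a3017 : PP 8 4 T 0x8002001000002000000001000001140004000000000014000048000000000000000040 := rS 0xb0111444b4cc2051a8cd7231 (k8 a459 a465 a360 a348 a3004 i1048 a2396 a754 (k4 a438 a1807 a2519 i1263 k0)) (by decide +kernel)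
def a3018 : PP 8 4 T 0x112001000002000000001000000140004400000508014000650000000000000000040 := rS 0x9698b1122f301209695549cce23519ae62c31 (k8 a459 a466 a465 a360 a348 i1358 i58 i1056 (k8 i1057 a3017 a440 i1008 i2684 i2852 i2033 a2355 (k2 i2849 a1807 k0))) (by decide +kernel)
def a3019 : PP 8 4 T 0x8112001000002000000001000000140000400000400005000214000000000000000040 := rS 0x4b4c587344c515248388d46631 (k8 a459 a360 a348 i1358 a440 i495 a438 a337 (k4 a417 a2519 a2355 i2849 (k1 a1807 k0))) (by decide +kernel)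
def a3020 : PP 8 4 T 0x2000000000000000000000000000000000080100000008000000000001000000000 := rS 0x1a6095007c3419019c9501725184dea303835c8a55ac349e5560884a67d7e9344640219408e6332a4d55163b99e228f (k8 a930 a58 a3016 i1627 a466 i1665 i1635 i1579 (k8 a3011 i2995 i1666 i2249 a3000 i184 i2349 a97 (k8 i101 i569 a2991 i1515 i53 i759 a35 i102 (k8 a164 a107 a392 i457 a1824 a3018 i1311 a3019 (k8 a2996 a3017 i496 i2758 i180 a437 i271 i834 (k2 i1309 a344 (k1 a1807 k0))))))) (by decide +kernel)
def a3021 : PP 8 4 T 0x2001000000000000400000000000000000080000000000200000000002000000000 := rS 0x34c0e09502903e7d (k8 i101 i351 i843 i842 i1309 i1379 a344 a1807 k0) (by decide +kernel)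
def a3022 : PP 8 4 T 0x2000000000000000000000000000000000080000000008000000000000000000000 := rS 0x301262aa937250e6741298dfacb282a8fab5 (k8 i102 i101 i1665 i1666 i506 a97 a3011 a3021 (k8 a3020 i1096 i1667 i1668 i496 a14 i2685 a438 (k1 i1312 k0))) (by decide +kernel)
def a3023 : PP 8 4 T 0x2000000000000000000000008000000000000000080000000000010000000000081 := rS 0x66e5188300b17 (k4 a350 i2337 i457 i1506 (k2 a392 i1610 (k1 a429 k0))) (by decide +kernel)
def a3024 : PP 8 4 T 0x4002001000000000040000010008100014000000000000000000400010400000000041 := rS 0x19008622d02b9010c144c5286a3 (k8 a1824 a106 a447 a337 a1815 a1807 a393 i262 (k4 i1264 a459 a349 a758 (k1 i192 k0))) (by decide +kernel)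
def a3025 : PP 8 4 T 0x2001000000000000000001008000000000010200002008001000000001000000000 := rS 0x1b191086241110745ad25181c8f17330052a4c328d582a510ae526a10f8bc966f8650e227f (k8 a3022 a58 a106 a403 a357 i1047 a1830 a81 (k8 a413 i1589 i1066 a2991 a164 a1815 i1062 i1580 (k8 a440 i1018 i2258 i529 a350 i2961 a3023 a1824 (k8 a3024 a329 a341 i2030 i184 i2952 a3000 a758 (k2 i780 i1586 k0))))) (by decide +kernel)
def a3026 : PP 8 4 T 0x2001000000000000000001008000000000010200002008000000000001000000000 := rS 0x2888e07118103a03198682e640c93490c152885421f8650e227f (k8 a3022 a58 a106 a403 a81 a413 a2991 a164 (k8 a1815 a3025 i30 a2997 i1010 a2751 a437 i2990 (k8 i189 i2503 i748 i272 i1224 i264 i2030 a1824 k0))) (by decide +kernel)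
def a3027 : PP 8 4 T 0x2000000000000000001001000050000000010000000008000000000001440000040 := rS 0x10038433fa944311 (k8 a58 a2991 a164 a3022 i442 i2030 a3000 i742 k0) (by decide +kernel)
def a3028 : PP 8 4 T 0x2001000000000000000001008000000000010200004008010400004001000000040 := rS 0x5d57a0d0b19a793d3c993ca6c3a9d67aa22ad28b251ca2f448b4186b4580030420d90444a343b24b23560a9572935b94ca26f40a843f0ca19fcce911885c9449329844311 (k8 a58 a2991 a3026 i1660 i1010 a440 a2996 a1332 (k8 a102 i1588 a3022 a106 a403 a81 a413 a4 (k8 a357 i498 i569 a577 i1589 i1066 a164 a1815 (k8 i1062 i119 i1064 a387 a1824 a3027 i184 i272 (k8 a3000 a437 i437 i2247 i2253 i441 i1039 i230 (k8 i1078 a392 i2033 a429 a393 a14 a1042 a368 (k8 a399 a341 a457 a1382 a1174 a388 i701 a26 (k4 a33 i1606 a197 a2598 (k2 a2497 a108 k0))))))))) (by decide +kernel)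
def a3029 : PP 8 4 T 0x2000000000000000000405000418001000100000000008000001000854050000000 := rS 0xfd069942d3d0f11 (k8 a58 a387 a26 i1606 i1113 a197 i405 i2031 k0) (by decide +kernel)
def a3030 : PP 8 4 T 0x2000000000000004014000000005401004800000000000000000115044000400000 := rS 0xe8f713 (k4 a68 i816 a2856 a203 k0) (by decide +kernel)
def a3031 : PP 8 4 T 0x2001000000000044114005008411021010100000054008000001115154050400000 := rS 0x45a612e3e41a7d362e544550ebf (k8 a367 a387 a14 a1042 a120 a457 a3029 a3030 (k4 i2031 i1371 i405 i578 (k1 a1174 k0))) (by decide +kernel)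
def a3032 : PP 8 4 T 0x2000000000000004114005008411001010100000050008000000115854050400200 := rS 0x22d30971f20d3e9b5421d7e3d (k8 a122 a367 a387 i199 i1176 a3029 a3030 i2031 (k4 i1371 i405 i578 a1174 k0)) (by decide +kernel)
def a3033 : PP 8 4 T 0x10002100000000000000114000000004000000000000050008008000155054000000000 := rS 0x459acbb12788e99e9d (k8 a544 a2062 a262 a355 a127 a5 i507 i491 (k1 a1947 k0)) (by decide +kernel)
def a3034 : PP 8 4 T 0x2001000000000000000001008000000000010200004008010000004001000000040 := rS 0x1fa0d774f4f21632718a0bd2a37158e43089698b47a1b0e89c529d679e54408111020ac5619190ec92c8d4e6b729944de815087e19433fa9cce911885c9449329844311 (k8 a58 a2991 a3026 i1660 i1010 a440 a2996 a1332 (k8 a102 i1588 a1825 a3022 a106 a403 a81 a413 (k8 a4 a357 i498 i569 a577 i1096 i1062 i119 (k8 i1064 a387 a3028 a354 a366 a451 i1578 i1577 (k8 i1656 i1655 a1478 a2062 a544 a443 a331 i742 (k8 i272 a122 i1263 a99 i280 a437 i2051 i388 (k8 i1043 a3031 a3032 a120 a117 a2358 a545 a3033 (k4 a26 i1685 a197 i407 (k1 i2031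 k0))))))))) (by decide +kernel)
def a3035 : PP 8 4 T 0x2001000000000000000001008000000000010200004008010000000001000000040 := rS 0x1008e4382088343202928cec92c924ca61 (k8 a3026 i1660 i1010 i119 i1064 i1588 a440 a3004 (k8 a3034 i1586 i1585 a2770 i779 a451 a3000 i184 k0)) (by decide +kernel)
def a3036 : PP 8 4 T 0x2001000000000000000001008000000000010200004008000000000001000000040 := rS 0xd210c8823116889a4a31791e2e958a1995201260d582a510ae4a6935087e1943889fcca61 (k8 a3026 i1660 a3022 a58 a106 a403 a81 a413 (k8 i1589 i569 i1066 a2991 a164 a1815 i1062 a3035 (k8 i2258 i574 i529 a438 a1042 a350 i2961 a363 (k8 a1824 a3024 a3027 a329 i2952 i184 a758 a3000 (k2 i1610 i441 k0))))) (by decide +kernel)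
def a3037 : PP 8 4 T 0x2000000000000000000000000000000000000200000008000080008000000002000 := rS 0x130001a (k4 i1586 i1610 i779 i2258 k0) (by decide +kernel)
def a3038 : PP 8 4 T 0x2000000000000000000000008000000000000000000008020000010000000000080 := rS 0xcc01 (k2 i2258 i529 (k1 a3023 k0)) (by decide +kernel)
def a3039 : PP 8 4 T 0x2000000000000000000001008000000000010200010008000000000001000000080 := rS 0x1cbc420ae2ea0d0b19a78dd3c794eb3e2c3b18a2c00180ba449467268cc9e4220889ca47061ac12878888592591aafe86513f94ce649 (k8 i1010 i1096 i569 a3022 i498 a106 a367 i1062 (k8 i119 i1064 a2991 a58 a387 i3 i2271 i457 (k8 i1656 a392 a107 i184 i1570 i1222 a3037 a3038 (k8 i1588 a440 a102 a2996 i438 i437 i2247 a1332 (k8 a339 a429 a368 a399 a1382 a388 i1043 a26 (k8 a33 i1606 a197 a2497 a563 i459 a441 i1873 (k1 a419 k0))))))) (by decide +kernel)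
def a3040 : PP 8 4 T 0x2001000000000000000001008000000000010200000008000000000001000000000 := rS 0x639084312088866a323c5d28663101cca610fa8619113f8d686c1 (k8 a1815 a106 i1062 a3022 a58 a403 a413 a81 (k8 a3026 i1660 a3039 a3036 i537 i538 a350 i2961 (k8 a1824 i1671 a3027 i184 i2952 a3000 a429 i441 (k1 a392 k0)))) (by decide +kernel)
def a3041 : PP 8 4 T 0x2000000000000000000000008040000000000000088008820000010000000000000 := rS 0x1ca3106014843320a50e517 (k8 a350 i536 i538 i2580 i1671 a3000 i2334 i441 (k2 i1506 a392 (k1 a429 k0))) (by decide +kernel)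
def a3042 : PP 8 4 T 0x2000000000000000000000000000000000000000080008000080014000000000000 := rS 0xe5188300b17 (k4 a350 i2334 i441 i1506 (k2 a392 a429 k0)) (by decide +kernel)
def a3043 : PP 8 4 T 0x2000000000000000000010008140000000000200080008800000004001000000000 := rS 0x498b45e310d1c410172010e2221a1b062e014a98c9835 (k8 i1062 i1588 a3041 i1674 i2258 a350 a1815 a106 (k8 a2991 a58 a3042 a3000 i707 i827 i2556 i787 (k4 a1332 i2072 i1264 i1590 (k1 a758 k0)))) (by decide +kernel)
def a3044 : PP 8 4 T 0x2001000000000000000001008000000000000200080008000000000001000000040 := rS 0x10486220d0c94601239314a2188ae4a47c (k8 a3040 i1596 i1066 a58 a2991 a164 i1588 i2961 (k8 i2258 a1824 a3043 i1586 i1585 i780 i184 a3000 k0)) (by decide +kernel)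
def a3045 : PP 8 4 T 0x2000000000000000100000008000000000000200040000010000008000000000000 := rS 0x2011c8704111943517 (k8 a360 i1586 i2990 i1585 a352 i779 a451 a3000 (k1 i184 k0)) (by decide +kernel)
def a3046 : PP 8 4 T 0x2000000000000000000010008100004000020000004008010020014001000000000 := rS 0xb512955428ce64a1788c921a0c8c540170444442c1289fce252 (k8 i1596 i797 a3022 i498 a1815 a2991 a58 i827 (k8 i2575 i826 a1332 i2071 a437 i2577 i272 i318 (k8 a440 a2961 i1593 i566 i1598 i279 a1828 i2033 k0))) (by decide +kernel)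
def a3047 : PP 8 4 T 0x2000000000000000001000000140004000020210004000100080011500004000000 := rS 0x25512730c1242e77 (k8 i79 i970 i699 a437 a2961 i231 i1598 a493 k0) (by decide +kernel)
def a3048 : PP 8 4 T 0x2001000000000000000001008000000000000200000008000000000001000000040 := rS 0xc92190b0c05e2d69395461b060888e42208cce26349934cec92c8d686c1289fd4a2188ae4a47c (k8 a3040 i1596 i1066 a58 a2991 a164 a3022 i498 (k8 a1815 a106 i1062 i119 i1064 a3044 i529 i1635 (k8 i537 i797 a3045 a3046 a3000 i1578 i442 i441 (k8 i779 a1824 a392 a393 a329 a359 a3047 i1572 (k4 i1042 a2751 i998 a252 k0))))) (by decide +kernel)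
def a3049 : PP 8 4 T 0x2001000000000000000001008000000000000200000008000000000001000000000 := rS 0x4826a80844b03148f835 (k8 i1062 a3040 i1596 a3048 i2267 i453 i454 a3038 (k2 a440 i2573 k0)) (by decide +kernel)
def a3050 : PP 8 4 T 0x2000000000000000000000000000000000000200000000002080000000000000000 := rS 0x17 (k2 a2751 i699 k0) (by decide +kernel)
def a3051 : PP 8 4 T 0x2000000000000000000000008008010004800000000000000000000000000000000 := rS 0x5ed157f43 (k4 a106 a367 a48 i1416 (k1 a856 k0)) (by decide +kernel)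
def a3052 : PP 8 4 T 0x2000000000000000000000008008011000010040400108440000000000000000000 := rS 0x17b455720d0f115fd0ca27f (k8 a3022 i498 a106 a367 a58 a387 a3051 a563 (k2 a381 i1986 (k1 a856 k0))) (by decide +kernel)
def a3053 : PP 8 4 T 0x2001000000000000000000008008101040010040414108440000000000000000000 := rS 0x4bd1504af4daa22a945b946328142d0e227f (k8 a3022 a58 a106 i1606 a535 a33 i498 a577 (k8 a3052 a14 a1042 a457 a2598 a108 a48 i1376 (k1 a422 k0))) (by decide +kernel)
def a3054 : PP 8 4 T 0x2001000000000000000000008000000000000200000008000080000001000000000 := rS 0x69a8d4a1c0387c9c5d8ca7932794eb3e2c314585d224a32924c64d33b94660c111ac8287888859235a1b04fa734794d6859 (k8 i119 a3049 i882 i124 i884 i126 a1815 a106 (k8 i1062 i1064 a2991 a58 a387 i21 i2253 i442 (k8 i441 a3037 a392 a3042 i529 i537 a3050 i1580 (k8 a440 a102 a2996 i2247 a1332 a429 a368 a399 (k8 a1382 a1174 a388 a33 a2497 a3053 a2995 i1222 (k4 i701 i248 i1648 a341 (k1 a393 k0))))))) (by decide +kernel)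
def a3055 : PP 8 4 T 0x11002000000000000000000000000000501000800000000000000000000000000000000 := rS 0x12f45 (k2 a48 i1376 (k1 a422 k0)) (by decide +kernel)
def a3056 : PP 8 4 T 0x401000000000000002000001000000040000040008500000000000000000000000001000000000000000 := rS 0x1f2f17f43 (k4 a106 a367 a404 a442 (k1 i1411 k0)) (by decide +kernel)
def a3057 : PP 8 4 T 0x10002000000000000000000000000000000000001000000000008000000080000000010 := rS 0x22691 (k2 a102 a8 (k1 a2927 k0)) (by decide +kernel)
def a3058 : PP 8 4 T 0x400000000000000002000000000000000000400000000000001800000000008000000000000000000000 := rS 0x66c4d0f11 (k4 a58 a387 a68 i895 (k1 a436 k0)) (by decide +kernel)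
def a3059 : PP 8 4 T 0x400000000000000002000000000000000000040008000000000000000000008000028000001000000000 := rS 0x39446a423af1471110afe8745 (k8 a80 a106 a367 a2991 a58 i407 a404 i1655 (k4 i1411 i184 a382 a107 k0)) (by decide +kernel)
def a3060 : PP 8 4 T 0x2001000000000000000000008008000000000000010008000028000001000000000 := rS 0x2a1289a4baea8b4f8ca7532bf (k8 a367 i1113 i86 a33 a26 a80 a3059 i1903 (k4 i1686 i1685 a2456 a457 k0)) (by decide +kernel)
def a3061 : PP 8 4 T 0x2001000000000000000004000010000000500000000000000024000040040000040 := rS 0x25a63c0ea9c5227 (k8 a331 a443 a1825 i742 i2031 a335 a122 a1807 k0) (by decide +kernel)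
def a3062 : PP 8 4 T 0x2000000000000000000000000000000000000000000008000040000001000002000 := rS 0x11b962221 (k4 a2991 a58 a392 i1570 (k1 a107 k0)) (by decide +kernel)
def a3063 : PP 8 4 T 0x2001000000000000000004008018001000100000010008000020000041000000040 := rS 0x418fd0b4f5f87ca27f (k8 a3022 i498 i183 a367 a26 i1606 a3060 a3058 (k1 a3061 k0)) (by decide +kernel)
def a3064 : PP 8 4 T 0x2001000001000000000000008000000000000200050008000000000001000000000 := rS 0xb912350ee309f408ae18791b8e404a2828613acf62b0c8c1b8b0890e3550adca6b4289fc52270e81c1a3364965224a268c42e492010c4311 (k8 a58 a2991 a3054 a3000 i1010 i739 a1332 i529 (k8 a440 a102 i119 i1064 a3045 a3062 i457 i742 (k8 a331 a443 a3022 i498 a3049 i882 a577 i880 (k8 i1062 a387 a1788 a429 i272 i184 i2057 i1576 (k8 a368 a399 a437 a451 i1655 i180 i2051 i1044 (k8 a1478 a263 i388 a4 a3063 a3033 a345 a2579 (k2 a3010 i507 (k1 a5 k0)))))))) (by decide +kernel)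
def a3065 : PP 8 4 T 0x2100000000000004114000000004000000000000050008001000155054000001008 := rS 0x5c891a877184ea1c944d (k8 i529 a440 a387 a544 a3033 a345 a2579 a3010 (k2 i507 a5 k0)) (by decide +kernel)
def a3066 : PP 8 4 T 0x2200000000000004104000000004000000000200050000008000000054000005000 := rS 0x27516852ec49e26b (k8 a464 a1762 a127 a5 a77 i491 i1591 a388 k0) (by decide +kernel)
def a3067 : PP 8 4 T 0x2100000000000000100000000004000000000000050108008000000000000000000 := rS 0x1166b (k2 i507 i491 (k1 a1947 k0)) (by decide +kernel)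
def a3068 : PP 8 4 T 0x2000000000000004014004008014000000100200050008000000010054050001010 := rS 0x45000d603088fc76f0899713b054383c66c92c928924d (k8 i529 i1010 a440 i119 i1064 a3045 a3001 a387 (k8 a3066 a544 a3067 a5 a127 a333 a6 a441 (k4 a3010 a1187 a349 a1947 (k1 i451 k0)))) (by decide +kernel)
def a3069 : PP 8 4 T 0x2000000000000000014004008014000000100200050008000000010054050001010 := rS 0x89bc4f1046703d9259 (k8 i119 i1064 a3001 a3068 a2062 i1067 a1762 a398 (k1 a127 k0)) (by decide +kernel)
def a3070 : PP 8 4 T 0x2000000000000004100000000000000004002400450000010000000000000000000 := rS 0x9d (k2 i1858 a1382 k0) (by decide +kernel)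
def a3071 : PP 8 4 T 0x2000000000000000000000000000000000000200050008000000000081000000010 := rS 0x20a9d8c1e59e6b66a1ceec92c928924d (k8 i529 i1010 a440 i119 i1064 i79 a387 i888 (k4 i508 i1068 a3070 a3057 (k2 a347 a784 (k1 a2579 k0)))) (by decide +kernel)
def a3072 : PP 8 4 T 0x2001000000000000000000000000000000200000000000500000000000000000000 := rS 0x9f0d (k2 a4 a124 (k1 a467 k0)) (by decide +kernel)
def a3073 : PP 8 4 T 0x2001000000000000000000008000000000000200050008000000000001000000000 := rS 0x27c56c362b912205251246aa15b8a44e1f0e81c1a4021a04a6b42c944fe4d (k8 i529 a3022 i498 i119 a3049 i882 a3072 a3054 (k8 a3000 a3062 i457 i742 i183 a331 a443 a577 (k8 i880 i1062 i1010 a440 i261 a102 a3064 a40 (k4 a468 a3071 a3063 a3069 k0)))) (by decide +kernel)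
def a3074 : PP 8 4 T 0x1002000000000000004014004000005540004105054000000000000015044008400000 := rS 0x8c0e10491 (k4 i912 i2045 a3030 a3055 (k1 a42 k0)) (by decide +kernel)
def a3075 : PP 8 4 T 0x2100000000000004000004000005160000100054000008002000014005000401001 := rS 0x2169ec608a2e309135b36262a4da1d86c5079ecf315188862223238103419 (k8 a2997 a437 i748 i264 i272 a58 a2991 a1332 (k8 a14 a353 a418 a3001 a277 a276 a387 i1181 (k8 a3074 a8 i888 i508 a178 a406 a52 i523 (k4 a132 a1160 i1601 a436 k0)))) (by decide +kernel)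
def a3076 : PP 8 4 T 0x2001000000000000000000008000000000000200040008000000000001000000000 := rS 0x4da0d22bb429a822378cd3d3c471d810621a4ca5cde17009c432793da51524867c153a641998c9b110788592355fab5967347adc4e400690d02535a164a27f (k8 a3022 i498 i119 a3049 i882 a3072 a3054 a3062 (k8 a3000 a331 a577 i124 i884 i123 i98 a367 (k8 i1062 i1064 a2991 a3001 a58 i529 i537 a3045 (k8 a3073 a407 a63 a454 i1580 i1089 i1659 a418 (k8 a353 a2997 i750 i2629 a2751 i1009 a989 a837 (k8 a437 a1332 i748 i395 i264 a3075 a26 a33 (k8 i996 i524 a1189 i1869 i1947 i1174 a3058 i1182 (k1 i2045 k0)))))))) (by decide +kernel)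
def a3077 : PP 8 4 T 0x400000000004002000000000000000000004000004004000100200008100540000800400008000000 := rS 0x57a0d327a (k4 i395 i1106 a536 i540 (k1 a108 k0)) (by decide +kernel)
def a3078 : PP 8 4 T 0x1400000000000002000000000000000080500000040000000000000000000000000000000000000000 := rS 0x1774f (k2 a59 i1679 (k1 a404 k0)) (by decide +kernel)
def a3079 : PP 8 4 T 0x2001000000000000000000008000000000000200000008000000000001000000000 := rS 0xcf63af68a824ea2e303b31251725d378bd4a33168dc72f162b0e18a30d008d7052493c8e4c4f9962e31332040e0d2010d6e5350a4d685160d0d7e87889641e213f9dd1e35 (k8 i1062 i124 i79 a3022 a2991 a3001 i119 a58 (k8 a387 a367 a106 a1815 i498 a3049 i1369 i880 (k8 i882 a577 a3054 a3000 a3062 i457 a3072 a3076 (k8 i1505 a350 i38 a414 i1588 i2961 a756 i1010 (k8 a822 i2353 i788 i787 a1824 a467 a276 a277 (k8 a198 a401 a446 i1001 i192 a1609 i317 a357 (k8 a761 i1065 a758 i1674 a3077 a419 a52 a347 (k4 a668 a48 i1416 a3078 (k2 i1105 i2035 k0))))))))) (by decide +kernel)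
def a3080 : PP 8 4 T 0x402000000000000004014000000005000000000000000008000000555001000400000 := rS 0x441a420659a2a13900874f06b190f11 (k8 a58 a387 i2035 a342 a59 i441 a3000 a331 (k4 a2856 i888 i387 a436 (k2 a437 i1601 (k1 i272 k0)))) (by decide +kernel)
def a3081 : PP 8 4 T 0x10002000000000000004100000000005000040000000040008001000000000000000000 := rS 0x2e1e60a6a32a44944d (k8 i529 a440 a102 i1580 a388 a191 a1462 i507 (k1 a2497 k0)) (by decide +kernel)
def a3082 : PP 8 4 T 0x10002000000000000004100000000005000000000000040008001000000004000400004 := rS 0x3619201e8868a00014944d (k8 i529 a440 a3004 a349 a3081 i2247 i492 a3000 (k2 i1038 a857 (k1 a437 k0))) (by decide +kernel)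
def a3083 : PP 8 4 T 0x1000000000010002002000000000001055000000000140001000000080008018000000001000000000 := rS 0x10d50944dc2f31a68308b011e226a5008a9c80d43c441e213f94cc2af54ab522056588c8e761489c3e090e900864f (k8 a74 i2246 a3000 i741 a369 i182 a331 a443 (k8 i490 i2980 i184 i2308 a3004 a102 a420 a450 (k8 a427 a397 a421 a3022 a2991 a3001 a58 a387 (k8 a3062 a107 i2032 i449 a382 a8 a3057 a349 (k8 i1854 i1045 a967 a412 i2747 i1073 a2931 i310 (k2 a357 a1808 k0)))))) (by decide +kernel)
def a3084 : PP 8 4 T 0x2000000000000000000000000000000000000100080000008000000002000000000 := rS 0xc0219198151ec9 (k8 i121 i1132 a3004 i287 i349 i450 i1045 a349 k0) (by decide +kernel)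
def a3085 : PP 8 4 T 0x10002002000000000004000000000005000000000000080008018000000001000000000 := rS 0xc04ca5d2743a2ae97abf63b0e9caf56c5d2aab659ad9ac5429d84311 (k8 a58 a2991 i490 i1631 a688 i810 i548 i2308 (k8 a97 i1673 a350 a420 a427 a463 a13 a59 (k8 a60 a128 a391 a29 a86 i1639 i1903 a701 (k2 a3083 i1519 k0)))) (by decide +kernel)
def a3086 : PP 8 4 T 0x12000000000000000400000000000000000000800008008008000000001452000000 := rS 0xa35a9f54250379fc9aa560b904311 (k8 a58 a2991 a107 a408 a382 i73 a3022 i1320 (k4 i487 i311 i1630 i1397 (k2 a263 i2030 k0))) (by decide +kernel)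
def a3087 : PP 8 4 T 0x2000000000000000000000002000000000000004080008008000000001000000000 := rS 0x28d6a1f03a497251649ccfec17208c8021888cc8ea10c008020d21814fa76 (k8 i490 i1630 a3004 i2246 a3062 i449 a349 i1045 (k8 i311 i2980 i192 a58 a2991 a3000 i184 a107 (k8 a408 a3022 i838 i121 i496 i1139 i576 i455 (k4 i183 i808 i1633 a3027 k0)))) (by decide +kernel)
def a3088 : PP 8 4 T 0x2000000000000000400000000000000000000800008008008020000001002000000 := rS 0x3f0d0e9c0a04f2488c8e89 (k8 i2049 i2980 i184 i29 i1351 i487 i488 i741 (k2 a65 i1356 (k1 a3086 k0))) (by decide +kernel)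
def a3089 : PP 8 4 T 0x2000000000000000000000002000000000000000080008008000000001000000000 := rS 0xde02008348605 (k4 a3004 i2246 a3062 i449 (k2 a349 i2734 (k1 a3087 k0))) (by decide +kernel)
def a3090 : PP 8 4 T 0x2000001000000000000004000000141000101054000000540000140514012000080 := rS 0xf69b8c0ed4cae2ea0e242b (k8 i388 a127 a1898 a5 a108 i460 i334 a419 (k2 a828 a390 (k1 i2045 k0))) (by decide +kernel)
def a3091 : PP 8 4 T 0x2001001000000000000005001000001000110044005008550420140101042000000 := rS 0xa7570a9368b899e00ca20e9fc522752b05c82310c453297508bce314 (k8 a438 a117 a363 i311 a989 a837 a58 a2991 (k8 i184 a107 a408 a382 a331 a443 a3022 i741 (k8 i2030 a1824 a3090 a398 i1854 i1073 a127 a336 (k2 i2199 i460 k0)))) (by decide +kernel)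
def a3092 : PP 8 4 T 0x4002001000000000000000000000080000000000000010000000000004400000000048 := rS 0xc933c146a46 (k4 a1824 i326 a451 i1617 (k2 i1122 a352 k0)) (by decide +kernel)
def a3093 : PP 8 4 T 0x2000000000000000400001000050000000050000000000000840000001450000040 := rS 0x3054a21 (k4 i1530 i209 i1534 i2030 k0) (by decide +kernel)
def a3094 : PP 8 4 T 0x6002000000000000000101001001454540010052000015000008000000001450000048 := rS 0x1f3c076ce4ea158f10522f443193595608672b8e46e40168bd2a931eab9164d (k8 i73 i1854 a336 a1827 a115 a14 a363 i2723 (k8 i1046 a446 a401 a3027 i489 a352 a72 a464 (k8 a2424 i743 i1986 i2030 a164 i415 a361 i1857 (k4 a191 i1146 a419 i2034 (k1 a6 k0))))) (by decide +kernel)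
def a3095 : PP 8 4 T 0x2001000000000000102000000000000000000800001000000000004000004004040 := rS 0x19e0aac040d1a6e5 (k8 a408 a44 a877 a1807 i1265 a445 i1622 a547 k0) (by decide +kernel)
def a3096 : PP 8 4 T 0x2002000000000000000101000001440140010042804004000008000000000050000048 := rS 0x9b4fa84c2758b9944a1b2688c6618201f56a71 (k8 a117 i807 i1630 i1046 i1045 i2050 i1625 i73 (k8 i189 i803 i1548 a332 i79 i1047 i311 i1075 (k2 i1073 a3094 k0))) (by decide +kernel)
def a3097 : PP 8 4 T 0x2001000000000000100000001000100000000804004000088000000000010000008 := rS 0x7e83781e8567989c41487f10c64ab043395d829129a5d12051489c1ea14aa4c4a1b119f56a7128a056e1f53a8c0e6526c5c5f14308cc3040 (k8 i1046 i1045 i2050 i1047 a438 a363 a332 i73 (k8 i1548 i1221 a3092 a1825 a2995 a125 a124 i31 (k8 a117 i807 i1630 i1625 i189 i803 a115 a14 (k8 i311 i2204 a331 a443 a3004 a754 a989 i566 (k8 a102 a3095 a3027 i489 a352 a72 a2424 i743 (k8 a1044 i2030 a164 a205 a3096 i388 a406 a127 (k2 i815 a6 (k1 a3061 k0)))))))) (by decide +kernel)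
def a3098 : PP 8 4 T 0x2001000000000000000000001000100000000804004000088000000000010000008 := rS 0xfe4655b21460721805422f8b9944a1b2688c6618201f43ecb5a9c62861 (k8 i1047 a438 a117 i807 i1389 a2995 i1630 i1046 (k8 i1045 i2050 i1625 i73 i189 i803 i1548 a332 (k8 a363 i311 i23 i437 i1221 a3092 a3097 i583 (k2 i1123 i760 (k1 a3093 k0))))) (by decide +kernel)
def a3099 : PP 8 4 T 0x10202000002000000001014000000004001001001000000000000000044055500400000 := rS 0x7a4344d8e3b (k4 a333 a27 a2278 i2032 (k2 a406 i818 k0)) (by decide +kernel)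
def a3100 : PP 8 4 T 0x10002100000000000001014000000004141001001054000000000004064555520405000 := rS 0x19c7a6321d071278b4e20e5 (k8 a364 a107 a341 a3099 a127 a2105 a69 a2915 (k2 a2279 i413 (k1 i1980 k0))) (by decide +kernel)
def a3101 : PP 8 4 T 0x2100000000000001014000001004140001001050000000080000060401522405080 := rS 0x1e010412b9367b8c0ad02b71f89c662d488a4c64930928806f (k8 i2816 i1222 i181 i1047 a2997 i1351 a443 i1169 (k8 i1039 i2050 a331 a458 a125 a124 i388 a3100 (k4 a390 a41 a260 i2045 (k2 i459 a2105 (k1 a441 k0))))) (by decide +kernel)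
def a3102 : PP 8 4 T 0x2000000000000000000000001000140000002004005000010000000014020000080 := rS 0x788ac203d5726d1713 (k8 a398 i1854 i1073 a336 a1827 i459 i901 a441 (k1 a127 k0)) (by decide +kernel)
def a3103 : PP 8 4 T 0x2101000000000000481010004000014010000000000000000000015500000000000 := rS 0xac5150d4abd (k4 a285 i415 a2282 i2033 (k2 a439 a1822 k0)) (by decide +kernel)
def a3104 : PP 8 4 T 0x2000000000000000880000080000000000000000000000000000000000000000040 := rS 0x12d3512e956fd (k4 a427 i123 i626 i1679 (k2 a99 i201 (k1 a1807 k0))) (by decide +kernel)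
def a3105 : PP 8 4 T 0x2101000000000000481000004000014010000000001000000000015500000000000 := rS 0xada1ae14abd (k4 a285 i415 a3103 a2282 (k2 i1289 a439 k0)) (by decide +kernel)
def a3106 : PP 8 4 T 0x400000000000000002000000000000000000000080001008000000000020000000000000000000000000 := rS 0x4fc65308a3133e2e95 (k8 i83 a19 a454 i1550 i539 i540 a52 i1112 (k1 a463 k0)) (by decide +kernel)
def a3107 : PP 8 4 T 0x2000000000000000000000002000000000000000000000000000000000001000208 := rS 0x6c2e2e (k4 i1084 i2754 i2072 a437 k0) (by decide +kernel)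
def a3108 : PP 8 4 T 0x2001000000000000001001010150000000040000000000100020000001510000000 := rS 0x14cf81f (k4 i183 i2030 i826 a1110 k0) (by decide +kernel)
def a3109 : PP 8 4 T 0x20002200001000000000000000000000000000000200040000000000000050008000000 := rS 0x2247813b393a7b (k4 a390 a347 a784 i785 (k2 i1067 a127 (k1 a398 k0))) (by decide +kernel)
def a3110 : PP 8 4 T 0x2001000000000000001001010150200000040000004004024000000041518004010 := rS 0x4f133c3393a368cbc6080d618a62e9f1999d9231720e524953a4454e7c381940e1f5422c2e191a9cc5e3b (k8 i394 i317 i834 i356 i67 i66 i1939 a837 (k8 a903 i456 i1089 i575 i2030 a1825 a73 i1361 (k8 i1598 i1360 i1936 a107 a1332 i1063 i1587 i1585 (k8 i1112 a19 i274 a1105 a392 a352 a1762 a3109 (k4 a419 i1780 a191 i1067 (k2 a398 i1768 (k1 a127 k0))))))) (by decide +kernel)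
def a3111 : PP 8 4 T 0x4002000000000000008004000000000000000000200050000004000000050001005000 := rS 0x1e22789c10f0c9 (k4 i1063 i1067 a352 a398 (k2 i1768 a1762 (k1 a127 k0))) (by decide +kernel)
def a3112 : PP 8 4 T 0x4002001000000000000000000010000000400020100004000020000000000000000000 := rS 0x92549d8e311 (k4 a73 i1361 a466 i575 (k2 i1629 a1109 k0)) (by decide +kernel)
def a3113 : PP 8 4 T 0x4002000000000000008004000000000000000000200050000004000000040008005000 := rS 0xa07219 (k4 i67 i1976 a3111 i274 k0) (by decide +kernel)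
def a3114 : PP 8 4 T 0x102000000000000004010000000000000000000000400100000400000021108005000 := rS 0xc2668458e78 (k4 i275 i2158 i1835 i1972 (k2 a132 a1038 k0)) (by decide +kernel)
def a3115 : PP 8 4 T 0x4002000000000000004008000000000000000000000000000000000011000000000000 := rS 0x66e5 (k2 a468 i291 (k1 a429 k0)) (by decide +kernel)
def a3116 : PP 8 4 T 0x2000001000000000000000000000000000002000000000000000000050001000000 := rS 0x4f13 (k2 a398 i1768 (k1 a127 k0)) (by decide +kernel)
def a3117 : PP 8 4 T 0x2200000000000004010000000000000000000000000000000000001008008001000 := rS 0x19d160002a753e421b1042ec9 (k8 a343 i66 a331 i786 a3000 i996 i1779 i518 (k4 i780 i1774 i449 a191 k0)) (by decide +kernel)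
def a3118 : PP 8 4 T 0x8002201000000000000000000004100000000020000040000000080011000018000002 := rS 0x4280c0d30f98ca41964b2ccaad02904a2335cc352a73549c5264c (k8 i779 a19 i1360 i575 i2579 i1598 a340 a465 (k8 a360 i2257 i21 i2 a445 a63 a385 a343 (k8 i67 a1110 i536 a903 a2396 i2040 a377 i961 (k1 i196 k0)))) (by decide +kernel)
def a3119 : PP 8 4 T 0x8002200000002000000000000000100000000020000000000000080011000008005002 := rS 0x1e50818a6097e28c3aab86b2d5a473393cae512608c66c1 (k8 a408 a360 i272 i779 i2257 i441 i2533 i449 (k8 a451 a445 a385 a340 i1595 i1233 i1593 a3118 (k4 a369 a421 a1834 i819 (k2 a1812 i1301 k0)))) (by decide +kernel)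
def a3120 : PP 8 4 T 0x10802202000000000000000011000000104000010040040004100000000000000000000 := rS 0x26d2f455e2da2a7e29a059859 (k8 a2 a1729 a45 a421 a924 a853 a2265 i849 (k4 a116 i1902 i1417 a422 k0)) (by decide +kernel)
def a3121 : PP 8 4 T 0x400000000000000002201000000000000000041000000000000500000000104540000000000000000000 := rS 0x5ed1686bf572a96e5965ab4aa6b (k8 a464 a72 a445 a385 a2 a577 a1301 a108 (k4 a367 a106 a381 i1986 (k1 a404 k0))) (by decide +kernel)
def a3122 : PP 8 4 T 0x112200000000000000001011000100004000050000044000000080000401550000002 := rS 0x1526103025409555a8e84c9659955a41 (k8 i21 a445 a63 a385 a343 a403 a395 a106 (k4 a121 i2030 i196 i820 (k2 i961 i456 (k1 i2040 k0)))) (by decide +kernel)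
def a3123 : PP 8 4 T 0x102200000000000004000000000005000000000000000000000080000001108001002 := rS 0x34c7ea7548f68abc38ad8fc1f318761a527e88cfac15ca4c66e48b2ecef4f6620d031261a6452f162b1c4e101c22832351885d4ac92c83cca6b028ac9e2f39974ae515a9323267 (k8 i449 a784 i779 a822 i2257 i441 a543 i2579 (k8 a895 i2533 a416 i2 a464 a63 a17 a2 (k8 a343 a1609 i66 a1332 i356 i67 a191 i452 (k8 i451 i1876 i299 i1880 a441 i1835 i3110 i1952 (k8 a127 a45 a68 a1729 a36 i810 i1949 a463 (k8 a379 a360 a19 a465 a408 a3119 i272 a3120 (k8 a3121 a375 a1820 i536 a903 a3122 i848 i799 (k8 i849 a116 i1783 i575 i1984 i1411 a2396 a442 k0)))))))) (by decide +kernel)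
def a3124 : PP 8 4 T 0x12000000000000000000000000000000000000000002000000080000000050000002 := rS 0xa16981c5803 (k4 i23 i960 i1224 a329 (k2 i820 a377 k0)) (by decide +kernel)
def a3125 : PP 8 4 T 0x12201000000000002000011001000004400010000004000000080000400050001002 := rS 0x3b33e2e8a16a6d5ee4a2b48eabc11ad946a13f01d83438cc5154954ba2532c9659955a4735814ce3512884c311 (k8 a380 a3124 a909 i859 i1115 i449 i2 a464 (k8 a451 a445 a63 a385 a343 a837 a754 a989 (k8 a1042 i2040 a438 a2424 a106 a1815 i457 a403 (k8 i820 a1824 i848 i1664 i849 i1667 a377 a116 (k8 a107 i1986 i1417 a329 a967 a2487 i1979 a466 (k1 i810 k0)))))) (by decide +kernel)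
def a3126 : PP 8 4 T 0x2201000000000002000010000000004000010000000000800080000000008001002 := rS 0x1fadc709913a799e298bb0c6474113047ad23fa8d42a73801d36a8528c58a814ea1e2217079948e6715a3c5e4b128856b0d418743e63399303205 (k8 i2 i67 i779 i2579 i536 a903 a1820 a334 (k8 a375 a822 a909 i859 i438 a895 i2596 a416 (k8 i449 a451 a63 a17 i66 a380 i153 i1910 (k8 i1975 i1792 a1332 a1609 a3125 a457 i456 i575 (k8 a1825 i820 a1824 i2558 a377 a335 a44 i2030 (k8 i273 i272 i2155 a360 i1968 a3113 a3123 a3117 (k4 a2302 i1712 i802 i297 (k1 i2031 k0)))))))) (by decide +kernel)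
def a3127 : PP 8 4 T 0x502200001000000004010000000000000000000000000100000000000041108005000 := rS 0x5227239ac6217 (k4 i66 a1332 a464 a451 (k2 a3117 a3114 (k1 a127 k0))) (by decide +kernel)
def a3128 : PP 8 4 T 0x102000000000000000020000000000000000000000000000000000000001108000000 := rS 0x88eae5 (k4 a40 a1268 a107 i273 k0) (by decide +kernel)
def a3129 : PP 8 4 T 0x102200000000000001000000000000000400000000000105020000000041108005000 := rS 0xa44e3942b398af1619ae2659 (k8 a2 a1729 a464 a1038 a1762 a3128 a3127 i1871 (k4 i1976 a1214 i274 a127 k0)) (by decide +kernel)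
def a3130 : PP 8 4 T 0x4402200000000000000000000000000001008000100040000000000042000100000000 := rS 0x4f1e2327b679de9e9d (k8 i1645 a20 i1507 i988 i817 a784 a406 a463 (k1 i1075 k0)) (by decide +kernel)
def a3131 : PP 8 4 T 0x400000000000014002000000001000004040000000001000000000000000000000000011000000000000 := rS 0x649e (k2 a463 a429 (k1 i1711 k0)) (by decide +kernel)
def a3132 : PP 8 4 T 0x18402200000000000000000000000000001008000100000100000000000000000000000 := rS 0x1ecf277 (k4 a332 a1030 i817 a406 k0) (by decide +kernel)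
def a3133 : PP 8 4 T 0x212000000000000000100000002000000000000400000000020080008401150000000 := rS 0xd2529fd42c15c9c00e2d (k8 a1828 i456 i575 i1139 i1614 i820 i799 i289 (k2 a377 a2218 k0)) (by decide +kernel)
def a3134 : PP 8 4 T 0x10402202000000000000000045000000000040010000000004100085440000100010000 := rS 0x30794e830ec3542d33f2bca609 (k8 a369 a421 a427 a924 a2796 i819 a35 i719 (k4 i926 a889 a377 a1811 (k1 i1301 k0))) (by decide +kernel)
def a3135 : PP 8 4 T 0x2201000000000000000041000000000008010000000104540000000000000000000 := rS 0xfe55 (k2 a72 a1044 (k1 a900 k0)) (by decide +kernel)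
def a3136 : PP 8 4 T 0x2001000000000000100000000200000000000000004000000000008000000000010 := rS 0x2a510b8 (k4 i289 i288 i1139 a754 k0) (by decide +kernel)
def a3137 : PP 8 4 T 0x2000000000000000100000000200000000000040004000800080008000000000000 := rS 0x1440121afd (k4 a452 a375 a3136 i288 (k2 i2 a1015 k0)) (by decide +kernel)
def a3138 : PP 8 4 T 0x2000000000000000000000000000000000000040000000800080000000000000220 := rS 0x220030d (k4 a375 i2 i262 a1015 k0) (by decide +kernel)
def a3139 : PP 8 4 T 0x4402200000001000000000000000000001008000100000000000000244000100000010 := rS 0xce30000d4069d (k4 i1645 a401 i360 a349 (k2 a429 i450 (k1 a3130 k0))) (by decide +kernel)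
def a3140 : PP 8 4 T 0x4402201000000000080000000001200401008000100004000000004044040100000010 := rS 0x687439448b45e3d53a652ee5 (k8 a382 a989 a837 a67 a335 a359 a329 a754 (k4 a3139 i2034 a1014 i394 k0)) (by decide +kernel)
def a3141 : PP 8 4 T 0x14402201000000000080000000001200401008000100004000000084044000100000000 := rS 0x3c858082b (k4 a416 a3140 i518 i972 (k1 a1001 k0)) (by decide +kernel)
def a3142 : PP 8 4 T 0x402000000000000000000000000200000008000040400000800084080000000000040 := rS 0x401098110b065843d13aed8b4f15a0dcac753bf5e203 (k8 a446 a376 a452 a1825 i414 a382 a334 a416 (k8 a20 i1524 i1684 i738 i1386 a379 i1044 a1577 (k4 i1952 a252 i708 a1790 (k1 a3138 k0)))) (by decide +kernel)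
def a3143 : PP 8 4 T 0x400000000020002200000000000000000000002001104000000000000000000000000000000000000 := rS 0xce4a19e2e9f45c5572c9 (k8 a343 i1139 a400 a52 a33 a192 i576 a447 (k2 a784 i1104 k0)) (by decide +kernel)
def a3144 : PP 8 4 T 0x400000000000002200000000000000000600002000200000010004000000900000000000000000000 := rS 0xff116621ce08139a14ae5d24ad5070d2c9562a6330d155e6b (k8 a464 i1986 a433 i96 i97 a400 a72 a2 (k8 a375 a334 i882 i829 i570 i569 i1872 a2961 (k4 i1864 a389 a982 a460 (k2 a380 i2558 (k1 a403 k0))))) (by decide +kernel)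
def a3145 : PP 8 4 T 0x4002200000000000000000600002200200000000004000000000080000000000000000 := rS 0x62350c000944927874424d3f94cfa5112b9686592a81d963302bf4c6c9 (k8 a343 i97 a431 a1832 a3136 a385 i1379 a72 (k8 a2 a129 a382 i858 i439 i1326 a3144 a1044 (k8 i574 a940 i1382 i701 i1087 a440 i437 i438 (k2 i1114 i1042 (k1 a429 k0))))) (by decide +kernel)
def a3146 : PP 8 4 T 0x20202200000001000000000000000000000000000000040000000000014011000000000 := rS 0x3c05636610c22e9f45b259c9d (k8 a347 a784 a343 a52 a33 a192 a429 a1713 (k4 i988 i371 a1796 a376 k0)) (by decide +kernel)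
def a3147 : PP 8 4 T 0x2001000000000000000004000010200000400000000000011024400000044000048 := rS 0x10073158609417 (k4 i739 a440 a437 i387 (k2 i2758 a3061 (k1 i1864 k0))) (by decide +kernel)
def a3148 : PP 8 4 T 0x20002200000000000000000000002200004000000000000000010000000001000000000 := rS 0xc05c901f1f808362e008d16ecd41a3e20b550b94763302bf4c6290e81d962323884804337af19c675fa5173154c50e2e9f4ea2d9255 (k8 a72 a343 a52 a347 a33 a192 a129 a3143 (k8 a400 i1139 a447 i1725 i576 a784 i1105 i2736 (k8 a3145 a3000 i743 a451 i184 a385 i1379 i742 (k8 a443 i97 a431 a1832 a3136 a345 a382 i363 (k8 a1788 a107 i1103 i1415 a380 i1988 a3146 i2759 (k8 i1098 i356 a349 i404 i2052 a3147 i1116 a437 (k1 a2997 k0))))))) (by decide +kernel)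
def a3149 : PP 8 4 T 0x400000000000000002200000000000000010600002200220000000004000000000020420002000000000 := rS 0x10e825ba05422b299cc30f03e944103f0fb4c04491b8b8021772d0cc60553bf47a29138740ecb (k8 a385 i1379 i742 a331 a443 i1386 a431 a1825 (k8 a1832 i97 a129 a382 i2760 i2759 i1098 i1121 (k8 a1061 a349 a359 i2052 i404 i1085 i1309 i1325 (k8 a599 a3107 a2961 a3144 a61 i2215 i1864 a577 (k2 a783 i927 (k1 i1416 k0)))))) (by decide +kernel)
def a3150 : PP 8 4 T 0x20102200000000000000000000000000000000000400040000000000002010001400000 := rS 0x54cc3a23c351745b258e9f788d99c9d (k8 a347 a784 i988 a376 a33 i1691 a343 a52 (k4 a192 a437 i984 a466 (k2 i1068 a3109 (k1 i889 k0)))) (by decide +kernel)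
def a3151 : PP 8 4 T 0x20002200000000000000000000002200004000000000000000000000000002000000000 := rS 0x8e0b1dc60191ac45ca3b19815fa63a7b145240219bd78ce33afd28b98aa6287174fa7516c9 (k8 a343 a52 a347 a33 a192 a129 a3143 a400 (k8 i1139 a447 i1725 i576 a784 i1105 i2736 a3145 (k8 a3000 a443 a807 a3 i97 a431 a1832 a3136 (k8 a345 a382 a38 a3149 i348 a429 i804 a3150 (k2 i860 a521 k0))))) (by decide +kernel)
def a3152 : PP 8 4 T 0x20002200000000000000000000002200004000000000000000000000000000000000000 := rS 0x53262844a40219bd78bf672513067a1c5d3e9d45c5572c9 (k8 a343 i1139 a400 a52 a347 a33 a192 a129 (k8 i576 a3143 a447 a784 i1725 i1105 i2736 a3145 (k4 a3000 a3151 i363 a3148 (k2 i826 i574 k0)))) (by decide +kernel)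
def a3153 : PP 8 4 T 0x20002200000000000000000000002200000000000000000000000000000000000000000 := rS 0x1805103449014c6c9 (k8 a343 i97 a1832 a3152 i1365 i1364 i1114 i191 (k1 a349 k0)) (by decide +kernel)
def a3154 : PP 8 4 T 0x2000000000000000000000000000000020000000000000000020000000004000001 := rS 0x2e19 (k2 i2049 i740 (k1 a437 k0)) (by decide +kernel)
def a3155 : PP 8 4 T 0x2200000000000000000000000000000000000000000000000080020000000800000 := rS 0x101340a0f (k4 a17 i354 i708 i1117 (k1 a957 k0)) (by decide +kernel)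
def a3156 : PP 8 4 T 0x2200000001000000000000004000000020000000000000000000020401000000000 := rS 0xa4b53993c3a182485cae5121104365965ab4aa23313f4100200b240a0f (k8 a17 i354 a343 i1114 a349 i190 a369 i191 (k8 i2126 a72 a445 a385 a2 i356 a3154 a3000 (k8 i1310 i442 a3155 i699 a437 i1343 i1351 i1091 (k2 a1788 a1301 (k1 i536 k0))))) (by decide +kernel)
def a3157 : PP 8 4 T 0x4002200000000000000000000004200008000000000000000000000000000000000000 := rS 0x13ca2b52b9311e4b3a868a61920090defd50820c40200814662f440d1cac92cb2c1e554aae4c2ad (k8 a445 i1281 i130 i83 a72 a17 a385 a2 (k8 a343 a382 i1365 i1364 i366 i289 i354 i1114 (k8 a349 i191 i190 i2064 a369 i2858 a3156 a570 (k8 i2049 i826 a3154 i1061 i1045 i873 i189 a2889 (k4 i1369 i528 i790 a1301 k0))))) (by decide +kernel)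
def a3158 : PP 8 4 T 0x24002000000000000000000000040500400411000108400115000001140502000000000 := rS 0x7cc24ca196ecd4b9ec767f (k8 i843 a345 a390 a71 a1006 a2670 a460 i1060 (k2 i928 i2034 (k1 i375 k0))) (by decide +kernel)
def a3159 : PP 8 4 T 0x4002200001000000000040000040501400410000908000110004001140502008000000 := rS 0x6743b359e7a150ea32852a9ad2257 (k8 a2889 i913 a464 a72 i1631 a3158 a419 i394 (k4 i395 i1146 i889 i2570 (k2 a1179 a794 k0))) (by decide +kernel)
def a3160 : PP 8 4 T 0x2201000000000000000000004100008000000000008010024000160000009000000 := rS 0x1e074cd43c65385d78a9c7a07690bcdc71579422a2d121d98eb56595522573ac5d1e33279855a9b0494ce689 (k8 i358 i835 i536 i1348 a412 a445 i1281 i790 (k8 i70 i873 a19 i1061 a2889 i913 a72 a385 (k8 i1369 i2242 i357 i356 i1242 a115 a1301 i2350 (k8 i1359 i528 i318 a120 a402 a335 a67 a1818 (k8 a761 a3159 a347 i1645 i1910 a419 a669 i1069 k0))))) (by decide +kernel)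
def a3161 : PP 8 4 T 0x2200001000000000000000000002001400000800000000020000140000001000000 := rS 0x781d3350f19 (k4 a347 i1645 i1910 a419 (k2 a669 i1069 k0)) (by decide +kernel)
def a3162 : PP 8 4 T 0x2202000000000000000001000000000000040804000004420000000000000000000 := rS 0xa27d (k2 i1630 i528 (k1 a924 k0)) (by decide +kernel)
def a3163 : PP 8 4 T 0x2200000000000000000000000100008000000000008010024000160000009000000 := rS 0x13a5d78a9c7a07690bcdcaf7e14d569b4ac545a76639cd127f122d522573ac5d1e33 (k8 i70 i873 a19 i1061 a2889 i913 i1369 i356 (k8 i843 i358 i835 i2242 i357 i1242 a115 i83 (k8 a412 i538 i536 a3160 a427 a3162 i1053 a120 (k4 a402 a335 a67 a2041 (k2 a761 a3161 (k1 a3159 k0)))))) (by decide +kernel)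
def a3164 : PP 8 4 T 0x12000000000000000000000000000000000000000000000000000000200058000008 := rS 0x142d3 (k2 a329 a195 (k1 a377 k0)) (by decide +kernel)
def a3165 : PP 8 4 T 0x2200000000000000040000000000000000000800000000020000800002009000000 := rS 0x87669e4f42a (k4 i394 i395 i1069 i889 (k2 i2570 a669 k0)) (by decide +kernel)
def a3166 : PP 8 4 T 0x402000002000000000000000000000500010002008000000000000400510000000008 := rS 0x40d156ea61c8dc7a3f86a0d2e7b (k8 i60 i1324 i1439 a357 a6 a365 a446 a401 (k4 i2034 i1932 a410 i1859 (k1 a462 k0))) (by decide +kernel)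
def a3167 : PP 8 4 T 0x2200000000000000000000001000200000040804000000420000000000000000000 := rS 0x312a9fa953e95c96518a93cc25965ab4aab5 (k8 a822 a72 a445 a385 a2 a448 i790 a57 (k8 i528 i73 i1628 i1630 i1675 a3162 i2037 a438 (k1 i538 k0))) (by decide +kernel)
def a3168 : PP 8 4 T 0x2200000000000000000000000010200040000044000000020000000402008000000 := rS 0xf8945595d3c9d6799e2c353baa46253010ccfe40729449e6164b2ccaad2aad51e59 (k8 a2 i874 a822 a72 a445 a63 a385 a343 (k8 a448 i790 i528 a409 a570 i842 i287 i788 (k8 i826 i1002 i1084 a3167 i357 a429 a350 a368 (k4 a399 a192 i529 a1174 (k2 i1112 i2037 (k1 i1598 k0)))))) (by decide +kernel)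
def a3169 : PP 8 4 T 0x2000000000000080000001010000000000060000000014100020000001100000000 := rS 0x7e4343a0760a8ca6a1 (k8 a344 i826 a99 a44 a402 a341 a340 a1110 (k1 a2801 k0)) (by decide +kernel)
def a3170 : PP 8 4 T 0x1002200000000000080000001001000000000040000001004140020015001540000000 := rS 0x668b189caaa7ea90fa1d60a8cb2cb56954a6a1 (k8 a344 i826 a72 a445 a385 a2 a99 a44 (k8 a341 a3169 i2030 a924 i2037 a382 a438 a429 (k2 i537 a350 k0))) (by decide +kernel)
def a3171 : PP 8 4 T 0x1002000000000000000000000000000000000080444000000000000000000000000000 := rS 0xe30d (k2 a35 i799 (k1 a389 k0)) (by decide +kernel)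
def a3172 : PP 8 4 T 0x1002000000000000040000000002000000010000000000000100020000000008000000 := rS 0x2993e1a09500b85afd (k8 a431 a1828 a120 i317 i2072 a413 a1821 i827 (k1 a467 k0)) (by decide +kernel)
def a3173 : PP 8 4 T 0x2001000000000000000000000020000000000000000000500000000000000000000 := rS 0x9f0d (k2 a413 a1821 (k1 a467 k0)) (by decide +kernel)
def a3174 : PP 8 4 T 0x2202000000000000000000000020200000000440008000100000000001000000000 := rS 0x21d9a85a79d105136345d6e114ea7cf6a68c3c5860d72316227f69a3c42391b88c1e0202900865300a268a8b57a04763f170682e196491cd6b526124e10d37c549e4b (k8 i487 a74 a51 i1319 a413 a389 i749 a440 (k8 a822 a464 a451 a343 i311 i821 a437 i796 (k8 i2234 i1107 i1864 a427 i1938 a433 i279 i448 (k8 a421 i819 a3000 i261 a349 i2206 i2062 a446 (k8 a401 i2544 i2597 a344 a3171 a1778 a3128 a107 (k8 a392 a468 a1762 a419 a599 a390 a33 a347 (k8 i1912 i801 a192 a132 a2265 a462 a466 a59 (k4 i1601 i894 i1707 a436 k0)))))))) (by decide +kernel)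
def a3175 : PP 8 4 T 0x2202000000000000000000000020200000000040008000100000000001000000000 := rS 0x2f59ca68c19d3af106a5126c3721fa2e761aaa556d32612c7237078ec7e2e0d05c3231328cc8e0202924e10d37c549e402194c0289 (k8 i279 i448 a421 i819 a3000 a74 a51 i1319 (k8 a413 a389 i749 i261 a349 a451 i192 a63 (k8 i1002 i311 i821 a437 i796 i2234 i1107 i2206 (k8 a446 a401 i487 a440 a344 a97 a450 i356 (k8 a3174 a332 a3167 a429 a1105 i1638 i800 a392 (k8 a1762 i1943 i1673 a419 a599 a784 i1984 i1105 k0)))))) (by decide +kernel)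
def a3176 : PP 8 4 T 0x2202000000000000000000000020200000000040008000100000000000000000000 := rS 0xac673ec5926353b9fdca24198c56a4732aa434170c930960202924e10d37c549e402194c0289 (k8 i279 i448 a421 i819 a3000 a74 a51 i1319 (k8 a413 a389 i749 i261 a349 i487 a440 i311 (k8 i821 a437 a450 a63 a451 a822 i1002 i192 (k8 a3175 a409 i2557 a3167 i357 a1020 a429 i1360 (k2 a350 a924 (k1 i529 k0)))))) (by decide +kernel)
def a3177 : PP 8 4 T 0x2000000000000004014001000021200004010000000000000004155002000000000 := rS 0xa778b193ea369c347711 (k8 a38 i1107 a413 a344 i325 a2302 i2035 a27 (k2 i336 a599 k0)) (by decide +kernel)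
def a3178 : PP 8 4 T 0x14000000000001020020000000000040140000004a1001000050040000100100005555000000000000 := rS 0x9f63afd06f029abc9ed3 (k8 a344 a74 a427 a421 a442 i920 i1720 a27 (k2 a563 i2035 k0)) (by decide +kernel)
def a3179 : PP 8 4 T 0x8002102000000000000000000000020200000050040000000120004150002000000001 := rS 0x17e9e63a9945435a0c58a4661a1cb0576799d23451d8f4ba8b57c44aa9d49a25ca33479008653 (k8 a421 i819 a3000 i2597 i287 a409 i279 a1020 (k8 i1943 i2549 a38 a427 i1938 i531 i1785 i1107 (k8 a433 a110 a350 a368 i529 a362 a358 a487 (k8 i867 a366 i1532 a3177 a84 i881 a3178 i2202 (k2 i2035 i1719 (k1 i1113 k0)))))) (by decide +kernel)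
def a3180 : PP 8 4 T 0x2102000000000000000000000020200000000060000000120004010002000000001 := rS 0x2d686a34a0c22e7d49c35122d0e8b8723701014924f72c44668f2010ca67f (k8 i2557 a421 i819 a3000 i2597 i287 a38 a409 (k8 a74 i749 i261 a349 a446 a401 i796 i89 (k8 i1239 i279 a413 a1020 i1360 a3179 a429 i1081 (k4 i1652 a121 i881 a403 k0)))) (by decide +kernel)
def a3181 : PP 8 4 T 0x2102000000000000000000000020200000000060000000104000000002008000001 := rS 0xb2573b0d0ab112010ca64c2493c7e2e (k8 i796 i2234 a74 i749 a440 a421 i819 a3000 (k4 a38 i2549 a3180 i357 (k2 i1628 i2561 (k1 a362 k0)))) (by decide +kernel)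
def a3182 : PP 8 4 T 0x2000000000000040080000000040200000000000000000000004040000000000000 := rS 0x14ef1 (k2 a27 i336 (k1 a599 k0)) (by decide +kernel)
def a3183 : PP 8 4 T 0x2000000000000000000000000008200000000820000000000000000000000000000 := rS 0x2dcf486 (k4 i1715 i1716 i2560 i1940 k0) (by decide +kernel)
def a3184 : PP 8 4 T 0x102100000000000000014001000024200000010020000014100004011000000000008 := rS 0x1f90513a1add44bb3db1a309d678ccce5469d1492811c8b92e3b1bb25f8532010e1a4f (k8 a1821 a413 i2555 a3000 i2556 a467 i1122 a446 (k8 i1107 i84 i796 i321 i1362 i749 a433 a344 (k8 a362 i1620 i193 a2062 a544 a262 i2035 a390 (k8 i1680 a3182 i801 a395 a2265 a462 a403 i926 k0)))) (by decide +kernel)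
def a3185 : PP 8 4 T 0x102000000000000000000000000020200000000820000000000000000001008000008 := rS 0x17ace33a993a94789fa088b06b0d56af7231462fc10944aec954930963769c349eb547c5c3235119bd227d3a8247e391725c1e5929900869f (k8 a3183 i2555 a3000 i2556 i866 i338 i84 i796 (k8 i321 i2234 i2072 i79 i1361 i917 i57 i273 (k8 i356 i67 a332 i125 i880 a1821 a413 a344 (k8 a446 i1045 i189 i1085 i1122 i1628 i1359 i2544 (k8 a467 i1507 a3128 a107 a427 a97 a1105 a392 (k8 i1938 a3184 a3167 a199 i800 a3161 a599 i1673 (k2 a191 i1984 (k1 i1105 k0)))))))) (by decide +kernel)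
def a3186 : PP 8 4 T 0x1002000000000000040000000002000000010000040000000000020000000008000000 := rS 0x51 (k2 i496 a3172 k0) (by decide +kernel)
def a3187 : PP 8 4 T 0x2000000000000008000000000020200000000820000000000000010000000000000 := rS 0x659fd05135b9ed9b102b964fab512d150297010040aad55bf0a25386d3d76b917154ca4c25aa48043449cc3515699bc924f (k8 a1821 i749 i57 a344 a57 i795 i78 i279 (k8 i2555 a3000 a3186 a2988 a440 a454 i792 i796 (k8 i1137 i1951 a3 a413 i2556 i1359 a467 a97 (k8 a420 a1829 i1077 a349 i84 i1362 a433 i804 (k8 i2562 i1630 i2561 i1628 a3185 a380 i1980 i801 (k4 a2265 a462 i926 a2892 (k1 i2037 k0))))))) (by decide +kernel)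
def a3188 : PP 8 4 T 0x2000000000000008004000000020200000000020000000000000010000000000000 := rS 0x2d4b2578832ceabd3eb354c8289adcf67f3b9550abb32d3e2f4540a5d1e4c24ab556fc2892d52893986a2ad33794c80438693d722e (k8 i796 i1137 a1821 a413 i2555 a3000 i2556 i57 (k8 a344 a57 i795 i78 i279 a3186 a2988 i1359 (k8 a467 a97 a420 i749 a440 i2597 i84 i1362 (k8 a433 a368 a3 a454 i1951 i1871 i792 a3187 (k8 a3171 i1981 i801 a2265 a462 i920 i2607 i1442 (k8 i1984 i1068 a1579 a466 a2889 a426 a444 i2037 k0)))))) (by decide +kernel)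
def a3189 : PP 8 4 T 0x202000000000000000004000000021200000000420000000000000011000000000000 := rS 0xa778b198a9f198357e67654156a7d2b96472971d8fc6e0f010040aad55bf0a25386a95722e67954984b5490086890d34c924f3f9ce2a6f (k8 i57 a57 i78 a3171 a1821 i749 a344 i795 (k8 i279 i2555 a3000 a3186 a2988 a440 i791 a3188 (k8 i796 i1137 i365 a413 i2556 i1359 a467 a97 (k8 a420 a1829 i1077 a349 i2206 a446 i2234 i1107 (k8 i84 i321 a426 a58 a73 a444 a1778 i2037 (k8 a2779 a396 i466 i193 i1113 a277 i2035 a27 (k2 i337 a599 k0))))))) (by decide +kernel)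
def a3190 : PP 8 4 T 0x102002000000000004000000000000200000000420000014520000510000000004009 := rS 0x78c65860d4e45cce9f491d12a33189f16a6b23996083745abd92553f9ce2a6f (k8 i57 a57 i78 a3171 i791 i1122 a427 i1938 (k8 a446 a362 a63 a451 a464 a822 a924 i1002 (k8 i192 i1598 i1361 i1360 i1112 i1587 a19 a388 (k4 a764 a1105 a347 a1762 (k1 a419 k0))))) (by decide +kernel)
def a3191 : PP 8 4 T 0x2002000000000004000000000000000000100020000108521000510000400404008 := rS 0x892dd3a7b8c3c58a2506b91869f8b8cc62663591cca37 (k8 a446 i1580 i1577 i507 i529 i1002 i192 a350 (k8 a414 a1105 a429 a392 a409 a40 a198 a419 (k4 a390 a347 i801 a3080 (k1 a2265 k0)))) (by decide +kernel)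
def a3192 : PP 8 4 T 0x2000000000000000000000000020200000000020000020000000000000000000000 := rS 0x920a01173f0a24b54a24e61a8ab4cde532010e1a4f (k8 a1821 a413 i2555 a3000 i2556 i57 a344 a57 (k8 i795 i78 i279 a3186 a2988 i1359 a467 i796 (k4 i1077 a2 i866 a3181 k0))) (by decide +kernel)
def a3193 : PP 8 4 T 0x802102000000000001000000000000000000040420040002100020000000000404010 := rS 0x87 (k2 a69 a2945 k0) (by decide +kernel)
def a3194 : PP 8 4 T 0x2102000000000000040000000008200000040020044014100004401001456004000 := rS 0x1c82060d0d4aa369a517d198aa2d5ea1 (k8 i795 a427 i1938 a57 a33 i1113 i1112 a2986 (k4 i1719 i1451 a121 i1517 (k2 a2978 a393 (k1 a46 k0)))) (by decide +kernel)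
def a3195 : PP 8 4 T 0x102102000000000004000000000000200000000420000014100000410000000000008 := rS 0x3599418c24f8fc22c563bc2269d66950fe738a9bd16af028dd921f44824c667188cc56250c06c2e2913874464025134020f298e4924f (k8 a74 i749 a401 a421 i340 i23 a3190 a440 (k8 i1046 i185 i741 a331 a443 i998 i189 a437 (k8 i348 i387 i2050 i2724 i489 i487 a369 i190 (k8 i1356 i1122 a446 i24 a427 i1938 i57 a57 (k8 i78 a3171 a362 a2010 a544 a3193 a127 a27 (k8 a49 a441 a6 a3194 i2035 a276 i1491 i467 (k1 a1947 k0))))))) (by decide +kernel)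
def a3196 : PP 8 4 T 0x102002000000000004000000000000200000000420000014100000410000000000008 := rS 0x89bc618c362835c8212ac10461d138a44a2b20284304a0d934a6011c85c924f0787d1209 (k8 a369 i190 i1356 i340 a74 i749 i998 a401 (k8 i23 a421 a3190 i189 a440 a437 i795 i1046 (k8 i387 i348 a443 a331 i741 i185 a3195 a72 (k8 i743 a107 a392 a40 a468 a1812 a199 a2220 (k1 a127 k0))))) (by decide +kernel)
def a3197 : PP 8 4 T 0x2200000000000004000000000000000000020020000004000000410000000000008 := rS 0x9d8c3c5860d8b99d2474008e46e0f189946647 (k8 a451 i192 a63 i1002 i340 a446 a401 i23 (k8 i1361 i1360 i1587 a19 a764 a1105 a1762 a419 (k2 a347 a784 k0))) (by decide +kernel)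
def a3198 : PP 8 4 T 0x2202000000000004000000000000100000040020000004100000410000500000008 := rS 0x18af061835c9191298c304a0d935687d1c8dc2e492783e2253 (k8 a421 a1778 i340 a74 i749 i998 a446 a401 (k8 a3197 a924 a822 i189 a440 a437 i487 i348 (k4 a2965 a107 a392 a468 (k2 a419 a40 (k1 a199 k0))))) (by decide +kernel)
def a3199 : PP 8 4 T 0x11002200000000000004100006000410500000100400040000008001000810050000010 := rS 0xf087150fd0665359344e91 (k8 a102 a725 a822 a464 a63 a3055 i405 i2031 (k2 i933 a3057 (k1 a3070 k0))) (by decide +kernel)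
def a3200 : PP 8 4 T 0x2202000002000000000001000000000000010020000004500000800000000000008 := rS 0x41a056e5d1fa6d4e7a151305c1a5007c3b0d449f89eaf049bde221 (k8 a46 a355 i57 a369 a427 a74 a924 i190 (k8 a35 i719 i1356 a1812 i795 i796 i189 i394 (k8 i395 i2200 i1176 i2234 a761 i851 i1894 i816 (k1 a108 k0)))) (by decide +kernel)
def a3201 : PP 8 4 T 0x1002201000000000000000001000000010000000000001004520000000000000000000 := rS 0x551889e5965ab4aaa9 (k8 i574 a72 a445 a385 a2 i790 a438 a1301 (k1 i538 k0)) (by decide +kernel)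
def a3202 : PP 8 4 T 0x2201000000000000000001000100010000000020000004520000010000000000008 := rS 0x2d69a240e931798cc0a98a8155a31328cc8eb9 (k8 i1407 a451 i192 a63 i1002 a445 i24 a117 (k8 i574 a3201 i37 a1830 i1281 i2819 i1278 a2396 (k2 i1001 a120 k0))) (by decide +kernel)
def a3203 : PP 8 4 T 0x2200000000000000000001000000000000000820000004500000810000000000008 := rS 0xea8c10a83190c804a309352aa13fbf442c152b9046493e8962e6f8a8055a55189946647 (k8 a451 i192 a63 i1002 a72 a445 i23 a117 (k8 i57 a332 i804 i1630 i751 i1625 a429 a382 (k8 a408 a46 a3200 a1044 a3173 i1675 a3202 i1280 (k8 a440 i1046 i437 i487 a438 i1085 i200 i1262 (k1 a3108 k0))))) (by decide +kernel)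
def a3204 : PP 8 4 T 0x2001000000000000000000001000000000000020000000110000000000004000000 := rS 0x5c32482598a2a61 (k8 i1280 a117 a438 i487 a440 a2997 a209 a437 k0) (by decide +kernel)
def a3205 : PP 8 4 T 0x2201000000000000000001000010000000040020000004110000010000000000008 := rS 0x1d1088c4a405286146c1250b80e0824aa0367300ab48e55 (k8 a72 a451 a445 i23 i78 i189 a3204 i1086 (k8 i1085 i455 i1084 a440 i1265 i200 a3107 i365 (k4 i1046 i348 i185 i743 (k2 i742 a3108 k0)))) (by decide +kernel)
def a3206 : PP 8 4 T 0x2201000000000000000001001000000000040020000004120000000000004000000 := rS 0x1768666a1620758b9dccc624a2a8c25d2790883152cb2caa6b479f4a6ad (k8 a445 i798 a1110 i876 a464 a72 a385 a2 (k8 a117 i787 a3000 a961 a543 i1279 a1301 a3201 (k8 a438 i537 i1675 a350 i1587 a466 a361 a380 (k2 a460 i1683 (k1 a900 k0))))) (by decide +kernel)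
def a3207 : PP 8 4 T 0x1002201000000000000000001000000000000040000008004520020015000500000001 := rS 0x12a9546e403c5cccc1552509e612cb2d5a472a925421d (k8 i2543 a3173 i30 a72 a451 a445 a385 a2 (k8 i37 i1351 a3201 a1301 i1517 i537 a350 a3023 (k4 a429 a1824 a382 a409 (k1 a3108 k0)))) (by decide +kernel)
def a3208 : PP 8 4 T 0x8202200000000000000000000000000001000000000000104000000000000000000000 := rS 0x434653acf33b34eb13 (k8 a205 a453 a380 a350 a368 a399 a784 a794 (k1 a3132 k0)) (by decide +kernel)
def a3209 : PP 8 4 T 0x10002000000000000000000000000400140010000004000200020001000504001000008 := rS 0xfd363b781e07237 (k8 a446 a401 i532 a795 i1069 i1073 a6 i2034 k0) (by decide +kernel)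
def a3210 : PP 8 4 T 0x8002201002000000000000004000010000000100000000104020020000002040000040 := rS 0x19882438ac7e915a99d9e9d (k8 a399 a368 a350 a822 a110 a6 a61 i927 (k2 a3061 a794 (k1 i894 k0))) (by decide +kernel)
def a3211 : PP 8 4 T 0x8002201000000000000000000001000000000000020004104020000000000008000000 := rS 0x515363e41b1998871530c74f1122906e3901100860727255329730454cab50f8d442778ca759e6788a4542b74094ca26f (k8 i57 i528 i798 a3072 a577 a3173 a110 a3208 (k8 a350 a368 a399 a784 a332 i783 a348 i271 (k8 a822 a63 a117 a438 a989 a837 a1042 i1279 (k8 i2819 i2533 a3000 i788 a401 a446 a3202 a164 (k8 a3210 a419 i373 i394 i928 a794 i889 i894 (k4 i414 i1447 a80 a422 k0)))))) (by decide +kernel)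
def a3212 : PP 8 4 T 0x8002201000000000000000000001000000000000020000104020000000000008000000 := rS 0xab27988a65965ab4aa49289bd6a67 (k8 a350 a822 i57 i528 i30 a72 a445 a385 (k4 a2 i798 a3211 i1351 (k2 i537 a1301 k0))) (by decide +kernel)
def a3213 : PP 8 4 T 0x8002201000000000000000000000000000000000020000104020000000000008000000 := rS 0x180e450a944a42a128c830d0e81ca42d5411d6a1f3f9ce2a6f109dc46333ea4e2291 (k8 a110 a3208 a19 i1360 a360 i272 a332 i783 (k8 i57 a117 i78 a3171 i271 a822 a451 a3212 (k8 a1828 i574 i2268 i782 a375 i2556 a1824 a403 (k4 a3000 a570 a129 i820 (k2 a107 i2030 (k1 a408 k0)))))) (by decide +kernel)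
def a3214 : PP 8 4 T 0x2202000000000000000001000000000000050000000004100000000000000000000 := rS 0x53 (k2 a421 a924 k0) (by decide +kernel)
def a3215 : PP 8 4 T 0x8002200000000000000000000000000000000000020000004020000000000008000000 := rS 0x14c0744a64c0634b8bc622d54a0542020e814a63d203c002782189cb8fd3ec6446213fa4d3acf1999c6a7739c54ca49289bd6a19 (k8 i67 a822 i57 i528 i30 a63 a117 i78 (k8 a332 a348 a350 a360 a368 a399 a19 a3171 (k8 i783 i272 a784 i1360 a3214 a3213 a3002 a543 (k8 i532 i2259 a795 a3000 a365 i2556 i261 i2543 (k8 i788 a3173 a3072 i574 i1239 i1002 i317 i1855 (k4 a3207 a438 a837 a754 (k2 i2819 a3209 (k1 a1825 k0)))))))) (by decide +kernel)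
def a3216 : PP 8 4 T 0x4002200002000000000000000000000000000000000000000000000115000000000000 := rS 0x6391860f (k4 a17 a1105 a429 a1762 (k1 a392 k0)) (by decide +kernel)
def a3217 : PP 8 4 T 0x10002201000000000000000004000000400000000020000004020024020040008000000 := rS 0x741981329517a05427f2aa456a1f011d8df152892d5253 (k8 i2556 i574 i73 i1359 a117 i57 i357 i788 (k8 i2061 a822 a110 a72 a1044 a3173 a3072 i317 (k4 i1098 a3167 a3201 a3055 (k2 i2819 a3061 k0)))) (by decide +kernel)
def a3218 : PP 8 4 T 0x10002200000000000000000000000000000000004020000004020024020040008000000 := rS 0x3e9fdf8534dadca26f25ad44876 (k8 i357 i356 a822 i73 i57 i1359 i801 i1448 (k4 i2556 a3217 i2557 i1630 (k1 a924 k0))) (by decide +kernel)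
def a3219 : PP 8 4 T 0x2002002000000080000000000000000000000000000000000000000000000000000 := rS 0x71f84412af (k4 a427 a369 a441 a6 (k2 a402 a1917 k0)) (by decide +kernel)
def a3220 : PP 8 4 T 0x2202002000000000000000000000000000000800000004060000000402000000008 := rS 0x5d66ad90aba40d154c0741a921a7e3e94526638a34c5a893094c125965954d6b5438ac5240 (k8 a570 a443 a61 i927 a822 a464 a72 a385 (k8 a2 a369 a421 a397 i190 i1000 a3219 a120 (k8 a51 a115 i527 i1629 a924 a35 i843 i2620 (k8 i1379 a2041 a410 i1859 i368 i1670 a196 i1949 (k2 i1931 a460 k0))))) (by decide +kernel)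
def a3221 : PP 8 4 T 0x2201002000000000000000000400800004000800000000560000000010050000000 := rS 0x79669bd04a1862dc7a3f1589d0291 (k8 a110 i1337 a76 a61 a6 a365 a577 a467 (k4 a3173 i2031 a357 i2564 (k2 i1073 a669 k0))) (by decide +kernel)
def a3222 : PP 8 4 T 0x2002201002000000000000000000400000000000800000000020000020100018000010 := rS 0x284b83fb39987941c34a4bd4d0e4520243902229f00890763d1f8dc562f4ba6592b52898c9e710fa24fa93 (k8 a115 i1629 a337 i270 a117 i789 a51 i527 (k8 a822 a343 a57 a24 a363 a61 a376 a6 (k8 a365 a333 i356 i1114 i1183 a38 a570 i927 (k8 a349 a443 a401 i2034 i1418 a3221 a375 a334 (k4 i1074 a669 i810 i849 (k2 i1151 a403 (k1 a351 k0))))))) (by decide +kernel)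
def a3223 : PP 8 4 T 0x2200002000000000000000000020000000000800000000020000010000000000200 := rS 0x663918808424023b055b17 (k8 a332 a445 i1265 a451 i196 i824 i788 i1507 (k2 a401 i192 (k1 a3216 k0))) (by decide +kernel)
def a3224 : PP 8 4 T 0x22201002000000000000000000400000000000800000000020020100500008000000 := rS 0x26d12783021e2a241a0cc62021081476372395492b58b95c96514aa64fea9299bd2e9166a08522b1387d021d1fadc7aa1 (k8 a413 a365 a118 a6 i782 a4 a81 a76 (k8 a61 i274 i2031 i2564 a110 i1376 a357 a383 (k8 i574 a35 a3167 i1675 a65 i73 i1628 a332 (k8 a822 i30 a72 a451 a376 a333 i261 i743 (k8 i788 i1507 i192 a3216 i356 a3222 i927 a3201 (k4 a669 i1278 i1073 i2034 k0)))))) (by decide +kernel)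
def a3225 : PP 8 4 T 0x22201002000000000000000000440000000000800000000020000100100008000200 := rS 0x1929062891098c6a050000c4a4220b055ab50b8745f1711864faa13f87d5253 (k8 a383 i574 a81 a35 a413 a340 i67 i1626 (k8 a332 i2072 i782 i66 a822 a445 i1265 a3224 (k8 a3000 a570 i188 i780 i518 i356 i1349 a909 (k4 a754 i1507 i2030 a3216 (k1 i288 k0))))) (by decide +kernel)
def a3226 : PP 8 4 T 0x22201002000000000000000000440000000000800000000020000000100008000200 := rS 0x3372a906289108d40a0012908c641018e1521f3fa84a67d60ab56a170ec5c4619 (k8 i67 i1626 a332 i782 i66 a822 a445 i1265 (k8 a340 a383 a413 a35 a81 i574 a3225 a401 (k8 i788 i1349 a3000 a570 i780 i518 i356 a909 (k4 a754 i1507 i2030 a382 (k2 i288 a429 k0))))) (by decide +kernel)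
def a3227 : PP 8 4 T 0x2200002002000000000000000000000000000000000000000000000000000000000 := rS 0x618358a0f (k4 a17 a49 a392 a468 (k1 a199 k0)) (by decide +kernel)
def a3228 : PP 8 4 T 0x2201002000000000000000000440000000000800000000020000200100008000200 := rS 0x81a2ab936b73c2a4f69738a18fd1366a154a954fc4064d218a0c3e8b10984a4352e8149e0039a84a2252118c82998c80d8e1164964aa6b60ab5ca910b8762e572588c330d (k8 a3226 i67 i1626 i73 i1628 a332 i782 i66 (k8 a110 a3227 a445 i1265 a464 a72 a2 a343 (k8 a441 a27 a401 a42 i1936 i788 i1349 a3000 (k8 a570 i1310 i196 i837 i780 i2533 i518 a543 (k8 i356 a467 i960 a909 i451 a903 a334 i1507 (k8 a377 a429 a107 i1711 i1671 a3136 a361 a380 (k8 a205 a2218 a460 i800 a968 i818 i575 a406 (k4 i1932 i1074 a336 a381 (k2 i1861 a462 k0))))))))) (by decide +kernel)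
def a3229 : PP 8 4 T 0x2201002000000000000000000440000000000800000000020000011100008000200 := rS 0x798ca6932894baa506932913cfc7b289854a1f319980005899f59a030644064c3108ec7a3f1bb24b20f2395582ad72a456a1d179d62e572588c330d1c894e6a1 (k8 a3223 i834 i804 a3228 a3226 i67 i1626 i73 (k8 i1628 a332 i79 i2072 i782 a822 a110 a3227 (k8 a445 i1265 a72 a451 a17 a2 a343 a376 (k8 a6 a365 a333 i784 a1105 a3216 a107 a1762 (k8 i192 a380 a73 a205 i522 i1610 i1609 i1349 (k8 a903 a3136 i960 i2257 a1179 i2030 i790 a467 (k8 i1638 a334 i576 a989 a754 a837 i2034 a41 (k2 i1074 a406 k0)))))))) (by decide +kernel)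
def a3230 : PP 8 4 T 0x2200000000000000000000000000000000000000000000000000000000208000000 := rS 0x1088255 (k4 a72 i743 a3000 i780 (k1 a909 k0)) (by decide +kernel)
def a3231 : PP 8 4 T 0x1012201002000000000000000000010010004000800000000120020100500040000050 := rS 0xf09a66a252e9937a08c081272dca63b1e8fc6e2b53ad4ae4b (k8 i73 i1628 a822 a1825 a61 a376 a6 a365 (k8 a333 i826 a577 a467 a3072 a3201 a3061 i1272 (k4 a448 a449 i1278 i2564 (k2 i2034 a669 (k1 i1073 k0))))) (by decide +kernel)
def a3232 : PP 8 4 T 0x2201002000000000000000000000000000000800000000020000000100008000240 := rS 0x225a6a02887ce602439012b15028044834188e61a2b53b241ea3238745e21 (k8 a3230 i2072 i782 a451 a1824 a17 a343 a1825 (k8 a61 a3226 a3228 i1507 a3229 i356 i1114 i354 (k8 a3222 i1098 a570 i927 a349 i2580 i2061 i1309 (k4 a3231 a344 i279 a120 k0)))) (by decide +kernel)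
def a3233 : PP 8 4 T 0x10002001002000000000001010001441005000000040410015800020014500000000008 := rS 0xcd43a14ba7e121e57a81522692a994ba254063418ec7a3f1b8ac7231 (k8 i1002 a401 a61 a376 a6 a365 a333 a334 (k8 i536 i826 i191 a989 a837 a1042 i2034 i2033 (k8 i1337 i1417 i1074 i363 i364 i571 a545 i927 (k2 i849 a460 k0)))) (by decide +kernel)
def a3234 : PP 8 4 T 0x2201002000000000000000000440000000000000000000020020010100008000200 := rS 0x8b3c27cba954ca24f6bd4bc4e8a63a1afd046f55205430c5b94c9e718c95d269d6799ca2b98b2a43e33188e4e602148f47e2b13b24b2cb3291caa6b60ab5ca915a8643a2f (k8 i2072 i782 i67 a822 a110 a3227 a445 i1265 (k8 a464 a72 a451 a63 a385 a2 a343 a76 (k8 a61 a6 a365 a443 i788 i2580 a401 i1002 (k8 i192 i2061 a3107 a3216 a1710 i1309 a350 a368 (k8 a399 a19 i529 a784 a3215 i789 a3233 a577 (k8 a467 a3173 a3072 a1301 a357 i2031 a367 a106 (k8 i537 a48 a68 i1376 i1415 i815 i191 a837 (k4 a1042 a3209 a856 a406 (k2 i1853 a192 k0))))))))) (by decide +kernel)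
def a3235 : PP 8 4 T 0x2000002000000000000004000410141010100014000000000000100500048000000 := rS 0xf7133cc65049a148ec7a3f1b8ac4e1d (k8 i782 a76 a61 a376 a6 a365 a333 i274 (k4 i2034 i2031 a41 i1073 (k2 a68 i815 (k1 a406 k0)))) (by decide +kernel)
def a3236 : PP 8 4 T 0x10002000002000000000000004000410001000101010000000000000000000058000000 := rS 0x3dc4d04291e8fc5627 (k8 a76 a61 a6 a365 i275 i2031 a68 i815 (k1 a406 k0)) (by decide +kernel)
def a3237 : PP 8 4 T 0x2100000000000000000000000008000000002000000004004000000000000000000 := rS 0x164e886 (k4 i1076 i1075 a358 a1851 k0) (by decide +kernel)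
def a3238 : PP 8 4 T 0x2000000000000000601000000050000000000020000000800080000000058000000 := rS 0xa45a884ff11129f446ab2c034ea4b0c83c004c (k8 i779 i780 i2405 i67 i438 i1063 i2275 i613 (k8 i2393 i273 i1361 i859 a373 i845 i724 i883 (k2 i2030 a1609 k0))) (by decide +kernel)
def a3239 : PP 8 4 T 0x2001000000000000100000002205000040000000414000000000210000000000010 := rS 0x6799c6693 (k4 i1365 a3136 i576 i1977 (k1 a388 k0)) (by decide +kernel)
def a3240 : PP 8 4 T 0x2200002000000000000000000000000000000000000000000080000000808000000 := rS 0x30c1ac52b83c004c (k8 i779 i780 i2405 i2258 a49 i1569 i2155 a199 k0) (by decide +kernel)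
def a3241 : PP 8 4 T 0x4202001000000000081100000002010100000002020410115000000210001140000010 := rS 0x12a7e672969e9f4ea18ea8531b051719 (k8 a42 i1853 a44 i97 a361 a453 a460 i1857 (k4 i1075 a20 a3239 a463 (k2 a2218 i1104 (k1 i800 k0)))) (by decide +kernel)
def a3242 : PP 8 4 T 0x2201000000000000000000002000000000000000000000000080000020408000000 := rS 0xc724459a2b47954ba0f1ab2546cb60b4a1a520f98c32050ba843a2d2c994d621129062e702b800f0991c29c0e4c (k8 i779 i2268 a1825 i274 i1936 i275 i780 i2258 (k8 i575 a3215 i21 a570 a3230 a464 a63 a2 (k8 a1828 i782 i820 i66 i518 i67 i97 a903 (k8 i574 a375 a377 a44 i2416 a99 a3238 i1114 (k8 i2405 a543 i2534 i2596 a416 i1969 a3241 a107 (k2 a3129 a392 k0)))))) (by decide +kernel)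
def a3243 : PP 8 4 T 0x2201000000000000000000002000000000000000000000000080000020008000000 := rS 0x1860d110458ac72e95c1e002611cd621 (k8 a3230 a464 a451 i779 i780 i2405 i2258 a543 (k4 i2158 i1842 i1835 a3242 (k2 i1569 i2155 (k1 a132 k0)))) (by decide +kernel)
def a3244 : PP 8 4 T 0x2200000000000000000000000450400000400020000000000081000010858000000 := rS 0xfd6e384ca79029da789cf31967a55986762bc462c319034e9110b8ac961947954ba0f328844a418b95c004c (k8 i779 i780 i2258 a3215 i21 a570 a3230 a63 (k8 i2405 a543 i2534 i2596 i67 i438 a416 i66 (k8 a9 i273 i1569 i272 i2155 i1572 a3240 a3128 (k8 i1587 a3129 i1671 a3113 a3109 a3116 a3117 a36 (k8 i1910 i1363 a463 i1112 i1712 i802 i297 i2031 k0))))) (by decide +kernel)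
def a3245 : PP 8 4 T 0x102201000000000000014000002000000000000000000000000080000000008001000 := rS 0x2587c9e13c659eb7491d1327c3fa769ecc18a94968f2a97476c132ab4422520ad62e5711a8c7ad286a854e07419483a2d0f98c0a174d99d02797883c00290c8ace04c (k8 i779 i575 a416 i67 a3243 i780 i2405 a1762 (k8 a3116 i1363 i449 a457 i66 i518 i97 a903 (k8 a1828 i782 i574 a334 i2268 a1825 i820 a375 (k8 a377 a335 a99 a3244 i2258 a3215 a822 i21 (k8 a570 a3230 a445 a63 a44 i394 a543 i2534 (k8 i2596 i438 a1609 a1332 a3129 a36 i1910 i2558 (k8 i2030 a3110 a3112 i1360 i802 a3113 a3109 a3117 (k4 a463 i2031 i1718 i1372 k0)))))))) (by decide +kernel)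
def a3246 : PP 8 4 T 0x202200001000000000000000000000000000000000000005020000000050100000000 := rS 0x4f1366a14b26b (k4 a464 a2 a361 a380 (k2 a205 a1214 (k1 a127 k0))) (by decide +kernel)
def a3247 : PP 8 4 T 0x2201000000000000004000002000000000000000000000000080000000008001000 := rS 0xc588bc456552b83c004c108948229 (k8 a3243 i21 a570 a3230 i779 i780 i2405 i2258 (k4 i2534 a416 a1762 a3246 (k2 a3128 a3245 k0))) (by decide +kernel)
def a3248 : PP 8 4 T 0x2201000000000000000000002000000000000000000000000080000000008001000 := rS 0x39189e10c37899d59af0880444e8572b08ce2b2aa44ba3564b2d8259358844a418b95c002314a8c7ad286a854e07419483a2d0f98c32050b9c0989b (k8 a457 i779 i575 i66 i518 i67 i97 a903 (k8 a1828 i782 i574 a334 i2268 a1825 i820 a375 (k8 a377 a335 a99 a3243 a3244 i780 i2258 a3215 (k8 i21 a570 a3230 a464 a2 a44 i2416 a3238 (k8 i1114 a543 i2614 i2534 a416 i449 a3247 a468 (k8 i1867 i1955 i1952 a107 a1302 a380 a453 a205 (k4 a376 a460 a905 a3130 (k2 i1851 a1105 k0)))))))) (by decide +kernel)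
def a3249 : PP 8 4 T 0x2201000000000000000000002000000000000000000000000080000000008000000 := rS 0x6233671de32084b2bd3e39401e16e9da78447e374309de1133ab350b107283046298b894426b2c8ac8255488bcba574da0d4e3d1ab25467065b05a50d2907cc6190285d4207260745a00 (k8 i780 a1828 i782 i779 i2268 i820 i66 i518 (k8 i67 i97 a903 i574 a375 a377 a44 i2416 (k8 i575 a99 a3238 i1114 a335 a1825 a334 a457 (k8 i2258 a543 a895 i2614 i2534 i21 a416 a2 (k8 a464 a3230 a570 a3215 a3243 a3244 a3248 a392 (k8 a107 a361 a380 a453 a205 a3246 a1214 a460 (k8 a1577 a6 a441 a20 i1645 i2560 a905 i2031 (k8 i1851 i1075 i1861 i1362 a1917 a71 a3232 a463 (k2 a3133 i988 (k1 a3216 k0)))))))))) (by decide +kernel)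
def a3250 : PP 8 4 T 0x202001000000000080100000000010000000000020084000000000000000140000012 := rS 0xfea54a8c98225 (k4 a423 a44 i450 i1674 (k2 a3136 i800 (k1 a2218 k0))) (by decide +kernel)
def a3251 : PP 8 4 T 0x2000000000000005100000000411000001400120450115020000000050150000000 := rS 0x9f459e10c27 (k4 a1214 a460 a905 i1853 (k2 i1075 a388 k0)) (by decide +kernel)
def a3252 : PP 8 4 T 0x1202101000000000080500000000410000000400064014101020000000050150002012 := rS 0x9c7e81612f15c6a5baaa86a43f9de2c9d6799cea5912b350a571eb1d5ac1 (k8 a44 i1493 a342 a335 i2258 a361 a380 a423 (k8 a426 a453 a3250 a2062 a544 a352 a332 a3171 (k8 a2218 a129 a439 a1497 a3251 i585 i586 i468 (k4 i1861 i1412 i1955 i2031 k0)))) (by decide +kernel)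
def a3253 : PP 8 4 T 0x400000000011102101000000000001500000010410400001450000050000000001400054050000002 := rS 0x26116971cd147caa40add9e9d (k8 a544 a2062 a537 a535 a439 i2031 a80 i297 (k4 i1372 i452 a422 a1174 k0)) (by decide +kernel)
def a3254 : PP 8 4 T 0x2000000001000001045145000410000005550000000000000001000054050000000 := rS 0xc5a7bc57c3e (k4 i2031 i2047 a6 a60 (k2 i1527 a379 k0)) (by decide +kernel)
def a3255 : PP 8 4 T 0x112000000000000004100008002001000004410060450000000000000000000000000 := rS 0x4fa2d3097 (k4 i1902 i802 i578 a2955 (k1 a388 k0)) (by decide +kernel)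
def a3256 : PP 8 4 T 0x1102101000001000001545004010410400005450000450100000001400054050000002 := rS 0xbf57a017aab5dad68519 (k8 a2579 a3253 a84 a86 a106 a338 a3254 i1861 (k2 i1338 a391 k0)) (by decide +kernel)
def a3257 : PP 8 4 T 0x12101000000000001501000002410001000400060010120000001400054050002002 := rS 0x114784fa116e7d49c662c9d679acfe6761c450f154db1dcaad (k8 i1493 a392 a342 a457 a117 a358 a373 a487 (k8 i2262 i845 i468 a2062 a544 a352 a2579 a19 (k4 i1360 a3255 a3256 i1606 (k2 a545 a1947 (k1 i1853 k0))))) (by decide +kernel)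
def a3258 : PP 8 4 T 0x2100000000000000100000000000000000000000010000000000000000208000002 := rS 0x678b8ccec17 (k4 i66 i783 i1612 a332 (k2 i450 a352 k0)) (by decide +kernel)
def a3259 : PP 8 4 T 0x12101000000000001501000002410001000400060010120000001400052050002002 := rS 0x27 (k2 i864 a3257 k0) (by decide +kernel)
def a3260 : PP 8 4 T 0x2000000001000002044004000410000000500000000000000001000054050000000 := rS 0x780f98b4f (k4 a36 i1791 i2031 a379 (k1 a6 k0)) (by decide +kernel)
def a3261 : PP 8 4 T 0x2001000000000080000000000000000000000020000000000080000010058002000 := rS 0x1169f1cb104cb73ea0526798b2759e6b6619d86872c09222213288dcac72aa44e6050b974762b01904ae6f1ea9e0ac965a8d82a117c3506525418c0e003093e2a4c (k8 i779 a117 i2533 i1279 i780 a402 i447 a438 (k8 i574 a334 a375 a895 i796 a44 a99 i2416 (k8 a3238 a3249 a67 a335 i57 i2258 i21 i188 (k8 a416 i394 a543 i66 i518 i2579 i2614 i2534 (k8 a342 a392 i1569 i1492 a3258 a3252 a107 a362 (k8 i927 a487 i2262 a3259 i468 a2062 a544 a352 (k8 i1972 a19 i1363 i1360 a3255 a3260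 i865 i1876 (k2 i1526 i452 (k1 a1947 k0))))))))) (by decide +kernel)
def a3262 : PP 8 4 T 0x1002100000000000000100000008000400000000000040000000000001008008000002 := rS 0xaf35266329f459e86c390bb3d3a65 (k8 i962 a544 a2062 i66 i1876 i786 i785 i452 (k4 i996 a390 a1174 a1947 (k2 a2598 i585 k0))) (by decide +kernel)
def a3263 : PP 8 4 T 0x102101000000000000101000002010000000050000810000000080004005058000002 := rS 0xa2243fa2af15c3d5baa9a4815a29d468386a154a07291744223260ad76cb (k8 i623 i1947 a416 i779 i272 a3258 a543 i574 (k8 i2268 a1609 i1868 a375 a334 a1805 a1825 i2030 (k8 i1402 a377 i883 i887 a335 i585 i586 a381 (k4 i1411 a462 i2031 a54 k0)))) (by decide +kernel)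
def a3264 : PP 8 4 T 0x2101000000000000400000004000020000000000010000000000000000000000000 := rS 0x15b43 (k2 a121 i1557 (k1 a439 k0)) (by decide +kernel)
def a3265 : PP 8 4 T 0x102101000000000000101000002000000000000020810000000080000004050001002 := rS 0xf09e1c9ed2f13412bc0c2e4a97422f051b1dcaa53a8808cab2a16502b744a446e4a298609a1ba78aca2a1248b49e252ba6d72cb1d8d466050bb3d3ac3628c41e7f3bc54e66f3ea4e2c67 (k8 i449 a352 a19 i1360 i57 i78 a117 a332 (k8 a3171 i597 a2643 a277 a276 a544 a2062 i709 (k8 i518 a2770 i1115 a339 i623 i1139 a457 i441 (k8 i859 i701 i1239 i2451 i2555 i440 a416 a394 (k8 a3263 i446 a437 i797 a440 i1044 i1168 i230 (k8 a577 a3072 i605 a362 i1657 i704 i703 i1539 (k8 i209 a46 i1690 i1649 a379 a441 i443 a3264 (k8 i2033 i1078 i459 a108 a68 i1376 i816 i321 (k2 i2035 a2222 (k1 i1075 k0)))))))))) (by decide +kernel)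
def a3266 : PP 8 4 T 0x2100000000000000100004002000011040100100450000540000000000000000000 := rS 0x1755e833ca653d198aa6d9e9d (k8 a544 a2062 a457 a400 a2579 a388 i1112 i1075 (k4 a3055 a2598 a2497 a108 k0)) (by decide +kernel)
def a3267 : PP 8 4 T 0x2000000000000000000004000000000000100000000000540000000008010000080 := rS 0x57a0d4e5d (k4 a3002 i1915 i735 i460 (k1 a108 k0)) (by decide +kernel)
def a3268 : PP 8 4 T 0x2100000000000004114004000001401000100100800000500080415804202000080 := rS 0xf09e1c9ed2f13412bcba11780dd8e2b7293c834f (k8 a394 i21 i1222 a46 a416 i1690 i1044 a379 (k8 a441 i443 i459 a108 a68 i1376 i816 i321 (k2 i2035 a2222 (k1 i1075 k0)))) (by decide +kernel)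
def a3269 : PP 8 4 T 0x2100000000000000114004002000010000100120050000410080001800244000000 := rS 0x15e83539744c6a278fc76064580122182505c93154d8b4660567a746b1669a248251 (k8 i2248 i21 i92 a359 a352 a348 a544 a2062 (k8 a1832 a2770 a1828 a457 a400 i2451 i710 a440 (k8 a437 a102 i437 i2247 a656 a339 a458 i1222 (k4 a3266 a3268 a3002 i1914 (k2 i736 i460 (k1 a108 k0)))))) (by decide +kernel)
def a3270 : PP 8 4 T 0x2001000000000000000000000000000000000080000000500080000000000000000 := rS 0x9f0d (k2 a456 i2454 (k1 a467 k0)) (by decide +kernel)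
def a3271 : PP 8 4 T 0x2101000000000000100000002000014000040000010002000080001800000000000 := rS 0x7ce07362b0d02b73e86c404628ae51e4d3bc58ceb5659d4de53 (k8 i830 i1056 i1539 i623 i768 i576 a352 a332 (k8 i791 a432 i1139 i2248 i704 i703 i2534 i1542 (k8 a577 a3072 a354 a366 a3270 i2044 i239 a3269 k0))) (by decide +kernel)
def a3272 : PP 8 4 T 0x2000000000000000000104002000014080150400000002008000000000000000000 := rS 0x2fd768343a58f49b66a156acb (k8 i624 i768 a455 a330 a457 i492 i578 i817 (k4 i816 i1904 i1377 i2047 k0)) (by decide +kernel)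
def a3273 : PP 8 4 T 0x402100000000000000000000000000000000000000800000000040000000200004000 := rS 0x78040560c1489c80c5 (k8 i1790 a3000 a331 a443 a1200 i903 i467 a127 (k1 a441 k0)) (by decide +kernel)
def a3274 : PP 8 4 T 0x2001000000000000400000000010000000050000000002000400000000150004000 := rS 0xc152b920a5911aac4a0d (k8 i1489 i764 i1657 a2999 i118 a72 a425 a382 (k2 a408 a1245 k0)) (by decide +kernel)
def a3275 : PP 8 4 T 0x2101000000000000400000004080000000000000000000000000000000000000000 := rS 0x15b43 (k2 a395 a1822 (k1 a439 k0)) (by decide +kernel)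
def a3276 : PP 8 4 T 0x2000000000000000200000000000000000000000000000000420000000200400000 := rS 0x36191a00c4a0c (k4 i744 i110 i1123 i464 (k2 i180 i356 (k1 a437 k0))) (by decide +kernel)
def a3277 : PP 8 4 T 0x2000000000000000000000002020000000000000000000400000000000008000000 := rS 0x449c80c5004b4dfa63 (k8 i97 a431 a344 i197 a3173 a1807 i496 i1340 (k1 i835 k0)) (by decide +kernel)
def a3278 : PP 8 4 T 0x2000000000000000400000002000000000040000000002000400000000108004000 := rS 0xa27c39a843e6f29bf43a2d (k8 a1828 i782 a431 i830 i1056 i271 a3277 i834 (k2 a3274 i496 (k1 i1542 k0))) (by decide +kernel)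
def a3279 : PP 8 4 T 0x2000000000000000400000002000000000080000000002401000000000000000000 := rS 0x3212917381d8e651551955a6f8abf4c7052b99e1b43 (k8 a133 a35 i1620 i53 a72 i97 a431 a400 (k8 i1056 i1556 i1089 a439 i497 a2961 a3171 a389 (k4 a332 i800 a352 i1101 k0))) (by decide +kernel)
def a3280 : PP 8 4 T 0x2000000000000000000000002000000000000000000000800020000000000400000 := rS 0x691219699cd400828c54c649 (k8 a1061 i97 a400 i95 i827 i826 a2961 a344 (k4 i2071 i279 a437 a3172 k0)) (by decide +kernel)
def a3281 : PP 8 4 T 0x2000000000000000000000002000000000080000000002000400000000000400000 := rS 0x50068e4192800c9ec8654356afd2494c8043 (k8 i704 a3000 a3280 a1061 a431 i102 a35 a3279 (k8 i623 i1389 i1123 a467 i180 i496 a437 i834 (k1 a3277 k0))) (by decide +kernel)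
def a3282 : PP 8 4 T 0x2000000000000000000000002020000000000000000000400000000000000400000 := rS 0x64366f (k4 i1056 a3277 i311 a437 k0) (by decide +kernel)
def a3283 : PP 8 4 T 0x2000000000000000000000002000000000000000000000208000000000002000000 := rS 0x1900e443 (k4 i2248 i496 a3000 i2758 (k1 i180 k0)) (by decide +kernel)
def a3284 : PP 8 4 T 0x2000000000000000800000002000000000000000000000000000000000000000008 := rS 0xa4230205cc8 (k4 i623 i1084 i1085 i1123 (k2 i1387 i2081 k0)) (by decide +kernel)
def a3285 : PP 8 4 T 0x4002000000000000000000000000000000000000400000002000000001000002000006 := rS 0x3904035069088233 (k8 i233 i180 a3000 i1490 i1115 i703 a429 a46 k0) (by decide +kernel)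
def a3286 : PP 8 4 T 0x202001000000000000801000000110000000040000000000000000000001140000040 := rS 0x1a609 (k2 i1387 a2218 (k1 a1807 k0)) (by decide +kernel)
def a3287 : PP 8 4 T 0x2000000000000000800000002000000000040000000002000000000000000400000 := rS 0x19b9548071787c421a1a8640003608c44b10079dceb174a321fa052ca3c926f5caad4253 (k8 i830 a3282 i1657 i1140 i1056 a1061 i765 i118 (k8 a1832 a431 i623 i624 a405 i1064 i1675 a2904 (k8 a466 i764 i983 i1246 a3284 a349 a3285 i2759 (k8 a437 i784 i271 i317 i456 a3286 a382 i289 (k1 a429 k0))))) (by decide +kernel)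
def a3288 : PP 8 4 T 0x2000000000000000400000002010000000040000000002000000000000108004000 := rS 0x1184a235aa8d57057e90c3a2d0f9bca607179f4a273 (k8 i834 i496 i1542 i317 i456 i830 i1056 i271 (k8 a1828 i782 i2534 a431 a72 i1657 a3275 i768 (k4 a2999 i764 a3278 a3093 k0))) (by decide +kernel)
def a3289 : PP 8 4 T 0x2000000000000000400000002010000000040400000002001000000000008000000 := rS 0x329d08e0e109651e0001934a605 (k8 a1832 i830 i574 i189 a349 i765 i118 i783 (k4 a3288 i109 a2904 i963 (k1 i1539 k0))) (by decide +kernel)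
def a3290 : PP 8 4 T 0x2000000000000000400000002010000000040800000002000000000000108000000 := rS 0xc41c0001934a605 (k8 a1832 i830 i574 i189 a349 a3288 i1507 i598 k0) (by decide +kernel)
def a3291 : PP 8 4 T 0x2000000000000000000000002000000000040000000002000000000000008400000 := rS 0x11c40c832c5cec4021c14ce4926a84a6cb (k8 a3287 i830 a3282 i574 a1061 i1620 a72 i2534 (k8 a3000 a3289 a332 i1548 a352 a3290 i1530 a3276 k0)) (by decide +kernel)
def a3292 : PP 8 4 T 0x2000000000000000200000000000000000000000000002000400000000200400000 := rS 0x8243 (k2 i704 a3276 (k1 a3000 k0)) (by decide +kernel)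
def a3293 : PP 8 4 T 0x4002000000000000000200000000000000000000000000002008000005000200400000 := rS 0x2420691868e5 (k4 a46 a429 a3292 i26 (k2 i1530 i1115 (k1 i437 k0))) (by decide +kernel)
def a3294 : PP 8 4 T 0x2000000000000000000000002000000000040800000002000000000000000400000 := rS 0xe9180e1f01004804310b20626512c5ccea15aa8d96ab82bf466233e944301b25134a649 (k8 a1061 i830 i574 a440 a3291 a437 a3283 i1542 (k8 a2999 i232 a431 a72 i1657 a3287 a3275 i768 (k8 a3282 i1620 a332 i803 i1548 i1508 a352 a3293 (k8 i703 a3000 i1038 i180 i183 i455 i1123 i742 (k1 a3093 k0))))) (by decide +kernel)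
def a3295 : PP 8 4 T 0x2000000000000000400000002010000000040000000002100000000000102000000 := rS 0x238744a070787c02402188d6aa355c15fa7d (k8 i1542 a431 a72 i1657 a3275 i768 a2999 i703 (k8 a3000 i1038 i183 i2204 i455 i764 i742 a3093 (k1 a3274 k0))) (by decide +kernel)
def a3296 : PP 8 4 T 0x2100000000000000000004000510000000100000800000000041000000250004000 := rS 0x7e8315b0a24c51489c1840 (k8 a3000 i744 a331 a443 i1790 a3273 i468 i903 (k2 a68 i375 (k1 i2031 k0))) (by decide +kernel)
def a3297 : PP 8 4 T 0x2000000000000000000000002000000000040000000002000400000000000400000 := rS 0xfd062b4cb153d1935a2d2aa5499947a1d538d462081701c180f0fa24042714a759e012032487154d99d22bd82aac66233eadd02fd3bb9440512513492180db2d4253 (k8 i830 a3282 a3287 a3291 a437 a1061 i574 a440 (k8 a3283 a3295 a46 a3294 a431 a3072 a577 i1542 (k8 a2999 i232 i1657 a72 a285 a102 i1620 a457 (k8 a400 i704 a3292 a3000 i1038 a2062 a544 a443 (k8 a331 i180 i2049 i183 i2204 i744 i455 i1084 (k8 i1085 i2724 a547 a1825 i742 a122 i1491 a1020 (k8 i365 a3264 a3272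 a3296 a2579 a388 i1525 i1112 (k4 i903 a3055 i405 i2031 k0)))))))) (by decide +kernel)
def a3298 : PP 8 4 T 0x2000000000000000000000002000000000040000000002000000000000000400000 := rS 0x21a4f0f07510c1038bd92938b2546a03189940041529d4840d23080ee511986036a365a8494b926aaca6fd169260a23 (k8 a2999 a72 a1061 a1828 a431 i830 i1657 i574 (k8 i1140 a440 a3282 a3287 a3275 a3291 a437 i232 (k8 a3283 a3294 a3295 a3297 i26 i1530 i2939 i209 (k8 i744 i437 i1049 i1041 i1046 i1115 a3264 a3285 (k8 a19 a405 a3271 i456 i1534 i2033 i1343 i230 (k2 i701 a81 (k1 a467 k0))))))) (by decide +kernel)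
def a3299 : PP 8 4 T 0x400000000000002000000001000000001000006040004000000000000002800800005000006000000 := rS 0x12a89329c46a002680c5ed27e8145b055ca959659 (k8 i118 i621 i209 i1140 a72 a1828 a1832 a431 (k8 a393 a359 i1084 a1422 a349 i206 i797 i2712 (k2 i231 a3264 (k1 i2033 k0)))) (by decide +kernel)
def a3300 : PP 8 4 T 0x2000000000000000000000002000000000000000000002000000000000200400000 := rS 0x9a4b0330146310ea4c30523986ca24f3a90866ab72bf4c64986d0c8c7e (k8 a3298 a3281 a133 a35 a1061 i97 a431 a46 (k8 i2987 i1612 i1530 i2939 i760 i2248 i2534 a2961 (k8 a467 a437 i1638 a1820 i1041 i1650 a3299 i1534 (k2 i2267 i2268 (k1 a440 k0))))) (by decide +kernel)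
def a3301 : PP 8 4 T 0x2000000000000000000000002000000000000000000002000000000000000400000 := rS 0x720d140324f01a8594532010c430d5a9f9fa49 (k8 a1061 a431 a3298 i102 a35 a3300 i703 a3000 (k8 a3280 a3279 a3282 a3284 i1389 i180 a467 a437 (k2 i496 i834 k0))) (by decide +kernel)
def a3302 : PP 8 4 T 0x2000000000000080400000000010000400040000000011000800000000148000014 := rS 0x66226495a22a5338960ac1 (k8 a44 a451 i205 i1618 i209 a2218 a362 i504 (k2 i1577 a2770 (k1 i272 k0))) (by decide +kernel)
def a3303 : PP 8 4 T 0x20002100000000000000100000000000000000000000050008008000000014000002000 := rS 0xf115c4c20cc2e1a93ec7 (k8 a342 a33 a2579 a3067 i508 i467 a5 i889 (k2 a441 a127 k0)) (by decide +kernel)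
def a3304 : PP 8 4 T 0x2001001000000001000404000010000001101020000015000020000040050002040 := rS 0xd4c32ea1c7d12418a44ea7 (k8 a1825 a331 a443 a1898 a127 a3061 a905 a5 (k2 i376 a460 (k1 i468 k0))) (by decide +kernel)
def a3305 : PP 8 4 T 0x1020200000000000000000000100a004000000001020000000000020004040508402000 := rS 0x2f68ac2413146e3f7815452272ca44944d248745a1f37add025139a9c0e2f5094dfa8566894aebf (k8 a367 a58 a423 a380 a361 a431 a3280 a3282 (k8 i317 i456 a1825 i834 i496 a3072 a577 i1056 (k8 i271 a1828 i782 a1061 i574 a440 a102 a506 (k8 a331 a443 a3301 a3304 a6 a376 a49 a3061 (k4 a3099 a48 i1415 a2427 k0))))) (by decide +kernel)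
def a3306 : PP 8 4 T 0x2100000000000000100000000004000000002000050000010000000050001002000 := rS 0x89a9e08b (k4 i1854 a3116 a1947 a441 (k1 i467 k0)) (by decide +kernel)
def a3307 : PP 8 4 T 0x20210000000000000000000100a004000000000020000000000020004040501402000 := rS 0x3504630f03c8a4b2652a8745a1f3781c5eb740944e61a50bf4ce00019289a53248150acd2bafd92b9 (k8 i1407 i584 a367 a58 a380 a361 a1832 a1061 (k8 a3280 i574 a440 i1045 a349 i450 a431 a3282 (k8 a437 i834 i496 a3072 a577 i317 i456 i1056 (k8 i271 a1828 i782 a3301 i1050 a506 a443 a3306 (k4 a3304 a3305 a441 a2579 (k1 i467 k0)))))) (by decide +kernel)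
def a3308 : PP 8 4 T 0x20210000000000000000000100a000000000000020000000000020004040501402000 := rS 0x7cf0419e5774f4f26caa59268745a1f3781c5eb740944e61a5094dfa856695ceabf (k8 a367 a453 a58 a380 a361 a431 a3280 a3282 (k8 a437 i834 i496 a3072 a577 i317 i456 i1056 (k8 i271 a1828 i782 i574 a506 a3301 a457 a3307 (k4 a26 i1686 i1075 a899 (k2 a3304 a3061 (k1 a6 k0)))))) (by decide +kernel)
def a3309 : PP 8 4 T 0x202200000001000000000000000000000000000000000000008000000090001402010 := rS 0x306745d3a9f3c465163b1a800340364a14eac71999caef1618947291 (k8 a102 i295 a423 i371 a61 a58 i489 i1609 (k8 a342 a453 a361 a343 i1045 a437 a349 i356 (k8 a339 i452 a3146 a3057 i1075 i1857 a192 a235 (k2 a429 i989 k0)))) (by decide +kernel)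
def a3310 : PP 8 4 T 0x202200000001000000000000000000000000000000000000018000000090000402010 := rS 0x9d4fa2d9e781d06192853a99caec7 (k8 a342 a58 i489 a453 a361 a343 a3309 i387 (k4 i388 i1146 i1854 i1075 (k2 i1857 a191 k0))) (by decide +kernel)
def a3311 : PP 8 4 T 0x202200000000000000000000002050000000040000000000100020008000110000000 := rS 0x52b05fa63028b592ad1191c4ab5 (k8 a444 a423 a451 i184 a445 a343 a1828 a1832 (k4 i97 a431 i1614 a3136 (k1 a3108 k0))) (by decide +kernel)
def a3312 : PP 8 4 T 0x202200000001000000008000002000000000000000000000000020000040001400000 := rS 0xc19d174f9e232333da0946815b9fd3a0728a2c6a2f0f9cc3a000d00dfa9b028b4425537a8522c923894ea672b9289a53248dc7e117844c5227 (k8 a331 a443 a205 a127 a441 a6 a1577 a1061 (k8 a3280 i574 a440 a58 i489 a453 a423 a451 (k8 a343 a102 a3282 i1056 a3301 i743 a1828 a1832 (k8 a457 a431 i1045 a437 a349 i782 i834 i271 (k8 i317 i356 i451 i496 i456 i1906 a1044 a577 (k8 a3072 a1824 a3061 i816 a3311 a3146 a406 i1075 (k4 a192 a191 a429 i988 k0))))))) (by decide +kernel)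
def a3313 : PP 8 4 T 0x202200000001000000000000002000000000000000000000000020000040000401000 := rS 0x5fd0d48bda2aed8282518754e0803a056e1f3f80802510c53d843f78315fa292189c1e212aa84944d299255a23238956b13 (k8 a205 a444 a423 a451 i184 a445 a1061 a3280 (k8 i574 a440 a3282 a3301 i743 i339 a331 i21 (k8 a443 a431 a1043 a127 a6 a199 a13 a3312 (k8 a3283 i1038 i180 a1044 i183 a577 a3072 i455 (k8 i1085 a1825 i742 a1824 a3061 i1266 i1944 a48 (k4 i1415 a3108 a129 i1451 (k1 a404 k0))))))) (by decide +kernel)
def a3314 : PP 8 4 T 0x2200000000000000000001002010000001040100040000110020000081102001040 := rS 0x31948ce60a753e8b040b8f03a013255a230ea8dfa47 (k8 a451 a431 a1824 i742 i184 a445 a343 i180 (k8 i387 i388 i1084 i1085 i1854 i1075 i1857 i1266 (k4 a191 a3108 i1146 i2244 k0))) (by decide +kernel)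
def a3315 : PP 8 4 T 0x202200000001000000000000002000000000040000000000100020000000000401040 := rS 0x306745d3a9f3c46516350006806191cb0c540548b250a253aad4ce5725134923351bf48e1d5094c4255 (k8 a3301 i743 a3280 a3282 i742 a451 a431 a1824 (k8 a3311 a1061 i574 a440 a58 i489 a444 a453 (k8 a423 a361 a343 a102 a1832 a3313 i371 i295 (k8 a3314 i1045 a437 a349 i356 i452 a1713 a3057 (k4 i1075 i1857 a192 a191 (k2 a429 i989 k0)))))) (by decide +kernel)
def a3316 : PP 8 4 T 0x202200000001000000040000002000000040004000000000000020004040001400000 := rS 0xc22e9f3c27632861ab0c342948b24464742b344a753395c944d299258a212a8de2627 (k8 a331 a205 a1577 a3301 i743 a1043 a1061 a3280 (k8 i574 a440 a58 i489 a453 a423 a380 a361 (k8 a451 i184 a343 a102 a443 a437 a3312 i356 (k8 i2032 a1713 i1645 a406 i1075 a192 a429 a3130 k0)))) (by decide +kernel)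
def a3317 : PP 8 4 T 0x202200000001000000000000002000000000040000000000100020000000000400040 := rS 0x4fb3d3a344a291820817008308b3daf52e821f8f476f015b1c183340adc3e9b028a44e212aa8522c95688c4ab58999cae4a2694c92a70ea8dfa47 (k8 a451 a431 a1824 i742 a1825 a1061 a3280 i574 (k8 a440 a58 i489 a205 a444 a423 i184 a445 (k8 a343 a102 a3282 a3301 i743 a331 a443 a1832 (k8 a457 i183 a577 a3072 a3311 a3315 a342 a3310 (k8 a127 a333 a365 a6 i2031 i1376 i1415 i816 (k8 i578 a3316 i180 i1084 i1085 i1265 a3108 i366 (k4 i365 i1678 i1105 i1183 (k1 a191 k0)))))))) (by decide +kernel)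
def a3318 : PP 8 4 T 0x2000000000000000000000002000000000000000000000600000000000000400000 := rS 0x6c3272509289a49 (k8 a1061 i574 a440 a3282 i496 a3283 i834 a437 k0) (by decide +kernel)
def a3319 : PP 8 4 T 0x2000000000000000000000002000000000000000000000000020000000000400080 := rS 0x6c322e0010d4253 (k8 a3280 a3282 i21 i455 i456 i1038 i317 a437 k0) (by decide +kernel)
def a3320 : PP 8 4 T 0x202200000000000000000000002000000000000000000000000020000000000400000 := rS 0x182a5722d44a21509fca2532a8755a235181dfa47 (k8 a451 a431 a3319 a1824 i184 a445 i742 a3301 (k8 a3280 a3318 a1044 a3282 i743 a423 a444 a3317 (k2 a382 a408 (k1 a3108 k0)))) (by decide +kernel)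
def a3321 : PP 8 4 T 0x2001001000000000014006000110000000100000000000000420000041140000040 := rS 0x1774f6631d7b455f8f90a8741c4852270e88d4743 (k8 a84 a1824 i184 i742 a331 a443 a127 a1898 (k8 a69 a77 a3061 i1455 a80 i1411 a3078 i2032 (k2 a36 i1948 (k1 a404 k0)))) (by decide +kernel)
def a3322 : PP 8 4 T 0x102200001000000001000000000000001400000400040000000000001080000000002 := rS 0x1b27a329d679d1167b1db262639 (k8 i295 a8 a343 a339 i812 i452 a2262 i1068 (k4 i1592 a784 a191 a419 (k1 i996 k0))) (by decide +kernel)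
def a3323 : PP 8 4 T 0x102200000002000000000004002010000000140000010000118020000000100000040 := rS 0x5e2610ccf8c8f4f03a040605c0200b3454673ba4d68f1618c58a2560a946b154d81452910fa9c3aad35ae51ec911a8dfa47 (k8 a451 a431 a1824 i184 a343 i1132 i1139 a464 (k8 a445 i742 a1825 i183 a102 a443 a1832 a457 (k8 a400 a364 a382 a408 a409 a40 a459 a468 (k8 a3227 a3108 i1369 i808 i576 a3321 i888 a3322 (k8 a349 i1084 i1045 i1085 i387 i388 a122 a345 (k4 i1145 a3070 a3199 i934 (k1 i1990 k0))))))) (by decide +kernel)
def a3324 : PP 8 4 T 0x2200000001000000004000000000000000000400050000018000010082000000010 := rS 0x6317671e23287358cd1ec9 (k8 a343 i1132 i287 a464 i928 a1713 a3057 a3070 (k2 a368 i989 (k1 a429 k0))) (by decide +kernel)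
def a3325 : PP 8 4 T 0x102200000001000000000000000000000000000400050000018000000082000000012 := rS 0x9e672198ec24e9d1167b1cbc62691478ec6ac9 (k8 a343 i1114 a339 i1132 a102 a8 a61 i295 (k8 i812 i452 a2262 i1592 a3324 i142 i372 a235 (k2 i1707 i133 k0))) (by decide +kernel)
def a3326 : PP 8 4 T 0x2000000001000008000000000000000000000000000000000000054000000000000 := rS 0x6317 (k2 a368 i988 (k1 a429 k0)) (by decide +kernel)
def a3327 : PP 8 4 T 0x2200000001000000008006000410401000100400050000010001014056050400000 := rS 0x798cb3c6e7b89a093abe649ae8687 (k8 i927 a84 a464 a343 a1517 i1906 i1455 a68 (k4 i816 a1577 a3326 a784 (k2 a3070 a406 k0))) (by decide +kernel)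
def a3328 : PP 8 4 T 0x10402000000000000000000004002010001000101000000000000020000040040000040 := rS 0x418fcf4f07ea6c5227 (k8 a331 a443 a457 a431 a127 a406 a6 i816 (k1 a3061 k0)) (by decide +kernel)
def a3329 : PP 8 4 T 0x10002200000000000004040004002010005004100400010000010020000040040000042 := rS 0x2613897a28f907123cc55fa9b649acce3b (k8 a339 i576 a464 a343 a457 a431 a400 a3070 (k8 a3328 a68 a3061 a80 i1372 a2616 a422 i1943 k0)) (by decide +kernel)
def a3330 : PP 8 4 T 0x2200000000000080000002002000000000000000000000000020000000000400000 := rS 0xc62ece8cb0d8e87158d400031e8bd36051489d221f5387466247281d02b73fbf4a2655088c8e212ac44eeb933a4d1ec925134a649 (k8 a1061 a3280 i574 a440 a343 i1132 i1369 i576 (k8 i1139 i808 a3320 a3301 i743 a451 i184 a3282 (k8 i1050 a3318 a431 a1044 a577 a3072 a3319 a3323 (k8 a107 i287 i742 a1825 i183 a102 a331 a443 (k8 a1832 a457 a359 a335 i1084 a349 i1114 a3325 (k8 i927 i410 a3327 a1713 a3329 a368 i989 a429 k0)))))) (by decide +kernel)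
def a3331 : PP 8 4 T 0x2200000000000000000002002000000000000000000000000020000040000400002 := rS 0x18c5d86ce1aa6c52274887d4e333bae4ce9347b247a088ca91a74360875468763891ca0740adcfefd28994944950934a62323884ab11 (k8 a3320 a3301 i743 a451 i184 a3280 i574 a3282 (k8 a1061 a440 i1050 a3318 a431 a1044 a577 a3072 (k8 a3319 a3323 a107 i410 i927 a1824 i742 i1247 (k8 a84 a3330 a393 a3153 a1807 a122 a343 i1132 (k8 i1369 i576 i1139 i808 i287 a1825 i183 a102 (k8 a331 a443 a457 i1114 a3329 a3327 a368 i989 (k1 a429 k0))))))) (by decide +kernel)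
def a3332 : PP 8 4 T 0x2200000000000008040000002200020000000004000000000020020002000000000 := rS 0x2fd30bc1db153f4f (k8 a3 i133 a807 i1146 i1105 i1104 i1725 a3149 k0) (by decide +kernel)
def a3333 : PP 8 4 T 0x2200000000000000000002002000000000000000000000000020000040000400000 := rS 0x9f4ea2d30cf1a2505c0200b1e2a9b31814526f0fa9c48233bae4ce9347b247a088ca91a74360875464772c440e815b9fdfa513292892a12694c4255 (k8 a3301 i743 a3280 i574 a3282 a1061 a440 i1050 (k8 a3318 a431 a1044 a577 a3072 a3319 a3320 a3323 (k8 a451 a1824 i742 i1247 a84 a3330 a393 a3153 (k8 a1807 a122 a343 i1132 i1369 i576 i1139 i808 (k8 i184 a107 a1825 i183 i1056 a443 a1832 i97 (k8 a457 a400 i410 a3331 a349 i1084 i366 i365 (k4 a3332 a3199 i1939 i1943 (k2 i2771 a191 k0)))))))) (by decide +kernel)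
def a3334 : PP 8 4 T 0x2200000000000000000002002000000000000000000000000020000000000400000 := rS 0x8767b0d8e3a0c0b86e023c00472f11546548d3339dd26c1a1815221d35ae51ec951891ca0740adcfefd28994944950934a62323884ab11 (k8 a3320 a3301 i743 a451 i184 a3280 i574 a3282 (k8 a1061 a440 i1050 a3318 a431 a1044 a577 a3072 (k8 a3319 a3323 a107 a1824 a343 i1132 i1139 a464 (k8 i742 a102 a1832 a84 i1247 i1369 i808 i576 (k8 a3330 a393 a3153 a3333 a61 i295 a3325 a3057 (k8 a349 a446 i1084 i1045 a419 i2244 i2222 i1146 (k2 i928 a3070 k0))))))) (by decide +kernel)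
def a3335 : PP 8 4 T 0x102200000001000000000000000000000000000000010000018000000082000000012 := rS 0xee671a8cd1ec9 (k4 a343 i1132 i287 i1114 (k2 i450 i804 (k1 a3325 k0))) (by decide +kernel)
def a3336 : PP 8 4 T 0x102200000001000000000000000000000000000000010000018000000082000000010 := rS 0x18ece4399cf03a619dc301b01005926b (k8 a464 a343 a3335 a349 i189 i1045 i803 i2222 (k4 i387 i388 i490 i928 (k2 a3070 i2240 (k1 i1146 k0)))) (by decide +kernel)
def a3337 : PP 8 4 T 0x102001000000000008040005000010000404100000000000000020000840040000040 := rS 0x3f418ed0b4f (k4 a3 i1871 i1146 a197 (k2 i404 a3061 k0)) (by decide +kernel)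
def a3338 : PP 8 4 T 0x2200000000000004000004002010001000901200040000000020000040040000040 := rS 0x9d8c1ee269b (k4 a457 a68 i816 a3328 (k2 i1592 a784 k0)) (by decide +kernel)
def a3339 : PP 8 4 T 0x102200000001000000000005002010000000110000050000011020000002040000048 := rS 0x2b27516cd4fc662498618e9e23e419e59e931e9d0687704060362e318a44e5948a9dfa1d35a3d9287638ac9405 (k8 a1832 a440 a3336 i410 i927 a343 i1132 a464 (k8 i742 a431 a1825 a102 a506 a331 a443 i97 (k8 i1084 i189 i1045 i1085 i803 i348 i349 a122 (k8 i1589 a3337 a3070 a3338 a3061 a6 i404 i2226 (k8 i405 a127 a345 i1184 a3260 i1939 i1943 a1729 (k1 a3081 k0)))))) (by decide +kernel)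
def a3340 : PP 8 4 T 0x2200000000000004040000000000400000000000040000000008004000000000002 := rS 0xde329c1cbc5923b (k8 a339 a343 a6 i297 a2616 a347 i1780 a419 k0) (by decide +kernel)
def a3341 : PP 8 4 T 0x102200000000000004040004002010001404100400050000010020004040040000042 := rS 0x459d4f69789a087e797ea6d926b (k8 a464 a343 a457 a431 a3070 a3340 a3061 a68 (k4 i1376 i816 a3338 i578 (k1 a2262 k0))) (by decide +kernel)
def a3342 : PP 8 4 T 0x102200000001000000000005002010000000110000050000011020000002040000040 := rS 0x78789d06d17671dc6a000c80c529119a3d9287638ac9405 (k8 a1832 a440 a3336 i410 i927 a343 i1132 i287 (k8 a102 a443 a3339 i180 a349 i1114 i804 a3341 (k4 a368 a3326 a466 a376 (k2 i1067 a3116 k0)))) (by decide +kernel)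
def a3343 : PP 8 4 T 0x2200000000000000000000002000000000000000000000000020000000000400000 := rS 0x74332d448e5889f4464756885426525134927f2a87d6e812894dfa07 (k8 a3319 a431 a3280 a3318 a3072 a577 i183 a3301 (k8 a1044 a1061 i574 a440 i1050 a3282 i743 a445 (k8 a451 i184 a1110 a3320 a3323 a107 a3334 a3342 (k2 a3084 i1588 k0)))) (by decide +kernel)
def a3344 : PP 8 4 T 0x2000000000000000000000000000000000000000080000018000000002000000000 := rS 0x74 (k2 a3084 i1588 k0) (by decide +kernel)
def a3345 : PP 8 4 T 0x2000000000000000100000002000000000000000000000000020000002000400000 := rS 0x39788f90637890ed3c2b0d00cf3190ca759e9b028a44e2150a44ca1f5ba04a2fd0395a22c7063948e598283caa67251249a53 (k8 a3280 i574 a1061 a440 a3344 a3301 i339 a3343 (k8 a506 i205 a409 a425 a342 a38 a362 a3319 (k8 a431 a3318 a3072 a577 i183 i1050 a102 a3282 (k8 i743 a331 a443 a1832 a457 a2062 a544 a294 (k8 a3303 a1478 i1045 a437 a3057 a3082 i394 a3328 (k4 i997 a68 a3061 a6 (k2 i297 a419 k0))))))) (by decide +kernel)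
def a3346 : PP 8 4 T 0x2000000000000000000000002000000000000000000000000020000002000400000 := rS 0xd8651c75640ccce560611e22e507954b24a2694c9305 (k8 a3343 a1061 a3280 i574 a440 a506 a3301 i339 (k8 a409 a38 i205 a425 a362 a3344 i1609 a3345 (k4 i1064 i504 i349 i873 (k1 a437 k0)))) (by decide +kernel)
def a3347 : PP 8 4 T 0x2000000000000000000001002010010000050000000011000840000001558000044 := rS 0x885134d9715028b45e8f (k8 i872 i317 a1828 a1832 a400 i624 a3302 a3093 (k2 a120 i281 k0)) (by decide +kernel)
def a3348 : PP 8 4 T 0x2100000001000000200000002010000000050000000011000040000001558004044 := rS 0x52b297294608c88cfd8b8c41a355ac40ae8f (k8 i872 i504 a362 a444 i356 i464 i983 a405 (k8 a431 a425 a429 i1534 a3347 i104 i1101 i289 (k1 a3286 k0))) (by decide +kernel)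
def a3349 : PP 8 4 T 0x2000000000000000200000002000000000000100000000000020000000001400000 := rS 0x884aa89a6cb60a95c8b5881f4ae23478bc34038a8b4860f10a84b24a26924fe557e87ca2530e81e0a25 (k8 a3346 a3343 a3319 i742 a3280 a3318 i183 a431 (k8 a3301 a1044 a1061 i574 a440 a506 a3282 i743 (k8 i339 i21 a1828 a400 i1045 a437 i317 i872 (k8 i273 i504 a936 a362 a444 a3348 a382 a408 (k4 a3286 a2218 i2030 i1101 (k2 a120 i281 k0)))))) (by decide +kernel)
def a3350 : PP 8 4 T 0x2000000000000000200000002000000000000100000000000020000000000400000 := rS 0x5a9f546232b8d11e4665820041821a84b24a26924fe557e87ca2530e81e0a25 (k8 a3346 a3343 a3319 i742 a3280 a3318 i183 a431 (k8 a3301 a1044 a1061 i574 a440 a506 a3282 i21 (k8 a3349 i180 i1085 a3284 i1123 i2778 i1122 i504 (k4 i247 i2074 a936 a1076 (k1 a3093 k0))))) (by decide +kernel)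
def a3351 : PP 8 4 T 0x2001001000000001002004000010000001100000000015000020000040040000040 := rS 0x310d43e4397507121489c1e1d (k8 i742 i339 a331 a443 a127 a1898 a5 a69 (k4 a3061 a460 i1426 i1790 k0)) (by decide +kernel)
def a3352 : PP 8 4 T 0x2100000000000000102004002010001000100100050015000020000040040002040 := rS 0x4f1e117193da5e266b410447ef07ea6d9a85 (k8 a1949 a2010 a457 a431 a3351 a6 a441 a3061 (k8 i467 a68 i1376 i816 a2579 i578 a406 a1947 (k1 i1075 k0))) (by decide +kernel)
def a3353 : PP 8 4 T 0x2100000000000000102004002010001000100100050005010020000001042000040 := rS 0x13e8b359e1862a061641002 (k8 i180 i1085 a506 i1266 a3352 i371 i388 i468 (k2 i1854 i1075 (k1 a1947 k0))) (by decide +kernel)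
def a3354 : PP 8 4 T 0x210000000000000010000000a000000000000100050000010000000080002000000 := rS 0x579a9329f45c64f03a8aa6d9e9d (k8 a544 a2062 a457 a400 i387 i388 a345 i1854 (k4 i1075 a1174 a1947 a2598 (k1 i585 k0))) (by decide +kernel)
def a3355 : PP 8 4 T 0x2001000000000000400005008090000000100000800000000020000040040000040 := rS 0x418fd774f (k4 a394 i1947 i407 a899 (k1 a3061 k0)) (by decide +kernel)
def a3356 : PP 8 4 T 0x2000000000000004100000008001200000000000054000000000000000000000000 := rS 0x8b (k2 i1939 a1174 k0) (by decide +kernel)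
def a3357 : PP 8 4 T 0x2100000000000000100004002010001000150100050005010020000001042000040 := rS 0xfd06998c9ac56aa513054a081700a2afd4d98c421d67a746a0f11ad59659 (k8 a506 i623 a1076 i185 i339 a547 a544 a2062 (k8 i742 i743 i97 a457 a431 a400 i180 i1084 (k8 i1085 i365 a3353 i2030 i201 a3354 a3355 a2579 (k4 a3356 a3055 i405 a3061 k0)))) (by decide +kernel)
def a3358 : PP 8 4 T 0x2100000000000000100000002080000000000000010000000000000400000000000 := rS 0x44b4e2a2d (k4 a1828 a400 a99 a1246 (k1 a120 k0)) (by decide +kernel)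
def a3359 : PP 8 4 T 0x200000000000000410000500a011001020100000050000000024000040040000040 := rS 0x41259fa29138753263 (k8 i97 a3356 i742 a331 a443 a431 a1464 a3061 (k1 i1376 k0)) (by decide +kernel)
def a3360 : PP 8 4 T 0x2100000000000000100000000000001000000000050000000000000081000002002 := rS 0x6c9e8ca2cd63961bc476c7 (k8 a342 a339 a61 i371 i295 i468 i452 a2579 (k2 a1947 a419 (k1 i997 k0))) (by decide +kernel)
def a3361 : PP 8 4 T 0x2100000000000000100005002050001020150000050000000020000001540004042 := rS 0x4f1ae308b5ea5c73451f0ad32c7550315b4372a9183157ea6cc6cf4ea4e2c3b2390c3acb (k8 i623 i742 i21 a3093 a339 a352 a19 a544 (k8 a2062 i97 a457 a431 a400 i1344 i2030 a382 (k8 a129 i1286 a425 a439 a342 a3356 a3360 a3359 (k8 a80 i297 i1372 i1412 i452 a422 i586 a1947 (k1 a33 k0))))) (by decide +kernel)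
def a3362 : PP 8 4 T 0x210000000000000014000000a000000000000000050000000008000000000000002 := rS 0x278d71845af52e39a2c55363b4ca759e63 (k8 i97 a2062 a544 a3356 a339 a457 a400 a80 (k8 i297 i1372 i1412 i452 a422 i586 a1947 a33 k0)) (by decide +kernel)
def a3363 : PP 8 4 T 0x2000000000000000000000002000000000000100040004000020000000000400000 := rS 0x388c3c12e821f9c5322b63aa818ada1b9548c1692248ea31780034030cad6207d11c553663168a4860f109bd425948994944d249fcaa1f5ba04a25353bf43a0712b2d9e9d19b240b05 (k8 a3343 a1832 a3350 a2770 a544 a2062 i623 a3346 (k8 a3319 i742 a431 a1825 a3280 a3318 a3072 a577 (k8 i183 a3301 a1044 a1061 i574 a440 i1050 a102 (k8 a506 a3282 i1056 i743 i339 i21 a443 a1828 (k8 i97 a457 a400 i185 a936 a362 a1076 a3357 (k8 i1045 a437 a349 i317 a3358 a3093 a3361 a3172 (k8 a44 a2218 a382 a129 i1286 a425 a439 a342 (k8 a3360 a3356 a3308 a3362 a3061 i1376 a1898 a3055 (k2 a3235 a42 k0))))))))) (by decide +kernel)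
def a3364 : PP 8 4 T 0x20002100000000000000114000000000000000001000050008008000015005000400000 := rS 0x638dc571366170d4394f9ed2287 (k8 a387 a102 a390 a33 a42 a2579 a3067 i508 (k4 a5 i888 a1577 a275 (k1 a2222 k0))) (by decide +kernel)
def a3365 : PP 8 4 T 0x2000000000000000000000002000000000000100040000000020000000000400000 := rS 0x601178e9323978a547c3755a0d3c5d890ae32c5618c4f20d889586a3365b2536052189c1e2150a44ca4a26924aa1f5ba04a2537e81e0a25 (k8 a3346 a3343 a3319 a431 a3280 a3318 a3072 a577 (k8 i183 a3301 a1061 i574 a440 i1050 a102 a3282 (k8 i743 i339 a331 i21 a1832 a457 a3350 i623 (k8 a2770 a547 a3363 a58 a3062 a1478 a1332 a276 (k8 a277 a3364 a3057 a3328 a5 a3067 a68 a3063 (k8 i996 a3061 a3264 a6 i297 i1112 a419 i405 (k2 a339 i1084 (k1 a349 k0)))))))) (by decide +kernel)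
def a3366 : PP 8 4 T 0x2000000000000000000000002000000000000000040000000020000000000400000 := rS 0x80c742f1cbc532371f279065d894652ac561aac5679068cd96312b3246b113a26c0a431383c42a12ca44ca4a26924aa1f5ba04a2537e81e0a25 (k8 a3346 a3343 a3319 a431 a3280 a3318 a3072 a577 (k8 i183 a3301 a1061 i574 a440 i1050 a102 a506 (k8 a3282 i743 i339 a331 i21 a1832 a457 a3365 (k8 a453 i1062 i1064 a362 a1332 i623 a2770 a3062 (k8 a1478 a3071 a3079 a276 a277 a3264 a3364 a3328 (k8 a5 a68 a3067 a3061 i996 i1112 a6 i297 (k4 i405 a419 i1084 a339 (k1 a349 k0)))))))) (by decide +kernel)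
def a3367 : PP 8 4 T 0x2000000000000000000000002000000000000000000000000020000000000400000 := rS 0x158cc2525134a649 (k8 a1061 a3280 i574 a440 a3346 a3366 i489 a3089 k0) (by decide +kernel)
def a3368 : PP 8 4 T 0x1002000000000000000000000000000000000000000000000088010000100000000000 := rS 0xd20e01c3e42 (k4 a3000 a2995 i1222 i701 (k2 a656 a341 k0)) (by decide +kernel)
def a3369 : PP 8 4 T 0x2001000000000004100000008001001040010040454108440000000000000000000 := rS 0x1329e (k2 a388 a3356 (k1 a3053 k0)) (by decide +kernel)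
def a3370 : PP 8 4 T 0x1102101000000000000400000004008400045000000010110540000000000000000000 := rS 0xae4ca0d2ab5a7c656e81 (k8 a3072 a577 a33 a26 a1244 a3264 a197 i1112 (k2 a108 a2598 k0)) (by decide +kernel)
def a3371 : PP 8 4 T 0x11002000000000000000000004000000501040100000000100540000000000000000000 := rS 0x15e83 (k2 a3055 a2598 (k1 a108 k0)) (by decide +kernel)
def a3372 : PP 8 4 T 0x2000000000000004000000002001000000000000000008408000000000000400000 := rS 0x29c3ad2418a687124a1ec7a981fa8e08ab5287e18c13ea056ea17ea6c56732498c9e2d8ac44b2cb28b1dcaad110cc1885138dc303b00176329e3ca1d926b33994aa4d459088291 (k8 a102 a3367 a3000 i2247 i73 a3301 i1050 i2246 (k8 i2253 i2251 a387 a1382 a388 a33 a2497 i437 (k8 a339 i438 i1043 a1276 i1606 i441 i1609 i442 (k8 i2950 a392 a342 i2248 i505 i119 a58 a400 (k8 a1828 a3368 i97 a1061 a2961 a818 a457 a431 (k8 a3282 a577 a3072 a1110 i1573 a467 a81 i248 (k8 a3369 a3370 i1647 a3340 a3371 i1785 i1940 i1112 (k8 a406 a121 a54 a68 a393 a341 a67 i2031 k0)))))))) (by decide +kernel)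
def a3373 : PP 8 4 T 0x2000000000000000000000002000000000000000000008008000000001000400000 := rS 0x518bd12a54ab040e6e3e074a4934eb3e2c355c8cdca31648304421888b4e6512498cce000d9348441 (k8 a3367 a3000 i73 i779 i437 i2246 i97 a1061 (k8 i2248 a2961 a1828 a58 a2991 i442 i441 i2251 (k8 a1332 a392 i1609 i1139 i1114 a429 a368 a399 (k8 a19 a3372 a1820 i569 i567 i2267 i1574 i1598 (k4 i1326 i1318 i2733 i1648 (k1 i2033 k0)))))) (by decide +kernel)
def a3374 : PP 8 4 T 0x2000000000000004100000002001010000020008000000008000000001000400000 := rS 0x24cee9e18c114a2188954ce184595d82a3690bc5a890d9362a591a8008441 (k8 a3367 a3000 i437 i1114 i605 a400 i73 i779 (k8 i1318 a1828 i2733 a120 a99 a44 a3373 i2247 (k8 i438 i2246 a3301 a73 i1501 i1326 a362 a1332 (k4 a191 i3028 i1322 a493 k0)))) (by decide +kernel)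
def a3375 : PP 8 4 T 0x102000000000000004101011000041014010000000000005008080000501000000000 := rS 0xec2219294629e10c10ce18459646a00 (k8 i437 i1114 i605 i2247 i438 i2246 a362 a909 (k4 a191 i1042 a164 i2033 (k2 i232 i233 (k1 i3027 k0)))) (by decide +kernel)
def a3376 : PP 8 4 T 0x400000000009202001000000000000400000010008401040000408000015000000000000000000000 := rS 0xf713431ad55052eabcf2998ca159a75 (k8 a453 a380 a361 a33 i2738 i1075 a2598 a2497 (k4 a3208 a439 i585 a460 (k2 a69 i817 (k1 a406 k0)))) (by decide +kernel)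
def a3377 : PP 8 4 T 0x2000000000000004100000002001010000000000000000808000000001000400000 := rS 0x2586e391fab932c761041540c354153e778b11d5b4372a9062333a88e20933ea6cc6913386116652a83caecb5381dfac151b485e2d4486c9b152c8d4004220ad5726e (k8 i567 i1139 i1399 a3367 a3000 i437 i1114 i605 (k8 a400 i73 i779 i1318 a1828 i2733 a120 a99 (k8 a44 a431 i2267 a1825 i2415 a3373 i2404 a3301 (k8 i1050 i2247 i438 i2246 a102 i97 a457 a3374 (k8 i1321 a3375 a9 a453 i232 i1041 i2033 a382 (k8 a129 i1286 i209 a429 a877 a3376 a192 a388 (k8 a425 a439 i467 i468 a342 a3356 i585 a3362 (k4 i1873 i1956 a2713 i1899 k0)))))))) (by decide +kernel)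
def a3378 : PP 8 4 T 0x2000000000000001000000000002001041000000400015000000000000000000000 := rS 0x2e1e63287 (k4 i1645 a347 i1857 a460 (k1 a2497 k0)) (by decide +kernel)
def a3379 : PP 8 4 T 0x2000000000000000001010000140010010000408000000000000011500002000000 := rS 0x12633 (k2 i233 i1322 (k1 i2033 k0)) (by decide +kernel)
def a3380 : PP 8 4 T 0x2000000000000000101010000042010000000008000005008080000101000000000 := rS 0x3064f01b8e44e783b29622841888586cd35c110f178ca44ce184583c768f4486c9a2f2c8d400b5 (k8 i1399 i437 i1114 i605 i2733 i73 i779 i1318 (k8 i1133 a339 i2404 i2247 i438 i2246 a102 a347 (k8 a399 i1645 a544 i1908 i1910 i1906 a933 i1042 (k8 a3378 a361 a164 a3379 i1632 i3046 i1852 i1044 (k4 a419 a3216 a1762 i1609 k0))))) (by decide +kernel)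
def a3381 : PP 8 4 T 0x2000000000000000000000002400040010400008000000000000540420000000000 := rS 0x4c2dc7e9b1eb485b15 (k8 a400 a1828 a120 a335 a457 i257 i1928 i2034 (k1 i1060 k0)) (by decide +kernel)
def a3382 : PP 8 4 T 0x400000000000004102200000000000000000000002400000001402118000000000000411440106000000 := rS 0x1908de0291b89d0ccd1ca5e2689 (k8 i1318 a398 i1856 i1852 i1973 a436 i737 i1044 (k4 a3381 a127 i1704 a3216 (k1 i232 k0))) (by decide +kernel)
def a3383 : PP 8 4 T 0x2000000000000000000000002404000018401008000000000000400440102000000 := rS 0x3c07c291ca5cf62789a6c7ad216c546e99 (k8 i1059 i1043 a400 a1828 a120 a335 a457 a69 (k8 i737 i818 i1324 i235 a3381 i2034 a127 a6 k0)) (by decide +kernel)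
def a3384 : PP 8 4 T 0x4002000000000000000000000002400140415400108400015000080540400000000000 := rS 0x3d46198f12e8f8529b1eb485b15 (k8 a400 a1828 a120 a335 a457 a3381 i2034 i444 (k4 a6 a460 a419 a1006 (k1 a390 k0))) (by decide +kernel)
def a3385 : PP 8 4 T 0x4002200000000000000000000002000100005000100000015808080151000000000000 := rS 0xc193c232966199c1e3b47a0d121b268bcdc005381dfa6b (k8 a464 a431 i2267 a1825 i437 i567 i2733 i73 (k8 i779 i1318 a334 i1133 a339 i2404 i2246 a1105 (k4 a3384 a71 a419 a3216 (k2 a1762 i1609 k0)))) (by decide +kernel)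
def a3386 : PP 8 4 T 0x2000000000000008000000000000000000000000000000000000200000002000000 := rS 0x64c2 (k2 i1976 i1977 (k1 i2112 k0)) (by decide +kernel)
def a3387 : PP 8 4 T 0x4002200000000000000000000002000000005000140000015808080151000000000000 := rS 0xcd2e9ed0298479c49a6b (k8 a464 i73 i797 i1133 a3385 i1864 i1941 i571 (k2 a1006 a460 k0)) (by decide +kernel)
def a3388 : PP 8 4 T 0x2000000000000000001010000040010010000208000000000000011501102000000 := rS 0x52444eeb5 (k4 i1399 i79 a453 a3379 (k1 a164 k0)) (by decide +kernel)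
def a3389 : PP 8 4 T 0x4002200000000000000000000002000000005000100000014808000111000000400000 := rS 0x19a5d3c0a46c553994492630c108826b (k8 a464 a3367 a3000 i438 i97 a1061 i2248 a2961 (k4 a3301 a3387 i1838 i1043 (k2 i444 i1973 (k1 a460 k0)))) (by decide +kernel)
def a3390 : PP 8 4 T 0x2000000000000000100000002000010000000000000000808000000001000400000 := rS 0xcde02314c412e373c1ec4f13431d4722118c110a9fa7c5d9c9d1a96572551599c303b4795d06715381dfac151b485e0016a24dc1b269088315 (k8 a400 a3367 a3000 i73 i779 i567 i1318 a1828 (k8 i437 i2733 a120 a99 a44 a431 i2267 a1825 (k8 i797 a334 a3373 i1133 a339 i438 i2246 a818 (k8 a3301 i1139 i605 i1114 a3380 a3377 a368 a3 (k8 i133 i1871 a2062 i2719 a909 a3386 a3388 a3389 (k8 a69 i737 i818 a3383 i1044 i1324 a3382 a3381 (k4 a9 a127 i232 a3216 k0))))))) (by decide +kernel)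
def a3391 : PP 8 4 T 0x4002000000000000000001040000440454018000000000000000001555550000000000 := rS 0x3e782644eb810a95c913 (k8 a69 a429 a382 a46 i2033 i737 i1144 a127 (k2 i2034 a6 k0)) (by decide +kernel)
def a3392 : PP 8 4 T 0x4002000000000000000000040000000214008000008000000000000000000000000000 := rS 0x1fa84b6 (k4 i1060 a1601 i856 a133 k0) (by decide +kernel)
def a3393 : PP 8 4 T 0x4002000000000000000000000002400054018400008000000000000545440000000000 := rS 0x1331de2341f0a5363d60a8da42d8ac4d32bb (k8 i1684 a3392 a69 a400 a1828 a120 a99 a44 (k8 a335 a457 a3381 i2034 a3391 a6 i412 a127 (k1 i738 k0))) (by decide +kernel)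
def a3394 : PP 8 4 T 0x4002100000000000000000000002404010018400008000005000000401440002000000 := rS 0x81c8261a8d926333e88c7297881ed8a59 (k8 a358 i1524 i818 a362 i1324 i235 a9 a73 (k8 i232 i1321 a3393 i1121 i1044 a429 i737 a46 k0)) (by decide +kernel)
def a3395 : PP 8 4 T 0x402100000000000000000000008000000005100000000105808000000000000000000 := rS 0xa22b96e6a669661a83 (k8 a334 a375 i2392 a2010 a460 a1497 i585 a462 (k1 a381 k0)) (by decide +kernel)
def a3396 : PP 8 4 T 0x402000000000000000200000002000014014000000000105808000010408002004000 := rS 0x8896444761929684b955a158a0d269b982a38bc1462811eb485b15 (k8 a400 a1828 a120 a335 i1769 i983 a32 a405 (k8 a99 a44 i567 i73 i464 a277 i1771 a3395 (k8 i1140 a447 a129 i2033 a3379 i232 i805 a9 (k1 a362 k0)))) (by decide +kernel)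
def a3397 : PP 8 4 T 0x2000000000000000004000000000000004002000000105008000020009000000002 := rS 0x35b34b285061d4468f (k8 i1133 i247 i1062 i1115 i1772 i606 i1973 i468 (k1 a460 k0)) (by decide +kernel)
def a3398 : PP 8 4 T 0x2100000000000000000000000000008000000008000005010000000000000000000 := rS 0x2cc44ec7c (k4 i1321 i1322 a73 i805 (k1 a362 k0)) (by decide +kernel)
def a3399 : PP 8 4 T 0x2000000000000000200000002000010014000000000015808000100008002004002 := rS 0x5e0f954991bae0f2a5893906a330688d866a882159a9b1da9c0efd60a8e2e3149c149a5d4ba047ad2178b62a6e (k8 i567 a400 a1828 i2733 a120 a335 i1769 i1323 (k8 a3002 i73 a32 a3398 i983 a405 a99 a44 (k8 a431 i2267 a1825 a339 a457 a2010 a1949 a362 (k8 a460 i1954 a9 i468 i232 i1115 a429 a3396 (k8 a382 a398 i2033 i1043 i1059 i1140 i2034 i586 (k1 i1411 k0)))))) (by decide +kernel)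
def a3400 : PP 8 4 T 0x2000000000000000000000002000010010000008000020008000001401002004000 := rS 0x6ab9109d156c151b485b15 (k8 a400 a1828 a120 a99 a44 i2392 i606 i724 (k2 i1140 i1062 (k1 a3388 k0))) (by decide +kernel)
def a3401 : PP 8 4 T 0x2000000000000000200000002000010000000000000014808000000008000400000 := rS 0xe50e3107a7e0b175381dfa2f4486c9a6e418ec0018210ac8255 (k8 a3301 a3367 a818 a3000 i438 i437 a339 a334 (k8 i567 i73 i779 i1318 i2733 a431 i2267 a1825 (k8 a405 a32 a428 i2404 i983 a3394 i1876 a3399 k0))) (by decide +kernel)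
def a3402 : PP 8 4 T 0x802000000000000001000000008500400015000008000015000001540500000000000 := rS 0x1f2f12e9935204f25d (k8 a5 a398 a45 a460 i1059 i1323 i586 i2034 (k1 i1411 k0)) (by decide +kernel)
def a3403 : PP 8 4 T 0x2000000000000000000000002400000010400008000000000000540420000000000 := rS 0x12c7b (k2 i1889 a3381 (k1 i1324 k0)) (by decide +kernel)
def a3404 : PP 8 4 T 0x4002000000000000000000000000004084040000000800000000000000000000000000 := rS 0x19f19 (k2 a71 i1983 (k1 a534 k0)) (by decide +kernel)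
def a3405 : PP 8 4 T 0x4002101000000000000481000000400414014000008001015000001545544000000000 := rS 0x291c8aa890d59a85 (k8 a1949 a2010 i412 a275 a3105 a429 a3402 a382 k0) (by decide +kernel)
def a3406 : PP 8 4 T 0x4002101000000000000409000000400440010000008800000000001541554000004000 := rS 0xa1aad48be1f264f312788415a34063969ec5 (k8 i1790 a394 a468 a276 a1105 i1493 i467 a441 (k8 a127 a398 i1059 i2034 a204 i375 a367 a129 (k1 a439 k0))) (by decide +kernel)
def a3407 : PP 8 4 T 0x4002100000000000000000000002004010000000000000005808080101045000000000 := rS 0x6ae50688186c74bb14d45d14a6cc28b658f582d216c550ea703bf5063b49b350a3311c40b22f00224364d3703c6e18 (k8 i438 i1044 i2404 i567 i73 i779 i1318 i437 (k8 i2733 a3400 a362 a9 i232 a1949 a2010 a3398 (k8 a339 a334 a431 i2267 a1825 a3394 a400 a1828 (k8 a120 a44 a335 i2415 i2247 i96 a457 a3403 (k8 i444 a460 i1790 a3404 a3405 a3406 i2032 i468 (k2 a46 i1115 (k1 a429 k0))))))) (by decide +kernel)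
def a3408 : PP 8 4 T 0x2000000000000000000000002000010000000000000000808000000001000400000 := rS 0x1acbacf3cc6470271988e2085669650e314fc162ec82a8ad22184583c765741a24364d179b8004220a9c0efd (k8 a431 i2267 a1825 a3367 a3000 i437 i567 i2733 (k8 i73 i779 i1318 a334 a3373 a339 i2404 i2247 (k8 i438 a102 a818 a3301 a3390 a405 a32 a428 (k8 i983 a3394 a3400 a2010 a1949 a362 a9 i232 (k8 a3401 a3407 a42 i1852 i1977 a2497 a534 a460 k0))))) (by decide +kernel)
def a3409 : PP 8 4 T 0x10002000001000000000014000000000000040000000400000000400444000000005000 := rS 0x458e38 (k4 a419 a1190 i1873 a132 k0) (by decide +kernel)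
def a3410 : PP 8 4 T 0x20002200000000000004000000000000000000000000040000000000000000000000000 := rS 0x9d (k2 a347 a784 k0) (by decide +kernel)
def a3411 : PP 8 4 T 0x2000000000000000000000002000000000000000000000808000000001000400000 := rS 0x874e9e04c368cbc586c506b90426b23c1047112cb3c667e3a32528a3690bd126e65c545a670c22cca550786c9a3b001088257 (k8 a3373 a3367 a3000 i437 a339 i73 i779 i2404 (k8 a3301 i1050 i2247 i438 i2246 a1828 a400 i2415 (k8 i567 i1318 i2733 a120 a99 a3408 i1101 i1057 (k8 i1058 i1671 i2736 i605 a453 i1663 a362 a451 (k8 a464 a909 a107 a392 a40 a468 a3227 a3410 (k4 a3409 i1044 i1043 i1780 (k2 i737 a1382 k0))))))) (by decide +kernel)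
def a3412 : PP 8 4 T 0x2000000000000004100000000000000000000000450000010000084000102000000 := rS 0x43a74f026 (k4 i1044 i1043 i1780 i737 (k1 a1382 k0)) (by decide +kernel)
def a3413 : PP 8 4 T 0x2200000000000004040000000009000000002000050000010000440001104000000 := rS 0x1ca2388bc10c741cb24d719 (k8 a3410 a464 a343 i1852 i1075 a1382 a419 a453 (k2 i1703 a3227 (k1 a107 k0))) (by decide +kernel)
def a3414 : PP 8 4 T 0x1002200000000000004040004000001401040150000050005550000440001104000000 := rS 0x41449687b5f2ad305d3ca79925965ab4d719 (k8 a3410 a464 a445 a385 a2 a343 a388 a3413 (k8 a2497 a3371 a1174 i1113 i1940 i2037 a406 i1455 (k1 a68 k0))) (by decide +kernel)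
def a3415 : PP 8 4 T 0x1002200000000000004000004000000405040150400050005550000404001106000000 := rS 0x5c3ca6538c71bc65926b (k8 a464 a343 a3410 a3412 a1190 a3414 i1943 i1858 (k2 a3371 a2497 k0)) (by decide +kernel)
def a3416 : PP 8 4 T 0x1000000000000002000000000000008000404040000000000100200400000440000000000000000000 := rS 0x5d41c4d9878 (k4 i1067 i1068 a398 i895 (k2 i1970 a174 k0)) (by decide +kernel)
def a3417 : PP 8 4 T 0x2200000000000000000000002010021440000000050005450080000001002000002 := rS 0x32a85cb5881d41aa5a2abd7ee44c2f13f17671dc66c149c55362d0d8ecde7f5ba04fa890fc30a2fd2cb2d5a6b1ab246221 (k8 a909 i1042 a343 i1114 a464 a445 a385 a2 (k8 a431 i2248 a467 a81 i230 a936 a3072 a577 (k8 a1044 i1056 a339 i779 a1828 a457 a400 i83 (k8 i1517 i1672 i1675 a3415 a368 i133 i1105 i1104 (k8 a429 i1725 i1986 a433 a3145 a392 a3416 a466 (k4 a444 a2982 a1301 i1078 (k1 i457 k0))))))) (by decide +kernel)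
def a3418 : PP 8 4 T 0x800000000000002201000000000000000000000000000000000000000005540000000000000000000 := rS 0xab5a96596ad (k4 a445 a385 a2 a84 (k2 a106 a1301 k0)) (by decide +kernel)
def a3419 : PP 8 4 T 0x2201000000000000000000000000008400000000040005540000000000000000000 := rS 0xab5a96596ad (k4 a445 a385 a2 i1369 (k2 i1635 a1301 k0)) (by decide +kernel)
def a3420 : PP 8 4 T 0x2200000000000000000000002010001440000000050005450080000001002000002 := rS 0x1933cef1649d0d2ab910b262a9b0d8ecfeb7409f5fa51 (k8 i2248 a431 a936 a3072 a577 a1044 a339 i779 (k8 a457 a400 a343 a909 i1139 a3417 a3418 a3419 (k4 a447 a332 a368 a3415 (k1 a360 k0)))) (by decide +kernel)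
def a3421 : PP 8 4 T 0x8002000000002000000000000020040014010000000000000000000000100000000002 := rS 0x38b98235 (k4 a348 a408 a2487 i1225 (k1 i1078 k0)) (by decide +kernel)
def a3422 : PP 8 4 T 0x2000000000000000000004040000000000100000000000540082000040000000000 := rS 0x1705283 (k4 i1256 i1839 a108 i444 k0) (by decide +kernel)
def a3423 : PP 8 4 T 0x2000000000000000000010002140014000000100000000000000014400042000000 := rS 0x694545a89 (k4 i230 a1828 a400 a120 (k1 a1892 k0)) (by decide +kernel)
def a3424 : PP 8 4 T 0x2000000000000000000004000000000000100000000000540082000040000000000 := rS 0xaf (k2 a1827 a3422 k0) (by decide +kernel)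
def a3425 : PP 8 4 T 0x800210000000000000000000000a000014050000000850000000000000000000004002 := rS 0x6e3f6131c18471cb9547184b8bd4e995701d83157ea6cc62d1ab3d3ac9 (k8 a405 a399 a368 a348 a1828 i97 a457 a431 (k8 a400 a1815 i2271 i585 a3356 a1825 i1078 i1899 (k8 a2598 a3358 a2487 a42 i1655 a425 a342 i468 (k2 a3362 i1956 (k1 a2713 k0))))) (by decide +kernel)
def a3426 : PP 8 4 T 0x8002100000000000000000000002000014000000000000005448080000040000000000 := rS 0x1c1ed2f13412bcba113cbc042c3639198037030b9caa55628d56c5a79a86275882d4b2b964a759e331aa6c5a9133a2cca0f0d93476003f9f5121f860607a815bbf4a2cb (k8 i624 i2248 a431 a577 a3072 a3424 i438 a467 (k8 a81 i230 a936 a1044 i437 a339 i73 i779 (k8 i2404 i1050 i2247 i2246 a102 a1828 a457 a348 (k8 a360 a368 a399 a405 a465 i605 a1076 a362 (k8 a453 i1041 a3266 a394 i1790 a3425 a3275 i2037 (k8 i1286 a3421 a3423 i1078 i1083 i1225 i1226 i1694 (k8 a354 i1529 a379 a1428 a441 i443 i459 a108 (k4 a68 i1376 i816 a2222 (k1 i321 k0))))))))) (by decide +kernel)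
def a3427 : PP 8 4 T 0x1002000000000000000000004000000401050100000000000540000200000004000000 := rS 0x2ea64f319 (k4 a42 i1852 i1937 a2497 (k1 a3371 k0)) (by decide +kernel)
def a3428 : PP 8 4 T 0x2000000000000000080005000040000000100000000020540000000040000000080 := rS 0x57a0cbaa742d3d0f11 (k8 a373 a358 a59 i1602 i336 i610 a197 i460 (k1 a108 k0)) (by decide +kernel)
def a3429 : PP 8 4 T 0x1002000000000000000000004000002405040100400000000540000000000000000000 := rS 0x2e9e53319 (k4 a347 i1943 i1858 a2497 (k1 a3371 k0)) (by decide +kernel)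
def a3430 : PP 8 4 T 0x5002101000000000000600001000000404040000000000005548000554040000004080 := rS 0x41e0ae1489e26832eb30f085a7b393ac73a1de22872c2b582c561b901a4d48a3d6e814f8c546ab (k8 i2270 a3275 i983 a428 a3072 a577 i1133 a102 (k8 i73 i464 a429 a276 a277 a408 i1225 a1301 (k8 a358 a373 i805 i606 a3428 a3429 i2035 a3 (k8 i1871 i1067 i1068 i610 a197 a398 i1767 i1968 (k4 a108 a127 i459 a441 k0))))) (by decide +kernel)
def a3431 : PP 8 4 T 0x5002101000000000000600000000000414040000000000005548001100841000004006 := rS 0x5696418751a2d684ab1b82466b9030ecfe7d (k8 a936 a1044 a339 i1078 i2779 i319 i198 i1083 (k8 i2270 a447 a84 a3430 i1062 i1115 i606 i1494 (k1 i2037 k0))) (by decide +kernel)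
def a3432 : PP 8 4 T 0x2000000000000001000020008000210001040000000115000000000000000000000 := rS 0x439ad74bd (k4 i1991 i1144 i586 i1683 (k1 a460 k0)) (by decide +kernel)
def a3433 : PP 8 4 T 0x1002000000000000001000024008400411051140054000115540001540540040000000 := rS 0x13c4cf029788f92e7b8c2643ad2 (k8 a120 a341 a3432 a3371 a390 a71 i2034 a6 (k4 i256 a2473 a398 i1767 (k1 a127 k0))) (by decide +kernel)
def a3434 : PP 8 4 T 0x5002000000001000001040024008400415051140054000015540080540540040000000 := rS 0x61d3d7acea2a612f181fb15e228081707b43 (k8 a106 a3424 a3433 i443 i444 a441 i1841 i256 (k8 a419 a71 i2034 a433 a701 i1991 a3 a2427 (k1 a379 k0))) (by decide +kernel)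
def a3435 : PP 8 4 T 0x2000000000000000000000002000014000000000000000008000020001000400000 := rS 0x439758678130a46c715c2a90acd569656ac7061d446e539924c63b379fc62a70387582d217b222ecb1c86c7a815bc15428f3299d224d2b83c068b000acaa9b4487e185328bf49e2d0c1088315 (k8 a400 a3367 a3000 i438 a1828 a3368 a431 i2248 (k8 a3411 a467 a81 i230 a457 a3301 a818 i437 (k8 i2247 i1046 i2404 a3373 i73 a102 i2246 i1050 (k8 i1133 a3282 a3420 a577 a3072 a3424 i779 a3427 (k8 i624 a3426 a352 a3431 a120 a44 a341 i456 (k8 a1825 i983 a1044 i1056 a339 i97 a1061 a2961 (k8 a364 i247 i1062 i1115 i412 a1788 i606 i1493 (k8 a2010 a1949 a1301 i584 i1407 a3434 i1838 i1044 (k4 i1043 i1957 i444 i738 (k1 a3397 k0)))))))))) (by decide +kernel)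
def a3436 : PP 8 4 T 0x4202000000000000000000000002010000000040000000000000000011400042000000 := rS 0x42a5720cc46c1690b51315 (k8 a400 i230 a1828 a120 a44 a9 i232 a429 (k2 a382 a46 (k1 a2982 k0))) (by decide +kernel)
def a3437 : PP 8 4 T 0x2000000000000000000000002000014000000000000000008000000001000400000 := rS 0x1494219ae4eeab2c4446aa360b485e316445c060f3fc15428f2b99400672a8f456394487e181840addfa53278b4364d45a44a24220a6e2acb (k8 i624 a400 a457 a3367 a3000 i2248 a102 i2247 (k8 i73 i779 a1828 a3368 a3411 a431 a577 a3072 (k8 i438 a467 a81 i230 a3427 a818 a3424 a3301 (k8 i2246 i437 i1050 a3373 i1133 a3282 a3420 a1044 (k8 i2404 i1046 a3426 a352 i983 a3431 a120 a44 (k8 a99 a3435 a3436 a362 i2392 i805 i1140 i233 (k2 a447 i2033 (k1 a129 k0)))))))) (by decide +kernel)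
def a3438 : PP 8 4 T 0x4202000000000000000000000022010000000040000000000000000001400042000002 := rS 0x318234694545a89 (k8 i230 a1828 a400 a120 a3436 a44 i1115 i1493 k0) (by decide +kernel)
def a3439 : PP 8 4 T 0x2000000000000000000000002000010000000000000000008000000001000400000 := rS 0x1ab948cc0030b8662356440b275558c56b174932c067f3ea243f0c28bf60aa129a3cae4f16c54ca8b0c000ce91269088255 (k8 a3301 a3367 a3000 i73 a102 i2246 i437 i438 (k8 i2247 i1050 a400 a1828 a3368 a3373 i1133 a3411 (k8 a3282 a3420 a431 i2248 a467 a81 i230 a936 (k8 a1044 i1046 i624 a3437 a19 i1369 i1510 i1635 (k8 i1589 i606 a362 i2037 a9 i232 a3438 i1078 (k4 i1225 i1226 a408 i206 (k1 a1020 k0))))))) (by decide +kernel)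
def a3440 : PP 8 4 T 0x1002101000000000000400000000001421040000000054000540080540000000000080 := rS 0x44b8f08ca64d6cf553256e81 (k8 a3072 a577 i1101 a3264 a2062 i2271 a3356 a2579 (k4 a419 a3371 a441 i443 k0)) (by decide +kernel)
def a3441 : PP 8 4 T 0x2000000000000040014000000005020000000000000200000084555000400000000 := rS 0x53a6178ce63bc45010 (k8 i443 i444 a441 i258 i2035 i1105 i1104 i1984 (k1 a599 k0)) (by decide +kernel)
def a3442 : PP 8 4 T 0x2000000000000000014400000805020000000000000000000000555000000000000 := rS 0x33d8ebd (k4 i1984 i337 i1105 i2035 k0) (by decide +kernel)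
def a3443 : PP 8 4 T 0x2100000000000000000001002001021040000000050000440081105800400004002 := rS 0x1e0c6a2b3d7a8257a9cbac561a7c1ac85fb294a371f819a7154d98c76b740945fa35 (k8 i2759 a431 i2248 a3072 a577 a339 i97 a457 (k8 a400 a359 i1078 i404 i1083 i365 a3440 a396 (k8 i623 i466 a428 a276 a277 a3441 a3442 i460 (k4 a108 i1415 i1105 a48 (k2 i2035 a442 (k1 a27 k0)))))) (by decide +kernel)
def a3444 : PP 8 4 T 0x1002000002000000000000004000400501050100000000000540081540500000000000 := rS 0x1192ea58223f (k4 a6 a441 i2034 i443 (k2 a71 a3371 k0)) (by decide +kernel)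
def a3445 : PP 8 4 T 0x210000000000000010000000a000101050000000050000440081140400000004002 := rS 0x3941aa4632f07c6a4bc61e29b1dadd02515381dfa4751b485b15 (k8 a400 a1828 a120 a99 i1655 a431 i456 a1825 (k8 i2248 a3072 a577 a339 a457 a3444 a419 a71 (k8 a2579 i2034 i586 a3362 i1411 a342 a382 a425 k0))) (by decide +kernel)
def a3446 : PP 8 4 T 0x2100000000000000000000002010021040000000050015440081100000002004002 := rS 0x2152b901a6a61a7c6c474caa996c967a8e2cd217b04627511c416a63168d466890fc313a773fa4d02b77e9453715 (k8 a400 a457 i2248 a431 a577 a3072 i83 a1044 (k8 i1675 a3429 a467 a81 i230 i1672 i2759 a1828 (k8 i97 a1692 a362 a9 a453 i1041 i1517 a3443 (k8 a120 a3436 a99 a368 a405 i623 a3264 a3356 (k8 i1655 a3445 i996 i1957 a1947 i468 a425 a382 (k2 a46 a2982 k0)))))) (by decide +kernel)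
def a3447 : PP 8 4 T 0x2000000000000000000000002000000000000000000000008000000001000400000 := rS 0x32d56584a0e47b054487e18815ba84a68f2bbf5362b28a44ce000c22cca550786c9a42279045b15 (k8 a400 a1828 a3367 a3368 a3000 i73 i779 i2404 (k8 a3301 i1050 i2247 i438 i437 i2246 a102 i2248 (k8 a818 a457 a431 a3373 i1133 a3411 a3282 a577 (k8 a3072 a467 a81 i230 a3420 a3424 a3427 a3439 (k4 a3446 i2392 a542 a3264 k0))))) (by decide +kernel)
def a3448 : PP 8 4 T 0x2000000000000000000000002000000000000000000000008000000000000400000 := rS 0xc2c0908441 (k4 a3367 a3000 a3447 i858 (k2 i859 i2274 k0)) (by decide +kernel)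
def a3449 : PP 8 4 T 0x2000000000000000000000002000000000000000000000000000000002000400000 := rS 0x13e8b3c0a1a41f0d194326735ab5928f6183cae0c2c4148e2111bf4c6052e9c21a1d292840e4c259248441 (k8 a3367 a3000 a1061 a3448 a440 i2268 i820 i574 (k8 a1820 a375 i575 a543 a1832 i97 a431 i111 (k8 i110 i204 a570 i858 i859 i442 i596 a487 (k8 a180 i2275 a320 i468 i544 a559 i1089 a437 (k4 a903 a377 a3261 i275 (k2 i1853 a3237 (k1 a1947 k0))))))) (by decide +kernel)
def a3450 : PP 8 4 T 0x2000000000000000000000002000000000000000000020000000000000001400000 := rS 0xbda2aee9e3e662050b1914adcd6474c89d7ead5550d687d11a4c669d67c599265608f58aa51883cced210800768f0f86a2a9b31814565d3813cc30d418754efd82c45860d12a8cfecb292840e4c259248441 (k8 a3367 a3000 a1061 a3448 a440 i2268 i820 i574 (k8 i2416 i845 a1805 a3449 i462 a487 a373 a2 (k8 a431 a1825 a1820 a334 a375 i96 i790 i575 (k8 a543 a818 a1832 i97 a457 a400 a437 a903 (k8 i2596 i394 i780 i2538 a377 i544 i2405 a1332 (k8 a1609 a3128 a335 a44 i962 a3238 a352 a2062 (k8 a544 a2770 a19 i272 i1360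 i2030 a84 i883 (k8 i1287 i1455 a3262 a3356 i1655 a3265 i802 a3114 (k8 a2579 a772 a535 a3253 i2031 a36 i1948 a80 (k2 i1411 a404 k0)))))))))) (by decide +kernel)
def a3451 : PP 8 4 T 0x2000000000000000000000002010000000000060000000800080000000000000001 := rS 0x690b83e02448161a1d (k8 a1820 a375 a1832 a1015 a349 i1356 i1084 a377 (k1 a430 k0)) (by decide +kernel)
def a3452 : PP 8 4 T 0x2100000000000080500001000010000400010020010011000000000001458005012 := rS 0x3948ea43f9dc431601b054667 (k8 i449 a99 a44 i23 a352 a3258 a332 i799 (k4 i2030 a3302 a382 a425 k0)) (by decide +kernel)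
def a3453 : PP 8 4 T 0x2000000000000080400000002010000400000000020011000000000000048000002 := rS 0x84fe463bab00a03 (k8 i23 a1832 i1089 i1547 i963 i1555 i783 a3302 k0) (by decide +kernel)
def a3454 : PP 8 4 T 0x2000000000000000000000002000000000000000000000000000000000000400000 := rS 0xd69f45844f0283383042653e88d93105ab48b21f82a3c1e190d15c002550a9c3a83869c00e5265974de4c259cca24215904aa490298dfb15 (k8 a400 a431 i97 a1832 a1061 a3301 a3367 a818 (k8 a3000 i2248 a2961 a3448 a440 i1055 a543 i2416 (k8 i574 i2268 i575 a375 a334 a1820 a1825 i820 (k8 a3449 a3451 i2258 i446 i1037 i2405 i2596 a3249 (k8 i271 a3450 a377 i882 a362 i613 a9 a73 (k8 a3453 a3258 a3452 a3250 a3252 i275 i1835 i1853 (k2 a3237 i467 (k1 a1947 k0)))))))) (by decide +kernel)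
def a3455 : PP 8 4 T 0x2100000000000000500001014000000000000060014015540000000000000000000 := rS 0x33c5d28763f1f4df15 (k8 a117 i57 a1978 i2037 a3171 i800 a332 i1674 (k1 a352 k0)) (by decide +kernel)
def a3456 : PP 8 4 T 0x2002000000000080000000000000000000000000000100000000000020008000000 := rS 0x447e071ea9c12af (k8 a427 a369 a67 a335 a402 i2157 i1835 a1811 k0) (by decide +kernel)
def a3457 : PP 8 4 T 0x12200001000000080000000000010000000000020000000420080000011048000000 := rS 0x8888dca212a93ca257000f54ea34da0c561d (k8 a341 a416 a1898 i1447 a99 a67 a335 i780 (k8 i2258 a491 i2533 i2534 a3230 a1812 a3244 a3246 (k1 a107 k0))) (by decide +kernel)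
def a3458 : PP 8 4 T 0x12102000000000000000008000000400040000020000115544000000000000000000 := rS 0x1fd96775dc5a9e9f3533d7a7d3aa159ab557ab557454c21e327a (k8 i801 a390 i2560 i802 a116 a97 a420 a427 (k8 a1692 a2010 a1949 a1851 a1978 i1988 i1980 a460 (k8 a2728 a394 a534 i1946 a332 a1579 i799 i2037 k0))) (by decide +kernel)
def a3459 : PP 8 4 T 0x2100000000000000000000000000000000000000040000004000000000808000010 := rS 0x3246474 (k4 i273 i272 i1063 a2770 k0) (by decide +kernel)
def a3460 : PP 8 4 T 0x2100000000000000000000000000000000020020050000020000000000000000000 := rS 0x11764a48ee6f (k4 i57 i1630 i1360 i614 (k2 a19 a352 k0)) (by decide +kernel)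
def a3461 : PP 8 4 T 0x12000000000000080000000000010000000000020000000000080000001041400000 := rS 0x35b2574775a1f4469f32a946221339fe225882814aa4f2bb0546af4da2c6d193d0e530b6409e4a651418a4ba4c259243aa71d8ade2fc8a9845aa93181c001a (k8 a437 i780 a402 i447 a3454 a329 i960 a117 (k8 a438 a3219 a416 i394 a67 a341 i699 i438 (k8 a440 a543 a3456 a1898 a491 i798 a3116 i1363 (k8 a672 i802 i1936 i801 a390 a419 i1939 i1447 (k8 a427 a99 a44 i2258 i2533 i2534 i518 a3457 (k8 a3458 a373 i844 i2262 i2538 a1332 a1609 i962 (k8 i996 a3459 a3460 i2030 i2563 i887 i614 i1946 (k1 a1947 k0)))))))) (by decide +kernel)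
def a3462 : PP 8 4 T 0x12000000000000080000000000010000000000020000000000080000000041400000 := rS 0x6499cca9f35830b0476241448261b0e517194c1e96c813ca0c52f17e14e2a6f549045e731d8aca25d0793096490ea9cc22d3181c001a (k8 a437 i780 a402 i447 a329 i960 a67 a341 (k8 i699 i438 a440 i2405 a543 a491 a416 i394 (k8 i2579 a895 i21 a3454 i57 a117 i798 a438 (k8 a3219 a3456 a1898 a3116 i1363 a672 i801 i802 (k8 a390 i1939 i1936 a419 i1775 a3461 a3168 i865 (k8 i204 i858 i859 i1790 i1526 i963 i2262 i2275 (k1 a1947 k0))))))) (by decide +kernel)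
def a3463 : PP 8 4 T 0x12102000000000000000000001000000000000050001000020080000002000000042 := rS 0xdf154a24e2cb965b24ce65061fcb0472098d5aab (k8 a97 a420 i447 i21 i204 i858 i2581 i859 (k8 i963 i2262 i2275 i465 a1575 a352 a19 i2040 (k2 a14 i1058 (k1 a389 k0)))) (by decide +kernel)
def a3464 : PP 8 4 T 0xa002000000002000080000000000000000000000000000000000000000000000000000 := rS 0x448b582a3 (k4 a99 a44 a329 a337 (k1 a2519 k0)) (by decide +kernel)
def a3465 : PP 8 4 T 0x12100000002000080100000000100000000040050051000000000011400040000010 := rS 0x255126e8aa4e2cb9198b582a3 (k8 a99 a44 a329 a2770 a1575 a352 a19 a3464 (k4 a389 i1317 i1058 i2033 k0)) (by decide +kernel)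
def a3466 : PP 8 4 T 0x10002002001000000080000000000000800050000000000000000000400000000000000 := rS 0x1f0e06e2d (k4 a329 i994 a828 a2796 (k1 i296 k0)) (by decide +kernel)
def a3467 : PP 8 4 T 0x2002001000000080000000001000100050000000005000000000400000000000000 := rS 0x1b258729b038255f19 (k8 a2965 a427 a369 a402 a3466 a2389 a336 a419 (k1 i1778 k0)) (by decide +kernel)
def a3468 : PP 8 4 T 0x12100001000000080000000000010000000000000000020400080000010041400000 := rS 0x13b1d9a384e2293289371f10ab53b321c86511b154a311099cfec388a1c0a8f178ec3ac15198cf22b1a895f851279c4c22d03800e64c25925521a (k8 a437 a3454 i699 i438 a440 i2579 i780 a402 (k8 a329 i960 a3462 i2533 a491 a467 a3463 i356 (k8 a416 a3116 i447 a99 a44 a341 i394 a895 (k8 i2596 i518 a358 a373 a487 i844 i2262 i2538 (k8 a1332 a1609 a3128 a3459 i962 a107 a3465 i614 (k8 i807 i1632 i2030 i1630 i1317 i1059 a3467 i618 (k4 i452 i1910 i1641 i1876 (k1 i2032 k0)))))))) (by decide +kernel)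
def a3469 : PP 8 4 T 0x802002000000000001000001000000000001010000000115500000000000000000000 := rS 0x5dd3d7b455fd0cd4b63f21d02af (k8 a427 a45 a69 a2940 a2265 a460 a133 i1723 (k4 a116 i1988 a394 i1946 (k1 a404 k0))) (by decide +kernel)
def a3470 : PP 8 4 T 0x12100001000000080000000000010000000000000000000400080000010041400000 := rS 0x4ca5d368b3d0d87226899f50acd5a9655aaf7e2a4aa4f1d8aca25d2b93096491e9845a63038003471 (k8 a3462 a437 i780 a402 i447 a329 i960 a335 (k8 i699 i438 a440 i2258 a543 a491 a416 i394 (k8 i2533 i2534 a3454 a467 a427 a420 a3468 a1692 (k8 a2010 a1949 a1978 a3469 a127 i1876 i786 i785 (k4 i452 a828 i1777 i1941 (k1 a336 k0)))))) (by decide +kernel)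
def a3471 : PP 8 4 T 0x202101000000000080500000015010000000000000045001000000000001048000000 := rS 0x80ee7f5299284c14aa4e28b9 (k8 a1575 a438 a115 a14 a44 a439 i2040 a129 (k4 a133 i1547 a2218 i783 k0)) (by decide +kernel)
def a3472 : PP 8 4 T 0x2002100000000000080100000008000000000000000041000000000000000000005000 := rS 0xe48b11ccaa3 (k4 a99 i1660 i1655 a352 (k2 a425 a3464 k0)) (by decide +kernel)
def a3473 : PP 8 4 T 0x2101000000000080500000001010000000000000005115004000000009048004000 := rS 0x11dca20529fd58ab0699cd4c33d21d831466a162075 (k8 a1851 a362 a1949 a2010 a438 a44 i2542 i785 (k8 i1954 a460 a1179 i468 a3472 a3471 i1555 i1286 (k4 a2218 a46 i1529 a425 k0))) (by decide +kernel)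
def a3474 : PP 8 4 T 0x202100000000000080000000020010000000000000000001000000000001040004000 := rS 0x11dca2006a94fec1 (k8 a44 i1555 i1286 i1493 a2218 a46 i1529 a425 k0) (by decide +kernel)
def a3475 : PP 8 4 T 0x2100001000000080000000001010000000000000000010824080000010048000000 := rS 0x31c7c0c5e2dd54ad339a90e818909e208566b2596252a974ae0f1ea9d062b0ec51fa611698c0e00 (k8 i780 a402 i447 a329 i960 a452 a438 a341 (k8 a416 a1898 a67 a335 i2405 i2258 a543 i2534 (k8 i858 i621 i613 a2010 a1949 a362 a3473 a127 (k8 a45 a69 a460 i2264 a3474 a3471 a1497 i586 (k4 a3472 i2031 a342 i1412 k0))))) (by decide +kernel)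
def a3476 : PP 8 4 T 0x2001000000000000a80000001000000000000000005000000000400000000000150 := rS 0x22d5e9d (k4 i1641 a3104 i618 a2479 k0) (by decide +kernel)
def a3477 : PP 8 4 T 0x4002001000000000081854000000004000005000000000000000080000011508400100 := rS 0x6b5733e328b3d0e44ca9028ec56611698c0e00 (k8 i780 a402 i447 a329 i960 a416 i394 i518 (k8 a3454 i2032 i1876 i785 i452 a390 i1980 a2479 (k2 a534 i625 k0))) (by decide +kernel)
def a3478 : PP 8 4 T 0x2100000000000080000000000010000000001000000020800080000011041400000 := rS 0x1368b5e2769ecc638257eca3f1f50ab53b2ad3ec88b995c8c5528c46a8f278bc762b28930921d60a8d2e894ca5527147e9845aa93181d0f11618844667000689605 (k8 i518 i438 a437 i780 i2262 a3459 i2538 a487 (k8 a373 a358 a402 i447 a3454 a329 i960 a452 (k8 a438 a115 a14 a837 a754 a989 a99 a44 (k8 a341 i699 a440 a491 a416 i394 a895 i2533 (k8 i2596 i356 a1332 a1609 a3128 a107 i962 a2487 (k8 a352 a428 i2393 i614 i883 i1632 i1629 i2030 (k8 i845 i1723 a557 a3476 a3477 a36 i1910 i849 (k2 i618 a1490 (k1 a206 k0)))))))))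 (by decide +kernel)
def a3479 : PP 8 4 T 0x2100000000000000120000000000000000000000450000000000400000000000002 := rS 0x450e53e9d (k4 a544 i1526 i1879 a1947 (k1 i452 k0)) (by decide +kernel)
def a3480 : PP 8 4 T 0x12100001000000080000000000010000000000000000000000080000010041400000 := rS 0x7da1ad902aa568fc708a66a7e254e13b15726b64b2ccac7061fc8ee51219d87112c24d2a898a3f4a47941aa482051d8acae0f2612c921d1ea9cc22d3181c001a (k8 a437 i780 a402 i447 a329 i960 a67 a335 (k8 a341 i699 i438 a440 i2405 i2258 a416 i394 (k8 i518 i21 a3454 a1898 a3116 a3470 a452 a438 (k8 a754 a14 a115 a3475 a373 a487 i2262 a3478 (k8 a409 i204 i2581 i859 i410 i963 i622 i2275 (k8 i468 a1575 a3479 i865 a379 a127 a26 a36 (k8 a1947 i452 i296 a320 i2040 a45 i2031 a106 (k2 i1595 a537 k0)))))))) (by decide +kernel)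
def a3481 : PP 8 4 T 0x112000000001000084114010001011015040000040040004800080000014540004002 := rS 0x2056e85a79f686bf4f2a8d6ad65994187f2389056410e8f54e611698c0e83 (k8 a334 a402 i447 a329 i960 a67 a335 a341 (k8 i21 a416 a107 i204 i2581 i859 i963 i622 (k8 a320 i468 i2040 a388 a367 a106 i1595 a26 (k4 i1606 a550 a535 a783 k0)))) (by decide +kernel)
def a3482 : PP 8 4 T 0x112100000000000080114000001010015050000040040004800080000414540004012 := rS 0x18a95c8b919a759e3560a8cc22d (k8 a329 i960 a99 a44 a547 a2062 a544 a2770 (k4 a1575 a3481 a382 a459 (k1 i2033 k0))) (by decide +kernel)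
def a3483 : PP 8 4 T 0x2000000000000080000000000000140010402000000000000004440410000000000 := rS 0x394d8b47aa7 (k4 a67 a335 a329 i1074 (k2 i1851 i2034 k0)) (by decide +kernel)
def a3484 : PP 8 4 T 0x12100000000000080000000000010000000000000000020000080000010041400000 := rS 0xc80608c482133b0e22913995c1ec513a2c229549c50c22d3ca0ca4512612c924f4ca240a977e98c0e00548dc7ef01d8ac5e1a (k8 a437 a895 a416 i394 a3480 a6 a376 a3454 (k8 i780 a402 i447 a3219 a989 i518 a754 a837 (k8 i2533 i699 i438 a440 a491 a467 a334 a3483 (k8 a329 i960 a438 a115 a14 a441 i451 a76 (k8 a49 i2405 i2258 i2579 i2614 a373 a487 i2262 (k4 i2538 a3478 a3459 i859 (k2 a3482 i2275 k0))))))) (by decide +kernel)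
def a3485 : PP 8 4 T 0x2101000000000080500000001010001000401000045115000004000055048014000 := rS 0xf7138ca00d6b706195541d1ea9e289766a155b10 (k8 a362 a3474 a1949 a2010 a989 a438 a67 a335 (k8 a341 a3471 i1660 a3472 a1497 i467 i2031 a2579 (k2 a45 i1893 (k1 a406 k0)))) (by decide +kernel)
def a3486 : PP 8 4 T 0x12100000000000080000000000010000000000000000000000080000010041400000 := rS 0xe5371889a18f66b331d50acd64b2c4a593ca0d32894b94916fd0889c6e3f782a40a5527a445e3b15944ba570793096491ea9cc22d3181c001a (k8 a437 i780 a402 i447 a329 i960 a67 a335 (k8 i699 i438 a440 i2405 i2258 a543 a491 a416 (k8 i394 a895 i2614 i2533 i2534 i518 a3454 a3480 (k8 a6 a376 a76 a441 a3219 i451 a467 a989 (k8 a754 a837 a334 a3483 a3484 i858 i621 i613 (k8 a2010 a1949 a1851 a3485 i547 a1179 a460 a69 (k4 a406 a41 a42 i2034 k0))))))) (by decide +kernel)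
def a3487 : PP 8 4 T 0x12000000000000080000000001000000000000010005100140000000020008000000 := rS 0x2068aae4da0ca4994ba2dfab71c1e226a7 (k8 a67 a54 i275 i274 i1928 a3456 i1853 i1856 (k8 i1936 a467 a334 i1074 a336 a381 i1861 a462 k0)) (by decide +kernel)
def a3488 : PP 8 4 T 0x12000000000000000000000000400140010402000000000000001000550001400000 := rS 0x3f1ba6d6e3913c4c761a (k8 a437 i394 a398 i1768 i1851 i1932 i1074 a1577 (k2 a1022 i2034 k0)) (by decide +kernel)
def a3489 : PP 8 4 T 0x402000000000000000000000000400540010000000000000000001500554000400000 := rS 0xfc6ef0 (k4 a127 a1577 a6 i2034 k0) (by decide +kernel)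
def a3490 : PP 8 4 T 0x402201000000000000001000000450400450001000005105020001100551058400000 := rS 0x233e9d59c7fa7b322e9d42a7d8aa518c66227a1b21de2265eab876c92cab4d6215aa5d32a9 (k8 a3454 a837 a989 a822 a3230 a464 a445 a2 (k8 a343 i394 a336 i1986 a3489 a76 i2542 i786 (k8 i785 a3246 a390 a1332 a1609 a3128 i996 i1771 (k8 i1779 a192 a460 a36 i849 a463 i1067 a3112 (k2 i273 i2030 k0))))) (by decide +kernel)
def a3491 : PP 8 4 T 0x402201000000000000001000000450000000001000004000000081100110051400000 := rS 0x18d3ccecf432762e7566a16202372b1cf4f01bc65348b47955222f1d8acba572612c92612c9ac4225208d592000d2255205 (k8 i518 a3454 a754 a437 i780 a343 i1114 i21 (k8 a570 a3230 a464 a2 i960 i699 i438 a440 (k8 i2258 a543 a416 i394 a895 i2614 i2534 i2596 (k8 i452 a3490 a41 i994 a828 a406 a27 a3227 (k8 a3240 a107 a361 a380 a453 a3208 a3378 a460 (k4 i1980 a1179 a20 a3130 (k1 a3131 k0))))))) (by decide +kernel)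
def a3492 : PP 8 4 T 0x402201000000000000001000000450000000001000004000000081000110051400000 := rS 0xc69e6767a193b173ab350b104588dca1163bc0f4278c8dc702b2aa44ba572612c9259358844a411ab24001a (k8 a437 i780 a343 i1114 i21 a570 a3230 a464 (k8 a2 i699 i438 a440 i2258 a543 i2614 i2534 (k8 a416 a3491 i18 a42 i1876 a406 a127 a1581 (k8 a441 a3227 a3240 i451 a107 a361 a380 a453 (k8 a3208 a3378 a460 i1980 a1179 a20 a3130 a3131 k0))))) (by decide +kernel)
def a3493 : PP 8 4 T 0x102200002000000000000000000000000000000000000000000080000000008000000 := rS 0x23728844a41 (k4 i21 a570 a3230 a3227 (k2 a3240 a107 k0)) (by decide +kernel)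
def a3494 : PP 8 4 T 0x102001000000000082000001001100014400000000014000000000211401500000010 := rS 0x19ae4e87767c5d86e416b054689 (k8 a754 a99 a44 a329 a107 a468 a2487 i1976 (k4 i810 a466 i1066 i1585 (k1 a2396 k0))) (by decide +kernel)
def a3495 : PP 8 4 T 0x2201000000000082000000001000000000000000000000800080000000808000000 := rS 0x7c552e4ce0d3a15d2a938a1845a630380192cb32ab56a4c (k8 i779 a822 a445 a63 a385 a343 i780 a402 (k8 i447 a329 i960 a438 a115 a14 i2258 i273 (k4 i1569 i1587 i1066 i2040 (k2 a3126 i1595 k0)))) (by decide +kernel)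
def a3496 : PP 8 4 T 0x12001000000000080000000000000000000000000000000000080000010008400000 := rS 0x551f1727f5ed155c674da2c1a397208de2bba7a9462cc88a146b125a894426b569959659649e5269541c1132894bc50a41f549040a19479549e2f1d8aca257260747ac153a8546611698c0e00 (k8 i780 a402 i447 a329 i960 a99 a344 a67 (k8 a44 a335 a341 i779 i2258 a491 a416 i394 (k8 a895 i2533 i2534 i2596 i67 i518 i21 a3454 (k8 a903 a467 a438 a989 a754 a837 a3486 a334 (k8 a14 a115 a3488 a343 a2 a385 a63 a445 (k8 a464 a3230 a570 a822 a3492 i1114 a77 a205 (k8 a143 a1332 a1609 a36 i1949 a3493 a3495 a107 (k8 a3494 a392 i452 a828 i449 a336 a381 i1986 (k4 i849 a2423 i2030 i2040 (k1 i1595 k0)))))))))) (by decide +kernel)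
def a3497 : PP 8 4 T 0x2202000000000080000000000000000000000000000000000080000010008000000 := rS 0x23728314b11128848ecb15904aa5707800980760a8c12f1 (k8 a3219 a369 a99 a44 a402 i779 i780 i2405 (k8 i2258 i2534 i21 a416 a385 a451 a3230 a570 (k4 a3246 a1609 a2108 a392 (k2 i1569 a107 k0)))) (by decide +kernel)
def a3498 : PP 8 4 T 0x2102000000000006400000000000810400000000054000020000000000000000000 := rS 0x64a4cee9d (k4 i1910 i810 i1450 i614 (k1 a2909 k0)) (by decide +kernel)
def a3499 : PP 8 4 T 0x10002100000000000000080000000000000000000000040000000000640000000000010 := rS 0x324649e (k4 i299 a1190 a428 a2770 k0) (by decide +kernel)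
def a3500 : PP 8 4 T 0x10902102000000000000000008000000800400000000004001024000440001088400012 := rS 0xca5dd3d98c732ad462234ab3c1a21339fd86582b83ca66e4389c7088 (k8 i270 i1444 i1876 a69 i271 a421 i2405 i2258 (k8 a362 a487 i844 i2262 i2538 i462 i1976 i1058 (k8 a3459 a1332 i1396 i962 a3499 a2915 a36 i1949 (k2 a3498 a3009 k0)))) (by decide +kernel)
def a3501 : PP 8 4 T 0x802102000000000080000000000000100400000040000101124000400001088400012 := rS 0x16a7d2cb3620374d25e8ab642a055257308b4a71544464c607 (k8 a402 i447 a2965 i270 a337 a421 a329 i960 (k8 i2258 a3454 a45 a77 a2265 a116 i1902 a162 (k4 i994 a3500 a380 a426 (k2 a73 a444 (k1 a3469 k0))))) (by decide +kernel)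
def a3502 : PP 8 4 T 0x12000000000000080000000000000000000000000000000000080000010008400000 := rS 0x4ba6d16361c89a2699129b8e21e829e5e2af7e2a40a8f2a9cc762b25864a25d260f542611698c0e00 (k8 i780 a402 i447 a329 i960 a344 a335 i779 (k8 a543 a491 i67 i438 a416 i394 i2579 i2534 (k8 i2596 i518 a3454 a3496 a427 a3219 a3116 a3497 (k8 a3486 i1357 i271 a3463 i1059 a3501 a127 i1876 (k4 i786 i452 a828 i1777 (k1 a336 k0)))))) (by decide +kernel)
def a3503 : PP 8 4 T 0x22002000000000080000000000000000000000000000100000000000050000000000 := rS 0x209e21d (k4 a341 a3219 a1590 a1898 k0) (by decide +kernel)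
def a3504 : PP 8 4 T 0x2002100000000000080000000000000000010050000000020024000000001048400012 := rS 0x190778bad0cae4528c4462133c445a1d60a854671 (k8 a117 a99 a344 a44 a341 a329 a373 i2262 (k8 i2538 a3459 a1332 a1609 a107 i962 i2030 a2519 (k2 i807 a352 (k1 i614 k0)))) (by decide +kernel)
def a3505 : PP 8 4 T 0x2002100000000000000000000000000000400058004001015064000000000000000000 := rS 0x1962e765c99ceacd5ab252671 (k8 a117 a115 i613 a1692 a2010 a1851 a1179 a1575 (k4 a1698 a332 i1547 a352 k0)) (by decide +kernel)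
def a3506 : PP 8 4 T 0x2100000000000080000000000000000000000000000020000080000010008400000 := rS 0x22ecb6499418471219d564125864fa533f87e286116a25fb0c2e93056a93181c0005 (k8 i518 i780 a402 i447 a3454 a416 i779 a543 (k8 a3502 a3503 a754 a329 i960 a438 a81 a35 (k8 a383 a340 i67 i438 i21 i581 i2262 a3504 (k4 i204 i859 i963 i2275 (k2 i465 a282 (k1 a352 k0)))))) (by decide +kernel)
def a3507 : PP 8 4 T 0x2000001000000080000004000000141010104054000000000000400054041000000 := rS 0x703e4d1e5062d0e8f54ea1 (k8 a344 a67 a335 a341 a329 a1898 a3116 i2045 (k2 i2031 a828 (k1 i296 k0))) (by decide +kernel)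
def a3508 : PP 8 4 T 0x2000000000000080000004000000141010104054000000000000000450048000000 := rS 0x44cf319410e07ef013864762d0e8f54ea1 (k8 a344 a67 a335 a341 a329 i394 i67 i785 (k8 a3507 a6 a3235 i2031 a42 i1851 a68 a406 k0)) (by decide +kernel)
def a3509 : PP 8 4 T 0x2100000000000080000000000000000000000000000000000080000010008400000 := rS 0xb28f2a93c96192b9f4fe7a38c50c22d4ca240a977e97498630380152b70fa04df0c398bd222b (k8 a416 i2614 a895 i2579 a3502 a357 a4 a81 (k8 a118 a3454 i780 a402 i447 i779 a543 a3503 (k8 a989 i518 a754 a837 a329 i960 a438 a117 (k8 a3508 a35 a340 i2258 i67 i438 i2533 i2534 (k2 i2596 a3506 (k1 a3505 k0)))))) (by decide +kernel)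
def a3510 : PP 8 4 T 0x2000000000000080000000000000000000000000000000000080000010008400000 := rS 0xbba7b3224b52cc1106793d1c532894bc51fab70f94d026f862a456050c93d222f39944ba57260747ac153a8546611698c0e00 (k8 i780 a402 i447 a329 i960 a99 a344 a67 (k8 a44 a335 a341 i779 i2258 a543 a491 i2579 (k8 a895 i2614 i2533 i67 i518 a416 a3454 a3502 (k8 a357 a4 a383 a81 a118 a3503 a438 a989 (k8 a754 a837 a117 a3508 i60 i815 a3509 a2 (k4 a822 a3492 a1729 a36 (k2 i1949 a3121 k0))))))) (by decide +kernel)
def a3511 : PP 8 4 T 0x2200000000000080000000001000000000000000000000000080040020008000010 := rS 0x10e338b9d50aa48808dca0c66b0d7aaa5a894426b23ab5965964904aa912b83c3ac150a8e26c71f84632c50f864fa533fd155c9b37c30e3142893d16784c8e14e977e9749863039845a00 (k8 i780 a329 i960 a402 i447 i779 a543 a3456 (k8 a989 a67 i274 i1936 i275 i1853 i2533 a491 (k8 a438 a117 a3487 a357 i1073 a336 a381 a35 (k8 a383 a340 i67 a903 i3081 a42 i1835 i2157 (k8 i2158 a54 a99 a344 a44 a341 i2405 i2258 (k8 i2614 i2534 i21 a343 a2 a385 a445 a451 (k8 a464 a3230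 a570 a822 a1301 i1986 a2427 i1968 (k8 a132 a392 i1569 a107 i2030 a361 a453 a3208 (k2 a3136 a3141 (k1 a460 k0)))))))))) (by decide +kernel)
def a3512 : PP 8 4 T 0x4202101000000000080100000000000000000040000010000000000000001048000012 := rS 0x19290cc2160a84c607 (k8 a402 i447 a344 a44 a3258 a352 a2218 i450 (k1 a3136 k0)) (by decide +kernel)
def a3513 : PP 8 4 T 0x2002000000000000000000001000000000400050104021001000000000000000000000 := rS 0x3bae52671 (k4 a117 a115 i1026 i1547 (k1 a1698 k0)) (by decide +kernel)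
def a3514 : PP 8 4 T 0x2002101000000000080000000000000000000050004000010000080000000008000010 := rS 0x172778b194eb105ab244a8f2a93c9657308b43e4c3181c0019 (k8 i67 i780 a402 i447 i779 a903 a329 i960 (k8 i2258 i438 i2533 i2534 i2596 i858 i613 a1692 (k4 a362 a1851 a3513 a3512 (k2 a332 a465 (k1 a2869 k0))))) (by decide +kernel)
def a3515 : PP 8 4 T 0x2000000000000080000000000000000000000000000000000080000000008400000 := rS 0x1ad92650611c4867619613f053f9bcfb0c38a26281f45bf46e781418cc20716aa482052792c32512e95c004c (k8 i779 i780 i2258 a543 a491 i67 i438 i2533 (k8 i518 i21 a3454 a329 a402 i960 i447 a3510 (k8 i275 i1838 a3456 i1853 a903 a438 a754 a117 (k8 a3487 a340 a357 a35 a3511 a3237 a3514 a487 (k8 i2262 a3504 i204 i859 i963 i2275 i468 a1947 k0))))) (by decide +kernel)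
def a3516 : PP 8 4 T 0x2100000000000000100000000000000000002000450104004000000000000000000 := rS 0x13e8b (k2 i1853 a3237 (k1 a1947 k0)) (by decide +kernel)
def a3517 : PP 8 4 T 0x10002000000001000000154014005018015000101010055000000000000000048002000 := rS 0xcb56a9412a6782ee9e1d (k8 i781 a26 i1685 a379 a3236 a434 i368 i1494 (k2 i466 i2040 k0)) (by decide +kernel)
def a3518 : PP 8 4 T 0x22101000000000000000000001000000010000000005020000080000002048000000 := rS 0x1580965a9906f11f840708a4faac7ab75094d024f48945cac74ac6526b98b09d8a3b158a4f26b61b24186523904ce5700174984b0c874e314 (k8 a438 a117 i781 i67 i438 i779 a543 i780 (k8 i2258 i2262 i21 i204 i963 i859 i2275 a487 (k8 i468 a3516 i275 a416 i394 a3479 i865 a352 (k8 a465 a19 a2579 a1042 i410 a409 a491 i2614 (k8 i2533 a4 a383 a413 a118 a3424 i581 a3517 (k8 a1947 i452 i451 i296 a441 a1898 i2031 a1899 (k2 a434 i2040 (k1 i1494 k0)))))))) (by decide +kernel)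
def a3519 : PP 8 4 T 0x2101000000000040000000001000000010040000005020000080000002048000000 := rS 0x2a80ccb56a80a50d0e9c6284f2883d2b163291c826700324184c (k8 i779 i859 i2275 i780 i2262 i21 i204 i963 (k8 a352 a1042 i2405 a491 i2533 a438 a117 i781 (k8 a3518 a467 a377 a320 i622 i820 a326 i2269 k0))) (by decide +kernel)
def a3520 : PP 8 4 T 0x2101000000000040000000001000000000040000004020000080000002008000010 := rS 0x8a1b27c7d4e41bc56e8186075423d539c4102c300a4f22762c64d6c932b1c1847729049e911d8ac965d2bb0cce000f9303289 (k8 a754 i67 i779 a903 i780 i2262 a487 i2258 (k8 a543 i438 a416 i394 i2614 i2533 i21 a409 (k8 i204 i859 i410 i963 i2275 i468 a2579 a3479 (k8 i865 a3516 i275 a3519 i960 i961 i1279 a434 (k8 a122 i196 i1261 a377 a4 a118 a3236 a1898 (k4 a379 i2031 a26 i1424 (k2 a1947 i1774 k0))))))) (by decide +kernel)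
def a3521 : PP 8 4 T 0x2101000000000040000000000100000000040000012020040010000001540000002 := rS 0x2b686b451aaca67d86075420865b05c911 (k8 a373 a107 a408 i1392 i961 i196 i1261 a377 (k8 a340 a383 i581 a3275 i2030 a84 i1287 a439 k0)) (by decide +kernel)
def a3522 : PP 8 4 T 0x2000000000000000001010004100014010000000001000000000015400000000200 := rS 0x1462d (k2 i1263 i201 (k1 i2033 k0)) (by decide +kernel)
def a3523 : PP 8 4 T 0x2101000000000000900000000040001000100000450124544000000045408000000 := rS 0x18cbda2b350a29412bcf31943b0d8a2188a757f43 (k8 a105 a396 a544 a373 i2538 a3128 a487 a358 (k8 a2579 a3516 i625 a1899 i275 a545 a486 a48 (k2 i1416 i2032 (k1 a3078 k0)))) (by decide +kernel)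
def a3524 : PP 8 4 T 0x2101000000000000900004000040001000100000050124544000000045408000080 := rS 0xa58ecd5e8428aae41a169e6a43b0d8a2188aad7f43 (k8 a105 a396 i581 a373 i2538 a3128 a487 a358 (k8 a3523 a394 i1868 a548 a108 a381 i459 i1987 (k4 a549 a3078 i1835 i2032 k0))) (by decide +kernel)
def a3525 : PP 8 4 T 0x2000000000000000810004000000000000100000800120540000000045500000080 := rS 0x638a59aa6082b90685a7a1d86bf (k8 a396 a487 a358 a394 i1868 a548 a108 i459 (k4 i460 a549 i1835 i337 (k1 i2032 k0))) (by decide +kernel)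
def a3526 : PP 8 4 T 0x22101000000000040110000001100001010000000055124144000015441510000000 := rS 0x3dc4d04798c9ad94275681812ab5b94d02c1724452a718a24d7316 (k8 a352 a465 a19 a438 a117 a1042 a373 a107 (k8 a408 a4 a383 a118 i581 a3522 a1807 i1225 (k8 a3267 i2040 a3525 a2579 a3516 a1899 a68 i815 (k1 a406 k0)))) (by decide +kernel)
def a3527 : PP 8 4 T 0x2101000000000040110000001100001000040000055124144080011401550000010 := rS 0xab5681996a02943572938b0cc568960b922295 (k8 a1042 a373 a107 a408 a754 a416 a2770 a352 (k8 a19 a465 a3526 a467 a377 i622 i820 i1225 (k2 i2269 i2040 k0))) (by decide +kernel)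
def a3528 : PP 8 4 T 0x402000000000000000000004001000141040100000005000800000000000000000000 := rS 0xaf4dd121a83 (k4 a334 a375 a462 a991 (k2 a381 a336 k0)) (by decide +kernel)
def a3529 : PP 8 4 T 0x14002000000000000000400150055004144040000000405000000000000000000000000 := rS 0xcf4ed3d34be (k4 a391 a336 a60 i1646 (k2 i1151 a463 k0)) (by decide +kernel)
def a3530 : PP 8 4 T 0x2000000000000000200000000000000000000000000000020000000000000000008 := rS 0x3c6833339944a42209d8b00d (k8 i2275 i613 i614 i2561 a3000 i859 i120 i121 (k4 i193 i1122 i341 a553 k0)) (by decide +kernel)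
def a3531 : PP 8 4 T 0x2001000000000000001000000140014010000200000000500080015400012000000 := rS 0x6f5c4305a4f (k4 i701 i1040 a467 i2033 (k2 a357 i1065 k0)) (by decide +kernel)
def a3532 : PP 8 4 T 0x2000000000000000001000004100014010000000001020000000015400020000200 := rS 0x2b1704e (k4 i1261 a3522 i871 i1289 k0) (by decide +kernel)
def a3533 : PP 8 4 T 0x2101000000000000001000005100010000000200005020410000011400002000010 := rS 0x2da11bd5b0c0313c12d30e24d12715194436cb211046677 (k8 i805 i233 a506 a3000 a542 i779 a2924 a3275 (k8 a3204 a754 i1590 a3531 a341 a3532 i702 a1807 (k4 a467 i1225 a357 a439 (k2 i1039 a2282 k0)))) (by decide +kernel)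
def a3534 : PP 8 4 T 0x2000000000000000001000000140014010000204000000000000015400002000000 := rS 0x1722d (k2 i1039 i1065 (k1 i2033 k0)) (by decide +kernel)
def a3535 : PP 8 4 T 0x10002000000000000000600150055000104040000000405000000000000000000000000 := rS 0x4b2fa2e9f (k4 a428 a405 a391 a3529 (k1 i1377 k0)) (by decide +kernel)
def a3536 : PP 8 4 T 0x10102000000000000000600010055000104040050008005000000000000000000000000 := rS 0x2699c97352f577425ac5d3f0d (k8 a357 a428 a405 i1399 a403 a86 a338 a3535 (k4 a3404 a534 a336 i1151 k0)) (by decide +kernel)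
def a3537 : PP 8 4 T 0x1000000000010002000000000000004014000000004000000100408000000540000455000024400000 := rS 0x2747278412dc4f0d (k8 a357 a1276 i721 a196 i1440 i1852 i1858 a262 k0) (by decide +kernel)
def a3538 : PP 8 4 T 0x102002000000000000614000004040005040040600005000500000411400026400000 := rS 0x7e3667a068a9a4bad171194c8b0dc893ea7d2aa952b05c8338babc9ead (k8 a420 a74 a427 a405 i233 a429 a408 a382 (k8 a3454 i1101 a428 i1233 i1343 a3534 i1231 i2716 (k8 a2965 a3536 i1066 i2895 a336 a111 i1337 i2745 (k2 a3537 i2907 (k1 i995 k0))))) (by decide +kernel)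
def a3539 : PP 8 4 T 0x2002000000000000001000001140114050000200005000000000415400012000000 := rS 0xf16907d690d5c1b9422d (k8 i1040 i310 a3534 i2033 a357 i1066 i1395 a377 (k2 a3219 a3467 k0)) (by decide +kernel)
def a3540 : PP 8 4 T 0x2002000000000000001000000140114000000200000000108080015000014000000 := rS 0xe46e3d383c43c0753a223263458ecc218178015217 (k8 a2996 a3454 i437 i1077 i438 i2711 a339 i2247 (k8 i487 a2965 a3539 i2109 i1340 i230 a880 i231 (k4 i2873 a2983 a2984 a419 k0))) (by decide +kernel)
def a3541 : PP 8 4 T 0x102002000000000000614000004040004004040600000000108080011040004000000 := rS 0x3399a27412dcf7181bc347270788780ea75aa22849d5ca062b454da605a1d4fa44c68b39a54766117800a6a90ba9582e4198622e4f (k8 a74 a405 i438 i233 a429 a408 a382 a2996 (k8 a3454 i566 i437 i1077 i2711 a339 i1101 i1094 (k8 i2247 i487 a102 a428 a3538 i1040 a3540 i154 (k8 a433 a57 i1864 i2742 i1943 a447 i2033 a84 (k8 i2109 i1340 i230 a880 i231 i1936 a81 a2983 (k8 a419 a390 i801 a196 i735 i894 a3030 i1068 k0)))))) (by decide +kernel)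
def a3542 : PP 8 4 T 0x2000000000000000014000000004200424020020000000148080055040014000000 := rS 0xce4209d04b74e9ee30397881d4e9131860760029aa42f0d4dd150273 (k8 i1094 i1864 a433 i2922 a340 a2996 a3454 i566 (k8 i437 a339 i438 i487 a102 i2109 i1340 a880 (k8 i1936 a419 a390 a347 i801 a196 i735 i1442 (k2 a3030 i1871 k0)))) (by decide +kernel)
def a3543 : PP 8 4 T 0x1002002000000000000014000000004200404020020000000108080015140014000000 := rS 0x3390827412dd3a7b8c348728940d15228b398ec5e0029aa42e4f86a6c6e18 (k8 i438 a2983 i2922 a340 a74 a2996 a3454 i566 (k8 i437 i1077 a339 i1094 i2247 a102 a433 i1864 (k8 a3542 i1937 a120 a2986 a390 a347 i801 a196 (k4 i735 i1442 a3030 i1871 k0)))) (by decide +kernel)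
def a3544 : PP 8 4 T 0x2002000000000000015000000004008404000200000000108080015040004000000 := rS 0x72f11e81d101e53b4d2d194c8dd361d869c0f82d8a98d163b30a84302f002a42eaf (k8 a427 a2996 a3454 i437 i1077 i438 i310 i2711 (k8 a339 i2247 i487 a115 i1242 i1589 i1590 a340 (k8 i1233 i2922 a2983 a3543 a2965 a336 a2986 i1898 (k4 a377 a120 i1301 i2873 (k2 a880 a2984 (k1 a419 k0)))))) (by decide +kernel)
def a3545 : PP 8 4 T 0x2002000000000000000000001080101050040010005000000000000400012000000 := rS 0x208f45d3ca692f1337c52182d50abda719 (k8 a2965 a99 a427 i310 i1040 a263 a120 a357 (k8 a2220 a24 a336 i1073 a2497 a406 a1590 i815 k0)) (by decide +kernel)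
def a3546 : PP 8 4 T 0x22002000000000040000000001000101050000010005000000000000400002000000 := rS 0x411e8ba794d25e282d899bd5f19 (k8 a2965 a427 a357 a2220 i1039 a120 a24 a336 (k4 i1073 a2497 a406 a1590 (k1 i815 k0))) (by decide +kernel)
def a3547 : PP 8 4 T 0x10012002000000000000014000000004801000000610000000500000411000026400000 := rS 0x7a89a08f2b73789d9e3740d14664f (k8 a74 i233 a111 i1337 i2721 i2745 a1276 a3537 (k4 i721 i1073 a196 a2265 (k2 a406 i815 k0))) (by decide +kernel)
def a3548 : PP 8 4 T 0x102002000000000000014000000084101040040650005000500000411400006400000 := rS 0x37c552c9b5a434391954abe86d33ea851233 (k8 i233 i280 i310 i1594 a99 a395 a427 a3454 (k8 a2965 a3545 a3546 a403 a3547 a336 a24 i2895 (k1 a389 k0))) (by decide +kernel)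
def a3549 : PP 8 4 T 0x2000000000000000200000000000000000000000000020010000000000000000000 := rS 0x5cc553071a1a8926fc60a95c853198d45e611daa4fe95628c4e68f069d1568b0c000c61748b2c1e050d928842b24904ee516195e22878bc153e65 (k8 i120 a428 a32 a405 a358 a373 i119 a487 (k8 a2924 i805 a506 i869 a818 a3000 a440 i779 (k8 i2410 a290 a542 a102 a2996 i487 i437 i438 (k8 i2247 i2392 i606 i2274 i1133 i1094 i983 a277 (k8 i1101 i845 a3454 a339 i2711 i1077 i1115 i233 (k8 i566 a429 a382 a408 a3533 a3544 a3541 a395 (k4 a739 a3548 a57 i2742 (k1 a447 k0)))))))) (by decide +kernel)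
def a3550 : PP 8 4 T 0x2000000000000000200000000000000000000000000002008080001000002000000 := rS 0x331008e2e17 (k4 i43 a405 a2999 i703 (k2 i232 a3293 k0)) (by decide +kernel)
def a3551 : PP 8 4 T 0x4002000000000000001000000040000214001080040000015100000000000000000000 := rS 0x21cbab635afcdcba38d0e1b15 (k8 a57 a35 a133 i800 a1601 a389 i107 i1946 (k4 i1060 i1931 i857 a460 k0)) (by decide +kernel)
def a3552 : PP 8 4 T 0x2002000000000000200000000000204000000040004011500080000400002000000 := rS 0x210fb918ac363c31e2a30e8a0202737b4a265c5b9c5134f439ad70ce5d50d947f16c562e67158941ecd42a5556a90ba846623882bd6a4f3eab4af05 (k8 a32 i2251 a420 a1978 a74 a1692 a427 a362 (k8 a9 i232 i819 i43 a3454 i583 i1100 a1949 (k8 a2010 i595 i858 a416 i121 a405 a57 i2716 (k8 a3551 i2037 a105 a1601 a701 a447 i1946 i1683 (k8 a3 i1404 i1407 a2670 a460 a2940 a120 i1060 (k8 a3002 i443 i444 a341 a99 a3219 a389 a275 (k4 i1952 i1841 a379 a81 (k2 a46 a2978 k0)))))))) (by decide +kernel)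
def a3553 : PP 8 4 T 0x2002000000000080000000001000100050000000005000000000400000000000000 := rS 0xf1 (k2 a3219 a3467 k0) (by decide +kernel)
def a3554 : PP 8 4 T 0x2000000000000001000000000002001041000000000015000000000000000000000 := rS 0x6b (k2 i1907 a3378 k0) (by decide +kernel)
def a3555 : PP 8 4 T 0x2000000000000001000000000004000041008000400015000000000000000000000 := rS 0x10e5d (k2 i1891 i818 (k1 a460 k0)) (by decide +kernel)
def a3556 : PP 8 4 T 0x10002000000000000000200000000000000040008000000015000000000000000000000 := rS 0x1a99f174fb350b05 (k8 a32 a1949 a2010 a428 a405 i1980 a3555 a534 k0) (by decide +kernel)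
def a3557 : PP 8 4 T 0x10002000000000000000000801014000101000014000000015540000000000000000000 := rS 0x22679432d8fccb (k4 a396 i2037 i1724 i1723 (k2 i1932 a69 (k1 a406 k0))) (by decide +kernel)
def a3558 : PP 8 4 T 0x2000000000000008000400041000104040000000005000000000000000000000000 := rS 0x13697 (k2 i1983 i1152 (k1 a336 k0)) (by decide +kernel)
def a3559 : PP 8 4 T 0x2002000000000000200000000000004040000040005011500080400400002000000 := rS 0x1e2370809cb887a71ad9ebf1c9ee32998ba7d56a90ba75228566abd6a4f3eab4af05 (k8 a32 i2251 a420 a1978 a74 a1692 a427 a2010 (k8 a1949 i1168 a3554 i43 a3454 i583 a428 a405 (k8 a3552 a2965 a3556 i235 a3557 a3558 a534 a463 (k4 a20 a460 a3002 i443 (k2 i1044 a441 (k1 a419 k0)))))) (by decide +kernel)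
def a3560 : PP 8 4 T 0x2002000000000000200000000000004000000000000000010080000000000000002 := rS 0xe4100d41a6a08a1de027638e6245d1b9ecf29a8ca652f1438a0ca0af8b9044acd42984e6911d98d165317aa42e3311c40aa4a248c41e592bc143003 (k8 i23 a252 a32 i2251 a3549 i595 i983 i700 (k8 a440 a3550 a362 a9 i232 i43 a3454 i1077 (k8 i566 i2247 i2245 a339 i1168 i2756 i2711 a1949 (k8 a2010 i858 i21 a405 a427 a3559 a374 i1358 (k8 a2907 a24 a57 a561 a336 a1448 a3556 i2721 (k8 a2497 a406 i235 a1190 a1276 a419 a69 a441 (k4 a460 i467 i1115 a2915 (k2 a429 a46 k0)))))))) (by decide +kernel)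
def a3561 : PP 8 4 T 0x10002001000000000000200000001000001040000000005001210080000000000000000 := rS 0xa12e196bb6753cd4875ed16245d4d1e55aaf41c5d3ecd42c1556974c9ecae59 (k8 a3549 i2251 a3556 a837 a989 i583 a32 a1949 (k8 a2010 a428 a405 a374 i2250 i1314 a1448 a336 (k8 a2497 a406 a111 i1418 a69 a460 a394 a534 (k4 i1946 a1579 i1151 a439 (k1 a351 k0))))) (by decide +kernel)
def a3562 : PP 8 4 T 0x10002001000000000000200000044000800040000000801000000000000000000000000 := rS 0x56d0d70cb5db3a9f1782d157a9f (k8 a428 i1418 a111 a32 a405 a394 a534 i1946 (k4 a1579 i1151 a351 i1289 (k1 a439 k0))) (by decide +kernel)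
def a3563 : PP 8 4 T 0x10002001000000000000200000040000000040040000005011000080400000002000000 := rS 0x2b686b865b39774f431acba11782f46f454d45d3eab4ea450acd82a5d32a90b8e4f657 (k8 i2251 a3556 i235 i43 a3454 a837 a989 a32 (k8 a2010 a1949 i1168 a3554 i583 a428 a405 a336 (k8 a111 i2721 i1418 a419 a441 i443 a3562 a460 (k8 a20 i1683 a463 a1579 i1151 a351 i1289 a439 k0)))) (by decide +kernel)
def a3564 : PP 8 4 T 0x2101000000000000400020004000000000000000001000000000000000000000000 := rS 0x15b43 (k2 a351 i1289 (k1 a439 k0)) (by decide +kernel)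
def a3565 : PP 8 4 T 0x10002001000000000000000000080000540010000000001000000000540400000000000 := rS 0x9698b14e07088fde03d (k8 a1827 a419 a6 a441 i459 a1825 i2034 a329 (k2 i1263 a1807 k0)) (by decide +kernel)
def a3566 : PP 8 4 T 0x10002001000000000000200000080001140018040000001000000000505440002000000 := rS 0x720806a261b26d72cb672ed8b4f8bc153f455eaad5217 (k8 i43 a3454 i583 i1987 a381 a428 a32 a405 (k8 a20 i1524 i1683 a463 a1579 a3564 i1151 a3565 (k4 i1044 i1121 i737 a429 (k1 a46 k0)))) (by decide +kernel)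
def a3567 : PP 8 4 T 0x10002001000000000000200000080000404004000000000010008080000000002000002 := rS 0x12d35caed82a56753dc86a038d4baa7619e04c291b45d3e651d8959a8530a545e3311c420a974ca240a631c9ecaa3107a2caf455eaad5217 (k8 i43 a3454 i583 i1987 a381 i2251 i2247 i595 (k8 i983 a3550 a3556 i235 i2245 i2 a754 a837 (k8 a989 a32 a362 a9 i232 i1077 i1100 i2711 (k8 a1949 a2010 i858 a339 i120 a428 a405 a3565 (k8 i1838 i1044 i1043 i1957 i1916 i444 a3397 i460 (k8 a460 a429 a394 a534 a382 a408 i1950 a2423 (k2 a2396 a3522 (k1 a1807 k0)))))))) (by decide +kernel)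
def a3568 : PP 8 4 T 0x10002000000000000000200000000000004000000000000000010080000000000000002 := rS 0x32d70be6753cd45d08bc06e9a43ab8fe511c9ee2e9f159855653178cc47104e954620f45a44768566c14ae594ba6512fd02aa42e18319289203 (k8 i23 i700 a440 i2245 a252 i43 a3454 i2 (k8 a3560 a754 a837 a989 a3549 i2251 a32 a2010 (k8 a1949 a339 i1168 i2247 i595 i983 a3550 a3554 (k8 a362 a9 i232 i1077 i566 i583 i2711 a416 (k8 a428 a405 a3556 i235 a3561 a1044 a3563 a3566 (k8 a3567 i2721 a419 a441 i443 a460 a394 a534 (k4 a1490 i1151 a396 a3564 k0))))))) (by decide +kernel)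
def a3569 : PP 8 4 T 0x202001000000000000a00000080011110000000000000001500000104401000004002 := rS 0x1b2980c2152b903ecf628d5870c5d035824f8bc14627f (k8 a1044 i983 a32 a405 i1390 i1246 i2277 i626 (k8 a467 a276 i1115 a277 i1950 a81 a429 a382 (k4 a46 a3286 i460 a511 (k1 i1916 k0)))) (by decide +kernel)
def a3570 : PP 8 4 T 0x2001000000000000200010001000004000000000005000000000015400000000050 := rS 0x12d360a95c91732a555689 (k8 a754 i583 i1100 i120 a405 a429 a382 a408 (k2 a2396 a3522 (k1 a1807 k0))) (by decide +kernel)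
def a3571 : PP 8 4 T 0x2001000000000000200010080000004000000000000000008080085001002000002 := rS 0x4331c68072ea9d8678130a476052b9845e554caa42e63 (k8 i2245 i43 a3454 a837 a3550 i1077 i2711 i2251 (k8 i2 a339 i1838 i1044 i1043 i1957 i1916 i444 (k4 i460 a3570 i412 a3397 (k1 i738 k0)))) (by decide +kernel)
def a3572 : PP 8 4 T 0x2001000000000000000000000000000000000000001000000000000200000000040 := rS 0x12d3 (k2 a329 i1263 (k1 a1807 k0)) (by decide +kernel)
def a3573 : PP 8 4 T 0x2001000000000000400001004000000000000000000015500080000000000002100 := rS 0x15a4f (k2 i702 i1494 (k1 a1301 k0)) (by decide +kernel)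
def a3574 : PP 8 4 T 0x20002001000000000000000000000400141010100050000000540001440540000400200 := rS 0x4f13149e03e6f0ec30f6b7788f93639 (k8 a42 a41 i2034 a6 a577 a390 a467 i1261 (k4 a357 a81 a2473 i256 (k2 a398 i1767 (k1 a3489 k0)))) (by decide +kernel)
def a3575 : PP 8 4 T 0x20002001000000000001040001000000141011100050001015500081440400000402240 := rS 0x619a90e5d13294521c0f9387c2d538ad3639 (k8 a42 a41 a416 a1825 a3572 i2034 a3574 a2995 (k8 i701 i256 i1381 i1422 i444 i738 a460 i375 (k1 i468 k0))) (by decide +kernel)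
def a3576 : PP 8 4 T 0x20002001000000000001040001000000141011100050001015500081440400000402200 := rS 0x6 (k2 a3575 i25 k0) (by decide +kernel)
def a3577 : PP 8 4 T 0x20002001000000000001400001004000141011100050001015500081060000000400002 := rS 0x10c7060ec5ea9 (k4 a3454 i1077 a339 i1115 (k2 i412 a3573 (k1 a3576 k0))) (by decide +kernel)
def a3578 : PP 8 4 T 0x2000000000000000200000000000004000000000000000010080000000000000002 := rS 0x2b49ec1033906a375cb2ca2811eab8731838c5112994bbf62e0520894c27331a55562f5094d52171988d3a8b488ed0acd5ac40aa4a248c41e1801964af05 (k8 a32 i2251 a3549 i23 a252 i595 i983 i700 (k8 a440 a3550 a362 a444 a2010 a1949 a339 i1168 (k8 i2247 a3554 a9 i232 i43 a3454 i566 i819 (k8 i1077 i583 i1100 i2245 i2756 i2711 i858 i21 (k8 i2 a405 a3560 a989 a837 a754 a438 a117 (k8 a3568 a42 a561 a1827 i1862 i2250 a3569 a3564 (k8 a3571 a3577 a429 a3570 a408 i1222 i1225 a1301 k0))))))) (by decide +kernel)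
def a3579 : PP 8 4 T 0x2000000000000000200000000000000000000000000000010080000000000000002 := rS 0x71282b49efc659fc5b15492d4fa3311c40aa5355aa4c6733085c94310c1241e5720c14b203 (k8 i23 a3549 a32 i21 i2251 i595 i700 a252 (k8 i983 a440 i43 i2711 i2756 i2245 a3454 i583 (k8 i566 a3550 a362 a9 i232 a73 a444 a3578 (k8 a115 i1242 i1638 i1366 a438 a3368 a420 i2037 (k2 i1358 a2907 k0))))) (by decide +kernel)
def a3580 : PP 8 4 T 0x1002000000000000000000000000020000000000040000000000000000500000000000 := rS 0x112d3 (k2 a344 i279 (k1 a120 k0)) (by decide +kernel)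
def a3581 : PP 8 4 T 0x4002000000000000000000000000050008000050000000000000000005001458000000 := rS 0x3054ae41a8856a8f (k8 i873 i1369 i784 i356 a429 i1365 a408 i2030 k0) (by decide +kernel)
def a3582 : PP 8 4 T 0x2000000000000000200000011000008000000000000010008000005400051004000 := rS 0xab1112284fa574788cfe1a3985e2f053ac55462d (k8 i1242 i1634 a115 i1064 a32 a405 a2996 i1093 (k8 a437 i1638 i273 i873 i504 a1978 a3580 a3581 (k2 a38 i764 (k1 a362 k0)))) (by decide +kernel)
def a3583 : PP 8 4 T 0x2002000000000000200000000000008000000000000000010000005000000000002 := rS 0x182a5722844a7f3ead446211a858a88e2b920962d8bc14b2030cab43e090e93c8043518bd520f (k8 i598 a450 i1077 i1634 a3579 a3000 a74 i741 (k8 a369 i182 a420 i1038 i23 a3549 a32 a405 (k8 i1242 a3582 a440 i503 i1124 i1125 i958 i2774 (k8 a138 i185 a1692 a1978 a930 i764 i822 a429 (k2 i1365 a408 (k1 i2030 k0)))))) (by decide +kernel)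
def a3584 : PP 8 4 T 0x2000000000000000000002000000008000000000000000000020000001001000000 := rS 0xb86ce08e (k4 i1369 i1368 i872 i2491 (k1 a437 k0)) (by decide +kernel)
def a3585 : PP 8 4 T 0x1002000000000000000000000001020000000000000000000010000000100000000002 := rS 0x4b249c82e2f (k4 i1077 i822 a3580 i958 (k2 i1093 a440 k0)) (by decide +kernel)
def a3586 : PP 8 4 T 0x2002000000000000001000000150008000050000000000000020000001501000000 := rS 0xb50f8243a4f (k4 a74 i741 a369 i182 (k2 a3584 i2030 k0)) (by decide +kernel)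
def a3587 : PP 8 4 T 0x2100000000000000000000000000000000000000000010000000000002000005000 := rS 0x8ee5 (k2 a409 i205 (k1 a425 k0)) (by decide +kernel)
def a3588 : PP 8 4 T 0x2100000000000000000000014110000000020000000010000000000000450005100 := rS 0xe4769159970d (k4 a340 i1328 a1978 a377 (k2 i1577 a402 (k1 a1719 k0))) (by decide +kernel)
def a3589 : PP 8 4 T 0x2000000000000000200000001000008000080000000000010000000000000000000 := rS 0x25924e48f (k4 a930 i1638 i1124 i1093 (k1 a440 k0)) (by decide +kernel)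
def a3590 : PP 8 4 T 0x2102000000000000001000000150008000040000000010000020000000401005000 := rS 0x7d56aac3e090e93c4225 (k8 a3587 i744 a74 i741 a369 i182 a97 a420 (k2 a3588 a3586 k0)) (by decide +kernel)
def a3591 : PP 8 4 T 0x2000000000000000200000000000000000000100000000000020000000801000000 := rS 0xb1243655 (k4 a2999 i273 i1125 a437 (k1 i739 k0)) (by decide +kernel)
def a3592 : PP 8 4 T 0x2002000000000000201000000010008000000000000000010000000000000000002 := rS 0x1aa51903c63053388c3240219d4b2b9518bcfea9 (k8 a450 a3589 i1077 i1634 i130 a3549 i1064 a3579 (k8 a3000 i1038 a3591 i121 a32 i1509 i598 a3583 (k2 i289 i1609 (k1 a3590 k0)))) (by decide +kernel)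
def a3593 : PP 8 4 T 0x2000000001000000200000000000000000000000000010000420000000000001002 := rS 0x23c92770b8c04854070d60a75 (k8 i1064 a32 i1115 a425 i339 i338 i598 i2520 (k4 i804 i2658 i984 a2904 k0)) (by decide +kernel)
def a3594 : PP 8 4 T 0x2002000000000000200000000000008000000000000000010000000000000002002 := rS 0x188cc1e67 (k4 i121 i108 i1609 i983 (k1 a3583 k0)) (by decide +kernel)
def a3595 : PP 8 4 T 0x2002000000000000201000000000008000000000000000010000000000000000002 := rS 0x500b55315 (k4 a115 a450 i1241 a3592 (k1 a3585 k0)) (by decide +kernel)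
def a3596 : PP 8 4 T 0x2002000000000000200000000000008000000000000000010000000000000000002 := rS 0x23b95800d2c90086ad (k8 a420 a3579 a3000 a3549 a3594 a3595 a408 i1533 (k1 a3593 k0)) (by decide +kernel)
def a3597 : PP 8 4 T 0x2000000001000000202000010000004000000000000010000020000000001000002 := rS 0x222572a8911e210d05c9234060cc8f05 (k8 a32 i1533 i1613 a3593 i464 i2774 i739 a437 (k4 a3276 i873 i356 i1489 (k2 i504 a38 (k1 a362 k0)))) (by decide +kernel)
def a3598 : PP 8 4 T 0x2000000000000000200000000000000000000000000010000020000000001002002 := rS 0x222572a8911e210d05c92331a11e0a67 (k8 i121 a32 i26 i464 i1609 i2774 i739 a437 (k4 a3276 i873 i356 i1489 (k2 i504 a38 (k1 a362 k0)))) (by decide +kernel)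
def a3599 : PP 8 4 T 0x10002000000000000000000000000004001008001000000000000000000000000000000 := rS 0xf713 (k2 a69 i818 (k1 a406 k0)) (by decide +kernel)
def a3600 : PP 8 4 T 0x2002002000000000000080000000004000000000000000000000000000100000000002 := rS 0x72f1 (k2 a27 i299 (k1 a2686 k0)) (by decide +kernel)
def a3601 : PP 8 4 T 0x2002002000000000000000000000000001000000000000000000000000180000000002 := rS 0x72f1 (k2 a61 i295 (k1 a2686 k0)) (by decide +kernel)
def a3602 : PP 8 4 T 0x2002000000000001214000000020001001000040004000000000000115500000002 := rS 0x9b459e13a86418ad8f194ca5e289f30abc5ea9 (k8 a450 i1077 a427 a397 a428 a3580 a24 a57 (k8 a561 a3600 a3601 i919 i2032 i1645 a3599 i618 (k2 i1074 a336 k0))) (by decide +kernel)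
def a3603 : PP 8 4 T 0x2002000000000000001254000041020001001000000005000000000000055500000000 := rS 0x1368b3c2750c834fa5d3319 (k8 a561 a57 a24 a428 i919 i2032 i1645 a3599 (k2 i618 i1074 (k1 a336 k0))) (by decide +kernel)
def a3604 : PP 8 4 T 0x2002000000000000000000000041020000000000000005000008000000080000000002 := rS 0x7e9a5b8d916781cbc4760548a5d3319 (k8 a561 a57 a24 a102 i2 a339 a61 i295 (k4 a3057 i452 a419 i1932 (k2 a336 i403 (k1 i995 k0)))) (by decide +kernel)
def a3605 : PP 8 4 T 0x2002000000000000001214000041020000001000000005000008000000015500000002 := rS 0x9b458d93ac61f8ae32994ba7c7691 (k8 a102 a339 a428 a24 a57 a561 a3604 i402 (k4 a3603 i1641 a2286 i618 (k2 i995 a336 k0))) (by decide +kernel)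
def a3606 : PP 8 4 T 0x2002000000000000080000000024040040000008004000000000400040009000000 := rS 0x364d46532791f9855ea9 (k8 a450 a427 a397 i402 a1593 i1059 a2965 a336 (k2 a2286 i995 k0)) (by decide +kernel)
def a3607 : PP 8 4 T 0x2002000001000001255000000110005001010000000000000000000055550400002 := rS 0x19f194cafd1343512ecfed3458dde09d89d3d0d174f9855e9517aa4c6b5 (k8 a1788 i616 a450 i1077 i1100 a427 a397 a428 (k8 a405 i2032 a20 a69 i1645 a379 a1577 i618 (k8 a3219 a1066 i1683 i2030 a395 i281 i1719 a1601 (k2 a2771 a3558 (k1 a463 k0))))) (by decide +kernel)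
def a3608 : PP 8 4 T 0x22000000000000000000000041000100040002000005000000000000000000000000 := rS 0x4ba6d026f (k4 a357 a4 i1073 i1855 (k1 a336 k0)) (by decide +kernel)
def a3609 : PP 8 4 T 0x202002000000000000001000000110110000000000004000008000000081150000002 := rS 0x1bce315441f85ad2869e2323b029855e7354a2c7291 (k8 a102 i295 i452 a450 i1093 a427 a397 i2 (k8 a339 a2965 a3057 a3608 a377 a329 a2218 a3553 (k4 a3601 i800 i1317 a389 k0))) (by decide +kernel)
def a3610 : PP 8 4 T 0x800000000000002000000000000000001001000110000000010000000000000000000001550000000 := rS 0xfea3 (k2 a395 a133 (k1 i2030 k0)) (by decide +kernel)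
def a3611 : PP 8 4 T 0x2002000001000001215000000110104001010000000000008000000015558400002 := rS 0x1fda4be86a1d16ce892769ec615c662e9f1d9855e955498e2091 (k8 a102 a107 i616 a450 i1100 a427 a397 a339 (k8 a428 a405 a2965 a3609 a3607 a59 i1641 a1581 (k8 a463 i618 a69 a2220 a3558 a377 i1723 a2218 k0))) (by decide +kernel)
def a3612 : PP 8 4 T 0x12021020000000000000010a0000110000000040010004014018000000001150005000 := rS 0x44ca26f8621da691 (k8 a102 a2218 i1683 a377 a357 a65 a2220 a2968 k0) (by decide +kernel)
def a3613 : PP 8 4 T 0x2002000001000000200000000010000000000000000000010000000000000000002 := rS 0x63bc546d23f1c69eb85d33a2a98a1c5c52270fa55526360a4d86c507a9412b50e93d9a853e95d5b05250682e4947c404a46119d4420d2c9003243 (k8 a3579 i1038 a3000 a3549 a3598 i744 i1064 a3591 (k8 a3593 i205 a107 a28 i1124 i739 a437 a440 (k8 a32 a420 i1577 a1978 a1949 a2010 a74 i741 (k8 a1788 a369 i208 i109 a366 a354 a3596 a3597 (k8 i616 a450 i1100 i182 a331 a443 a405 a3610 (k8 a3611 a57 a701 a1601 a447 a3 i1407 a3612 (k4 a1066 a99 a3219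 i1679 (k1 a379 k0)))))))) (by decide +kernel)
def a3614 : PP 8 4 T 0x2000000000000000000000000000200000000008000000000000000210001000000 := rS 0xade23f3c2d86c9b (k8 i154 i980 i1060 i1059 i1423 a376 i851 a3116 k0) (by decide +kernel)
def a3615 : PP 8 4 T 0x10002002001000000001200000000020000000000008004000008020400041409005000 := rS 0x9745b19025d43c48f3054f8a44e91 (k8 a102 a331 a443 a428 a32 a3116 a127 a3599 (k4 a5 a45 a2943 i491 (k2 i1323 a3606 k0))) (by decide +kernel)
def a3616 : PP 8 4 T 0x2002001000000001200000000020000000000008004000008020000201409005002 := rS 0x7e9a5b8d92e8b3c0e4543b029855ea948c653229 (k8 a443 a3614 a2965 a102 a450 a427 a397 i2 (k8 a339 a3615 i295 a3057 i452 i1244 a419 i1932 (k2 a336 i403 (k1 i995 k0)))) (by decide +kernel)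
def a3617 : PP 8 4 T 0x2002000001000000200000000000000000000000000000010000000000000000002 := rS 0x784d22d06864b84456c71ebc2329937454587186a8034734885c944947a159b102b8941ec56191a0a9f1489c46751083432592010cc2af17aa4c693 (k8 a3596 i616 a450 i1077 a427 a397 a3579 a3000 (k8 a3549 i1038 a3598 i744 i1064 a3591 a331 a443 (k8 a428 a32 a3593 a354 a366 i109 i205 i1577 (k8 a107 a2010 a1949 a28 i1124 a440 i739 a102 (k8 i1093 a437 a3613 a413 i796 a3602 a3605 a389 (k8 a3614 a2965 a3616 a365 a27 a61 a441 i1243 (k4 i2032 i919 i451 a336 (k2 a3599 i1074 k0)))))))) (by decide +kernel)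
def a3618 : PP 8 4 T 0x10002000000002000001040000000004001000001100000000000000000054500000000 := rS 0x87428958ac3 (k4 a468 a40 a409 a1002 (k2 a3599 i2032 k0)) (by decide +kernel)
def a3619 : PP 8 4 T 0x2002002000000001200000000020100000000000000000010000000200000000002 := rS 0x3390c72429dca8162b920364b481e5348b41a5c222b638dc7b178299d3e65018a44e233a8841a192c900866157aa44ac372464c693 (k8 a3596 i616 a2965 a3617 a468 a409 a450 a427 (k8 a397 a3579 a3000 a3549 i1038 a3598 i744 i1064 (k8 a3591 a331 a443 i23 i120 a428 i121 a32 (k8 a405 a365 a376 a27 a61 a441 i1243 i919 (k8 i451 a336 i1074 a3618 a102 i912 a440 i503 (k8 a437 i1125 i752 a1949 i821 a160 a2722 i2793 k0)))))) (by decide +kernel)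
def a3620 : PP 8 4 T 0x2002001000000000000000000020102000000000004000010020000200000000002 := rS 0x8b3905854488992c5227 (k8 a331 a443 a102 a112 a440 a127 i958 i821 (k2 a175 a2702 k0)) (by decide +kernel)
def a3621 : PP 8 4 T 0x1002002001000000001200000000020000000000000000000010000000000000400002 := rS 0xde4a3986892233a834324021964c6931283dc90d388bc58a9 (k8 a450 a3585 i1077 i796 a413 a3617 a424 a409 (k8 a3596 i616 a3549 a3579 a3000 i1038 a3598 i1064 (k4 a3591 i958 a437 i976 (k2 a440 a3616 (k1 a389 k0))))) (by decide +kernel)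
def a3622 : PP 8 4 T 0x1002002000000000001200000000020100000000000000000010000000000000000002 := rS 0x97458e53ac64da145687391e42c9178a7c76291388cea2106864b240219855e2562b0dc91931a4c58a9 (k8 a450 a3585 a3596 i616 a2965 a3617 a468 a40 (k8 a409 a427 a397 a3579 a3000 a3549 i1038 a3598 (k8 i744 i1064 a3591 a331 a443 a339 a428 a3619 (k8 a3620 a3621 i973 i821 a1001 i898 a1002 i1179 (k4 i2032 i1641 i299 i618 (k2 i1244 a336 k0)))))) (by decide +kernel)
def a3623 : PP 8 4 T 0x2000000000000002200000000000000000000000000010000020000001001000000 := rS 0x6c2e8e24958ab05 (k8 a32 a330 a2010 i1125 i504 i739 i872 a437 k0) (by decide +kernel)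
def a3624 : PP 8 4 T 0x2002002000000000000200000000020000000000000000000010000000000000000002 := rS 0x574223c941a2485ce7051489c467510834c2af5498d26c561b344ae40c9008659 (k8 a3549 a3579 a3000 i1038 a3617 a409 a3623 a468 (k8 a40 a3596 i616 a450 a427 a397 a3598 i744 (k8 i1064 a3591 a331 a443 a32 a417 i821 i958 (k4 a437 a440 i872 a3605 (k2 i504 a1949 k0))))) (by decide +kernel)
def a3625 : PP 8 4 T 0x2002000000000000200000000020000000000000000000010000000000000000002 := rS 0x6321d47124750856485c858e4f137a986c914c0b22a7186c5e0a291388cea0d4a8bd529307b344ae40c9008659 (k8 a3549 a3579 a3000 i1038 a3617 a409 a3623 a424 (k8 a3596 a450 i1077 i1100 a3598 i1064 a3591 a331 (k8 a443 a32 a405 a413 i796 a3624 a3585 a3622 (k8 i2656 i980 i981 a3614 a376 a389 a3621 a171 (k8 i739 i898 a447 i1124 a127 a395 i931 a2943 (k1 i336 k0)))))) (by decide +kernel)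
def a3626 : PP 8 4 T 0x2002000000000001201000000110204000010000000010000020000001500800000 := rS 0x21e26ba67432867f88ad51c573c9209717828a43e094aaa43a4f (k8 a74 i741 a450 i1100 a369 i182 a443 a32 (k8 a405 a2996 i739 i973 i503 i1124 a1692 a28 (k8 a930 a3610 a403 a701 a1601 a2220 i1683 a569 k0))) (by decide +kernel)
def a3627 : PP 8 4 T 0x4000000000000010221020000000000010010a0000110000004000000004014018000000001150005000 := rS 0x446267f429c56a4f (k8 a74 a1692 i1407 a1949 a35 a2220 a3612 a436 k0) (by decide +kernel)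
def a3628 : PP 8 4 T 0x12002000000000000000000000010200000000050000000000000000010051000000 := rS 0xacf0b6789b9a515 (k8 a57 a377 a389 a3219 i1060 i1059 i850 a3116 k0) (by decide +kernel)
def a3629 : PP 8 4 T 0x2002000000000000200000000000200000000000000000010000000000000000002 := rS 0x218ff0ca79c574ce5c50d6a5739a3c941a2485e2b17148852aa931a4d82cd129f542233a83432a507b903a4f0f90086ab56824b305 (k8 a32 a3549 a369 a420 a97 a3579 a3000 i182 (k8 a74 i741 a3617 a424 a382 i1038 a3598 i1064 (k8 a3591 a3625 a3588 a409 a3623 a408 a3596 i616 (k8 a450 i1100 i744 a443 a405 a57 a3626 i958 (k8 a437 a440 i872 i834 i504 a1692 a3610 a447 (k8 a701 a1601 i1407 a3 a3628 a35 a3627 i1683 k0)))))) (by decide +kernel)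
def a3630 : PP 8 4 T 0x10022000000000000000000000041004100008000000005000008000000000000000000 := rS 0x3c22d227b (k4 i818 a102 i492 a3599 (k1 a3608 k0)) (by decide +kernel)
def a3631 : PP 8 4 T 0x22002000000000000200000000000000008000000000000010000000000000000002 := rS 0x37632697c9745b382c8e2412c7ebb511fd3e3b109855ea960894faa1119d41a195283dc81d0f90086ab56826329931a4e26b52b9649f05 (k8 a32 a74 a3549 a387 a1692 a69 a3596 i616 (k8 a3629 a2965 a369 a420 a97 a3579 a3000 i182 (k8 i741 a3617 a424 a382 i1038 a3598 i1064 a3591 (k8 a3625 a3588 a409 a408 a450 a427 a397 i744 (k8 a339 a428 a35 i2030 i1683 i407 a3630 a440 (k8 i1124 i958 i932 a175 i1983 a3558 a336 i1719 (k2 i995 a2286 k0))))))) (by decide +kernel)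
def a3632 : PP 8 4 T 0x2002000000000000200000000000000008000000000000010000000000000000002 := rS 0xcf4ea2d224a5f9256e8f151f9e2a3694356a7b2bc4e9f174f8a44e2130abd52c1129f542233a83432a507b903a4f0f90086ab56824b3058ca64c693 (k8 a3596 i616 a3629 a2965 a32 a3549 a369 a420 (k8 a97 a3579 a3000 i182 a74 i741 a3617 a424 (k8 a382 i1038 a3598 i1064 a3591 a3625 a3588 a409 (k8 a408 a450 a427 a397 i744 a331 a443 a428 (k8 a405 a20 a69 a387 i818 a1692 a3631 a377 (k8 a99 a3219 i2030 a127 a930 i850 i1124 i1724 (k4 a440 a102 i492 i1645 (k2 a3558 a463 k0)))))))) (by decide +kernel)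
def a3633 : PP 8 4 T 0x400000000004002000000000000000000000000100014020000000000000000000000000000000000 := rS 0x17315 (k2 a337 i1403 (k1 a447 k0)) (by decide +kernel)
def a3634 : PP 8 4 T 0x2002000000000080200000000000000000000000000000018000000000000000002 := rS 0x3d22913435a95d1e1a0bc5c7627109852aa931a4d82253ea844675068654a0f720749e1f2010d56ad049660a99 (k8 a3629 a32 a3549 a369 a420 a97 a3579 a3000 (k8 i182 a74 i741 a3617 a424 a382 i1038 a3598 (k8 i1064 a3591 a3625 a3588 a409 a408 a3596 i616 (k8 a450 i1100 a397 i744 a331 a339 a405 a2996 (k8 a437 i872 i504 a1692 a3610 a3633 a3553 i492 (k1 a857 k0)))))) (by decide +kernel)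
def a3635 : PP 8 4 T 0x2002000000000080200000000000000000000000000000010000000000000000002 := rS 0x7f5aa38ae4825a8c42c1129f542233a83432a507b903a4f0f90086ab56824b305 (k8 a32 a3549 a369 a420 a97 a3579 a3000 i182 (k8 a74 i741 a3617 a424 a382 i1038 a3598 i1064 (k8 a3591 a3625 a3588 a409 a408 i744 a99 a3634 (k4 a440 i503 i1124 a1692 (k2 a930 i2030 k0))))) (by decide +kernel)
def a3636 : PP 8 4 T 0x2002000000000000200001000000000000000000000000014000000000000000002 := rS 0x1343f4bb1c6d4e1522e22850b238ae4830abcc6c366a650f1386288fed344d0cfa0f55ab60aa112b043a4f0f824420d1186480433a9654ae449a555317 (k8 a405 a450 i1100 a3596 a3617 a382 a3549 i1064 (k8 a3579 a3000 i1038 a3591 a3598 i744 a369 i182 (k8 a74 i741 a408 a409 a3625 a32 a420 a97 (k8 a424 a3588 a3610 a3633 a3635 a1066 i2030 a377 (k8 a2220 a3632 a3629 a3623 a468 i616 a427 a397 (k8 a440 i503 i1124 i958 a1949 a28 a175 a2701 (k4 a436 i899 a59 i1778 (k2 i406 a336 (k1 i995 k0))))))))) (by decide +kernel)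
def a3637 : PP 8 4 T 0x10422000000000000000204000041000100004000000005010008020400001101000010 := rS 0x8b3c1ec54852ba3c34178288ceacd (k8 a3623 i1064 a3591 a32 a2996 a437 i872 i504 (k4 a1949 a2701 i812 a3057 (k2 i492 a3608 k0))) (by decide +kernel)
def a3638 : PP 8 4 T 0x2002000000000000200000000000000000000000000000010000000000000000002 := rS 0x2d0ae4b89c31a6878ca6542c312b90c6930e87c9ea95798413051d814420d0c9648043 (k8 a3579 a3000 a3549 i1038 a3598 i744 i2 a339 (k8 a32 a369 a397 a427 a450 a74 i182 i741 (k8 a3596 i616 a3617 a409 a468 a3625 a3629 a2965 (k8 a3632 a3635 a377 a2220 a3637 i503 a3636 a1692 k0)))) (by decide +kernel)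
def a3639 : PP 8 4 T 0x402001000000000001004000041000000005000000005000000020400001500800110 := rS 0x1f0d80c9a1522d2e99 (k8 a837 a989 a175 a2701 a336 a2479 i899 i995 (k1 a458 k0)) (by decide +kernel)
def a3640 : PP 8 4 T 0x802000000000000001200404000000140004105054000000000020400001400001000 := rS 0x13b4f4d31922838bc153e0f (k8 i338 a428 a32 a405 a68 a112 a2943 i2045 (k2 a59 i1641 (k1 a1490 k0))) (by decide +kernel)
def a3641 : PP 8 4 T 0x102001000000000001a00404001000000005105054005000000020400001400801010 := rS 0x6b5753a26c307c1412a5720852e99 (k8 a837 a989 i744 a107 a382 i1387 a32 i338 (k4 a276 a3640 a436 a3639 (k2 a394 i625 k0))) (by decide +kernel)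
def a3642 : PP 8 4 T 0x2000000000000000200002000000000000000000000000014000000001000000002 := rS 0x1348b5e44d0c994baa502ab39b290a714a858a8793d95c91054f8ec0a2306bf4ff11319bceab75fb343240219855a59 (k8 a3549 i1288 i1127 a3579 a3000 i1038 a3623 i1456 (k8 i886 i1064 i1400 a208 a444 i102 a3638 a3598 (k8 a3591 i2 a339 a428 a32 a440 i503 a418 (k8 a353 i1125 i958 i2761 i750 a1949 a1076 i2522 (k8 i1657 i1402 i624 a989 a837 a3641 a69 i934 (k2 a175 a206 (k1 i1418 k0))))))) (by decide +kernel)
def a3643 : PP 8 4 T 0x2000000000000000200002000000000000000000000000010000000001000000002 := rS 0x38a3e281a5485c946131ab62e752c86486fd (k8 a3638 a3579 i1038 a3549 i1064 a405 i1288 a208 (k8 i1127 a3642 a2996 a3454 a437 a438 i872 a117 (k1 a201 k0))) (by decide +kernel)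
def a3644 : PP 8 4 T 0x2001000000000000800001001004000008001000005000108000000000000000000 := rS 0x430fc4f4ba652253 (k8 i566 a102 a837 a989 i1389 a1397 a467 a35 k0) (by decide +kernel)
def a3645 : PP 8 4 T 0x2000000000000000202000010000004000000000000010000020000000001000002 := rS 0xe5 (k2 a408 a3597 k0) (by decide +kernel)
def a3646 : PP 8 4 T 0x2001000000000000800001001004000008001000005000008000000000000000000 := rS 0x208a0ba574612314 (k8 a438 a102 a3599 a561 i626 a3644 i1684 a374 k0) (by decide +kernel)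
def a3647 : PP 8 4 T 0x800000000000002001000000000000001001001000001048010000005000400000000001550000000 := rS 0x14aa1289fd2e99 (k4 a837 a989 a133 a1191 (k2 a3173 a129 (k1 a3610 k0))) (by decide +kernel)
def a3648 : PP 8 4 T 0x2001000000000000201001011000000008010000005000008000000001550000000 := rS 0x430fc515d2b936b727afd954345a74f74f8bc153eab4ba652253 (k8 i566 a102 a837 a989 i583 a428 a32 a405 (k8 a20 i818 i1645 i492 a3647 a439 a396 i1389 (k8 i857 a1490 a336 i626 i500 i1683 a467 a35 k0))) (by decide +kernel)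
def a3649 : PP 8 4 T 0x2000000000000001014080080010000005000000000000000000000015500000080 := rS 0x15b1d4c3f (k4 a458 i460 i1680 i332 (k1 i2032 k0)) (by decide +kernel)
def a3650 : PP 8 4 T 0x2001000000000001a01004080010141055140014001000000000000415508005000 := rS 0xa58839226f1638b54e071cc619f4f5d1aa2e9f61b160a1f (k8 i270 a32 a277 a276 a428 a405 i625 i626 (k8 a394 i1950 a534 a42 a3649 a1825 a3572 a3104 (k4 a3235 a2915 a379 a436 (k2 a382 a3286 k0)))) (by decide +kernel)
def a3651 : PP 8 4 T 0x22001000000000000a01004001010000004104000005010008020400401009001010 := rS 0x448f31957a2c5227119d442cd6183d2e99449cce31448a14ae8f82afcde7f (k8 a35 a357 a396 a32 i872 i504 a1949 a102 (k8 a438 a117 a417 a754 a837 a989 i338 a276 (k8 a3623 i744 i1064 a3591 a331 a443 i492 a3650 (k4 a260 a3608 a3637 a3640 k0)))) (by decide +kernel)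
def a3652 : PP 8 4 T 0x2000000000000000a00000011000000000000000005000110000000001000400002 := rS 0xaf41975167a3f9be18a15ba0476291383d9a2f4ba65225342a1d82933e95d1f050e9c6281f0d2240a4a24bf4420d1186480433a9649eb5 (k8 a3643 i1389 a3549 i1064 a3579 a3000 i1038 a3591 (k8 a3598 i744 a3638 i958 a440 i2 a754 a437 (k8 i270 a438 a117 i781 a32 i872 i504 a1978 (k8 a115 a3645 a3648 a1949 i566 a102 a837 a989 (k8 i1077 a3623 i338 a331 a443 a339 a3072 a577 (k8 a3173 a467 a357 a35 a3651 a857 i1891 i815 (k2 a3650 a108 k0))))))) (by decide +kernel)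
def a3653 : PP 8 4 T 0x12001000000000001a14000041000000005001000005000008000000015550000102 := rS 0x1d8cd215a86323b02a5d3314 (k8 a438 a837 a989 i2 a339 a260 a3605 a3057 (k4 a377 i2032 a402 a3476 k0)) (by decide +kernel)
def a3654 : PP 8 4 T 0x2000000000000000a00000011000000000000000005000010000000001000400002 := rS 0x769a9d402a899716cae3c8261a83280a44ecd61b141e974ca150ec1499f4ae8f82874e3140f8691205251256afd1083446192010cea59 (k8 a3549 i1064 a3579 a3000 i1038 a3591 a3598 i744 (k8 a3638 a3643 i958 a440 i2 a754 a437 i270 (k8 a438 a117 i781 a32 i872 i504 a1978 a115 (k8 a3645 a3648 a1949 a837 a989 i338 a277 a276 (k8 a3623 a331 a443 a3652 a374 a65 i1309 a1448 (k8 a3653 i500 i499 a5 a2701 i850 i333 a344 (k2 i460 a1807 k0))))))) (by decide +kernel)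
def a3655 : PP 8 4 T 0x2000000000000000200000011000000000000000005000010000000001000400002 := rS 0x2b898fcb8b6032b8a00969a814b4265a1d827d1489c467510b3586c50783480b555a4c3e8902874e3147e94c94494295d1e1a0c90e0a59 (k8 a3549 a32 a3579 i1038 a437 i872 i504 a1949 (k8 i958 a440 i566 a3638 a438 a117 i781 i2 (k8 a754 i270 a115 i583 a3643 a3000 a3598 i338 (k8 a277 a276 a3623 i744 i1064 a3591 a331 a443 (k8 a1978 a3645 a3648 a3654 a439 a129 a3610 a344 (k8 i197 a3173 a3605 a1807 i500 i499 a458 a5 (k2 i851 a2701 k0))))))) (by decide +kernel)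
def a3656 : PP 8 4 T 0x4002000000000000000000000020000004000000100000000201000000000000000000 := rS 0x7788a3cf854 (k4 i1314 i1313 i765 a73 (k2 i1629 a466 k0)) (by decide +kernel)
def a3657 : PP 8 4 T 0x2000000000000000200000000000000000000000000008008000000001000000000 := rS 0x64061b202388617 (k8 a2996 i2251 i504 a3000 i872 i2778 i180 a437 k0) (by decide +kernel)
def a3658 : PP 8 4 T 0x6002000000000000000000001000150000000050000000000000000001001448000000 := rS 0x19b95801d1a8852671 (k8 a117 a115 i784 i356 i781 i2030 a408 i1613 (k1 a429 k0)) (by decide +kernel)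
def a3659 : PP 8 4 T 0x2000000000000001016000080010000005000000000000000000000015500000080 := rS 0x15b1d4c3d (k4 a1827 i460 i1694 i332 (k1 i2032 k0)) (by decide +kernel)
def a3660 : PP 8 4 T 0x2002000000000000001014004000000141005100004000000500020000141512000080 := rS 0x3cbc624c6179cce2291c8dc4e4f (k8 i1221 a331 i1044 i2051 a443 a117 a417 a363 (k4 i2032 a2701 a27 a398 (k1 a3090 k0))) (by decide +kernel)
def a3661 : PP 8 4 T 0x2002000000000000001414005001150141005150000005000510820000001512000000 := rS 0x22cf02a579be18d30330052431387c5a02 (k8 i180 i1000 i183 a331 i21 a443 i2030 a3093 (k8 a44 a377 a357 a3659 a3660 i388 i1854 a3608 k0)) (by decide +kernel)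
def a3662 : PP 8 4 T 0x2000000000000000200000021000000004000000001000008020000001000000000 := rS 0x79378189c1c62b0c4234230b41a3701004301b528c4461f0789c86294fb2d46974c8bce6714885cfeb540add42cd42c14fa57289d4b24d24a4e286332c5dfa53 (k8 i566 a420 a405 i120 i1353 a438 a115 i29 (k8 i73 a3549 i1064 a3656 a3657 a936 a32 a1949 (k8 a2010 a3173 a577 a3072 i1288 i1556 a2996 a102 (k8 a117 a417 a363 a837 a989 a1822 i122 a428 (k8 a443 i21 a331 i338 i183 i185 i983 i1286 (k8 a3658 a437 i1038 i180 i1044 i463 i1000 i1123 (k8 i1122 i744 a276 a277 a3661 i741 i742 i1231 (k2 a3102 a3101 k0)))))))) (by decide +kernel)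
def a3663 : PP 8 4 T 0x2000000000000000200000000000000000000000000000008080000000000000000 := rS 0x24d (k2 i73 a3579 (k1 i437 k0)) (by decide +kernel)
def a3664 : PP 8 4 T 0x2000000000000001200000001000140001000050005000010020000401422401000 := rS 0x3c9bc0c4e4f8a46e27168d0042161b141f05 (k8 a32 i338 a277 a276 i744 i180 i1122 i1000 (k8 a331 i1044 a443 a428 i741 i742 i1231 a3102 (k1 a3101 k0))) (by decide +kernel)
def a3665 : PP 8 4 T 0x2002000000000000000000004001004141008101004001000500000100114012000080 := rS 0x11573c2302f399c46e4f (k8 i1221 i1044 a117 a417 a363 a3599 a3090 a561 (k2 a441 i459 k0)) (by decide +kernel)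
def a3666 : PP 8 4 T 0x2000000000000000200000021000000000000000001000008000000001000000000 := rS 0x1e2c7080f55c7837c31a60660075cac561884684616834720200861161b3dd3d4a314308c3e0f138a480433ea159a5750add02515a9d4fe592985d224d24c5e0a9f65a8d2e99179cd26718a18ccafd (k8 a420 i120 i1353 a438 a117 a115 a417 a363 (k8 a837 a989 a1822 i122 a428 a32 a405 i29 (k8 i73 a102 a2996 i566 a3549 i1556 i1064 i1288 (k8 a3656 a3072 a577 a3173 a3657 a2010 a1949 a936 (k8 a3663 a3000 a443 a331 i338 i183 i185 a3662 (k8 i983 i1286 a20 i818 a3658 i492 a437 i1038 (k8 i180 i2051 i463 i1000 i1123 i1122 i744 a276 (k8 a277 a364 a3664 i2030 a3093 a44 a377 a357 (k4 a3665 a3608 a1827 i459 (k2 i1694 a441 (k1 a379 k0))))))))))) (by decide +kernel)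
def a3667 : PP 8 4 T 0x2000000000000000001000020010000000000000000004500020000001100000000 := rS 0xf9f5faa311ad4b2a5079fc3a07 (k8 i1225 i742 i1556 i338 i1286 i866 i1288 i185 (k4 a1822 a420 a936 i183 (k1 i2030 k0))) (by decide +kernel)
def a3668 : PP 8 4 T 0x2001000000000000000000001000000008020000005000400020000000000800150 := rS 0x15e8b4044c7627 (k4 a331 i1156 a69 i1710 (k2 a175 i1862 (k1 a2479 k0))) (by decide +kernel)
def a3669 : PP 8 4 T 0x2000000000000000200000061000000000000000001000000020000001000000100 := rS 0x386322a249f42c1586cd06950003b13a1cf8505081d82e48888cae21470583619299209a59259ce28050798ccafd (k8 a420 i120 i1353 i338 i611 a438 a417 a3666 (k8 i866 i613 a440 i828 i181 i748 a437 i1124 (k8 i2497 i503 i185 a28 a107 a408 i1225 i821 (k8 a3667 i1313 a3668 a331 i1156 i740 i1125 i1489 (k8 a3623 a1038 a32 a1949 a428 a3639 a2479 a2943 (k2 i452 i299 k0)))))) (by decide +kernel)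
def a3670 : PP 8 4 T 0x2000000000000000200000021000000000000000001000000020000001000000100 := rS 0x898acb8b65721d0b0561b340e7c28305c91111a842c1b0283c32214714c904d2c9ce286332bf4ae4b (k8 a3666 i503 a420 i120 i1353 a438 a417 i866 (k8 i613 a440 i828 i1124 i2497 i181 i338 i611 (k8 i748 a437 i821 i185 a28 a107 a408 a3667 (k8 i1313 i1225 a3623 a1038 a32 a1949 a3668 a3669 (k4 i500 i499 i2589 a5 (k1 a2701 k0)))))) (by decide +kernel)
def a3671 : PP 8 4 T 0x2000000000000001004000080000000005000000000000600020000001580000000 := rS 0x898acb881 (k4 i1862 i499 i390 a5 (k1 a2701 k0)) (by decide +kernel)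
def a3672 : PP 8 4 T 0x402000000000000001004000041000140005000004005000000020000001580800000 := rS 0x40268548b (k4 a175 a2701 a336 i390 (k1 i1336 k0)) (by decide +kernel)
def a3673 : PP 8 4 T 0x2000000000000001204000001000140005000004005000600020000101580801000 := rS 0x8b4d8e5e2c6892be0a9f078007627 (k8 a331 i1156 i740 i338 a428 a32 a3671 a3672 (k4 a2943 a27 i299 a828 (k2 i452 a336 k0))) (by decide +kernel)
def a3674 : PP 8 4 T 0x2000000000000000200000021000000000000000001000000020000001000000000 := rS 0x4dabd168089a183c083e1405a0760a841ae46185843113786ca88e299200a8526b34460f2c8660a974c9ce286332bf4ae4b (k8 a3666 i503 a420 i120 i1353 a438 a417 a837 (k8 a989 a32 i181 i866 i338 i185 a3623 i613 (k8 a1949 i611 a440 i828 i1124 i1125 i748 i1008 (k8 a28 i2497 a437 a1038 a107 i1489 i821 a408 (k8 i1225 a3572 a3667 i1313 a3670 i1309 a3673 a69 (k4 i1710 a175 i1862 i1336 (k1 a336 k0))))))) (by decide +kernel)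
def a3675 : PP 8 4 T 0x2000000000000000200000000000000000000000000000002080000000000000000 := rS 0xa88e (k2 i1124 i1125 (k1 i2457 k0)) (by decide +kernel)
def a3676 : PP 8 4 T 0x2000000000000000200000021000000000000000001000000000000001000000000 := rS 0x660a81c83152884461f07868007d88ad4fe033b1609e55261240a422092d26898a45e0a677ea8cc665 (k8 i120 i1353 a1822 a420 i121 a32 a405 a438 (k8 a337 a115 a3666 a3674 a3000 i2410 a3675 a440 (k8 i792 i790 i613 i614 a3530 i1555 i1287 a373 (k8 i1629 a349 i446 i2405 i270 a3459 i2538 a1609 (k4 i983 a107 a3658 a408 (k2 i820 i1225 k0)))))) (by decide +kernel)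
def a3677 : PP 8 4 T 0x2000000000000000200000021000000000000000000000000010000001000000000 := rS 0x14a4f69884461f0d002227f0b80cb05526224924b0290a0a677e98cca60 (k8 a3676 i120 i1353 a420 i121 a32 a3000 i2410 (k8 a3663 a3675 a754 a440 i792 i613 a3530 i708 (k8 i1555 a373 a349 i446 i270 a3459 i2538 a3515 (k2 i2533 a1609 (k1 a3521 k0))))) (by decide +kernel)
def a3678 : PP 8 4 T 0x2000000000000000200000021000000000000000000000001000000001000000000 := rS 0xc110b488e1d8801e1a233ea84fe4e3715ca617253f596a3a190c3e515c1809ab52ca941e40 (k8 a3677 i338 i1286 i866 i1288 i613 a3676 i1126 (k8 i2854 i183 i21 a351 a1822 i122 a420 a440 (k8 i739 i566 a3657 i1047 i1048 i1556 a3173 a936 (k8 i185 a357 i2816 a403 i742 a3093 a377 a3276 (k2 a44 a2218 k0))))) (by decide +kernel)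
def a3679 : PP 8 4 T 0x2000000000000000200000021000000000000000000000000000000001000000000 := rS 0x6039043115088cae8e2986496483a964805139ae0c0fd (k8 a420 a3676 i1126 a171 i2854 a3677 i866 i1064 (k8 a3678 i29 a2997 i828 i1124 i503 a3591 a3173 (k4 a28 i2497 a107 a3667 (k1 a408 k0)))) (by decide +kernel)
def a3680 : PP 8 4 T 0x2000000000000000200000020000000000000000000000000000000001000000000 := rS 0x470f8741e0711884fa7f202d49c72188bca88e2990c005928920ae032692c32a10b0b40a615428d96fd (k8 a420 i122 a1822 a3679 i96 a1832 a1828 a3454 (k8 i822 i43 a2996 i708 i2776 i503 a440 i495 (k8 a3549 a349 a252 i829 i1124 i1125 i2752 i2658 (k8 i1086 i1087 i1288 i959 i1556 a936 i2497 a2999 (k4 i456 i598 i2494 a2995 (k2 a3093 a3274 k0)))))) (by decide +kernel)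
def a3681 : PP 8 4 T 0x2101000000000000001001016100010000040000000000002020000001500800000 := rS 0xea8d42513932c5a4b (k8 i29 a1828 i624 i1086 i495 i822 a3275 i2494 (k1 a3108 k0)) (by decide +kernel)
def a3682 : PP 8 4 T 0x2000000000000000200000040000000004000000000000102020000001020000000 := rS 0xd934c648a0e25194f9ecf26f42b0d9a0d1d9cd02b72998412431f89d2e9931938e2a95abf4004d60a95c9110b06c0a0f55950427f4708c32752ca555b05 (k8 a32 a3680 i2761 i866 i1064 a2997 a3591 i1124 (k8 a930 i2497 i1125 i1657 i338 i611 i748 a437 (k8 a28 a107 a382 a408 i613 i740 a3638 a3643 (k8 a3681 i2491 i741 i1350 a837 a989 a331 i1422 (k8 i21 i1262 i1127 i829 a577 a3072 a1880 i1156 (k8 i1489 a3623 a1038 a455 i1008 a353 a418 a428 (k8 a260 a3639 a68 a112 a2943 i2045 a2286 i995 k0))))))) (by decide +kernel)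
def a3683 : PP 8 4 T 0x2000000000000000200000000040000004000000000000102020000001020000000 := rS 0x638ad4c3d570a44e233ab0d9a192cb1442852a4451c06 (k8 i742 i1124 a28 i1125 a455 i2497 a688 i866 (k8 a2997 a3623 a1038 i1064 a3591 a331 a443 a3682 (k4 a1827 i460 i901 i336 (k1 i2032 k0)))) (by decide +kernel)
def a3684 : PP 8 4 T 0x2000000000000000200000000050000000000000000000102020000001000000000 := rS 0x530d95d194d8e516906744d0cb94ca5d9663448189c1c30b0d9a711d89c5ea95abf4004d60a95c9110b06c0a0f55950427f4708c32752ca555b05 (k8 a32 a3680 i2761 i866 i1064 a2997 a3591 i1124 (k8 a930 i2497 i1125 i1657 i338 i611 i748 a437 (k8 a28 a107 a382 a408 i613 i740 a3638 a3643 (k8 a3681 i2752 a331 i1156 i2491 a3623 a1038 i1127 (k8 a3108 i741 i742 i1342 i1350 i1389 a989 a837 (k8 a3564 a3683 a69 i932 i931 a175 i1976 i1151 (k4 a25 a336 a3565 i460 (k1 i1916 k0)))))))) (by decide +kernel)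
def a3685 : PP 8 4 T 0x2000000000000000200000000010000000000000000000102020000001000000000 := rS 0x5722d76ce89a1932bf31b2926a25ba04e67b3c94cde6166a141a711d89c5ea95abf4004d60a95c9110b06c0a0f55950427f4708c32752ca555b05 (k8 a32 a3680 i2761 i866 i1064 a2997 a3591 i1124 (k8 a930 i2497 i1125 i1657 i338 i611 i748 a437 (k8 a28 a107 a382 a408 i613 i740 a3638 a3643 (k8 a3681 i2752 a331 i1156 i2491 i1489 a455 a3623 (k8 i1127 i1008 i829 a353 a418 a1880 a3072 a577 (k8 a3684 i1634 a3275 i616 a396 a837 a3641 a69 (k4 i932 i1683 a175 a3558 (k1 i626 k0)))))))) (by decide +kernel)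
def a3686 : PP 8 4 T 0x2000000000000000200000000010000000000000000000002020000001000000000 := rS 0x2bd368b5bc4d0c994b98c5a070f5083b0d419408653379850a7d61b341aa95abf4004d60a95c9110b06c0a0f55950427f4708c32752ca555b05 (k8 a32 a3680 i2761 i866 i1064 a2997 a3591 i1124 (k8 a930 i2497 i1125 i1657 i338 i611 i748 a437 (k8 a28 a107 a382 a408 i613 i740 a3638 a3643 (k8 a3681 i1489 a3623 a1038 i1541 a455 i1127 i1008 (k8 i829 i21 a3685 a374 a65 a2992 a403 a3610 (k8 i1302 i1303 i447 a989 a837 a3673 a69 i856 (k4 a175 a947 i500 a336 k0))))))) (by decide +kernel)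
def a3687 : PP 8 4 T 0x2000000000000000200000000000000000000000000000002020000001000000000 := rS 0x31c54e41f69a8152b57eb054a007205956213fc4446950d9511c19829855a4d3a9640a0f (k8 i338 i611 i866 i1064 i613 a3680 i1127 a32 (k8 a2997 i1124 i1125 i748 i2761 a3591 a28 a930 (k8 i2497 i1657 a437 a107 i740 a382 a408 a3638 (k8 a3643 a3681 a3686 a344 i90 i821 a417 a2753 (k1 a438 k0))))) (by decide +kernel)
def a3688 : PP 8 4 T 0x2001000000000000200000000020000000000000004000000020000001000000000 := rS 0x64042f00c50c2ad0283c944d2caa42e49 (k8 a3687 i739 a3454 i866 i613 a440 i338 i611 (k8 a3680 i1127 a438 a3655 a363 a349 i310 i1045 k0)) (by decide +kernel)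
def a3689 : PP 8 4 T 0x2001000000000000200000000020000000000000000000000020000001000000000 := rS 0x7037988944d2caa42e49 (k8 a3687 i739 a3454 i866 i613 a440 a3688 i1320 (k2 i488 a2988 k0)) (by decide +kernel)
def a3690 : PP 8 4 T 0x2000000000000000200000000010000000000000008000000020000001000000000 := rS 0x603494a1f3fa8c42090ec34e0b549034a00507aa42e7d56c144657251249a59 (k8 i866 i613 a3687 a440 a3657 i185 a32 a3680 (k8 a1978 i739 a3454 i338 i611 i487 i2276 i616 (k8 a208 i488 a65 a2992 i2874 i744 a2971 a3589 (k4 i182 a2241 a377 i2030 (k1 a44 k0))))) (by decide +kernel)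
def a3691 : PP 8 4 T 0x12000000001000001000000000400141018440000000000000001104554004400000 := rS 0x4d8ed6f13 (k4 a69 i856 a990 a991 (k1 a3489 k0)) (by decide +kernel)
def a3692 : PP 8 4 T 0x2101000000000001015001014110000011050000005000018020124101516400000 := rS 0x1368b671758d1257a1c56b93cb2c7a830429e1a500f0a44e9129a5d32e5518be28a9 (k8 a3454 a438 a363 i326 a364 a837 a989 i566 (k8 a102 a331 a443 i2030 a3108 a81 i2054 i182 (k8 i1436 i1308 i1387 a1448 a3564 i388 a3691 a3671 (k4 a2701 i2032 a5 i413 (k2 i491 i1151 (k1 a336 k0)))))) (by decide +kernel)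
def a3693 : PP 8 4 T 0x2001000000000001814401001004004001000000005000018020020001582000000 := rS 0x45b38bac6892bd0e2b3ca0ca0291394d2e99 (k8 a837 a989 i566 a331 a443 i183 i1436 a1448 (k8 i388 a3646 a3671 a2701 i2032 a5 i413 i491 (k1 a3558 k0))) (by decide +kernel)
def a3694 : PP 8 4 T 0x802100000000000001800004000000000004100000000000540020000001400001040 := rS 0xae6320cba0f (k4 i338 a5 a68 a2943 (k2 a108 a3104 k0)) (by decide +kernel)
def a3695 : PP 8 4 T 0x2001000000000000200000000200000000000000000000000020000001000000000 := rS 0x339746a5722e32781d0aa270c5ba050e510f93c10ca5f81d3e7d29a4d6a8f8b9d4682161b143a180688d0acd2bc14e273250be28994bb048c020098d42615485c924d2c8141ead (k8 a3680 i338 i611 i866 i613 a3687 i739 a3454 (k8 i1127 a3689 a3690 a3655 a349 i1123 i1533 a989 (k8 a837 a438 a363 a440 i1093 a117 a32 a3657 (k8 a2010 a1949 i185 i463 i1045 a3664 a277 a276 (k8 i744 i1122 i1064 a405 i1133 a201 a1109 i566 (k8 a1978 a428 i1380 i1452 i209 a2241 i1389 a3693 (k8 i1309 a3648 a3072 a577 a467 a3694 a2701 i387 (k8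 i388 a345 i1854 a3608 i625 i626 a534 i1950 k0)))))))) (by decide +kernel)
def a3696 : PP 8 4 T 0x2001000000000000200000000000000000000000000000000020000001000000000 := rS 0x116af671758d1215a1cf2070fafd06d2651409f43869f94aa372b043ac56188468461686036331cad41a02388bc029344c51329731a862e674f98452273a8141e8f66a14faad8288caeab299cd5217251249a59 (k8 i866 i613 a3687 a440 i739 a3454 i1093 i566 (k8 i583 a3657 i185 a32 a3680 a1978 a1949 a2010 (k8 i1133 i338 i611 i1064 a331 a443 i1127 a428 (k8 i121 a405 a3689 a3690 a989 a837 a438 a754 (k8 a1109 a3655 a363 a117 a349 i463 a201 a401 (k8 i193 i189 i1045 i1000 i1123 i1122 i744 a276 (k8 a277 a3664 i1533 a364 i326 a3695 a3692 a35 (k8 a133 i760 a467 a439 a393 a374 a396 a3693 (k8 a402 a1448 a3648 i388 a2701 i2032 a5 i413 (k2 a3104 i491 (k1 a3558 k0))))))))))) (by decide +kernel)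
def a3697 : PP 8 4 T 0x12000000000000000000000000000200000001050000000000000000000000000000 := rS 0xdf15 (k2 a57 i1059 (k1 a389 k0)) (by decide +kernel)
def a3698 : PP 8 4 T 0x802000000000000000200000000000104004000000004000000020000001000000000 := rS 0xa1519fd34be4b98552173eabc3e1d5a93c6e21528258246568ad165d6729e323a6303446cd2b92893051a00802fc269640a0f (k8 i338 i611 i866 i613 a3696 a3638 a349 i1122 (k8 a32 a3687 a440 a3657 a2010 i185 i463 a2943 (k8 i412 a345 i2203 i413 a5 i491 a8 a3680 (k8 i1123 i1533 a369 a2241 i744 a446 a74 a1692 (k8 i741 i182 a427 a1978 i739 a3454 i1127 i1983 (k4 a3558 a336 i1723 i1720 (k2 a2914 i2030 k0))))))) (by decide +kernel)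
def a3699 : PP 8 4 T 0x802000000000000000200000000000000004000010004000000020000001000000000 := rS 0xdf1549264fa5756c14e6a90b928924d2c9e61afc (k8 a3696 a2220 a398 i866 i613 a3687 a440 i739 (k8 a3454 i1093 a32 a3680 a3657 a1978 a3697 a3698 (k2 a115 i1321 (k1 a389 k0)))) (by decide +kernel)
def a3700 : PP 8 4 T 0x802000000000000000200000000000000004000000004000000020000001000000000 := rS 0x2dd329b28c54e07b8cb38748b6343506811597522cd8288cae535485c94492787c120d1a00802fc269640a0f (k8 i338 i611 i866 i613 a3696 a3638 a349 i1122 (k8 i463 a369 i182 a74 a3687 a440 i739 a3454 (k8 i566 a3657 i185 a32 a2010 a102 a5 a8 (k8 a45 a68 a2220 a2943 i491 i412 i413 a345 (k8 i1980 a3699 a117 i1358 i1448 a2949 i801 a3371 k0))))) (by decide +kernel)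
def a3701 : PP 8 4 T 0x12000000000000000200000000000000000000020004000000020000001000000000 := rS 0x519fd42518ac14ce232b9292aa90b9243e090e93c36020283c420d00bf09a59 (k8 i866 i613 a3696 a3638 i463 i744 i338 i611 (k8 a349 i189 a74 i741 a369 i182 a3687 i739 (k8 a3454 i1100 a440 a3657 i185 i121 a32 a117 (k4 i1358 i795 i800 a263 (k1 a2978 k0))))) (by decide +kernel)
def a3702 : PP 8 4 T 0x2000000000000000001001000100800004012000000000000000020001552000000 := rS 0x7f51a85042f (k4 i2747 i1074 i310 i326 (k2 i925 i2030 k0)) (by decide +kernel)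
def a3703 : PP 8 4 T 0x2000000000000000200000000000100004000000004000000020000001000000000 := rS 0x714b434c2a90babd169b3c0aa268561b358246528841a340c008020507ad43a4f0f825f8233e95c9449269655b05 (k8 a32 a3680 i866 i613 a3687 a440 a3657 a1978 (k8 i185 a3696 a369 i182 a74 i741 a1692 i338 (k8 i611 a3638 a349 i1045 i1122 i463 i744 a2241 (k8 i1123 i1533 a2010 a276 a1949 a3700 a2701 i388 (k8 a3702 i1854 a427 i739 a3454 i1127 a3608 a336 (k2 a3701 i1856 k0)))))) (by decide +kernel)
def a3704 : PP 8 4 T 0x2000000000000000200000000000000004000000004000000020000001000000000 := rS 0x3f285a6a31f0b972981d0aa26cd429f4461f0ead49e570c128923410b0d4a0d04c15824601005f84d2c8141ead (k8 a3680 i338 i611 i866 i613 a3696 a3638 a349 (k8 i1123 i1533 a32 a369 i463 a2241 a276 i744 (k8 i1122 a3687 a440 i1045 a3657 a74 a1692 i741 (k8 i182 i185 a1978 a1949 a2010 a3700 a2701 i387 (k8 a3703 i2784 i1106 i1107 i327 a359 i2233 i2030 (k1 a1066 k0)))))) (by decide +kernel)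
def a3705 : PP 8 4 T 0x400000000004002000000000000000000000000000210008080040000000000000000000000000000 := rS 0x104bf5d339707149c353715 (k8 a57 i154 a35 i1638 i800 a447 a701 a1601 (k2 i1457 i1684 (k1 a959 k0))) (by decide +kernel)
def a3706 : PP 8 4 T 0x2000000000000000200000000010200008000000000000000020000001000000000 := rS 0x126bb511fe87173e88d2a735485c3e1d5a93cae4a248854a0d04c15824601005f84d2c8141ead (k8 a3680 i338 i611 i866 i613 a3696 a3638 a349 (k8 i1123 i1533 a32 a369 i463 a2241 i744 a3687 (k8 a440 a3657 a74 a1692 i741 i182 i739 a3454 (k8 i1093 i1100 i185 a1978 a405 a3610 a3705 i2030 (k2 i1683 a2971 (k1 a1601 k0)))))) (by decide +kernel)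
def a3707 : PP 8 4 T 0x2000000000000000200000000000200008000000000000000020000001000000000 := rS 0x5d20d266e5026e2e7d2bab60a955485c300200bf00a0f251249a59 (k8 i866 i613 a3687 a440 i338 i611 a3696 a3638 (k8 a349 i1045 i739 a3454 i1100 a32 a3680 a3657 (k8 a1978 a405 i154 a3706 i311 i1321 i1439 a3392 (k1 i1684 k0)))) (by decide +kernel)
def a3708 : PP 8 4 T 0x2000000000000000200000000000000000000000004000000020000001000000000 := rS 0x3fa8d428217a692ebb38b3a1a788ca65169d3dd3d0d174f98522a90b9f446af0f8756a4f2b86094491a0854a0d04c15824601005f84d2c8141ead (k8 a3680 i338 i611 i866 i613 a3696 a3638 a349 (k8 i1123 i1533 a32 a369 i463 a2241 i744 i1122 (k8 a3687 a440 i1045 a3657 a74 a1692 i741 i182 (k8 a427 i185 a1978 i739 a3454 a102 i1127 a428 (k8 a405 a3704 a20 i818 i1645 i492 a3707 a2965 (k8 a3599 a3630 a463 a3701 i1950 i1856 a336 i2747 (k4 i1074 i310 i326 i926 (k1 i2030 k0)))))))) (by decide +kernel)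
def a3709 : PP 8 4 T 0x2000000000000000200000000000000000000000000000000020000001000000000 := rS 0xa037988300200bf09449029341e59 (k8 i866 i338 i613 i611 a3687 a440 a3696 a3638 (k4 a349 i1045 a3708 i1320 (k2 a3690 i311 k0))) (by decide +kernel)
def a3710 : PP 8 4 T 0x2000000000000000200000000000000000000000008000000000000001000000000 := rS 0x3e7d51875427f37ad5242d299d8a2a90ba94e6c172084461a0000e0a6702c44b04c2492c8441 (k8 a3709 a3000 a3663 a3675 a440 i613 a373 i2410 (k8 i121 a32 a3530 a349 i446 a3459 i2538 a107 (k8 a408 i2579 a1609 i708 a3454 a491 i614 i536 (k8 i1238 i616 a208 i1319 i844 i819 i782 a2971 (k2 i1630 i271 (k1 i2030 k0)))))) (by decide +kernel)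
def a3711 : PP 8 4 T 0x2022002000000000000000000001000001000000000005100000000000000000000000 := rS 0x8b3c1ee328289abd3271 (k8 a117 a57 a427 a2220 a1590 a2965 i815 a406 (k2 i1853 a3608 k0)) (by decide +kernel)
def a3712 : PP 8 4 T 0x2022000000000000000200000000080000000000000000000000000000001010000000 := rS 0xf7138c9e504af459ac4eca033f4e29915a449e6156944baa911c14ced30bb1622210d00006052c18d02535b825564c2492c8441 (k8 a3709 a3000 a3663 a3675 a440 i2393 i201 a118 (k8 a383 a4 a3710 i613 i2410 a3530 a349 i446 (k8 i2538 a373 a3128 i708 a3515 i121 a32 a3459 (k8 a3454 a543 a491 a3680 i1127 i790 a110 a818 (k8 a57 a117 a3711 a1807 a3275 a3267 a3525 i617 (k4 i625 a1899 a3608 a561 (k2 a68 i815 (k1 a406 k0)))))))) (by decide +kernel)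
def a3713 : PP 8 4 T 0x22000000000000000200000000080000000000004000000000000000001010000000 := rS 0xf09a8ca646e7b13d152e7189a0858fc8aa25225d17a5552d30d00006170298c7a815b94c9e61569449849259085641 (k8 a3709 a818 a3000 a3663 a3675 a440 a491 a3680 (k8 i1127 i790 a383 a118 a4 a3424 a3710 i2410 (k8 i708 a3530 a349 i446 a3515 a3454 i1100 i1077 (k8 a543 a110 i281 a3712 a438 a120 a672 a2220 (k8 i1239 i1243 a48 i735 i815 a1577 i980 a2771 (k2 a162 a406 (k1 i1073 k0))))))) (by decide +kernel)
def a3714 : PP 8 4 T 0x2000000000000000200000000010000000000004000000000000000001010000000 := rS 0xb62a89499c286b451c322e75478bd2aa952b05c82111c14cf112c1f4ec7f0fb4c34000185c9849258148441 (k8 a3709 a3000 i2410 a3663 a3675 a440 i708 a3530 (k8 a349 i446 a3515 i271 a897 i614 i1630 i613 (k8 a373 i121 a32 a3459 i2538 a107 a408 a1609 (k8 a3454 i1100 i1077 i875 i1063 a405 a377 a3713 (k8 i2030 a84 a201 i1369 a3633 a117 i1239 a120 k0))))) (by decide +kernel)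
def a3715 : PP 8 4 T 0x22000000002000040000000000004001010000924005100000000000240509400002 := rS 0xa4f27a4d46532376389d9a97a2a0a262f1fbf22aa9 (k8 a3454 a117 a438 i2909 i1077 a2220 a1590 a48 (k8 i1376 i2564 i736 a1581 a1577 i980 a2771 a162 (k4 i1448 i1073 i1890 a3618 k0))) (by decide +kernel)
def a3716 : PP 8 4 T 0x2002000002000000000000000004100000100924005100520004000040509000000 := rS 0x293c9e98e9a13b3626825bc652315 (k8 a117 a110 a2965 i802 a672 a2265 i2564 i736 (k4 a3055 a1581 i1448 i1073 (k2 i1890 a3618 k0))) (by decide +kernel)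
def a3717 : PP 8 4 T 0x2000000000000000200000000010000000000004000000000000000001000000000 := rS 0x16e833c9ede229530d8729886bf1023f8aa24e02c298713e61568acea913b144baa90cb4c2ee41088c340001c14ce05889609849259088263 (k8 a3710 a3709 a3000 a3663 a3675 a440 i613 a373 (k8 i2410 i121 a32 a3530 a349 i446 a3459 i2538 (k8 a107 i708 a3515 i1037 a3454 a543 a491 i614 (k8 a110 i1063 a818 a3680 i1127 a428 a3714 a1820 (k8 i782 i781 i1343 a117 i2909 i2828 a438 a3715 (k8 a3716 i1937 i980 i981 i274 a376 i3100 a3116 (k2 a2105 i801 (k1 a2740 k0)))))))) (by decide +kernel)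
def a3718 : PP 8 4 T 0x2000001000000000000000000400200000000008000000000000000040009000000 := rS 0xa4f039 (k4 i1936 i1059 i274 a3116 k0) (by decide +kernel)
def a3719 : PP 8 4 T 0x2000000000000000000000041000100000402010005100000000000000000000000 := rS 0x26d2e8b (k4 i1853 i1856 i1074 a336 k0) (by decide +kernel)
def a3720 : PP 8 4 T 0x2000000000000000200000000010440000000000000000000000000001000000000 := rS 0x3d31d9a801ba716e8aa22451e87618ec470533b1622212c454a719429e532f1039447aa715abdf883440783a1986b4c3400019c4dc635485c0a5d30ab4ec4c2492c8441 (k8 a3709 a3000 a3663 a3675 a440 i614 a3680 i1127 (k8 a543 i2410 i708 a3454 a3710 a3717 i57 a3530 (k8 a349 i446 a3515 a357 i1037 i1232 a377 i270 (k8 i2918 a903 a427 a818 i2152 i2857 a491 i1301 (k8 a567 a3718 a3719 i1632 a2965 a421 a337 i613 (k8 i2538 a373 a3128 i121 a32 a3459 a339 a487 (k8 a358 i875 a110 a422 a336 a116 i618 i1774 (k4 a672 i1910 i1641 a2287 (k1 i1893 k0))))))))) (by decide +kernel)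
def a3721 : PP 8 4 T 0x2000001000000000000000000000000000200000000000000001000050000000000 := rS 0x4f13 (k2 a45 i1769 (k1 a127 k0)) (by decide +kernel)
def a3722 : PP 8 4 T 0x2000000000000000200000000010000000000000000000000000000001000000000 := rS 0xcd6389d9e384d25d0229429e532f1578f506b953bf110070f0761a713727cc2ad159d8a25d43b0d521911c14ced30ba958b11108680003029609849259088263 (k8 a3710 a3709 a3000 a3663 a3675 a440 i613 i2410 (k8 a3530 a349 i446 i2538 a373 a3128 a1609 i708 (k8 a3515 i121 a32 a3459 i1037 a3454 a487 a358 (k8 a543 a491 i614 a818 a3680 i1127 a428 a3717 (k8 i57 a357 i1232 a377 i1301 i270 a903 i2152 (k8 i1403 i2918 i2857 a427 a567 a3718 a3719 i1632 (k8 i275 a3721 i1323 a3720 i1444 i1151 i1876 i299 (k2 i810 i2032 k0)))))))) (by decide +kernel)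
def a3723 : PP 8 4 T 0x2000001000000000200000000400000000001000000000000001000001000000000 := rS 0x18ecd4e229374413a451ec31d88e0a6769b1622212c0fc56974cc51fa525485cc2ad31a14ec290d00006052612496af032808441 (k8 a3709 a3000 a3722 i820 i460 a3663 a3675 a440 (k8 i2410 a3530 a349 i446 i275 i614 i1632 a3710 (k8 a3680 i1127 i708 a3454 i819 a452 a438 a837 (k8 a989 a818 i402 i613 i2538 a373 a3128 a3515 (k8 i121 a32 a3459 a339 a487 i875 a110 i825 (k4 a442 a111 a336 i618 (k2 i1910 i1641 (k1 a3603 k0)))))))) (by decide +kernel)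
def a3724 : PP 8 4 T 0x2000000000000000000000041000140000000000005000000002000000000000002 := rS 0x45a6c723b (k4 a339 i1877 i1258 i452 (k1 a336 k0)) (by decide +kernel)
def a3725 : PP 8 4 T 0x2000000000000000200000000400000000001000000000000000000001000000000 := rS 0xcb5c2f9349d6753d16cc08b1de0271eabe2e9f15a45568f6188e0a6762c4442580325d33147e94940a90b9855a63429d8521a0000c0a4c2492c8441 (k8 a3709 a3000 a3663 a3675 a440 i2410 a3530 a349 (k8 i446 i275 i614 i1632 a3710 a3680 i1127 i708 (k8 a3454 a3722 i819 a452 a438 a837 a989 i820 (k8 i613 i2538 a373 a3128 i121 a32 a3459 a487 (k8 i875 i2393 a110 a818 a428 a405 i460 a3724 (k8 i825 a3723 a27 a441 a3603 i451 a36 i810 (k4 i1910 a336 a1490 i1151 (k2 a396 a3564 k0)))))))) (by decide +kernel)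
def a3726 : PP 8 4 T 0x1000000000000002101002000000000014101005000000005000800005000000000000055500000082 := rS 0xb865a699cbba7abd16cc08b1d2e99 (k8 a837 a989 a27 a441 i2032 i451 i459 a36 (k4 i1949 i810 a336 a1579 (k2 i1151 a3564 k0))) (by decide +kernel)
def a3727 : PP 8 4 T 0x2000001000000002004000000000000000000800000000000000440000000000000 := rS 0x1cc659c7a (k4 i809 i810 a390 i1976 (k1 a419 k0)) (by decide +kernel)
def a3728 : PP 8 4 T 0x2000000000000000200000000000000000001000000000000000000001000000000 := rS 0x32d44be63335e2275e8de8aa614a14c2ad15aacec87618ec470533b1622210d00006580e8196a997e94940635485c9849258148441 (k8 a3709 a3000 i2410 a3663 a3675 a440 i708 a3454 (k8 a3710 a3722 i819 a452 a837 i880 i820 i89 (k8 i613 a3530 a349 i446 i2538 a373 a3128 i121 (k8 a32 a3459 a339 a487 a358 i614 i2393 a818 (k8 a3680 i1127 i1632 i275 a3725 a410 i1916 i1984 (k8 i1915 a3726 a3727 i2032 i337 i336 a396 a3275 k0)))))) (by decide +kernel)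
def a3729 : PP 8 4 T 0x2000000000000000200000000000000000000000000000000000000001000000000 := rS 0x2015cb745c4cf0994bbf5067129280c6a90b975224c2492c0a4215904c2ad (k8 a3680 i1127 a3709 a818 a3000 i2410 a3663 a3675 (k8 a440 a110 a543 i708 a3454 a3710 a3722 i819 (k8 i2555 i919 a452 a989 a837 a3728 a398 i1853 (k4 i1932 a3719 a3528 i1861 k0)))) (by decide +kernel)
def a3730 : PP 8 4 T 0x2000000000000000200000000000000000000000000000020000000000000000000 := rS 0x8641069d8b024 (k4 a3729 i613 i614 i2275 (k2 i2561 i859 (k1 a3000 k0))) (by decide +kernel)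
def a3731 : PP 8 4 T 0x2000000000000000200000000000000000000000000000000000000000000000002 := rS 0x1ae523864ea40219649a24 (k8 a3729 a3730 a3549 i858 a3000 i1064 i349 i205 (k2 a409 a3598 (k1 a3593 k0))) (by decide +kernel)
def a3732 : PP 8 4 T 0x2000000000000000200000000000000000000000000000000000000000000000000 := rS 0x11e480685c0801019008e432c9344905 (k8 a32 a3729 a3730 a3549 i858 i205 a3000 i1123 (k4 a3731 a349 i740 i463 (k2 i261 a1102 (k1 i1124 k0)))) (by decide +kernel)
def a3733 : PP 8 4 T 0x402000000000000000000000000400140010000000000000000021000140000000020 := rS 0x729b8c0a44e3b1785c027b3c921221a (k8 i260 i912 i261 a353 a418 i2 i740 a1829 (k4 a435 a331 a443 a406 (k2 a41 a42 (k1 a3489 k0)))) (by decide +kernel)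
def a3734 : PP 8 4 T 0x2001000001000000400000015000000000000000005010000400010002000005140 := rS 0xcaa4820b5a4c9 (k4 a3732 a1807 a3572 a3587 (k2 a1719 a63 (k1 a1787 k0))) (by decide +kernel)
def a3735 : PP 8 4 T 0x2001000001000001000008015004001005000000005010006400010002000401145 := rS 0xea8f3395e0a0e65ad6227f50b4a1ac9 (k8 a3732 a118 a1807 a344 i842 a38 i886 a2107 (k4 a3734 a17 a3001 i542 (k2 a1102 a1851 (k1 a2401 k0)))) (by decide +kernel)
def a3736 : PP 8 4 T 0x2000001001000002044000000000000000000000000000000000000004000000000 := rS 0x18b4f (k2 a36 i1791 (k1 a379 k0)) (by decide +kernel)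
def a3737 : PP 8 4 T 0x2001000001000000000000000000100000000000005010000420000042000001020 := rS 0x744795ccf05563353ec31b3c420af559409eb642a04bb123fa847a7344b485aa78a25c5227018bd524b0f8d42e013d94d0ec7488680e71049bc90c9 (k8 a3732 i261 i1008 i263 i750 i519 i260 i912 (k8 i410 i927 i2577 a418 i2 i740 i2210 i2136 (k8 a3004 a1832 a1829 i24 a331 a443 a989 a438 (k8 a1825 a3572 a1807 a337 a417 a335 a344 i842 (k8 a3733 a5 a45 a77 a3508 a125 a577 i498 (k8 i499 a1605 a1818 i524 i1953 i997 a3736 a3735 (k4 a445 i1622 i1582 a1102 (k2 a2401 a1851 k0)))))))) (by decide +kernel)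
def a3738 : PP 8 4 T 0x112002000000000080400001000040000000040000000010000420000000000005140 := rS 0x2867d523055aab (k4 a97 a420 a44 a1719 (k2 a2640 a129 (k1 a403 k0))) (by decide +kernel)
def a3739 : PP 8 4 T 0x12000000000000000002000000000000000000014000000000000009000008000000 := rS 0x39c551292 (k4 i1613 i1345 a115 i835 (k1 a389 k0)) (by decide +kernel)
def a3740 : PP 8 4 T 0x1000000000000012200000000000000041100014100000000040000000000000401000040050005140 := rS 0x1161b147ea269a81966b (k8 a464 a385 a1835 a1719 a1834 i402 i1654 i329 (k2 a2230 a132 k0)) (by decide +kernel)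
def a3741 : PP 8 4 T 0x112002000001000000041008000000000000000000000000000420000040000001160 := rS 0x61bc598b4509f686a45e8f68a291387c3a1a56aacff040185c020f2aa3890c9 (k8 a3732 i261 a2898 i766 i339 i2 i740 i24 (k8 a1102 a930 a97 a420 i260 i2503 i2136 a331 (k8 a443 a116 i1783 i1989 a3740 a129 i1325 i364 (k4 a403 a537 a2763 a307 (k1 a3736 k0))))) (by decide +kernel)
def a3742 : PP 8 4 T 0x2000000001000000000000000000100000000000005010000420000042000001020 := rS 0x28148d351ad4a0b760b2c1f0d40c106455189fe248e8cbf0de090187c2e013d9e4a61d88b1d221a039c490c9 (k8 a3732 i261 i750 i519 i260 i912 i410 a38 (k8 i2503 i2577 a353 a418 i2 i740 i2136 i24 (k8 i263 i1008 a3737 a2965 a2898 a406 a930 i984 (k8 i766 i873 a1102 a45 a2220 i339 a385 a3739 (k8 a3741 a2265 i1397 i325 a3738 a2108 a377 i364 k0))))) (by decide +kernel)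
def a3743 : PP 8 4 T 0x2001000000000080400002000000140010104150000000400000000450048000000 := rS 0x5b144de91 (k4 i912 i1400 i1397 a3508 (k1 a577 k0)) (by decide +kernel)
def a3744 : PP 8 4 T 0x2000000000000080000000000000100010104014002000400000000450048000000 := rS 0x16c5148bf52e73 (k4 i1017 a449 a397 i912 (k2 i1311 a3508 (k1 a577 k0))) (by decide +kernel)
def a3745 : PP 8 4 T 0x12001000000000000000000004000140010100050000010002400000452048005140 := rS 0x1f686a45a9d55a6565c10f653889fd42d2 (k8 a1807 a344 i842 a38 i2577 a418 a3587 a385 (k8 a63 a445 i1010 a3743 a1719 a129 i1325 a403 k0)) (by decide +kernel)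
def a3746 : PP 8 4 T 0x12001000000000000000001044000140011100050000010006400410452048401145 := rS 0x3f08b093ca53ab351ecb3395e0a0e88a1d227f50b49e2c9 (k8 a3732 a1818 a1807 a344 i842 i912 i927 a38 (k8 a3745 a17 a3001 i542 a2107 a1102 a2010 a1851 (k4 a2144 a2401 a1888 i1953 (k2 i375 a1917 k0)))) (by decide +kernel)
def a3747 : PP 8 4 T 0x2000000000000000000000000000100000000010002010000420000042000001160 := rS 0x10c5aabd565037215025d3fc49423d16b491229018ec5e4b0f8d42e013da5ce653240694efd (k8 a397 a1825 i260 i261 i2577 i1017 a449 a418 (k8 i2 i740 i2210 i2136 a3004 a1829 a435 i24 (k8 a443 i1277 a1807 a329 a335 a344 a3733 i842 (k8 a5 a45 a77 a3744 i1009 i498 i499 i2892 (k2 a3746 a357 k0))))) (by decide +kernel)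
def a3748 : PP 8 4 T 0x2100000000000000400001004000000000050054002010006000010002000401005 := rS 0x24cea672bae51e0e3bbf52ac9 (k8 a3732 i1019 a397 i2508 a3587 a1102 a1261 a3001 (k4 i542 a1851 i1282 i2044 k0)) (by decide +kernel)
def a3749 : PP 8 4 T 0x2000000000000000000001000000014400050154000000002000000002000000000 := rS 0x2e62277 (k4 i2508 a38 a2352 i2044 k0) (by decide +kernel)
def a3750 : PP 8 4 T 0x2000000000000000440001005000000000050004006010006408210002008401005 := rS 0x186c5190c51c933a9ad5a6507c112a717e9cca611 (k8 i1874 i2577 i1017 a397 i750 i1019 a3748 a17 (k8 a63 a445 a464 i1010 a1109 a3749 i984 i873 (k2 i1880 i2175 (k1 a132 k0)))) (by decide +kernel)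
def a3751 : PP 8 4 T 0x1000000000000002000000000000000440001001400000000050004006010006408250002008401005 := rS 0x11e953a8cccac48230cd69307aa8e2fd3994d7a11 (k8 i1874 i1412 i2577 i1017 a397 i750 a3750 a1817 (k8 i1636 i586 a2427 a3587 a132 a63 i1616 i1010 (k2 a1042 i873 (k1 a3749 k0)))) (by decide +kernel)
def a3752 : PP 8 4 T 0x2000000000000000000000000000100000400000006010000420000042000001020 := rS 0x23e2e334e310ea6b32c11860f5fab568111b8e28a3e4d0a44e035492c6a173d9e43b113bb1d2297538f45a01659fd42815b945fa7d861bc3e732986a2a880401ce248 (k8 i261 i750 i519 a3747 i262 a337 i260 i2577 (k8 i1017 i2136 i1317 a389 a340 a397 i1309 a577 (k8 a3072 i197 i842 i1388 i2 i1264 a122 a1825 (k8 a449 i912 i410 i2508 a38 i2503 a353 a418 (k8 i740 i2210 a3004 a1832 i24 a331 a443 i2045 (k8 i2031 a111 i1444 i994 i1874 a3751 i1288 i1455 (k8 i343 i376 a3587 a63 a464 i1010 a132 i1879 (k4 i1616 a399 i873 a466 k0)))))))) (by decide +kernel)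
def a3753 : PP 8 4 T 0x1000000000001002001002000000000000102001405400040000010004010000000000002000001200 := rS 0xb84aaee9f1732b0a080f49ab686c9 (k8 a3732 a84 i1288 i1368 i343 a3587 a1762 a63 (k4 a192 a13 i1944 a1042 (k2 a447 a2423 k0))) (by decide +kernel)
def a3754 : PP 8 4 T 0x20002200002000000004010000000000000000000000000000000000010000000001000 := rS 0x303345d840f4fa2d3ac9 (k8 a3732 a347 a52 a33 a17 a199 a192 a3410 (k2 a3115 i1505 k0)) (by decide +kernel)
def a3755 : PP 8 4 T 0x2000000001000000000000000000100000000000004010000420000042000001020 := rS 0x2a81d0567b356a9d45a6d3ec58c3c17b13a2a08fb0c37c54fecb4428410a739bf4c071038a44e2101aa4961f1a85c027b3c94c3a4888a1d221a (k8 i260 i912 i927 a38 i261 i2503 i2577 a353 (k8 a418 i2 i740 i2210 i2136 a3004 a1832 i24 (k8 i744 a331 a443 i519 i750 a3742 a397 i1017 (k8 a1825 a3747 i197 i262 i1388 i842 a337 i1317 (k8 a389 a340 a3752 a48 a68 i1416 a1898 a406 (k8 a1043 a33 a41 a52 a347 a3753 i894 a569 (k4 a3754 a3587 a3748 a1817 k0))))))) (by decide +kernel)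
def a3756 : PP 8 4 T 0x21000000000000000000000000000000000100040000100020000000020104010a0 := rS 0x3fad4e2734aa949e2c51a4e2c752b83897113ba3c0601 (k8 i2 i24 a1102 i2508 a38 a3004 a3587 a3001 (k8 a1851 a466 a19 a1823 i520 i1221 i1380 i979 (k4 i976 i1239 a1692 i843 (k1 a3749 k0)))) (by decide +kernel)
def a3757 : PP 8 4 T 0x2100000000000000040000040000001004000004008010002000010002010401020 := rS 0xe07af16929c0e7d56a4c6f164f464ea8566bf4ce5747838023b5492e22774d82406c9 (k8 a3732 i24 i1349 a412 i2508 a38 a3004 a1832 (k8 a435 i2 a3587 a1102 a3001 i542 a2898 a2010 (k8 a1949 a1851 a2737 a2401 a466 i997 a19 i1352 (k8 a1978 a3756 a1825 a1807 a1818 a335 a419 a1837 k0)))) (by decide +kernel)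
def a3758 : PP 8 4 T 0x2200001001000000040000000000001405005500000000000000510006000001000 := rS 0x331869f1b4653acf33c586711 (k8 a38 i287 a466 a722 a368 a399 a3410 a419 (k4 i997 i1956 i2046 a3736 k0)) (by decide +kernel)
def a3759 : PP 8 4 T 0x2201001001000000000000001000000001005500008000000400410046008001141 := rS 0x2ad4a9519238e639508f5a4a743b1d229b07ab572cb (k8 a385 i1405 a445 a17 a412 i912 i410 i927 (k8 a1825 a1807 a335 a344 a1837 i834 a3758 i873 (k4 i1102 i289 i538 a1719 k0))) (by decide +kernel)
def a3760 : PP 8 4 T 0x10020000000000000000000000400000000005000040001004000000000000104000a0 := rS 0x2dca30c389cc9e2c (k8 i520 i1221 i976 i1239 a389 a65 a118 a108 k0) (by decide +kernel)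
def a3761 : PP 8 4 T 0x2200001001000000000000040000000000000000008000000420000042000001020 := rS 0xa25a9414a725bb04643138c351cab27bf00e854097624831489c76a91a85c027b3c94c3a1a889dd8f1537934120307ab572cb3a99490c9 (k8 a3732 i261 a63 i1010 a385 i1405 a445 a17 (k8 i24 i1349 i788 i1320 a51 i410 i2508 a38 (k8 i260 i2503 i2577 a353 a418 i2 i740 i2210 (k8 a1832 a435 a331 a443 a1898 a127 a5 a45 (k8 a77 a3760 a3759 a74 a97 a2898 a1590 i749 (k8 i984 i873 a3739 a3741 a389 i289 a2265 a228 (k2 a1834 i325 k0))))))) (by decide +kernel)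
def a3762 : PP 8 4 T 0x2000000000000000000000000000100000000000008000000005000400000010140 := rS 0x112d3530b62aaf (k4 i540 a51 i1237 a1811 (k2 a1917 i283 (k1 a120 k0))) (by decide +kernel)
def a3763 : PP 8 4 T 0x2000000001000000000000000000100000000000000010000420000042000001020 := rS 0x66ce1cc6104b740c312e71398b00cc208b146e3f1ebc01f0457824de9b8a9885e350b8049a033d9e43a4843b1d221a (k8 i260 i912 i410 i927 i261 i2503 a353 a418 (k8 i24 i788 i2 i740 i2210 a1829 a3755 a51 (k8 a412 i1320 i1349 i540 a3757 a17 a3761 a365 (k8 a6 a376 a49 a441 a199 a3762 i520 i976 (k8 i1239 i1243 a389 a4 a118 i2045 a3055 a42 (k2 a3754 i290 (k1 a3326 k0))))))) (by decide +kernel)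
def a3764 : PP 8 4 T 0x1002000002000000000040000040000001004000004008010002400010102008401120 := rS 0x14aa3608c862b9442381ecb69bf2082f0e8fc2207 (k8 i520 a441 a6 i2503 a1829 a3757 a1818 a1917 (k8 a385 a17 a2898 a120 i1405 i984 i873 i1345 (k2 i2162 i289 (k1 a2108 k0)))) (by decide +kernel)
def a3765 : PP 8 4 T 0x1002000002000000000000000000000000000100004008010000420000142000001120 := rS 0xb628a0cbb1250c65a48a7eab83e350b804f679299210ec7488687e07 (k8 i520 a6 i260 i912 i410 i927 i261 i2577 (k8 a353 a418 i2 i740 i2210 i2136 a3764 a427 (k8 i539 a1807 a52 a344 a406 a5 a68 i499 (k2 a3061 a577 k0)))) (by decide +kernel)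
def a3766 : PP 8 4 T 0x2000002000000000000000000000200000000000000010000420000042000001020 := rS 0xa365a95820f4441064555334d1cab56bf0c607168dc062f548682e018a9bd027924024c2c9 (k8 a3732 a448 i263 i261 a353 i1863 i1059 a57 (k8 i2 i740 i260 a1832 a1829 i24 a376 i980 (k8 i520 a3765 a837 a420 a97 a2898 a3219 a2041 (k8 i766 i873 a1102 a120 i339 i1614 i2172 a385 (k2 i2162 a1834 k0))))) (by decide +kernel)
def a3767 : PP 8 4 T 0x2000001000000000000000000000000000000000004000000020000042000001120 := rS 0x51a956ab92832c1e725bb0608322a8c61a8e55ab4bafc37c5624834c31c52275485c02790e8680e712439622472c93406c9 (k8 a3732 i24 i788 a506 i205 a38 a409 i261 (k8 i750 i519 i260 i2503 a353 i2 i740 a1832 (k8 a331 a443 i410 a3763 a1898 a127 a57 i1059 (k8 a837 a5 a420 a97 a2898 a1590 i984 i766 (k8 i873 a1102 a3739 a3741 a389 i339 a385 a2740 (k4 a171 a228 i289 i325 (k1 a1834 k0))))))) (by decide +kernel)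
def a3768 : PP 8 4 T 0x2000000000000000000000000000200000000000004000000020000082000001120 := rS 0x178955228c7cc153b198a9d8c244d6cb6183e089f19154628e57845f88b1e8bd521a0b804f6792401c8e592680e26c9 (k8 a3732 a8 i24 i788 a506 i205 i519 i261 (k8 a353 a418 i2 i740 i260 a1832 a1829 i1786 (k8 i1939 a837 i523 a427 a2898 i984 i766 i873 (k8 i2773 a1102 i339 i2174 a385 a464 a831 a406 (k8 a347 i1615 a132 i2202 i1694 a1811 i2236 a2108 (k2 i1671 i415 (k1 i1991 k0))))))) (by decide +kernel)
def a3769 : PP 8 4 T 0x402002000000000000000000000000100000000000004000002040000000000401005 := rS 0x2089047464f679 (k4 a353 a418 a2965 a2898 (k2 a406 a1102 (k1 a1063 k0))) (by decide +kernel)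
def a3770 : PP 8 4 T 0x2201000000000000000000000000000800005000004000000400000080008401120 := rS 0x286bf5eaa94b45448f8c0bb57d3d8cc508a75171861a44643189a5d52a7518f5a4076583d5a6b (k8 a464 a445 a17 a385 i519 a1807 a335 a1824 (k8 a1825 a1832 a989 a8 i984 i873 a1062 i2174 (k8 a406 a52 a347 i523 i1615 a132 a59 a1607 (k8 i1679 a1605 a1811 i1277 a80 i288 a1719 a1589 (k2 a367 a106 (k1 a404 k0)))))) (by decide +kernel)
def a3771 : PP 8 4 T 0x2001000000000000408000010100000000000000400000000400000000000015140 := rS 0x1f53d76a7 (k4 a1825 i1944 a13 a1777 (k1 i375 k0)) (by decide +kernel)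
def a3772 : PP 8 4 T 0x2201000000000000000000000000000000000000004000002400010082008401120 := rS 0x615ea228a3e522ee9ec2628458e381bb3521194eb3ccf1619a3cea6b569941ecb549ecf2e5889de26a71eb480ec9 (k8 a3732 i519 a1807 a335 a1825 a8 i2508 a38 (k8 a409 a353 a418 a1832 a385 a17 a63 a445 (k8 a464 i1010 a3770 i287 a466 a722 a368 a399 (k8 a3410 a406 i892 i992 i913 i411 i524 i1879 (k8 a132 a13 i1944 a3771 a1790 a80 i296 i1412 (k2 i1277 a2430 k0)))))) (by decide +kernel)
def a3773 : PP 8 4 T 0x402100000000000001800000001000141400040100045000002000000000000000000 := rS 0x864fc60f679 (k4 a353 a418 a406 a33 (k2 a2737 a1397 k0)) (by decide +kernel)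
def a3774 : PP 8 4 T 0x402101001000000001800010000000100400040100004000000020000000000008120 := rS 0x1ad5cc3088dd2061039202e014baa4ce35 (k8 i2210 i542 a1832 a989 i2 i740 i261 i519 (k8 i1391 a3773 i992 i524 a2030 a1605 a1421 i625 k0)) (by decide +kernel)
def a3775 : PP 8 4 T 0x2001000000000000000005000000010400000140005002002000000002000010120 := rS 0x144f8ae379c52ea93fa85a40749c5a2277 (k8 i2508 a38 a466 a19 i519 a1807 a344 i842 (k8 a1832 a989 i750 i1008 a1605 a3749 i500 i1542 k0)) (by decide +kernel)
def a3776 : PP 8 4 T 0x2001000000000005000005080001010401040150000004402000000002000000000 := rS 0x3e9bca28149c5a2277 (k8 i2508 a38 a466 a19 i1862 i500 a2145 a936 (k1 a3749 k0)) (by decide +kernel)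
def a3777 : PP 8 4 T 0x402001001000000001000005040101010401000100004002002000000002008018120 := rS 0xa7a453e871cb0d123e300ee227b3c9dd4e3d39a85a407 (k8 i519 a1807 a344 i834 a335 a1825 i2508 a353 (k8 a418 a38 a435 a3775 a1811 i1277 i375 i296 (k4 i928 a1888 i913 a1950 (k1 a436 k0)))) (by decide +kernel)
def a3778 : PP 8 4 T 0x2000000000000000000000000000100000000000004000000000000002000001120 := rS 0x23291450d820af4aa956acb67a74ea8566ae4a8672baad8eb7399fd1e0e50c15a4fd78c4c54035492c0ee5888d42e012c91cf67929868e2772410086c9 (k8 a3732 i859 a3000 i261 i2508 i750 i260 i2577 (k8 a353 a418 i2142 i867 i2 i740 i2210 a38 (k8 a409 i519 a3004 a1832 i24 a3763 a8 a61 (k8 a3769 a1807 a3772 a344 a3587 a1102 i842 i834 (k8 i850 a356 a1817 a3001 i542 i339 a2352 i889 (k8 a1949 a1851 a544 a2062 a3774 i768 a2144 a476 (k4 a3776 a3777 i524 i523 (k2 i992 a52 (k1 a406 k0))))))))) (by decide +kernel)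
def a3779 : PP 8 4 T 0x2000000000000000000000000000000000000000004000000000000002000001120 := rS 0x3c056982c9008647 (k8 i2142 i859 a3000 i867 a3778 a3768 a3767 a3766 k0) (by decide +kernel)
def a3780 : PP 8 4 T 0x2101000000000000400000000000000000050054002000000000000002000001020 := rS 0xb555838064b240d42e012c9008647 (k8 i2142 i859 a3000 i867 i2 i740 i2210 i261 (k4 a3004 i24 a3587 a1817 (k2 a1244 a3748 k0))) (by decide +kernel)
def a3781 : PP 8 4 T 0x2200000000000000000005000000154000150054000000000000000102000001020 := rS 0x18ccd62845049d45a6e303961a446431470ec3417009ecf313788a9ca592383cd675329208043 (k8 i859 a3000 i261 a63 i1010 a464 a17 i2142 (k8 i867 a409 a3763 a61 a8 a353 a418 i2 (k8 i740 i260 a435 a3749 i984 i873 a1062 i2174 (k8 i295 a406 a828 a52 a347 i2045 i523 i1615 (k2 i894 a132 (k1 i411 k0)))))) (by decide +kernel)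
def a3782 : PP 8 4 T 0x400000000000002200000000000000000004000040154820105054000000000400000180008401020 := rS 0x632f68ac508a093a8b4dafd0f181cb0d4891190c62e3b89bc41e6b (k8 a464 a17 a61 a8 a435 a432 i984 i873 (k8 a1062 a3633 i2174 i295 a406 i931 i1452 a828 (k8 a52 a347 i2045 i523 i1615 a48 i1416 a132 (k1 a3078 k0)))) (by decide +kernel)
def a3783 : PP 8 4 T 0x2000000000000000000000000000000000000000004000000000000002000001020 := rS 0x28a9b410fd0cc2628457ec71c0dd9a908ca759e678b0cd1f435a24d2a7535ab4ca0f821f6270c152dd026f8a9ccfe994b94596883028d422d7e820ee71299e4f6590b8d4341f24100864788b9402a9 (k8 a1832 i2 a409 a38 i2142 i859 a3000 i261 (k8 i2136 i260 i2210 i740 i867 a418 a353 i2577 (k8 i750 i2508 a3779 a369 i1264 i197 i2073 i263 (k8 i262 i1388 i1309 a989 a837 i842 i834 a337 (k8 i1317 a3072 a577 a3763 a389 a8 a340 a3780 (k8 a17 a63 a445 a464 i1010 a1042 a1109 a3781 (k8 a84 a3782 i287 a466 a722 a368 a399 a3410 (k8 a406 i892 i992 i913 i411 i1456 i524 i1879 (k4 a132 i372 i376 i933 (k2 i1443 a48 (k1 a422 k0)))))))))))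 (by decide +kernel)
def a3784 : PP 8 4 T 0x2200000000000000000002000000000000000000004000002400000000000001220 := rS 0x31c22374844e322a678cccef161b154b167244476070e9ecf2711093496270f88c2e01478684a815b94c804301a85fa5130220ea65 (k8 a63 i1010 i262 i263 i2852 a369 i2139 i24 (k8 i700 a3000 i826 a577 a3072 a3783 i260 i872 (k8 i2 i740 i2137 i2136 a331 a3004 i30 a3007 (k8 i750 a353 a418 i2836 i519 a435 a444 a1788 (k8 a201 a1609 a3128 a468 a3227 a350 a360 a368 (k8 a3321 a3410 a8 a406 i992 i524 a1190 a1035 k0)))))) (by decide +kernel)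
def a3785 : PP 8 4 T 0x2000000000000001044000000000000001000000400015002400009000108015001 := rS 0x22922364e21d889f (k8 i1711 a132 i1523 i1615 i1616 a178 a3554 i1773 k0) (by decide +kernel)
def a3786 : PP 8 4 T 0x2000001000000000080005000200140000105054000000000000400100008000000 := rS 0x834da457839 (k4 i2182 i415 i913 a828 (k2 i1415 i2045 k0)) (by decide +kernel)
def a3787 : PP 8 4 T 0x402000000000000000000000000000000000000000000000002000000000000020020 := rS 0x465228a1b1ecf2172010c0601 (k8 i2 i24 i700 a3000 i740 a353 a418 i524 (k4 i523 i992 a52 a406 k0)) (by decide +kernel)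
def a3788 : PP 8 4 T 0x2200000000000000008004000610000000101010000010000000008011058011000 := rS 0x118488e1e02b (k4 i2174 a1793 i290 i912 (k2 a3236 a42 k0)) (by decide +kernel)
def a3789 : PP 8 4 T 0x2200000000000000000000000000000000000000004000002400000000000001220 := rS 0x18cf1618462685668c863108ba90aeb85aa4d2a7535ab4ca3b03a9c5a0160a8d2e99549ecf229119651e815b94cee553e8849a4b0e83c4a7f861cc34718a9bca26044285961f2010c06fd (k8 a369 i24 i700 a3000 i2136 i1388 i2139 i262 (k8 i263 i2852 i1009 a337 i750 i260 i834 a389 (k8 a35 a3783 i338 i2836 a3004 i30 a3007 a340 (k8 a3274 i751 i826 a577 a3072 i872 i867 i2137 (k8 a443 a353 a418 a1832 a837 a989 i2140 i1266 (k8 i2 i1264 a434 i519 a435 a63 a445 a464 (k8 i1010 a1042 a1109 a3784 i2044 a3027 i2030 a465 (k8 a2352 i986 i1404 a1006 a361 a205 a3787 a3788 (k2 a1762 a3785 (k1 a3786 k0)))))))))) (by decide +kernel)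
def a3790 : PP 8 4 T 0x400000000000000002000000000000000080404000000140000105054000008000000404100408000000 := rS 0x13691418e50af1 (k4 a27 i1601 i298 a3058 (k2 i913 a828 (k1 i2045 k0))) (by decide +kernel)
def a3791 : PP 8 4 T 0x2100000000000000000004008010140000105014000008000400404111458015000 := rS 0x7e8315af1986a63d3ce6c561a95c8bf (k8 a367 a425 a382 a276 a277 i834 a1160 a3790 (k4 a132 i508 i586 i888 (k2 i895 i1411 (k1 a1164 k0)))) (by decide +kernel)
def a3792 : PP 8 4 T 0x2000000000000000000000000000000000000000004000002400000000000001220 := rS 0x2a893c420338b1d4acaa5a29586c572414fe7d862dd02734794c1e59118683e2920084de71219e4f64d018ec9607128b402c150a8d2e997eaa4a3150ea20c0cb (k8 i1388 i263 i262 i2836 a337 i2852 a1832 a369 (k8 a837 a989 i2140 i2139 i1266 i2 i1264 a3783 (k8 i519 a3004 a435 i24 i30 a418 a353 i700 (k8 i750 i1009 a3007 a3000 a443 i2136 i260 i2137 (k8 i867 i338 i826 i872 i834 a3072 a577 a389 (k8 a340 a35 a3789 a425 a277 a276 a382 i2030 (k8 a1245 a1076 a3079 a2889 a360 a3791 a441 a3787 (k2 a3321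 a378 k0)))))))) (by decide +kernel)
def a3793 : PP 8 4 T 0x2000000000000000000004000000141000100054000100000000000140014020020 := rS 0x4d9ed0679148d9e219 (k8 a3003 a441 i524 i1835 a3116 a1898 i1776 i994 (k1 i2045 k0)) (by decide +kernel)
def a3794 : PP 8 4 T 0x2101000000000004400010000000800000050054002000060400444000000815000 := rS 0xada1ad12a8f499d556674e8c4d4e48c9dd7ac9 (k8 a3732 i1417 i712 a41 a425 a1189 a459 i1908 (k8 i548 i586 i970 i1450 i875 i1019 i2044 a84 (k2 i1287 a439 k0))) (by decide +kernel)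
def a3795 : PP 8 4 T 0x2101000000000000400000000000800020050044002000020480444001000811000 := rS 0x8f499d52ab53388d56e50733ceeb9279c43a38 (k8 i1444 i2836 i709 i701 i1404 i712 i1977 a3794 (k8 a424 a1817 a3005 i2365 a1788 i1019 i971 i1282 (k2 i875 i2044 k0))) (by decide +kernel)
def a3796 : PP 8 4 T 0x2100000000000000000000000000800020050040002000020480400101000811200 := rS 0x6b63b3d3ec5619981e321b8f871197eb2cdec9 (k8 a3732 i968 i1388 a369 a41 i1444 i1443 i994 (k8 a3795 i2168 a1574 i2175 i1616 a414 i1976 a2286 (k2 i548 a132 k0))) (by decide +kernel)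
def a3797 : PP 8 4 T 0x2100000000000000000000000000000040800000000004000400148040010011200 := rS 0x445914219e2c635b0d8a6607c4c4ec9 (k8 a3732 i735 a68 i2168 a1574 i1616 i290 i547 (k4 a132 a198 a275 a1898 (k2 a358 i258 (k1 a1648 k0)))) (by decide +kernel)
def a3798 : PP 8 4 T 0x2100000000000000000000000000000000800000400004000400000040010015000 := rS 0x445914219e2c68989d8ac3 (k8 a276 a277 i735 a68 a132 a198 a275 a1898 (k2 a358 i258 (k1 a1648 k0))) (by decide +kernel)
def a3799 : PP 8 4 T 0x2100000000000000080000000000000000800000000004000400000040010000000 := rS 0x88b228433c62627 (k8 i735 a68 a27 a275 a1898 a358 i258 a1648 k0) (by decide +kernel)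
def a3800 : PP 8 4 T 0x400000000000000002000000000000000000000000000000001800000000000000080000000000008000 := rS 0x4058 (k2 i595 i596 (k1 a300 k0)) (by decide +kernel)
def a3801 : PP 8 4 T 0x2100000000000000040000000000001040805000800100000480144040000011020 := rS 0xc586e4078d50ac533d3e26c9 (k8 a3732 a68 a394 i547 i1789 i1868 i355 a3800 (k4 a425 a276 a459 a2222 k0)) (by decide +kernel)
def a3802 : PP 8 4 T 0x2100000000000000000000000000000040805040000000020480140041000011220 := rS 0x47a4d6a754a99c46ab72838d6775c8cd225d3e9bc5a0138858fe557e94ca2c72b8751060 (k8 i263 i262 i2836 i441 a3799 i2852 a3138 a369 (k8 i704 a1044 i518 i709 i2 i1264 i968 a936 (k8 a543 a110 a3797 i1404 i712 a3801 a3798 a424 (k8 a1817 a3005 i2365 i1019 i971 a1788 i1282 i875 (k1 i2044 k0))))) (by decide +kernel)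
def a3803 : PP 8 4 T 0x2100000000000000000000000000140000005040000000020480000041000001220 := rS 0xa5e236458e630828aa6c22b7409c4de1b2ea443a7f2a9f4ae517e94c2c88300b4023b (k8 a435 i2 i1264 i263 i262 i518 a3138 a369 (k8 i2852 i441 a936 i704 a1044 i2836 a110 a543 (k8 i780 i968 i709 a3072 a577 a3793 a3796 a337 (k8 i2045 a3055 a42 a52 a3802 a376 i1837 a1898 k0)))) (by decide +kernel)
def a3804 : PP 8 4 T 0x1002000000000000000000004000000540000108000000100540000000000000800000 := rS 0x575110719 (k4 a390 i2472 a422 a108 (k1 a381 k0)) (by decide +kernel)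
def a3805 : PP 8 4 T 0x2101000000000000400000000000000000050044002000020080000001010808000 := rS 0xee8f49ad4ea955c960ce2355b94e2c9 (k8 a3732 i709 a424 a1817 a3005 i2365 i595 a1261 (k4 i1019 i971 a1788 i1282 (k2 i875 i2469 (k1 i2044 k0)))) (by decide +kernel)
def a3806 : PP 8 4 T 0x2000000000000000014000000000000002000000000100000400000044000005000 := rS 0x6b (k2 i1868 a772 k0) (by decide +kernel)
def a3807 : PP 8 4 T 0x402100000000000000080000000000000000000000000004000400000064000000000 := rS 0x1644486 (k4 a275 i258 a358 a1648 k0) (by decide +kernel)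
def a3808 : PP 8 4 T 0x2100000000000000041000000150000008050000000004040000000001150000000 := rS 0x2d44659 (k4 a358 i1703 a1692 i2030 k0) (by decide +kernel)
def a3809 : PP 8 4 T 0x2100000000000000000000000000140000000040000000020480000041000001220 := rS 0x5a88e208763a1442a5a7b0d8ae407b346c2813c4cf07b4d8ec32c150a8e2acb279f4ae7f2a87e18115ba04a6517e9c4de160d975221d441805a01 (k8 i2 i1264 i263 i262 i2836 a110 a543 i780 (k8 i518 i968 i709 a369 i2852 a3138 a3072 a577 (k8 a3793 a1013 a81 i704 a1044 i441 a936 i701 (k8 i1388 a337 i2140 i2139 i1266 a3003 a435 a3796 (k8 a3804 a3803 a398 i1768 i973 i972 i3134 a3805 (k8 a425 a277 a276 a1160 a382 a46 a3806 a3807 (k4 a3808 a436 a9 a444 (k1 i2030 k0)))))))) (by decide +kernel)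
def a3810 : PP 8 4 T 0x2200000000000000000000000000001404000000000105000400000065400801000 := rS 0x19081cac467b0d08cd2c83cd675 (k8 i971 a464 a17 a2 i1969 a460 i1867 i1871 (k4 a772 a40 i1842 a1325 (k1 i2967 k0))) (by decide +kernel)
def a3811 : PP 8 4 T 0x2200000000000000000000000000000004000000000100000000000014200000000 := rS 0xcd (k2 i729 a2993 k0) (by decide +kernel)
def a3812 : PP 8 4 T 0x202000000000000000000000000000000004000000400115000000000000000000000 := rS 0x19a85 (k2 a361 a380 (k1 a460 k0)) (by decide +kernel)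
def a3813 : PP 8 4 T 0x2200000000000000001001000050001404050000000105000400000045450801000 := rS 0x1482114c44d659 (k4 a2 a464 a3812 a3810 (k2 a3811 i2030 (k1 a164 k0))) (by decide +kernel)
def a3814 : PP 8 4 T 0x2201000000000002000001000000000000000000000104540000000000000000000 := rS 0x835dd3d02b7 (k4 a577 a3072 a36 i1948 (k2 i894 a3121 k0)) (by decide +kernel)
def a3815 : PP 8 4 T 0x400000000001102200000000000001020000000000015406000004040104000000000001005000000 := rS 0x745c1e62e8a4e464b2cf (k8 i1871 a2 a3410 a794 a2433 a399 i1853 a447 (k2 a1002 i1065 k0)) (by decide +kernel)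
def a3816 : PP 8 4 T 0x400000000000002200000000000001000000000000015424000014000105000400010041005811000 := rS 0x1029064318b999cac461b1d09118a9641e6b (k8 a464 a17 a2 a337 a3812 a460 i1602 i1867 (k8 a132 a40 a3815 a350 i1505 a722 a3633 a2083 (k1 i2967 k0))) (by decide +kernel)
def a3817 : PP 8 4 T 0x2000000000000000000000000000000000000000004000000400000000000001220 := rS 0x2ed0ccd49a551f431aad55a652cc10227f5ba04e26f3e9549e530d858ba57210ad2241261cc924b0c8945a014ba65faa9288751060 (k8 i263 i262 i2836 i2852 a1832 a369 a837 a989 (k8 i2 i1264 a3783 a3003 a3004 a3792 i1016 a440 (k8 i261 a110 a818 a3000 i441 a543 i518 i780 (k8 a3138 i701 i704 a936 i968 i709 a3072 a577 (k8 a1044 a3793 a3809 a2 a63 a445 a822 a3155 (k8 a3418 i874 a1042 a1109 a3814 a3816 i1683 a3135 k0)))))) (by decide +kernel)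
def a3818 : PP 8 4 T 0x2000000000000000000011000000010020040000064000000080001100010000020 := rS 0xfa77861d4aa7137a3ce61b0b1300293 (k8 i1550 i2 i517 i518 i780 i837 i875 i968 (k4 i709 i2464 i970 a1013 (k2 i1547 a340 (k1 i2044 k0)))) (by decide +kernel)
def a3819 : PP 8 4 T 0x2000000000000000000000000000000000000000004000000000000000000001220 := rS 0x15a531188480433fad684932bae52b171899cc8a5194141e460e94546a160a20c02d7e8040625 (k8 a3783 i24 i2 a369 i1264 i263 i262 i1266 (k8 i2139 i2140 i2852 i2836 a3817 i109 a451 i264 (k8 i2143 i265 i1618 i1532 a360 i1671 i1403 i2956 (k8 i1550 a3633 a84 a133 a3818 a3000 a1200 i2137 (k2 i826 a3667 (k1 a3108 k0)))))) (by decide +kernel)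
def a3820 : PP 8 4 T 0x2000000000000000804000000500000008400000000000002001000000000000160 := rS 0xa2af47caf08aee274f (k8 a20 a69 i1684 a3787 i626 a1811 a1589 a80 (k1 a1579 k0)) (by decide +kernel)
def a3821 : PP 8 4 T 0x2100000000000001004020040100000405000108040000002000000000040010140 := rS 0x1229f40af47ca71eb49fac9 (k8 a3732 a2898 a1807 a335 a1825 a1811 a1589 i1332 (k2 i1190 i1172 (k1 a2401 k0))) (by decide +kernel)
def a3822 : PP 8 4 T 0x2000000000000001814000080010000005000000000000200000000015500000040 := rS 0xa96cc7 (k4 a3104 i500 i2032 i850 k0) (by decide +kernel)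
def a3823 : PP 8 4 T 0x2100000000000005804000040101000401000500042000202000000000040400160 := rS 0x13e911b040dcb83d9e50e831eb494efd (k8 a2898 a1825 a1807 a335 a374 a3820 a353 a418 (k4 i1391 i1311 a3821 i524 (k2 i992 i2669 (k1 i2046 k0)))) (by decide +kernel)
def a3824 : PP 8 4 T 0x2000000000000000000000000000000400000000004010412800000015550400120 := rS 0x27d2236081855e8741941944f56c36867e3ec416a7767a762e85669d4ae315599cc8a5194158ac30080c967b3c9c52ea9538f582a151b49fa07 (k8 i519 a2898 a1807 a99 a344 a44 a335 a1825 (k8 a1832 a989 i750 a353 a418 a3004 i24 i2 (k8 a354 a366 a451 i264 i2143 i265 i1618 i1655 (k8 i1532 i1577 a1851 a2010 a1949 a360 a407 a454 (k8 i1548 a201 a466 a73 a2218 a3610 a35 i1556 (k8 i760 a439 a467 a374 a3820 a3822 a3823 a1605 (k4 i524 i992 i996 i2046 k0))))))) (by decide +kernel)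
def a3825 : PP 8 4 T 0x12100000000000000800000000100000000000000004000000020000000000021020 := rS 0x3ac417089301dc66cf338d4e27350b49fa317211d1e1a299643a071093406230f9204e2904a442e014e8d98a0f12c6514c9 (k8 a3732 i523 a52 a3783 i338 a277 i524 i1779 (k8 i2 i740 i992 a3819 a443 a331 i261 i2136 (k8 i2137 i24 i788 i744 i519 i742 i866 i827 (k8 i260 i872 a3824 a425 a459 a2898 a1807 a344 (k8 i834 i750 i2210 i545 a2062 a1574 i752 a1594 (k4 i1277 i1391 a2355 i2688 (k1 a2681 k0))))))) (by decide +kernel)
def a3826 : PP 8 4 T 0x12100000000000000000000000100000000000000044000000020000000000021020 := rS 0x75882e12689301dc66cf178d45ac1518c5c847299643a212680c461f138a52a7139a85a4fd4792012070d2442e014e8d98a0f12c6514c9 (k8 a3732 i523 a52 a3783 i338 a277 i524 i1779 (k8 i2 i740 i992 i260 i519 a3819 i261 i872 (k8 a2898 a1807 a344 i834 i750 a2354 a443 a331 (k8 i2136 i2137 i24 i788 i744 i742 i866 i827 (k8 a3824 a425 a459 a99 a44 a329 i2210 a1829 (k8 a2062 a1574 i752 a1594 i1277 i1282 i2033 a2355 (k2 i2688 a2681 k0))))))) (by decide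 +kernel)
def a3827 : PP 8 4 T 0x2100000000000000000000000100000000000000004000200020000000000021020 := rS 0x1f0a8ac5595ceb173332c960f60a8da4fd23a3c34532c8740e212680c2e011187c9027148244b0d (k8 a65 a3783 a3819 a443 a331 i261 i2136 i2137 (k8 i2 i740 i24 i788 i744 i519 i742 i866 (k8 i827 i260 i872 a3824 a2898 a1807 a99 a44 (k8 i338 a3004 a3825 a3826 a350 i1588 a2889 i497 (k4 a1834 i1314 i1313 i2974 k0))))) (by decide +kernel)
def a3828 : PP 8 4 T 0x2000000000000000001000000140000400000000084000214400000000000005140 := rS 0x3e15158ab2bb2ceb17 (k8 a350 i1588 i545 a2889 i497 a1834 i1314 i1313 (k1 i2974 k0)) (by decide +kernel)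
def a3829 : PP 8 4 T 0x2100000000000001814020000100000405000008040000202000000015540010140 := rS 0xae50b49fa75 (k4 i2688 a2898 a1807 a344 (k2 a3821 a3822 k0)) (by decide +kernel)
def a3830 : PP 8 4 T 0x2100000000000000000000000100000000000000004000200020000000000001020 := rS 0x86653350aad882e1266e44980ee336799c229586a0c5e4b1a9c54e2d1eb05467350b49fac5618c5c80f23a3c34532c8740e212680c2e011187c9027148244ac9 (k8 a3732 a3783 a3819 a443 a331 i261 i2136 i2137 (k8 i2 i740 i24 i788 i744 i519 i742 i866 (k8 i827 i260 i872 a3824 i338 a425 a459 a276 (k8 a277 a2898 a1807 a344 i834 a99 a44 a335 (k8 a329 a1825 i750 i2210 a3004 a1829 a374 a65 (k8 a2354 a3827 a3828 a2062 a1574 i752 a1594 i1277 (k8 i1311 i1282 i2033 a2355 i2854 a361 a380 a2384 (k2 a3829 a3820 k0)))))))) (by decide +kernel)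
def a3831 : PP 8 4 T 0x2100000000000005800000001101000400000400002010502400000000000015140 := rS 0x9f0d3f27e2e853aab9705756aacf6791eb0546d27eb15874f (k8 a1160 a276 a277 a2898 a1807 a99 a44 a335 (k8 a353 a418 i123 i122 i505 i1391 a1700 i1011 (k4 a1949 a465 a551 a2158 (k2 a35 i760 (k1 a467 k0))))) (by decide +kernel)
def a3832 : PP 8 4 T 0x2100000000000000000000010100000000000000044000000020000000000001020 := rS 0x2468a835aa6e2aae5d95d7894352a9723b1a9e52e2d60a8ce6a1618c56e3349d3d961189b34546f40b48e299449ec5e607eb90eecf4e9448e1d1093406170088c3e2714a3c3453079644a480481d52c9 (k8 a3732 a1832 i519 a3819 i261 a3783 i866 i338 (k8 i827 i260 i872 a443 a331 i2136 i2137 i2 (k8 i740 i24 i788 i744 i742 a3824 a3830 a544 (k8 a2062 i752 a425 a2898 a1594 a1829 a418 i1277 (k8 a837 i750 a1807 a3072 i1009 a3744 i888 a8 (k8 a3787 a3831 a1160 i1282 a1574 a577 a459 a276 (k8 a344 i834 a99 a44 a329 a989 a353 i2210 (k8 a435 a2384 a1719 a1626 i2033 i586 a3791 i1947 (k8 i585 a14 i1417 a1076 a899 a381 a1895 i2045 k0))))))))) (by decide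 +kernel)
def a3833 : PP 8 4 T 0x2100000000000000000000000100000000000000044000000020000000000001020 := rS 0x955cab12660198bd523516b0546d27e8c5c80f23a3c34532c8740e212680c2e011187c9027148244ac9 (k8 a3732 a3783 a3819 a443 a331 i261 i2136 i2137 (k8 i2 i740 i24 i788 i744 i519 i742 i866 (k8 i827 i260 i872 a3824 i338 a425 a459 a2898 (k8 a1807 a99 a44 a329 i2210 a1832 a1829 a1574 (k4 a1594 i1282 a3832 i1290 (k2 i1558 a479 k0)))))) (by decide +kernel)
def a3834 : PP 8 4 T 0x4012101000000000000400401018004040000005854000000500400000000000015140 := rS 0x8348a6d769d3553d86c9 (k8 a3732 a276 a1160 a1626 i1908 i1947 a1490 i918 (k2 a899 a920 k0)) (by decide +kernel)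
def a3835 : PP 8 4 T 0x2100000000000000000000000100000000000000004000000020000000000001020 := rS 0x5691890d8207644afca90d5524e867e3eab56a574ab2cea9f8b9996e81379445e4b079ecf2714ba6552c1519cd42d27e91d1e1a299643a071093406170088c3e48138a41225 (k8 a3783 a3819 a443 a331 i261 i2136 i2137 i2 (k8 i740 i24 i788 i744 i519 i742 i866 i827 (k8 i260 i872 a3824 a2898 a1807 a344 i834 a99 (k8 a44 a1832 a837 a989 i750 a353 a418 i338 (k8 a3004 a1829 a3830 i1009 a3072 a577 a3833 a350 (k8 a414 i1588 i545 i1674 a2889 a201 a3667 a936 (k8 a3108 a3610 a1109 a1719 a35 a1044 i1724 a3633 (k4 i1619 a3834 i524 a3787 (k2 i992 a8 (k1 a3508 k0)))))))))) (by decide +kernel)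
def a3836 : PP 8 4 T 0x2001000000000000001001008150000000000000000001400000000001550000040 := rS 0x2815cfc7d (k4 i1596 i2030 a3027 a1044 (k1 i497 k0)) (by decide +kernel)
def a3837 : PP 8 4 T 0x2000000000000000000000000100000000000000004000000020000000000001020 := rS 0x3022066b98b39222b43baa926953a9555a6565c105ea91a83ce22d60a8546d27e91d1e1a299643a071093406170088c3e48138a41225 (k8 a3783 a3819 a443 a331 i261 i2136 i2137 i2 (k8 i740 i24 i788 i744 i519 i742 i866 i827 (k8 i260 i872 a3824 a2898 a1807 a99 a344 a44 (k8 a329 i750 i338 i2210 a1832 a1829 a3835 a385 (k8 a63 a445 a72 i1010 a1042 a1109 a1719 i751 (k8 a3836 a444 a1788 a201 a2352 a360 a2487 a1576 (k1 i1277 k0))))))) (by decide +kernel)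
def a3838 : PP 8 4 T 0x2200000000000000000001000610150000000010000010502400010111158005020 := rS 0x1e2c6618c862b83fadd026f008ecf6797ea3ce6e53ea4d0acd2b9d4d61189c40ee55 (k8 a72 i751 a1609 a205 a3787 a464 a453 a58 (k8 a380 a361 i1365 i1325 a382 i834 i872 a2898 (k8 a353 a418 a435 i2 i1009 a3072 a577 a1044 (k4 i2044 i986 a1710 a3788 (k2 a3785 a1762 (k1 a3786 k0)))))) (by decide +kernel)
def a3839 : PP 8 4 T 0x2000000000000000000000000000000000000000004000000020000000000001020 := rS 0xf870af482de3267150cd1260559412a1132b2e26575ac1220ad72a908ea11e8b5a4a74ca5dfa8f389e4f653079643a212685c6a230d07c90271480406a90389412c9 (k8 a3732 a3819 a3783 i519 a1832 i24 i2 a443 (k8 a331 i261 i2136 i260 i2137 i2210 i740 i788 (k8 i744 i742 i866 i338 i827 a418 a353 i750 (k8 i872 a2898 a989 a837 a1825 a1807 a329 a335 (k8 a344 a3824 a3837 a382 i1286 a1609 a2241 a1788 (k8 a58 a205 a385 a63 a3787 a1042 a3838 i497 (k8 a1787 i1277 i288 a3733 a722 a3146 i850 a406 (k4 i500 i913 a1811 i296 k0)))))))) (by decide +kernel)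
def a3840 : PP 8 4 T 0x2201000000000000000001000000000008010000000105540000000000000000000 := rS 0x1747f (k2 a1044 a3135 (k1 i1683 k0)) (by decide +kernel)
def a3841 : PP 8 4 T 0x2201000000000000000000000200000000000000004000060080010041100801040 := rS 0xa07cf11b0c0ce33419490d138bc40ae512ea44e655729f4b26b3a88d6ac9 (k8 a3732 a822 i249 i971 a464 a2 i1326 a382 (k8 i2464 i837 a110 a543 a491 i441 a164 a1027 (k8 a205 a3812 a3840 a334 a3137 a722 a429 a3130 (k4 a376 a3142 a3246 i257 k0)))) (by decide +kernel)
def a3842 : PP 8 4 T 0x400000000000000002001000000000000000040000200000000000000400100000000000020040000140 := rS 0x3f08a9c7ad2 (k4 a1807 a335 a1825 i1835 (k2 i256 a1790 k0)) (by decide +kernel)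
def a3843 : PP 8 4 T 0x202201000000000000000000000200001000400000040105000000014001040800140 := rS 0x1193c8a5774f43394b26b (k8 a464 a2 a382 a3812 a20 i1684 a3842 i973 (k2 a3146 a2506 k0)) (by decide +kernel)
def a3844 : PP 8 4 T 0x2201000000000000000000000200001400000140004101800080010001240801140 := rS 0x2b978c2662fd0f193ca759f168899cee7e19a0e1a57729ada4c9 (k8 a3732 a1807 a464 a382 i441 a375 a334 a3137 (k8 a1026 i712 a722 a3843 a466 a368 a399 a1030 (k8 a3410 a1001 i1723 a794 i730 i849 a2435 i1986 k0))) (by decide +kernel)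
def a3845 : PP 8 4 T 0x2201000000000000000001000200001400000040004101100480010041240801140 := rS 0x9850873fb34a6575093d82a33e874ea23 (k8 i249 i971 i1381 i1326 i115 i114 i702 i820 (k8 i441 a3844 a3814 a1044 a3840 a2993 a3813 i48 k0)) (by decide +kernel)
def a3846 : PP 8 4 T 0x2200000001000080000000000000001404080100000105000000004000200801140 := rS 0x2b978c26633e2d115f964d677 (k8 i712 a464 a2 i1723 a3812 a466 a368 a1325 (k4 i730 i849 a2435 i1986 k0)) (by decide +kernel)
def a3847 : PP 8 4 T 0x102200000000000000000000000000001408004500040100000000000000000000000 := rS 0x8c22a2d13 (k4 a69 a466 a2262 a3132 (k1 a52 k0)) (by decide +kernel)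
def a3848 : PP 8 4 T 0x400000000000020202200000000000000000040000600000000400000040000000001014001000000160 := rS 0x7e111422dca6b (k4 a464 a382 a52 a3146 (k2 i523 i257 (k1 a1790 k0))) (by decide +kernel)
def a3849 : PP 8 4 T 0x2001000000000000000000000200000000000000004000000400000000000005020 := rS 0x7e365b9e233105d9ee274f4319cee33419f8a50d0f0807ad253a655207128acae512e93d22732ab946a6b47964ea235ac10124c0b10882c9 (k8 a3732 a3839 a3000 i518 i517 a3819 a2241 a822 (k8 i249 i971 a2 i874 a464 i354 a382 i2464 (k8 i837 a110 i702 a543 a491 i441 a818 a3783 (k8 i519 a1832 a837 a1825 a1807 a335 a3841 a3845 (k8 a81 a1620 a1026 a963 a3137 i712 a722 a3846 (k8 a20 a69 i2473 i1684 a3847 a3848 a1000 i1932 (k2 i972 a1022 (k1 a3142 k0)))))))) (by decide +kernel)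
def a3850 : PP 8 4 T 0x2000000000000000000000000200000000000000004000000400000000000005020 := rS 0x6f8aa60f6974344e207710c661a7e57984a6fc388756a6b2cc1152092b944ba91399542c4c21104fa25 (k8 a3783 i1326 a3839 a3000 i517 i518 i2464 i837 (k8 a110 a543 a491 i441 a3819 a1832 a2241 a2 (k8 a464 a822 i1381 i709 a3849 a421 a397 a427 (k8 a3214 a35 a2307 a977 i711 a164 a205 a3812 (k4 a968 i2473 a273 a57 (k2 i2645 a3171 k0)))))) (by decide +kernel)
def a3851 : PP 8 4 T 0x10002002000000000000000004000200001000004000000100140080000140020800000 := rS 0x3c51626821ea04a6af (k8 a427 a421 i2879 a3424 a108 a2265 a48 a406 (k1 a274 k0)) (by decide +kernel)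
def a3852 : PP 8 4 T 0x10002002000000000001000000000200001000004000000120100080000141400800140 := rS 0x223f140f5041f40c316a1d5b9fde2af2993dcb433ec454ec3 (k8 a487 i367 a373 i1326 a129 a382 i702 a421 (k8 a427 a2041 i844 a537 a3851 a1788 a403 a4 (k4 a81 a1590 a3424 a1898 (k2 i256 i1835 (k1 a1811 k0))))) (by decide +kernel)
def a3853 : PP 8 4 T 0x2001000000000005004000040001001404404400005100000000000000000808120 := rS 0x2153e79893c4767511a5d32a938875a407 (k8 i519 a1807 a341 i709 a1832 a837 a989 a3005 (k8 i971 a435 a1818 a273 a3719 a1888 a77 i2046 k0)) (by decide +kernel)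
def a3854 : PP 8 4 T 0x10002000000000000000000000000200000000004000004000000080000041000008120 := rS 0x891e29e854f9a902ae419fa28b5389843aca693f552072897522e53ea759f0543a4c6acd61880de2d5cc5a22772c23cce4c3a88c2cc9 (k8 a3732 i518 a3005 i971 i517 i2365 i875 i595 (k8 i2469 a373 a466 a465 i1383 i968 i596 a487 (k8 i730 i355 i1365 a358 a17 a2062 a544 i1326 (k8 a382 a110 a543 a491 i519 a1832 a3852 a1807 (k8 a2144 a341 i1391 i709 a1788 a438 a1698 i925 (k8 a3853 i1861 i625 a551 i1670 a394 i2046 a436 (k1 a398 k0))))))) (by decide +kernel)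
def a3855 : PP 8 4 T 0x2001000000000000000010000200000000000000404000000000000000000018120 := rS 0x15e616525d5207 (k4 i519 a1832 a989 a2144 (k2 i1391 i625 (k1 a1605 k0))) (by decide +kernel)
def a3856 : PP 8 4 T 0x2000000000000000000010000200000000018000004120100000000000200808120 := rS 0xfeb58694df86b08bc50a381320c03433a88e22c3 (k8 a487 a373 a3005 i971 a129 i2 i2472 i713 (k8 i714 i1896 a76 i1874 a1421 a3855 a421 a1590 (k2 a301 i844 (k1 a403 k0)))) (by decide +kernel)
def a3857 : PP 8 4 T 0x20002002000000000005000000000001001405004540004000000009000100000800000 := rS 0x21a710f07450784f8e68a98 (k8 a2965 a433 a42 a33 i2046 a1896 a274 i256 (k2 i709 a81 (k1 a2307 k0))) (by decide +kernel)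
def a3858 : PP 8 4 T 0x20002002000000000005000000000401001404004440004000000000000500600810140 := rS 0x869c43c1d1409d083e1ea615e75 (k8 i971 a427 a2965 i1786 a1811 a3857 i1772 i1504 (k4 i1422 i256 i709 a81 (k1 a2307 k0))) (by decide +kernel)
def a3859 : PP 8 4 T 0x2000000000000000000000000200000000000000004000000400000000000001020 := rS 0x10b4f353f4228b8c1ec5ab966a9e2c7761c450e8f67a74ea202c19c4705071f45e071282456512e85922732610882c9 (k8 a3732 a3839 a3000 i517 i837 a110 i518 a543 (k8 a491 a818 a3819 a3783 i519 a1829 i1326 a3850 (k8 a17 a3005 i2365 i595 i596 i971 a544 a2062 (k8 i875 a358 a373 a487 i2469 a466 i367 i730 (k8 a465 i1383 a3856 a3854 a52 i523 a3858 a3855 (k2 a394 i1868 (k1 a2342 k0))))))) (by decide +kernel)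
def a3860 : PP 8 4 T 0x2001000000000000000011005000004400050554004000000000000000000000000 := rS 0x1812915 (k4 a1698 i2044 a438 i1019 k0) (by decide +kernel)
def a3861 : PP 8 4 T 0x102001000000000005804000000001001404080400005100000000000000000818120 := rS 0x3d9e44f124fbc29e85352055c074baa4ea23 (k8 a3005 i971 a1832 a989 i519 a1605 i1861 i625 (k8 i1670 a394 a1421 a551 a436 a76 a398 i713 (k1 i2046 k0))) (by decide +kernel)
def a3862 : PP 8 4 T 0x2001000000000000000010000000000000000000004000000080000001000008120 := rS 0x854f8e452f108185947e49b362c7d3bb0e228747b3d3ab53a880b06711aadcb05008ed525d489cc98c1378b4e21d6901c2cc9 (k8 a3732 i518 i519 a1807 a341 i709 a329 i968 (k8 a44 i517 i837 a110 a543 a1832 a435 i2 (k8 a17 a424 a1817 a3005 i2365 i595 i596 i971 (k8 a1788 a544 a2062 i875 a358 a373 a487 i2469 (k8 i1501 a466 i730 a19 a3860 i845 i1391 a3861 (k4 a441 i1835 i1874 a1888 (k2 i1504 a1896 k0))))))) (by decide +kernel)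
def a3863 : PP 8 4 T 0x2001000002000000000010000100000400000550004020000400000000004004120 := rS 0x9455b2d1253499821916338bd52a316b05a4071ac162231 (k8 a459 a373 a2 i354 i519 a1807 a44 a329 (k8 a1824 a1832 a1829 i544 a466 a2387 a1594 a19 (k4 a383 i1277 i1391 i581 (k2 a2487 a476 k0)))) (by decide +kernel)
def a3864 : PP 8 4 T 0x2000000000000000000000008000141800400054880100000000000000000000000 := rS 0x3d274fec9 (k4 a3732 a930 i1908 a1223 (k1 i879 k0)) (by decide +kernel)
def a3865 : PP 8 4 T 0x2001000000000000000000010000000800010000004020000400000000000005020 := rS 0xcca72d902cf8ca6cf629450d93a10789ad0652a1aa8767352a5d32a9518f5826f169c43ad20481c2d118b9fcf2c5828ad86192ea7d22cb331308441 (k8 a3839 a3000 i517 i875 i545 a110 i1187 a543 (k8 a3003 a487 a818 a2 a277 a1554 a930 a432 (k8 a373 i518 i519 a3819 a1807 a341 i709 a329 (k8 i968 a44 a335 a1824 a1832 a837 a989 a3859 (k8 i837 a435 a1834 a106 i581 a334 a3864 a198 (k8 a1626 a179 i524 i523 i1835 i879 i994 a52 (k4 i1978 a3721 i2045 a463 (k2 a537 a36 k0)))))))) (by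 decide +kernel)
def a3866 : PP 8 4 T 0x2000000000000000000001000000000000800000000124000400000040010015000 := rS 0x1086a43c469f05 (k4 a2 a1160 a373 a358 (k2 a3798 a197 (k1 i1868 k0))) (by decide +kernel)
def a3867 : PP 8 4 T 0x2000000000000000000000000001149800401054000000000000000000000000000 := rS 0x1367b40ade1915 (k4 a115 a389 a118 a4 (k2 i879 i1450 (k1 i2045 k0))) (by decide +kernel)
def a3868 : PP 8 4 T 0x2000000000000000000000000002000000000000000020000400000000000005020 := rS 0xd63b61b160ac9 (k4 a3732 a2 a277 a487 (k2 a435 i1908 (k1 a179 k0))) (by decide +kernel)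
def a3869 : PP 8 4 T 0x2001000000000000000000010000000800000000004020000400000000000005020 := rS 0xf8aa2ba9546c1690240ecb331308441 (k8 a3839 a3000 i517 i875 i545 i519 a3819 a1807 (k4 a44 a1824 a3859 i441 (k2 a1834 a3865 (k1 i1595 k0)))) (by decide +kernel)
def a3870 : PP 8 4 T 0x2001000000000000000010000000000000000000004020000400000000000001020 := rS 0x8a056e825aa49589d3c9991c7518b918a7761c14322b2b974360127a44e64c52a5d32a9378b4e21d6901c2c0f211041225 (k8 a3783 a3819 a3839 a3000 a3862 i518 i519 a1807 (k8 a341 i709 a329 i968 a1832 a837 a989 a3859 (k8 i517 i837 a110 i702 i2 i780 a543 i441 (k8 a818 a3003 a2 a487 i2469 a277 a425 a459 (k8 i970 a3863 i875 a1554 a3868 a3869 i1621 i1287 (k4 a3867 i151 i62 a3793 (k1 a3866 k0))))))) (by decide +kernel)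
def a3871 : PP 8 4 T 0x2001000000000080000000001010008000000054004015000000000001000004000 := rS 0x2201f82c315915 (k4 a115 a1109 a389 a445 (k2 a81 a362 (k1 a3474 k0))) (by decide +kernel)
def a3872 : PP 8 4 T 0x2001000000000000001010020040004000000000000000000400000100000005120 := rS 0x623372254cf0517aa46ac9 (k8 a3732 i354 a1832 a1829 a445 i1621 i1558 a425 (k2 a1574 a459 (k1 a479 k0))) (by decide +kernel)
def a3873 : PP 8 4 T 0x1202000000000000080000000000110000000000454000000000000000001100000000 := rS 0xf430fec1 (k4 a44 a3171 a389 a2218 (k1 a81 k0)) (by decide +kernel)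
def a3874 : PP 8 4 T 0x4002101000000000000400004018005141000405054000100000400000000000015140 := rS 0x2015c9b3553d86bf (k8 a367 a276 a1160 a1626 a1490 i585 i2045 i1861 k0) (by decide +kernel)
def a3875 : PP 8 4 T 0x2000000000000000000004000000141000000054000100000001000140014020020 := rS 0x20052f1 (k4 a441 i1835 a3793 a3721 k0) (by decide +kernel)
def a3876 : PP 8 4 T 0x2101000000000000000010000000000000000000004000000400000000000001020 := rS 0x7845274d4115baa8f69f65a0ccc521945cfc894ac50ee31109f620b542b34eae4618bc962b28974360127a454a974c8f46a8f56a4cb2710e9bcaa163993142575483c844112b045ad25181c12c9 (k8 a3732 a3819 i519 a1824 a1807 a329 a44 a3783 (k8 a3839 a3000 a3862 a1832 i441 i820 i517 i837 (k8 i518 i2464 i968 a341 i709 a3870 a3871 a3872 (k8 i874 i354 a335 a837 a989 a3859 a110 i702 (k8 i2 i780 a543 a491 a818 a3004 a1829 a276 (k8 a425 a1851 a2010 a1949 a1692 a362 a1978 a46 (k8 a459 i711 a3873 a14 a337 a1698 a3464 i2033 (k8 a1044 a1574 a334 i621 a414 a1179 a1834 a1497 (k4 a3875 a1626 i1908 i547 (k2 a3874 i1853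 k0)))))))))) (by decide +kernel)
def a3877 : PP 8 4 T 0x2201000000000000000001010110001400402000000105000400000041001805140 := rS 0x3e7f11a1e18c440d155cc31f8456e2813c4d4e1d1e9bc5a6b5fd0cfaaa65a8d82d2 (k8 a1807 a44 a1824 a385 a1834 i1595 a106 a367 (k8 a464 a329 i968 a335 a341 a1825 a398 i1768 (k8 i973 i1933 i1835 i257 a3771 a1811 a381 i1861 (k4 a187 a462 i1524 i1576 (k2 a35 a81 (k1 a3813 k0)))))) (by decide +kernel)
def a3878 : PP 8 4 T 0x2000000000000000000004000000141000501054000000000000000020001000000 := rS 0x4d460f713 (k4 a54 i1890 a406 i2045 (k1 a41 k0)) (by decide +kernel)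
def a3879 : PP 8 4 T 0x402000000000000000000004000000141000505054000000000000000000000000000 := rS 0x2309a (k2 i2045 a406 (k1 a41 k0)) (by decide +kernel)
def a3880 : PP 8 4 T 0x400000000000402201001000000000000005000000141000551054000115140000000050000800000 := rS 0x14d990c42c4470878c9e84c6b (k8 a464 a127 a3879 a390 i2473 i714 a1000 i3088 (k4 a403 a460 a383 a3814 k0)) (by decide +kernel)
def a3881 : PP 8 4 T 0x400000000000802201000000000000000001000000000000050000000114140000000000000000000 := rS 0x294319911 (k4 a205 a1729 a403 a3814 (k1 a375 k0)) (by decide +kernel)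
def a3882 : PP 8 4 T 0x400000000000002201001000000000000005000000141000551054000115140000000040001800000 := rS 0x5313 (k2 a3881 a3878 (k1 a3880 k0)) (by decide +kernel)
def a3883 : PP 8 4 T 0x2000000000000080000000000000000000200000000100000000000040000010140 := rS 0x7eaf (k2 i1861 i1333 (k1 a1917 k0)) (by decide +kernel)
def a3884 : PP 8 4 T 0x400000000000002201001000000000000005000000141000511054000115140000000040001800000 := rS 0x1e90d1366a14fc6b (k8 a464 a3882 i1670 i848 a1729 a460 a3879 i2473 k0) (by decide +kernel)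
def a3885 : PP 8 4 T 0x2201000000000000000001010100141000401040000115140400000040001815140 := rS 0x15cbc3f332228543c356c8178b0c7a6f169c43a6b5fd0cfaaa65a8d82d2 (k8 a1807 a44 a1824 a385 a1834 i1595 a106 a367 (k8 a464 a341 i709 a329 i968 a335 a3771 a1762 (k8 a3883 a3884 a118 i857 i1935 a3812 a460 a403 (k2 i849 a1589 (k1 i1986 k0))))) (by decide +kernel)
def a3886 : PP 8 4 T 0x2001000000000000000010000000000000400000004000000400000000000001020 := rS 0x60e43a88cee213f332231242a1e1b193dad9868a1b040f21915944ba1b0093d22974c8f46a8f35ad57f433eaa9970452ab5265938874de550b1cc98a1548b546c16901c1e091295c8441 (k8 a3839 a3000 i441 a3783 a3819 a3862 i519 a1807 (k8 a44 a1824 a329 a1832 i820 i517 i837 i518 (k8 i2464 i968 a341 i709 a3870 a3871 a3872 a3859 (k8 a3876 a385 a1834 i1595 a106 a367 a822 a464 (k8 i874 i354 a335 a837 a989 a110 i702 i2 (k8 i780 a543 a491 a818 a3003 a3877 a3885 i524 (k8 i523 i1953 a3875 i1776 a52 a118 i857 i1935 (k8 a406 a1000 a460 a3881 i730 i809 i1663 i1668 (k2 a107 a2387 (k1 a459 k0)))))))))) (by decide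 +kernel)
def a3887 : PP 8 4 T 0x2001000000000000000010000000000000000000004000000400000000000001020 := rS 0x1882263b0c22873f87c4ebda2adca6823ed0d7eaa5a9ad970456a4d1e590789456572897436015093d22732a9314a974caa54ea31eb04de2d38875a409038588441 (k8 a3839 a3000 i518 i519 a3819 a1807 a341 i709 (k8 a329 i968 a44 a335 a1824 a1825 a1832 a837 (k8 a989 a3859 i517 i2464 i837 a110 i702 i820 (k8 i2 i780 a543 a491 i441 a818 a3783 a3862 (k8 a3870 i874 a3871 a3872 a3876 a385 a464 a822 (k8 a1834 a367 a106 i1595 a3886 a334 i151 a48 (k8 i1415 i735 a1620 a1044 a3840 a3875 a2427 a3078 (k2 a3813 a132 (k1 i1576 k0))))))))) (by decide +kernel)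
def a3888 : PP 8 4 T 0x2201000000000000000000000000000000800000004000000400000000000001020 := rS 0xc41131d8611439fc3e275ed156e53128acae512e86c02a127a44e6554ba6552a71e9c43b433e9bc5a1635ad51e592610882bf5532d4aad5c28d82d20481c1ec9 (k8 a3732 a17 i519 a3819 a1807 a44 a1824 a3887 (k8 i1290 a3859 a385 a1834 a367 a3839 a3000 i517 (k8 a2 i874 a822 a464 i518 a329 i968 i1329 (k8 a351 a341 i709 a335 a1825 a1832 a837 a989 (k8 i2464 i837 a110 i702 i820 i2 i780 a543 (k8 a491 i441 a818 a3783 a334 i151 a48 i1415 (k8 i735 a1620 a1044 a3840 a3875 a2427 a3078 a3813 (k2 a132 i1576 k0)))))))) (by decide +kernel)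
def a3889 : PP 8 4 T 0x2201000000000000000000000000000000000000004000000400000000000001020 := rS 0x19a85439ed6c36081e506bf5523d6a6b07b2cb219128acae512e86c02a127a44e655262952e9954a8c7ac1388762ead3e9d5706f16b4812070b10882c9 (k8 a3732 a3839 a3000 i518 i519 a3819 a1807 a329 (k8 i968 a3887 i1065 i1329 i1290 a465 a341 i709 (k8 a44 a335 a1824 a1832 a837 a989 a3859 i517 (k8 i2464 i837 a110 i702 i820 i2 i780 a543 (k8 a491 i441 a818 a3783 a3003 a2 a385 a17 (k8 a464 a822 i874 a1834 a367 a3888 a3877 a3885 (k4 i524 a3875 i1776 i857 (k2 i1935 a1006 (k1 a460 k0))))))))) (by decide +kernel)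
def a3890 : PP 8 4 T 0x2000000000000000000028000005501405004500000000000000100010000800000 := rS 0x5d3397b4f66c5e8a79 (k8 i1932 a116 a465 a1006 a1950 i1988 a1896 a2423 (k1 i1950 k0)) (by decide +kernel)
def a3891 : PP 8 4 T 0x2001000000000000000008000000000000000000004000000400000000000025020 := rS 0x1611c7710a75c8c5569d60a2953a14fa6f1c9ec36014d8b5a40903a7c6cb843c6514794caa5224c0b10882c9 (k8 a3732 a3839 a3000 i518 i517 a110 a1832 a837 (k8 i1932 i523 a52 a1001 a3887 i524 i2669 i519 (k8 a3819 a1807 a329 i994 i2 i780 i1776 i1874 (k8 i968 i1329 i1935 a1825 i1928 a3889 i1065 i1290 (k8 a277 a425 i1779 a46 i711 a3890 i874 a3869 k0))))) (by decide +kernel)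
def a3892 : PP 8 4 T 0x2000000000000000000020000100000000000000000000000080000000000008020 := rS 0x351999dcac9 (k4 a3732 a424 i2365 i285 (k2 i355 a1045 k0)) (by decide +kernel)
def a3893 : PP 8 4 T 0x2101000000000000000020000000000000000500040000820400000000000015140 := rS 0x2c441948f67c5d5ac9 (k8 a3732 i1290 a465 a2062 i875 a2384 a466 i621 (k1 a373 k0)) (by decide +kernel)
def a3894 : PP 8 4 T 0x2001000000000000000000000000000000000000084000000400000000000011020 := rS 0x1f8dd36395e2297ece352a9963b17a5d32a9538b47ad20481d5a896183d70a5211060ac9 (k8 a3732 a3889 a3839 a3000 a3859 a3887 a3892 a276 (k8 i1403 i1290 i519 a3819 a1807 a335 a329 a1825 (k8 a1832 a837 a989 a1829 a435 i545 a1261 a1626 (k8 a2384 a367 i547 i586 i1976 i1152 i1773 i1411 (k1 i2034 k0))))) (by decide +kernel)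
def a3895 : PP 8 4 T 0x2001000000000000000000000000000000000000004000000400000000000011020 := rS 0x7f0fc40a68f33894a2a12a93183173a9bc5ad20481cee217203d70a5828588441 (k8 a3839 a3000 i518 a3889 a3859 a3887 a3892 a425 (k8 a46 i711 i519 a3819 a1807 a329 i968 i1065 (k8 a465 a44 i517 i2464 i820 a491 a3783 a3894 (k4 i875 a3893 a466 a1620 (k2 a1044 a2218 k0))))) (by decide +kernel)
def a3896 : PP 8 4 T 0x2001000000000000000000000000000000000000004000000400000000000001020 := rS 0x16c1007ae0e26f1e8745ad24ca5d5207048acba160d80522732610882a5 (k8 a3859 a3839 a3000 i517 i837 a110 i2 i780 (k8 i518 a543 a818 a3819 i519 a1832 a989 a837 (k8 a1807 a329 a341 a335 i968 i709 a3887 a3892 (k2 a3895 a3875 (k1 a3891 k0))))) (by decide +kernel)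
def a3897 : PP 8 4 T 0x2000000000000000800020000000000000000000005000000000000000000000000 := rS 0x19e0ac9 (k4 a3732 a385 i545 a1575 k0) (by decide +kernel)
def a3898 : PP 8 4 T 0x812002000000000001400001000090000000000000000105100000000000010000000 := rS 0x583f1f4a685 (k4 a77 a421 i1594 a263 (k2 a3469 i845 k0)) (by decide +kernel)
def a3899 : PP 8 4 T 0x12000000000000000002000000010000000000000000000000480000000080005000 := rS 0x821fc40e5 (k4 a408 i1306 i1516 a425 (k1 a981 k0)) (by decide +kernel)
def a3900 : PP 8 4 T 0x802002001000000000400008000500000000000000000101100480000000000005140 := rS 0xcc3f28982bd5a8f83cd32bab55745868f5421d (k8 i722 i820 i1784 a118 a116 a97 a420 i441 (k8 a1719 a377 a442 i1395 i1411 a3899 a1834 a263 (k2 a3898 i849 k0))) (by decide +kernel)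
def a3901 : PP 8 4 T 0x802002001000000000000008000500000004000000004000020480180010000805140 := rS 0x7e2c445989f3aad4ee31478cd9e9d7219cfb05a1b28ae512e93d225529c350ac9 (k8 a3732 a77 a118 a421 i2464 a110 i702 a543 (k8 a491 i441 a3900 a105 a385 i1327 i545 a425 (k8 a544 a2062 a1574 i875 a459 i712 a267 i970 (k4 i996 a1896 a380 a2010 (k2 a403 i844 k0))))) (by decide +kernel)
def a3902 : PP 8 4 T 0x2000000000000000000008000000000000000000004000000400000000000021020 := rS 0x669dd1ecf4e9d53e202c19c4705072150f124c9e4f63914b0d4e8a1b3c476a903824ba1b00a454a6157a5e32710b3f0e64c211061ac9 (k8 a3732 a118 a3839 a3000 i517 i837 a3896 i518 (k8 i2468 a2307 i1902 a427 a397 a3859 a110 i2 (k8 i780 a543 a3819 i519 a1832 a435 a441 i524 (k8 i523 i1912 i1953 i1835 i1874 i1776 i1853 i1939 (k8 a273 a1001 a77 a3901 a17 a3005 i2365 i595 (k8 i596 a1888 i971 a544 a2062 i875 i2469 i730 (k1 a1896 k0))))))) (by decide +kernel)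
def a3903 : PP 8 4 T 0x2002000000000005004008000401001415000400000000000001400000000818140 := rS 0x1ca7c7c2978abcea23 (k8 a3005 i971 a427 a2041 i1928 a1811 a1888 i296 (k1 a1896 k0)) (by decide +kernel)
def a3904 : PP 8 4 T 0x2002000000000005004019000111105414040440004100000000000000000818120 := rS 0x224283d8784e1d4ab4d4c853c8ec5ea90c81cc2af41a5c7b1938c34ea23 (k8 a3005 i971 a118 i2468 a2307 i1784 i1902 i151 (k8 a427 a397 i519 a3003 a1832 a1829 a435 a3719 (k8 a1002 a3903 a67 a1908 a471 i1915 a377 i713 (k2 i242 a273 (k1 a54 k0))))) (by decide +kernel)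
def a3905 : PP 8 4 T 0x2000000000000000000008000000200000000040000000000000000000000800000 := rS 0x37c561a71 (k4 i2468 a118 a57 i2645 (k1 a389 k0)) (by decide +kernel)
def a3906 : PP 8 4 T 0x2002000000000000000008000100000000000000004000000080000000000018120 := rS 0x24d9ab53f9dd868f1ab3d3ab919880b06772c15420729a243601439e532af41aa4ba618c9c4e70d489302cc9 (k8 a3732 i518 i517 a110 a118 i837 i2468 a2307 (k8 a397 a543 a1832 i151 a427 a3905 a3719 a1001 (k8 i2 i780 a1013 a421 i519 i820 a17 a424 (k8 i2365 i595 i596 i285 a3892 a544 a2062 i355 (k8 i875 a487 i2469 i844 i728 i730 a1020 a3904 k0))))) (by decide +kernel)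
def a3907 : PP 8 4 T 0x2100000000000000004019000000004400040400004000000400000000000001020 := rS 0x6f0e1f5a675510c5834f723145e1957ab5570d388587aa10383c22fc529088209 (k8 a3819 a3839 a3000 a3859 a3896 a3902 a3906 i519 (k8 i820 i1784 i518 i2468 a118 a97 a420 a427 (k8 a3003 a1829 a277 a425 a1160 a408 a459 a1700 (k4 i970 a99 i1594 a263 (k2 i1232 a1693 k0))))) (by decide +kernel)
def a3908 : PP 8 4 T 0x2200000000000001000008040000000001040000000005000000000000000000000 := rS 0xd659 (k2 a2 a464 (k1 a2670 k0)) (by decide +kernel)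
def a3909 : PP 8 4 T 0x2000000000000001004008000000000401040400004000000400000000000001020 := rS 0xcb4a964deb888071267da19d5443160d3dc8c5828bc3257289ccaa4c299855ead55c34e2161ea840e0f08bf14a42208256ac9 (k8 a3732 i886 a3819 a3839 a3000 a3859 a3896 a3902 (k8 a3906 i519 i820 i1784 i518 i2468 a118 a97 (k8 a420 a427 a397 a421 i517 i2464 i837 a491 (k8 i441 a3003 a1829 a3908 a277 a425 a1160 a408 (k8 a459 a1700 i970 a395 i1594 i1634 a263 a537 (k4 a3907 i1232 a426 i104 (k2 a3897 a1688 k0))))))) (by decide +kernel)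
def a3910 : PP 8 4 T 0x1000000000000002002000000000001000100000000000005080000000105000000000000000000000 := rS 0x5dd3cd4bf2cd0ca6af (k8 a427 a421 a133 i844 i1723 a460 a394 i1946 (k1 a404 k0)) (by decide +kernel)
def a3911 : PP 8 4 T 0x2000000000000001000008000000000401000400004000000400000000000001020 := rS 0xc2829fcae55a2a1cf29957a0d525d30c64e27386a44981607845f8a52110412bd (k8 i1988 a3819 a3839 a3000 a3859 a3896 a3902 a3906 (k8 i518 i517 a110 a118 i837 i2468 a2307 a397 (k8 a543 a1832 i151 a427 a3905 a3719 a1001 a116 (k4 i2464 i441 a3910 a3908 (k2 a3909 a276 k0))))) (by decide +kernel)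
def a3912 : PP 8 4 T 0x10002002000000000000000008001000001402001050004004100000000000000000000 := rS 0x933399596955c9d1387c30ab556c9 (k8 a3732 a97 a420 a397 i1935 a545 a1002 i1330 (k4 i1598 i1327 a407 i1587 (k2 i1590 i2040 k0))) (by decide +kernel)
def a3913 : PP 8 4 T 0x2000000000000001000008000000000400000000004000000400000000000001020 := rS 0xe410414ec7f4295ca255a2a1cf29957a0d525d30c64e27386a44981607845f8a52110412bd (k8 i1988 a3819 a3839 a3000 a3859 a3896 a3902 a3906 (k8 i518 i517 a110 a118 i837 i2468 a2307 a397 (k8 a543 a1832 i151 a427 a3905 a3719 a1001 a116 (k8 i2464 a491 i441 a3912 a3910 a3911 a3908 i711 (k2 a425 a46 k0))))) (by decide +kernel)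
def a3914 : PP 8 4 T 0x2000000000000001000008000000000000000000004000000400000000000001020 := rS 0x7da1a89834f723160a8561884fe7588a396a252ba44aaad558f542078cc34f29939abd06710b2a4ba4c3083c22fc529088209 (k8 a3819 a3839 a3000 a3859 a3896 a3902 a3906 a397 (k8 i517 a543 a1832 i518 i2468 i151 a427 i837 (k8 a3905 a3719 a118 a2307 i519 i820 i1784 a97 (k8 a420 i2464 a110 i441 a3783 i886 a3913 a28 (k8 i124 a930 i2481 a1038 a1002 a3908 a688 a425 (k4 a1160 a408 a1700 a395 (k2 i1594 a403 k0))))))) (by decide +kernel)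
def a3915 : PP 8 4 T 0x2000000000000000000008000000000800000000004000000400000000000001020 := rS 0xa25d8e582ce78b913ac382a7cb0958ba44c2af4b8f542078c9c61a99399302c0f08bf14a42208269ecc (k8 a3914 a36 a3819 a3839 a3000 a3859 a3896 a3902 (k8 a3906 i518 i517 i837 a3905 a118 i2468 a2307 (k8 i519 i820 i1784 i1902 a427 a397 a110 a432 (k8 a521 i874 i1187 a2 a487 a3868 a425 a2221 (k4 a463 a408 i1976 i1950 (k2 a2092 a1602 k0)))))) (by decide +kernel)
def a3916 : PP 8 4 T 0x2102000000000002000008000110000400000000000004140400000000000815040 := rS 0x1f68633511fcce316096186e4298f622c9 (k8 a3732 a380 i1784 a421 a425 a276 a2010 a408 (k8 a459 i544 i844 a2092 a1574 a395 i1594 a516 k0)) (by decide +kernel)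
def a3917 : PP 8 4 T 0x12002000002000002400001000110000000000000000000000401000000000015140 := rS 0x7f3ed0d7aa261b055f11 (k8 a380 a427 a408 a468 a2108 a1589 a395 i1594 (k2 i849 a403 k0)) (by decide +kernel)
def a3918 : PP 8 4 T 0x1000000000000002202000000000002014001000110000000000000000004100401000000000015140 := rS 0x1f144c13fb197aaf56aae9e6b (k8 a464 a36 a97 a420 a427 a1589 a132 i849 (k4 i1694 a1660 a3214 i1594 k0)) (by decide +kernel)
def a3919 : PP 8 4 T 0x2000000000000000000008000000000000000000004000000400000000000001020 := rS 0x2267b1409d8422728856acb8223d8b116603d32111ea5e1b4554894ae512e85942072782522732610882a5299855efc (k8 a3896 a427 a397 a421 a3859 a3839 a3000 i517 (k8 i837 a110 a3819 i702 i519 i820 i518 a543 (k8 a491 i441 a3783 a1832 a116 a118 i1902 i1784 (k8 a3902 a3905 a3906 a3914 a380 i1792 a3915 a3916 (k8 a385 a822 a977 a3917 a107 a3918 i1955 i250 (k2 i713 a54 (k1 a273 k0))))))) (by decide +kernel)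
def a3920 : PP 8 4 T 0x2202000000000000000041000000000001800000000004100000000000000000000 := rS 0xfe7d (k2 i1442 i926 (k1 a3214 k0)) (by decide +kernel)
def a3921 : PP 8 4 T 0x2202000000000040008005000100000000000000000100100080000041000001140 := rS 0x88b34fe1f1428c78f113a9e262140435063f5d8450a575093ca6af (k8 a427 a421 i702 i820 i441 i1867 i1953 i1945 (k8 i375 a3920 a1590 a108 a977 a45 i1860 i3126 (k8 a2041 a1811 i328 a127 i1308 a1913 i3135 a1778 (k1 a1038 k0)))) (by decide +kernel)
def a3922 : PP 8 4 T 0x2202000000000000004005000100000000040000000000100480000041000001140 := rS 0x1eb1902c5a7a1d7c225eb9580215da8e1b113e15d424f29abd5aab659ade20f (k8 a17 a1762 a464 a385 a97 a420 a427 a421 (k8 i702 i820 i441 a3214 a1778 a340 i1594 i1600 (k8 a977 a1834 a408 i1252 a107 a391 i3019 a60 (k4 i2954 i1339 a379 a3424 (k1 i1694 k0))))) (by decide +kernel)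
def a3923 : PP 8 4 T 0x10502200000000000000000000000000001408000400000100000000000000000800000 := rS 0x22e75 (k2 a773 a3132 (k1 a466 k0)) (by decide +kernel)
def a3924 : PP 8 4 T 0x2000000000000000014000000000000002000000400100000400000040000005000 := rS 0x26 (k2 a772 i1771 k0) (by decide +kernel)
def a3925 : PP 8 4 T 0x2202000000000000000004000100000000000000004000020480000041000801140 := rS 0x1088762c44441e3bc4e32a210b34e2c1869f986d347ad4d60f65964ae512ea8522732a94d5aab (k8 a97 a420 a421 i2464 i837 a110 i820 a543 (k8 a491 i441 a2 a385 a17 a464 a822 i874 (k8 a1719 a3921 a3922 a35 i1516 i2467 i848 a977 (k8 a2108 a2307 a1729 i711 a1066 i240 a9 i2994 (k2 a3923 a460 (k1 a3924 k0)))))) (by decide +kernel)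
def a3926 : PP 8 4 T 0x2100000000000000004000000000000002000000400100000400000040000005000 := rS 0xc4 (k2 a3924 a277 k0) (by decide +kernel)
def a3927 : PP 8 4 T 0x412002001000000000000000000000001000006050004100000000100000000810020 := rS 0x37c553097549855e9b (k8 i2649 a427 a397 a1832 i1856 a273 a1654 i2645 (k1 a389 k0)) (by decide +kernel)
def a3928 : PP 8 4 T 0x2000000000000000000000040000001000004020000000000000000024004810140 := rS 0x1fa205a1c (k4 i709 i1240 i710 i1422 (k1 a2121 k0)) (by decide +kernel)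
def a3929 : PP 8 4 T 0x12002001000000000000000000000001002000150004100000000100000000810020 := rS 0x3cc66267b (k4 i1896 a77 a2307 a3927 (k1 a1002 k0)) (by decide +kernel)
def a3930 : PP 8 4 T 0x2000000000000000000000000000000002000000404000000400000000000001020 := rS 0xd21fa503e6f3ec30e2931cbc62c7b143116a8f4e89ceab908880ce23071fcee5861c445e572e86c02913994d5f055bbf14a16261085641048940ec9 (k8 a3732 i519 a3783 a3819 a3839 a818 a3000 i517 (k8 i518 a3859 a3896 a3919 a3925 a427 a421 i837 (k8 a110 i2 i780 a543 i441 a1829 a361 i1867 (k8 a1949 i2469 i844 a3926 a3005 i2365 i596 i601 (k8 a3892 i971 i1772 a544 i875 i728 i1503 i1504 (k8 i1896 a466 a49 i1879 a19 a3928 a3929 a340 (k4 a357 a81 i2044 i256 (k2 a1908 a1917 k0)))))))) (by decide +kernel)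
def a3931 : PP 8 4 T 0x122002000000000001000011000101001405040440000100000000000000004818160 := rS 0x128d3388fc50273c1ee9c9f4144c3e6f3e8bc32af49c58ea23 (k8 a3005 i971 a466 a19 a427 a3003 a1829 a340 (k8 a357 a81 a2220 a1590 a680 a436 i2472 a1950 (k4 i1768 i973 i256 a3928 (k2 a1917 i2044 (k1 a1908 k0))))) (by decide +kernel)
def a3932 : PP 8 4 T 0x412002000000000000000000000000001000004050004100000000000000004810020 := rS 0xf11c8d8f119 (k4 a2307 a406 i972 i1852 (k2 a376 a3927 k0)) (by decide +kernel)
def a3933 : PP 8 4 T 0x802002000000000000000004000000000000000000000000100000000000000000000 := rS 0x10253 (k2 a421 a45 (k1 a2265 k0)) (by decide +kernel)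
def a3934 : PP 8 4 T 0x2000000000000000000004040000000000008000000100540000000000000800000 := rS 0x400e04c83 (k4 i2472 i713 i714 a108 (k1 i3087 k0)) (by decide +kernel)
def a3935 : PP 8 4 T 0x402102000000000000000000000100000001004000404000000080000000000008120 := rS 0xfc5027440b438783827e1acd5a9fceec388a1d1ecf4e9d5721110160ce230c81cba160d80522732614d5ec9 (k8 a3732 a427 a421 i517 i837 a110 i2 i780 (k8 i518 a543 i519 a3003 a3005 i2365 i595 i596 (k8 i601 a3892 i971 a544 a2062 i875 a358 a373 (k8 a487 i2469 i844 i728 i730 a3931 a680 a3932 (k8 i2046 i709 i1240 i710 i1768 i973 i1422 a2121 k0))))) (by decide +kernel)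
def a3936 : PP 8 4 T 0x2102000000000000000004000100000001000020004000020480000440004805140 := rS 0x3e47b368a1033afd043d6520546d3440b4391548aae267b5794c9e5d28b0d82213a8c5c8c9 (k8 a3732 a425 a459 i970 a46 a408 a276 a491 (k8 a543 i702 a421 a427 a3934 a3933 a97 a110 (k8 a117 i709 i1240 i710 a341 a1695 i2865 a2108 (k8 a3424 a108 a396 i545 a2092 a48 i895 i875 (k2 a2230 a2273 k0))))) (by decide +kernel)
def a3937 : PP 8 4 T 0x412002000000000000000000000000001000004050004100000000000000004800020 := rS 0x149e02119 (k4 a2307 a3932 a406 i1835 (k1 i973 k0)) (by decide +kernel)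
def a3938 : PP 8 4 T 0x2000000000000000000000000000000000000000404000000400000000000001020 := rS 0x28138fc58a263045169b4c25c7a828aa06187160bc586e46283d0a2f5495c3601489ccc2ab82a94562503c4cf6b75794df84f04858ba512610882c9 (k8 a3732 a3839 a3000 i517 a491 a543 i518 a3819 (k8 i702 a3896 a421 a427 a3919 a3934 a3933 i519 (k8 a3783 a818 a3859 a3925 a97 a397 i837 a110 (k8 i2 i780 i441 a1832 a1829 a3930 a3935 a277 (k8 a425 a276 a198 a408 a3936 a3937 a4 a3711 (k8 a1590 a3424 i1376 a273 i154 i1939 i523 a132 (k4 a2092 a1695 i1423 i736 (k2 a2105 a3807 k0)))))))) (by decide +kernel)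
def a3939 : PP 8 4 T 0x22000000000000000000000000000000000000000004000000400000000000001020 := rS 0x630a04ebe1fd0d7aa278845828b61b91300f4bd147a8240aa4ae9130c154a2b1281e267b5b94c9e090b1469e852e93084415d9a95efc (k8 a3896 a427 a3938 i1946 a3839 a3000 i517 a543 (k8 i1868 a394 a491 i518 a3819 i702 a421 a3919 (k8 a3934 a3933 i519 a3783 a818 a3859 a3925 a397 (k8 a110 i441 a1832 a4 a1590 a3424 a48 i1376 (k8 a3800 a273 a425 a276 i1939 a408 i523 a2221 (k8 a2092 a1589 a395 i407 a404 i736 a2105 i1719 (k1 a3807 k0))))))) (by decide +kernel)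
def a3940 : PP 8 4 T 0x2000000000000000000000000000000000000000004000000400000000000001020 := rS 0x1068107220387086a169e6a3dc4e0ab75794df8a51781c4a2b289742c1b0093c1291399308441 (k8 a3839 a3000 i517 i837 a110 a3819 i702 i2 (k8 i780 i518 a543 a491 a818 a3783 i519 a1829 (k8 a3859 a3896 a421 a427 a3919 a3925 a3933 a3934 (k8 a3938 a394 i1868 a3939 a3937 i709 i710 a3936 (k2 i2865 a3800 (k1 a108 k0)))))) (by decide +kernel)
def a3941 : PP 8 4 T 0x2002000000000005000001004001000401010520004014040080000040100000020 := rS 0x990c3e4fc6130794bd15043d5f9ed02ca5ba20fe2d0e2a40e1b00a44c2af56c4ca25d299542c4c (k8 i517 i518 i2464 a421 a543 a491 a3469 a420 (k8 a427 a397 a110 i2 i780 i519 a1832 i709 (k8 i1240 i2467 i710 i2468 i2037 i2865 a3934 a396 (k8 a3424 a108 a48 i1376 a274 a273 a406 i1113 (k4 a2671 i2046 i1422 i737 k0))))) (by decide +kernel)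
def a3942 : PP 8 4 T 0x22102000000000000000001005000001400010510044115140000000000000000000 := rS 0x2ee9eca4320a2a7f3794cc2ad (k8 a420 a397 a421 a357 a35 a3711 a1590 a2981 (k4 i2037 a20 i1683 a2892 k0)) (by decide +kernel)
def a3943 : PP 8 4 T 0x202102000000000004004000004101000400000500044004000080000040100000120 := rS 0x659fe9ebd1ed14226a5b0e10e7a869c626ad5794d52512e86c02a10393d22732a858988566964fab5 (k8 a444 a73 a426 a380 a361 i517 i518 i2464 (k8 i837 a110 i702 i519 i820 i2 i780 a543 (k8 a491 a1832 a421 a427 a420 a3469 a3941 a3942 (k8 a3937 i2473 i714 a3934 a3812 i1874 a116 i1784 (k4 i1988 a394 a3910 a1699 (k1 i2037 k0)))))) (by decide +kernel)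
def a3944 : PP 8 4 T 0x2101000000000000000000004000000000080000000011100000000000000000000 := rS 0x651495b43 (k4 a133 i1555 a1044 a439 (k1 i621 k0)) (by decide +kernel)
def a3945 : PP 8 4 T 0x2000000000000000000000000000000000000000004000000000000000000001020 := rS 0xa4ca0f2e0fe71378745ad27ead4fa59881dd1e9367a74eb1710b05566732294650561918aa735086c2c512495c98421590412250380406a9 (k8 a1832 i24 i2 i519 a3783 a3819 a3839 a818 (k8 a3000 i517 i441 i700 a491 i518 i780 i820 (k8 i837 i2464 a3940 a354 a451 i264 i2143 i265 (k8 i1618 i1656 i1534 i1529 a360 i1586 a407 a454 (k8 i1550 i1024 i1547 a466 a426 a73 a444 a3943 (k8 a1807 a329 a341 i968 i709 a3944 a3860 a2218 (k2 i1027 a1620 (k1 i621 k0)))))))) (by decide +kernel)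
def a3946 : PP 8 4 T 0x2000000000000085000000000005001405000580000100000000100040000800140 := rS 0x11400a0f07b (k4 i714 i2046 a1896 i1097 (k2 i1835 a3883 k0)) (by decide +kernel)
def a3947 : PP 8 4 T 0x2001000000000000000000000000000000000000008000800880000000000000020 := rS 0x455e8b1fc616f134327c723d6929c0e7241c35529b1597522a14eb3d0acd3f96621173ba3cc8493a8c836015582407052a858a24c (k8 i517 a491 i518 i2464 a451 i24 i1349 i1656 (k8 i2 i780 i264 i1586 i700 i265 i1024 i1547 (k8 a360 a466 a426 a3944 a380 a361 a454 a407 (k8 i2574 a110 a543 a416 a412 a1832 a375 a334 (k8 i536 i454 a1825 a1807 a335 a1837 i1712 a3946 (k8 a69 i856 a2722 a1022 a52 i539 i523 a1917 k0)))))) (by decide +kernel)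
def a3948 : PP 8 4 T 0x2001000000000000000000000000000000000000008000000880000001000000020 := rS 0x24d2a7116019a61f3994cfeb53e96620b9609dd1e758b88462ab3229465053082492030d804de51509542c4c (k8 i517 i518 i2464 i2574 a491 i1319 i2 i780 (k8 i24 i700 i1349 i37 a451 i264 i2143 i265 (k8 i1656 i1532 i1529 a360 i1586 i1024 i1547 i2948 (k8 i1026 a466 a426 a73 a444 a3944 a3947 i836 (k8 a1620 a2218 a1807 i520 i1240 i978 i1241 i2044 k0))))) (by decide +kernel)
def a3949 : PP 8 4 T 0x2000000000000000800001000000000008840000000000000000000000000000000 := rS 0x1774f (k2 a20 i1683 (k1 a2892 k0)) (by decide +kernel)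
def a3950 : PP 8 4 T 0x2020000000000000000000040000000000001500000100004000800000000000010a0 := rS 0x5dd3cd487413295eab2b944ba4f0498806550b130b2b5 (k8 a444 a426 i517 i518 i2464 i24 a3945 i1349 (k8 i702 a543 a491 i441 i457 i2338 a1240 a108 (k4 a3949 a3812 a394 i1946 (k1 a2892 k0)))) (by decide +kernel)
def a3951 : PP 8 4 T 0x2001000000000000000000000000000400000500000000400080008000000001020 := rS 0x1055225582a3690b40eb588084ca0f8bc54c2a12389502b70f824c4033f9542c7d28930aec9 (k8 a3732 i441 i517 a491 a936 i518 i2464 a1044 (k8 i24 a3945 i1349 a1620 a577 a3072 i859 a3948 (k8 i2574 i37 a51 a360 i285 i1545 i1611 a466 (k8 a444 a3950 i1237 a1807 a1824 i1614 i1671 a2218 (k2 a3201 a2241 k0))))) (by decide +kernel)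
def a3952 : PP 8 4 T 0x2000000000000000000001010200000000050000008015540000014000000005100 := rS 0xab6599e08e5 (k4 a382 a2241 a722 a385 (k2 i537 i2037 k0)) (by decide +kernel)
def a3953 : PP 8 4 T 0x202001000000000000000000000000000000000400010000400080014000000001020 := rS 0x156cb33c11ca20529c43ad203ab62a4f0480cdea123894c47340adcfe550b1f4a24c2bad41e59 (k8 a426 i595 a444 i441 i517 a491 a936 i518 (k8 i2464 a1044 a577 a3072 i836 a3945 i859 a3948 (k8 i2574 i1319 i24 i1349 i702 a51 i1353 a3950 (k8 a1807 a341 i709 a3952 a3873 a46 a425 a722 (k2 a385 i537 (k1 a1719 k0)))))) (by decide +kernel)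
def a3954 : PP 8 4 T 0x202001000000000000000000000000000400000500000000400080000000000001020 := rS 0x12695388b00cd31888582e452ae60a6407ad4b2610d804dea1238946a730f824c4033f9542c7d28930ae33 (k8 a3951 i441 i517 a491 a936 i518 i2464 a1044 (k8 i24 a3945 i1349 a1620 i836 i1116 i859 a3948 (k8 i2574 i1319 i2 i780 i37 a426 a444 i595 (k8 a3953 a63 i1026 a2241 a425 a408 a46 a459 (k4 a2218 a1807 i520 i1240 (k2 i978 i1242 (k1 i2044 k0))))))) (by decide +kernel)
def a3955 : PP 8 4 T 0x2000000000000000000011000000004400050544000000000000001200004000000 := rS 0x12a71 (k2 i1240 i978 (k1 i2044 k0)) (by decide +kernel)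
def a3956 : PP 8 4 T 0x2001000000000000000001040000000000000000000124540400000040000005140 := rS 0x80a104f140adc3ad2 (k8 a1807 a341 a577 a3072 a1818 a108 a1898 a3866 (k1 i1835 k0)) (by decide +kernel)
def a3957 : PP 8 4 T 0x2101000000000000000001000000000400000500000000400080000000100001020 := rS 0x10a794fb34d48a571ed943953a8c0e2d18b05c8a5078bd53154d9743601489bc8e25399fcfa3d40adca24f0480c56cf4eae5566756a4e2c6243960af112a85898c9 (k8 a3732 i517 i518 i2464 a3954 i441 a362 a358 (k8 a3945 a466 a19 i1352 a350 i537 a465 a399 (k8 a368 a416 i24 i1349 i702 a491 a577 a3072 (k8 a3424 a936 a1044 i836 i859 a3948 i1319 a110 (k8 i2 i780 a543 a412 a51 a1832 a1829 i596 (k8 a164 a425 a408 a459 a3955 i520 a1695 a1825 (k8 a1837 a1834 i714 a3956 i539 i625 a549 a551 (k2 i1853 i1868 (k1 i2046 k0))))))))) (by decide +kernel)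
def a3958 : PP 8 4 T 0x8002000000000000001800000081000001404004500008100000000000000000000000 := rS 0x214f29f352299e9d (k8 a399 a368 i539 i625 a551 i1853 i1868 i2046 k0) (by decide +kernel)
def a3959 : PP 8 4 T 0x8002101000000000001000001000000000404010500008000400080000000000000060 := rS 0x7e1114209e2af65250e27b0e8e5a4a700aa5365d489bce61f3f9542c3d40adca24c27824062b49ae55667 (k8 a350 i537 a465 a19 a416 i24 i1349 i702 (k8 i517 a491 a577 a3072 a3424 i518 i2464 a1044 (k8 a1620 i836 i1319 a110 a543 a412 a1832 i2 (k8 a1825 a1807 a1837 a341 i714 i709 i2044 a476 (k4 a3958 a1818 a108 a1898 (k2 i1835 i256 (k1 a1917 k0))))))) (by decide +kernel)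
def a3960 : PP 8 4 T 0x2101000000000000000001000000000400000500000000400080000000000001020 := rS 0x1c4580666880360137988e67f3e945731643b0cb057889542c4c (k8 i517 i518 i2464 a3954 i441 a362 a487 a358 (k8 a466 a465 a491 a936 a1044 i836 a3945 i1319 (k8 i2 i780 a3957 i730 a3959 i520 i1240 a1352 k0))) (by decide +kernel)
def a3961 : PP 8 4 T 0x2001000000000000001002000000000000000000000020000000000000200000100 := rS 0x6981c380e (k4 i724 i727 i600 a341 (k1 a1807 k0)) (by decide +kernel)
def a3962 : PP 8 4 T 0x2101000000000000000400040000000000000000000120540400000040000005140 := rS 0x14e08a145027413c502b761b143ad2 (k8 a1807 a341 a277 a487 a577 a3072 a1818 a108 (k4 i735 a1898 a3806 i1835 (k2 a548 a1160 k0))) (by decide +kernel)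
def a3963 : PP 8 4 T 0x2101000000000000000000000000000400000500000000400080000000000001060 := rS 0x66ab8f63953805529b2ea448e3d40adca24f15a1d7ecaa1ab526ab33c581e216089568582bc44aa1626024c403 (k8 i24 a3945 i1349 i517 i518 i2464 a3954 i441 (k8 a362 a3960 i859 i1248 a3961 i596 a466 a350 (k8 i537 a19 i1352 a84 a439 a396 a358 a416 (k8 i702 a491 a577 a3072 a3424 a3948 a110 a543 (k8 a412 a1832 i2 a1825 a1837 i714 a3962 a549 (k1 a3958 k0)))))) (by decide +kernel)
def a3964 : PP 8 4 T 0x2101000000000000000000000000000400000500000000400080000000000001020 := rS 0x116103c5390a9f13af68acd411ed2aaf160fc0c31723141e215fb2983435a30d0e581595cba4f0480d22550b11c4a815b94498cf4eaaccead49c5a2262 (k8 a3945 a3954 a466 a19 i1352 a350 i537 a399 (k8 a368 i517 a491 a577 a3072 i859 a3948 i518 (k8 i2464 a110 i24 i1349 i702 a543 i441 a416 (k8 a362 a358 a487 a3960 a84 i1248 a439 a396 (k8 a3961 i596 a277 a425 a459 a3963 a458 i520 (k8 i2338 i978 a3934 a108 a486 a48 i1416 i736 (k4 a856 a3806 a548 i2046 (k2 a1160 i1853 (k1 i523 k0))))))))) (by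 decide +kernel)
def a3965 : PP 8 4 T 0x2001000000000000000000000000000400000500000000400080000000000001020 := rS 0x5a9959659822accf16889f4fe572893c1262019542c4c (k8 i517 i518 i2464 i24 a3945 i1349 i702 a491 (k8 i441 a1044 a936 a3954 a466 a350 i537 a3964 (k4 a2 a385 a63 a822 (k1 a1240 k0)))) (by decide +kernel)
def a3966 : PP 8 4 T 0x102200000000000080000001000000000400004500008104020400100001004001140 := rS 0x854887559e4cf1648b2c1ead (k8 a445 a17 a385 a110 a466 a350 a1030 i537 (k4 a3847 a1719 a1007 a164 k0)) (by decide +kernel)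
def a3967 : PP 8 4 T 0x202201000000000000000000000240001000400180008104000000010040000800060 := rS 0x19d0dcab960b481203 (k8 i24 i1349 a1807 a44 a171 a382 a129 i289 (k1 a1836 k0)) (by decide +kernel)
def a3968 : PP 8 4 T 0x2201000000000000000000000000000400000500000000000080000000000001020 := rS 0x10458fe30945f9e554a55dd3d0d1035ab41ecb2c86456572e86d22551ac3506b53928c8e253d8e47ad24daa4020901a9c0e5250930c416 (k8 i518 a3945 i517 i2574 a3965 i454 a1825 i24 (k8 i1349 i2 a1832 a412 a1807 a335 a1837 i714 (k8 i859 a3948 a1824 i536 i2601 a334 a375 i1116 (k8 i2464 a110 i780 a543 i441 a416 a3003 a2 (k8 a385 a17 a445 a464 a3966 a3812 a20 i1684 (k8 a3967 a1719 a3877 a367 i538 a1000 a2331 a52 (k2 a1777 i523 k0))))))) (by decide +kernel)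
def a3969 : PP 8 4 T 0x202101000000000000400000008000000000000000008105020400000040000005140 := rS 0x44c522778a18206b56a159a5962b0c42e4 (k8 a425 a46 a276 a277 a426 a380 a361 i98 (k8 i2361 a1678 a3812 a198 a1214 i1835 a69 a127 k0)) (by decide +kernel)
def a3970 : PP 8 4 T 0x12001000000000000000000000000008008440000020100000000000040100000140 := rS 0xa020f11fabd6e2789d3da49d (k8 a407 a1807 a20 a69 i737 i856 a3106 a1022 (k4 a1818 a1917 a127 i1835 k0)) (by decide +kernel)
def a3971 : PP 8 4 T 0x212101000000000000400000000000000400400580008000020480500000000801140 := rS 0x18e373cc653c8719b3d3a92322b0feab1888586e462a941e596688d0a2b2b894a25d48955a47b (k8 i714 a1807 i2464 a110 a543 a491 i859 i441 (k8 a416 a361 a9 a380 a426 i595 a2241 a277 (k8 a425 a276 a46 a459 a3969 a3944 a1719 i1353 (k8 i1352 a407 a454 i1545 a3970 a3946 a33 i2650 (k2 i996 a1190 (k1 a2287 k0)))))) (by decide +kernel)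
def a3972 : PP 8 4 T 0x2001000000000000004000000008010000000000008000000000400000000008140 := rS 0x2bde099 (k4 i1112 a1888 i540 a1818 k0) (by decide +kernel)
def a3973 : PP 8 4 T 0x2001000000000000400000000000000400000500000000000080000000000001020 := rS 0xa2a055c115fadcd7134227d9a7d100394b424aaf55aab61a1d269d679622d111d8acae5d489548e2586a0d6a721c8f5a49b5480412035381ca4a10b130c505 (k8 a3968 a3945 i517 i518 i2574 a3965 i454 a1825 (k8 i24 i1349 i2 a1832 a412 a1807 a335 a1837 (k8 i536 i2601 a334 a375 i859 a3948 i2464 a110 (k8 a543 i441 a416 a435 a3971 a466 a362 a368 (k8 a399 a19 a358 a487 i582 i1352 a285 a476 (k8 a439 a129 a1719 i596 a3006 i730 a3972 a3946 (k8 a77 i1868 i1935 i1607 i601 a1879 a3883 a381 (k1 a462 k0)))))))) (by decide +kernel)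
def a3974 : PP 8 4 T 0x8002001000000000004804000000001000404080580008000000080000000000008060 := rS 0x11401ad089f78abd9a201d8acba91261ec723d6926d52010480d4e16 (k8 i518 a1825 i24 i1349 i2 a1832 a412 a1807 (k8 a335 a1837 i714 i517 a110 a543 a416 a435 (k8 i596 i730 a3958 a1818 a1888 a3946 i1868 i1670 (k2 i601 a3883 k0)))) (by decide +kernel)
def a3975 : PP 8 4 T 0x2100000000000000004000000000000002000000000100000400000040000005000 := rS 0x6b (k2 i1868 a3926 k0) (by decide +kernel)
def a3976 : PP 8 4 T 0x8002001000000000005800000000001000405000580008000000080001000000000060 := rS 0x378ca79e2af1d8acba91261ec723d6926d52010480d4e16 (k8 i518 a1825 i24 i1349 i2 a1832 a412 a1807 (k8 a335 a1837 i714 i517 a110 a543 a416 a435 (k4 a3958 a1818 a3946 a33 (k2 i996 a419 k0)))) (by decide +kernel)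
def a3977 : PP 8 4 T 0x2001000000000000000000000000000400000500000000000080000000000001020 := rS 0x22a3099082bd2f455e2ed6ccc428c5c8a507c599e9d61c450e7e3396195053d8e47ad253ad40e722900553154d824062b2ea842c4c23894c4c9 (k8 a3732 a3945 i859 a3948 i517 i518 i2574 a543 (k8 a416 i24 i1349 a412 a51 a1832 i2 a3965 (k8 i536 i454 i2601 a1825 a1807 a335 a1837 i714 (k8 a3968 a3973 i621 i2369 i622 a358 a373 a487 (k8 a544 a2062 a466 a3974 a2241 a425 a459 a3975 (k8 a3976 i848 i1949 i849 a116 i1901 i626 a1589 (k4 i1990 a422 i523 a52 k0))))))) (by decide +kernel)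
def a3978 : PP 8 4 T 0x2001000000000000000000000000000000000800008000020480000000000801100 := rS 0x692940eb92932d57044ab955a0f101956a322cc54c25728a84aac9 (k8 a3732 i2464 i2574 a491 i441 i37 a51 i806 (k8 i712 i2470 i1547 i711 i595 i1353 a46 i3000 (k8 a425 i538 a385 a3201 i1405 i454 i289 a1807 (k1 a1719 k0)))) (by decide +kernel)
def a3979 : PP 8 4 T 0x2001000000000000000000000000000000000200008004160400000000000801100 := rS 0x1a407529496acb2cab608ab07a4dca67110c14255 (k8 i2464 i2574 i970 i971 i1587 a459 i2953 a3005 (k8 i537 a425 i1352 a2 a385 a822 a1301 i249 (k2 i454 a1807 (k1 a1719 k0)))) (by decide +kernel)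
def a3980 : PP 8 4 T 0x2001000000000000000000014000000000000000080120140400000040000005140 := rS 0x2bca6bf653494b05 (k8 a2 a2241 a1807 a1719 a396 i2369 i2370 a3962 k0) (by decide +kernel)
def a3981 : PP 8 4 T 0x2001000000000000000000000000000000000000000000000080000000000001020 := rS 0xd61145b1e302789a096e815794c7e063d9e53ac507ab5870555a1ccc652c2551c753b91c322b2b9244a512e8589e093100d224c (k8 i517 a110 i24 a3945 i1349 i702 i518 a543 (k8 a491 i859 i700 i441 a416 a3003 a3948 a3978 (k8 a3979 a3977 a521 i874 i1024 i875 i2625 i538 (k8 a2 a487 i1353 i2365 a277 a3868 a1554 i879 (k8 a3980 a458 i2336 i2338 a3072 a577 a108 a68 (k4 i736 a406 a275 a52 (k2 i523 i547 (k1 a132 k0)))))))) (by decide +kernel)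
def a3982 : PP 8 4 T 0x20000000000000000000000000000008000000000000200000800000000000010a0 := rS 0x1ac228b8c1e58a0f23884cc650c925227b5babc9e090185986c743c4c4e82861c4581b009cca71537944c4fc2e9307e2b (k8 a416 a458 i517 a543 a3981 a3945 a491 i1319 (k8 a51 a421 i836 i2 i780 i520 i1240 a389 (k8 a1590 i736 a2220 a358 a275 a487 i518 i24 (k8 i1349 i702 a427 a118 a3934 a110 i700 a3003 (k8 i1024 i875 i2481 i265 i2365 a1043 a1554 a406 (k4 a52 i523 i547 a132 k0)))))) (by decide +kernel)
def a3983 : PP 8 4 T 0x10022100000000000000000000000000000000000000000020000480000000000005020 := rS 0xa70459a8b3c2622a9b48c4d047b5babca6fc27824c40328a1e228561974982b3a8c5c816 (k8 i518 a425 a459 i970 a416 i517 a543 a487 (k8 a3975 a373 a358 a491 i24 a3945 i1349 i702 (k8 a3981 a421 a427 a118 a3934 a1590 a2220 a110 (k8 a412 a51 a3055 a406 i1938 i1973 i523 a436 (k1 a1160 k0))))) (by decide +kernel)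
def a3984 : PP 8 4 T 0x21000000000000000000000000000000000000000000200004800000000000050a0 := rS 0x19828a7bc42236458e53f1818a15c8331dc4586c743c4c4e82861c4581b009cca71537944c4fc2e9307e2b1a8593acf33a3d8ac9 (k8 a3732 a277 a3982 i544 a2062 a544 i518 i1116 (k8 a416 a458 i517 a543 a3981 a3945 a491 i1319 (k8 a51 a421 i836 i2 i780 i520 i1240 a389 (k8 a1590 i736 a2220 a358 a275 a487 a373 a435 (k8 a1574 a425 a3975 a459 a3983 a33 a42 a52 (k4 i2035 i523 a376 a1160 (k2 a127 a436 (k1 i1968 k0)))))))) (by decide +kernel)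
def a3985 : PP 8 4 T 0x102000000000000000000000000000000400000400000000000000008000004000000 := rS 0xeb17 (k2 a360 i1586 (k1 a466 k0)) (by decide +kernel)
def a3986 : PP 8 4 T 0x21000000000000000000000000000000000000000000200000800000000000010a0 := rS 0xb53a880460e238cd7267479de2216529f4ff0c388b036013994df915379449862 (k8 a3945 i517 a491 i1319 a51 a3981 a421 i836 (k8 i2 i780 i520 i1240 a389 a35 a340 i1380 (k8 i518 a373 i2469 a3982 i544 i1406 a3985 i264 (k4 a3984 a3005 i596 i971 (k2 i728 a1352 k0))))) (by decide +kernel)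
def a3987 : PP 8 4 T 0x21000000000000000000000000000000000000000000000000800000000000010a0 := rS 0x1774f3521d95105a965047f3ec30e22c8a95cba1b0093c120337944c4550b2bd5aab3994df84c (k8 i517 a3981 a421 i836 a97 a420 a427 i518 (k8 i2464 a3945 a491 i1319 i24 i1349 i702 i2 (k8 i780 a543 i441 a51 i520 i1240 a389 a340 (k8 a35 a1590 a3986 a1692 a362 i2037 a3949 a3812 (k2 a394 i1946 (k1 a2892 k0)))))) (by decide +kernel)
def a3988 : PP 8 4 T 0x222002000000000000000001000000000000010000000115140000000000000000000 := rS 0x2ee9e6a43b29047f29abd5aab (k8 a97 a420 a427 a421 a35 a1590 i2037 a3949 (k4 a3812 a394 i1946 a2892 k0)) (by decide +kernel)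
def a3989 : PP 8 4 T 0x1002102000000000000000000000000000000000044000115140000000000000800000 := rS 0x5dd3cd4874120594b7441fc387086c40fab529abd5aab (k8 a97 a420 a427 a421 a1692 a1978 a362 a3988 (k8 a389 i709 i2467 i710 i2468 i2037 i2865 a108 (k4 a3949 a3812 a394 i1946 (k1 a2892 k0)))) (by decide +kernel)
def a3990 : PP 8 4 T 0x2100000000000000000000000000000400000020000000000080000000000001020 := rS 0x429d446e5638388e331a8bc4a1b00a1e22c33b960e6553795e2a9f4e84516f11487c32261f460f345410f5022b169ed5e5327824c4032ea4626b72893110fc038702cc9 (k8 a3732 i518 i709 a3987 a3981 i710 i517 a491 (k8 i2468 a3933 a110 a543 i24 a3945 i1349 i702 (k8 a421 a427 a3934 i1237 a416 i2865 a3424 a108 (k8 a48 a274 a406 a2671 i1422 a3003 i1357 i256 (k8 a6 a52 i523 a347 a33 a51 i441 i1319 (k8 i2464 i836 a3989 i2469 a487 a373 a358 i2 (k8 i780 i859 a1829 i1116 a3985 i264 a2851 a356 (k4 a424 a3005 i971 i1772 (k1 a1953 k0))))))))) (by decide +kernel)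
def a3991 : PP 8 4 T 0x2100000000000000000000000000000000000020000000000080000000000001020 := rS 0x295960f23a8d8221331952a31472e5101c248940e772c1cca6fc2a9bc9e0901974a24c2bc54c416 (k8 i518 a3945 a51 i441 i517 a491 a543 i24 (k8 i1349 i702 i1319 i2464 a3981 a421 i836 a3989 (k8 i2469 a3987 i859 i700 i709 i710 i1408 a3990 (k8 i985 a521 i1024 i875 i2481 i1345 i281 i265 (k4 i2365 i546 i1382 a2108 k0))))) (by decide +kernel)
def a3992 : PP 8 4 T 0x2100000000000000000000000000000800000000000000000480000000000001020 := rS 0x1045b0630e4528d41e21330c62e250d80622c32c1542c5d2b8f502b7861c4e66f28930a64f0480c56a31681d56fc8a9885ec9 (k8 a3732 a1829 a3945 a51 a3981 a97 a3987 i1237 (k8 a1695 a416 i24 i1349 i702 a421 i517 a491 (k8 i1319 i836 a3991 a389 a118 a4 a3424 i441 (k8 a543 i518 i2464 a3989 a487 a373 i2 i780 (k8 i859 a432 i985 i875 i2481 i2365 i1117 a2083 (k4 a425 a3983 a408 a52 (k2 a2092 i523 k0))))))) (by decide +kernel)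
def a3993 : PP 8 4 T 0x2100000000000000000000000000000000000000000000000480000000000005020 := rS 0x4116c18c3914ac32c1542c5d2b8f502b7861c4e66f28930a64f0480c56a31681d56fc8a9885ec9 (k8 a3732 a1829 a3945 a51 a3981 a97 a3987 i1237 (k8 a1695 a416 i24 i1349 i702 a421 i517 a491 (k8 i1319 i836 a3991 a389 a118 a4 a3424 i441 (k8 a543 i518 i2464 a3989 a487 a2241 a425 a3983 (k4 a408 a52 a2092 i523 k0))))) (by decide +kernel)
def a3994 : PP 8 4 T 0x22002000000000080000000000000000000000000000100000000000040000000140 := rS 0x3f088a15e1f (k4 a81 a427 a3503 i1835 (k2 i256 a1917 k0)) (by decide +kernel)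
def a3995 : PP 8 4 T 0x2100000000000000000000000000000000000000000000000480000000000001020 := rS 0x52f11f29e30a44a2d52716669d44023728397267478952311619dcfe582a95cfa1f899ed6eaf278584e1d4434c5609018bc5a0741430e27329c54de51313f0ba4c (k8 i517 a543 a3981 a3945 a491 i1319 a51 a421 (k8 i836 a3991 a389 a1590 a3987 i1237 a1829 i24 (k8 i1349 a416 a3994 a120 i1342 i735 i518 i702 (k8 a427 a118 a3934 a2220 a81 a340 i441 i2464 (k8 a3989 i844 i2469 a487 a373 a110 i859 a3992 (k8 i544 i1406 a3993 a424 a3005 i596 i971 i2485 (k8 a466 a19 a1788 i2044 a1908 a3852 i367 a2671 (k2 a2041 i256 (k1 a127 k0))))))))) (by decide +kernel)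
def a3996 : PP 8 4 T 0x2100000000000000000000000000000000000000000000000080000000000001020 := rS 0x8e320c88c77889622a5724974360127824066f28988aa163994df84c (k8 i517 a3981 a421 i836 i518 i2464 a3945 a491 (k8 i1319 i24 i1349 i702 i2 i780 a543 i700 (k8 i441 a51 a3989 a373 i2469 a3995 i264 i265 (k2 a3985 i1024 k0)))) (by decide +kernel)
def a3997 : PP 8 4 T 0x1002000000000000000000000000000000000020044000000000000000000000800000 := rS 0x44070e10d (k4 a340 a389 i709 i710 (k1 i2864 k0)) (by decide +kernel)
def a3998 : PP 8 4 T 0x2000000000000000000000000000000000000000000000000080000000000001020 := rS 0x38c34fc7d5ac10e6537e1bc2c512b9322a62 (k8 a3945 a51 i517 i441 a491 i518 i1319 a3981 (k8 a421 i836 a3996 a822 a3997 a3214 a35 i2467 (k1 a389 k0))) (by decide +kernel)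
def a3999 : PP 8 4 T 0x2202000000000000000000000000000000000040000000000000000000000001020 := rS 0x93a1ad1045d663198ac34e8e6301189c312b153d9e4de610791cd6b965988e24f8b89064910d0c51c480b9008601 (k8 i2 a3998 a3000 i740 i261 a2898 i984 i260 (k8 a1062 i873 i872 a432 a74 i749 a3945 a385 (k8 i1405 a464 a451 a17 i37 i1008 a353 a418 (k8 a51 i1102 a389 a2220 a3787 a406 a42 a347 (k8 i290 i1615 a132 i411 i1970 a1590 i894 a84 (k2 i1368 a447 k0)))))) (by decide +kernel)
def a4000 : PP 8 4 T 0x2202000000000000000000000000000000000000000000000000000000000001020 := rS 0x751b045ab5869c94a32120c4e28e27824061a0b804de482010cc20f23ae59662 (k8 a3945 a385 i1405 a451 a17 i37 a3998 a3000 (k8 i261 i1008 i2 i740 i260 i24 i1349 a74 (k8 a2898 i749 i984 i872 i873 i289 a3999 a456 (k4 i2600 i976 a3739 i325 (k2 i520 a2108 k0))))) (by decide +kernel)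
def a4001 : PP 8 4 T 0x2001000000000000000000000000000000000080000000000000000000000001020 := rS 0x1a6075014002a924068a64021824c403 (k8 i24 a3945 i1349 a3998 a3000 i827 i260 i261 (k4 a1832 i2 a1880 i834 (k2 a2658 a344 (k1 a1807 k0)))) (by decide +kernel)
def a4002 : PP 8 4 T 0x1002000000000000000000000000000000000000044000000204000000000000000000 := rS 0xe30d (k2 a65 i1359 (k1 a389 k0)) (by decide +kernel)
def a4003 : PP 8 4 T 0x2200000000000080000001000000000800000000008000000000000000008001140 := rS 0xab52a54640f5691d72cb (k8 a385 i1405 a451 a445 a17 i873 i1103 i289 (k2 i538 a1719 k0)) (by decide +kernel)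
def a4004 : PP 8 4 T 0x2000000000000000001011000050000400050000000000000000008000550000000 := rS 0x14a25 (k2 i287 i289 (k1 i2030 k0)) (by decide +kernel)
def a4005 : PP 8 4 T 0x2001000000000000400001010110000000040000008000100420014000410005140 := rS 0x7299848aa10a8d82d2 (k8 a1807 a44 a1824 i744 a1719 a3108 i537 a409 (k1 a722 k0)) (by decide +kernel)
def a4006 : PP 8 4 T 0x2200000000000000000001000000000000000010000000000000000000000001060 := rS 0xaa248578c659f161219cace5520cd1e3b1387c4635109649a7b3c8741eb9659d4ca7f3b95502b73e944de483092ca6ad5191d422d8a9cc5ec1488e47ad24daa4020901a9dfa1a2010c9e62 (k8 a3945 i1350 a3998 a3000 i260 a4000 a1825 i24 (k8 i1349 i2 a1832 a412 a1807 a335 a1837 i913 (k8 a44 a1829 a4001 a51 i1237 a3580 a451 a1824 (k8 a445 i827 a3004 i37 i261 i1008 a4002 a1110 (k8 a577 a3072 a72 i751 a3171 a63 i1010 a385 (k8 i1405 a17 i2503 a353 a418 i788 a506 i744 (k8 i2210 i2137 i2136 a331 a435 a4003 a4004 a4005 (k8 a382 a3952 a722 a3027 a2889 a368 a3410 a3236 (k4 a1002 a406 a3759 a378 k0))))))))) (by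 decide +kernel)
def a4007 : PP 8 4 T 0x8002200000000000000000000000000000000000010000000000000000000000001060 := rS 0x2a12396248578a9232ab6799c76270f8d4427b3c875960f5691cea653b95502b7289bc90612594d422d8a9cc5e911c8f5a49b54804120353bf4c41a2010e22b4 (k8 a4006 a444 a3998 a3000 i260 a3945 a4000 a1825 (k8 i24 i1349 i2 a1832 a412 a1807 a335 a1837 (k8 i913 a1829 a4001 a51 i1237 a3580 i827 a3004 (k8 i37 i261 i1008 a4002 a577 a3072 a72 i751 (k8 a63 i1010 a451 a445 a17 a385 i2503 a353 (k8 a418 i744 i2210 i2136 a331 a435 a350 a368 (k8 i537 a3410 a1719 a3236 a1002 a406 a382 a1609 (k2 a3759 a378 k0)))))))) (by decide +kernel)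
def a4008 : PP 8 4 T 0x2200000000000000000000000000000000000010000000000000000000000001060 := rS 0x4a23a2e93a1c4569155cb2cc475329dcaa482010ce6fd (k8 a4000 a4001 a3998 a3000 i261 a72 i751 a63 (k8 i1010 a3945 a385 i1405 a51 a4006 a444 a84 (k4 i1368 a4007 a466 a447 (k1 i1102 k0)))) (by decide +kernel)
def a4009 : PP 8 4 T 0x2000000000000080400010011000000800000020000000000400000000008005140 := rS 0x55a952432 (k4 i873 i877 i289 i1636 (k1 a1719 k0)) (by decide +kernel)
def a4010 : PP 8 4 T 0x102200000000000000000000000000000000000000000000000000000000000001060 := rS 0x780ac48e589215491955b3ccf161d89c6a212c934f6793a994ee5540944e66f241862a4b298b522391ea6c02a7479c1a4fd5c91d5a0f6586880430498806a9 (k8 a1832 i24 a3945 i1349 a3998 a3000 i260 a385 (k8 a17 a445 a451 i1405 a4000 a1807 a4008 a4009 (k8 a1825 i2 a412 a335 a1837 i913 i1237 i827 (k8 a3004 a51 i37 i261 i1008 a4001 a4002 a3072 (k8 a72 i751 a63 i1010 a353 a418 i788 a506 (k8 i744 i2210 a331 a435 a466 a350 a368 i537 (k8 a3410 a1719 a1002 a406 a382 a1609 a8 a3759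 (k1 a3765 k0)))))))) (by decide +kernel)
def a4011 : PP 8 4 T 0x2200000000000000000000000000000000000000000000000000000000000001060 := rS 0x33b9630335244d6a258823ce0911cb047aa151b494e2d008bd529b1487c4635109ecf21d0d03c8eb9659fcee553e944e66f241862a4b7e94c80430498806ad (k8 a445 i24 a3945 i1349 a3998 a3000 i827 a4000 (k8 a3004 a51 i37 i261 i1008 a4001 a4002 a1110 (k8 a72 i751 a3171 a385 i1405 a451 a17 i260 (k8 i2503 a353 a418 i744 i2210 i2137 i2136 a443 (k8 a412 a1832 a1829 i2 i1237 a1825 a1807 a1824 (k8 a3580 a335 a44 a1837 i913 a4008 a4009 a4010 (k8 a423 a444 a205 i2030 a4004 a406 a382 a722 (k1 a3146 k0)))))))) (by decide +kernel)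
def a4012 : PP 8 4 T 0x2001000000000000400011014000000400040554000011544000000200100400000 := rS 0x48a218251271688958faa1 (k8 a3173 a1110 a1301 a58 a2889 a19 i2044 i978 (k2 i979 a1332 (k1 i324 k0))) (by decide +kernel)
def a4013 : PP 8 4 T 0x400000000000002000000000000040001000000110000000000000000000000000000002000000000 := rS 0x146e5 (k2 a409 i324 (k1 a393 k0)) (by decide +kernel)
def a4014 : PP 8 4 T 0x802000000000000000000004040000000000100000000000540000000000000000000 := rS 0x1065d (k2 a5 a68 (k1 a108 k0)) (by decide +kernel)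
def a4015 : PP 8 4 T 0x402201000000000040000010004100000400045544000010544040000200418411000 := rS 0xe18c9061b904b19678cccf1660d0e22b41388480cb569554271 (k8 i1239 a3173 a72 a445 a385 a3000 i744 a331 (k8 a4012 a444 a84 i1247 a201 a350 a360 a368 (k8 a3410 a4013 a107 a468 a406 a1035 i913 i298 k0))) (by decide +kernel)
def a4016 : PP 8 4 T 0x2200000000000000000000000000000000000000000000000000000000000001020 := rS 0x3da2a08baa766319e2c561a747318488c848318ba38231352abd564f160fda6065ba04a27f39bf4ee755c9acaa473283d964b8a88c6a17009649a530480cf67937984c41d0d1208043 (k8 a3998 a3000 i261 i260 i2503 a3945 i37 i1008 (k8 a353 a418 i24 i1349 i827 i788 a506 i2 (k8 i740 i2210 i2137 a51 a3004 a385 a17 a63 (k8 a451 a72 a464 i1405 i1010 i751 a4000 a4001 (k8 a3171 a4002 a3072 a577 a4011 a402 a458 i520 (k8 i1221 i457 i2338 i1380 a4014 a3787 a4015 a432 (k8 i984 i872 i873 a1062 a406 a42 a347 a1105 (k8 i1615 a1762 a132 i411 i2202 i1970 a108 a48 (k2 i1255 a442 k0))))))))) (by decide +kernel)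
def a4017 : PP 8 4 T 0x2000000000000000002000000000000000000000000000000000000000000005020 := rS 0x6419119cb05 (k4 a4016 a408 a425 i264 (k2 i265 i2948 k0)) (by decide +kernel)
def a4018 : PP 8 4 T 0x2000000000000000000010000000004410050454000000000000008000400000000 := rS 0x5aa54eb17 (k4 a360 i1585 i1672 a201 (k1 i2044 k0)) (by decide +kernel)
def a4019 : PP 8 4 T 0x20000000000000000000000000000000000000000200000000000000000000010a0 := rS 0x2556a751895dc8ca238cd7277118849eab52a24fe7149b041e253ec31a6a1289ce2a4b29825fa8f0fc14de6131074341700920b24d01900862c (k8 i520 a3998 a3000 i24 i788 a506 i261 i2 (k8 i740 i260 i2503 a3945 i37 i1008 a4016 i2136 (k8 a1102 a2898 i1349 i827 a3004 a51 a4001 a4002 (k8 a3173 a402 a377 a340 a3756 i338 a4017 i1241 (k8 i1239 a897 i1341 i1380 i457 i1221 i744 i2137 (k8 i1548 i1026 a4018 i264 a1245 a425 i505 a459 (k4 i1011 a1692 i978 i2044 k0))))))) (by decide +kernel)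
def a4020 : PP 8 4 T 0x2000000000000000800011000000014400050154000000002000000000000000000 := rS 0xec67 (k2 i546 i2044 (k1 i752 k0)) (by decide +kernel)
def a4021 : PP 8 4 T 0x400000000000020402000000000000000814005000000000000105054080000000404000200000015000 := rS 0x106995da9d8c6b4ba2d22bf (k8 a396 a25 a52 a71 i547 a132 i337 i1680 (k2 i981 a2892 (k1 a3879 k0))) (by decide +kernel)
def a4022 : PP 8 4 T 0x20000000000000000000000000000000000000000000000000000000000000010a0 := rS 0x33cd49043a7e32665c2d4ae95a7b2862752399526c161b141e25089f62671861fd4aaf5593c583f69a6c3e23109649a7b3c87434a140adca273379862a4b29824c4fd47c140617009208043 (k8 a3998 a3000 i261 i2 i740 i24 a4016 a1102 (k8 a2898 a3945 i1349 i827 a3004 a51 i37 i1008 (k8 a4001 a4002 a577 a3072 a3173 i260 i2503 a353 (k8 a418 i788 a506 i744 i2137 i2136 a412 a402 (k8 a458 i520 i1221 i457 i2338 i1380 a897 a377 (k8 i1239 a4014 a340 a3787 a3756 i338 a277 a276 (k8 a4017 i1241 a4019 i265 i1010 a2643 a1245 a1160 (k8 i978 i505 a1692 a4020 i1406 a4021 i1189 a2897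 (k4 a406 a178 i1149 i548 k0))))))))) (by decide +kernel)
def a4023 : PP 8 4 T 0x2100000000000000001021000050000400050140008000002000010000550001100 := rS 0xa407894e26649a54de61 (k8 i37 i1008 i104 i130 i1406 i1407 a3749 i542 (k2 i2030 a2241 k0)) (by decide +kernel)
def a4024 : PP 8 4 T 0x2100000000000000001001000050000000050000000000000020000001450001100 := rS 0x2901e21 (k4 i744 i338 i2030 a2241 k0) (by decide +kernel)
def a4025 : PP 8 4 T 0x8802000000000000001800004001000001400104500008000540000000000000000000 := rS 0x2b90e5d (k4 a5 a69 a4014 a3958 k0) (by decide +kernel)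
def a4026 : PP 8 4 T 0x2000000000000000000001000000000000040010010000000000000000000001020 := rS 0x8661c602313652509e7b3ca056e911c8f536a95399dca335c8d442ab49c58ee7588b34ae0e121f55aa360b480ea1289ccde618a92ca6fd4785c021d0d120461f0498a0a59269008603 (k8 i24 a3998 a3000 i788 a506 a4016 a3945 i1349 (k8 i2136 i2137 i261 i260 i2503 i2 i740 a1102 (k8 a2898 i827 a3004 a51 i37 i1008 a4001 a4002 (k8 a3173 a4022 a1807 a44 a99 i1353 a1110 a4024 (k8 a3587 a3001 a2010 a38 i1010 i2508 a466 a19 (k8 a1817 i744 i2210 a4023 a4004 a409 a722 a1825 (k8 a1832 a412 a335 a1837 i913 a577 a3072 a353 (k8 a418 i1350 a3749 a476 a4025 a3787 a406 a2030 (k2 a2737 i928 k0))))))))) (by decide +kernel)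
def a4027 : PP 8 4 T 0x20002000000000000000000000000100000000000100040000000000000002000001020 := rS 0xf9841157a1916911c8f5a49b548254e077ea3c2e012418834cd2b83a0a59269008603 (k8 i24 a3998 a3000 i788 a506 a4016 a3587 a3001 (k8 a2010 i260 a3945 i261 i2 i740 a1102 a2898 (k8 a4022 a1825 i1349 a1832 a412 a1807 a335 a1837 (k8 i913 a52 a2737 i539 i523 i928 a1917 i375 k0)))) (by decide +kernel)
def a4028 : PP 8 4 T 0x2000000000000000000001000000000000040000010000000000000000000001020 := rS 0x9e4c21c57128ca554acb271c10acd2baacce0e7289066b90f88c6a212c934f6790ea8582a3488e47ad24daa54e070d11cea7d5694c125139bf51f050185c026f2410086618a98896c9 (k8 a3732 a3004 a3945 a51 i37 a3998 a3000 i261 (k8 i1008 i2 i740 i24 a4016 a1102 a2898 a4001 (k8 a4002 i1349 i827 i1353 a1110 i1010 i265 i260 (k8 a4022 a1825 a1832 a412 a1807 a335 a1837 i913 (k8 a99 a44 a3173 i2503 a353 a418 i788 a506 (k8 i744 i2210 i2137 i2136 a4023 a4004 a4024 a409 (k8 a3587 a722 a1817 a3001 a2010 a1949 a4026 i749 (k8 i1389 a2144 a476 a4027 a406 a8 a69 a3763 (k2 a2401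 i1112 k0))))))))) (by decide +kernel)
def a4029 : PP 8 4 T 0x8802000000000000000800000000000000000000500000000000000000002000001020 := rS 0xae439746a7b0ea44723d6926d52095381c34c76695ca2737ea3c2e0137920c3153112e0a59269008603 (k8 i24 a3998 a3000 i788 a506 a4016 a3004 a3945 (k8 a51 i37 i261 i1008 i2 i740 a1102 a2898 (k8 a4001 a4002 i505 a2010 i411 i260 a4022 a1825 (k8 i1349 a1832 a412 a1807 a335 a1837 i913 i2503 (k4 a418 i2210 a5 a69 (k2 a3757 a3958 k0)))))) (by decide +kernel)
def a4030 : PP 8 4 T 0x8002000000000000000800000000000000000000500000000000000000002000001020 := rS 0x10cc38c046267b3ca44723d6926d52095381c34676695ca2737ea3c2e0137920c3153112e0a59269008603 (k8 i24 a3998 a3000 i788 a506 a4016 a3004 a3945 (k8 a51 i37 i261 i1008 i2 i740 a1102 a2898 (k8 a4001 a4002 i505 a2010 a350 i260 a4022 a1825 (k8 i1349 a1832 a412 a1807 a335 a1837 i913 a353 (k4 a418 a4029 a3787 a406 (k2 a2030 a2737 (k1 i928 k0))))))) (by decide +kernel)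
def a4031 : PP 8 4 T 0x20002000000000000000804000000100000000000000050000000000000000000001020 := rS 0xa78455e6a458f5a40704989fa8f8280c2e012410086c9 (k8 a3732 a3998 a3000 i261 i2 i740 i24 a4016 (k8 a1102 a2898 a3945 i1349 a4022 a1807 a335 a52 (k4 a2579 i539 i523 a394 (k1 a1699 k0)))) (by decide +kernel)
def a4032 : PP 8 4 T 0x2000000000000000000000000000000000040000010000000000000000000001020 := rS 0x8715c4a32c3528c58a256695d94ab1999e2c7788ad0ea3b11884b24d3d9e4a273379862a4b488e47ad24daa412a703bf51f050185c0248310688043 (k8 a3998 a3000 i260 a3945 i261 i2 i740 i24 (k8 a4016 a1102 a2898 a4022 a1825 i1349 a1832 a412 (k8 a1807 a335 a1837 i913 a3004 a51 i37 i1008 (k8 a4001 a4002 a353 a418 i788 a506 i744 i2137 (k8 a435 i1010 a4028 a444 i2509 a466 a350 a360 (k8 i537 a1244 i505 a2010 a4030 a3128 a1332 a1609 (k4 a1038 a4031 a406 a8 (k2 a69 a2646 k0)))))))) (by decide +kernel)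
def a4033 : PP 8 4 T 0x10002100000000000001014000000000001400000100040000002020405001500000000 := rS 0x8715c48f679 (k4 a353 a418 a406 a8 (k2 a69 a2646 k0)) (by decide +kernel)
def a4034 : PP 8 4 T 0x2000000000000000800000000000000000040000000000000000000001000001020 := rS 0x2f022af4322e30338b334eab42bab476232c87546911c8f536a953868ce77321358ac318c454a0f50944e66f30c5496530fb05a40704989fa8f8280c90210b9008601 (k8 i2 a3998 a3000 i740 i744 i261 i24 a4016 (k8 a1102 a2898 a3945 i1349 a4022 a1807 a44 i2136 (k8 i827 a3004 a51 i37 i1008 a4001 a4002 a3173 (k8 i338 a2241 a2218 a1332 a276 a277 i788 a4032 (k8 i1548 i38 i260 a1825 a1832 a412 a335 a1837 (k8 i913 a99 i2503 a506 i2137 a435 i122 i505 (k8 a3108 i1011 a2010 a466 a360 a4033 a52 a2737 (k4 i539 i523 i934 a1589 k0)))))))) (by decide +kernel)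
def a4035 : PP 8 4 T 0x2000000000000000000000000000000000040000000000000000000001000001020 := rS 0x2b13d587c5ab2d4a0f0f88c42592687434a1289ccdf152594d82a36901c12fd47c14061700920804355990c262 (k8 a3945 i37 a4032 i1660 a3998 a3000 i261 i2 (k8 i740 i24 a4016 a1102 a2898 i1349 a4022 a1807 (k8 a99 a44 i827 a3004 a51 i1008 a4001 a4002 (k8 a3173 i260 i2503 i788 a506 i744 i2137 i2136 (k8 i338 a2241 a4034 a1244 a4024 a3108 i2869 a936 (k1 i1582 k0)))))) (by decide +kernel)
def a4036 : PP 8 4 T 0x2000000000000000000000000000000000040000000000000000000000000001020 := rS 0x9e4c21c57128ca554acb8b2159a752b8388f1172890eeab33990c259269ecf2911c8f5a49b548254e077ea3e0a030b80490620d10086c9 (k8 a3732 a3998 a3000 i260 a3945 i261 i2 i740 (k8 i24 a4016 a1102 a2898 a4022 a1825 i1349 a1832 (k8 a412 a1807 a335 a1837 i913 a353 a418 i788 (k8 a506 i37 a4032 i38 i1660 i1548 a4035 a409 (k8 a38 i2142 a3587 a3001 i1011 a2010 a1949 a466 (k8 a4030 a2144 a476 a4027 a406 a8 a69 a3763 (k2 a2401 i1112 k0))))))) (by decide +kernel)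
def a4037 : PP 8 4 T 0x2000000000000000000000000000000000000000000000000000000000000001020 := rS 0x71869f8e6fd47c14de172410086618a9880203 (k8 i24 i2 a3945 a51 i37 a3998 a3000 i261 (k8 i740 i1008 a4016 a1102 a2898 a4001 a4036 a35 (k2 i2506 a389 k0))) (by decide +kernel)
def a4038 : PP 8 4 T 0x2100000000000000000000000000000000080000000000000020000000000000020 := rS 0x2a8a14365ab460532a885fa574786866013a920ca038b998184b (k8 a3004 a4037 i521 a350 i24 i1492 i261 i1010 (k8 i2 i1610 i260 i873 a2889 a2898 i2504 i1489 (k8 i2577 i522 i2934 i2340 a133 a1044 a439 i497 k0))) (by decide +kernel)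
def a4039 : PP 8 4 T 0x10002000000000000000000000000000001401000000000001002000000000000400020 := rS 0x2e4490e6b2c9e59a7b2b9d4ca038b998184b (k8 a3004 a4037 i521 a350 i24 i1492 i1010 a2889 (k8 a418 a1006 a353 i2339 i2341 a2897 a406 a460 (k1 a5 k0))) (by decide +kernel)
def a4040 : PP 8 4 T 0x2000000000000000000001008000000001050000001000002000000000008400020 := rS 0x18b4f4333d86bd1f3c422af45c613a911ca6cc4948a8f572d2168258ee54f9e4aa77108c19a7b5fd0d26a93795cea6501c5ccc4b29a9c0efd478cc1801 (k8 i2 a4037 i1610 i873 a2898 i2337 a1825 i2577 (k8 a3004 i521 a350 i24 i1492 i1010 a2889 a1736 (k8 a1832 i1636 a106 a367 a418 a1006 i522 i2504 (k8 i1507 i1489 a353 a414 a392 a342 i263 a3572 (k8 a1807 i986 a335 a2869 a447 a438 i1181 a1837 (k8 i913 i1512 a4039 a52 i539 i523 a1818 a1917 (k4 i1412 i376 i1105 i2046 (k2 a20 i1523 (k1 a379 k0))))))))) (by decide +kernel)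
def a4041 : PP 8 4 T 0x2000000000000000000001008000000001050000000000012000000000008400020 := rS 0x9698b170714a980e66f2881d26a9299dc42307e95d1e33009d4ca038b998184b (k8 a3004 a4037 i521 a350 i24 i1492 i1010 i2 (k8 i1610 i873 a2889 a2898 i522 i2504 i1507 i2577 (k8 a1832 i1636 i2337 i497 a1736 a1880 a4040 i1018 (k4 i1280 i2044 i986 a329 (k2 i1264 a1807 k0))))) (by decide +kernel)
def a4042 : PP 8 4 T 0x202000000000000080000000000100000000040000000000000000000000140000000 := rS 0x2858225 (k4 a423 a44 a344 a2218 k0) (by decide +kernel)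
def a4043 : PP 8 4 T 0x20010000000000000000110040000004000401000000004100000000001104000a0 := rS 0x50389ccdf15278b0c44b659655a662a9dc600c (k8 a4037 i522 i1507 i1489 i521 i2934 i2339 i2340 (k8 a3004 i519 i520 i1221 a51 i1320 i976 i1239 (k2 a4012 a4002 k0))) (by decide +kernel)
def a4044 : PP 8 4 T 0x2100000000000000000000000000000000000000000000000020000000000000020 := rS 0x285820803b4d4ab9a12acfe255aa14fb102bbf4ee8f1094c3a752685c341f2412c8ecb2c994063300c5d5a23330c018c9 (k8 a3732 a4037 i522 i521 i2952 i2934 a350 i2 (k8 i1610 i24 i1492 i2339 i2340 i26 a3004 i261 (k8 i2136 i260 i740 i788 i1010 i2503 i2577 i2504 (k8 i873 i1507 a2898 a2889 a466 a1978 a1949 a1076 (k8 a423 a4038 a4041 a439 a1261 a129 a4042 a4043 (k4 a1807 i1265 i2139 a1245 k0)))))) (by decide +kernel)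
def a4045 : PP 8 4 T 0x2101000000000000000000000000000000040000000000000000000000000000220 := rS 0x1c4e6934aae4de60318b406a9479f55a66181d496b52bb2cb24f261dc2c42208cc1801 (k8 i2 a4037 i1610 a4044 a3000 i518 i712 i517 (k8 i2463 i2339 i2340 i2334 a1076 a3004 a1851 i522 (k8 i521 i2934 a1978 i874 a1832 i24 i1264 i1349 (k8 i263 i968 i986 i1674 a1109 i837 i1279 i2044 k0)))) (by decide +kernel)
def a4046 : PP 8 4 T 0x2000000000000000000000000000001088000000000100000000000000000800000 := rS 0xf319 (k2 a52 i1853 (k1 a1001 k0)) (by decide +kernel)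
def a4047 : PP 8 4 T 0x402001000000000000000000040000000000000000000000100000000044000010140 := rS 0x5241078503e78a9c7ad2 (k8 a1807 a335 a1825 a1818 a1811 a127 i256 i257 (k2 a1620 a334 k0)) (by decide +kernel)
def a4048 : PP 8 4 T 0x2101000000000000000010000000000000040004000000000000000000000000060 := rS 0x1cd2a635724ce2c10eb485651479f55a66181d496b5659dc66018989d8e1145a190acd2a964d60c2ba442c5d261088209 (k8 a4045 a4044 a3000 i517 a543 i518 a110 i2334 (k8 a4037 i2341 i2339 i1490 a2010 a1949 a460 a4046 (k8 i523 a342 i738 a69 i2 i1610 i712 i2340 (k8 a1076 a3004 a1851 i522 i521 i2934 a1978 i874 (k8 a491 a818 a1807 a341 a44 i709 i1509 a4047 (k4 i539 i1674 i837 i2044 k0)))))) (by decide +kernel)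
def a4049 : PP 8 4 T 0x21000000000000000000000000000000000400000000000000000000000000000a0 := rS 0x156532a944faad330c16a5765964184f0b1308441 (k8 a4044 a3000 i517 i518 i2463 a4037 i2339 i2340 (k8 i2334 a1076 i522 i521 i2934 a1978 a491 i1490 (k2 i2336 i2337 (k1 i2037 k0)))) (by decide +kernel)
def a4050 : PP 8 4 T 0x2101000000000000000000000000000000040000000000000000000000000000020 := rS 0x2e4de2d6901c1230060588441 (k8 a4044 a3000 i518 a4037 i522 a4045 a4049 a1807 (k4 a329 i968 i986 a4048 k0)) (by decide +kernel)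
def a4051 : PP 8 4 T 0x412001000000000000000004000000000000400000000100100000000044000010140 := rS 0xa2a055cd2 (k4 a1807 a4047 a3883 a381 (k1 a462 k0)) (by decide +kernel)
def a4052 : PP 8 4 T 0x2101000000000000000000000000000000000000000000000000000000000000020 := rS 0x72318216e0741aa8a50d3f00c565150c4c4ec708a2d0c8566954b26b0615d22162e9308441 (k8 a4044 a3000 i517 a543 i518 a110 i2334 a4037 (k8 i2341 i2339 i1490 a2010 a1949 a460 a4046 i523 (k8 a342 i738 a69 i2574 a491 a818 i24 a4050 (k8 a35 a1044 a3944 a334 i454 a1497 a4051 i1349 (k2 a3138 i837 k0))))) (by decide +kernel)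
def a4053 : PP 8 4 T 0x2100000000000000000000000000000000000000000000000000000000000000020 := rS 0x6f8a988e27e39c3556537e44d0c7b3b93d6b1042b34ea7d4886c2c572e94498552110496cb35964660156998600c (k8 a4037 i522 i521 i2934 i2 i1610 i2339 i2341 (k8 i2340 a3004 a4044 a3000 i1490 i517 a491 a543 (k8 i2334 i518 i780 a110 a1978 a1851 a2010 a1949 (k8 a362 a1076 i2463 i712 a1179 a460 a69 a4052 (k8 a421 a97 a3988 i836 i2037 i2467 a3937 a51 (k2 i1319 a3171 k0)))))) (by decide +kernel)
def a4054 : PP 8 4 T 0x2002000000000000000000000000000000080000000000000000000000000000020 := rS 0x1be2a623dc4d9a778808436162e894847348944824c249d4e25747c3496e52c8cc02231815608534aaaccc0c (k8 a4037 i521 a97 i1673 a421 a4053 a72 i522 (k8 i2952 i2 i1610 i2339 a392 a3004 a35 a930 (k8 a3022 i800 i1667 a2898 a440 i261 a2905 a110 (k8 i836 a3000 a570 a543 i518 i780 a977 a107 (k8 i712 a380 a205 a1179 a3937 a51 i1319 a3171 k0))))) (by decide +kernel)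
def a4055 : PP 8 4 T 0x102000000000000000000000000000000000000100000000020000000000000000020 := rS 0xb1d8848f2080cb23300c5ccc0c (k8 a4037 i521 a350 i2 i1610 i2339 i24 i788 (k4 i874 a3000 a466 i518 (k1 i712 k0))) (by decide +kernel)
def a4056 : PP 8 4 T 0x2002000000000000000000000000000000000000000000010000000000000000020 := rS 0x174710090430092c600c (k8 a4037 i522 a3004 i2 i517 a440 a3000 a2898 (k2 i740 i984 k0)) (by decide +kernel)
def a4057 : PP 8 4 T 0x102000000000000000000000000000000000000000000000020000000000000000020 := rS 0xe8577299866011a83c1904 (k8 a4053 a4037 i108 i354 i2 i1610 i521 a392 (k2 a728 a4055 (k1 i1587 k0))) (by decide +kernel)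
def a4058 : PP 8 4 T 0x2002000000000000000000000000000000000000000000000000000000000000020 := rS 0x1462049261fca704 (k8 a4053 a421 a4054 a4056 i30 a4057 a2905 a1778 k0) (by decide +kernel)
def a4059 : PP 8 4 T 0x2000000000000000000000000000000000000000000000020000000000000000220 := rS 0x3918ca48642b34b26b062d5fa5d2ac10fa4f0b108820328924af10 (k8 a4057 a58 i30 a2905 i24 i788 a3000 i518 (k8 i2463 a73 a4053 a72 a543 a4058 a822 a4037 (k8 i2341 i2339 a380 a361 a460 a3840 i1349 a3138 (k1 i837 k0)))) (by decide +kernel)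
def a4060 : PP 8 4 T 0x2000000000000000000000000000000000000000000000020000000000000000020 := rS 0x394d8dc7f1844bc0f2734c8a52e631e8b56cae690254e1103a0e1a8b139489ea143058bb133e95d9a85210aca3105a90522490080c762f54b1cd6590615608fd (k8 a4058 a4053 a72 a4037 i2339 i2341 a342 a1832 (k8 a1829 a435 i24 i2 i30 a110 i788 a822 (k8 a4057 a2905 a818 a3000 a361 a380 a58 a73 (k8 a205 a543 i518 a460 i2574 i2463 a3840 i738 (k8 a4046 a375 a334 i454 i523 a1825 a4059 a1807 (k8 a4047 a4051 a329 a335 i539 i1900 i1928 a837 (k8 i837 i973 a127 a1015 a2506 a6 a376 a41 (k2 a42 i2034 k0)))))))) (by decide +kernel)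
def a4061 : PP 8 4 T 0x2000000000000080000000000000000000000000000000100000000000000000020 := rS 0x45286935ca91822d0f894dea14aaacfe558214dfab5429f6208f19c5cee21181d42e010d10086482692ccc0c (k8 a4037 i521 a3004 a4060 a440 i517 a3000 i260 (k8 i2 i740 i1588 i522 a3007 i1507 a350 i1610 (k8 i873 a466 a73 a361 a444 a4058 i2577 a4053 (k8 a72 a1044 a4041 i1673 a3173 i1009 a423 i2136 (k8 a329 a44 a2218 i986 i1509 a129 a447 a2869 k0))))) (by decide +kernel)
def a4062 : PP 8 4 T 0x2000000000000000000000000000000000000000000000100000000000000000020 := rS 0x7149ae4c62d0434c0e4e559ccfe6f01aa596595695608fd0b874a6482ba14fab58823c3440218cc03173b88496303a934cc0c (k8 a4037 i521 a4060 i1588 i522 a3004 a3007 i1507 (k8 a350 i2 i1610 i517 a3000 i260 i873 a466 (k8 a444 a73 a361 a2889 a440 i2577 i2503 i740 (k8 a4058 a4053 a72 i2934 i2339 i2340 a1832 i24 (k8 i1009 a1044 a1880 a4041 a1301 i1221 a4061 a1807 (k4 i1264 i1349 i986 a1109 (k2 i750 a3860 k0))))))) (by decide +kernel)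
def a4063 : PP 8 4 T 0x20000000000000000000000000000000000000000000000000000000000000000a0 := rS 0x6f8a9ccc401241349650 (k8 a4062 a3004 a4060 a440 i2 i519 a2658 a51 (k2 i1320 a4002 k0)) (by decide +kernel)
def a4064 : PP 8 4 T 0x2000000000000000000000000000000000000004000000000000000000000000020 := rS 0x2dd5c2a31a5d1314308462710478cc03173b88460753303208a7168f5327350b480e090fbf4344021c34f248269c4a04b (k8 a3004 a4062 i1359 a4060 a440 a353 a65 i517 (k8 a3000 i260 a4058 i2136 i1309 a4063 a1807 a344 (k8 i834 a3697 a335 a329 a1825 a4053 a4037 i521 (k8 i1588 i522 a3007 i1507 a350 i2 i1610 i873 (k8 a466 a205 a3787 i1311 a4002 a337 a24 a51 (k4 a3733 a1605 i850 i500 k0)))))) (by decide +kernel)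
def a4065 : PP 8 4 T 0x2000000000000000000000000000000000000000000000000000000000000000020 := rS 0x103451f2bd6e2a4ba24dc9939a847a2d6929c0e0938c35065008c4e208f0d07cf27b201dcea48218849afd8245c6666180309601 (k8 i2 a3004 a4037 i522 i521 i1610 a350 a4053 (k8 a4058 a4060 a3007 i517 a440 i1588 i1507 a3000 (k8 a418 a353 i2136 i260 i873 a466 a205 a3787 (k8 a4062 a374 a65 i1359 i1309 a4063 a1825 a1807 (k8 a329 a335 a344 i834 a3697 a4064 i1317 i1324 (k4 a3733 i850 i500 a1811 (k2 a80 i1332 (k1 a462 k0)))))))) (by decide +kernel)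
def a4066 : PP 8 4 T 0x2000000000000000000000000000000000000000000000014020000000000400000 := rS 0xd1203205 (k4 a4065 i181 a440 a437 (k1 i748 k0)) (by decide +kernel)
def a4067 : PP 8 4 T 0x402001000000000000000000001000000000000000004000200000000000000410142 := rS 0xe5363f1bc60565c5b2b916895389c5a2f1ea85a4913c98494402193c9a834ca5c7605 (k8 a4065 a339 a989 a837 a374 i527 i31 i439 (k8 a3000 a4066 i1048 a1448 a102 a1807 a344 a335 (k8 a359 a329 a331 a1825 a754 i451 a2425 i500 (k8 i499 i850 a2497 a1577 a2551 a41 a42 i2034 k0)))) (by decide +kernel)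
def a4068 : PP 8 4 T 0x2000000000000000000000001010140000000000004000208000000080000000000 := rS 0xae5bc60f261279350605 (k8 a4065 a374 i527 i31 i1048 a1448 a3057 i850 (k2 a260 i500 k0)) (by decide +kernel)
def a4069 : PP 8 4 T 0x402001000000000000000000001000000000000000004000200000000000000400142 := rS 0xf0080a44e2b25100864d50b493297 (k8 a989 a837 a1807 a344 i527 i439 a3000 a4066 (k4 a4068 a331 a443 a4067 (k2 a127 a441 k0))) (by decide +kernel)
def a4070 : PP 8 4 T 0x2001000000000000000000001000000000000000004000200000000000000400142 := rS 0xaf45976243b449849440219349e05 (k8 a4065 i31 i527 i439 a3000 a4066 i1048 a754 (k4 a339 a4069 a5 i491 (k2 i499 a2425 k0))) (by decide +kernel)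
def a4071 : PP 8 4 T 0x2002000000000000080000010001000000000050000014004208000000000000004140 := rS 0xc6541446678694c3e40219849e9549ab556c9 (k8 a3732 i498 i1313 a115 a14 i31 i1048 i439 (k8 a3000 i182 i95 a65 i489 i185 a948 i2040 (k2 a2908 i465 k0))) (by decide +kernel)
def a4072 : PP 8 4 T 0x2002001000000000000000011001000000000050000014000208000005001000004140 := rS 0xd54a2210c44ac1f2010d82a151b492605 (k8 a4065 a115 a1807 a99 a344 a44 i439 a3000 (k8 i182 a4071 a58 a2991 a3027 a164 i2055 a2396 k0)) (by decide +kernel)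
def a4073 : PP 8 4 T 0x812001000000000000000021004000000000050000005000000000000000000000000 := rS 0x1108232e86c9 (k4 a3732 a351 a3897 a1261 (k2 a403 a205 k0)) (by decide +kernel)
def a4074 : PP 8 4 T 0x2002001000000000000000011001000000000050000014000208000001000002000140 := rS 0x3a32caa242b135a461278cc1e4021a5526c9 (k8 a3732 a115 a14 i439 a3000 i2204 i2050 i31 (k8 i1048 a1807 i527 a4071 a4072 i53 i506 i349 (k1 a1381 k0))) (by decide +kernel)
def a4075 : PP 8 4 T 0x2002000000000000000001000001040000010020000004000208000005500040004000 := rS 0xac8219c687765a9556b929964c24f47a5526c9 (k8 a3732 a115 a14 i1132 i31 i1048 a2924 i95 (k8 i1330 i1596 i1325 i1328 i1629 i2033 i490 a547 (k2 a1194 a445 k0))) (by decide +kernel)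
def a4076 : PP 8 4 T 0x2000000000000000000002000000000000000008005000200000000000000000000 := rS 0x194b8 (k2 i1399 i1397 (k1 a3897 k0)) (by decide +kernel)
def a4077 : PP 8 4 T 0x802001000000000000000021005000004440010000005000200000000000000000000 := rS 0xeccf664457e57821fa1a594ca1d5e5d8bb2ceac9 (k8 a3732 i1066 a3897 a465 a5 i499 a69 a837 (k8 a2924 a65 a4073 a1261 a3022 i1723 a205 a1729 (k2 a3558 a466 (k1 i810 k0)))) (by decide +kernel)
def a4078 : PP 8 4 T 0x2000000000000000000000008000000000000000000000200000000000000000000 := rS 0xfc56 (k2 i497 i498 (k1 a3022 k0)) (by decide +kernel)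
def a4079 : PP 8 4 T 0x1000000000000802000000000000000000110011050014000080000004000208000000000040004040 := rS 0xc654158e6533b357e25119d4af432caac80433093d0ec9 (k8 a3732 a69 i31 i1048 i439 a3000 a4078 a2924 (k8 a133 a3022 i1667 i1664 i842 i1723 i849 i489 (k4 i1049 a3078 a1729 i2040 (k2 a2943 i465 k0)))) (by decide +kernel)
def a4080 : PP 8 4 T 0x2802001000000000000000001001000000000000000004000208000001000002000140 := rS 0xe90533990febd5cd1534af459761a5955a5d32a13093d1e9549ab4fa0f19a8d822f16b483e4021a240ac9 (k8 a3732 a4065 a754 i439 a3000 i182 a1807 a329 (k8 a359 a44 a99 i2050 i2204 a4075 i1313 a115 (k8 a14 i1132 i31 i1048 a344 a837 a989 a4078 (k8 a2924 a65 a5 i491 i499 a336 a111 a4077 (k4 i1417 a4079 a4074 i38 (k2 a63 i1049 (k1 a2901 k0))))))) (by decide +kernel)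
def a4081 : PP 8 4 T 0x2000000000000000001001000000000010050000020000208000005500000004000 := rS 0x748299e1a59 (k4 a2924 a65 i38 a63 (k2 i1049 a2901 k0)) (by decide +kernel)
def a4082 : PP 8 4 T 0x2002001000000000000000001001000000000040000004000200000000000000400140 := rS 0x2ee9ea4610859a23359544b104fc10eacba1ae0cb0d489e4c24f418dc7ec508af557194d0ec7a3953a156cae7844c4e2915a8532973e83c661818808024a26a8d822f16b483e4021a259205 (k8 a4065 a3732 a754 i439 a3000 i182 a1807 a329 (k8 a359 a44 a99 i527 a4066 a4070 a349 i2724 (k8 i1045 i2050 i2204 a4075 a989 a837 a344 a4068 (k8 a443 a331 a4080 a127 a1818 i500 i1935 a1825 (k8 a401 a335 a333 a3489 a41 a4078 i1987 a441 (k8 a49 a6 a446 a374 i31 i1048 a1448 a102 (k8 a65 a4081 a4074 a351 a3897 i1066 a1261 i1190 (k8 a403 i349 a72 a464 a9 a380 i743 a3099 (k4 a2629 a13 i1944 a1790 k0))))))))) (by decide +kernel)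
def a4083 : PP 8 4 T 0x10402001000000000001000120004000001001001000005000000020100041400000000 := rS 0x9da7b0842872aa7e08cb8bb3cf4c9 (k8 a3732 a406 i1980 a465 a3897 a1261 i1190 a72 (k4 a3599 i743 a2701 a13 (k2 i1905 a463 k0))) (by decide +kernel)
def a4084 : PP 8 4 T 0x2002001000000000000000001001000000000000000004000200000000000000400140 := rS 0x13ec34e8d595055cb3cca676689446752b9f8f4858caf56c9a570458ac71dbc226ad3ea4d2b0d29aad12a71489c3e2d178f582a3489e4c24f418ad42d24ca5c7237188cc1e1801004944d2010d9205 (k8 a4065 a3732 i439 a3000 i527 a4066 a4070 a349 (k8 i1045 i2204 i2050 i2724 a446 a401 a989 a837 (k8 a1807 a344 a4068 a374 i31 i1048 a1448 a102 (k8 a99 a44 a335 a359 a329 i182 a331 a443 (k8 a1825 a754 a4078 i95 a65 a14 a115 a4075 (k8 i1313 a4080 a127 a333 a27 a49 a441 a1818 (k8 a3489 i500 i1987 a41 i1935 a406 a4082 a3022 (k8 i1667 i1664 i842 i849 i489 i1049 i1980 a4083 (k4 a948 i2040 a547 a544 (k2 a2030 a551 (k1 i2035 k0))))))))))) (by decide +kernel)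
def a4085 : PP 8 4 T 0x2001000000000000000000000000000000000008004000200000000000000000140 := rS 0x8aad4c24a0b87c9ea9299348043 (k8 i439 a3000 i527 i95 i1056 i31 i182 i969 (k4 a4066 i1048 a4076 a4084 (k1 a438 k0))) (by decide +kernel)
def a4086 : PP 8 4 T 0x2002000000000000000000010001000141000080000004000208000000000000004240 := rS 0x1454da2e323e5e1755ec68921d86c5109dd480d42c599aca82c34b22913900861e159e4c24f26a0d26ad12a84a62351aacce57329d52ac9 (k8 a3732 a14 i1667 i1049 a3022 i489 a4078 i201 (k8 i1663 i95 i197 i842 i1556 a115 a374 i527 (k8 i31 i1048 a1448 a4068 i1309 i439 a3000 a331 (k8 a443 a2924 a65 a948 i2040 a2010 a352 a1949 (k8 i465 i1387 a332 a1200 a277 a276 a1449 a2701 (k8 i2032 a3671 a5 i415 i414 a260 i491 i1417 (k2 a80 a967 k0))))))) (by decide +kernel)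
def a4087 : PP 8 4 T 0x2200000000000001000200000400141010000000000004200001140554000000000 := rS 0x3b4d8fde0b789a0e1a59 (k8 a2924 a65 a374 a1729 i1988 a127 a1022 a991 (k2 a333 i2034 k0)) (by decide +kernel)
def a4088 : PP 8 4 T 0x4002200000000000000000200001400145010000100004004208001140554000000000 := rS 0xce459d8bb11662bd7e6127a3cd6c9 (k8 a3732 a464 i1132 i31 i1048 i135 i1986 a4087 (k4 a380 i1970 a466 i491 (k2 i810 a3558 k0))) (by decide +kernel)
def a4089 : PP 8 4 T 0x2001000000000000000000001000001000080000004000208000140000000004240 := rS 0x11366af50b198232e2eb83388c4a752b96512a71489c804351aac7a2f168ad42533c93506994ba5527143093d9205 (k8 a4065 a3732 i31 i1048 a438 a115 a14 a989 (k8 a837 a374 i527 a1448 i95 i197 a4068 i2849 (k8 i199 a122 a4078 i201 i439 a3000 a331 a443 (k8 a1825 a754 a2924 a3022 i1667 i842 i1663 i489 (k8 a4086 a465 a3897 a1261 a2504 a1002 a4088 i849 (k2 a1729 a4083 k0)))))) (by decide +kernel)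
def a4090 : PP 8 4 T 0x2001000000000000000021001400000000040000004000208021000540002000000 := rS 0x460cebd2bb34468512c4209133e9d5974386aad12391b89d2229479e49a834ca5d2b143093d9205 (k8 a4065 a3732 i31 i1048 a438 a14 a989 a837 (k8 a374 i527 a1448 i1132 a443 i1169 a331 i1044 (k8 i2051 a754 a4078 a65 a351 a3897 i1066 i1330 (k8 a4073 a1261 a403 i349 a361 a9 a380 a58 (k4 a4087 i489 a4083 a2504 k0))))) (by decide +kernel)
def a4091 : PP 8 4 T 0x2200000000000000001011001000014010040000004000208020000500002000000 := rS 0xd1c8a5a11f622762b0944223331d4aa4756995970d559346661278c404c9 (k8 a3732 i180 i2724 i31 i1048 i2050 i527 a4078 (k8 a65 a385 a63 a445 a451 a72 a1371 i2040 (k8 i184 i743 i349 i489 i490 a58 i1629 a403 (k4 a164 a107 a2282 a364 k0)))) (by decide +kernel)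
def a4092 : PP 8 4 T 0x2101000000000000401010001000000000000000005008200040001500002000000 := rS 0xe5068d14a4712d08cc7556994aa4f5593512491983c809549c519205 (k8 a4065 a3732 a438 a115 a14 a3000 i2204 i2050 (k8 a2997 a754 i527 a4078 i31 i53 i1580 i1582 (k8 a1381 i2040 a439 i349 i1617 a129 a2282 a3062 (k2 a364 a425 k0)))) (by decide +kernel)
def a4093 : PP 8 4 T 0x2101000000000000401010001040000000000000004000208040000500002000000 := rS 0x56d0d48353395d56891983c62022025527143093d9205 (k8 a4065 a3732 i31 i1048 a438 a115 a14 a3000 (k8 i180 i2724 i2204 i2050 a754 a4078 a4092 i489 (k4 a547 i2033 a129 i1286 (k1 a439 k0)))) (by decide +kernel)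
def a4094 : PP 8 4 T 0x2001000000000000000000000000000000000008004000200000000000000000040 := rS 0x117454d9747cbc8cc498caf43a159a2372b0c4ac51095d480d65415727f49a56282b30a446e0f198e494180b86d822d5aa843c2f1ea8c10271490086a741c349e5955a5d324d44aa4a605 (k8 a4065 i95 i1056 a754 i527 a837 a989 a4078 (k8 a2924 i31 a65 a374 a1825 i439 a3000 a443 (k8 a331 a4085 i201 a122 i199 i1309 i197 i2891 (k8 i2849 i2850 i270 i968 a437 a4066 i2051 i2050 (k8 i2204 i1044 i1169 i1048 a4068 a438 a14 a115 (k8 a4089 a4090 a4091 a4093 i465 i1387 i506 a1200 (k8 a277 a3587 a276 a382 i2056 a2010 a1949 a3691 (k8 a3822 i2032 a2701 a260 i415 i414 a5 i1417 (k2 a80 i491 (k1 a967 k0)))))))))) (by decide +kernel)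
def a4095 : PP 8 4 T 0x2000000000000001814011001000140005450000005000000020004041100000082 := rS 0x134bc57a2d6e815da9c734f893187e2913afc4657 (k8 i506 i185 a396 a331 a443 a458 i2032 a2701 (k8 a59 i298 i337 i1680 a45 a3009 i452 i460 (k2 i2047 a336 (k1 i1417 k0)))) (by decide +kernel)
def a4096 : PP 8 4 T 0x2100000000000000800011001000140000040000004000208020000000000000082 := rS 0x13d183d8a90e778b194ea8566b0c4ac567a7467103e95c1a672ca451e793093c9a831d83d4a215007c121d86b4c0ac9 (k8 a3732 a4065 a402 a65 a2992 i3 i182 a377 (k8 i823 i364 i597 a339 a374 i527 i31 i1048 (k8 a1448 i1132 a102 a2924 i2263 i466 i506 i1328 (k8 a2107 a2770 a544 a2062 a277 a3587 a276 a2010 (k8 a1949 a453 i1049 a352 a332 a1449 a4095 i812 (k2 a3057 i2046 (k1 a33 k0))))))) (by decide +kernel)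
def a4097 : PP 8 4 T 0x2002000000000000000000000001020000000400000005000008000000080000000080 := rS 0x29d5c00018645e05 (k8 a4065 a363 i310 i1045 a349 a3604 i333 i460 k0) (by decide +kernel)
def a4098 : PP 8 4 T 0x2000000000000000080000041000140000000000005000000004004000000000002 := rS 0x1368b1b0e47719 (k4 a260 a339 i298 a1190 (k2 i452 i995 (k1 a336 k0))) (by decide +kernel)
def a4099 : PP 8 4 T 0x10002000000000000000000000001000140008040000004000208020000000008000000 := rS 0xf48a89a44f261279350627 (k8 a331 a374 i527 i31 i1048 a1448 a102 a69 (k2 a1191 a406 (k1 a857 k0))) (by decide +kernel)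
def a4100 : PP 8 4 T 0x2100000000000000020000000000000000000000040000000000000000000000002 := rS 0xc86b238ec1ec9 (k4 a3732 i597 a339 a366 (k2 i1790 a3479 (k1 i963 k0))) (by decide +kernel)
def a4101 : PP 8 4 T 0x2000000000000000400010005000014000000000045000000400000000000000082 := rS 0x2b4cac9 (k4 a3732 i963 i1226 i2040 k0) (by decide +kernel)
def a4102 : PP 8 4 T 0x2100000000000000400010041000154004000000004004208020000040100000082 := rS 0x95864662b1c66856688cce59558fcc24f1489c0ac9 (k8 a3732 a4065 a331 a443 i31 i1048 a458 a4078 (k8 a2924 i489 i185 a2010 a1949 a2770 a4098 a4100 (k4 a4101 a354 i205 i2032 k0))) (by decide +kernel)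
def a4103 : PP 8 4 T 0x2000000000000000400010001000014000000000004008208040000000000000002 := rS 0xc12998eaad32955564d249849ec9 (k8 a3732 i31 i1048 i29 i527 a4078 i53 i1580 (k4 i1582 a1381 i2040 a3084 (k2 i449 a3062 k0))) (by decide +kernel)
def a4104 : PP 8 4 T 0x2100000000000000400010001040154004000000004000208020000040100000082 := rS 0x2998cae1489c46cd42b1586252319cae433093d5659 (k8 a2924 a4078 i31 i1048 i21 a4103 i489 a4101 (k8 i205 a354 a4100 a1949 a2010 i185 a331 a443 (k4 a4102 i2032 i460 i336 k0))) (by decide +kernel)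
def a4105 : PP 8 4 T 0x2000000000000000000000001000140008040000004000208020000000008000000 := rS 0x11845244c24f (k4 i31 i1048 a102 a1191 (k2 a4099 a52 k0)) (by decide +kernel)
def a4106 : PP 8 4 T 0x2101000000000000000011001000000000040000004000208020000000000000080 := rS 0x28d96ab4aa4c000315a0c42870d065401f048761ad317c50c24f0ba652e05 (k8 a4065 a989 a837 a2996 i31 i1048 a438 a363 (k8 a402 a65 a2992 i3 i182 a377 i310 a437 (k8 a4105 i823 a374 a4097 i1045 a349 a115 a14 (k4 a4078 a4096 a3275 a4104 k0)))) (by decide +kernel)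
def a4107 : PP 8 4 T 0x2001000000000000000011001000000000040000004000208020000000000000080 := rS 0x662bab4cacb822ad2a932180006195007c121d86b4c5f143093d9205 (k8 a4065 a3732 i31 i1048 a438 a363 a402 a65 (k8 a2992 i3 i182 a377 i310 i1045 a349 i21 (k8 a115 a14 a4078 a4106 a385 a63 a445 a4103 (k2 i2040 i489 k0)))) (by decide +kernel)
def a4108 : PP 8 4 T 0x2001000000000000000001001000000000040000004000208020000000000000080 := rS 0x465166708970ae6b2abc22104899f597435c21cb2ab48a3cf24d4ca5d2a29138682e00018645e2b5007c121d86b4e286127a0d9205 (k8 a4065 a3732 a374 i31 i1048 a438 a402 a65 (k8 a2992 i3 i182 a377 a4097 a363 i310 i1045 (k8 a349 a2996 a437 a331 a443 a14 a989 a837 (k8 i527 a1448 i1132 a102 a4078 a2924 a4105 a4107 (k8 a351 a3897 i1330 a4073 a1261 a403 a127 a72 (k8 a464 a58 a3812 a441 i489 i451 a2504 a2497 k0)))))) (by decide +kernel)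
def a4109 : PP 8 4 T 0x10002201000000000000000021001000001444010000005004200000000055500000000 := rS 0x72c45e05d89965567926a0d329749c50aa6b (k8 a464 a72 a438 a115 a989 a837 a374 i527 (k8 a1448 a4078 a2924 a4077 a2497 a127 a3812 a3227 (k1 a107 k0))) (by decide +kernel)
def a4110 : PP 8 4 T 0x2000000000000000000000000000000080000000000000018020000000008000000 := rS 0xf427 (k2 a331 i492 (k1 a857 k0)) (by decide +kernel)
def a4111 : PP 8 4 T 0x2201000000000000000001001000001440080000045000200000010054008000080 := rS 0x19b953cf063a1a262552ae2322165c349e53559e49a834ca5d2a938a1f4ae23 (k8 a1765 a3022 i101 a438 a115 a14 a989 a837 (k8 a374 i527 a1448 a4078 i95 i31 a65 a385 (k8 a3230 a2504 a948 i1379 a3021 a4077 a4109 a1581 (k4 a127 a3599 a3227 i1711 (k1 a1045 k0))))) (by decide +kernel)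
def a4112 : PP 8 4 T 0x400000000000002100000000000000800000041000150040000000055000000000000000000000000 := rS 0x1774f3527d7b454d2e57ec9 (k8 a3732 a396 a1575 a336 a111 i1417 a856 a1947 (k2 a394 i1946 (k1 a1579 k0))) (by decide +kernel)
def a4113 : PP 8 4 T 0x2001000000000000000001001000000000000000004000208020000000000000080 := rS 0x627b89b1c6e39619a81a5c530415cbf628cd950545994cead3a95e867e158d41e000d00c32a00f89c530d29875560969a442e8f3c93506994b8bd2b143093d9205 (k8 a4065 a3732 i31 i1048 a438 a14 a363 a989 (k8 a837 a374 i527 a1448 i1132 a2996 a102 a402 (k8 i3 a4078 a2992 i95 a65 a443 a331 i182 (k8 a377 i310 i1045 a437 a349 i597 i1114 a4097 (k8 a4108 a133 a3022 i1667 i1556 i489 i1049 a4110 (k8 a4111 a439 a2770 a4100 a396 a4112 i459 i460 (k8 i499 i2277 i625 i1953 i1873 i1916 i337 a5 (k2 i1891 a2643 (k1 a2222 k0))))))))) (by decide +kernel)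
def a4114 : PP 8 4 T 0x2100000000000000000000055000154040000000055000000000000000000000000 := rS 0xa1b2972c9 (k4 a3732 a1575 i2040 a105 (k1 a4112 k0)) (by decide +kernel)
def a4115 : PP 8 4 T 0x4402200000000000000000000000000000000000000040000000000011054002004000 := rS 0xc1930de039 (k4 i234 a127 a1105 a3216 (k2 a1762 i1609 k0)) (by decide +kernel)
def a4116 : PP 8 4 T 0x2001000000000000000000000000000000000008004000208000000000000000000 := rS 0x772b3350ec35fb3c70283d216267d8b8c4eab8109acaacb822068a5d138d476ad4d4646e6545800ce0f0f2bc3003210ac82934aad4f314479842e9141c349e5955a5d32a9299340cc9 (k8 a3732 a4094 i527 i95 i1056 a837 a989 a4078 (k8 a2924 i31 a65 a374 a102 a2996 i1048 i1132 (k8 a438 a1448 a4076 a14 a115 a4113 a818 a3000 (k8 i1046 a252 i2250 i440 i595 i2246 i437 i2247 (k8 i2712 i1043 a260 a336 i2842 a339 i1114 a1276 (k8 a2497 a111 i1337 a4114 a385 a72 a464 a909 (k8 i2040 a1371 i1042 a465 i1330 a4077 a1002 a406 (k8 a4115 i1889 a3386 i1458 a3115 a982 i1968 a460 (k2 i1627 a2802 k0))))))))) (by decide +kernel)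
def a4117 : PP 8 4 T 0x2001000000000000000000000000000000000008004000200000000000000000000 := rS 0x4163006c3248258189a05 (k8 a4065 i527 a4094 a4116 a440 a2997 i748 i1008 (k2 a437 i1224 (k1 i2670 k0))) (by decide +kernel)
def a4118 : PP 8 4 T 0x2200001000000000000000000000000440000000040014000000140054008000000 := rS 0x22c754ea7cf6cc8c44876c9 (k8 a3732 i394 a127 a419 a1729 a390 a33 a347 (k2 a3109 a1006 (k1 a192 k0))) (by decide +kernel)
def a4119 : PP 8 4 T 0x402000000000000000000004000000000000000000000000200008000000040000000 := rS 0x40d15070d (k4 a65 a374 a80 i1332 (k1 a462 k0)) (by decide +kernel)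
def a4120 : PP 8 4 T 0x400000000001012200000000000000000011000010015010010000000104000000000500500000000 := rS 0x243f39622358b30546d2 (k8 a120 a99 a44 a447 a348 a3208 a2487 a403 (k2 a107 i842 k0)) (by decide +kernel)
def a4121 : PP 8 4 T 0x400000000001012200000000000000000011000010015010000000000104000000005500540000000 := rS 0xd54b163e30546d2 (k8 a120 a99 a44 a4120 a447 i1325 a348 i2033 k0) (by decide +kernel)
def a4122 : PP 8 4 T 0x2200000000000000000100054000094000000000000000000000000000000000000 := rS 0x5faed966b (k4 a464 a385 i1904 i1377 (k1 a391 k0)) (by decide +kernel)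
def a4123 : PP 8 4 T 0x4002201000000000000000000000000014000000008000000200000000000000000000 := rS 0x9d3b090eac75f0d17aa55dd09569b56a3cb219258e46e3d60a9cbaf103b485e2d448255e1a35ae59631328cc8e0220454e2a929930c405 (k8 a4065 a4117 i1320 i95 i1056 i57 a51 a2907 (k8 i788 a451 i192 a63 i1002 a385 i1405 a464 (k8 i787 i2350 i2858 i190 i1238 i318 a120 a402 (k8 a1818 a761 a67 a44 a335 a446 a401 i488 (k8 i181 a2924 i874 i2859 a412 a4078 a447 a86 (k8 a129 a338 a2282 a391 i2242 i1061 i356 i357 (k2 i1646 a3159 k0))))))) (by decide +kernel)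
def a4124 : PP 8 4 T 0x2200000000000080000000014010020000000008000000000000000000508004100 := rS 0x18e452c444a743f01d9647 (k8 a451 a385 a402 i1058 i1057 i842 a453 a1609 (k2 a107 a1719 (k1 a392 k0))) (by decide +kernel)
def a4125 : PP 8 4 T 0x2000000001000000001010000140010010000000000000000000015500000000000 := rS 0x92 (k2 i2033 a1020 k0) (by decide +kernel)
def a4126 : PP 8 4 T 0x2201000000000000000000000100000000000008000000200000000000000000000 := rS 0x127171a39418590c92c723703b0546b9658c4ca3323a55a489508bce62d0788c041a109022a715494c9809569895605 (k8 a4065 a4078 a4117 i2859 i2858 i1320 i95 i1056 (k8 i57 a51 a2907 i2544 i787 i788 i2062 i2206 (k8 i1238 i58 i318 a3580 i190 a120 a4124 a451 (k8 i192 a63 i1002 a385 i1405 a99 a44 a402 (k8 a446 a401 i488 i181 a2924 a1719 a392 a4125 (k2 a348 a3163 (k1 a4123 k0))))))) (by decide +kernel)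
def a4127 : PP 8 4 T 0x2201000000000000000000000000000000000008000000200000000000000000000 := rS 0x19a2c5649d0d4895198c5724732b2e1aab56ad522210f88c1ea139975e207690bc5a89010255e1a20454e2a929930c405 (k8 a4065 a4117 i1320 i95 i1056 i57 a51 a2907 (k8 i787 i2350 i2858 i788 i190 i1238 i318 a120 (k8 a402 a1818 a761 i58 a3580 i2206 i2062 i182 (k8 i2544 a110 i2894 i2859 a4078 a65 a385 a63 (k8 a451 i1405 i1002 i192 a4124 a4126 a129 i1364 (k4 a4121 a447 i529 a350 k0)))))) (by decide +kernel)
def a4128 : PP 8 4 T 0x102100000000000080400010010100010000000000000000221400000500101004108 := rS 0xd4627432958aae5060ccb2ab4481d82a3 (k8 a99 a44 a402 i190 a4078 a2924 i192 a1719 (k8 a392 i1489 a362 i1580 i530 i1002 i1061 a4125 k0)) (by decide +kernel)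
def a4129 : PP 8 4 T 0x2101000000000080400001010010010000000000001000221000000500541004108 := rS 0x3e0941a46889fd4b425c874b2ab2181d82a3 (k8 a99 a44 a402 a491 a4078 a2924 a2992 a3564 (k8 a439 a129 a133 a2629 a4128 i26 i205 a3093 (k1 a3588 k0))) (by decide +kernel)
def a4130 : PP 8 4 T 0x2000000000000000801010000140010010000000000000000000011500000000008 := rS 0x1919d26c9 (k4 a3732 i1367 i546 i2033 (k1 i193 k0)) (by decide +kernel)
def a4131 : PP 8 4 T 0x2001000000000000000000000000010000000008000000200000000000000000000 := rS 0x7cb74cc4d0c6b45c612e3b3d954cd175c0d4fc3112a950acd3a9f41a57a1afd94594dab56a493090c421f0c92c72371183d42731eb054ea32ebc40ed2178b5120204abc34408a9c552532618a0a05 (k8 a4065 a4127 a4117 i1320 i95 i1056 i57 a51 (k8 a2907 i787 i2350 i2858 i788 i190 i1238 i318 (k8 a120 a402 a1818 a761 a99 a67 a44 a335 (k8 i58 a3580 i2206 i2062 a446 a401 i488 i181 (k8 i182 i2544 a491 i37 i1008 i2894 i2859 a412 (k8 a2924 a4129 a396 a105 i2352 i465 i1328 a1851 (k8 a2010 a1949 a2241 a3587 i1003 a2908 i356 a4130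 (k8 a465 i1406 i1620 a1179 i395 i1324 a419 a52 (k4 i547 a460 a69 a3705 (k2 i857 i2034 (k1 a4119 k0))))))))))) (by decide +kernel)
def a4132 : PP 8 4 T 0x2001000000000000000000000000000000000008000000200000000000000000000 := rS 0x573a32929052612cc459559c55253 (k8 i95 i1056 i57 a4078 a2924 a4117 i488 i1320 (k4 a4127 a4131 a476 i1057 (k2 i2352 a1851 k0))) (by decide +kernel)
def a4133 : PP 8 4 T 0x2000001000000000000000041000500040400008005100000001000010002000000 := rS 0x8015a58f271 (k4 i57 a3719 a336 i388 (k2 i1323 a3721 k0)) (by decide +kernel)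
def a4134 : PP 8 4 T 0x400000000000002000000000000004014400000041200000000008000000000000155000000000000 := rS 0xc71da7d7b45 (k4 a433 i1990 i1113 i2737 (k2 a3078 i2035 k0)) (by decide +kernel)
def a4135 : PP 8 4 T 0x400000000000002000001000000001014410041040100001400208001100008001000015502000000 := rS 0x18cbda28ad0e9a3ca2cc671 (k8 i57 i488 i491 a3719 a4133 i1708 i388 a111 (k2 i1417 i2032 (k1 a3078 k0))) (by decide +kernel)
def a4136 : PP 8 4 T 0x400000000000002000000000000085014410000001000001000208000000208000155015502000000 := rS 0x2a8997132f1518f506a9299855efc4898ce205 (k8 a4065 i57 i488 a102 a4132 a427 a397 i95 (k8 i1056 a374 a335 a99 a3219 a4134 a4135 a5 (k2 a127 a2932 k0))) (by decide +kernel)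
def a4137 : PP 8 4 T 0x2000000000000001004000000000000001080208000200208020000001100000000 := rS 0x25cf08615c6532b789a0e1a735494cc2af7e08cae4d4898ce205 (k8 a4065 i57 i488 a102 i73 a3022 i185 a4132 (k8 a427 a397 i95 i1056 i58 a65 a374 a5 (k8 i1930 i1060 a2965 a2932 a2701 i1708 a968 a1448 k0))) (by decide +kernel)
def a4138 : PP 8 4 T 0x2000000000000001014000041000120041400008005100000024000001102000000 := rS 0x4ba6d02bb8931856873c9c4e8291388cae7e (k8 i1058 a3022 i185 a331 a443 i1057 i57 a3719 (k8 i1708 i388 i2032 a2701 i1680 a45 i1182 i1323 (k1 a336 k0))) (by decide +kernel)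
def a4139 : PP 8 4 T 0x2000000000000001014400000001020001000008000000208000150001102000000 := rS 0xae26871da7d6c7840d15303f5034d070d0e9ccc2af5cd0d9e331489c3e097e08cae6318c442e8b2e9022a715494ce87e (k8 i1058 i1057 i95 i1056 i57 a14 a2907 a4137 (k8 i491 i2644 a453 a1332 i488 a3022 i185 a4132 (k8 a369 i182 a331 a443 i2998 i2736 a121 i104 (k8 a427 a397 i58 a2992 a65 a374 a4136 a377 (k8 i2233 a4138 a433 i1864 a3697 i1060 i1113 i2737 (k4 a982 a398 i851 a2856 k0)))))) (by decide +kernel)
def a4140 : PP 8 4 T 0x2000000000000001014000000001020001000008000000208000150001102000000 := rS 0x27930be (k4 a4139 i1726 i1725 i2738 k0) (by decide +kernel)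
def a4141 : PP 8 4 T 0x2100000000000000000000000000020000000008000000200000000000000000000 := rS 0x30371c808023161b144a0f108d41a642a2159a4a88a74ae400b9d0ce7e8a96556715494c0ac9 (k8 a3732 a4065 i95 i1056 i57 a4078 a2924 a14 (k8 i1058 i1673 i1057 i2644 a2907 a3022 a544 a453 (k8 a1851 a2010 a1949 a362 i1539 i2927 i2729 i744 (k8 a2922 i764 a277 a276 a1332 i962 a349 a401 (k2 a446 i1045 (k1 a4140 k0)))))) (by decide +kernel)
def a4142 : PP 8 4 T 0x2100000000000000000000000000000000000208000000208000010001102000000 := rS 0x994ba2d6e78434545cc17228c47422a15cfa64659fd26b933c44ef0d2caad5253569252a4d48a3d6a6330bf05a1d449c462c9 (k8 a3732 i1042 i57 i231 a2992 i1040 a4132 a397 (k8 i488 a4076 i1132 a102 i73 a4141 i1008 a420 (k8 i95 i1056 a4078 a2924 a65 i79 a453 i1588 (k8 i1066 i1590 i1667 a2107 a2909 a1194 i1580 i1050 (k8 a403 a2999 a395 a107 a408 a3388 a363 a2935 (k4 i1708 i856 i1854 i1856 (k2 i1060 a1191 k0))))))) (by decide +kernel)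
def a4143 : PP 8 4 T 0x2100000000000000000000000000000000040008010004208040000000402004000 := rS 0x45a5d367b5bc4d0d1517281a683868752217479de2c996524cfa5956aad52535c9852a633899d5e1f20025f8c9 (k8 a3732 a4132 a369 a3000 i182 a427 i489 i57 (k8 i488 a4141 a397 a1575 i95 i1056 a4078 a420 (k8 a2924 a1978 i1321 i2040 a2925 a352 a332 i1132 (k8 a2996 a102 a2992 a65 a374 a2926 a377 i310 (k8 a363 a2935 a69 i856 i817 a991 i1324 i492 (k1 a336 k0)))))) (by decide +kernel)
def a4144 : PP 8 4 T 0x10012100000000000000800000041000110008080050051000008000000000000000000 := rS 0x116973dc4d22633bc5a86c9 (k8 a3732 a105 a352 a332 i488 a102 a69 i817 (k2 a968 i492 (k1 a4112 k0))) (by decide +kernel)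
def a4145 : PP 8 4 T 0x2000000000000001004000000000080005000008000000000020000001504000000 := rS 0x898ad007a (k4 i1324 i1323 i811 a45 (k1 a2701 k0)) (by decide +kernel)
def a4146 : PP 8 4 T 0x2100000000000001004000000000000001000008000006208000010001102000000 := rS 0x898acb8794525d0e7e2010c4683869cc9a1b07c6686996524cfa5956aad52535c9852a633899cca7557bf19205 (k8 a4065 a3732 a4132 a427 a4142 i1049 i489 i57 (k8 i488 a4141 a397 a1575 i95 i1056 a4078 a420 (k8 a2924 a1978 i1321 i2040 a2925 a105 a2642 a2922 (k8 i67 i73 i58 a65 a374 a2999 i703 a3000 (k8 a4143 a4144 a4145 a4112 a1448 i491 i388 a5 (k1 a2701 k0)))))) (by decide +kernel)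
def a4147 : PP 8 4 T 0x2000000000000001004000000000000085000000000000008000000001504000000 := rS 0x2262b20170f443 (k4 i2247 i492 i491 a3000 (k2 i811 a5 (k1 a2701 k0))) (by decide +kernel)
def a4148 : PP 8 4 T 0x2100000000000001004000000000004005000008050000208000000001504000000 := rS 0x83154b22d32ca56aad52535c9852a6338abdf8c9 (k8 a3732 a4132 a427 i57 i488 a4141 a397 a1575 (k8 i95 i1056 a4078 a420 i2040 a2925 a4147 a4114 (k2 a24 a4145 (k1 a2907 k0)))) (by decide +kernel)
def a4149 : PP 8 4 T 0x2100000000000001004000000000000001000008000004208000010001102000000 := rS 0x8b4ba6cf6b789a1847102aa657eca3ba4e2cb93e99d070d2caad525330abd5afc4aa44c6710d994eac9 (k8 a3732 a4142 i1049 i67 i57 i488 a102 a4141 (k8 a4132 a420 a427 a397 i95 i1056 a4078 a2924 (k8 a65 a374 i489 a1978 a1575 a352 i1321 a332 (k8 i2040 a396 a2925 a4146 a362 a9 a4148 a69 (k4 i857 i817 a991 i1324 (k2 i492 a336 k0)))))) (by decide +kernel)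
def a4150 : PP 8 4 T 0x2102000000000000400000000000010000000000054000000000000000000000000 := rS 0x24a2cc9 (k4 a3732 a352 a2909 a19 k0) (by decide +kernel)
def a4151 : PP 8 4 T 0x12002000000000001405000001101048045000008004000000420004001100005000 := rS 0xae263f5b1e00c9851a6ce273049855e23 (k8 i184 a427 a397 a369 i58 i57 i1450 i1633 (k8 a336 a2108 a3697 i1060 a458 a398 i851 a2701 k0)) (by decide +kernel)
def a4152 : PP 8 4 T 0x102102001000000001401001000000000005050000400000200000000005542005000 := rS 0x6329a243da7d147ed35f2817abb51d0a1a1d55abd5aa5 (k8 a164 a420 a427 a4078 a2992 a65 a403 a395 (k8 a86 a338 a3610 a391 a344 i2233 a18 a60 (k4 i1259 a436 a442 a2915 (k1 i336 k0)))) (by decide +kernel)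
def a4153 : PP 8 4 T 0x2100000000000001014000000000000001000008000000208000010001102000000 := rS 0x2a3cb1d38923e30516971987c4e2978b90460d2011c867633294d6cb3fc450e56329d41f0d5494c12955a98ce2617e06d9205 (k8 a4065 a3732 i67 a4132 a397 i57 i488 a4076 (k8 a4141 a369 i95 i1056 a65 a2922 a4142 i1049 (k8 a4149 a387 a58 a3022 i506 i508 a164 a4150 (k8 i490 i2246 i2980 a3000 a3062 i184 a425 a198 (k8 a443 a331 i182 i2050 a4145 a4147 a408 a4152 (k4 i1629 a4151 i1640 i1857 (k2 i2032 i388 k0))))))) (by decide +kernel)
def a4154 : PP 8 4 T 0x2100000000000000000000000000000000000000000000008000020001100000000 := rS 0x5688198ca2372c5d1ec9 (k8 a3732 i1132 a348 a364 i247 i2729 a352 a107 (k2 i489 a58 k0)) (by decide +kernel)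
def a4155 : PP 8 4 T 0x2100000000000001004000000000000001000008000000208000010001102000000 := rS 0x4458856 (k4 a4149 a4153 a58 a688 k0) (by decide +kernel)
def a4156 : PP 8 4 T 0x2100000000000000000000000000000000000008000008208000000001001000000 := rS 0x33b2c000d5a80c86633899492617e254fe05 (k8 a4065 a3022 i1058 a4132 a397 i1008 i1580 i57 (k8 i488 i438 i1045 a4076 a3062 a349 i506 i449 (k1 a4150 k0))) (by decide +kernel)
def a4157 : PP 8 4 T 0x2100000000000000000000000000000000000008000008200000010001001000000 := rS 0xcd828951a948f175c8096a2d8a8c43493331d002620b9dc984b5582492617e44442953f8bd9205 (k8 a4065 a3732 i1053 a3022 i1058 a2991 a58 a4132 (k8 a397 i1008 a369 a4078 a4156 a440 i1628 i708 (k8 i527 i2257 i530 i529 i1322 a437 a1332 a51 (k8 i1238 i2894 a349 i1066 a350 i2961 a1609 a1695 (k4 i190 a193 i192 i2033 k0))))) (by decide +kernel)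
def a4158 : PP 8 4 T 0x2000000000000000000000000000000000000008000008220000010001001000000 := rS 0x1821f50c5c1a0216c54621a3310c02620bc343aab39825f87f17a956acb820862205 (k8 a4065 a58 a2991 a4157 a385 i1397 a164 i1053 (k8 a3022 a4132 a369 i58 a4078 a2992 a65 i708 (k8 i527 i2257 a491 i529 a437 a1332 a51 i1238 (k4 a349 a3062 a350 a3580 (k2 i2061 a193 (k1 a1835 k0)))))) (by decide +kernel)
def a4159 : PP 8 4 T 0x2000000000000000000000000000000000000008000008200000010001001000000 := rS 0x22e755c24cee6700034064347928c64d65c1156a929ab6225532924c2fc4a9fd9205 (k8 a4065 a3732 a3022 i1058 a4132 a397 i1008 i1580 (k8 i53 a58 a420 i95 i1056 a4078 a4157 a385 (k8 a4158 i1320 a440 i1132 i438 i1045 a3062 a349 (k4 i449 i1627 i1322 i2040 (k2 a1381 a465 (k1 a466 k0)))))) (by decide +kernel)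
def a4160 : PP 8 4 T 0x2000000000000000000000000000000000000008000008200000000001001000000 := rS 0x23728d22221 (k4 a2991 a58 a4159 a364 (k2 i246 a107 k0)) (by decide +kernel)
def a4161 : PP 8 4 T 0x2000000000000000000000000000000000000000000008000000020000009000000 := rS 0x44d009d40ac9 (k4 a3732 a4065 i1061 i1114 (k2 i530 a349 (k1 i189 k0))) (by decide +kernel)
def a4162 : PP 8 4 T 0x2000000001000000000000000000000000000000010008000400010000008000008 := rS 0x116330c4664c (k4 i189 i192 i1002 i529 (k2 a429 a350 k0)) (by decide +kernel)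
def a4163 : PP 8 4 T 0x2000000000000000000000000000000000000008000008200000000000001000000 := rS 0x8b9d570cb33a3d6a4a319340003499dc6a1a4485c3e402390dca242caad525304ab6225532924c2fc4a9fd9205 (k8 a4065 a3732 a3022 i1058 a4132 a397 i1008 i1580 (k8 i53 a58 a420 a369 i95 i1056 a4078 a2924 (k8 a4160 a409 i858 i205 a3000 i182 i739 i1317 (k8 a437 a4161 i804 i1322 a4162 a349 i788 i448 (k8 a440 a4076 i1132 a3344 i506 i2040 a1381 a465 (k1 a466 k0)))))) (by decide +kernel)
def a4164 : PP 8 4 T 0x2000000000000000000000000000000000000008000008200000000000000000004 := rS 0x39546a55c34d260c6599c3c06319288f142100082ab5494cc2fc4a9fc5a1d44860e205 (k8 a4065 i57 a4163 i231 a2992 i1040 a3022 i1058 (k8 a4132 a397 i95 i1056 a4078 i180 a349 a3000 (k8 a2907 i1578 i1037 i448 i439 i440 i2246 i2252 (k8 i441 a115 a402 a4101 i1379 i241 a392 a2475 k0)))) (by decide +kernel)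
def a4165 : PP 8 4 T 0x2000000001000000000000000000000000000008040008200000010000000000000 := rS 0x3296ab94998c667726aad52535699492617e254fe2d0c07404c9 (k8 a3732 a4164 a2992 a4163 i1040 a3022 i1058 a4132 (k8 a397 i1008 i1580 a420 i95 i1056 a4078 i529 (k8 i1627 i193 i1320 i1322 a1710 a4076 i2040 i506 k0))) (by decide +kernel)
def a4166 : PP 8 4 T 0x2000000000000000000000000000000000000000000008000000008000002000008 := rS 0x8c41 (k2 i2050 i192 (k1 i1578 k0)) (by decide +kernel)
def a4167 : PP 8 4 T 0x2000000001000000000000000000000000000008000008200000010000000000000 := rS 0x458cc31108cc0418 (k8 a4163 a4164 a4166 a2991 i1042 a4165 a429 a350 k0) (by decide +kernel)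
def a4168 : PP 8 4 T 0x8002000000000000000400000015000010000000000015000000000000000000000000 := rS 0x5ca4ccec9 (k4 a3732 a350 a19 a465 (k1 i2040 k0)) (by decide +kernel)
def a4169 : PP 8 4 T 0x2000000000000000000000000000000000000408000008200000010000000000000 := rS 0x7449c44aa8f2686e2ecb5a98c944021835c81838a54fe6524ab4c2fc5494d56c9 (k8 a3732 a4078 i95 i1056 a4132 a397 a420 i1008 (k8 i1580 a3022 i1058 i57 a4163 a4167 a392 i441 (k8 a3000 i181 i488 a4076 i506 a4168 i67 i787 (k4 i1130 i53 a58 i1322 (k2 a466 a1381 k0))))) (by decide +kernel)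
def a4170 : PP 8 4 T 0x102002000000000000415001000100000000050000400000200400000001542005000 := rS 0x31c22a61ed147ed35f2817abb51d0a1a1d55abd5af1 (k8 a198 a420 a427 a4078 a2992 a65 a403 a395 (k8 a86 a338 a3610 a391 a344 i2233 a18 i1259 (k4 a442 i1912 i336 a132 k0))) (by decide +kernel)
def a4171 : PP 8 4 T 0x2000001000000040001800000400000000000000000000000004000000000000000 := rS 0x7b45 (k2 a18 i1259 (k1 a442 k0)) (by decide +kernel)
def a4172 : PP 8 4 T 0x2000000000000001004000000000080004000108000000000020000001504000000 := rS 0x1087a (k2 i1324 a4145 (k1 i1896 k0)) (by decide +kernel)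
def a4173 : PP 8 4 T 0x2000000000000000040000000000000000000008000008200000010000000000000 := rS 0x2b3ca5d9acf1d46532a70820d5253578e46e272686d22293aa7d0ef1698fc0c59519f0d66623b2d6a63251c4c21f2010c12c362b041aa572094fe2107c45f8233b0cc0418 (k8 a4163 a4164 a4166 a4169 i1625 a4132 a58 a3001 (k8 a2991 a3022 i348 a4167 a382 a392 a408 a40 (k8 a468 a369 i441 a3000 i182 a397 i57 i181 (k8 i488 a4076 i506 i2980 i1627 i2309 a4170 i1593 (k8 a2924 a2640 a458 a402 a198 a387 i1715 i79 (k8 a443 i1169 i67 i787 a331 a446 a401 a427 (k8 i95 i1056 a374 a132 i1912 a599 a2965 a419 (k4 i1146 i810 a4172 a1448 (k2 i388 a3618 k0))))))))) (by decide +kernel)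
def a4174 : PP 8 4 T 0x2000000000000000000000000000000000000008000008200000010000000000000 := rS 0x33875194ca758c3f69819467c3588d3e47331d996b531934941f2010d86c5608354ae412964e20930bf10f1107884fe1b1b8cc0418 (k8 a4163 a4164 a4166 a446 i67 a3022 a2991 a3001 (k8 a58 a387 a4132 a397 a369 i57 a2924 i348 (k8 a4167 a382 a392 a408 a40 a468 i441 a3000 (k8 i182 i181 i787 i488 a4076 i506 a4169 i1627 (k8 i2980 i1715 i1625 i2309 a4170 i1593 a2640 a402 (k8 a458 a4173 i1640 a3182 a2965 a2286 a3085 i1145 k0)))))) (by decide +kernel)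
def a4175 : PP 8 4 T 0x2000000000000000000000000000000000000008004008200000000000000000000 := rS 0x933a090468f659296a4d38aa4a6ad88884ca4930bf12a7f0c39468c9 (k8 a3732 a4174 a364 a4163 a3022 i1058 a4132 a397 (k8 i1008 i1580 a2991 a58 a420 i95 i1056 i57 (k8 i527 a4076 a440 i506 i1132 i247 a107 i349 (k2 i1590 a1371 k0)))) (by decide +kernel)
def a4176 : PP 8 4 T 0x2000000000000000000000000000000000000008000008200000000000000000000 := rS 0x2012e2a620c1c55253 (k8 i95 i1056 i57 a4163 a4175 a51 i488 a2907 (k1 i181 k0)) (by decide +kernel)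
def a4177 : PP 8 4 T 0x2000000000000000000000000000000000000008008000200000020000000000000 := rS 0x3ed0d489d82154ff11639d848758bc355eb52ba6d228f2c87c723707a84e63d53975e2d217864962d4480812fc0d1022a715494c9805 (k8 a4065 i1320 i95 i1056 i57 a51 a2907 i787 (k8 a4132 a369 i788 i190 i1238 i488 i181 i1053 (k8 a120 a3219 a761 a67 a335 i58 a3580 i2206 (k8 a446 a401 i182 a2924 i874 a110 a412 a4176 (k8 i1398 a427 a65 a348 i1061 i356 i357 i2242 (k8 a38 i842 i764 a362 a3161 a3159 a129 i1325 (k1 a403 k0))))))) (by decide +kernel)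
def a4178 : PP 8 4 T 0x2000000001000000000000000000000000000008008000200000000002000000000 := rS 0x509483132ae527044a8ccee553fc461ab548a3cb2210f88cae0f509cd82a32ebc5a42f0c92c5a8901025f81a20454e2a9299306a05 (k8 a4065 a4177 i1320 i95 i1056 i57 a51 a2907 (k8 i787 a4132 a369 i788 i190 i1238 i488 i181 (k8 i1053 a120 a3219 a761 a99 a44 i58 a3580 (k8 i2206 a4176 i185 i182 i2544 a2924 i874 a110 (k8 i1398 a65 a38 i842 i764 i804 i287 i1058 (k8 a362 i1322 a1710 a63 i1002 i2033 a4121 a129 k0)))))) (by decide +kernel)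
def a4179 : PP 8 4 T 0x2000000001000000000000000000000000040408008000200000000000000000000 := rS 0x610a98b13a7a198e670645a0ab9238ce86a486ad5228f2c8a44e1f07a84e65d78b485e19258b5120204bf03435499f52a7588094465710930811538aa4a605 (k8 a4065 i95 i1056 i57 a51 a2907 i1320 i2544 (k8 a4176 i185 a4178 a107 a453 i1057 a73 i1321 (k8 a4177 i787 a4132 a369 i788 i190 i1238 i488 (k8 i181 i1053 a120 a3219 a761 i58 a3580 i2206 (k8 i182 a331 a443 a2924 i874 a110 i1398 a65 (k8 a4042 a129 i2067 i208 a1710 a4120 a447 a425 (k8 a350 a342 a2935 a20 a69 i1523 a127 a379 (k1 i371 k0)))))))) (by decide +kernel)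
def a4180 : PP 8 4 T 0x2102001000000001008000000000105401000500040000000000150015001000000 := rS 0x2192f123cc60563b (k8 i373 i371 a419 a3116 a127 a71 a2906 a69 k0) (by decide +kernel)
def a4181 : PP 8 4 T 0x2000000001000000000000000200000000000408008000200000000000000000000 := rS 0x18b4f431ad86c7338322d055c91c66b548a3cb2271c8dc1e995087452738687cbaf1690bc324b16a2404097e0686a8566a4cfa953ac404a232b884811538aa4a6552650cfc05 (k8 a4065 a4179 a133 i1320 i791 i95 i1056 i57 (k8 a51 a2907 i2544 a4176 i185 a4178 a107 a453 (k8 i1057 a73 i1321 a380 a361 a4177 i787 a4132 (k8 a369 i788 i190 i1238 i488 i181 i1053 a120 (k8 a3219 a761 i182 a65 i58 a443 a2992 a3580 (k8 a3628 i2206 a446 a401 a331 a2924 i874 a110 (k8 i1398 i2067 i208 a1710 a4120 a447 a425 a350 (k4 a342 a4180 i468 a3812 (k2 a20 i1523 (k1 a379 k0)))))))))) (by decide +kernel)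
def a4182 : PP 8 4 T 0x400000000001202102000001000000000010000100115400000400000115000000010515101000008 := rS 0x18b4f431ad8e0c1830c66678b0e46ec151bc5a48904a159a75 (k8 a453 a380 a361 a369 i190 a120 a3219 a99 (k8 a44 a446 a401 a447 a350 a360 a4180 a4125 (k4 i1003 i1692 i468 a3812 (k2 a20 i1523 (k1 a379 k0))))) (by decide +kernel)
def a4183 : PP 8 4 T 0x202000000000000000000020000100000000080008008001200000000000000000000 := rS 0x21d7a81a28f92e3b3dafccc832c95d36391b8f54e995087452738687cbaf1690bc324b16a2404097e068811538aa4a64c42b34ea05 (k8 a4065 a453 a380 a361 i1320 i95 i1056 i57 (k8 a51 a2907 i787 a4132 a369 i788 i190 i1238 (k8 i488 i181 i1053 a120 a3219 a761 i182 a65 (k8 i58 a443 a2992 a3580 a3628 a67 a335 a446 (k8 a401 a412 a4176 a2924 a374 i1406 i1457 a1179 (k8 i395 i1324 i2034 a80 i1332 i1411 a982 a3910 k0)))))) (by decide +kernel)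
def a4184 : PP 8 4 T 0x2000000001000000000000000000000000000408008000200000000000000000000 := rS 0x41572a5a19f8aab548a3cb2274ca843a2939c343e5d78b485e19258b5120204bf03435499f52a7588094465710930811538aa4a605 (k8 a4065 i95 i1056 i57 a51 a2907 i1320 i2544 (k8 a4176 i185 a4178 a107 a453 i1057 a73 i1321 (k8 a4177 i787 a4132 a369 i788 i190 i1238 i488 (k8 i181 i1053 a120 a3219 a761 i182 a65 i58 (k8 a443 a2992 a3580 a3628 a331 a2924 i874 a110 (k8 i1398 i791 a4179 a133 a4181 a4183 a4120 a4182 k0)))))) (by decide +kernel)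
def a4185 : PP 8 4 T 0x2000000001000000000000000000000000000008008000200000000000000000000 := rS 0x2e4fd432aa94ca3218c5cec95499d4fb10128756a210f88caea13981d82d217864962d4480898408a9c5525304bf06a05 (k8 a4065 a4177 a4132 a369 i95 i1056 i57 a51 (k8 a2907 i1320 i788 i190 i1238 i488 i181 i1053 (k8 a120 a44 a402 i58 a3580 a4176 i185 i182 (k8 i2544 i1398 a2992 a4178 a107 a73 a453 i1321 (k8 i1057 a4184 a332 i1507 a429 i1546 i2067 i792 (k4 a3610 a2629 a4183 a447 k0)))))) (by decide +kernel)
def a4186 : PP 8 4 T 0x202000000000000000000000000000000000000008008000200000000000000000000 := rS 0x150ccb88ba5686933f1d4fa1d249856a210f88caea13981d82a3690bc324b16a24044c20454e2a929825f83552895c805 (k8 a4065 a4185 a409 a382 a4177 a4132 a369 i95 (k8 i1056 i57 a51 a2907 i1320 i788 i190 i1238 (k8 i488 i181 i1053 a120 a99 a44 a402 i58 (k8 a3580 a4176 i185 i182 i2544 i1398 a397 i1008 (k8 a2992 a73 a453 a2629 i1321 a3610 i1057 a2487 (k4 a447 i1406 a4183 i1620 k0)))))) (by decide +kernel)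
def a4187 : PP 8 4 T 0x102000000000000000000020000000000000000000008014001000000000000000000 := rS 0x2ac14ccca (k4 i1405 i1406 a385 i1620 (k1 a362 k0)) (by decide +kernel)
def a4188 : PP 8 4 T 0x400000000001002000000002000000000010000000014010000000000000000000010500000000000 := rS 0x8bb0546d2 (k4 a120 a99 a44 a2487 (k1 a447 k0)) (by decide +kernel)
def a4189 : PP 8 4 T 0x2000000000000000000000000000020000000008008000200000000000000000000 := rS 0x20aab56884465707869a4890113012fc508bc32405494c9671169ce2a05 (k8 a4065 a51 i58 i1238 i57 i488 i95 i1056 (k8 a2907 i181 i1053 a3580 a4132 a369 i1320 i788 (k8 i190 a120 i787 i2206 a4176 i185 i2544 a420 (k2 a4078 a4124 (k1 a4141 k0))))) (by decide +kernel)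
def a4190 : PP 8 4 T 0x2000000000000000000000000000000000000008008000200000000000000000000 := rS 0x143499f60a4665a557311188941aa5720d546c103a85a40f17a24461a0c87c042120130962d8a874b2ab389cd525304ab492617e2d4ae05 (k8 a4065 a4176 i1398 a4132 a397 i1008 a420 a369 (k8 i95 i1056 i58 i57 a4078 a2924 a2992 a51 (k8 i1238 i488 i1320 a2907 i2544 i788 i182 i181 (k8 i787 i185 i190 i1053 i2206 a120 a3580 a402 (k8 a44 a99 a4177 a4185 a382 a392 a409 a459 (k8 a4186 a4187 a4189 a4130 a1834 a451 a3588 i1321 (k2 a3610 a4188 k0))))))) (by decide +kernel)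
def a4191 : PP 8 4 T 0x2100000002000000000000000000000000000008000000200000010000002000000 := rS 0x8566964ae4a2698c92617e09442c3 (k8 a468 a46 a409 a4132 a397 i1008 a4190 i527 (k4 a440 a4176 a2924 a2010 (k2 a1949 a4155 k0))) (by decide +kernel)
def a4192 : PP 8 4 T 0x8002200000000000000000000015000010000000000005000000000000000000000000 := rS 0xcacb (k2 a385 a63 (k1 a4168 k0)) (by decide +kernel)
def a4193 : PP 8 4 T 0x400000000001002000000002000000000010000000014000000008000000200000000000000000000 := rS 0x2b43b1c6e7a8ca58ca3b4ca2c002c0d00c5e19618c442c512abc2e672513492291388d121f201c412771a8cd9a8582c58c6ad30bf152535595cb205 (k8 a4065 a2924 a4176 a4078 i95 i1056 a4132 a397 (k8 a420 a4190 a447 a4192 a1949 a2010 a360 a348 (k8 a332 a369 i57 a2907 i182 i1317 i185 a331 (k8 a443 i1008 i527 a440 i489 a2996 a427 a409 (k8 a40 a46 a459 a468 a4191 i1053 i1045 a437 (k8 a4188 a349 a4110 a3614 a339 i962 a4114 a2965 (k4 i1324 i1778 a1190 i817 (k2 i812 i2032 k0)))))))) (by decide +kernel)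
def a4194 : PP 8 4 T 0x400000000001002102000001000001000011001000014051000008054000000000000414500000002 := rS 0x4ac3638ad0ea2162946e7a69a5932c18cb28c2af3b8cc1f161db159205 (k8 a4065 a3732 a4100 a339 a447 a2110 a360 a332 (k8 a427 a397 a4150 a2642 i1246 a2925 a4112 a3553 (k8 i1324 i1778 a2977 a120 a393 i817 i812 a1190 (k2 a2699 i325 (k1 i2032 k0))))) (by decide +kernel)
def a4195 : PP 8 4 T 0x400000000001002102000001000001000011001000014001000008044000010020000000401000000 := rS 0x25888c0a8743222c42000d00c5e1725124c22913a243e093b83e2c05 (k8 a4065 a447 a2110 a332 a369 i182 i1317 a331 (k8 a443 a397 i1008 a440 a2996 i1053 i1045 a437 (k8 a349 i783 a4110 a4194 i1049 i1050 i962 a453 (k2 i764 a1332 k0)))) (by decide +kernel)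
def a4196 : PP 8 4 T 0x2100000000000000000000000000000000000208000000200000011000002000000 := rS 0x101289a6324985f825 (k8 i348 a4132 a397 i1008 a4190 i527 a440 a4142 (k1 i1499 k0)) (by decide +kernel)
def a4197 : PP 8 4 T 0x2100000000000000800000000000000000000000000000200040000000240004000 := rS 0x3480ca1064343ac1 (k8 i1246 a2992 a65 a1200 i824 i465 a377 a402 k0) (by decide +kernel)
def a4198 : PP 8 4 T 0x400000000001002000000000000000000010000000014000000008000000200000000000000000000 := rS 0x69a91e00c1db08431965194ea31128dc04390c3950acd8283c6b162caad5ab5339289a632498486271195d121f201c5525304bf19205 (k8 a4065 a3732 a4132 a369 i95 i1056 i57 a2907 (k8 i182 i1317 a4176 i185 a331 i21 a397 i1008 (k8 a4190 i527 a440 i489 i1398 a420 a4078 a2924 (k8 a447 a348 a2110 a4192 a2010 a1949 a4193 a4195 (k8 i2051 i180 i1044 i348 i2724 a4196 i1049 a4150 (k8 a2642 a4197 a4155 i373 a276 a419 i466 a3219 (k1 a2977 k0))))))) (by decide +kernel)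
def a4199 : PP 8 4 T 0x2000000000000000000020004020000000000100040000008000000000100002000 := rS 0x110121dd48301a800061917a8c66e547c5d9205 (k8 a4065 a3732 a465 i1132 a392 i1609 i1647 i1138 (k8 i310 i1045 a349 i1114 a429 a1045 i1507 i363 (k2 a466 a423 k0))) (by decide +kernel)
def a4200 : PP 8 4 T 0x4002000000000000000000000000000000400000100000000000000010002000000000 := rS 0xef11 (k2 a38 i804 (k1 a466 k0)) (by decide +kernel)
def a4201 : PP 8 4 T 0x1002000000001000040000020000000000000000008000000200000000000001000000 := rS 0x3393e9a6131d2ef015a74623289b350aa58809582354ca2c002c0d00c5e5957a442e8f1489c46898b83c1aa00ec343e0910956084038aa4a6755a99cae4a2698c92617e2ac0ac9 (k8 a3732 a4065 a4078 a4132 a397 i1008 a4190 i527 (k8 a440 a4176 i489 i1398 i1066 i95 i1056 i57 (k8 a2907 a1575 a72 i743 a369 i182 a65 a2992 (k8 a377 a4199 a17 a465 i1317 i185 a331 a443 (k8 i1132 a2996 a102 a427 a2924 i1053 i1045 a437 (k8 a120 a349 a4110 a3614 i1114 i1250 a4200 a107 (k8 i363 a361 a380 a205 a1045 i987 a3554 a2932 (k8 a127 i1410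 a1581 a1762 a336 i1711 a3115 a1481 k0)))))))) (by decide +kernel)
def a4202 : PP 8 4 T 0x1002000000001000040009020001184000000000000005000000000100000000000000 := rS 0xa2a652ea65da6d3b17 (k8 a465 i1905 a1493 i1945 i328 i1410 i1144 a410 (k1 a162 k0)) (by decide +kernel)
def a4203 : PP 8 4 T 0x1002000000001000040000020000000000000000008000000200000000000000000000 := rS 0x260742a78b0e26a24fc4182a517094722d0c24452271183c1aa00ec343e0910956084038aa4a6755a99cae4a2698c92617e2ac0ac9 (k8 a3732 a4065 a4078 a4132 a397 i1008 a4190 i527 (k8 a440 a4176 i489 i1398 i1066 i95 i1056 i57 (k8 a2907 a1575 a72 i743 a369 i182 a65 a2992 (k8 a377 a4199 a17 i185 a331 a443 a102 a4201 (k8 i1040 i2051 i349 i310 i2215 i1249 a107 i2814 (k8 i1138 a205 a4202 a1762 a127 i387 a2932 i2784 k0)))))) (by decide +kernel)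
def a4204 : PP 8 4 T 0x2000001000000000000000000020100040000008000000200000500200000000000 := rS 0x563e3ca686c9741aa4a6af2513492618cbf0c605 (k8 a4065 a4190 a4132 a2965 a397 i1008 i527 a440 (k8 a427 i95 i1056 a374 i1244 a419 a336 a1448 (k2 i995 a3057 (k1 i402 k0)))) (by decide +kernel)
def a4205 : PP 8 4 T 0x1002000000000000040000020000000000000000008000000200000000000000000000 := rS 0x76664450acf089e456381dc6516004c868062c0c8bde2c31ab91410d0ea442e8f14a243e098b9d56a212ac10ce4a2698c92617e15c80715494c0ac9 (k8 a3732 a4065 i95 i1056 i57 a2907 a4176 a4132 (k8 a397 i1008 a4190 i527 a440 i489 a1575 a72 (k8 i743 i1398 i1066 a465 a369 i182 i1317 a443 (k8 i1132 a2996 a102 a2992 a65 a377 a4203 a364 (k8 a468 a3227 i1137 i310 a120 i1045 a437 a3614 (k8 a349 a4110 a2965 a339 a4204 i295 i1851 i1873 (k4 i1976 a1002 a1340 a1303 (k2 a466 i810 k0)))))))) (by decide +kernel)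
def a4206 : PP 8 4 T 0x2002000002000080400000004000000000000000000000000400000000000004000 := rS 0xd528255a07 (k4 a402 a420 a369 a382 (k2 a392 a1719 k0)) (by decide +kernel)
def a4207 : PP 8 4 T 0x4002200001001000000000000000000000000000100040000018000001014500002000 := rS 0x898ae20250c00802341985c0ac9 (k8 a3732 a4065 a2996 i1609 a429 i1114 a349 i1045 (k4 i349 a107 a3310 a205 (k1 a127 k0))) (by decide +kernel)
def a4208 : PP 8 4 T 0x1002000000000000000000020000000000000000008000000200000000000000000000 := rS 0x260742a89c404a1801004683352035ca317881c5ad2109548e0f821d5971755ab56a91339289a632498452271195d121f201c5525304bf00ac9 (k8 a3732 a4065 a4132 a369 i95 i1056 i57 a2907 (k8 i182 i1317 a4176 i185 a331 a443 a397 i1008 (k8 a4190 i527 a440 i489 a102 i1398 a420 a4078 (k8 a465 a3897 i1066 a1575 a17 a451 a72 i743 (k8 a4205 a329 a402 a3219 i986 a4206 a4207 a1719 (k8 i288 a429 i1114 a349 i1045 i349 a107 a205 (k4 a127 i387 a2932 i2784 k0))))))) (by decide +kernel)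
def a4209 : PP 8 4 T 0x102002000000000080400000004000000000080000000000000400000000500004000 := rS 0x95caa1 (k4 a344 a4206 i842 a107 k0) (by decide +kernel)
def a4210 : PP 8 4 T 0x1002000000000000040000001000020020010000008000000000000000002000000000 := rS 0x5c1916a91467e (k4 i1058 i325 i843 i979 (k2 i2215 a120 (k1 i1053 k0))) (by decide +kernel)
def a4211 : PP 8 4 T 0x802200000000000000000001041000120000000008005014008000000000000000000 := rS 0x269769745b31025d (k8 a5 a45 a1729 i491 i1323 i1949 a336 i1182 k0) (by decide +kernel)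
def a4212 : PP 8 4 T 0x1002000000000000000000000000000020000000008000000200000000000000000000 := rS 0x1544d323a1f8dc7218010b8022d788c5c8255034c42552383d97118cc10e8cf3f4343a5955abd6a910b99c944d31924c2291388cae890f900e2a929825f805 (k8 a4065 a4132 a369 i95 i1056 i57 a2907 i182 (k8 i1317 a4176 i185 a331 a443 a397 i1008 a4190 (k8 i527 a440 i489 a2996 a102 i1398 a427 a4078 (k8 a2924 a2992 a65 i1058 i2736 i1057 a4141 a3410 (k8 a453 a385 a17 a451 a72 i743 a4209 a377 (k8 a4210 a107 a1332 a3227 i978 a3585 a120 a349 (k8 i1053 a401 a446 i2233 a419 i1107 a4211 a127 (k1 a2932 k0)))))))) (by decide +kernel)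
def a4213 : PP 8 4 T 0x1002000000000000000000000000000000000000008000000200000000080000000000 := rS 0x170f9403b16ad930a789a0ce273489289a6324985f805 (k8 a4065 a4132 a397 i1008 a4190 i527 a440 a102 (k8 i58 i57 a374 a8 i333 a2932 i1060 i981 (k4 i2737 i850 i851 a3580 (k1 i404 k0)))) (by decide +kernel)
def a4214 : PP 8 4 T 0x802000000000000000000000041000008000000008005014008000000000000000000 := rS 0x2693a974ca2d98813c9751f048b994cec9 (k8 a3732 i489 i1550 a19 a352 i1132 a5 a398 (k8 a45 a1729 i491 i1059 i1323 i1910 a336 i1450 k0)) (by decide +kernel)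
def a4215 : PP 8 4 T 0x400000000001002000000000000000000000000000000000000008000000200000000000000000000 := rS 0x5a2f1986448e569bc2262b10c46087c3a9962e924aae512230f89c52402c9c5525304abd1e6725134c64930bf0aec9 (k8 a3732 a4176 a4132 a397 i1008 a4190 i527 a440 (k8 i489 i1132 a427 a369 i95 i1056 i57 a2924 (k8 a2907 a443 a331 i182 i185 i1317 a4208 a4212 (k8 a4198 a19 i1550 i1590 i1321 a352 a73 i1502 (k8 a4213 a4214 a127 a3219 a3227 a107 i349 i287 (k2 i1053 i1242 (k1 a120 k0))))))) (by decide +kernel)
def a4216 : PP 8 4 T 0x400000000000502100000000000000000000000000000000000008000000200000000000000000000 := rS 0x1f100181843079dd0e8a8b328ca753f1521aab389cd6a910ba3cce4a2698c92954ba6527198a2bd5253309f4b2ad7e15c0ac9 (k8 a3732 a4065 a4176 a4132 a420 a2924 a1978 a397 (k8 i95 i1056 a427 a4215 a561 a115 a57 a24 (k8 a14 i1008 a4190 i527 a440 i489 i1132 a2996 (k8 a102 i1398 i58 i57 a4078 a65 a362 a403 (k8 i1667 i1049 a4150 a352 a4114 a4144 a332 a2110 (k4 i2247 a2970 a2910 i1489 (k2 i1302 a4197 k0))))))) (by decide +kernel)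
def a4217 : PP 8 4 T 0x2002000002000000000000000000400400080000000001000000000000000000000000 := rS 0x5a390100422371f8f4762f44a5d3205 (k8 a4065 a57 a24 a337 a363 a333 a365 a6 (k4 a376 a441 i451 a349 (k2 a401 i1000 (k1 i2034 k0)))) (by decide +kernel)
def a4218 : PP 8 4 T 0x2402000000000000000000000000000000080000008000000200000000000000000000 := rS 0x4ef114a9e889b5b900b843868ad027a8cabd224a249e5525330bf1064d31a652e05 (k8 a4065 a24 a57 a4190 i527 a374 a4132 a397 (k8 i95 i1056 a1448 i1008 a440 a102 a427 a561 (k8 a406 i1893 a3057 a65 i2247 i491 a3000 i1930 (k4 a991 a462 a410 a443 (k2 a4217 a3002 (k1 a127 k0)))))) (by decide +kernel)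
def a4219 : PP 8 4 T 0x400000000000402100000000000000000000000000000000000008000000200000000000000000000 := rS 0xea648819c944d2495d2a934d22d32978a1855efc5494cc6c9 (k8 a3732 a4190 i95 i1056 a4132 a427 a397 a4215 (k8 a24 a57 a4218 a336 a115 a14 a4176 i1008 (k4 i527 a440 i489 a4216 (k2 a2918 a453 (k1 i1049 k0))))) (by decide +kernel)
def a4220 : PP 8 4 T 0x400000000000202202000000000000000008000000004000008010000114000000000000000000000 := rS 0xbf43334aa6b (k4 a464 a72 a380 a3812 (k2 a972 i857 k0)) (by decide +kernel)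
def a4221 : PP 8 4 T 0x400000000000002202000000000000000008000000004008008010000000000000000000000000000 := rS 0x17ccd (k2 i153 i857 (k1 a972 k0)) (by decide +kernel)
def a4222 : PP 8 4 T 0x400000000000402000000000000000000000000000000000000008000000200000000000000000000 := rS 0x19ecc5fa1cec7e88a14fa758bae0d65532b2e08b62ea69167a86965567156ad5228f3392892574aa4e32af3ca5d525330bf1064d31a6628c9 (k8 a3732 a4215 a57 a4190 i527 a374 a4132 a397 (k8 i95 i1056 a24 a1448 a427 a561 a115 a14 (k8 a4176 i1008 a440 i489 i1132 a102 i1398 a420 (k8 i57 a4078 a2924 a65 a406 a4218 a336 a2497 (k8 a991 a4219 a385 a63 a72 a464 a853 a4192 (k8 a1371 i1330 a1002 a4220 a403 a466 a4221 i1723 (k2 a460 a3558 (k1 i810 k0)))))))) (by decide +kernel)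
def a4223 : PP 8 4 T 0x400000000000002200000000000000000000000000000000000008000000200000000000000000000 := rS 0x19cbf3b1f8fa7588b322eb832b2e1a5955aa4a6af56ad51e672ba5532938a21d165d891289a6324985f8c9 (k8 a3732 a4132 a397 i1008 a4190 i527 a440 a4222 (k8 a5 i491 a69 a4215 a115 a57 a14 a4176 (k8 i489 i1132 i1398 a420 a427 i95 i1056 a4078 (k8 a2924 a65 a385 a63 a853 a4192 a1729 a205 (k4 a1371 i1330 a403 a466 (k2 i1723 i810 (k1 a3558 k0))))))) (by decide +kernel)
def a4224 : PP 8 4 T 0x400000000000002000000000000000000000000000000000000008000000200000000000000000000 := rS 0x1fe2274321f60a9a4597624934ca5d2b1486965525357ab56a6725134c64930bf0aec9 (k8 a3732 a4176 a4132 a397 i1008 a4190 i527 a440 (k8 i489 i1398 a420 a427 i95 i1056 a2924 a65 (k8 a4215 a14 a24 a57 a115 a4222 a5 i491 (k8 a336 a4223 a1978 a2918 i1049 a453 i1667 a403 k0)))) (by decide +kernel)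
def a4225 : PP 8 4 T 0x2000000000000000000000000000000000000008020000200000000000100000000 := rS 0x180432310bc1622741283c6a5425134c64930bf00ac9 (k8 a3732 a4065 a4132 a397 i1008 a4190 i527 a440 (k8 i1050 i2729 a2922 i764 i1049 a453 a63 a2996 (k4 a1332 a4142 i962 i1045 (k1 a349 k0)))) (by decide +kernel)
def a4226 : PP 8 4 T 0x2000000000000000000000000000000000000008020000200000000000000000000 := rS 0x47728801a0f2a1d06b0525134c64930bf19205 (k8 a4065 a3732 a4132 a397 i1008 a4190 i527 a440 (k8 a63 i2729 i1049 i1050 a2922 i2927 a4225 a46 (k2 i2939 a425 k0))) (by decide +kernel)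
def a4227 : PP 8 4 T 0x2000000000000000000000000000000000000008000000200000000000000000000 := rS 0xb45e330c891cad344bc042230f89c531115902267c3ac54aa92821952acb5cd08ce8f25134c65724ab55e6104bf152712996556c9 (k8 a3732 a4078 a2924 i95 i57 i1056 a4132 a369 (k8 a397 a427 a420 i1008 a4176 a4190 i527 a440 (k8 i1132 i489 a4224 a351 a105 a121 a4226 a4150 (k8 i2040 a72 a115 i1590 i1321 a4214 a2907 a4213 (k8 a73 a443 a331 i182 i185 i743 a127 i1317 (k8 a3219 a3227 a107 i349 i287 i1053 i1242 a120 k0)))))) (by decide +kernel)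
def a4228 : PP 8 4 T 0x102000000001000000000000000000008000000000004000200000000000544800000 := rS 0xd303a858088180cc4835 (k8 i1117 a107 i286 i861 a1020 i1509 i278 i1340 (k2 a44 a1685 k0)) (by decide +kernel)
def a4229 : PP 8 4 T 0x2200000000000000000000001000008000000000004000200000000000000000000 := rS 0x2245a0669b041ae451c445e8e0d87c2c4804884464b7e1003a4d30b2c1ead239554aab8b9c8e31537c340ac9 (k8 a3732 a4065 a65 a4227 a115 i1358 a389 a19 (k8 a4078 a3157 a72 a451 a445 a17 i1367 i1311 (k8 i528 a2992 a2907 a438 i1093 i184 i743 a369 (k8 a440 a4066 i182 i748 a2898 i1080 a28 i1634 (k8 a4228 a392 a408 a4206 a1834 i1241 i1340 a120 k0))))) (by decide +kernel)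
def a4230 : PP 8 4 T 0x2000000000000000000000002000000000000000000000200000000000000000000 := rS 0x9416 (k2 a3454 i495 (k1 a2996 k0)) (by decide +kernel)
def a4231 : PP 8 4 T 0x2000000000000000000000000000008000000000004000200000000000000000000 := rS 0xac0c2ac44008e1285890312192ccc40393f20a6538c34b24d309bd52958ab2d9205 (k8 a4065 a3732 i1367 a115 i83 a4230 a4227 i1311 (k8 i528 a2924 a65 i1358 i1550 a4229 a438 a389 (k8 a2907 a4150 i1093 i21 i1506 a440 a4066 i861 (k4 a2898 i740 a28 i766 (k2 i449 a362 (k1 a3062 k0)))))) (by decide +kernel)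
def a4232 : PP 8 4 T 0x2000000000000000000000000000008000000000000000204000000000000000000 := rS 0x3ed303284001621900e30d0e934dea98a8b4c405 (k8 a4065 a4231 i1238 a115 a4230 a4227 i528 a2992 (k8 a65 i1359 a2907 i21 a4066 i740 i822 i447 (k2 a402 i1302 (k1 a377 k0)))) (by decide +kernel)
def a4233 : PP 8 4 T 0x2000000000000000400000000000000000000000088000018000000000002000000 := rS 0x76129588043 (k4 i2245 a3000 i489 a3344 (k2 i490 a3088 k0)) (by decide +kernel)
def a4234 : PP 8 4 T 0x2000001000000000000000000000008000000000000000200000000000000000000 := rS 0x7eb7612653c9d67a2d0a792ec4902831489c7aa71a0cce82b1208c8f11109540ee506410ce18659362e65569fce6c169284de1d52a2404010f90086a9049c0946286aad9205 (k8 a4065 a3732 a4078 a65 a4231 a4232 i488 i2874 (k8 a4230 i2245 a3000 i182 a2899 a349 i190 i1364 (k8 a2992 a4227 a2988 a377 a44 i1093 i1638 i2875 (k8 i1549 a19 i528 i1367 i1045 a4233 a352 a1835 (k8 a392 a402 a72 i743 a2629 a451 i184 a107 (k8 a3336 i349 i2050 a764 a67 a335 a331 a443 (k8 a374 a3721 a127 a5 a398 a77 i491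 i1067 (k4 i1591 a191 i2771 i1184 (k2 i802 i375 (k1 i2031 k0)))))))))) (by decide +kernel)
def a4235 : PP 8 4 T 0x2000000000000000000000000000008000000000000000200000000000000000000 := rS 0xfd7801da41f200254243579c0946286874dea9 (k8 a4230 a4227 a2992 a65 a4231 a4232 i488 i2306 (k8 i2245 a2988 i2874 a3000 i182 a377 a402 a4234 (k2 a3219 a1818 k0))) (by decide +kernel)
def a4236 : PP 8 4 T 0x2000000000000080008000040100000000000000400000000000000000000000100 := rS 0xfc2207 (k4 a402 i1952 i375 a1917 k0) (by decide +kernel)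
def a4237 : PP 8 4 T 0x800000000000001002200001001000000000000054000400000000000040000000000145400000000000 := rS 0x45c6a9c4a25933451d2ea32bd5fb3d966b (k8 a464 a385 a3 a60 a128 a3410 a391 a419 (k8 a29 i1106 a422 i1904 i1903 i1098 a399 a429 k0)) (by decide +kernel)
def a4238 : PP 8 4 T 0x11002000000001000000000080000000500000000000000000000000005400000000000 := rS 0x22e354e2512d45 (k4 a29 a422 i1904 i1903 (k2 i1098 a399 (k1 a429 k0))) (by decide +kernel)
def a4239 : PP 8 4 T 0x1002200001000000080000000054100400000000000040000000000145000000004100 := rS 0xbf5da6475195eb3d894f61b958e0c1781c7ac151b2c8e6b (k8 a464 a451 a385 a99 a44 a335 a402 a359 (k8 a1834 a342 a392 a4236 a4237 a379 a807 i1795 (k4 a3410 a419 i1106 a4238 (k2 i1527 a391 k0)))) (by decide +kernel)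
def a4240 : PP 8 4 T 0x400000000000000002000001001000080040200040000000000000000400000000000000000000000100 := rS 0x20c21fb140e3d (k4 a335 a402 i1795 i1412 (k2 a379 a1917 (k1 i1952 k0))) (by decide +kernel)
def a4241 : PP 8 4 T 0x11002000000000000000000800000000504000000000000000000000000000000000000 := rS 0x12f45 (k2 a18 i1377 (k1 a422 k0)) (by decide +kernel)
def a4242 : PP 8 4 T 0x2200000000000000080004000200000000000000000000200000000000542000000 := rS 0x112880f84ae5 (k4 a382 i2240 i414 a107 (k2 a4119 a205 k0)) (by decide +kernel)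
def a4243 : PP 8 4 T 0x400000000000002200000000000000000000000000100000000020040000200008000000040000000 := rS 0x254fcce88c622497a2c362a7d49a6d06890100552095ab2d6e05 (k8 a4065 i802 a385 i1397 i2874 a4230 a2899 a349 (k8 i190 a374 i1447 a4235 i1360 a117 a65 a80 (k8 i1371 a4119 a422 a205 a3410 a403 i1104 i800 k0))) (by decide +kernel)
def a4244 : PP 8 4 T 0x2200001000000080000000040200100000000020040000200000005000542000000 := rS 0x230cf5d2fc7ebd63add966ba1d3dca37010e47a0700aa412a7310bd368356c555605 (k8 a4065 a4078 a117 i2875 a374 i1447 a359 i1358 (k8 a67 i2874 a4230 a2899 a402 a335 a1837 a349 (k8 a446 a382 a4237 a129 a464 a385 i802 a4242 (k4 a4240 a4243 i1451 a391 (k2 i1950 a4238 (k1 a3410 k0)))))) (by decide +kernel)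
def a4245 : PP 8 4 T 0x2200001000000000000000000000000000000020000000208000000000000000000 := rS 0x90eb113cb3a2518158ed30a41088cceb52a91d96ab26c555aaf1489c5e391ea6d060753b483b0d509bc6e311983c30020087c12a92010cc405 (k8 a4065 i1358 i2245 a3000 a4230 i2874 i182 a2899 (k8 a349 i1045 i2204 i2050 i2724 a446 a4227 a2988 (k8 a65 a2992 a377 a67 a402 a374 i1447 a335 (k8 a1837 a359 a331 a443 i2306 i2875 a117 i528 (k8 a4078 a385 a451 a72 i1397 a4233 i184 i743 (k8 a4239 a4244 i1106 i387 a419 a127 a3410 a398 (k4 a205 i1067 a164 i349 k0))))))) (by decide +kernel)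
def a4246 : PP 8 4 T 0x2101000000000000000000014200000000000000000000000000000000000004140 := rS 0x3281943 (k4 a129 a2241 a439 i465 k0) (by decide +kernel)
def a4247 : PP 8 4 T 0x2001001000000004010000000111200000000020000000201020015000000000000 := rS 0x63afd863e5ba7cf7185e8ee8a391ea6d0607539886e1b269be8694608bd46d286a2404010faa4122d0eae52605 (k8 a4065 a4235 i2899 a2992 i1239 i2874 a4230 i182 (k8 a2899 a349 i190 a65 a377 a99 a359 a44 (k8 i2033 a121 a4227 i528 i189 a446 i1358 a67 (k8 a402 a374 i1447 a335 a1837 a433 i1106 i1990 (k8 a419 a390 a33 i801 a3147 i375 i1725 a3078 (k1 i2035 k0)))))) (by decide +kernel)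
def a4248 : PP 8 4 T 0x400000000020002000000000000004014400000541500010000000000000000001155500000000000 := rS 0x2f68ac61f25d3e3b (k8 a345 a33 a71 i2034 i2035 a80 i1411 a3078 k0) (by decide +kernel)
def a4249 : PP 8 4 T 0x11002000000000000000000000000000500010000000000000000008000000000000000 := rS 0x12f45 (k2 a80 i1371 (k1 a422 k0)) (by decide +kernel)
def a4250 : PP 8 4 T 0x2100000000000000000006000010000001000000040000201004000014042000000 := rS 0x2a3ca04ac83269bc7aa7690761ac9 (k8 a3732 a65 a2992 a377 a67 a335 a4227 i528 (k4 a374 i1398 i1402 a1478 (k2 i2031 i388 k0))) (by decide +kernel)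
def a4251 : PP 8 4 T 0x2100000000000000000000000000000000000800040000010000000000000000000 := rS 0x1962ec9 (k4 a3732 a332 i1548 a352 k0) (by decide +kernel)
def a4252 : PP 8 4 T 0x2001000000000000000000000000000000000020040000208000000000000000000 := rS 0x3ca10acb4889fcee3f8cadd86bf4cb141a216550d283567a74b24d49925231516ae4522717b0546391ea6d06a71b8c5123352c15e2af07860040103b483e40219883b0d50aa4de0956aad9205 (k8 a4065 a3732 a4078 i2875 i2874 a4227 a4230 a2988 (k8 a65 a2992 i1358 i2245 a3000 i182 a377 a402 (k8 a2899 a349 i1045 i2204 i2306 a1818 a4245 a4246 (k8 i2050 i190 i2724 a446 a67 a374 i1447 a335 (k8 a1837 a99 a44 a359 a331 a443 i2899 i1239 (k8 a117 a102 i29 a4235 i528 a2924 a544 a2062 (k8 a547 i2033 a121 a476 a4197 i465 a277 a4247 (k8 i1726 a276 i802 a4248 a4249 a4251 i799 a4042 (k4 a2107 i1398 a4250 a1478 (k1 a545 k0)))))))))) (by decide +kernel)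
def a4253 : PP 8 4 T 0x2000000000000000000000000000000000000000088000018000000000002000000 := rS 0xcb (k2 i2308 a4233 k0) (by decide +kernel)
def a4254 : PP 8 4 T 0x2000000000000000000004000010000000001020000000200004000014042000000 := rS 0x15a05063d53b483b0d (k8 a65 a2992 a377 a67 a335 a374 i1363 i388 (k1 i2031 k0)) (by decide +kernel)
def a4255 : PP 8 4 T 0x10002100001000000000000001000010100000000120050000201020000000002000000 := rS 0x61a8469f4595cf0c31f8ea2a7d498a44ec1518e47a9b4181d4ed20ec34c43744808021f548244a35079fcee4d37add9205 (k8 a4065 a3732 i802 a4227 i528 a4251 i799 i2204 (k8 a547 i348 i2874 a4230 i182 a2899 a349 i190 (k8 a446 i1358 a65 a2992 a377 a67 a402 a374 (k8 i1447 a335 a1837 a99 a44 a331 a443 a4235 (k8 i1360 a117 a419 a4249 i373 a4254 a1478 i1854 (k4 i1075 i185 a1947 a4024 (k1 i468 k0))))))) (by decide +kernel)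
def a4256 : PP 8 4 T 0x20002000000000000000000000000000000000000020010000208000000000000000000 := rS 0x15d0e5d890acd43b48a3e2a29139fcef0578bf1a41d86a84ce18010043e40218255262269bd9205 (k8 a4065 a3732 a4227 i528 i1358 a4230 i2874 i2245 (k8 a3000 i182 a2899 a349 i1045 a4253 a2988 a65 (k8 a2992 a377 a4252 a3219 a4245 a4251 i799 a331 (k8 a443 a117 i1132 a102 a345 a2579 i387 a127 (k4 a5 a69 i507 a2935 k0))))) (by decide +kernel)
def a4257 : PP 8 4 T 0x2000000000000000000001000000000000000020000000208000000000000000000 := rS 0x981d464ea652c9245a7d498bd82391ea6d0607538dc62891983cfe7782bc5f8d20ec3542670c008021f2010c12a931134de05 (k8 a4065 a4227 i528 i1358 a4230 i2874 i2245 a3000 (k8 i182 a2899 a349 i1045 a4253 a2988 a65 a2992 (k8 a377 a4252 a3219 a4245 a4251 i799 i2204 i2050 (k8 i190 i2724 a446 a67 a402 a374 i1447 a335 (k8 a1837 a44 a359 a4235 i1360 i1239 i29 a2924 (k4 a4081 a2901 a4256 a419 (k2 a4255 i1106 k0))))))) (by decide +kernel)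
def a4258 : PP 8 4 T 0x2000000000000000000000000000000000000020000000208000000000000000000 := rS 0x3f5ba653c3a15c6586c53c9941abf2b32a87115a1fcee3582bc5f867078cd12310c0dc7202538f40e2f00b483e2714900869b3e82542628aa0e1a1d269bd264939aa59205 (k8 a4065 a3732 a4230 i1093 i29 a4235 a4227 i528 (k8 a2992 a65 a374 a117 i1358 a2988 i2874 i1360 (k8 i1447 i2245 a3000 a443 a331 i182 a377 a2899 (k8 a359 a402 a335 a67 a349 a1837 a446 i1045 (k8 i2724 i190 i2050 i2204 a4253 a4252 a3219 a4245 (k8 a547 a4251 i799 a4257 a444 a84 i1397 i1398 (k8 i1455 i465 i1580 a1478 a277 a276 a4256 i388 (k4 a419 a3033 i1106 a550 (k2 a4249 a4254 k0))))))))) (by decide +kernel)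
def a4259 : PP 8 4 T 0x2100000000000000000002000000000000000000040100208000000000000000000 := rS 0xc8566550cc24931a552e998a1c4e6a937c3516af (k8 i499 i491 a65 a4227 a4230 i1093 a4258 a389 (k8 a57 a24 a14 i488 i29 i1311 a84 i1397 (k2 i1398 a4112 (k1 i1580 k0)))) (by decide +kernel)
def a4260 : PP 8 4 T 0x902100000000000000000011000040000000000000020000208020015101000004000 := rS 0x3054ac610b34460d3a15cb293248bd2a89438f5348b4ca5e287386984deaf2eaa4c671 (k8 a4258 i488 a4230 a5 i499 a4227 i1311 a65 (k8 i1093 a389 a24 a57 i491 a336 i1257 a69 (k8 a337 a14 a363 i29 a4235 a2924 i1580 i1049 (k8 i1491 i185 a2010 i1499 a2943 a164 i1694 i2033 k0)))) (by decide +kernel)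
def a4261 : PP 8 4 T 0x802100000000000000000000000000000000040000040000208020000000002000000 := rS 0x12d303b014afd5619596a38896556934798d2a2d0ea845f14389cd530d218cc62025c984ee4d378946a0f5a9740ac9 (k8 a3732 a4065 a5 a4259 i2204 a547 i348 a4227 (k8 i528 a4251 i1311 a1575 i180 i2724 i2050 i21 (k8 a65 a4230 i1093 a4258 a389 a363 i310 a2992 (k8 i1040 a14 i488 i1132 a4235 a4078 a2924 a2119 (k8 a263 a2107 a4260 i2040 a2909 i1286 a4093 a4113 (k2 a2396 i2850 (k1 a1807 k0))))))) (by decide +kernel)
def a4262 : PP 8 4 T 0x802100000000000000000000000000000000000000040000208020000000002000000 := rS 0x65569d4fcaf45974a6ab30a4cc6954ba66287139aa4df0d (k8 a65 a4227 a4230 i1093 a4258 a389 a57 a24 (k8 a14 i488 a4235 i1311 a4078 i95 a5 i491 (k4 i499 a4261 i1667 i1556 (k2 i1049 a4114 k0)))) (by decide +kernel)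
def a4263 : PP 8 4 T 0x2100000000000000000000010000000000000000050100208000000000000000000 := rS 0x2bd16ab30a4cc6954ba66287139aa4df0d (k8 a65 a4227 a4230 i1093 a4258 a389 a57 a24 (k8 a14 i488 a4235 i1311 a4078 i491 i499 a4114 k0)) (by decide +kernel)
def a4264 : PP 8 4 T 0x402000000000000000000004000000000000000000000000208020000000002000000 := rS 0x53a6c2e8916875422f1c8ec7af0138acf29730a0cc64d4cc50e273549be1a29 (k8 a443 a65 a4227 a4230 i1093 a4258 a389 a57 (k8 i528 i488 a374 i1311 a24 a1448 i388 a331 (k8 a127 a365 a333 i2051 a363 i310 a2992 i1040 (k4 a337 a2996 a947 a889 (k1 a3489 k0))))) (by decide +kernel)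
def a4265 : PP 8 4 T 0x10002100000000000000010008000000000004080000050000208000555000000010000 := rS 0x6181dfa9f5eab8b8ca5fab6865355a4cc6958a1c4e6a986ae4c26f4eb3e8ac9 (k8 a3732 a116 a2062 a544 a4227 i1311 a1575 a65 (k8 a4230 i1093 a4258 a389 a14 i488 a4235 a4078 (k8 i95 a133 i1556 i1723 i2040 a4263 i1930 i3146 (k4 a856 a427 i459 a1826 (k1 a262 k0))))) (by decide +kernel)
def a4266 : PP 8 4 T 0x102100000000000000000010080000000000040000000000208040000000002010000 := rS 0x182cb042d40efd2794cb217318b5461d508be287139aa4df0d (k8 a65 a4227 a4230 i1093 a4258 a389 a363 i310 (k8 a2992 a263 i1040 i488 a2996 a2924 i95 i31 (k4 a427 i459 a227 a4084 (k2 a2107 i2850 (k1 a4093 k0))))) (by decide +kernel)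
def a4267 : PP 8 4 T 0x10002100000000000000000000000000000000000000050000208020000000002000000 := rS 0x803b01facb562d5165d57a8e227f2ca3d2a8916875422f1b90c7233188097235078ed8a117809c5629439e922794b98506634cc50e27354c34ee4d37ada26c9 (k8 a3732 a4262 a4264 a4227 i528 a4251 a65 a4230 (k8 i1093 a4258 a389 a57 i488 a374 i1311 a24 (k8 a1448 a102 a406 i817 a443 i388 a331 a127 (k8 a441 a49 a333 i2204 a547 a1575 i180 i2724 (k8 i2050 i2051 i21 i1043 a363 i310 a2992 i1040 (k8 a337 a14 i1132 a2924 a4265 a2119 a263 a4266 (k8 i1930 i491 a4259 a4263 a2107 a420 a4093 a4113 (k2 a2425 i2850 k0)))))))) (by decide +kernel)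
def a4268 : PP 8 4 T 0x10002100000000000000000000000000000000000000040000208020000000002000000 := rS 0x186216688c1a742b9910ec5639e9e11312a14ee354e9649291159e52e614198c9a998a1c4e6a937c345227078c404c9 (k8 a3732 i180 i2724 i2204 a331 a443 a65 a4227 (k8 a4230 i1093 a4258 a389 a57 i528 i488 a374 (k8 i1311 a24 a1448 i388 a102 i29 a2924 a544 (k8 a547 a4251 a545 i348 a4262 a127 a406 a27 (k8 a49 i817 a4267 i1580 i1049 i1491 i185 a2010 (k2 i1499 a276 (k1 i2032 k0))))))) (by decide +kernel)
def a4269 : PP 8 4 T 0x10002000000000000000000000000000000000000400040000208020000000002000000 := rS 0x2b9f85c5ea1d6c7a8995d9b102ca3c56392a9ad71175588c8e25429d55ab549a54cacb82244f29730a0cc64d4cc50e273549be1ac9 (k8 a3732 a65 a4227 a4230 i1093 a4258 a389 a57 (k8 i528 i488 a374 i1311 a24 a1448 a102 a4268 (k8 a385 a63 a14 a4235 i1397 a445 a1371 a1002 (k8 i349 a451 i184 a4078 a4192 a2607 a464 a72 (k8 i2051 i388 i1132 a2924 a466 a380 a58 a205 (k8 a406 a4264 i817 i1988 a460 a4083 i1930 a427 k0)))))) (by decide +kernel)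
def a4270 : PP 8 4 T 0x10402000000000000000000000000000000004000000040000208020000000002000000 := rS 0x7e2b97a5c66c41cab6781645629138e4d6b85588c8e212a8950a7556ad5269532b2e08913ca5cc283319353314389cd526f8695cecc9 (k8 a3732 a4269 i1627 a65 a4227 a4230 i1093 a4258 (k8 a389 a57 i528 i488 a374 i1311 a24 a1448 (k8 a102 a4268 a385 a63 a14 a4235 i1397 a445 (k8 a1371 a1002 i349 a72 i743 a451 i184 a4078 (k8 a2607 a464 i2051 a331 a443 i388 a2924 a127 (k8 a4264 a3227 a107 a380 a3812 i1988 i1930 a4083 (k1 a427 k0))))))) (by decide +kernel)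
def a4271 : PP 8 4 T 0x10002000000000000000000000000000000004000000040000208020000000002000000 := rS 0x17e9a4ed3cfcaf45b32225d8927cb2974cad62ead31986867d5c32e08ab4ac50df0d39aa526714795cecc9 (k8 a3732 a4269 i1627 i1132 a4258 a4235 a4230 i1093 (k8 a65 a4227 a389 a14 a4078 a4268 a385 a2607 (k8 i1330 a351 i1311 i488 a445 a4192 i1397 a57 (k8 a24 a2924 i1715 a4270 a5 a205 a1729 i491 (k4 i499 a403 a36 i1910 (k2 a336 i1723 (k1 a1490 k0))))))) (by decide +kernel)
def a4272 : PP 8 4 T 0x10002000000000000000000000000000000000000000040000208020000000002000000 := rS 0x2f56c9e66c4d0cb865c11569348a54f29730a0cc64d4cc50e273549be1ac9 (k8 a3732 a65 a4227 a4230 i1093 a4258 a389 a57 (k8 i528 i488 a374 i1311 a24 a1448 a14 a102 (k8 a4235 a4078 a4268 a385 a2607 a4271 a69 i153 (k4 a3599 a4264 i1988 i1190 k0)))) (by decide +kernel)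
def a4273 : PP 8 4 T 0x10002000000000000000000000000000000000000000000000208020000000002000000 := rS 0x170c11ad0946a57208cfab53f886227612958cc31010cc9a934aa245a1d508be287139aa4df0d (k8 a65 a4227 a4230 i1093 a4258 a389 a363 i310 (k8 a2992 i1040 a337 a14 a4235 i528 i2050 i180 (k8 i2724 a4272 i489 a3344 i490 a58 a2991 a3022 (k8 i807 i1630 i1625 a107 a164 a263 a403 a364 (k2 a408 i2033 (k1 a351 k0)))))) (by decide +kernel)
def a4274 : PP 8 4 T 0x4002000000000000000000000000000000400000100040008000000000000000000000 := rS 0xef11 (k2 a58 i1627 (k1 a466 k0)) (by decide +kernel)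
def a4275 : PP 8 4 T 0x2000000000000000000400000000800001100800400105200000000000000000000 := rS 0x3350ecf41c34b345 (k8 a111 a2924 a65 a374 i1152 a982 i810 a460 k0) (by decide +kernel)
def a4276 : PP 8 4 T 0x14102000000000000000000021000000800000000100400105208000000000000000000 := rS 0x13e865eaf8fc7640d0cfa8f42a44f29730a0cc64d4cc50e273549be1ac9 (k8 a3732 a65 a4227 a4230 i1093 a4258 a389 a57 (k8 i528 i488 a374 i1311 a24 a1448 a102 a1002 (k8 i1132 i1330 a351 i1337 a466 a403 a4275 i135 (k2 i1723 i1190 (k1 a3599 k0))))) (by decide +kernel)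
def a4277 : PP 8 4 T 0x10002000000000000000000000000000000000000000000000208000000000002000000 := rS 0x5ea796c8689b3620573aae0d65565c5e085d4d1956aad45800ce1e5781884412caad269147a54f29730a0cc64d4cc50e273549be1ac9 (k8 a3732 a65 a4227 a4230 i1093 a4258 a389 a57 (k8 i528 i488 a374 i1311 a24 a1448 a14 i1132 (k8 a102 a4235 a4078 a2924 a4273 a3000 i439 i2250 (k8 i440 i2246 i437 i2247 i2842 i2889 i2712 a336 (k8 a2497 a4114 a4192 a385 a72 a464 a2607 a1371 (k8 a4274 a4276 a380 a205 a3812 a947 a3599 i1988 (k1 i1190 k0))))))) (by decide +kernel)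
def a4278 : PP 8 4 T 0x2000000000000000000000000000000000000000000000208000000000002000000 := rS 0xa6038a44f13202d4b8431ebf55c394d8ee302b1693ca61d0b8bd12794b985066326a66287139aa4df0d (k8 a65 a4227 a4230 i1093 a4258 a389 a57 i528 (k8 i488 a374 i1311 a24 a1448 a337 a363 a2996 (k8 a2992 i95 i31 i1040 i388 a4277 a345 a41 (k8 a42 a2347 a2965 a1827 i2250 i499 a227 a3000 (k4 a5 a3002 a443 a4113 (k2 a3489 a1825 k0)))))) (by decide +kernel)
def a4279 : PP 8 4 T 0x20002000000000000000000000000000000000000000000000208000000000000000000 := rS 0x3ad5faae2794cc6998a1c4e6a9869008600018243e1a0c85cde05 (k8 a4065 a4227 a2996 a4278 a437 i271 i1309 i1045 (k8 a349 i438 a3000 a65 a4230 i1093 a4258 a389 (k8 a57 i488 i95 i31 a2347 a2965 a227 a4113 (k1 a4070 k0)))) (by decide +kernel)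
def a4280 : PP 8 4 T 0x602002000000000000000000000000000000000000040004208000000000000000000 := rS 0x1425c32e08653a96556934a9e96c9a57976327941a4532978a1ce1a61458682e40218649a6f5498ce2c9 (k8 a3732 a4258 i488 a4230 a4227 i528 a4278 i438 (k8 a3000 a2996 a437 a4110 i1311 a65 i1093 a389 (k8 a24 a57 a102 a374 a1448 a4279 a2497 i499 (k8 a336 a947 a406 a14 a4235 a4078 a2924 a453 (k4 i1049 a2918 a385 a2607 (k2 a4220 a351 k0)))))) (by decide +kernel)
def a4281 : PP 8 4 T 0x102200000000000000000001010000000000000000040004208000000000000000000 := rS 0x1d62eb835954cacb55a4d2a9a57976327941a4532978a1ce1a61458682e40218649a6f5498ce2c9 (k8 a3732 a4258 i488 a4230 a4227 i528 a4278 i438 (k8 a3000 a2996 a437 a4110 i1311 a65 i1093 a389 (k8 a24 a57 a102 a374 a1448 a4279 a2497 i499 (k8 a336 a14 a4235 a4078 a385 a63 a72 a464 (k4 a2607 a4192 a1371 a4276 k0))))) (by decide +kernel)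
def a4282 : PP 8 4 T 0x402002000000000000000001000000000000000000040004208000000000000000000 := rS 0x2518084a8643bc16225907800065d8ca2c34172010c32794b985066326a66287139aa4df0d48ab59205 (k8 a4065 a3732 a420 a102 a65 a4227 a4230 i1093 (k8 a4258 a389 a57 i528 i488 a374 i1311 a24 (k8 a1448 a4278 i438 a3000 a2996 a437 a4110 a4279 (k8 a2497 i1045 a349 i597 a2924 a4280 a4281 a4251 (k4 a4263 a362 i783 i962 (k2 i764 a1332 k0)))))) (by decide +kernel)
def a4283 : PP 8 4 T 0x402002000000000000000001000000000000000000040000208000000000000000000 := rS 0x22e7565994aa5655934c29324a3cc6958a1c4e6a937c355ac9 (k8 a3732 a420 a65 a4227 a4230 i1093 a4258 a389 (k8 a14 i488 i1132 i29 a4235 i1311 i528 a4078 (k4 a4282 i53 i1580 i506 (k2 a1381 a4168 (k1 a4274 k0))))) (by decide +kernel)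
def a4284 : PP 8 4 T 0x2000000000000000000000000000000000000000080000018040000000000000002 := rS 0x304a56 (k4 i489 a3344 i449 a3062 k0) (by decide +kernel)
def a4285 : PP 8 4 T 0x2000000000000000000001010000000000000000000008208000000000000000000 := rS 0x22e7565994aaab30a4c928f31a56287139aa61a670000c8619269bd9205 (k8 a4065 a3732 a4227 i528 a4278 i438 i1045 a349 (k8 a4284 a65 a4230 i1093 a4258 a389 a14 i488 (k8 i1132 i29 a4235 i1311 a4078 i53 i1580 i506 (k2 a1381 a4168 (k1 a4274 k0))))) (by decide +kernel)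
def a4286 : PP 8 4 T 0x2202000000000000000001000000000000000000000000208000000000000000000 := rS 0x88448ce000190c324d3795d5a05 (k8 a4065 a420 a4285 a4227 i528 a4278 i438 i1045 (k4 a349 a4284 a4283 a4281 (k1 a205 k0))) (by decide +kernel)
def a4287 : PP 8 4 T 0x2002000000000000000001000000000000000000000000208000000000000000000 := rS 0x4b1118150e821321de0aad07976328b0d05c80794b98506634cc50e27354c3522670000c8619269bc0ac9 (k8 a3732 a4065 a4227 i528 a4278 i438 i1045 a349 (k8 a4284 a102 a65 a4230 i1093 a4258 a389 a57 (k8 i488 a374 i1311 a24 a1448 a3000 a2996 a437 (k8 a4110 a4279 a2497 i597 a420 a4286 a4251 a4263 (k4 i783 i1049 i1050 i962 (k2 a453 i764 (k1 a1332 k0))))))) (by decide +kernel)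
def a4288 : PP 8 4 T 0x2000000000000000000001000000000000000000000000208000000000000000000 := rS 0x3bf55263389008600018243e1a0c85cde05 (k8 a4065 a4227 a2996 a4278 a437 i271 i1309 i1045 (k8 a349 i438 a3000 a4258 i488 a4230 a4287 a4113 (k1 a4070 k0))) (by decide +kernel)
def a4289 : PP 8 4 T 0x2000000000000000000000000000000000000000000000208000000000000000000 := rS 0x104652d0ce5d8ca2c00400d00c86193ca652e638a1c4e61748a0e1a4d309bd5205 (k8 a4065 a4230 a4227 i1311 i528 a65 a374 a102 (k8 a2996 i1093 a4258 a389 i488 a24 a57 a1448 (k8 a4278 i438 i1045 a437 a3000 a349 a4110 a4279 (k4 a2497 a4284 a4288 i1397 (k2 a4259 a385 k0))))) (by decide +kernel)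
def a4290 : PP 8 4 T 0x2000000000000000000002000000000000000000000000200000000000000000000 := rS 0xa518bf41a8f03c5866d25c99c3e63200d628433283e0a2104a84e656654343a6154a4cea160d864904b269bc0ac9 (k8 a3732 a4065 a4227 i528 a4289 a440 a2997 i748 (k8 a437 a2751 a4235 a4230 i1311 a2992 a65 i1397 (k8 i1398 a259 i2598 i2891 i727 a385 a3001 i1579 (k8 i2252 a4002 i1117 a3000 a51 i182 i545 a3897 (k8 a377 a2770 a352 a402 a432 i465 a2898 a2643 (k2 a2241 a2396 k0)))))) (by decide +kernel)
def a4291 : PP 8 4 T 0x2001000000000001014000040000000001000040004000200020002001500000140 := rS 0x63a450e2b1bc4915198698552713d9e476270b06c324825934de05 (k8 a4065 a4227 i528 a4289 a440 a2997 i748 a437 (k8 a331 i1156 a353 a418 i1359 a4230 i1311 a65 (k8 a2347 a2479 a175 i1774 a8 a69 a112 i1692 (k1 a2287 k0)))) (by decide +kernel)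
def a4292 : PP 8 4 T 0x2000000000000001814000080010000001000000000000200020000001000000040 := rS 0x10cb61489d7e232bad4420d (k8 i465 i744 a4290 i506 i185 a396 a331 a443 (k2 i500 a3822 (k1 i857 k0))) (by decide +kernel)
def a4293 : PP 8 4 T 0x2101000000000000810010000000000000000040004000200020004000000000140 := rS 0x518c5a4a555a4c5e1d1aab582234aa24e30d1698442af618941a0f002842c1b0c920964d37a159a575a9640ac9 (k8 a3732 a4065 a2924 a4290 i506 a2010 a1949 a4227 (k8 i528 a4289 a440 a2997 i748 a437 i821 i740 (k8 i597 i465 a3587 a276 a4292 i744 i1311 a3572 (k8 a65 i1359 a1013 a2354 i185 i1246 i122 i2774 (k8 a2992 i1080 a4235 a4078 a4246 a1807 a4291 a99 (k1 i2033 k0)))))) (by decide +kernel)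
def a4294 : PP 8 4 T 0x2100000000000000804000040000000400000040044000200020001001100000000 := rS 0x11345240caab30a4cea3b138cd8a000b06c32ad11b34aeb52ca553279241352f148c9c496a9869bc0ac9 (k8 a3732 a4065 a4227 a65 a4230 a4289 i1359 a2347 (k8 a4002 a24 i528 a440 a353 a3697 a2354 a2924 (k8 a4290 i506 a2010 i185 i122 a2997 i748 a437 (k8 i740 a4100 a2770 a331 i1156 a2751 a4235 i1311 (k4 a4078 i962 a4033 a4114 (k2 a112 a175 k0)))))) (by decide +kernel)
def a4295 : PP 8 4 T 0x10002000000000000001014000000000000081000000000000002020002001500000000 := rS 0x18e91438ac6f123d9e476270b06c3205 (k8 a4065 a2997 i748 a437 a331 i1156 a353 a418 (k4 a175 i1774 a8 a69 (k2 a112 i1692 (k1 a2287 k0)))) (by decide +kernel)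
def a4296 : PP 8 4 T 0x2101000000000000800000000000000000000040044000200020000000000000040 := rS 0x63a1c56bd40d15348b1823e20a451878111957b0c422506a0d56a91489c1eb9308cd8a005fd0c46cd4295d6a594cc34f271508583619241352f143792c0ac9 (k8 a3732 a4065 a4289 a4227 a4002 a24 i528 a440 (k8 a2997 i748 a437 i821 i1359 a353 a65 a3697 (k8 a2924 a4290 i506 a1949 a2010 i185 a105 a396 (k8 i740 a4100 a2770 i1311 a1575 i597 a331 a443 (k8 a4230 a4078 a374 i465 a3587 i744 a276 a4292 (k8 a2347 a4293 i1309 i201 i1387 a164 a28 a4294 (k8 a4295 a336 a111 i1336 i1417 i390 a982 a3078 (k1 i2032 k0)))))))) (by decide +kernel)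
def a4297 : PP 8 4 T 0x2000000000000000000000000010000000000000000000200040000000000000080 := rS 0xfb4e1a1d (k4 a2992 a65 a402 i1302 (k1 a377 k0)) (by decide +kernel)
def a4298 : PP 8 4 T 0x2000000000000000800000000000000800000000000000200000000000000000000 := rS 0x7f88c34b2b5 (k4 a4290 a2924 a65 a28 (k2 a930 a2107 k0)) (by decide +kernel)
def a4299 : PP 8 4 T 0x2100000000000000800000000000000000000000044000200020000000000000000 := rS 0x6509ce28fd4798552160d864904b269bc8605 (k8 a4065 i21 a4227 i528 a4289 a440 a2997 i748 (k8 a437 a4230 i1311 a4298 a2898 a438 a417 i821 (k2 a4296 a4297 k0))) (by decide +kernel)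
def a4300 : PP 8 4 T 0x2101000000000000400000000000000000080000000000200000000000000000000 := rS 0x56d0ca6ab (k4 a4078 i95 a133 i1556 (k1 a439 k0)) (by decide +kernel)
def a4301 : PP 8 4 T 0x8102100000000000000000000020040010010020000000000200020000101000000000 := rS 0x4300182011b94a8932183c00160d864904b269bd9205 (k8 a4065 a3732 a4227 i528 a4289 a440 a2997 i748 (k8 a437 i740 i597 i21 a4235 i1314 a3421 a2999 (k4 a107 a1200 i1501 i1494 (k1 i2850 k0)))) (by decide +kernel)
def a4302 : PP 8 4 T 0x2100000000000000400000010000010000020000044000200000000000000000000 := rS 0xac642caad52933a85836192412c9ab9309bd9205 (k8 a4065 a3732 a4227 i1311 a1575 i528 a4289 a440 (k8 a2997 i748 a437 a2751 a4235 a4230 a4078 a2924 (k2 i2040 a1978 (k1 i1579 k0)))) (by decide +kernel)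
def a4303 : PP 8 4 T 0x2101000000000000000000000000000400000000044000200020000000000000000 := rS 0x45a22ac3e0961a93389d4eeb55ca254695558b40ea139c5152160d864904b2690cc26f3fb2c0ac9 (k8 a3732 a4065 a4299 a4300 a4227 i1311 i21 i528 (k8 a4289 a440 a2997 i748 a437 a4230 a438 a417 (k8 i821 a4297 a3572 a4078 a476 a3275 a754 a1575 (k8 a4290 a2777 a2751 i1359 a4235 a65 i860 a3860 (k4 a4302 a2119 a2476 a4301 k0))))) (by decide +kernel)
def a4304 : PP 8 4 T 0x2100000000000000000000000000000800000000040000000000000000000000002 := rS 0x1962ec9 (k4 a3732 a432 i2634 a352 k0) (by decide +kernel)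
def a4305 : PP 8 4 T 0x2100000000000000000000000000000000000000044000200020000000000000000 := rS 0x3f51e000b06c324825934de05 (k8 a4065 a4227 i528 a4289 a440 a2997 i748 a437 (k4 i740 a4304 a2898 a4303 k0)) (by decide +kernel)
def a4306 : PP 8 4 T 0x10402000000000000000000000000000140000000040004000200020000000000000000 := rS 0x26d5eb74822d070d30aa4f6790b06c324825934de05 (k8 a4065 a4227 i528 a4289 a440 a2997 i748 a437 (k8 a353 a418 a4230 i1311 a65 a374 a175 a406 (k4 i854 i500 a947 a336 k0))) (by decide +kernel)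
def a4307 : PP 8 4 T 0x2001000000000000000000000000000000000000044000200020000000000000000 := rS 0x23e227e891f62eb88c9cd2a994bc521aab30aa526713a9dc2c1b0c920964d37ad5966556c119205 (k8 a4065 a3732 a4305 a445 a63 a385 a4290 a4227 (k8 i528 a4289 a440 a2997 i748 a437 a2777 a2751 (k8 i1359 a4235 a4230 i1311 a4078 a65 a438 a989 (k8 a837 a1042 a417 a2424 a2607 a4192 i1329 a4306 (k4 a4073 a205 a930 a466 k0))))) (by decide +kernel)
def a4308 : PP 8 4 T 0x2000000000000000000000000000000000000000044000200020000000000000000 := rS 0x1f686b84a9fe228e7e2b4cacb82435566154a4c2c1b0c920964d37ad59205 (k8 a4065 a3732 a4290 a4227 i528 a4289 a440 a2997 (k8 i748 a437 a4235 a4230 i1311 a4078 a65 a4305 (k8 a385 a63 a445 a4307 a2898 a28 a930 a521 (k4 i2040 a351 i1329 a403 k0)))) (by decide +kernel)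
def a4309 : PP 8 4 T 0x402000000000000000000000000000000000000000004000200020000000000000000 := rS 0x6e3f780f456ae1ca6d2318869c45e1d148ec4e974ca254e2d03a84e71454bf51f107288c18002189462212a998ee160d864904b26984de05 (k8 a4065 a4227 i1311 i528 a4289 a440 a2997 i748 (k8 a437 a2777 a4308 i1619 i743 i1506 i861 i21 (k8 i740 i449 i1570 a392 a107 a28 a2898 a4230 (k8 a438 a417 i821 a4297 a3572 a1825 a754 a837 (k8 a989 a331 i1156 a443 a2992 i1080 i1359 a65 (k8 a4306 a25 a41 a42 a2347 i898 a1827 a127 (k2 a6 a376 (k1 i2034 k0)))))))) (by decide +kernel)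
def a4310 : PP 8 4 T 0x2000000000000000000000000000000000000000004000200020000000000000000 := rS 0x10e5d89440ae23728844a0c3595462660010cb2770b06c324825934de05 (k8 a4065 a4227 i528 a4289 a440 a2997 i748 a437 (k8 a2777 a2924 i21 i740 a4308 i1506 i1619 i2264 (k8 i449 i861 i743 a392 i1570 a3062 a107 a4309 (k2 a5 a69 (k1 a3812 k0))))) (by decide +kernel)
def a4311 : PP 8 4 T 0xa02000000000000000000000000000000000000000084000200000000000000000000 := rS 0x323fae58655658c62e59559852677178b43a064aa24e714549c4725d01464028511b35fa354785836192412c9a6f609f43c4220a1e0a05 (k8 a4065 a205 a69 a4310 a3000 i440 a73 i1305 (k8 a4227 i528 a4289 a440 a2997 i748 a437 a28 (k8 i1116 a2898 a380 a9 a361 i959 a914 i700 (k8 a172 a401 i1359 a4230 a2907 a417 a337 a14 (k8 i439 a2992 a499 i1080 a2777 a4235 i1311 a4078 (k8 a2924 a350 i1506 i545 i1619 a1105 a3564 a4300 (k2 a2714 a4018 k0))))))) (by decide +kernel)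
def a4312 : PP 8 4 T 0xa02000000000000000000000000000000000000000004000200000000000000000000 := rS 0x2f17267a2a6876a71ec15228714a061a613a9dc5e160d8643a1e5094d12734cc5152711c8dc044825934ded31f818844142a3d9205 (k8 a4065 a3732 a28 a361 a4310 a3000 i439 a458 (k8 a402 a4227 i528 a4289 a440 i700 a446 a401 (k8 i1359 a4230 a2907 a57 a417 a337 i95 i819 (k8 i440 a2992 a2997 i748 a437 i1080 a2777 a2751 (k8 i1311 a65 a45 a54 a69 a112 a205 i1307 (k8 i242 i1155 a952 a111 a4311 a1575 a2691 i1417 k0)))))) (by decide +kernel)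
def a4313 : PP 8 4 T 0x202100000000000000000000000400400004000000040000200010000000000000000 := rS 0x523941b4310150fcb9869655661499d4ee9539976320169a159aa311b0c7e371ca652e2f44c515271609f43c35478583619168740c3301108904b269bd9205 (k8 a4065 a3732 a4227 i528 a4289 a440 a3000 i700 (k8 i193 i439 a2992 a499 a2997 i748 a437 a28 (k8 i1116 i440 a73 i1305 i1359 a4230 a2907 a337 (k8 i1080 a24 a57 a401 a446 a458 a2713 a9 (k8 i240 a380 a361 a402 i959 a914 a172 a417 (k8 a14 a2777 a2751 a4235 i1311 a4078 a2924 a65 (k8 a1575 a2119 a2714 a2715 a133 i1490 a46 a393 (k1 i1380 k0)))))))) (by decide +kernel)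
def a4314 : PP 8 4 T 0x202000000000000000000000000000000000000000044000200000000000000000000 := rS 0x22f04438ccb2ab308ad2ad356b346a8f1329d4253168fc0c891785836190ea6d6e903dc64027939c3507134ba6628a9388e46e022412c9a6f0f1088205 (k8 a4065 a4310 a3000 i440 a4227 i528 a4289 a440 (k8 i700 a446 a401 i1359 a4230 a2907 a57 a24 (k8 a4312 a374 a65 a417 a353 i959 a914 a418 (k8 a406 i854 a947 a2992 a2997 i748 a437 i1080 (k8 a337 i439 a458 a499 i95 i819 a889 a2717 (k8 a28 i1116 a380 i2842 a402 a14 a818 i1311 (k4 a4078 a2924 i193 a2828 (k2 a4313 a4192 (k1 a2998 k0))))))))) (by decide +kernel)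
def a4315 : PP 8 4 T 0x202000000000000000000000000000000000000000004000200000000000000000000 := rS 0x87359553f173333d21132ba3cb27b3c9dcba020b06c331900920964d379088205 (k8 a4065 a4310 a3000 a4227 i528 a4289 a440 i959 (k8 a914 a2997 i748 a437 i700 a172 a2777 a353 (k8 a418 a2924 a28 a58 a4312 a406 i1149 a4314 (k4 a350 a414 i1619 i548 (k2 a2722 a3812 k0))))) (by decide +kernel)
def a4316 : PP 8 4 T 0x2000000000000000000000000000000000000000080008000080000000000800001 := rS 0x198d41821 (k4 a2991 i441 i1117 i1610 (k1 a3042 k0)) (by decide +kernel)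
def a4317 : PP 8 4 T 0x2000000000000000000000000000000000000000084000200000000000000000000 := rS 0xfb435c304663523c10aea33fa951c55658c62f0d2ca4cea771785836195a80404480f0b49a6f0e818849544c5082a93892e2205 (k8 a4065 a4315 a4289 i1359 a4230 a4310 a2907 a337 (k8 a14 a3000 i439 a2992 a4227 i528 a499 i440 (k8 a440 i700 i959 a4290 a2997 i748 a437 i1080 (k8 a2777 a2751 a4235 a2924 a65 a350 i1506 i545 (k8 i1619 a466 i1379 a930 i241 a4316 a362 a451 (k4 a3155 i192 a193 i2033 (k2 a2282 i1329 (k1 a403 k0)))))))) (by decide +kernel)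
def a4318 : PP 8 4 T 0x102000000000000000000020000000000000000000000000200000000000000000000 := rS 0x1f91c7da1c34ee160d864904b269bd6a05 (k8 a4065 a4290 a4227 i528 a4289 a440 a2997 i748 (k8 a437 a2777 a65 a351 i1329 a2352 a403 a930 k0)) (by decide +kernel)
def a4319 : PP 8 4 T 0x2000000000000000000000000000000000000000004005200000000000000000000 := rS 0x824349e532c984de938a10552712599d7311 (k8 a4315 a4318 a4317 a4289 i1359 a4230 a4310 a2907 (k8 a4235 a4227 i1311 a2924 i95 i31 a65 a362 (k1 a948 k0))) (by decide +kernel)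
def a4320 : PP 8 4 T 0x2000000000000000000000000000000000000000004008200000000000000000000 := rS 0x659955661499d42c1b0c9209a6f5aa5628a93892d5a1e0310882675cc459205 (k8 a4065 a3732 a4315 a4318 a4317 a4310 a3000 i439 (k8 i440 i2842 a4289 i1359 a4230 a2907 a14 a4290 (k8 a4227 i528 a440 a2997 i748 a437 a2751 a4235 (k4 i1311 a4078 i1579 i506 (k1 i2040 k0))))) (by decide +kernel)
def a4321 : PP 8 4 T 0x2000000000000000000000000000000000000000004000200000000000000000000 := rS 0x3152a8d820d119f46a548295d723333c455a894a83c5a1e0300a284220c349e532c9855293388bc2c1b0c920964d378759205 (k8 a4065 a3732 a2992 a4227 i528 a4289 a440 a2997 (k8 i748 a437 i1080 i1359 a4235 a4230 i1311 a2924 (k8 i95 i31 a65 a4310 a3000 a2907 i700 i439 (k8 i440 a499 i595 a14 a337 i2842 a4315 a4317 (k8 i193 a4318 a4320 a948 a4319 a547 a1978 a2999 (k4 i1490 i1305 i240 i1380 (k2 i1003 i2033 k0))))))) (by decide +kernel)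
def a4322 : PP 8 4 T 0x2000000000000000000000000000000000000004000000200000000000000000000 := rS 0x70010d424016c54c4160d864907125aa49a05 (k8 a4065 i528 a4230 a4289 i1359 a440 a2997 i748 (k8 a437 a4321 a51 i1238 a2907 i822 i21 i740 (k2 a4297 i447 k0))) (by decide +kernel)
def a4323 : PP 8 4 T 0x2000000000000000000000000000000000000000000000200000000000000000000 := rS 0x6f (k2 a4227 a4322 k0) (by decide +kernel)
def a4324 : PP 8 4 T 0x2000000000000000000000000000004000000000048002002040000000400000000 := rS 0x106a75da669e9e358ac7a20521957e0c6528d28fd19b156a8f12c15366f3a9dc52270480c1eab1f9ccfa7f45c4d6eaf40c31a6060e93ce2a90fa845a5330ae58288001002c1b0cb240a51 (k8 a4323 a4065 a3732 a2997 i748 a437 a3000 i740 (k8 i448 i1344 i1406 i37 i829 i1238 i822 i183 (k8 i97 a209 i1350 i741 i447 a402 a377 a4 (k8 i2261 a118 a4014 a175 a35 a340 a2753 a458 (k8 i2260 i597 i999 i1349 a331 a443 a2777 a2751 (k8 i1319 a412 a72 i2520 i766 i767 a4100 a2770 (k8 a2898 i2044 i280 a476 a4024 a396 i1492 i466 (k8 i1489 i1386 i903 a3273 a1947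 a26 i1113 i1686 (k2 i283 a2892 (k1 i2031 k0)))))))))) (by decide +kernel)
def a4325 : PP 8 4 T 0x2000000000000000840005000018400020100000000000000005000014050800000 := rS 0x15a0d4e375da669ebf (k8 a396 a26 i1113 i1686 i997 i283 a2892 i899 (k1 i2031 k0)) (by decide +kernel)
def a4326 : PP 8 4 T 0x2100000000000000000000000000024000000000048004002040000000000000000 := rS 0x2b53a0d84bba79a93e65638f418a451b296a3367b153a9b1489cb24d0480d563f3e9fd17135babd030c0e93ce2a9508b4a66160a20425511bf44a8f39b4c0c000f9002c1b0cb240a51 (k8 a4323 a4065 a3732 a2997 i748 a437 a3000 i183 (k8 i740 i447 a402 a2753 i1102 i860 a2898 i185 (k8 a4324 i743 i448 i1344 i37 i829 i1238 i822 (k8 i97 a209 i1350 i741 a377 a4 i2261 a118 (k8 a4014 a175 a35 a340 a458 i2260 i999 i1349 (k8 i30 a506 a331 a443 a412 a544 a4100 a2062 (k8 a2770 a1692 a476 i280 i2030 a4024 i1386 i414 (k8 i1492 a4325 a388 a394 i1946 i468 a2892 i368 (k2 i371 i2031 k0))))))))) (by decide +kernel)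
def a4327 : PP 8 4 T 0x2000000000000000000000000000024000000000048004002040000000000000000 := rS 0xde32f1618c58a0d19a41c9115a1ac8ecb820951e7b3a9dcb24d1d89c1eab56a20e67d3fa2e26b757a0618d3030003a4f38aa43ea11694cc2160d864aa23201440ac9 (k8 a3732 a4065 a4323 a3000 i185 a4324 a2997 i748 (k8 a437 i37 i829 i1238 i822 i183 i97 a209 (k8 i1350 i741 i740 i447 a402 a377 a4 i2261 (k8 a118 a4014 a175 a35 a340 a2753 i448 i2861 (k8 i2260 i597 a331 i1156 i30 a506 a2777 a2751 (k8 a418 i1102 i860 a4326 a385 a451 a464 i2037 (k8 a444 a1788 a2262 a3985 a392 a40 a459 a468 (k4 a3227 a25 a2317 a3409 k0)))))))) (by decide +kernel)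
def a4328 : PP 8 4 T 0x1002200000000000000001010014040014040050000040015440000400000000004080 := rS 0x6f1978b0c62c506a793acf19b922d435a294d64765b4d9251 (k8 a4323 a3732 a402 a385 a451 a464 i1379 i2037 (k8 a84 a447 a393 a360 a368 a399 a192 a392 (k4 a40 a459 a468 a3227 (k2 a3410 i996 (k1 a3409 k0))))) (by decide +kernel)
def a4329 : PP 8 4 T 0x2000000000000000000000000000004000000000048004002040000000000000000 := rS 0xb547c1546952ab062a6f3a9dcb24d1d89c1eab56a20e67d3fa2e26b757a0618d3030003a4f38aa43ea11694cc2160d865722320014a2c9 (k8 a3732 a4323 a4065 a3000 i185 i1406 a2997 i748 (k8 a437 i37 i829 i1238 i822 i183 i97 a209 (k8 i1350 i741 i740 i447 a402 a377 a4 i2261 (k8 a118 a4014 a175 a35 a340 a2753 i448 i2861 (k8 i2260 i597 a331 i1156 i30 a506 a2777 a2751 (k8 i1319 a51 i1344 a4324 a4327 i281 a4328 a4304 (k2 a1692 i2044 k0))))))) (by decide +kernel)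
def a4330 : PP 8 4 T 0x2000000000000000000000000000000000000000048004002040000000000000000 := rS 0x2085432ad597174914cc25926aad5a883e9fe18d3030003a4f38aa43e4050858361916b24a205 (k8 a4065 a4323 a3732 i1238 a2997 i748 a437 i822 (k8 a3000 i183 i97 a209 i1350 i741 i740 i447 (k8 a402 a377 a35 a340 i448 i2861 i2260 i30 (k8 a506 i37 i829 a4329 a19 i1367 i1368 i1549 (k2 i2037 a352 (k1 a72 k0)))))) (by decide +kernel)
def a4331 : PP 8 4 T 0x2000000000000000001001000150008000050000000000000000000000550800000 := rS 0x4831 (k2 i1509 i2030 (k1 i861 k0)) (by decide +kernel)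
def a4332 : PP 8 4 T 0x2000000000000000008005040000000000100000400008440000000010000000000 := rS 0x5c6620d0b4f89a1e2251 (k8 a4323 a58 a387 a4014 a13 i1866 a197 a436 (k2 a108 i1970 k0)) (by decide +kernel)
def a4333 : PP 8 4 T 0x502200000000000000404005054100008024150040040000002004010514550000000 := rS 0x54837829d8a3d42d3d32be482f632c75d890663072b01467b3ca842c1b0c9ad9205 (k8 a4065 a3732 a464 a2997 i748 a437 i822 a353 (k8 a418 i1634 a4331 a408 i1345 i1614 a107 i2938 (k8 a242 a1713 i1252 a406 a391 i1110 a60 i1607 (k4 i1260 i1528 i283 a379 (k2 a197 i2031 (k1 a126 k0)))))) (by decide +kernel)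
def a4334 : PP 8 4 T 0x2200000000000000004000000100004000000000048000002020002000000000000 := rS 0x974cd157a955da42851951b9467154d9ecf23555ab4e7135babd030c698183a4f38aa43ea11694cc2c1440002c1b0cb240a51 (k8 a4323 a4065 a3732 a2997 i748 a437 i740 i448 (k8 i1344 i37 i829 i1238 i822 i183 i97 a209 (k8 i1350 i741 i447 a402 a377 a4 i2261 a118 (k8 a4014 a2753 i2861 i2260 i2774 a353 a418 a412 (k8 a51 i16 a459 i1652 a1713 a393 a406 a86 (k4 a121 a338 a1010 i1110 (k2 a4122 a422 k0))))))) (by decide +kernel)
def a4335 : PP 8 4 T 0x102000000000000000000000000080000020000040000000002000000000000000000 := rS 0x478c928770b06c3205 (k8 a4065 a2997 i748 a437 a2777 i281 i280 i1102 (k1 a3985 k0)) (by decide +kernel)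
def a4336 : PP 8 4 T 0x2200000000000000000001000000000000000000048008002020000000000000000 := rS 0x9062c149b0c52271a8bd56ad1f9f4ff135babd030c0e93ce2a9508b4a661438854acb51c44e6d30307d10000b06c326b1191c0a51 (k8 a4323 a4065 a451 i184 a464 a2997 i748 a437 (k8 i740 i448 i183 i447 a402 a2753 a58 a4335 (k8 i505 i1379 a2991 a387 i37 i829 i1238 i822 (k8 i97 a209 i1350 i741 a377 a4 i2261 a118 (k8 a4014 a35 a340 a458 i2861 i2260 i2752 i2774 (k8 a331 a443 a4332 a4333 i1344 a4334 i2030 i861 k0)))))) (by decide +kernel)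
def a4337 : PP 8 4 T 0x2200000000000000000000000000000000000000048008002020000000000000000 := rS 0x9d67a7c6ccd153c58ae460d0d686b3c8a44e8b89add5e81860749e7154a845a5330a1cca7552b2d471139b4c0c1f440002c1b0cb240a51 (k8 a4323 a4065 a3732 a2997 i748 a437 i740 i448 (k8 i183 i447 a402 a2753 a58 a4335 i505 i1379 (k8 a2751 i1579 a387 i37 i829 i1238 i822 i97 (k8 a209 i1350 i741 a377 a4 i2261 a118 a4014 (k8 a175 a331 a443 a353 a464 a4336 a84 i1247 (k8 a393 a40 a3227 a127 i2603 i899 a680 a569 (k2 i1779 a388 k0))))))) (by decide +kernel)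
def a4338 : PP 8 4 T 0x2000000000000000000000000000000000000000048000002040000000000000000 := rS 0x1989067a3e0a872b1d4ee8b89add5e818634c0c000e93ce2a90fa845a53308583619203240a51 (k8 a4323 a4065 a3732 a3000 a2997 i748 a437 i37 (k8 i829 i1238 i822 i183 i97 a209 i1350 i741 (k8 i740 i447 a402 a377 a4 i2261 a118 a4014 (k8 a175 a2777 a2751 a4330 a387 a4337 a4304 a2062 (k2 a2766 a2802 (k1 i892 k0)))))) (by decide +kernel)
def a4339 : PP 8 4 T 0x2000000000000000000000000000000000000000008000002040000000000000000 := rS 0x2d046e510a8d4a25061552acb18998fe7d8634d560644074001f201dd422d279c42c1b0caa40a51 (k8 a4323 a4065 i97 a2997 i748 a437 a209 i1350 (k8 i1238 i822 a2777 a3000 i183 i740 i741 i448 (k8 i447 i2260 a402 a377 a340 a35 a4338 i1506 (k8 i2263 i1673 i1619 i449 i861 i1379 i281 i743 (k4 a392 i1570 a2673 a1788 k0))))) (by decide +kernel)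
def a4340 : PP 8 4 T 0x2000000000000000000002000000000000000000088000002000000000000000000 := rS 0x2e52acb4724e09438a9d49e7154c5cb24d2b80482420b06c3205 (k8 a4065 a2997 i748 a437 a4339 i21 i959 a4316 (k8 i30 i543 a350 i97 a209 i1350 a2751 a51 (k8 a84 a1692 i1368 a201 a385 a521 i1405 a447 k0))) (by decide +kernel)
def a4341 : PP 8 4 T 0x2000000000000000400000004000000000000000088000002000000000000000000 := rS 0xd317b903a336091c6b0410a24f8097e4545a53279c552028b9649a0f18ab4c2553b95c02412105836195aae4a205 (k8 a4065 a4323 i1405 a4340 a2997 i748 a437 a4339 (k8 i21 i959 a4316 a2777 i1619 i37 i1622 i1506 (k8 i541 i30 i543 a350 i700 i97 a209 i1350 (k8 i829 i1238 a51 a1301 a369 a2779 i190 a929 (k8 a1978 i1117 a451 a193 i192 i1233 a429 i1080 (k2 a4206 a120 k0)))))) (by decide +kernel)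
def a4342 : PP 8 4 T 0x2000000000000000400000000000000000000000088000002000000000000000000 := rS 0xe34c42a57228c463303c403e2f238d51f0c3f9cd287d49b05faaa5cc54de53309d5422d279c5520212c5cca312a9dcae01209082c1b0cad4a205 (k8 a4065 a4323 a4340 a2997 i748 a437 a4339 i21 (k8 i959 a4316 a2777 i1619 i1506 i38 a350 i2594 (k8 i700 i97 a209 i1350 i1238 i822 a2751 i37 (k8 i829 i1319 a51 i1405 a4341 a97 a1815 i1636 (k8 i1595 i538 a3270 a1044 a467 i1102 i2760 i3001 (k8 i1079 a81 a466 a3023 i192 a9 a3092 a429 (k4 a382 a46 a3873 a3836 (k1 a1693 k0)))))))) (by decide +kernel)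
def a4343 : PP 8 4 T 0x2001000000000000000000000000000000000000000000040000000000020000040 := rS 0x12d3 (k2 a341 i1261 (k1 a1807 k0)) (by decide +kernel)
def a4344 : PP 8 4 T 0x2001000000000040800020000000000000000000008000000000000400000000048 := rS 0xc94888044545a05 (k8 a4065 i1238 a51 a1807 a120 i1387 i1404 i2067 k0) (by decide +kernel)
def a4345 : PP 8 4 T 0x2000000000000000800020000000000000000000008000000000000000000000208 := rS 0xc94888 (k4 i1348 i1387 i1404 i2067 k0) (by decide +kernel)
def a4346 : PP 8 4 T 0x2000000000000000000000000000000000000000088000002000000000000000000 := rS 0xcdcaa51002546d20e8340e357e8bcfe8f119ce20955c07d82933ec1556ca5a95caaad1883cb315309bc9a753ba845a4f38858361954808024121324a205 (k8 a4065 a4323 a3732 a4339 i21 i959 i700 i97 (k8 a2997 i748 a437 a209 i1350 i1238 i822 a2777 (k8 a2751 i30 i1319 i37 a51 i543 i541 i1506 (k8 i1622 i1619 a4316 a4340 a4342 i123 a385 i1327 (k8 i1367 i1246 a1988 i546 i1673 a362 a171 a9 (k8 a28 a3171 i1079 a2898 i1116 a492 i465 a4343 (k8 a4344 a99 a4345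 a4023 a4246 a46 i1611 a1299 k0))))))) (by decide +kernel)
def a4347 : PP 8 4 T 0x2001000001000000814001000000000008040000000000440000000000200000140 := rS 0x9d8c5c78abd7683a7a056e51 (k8 a4323 a577 a3072 a20 a3949 i1684 i626 a1818 (k4 a108 a379 a3002 i1690 k0)) (by decide +kernel)
def a4348 : PP 8 4 T 0x8802000000000000000800000000000000400000000008000002000000000000000000 := rS 0x244f6753b93ce2160d86552cd8295cb24d212056efd29984a205 (k8 a4065 a4323 i37 i829 a2898 a577 a3072 a4339 (k8 i30 a542 i505 a385 a2010 i97 a2997 i748 (k8 a437 a209 i1350 a2777 a2751 a418 a112 a4025 k0))) (by decide +kernel)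
def a4349 : PP 8 4 T 0x402100000000000001000000000000001404000000040000002000000000000000000 := rS 0x8c1ecf2750b06c3205 (k8 a4065 a2997 i748 a437 a2751 a353 a418 a406 (k1 a2737 k0)) (by decide +kernel)
def a4350 : PP 8 4 T 0x2000000001000080800000000100000000000000008000002000000000200000100 := rS 0x178821faed5e5d4cc6520c743a6d7ecd62b0c0e3d53a056e7f39bf4a66137c54ef138b23d282f1a8c41ac107a4d723333a24042d51ad60a4f388583619549649a422b9440ac9 (k8 a3732 a4065 a4323 i505 a4339 i30 a542 i97 (k8 a2997 i748 a437 a209 i1350 a385 a1692 a99 (k8 i1238 i700 i190 a4346 i193 i1406 i1367 i595 (k8 i1246 i466 i1003 a547 a359 i2033 i1103 a429 (k8 a4348 a2777 a51 i1319 i37 i829 a2898 a3270 (k8 a3171 a577 a3072 a67 a335 a402 a276 a277 (k8 a2010 a396 a412 a4347 i1689 a4349 a25 i1110 (k4 a172 i540 a4238 a4249 (k2 a108 i2036 (k1 i1416 k0)))))))))) (by decide +kernel)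
def a4351 : PP 8 4 T 0x2100000000000080000000000100000000040000000014000080000000140000000 := rS 0x22255 (k2 i703 a4042 (k1 a362 k0)) (by decide +kernel)
def a4352 : PP 8 4 T 0x2000000000000080800000000100000000000000008000002000000000000000100 := rS 0x1ca203f87ce6fd47a51462f8a8b4de53309dd723344a4d6a4f3885836195495d8235079649a67828c41a02211459205 (k8 a4065 a3732 a4323 a4339 i700 i466 i1003 a385 (k8 a4346 i30 a542 i595 a547 i1246 i505 i97 (k8 a2997 i748 a437 a209 i1350 a1692 i1367 i190 (k8 i193 i1406 a2777 i37 i829 i1319 i1238 a51 (k8 a359 a99 i2033 i1103 a2898 a3270 a1620 a3171 (k2 a4351 a46 (k1 a4350 k0))))))) (by decide +kernel)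
def a4353 : PP 8 4 T 0x2100000000000000000000000000000800000000000014000000000000000000000 := rS 0x15622c9 (k4 a3732 a28 i766 a362 k0) (by decide +kernel)
def a4354 : PP 8 4 T 0x2000000000000000800000000000000000000000008000002000000000000000100 := rS 0x14ad2038bce6fd4783cae5982ab62a2d2694cc2710b06c32a920aacce8901108a205 (k8 a4065 a4323 a4339 i700 i190 a4346 i537 i21 (k8 i97 a2997 i748 a437 a209 i37 i829 i30 (k8 i1238 a51 i122 a385 a542 i505 i595 a4353 (k4 a2898 a3270 i1079 a492 (k2 a120 a4246 (k1 a4352 k0)))))) (by decide +kernel)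
def a4355 : PP 8 4 T 0x2101000000000080400010004000010010050554040014000080004000040000000 := rS 0x2072295243547ad41ec9 (k8 a3732 i595 a1244 a4353 a547 i2044 i1365 a1020 (k2 a4351 a46 k0)) (by decide +kernel)
def a4356 : PP 8 4 T 0x2000000000000000000000000000000000000000000020000080000002002000000 := rS 0xc9 (k2 a3732 a559 k0) (by decide +kernel)
def a4357 : PP 8 4 T 0x2000000000000000000000000000000000020000000002000000000000000000000 := rS 0x51 (k2 a4323 i1542 k0) (by decide +kernel)
def a4358 : PP 8 4 T 0x2001000000000000000000000000000000020000000004400000000000000000000 := rS 0x51 (k2 a4323 a936 k0) (by decide +kernel)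
def a4359 : PP 8 4 T 0x12000000000000000401000010110000000040000000000440400000000050005000 := rS 0x51 (k2 a4323 a1808 k0) (by decide +kernel)
def a4360 : PP 8 4 T 0x2000000000000000000004000000000000400020000100420080040008000000000 := rS 0x51 (k2 a4323 a674 k0) (by decide +kernel)
def a4361 : PP 8 4 T 0x12000000000000000000006000000000000500000000100440000000000000000000 := rS 0x51 (k2 a4323 a278 k0) (by decide +kernel)
def a4362 : PP 8 4 T 0x2000000000000000000000040400000000400000000100440000000010020000000 := rS 0x51 (k2 a4323 a564 k0) (by decide +kernel)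
def a4363 : PP 8 4 T 0x20002002000000000000000000001000000000400054000100000000000000000000000 := rS 0x51 (k2 a4323 a919 k0) (by decide +kernel)
def a4364 : PP 8 4 T 0x2000000000000000000000000000000000000000000000000000000000080000080 := rS 0x51 (k2 a4323 i1301 k0) (by decide +kernel)
def a4365 : PP 8 4 T 0x1002000000000000000000004000000000000500000005100420000000000000000000 := rS 0x51 (k2 a4323 a672 k0) (by decide +kernel)
def a4366 : PP 8 4 T 0x2000000000000000000004000000000040500000008100401000000000000000000 := rS 0x51 (k2 a4323 a668 k0) (by decide +kernel)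
def a4367 : PP 8 4 T 0x2000000000000000000000000000000000000000000000000020000000080000000 := rS 0x51 (k2 a4323 i183 k0) (by decide +kernel)
def a4368 : PP 8 4 T 0x2001000000000000000000000000000000000000004000020000000000089000000 := rS 0x5 (k2 a4065 a903 k0) (by decide +kernel)
def a4369 : PP 8 4 T 0x2000000000000000000000000000000000000000000000020000000000000800000 := rS 0x5 (k2 a4065 i708 k0) (by decide +kernel)
def a4370 : PP 8 4 T 0x12200000002000000000000000010000000000000000000440000000000050000000 := rS 0x51 (k2 a4323 a1812 k0) (by decide +kernel)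
def a4371 : PP 8 4 T 0x12001000000000000000000000000000000000000000000440000000000000000000 := rS 0x51 (k2 a4323 a467 k0) (by decide +kernel)
def a4372 : PP 8 4 T 0x2001000000000000000000001000000020000000004000000000000000000000000 := rS 0x5 (k2 a4065 a754 k0) (by decide +kernel)
def a4373 : PP 8 4 T 0x1000000000000012000000000000000000004000000000000500000000000440000000000000000000 := rS 0x51 (k2 a4323 a196 k0) (by decide +kernel)
def a4374 : PP 8 4 T 0x2000000000000000400010015000014000000000055000000000000000000000000 := rS 0xc9 (k2 a3732 i2040 k0) (by decide +kernel)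
def a4375 : PP 8 4 T 0x2000000000000000000000000000000000000000000000002000000000008000000 := rS 0x5 (k2 a4065 i748 k0) (by decide +kernel)
def a4376 : PP 8 4 T 0x2000000000000000000000000000000000000000000000000000020000000000002 := rS 0xc9 (k2 a3732 i1114 k0) (by decide +kernel)
def a4377 : PP 8 4 T 0x2000000000000000000000000000000000000000000000000800020000000000000 := rS 0xc9 (k2 a3732 i207 k0) (by decide +kernel)
def a4378 : PP 8 4 T 0x2100000000000000000000000000000000000000040000000000020000000004000 := rS 0xc9 (k2 a3732 a547 k0) (by decide +kernel)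
def a4379 : PP 8 4 T 0x4002100000000000000000000000000000000000000050000000000000000000000000 := rS 0xc9 (k2 a3732 a352 k0) (by decide +kernel)
def a4380 : PP 8 4 T 0x2000000000000000000000000000000800000000000002000000000000000000000 := rS 0xc9 (k2 a3732 i766 k0) (by decide +kernel)
def a4381 : PP 8 4 T 0x2000000000000000000000000000000800000000000000008000000000000000000 := rS 0xc9 (k2 a3732 i1132 k0) (by decide +kernel)
def a4382 : PP 8 4 T 0x2000000000000000000000000000000080000000000000000000080000000000000 := rS 0x5 (k2 a4065 i1774 k0) (by decide +kernel)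
def a4383 : PP 8 4 T 0x2000000000000000000000000000000000000800000020000000000000000000000 := rS 0xc9 (k2 a3732 i806 k0) (by decide +kernel)
def a4384 : PP 8 4 T 0x2000000000000000000000000000000000000000000020008000000000000000000 := rS 0xc9 (k2 a3732 i605 k0) (by decide +kernel)
def a4385 : PP 8 4 T 0x2000000000000000000000000000000000000000000000000000000000000000005 := rS 0x5 (k2 a4065 a349 k0) (by decide +kernel)
def a4386 : PP 8 4 T 0x2000000000000000000000000000000000000000080000000000000000000008000 := rS 0x5 (k2 a4065 i541 k0) (by decide +kernel)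
def a4387 : PP 8 4 T 0x2000000000000000000000000000000000000000080000000000002000000000000 := rS 0x5 (k2 a4065 i1506 k0) (by decide +kernel)
def a4388 : PP 8 4 T 0x2000000000000000000000000000000000080000000008000000000000000000000 := rS 0x51 (k2 a4323 i1666 k0) (by decide +kernel)
def a4389 : PP 8 4 T 0x2000000000000000800000000000000000020000000000000000000000000000000 := rS 0x51 (k2 a4323 i1327 k0) (by decide +kernel)
def a4390 : PP 8 4 T 0x2000000000000000000000000000000000000080000000008000000000000000000 := rS 0x51 (k2 a4323 i1094 k0) (by decide +kernel)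
def a4391 : PP 8 4 T 0x2000000000000000000000000000000000000000008000008000000000000000000 := rS 0x51 (k2 a4323 i487 k0) (by decide +kernel)
def a4392 : PP 8 4 T 0x2000000000000000000000000000000000000008000000002000000000000000000 := rS 0x51 (k2 a4323 i1009 k0) (by decide +kernel)
def a4393 : PP 8 4 T 0x2000000000000000000008000000000000000000000200000000000000000000000 := rS 0x51 (k2 a4323 i1931 k0) (by decide +kernel)
def a4394 : PP 8 4 T 0x2200000000000000000041000000000008050000000104440000000000000000000 := rS 0x51 (k2 a4323 a900 k0) (by decide +kernel)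
def a4395 : PP 8 4 T 0x2202000000000000000001000000000000050000000004400000000000000000000 := rS 0x51 (k2 a4323 a924 k0) (by decide +kernel)
def a4396 : PP 8 4 T 0x2000000000000000000004040000000000500000000100440000000000000000000 := rS 0x51 (k2 a4323 a108 k0) (by decide +kernel)
def a4397 : PP 8 4 T 0x2000000000000000400001014000000000050000000015440000000000000000000 := rS 0x51 (k2 a4323 i2037 k0) (by decide +kernel)
def a4398 : PP 8 4 T 0x400000000000102000000000000000000008000000000000050000000000440000005000000800000 := rS 0x51 (k2 a4323 a516 k0) (by decide +kernel)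
def a4399 : PP 8 4 T 0x2000000000000000800000000000000000000000000008000000000000000000000 := rS 0x51 (k2 a4323 i505 k0) (by decide +kernel)
def a4400 : PP 8 4 T 0x2000000000000000800000000000008000000000000000000000000000000000000 := rS 0xc9 (k2 a3732 i1367 k0) (by decide +kernel)
def a4401 : PP 8 4 T 0x102000000000000000800000000000000000000000000000040000000001100000200 := rS 0x51 (k2 a4323 a557 k0) (by decide +kernel)
def a4402 : PP 8 4 T 0x2001000000000000000008000000000000000000000000400000000000000000000 := rS 0x51 (k2 a4323 a577 k0) (by decide +kernel)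
def a4403 : PP 8 4 T 0x2000000000000002800000080000000000000000000000440000000000000000000 := rS 0x51 (k2 a4323 a549 k0) (by decide +kernel)
def a4404 : PP 8 4 T 0x2001000000000002800000040000000000000000000100440000000000000000000 := rS 0x51 (k2 a4323 a486 k0) (by decide +kernel)
def a4405 : PP 8 4 T 0x2000000000000000000000000000000000000000008000000000000200000000000 := rS 0x5 (k2 a4065 i1238 k0) (by decide +kernel)
def a4406 : PP 8 4 T 0x2000000000000000000000000000000020000000002000000000000000000000000 := rS 0x5 (k2 a4065 i1278 k0) (by decide +kernel)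
def a4407 : PP 8 4 T 0x2000000000000000000020002000000000000000000000000000000000000000000 := rS 0xc9 (k2 a3732 i1139 k0) (by decide +kernel)
def a4408 : PP 8 4 T 0x2000000000000000000000000000000000000008008000000000000000000000000 := rS 0x51 (k2 a4323 i1319 k0) (by decide +kernel)
def a4409 : PP 8 4 T 0x2000000000000000000000000000000000000000000000000000000000000008002 := rS 0xc9 (k2 a3732 i597 k0) (by decide +kernel)
def a4410 : PP 8 4 T 0x2000000000000000000020020000000000000000000000000000000000000000000 := rS 0xc9 (k2 a3732 i1290 k0) (by decide +kernel)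
def a4411 : PP 8 4 T 0x2000000000000000000000000002000000000000800000000000000000000000000 := rS 0xc9 (k2 a3732 i1908 k0) (by decide +kernel)
def a4412 : PP 8 4 T 0x8002200000000000000000000000005000040000000000000000000000000000000000 := rS 0xc9 (k2 a3732 a192 k0) (by decide +kernel)
def a4413 : PP 8 4 T 0x400000000000102000000000000000000400040008001000450040000100440000000000000000000 := rS 0x51 (k2 a4323 a563 k0) (by decide +kernel)
def a4414 : PP 8 4 T 0x2000000000000000000000000000000000000000020000000000008000000000000 := rS 0x5 (k2 a4065 i1546 k0) (by decide +kernel)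
def a4415 : PP 8 4 T 0x2000000000000000000000000000000000000000000000000000008000000008000 := rS 0x5 (k2 a4065 i284 k0) (by decide +kernel)
def a4416 : PP 8 4 T 0x2200001000000004040000000001000000000000040000000000500000000000002 := rS 0xc9 (k2 a3732 a235 k0) (by decide +kernel)
def a4417 : PP 8 4 T 0x2200000000000004000000000005000040000000040000000000000000000000000 := rS 0xc9 (k2 a3732 a191 k0) (by decide +kernel)
def a4418 : PP 8 4 T 0x2000000000000004000000000005000040000000450000000000000000000000000 := rS 0xc9 (k2 a3732 a388 k0) (by decide +kernel)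
def a4419 : PP 8 4 T 0x2100000000000000000000000002000000000000040000000000000000000000000 := rS 0xc9 (k2 a3732 a544 k0) (by decide +kernel)
def a4420 : PP 8 4 T 0x2001000000000000400001014000000000000000000015440000000000000000000 := rS 0x51 (k2 a4323 a1301 k0) (by decide +kernel)
def a4421 : PP 8 4 T 0x202202000000000000000000000000000000040000000000400000000000000000000 := rS 0x51 (k2 a4323 a1778 k0) (by decide +kernel)
def a4422 : PP 8 4 T 0x2000000000000004000000000001000004002000450000010000000000000000000 := rS 0xc9 (k2 a3732 a1382 k0) (by decide +kernel)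
def a4423 : PP 8 4 T 0x2000000001000000400000015100014000000000015000000000014000000001000 := rS 0xc9 (k2 a3732 a1295 k0) (by decide +kernel)
def a4424 : PP 8 4 T 0x2100000000000000000000000000000000000000040000000400008000000000000 := rS 0xc9 (k2 a3732 a1574 k0) (by decide +kernel)
def a4425 : PP 8 4 T 0x2100000000000000000020000000000000000000041000000000000000000000000 := rS 0xc9 (k2 a3732 a1575 k0) (by decide +kernel)
def a4426 : PP 8 4 T 0x2101000000000000400020004000000000000000000000000000000000000000000 := rS 0xc9 (k2 a3732 a1261 k0) (by decide +kernel)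
def a4427 : PP 8 4 T 0x1002100000000000000000000004080000000000000000000000400000500000000000 := rS 0xc9 (k2 a3732 a1695 k0) (by decide +kernel)
def a4428 : PP 8 4 T 0x2001000000000000000000000000000000000000000000400000000000080000100 := rS 0x51 (k2 a4323 a1620 k0) (by decide +kernel)
def a4429 : PP 8 4 T 0x2001000000000000000000010000000000020000000000400000000000000000000 := rS 0x51 (k2 a4323 a1110 k0) (by decide +kernel)
def a4430 : PP 8 4 T 0x2001000000000000000000000000000000080000000001400000000000000000000 := rS 0x51 (k2 a4323 a1044 k0) (by decide +kernel)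
def a4431 : PP 8 4 T 0x2000000000000000400001004000000000050000018014460000000000000000000 := rS 0x51 (k2 a4323 a1240 k0) (by decide +kernel)
def a4432 : PP 8 4 T 0x2100000000000000000000000000000000002000040008011000000000000000000 := rS 0xc9 (k2 a3732 a1478 k0) (by decide +kernel)
def a4433 : PP 8 4 T 0x1000000000000002100000000000000000100000000010044080000050000080000000000000000000 := rS 0xc9 (k2 a3732 a2486 k0) (by decide +kernel)
def a4434 : PP 8 4 T 0x10402000000000000000000000000000001000001000000000008000000080000000000 := rS 0x5 (k2 a4065 a2927 k0) (by decide +kernel)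
def a4435 : PP 8 4 T 0x2000000000000000000000000000000000000080004000001000000000000000000 := rS 0x51 (k2 a4323 a2961 k0) (by decide +kernel)
def a4436 : PP 8 4 T 0x802002000000000001000001000000000004050000000015000000000000000000000 := rS 0x51 (k2 a4323 a2940 k0) (by decide +kernel)
def a4437 : PP 8 4 T 0x112100000000000000800000000000000000040000000010040000000000000000000 := rS 0x51 (k2 a4323 a2268 k0) (by decide +kernel)
def a4438 : PP 8 4 T 0x1802102000000000000000000000000000404040504044004000000000000000000000 := rS 0x51 (k2 a4323 a2960 k0) (by decide +kernel)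
def a4439 : PP 8 4 T 0x2001000000000000000000001000000000000080000000400000000000000000000 := rS 0x51 (k2 a4323 a1880 k0) (by decide +kernel)
def a4440 : PP 8 4 T 0x2102000000000000002000000000000000050000000014000000000000100004000 := rS 0x51 (k2 a4323 a2821 k0) (by decide +kernel)
def a4441 : PP 8 4 T 0x2102000000000044000001000115000008000000000010000080514040140000008 := rS 0x51 (k2 a4323 a2757 k0) (by decide +kernel)
def a4442 : PP 8 4 T 0x1402002000000000001804001000000000005040024004015020020000001500000000 := rS 0x51 (k2 a4323 a2990 k0) (by decide +kernel)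
def a4443 : PP 8 4 T 0x1202102000000000000000000000000000000040420054014018080000000000005000 := rS 0x51 (k2 a4323 a2987 k0) (by decide +kernel)
def a4444 : PP 8 4 T 0x212101000000000000000000004000010400040454020000400000000000000000000 := rS 0xc9 (k2 a3732 a2156 k0) (by decide +kernel)
def a4445 : PP 8 4 T 0x402000000000000005000000000000000444000500040008000000000000000000000 := rS 0xc9 (k2 a3732 a2802 k0) (by decide +kernel)
def a4446 : PP 8 4 T 0x1002002000000000000000011000000000000010400080014000000000000000000000 := rS 0x51 (k2 a4323 a2779 k0) (by decide +kernel)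
def a4447 : PP 8 4 T 0x20002102000000000000000010000000004000000000054000000000000000000000000 := rS 0xc9 (k2 a3732 a2642 k0) (by decide +kernel)
def a4448 : PP 8 4 T 0x20002100000000000000000000000000000000000000450000000000000000000000000 := rS 0xc9 (k2 a3732 a2579 k0) (by decide +kernel)
def a4449 : PP 8 4 T 0x1002100000000000040000000000200000010000000041000000000000000000004000 := rS 0xc9 (k2 a3732 a2977 k0) (by decide +kernel)
def a4450 : PP 8 4 T 0x2102000000000000001001000050000000040000000014000000000001550004040 := rS 0x51 (k2 a4323 a2800 k0) (by decide +kernel)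
def a4451 : PP 8 4 T 0x1002102000000000000000000000050000000040000044014000000000001550004000 := rS 0x51 (k2 a4323 a2978 k0) (by decide +kernel)
def a4452 : PP 8 4 T 0x2100000000000000800000040000200000000008050000000000000000000000000 := rS 0xc9 (k2 a3732 a2925 k0) (by decide +kernel)
def a4453 : PP 8 4 T 0x2100000000000001000000000004001405000100040000002000000000000000000 := rS 0xc9 (k2 a3732 a2401 k0) (by decide +kernel)
def a4454 : PP 8 4 T 0x2100000000000000000000000004000040000000450000000000000000000000000 := rS 0xc9 (k2 a3732 a1947 k0) (by decide +kernel)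
def a4455 : PP 8 4 T 0x8002000000000000000000000000000000000000000000000000000000000000008000 := rS 0x5 (k2 a4065 a2110 k0) (by decide +kernel)
def a4456 : PP 8 4 T 0x2000000000000000000000000000000000000000000000000000010000000008000 := rS 0xac9 (k2 a3732 a4065 (k1 a2922 k0)) (by decide +kernel)
def a4457 : PP 8 4 T 0x2100000000000000000000000000000000000000040000000000008000000000000 := rS 0x19205 (k2 a4065 a3732 (k1 a2770 k0)) (by decide +kernel)
def a4458 : PP 8 4 T 0x2100000000000008000000000000000000000000040000000000000000000000000 := rS 0xc9 (k2 a3732 a2062 k0) (by decide +kernel)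
def a4459 : PP 8 4 T 0x20102100000000000004000004008000001000050054050010011000000000000000000 := rS 0xc9 (k2 a3732 a2358 k0) (by decide +kernel)
def a4460 : PP 8 4 T 0x2002000000000000000000000000000000000080000100000000800800001800000 := rS 0x51 (k2 a4323 a2783 k0) (by decide +kernel)
def a4461 : PP 8 4 T 0x2001000000000080000010001100004000000000014000000000015000000000000 := rS 0x5 (k2 a4065 a2396 k0) (by decide +kernel)
def a4462 : PP 8 4 T 0x10002100000000000000000000000000000000000000440000000400440000000015000 := rS 0xc9 (k2 a3732 a2871 k0) (by decide +kernel)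
def a4463 : PP 8 4 T 0x1000000000000012002000000000000000101000008600004000100000011000000000000000000000 := rS 0x51 (k2 a4323 a2728 k0) (by decide +kernel)
def a4464 : PP 8 4 T 0x2102000000000000400000000000014000000000054000000000000000000000000 := rS 0xc9 (k2 a3732 a2909 k0) (by decide +kernel)
def a4465 : PP 8 4 T 0x2100000000000080000000000100014010000000041000000400011000000000000 := rS 0xc9 (k2 a3732 a2381 k0) (by decide +kernel)
def a4466 : PP 8 4 T 0x2102000000000000000000000000814040000000054000000000000000000000000 := rS 0xc9 (k2 a3732 a2918 k0) (by decide +kernel)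
def a4467 : PP 8 4 T 0x2002000000000000000000000000000000000020000000000000080000016000000 := rS 0x51 (k2 a4323 a2983 k0) (by decide +kernel)
def a4468 : PP 8 4 T 0x802002000000000000000004000000000000100000000000400000000000000000000 := rS 0x51 (k2 a4323 a2265 k0) (by decide +kernel)
def a4469 : PP 8 4 T 0x10002002000000000080000000000000000040000020000000000000400000006000000 := rS 0x51 (k2 a4323 a2986 k0) (by decide +kernel)
def a4470 : PP 8 4 T 0x10002000000000000000000000000000000000001000000000008000000080000000000 := rS 0x5 (k2 a4065 a3057 k0) (by decide +kernel)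
def a4471 : PP 8 4 T 0x2100000000000004014000000004000000000000050008001000155054000001008 := rS 0xc9 (k2 a3732 a3065 k0) (by decide +kernel)
def a4472 : PP 8 4 T 0x2100000000000000000000000004000000000000050108008000000000000000000 := rS 0xc9 (k2 a3732 a3067 k0) (by decide +kernel)
def a4473 : PP 8 4 T 0x2000000000000004000000000000000004002400450000010000000000000000000 := rS 0xc9 (k2 a3732 a3070 k0) (by decide +kernel)
def a4474 : PP 8 4 T 0x2000000000000000000000000000000000000200050008000000000081000000000 := rS 0x5 (k2 a4065 a3071 k0) (by decide +kernel)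
def a4475 : PP 8 4 T 0x2001000000000000000000000000000000200000000000400000000000000000000 := rS 0x51 (k2 a4323 a3072 k0) (by decide +kernel)
def a4476 : PP 8 4 T 0x10002000000000000004000000000005000040000000040008001000000000000000000 := rS 0xc9 (k2 a3732 a3081 k0) (by decide +kernel)
def a4477 : PP 8 4 T 0x10002000000000000004000000000005000000000000040008001000000004000400004 := rS 0xc9 (k2 a3732 a3082 k0) (by decide +kernel)
def a4478 : PP 8 4 T 0x2001001000000000000005001000001000110044005008450420140101042000000 := rS 0x51 (k2 a4323 a3091 k0) (by decide +kernel)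
def a4479 : PP 8 4 T 0x2001000000000000001001010150000000040000000000000020000001510000000 := rS 0x51 (k2 a4323 a3108 k0) (by decide +kernel)
def a4480 : PP 8 4 T 0x400000000000000002201000000000000000041000000000000500000000104440000000000000000000 := rS 0x51 (k2 a4323 a3121 k0) (by decide +kernel)
def a4481 : PP 8 4 T 0x10402202000000000000000045000000000040010000000004000085440000100010000 := rS 0x51 (k2 a4323 a3134 k0) (by decide +kernel)
def a4482 : PP 8 4 T 0x2001000000000000000000000200000000000000004000000000008000000000000 := rS 0x19205 (k2 a4065 a3732 (k1 a3136 k0)) (by decide +kernel)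
def a4483 : PP 8 4 T 0x2000000000000080000001010000000000060000000014000020000001100000000 := rS 0x51 (k2 a4323 a3169 k0) (by decide +kernel)
def a4484 : PP 8 4 T 0x1002200000000000080000001001000000000040000001004040020015001540000000 := rS 0x51 (k2 a4323 a3170 k0) (by decide +kernel)
def a4485 : PP 8 4 T 0x2001000000000000000000000020000000000000000000400000000000000000000 := rS 0x51 (k2 a4323 a3173 k0) (by decide +kernel)
def a4486 : PP 8 4 T 0x2202000000000000000000000020200000000040008000000000000000000000000 := rS 0x51 (k2 a4323 a3176 k0) (by decide +kernel)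
def a4487 : PP 8 4 T 0x2102000000000000000000000020200000000060000000004000000002008000001 := rS 0x51 (k2 a4323 a3181 k0) (by decide +kernel)
def a4488 : PP 8 4 T 0x2002000000000004000000000000000000100020000108421000510000400404008 := rS 0x51 (k2 a4323 a3191 k0) (by decide +kernel)
def a4489 : PP 8 4 T 0x802102000000000001000000000000000000040420040002000020000000000404000 := rS 0xa205 (k2 a4065 a4323 (k1 a3193 k0)) (by decide +kernel)
def a4490 : PP 8 4 T 0x102002000000000004000000000000200000000420000014000000410000000000008 := rS 0x51 (k2 a4323 a3196 k0) (by decide +kernel)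
def a4491 : PP 8 4 T 0x2202000000000004000000000000100000040020000004000000410000500000008 := rS 0x51 (k2 a4323 a3198 k0) (by decide +kernel)
def a4492 : PP 8 4 T 0x2202000002000000000001000000000000010020000004400000800000000000008 := rS 0x51 (k2 a4323 a3200 k0) (by decide +kernel)
def a4493 : PP 8 4 T 0x1002201000000000000000001000000010000000000001004420000000000000000000 := rS 0x51 (k2 a4323 a3201 k0) (by decide +kernel)
def a4494 : PP 8 4 T 0x2201000000000000000001000100010000000020000004420000010000000000008 := rS 0x51 (k2 a4323 a3202 k0) (by decide +kernel)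
def a4495 : PP 8 4 T 0x2200000000000000000001000000000000000820000004400000810000000000008 := rS 0x51 (k2 a4323 a3203 k0) (by decide +kernel)
def a4496 : PP 8 4 T 0x2001000000000000000000001000000000000020000000010000000000004000000 := rS 0x51 (k2 a4323 a3204 k0) (by decide +kernel)
def a4497 : PP 8 4 T 0x2201000000000000000001000010000000040020000004010000010000000000008 := rS 0x51 (k2 a4323 a3205 k0) (by decide +kernel)
def a4498 : PP 8 4 T 0x2201000000000000000001001000000000040020000004020000000000004000000 := rS 0x51 (k2 a4323 a3206 k0) (by decide +kernel)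
def a4499 : PP 8 4 T 0x1002201000000000000000001000000000000040000008004420020015000500000001 := rS 0x51 (k2 a4323 a3207 k0) (by decide +kernel)
def a4500 : PP 8 4 T 0x2202000000000000000001000000000000050000000004000000000000000000000 := rS 0x51 (k2 a4323 a3214 k0) (by decide +kernel)
def a4501 : PP 8 4 T 0x2000000000000000000004000000000000100000000000440000000008010000080 := rS 0x51 (k2 a4323 a3267 k0) (by decide +kernel)
def a4502 : PP 8 4 T 0x2001000000000000000000000000000000000080000000400080000000000000000 := rS 0x51 (k2 a4323 a3270 k0) (by decide +kernel)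
def a4503 : PP 8 4 T 0x20002100000000000000000000000000000000000000050008008000000014000002000 := rS 0xc9 (k2 a3732 a3303 k0) (by decide +kernel)
def a4504 : PP 8 4 T 0x2100000000000000000000000004000000002000050000010000000050001002000 := rS 0xc9 (k2 a3732 a3306 k0) (by decide +kernel)
def a4505 : PP 8 4 T 0x102200000001000000000000000000000000000000010000018000000082000000000 := rS 0x5 (k2 a4065 a3336 k0) (by decide +kernel)
def a4506 : PP 8 4 T 0x2000000000000004000000008001200000000000054000000000000000000000000 := rS 0xc9 (k2 a3732 a3356 k0) (by decide +kernel)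
def a4507 : PP 8 4 T 0x210000000000000004000000a000000000000000050000000008000000000000002 := rS 0xc9 (k2 a3732 a3362 k0) (by decide +kernel)
def a4508 : PP 8 4 T 0x11002000000000000000000004000000501040100000000100440000000000000000000 := rS 0x51 (k2 a4323 a3371 k0) (by decide +kernel)
def a4509 : PP 8 4 T 0x102000000000000004001011000041014010000000000005008080000501000000000 := rS 0xc9 (k2 a3732 a3375 k0) (by decide +kernel)
def a4510 : PP 8 4 T 0x800000000000002201000000000000000000000000000000000000000005440000000000000000000 := rS 0x51 (k2 a4323 a3418 k0) (by decide +kernel)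
def a4511 : PP 8 4 T 0x2000000000000000000004000000000000100000000000440082000040000000000 := rS 0x51 (k2 a4323 a3424 k0) (by decide +kernel)
def a4512 : PP 8 4 T 0x2000000000000000080005000040000000100000000020440000000040000000080 := rS 0x51 (k2 a4323 a3428 k0) (by decide +kernel)
def a4513 : PP 8 4 T 0x2100000000000000400001014000000000000060014015440000000000000000000 := rS 0xa2c9 (k2 a3732 a4323 (k1 a3455 k0)) (by decide +kernel)
def a4514 : PP 8 4 T 0x12102000000000000000008000000400040000020000115444000000000000000000 := rS 0x51 (k2 a4323 a3458 k0) (by decide +kernel)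
def a4515 : PP 8 4 T 0x2100000000000000000000000000000000000000040000004000000000808000000 := rS 0x5 (k2 a4065 a3459 k0) (by decide +kernel)
def a4516 : PP 8 4 T 0x802002000000000001000001000000000001010000000115400000000000000000000 := rS 0x51 (k2 a4323 a3469 k0) (by decide +kernel)
def a4517 : PP 8 4 T 0x2002100000000000080000000008000000000000000041000000000000000000005000 := rS 0xc9 (k2 a3732 a3472 k0) (by decide +kernel)
def a4518 : PP 8 4 T 0x10002100000000000000080000000000000000000000040000000000640000000000000 := rS 0x5 (k2 a4065 a3499 k0) (by decide +kernel)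
def a4519 : PP 8 4 T 0x2100000000000000000000000000000000002000450104004000000000000000000 := rS 0xc9 (k2 a3732 a3516 k0) (by decide +kernel)
def a4520 : PP 8 4 T 0x2101000000000040000000001000000000040000004020000080000002008000000 := rS 0x5 (k2 a4065 a3520 k0) (by decide +kernel)
def a4521 : PP 8 4 T 0x2101000000000000800004000040001000100000050124444000000045408000080 := rS 0xa2c9 (k2 a3732 a4323 (k1 a3524 k0)) (by decide +kernel)
def a4522 : PP 8 4 T 0x2101000000000040010000001100001000040000055124044080011401550000000 := rS 0x14a2c9 (k4 a3732 a4323 a4065 a3527 k0) (by decide +kernel)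
def a4523 : PP 8 4 T 0x2001000000000000001000000140014010000200000000400080015400012000000 := rS 0x51 (k2 a4323 a3531 k0) (by decide +kernel)
def a4524 : PP 8 4 T 0x4002000000000000001000000040000214001080040000015000000000000000000000 := rS 0x51 (k2 a4323 a3551 k0) (by decide +kernel)
def a4525 : PP 8 4 T 0x10002000000000000000000801014000101000014000000015440000000000000000000 := rS 0x51 (k2 a4323 a3557 k0) (by decide +kernel)
def a4526 : PP 8 4 T 0x2001000000000000400001004000000000000000000015400080000000000002100 := rS 0x51 (k2 a4323 a3573 k0) (by decide +kernel)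
def a4527 : PP 8 4 T 0x402001000000000001004000041000000005000000005000000020400001500800100 := rS 0x5 (k2 a4065 a3639 k0) (by decide +kernel)
def a4528 : PP 8 4 T 0x2000000000000000001000020010000000000000000004400020000001100000000 := rS 0x51 (k2 a4323 a3667 k0) (by decide +kernel)
def a4529 : PP 8 4 T 0x2201000000000002000001000000000000000000000104440000000000000000000 := rS 0x51 (k2 a4323 a3814 k0) (by decide +kernel)
def a4530 : PP 8 4 T 0x2201000000000000000001000000000008010000000105440000000000000000000 := rS 0x51 (k2 a4323 a3840 k0) (by decide +kernel)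
def a4531 : PP 8 4 T 0x2202000000000000000041000000000001800000000004000000000000000000000 := rS 0x51 (k2 a4323 a3920 k0) (by decide +kernel)
def a4532 : PP 8 4 T 0x802002000000000000000004000000000000000000000000000000000000000000000 := rS 0x51 (k2 a4323 a3933 k0) (by decide +kernel)
def a4533 : PP 8 4 T 0x2101000000000000000000004000000000080000000011000000000000000000000 := rS 0x51 (k2 a4323 a3944 k0) (by decide +kernel)
def a4534 : PP 8 4 T 0x222002000000000000000001000000000000010000000115040000000000000000000 := rS 0x51 (k2 a4323 a3988 k0) (by decide +kernel)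
def a4535 : PP 8 4 T 0x802000000000000000000004040000000000100000000000440000000000000000000 := rS 0x51 (k2 a4323 a4014 k0) (by decide +kernel)
def a4536 : PP 8 4 T 0x2001000000000000000000000000002000000000008100002000000000000000100 := rS 0xe84e82788fd5e998cc55364f1c8dd120240adc0e2f3994cc2710b06c32a9268b48242 (k8 a4339 i21 a4405 i30 i97 a2997 a4375 a437 (k8 a209 i37 i829 a4502 i1079 a492 a4402 a4475 (k8 i700 i190 a446 a401 i1350 a412 a51 a25 (k8 i1110 i540 a4249 a1818 a4396 i736 a419 i1156 k0)))) (by decide +kernel)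
def a4537 : PP 8 4 T 0x2101000000000000000000000000000000000000008004002000000000000000100 := rS 0x15e8342d3d8c9f1da456a922ea9462c51aa381e0d3230e22872c134ea4f388ac4a391bae466815b87cfa7f379dd82a3690bce6533085836198aa24044216a759e9554aaccecb (k8 a4354 a4346 i537 i97 a476 a4458 a4419 a4405 (k8 a4339 i700 i190 a51 a2997 a4375 a437 i37 (k8 i829 a4502 i1079 a120 a99 a44 a2777 a4408 (k8 a3171 a3997 a4428 a4402 a4475 i193 i1406 a446 (k8 a401 i2594 a416 a209 i1350 a2751 i30 a4355 (k8 a358 a373 a487 i869 i462 a290 i868 i1023 (k8 a277 i1003 a2241 a212 i2033 i1368 a4536 i1155 (k4 i1187 i2035 a59 i1602 (k2 a197 a3106 (k1 a4396 k0)))))))))) (by decide +kernel)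
def a4538 : PP 8 4 T 0x2101000000000000000000000000000000000000008000002000000000000000100 := rS 0xe518a946a0c32ab41e564a9d49eab5c8cccecb039c5524d20b0546d2179cca6610b06c331544808842d (k8 a4405 a4339 i700 i190 a51 a2997 a4375 a437 (k8 i37 i829 a4502 i1079 a120 a99 a44 i21 (k8 i30 i97 a209 a492 a4354 a4346 i193 i1406 (k8 i537 i1350 a2751 a476 a4537 a3001 i1582 i1579 (k4 i441 a4378 a4246 i1002 (k2 a392 a4125 k0)))))) (by decide +kernel)
def a4539 : PP 8 4 T 0x2001000000000000000000000000000000000000008008002000000000000000100 := rS 0x7c8314bc04f121da44bb1947b3e2ce50621cf6755080472371999c041f1ea056e2b538740e2f3994cc24d169049e71549946b04210583619 (k8 a2997 a4375 a437 a4339 a4538 a3155 a63 i97 (k8 a209 i1350 i21 a4405 i30 i37 i829 a4502 (k8 i1079 a492 a4343 a1825 a416 a4402 a4475 a4511 (k8 a4428 i700 a4346 i193 a446 a401 i959 i822 (k8 a2751 a418 a387 i441 a392 a764 a3326 a432 (k8 a3410 a172 a4536 i1155 a2736 a135 a419 a54 (k2 a68 i2031 (k1 a6 k0)))))))) (by decide +kernel)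
def a4540 : PP 8 4 T 0x2000000000000000000002000000000000000000000004000000000001010002000 := rS 0x46e5 (k2 a392 i1569 (k1 a1788 k0)) (by decide +kernel)
def a4541 : PP 8 4 T 0x2001000000000000000000000000000000000000008000002000000000000000100 := rS 0x8dcaa406ad0ae5523ab41e598228d821d6901c5e7f3e87ce715169bc9a53309dc9e710b06c32a92089556674480884cb (k8 a4354 a4339 i700 i190 a4346 i537 i2594 i21 (k8 i97 a2997 a4375 a437 a209 i1350 a2777 i37 (k8 i829 i30 a4408 a4405 a51 a4502 a4428 a3997 (k8 a3171 i1079 a492 a120 a4343 a44 a99 a4538 (k8 a2 a17 a445 a451 a72 a4539 a4397 a4540 (k4 a1834 a382 i248 a1788 k0)))))) (by decide +kernel)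
def a4542 : PP 8 4 T 0x4002000000000000000000000000000000000000000040000000080020000000800000 := rS 0x20a65 (k2 i2700 a3155 (k1 a4379 k0)) (by decide +kernel)
def a4543 : PP 8 4 T 0x2000000000000000000000040008400800410000000100440000000000000000000 := rS 0x5ba0520cc (k4 i1188 i1187 i1975 i855 (k1 a4396 k0)) (by decide +kernel)
def a4544 : PP 8 4 T 0x2100000000000000000000000000000000000000008004002000000000000000100 := rS 0x538a58c9f418ecfa720e0b94742499750e642c33d3b154d8b49a533093c56375ca255ead4ab0c72a510896227154b058ae41a85836191999c62022145d1cfc (k8 a4541 a2898 a432 a4339 i700 i2676 a4346 i193 (k8 a2997 a4375 a437 a4542 a429 a40 a408 i97 (k8 a209 a28 i2594 i726 a2083 a401 a1105 a521 (k8 a420 a427 i190 i1406 a446 a416 i1350 i37 (k8 i829 i30 a4405 a412 a51 a4419 a4458 a4353 (k8 a4379 i932 a212 i1549 a447 a395 a2282 a495 (k8 i1079 i1233 a4460 a255 a4543 i2035 i259 i336 (k1 a4362 k0)))))))) (by decide +kernel)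
def a4545 : PP 8 4 T 0x2000000000000000000000000000000000000000008004002000000000000000100 := rS 0x2d4fa720e0b9a64782455522d26aad12cb3f83d82e41a85836191999c62022145d1cfc (k8 a4541 a2898 a432 a4339 i700 i2676 a4346 i193 (k8 a2997 a4375 a437 a4542 a429 a408 a4456 a930 (k8 a4354 i190 i537 i30 a4405 i97 a51 a4544 (k8 a451 a4206 a120 a495 i1079 i1233 a259 a4500 k0)))) (by decide +kernel)
def a4546 : PP 8 4 T 0x2000000000000000000000000000000000000000008000002000000000000000100 := rS 0x34ace41a8c62e8e7e05836191999c0442 (k8 a4339 i700 a4346 i193 a2997 a4375 a437 a4541 (k8 a2898 a432 i2676 a4542 a429 a4545 a392 i441 k0)) (by decide +kernel)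
def a4547 : PP 8 4 T 0x10002000000000000000000000000000000000400000008008002000000000000000000 := rS 0xa07f1213bc1223b4c2b8f6a1168ac7237538f43a815b87e18fd0413ce2a9299850e8f8b0306a2100904ca751999cba160d8640442 (k8 a4339 i700 a2997 a4375 a437 a172 a4346 i193 (k8 a2751 i1579 i21 i959 a2991 i1117 i441 a764 (k8 a432 a387 i37 i829 i97 a209 i1350 a4546 (k8 a369 a4371 a81 a4402 a4475 i1261 a122 a434 (k8 a446 a401 a416 a4405 i822 a418 a4396 i540 (k8 i2766 i1111 a419 a135 a2736 a6 i2031 a54 k0)))))) (by decide +kernel)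
def a4548 : PP 8 4 T 0x10002000000000000000000000000000000000000000008008002000000000000000000 := rS 0x4825e274541455367b3c9c42c1b0caa4e6fd0414cc242 (k8 a4339 i37 i829 a4546 a369 a4502 i97 a2997 (k8 a4375 a437 a209 a353 a418 a412 a51 a4547 (k4 a48 a68 i1375 a406 (k1 a1895 k0)))) (by decide +kernel)
def a4549 : PP 8 4 T 0x2000000000000000000000000000000000000000008008002000000000000000000 := rS 0x20b1867b946a6b0619442750b06c32371999c0442 (k8 a4339 i700 a4346 i193 a446 a2997 a4375 a437 (k8 a2751 a2991 i1579 i441 i2253 i1117 a392 a3326 (k2 a4548 a3410 (k1 a4448 k0)))) (by decide +kernel)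
def a4550 : PP 8 4 T 0x2001000000000000001000004000000000000000000004440010000001010002040 := rS 0xb52aab59659 (k4 i462 i465 i1493 i1490 (k2 a4540 a4420 k0)) (by decide +kernel)
def a4551 : PP 8 4 T 0x20002100000001000000000000000000000000000000008000002000010000000000000 := rS 0x17052835232928b52caee9e8f49b1a2cc36283cea391bae466a340adcfa7f399be2a7718834ae1d6081dfa0855894824f3885836195494cc202212759e671da7d5e8b (k8 a52 i539 a33 a345 a4346 a4458 a4419 a4339 (k8 i700 i37 i829 i97 a2997 a4375 a437 a209 (k8 i1350 i21 i2594 i537 a4546 a369 i3 i2866 (k8 i1261 a4549 a4550 i1003 a2777 a51 a4408 a4502 (k8 a3171 a3997 a4402 a4475 i201 i193 i1406 a446 (k8 a401 a2751 a4456 a277 a276 a429 i2035 a19 (k8 a432 a59 i1679 i868 a1692 i2044 a476 i1387 (k4 a2892 i2135 a4396 i444 k0)))))))) (by decide +kernel)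
def a4552 : PP 8 4 T 0x2000000000000000000000000000000000000000040000000080020000000800000 := rS 0x117 (k2 a348 a4542 k0) (by decide +kernel)
def a4553 : PP 8 4 T 0x400000000000004002100000000000004001005040151000001150500000005440000015041150800008 := rS 0x20cba87471622222 (k8 i2030 a9 a362 a466 a358 a212 a197 a4396 k0) (by decide +kernel)
def a4554 : PP 8 4 T 0x2101000000000000400002004000000000000000000000040000000000000000000 := rS 0x15b43 (k2 a84 i1287 (k1 a439 k0)) (by decide +kernel)
def a4555 : PP 8 4 T 0x20002100000000000000000000000000000000000000008000002000000000000000000 := rS 0x47a4e2cb54a9559685a78854aaf63391169f1d9d5422d158e46eb919a8d02b73e9fce66f8a9dc3f0c188093acf62b0c1e350695c3ac103bf410ab338948242279c42c1b0caa4a661 (k8 i37 i829 i97 a2997 a4375 a437 a209 i1350 (k8 a4339 i21 i2594 a4346 i537 a4546 a369 i3 (k8 i2866 i1261 a4549 a4550 a4552 a4456 a276 a277 (k8 a4458 a4419 i700 i1003 a4371 a81 a2777 a51 (k8 a4408 a4502 a3171 a3997 a4402 a4475 i201 i193 (k8 i1406 a446 a401 a416 a4405 i822 a2751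 a345 (k8 a33 a52 a4551 i2035 i539 a382 a46 a59 (k8 i1602 i1387 i703 a476 a4554 a4553 a19 a432 (k1 i2044 k0))))))))) (by decide +kernel)
def a4556 : PP 8 4 T 0x10002000000000000000000000000000100000000000008000002000000000000000000 := rS 0x97a2a095f154d93ce2a940addfa0829984ba160d8640442 (k8 a4339 i700 a2997 a4375 a437 a172 i37 i829 (k8 a4546 a369 a4402 a4475 i97 a209 i1350 a412 (k4 a51 i540 a4396 a48 (k2 i1375 a422 k0)))) (by decide +kernel)
def a4557 : PP 8 4 T 0x2100000000000000000000000000000000000000008000002000000000000000000 := rS 0x3295cbb4a4493c911da6232c362b3d3a9b3d9e47237199cd02b718834ae1d6081dfa0855894824f38aa4a6610103c6a67210583619 (k8 a2997 a4375 a437 a4339 a4346 a4552 a4456 i700 (k8 i37 i829 i97 a209 i1350 i21 i2594 i537 (k8 a4546 a369 i3 i2866 i1261 a4549 a4550 i1003 (k8 a4402 a4475 a4502 i193 a446 a401 a353 a418 (k8 a412 a4419 a4458 a277 a276 a4555 a4556 i2766 (k8 i1110 a262 a406 i1112 i1686 a4535 a476 i626 k0)))))) (by decide +kernel)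
def a4558 : PP 8 4 T 0x2000000000000000000000080000000000000000008000002000000000000000000 := rS 0x20a24cc2ea1d23195ea61147b3c808e64288ad0aa4f38858361954aacce5330965fa086595d5b04 (k8 a4557 a445 a4549 a385 a4546 a369 a2 i37 (k8 i829 a4346 i537 i97 a2997 a4375 a437 a209 (k8 i1350 a72 a4420 a444 a4339 a4502 i700 a353 (k8 a418 i539 i540 i1987 a52 i1110 i934 a172 (k4 a2084 a406 a771 a68 k0))))) (by decide +kernel)
def a4559 : PP 8 4 T 0x10002000000000000000000000000000000000000000008000002000000000000000000 := rS 0x48260f6793990a26af279c42c1b0caa56e817e820a661 (k8 i37 i829 a4546 a369 a4475 a4402 i97 a2997 (k8 a4375 a437 a209 i1350 a4558 a4535 a4339 a4502 (k4 a353 a418 a4556 a406 (k1 i1110 k0)))) (by decide +kernel)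
def a4560 : PP 8 4 T 0x2000000000000000000000000000000000000000008000002000000000000000000 := rS 0x2952b1747275169f48c6226af49c456943109555acb2cc106a310695d6e8151875822f03bf410335caacce2501104844f3b9d4e2162986c327b26aa4c22d (k8 a4405 i37 i97 i30 a418 a2997 a4375 i829 (k8 a437 a209 a2751 a2777 i1350 a4339 i21 i700 (k8 i2594 a4346 i537 i1406 i193 a4546 a369 i3 (k8 i199 i2866 i1261 i201 a4475 a4402 a4549 a4550 (k8 i1003 a4552 a4557 a2 a385 a445 a72 a957 (k8 a4510 a4420 a444 i1368 a4558 a4535 a4559 a25 (k8 a33 a52 a347 a2262 a4412 a521 a2083 a758 k0))))))) (by decide +kernel)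
def a4561 : PP 8 4 T 0x2001000000000000000000000000000000000000008000800000000000000000000 := rS 0xca1448603642209c8e30d8aaa4c26f0b930924b (k8 a4391 a4560 a440 a4369 a4408 i37 i97 a51 (k8 a375 i798 i536 i2580 a3000 i2579 a437 i231 (k2 i311 a2522 (k1 i454 k0)))) (by decide +kernel)
def a4562 : PP 8 4 T 0x4002001000000000000400001054000000000800000408011000000000000000000000 := rS 0x85a7af977424aa4d7a663a4450e568a930964f24ae4fa53 (k8 a4561 a4429 i1405 a4560 i1351 a4391 a440 a51 (k8 a4420 a387 a58 i530 i529 i1416 i1589 i1673 (k4 a447 a86 a391 a60 (k2 i1607 a197 k0)))) (by decide +kernel)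
def a4563 : PP 8 4 T 0x2201000000000000000000008000000000000000008008000000000000000000000 := rS 0x64684072890e911261249666198080247 (k8 a451 i2260 a4385 i192 i537 a4391 a4560 a440 (k8 a58 i530 a3079 a409 a570 a728 i181 i1061 k0)) (by decide +kernel)
def a4564 : PP 8 4 T 0x4002201000000000000000000000000000040000000008000000000000000000000000 := rS 0x444ea872b9dd286655208fe7d5ba04a64f2eabd96ad2a9ad6a8f2c930924b (k8 a4391 a4560 a440 a2 i874 a822 a464 a72 (k8 a445 a385 i539 i531 i1351 a4561 a4475 a4402 (k8 a4429 a4430 a4366 a4562 i537 i538 i1675 a4563 (k4 a4530 i1587 a3812 a466 k0)))) (by decide +kernel)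
def a4565 : PP 8 4 T 0x2000000000000000000000000000010000080040008000000000000000000000000 := rS 0x38c362a6f (k4 a4408 a51 a35 i800 (k1 a389 k0)) (by decide +kernel)
def a4566 : PP 8 4 T 0x4002202000000000000000000000000000000000000088004000000000000000000000 := rS 0x1de227f3aa54deb547965567329930924b (k8 a4391 a4560 a440 a421 i836 a97 a2 i874 (k8 a822 a4408 i1673 i1587 a4565 a4421 a3162 a466 k0)) (by decide +kernel)
def a4567 : PP 8 4 T 0x20002002000000000000000000000000000000400000008000000000000000000000000 := rS 0x102b7382a4de7b4b975167329930924b (k8 a4391 a4560 a440 a421 i836 a52 i531 a71 (k4 a390 a4408 i97 a4363 (k2 i801 i1362 (k1 a4366 k0)))) (by decide +kernel)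
def a4568 : PP 8 4 T 0x20002200000000000000000000000000000000000000008004000000000000000000000 := rS 0x176856719d6a8f2c930924b5cb2d04fc8ba753e8b (k8 a52 a33 a347 a4412 a4564 a4567 a385 i1405 (k8 a4391 a4560 a440 a2 i874 a822 a4566 a3410 (k2 i1871 i1951 (k1 a4531 k0)))) (by decide +kernel)
def a4569 : PP 8 4 T 0x20002200000000000000000000000000000000000020008000000000000000001000000 := rS 0x46350d05c76392e83ca681679d19a827e45d3a9f45ad404012b130924b (k8 a4391 a4560 a440 a4568 i2258 a4385 a822 a52 (k8 a33 a347 a4412 a4564 a4567 i894 i530 i1068 (k8 i62 a421 a17 i531 a42 a345 a4369 a437 (k2 i1061 i2062 (k1 a4488 k0))))) (by decide +kernel)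
def a4570 : PP 8 4 T 0x2200000000000000000000000000000000000200080008000010004000000000000 := rS 0xd04a42 (k4 a3000 a570 a3042 i1062 k0) (by decide +kernel)
def a4571 : PP 8 4 T 0x20002200000000000000000000000000000000000000008000000000000000000000000 := rS 0x349c82f388d4341920224660200998e85655825f917239941ecb8a8b4984925a7d169d (k8 a347 a52 a33 a4391 a4560 a440 a4405 a51 (k8 a385 a17 a63 a451 a4412 a4564 a369 a97 (k8 a4568 i530 i529 i2258 a4385 i192 i190 a4570 (k8 i181 i787 i1061 a4569 i318 a4162 a120 a4206 k0)))) (by decide +kernel)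
def a4572 : PP 8 4 T 0x24402000000000000000000000000000000000000200410008000400001000001400008 := rS 0x2a663c59cc51283586e41489c6a1a1d9ed3e394e83c6e33 (k8 i192 a446 a3001 a347 a42 a33 a390 a345 (k8 a437 i1061 i785 i274 a4162 a1105 a392 a409 (k4 a40 a3080 a198 i1068 (k2 a127 i888 k0)))) (by decide +kernel)
def a4573 : PP 8 4 T 0x20402000000000000000000000000000000000000000008008000000000000000000000 := rS 0x1a09484410c0cc044718c5cd601331d0ca590b930924b (k8 a4391 a4560 a440 a4369 i119 i1580 i530 i529 (k8 i2258 i2353 a350 a4387 i2961 a4385 i192 a4572 (k4 i181 a3000 i858 a3042 (k1 i1062 k0)))) (by decide +kernel)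
def a4574 : PP 8 4 T 0x20002001000000000002000000004000000000000000008000000000000000000000000 := rS 0x16a8265add025327974984925abd1705 (k8 a4571 a52 i539 a4391 a4560 a440 i531 i1351 (k4 a4561 a4475 a4402 a4404 (k2 a4366 a4554 (k1 i894 k0)))) (by decide +kernel)
def a4575 : PP 8 4 T 0x20402000000000000000000000000000000000000200008000000000000000002000000 := rS 0xd31f071128204bf1994f429e5e229630998a310683c6e3512808842b0090552614885c98491d9ec729d57a2cee8f88a1d3eab678cccec32c414ae4b (k8 a4391 a4573 a4571 a1851 a487 i1587 a4457 a4458 (k8 i537 a33 i1707 a453 i124 i79 a52 i539 (k8 a347 a42 a390 a345 a4560 a440 a4369 a110 (k8 i37 i97 i181 i1037 i387 a3000 a4385 a4356 (k8 a560 a446 a303 i462 i1003 a277 a2856 i2035 (k8 i13 a76 i1767 i1771 a59 a436 a4574 a369 (k4 a4567 i190 a1898 i736 (k2 a341 a693 k0)))))))) (by decide +kernel)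
def a4576 : PP 8 4 T 0x400000000000002000000000000000001010000110014000000000008020000000014000008000108 := rS 0xc546e523091124000c545a2f (k8 i317 a4405 a51 i23 i188 i190 i866 i867 (k4 a4188 i324 i1532 a4125 k0)) (by decide +kernel)
def a4577 : PP 8 4 T 0x400000000000020402002000000000000000000000000000001000200008000000000000000000000000 := rS 0xe41828da62b44108820001b0686a54aa858ab45f33076394ec45726f43a7d9e3333b0cb1052b8d43a2d13868321726124967b04a4cfa82 (k8 a4567 i1442 i1589 a369 a390 a4391 a4560 a440 (k8 a4369 a4575 a437 i785 a4405 i782 i1061 a4573 (k8 a4571 a1851 a487 i1587 a4457 a4458 a33 i1707 (k8 a4408 i1065 a453 a347 a42 a345 a436 a548 (k8 a197 i1791 i2607 i1725 i1452 a84 i1247 a4576 (k8 a4385 i788 i445 i448 a818 a3515 i281 a2856 (k2 a393 a459 k0))))))) (by decide +kernel)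
def a4578 : PP 8 4 T 0x2100000000000001044000000000000005000000060000020000000014500000004 := rS 0x9456c5210348200 (k8 a4385 i788 i1492 i445 a4100 a818 i859 i2032 k0) (by decide +kernel)
def a4579 : PP 8 4 T 0x20402002000000000000000000000000000001000200008000000000000000000000000 := rS 0x18b148c401b804046435b1d9b4e1da750e9f678cd86581a8844e7b148e4461a0c85c98498299cae4b (k8 a4391 a4573 i1587 a4571 a4560 a440 a4369 a4575 (k8 a437 a4515 a42 i274 a390 i785 i1500 i1061 (k8 a1851 a487 a4457 a4458 a33 i1707 a347 a345 (k8 a4577 a36 a59 a394 a4448 a4578 i23 a446 (k4 i188 i867 a366 i1532 (k1 i2035 k0)))))) (by decide +kernel)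
def a4580 : PP 8 4 T 0x20002000000000000004040000000000000000000000000020000000014000008000008 := rS 0xc58a46200dc023b4f8e53ac3 (k8 a487 a347 a42 a33 a345 i23 a446 i188 (k4 i867 a366 i1532 i2035 k0)) (by decide +kernel)
def a4581 : PP 8 4 T 0x20102100000000000000000000000000000002000000040020020000010000508000000 := rS 0x4a302103400033231cd6172ea2d9e33 (k8 a4457 a4458 a52 i531 a4369 i1868 i1601 a4448 (k4 a4580 a4385 i1492 i445 (k2 i962 i859 (k1 a1332 k0)))) (by decide +kernel)
def a4582 : PP 8 4 T 0x20402000000000000000000000000000000000000200008000000000000000000000000 := rS 0x3200cd6c7a7335fa85118a44e211a86832c319b3d56872c19e221726124967b4f8e60a57 (k8 a4573 a4571 a42 a33 a390 a4391 a4560 a440 (k8 a4369 a453 i1587 a1851 i1707 i537 a4458 a4457 (k8 a487 a4575 a437 i1061 i1500 i785 i274 a4515 (k8 a4581 a4579 a4574 a436 a59 a394 a4580 a4448 (k1 a4578 k0))))) (by decide +kernel)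
def a4583 : PP 8 4 T 0x402100000000000000010000000005000040000000000020000090500004000400002 := rS 0x359941847120c066cf1099d87114383c6a2b (k8 a818 a4376 a4409 a358 a373 a487 i2262 i724 (k8 a4458 a4457 a2856 a1332 i204 i859 i963 i468 (k1 a4454 k0))) (by decide +kernel)
def a4584 : PP 8 4 T 0x20402000000000000000000000000000000000000000008000000000000000000000004 := rS 0x2ee9e6a43b297b105a9668a825ba04fac5861fde037298fd4ead508a44e1f0e955a67315aac0c8817868844100455522d3793c2e3b3da7c729d2e930924b57a2e0a57 (k8 a4573 a4571 a52 i539 a4391 a4560 a440 i531 (k8 a347 a42 a33 a390 a345 a4369 i1351 a4408 (k8 a4405 i97 a51 a4385 i788 i445 i446 i1077 (k8 i448 i447 i2260 a818 i2579 a3515 i2534 i782 (k8 i271 i785 i274 a3580 i2861 i282 a458 i454 (k8 a1577 a127 a897 a377 a49 a340 a4 a118 (k8 a1334 a48 a4583 a1692 a362 i1415 a4397 a3949 (k4 a3812 a394 i1946 a1579 k0)))))))) (by decide +kernel)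
def a4585 : PP 8 4 T 0x202000000000000000001001000100000020040000000000000000004000550000008 := rS 0x51a844a7d (k4 a73 a423 i2064 i280 (k1 i2030 k0)) (by decide +kernel)
def a4586 : PP 8 4 T 0x400000000000000202000001000000000080051004004000000800000008014000000004000408000008 := rS 0x768b15127434aab544be7e299403f17225a6a560b2cfebd1ed162a4f0e8b43e6f1094ce64026124967d (k8 a73 a4391 a4560 a440 i188 i2580 i536 i2544 (k8 a4408 i271 a4405 i782 i1351 a51 a48 i1255 (k8 i1415 i926 a2892 i1694 i415 a4042 a4585 a120 (k8 i2234 i317 a442 a4485 i337 i336 a420 i1725 (k4 a395 i1633 a4397 a447 (k2 i791 a332 k0)))))) (by decide +kernel)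
def a4587 : PP 8 4 T 0x20002000000000000000000000000000000000400000008000400000000000000000000 := rS 0x5ba05fa5d45930924b (k8 a4391 a4560 a440 a52 i531 a4567 a4475 a4402 (k1 a4366 k0)) (by decide +kernel)
def a4588 : PP 8 4 T 0x400000000000000202000000000000000080051004004000000800000008014000000004000408000008 := rS 0xf1 (k2 a27 a4586 k0) (by decide +kernel)
def a4589 : PP 8 4 T 0x400000000000020402000001000000004050000000000000000000000000000000000054001008000000 := rS 0xc2150ed3e9d139ec5239 (k8 a42 i274 a390 i785 a347 a33 a345 a127 (k2 a2741 i371 k0)) (by decide +kernel)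
def a4590 : PP 8 4 T 0x20602000000000000000000000000000000000000000808010000000000000008000000 := rS 0x1863106845e0c7128ed3e394e8dd6a4f2b88cea82299cc804c2492e9eab5dabd8ab9678cc6a674583c0505 (k8 a4571 a4584 i2206 a52 i547 a4378 a4457 a4458 (k8 i1406 i1790 i539 i1946 i2361 a394 a4391 a4560 (k8 a440 i188 i2580 i536 a4587 a4582 i273 a4573 (k8 i1351 a1692 a446 a347 a42 a33 a345 a423 (k4 a4588 a4589 a441 i467 (k2 i1003 a276 (k1 i2035 k0))))))) (by decide +kernel)
def a4591 : PP 8 4 T 0x2101000000000000401001004100000000050000000000400000000001550000000 := rS 0x146a1 (k2 a4485 a3275 (k1 i2030 k0)) (by decide +kernel)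
def a4592 : PP 8 4 T 0x20402000000000000000000000000000000000000000808010000000000000008000000 := rS 0x14ea051d0926ad7e3058ce461a9462958b894ec5432445967f1a8cd9eb933b1576aba7c54769f1ca755e8b1bb356a4f0e8b43e6f119d41e213ea08a67320008984925a14af05 (k8 a4571 a4573 a1949 a4391 a4560 a440 a4584 i188 (k8 i2580 i536 a4587 i1442 i2544 i2206 a4582 i273 (k8 a4408 i271 a4405 i782 i1351 a1692 a2010 a446 (k8 a52 i539 a347 a42 a33 a345 a51 a394 (k8 i2361 i1946 i1790 i547 i1406 a4458 a4457 a4378 (k8 i926 a2892 a4590 a4431 a362 i791 i2549 a332 (k8 i1675 i1507 a1609 a1038 a107 i2035 a408 a4591 (k4 a420 i1549 a447 a395 (k2 a3610 i336 (k1 i920 k0)))))))))) (by decide +kernel)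
def a4593 : PP 8 4 T 0x800000000000002000000000000000081001000100000000810000000000000000000001550000000 := rS 0x29d40a3 (k4 a395 a3610 i336 i920 k0) (by decide +kernel)
def a4594 : PP 8 4 T 0x400000000000102000000000000000080001000020000000810000000000000000000000000000000 := rS 0xbb3f0fe1ab7 (k4 i151 a413 i403 a403 (k2 i1680 i926 k0)) (by decide +kernel)
def a4595 : PP 8 4 T 0x20502000000000000000000000000000000000000000008010000000000000008000000 := rS 0xd2511f97e9449ab5434360b19c8c352b1463171a8cd9e253b190ce545cc54769f1ca746ecd0e8b43e6f119d41e21a2af56a4f3ea08a67320008984925a14af05 (k8 a4571 a4573 a1949 a4391 a4560 a440 a4584 i188 (k8 i2580 i536 a4587 i1442 i1351 a1692 i1415 a48 (k8 i2544 i2206 a4582 i273 a4408 i271 a4405 i782 (k8 a2010 a446 a347 a42 a33 a345 a51 a4187 (k8 a362 i1620 i792 i791 i2549 a4458 a4457 a4378 (k8 a332 i1507 a3128 a1609 a1038 a107 i2035 a408 (k8 a4593 a4594 a4528 i1549 a447 i1725 i1675 a3078 (k2 a897 a99 k0)))))))) (by decide +kernel)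
def a4596 : PP 8 4 T 0x2000000000000000080000000010000000880000000000000000000000048000000 := rS 0x289a4ba (k4 i926 a897 i1679 a99 k0) (by decide +kernel)
def a4597 : PP 8 4 T 0x202000000000000000001001000110000000040000008000000000004400550000008 := rS 0x8969c545a25 (k4 a423 a4405 a51 a2218 (k2 a4585 a120 k0)) (by decide +kernel)
def a4598 : PP 8 4 T 0x20202000000000000000001001000110000000000000008000000000004000408000008 := rS 0x62b0d9e3163a1974943b1fa2a3b4f8e53a370e8b43e6f10af50453399009849258d44a2f (k8 i317 a423 i356 a4391 a4560 a440 i188 i2580 (k8 i536 a4587 i1415 i2544 a4408 i271 a4405 i782 (k8 a446 a347 a42 a33 a345 a51 a4597 a3171 (k8 a4565 i926 i925 a4596 i1507 i1105 i1945 i1523 (k1 i2035 k0))))) (by decide +kernel)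
def a4599 : PP 8 4 T 0x2000000000000001000001000000000001800040408114000000008000000000008 := rS 0x32cfeab43254aa6623194984b27924a67d (k8 i1442 i536 a4560 i1351 a4391 a440 a4414 i192 (k8 i193 i792 i3001 a460 i538 a4565 a3949 a4431 k0)) (by decide +kernel)
def a4600 : PP 8 4 T 0x20202000000000000000000001000110000000040000008000000000004000408000008 := rS 0x1100969b022a2d0f9bc424026124962f (k8 i317 a4391 a4560 a440 i188 i2544 a4408 i271 (k4 a4405 a51 a4598 a4042 (k2 i2866 a120 (k1 i190 k0)))) (by decide +kernel)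
def a4601 : PP 8 4 T 0x400000000020202001000000000000000010010000014000840000408014000000000000000000000 := rS 0x1550e776545957152ea2c984b5a93c9305 (k8 a4571 a4560 i1351 a1692 a4391 a440 a52 i531 (k8 a51 i538 a447 a439 a332 a3949 i791 a3812 k0)) (by decide +kernel)
def a4602 : PP 8 4 T 0x1400000000020002000000000000001000100000000020001040000400014020000000000000000000 := rS 0xbba7a18aa775fa7cba8b (k8 a52 i531 a33 i1725 i1675 i791 a460 a20 (k2 i1683 a404 k0)) (by decide +kernel)
def a4603 : PP 8 4 T 0x20402000000000000000000000000010000000040000008010000000000000008000000 := rS 0x34d120604bf12ab949ab686e551b0549150e8b43e6f119d41e21a2af46a25880ccd682299cc80b527a159b050115cba8b26124962f (k8 i317 a4391 a4560 a440 a52 i531 a4573 a4584 (k8 a4571 a2010 a1949 i1351 a1692 i188 i2580 i536 (k8 a4587 a4592 a4599 a4595 a423 i356 i1415 a48 (k8 i2544 i2206 a4582 i273 a4408 i271 a4405 i782 (k8 a51 a4600 i114 i115 a382 a129 i1286 i1365 (k8 a1710 a4602 a4601 a369 a4450 i190 a402 a120 k0)))))) (by decide +kernel)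
def a4604 : PP 8 4 T 0x20402000000000000000000000000010000000000000008010000000000000008000000 := rS 0xc362b3c631763a1928763f454769f1ca746e1f378857a3512c40666b4114ce6405a93d0acd82808ae5d45930924b (k8 a4391 a4560 a440 a52 i531 a4573 a4584 a4571 (k8 a2010 a1949 i1351 a1692 i188 i2580 i536 a4587 (k8 a4592 a4599 a4595 a423 i356 i1415 i2544 a4408 (k8 i271 a446 a347 a42 a33 a345 a51 a4603 (k8 a3171 a4565 i925 a4596 a332 i1507 i1105 i1523 (k2 a3115 i2035 k0)))))) (by decide +kernel)
def a4605 : PP 8 4 T 0x20002000000000000000004000000800000000080040008000000000054000100000000 := rS 0x31462bf43250ed15378ed3e394eadd0453 (k8 i536 a4587 i151 a347 a42 a33 a345 a4408 (k8 a51 a3171 a4565 i925 i1724 i1507 i1523 a3442 k0)) (by decide +kernel)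
def a4606 : PP 8 4 T 0x1000000000020002000000000000001000100000000020001040000400014020000000000000000000 := rS 0x143 (k2 a121 a4602 k0) (by decide +kernel)
def a4607 : PP 8 4 T 0x20402000000000000000000000000000000008000000008010000000000000008000000 := rS 0x338c8c765aee9e3b4f8e53a233aaade2b9170b62ac5609fd862a199ad6a4f66975163512c406e0f3ea14af0510bf14ca04114ce64001130924b (k8 a4391 a4560 a440 a4584 i188 i2580 i536 a4587 (k8 a4604 i920 a4485 i2544 a4571 a4573 a1949 i1442 (k8 i2206 a446 a4595 a423 i356 a52 i531 a2010 (k8 i1351 a1692 a4592 a4599 i919 i371 a4605 a4440 (k8 i1919 a51 a4405 a3580 i1137 a61 a97 a4582 (k8 i273 a347 a42 a33 a345 a20 i1683 a3949 (k4 a4588 a4431 a2741 a454 k0))))))) (by decide +kernel)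
def a4608 : PP 8 4 T 0x20402000000000000000000000000000000000000000008010000000000000008000000 := rS 0x284c68ba4d9e763219ca88718a558ac13fae586ad528b94c2a7e280663512c40d67d5ed150453109cc1e401187c3b15169bc769f1ca74ba8b2612cea37013350ab5279260a57 (k8 a4573 a4571 a4560 i1351 a1692 a1949 a2010 a4584 (k8 a446 a4582 a4391 a440 a52 i531 a347 a42 (k8 a33 a345 a4408 a4405 a51 i782 i271 i273 (k8 i188 i2206 i2580 i2544 i536 a4587 a48 i1415 (k8 i1442 a4592 a4595 a423 i356 a4599 a4604 a4485 (k8 i919 i920 a3580 i363 a420 i371 i1137 a4605 (k8 a4440 i1919 a4606 i1081 a4607 a3812 i1620 i792 (k4 i791 a4458 i1549 a332 (k2 i2035 a447 (k1 a4593 k0)))))))))) (by decide +kernel)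
def a4609 : PP 8 4 T 0x20402000000000000000080000000000000004840000008010000000000000000000000 := rS 0x112d30f9e6203e0e29582211489a9ef154985227b57a2c6e0266a15426f129d57ab527c14ae3d15860361726124963b (k8 a345 a4391 a4560 a440 a4369 a4608 a437 i387 (k8 i1256 a4573 a4571 i1351 a1692 i1415 a4582 i349 (k8 a4408 i311 a1949 a2010 a4584 a446 a52 i539 (k8 a390 a110 i37 i97 a27 a59 a275 i259 (k8 i1689 i1694 i415 a1898 a2105 a436 i1767 i1436 (k2 a2218 i1343 (k1 a693 k0))))))) (by decide +kernel)
def a4610 : PP 8 4 T 0x402100000000000008000000000000000044000000000014020000000000000000000 := rS 0x6b2ac40cc65a79759a85 (k8 a1949 a2010 i531 a3 a454 a4458 a436 i792 (k2 i547 a3812 k0)) (by decide +kernel)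
def a4611 : PP 8 4 T 0x20402000000000000000004000000000000004840000008010000000014000000000000 := rS 0x553591d88cf638ed3e394e9751637013350a57828c430173a83c84410d930924b (k8 a4391 a4560 a440 a4608 i787 a3000 i595 a4582 (k8 a4369 a437 i1041 a4571 a4573 a1949 a2010 a4584 (k8 a446 a52 i531 a347 a42 a33 a345 a4609 (k4 a4610 i2035 a366 i1790 (k2 i704 a460 k0))))) (by decide +kernel)
def a4612 : PP 8 4 T 0x2100000000000000480000004000000000840000000015040000000040000000000 := rS 0x3a2903bf446ac882d4a67d42bc5823d (k8 i1256 i1694 a27 a1949 i1442 a334 a1692 a362 (k4 a4397 a9 a420 i1225 (k2 i258 a4343 (k1 a1898 k0)))) (by decide +kernel)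
def a4613 : PP 8 4 T 0x2000000000000000000000000000000000000000000002020000014000004000000 := rS 0xe4101d88441 (k4 i787 a3000 i791 i703 (k2 a877 a46 k0)) (by decide +kernel)
def a4614 : PP 8 4 T 0x20402000000000000000080000000000000000840000008011000000000000000000000 := rS 0xab65aed0d4f5a93e0a5715860361726124963b (k8 a345 a4391 a4560 a440 a4369 a4608 a437 i387 (k8 a4573 a4571 i1351 a1692 a59 a4609 i1683 a3949 (k2 a899 a4612 k0))) (by decide +kernel)
def a4615 : PP 8 4 T 0x2100000000000000040000000005000000000000020000000000555000000004000 := rS 0x61b141acf (k4 a454 i1491 a277 a276 (k1 i2035 k0)) (by decide +kernel)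
def a4616 : PP 8 4 T 0x20402000000000000000800000000000000000840000008010000000014000000000000 := rS 0xbba79a984872eabd16cd42d157ab527c14ae550d930924b (k8 a4391 a4560 a440 a4608 a4613 a4573 a4571 i1351 (k8 a1692 i1415 a48 a1949 a2010 a52 i539 i531 (k4 a3949 a4611 a460 a13 (k2 i1946 a1579 k0)))) (by decide +kernel)
def a4617 : PP 8 4 T 0x20002000000000000000000000008000000000840000008014000000000000000000000 := rS 0x4a1ac984b66a168abd5a93c9305 (k8 a4571 a4560 i1351 a1692 i1415 a48 a1949 a2010 (k4 a4391 a440 i2361 i538 (k1 a4606 k0))) (by decide +kernel)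
def a4618 : PP 8 4 T 0x2100000000000000040000000005000000000000020000000000545000000004000 := rS 0x35 (k2 i1023 a4615 k0) (by decide +kernel)
def a4619 : PP 8 4 T 0x20402000000000000000000000000000000000840000008011000000004000000000000 := rS 0x198d43443b28cac71da7c729d2ea2c6e0266ad49e310c05cea0f21104364c2492ca67d42c155657 (k8 a4573 a4617 a4571 a1949 i1442 a334 a4391 a4560 (k8 a440 a4608 i787 a3000 i595 a4582 a4369 a437 (k8 i1041 i1351 a1692 a2010 a4584 a446 a52 i531 (k8 a347 a42 a33 a345 a4614 a4618 a4431 a3949 (k4 a4616 a460 a4378 i547 k0))))) (by decide +kernel)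
def a4620 : PP 8 4 T 0x20402000000000000000000000000000000000840000008010000000004000000000000 := rS 0xd0ce548283c84410d930924b (k8 a4391 a4560 a440 a4608 i787 a3000 i595 a4571 (k4 a4619 i1620 a4613 a4378 k0)) (by decide +kernel)
def a4621 : PP 8 4 T 0x2000000000000001000001000000000041800000008014000000008000000000008 := rS 0x35198ba7348930924b (k8 a4391 a4560 a440 a110 i923 i531 i193 a4599 (k1 i547 k0)) (by decide +kernel)
def a4622 : PP 8 4 T 0x20402000000000000000000000000000000000800000008010000000000000000000000 := rS 0xaa641a99d566b7e2e92876869f8667329c54de9157a2c04cd42ad49f052b83c84410d930924b (k8 a4391 a4560 a440 a4608 i787 a3000 i595 a4573 (k8 a4571 i1351 a1692 a1949 a2010 a4584 a52 i539 (k8 a110 a4408 a51 a334 i923 a4621 a4620 a35 (k8 a3171 a4565 i926 a4371 i1946 a97 i1673 a4378 (k2 a4448 a4613 (k1 i1547 k0)))))) (by decide +kernel)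
def a4623 : PP 8 4 T 0x20002000000000000000000000000000000000400000008000000000000000000000000 := rS 0xa4fd (k2 a4567 a4587 (k1 a4561 k0)) (by decide +kernel)
def a4624 : PP 8 4 T 0x20402000000000000001000000000000000001000000048000000000004000000000000 := rS 0xc0c0366435b1cf14e4885c767b4f8e53a5d4595c6e0243b3e0a351083e2c8f2612496773ac44b082 (k8 a4623 a4622 a373 a4582 a4383 a4391 a4560 a440 (k8 i875 a466 a4455 i724 a348 a4571 a4458 a358 (k8 a4584 a446 a4573 a52 i531 a347 a42 a33 (k8 a390 a345 a4369 a110 a436 i2046 a59 a394 (k4 a4519 a4580 a4618 a437 (k1 i1042 k0)))))) (by decide +kernel)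
def a4625 : PP 8 4 T 0x2100000000000000000000000005000002000100020000000000544000002004000 := rS 0x31c622b (k4 i387 i1041 i1602 a4618 k0) (by decide +kernel)
def a4626 : PP 8 4 T 0x20402000000000000001000000000000000000000000048000000000004000000000000 := rS 0x230d064c86b420841e358b23c2e3b4f8e53a5d45930924b829d46e02889dcb082 (k8 a4623 a4622 a4383 a373 a4584 a446 a4582 a4571 (k8 a4391 a4560 a440 a52 i531 a347 a42 a33 (k8 a345 a4369 i875 a466 a348 a4455 i724 a4624 (k4 i1868 a4448 a4625 a437 (k2 i273 a4581 k0))))) (by decide +kernel)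
def a4627 : PP 8 4 T 0x20402000000000000001000000000000000000000000008000000000004000000000000 := rS 0x8e8e079982e4c2492cb082 (k8 a4623 a4622 a4391 a4560 a440 a4369 a4626 a4386 (k2 i544 i1617 (k1 a180 k0))) (by decide +kernel)
def a4628 : PP 8 4 T 0x102000000000000000000000000000000000000500000000020000008000000000008 := rS 0x470d62e17 (k4 a4369 a360 i70 a466 (k1 a566 k0)) (by decide +kernel)
def a4629 : PP 8 4 T 0x2000000000000000000000000000000800000000008000000000004000000000000 := rS 0x64821b0b930924b (k8 a4391 a4560 a440 a4369 i873 i2597 a3008 a437 k0) (by decide +kernel)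
def a4630 : PP 8 4 T 0x20402000000000000000000000000000000000000000008000000000000000002000000 := rS 0x1a63e0e0998a31128ad52614885c767b4f8e53aaf45a1d8685109e512097e33156536799e0a358b23c66022612496773ac44b082 (k8 a4623 a4622 a373 a4582 a4383 a4391 a4560 a440 (k8 a4584 a4628 a4629 a466 a348 a4571 i544 a4458 (k8 a334 i581 a4627 a4574 a369 i190 i1973 i2485 (k8 i128 a487 a358 a52 i539 a347 a42 a33 (k8 a390 a345 a4369 a110 i37 i97 i387 i349 (k4 i1041 a688 a2856 i735 (k2 i736 a341 (k1 a693 k0)))))))) (by decide +kernel)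
def a4631 : PP 8 4 T 0x20402000000000000000000000000000000000000000008000000000000000000000000 := rS 0x3003a1a0c8d5271647a952ab9a18257cb47e2859833559dd87112c008ea9b1685c984925a7ca682 (k8 a4623 a334 a33 a4391 a4560 a440 a4369 a4405 (k8 a412 a4582 a4584 a4622 a373 a487 a4383 i581 (k8 a4628 a4627 i2607 a4574 i894 i895 a369 a84 (k8 i1457 i1725 i1452 a4629 a466 i1369 a348 a4630 (k4 a437 i782 a4576 i1247 k0))))) (by decide +kernel)
def a4632 : PP 8 4 T 0x20002000000000000000000000000000000000000000008000000000000000000000000 := rS 0x22482 (k2 a4623 a4631 (k1 a68 k0)) (by decide +kernel)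
def a4633 : PP 8 4 T 0x10102000000000000004004000000005000000000000000005000000414000008000008 := rS 0x2cc148e64183158ef0200dc7201 (k8 i23 a401 a446 i188 a419 a1190 a49 i2035 (k4 i1002 i1532 a63 i867 (k1 a362 k0))) (by decide +kernel)
def a4634 : PP 8 4 T 0x802000000000000000000000000000000000000000008000000000000000008000002 := rS 0x16d0c29a85a673032bc5e428aaa49e172612496810e8b43e6f (k8 a4408 i271 a4405 i782 a45 a4391 a4560 a440 (k8 a4369 i1351 i97 a51 i445 i1077 i2261 i447 (k4 i2579 a3515 a3580 i454 (k2 a377 a4535 (k1 a118 k0))))) (by decide +kernel)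
def a4635 : PP 8 4 T 0x2000002000000000000008000010000000000000000000400000000000050000000 := rS 0x349f90d (k4 a118 a4402 a377 a3219 k0) (by decide +kernel)
def a4636 : PP 8 4 T 0x802000002000000000000000000010000000000000000000440020000000050000000 := rS 0x6573f56e2b40a0c7e11 (k8 a441 a6 a68 a45 a8 a4635 a4532 a4535 (k2 a3061 i459 k0)) (by decide +kernel)
def a4637 : PP 8 4 T 0x902000000000000001050000000000000000000000000000000000000005500000000 := rS 0xc3158a50e85 (k4 a77 a69 a54 a8 (k2 a1038 i2032 k0)) (by decide +kernel)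
def a4638 : PP 8 4 T 0x902000000000000000000000000000000000000100008000000000004000008000000 := rS 0x48cd2cc1530b6383f21aa029b1442736389de0401b8e404011d88c3e1d8a8b4de4f0bc6456812b930924b (k8 a4391 a4560 a440 i530 a45 a8 a4632 a4369 (k8 i1351 a4408 a4405 a51 i782 i271 i273 i394 (k8 a4634 a4385 a401 a446 i188 a419 a1276 a1190 (k8 i2580 i2544 a49 i536 a4636 a413 a4485 a389 (k4 a4468 i802 a4486 a3192 (k2 a2010 a4637 (k1 a4487 k0))))))) (by decide +kernel)
def a4639 : PP 8 4 T 0x802002000000000000000000000000000000000040008000000000400000004000000 := rS 0xf074e0895b43413152ea0506a137808025313bc06e798c8e43017261249629 (k8 a54 a4391 a4560 a440 a4369 a437 i234 a4632 (k8 a398 i1043 a419 a1276 i536 i446 a4385 a4408 (k8 i311 a68 a45 a5 a51 a369 a1590 a4468 (k4 i190 a389 i721 a4635 (k1 i1356 k0))))) (by decide +kernel)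
def a4640 : PP 8 4 T 0x802000000000000000000000000000000000000040008000000000400000004000000 := rS 0x3aa70387d5d0c5bbf4223f1ebc04e4f8c8ad0283509bc6e791c8602e4c2492c5253 (k8 i536 a54 a4391 a4560 a440 a4369 a437 i234 (k8 a398 i1043 a4408 i311 a68 a45 a8 a4632 (k8 i1351 a1276 a419 a365 a6 a441 a4639 a4402 (k4 a4371 a4535 a81 i459 (k2 a1825 a4343 (k1 i2031 k0)))))) (by decide +kernel)
def a4641 : PP 8 4 T 0x802001000000000000000000000000000000000000008000400000800000002000000 := rS 0x34c122e4481d301f574316e4f24a054e9b (k8 a412 i335 a45 a4560 i1351 a4402 a4371 a4535 (k8 a81 i540 i460 i230 i1106 i1348 a359 a1807 k0)) (by decide +kernel)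
def a4642 : PP 8 4 T 0x802000000000000000000000000000000000000040008000000000000000004000000 := rS 0x980f9c03a895b4355e097e29c74538aa6cde4f2e8ad0229418602e0200930924b (k8 a4391 a4560 a440 i446 a4385 a4369 a437 a68 (k8 a54 a45 a8 a5 i1351 a4408 a412 a51 (k8 i536 a4640 i335 a4641 a369 a427 a1590 a4468 (k4 i190 a4362 a389 i1356 (k2 i802 a2942 k0))))) (by decide +kernel)
def a4643 : PP 8 4 T 0x2000000000000000000000000000000000000000008000800000000000000000000 := rS 0xfd (k2 a452 a4561 k0) (by decide +kernel)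
def a4644 : PP 8 4 T 0x802000000000000000000000000000000000000100008000000000004000000000000 := rS 0x15419055a9f4b22566c4046572ea1d0a0f10bf140f01c9003e6f0e8b49ec71b808023b0d1cca64c2492c5719 (k8 a4632 a8 a4391 a4560 a440 a4643 i836 a4642 (k8 i394 a4634 a4385 a446 a1190 i1351 a4405 i782 (k8 a4408 i271 i188 a401 a419 a4636 a4485 i2544 (k8 i2206 a77 a69 a5 i530 i273 a4638 a380 (k8 a423 a426 a73 a444 a205 a2943 i1489 a4516 k0))))) (by decide +kernel)
def a4645 : PP 8 4 T 0x802000000000000000000000000000000000000200008000000000000000000000000 := rS 0x2b33e22771a85cba790c83c46594c2d9f881384362aa0780e46f191d8ac80020087cde1d0d1cca64c258b49e49 (k8 a4560 i1351 a4405 a4391 a440 a4643 i836 a4642 (k8 i782 a4408 i271 a4634 a4385 i188 a8 i394 (k8 a4632 a446 a401 a419 a4636 a51 a413 a389 (k8 a45 a4485 a4468 i802 a3192 i2062 i2206 i67 (k8 a398 a5 a4369 i1061 i79 a453 i1067 a4490 (k1 a4488 k0)))))) (by decide +kernel)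
def a4646 : PP 8 4 T 0x802000000000000000000000000000000000000000008000000000000000000000000 := rS 0x198a8322b9d5165982a616caf383f21aa0781006e3901004761f0e869022b2ec55362d3793e327329930924b (k8 a4391 a4560 a440 a4643 i836 a4632 i1351 a4408 (k8 a4405 a412 a51 a5 a8 a45 a4642 i782 (k8 i271 i394 a4634 a4385 a401 a446 i188 a419 (k8 a4636 a413 a4485 a389 a427 a4468 i802 a4486 (k8 a3192 i1938 a4645 i530 a4644 a4514 i193 i1620 k0))))) (by decide +kernel)
def a4647 : PP 8 4 T 0x2002000000000000000000000000000000010000008014000000408000000000008 := rS 0x249942e5a9fda7054abc08c891b8e62a2d27c64e65304ab5565532930924b (k8 a4391 a4560 a440 a4414 i792 a97 a420 a369 (k8 a4643 i836 a4632 i1351 a4405 a51 a401 a446 (k8 i190 i192 a419 i1672 a451 a3219 a4565 a1692 (k4 a120 a4397 i319 a4400 k0)))) (by decide +kernel)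
def a4648 : PP 8 4 T 0x22102000000000000000000000000000000010000000115040000000000000000000 := rS 0x220b5 (k2 a1692 a362 (k1 a4534 k0)) (by decide +kernel)
def a4649 : PP 8 4 T 0x2002000000000000000000000000000000010000008114000000408000000000000 := rS 0x16b04861fc3e1d50b4c34420000c5a6f2785ca65532930924b (k8 a4391 a4560 a440 a4414 i792 a4643 a4369 i1351 (k8 a4408 a4405 a4647 a4385 i445 i446 a3515 i819 (k4 i782 i271 a897 a377 (k2 a4648 a822 (k1 a4395 k0))))) (by decide +kernel)
def a4650 : PP 8 4 T 0x2000000000000000000000000000000000020100008000000000000000000000000 := rS 0x7186c54de7329930924b (k8 a4391 a4560 a440 a4643 i836 a4408 a51 a340 (k2 i1361 a389 k0)) (by decide +kernel)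
def a4651 : PP 8 4 T 0x2002000000000000000000000000000000000100008110000000008000000000000 := rS 0x415084666a1cd6024e004748f48954ca5726124967d (k8 a4650 a4391 a4560 a440 i530 a4414 i792 a110 (k8 i874 a4649 a339 i399 a4385 a4411 i1645 i1910 (k4 i192 a460 a451 a1949 k0))) (by decide +kernel)
def a4652 : PP 8 4 T 0x2000000000000000000000000000000000000100000020020000008000000000000 := rS 0x203331de2305 (k4 a2 a373 a4383 a4457 (k2 a4628 i2262 (k1 a4385 k0))) (by decide +kernel)
def a4653 : PP 8 4 T 0x2002000000000000000000000000000000000100008000000000008000000000000 := rS 0x3b013c002272e164fa57261249719 (k8 a4632 a4391 a4560 a440 i530 a4650 a4652 a4651 (k4 a3002 i2259 a795 a4385 (k2 a333 a4647 k0))) (by decide +kernel)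
def a4654 : PP 8 4 T 0x2002000000000000000000000000000000000000008000000000008000000000000 := rS 0x78b3e080d338acba572080006c312b14441a88a3ce8213283e2e17261249713 (k8 a4646 a4391 a4560 a440 a4369 a360 a4415 a4414 (k8 i1612 a4653 i124 a453 i1586 i1585 i2960 i287 (k8 i2155 i2062 a4385 i788 i2258 i2259 a818 i1587 (k4 i1569 a4457 a3113 a1762 (k1 a3127 k0))))) (by decide +kernel)
def a4655 : PP 8 4 T 0x2202000000000000000000000000000000040000008000000000000000000000002 := rS 0xb52b9f618a12987cded32105c3a1a26124962d (k8 a4405 a4391 a4560 a440 i446 i782 a4369 i445 (k8 a3515 a4408 i271 a4643 i819 a377 a340 i2258 (k2 a822 a4395 k0))) (by decide +kernel)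
def a4656 : PP 8 4 T 0x2100000000000000000000000000000000002000040104004010000022000000002 := rS 0x359950847 (k4 i204 i353 i963 i1868 (k1 a4519 k0)) (by decide +kernel)
def a4657 : PP 8 4 T 0x2002000000000000000000000000000000000200008100000000000000000000004 := rS 0x42d3cd4bf32ad062a512b354c28678e1869f2c415169d3c31582983d89d26825ba04fb0c51884461f0ea85a62b33819101a2115c764100455362d27a442e4c24c64a713578ccef113f9bcaa4b (k8 a4391 i1540 a4408 i1668 a453 i79 a4654 a427 (k8 a4646 a4643 a4632 a4560 a440 a4369 a110 i1351 (k8 a4405 a412 a51 a4385 i788 a339 i2258 i445 (k8 i446 i448 i447 i450 a818 a3515 i819 i782 (k8 i271 i272 i783 i280 a377 a340 a4 a118 (k8 a1590 i1589 a4501 i816 a3055 i1344 a1043 a406 (k8 i1592 i1938 a4655 a362 a3237 a487 a4583 a4458 (k8 i1851 i1936 i1972 a4656 i367 a1332 i2030 i962 (k4 i1456 a4519 a394 i1868 (k1 a548 k0)))))))))) (by decide +kernel)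
def a4658 : PP 8 4 T 0x102000000000000004000002040000000005000000808100000000000000000000000 := rS 0x7a411e56ecc5dd3d364f48930924b8c94e2681 (k8 i1402 a4646 a4643 a4632 a4391 a4560 a440 a110 (k8 i1351 a412 a394 i1946 a436 i887 i1972 a4396 (k2 a406 i816 k0))) (by decide +kernel)
def a4659 : PP 8 4 T 0x2100000000000000000000000000000002000200008004000000014000008000008 := rS 0xe8f69f4893093194eb3ccec32c1549711 (k8 a453 a4391 i1540 a362 a487 i1587 a4458 a4419 (k8 a4632 a4560 a440 a110 i1606 i1895 a4633 i395 k0)) (by decide +kernel)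
def a4660 : PP 8 4 T 0x2002000000000000000000000000000010500000008120000000140000000000000 := rS 0x704ef01d8ad421f4c25ce0b686c54de4f0bc64e6532612496af (k8 a427 a4391 a4560 a440 a4643 i836 a4632 a4369 (k8 i1351 a4408 a51 a1590 a4396 a389 i1902 i802 (k8 i1356 a3192 i850 a2952 a419 a1276 a4635 i721 k0))) (by decide +kernel)
def a4661 : PP 8 4 T 0x12002000000000004000000000015000000000400008020000000400004000000008 := rS 0x1a351290830410d8705cd315b15e02d2785e3313198e46e876187ce115379cca64c2492d1209 (k8 a369 i190 a4391 a4560 a440 a4643 i836 a4408 (k8 a51 a389 i1356 a487 a358 a446 a401 a4654 (k8 a4646 a4632 a4369 i1351 a4405 a419 a49 a61 (k8 a3219 a120 a377 i317 i741 a437 a3000 a4356 (k2 a560 i462 (k1 a3010 k0)))))) (by decide +kernel)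
def a4662 : PP 8 4 T 0x2000000000000000000000000000000000002000000000004000800000000000000 := rS 0x1045418 (k4 i1069 i1070 i181 a818 k0) (by decide +kernel)
def a4663 : PP 8 4 T 0x2102000000000000000000000000000000800200008004000000000000000000008 := rS 0x68d44a0f21104301b17285a62b62bc0769f139e0f7154d8b52217261263313478ccee391ba24129d6799d0ec32c1549711 (k8 a453 a4391 i1540 a362 a487 a358 i1587 a4458 (k8 a4419 a369 i190 a446 a401 i79 a4654 a4629 (k8 a4646 a4632 a4560 a440 a4369 a110 a4405 a412 (k8 a51 i816 a406 i1767 a3237 a4662 a419 a49 (k8 a61 a3219 i919 a120 i317 a437 i787 a3000 (k4 a303 a4356 a4378 i462 (k1 a3010 k0))))))) (by decide +kernel)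
def a4664 : PP 8 4 T 0x2102000000000000000000000000000000000200008104000000000000000000000 := rS 0x6a1a5027c4e3b0f9e0e08086a0d86cf4e9622a6f8c9cca64c248ccef112a92c7237448081267 (k8 i1587 a369 a4657 i190 a446 a401 a4391 i1540 (k8 a453 i79 a4654 a4560 a440 a4643 i836 a4632 (k8 a4408 a51 a362 a4419 a4458 a487 a4663 a1590 (k8 a4660 a389 i1363 i1356 a4662 i1770 a3237 a4661 (k2 i795 i357 (k1 a4633 k0)))))) (by decide +kernel)
def a4665 : PP 8 4 T 0x2200000000000000000000000000000000000200000000004000020000000000000 := rS 0x1044818 (k4 i1061 i1062 i181 a570 k0) (by decide +kernel)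
def a4666 : PP 8 4 T 0x2002000000000000000000000000000000000200008104000000000000000000000 := rS 0x5b265068150074f2a7608e81ae4788d62ea54907ce10d3e0c56a656596608678aa6c9f193994c984925abd56333f9bc02391ba240409 (k8 a369 a4657 i190 a446 a401 i23 a4408 i1668 (k8 a4654 a97 a427 a4391 a4560 a440 a4643 i836 (k8 a4632 i1351 a412 a51 i1587 a4664 a2 a385 (k8 a63 a822 i1002 a4431 a340 a389 i1356 i1360 (k8 i1325 a19 a4665 a3216 a1020 a764 a419 a408 (k8 i335 a4662 i1233 a1835 i1363 i920 a4486 a4396 (k1 i802 k0))))))) (by decide +kernel)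
def a4667 : PP 8 4 T 0x2002000000000000000000000000000010000000008108000400151000000000000 := rS 0x5ba050679538a87e70500e83427148b9e24069b141a4361b922a9b1693e325389abd563307b2cd71733130924b (k8 a4391 a4560 a440 i529 a350 i2353 a4399 a3001 (k8 a4654 a97 a427 a4646 a4643 a4632 i1351 a4405 (k8 a412 a51 a429 a1105 a3042 a392 a40 a4206 (k8 a3000 a198 a120 a443 a331 i787 a419 i317 (k8 i318 i2234 a127 i335 a4662 i920 i1363 i851 (k1 a4396 k0)))))) (by decide +kernel)
def a4668 : PP 8 4 T 0x2002000000000000000000000000000000000200008100000000000000000000000 := rS 0x2190446181a11c62663295912371c8089849258251e33 (k8 a4654 a4629 a369 a4391 a4560 a440 a4657 a401 (k8 a446 i190 a4666 i1580 i529 i1002 i2961 a4667 (k4 i1061 i247 i181 i442 (k1 a3000 k0)))) (by decide +kernel)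
def a4669 : PP 8 4 T 0x2000000000000004050000000001000000002000000008001000454000008000008 := rS 0xc2720c53e4732a1c7223 (k8 i272 a401 a387 i1580 i1577 i1076 i1002 a4162 (k2 i2035 a468 k0)) (by decide +kernel)
def a4670 : PP 8 4 T 0x2002000000000000000000000000000000000200008000000000000000000000000 := rS 0x2c2160a573808c6a2e44b3c421a0cb4d8ac7010ed3a99668dc80f0009e1144313970aa7f889de2a2d37930924b8c8255e33 (k8 a4654 a427 a369 a4632 a4391 a4560 a440 a4408 (k8 a4405 a51 i79 a453 i1668 i1540 a4668 a3002 (k8 a543 i531 i532 i2259 a795 a3000 a4382 i3137 (k8 i1938 i1858 a4662 a4385 a27 a49 a3219 i181 (k8 i787 i2544 i1068 i190 a120 i1061 i272 i318 (k4 a4669 a4491 a4659 a362 (k1 i610 k0))))))) (by decide +kernel)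
def a4671 : PP 8 4 T 0x10002000000000000004000000000005000000000000000025000000414000008000008 := rS 0x18711 (k2 a373 a487 (k1 a4633 k0)) (by decide +kernel)
def a4672 : PP 8 4 T 0x2002000000000004000000000001000000000400008200000000010000000000000 := rS 0x1863106b296a59829fcaa6f279cca6ad558ccfa374ca295e9f1d9e18a211195cea39079c0344021a945cd3784644f1544808024c2492c122d (k8 a4405 a369 a4391 a4560 a440 i2259 a4385 i190 (k8 a51 a3002 a4632 a795 a3219 a120 i365 a543 (k8 a3000 i787 i318 i2206 a401 a4670 i530 i185 (k8 i2544 a49 i532 a4662 i1075 a427 i531 i1938 (k8 a4382 a4650 a4654 a97 a420 a4643 i836 i1351 (k8 a4408 i791 a3171 a4491 a4671 a1692 a4397 i466 (k2 i1003 a276 (k1 a262 k0)))))))) (by decide +kernel)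
def a4673 : PP 8 4 T 0x2002000000000004000000000001000000000000008200000000010000000000000 := rS 0x618c62e76198dd149f3a8ecf0c5784644e212010c720200930924b (k8 a4391 a4560 a440 i2259 a4385 a401 a543 a3000 (k8 i2544 a3002 a4632 a795 a49 i532 a4662 a4670 (k8 i1075 i531 a4382 a4654 a4672 a332 i1507 a3115 (k1 a262 k0)))) (by decide +kernel)
def a4674 : PP 8 4 T 0x2000002000000000000000000002000000002000000204000000114000000000000 := rS 0x414b284189ae2ec5 (k8 a49 a399 a4411 i1511 i1857 i609 a3216 a1949 k0) (by decide +kernel)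
def a4675 : PP 8 4 T 0x2002000000000000000000000000000000000000008200000000010000000000000 := rS 0x2d4fecb2c9544a9533214cb1767275724f3994d5aab478ccae7d3a9e1328a578e5402e69bc232278aa240401048b4344021930924b (k8 a4391 a4560 a440 a543 a3000 i787 a4405 a369 (k8 i2259 a4385 i190 a51 a3002 a4632 a795 a3219 (k8 a120 i317 a401 a427 i531 i1938 i532 a4670 (k8 a4650 i530 a4654 a4629 a97 a420 a4643 i836 (k8 i1351 i1137 a4674 a4673 a368 a454 i1871 i1979 (k8 i1104 a4200 i792 i610 i546 a4565 i880 a4397 k0)))))) (by decide +kernel)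
def a4676 : PP 8 4 T 0x2002000000000000000000000000000000000000008200000000000000000000000 := rS 0x88954b305121948e343803c5c890d34c563f01101e07b0090c4f1516c6412573a930924b (k8 a4391 a4560 a440 a4670 i530 a369 a4632 a4405 (k8 a51 a3002 a543 i2259 i1892 a795 a3000 a4385 (k8 a6 a61 a3219 i787 i190 a120 i2206 i318 (k8 a4675 a4377 i1023 i356 a3218 i867 i792 a38 (k1 a362 k0))))) (by decide +kernel)
def a4677 : PP 8 4 T 0x4002002000000000000000000000000000000000000008011000000000802000000000 := rS 0x1c0fcb50d410ecb90cc44de1729a3c66573a930924b (k8 a4391 a4560 a440 a4670 i530 a4654 a4629 a4643 (k8 a4369 a4408 a38 i349 a4187 a466 a362 a437 (k4 i808 a3162 i318 i2557 k0))) (by decide +kernel)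
def a4678 : PP 8 4 T 0x2202000000000040000000000010000000000000008000000000020000000000000 := rS 0xa25c9f96acb2b9f4ea1f174551202008245a7329930924b (k8 a4391 a4560 a440 a4643 i836 a4405 a369 a4376 (k8 a4385 i190 a51 a120 i239 a4670 a4650 i530 (k4 a385 a822 a4500 i1405 (k2 a1913 i327 k0)))) (by decide +kernel)
def a4679 : PP 8 4 T 0x2102000000000000000010000000000000000000018010000000020000000000000 := rS 0x1967f4a9981e7329aacfa0200ad49e573a930924b (k8 a4391 a4560 a440 a4670 i530 i1351 a1692 a4376 (k8 a4385 a4650 a97 a4643 i836 i341 a4378 i1673 (k2 a4565 i546 (k1 a4431 k0)))) (by decide +kernel)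
def a4680 : PP 8 4 T 0x2002000000000040000000000000000000000000008011000000020000000000000 := rS 0xcc0f322e4e0b586c1484a12086036253793c2e732995c9849259f4ea5d8b8ba2a8901004122d (k8 a4405 a369 a4376 a4385 i190 a51 a120 a348 (k8 a4676 a4670 a4650 a4391 a4560 a440 i530 a4643 (k8 i836 a4369 i1351 a4408 a4677 i356 a437 i787 (k8 i311 a3000 a4678 a4648 a1692 a389 i1407 a4679 (k2 i595 a4378 (k1 i75 k0)))))) (by decide +kernel)
def a4681 : PP 8 4 T 0x2000000000000000000000000000000000000000008002000000020000000000000 := rS 0x800e21894cf05261249647 (k8 a4377 a4391 a4560 a440 a72 i1620 i2549 i704 (k2 a4378 a3000 (k1 i338 k0))) (by decide +kernel)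
def a4682 : PP 8 4 T 0x2002000000000080000000000000000000000000008000000000000000000000008 := rS 0x1c16d0d40a0cf4993c8e9e22f8aa6cde4f48c64e653261249713579747237 (k8 a446 a401 a4676 a427 a4646 a4391 a4560 a440 (k8 a4643 i836 a4632 a110 i1351 a4408 a412 a51 (k8 a359 a3219 a419 a4662 i1106 a406 a3055 i1894 (k4 a1590 a4396 a389 i802 k0)))) (by decide +kernel)
def a4683 : PP 8 4 T 0x2002000000000000000000000000000000000000008000000000020000000000000 := rS 0x1de22586995404018ba3c6675 (k8 a4670 a4654 a4629 a348 a4376 a4385 a4681 a4682 (k4 a4680 a373 a4383 a466 k0)) (by decide +kernel)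
def a4684 : PP 8 4 T 0x2002000000000000000000000000000000001020008020000000000000000000008 := rS 0x20d027a4da44984925c66265d1c8dd1209 (k8 a369 i190 a446 a401 a4676 a4646 a4632 a4391 (k8 a4560 a440 a110 a412 a406 i1363 i816 a4660 k0)) (by decide +kernel)
def a4685 : PP 8 4 T 0x2002000000000000000000000000000000002000008020000000000000000000008 := rS 0x300c0ac36c7780ed3e178c95cea4c2492e2255618841e354eb3cce8f19c147237 (k8 a446 a401 a2 a4654 a4629 i544 a4458 a4419 (k8 a4683 a4456 i724 a487 i118 a373 a4391 a4560 (k8 a440 a4670 i530 a4632 a4369 i1075 a4662 a419 (k4 a1190 a4633 a61 a437 (k2 a1428 i1041 k0))))) (by decide +kernel)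
def a4686 : PP 8 4 T 0x2002000000000000000000000000000000000000008020000000000000000000008 := rS 0x10c419c4f4798aa6cde918c9cca64c2492e265d (k8 a4676 a4646 a4391 a4560 a440 a4643 i836 a4632 (k8 a110 a4408 a412 a51 a4685 a406 a4684 i816 (k2 a389 a1590 k0))) (by decide +kernel)
def a4687 : PP 8 4 T 0x2002000000000040000000000000000000000000008020000000000000000000000 := rS 0x85351956831528954c281c27d16784c1ec4e825ba0618c15188c3e1d50b140c880d10876410000d26cf4ec5842673f9dd871182a1e2a9b169bc9e910bc64a71357a3c665726124967d3a9741e35 (k8 a4683 a4456 a4676 a4670 a4650 a4391 a4560 a440 (k8 i530 a4654 a4629 a427 a4646 a4643 a4632 a4369 (k8 a110 i1351 a4408 a4405 a412 a51 a358 a2 (k8 a373 a487 a4383 i844 i544 i724 a466 a4419 (k8 a4458 a19 a4686 a4385 i788 a339 i445 i446 (k8 i448 i447 a4100 i819 i782 i271 i273 i280 (k8 i1344 a377 a4 a118 a1590 a4501 i816 a3055 (k8 a406 i1938 i1075 a4583 i1851 i1936 a4656 i367 (k4 a1332 i2030 i962 a4454 (k2 i1868 a4658 k0)))))))))) (by decide +kernel)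
def a4688 : PP 8 4 T 0x2002000000000040000000000000000000000000008000000000000000000000002 := rS 0x105861fc3e1d509543442169bc9e532b930924b3e9d4ba59 (k8 a4687 a4676 a4670 a4650 a4391 a4560 a440 i530 (k8 a4643 i1351 a4408 a4405 i445 i446 i2534 i819 (k4 i782 i271 a897 a377 (k2 a4655 a4648 k0)))) (by decide +kernel)
def a4689 : PP 8 4 T 0x22002000000000040000000000000000000000000008000000000000000000000000 := rS 0x5ac10aa1b3fa849e332b930924b3e9d4ba352c8b91202008262a2d (k8 a4405 a51 a369 a4688 a4385 i190 a120 a4687 (k8 a4683 a4676 a4670 a4650 a4391 a4560 a440 i530 (k8 a4654 i1351 a413 a35 i317 a4613 a4648 a822 (k1 a4500 k0)))) (by decide +kernel)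
def a4690 : PP 8 4 T 0x2202000000000040000000000000000000000000008000000000000000004000000 := rS 0x7e10ad4ae7d3a87c5c8901004122d509c21b15379cca64220930924b (k8 a4391 a4560 a440 i787 a3000 a4643 i836 a4408 (k8 a51 a4689 a389 i795 a4405 a369 a4688 a4385 (k8 i190 a120 i239 a4670 a4650 i530 a822 a977 (k2 a4395 a1066 k0)))) (by decide +kernel)
def a4691 : PP 8 4 T 0x2002000000000040000000000000000000080000008000000000000000004000000 := rS 0x1c8203b0cc6a1f172240401048b5427086c54de7329930924b (k8 a4391 a4560 a440 a4643 i836 a4408 a51 a4689 (k8 a389 i795 a4405 a369 a4688 a4385 i190 a120 (k4 i239 a4683 a4654 a3171 (k2 a1066 a877 (k1 a46 k0))))) (by decide +kernel)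
def a4692 : PP 8 4 T 0x2100000000000000000000000000000000000000000001000000000000200005000 := rS 0x8ee5 (k2 a46 i1529 (k1 a425 k0)) (by decide +kernel)
def a4693 : PP 8 4 T 0x2002000000000004014000000001000000002000008000000000001000000000008 := rS 0x3b4f92e32333a8d47237 (k8 a446 a401 a4683 a4670 a4654 a4632 a4391 i1075 (k2 a4662 a262 k0)) (by decide +kernel)
def a4694 : PP 8 4 T 0x1000000000000002000000000000000800100040000000000000000800000000000000000000000000 := rS 0x1774f (k2 a394 i1946 (k1 a1579 k0)) (by decide +kernel)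
def a4695 : PP 8 4 T 0x2002000000000040000000000000000000000000008000000000000000004000000 := rS 0x1ad7b455b2985283409e8f2c362b3d3a0d33b28feb542b360a1c18a84aa184d93d22178cc4d5ead558ccae7d3a9741e591c87d72a5172240401048b46a7086c54de7329930924b (k8 a4391 a4560 a440 a4643 i836 a4408 a51 a4689 (k8 a389 a4683 a4405 a369 a4688 a4385 i190 a120 (k8 i365 i1137 i239 a401 a4687 a4456 a4676 a4670 (k8 a4650 i530 a4654 a97 a420 a427 a4646 a4632 (k8 a4369 a110 i1351 a412 a437 a4613 i795 i1041 (k8 a377 a4690 a2010 a1949 a1692 a4691 a4397 i546 (k8 i466 a4419 a4458 a277 a276 a4693 a406 i1363 (k8 i816 i1889 a4362 a4396 a410 i1984 a4694 a2670 k0)))))))) (by decide +kernel)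
def a4696 : PP 8 4 T 0x2002000000000040804000000000000000000000008000000000000000000000000 := rS 0xad0eb641a04f479628c44acf4ea159a0d33c15364f48c6626af2b9741e595ca946a70869bce653119d47e2e448262a2d10900340200930924b (k8 a4391 a4560 a440 a4688 a4385 a4695 i188 i2544 (k8 a4405 a51 a369 i190 a120 i2234 a4670 i273 (k8 a4643 i836 a4408 a4689 a389 a4683 i365 i1137 (k8 a4687 a4456 a4676 i530 a427 a4646 a4632 a110 (k8 i1351 a412 a385 i546 i466 a2010 a1949 a4419 (k8 a4458 a3587 i1003 a277 a4693 a406 i1363 i816 (k4 a4396 i2560 i851 a2701 k0))))))) (by decide +kernel)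
def a4697 : PP 8 4 T 0x2102000000000000400000000000000000000000008011000000000000000000000 := rS 0x339962e943b1f96b153793ce65356aacae4c2492cfa75 (k8 a4670 a4650 a4391 a4560 a440 i530 a97 a420 (k8 a4643 i836 i1351 a4408 a51 a1692 a4397 a3171 (k4 a4565 a332 i1547 i1673 (k1 a4379 k0)))) (by decide +kernel)
def a4698 : PP 8 4 T 0x2202000000000040000000000000000000000000008000000000000000000000000 := rS 0xede2e418c5d6a658c8ccae7d3a8d4723701004e10d8a9bce65326124961a (k8 a4695 a4391 a4560 a440 a4643 i836 a4408 a51 (k8 a4689 a389 a4688 a4385 a446 a401 a4683 a4670 (k8 a4650 i530 a4654 a4632 a63 a822 a3215 i1002 (k4 a429 a3216 a4492 a419 k0)))) (by decide +kernel)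
def a4699 : PP 8 4 T 0x2002000000000040004000000000000000000000008000000000000000000000000 := rS 0x15a1d6c83409e8f2c518b3d3a0d129d8ce5465a6c9e918cc4d5e5d078d4e10d379cca6231f8b912098a8b442400d00802cd42c14ae75261249659 (k8 a4687 a4391 a4560 a440 a4670 i530 a4698 a1949 (k8 a2010 a4688 a4385 a4695 i188 i2544 a4405 a51 (k8 a369 i190 a120 i2234 i273 a4643 i836 a4408 (k8 a4689 a389 a4683 a4456 a4676 a427 a4646 a4632 (k8 a110 i1351 a412 a4696 a4697 i1620 i791 i2549 (k8 i1489 a4419 a4458 i1507 a277 a4693 a406 i1363 (k4 i816 a4396 i2560 i851 (k1 a2701 k0)))))))) (by decide +kernel)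
def a4700 : PP 8 4 T 0x2002000000000040000000000000000000000000008000000000000000000000000 := rS 0x196550630a0a21200694a2e4480802598a8b49849258241e35 (k8 a4683 a4456 a369 a4391 a4560 a440 a4405 a51 (k8 a4687 a4688 a4385 i190 a120 i365 a4695 i188 (k4 i2544 a4698 a4699 a276 (k2 i1489 i466 (k1 a4697 k0))))) (by decide +kernel)
def a4701 : PP 8 4 T 0x2002000000000000000000000000000000000000008000000000000000000000000 := rS 0x80c0ed2 (k4 a4700 a402 a4682 i447 (k1 a4385 k0)) (by decide +kernel)
def a4702 : PP 8 4 T 0x2000000000000080000000000000000400000000008000000010020001000002000 := rS 0xab2ba54464f2494dfa1d1781d8242 (k8 a3000 a44 a402 a359 a341 a4701 a4643 a4560 (k4 i1351 i247 i1098 i442 (k2 i538 a4550 k0))) (by decide +kernel)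
def a4703 : PP 8 4 T 0x2000000000000000000000000000000000000000000011000000000000000008000 := rS 0x8243 (k2 i595 i339 (k1 a3000 k0)) (by decide +kernel)
def a4704 : PP 8 4 T 0x2100000000000080000000000000000400000000008000000010020001000004000 := rS 0x348ee5 (k4 a364 a4377 a4702 a425 k0) (by decide +kernel)
def a4705 : PP 8 4 T 0x22100000000000080000000000000000000000000000011000080000000000001100 := rS 0x14a212b9fc3e0f (k4 a4703 a81 a35 i441 (k2 a4692 a2241 (k1 a4351 k0))) (by decide +kernel)
def a4706 : PP 8 4 T 0x2100000000000080000000000000000000000000008014000010010000000002000 := rS 0x458cc31551d49e537e87582252106036020b930924b728cc0207 (k8 a402 i447 i1610 a392 a4391 a4560 a440 a4369 (k8 a4385 i188 a437 a3000 i858 a44 a341 a4701 (k8 a4643 i1351 a1851 a4550 i1041 i537 a429 a350 k0))) (by decide +kernel)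
def a4707 : PP 8 4 T 0x2100000000000080000000000000000000000000008011000010000000000000000 := rS 0x662b0cc183504a2430250d9082e1f863f49e53010040e8f26124960f (k8 a4703 a4391 a4560 a440 i874 a402 i447 a4385 (k8 a4643 i1351 a4701 a4371 a81 a4369 a3000 i188 (k8 i858 a437 i230 i1348 a4704 a4705 i1610 a4706 (k2 i529 a3042 k0)))) (by decide +kernel)
def a4708 : PP 8 4 T 0x2000000000000000000000000000000000000000000008001000000000009002008 := rS 0x1a9948ee5 (k4 a392 i26 i1580 a4161 (k1 a4162 k0)) (by decide +kernel)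
def a4709 : PP 8 4 T 0x2100000000000080400000000000000000000000008011000000000000000002000 := rS 0x45c6235331944aaa882d4aead19b94c24f29bf582020081c321a20130924b (k8 a4391 a4560 a440 a4707 i787 i181 a402 i447 (k8 a4385 a44 a4701 a4643 i1351 i37 a392 i1610 (k8 i1493 a4708 a1692 a362 a4420 a423 i1660 i537 (k4 i356 i1002 a350 a429 k0)))) (by decide +kernel)
def a4710 : PP 8 4 T 0x2100000000000080400000000000000000000000008015000000000000000000000 := rS 0x1c8a423ab56aa13e9fc3f0c7e93ca61d60a8c862111868804c2492c0401038941a0f (k8 a4703 a4709 a3587 a402 i447 a4385 a4391 a4560 (k8 a440 a4707 i787 i2062 i2544 i21 a99 a44 (k8 a341 a4643 i1351 a4701 a4371 a81 a35 a340 (k4 a4485 a1692 a4528 a3093 (k2 a4479 a425 (k1 a382 k0)))))) (by decide +kernel)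
def a4711 : PP 8 4 T 0x2100000000000080400000000000000000000000008011000000000000000000000 := rS 0xab5a1d0ac250688c34400793096a13e87e18fd27924a6c1518080207 (k8 a402 i447 a4385 a99 a44 a4643 a4560 i1351 (k8 a4701 a4371 a81 a340 a4485 a4391 a440 a4703 (k8 a4707 i787 i2062 a4709 a3587 a4710 i530 a3027 (k2 a3079 a1244 k0)))) (by decide +kernel)
def a4712 : PP 8 4 T 0x2100000000000080400000000000000000000000008010000000000000000000000 := rS 0x471090c801a078cc6ab51299c46542612d427d3f87e18fd27924a61d518080207 (k8 a402 i447 a4385 a99 a341 a4643 a4560 i1351 (k8 a4701 a4371 a81 a35 a340 a4485 a4391 a440 (k8 a4711 a2999 i1620 i2549 i2550 a4681 a4457 a4456 (k4 a4613 i188 i780 i2544 (k2 a3093 a3274 k0))))) (by decide +kernel)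
def a4713 : PP 8 4 T 0x2200000000000080000000000000000000000000008000000020000001000000000 := rS 0x571a88c421a8aaa4c2a13e9fc3f0c7e93ca6c151ad49849258c4ca33238080207 (k8 a402 i447 a4385 a451 i192 a63 i1002 a4391 (k8 a4560 a440 a822 a99 a44 a4643 i1351 a4701 (k8 a4371 a81 a35 a340 a4485 i37 i97 a51 (k4 i787 i2544 i184 i356 (k2 a3027 a4484 k0))))) (by decide +kernel)
def a4714 : PP 8 4 T 0x2200000000000000400000000000000000000000008114000000000000000000000 := rS 0x3ac5e22663ba1d54948a984fa7f863f49e5347ab4aa6b5a930924b (k8 a4391 a4560 a440 a822 a464 a72 a445 i874 (k8 a4643 i1351 a4701 a4371 a35 a340 i37 a51 (k8 a4493 a4420 a4530 i1675 i537 a3812 a350 i1587 (k1 a466 k0)))) (by decide +kernel)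
def a4715 : PP 8 4 T 0x2200000000000000400000000000000000000000008010000010004000000000000 := rS 0x331d0ac5d21130924b (k8 a4391 a4560 a440 a3000 a543 a4714 i530 i529 (k1 a4570 k0)) (by decide +kernel)
def a4716 : PP 8 4 T 0x2000000001000000000000000000000000000000010008000400000000009000008 := rS 0x35 (k2 a4161 a4162 k0) (by decide +kernel)
def a4717 : PP 8 4 T 0x2000000000000080400000000000000000000000008010000000000000000000000 := rS 0x128342bb944823108683240198c56a4732c122a612612cff0c7e93c9253178080207 (k8 a402 i447 a4385 a359 a4643 a4560 i1351 a4701 (k8 a4371 a35 a4391 a440 i37 a51 a4712 a63 (k8 a451 a822 i1002 i192 a4715 i181 i787 i2544 (k4 i184 a4713 a409 a4716 (k2 a4499 a4493 (k1 i1098 k0)))))) (by decide +kernel)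
def a4718 : PP 8 4 T 0x2000000000000004014000000001000000002100008000000000015000000000008 := rS 0x13e3b25c647237 (k4 a446 a401 a4632 a4391 (k2 a4662 i1075 (k1 a262 k0))) (by decide +kernel)
def a4719 : PP 8 4 T 0x2000000000000000000000000000000000001000008000000000000000000000000 := rS 0xae4ca0cf45d4d93d224c2492e331340addfa53 (k8 a4643 a4701 a4402 a4475 a4646 a4632 a4391 a4560 (k8 a440 a110 i1351 a412 i532 a406 i816 i1940 (k2 a4396 i540 k0))) (by decide +kernel)
def a4720 : PP 8 4 T 0x2000000000000080000000000002000000000100008100000000015000000000000 := rS 0x12a4a2ea13e9fc3aa347a6103155ba6d22230d065100857a2de03b3c0de32390fc31fa4f2985c9849258080207 (k8 a402 i447 a4385 a4391 a4560 a440 a4369 a4643 (k8 i1351 a4701 a4371 a81 a401 a4632 a446 a4719 (k8 a4662 a419 i1853 i539 a1818 i1348 i230 a437 (k8 i2062 a110 a412 a4402 a51 a4475 a4508 a566 (k8 a99 a341 a35 a340 a4485 a399 i1943 a4200 (k1 a3581 k0)))))) (by decide +kernel)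
def a4721 : PP 8 4 T 0x2000000000000080000010000000000400000000088000000000000000000000000 := rS 0x19659 (k2 i544 i546 (k1 a4717 k0)) (by decide +kernel)
def a4722 : PP 8 4 T 0x2000000000000080000000000000000000000100008100000000015000000000000 := rS 0x6b08d4cf339953b05200697219440215e8b1687e18fd2794d4ea363b1422f01d8de323907a3c04010385cae4c2492d3e78 (k8 a4719 i1075 a4391 a4560 a440 i530 a4369 a402 (k8 i447 a4385 a566 a4456 a401 a4632 a446 a4662 (k8 a419 a441 a49 a27 a99 a67 a4643 i1351 (k8 a4701 a4371 a81 a4405 i1853 i539 a1818 i1348 (k8 i230 i1404 a437 i188 a3234 a4720 a4618 a4721 (k4 a4458 a4519 a4718 i467 (k1 a276 k0))))))) (by decide +kernel)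
def a4723 : PP 8 4 T 0x2000000000000080008000080000000000000000008000000000000000000000000 := rS 0x65965fa07 (k4 a402 a4701 a487 a1826 (k1 a4717 k0)) (by decide +kernel)
def a4724 : PP 8 4 T 0x2000000000000080000000000000000000000100008000000000015000000000000 := rS 0xa555b2c8e5982895c86a332162ece61ab9308211884809d4510cb8578aa6d22815ba84fa7f0fc31fa4f29875823f628ade03b3c0de32394780802070b930924b (k8 a4391 a4560 a440 a4369 a402 i447 a4385 a566 (k8 a401 a4632 a446 a4719 a4662 a419 a61 a49 (k8 a6 a44 a341 a4643 i1351 a4701 a4371 a81 (k8 a35 a340 a4485 a4402 a4475 a110 a412 a51 (k8 i530 a4722 a543 i531 a4674 a3000 i2544 i185 (k8 a3061 a3055 i1938 a4723 a4718 a368 i1871 i1979 (k8 i1978 a3326 a4200 a3216 i610 i1617 i2370 i2361 (k2 a382 a1245 k0)))))))) (by decide +kernel)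
def a4725 : PP 8 4 T 0x2000000000000008000000000000000000000000048000000000000000000000000 := rS 0x8222e2efd (k4 a4701 a368 i1979 a4458 (k1 a4564 k0)) (by decide +kernel)
def a4726 : PP 8 4 T 0x2000000000000080000000000000000000000200008000000000014000000000200 := rS 0x9f2c414801a0ca205a1f863f49e5353a8de03b1bc6472554e9ecf0576799d726f4780802070b930924b (k8 a4391 a4560 a440 a4369 a402 i447 a4385 a566 (k8 a4408 i1065 a4721 a4725 i529 a4719 i60 i1592 (k8 i1540 a401 a4632 a446 a4662 a419 a99 a67 (k8 a4643 i1351 a4701 a4371 a81 a4405 i1348 i230 (k4 a437 i188 a3234 a1851 (k2 a3237 a4671 k0)))))) (by decide +kernel)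
def a4727 : PP 8 4 T 0x2000000000000080000000000000000000000000008000000000015000000000000 := rS 0x121010d0421a78b8c3452b812cf2b99d3ab93a1bdfa7b628ade03b3c0de32394780802070b930924b (k8 a4391 a4560 a440 a4369 a402 i447 a4385 a566 (k8 a401 a4632 a446 a4719 a4662 a419 a61 a49 (k8 i60 a4701 a4408 a4724 i1065 i1592 a4721 i529 (k8 a4725 a4726 a1818 i539 a4723 i1853 a262 a543 (k4 a3237 i1076 a3000 a4713 (k1 i927 k0)))))) (by decide +kernel)
def a4728 : PP 8 4 T 0x2000000000000080000000000000000000000000008000000000014000000000000 := rS 0xc86caa584fb2e0a5767a7418473219dca300b93093191d9e096391b8080207 (k8 a402 i447 a4385 a446 a401 a4391 a4719 a4662 (k8 a4632 a4560 a440 a4369 a4727 a459 a4387 i1002 (k8 i1532 i1003 i1512 i988 i529 a63 i465 a3237 (k4 a4717 i118 a4671 a558 (k1 a437 k0))))) (by decide +kernel)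
def a4729 : PP 8 4 T 0x2000000000000080000000000000000000000000008000000000010000000000000 := rS 0x15a22752cc14aaa53330c8c0d10994648f0785c987f0fc31fa4f2494de03b3c12c6f191c8080207 (k8 a402 i447 a4385 a401 a4632 a446 a4391 a4719 (k8 a4662 a419 a4643 a4560 i1351 a4701 a4371 a81 (k8 a35 a440 a4369 a4456 a566 a4728 a4414 i1612 (k8 i1610 i192 i2068 i193 i2067 i792 a1762 i544 (k4 i2961 a4042 a362 i530 k0))))) (by decide +kernel)
def a4730 : PP 8 4 T 0x2000000000000080000000000000000000000000008008000000000000000000000 := rS 0x19659 (k2 i119 a4399 (k1 a4717 k0)) (by decide +kernel)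
def a4731 : PP 8 4 T 0x2100000000000080000000000000000000000000008010000000000000000000000 := rS 0x683d94077291caa34 (k8 a4729 a4681 a4377 a364 a402 a4717 a4703 i465 (k1 a425 k0)) (by decide +kernel)
def a4732 : PP 8 4 T 0x2100000000000080000000000000000000000000008000000000000000000000000 := rS 0x840e2099cef112c008020723a3c6634 (k8 a4729 i70 a4629 a4377 a402 i447 a4385 a4731 (k4 a373 a4383 i544 i867 (k2 a4378 a3000 (k1 a303 k0)))) (by decide +kernel)
def a4733 : PP 8 4 T 0x2000000000000080000000000000000000000000008000000000000000000000000 := rS 0xb58215d2a3417c54c24c2492ca6fd (k8 a4701 a4643 a4391 a4560 a440 i37 a51 a359 (k4 a4729 i1098 a4730 a4732 (k2 a822 a4493 k0))) (by decide +kernel)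
def a4734 : PP 8 4 T 0x2200000000000000000000000000000000000000008000000000020000000000000 := rS 0x3b2503457201d46715309fe18fd2794cb2cb5a930924b (k8 a4391 a4560 a440 a822 a385 a2 a4643 i1351 (k8 a4701 a4371 a35 i37 a51 i70 a4665 a4715 (k4 i530 i787 a4493 i357 (k1 i1675 k0)))) (by decide +kernel)
def a4735 : PP 8 4 T 0x2200000000000000000000000000000000000000008004000000000000000000000 := rS 0xcc631772808ccf00089d545c8c9f4ff0c7e93ca659659948eb5261249635 (k8 a4734 a4391 a4560 a440 a822 a451 a63 a385 (k8 a2 a4643 i1351 a4701 a4371 a35 a340 a4632 (k8 a4714 a4431 a3002 i2259 a795 i537 a4385 a3227 (k4 a350 a4387 i192 a429 k0)))) (by decide +kernel)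
def a4736 : PP 8 4 T 0x2200000000000000000000000000000000000000008000000000000000000000000 := rS 0x1e0331b8e404318b804cc561a91c98498c8ecf04b (k8 a4391 a4719 a4662 a4632 a4560 a440 a451 a4734 (k8 a4735 i529 i2258 a350 a4387 a4385 a401 a446 (k2 i192 a419 (k1 a3216 k0)))) (by decide +kernel)
def a4737 : PP 8 4 T 0x2000000000000000000000000000000000000000008008000000010000000000000 := rS 0x3422c57231de0c3198dc7202238c62e9f35804cc744393093191d9e0960f (k8 a4456 a4391 a4719 a4662 a4632 a4560 a440 a387 (k8 i530 i529 i2258 i2353 i1076 a350 a4387 i2961 (k8 a4385 a401 a446 i192 a1105 a419 a2286 a429 (k4 a49 a441 a392 a132 k0)))) (by decide +kernel)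
def a4738 : PP 8 4 T 0x2000000000000000000000000000000000000000088000000400014000000000000 := rS 0x17a257093a1b292aab353c06e3961b141aa5012d5c8012a9655a318bc54c22d8c9f4ff0c7e93c92531d9e096d38283cae8f (k8 a4629 a4737 a4456 a4736 a4733 a4391 a4719 a4662 (k8 a4643 a4560 i1351 a4701 a4371 a35 a340 a4632 (k8 a4405 i37 a51 a350 a4387 i1622 i544 i1620 (k8 i450 a429 a1692 a4385 a382 a392 a40 a468 (k8 a401 a446 a419 a198 i2361 i1673 a4397 a105 (k4 a4400 i546 a3633 i1137 (k1 a120 k0))))))) (by decide +kernel)
def a4739 : PP 8 4 T 0x2000000000000000000000000000000000000000008000000400015000000000008 := rS 0x2254809652d418592aab584658a984987d3fc31fa4f2494da60f55a759e6763a7caf0562bc06e3b3c12e3239 (k8 a401 a4632 a4391 a4719 a4662 a446 a419 a49 (k8 a4736 a4737 a3237 a2286 a4738 a4725 a4419 i537 (k8 a4456 a4733 a4643 a4560 i1351 a4701 a4371 a35 (k8 a340 a440 i37 a51 a4618 i2035 i1353 i792 (k8 a487 a276 a1692 a4397 i1388 i466 i190 a4449 k0))))) (by decide +kernel)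
def a4740 : PP 8 4 T 0x2000000000000000000001004000000000000000008014000000002000000000008 := rS 0x2b182cb0401caa88108bc801a0c9d62a2d2785c984925a85fa5369c14020c (k8 i1003 i23 a4736 a4733 a4643 a4701 a4485 a4391 (k8 a4560 a440 a4369 i1351 a4405 a51 a1851 i1041 (k8 a437 i188 i317 i2544 a120 i1489 i1341 i190 (k4 i465 i2866 a4420 i1493 k0)))) (by decide +kernel)
def a4741 : PP 8 4 T 0x2000000000000000000000000000000000000000008020000400014000000000008 := rS 0x321b2a85c98498c8ed3e573c12d3b056799dca30 (k8 a4739 a459 a4738 a4725 a4736 a4419 a4391 a4719 (k8 a4737 a3237 a4662 a4632 a4560 a440 a4369 i118 (k2 a4671 a558 (k1 a437 k0)))) (by decide +kernel)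
def a4742 : PP 8 4 T 0x2000000000000000000000000000000000000000008000000400014000000000008 := rS 0xb52c8c09e498295d5667 (k8 a4738 i537 a4737 a4736 a4560 i1351 a4739 a4741 (k2 a1692 a4740 k0)) (by decide +kernel)
def a4743 : PP 8 4 T 0x2000000000000000000000000000000000000000008000000400014000000000000 := rS 0x222872c2d596bda2a169e985da08d48b32abcba0001b359eab33c5536912612e331340adcfa7f863f49e49299e20a57 (k8 a4737 a4736 a4719 a4643 a4560 i1351 a4701 a4371 (k8 a35 a340 a4402 a4475 a4646 a4632 a4391 a440 (k8 a110 a412 a51 a4738 i537 a4725 i1972 a4742 (k8 a4385 i2259 i2261 i963 i1853 a4519 a4396 i1946 (k8 a4508 a394 i1868 a48 i1990 a1579 a4554 a4431 (k2 a358 a373 (k1 a436 k0))))))) (by decide +kernel)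
def a4744 : PP 8 4 T 0x2000000000000000000000000000000000000000008004000800004000000000004 := rS 0xc8316516222b4608855aa313954461d128ad4a0644174344220824002d4885c984b40add427d3f87e18fd27924a67b3c4155667 (k8 i1617 i537 a4736 a4719 i60 a4643 a4560 i1351 (k8 a4701 a4371 a81 a35 a340 a4485 a4402 a4475 (k8 a4391 a440 a4369 a110 a4405 a4385 i1349 i788 (k8 i445 i446 i2259 i448 i447 i208 a818 i204 (k8 i782 a4515 i2534 i785 i280 i2861 i1529 i1533 (k4 i2030 a444 a1692 a4554 (k2 a1332 a4521 (k1 i962 k0)))))))) (by decide +kernel)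
def a4745 : PP 8 4 T 0x2000000000000000000000000000000000000000008000000000014000000000000 := rS 0x62371c8099e9d338358ac323464769f2bc14f04b (k8 a4391 a4719 a4736 a4737 a3237 a4662 a4632 a4743 (k8 a354 a366 i26 i1617 a4419 a4725 a4744 a401 (k2 a446 i1003 (k1 a262 k0)))) (by decide +kernel)
def a4746 : PP 8 4 T 0x2000000000000000000000000000000000000000008000000800010000000000000 := rS 0x1014aa301254ff0c10b055ab5278951e1d440bc341911c40b27533154cb052b8c82e4c2492d42fd29c55a62d (k8 a4405 a4733 a51 a4643 a4701 a4485 a4391 a4560 (k8 a440 a4369 a4745 a4737 a4736 a4414 i792 a4457 (k8 i1587 a4652 a362 a9 i232 a437 i317 a120 (k8 i782 i874 i287 i1351 a1692 i1353 i1614 i1612 (k8 a4371 a35 i3001 i1618 i281 i2067 i188 a4479 k0))))) (by decide +kernel)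
def a4747 : PP 8 4 T 0x2000000000000000000000000000000000000000008000000000010000000000000 := rS 0x3196ab21024000323ad4b2752a998ca322b930964f2494dfb05 (k8 a4736 a4701 a4643 a4560 i1351 a4391 a440 a4737 (k8 a4745 a4414 a4457 i792 i1587 a4652 a1692 a4746 (k8 i192 a4385 i1349 i445 i2260 i2263 i449 a4526 k0))) (by decide +kernel)
def a4748 : PP 8 4 T 0x2000000000000000000001000000000000000000088004000000000000000000000 := rS 0xab65aee9e824322cba422086c4b10262056e7f863f49e49299555a612ca3c666b0603c8f0572845e0391d9e097191b8080234 (k8 a4747 a4376 a4385 a446 a4632 a4391 a4719 a4662 (k8 a401 a419 a441 a364 a4736 a4377 a4386 a425 (k8 i467 i70 a4629 i544 i37 i1622 a4681 a4643 (k8 a4560 i1351 a4701 a4371 a35 a4402 a4475 a440 (k8 a362 a423 i356 i787 a3000 a543 i1853 a3812 (k4 a4366 a20 i1683 a3949 (k2 a899 a4420 k0))))))) (by decide +kernel)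
def a4749 : PP 8 4 T 0x2000000000000000000000000000000000000000008008000000000000000000000 := rS 0x10036433b930924b11a3c6634 (k8 a4747 i70 a4629 i247 a4391 a4560 a440 i1628 (k4 i442 i357 a3000 i787 k0)) (by decide +kernel)
def a4750 : PP 8 4 T 0x2000000000000000000000000000000000000000088000000000000000000000000 := rS 0xb52c93c9305478cc6857 (k8 a4749 a4747 i70 a4629 a4736 a4560 i1351 i544 (k2 a1692 a4748 k0)) (by decide +kernel)
def a4751 : PP 8 4 T 0x2000000000000000000000000000000000000000008000000000000000000000000 := rS 0x88908ee58209901c670123caa0119c5c6905 (k8 a4736 a4747 a348 i70 a4376 a4681 a4629 a4385 (k8 a4750 a4378 a4379 i339 a4703 i1547 a3000 a373 (k1 a303 k0))) (by decide +kernel)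
def a4752 : PP 8 4 T 0x2100000000000000000000000000000400000000040020000000020000000000000 := rS 0x21904040e238062277 (k8 a4383 a373 a4376 a4377 a4378 a4385 i867 a303 (k1 a3000 k0)) (by decide +kernel)
def a4753 : PP 8 4 T 0x2000000000000000000004000000000000100000002100440000800200010000080 := rS 0x20d5e3c (k4 i1158 a182 i1255 a4396 k0) (by decide +kernel)
def a4754 : PP 8 4 T 0x2000000000000004010005000005141000100054000024000000415002008000008 := rS 0x833cc4cf6cc154618d112ab0c7237 (k8 a446 a401 a487 i118 a373 i2035 a4633 i410 (k4 i411 a390 a8 i1972 (k2 i894 a3879 k0))) (by decide +kernel)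
def a4755 : PP 8 4 T 0x400000000000000002000000000000004010005000001141000100044000124400000015202018000008 := rS 0x5704506f042c653c3b43c449e391b818c071 (k8 i1239 i1000 i1001 a446 a401 i870 a373 a358 (k8 a4753 a4754 a33 i1606 a419 a197 a441 a4396 (k1 i459 k0))) (by decide +kernel)
def a4756 : PP 8 4 T 0x2100000000000004000000000001000000000000000224020020014000000000000 := rS 0x27c77193c22a22556192c3402 (k8 i788 i787 a4384 a487 i118 a373 i531 i532 (k4 a52 a4662 a3237 a4633 k0)) (by decide +kernel)
def a4757 : PP 8 4 T 0x2000000000000004010005000001141000100044000124400000415202018000008 := rS 0x27a9c71 (k4 i1239 a4755 a4754 a26 k0) (by decide +kernel)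
def a4758 : PP 8 4 T 0x2000000000000004010005000101151000100044000124400800415402018000008 := rS 0xae08a0de0858cd3d3c718a019a6c016a1e224f1c8dd12a35cc59ca63 (k8 a4751 a409 a429 a465 i325 i191 a446 a401 (k8 i870 a373 a358 a4757 a4125 a44 i1534 a120 (k8 a117 a4754 a26 a33 i1606 a419 a197 a441 (k2 a4396 i459 k0)))) (by decide +kernel)
def a4759 : PP 8 4 T 0x2000000001000000000004000540010010108000000100440800015500000000000 := rS 0x8238abe280669b017316 (k8 a429 a465 a4125 a44 i1534 a120 i460 a117 (k2 a4396 i815 k0)) (by decide +kernel)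
def a4760 : PP 8 4 T 0x2101000000000004410001001001001000000040000124400800015002018000008 := rS 0xc006161e94e3a4aa95568972a8d2e9940adc5ea137c309e63 (k8 a4751 i870 a4371 a357 a4485 i317 a4402 a4475 (k8 a837 a989 i325 a409 i191 i582 i209 a476 (k4 a4758 i2200 i395 a4759 (k2 i1001 i1000 (k1 a4753 k0))))) (by decide +kernel)
def a4761 : PP 8 4 T 0x2001001001000000810000000000000000400000000120440000000000000000040 := rS 0x31e9eae3530d02b7 (k8 a4402 a4475 a487 a1899 a4396 a394 a3104 a379 k0) (by decide +kernel)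
def a4762 : PP 8 4 T 0x2101000000000004000001001001001000000040000124400040015000018000008 := rS 0xed3ec75e9ee8a82789c52b1416a9cc207a1afd946f17c3142b740b0c9e1f233141a0f1c8dd12a35cc59ca242025d3263 (k8 a4751 a837 a989 a3000 i866 a409 a429 a465 (k8 i325 i191 a446 a401 a4456 i461 a277 i867 (k8 a4367 i870 a487 a4475 a4402 a4485 a4371 i317 (k8 a357 a4760 a396 a105 a2994 i1391 a1825 a3572 (k8 a438 a14 a117 a3235 a4761 a48 i815 i1415 (k4 a3078 a856 i395 i2035 k0)))))) (by decide +kernel)
def a4763 : PP 8 4 T 0x2101000000000004000001001001001000000040000124000040015000018000008 := rS 0xa1a554ad3608bc5acb50020e30d292ac1a1f3fa8d2689728908063 (k8 a4751 a3000 i866 a409 i191 a1020 i325 i2583 (k8 a4367 i461 i582 a4762 a375 i798 i827 i826 (k8 i622 a3164 i318 i1266 a344 i364 a476 a2282 (k1 a393 k0)))) (by decide +kernel)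
def a4764 : PP 8 4 T 0x2002000000000004011001000100001000040040000120000000015402008000008 := rS 0x136994f8ea9d1963b352f45413c618d23ed0e2a9488b0c723744a8d7316728b4c263 (k8 a4751 a397 i1000 a409 a429 a465 i325 i191 (k8 a446 a401 a487 a373 a4125 a14 a121 i1598 (k8 a120 a403 a3219 a1590 a48 i1376 i894 i411 (k4 a4580 a379 a419 a26 (k2 i1106 i1181 (k1 a422 k0)))))) (by decide +kernel)
def a4765 : PP 8 4 T 0x11002000000000000000000000000020101000800020000000000000000000000000000 := rS 0x1347b (k2 i2567 a3055 (k1 i1448 k0)) (by decide +kernel)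
def a4766 : PP 8 4 T 0x2100000000000004000001000001000000000040000024020040014000000000000 := rS 0x9f638ecf0cd3da0107195b9f53270501be2a2e60a955a6129825f85d49b9512371cb14627f12118041a0c8741a012030c96915485c1e63 (k8 a4751 a4456 a4369 a3454 a110 a4384 a487 a3000 (k8 i445 i461 i2543 i181 i787 i788 i867 i866 (k8 i2583 i1532 a277 a401 a446 i191 a409 a1020 (k8 a4756 a4763 a369 a421 a397 a420 i208 i1533 (k8 a4764 a363 i1053 i317 i318 a3192 i1360 i802 (k8 a2965 a4765 a4365 i1894 i1975 i1363 i395 i411 (k2 a3237 i2035 k0))))))) (by decide +kernel)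
def a4767 : PP 8 4 T 0x1012000000000000040000000000010100000400020001100420000000000008000000 := rS 0xb438800fadc3263 (k8 a4751 i67 i802 i1357 a4365 a377 i2828 i782 k0) (by decide +kernel)
def a4768 : PP 8 4 T 0x112000000000000000800001000000000000040000000000000000000000000000000 := rS 0xfb43 (k2 a105 a4389 (k1 a403 k0)) (by decide +kernel)
def a4769 : PP 8 4 T 0x102000000000000000000000000000000000000000020000000080000000108400000 := rS 0x4a30068000641 (k4 i21 i188 i780 i1492 (k2 i962 i859 (k1 a1332 k0))) (by decide +kernel)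
def a4770 : PP 8 4 T 0x2102000000000000000001000000010400000000040024000000000000008000000 := rS 0x1e227148406e79451ad3ebda2a0a270ca1afd942b2e800ca4239b3d3a331083c6a17261249711579fca663 (k8 a4751 a421 i844 a427 a373 a4384 i868 a440 (k8 a4369 a4752 a4456 i724 a4457 a4419 a4458 a4435 (k8 a4766 a4769 i780 a543 a416 a4150 a396 a105 (k8 a4768 a2220 a1590 a48 i1415 a856 a4694 a4418 (k4 a4519 a4382 i451 i275 (k2 i786 a441 (k1 a127 k0))))))) (by decide +kernel)
def a4771 : PP 8 4 T 0x2000000000000000000001000000000000800000800120000000000000000000000 := rS 0x42d3d0f11 (k4 a373 a358 a394 i1868 (k1 a197 k0)) (by decide +kernel)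
def a4772 : PP 8 4 T 0x2102000000000000000001000000000400000000040024000000000000008000000 := rS 0x13e9aa71e90a7935a0a270c3ed0d29195c9fcc25343a44ba938b194847367a746621078d42e4c2492e2263 (k8 a4751 a373 a4384 i868 a440 a4369 a4752 a4456 (k8 i724 a4457 a4419 a4458 a4435 a4766 a4769 a4379 (k8 a19 a543 a110 a358 a421 a397 i844 a4425 (k8 a4447 a4770 a121 i1598 a403 a2220 a1590 a4771 (k4 a4519 a545 a406 a197 (k2 i816 a26 (k1 i1181 k0))))))) (by decide +kernel)
def a4773 : PP 8 4 T 0x2100000000000000000001000000000400040000040024000000000000008000000 := rS 0x1c43914308c54a2527a4552412e88da62f62800ca4239b3d3a331083c6a178887dfa4c2492c3263 (k8 a4751 i67 a4384 i868 a440 a4772 a4368 a373 (k8 a4369 a4752 a4456 i724 a4457 a4419 a4458 a4435 (k8 a4766 a4769 i780 a4100 a895 a3515 a4515 a543 (k8 i21 a3454 a110 i870 a4520 a164 a1332 a3521 (k4 a438 a4522 a117 i781 k0))))) (by decide +kernel)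
def a4774 : PP 8 4 T 0x2100000000000040804000015020151004080000451104004000000041108000002 := rS 0x5116ca778b30202763a287aaf14a16327919a7446c549c587e63 (k8 a4751 i402 a4379 a19 a4100 a4515 a4419 a4457 (k8 a4519 a4448 a545 i275 i625 a3724 a4114 a4098 (k8 i825 i451 i2032 a441 i1912 i848 a442 a116 k0))) (by decide +kernel)
def a4775 : PP 8 4 T 0x10002000000000000040010000000000040081080000000020000004004051508000002 := rS 0x29e8abc5b3307af16389c70101ba1d863b (k8 i394 a487 a358 a4382 i451 i452 i786 a1190 (k8 a441 i1877 i2032 i848 i849 a116 i1984 a442 k0)) (by decide +kernel)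
def a4776 : PP 8 4 T 0x10002100000000000040000000005020151001081000051020000000000041108000082 := rS 0x3358e274faf54c3d5722c66c5a1b28eabf43b922223258fc5263 (k8 a4751 i275 i402 a4384 a4515 a373 a107 a358 (k8 i1723 i1667 i845 a133 a4100 a4457 a4775 a4112 (k8 a1827 i460 i1987 a551 i825 i337 i849 a3618 k0))) (by decide +kernel)
def a4777 : PP 8 4 T 0x400000000000022102000000000000000000000005000001405080500001000000000000000000000000 := rS 0x2f15ccc (k4 a2342 a561 i849 i1987 k0) (by decide +kernel)
def a4778 : PP 8 4 T 0x2100000000000000000001000000000400000000040024000000000000008000000 := rS 0x19b133c4650b4f354500c610eab540253ab2a1a7e0fa652e957e99400d30ca1e2255619dd56915485c420f15974843539b3d3a33261249663 (k8 a4751 a4384 i868 a440 a4457 a4419 a4458 a4435 (k8 a4752 a4766 a543 a416 a4456 i724 a4369 a3454 (k8 a110 i582 a4383 a487 i118 a373 a358 i67 (k8 a3515 i780 a4769 a4772 a1042 a989 a837 a4368 (k8 a4773 a35 i845 i1667 i2581 a897 i1555 i719 (k8 a3124 i820 a438 a4774 a394 i1868 a4777 a4776 (k2 a398 i1972 (k1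 a436 k0)))))))) (by decide +kernel)
def a4779 : PP 8 4 T 0x2001000000000000000000000100000400080000000020040000010000004000000 := rS 0x45146e43088c0cd38b0b412750eb04e2ca291f61b113b9cd5225188602e2107a240401261249663 (k8 a4751 a4384 i868 a440 i446 a4385 i191 a4456 (k8 i724 a4369 a437 i1042 i348 a3454 a4435 a4383 (k8 a373 a35 i101 i844 i845 i799 i1515 i719 (k8 a546 a4401 i1040 a466 a2387 a1807 a1819 i1223 (k4 a107 a555 a438 a2519 k0))))) (by decide +kernel)
def a4780 : PP 8 4 T 0x12000000000000040000010000100014010040000000000000000014500112000000 := rS 0x28c3ca1 (k4 i310 a377 a263 a1272 k0) (by decide +kernel)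
def a4781 : PP 8 4 T 0x102000000000000000002000000000000000010000000000000000000001100000000 := rS 0x46e5 (k2 a408 i1573 (k1 a107 k0)) (by decide +kernel)
def a4782 : PP 8 4 T 0x2101000000000044000011000001000000040000001120001000014040012000008 := rS 0x1da7cf6bda2c4d042757afc0cca04a8a86c15b94d027d8621d864f55a4462a510c44723744b141a25078b45e95499c628a90b9309663 (k8 a4751 a4384 a440 a4369 a3454 a438 a117 a115 (k8 a14 a363 i1000 a4456 i348 i462 a277 i191 (k8 a446 a401 a373 i724 a164 i1042 a110 i582 (k8 i870 a487 a358 a4780 a340 a4 a383 a118 (k8 a4781 a2282 i2033 a3522 a3275 a1807 a396 a511 (k8 a4501 a4396 a4535 a48 i1415 i815 a856 a203 (k1 a3010 k0))))))) (by decide +kernel)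
def a4783 : PP 8 4 T 0x2101000000000040000001000000000400000000041024000000000000000000000 := rS 0xed3e273daf68b13412bd7eca5150d823f3eadd020629870e2934a8be282d5ca1d86ab48aa4565d211cd9e9d198c472374480802c5069fd4a250c05c9849258841f110d8d49e63 (k8 a4751 i870 a4752 a4778 a373 a4456 i724 a4384 (k8 i868 a440 a4369 a437 i348 a164 a4779 i462 (k8 a277 i446 a4385 i191 a446 a401 i1042 a4457 (k8 a4419 a4458 a4435 a4766 a543 a416 a3454 a110 (k8 i582 a487 a358 a4425 i1000 a438 a363 a14 (k8 a115 a117 a4782 a1820 a4343 a4475 a4402 a4358 (k8 a458 a4781 a2282 i2033 a3275 a396 a511 a4396 (k8 a4535 a48 i1415 i815 i736 a856 a203 a3010 k0)))))))) (by decide +kernel)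
def a4784 : PP 8 4 T 0x102101000000000040000000004100004010000000002000040000015101100001000 := rS 0x5c32d82a30401c5e95 (k8 i1019 a1830 i1223 a1807 i201 i1266 a4401 i2033 (k1 a4426 k0)) (by decide +kernel)
def a4785 : PP 8 4 T 0x2101000000000040000001000000000400000000040024000000000000000000000 := rS 0x21a533701858a1498bcc03327aac620d5289430171083c6b1144808021b261249663 (k8 a4751 a4384 i868 a440 a4778 i446 a4385 i191 (k8 a373 a4752 a4456 i724 a4369 a437 i348 a164 (k8 i462 i1042 i582 i870 a4457 a4783 a1830 i1282 (k4 i310 a4784 i1001 i1039 (k2 i454 a357 (k1 a4371 k0)))))) (by decide +kernel)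
def a4786 : PP 8 4 T 0x2000000000000000000021000000000400000000000020000000000000000000000 := rS 0x3ac5e2277 (k4 a4383 a373 a465 i1066 (k1 a466 k0)) (by decide +kernel)
def a4787 : PP 8 4 T 0x2001000000000000000000005000020000000000000000000000000000000000000 := rS 0x1862a63 (k4 a4751 a14 i1019 a438 k0) (by decide +kernel)
def a4788 : PP 8 4 T 0x2100000000000000000000000000008000000000040000000000000000000000000 := rS 0x1962e63 (k4 a4751 a19 i1550 a4379 k0) (by decide +kernel)
def a4789 : PP 8 4 T 0x2100000000000000002001000000000400000000040024000000000000000000000 := rS 0x2b1f84669b941e0d128603617261249635 (k8 a4752 a4384 i868 a440 a4369 a4778 a437 i348 (k8 i462 a4456 a408 a44 a425 a4785 i1533 a420 k0)) (by decide +kernel)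
def a4790 : PP 8 4 T 0x2000000000000000000001001000020010000040000120000000000540000000000 := rS 0x3fc340e5304b49f87da1c5622ab (k8 i582 a373 a14 a121 i1598 a4787 a120 a369 (k4 a421 a402 a3994 i844 (k1 a403 k0))) (by decide +kernel)
def a4791 : PP 8 4 T 0x2100000000000000000001000000000400000000040024000000000500000000000 := rS 0x7f86984a7147e1f5a74351255429348aa4565d211cd9e9d198c54a250c05c420f1ac4512020086c984925ae58263 (k8 a4751 a4789 a4786 a4384 i868 a440 a4778 i446 (k8 a4385 i191 a373 a4752 a4456 i724 a4369 a437 (k8 i348 a164 i1042 a4457 a4419 a4458 a4435 a4766 (k8 a543 a416 a3454 a110 a4788 i310 a4790 i2033 (k8 a2282 a99 i1594 a4785 a120 a421 a397 a3711 (k2 i844 a403 k0)))))) (by decide +kernel)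
def a4792 : PP 8 4 T 0x402000000000000000000004000000001000800000000000000000800840000000000 := rS 0x991f1e852f1 (k4 a355 i255 a203 a2105 (k2 i1940 i405 k0)) (by decide +kernel)
def a4793 : PP 8 4 T 0x22002000000000004010001000001000000000000000120001000014840000001008 := rS 0x2169e9e138fc768289add0f1161a44984b (k8 a4384 a440 a110 a487 a373 a358 a118 a2220 (k8 a1590 a4792 i404 i736 a3010 a26 i1606 a197 k0)) (by decide +kernel)
def a4794 : PP 8 4 T 0x1412000000000000004010001000001400000810000001020001004414040000001008 := rS 0x13c9813a5e8a8788b0d22a90b9309663 (k8 a4751 a4384 a440 a4369 a3454 a110 a487 a373 (k4 a358 a48 i1376 i736 (k2 a162 a3010 (k1 a2302 k0)))) (by decide +kernel)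
def a4795 : PP 8 4 T 0x412100000000000004000005040001000000010000000024401000414800000001008 := rS 0x4f1e04e80418fd36876193c565d1bb141f15309c14242399309663 (k8 a4751 a4384 a440 a4435 a4766 i819 a183 a1830 (k8 a363 a4456 a277 a446 a543 a416 i870 a487 (k8 a358 i1175 i404 a4794 a4396 a4360 i1363 a3010 (k1 a3237 k0)))) (by decide +kernel)
def a4796 : PP 8 4 T 0x412100000000000004000005040001000000010000000024401000014800000001008 := rS 0x81418a4744f488acba1c0fa8484732612da663 (k8 a4751 a359 a4384 a440 a4435 a4766 i819 i239 (k8 a377 a543 a416 a110 i870 a4795 i255 a4792 (k2 i1236 a4396 k0))) (by decide +kernel)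
def a4797 : PP 8 4 T 0x12000000000000000000008000000000000000020000000000000040040060400000 := rS 0x771913260f483 (k4 i151 i801 i802 i721 (k2 a390 a2949 (k1 a1276 k0))) (by decide +kernel)
def a4798 : PP 8 4 T 0x2100000000000000000001000000000400000000040024000000000800000000000 := rS 0x44d6e7d380721aa15794df81f698acba4239b3d3a331b80802c506894301b0b930924b078d58263 (k8 a4751 a4789 a4752 a4456 a4384 i868 a440 a4369 (k8 a4778 a437 i348 i462 a277 i446 a4385 a446 (k8 a4457 a4419 a4458 a4435 a4766 a543 a416 a359 (k8 i239 a4785 a421 a427 i819 a4793 a377 a183 (k4 i1233 a4797 a4532 a4796 k0))))) (by decide +kernel)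
def a4799 : PP 8 4 T 0x2100000000000000000001000000000400000000040024000000000000000000000 := rS 0x3f0c0d3160bc04010d930924b (k8 a4384 i868 a440 a4778 i446 a4385 a4798 a4791 (k4 a329 i1000 a4785 a397 k0)) (by decide +kernel)
def a4800 : PP 8 4 T 0x102002000000000004014011001111004804000000000100000000014440001000008 := rS 0x3e638a5e34e1d27d9a824846619143ed0d442d57984fe951c8dd12c1720c62e63 (k8 a4751 a432 i2676 a429 a408 i191 a446 a401 (k8 i1103 a930 a397 a427 i1000 i2033 a2282 i1594 (k8 a447 a403 a561 a3711 a1590 i894 i1188 a217 (k4 a463 a355 i254 a59 (k2 a2105 i406 k0))))) (by decide +kernel)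
def a4801 : PP 8 4 T 0x2100000000000004400001000001004800000000020120002080004440000000008 := rS 0x15c1141bc199194f0ed8e3d5ba04a606398b146fd43b0c9eab54a54723744a854a25889c572c50683d82e41a8842c190d8c62e63 (k8 a4751 a432 i2676 i873 a2997 a437 i2480 i1117 (k8 a429 a408 i596 i1491 a277 i1027 i877 a373 (k8 i2594 a2083 i2573 i191 a446 a401 i1103 i1088 (k8 i582 i870 a487 a358 a4800 a3275 i2033 i2673 (k8 i1001 i828 a4475 a4402 a4511 a4512 i1158 a4618 (k4 a33 i1188 a419 i894 (k2 a441 a4396 (k1 i459 k0)))))))) (by decide +kernel)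
def a4802 : PP 8 4 T 0x2100000000000000000001000000000000000000040024000000000000000000000 := rS 0x998c3193e831fabd463b3e94df9423907136618ab4c5cc162ae5c85d06b2c1e350b0c46e39210ac4219548088248320052a4d0dc5d1c4f25b0d0e334eb3d2663 (k8 a4751 a4788 a4458 a4419 a4457 a358 a487 a4384 (k8 i870 a4799 a432 i873 i875 i1103 a4304 a4379 (k8 a440 a506 a4385 i1088 a2997 i2480 a818 a3000 (k8 a401 a446 i2676 a437 i1117 i596 a542 i1491 (k8 a212 a429 i1027 a277 a408 a4801 a359 a363 (k8 a1830 i2803 a495 i1079 a447 a438 i829 i1233 (k8 a4460 a395 a427 i404 a255 a4543 i2035 a262 (k2 a3182 a2965 k0)))))))) (by decide +kernel)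
def a4803 : PP 8 4 T 0x2002000000000000000000000000000000200040000000000000540000020000000 := rS 0xf18c8f13263 (k4 a4751 i1864 i1235 a2965 (k2 a365 a419 k0)) (by decide +kernel)
def a4804 : PP 8 4 T 0x10402100000000000004010001014101001000804060000015444000555000000000000 := rS 0x194bba7995849f639e01e63 (k8 a4751 a4456 a406 a1190 a3237 i2035 a4618 a13 (k2 i1945 a4513 (k1 a2892 k0))) (by decide +kernel)
def a4805 : PP 8 4 T 0x2102000000000000010001000000000000000000040104000080410840000000000 := rS 0x43085860d3227e30273da09023f4da759e938aae4c2ab1c83d4a9189a159a310c1d56e700e284a6d38695436332612cfaad2787c6e0200aa42e7324a3cb263 (k8 a4751 a4802 a4353 a2898 a4435 i1079 a450 i1077 (k8 a4385 a446 i239 a74 a420 a1978 i437 a440 (k8 a4457 a895 a4613 a4648 a359 a421 i819 a377 (k8 a183 a4797 a1851 a437 i1041 a2010 a1949 a4516 (k8 a110 i365 a4456 a401 a97 a1830 a4425 a363 (k8 a4788 a4458 a4419 i1175 i404 a4803 a4365 i816 (k8 i736 a4804 a33 a4447 i1491 a276 a4692 a3010 (k1 a4441 k0)))))))) (by decide +kernel)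
def a4806 : PP 8 4 T 0x2102000000000000010001000000000000000000040104000080010840000000000 := rS 0x40a0c523a5b9c0391386a44aa4c5086c963366a15a7153094c9e7d5685c3e7324a3cb237010055263 (k8 a4751 a450 i1077 a4385 a446 a4802 a4353 a2898 (k8 a4435 i239 i1079 a420 a1978 a74 a421 a1830 (k8 a363 a359 a1949 a2010 a4457 i437 a895 i819 (k8 a440 a4613 a110 a4648 a4516 a377 a183 a4797 (k4 a4805 i255 a4792 i1236 (k1 a4365 k0)))))) (by decide +kernel)
def a4807 : PP 8 4 T 0x812102000000000001000001000800810040010000040000008020001001400004000 := rS 0x28a84c63fc441a743224d0e63 (k8 a4751 a69 a4788 a4466 i1049 i1491 a453 i1667 (k4 a2943 a403 i336 a395 k0)) (by decide +kernel)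
def a4808 : PP 8 4 T 0x2102000000000001010001000000000001010000040100001020810840400000000 := rS 0x2060a513499530fcdc71458f68aa0129296c81868609b12418c4367961bc5a66129abd52170f9cc1e29138749e63 (k8 a4751 a74 i741 a331 a443 a4456 a4435 i239 (k8 i1079 a450 a427 a421 a1830 a359 a355 i373 (k8 i1070 i394 i1159 a1898 a127 i787 a437 a1590 (k8 a45 a4535 a440 i348 a377 a116 i1783 i491 (k8 i795 i311 i2233 a442 a3697 i335 a4807 i1517 (k2 a4138 i824 k0)))))) (by decide +kernel)
def a4809 : PP 8 4 T 0x1812002000000000000000000000000400000000058000000000000000000000000000 := rS 0x4668a974cad9027929abc9e63 (k8 a4751 a74 a427 a421 a398 a45 a4535 a3697 (k4 i1323 a116 a2965 a422 k0)) (by decide +kernel)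
def a4810 : PP 8 4 T 0x2100000000000000050000000004000040000000040000000000411000000010008 := rS 0xd40c32b08669d678e46e0f (k8 a4456 a446 a401 a4458 a4419 a4457 i2035 a4618 (k2 a276 a4454 (k1 i467 k0))) (by decide +kernel)
def a4811 : PP 8 4 T 0x400000000000000402102000000000001010000000120000005000008041000008000000055400004000 := rS 0xc31083582ca4a994eb1049ae552ad55b1de063 (k8 a4751 a127 a27 a97 a420 a450 a4425 a4788 (k8 a436 a453 i1049 i1057 a4374 i1246 i466 i824 (k2 a276 i2032 k0))) (by decide +kernel)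
def a4812 : PP 8 4 T 0x1012102000000000001000000000008400000400020040000024000000000000000000 := rS 0xea552c9dd30bd5aa1e8ab640975767929984ae63 (k8 a4751 i529 a397 a421 a3237 i1686 i532 i1363 (k8 a4365 a116 i2560 i887 i1988 i802 i1715 a4802 (k2 i791 a1851 (k1 a4463 k0)))) (by decide +kernel)
def a4813 : PP 8 4 T 0x1002102000000000001010000000100000005000524040010020000000054508004000 := rS 0x3081ac712b2a27103f954a6ad55a3cfa935a93cae63 (k8 a4751 i529 a74 a1692 a4788 i1360 i875 a97 (k8 a420 a421 i791 i799 a362 a4438 a4397 a423 (k4 a1581 i466 i2032 a276 k0))) (by decide +kernel)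
def a4814 : PP 8 4 T 0x2102000000000001010000000004000005000104040010020020010840000000000 := rS 0x5b204f7128c30c62258b9d8a6af27c5472371980802a94eb3c1ea51489c4657108ece01a (k8 i787 i318 i394 i2544 i529 i185 a331 a443 (k8 i365 a4456 a4458 a4419 a450 i1077 a4385 i193 (k8 a446 a401 a363 a74 a427 a421 a4813 a332 (k8 i804 i1507 a3115 a262 a2701 a390 a45 a4535 (k1 i801 k0))))) (by decide +kernel)
def a4815 : PP 8 4 T 0x402102000000000001000000000000000000000820040000024000000840008000000 := rS 0x13e3141c3536216389d403b2003e2a391b8cc040154a74c917 (k8 a332 a4379 a4419 a450 i1077 a4385 i193 a446 (k8 a401 a363 i2206 i188 i394 i317 i786 a1581 (k4 i2544 i1175 a413 i919 (k2 i1507 a4812 (k1 a4618 k0))))) (by decide +kernel)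
def a4816 : PP 8 4 T 0x402102000000000001000000000000000000000820040010024000000840000000000 := rS 0x710868410d950c9171980802a9 (k8 a450 i1077 a4385 i193 a332 a4379 i1547 a4815 (k4 i787 a4613 a3000 a4378 (k1 i595 k0))) (by decide +kernel)
def a4817 : PP 8 4 T 0x2102000000000000010001000000000000000000040000020080010840000000000 := rS 0xba57 (k2 i529 a543 (k1 a4806 k0)) (by decide +kernel)
def a4818 : PP 8 4 T 0x2102000000000001000000000000000008000020040010005000000840000000000 := rS 0x9e86b1d401a2010c4e3110b0c1a83528d4769b6503cf67f2a9dd8b13299855aab69c5512391b8cc040154a759e91479f526b5279d4ae4c (k8 a440 i529 a1851 a74 a1692 a4788 i1360 i875 (k8 a110 a4458 a4419 a450 i1077 a4385 i193 a446 (k8 a401 i92 a363 a359 a97 a420 a397 a421 (k8 a69 i1524 a4816 i791 i799 i817 a2904 a4397 (k8 i1448 a203 a4378 a4449 a3949 i466 a276 a4692 (k8 i1003 i737 a4817 a3000 i787 i317 a1581 a413 (k2 i2035 a4812 k0))))))) (by decide +kernel)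
def a4819 : PP 8 4 T 0x2102000000000000000000000000000004000000040010024020000840000004000 := rS 0x552ec4818f16227cea8566ad4a64f8a95c6a27109bc329b1dc3506a03e9c03493 (k8 a4788 i787 i318 i1360 i317 i919 a413 i394 (k8 i1175 i181 i1053 i2544 a331 a4378 i529 a363 (k8 a74 a421 a1692 a2010 a1949 a1851 a4812 a4814 (k4 a49 a277 a1043 a761 (k2 i1489 a4516 k0))))) (by decide +kernel)
def a4820 : PP 8 4 T 0x2102000000000000000000000000000004000040040000024020000840000004000 := rS 0x4fc6462c55fd0d325d231fd68c388960fa8338280761a29abc9e391b8cc040154a759e934895c6a63 (k8 a4751 a4378 i529 a110 a4788 a4458 a4419 a450 (k8 i1077 a4385 i193 a446 a401 a74 a427 a421 (k8 i787 i394 i317 i318 i919 i1360 a4819 a373 (k8 a487 a4802 i844 i867 a4756 a3192 a84 i1455 (k4 a366 i1532 a2965 a4413 (k1 a262 k0)))))) (by decide +kernel)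
def a4821 : PP 8 4 T 0x2002000000000044014002000005000004400020000000021080014040040401008 := rS 0x503a13a0226b70e4349e37489754253 (k8 a421 i819 a543 a110 a446 a74 a1590 a377 (k4 a4797 a4532 a4361 a4360 (k2 a3010 i1236 (k1 i255 k0)))) (by decide +kernel)
def a4822 : PP 8 4 T 0x2002000000000004014002000005000004000020000000021080014840000001000 := rS 0x987e3b89add04d30b87ce60200aa52263 (k8 a4751 a110 a450 i1077 a4385 a4435 i239 i1079 (k8 a359 a4821 i151 a68 a4792 i404 a3010 i736 k0)) (by decide +kernel)
def a4823 : PP 8 4 T 0x400000000000010002000000000000000000000000000005001801000000020000000000840000000000 := rS 0x4c26cf4be1dc4d6f15 (k8 a363 i151 a68 a4792 a548 a406 i1175 a4241 (k1 i1940 k0)) (by decide +kernel)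
def a4824 : PP 8 4 T 0x2102000000000000000002000008005000000040000124004000000840000000000 := rS 0xbf419e50b19a7abc9f113f94cfb43 (k8 a84 i126 a421 i844 a373 a74 a427 a26 (k4 a33 i1606 a3237 a4823 (k2 i1455 a4413 k0))) (by decide +kernel)
def a4825 : PP 8 4 T 0x2102000000000000000000000000000004000000040020005000000840000004000 := rS 0x987e3b4144d6f0c38a7d8a0d5a30c669d67a4d22572ea8484531286036412600802a90b9cc6a63 (k8 a4751 a4378 a4435 i1079 a450 i1077 a4385 a440 (k8 a4820 i188 a437 i348 a421 a3000 i819 a543 (k8 i529 a110 a4788 a4458 a4419 i193 a487 a4802 (k8 i462 a277 a4824 a4822 a183 a118 a2220 a1590 (k4 a4792 i404 a3010 i736 k0))))) (by decide +kernel)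
def a4826 : PP 8 4 T 0x2102000000000000000000000000000004000000040000005000000840000004000 := rS 0xc4352159ab52c954ba1b211046a4f398cc04015495c9863 (k8 a4751 a440 i529 a450 i1077 a4385 i193 a4435 (k8 a74 a4378 a4820 a3000 i188 a543 a4613 a4825 (k4 a1692 a2010 a1949 a460 (k2 a4806 i1790 k0)))) (by decide +kernel)
def a4827 : PP 8 4 T 0x2100000000000000000000000000000000000000040000020000000000000008008 := rS 0x86412c86c688f (k4 i875 a4456 i2206 a4752 (k2 i787 i595 (k1 a3000 k0))) (by decide +kernel)
def a4828 : PP 8 4 T 0x2102000000000000000000000000000000000000040000005000000840000000000 := rS 0x400d90ce2b562b34b2862795c6a0f2600802a9 (k8 a450 i1077 a4385 a440 a4827 a4378 i529 a74 (k8 a4826 a358 i153 i1524 a1692 a4818 a4817 i318 (k2 a3000 i787 k0))) (by decide +kernel)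
def a4829 : PP 8 4 T 0x400000000000004002002000000000044010000000005004000000000000000000004054081008000000 := rS 0x25686be512998c988c44de263 (k8 a4751 a61 a8 a463 a2965 a4589 a599 a3182 (k4 i337 a395 i1725 a701 k0)) (by decide +kernel)
def a4830 : PP 8 4 T 0x2102000000000044000000000021004008000020000006464004014080000000000 := rS 0x20d027a3ca7a2e253b0dc045d0d3c56eafa7b144240 (k8 a818 i2544 i1523 a20 a427 i851 a61 i787 (k8 a761 i788 a446 i791 i2549 a332 a4829 a3237 (k4 i1716 i1363 i2567 a4396 k0))) (by decide +kernel)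
def a4831 : PP 8 4 T 0x402100000000000000000004040028001000000020000104444000000000000000000 := rS 0x823d204f319 (k4 a33 a3237 i1363 a406 (k2 a4396 i2567 k0)) (by decide +kernel)
def a4832 : PP 8 4 T 0x2102000000000044000000000021004008000020000014464004014080000000000 := rS 0x18a618d183b8ee2c7b61896205562d3c42391b8093eaf5b974344078a462663 (k8 a4751 a8 a110 a61 a818 i787 a761 i851 (k8 a427 a4831 i788 a446 i295 i2544 a20 i1523 (k8 a4830 a362 a423 i371 i818 a4829 i395 a332 (k4 a419 a2741 a2965 i1692 (k1 a3189 k0))))) (by decide +kernel)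
def a4833 : PP 8 4 T 0x1402002000000000001004001000000000005050024000015460020000001000000000 := rS 0x1942111ab55663 (k4 a4751 a97 a420 i185 (k2 i2544 a4397 (k1 a4442 k0))) (by decide +kernel)
def a4834 : PP 8 4 T 0x2100000000000004000000000001004000000000000004024000414880000004000 := rS 0x18d4e18c5cec5462b04fec343a159ab5412984a5940a612f18699bc32730090c42391b808fa9f57bf152178aadc7e5304975e27050068804f30a462663 (k8 a4751 a8 a110 a1830 i790 a818 i787 i317 (k8 i318 a61 a761 i2072 i827 i2234 i851 a363 (k8 a4369 a3454 a438 a427 a4831 i1360 i788 a446 (k8 i295 i2544 a416 i445 i837 i181 i1053 a359 (k8 a419 a71 a2965 i1362 a3192 a4487 a599 a4396 (k8 a1692 a2010 a1949 a4832 i371 i925 a4440 i1919 (k4 a4833 i791 a332 i1507 (k2 a4829 i2035 (k1 a59 k0))))))))) (by decide +kernel)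
def a4835 : PP 8 4 T 0x2100000000000000000000000000000000000000040000024000000880000000000 := rS 0x102833d0e96e531a9747ea00483c34022bc54c2334eb3d26f1378648063 (k8 a4751 a818 i181 i1053 a61 a4788 a4458 a4419 (k8 a4457 a1830 a363 i529 i788 i787 a4827 i2072 (k8 i317 i2234 a761 a4378 i827 i851 a4834 i395 (k2 i2567 i1894 (k1 a4365 k0))))) (by decide +kernel)
def a4836 : PP 8 4 T 0x2100000000000000000000000000000000000000040000004000000880000000000 := rS 0x216241348043 (k4 a416 a818 a4835 a440 (k2 a4066 i2752 (k1 a1113 k0))) (by decide +kernel)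
def a4837 : PP 8 4 T 0x2000000000000000000000000000000000000000000000014020000800000000000 := rS 0x8589043 (k4 i21 a440 a4066 i2752 (k1 a1113 k0)) (by decide +kernel)
def a4838 : PP 8 4 T 0x812100000000000001000001000000000041010018040000008020000840400000000 := rS 0x13cc44a298749a2e924e6fc30c5462251a83c300200aa42e63 (k8 a4751 a2996 a3454 i1077 a4385 i1045 i2204 a4378 (k8 i348 i2724 a363 a1830 a438 a4390 i29 a5 (k4 a4809 i1175 i1176 a4807 (k2 a4808 i1181 (k1 i1525 k0))))) (by decide +kernel)
def a4839 : PP 8 4 T 0x12100000000000001000001000000000001014018040000008020000840400000000 := rS 0x2613c9b08b158e3b7844d2e8b1489d22af7e1862a311a83c300200aa42e63 (k8 a4751 a2996 a3454 i1077 a4385 i1045 i2204 a4378 (k8 i2724 a363 a1830 a438 a427 a102 a331 a443 (k8 i492 i1324 a4838 a127 a203 a27 a49 a441 (k4 i1175 a4810 a336 i2738 k0)))) (by decide +kernel)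
def a4840 : PP 8 4 T 0x2100002000000001000000000020000005000010040000008000000854400004000 := rS 0x27d874e89a6d8ac71d8cd3acf39bf0723718a9512618ab4c4a35869b8300200aa42e63 (k8 a4751 a2996 a3454 i1077 a4385 i1045 i311 a413 (k8 a4378 i348 a359 a363 a1830 i92 a4449 i2724 (k8 a446 a401 a438 a4390 a4458 a4419 a4457 a333 (k8 a27 a49 i1175 a4809 a4811 a13 a26 i2035 k0)))) (by decide +kernel)
def a4841 : PP 8 4 T 0x2100000000000001000001000020000001010400040000008020000840404000000 := rS 0x8a2ec49e2873d1c4dd0d1489c1e18010055217 (k8 a2996 a3454 i1077 a4385 i1045 i2204 a331 a443 (k8 a413 i311 i795 a4839 i817 a4840 a127 a5 (k2 a4838 i491 k0))) (by decide +kernel)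
def a4842 : PP 8 4 T 0x2000000000000000000000001010000000008000000000000000000854050000000 := rS 0x12f455326506390100502b71e8fd363b7844e18d37e1862a63 (k8 a4751 a363 a1830 a438 a359 a377 a2220 a127 (k8 a333 i1175 a6 a365 a118 a4 i1077 a4385 (k4 a401 i816 i1940 i2031 (k2 a410 i1897 (k1 a162 k0))))) (by decide +kernel)
def a4843 : PP 8 4 T 0x2100000000000000000000000000000000000400040014008020000840004000000 := rS 0x512f842983a1e2329e459ec22c5638ede1133fc30dea13ea159ab511b4c52270fa44e6af568749efc30c5462251a83c300200aa42e63 (k8 a4751 a2996 a3454 i1077 a4385 i1045 i2204 a4378 (k8 i348 i2724 a363 a1830 a438 a74 i741 a420 (k8 a427 a4390 a102 a4367 a331 a443 a359 i185 (k8 a1692 a2010 a1949 a1978 a4841 i1054 a377 a3171 (k8 a2220 a127 a333 a27 a49 a441 a4842 i492 (k8 a4810 a33 a406 i1075 a3608 i1499 i1113 a4451 (k1 i1719 k0))))))) (by decide +kernel)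
def a4844 : PP 8 4 T 0x2100000000000000000000000000000000000000040000010020000840000000000 := rS 0x1133dc31426f8ca50f265659fcac180d87404ab5693c02fc5485d2249251643e2714b4e2a935c984ee63 (k8 a4751 a4251 a1830 a4425 a4788 a363 a359 a443 (k8 a331 a4367 a506 a4837 i29 a102 a2996 a3454 (k8 a438 i1077 a74 a420 a97 a4385 i741 i189 (k8 i1045 a4843 a3022 a4399 i1580 a4432 a4374 a4447 (k4 i1058 i311 a377 a4842 (k2 a2220 a406 k0)))))) (by decide +kernel)
def a4845 : PP 8 4 T 0x2000000000000000000000000000000000000000000000008080000800000000000 := rS 0x2a40017 (k4 a2996 i437 a3454 i1077 k0) (by decide +kernel)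
def a4846 : PP 8 4 T 0x2000000000000000000000000000000000000000080008020080004001000000000 := rS 0x6874 (k2 i530 a3042 (k1 i1062 k0)) (by decide +kernel)
def a4847 : PP 8 4 T 0x1002100000000000000000000014000000000000444080011460080000000002000000 := rS 0x3ead4ae7f19b2c4a63 (k8 a4751 i858 i545 i233 a3171 a4846 a1692 a1978 (k1 a4397 k0)) (by decide +kernel)
def a4848 : PP 8 4 T 0x2100000000000000000000001000000000000000000000000010000800000400000 := rS 0x38c356a7d2b9d8b25565994cc2b278255aab37a84a6fc30c54e68f0c06cba4c2492c8463 (k8 a4751 a3000 a4845 i699 a440 a543 a895 a437 (k8 a3008 a4435 a363 a1830 a438 a421 i819 i1054 (k8 a97 a420 i199 i702 a818 a4828 i38 i545 (k8 i1620 i544 a4847 i1628 i1630 a1692 a4648 a4513 (k1 a183 k0))))) (by decide +kernel)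
def a4849 : PP 8 4 T 0x2200000000000000000000000000010000000800000000000080000800000000000 := rS 0x1c61a7e37a84a6fc54ad42e4c39924af153092caa63 (k8 a4751 a72 a4845 a1830 a363 i1628 i751 a4435 (k8 a440 i1079 a822 a3454 a438 a421 i819 i1054 (k4 a3162 a35 i800 a183 k0))) (by decide +kernel)
def a4850 : PP 8 4 T 0x2200000000000000000000000000000000000000080000020080000801000000000 := rS 0xff10379d54257298cdf81854a3ce6178a98436598b9dd2a63 (k8 a4751 i1674 a4849 a350 a2 a895 a1830 a363 (k8 a4369 i837 i874 a3454 a437 a438 i233 a421 (k4 a4846 i819 i1587 i1054 (k2 a466 a3171 (k1 a4421 k0))))) (by decide +kernel)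
def a4851 : PP 8 4 T 0x2200000000000000000000000000000000000000080000000080000801000000000 := rS 0xb53ebf182b939070aea91a8580401109209a774a8c62f153092cb263 (k8 a4751 a2 a4845 a1830 a363 a350 a4387 i1674 (k8 a4849 a4850 a440 a957 i2752 i700 i699 i1117 (k8 i2754 a4316 i1080 i1079 i1137 a193 a438 i1233 (k2 a259 a4446 k0)))) (by decide +kernel)
def a4852 : PP 8 4 T 0x2200000000000000000000000000000000000000040000010080000800000000000 := rS 0x1f4aec106b922e8e5abf0fe720e2a466310f8d42ca10100432212434e2a61259948e63 (k8 a4751 a451 a63 a4845 a1830 a363 a359 a440 (k8 a957 a2997 i2752 i700 i2573 i699 i1117 i238 (k8 i1002 i192 i2754 i1080 i1079 a1066 a438 a259 (k8 a2898 a432 a429 a764 a408 i441 i1233 a4500 k0)))) (by decide +kernel)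
def a4853 : PP 8 4 T 0x2200000000000000000001001010000400000440040004000000000800002000000 := rS 0x1ab9444c0490712ab9869f0fe3369a2596655687d56fc30c54de63 (k8 a4751 i1054 a363 a1830 a438 a97 i239 a445 (k8 a63 a385 i92 a359 i233 a3171 a4500 a340 (k8 i1330 i1598 a377 a4374 i1233 i1234 a408 i247 (k1 a1020 k0)))) (by decide +kernel)
def a4854 : PP 8 4 T 0x2200000000000000000000000000000000000000000000000010000800000000000 := rS 0x20869f8ec6f5094df81f0c2a4aeb5479cc2e4c33895a7153086c8463 (k8 a4751 a3000 a895 a1830 a363 a359 a570 a4851 (k8 a4852 a4369 i837 i875 a822 i529 a3454 a437 (k8 i239 a438 a421 i819 i1054 a4853 a3162 a35 (k2 a1066 a977 k0)))) (by decide +kernel)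
def a4855 : PP 8 4 T 0x2000000000000000000000000000000000000000000000000010000800000400000 := rS 0x15305 (k2 a4854 a3454 (k1 a4848 k0)) (by decide +kernel)
def a4856 : PP 8 4 T 0x2100000000000000000001000000000800000100040000000000000000000000000 := rS 0x2c15cc917 (k4 a432 a4379 i1579 i1025 (k1 a4802 k0)) (by decide +kernel)
def a4857 : PP 8 4 T 0x2000000000000000000000000000000000000000000000000010000800000000000 := rS 0x164ae66471d402fc5a94c9002390709a190b4149642 (k8 a3000 a4845 a4854 a4855 i43 a4369 i1080 i1079 (k8 a252 a440 a1820 a259 a4502 i23 i2671 a2898 (k4 a4856 a4316 i543 a4353 k0))) (by decide +kernel)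
def a4858 : PP 8 4 T 0x2000000000000000000000000000000000000000000000000000000800000800000 := rS 0x1349640 (k4 a4857 a2996 a4369 a4837 k0) (by decide +kernel)
def a4859 : PP 8 4 T 0x2100000000000000000000000010000000000000080000010000000800000000000 := rS 0x4928a867d0f8255aab0e93df8618a9641e7f0690d4a95118cc30c118c5c04015485d6ab91a884ac253b1288063 (k8 a4751 a4857 a4837 i490 a3344 i489 a2991 a4154 (k8 i1137 i808 a4858 a3454 i1077 a4385 a350 i2724 (k8 a193 i1045 i2050 i1625 i1674 i366 i21 a3062 (k8 a3022 i2204 a506 a363 a1830 a438 a74 i741 (k8 a97 a420 i199 a4367 a3588 a3610 i2030 a447 (k1 i1633 k0)))))) (by decide +kernel)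
def a4860 : PP 8 4 T 0x800000000000002000000000000000415000000000000000000000400000000404000800000005000 := rS 0x18e11532f97abb51b4d5ead55bf1521730c55e263 (k8 a4751 a198 a363 a1830 a4858 a3454 a438 a97 (k8 a420 a427 a359 a395 a86 a338 a391 a4171 (k2 i1912 i336 (k1 a132 k0)))) (by decide +kernel)
def a4861 : PP 8 4 T 0x12000001000000000000000000400000000000018000000010004000800000000000 := rS 0x4ba2cf02a8cc4d329b698a44eaf7e1862a37010055217399288063 (k8 a4751 a4857 a4837 a4390 a4858 a3454 i1077 a4385 (k8 a446 a363 a1830 a438 a427 a331 a443 a359 (k8 i1176 a599 a4809 a2965 a127 a4470 i1854 i1856 (k1 a336 k0)))) (by decide +kernel)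
def a4862 : PP 8 4 T 0x2100000000000000000000000000000000000000080000010000000800000000000 := rS 0x31c22a651a4a8671370fe1aa060ae5e2c3628d41a21239ad96951295a2e4357bf0c3150d8c4660f0c12804015485c8063 (k8 a4751 a4857 a4858 a3454 i1077 a4385 a4837 i1045 (k8 i2204 i2050 i2724 i189 a363 a1830 a438 a427 (k8 i21 a350 i489 a3344 i1674 i2308 i2309 i1617 (k8 a2991 a3062 a4154 a277 a276 a198 i1137 a193 (k8 a4859 a413 i2233 i311 i795 a4860 a447 i1633 (k4 a4861 i1912 i336 a132 k0)))))) (by decide +kernel)
def a4863 : PP 8 4 T 0x2000001000000000000000000420000000000000000000010000000800000000000 := rS 0x389b87f0d0d8609440010055217 (k8 a4858 a3454 i1077 a4385 a4857 a4837 i1045 i189 (k4 a413 i2233 i311 i795 (k1 a4861 k0))) (by decide +kernel)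
def a4864 : PP 8 4 T 0x2100000000000000000000000000000000000000000000010000000800000001000 := rS 0xc94f43a7cd6c65d50d44c110b1486a5448946a0f4db359e235aa14fa57249655a7f379ccee3e4c43142a77887c3a4f69abdf8618aa2cf61b3c0e854670c128800200aa42e63 (k8 a4751 a4858 a3454 i1077 a4385 a4857 a4837 i1045 (k8 a4862 a4844 i387 i388 i189 i811 i492 a363 (k8 a1830 a438 a427 a359 a74 i741 a4367 a61 (k8 i2199 a4863 a377 a3608 i1107 a4251 a4390 i1054 (k8 a3171 a420 a506 i29 a4432 a1978 a1949 a1692 (k8 i185 a4458 i1972 i2747 i2204 a4378 i348 i92 (k8 a4449 i21 a277 a1200 i1426 a4451 a3610 i407 (k4 i406 i1946 i1686 i1683 (k2 a59 a4454 (k1 a1597 k0)))))))))) (by decide +kernel)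
def a4865 : PP 8 4 T 0x2100000000000000000000000000000000000000000000010000000800000000000 := rS 0x1889e10195466b061fcdea11195d1625539e1867b788d4ee2a67a74ce0f18860e6490d928b21f55808021d27bf1521730c548063 (k8 a4751 a4857 a363 a1830 a4858 a3454 a438 a74 (k8 i741 i1077 a4385 a97 a4367 a506 a4837 i189 (k8 i29 a4390 i1045 i2724 i2204 a4862 a4419 a4458 (k8 a4844 a4251 a4378 a61 i811 i2222 i388 i2199 (k8 i348 i492 a4432 i185 a4863 i1054 a3171 a4864 (k4 i468 i1647 i1491 a4451 (k2 a4418 i903 (k1 i1525 k0)))))))) (by decide +kernel)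
def a4866 : PP 8 4 T 0x2100000000000000000000000000000000000000000000000000000800000002000 := rS 0x76321f996a512c40fab52a95cb2a32194c124f56aadf8618a80802a90b924e6210c92d40700d1308063 (k8 a4751 a4857 a4865 i787 i318 i317 i73 i181 (k8 i2544 i837 i30 a4858 a3454 i1077 a4385 a363 (k8 a1830 a438 a97 a420 a74 i199 i827 i21 (k8 i1647 i461 a4708 i1489 i881 a1978 a362 a423 (k4 i363 i466 a4397 a4513 (k2 i799 i1547 k0)))))) (by decide +kernel)
def a4867 : PP 8 4 T 0x2100000000000000000000000000000000000000040000000000000800000000000 := rS 0x56fc5485cc315259249863 (k8 a4751 a4865 i30 i73 a363 a1830 a4858 a3454 (k2 a438 a4836 (k1 a4828 k0))) (by decide +kernel)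
def a4868 : PP 8 4 T 0x2000001000000000000000000000000000000000000008020000010840000000000 := rS 0x67a04f23b890a44efc30c54a6091c924324b079c0460200aa42e742e8688063 (k8 a4751 a4857 i787 a761 i530 a4858 a3454 i1077 (k8 a4385 i2062 i318 i2206 i73 i181 i30 a401 (k8 i199 i827 a363 a1830 a438 a331 a443 a127 (k4 i394 a3116 a45 i1067 (k1 a4488 k0))))) (by decide +kernel)
def a4869 : PP 8 4 T 0x2100000000000000000000000000000000000000000000000000000801000000000 := rS 0x205067a1d4656f1315175e247359d0acb51a964a6095793d5aab7e1862a391b9cd40701f88cde1925b15860f0d100620d0100552178b9959655331249863 (k8 a4751 a4865 i30 a4867 i1620 i545 i38 a350 (k8 a4858 a3454 i1077 a4385 a4866 i1003 a4857 i787 (k8 i2206 a276 a277 i73 i181 i1053 i2062 i2234 (k8 i318 i317 i837 a446 a401 a363 a1830 a438 (k8 a97 a420 a74 a427 i199 i827 i866 i356 (k8 i880 a4513 i530 i2353 i1577 a198 a761 a4868 (k8 a8 i851 a4572 a419 i395 i2567 i1894 a4396 k0))))))) (by decide +kernel)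
def a4870 : PP 8 4 T 0x2100000000000000000000000000000000000000000000000000000800000000000 := rS 0x59121981a0f0d23c9840010055217 (k8 a4858 a3454 i1077 a4385 a4857 a4865 i2597 i787 (k4 i2206 a4866 a4867 a4869 (k2 i544 a3587 k0))) (by decide +kernel)
def a4871 : PP 8 4 T 0x2000000000000000000000000000000000000000000000000000000802008000000 := rS 0xe8343e1fe2eb52b92ce04c0c94c124027ab556fc30c54b2cb2a8c4ca3323c1004015485dca63 (k8 a4751 a409 a4858 a3454 i1077 a4385 a4870 a451 (k8 i192 a63 i1002 a72 a385 a2 a363 a1830 (k8 a438 a97 a420 a74 a4857 i199 i827 i67 (k8 i189 i318 i1045 a4716 a822 a3215 i2557 a4397 (k2 a429 i1361 (k1 a4665 k0)))))) (by decide +kernel)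
def a4872 : PP 8 4 T 0x2000000000000000000000000020000000000000000000000000000802000000000 := rS 0x934a9b94aad55bf152618ab2ccb041a19cee4a2690172a30c06c2e63 (k8 a4751 a4858 a4871 a437 i2191 i1138 a4857 i787 (k8 a4837 i803 i490 i348 a4870 a63 a385 a363 (k8 a1830 a3454 a438 a97 a420 i2215 i311 i1099 (k2 i1322 a4374 k0)))) (by decide +kernel)
def a4873 : PP 8 4 T 0x2000000000000000000000000200000000000000000000000000000802000000000 := rS 0x144532fc0e5304abd96815bbc07ece4f8ed23138634c686b339dd3a740c22cf6a10e93df8618aaa42e1f138a45711729289a1b201960863 (k8 a4751 a4870 a63 a4857 a4871 i787 a4837 a409 (k8 a38 a4505 a443 a331 a4367 a4858 a3454 a363 (k8 a1830 a438 a74 i741 a4872 a4842 i492 a437 (k8 i349 i1592 i803 i490 a464 i348 a359 a377 (k8 a2220 i1169 a203 i1183 a4418 i404 a127 a118 (k8 a4 a385 a427 i199 i827 i1379 i1451 a2041 (k2 a3416 a410 k0))))))) (by decide +kernel)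
def a4874 : PP 8 4 T 0x2000000000000000000000000000000000000000000000000000000802000000000 := rS 0x49a54faa58628572673a0d1464a3b8609a1b6987d5aab0e93df8a90b9862a40659960863 (k8 a4751 a4870 a63 a385 a4857 a363 a1830 a4858 (k8 a3454 a438 a74 i741 a97 a420 a4367 a359 (k8 a4871 i787 a437 i803 a4837 i2191 i348 i349 (k8 i490 i1138 a4872 a377 a4873 a340 i1099 i1589 (k1 a4374 k0))))) (by decide +kernel)
def a4875 : PP 8 4 T 0x22000001000000000000000000000000000000000000000000004000800002000000 := rS 0x26516781d1ec55131489d5efc5485cc3150d9288063 (k8 a4751 a4857 i181 i67 a363 a1830 a4858 a3454 (k8 a438 a427 a331 a443 a2220 a127 i811 i387 (k4 i388 i492 i1107 a3608 k0))) (by decide +kernel)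
def a4876 : PP 8 4 T 0x2000000002000000000000000840000000000000000000000000000800000001000 := rS 0x31c22af7e2a42e618a83c8e6b823158663 (k8 a4751 a468 a40 a4870 a464 a451 a17 a363 (k8 a1830 a4858 a3454 a438 a427 i1912 i336 a132 k0)) (by decide +kernel)
def a4877 : PP 8 4 T 0x2000001000000000000000000420100000000000000000000000000800000000000 := rS 0xb7409c0f25d0d12d064c1394c12401d465f8618a8e46e0200aa42e63 (k8 a4751 a4858 a3454 i1077 a4385 a446 a401 a363 (k8 a1830 a438 a2965 a419 a4857 i199 i827 a331 (k8 a4863 i920 i73 i787 a795 a4662 i318 i1363 (k2 i802 a4365 k0)))) (by decide +kernel)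
def a4878 : PP 8 4 T 0x2000000002000000000000000140000000000000000000000000000800000001000 := rS 0x62181b50a654e3f0334c3e0956aac3a4f7e1862a401b80802a90bb2c1e4760bc60863 (k8 a4751 a4870 a3227 a408 a451 a17 a385 a4858 (k8 a3454 i1077 a4385 a446 a4857 a363 a1830 a438 (k8 a74 i741 a97 a420 i199 a4367 a359 a1834 (k8 a458 a4876 a599 a4877 i317 a377 a437 a4875 k0)))) (by decide +kernel)
def a4879 : PP 8 4 T 0x2000000000000000000000000110004000000200000000000000000800000000000 := rS 0x43a759eb43c2f52e3a4a15c543e33c4c304d8606da6891489c3ead558749efc5485cc315659acee8f39924cab91abc5c9111288c8e212a9020863 (k8 a4751 a4870 a4857 a72 i743 a451 i184 a4874 (k8 a453 a107 a3227 i1062 i1137 a63 i1010 a4435 (k8 i124 i79 a464 a385 a363 a1830 a4858 a3454 (k8 a438 a74 i741 a97 a420 a4367 a331 a443 (k8 i92 a359 i317 a377 i787 a437 a2220 i1588 (k8 a4875 a127 a4474 a4374 i404 i1371 i1411 i388 (k4 a4853 i2743 i1678 i934 (k1 a4422 k0)))))))) (by decide +kernel)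
def a4880 : PP 8 4 T 0x2000000000000000000000000100000000000200000000000000000800000001000 := rS 0x22499158e94c3f254649a186786cce6e4a1c4ae7e5ac3540933ed0d44f139b9093113b8a44eaf7e1862a391b964ca231991c04015485c4255821004a63 (k8 a4751 a4874 a4857 a4870 a72 i743 a4858 a3454 (k8 i1077 a4385 a451 i192 i184 a63 a2 a446 (k8 a401 a363 a1830 a438 a427 a331 a443 i79 (k8 a453 i1010 a107 a4435 a3227 a4878 a395 i1593 (k8 i1633 a4879 a413 i880 a403 a3022 i799 i1667 (k8 a3171 i1587 i318 i2736 i1053 i787 a3410 i181 (k4 i2233 a4863 a419 i2199 (k2 i1107 a127 (k1 a4211 k0))))))))) (by decide +kernel)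
def a4881 : PP 8 4 T 0x20000010000000000000000000a0000000000100000000000000000800004000000 := rS 0x1a39171118bc492a2b37298304d1489d5aab7e1862acb3288c42552009686931991e080200aa42e63 (k8 a4751 a4858 a3454 i1077 a4385 a4870 a451 i192 (k8 i1633 a395 a4874 a4857 a72 i743 i184 a63 (k8 a385 a363 a1830 a438 a97 a420 a331 a443 (k8 i787 a437 a4863 i311 i2199 i1057 a127 a4168 (k4 a205 a447 a107 i1137 (k1 a364 k0)))))) (by decide +kernel)
def a4882 : PP 8 4 T 0x20000010000000000000000000a0000000000100000000000000000800000000000 := rS 0x33930678c25076c3722e62e571a9c0981a499f686fc30c54a6091c8dc62651190066478200802a90bad44a63 (k8 a4751 a4874 i880 a4858 a3454 i1077 a4385 a4870 (k8 a451 i192 a4857 i184 a63 i1002 a446 a401 (k8 i199 i827 a363 a1830 a438 a395 i1593 i1633 (k8 a4881 i189 i318 i356 i530 a3215 i1407 a429 (k8 a1105 a4492 a447 a419 i1674 a2965 a3410 a3188 k0))))) (by decide +kernel)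
def a4883 : PP 8 4 T 0x2000000000000000000000000140000000000000000000000000000800000001000 := rS 0xc1a19fa20e569bf0c3152982552171191c4255821004a63 (k8 a4751 a4874 a4857 a4870 a72 i743 a451 i184 (k8 a4858 a3454 i199 i827 a363 a1830 a438 a359 (k4 a4878 a107 a4421 a133 (k2 i1515 a393 k0)))) (by decide +kernel)
def a4884 : PP 8 4 T 0x2000000000000000000000000120000000000000000000000000000800000001000 := rS 0x81a2ade26cd532f220836139456f0868a41e2323884ab0420094eaa2 (k8 a4883 a4880 a4874 a4857 a4870 a72 i743 a451 (k8 i184 a17 a443 a413 a4882 a61 a3227 a1762 (k8 i919 a107 i329 i328 a380 a205 i1988 a410 (k2 i1859 a462 k0)))) (by decide +kernel)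
def a4885 : PP 8 4 T 0x2000000000000000000000000100000000000000000000000000000800000001000 := rS 0x22d4f4fa7516cf8cafd8c981d29c7cf11ab9222183fc3036a149a89a61f298243a4f7e1862a231991c04015485c4255821004a63 (k8 a4751 a4874 a4857 a4870 a72 i743 a4858 a3454 (k8 i1077 a4385 a451 i192 i184 a363 a1830 a438 (k8 a74 i741 i199 i827 a4367 a359 a4883 i1633 (k8 a4884 i317 a377 a1066 a437 a4421 a107 a364 (k8 a3227 a4875 i140 i404 i405 i406 i1720 a345 (k4 i1145 i1939 i1943 i1113 (k2 a59 a463 (k1 a4412 k0)))))))) (by decide +kernel)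
def a4886 : PP 8 4 T 0x2000000000000000000000000200000000000000000000000000000800000000000 := rS 0x7f88285cad30fbf0c3152982552171191c4255821004a63 (k8 a4751 a4874 a4857 a4870 a72 i743 a451 i184 (k8 a4858 a3454 i199 i827 a363 a1830 a438 a4367 (k4 a359 a382 i363 a107 (k2 a1066 a4421 k0)))) (by decide +kernel)
def a4887 : PP 8 4 T 0x2000000000000000000000000000000000000000000000000000000800000000000 := rS 0xc1a19fa20a3728314a251088caa47822aca6fc04aa42e4030c55a663 (k8 a4751 a359 a363 a1830 a4857 a4858 a3454 i199 (k8 a438 i827 a97 a4870 a451 a72 i184 i743 (k8 a4874 a4886 a4885 a392 i1647 a107 a4421 a133 (k2 i1515 a393 k0)))) (by decide +kernel)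
def a4888 : PP 8 4 T 0x2202000001000040000001000100000000010000000004000000000000100002000 := rS 0xc1a1a8cfcab (k4 a97 a4500 i1647 a133 (k2 i1515 a393 k0)) (by decide +kernel)
def a4889 : PP 8 4 T 0x2000000000000000000000001020100000400000001100000000000020008000000 := rS 0x15c803c1c4c62f (k4 a4887 a4751 i796 i275 (k2 i314 a3719 (k1 i1861 k0))) (by decide +kernel)
def a4890 : PP 8 4 T 0x2022010000000000000000000000a0000000000000000000000000000000100002000 := rS 0x2bd1611780a4c29b002dc345d4885c98734ca5c922b5490896aa030743e192c9550acd2bc4d065227c34c62f (k8 a4887 a4751 a413 a1821 a4371 a334 a205 a58 (k8 a380 a361 a72 a2 i310 i90 i89 i1648 (k8 i1647 i2267 i453 i456 a416 i2573 a989 a837 (k8 a4435 a440 i821 a110 a543 a437 a1497 i780 (k8 a991 a3124 a4889 a3246 a441 i451 i459 a336 k0))))) (by decide +kernel)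
def a4891 : PP 8 4 T 0x202200000001000000040000041000141000000010001000800000010000100000000 := rS 0xc0eccf4ed3cf51743464f25d2c954d6cd2bc4d0663 (k8 a4751 a334 a205 a58 a380 a464 a72 a2 (k8 i570 a3719 a260 a3812 a3208 a406 a20 i1645 (k4 i1980 i817 a3131 i1507 k0))) (by decide +kernel)
def a4892 : PP 8 4 T 0x202201002001000000040000000060000000000000001000000000010000108000000 := rS 0x20020862d5381d5cd338845222b4ba64984b5485ca44f86924c62f (k8 a4887 a4751 a4375 a413 a1821 a4371 i66 a3454 (k8 i566 a440 a837 a989 a61 i912 a441 i796 (k8 a344 a4891 i459 a1825 a3572 i820 a1807 a3000 (k1 a3234 k0)))) (by decide +kernel)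
def a4893 : PP 8 4 T 0x2201002000000000000000000060000000000000000000000000010000008000040 := rS 0xb402400410d4ed32612d52172913e1a49 (k8 a4375 a413 a1821 a4371 i66 a3454 i566 a440 (k8 a344 a1825 i820 a1807 a3000 i445 i1264 a3234 k0)) (by decide +kernel)
def a4894 : PP 8 4 T 0x202201002001000000040000000060000000000000000000000000000001108000000 := rS 0x1210240c601a9489f0d (k8 a413 a1821 a4371 i356 a4892 a4893 i3 i453 (k2 i961 i780 k0)) (by decide +kernel)
def a4895 : PP 8 4 T 0x2000000000000000000000000020000000000000000000800000000000000800000 := rS 0x19089072161049a4b (k8 a2996 a4369 i2575 i822 i821 a440 a3000 i2673 (k1 i700 k0)) (by decide +kernel)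
def a4896 : PP 8 4 T 0x2200000001000000000000000020000000000000000000000000000001500002000 := rS 0xe605300c502b613169e862e931e24925a6434a90ba8d06527e9f4af1069c349e1952ad4b25535b1cc62f (k8 a4887 a4751 a342 a464 a72 a2 i880 i363 (k8 i310 a1821 a413 a344 a107 a58 a73 a4888 (k8 a4371 a334 a4890 a4895 a3454 a437 a837 i566 (k8 a4375 a4894 a440 a761 a3812 a20 i1523 a379 (k4 i371 a1796 i2063 i313 (k2 a4889 i1224 (k1 a1825 k0))))))) (by decide +kernel)
def a4897 : PP 8 4 T 0x2200000000000000000000000000000000000000000000000000000000201000000 := rS 0x98162106c8255 (k4 a72 i743 a3230 a3000 (k2 a437 a957 (k1 a4369 k0))) (by decide +kernel)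
def a4898 : PP 8 4 T 0x2200000001000000000000000020000000000000000000000000000001000002000 := rS 0x4c5512c920629108ac3511084322f (k8 a4887 i310 a4897 a4896 i246 i1569 i1570 i819 (k4 i820 i2573 i438 i568 (k2 a440 a3038 k0))) (by decide +kernel)
def a4899 : PP 8 4 T 0x2200000000000000000000000020000000000000000000020000000000800001000 := rS 0x15661338192600212e52a7401904f81d8687d96655691ce68f2caa4e21a0b864c62f (k8 a4887 a4751 i310 a4369 a437 i796 i575 a2 (k8 i874 i837 a451 a445 a63 a385 i90 a413 (k8 i89 i312 i184 i2062 i273 i1598 i1330 a3000 (k4 a4385 i1590 i820 i449 (k2 a3124 i457 (k1 a4374 k0)))))) (by decide +kernel)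
def a4900 : PP 8 4 T 0x202200000001000000000000000020000000000000000000020080010000000000000 := rS 0x10782b852994b985fa0363a0cba06291045691549c434178989d0a6b6688432572a964c62f (k8 a4887 a4751 a2 a72 a58 i310 a4897 a380 (k8 a464 a361 a1214 a205 a4369 a437 i796 i575 (k8 a110 a416 i21 i819 i820 a543 i919 a1581 (k8 i188 a452 i1224 a989 a837 a4889 a4891 a3246 (k2 i459 a441 k0))))) (by decide +kernel)
def a4901 : PP 8 4 T 0x2200000001000000000000000020000000000000000000020000000001000000000 := rS 0x5131c0ef029171fa6749c597314198c45a022010caf10118d5121a3985d230d279948e210c8345e63 (k8 a4751 a4887 a4898 i310 a4897 a451 a63 a1821 (k8 a413 a110 a4369 i837 a437 i279 i356 a4899 (k8 a107 a58 a4900 a3000 i788 a195 i1002 i192 (k8 a3580 a1710 a429 a1020 a722 a853 a3208 a4371 (k4 a761 i453 a27 a4894 (k1 a1824 k0)))))) (by decide +kernel)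
def a4902 : PP 8 4 T 0x2022020020000000000000000000a0000000000000000000000000000010000001040 := rS 0x5ba068abc41a99842b8683d9b13 (k8 a205 a380 a17 a413 a61 a1762 a2041 i919 (k4 i329 a410 i1859 i1988 (k1 a462 k0))) (by decide +kernel)
def a4903 : PP 8 4 T 0x202200000001000000000000000020000000000000000000000020000001008000040 := rS 0x9f67afcf0b84d4652a994b9b8587b1cc5454f15124d834355abd3a7e7e0ecce8b2998522003992952032485da70d279c54ab52cb2ccaad2a9ac4219069350acd2b9f4eb131489cc62f (k8 a4887 a4751 a331 a443 a205 a453 a73 a58 (k8 a380 a361 a4901 a4898 i310 a4897 a464 a72 (k8 a445 a63 a385 a2 i880 i363 i796 a1821 (k8 a413 a344 i66 a4375 i189 a3454 a4066 a4435 (k8 a4385 a102 i1048 i566 a4110 i489 a339 a4485 (k8 a4421 a3378 a427 a97 a133 i1515 i1638 a393 (k8 a4902 a127 a3604 i295 i812 a3580 a389 i1244 (k8 a3614 i1057 a260 a336 a4374 a4434 a4525 i1152 (k2 i2751 a4418 k0))))))))) (by decide +kernel)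
def a4904 : PP 8 4 T 0x2000000000000000000000000020000400000000000000000020000000000801000 := rS 0xcefc241c80053 (k4 i2575 i740 i821 i739 (k2 a4485 i449 (k1 a2847 k0))) (by decide +kernel)
def a4905 : PP 8 4 T 0x402000001000000000000000001020000040000000000000008004000014000000002 := rS 0xd935194ca5cdc2c5b8e62a2a869c522733093c76af7e14cc62f (k8 a4887 a4751 i566 a4485 a427 a339 a1821 i1048 (k8 a4390 a102 i796 a413 a127 a3604 i295 i851 (k8 a3580 a389 i1244 i1060 a260 a336 a419 i995 k0))) (by decide +kernel)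
def a4906 : PP 8 4 T 0x202200000001000000000000000020000000000000000000000020000001000000000 := rS 0x2068ab7532f106c215bc144c1a19f9f83f0022ca6060192834a90b89c52d38693d4a0f108641a4d66a3e262f (k8 a4887 a205 a28 a380 a4901 a4898 i310 a4897 (k8 a17 i363 a1821 a413 a344 a443 a331 a4904 (k8 a3454 a437 a4066 i189 a4903 i566 a4110 a4385 (k8 a458 a4485 a4421 a133 i1515 a393 a4905 a61 (k8 a1762 i919 i329 i328 i1988 a410 i1859 a4373 k0))))) (by decide +kernel)
def a4907 : PP 8 4 T 0x2000000000000000000000000020000000000000000000010080000000000000000 := rS 0x25924322f (k4 a4887 i310 i2573 i438 (k1 a440 k0)) (by decide +kernel)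
def a4908 : PP 8 4 T 0x2200000001000000000000000020000000000000000000000000000001000000000 := rS 0x11111900864d23884322f (k8 a4887 i310 a4897 a451 a4901 a4907 a3000 i184 (k2 a4906 a107 k0)) (by decide +kernel)
def a4909 : PP 8 4 T 0x2000000000000000401000010020000000000000010000014020001000000001000 := rS 0x55ae4ce614aa4df8a9390005853240589e63 (k8 a4751 a1821 a4066 a440 i2575 i822 i740 i821 (k8 i1087 a4485 i1241 i978 i2631 i449 a171 a97 (k1 a4374 k0))) (by decide +kernel)
def a4910 : PP 8 4 T 0x902200000000000000000000041020004040080840001004000000000000000000000 := rS 0xce5fa659885439e61a712c954c62f (k8 a4887 a4751 a72 a2 i796 a413 a398 a69 (k4 a77 a143 a3697 i1723 (k2 i810 a3558 k0))) (by decide +kernel)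
def a4911 : PP 8 4 T 0x102200000000000000000000000020000000000000000000010020000201000000000 := rS 0x2ea1d0a835fa897ab640a9e8a07668f855133f15cec7d3ad0e2eb84aa4e1a1f52ad41e472abc45227479ccc24f45868ce0001864860957aadf8535485c943160835c8ad32b2cc62f (k8 a4887 a4751 a385 a63 a445 a4908 a392 a408 (k8 a459 a4909 a2996 a3454 i566 a4485 a97 a427 (k8 i197 i21 i310 i1045 a4385 a4284 a437 a4110 (k8 a1821 i1048 a4390 a4381 a331 a443 a3227 a72 (k8 a451 a17 i880 i363 i90 a413 i1241 i978 (k8 a4374 a4168 a351 i1066 i1330 a466 a4274 a403 (k8 a4910 a127 a4905 i888 a458 a80 i140 i1332 (k8 i403 i2900 a2108 i1720 i920 i1670 a982 a4393 (k1 a3910 k0))))))))) (by decide +kernel)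
def a4912 : PP 8 4 T 0x2202001000000000014000001020000040000040041000000000000100000001002 := rS 0x14f455fb1934cf1e8447eb849a652e388a34c1e4735abcc62f (k8 a4887 a4751 a427 a464 a451 a17 a344 a3580 (k8 a2686 a24 a57 a115 a853 i2179 i1873 i1877 (k4 i1976 a336 a132 i1458 (k2 a111 i337 (k1 a442 k0))))) (by decide +kernel)
def a4913 : PP 8 4 T 0x2200000000000000000000000020000000000000000000010020000001000000000 := rS 0x419e134a78c8f854993f44caecd42c5e2095498b156af7e19d1653000695203309cc2e912513c3259659955a5506b058a3161bc5c8292189cc62f (k8 a4887 a4751 a331 i21 a443 a4908 a3227 a468 (k8 a459 a40 a408 a392 a72 a445 a63 a385 (k8 a2 i310 a1821 a4909 a102 a2996 a4390 i1048 (k8 i1045 a3454 a437 a4385 i566 a4110 a4284 a4485 (k8 a427 a97 a4912 i1241 i978 a4911 a4168 a361 (k8 a380 a58 a205 a4421 a4524 a127 a4905 a2965 (k4 i140 i1423 a4434 i920 (k1 i1074 k0)))))))) (by decide +kernel)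
def a4914 : PP 8 4 T 0x2002001000000000401000011120150000000000010100000400154000008005000 := rS 0x13b4f4fb1974a2038f96c81419e854a7678ea2f1955abcc2530493c5e63 (k8 a4751 a4887 a1821 a369 a421 a397 a427 a97 (k8 a2965 a4168 a419 i1145 i334 i394 i395 i920 (k8 i1893 a4396 i851 a458 a2108 i407 i406 i1685 (k2 a59 i1640 (k1 a463 k0))))) (by decide +kernel)
def a4915 : PP 8 4 T 0x2200000000000000000000000020000000000000000000000028000001000000000 := rS 0x135185dd3d0c9f429e59abd5b0aa8a5535a45067d47964ae755c28c0e5227c3486fd4ca5cba371caa4e2f106ab4ca0f65a25823552a4c62e41991d2b141680834735a9305e63 (k8 a4751 a4887 a4913 i880 i837 i787 i788 a195 (k8 a3580 a14 a451 i192 a4908 a459 a115 i363 (k8 a364 a408 i279 a385 a17 a63 a445 a392 (k8 a3227 i796 i575 a401 a446 a761 a24 a57 (k8 a4914 i21 a413 a1821 a4371 i453 a1824 i2033 (k8 i1066 i530 a2 i874 i1330 a334 a110 a464 (k8 a72 a80 i402 i403 i1411 i888 i1932 i1935 (k4 i1190 a460 a20 i1684 (k2 a3599 a2423 (k1 a41 k0)))))))))) (by decide +kernel)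
def a4916 : PP 8 4 T 0x2200000000000000000000000020000000000000000000000020000001000000000 := rS 0x21d0acd3d0a8749f4dd107e573aae07aa3538200e527ea4d32974ac50ba33168dc72890d00952732610da70d279c54ab52cb2c1e655691caa6b1a835823178b905e63 (k8 a4751 a4887 a4908 a3227 a459 a408 a392 a364 (k8 a464 a72 a451 a445 a63 a17 a385 a2 (k8 i880 i363 i796 a1821 a413 a344 i21 a4913 (k8 i837 i575 i788 i787 i279 a401 a446 a195 (k8 i192 a761 a3580 a14 a24 a57 a115 a4914 (k8 a4371 i453 i827 a1825 a1824 a122 i2033 i1066 (k8 i530 a4915 a442 a111 i1189 i2034 i394 i395 (k4 i888 i1896 i818 a460 k0)))))))) (by decide +kernel)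
def a4917 : PP 8 4 T 0x2200000000000000000000000020000000000000000000000000000001000000000 := rS 0xaf4da2d7ebc6721d987e3b1f4eb4388ae22e293398400030d24d2a994b9751eab5485dfa4c2b818a483210ac82f106b90426b2a91d5a6507b2cb30d0cad4c62f (k8 a4887 a4751 i880 i310 a413 a2 a385 a17 (k8 a63 a445 a451 a72 a464 a4897 a4908 a392 (k8 a3227 a4916 a818 a3000 i919 i819 i820 i441 (k8 a4907 a452 a4895 i456 i457 i874 a543 a989 (k8 a837 a1042 a1109 a437 i188 i780 i1224 i449 (k8 a4889 a4168 a4101 a3246 a351 i1066 i1330 a466 (k8 a403 a3129 i153 i810 i849 i1723 i1979 i1152 (k2 i1986 a336 k0)))))))) (by decide +kernel)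
def a4918 : PP 8 4 T 0x2100000000000000000001000000000000000000000024000000000000000000002 := rS 0x67 (k2 i2262 a4802 k0) (by decide +kernel)
def a4919 : PP 8 4 T 0x2000000000000000000000000000540000000000001000000000000000000010082 := rS 0x8b57aa4c62f (k4 a4887 a4751 i456 i459 (k2 i451 a336 k0)) (by decide +kernel)
def a4920 : PP 8 4 T 0x2000000000000000000000040020000000000000000000000010000001000020000 := rS 0x1fd7aab3521d6ebb5fc4a888113a9c7ad31fa5c52610197532fd54819062b65b350a7d881656a57001320a550d05ca419213c4c62f (k8 a4887 a4751 a441 a3000 i310 i819 a4895 a437 (k8 i2534 a4917 a4907 i780 i2258 i880 a4918 a362 (k8 a73 a1949 a2010 i621 a818 i919 i820 i456 (k8 a452 a837 a543 i188 i1224 a4889 a989 i402 (k8 a344 a3724 i1912 i825 a3721 a442 a127 a18 (k8 a29 a116 a69 a3812 i2271 a285 a4533 i2047 k0)))))) (by decide +kernel)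
def a4921 : PP 8 4 T 0x2000000000000000000000000020000000000000000000000010000001000020000 := rS 0x232e4ce0c10b1cfea3559a90f1213a987aae7883c6a292ea65062b4aa4e286101bf5520665b362055119d4b2b525c14ae00260682e5221064c62f (k8 a4887 a4751 i310 a3000 i819 a4895 a437 a4907 (k8 i780 i2258 a4917 i438 i880 a4918 a1851 i273 (k8 i2534 a362 a2010 i621 i820 i456 a452 i188 (k8 i1224 a438 a115 a14 a818 i919 a837 a543 (k8 a4889 i356 a4456 a441 a4920 a1827 i460 i825 (k8 a127 a69 a3812 i2271 a3275 a4533 i336 i823 (k4 a2915 i2264 a3564 a4101 (k1 i26 k0)))))))) (by decide +kernel)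
def a4922 : PP 8 4 T 0x2002100001000000000000000041000140000000000001115000004400055400014002 := rS 0x2163834ce6a43c4870cd884646e63 (k8 a4751 a1266 a561 a362 a2010 a1288 a127 a69 (k4 a3812 i2264 i467 a4518 (k2 a4692 a2915 k0))) (by decide +kernel)
def a4923 : PP 8 4 T 0x1000000000010212101000000000001050000000000000001500000800011000000440055400414082 := rS 0x16c8689885867f198355667 (k8 i2264 i2271 i467 a4457 a4533 a276 a4692 a2278 (k2 i2032 a462 (k1 i856 k0))) (by decide +kernel)
def a4924 : PP 8 4 T 0x2000000000000000000000000020000000000000000000000010000001000000000 := rS 0x7e55ad97d13431ad8ac7782068a271bc65343d5784447103aa159a598a0a4ae61078ec00031a95434994b97522a90bbf4984b031487e83210ae1a195ac14c62f (k8 a4887 a4751 a4917 i880 i310 a413 a818 a3000 (k8 i919 i402 i819 i820 i438 a4907 a452 a4895 (k8 i456 a110 a543 a989 a837 a437 i2534 i356 (k8 i188 i780 i394 a4456 i1224 i2258 a4889 a438 (k8 a4918 a2010 a1949 a1851 a362 i273 a4921 i459 (k8 a1744 a4919 a561 a1266 i825 a111 i1337 a4922 (k8 a27 a49 a4923 a460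 a69 a982 a462 a367 (k2 a2670 a4533 k0)))))))) (by decide +kernel)
def a4925 : PP 8 4 T 0x2000000000000000000000001020000000000000000000810020000000000000000 := rS 0x9617 (k2 a4895 i566 (k1 a4066 k0)) (by decide +kernel)
def a4926 : PP 8 4 T 0x2002000000000000000000000020800040000000040005008000000001000000000 := rS 0x1be2a754a440cb0d38964807349c14c62f (k8 a4887 a4751 a4917 a4788 a4390 a4924 i866 i796 (k8 a413 i1050 a362 a4466 a453 a14 i1057 a389 k0)) (by decide +kernel)
def a4927 : PP 8 4 T 0x10002000000000000000000000000000001008001400000000000000000000000000000 := rS 0xf713 (k2 a69 i817 (k1 a406 k0)) (by decide +kernel)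
def a4928 : PP 8 4 T 0x2002000000000002000000000020800000000000040000008000000001000000000 := rS 0x9532b2cfebb2ac461a4f5a96480bd5c9860a63 (k8 a4751 a4917 a397 a4425 i1417 a4924 i866 i880 (k8 a1821 a413 a380 a330 i1949 i849 a4437 i1050 (k2 i1182 a4150 k0))) (by decide +kernel)
def a4929 : PP 8 4 T 0x10002002002000000000010000000020800040000400040000008000000001500000000 := rS 0x2b9acab10063099a8742974f2292189cb20f202453b0563845062b (k8 a61 i919 a441 a27 a4917 a4419 a102 a4924 (k8 i338 i866 a331 i21 a443 i1074 a2497 a545 (k8 a4927 a4928 i2032 a276 a1038 i1489 i467 a3062 (k1 a3812 k0)))) (by decide +kernel)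
def a4930 : PP 8 4 T 0x2002002000000000010000001020100040000400040000008000000001500000000 := rS 0xb62a964d8f4c2af8c9cc5e63 (k8 a4751 a4887 a4390 a2965 a427 a397 a365 a4929 (k4 a336 a24 i1243 a3580 k0)) (by decide +kernel)
def a4931 : PP 8 4 T 0x2000001000000000000000001020080040000000000000008020000000000000002 := rS 0x44c7eb71489df8532690d1273 (k8 a4390 i279 i21 i445 a4925 a4485 a331 a443 (k4 i1902 i1371 a4532 a4905 k0)) (by decide +kernel)
def a4932 : PP 8 4 T 0x402000001000000000000000001020100040000000000000008020000000000000002 := rS 0xb63c0f8542913c65f8532690d2263 (k8 a4751 a102 i21 i445 a4925 a4485 a2965 a331 (k4 a443 a127 a4905 a4434 (k2 i403 i1932 k0))) (by decide +kernel)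
def a4933 : PP 8 4 T 0x2000000000000000000000001020100000000000000000000000000001000400002 := rS 0x154ae0c8831c7e8715c499a9a4bbc44223629dc66674592834198289c1e6157bf0a64d21900c62f (k8 a4887 a4751 a4924 i21 i445 a4925 a4485 a427 (k8 a397 i338 a331 a4917 i310 a437 a4066 a4110 (k8 a4284 a4457 a4251 a4100 i272 i783 a4930 a4931 (k8 a336 a4928 a4932 a8 a69 i402 a4098 a4637 (k4 a2943 a58 i1489 a4926 k0))))) (by decide +kernel)
def a4934 : PP 8 4 T 0x2100000000000000000000000000000800000000000010000040000001000000002 := rS 0x30ac66 (k4 a4304 a4353 i449 a3062 k0) (by decide +kernel)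
def a4935 : PP 8 4 T 0x2002000000000000000000000020100000000000000000000000000001000000002 := rS 0xb125528f2c90c8105 (k8 a4917 a4924 i21 i866 a4934 a450 a2898 a4933 (k1 i739 k0)) (by decide +kernel)
def a4936 : PP 8 4 T 0x2000000000000000000000000020000000000000000000810020000000000000000 := rS 0x15217 (k2 a4895 a3280 (k1 a4925 k0)) (by decide +kernel)
def a4937 : PP 8 4 T 0x2000000000000000000000000020000000000000000000000000000001000000002 := rS 0x370b22a734c125f853479361a1938c1452432c9005e63 (k8 a4751 a4887 a4924 i866 i21 a443 a4917 i796 (k8 i310 a413 i445 a4934 a4936 a4485 a2898 a4935 (k4 a4435 a57 a3580 a389 (k1 a3614 k0)))) (by decide +kernel)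
def a4938 : PP 8 4 T 0x2002000000000000000000000020000000000000000004000000000001000002000 := rS 0x183433f28d965572b4c9ea55a884984b010642e0129aacfb0556964802f (k8 a4887 a4924 i866 a420 a4917 a1978 a97 a421 (k8 a4937 i740 i310 a4385 i1045 a4066 i2544 i880 (k8 i363 a1821 a344 a392 i1489 i466 i1647 a4397 (k2 a133 i1515 (k1 a393 k0))))) (by decide +kernel)
def a4939 : PP 8 4 T 0x10002100000000000004014000000001000008000400000004004000155000008000000 := rS 0x9f1d9e0f691 (k4 i913 i817 a4927 i395 (k2 a3237 a262 k0)) (by decide +kernel)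
def a4940 : PP 8 4 T 0x10002000000000000000000000000000100000402008000000004000000110000000008 := rS 0xf14d8ee26391ba245e63 (k8 a4751 a4887 i191 a446 a401 a398 a4662 i1074 (k2 a3166 a419 k0)) (by decide +kernel)
def a4941 : PP 8 4 T 0x2002000000000001004001000080141005090008000005064020000101400000008 := rS 0x16c3f40aecf42a3544cba79418a4b22129abe3263 (k8 a4751 a2965 a427 a421 i2544 i866 a443 i925 (k8 a4940 i532 a4516 a460 a2701 a406 i1946 i1893 (k2 i407 a4396 (k1 i851 k0)))) (by decide +kernel)
def a4942 : PP 8 4 T 0x2100000000000000000000000000000000000800040001000000000000000000000 := rS 0xcb17 (k2 a332 i1547 (k1 a4379 k0)) (by decide +kernel)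
def a4943 : PP 8 4 T 0x2002000000000000800000000020000000000008040001000000000001000000000 := rS 0x5b2ee9e81419a8f4a72e8e9e22a899fd44c127a956a91118852a9729abd726166a14faad2ca1cee3161b141a0f2b9319e9d19c653314169cd12350d05c804b0c8dc720200c145e63 (k8 a4751 a4887 a4917 a4937 a4385 a401 a446 i310 (k8 i1045 a4924 i740 a437 i356 i191 i835 a195 (k8 a3580 a57 a2965 a4457 a4419 a4458 a4066 i529 (k8 i338 a4938 a277 a276 i1003 a4942 a4939 i866 (k8 a420 a1978 a1949 a2010 a397 a4425 a427 a421 (k8 a24 a14 i2544 i2062 i913 i880 i363 a1821 (k8 i1246 a4130 a4941 a4436 a2701 a61 a419 a761 (k8 i334 i395 a460 i920 i1893 a394 i1946 a4396 (k1 a3009 k0))))))))) (by decide +kernel)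
def a4944 : PP 8 4 T 0x2002000000000000000000000020000000000008040001000000000001000000000 := rS 0xa3609f996873b93d4ab51ba447235118852a974994d57194cc505a7344868669d67ae4c2cd429f55a5962b0c1f0518834ae4c258642e40010045e63 (k8 a4751 a4887 a4937 a4385 a4924 i740 i310 i1045 (k8 a4066 i529 a4938 i1003 a4917 i338 a276 a277 (k8 i866 a420 a1978 a1949 a2010 a397 a4425 a4458 (k8 a4419 a4457 a437 i191 i835 a195 a3580 a57 (k8 a2965 a97 a421 a115 a24 a14 i2544 i2062 (k8 i356 a401 i913 a446 i880 i363 a1821 a4942 (k4 a4939 a4943 a4397 i1515 (k2 a4941 i2033 k0)))))))) (by decide +kernel)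
def a4945 : PP 8 4 T 0x40020020000000000040140000000a5000000000000000000000000005001000000000 := rS 0x2dd02832e8fcf42a53bc58e3aa713c72372612c6a9729abe32998a0b4e689010682e01200645e63 (k8 a4751 a4887 i310 a4924 a4937 i740 a437 a4385 (k8 i191 i835 a195 a3580 a57 a2965 a427 a421 (k8 a24 i356 i1045 a4066 a446 a401 a1821 a463 (k8 a262 a59 a355 i334 i394 i395 i406 a761 (k4 i920 i1893 i851 a4396 k0))))) (by decide +kernel)
def a4946 : PP 8 4 T 0x2002000000000000000000000020000000000008040000000000000001000000000 := rS 0x31d7c2b5b2047f1341974f4bb431e53ca260b922e762a0c586c50695d72cf4e8cc9ea58289c1e4c258d52a9749c505a7344808341700900325330abc5e63 (k8 a4751 a4887 a427 a397 a421 i310 a4924 a4937 (k8 i740 a437 a4385 i191 i835 a195 a3580 a115 (k8 a24 a14 i356 i1045 a4066 i338 a331 a4917 (k8 i363 a1821 a4457 a4419 a4458 a4425 i529 a4938 (k8 a277 a276 i1003 a4944 i791 a332 a429 a408 (k8 i2033 a4945 a3237 i1715 i1685 i1716 i532 i1440 (k8 a69 i407 i1893 a4396 i851 i857 a1581 i1719 k0))))))) (by decide +kernel)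
def a4947 : PP 8 4 T 0x2002000000000000000000000020000008000008000000000000000001000000000 := rS 0x5dafd04ce3f1f4f6784e95e9f0d279c56b051496496911c94d5aab8ca66282d39a2405174fb2caa66248682e01200645e63 (k8 a4751 a4887 i310 a4924 a4937 i740 a437 a4375 (k8 a4946 i1620 i545 a414 a350 a4385 i191 i835 (k8 a195 a3580 a57 a2965 a97 a420 a421 a401 (k8 i913 i1045 i866 a443 a4917 i880 i796 a1821 (k8 a413 a20 a387 i1645 a3599 i818 a1978 a4397 (k4 a463 a4940 a4525 a959 (k1 i926 k0))))))) (by decide +kernel)
def a4948 : PP 8 4 T 0x14002000000000000008004000000024000004000008000000000000000001000000000 := rS 0xec752b444f2cc418ad8ef062a1477051489cb2391ba3c6a231093096998a0b4e689010682e01200645e63 (k8 a4751 a4887 i310 a4924 a4937 i740 a437 a4385 (k8 i191 i835 a195 a3580 a57 i1045 a4066 i2544 (k8 i2062 i356 i872 a446 a401 i866 a331 a443 (k8 a4917 i1145 i1871 i1793 a419 a2286 a61 i919 (k4 i2032 a4940 a380 a2010 (k2 i1067 a466 (k1 i1628 k0))))))) (by decide +kernel)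
def a4949 : PP 8 4 T 0x2002000000000000000000000021000000001008000000000000000001000000000 := rS 0x66f16291c1b112b214baa5219641e3754a4446212612d2a9756995965524b04d6cda733d0ec3188e46b174f99a32998a0b4e689010682e0120064c62f (k8 a4887 a4751 i310 a4924 a4937 i740 a437 a4385 (k8 i191 i835 a195 a3580 a57 a2965 a4946 a414 (k8 a350 i356 a401 a4387 a1105 a4947 a4948 a463 (k8 a36 i548 a193 a4375 i1620 i545 i38 a420 (k8 a24 a14 i1045 a4066 i2544 i2062 i913 i1084 (k8 a446 i338 i866 i21 i363 i532 a545 a460 (k4 a58 a3062 i1577 a3128 (k2 a198 i192 (k1 a4914 k0))))))))) (by decide +kernel)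
def a4950 : PP 8 4 T 0x10002000000000000000000000000020000000002008000000000000000001000000000 := rS 0x2a7820876291c8dc96998a0b4e689010682e01200645e63 (k8 a4751 a4887 i310 a4924 a4937 i740 a437 a4385 (k8 i191 i835 a195 a3580 a57 i1045 a446 a401 (k4 a443 a4662 a4940 a419 (k2 i919 a126 k0)))) (by decide +kernel)
def a4951 : PP 8 4 T 0x2100002000000001004000000000000004000000400110000040000015500004000 := rS 0x11c1a56420ad8ac7 (k8 a27 a49 a61 i2032 a1949 a3062 i1577 a3926 k0) (by decide +kernel)
def a4952 : PP 8 4 T 0x2002000000000000000000000020000000000008000008000000000001000000000 := rS 0x1991c1aa51baa52a975699596c178b35388f2e9e4d6cf4fc653314169cd128761c5c62661c8d4424c2588c34170c808020f2c89c8629204145e63 (k8 a4751 a4887 a4917 a4924 a443 i21 a331 i866 (k8 i338 a4937 a4385 i310 i740 a437 i2062 i1045 (k8 a4066 i2544 i356 a401 a4946 a4387 a350 a1105 (k8 a4947 i191 i835 a195 a3580 a57 a2965 a414 (k8 a4948 i548 a4950 i532 i872 a4949 i1910 a4951 (k8 a193 i545 i38 a420 a24 a14 i1084 a446 (k4 i363 a3062 i1577 i192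 (k1 a4914 k0)))))))) (by decide +kernel)
def a4953 : PP 8 4 T 0x2002000000000000000000000020000000000008000000000000000001000000000 := rS 0x1d4ae7a1d3c59a9c2e9e4d6cf43b0caa314fc5ccd051490c4e59078e46e49478d446212612e32998a0b4e689010682e0120064c62f (k8 a4887 a4751 i310 a4924 a4937 i740 a437 a4385 (k8 i191 i835 a195 a3580 a57 a2965 i1045 a4066 (k8 i2544 i2062 i356 i872 a4375 a446 a401 i338 (k8 i866 a331 i21 a443 a4917 a4946 a350 a414 (k8 a4387 i1620 a1105 a4947 a4948 i548 a4950 i532 (k8 a4949 i1910 a4951 a419 i395 a4952 a1851 a1179 k0)))))) (by decide +kernel)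
def a4954 : PP 8 4 T 0x2000000000000001000000000002001001000000000114020000000000000000000 := rS 0x2aa1cd665 (k4 a407 a4411 i1645 i792 (k1 a460 k0)) (by decide +kernel)
def a4955 : PP 8 4 T 0x2002000000000000011000000021000004000000000002000000801001000000000 := rS 0x1449f8bae4ec6752c14984b24a552714169cd120230b3d86350d05c02400c8cc5e63 (k8 a4751 a4887 i399 i310 a4924 a4937 i740 a437 (k8 i356 i373 i1145 a397 a4385 i191 i835 a195 (k8 a3580 a115 a14 a4375 i1045 a4066 a4917 i363 (k4 i1620 i791 a4425 a332 (k2 i1715 i2033 (k1 a4945 k0)))))) (by decide +kernel)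
def a4956 : PP 8 4 T 0x2002001000000000000000000020000004000000000004000000000001000000000 := rS 0x1f8aa8f309be8abd3eab462c1628341e3e5b204f4975793d06a729a750b05668a875194cc505a73448dcba4c25a4472020d05c02192c9005e63 (k8 a4751 a4887 a4924 i866 i310 a4937 i740 a437 (k8 a4385 a401 i913 i1045 a4066 a761 a446 i191 (k8 i835 a195 a3580 a57 a2965 a419 i394 i888 (k8 a4917 a1949 a4954 a421 i334 i920 a1821 a427 (k8 a24 i395 i1893 a4396 i851 i338 a4938 a277 (k8 i1426 i1003 a420 a1978 i1988 a116 a4953 a397 (k4 i872 a4955 a3505 a3910 k0))))))) (by decide +kernel)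
def a4957 : PP 8 4 T 0x2002001000000000000000000020000000000000000004000000000001000000000 := rS 0x146b95da790c334eb0462c506a154b052c83d22354aa4cf23e5ead9027a4babc9e8353974984b29b34543a8ca66282d39a247237010682e01200645e63 (k8 a4751 a4887 i310 a4924 a4937 i740 a437 a4385 (k8 a446 a401 i191 i835 a195 a3580 a57 a2965 (k8 a419 i394 i888 a421 i1045 a4066 a761 i334 (k8 i920 a1821 a427 a24 i395 i1893 a4396 i1988 (k8 i851 i1069 a115 a14 i356 i913 i338 i866 (k8 a4917 i363 a1949 a4938 a277 i1003 i1426 a4954 (k4 i399 a4956 a3599 i1684 (k2 i1190 i407 (k1 i2033 k0))))))))) (by decide +kernel)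
def a4958 : PP 8 4 T 0x2002001000000000000000000020000000000000000000000000000001000000000 := rS 0x182338b8c4cc470699597112b1754a43078e46ea9248d446212612d2a974cc505a7344808341700900326156aacc62f (k8 a4887 a4751 a97 a420 a397 i310 a4924 a4937 (k8 i740 a437 a4385 i191 i835 a195 a3580 a57 (k8 a24 a14 i1045 a4066 i2544 i2062 i356 a4375 (k8 i1084 a446 a401 i338 i21 i363 a761 a4957 (k8 a58 a4399 i1580 a3062 i1577 i529 a1332 a4168 (k2 i192 a193 (k1 a4914 k0))))))) (by decide +kernel)
def a4959 : PP 8 4 T 0x2100002000000000000000000000000000000000000008020040000001400004000 := rS 0xc323834d6c5 (k4 a49 i2353 a3062 i1577 (k2 a276 a198 k0)) (by decide +kernel)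
def a4960 : PP 8 4 T 0x2002000000000000000000000020000000000000000100000400000001000000000 := rS 0x17ca25b2e502673d278f24f38a9552911c8d52a974994cc2af8ca66282d39a25063189a1986c715b3442852c8a44ec519b05c80d2bbc0461a2612c04190b8048705079005e63 (k8 a4751 a4887 a4924 i338 a4917 i21 a4937 i740 (k8 i310 a4385 i1045 a4066 a437 i2062 a4958 a4959 (k8 a4938 a425 a408 i192 a49 a331 a443 i866 (k8 a1949 i2544 a2010 a61 a27 a276 i2032 a69 (k8 i1003 i919 i191 i835 a195 a3580 a57 a2965 (k8 a427 a397 a421 a115 a24 a14 i356 a401 (k8 i913 i1084 i363 i796 a1821 a3719 a3599 a406 (k4 a414 i1893 a4425 a4396 (k2 i2033 i857 (k1 i1719 k0)))))))))) (by decide +kernel)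
def a4961 : PP 8 4 T 0x2002000000000000000000000020000000000000000200000000000001000000000 := rS 0x2068aa65bc349e2913930969729c653314169cd12020d05c02400c9bc7a8315bc05e63 (k8 a4751 a4887 a4958 a61 i919 a365 a4953 i310 (k8 a4924 a4937 i740 a437 a4385 i191 i835 a195 (k8 a3580 a57 a2965 a421 a24 i1045 a4066 a331 (k8 a443 a1821 a413 a4393 a3209 a410 i1859 a4373 k0)))) (by decide +kernel)
def a4962 : PP 8 4 T 0x2002000000000000000000000020000000000000000000000000000001000000000 := rS 0x5f2896cb9408cccec13d2788c792ec4d0c31618350acd2ba0c56c563bc232ad57984a64f38a960a292189cb20f54a44723511884984b4aa5d32938a0b4e689010682e01200645e63 (k8 a4751 a4887 i310 a4924 a4937 i740 a437 a4385 (k8 i191 i835 a195 a3580 a115 a57 a24 a14 (k8 i1045 a4066 i2544 i2062 i356 a401 i913 i1084 (k8 i338 i866 a331 i21 a443 a4917 i363 i796 (k8 a1821 a421 a397 a427 a420 a2965 a4958 a27 (k8 a49 a61 i919 a4959 a2010 a1949 a4938 a276 (k8 i1003 i2032 a69 a4961 a3719 a4960 a3599 a406 (k8 i1533 a414 i1711 i1893 a4425 a4396 i2033 i857 (k1 i1719 k0)))))))))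 (by decide +kernel)
def a4963 : PP 8 4 T 0x2000000000000001000008008000000001000000000114040000000000000000000 := rS 0x55 (k2 i1658 a1497 k0) (by decide +kernel)
def a4964 : PP 8 4 T 0x10002101000000000000415008000101115010000000000114040000151115500000200 := rS 0x56c77821c769f1928d72ab3cb350a2f (k8 a4887 a1949 a2010 i1932 a4963 a4426 i201 i2033 (k4 i1712 i399 a3599 a419 (k2 a2286 a61 (k1 i2032 k0)))) (by decide +kernel)
def a4965 : PP 8 4 T 0x10002000000000000001014000000401141011400000000000000005148115500000000 := rS 0x863c8ad34c7780ed3e2f (k8 a4887 i1712 i399 a419 a2286 i2034 a61 i1074 (k2 i2032 a3599 k0)) (by decide +kernel)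
def a4966 : PP 8 4 T 0x2100000000000000401000000100014010000800040000800000015100000000000 := rS 0x28d72ac321522e2f (k8 a4887 a332 a4942 a4379 i831 i1027 a1822 i2033 k0) (by decide +kernel)
def a4967 : PP 8 4 T 0x2000000000000040001010000500154010000000800000000004155100000000200 := rS 0x1e03aa2a6d5cbc552887a2f (k8 a4887 a122 i2033 i201 i586 i585 i1417 a381 (k2 i2034 a442 (k1 a333 k0))) (by decide +kernel)
def a4968 : PP 8 4 T 0x10002000000000000000000000000020000000000000000100000800000001000000000 := rS 0x658bae0d4872a9dd9e67198fd6ed3528a44e371a8852a974ca4e282d39a2506cb538f410c3628c58207293f49f0d21a759a852b88e0a4c25a4472020d05c02192c9005e63 (k8 a4751 a4887 a4924 i866 i310 a4937 i740 a437 (k8 a4385 a401 i913 i1045 a4066 a4917 i2062 i1577 (k8 a1949 a2010 a4954 i21 a413 a1821 a4962 a4371 (k8 i453 i1534 i1532 a366 a354 i827 a122 a1825 (k8 i621 a334 i191 i835 a195 a3580 a115 a57 (k8 a24 a14 i2544 i356 a446 a331 a443 i363 (k8 a344 a4964 i403 a4965 i1617 a4458 a4966 i791 (k4 a4939 a460 a4967 a465 (k2 i1027 a4379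 k0))))))))) (by decide +kernel)
def a4969 : PP 8 4 T 0x2000000000000000000000000020000000000000000100000800000001000000000 := rS 0x431fcd6553319464a35caad6c3e45a6c7718528e46e4c258d52a974ca4e282d39a2596a71e82062c103949fa4f8690d9a852b88c34170c80803052c9005e63 (k8 a4751 a4887 a4924 i866 a4917 a4937 a4385 i310 (k8 i740 a437 i2062 i1577 a1949 a2010 i21 a413 (k8 a1821 a4962 a4371 i453 i1534 i1532 i827 a122 (k8 a1825 i621 i191 i835 a195 a3580 a115 a57 (k8 a24 a14 i356 i1045 a4066 a446 a401 i363 (k8 a4968 a345 a41 a52 i2034 i403 a4963 a4426 (k8 i201 i2033 a4414 a4457 i792 i547 a4533 a460 (k1 i856 k0)))))))) (by decide +kernel)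
def a4970 : PP 8 4 T 0x2000000000000000000000000020000000000000000200000000000001000000000 := rS 0x54f03c0a4984b4ba66282d39a24041a0b80432835381c863d04149fa4f869005e63 (k8 a4751 a4887 a4924 a413 a1821 a4962 a4371 i827 (k8 a122 i21 i453 a1825 a334 i310 a4937 i740 (k8 a437 a4385 i191 i835 a195 a3580 a57 a24 (k4 i1045 a4066 a443 i532 (k2 a761 a3488 (k1 a126 k0)))))) (by decide +kernel)
def a4971 : PP 8 4 T 0x12100000000000000400000000100815018001000000000800000014100100000000 := rS 0x1807e1899d6c764f44d0719 (k8 a41 a334 a69 a3599 a4927 a991 a414 i1507 (k2 i856 a4966 (k1 i1515 k0))) (by decide +kernel)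
def a4972 : PP 8 4 T 0x2000002000000000000000000020000000000000000000000000000001000000000 := rS 0x6b2ac4018c243a159a794d15c222b62b1c7e3b52c145227078dd22391a88c424c25a552e9949c505a73448682e1941b2cb2a70390c7a08293f49f0d200cc8e5d010045e63 (k8 a4751 a4887 a4937 a4385 a4970 a4969 i192 a4924 (k8 a413 a1821 a4962 a4371 i827 a122 i21 i453 (k8 a1825 i866 i621 a334 i310 i740 a437 i191 (k8 i835 a195 a3580 a115 a57 a24 a14 i1045 (k8 a4066 i2544 i2062 i356 a401 i913 a446 i338 (k8 a331 a443 a4917 i363 a333 a6 a27 a49 (k8 a61 a441 a4959 i2034 a3488 a2010 a1949 a4971 (k4 i2032 a276 a1038 i1489 (k2 i467 a3812 k0))))))))) (by decide +kernel)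
def a4973 : PP 8 4 T 0x2000000000000000000000000020000000000000000000000000000041000000000 := rS 0x9a1d8fc72374ba66282d39a24041a0b80432a70390c7a08293f49f0d203c45e63 (k8 a4751 a4887 a4972 a4924 a413 a1821 a4962 a4371 (k8 i827 a122 i21 i453 a1825 i310 a4937 i740 (k8 a437 a4385 i191 i835 a195 a3580 a57 a24 (k4 a446 a401 i402 i394 (k2 i2034 a828 k0))))) (by decide +kernel)
def a4974 : PP 8 4 T 0x2101000000000000404000040140014010000000800000000000814100000004200 := rS 0x2e58231558358a2f (k8 a4887 i1790 i468 i585 i1159 i1266 a4426 i2033 k0) (by decide +kernel)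
def a4975 : PP 8 4 T 0x2000000000000000400000000140014010000000000002820000014100100000000 := rS 0x30462b93f1d8c82f (k8 a4887 i792 i791 i830 i1027 i1507 i1515 i2033 k0) (by decide +kernel)
def a4976 : PP 8 4 T 0x2100000000000001000000000000000004000000400115000000000000000000000 := rS 0x85 (k2 a1949 a460 k0) (by decide +kernel)
def a4977 : PP 8 4 T 0x2001000000000000000001000000000000000000000008820000000001000000000 := rS 0x15474 (k2 i530 i568 (k1 a3049 k0)) (by decide +kernel)
def a4978 : PP 8 4 T 0x2000000000000000000000000020000000001000000000000004000001000000000 := rS 0x1dd0c67359ea323a57a6e88b76983c6e911ca5d3283538f410f189b0d9a2a2aa8c0e431991cbacb49a562873108b46a1a44a94ea572913e1afd2605d6a4b0100433052c9005e63 (k8 a4751 a4887 a4924 i866 a4917 i310 a4937 a4385 (k8 i1045 i880 i740 a4066 a4962 a413 a1821 a4371 (k8 a4977 a1851 i363 i191 a437 i356 a195 i2544 (k8 i835 a3580 a14 a115 i621 a4970 a4969 i192 (k8 i21 i453 a1824 a4975 a4973 i888 i371 a8 (k8 a4972 i827 a122 a1825 a334 a57 a24 a401 (k8 i913 a446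 i338 a344 i851 a442 a991 a381 (k8 i2034 a345 i395 a4974 a1179 a4976 a4942 a4927 k0)))))))) (by decide +kernel)
def a4979 : PP 8 4 T 0x2000000000000000000000000020000000000000000000000008000001000000000 := rS 0x62c106b14d4873fae556b607b0d9a2a2aa8c0e431991cbacb49a562873108b46a1a44a950a572913e1afd2612c04190b8056b052c9005e63 (k8 a4751 a4887 a4924 i866 a4917 i880 a4937 i740 (k8 i310 a4385 i1045 a4066 a4962 a413 a1821 a4371 (k8 a4977 a1949 i363 i191 a437 i356 a195 i2544 (k8 i835 a3580 a14 a115 i621 a4970 a4969 i192 (k8 i21 i453 a1824 a4975 a4973 i888 i371 i338 (k8 i403 a4963 a4426 a4533 i856 a4976 i1790 i468 (k2 i1426 i1003 (k1 i2033 k0)))))))) (by decide +kernel)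
def a4980 : PP 8 4 T 0x2000000000000000000000000020000000000000000000000000000001000000000 := rS 0xed36785b8fe262a1ea9c100741949fa994bc505a734886896891b8e42e020090c810d278645e63 (k8 a4751 a4887 i310 a1821 a413 a4924 i21 a4937 (k8 a4385 i740 a401 a446 i191 i1045 a437 i913 (k8 i835 a195 a3580 a24 a57 a4962 a4371 a334 (k8 i453 i827 a1825 a122 a4973 a8 a4979 i851 (k4 a4978 a991 a4662 i2034 k0))))) (by decide +kernel)
def a4981 : PP 8 4 T 0x2000000000000000000000000000540010000000000000800004400100008000008 := rS 0xf54e08200dc722f (k8 a4887 a401 a446 i188 i827 a434 a122 i2034 k0) (by decide +kernel)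
def a4982 : PP 8 4 T 0x2001000000000000000000000020000000000000000000000000000000000000004 := rS 0x3f9620a612110400d30e87c488926124341925aa42e5227c34c62f (k8 a4887 a4751 a413 a1821 a4371 a4895 a3454 i566 (k8 i310 a437 a4375 a440 a4372 a4980 i90 i89 (k8 a344 a4385 i788 i445 a3124 a570 i858 i2581 (k1 a3519 k0)))) (by decide +kernel)
def a4983 : PP 8 4 T 0x2000000000000000000001000000000400000000000020000000000000000000000 := rS 0x19caf05 (k4 a2 i119 i544 a4802 k0) (by decide +kernel)
def a4984 : PP 8 4 T 0x2101000000000000000000000020000000000000000000000000000000000000000 := rS 0x2b0322255079656aa3040911e4001130921a0c92d52172913e1a2f (k8 a4887 a413 a1821 a4371 a4895 a3454 i566 i310 (k8 a437 a4375 a440 a4982 i188 i2597 a4980 i827 (k8 i2073 i881 a4983 i2206 i2549 a38 a3587 a362 (k1 a4708 k0)))) (by decide +kernel)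
def a4985 : PP 8 4 T 0x2001002000000000000000000020000000000000000000000000000100000000000 := rS 0xee342612496a90390c02a304100041a0b864a44f86892082f (k8 a4887 a4984 a4980 a413 a1821 a4371 i310 a4895 (k8 a437 a4982 i188 i827 i2073 i23 i780 i453 (k4 a3454 i566 a4375 a440 (k2 a4893 a3232 (k1 i357 k0))))) (by decide +kernel)
def a4986 : PP 8 4 T 0x2001000000000000040000000020000000000000000000000004000100000000000 := rS 0x42a059a873f1e986a41d50d36bba234d12994b9544e37538f4d6573291cb2b551a3dca2460ab6080820008baf126124341925aa42e5227c345e63 (k8 a4751 a4887 a413 a1821 a4371 a4895 a3454 i566 (k8 i310 a437 a4375 a440 a4985 a761 a4982 i188 (k8 i827 a4984 a445 i1265 a4980 a409 i2597 i2073 (k8 i881 a4983 i205 a63 a4716 a464 a122 a434 (k8 a446 i786 i2549 a989 a837 a4372 a344 a442 (k8 a29 a111 a1010 a4981 a393 i2223 i395 i364 (k4 i928 a3736 i1893 i1670 (k1 a460 k0)))))))) (by decide +kernel)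
def a4987 : PP 8 4 T 0x2001000000000000040000000020000000000000000000000000000100000000000 := rS 0x14ab93f8d508773cb350eb640b0c7c1f4c95466271b9ac62573291cb2b551a3dca2460ab60808200092b1439a24baf126124341925aa42e5227c345e63 (k8 a4751 a4887 a413 a1821 a4371 a4895 a3454 i566 (k8 i310 a437 a4375 a440 a4985 a761 a4372 i835 (k8 a3580 a14 a4982 i188 i827 a4984 a445 i1265 (k8 a4980 a409 i2597 i2073 i881 a4983 i205 a63 (k8 a4716 i1002 a464 a446 i786 i2066 i2549 a837 (k8 i90 a4986 i2225 i1332 i403 i928 a3736 i1932 (k4 a669 a460 i357 i1670 (k2 a1710 i364 (k1 a4125 k0))))))))) (by decide +kernel)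
def a4988 : PP 8 4 T 0x2001000000000000000000000020000000000000000000000000000100000000000 := rS 0x50d4a356324d2b1469b94e689548cd46241899582ad8202080020d05c325227c345e63 (k8 a4751 a4887 a413 a1821 a4371 i310 a4895 a437 (k8 a4982 i188 i827 a4984 a445 i1265 a63 i1002 (k8 a4980 i2073 i2066 a3454 a4372 i835 a409 a344 (k8 a3580 a14 a115 a4987 i2242 i2243 a2282 a393 k0)))) (by decide +kernel)
def a4989 : PP 8 4 T 0x2001000000000000000000000020000000000000000000000000000000000000000 := rS 0x2c010682e528693c322f (k8 a4887 i310 a1821 a413 a4371 a4895 a437 a4982 (k2 a4988 a195 k0)) (by decide +kernel)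
def a4990 : PP 8 4 T 0x2000000000000000000001000120014000000000050000000000014000000000000 := rS 0xcb5c9fe1ae588890c2a956aadf863 (k8 a4751 a4989 a97 a420 a450 a397 a4980 a38 (k4 a409 a413 i843 a1045 (k2 a4768 a4374 k0))) (by decide +kernel)
def a4991 : PP 8 4 T 0x2000000000000000000000000060004400000000050000000000010200000000000 := rS 0x45ceab83f2912ab5889dc6624 (k8 a4980 i287 i804 a38 i881 i979 a4990 i364 (k4 i1383 i1667 a465 a466 k0)) (by decide +kernel)
def a4992 : PP 8 4 T 0x2000000000000000000000000020000000000000000000000000000200008000000 := rS 0x8a410deb906ad14aa2498ccca674795494591a83c9a0001c34e2e5122ac804329bf02e8939924c62f (k8 a4887 a4751 a4375 a4435 i279 i66 a4989 a421 (k8 i819 a3000 a97 a4980 a409 i796 a413 a195 (k8 a4385 i788 a4409 a4376 a506 a4066 i764 a4381 (k8 a3344 i1050 i287 a1020 a4991 i115 i325 i1647 (k4 a1045 i1399 a3587 a389 (k1 a853 k0)))))) (by decide +kernel)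
def a4993 : PP 8 4 T 0x20000020000000000004000000a0000000000000000000000000004000008000000 := rS 0x1069e158ec9f118cc50e64930aa55f433e88cfea52ab0d22022e9319e9d8b0d5ca572c414622d3890086535a0901aab7e03c5e63 (k8 a4751 a4887 a1823 a4989 a97 i1647 a4980 i325 (k8 a421 i819 a3000 i796 a4992 i1652 a855 a3587 (k8 i119 a409 i326 a429 a399 a368 a506 a4756 (k8 i788 a110 a276 i764 i115 i843 i111 i1593 (k8 a395 a427 a450 a397 a4375 a4435 a3580 a561 (k4 a38 a1821 a333 a61 (k2 a4633 i919 (k1 a4413 k0)))))))) (by decide +kernel)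
def a4994 : PP 8 4 T 0x20000000000000000000000000a0000000000000000100000000800000008000000 := rS 0x40add067a1529e1a4f29bf12f14169cc923f5a0905e63 (k8 a4751 a4887 a4980 i325 i2236 a4375 a4435 a4992 (k8 a3580 a24 a4989 a421 a1821 a413 i334 i394 (k4 i395 i920 i851 i1893 (k1 a4361 k0)))) (by decide +kernel)
def a4995 : PP 8 4 T 0x20000000000000000000000000a0000000000000000000000000004000008000000 := rS 0x17cc7780ec6e392e80898572c2759f058b1c5ca402194e331439924c2a95783d68241a83556fc188b45e63 (k8 a4751 a4887 a4992 i1652 a4989 a97 i1647 i326 (k8 a4980 i325 a1823 a427 a450 a397 a4375 a4435 (k8 a3580 a561 a421 i819 a3000 a409 i796 a429 (k8 a855 a368 a399 a3587 i119 a506 i788 a4756 (k4 a401 a446 a4994 a419 (k2 a1190 a4993 (k1 i1719 k0))))))) (by decide +kernel)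
def a4996 : PP 8 4 T 0x2000000000000000000000000020000000000000000000000000008000000400000 := rS 0x4b26a3806242010ca6fc (k8 a4989 a421 i819 a3000 a4980 i2066 i287 i788 (k2 a4381 a4066 k0)) (by decide +kernel)
def a4997 : PP 8 4 T 0x200000000000000000000000000000000000000000000000000000000000000000a := rS 0x0 (k1 i23 k0) (by decide +kernel)
def a4998 : PP 8 4 T 0x2000000000000000000000000000000000000000000000000000000000000000005 := rS 0x0 (k1 a4385 k0) (by decide +kernel)
def a4999 : PP 8 4 T 0x20000000000000000000000000000000000000000000000000a0000000000000000 := rS 0x0 (k1 i21 k0) (by decide +kernel)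
def a5000 : PP 8 4 T 0x2000000000000000000000000000000000000000000000000050000000000000000 := rS 0x0 (k1 a3000 k0) (by decide +kernel)
def a5001 : PP 8 4 T 0x2000000000000000000000000000000000000000000000000820000000200000000 := rS 0x43 (k2 a4999 i1530 k0) (by decide +kernel)
def a5002 : PP 8 4 T 0x2000000000000000000000000000000000000000000000000010000080000000000 := rS 0x42 (k2 a5000 a416 k0) (by decide +kernel)
def a5003 : PP 8 4 T 0x2000000000000000000000000000000000000000000002000410000000000000000 := rS 0x42 (k2 a5000 i704 k0) (by decide +kernel)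
def a5004 : PP 8 4 T 0x2000000000000000000000000000000000000000000002000010000000100000000 := rS 0x42 (k2 a5000 i703 k0) (by decide +kernel)
def a5005 : PP 8 4 T 0x2000000000000000000002000000000000000000000002000010000000000000000 := rS 0x42 (k2 a5000 i2458 k0) (by decide +kernel)
def a5006 : PP 8 4 T 0x2000000000000000000000000000000000000000000010000010000002000000000 := rS 0x42 (k2 a5000 i858 k0) (by decide +kernel)
def a5007 : PP 8 4 T 0x2000000000000000000000000000000000000000000020000010000002002000000 := rS 0x42 (k2 a5000 a4356 k0) (by decide +kernel)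
def a5008 : PP 8 4 T 0x2000000000000000000000000000000000000000000000000010000002000001000 := rS 0x42 (k2 a5000 i859 k0) (by decide +kernel)
def a5009 : PP 8 4 T 0x2000000000000000000000000000000000000000000000010010010002000000000 := rS 0x42 (k2 a5000 a289 k0) (by decide +kernel)
def a5010 : PP 8 4 T 0x2000000000000000000000000020000000000000000000400010000000000000000 := rS 0x42 (k2 a5000 i819 k0) (by decide +kernel)
def a5011 : PP 8 4 T 0x1002000000000000040000000000000000010000000000000000000000100000000000 := rS 0x2f (k2 a4887 a120 k0) (by decide +kernel)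
def a5012 : PP 8 4 T 0x2000000000000004814000080001010000000000000000000000155000000000080 := rS 0x2f (k2 a4887 a511 k0) (by decide +kernel)
def a5013 : PP 8 4 T 0x2000000000000000000000002000000000000000000000000000000000000000080 := rS 0x2f (k2 a4887 i456 k0) (by decide +kernel)
def a5014 : PP 8 4 T 0x8002001000000000080400000005000000000000000010000000000000000000002004 := rS 0x63 (k2 a4751 a4998 (k1 a282 k0)) (by decide +kernel)
def a5015 : PP 8 4 T 0x1002000000000000000000004000000000000500000001100420000000000000000000 := rS 0x63 (k2 a4751 a4365 k0) (by decide +kernel)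
def a5016 : PP 8 4 T 0x2001000000000000000000000000000000000000000000020000000000089000000 := rS 0x63 (k2 a4751 a4368 k0) (by decide +kernel)
def a5017 : PP 8 4 T 0x2000000000000000800000000000000000000000000020010010000000000000000 := rS 0x42 (k2 a5000 a542 k0) (by decide +kernel)
def a5018 : PP 8 4 T 0x2000000000000000000000000000000000000000000000010010000000008000000 := rS 0x42 (k2 a5000 i779 k0) (by decide +kernel)
def a5019 : PP 8 4 T 0x2000000000000000000000000000000000000000000000000020000000000800008 := rS 0x1 (k2 a4997 i740 k0) (by decide +kernel)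
def a5020 : PP 8 4 T 0x2000000000000000000000000000440000000000000000812010000020000000008 := rS 0x42 (k2 a5000 a917 k0) (by decide +kernel)
def a5021 : PP 8 4 T 0x20002000000000000000000000041000140000000000001000000000000000000000000 := rS 0x63 (k2 a4751 a260 k0) (by decide +kernel)
def a5022 : PP 8 4 T 0x2000000000000000000000041000540040000000001000000000000000000000000 := rS 0x63 (k2 a4751 a336 k0) (by decide +kernel)
def a5023 : PP 8 4 T 0x2000000000000000000000000400540010000000000000000005540100000000000 := rS 0x2f (k2 a4887 i2034 k0) (by decide +kernel)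
def a5024 : PP 8 4 T 0x400000000000000002000000001000000010400000400540010000000000000000001560100000000000 := rS 0x2f (k2 a4887 a204 k0) (by decide +kernel)
def a5025 : PP 8 4 T 0x1000000000001002000000000000000000000001000540000000000001000000000000000000000000 := rS 0x63 (k2 a4751 a162 k0) (by decide +kernel)
def a5026 : PP 8 4 T 0x2000000000000000000000000000000000000000002000000000000100000000004 := rS 0x0 (k2 a4998 i960 k0) (by decide +kernel)
def a5027 : PP 8 4 T 0x2000000000000000000000000000000000000080000000000000000000020000000 := rS 0x2f (k2 a4887 i718 k0) (by decide +kernel)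
def a5028 : PP 8 4 T 0x2000000000000000000000000000000000000080000000000000000000002000000 := rS 0x2f (k2 a4887 i1091 k0) (by decide +kernel)
def a5029 : PP 8 4 T 0x2000000000000000000000002000000000000000000000000000000000000000008 := rS 0x2f (k2 a4887 i1084 k0) (by decide +kernel)
def a5030 : PP 8 4 T 0x2000000000000000000000000800000000000000000000000000800000000000000 := rS 0x2f (k2 a4887 i334 k0) (by decide +kernel)
def a5031 : PP 8 4 T 0x2000000000000000000000000020000000000000000000000000000000002000000 := rS 0x2f (k2 a4887 i310 k0) (by decide +kernel)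
def a5032 : PP 8 4 T 0x2000000000000000000000000080000000000000000000000000020000000000000 := rS 0x2f (k2 a4887 i326 k0) (by decide +kernel)
def a5033 : PP 8 4 T 0x2000000000000000000000000000000080000000000000000000100000000000004 := rS 0x0 (k2 a4998 i452 k0) (by decide +kernel)
def a5034 : PP 8 4 T 0x2000000000000000000000000000000000000000000000000000800000000000004 := rS 0x0 (k2 a4998 a339 k0) (by decide +kernel)
def a5035 : PP 8 4 T 0x2000000000000000000000000000200000000000000000000000800000000000000 := rS 0x2f (k2 a4887 i1106 k0) (by decide +kernel)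
def a5036 : PP 8 4 T 0x2000000000000000000000000000000000000080000000020000000000000000000 := rS 0x63 (k2 a4751 i837 k0) (by decide +kernel)
def a5037 : PP 8 4 T 0x2000000000000000000000000000008000000000020000000000000000000000000 := rS 0x63 (k2 a4751 i1550 k0) (by decide +kernel)
def a5038 : PP 8 4 T 0x2000000000000000000000000000000000000020000000002000000000000000000 := rS 0x63 (k2 a4751 i750 k0) (by decide +kernel)
def a5039 : PP 8 4 T 0x2000000000000000000000000000000020000000000000000000000000000000008 := rS 0x63 (k2 a4751 i191 k0) (by decide +kernel)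
def a5040 : PP 8 4 T 0x2001000000000000000000001000000020000000000000000000000000000000000 := rS 0x63 (k2 a4751 a4372 k0) (by decide +kernel)
def a5041 : PP 8 4 T 0x2001000000000000000000001000200000000000000000000000000000000000000 := rS 0x63 (k2 a4751 a837 k0) (by decide +kernel)
def a5042 : PP 8 4 T 0x2000000000000000000000000000000020000000000000000000000000000000080 := rS 0x63 (k2 a4751 i1340 k0) (by decide +kernel)
def a5043 : PP 8 4 T 0x1002001000000000000000000001000000000000000001000000000000000000000000 := rS 0x63 (k2 a4751 a438 k0) (by decide +kernel)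
def a5044 : PP 8 4 T 0x2000000000000000000000000000000000000000000000008010000000001000000 := rS 0x42 (k2 a5000 i438 k0) (by decide +kernel)
def a5045 : PP 8 4 T 0x2000000000000000000000000000000000000000000000010010000000001000004 := rS 0x42 (k2 a5000 a252 k0) (by decide +kernel)
def a5046 : PP 8 4 T 0x2000000000000000000000000000000000000000000000008010000000000000008 := rS 0x8401 (k2 a4997 a5000 (k1 i437 k0)) (by decide +kernel)
def a5047 : PP 8 4 T 0x2000000000000000000000000000000000000000000000000010000000008000008 := rS 0x8401 (k2 a4997 a5000 (k1 i780 k0)) (by decide +kernel)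
def a5048 : PP 8 4 T 0x2000000000000000002000000000020000000000000000000000000000000000000 := rS 0x2f (k2 a4887 i1518 k0) (by decide +kernel)
def a5049 : PP 8 4 T 0x2000000000000000001010000140014010000000000000000000015100000000000 := rS 0x2f (k2 a4887 i2033 k0) (by decide +kernel)
def a5050 : PP 8 4 T 0x2000000000000000400010015000014000000000051000000000000000000000000 := rS 0x63 (k2 a4751 a4374 k0) (by decide +kernel)
def a5051 : PP 8 4 T 0x2000000000000000000000000000000000000000000000080010000000010000000 := rS 0x42 (k2 a5000 i701 k0) (by decide +kernel)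
def a5052 : PP 8 4 T 0x2000000000000000000000000000000000000000000000002010000002000000000 := rS 0x42 (k2 a5000 i2594 k0) (by decide +kernel)
def a5053 : PP 8 4 T 0x2000000000000000000000000000000000000000000000002010000000000000004 := rS 0x0 (k2 a4998 i959 k0) (by decide +kernel)
def a5054 : PP 8 4 T 0x2000000000000000000000000000000000000000000000000000020000000000004 := rS 0x0 (k2 a4998 a4376 k0) (by decide +kernel)
def a5055 : PP 8 4 T 0x2000000000000000000000000000020000000000000000000000020000000000000 := rS 0x2f (k2 a4887 i1098 k0) (by decide +kernel)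
def a5056 : PP 8 4 T 0x2000000000000000000000000000000000000000080000000000004000000000004 := rS 0x0 (k2 a4998 i450 k0) (by decide +kernel)
def a5057 : PP 8 4 T 0x2000000000000000000000000000000800000000020000000000000000000000004 := rS 0x0 (k2 a4998 i2634 k0) (by decide +kernel)
def a5058 : PP 8 4 T 0x2000000000000000000000000000000800000000000000000010000000008000000 := rS 0x42 (k2 a5000 i2596 k0) (by decide +kernel)
def a5059 : PP 8 4 T 0x2000000000000000000000000000000000000000000000080010000000000000100 := rS 0x42 (k2 a5000 i702 k0) (by decide +kernel)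
def a5060 : PP 8 4 T 0x2000000000000000000000000000000000000000002000000000000000000000104 := rS 0x0 (k2 a4998 i961 k0) (by decide +kernel)
def a5061 : PP 8 4 T 0x2000001000000008000000000000002000000000000000000000100000000000008 := rS 0x1 (k2 a4997 a189 k0) (by decide +kernel)
def a5062 : PP 8 4 T 0x2000000000000000000000000000000000000000000200000010000000000010000 := rS 0x42 (k2 a5000 i443 k0) (by decide +kernel)
def a5063 : PP 8 4 T 0x2000000000000000000000000000000080000000000000000000000000000010004 := rS 0x0 (k2 a4998 i451 k0) (by decide +kernel)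
def a5064 : PP 8 4 T 0x2000000000000000000000000000000080000000000000008010000000000000000 := rS 0x42 (k2 a5000 i2247 k0) (by decide +kernel)
def a5065 : PP 8 4 T 0x2000000000000000000000000000200080000000000000000000000000000000000 := rS 0x63 (k2 a4751 i1939 k0) (by decide +kernel)
def a5066 : PP 8 4 T 0x2000000000000000000000000000000000000000000008000010000000400000000 := rS 0x42 (k2 a5000 i442 k0) (by decide +kernel)
def a5067 : PP 8 4 T 0x2000000000000000000000000000000000000000000000004000000000002000004 := rS 0x0 (k2 a4998 i1037 k0) (by decide +kernel)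
def a5068 : PP 8 4 T 0x2000000000000000000000000000000000000000080020000000000000000000004 := rS 0x0 (k2 a4998 i2262 k0) (by decide +kernel)
def a5069 : PP 8 4 T 0x2000000000000000000000000000000000000000080000008010000000000000000 := rS 0x42 (k2 a5000 i2246 k0) (by decide +kernel)
def a5070 : PP 8 4 T 0x2000000000000000000000000000000000000000880000000000000000000000004 := rS 0x0 (k2 a4998 i2264 k0) (by decide +kernel)
def a5071 : PP 8 4 T 0x2000000000000000800000000000000000000000080000000000000000000000000 := rS 0x63 (k2 a4751 i545 k0) (by decide +kernel)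
def a5072 : PP 8 4 T 0x2000000000000000000000000000000000000000080000000000000000000001004 := rS 0x0 (k2 a4998 i449 k0) (by decide +kernel)
def a5073 : PP 8 4 T 0x2000000000000000000000000000020000000000080000000000000000000000000 := rS 0x63 (k2 a4751 i1674 k0) (by decide +kernel)
def a5074 : PP 8 4 T 0x2000000000000000000000000000000000000000000000020000000000004000004 := rS 0x0 (k2 a4998 i446 k0) (by decide +kernel)
def a5075 : PP 8 4 T 0x2000000000000000000000000000000000000000000020000020000000000002000 := rS 0x43 (k2 a4999 i461 k0) (by decide +kernel)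
def a5076 : PP 8 4 T 0x2000000000000000000000000000000000000000000000000000008000000002008 := rS 0x1 (k2 a4997 i1610 k0) (by decide +kernel)
def a5077 : PP 8 4 T 0x2000000000000000000000000000000000000000000000000020000000800002000 := rS 0x43 (k2 a4999 i1570 k0) (by decide +kernel)
def a5078 : PP 8 4 T 0x4002000000000000000000000000000000000000000050000000000014000000002008 := rS 0x1 (k2 a4997 a764 k0) (by decide +kernel)
def a5079 : PP 8 4 T 0x2000000000000000000000000000000000000000000000020020000000000000004 := rS 0x8600 (k2 a4998 a4999 (k1 i445 k0)) (by decide +kernel)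
def a5080 : PP 8 4 T 0x2000000000000000000000000000000000080000000000080010000000000000000 := rS 0x42 (k2 a5000 i2455 k0) (by decide +kernel)
def a5081 : PP 8 4 T 0x2000000000000000000000000000000000000000800008000010000000000000000 := rS 0x42 (k2 a5000 i2253 k0) (by decide +kernel)
def a5082 : PP 8 4 T 0x2000000000000000000000000000000000000000000008020000000000000000004 := rS 0x0 (k2 a4998 i2258 k0) (by decide +kernel)
def a5083 : PP 8 4 T 0x2000000000000000000000000000000000000000000008000010000000000001000 := rS 0x42 (k2 a5000 i441 k0) (by decide +kernel)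
def a5084 : PP 8 4 T 0x2000000000000000000000000000000000000000000000080010000000008000000 := rS 0x42 (k2 a5000 i2533 k0) (by decide +kernel)
def a5085 : PP 8 4 T 0x2000000000000000000000000000000000000000000200020010000000000000000 := rS 0x42 (k2 a5000 a543 k0) (by decide +kernel)
def a5086 : PP 8 4 T 0x2000000000000000000000000000000000000000000200020000000000000000004 := rS 0x0 (k2 a4998 i2259 k0) (by decide +kernel)
def a5087 : PP 8 4 T 0x2000000000000000000000000000000000000000000200000010000010000000000 := rS 0x42 (k2 a5000 i444 k0) (by decide +kernel)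
def a5088 : PP 8 4 T 0x2000002000000000000000000000000020000000000000008010000000006400040 := rS 0x42 (k2 a5000 a880 k0) (by decide +kernel)
def a5089 : PP 8 4 T 0x2000000000000000000000000800080000000000000000000000000000000000000 := rS 0x2f (k2 a4887 i1898 k0) (by decide +kernel)
def a5090 : PP 8 4 T 0x2000000000000000000000000000000000000000000000000000000200000000208 := rS 0x1 (k2 a4997 i1264 k0) (by decide +kernel)
def a5091 : PP 8 4 T 0x2000000000000000000000000000000000000000002000000000000000002000004 := rS 0x0 (k2 a4998 i2711 k0) (by decide +kernel)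
def a5092 : PP 8 4 T 0x2000000000000000000000000000000000000000000000000000000000000008004 := rS 0x0 (k2 a4998 a4409 k0) (by decide +kernel)
def a5093 : PP 8 4 T 0x2000000000000000000000000000000000000000020000000400000000000000004 := rS 0x0 (k2 a4998 i963 k0) (by decide +kernel)
def a5094 : PP 8 4 T 0x2000000000000000000000000000000000000000020000000000000000002000004 := rS 0x0 (k2 a4998 i2712 k0) (by decide +kernel)
def a5095 : PP 8 4 T 0x2000000000000000000000000000000000000000020000000000001000000000004 := rS 0x0 (k2 a4998 i962 k0) (by decide +kernel)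
def a5096 : PP 8 4 T 0x400000000004002000000000000000001010000140014000000000000000000000015100000000000 := rS 0x2f (k2 a4887 a758 k0) (by decide +kernel)
def a5097 : PP 8 4 T 0x2000000000000000000020000000000000000000020000000000000000000000004 := rS 0x0 (k2 a4998 i2635 k0) (by decide +kernel)
def a5098 : PP 8 4 T 0x2000000000000000000000000000000000000000000000000800002000000000008 := rS 0x1 (k2 a4997 i1532 k0) (by decide +kernel)
def a5099 : PP 8 4 T 0x2200001000000004040000000001000000000000040000000000500000000000004 := rS 0x0 (k2 a4998 a4416 k0) (by decide +kernel)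
def a5100 : PP 8 4 T 0x2000000000000000000000000000000000000000000002000010000000008000000 := rS 0x42 (k2 a5000 i2534 k0) (by decide +kernel)
def a5101 : PP 8 4 T 0x2000000000000000000000000000000000000000000000008010000000000008000 := rS 0x42 (k2 a5000 i2404 k0) (by decide +kernel)
def a5102 : PP 8 4 T 0x2200000000000000000000000000000000000000000000010010000000200000000 := rS 0x42 (k2 a5000 a957 k0) (by decide +kernel)
def a5103 : PP 8 4 T 0x12200000000000000000000000000000000040000000000000010000000200000000 := rS 0x42 (k2 a5000 a1026 k0) (by decide +kernel)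
def a5104 : PP 8 4 T 0x20000000000000000000000000000000000000000000004a0010000000004000000 := rS 0x42 (k2 a5000 a961 k0) (by decide +kernel)
def a5105 : PP 8 4 T 0x12200000000000000000000000000000000000000000000400010000000200000000 := rS 0x42 (k2 a5000 a977 k0) (by decide +kernel)
def a5106 : PP 8 4 T 0x2000000001000000400000015100014000000000011000000000014000000001000 := rS 0x63 (k2 a4751 a4423 k0) (by decide +kernel)
def a5107 : PP 8 4 T 0x2000000000000000000000000400540010000000000000000004500104082000000 := rS 0x2f (k2 a4887 a1308 k0) (by decide +kernel)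
def a5108 : PP 8 4 T 0x1002100000000000000000000004080000000000000000000000400000100000000000 := rS 0x2f (k2 a4887 a4427 k0) (by decide +kernel)
def a5109 : PP 8 4 T 0x2000000000000000000010000140014010000000000000000000014100182000000 := rS 0x2f (k2 a4887 a1272 k0) (by decide +kernel)
def a5110 : PP 8 4 T 0x2001000000000000000000001000080000000000000000000000000000000000000 := rS 0x63 (k2 a4751 a989 k0) (by decide +kernel)
def a5111 : PP 8 4 T 0x2001000000000000000000001000020000000000010000000000000000000000000 := rS 0x63 (k2 a4751 a1042 k0) (by decide +kernel)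
def a5112 : PP 8 4 T 0x2001000000000000000000011000008000000000000000000000000000000000000 := rS 0x63 (k2 a4751 a1109 k0) (by decide +kernel)
def a5113 : PP 8 4 T 0x11002000000000000000000000000600540018000000000000000000140100000800000 := rS 0x2f (k2 a4887 a944 k0) (by decide +kernel)
def a5114 : PP 8 4 T 0x20002000001000000000000004000400141010105054000000000001140140050000000 := rS 0x2f (k2 a4887 a2473 k0) (by decide +kernel)
def a5115 : PP 8 4 T 0x2000000000000000000000000000000000000080000000001000000000000000000 := rS 0x63 (k2 a4751 a4435 k0) (by decide +kernel)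
def a5116 : PP 8 4 T 0x2000000000000002000000000000000000000000000200000010000000000000000 := rS 0x42 (k2 a5000 a2754 k0) (by decide +kernel)
def a5117 : PP 8 4 T 0x1202102000000000000000000000000000000040420050014018010000000000005000 := rS 0x8463 (k2 a4751 a5000 (k1 a4443 k0)) (by decide +kernel)
def a5118 : PP 8 4 T 0x20002201000000000000000000001000010000000000041000000000000000000000000 := rS 0x63 (k2 a4751 a2504 k0) (by decide +kernel)
def a5119 : PP 8 4 T 0x22002200000000000000000000001000114000000000041000000000000000000000000 := rS 0x63 (k2 a4751 a2424 k0) (by decide +kernel)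
def a5120 : PP 8 4 T 0x20002102000000000000000010000000004000000000050000000000000000000000000 := rS 0x63 (k2 a4751 a4447 k0) (by decide +kernel)
def a5121 : PP 8 4 T 0x20002002000000000000000000000000100000000000000000000000000000000000000 := rS 0x63 (k2 a4751 a2965 k0) (by decide +kernel)
def a5122 : PP 8 4 T 0x2000000000000000009000000400540010000000000000000004150100000000000 := rS 0x2f (k2 a4887 a2713 k0) (by decide +kernel)
def a5123 : PP 8 4 T 0x2102000000000000000000000000014000000400050000000020000000000402040 := rS 0xc643 (k2 a4999 a4751 (k1 a2910 k0)) (by decide +kernel)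
def a5124 : PP 8 4 T 0x1002102000000000000000000000050000000040000040014000000000001550004000 := rS 0x63 (k2 a4751 a4451 k0) (by decide +kernel)
def a5125 : PP 8 4 T 0x2000000000000000000000000400540010000000000000000004140104080800000 := rS 0x2f (k2 a4887 a2717 k0) (by decide +kernel)
def a5126 : PP 8 4 T 0x1002000000000000040000000001000000000000010000000008010000100000000000 := rS 0x42 (k2 a5000 a2962 k0) (by decide +kernel)
def a5127 : PP 8 4 T 0x2001000000000080000010001100004000000000010000000000015000000000000 := rS 0x63 (k2 a4751 a4461 k0) (by decide +kernel)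
def a5128 : PP 8 4 T 0x2002002001000000000000000000000000000000000000000000000100100000000004 := rS 0x0 (k2 a4998 a2686 k0) (by decide +kernel)
def a5129 : PP 8 4 T 0x12100000000000000001001000000000010050200040010000000005100000004000 := rS 0x2f (k2 a4887 a2901 k0) (by decide +kernel)
def a5130 : PP 8 4 T 0x2102000000000000400000000000014000000000050000000000000000000000000 := rS 0x63 (k2 a4751 a4464 k0) (by decide +kernel)
def a5131 : PP 8 4 T 0x2102000000000000000000000000814040000000050000000000000000000000000 := rS 0x63 (k2 a4751 a4466 k0) (by decide +kernel)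
def a5132 : PP 8 4 T 0x800000000000002000000000000000001000000100014010000000000000000000015100000000000 := rS 0x2f (k2 a4887 a2282 k0) (by decide +kernel)
def a5133 : PP 8 4 T 0x1202000000000000000001000000110000000040000000000000000000100142000000 := rS 0x2f (k2 a4887 a2982 k0) (by decide +kernel)
def a5134 : PP 8 4 T 0x8002000000002000000001000000040014010000000000000000000010100000000000 := rS 0x2f (k2 a4887 a2487 k0) (by decide +kernel)
def a5135 : PP 8 4 T 0x2000000000000000400010005000014000000000041000000400000000000000084 := rS 0xc600 (k2 a4998 a4751 (k1 a4101 k0)) (by decide +kernel)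
def a5136 : PP 8 4 T 0x8002000000000000000400000015000010000000000011000000000000000000000000 := rS 0x63 (k2 a4751 a4168 k0) (by decide +kernel)
def a5137 : PP 8 4 T 0x2001001000000000000005001000001000110044001008450420140101042000000 := rS 0x63 (k2 a4751 a4478 k0) (by decide +kernel)
def a5138 : PP 8 4 T 0x2001000000000000000000000000000000000080000000400010000000000000000 := rS 0x42 (k2 a5000 a4502 k0) (by decide +kernel)
def a5139 : PP 8 4 T 0x2001000000000000000011005000004400050554000000000000000000000000000 := rS 0x63 (k2 a4751 a3860 k0) (by decide +kernel)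
def a5140 : PP 8 4 T 0x2100000000000000000000000000000800000000040000000000000000000000004 := rS 0x0 (k2 a4998 a4304 k0) (by decide +kernel)
def a5141 : PP 8 4 T 0x2100000000000000020000000000000000000000040000000000000000000000004 := rS 0x0 (k2 a4998 a4100 k0) (by decide +kernel)
def a5142 : PP 8 4 T 0x2100000000000000000000055000154040000000051000000000000000000000000 := rS 0x63 (k2 a4751 a4114 k0) (by decide +kernel)
def a5143 : PP 8 4 T 0x2102000000000000400000000000010000000000050000000000000000000000000 := rS 0x63 (k2 a4751 a4150 k0) (by decide +kernel)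
def a5144 : PP 8 4 T 0x102200002000000000000000000000000000000000000000000010000000008000000 := rS 0x42 (k2 a5000 a3493 k0) (by decide +kernel)
def a5145 : PP 8 4 T 0x2101000000000040000000001000000000040000000020000010000002008000000 := rS 0xc642 (k2 a5000 a4751 (k1 a4520 k0)) (by decide +kernel)
def a5146 : PP 8 4 T 0x2001000000000000000000008000000000000200000008000010000001000000000 := rS 0x42 (k2 a5000 a3054 k0) (by decide +kernel)
def a5147 : PP 8 4 T 0x2000000000000080000000000000000000000000000000000010000000008400000 := rS 0x42 (k2 a5000 a3515 k0) (by decide +kernel)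
def a5148 : PP 8 4 T 0x2001000000000080000000001010008000000054000015000000000001000004000 := rS 0x63 (k2 a4751 a3871 k0) (by decide +kernel)
def a5149 : PP 8 4 T 0x2000000000000000001000000140014010000204000000000000015000002000000 := rS 0x2f (k2 a4887 a3534 k0) (by decide +kernel)
def a5150 : PP 8 4 T 0x2100000000000080000000000100000000040000000014000010000000140000000 := rS 0x42 (k2 a5000 a4351 k0) (by decide +kernel)
def a5151 : PP 8 4 T 0x2000000001000000001010000140010010000000000000000000015100000000000 := rS 0x2f (k2 a4887 a4125 k0) (by decide +kernel)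
def a5152 : PP 8 4 T 0x1002000000000000000000000000020000000000040000000000000000100000000000 := rS 0x2f (k2 a4887 a3580 k0) (by decide +kernel)
def a5153 : PP 8 4 T 0x2001000000000000001000000140014010000200000000400010015000012000000 := rS 0x5e42 (k2 a5000 a4887 (k1 a4523 k0)) (by decide +kernel)
def a5154 : PP 8 4 T 0x2002000000000000000000001080101050040010001000000000000000012000000 := rS 0xc62f (k2 a4887 a4751 (k1 a3545 k0)) (by decide +kernel)
def a5155 : PP 8 4 T 0x2200000000000004040000000000400000000000040000000008004000000000004 := rS 0x0 (k2 a4998 a3340 k0) (by decide +kernel)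
def a5156 : PP 8 4 T 0x2000000000000000801010000140010010000000000000000000011100000000008 := rS 0x2f (k2 a4887 a4130 k0) (by decide +kernel)
def a5157 : PP 8 4 T 0x2000000000000000001010000140010010000408000000000000011100002000000 := rS 0x2f (k2 a4887 a3379 k0) (by decide +kernel)
def a5158 : PP 8 4 T 0x2000000000000000000000008000000000000000080000000000010000000000088 := rS 0x1 (k2 a4997 a3023 k0) (by decide +kernel)
def a5159 : PP 8 4 T 0x2001000000000000400001004000000000000000000015400010000000000002100 := rS 0x42 (k2 a5000 a4526 k0) (by decide +kernel)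
def a5160 : PP 8 4 T 0x102000000000000004001011000041014010000000000005008010000101000000000 := rS 0x5e42 (k2 a5000 a4887 (k1 a4509 k0)) (by decide +kernel)
def a5161 : PP 8 4 T 0x2000000000000000001010000040010010000208000000000000011101102000000 := rS 0x2f (k2 a4887 a3388 k0) (by decide +kernel)
def a5162 : PP 8 4 T 0x2000000000000000400001000050000000050000000000000820000001450000040 := rS 0x43 (k2 a4999 a3093 k0) (by decide +kernel)
def a5163 : PP 8 4 T 0x402001000000000001004000041000000005000000001000000020400001500800100 := rS 0x63 (k2 a4751 a4527 k0) (by decide +kernel)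
def a5164 : PP 8 4 T 0x2000002000000000000004000410141010100014000000000000100100048000000 := rS 0x2f (k2 a4887 a3235 k0) (by decide +kernel)
def a5165 : PP 8 4 T 0x2000000000000080000004000000141010104054000000000000000050048000000 := rS 0x2f (k2 a4887 a3508 k0) (by decide +kernel)
def a5166 : PP 8 4 T 0x2000000000000000000004000000000000100000000000440012000040000000000 := rS 0x42 (k2 a5000 a4511 k0) (by decide +kernel)
def a5167 : PP 8 4 T 0x22000000000000000000000041000100040002000001000000000000000000000000 := rS 0x63 (k2 a4751 a3608 k0) (by decide +kernel)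
def a5168 : PP 8 4 T 0x2000000000000000000000041000140000000000001000000002000000000000004 := rS 0xc600 (k2 a4998 a4751 (k1 a3724 k0)) (by decide +kernel)
def a5169 : PP 8 4 T 0x210000000000000004000000a000000000000000050000000008000000000000004 := rS 0x0 (k2 a4998 a4507 k0) (by decide +kernel)
def a5170 : PP 8 4 T 0x10402202000000000000000045000000000040010000000004000015440000100010000 := rS 0x42 (k2 a5000 a4481 k0) (by decide +kernel)
def a5171 : PP 8 4 T 0x2000000000000000000000041000100000402010001100000000000000000000000 := rS 0x63 (k2 a4751 a3719 k0) (by decide +kernel)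
def a5172 : PP 8 4 T 0x400000000000002100000000000000800000041000150040000000051000000000000000000000000 := rS 0x63 (k2 a4751 a4112 k0) (by decide +kernel)
def a5173 : PP 8 4 T 0x10022000000000000000000000041004100008000000001000008000000000000000000 := rS 0x63 (k2 a4751 a3630 k0) (by decide +kernel)
def a5174 : PP 8 4 T 0x10002001000000000000000000080000540010000000001000000000540000000000000 := rS 0x2f (k2 a4887 a3565 k0) (by decide +kernel)
def a5175 : PP 8 4 T 0x402000000000000000000000000400540010000000000000000001500154000400000 := rS 0x2f (k2 a4887 a3489 k0) (by decide +kernel)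
def a5176 : PP 8 4 T 0x2100000000000000000004000510000000100000800000000021000000250004000 := rS 0x43 (k2 a4999 a3296 k0) (by decide +kernel)
def a5177 : PP 8 4 T 0x402100000000000000000000000000000000000000800000000020000000200004000 := rS 0x43 (k2 a4999 a3273 k0) (by decide +kernel)
def a5178 : PP 8 4 T 0x22002000000000040000000001000101050000010001000000000000000002000000 := rS 0xc62f (k2 a4887 a4751 (k1 a3546 k0)) (by decide +kernel)
def a5179 : PP 8 4 T 0x2022002000000000000000000001000001000000000001100000000000000000000000 := rS 0x63 (k2 a4751 a3711 k0) (by decide +kernel)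
def a5180 : PP 8 4 T 0x2002001000000080000000001000100050000000001000000000400000000000000 := rS 0x63 (k2 a4751 a3467 k0) (by decide +kernel)
def a5181 : PP 8 4 T 0x2200000000000000000000000000000000000000000000000010020000000800000 := rS 0x42 (k2 a5000 a3155 k0) (by decide +kernel)
def a5182 : PP 8 4 T 0x8002200000000000000000000015000010000000000001000000000000000000000000 := rS 0x63 (k2 a4751 a4192 k0) (by decide +kernel)
def a5183 : PP 8 4 T 0x2000000000000000000000000000000000000000080008000010000000000800008 := rS 0x242 (k2 a5000 a4997 (k1 a4316 k0)) (by decide +kernel)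
def a5184 : PP 8 4 T 0x2000000000000000000000000000000000000000080008000010014000000000000 := rS 0x42 (k2 a5000 a3042 k0) (by decide +kernel)
def a5185 : PP 8 4 T 0x2000000000000000000000000000000000000000000008000020000001000002000 := rS 0x43 (k2 a4999 a3062 k0) (by decide +kernel)
def a5186 : PP 8 4 T 0x2000000000000004000000008001200000000000050000000000000000000000000 := rS 0x63 (k2 a4751 a4506 k0) (by decide +kernel)
def a5187 : PP 8 4 T 0x2001000000000000000000000200000000000000000000000000008000000000000 := rS 0x63 (k2 a4751 a4482 k0) (by decide +kernel)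
def a5188 : PP 8 4 T 0x2001000000000000000000001000100000000804000000088000000000010000008 := rS 0x63 (k2 a4751 a3098 k0) (by decide +kernel)
def a5189 : PP 8 4 T 0x2202002000000000000000000000000000000800000004060000000002000000008 := rS 0x2f (k2 a4887 a3220 k0) (by decide +kernel)
def a5190 : PP 8 4 T 0x2000000000000000000000000000000000000200000008000010008000000002000 := rS 0x42 (k2 a5000 a3037 k0) (by decide +kernel)
def a5191 : PP 8 4 T 0x2101000000000000481010004000014010000000000000000000015100000000000 := rS 0x2f (k2 a4887 a3103 k0) (by decide +kernel)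
def a5192 : PP 8 4 T 0x2000000000000000000000000000000000000000080000018020000000000000004 := rS 0x43 (k2 a4999 a4998 (k1 a4284 k0)) (by decide +kernel)
def a5193 : PP 8 4 T 0x2102000000000006400000000000810400000000050000020000000000000000000 := rS 0x63 (k2 a4751 a3498 k0) (by decide +kernel)
def a5194 : PP 8 4 T 0x4002001000000000000000000000080000000000000010000000000004000000000048 := rS 0x2f (k2 a4887 a3092 k0) (by decide +kernel)
def a5195 : PP 8 4 T 0x12000000001000001000000000400141018440000000000000001104154004400000 := rS 0x2f (k2 a4887 a3691 k0) (by decide +kernel)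
def a5196 : PP 8 4 T 0x102200001000000001000000000000001400000400040000000000001080000000004 := rS 0x0 (k2 a4998 a3322 k0) (by decide +kernel)
def a5197 : PP 8 4 T 0x2000000000000000000000001000140000002004001000010000000014020000080 := rS 0x63 (k2 a4751 a3102 k0) (by decide +kernel)
def a5198 : PP 8 4 T 0x2000000000000080000000000000140010402000000000000004440010000000000 := rS 0x2f (k2 a4887 a3483 k0) (by decide +kernel)
def a5199 : PP 8 4 T 0x2000000000000008000400041000104040000000001000000000000000000000000 := rS 0x63 (k2 a4751 a3558 k0) (by decide +kernel)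
def a5200 : PP 8 4 T 0x2000000000000000000000000000000000000000040000000010020000000800000 := rS 0x42 (k2 a5000 a4552 k0) (by decide +kernel)
def a5201 : PP 8 4 T 0x102000000000000000000000000000000000000000020000000010000000108400000 := rS 0x42 (k2 a5000 a4769 k0) (by decide +kernel)
def a5202 : PP 8 4 T 0x12000000000000040000010000100014010040000000000000000014100112000000 := rS 0x2f (k2 a4887 a4780 k0) (by decide +kernel)
def a5203 : PP 8 4 T 0x2000000000000000000000000000000000000000080008020010004001000000000 := rS 0x42 (k2 a5000 a4846 k0) (by decide +kernel)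
def a5204 : PP 8 4 T 0x2000000000000000000000000000540000000000001000000000000000000010084 := rS 0x0 (k2 a4998 a4919 k0) (by decide +kernel)
def a5205 : PP 8 4 T 0x2100000000000000000000000000000800000000000010000020000001000000004 := rS 0x8600 (k2 a4998 a4999 (k1 a4934 k0)) (by decide +kernel)
def a5206 : PP 8 4 T 0x2000000000000000000000000000000800000000000020000020000000000000000 := rS 0x4c (k2 a506 i2597 k0) (by decide +kernel)
def a5207 : PP 8 4 T 0x2000000000000000000000000000000000000000000020000020000000004000000 := rS 0x4c (k2 a506 i787 k0) (by decide +kernel)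
def a5208 : PP 8 4 T 0x2000000000000000000000000000000000000000000020000020000000000000004 := rS 0x4c (k2 a506 a5079 k0) (by decide +kernel)
def a5209 : PP 8 4 T 0x2000000000000000000000000000000000000000000020000020000000020000000 := rS 0x4c (k2 a506 i2543 k0) (by decide +kernel)
def a5210 : PP 8 4 T 0x2000000000000000000000000000000000000000000200000010000000008000000 := rS 0x4c (k2 a5018 a5085 k0) (by decide +kernel)
def a5211 : PP 8 4 T 0x2000000000000000000002000000000000000000000002000000000000200000000 := rS 0x40 (k2 a5005 i2498 k0) (by decide +kernel)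
def a5212 : PP 8 4 T 0x2000000000000000000000000000000000000000000020010000000000008000000 := rS 0x40 (k2 a5018 a506 k0) (by decide +kernel)
def a5213 : PP 8 4 T 0x2000000000000000000000000000000800000000000000020000000000008000000 := rS 0x40 (k2 a5058 i2597 k0) (by decide +kernel)
def a5214 : PP 8 4 T 0x2000000000000000000000000000000000000000000200020000000000004000000 := rS 0x40 (k2 a5085 i787 k0) (by decide +kernel)
def a5215 : PP 8 4 T 0x2000000000000000000000000000000000000000000000008000000000002008000 := rS 0x40 (k2 a5101 i2204 k0) (by decide +kernel)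
def a5216 : PP 8 4 T 0x2000000000000000000000002000000000000000000000001020000000000000000 := rS 0x16 (k2 a3367 i739 k0) (by decide +kernel)
def a5217 : PP 8 4 T 0x2000000000000000000000002000000000000000000000800020000000000000000 := rS 0x16 (k2 a3367 i2575 k0) (by decide +kernel)
def a5218 : PP 8 4 T 0x2000000000000000000000002000000000008000000000000020000000000000000 := rS 0x16 (k2 a3367 i2493 k0) (by decide +kernel)
def a5219 : PP 8 4 T 0x2000000000000000000000000000000800000000020000000020000000000000000 := rS 0x58 (k2 i1025 a5206 k0) (by decide +kernel)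
def a5220 : PP 8 4 T 0x2000000000000000000000000000000800000000020000000000002000000000000 := rS 0x2 (k2 a5057 i2676 k0) (by decide +kernel)
def a5221 : PP 8 4 T 0x2000000000000000000020000000000000000000020000000000002000000000000 := rS 0x2 (k2 a5097 i2677 k0) (by decide +kernel)
def a5222 : PP 8 4 T 0x2000000000000000000020000000000000000000020000000000000000000002000 := rS 0x30 (k2 i1491 a5221 k0) (by decide +kernel)
def a5223 : PP 8 4 T 0x2000000000000000000000000000000000000000000000008000000000000008008 := rS 0x18 (k2 i1045 a5215 k0) (by decide +kernel)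
def a5224 : PP 8 4 T 0x2000000000000000000000000000000000000200000000000020000000000800000 := rS 0x48 (k2 i739 a2751 k0) (by decide +kernel)
def a5225 : PP 8 4 T 0x2000000000000000000000000000000000000800000000000000000000000800008 := rS 0x48 (k2 i998 a2777 k0) (by decide +kernel)
def a5226 : PP 8 4 T 0x2000000000000000000000002000000000000000000000040020000000000000000 := rS 0x48 (k2 a5216 i1087 k0) (by decide +kernel)
def a5227 : PP 8 4 T 0x2000000000000000000000002000000000000040000000000020000000000000000 := rS 0x48 (k2 a5216 i1086 k0) (by decide +kernel)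
def a5228 : PP 8 4 T 0x2000000000000000000000000000000000000000010000000000000000000008000 := rS 0x2 (k2 a5092 i341 k0) (by decide +kernel)
def a5229 : PP 8 4 T 0x2000000000000000000000000000000000000000000000020000000000000008000 := rS 0xa0a67 (k4 a4386 a109 a5092 a4827 k0) (by decide +kernel)
def a5230 : PP 8 4 T 0x2000000000000000000000000000000000000000000000000000000000008008000 := rS 0x2 (k2 a5092 i2206 k0) (by decide +kernel)
def a5231 : PP 8 4 T 0x2000000000000000000000000000000000000000000000008000000000000008000 := rS 0x2 (k2 a5092 a5223 k0) (by decide +kernel)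
def a5232 : PP 8 4 T 0x2000000000000000000000000000000000000000000000000000000000000808000 := rS 0x6864 (k2 a5228 a4456 (k1 i2700 k0)) (by decide +kernel)
def a5233 : PP 8 4 T 0x2000000000000000000000000000000000000000000000001000000000000008000 := rS 0x9a4b (k2 a5231 a5229 (k1 a440 k0)) (by decide +kernel)
def a5234 : PP 8 4 T 0x2000000000000000000000000000000000000000000000000000000000000008000 := rS 0xd8649017 (k4 a5232 a5233 a2997 a5230 (k1 a437 k0)) (by decide +kernel)
def a5235 : PP 8 4 T 0x2000000000000000000000000000000000000080000000000000000000000400000 := rS 0x6c9019 (k4 a5028 a5115 a4375 a437 k0) (by decide +kernel)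
def a5236 : PP 8 4 T 0x2000000000000000000000000000000000000280000000000000000000000000000 := rS 0x2c48 (k2 a5115 a5235 (k1 a2751 k0)) (by decide +kernel)
def a5237 : PP 8 4 T 0x2000000000000000000000000000000000000880000000000000000000000000000 := rS 0x2c48 (k2 a5115 a5235 (k1 a2777 k0)) (by decide +kernel)
def a5238 : PP 8 4 T 0x2000000000000000000002000000000000000080000000000000000000000000000 := rS 0x16 (k2 a5235 a259 k0) (by decide +kernel)
def a5239 : PP 8 4 T 0x2000000000000000800000000002000000000000000000000000000000000000000 := rS 0xcf05 (k2 a385 a5071 (k1 a4419 k0)) (by decide +kernel)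
def a5240 : PP 8 4 T 0x2000000000000008800000000000000000000000000000000000000000000000000 := rS 0xcf05 (k2 a385 a5071 (k1 a4458 k0)) (by decide +kernel)
def a5241 : PP 8 4 T 0x2000000000000000800000000000000000000000000000000000020000000000000 := rS 0x3e0a67 (k4 a5071 a385 a5234 a4378 k0) (by decide +kernel)
def a5242 : PP 8 4 T 0x2000000000000000800000000000000000000000000000000000008000000000000 := rS 0x20a67 (k2 a5071 a385 (k1 a4457 k0)) (by decide +kernel)
def a5243 : PP 8 4 T 0x2000000000000000000000002000000000000000000000000010000000000000000 := rS 0xc9342c03 (k4 a5029 a3454 a4369 i8 (k1 a5045 k0)) (by decide +kernel)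
def a5244 : PP 8 4 T 0x2000000000000000000000002000000000000000000000800000000000000000000 := rS 0x40 (k2 a5243 a5217 k0) (by decide +kernel)
def a5245 : PP 8 4 T 0x2000000000000000000000002000000000000200000000000000000000000000000 := rS 0x2c40 (k2 a5243 a3454 (k1 a5224 k0)) (by decide +kernel)
def a5246 : PP 8 4 T 0x2000000000000000000000002000000000000000000000040000000000000000000 := rS 0x40 (k2 a5243 a5226 k0) (by decide +kernel)
def a5247 : PP 8 4 T 0x2000000000000000000000002000000000000040000000000000000000000000000 := rS 0x40 (k2 a5243 a5227 k0) (by decide +kernel)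
def a5248 : PP 8 4 T 0x2000000000000040000000002000000000000000000000000000000000000000000 := rS 0x285fa1d0f9021a72 (k8 a5247 a370 a5243 a4367 a5027 a431 a4989 a377 k0) (by decide +kernel)
def a5249 : PP 8 4 T 0x2000000000000000000000000020000000000000000000000010000000000000000 := rS 0xa6fc (k2 a4989 a452 (k1 a5010 k0)) (by decide +kernel)
def a5250 : PP 8 4 T 0x2000000000000000000000000000000000000000000000808000000000000000000 := rS 0x15217 (k2 a2996 a3454 (k1 i566 k0)) (by decide +kernel)
def a5251 : PP 8 4 T 0x2000000000000000000000000000000000080000000020000000000000000000000 := rS 0x16a8f (k2 a930 i127 (k1 a4983 k0)) (by decide +kernel)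
def a5252 : PP 8 4 T 0x2000000000000000000000000000000000000000000000800000000000000000080 := rS 0x142fd (k2 a421 a4989 (k1 i454 k0)) (by decide +kernel)
def a5253 : PP 8 4 T 0x2000000000000000000000000000000000000020000000800000000000000000000 := rS 0xa9 (k2 a5244 i798 k0) (by decide +kernel)
def a5254 : PP 8 4 T 0x2000000000000000000000000000000000000000000000800020000000000000000 := rS 0x142fd (k2 a421 a4989 (k1 i826 k0)) (by decide +kernel)
def a5255 : PP 8 4 T 0x2000000000000000000000000000080000000000000000800000000000000000000 := rS 0x152fd (k2 a421 a5244 (k1 a5110 k0)) (by decide +kernel)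
def a5256 : PP 8 4 T 0x2000000000000000000000000000000020000000000000800000000000000000000 := rS 0x152fd (k2 a421 a5244 (k1 a5040 k0)) (by decide +kernel)
def a5257 : PP 8 4 T 0x2000000000000000000000000000200000000000000000800000000000000000000 := rS 0x152fd (k2 a421 a5244 (k1 a5041 k0)) (by decide +kernel)
def a5258 : PP 8 4 T 0x2000000000000000000000000800000000000000000000800000000000000000000 := rS 0x1fa07 (k2 a5252 a421 (k1 a1825 k0)) (by decide +kernel)
def a5259 : PP 8 4 T 0x2000000000000000000000000000002000000000000000001000000000000000000 := rS 0x964d (k2 a110 a102 (k1 a440 k0)) (by decide +kernel)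
def a5260 : PP 8 4 T 0x2000000000000000000000000000000000000000000000002000000000000400000 := rS 0x3619 (k2 a2997 a4375 (k1 a437 k0)) (by decide +kernel)
def a5261 : PP 8 4 T 0x2000000000000000000000000000000000000200000000002000000000000000000 := rS 0x16 (k2 a5260 a2751 k0) (by decide +kernel)
def a5262 : PP 8 4 T 0x2000000000000000000000000000000000000800000000002000000000000000000 := rS 0x16 (k2 a5260 a2777 k0) (by decide +kernel)
def a5263 : PP 8 4 T 0x2000000000000000000000000020000000000000000000010000004000008000000 := rS 0xb9820d516673280c944054b4dca55121855ead55bf092954ba6527143985c5a0f (k8 a5234 a4992 i9 a5235 a5152 a115 a57 a24 (k8 a14 a4375 a4989 a97 a420 a427 a397 a4980 (k8 i764 a409 a104 a5248 a5249 a440 i189 i1050 (k4 a5192 a4110 a5054 a5142 (k2 a1710 a853 k0))))) (by decide +kernel)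
def a5264 : PP 8 4 T 0x2200000000000000000000000020000000000000000000000000014000008000000 := rS 0xc62e6554b4dca2430ab556fc4ac50e617168089840 (k8 a5249 a5263 a5079 a4992 i9 a5235 a5152 a14 (k8 a4989 a97 a420 a397 a4980 a409 a104 a5248 (k4 a63 a5182 i1002 a429 k0))) (by decide +kernel)
def a5265 : PP 8 4 T 0x2100000000000000000000000020000000000000000010000000000000008000008 := rS 0xac0c0cb9622552491c480f (k8 a5234 a4980 i205 a4375 i764 a38 a409 a5031 (k2 a425 a362 (k1 a4708 k0))) (by decide +kernel)
def a5266 : PP 8 4 T 0x2000000000000000000001000020000000000000000000000000004000008000000 := rS 0x76f1639d8ae3432c106e390113232478a164e68f1685c324f202a5a6e5121855efc (k8 a4989 a427 a397 a4980 a409 a104 a5248 a5249 (k8 a1821 a5031 i9 a4992 i873 a5235 a4983 a5152 (k8 i205 a561 a5263 a5079 a401 a446 a5265 a63 (k4 a5264 a4716 i357 i2242 (k2 a5189 a3165 (k1 a419 k0)))))) (by decide +kernel)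
def a5267 : PP 8 4 T 0x2000000000000000000001000020000000000000000000000000004000000000000 := rS 0x6599d26b94a994fe301a9c91c590b22436198690152d310b96222430ab556fc (k8 a4989 a97 a420 a397 a4980 a38 a409 i12 (k8 a104 a5248 a5249 a96 a5031 a5266 i278 a437 (k8 a5207 i860 i821 i1117 i861 i2582 i1025 i1103 (k4 a171 a1020 a4387 a2107 (k1 a5050 k0))))) (by decide +kernel)
def a5268 : PP 8 4 T 0x2000000000000000000000000020000000000000000000000000008000000000000 := rS 0x586224 (k4 a4980 i69 a4996 i861 k0) (by decide +kernel)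
def a5269 : PP 8 4 T 0x2000000000000000000000000020000000000000000000000000000000000000000 := rS 0x3617512d06619 (k4 a5031 a5268 a5267 i881 (k2 i2598 a4995 (k1 a437 k0))) (by decide +kernel)
def a5270 : PP 8 4 T 0x2000000000000000000022000000001000000000041000408000000056002000000 := rS 0x9d45a7d0a5d5fb3e24831d465e20757bf14ed227c343a9937306867f889cc3e7d3a31cca391b8b4046b820d1420f (k8 a5234 a5269 i348 a4378 a464 a5054 i2723 a446 (k8 a401 i1023 i2240 i349 i126 i351 a5238 a444 (k8 i127 a84 i1249 i1065 i2742 i863 a357 i1271 (k8 a377 a225 a4371 a227 a402 a2041 a5121 a419 (k8 a1898 a127 i1146 i1455 a5 a77 a4413 i491 (k2 i1591 a4418 k0)))))) (by decide +kernel)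
def a5271 : PP 8 4 T 0x10002200001001000000044000000004000000000200040010009000140054000000000 := rS 0x9d459590a5d67b36243a (k8 a419 a127 a3736 i1146 a5 a77 a1729 i491 (k2 i1591 a4476 k0)) (by decide +kernel)
def a5272 : PP 8 4 T 0x400000000010002000000000000000040404000400140010100214040010009001020056050000000 := rS 0x3dc4cf2824d0fc76f04fb0dca911c8dc5a028221d420f (k8 a5234 a5269 i927 a4378 a5054 i2723 a446 a401 (k8 a5259 a409 a1517 i1184 a5271 a333 a6 a5023 (k4 i2031 i1073 a68 i815 (k1 a406 k0)))) (by decide +kernel)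
def a5273 : PP 8 4 T 0x2000000000000000000002000000000000000010041010409000000056002000000 := rS 0x12d31e29c3ab740c65329703b05fabf8a2a8deb9a1aa4e6a348a243ec78ba559665499d0faad820d01ea1 (k8 a5269 a5234 i348 a4378 i1288 i126 i349 i1589 (k8 i1023 a5241 a5055 a131 i2240 i351 i230 a5259 (k8 i324 a5238 a5247 a84 a5270 i1399 a5050 a447 (k8 a367 a97 a1815 i458 a24 a57 a5119 a4475 (k4 a4402 i863 a1825 a5272 (k2 a335 a122 (k1 a1807 k0))))))) (by decide +kernel)
def a5274 : PP 8 4 T 0x400000000010002000000000000000040404000400140010100608000010019000020056040000000 := rS 0x7867a09343f1dbc13ec372994723735c10ce871eb4a1a1d16809420f (k8 a5234 a5269 a5054 i2723 i1231 a357 a377 a335 (k8 i927 i490 a4378 a464 a446 a401 i1023 a409 (k8 a1517 i1184 a5271 a333 a6 a5023 i2031 i1152 (k2 i1440 a4473 k0)))) (by decide +kernel)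
def a5275 : PP 8 4 T 0x2000000000000000000820000000000000000200000000000000000000000000000 := rS 0x134ce (k2 i1458 i1457 (k1 i2745 k0)) (by decide +kernel)
def a5276 : PP 8 4 T 0x2000000000000000000002000000000000000000000000000020000002004400000 := rS 0x78893393a9b1dc617e3d6929c3ab886add0207372652efd300ae0867169649a4a2989c531172925121f63994720238a54ef43499d0fb171a061420f (k8 a5234 a5269 a437 i348 a131 i126 i349 i1589 (k8 a84 i803 a5055 a739 a5054 a401 i1023 i2240 (k8 i351 i230 a5260 a409 a444 a443 a331 a5254 (k8 i181 i787 a5207 i2723 i490 a4378 a4505 a5273 (k8 a397 a449 a448 i1047 i1223 a4475 a4402 a357 (k8 i1399 i1231 a1825 a377 a335 a5275 a5274 a411 (k4 a41 a347 a784 a5175 (k2 i1067 a398 k0)))))))) (by decide +kernel)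
def a5277 : PP 8 4 T 0x2000000000000000000002000000000000000000000000000000000002004400000 := rS 0x1608218 (k4 a437 a5276 a5006 a5007 k0) (by decide +kernel)
def a5278 : PP 8 4 T 0x10002002000000000000000404000000005000101000050120040000000054000000004 := rS 0x2292a9f08a6a9c7a7820a265357a153b05 (k8 a415 a4419 a545 a427 a452 a4468 a4396 a127 (k8 a406 a548 i816 a441 a26 i1181 a5131 a5063 k0)) (by decide +kernel)
def a5279 : PP 8 4 T 0x2000000000000040000008000000000000000000000000000000000004040000000 := rS 0x761aa1 (k4 a5269 a118 i721 a377 k0) (by decide +kernel)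
def a5280 : PP 8 4 T 0x2000000000000000000012000000000400000000000020000010000002000400000 := rS 0x25198cb5da68f4be4144d6e81428a4f22735c655e5362831f8036993cba65159fe22a9398843e7d48925264b2bb0c981a67a74cf05 (k8 a415 i544 a4419 a4458 a5277 a5212 a487 i119 (k8 a4384 i1369 a5260 a5259 i126 i351 i12 a5238 (k8 a5247 a444 i127 a5002 a5201 a5210 a5084 a5147 (k8 a5047 a5145 a5008 a5141 a452 a427 a5120 i468 (k8 i865 a4519 i275 a545 i1402 a5279 a4468 a4396 (k8 a5278 a406 i816 i107 a396 i1456 a5193 i1182 k0)))))) (by decide +kernel)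
def a5281 : PP 8 4 T 0x10002000000000000000000802000000000000000000000020000000005002000400000 := rS 0x944c8b4f4d23cc4d6ea566209774351a44929361b3d12026087480b98b0d60a6772a3c34a1 (k8 a5269 a5277 i873 a409 i544 a415 a4752 a429 (k8 a465 a5280 a5209 i1247 a5208 a5039 a4458 a487 (k8 i1369 a5260 a5259 i324 a84 i107 i1455 i1456 (k8 i1452 i887 a68 i1972 a4013 a406 a329 i1940 (k2 a5049 i1726 k0))))) (by decide +kernel)
def a5282 : PP 8 4 T 0x2000000000000000001400001000000011808000000020000800015102000001000 := rS 0xc2fd6502148958aa7d3470a728e0ab98b3941ea1 (k8 a5269 a5234 a409 a429 a465 a415 i324 a548 (k8 i815 i816 a26 a117 i1181 a5151 a2241 i209 (k2 a369 i1391 (k1 a5043 k0)))) (by decide +kernel)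
def a5283 : PP 8 4 T 0x10002000000001000080000014001200001000501000000120400800000000058001000 := rS 0x1c228f030bf49eca042b60ac503a9d420f (k8 a5234 a5269 a67 a402 a366 a415 i1286 a2241 (k8 i209 i871 a369 i1391 a4761 a5043 a3236 a117 k0)) (by decide +kernel)
def a5284 : PP 8 4 T 0x10002000000001000080001004001040005010501000000120400800005000058001000 := rS 0x618aa514a4c5cc586b0533a3d562d (k8 a329 i581 i873 i544 a415 a4752 a429 a465 (k4 a5212 a5283 a5049 a14 (k2 i1019 a5015 k0))) (by decide +kernel)
def a5285 : PP 8 4 T 0x10002000000000000080001404001000005010101000000120400800005002058001000 := rS 0x7b89a085ae5518d50a9d33a3e0aa1 (k8 a5269 a415 i873 i544 a4419 a545 a4752 i324 (k4 a409 a329 a5284 a68 (k2 a5282 a406 k0))) (by decide +kernel)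
def a5286 : PP 8 4 T 0x10002000000000000000000006000000000000001000000020000000005002000400000 := rS 0xf4821d3c4e2fd8a13c0eca538205aad5234d0285a1aa4e61f3ea4492936194c1a5d2633d3a576291912391b809821d202e62c358299dca8f0d2fd420f (k8 a5234 a5269 a5281 a5277 i873 a409 i544 a415 (k8 a4752 a429 a465 a5280 a5209 i1247 a5208 a446 (k8 a401 a5039 i867 a366 i119 a4419 a4458 a5212 (k8 a4756 a5075 a5254 a487 i1369 a5260 a5259 i126 (k8 i351 a5238 a5247 a84 a545 i1402 a5285 a4013 (k8 i1286 i1384 a2241 i367 i209 i1380 i871 a5011 (k4 a369 a117 a3236 a419 (k2 a4761 i395 (k1 a5282 k0))))))))) (by decide +kernel)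
def a5287 : PP 8 4 T 0x10102000000000000004004000000001000004002000000005000000014000008000008 := rS 0x27c7619 (k4 i44 i1069 i1076 a4633 k0) (by decide +kernel)
def a5288 : PP 8 4 T 0x10002000000000000000000002000000000000000000000020000000005002000400000 := rS 0x78b318eb63cafe867f8887cfa554395d86cf4e89ca6020e90173161ac14cee547869420f (k8 a5234 a5269 a5277 i873 a409 i544 a415 a4752 (k8 a429 a465 a5280 a5209 a5208 a5254 a331 a4419 (k8 a4458 a487 i119 a358 i764 i126 i351 a444 (k8 i127 a84 a5281 a5287 a5286 a740 a537 a4635 (k1 a3736 k0))))) (by decide +kernel)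
def a5289 : PP 8 4 T 0x2000000000000002080000000200000000000000000120400800000000000001040 := rS 0x57bf49eca042b60a0f (k8 a5234 a415 i1286 a2241 i209 i871 a369 a3104 (k1 a4404 k0)) (by decide +kernel)
def a5290 : PP 8 4 T 0x2000000000000000000004004000020000500000000100420000000000000000000 := rS 0xc315 (k2 a14 i1019 (k1 a5015 k0)) (by decide +kernel)
def a5291 : PP 8 4 T 0x400000000000002000000000000000001000000100014010000000000000000000015002000000000 := rS 0xb1a4a35cc59caa1 (k8 a5269 a409 a429 a465 i324 a4013 a5049 a329 k0) (by decide +kernel)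
def a5292 : PP 8 4 T 0x2000000000000002080000000200000000000000000120400800000000000001000 := rS 0x7 (k2 i1380 a5289 k0) (by decide +kernel)
def a5293 : PP 8 4 T 0x2000000000000000000002000000000000000000000020000000005002000400000 := rS 0x104bf4a2956e81662ee9e856327e30c144aacba0d0e8088c53202e62c9d1ab3c98672bc16871110b9446a349a3c34a1 (k8 a5269 a5277 i873 i1369 i324 i47 a409 i12 (k8 a444 a84 a415 i119 i544 a5212 a4458 a4752 (k8 a4419 a429 a465 a5280 a5254 i867 a5208 a5209 (k8 a5075 a4756 i581 a5039 i1247 a5288 a33 a4580 (k8 a4581 a59 i1679 i411 i1402 i887 a5292 a5291 (k2 i1725 a5290 (k1 a548 k0))))))) (by decide +kernel)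
def a5294 : PP 8 4 T 0x400000000000000002000000001000080050000001100004000000000410000000000015000000000000 := rS 0x30de2af04bf17316 (k8 a429 a465 a5127 a369 a427 a3219 a4236 a379 k0) (by decide +kernel)
def a5295 : PP 8 4 T 0x8002000000000000000402000011000004000000000011000000000000000000000000 := rS 0x4aaacceb9 (k4 a465 a350 a1815 a5048 (k1 a5050 k0)) (by decide +kernel)
def a5296 : PP 8 4 T 0x400000000000000002000000000000000051002000100004000000000410000000000015002000000000 := rS 0x1a743549cdcaa1 (k4 a5269 a409 a5238 a5247 (k2 a84 a5294 (k1 a4013 k0))) (by decide +kernel)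
def a5297 : PP 8 4 T 0x2100000000000000410014011008014004100400051000000021000042050402040 := rS 0x14e835fbf554e51489e9ea1 (k8 a5269 a26 a331 a443 a409 a5050 a5123 a367 (k2 a3051 a1825 (k1 a783 k0))) (by decide +kernel)
def a5298 : PP 8 4 T 0x400000000000000002000000000000000000000000200000001800000000008000000000050010000000 := rS 0xfd7cf0 (k4 a1898 a3058 a6 i1451 k0) (by decide +kernel)
def a5299 : PP 8 4 T 0x2100000000000000000002000000000000000000000000000000015002000400000 := rS 0x431f8a65bafd06071ea903ac1359769e8130a2d3cc5428ae324a01b1cf26526b2c1856a19fe22a93987cfa55489243293478695a2913900b2cf33a74deb98b395420f (k8 a5234 a5269 a409 a429 a465 i1399 a399 a350 (k8 a368 a5293 a5006 a331 a443 i1288 a5277 i873 (k8 i1369 i44 a5260 a5259 i764 i126 i351 a5238 (k8 a5247 a444 i127 a84 a362 a3587 a4399 i529 (k8 i1580 a4432 a342 a4708 a4066 a4503 a4470 a545 (k8 a5141 a4477 a4110 i1047 i1402 a26 a2497 i507 (k8 a5295 i863 a5296 i1386 i1379 a5298 i1455 a550 (k4 a783 a1825 a225 a1590 k0)))))))) (by decide +kernel)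
def a5300 : PP 8 4 T 0x2000000000000000010002000008000000500000000100000021000042010000040 := rS 0x863f14cb75fd0cff1139b943e7d1489e9ea1 (k8 a5269 a26 a331 a443 i126 i351 a409 a5238 (k8 a444 i127 a84 i1455 a550 a783 a1825 a225 (k1 a1590 k0))) (by decide +kernel)
def a5301 : PP 8 4 T 0x2000000000000000000002000000000000000000000000000000015002000400000 := rS 0xbe1fb31e1134101c7a5d40a903a7942b169ec743b053c2b30a2c9519269accacb821bd3ab933b3e2d11549cdca9124a4d1e1a568a48059 (k8 a5293 a5006 a443 i1288 a5277 i873 i1369 a5260 (k8 a5259 a409 a5238 a5247 a444 a429 a368 a350 (k8 a465 a399 i1399 a5299 a385 a63 a464 a822 (k8 a784 a4066 a4110 i1047 a4505 a4417 a5295 i927 (k8 i410 a26 i1525 i1606 i1076 i863 a5296 i1402 (k8 a2497 i1386 i1379 a5300 a68 a1898 a436 a6 (k2 i895 i1451 k0))))))) (by decide +kernel)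
def a5302 : PP 8 4 T 0x2000000000000000000002000000000000000000000000000000005002000400000 := rS 0x4109857010d0b3112a864340f (k8 a5234 a5277 i44 i764 a444 a5293 a5301 a5054 (k4 a4161 i189 a362 a822 k0)) (by decide +kernel)
def a5303 : PP 8 4 T 0x10002200000000000000000002000208001040000000040004000000400042000000000 := rS 0x1faf9e0cc41175023d3ca158a9d678a480870e8840ecb (k8 a385 i1379 i12 i1382 i927 a570 a443 i133 (k8 i155 i1526 i1606 i1076 i1386 i1402 a2497 a5300 (k4 a794 a1898 i895 a6 (k1 i1451 k0)))) (by decide +kernel)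
def a5304 : PP 8 4 T 0x2200000000000000000000000005000040000000000000000000006046008000000 := rS 0x891e0e8ce8ba3c6a67 (k8 a4387 i112 i873 a4412 a4417 a4200 i1067 a1361 (k1 a398 k0)) (by decide +kernel)
def a5305 : PP 8 4 T 0x2200000000000000000000000002000400000000000004000000002044100000000 := rS 0x893358859 (k4 a415 i1511 i1910 a1043 (k1 a1729 k0)) (by decide +kernel)
def a5306 : PP 8 4 T 0x802000000000000000410012010108004000100000051100400020000042008000000 := rS 0x3c690740ec138aaa28957eadd7e833ed0cff11549cd46a1 (k8 a5269 i324 a5238 a5247 a444 i127 a84 i126 (k8 a68 i1455 a550 a4468 a5111 a5043 a5050 a117 (k4 a1815 i458 i781 a4013 (k2 a5300 a335 k0)))) (by decide +kernel)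
def a5307 : PP 8 4 T 0x2200000000000002000012000008004000500000041100000004000042000000000 := rS 0x154064abf49cbb5bafe867f88aa4e61f3ea8d9665569029ea1 (k8 a5269 a26 a570 a445 a63 a385 i324 i126 (k8 i351 a5238 a5247 a444 i127 a84 i1455 a550 (k4 i1948 a578 a74 a5111 (k2 a3061 a5050 (k1 i458 k0))))) (by decide +kernel)
def a5308 : PP 8 4 T 0x2200000000000000000002000000000000000000000004000000004002000400000 := rS 0x12aab5da697cb7410fde07a89984decc5c97502a53ca158acf4f275527348925268f65ab44e532c8ec071914864ee21338c1161a438ac944032c449ae5 (k8 a409 a822 a444 a63 a570 a4066 a4505 i927 (k8 a5277 a4110 a5302 a4387 i12 i1507 i44 a443 (k8 a3150 i1002 a5034 a415 i882 a725 a445 a385 (k8 i873 i1369 a5260 a5259 a5238 a5247 a5305 a5304 (k8 i133 i1526 i1606 i1076 a5303 i1402 a2497 i987 (k8 a794 i1399 i1047 a5306 a406 a127 a6 a5307 (k4 i103 i895 i816 i1948 (k2 a367 i1182 (k1 a5050 k0))))))))) (by decide +kernel)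
def a5309 : PP 8 4 T 0x10002200000000000000000002000108005000000000000000008000002002008000000 := rS 0x4aaad769a5f2dd043f663c0f513309bd72a93999d96ad1394cb229a7b14760340a14ba79438accb1172a2c804d (k8 a822 a570 a4110 a409 a444 a63 a4505 i927 (k8 i1076 a2497 i1606 i1402 i1002 a5034 i1526 a26 (k8 a443 a415 i882 a725 a445 a385 a4387 a5238 (k8 a5247 i987 i1399 i1047 a5306 a406 a127 a436 (k8 a6 a5307 i103 i895 i816 i1948 a367 i1182 (k1 a5050 k0)))))) (by decide +kernel)
def a5310 : PP 8 4 T 0x10002200000000000000000002000008005000000000000008008000002002008000000 := rS 0x1ea0c0e1d52175027942b169e21658a47603459010e2b32c449ae5 (k8 a409 a822 a444 a63 a4505 i927 a570 a4110 (k8 i1002 a5034 a443 a385 i12 a26 i1526 i1606 (k8 i1076 i1402 a2497 a5309 i1382 i1379 a5298 i1386 (k1 a5300 k0)))) (by decide +kernel)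
def a5311 : PP 8 4 T 0x2200000000000000000002000000000000000000000000000000004002000400000 := rS 0x109123a3122e9c4f958568b8c928524d13900cb1172a44921949a3c3435339dc6021 (k8 i12 a5302 i1507 a4387 i112 a5277 i873 i1369 (k8 i44 a5260 a5259 a409 a444 a63 a570 a725 (k8 a822 a443 a4066 a3150 a4110 a4505 a5308 a5310 (k4 a5304 a399 i1511 a4200 (k2 a1043 i1591 (k1 a77 k0)))))) (by decide +kernel)
def a5312 : PP 8 4 T 0x102100000000000000000000000004000000000000040000009000000002008000000 := rS 0x4644e2906159164032934b2550cb3d3a0f (k8 a5234 a4419 a4458 i44 i764 a4384 i73 i1050 (k8 a5044 a4110 a362 a3587 a443 a331 a4503 a4476 k0)) (by decide +kernel)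
def a5313 : PP 8 4 T 0x2000000000000000000000000000000000000000000020000020002000000000000 := rS 0x446 (k2 i867 a5208 (k1 a5098 k0)) (by decide +kernel)
def a5314 : PP 8 4 T 0x2100000000000000000002000000000400000000000020000000002002000400000 := rS 0x8b2e0ca41888843467 (k8 a4387 a5277 i12 a444 a5313 a5201 a5280 a4379 (k1 a465 k0)) (by decide +kernel)
def a5315 : PP 8 4 T 0x802000000000000000410012010008004000100000051100400020000042018000000 := rS 0x1e81d4883 (k4 a68 a5306 i1379 i1386 (k1 a5300 k0)) (by decide +kernel)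
def a5316 : PP 8 4 T 0x2000000000000000010002000208000001000000000108000021000042010000000 := rS 0x1060714b2e9e81 (k4 i1402 a26 a4399 a443 (k2 i1379 a5298 (k1 a5300 k0))) (by decide +kernel)
def a5317 : PP 8 4 T 0x2000000000000000000002000000000000000000000000000000004002000400000 := rS 0x4a3f40ed252adc7af0898758261409bc56852eae6329e45b162c4a019e4ca4d65a1c4e29061588e4029ab4b3053b99c609347864349124d0e22a939885ca1f3e955420f (k8 a5234 a5269 i764 i126 i351 a409 i12 a5238 (k8 a5247 a444 a84 a5260 a5259 a5277 i44 i873 (k8 i1369 a5302 a4387 i1507 a5311 a5314 i1288 i882 (k8 a5006 i205 a362 a3587 a443 a331 a387 a4399 (k8 i529 i1580 a4432 a4716 a4066 a4379 a5141 a4110 (k8 a5312 a4503 a465 a2497 i1606 a4470 i1399 i1402 (k8 i1047 a5295 i863 a5315 a127 a365 a4635 a5316 (k4 a4013 a402 a3219 a5297 (k1 a5111 k0))))))))) (by decide +kernel)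
def a5318 : PP 8 4 T 0x2000000000000000400012010108014004100000050100000021000042000000044 := rS 0x2d3034956c14107686a939b1476a1 (k8 a5269 a5034 i1526 a5238 a5247 a84 i742 a5300 (k4 i1247 a3051 a4013 a5050 (k2 a329 a5026 k0))) (by decide +kernel)
def a5319 : PP 8 4 T 0x2000000000000000400002010108014004100000010100000021002042000000004 := rS 0xab3081972a939a8ccea1 (k8 a5269 a4387 i324 a5238 a5247 i987 a5318 i1224 (k2 i458 a5050 k0)) (by decide +kernel)
def a5320 : PP 8 4 T 0x2200002001000000000000000004000000000000000000000000016000000000004 := rS 0x22d3acf08b146e67 (k8 a4387 a376 a49 a441 a3326 i1511 a5063 a4417 k0) (by decide +kernel)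
def a5321 : PP 8 4 T 0x4802000000000000004000002000005000000500000050000400001200054050000044 := rS 0x2247cfd5ba9d9a10a7229527335c6608a1 (k8 a5269 a4379 a3410 a464 a5238 a5247 a4418 a463 (k8 a5063 a36 i1913 i886 a4468 i2031 a5040 i296 k0)) (by decide +kernel)
def a5322 : PP 8 4 T 0x2000000000000000000002000204000000100000000000000001044042000000000 := rS 0x891f3f56ea766b1138388cb3d52730f9f4a67b1dc484ec103b2d06f1821962e6701a3860e50e8a4804d1a85842a1 (k8 a5269 i12 a5317 i1117 a4369 a5009 a443 i1382 (k8 a409 i861 i860 i2676 a4387 a123 a5220 a4379 (k8 a5320 a1898 a385 i1379 i114 a331 a127 a5034 (k8 i2493 a5254 i126 i351 a5238 a5247 a3326 a3410 (k8 a419 a5321 i1511 i1909 i1919 i886 a4468 i2031 (k2 a5040 i296 k0)))))) (by decide +kernel)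
def a5323 : PP 8 4 T 0x2000000000000000000002000204000000100000000000000001004042000000000 := rS 0x53add763f613393a8b1b07cfa2735afd06f1821962e6701a3860e50e8a4804d1a85842a1 (k8 a5269 i12 a5317 i1117 a4369 a5009 a443 i1382 (k8 a409 i861 i860 i2676 a4387 a123 a5220 a4379 (k8 a5320 a1898 i1455 a464 a331 i126 i351 a5322 (k8 a4382 i1780 a4418 i989 i376 i3117 i887 i368 (k1 i2031 k0))))) (by decide +kernel)
def a5324 : PP 8 4 T 0x2000000000000000000002000204000000100000000000000000004042000000000 := rS 0x1f8b704b4c780729b2e24f1821962e6701a3860e5138a4804d1a85842a1 (k8 a5269 i12 a5317 i1117 a4369 a5009 a443 a331 (k8 a409 i861 i860 i2676 a4387 a123 a5220 a4379 (k8 a5320 a127 a385 a5254 i1379 a5323 a335 a122 (k2 i1784 a1807 (k1 a4468 k0))))) (by decide +kernel)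
def a5325 : PP 8 4 T 0x2000000000000000000002000004000000100000000000000000004042000000000 := rS 0x3002556c069addfa994bc5112b952d0d52193787cfa953994cf63b56965267165a4624f1821962e6701a3860e5138a4804d1a85842a1 (k8 a5269 i12 a5317 i1117 a4369 a5009 a443 a331 (k8 a409 i861 i860 i2676 a4387 a123 a5220 a4379 (k8 a5320 a127 a113 a385 i2491 i1368 a5206 i1288 (k8 a5034 i2493 a5254 a5238 i1102 i126 i351 i969 (k8 i8 a5247 a84 a5324 i987 a3633 a447 a24 (k8 a57 a853 a4402 a3507 a4013 a1815 i1265 a5050 (k1 a5060 k0))))))) (by decide +kernel)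
def a5326 : PP 8 4 T 0x2000000000000000000002000004000000000000000000000000004042000000000 := rS 0x101121489c804d78c10cb173380d1c301a85842e5 (k8 a409 i12 a5317 i1117 i861 i860 i2676 a4387 (k8 a123 a5220 a4379 a5320 a4369 a5009 a331 a443 (k2 a127 a5325 (k1 a45 k0)))) (by decide +kernel)
def a5327 : PP 8 4 T 0x2000000000000000000002000004000000000000000000000000004002000000000 := rS 0x9d678e5862a78b94363510a1d8f0432c5cce3b01a386016 (k8 a5317 i861 i860 i2676 a5034 a4387 a123 a5220 (k8 a4379 a242 i2623 i12 i1117 i9 a409 a5320 (k4 a5326 i372 i294 i989 (k2 i1512 a5099 k0)))) (by decide +kernel)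
def a5328 : PP 8 4 T 0x2000000000000000000002000000000000000000000000000000004002000000000 := rS 0x41a9c3abf520fc7af02ea056f1315aed9885480dd3c6b65a4d5b043889c52672ca5406658b9018e87180d4ea8e268583e23109f4e6a1 (k8 a5269 a5238 i126 i12 i47 i351 a5317 a4369 (k8 i860 i971 i1117 i861 i2623 a242 a5009 a123 (k8 a5220 i2676 i1102 a5206 a4387 a443 a331 i2491 (k8 a4379 i1288 i1368 a385 a464 a5327 i997 i1187 (k8 i1605 i1188 i1685 i899 a113 i2602 i1402 i1970 (k8 a127 a365 a6 a5319 i1451 i1382 i368 i895 (k1 i2031 k0))))))) (by decide +kernel)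
def a5329 : PP 8 4 T 0x2000000000000000000002000000000000000000000000000000002001000800000 := rS 0x20a552b880b22347b9622193a9209a4b (k8 a2996 a4369 a440 a5261 i8 a444 a459 i985 (k4 i1571 i868 a107 a2991 (k2 a5211 a4897 (k1 a362 k0)))) (by decide +kernel)
def a5330 : PP 8 4 T 0x2100000000000000000002000000000000000000000010000000000000200000000 := rS 0x154af11 (k4 a444 a2991 a5211 a362 k0) (by decide +kernel)
def a5331 : PP 8 4 T 0x2101002000000000000012000008000000000000000014000000000001000800000 := rS 0x19116034aabcc313202ac46ca66950ff1133a4ce2482692c62c76289d2e99549cd5a21 (k8 a5330 i1288 a5238 a5247 a5041 a5110 a76 a49 (k8 a27 a5329 a2996 a4369 a440 a5038 i1368 a414 (k8 a444 i127 a362 a2010 a1076 a2999 i1657 a5004 (k8 a4637 i1391 a551 a4787 a5019 a175 a5142 a5095 k0)))) (by decide +kernel)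
def a5332 : PP 8 4 T 0x2001000000000000000006008000000000500000000008000004000041500000000 := rS 0x181a400fb9222a1 (k8 a5269 a444 a107 i1396 a5066 a392 a3061 i457 k0) (by decide +kernel)
def a5333 : PP 8 4 T 0x2001000000000000000004008000000000500000000000000024000040800000000 := rS 0x30343ea1 (k4 a5269 a4367 a5077 a3061 (k1 i457 k0)) (by decide +kernel)
def a5334 : PP 8 4 T 0x2000000000000000000004000080000000500000000000400410000000000012000 := rS 0xaf27818125d (k4 a5062 i200 i1648 a5059 (k2 i459 a4396 k0)) (by decide +kernel)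
def a5335 : PP 8 4 T 0x2100002000000000000002000008000400000400000000000000000041000800000 := rS 0x17b454d29c5a07518e48e0c0110444835fa55546565a1cac215ba6512972cbf5734388aa4e61929a050a7524134963b1e8fc6e11 (k8 a441 a376 a6 a365 a333 a2996 a4369 a440 (k8 a5261 i1605 i1402 i2599 i8 a5238 a5247 a444 (k8 a84 a2352 a2898 i868 a5110 a5040 a5041 a4402 (k8 a5330 a5331 a387 a4399 i1579 a1244 a5111 a367 (k8 a3051 a5332 a5333 a5045 a5083 i1578 a401 a5334 (k4 i458 i1001 a1825 a5023 (k2 a111 i1417 (k1 a856 k0)))))))) (by decide +kernel)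
def a5336 : PP 8 4 T 0x4002101000000000000400012004100014000000000000000000000015000000000008 := rS 0xb00ea35650d8225 (k8 a5328 i1248 a84 a439 a3275 i1225 a5096 i1001 k0) (by decide +kernel)
def a5337 : PP 8 4 T 0x2100002000000000000002000008000000000000000000000000004040000800000 := rS 0xbe512085a4f57985f8b965960ba4144add566452809209510c5d1d1139b04cf4f8c86cee3529a4ce281429d4904d258c44ac7 (k8 a27 a5328 a5329 a2996 a4369 a440 a5261 i1605 (k8 i1402 a5038 i1368 i2599 i2809 i712 i9 a33 (k8 a26 a414 i1248 a5238 a444 a5335 a123 i726 (k8 i1102 i1187 a5140 a2083 a4379 i1659 i2602 a5039 (k8 a5019 a172 i1025 a5017 i1027 a5336 a397 a427 (k4 a74 i1000 a4396 a5049 (k2 a548 i1719 k0))))))) (by decide +kernel)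
def a5338 : PP 8 4 T 0x502000000000000000000000000008000404000000000000000000000000000800000 := rS 0xcc48464f27b3a9209a4b (k8 a2996 a4369 a440 a5261 a418 i2650 a33 a406 (k2 a680 i892 k0)) (by decide +kernel)
def a5339 : PP 8 4 T 0x2000002000000000000002000008000000000000000000000000004040000800000 := rS 0xbda2afd348348c492ab74ca5dfa875ca3c451672884cb0463d0e22a939b3e9f194e8646a79389ecde5340a14ea482692c6225 (k8 a5328 a5329 a2996 a4369 a440 a5261 i1605 i1402 (k8 i2599 a4392 a418 a5038 i2650 i2809 i8 i155 (k8 a33 a26 i133 a5238 a5247 a444 a84 a27 (k8 a5337 a63 a4897 a3227 a3131 a107 a123 a465 (k8 i1703 a2898 a5110 a5041 a4402 a5111 a5338 a113 (k4 a68 i2045 i1455 a111 (k2 i1417 a856 k0))))))) (by decide +kernel)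
def a5340 : PP 8 4 T 0x2000001000000000000012000008000400400000000000000000001000000800000 := rS 0x654a00d7b451c2687691892fd0f4388c64f2713d9bd02853a8dd2e99549cd6efd299209a4b (k8 a2996 a4369 a440 i2599 a2898 a4402 a5238 a5247 (k8 a5041 a5110 i996 a5261 i1605 i1402 a4392 a418 (k8 a5038 i2650 a33 a444 a84 i933 i1455 a5338 (k8 a113 i1155 i2045 a419 a111 i1417 a401 a856 (k2 a5095 a5111 k0))))) (by decide +kernel)
def a5341 : PP 8 4 T 0x2000001000000000000002000008000400000400000000000000001040000800000 := rS 0x3208e0503b13a1a26825cc463219241349637 (k8 i996 a2996 a4369 a440 i8 a33 a444 a2352 (k8 a5340 a68 a5338 i2490 i1156 a127 a419 a443 (k2 a401 a5045 k0))) (by decide +kernel)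
def a5342 : PP 8 4 T 0x2000000000000000000002000008000000000000000000000000004040000800000 := rS 0x1f289042d27abcc2fc5cb2d56583215c0505209744c89068a56f135db0d4ae4662412a218ba39e343889cd82cf3386c32771a94d267140a14ea482692c6225 (k8 a5328 a5329 a2996 a4369 a440 a5261 i1605 i1402 (k8 a5038 i1368 i2599 i2809 i712 i8 i9 a414 (k8 i133 i1248 a5238 a444 a84 a5339 a5341 a123 (k8 i726 i1102 i1187 i1188 a429 a2083 a3115 i1685 (k8 a113 i2602 i1968 a392 a3633 a127 a3002 a331 (k8 a625 a5045 a5083 a4379 a2010 i1659 a5017 i1027 (k8 a5336 a397 a427 a74 i1000 a4396 a5049 a2105 (k1 i407 k0)))))))) (by decide +kernel)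
def a5343 : PP 8 4 T 0x2000000000000000000002000008000000000000000000000000004000000800000 := rS 0x150dc6225 (k4 a5328 a5329 i996 a5342 (k1 i899 k0)) (by decide +kernel)
def a5344 : PP 8 4 T 0x2000000000000000000002000008000000000000000000000000004080000000000 := rS 0x69aa87aa257254c28b8a060948952a6ce83a721e0de97a28dc467b5e2097699188d50cbf108e586cd53c4c52f1201fe22a939b044b4f8ca15268f489242ea1 (k8 a5269 a5343 a5260 a5259 i1187 i1369 i1606 a33 (k8 a26 a5328 i1248 a5238 a5247 a444 i127 a5002 (k8 a126 i49 a378 i332 i888 i371 i295 i2498 (k8 i1456 a436 i1184 a1332 i1113 i1683 i933 i934 (k8 i2572 i1704 i996 a48 i1376 i2903 a406 a107 (k8 a419 i1075 i1073 a382 i397 a4662 i1069 a3055 (k8 i492 i1047 a14 a967 a5149 a1827 i1987 a99 (k1 a3056 k0)))))))) (by decide +kernel)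
def a5345 : PP 8 4 T 0x402000001000000000000000000000000000000000000000000020000040000000000 := rS 0x4e29 (k2 a443 a331 (k1 a127 k0)) (by decide +kernel)
def a5346 : PP 8 4 T 0x10002000001000000000000000000000001000800000000000000000040050002000000 := rS 0x38450f42d698e9123e0e0e43f13 (k8 a68 i1436 i234 a1898 a2105 i230 a419 a341 (k4 i1424 a203 a5011 i815 (k1 a117 k0))) (by decide +kernel)
def a5347 : PP 8 4 T 0x10002000001000000000000000001000001000800000000000000000040040002000000 := rS 0xd344bf22a2d45a68e06f268fcf479018e076271406c8313 (k8 a68 a5345 i44 a5346 i48 i255 a419 a401 (k8 i1852 i235 i2114 a5074 i1440 i815 i816 a858 (k4 i1039 a117 a4496 i1443 (k2 a3466 a5011 k0)))) (by decide +kernel)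
def a5348 : PP 8 4 T 0x2000001000000000000002000008000000800000000000000000040040000400000 := rS 0x791415e0a2726068961920aa4e6678ca449313 (k8 a68 a5260 a5259 a33 a414 a5238 a5247 a5345 (k8 a5347 a5044 a437 a440 i786 a822 i529 a127 (k2 a3237 i275 k0))) (by decide +kernel)
def a5349 : PP 8 4 T 0x102000002000000000000000000008000000002000000001000000001001000000000 := rS 0xe48208446572c9d10cc7 (k8 a27 i1076 i1075 a358 a387 i1703 i1499 a362 (k2 a107 a3227 k0)) (by decide +kernel)
def a5350 : PP 8 4 T 0x2000000000000000000002000008000000800000000000000010005000000000000 := rS 0x1f9052613cca1a1629546ab4ab2d7cbb10a2572bd661dd3470439e8f25588b044acf33d3e328549a3d22495bd16263f6389c6a3b780dc5617 (k8 a5343 a5344 i996 a5348 a333 i1183 a76 a27 (k8 a6 a68 a48 i103 a5260 a5259 i1187 i1369 (k8 i1606 a33 a26 a414 i133 a5328 i1248 a444 (k8 a5005 a5349 a406 i2572 i815 i816 i1715 a436 (k8 i1416 i1408 i1443 i729 i1948 i895 a1579 i1182 (k8 a367 i1719 i1451 a5049 i1240 a5201 a5084 a5018 (k2 a5144 a4554 (k1 a5193 k0)))))))) (by decide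 +kernel)
def a5351 : PP 8 4 T 0x2000000000000000000002000008000000808000000000000000005000000000000 := rS 0xfd82939c81c698b14aa355a5596be5da2572bd661dd347043d0e22c1a7a15268f489256f45898fd8e351dbc06e2b0b9648025 (k8 a5328 a5350 i866 a5343 a5344 i996 a5348 a333 (k8 i1183 a27 a6 a68 a48 i103 a5260 a5259 (k8 i1187 i1369 i1606 a26 i1248 a444 a84 i2572 (k8 i815 i816 i1715 a436 i1416 i1408 i1443 i1948 (k8 i895 a1579 i1182 a367 i1719 i1451 a5049 a329 (k4 i1239 a393 i741 a3227 (k2 a74 a1244 k0))))))) (by decide +kernel)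
def a5352 : PP 8 4 T 0x2000000000000000000002000008000000800000000000000000005000000000000 := rS 0x45abcc2992532936bc2a2e4e8863c1ede09789c45527312b3e32912485c5637 (k8 i996 a5344 a5343 a5260 a5259 a33 i133 a5328 (k8 a5238 a5247 a444 a68 i1376 a5348 a5351 a406 (k8 i1076 i1075 i2751 a5349 i934 i1417 i768 i1540 (k4 i1990 i1391 a551 i492 (k1 a5022 k0))))) (by decide +kernel)
def a5353 : PP 8 4 T 0x2000000000000002800004000000000000540000000000000000000000000000000 := rS 0xbaaf2993cae55 (k4 a330 a4399 i1390 i622 (k2 a4403 i1971 (k1 a4396 k0))) (by decide +kernel)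
def a5354 : PP 8 4 T 0x400000000000010002000002000000002000006040000000000500000040004040000040001000000000 := rS 0x11cd60d51aa83b0529174fe3b08aec1ea1 (k8 a5269 a5234 i1948 a441 a333 i127 i1971 a4396 (k8 a578 a1820 i883 a1805 a4540 i585 i1655 a4462 k0)) (by decide +kernel)
def a5355 : PP 8 4 T 0x2000002000000002000202040008001000400000000000040000040041000000000 := rS 0x14cc30e8a43e0d82900d45c29958cf4f8ca050ab75fd0cfe73889f47a3f13845420f (k8 a5234 a5269 a441 a76 a6 a365 i126 a444 (k8 a5238 i127 a84 i1455 a550 i1606 i1402 a33 (k8 a26 a414 a5354 i569 a4413 i1970 a5062 a464 (k4 i467 a4367 a443 i741 (k2 a276 i2031 (k1 i1984 k0)))))) (by decide +kernel)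
def a5356 : PP 8 4 T 0x2001000000000000400016050000504000500000040008001004000041100000000 := rS 0x401122954614a928ca4d37a5d5273 (k8 a5238 a5247 a5110 i1399 i529 i1580 a440 a5111 (k4 i1047 a5050 a5022 a5332 (k2 a5064 a5333 k0))) (by decide +kernel)
def a5357 : PP 8 4 T 0x2000002000000002000202040008400000400000000000001000040041000000000 := rS 0x8b309289b042e95d2e597e939526749a3d323f1089d96b75fd0ce7113ea050a913f9bd72ad (k8 a346 i1189 i1399 i127 a5259 i1606 i1402 i126 (k8 a444 a5238 a84 i1455 a550 a5353 a76 i729 (k8 a6 i1113 i1187 i1369 a414 a5247 a5355 a74 (k8 i871 a5110 a5356 i1971 a2010 a822 a440 i1047 (k2 i491 a5022 k0))))) (by decide +kernel)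
def a5358 : PP 8 4 T 0x402000002000000000000202000008400000400000000000001000040041000000000 := rS 0x15cb2412987c1b058601d546aa2bf55c3f08b2d994f43add7f4339c44fa8142a44fea1 (k8 a5269 i127 a5259 i1606 i1402 i126 a444 a5238 (k8 a84 i1455 a550 i933 a26 a436 a5353 a441 (k8 a6 a5357 a427 a381 i1986 i1987 i459 a462 (k8 a464 i467 a81 a383 a3061 i581 a5083 a1076 k0)))) (by decide +kernel)
def a5359 : PP 8 4 T 0x2000000000000000000000000000000000000000000020081000000001000000000 := rS 0x1b261049653 (k4 i32 a4384 i866 a440 (k2 a5084 a5104 k0)) (by decide +kernel)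
def a5360 : PP 8 4 T 0x400000000000010002000002000000002000006040000500000500004040004001000040001000000000 := rS 0x116612513608594bbf49c5d549cd967f (k8 i127 a5353 a5238 a5247 i1971 a5354 a74 a5110 (k4 a5359 a1076 a822 a440 (k2 i1047 i491 (k1 a5022 k0)))) (by decide +kernel)
def a5361 : PP 8 4 T 0x402000002000000000000002000008400000400000000000001000001041000000000 := rS 0xb62a894a019a6ab30bf0caad2b29d5f445e9bd72a933c65268f1ba647e2113aed96cca7a1d6ebfa19ce227d40a15227f (k8 i127 a5259 i1606 i1402 i126 a444 a5238 a84 (k8 i1455 a550 i933 a26 a436 a5353 i1948 a76 (k8 i729 a6 i1113 i996 i1187 i1369 a33 a414 (k8 a5247 i1189 i1399 a5358 a404 a381 a410 a5360 (k8 i1581 i1580 a5356 a397 a97 a3219 a2041 a5050 (k4 a5042 a14 i978 a5011 k0)))))) (by decide +kernel)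
def a5362 : PP 8 4 T 0x402000002000000000000002000008000000400000000000001000001041000000000 := rS 0x1d62eb837af219454d2ed994f47a15227743add7f433f9ce227d (k8 i126 a444 a5238 i127 a84 i1455 a550 i933 (k8 i1715 a5259 i1606 i1187 a26 a436 i1948 a5361 (k8 a111 a991 a404 a357 i1417 a465 i1065 a466 k0))) (by decide +kernel)
def a5363 : PP 8 4 T 0x2000002000000000400020000000000000000000040000000000015000000000000 := rS 0x82390cb17 (k4 a465 i1027 a429 a4379 (k1 a3227 k0)) (by decide +kernel)
def a5364 : PP 8 4 T 0x400400000000000002000000000000000000450000000800000000000000000000000000000000000000 := rS 0x17b45 (k2 a111 i1417 (k1 a404 k0)) (by decide +kernel)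
def a5365 : PP 8 4 T 0x400000000000010002001002000000002000016040000104000500000040000001000040041000000000 := rS 0xad2b1f47e2113b2cfe6f4daed7f43 (k8 a84 i1455 i1948 a5364 i1399 i127 a5353 a76 (k4 i729 a6 i126 a5360 (k2 i1581 a5356 k0))) (by decide +kernel)
def a5366 : PP 8 4 T 0x2000002000000002000002000008000000000000000000000000005000000000000 := rS 0x720b48e1e51874a5162c194ae0d82a55546a53c517807a2ab936b965aed8267a7c65268f40a1522374c8f47e27088d476292ea5d12fd890ac921712add7e83a19fe227d549cc1ea1 (k8 a5269 a5234 a5238 a5247 i126 a444 i127 a84 (k8 a5352 i1455 a550 a5328 a5343 a5260 a5344 a5362 (k8 a4532 a5040 a5110 a5 a54 a333 i1183 a441 (k8 a76 a6 a365 i1113 i996 a5259 i1606 i1402 (k8 i1187 i1369 a33 a26 a414 i1248 i1948 a5353 (k8 a5363 a5364 a5365 a381 i459 a404 a422 a1825 (k8 i1986 i1987 a14 a464 i467 i507 i1659 a2010 (k8 a4379 i581 a1820 a1805 i2031 i1655 i1304 a425 (k1 a2519 k0))))))))) (by decide +kernel)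
def a5367 : PP 8 4 T 0x902000000000000001050204080000540010500000040001000005400045000410000 := rS 0x722d0c078361d1114896212c15c1b0553aa8d40714bf5420f (k8 a5234 a5269 a4532 a54 i459 i1986 i1987 a1825 (k8 a464 i467 i508 a362 a4692 a4384 i581 a4637 (k4 a1820 a4515 i2031 a437 (k2 i1304 i234 (k1 a5107 k0))))) (by decide +kernel)
def a5368 : PP 8 4 T 0x10902000000000000005400204040001001005140000040005000000440001000010000 := rS 0x8ca335949544f06c14b05d7eab41ea1 (k8 a5269 a5234 a346 a4532 a5 a143 a794 i462 (k4 i871 a285 a4535 i585 (k2 a1805 a4462 (k1 i1655 k0)))) (by decide +kernel)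
def a5369 : PP 8 4 T 0x10802000000000000005450216000001504001400000040000000005440045000410000 := rS 0x109595ead3fc45224940a1d2e897eaa4e655 (k8 i768 a5238 a5247 a4532 a5040 a5110 i933 i1402 (k8 a5260 a5259 a444 i127 a346 a5367 a5368 a2991 (k1 a5356 k0))) (by decide +kernel)
def a5370 : PP 8 4 T 0x2001000000000000400016040000504000500000040008001004000041000000000 := rS 0x2b4427d (k4 i126 a2991 i1581 a5356 k0) (by decide +kernel)
def a5371 : PP 8 4 T 0x400000000000010802000000000000005450056000001504001400000040000000005440045000410000 := rS 0x8e6b51aa8a44f06c14b05757d117a55a19fe229124a050ebf2ebf41ea1 (k8 a5269 a5234 a4532 a5 i1455 i933 i1402 a5260 (k8 a5259 a444 i127 a84 i768 a5369 a404 a381 (k8 a5370 a143 a794 i462 a5359 a4535 a4554 a1805 (k2 i586 i1655 (k1 a4462 k0))))) (by decide +kernel)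
def a5372 : PP 8 4 T 0x802000000000000001050002000008400000400000000000000005440045000410000 := rS 0x13496712722a28af2998594b95db3ccf4f8ca75268f40a1522494c9752efd5bafe867f889f55273 (k8 a5238 a5247 i126 a444 i127 a84 i1455 a550 (k8 a4532 a5110 a5 i1113 a5260 a5259 i1606 i1402 (k8 i1187 i1369 i155 a33 a26 a414 i133 i1686 (k8 i1189 a5371 i1391 i622 a551 a5043 a5022 a4396 (k4 a117 i491 i789 a440 k0))))) (by decide +kernel)
def a5373 : PP 8 4 T 0x2001000000000000800002000008800400500000000100000000000000000000000 := rS 0x1173aae0debb272555e5355aa69e7743add7f433f9ce227d (k8 i126 a444 a5238 i127 a84 i1455 a550 i933 (k8 i1715 a26 a5247 i123 i622 a551 a4787 a4396 (k4 i1685 i2885 a5364 i1065 (k2 a465 a466 k0)))) (by decide +kernel)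
def a5374 : PP 8 4 T 0x2000002000000000000002000008000000000000000000000000005000000000000 := rS 0x160a65782c3154648aa51746f5cb2ce29a66bf4bb121a8444ec71f8f476a91299e9e8f40a1522490b8ad8a375bafd07433f9ce227d (k8 i126 a444 a5238 i127 a84 a5352 i1455 a550 (k8 i996 i1525 a5344 a5343 a5260 a5259 i1606 i1402 (k8 i1187 a26 a414 a5328 a5247 a333 a365 a6 (k8 a27 a76 a441 i1183 a5362 a5 a4532 a5366 (k8 a5372 i1447 a5373 a5363 i1399 a5364 i1685 a14 (k8 a5111 a4787 a389 a63 i1580 a383 a1076 i581 k0)))))) (by decide +kernel)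
def a5375 : PP 8 4 T 0x2001000000000000400412000008800000000010000000001000000000000000000 := rS 0x160a65782c3154648aa51746fa1aa4e74f (k8 a26 a5238 a5247 a84 i1399 a5364 i1685 a14 (k8 a5111 a4787 a389 a63 i1580 a383 a1076 i581 k0)) (by decide +kernel)
def a5376 : PP 8 4 T 0x2201000000000000004042000008000000000008000100000004005000000001000 := rS 0x18e8828b0387c9d4f8ca050a9115b146eb75fa0e867f39c44faf1239ac944d2485c1ea1 (k8 a5269 a5234 a5343 a5260 a822 a440 a464 a451 (k8 a5374 i126 a444 a5238 i127 a84 a5352 i1455 (k8 a550 i996 i1525 a5344 a5259 i1606 i1402 a33 (k8 a26 a578 a2995 i2816 i491 a3061 a3409 a5046 (k1 a5034 k0))))) (by decide +kernel)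
def a5377 : PP 8 4 T 0x2001000000000000400002000008800000000000000000000000005000000000000 := rS 0xfcbb12528361ac3721b86b043a2ed78658ba5570256799d1e8142a4492173ba1d6ebfa19fce7113ed14e283 (k8 a5352 i1447 a111 i126 a444 a5238 i127 a84 (k8 i1455 a550 i933 i1715 a5343 a5260 a5259 i1606 (k8 i1402 i1187 a414 i133 a5328 a5375 i131 a465 (k8 i1027 i1190 i1685 a466 a4379 i1062 i1065 a429 (k8 a3115 a357 a392 a382 a462 a5 i1411 a5376 k0))))) (by decide +kernel)
def a5378 : PP 8 4 T 0x2002001000000000000002000008001000400000000000000000000040000000000 := rS 0x4166172264f5794e9e8543add7f433f9ce227d (k8 i126 a444 a5238 i127 a84 i1455 a550 i933 (k8 i1606 a26 a452 a427 a74 a4532 a4413 a436 (k2 a5345 a5116 k0))) (by decide +kernel)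
def a5379 : PP 8 4 T 0x2000000000000000000002000008800000000000000000000000005000000000000 := rS 0x448b8cd6553d1e8142a1d6ebfa19fce7113ebf5e28315a449217 (k8 a5343 a5260 a5259 a5344 a5352 a5374 a5378 i126 (k8 a444 a5238 i127 a84 i1455 a550 i933 i1606 (k8 i1402 i1187 a26 a5377 a5353 a5373 a436 a5 k0))) (by decide +kernel)
def a5380 : PP 8 4 T 0x802000000000000000800006000008540000000000000000001000000000000000000 := rS 0x12c9a8a271855e533faa4e68142a45725d (k8 a5 i1189 a5259 i1606 i1402 a5238 a5247 i127 (k8 i622 a551 i1391 a4535 a5022 i790 i491 a440 k0)) (by decide +kernel)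
def a5381 : PP 8 4 T 0x2000000000000000400002000000000000000000040010020000000000000000000 := rS 0xaf05 (k2 a822 i529 (k1 a1076 k0)) (by decide +kernel)
def a5382 : PP 8 4 T 0x400000000000000002000000000000000400442000000540000000004040110001000000000000000000 := rS 0x57829a979455722cc24a26d0d5273 (k8 a5238 a5247 a84 a5381 a440 i1047 i491 a5022 (k4 a381 a404 i1986 a464 (k2 i507 a1076 k0))) (by decide +kernel)
def a5383 : PP 8 4 T 0x802000000000000000000002000008000000000000000000000000005000000000000 := rS 0x1a61f52995c89523c51467186874a4075513c6a0d82961965d1299e9e9347ade867f889f532bf4bbf5e28315a449217549cd766f5ca6d420f (k8 a5234 a5269 a5379 i1189 i1399 i1686 a5238 a5247 (k8 a5343 a5260 a5259 a5344 a5352 a5374 a5378 a5110 (k8 i1455 i1113 i126 a444 i127 a84 a550 i1187 (k8 i1369 a26 a414 a5328 a5 a5380 a5382 a415 (k8 i462 a4752 a5359 a4554 i457 i581 a4343 a383 (k8 a5253 a1805 a389 i1655 a14 a425 i1659 a382 (k2 i1395 a5127 (k1 a377 k0)))))))) (by decide +kernel)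
def a5384 : PP 8 4 T 0x2000000000000000000002000008000000000000000000000000005000000000000 := rS 0x523912a2d23c5074a338c344c5214aa89e3506b0e0a582eb2c82cc899bd72bb4ba6d12fd78a656ebf43a0c6e7da19fe22a939b044a67a7c65268f40a1522490b8ac1ea1 (k8 a5269 a5234 a5344 a5343 a5260 a5259 i1606 i1402 (k8 i1187 i1369 a33 a26 a414 a5328 i1248 a5238 (k8 a5247 a444 i127 a84 i126 i996 a5352 i933 (k8 i1455 a550 i1113 a5374 a5378 a5040 a5379 a5110 (k8 i1686 i1189 i1399 a5383 a436 a5345 a5353 a5116 (k8 a5382 a415 a487 i462 a4752 a5359 a4554 i1968 (k8 i581 a127 a383 a5253 a1805 a1276 a389 i1655 (k4 i1157 a14 a425 a5049 (k1 a382 k0))))))))) (by decide +kernel)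
def a5385 : PP 8 4 T 0x2000000000000000000002000000000000000000000000000000000000200000000 := rS 0x4d82104b20f (k4 a5234 i724 i2498 a5330 (k2 a822 a5102 k0)) (by decide +kernel)
def a5386 : PP 8 4 T 0x2000000000000000000002000000000000000000000000000000002001000000000 := rS 0x5a2221 (k4 a5385 a444 a1332 a5329 k0) (by decide +kernel)
def a5387 : PP 8 4 T 0x2200000000000000004002000001000408000000040100000010004000000800000 := rS 0x67a422d114f9dc6a213d8ec4e7518894563901120964d (k8 a822 a2996 a440 a5053 a401 a5002 a5328 a5386 (k8 i970 a725 i1156 i713 a5385 i1117 i712 a5384 (k4 a444 a466 a3847 a368 (k1 a2794 k0)))) (by decide +kernel)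
def a5388 : PP 8 4 T 0x400000000000000002200000000000000000446000000040000100000040100040010004000000800000 := rS 0x3c520ce8ba390c9d61af19b454150e2231128d4423901120964d (k8 a822 a2996 a440 a5053 a401 a5385 i1117 a5328 (k8 a5386 a444 a84 a578 a48 i895 a404 a1038 (k8 i1911 i1416 a5387 a123 i932 i931 a3216 a5061 k0))) (by decide +kernel)
def a5389 : PP 8 4 T 0x2200000000000000010086000000100000000000040000000000004000000800008 := rS 0x1164e3c232c367b36229f188946a211d89c7237 (k8 a446 a401 a725 i1156 a5385 i1117 a5328 a5386 (k8 a5384 a444 i1948 i1950 a1038 a3410 a419 a262 (k2 a3216 a399 k0))) (by decide +kernel)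
def a5390 : PP 8 4 T 0x2200000000000001010046000000040000100000040100040010004000000800000 := rS 0x45de09c8cb1d9f4e61afe229f188946a211d89c723701120964d (k8 a822 a2996 a440 a5053 a446 a401 a725 i1156 (k8 a5385 i1117 a5328 a5386 a5384 a444 i1456 a1038 (k8 a5388 a3 a59 a3410 i2035 a419 a399 a3216 k0))) (by decide +kernel)
def a5391 : PP 8 4 T 0x402200000000000000000046000000040000100000040100040010004000000800000 := rS 0x50c378c5d1c9143b313e353a8c44a3901120964d6289c5621 (k8 a5385 a5002 a725 a1043 a822 a2996 a440 a5053 (k8 a401 a5328 a5386 i970 i1117 a5384 a5390 i129 (k4 i893 a2736 a123 a3216 (k2 a1105 a127 (k1 i1968 k0))))) (by decide +kernel)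
def a5392 : PP 8 4 T 0x2200000000000000000002000000000000000000000200000010000001000000000 := rS 0x18628083362221 (k4 a5385 a444 a5116 a5062 (k2 a5087 a1038 (k1 a876 k0))) (by decide +kernel)
def a5393 : PP 8 4 T 0x402200000000000000000006000000140000000000040000040010004000000800000 := rS 0x1165598418c34abf108cd86a01767da19fe22a9399955a473594cb23538808904b269744ac5138ac420f (k8 a5234 a5385 a5002 a725 a1043 a5328 a5392 a822 (k8 a2996 a440 a5053 a5038 i1117 a415 i882 a464 (k8 a451 a445 a63 a5238 a5247 a444 i127 a84 (k8 i126 a5389 a5391 a4 i1975 a535 a4475 a2354 (k4 a1038 a3924 a397 a97 (k2 a5078 a5182 k0)))))) (by decide +kernel)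
def a5394 : PP 8 4 T 0x402200000000000000000002000000000000000000080000000010004000000800000 := rS 0x43b352285144601ac378b911c578bc44b2472a9acee351d9d462391b808904b269744ac5138ac420f (k8 a5234 a5385 a5002 a725 a1043 a5328 a5392 a822 (k8 a2996 a440 a5053 a446 a401 a5386 i970 i1156 (k8 i1117 i712 a464 a72 a451 a415 a444 a350 (k8 a5183 a466 a429 a3216 a1105 a392 a419 a127 (k4 a3806 a114 i1968 i931 (k1 a460 k0)))))) (by decide +kernel)
def a5395 : PP 8 4 T 0x2000000000000000000000000000080000000054000100000000000000000000000 := rS 0x10c41bf22aa9 (k4 a5247 a24 a5110 i1375 (k2 a389 a1590 k0)) (by decide +kernel)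
def a5396 : PP 8 4 T 0x402200000000000000000006000000000000000000000000040010004000000800000 := rS 0xcd42d3d0eba4733922814ea2d31114f994d6773d89cf2934b974e24825934de7518894e667 (k8 a5394 a5238 a5328 a5386 i970 i1400 a822 a2996 (k8 a440 a5038 a5392 a5395 i1368 a353 a725 i713 (k8 i712 a464 a63 a5384 a444 a5393 a5065 i1943 (k8 i1864 i1110 a4418 a2262 a5391 i931 a3 i1870 (k2 i1948 a436 k0))))) (by decide +kernel)
def a5397 : PP 8 4 T 0x402200000000000000000006000000000000000000000000000010004000000800000 := rS 0x170f04d0f47ea516a8d4e954c82038077e938cea960b2cca471a884762749a2472370125cba712412c9a6f3a8c44a73 (k8 a5238 a5328 a5386 i970 i1400 a822 a2996 a440 (k8 a5038 a5392 a5395 a5053 a446 a401 a5039 i1368 (k8 a725 i1156 a5385 i1117 a451 a63 a385 i1248 (k8 a5247 a5394 a5396 a74 i1222 a5051 a5059 a5041 (k8 a5111 a1825 a1824 i1001 i1382 i1422 a122 a5023 (k2 a828 a5049 (k1 a5363 k0))))))) (by decide +kernel)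
def a5398 : PP 8 4 T 0x2200000000000000000006000000000000000000000000000010004000000800000 := rS 0xbba7a75726747c59e1194d2658abf7ea15069140a1e254388aa53e771a884f63b139e472370125cba712412c9a6f3a8c44a73 (k8 a5238 a5328 a5386 i970 i1400 a822 a2996 a440 (k8 a5038 a5392 a5395 a5053 a446 a401 a353 a725 (k8 i1156 i713 a5385 i1117 i712 a5384 a5247 a444 (k8 a84 a5397 a69 a45 a113 a68 a77 a4532 (k8 i1455 a688 a5041 i2045 a41 a419 a3216 a123 (k4 a350 a465 a399 a1950 (k2 a5389 a5364 k0))))))) (by decide +kernel)
def a5399 : PP 8 4 T 0x200000000000000000000a000000000000000000000000400000004000000800000 := rS 0x13cfb433fc446225 (k8 a5328 a5386 a444 i127 a84 i126 a125 a4398 k0) (by decide +kernel)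
def a5400 : PP 8 4 T 0x802200000000000000000006000000000000000000000000040020000001000000000 := rS 0x533180ccd5fab9fa85159750687138a58ac378a06181d0fa9582cb06b90471110ab4fe532c91d420f (k8 a5234 a5269 a451 a415 i882 i127 a445 a5385 (k8 a444 i184 a107 a392 a385 i1248 a382 a4367 (k8 i741 a4359 a4 a3227 a468 a40 a443 a725 (k8 a69 a68 a5 a378 a77 a4532 a4535 i1455 (k4 a771 a3321 i2032 i460 (k1 i337 k0)))))) (by decide +kernel)
def a5401 : PP 8 4 T 0x2200000000000000000002000000000000000000000000040000004000000800000 := rS 0xc09716b487eaf1ed1578824da199c998cafd3a90668d94e8b1544c3aa939a7c62653599c06a578b9046405b94cb247888844aa1 (k8 a5269 a5328 a5385 a444 a451 a415 i882 a5399 (k8 a5398 i184 a107 a3227 a382 a5019 a5056 a464 (k8 a63 a5386 a5384 a5238 a5247 i741 a5400 a5345 (k8 a175 i332 i899 i2603 i898 i1780 i1456 a114 (k8 i1110 a4418 i1150 i1152 i933 i934 a48 i1255 (k4 i1986 i1411 a442 a329 (k2 i1777 a967 (k1 a5026 k0)))))))) (by decide +kernel)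
def a5402 : PP 8 4 T 0x402200000000000000000002000000000000000000000000000000004000000800000 := rS 0x34c7a2c041807eafa2af1049b4333a32bf4ea419a3653a2c549f18994d66701a95e2e4119016e532c91e222112a5d32fd272a4e6a1 (k8 a5269 a5238 a5247 a5401 a74 a5041 a5110 a5328 (k8 a5385 a444 a451 a415 i882 a5399 a5398 i184 (k8 a107 a3227 a382 a5019 a5056 a464 a63 a5386 (k8 a5384 a5345 a175 i332 i899 i2603 i898 i1780 (k8 i1456 a114 a4418 i1150 i1152 i933 i934 a48 (k8 i1986 i1411 a967 a5060 a5026 a122 a329 a442 k0)))))) (by decide +kernel)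
def a5403 : PP 8 4 T 0x2200000000000000000002000000000000000000000000000000004000000800000 := rS 0x13b4f6631e2e3730aac7ecf8c81934bf15a0d23124aa652efd40939e2c362a941ae41180c3e405b9e4e26f241d4767b25c45527310a7c622532ab48e272694cb2a1 (k8 a5269 a415 i882 a822 a725 a451 a445 a63 (k8 a5328 a5386 a5384 a5385 a5238 a5247 a444 a2996 (k8 i713 i1156 i970 a440 i1400 a5038 a353 a5399 (k8 a5398 a4367 a5019 i184 a107 a392 a382 a40 (k8 a468 a3227 a5401 a124 a74 a5110 a5041 a5111 (k8 a5402 a113 a68 a378 i1455 i2045 a3321 a41 (k8 i1152 a458 i457 i1224 i995 a5182 a2286 a4637 (k2 a36 i1909 (k1 a463 k0))))))))) (by decide +kernel)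
def a5404 : PP 8 4 T 0x802200000000000002000002000004000000000000000000001020000001000000000 := rS 0xe1143b184cc9b37aee2e4e032dd32974ebf69ea939b2ca6594787d4ac561bc5c82323c44428115afd068b2e9289aa1 (k8 a5269 a822 a440 a5 i491 a68 i1455 a378 (k8 a45 a5385 a444 a451 i184 a107 a3227 a468 (k8 a40 a382 a4367 a4381 a415 i882 a385 a5238 (k8 a5247 a36 a781 i1910 a5110 a5041 a4402 a3321 (k8 a771 a4412 i1948 i2816 a1490 a5382 i1047 i490 (k2 a5043 i807 (k1 a117 k0))))))) (by decide +kernel)
def a5405 : PP 8 4 T 0x802200000000000000000002000000000000000000000000000020004000000000000 := rS 0x26cc317579bc0c994ba754f4f273f58cb766a2d7e2b2ea0d02a939a7c6227251242e4d0fa958ac378b904647888844aa1 (k8 a5269 a5328 a5385 a444 a451 i184 a107 a3227 (k8 a468 a40 a382 a4367 a822 a5403 a5260 a440 (k8 a725 a5386 a5384 a5238 a5247 a45 a68 a5 (k8 a378 i1455 i491 a5404 i886 a4637 a4532 a5400 (k8 a59 i337 i1640 a5110 a5041 a3321 i2816 i460 (k4 a4412 i1047 a1490 a5022 k0)))))) (by decide +kernel)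
def a5406 : PP 8 4 T 0x2201001000000001000002000001001004000000001000008000011080000000000 := rS 0x33874781bc6404673b9c6289588aa4e665359351e39 (k8 i295 a4381 a822 a464 a63 a5238 a5247 a444 (k8 a5111 a5043 a117 i807 i490 a5196 a5118 a446 (k4 a4470 a419 a4422 i1145 k0))) (by decide +kernel)
def a5407 : PP 8 4 T 0x2200001000000001000002000001541004000000001000008000011080000000000 := rS 0x3c22a32af7e2a4e64d (k8 a822 a5238 a5247 a5406 a427 a5121 a5022 a4470 (k1 i1854 k0)) (by decide +kernel)
def a5408 : PP 8 4 T 0x2200001000000001000002000001541004000000000000008000011080000000000 := rS 0x1e430cf0119ce877371c4c111329ac9a8f (k8 a4381 a822 a464 a63 a444 a5407 i1280 i1047 (k8 i807 i1400 i490 a5196 i1068 i1045 a4422 i388 k0)) (by decide +kernel)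
def a5409 : PP 8 4 T 0x2200001000000001000002000000541004000000000000008000011080000000000 := rS 0x579862a70459d8f1194e2a4e64d (k8 a822 a5238 a5247 a5408 a347 a4470 i1858 i1854 (k4 i807 a117 i1280 a2598 (k1 a5022 k0))) (by decide +kernel)
def a5410 : PP 8 4 T 0x2200000000000000000002000000200000000000000000000020004000000000000 := rS 0x255107633b4c06ab8b8645a9d7e22c7715a19fd52734f8c5969149a3c94490b9354aa7668aa26f17208c8f11108941ea1 (k8 a5269 a5234 a5328 a5385 a444 a451 i184 a107 (k8 a3227 a5405 a5345 i888 i332 a382 a822 a5403 (k8 a5260 a440 a4381 i1369 a5259 a385 a5386 a5384 (k8 a5238 a5247 i127 a84 a57 a5035 a5065 a5041 (k8 i1943 i981 i387 a4412 a97 i1045 a4206 a5056 (k4 a5196 a5011 i1675 a3633 k0)))))) (by decide +kernel)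
def a5411 : PP 8 4 T 0x2200000000000000001000001100080000040000000000008020000080000001000 := rS 0x4303a805593c12787e4643ea1 (k8 a5269 a4367 a71 a5110 a4470 a369 a74 a97 (k4 i1855 i741 a1835 a4 k0)) (by decide +kernel)
def a5412 : PP 8 4 T 0x2200001000000001000002000000141004000000000000008000011080000000000 := rS 0xce773a1c4dc7b3c33e329a329ac9abf (k8 i1456 a822 a464 a63 a5409 a41 i1152 a4470 (k4 i81 i1073 i1448 i1400 (k2 i807 i1588 (k1 a4473 k0)))) (by decide +kernel)
def a5413 : PP 8 4 T 0x2200000000000000000002000000000000000000000000000020004000000000000 := rS 0x30a2d5e6f4d9ed78824325d32cd1544de2a5068d5c8233fc455273608853e311291cd691251242e4d (k8 a822 a5403 a5260 a440 a5259 a464 a451 a5328 (k8 a5386 a5384 a5385 i1248 a5238 a5247 a444 i127 (k8 i184 a107 a364 a392 a382 a3227 a5405 a5345 (k8 i888 a5410 a5411 a5412 i933 i934 i818 i1418 (k4 i2903 i1986 i492 i1047 (k1 a5022 k0)))))) (by decide +kernel)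
def a5414 : PP 8 4 T 0x2200000000000000000402000004000048000000040100001000000000000000000 := rS 0x954c45cec6f4da5d3a7b3aaf104bb89d3e867f88965969149a3c944d (k8 a822 a440 a4381 i1369 a5259 a385 a415 a444 (k8 i127 a84 a20 a69 i1683 i933 i934 i1707 (k8 i818 i1645 i1376 i1418 i2903 a2262 a4412 a5382 (k2 i1675 a1601 k0)))) (by decide +kernel)
def a5415 : PP 8 4 T 0x8002200000000000000000000000004000040000000000000000000000000000000000 := rS 0x9d (k2 a399 a4412 k0) (by decide +kernel)
def a5416 : PP 8 4 T 0x2200000000000001010002000004000040000000040104001000000041000001000 := rS 0x42a1d86bf88884b2472a9ac4e0f (k8 a5234 a725 a464 a72 a451 a415 a5385 a444 (k4 i1456 a1038 a5414 a3806 (k1 a460 k0))) (by decide +kernel)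
def a5417 : PP 8 4 T 0x4102200001000000002014000000000000440001000040000000000444000000001000 := rS 0x3a338ef18239ad3a0f (k8 a5234 i1910 a464 a451 a3409 a3727 a784 a466 (k1 i1067 k0)) (by decide +kernel)
def a5418 : PP 8 4 T 0x2200000000000000000002000000000000000000000000000000004000000000000 := rS 0x781e6242961b30aec506b922e371a8ed16180199cba2b20a3c94490b9344f114f8c44a0f (k8 a5234 a5328 a5386 a5384 a444 a725 a822 a5403 (k8 a5260 a440 a4381 a5413 a5002 a5392 a5069 a5046 (k8 a5044 a5064 a5034 a5054 i1044 a5415 a429 a392 (k8 a40 a5083 a5416 a468 i1968 a4115 a398 a5417 (k1 a3227 k0))))) (by decide +kernel)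
def a5419 : PP 8 4 T 0x102100000000000000000000000004000000000000000001008010000000000000000 := rS 0xd4564599cca59 (k4 a4384 i1050 a5069 a5064 (k2 a362 a4454 (k1 a5081 k0))) (by decide +kernel)
def a5420 : PP 8 4 T 0x2100000000000000000000000004000040000000040008000010001000000000000 := rS 0x190186b (k4 a5081 a5083 a4454 i1491 k0) (by decide +kernel)
def a5421 : PP 8 4 T 0x2100002000000000010000000004000040000000040000000000001000000000008 := rS 0x11638ec6a0f (k4 a5234 a4378 a333 a27 (k2 a441 a4810 k0)) (by decide +kernel)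
def a5422 : PP 8 4 T 0x2000000000000000000000008000000000040000000020000800000000000000000 := rS 0x288a4a1 (k4 a5269 i581 i1655 a1805 k0) (by decide +kernel)
def a5423 : PP 8 4 T 0x802100000000000002080002014000000000000000000000000000000000000000000 := rS 0x196fd5bafd07433fa04faa1 (k8 a5269 i126 i1975 i127 a84 a68 i1455 a740 (k2 a4532 a5353 (k1 a439 k0))) (by decide +kernel)
def a5424 : PP 8 4 T 0x400000000000002101000000000002000000014000000000000000000100440000000000000000000 := rS 0x57aed94b7 (k4 a4402 a439 i1948 i626 (k1 a4404 k0)) (by decide +kernel)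
def a5425 : PP 8 4 T 0x2000000000000002000016040100000010000000040100440000004108000000000 := rS 0x28d2abe4129d829f188946a9382a04fa0f (k8 a5234 i126 i1975 a5418 a4788 a4378 a5328 a5386 (k8 a5384 i1248 i1914 a4396 i895 i1725 i1720 a5049 k0)) (by decide +kernel)
def a5426 : PP 8 4 T 0x2000001001000002000002000000000010000000040120000000004140000000000 := rS 0x2f906b657bf04d1352b18534fa1b0d8ab95693c928f8b0c46a535591a0a0d129fd420f (k8 a5234 a5269 i127 a5328 i462 a5418 a425 a5422 (k8 i883 a4378 a5386 a429 a123 i868 a5359 i1287 (k8 a465 a277 a487 a84 a36 i1968 a379 a5292 (k8 a5423 a127 a5424 a427 a5425 i103 a740 i1455 k0)))) (by decide +kernel)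
def a5427 : PP 8 4 T 0x2100000000000001080002014000000000000000400020000000000040000000000 := rS 0xcb7ea05071242d3e87114394d6ebf (k8 i1456 i886 i883 a358 a444 a84 a59 i1602 (k4 a436 a548 i1402 a4532 (k2 a1899 a439 k0))) (by decide +kernel)
def a5428 : PP 8 4 T 0x2000001001000000000002000000000000000000440020000000004040004000008 := rS 0x65bf55c8142a0c52798c8e98eb76694d562d568609e17489bc92b94791a2d433fa7c62cf1aa7586c5068960a5d448e46e0f (k8 a5234 a446 a401 a5039 i609 a5418 a5328 i462 (k8 a277 a487 a4419 a4378 a4458 a5386 a5384 i127 (k8 a84 a429 a425 a123 a465 i868 i1399 a5259 (k8 i998 a5359 a437 i1287 i1039 a5422 i883 a5426 (k8 i886 a5427 i2035 a411 i1070 i255 a5346 a545 (k4 i1402 a4396 a427 i625 (k1 a439 k0))))))) (by decide +kernel)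
def a5429 : PP 8 4 T 0x2001000000000000000002004100004000400000420020000000014000000000000 := rS 0x23c9116272e5969540aa4e705010c44a53 (k8 i883 a5328 a5386 a5095 a5418 a5238 a5247 a4475 (k8 a4787 a1899 i1027 a4554 a5336 a5359 a123 i868 k0)) (by decide +kernel)
def a5430 : PP 8 4 T 0x2000000000000000000006004100100040401000440020000000004000000000000 := rS 0x12c714d9bd00b927abcc2fc29aa4e63549974c9054f8c44a0f (k8 a5234 a5328 a5386 a5384 a5418 a4454 i609 a4788 (k8 a4378 a5238 a5247 i883 a5429 a397 a427 a74 (k4 a4425 a4396 i1399 i1336 (k2 i1363 a5022 (k1 a5395 k0))))) (by decide +kernel)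
def a5431 : PP 8 4 T 0x2000000000000000000002008000000000000000020020000000000000000000000 := rS 0x37c54e30d4a148fe73 (k8 a5238 i127 i581 i1659 a383 a5253 a14 i1058 (k1 a389 k0)) (by decide +kernel)
def a5432 : PP 8 4 T 0x2000001000000000040002000100006000800000020020000010814000000000000 := rS 0x2887c958b8a5728e0cb2c904da19cd8231128b47a2b (k8 a5002 i1256 i1158 a5328 a5386 i1248 a5238 a84 (k8 a110 a5259 a5017 a2997 i868 i1027 i254 a123 (k4 i1102 a2105 a5096 i406 k0))) (by decide +kernel)
def a5433 : PP 8 4 T 0x2000000000000000040006000000000040000000440000000010004000000000000 := rS 0xc85d22823ca66323a549cd9e354ea4d86391ba95c8f162834360215aacc8582ba7c62252ac460a0f (k8 a5234 a5418 a444 a5005 a5328 a5386 a5384 a5420 (k8 a362 a4454 a5431 a5002 a5095 a5047 i462 a277 (k8 a5421 a5428 a382 a446 a401 a487 a4788 a4419 (k8 a4378 a4458 a5238 a5247 i2035 a411 a5035 i1070 (k4 a5430 a5432 i1155 a5347 (k1 a437 k0)))))) (by decide +kernel)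
def a5434 : PP 8 4 T 0x2000000000000001000002000000000040000000440000000010004000000000000 := rS 0xfd41ab10b4f632fd6e3549a95c8f162834360215aacc8582ba7c62252ac460a0f (k8 a5234 a5418 a444 a5005 a5328 a5386 a5384 a5420 (k8 a362 a4454 a5431 a5002 a5095 a5047 i462 a277 (k8 a5421 a5428 a382 a4788 a4378 i886 i1456 a5433 (k4 a59 i1602 a5427 a548 (k2 a420 a5429 k0))))) (by decide +kernel)
def a5435 : PP 8 4 T 0x2000000000000000000002000100000040500000440020000000004000000000000 := rS 0x9551a683a998ca9c74c74bd156c2d5cc349eaf30bf17e7f549cd82cf1aa7526c362834ba891c8dc0453559920a9f18895420f (k8 a5234 a5269 a5328 a5386 a5384 a5418 a4454 a5431 (k8 i883 a5095 a446 a401 a5039 i609 i462 a277 (k8 a487 a4788 a4419 a4378 a4458 i1248 a5238 a5247 (k8 i127 i1455 a5429 a397 a427 a74 a1590 a4425 (k8 i1000 a4396 a116 i1902 a740 i2035 a5030 a411 (k4 a5035 i722 a967 a263 (k2 i1181 a5049 k0))))))) (by decide +kernel)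
def a5436 : PP 8 4 T 0x2000000000000000000002000000000040000000440000000010004000000000000 := rS 0x518b57295630f97cb7410a502cc52b91e21b1ba2404643e9fd822b678d526c362834b0574f8c4ab1112c15420f (k8 a5234 a5269 a5418 a5328 a444 a5005 a5386 a5384 (k8 a5420 a362 i462 a277 a487 a4788 a4378 a4458 (k8 a5002 i1248 i127 i126 a4454 a5095 a5039 a446 (k8 a5047 a5421 a5428 a382 a5434 i1975 i1968 a5435 (k8 i103 i895 a2105 a5433 i1725 i1458 i1424 a2085 (k1 a5049 k0)))))) (by decide +kernel)
def a5437 : PP 8 4 T 0x400000000000000002000001000000004080002000100004010800000000020000000054040000000000 := rS 0x1462d5ca547cbe660a50a7f88b053e3112a1e26a1 (k8 a5269 a68 a358 a5328 a5386 a5384 i1248 a444 (k8 i127 i1602 i259 a436 a548 a2105 i1725 i1458 (k2 i1424 a2085 (k1 a5049 k0)))) (by decide +kernel)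
def a5438 : PP 8 4 T 0x400000000000000002000001000000004000002000101004000800000020020000010014000000000000 := rS 0x2e1948c6474c7549cd3e2b61b141b05448e46e1b010c44a0f (k8 a5234 a5328 a5386 a5095 a5047 a446 a401 a5039 (k8 a5418 i462 a277 a487 a5002 a5384 a5238 a5247 (k4 a5437 i2035 a411 a5432 (k2 a5347 i1155 (k1 a437 k0))))) (by decide +kernel)
def a5439 : PP 8 4 T 0x2000000000000000000002000000000040800000060000000010004000000000000 := rS 0xc772a91e202678d53a9361b141b4f352f50e582ba7c62252ac460a0f (k8 a5234 a5418 a444 a5005 a5328 a5386 a5384 a5420 (k8 a362 a358 i1416 a5436 a394 i462 a277 a487 (k8 a4788 a4419 a4378 a4458 a5095 a5421 a5438 a382 (k2 i415 a379 k0)))) (by decide +kernel)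
def a5440 : PP 8 4 T 0x2000000000000000000002000000000040800000040000000010004000000000000 := rS 0x4ab2df8be662155a5d27930926555c4ca74325a1cb0574f8c44a5588c169e6a (k8 a5436 a394 a5418 a444 a5005 a5328 a5386 a5384 (k8 a5420 a362 a358 a5419 a84 a334 a68 i581 (k8 a5439 i869 a440 a5359 a5085 i1287 i1868 a436 (k4 a548 a5424 a396 i1725 (k1 a5143 k0))))) (by decide +kernel)
def a5441 : PP 8 4 T 0x2100000000000002000002004000000000400000800100040000000000000000000 := rS 0xbb5b2bdf853a1ab50285 (k8 i1868 i1402 i1287 a84 i883 a5424 a427 a4396 (k2 i1946 i887 k0)) (by decide +kernel)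
def a5442 : PP 8 4 T 0x12000000000000000000000000000000000000004000000000000000200010000000 := rS 0x7da6a1 (k4 a5269 a329 i1303 a377 k0) (by decide +kernel)
def a5443 : PP 8 4 T 0x8002100000000000000001000009000004000040004010020040000010000000001000 := rS 0x4a8b5c90d5187512472901dfa0f (k8 a5234 a97 i2269 i581 a5422 a5040 a4343 a1824 (k4 a383 a425 a5442 a5111 (k1 a5134 k0))) (by decide +kernel)
def a5444 : PP 8 4 T 0x2000000000000000000002000000000040000000050000000010004000000000000 := rS 0x72371db1c20a61f819a6a504ae994995ed15faae892dd9a5355a050a6f2eae49e4c8b124fea939b04424b678d53a9343b0d8a0d2c15d3e312ac444b05a79a9060f (k8 a5234 a5440 a5436 a394 a5418 a5328 a444 a5005 (k8 a5386 a5384 a5420 a362 i462 a277 a487 a358 (k8 a4788 a4419 a4378 a4458 a5419 a5385 i1248 a5238 (k8 a5247 i127 i869 a4379 a440 a5359 a465 a5085 (k8 i1399 i1868 i1402 a5443 i883 a5441 i886 a436 (k8 a4396 a4532 a381 i1987 a5041 a4554 a1579 a4401 (k8 a2241 a5127 a1807 a458 i460 i459 i1680 a5030 (k2 i1916 i1873 (k1 i2035 k0))))))))) (by decide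 +kernel)
def a5445 : PP 8 4 T 0x400000000000000002001001000000004000002004001004010400000000020040010154000004000000 := rS 0x45e32a31d3498ee4038b55c182e85cde09264319511608853e3161b141a2582a056e534aaa4e60f (k8 a5234 a5238 a5247 a4787 i883 a4402 a4475 a5418 (k8 a5328 i462 a277 a487 a5386 a5384 a5385 i1248 (k8 a444 a4554 a4371 a5017 a4401 a357 a4369 a5085 (k8 a437 a4396 i1039 a5012 a4761 a3104 a1807 i2035 (k4 a99 a411 a5134 a463 k0))))) (by decide +kernel)
def a5446 : PP 8 4 T 0x2001001000000004000002000001004000400000820020000010014000000000000 := rS 0x3f698b54ea55c82038075632c9c954ca5d5273609569eab448e46e1b010c44a0f (k8 a5234 a5328 a5386 a5095 a5047 a446 a401 a5039 (k8 a5431 a394 a5005 i1248 a5238 a5247 a5110 a5041 (k8 a4787 a5445 i1390 i871 i1222 a5051 a5059 i1027 (k4 i1286 a1825 i1001 a341 (k2 i1421 a4967 k0))))) (by decide +kernel)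
def a5447 : PP 8 4 T 0x2002000000000000000000000041000400040000000001000000000000000000000000 := rS 0x13297 (k2 a24 a57 (k1 a5022 k0)) (by decide +kernel)
def a5448 : PP 8 4 T 0x2000000000000000000002000000000040000000040000000010004000000000000 := rS 0x42a00ba4c24a3d28a36945536b75d8b572a55798412fc29bc512ab011917e83a79a98a0d2c15d269d1ab3cfb433faa4e6c1259560a9f18896220f (k8 a5234 a444 a5328 a5386 a5384 a5418 a5005 a5419 (k8 i1248 a5238 a5247 i127 a84 i126 a4458 a4378 (k8 a4419 a4788 a5420 a362 i462 a277 a5436 a394 (k8 a5440 i1455 a5444 a5095 a5431 a5039 a5421 i883 (k8 a5446 a369 a397 a427 a2241 a4425 i1000 i1946 (k8 i887 a5364 a5447 a5011 a99 a5049 i1102 i868 (k4 a440 a5085 a5015 i1868 (k1 a535 k0)))))))) (by decide +kernel)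
def a5449 : PP 8 4 T 0x4002000000001000000000002000000000000000000000000000010004000000000000 := rS 0x4706044341092cab054f8c44b11 (k8 a444 a5328 a5386 a5384 a5418 a5005 a5419 a5385 (k4 a429 a107 i246 i247 (k1 a3008 k0))) (by decide +kernel)
def a5450 : PP 8 4 T 0x2000000000000000000002000000000000000000080000000010004000000000000 := rS 0x4705c98582b8d5c8028bc460a55 (k8 a5005 a5418 a444 a350 a5056 a5449 a364 a5184 (k4 a362 i543 a4369 i544 (k1 a566 k0))) (by decide +kernel)
def a5451 : PP 8 4 T 0x2000000000000000000002000000000800000000000000000010004000000000000 := rS 0x9eaf7e20d7281483c43ecb2eadc4c53638e98aa52c0e556162453986e4320092a190d9362e73259553e3112c459e354ea4e0b191ba28ce0f (k8 a5234 a5450 a5448 a4382 a52 a5418 a4788 a4419 (k8 a4378 a4458 a444 a5328 a5386 a5384 a5005 a5419 (k8 a5238 a123 i875 i873 i1130 i1102 a5140 a4379 (k8 a5449 a3115 a463 a440 a437 i1659 a401 i1025 (k8 a382 a40 a262 a59 i2599 i1156 a5399 a172 (k8 a5017 i1395 a333 i1155 i1770 i1027 a5432 a5336 (k2 a427 a74 (k1 a4396 k0)))))))) (by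 decide +kernel)
def a5452 : PP 8 4 T 0x4002000000000000000000002000000000000000000000000000010004000000000000 := rS 0x2b8a6fc4093d56832ea14f2f12c06098915b8e8ae1b1c85c92cd35b1d8aa506808e94e61b90c8a9398ac969f1889622cf3b9546a9d49c1632374519d1e0f (k8 a5234 a5451 a5450 a5448 a4382 a52 a5418 a4788 (k8 a4419 a4378 a5005 a4942 a4458 a444 a5328 a5386 (k8 a5384 a5419 a5002 a5238 a5247 a4379 a5449 a3115 (k8 a463 a466 a5095 i1491 a382 a40 a59 a394 (k8 a36 a5261 i970 a401 a5047 a5083 i2035 i886 (k8 a5259 a440 a437 a362 a333 i1070 a545 a5085 (k8 a5347 a5431 a5359 i1402 a5429 i883 a4396 a427 k0))))))) (by decide +kernel)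
def a5453 : PP 8 4 T 0x8002002000002000000001000000400100010540044000100040000000110000000000 := rS 0x114519c43ab686abca6a1 (k8 a5269 a452 a427 a1590 a4396 a4362 i802 a263 (k2 a389 a2519 k0)) (by decide +kernel)
def a5454 : PP 8 4 T 0x2001000000000000000000040000000000500000000100440000000000000000000 := rS 0xb7 (k2 a4402 a4396 k0) (by decide +kernel)
def a5455 : PP 8 4 T 0x8002100000000000000001002008000004000000000000020040000010000000001000 := rS 0xca7f549ccdeb9 (k4 a465 i1399 a5238 a5247 (k2 i127 a5431 (k1 a5443 k0))) (by decide +kernel)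
def a5456 : PP 8 4 T 0x2000000002000000000002000000000000000000000000000010004000000000008 := rS 0x35b2a9cfd16a0c52f153860741b1ca24fea9398ad9e374c9bd72c56185d02853c974984b4f8c53b1945244a6ab279251e582b956220d8b24c6a6782b044a0f (k8 a5234 a5328 i1248 a5418 a5450 a4378 a4788 a5452 (k8 a392 a444 a5005 a5083 a362 a5451 i868 a5359 (k8 a5455 i883 a5259 a5448 a52 a4419 a5386 a5384 (k8 a5419 a440 a5085 i1853 a545 i1402 a4369 a468 (k8 a40 a465 i1399 a5065 a4382 a4458 a5002 a5238 (k8 a5247 i127 a5039 a401 a5047 a262 a437 a5030 (k8 a333 i255 a5347 i1039 a5453 a5445 a4554 a394 (k1 a1899 k0)))))))) (by decide +kernel)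
def a5457 : PP 8 4 T 0x2000000002000000000002000000000000000000000000000010004000000000000 := rS 0x1f8b766449e2296988d8e2708068760329aad0a792e85d5a4c4893c92872c07caec362a941b4360884564b2aa7c6225888d53a9382c646e8a33a3e2c0f (k8 a5234 a5452 a5451 a5450 a5448 a4382 a52 a5418 (k8 a4788 a4419 a4378 a444 a5328 a5386 a5384 a5005 (k8 a5419 a5002 a5385 i1248 a84 a392 a382 a40 (k8 a468 a5083 i1395 a362 a358 i868 a5359 a5259 (k8 a440 i1287 a4369 a5085 i1853 a545 a5455 i883 (k8 a5456 a5034 a5074 a5063 a1276 a1190 i272 a5147 (k4 i275 a441 a127 i2032 (k2 a5279 a5424 (k1 a4532 k0))))))))) (by decide +kernel)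
def a5458 : PP 8 4 T 0x2000000000000000000002000000000000000000000020000010004000000000000 := rS 0x3f224b7a7b35066a788e90a2d1ca24f218011742eab262458a4f248358687549cd822b678d53a938c8dd148f37ae62c1b11394424b2aa7c622588c14ce0f (k8 a5234 a5450 a5418 a444 a5328 a5386 a5384 a5005 (k8 a5419 a5385 a5457 a107 a4515 a5452 a465 i1399 (k8 a5451 a5448 a4382 a52 a4788 a4419 a4378 a4458 (k8 a5002 i1248 a5238 a5247 a358 a487 i462 i868 (k8 a5359 a277 a5259 a440 a5455 a4369 a5085 a5074 (k8 a437 i1853 a5039 a401 i1039 a545 a262 a333 (k8 a5428 a5347 a5426 a394 i886 a436 a5445 a4532 k0))))))) (by decide +kernel)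
def a5459 : PP 8 4 T 0x10002001001000000000000000000000000000000000000100440004140040001000080 := rS 0x106af14a9c7481 (k4 a4475 a419 a5030 i254 (k2 i460 a2105 (k1 a5454 k0))) (by decide +kernel)
def a5460 : PP 8 4 T 0x2000000000000000000002000000000000000000000000040010004000000000000 := rS 0x5e20984111dbc18a3f03289a6a50f8f61943549cd822b678d53a931bae62c22728850e476399418195b9742d19450e404817e9209a563392cab054f8c44b114794cb20f (k8 a5234 a5458 i882 a5451 a444 a5328 a5386 a5384 (k8 a5418 a5005 a5419 a5450 a362 i529 a440 a2898 (k8 a4475 a5053 a401 a5448 a52 a5260 a172 a5399 (k8 a2997 a5083 i1491 a342 i1578 a387 a5385 a5457 (k8 a107 a5452 a465 a4382 a4788 a4419 a4378 a4458 (k8 a5002 i1248 a5238 a5247 a84 a4371 a5166 a81 (k8 i248 a5127 a393 i1648 i406 i1654 a5459 a333 (k4 a441 i2035 a5334 i329 (k1 i1416 k0))))))))) (by decide +kernel)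
def a5461 : PP 8 4 T 0x2000000000000000000002000000000000000000000000000010004000000000000 := rS 0x34d46a50e01c3e4e06158b222729568711608944305 (k8 a5418 a5385 a5328 i1248 a444 a84 a5005 a5457 (k8 a107 a5458 a362 a5083 a5460 a2995 i1222 a5051 (k4 i248 i1648 a341 a393 k0))) (by decide +kernel)
def a5462 : PP 8 4 T 0x102000000000000000000000000000000000000000000000000020000001100002000 := rS 0x46e5 (k2 a392 a5077 (k1 a107 k0)) (by decide +kernel)
def a5463 : PP 8 4 T 0x2000002001000000000002000000000000000000000000080000004000000000000 := rS 0x8a019ac702b08b1c6e3f1da7c621f62b0d02b71ab3d3a67230740e0d329d554cb2a9660afd2b08a222112901420f (k8 a5234 a5269 a5461 a5328 a5385 a444 a107 i185 (k8 a74 a5418 i866 a2999 i1390 a1244 a3079 i1579 (k8 a5462 i457 i742 a425 i1617 a4419 a4458 i2055 (k8 a125 a124 a276 a277 a4367 a5386 a5384 a333 (k8 a6 a376 a27 a441 a126 i2035 a1187 a401 (k2 a4454 a5063 k0)))))) (by decide +kernel)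
def a5464 : PP 8 4 T 0x2100001000000000000004000404000010100000050008010021000040010000000 := rS 0x48a0b0e4d64b1f17507120f8a44ea1 (k8 a5269 a331 a443 a4367 a5345 a1898 a5 i2031 (k4 a4472 i507 i296 a4066 (k2 a4454 a5033 (k1 a5019 k0)))) (by decide +kernel)
def a5465 : PP 8 4 T 0x2100000000000000000000000000000000000000040008010000000080004400000 := rS 0x1e43049 (k4 a5260 a437 a4432 i388 k0) (by decide +kernel)
def a5466 : PP 8 4 T 0x2000000001000000000002000000000000000000000000080000004000000000000 := rS 0x1645336262a788f4ca1d53820ea0747aa99e4d8b32cce872b06cee352a918449f18c14525906900422588a056e897eaa4e60f (k8 a5234 a5238 a5247 a74 a5040 a125 a124 a444 (k8 a5328 a5385 a5461 a5462 i866 a443 a5418 a5386 (k8 a5384 a107 a425 a2999 i2055 i1625 i272 i185 (k8 i1704 i1617 i1390 a429 i787 a4458 a1244 a123 (k8 i457 a3079 i1656 a1825 i742 i1579 a122 a5463 (k4 a5464 a378 i888 a4445 (k2 a5465 a175 k0))))))) (by decide +kernel)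
def a5467 : PP 8 4 T 0x2100000000000000000000000004000004000000450001010020000080000000000 := rS 0x2585cf319451dd9f13 (k8 a378 a4458 a4942 a4454 a4448 a4473 a175 a4470 (k1 a4066 k0)) (by decide +kernel)
def a5468 : PP 8 4 T 0x2000000000000000000002000000000000000000080008080000004000000000000 := rS 0xee4a0b80932a9398740e0d10c44de4d3aaa99659204144afd (k8 a74 a5328 a5418 a5461 i866 a4399 a1244 a3079 (k8 i530 i1400 a444 a5385 a5462 i457 i742 a5238 (k4 a5247 a5041 a5056 a5019 (k2 a4066 a5188 (k1 i490 k0))))) (by decide +kernel)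
def a5469 : PP 8 4 T 0x2100000000000000000000000004000000000000050008010020000081000000000 := rS 0x353350e55 (k4 i53 a387 i888 a5467 (k1 i508 k0)) (by decide +kernel)
def a5470 : PP 8 4 T 0x2000000000000000000002000000000000000000000008080000004000000000000 := rS 0x4500cd63808b1c6e3f1dbc0563d0434d73164eb3cce4d328754e7503aa9969f1887d8ac306886230540add12937eaa4e6ad2c9004a3552b91420f (k8 a5234 a5269 a5466 a382 a364 a5328 a5461 i866 (k8 i1288 a5238 a5247 a74 a5112 a5040 a125 a124 (k8 a5418 a444 a5385 a5462 a276 a277 a4367 a5386 (k8 a5384 a4399 a1244 i457 a3079 a1825 i742 i1579 (k8 i530 a5468 a4458 a4419 a4379 a465 a5127 a1807 (k8 a122 a5469 a5464 a333 a6 a376 a27 a441 (k4 i2035 a1187 a401 a4454 (k1 a5063 k0)))))))) (by decide +kernel)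
def a5471 : PP 8 4 T 0x10002000002000000000000002000000000080000000000000080000004000000000000 := rS 0x870111da7c62c56183443111ab913acf6515cb24012c146e0f (k8 a5234 a4382 a5418 a5328 a5461 i866 a5470 a1076 (k8 a5240 a5239 a5466 a364 a444 a5385 a5462 a276 (k8 a277 a5386 a5384 a333 a441 a262 a5063 a401 k0))) (by decide +kernel)
def a5472 : PP 8 4 T 0x2000000000000000000002000000000000000000410000080000004040000000000 := rS 0x964948a1e24f18ca293ec30688446cd47a149a752a444361c0334d7267188d526ad04a95c8718a18594572c9004b057eaa4e60f (k8 a5234 a5238 a5247 a74 a5418 a5328 a5461 i866 (k8 a5470 a1076 i1392 a5043 a117 a5466 a382 i1387 (k8 i1288 a5112 a364 a5386 a5071 a4425 a5127 a1807 (k8 i1221 i781 a444 a362 i1539 i2550 a1949 a4353 (k8 a2010 i185 a5385 a5462 a276 a5384 a4454 a4448 (k4 a5471 a5345 a69 a113 (k2 a4453 a4147 (k1 a440 k0)))))))) (by decide +kernel)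
def a5473 : PP 8 4 T 0x802000000000000000000002000000000000000000010000080000004000000000000 := rS 0x116af1b928727a24b192287a1a7d8ac30688446cd47a153acf4aaacfe773a86ce3143c871320669ae4ce311aa4d5a0952b912efd1489d5273309bd944d2a15cb24012c460a0f (k8 a5234 a5418 a444 a5328 a5461 i866 a5470 a362 (k8 i2550 a1076 i2885 i1392 a5238 a5247 a331 a443 (k8 a74 a5110 a5466 a382 i1387 i1288 a5112 a364 (k8 a5386 a5071 a4425 a5127 a1807 a5041 i1221 a5197 (k8 a5043 a117 i781 i1539 a4251 i127 i1657 a4787 (k8 a5240 a5239 a1949 a4353 a2010 i185 a5385 a5462 (k8 a276 a277 a5384 a84 a69 a113 a4637 a4453 (k4 i2046 i299 a440 i1775 (k2 a5012 a4147 (k1 a5172 k0)))))))))) (by decide +kernel)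
def a5474 : PP 8 4 T 0x2000000000000000000002000000000000000000010000080000004040000000000 := rS 0xd36385d8458e371da19e113a79a80cd35c986867f4f8c58ac30688622974ca4dfaa939ab46a2342afd9a674eb3c12ca2b964802582a95c80f (k8 a5234 a5466 a382 a5418 a5328 a5461 i866 a5470 (k8 a1076 i1387 a5240 a5239 a5071 a2010 i1456 a1949 (k8 i185 a364 i1288 a5238 a5247 a74 a5112 a5041 (k8 a5110 a444 a5385 a5462 a276 a277 a5386 a5384 (k8 i127 a84 i1392 a4425 a5127 a1807 a5472 a394 (k8 a5473 a5345 a2701 a333 a376 a27 a441 i1683 (k4 i2035 a5364 a401 a5204 k0))))))) (by decide +kernel)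
def a5475 : PP 8 4 T 0x2000000000000000000002000000000000000000000000080000004040000000000 := rS 0x4d2ed5e3fa781916c669a1d44b93a184304a0d85c6e390119286c14f8c4522762b0c1a214ba253293568d4468526afd9a9d678254ae437b292aab2a15cb24012c460a7f7eaa4e60f (k8 a5234 a5238 a5247 a74 i127 a5418 a444 a5328 (k8 a5461 i866 a5470 a362 i1657 a4787 a1076 i2885 (k8 a5466 a382 i1387 a5240 a5239 a2010 i1456 i2550 (k8 a1949 i185 a364 i1288 a5112 a5041 a5040 a5110 (k8 a5385 a5462 a276 a277 a331 a443 a5386 a5384 (k8 i1248 a84 a5474 a5095 a401 a446 a5019 i189 (k8 a4066 a437 i1047 i1049 i2730 a5149 i1707 a99 (k8 i2032 a4147 a1807 a59 a458 a5012 i1680 a5022 (k1 a5364 k0))))))))) (by decide +kernel)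
def a5476 : PP 8 4 T 0x102001000000000001800000001004000001000004020000010020001080000000000 := rS 0x6b5753936878a22cf074309ec304a0d85c0513 (k8 a378 a5095 a5019 i189 a4066 a437 i811 i1047 (k8 i1049 i388 i492 a5043 i1707 i1073 a436 a5447 (k2 a394 i625 k0))) (by decide +kernel)
def a5477 : PP 8 4 T 0x2000000000000000000002000000000000000000000000080000004000000000000 := rS 0x2e19451e436af0e018e2d38a2e4c26553c4c549537824ce4d55a1594cd2a15d4a357224d32977ed0cff11549cd3e31828a44ead2c9004aa1 (k8 a5269 a5328 a5461 i866 i1288 a331 a443 a5418 (k8 a5386 a5384 a5238 a5247 a444 i127 a84 a74 (k8 a5110 a5041 a5112 a5466 a364 a382 a5470 a362 (k8 a2010 a1076 a1949 i1657 i2550 a5071 i1387 i2885 (k8 a4787 a5475 a378 i332 a5476 i1392 a4425 a5043 (k8 a5127 a117 a1807 i1221 i460 i781 a5197 a5172 (k2 i388 a175 (k1 a437 k0)))))))) (by decide +kernel)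
def a5478 : PP 8 4 T 0x2001000000000000000002000000000000000000011000000000004080000000000 := rS 0x160112ccc77269c4eb14552a4e69f18b2cac4f2c9004b05 (k8 a5418 a5328 a5461 i866 a5477 a1692 a4399 a5386 (k8 a5384 a5238 a5247 a1244 a5043 a3079 a117 i530 (k4 i807 a5469 i490 a5056 (k2 a4066 a5019 k0)))) (by decide +kernel)
def a5479 : PP 8 4 T 0x2100000000000000000000000004000000000000450009000020000080000000000 := rS 0x9a87 (k2 a387 i529 (k1 a5467 k0)) (by decide +kernel)
def a5480 : PP 8 4 T 0x2000000000000000000002000000000001000000010000010000004080000000000 := rS 0x4ec65f8781d184304a0d85c046f86295c8cb23998d6554f8c5821f068855a7f298759f4e88b350e5627964802582c4d420f (k8 a5234 a5269 a378 a5418 a5328 a5461 i866 a5477 (k8 a1692 a387 i888 a444 a436 a3 i741 a5254 (k8 i127 i1288 a5385 a5462 a4367 i1248 a5386 a5384 (k8 i767 i508 a5479 i1617 a4399 a425 a382 a4359 (k8 a357 a5056 a5019 i189 a4066 a437 i1047 i387 (k4 i388 a5478 a411 i1857 (k1 a3085 k0))))))) (by decide +kernel)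
def a5481 : PP 8 4 T 0x2000000000000000000002000000000001000000010000000000004080000000000 := rS 0x154fd419e874712ea7526770d1d11e4b2631d9f4ea1b15868778c4e2e951c8dc043586295c8cb23998d6cd2b1560a9f18b043e0d10c455a59129fca61d27901420f (k8 a5234 a5269 a5461 a5477 i741 a5254 i127 a5328 (k8 i866 i1288 a444 a5385 a5462 a4367 i1248 a5386 (k8 a5384 a5418 i767 a1692 i888 i508 a5479 i1617 (k8 a4399 a425 a382 a4359 a364 a5056 a446 a401 (k8 a5073 a350 a378 a126 a387 a276 a277 a84 (k8 a436 a3 a59 a5480 i73 i874 i530 i787 (k8 i1628 i1369 i1591 a761 a739 i2035 i395 i815 (k2 a1590 a1244 (k1 a3079 k0))))))))) (by decide +kernel)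
def a5482 : PP 8 4 T 0x4422100001000000000000002000000010000000000410008020420000001000000008 := rS 0x154fd419e874718c97526770c868e88f25d0c6259658e46e17 (k8 a5019 a446 a401 a4399 i866 a5386 a84 i73 (k8 i874 i530 i787 i181 i1628 i1369 a761 a4572 (k4 a739 a419 i395 i815 (k2 a1590 a1244 (k1 a3079 k0))))) (by decide +kernel)
def a5483 : PP 8 4 T 0x2000000000000000000002000000000000000000010000000000004080000000000 := rS 0x2b932fc3c0e916610c1ec941b3a935086f862942ee40111d2b17331ad9b13789fd527360a7c621f29ab41a21889543acb2b13cb24012c141ea1 (k8 a5269 a5234 a5418 a5328 a5461 i866 a5477 a1692 (k8 a4399 i741 i767 a444 a5385 a5462 i1288 a5254 (k8 a4367 a5386 a5384 i1248 a5238 a5247 i127 a126 (k8 a378 i888 i508 a5479 a350 a5073 i1617 a5056 (k8 a425 a5019 a382 a4359 a357 a5481 a5482 i1588 (k8 i189 a4066 i1896 a437 i1047 i492 i387 i388 (k4 a5478 a5035 a5167 a427 k0))))))) (by decide +kernel)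
def a5484 : PP 8 4 T 0x2002102000000000000400002010000000400000000010000010000000000000000000 := rS 0x743345ce295549ccc2ab (k8 a97 a397 a5238 a5247 a14 a117 a5136 a5143 (k2 a201 i1588 k0)) (by decide +kernel)
def a5485 : PP 8 4 T 0x1002002000000000000000002000000004000000000080000000000014000000000000 := rS 0x16b4d12e40111d2b17a1b2cac4f2c98556a504c141a4010896220f (k8 a5234 a444 a5328 a5385 a5461 a5462 a5418 a369 (k8 a2241 a97 a397 i866 a5477 a1692 a4399 a84 (k8 a350 a5073 i1617 a5056 a722 a3633 a4206 i1000 (k1 a5011 k0)))) (by decide +kernel)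
def a5486 : PP 8 4 T 0x2002000000000000000002000000000000000000010000018000004000000000000 := rS 0x1d3c005138c971729d6799e2a931aa3c92174f8c44ead62b0c1a2188a1d9656279648025828acc20f (k8 a5234 a397 a5483 a5418 a5328 a5461 i866 a5477 (k8 a1692 a4399 a387 a444 a5385 a5462 a276 a277 (k8 i1288 a331 a5386 a5384 a2996 i50 a4381 a4154 (k8 i1369 a5484 a5485 a4458 a4419 a4425 a4472 a5120 (k4 a5 a4477 a5345 a3010 (k1 a333 k0)))))) (by decide +kernel)
def a5487 : PP 8 4 T 0x2002000000000000000002000000000000000000010000010000004000000000000 := rS 0x8e019202c4b829648025 (k8 a5328 a5461 i866 a5418 a5486 a4066 a440 a5019 (k2 a2898 a5205 k0)) (by decide +kernel)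
def a5488 : PP 8 4 T 0x2100002000000000004004008004000000100000050008000000000040050000004 := rS 0x8b358447ea1 (k4 a5269 a6 a441 a1187 (k2 a5063 a4454 k0)) (by decide +kernel)
def a5489 : PP 8 4 T 0x2000000000000000000002000000000000000000010000010000004000000000004 := rS 0x7c3c41bc4ce9f1887c52c30e8ad12a939a056e535381d54cb2b13cb30506900422588bf5420f (k8 a5234 a5269 a5487 a444 a5328 a5385 a5461 a5462 (k8 a5418 i866 a5477 a1692 a4399 a1244 i457 a1825 (k8 a5254 a4402 a4475 a5238 a5247 a5040 a5483 i741 (k8 a276 a443 a4367 a5386 a5384 a5056 a5488 a1898 (k2 a5464 a3061 (k1 i20 k0)))))) (by decide +kernel)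
def a5490 : PP 8 4 T 0x2000000000000000000002000000000000000000010000010000004000000000000 := rS 0xcf33c58ee35479c494490d85c6e39011d554fd549cd3e311489d8ac30688622cb2b13cb24012c14560f (k8 a5234 a5483 a5418 a5328 a5461 i866 a5477 a1692 (k8 a4399 a444 a5385 a5462 a276 a277 a331 a443 (k8 a5386 a5384 a5238 a5247 a5487 a1244 a3079 a5489 (k8 a401 a446 a5019 i189 a5260 a4066 a4496 a4381 (k4 a4154 i807 a201 i490 (k2 a368 a4471 k0)))))) (by decide +kernel)
def a5491 : PP 8 4 T 0x2000000000000000000002000000000000000000010000000000004000000000000 := rS 0xaa7ec4a18f15291c347435998982b3fb043e5356b15860d10c443acb2b13cb24012c141ea1 (k8 a5269 a5234 a5418 a5328 a5461 i866 a5477 a1692 (k8 a4399 i741 a444 a5385 a5462 a276 a277 i1288 (k8 a5254 a4367 i1248 i127 a5483 a5490 i529 i2353 (k8 i530 i787 i1617 a1609 a198 a4359 a5345 a2220 (k2 a1244 a3079 k0))))) (by decide +kernel)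
def a5492 : PP 8 4 T 0x2000000000000000000002000000000000000000000000000000004000000000000 := rS 0x2c4d0112cce642b1549e59204146225 (k8 a5328 a5386 a5418 a5461 i866 a5477 i767 a1692 (k4 a5491 i75 i1050 a5095 (k2 i529 a4066 (k1 a5019 k0)))) (by decide +kernel)
def a5493 : PP 8 4 T 0x2000000000000000000000000000000000000000020008000000000000000000000 := rS 0x9074 (k2 i1579 i1580 (k1 a5261 k0)) (by decide +kernel)
def a5494 : PP 8 4 T 0x22000000000000000000000040000100008000600001000008000000000000000000 := rS 0x459e0f6a9 (k4 a5245 i817 i1708 i492 (k1 a5167 k0)) (by decide +kernel)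
def a5495 : PP 8 4 T 0x2001000000000000000000000000000000000200020000050020004000000000000 := rS 0x9f155390f1357819a6a2049bd2aca862dd029967a746a7766a1552b962b0d5a53448e46e2d010c42eab3092a861d1187d4ac110834fa252a444b25782ad41ea1 (k8 a5269 a5234 a5492 a63 a5493 a506 a453 a362 (k8 i764 a4357 i2927 i744 a4781 a164 a4367 i185 (k8 i741 a3610 a1851 i1048 i1658 a5224 a1332 a5095 (k8 i2723 a446 a401 a5039 a5254 a4528 a276 a277 (k8 i1066 a5245 a1949 a2010 i1548 i1023 a407 a454 (k8 a5041 a4475 a4402 a4371 a439 a4787 a357 a4401 (k8 a5156 a99 a1807 a5012 a4535 a5494 a436 a2701 (k2 a26 a5476 k0)))))))) (by decide +kernel)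
def a5496 : PP 8 4 T 0x2000000000000000001000040000000000000600021010000000005080004000000 := rS 0x9b4ba50e27e86a6516781d1ed6a67549f4a911448605a022515e0a0f (k8 a5234 a63 a5493 a1851 a5095 i2723 i1045 a5039 (k8 a453 a362 a4357 a5245 i75 a5492 i811 i387 (k8 i388 i492 a5035 a5167 a5129 i799 i1667 i1856 (k2 i2749 a5022 k0)))) (by decide +kernel)
def a5497 : PP 8 4 T 0x12002000000000000000000000000000000000600021010000020004040010000000 := rS 0x4c2fcf25d43a0e246e38bc5463d3f348ce2913b350a7354ae58ac3448605a021885c95431187d4ac110834fa252a444af055aabc1ea1 (k8 a5269 a5234 a427 a5492 a63 a5493 a453 a362 (k8 i764 a4357 i2927 i744 a4781 a164 a4367 i185 (k8 a3610 a1851 a5224 a1332 a5095 i2723 i1045 a5039 (k8 a276 a277 i1066 a5245 a5236 a1949 a2010 a331 (k8 a443 i75 a377 a5129 a335 a99 a3219 i799 (k8 i1668 a5345 a1898 a69 a5 a398 i1723 a4135 (k1 a3697 k0))))))) (by decide +kernel)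
def a5498 : PP 8 4 T 0x2000000000000000000000000000000000000200020000050020004000000000000 := rS 0x8a261a6865144cff0c15abdf8610e9dc3e2366a1586a55ab04fa890d8b40431108344a540bc44945782965420f (k8 a5234 a5269 a506 a63 a5493 a1851 a453 a5224 (k8 a362 i764 i2927 i744 a1332 a5095 i2723 i189 (k8 a5039 a4357 a4781 a5492 a164 a276 a1949 a2010 (k8 i185 a4367 i1548 i741 i1048 a5495 a427 a5496 (k8 a5497 a35 a2220 i2030 a2701 a99 a5494 a5011 (k1 a57 k0)))))) (by decide +kernel)
def a5499 : PP 8 4 T 0x2001000000000000401000015100000000000000020000000000005100000000000 := rS 0x4ad0a0a931aa24040f (k8 a5234 a5095 a5039 i1023 a5037 a63 a439 a4787 (k1 a5132 k0)) (by decide +kernel)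
def a5500 : PP 8 4 T 0x2000000000000000000000000000000000000200020000010020004000000000000 := rS 0x3025154cb7e9385aad013054a31108344a7d2a1282ea988ad60a5729965420f (k8 a5234 a5269 a506 a5254 a5493 a63 a5492 a453 (k8 a5245 a5224 a1851 a362 a4357 i764 i2927 i744 (k8 a1332 a164 a4781 a5095 a4528 i2723 a5498 a74 (k4 i1389 a5499 i1659 i1660 (k1 i2727 k0))))) (by decide +kernel)
def a5501 : PP 8 4 T 0x202001000000000000000011004000004400010514000000480800000000140000000 := rS 0xe6a969a94fecb (k4 i1389 i760 i209 a4042 (k2 a5248 a4439 (k1 a5139 k0))) (by decide +kernel)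
def a5502 : PP 8 4 T 0x202001000000000000000011004000004400010514000000400800000000140000000 := rS 0xfe9539c31524f (k4 a5501 a5246 a4371 a4439 (k2 a4787 a35 (k1 i2044 k0))) (by decide +kernel)
def a5503 : PP 8 4 T 0x2000000000000000000000000000000000000000020000010020004000000000000 := rS 0x11055885ca7d5c91860fd019c4de2524058967511a3ca61f5aa4cae77 (k8 i1548 a5493 a5037 a5492 a4367 a5254 a5219 i185 (k8 a5500 i1049 a4066 a440 i860 i969 i2491 a5019 (k8 a2898 a5095 a5093 a5097 a4358 a459 a5001 i2988 (k2 a107 a5502 k0)))) (by decide +kernel)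
def a5504 : PP 8 4 T 0x2000000000000000000004040000140000505054000000440000000000000800008 := rS 0x8c240b913 (k4 a4535 a4396 a3879 a172 (k1 a114 k0)) (by decide +kernel)
def a5505 : PP 8 4 T 0x2000000000000000000000004000000000000100020000410000004000100000000 := rS 0x63a7c4e875ed15043b898b15e3f030f54ac527b91861f5fb041a313032a2f43862e12a9367a74ee2b128d4e27b3c9bc2c391b8092e99549f6207340adcfe5520bf4904b47964af0533ad41ea1 (k8 a5269 a5234 a5492 i75 a63 a5493 a4802 i1025 (k8 i1049 a440 a2898 a5503 a5004 a4430 a4402 a4475 (k8 a5138 a362 a73 a5243 a5041 a5110 a5053 a446 (k8 a401 a5260 a4392 a353 a418 a5038 i1023 a5009 (k8 a5002 i1548 a407 a454 a5037 a4787 a5139 a4444 (k8 a351 a465 i1027 i1026 a5221 a5222 i1250 i1458 (k8 a81 a3115 a429 i1389 a277 a382 a5166 a3286 (k8 a458 a5012 i1223 a4535 i1158 a5504 a48 i1415 (k4 a3949 i736 a856 a275 (k1 a4618 k0)))))))))) (by decide +kernel)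
def a5506 : PP 8 4 T 0x402100000000000000000000000000000404000000440015002000000000000000008 := rS 0x118481719a16 (k4 a5260 a2010 a4976 a4349 (k2 a172 a114 k0)) (by decide +kernel)
def a5507 : PP 8 4 T 0x2000000000000000000001048000140000000040020001442000000000000000008 := rS 0x5dd3d0c82899ace27b3c9bc2c815b9fdfa8f2c95e0a67 (k8 i75 a63 a5493 a4802 i1025 a2898 a4430 a4402 (k8 a4475 a5260 a4392 a353 a418 a5038 i585 a4535 (k4 a5504 a5506 a20 i1683 (k1 a899 k0)))) (by decide +kernel)
def a5508 : PP 8 4 T 0x1000000000001002000000000000000000015008000140008145054000000000000000000000000000 := rS 0x241069b5dd3d7f43 (k8 a106 a367 a20 i1683 a5364 a899 i2045 a1886 k0) (by decide +kernel)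
def a5509 : PP 8 4 T 0x2100000000000000400000000000820004000000000015000000000000000800008 := rS 0x6b2eaea32cd (k4 a2010 a41 i1182 a172 (k2 i1947 a4976 k0)) (by decide +kernel)
def a5510 : PP 8 4 T 0x2000000000000000000000000000000000000100020000410000004000100000000 := rS 0x918c26d0f455713c3ad216c55729465aa8feb7409cd9a713d9e4de16448092e997e920968f2c95e0a675aaa4aa41 (k8 a5503 a5004 a5243 a5492 i75 a63 a5493 a4802 (k8 i1025 i1049 a440 a2898 a5041 a5110 a5053 a5039 (k8 a5260 a4392 a353 a418 a5038 a2010 a5138 a4475 (k8 a4402 a4430 a5505 i123 i1659 i1027 a14 i2674 (k8 a5011 a341 a5051 a5507 a381 a5508 a5509 a422 (k2 a1895 a2737 k0)))))) (by decide +kernel)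
def a5511 : PP 8 4 T 0x1000000000000002100000000000001000400000000540400100100040000802000000000000000000 := rS 0x246308786a0e2a72 (k8 i828 a103 a334 a383 a982 a422 a1886 a2737 k0) (by decide +kernel)
def a5512 : PP 8 4 T 0x2100000000000000000000001000420410100100040015802000140000100000000 := rS 0x13218746b1fabe88bf553342c974cbf54e3d690b61a1d37c54e45d (k8 i571 i828 a103 a4392 a1820 a383 a5442 a5011 (k8 a335 a5258 a2898 a5041 a5110 a5260 a2010 a4787 (k8 i1726 a5511 a381 a80 i585 a5023 a4976 i1156 (k1 i737 k0)))) (by decide +kernel)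
def a5513 : PP 8 4 T 0x2000000000000002000000000000000000105000400540010550000020000000001140100100800000 := rS 0x138e90c3f5dafd9a852c99e0a57 (k8 a5493 a63 i75 a4802 a1949 a2010 a18 a29 (k4 a80 i2047 a5023 i737 (k1 i1156 k0))) (by decide +kernel)
def a5514 : PP 8 4 T 0x2000000000000000000005001000000010100100020001802000140000100000000 := rS 0x8748c6225455e9fd56954db342c974cbf51e7d8820d4ecb2c95e0a671eb485b0d0e9be2a72 (k8 i828 a103 a4392 a1820 a383 a5442 a5011 a335 (k8 i75 a63 a5493 a4802 i621 a5258 a334 a362 (k8 a73 i1025 a2898 a5041 a5110 a5260 a2010 i1180 (k8 a5512 i1659 a4533 a285 a5513 a462 a422 a1886 (k2 a69 a2737 k0))))) (by decide +kernel)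
def a5515 : PP 8 4 T 0x1002100000000000001000008000000540404000100040000002000000000000000000 := rS 0x4612345 (k4 a116 i855 a422 a2737 k0) (by decide +kernel)
def a5516 : PP 8 4 T 0x402100000000000001000000000000000005000000800000000000000055500000000 := rS 0x35841163bc18a0f (k8 a5234 i1790 a127 a275 a441 i2032 i467 a276 k0) (by decide +kernel)
def a5517 : PP 8 4 T 0x2000000000000000000000000000000000100100020000010000004000100000000 := rS 0x3958ea4188e986f11344d21194d3169e6a439fd2a2955ad8ba9366a1456251a9ec72374ba65fa8f5488e205553b2cb2578299d6ab960a8da42d86874df153914912022412c820f (k8 a5234 a5503 i1049 a440 a5053 a5039 a5510 i828 (k8 a103 a4392 a1820 a383 a5442 a5011 a99 a44 (k8 a171 a5492 i75 a63 a5493 a4802 i621 a5258 (k8 a5004 a362 a9 a5243 i1025 a2898 a5041 a5110 (k8 a446 a401 a418 i1023 a5009 a5002 a1949 a2010 (k8 a5037 i571 a5514 a1497 i1928 a4787 a4533 i856 (k8 a4976 a394 i1790 a5515 a41 i1179 a113 a5516 (k8 a76 i1954 a135 i1159 a5049 a5191 a382 a379 k0)))))))) (by decide +kernel)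
def a5518 : PP 8 4 T 0x2000000000000000000000000000000000000100020000010000004000100000000 := rS 0x74271fa6d003d694545a72538761a52159bc2c891c8dc04974cbf4904b47964af0533ad55241 (k8 a5503 a5243 a5492 i75 a63 a5493 a4802 i1025 (k8 i1049 a440 a2898 a5041 a5110 a5053 a446 a401 (k8 a5039 a5260 a4392 a5002 a5510 a383 a1820 a5258 (k8 i828 a5442 a103 a5011 a335 a5517 i1336 i1333 (k2 i1769 a5023 (k1 i1156 k0)))))) (by decide +kernel)
def a5519 : PP 8 4 T 0x2001000000000000000000000400000000200000000000012010000004000000000 := rS 0x3d16bc03a29290fd3713868acde891c8dc04974caa47616 (k8 a5260 i1156 a5243 a5041 a5110 a5053 a446 a401 (k8 a5039 a4392 a5002 a4 a45 i1336 i1333 a4475 (k4 a5020 a1820 a127 a5442 (k2 a365 a5023 k0)))) (by decide +kernel)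
def a5520 : PP 8 4 T 0x2000000000000005000000000401400401000500000000812010000004000000000 := rS 0x874fa462518a2bc47c3d694545a2939075070d159bd12391b8092e997eaa47616 (k8 a5260 i1156 a5243 a2898 a5041 a5110 a5053 a446 (k8 a401 a5039 a4392 a5002 a383 a334 a1820 i828 (k8 a5020 a5442 a103 a5011 a335 a5023 a6 a80 (k4 a4249 a127 a1886 a33 (k2 a69 a1896 k0))))) (by decide +kernel)
def a5521 : PP 8 4 T 0x2001000000000000000000000400400010105014000000400011540104000000000 := rS 0x2181e4893e301d788f856974caa4e6b7 (k8 a4402 a5138 a5243 a5041 a5110 a5002 a5023 a6 (k4 i1422 a419 a5051 a114 (k2 a5114 a4371 (k1 a81 k0)))) (by decide +kernel)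
def a5522 : PP 8 4 T 0x2000000000000000000004000000000000100000000000400012000000000000000 := rS 0x138122b (k4 a5002 a122 a5166 a5059 k0) (by decide +kernel)
def a5523 : PP 8 4 T 0x2000000000000000000000000400400000000100020000010000004004000000000 := rS 0xc53eb85e9fd050c5793d56064a8b07a7d5b9cca69367a759a853b9c4f67937a2472370125d32a91d8598e2040bf51e592bc14ceb52412c820f (k8 a5234 a5503 i1049 a440 a5492 i75 a63 a5493 (k8 a4802 i1025 a2898 a5519 a5518 i1690 a5260 i1156 (k8 a5243 a5041 a5110 a5053 a446 a401 a5039 a4392 (k8 a353 a418 a5038 i1548 a1949 a2010 a407 a454 (k8 a5037 a5520 a5138 a4402 a4358 a5522 a5521 i2674 (k8 i1001 i1659 i1222 i460 a4371 a5504 a35 i1415 (k4 a5139 i1190 a5221 a4618 k0))))))) (by decide +kernel)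
def a5524 : PP 8 4 T 0x2000000000000000000000000400000000000100020000410000004204000000000 := rS 0x18a7d70bd3fa0a18af27aac0c9549a74ee713d9e4de391b8092e99548ec2cc710204e6415b9f5fa4825a3cb30533ad4ae0f (k8 a5234 a5493 a5492 i75 a63 a4802 i1025 i1049 (k8 a440 a2898 a4358 a4402 a5503 a5138 a5519 a5518 (k8 i1690 a5260 i1156 a5243 a5041 a5110 a5053 a446 (k8 a401 a4392 a353 a418 a5038 i1548 a407 a5037 (k8 i2674 i1001 i1659 i1222 i460 a4371 a5504 a35 (k4 i1415 a5139 i1190 a5221 (k1 a4618 k0))))))) (by decide +kernel)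
def a5525 : PP 8 4 T 0x2001000000000000000011001000800000105554020000440000000000000800008 := rS 0x218aacb8aa51547f8624d1e598299d2e99a2adcfa57 (k8 a5493 a4358 a4402 a111 a5041 a5110 i75 a63 (k8 a4802 i1025 a5037 a4371 a35 a5139 i2044 a2869 (k4 i123 i1658 a5509 a5508 k0))) (by decide +kernel)
def a5526 : PP 8 4 T 0x2000000000000000000000000400000000000100020000410000004004000000000 := rS 0x1a7150e1fc9cb9169f4e6353baa4e27b3c9bc2c890139440817ea3cb2578299d6a4825905340f (k8 a5234 a5523 a5503 i1049 a440 a5492 i75 a63 (k8 a5493 a4802 i1025 a2898 a5519 a5518 a46 a5053 (k8 a5039 a5260 a4392 a353 a418 a5038 a5243 i1548 (k8 i1023 a5138 a4358 a5524 a1710 a5525 a5080 a5051 (k2 a2869 a341 (k1 a5011 k0)))))) (by decide +kernel)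
def a5527 : PP 8 4 T 0x2100000000000000000008000000000000040000000114800000000000200010000 := rS 0x186a2aa1d9a0f (k4 a5234 a2010 i856 i830 (k2 a4976 a4692 (k1 i467 k0))) (by decide +kernel)
def a5528 : PP 8 4 T 0x2000000000000000000000000400000000000100020000010000004004000000000 := rS 0xc54a0d56152867e4ab0556d25b2e62a2d51b2ce41d27c34a41178176329a1da4c6acd42aa4de167ea3cb2578299d6a891c8dc044825904400f (k8 a5234 a5518 a5503 i1049 a440 a5053 a446 a401 (k8 a5039 a5492 i75 a63 a5493 a4802 i1025 a2898 (k8 a5260 a4392 a5243 a1949 a2010 i1023 a5037 i1156 (k8 a5523 a41 a172 a419 a441 a5526 a383 i32 (k8 a1820 i828 i621 i1650 a5442 a103 a171 i1180 (k8 a5011 a4963 a44 a4787 a5527 a133 a4533 a439 (k4 i1490 i1286 i1003 a5049 k0))))))) (by decide +kernel)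
def a5529 : PP 8 4 T 0x2000000000000000401010004040000000080000020000002010004100000000000 := rS 0x18a941aac2a255263554bf51e592bc14ceb54480a860f (k8 a5234 a133 a5053 a5039 a5492 i75 a63 a5493 (k8 a4802 i1025 a2898 a5243 i1023 a5037 a4787 a4533 (k4 a439 i1490 i1286 i1003 (k1 a5049 k0)))) (by decide +kernel)
def a5530 : PP 8 4 T 0x2100000000000000000000000000000000000000000015000000000008200000000 := rS 0x439ad8e0c2eb0d9a0f (k8 a5234 a2010 i1954 a3002 a4692 a342 i468 i738 (k1 a4976 k0)) (by decide +kernel)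
def a5531 : PP 8 4 T 0x2000000000000000000000000000000000000000020002802010004000200000000 := rS 0xab3f305a4b98a8b546cb390749f0d2c95e0a675a9bd1202 (k8 a5053 a5039 a4392 a5492 i75 a63 a5493 a4802 (k8 a383 i32 a1820 i828 i621 i1650 a5442 a103 (k4 a171 a5011 a44 i830 (k2 i1658 a5529 k0)))) (by decide +kernel)
def a5532 : PP 8 4 T 0x2000000000000000000000000000000000000100020002010000004000000000000 := rS 0x4f869f9729539c59567d298c48c0d498d4eea9389bc04417e920968f2c95e0a675ab94400f (k8 a5234 a5518 a46 a5492 i75 a63 a5493 a4802 (k8 i1025 i1049 a440 a2898 a5503 a5053 a4392 a5038 (k8 a5243 i1548 i1023 a5037 i1490 a5003 i1003 a5531 (k8 a4357 i2987 a429 a5138 a4787 a465 i2044 a35 (k2 i760 a4371 k0))))) (by decide +kernel)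
def a5533 : PP 8 4 T 0x2000000000000000000000000000000000000100020000010000004000000000000 := rS 0x146aa3f9cc0c53532e4fa2706440aa207e9bce24825a4d1e592bc14ceb53baa4820f (k8 a5234 a5503 a5243 i1548 a5492 i75 a63 a5493 (k8 a4802 i1025 a5037 i1049 a440 a5038 a4392 a2898 (k8 a5518 a5532 a362 a4692 a5530 a73 a5222 a5528 (k4 a5258 a1825 a5138 a4430 (k2 a5139 i1649 (k1 i458 k0)))))) (by decide +kernel)
def a5534 : PP 8 4 T 0x2000000000000000000000000000000000000000020000010000004000000000000 := rS 0x3003251d082592bc14ceb5 (k8 a5492 i75 a63 a5493 a4802 a5503 a5533 a1851 (k2 a5046 a5044 (k1 a5094 k0))) (by decide +kernel)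
def a5535 : PP 8 4 T 0x1202001000000000000000011005000004400000504000000440800000000140000000 := rS 0x180e07d (k4 a73 a5502 a5043 i1279 k0) (by decide +kernel)
def a5536 : PP 8 4 T 0x2100000000000000000011004000004400040404000014420810000004008000000 := rS 0x1ad0ebda2a09322c1b870e0ca89c355aaf30bf22a1f66a14e6a93a92c565d27b4c2e213ec40aaa1 (k8 a5269 a5100 a362 a73 i1529 a4369 a5147 a5084 (k8 a5085 a5002 i73 a1851 a3454 a5036 a1949 a2010 (k8 i271 a2869 a5535 a397 a427 a420 a4648 a4516 (k8 a4397 a389 a377 a1577 i782 i980 a4767 a48 (k4 i1415 a3949 a4694 a4976 k0))))) (by decide +kernel)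
def a5537 : PP 8 4 T 0x2100000001000000000011004000004400040400000014420810000004009001000 := rS 0xa13294ac15682546fc0ec34dc4f6985c427d881541ea1 (k8 a5269 a5234 a5100 a362 a73 i1529 a4369 a5147 (k8 a5084 a5536 a357 i1232 a4371 a263 a369 a420 (k4 a4440 a2241 a4397 a393 (k1 a105 k0)))) (by decide +kernel)
def a5538 : PP 8 4 T 0x2100000001000000000011004000004400000400000014420810000004409001000 := rS 0x1480951bf03cc1a19f9a617109541ea1 (k8 a5269 a5234 a5100 i1529 a4369 a5147 a5537 a133 (k4 i1516 a1066 a4430 i240 (k2 a369 a393 (k1 a2241 k0)))) (by decide +kernel)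
def a5539 : PP 8 4 T 0x2000000000000040000000000000000000000000000000820000000000009000000 := rS 0x1f0ec35faa1 (k4 a5269 a452 a383 a1820 (k2 a5016 a377 k0)) (by decide +kernel)
def a5540 : PP 8 4 T 0x202101000000000000000011004000004400000500000011460800000000009000000 := rS 0x11537c30fe1f5485c427d (k8 a73 i1529 a4369 a3454 a5016 a4533 a4371 a357 (k2 a2869 a5535 k0)) (by decide +kernel)
def a5541 : PP 8 4 T 0x400000000000000012000000000000040000041054400000000000000020101440000000010048000000 := rS 0x209941c3f9f620593395e0aa1 (k8 a5269 a63 a5493 i75 a4802 a362 a73 a897 (k4 a377 a4397 a4362 a2892 k0)) (by decide +kernel)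
def a5542 : PP 8 4 T 0x2000000000000000000001000000000000000000020000020010000000000000004 := rS 0x974ca6c7a6e38a203cbb86ab55e617e53d4e8b350d8f43914898a67d10c4156772ab4c9e2372ae41a460c868609347b350aa90b9d496592bc14ce5d (k8 a5085 i75 a63 a5493 a4802 i73 a1851 a4369 (k8 a3454 a1949 a2010 i1025 a5037 a5095 a5074 a5067 (k8 a5093 i1492 a5097 a459 i1572 a5084 a5147 a5100 (k8 i2940 i2988 a362 i1529 a73 a5539 a5538 i48 (k8 i1876 i785 i786 a1214 a5033 i3100 a394 a5540 (k8 a397 a427 a420 a4648 i1946 a5541 i270 i1357 (k4 i271 i2857 i1444 i1941 (k2 i1777 a5022 k0)))))))) (by decide +kernel)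
def a5543 : PP 8 4 T 0x12000000000000040001010000100000000000000020000000010004100000000000 := rS 0x6e0e1fc3ea24ac51268f449dcfa23880841a310c05cea4b2c95ccf052a86c04b51a931420f (k8 a5234 a5269 a5534 i1023 a5492 a5542 a5047 a4613 (k8 a63 i75 a5493 a4802 i73 a1851 a4369 a437 (k8 i1041 i1491 a4692 a362 a9 a73 i1547 a5039 (k8 i1025 a5037 a5011 a14 a5049 i240 a1066 a377 (k2 a2869 i1231 k0))))) (by decide +kernel)
def a5544 : PP 8 4 T 0x12002000000000000001000000000000000000000020000000010004000000000000 := rS 0x1e381fcdf154a28c3a076924ce625449dc4710109546aa50483462180d85cea4b2c95e0a675c8b4c202262d41ea1 (k8 a5269 a5234 a5492 a5534 a5542 a397 i1000 i1026 (k8 i75 a63 a5493 a4802 i73 a1851 a4369 a5047 (k8 a437 i1041 i1491 a369 a2241 i1023 a4613 a4692 (k8 a362 a9 i1547 a5039 a5006 a5036 a5037 a5543 (k8 a402 a341 a99 a5049 a14 i1057 a3171 a389 (k2 a4450 i1356 k0)))))) (by decide +kernel)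
def a5545 : PP 8 4 T 0x2002000000000000000000000000000000000000020000040010004000000000000 := rS 0x7f60434ba7d880841a310c05cea4b2c95ccf052a86c04b51a9301ea1 (k8 a5269 a5234 a5534 i1023 a5492 a5542 a5047 a4613 (k8 a63 i75 a5493 a4802 i73 a1851 a4369 a437 (k8 i1041 i1491 a4692 a362 a73 a5085 a4648 a5544 (k2 i1516 a4440 k0)))) (by decide +kernel)
def a5546 : PP 8 4 T 0x2000000000000000002001000000000410050504000000000000010100000000000 := rS 0x45172d3 (k4 a44 i1250 a5011 a2869 k0) (by decide +kernel)
def a5547 : PP 8 4 T 0x2002001000000000000000000000000000000040004020000000010004000040000000 := rS 0xa503b9194605c094420d18b045a180b9f620772a86d12023a92c988f2c95e0a671aad5420f (k8 a5234 a5269 a5492 i1023 i75 a63 a5493 a4802 (k8 i1025 a5534 i73 a1851 a5542 a5039 a5047 a4613 (k8 i1547 a362 a73 a4369 a437 i1039 a5546 i1041 (k8 i1491 a4692 a5006 a2869 a3513 i1027 a1710 i1223 (k2 a382 a3286 k0))))) (by decide +kernel)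
def a5548 : PP 8 4 T 0x2000000000000000000000004000000000000000020000400010004000000000000 := rS 0xb8729c548608ab045a6f0fc30fefd27a4d1e7354a24ee7d880841a310c05cea4b2c95ccf052a86c04b51a931420f (k8 a5234 a5269 a5534 i1023 a5492 a5542 a5047 a4613 (k8 a63 i75 a5493 a4802 i73 a1851 a4369 a437 (k8 i1041 i1491 a4692 a362 a73 i1547 a5039 a3454 (k8 a5036 i1025 a5037 a5104 a5545 a4533 a4371 a81 (k8 a357 i1039 a5546 a5547 a5043 a5133 i1279 a382 (k2 a5139 a1710 k0)))))) (by decide +kernel)
def a5549 : PP 8 4 T 0x2101000000000000400000004200000000000000000000000000000000000000000 := rS 0x2b6860f (k4 a5234 a129 i1286 a439 k0) (by decide +kernel)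
def a5550 : PP 8 4 T 0x2000000000000000000000004000000000000000020000000010004000000000000 := rS 0x34980a55ca8c5a7f4ab2c3b0d7e94926a9448841a310c05cea4b2c95ccf052a86c04b51a931420f (k8 a5234 a5269 a5534 i1023 a5492 a5542 a5047 a4613 (k8 a63 i75 a5493 a4802 i73 a1851 a4369 a437 (k8 i1041 i1491 a4692 a5039 a3454 a5037 a5548 a452 (k8 a383 a1820 i621 a4787 a4533 i1040 a263 i1027 (k4 a5549 a5049 a5202 a44 k0))))) (by decide +kernel)
def a5551 : PP 8 4 T 0x2000000000000000000000000000000000000000020000000010004000000000000 := rS 0x148e43891c9ea30eb48de2d8a98128aa10834627788060aa1b448084a350b9ccea4b26164af0533ad5420f (k8 a5234 a5269 a5492 i75 a63 a5493 a4802 a5534 (k8 i73 a1851 a5036 a4369 i1023 a5006 a5542 a5039 (k8 a5047 a4613 a437 a362 i1547 i1041 i1491 a4692 (k8 a5550 i1659 i1660 a14 i2674 i1057 a5011 a341 (k4 a99 a5051 i1655 i1279 (k2 a425 a3873 (k1 a382 k0))))))) (by decide +kernel)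
def a5552 : PP 8 4 T 0x2000000000000000000010008400140010000000800000000000150100000002000 := rS 0x7e9b612f182c7 (k4 a342 a1815 i586 i468 (k2 i1417 i1412 (k1 a5122 k0))) (by decide +kernel)
def a5553 : PP 8 4 T 0x2100001001000000040000000000000000000000400015020020000000000000000 := rS 0x610a98b13a7a18bacd108684b10 (k8 a362 a38 i787 i2544 a2010 a761 a4976 a20 (k4 a69 i1523 a5345 a379 (k1 i371 k0))) (by decide +kernel)
def a5554 : PP 8 4 T 0x2000000001000000000001008000000000000000020000020020000100000000000 := rS 0x10ec33cc657b454d20856c51f8ede06b12c40ee551831c183566a15221f1489c42231c8dd2e995485d6e8129ae5966f3a92cb2578299d4e07303f47a4751b4a2a9444809420f (k8 a5234 a5269 a5079 a5039 i1659 a14 a5011 a99 (k8 i1655 a335 a97 i1660 i1223 a1825 i75 a63 (k8 a5493 a4802 i73 a1851 i1057 i123 i1027 a5254 (k8 a4475 a4402 a4369 a3454 a5041 a5110 a446 a401 (k8 i185 i2544 a331 a443 a4367 a110 a1949 a2010 (k8 i1023 a425 a342 i1491 i1489 i1507 a362 a38 (k8 a5552 a5553 a333 a6 a49 a126 a3061 a5023 (k4 a48 i1415 a41 i1073 (k2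 a2427 a4927 (k1 i2032 k0)))))))))) (by decide +kernel)
def a5555 : PP 8 4 T 0x2000000000000000000001008000000000000000020000020020000100000000000 := rS 0x27950fc2552b9146d203c54c09456b05fa1f2988446570ea2404a1 (k8 a5269 a5079 a5039 i2543 a5493 i185 i2544 a5254 (k8 a4367 a97 a1815 i98 i1659 i1660 a14 i1223 (k8 a5011 a99 a5554 a382 a409 a4479 a3836 i2547 (k1 i1658 k0)))) (by decide +kernel)
def a5556 : PP 8 4 T 0x10002001001000000000000000040000000000000010000000460000140000008000000 := rS 0x7a410e8ba81 (k4 a4475 a761 a419 a5454 (k2 i395 i815 k0)) (by decide +kernel)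
def a5557 : PP 8 4 T 0x2001000002000000000000000000000000000000020000000000004100000000000 := rS 0x5dd3d7b454f2998e3b784655e613881a28d3511bcff0c0493d7eca40a556e994bb3d3a3548aa42e1a448e46e0255b1462c3a19f55a532cc14ce232b87d8225528843a40262d5420f (k8 a5234 a5269 a5492 a5534 a5551 i2543 i2544 a382 (k8 a409 a408 a4367 a5493 i185 i75 a63 a4802 (k8 a5254 a4528 a1978 a3610 a468 a459 a40 a5555 (k8 a5079 a446 a401 a5039 i787 a4369 a3454 a110 (k8 i1023 a407 a454 a5110 a5041 a4402 a4787 a4475 (k8 a5499 a396 i1389 i1387 a4371 a35 a357 a4479 (k8 a99 a5011 a1807 a117 i1223 a5012 a5021 a5556 (k8 a333 a27 a5164 i2035 a410 i1984 a26 i1685 (k1 a404 k0))))))))) (by decide +kernel)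
def a5558 : PP 8 4 T 0x2000000002000040000000000000000000000000020000000000004100000000000 := rS 0x27d8e3b3c3c0b919864519e9d1aa4552173a92cb2578299d6a1f1387512391b808804c628c5866157bf1420f (k8 a5234 a5269 a5557 a427 a397 a468 a459 a40 (k8 a5534 a5551 a5079 a446 a401 a5039 i2543 a331 (k8 a4367 a5492 i75 a63 a5493 a4802 i73 a1851 (k8 a4369 a3454 a110 i1023 a407 a454 a5011 a377 (k8 a561 a5179 a795 i532 a333 a27 i1075 i2035 k0))))) (by decide +kernel)
def a5559 : PP 8 4 T 0x2000000000000000000000004000020000080020000100420000800000008000000 := rS 0x20d02b73d1e5324b (k8 i73 a5035 a4662 i395 i802 i1363 i2569 a5290 k0) (by decide +kernel)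
def a5560 : PP 8 4 T 0x400000000000002002001000000000000000000040020000000000020000000000405000000000000 := rS 0x5ed157ec64c27e310567a74723701100980f (k8 a5234 a5534 a5551 a5079 a446 a401 a407 a454 (k8 a63 a419 a33 a5121 a4618 i1725 a433 i1990 (k1 a3078 k0))) (by decide +kernel)
def a5561 : PP 8 4 T 0x2000000002000000000000000000000000000000020000000000004100000000000 := rS 0x703b0e8df152ea50fcf15181da4b930bf2867d568c44aa560a4c6a733a92cb3053387ca6211195c341d448095640262d41ea1 (k8 a5269 a5234 a5492 a5534 a5551 a5555 a5079 a5039 (k8 i2543 i787 a5493 i185 i2544 a5254 a4367 i75 (k8 a63 a4802 i73 a1851 a5036 i1023 a5037 a408 (k8 a382 a409 a459 a4528 a1978 a3610 a5557 a397 (k8 i1026 a5558 a402 a99 a3219 a4450 a5049 a761 (k4 a14 i1057 a5560 a3171 (k2 i1676 a5559 k0))))))) (by decide +kernel)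
def a5562 : PP 8 4 T 0x2002000000000000000000000000000000000000020100000000005100000000000 := rS 0x1be2a714a1f946d28695583103ba948c258b03526733a92c3e211187512022013172e51a8249e7d56964af0533ad5420f (k8 a5234 a5269 a5492 i75 a63 a5493 a4802 a420 (k8 a1978 a74 a369 i1023 a5561 a1710 a5534 a5551 (k8 a5079 a5039 i2543 i185 i2544 a4367 i73 a1851 (k8 a5036 a5037 i1491 a429 a3587 a425 a2241 a332 (k8 a107 i1533 i791 a4534 a377 a99 a2218 a5049 (k4 i799 a14 i1057 a389 k0)))))) (by decide +kernel)
def a5563 : PP 8 4 T 0x2002001000000000000000000000000000000000020000000000004100000000000 := rS 0x150958513881a8aac7060c0bacd4294c421a1b808804c729f55a592bc14ceb5 (k8 a5492 i75 a63 a5493 a4802 a420 a1978 a5561 (k8 a5534 a5551 a5079 a446 i787 i2544 a5254 a1949 (k8 a2010 a761 a5562 i1003 i1692 i1489 a5553 a362 (k4 a4516 i468 a38 a5345 (k1 i371 k0))))) (by decide +kernel)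
def a5564 : PP 8 4 T 0x2000000001000000000000000000000000000800020000000000004000000000000 := rS 0xc62e3510900980f (k8 a5234 a5534 a5551 i2544 i1023 a332 i1507 a429 k0) (by decide +kernel)
def a5565 : PP 8 4 T 0x2002000000000000000000000000000000000000020000000000005100000000000 := rS 0x9e3c31c765c7833d3a353a92cb25733ad472370110098c5618360a0f (k8 a5234 a63 i1491 a276 a277 a5534 a5551 a5079 (k8 a446 a401 a5492 i75 a5493 a4802 i73 a1851 (k8 i1023 a407 a454 a5563 a5562 a333 a27 i532 (k2 i2035 i1075 k0)))) (by decide +kernel)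
def a5566 : PP 8 4 T 0x2000000000000000000000000000000000000000020000000000005100000000000 := rS 0x5181d964e3fbf48c0d49a3cea1f2988c341d0c92d56405c8d4fa2588154eee526164ceb52bc15420f (k8 a5234 a5269 a63 a5493 a5492 i75 a4802 a5534 (k8 a5561 a5564 i791 a362 a38 a73 i1023 a1710 (k8 a5551 a5555 i73 i181 i2543 i787 i185 a5254 (k8 a4367 a1851 i1025 a5037 i1491 a425 a5565 a4533 (k4 a5540 i1389 i1221 a3275 (k1 a5162 k0)))))) (by decide +kernel)
def a5567 : PP 8 4 T 0x2101000000000000000001004000000410050500000010084400010101550000000 := rS 0xc0529bd96a1 (k4 a5269 i1389 i1272 a5549 (k2 a1245 a5546 k0)) (by decide +kernel)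
def a5568 : PP 8 4 T 0x2101000000000000000011005000004410010540000011404400010101550000000 := rS 0x1862a7037c309e7f (k8 a4533 a5567 a4371 a357 a5139 a2869 i1279 a5043 k0) (by decide +kernel)
def a5569 : PP 8 4 T 0x2000000000000000000000000000000000000000020000000000004100000000000 := rS 0xdc7f86451a6f07e11c60253ec40aa775cb9556931aa3ce6a90b9d496598299d6a1f2988446570d075120220131420f (k8 a5234 a5269 a5534 a5551 a5079 a5039 i2543 i787 (k8 a5493 i185 i2544 a5254 a4367 a5492 i75 a63 (k8 a4802 i73 a1851 a4369 a3454 a5036 i1025 i1023 (k8 a5037 a5555 a5561 a1710 a5564 i791 a362 a73 (k8 a38 a5566 a5098 a5568 a5563 a3219 a5011 a377 (k2 a897 a2869 (k1 a357 k0))))))) (by decide +kernel)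
def a5570 : PP 8 4 T 0x2000000000000000000001000000010000050154020000000000002000100000000 := rS 0x3bae5268f2c95e0a67 (k8 i75 a63 a5493 a4802 i1025 a5037 a5221 i1507 (k1 i2044 k0)) (by decide +kernel)
def a5571 : PP 8 4 T 0x2001001000000040000000040000000000100000000000060024000000000000000 := rS 0x7b4553a08545d0d07626b70f89ca6a1 (k8 a5269 a5254 a331 a4367 a5279 a4535 i2543 i787 (k4 a761 a5345 a5454 i332 (k2 a48 i1255 (k1 a442 k0)))) (by decide +kernel)
def a5572 : PP 8 4 T 0x2000000000000000000000000000000000000000020000000000004000000000000 := rS 0x29978798ca798e3b782bd70ca60b904ac362a941a317e9bd027d27aad6e7f1f982180638a55a62c1b8e43a020d08c42531387c807525a44e64c47964ae354e99d9e9382ad5420f (k8 a5234 a5269 a5492 a63 a5037 a454 i75 a407 (k8 i1023 a5493 a4802 i1025 a5534 a5036 a110 i73 (k8 a1851 a5551 a4367 a331 a5254 i2544 i185 i787 (k8 a5079 i2543 a401 a446 a5569 a329 i2674 i1239 (k8 i1001 a3164 i1000 i1424 a897 a5279 i1659 i789 (k8 a340 a4 a357 a397 a5570 i1491 i1384 a277 (k8 a276 a3587 a1299 a408 a4591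 i1391 a5012 a5571 (k8 a333 a27 i2035 a33 i1075 i1190 a3236 i1984 k0)))))))) (by decide +kernel)
def a5573 : PP 8 4 T 0x2100000000000000000011000000014400050054040005004000000000000000000 := rS 0x1dcea59 (k4 a4983 a1851 a4942 i2044 k0) (by decide +kernel)
def a5574 : PP 8 4 T 0x2000002000000000000000000000000000000000040000020020015200008000000 := rS 0x9622c13a2aa86e556c1172cb7e9bcfa4f3898218060e808ae5525994a67311884b28f5aa4d2aa53fb4c3ea1 (k8 a5269 a4367 a329 a897 i1384 i978 i1242 a5492 (k8 i873 a4983 i784 i272 i834 a5254 a5572 i73 (k8 i792 i529 a5079 i2543 i1001 a3164 i1000 i1239 (k8 i1221 a340 a357 a397 i1392 a5363 a5573 a445 (k8 a3227 a4510 a4420 a1299 a1815 a453 a4013 a107 k0))))) (by decide +kernel)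
def a5575 : PP 8 4 T 0x2200002000000040400000000100014000050014041000000000115000008000000 := rS 0x962343609d1551672ab56a6539a3c46215485d72a1 (k8 a5269 a5363 i9 a3454 i784 i272 i873 i834 (k8 a5572 a5492 a445 a3227 a3216 a5050 a1299 a5295 (k4 a106 a453 a4013 a107 k0))) (by decide +kernel)
def a5576 : PP 8 4 T 0x2000002000000000400000000008000000000000000000000020115200018000000 := rS 0x419768a873cc4e229a5793ce8063bbf60ab95a994a67347aa4234f8ca15224949a646e954ba94feb71380d16713ea04c26f8634c3e4a2699c2ea1 (k8 a5269 i9 a414 a5574 a4066 a4367 a329 a377 (k8 a357 i1047 a4 a340 i1239 a4110 i189 a331 (k8 a5279 a897 i1384 i1244 i978 a376 i980 i1242 (k8 a4375 a5259 i1606 a33 a26 a441 a3454 i873 (k8 i834 a5254 a5572 a5492 a5363 a5575 a5143 a4251 (k8 a3572 i2044 i1221 i459 a5204 a453 a4636 a5167 (k4 a5494 a111 a2497 a197 (k1 a174 k0)))))))) (by decide +kernel)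
def a5577 : PP 8 4 T 0x2000002000000000000000000008000000000000000000000020115200018000000 := rS 0xafa1c15946137c30ca1f54b4d32374aa5d164a0b934cea1 (k8 a5269 a414 a5574 i9 a4066 a4110 i1244 i978 (k8 a376 i980 a329 a3454 a4367 a5572 a377 a357 (k4 i1047 a5576 a385 a105 (k2 a551 a5172 k0)))) (by decide +kernel)
def a5578 : PP 8 4 T 0x2000002000000000000000000008000000000000000000000020115200008000000 := rS 0x8abf4c27027018380326aa42e67 (k8 a414 i9 a3454 a5574 i189 a5577 i742 i741 (k4 i781 i1224 a74 a117 (k1 a5043 k0))) (by decide +kernel)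
def a5579 : PP 8 4 T 0x1002000002000000000000000001000000000000000001000000000100100000000000 := rS 0xa703a21a6fc (k4 a5043 a3219 a5011 a5042 (k2 i282 a2041 k0)) (by decide +kernel)
def a5580 : PP 8 4 T 0x2002002000000000004004000008000000000000011000000000100100048000000 := rS 0x32d72bda2a98de818634d56ad48924cf4f0ea252e99499c576958a2a42ea1 (k8 a5269 i9 a3454 a5579 a14 i1685 a117 a115 (k8 a57 a24 a337 i782 a26 a414 a4375 a5259 (k8 a420 a97 a3219 a377 a4 a357 a5164 a410 (k4 i1984 i1190 a1579 a5050 k0)))) (by decide +kernel)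
def a5581 : PP 8 4 T 0x2000002000000040004000000008000000000000001000000020115000008000000 := rS 0x22cb87a2520cf24d43958ab113a1de2d0589b2d72af27af54a06a2a98de7d861fce65947ad42267a7c650a9124a252e99499c576958a2a42e817eadc3a2d0f994a6a1 (k8 a5269 a5254 a5572 a4367 a5578 i782 a4635 a5580 (k8 a4475 i9 a3454 a5579 a14 i1685 a117 a115 (k8 a57 a24 a337 a4375 a5259 i1606 a33 a26 (k8 a414 a441 a5492 i873 a4983 i834 a897 a377 (k8 a340 a357 a5164 a410 a1825 i367 i1984 i1221 (k8 i459 i1190 a1579 a4636 a5575 a4379 a332 i2044 (k8 a453 i1539 a362 a387 i529 a4432 a197 a4066 (k4 a406 a4396 a4110 i1891 k0)))))))) (by decide +kernel)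
def a5582 : PP 8 4 T 0x2000002000000000004000000008000000000000001000000020115000008000000 := rS 0x13e1a6e53b4902fd38a652e898a1955217489256e1d1694c3ea1 (k8 a5269 a4367 a5254 a5578 i782 a4635 a4375 a5259 (k8 i9 a3454 a5572 a5579 a337 a24 a57 a117 (k8 a5580 a4475 a5581 a67 a5164 a357 i1271 a4371 k0))) (by decide +kernel)
def a5583 : PP 8 4 T 0x2001002000000000000000000400140010000010000000020020100100008000000 := rS 0x430dc4f489256e1d0fa04a6a1 (k8 a5269 a5254 a4475 a4367 i782 a4635 a4375 a5259 (k4 i789 a5164 a4371 a357 k0)) (by decide +kernel)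
def a5584 : PP 8 4 T 0x2000002000000000004000000008000000000000000000000020115000008000000 := rS 0x2fe86a469454e09a5393172bb03809969549a2532977e9805b4f3399552171d8f47e37 (k8 a376 a6 a365 a333 i9 a3454 a5572 a414 (k8 a26 a5578 a5582 a397 a449 a448 a4406 i1282 (k8 i1018 i1392 a5026 i1223 i1685 a5363 i189 a1825 (k8 a5023 a5583 a117 a5011 a5127 a129 i1452 a5364 k0)))) (by decide +kernel)
def a5585 : PP 8 4 T 0x4002000000000000000001000000100000000010000002001000020004101510000008 := rS 0xa33f81dfab53287ca6a1 (k8 a5269 a5254 a4367 a5572 a5492 a397 i1223 a4430 (k2 a5194 i2030 k0)) (by decide +kernel)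
def a5586 : PP 8 4 T 0x6002101000000000000401005000100000000010000880000000020011041408000008 := rS 0x7512a8fe810f94c42552487498a1 (k8 a5269 i189 i2543 a4375 i1620 i784 a5254 a4367 (k4 a4475 a4430 a4591 a3658 (k2 a5158 a3355 k0))) (by decide +kernel)
def a5587 : PP 8 4 T 0x4002000002000000000401000000100000000000000800000000020115101008000000 := rS 0x1f9a6ab7e13e286111aa42e2b568856e1d2987cfb102b930045947ad4aa66329260aa1 (k8 a5269 a3216 a4375 a5572 a4379 i1620 a5492 i873 (k8 a4983 a5056 i189 i2353 a362 a73 a4367 a5254 (k8 i2543 a4635 i784 a4528 a126 i9 a3454 i272 (k8 a5585 a5579 i790 a5586 a97 a3219 a4397 a897 k0)))) (by decide +kernel)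
def a5588 : PP 8 4 T 0x2000002000000008004000000000000000000000000000000020115000008000000 := rS 0xfd559fcc006698b0fb100e95c986a0111caa6612a941ac182b9197173287c9223109651eb51bb15420f (k8 a5234 a5269 a49 a376 a5492 i873 a4983 i784 (k8 i272 a4375 a4367 a5572 a368 a5240 a3326 a3216 (k8 a408 a392 a382 a409 a4379 i1620 i1617 a5056 (k8 a198 i189 i2353 i2543 a362 a73 a5587 a329 (k4 i1001 i1000 a897 a5158 (k2 a397 a1245 k0)))))) (by decide +kernel)
def a5589 : PP 8 4 T 0x2000002000000000004000000000000000000000000000000020115000008000000 := rS 0x231981b057245cd69c67a7cca3b1bb1d8a0f (k8 a5234 a49 a27 a376 a333 a5572 a5584 a5588 (k8 i2035 a4411 a399 a429 a3216 a392 a4379 a198 (k1 i1617 k0))) (by decide +kernel)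
def a5590 : PP 8 4 T 0x4002000002000000000000000000000000000000000040000000000015000000000000 := rS 0x411c865 (k4 a5572 a429 a4379 a3227 k0) (by decide +kernel)
def a5591 : PP 8 4 T 0x2000002002000000004000000000000005000000000110000020000000500000000 := rS 0x6b23959990512834522763b14560f (k8 a5234 a126 a49 a27 a331 a443 a392 a409 (k4 a3227 i2032 a2010 i1577 (k2 i507 a198 k0))) (by decide +kernel)
def a5592 : PP 8 4 T 0x2000002001000000004000000000000005000000000000000020000001500000000 := rS 0x332202913b1d8a2b (k8 a126 a49 a27 a331 a443 a107 i2032 a380 k0) (by decide +kernel)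
def a5593 : PP 8 4 T 0x2001002000000000000000000000000000400000000100000020000000010000000 := rS 0x2bc9e06408fc222b5b94c3ea1 (k8 a5269 a4367 a5254 a4635 a126 a441 a6 a4475 (k4 a3061 i1221 i459 a4396 k0)) (by decide +kernel)
def a5594 : PP 8 4 T 0x2000002000000000000000000000000000400000000100000020000000010000000 := rS 0x10d69bf03ea1 (k4 a5269 a4367 a5593 a3219 (k2 a1590 a377 k0)) (by decide +kernel)
def a5595 : PP 8 4 T 0x2000002000000000004000000000000000000000000000000020015000008000000 := rS 0x27cd74e41076222472a150e9d3bc58ba8b33b3cf319018e0ca291188522492ca3d6a11 (k8 a441 a5492 i873 a4983 a4375 a5259 i784 i272 (k8 a443 a5572 a5589 a401 a42 i1851 i1977 a5056 (k8 a5063 a2497 a5590 a332 a399 a4927 a545 a5591 (k8 a5592 a38 i862 a5594 a197 a394 a26 a4418 k0)))) (by decide +kernel)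
def a5596 : PP 8 4 T 0x400000000000000002000002000000000000001000000000001000000000010000020000002000000000 := rS 0xd829a999132e20d0e1d88844560f (k8 a5234 a126 a441 a38 i862 i927 a197 a5594 (k4 a5 a436 i1970 a464 (k2 i467 a3587 k0))) (by decide +kernel)
def a5597 : PP 8 4 T 0x402000000000000001000000000000000005000000800000000020000041500000000 := rS 0x4145227 (k4 a331 a443 a464 a5516 k0) (by decide +kernel)
def a5598 : PP 8 4 T 0x10002000000000000000000000000000000000001000000200000000000000008010000 := rS 0x3451352249 (k4 a4375 a5259 i532 a2497 (k2 i189 a5063 k0)) (by decide +kernel)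
def a5599 : PP 8 4 T 0x2002002000000000000011000000004400010504000000000000100100048000000 := rS 0x389fe28d330aa42ea1 (k8 a5269 i9 a3454 a397 a3219 a5579 a897 a117 (k1 a1698 k0)) (by decide +kernel)
def a5600 : PP 8 4 T 0x2100002000000000000000000000000004400000000200000020015000008000000 := rS 0x455a67f4bbf4de894c8b4044b451313e393c156320c3287ca6a90b8ec7e1123a759e3733ae4ee938b1f4ea6b89b3620e512d3cb28f5aa15842915884460f (k8 a5234 i272 i784 a126 a443 a5595 i1866 a5492 (k8 i873 a4983 a13 a5596 a468 a107 a380 a5 (k8 a5597 a453 a73 a429 a19 a332 a465 a350 (k8 a376 a3326 i1906 a354 a441 a6 a333 i9 (k8 a3454 a5254 a4367 a5572 a425 a4448 i1489 a5598 (k8 i1851 i1075 a4473 a4418 i73 a5079 a5574 a5065 (k8 a5039 a4940 a5599 a5110 a4430 a5198 a2869 a5011 k0))))))) (by decide +kernel)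
def a5601 : PP 8 4 T 0x2000002000000000000000000000000004400000000200000020015000008000000 := rS 0x3fa55fa6f4c9c45a0225a28989f1c9e23255821943e5339aa42e114eb3c6e675c9dd27163e95cea6b89b3620e512d3cb28f5aa1584291588446a1 (k8 a5269 i272 i784 a126 a443 a5595 i1866 a5492 (k8 i873 a4983 a13 a5596 a468 a107 a380 a5 (k8 a5597 a453 a58 a73 a429 a19 a332 a465 (k8 a350 a376 a3326 i1906 a441 i9 a3454 i834 (k8 a5254 a4367 a5572 a5600 a72 a3410 a5598 i1851 (k8 i1075 a4473 a4417 i73 a5079 a5574 a3215 a5065 (k4 a4940 a5599 a5111 a4430 (k1 i2044 k0)))))))) (by decide +kernel)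
def a5602 : PP 8 4 T 0x10002000000000000000000011000000101400852504000000000000000000000000000 := rS 0x22a9b (k2 i1073 a2869 (k1 a3055 k0)) (by decide +kernel)
def a5603 : PP 8 4 T 0x10002000002000000004000010000001000004810500440200000020004000018000000 := rS 0xd27e13e1a6e4c92d144c4f9e16a650f94d1e9124844fea1 (k8 a5269 i925 a441 a4375 a5259 i873 a5254 a4367 (k8 a5572 a5492 a5598 i1075 a4473 a4418 i73 a5065 (k4 a5602 a357 i1272 a4371 (k2 a377 a3219 k0)))) (by decide +kernel)
def a5604 : PP 8 4 T 0x20002000000000000004000000000001000000000000450000000000000000000000000 := rS 0x105 (k2 a784 a4448 k0) (by decide +kernel)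
def a5605 : PP 8 4 T 0x2000002000000000000000000000000004000000000200000020015000008000000 := rS 0x26070f119411acca1115a759e3733ae4ef163e9d59b1012a14534f2ca3d6a2111b958513 (k8 a5 a5595 a468 i272 i784 a5492 i873 a4983 (k8 a13 a443 i1866 a5596 a107 a380 a453 a73 (k8 a429 a332 a465 a350 a376 a3326 i1906 a126 (k8 a441 a5572 a5597 a5601 a5604 a5598 a5603 a4473 (k1 i2543 k0))))) (by decide +kernel)
def a5606 : PP 8 4 T 0x400000000000010002100000000000000000010001000105418852540040001004420014101510000000 := rS 0x3f12aab3732d76650f94cb2b5 (k8 a5492 a4983 a5254 a4367 a5572 i1683 a3949 a5602 (k4 a899 i1057 a5568 a5143 k0)) (by decide +kernel)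
def a5607 : PP 8 4 T 0x2000002000000000000000000000000000080000000001000020000000110000000 := rS 0x33f1a50d0f8a4a6a1 (k8 a5269 a5254 a443 a4367 a35 a1066 a4430 a2763 (k1 a402 k0)) (by decide +kernel)
def a5608 : PP 8 4 T 0x10002000002000000000000000000000000088802000000000000020015000008000000 := rS 0x7eab49eab821b996bb3fa245a1d2a92c044c4c994a6735485d22490891cceb9499f4ae75880950a29a79651eb51088cf6778b39584a1 (k8 a5269 a5595 a468 a429 a332 i817 i272 i784 (k8 a5492 i873 a4983 a13 a443 i1866 a5596 a107 (k8 a453 a58 a73 a19 a465 a350 a354 a441 (k8 a4375 a5259 i9 a3454 i834 a5254 a5572 a5065 (k8 i1854 a5063 i492 i792 i2543 a5574 a5039 a5607 (k8 i1683 a3949 a5602 a5606 a899 i1272 a445 a4531 (k1 a4420 k0))))))) (by decide +kernel)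
def a5609 : PP 8 4 T 0x8002000000001000000000000000005000040002000010200000400000050001000000 := rS 0xd82934ce0f (k4 a5234 a350 i531 a4412 (k2 a4504 a425 k0)) (by decide +kernel)
def a5610 : PP 8 4 T 0x10002000002000000000000000000000000000000000000200000020015000008000000 := rS 0x6925e2afd379fd122d0e955064b01131328a4f8e4f0650f86552171d8fc6e111591d3a675ca4cfa75880950a29a79651eb51088cf6863bc59cac2 (k8 a5595 a468 a429 a332 a5605 i817 i272 i784 (k8 a5492 i873 a4983 a13 a443 i1866 a5596 a107 (k8 a453 a73 a19 a465 a350 i1906 a354 a126 (k8 a441 a376 a6 a333 i9 a3454 i44 a4367 (k8 a5572 a5598 i1851 i1075 a5609 a5065 i1854 a5063 (k8 i492 a5608 i792 i2543 a5574 a5039 a5607 a4940 (k4 a5599 a2869 a5110 a5011 (k1 a5198 k0)))))))) (by decide +kernel)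
def a5611 : PP 8 4 T 0x20002000000001000004000000000001000000000000050000000400000000000010000 := rS 0x61aa0a0f (k4 a5234 a784 a5604 a425 (k1 i467 k0)) (by decide +kernel)
def a5612 : PP 8 4 T 0x2000002000000000000000000000000000000000000000000020015000008000000 := rS 0x8b4f9e10c6b2a8320a5d8cb34ea5788094ee678b33d0a9da791dcac2088dcca291188522492ca3d6a0f (k8 a5234 a5492 i873 a4983 a4375 a5259 i784 i272 (k8 a443 a5572 a376 a441 a5595 a468 a354 a13 (k8 i1906 i1866 a3326 a429 a350 a332 a5596 a107 (k8 a58 a453 a380 a5611 a5610 a3208 a425 i1489 (k4 i467 a4976 a4927 i1075 (k2 i1853 a4418 k0)))))) (by decide +kernel)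
def a5613 : PP 8 4 T 0x2000000001000000000000000000000004000000400110000020000001500002000 := rS 0x15e2055 (k4 i1489 a107 a5185 a3812 k0) (by decide +kernel)
def a5614 : PP 8 4 T 0x2001000000000000000000001000000000500000000100000020200040010010000 := rS 0xaf278187eb74487ca6a1 (k8 a5269 a5254 a4367 a5040 a4402 i296 a3061 i1221 (k2 i459 a4396 k0)) (by decide +kernel)
def a5615 : PP 8 4 T 0x8002200000000000005000000000000001000008000000104000000000000000000000 := rS 0x43a74ee67 (k4 a350 a332 a399 i817 (k1 a794 k0)) (by decide +kernel)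
def a5616 : PP 8 4 T 0x2200001001000000040000000000001000000000000104000000804004008000000 := rS 0x243b0d22ecd67865867a260c4ca02 (k8 a5034 a5572 i1002 i189 i395 i2223 i44 i1146 (k4 a3736 a5615 a429 i357 (k2 i356 a3165 k0))) (by decide +kernel)
def a5617 : PP 8 4 T 0x2200001001000000000000001000001000000000000100000420804000008000000 := rS 0x52304f90d309fdf88327b30e2938b33c6a0d632b5961f1394d127a5b8a83a4c5a8c4ae020c9941ea1 (k8 a5269 a5234 a5572 i44 a5034 a4716 i1002 a5492 (k8 i189 i2543 i394 i850 i395 a5039 a5254 a331 (k8 a4367 a385 a445 a5616 a342 i2242 i1145 a429 (k8 a1020 a3215 a5615 i789 i815 a4529 i848 a397 (k4 a1590 a4395 a5295 a4359 (k1 i1325 k0)))))) (by decide +kernel)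
def a5618 : PP 8 4 T 0x2100000002000000000011000000000000810500800000000400800000008000000 := rS 0x8aa885aab379fc7abd1187cf219478843a4c2000982a512a1cf4a1 (k8 a5269 i395 i817 a409 a382 a408 a5034 a5047 (k8 i189 i2543 i2544 a5213 i44 i1069 i2061 i2062 (k8 i1415 i1255 i925 i1440 i586 i1158 i2030 a2869 (k1 a5108 k0)))) (by decide +kernel)
def a5619 : PP 8 4 T 0x2100000002000000000001001000000400450140050105004400000000550000000 := rS 0x70300192b157e9be18a260a944a7749ae62ca1 (k8 a5269 a4379 a465 a4788 a4942 a409 a382 a408 (k8 i2030 a263 a357 a1590 a2869 a5111 a1824 a5043 (k2 a5573 i2819 k0))) (by decide +kernel)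
def a5620 : PP 8 4 T 0x2000000002000000000000000000000000000000800104000400800000008000000 := rS 0x9437455462d38b4a1a7e41ae527163b9f4eb1033c1552893988c3e4b0ca3c3a595a954ca3352b3c6aad12b04a6212610004a1 (k8 a5269 a5034 a5047 i189 i2544 a5254 a408 a409 (k8 a4528 a364 i1145 a382 i192 a5572 i792 a5492 (k8 i867 i2543 a5213 i44 i1045 i2061 i2062 i834 (k8 a5039 a5029 a464 i548 a362 a1851 a1978 a4942 (k8 a4379 a4788 a465 a5618 a5619 a35 a1066 i799 (k4 a3164 a99 a3464 a3873 (k2 a5134 i1057 k0))))))) (by decide +kernel)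
def a5621 : PP 8 4 T 0x2100000000000001000000000000000000008000400115004000000000000000000 := rS 0x3b19d0c75 (k4 a1851 a4976 a1179 i817 (k1 a4942 k0)) (by decide +kernel)
def a5622 : PP 8 4 T 0x2200000002000000000001000000000000000800000104000000800000008000000 := rS 0x1fa187d5d93d2a9e38a18f41f3c864a61d2610004356689454a1 (k8 a5269 i394 a409 i888 a364 a5034 a5047 i189 (k8 i2543 a5254 i44 i1069 i2061 i395 a669 a4495 (k8 i818 i1676 i789 i1685 i3028 a4370 a4394 a35 k0))) (by decide +kernel)
def a5623 : PP 8 4 T 0x4002200000002000000000005000404000000018600010100420400000000550000000 := rS 0x1944ae7e9fd030c4193d274360a944aa1 (k8 a5269 a409 a382 a408 a3610 i1589 a756 a536 (k8 a4370 a4 a35 a1590 a4396 i2030 a1824 i460 k0)) (by decide +kernel)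
def a5624 : PP 8 4 T 0x2000000002000000000000000000000000000000000104000400800000008000000 := rS 0x1a67f869f0e89f4221cef17821ad5aa78c88cf41f488e4f24b0c94d6e210e96480b52a994664c013059e356689454a1 (k8 a5269 i394 a409 i888 a364 i1145 a408 a5034 (k8 i189 i192 a5572 i792 a5492 a5047 i867 i2543 (k8 i2544 i850 a5254 i44 i1045 i1069 a401 i913 (k8 i2061 i395 i2062 a411 a5030 a4528 a5620 a5621 (k8 a5615 a5622 i817 a460 i1606 a1002 a5623 a340 (k2 i101 a4483 (k1 a377 k0))))))) (by decide +kernel)
def a5625 : PP 8 4 T 0x4002200000002000000000005010404000000008600010100420400000000550000000 := rS 0x27c34f8a1 (k4 a5269 a5623 a340 i1273 (k1 a4370 k0)) (by decide +kernel)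
def a5626 : PP 8 4 T 0x2000000002000000400000010000000000060000000000400400000000050000000 := rS 0x13e1ac106a941ea1 (k8 a5269 a5234 a382 a392 a408 a340 i1273 a4359 k0) (by decide +kernel)
def a5627 : PP 8 4 T 0x2000000002000000000000000000000000000000000108000000800000008000000 := rS 0x2a9fa838624e867d82ad55a334fc5cee7423998cacb889fd4e233d07c961929adc54210e930800260a944aa1 (k8 a5269 a409 a382 a408 a5034 a5047 i189 i2543 (k8 i2544 i394 i850 a5254 i44 i1045 i2061 i395 (k8 i2062 a5030 a4388 a58 a4399 a5493 i529 i1577 (k8 i530 i1628 a350 a414 i192 i2962 a5492 a5625 (k8 a5626 a3610 i1589 a403 a536 a1590 a4591 a3079 k0))))) (by decide +kernel)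
def a5628 : PP 8 4 T 0x22000000000000000000000010080000000010010080014020800410000048000008 := rS 0x8735ae9163e8c17536f11e8b54e994b8200efd5513d521748a04fe535b9bd12391bb34aa495ab2e0aa1 (k8 a5269 a451 a5071 a1076 a4375 i1620 a2010 a446 (k8 a401 a5039 a357 a118 a383 a35 a4 a5259 (k8 i9 a3454 i789 a4397 a97 a5158 i1656 a5110 (k8 a5041 a1825 i1001 a122 a5164 a828 a761 a419 (k4 a5023 a52 i407 i547 (k2 i1683 a4976 k0)))))) (by decide +kernel)
def a5629 : PP 8 4 T 0x2100000000000000000000000000000000000200040004004400000000000000000 := rS 0x2d06658 (k4 a1851 a4424 a4802 a5492 k0) (by decide +kernel)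
def a5630 : PP 8 4 T 0x22000000000000000400001010000000000010000000015000000000000010001080 := rS 0x5593cfe53 (k4 a383 a35 i1221 i457 (k1 a4397 k0)) (by decide +kernel)
def a5631 : PP 8 4 T 0x22000000002000000000000000000000000010200040000020400000000058000000 := rS 0xcc278ac82225181cbafd78ad55acb2cc10ae21608354a8f129fca7112a92c1ea1 (k8 a5269 a5234 i73 i1540 a453 a383 a35 a409 (k8 i872 a382 a392 a408 a46 i529 a5629 a415 (k8 a385 a445 a822 a3227 a4395 a761 a5630 a1824 (k4 i2030 i184 a5002 a5084 (k2 a3129 a4529 k0))))) (by decide +kernel)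
def a5632 : PP 8 4 T 0x22000000002000000000000000000000000010200000000020400000000058000000 := rS 0xf283891ed37184ca5c76718a17686f15a9ac6640118dc725601254cb17332e526770b864e69124885823506a944a3140adcdea1 (k8 a5269 a357 a118 a4 a459 a409 a382 a392 (k8 a364 a408 a46 a4375 a5259 i834 i44 i9 (k8 i59 i1589 i1065 a5631 a350 i75 a5073 a5072 (k8 i1587 a401 a446 i2062 a5047 i192 i2353 a5492 (k8 a5612 a3610 a761 a447 a739 a5627 a24 a57 (k4 a419 a41 a390 a4572 (k2 a68 a398 (k1 i2045 k0)))))))) (by decide +kernel)
def a5633 : PP 8 4 T 0x22000000002000000000001000000000000010100080000020400000000018000000 := rS 0x2084f7e1740ef156a8880232bb2c62552488582a5128ccb28f010342e350f9fca6a1 (k8 a5269 a383 a35 a81 a364 a4369 a392 a5072 (k8 a566 i544 i192 a409 a382 a408 a46 i30 (k8 i1620 a4387 a5071 i530 i273 a5047 i2030 a4528 (k4 a5612 a5630 a761 a1824 (k2 a74 a4648 (k1 a4500 k0)))))) (by decide +kernel)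
def a5634 : PP 8 4 T 0x22000000000000000400001000080000000010000000015040400000000010001000 := rS 0x1f8aa03ab4fe53 (k4 a383 a35 a1822 a5630 (k2 a4397 a1824 (k1 a97 k0))) (by decide +kernel)
def a5635 : PP 8 4 T 0x4002000000000000000000000000000000400000100000000000000004000800000000 := rS 0xef11 (k2 a9 i1625 (k1 a466 k0)) (by decide +kernel)
def a5636 : PP 8 4 T 0x22000000002000000000001000080000000010100080010420400000000010000000 := rS 0x20938360d2bb2caa49 (k8 i30 i1620 a5071 i530 a392 a5633 a5634 i787 (k1 a5104 k0)) (by decide +kernel)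
def a5637 : PP 8 4 T 0x2000000000000000000001000080000000050100080010020400000001510000000 := rS 0x29789e020834d9c532975dd3e28bf032a9fa4f15a193a7b309ac185d208690acd018662032729cd224b5485caf174f8c4aa491a94c12815b9be18a1 (k8 a5269 a263 a357 a118 a4 i200 a1805 a5032 (k8 i30 i1620 a4387 a414 a350 i530 a4369 a3454 (k8 i73 a110 a5036 a5636 a429 a107 i232 i192 (k8 a380 a361 a437 a5079 a5086 a5072 a5070 a5060 (k8 a1179 a4954 a460 a5002 a5084 a4534 i1647 i1648 (k8 i3029 a5043 a20 i1683 a5110 a5041 a117 a1490 (k4 a899 a5204 i2045 a441 (k2 i1835 a3116 k0)))))))) (by decide +kernel)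
def a5638 : PP 8 4 T 0x2000000000000000000000000000000000000000080020000400000000000400000 := rS 0x11c0f (k2 a5234 i544 (k1 a180 k0)) (by decide +kernel)
def a5639 : PP 8 4 T 0x2002000000000000001001000040000000050000000014000000000001550000040 := rS 0x4141ea1 (k4 a5269 a5234 a4500 a4450 k0) (by decide +kernel)
def a5640 : PP 8 4 T 0x2000000001000001000400000401141018000000080000000001004140104000000 := rS 0x26c76c5a7a7c68318b8e46e02 (k8 a5056 a446 a401 a350 a4387 a429 a414 a20 (k4 i1523 a990 a1490 a5024 k0)) (by decide +kernel)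
def a5641 : PP 8 4 T 0x202000000001000000000400000401141010000000080115000001004140104002000 := rS 0xfc769b6133a9e6a43c5d3ecd1c8dc04c7 (k8 a342 a5056 a446 a401 a380 a414 a350 a5640 (k8 a3812 a394 i548 i468 a1490 i1146 i376 a5023 k0)) (by decide +kernel)
def a5642 : PP 8 4 T 0x2001000000000000000000000000000000000000000000000002000000000000040 := rS 0x12d3 (k2 a335 a122 (k1 a1807 k0)) (by decide +kernel)
def a5643 : PP 8 4 T 0x202001000000000000000400000200000000000000080010000000004000104000000 := rS 0xd504438345a4744954569d2e9043085669309657489242e3418b962e974caa404a71e81d960f (k8 a5234 a5071 i1379 a5642 a1825 a5056 a5029 a5041 (k8 a5110 a350 a382 a4387 a429 i1117 a5260 a5259 (k8 a58 i489 a440 a380 a361 a437 i181 a5085 (k8 a4954 a5002 i1620 a5039 i209 i1384 a5641 a5640 (k2 a425 a3812 (k1 a464 k0)))))) (by decide +kernel)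
def a5644 : PP 8 4 T 0x202001000000000000000000000200000000000000080010000000004000104000000 := rS 0x20c50f1294107cc255af996ad5a954922b2790430171a0c5cb172595c3a0f (k8 a5234 i1382 a58 i489 a350 a382 a4387 a429 (k8 i1117 a437 i181 a5051 a5002 a5260 i1620 a5492 (k8 i1286 a5071 a5643 a367 i1452 i1451 a5549 a4420 (k4 a6 a1796 a334 i257 k0)))) (by decide +kernel)
def a5645 : PP 8 4 T 0x2000000000000000000000000200000000000000080010000000004001100000000 := rS 0xfadda6a63c3c232991d9fa26ab5794df84f2e8acf64c20955224b0c124e69342b34ae750d85c6e3944c4068025ac5c629572ab43a07659f5420f (k8 a5234 a5269 i1326 a5071 i1379 i1382 i1286 a382 (k8 a5073 a4387 a350 a5492 a5056 a429 a164 a5039 (k8 a401 a446 i1117 i356 i1062 a58 a380 a361 (k8 i1364 a5235 a5260 a437 i489 a5259 i1620 i181 (k8 a440 a1179 a5002 a5085 a5051 a5644 a452 a427 (k8 a97 a4516 a4397 a203 a4524 a5121 a419 a406 (k4 a2041 a3219 i1932 i243 (k1 a1066 k0)))))))) (by decide +kernel)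
def a5646 : PP 8 4 T 0x2000000000000000000000000200000000000000080014000000000001100000000 := rS 0x218f25d4189c98918c9b8347b24a661a8566a3cfc71882d4464b3ac5d3e9572ab43a7d498d4a6615793d52ab8aa21e2a703bf0d6735c15418031911d960f (k8 a5234 a5071 i209 a5645 i192 a5072 i1489 i289 (k8 a171 a5070 a5187 i1379 i2172 a2041 i288 a337 (k8 a97 a431 a74 a427 a397 a452 i70 i1365 (k8 i1326 i1382 i1286 a382 a5073 a414 a350 i1587 (k8 i489 i1569 a4540 a107 i1407 a4397 a119 a380 (k8 a361 a35 a4524 a2898 a1179 a1013 a389 a5121 (k8 a5259 a440 i785 i2918 a795 a5171 a3812 a3599 k0))))))) (by decide +kernel)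
def a5647 : PP 8 4 T 0x2000000000000000000000000200000000000000080010000000000001100000000 := rS 0x4d2095818030c8c88ecb (k8 a5071 i209 a5645 i2111 i192 a5072 a5646 a5185 (k2 a5082 a5045 k0)) (by decide +kernel)
def a5648 : PP 8 4 T 0x2000000000000000000000000000000000000000080008010010000000000000000 := rS 0x1058904b (k4 a5069 a440 a5260 a5053 (k1 a5183 k0)) (by decide +kernel)
def a5649 : PP 8 4 T 0x2002001002000000400000001100001010040000000000010420000101502001000 := rS 0x1e1142a38a66271451431a67d0eaad5a4f3087ca6b519b05420f (k8 a5234 a5269 a408 i2050 a5492 a5254 a4367 a397 (k8 a74 a420 a97 i741 a5626 a4206 a4359 i2030 (k8 a5011 a2220 a57 a117 a5345 a5154 i388 i1854 k0))) (by decide +kernel)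
def a5650 : PP 8 4 T 0x2001001002000000400000001000001000000040000008058420140101002000000 := rS 0x6f3ec315a610e9fc3eb519add0253 (k8 a5254 a4475 a4402 i2050 a5492 a4367 a4388 i741 (k4 i1048 i1582 a4371 a5626 (k2 a357 a5137 k0))) (by decide +kernel)
def a5651 : PP 8 4 T 0x2000001000000040000000000000800000000000000000000004100100000000000 := rS 0x530e87b45 (k4 a111 i1257 a828 a442 (k1 a5030 k0)) (by decide +kernel)
def a5652 : PP 8 4 T 0x2001000000000000014000000000000000000804400000090420000000000001008 := rS 0xee32a63d2b9368b2ea0e242b3c8fc0cd30e18452271c8dce691248cc302d2505de2974c9c5521b5ba04a60f (k8 a5234 a5254 a4475 a4402 i189 a5029 a4496 a5041 (k8 a5110 a198 a5019 a4066 i2723 a437 i2050 a5260 (k8 a5259 a5235 a446 a401 a331 a443 i1047 a5188 (k8 a341 i742 i1422 a5197 i388 a5345 a2105 a5 (k8 i491 a5651 a5022 i2045 i460 a390 a5030 a3409 k0))))) (by decide +kernel)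
def a5653 : PP 8 4 T 0x2000000000000000000000000100000000000000080008010000000001100000000 := rS 0x3e981261d37139faf161b1582e41191cec6b16a3c66912506092730b86c6e3944aa4040d201d62ecb3fc44aa0f (k8 a5234 i53 a58 a4388 a5071 a350 i1588 a5648 (k8 a5462 a5072 a5029 a5039 a401 a446 i189 a5019 (k8 a5235 a5260 a437 a4066 a5259 i2050 a4381 i2723 (k8 i2309 i490 i1617 a5635 a107 a408 a40 a468 (k8 a198 a5649 a5650 a5652 i1231 i2834 i1271 i1629 (k1 a5585 k0)))))) (by decide +kernel)
def a5654 : PP 8 4 T 0x2000000000000000000000000100000000000000080008000000000001100000000 := rS 0x10da19f4461a0e94c3ee4202d466c15691c6a7401132227f8bb2c62a1 (k8 a5269 a4387 a5071 a350 a4388 a58 a5653 a5082 (k8 i530 i1062 i2961 i2962 a193 i192 a5492 a5184 (k8 a429 a4367 a5254 i2543 i787 i184 a5626 a3610 (k2 a5632 a403 k0)))) (by decide +kernel)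
def a5655 : PP 8 4 T 0x2000000002000000001001010000000000040100080000420400000001550000000 := rS 0x28cfacb529642ea1 (k8 a5269 a4369 a5638 a5647 a5071 a5626 a5637 i2030 k0) (by decide +kernel)
def a5656 : PP 8 4 T 0x2000000000000000000000000000000000000000080004020420000001010000008 := rS 0x4c9c5f90d3f46076ad2eb9182f11a8643421298a43e391bad46295259ccaa6511a3cb2173ac5c66a1 (k8 a5269 i192 a350 i1587 a4369 a5638 i874 a5635 (k8 a5572 i792 a5036 i489 a5073 i1002 a5492 a446 (k8 a401 a4367 a443 a5254 i2544 i787 i181 i356 (k8 a5612 a193 a429 a761 a4528 a5624 a419 a5655 (k4 a35 a4430 i800 a3628 (k1 a5121 k0)))))) (by decide +kernel)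
def a5657 : PP 8 4 T 0x2002000002000000400000000100000000080000000000000400000000500000000 := rS 0x146070f34d5609608341ea1 (k8 a5269 a5234 a392 a408 a369 a97 a4206 a1066 (k2 a4364 i240 (k1 a2108 k0))) (by decide +kernel)
def a5658 : PP 8 4 T 0x4012000001000000000000020000400140401400100400115000001400140010000008 := rS 0x87668a503455f9ec7c9b8c2247237 (k8 a446 a401 a5039 a419 a828 a5023 a390 i1457 (k4 a80 i1333 i257 a1006 (k2 a1725 a460 k0))) (by decide +kernel)
def a5659 : PP 8 4 T 0x12200000002000000000020000400140000400000080104020401000140110000008 := rS 0x661d90f113cb3c53191d215e26b8ba7cea4b48954ca33479642e3506b15860f (k8 a5234 a468 a40 a392 a364 a4369 a5638 i874 (k8 i192 a5572 i792 a110 i489 i1587 a414 a350 (k8 a464 a3227 a3924 a5658 a411 i255 i1145 a4662 (k4 a3246 a3599 a466 a460 (k1 i810 k0))))) (by decide +kernel)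
def a5660 : PP 8 4 T 0x2100000002000000000000000000001000000000080111000000800000000000000 := rS 0x87359e59f194f8d496cd2ba944a21 (k8 a46 a409 a382 a5654 a2010 i489 a364 a414 (k4 a411 i1145 a4662 i548 (k2 a3599 a4976 k0))) (by decide +kernel)
def a5661 : PP 8 4 T 0x12000001000000000000020000400140401400000080115000001400140010000008 := rS 0x22cd5181c8de2e75 (k8 i1587 a350 a446 a401 a419 a5658 a52 i547 k0) (by decide +kernel)
def a5662 : PP 8 4 T 0x2000000002000000000000000000000000080000080000800400000000010000008 := rS 0x29e9a088fde03b5fa75548566c14ba4c48924e6b849ab4aa2b1e8b546a72081d06891c8dc62654fa5582350692e870d2ca5d32fd11a3cea5712c5c66a510b2d520f (k8 a5234 a5029 a5071 a46 a382 i192 a350 a409 (k8 a5654 i1587 a930 a5635 a5657 a5041 a5110 a5251 (k8 a35 a133 i489 a392 a364 a408 a5073 a414 (k8 a5572 i1002 a446 a401 a5039 a334 a5252 a5254 (k8 a5258 a1824 i1001 a5642 a5002 a5004 i1555 a5112 (k8 a5096 a171 i828 a5259 a440 a5085 a5659 a2010 (k8 a1949 a439 a4954 a367 a5660 a5661 a6 a441 (k2 a5023 a1160 (k1 a1490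 k0))))))))) (by decide +kernel)
def a5663 : PP 8 4 T 0x2000000000000000000000000000000000000000000002004400000000000000008 := rS 0x1726900ca33 (k4 i192 a5572 a5003 i792 (k2 a5019 a4066 k0)) (by decide +kernel)
def a5664 : PP 8 4 T 0x2000000000000000000000000000000000080000080001002000000000000000000 := rS 0x2e62a722924dfa778ba56868f (k8 a930 a133 a5073 a350 a5262 a2898 i1637 a4430 (k4 i828 a103 a171 a447 k0)) (by decide +kernel)
def a5665 : PP 8 4 T 0x2100002000000001000000000404141000480000000101000001400100000002008 := rS 0x431e6326b4d0447e572ca247237 (k8 a446 a401 a5039 a5251 a4388 a6 a441 a5023 (k4 i467 a41 i1074 a4976 (k1 a3599 k0))) (by decide +kernel)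
def a5666 : PP 8 4 T 0x4002200001000000000040000000400140010480100000101000001540140000400000 := rS 0x2184c85898a502cd1f1ed37184795cb26b (k8 a464 a5251 a4388 a930 a419 a828 a390 a5023 (k8 a1006 i1333 i257 a1729 i1670 a5175 a460 i738 k0)) (by decide +kernel)
def a5667 : PP 8 4 T 0x2200000000000000040000000000000000080000080001800000400000000000008 := rS 0x3350e855e9e6329a1fbc0d7174f964ea9548a2472370ba0d2e99538b47a077e8acba41261249657 (k8 a4388 i489 a5664 a440 a5254 a5085 a5002 a452 (k8 a5252 a5642 i1001 a5258 a5257 a5255 a334 i998 (k8 a446 a401 a5039 a5259 a5073 i1667 a5251 a414 (k8 a350 a464 a5666 a6 a5023 a41 i1074 i1418 (k4 a1002 a3599 i849 a460 k0))))) (by decide +kernel)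
def a5668 : PP 8 4 T 0x2000000000000000000000000000000000080000080001800400400000000000008 := rS 0x2190345358f9169b8c2fde2aa668320ac74fb2e870d2cab522891c8dd06974ca9c5a3d03bf4565d20930924b2b8d1ca1d188ce2e0f (k8 a5234 a350 i192 a4387 a1820 a5662 a429 a4388 (k8 i489 a5664 a440 a5254 a5085 a5002 a452 a5252 (k8 a5642 i1001 a5258 a5257 a5255 a334 a446 a401 (k8 a5039 a5259 i1555 a5251 a35 a133 a5071 a414 (k8 i412 a5667 a425 a2010 a439 a5665 a367 a419 (k8 a828 a52 a5023 i547 a80 i1333 a4976 a982 k0)))))) (by decide +kernel)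
def a5669 : PP 8 4 T 0x2100000000000000000000000000000000080000080101000000800000002000000 := rS 0x118660d119a9cacd8816586873c92cae9124a7e320f (k8 a5234 a411 a414 a5664 a5259 a4388 i489 a4662 (k8 a3599 i374 a5251 a362 a2010 a5660 a4976 a9 (k4 i468 i232 a425 i1617 k0))) (by decide +kernel)
def a5670 : PP 8 4 T 0x2000000000000000000000000000000000080000080001800000800000000000008 := rS 0x8e22e519884d6478221cf3198ba7d1e59129d52a911c874ba4c2595c301b2085c92a1 (k8 a5269 a5664 i998 a5254 a5047 a437 a4388 i489 (k8 a440 a5085 a1820 a401 a5259 a5073 i1667 i842 (k8 a5251 a930 a414 a350 a411 a4662 a3599 a5669 (k8 a451 a464 a1007 i192 a5662 a3812 a5635 a107 k0)))) (by decide +kernel)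
def a5671 : PP 8 4 T 0x2000000000000000000000000000000000080000080001800000000000000000008 := rS 0x22880ca0a461d86036412b9642e49 (k8 a5664 i998 a5251 a4388 a5254 a5047 a437 a5670 (k4 a5668 a451 i1617 a362 (k2 i232 a9 k0))) (by decide +kernel)
def a5672 : PP 8 4 T 0x2000000000000000000000000000000000080000080001000800400000400000000 := rS 0x230997887c52407e068a6371c8643a02190861a714a9cc2e4c2492caea1 (k8 a5269 a4388 i489 a5664 a440 a4369 a5115 a5073 (k8 i800 a35 i2970 i1617 i1618 i719 i232 a401 (k8 a446 a5671 a437 a4430 a5047 i2063 i2061 a5607 (k2 a3628 a419 (k1 a5121 k0))))) (by decide +kernel)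
def a5673 : PP 8 4 T 0x2000000000000000000000000000000000080000080000001400008000000000000 := rS 0xfb4d121a20a9406218ba56865912a4ce6172612caea1 (k8 a5269 a4388 i489 a440 a4369 a5115 i1638 i842 (k8 a5251 a133 a5073 a350 i1612 i192 a5647 a5079 (k4 a5074 a3633 a5147 i270 (k1 a897 k0)))) (by decide +kernel)
def a5674 : PP 8 4 T 0x2000002000000000000000000000000000000000000000000000005001008000008 := rS 0x6a40 (k2 a5047 i356 (k1 a5612 k0)) (by decide +kernel)
def a5675 : PP 8 4 T 0x2100000000000000000000000000000000080000080001000000400000000000000 := rS 0xa72193482459e2269d2e86e28bf78465322d55abcc2fc298dc72021991cf62342b3621174f8c4fab52c894ea714aab5524f489309657499cc92a1 (k8 a5269 a5664 a5115 i1638 a4388 i489 a440 a5259 (k8 i759 a5246 i1555 a5073 i800 i1667 i842 a5251 (k8 i127 i101 a4387 a414 a350 a362 a2010 a1949 (k8 a9 a1179 a5672 a5673 a5056 a401 a446 a5671 (k8 a4430 a397 a427 a97 i1000 a4524 a5121 a419 (k8 a4525 a5579 a5674 a5214 a4954 a4516 a406 i1853 (k4 a5171 a5447 i925 a1490 (k1 a20 k0)))))))) (by decide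 +kernel)
def a5676 : PP 8 4 T 0x2000000000000000000000000000000000080000080000000400404000004000000 := rS 0xc378d3d8a276921a268566b1d47101a3954a211597482cb18d0e1a596089446754ac5d1e4c249ae080957bf0a6550112caea1 (k8 a5269 a4388 i489 a5056 a5663 a5671 a4430 a427 (k8 a369 a5675 a464 a5664 a440 a930 a350 a5073 (k8 i1667 a5635 i842 i1516 a5251 a35 a133 a4387 (k8 a5071 i787 a5214 a5002 a5105 a5647 a5657 a429 (k8 a107 a5032 i412 a380 a361 a205 a3812 a393 (k4 a1214 a1043 a20 a3219 (k2 a4236 a379 k0))))))) (by decide +kernel)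
def a5677 : PP 8 4 T 0x2000000000000000000000000000000000080000080000000400404000000000000 := rS 0x74801a26124aa021292caea1 (k8 a5269 a4388 i489 i842 a5056 a5663 a5664 a440 (k4 a5676 a5047 i2537 a5656 k0)) (by decide +kernel)
def a5678 : PP 8 4 T 0x2000000000000000000000000000000000080000080000000400400000000000000 := rS 0x54061200632 (k4 a5677 i192 a5673 a5072 (k2 a5664 i2964 k0)) (by decide +kernel)
def a5679 : PP 8 4 T 0x2000000000000000000000000000000000080000080000000000400000000000000 := rS 0x5c9a402a0084305231949657 (k8 a4388 i489 i75 a5678 a451 i2970 i1618 a5675 (k4 a5004 i792 a5019 a4066 k0)) (by decide +kernel)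
def a5680 : PP 8 4 T 0x2000000000000000000000000000000000000000010002004000000000100000008 := rS 0x5c9a40 (k4 a5004 i792 a5019 a4066 k0) (by decide +kernel)
def a5681 : PP 8 4 T 0x2000000000000000000000000000000000080000080000000800000000000000000 := rS 0xba4c48924aa9c42b34642182994b2023c8e89657 (k8 a4388 i489 a5679 a4662 a5034 a5251 i75 a451 (k8 i2970 i1617 a2010 a1949 i399 a5680 a5664 a5259 (k2 a440 i532 (k1 a4954 k0)))) (by decide +kernel)
def a5682 : PP 8 4 T 0x2000000000000000000000000000000000080000080000000000000000000000000 := rS 0x3914b11109ae08180d9043a83579750e297e05c9891299249e232a8cc8e393cc6404a71d12cea252c95d1f174fb2d2aa1 (k8 a5269 a5073 a5071 a414 a350 a930 a4388 a5251 (k8 i842 i1667 i489 a5679 a5030 a5034 a411 a4662 (k8 a401 a5681 i192 a5663 a5635 i759 a5664 a5671 (k8 a5259 a440 i998 a4430 i255 a3599 i532 a427 (k8 i925 a4362 a5656 a5047 a437 a5669 a464 a1007 (k4 a3812 a5647 a107 a5657 k0)))))) (by decide +kernel)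
def a5683 : PP 8 4 T 0x2000000000000000000000000000000405000000480115000000800000500000000 := rS 0x95ca1b1a3199c764ed3e22cc8ba7e3275 (k8 i1587 a411 a414 a350 a460 a3812 a36 i1910 (k8 a466 a463 i1146 i1145 i2242 a364 i803 a107 k0)) (by decide +kernel)
def a5684 : PP 8 4 T 0x2000000000000000000000000000000000000000880001020400800000000000000 := rS 0x728360ac34fa44b2172e9e4960f (k8 a5234 i73 a4662 i532 a4369 a5638 a110 a414 (k4 i374 a464 i468 a5660 (k1 a425 k0))) (by decide +kernel)
def a5685 : PP 8 4 T 0x2000000000000000000000000000001400001000480115000000804000100000000 := rS 0x8d0a758ba1d3f19 (k8 a411 a414 a3599 a350 i1587 a1002 a5635 a5683 k0) (by decide +kernel)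
def a5686 : PP 8 4 T 0x2000000000000000000000000000000000000400010108000400800000008000000 := rS 0x3906a02 (k4 a5034 i357 a4162 a5627 k0) (by decide +kernel)
def a5687 : PP 8 4 T 0x2000000000000000000000000000000000000000080008020400800000000000000 := rS 0x129043677328cc04590b974f24b (k8 i73 a4662 i532 a4369 a5638 a5034 i192 i75 (k4 i1628 a5686 i787 a5006 (k1 a5203 k0))) (by decide +kernel)
def a5688 : PP 8 4 T 0x2000000000000000000000000000000000000000080001020400800000000000000 := rS 0x66c1041112b9ad0e5d479e4525925a442f1961a7c6602 (k8 a5034 i192 a414 i374 a411 a4369 a110 i73 (k8 a5638 i255 a4662 i874 i532 a3599 a5684 a5687 (k4 a3812 a5685 a362 i730 (k1 a2993 k0)))) (by decide +kernel)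
def a5689 : PP 8 4 T 0x2000000000000000000000000000000000000000080001010000004000200000000 := rS 0x2405d1e4b1a414825772c5c6259 (k8 i543 a4387 a350 a46 a2991 i743 a5102 a429 (k4 i489 a4353 i1116 a440 (k1 a5260 k0))) (by decide +kernel)
def a5690 : PP 8 4 T 0x2000000000000000000000000000000000000000080005010000804000000000000 := rS 0x1ad0acd439759e26481dc2c192412e2e9f1880a3259 (k8 i543 a411 a5034 a4387 a414 a350 i489 a440 (k8 a2997 a5260 a5262 i1155 i1156 i2787 a172 a2722 (k4 i893 a177 i548 a460 k0))) (by decide +kernel)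
def a5691 : PP 8 4 T 0x2000000000000000000000000000000000000000080001000400800000000000000 := rS 0x2944a4a0b900ac212c9346602 (k8 a5034 i192 a5688 i543 a5689 a5690 a5648 a5019 (k4 a4066 a3344 a5647 a5654 k0)) (by decide +kernel)
def a5692 : PP 8 4 T 0x2000000000000000000000000000000000000000080000000400800000000000000 := rS 0x2515ca802 (k4 a5034 a5691 i53 a5663 (k1 i489 k0)) (by decide +kernel)
def a5693 : PP 8 4 T 0x2000000000000000000000000000000000000000080000010000800000000000000 := rS 0x4397446770b4411e85241662e9f8cc14d6cf1a9549657128c94acb010848c65 (k8 i75 a5692 i2970 a5034 a5071 i209 i1617 i2066 (k8 a5654 i489 a5680 a4377 i1145 i548 a451 a411 (k8 a414 a350 i543 a440 a1949 a4353 a362 a5260 (k4 a5262 a9 a172 a2722 (k1 a5683 k0))))) (by decide +kernel)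
def a5694 : PP 8 4 T 0x2000000000000000000000000000000000000000080000000000800000000000000 := rS 0x66a14ba5948930f24b2ba704aa53a8c843052346404cb (k8 a5071 a5034 a411 a5692 a451 i2970 i1617 i2961 (k8 i209 i2066 i399 a5654 i489 a4662 a5693 a110 (k4 a4652 i532 a1002 a2010 (k1 a4954 k0)))) (by decide +kernel)
def a5695 : PP 8 4 T 0x10002000000000000001000001000100000001010000080100020800000001500000008 := rS 0x17ebba7af68aa2a1a19041d0f8a4801a0c8c982c33f89c2ec74fb1456f01d8e46ea1 (k8 a5269 a446 a401 a5694 a419 a126 a49 a414 (k8 a2286 a4369 a1276 a5682 a354 i2971 i1617 i232 (k8 a437 a5047 i2063 i2061 i2543 a5594 i2032 a3610 (k4 i2030 a48 i1415 a20 (k2 i1683 i1719 (k1 a404 k0)))))) (by decide +kernel)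
def a5696 : PP 8 4 T 0x2100000000000000000000000000000018800000080015040014000100100000000 := rS 0x4945158d35587ca6b5659f54a258853d767f (k8 a5682 i1683 a20 a362 a38 a5647 a73 a5071 (k8 a1076 a334 i1435 a899 a5150 a4397 a5011 i1621 (k1 a115 k0))) (by decide +kernel)
def a5697 : PP 8 4 T 0x2100000000000000000000000040000010000000080015000010000100150000000 := rS 0x1589329aae290c6034cfeb5659f446a512c409ea1 (k8 a5269 a5051 a362 a38 a5647 a9 a73 a5071 (k8 a1076 a5682 a5150 i2030 a377 a5011 a1815 a383 (k2 a115 a4397 (k1 i1621 k0)))) (by decide +kernel)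
def a5698 : PP 8 4 T 0x2000000000000000000001000040000000010000080014020000000000024002000 := rS 0x3bf554ad0493ca6cb3f954ca41 (k8 i787 i75 i792 a5682 a5071 a1820 a5104 i1261 (k4 i1494 a4397 a97 i458 (k1 a4343 k0))) (by decide +kernel)
def a5699 : PP 8 4 T 0x10002100000000000000000000000000000008000000080114020400000000100000008 := rS 0x261fa97539c40e9b0f20c5a4f0ea8c68e5061ad16785bc5d3e7f54a25223d1f8456acb3e904301b19bc076391b8962055328c42e0f (k8 a5234 a4369 a4387 i75 i792 a362 a38 a446 (k8 a401 a5694 a419 i192 a5674 a437 i787 a73 (k8 a5071 a1076 a441 a6 a365 a110 a5039 a5029 (k8 a5682 a414 a350 i856 a3599 i1853 i547 a1189 (k8 a392 a429 a5032 a5698 a5051 i1040 a5696 a5697 (k8 i1074 a4364 i1356 i243 i1856 a2041 a5023 a5041 k0)))))) (by decide +kernel)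
def a5700 : PP 8 4 T 0x10002100000000000000000000000000000001000000080114020000000000100000008 := rS 0x44cf20d451a90e4752894467d3dc416acd659d496912a9944e1763a7c22f01d8e46e0f (k8 a5234 a446 a401 a5694 a419 a441 a414 a2286 (k8 a4369 a1276 i75 i792 a110 i489 i1587 a5071 (k8 a2010 a1076 a362 a1179 a73 a9 a38 a5647 (k8 a5695 a5699 a3812 i547 i467 i1853 a2915 a406 k0)))) (by decide +kernel)
def a5701 : PP 8 4 T 0x2000002001000000000001000000000005000000400115000000000000500000000 := rS 0x40a78919911 (k4 a3812 a460 a107 a36 (k2 a5006 a5596 k0)) (by decide +kernel)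
def a5702 : PP 8 4 T 0x10002000000000000000000000000000000001000000080114020000000000100000008 := rS 0xb536a70ea0e1a52279c532977e860827d4586e20bb3c2dc4b134308c66e55a9ac8f048ba7c627f3aaa5121748954ca8f1e8fc222b780ec7237 (k8 a446 a401 a5694 a419 a126 a441 a6 a365 (k8 i874 i75 i792 a110 a4369 a5039 a5029 i1587 (k8 a5682 a4387 a414 a350 a5700 a451 a464 a822 (k8 a3227 i192 a5635 a5701 a69 i927 i856 a3599 (k8 i1683 a107 a5674 i1853 a73 i787 a437 a5170 (k8 a5110 a5041 a4498 i789 a4394 a383 a334 a1820 (k4 a5258 a991 i1040 a5023 k0))))))) (by decide +kernel)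
def a5703 : PP 8 4 T 0x10002000000000000000000000000000000000000000080114020000000000100000008 := rS 0x29c5a07609bd550c4cbf49e9740adce2822987c34400e89146231a0cdcab523ab4ec7b82445082b1fbc22ecb188eceaa9448e46e912a9951ea1 (k8 a5269 i874 i75 i792 a110 a446 a401 a5039 (k8 a5029 i1587 a5694 a4387 a5071 a350 a419 a6 (k8 a126 a5702 a361 a1949 i1896 a466 a445 a451 (k8 a822 a3227 i192 a429 a5635 a5032 a107 i862 (k8 a5006 i803 a4367 a5254 a5594 a3218 a4635 i150 (k8 i1376 i789 a5189 a5041 a4371 a4420 a357 a1815 (k4 i458 i1119 a1825 a5164 k0))))))) (by decide +kernel)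
def a5704 : PP 8 4 T 0x20002000001000000000000000010000000018020000000000420000000000050000000 := rS 0x30a65a4fc40434e6a90b8ed16a1 (k8 a5269 a52 a411 a4369 a3454 a5036 a340 i1710 (k4 a4429 a377 i1864 a397 (k1 a5180 k0))) (by decide +kernel)
def a5705 : PP 8 4 T 0x20002200000000000000000000000000000000000000000014020000000002000000000 := rS 0x525087c3d5c8b62a073824d324e7e9f54ef1612ec554f432159a763aa5468311ba24321a0114c3e33201fc3ae525aa42e8f32ab4aa6b5a8ed2e9b1c9ed3a5d8ba7d16a1 (k8 a5269 a52 a33 a5415 i531 a347 a390 a42 (k8 a41 a71 a411 a822 a464 a72 a445 a63 (k8 i874 a4369 a3454 i73 a409 i862 i842 a5006 (k8 i287 a4367 a5254 a5079 i787 i181 a5039 a446 (k8 i1002 a429 a5055 i1061 i357 a1006 i1631 a460 (k8 a20 i927 i1683 i928 a5596 i332 a5704 a4395 (k8 a4394 a5041 a5112 i789 i1221 a117 i1239 i1407 (k4 a5642 a5023 a447 i375 (k1 a129 k0))))))))) (by decide +kernel)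
def a5706 : PP 8 4 T 0x22000000000000000000000001000000000000000000044a0000010000000000008 := rS 0x254e0fd5485ccab5 (k8 a822 a63 a4369 a3454 a74 i789 a5111 a4494 k0) (by decide +kernel)
def a5707 : PP 8 4 T 0x20002200000000000000000000000000000001000000000014020020000000100000000 := rS 0xfcfc279f50ca566b9054f11a99c66311ba24341d0108ca6271487d1ecb32ab48e5535ad4725d8ba7d1625 (k8 a5705 a52 a33 a5415 i531 a42 a822 a464 (k8 a72 a451 a445 a63 a385 i874 a4367 a443 (k8 a331 a5254 i185 a5079 i2543 i787 a5039 a446 (k8 i1002 i192 a5656 i356 a5674 a4118 a429 i888 (k4 a382 a460 a5704 a5706 (k2 a4530 a4500 (k1 a5657 k0))))))) (by decide +kernel)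
def a5708 : PP 8 4 T 0x20002202000000000000000000000000000000000000000014020000000000100000008 := rS 0x50cfc868808d2a3472b4a2a2d4c2ad5e61299cd521747b2caa6b4d9762e9f458951231328cc8e0f (k8 a5234 a451 i192 a63 i1002 a5039 a5705 a52 (k8 a33 a5415 i531 a41 a464 a72 a385 i874 (k8 a4369 a3454 a5036 a452 a397 a427 a97 a5121 (k8 i1000 a5447 a5011 a4206 a429 a5055 i247 a107 (k4 a3812 a4421 a133 a3705 k0))))) (by decide +kernel)
def a5709 : PP 8 4 T 0x2201000001000000000000000000000000000000000004420000020001000000008 := rS 0x4d8fc7678140814e2d424440e6f0fa1d550c668f49e182e904367511a8d22cb56954d6b54796512391ba5d32a90b9f502b7 (k8 a4402 a4475 a4358 a4369 a3454 a5041 a5110 a446 (k8 a401 a5039 a415 i874 a822 a464 a72 a445 (k8 a385 a110 a5032 i247 i1062 i356 i787 a5214 (k8 a437 a5104 a5522 a4529 a4371 a4420 a4530 a81 (k8 a357 i458 a3812 a460 i1039 a1825 a107 i1504 (k4 a1007 i255 i256 i1073 (k1 a5023 k0))))))) (by decide +kernel)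
def a5710 : PP 8 4 T 0x8002201000000000000000000000000000000040020000004020000000000000000000 := rS 0xdaa42eb5 (k4 a822 a4369 a3454 a3215 (k1 a4498 k0)) (by decide +kernel)
def a5711 : PP 8 4 T 0x2201000000000004000001000001001000000000040104440000000000000000000 := rS 0x43b34aa7d (k4 a4358 a72 a4529 a4530 (k1 a794 k0)) (by decide +kernel)
def a5712 : PP 8 4 T 0x2201000001000000000000000000000000000000000004420000000001000000008 := rS 0xf00d09cb84f38c653a6767c586a915a8dc62651991cfe55 (k8 a72 a4430 a451 i192 a63 i1002 a446 a822 (k8 a110 a5709 a429 a3326 a350 a399 a784 a5710 (k4 i789 a5711 a3002 a5214 (k2 a795 a5674 k0)))) (by decide +kernel)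
def a5713 : PP 8 4 T 0x2201000000000000000000000000000000000000000004420000000001000000008 := rS 0x1d171171128c3a2d039bc3eaa8613d4a0d1ab0442e4659556a8f2ca24623323a54ca935485d5aa1 (k8 a5269 a445 a4369 a3454 a5112 a63 a5111 a451 (k8 i192 i1002 a5039 a415 i874 a822 a72 a385 (k8 a5712 a46 a408 a364 a392 a382 a5706 a4371 (k8 a4420 a81 a357 i457 i1001 a4343 a1824 a3836 (k4 a5134 a5049 a5635 i1065 k0))))) (by decide +kernel)
def a5714 : PP 8 4 T 0x4002201000002000000000000000000000000000000000004820000004000000000008 := rS 0x13c4d9a7688b3c523a3aae05a912aad51e594a9952e894ca4d521756c35061d538f5460710b046aa518bc50ac32e8ac82c5069ac8e0f (k8 a5234 a451 a464 a392 a40 a5254 a5002 a5085 (k8 a468 a3924 a3227 a459 a382 a364 a408 a46 (k8 a5252 a1824 a5642 a5258 a1820 a334 a383 a445 (k8 a4369 a3454 a5112 a5041 a5040 a5110 a63 a5111 (k8 a415 i874 a822 a72 a110 i1001 a5049 i1066 (k8 a5658 i255 i1145 a3246 a466 i810 a1729 a1214 (k1 a127 k0))))))) (by decide +kernel)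
def a5715 : PP 8 4 T 0x2000000000000000000000000000000000000000000000820000000000000000004 := rS 0x1a61a0c85c9641 (k4 a5254 i73 a4369 a5067 (k2 a5074 a5147 (k1 a5539 k0))) (by decide +kernel)
def a5716 : PP 8 4 T 0x2201000002000000000000000000000000000000000004820000000000000000000 := rS 0x8b0d5829532a2526a90bab54633238b40407 (k8 a5252 a5715 i1001 a451 i192 a1824 a445 a4369 (k8 a3454 a5112 a5040 a63 a5111 a408 a364 a5714 (k1 a5134 k0))) (by decide +kernel)
def a5717 : PP 8 4 T 0x8002200000000000000000000000000001400000000000104000000101000204000000 := rS 0x431e4ea778cb3cce9d (k8 a399 a350 a368 a784 a332 i1499 a1030 a1005 (k1 a4927 k0)) (by decide +kernel)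
def a5718 : PP 8 4 T 0x8002201000000000000000000000000000000000000000004820000000000000000000 := rS 0x1a61f5288622b91aa456a8f4aa2526a956c343aa312964ba391991c5a0718994301b011042ea1 (k8 a5269 a4369 a5254 a5715 a5047 a437 a63 i1002 (k8 a5252 i1001 a451 i192 a401 a5085 a415 a5006 (k8 a1824 a1820 a383 a445 a3454 a5112 a5040 a5111 (k8 i874 a822 a110 a131 a465 a3208 a5717 a164 (k2 a5109 a5127 (k1 a377 k0)))))) (by decide +kernel)
def a5719 : PP 8 4 T 0x412001000001000001000000000400000008440000000000020001144144004000000 := rS 0x26c7eb71425d12995485c7691 (k8 a110 a990 a4369 a3454 a5041 a5040 a5110 a5195 (k4 i856 i257 a991 a5023 k0)) (by decide +kernel)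
def a5720 : PP 8 4 T 0x2201000000000000000000000000000000000000000004820000000000100000000 := rS 0x3cc65343f781f98e9f1d89d0d1342b3620912a9ad2e894caa42f0d41a9c7a2b2e8e46e2d0386c468f3a8d22e31328cc0447728948259 (k8 a415 a5254 a5006 a5716 a451 a5715 i192 a63 (k8 i1002 a5718 a429 i1062 i874 i247 a5047 a5252 (k8 i1001 a446 a401 a5085 a5002 a5642 a5258 a334 (k8 a383 a4369 a3454 a5041 a5040 a5110 a464 a72 (k8 a110 a107 a380 a361 a205 a3812 a1214 a990 (k8 i1183 i412 a5719 a5666 a6 a5023 a41 i1074 (k1 a3599 k0))))))) (by decide +kernel)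
def a5721 : PP 8 4 T 0x2202000000000000000001000000000000000000000004000010000000200000000 := rS 0x3f9f61853 (k4 a452 a5105 a340 a35 (k1 a4500 k0)) (by decide +kernel)
def a5722 : PP 8 4 T 0x4002200000001000000000000000400140008480100000000020001000100004000000 := rS 0x3cc65343f7831d3e3b6685d22552ea247237159046831328cc0447 (k8 a451 a5074 i192 a63 i1002 a429 i787 a5002 (k8 a446 a401 a5039 a5214 a72 a110 a4369 i129 (k8 a990 i1183 i412 a5666 a6 a5023 a41 i1074 (k1 a3599 k0)))) (by decide +kernel)
def a5723 : PP 8 4 T 0x2200000000000000000000000000000000000000000004020000000000204000000 := rS 0xfd36b71dc4cf0871e8b4fca703875070d292652efd8b9d5ca9154ad51e5d0c05d12391b8c40465158948259 (k8 a415 i787 a5006 a5002 a63 a5074 i1002 a446 (k8 a401 a5039 a4369 a437 a5214 i874 a822 a3454 (k8 a110 a46 i1499 a5717 a5721 a5110 a5041 a5713 (k8 a383 a334 a1820 a5252 a5258 a5103 i1040 a5642 (k8 a5722 a1007 a398 i1070 i1932 i1074 a1022 a5023 k0))))) (by decide +kernel)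
def a5724 : PP 8 4 T 0x2201000000000000000000000000000000000000000004020000000000004000000 := rS 0xa40212904b221 (k4 a5723 a415 i787 a5006 (k2 a5074 a5713 (k1 a5720 k0))) (by decide +kernel)
def a5725 : PP 8 4 T 0x102000000001000000400000015100004410080000011000000400004101100000100 := rS 0x11569a500e3506878440f (k8 a5234 a107 i1664 i2993 i247 a4364 a5106 a1719 (k2 a14 a5011 k0)) (by decide +kernel)
def a5726 : PP 8 4 T 0x102002000000000000400001011000004410080000010000000400004101100000000 := rS 0x3ac5d2b1469889c8a504985560f (k8 a5234 a97 a397 a369 a164 a5725 a5657 a4206 (k4 a5011 a14 a5136 i1667 (k1 a5635 k0))) (by decide +kernel)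
def a5727 : PP 8 4 T 0x2202000002000000000000000000000000080000000000000000000000500000000 := rS 0x2959647 (k4 a451 a385 a382 a5657 k0) (by decide +kernel)
def a5728 : PP 8 4 T 0x2200000000000000000000000000000000080000000004020000000000004000000 := rS 0x22d7ece3da653e951d8d1cb4f4ea1a2e2342b3620933e9cd22a90bb2d5a5535ad51e891899466471589482535793d562d3099e32fc10964045d (k8 a5214 a5074 a415 a5723 a5724 a5708 a5703 a397 (k8 i1000 a97 a74 a427 a452 i787 a5006 a5002 (k8 a451 i192 a63 i1002 a5039 i874 a822 a464 (k8 a72 a445 a385 a4369 a3454 a110 a5036 i101 (k8 i1638 a5726 a380 a361 a9 a3208 a3812 a4954 (k8 a20 a5727 a429 a990 a5055 i1183 a4524 i818 (k4 a463 a4525 i1979 a5199 k0))))))) (by decide +kernel)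
def a5729 : PP 8 4 T 0x2200000000000000000000000000000000000000000004020000000000004000000 := rS 0x440c7281da515492e52aa5889f0fe6716c65566129825f82112a24ba41011cd5217659955a475aa3cb20f (k8 a5234 a415 i874 a822 a451 a445 a63 a385 (k8 a4369 a3454 a5036 a5074 i787 a5214 a5039 a5006 (k8 a5723 a5724 a369 a452 a397 a97 a5708 i1000 (k8 a5703 a5728 a4395 a4421 i1326 i1598 i1330 a5050 (k4 a115 a5011 a402 a4206 (k2 a1719 a107 (k1 i1569 k0))))))) (by decide +kernel)
def a5730 : PP 8 4 T 0x2002000000000000400001010000000000020000000004000400000000808400000 := rS 0xf0740cd360834e841528c812ab86a8d420f (k8 a5234 a5269 i1594 a340 a97 a369 i272 i249 (k8 i184 i273 i1569 i2959 a5147 a1834 i1233 a377 (k1 a4364 k0))) (by decide +kernel)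
def a5731 : PP 8 4 T 0x2202000001000000000000000000000000040000000004020000000000000000000 := rS 0xba3a788dc72d20107e32332009122a947964431186874461a23ab596173e14d6aa1 (k8 a5269 a822 a452 a4395 a4369 a385 a445 a451 (k8 a5729 a5730 i1234 a340 a4421 a3230 a415 i874 (k8 a3454 a110 a107 a5006 i287 a5705 a4367 a5079 (k4 a377 a401 a446 a3219 (k2 a419 a761 (k1 a5617 k0)))))) (by decide +kernel)
def a5732 : PP 8 4 T 0x2202000000000000000000000000000000040000000004020000000000000000000 := rS 0x183ca506b05c81d11a8e1a7c0bb2d5a475a868125327aac1ea1 (k8 a5269 a5234 a97 a74 a452 a369 a5729 a822 (k8 a451 a445 a385 a4369 a4395 a340 i1594 a5730 (k8 i1234 a5731 a408 a392 a382 a4370 a1834 a4364 k0))) (by decide +kernel)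
def a5733 : PP 8 4 T 0x2202000000000000000000000000000000000000000004020000000000080000000 := rS 0x141e5331778a0d2a5d15a9cdc71441040e915485cb2550c9855e93399d59a85883944225119f834a1 (k8 a5269 a5729 a5732 a1765 i842 a3230 a5727 a107 (k8 a361 a380 a453 a5036 i1638 a427 a397 i44 (k8 a72 a415 a4369 a3454 a110 a4364 a4367 i270 (k8 i1357 i271 i2152 a5002 a5085 i1057 i2918 a2041 (k4 a3208 a4524 a5171 a3246 (k1 i275 k0)))))) (by decide +kernel)
def a5734 : PP 8 4 T 0x2202000000000000000000000000000000000000000004020000000000000000000 := rS 0xec66371c976320278901a41f42c41ca230e8961a7e48aa42e592388434a1 (k8 a5269 a5729 a3230 a451 a415 a4369 a3454 a110 (k8 a5732 a35 i842 i719 a1765 a5727 a107 a361 (k8 a5733 a377 a5147 a3219 a5079 a5707 a761 a401 (k4 a446 i192 a5617 a419 k0)))) (by decide +kernel)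
def a5735 : PP 8 4 T 0x10002200001001000000000000000000000000000000000100020020000000008000000 := rS 0x3a48aa42e391b8cc0447 (k8 a451 a5079 i192 a446 a401 a4369 a3454 a110 (k2 a419 a5617 k0)) (by decide +kernel)
def a5736 : PP 8 4 T 0x2200000000000000000000000000000000000000000104020020000000000000000 := rS 0x48b5a607609bd550c279c4f6843b1d50e34158fde07348b2d5a5535ad52e894caa42e1f0ca056e29118c4ca3323b95471912008a6fd10868b2a1 (k8 a5269 a415 a5729 a3230 a5734 a5720 a5079 a5713 (k8 a5705 i324 a409 a451 i192 a63 i1002 i185 (k8 a443 a4402 a4475 i44 a5016 a4369 a3454 a5041 (k8 a5040 a5110 a822 a464 a72 a445 a385 a110 (k8 a5036 a5735 a6 a126 a5612 i927 i1061 i357 (k8 a5701 i1896 a3218 i789 a4371 a4420 a357 a1815 (k4 i458 a5165 i1119 a3232 (k1 a1807 k0)))))))) (by decide +kernel)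
def a5737 : PP 8 4 T 0x2200000000000000000000000000000000000000000004020020000000000000000 := rS 0x916b4c0ec137aaa184f389d8682b1fbc0f65c8ca8c4833188084e2939a449659659955a472aad52e894caa42e1f0ca056e5310869faa1 (k8 a5269 a5734 a5729 a3230 a5720 a4402 a4475 i44 (k8 a5016 a4369 a3454 a5041 a5040 a5110 a822 a72 (k8 a451 a445 a63 a385 a415 i73 a110 a5036 (k8 a443 a331 a5079 i1002 i192 a5713 i324 a5705 (k8 a5736 i1892 a795 a6 a126 a5612 i357 a3218 (k8 i789 a4371 a4420 a357 a1815 i458 a5165 i1119 (k2 a3232 a1807 k0))))))) (by decide +kernel)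
def a5738 : PP 8 4 T 0x102200000000000001000000000000000400000000000105020000000041108000000 := rS 0x11b94180f (k4 a5234 a3129 a392 i1569 (k1 a107 k0)) (by decide +kernel)
def a5739 : PP 8 4 T 0x2200000000000000000000000000000000000000000004020000000000000000000 := rS 0x222cd4393cba2515904fa537e884348f5a9acaa59 (k8 a415 a72 a464 a822 i874 a5729 a3230 a5734 (k8 a5720 a4358 a5737 a5002 a5006 a5085 a5084 a4530 (k2 a4529 a3812 (k1 a5738 k0)))) (by decide +kernel)
def a5740 : PP 8 4 T 0x2100000000000000000000000000000400000000000020000000000000000000000 := rS 0xcd6867 (k4 i544 a4983 a4457 a5492 k0) (by decide +kernel)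
def a5741 : PP 8 4 T 0x2001000000000000000011000000004400010500010001460000000000000000000 := rS 0xc315381bcff0c4a9cd5217 (k8 a4369 a3454 a5036 a5111 a4371 a4430 a357 i2044 (k2 a2869 i1279 (k1 a5043 k0))) (by decide +kernel)
def a5742 : PP 8 4 T 0x2000000000000000800001040000000000140000800100440000000000000000000 := rS 0x5ba0d774f (k4 a394 i1946 a2892 a3009 (k1 a4396 k0)) (by decide +kernel)
def a5743 : PP 8 4 T 0x10002000000000000000000000000000000000000000450115020000000000000000000 := rS 0x3ca19224b66a14ef05 (k8 a5739 a4942 a1949 a2010 i73 a110 a460 a4519 (k1 a4927 k0)) (by decide +kernel)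
def a5744 : PP 8 4 T 0x12000000000000040000000040000500000402000001100420000000000008000000 := rS 0x22a7045aa42ea1 (k4 a5269 a4369 a3454 i1853 (k2 a5171 a5447 (k1 a4767 k0))) (by decide +kernel)
def a5745 : PP 8 4 T 0x10412000000000000040000010054000000000040400801105460000000041008000000 := rS 0x881e0d8dc96131e90e293ca6536834050d7eca39a459a85119d4967d5ac40b28f828869ebb (k8 i1946 a394 i783 a5739 a5213 a5740 a362 a444 (k8 a73 i73 a1851 i273 a1949 a2010 a110 a5036 (k8 a4397 a396 a105 a5742 a2892 a5364 i1864 a5744 (k8 i275 a4927 a406 a5516 i1893 i1894 i786 i1769 (k2 i1778 i2857 k0))))) (by decide +kernel)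
def a5746 : PP 8 4 T 0x2000000000000000000000000000000000000000050105020010000041008000000 := rS 0x8b4b8e50226438a4f2ca4ca547af1539b9100741878e3433f2ecd50d89c6556ad57985f8536980c9e915485c32cd4288cea4b3ead6205947a4c42775cc5a0aa1 (k8 a5269 a5739 a4379 a465 a4942 i783 a4788 a5213 (k8 a5740 a362 a444 a73 i73 a1851 i273 a1949 (k8 a2010 i44 a4369 a3454 a110 a5084 a5047 a5147 (k8 a5715 a5741 a397 a427 a420 a97 a5120 a4516 (k8 a4534 a5743 i1946 a5745 a133 i799 a897 i926 (k8 a4364 i270 i271 i2152 a2041 i2857 i1057 a3718 (k8 a5143 a5171 i275 a4927 a5516 a3721 i1876 i1323 (k2 a5033 a5172 k0)))))))) (by decide +kernel)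
def a5747 : PP 8 4 T 0x2000000000000000000000000000000000000000040105020000004041008000000 := rS 0x3da7d0f183cc49e2311b8e40429200ec327525a750acd489651e35329dd9f05 (k8 a5739 a4458 a4942 a5572 i356 a5213 a5740 a110 (k8 a2010 a1949 a4954 i73 a1851 i44 i394 a5746 (k8 a443 a5079 a401 a446 i1002 a5612 a5345 a3116 (k4 a419 a69 a33 a390 (k1 i2046 k0))))) (by decide +kernel)
def a5748 : PP 8 4 T 0x8002101000000000000000001000000004400010500010001020020010001400001000 := rS 0xe523a8d82d216c540e7037b2c9c7f4a92d52175c87ca61d448081ea1 (k8 a5269 a5234 a5079 a5039 i2543 a5254 a4367 a465 (k8 a4369 a3454 i73 a5111 a4430 a5741 i1389 i1272 (k8 i789 i1221 a2869 i1239 a5011 a5546 a99 a5162 (k2 a5134 a425 k0)))) (by decide +kernel)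
def a5749 : PP 8 4 T 0x2000000000000000000000000000000000000000040105020000004001008001000 := rS 0xde804a20cfca3609e9a43a16a961b1927abcc2097e08cea4b1a9f56b102ca3d26213bae62d0578adc72910f94c3a891b8c4044015195420f (k8 a5234 a5269 a5572 a5747 a5002 a5079 i1002 a446 (k8 a5039 i2543 a5254 a4367 a110 i295 i850 a126 (k8 a5739 a4379 a465 a4942 i783 a4788 a5213 a5740 (k8 a362 a444 a73 i356 i73 a1851 i273 a5748 (k8 a369 a397 a427 a74 a5120 a4534 a2241 i1000 (k8 a419 a377 i395 a44 a99 a4042 i2569 a5049 (k2 a4396 i1057 (k1 i1894 k0)))))))) (by decide +kernel)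
def a5750 : PP 8 4 T 0x2000000000000000000000000000000000000000040105020000004001008000000 := rS 0x1adcac70630de240151651f05 (k8 a5739 a5213 a5740 a5747 a5002 a126 i371 a5749 (k4 a342 a392 i468 a5553 k0)) (by decide +kernel)
def a5751 : PP 8 4 T 0x2000000000000000000000000000000000000000000105020000004001008000000 := rS 0x1d2011c0466 (k4 a5750 a5056 i1617 a5047 (k2 i2543 a5656 k0)) (by decide +kernel)
def a5752 : PP 8 4 T 0x2000000000000000000000000000000000000000000005020020408001008000000 := rS 0x22a2d3801d44ad86035824644b4c3a020f88cea4b1a9f56b108b8c5967f528842e662ca3e0aa1 (k8 a5269 a5739 a5213 a5740 a4457 a4369 i1612 a5647 (k8 a5682 a5242 i69 a360 a362 a444 a73 i356 (k8 i73 a1851 i273 a4367 a5079 i2543 a4042 a5039 (k8 i192 a193 a5076 a377 a1809 i2030 a5630 a5628 (k2 i1001 a117 (k1 a5011 k0)))))) (by decide +kernel)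
def a5753 : PP 8 4 T 0x2000000000000000000000000000000000000000000105020000000001008000000 := rS 0x17b455720507437eafd54bba7ab50c0c299ac064f209fc7666658c96a7d882750acd489651f05 (k8 a5739 a5213 a5740 a110 a2010 a1949 a4954 a362 (k8 a73 a444 a5751 a5242 a4457 i399 a5682 a5752 (k8 a5084 a5047 a5070 a5715 a5072 a460 i2965 a20 (k8 i1683 a4397 a367 a97 a106 a899 a4475 a5454 (k2 a381 i1986 (k1 a404 k0)))))) (by decide +kernel)
def a5754 : PP 8 4 T 0x2000000000000000000000000000000000000000020000000000000000000000000 := rS 0x33 (k2 a4414 a5572 k0) (by decide +kernel)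
def a5755 : PP 8 4 T 0x2000000000000000000000000000000000000000000004020000000000008000000 := rS 0x321d8c5e07801100b83512c40b28f25c14aa65 (k8 a5754 i792 a5739 i73 a5213 a5740 a362 a38 (k8 i356 a5753 a5085 a5086 i532 a761 i1002 a4662 (k2 a5612 a5752 k0))) (by decide +kernel)
def a5756 : PP 8 4 T 0x2000002000000000000000000000000000002000000004020000010000000000000 := rS 0x630dc86b23c5ccc8b4f9747231010cc47102ca3c96412ac14301b0bb141e65 (k8 a5754 a5234 a49 a4369 a5755 a437 a5739 i792 (k8 i787 i73 a3008 a5740 a362 a9 i232 a5074 (k8 i1002 a401 a5214 a3237 i1853 a5421 a350 i1617 (k4 i547 a429 a1105 a198 (k1 a392 k0))))) (by decide +kernel)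
def a5757 : PP 8 4 T 0x2000002000000000000000000000000000000000080004020000010000000000000 := rS 0x459aa300d10b0dc8478b9747231010cc47102ca3c96412ac14301b0bb141e65 (k8 a5754 a5234 a49 a4369 a5755 a437 a5739 i792 (k8 i787 i73 a3008 a5740 a362 a9 i232 a5074 (k8 i1002 a401 a5214 a350 i1617 a429 a1105 a46 (k4 a392 a5703 a198 a52 (k1 i547 k0))))) (by decide +kernel)
def a5758 : PP 8 4 T 0x2000002000000000000000000000000000000000000004020000410000000001000 := rS 0x283d21cd5138ca7986211c8dc6202158953a852eb35223311c40b28f25904301b0bb1d8a273c9dcaacf33c14ca0f (k8 a5234 a5754 a5739 a5757 a4458 i792 a4942 a5756 (k8 a76 a49 a27 a4369 a5755 a437 i787 i73 (k8 a3008 a5740 a362 a9 i232 a110 a2010 a5214 (k8 a1949 a4954 a5006 a5002 a5074 i1002 a446 a401 (k8 a4692 a276 i2035 a33 a2278 a5743 a4927 a406 (k2 a5516 i1889 k0)))))) (by decide +kernel)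
def a5759 : PP 8 4 T 0x2000002000000000000000000000000000000000000004020000410000000000000 := rS 0x464d6e5238319e67089553a852eb352259478602e4b2086e0a65 (k8 a5754 a5739 a5755 i787 i73 a4369 a437 a3008 (k8 a5740 a110 a2010 a5214 a1949 a4954 i792 a441 (k8 a5757 a4458 a5758 i26 a392 i467 a5611 a5743 k0))) (by decide +kernel)
def a5760 : PP 8 4 T 0x20802000000000000005000000000001001401000500000000000000000000000000000 := rS 0x3ca1d3e7b (k4 a390 a33 a69 a398 (k1 i2046 k0)) (by decide +kernel)
def a5761 : PP 8 4 T 0x2000000000000000000000000000000008000000000004020000000008000000000 := rS 0x80aa59478602e4b2086e0a65 (k8 a5754 a5739 a5755 i787 i73 a4369 a437 a3008 (k4 a5740 i792 i737 a5530 k0)) (by decide +kernel)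
def a5762 : PP 8 4 T 0x2100000000000000010000000004000040000000040100000000410020400000008 := rS 0x638446265 (k4 a5754 i1002 i1835 i258 (k1 a4810 k0)) (by decide +kernel)
def a5763 : PP 8 4 T 0x2000000000000000000000000000000000000000040004020000410000000000000 := rS 0x873c8985313629a99e77159d53a852eb352223881651e180b92c825582a2d3e7b8c3c46e390106c1e65 (k8 a5754 a5234 a5755 a5074 a401 a446 a5759 a419 (k8 a390 a33 a52 a5739 i792 i787 i73 a4369 (k8 a437 a3008 a5740 a362 a9 a110 a2010 a5214 (k8 a1949 a4954 a1851 a5002 a4942 a4458 a4448 i1790 (k4 a5760 a5762 a127 i1767 (k2 a5761 i2046 k0)))))) (by decide +kernel)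
def a5764 : PP 8 4 T 0x2000000000000000000000000000000000000000000004020000410000000000000 := rS 0x31c222813c4d8a0d4330dc86b23c5ccc8b8c3c4ba391b8c4042b66a146623881651e4b209560a180d85c1e65 (k8 a5754 a5234 a4369 a5755 a437 a5739 i792 i787 (k8 i73 a3008 a5740 a362 a9 i232 a1949 a2010 (k8 a5002 a5074 i1002 a446 a401 a5214 a5759 a419 (k8 a52 a5763 a350 i1617 i547 a429 a1105 a460 (k8 a392 a40 a69 a5761 a127 i1835 i258 a132 k0))))) (by decide +kernel)
def a5765 : PP 8 4 T 0x2000001000000000000000000000100000000000000004020004400000000000000 := rS 0x2a80c5304a99fa8965a6c5a971e8a04e2b89a18d68b8c0dc7202669750a1d0611dcaa33ead620552ca3c30172590436661a4141e65 (k8 a5754 a5234 a5739 a5764 a4378 a5755 i787 i73 (k8 a4369 a437 a3008 a5740 i792 a362 a444 a73 (k8 a5032 a364 a4377 a425 a5698 a1949 a5214 a2010 (k8 a5074 a401 a446 a419 a52 i547 a460 a69 (k8 a5002 a5761 a127 i1840 a71 i1040 a828 a5241 (k8 a5039 a5121 a5023 a434 a5258 a1825 a5159 i458 k0)))))) (by decide +kernel)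
def a5766 : PP 8 4 T 0x2000000000000000000000000000200000000000000004020000020000000000000 := rS 0xaa56bf0a66154b2cfe4f0e8308ee5519f56b102a9651e180b92ccd052086c1e65 (k8 a5754 a5234 a5755 i787 a5739 a4378 i73 a4369 (k8 a437 a3008 a5740 i792 a362 a444 a73 a5032 (k8 a364 a4377 a425 a5698 a5051 a5682 a5241 a3454 (k4 a448 a5257 a5041 i1622 (k2 a4397 a97 k0))))) (by decide +kernel)
def a5767 : PP 8 4 T 0x2000001000000000000000000000000000000000000004020000400000000000000 := rS 0x156a45ed154e3e7eb098b4f431ad17182a9747237010ad9a852ca3c30172590436e56599a0ac74c8d01e65 (k8 a5754 a5234 a5764 a5766 i412 a5739 a4378 a5241 (k8 a364 a5755 i787 i73 a4369 a437 a3008 a5740 (k8 a1949 a2010 a5002 a5074 a446 a401 a5214 i792 (k8 a419 a52 i547 a460 a20 i1524 a379 a5121 (k4 a5765 i140 a80 i1412 (k2 i375 a2427 (k1 a5549 k0))))))) (by decide +kernel)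
def a5768 : PP 8 4 T 0x400000000000004002000000000000000000010000005800000000000000000000000000000000000000 := rS 0x19f19 (k2 a41 i1151 (k1 a463 k0)) (by decide +kernel)
def a5769 : PP 8 4 T 0x2001000000000000000000004000000000000000000004020000400000000000000 := rS 0x5304a9936b9448e46e024ea462ecb4f8b43aa33ead620664c8f47f4f431ac22f00611dca342ab34ba852ca3c304b2086e0a975485cca0f (k8 a5234 a5754 a4369 a3454 a5110 a5739 a5755 i787 (k8 i73 a437 a3008 a5740 a1949 a5214 a2010 i792 (k8 a5764 a364 a4377 a425 a5767 a441 i467 a460 (k8 a20 a6 a365 a5766 a4378 a362 a444 a73 (k8 a5032 a5698 i1040 i1183 a5241 a131 a110 a4954 (k8 a5074 a446 a401 a5039 a4426 a5768 a5023 a434 (k2 a5258 a5159 k0))))))) (by decide +kernel)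
def a5770 : PP 8 4 T 0x2001000000000000000000000000000000000000000004020000400000000000000 := rS 0x5326c0ebf5525d52891c8dc049d48c5d3e2d0ea8cfab588199323d62d3d0c6b08bc01847728d0aacd2ea14b28f0c05c96410dc14ca0f (k8 a5234 a5754 a5739 a5755 i787 i73 a4369 a437 (k8 a3008 a5740 a1949 a5214 a2010 i792 a5764 a364 (k8 a4377 a425 a5767 a441 i467 a460 a20 a49 (k8 a365 a5766 a4378 a362 a444 a73 a5032 a5698 (k8 i1040 i1183 a131 a110 a4954 a5074 a446 a401 (k8 a5039 a3454 a5110 a5769 a367 i458 a1490 a5024 (k1 a1825 k0))))))) (by decide +kernel)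
def a5771 : PP 8 4 T 0x2000000000000000000000000000000000000000000004020000400000000000000 := rS 0x55ab4a6fc27874fe0c3332c8ee5518d0fab5881651e180b92c821b2ac141e65 (k8 a5754 a5234 a5739 i792 a5755 i787 i73 a4369 (k8 a437 a3008 a5740 a362 a444 a73 a5764 a5032 (k8 a364 a4377 a5241 a4378 a425 a5682 a5698 a5051 (k4 a5770 a452 a420 a97 (k1 a4397 k0))))) (by decide +kernel)
def a5772 : PP 8 4 T 0x2002000000000000000000000000020000000000000004020000000000000000000 := rS 0xcb3fa04df15399d4d5193b99d5e4f56aacf513669f4a6855ac40b28f0c05c965582975223a159043665 (k8 a5754 a5755 i787 a5002 a5771 a110 a5214 a5739 (k8 i792 i73 a4369 a437 a3008 a5740 a362 a444 (k8 a1949 a452 a73 a2010 a4516 a203 a97 a420 (k8 a74 a427 a5694 a4942 a411 a5743 a1851 a5036 (k4 a14 i1057 i1894 a3171 (k2 a5742 a4397 k0)))))) (by decide +kernel)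
def a5773 : PP 8 4 T 0x12000000000000000000000000080000000000000000000000000000000510000000 := rS 0x3f07da6a1 (k4 a5269 a99 i240 a263 (k1 a1066 k0)) (by decide +kernel)
def a5774 : PP 8 4 T 0x2002000000000000000000000000000000000000000004020000000000000000000 := rS 0x182a3652545a1d52c349eaf3094c1289189f56a238829c528315bc52237012a5731610835863535464ce3a2e9651e180b92c821b829541e65 (k8 a5754 a5234 i792 a5739 a5755 i787 i73 a4369 (k8 a437 a3008 a5740 a5214 a5771 a5694 a411 a5743 (k8 a4378 i373 i468 a4692 a4379 a465 a3454 a5074 (k8 a446 a110 a333 a5002 a5347 i255 a5030 a362 (k8 a9 a444 a73 i1002 a5039 a369 a452 a397 (k8 a427 a74 a4534 a2241 a4362 i1000 a5772 a5143 (k2 a5773 i1246 (k1 a5156 k0)))))))) (by decide +kernel)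
def a5775 : PP 8 4 T 0x2001000000000000000011000000004000010500000000420000000000004000000 := rS 0x279551e180b92c8265 (k8 a5754 i787 i73 a4369 a437 a3008 i792 a5104 (k1 a5741 k0)) (by decide +kernel)
def a5776 : PP 8 4 T 0x12001000000000000000010001140004010000000000000000000015000112000000 := rS 0x3ed34a8b54265 (k4 a5754 a5269 i1040 a5111 (k2 a5127 a5109 (k1 a377 k0))) (by decide +kernel)
def a5777 : PP 8 4 T 0x2100000000000000400000000200000000000000000000000000000000000001000 := rS 0x11dca0f (k4 a5234 a382 i209 a425 k0) (by decide +kernel)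
def a5778 : PP 8 4 T 0x2000000000000000000000000000000000000000000004020000000000000000000 := rS 0xa352b2c3b0d293f4420d5cb0e2c77498d4d4678c8e866235a9f620752ca3c62890c17482020daa4ab052585c1e65 (k8 a5754 a5234 a4369 i73 a5739 i792 a3454 a5755 (k8 a5074 i787 a5214 a437 a5039 i1002 a3008 a5740 (k8 a1851 a362 a73 a444 a9 i232 a5771 a411 (k8 a5694 a5743 a4378 a4788 a4942 a4379 i373 a465 (k8 i468 a4692 a5774 a5775 a383 a1820 i621 a5777 (k2 a5773 a5776 k0)))))) (by decide +kernel)
def a5779 : PP 8 4 T 0x5002000000000000000000010000404140010000000880000000001140100000000000 := rS 0xfa329b452769e3b (k8 a5694 a394 a4411 i547 a5768 a52 a5023 a4249 k0) (by decide +kernel)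
def a5780 : PP 8 4 T 0x14002100000000000000000000000004000000000000400005800000400000080000000 := rS 0x19c9a430fcba277825d1299539ec2c77390b4df0d0e8e46e0220b350a592412c9a65 (k8 a5754 a5778 a5250 a440 i869 a1949 a2010 a5254 (k8 a5053 a446 a401 a1820 a383 a4392 a5442 i828 (k8 a5262 a5260 a418 a5258 a5257 a5256 a5255 a419 (k4 a135 a172 a6 a460 (k2 a5125 a2722 (k1 i2793 k0)))))) (by decide +kernel)
def a5781 : PP 8 4 T 0x2100000000000000000000000000000000000000000004800001008000000000000 := rS 0x9e2686789747c294dc60d61e2a8ec429f3345d2e99538acee391b80882b951b4a2a72448b4df0d0eb350a592412c9a65 (k8 a5754 a5778 a5250 a440 i869 a1949 a2010 a1820 (k8 a383 a4392 a5442 a5256 i828 a103 a5011 a99 (k8 a171 a5254 a5053 a446 a401 a5262 a5002 a5258 (k8 a5257 a5255 a360 a4457 i1712 i1611 a5694 i1619 (k8 a5697 a5779 a5780 a41 a5020 a5023 a5087 a6 (k4 a460 a69 i737 a127 k0)))))) (by decide +kernel)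
def a5782 : PP 8 4 T 0x2101000000000000000000000000004000000000000004800000000000000000000 := rS 0x2696e862ec653a67359559f16062a95ae5a1a912e9953a5552391b8c4044165ae5a515392245a6f868759a851aa3cb2162412c9a331e81cca0f (k8 a5234 a5754 a5252 a5642 a5781 a5778 a5250 a440 (k8 a5260 i869 a4353 i1116 a1949 a2010 a1820 a383 (k8 a4392 a5442 a5256 i828 a103 a5011 a171 i621 (k8 a5254 a5053 i1002 a446 a401 a5244 a5111 a5258 (k8 a5257 a5255 a5127 a129 a382 i1286 a5549 a5777 (k8 a447 a3326 i831 a5552 a350 a399 a5604 a172 (k4 a460 a1497 a5113 i1180 k0))))))) (by decide +kernel)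
def a5783 : PP 8 4 T 0x2101000000000000000000000000000000000000000004800000000000000000000 := rS 0x13c4d0c5d14a6de26b62884aa471d835869f721995917490cc6a8566a3d52974ca9c7a0715858ee591c8dc620220ae582d28a9c9122d37920964d868741e65 (k8 a5754 a5234 a1820 a383 a5778 a5250 a440 a4392 (k8 a5442 a5256 i828 a103 a5011 a44 a171 a5254 (k8 a5053 i1002 a446 a401 i869 a5262 a5260 a5002 (k8 a5252 a5642 a5258 a5257 a5255 a5244 a4353 a2010 (k8 a1949 i1116 a5781 a5782 a19 a5112 a4788 a1020 (k8 i1718 a1105 i1493 a5694 i1617 i1619 a46 a40 (k8 a5779 a198 a828 a5020 a5087 a460 a69 i737 (k1 a127 k0)))))))) (by decide +kernel)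
def a5784 : PP 8 4 T 0x2001000000000000000000000000000000000000000004800000000000000000000 := rS 0x3c07c3b5f09d769aa7a18bb1942b359f1033b9686a419a4c6a21359548ead823497315188dc722d392d4b2020b1bc4a4853a6512972092d521d41c349a65 (k8 a5754 a5778 a383 a334 a1820 a5244 a5250 a5254 (k8 a5255 a5256 a5257 a5258 a440 a5052 a4392 a5260 (k8 a5053 i869 i2599 i828 a5442 a401 a446 i1002 (k8 a103 a171 a5011 a5783 a445 a451 a72 a464 (k8 a5102 a5181 a5112 i192 a5127 a129 a382 a5647 (k8 a164 a3326 a380 a361 a3410 a172 a460 a20 (k8 a5113 i1684 i737 a5364 i1156 i1451 a419 a6 k0))))))) (by decide +kernel)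
def a5785 : PP 8 4 T 0x1000000000000112201000001000000040000000100000000400000000004000020000040000000040 := rS 0x186f1662147d1240adca6592a87c4ea1 (k8 a5269 a331 a4367 a72 a415 a5784 a4402 a4475 (k4 a462 a3061 a77 a143 (k2 a6 i375 (k1 a3736 k0)))) (by decide +kernel)
def a5786 : PP 8 4 T 0x102201000000000000000010000000000000000408040004008000004000010000008 := rS 0x33cf0cd4121d8e7415b944834a2a957742269f4d6b518a4d52ad0c08c42a33f9540e4e29b05a50d0f900caa1 (k8 a5269 a5754 a5046 a4367 a357 a377 a44 a5784 (k8 a4371 i1221 a72 a4430 a263 i743 i185 i1045 (k8 a445 a5029 a5112 i1002 a5492 a464 a4358 a5778 (k8 a403 a86 a129 a1010 a5127 a4479 a364 a4505 (k8 i349 i2240 i927 a5785 i894 i1440 i1068 a4473 k0))))) (by decide +kernel)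
def a5787 : PP 8 4 T 0x2200000000000000000010000000000000800508040000010000000000000000000 := rS 0x13e9d45b3cf09a (k4 i1439 i1440 i1151 i1854 (k2 i1858 i1075 (k1 a4417 k0))) (by decide +kernel)
def a5788 : PP 8 4 T 0x2201000000000000000010000400000010000408040004008000004100000000008 := rS 0x9f4ea2d9e783db1c742a1fd1136835244ceb101e81da44e0ec3502b73f94c72370d9352e9954a44301f10900aaa1 (k8 a5269 a72 a5046 i743 a4367 i1045 a102 a5029 (k8 a5041 a5110 a5778 i189 a446 a401 a5784 a4430 (k8 a4402 a4475 a357 i1231 a4371 a377 i1221 a335 (k8 a5786 a453 a205 a4042 a5787 a991 a462 a80 (k8 a3061 a5023 i414 i811 i388 i1146 i492 i1858 (k2 i1075 a4417 k0)))))) (by decide +kernel)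
def a5789 : PP 8 4 T 0x2201000000000000000010001008400040000000041000000000000000000000000 := rS 0x17b45a1afd5caa49a652e9565ab4d665 (k8 a5754 a464 a445 a385 a5111 a5110 a5041 a5112 (k4 a5050 a5022 a367 a106 (k2 a381 i1986 (k1 a856 k0)))) (by decide +kernel)
def a5790 : PP 8 4 T 0x2202000000000000000010001000014000000000040000000000000000000000000 := rS 0xab30b2d5a65 (k4 a5754 a445 a385 a397 (k2 a97 a5050 k0)) (by decide +kernel)
def a5791 : PP 8 4 T 0x12001000000000000000010000108004000500000000000008400000040140000048 := rS 0x1a30c3a3e0c100663144aa42eb729a8d4265 (k8 a5754 a5269 a1824 a5250 a4402 a2996 a3454 a5040 (k8 i1002 i192 a5046 i1045 a3061 i742 i375 a5776 (k1 i1184 k0))) (by decide +kernel)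
def a5792 : PP 8 4 T 0x2000000000000000000000000000000000000008002000000000000000040000004 := rS 0x1a61d160661aa1 (k4 a5269 a357 a5091 a5026 (k2 i1232 a329 (k1 a377 k0))) (by decide +kernel)
def a5793 : PP 8 4 T 0x400000000000812201000000000000000001000000000000010000000000400000000000000000000 := rS 0x1fe2255 (k4 a72 a205 a4430 a403 k0) (by decide +kernel)
def a5794 : PP 8 4 T 0x2001000000000000000010000008004000400008000000008400000040100000008 := rS 0x1ac4a0c550d60a7d72d0d48232ca5d12995485c72370c32d6a311999d4e872ec487c81038745a4e0f9021ab72983d4265 (k8 a5754 a5269 a5234 a5250 a4402 a357 a5046 a4367 (k8 a4371 i2723 i1231 i1221 a4475 a3061 a1022 a5 (k8 a69 a1825 a414 i193 i1002 a5384 i1389 i1045 (k8 a446 a401 a2996 a3454 a5041 a5040 a5110 a4384 (k8 i184 a5791 a129 a382 i1325 a5793 a4378 a5549 (k4 a5777 i348 a5552 a5613 k0)))))) (by decide +kernel)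
def a5795 : PP 8 4 T 0x2000000000000000401010000040010010000408000000000800001100002000000 := rS 0x14a35 (k2 a4377 i209 (k1 a5157 k0)) (by decide +kernel)
def a5796 : PP 8 4 T 0x2001000000000000000010000008004000400008000000008000000040000000008 := rS 0x3086ac782b9440473b9750e3a893c47d4f8ca5512a90ba056e391b8618a291381d964e29ad4623333b0546d20e8b61a1f2003d4265 (k8 a5754 a5269 a5234 a5046 a4367 a357 i2723 i1231 (k8 a377 a99 a44 a414 i193 i1002 a5384 a5250 (k8 a4371 i1389 i1221 a331 a443 i1525 i1045 a446 (k8 a401 a4402 a4475 a2996 a3454 a5040 a5111 a33 (k8 a26 a3061 a6 a1022 a419 a69 a5 i1715 (k8 a5795 a5794 a46 a3811 i1690 a4378 a379 i373 k0)))))) (by decide +kernel)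
def a5797 : PP 8 4 T 0x2000000000000000001010000048010010000008000000000000001180002000000 := rS 0x94e835109e186c5 (k8 i1525 i2222 i388 i903 i1184 i1075 i348 a5161 k0) (by decide +kernel)
def a5798 : PP 8 4 T 0x2001000000000000000010000008004000000008000000008000000000000000008 := rS 0x108946a74781e1042b51b05a41d869669e8548a5512a90b8605ab5188ccce1f149014265 (k8 a5754 a5269 a5046 a443 a4367 a414 i193 i1002 (k8 a5384 i2723 i1045 a2996 a3454 a5040 a5111 a102 (k8 i1606 a26 a4384 a357 i1231 a377 a44 a99 (k8 a5797 a5796 i1440 a1898 i1075 i2750 a5596 i1499 (k1 a5161 k0))))) (by decide +kernel)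
def a5799 : PP 8 4 T 0x2001000000000000000000000008000000800004000000008000000000000000000 := rS 0xae5588c1572863a26cf08b3dc4d225933c64e31430aa42e65 (k8 a5754 a2996 a3454 i1047 a5043 a117 a33 a414 (k8 a4384 a102 a68 i815 i492 a406 i1073 i1075 (k4 i1076 i2751 a5789 a453 (k2 i1539 a387 (k1 a362 k0))))) (by decide +kernel)
def a5800 : PP 8 4 T 0x2001000000000000000010000008000000002004000000008000000000000000000 := rS 0x2b9562305431d1368b2c9355217339850665 (k8 a5754 a5799 i1047 a414 a2996 a3454 i73 a4384 (k8 i1854 i1074 i1075 i1076 a5789 a453 i1539 a387 (k1 a362 k0))) (by decide +kernel)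
def a5801 : PP 8 4 T 0x1000000000000002000000000000000000100008008010000000000000000000000000000000000000 := rS 0x286bf (k2 a367 a106 (k1 a856 k0)) (by decide +kernel)
def a5802 : PP 8 4 T 0x12001000000000000000010001140004000000000000000008000014000100000048 := rS 0x3a18200c51265 (k4 a5754 a5040 i1002 a5046 (k2 i1045 i742 (k1 a5776 k0))) (by decide +kernel)
def a5803 : PP 8 4 T 0x2001000000000000000000081008400000000000001000000000400010002000000 := rS 0x72378ca5d1299 (k4 a5041 a5040 a5110 a33 (k2 i2722 i234 (k1 a5174 k0))) (by decide +kernel)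
def a5804 : PP 8 4 T 0x802000002000000000000000000000000000000000000000000020000000000000040 := rS 0x75065d (k4 a5 a68 i742 a5594 k0) (by decide +kernel)
def a5805 : PP 8 4 T 0x2000000000000000000000000000000000000000040000020000000000000000000 := rS 0x56 (k2 a5778 i529 k0) (by decide +kernel)
def a5806 : PP 8 4 T 0x10802001000000000000000000000000000010000000000000000020440000000000040 := rS 0x703e7887d6e5340a0c56a1 (k8 a5269 a378 a68 a45 a5254 a4402 a4367 a5804 (k2 a3061 a419 (k1 i296 k0))) (by decide +kernel)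
def a5807 : PP 8 4 T 0x2002000000000000000000010000000004410050400000000002000000000400000000 := rS 0x66b4399c4de75 (k4 a5261 a4392 a117 a103 (k2 a1698 a4018 (k1 a5492 k0))) (by decide +kernel)
def a5808 : PP 8 4 T 0x802000000000000000000020000000000400000400041000002000000000000000000 := rS 0x20910 (k2 a2352 a4425 (k1 a205 k0)) (by decide +kernel)
def a5809 : PP 8 4 T 0x802000000000000000000004081008150000100050001000000000000000000000084 := rS 0x1cac761b020a46562ad7ab94d1bcf64825a2870f11b8414d4f8c934ce93628ee8acb41974f27743a3d2265 (k8 a5754 a113 i1187 a69 i1715 a398 a5 a68 (k8 a551 a381 a5034 i1526 i1718 a414 a5805 a33 (k8 a26 i460 i459 i1916 a441 a419 i1873 i491 (k8 a440 a418 a4392 i2045 a5808 i1417 a5801 a5050 (k4 a5135 a445 i1225 a354 (k2 a4518 a408 (k1 a379 k0))))))) (by decide +kernel)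
def a5810 : PP 8 4 T 0x802001000000000000000000081008000000000000001000000020000000000000004 := rS 0xd82b18609b5ca2c6c2d0399e32954ba25323b5ba04a67338c501e65 (k8 a5754 a5234 a5043 a117 a103 a5254 a4475 a4402 (k8 a5034 a5041 a5040 a5110 a5111 a33 a414 a5809 (k8 a3572 a5806 a4382 i2669 i994 i996 i997 a5789 (k2 a342 a2643 k0)))) (by decide +kernel)
def a5811 : PP 8 4 T 0x2100000000000000000000000008000000000000000000000000080000000000000 := rS 0xc630c01e65 (k4 a5754 a5234 i996 i997 (k2 a2643 a342 k0)) (by decide +kernel)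
def a5812 : PP 8 4 T 0x2002101000000000040000014000008400010140000000000000024000040400000040 := rS 0x2492cfa6f862083a1f499dc9a8f8b19d4265 (k8 a5754 a5269 a414 a4379 a123 a5805 a4251 a4788 (k8 a4367 i742 a3061 a377 i1439 a340 a5799 a5807 (k1 a440 k0))) (by decide +kernel)
def a5813 : PP 8 4 T 0x2002101000000000040000014020008000000140000000000000024000040000000040 := rS 0x4b2b9d0de7d862083a1f499dc9a595a8cd1f16339c54265 (k8 a5754 a5269 a117 a414 a4379 a123 a4457 a5492 (k8 a4983 a5805 a4251 a4788 a4367 i742 a3061 a377 (k4 a340 a357 a1698 i1581 (k2 a5799 a1851 k0)))) (by decide +kernel)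
def a5814 : PP 8 4 T 0x2101000000000000000014001008800000100000001000000000000000000002044 := rS 0x1e0ea86883350a912b974aa18208acd6f0088fcfe236034d58ab5ed1632933b934b2b519a3e2ccb538f52b141db14ce65 (k8 a5754 a414 a5141 a5034 a5043 a5111 a5642 a1825 (k8 i465 a4379 a123 a4457 a5492 a4983 a5805 a4251 (k8 a4788 a33 a111 i1417 a5801 a5050 a5014 i1493 (k8 i2950 i2928 i1426 a2230 a442 i467 a126 a5813 (k8 a5045 i1490 a5062 a5066 i1168 a1949 a2010 a362 (k4 a460 a453 a4927 i1075 k0)))))) (by decide +kernel)
def a5815 : PP 8 4 T 0x2101000000000000400014001008400000100000001000000010000000000002004 := rS 0x15e22ac3a2acde7d5ec30d68389844f4281c5155c7f4594c94550c4652677268dcb2b519a3e2c674aa5d129938c507665 (k8 a5754 a5034 a5043 a117 a5041 a5040 a5110 a5111 (k8 a414 a4379 a123 a4457 a5492 a4983 a5811 a5805 (k8 a4251 a4788 a33 a5045 i1490 a5067 a5250 a5064 (k8 a4430 a5022 a381 a5174 a5803 i235 i1873 a54 (k8 i816 i467 a462 i1986 a340 a357 a5801 a1698 (k4 a5050 a453 i1581 a362 k0)))))) (by decide +kernel)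
def a5816 : PP 8 4 T 0x2101000000000000000014005008000000100000001000000000000000000002044 := rS 0x24a40707d150fe187f6034d58933b9346e8f8b29c7a2d4aa5d12998a0ed8a670f87446404db2d4265 (k8 a5754 a5269 i465 a5814 a5815 a5077 i742 a4367 (k8 a414 a5141 a5034 a5043 a5041 a5040 a5110 a5111 (k8 a3572 a5642 a1825 a4379 a123 a5811 a5805 a4251 (k8 a4788 a5050 a5014 i1493 i2928 a377 i1426 a5812 (k4 a340 a5023 i295 a5807 (k1 a5259 k0)))))) (by decide +kernel)
def a5817 : PP 8 4 T 0x2001000000000000000004001008400000500000001000001020440000001000040 := rS 0x2b1f8e15c8b0d05c94918c934ce9744a643ea1 (k8 a5269 a4367 a5041 a5040 a5110 a414 a5805 a33 (k8 a5259 a440 i739 a437 a4110 a5022 a5174 i296 (k2 i295 a3061 k0))) (by decide +kernel)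
def a5818 : PP 8 4 T 0x2101000000000000000014001008000000100000001000000000000000000002044 := rS 0xfa1a2b3f058907d41aaa26230c94c3e404dd3e32933b9346eb519a3e2c6765a2628bb4a8ed4265 (k8 a5754 a5269 a5034 a5111 i1685 a5043 a5040 i465 (k8 a414 a4379 a123 a4457 a5492 a5811 a5805 a4251 (k8 a4788 a33 a26 a5814 a5815 a4367 a5254 i180 (k8 a5077 a5806 a5816 a899 i1596 a5817 a5260 a5807 (k4 i899 a35 a3061 a1022 k0))))) (by decide +kernel)
def a5819 : PP 8 4 T 0x2000000000000000000000000000000000000000001000810000000000000000000 := rS 0x924b (k2 a5250 i829 (k1 a440 k0)) (by decide +kernel)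
def a5820 : PP 8 4 T 0x2101000000000000000014001008000000100000001000008000010000000002040 := rS 0x30874f11f0ad06790fb14de40188e404938a53e323763b954265 (k8 a5754 a5269 a392 a342 a5811 a33 a26 a5043 (k8 a115 a5818 a401 i1002 a5046 a5798 i1525 a4367 (k8 a5800 a5799 a4470 a3061 a6 a419 a379 i373 k0))) (by decide +kernel)
def a5821 : PP 8 4 T 0x400000000000000002000000000000000010000000000000000000000000000000000810000000002000 := rS 0x61bc58ee5 (k4 a392 a342 a333 i373 (k1 a379 k0)) (by decide +kernel)
def a5822 : PP 8 4 T 0x2000000000000000000000000000000000080000000000000020000000000000080 := rS 0x1d86b4c3ea1 (k4 a5269 a4364 a402 a35 (k2 i2495 a377 k0)) (by decide +kernel)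
def a5823 : PP 8 4 T 0x2002101000000000000000011000008000000010400000000008000010000000002088 := rS 0xab113a1fcae2537860809338a3cb265 (k8 a5754 a4384 a4381 a117 a115 a5046 i1045 a5798 (k4 i348 a5185 a5822 a1698 (k2 a453 i1539 (k1 a362 k0)))) (by decide +kernel)
def a5824 : PP 8 4 T 0x2001000000000000000010000008000000000000001000008020000004000000084 := rS 0x892b9e25d15a0cf26f8613c3a8b0d06453194094c9a67489c628a90bb4c3ea1 (k8 a5269 a4364 a402 a2996 a3454 a5043 a117 a102 (k8 a414 a5805 a5819 a4475 a33 a443 i180 a437 (k8 a4110 i781 i1221 a377 a357 a5800 a5799 a4470 (k4 a2497 a5594 a5454 a127 (k1 a5810 k0))))) (by decide +kernel)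
def a5825 : PP 8 4 T 0x2101000000000000000004000008000000000000001000008000000000000002000 := rS 0x2ad965657444ba74419e4de7f8622caa4f129044e3b019f55a71034512aa94885e3281298d526b93b9346e595a8cd1f163391cca0f (k8 a5234 a5754 i26 a414 a4379 a123 a4457 a5492 (k8 a4983 a5811 a5805 a4251 a4425 a4788 a4378 a5819 (k8 a4475 a33 a2996 a102 a3454 a5111 a5043 a5820 (k8 a117 i1226 a4429 a5823 a5034 a1276 a5824 a5006 (k8 i1222 i1490 a5064 a4371 a4430 a357 a5800 a5799 (k8 a1698 a2497 a453 a5454 a362 a551 a3079 a5135 k0)))))) (by decide +kernel)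
def a5826 : PP 8 4 T 0x2001000000000000000011000000004400000514001000400400000000000000080 := rS 0x104a87e3ec515aa9 (k8 a5013 i1226 a5043 a4429 a1698 a4430 a5822 a5003 k0) (by decide +kernel)
def a5827 : PP 8 4 T 0x2002101000000000000000011000000000000010404041000000010000000000002000 := rS 0x27c9449889d0feb74794e2c4d499c4aa65 (k8 a5754 i1490 a117 a115 a5805 a4379 a5819 a123 (k8 a4402 a4430 a1698 a453 a5261 a440 a5825 a5419 k0)) (by decide +kernel)
def a5828 : PP 8 4 T 0x2002100000000000000000011000000000400010404080000000010000000000002000 := rS 0x332b1304a742ca4ce27f (k8 a5682 a117 a115 a5740 a1698 a5006 i1588 i1587 (k2 a5190 a5203 k0)) (by decide +kernel)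
def a5829 : PP 8 4 T 0x2100000000000000000000000000000800000000080000010010000000000000000 := rS 0xae59 (k2 i543 a5648 (k1 a4353 k0)) (by decide +kernel)
def a5830 : PP 8 4 T 0x2002101000000000000000011000000000000010404001000000010000000000002000 := rS 0x1302c190da389666 (k8 a5827 i490 a5828 a5058 a3008 a437 a5829 a4369 k0) (by decide +kernel)
def a5831 : PP 8 4 T 0x2100000000000000000002000000000000000400000001000410000000000000000 := rS 0x2b130b219019986511 (k8 a444 a5492 a4457 i192 i233 a5068 a5045 a362 (k1 a5082 k0)) (by decide +kernel)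
def a5832 : PP 8 4 T 0x2001000000000000000001000000000000000000001000800010000000000000000 := rS 0x121649856 (k4 a5784 a5819 i119 a4977 (k1 a5006 k0)) (by decide +kernel)
def a5833 : PP 8 4 T 0x2002101000000000000000011000000000000000404001000000010000000000002000 := rS 0x232b2b0a67c (k4 a5830 a5832 a4429 a4358 (k2 i2950 a5066 k0)) (by decide +kernel)
def a5834 : PP 8 4 T 0x2101000000000000000010000000000000000404001000000010000000000002000 := rS 0xb52395628a9 (k4 a5243 a5043 i1490 i26 (k2 a5831 a5833 k0)) (by decide +kernel)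
def a5835 : PP 8 4 T 0x2100000000000000000000000000000000000800000000000010000000000002000 := rS 0x130ae4b119989255 (k8 i1490 a5262 a4942 i2977 a5069 a5066 a440 a5778 k0) (by decide +kernel)
def a5836 : PP 8 4 T 0x2101000000000000000010000000000000000000001000000010000000000002000 := rS 0x27c34a66e5a9dcaa47 (k8 i26 i1490 a5835 a5831 a5834 a5832 a357 i1271 (k1 a4371 k0)) (by decide +kernel)
def a5837 : PP 8 4 T 0x2001000000000000000000000000000000000008001000400000000000000000000 := rS 0x9f0d (k2 a357 i1271 (k1 a4371 k0)) (by decide +kernel)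
def a5838 : PP 8 4 T 0x2101000000000000400011000000000000000400001005000020000000000002000 := rS 0xd69f45b0c6d131520d323f4eb3d546752348e4160181d5115129d51f103e87d02b737b1cb2213f94ccaa1 (k8 a5269 a5754 a5254 a4430 i743 a5075 a342 a5837 (k8 a4402 a4475 a4367 a4358 a362 a4353 a453 a38 (k8 a2869 a5043 a5013 a5029 a3454 a5247 a5248 a4042 (k8 a5647 a5549 a4458 a4419 a5169 a5186 i924 a3061 (k4 a378 i899 i371 a175 (k2 i997 i468 (k1 a4454 k0))))))) (by decide +kernel)
def a5839 : PP 8 4 T 0x2100000000000000400010014000010000000000041000000000000002000000000 := rS 0x2c8f544592665 (k4 a5754 a4788 a4379 a5050 (k2 a123 a3454 (k1 i860 k0))) (by decide +kernel)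
def a5840 : PP 8 4 T 0x12101000000000000000011000000000000000400001001000020000000000002000 := rS 0x2e4b189992aaba11f55ac16907449112b07c9a7f65938a6a1 (k8 a5269 a5254 a4371 i1390 a4430 i790 a4367 a5838 (k8 a58 a5185 i862 a377 a44 i1493 a4429 a403 (k4 a106 a121 a5839 a4387 (k2 i490 i861 (k1 a4066 k0))))) (by decide +kernel)
def a5841 : PP 8 4 T 0x12101000000000000000010000000000000000400001001000020000000000002000 := rS 0x2585ccc31120ca22b4109349c53 (k8 a5254 a4371 i790 i743 a5840 a444 a5492 a5462 (k4 i69 a4457 i861 i490 (k1 a4066 k0))) (by decide +kernel)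
def a5842 : PP 8 4 T 0x2101000000000000000010000000000000000000041002000020000000000402000 := rS 0x3e89a0c565c3d1e5151935aa94ecb56c3686073f27ce2994ba54deb74087ca6473ea3ceab5198d526a939a246e271c8b404180d9dc404a26a84ca0f (k8 a5234 a5754 a5269 i792 a4066 i1489 a4251 i783 (k8 a437 i180 i2723 i2051 a331 i1044 i2049 a5235 (k8 a3454 a4788 a4378 i2964 a5492 i1539 a4380 a4357 (k8 i26 a5254 a4367 a4475 a4402 a5837 a5111 a5110 (k8 a5041 a4496 a5825 i2044 a5826 a133 a35 i1556 (k8 i465 a1825 a439 a5552 a4448 a4454 i1854 i492 (k4 i491 a4470 i2569 a5 (k2 a3061 a1022 k0)))))))) (by decide +kernel)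
def a5843 : PP 8 4 T 0x10012102000000000000000000000000000000000000040002000020000000000402000 := rS 0x27d16781544cd6703fb0cdf151d251e2076907d9a751aa4ce637138e4301b3b934401d279941ea1 (k8 a5269 a5234 a5754 a74 i741 i1489 i792 a4251 (k8 i783 a437 i2051 a331 i1044 a5235 a4788 a4378 (k8 i1539 a330 a4367 a377 a402 a3219 a5123 a419 (k8 a14 i1057 i373 a3171 a389 i468 a4489 a5345 (k4 i388 i1854 i1075 a4454 k0))))) (by decide +kernel)
def a5844 : PP 8 4 T 0x2100000000000000000010000000000000000000041002000020000000000402000 := rS 0x13c863c264543a78c56266f3fc3232af7e0b472370106094a9139f51e755a8cd261b3b9344065 (k8 a5754 i1489 i792 a4251 i783 a4788 i2964 a5492 (k8 i1539 a4380 a4357 a331 a3454 a4066 a437 i180 (k8 i1044 i2051 i2723 a5842 a427 a5120 a5843 a35 (k8 a357 a2220 a2869 a5579 a419 a5345 a5035 i388 (k2 i902 a5173 (k1 i1075 k0)))))) (by decide +kernel)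
def a5845 : PP 8 4 T 0x22001000000000000000011000000004000000414000002000000000000000000000 := rS 0x9454aace67f3ea3cea65 (k8 a5754 i1539 a4380 a4357 a35 a456 i1657 a5247 (k2 i2044 a4787 k0)) (by decide +kernel)
def a5846 : PP 8 4 T 0x11012001000000000001000141000000504001050080000000000020000040000000040 := rS 0x224861f2fd061f40adca6a1 (k8 a5269 a5254 a4402 a4475 a4367 i924 a4241 a3061 (k2 i2047 a1022 (k1 a69 k0))) (by decide +kernel)
def a5847 : PP 8 4 T 0x2101000000000000000010000000000000040014040002000020000000000002044 := rS 0x4fa2d31194d9ad76725eaa14b424ac55567d47b350a758b2056e5315b1440cb538f55ac169434ee4d49ad4661d0f9941ea1 (k8 a5269 a5234 a5754 a4367 i742 i2964 a5492 a4788 (k8 i792 a4251 a5845 a377 a44 i1493 a5642 a1825 (k8 i465 i1489 a5141 i903 a5254 a4402 a4475 a4379 (k8 i1539 a455 a330 a4380 a4357 i1657 a2869 a3264 (k8 a439 a5549 a5014 a285 a389 a86 a5176 a457 (k4 a4448 a5846 a5065 i1112 (k1 a4454 k0))))))) (by decide +kernel)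
def a5848 : PP 8 4 T 0x12001000000000004000000002001100000000400000002000020000040000000040 := rS 0x230918925e8a3e0fa3d9a853aa056e538aa6c7603419c94265 (k8 a5754 a5269 a5247 i924 a5029 a5034 a457 a400 (k8 a5254 a4402 a4475 i1539 a455 a330 a4380 a4367 (k4 a3061 a80 i1372 a1022 (k2 a1886 a422 (k1 a5760 k0))))) (by decide +kernel)
def a5849 : PP 8 4 T 0x12101000000000000000000002000000000080000040002000020000000000000000 := rS 0x13e6b57c6516901b44c54164dc54ee4d03a65544e29a759e65 (k8 a5754 a4458 a4419 a5254 a4371 i760 a5186 a5822 (k8 i792 a4251 a400 a457 a3454 a5848 a378 i899 (k4 i898 a175 a114 a2598 (k2 i585 a5811 (k1 a4454 k0))))) (by decide +kernel)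
def a5850 : PP 8 4 T 0x2100000000000000000000000000000000000000040002000420000080200000000 := rS 0x1169f250c4046b3db12261b3b934ca0f (k8 a5234 a5754 i792 a4251 i783 a378 i903 i811 (k4 a5177 a5141 i1002 a5663 (k2 i1525 i492 (k1 a4454 k0)))) (by decide +kernel)
def a5851 : PP 8 4 T 0x402101000000000000000000008400010000000010040000010021000040210000000 := rS 0x96174527d7a7ba2a087ef03587c52275a8cd02b729995420f (k8 a5234 a5269 a5754 a5254 a4402 a4475 a4457 a5492 (k8 a331 a443 a4367 a5177 a127 a6 i2031 a48 (k4 i815 i1415 a5801 a4454 (k2 a175 i492 (k1 a4066 k0))))) (by decide +kernel)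
def a5852 : PP 8 4 T 0x12101000000000000000000000000000000080000040002000020000000000000000 := rS 0x2585d149f5e8e68a3e2ea0d2287890ac40c70611dcaa316a252ad21ea9d52aa0e81ce2c10f8a51ecd429d46a938b33d3a7726a056e4e29995420f (k8 a5234 a5269 a5754 a5254 a4371 a4402 a4475 i792 (k8 a4251 a4419 a4458 a4379 a4788 a4378 i1539 a455 (k8 a330 a4380 a443 a4367 i1516 i799 a5822 i2495 (k8 i760 a5849 a1825 a5642 a377 a5111 a5040 a329 (k8 a99 a5134 i1655 a425 a342 i1489 a5850 a5851 (k8 a69 a113 a68 a5 a3061 a80 i296 i1412 (k4 a5801 a4433 a1896 i491 (k1 a4066 k0)))))))) (by decide +kernel)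
def a5853 : PP 8 4 T 0x10002000000000000000000000000000000040000000800000000000050000000002000 := rS 0xe5e23b0853d8a0f (k8 a5234 i1790 a394 i467 a5821 a441 i1873 a419 k0) (by decide +kernel)
def a5854 : PP 8 4 T 0x2101000002000000080000005000000010000000040002000020001100100000000 := rS 0x6e309fe28ca69a543e533ea3cea35499dc9ab519ae62cc152a84ca0f (k8 a5234 a5754 a5269 a382 a408 a4379 a465 a4457 (k8 a5492 i792 a4251 a4788 a4378 i1539 a4380 a4357 (k8 a5254 a4367 a5111 a5127 a5191 a5011 a1066 i1391 (k2 a2869 a5837 k0)))) (by decide +kernel)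
def a5855 : PP 8 4 T 0x802100000000000000000000004004000000000000040002000420000000000000000 := rS 0x652f5a5455b2bdf8e40faa44231448b4043a63034d48b2e8d44a2319c646e7a679e53a7713928928543b351e913a9341e65 (k8 a5754 a5234 i792 i1539 a113 a4380 a330 a69 (k8 a455 a4453 a440 a331 a4251 a4419 a398 a4458 (k8 i2046 i1775 a5760 a4457 a2999 i764 a4378 a5 (k8 i491 a4454 a5853 a2943 a1190 a5034 i2723 a5039 (k8 a2643 i744 a5218 a4367 a425 a5854 a427 a4532 (k4 a116 a5279 i1988 a4206 (k1 a4694 k0))))))) (by decide +kernel)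
def a5856 : PP 8 4 T 0x802102000000000000000001000000000000000000000002000820000000100000000 := rS 0x3f2fa86a35ed15821d52ada1aad278243e7d630344a2366a1d420f (k8 a5234 a5269 a69 a330 a2999 i764 i1489 a2943 (k8 a4357 a4367 a369 a74 a420 a2220 a4532 a2241 (k8 i741 i1533 a116 i1988 a5773 a3610 a3078 a4024 (k1 i1723 k0)))) (by decide +kernel)
def a5857 : PP 8 4 T 0x2101000000000000000000000000000000080000040002000020000000000000000 := rS 0x10d (k2 a35 a5852 k0) (by decide +kernel)
def a5858 : PP 8 4 T 0x1000000000000002101001000000000401801004500000000040000000002000020000000100000000 := rS 0xfda63d0e07c4e533e88c4a0f (k8 a5234 i764 a2999 a4357 a5254 a331 a4367 a4591 (k4 i1259 a341 i1422 a442 k0)) (by decide +kernel)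
def a5859 : PP 8 4 T 0x1000000000000802100000000000000000100004000000000000000040002080820000000100000000 := rS 0xc0708a9ccdea90334d80be5da9d4695659f51e853aa4cee4d5cc59028378adca67f7ead466a5630344a2366a1cca0f (k8 a5234 a5754 a69 a330 a2999 i764 i1489 a2943 (k8 i415 a4457 a5492 a5856 a5857 a5254 a4402 a27 (k8 a68 a45 a4379 a465 i792 a4251 a4788 i1539 (k8 a455 a4380 a4357 i1389 a3264 a3275 i336 i1679 (k8 i2047 a5858 a44 i1534 a5248 i2816 a4439 a2869 (k2 i2044 a5043 (k1 i1280 k0))))))) (by decide +kernel)
def a5860 : PP 8 4 T 0x2001000000000000000011000000004000040400000002440000000000000000000 := rS 0x6038454de9539c31527d479d49a65 (k8 a5754 i792 i1539 a4380 a4357 a5246 a4371 a4439 (k4 a5111 a357 a2869 i2044 (k2 a5043 i1280 k0))) (by decide +kernel)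
def a5861 : PP 8 4 T 0x802100000000000000000000004000000000000000040002000820000000100000000 := rS 0x17ebba228d7acb271fd6efd299f50a933b9356a335cc590283630344a2366a1c1e65 (k8 a5754 a5234 a69 a330 a2999 i764 i1489 a2943 (k8 a68 a45 a4379 a465 a4457 a5492 i792 a4251 (k8 a4788 a455 a4357 a5254 a5856 a4402 a5857 a5860 (k4 i1389 a285 a3275 a5859 (k2 i1679 a18 (k1 i2047 k0)))))) (by decide +kernel)
def a5862 : PP 8 4 T 0x802100000000000000000000004000000000000000040002000020000000100000000 := rS 0x751af5a5450eada1a4f04bf05a4a44aa4043a568dd4ac14f3908f4f630c41a1f1394c4657128cd0f193b9359e9d42b34ea8f4883d4265 (k8 a5754 a5269 a5234 a113 a4380 i1539 a330 a455 (k8 a4419 a4458 i792 a4251 a5760 a69 a4457 i764 (k8 i53 a2999 a5254 a331 a4367 i1489 a2643 a2943 (k8 a59 a5861 a425 a5855 a408 a382 a5811 a4528 (k8 a1190 a5034 a5029 a5039 a5663 i2723 a5854 a369 (k8 a74 a2220 a4532 i741 a116 a5279 i1988 a5773 (k2 a402 a1660 k0))))))) (by decide +kernel)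
def a5863 : PP 8 4 T 0x2100000000000000000000000000000000000000041002000020000000000402000 := rS 0xb8 (k2 a5844 a4425 k0) (by decide +kernel)
def a5864 : PP 8 4 T 0x2102000000000000000000000000000000000000000002000020000000000002000 := rS 0x670b924c28f (k4 a4380 a397 a2898 i739 (k2 i1620 a5863 k0)) (by decide +kernel)
def a5865 : PP 8 4 T 0x2100000000000000000000000000000000000000041002000020000000200000000 := rS 0x1c06710b1bca68f3aad48e933b934fefd062e62c65 (k8 a5754 a4379 a465 i744 a5864 a5857 i792 a4251 (k8 a4788 a5001 i2498 i1539 a4380 a5254 a5837 a5863 (k4 i2491 a5019 a5826 a5847 k0))) (by decide +kernel)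
def a5866 : PP 8 4 T 0x2000000000000000000000000000000000000000080002000000000000000000000 := rS 0xec48 (k2 i1620 i1619 (k1 a5262 k0)) (by decide +kernel)
def a5867 : PP 8 4 T 0x2100000000000000000000008000000000000000000002000020000000000000000 := rS 0x1f9fa67 (k4 a5866 a97 i1657 a5857 k0) (by decide +kernel)
def a5868 : PP 8 4 T 0x2001000000000000000001000040000000040000000002080020000000110000000 := rS 0x460387cfa2312b2d420f (k8 a5234 a5269 i1389 i764 a2999 a4357 a4367 i1221 (k2 a3274 a5162 k0)) (by decide +kernel)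
def a5869 : PP 8 4 T 0x2101000000000000000000000000000000000000000002000020000000100000000 := rS 0x180e11537aa40c730e28d2acb271fca67d479d5267726ad466b98b19d5665 (k8 a5754 a5867 a5866 a4379 a465 a4457 a5492 i792 (k8 a4251 a4788 i1539 a4380 a4357 a5254 a5857 a5860 (k8 i1389 a3264 a3275 a5868 a5027 i742 a5247 i2816 (k4 a2869 i2044 a5043 i1280 k0)))) (by decide +kernel)
def a5870 : PP 8 4 T 0x2100000000000000000000000000000000040000000002000020000000100000000 := rS 0x95388b22a6f86225a6a26087cfa232b9644a75499dc9ab519ae62c6718834121d279cc92fc47a841e65 (k8 a5754 a5234 a5269 a4380 a5869 a2898 a5115 a74 (k8 i741 a369 i1489 a2643 a5866 a4379 a465 a4457 (k8 a5492 i792 a4251 a4788 i1539 i764 i34 i53 (k8 a2999 a4357 a4367 a4440 a4024 a99 i280 a263 (k4 a357 a2869 a5011 i1239 (k2 i978 i2044 k0)))))) (by decide +kernel)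
def a5871 : PP 8 4 T 0x2100000000000000000000000000000000000000000002000020000000100000000 := rS 0x1be2a984daee9e6a4ba7d16bf3c2dc54f1039c61b433f128e61d8c925524f57985f91314a3cea933b935731633aaccaa1 (k8 a5269 a5754 a5867 a5866 a4379 a465 i792 a4251 (k8 a4788 i1539 a4380 a443 a5862 a5869 a397 a427 (k8 a74 a431 a2898 a5120 i741 a5115 a440 a5870 (k8 a133 a35 i799 a5822 a2763 a5345 i850 a4470 (k8 i1724 i1854 i1075 i1856 a4454 a394 i1946 a5364 (k4 a5022 a5447 i1060 a3171 k0)))))) (by decide +kernel)
def a5872 : PP 8 4 T 0x2100000000000000000000000000000000000000000002000020000000000000000 := rS 0xd30e8c40e02869394a6e3f9c5969539aa5fa600608156b95a9de2c33498d4ce4d3aa3cfa1f29a84ca0f (k8 a5234 a5754 a5269 a5254 a4367 a4357 a4380 i1539 (k8 i792 a5866 a4378 a4788 a4457 a4379 a4251 a5492 (k8 a465 a5867 a5871 i744 a5865 a5864 i96 i1017 (k8 i1018 i1392 i1280 a5857 i2044 a5549 a5860 a357 (k4 a5792 i2816 i1002 i742 (k2 a5127 a377 k0)))))) (by decide +kernel)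
def a5873 : PP 8 4 T 0x2101000000000000000010001000004000000408000000000020000000010000000 := rS 0x3f89a0c565c3ca2a326b062a948351999d3e181b8e54e2d269280e0265b49464e30434e21f10a056e7f2a94d12994ba84ca0f (k8 a5234 a5754 a5269 a5110 a5041 a5040 a5254 a5872 (k8 a4430 a4402 a4475 i743 a4367 i77 a357 a5837 (k8 a4371 a263 a377 i1392 a5792 i1221 i1272 i789 (k8 a329 a67 a401 a446 i1045 a5798 i490 i2050 (k8 a4378 a5802 a5549 a5777 a5552 a4448 a4454 i1854 (k4 i491 a4470 i1440 a5 (k2 a1022 a3061 k0))))))) (by decide +kernel)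
def a5874 : PP 8 4 T 0x12101000000000000000010000000004400000550000000000020000000010000000 := rS 0x600d52ab0f8b5198d583168a3483e7f2a94d2a6f5483ccaa1 (k8 a5269 a5754 a5234 a5247 a5873 a5111 a5254 a5872 (k8 a4430 a4367 a377 a389 a2476 a44 a131 a360 (k4 a5492 a1698 a4429 i1325 (k2 i1493 a5127 (k1 a2643 k0))))) (by decide +kernel)
def a5875 : PP 8 4 T 0x2000000000000000000010000000014400050554000000000000000000000000000 := rS 0x45864b4 (k4 i2044 a5492 a201 a360 k0) (by decide +kernel)
def a5876 : PP 8 4 T 0x2101000000000000000010000000004400000550000000000020000000010000000 := rS 0x7d861fcaa534a9bd5265 (k8 a5754 a5247 a5873 a5111 a5254 a5872 a4430 a5874 (k2 a340 a5875 k0)) (by decide +kernel)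
def a5877 : PP 8 4 T 0x2101000000000000000010000000004400000540000000000020000000010000000 := rS 0xac4c30454e0a9 (k4 a5247 a5876 a117 a5043 (k2 i1280 a5778 (k1 i530 k0))) (by decide +kernel)
def a5878 : PP 8 4 T 0x2101000000000000000010000000004000000460000000000020000000010000000 := rS 0xb512a968423720d48f170c868cc5660808964c691d0c02d3ea3e2a1f10955129537aa54265 (k8 a5754 a5269 a5247 a5873 a5111 a5040 a5872 i743 (k8 a4367 a117 i877 i1360 i1239 a5043 a5877 a5011 (k8 i1280 i1047 a5026 a44 a5778 a5805 i787 i181 (k8 a350 i2961 a4161 a4162 i2062 a739 a382 a409 (k2 a84 a3610 k0))))) (by decide +kernel)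
def a5879 : PP 8 4 T 0x2001000000000000000000000000000000000210000008004020000000010000000 := rS 0x1f5c847860d434660113c324c0f94c9265 (k8 a5754 a5261 a5254 a4367 a440 i181 i789 a5082 (k8 a5805 i787 i1061 a4371 i2961 a4162 a340 a5632 k0)) (by decide +kernel)
def a5880 : PP 8 4 T 0x2101000000000000000004000000000000050254040018008000000004000400000 := rS 0x69f0c8323224552b52aa988a4492cb269846b1667a741e65 (k8 a5754 a5234 a4419 a4458 a4379 a4378 i1047 i73 (k8 a4399 a5261 a5259 a453 a5247 a5111 i1581 a5136 (k4 a3079 a4459 a3587 i348 (k2 a5825 i1045 (k1 a4477 k0))))) (by decide +kernel)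
def a5881 : PP 8 4 T 0x2101000000000000000010000000004400000440000000000020000000010000000 := rS 0x18035a4a5869f066353099c94560bc44e8590f89d6e7f2a94cdea93883ccaa1 (k8 a5269 a5754 a5234 a5878 a5247 a5873 a5254 a5872 (k8 a4430 a4402 a331 a4367 a5740 a5877 a453 a5224 (k8 a362 a5879 i490 i1047 a4378 a4457 a5880 a340 (k4 i1325 a377 a5841 a5127 (k1 a2643 k0))))) (by decide +kernel)
def a5882 : PP 8 4 T 0x2100000000000000000000000000000800000000000000000020000000000000000 := rS 0x4a0318858cc592692e2e65 (k8 a5754 a123 a4381 i2597 a5206 a4379 a4066 a4387 (k2 a5019 i861 (k1 a5205 k0))) (by decide +kernel)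
def a5883 : PP 8 4 T 0x2000000000000000000010000000014400050444080000010000000000000000000 := rS 0x38120ea4b (k4 i490 i1588 a440 a5875 (k1 a5038 k0)) (by decide +kernel)
def a5884 : PP 8 4 T 0x2000000000000000000010000000014400050444000000002000000000000000000 := rS 0xea71 (k2 a5038 a5261 (k1 a5875 k0)) (by decide +kernel)
def a5885 : PP 8 4 T 0x2101000000000000000010000000004000000440000000000020000000000000000 := rS 0x2bc44e8718a184941724ad466673e9bc9a4e0325438a9139651eb73f954a665 (k8 a5754 a5254 a5872 a4430 a4402 a5882 a5740 a331 (k8 a5247 a5881 a5111 i742 i741 i2543 i2816 i2817 (k8 a5883 a4457 a5492 a5884 i739 a440 i1047 a5043 (k4 a117 a1698 a453 a5880 (k1 a362 k0))))) (by decide +kernel)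
def a5886 : PP 8 4 T 0x2101000000000000000000000004001000000080040008000020000000000000000 := rS 0x4525cd63e2ea0e241f40adc903b1381d5053438ac9a250b23ccaa1 (k8 a5269 a5754 a5882 a5235 i860 a5036 a5469 a387 (k8 a5254 a4439 a5013 a331 i1156 a5115 a4402 a4475 (k8 a4367 a2766 i923 a5 a3061 i507 i1372 a4454 (k1 i578 k0)))) (by decide +kernel)
def a5887 : PP 8 4 T 0x2101000000000000000000000004000000000480040008000020000000000000000 := rS 0x8b66c4d208f0b1d59e87 (k8 a387 a4458 a5236 a5235 a5882 a5886 a113 i893 (k2 a175 a4445 k0)) (by decide +kernel)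
def a5888 : PP 8 4 T 0x2101000000000000000010000000004000000400000000000020000000000000000 := rS 0x1c0f9e22b41c490a378cd3d3c872b4454ac13381d963b12835a44e4d98550b53a85a1a1d3907c4e212ca3d02b73f954a6a1 (k8 a5269 a5254 a5872 a4430 a4402 a4475 a5882 a5740 (k8 i743 a331 a4367 a5885 a5027 a456 a5235 a5236 (k8 a5238 a4439 i1017 i1180 a4371 a377 a5841 i860 (k8 i1156 i1389 a5013 i576 a44 a5777 a2218 a362 (k8 a387 a5887 a26 a33 a5811 i1605 a5338 a197 (k4 i899 a5804 a3061 a419 (k1 i297 k0))))))) (by decide +kernel)
def a5889 : PP 8 4 T 0x2101000000000000000010000000000000000480000000000020000000000000000 := rS 0x3069842d0d29954cc92 (k8 a5888 a4788 a5872 a5254 a456 a5235 i1017 a5841 (k2 a5019 a5072 k0)) (by decide +kernel)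
def a5890 : PP 8 4 T 0x2101000000000000000010000000000000000400000000000020000000000000000 := rS 0xc1911dca2c6034c4a57881d54a89562a4e64b3345e2a920f8851e7f2a94c1ea1 (k8 a5269 a5234 a5254 a5872 a4430 a5882 i743 a4367 (k8 a5888 a115 a19 a4788 i490 a5889 a5247 a5112 (k8 a5040 i1286 i2962 a466 a2889 a38 a4042 a4528 (k4 a5011 a408 i2971 i1242 (k2 a425 i2965 k0))))) (by decide +kernel)
def a5891 : PP 8 4 T 0x802100000000000000000000000000000000000000400015000000000000000000000 := rS 0x1750ecd (k4 a2010 a69 a5 a4976 k0) (by decide +kernel)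
def a5892 : PP 8 4 T 0x402000000000000001000400000000140005000000081000000020010041500000084 := rS 0x1349da784584f01489e2e9f (k8 a414 a350 a331 a443 a127 a2701 a441 a13 (k2 i1906 a5204 (k1 a1490 k0))) (by decide +kernel)
def a5893 : PP 8 4 T 0x402001000000000001000400001000000005000000080000000020010001500800180 := rS 0x2bd86a7150ec64994b98406a1 (k8 a5269 a5019 a5060 a5110 a5041 a5056 a5694 a5892 (k4 i332 i2174 i460 a5163 k0)) (by decide +kernel)
def a5894 : PP 8 4 T 0x2100000000000000000000000000000000000000080004000020000000000000000 := rS 0x186f10826d8a9da7a18c20604afd2e995144dcac7552a686d3358308ec15c29406357e9dc4a162412e20cd4288c9a1f10954b28f8ba7d967f (k8 a5682 a5071 a414 a350 a5882 a5740 a5872 i743 (k8 a4367 a5778 i185 a1949 a2010 a362 i489 a440 (k8 a4066 a38 a5262 a2898 i1116 a5019 a5647 a5890 (k8 i1250 i1618 a5072 a5070 a4042 a351 a4407 a4426 (k8 a342 a392 a5891 a393 a5041 a5110 a367 i200 (k8 i1648 a5060 a5893 a20 i1644 i1523 a1490 a5204 (k2 a441 i1952 (k1 a379 k0)))))))) (by decide +kernel)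
def a5895 : PP 8 4 T 0x2000000000000000000000000000000400000000080008000020000000000000004 := rS 0x90640c (k4 a5072 a5056 a5185 i287 k0) (by decide +kernel)
def a5896 : PP 8 4 T 0x2000000000000000000000000000000000000800080008000000000002000000000 := rS 0x9475 (k2 i59 i1628 (k1 a3084 k0)) (by decide +kernel)
def a5897 : PP 8 4 T 0x2000000000000000000000000000000400000000080008000020000000000002000 := rS 0xc9d096771a0cc48e58b8c62202 (k8 a5895 a58 a4387 a350 a392 a5185 a5076 a429 (k4 a5896 i490 a466 i181 (k1 i1061 k0))) (by decide +kernel)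
def a5898 : PP 8 4 T 0x2100000000000000000000000000000000000000080000000020000000000000000 := rS 0x14a250695996212a9651e0f (k8 a5234 a5882 a5740 a5872 i743 a5071 a5894 a5897 (k2 a3587 a5777 (k1 a5654 k0))) (by decide +kernel)
def a5899 : PP 8 4 T 0x2100000000000000000000000000000000000000000008000020001000000000000 := rS 0x61101b1687c6a178ab4de1138650cfeb5199f528cb54ab4c2ab39c444e2b3cc65264a24a3c9a297e2e62c7733954ca0f (k8 a5234 a5754 a5872 a5898 a4942 a4379 a465 a5890 (k8 a443 a5805 a5882 a2898 a440 a4788 a5120 a4432 (k8 a4470 a331 a58 a5115 a97 a397 a420 a431 (k8 a4399 a5050 i1598 a4457 a5492 a4388 a121 a403 (k8 a2220 a127 a3219 a14 i739 a4378 a4367 i978 (k4 a5612 a5011 a437 i230 k0)))))) (by decide +kernel)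
def a5900 : PP 8 4 T 0x2100000000000000000000000000000000000000000008000020000000000000000 := rS 0x14e4f09006307844e187da1a1456943cb2e227f1489c425967a756a3330ab552ab8ca4ce6910b92892fc5cc58ee5547934ce65 (k8 a5754 a5898 a5805 a5882 a5872 a4942 a4379 a465 (k8 a5890 a2898 a440 i739 a5259 a5115 a4788 a5120 (k8 a97 a431 a420 a397 a4457 a5492 a4419 a4458 (k8 a5740 i743 a331 a443 a4388 a58 a4399 a4432 (k8 a5050 a4470 a545 a121 i1598 a403 a2220 a127 (k4 a5899 i1002 a1332 a4477 (k2 a5596 a26 k0))))))) (by decide +kernel)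
def a5901 : PP 8 4 T 0x2100002000000000000000000040000000000000000000000020000000000000000 := rS 0x6f8a430fed30f8856a330e93c467d56bf173163b99cea258815cb28f2a83d4265 (k8 a5754 a5269 a5234 a5872 a5882 a5740 a5900 a362 (k8 a38 a453 a5898 a4942 a4379 a465 a5890 a420 (k8 a1978 i185 a74 i741 a4457 a5492 i743 a4367 (k4 a3219 a5607 a377 a5124 (k2 a357 a2869 k0))))) (by decide +kernel)
def a5902 : PP 8 4 T 0x802002000000000001000001000000000001010000000015400000000000000000000 := rS 0x5d (k2 a5 a4516 k0) (by decide +kernel)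
def a5903 : PP 8 4 T 0x400000000000000002000000000000000000054041000000040082440001000000000000000000000000 := rS 0x372622a9b4bafce343 (k8 a133 i799 i1724 i1856 a5364 a5447 a5022 a3171 (k1 i1060 k0)) (by decide +kernel)
def a5904 : PP 8 4 T 0x2100000000000000000000000000000000000000000000000020000080000000000 := rS 0x5b154c26e18895fd0da6a265304fea506aee9e6a4fa2cf0c35ba9c3e5310b3d3ab519824c2af54aae32930e93ce64a24934467d56bf173163b99cea258815cb28f2aa841e65 (k8 a5754 a5234 a5269 a5872 a5882 a5740 a5900 a362 (k8 a38 a453 a5898 a4942 a4379 a465 a5890 a420 (k8 a1978 i185 a5805 a2898 a440 a5115 a74 i741 (k8 a4788 a5120 a97 a431 a427 a397 a369 a4457 (k8 a5492 a4419 a4458 i743 a5254 a4367 i332 i850 (k8 i371 a4470 i1854 i1075 a4418 a394 i1946 i468 (k8 a2241 a5903 a4440 a4397 i2030 a4042 a3610 a396 (k4 i280 a263 a5364 a5167 (k2 a5447 i981 (k1 a5011 k0)))))))))) (by decide +kernel)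
def a5905 : PP 8 4 T 0x2100000000000000000000000000000000000000000000000020000000000000000 := rS 0x581b8a8c4de0d44c31447f69bc057133a9f620cd4295ce61d24aad5a4f7e2e56a778b0cd2635339651e212a87c52272983ccaa1 (k8 a5269 a5754 a5234 a5254 a331 a443 a4367 a5872 (k8 i743 a5882 a5740 a5898 a4378 a4788 a4457 a4379 (k8 a4942 a5492 a465 a5890 a74 a420 a97 a2898 (k8 i741 a5115 a5900 a1949 a2010 a362 a1978 a453 (k8 a5902 a5904 a127 a3219 a5607 a5901 a377 i280 (k4 i1647 a357 a2643 a2869 (k2 a5612 a5011 (k1 a3955 k0)))))))) (by decide +kernel)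
def a5906 : PP 8 4 T 0x2002002000000000000010000000000000040000000004000020000000000000000 := rS 0x148c11950d68a33e89218e56987cb2cb5688c8e212aaac3a4f8894e08a1 (k8 a5269 a5905 a5254 a4421 a74 i741 a97 a72 (k8 i743 a451 i184 a445 a385 a415 a4367 a3219 (k8 a3227 a377 a107 a340 i324 a4397 a84 a5492 (k2 i1247 a393 (k1 i289 k0))))) (by decide +kernel)
def a5907 : PP 8 4 T 0x2002000000000000000010000000000000040000000004000020000040000000000 := rS 0x7c522d584c712395a4cc5b43624f10f89cb26b1191c425504abc3a4f8894e08a1 (k8 a5269 a5905 a5254 a4421 a74 i741 a427 a369 (k8 a72 i743 a451 i184 a464 a415 a331 a4367 (k8 a5906 a5345 a2220 a4532 a1729 a377 a4370 a107 (k4 i410 a3736 a307 a4236 (k2 a4500 i1325 k0))))) (by decide +kernel)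
def a5908 : PP 8 4 T 0x1002002001000000000040010000000000000020440040000000020000040000000000 := rS 0x378c8e4947a4c1d092173827cdec3492952a2913964d60957aa49ae529c112eb653b4a1b120e93c3ea1 (k8 a5269 a4367 a74 i741 a5345 a2220 a377 a67 (k8 a4532 i1902 a5905 a5254 a4370 a5805 a431 a427 (k8 a369 a464 a415 a331 a443 i1598 i1325 a5790 (k8 a4236 i1322 i1718 a389 a3997 a5038 i1361 i802 (k4 i801 a4066 i1936 a390 (k2 i1775 a5271 k0)))))) (by decide +kernel)
def a5909 : PP 8 4 T 0x800000000000002202001001000080040100000000000000000000000000000000000000000000000 := rS 0xc5a7b0d7ca55db2d5a6b04abd56c1 (k8 a44 a97 a427 a369 a464 a445 a385 a86 (k4 a129 a391 a4236 a60 (k2 i1527 a379 k0))) (by decide +kernel)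
def a5910 : PP 8 4 T 0x1002002001000000000000010000000000000040440040000000020000040000000000 := rS 0xc3662d2867d638917ae5692da1b120f89c4647109543a4f8894e08a1 (k8 a5269 a5905 a5254 a4421 a74 i741 a72 i743 (k8 a451 i184 a331 a4367 a5345 a2220 a4532 a377 (k8 a4370 i1989 a107 i410 a5908 a5909 a403 a537 (k2 a307 a3736 k0)))) (by decide +kernel)
def a5911 : PP 8 4 T 0x2000002000000002000001000000000000000000000000000020000002000000000 := rS 0x42d3cb304 (k4 a5905 a415 a36 i128 (k1 a5596 k0)) (by decide +kernel)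
def a5912 : PP 8 4 T 0x2002002000000000404000000200000000000000000000000000000000000000000 := rS 0x14e07 (k2 i1379 i367 (k1 a2041 k0)) (by decide +kernel)
def a5913 : PP 8 4 T 0x502000000000000001000800000000000004010000000000000000000000000000000 := rS 0x10b4f (k2 a60 i1607 (k1 a436 k0)) (by decide +kernel)
def a5914 : PP 8 4 T 0x2000000000000040010080000100000000000000000000000000000002000000000 := rS 0x30686a1 (k4 a5269 a86 i1519 a4013 k0) (by decide +kernel)
def a5915 : PP 8 4 T 0x102002002000000000004000000000000004000000040000000020000000000000000 := rS 0x183435e2ed7ea566ad4660c65ab4d6af558f58b1329891ca212a88c8f043ec31a61d2787d420f (k8 a5234 a5269 a4367 a74 i741 a3219 a377 a340 (k8 a5905 a451 i184 a72 i743 a3227 a107 a5254 (k8 a4636 a49 a365 a97 a427 a464 a445 a385 (k8 a199 i1609 a5492 a5911 a5912 a5913 a5914 a391 (k2 a338 i1251 (k1 a4013 k0)))))) (by decide +kernel)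
def a5916 : PP 8 4 T 0x102002002000000000000010000000000000000000040008000020000000000000000 := rS 0x2958232a1ad184a34089218e55bb4c3e29299ac46471095608af0e93d0ea1 (k8 a5269 a387 a74 i741 a427 a5905 a72 i743 (k8 a451 i184 a464 a5254 a443 a4367 a3219 a4635 (k8 a3227 a377 a107 a4 i324 a5915 a4332 a84 (k4 a5492 i1247 i289 a393 k0)))) (by decide +kernel)
def a5917 : PP 8 4 T 0x2002000000000000000010000000000000040440040000000020000040000000000 := rS 0x24e28f18894e0856 (k8 a5907 a5905 a5254 a4421 a5916 a5910 a115 a853 k0) (by decide +kernel)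
def a5918 : PP 8 4 T 0x102000000001000000000000000000000000000000000008004020001000000000000 := rS 0x350106898171208c8e212ac103265 (k8 a5754 i181 a5905 a72 i743 a451 i184 a107 (k4 i861 a4066 a437 a5082 (k2 a4161 a4162 k0))) (by decide +kernel)
def a5919 : PP 8 4 T 0x2002000000000000000010000000000000040440000000000020000040000000000 := rS 0x12a95c84b18998ac212ac44a704 (k8 a5905 a5254 a4421 a72 i743 a5907 a5917 a4387 (k4 i490 a5918 a382 a409 (k1 a5654 k0))) (by decide +kernel)
def a5920 : PP 8 4 T 0x102000000000000000000000000000000000000400080008000020000000000000000 := rS 0x12a95c84b18884ab04 (k8 a5905 a72 i743 a4387 i490 a5918 a382 a409 (k1 a5654 k0)) (by decide +kernel)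
def a5921 : PP 8 4 T 0x2002000002000000000000000000000000000000000000000020000040000000000 := rS 0x112863c43e53820749ea1 (k8 a5269 a74 i741 a5905 a5254 a4367 a3227 a4370 (k2 a5345 a2220 k0)) (by decide +kernel)
def a5922 : PP 8 4 T 0x22002000000000000000000000000000000040400000000000020000040000000000 := rS 0x5381d774f5227866301a80c36162692d1c111f8f4eb174abc17113399bc5227659ac122472884aa2323c44a704 (k8 a5905 a5254 a4421 a451 i184 a72 i743 a5921 (k8 a107 a369 a464 a385 a331 a443 a357 a456 (k8 a2220 a5919 a127 i131 a465 i1065 a365 a6 (k8 a441 a466 a4381 i2597 a4066 i9 a5019 i1117 (k8 i861 i286 a5320 i987 a26 i1685 i1379 i368 (k1 a1790 k0)))))) (by decide +kernel)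
def a5923 : PP 8 4 T 0x2002000000000000000000000000000000040400000000004020002040000000000 := rS 0x23c9016392509ab94999e08a9608b5a50d0e93c3ea1 (k8 a5269 a4367 a74 i741 a5922 a377 a329 a44 (k8 a431 a5905 a4387 i1509 i986 a5805 a5790 a5919 (k4 a4066 a440 a521 a2847 k0))) (by decide +kernel)
def a5924 : PP 8 4 T 0x2002000000000000000000000000000000040400000000004020000040000000000 := rS 0x4d0b95c622472884aa2323c44a704 (k8 a5905 a5254 a4421 a451 i184 a72 i743 a5921 (k4 a107 a5923 a5918 i861 (k2 a5778 a4066 k0))) (by decide +kernel)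
def a5925 : PP 8 4 T 0x2002000000000000000000000000000000040400000000000020000040000000000 := rS 0x3ead5703339a3c95435eada24f1694358e248887ca62323884ab040e93dcaa1 (k8 a5269 a5921 a74 i741 a5905 a72 i743 a451 (k8 i184 a5254 a4367 a4421 a107 i410 a5922 a377 (k8 a3219 a5345 a4532 i1989 a5909 a5924 a4381 a4390 (k4 i287 a5919 a5492 i1330 (k1 a403 k0))))) (by decide +kernel)
def a5926 : PP 8 4 T 0x2002000000000000000000000000000000000400000000000020000040000000000 := rS 0x2251078894fce51191c4255820749ea1 (k8 a5269 a74 i741 a5905 a72 i743 a451 i184 (k4 a5921 a5925 i842 a5607 (k2 a107 a5345 (k1 a205 k0)))) (by decide +kernel)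
def a5927 : PP 8 4 T 0x2002000000000000000400000000104000000500440000018000000080000000000 := rS 0x19e9f4ea2cf11930abd5265 (k8 a5754 a431 a427 a397 a5121 a4470 i1854 i1858 (k2 i1075 a5199 (k1 a4418 k0))) (by decide +kernel)
def a5928 : PP 8 4 T 0x2002000000000000000000000000000000080400000000000020000000000000000 := rS 0x6f8aa60ea4a39c409a495fa4dca671295d1e6b1191c4255822dc54a1 (k8 a5269 a5926 i850 a5905 a72 i743 a451 i184 (k8 a464 a930 a4388 i842 a5682 a5727 i1637 i1724 (k8 a2898 a5778 a107 a5115 a440 a453 a5927 a57 (k2 i1060 a3171 k0)))) (by decide +kernel)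
def a5929 : PP 8 4 T 0x8002202000000000000000000000000000000040040000004000000000000000000000 := rS 0x3ead528335698552ab (k8 a97 a431 a397 a445 a360 a5182 a5492 i1598 (k1 a4500 k0)) (by decide +kernel)
def a5930 : PP 8 4 T 0x102000000001000000000000000000000000000000000000008020000080000000000 := rS 0x1208c8e212ac109a65 (k8 a5754 i73 a5905 a72 i743 a451 i184 a107 (k1 a4505 k0)) (by decide +kernel)
def a5931 : PP 8 4 T 0x2002000000000000000000000000000000000400000000008020000000000000000 := rS 0x605a8901334622552835c86726a451ecb1191c425530aa5e22a889fca704 (k8 a5905 a5254 a5928 a4421 a5926 a126 a431 a397 (k8 a72 i743 a451 i184 a385 a4381 a102 i73 (k8 i490 a5930 a392 a382 a409 a459 i888 a5196 (k4 a5039 i1000 i1045 a5649 k0)))) (by decide +kernel)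
def a5932 : PP 8 4 T 0x2002000000000000000000000000000000000400000000010020000001000000000 := rS 0x17e935a15d0c99671cd3a67861f58a0d7207cb2cb569ac464710954c2af54aac3a4f889fca7040c9e4068b898d9209f66858548e2412ccaa1 (k8 a5269 a5754 a5931 a440 a2898 a5926 a4066 i2603 (k8 i1188 i898 i899 a378 a175 a5019 a353 i181 (k8 a5905 a5254 a5928 a4421 a74 i741 a97 a431 (k8 a427 a397 a72 i743 a451 i184 a464 a445 (k8 a385 a415 a4367 a107 a5462 a40 a5626 a4370 (k8 a5072 i1779 a456 a4418 i1110 a569 a387 a4397 (k2 a3584 i1456 (k1 a5199 k0)))))))) (by decide +kernel)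
def a5933 : PP 8 4 T 0x2002000000000000000000000000000000000400000000010020000000000000000 := rS 0x19e9d33b1c60241ca4076030d8589027823c4544b (k8 a5931 a5926 a126 a5905 a331 a440 a4066 a4375 (k8 a5019 i1156 i898 i294 a5932 i861 a242 a4387 (k2 i1512 i2663 (k1 a5099 k0)))) (by decide +kernel)
def a5934 : PP 8 4 T 0x2002000000000000000000000000000000000400000000000020000000000000000 := rS 0x198ac4c889fca704 (k8 a5905 a5254 a5928 a4421 a5933 a5739 a5805 a5920 k0) (by decide +kernel)
def a5935 : PP 8 4 T 0x2200000000000000000000000000000000000100000000020000000000000000000 := rS 0x56 (k2 a5739 i530 k0) (by decide +kernel)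
def a5936 : PP 8 4 T 0x2000000000000000000000000000000000000800000008000020000000000000000 := rS 0x2904a662c884ab04 (k8 a5905 a72 i743 a415 i1627 a5896 a5654 a5647 k0) (by decide +kernel)
def a5937 : PP 8 4 T 0x2200000001000000004400041000004001000800041000000000000080000000008 := rS 0x33d329d45a7c74783d8d066180d91cd64a269d49265 (k8 a5754 a5262 i59 a5935 a440 a464 a451 i189 (k8 i1045 i192 a877 i811 i388 i387 i1184 i492 (k4 i1857 a5035 a5199 a4418 k0))) (by decide +kernel)
def a5938 : PP 8 4 T 0x2002000000000000000000000200000000000000000000000020000001000000000 := rS 0x99672553e9d191ed16351d80d7ec31cadc54f189a159a7e5ac41267d03a8dcac10f965966b1191cc2af54aac3a4f8b9cc62212aa44ce5725134eb04249d8caa1 (k8 a5269 a5754 a5934 a5262 a5905 i59 a5935 a440 (k8 a5936 i489 a5259 a72 i743 i1507 a5237 a332 (k8 a74 i741 a97 a431 a427 a397 a451 i184 (k8 a464 a385 a415 a4367 i114 a382 i93 i1379 (k8 i1325 a3157 a107 a1788 a5639 a380 a361 a205 (k8 a5607 a5345 i850 i295 i371 i1724 a5937 a5034 (k8 a5054 a5033 i812 a429 a3554 i1716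 i1671 a4418 (k2 a4524 a5199 k0)))))))) (by decide +kernel)
def a5939 : PP 8 4 T 0x2002000000000000000000000100000000080000000000000020000000000000000 := rS 0x1ad203bc5ca1f1489d96ad1191c12ab0e93e2e3110954ce5725134eb04249d81ea1 (k8 a5269 a5234 a5934 a5262 a5905 i59 a5935 a440 (k8 a5936 i489 a72 i743 i1507 a332 a74 i741 (k8 a97 a369 a451 i184 a445 a385 a331 a443 (k4 a4367 a5727 a5607 a5822 (k2 a1066 a4207 (k1 a1719 k0)))))) (by decide +kernel)
def a5940 : PP 8 4 T 0x2002000000000000000000000000000000000000000000000020000001000000000 := rS 0x448b62ab8382d1a67d72444fea50f94cb2cb5688c8e212ac11561d2795cec0f (k8 a5234 a5934 a5936 a74 i741 a97 a5905 a72 (k8 i743 a451 i184 a445 a385 a415 a5254 a4367 (k8 a5938 a5939 a4421 a107 a5626 a4206 a4397 i807 (k4 i808 a117 i1239 i1403 (k1 a5011 k0))))) (by decide +kernel)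
def a5941 : PP 8 4 T 0x2002000000000000000000000000000000000000000000000020000000000000000 := rS 0x18d032242513492758ba3ced04 (k8 a5905 a5934 i80 a332 i59 a5262 a5935 a440 (k4 a5940 i349 a4200 i1045 (k1 a5054 k0))) (by decide +kernel)
def a5942 : PP 8 4 T 0x2200000000000000000000000000000000000800000000000000000002000000000 := rS 0x2268686875 (k4 i59 i804 i803 a5935 (k2 a5054 i189 k0)) (by decide +kernel)
def a5943 : PP 8 4 T 0x2000000000000000000000000000000000000000000000010020000000001000008 := rS 0x9617 (k2 a5019 i1045 (k1 a4066 k0)) (by decide +kernel)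
def a5944 : PP 8 4 T 0x1000000000000002200001000000040040000000400000010000000000000000001006200000000004 := rS 0x67a74729a1b0f87667 (k8 a4387 a5034 a442 i1424 i1423 i296 i1780 i2664 (k1 a5099 k0)) (by decide +kernel)
def a5945 : PP 8 4 T 0x2000000000000040040000004100010004000100000000000020006002000000004 := rS 0x19a9e89bc28abba13047aa7160200e6049a2552cb56c11fae588a8c6a675aae4caa1 (k8 a5269 a5754 i987 a5492 a4387 a5054 i324 a38 (k8 a409 a5941 a5905 a445 a385 a5248 a5040 a5112 (k8 a5050 i1224 a5060 a5026 a1825 a5642 i1265 a393 (k4 a86 a1010 a5944 a5804 (k2 a5320 a5911 (k1 a680 k0)))))) (by decide +kernel)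
def a5946 : PP 8 4 T 0x2000002000000000000000000000000004000100000000000020006002000000044 := rS 0x66a7a270472c446ab5 (k8 a5492 a5054 a38 a409 a5905 a5804 a5320 a5911 (k1 a680 k0)) (by decide +kernel)
def a5947 : PP 8 4 T 0x10002000001000000000000000000000000010000000000000000020440000000800040 := rS 0x113158a44efd (k4 a5941 a331 a443 i899 (k2 a5806 a127 k0)) (by decide +kernel)
def a5948 : PP 8 4 T 0x2000001000000004000000000004000010000000040000000020404000000800040 := rS 0x27516368c9ae0865 (k8 a5754 a5905 a464 a3410 a5947 a4382 i1780 a4418 k0) (by decide +kernel)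
def a5949 : PP 8 4 T 0x102000000000000008000001000100000004001000000000000020002000000800040 := rS 0x3f15a0d0ac248d3c3e815bbf4a6a1 (k8 a5269 a5254 a5941 a4402 a4475 a4367 a3 i2663 (k4 i989 i1870 a197 i898 (k2 i375 a3061 k0))) (by decide +kernel)
def a5950 : PP 8 4 T 0x2000001000000000000000000000000000000000000000000024000040010000040 := rS 0x4187c52815bbf4a6a1 (k8 a5269 a5254 a5941 a4402 a4475 a443 a4367 a1898 (k1 a3061 k0)) (by decide +kernel)
def a5951 : PP 8 4 T 0x2000000000000000000000004100000000001100000000000020000002004800004 := rS 0x2747236150fd9ef14daa0c29316b040ed265ab609111da1d8e954719c3ab519ae46065 (k8 a5754 i861 i987 i286 a5492 i862 a4387 i860 (k8 a521 a242 i2623 a5034 a38 a5905 a445 a385 (k8 a5945 a402 a44 a329 i1509 a5026 a5050 a457 (k8 a5946 a5949 a5155 a5950 i899 i294 i1780 a5099 k0)))) (by decide +kernel)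
def a5952 : PP 8 4 T 0x2000000000000000000000000100000000001100000000000020000002004800004 := rS 0x1b27a32cf78a240e93a1aaa0911518ed0ec78ba551c67182d466a1 (k8 a5269 i286 a5492 i861 a4387 i860 a521 a123 (k8 a242 i2623 a5034 i324 a38 a5905 a5951 a106 (k8 i1635 i458 a3633 a5946 a5949 a3410 a5948 a5947 (k1 i997 k0)))) (by decide +kernel)
def a5953 : PP 8 4 T 0x2000001000000004040000000000000010000000040000000020404000000800040 := rS 0x1b27a3304 (k4 a5905 a3410 a5948 a5947 (k1 i997 k0)) (by decide +kernel)
def a5954 : PP 8 4 T 0x2000000000000000000000000000000000000100000000014020000002000000000 := rS 0x20d0a9b48d3d9c974ca25527378c300f43522d4ce3363a1c606f0d9e4f6710b12196815b9fcaa7d7eab60853888ec0619 (k8 i349 a5943 a5034 a38 a5254 a5905 a445 a5941 (k8 a4429 a72 a4430 a4402 a4475 a385 a440 a4066 (k8 a5038 a418 a353 a4375 a4392 i861 i2623 a242 (k8 i286 a4387 a5492 a5952 a129 i1379 a403 a5946 (k8 a456 a5247 a5040 a5041 a5110 a5953 a3 i2663 (k4 i2664 i1870 a197 i2045 k0)))))) (by decide +kernel)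
def a5955 : PP 8 4 T 0x2000000000000000000000000000000000000100000000010020000002000000000 := rS 0x203841bc4ba37a7a14f3190ea793acf5aa2d8e878b0cc34a91599d228f0b9286a3b01864b26b40bf4a6e5889de0865 (k8 a5754 a5905 a5942 a38 a409 a5254 a5941 a4475 (k8 a464 a415 i349 a5943 a5034 a5054 a5954 a2996 (k8 a4381 a102 i490 a5930 a3454 a437 i287 a4200 (k8 i927 i410 a4110 a5492 a368 a399 a4412 i862 (k8 a3410 a4473 a545 a26 i997 a2497 a5596 a197 (k2 a419 a5614 (k1 i1873 k0))))))) (by decide +kernel)
def a5956 : PP 8 4 T 0x2000000000000000000000001000000040400000000100000020200040010000000 := rS 0x8205fa53 (k4 a5254 a5941 a4475 a5614 (k1 i1873 k0)) (by decide +kernel)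
def a5957 : PP 8 4 T 0x2000001000000004040000000000000000000200040000008020000040010000000 := rS 0x286bf4d2a8c26f010e872bb1bd3d3c9d45a14ba83890a44ecb35a4cfaad29a5552fd5cad4662323c660865 (k8 a5754 a5905 a3410 a451 i184 i1585 a5492 i1066 (k8 a5941 a5245 a5111 a5254 a445 a4429 i1589 a464 (k8 a385 a331 a443 a127 a1898 a5 a77 i491 (k8 i1591 a4418 a26 i997 i1685 a5956 a419 a5034 (k4 a5798 i1047 a5050 a5789 (k2 a367 a106 (k1 a5364 k0))))))) (by decide +kernel)
def a5958 : PP 8 4 T 0x2200000000000000000010001040014000000000040000000000000100000000080 := rS 0x6155b2d5a65 (k4 a5754 a445 a385 i458 (k2 i1223 a5050 k0)) (by decide +kernel)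
def a5959 : PP 8 4 T 0x10002000000000000000000010001040005000001000040000018024440040000000008 := rS 0x7a4144c0e711686c3f0440adca6894abf54265 (k8 a5754 a5269 a5941 a5111 a5040 a5254 a4402 a4475 (k8 a5905 a4367 i189 i2723 a4496 a5958 a5806 a3061 (k2 a406 i815 k0))) (by decide +kernel)
def a5960 : PP 8 4 T 0x2000000000000004000000000000000000000000000000010020000002000000000 := rS 0xdc9e410c0ba1a458646a03088dc7e3b781e6326b519dd521733a4cfafd5694d22b90ead4662323c110ec715928927472c44caa1 (k8 a5269 a5754 a38 a409 a5955 a5261 a440 a5930 (k8 i410 i927 a5905 a451 i184 i1585 a5492 i862 (k8 i1066 a5259 a5254 a445 a5941 a4429 i1589 i1588 (k8 a5224 a5245 a5942 i324 a464 a3410 a4473 a5957 (k8 a333 a6 a376 a441 a5959 a5054 i180 a5063 (k4 a437 a2497 a5612 a5594 (k2 a5320 a5799 (k1 i1440 k0)))))))) (by decide +kernel)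
def a5961 : PP 8 4 T 0x2000000000000000000000000000000000000000000000010020000002000000000 := rS 0x113789e10b4f670ad6a4a199251e741489cb22323c11cb11 (k8 a38 a409 a5905 a451 i184 a415 a331 a443 (k8 a5955 i124 a5261 i1585 a440 a5492 a5930 a5960 (k4 a3 i1871 i1067 a5596 (k2 a398 a127 k0)))) (by decide +kernel)
def a5962 : PP 8 4 T 0x2000000000000000000000000000000000000000000000000020000002000000000 := rS 0xcc56261de2304 (k4 a5905 a38 a5942 a5961 (k2 a5739 a5805 (k1 a5920 k0))) (by decide +kernel)
def a5963 : PP 8 4 T 0x2000000000000000000000000000000000000000000000020020000000000000000 := rS 0xef11331589704 (k4 a5905 i73 a5739 a5805 (k2 a58 i1628 (k1 a5920 k0))) (by decide +kernel)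
def a5964 : PP 8 4 T 0x102000000000000000000000000000000000000000080000000020000000000000000 := rS 0x2c022595c9a0d52b9042551191e0825 (k8 a5962 a5905 a451 i184 a72 i743 a107 a382 (k4 a5462 a5963 a5654 i489 (k2 a5072 a4066 (k1 a5019 k0)))) (by decide +kernel)
def a5965 : PP 8 4 T 0x902000000000000008000001001000000000000000000000004020000000000000000 := rS 0x3aa31f29c6cbe8ca692e9939a056e7f609f5faad29a95e2713d9e4de481d8589a2748a0c72c372084aa2323c104aa1 (k8 a5269 a5962 a5905 a451 i184 a72 i743 a107 (k8 a468 i1976 a68 a113 a331 a5963 a4066 i1156 (k8 a440 a4392 a353 a418 a5038 a3227 a382 a5254 (k8 a445 a5941 a4429 a4781 a4430 a4402 a4475 a4439 (k8 a5041 a5110 i2045 a41 i1152 a419 i1916 i995 (k2 i1720 i1422 (k1 a4479 k0))))))) (by decide +kernel)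
def a5966 : PP 8 4 T 0x902000000000000008000001000000000000000000000000004020000000000000000 := rS 0x28c3a07541fd827d7eab4a6a572084aa2323c104aa1 (k8 a5269 a5962 a5905 a451 i184 a72 i743 a107 (k8 a382 a5254 a445 a5941 a4429 a4781 a4430 a5965 (k4 a5013 i742 a1824 a4479 k0))) (by decide +kernel)
def a5967 : PP 8 4 T 0x400000000000000902000000000000008000040000001000000000000000000004020000000000000000 := rS 0x4da5d32bf499ce86b44aa393f1740addfa530b1c4f679379d4ee4826a45065d (k8 a5 a68 a113 a5963 a440 a5262 a5261 a4392 (k8 a353 a418 a5038 a4066 a5254 a5941 a4402 a4475 (k8 a368 i133 a466 a521 a5966 a84 a5238 i1368 (k4 i1455 a1601 a5395 a1490 (k1 i2045 k0))))) (by decide +kernel)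
def a5968 : PP 8 4 T 0x400000000000010102000000000000004000000000001001000000000000000002000008000000000000 := rS 0x9e4745c3677 (k4 a5262 a4375 a360 a3985 (k2 a463 i1187 k0)) (by decide +kernel)
def a5969 : PP 8 4 T 0x400000000000010002000000000000004000000000001001800000000000000000000000000000000000 := rS 0x13f17 (k2 a123 i1187 (k1 a463 k0)) (by decide +kernel)
def a5970 : PP 8 4 T 0x2000000000000000000011000000004400000000000000004020000000000000080 := rS 0x612991e08fd01864e26f3a9dc904d (k8 a5963 a440 a5262 a5261 a4392 a5038 i181 a5943 (k4 a5941 a5905 a451 a5254 (k2 i1224 a5826 k0))) (by decide +kernel)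
def a5971 : PP 8 4 T 0x902000000000000000000000000000000000000000000004004020000000000000000 := rS 0x28c3a0749c59728f5a8ce32cf4eaee9ecc489656e7f609f5faad29a95c8212a88c8f041299cf6753b9209aa1 (k8 a5269 a5963 a440 a5262 a5261 a418 a5964 a5962 (k8 a5905 a451 i184 a72 i743 a107 a382 a5254 (k8 a445 a5941 a4429 a4781 a4430 a4402 a415 a113 (k8 a1729 a36 i1948 i1909 a5967 a3410 a5968 a5492 (k8 a5969 a2352 a466 a19 a5970 i742 a1824 a4479 k0))))) (by decide +kernel)
def a5972 : PP 8 4 T 0x102000000000000000000001000000000000000000000000000020000000000000040 := rS 0xa30e9fd827d7eab4a6a572084aa2323c104aa1 (k8 a5269 a5962 a5905 a451 i184 a72 i743 a107 (k8 a382 a5254 a445 a5941 a4429 a4781 a4430 i742 (k2 a1824 a4479 k0))) (by decide +kernel)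
def a5973 : PP 8 4 T 0x2001000000000000000000000400000040000000000000000000080000000000084 := rS 0x259329b57985523f (k8 a458 a5013 i1224 i460 i995 a5041 a5022 a5110 k0) (by decide +kernel)
def a5974 : PP 8 4 T 0x102000000000000000000000000000000000000000000004004020000000000000000 := rS 0xb1a4601fabe8a9b54a65788249afce7434bad07a075da192ace8ba751c9f480d99aa7458aa26773880c2c480c9acfefd299354ac518bc5c8212a88c8e258219ccaa1 (k8 a5269 a5754 a5964 a5905 a5962 a451 i184 a72 (k8 i743 a107 a3227 a459 a40 a382 a5963 a5254 (k8 a5941 a4430 a464 i181 a440 a4066 a5943 a5038 (k8 a5262 a5971 a5345 a175 i332 i888 i899 i898 (k8 i996 a2317 i1779 a5415 a4418 a521 i1150 i1683 (k8 a5973 a5642 a5972 i1777 a84 a5238 i1456 i1368 (k8 i933 i934 a1601 a5247 i1152 a48 i1986 i1411 (k4 a5022 a442 a5026 a329 k0)))))))) (by decide +kernel)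
def a5975 : PP 8 4 T 0x2000000000000000000002000000000000000000000000008020000000000000000 := rS 0x22a61381bceb171908c8f047ea3d5217 (k8 a2996 a3454 a4381 a5941 a5905 a451 i184 a5492 (k4 a360 i1585 i1400 a201 (k2 i1047 a117 (k1 a5043 k0)))) (by decide +kernel)
def a5976 : PP 8 4 T 0x102000000000000000000000000000000000000000000004000020000000000000000 := rS 0x30c1d8367538ae22f1430870de4e558196a934aaa51e172514cb2cb569adfa4d06b1586e410954464782094ce65 (k8 a5754 a5964 a5962 a5905 a451 i184 a72 i743 (k8 a107 a468 a40 a5462 a5963 a5941 a464 a445 (k8 a385 a415 a5254 a5974 a2996 a4381 a3454 a5111 (k8 a5112 a5975 a5972 i457 a4420 i2816 i1221 i1047 (k8 a5043 a5136 a5050 a117 i1066 i781 a466 a437 (k2 a5652 i180 k0)))))) (by decide +kernel)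
def a5977 : PP 8 4 T 0x102000000000000000000001000000000000000000001000000020000040000000000 := rS 0x4ed3d98c71ba7d34cf42a45071214a056ec561bc5c82323a1c7e734ca5cde538c9c6287b3c920761625a38eab8499dcac678bab52afd65aa5560606884ab04129344e65 (k8 a5754 a331 a5963 a5962 a5905 a72 i743 a5462 (k8 a5972 i457 a5013 a385 a5941 a5111 a445 a5136 (k8 a5964 a5976 i1627 a5112 a5050 i1066 a466 a4381 (k8 a4066 i1156 a440 a353 a418 a5043 a117 a5118 (k8 a5254 a5837 a5110 a5041 a4439 a458 a387 a451 (k8 i184 a107 a3227 a468 a40 a4402 a4475 a443 (k8 a127 a2105 a113 a77 a5966 i2045 i1187 i995 (k4 a2286 a2287 a36 i1909 (k1 a463 k0))))))))) (by decide +kernel)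
def a5978 : PP 8 4 T 0x102000000000000000000001000000000000000000001000000020000000000000000 := rS 0x1163653c4c54030b064968e3aae22ecb1191c9a772b19d560d109544a9549aa40cfd56c114265 (k8 a5754 a5269 a5905 a445 a5941 a5972 a5013 a5112 (k8 a5111 a5962 a72 i743 a5462 i457 a5964 a5976 (k8 i1627 a5963 a451 i184 a385 a5136 a5050 i1066 (k8 a466 a4381 i1131 a4066 a5943 a5977 a378 i332 (k2 i899 a175 (k1 a5973 k0)))))) (by decide +kernel)
def a5979 : PP 8 4 T 0x102000000000000000000001000000000000000000000000000020000000000000000 := rS 0x12c2e2c011800c4d (k8 a5963 a5972 a5978 i1224 i1223 a5019 i2723 a4066 k0) (by decide +kernel)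
def a5980 : PP 8 4 T 0x102000000000000000000000000000000000000000000000000020000080000000000 := rS 0x4ea7d9e8b1b336266b62b9042551299d0e563a8c8464782058f24825ad09a65 (k8 a5754 a5963 a5979 a5975 a440 a353 a4066 a5905 (k8 a451 i184 a5492 i1585 a5976 a387 a5964 a5962 (k8 a72 i743 a107 a40 a464 a378 i888 i899 (k4 a175 a569 a680 i1779 (k1 a4418 k0))))) (by decide +kernel)
def a5981 : PP 8 4 T 0x102000000000000000000000000000000000000000000000000020000000000000000 := rS 0x4ed3d98c71bb3e329a5fa7cc23f42a0d2206890acf27b471bc76714ba652695241d407175492c6473a1ad0ee872b19de2c362a95c81f1489d5a2323884ab0440addfa53129354265 (k8 a5754 a5269 a5963 a5962 a5254 a5941 a4402 a4475 (k8 a5905 a72 i743 a451 i184 a445 a331 a443 (k8 a4367 a107 a382 a40 a468 a3227 a5964 a5976 (k8 a387 i1627 a5979 a84 a5238 a5492 a5975 a5247 (k8 a360 i192 i1585 a440 a5111 a5112 a5041 a5110 (k8 a739 a5034 i1400 a466 a418 a353 a5980 a127 (k8 a3321 a113 a68 a77 a458 i1224 i1187 i1455 (k8 i2045 a5118 i1152 i995 a2286 a2287 a36 i1909 (k1 a463 k0))))))))) (by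 decide +kernel)
def a5982 : PP 8 4 T 0x2000000000000004000000000005000008000000040000000020000000000000080 := rS 0x4b5ca2a2c7b35a3d6b1049aa5faada7c660865 (k8 a5754 a5905 a3410 a20 a445 a5941 a5013 a5112 (k8 a5981 a444 a119 a464 i818 a463 a4418 a465 (k2 i492 a5970 k0))) (by decide +kernel)
def a5983 : PP 8 4 T 0x10002000002000000000000000000008000008000000000000000020004000000000080 := rS 0xc62e764892972353c884aa8f5a9d620a565a4d52fd568edcb04 (k8 a5905 a3227 a333 a445 a5941 a5013 a5112 a385 (k8 i1379 a5981 a453 a444 a119 a72 i743 i1075 (k8 i1183 a1045 a5970 a102 a4927 a332 i1507 a429 k0))) (by decide +kernel)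
def a5984 : PP 8 4 T 0x2000000000000000000000000002000008000000000000000000000000000000000 := rS 0x120ec90 (k4 i1645 i1644 a5259 a5262 k0) (by decide +kernel)
def a5985 : PP 8 4 T 0x2000002000000000000000000000000000000800040000000020004000000000080 := rS 0x2e45a02518d0943124c5c425526b4d4acb4aa4d52fd56b960865 (k8 a5754 a5905 a3227 a445 a5941 a5013 a5112 a5111 (k8 a385 i1379 a402 a5963 a72 i743 a332 a5262 (k8 i1507 a440 a5590 a5032 a5054 i2723 a2475 a5958 k0))) (by decide +kernel)
def a5986 : PP 8 4 T 0x2200000001000000000000000000014000000000040000008000020000000000080 := rS 0x5c8b404a369aa54acb (k8 a385 i1379 a5013 a402 a5032 a5054 i2723 a2475 (k1 a5958 k0)) (by decide +kernel)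
def a5987 : PP 8 4 T 0x2000002000000000000000000000000008000000040000000020014000000000080 := rS 0x13ecf8c8a44b101bb96089d (k8 a5984 a5905 a3227 a376 a5981 a5962 a443 a3146 (k2 a3326 a5983 (k1 a5982 k0))) (by decide +kernel)
def a5988 : PP 8 4 T 0x2000000001000000000000000000000000000000040000000020020000000000080 := rS 0x2585c9a8f8825526a97eab60865 (k8 a5754 a5905 a445 a5941 a5013 a5112 a5111 a5981 (k4 a119 a5963 i1116 a5986 (k1 a4066 k0))) (by decide +kernel)
def a5989 : PP 8 4 T 0x2000002000000000000000000000000000000000040000004020000000000000080 := rS 0x5eb0934a24f834c2c11950c06b80c9351eb58834d4acb49ab5329754bf58e111ab96080f (k8 a5234 a5905 a3227 a5988 a441 a27 a5941 a5013 (k8 a5110 a5041 a445 a5112 a385 i1379 a402 a5981 (k8 a444 a119 a5963 i181 a5970 a5943 a351 a1045 (k8 i1250 i1224 i1609 i1711 a393 a5204 a1762 i1418 (k1 i329 k0))))) (by decide +kernel)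
def a5990 : PP 8 4 T 0x2200002000000000000000000000144000000000040000000000018000000000080 := rS 0x134ce30b093ec101834631723b4d4acb63845ca0f (k8 a5234 a3227 a441 a27 a385 i1379 a402 a451 (k8 a360 i69 i1609 i192 i1613 i1711 a1762 i1224 (k2 a3115 a5204 (k1 a1481 k0)))) (by decide +kernel)
def a5991 : PP 8 4 T 0x2000002000000000000000000000000000000000040000000020000000000000080 := rS 0xc26e169c4041b451e4b8cf5cc650e7719a44943514964d67f2a9f44a4d4795ceb1052b2d2a93569cca6994baa5fa3708b960865 (k8 a5754 a5905 a3227 a441 a376 a5941 a5013 a5110 (k8 a5041 a5254 a4439 a445 a5112 a5111 a385 i1379 (k8 a5981 a453 a58 a119 a5963 a5962 a4429 a72 (k8 a4430 a464 a415 a443 a5988 a5989 a102 a5990 (k8 a5985 a5987 a3146 a1045 a3326 a3812 a4473 a2497 (k4 a5598 a5063 a4496 i2723 (k2 a5875 i1223 (k1 a5837 k0)))))))) (by decide +kernel)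
def a5992 : PP 8 4 T 0x2000002000000000000000000000000000000000000000000020000000000000080 := rS 0x67a1a32bf5118418c1a1a2c6a7701ae02c480c92d3f17332bdca111191c4255129351e575ab350b138834c12a565a4d5b044ca5d52fd (k8 a5941 a5013 a5110 a5041 a5905 a445 a5112 a385 (k8 i1379 i25 a402 a5981 a205 a361 a380 a444 (k8 a58 a119 a5963 a5962 a72 i743 a451 i184 (k8 a441 a3227 i459 a5991 a350 a414 i489 i181 (k8 a440 a4066 a5970 a5943 a5262 i1116 a175 a351 (k8 i1250 a5072 i1224 a393 i3029 a5021 a5893 a5199 (k1 a2722 k0))))))) (by decide +kernel)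
def a5993 : PP 8 4 T 0x2000000000000000000000000000000000000000080000000020000000000000080 := rS 0x364580c2c19258edfa4d2ba9c54f189c4208a1 (k8 a5269 a5905 a5981 a205 a5992 a5345 i332 a58 (k8 a5963 a5941 a5694 i489 i387 a4066 a5943 a175 (k2 i899 a5973 k0))) (by decide +kernel)
def a5994 : PP 8 4 T 0x2000000001000000000000000000000000000000000000000020000000000000084 := rS 0x3119a8818aa8613c3a711ec50de610f964fe553ea3caeb53ab4d4acb4aa4d5a7329a652ea97eabd4e2a78c4e21041a99d4265 (k8 a5754 a5269 a5993 a5988 a5905 a5981 a205 a5992 (k8 a5345 i332 i460 a5941 a5013 a5110 a5041 a5254 (k8 a4439 a445 a5112 a5111 a385 i1379 a402 a453 (k8 a444 a58 a119 a4429 a72 a4430 a415 a4367 (k8 i1224 a5837 a5043 a5168 a117 i901 i1221 a377 (k4 a4420 a5630 i458 i1609 (k2 i1651 a1299 k0))))))) (by decide +kernel)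
def a5995 : PP 8 4 T 0x2000000001000000000000000000000000000000000000000020000000000000080 := rS 0x169b97277251c4661b0b8c40435239fcaa7d26a3caeb53aa254acb4aa4d5a7354bf4a6a7153c627108219d4265 (k8 a5754 a5269 a5993 a5905 a5981 a205 a5992 a5345 (k8 i332 a5254 a5941 a5013 a4439 a445 a5112 a5111 (k8 a385 i1379 a5042 a453 a444 a58 a119 a5963 (k8 a4429 a72 a4430 a451 a5988 a5994 i1002 a5019 (k8 i189 i192 a4497 a4066 a877 a1045 a1299 i2723 (k1 a5788 k0)))))) (by decide +kernel)
def a5996 : PP 8 4 T 0x2000000000000000000000000000000000000000000000000020000000000000088 := rS 0xc278250602e29139353297548a9e313378709cab06b9196fd29954aead2cc116b10 (k8 a5981 a444 a5905 a415 a445 a58 a72 a5254 (k8 a5941 a385 a5995 a392 i457 a4420 i1221 i2816 (k8 a205 a5992 a5345 a5013 a5110 a5041 a5963 a331 (k4 a443 a5019 a5943 a4066 (k2 i388 i1047 (k1 a5197 k0)))))) (by decide +kernel)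
def a5997 : PP 8 4 T 0x2000000000000000000000000000000000000000000000000020000000000000080 := rS 0x184063c0e139560d722bd4e2a78a5d32a92996596ad2abf4aeb589c4208a1 (k8 a5269 a5905 a5981 a205 a444 a58 a5941 a72 (k8 a445 a385 a415 a5254 a5013 a5041 a5110 a5992 (k8 a5345 i332 i460 a5995 a392 i457 a4420 i1221 (k4 i901 a5996 i1224 a5168 k0)))) (by decide +kernel)
def a5998 : PP 8 4 T 0x2000000002000000000000000000000000000000000000000020000000000000000 := rS 0x14ac15688c427f2a94c4ab588075460723c11faa1 (k8 a5269 a5941 a5905 a451 a5997 a1824 i742 a5981 (k8 a444 a5962 a5254 a72 a4430 i743 i184 a445 (k2 a408 a382 (k1 a4479 k0)))) (by decide +kernel)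
def a5999 : PP 8 4 T 0x2000000000000000000000000100000000000000000000000020000000000000000 := rS 0x4301a61f5688c427f2a94c4ab588075460723c11faa1 (k8 a5269 a5941 a5905 a451 a5997 a1824 i742 a5981 (k8 a444 a5962 a5254 a72 a4430 i743 i184 a445 (k4 a4367 a4042 a4479 a1807 (k1 i1265 k0)))) (by decide +kernel)
def a6000 : PP 8 4 T 0x2000000000000000000000000000000000000800000000000020010000000000000 := rS 0x318b884ab04728cd48fd (k8 a5941 a5999 a5187 a5998 a5905 a72 i743 a332 (k2 i1507 a429 k0)) (by decide +kernel)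
def a6001 : PP 8 4 T 0x2000000000000000000000002000000000000000000000000020000080000000004 := rS 0x41d147cbc6333d3a3986a406c1b3905902b729a3d6b13880cdfa6752094b2212ac1076f1 (k8 a126 a5034 a5905 a72 i743 a415 a5962 a5999 (k8 a5647 a5941 a5187 a5981 a205 a444 a119 a5254 (k8 a4402 a4475 a3454 a5247 i9 i899 i898 a456 (k8 i294 i1780 i1149 a5099 i415 i414 a80 i1415 (k1 a462 k0))))) (by decide +kernel)
def a6002 : PP 8 4 T 0x2000000000000000000000000000000000000000002000000020000080000000004 := rS 0x13c36678597030259bc581f2681c6667521644255820ede2c312a2552fd (k8 a5941 a6001 a5040 a5962 i371 a126 a5034 a5905 (k8 a72 i743 a415 a5999 a5647 a5187 a5997 a5963 (k8 a4367 a5026 a5792 i1047 i1384 i1383 a4066 i989 (k2 i899 a5948 (k1 i2669 k0))))) (by decide +kernel)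
def a6003 : PP 8 4 T 0x2000000000000000000000000000000000000000000000000020000080000000004 := rS 0x715cc505a6f30aa4fe553eab6085347ad4eb1003b9466fd3ba4d4835 (k8 a5054 a5999 i1365 a6000 a5941 a5187 a5998 a5997 (k8 a5981 a453 a444 a119 a5254 a5905 a445 a4429 (k8 a72 a4430 a6001 a6002 a5837 a3572 a5043 a1710 (k2 a117 a1698 k0)))) (by decide +kernel)
def a6004 : PP 8 4 T 0x2000000000000000000000000004000000000000000000000020000000000000004 := rS 0x18c5dca33523f46a8b08bc0562789c420829 (k8 a443 a5905 a5981 a205 a331 a6003 a127 a441 (k8 a5063 a5054 a5941 a5999 a5187 a5998 a5415 a5320 (k1 a429 k0))) (by decide +kernel)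
def a6005 : PP 8 4 T 0x2000000000000000000000000000000000000000000000000020000000000000004 := rS 0x541cd28994f2f68abf410fde02b0f8a44e815bbf4a6b589c420807a1a90caa1 (k8 a5269 a5754 a5999 a129 a5997 a5905 a5981 a205 (k8 a444 a5254 a5941 a4402 a4475 a331 a443 a4367 (k8 a6003 a127 a6 a3061 i1451 a48 i1415 a6004 (k4 i1113 a856 i924 a5111 (k1 a5247 k0))))) (by decide +kernel)
def a6006 : PP 8 4 T 0x2000002000000000000000000000000000000000000000000020000000000000000 := rS 0x27116784fb3e327b5ed1534bf410ac7e3b0f9ad02b729ad50b138829c7b4333a904a591095608891c8dc5a074aa652e4a0b9c436a97ea443002268a4caa1 (k8 a5269 a5754 a443 a5963 a6005 a5943 i1169 a5941 (k8 a5029 i189 a4496 a5019 a4066 a5110 a5041 a5111 (k8 a5997 i1001 a446 a401 a5039 a5905 a72 i743 (k8 a415 a5962 a5999 a5647 a129 a5642 a1825 a5981 (k8 a205 a361 a444 a5254 a4402 a4475 a464 a4367 (k8 a333 a6 a126 a3061 i1451 a5023 a48 i1415 (k8 i815 a41 i1152 a856 a406 i492 a4418 i1857 k0))))))) (by decide +kernel)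
def a6007 : PP 8 4 T 0x2000000000000000000000000000000000000000000000000020000000000000000 := rS 0x37430c14557a0c7cbc4db199c9d4fa2d7e3a3c1ed862a789292e990c06c2ea90119d4913429d56b10268956e817e884d6552cc10a665 (k8 a5754 a5254 a5905 a415 a72 a464 i743 a5941 (k8 a4475 a4402 a5962 a5963 a5981 a444 a453 a361 (k8 a205 a5999 a5647 a6005 a5029 a5019 i189 a5943 (k8 a5041 a5110 a4066 a6006 a5345 i371 i811 i388 (k8 i387 i1452 i492 i1075 i1857 a4418 i1146 i1152 (k8 i415 i414 i1415 i1986 a80 a5022 a462 i1047 (k1 a357 k0))))))) (by decide +kernel)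
def a6008 : PP 8 4 T 0x2000000000000000000000000000000000000000000000000000000080000000000 := rS 0x41 (k2 a6007 a5002 k0) (by decide +kernel)
def a6009 : PP 8 4 T 0x2000000000000000000000002000000000000000000000000000000000000000000 := rS 0x41 (k2 a6007 a5243 k0) (by decide +kernel)
def a6010 : PP 8 4 T 0x1000000000000402001000000000000000201000200000000000000000000000008000000000000000 := rS 0x1970557034bac614aee9e832787502b72995c4641 (k8 a6007 i249 a5066 a5784 a4402 a4475 i1381 a5051 (k8 i1415 a128 i106 i257 i1412 a5087 a342 a174 (k2 a4480 i626 (k1 a5777 k0)))) (by decide +kernel)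
def a6011 : PP 8 4 T 0x402001001000000000008201000200000000000000000000000000000010000000000 := rS 0x410513175774f4193c3a812995c46592a91c5641 (k8 a6007 a6008 a354 a5003 a487 i249 a5066 a5784 (k8 a4475 i1381 a5051 i1415 a128 i106 a5087 a127 (k2 a4480 i1955 (k1 a5530 k0)))) (by decide +kernel)
def a6012 : PP 8 4 T 0x400000000000000002000000001000000010400000401540010000000000000000001420100000000000 := rS 0x6e39 (k2 i360 i1121 (k1 a5024 k0)) (by decide +kernel)
def a6013 : PP 8 4 T 0x1000000000000002000000001000000009001000441554010050014000004000004054100000000000 := rS 0x881d11e4a8a060931901b3c705523894b2770d9357241 (k8 a6007 a1710 a5778 a5018 a877 a487 a5006 a354 (k8 a5003 a5122 a3326 a401 a42 a5053 a5045 a422 (k4 a440 i1130 a1698 a5160 (k1 a453 k0)))) (by decide +kernel)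
def a6014 : PP 8 4 T 0x1000000000000402001001000000000000201000204010000000000000000000000000000000000040 := rS 0x32031b0d44e281d8b584d2638fd7f4f4da65129356a752ea760b147ae5518ccfa710d934fe6f8614cae232787482a9 (k8 a6009 a6007 i1381 a5051 i249 a5066 a5784 a4371 (k8 a357 a35 a5778 a5018 a4496 a4358 a5187 i93 (k8 a382 a5642 i1795 i1251 a1825 a5110 i1911 a346 (k8 a5112 a5040 i1991 i1418 a128 i135 a6010 i414 (k8 a442 a379 a329 i374 a6011 i48 a6012 a6013 (k2 a446 i1044 (k1 a5045 k0))))))) (by decide +kernel)
def a6015 : PP 8 4 T 0x1000000000000002001001000000000000201000204010000000000000000000000000000000000040 := rS 0xd51667250306f1924b2cd5053d2b8f25d48c48de71862dd02730d94c9a572788c3abba7a6d32974183c82a9 (k8 a6009 a6007 a5234 i1415 a5110 i1991 i1418 a128 (k8 i106 i1381 i249 a5051 a5066 a5778 a5784 a5018 (k8 a5138 a4475 a4402 a4371 a4496 a357 a6014 a113 (k8 a5 a398 a4535 i2045 a4480 i1986 i626 a418 (k8 a390 i1776 a5777 a440 a5069 a5064 a4378 a5853 k0))))) (by decide +kernel)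
def a6016 : PP 8 4 T 0x802001000000000080000201000100000000000000000004000000000000000000040 := rS 0x42552c899547f0faba18b78294d774f538f5063f2787502292e90456a1 (k8 a5269 a6008 a6007 a5 a54 a45 a341 a5051 (k8 i1411 i1415 a5642 a1825 a128 i106 a5784 a4480 (k8 a4402 a4371 a4535 a81 a35 i1987 i2031 i582 (k2 i1658 a5530 (k1 a5150 k0))))) (by decide +kernel)
def a6017 : PP 8 4 T 0x802001000000000080000201000100000000000000000000000000000000000000040 := rS 0x2bd6e53359fcac7d4093c3a41 (k8 a6007 a341 a5051 a45 i1331 a6016 a4388 a5081 (k4 i569 i1989 i1986 a4535 k0)) (by decide +kernel)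
def a6018 : PP 8 4 T 0x2001001000000000000200000104100000000000000008000000050100000000040 := rS 0x4945b3e3203088cc70c2338edcac7129ac185910d3d36894ea5d4ec51e8fc82a9 (k8 a6009 a6007 i1411 a5642 i1795 a1825 a5110 i1911 (k8 a5040 i1418 a128 a2991 i119 a5083 a5081 a5006 (k8 a342 a392 a5821 a5654 a379 a5023 i1609 i1952 (k4 a401 a42 i1977 a5063 (k2 a5053 a4476 k0))))) (by decide +kernel)
def a6019 : PP 8 4 T 0x2000000000000000000000000000000000000000000000000000800020000000000 := rS 0x1203090 (k4 i255 i254 a5259 a2997 k0) (by decide +kernel)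
def a6020 : PP 8 4 T 0x2001000000000000000000000000500000000000000200010004040100000000040 := rS 0x19018e0767b140411297538f482a9 (k8 a6009 a6007 a5642 a1825 a5110 a5040 a5062 a5087 (k4 i3093 a6019 a5023 a401 (k2 i235 a5045 k0))) (by decide +kernel)
def a6021 : PP 8 4 T 0x1000000000000002001001000000000000201000100500000000000000004000000040000000000040 := rS 0x280809c18202a965546a57414ba7f0fc316e8129935774f418b49e1d89b487ea71e8ac1e41 (k8 a6007 a5234 a6008 a5642 a1825 i1411 a442 a6017 (k8 a341 a5051 a329 i1415 a128 i106 a5778 a5784 (k8 a4475 a4402 a4371 a81 a35 a6020 a4480 a174 (k8 i1986 i1987 i582 i1658 a5150 a4692 a5530 i467 (k2 a127 i1835 k0))))) (by decide +kernel)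
def a6022 : PP 8 4 T 0x1000000000000002001001000000000000201000104100000000000000000000000040000000000040 := rS 0x96184700868222b26c5ad21fa9c7a41 (k8 a6007 a5642 a1825 i1411 a442 a329 i1418 a6021 (k4 a5066 a6018 a5054 i247 (k2 i246 a5046 (k1 a3008 k0)))) (by decide +kernel)
def a6023 : PP 8 4 T 0x1000000000000002001001000000000000201000004010000000000000000000000000000000000040 := rS 0x62e4cf05551a95d1430a2c063616b487ea54da652ea71e9041ea9 (k8 a6009 a5234 a6007 a5642 a1825 a5110 i1991 i1418 (k8 a6015 i1411 a442 a329 a6022 a446 a4382 a5026 (k8 a5043 a5022 i1986 i1987 a464 a5070 a4425 a4517 (k1 a5836 k0)))) (by decide +kernel)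
def a6024 : PP 8 4 T 0x2001000000000080000200000100410000000000000000000000091000000000000 := rS 0x4733c15546a5718516034ca2526ad4b8b546a9 (k8 a6009 a99 a329 a5110 a346 a5112 a5040 i1991 (k8 a446 a4382 a5026 a5022 i1986 i1987 a464 a5070 (k2 i1655 a4465 k0))) (by decide +kernel)
def a6025 : PP 8 4 T 0x1000000000000002001001000000000000200000004010000000000000000000000000000000000040 := rS 0x670623203268e0ae3716b487e3b528c62e35192d07aa7a7a6d32894ea5c82a9 (k8 a6009 a6007 a5110 i1911 a5040 i1991 i1418 a128 (k8 a1825 a5642 a6023 a5492 i70 a360 i69 i288 (k8 i399 i1411 a442 a329 a6024 a6018 a5023 a5778 (k4 a401 a42 a5045 a463 (k1 a3386 k0))))) (by decide +kernel)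
def a6026 : PP 8 4 T 0x2000000000000000008000000080000000000000000000000000000000000020080 := rS 0x2ac186a (k4 i1952 i1953 i2271 i1647 k0) (by decide +kernel)
def a6027 : PP 8 4 T 0x1000000000000002001001000000000000200000004010000000000000000000000000000000000000 := rS 0x222cd5a20a26af2e8444225612894aa6609fc7b0c5ba049e531fb4c0cbfa1aec82a1 (k8 a5269 a6007 i106 a338 i135 a6025 a402 a458 (k8 a5252 i1222 a4475 a4402 a4371 a5522 a35 i1251 (k8 a442 i368 i1985 i1984 a4013 i1649 a6026 a5062 (k4 i459 a4535 a174 i1415 (k2 i895 a444 (k1 a1038 k0)))))) (by decide +kernel)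
def a6028 : PP 8 4 T 0x10002000001000000000000000040800500000000000001000000000000000000000000 := rS 0x10e114111ba5c76a9 (k8 a6009 a5030 a5089 i1916 i1912 a5022 a419 a5063 (k1 a401 k0)) (by decide +kernel)
def a6029 : PP 8 4 T 0x10002002001000000000000200000004000000000000000000000000000000000000008 := rS 0x19b13438862235480990a8e0b2d490332699c744b1b8e69e41 (k8 a6007 a128 a401 a446 a5046 a419 a5694 a5805 (k8 i193 a440 a5492 a5260 a2898 i1872 i1156 i1155 (k4 a5200 a119 i726 i737 (k2 a113 i893 (k1 a436 k0))))) (by decide +kernel)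
def a6030 : PP 8 4 T 0x12000000000000000000000000000080000200040000100000000080000000000000 := rS 0x38078de1d69a2078a1 (k8 a5269 i1777 i1778 a335 i2865 i2857 a377 a5395 (k1 i2873 k0)) (by decide +kernel)
def a6031 : PP 8 4 T 0x1000000000000002002001000000000000000000000500000000000000000000000000000000010004 := rS 0x1ecf2281e09da6381bc3626801fa0d6f154b22cba5327a9e32af308ece691248ad5241 (k8 a6007 a6009 a6008 a5053 a5259 a5115 a5034 a397 (k8 a427 a5121 a6028 a74 a452 a5062 a5063 a5022 (k8 a5447 i1902 i1376 i1372 a4508 a4532 a1590 a6030 (k8 a419 a2796 i3087 a442 a127 i3080 i3094 a406 k0)))) (by decide +kernel)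
def a6032 : PP 8 4 T 0x2000000000000000000000000000000000000000000000020000000000000000004 := rS 0x56 (k2 a5778 a5082 k0) (by decide +kernel)
def a6033 : PP 8 4 T 0x1000000000000002000001000000000000200000004010000000000000000000000000000000000000 := rS 0x7040099103c5b8d92c3945928304d081cc923b01c649eaf3094df8994d8ac82a9 (k8 a6009 a6007 a6008 i1418 i1991 a6027 a452 a397 (k8 a427 a74 a5121 a6029 a5034 a5053 a5115 a6031 (k8 a6032 a5045 a440 a5064 i1873 a5022 a419 i1902 (k4 i1777 i1778 i1044 a5166 (k2 i231 a651 k0))))) (by decide +kernel)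
def a6034 : PP 8 4 T 0x1000000000011002002001000000000000000000000500040000000001000000000000000002000004 := rS 0xe0801322078361cadc20962993c7673248ac82a9 (k8 a6009 a6007 a6008 a5053 a5115 a5034 a74 a452 (k8 a5025 a6031 i1902 i1873 a419 i1777 i1778 i1044 (k2 a5166 i231 (k1 a651 k0)))) (by decide +kernel)
def a6035 : PP 8 4 T 0x1000000000010002000001000000000000200000004000000000000000000000000000000000000000 := rS 0x106b789ad4ba78130d8df041cb39029845928e618248ec069b8a9849a6729abc9efc4a104caa9 (k8 a6009 a5754 a6007 a6033 a5111 a74 a427 a452 (k8 a5073 a5805 i1018 a14 i1418 a6029 a5034 a5053 (k8 a5045 a5115 a440 a5064 a6034 i1864 i1990 a3386 (k8 a4458 i2736 a419 i1044 i1043 a3002 a725 a398 (k2 i1933 i1415 (k1 a174 k0)))))) (by decide +kernel)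
def a6036 : PP 8 4 T 0x2000000000000001000000000000000001000000400015000000000008100000000 := rS 0x10e5d (k2 a3002 i737 (k1 a460 k0)) (by decide +kernel)
def a6037 : PP 8 4 T 0x2202000000000001000204000004000041100000040104001000000000000000000 := rS 0x2d10c825faeca6af27964aa6b (k8 a464 a72 a415 a74 a427 a452 i106 i135 (k4 a4396 a460 a4531 a5414 k0)) (by decide +kernel)
def a6038 : PP 8 4 T 0x1000000000000002202000000000008000204000004000440114000040000001000000001000000000 := rS 0x861f906b52e334ae755f94d5e4f35c5d0a41 (k8 a6007 i1871 a5415 a464 a74 a427 a452 i135 (k8 a3416 a4274 a1006 a6037 a5392 i1415 a4395 a4373 (k1 a35 k0))) (by decide +kernel)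
def a6039 : PP 8 4 T 0x1000000000020002000000000000000000200000004020000000000000000000000000000000000004 := rS 0xe2832ead9027d479cc3049129346a8b3dc1126b9339bd9c987e2a48265 (k8 a5754 a6007 a6009 a5111 a5121 i1990 i2736 a5073 (k8 i131 i83 a5120 a390 a52 a5055 a5805 a5009 (k8 a5053 a5045 a5115 i1130 i1598 i1864 a6038 a4393 (k2 i103 i801 (k1 a4363 k0))))) (by decide +kernel)
def a6040 : PP 8 4 T 0x1000000000000002000001000000000000200000004000000000000000000000000000000000000000 := rS 0x723486637448085a4765b3a08988c2adf8935c99c6b154a2a4ca0f (k8 a5234 a5754 a6009 a6033 a14 a5055 a5073 i131 (k8 i83 a5111 a97 a6035 a5121 a5120 i1990 a385 (k8 a451 i2654 a6039 a5039 a446 i193 a5011 a3326 (k1 a4206 k0)))) (by decide +kernel)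
def a6041 : PP 8 4 T 0x2002001000000008000200000004000040000000000000010000000000000000000 := rS 0x1c10026440f06c390c0ec06968c93cc2534dadd5e99a20ac82a9 (k8 a6009 a6007 a6008 a6040 a433 a381 a116 i1418 (k8 a452 a397 a74 a5121 a5022 a6029 a5034 a5045 (k8 a3386 a419 i1777 i1778 i1044 a5166 i231 a651 k0))) (by decide +kernel)
def a6042 : PP 8 4 T 0x2000000000000000000000000000000000000000002000010000000000000000004 := rS 0x3041 (k2 a6007 a5045 (k1 a5091 k0)) (by decide +kernel)
def a6043 : PP 8 4 T 0x2000001000000008000200000004000000000000040000000000000000000000000 := rS 0x409cca657068d4f216379ec90911992c7202301c52e937ea2e2ebf56a6d06b757a66881b26904caa9 (k8 a6009 a5754 a6007 a5805 a5018 a6040 a433 a381 (k8 a116 a48 i1418 a346 i135 a368 i1979 a6041 (k8 a5112 a5110 a4496 a5199 a6042 a401 a5046 i193 (k8 a5061 a440 a418 a4392 a5260 a353 a5200 a5078 (k4 a5083 a5784 a5138 a4475 (k1 i2045 k0)))))) (by decide +kernel)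
def a6044 : PP 8 4 T 0x2000000000000004000200040004000040000000042000000000000000000000000 := rS 0x55c14d49d65a5dfa65 (k8 a5754 a397 a449 i1392 i1911 a4418 a4417 i585 (k1 a285 k0)) (by decide +kernel)
def a6045 : PP 8 4 T 0x2000001000000000000200000004000040000000040000000000000000000000008 := rS 0x465f8968a98536af4cd119ea9 (k8 a6009 a6043 a6040 a433 a381 i1418 a6044 a5447 (k4 a5022 a5043 a71 a6029 k0)) (by decide +kernel)
def a6046 : PP 8 4 T 0x2001000000000000000015050000000400400514001100010000000000000000000 := rS 0x4e3f1f5031429a4c82a9 (k8 a6009 a6007 a5112 a5819 a5043 a4475 a4429 a1698 (k2 a4396 a5080 k0)) (by decide +kernel)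
def a6047 : PP 8 4 T 0x2000001000000000000200000004000000000000040000000000000000000000008 := rS 0x1f89c732995cfa0d40b147a07302e51f164e8b4529749a54ba3a7ec6514353b9d42c6f38ad49033258dc72ada7a6d06b757d109acf208ad5265 (k8 a5754 a6009 a6008 a6007 a6043 a5805 a6040 a381 (k8 a116 a48 i1418 a128 a346 a401 a446 a5046 (k8 i193 a440 a5492 a5038 a4392 a5260 a5261 a5262 (k8 a5200 a6045 a52 a6029 a419 a172 a5111 a5112 (k8 a5110 a6019 i1157 i1911 a463 a123 a465 a6046 (k8 i1223 a5642 i1795 a3721 a5821 i1331 a5083 a5784 (k4 i1017 a4396 a5884 a5080 k0))))))) (by decide +kernel)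
def a6048 : PP 8 4 T 0x1002000000000000000000004000000581040100000000000440000000000000000000 := rS 0x170f319 (k4 a71 i1855 a4508 a2497 k0) (by decide +kernel)
def a6049 : PP 8 4 T 0x10402000001000000000000000000000000040000000000200000000400000000400000 := rS 0x72370809c5641 (k4 a6007 a6008 a3002 a5062 (k2 a1577 i1873 (k1 a419 k0))) (by decide +kernel)
def a6050 : PP 8 4 T 0x2000001000000000000200000004000000000000040000000000000000000000000 := rS 0xb07a713d0a0f2d31c0dcbb0d4044c9f197e25a2a8b2985c94913998430491d80c364d4dadd5e991fd115241 (k8 a6007 a6009 a6040 a80 a433 a381 a116 i1418 (k8 a5805 a5018 a6047 a5034 a5053 a5045 a6042 a5115 (k8 a5259 a440 i8 a5819 a5064 a5447 a5022 a5043 (k8 a71 a74 a4532 a6048 a4 a6049 a6030 a419 (k8 a2796 i1852 i234 i235 i1363 i3094 a5126 i1243 k0))))) (by decide +kernel)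
def a6051 : PP 8 4 T 0x2000000000000000000000000000000000000000000000004000000000000000004 := rS 0x609a41 (k4 a6007 a6032 a5045 a5067 k0) (by decide +kernel)
def a6052 : PP 8 4 T 0x2000000000000000000000000000000000000000080000000000000000002000000 := rS 0x66252b164988f248089641 (k8 a6007 a5069 a6051 a2997 a3008 a440 i544 a5778 (k2 a5006 a4166 (k1 a5203 k0))) (by decide +kernel)
def a6053 : PP 8 4 T 0x2000001000000000000200000004000000000000000000000000000000000000000 := rS 0x409cca6792b9bce2160c981fa7b4ba2d23180d8dc72890112c76664cabd6e83a226c82a9 (k8 a6009 a6007 i1418 a6040 a48 a116 a381 a433 (k8 a6050 a5694 a5069 a6051 a5039 a401 a446 a5047 (k8 a419 a114 a52 a71 a390 a5121 a5022 a6052 (k8 a437 i710 i2670 a5183 i972 a5784 i1017 a4475 (k1 i2045 k0))))) (by decide +kernel)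
def a6054 : PP 8 4 T 0x2001000000000000001000000000008010000014080014000000000001000000000 := rS 0xd356154e65307a855241 (k8 a6007 a6009 a5269 a5234 a5784 a5138 a5866 a5112 (k2 a5148 a1809 k0)) (by decide +kernel)
def a6055 : PP 8 4 T 0x2001000000000000000000000000400000000000480000000000008000000800008 := rS 0x16a9c0eaa5c24c4e8f66a160ac1069184235269dce289379e46e7b1c89462592445d96953f8ecaa7d398f502b72995c8265 (k8 a5754 a6007 a5183 a5784 a4402 a4475 a5522 a5138 (k8 a4358 a5866 a5694 a5682 a5073 a5071 a350 i998 (k8 i869 i1002 i861 a401 i714 a446 i972 i2670 (k8 a5039 i710 a5225 a4369 i70 i1611 i192 a5076 (k8 a193 a451 a1949 a2010 a4353 a6036 a6054 a5883 (k4 a4426 i457 a1825 i1001 (k1 a5521 k0))))))) (by decide +kernel)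
def a6056 : PP 8 4 T 0x2001001000000000000000000004000400000000080000000000000000000800008 := rS 0xbba7b398e2813a157023882f4ee754a9fd3a7da2c4d9ab541204f2b74b9cca6993da4586c57224d8235108ccd68b4dc6076391b9549b172b9649025189bce2891599482a9 (k8 a6009 a6007 a5754 a6008 a5039 i710 i2670 i1002 (k8 i861 i998 i869 a5183 a350 a4369 a5866 a446 (k8 a401 a5694 a419 a41 a52 i547 a6055 a5689 (k8 i1117 a193 a6054 a429 a40 a1105 a114 i714 (k8 a5041 a5784 a5138 a71 a4402 i972 a4475 i2045 (k8 a5492 i894 a68 a48 a4358 a347 a5682 a5073 (k8 i970 a5225 a6053 a466 a5635 a5883 a361 a6036 (k4 a127 i258 i2035 a3 (k2 i1950 a2423 k0))))))))) (by decide +kernel)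
def a6057 : PP 8 4 T 0x2001001000000000000000000004000000000000080000000000000000000800008 := rS 0x31d9e2743c12228e62b918635668856a3389a0902735b94d3231269c5126f241e4f7172a95d22974da74d68b8c0ec7237159055265 (k8 a5754 a6009 a6007 a6008 a446 a401 a5694 a419 (k8 a52 i547 a347 a41 a71 a114 a5183 a5866 (k8 a350 i714 i972 i998 i2670 a5039 i710 a4369 (k8 i1002 a5041 a5784 a4402 a5138 a4475 i2045 a68 (k8 a6055 a5492 a5689 i894 i1117 a1105 a429 a40 (k8 a6056 a119 a5829 i931 a2998 a569 a275 i2035 k0)))))) (by decide +kernel)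
def a6058 : PP 8 4 T 0x2000001000000000000000000004000000000000080000000000000000000800008 := rS 0xcdca3523b4a091516a3956af30bf2303b65c5d12391b8c49a48079055265 (k8 a5754 a6009 a6007 a5234 i998 a4369 i1002 a446 (k8 a401 a5039 a350 a5071 a5694 a419 a6057 a397 (k8 a427 a97 a2898 i1000 a561 a5829 a5011 a451 (k4 a5181 a4206 i192 a429 k0)))) (by decide +kernel)
def a6059 : PP 8 4 T 0x2002000000000000000000000000000000000104040000002000010000000000008 := rS 0x935cc50f8d32b91d96e406c10fe558b8b51cab5693cc253448c4b2b51983c8265 (k8 a5754 a6007 a5234 i193 a5492 i869 i1002 a5039 (k8 a452 a397 a74 a420 a97 a2898 i1000 a123 (k8 a4380 a930 a4856 a5078 a429 a385 a451 a5083 (k4 a4206 a4397 a5011 i1329 (k2 a115 a853 k0))))) (by decide +kernel)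
def a6060 : PP 8 4 T 0x10002000001000000000000000000004000800000000000000000000000000000800008 := rS 0x3350a264817474372c920aa21618e48e6b821d56a5706b15c9171a8c466671583cca41 (k8 a6007 a5754 a5234 a6008 a6058 i193 i1002 a5200 (k8 a123 a429 a40 a5078 a5083 a5492 i970 a4856 (k8 a464 a451 a401 a1105 i726 a4380 i998 i869 (k8 a446 a419 a172 i1155 i1156 a3924 i893 a6036 k0)))) (by decide +kernel)
def a6061 : PP 8 4 T 0x2000001000000000000000000004000800000000000000000000000000000800008 := rS 0x3362685a7a090ece4da46308139adca65706c122f1138a24f2373d8e56a334ca5dfa3533920de7518904caa9 (k8 a6009 a5754 a6007 i1002 i970 i2670 i998 a6058 (k8 a5200 a6059 a5110 a5041 i193 a5492 a401 i714 (k8 a446 i972 a5039 i710 a119 a123 a4856 a5078 (k8 a5083 a5784 a4402 a5138 a4475 a6060 a114 a41 (k8 a3410 i931 i2045 a3 i1870 a68 i894 a436 k0))))) (by decide +kernel)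
def a6062 : PP 8 4 T 0x2200001000000000000100000000000400000000040004000000000000000800008 := rS 0x515774f4133936918c0ec4e8566c422eb83fa04e6b73e94cee71449e46e7b1c9652a994b954d62126a4d5afd1a920de7518904caa9 (k8 a6009 a5754 a6007 i1002 i970 i2670 i998 a5200 (k8 a6059 a445 a5112 a4369 a5102 a464 a72 a5110 (k8 a5041 a5111 i869 a401 i714 a446 i972 a5039 (k8 i710 a5225 a5784 a4358 a4402 a5138 a4475 a4430 (k8 a5875 a465 a2352 a1006 a361 a6036 i1156 a419 (k8 a114 a41 a3410 i2045 a3 i1950 a48 a2423 k0)))))) (by decide +kernel)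
def a6063 : PP 8 4 T 0x2001000000000000000010010000000400040404000000402000000000000000000 := rS 0x1f4e695499055265 (k8 a5754 a6009 a6007 a5112 a5111 a5138 a4429 a5884 k0) (by decide +kernel)
def a6064 : PP 8 4 T 0x2200001000000000000100000000000400000000040000000000000000000800008 := rS 0x608b5461d869494ab911444fe56498855a89269dc4ab519a55fa35241bcea31509055265 (k8 a5754 a6009 a6007 a5269 i1002 i970 i2670 i998 (k8 a5200 a6059 a5111 i193 a5492 i861 a5225 a4369 (k8 a5039 a445 a5102 a5112 a6062 a4388 a58 a5066 (k8 a2352 a164 a6063 a383 a1820 a1805 a5442 i1574 (k1 a5049 k0))))) (by decide +kernel)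
def a6065 : PP 8 4 T 0x2001000000000000000010000000004400000404000008002000014001000000008 := rS 0xc116a8c3b0d292b54a2206444fe21448c56a9550904caa9 (k8 a6009 a5754 a6007 a5269 a5111 a5492 i1002 a5039 (k8 a2991 a4388 a58 a5083 a5066 a164 i2950 a6063 (k4 a383 a1820 a1805 a5442 (k2 i1574 a5049 k0)))) (by decide +kernel)
def a6066 : PP 8 4 T 0x2000001000000000000000000004000000000000000000000000000000000800008 := rS 0x13e1a7e399f4a6575ca4e2d0547a55fa351999c4a48379d4eebd18904caa9 (k8 a6009 a5754 a6007 i1002 a6053 a5225 i970 i2670 (k8 i998 i861 a6058 i193 a5200 a6059 a5111 a6061 (k8 a6064 a4379 a4788 a465 a6065 a5784 a4358 a5138 (k4 a5884 a35 a5080 a4371 k0)))) (by decide +kernel)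
def a6067 : PP 8 4 T 0x2000001000000000000000000004000000000000000000004000000000000000000 := rS 0x3393030490b86c0441 (k8 a6007 a6051 a5047 a6066 a5260 a437 a440 a6052 (k1 a5805 k0)) (by decide +kernel)
def a6068 : PP 8 4 T 0x2001000000000000000000000000000000080000000000400000000000000000000 := rS 0x13e1a41 (k4 a6007 a35 a5080 a4371 k0) (by decide +kernel)
def a6069 : PP 8 4 T 0x2100000000000000000000000000000000000200000014000000000000000000000 := rS 0x1562265 (k4 a5754 a453 i1539 a362 k0) (by decide +kernel)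
def a6070 : PP 8 4 T 0x2100001000000000000000000000010000050004800000008000000000000000000 := rS 0x4401b0d03975111369a0d6f435dc6594af7e454e017479cd161b1da4ceeb93080c9ab51999e9e752b9645a183283c82a9 (k8 a6009 a6007 a5234 a5754 a5044 i1039 a4384 a5081 (k8 a6069 a394 a5069 a4457 a5492 i73 a5046 a6042 (k8 a4425 a4251 a4788 a5034 a5018 a5064 a4390 a4381 (k8 a2996 a5875 a2869 a4496 a427 a5143 a5120 i1946 (k8 a105 a3009 a2892 a4469 a4532 a5011 a6049 a5042 (k4 a1590 i465 a403 a5117 k0)))))) (by decide +kernel)
def a6071 : PP 8 4 T 0x2100000000000000000000000000000000020000000014000000000000000000000 := rS 0xab11 (k2 a73 a4357 (k1 a362 k0)) (by decide +kernel)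
def a6072 : PP 8 4 T 0x2100001000000000000000000004000000040004000000000000000000000000000 := rS 0xe46e7b86a00ba9689a656e83a22ee32af4dafe864f7e2522a2d5e85d1e913994c303b499dd7261019356a33a79d4fa573522cce59252a4ca41 (k8 a6007 a5754 a6009 a6067 a4384 a5069 a5064 a4454 (k8 a5081 a6071 a6069 a394 a4457 a5492 i73 a5046 (k8 a6042 a4425 a4251 a4788 a5034 a5044 a5250 a4390 (k8 a102 a4381 a2996 a6053 i1039 a2869 a6070 a5043 (k8 a3368 a121 i1725 i1181 a427 a5120 i1946 a404 (k8 a48 a116 a433 a4532 a5022 a6049 a6048 a1590 (k4 i1894 a6030 i235 a419 k0))))))) (by decide +kernel)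
def a6073 : PP 8 4 T 0x2100001000000000000000000000000000000108000000008000000000000000000 := rS 0x140f0702c1b9e9a6968aa653719652bd12957e1c4a6184586c76935c984064d33aa48265 (k8 a5754 a6007 a6009 a5069 i73 a5046 a6042 a4425 (k8 a4788 a5034 a5018 a5064 a5044 a5250 i77 a5837 (k8 i1057 i1318 a427 a5143 a5120 a5131 a4452 a5447 (k8 a5022 a5180 i1324 i1778 a5126 a419 i1243 i234 (k1 i3094 k0))))) (by decide +kernel)
def a6074 : PP 8 4 T 0x2100001000000000000000000004000000000000000000000000000000000000000 := rS 0x57a652e957e4515a7e379d4aeab351dd26bd2c9cca66745984064d252a4ca41 (k8 a6007 a5754 a6009 a6067 i73 a5046 a6042 a5064 (k8 a5069 a5250 a4390 a4384 a6053 a4788 a4251 a4454 (k8 i586 a5081 a6069 a6073 a6072 i1556 a3171 a6068 (k4 a14 a24 a57 a427 (k1 a5142 k0))))) (by decide +kernel)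
def a6075 : PP 8 4 T 0x2000001000000000000000000004020000080000000000000000000000000000000 := rS 0xa2a65749c8ca6d7ecf8aaf4ce1845984064d65ab4d704499cd5eab7e14c9441 (k8 a6007 a6067 a5250 a6068 a97 a427 a4390 i1638 (k8 a6074 a464 a445 a385 i73 a5046 a6042 a5064 (k8 a5044 a5069 a6053 a14 i1105 i1725 i1181 a3410 (k4 a4417 a391 i1943 a29 (k1 a6034 k0))))) (by decide +kernel)
def a6076 : PP 8 4 T 0x4002002000000000080400000000000000000080000000000000400011000002000000 := rS 0x642372a8d560f (k4 a5234 a97 a99 a4206 (k2 i1663 a429 (k1 i232 k0))) (by decide +kernel)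
def a6077 : PP 8 4 T 0x2000001000000000000000000004000000080000000000000000000000000000000 := rS 0x853d1e632384cc51a6713aa545a1d7e33526575ea44b2732999c36353080d96472a9ae2e8b18886084d0c1295241 (k8 a6007 a6009 a6067 a5044 i73 a6074 a5102 i1042 (k8 a5064 a5415 a464 a72 a451 a385 a5046 a6042 (k8 a5054 a5018 a5069 a5250 a4390 a4384 a102 a6053 (k8 a4388 i1638 i849 a6068 i719 i1040 a6075 i1667 (k8 i800 a6076 a5126 a57 a5128 a5119 i1852 i235 (k2 a1002 a3555 k0)))))) (by decide +kernel)
def a6078 : PP 8 4 T 0x2002002001000000000000000000004000000000000000000000000000000000000000 := rS 0xe8325a434fb4369ae0e2934ca251e9133860363b3080c9b1745c44a64a821fd5241 (k8 a6007 a6009 a6077 a6074 a6067 a5250 a4421 a5064 (k8 a5415 i73 a5046 a6042 a5034 a5018 a5044 a5069 (k8 a102 a4381 a337 a57 a115 a117 a853 a5180 (k4 a351 i1330 a5178 a403 (k2 a5492 a201 (k1 i1586 k0)))))) (by decide +kernel)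
def a6079 : PP 8 4 T 0x12002001000000040000000000004114000000000000000000000000000040000000 := rS 0x16c5d4189d6837409f6869a5c25d7a1747a44ce1845894b23b3080c9aad5793d57112992a087f8c90456a9 (k8 a6009 a6008 a6007 a5121 a6077 a6074 a6067 a5250 (k8 a4421 a97 a74 a427 a445 i73 a5046 a6042 (k8 a5034 a4384 a5006 a5064 a5044 a5069 a102 a4381 (k8 a2996 a6053 a4122 a5790 a5022 a351 i1330 i1337 (k4 i2721 a403 a1276 a5347 (k2 a5392 a4361 (k1 a5279 k0))))))) (by decide +kernel)
def a6080 : PP 8 4 T 0x2002001000000040000000000004000000000010000000000000000000000000000 := rS 0x88ecc01924a1a6e0fa55322c0ba451661019362a890c1295241 (k8 a6007 a6009 a6067 a5044 i231 a6078 i73 a5046 (k8 a6042 a5064 a102 a2996 a5126 i2716 i2715 i1304 (k8 i1039 a5178 a6079 i1242 i1241 i1322 i232 i2978 k0))) (by decide +kernel)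
def a6081 : PP 8 4 T 0x2002001000000000000000000004000000000010000000000000000000000000000 := rS 0xd528c9ca0769224ce3501b2d5a478ba2c622182134304a04aac1e41 (k8 a6007 a5234 a97 a369 a6067 a5044 i73 a6074 (k8 a5102 i1042 a5064 a5415 a451 a445 a385 a5046 (k8 a5054 a5069 i231 a6080 a402 a4206 a429 i288 (k2 i1609 a1719 k0)))) (by decide +kernel)
def a6082 : PP 8 4 T 0x4002002000000000080400000010000000000000000040000000400011000002000000 := rS 0x5283464e503825560f (k8 a5234 a97 a369 a402 a4206 a429 i1609 i2111 (k1 a1719 k0)) (by decide +kernel)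
def a6083 : PP 8 4 T 0x2002001000000000000000000004000000000000000000000000000000000000000 := rS 0x563aad4fa92412550b455ba059c983da5e30391bae47b0d0e8794e074434c5a708aaac9ebd0ba3ca6670d8ec6a6101b2d5a478ba2c622182134304a3f9955241 (k8 a6007 a6009 a5754 a6077 a6067 a5044 i73 a6074 (k8 a5102 i1042 a5064 a5415 a451 a445 a385 a5046 (k8 a6042 a5054 a5034 a5018 a5069 a5250 a4381 a2996 (k8 a6053 a74 a97 a6078 a6081 i1240 a6082 a5011 (k8 a5042 i2109 i230 i1343 a81 i2873 i2898 a4467 (k8 a2984 a419 a71 a390 a5121 a3410 i1362 i801 (k8 a433 i1871 i1105 a4373 a5050 i1442 i1369 i1589 (k2 a4395 a4274 k0)))))))) (by decide +kernel)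
def a6084 : PP 8 4 T 0x2000001002000000000000000004000000000000000000000000040000000000000 := rS 0x458e38458ec8e6b8ca54c20326c11fa67250358ac3079055265 (k8 a5754 a6009 a6007 a5234 a468 a40 a392 a6067 (k8 a5069 a6083 a6074 i73 a5046 a6042 a5111 a5118 (k8 a464 a451 a5034 a5064 a419 a2286 i1873 a132 k0))) (by decide +kernel)
def a6085 : PP 8 4 T 0x2000001000000040000000004004000000000000000000000000000000000000000 := rS 0x8466898f63662b9146a5040709c575a9d5708f2c99d9655358862e8b3fa54e21b3ea4d5b04169bdfa533080c9a1825104caa9 (k8 a6009 a5754 a6007 a6067 a5044 i73 a5046 a6042 (k8 a5250 a6083 a5837 i1039 a6074 a445 a5112 a4429 (k8 a5018 a4496 a5111 a6077 a5064 a5415 a5102 a464 (k8 a72 a385 a5069 a4384 a4381 a5050 i1065 a201 (k8 a4274 a4397 a5051 a5059 i1382 i201 a2475 a40 (k4 a6084 i1776 i1044 a1006 (k2 a6036 i1771 k0))))))) (by decide +kernel)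
def a6086 : PP 8 4 T 0x2000001002000000000000008004000000000000000000000000000000000000000 := rS 0xbba7d159cae4ea6c6cc55e99c308b8226628fd3080c9a4a5fd0d5241 (k8 a6007 a6009 a106 a367 a6067 i73 a5046 a6042 (k8 a6083 a5043 a5041 a6074 a5064 a5044 a5069 a6053 (k8 a40 a6084 i2721 i1779 a5447 a4417 a381 a3 (k2 i1950 a404 k0)))) (by decide +kernel)
def a6087 : PP 8 4 T 0x2000001000000040000000000004000000000000000000000000000000000000000 := rS 0x1d440d528c9cb4360aa8ce350191e2e8b18886084d0c129fa41 (k8 a6007 a6083 a6067 a5044 i73 a6074 a5102 i1042 (k8 a5064 a5415 a451 a5046 a5054 a5069 a6085 a1815 (k8 a106 a6086 a429 a5187 i1609 a393 i457 a1824 k0))) (by decide +kernel)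
def a6088 : PP 8 4 T 0x4002000000000000000010000000000000400000100400015000000080000106000000 := rS 0x42b344c7b (k4 i1776 i1044 a1006 i1771 (k1 a6036 k0)) (by decide +kernel)
def a6089 : PP 8 4 T 0x2000001000000000000000000004000000000000000000000000008000000000000 := rS 0x458e381bb14ae223b034eac347964301b1d91caa6b10c5d17194a984064d823f4ce4a079055265 (k8 a5754 a6009 a6007 a5234 a6067 a5069 a6083 a6074 (k8 i73 a5046 a6042 a5111 a5118 a5064 a5415 a5102 (k8 a464 a72 a451 a5034 a5018 a5044 a4384 a4381 (k8 i2112 i1586 i1609 i233 i232 a4274 i2979 a6088 (k4 a419 a2286 i1873 a132 k0))))) (by decide +kernel)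
def a6090 : PP 8 4 T 0x2000001000000000000000000004000000000000000000000000000000000000000 := rS 0x3a95c6cc552835c8335187582d249a5512fd18c5c426b2aab608350da2c300329934b28f251955241 (k8 a6007 a6009 a5754 a6067 a4381 a4384 i73 a5250 (k8 a5046 a5044 a5064 a5018 a5054 a6074 a445 a72 (k8 a464 a5102 a5415 i1042 a6083 a5040 a5111 a5112 (k8 a6087 a44 a341 a99 a6089 a429 a392 a382 (k4 a40 a6084 a5083 a5153 (k1 a6088 k0)))))) (by decide +kernel)
def a6091 : PP 8 4 T 0x4002000001000000000010000000000000000000000000000000000004000002000000 := rS 0x3586e41a8ed1603250c46e4967c648e6b10c109a674f03c8265 (k8 a5754 a6007 a5234 a6090 a414 a5805 a4379 a5102 (k8 a464 a451 a33 i133 a2997 i2722 i1042 a440 (k8 a5046 a5064 a5034 a5054 a429 a3115 a392 a3409 k0))) (by decide +kernel)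
def a6092 : PP 8 4 T 0x4002000001000000000000000000000000000000000000000000000004000001000000 := rS 0x1709b518b47ed3040709c838894d98872ba9582934a8981ae47ea14745d1a9bcea311b8e512480b008974f8c86cb2ad23954d62182134ce9e5a9055265 (k8 a5754 a6009 a6007 a5492 a6090 a414 a5805 a4379 (k8 a5102 a464 a72 a451 a445 a415 a5018 a33 (k8 a26 a5044 a5045 a437 a440 a5039 a401 a446 (k8 i1002 i970 i2670 i2809 a172 a419 i1605 a6059 (k8 a429 a5078 i1156 a5111 a5112 a408 a382 a5083 (k8 i737 a2998 a5784 a3812 a197 a4529 a5051 a5059 (k4 a341 i1421 a5090 i200 (k2 a5651 a5049 (k1 i1189 k0))))))))) (by decide +kernel)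
def a6093 : PP 8 4 T 0x4002000001000000000000000000000000000000000000000000000004000000000000 := rS 0x188310c086084d33a788265 (k8 a5754 a6007 a6090 a414 a5805 a4379 a5102 a6092 (k2 i1042 a6091 (k1 i1525 k0))) (by decide +kernel)
def a6094 : PP 8 4 T 0x4002000001000000000000000000000000000000000000000000000000000000000000 := rS 0xc80c70c61911e084d33a788265 (k8 a5754 a6007 a6090 a414 a5805 a4379 a451 a6093 (k4 i1711 i1712 i192 i2115 (k1 a5045 k0))) (by decide +kernel)
def a6095 : PP 8 4 T 0x2000001000000000000000000000000000000000000000000000000000001000000 := rS 0x1fce67d2995d2afd379c4ea31449202c022586d1eb93b8cd26251ac589a674f1055265 (k8 a5754 a6009 a6007 a6090 a414 a5805 a6094 a131 (k8 a5009 a19 a360 a332 a465 a123 a5018 a5044 (k8 a5045 a437 a440 a5039 i1002 i970 i710 i2670 (k8 a6059 a5111 a6065 a5784 a4358 a5138 a6068 a5875 k0)))) (by decide +kernel)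
def a6096 : PP 8 4 T 0x2001001000000000000000000000000000000100000004000000000000000000000 := rS 0x3e9fce26f4a86d1eb93ba4e2c7329984064a248609a674f2a4ca41 (k8 a6007 a5754 a6009 a6090 a414 a5805 a6095 a2997 (k8 a440 a5046 a6042 a5250 a5028 a6094 a19 a332 (k8 a465 a123 a5018 a5111 a5837 a4496 a6068 a4358 (k1 a5875 k0)))) (by decide +kernel)
def a6097 : PP 8 4 T 0x2002001000000000000000000000010000000100000000000000000000000000000 := rS 0x402de2a9b37a5a0ab949c58e69129a2cc299141e8703b01928924d33c646e9e0c2bc9ead559955241 (k8 a6007 a6009 a5754 a97 a420 a74 a427 a6095 (k8 a6090 i2722 a33 a414 a5805 a2997 a440 a5046 (k8 a5034 a419 i235 i234 i3113 a6042 a5064 a5250 (k8 a5259 a5028 a6094 a19 a465 a5790 a5142 a6073 (k4 a5131 a24 i1902 a6048 (k1 i1894 k0)))))) (by decide +kernel)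
def a6098 : PP 8 4 T 0x2002001000000000000000000000000000000100000000000000001000000000000 := rS 0x2dd0270378b62a946993d5e83298fcba790da2d2299141e8703b01928924d33c646e9e0c2a4822b (k8 a6008 a6007 a6009 a6095 a6090 i2722 a33 a414 (k8 a5805 a2997 a440 a5046 a5034 a419 i235 i234 (k8 i3113 a5259 a5064 a5018 i1852 a2497 i2114 a5250 (k8 a5347 a427 a74 a2796 a6097 a14 i978 i1057 (k4 a5126 i1894 i802 a4396 k0))))) (by decide +kernel)
def a6099 : PP 8 4 T 0x2000001000000000000000000000000000000100000000000000001000000000000 := rS 0xac11030f8563f9c4de957e86d1eb93ba4e2c7329984064a248609a674f1055265 (k8 a5754 a6009 a6007 a6090 a414 a5805 a6095 a2997 (k8 a440 a5046 a6042 a5250 a5028 a6094 a19 a332 (k8 a465 a123 a5018 a6098 a5111 a5837 a4496 a6068 (k4 a6096 a5875 a5083 a5066 (k2 a4429 i2950 k0))))) (by decide +kernel)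
def a6100 : PP 8 4 T 0x2001001000000000000000000000000000000200000008000000000000000000000 := rS 0xab4aae526251a98596ad06089991142c4d0e790d9de2c91a78a0703b01928924d33c646e9e0c1955241 (k8 a6007 a6009 a5754 a6095 a6090 i2722 a33 a414 (k8 a5805 a2997 a440 a5046 a5034 a419 i234 a26 (k8 a5259 a6094 a332 a5018 i1852 a4927 a54 i1606 (k8 a453 a436 i1969 a5083 i2950 a4399 a6042 a131 (k4 a5009 a19 a465 a5111 (k2 a5146 a5050 k0)))))) (by decide +kernel)
def a6101 : PP 8 4 T 0x2000001000000000000000000000000000000000000008000000001000000000000 := rS 0xa1a8d28ab7e305a6ad3583196b9499858ac752ad466251a88444e561332227442c4d0e790d9de2c91a78a0703b01928924d33c646e9e0c1955241 (k8 a6007 a6009 a5754 a6095 a6090 i2722 a33 a414 (k8 a5805 a2997 a440 a5046 a5034 a419 i234 a26 (k8 a5259 a6094 a332 a5018 i1852 a4927 a54 i1606 (k8 a6099 a453 a436 i1968 a468 i1969 i1499 a131 (k8 a5009 a360 a5492 a164 a1190 i1526 a6042 a19 (k8 a465 a4399 a5083 a5081 i2950 a5294 a5295 a6100 (k4 a97 a5050 i1647 a121 (k1 a393 k0)))))))) (by decide +kernel)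
def a6102 : PP 8 4 T 0x2002001000000000000000000000000000000000000000000000001000000000000 := rS 0xb4e3154a1f97273699ae08572ca3dcac26621626873c86cee91140e18ac71d80c94491b862329352c456a3312934ce213a0d62d4f4f2a48265 (k8 a5754 a6007 a6009 a6090 a26 a6094 a131 a6099 (k8 i1499 a414 a5805 a5009 a360 a5492 a453 a164 (k8 a19 a33 a6095 i2722 a2997 a440 a5046 a5034 (k8 a1190 i1526 a419 i234 a5259 a332 a5018 i1852 (k8 a4927 a54 i1606 a436 i1968 a468 a123 a4983 (k8 a6101 a6069 a464 a5294 a5028 a465 a5929 a5790 (k4 a853 i799 i978 a5126 k0))))))) (by decide +kernel)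
def a6103 : PP 8 4 T 0x2000001000000000000000000000000000000000000000000000001000000000000 := rS 0x17b45552692afd56b2e08573a2e526595a8cd1f1645984064a248609a674f1955241 (k8 a6007 a6009 a5754 a6090 a414 a5805 a6095 a2997 (k8 a440 a5046 a6042 a5064 a6094 a123 a360 a5492 (k8 a4983 a19 a465 a6099 a6101 a6069 a385 a445 (k4 a6102 a5111 a5789 a5050 (k2 a111 i1417 (k1 a5801 k0)))))) (by decide +kernel)
def a6104 : PP 8 4 T 0x2000001000000000000000000000000000000000000000000000000000000000000 := rS 0x414ae74100c030595a8cd1f162699d3c41 (k8 a6007 a6090 a414 a5805 a6094 a123 a360 a5492 (k8 a4983 a6095 a6103 i1042 i1041 a2991 a5102 a6069 k0)) (by decide +kernel)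
def a6105 : PP 8 4 T 0x2000000000000000000000000000000000000000000000000000800000000000000 := rS 0xf0 (k2 a6104 a333 k0) (by decide +kernel)
def a6106 : PP 8 4 T 0x2000000000000000000000000000000000000000000000000002000000000000000 := rS 0xf0 (k2 a6104 a365 k0) (by decide +kernel)
def a6107 : PP 8 4 T 0x2000000000000000000000000000000000000000000000000008000000000000000 := rS 0xf0 (k2 a6104 a6 k0) (by decide +kernel)
def a6108 : PP 8 4 T 0x2000000000000000000000000000000000000000000000000000080000000000000 := rS 0xf0 (k2 a6104 a376 k0) (by decide +kernel)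
def a6109 : PP 8 4 T 0x2000000000000000080000000000000000000000000000000000000000000000000 := rS 0xf0 (k2 a6104 a27 k0) (by decide +kernel)
def a6110 : PP 8 4 T 0x2000000000000000020000000000000000000000000000000000000000000000000 := rS 0xf0 (k2 a6104 a49 k0) (by decide +kernel)
def a6111 : PP 8 4 T 0x2000000000000000000000000000000000000000000000000000000000000020000 := rS 0xf0 (k2 a6104 a441 k0) (by decide +kernel)
def a6112 : PP 8 4 T 0x2000000000000000000000000000000000000000000200000000000000000000000 := rS 0x8211 (k2 a6111 a6007 (k1 a5062 k0)) (by decide +kernel)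
def a6113 : PP 8 4 T 0x2000000000000000000000000000000000000000000004000000002000000000000 := rS 0x20a74101651e185a89406331a9348265 (k8 a5754 a6007 a5778 i112 i69 i1002 a5009 a5492 (k4 a5045 i985 a4983 i1042 (k2 i1041 a5102 (k1 a6069 k0)))) (by decide +kernel)
def a6114 : PP 8 4 T 0x2100000000000000000000000000000000000200000004000000000000000000000 := rS 0xb08f (k2 i124 a6069 (k1 a5740 k0)) (by decide +kernel)
def a6115 : PP 8 4 T 0x2000000000000000000000000000000000000000000020010000000000000000000 := rS 0x1249665 (k4 a5754 a4384 i869 a440 k0) (by decide +kernel)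
def a6116 : PP 8 4 T 0x2101000000000000000020000000000000000000000000000000015000000000008 := rS 0x4d8b54e9d03afe9e6a550348ecb4fb0dc8668bab686894ca5c723d1d8fc6e1107bc18aa9 (k8 a6009 a6110 a6104 a5234 a6111 a6108 a6107 a6105 (k8 a6106 a401 a5110 a5041 a5040 a351 a4410 a465 (k8 a5590 a429 a1105 a414 a5071 i1617 a392 a439 (k8 a198 a1160 a367 a5158 a4411 a1825 i1001 a1490 (k1 a5023 k0))))) (by decide +kernel)
def a6117 : PP 8 4 T 0x2101000000000000000000000000008000000000000004004000000000000000000 := rS 0x180668b8c44a893886c046f1a858908f2c93482a9 (k8 a6009 a6007 a5778 a6115 a4353 a440 a5260 i1116 (k8 a4392 a6051 a5018 a4496 a5040 a5006 a6113 a19 (k2 a4788 a6054 (k1 a193 k0)))) (by decide +kernel)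
def a6118 : PP 8 4 T 0x2101000000000000000000000000000000000000000004004000000000000000000 := rS 0x6b43b3d7b194d0b54e085faa8aa464fb2ccc328bae126353b858de392400862894aa652e733f9f4a68f669649a5d1e8ec7e376399482a9 (k8 a6009 a6007 a5754 a6109 a6108 a6107 a6105 a6106 (k8 a6112 a5778 a6115 a2010 a4353 a5784 a4358 a6068 (k8 a5138 a5110 a5041 a5111 a5040 a6113 a6051 a440 (k8 a401 a4392 a5260 a5262 i1116 a6117 a5884 a465 (k8 a6116 a4379 a5242 i1711 i192 a5866 a4426 a367 (k8 i1656 a434 a5090 a5023 a41 i1418 i1152 a2722 (k2 i586 a4976 k0))))))) (by decide +kernel)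
def a6119 : PP 8 4 T 0x2101000000000000000000000000000000000000000004000000000000000000000 := rS 0x1bd72613ba4e2c03339291e752ca54e21b269ccfe7d2999482a9 (k8 a6009 a6007 a5754 a5784 a4358 a6068 a5138 a5778 (k8 a5018 a4496 a5111 a6115 a6114 a4353 a6118 a5069 (k8 a5046 a4379 a4788 a4251 a6042 a465 a5837 a5875 k0))) (by decide +kernel)
def a6120 : PP 8 4 T 0x2201000000000000000010000008000040000000041000000000000000000000000 := rS 0x4d2ee9ebfa1aa926cb56a555265 (k8 a5754 a6009 a5111 a445 a385 a5112 a5050 a106 (k4 a367 a26 i1685 a5789 (k1 a5364 k0))) (by decide +kernel)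
def a6121 : PP 8 4 T 0x2200000000000000000000000000000000000000000000008000008000000000000 := rS 0x30c1a670c3c01e41 (k8 a6007 a5234 a6104 a5044 a5069 i1609 i2112 a1762 k0) (by decide +kernel)
def a6122 : PP 8 4 T 0x2001000000000000000000000000000000000000000004008000000000000000000 := rS 0x2797316198b4de611aa2c300333934625372c1082f0 (k8 a6104 a6007 a6119 a3227 a5784 a6113 a5778 a5069 (k8 a5046 a5044 a5064 a5054 a6042 a5837 i1039 a6121 (k4 a429 a1710 a5415 a6120 k0))) (by decide +kernel)
def a6123 : PP 8 4 T 0x2001000000000000000000000000000000000000000004000000000000000000000 := rS 0xb947c586a770b1bc66480112dca4756c10fe53268c482f0 (k8 a6104 a6007 a6113 a5778 a5784 a6068 a6119 a445 (k8 a451 a3227 a6122 a6051 a440 i192 a4392 a5260 (k4 a5262 a5181 a429 a123 (k2 a465 a6063 k0)))) (by decide +kernel)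
def a6124 : PP 8 4 T 0x2000000000000000000000000000000000000000000004004000000000000000000 := rS 0x198d5ca478245d1c1624008625926bf082f0 (k8 a6104 a6007 a6123 a5778 a6115 a6113 a6051 a440 (k8 a5260 a2898 a123 a4353 a451 a3227 a5181 i192 (k1 a429 k0))) (by decide +kernel)
def a6125 : PP 8 4 T 0x2200000000000000000000000000000000000000000004000000000000000000000 := rS 0x388b62a7e4a24d73163b8cdcacb0d934626156aada6fc3999c6a03252a482f0 (k8 a6104 a6007 a6009 a6124 a5046 a5054 a5069 a4390 (k8 a6123 a3219 a97 a420 a397 a6113 a5778 a5018 (k8 a385 a3227 a6121 a877 a5590 a5363 a19 a5182 (k4 a5929 a853 i978 i799 (k1 a5126 k0))))) (by decide +kernel)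
def a6126 : PP 8 4 T 0x2002000000000000000000000000000000000000000000004000000000000000000000 := rS 0x9a4a9855efc45a4e0a67251955241 (k8 a6007 a6009 a5754 a6124 a5069 a6125 a4788 a5064 (k4 a6123 a427 a397 a14 (k2 a5447 a5131 k0))) (by decide +kernel)
def a6127 : PP 8 4 T 0x2000000000000000000000000000000000000000000004000000000200000000000 := rS 0x12e954c9855ead55bf0308b49c14ce4a549947a41 (k8 a6007 a6106 a5754 a6009 a6124 a5069 a6125 a4788 (k8 a5064 a5044 a6123 a97 a420 a427 a397 i2716 (k2 i2715 i1243 (k1 a5142 k0)))) (by decide +kernel)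
def a6128 : PP 8 4 T 0x2000000000000000000000000000000000000000000004000000000000000000000 := rS 0x7440b62a180b929a6fc0d93482f0 (k8 a6104 a6007 a5778 a5018 a6123 a3219 a6124 a2996 (k4 a5044 a6126 a6127 a5011 (k2 a5042 a5088 k0))) (by decide +kernel)
def a6129 : PP 8 4 T 0x2000000000000000000000000000000000000000000000000000000000200000000 := rS 0x56 (k2 a6128 a2991 k0) (by decide +kernel)
def a6130 : PP 8 4 T 0x2000000000000000000000000000000000080000000000000000000000000000000 := rS 0x56 (k2 a6128 a4388 k0) (by decide +kernel)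
def a6131 : PP 8 4 T 0x202000000000000000000000000000000000000000000000000000000000000000000 := rS 0x56 (k2 a6128 a58 k0) (by decide +kernel)
def a6132 : PP 8 4 T 0x2000000000000000000000000000000000000000000002000000000000000000000 := rS 0x56 (k2 a6128 i53 k0) (by decide +kernel)
def a6133 : PP 8 4 T 0x2000000000000000000000000000000000000000000020000000000000000000000 := rS 0x56 (k2 a6128 i119 k0) (by decide +kernel)
def a6134 : PP 8 4 T 0x2000000000000000800000000000000000000000000000000000000000000000000 := rS 0x56 (k2 a6128 a4399 k0) (by decide +kernel)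
def a6135 : PP 8 4 T 0x2000000000000000000000000000000000000000000000000000000000000001000 := rS 0x8256 (k2 a6128 a6007 (k1 a5083 k0)) (by decide +kernel)
def a6136 : PP 8 4 T 0x2000000000000000000000000000000000000000000000000000000000400000000 := rS 0x8256 (k2 a6128 a6007 (k1 a5066 k0)) (by decide +kernel)
def a6137 : PP 8 4 T 0x2000000000000000000000000000000000000000000000000800000000000000000 := rS 0x8256 (k2 a6128 a6007 (k1 i1578 k0)) (by decide +kernel)
def a6138 : PP 8 4 T 0x2000000000000000000000000000000000000000000000000000000002000000000 := rS 0x8259 (k2 a6133 a6007 (k1 a5006 k0)) (by decide +kernel)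
def a6139 : PP 8 4 T 0x2000000002000000000000000000000000000000000000000000000000000000000 := rS 0xc (k2 a6135 a392 k0) (by decide +kernel)
def a6140 : PP 8 4 T 0x2000000000000000000000000000000000000800000000000000000000000000000 := rS 0x1822 (k2 a6136 a6135 (k1 i2977 k0)) (by decide +kernel)
def a6141 : PP 8 4 T 0x2000000000000000000000020000000000000000000000000000000000000000000 := rS 0x1822 (k2 a6136 a6135 (k1 i2950 k0)) (by decide +kernel)
def a6142 : PP 8 4 T 0x1002001000000000000000000000000000000000000001000000000000000000000000 := rS 0xa9 (k2 a6009 a5043 k0) (by decide +kernel)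
def a6143 : PP 8 4 T 0x2000000000000000000000000000000000000000000000000000020000001000000 := rS 0x22 (k2 a6136 i246 k0) (by decide +kernel)
def a6144 : PP 8 4 T 0x2000000000000000000000000000000000000000000000008000000000000000008 := rS 0x41 (k2 a6007 a5046 k0) (by decide +kernel)
def a6145 : PP 8 4 T 0x2000000000000000000001000200000000000000000000000000000000000000000 := rS 0x844b11 (k4 a6131 a6138 a6129 a164 k0) (by decide +kernel)
def a6146 : PP 8 4 T 0x2000000000000000000010000000014400010154000000000000000000000000000 := rS 0xfe77 (k2 a6140 a6130 (k1 a5875 k0)) (by decide +kernel)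
def a6147 : PP 8 4 T 0x2000000000000000000010004000014000000000041000000000000000000000000 := rS 0x65aa55a65 (k4 a5754 a6141 a6009 a6134 (k1 a5050 k0)) (by decide +kernel)
def a6148 : PP 8 4 T 0x2100000000000000000000000000000000000000040000000000020000000000000 := rS 0xf (k2 a5234 a4378 k0) (by decide +kernel)
def a6149 : PP 8 4 T 0x2000000000000000000000000000000020000000000000000000020000000000000 := rS 0x22 (k2 a6136 i2126 k0) (by decide +kernel)
def a6150 : PP 8 4 T 0x4002100000000000000000000000000000000000000040000000000000000000000000 := rS 0x65 (k2 a5754 a4379 k0) (by decide +kernel)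
def a6151 : PP 8 4 T 0x4002000000000000000000000000000000400000100000000000000000000000000000 := rS 0x22277 (k2 a6140 a6131 (k1 a466 k0)) (by decide +kernel)
def a6152 : PP 8 4 T 0x2000000000000000000000000000000000000100000000000000002000000000000 := rS 0x22 (k2 a6136 i1571 k0) (by decide +kernel)
def a6153 : PP 8 4 T 0x2000000000000000000000000000000000000000040000000000008000000000000 := rS 0xc (k2 a6135 i1609 k0) (by decide +kernel)
def a6154 : PP 8 4 T 0x4002000000000000000000000000000000000000000040000000000014000000000008 := rS 0xca0c (k2 a6135 a5754 (k1 a5078 k0)) (by decide +kernel)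
def a6155 : PP 8 4 T 0x2000000000000000000000004080000000000000000000000000000000000000000 := rS 0xc (k2 a6135 i1647 k0) (by decide +kernel)
def a6156 : PP 8 4 T 0x2000000000000000000000000000008000000000002000000000000000000000000 := rS 0xad (k2 a6141 i1281 k0) (by decide +kernel)
def a6157 : PP 8 4 T 0x400000000000002000000000000040001000000140000000000000000000000000000000000000000 := rS 0xe5 (k2 a6139 a393 k0) (by decide +kernel)
def a6158 : PP 8 4 T 0x2000000000000000000000000000008000000000000000000000002000000000000 := rS 0x22 (k2 a6136 i2953 k0) (by decide +kernel)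
def a6159 : PP 8 4 T 0x2000000000000000000020000100000000000000000000000000014000000000000 := rS 0xe5 (k2 a6139 a1045 k0) (by decide +kernel)
def a6160 : PP 8 4 T 0x2001000000000000000000000000000000020000000000400000000000000000000 := rS 0xad (k2 a6141 a4429 k0) (by decide +kernel)
def a6161 : PP 8 4 T 0x2000000000000000000000000000000800000000000000004000000000002000000 := rS 0x41 (k2 a6007 a3008 k0) (by decide +kernel)
def a6162 : PP 8 4 T 0x2001000000000000000000000000020000000000000000000000000000000000000 := rS 0xcaa9 (k2 a6009 a5754 (k1 a5111 k0)) (by decide +kernel)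
def a6163 : PP 8 4 T 0x2001000000000000000000000000008000000000000000000000000000000000000 := rS 0x15aa9 (k2 a6009 a6141 (k1 a5112 k0)) (by decide +kernel)
def a6164 : PP 8 4 T 0x2002000000000000000000011000000000400010104000000000000000000000000000 := rS 0xfe77 (k2 a6140 a6130 (k1 a2869 k0)) (by decide +kernel)
def a6165 : PP 8 4 T 0x2000000000000040000020000140000000000000000000000000000100000000000 := rS 0xe5 (k2 a6139 a2475 k0) (by decide +kernel)
def a6166 : PP 8 4 T 0x2102000000000000000000000000014000000000040000000000000000000000000 := rS 0x19665 (k2 a5754 a6134 (k1 a5130 k0)) (by decide +kernel)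
def a6167 : PP 8 4 T 0x2001000000000000000000000000000000000080000000400000000000000000000 := rS 0x41 (k2 a6007 a5138 k0) (by decide +kernel)
def a6168 : PP 8 4 T 0x2001000000000000000000000000000000000020000000010000000000004000000 := rS 0xa9 (k2 a6009 a4496 k0) (by decide +kernel)
def a6169 : PP 8 4 T 0x2200000000000000000000000000000000000000000000000000000000008000000 := rS 0x44482f0 (k4 a6104 a6007 a6131 a5144 k0) (by decide +kernel)
def a6170 : PP 8 4 T 0x2002000000000080000000000000000000000000000000000000000000000000000 := rS 0xf0 (k2 a6104 a3219 k0) (by decide +kernel)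
def a6171 : PP 8 4 T 0x8002200000000000000000000004000010000000000001000000000000000000000000 := rS 0x15aa9 (k2 a6009 a6141 (k1 a5182 k0)) (by decide +kernel)
def a6172 : PP 8 4 T 0x2001000000000000000000008000000000000200000000000000000000000000000 := rS 0xac25 (k2 a6138 a6128 (k1 a3079 k0)) (by decide +kernel)
def a6173 : PP 8 4 T 0x8002000000000000000002000000000004000000000001000000000000000000000000 := rS 0x54ab59665 (k4 a5754 a6134 a6141 a6009 (k1 a5295 k0)) (by decide +kernel)
def a6174 : PP 8 4 T 0x2000000000000000000020000000000000000000040000000000015000000000000 := rS 0x1e0cb (k2 a6134 a6104 (k1 a5363 k0)) (by decide +kernel)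
def a6175 : PP 8 4 T 0x4002000000000000000000000000000000000000000040000000000015000000000000 := rS 0xf0 (k2 a6104 a5590 k0) (by decide +kernel)
def a6176 : PP 8 4 T 0x2000000000000000000000000200000000000000080000000000000000000000000 := rS 0x1644a21 (k4 a6129 a6138 a6133 a5647 k0) (by decide +kernel)
def a6177 : PP 8 4 T 0x2000000000000000000000000100000000000000080000000000000000000000000 := rS 0x944256 (k4 a6128 a6129 a6138 a5654 k0) (by decide +kernel)
def a6178 : PP 8 4 T 0x2100000000000000000002000000000000000000000000000000000000000000000 := rS 0x2a91c8277 (k4 a6140 a6007 a6137 a6132 (k1 a5831 k0)) (by decide +kernel)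
def a6179 : PP 8 4 T 0x2101000000000000000010000000000000000000001000000000000000000000000 := rS 0x1841 (k2 a6007 a6135 (k1 a5836 k0)) (by decide +kernel)
def a6180 : PP 8 4 T 0x2001000000000000000010000000004400000004000000002000014000000000008 := rS 0x1dcac25 (k4 a6138 a6128 a6140 a6065 k0) (by decide +kernel)
def a6181 : PP 8 4 T 0x2100000000000000000000000000000000000000001000000000000000000000000 := rS 0x50d469469aadf8c18b24d72351999d4ab5 (k8 a6178 a6145 a6177 a6153 a6148 a6159 a4788 a6150 (k8 a6173 a6179 a97 a6170 a6166 a6155 a121 a6157 k0)) (by decide +kernel)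
def a6182 : PP 8 4 T 0x2100000000000000000000000000000000000000000000000000000000000000000 := rS 0x3792096027e9811eb949c586a332699d4ab5 (k8 a6178 a6145 a6177 a5805 a6153 a6148 a6150 a4788 (k8 a6159 a123 a6181 a397 a6042 a6144 a440 a4392 (k1 a6180 k0))) (by decide +kernel)
def a6183 : PP 8 4 T 0x2000000000000000000000000000000000000000000000000000000000008000000 := rS 0x104 (k2 a6182 a6169 k0) (by decide +kernel)
def a6184 : PP 8 4 T 0x2000000000000000000000000000000000000000042000000000000000000000000 := rS 0x23a2cb91a9bc32482580926fd26a956a33 (k8 a6153 a5492 a6145 a5805 a397 a6156 a6042 a6144 (k8 a440 a2997 a4392 a6143 a6159 a6154 a6180 a123 k0)) (by decide +kernel)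
def a6185 : PP 8 4 T 0x8002001000000000000000000000000004000010054001000000000000000000000000 := rS 0xe8aa5ca3d2b04 (k4 a6182 a6162 a123 a465 (k2 a6171 a6146 (k1 a6172 k0))) (by decide +kernel)
def a6186 : PP 8 4 T 0x2001000000000000000010000000004000000000040000000000000000000000000 := rS 0xc92c688e189d554b519a5629173e9ccde5338934c21b (k8 a6183 a6184 a5805 a6168 a5819 a5837 a6167 a6160 (k8 a6185 a6142 a6162 a6153 a5492 a6147 a6172 a6152 (k4 a6164 a6175 a4381 a6161 (k1 a6143 k0)))) (by decide +kernel)
def a6187 : PP 8 4 T 0x2001000000000000000000000000004000000000040000000000000000000000000 := rS 0x12c308e1a1d462b88b9f4e66f38a956a33299849a1b (k8 a6183 a5805 a6184 a5819 a6153 a5492 a6145 a6168 (k8 a5837 a6167 a6160 a6185 a6186 i987 i1065 a6174 (k4 a6151 a6143 a4381 a6161 k0))) (by decide +kernel)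
def a6188 : PP 8 4 T 0x2002000000000000000020000000000000000000040000000000000000000000000 := rS 0x8583418a956a3330b4d46ab (k8 a97 a6155 a6170 a6184 a6153 a5492 a6145 i987 (k4 a6174 a6165 a5054 i1000 k0)) (by decide +kernel)
def a6189 : PP 8 4 T 0x2000000000000000000000000000004000000000040000000000000000000000000 := rS 0xa1b0528b951b4d56fc52ad46661 (k8 a6184 a6153 a5492 a6145 a6187 a97 a6170 a6155 (k4 a6188 a6147 a5048 a121 (k1 a6157 k0))) (by decide +kernel)
def a6190 : PP 8 4 T 0x2000000000000000000000000000000000000000040000000000000000000000000 := rS 0x11034698b462fc8bc552433 (k8 a6153 a6189 a115 a19 a6163 a6158 i1242 a6170 (k2 a6175 a5011 (k1 a6149 k0))) (by decide +kernel)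
def a6191 : PP 8 4 T 0x2000000000000000000000000200000000000000000000000000000000000000000 := rS 0x66 (k2 a6190 a6176 k0) (by decide +kernel)
def a6192 : PP 8 4 T 0x2000000000000000000000000000000000000000000000000000000000000000000 := rS 0xcca5 (k2 a6191 a6190 (k1 a6177 k0)) (by decide +kernel)

end Pool.Agent.H551.GP.E84n
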