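import Pool.Agent.H551.GP.E84ni1
import Pool.Agent.H551.GP.E84ni2
import Pool.Agent.H551.GP.E84ni3

/-! Certificate data. -/

set_option linter.all false
set_option maxRecDepth 100000

namespace Pool.Agent.H551.GP.E84n

def b0 : PP 8 4 T 0x801000000000000000000000000000000008000000000000000000000000008000000 := rS 0xfb (k2 i3189 i698 k0) (by decide +kernel)
def b1 : PP 8 4 T 0x1100000000011001000040000440000000000000000540000000000000000000000000000008000000 := rS 0x1f34d (k2 i3169 i3188 (k1 i2024 k0)) (by decide +kernel)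
def b2 : PP 8 4 T 0x2001000000000000000000000000000000020000000000000000000000000008000000 := rS 0x139 (k2 i3166 i1206 k0) (by decide +kernel)
def b3 : PP 8 4 T 0x20001000000000000000000000000008000000000000000000000000000000008000000 := rS 0xfb (k2 i3189 i957 k0) (by decide +kernel)
def b4 : PP 8 4 T 0x1000002000000000080000000000000000000000000000000000000000008000000 := rS 0xfb (k2 i3189 i179 k0) (by decide +kernel)
def b5 : PP 8 4 T 0x400000001400000001100004404000000000000000000000000000001500000000000000000008000000 := rS 0xfb (k2 i3189 i2016 k0) (by decide +kernel)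
def b6 : PP 8 4 T 0x4000110400001040000000010100000000000000000000000000000000000000000000008000015 := rS 0x23739 (k2 i3166 i3148 (k1 i1993 k0)) (by decide +kernel)
def b7 : PP 8 4 T 0x8001000000000000000000000000000008000000000000000000000000000008000000 := rS 0x14d (k2 i3169 i1477 k0) (by decide +kernel)
def b8 : PP 8 4 T 0x401000000401010014000000000000000000000000000000000000540000000000000008000000 := rS 0x24f31 (k2 i3161 i3155 (k1 i2010 k0)) (by decide +kernel)
def b9 : PP 8 4 T 0x1200000000000000000000000000000000000000020000000000000000008000000 := rS 0x129 (k2 i3156 i1466 k0) (by decide +kernel)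
def b10 : PP 8 4 T 0x1404001400000041010000000000000000000000000000000000000000015000008000000 := rS 0x2733f (k2 i3170 i3166 (k1 i2002 k0)) (by decide +kernel)
def b11 : PP 8 4 T 0x201000000000000000000000000000000000000000000008000000000000008000000 := rS 0x131 (k2 i3161 i1470 k0) (by decide +kernel)
def b12 : PP 8 4 T 0x4000400004001140000044000000100000000000000000000000050000000000000000008000000 := rS 0x27f29 (k2 i3156 i3170 (k1 i2012 k0)) (by decide +kernel)
def b13 : PP 8 4 T 0x411000001500000005000100000000000000000000000000000000000400000000008005000 := rS 0x11b (k2 i3148 i1995 k0) (by decide +kernel)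
def b14 : PP 8 4 T 0x4000000001001041000000040400000000001000000000000000005000000000000000008000000 := rS 0x5365349 (k4 i3157 i3156 i3169 i2011 k0) (by decide +kernel)
def b15 : PP 8 4 T 0x110040000010401000050000000000000000000000001000005000000000000000000000008000000 := rS 0x26f0f (k2 i3195 i3165 (k1 i2019 k0)) (by decide +kernel)
def b16 : PP 8 4 T 0x100400000101110000014000000000000000000000000000000000015000000000000008000000 := rS 0x26327 (k2 i3155 i3161 (k1 i2009 k0)) (by decide +kernel)
def b17 : PP 8 4 T 0x14040000000001010000000000000000000000000000000000000000000015000000000008000000 := rS 0x13181c9e530f (k4 i3195 i3156 i3155 i3194 (k2 i3161 i2007 k0)) (by decide +kernel)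
def b18 : PP 8 4 T 0x1000000000000080000000000800000000000000000000000000000000008000000 := rS 0xe3 (k2 i3177 i164 k0) (by decide +kernel)
def b19 : PP 8 4 T 0x4000000000401001004000000050040000000000000000010000000000000000000000500008000000 := rS 0x29b39 (k2 i3166 i3169 (k1 i2001 k0)) (by decide +kernel)
def b20 : PP 8 4 T 0x100000004410005000041000010000000000000000000000000000000000000000540000008000000 := rS 0x139 (k2 i3166 i2003 k0) (by decide +kernel)
def b21 : PP 8 4 T 0x8001000000000000000000000000000000000000800000000000000000000008000000 := rS 0x13d (k2 i3168 i1476 k0) (by decide +kernel)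
def b22 : PP 8 4 T 0x801000000000000000000000000000000000000000000200000000000000008000000 := rS 0x131 (k2 i3161 i1738 k0) (by decide +kernel)
def b23 : PP 8 4 T 0x41000000000000411000010000004000000004000000000000500000000000000000000000008000000 := rS 0x4ddc6f9 (k4 i3188 i3177 i3165 i2021 k0) (by decide +kernel)
def b24 : PP 8 4 T 0x201000000000000000000000000000000000000000000000000000000002008000000 := rS 0xd9 (k2 i3191 i683 k0) (by decide +kernel)
def b25 : PP 8 4 T 0x801000000000000000000000000000000002000000000000000000000000008000000 := rS 0x135 (k2 i3164 i1741 k0) (by decide +kernel)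
def b26 : PP 8 4 T 0x20001000000000000000000000000000080000000000000000000000000000008000000 := rS 0x14d (k2 i3169 i1745 k0) (by decide +kernel)
def b27 : PP 8 4 T 0x400100000000014001000040040000004000000000005000000000000000000000000000000008000000 := rS 0x3eddf3f (k4 i3170 i3183 i3189 i2025 k0) (by decide +kernel)
def b28 : PP 8 4 T 0x1000000002000000000000000000000000000000000000000000000000008002000 := rS 0x11b (k2 i3148 i1459 k0) (by decide +kernel)
def b29 : PP 8 4 T 0x400000000000000005000001001000000054000000000000000000000000000000000000000008000000 := rS 0xfb90c8ddf07 (k4 i3178 i3183 i3153 i3152 (k2 i3189 i2006 k0)) (by decide +kernel)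
def b30 : PP 8 4 T 0x1200000000000000000000000000000000000000000002000000000000008000000 := rS 0x127 (k2 i3155 i1465 k0) (by decide +kernel)
def b31 : PP 8 4 T 0x1000000000000080000000000000000000000000000000000000000000008000080 := rS 0x11b (k2 i3148 i1191 k0) (by decide +kernel)
def b32 : PP 8 4 T 0x21000000000000000000000000000000000000000000000200000000000008000000 := rS 0x131 (k2 i3161 i1202 k0) (by decide +kernel)
def b33 : PP 8 4 T 0x801000000000000000000000000000000000800000000000000000000000008000000 := rS 0xf9 (k2 i3188 i697 k0) (by decide +kernel)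
def b34 : PP 8 4 T 0x21000000000000000000000000000000000020000000000000000000000008000000 := rS 0x135 (k2 i3164 i1204 k0) (by decide +kernel)
def b35 : PP 8 4 T 0x1000002000000000000000000000000000000000000000000000000080008000000 := rS 0xd9 (k2 i3191 i174 k0) (by decide +kernel)
def b36 : PP 8 4 T 0x8001000000000000008000000000000000000000000000000000000000000008000000 := rS 0xef (k2 i3183 i950 k0) (by decide +kernel)
def b37 : PP 8 4 T 0x1000001000000001001004000000400000000540000000000000000000000000000000000008000000 := rS 0x525c6f9 (k4 i3188 i3177 i3157 i2015 k0) (by decide +kernel)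
def b38 : PP 8 4 T 0x1000000000000080000000000000000000000000000000000002000000008000000 := rS 0x123 (k2 i3153 i1195 k0) (by decide +kernel)
def b39 : PP 8 4 T 0x801000000000000000000000000000000000000000000800000000000000008000000 := rS 0x101 (k2 i3193 i693 k0) (by decide +kernel)
def b40 : PP 8 4 T 0x400000000000000501000010010000001000000000000000005000000000000000000000000008000000 := rS 0x7dcd5df37 (k4 i3165 i3183 i3164 i3189 (k1 i2022 k0)) (by decide +kernel)
def b41 : PP 8 4 T 0x1000000000000000000000000000000000000000000000000000000000008800000 := rS 0x0 (k1 i9 k0) (by decide +kernel)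
def b42 : PP 8 4 T 0x1000000000000000000000000000000000000000000000000a00000000008000000 := rS 0x0 (k1 i2149 k0) (by decide +kernel)
def b43 : PP 8 4 T 0x1200000000000000000000000000000000000000000020000000000000008000000 := rS 0x101 (k2 i3193 i426 k0) (by decide +kernel)
def b44 : PP 8 4 T 0x1000000000000000000000000000000000000000000000010000000000008000008 := rS 0x0 (k1 i189 k0) (by decide +kernel)
def b45 : PP 8 4 T 0x1000000000000002000000000000000000000000000000000000000000208000000 := rS 0x0 (k1 i2540 k0) (by decide +kernel)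
def b46 : PP 8 4 T 0x1000000000000000000000000000000000000000000000000000080020008000000 := rS 0x17 (k2 b41 i1838 k0) (by decide +kernel)
def b47 : PP 8 4 T 0x1000000000000000000000000000000000000000000000000200000000008000002 := rS 0x17 (k2 b41 i478 k0) (by decide +kernel)
def b48 : PP 8 4 T 0x1000000002000000000000000000000000000000000000000000000002008000000 := rS 0xd9 (k2 i3191 i167 k0) (by decide +kernel)
def b49 : PP 8 4 T 0x8001000000000000000200000000000000000000000000000000000000000008000000 := rS 0x103 (k2 i3194 i945 k0) (by decide +kernel)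
def b50 : PP 8 4 T 0x21000000000000000000000000000000000000000000000000000000000088000000 := rS 0x12f (k2 i3160 i1201 k0) (by decide +kernel)
def b51 : PP 8 4 T 0x1000000000000000000000000000000000000000000000000000000000088000008 := rS 0x0 (k1 i2061 k0) (by decide +kernel)
def b52 : PP 8 4 T 0x1000000002000000008000000000000000000000000000000000000000008000000 := rS 0xef (k2 i3183 i172 k0) (by decide +kernel)
def b53 : PP 8 4 T 0x800000000000000001000000000000000080000000000000000000000000000000000000000008000000 := rS 0x10b (k2 i3184 i1484 k0) (by decide +kernel)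
def b54 : PP 8 4 T 0x1000000000000000000000000000000000000000000000000200800000008000000 := rS 0x0 (k1 i2231 k0) (by decide +kernel)
def b55 : PP 8 4 T 0x2001000000000000000000000000000000000000000008000000000000000008000000 := rS 0x13b (k2 i3167 i1207 k0) (by decide +kernel)
def b56 : PP 8 4 T 0x1000000000000080002000000000000000000000000000000000000000008000000 := rS 0x121 (k2 i3152 i1194 k0) (by decide +kernel)
def b57 : PP 8 4 T 0x1000000000000000000000000000000000000000000000000000000020008200000 := rS 0x0 (k1 i2156 k0) (by decide +kernel)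
def b58 : PP 8 4 T 0x2000000000000001000000000000000000000000000000000000000000000000008000000008000000 := rS 0x10b (k2 i3184 i1216 k0) (by decide +kernel)
def b59 : PP 8 4 T 0x201000000000000000000000000000000000000000000020000000000000008000000 := rS 0xe7 (k2 i3179 i686 k0) (by decide +kernel)
def b60 : PP 8 4 T 0x801000000000000000000000000000000000200000000000000000000000008000000 := rS 0x14b (k2 i3163 i1740 k0) (by decide +kernel)
def b61 : PP 8 4 T 0x1000000000000001004001000000040000000000400000000000000000000000005000000008000000 := rS 0xe385d1df323 (k4 i3153 i3188 i3151 i3184 (k2 i3177 i2005 k0)) (by decide +kernel)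
def b62 : PP 8 4 T 0x800000000000001000000000000000000200000000000000000000000000000000000000008000000 := rS 0xef (k2 i3183 i1215 k0) (by decide +kernel)
def b63 : PP 8 4 T 0x2000000000000001000000000000000000800000000000000000000000000000000000000008000000 := rS 0xfb (k2 i3189 i1220 k0) (by decide +kernel)
def b64 : PP 8 4 T 0x201000000000000000000000000000000002000000000000000000000000008000000 := rS 0x137 (k2 i3165 i1473 k0) (by decide +kernel)
def b65 : PP 8 4 T 0x201000000000000000000000000000000000020000000000000000000000008000000 := rS 0x14b (k2 i3163 i1472 k0) (by decide +kernel)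
def b66 : PP 8 4 T 0x1000000000000000000000000000000000000000000000004200000000008000000 := rS 0x0 (k1 i269 k0) (by decide +kernel)
def b67 : PP 8 4 T 0x1000000000000000000000000000000800080000000000000000000000008000000 := rS 0x0 (k1 i2585 k0) (by decide +kernel)
def b68 : PP 8 4 T 0x401400000000000001000000100100000000540000000000000000000000000000000000000008000000 := rS 0x7dbe5c6ef (k4 i3183 i3177 i3188 i3189 (k1 i2026 k0)) (by decide +kernel)
def b69 : PP 8 4 T 0x1000000000000000000000000000000800000000000000000080000000008000000 := rS 0x0 (k1 i2596 k0) (by decide +kernel)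
def b70 : PP 8 4 T 0x2000000000000001000000000000000000008000000000000000000000000000000000000008000000 := rS 0xdb (k2 i3174 i1749 k0) (by decide +kernel)
def b71 : PP 8 4 T 0x2001000000000000000000000000000008000000000000000000000000000008000000 := rS 0x13f (k2 i3170 i1209 k0) (by decide +kernel)
def b72 : PP 8 4 T 0x20001000000000000000000000000000800000000000000000000000000000008000000 := rS 0xf9 (k2 i3188 i956 k0) (by decide +kernel)
def b73 : PP 8 4 T 0x40000001011000000000040000000000000000000000000054000000000000000000008000000 := rS 0xdba6cf61f4b (k4 i3163 i3195 i3168 i3169 (k2 i3174 i2017 k0)) (by decide +kernel)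
def b74 : PP 8 4 T 0x1000000000000000000000000000000000000000000000000080000000008000020 := rS 0x17 (k2 b41 i518 k0) (by decide +kernel)
def b75 : PP 8 4 T 0x1000000002000000020000000000000000000000000000000000000000008000000 := rS 0x123 (k2 i3153 i1463 k0) (by decide +kernel)
def b76 : PP 8 4 T 0x1002000000000000000000080000000000000000000000000000000000008000000 := rS 0xe3 (k2 i3177 i423 k0) (by decide +kernel)
def b77 : PP 8 4 T 0x1000000000000000000000000000000000000000000000800000000000028000000 := rS 0x0 (k1 i2536 k0) (by decide +kernel)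
def b78 : PP 8 4 T 0x1000002000000000000000000000000000000000000000000000000000008020000 := rS 0x11b (k2 i3148 i1727 k0) (by decide +kernel)
def b79 : PP 8 4 T 0x800000000000001000000000000000800000000000000000000000000000000000000000008000000 := rS 0xe7 (k2 i3179 i1212 k0) (by decide +kernel)
def b80 : PP 8 4 T 0x8001000000000000000000000000000000000000000000000000000008000008000000 := rS 0x139 (k2 i3166 i1474 k0) (by decide +kernel)
def b81 : PP 8 4 T 0x1000000000000000000000000000000000000000000080000080000000008000000 := rS 0x0 (k1 i2535 k0) (by decide +kernel)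
def b82 : PP 8 4 T 0x1000000000000000000000000000000000000000000000000000001000208000000 := rS 0x0 (k1 i784 k0) (by decide +kernel)
def b83 : PP 8 4 T 0x800000000000000001000000000000000000800000000000000000000000000000000000000008000000 := rS 0xf9 (k2 i3188 i1488 k0) (by decide +kernel)
def b84 : PP 8 4 T 0x1000000000000000000000000010000000000000000000000000000800008000000 := rS 0x0 (k1 i317 k0) (by decide +kernel)
def b85 : PP 8 4 T 0x8001000000000000000000000000000000000000000080000000000000000008000000 := rS 0x13b (k2 i3167 i1475 k0) (by decide +kernel)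
def b86 : PP 8 4 T 0x1000000000000000000000000000000000000000000000002000000008008000000 := rS 0x0 (k1 i2505 k0) (by decide +kernel)
def b87 : PP 8 4 T 0x1000000000000000000000000000000000000400000000000000000000208000000 := rS 0x0 (k1 i783 k0) (by decide +kernel)
def b88 : PP 8 4 T 0x800000000000000001000000000000000000000000000000000000000800000000000000000008000000 := rS 0xe7 (k2 i3179 i1753 k0) (by decide +kernel)
def b89 : PP 8 4 T 0x1000000000000000008000000000000000000000000000000000000000808000000 := rS 0x0 (k1 i2155 k0) (by decide +kernel)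
def b90 : PP 8 4 T 0x1000000000000000000000000000000000000000000000002000000000028000000 := rS 0x0 (k1 i2503 k0) (by decide +kernel)
def b91 : PP 8 4 T 0x1000000000000000000000000000000000000000000000080080000000008000000 := rS 0x0 (k1 i2533 k0) (by decide +kernel)
def b92 : PP 8 4 T 0x20001000000000000000000000000000000000008000000000000000000000008000000 := rS 0x13d (k2 i3168 i1744 k0) (by decide +kernel)
def b93 : PP 8 4 T 0x1000000000000000000000000000000000000000000800000000000008008000000 := rS 0x0 (k1 i2541 k0) (by decide +kernel)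
def b94 : PP 8 4 T 0x1000000000000080000000000020000000000000000000000000000000008000000 := rS 0xdb (k2 i3174 i160 k0) (by decide +kernel)
def b95 : PP 8 4 T 0x1000000000000000000000000000000000000000000000002000000000008000002 := rS 0x17 (k2 b41 i958 k0) (by decide +kernel)
def b96 : PP 8 4 T 0x1000000000000000080000000000000000000000000000000000020000008000000 := rS 0x0 (k1 i2242 k0) (by decide +kernel)
def b97 : PP 8 4 T 0x1000000000000000000000000000000000000000000000002000000000008000010 := rS 0x0 (k1 i748 k0) (by decide +kernel)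
def b98 : PP 8 4 T 0x800000000000001000000000000000000000000080000000000000000000000000000000008000000 := rS 0xff (k2 i3172 i1479 k0) (by decide +kernel)
def b99 : PP 8 4 T 0x1000000000000000000000000000000000000000000000000000000100028000000 := rS 0x0 (k1 i782 k0) (by decide +kernel)
def b100 : PP 8 4 T 0x1000000000000000080000000000000000000000000000000000000020008000000 := rS 0x0 (k1 i2158 k0) (by decide +kernel)
def b101 : PP 8 4 T 0x21000000000000000000008000000000000000000000000000000000000008000000 := rS 0xe3 (k2 i3177 i682 k0) (by decide +kernel)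
def b102 : PP 8 4 T 0x2001000000000000000000000000000000000000080000000000000000000008000000 := rS 0xdb (k2 i3174 i940 k0) (by decide +kernel)
def b103 : PP 8 4 T 0x1000000000000000000000000000000000000000000020000000000000208000000 := rS 0x0 (k1 i2538 k0) (by decide +kernel)
def b104 : PP 8 4 T 0x800000000000001000000000000000000000008000000000000000000000000000000000008000000 := rS 0xd7 (k2 i3173 i1480 k0) (by decide +kernel)
def b105 : PP 8 4 T 0x400000000000001000000101100040001000000140000000000000000000000000000000008000000 := rS 0x83c85ff47 (k4 i3151 i3172 i3152 i3178 (k1 i2004 k0)) (by decide +kernel)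
def b106 : PP 8 4 T 0x1000000000000000000000000000000000000000000000000000004000808000000 := rS 0x0 (k1 i272 k0) (by decide +kernel)
def b107 : PP 8 4 T 0x20001000000000000000000000000000000000000000000000000000200000008000000 := rS 0x139 (k2 i3166 i1742 k0) (by decide +kernel)
def b108 : PP 8 4 T 0x11001000000000000000000000000000000000000000000540000000000008000000 := rS 0x40697496db5e4f31 (k8 i3161 i3155 i3173 i3174 i3157 i3163 i3193 i2008 k0) (by decide +kernel)
def b109 : PP 8 4 T 0x1000000000000000000000000000000000000100000000000000000000808000000 := rS 0x0 (k1 i273 k0) (by decide +kernel)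
def b110 : PP 8 4 T 0x1001000000000140000000000000000000000000000000000000000000008000540 := rS 0x24b1b6bbfe8f49 (k4 i3157 i3151 i3172 i3173 (k2 i3148 i3154 (k1 i1994 k0))) (by decide +kernel)
def b111 : PP 8 4 T 0x800000000000000001000000000000000000000000000000008000000000000000000000000008000000 := rS 0xf5 (k2 i3186 i1486 k0) (by decide +kernel)
def b112 : PP 8 4 T 0x101000000011000000000000000000000000000000000000000000000001508000000 := rS 0x25f2183cd63ad9 (k4 i3191 i3149 i3164 i3178 (k2 i3152 i3160 (k1 i1999 k0))) (by decide +kernel)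
def b113 : PP 8 4 T 0x1000002000000000000000000000000000000000000000000000000080008000000 := rS 0xf5 (k2 i3186 i175 k0) (by decide +kernel)
def b114 : PP 8 4 T 0x800000000000001000000000000000000080000000000000000000000000000000000000008000000 := rS 0xe3 (k2 i3177 i1483 k0) (by decide +kernel)
def b115 : PP 8 4 T 0x1000000000000000000000000000000000004000000000000000000008008000000 := rS 0x0 (k1 i785 k0) (by decide +kernel)
def b116 : PP 8 4 T 0x400000400000001101000100100000400000014000000000000000000000000000000000008000000 := rS 0x525ced7 (k4 i3173 i3179 i3157 i2014 k0) (by decide +kernel)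
def b117 : PP 8 4 T 0x1000000000000000000000000000000000000010000000000000000000028000000 := rS 0x0 (k1 i781 k0) (by decide +kernel)
def b118 : PP 8 4 T 0x1200000000000000000000020000000000000000000000000000000000008000000 := rS 0x149 (k2 i3157 i1467 k0) (by decide +kernel)
def b119 : PP 8 4 T 0x1000002000000000000000000000000000000000000000000008000000008000000 := rS 0xf9 (k2 i3188 i178 k0) (by decide +kernel)
def b120 : PP 8 4 T 0x10001000000000000010000000000000000140000000000000000000000000008000000 := rS 0x5065b0394cede6f7 (k8 i3187 i3185 i3167 i3156 i3194 i3159 i3171 i2013 k0) (by decide +kernel)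
def b121 : PP 8 4 T 0x21000000000000000000000000000000000000000000000800000000000008000000 := rS 0x101 (k2 i3193 i677 k0) (by decide +kernel)
def b122 : PP 8 4 T 0x2000000000000001000000000000000000000000800000000000000000000000000000000008000000 := rS 0xff (k2 i3172 i1747 k0) (by decide +kernel)
def b123 : PP 8 4 T 0x801000000000000000000000000000000000000000000000000000000020008000000 := rS 0x12f (k2 i3160 i1737 k0) (by decide +kernel)
def b124 : PP 8 4 T 0x1000000000000000000000000000000000001000000000000000000020008000000 := rS 0x0 (k1 i275 k0) (by decide +kernel)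
def b125 : PP 8 4 T 0x1000000000000000000000000000000000000000000000000000020001008000000 := rS 0x0 (k1 i356 k0) (by decide +kernel)
def b126 : PP 8 4 T 0x1000000000000080000000000000000000000000000000000000000000028000000 := rS 0x11d (k2 i3149 i1192 k0) (by decide +kernel)
def b127 : PP 8 4 T 0x1000000000000000000000000000000000000000000000002000000000208000000 := rS 0x0 (k1 i2504 k0) (by decide +kernel)
def b128 : PP 8 4 T 0x1000000000000080000000000000000000000000000000000000000200008000000 := rS 0x11f (k2 i3150 i1193 k0) (by decide +kernel)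
def b129 : PP 8 4 T 0x1000001000000100000000000000000000000000000000000000000000008150000 := rS 0x2171b92c8de72d (k4 i3159 i3185 i3153 i3154 (k2 i3148 i3184 (k1 i1996 k0))) (by decide +kernel)
def b130 : PP 8 4 T 0x1000000002000000000000000000000000000000000000000000000000208000000 := rS 0x11d (k2 i3149 i1460 k0) (by decide +kernel)
def b131 : PP 8 4 T 0x1000000000000000000000000000000000000400000000000000020000008000000 := rS 0x0 (k1 i357 k0) (by decide +kernel)
def b132 : PP 8 4 T 0x100000000000000000000000000000000000000000000000000000000000a000000 := rS 0x0 (k1 i67 k0) (by decide +kernel)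
def b133 : PP 8 4 T 0x2001000000000000000000000000000200000000000000000000000000000008000000 := rS 0xe3 (k2 i3177 i942 k0) (by decide +kernel)
def b134 : PP 8 4 T 0x1000000000000000000000000200000000000000000000000000000000808000000 := rS 0x0 (k1 i2154 k0) (by decide +kernel)
def b135 : PP 8 4 T 0x800000000000000001000000000000000008000000000000000000000000000000000000000008000000 := rS 0x107 (k2 i3178 i1752 k0) (by decide +kernel)
def b136 : PP 8 4 T 0x1000000000000000000000000000000000000000000000000000100020008000000 := rS 0x0 (k1 i274 k0) (by decide +kernel)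
def b137 : PP 8 4 T 0x1002000000000000000000000000000000000000002000000000000000008000000 := rS 0x129 (k2 i3156 i1198 k0) (by decide +kernel)
def b138 : PP 8 4 T 0x21000000000000000000000000000000000200000000000000000000000008000000 := rS 0x137 (k2 i3165 i1205 k0) (by decide +kernel)
def b139 : PP 8 4 T 0x1000000000000000000000000000000000000000000000000200000000008000010 := rS 0x0 (k1 i268 k0) (by decide +kernel)
def b140 : PP 8 4 T 0x1200000000000000000000000000000000000000200000000000000000008000000 := rS 0x12d (k2 i3159 i1468 k0) (by decide +kernel)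
def b141 : PP 8 4 T 0x21000000000000000000000000000000000080000000000000000000000008000000 := rS 0xe1 (k2 i3176 i681 k0) (by decide +kernel)
def b142 : PP 8 4 T 0x1000000000000000000000000000000000000000000000000000000020008000008 := rS 0x0 (k1 i2063 k0) (by decide +kernel)
def b143 : PP 8 4 T 0x1000000000000000000000000000000000000000000000010080000000008000000 := rS 0x0 (k1 i779 k0) (by decide +kernel)
def b144 : PP 8 4 T 0x1000000000000000000000000000000000000004000000000000000000088000000 := rS 0x0 (k1 i271 k0) (by decide +kernel)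
def b145 : PP 8 4 T 0x1200000000000000800000000000000000000000000000000000000000008000000 := rS 0xed (k2 i3182 i430 k0) (by decide +kernel)
def b146 : PP 8 4 T 0x1000000000000000000000000080000000000000000000000000020000008000000 := rS 0x0 (k1 i2193 k0) (by decide +kernel)
def b147 : PP 8 4 T 0x1000000000000000000000000000000000000080000000000080000000008000000 := rS 0x0 (k1 i2579 k0) (by decide +kernel)
def b148 : PP 8 4 T 0x1000000000000020000000000000002000000000000000000000000000008000000 := rS 0x2e92824490896c7629788549a40228a870439ecee03336ac6e632597c75b327 (k8 i3155 i3191 i3149 i3160 i3154 i3161 i3148 i3190 (k8 i3162 i3193 i3167 i3168 i2614 i913 i912 i2177 (k8 i1992 i2615 i2176 b35 i138 i139 i2527 i472 (k4 i1163 b129 b17 i1843 (k1 i1171 k0))))) (by decide +kernel)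
def b149 : PP 8 4 T 0x1000000000000000000000000000002000000000000000000000000000008000000 := rS 0x4426012f92096d12685480f1228a870436acf6770199c9db31d97c96631b (k8 i3148 i3161 i3154 i3160 i3149 i3191 i3155 i3162 (k8 i3193 i3167 i3168 i3190 i2614 i913 i912 i2177 (k8 b35 i1992 i2176 i2615 b148 i1170 b17 i2612 (k4 b95 i213 i1874 b129 k0)))) (by decide +kernel)
def b150 : PP 8 4 T 0x401000000000000000000000000008000000000000000200014000000000008000000 := rS 0x3c120f719a0ccdee917acf67701 (k8 i3193 i3167 i3168 i3186 b149 i3187 i3162 i3171 (k4 b3 i1892 b17 b15 (k1 i2692 k0))) (by decide +kernel)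
def b151 : PP 8 4 T 0x401000000000000000000000000008000000800000000000002000000000008000000 := rS 0x7b3cc6683337ba45eb3d (k8 i3168 i3186 b149 i3187 i3162 i3171 b3 i2692 (k2 i2512 b15 k0)) (by decide +kernel)
def b152 : PP 8 4 T 0x101000000000000001000000000008000200000000000005000000000000008000000 := rS 0x1052c990d93580b9dd32b (k8 i3158 i3180 i3179 i3193 i3164 i1036 i1035 i670 (k2 b9 b16 k0)) (by decide +kernel)
def b153 : PP 8 4 T 0x1000000000000000000000000000000000008000000800000040000000008000000 := rS 0x41228a64ed98eb565f2580cc63619 (k8 b132 i3148 i3161 i3193 i3154 i3160 i3190 i3149 (k4 i3191 i3155 i1890 i644 (k2 i2566 i1992 k0))) (by decide +kernel)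
def b154 : PP 8 4 T 0x401000000000000000000000000000800000808000004100010000000000008000000 := rS 0x152fd57938b45f8a984e0b721cee06d76fc9e6ef579cb6033d (k8 i3168 i3193 i3159 i3185 i3186 i3165 i3155 i3175 (k8 i3173 i3194 i3167 b143 i151 i815 i1280 i1208 (k4 b153 b8 i775 i1922 (k2 i1197 i1178 (k1 b14 k0))))) (by decide +kernel)
def b155 : PP 8 4 T 0x4001000000000000020000000000008000008000000010400000000000000008000000 := rS 0xc9829aca85a3397626cd4ebae573b81b9e6ef579cb60291 (k8 b149 i3193 i3159 i3185 i3186 i3165 i3179 i3194 (k8 i3167 i3158 i3181 i1645 i129 b0 i512 i658 (k4 b8 i777 i1962 b30 (k2 i1186 b12 k0)))) (by decide +kernel)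
def b156 : PP 8 4 T 0x1000000000000000000000000008000088000800000500010000000000008000000 := rS 0xcc542416897139ecee03339bbd5e72d (k8 i3159 i3185 i3186 i3165 i3162 i3193 i3167 i3168 (k4 b0 i491 b8 b17 (k2 i777 i752 (k1 i3025 k0)))) (by decide +kernel)
def b157 : PP 8 4 T 0x1000000000000000500010005000814000000002055000000000000000008000000 := rS 0x158b1 (k2 i1297 i2040 (k1 i1702 k0)) (by decide +kernel)
def b158 : PP 8 4 T 0x400000000000000001000000000000000010000000000000080000000020000000080000000008000000 := rS 0x3958ec37883466301c040060500106171f (k8 i3150 i3184 i21 i780 b74 i188 i451 i452 (k8 i962 i1546 i1492 b78 i1953 i298 i1461 b29 k0)) (by decide +kernel)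
def b159 : PP 8 4 T 0x10001000000000000000000000000000000000000000000000000000440000008020001 := rS 0x1cbc63ef785d05bb23 (k8 i3153 i3192 i3171 i3184 i3187 i3150 b78 i1874 (k1 b20 k0)) (by decide +kernel)
def b160 : PP 8 4 T 0x101000000000000000400001014200000000040000000015440000000000048000000 := rS 0x430a1433eba5c34b9abb5b707 (k8 i3178 i3174 i3182 i3164 i3163 i3176 i3180 i1325 (k4 i1211 i2037 i2020 b32 k0)) (by decide +kernel)
def b161 : PP 8 4 T 0x1001000000000000000000010000100014010000000000000000000015500008000000 := rS 0xa360b49c3478fb75fedf (k8 i3175 i3172 i3192 i3150 i3151 i3176 b19 b56 (k2 i163 i2033 k0)) (by decide +kernel)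
def b162 : PP 8 4 T 0x1001000000000000400001014000000000040000000015540000000000008000000 := rS 0xf90c (k2 b108 i2037 (k1 b34 k0)) (by decide +kernel)
def b163 : PP 8 4 T 0x1000000000000080000010000100014010000000000000000000015500008000000 := rS 0x28d82e1 (k4 i3176 b56 i163 i2033 k0) (by decide +kernel)
def b164 : PP 8 4 T 0x1000000000000001001000000000040000000500000000000000000000000000000000000008010500 := rS 0xcae6ab5e5af3 (k4 i3185 i3159 i3173 i3190 (k2 b37 b110 (k1 i459 k0))) (by decide +kernel)
def b165 : PP 8 4 T 0x1002000000000000500010005000014000000000054000000000000000008000000 := rS 0x1855b2b (k4 i3158 i1199 b137 i2040 k0) (by decide +kernel)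
def b166 : PP 8 4 T 0x1000000000000000000840080200000000000000000000000000000000008110000 := rS 0xf1098f94ed5 (k4 i3190 i368 i1451 i1920 (k2 b119 b129 k0)) (by decide +kernel)
def b167 : PP 8 4 T 0x1200000000000000500011005000014000040000054005140080000000018000004 := rS 0x6987d422c03c34c05256965fa0097d2db3476dc75fe17 (k8 b41 i3172 i3149 i3174 i3151 i3191 i3163 i3160 (k8 i780 b165 b43 b118 b162 i2040 b121 i1224 (k4 i960 i820 i1304 b128 (k1 i1998 k0)))) (by decide +kernel)
def b168 : PP 8 4 T 0x1000000000000001000001000000000012000000400000000000000000000000001000000008000000 := rS 0xfda6ff (k4 i3172 b56 i1426 b61 k0) (by decide +kernel)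
def b169 : PP 8 4 T 0x1001000000000000000000001000000020000000004000000000000000008000010 := rS 0xc3159dc0daedf (k4 i3175 i3173 i3194 i3167 (k2 b2 i1278 (k1 b14 k0))) (by decide +kernel)
def b170 : PP 8 4 T 0x1000000000000001000000000000000000000500000000000000000000000000000000200008010009 := rS 0xfd69980120b (k4 i2184 i1264 i1000 b128 (k2 b137 b164 k0)) (by decide +kernel)
def b171 : PP 8 4 T 0x4001000000000000000000010000200000000000000000000000000011000008000000 := rS 0x728ce0f218fbadbaed (k8 i3182 i3192 i3181 i3150 i3152 i3178 i289 i171 (k1 b10 k0)) (by decide +kernel)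
def b172 : PP 8 4 T 0x1000000000000001000000000000000000000100000000100000000000000000000000200008010009 := rS 0x16460 (k2 i1000 b170 (k1 i1432 k0)) (by decide +kernel)
def b173 : PP 8 4 T 0x1000000000000000000000000000000000000000000000010000800004008000000 := rS 0x174b6d0080000a4024c4cbe45151e806439bbd5e72d80a4676d592c0e3f296ec9db31d97cc6370b (k8 i3184 i3148 i3161 i3160 i3149 i3191 i3155 i3192 (k8 i3156 i3150 i3194 i3154 i3190 i3167 b149 i3193 (k8 i3159 i3185 i3186 i3165 b143 b44 i395 i394 (k8 b54 b153 i692 i2511 i1992 i261 b6 i1154 (k4 i1153 i1757 i512 b8 k0))))) (by decide +kernel)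
def b174 : PP 8 4 T 0x10001000000000000000000000000000000000001000000000000000400080008000000 := rS 0x7b89d0666f748bd67b0b (k8 i3184 i3168 i3186 b149 i3187 i3162 i3171 i692 (k2 i812 b15 k0)) (by decide +kernel)
def b175 : PP 8 4 T 0x1000000000000022100000000000000000000000020000010000000000008000000 := rS 0x58251a0933d9dc066691 (k8 b149 i3162 i3193 i3167 i3168 i1162 i1167 b17 (k2 i1831 i605 k0)) (by decide +kernel)
def b176 : PP 8 4 T 0x1000000000000000000011000000014400040550008000010000000000008000000 := rS 0xf90c37c55bf33 (k4 i3162 i3175 b55 i1320 (k2 b73 i2044 (k1 b34 k0))) (by decide +kernel)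
def b177 : PP 8 4 T 0x400000000000000101000000000000000000008020000000000000000500011000000000000008000000 := rS 0xa6b02b1b20aab9ac05cee995bbe5af3 (k8 i3185 i3159 i3183 i3158 i3180 i3179 i3193 i3164 (k4 i98 b118 b5 b16 (k2 i1702 i568 (k1 i1824 k0)))) (by decide +kernel)
def b178 : PP 8 4 T 0x1000000000000021100000000008000004000000200002000000540000408000004 := rS 0x12b0c1e0063815e08514884eec5159e632279db564b038fca5baf785d064691 (k8 b149 i3153 i3171 i3184 i3187 i3192 i3156 i3150 (k8 i3194 i3154 i3190 i3167 i786 b3 i1076 b174 (k8 i1526 i1715 b87 b124 i1606 b20 i652 b4 (k4 b6 i597 i1829 i764 (k1 i2032 k0))))) (by decide +kernel)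
def b179 : PP 8 4 T 0x101000000000000001050000000000000005000000000000000000000055508000000 := rS 0x309c8e9 (k4 i3180 b112 i2032 b52 k0) (by decide +kernel)
def b180 : PP 8 4 T 0x1000000000000000000000000000000000000000020000008000000002008000004 := rS 0x40a4720124b2c92a4edab2581c7e52dd (k8 i3192 i3156 i3150 i3194 i3154 i3190 i3167 i1050 (k8 i120 i605 i29 i763 i205 i261 i963 b6 k0)) (by decide +kernel)
def b181 : PP 8 4 T 0x1000000000000000000000000008000004000000020100018000400000008000000 := rS 0x630e04e3718b0dc82511b34d03388b40a87445a350a29109dc06c5159e632c98fba66691 (k8 b149 i3162 i3180 i3150 i120 b3 i1076 b174 (k8 i1526 b44 i1715 b87 b124 i1606 i2732 i491 (k8 i1049 i1050 b120 i1471 i2945 i1167 b175 b106 (k8 b180 b112 b52 i1461 i996 i786 b178 i2032 (k1 i298 k0))))) (by decide +kernel)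
def b182 : PP 8 4 T 0x10001000000000000000080000000000000000000000020000000000440000008100001 := rS 0x6c19048701178b563ef785d05bb23 (k8 i3153 i3192 i3171 i3184 i3187 i3150 i3190 b4 (k4 b159 b20 b129 i298 (k2 i219 i3017 k0))) (by decide +kernel)
def b183 : PP 8 4 T 0x1100000000000000000000000000000000000000000000000000002000008005001 := rS 0x4772c9642e76acae0f1f (k8 i3150 i3178 i3158 i3190 i3179 i3152 i3154 i1461 (k2 i1532 b13 k0)) (by decide +kernel)
def b184 : PP 8 4 T 0x1000000000000001000000000008000004000000020000000020400005008001021 := rS 0x1ca47610cd8e371883d0a29109dd8b050a8acf31911c9642e76acae0e91 (k8 b149 i3178 i3158 i3190 i3179 i3152 i3154 i2137 (k8 b3 i1076 b174 i377 b9 i1526 i1715 b87 (k8 b124 i1606 i338 b183 i996 b182 i1711 i2032 (k2 i264 b52 (k1 b13 k0))))) (by decide +kernel)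
def b185 : PP 8 4 T 0x1000000002000000000000000008000084000100100111000400400004408144001 := rS 0x15e0a6a3699e2d116631de0111b8c5862506a151e29109dd8a2b3cc666b0173ba656ef9ec3e7eeb99b563e91 (k8 b149 i3150 i3190 i3162 i3181 i3170 i3195 i3168 (k8 i3183 i3158 i3180 i3179 i3193 i3164 b3 i1076 (k8 b174 i1526 i1715 b87 b124 i1187 i1606 b28 (k8 b48 b52 i1461 i996 b159 b129 b4 i2032 (k8 i690 i2018 b85 i555 i2029 i431 i507 b16 k0))))) (by decide +kernel)
def b186 : PP 8 4 T 0x1000000000000001001000000000000000011510000014400040550000100002000000000008000000 := rS 0x9f0d3e1bca2ae29b5e5af3 (k8 i3185 i3159 i3173 i2577 b37 i499 i1009 i2044 (k2 b34 i1273 (k1 b108 k0))) (by decide +kernel)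
def b187 : PP 8 4 T 0x1002000000000000500011001000014400040450014000002000000000008000000 := rS 0x881f22e6f3318556759acf61f3f74bae66e1 (k8 i3176 i3162 i3181 i3180 i3170 i3195 i3168 i3164 (k8 i1010 i422 b137 b165 i1008 b85 i2044 i2018 (k1 b65 k0))) (by decide +kernel)
def b188 : PP 8 4 T 0x1000000000000000000000002000000000000008001000000020000400048000000 := rS 0x1a62d5002ca44f44c568f1f6ebfdbf03 (k8 i3194 i3175 i3172 i3192 i3150 i3151 i937 i1317 (k4 i1271 i1056 i301 i826 (k2 i975 b94 (k1 b19 k0)))) (by decide +kernel)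
def b189 : PP 8 4 T 0x1000000000000000080000000000000000000001000000000000000000008110000 := rS 0x4de2d5 (k4 i3190 b4 i219 b129 k0) (by decide +kernel)
def b190 : PP 8 4 T 0x1000000000000000200000000008000004000100000000000000400004008114000 := rS 0x7230866c766894db10350c62e85478a442353bb1456798c88e0f218fbadbaef9acf61f3f74ccdce91 (k8 b149 i3179 i3162 i3180 i3170 i3195 i3168 i3164 (k8 i3183 i3192 i3181 i3150 i3152 i3178 b109 b3 (k8 i1076 b174 i1526 i1715 b131 b87 b124 i1187 (k8 i1606 i946 i983 i1186 i2018 i147 i684 i690 (k4 b189 i1711 i2032 b10 (k1 b52 k0)))))) (by decide +kernel)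
def b191 : PP 8 4 T 0x400000000000000001000000000000000000000120000000000000000500000000000000000008000000 := rS 0x1b60ae777cb656f3 (k8 i3185 i3158 i3159 i3183 i3179 b118 i1702 b5 k0) (by decide +kernel)
def b192 : PP 8 4 T 0x1001000000000000000000004000010800000400000000000000005000554048000000 := rS 0x6929912810e9c68f1f6ebfdbe91 (k8 b149 i3175 i3172 i3192 i3150 i3151 i1447 b117 (k4 i1337 i1443 i2031 b19 (k1 b18 k0))) (by decide +kernel)
def b193 : PP 8 4 T 0x1000000000000000000000002000800000400000001000000021000450008010000 := rS 0x9bc47c2d05add430c3787d66518aa64e6710a89daaff6fcce0691 (k8 b149 i3194 i3162 i3175 i3172 i3190 i746 i377 (k8 i1447 i1179 i154 i937 i496 i664 i183 b188 (k8 b73 i676 b101 i300 i975 b192 b119 i217 (k1 b129 k0)))) (by decide +kernel)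
def b194 : PP 8 4 T 0x1000000000000000200000000008000004000100000000000020400004008010000 := rS 0x124401d17479dc2a2b3cc660f359ec3e7ee975ccdce91 (k8 b149 i3179 i3162 i3181 i3180 i3170 i3195 i3168 (k8 i3164 i3178 b3 i1076 b174 i377 i1715 i1187 (k4 i946 b190 i2018 i338 (k1 i684 k0)))) (by decide +kernel)
def b195 : PP 8 4 T 0x1000000000000000200000000008000004000100000000000020400004008000000 := rS 0x20d0 (k2 i1185 b194 (k1 i472 k0)) (by decide +kernel)
def b196 : PP 8 4 T 0x1000000000000000000000000000000000000000000000000000800000008000000 := rS 0x2e96c965f2610e2627151ea6ef579cb6030b (k8 i3184 i3193 i3159 i3185 i3186 i3165 i395 i394 (k8 i14 i692 i2565 b173 b153 i51 i2552 i1892 (k1 b8 k0))) (by decide +kernel)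
def b197 : PP 8 4 T 0x1000000000000000000000000008000000000000000000000000000080008000000 := rS 0x3944b111830d0c741b084f023788e59f1942b15d31f99bde17416ec8c7691 (k8 b149 b196 i3153 i3192 i3171 i3184 i3187 i3162 (k8 i3150 i3180 i1526 i1606 b3 i133 i295 b35 (k8 i391 b174 i903 b20 i1075 i1076 i1956 i996 (k4 i1471 i928 i1461 b112 k0)))) (by decide +kernel)
def b198 : PP 8 4 T 0x10001000000000000000000000000000000008001400000000000000000000008000000 := rS 0x3dc4e83337ba45eb3d (k8 i3168 i3186 b149 i3187 i3162 i3171 b0 i817 (k1 b15 k0)) (by decide +kernel)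
def b199 : PP 8 4 T 0x10401000000000000010000000000000000000008000000000000000080008008000014 := rS 0x4326169185d45914005f9bbd5e72d80cedab2581c7e52dd (k8 i3192 i3156 i3150 i3194 i3154 i3190 i3167 i3193 (k8 i3159 i3185 i3186 i3165 b93 b6 b139 i1774 (k4 i1766 b120 b8 i1816 (k2 b81 i445 k0)))) (by decide +kernel)
def b200 : PP 8 4 T 0x401000000000000010000000000008000000008000000000000000080008008000000 := rS 0x450451a4a2210486048c80c93276cc75ab2f92c06631b (k8 i3148 i3161 i3193 i3154 i3160 i3190 i3149 i3191 (k8 i3155 b86 i2680 b3 b199 b74 i261 i1992 (k4 b66 i2732 i2303 b120 (k1 i1773 k0)))) (by decide +kernel)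
def b201 : PP 8 4 T 0x401000000000000000000000000008000000001000000000000000080010008000000 := rS 0x452090c001126b40be263d46456f193b663ad597c9603318d8edeb0b91cde83337ba467b1f (k8 i3150 i3168 b149 i3187 i3162 i3171 i3165 i3153 (k8 i3184 i3186 b196 i3148 i3161 i3193 i3154 i3160 (k8 i3190 i3149 i3191 i3155 i1729 b197 b3 b15 (k8 i2000 b93 b200 i653 i472 i990 b143 i746 (k2 b47 i1992 k0))))) (by decide +kernel)
def b202 : PP 8 4 T 0x1000000000000020000000000000000000000000000400000000080008008000000 := rS 0x229048600089364ed98eb565f2580cc6363b (k8 b196 i3148 i3161 i3193 i3154 i3160 i3190 i3149 (k8 i3191 i3155 i653 i472 i990 b143 i746 b47 (k1 i1992 k0))) (by decide +kernel)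
def b203 : PP 8 4 T 0x10001000000000000010000000000000000000008000000000000020080000008000000 := rS 0x1168d029349226 (k4 i1775 b86 i2545 i261 (k2 i1816 i1774 (k1 b120 k0))) (by decide +kernel)
def b204 : PP 8 4 T 0x10001000000000000010000000000000000000008000000000000080100000008000000 := rS 0x46a2cb600 (k4 i780 b81 i452 i1815 (k1 b120 k0)) (by decide +kernel)
def b205 : PP 8 4 T 0x1000000000000000000000000008000000008000000000000000180000008000000 := rS 0x8b46928884320b444d192e97e24793ac404277728c0463312b18562993b663ad597c9603318dccdd31f (k8 i3150 i3180 i3162 i3148 i3161 i3193 i3154 i3160 (k8 i3190 i3149 i3191 i3155 b136 b197 i997 i410 (k8 i1712 b106 i996 i1461 i3011 b87 b112 i1471 (k8 i1075 b201 b39 b22 b3 i1775 b202 b203 (k4 b204 i1992 b66 i2732 (k2 i491 b120 k0)))))) (by decide +kernel)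
def b206 : PP 8 4 T 0x1000000000000010000000000008000000004000000000008000000000008000000 := rS 0x22d1b19 (k4 b3 i2732 i492 b120 k0) (by decide +kernel)
def b207 : PP 8 4 T 0x1000000000000000000000000008000200000000000000000000080000008000000 := rS 0x1b052383cc86c61b3c06e51849642e76acae0f1f (k8 i3150 i3178 i3158 i3190 i3179 i3152 i3154 i996 (k8 i1461 i2680 i133 i1956 i1036 i1035 i668 i3013 (k2 b9 i1492 (k1 b13 k0)))) (by decide +kernel)
def b208 : PP 8 4 T 0x1000000000000010000000000008000000000000000000000000180000008000000 := rS 0x154d7040691c1e6d0216c0215451a50a672bb34b2878c974bf123c9d620213bb946023198958c2b149ed1aef92c85ced595c1c773374c7e0291 (k8 b149 i3193 i3150 i3180 i3162 b196 i3178 i3158 (k8 i3190 i3179 i3152 i3154 i3183 b207 b205 b136 (k8 b197 i997 i410 i1712 b106 i996 i1461 i3011 (k8 b87 b112 i1471 i1075 b201 b39 b22 b3 (k8 b198 i685 i690 b11 i3010 i1606 i1566 b120 (k8 i550 i452 i1883 i1774 i555 i408 i1532 i521 (k4 b13 i431 b30 i2039 k0))))))) (by decide +kernel)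
def b209 : PP 8 4 T 0x1000000000000000000000000008000000000000000000000000180000008000000 := rS 0x824521850004d6817e24793ac4042777289460c6158a4463393b663ad597c9603318dccdd31f (k8 i3150 i3180 i3162 i3148 i3161 i3193 i3154 i3160 (k8 i3190 i3149 i3191 i3155 i1712 b106 b136 b197 (k8 i997 i996 i410 i1461 i3011 b87 b112 i1471 (k8 i1075 b201 b39 b208 i653 i990 i991 b143 (k2 b47 i377 (k1 i1992 k0)))))) (by decide +kernel)
def b210 : PP 8 4 T 0x1000000000000001000000000000000000000140000000000400000000000080000000000008000000 := rS 0x166fd6bcb5e727 (k4 i3155 i3185 i3159 i3173 (k2 i1197 i1429 (k1 b37 k0))) (by decide +kernel)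
def b211 : PP 8 4 T 0x11000000000000000000001000150000000050000000000000000000001558000000 := rS 0xc0694be96d9a3b6e3aff (k8 i3172 i3149 i3174 i3151 i3191 i3163 i3160 i1998 (k2 i2030 b56 k0)) (by decide +kernel)
def b212 : PP 8 4 T 0x1000000000000000500010015000010010000000051000000000002000008000002 := rS 0xc693 (k2 i1510 i448 (k1 i2040 k0)) (by decide +kernel)
def b213 : PP 8 4 T 0x1000000000000001000000000000000000000142000000000000000000000200004000000008000400 := rS 0x1a60903a2140b2319c9fad56bcb5e703 (k8 i3194 i3185 i3159 i3173 i3190 i420 i496 i97 (k4 b37 i834 i835 i1340 (k2 i1427 b94 (k1 b110 k0)))) (by decide +kernel)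
def b214 : PP 8 4 T 0x101000000001000000000000024000000000000000000001000420000000048004000 := rS 0xd386a8580083e14c3a0c2b01e0a5997d2db3476dc75ff2590b9dab2b83cd602e9 (k8 i3180 i3193 i3164 i3178 i3158 i3190 i3179 i3152 (k8 i3154 i3172 i3149 i3174 i3151 i3191 i3163 i3160 (k8 i867 b118 i1226 b16 b13 i742 i568 i1581 (k4 i1494 i1493 i197 b34 (k2 b56 i1998 k0))))) (by decide +kernel)
def b215 : PP 8 4 T 0x1000000000000001000000000000000000000140000000000000000000000000004000000008000200 := rS 0x166fd6bcb5e725 (k4 i3154 i3185 i3159 i3173 (k2 i1196 i1427 (k1 b37 k0))) (by decide +kernel)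
def b216 : PP 8 4 T 0x1000000000000000000000000008000000001000020100018000000000008000000 := rS 0x431de323b (k4 b196 b3 i1548 b181 (k1 b198 k0)) (by decide +kernel)
def b217 : PP 8 4 T 0x4001100000000000020000000000008000000000000000410000020000004008000000 := rS 0x7543b20ce8b32928924d3c97476eb95cee06e748cce033d (k8 i3168 i3193 i3162 b149 i3179 i3194 i3167 i3158 (k8 i3181 b196 i512 i1072 i653 i1162 b17 b216 (k4 i145 i1714 b12 b155 (k2 i1064 b195 k0)))) (by decide +kernel)
def b218 : PP 8 4 T 0x1000000000000401000000000000000000004000410000000500000000000000005000054018000000 := rS 0x1e8652deadb (k4 i3174 i3186 i3163 b23 (k2 i2031 b50 k0)) (by decide +kernel)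
def b219 : PP 8 4 T 0x1000000000000000000004000000080000500040000000000005100444008000000 := rS 0xe30d5007c3a6f538b62a296fccdff41 (k8 i3171 i3172 i3162 i3175 b136 i1210 i1244 i1898 (k4 i1323 b99 b144 i2031 (k2 i676 i796 (k1 b73 k0)))) (by decide +kernel)
def b220 : PP 8 4 T 0x1000000000000000000000000000080000500040000000000005100444008000000 := rS 0xb7 (k2 i1902 b219 k0) (by decide +kernel)
def b221 : PP 8 4 T 0x1001000000000000000000440800000000000000000000000000000000008000400 := rS 0x14558b5e5af3 (k4 i3185 i3159 i3173 i1822 (k2 b122 b37 k0)) (by decide +kernel)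
def b222 : PP 8 4 T 0x1000000000000000500000815008014000000000055000000000000000008000000 := rS 0x17ab8 (k2 i2040 i1413 (k1 i1190 k0)) (by decide +kernel)
def b223 : PP 8 4 T 0x1000000000000000800248000000000000000000000011000000000000008000000 := rS 0x444aecc5ac166b0173ba656ef (k8 i3183 i3158 i3180 i3179 i3193 i3164 b145 i887 (k4 i1988 i506 i690 b16 k0)) (by decide +kernel)
def b224 : PP 8 4 T 0x1000000000000000800240000800000000000000000000000400000000008004000 := rS 0x3941ac252c164b2173b565707 (k8 i3178 i3158 i3190 i3179 i3152 i3154 b145 i368 (k4 i1984 i466 b52 b13 k0)) (by decide +kernel)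
def b225 : PP 8 4 T 0x1000000000000000500040801008100000000000055000000000000000008000000 := rS 0xa1afd28aba7d155a6949a5d7ae176b7de6f7 (k8 i3187 i3185 i3175 i3182 i3176 i1413 i1373 i1718 (k8 i1565 i1434 i1217 i1487 i666 b222 i1726 i1482 (k1 b68 k0))) (by decide +kernel)
def b226 : PP 8 4 T 0x1000000000000001000000000000000400080011008000040000000501000000405000000008201140 := rS 0xa55183dc8d28230d4e6d05aadf91531b1d82944d53d8af176b860f0b7fb9ddf2d95bce77036bb7c76f7 (k8 i3187 b196 i3175 i3173 i3194 i3167 i3185 i3158 (k8 i3159 i3183 i3179 i3172 i3184 i3178 i3176 i3182 (k8 i173 i1526 i1487 i1686 i1685 i1519 i1680 i1446 (k8 i941 b14 i422 i417 i1681 i330 i370 b5 (k4 b61 b29 i425 i163 (k2 i171 i2027 k0)))))) (by decide +kernel)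
def b227 : PP 8 4 T 0x1000000000000000000000000000100000100000008000008005000454048200040 := rS 0x14ea15b87416702820e24f18ecddb32385bd65ef3 (k8 i3185 i3160 i3186 i3184 i3153 i3191 i3165 i3149 (k8 i173 i2000 b33 i487 i488 i2304 i1229 i802 (k2 i796 i330 (k1 i2031 k0)))) (by decide +kernel)
def b228 : PP 8 4 T 0x1000000000000000400000801008100040000000415000000404000000008201140 := rS 0x5dd14ce3d64ab4d2f3 (k8 i3185 i1565 i1434 i1186 i1253 i1714 i1217 b226 (k1 b225 k0)) (by decide +kernel)
def b229 : PP 8 4 T 0x1000000000000000000000000000000000000000000000000080000000008200000 := rS 0x4c5e (k2 i635 i636 (k1 b93 k0)) (by decide +kernel)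
def b230 : PP 8 4 T 0x1000000000000000000000000000000000000000000000000100000040008200000 := rS 0x10883276cc75ab2f92c06631b (k8 i3148 i3161 i3193 i3154 i3160 i3190 i3149 i3191 (k4 i3155 i377 i1992 b229 k0)) (by decide +kernel)
def b231 : PP 8 4 T 0x1000000000000020000000000000000000000000000000000000000000008100001 := rS 0xa039db564b038fca5ba3b (k8 b196 i3192 i3156 i3150 i3194 i3154 i3190 i3167 (k2 i1160 i651 (k1 b6 k0))) (by decide +kernel)
def b232 : PP 8 4 T 0x1000000000000000000000000000000000000000000000004020000000028000000 := rS 0x924d9ecee0333 (k4 i3162 i3193 i3167 i3168 (k2 i2543 b90 (k1 b17 k0))) (by decide +kernel)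
def b233 : PP 8 4 T 0x400000000000101000000000000000000000001000000000010000001020100000000000488000000 := rS 0x149f87e31c556a6e86a21b73b81b5dbee970d2e6aed (k8 i3182 i3164 i3163 i3176 i3180 i3175 i3173 i3194 (k8 i3167 i3174 i270 b50 b144 i1396 b2 i1319 (k4 i2020 b14 i844 i419 k0))) (by decide +kernel)
def b234 : PP 8 4 T 0x1000000000000000000000001000000020000040000000800000000000008000010 := rS 0x18dfadb (k4 i3174 i419 i536 b169 k0) (by decide +kernel)
def b235 : PP 8 4 T 0x400000000000000001000000000000000800000040100000000000000100000000008000000008100140 := rS 0x5dafcd4b33684026bd78d16870570bb5ceef96cade6d5 (k8 i3190 i3185 i3158 i3159 i3183 i3179 i3182 i3176 (k8 b145 b79 b58 b119 i1411 i216 b129 i674 (k4 i473 b5 i1453 i1946 (k1 b68 k0)))) (by decide +kernel)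
def b236 : PP 8 4 T 0x1100001000000002004002140000000000100001000140540000000000008100040 := rS 0xb2082dd06135dc48d45fa79a5ab377abce5b0173bbe56e9 (k8 i3180 i3158 i3183 i3179 i3193 i3159 i3185 i3186 (k8 i3165 i3190 i1830 i1754 i891 b5 b8 i1946 (k4 i1960 b33 i887 b129 (k2 i2038 i473 k0)))) (by decide +kernel)
def b237 : PP 8 4 T 0x1000000000000000800000000410000004140002000020000005000050018000000 := rS 0x2789add07452f2f164f3 (k8 i3185 i673 i674 i669 i1217 i1416 i1989 i694 (k2 b93 b218 k0)) (by decide +kernel)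
def b238 : PP 8 4 T 0x1000000000000000000000000000000000000000000000200080000000008000000 := rS 0x9800 (k2 i780 b143 (k1 i2257 k0)) (by decide +kernel)
def b239 : PP 8 4 T 0x101000000000000040800000000100000000000000000005200020000000008000000 := rS 0xe551890f8c12c03e870511b85dae99ac05cf2b (k8 i3158 i3179 i3193 i3164 i3180 i3182 i3176 i185 (k8 b145 b79 i339 b16 i1246 i608 i866 i1593 (k2 i168 b105 k0))) (by decide +kernel)
def b240 : PP 8 4 T 0x101000000000000040800800000100000000000000000000200020000000008000000 := rS 0x174b71341a18fc5f3e964a90da1ab4dabb57ad4aeb2354ddeaf396c05d2e1a5cd5dadb (k8 i3174 i3182 i3164 i3163 i3176 i3180 i3193 i3159 (k8 i3185 i3186 i3165 i1454 i1453 i2326 i1398 i146 (k8 i1946 i147 i122 b79 b32 b239 i34 i1541 (k8 i629 i2020 i1723 i926 b0 i778 i514 b8 k0)))) (by decide +kernel)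
def b241 : PP 8 4 T 0x400000000000001000000000000041011800800120000001000001000540000020000001508100000 := rS 0x39184a3638447e2b438a6242770bb617377abce5b01 (k8 i3193 i3159 i3185 i3186 i3165 i3184 i3182 i3176 (k8 i745 b8 i187 b0 i692 i402 i474 b189 (k4 i1719 i2032 b105 b52 k0))) (by decide +kernel)
def b242 : PP 8 4 T 0x1000000000000040800800000120000000000000000000200020000000008000000 := rS 0x4426f1530a9045c62b042a5f2d83d0a5966896214336abc420d1195d646a6ac05df07 (k8 i3178 i3183 i3193 i3190 i1454 i1453 i2326 i185 (k8 i2280 i744 i146 i147 b79 b240 i684 i690 (k8 i685 b64 i338 i1962 i629 i627 i1246 i1790 (k8 b241 i514 i919 i920 b35 i213 i1912 b129 k0)))) (by decide +kernel)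
def b243 : PP 8 4 T 0x1000000000000040800800000020000000000000000000200020000000008000000 := rS 0xf984a4 (k4 b242 i1452 i1451 i2225 k0) (by decide +kernel)
def b244 : PP 8 4 T 0x1000000000000040800800000000000000000000000000200100000000008000000 := rS 0x504343a1f04900872fa5b668edb8ebfe373180c95ab27 (k8 i3155 i3190 i3154 i3193 i3161 i3148 i3172 i3149 (k8 i3174 i3151 i3191 i3163 i3160 b238 i1992 i2924 (k4 i182 i1230 b32 i1998 (k1 b243 k0)))) (by decide +kernel)
def b245 : PP 8 4 T 0x1000000000000000000800000200000000000000000000000020000000008010100 := rS 0x26f10a8f984d5 (k4 i3190 i1452 i1451 i2219 (k2 b119 i216 (k1 b129 k0))) (by decide +kernel)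
def b246 : PP 8 4 T 0x1000000000000000000000000000000000000000800000000020000000008200000 := rS 0x1cc6 (k2 i628 i627 (k1 i2238 k0)) (by decide +kernel)
def b247 : PP 8 4 T 0x11000000000000000800001000100000000000000000000000020000000008008000 := rS 0x2227f3e890a94356ba5c34b9abb5b707 (k8 i3178 i3174 i3182 i3164 i3163 i3176 i3180 i122 (k4 b79 i339 i338 i1541 (k2 i843 i684 (k1 i2020 k0)))) (by decide +kernel)
def b248 : PP 8 4 T 0x1000000000000000000000000000000000000000000024008000010002008004000 := rS 0x3318c5d1ec872c1e431f75b75cee9 (k8 i3180 i3179 i3192 i3181 i3150 i3152 i3178 i168 (k4 i605 i1133 i946 i983 (k2 i287 b10 k0))) (by decide +kernel)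
def b249 : PP 8 4 T 0x101000000000000000800000000100000000000040040004200020000502008001100 := rS 0x24d731518a24666e31008984b249dd2a051a960f8462a9fdcb438283d6b0d9ecee03339ab9dd32b70d2ddadb92c85ab07 (k8 i3178 i3190 i3152 i3154 i3174 i3182 i3163 i3176 (k8 i3158 i3180 i3179 i3164 i3162 i3193 i3167 i3168 (k8 b32 i1398 b247 b145 b79 i168 i843 i764 (k8 b13 i2020 b16 i2079 i2142 i1598 i2561 b97 (k8 b248 b17 i788 i527 i528 i193 i190 i1003 (k4 b55 i1406 i1322 b161 k0)))))) (by decide +kernel)
def b250 : PP 8 4 T 0x101000000000000000800800000100000000000040000000200020000500008000000 := rS 0x5d2dc4d06863f1f4be5912c36860936834cebb57ad4aeb2354ddeaf396c05d2e1a5cd5dadb (k8 i3174 i3182 i3164 i3163 i3176 i3180 i3193 i3159 (k8 i3185 i3186 i3165 i1454 i1453 i2326 i1398 i146 (k8 i1946 i2373 i2280 i147 i2924 b79 b32 b249 (k8 i866 i629 i1328 i2020 i1723 i926 b0 i778 (k2 i514 b8 k0))))) (by decide +kernel)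
def b251 : PP 8 4 T 0x1000000000000000800800000000000000000000000000200100000000008000000 := rS 0x2ec4d06863f17cb67d2cb344b10528bce61116a8546c103b4846b510aecae0d5787d64093507480439bbd5e72d80bbe0ee18dcc64b2f6ac75b327 (k8 i3155 i3191 i3149 i3190 i3160 i3154 i3161 i3148 (k8 i3176 i3178 i3183 i3193 i3159 i3185 i3186 i3165 (k8 b238 i1992 i1230 i1454 i2924 i1453 i182 i146 (k8 i2280 i2326 i1946 i744 i1398 i185 b244 b31 (k8 b56 i163 b94 b128 i473 i834 b84 b245 (k8 b250 i684 i690 i685 b65 i1962 i629 i2030 (k4 i1723 i926 b0 i514 (k1 b8 k0)))))))) (by decide +kernel)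
def b252 : PP 8 4 T 0x1000000000000081800000000100000000000000800500200100000000008000000 := rS 0x5ed156c3f5da04562957c483b430f824d34f0aa0d66bf1396c80435381c7aa170bb617377abce5b018dcc64b2f6ac75b327 (k8 i3155 i3191 i3149 i3190 i3160 i3154 i3161 i3148 (k8 i3193 i3159 i3185 i3186 i3165 i3184 i3182 i3176 (k8 b94 b38 b31 b18 b238 i1992 i1962 i745 (k8 b251 i634 i1437 b246 b88 i39 i1387 i182 (k8 b79 i1230 b8 i499 i187 i692 b60 i1946 (k4 b235 i2031 b70 i1988 (k1 b68 k0))))))) (by decide +kernel)
def b253 : PP 8 4 T 0x1000000000000000000000000000000000000000000200000000000000008080000 := rS 0x45a3632031c0a1a291 (k8 b149 i512 i1843 b136 b142 b107 i3073 i1882 (k1 b120 k0)) (by decide +kernel)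
def b254 : PP 8 4 T 0x201000000000000080800000000100000000000000800000200100000000008010000 := rS 0x61a1d74ae1f8ade029099707a075382c12210688d0ab15697cb2c50789506b35f89cb6cd639b42a4021b56373180c965f1d6cc9ddf07 (k8 i3178 i3183 i3155 i3191 i3149 i3160 i3154 i3193 (k8 i3161 i3148 i3190 b238 i1992 b246 i147 b189 (k8 i690 i1962 i745 b251 i634 i1437 i684 i338 (k8 i1790 i685 i629 i122 i1967 b64 i1469 i466 (k8 i744 i1387 i493 b18 b31 b38 b252 b253 (k8 i186 b129 b35 b119 i2028 i626 i1684 i1944 (k1 i2032 k0))))))) (by decide +kernel)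
def b255 : PP 8 4 T 0x11000000000000040000000500000000000400000000200000000000010008110540 := rS 0xa2a056ea657bf2263d1fbc0274b7ab6dab47 (k8 i3151 i3190 i3174 i3186 i3163 b253 b129 b119 (k8 i1730 b22 b110 b76 i2028 i1930 i1859 b122 (k1 b23 k0))) (by decide +kernel)
def b256 : PP 8 4 T 0x411000000000000000000004000800000000400000000000000000000010008000000 := rS 0x14540d2deadb (k4 i3174 i3186 i3163 i1859 (k2 b122 b23 k0)) (by decide +kernel)
def b257 : PP 8 4 T 0x400000000000001000000000000040009000000500000000000000000000000000000000008000000 := rS 0x51b95c2ed (k4 i3182 i3176 b52 i328 (k1 b105 k0)) (by decide +kernel)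
def b258 : PP 8 4 T 0x10001000000000000000000000000000000080000000000200010100000000008010004 := rS 0x128087a009e6273b6ac96071f94b7683337ba45eb3d (k8 i3168 i3186 b149 i3187 i3162 i3171 i3192 i3156 (k8 i3150 i3194 i3154 i3190 i3167 b22 i1854 i451 (k4 b15 b6 i1892 i485 k0))) (by decide +kernel)
def b259 : PP 8 4 T 0x11000000000000000000000000000000200200000001200000000040000008000084 := rS 0x450c473378111271240052edf99cedab2581c7e52dd (k8 i3192 i3156 i3150 i3194 i3154 i3190 i3167 i3162 (k8 i3175 i3074 i964 i1846 i1362 i1341 b6 i1008 (k4 i835 i519 b73 b55 k0))) (by decide +kernel)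
def b260 : PP 8 4 T 0x10001000000000000000000000000000000100000000000200010100000000008010004 := rS 0x22da291 (k4 b149 i512 b258 b120 k0) (by decide +kernel)
def b261 : PP 8 4 T 0x110000000000000000000000000000000000000100010000000200000000080000a0 := rS 0x738a9bc58622437e6617 (k8 b41 i3162 i3175 i261 i519 i520 i1008 b55 (k2 i976 b73 k0)) (by decide +kernel)
def b262 : PP 8 4 T 0x11000000000000000000000501000000000200000001200000120040000008010084 := rS 0x4c98ce64a24814e29745c611a4d68abd373d9dc066691 (k8 b149 i3162 i3193 i3167 i3168 i1337 i459 i512 (k8 i788 b259 b260 i1743 b26 i1362 b261 b97 (k4 b17 i1093 i488 i1864 (k1 i2041 k0)))) (by decide +kernel)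
def b263 : PP 8 4 T 0x1000000000000001000000000000000000000500000000000000000000200200104040000008010080 := rS 0x12f154cc64f66e31228964c0126cc2a9403f21a0b2010d07135babdc6dfa0bde761948d2deadb6bcb5e71b98c064b2f6ac75b327 (k8 i3155 i3191 i3149 i3190 i3160 i3154 i3193 i3161 (k8 i3148 i3185 i3159 i3173 i3174 i3186 i3163 b149 (k8 b132 i3167 i3187 i3171 i3175 i3177 i459 i1930 (k8 b22 i1437 b238 i1992 i493 b32 b37 b23 (k8 b213 b137 i1337 b262 b44 i1045 i531 i527 (k4 i528 i1892 i1743 i1938 (k2 b55 i1324 (k1 b1 k0)))))))) (by decide +kernel)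
def b264 : PP 8 4 T 0x1000000000000040000000000000000000000000001000200000000000008000108 := rS 0x2f8a9b8c489169328f1f6ebfdbe19 (k8 b132 i3175 i3172 i3192 i3150 i3151 b44 i1000 (k4 i190 i527 i528 b55 (k2 i1053 b19 k0))) (by decide +kernel)
def b265 : PP 8 4 T 0x1000000000000000000000002000000000000000000000200000000000008000080 := rS 0x224e463 (k4 i97 i496 i1340 i835 k0) (by decide +kernel)
def b266 : PP 8 4 T 0x1000000000000000000000000000000000000000002000200000000000008000080 := rS 0x149063 (k4 i74 i1312 i519 b97 k0) (by decide +kernel)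
def b267 : PP 8 4 T 0x1000000000000000000000000000000000000008000000000000000000028000000 := rS 0x19 (k2 b132 i1232 k0) (by decide +kernel)
def b268 : PP 8 4 T 0x400000000005001000000000000000000010000000014000000000000000000000000000008000000 := rS 0x1c2df76cfdd74d (k4 i3169 i3181 i3170 i3182 (k2 i3175 i3176 (k1 i2023 k0))) (by decide +kernel)
def b269 : PP 8 4 T 0x1000000000000000000000000000000000000000000000000200000000008080000 := rS 0x0 (k1 i2150 k0) (by decide +kernel)
def b270 : PP 8 4 T 0x1000000000000000000000000000000000000000000000020200000000008000000 := rS 0x19 (k2 b132 i526 k0) (by decide +kernel)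
def b271 : PP 8 4 T 0x1000000000000000000000000000000000000000000000000000200080008000000 := rS 0x91 (k2 b149 i295 k0) (by decide +kernel)
def b272 : PP 8 4 T 0x1000000000000000000000000000000000000000000000000150000000008000000 := rS 0x11b98c064b2f6ac75b327 (k8 i3155 i3191 i3149 i3190 i3160 i3154 i3193 i3161 (k2 i3148 i1992 k0)) (by decide +kernel)
def b273 : PP 8 4 T 0x1000000002000000000000000000000000000000000000000000002000008000000 := rS 0x11f (k2 i3150 i1461 k0) (by decide +kernel)
def b274 : PP 8 4 T 0x1000000000000000000000000000000000080000000000000000000000028000000 := rS 0x0 (k1 i2537 k0) (by decide +kernel)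
def b275 : PP 8 4 T 0x2000000000000001000000000000000000000000000200000000000000000000000000000008000000 := rS 0xdf (k2 i3175 i1750 k0) (by decide +kernel)
def b276 : PP 8 4 T 0x1000000000000000000000000000000000000000000000000000000000808000008 := rS 0x0 (k1 i2062 k0) (by decide +kernel)
def b277 : PP 8 4 T 0x201000000000000000000002000000000000000000000000000000000000008000000 := rS 0xed (k2 i3182 i689 k0) (by decide +kernel)
def b278 : PP 8 4 T 0x1000000000000020000000000000000000000000000000002000000000008000000 := rS 0x91 (k2 b149 i1162 k0) (by decide +kernel)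
def b279 : PP 8 4 T 0x20001000000000000000000000000000000080000000000000000000000000008000000 := rS 0x13b (k2 i3167 i1743 k0) (by decide +kernel)
def b280 : PP 8 4 T 0x1000000000000000080000000002000000000000000000000000000000008000000 := rS 0x3b (k2 b196 i1641 k0) (by decide +kernel)
def b281 : PP 8 4 T 0x20001000000000000000000000000002000000000000000000000000000000008000000 := rS 0x13f (k2 i3170 i1746 k0) (by decide +kernel)
def b282 : PP 8 4 T 0x1000000000000000000000000000000000000000000000000000000800008000200 := rS 0x0 (k1 i2072 k0) (by decide +kernel)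
def b283 : PP 8 4 T 0x1200000000000000000000000000000000000000000000000000000000008008000 := rS 0x107 (k2 i3178 i425 k0) (by decide +kernel)
def b284 : PP 8 4 T 0x1000000000000000000000000000000000000000000000000000000000808008000 := rS 0x0 (k1 i2153 k0) (by decide +kernel)
def b285 : PP 8 4 T 0x1000000000000000000002000000000000000080000000000000000000008000000 := rS 0x0 (k1 i2600 k0) (by decide +kernel)
def b286 : PP 8 4 T 0x1000000000000000000000000000000000000000000000008000000000008000008 := rS 0x19 (k2 b132 i1045 k0) (by decide +kernel)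
def b287 : PP 8 4 T 0x1000000000000000000000000000000000000020000000000000000000088000000 := rS 0x19 (k2 b132 i1357 k0) (by decide +kernel)
def b288 : PP 8 4 T 0x1200000000000000200000000000000000000000000000000000000000008000000 := rS 0x103 (k2 i3194 i428 k0) (by decide +kernel)
def b289 : PP 8 4 T 0x1000000000000000000000000000000000000000000000000000040008008000000 := rS 0x0 (k1 i786 k0) (by decide +kernel)
def b290 : PP 8 4 T 0x1000000000000000000000000000000800000000000002000000000000008000000 := rS 0x0 (k1 i2521 k0) (by decide +kernel)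
def b291 : PP 8 4 T 0x1002000000000000000000000000000000000000000000000000000000008000200 := rS 0x125 (k2 i3154 i1196 k0) (by decide +kernel)
def b292 : PP 8 4 T 0x20001000000000000020000000000000000000000000000000000000000000008000000 := rS 0xf3 (k2 i3185 i953 k0) (by decide +kernel)
def b293 : PP 8 4 T 0x1002000000000000000000000000000000000000000000080000000000008000000 := rS 0x127 (k2 i3155 i1197 k0) (by decide +kernel)
def b294 : PP 8 4 T 0x4101000000000000000000000000000000400000500000000000000000000008000000 := rS 0x4cdd6e99fc3e7b35 (k8 i3164 i3168 i3195 i3170 i3180 i3181 i3162 i2018 k0) (by decide +kernel)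
def b295 : PP 8 4 T 0x2000000000000001000000000000000000000800000000000000000000000000000000000008000000 := rS 0xf3 (k2 i3185 i1217 k0) (by decide +kernel)
def b296 : PP 8 4 T 0x201000000000000000000000000000000000000000000000000000000000808000000 := rS 0x12f (k2 i3160 i1469 k0) (by decide +kernel)
def b297 : PP 8 4 T 0x1000002000000000020000000000000000000000000000000000000000008000000 := rS 0x121 (k2 i3152 i1731 k0) (by decide +kernel)
def b298 : PP 8 4 T 0x1000000002000000000000000000000000000000000000000000000002008000000 := rS 0xe9 (k2 i3180 i168 k0) (by decide +kernel)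
def b299 : PP 8 4 T 0x1000000000000000000000000000000000000000000000000000002000808000000 := rS 0x17 (k2 b41 i1572 k0) (by decide +kernel)
def b300 : PP 8 4 T 0x1000000000011001000000000000000000000000000540000000000000000000000000000008000000 := rS 0x7bd05bee3 (k4 i3177 i3175 i3171 i3187 (k1 b1 k0)) (by decide +kernel)
def b301 : PP 8 4 T 0x800000000000001000000000000000000000000200000000000000000000000000000000008000000 := rS 0x107 (k2 i3178 i1211 k0) (by decide +kernel)
def b302 : PP 8 4 T 0x21000000000000000000000000000000000000080000000000000000000008000000 := rS 0x10f (k2 i3195 i679 k0) (by decide +kernel)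
def b303 : PP 8 4 T 0x2000000000000001000000000000000000000000000000000800000000000000000000000008000000 := rS 0xf5 (k2 i3186 i1218 k0) (by decide +kernel)
def b304 : PP 8 4 T 0x11000000000000040000000000010000000000000000000000000000000058000000 := rS 0x3fe3adba3b66972f (k8 i3160 i3163 i3191 i3151 i3174 i3149 i3172 i1998 k0) (by decide +kernel)
def b305 : PP 8 4 T 0x2001000000000000000000000002000000000000000000000000000000000008000000 := rS 0x103 (k2 i3194 i937 k0) (by decide +kernel)
def b306 : PP 8 4 T 0x1000000000000020000000000000000000000000000200000000000000008000000 := rS 0x91 (k2 b149 i512 k0) (by decide +kernel)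
def b307 : PP 8 4 T 0x1000000000000000000000000000000000008000000000000000000020008000000 := rS 0x19 (k2 b132 i1890 k0) (by decide +kernel)
def b308 : PP 8 4 T 0x400000000000000001100000000000000000000000000000000000001500000000000000000008000000 := rS 0xf395cb5dee7 (k4 i3179 i3183 i3159 i3158 (k2 i3185 b5 k0)) (by decide +kernel)
def b309 : PP 8 4 T 0x1000000000000020000000000000000000000000000000000000000000008020000 := rS 0x3b (k2 b196 i472 k0) (by decide +kernel)
def b310 : PP 8 4 T 0x1000000000000000000000000000000000000000000002000080000000008000000 := rS 0x0 (k1 i2534 k0) (by decide +kernel)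
def b311 : PP 8 4 T 0x1000000000000080000000000000000000000000000000000000000000008000800 := rS 0xd7 (k2 i3173 i158 k0) (by decide +kernel)
def b312 : PP 8 4 T 0x1000000000000000000000000000000000000000000000000200000000008000200 := rS 0x0 (k1 i2148 k0) (by decide +kernel)
def b313 : PP 8 4 T 0x8001000000000000000000000000002000000000000000000000000000000008000000 := rS 0x141 (k2 i3171 i1478 k0) (by decide +kernel)
def b314 : PP 8 4 T 0x1000000000000000000000000000000000000000000000000000000000008200008 := rS 0x0 (k1 i2228 k0) (by decide +kernel)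
def b315 : PP 8 4 T 0x400000000000111000000000000000000001000000000000050000000000000000000000008000000 := rS 0x1b6ed9ad2dc2e9 (k4 i3180 i3176 i3163 i3164 (k2 i3182 i3174 (k1 i2020 k0))) (by decide +kernel)
def b316 : PP 8 4 T 0x800000000000000001000000000000000000000000008000000000000000000000000000000008000000 := rS 0xf7 (k2 i3187 i1487 k0) (by decide +kernel)
def b317 : PP 8 4 T 0x1000000000000000000000000000000000000000000000000000000000008000015 := rS 0x376531f81c95ab3b (k8 i3167 i3190 i3154 i3194 i3150 i3156 i3192 b6 k0) (by decide +kernel)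
def b318 : PP 8 4 T 0x1000000000000000000000000000000080000000000800000000000000008000000 := rS 0x91 (k2 b149 i552 k0) (by decide +kernel)
def b319 : PP 8 4 T 0x1000000000000000000000000000000000000000000000002010000000008000000 := rS 0x0 (k1 i747 k0) (by decide +kernel)
def b320 : PP 8 4 T 0x201000000000000000000000000000000000000000000000000000000002008000000 := rS 0x107 (k2 i3178 i684 k0) (by decide +kernel)
def b321 : PP 8 4 T 0x21000000000000000000000000020000000000000000000000000000000008000000 := rS 0xff (k2 i3172 i676 k0) (by decide +kernel)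
def b322 : PP 8 4 T 0x1200000000000000200000000000000000000000000000000000000000008000000 := rS 0xeb (k2 i3181 i429 k0) (by decide +kernel)
def b323 : PP 8 4 T 0x1000000000000000000000000000000000000080000000080000000000008000000 := rS 0x0 (k1 i2514 k0) (by decide +kernel)
def b324 : PP 8 4 T 0x1000002000000000000000000000000000000000000000000002000000008000000 := rS 0x147 (k2 i3151 i1730 k0) (by decide +kernel)
def b325 : PP 8 4 T 0x401000001000000000000000000000000000000000000000000000000054008000000 := rS 0x4766ed991c2deb2f (k8 i3160 i3186 i3184 i3153 i3191 i3165 i3149 i2000 k0) (by decide +kernel)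
def b326 : PP 8 4 T 0x1002000000000000000000000000000000000000000000800000000000008000000 := rS 0xdb (k2 i3174 i419 k0) (by decide +kernel)
def b327 : PP 8 4 T 0x1000000000000000000000000000000800000000000000000000002000008000000 := rS 0x17 (k2 b41 i984 k0) (by decide +kernel)
def b328 : PP 8 4 T 0x1200000000000000000000000000000000000000000020000000000000008000000 := rS 0xe9 (k2 i3180 i427 k0) (by decide +kernel)
def b329 : PP 8 4 T 0x800000000000000001000000000000002000000000000000000000000000000000000000000008000000 := rS 0xe9 (k2 i3180 i1754 k0) (by decide +kernel)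
def b330 : PP 8 4 T 0x401000000000000000000000000000000000000000000540000000000000008000000 := rS 0x10196bcdeb37 (k4 i3165 i3186 i3185 i3159 (k2 i3193 b8 k0)) (by decide +kernel)
def b331 : PP 8 4 T 0x1000000000000000000000000002000008000000000000000000000000008000000 := rS 0x91 (k2 b149 i1645 k0) (by decide +kernel)
def b332 : PP 8 4 T 0x1000000000000000000000000000000000000000000000802000000000008000000 := rS 0x0 (k1 i2577 k0) (by decide +kernel)
def b333 : PP 8 4 T 0x1000000000000000000000000000000800000000000000000000004000008000000 := rS 0x0 (k1 i873 k0) (by decide +kernel)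
def b334 : PP 8 4 T 0x2001000000000000000000000000000000000000020000000000000000000008000000 := rS 0x13d (k2 i3168 i1208 k0) (by decide +kernel)
def b335 : PP 8 4 T 0x4001000000001000000000000000000000000000000000000000000015000008000000 := rS 0xdd75c7e4307 (k4 i3178 i3152 i3150 i3181 (k2 i3192 b10 k0)) (by decide +kernel)
def b336 : PP 8 4 T 0x8001000000000000000200000000000000000000000000000000000000000008000000 := rS 0xe7 (k2 i3179 i946 k0) (by decide +kernel)
def b337 : PP 8 4 T 0x800000000000001000000000000000000000000000000000080000000000000000000000008000000 := rS 0xdb (k2 i3174 i1481 k0) (by decide +kernel)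
def b338 : PP 8 4 T 0x1002000000000000000000002000000000000000000000000000000000008000000 := rS 0x103 (k2 i3194 i420 k0) (by decide +kernel)
def b339 : PP 8 4 T 0x4001100000000000000100000000000000000000000050000000000000000008000000 := rS 0xe781cee56eb (k4 i3181 i3158 i3167 i3194 (k2 i3179 b12 k0)) (by decide +kernel)
def b340 : PP 8 4 T 0x1000000000000000000002000000000000000000000000000000000000208000000 := rS 0x0 (k1 i2539 k0) (by decide +kernel)
def b341 : PP 8 4 T 0x1100000001000000000000000000000000000000000000000400000000008005000 := rS 0x20f2b6ab9e4325 (k4 i3154 i3152 i3179 i3190 (k2 i3158 i3178 (k1 b13 k0))) (by decide +kernel)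
def b342 : PP 8 4 T 0x1001001000000000000000000001000000000000000005000000000000000008000000 := rS 0x6fb5e073b (k4 i3167 i3194 i3173 i3175 (k1 b14 k0)) (by decide +kernel)
def b343 : PP 8 4 T 0x10401000000000000000000000000000000000005000000000000000000000008000000 := rS 0x27af548bde6741 (k4 i3171 i3162 i3187 b149 (k2 i3186 i3168 (k1 b15 k0))) (by decide +kernel)
def b344 : PP 8 4 T 0x1000000000000020000000000000000000000000000000000000000000008000008 := rS 0x3b (k2 b196 i1160 k0) (by decide +kernel)
def b345 : PP 8 4 T 0x101100000000000000000000000000000000000000000015000000000000008000000 := rS 0x12b74b9e0335 (k4 i3164 i3193 i3179 i3180 (k2 i3158 b16 k0)) (by decide +kernel)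
def b346 : PP 8 4 T 0x1000000002000000002000000000000000000000000000000000000000008000000 := rS 0x147 (k2 i3151 i1462 k0) (by decide +kernel)
def b347 : PP 8 4 T 0x1002000000000000000000000000000000000000000000000000000000008000800 := rS 0xff (k2 i3172 i417 k0) (by decide +kernel)
def b348 : PP 8 4 T 0x1000000000000000000000000000000000000000000000015000000000008000000 := rS 0x99c06773d (k4 i3168 i3167 i3193 i3162 (k1 b17 k0)) (by decide +kernel)
def b349 : PP 8 4 T 0x1000000000000000000000000000000800000000000000000000000001008000000 := rS 0x0 (k1 i872 k0) (by decide +kernel)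
def b350 : PP 8 4 T 0x1000000000000000000000000000000010000000000000000000000000088000000 := rS 0x0 (k1 i270 k0) (by decide +kernel)
def b351 : PP 8 4 T 0x2000000000000001000000000000000000000000000800000000000000000000000000000008000000 := rS 0xf7 (k2 i3187 i1219 k0) (by decide +kernel)
def b352 : PP 8 4 T 0x1001000000000000040000000000000000010000000000000000000000500008000000 := rS 0xdf7fb763f47 (k4 i3151 i3150 i3192 i3172 (k2 i3175 b19 k0)) (by decide +kernel)
def b353 : PP 8 4 T 0x1200000000000000000000000000000000000000800000000000000000008000000 := rS 0xef (k2 i3183 i431 k0) (by decide +kernel)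
def b354 : PP 8 4 T 0x1000000000000000000000000000000000000000000000000010000000008000008 := rS 0x0 (k1 i188 k0) (by decide +kernel)
def b355 : PP 8 4 T 0x1000000000000000000000000000000000000000000000000080000000008000001 := rS 0x0 (k1 i780 k0) (by decide +kernel)
def b356 : PP 8 4 T 0x1000000000000000000000000000000000000800000000000000000000808000000 := rS 0x19 (k2 b132 i1626 k0) (by decide +kernel)
def b357 : PP 8 4 T 0x10001000001000000000000000000000000000000000000000000000140000008000000 := rS 0xee46dda0c2def1f (k8 i3150 i3187 i3184 i3171 i3192 i3153 b196 b20 k0) (by decide +kernel)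
def b358 : PP 8 4 T 0x1000000000000000000000000000000000000000000000000800020000008000000 := rS 0x0 (k1 i2079 k0) (by decide +kernel)
def b359 : PP 8 4 T 0x1002000000000000000000008000000000000000000000000000000000008000000 := rS 0xe1 (k2 i3176 i422 k0) (by decide +kernel)
def b360 : PP 8 4 T 0x1000002000000000000000000000000000000000000000000000000008008000000 := rS 0x11d (k2 i3149 i1728 k0) (by decide +kernel)
def b361 : PP 8 4 T 0x201000000000000000000000000000000000000000000020000000000000008000000 := rS 0x101 (k2 i3193 i685 k0) (by decide +kernel)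
def b362 : PP 8 4 T 0x801000000000000000000000000000000000000000000800000000000000008000000 := rS 0xf3 (k2 i3185 i694 k0) (by decide +kernel)
def b363 : PP 8 4 T 0x1000000000000000000000000000000000000000000800002000000000008000000 := rS 0x0 (k1 i2612 k0) (by decide +kernel)
def b364 : PP 8 4 T 0x2001000000000000000000000000000080000000000000000000000000000008000000 := rS 0x141 (k2 i3171 i1210 k0) (by decide +kernel)
def b365 : PP 8 4 T 0x1000000002000000000000000000000000000000000000000000020000008000000 := rS 0xdd (k2 i3192 i169 k0) (by decide +kernel)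
def b366 : PP 8 4 T 0x1000000000000000000000000000000000000000000000000200020000008000000 := rS 0x0 (k1 i2211 k0) (by decide +kernel)
def b367 : PP 8 4 T 0x1000000000000000000000000000000000000000000000000000000000088000800 := rS 0x0 (k1 i2151 k0) (by decide +kernel)
def b368 : PP 8 4 T 0x1000000000000411000000000000000000004000000000000500000000000000000000000008000000 := rS 0x36deb4b (k4 i3163 i3186 i3174 b23 k0) (by decide +kernel)
def b369 : PP 8 4 T 0x1000000000000000000000000008000800000000000000000000000000008000000 := rS 0x91 (k2 b149 i1187 k0) (by decide +kernel)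
def b370 : PP 8 4 T 0x201000000000000002000000000000000000000000000000000000000000008000000 := rS 0xef (k2 i3183 i690 k0) (by decide +kernel)
def b371 : PP 8 4 T 0x1000000000000000000000000008000002000000000000000000000000008000000 := rS 0x91 (k2 b149 i1606 k0) (by decide +kernel)
def b372 : PP 8 4 T 0x1000000000000000000000000000000000000000000000000000008000208000000 := rS 0x17 (k2 b41 i1612 k0) (by decide +kernel)
def b373 : PP 8 4 T 0x1000000000000000000000000000800000200000000000000000000000008000000 := rS 0x91 (k2 b149 i1337 k0) (by decide +kernel)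
def b374 : PP 8 4 T 0x1000002000000000000000000000000000000000000000000000080000008000000 := rS 0x11f (k2 i3150 i1729 k0) (by decide +kernel)
def b375 : PP 8 4 T 0x1000000000000000000000000400540010000000000000000005140500008000000 := rS 0x3b (k2 b196 i2034 k0) (by decide +kernel)
def b376 : PP 8 4 T 0x801000000000000000000000000000000000000000000000000000000080008000000 := rS 0x10b (k2 i3184 i692 k0) (by decide +kernel)
def b377 : PP 8 4 T 0x1000000000000000000000000000000808000000000000000000000000008000000 := rS 0x91 (k2 b149 i931 k0) (by decide +kernel)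
def b378 : PP 8 4 T 0x400000000000014001000000000000004000000000005000000000000000000000000000000008000000 := rS 0x505d6f7 (k4 i3187 i3181 i3171 b27 k0) (by decide +kernel)
def b379 : PP 8 4 T 0x1000000000000000000000000000000000008000000000000000000080008000000 := rS 0x3b (k2 b196 i812 k0) (by decide +kernel)
def b380 : PP 8 4 T 0x1000000000000000000000000800000000000000000000000000000000088000000 := rS 0x0 (k1 i2152 k0) (by decide +kernel)
def b381 : PP 8 4 T 0x400000000000000001000001001000000054000000000000000000000000000000000000000008000000 := rS 0x10b (k2 i3184 b29 k0) (by decide +kernel)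
def b382 : PP 8 4 T 0x1002000000000000000000200000000000000000000000000000000000008000000 := rS 0x12d (k2 i3159 i1200 k0) (by decide +kernel)
def b383 : PP 8 4 T 0x1200000000000000000000000000000000000000000000000800000000008000000 := rS 0x125 (k2 i3154 i1464 k0) (by decide +kernel)
def b384 : PP 8 4 T 0x800000000000000001000000000000000000000000000000000000002000000000000000000008000000 := rS 0xf3 (k2 i3185 i1485 k0) (by decide +kernel)
def b385 : PP 8 4 T 0x800000000000000001000000000000000000200000000000000000000000000000000000000008000000 := rS 0xed (k2 i3182 i1756 k0) (by decide +kernel)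
def b386 : PP 8 4 T 0x1000000000000000000000000000000000000000000000000000000000008000808 := rS 0x0 (k1 i2184 k0) (by decide +kernel)
def b387 : PP 8 4 T 0x8001000000000000000000020000000000000000000000000000000000000008000000 := rS 0xed (k2 i3182 i949 k0) (by decide +kernel)
def b388 : PP 8 4 T 0x1000000000000005000000000005000405005500000000000000000000008000000 := rS 0x91 (k2 b149 i2046 k0) (by decide +kernel)
def b389 : PP 8 4 T 0x1000000000000000000000000000000000000000000000000000000200088000000 := rS 0x17 (k2 b41 i1304 k0) (by decide +kernel)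
def b390 : PP 8 4 T 0x1000000000000000000000000010000000000080000000000000000000008000000 := rS 0x0 (k1 i834 k0) (by decide +kernel)
def b391 : PP 8 4 T 0x1000000000000000000000000000000000000080000000000000000200008000000 := rS 0x17 (k2 b41 i976 k0) (by decide +kernel)
def b392 : PP 8 4 T 0x1000000000000000000000000000000000000000000000000200000800008000000 := rS 0x0 (k1 i2188 k0) (by decide +kernel)
def b393 : PP 8 4 T 0x1000000000000000000000000000800000000000000000000002000000008000000 := rS 0x3b (k2 b196 i1258 k0) (by decide +kernel)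
def b394 : PP 8 4 T 0x1000000000000000000000000000000000000200000000000000000000208000000 := rS 0x19 (k2 b132 i1500 k0) (by decide +kernel)
def b395 : PP 8 4 T 0x1000000000000001001000000000000000000540000000000000000000000000000000000008000000 := rS 0x3ce5ad7 (k4 i3173 i3159 i3185 b37 k0) (by decide +kernel)
def b396 : PP 8 4 T 0x1000000000000000020000000008000000000000000000000000000000008000000 := rS 0x3b (k2 b196 i1526 k0) (by decide +kernel)
def b397 : PP 8 4 T 0x21000000000000000000000000000000000000008000000000000000000008000000 := rS 0x133 (k2 i3162 i1203 k0) (by decide +kernel)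
def b398 : PP 8 4 T 0x1000000000000000000000000000000020000000000000000000000000028000000 := rS 0x17 (k2 b41 i1343 k0) (by decide +kernel)
def b399 : PP 8 4 T 0x1000000000000000000000000000000000000010000000000000000800008000000 := rS 0x0 (k1 i318 k0) (by decide +kernel)
def b400 : PP 8 4 T 0x1000000000000000000000000000000000000000000000000000200008008000000 := rS 0x17 (k2 b41 i1876 k0) (by decide +kernel)
def b401 : PP 8 4 T 0x1000000000000000000000000000000010000080000000000000000000008000000 := rS 0x0 (k1 i835 k0) (by decide +kernel)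
def b402 : PP 8 4 T 0x400000000000000501000000000000001000000000000000005000000000000000000000000008000000 := rS 0x1eae9 (k2 i3180 i3186 (k1 b40 k0)) (by decide +kernel)
def b403 : PP 8 4 T 0x1000000000000000000000000000000000000000000000000000000000008008008 := rS 0x0 (k1 i2206 k0) (by decide +kernel)
def b404 : PP 8 4 T 0x1000002000000000000000000000000000000000000000000000000000008200000 := rS 0xf3 (k2 i3185 i173 k0) (by decide +kernel)
def b405 : PP 8 4 T 0x1002000000000000000000020000000000000000000000000000000000008000000 := rS 0x12b (k2 i3158 i1199 k0) (by decide +kernel)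
def b406 : PP 8 4 T 0x1000000000000000000000000000080000800000000000000000000000008000000 := rS 0x91 (k2 b149 i1376 k0) (by decide +kernel)
def b407 : PP 8 4 T 0x1000000000000000000000000000800000000080000000000000000000008000000 := rS 0x91 (k2 b149 i1179 k0) (by decide +kernel)
def b408 : PP 8 4 T 0x1000000000000001000001000000040000000000400000000000000000000000005000000008000000 := rS 0xff (k2 i3172 b61 k0) (by decide +kernel)
def b409 : PP 8 4 T 0x401400000000000001000000000000000000540000000000000000000000000000000000000008000000 := rS 0x1dae1 (k2 i3176 i3182 (k1 b68 k0)) (by decide +kernel)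
def b410 : PP 8 4 T 0x2000000000000001000000000000000000000080000000000000000000000000000000000008000000 := rS 0xd7 (k2 i3173 i1748 k0) (by decide +kernel)
def b411 : PP 8 4 T 0x201000000000000000000000000000000800000000000000000000000000008000000 := rS 0xeb (k2 i3181 i688 k0) (by decide +kernel)
def b412 : PP 8 4 T 0x800000000000000001000000000000008000000000000000000000000000000000000000000008000000 := rS 0xeb (k2 i3181 i1755 k0) (by decide +kernel)
def b413 : PP 8 4 T 0x1011000000000000000000000000000000000000054000000000000000000008000000 := rS 0x266df (k2 i3175 i3162 (k1 b73 k0)) (by decide +kernel)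
def b414 : PP 8 4 T 0x801000000000000000000000000000000000002000000000000000000000008000000 := rS 0x133 (k2 i3162 i1739 k0) (by decide +kernel)
def b415 : PP 8 4 T 0x1002000000000000000000002000000000000000000000000000000000008000000 := rS 0xdf (k2 i3175 i421 k0) (by decide +kernel)
def b416 : PP 8 4 T 0x1000000000000000000000000000080000000000000000000008000000008000000 := rS 0x3b (k2 b196 i1372 k0) (by decide +kernel)
def b417 : PP 8 4 T 0x1000000000000000000000000000000080000000000000000000000000008200000 := rS 0x3b (k2 b196 i550 k0) (by decide +kernel)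
def b418 : PP 8 4 T 0x1000000000000000000000000000000000000008000000000000000800008000000 := rS 0x19 (k2 b132 i1053 k0) (by decide +kernel)
def b419 : PP 8 4 T 0x2001000000000000000000000002000000000000000000000000000000000008000000 := rS 0xd7 (k2 i3173 i938 k0) (by decide +kernel)
def b420 : PP 8 4 T 0x1000000000000000000000000000800000000000000000000000000800008000000 := rS 0x3b (k2 b196 i1175 k0) (by decide +kernel)
def b421 : PP 8 4 T 0x1000000000000000000004000000540000505054000000000000000000008000000 := rS 0x91 (k2 b149 i2045 k0) (by decide +kernel)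
def b422 : PP 8 4 T 0x800000000000001000000000000000000020000000000000000000000000000000000000008000000 := rS 0xeb (k2 i3181 i1214 k0) (by decide +kernel)
def b423 : PP 8 4 T 0x1000000000000080000000000080000000000000000000000000000000008000000 := rS 0xe1 (k2 i3176 i163 k0) (by decide +kernel)
def b424 : PP 8 4 T 0x800000000000001000000000000000000000000000020000000000000000000000000000008000000 := rS 0xdf (k2 i3175 i1482 k0) (by decide +kernel)
def b425 : PP 8 4 T 0x800000000000001000000000000000000002000000000000000000000000000000000000008000000 := rS 0xe9 (k2 i3180 i1213 k0) (by decide +kernel)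
def b426 : PP 8 4 T 0x201000000000000000000000000000000000000200000000000000000000008000000 := rS 0x133 (k2 i3162 i1471 k0) (by decide +kernel)
def b427 : PP 8 4 T 0x1000000000000004054000000005000000000000000000000000155000008000000 := rS 0x3b (k2 b196 i2035 k0) (by decide +kernel)
def b428 : PP 8 4 T 0x400000000000001000000001000040001000000140000000000000000000000000000000008000000 := rS 0x1dae1 (k2 i3176 i3182 (k1 b105 k0)) (by decide +kernel)
def b429 : PP 8 4 T 0x1000000000000000000000000000000000000200000000000000020000008000000 := rS 0x19 (k2 b132 i1061 k0) (by decide +kernel)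
def b430 : PP 8 4 T 0x1000000002000000000000000200000000000000000000000000000000008000000 := rS 0xed (k2 i3182 i171 k0) (by decide +kernel)
def b431 : PP 8 4 T 0x1001000000000040000000000000000000000000000000000000000000008000540 := rS 0xd5 (k2 i3190 b110 k0) (by decide +kernel)
def b432 : PP 8 4 T 0x101000000001000000000000000000000000000000000000000000000001508000000 := rS 0xe9 (k2 i3180 b112 k0) (by decide +kernel)
def b433 : PP 8 4 T 0x400000000000001101000000000000400000014000000000000000000000000000000000008000000 := rS 0x4addae1 (k4 i3176 i3182 i3158 b116 k0) (by decide +kernel)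
def b434 : PP 8 4 T 0x2000000000000001000000000000000000080000000000000000000000000000000000000008000000 := rS 0xe1 (k2 i3176 i1751 k0) (by decide +kernel)
def b435 : PP 8 4 T 0x2001000000000000000000000000000020000000000000000000000000000008000000 := rS 0xe1 (k2 i3176 i941 k0) (by decide +kernel)
def b436 : PP 8 4 T 0x1000000000000000000000000000000000000000000000008080000000008000000 := rS 0x19 (k2 b132 i438 k0) (by decide +kernel)
def b437 : PP 8 4 T 0x1000000002000000000000000000000000000000000000000000000000008008000 := rS 0xd5 (k2 i3190 i165 k0) (by decide +kernel)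
def b438 : PP 8 4 T 0x1000000000000000000000000000000000800080000000000000000000008000000 := rS 0x91 (k2 b149 i923 k0) (by decide +kernel)
def b439 : PP 8 4 T 0x1000001000000000000000000000000000000000000000000000000000008150000 := rS 0xd5 (k2 i3190 b129 k0) (by decide +kernel)
def b440 : PP 8 4 T 0x1000000000000000000000000008000000000000000000000000020000008000000 := rS 0x3b (k2 b196 i1183 k0) (by decide +kernel)
def b441 : PP 8 4 T 0x10001000000000000000000000000000000000000000000000000000040000008020001 := rS 0x3b (k2 b196 b159 k0) (by decide +kernel)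
def b442 : PP 8 4 T 0x10001000000000000000000000000000000000001000000000000000000080008000000 := rS 0x3b (k2 b196 b174 k0) (by decide +kernel)
def b443 : PP 8 4 T 0x1000000000000000000000000008000004000000020100018000000000008000000 := rS 0x3b (k2 b196 b181 k0) (by decide +kernel)
def b444 : PP 8 4 T 0x10001000000000000000080000000000000000000000020000000000040000008100001 := rS 0x3b (k2 b196 b182 k0) (by decide +kernel)
def b445 : PP 8 4 T 0x1000000000000001000000000008000004000000020000000020000005008001021 := rS 0x3b (k2 b196 b184 k0) (by decide +kernel)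
def b446 : PP 8 4 T 0x1000000002000000000000000008000084000100100111000400000004408144001 := rS 0x3b (k2 b196 b185 k0) (by decide +kernel)
def b447 : PP 8 4 T 0x1000000000000000200000000008000004000100000000000000000004008114000 := rS 0x3b (k2 b196 b190 k0) (by decide +kernel)
def b448 : PP 8 4 T 0x1000000000000000000000501000500000000000005200010100000000008010084 := rS 0x968c22d1a0024815a2af (k8 i459 b306 i519 b97 b317 i1846 i451 b260 (k2 i2041 b26 k0)) (by decide +kernel)
def b449 : PP 8 4 T 0x1000000000000000000000001020000000000000008000010000000000008000014 := rS 0x70179280049 (k4 b97 b317 b348 i1077 (k2 i488 i796 k0)) (by decide +kernel)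
def b450 : PP 8 4 T 0x1000000000000040000000500000000000000000000200200100000000008110100 := rS 0x7025810c44d01985529b4cd100c3f1bbc0521305a0d401f2010c3b0d (k8 b32 i1230 b238 b272 i182 b304 i1437 i493 (k8 b253 i186 b439 b374 b119 b255 b263 b275 (k8 b351 b265 b266 b264 i788 b448 b449 i485 (k2 b261 i1359 k0)))) (by decide +kernel)
def b451 : PP 8 4 T 0x1100000000000020000000000000000000000000800010000020000004008000000 := rS 0x8b279905f (k4 i629 i631 i632 b217 (k1 b49 k0)) (by decide +kernel)
def b452 : PP 8 4 T 0x201000000000000000800000000100000000000000800000200100000000008010000 := rS 0x5b154c26e309717a34c60045934063730aa40a125e225f945232894ce51fb08568714abe245d5034d8f0d05876861f048841a2342b04dab15685566bf2fb141e256889cb6cd2cc148043 (k8 b238 b272 b145 b361 b370 i1962 i745 b451 (k8 b320 i338 i1790 i629 b251 i634 b246 i122 (k8 i1967 i147 i1246 b64 b296 i466 i744 i1387 (k8 i182 b79 i1230 i493 b32 b189 b254 b304 (k8 b450 b330 i499 i187 b0 b376 i2032 i402 (k8 b52 b257 b428 b341 b122 b221 i2163 i329 (k8 i210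 i2144 b213 b137 i3141 b264 i788 i1882 (k8 b317 b449 i964 i1077 i1898 b120 b72 i2041 (k2 b133 i980 (k1 b352 k0)))))))))) (by decide +kernel)
def b453 : PP 8 4 T 0x400000000000011000000000000001000400001000200000000010805000010000000000008020000 := rS 0xdcb739af094bb24abc0afc45c568b4f (k8 b88 b275 b133 i1939 b342 i523 b76 b97 (k4 i1946 b348 b409 i1093 (k2 i1988 b413 (k1 i1060 k0)))) (by decide +kernel)
def b454 : PP 8 4 T 0x1000001000000000000000080000000000400000000000200000000014008000500 := rS 0x769a9d402a89ad8b8fd (k8 b76 i499 i500 b22 b325 i850 i333 b94 (k2 i460 b431 k0)) (by decide +kernel)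
def b455 : PP 8 4 T 0x1000000000000010000000541000100140000000005000000000000000008000000 := rS 0x26d2f18 (k4 b120 b26 b72 i2041 k0) (by decide +kernel)
def b456 : PP 8 4 T 0x1100000000000001010000000000000481000100040040010000000015508025000 := rS 0x2786c313d9dc02484e92d8c5d43c4856cf3cc65e2c3 (k8 i1953 b78 b279 i1854 i1979 b442 b325 b0 (k8 b22 i2032 i491 b280 b348 b95 i752 i753 (k4 b183 b441 b388 i996 k0))) (by decide +kernel)
def b457 : PP 8 4 T 0x400000000000011000000000000011000400141000000040000010805000010000000000008020000 := rS 0x4cacd1a03 (k4 b44 i1760 i634 b453 (k1 b455 k0)) (by decide +kernel)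
def b458 : PP 8 4 T 0x1000000000000011800400000000000401000100805000200000000005508025500 := rS 0x692800e727eaa1162f38934cf0da1c1562ad2db155e2921bc506b3 (k8 i634 i1437 b78 b238 i1836 b454 i1790 i1962 (k8 i122 i1967 b145 b79 b32 i545 i527 i1358 (k8 b399 b456 b457 b338 i496 i456 b390 b431 (k1 b94 k0)))) (by decide +kernel)
def b459 : PP 8 4 T 0x11000000000000000000000000000000000000000008000010000000000058000010 := rS 0x1a4065080006a9 (k4 i97 b44 b317 b449 (k2 i447 b304 (k1 b31 k0))) (by decide +kernel)
def b460 : PP 8 4 T 0x1000000000000001800000000100000040000000809400200100000000008020000 := rS 0x348ba02260161a1d0f8248043 (k8 b238 b272 i1387 i182 i1230 b32 i523 b459 (k4 i788 i531 b264 b252 k0)) (by decide +kernel)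
def b461 : PP 8 4 T 0x1000000000000000000000000000000080000000000000020060000000008020000 := rS 0x370080a328d (k4 i76 b279 i788 i445 (k2 i1004 b441 k0)) (by decide +kernel)
def b462 : PP 8 4 T 0x201000000000000000800000000100000000000000801000200100000000008000000 := rS 0xe2735c1bccc4d45454c50d05afc12210688d0a8f3aad4bec507895a2272db34b305200a42043 (k8 b238 b452 i1836 b272 b145 b361 b370 i1962 (k8 i745 b451 b320 i338 i1790 i629 b277 b426 (k8 b411 b64 b296 i466 i744 i1387 b251 i493 (k8 b32 b458 b55 b460 b461 b456 i1320 i546 (k2 i1141 i1407 (k1 b413 k0)))))) (by decide +kernel)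
def b463 : PP 8 4 T 0x201000000000000000800000000100000000000000800000200100000000008000000 := rS 0x458109a672418cc0290809d8a5b828841a2366a151e75078948043 (k8 b238 b272 b320 i338 b426 b411 b64 b370 (k8 b296 i466 i744 b145 i1962 i1790 i745 b452 (k8 i1836 b462 i74 i1312 i545 i527 b97 b456 (k1 i523 k0)))) (by decide +kernel)
def b464 : PP 8 4 T 0x1000000000000000000000540400000000000000000000000001000000008150540 := rS 0x1e03e (k2 i2028 b439 (k1 b119 k0)) (by decide +kernel)
def b465 : PP 8 4 T 0x1000000000000000000000140000000100000000002000000000000000008110560 := rS 0x26b3538f5a4fd (k4 b137 b431 b38 b18 (k2 i1432 i267 (k1 b464 k0))) (by decide +kernel)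
def b466 : PP 8 4 T 0x1001000000000000000000540000000000400000000440000000000014058110560 := rS 0x404496e3f159768812538f542d2 (k8 b431 b94 b38 b18 b464 b395 b253 i213 (k4 i2146 b70 b330 i2031 (k1 b60 k0))) (by decide +kernel)
def b467 : PP 8 4 T 0x201000000000000004000000000001800000404400020000000020000004008001021 := rS 0x9f439e6322566a151e75 (k8 b426 b411 b64 b370 b320 b72 i1074 b198 (k2 b445 b388 k0)) (by decide +kernel)
def b468 : PP 8 4 T 0x800000000000000001001000000000005800000440005000401404500000000006100000010058010540 := rS 0x285b2e2c4f0bd4397c4e04 (k8 b97 b86 b363 b111 b385 b388 i1393 i1013 (k2 i1808 b466 (k1 i509 k0))) (by decide +kernel)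
def b469 : PP 8 4 T 0x201000000000000000800000000100000040400400402000006120000000018000440 := rS 0xf2872e9a29e6d4facd369d3d8460a0d0fb350a8f3aabdfab8008259e642f89c5204 (k8 b97 i2138 b86 b363 i1392 i1029 i1387 i961 (k8 i1391 b137 i625 b426 b411 b64 b370 i182 (k8 i466 b145 i523 i754 i1552 b467 i1431 i1189 (k4 i673 b468 b308 i1849 (k2 i1564 i1013 (k1 b388 k0)))))) (by decide +kernel)
def b470 : PP 8 4 T 0x201000000000000000800000000100000000000000002000200100000000008000000 := rS 0x112402dc7ef115d10207958acc2a8d8ca29423d538a5a404139dc9a07419212e6425bf4c64f058743e092010d5e6b (k8 b463 i625 b238 b272 i1387 i182 i1230 i493 (k8 i31 i74 b137 i1048 i1392 i2853 i1312 i2917 (k8 b266 i527 i1548 b86 b97 b431 i2138 b18 (k8 b38 b94 b469 b279 i76 b417 i553 i1885 (k8 i1854 b465 b395 b442 b78 b58 b70 i2031 (k2 b325 b60 k0)))))) (by decide +kernel)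
def b471 : PP 8 4 T 0x1100000000000000020000000000000000000000020000000000000000008005020 := rS 0x11866e5 (k4 b75 i2949 b341 i264 k0) (by decide +kernel)
def b472 : PP 8 4 T 0x1100000000000001010000000000000481000100040000010000000015508025000 := rS 0x5b (k2 i1757 b456 k0) (by decide +kernel)
def b473 : PP 8 4 T 0x1100000000000000008000000000000000000000400000000000000000008005000 := rS 0x8ee5 (k2 b52 i211 (k1 b341 k0)) (by decide +kernel)
def b474 : PP 8 4 T 0x1100000000000001014000000000000481001101000000010800000015508005020 := rS 0x18e87089dcce640a80c5719 (k8 b279 b442 i65 b417 i265 i1618 i1548 b472 (k2 b198 b189 (k1 i2032 k0))) (by decide +kernel)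
def b475 : PP 8 4 T 0x1100000000000000080000000000000000000001400000000400000000008000000 := rS 0xd34f (k2 b53 i1561 (k1 b308 k0)) (by decide +kernel)
def b476 : PP 8 4 T 0x1100000000000000000000000000000008000001400400000000000000008000000 := rS 0xd34f (k2 b111 i1564 (k1 b308 k0)) (by decide +kernel)
def b477 : PP 8 4 T 0x1100000000000001010000000000000481001101400000010000000015508005020 := rS 0x3188ec34397c5719 (k8 b279 b442 b318 b476 b473 b474 i2032 b475 k0) (by decide +kernel)
def b478 : PP 8 4 T 0x1100000000000001000000000000000481001101400000010000000015508005020 := rS 0x23195cac4 (k4 b477 b75 b471 b341 (k1 i265 k0)) (by decide +kernel)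
def b479 : PP 8 4 T 0x1100000000000001000000000000000481000101400000000020000001408001020 := rS 0x79139349029018841e8d (k8 i76 i338 i744 i65 i2138 i261 i788 b86 (k2 i1012 b478 k0)) (by decide +kernel)
def b480 : PP 8 4 T 0x1000000000000000000000000000000080000000000000010000000010008000010 := rS 0xf189840b82b00128f2038c9244e37 (k8 i1774 b289 b97 b279 b44 i1854 b348 b317 (k4 b442 i491 i451 b22 (k2 b78 b325 k0))) (by decide +kernel)
def b481 : PP 8 4 T 0x1000000000000000020000000000000000000000000000000000000000008111000 := rS 0x26f1 (k2 b297 i1804 (k1 b439 k0)) (by decide +kernel)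
def b482 : PP 8 4 T 0x10001000000000000000000000000000000000000000000000000000040080008000000 := rS 0x1e239 (k2 b271 b35 (k1 b357 k0)) (by decide +kernel)
def b483 : PP 8 4 T 0x1000000000000001004000000000000085000001000000000060000011408001010 := rS 0x18ac7089304215138ac6f19 (k8 b279 i1774 b482 b289 b417 i744 b480 b461 (k2 b189 b481 (k1 i2032 k0))) (by decide +kernel)
def b484 : PP 8 4 T 0x1000000000000001004000000000000085000001000000000060000001408001010 := rS 0x2600cf028 (k4 b483 b124 b142 i1854 (k1 i788 k0)) (by decide +kernel)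
def b485 : PP 8 4 T 0x1000000000000001800000000000000481000100400000000060000001408001000 := rS 0x150e6d2fb0c1f05 (k8 b145 i338 b473 b318 i2381 b476 b479 b484 k0) (by decide +kernel)
def b486 : PP 8 4 T 0x1000000000000000000000000000000000000000000000000140000020008000010 := rS 0x26a36325c0880c7040 (k8 b272 b136 b142 i1836 i187 b107 i1814 i788 (k1 b260 k0)) (by decide +kernel)
def b487 : PP 8 4 T 0x1000000000000001004000000000000005000001000000000020200011408011000 := rS 0x18ac70a8ac4227 (k4 i746 i744 b271 i2176 (k2 b189 b481 (k1 i2032 k0))) (by decide +kernel)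
def b488 : PP 8 4 T 0x1000000000000001004000000000000005000001000000000100000055508011000 := rS 0x3158e15 (k4 b230 b189 b481 i2032 k0) (by decide +kernel)
def b489 : PP 8 4 T 0x1000000000000001004000000000000005000001000400000120000011408011002 := rS 0x464f2d02d2342813788a84e21 (k8 i744 i746 b488 b35 i213 b439 i965 i378 (k4 i637 i1807 b292 b442 k0)) (by decide +kernel)
def b490 : PP 8 4 T 0x800000000000000001001000000000000015400440100000000000000000000000000000000008020540 := rS 0x1763f518f688d258a9d8ebd (k8 b385 b53 i1912 i1762 b431 b395 b38 b423 (k2 b58 b434 (k1 i2036 k0))) (by decide +kernel)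
def b491 : PP 8 4 T 0x400000000000001000000000000014200000541000004140000000005000000000000000008000000 := rS 0x5cc552a984ba6e3117 (k8 b336 b120 b72 b26 i2041 i1100 b133 i1143 (k1 b268 k0)) (by decide +kernel)
def b492 : PP 8 4 T 0x800400000000000001000000000000000215400440100004140000000005000000000000400008020500 := rS 0xefd5434562cf (k4 b412 i1762 b309 b491 (k2 b338 i456 (k1 b490 k0))) (by decide +kernel)
def b493 : PP 8 4 T 0x1000000000000000041001800500000004010000000200000000000001558020000 := rS 0xa3509fc7c82 (k4 i514 i474 i925 i920 (k2 i406 i2030 k0)) (by decide +kernel)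
def b494 : PP 8 4 T 0x400000000000001100000000000000001401040100004145010001455200000000000401558025500 := rS 0x11dcac459b219ec7a71a586a74ea7e30d1 (k8 b309 b120 b3 b281 i1912 b473 i1849 b308 (k8 b53 b412 i2042 b493 b492 b75 i1535 b341 k0)) (by decide +kernel)
def b495 : PP 8 4 T 0x800000000000000001000000000000001004000000005000405005100000000000000000051508000000 := rS 0x631719b94ecc467b1c6a27 (k8 b115 b125 b53 b412 i2032 b388 b75 i1615 (k2 b21 i1507 (k1 b335 k0))) (by decide +kernel)
def b496 : PP 8 4 T 0x201000000000000000800000000100000004000001000400210100000000008000010 := rS 0x22e33728c4ecc42333cd14f3c8ae245d2d89cf69f4ec611ad1080bcca714999c004a3180e1a0b0ed0d7e1f04884fab51ab055e616183e0a8b359d51e8566894460d201245243 (k8 b238 b486 b97 b272 i466 b296 b320 b370 (k8 b64 b411 b426 b463 b485 b145 i338 b473 (k8 b470 i625 i1246 b125 b277 b65 i744 i1387 (k8 i182 b251 b79 i1230 i493 b32 b44 b459 (k8 b348 b317 i545 i1366 i1358 i1049 b399 b489 (k8 b309 i1760 b120 b281 b3 b92 b115 i1757 (k8 b494 b330 b376 b414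 b495 b308 i3040 i1764 (k4 i1763 b388 i1531 b75 (k2 i1615 b21 (k1 b335 k0)))))))))) (by decide +kernel)
def b497 : PP 8 4 T 0x1000000000000080000000000100014010000000048000000000011500008000008 := rS 0x66b9 (k2 i1406 i193 (k1 b163 k0)) (by decide +kernel)
def b498 : PP 8 4 T 0x1000000000000001004000000000000005000001280000000100000015508001000 := rS 0x56113cc65189c (k4 i1623 i1624 b281 i1857 (k2 i3039 b442 (k1 b488 k0))) (by decide +kernel)
def b499 : PP 8 4 T 0x201000000000000000800000000100000004000001000400200100000000008000010 := rS 0x222b2d1a4aa664aa4c5ed218a245a6e311744e022602442572c9f46a616183e0a8b359d51e8566894460d201245243 (k8 b238 b486 b97 b272 i466 b296 b320 b370 (k8 b64 b411 b426 b463 b485 b145 i338 b473 (k8 b470 b125 b65 b361 b11 i744 i1387 b496 (k8 i788 i2545 i531 i527 i528 i1000 i190 i1003 (k8 b264 b418 i1321 i1057 b497 i1620 b498 i2039 (k2 i2552 i1757 (k1 b488 k0))))))) (by decide +kernel)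
def b500 : PP 8 4 T 0x1000000000000000000000000000000000204000008000200105100000008010110 := rS 0x25c5e991ba24dc73011305b0d0e87ca6404da9c5243 (k8 b238 b486 i1859 b373 b272 i827 i182 i1230 (k8 b32 i1238 b459 i788 i836 i528 i190 i1005 (k4 i1864 b418 i1324 b375 k0))) (by decide +kernel)
def b501 : PP 8 4 T 0x201000000000000000800000000100000004000001000000200100000000008000010 := rS 0x1bc65a04a2698c7e3d1c855627b4004854112d978122366a15866b07894800d829245243 (k8 b238 b486 b97 b145 i466 b272 b320 i338 (k8 b463 b473 b64 b370 b296 i1387 b499 i36 (k8 i469 i904 i905 i648 b153 i1316 i378 b487 (k8 i1801 i216 b500 i527 b348 i645 b292 i991 (k1 b482 k0))))) (by decide +kernel)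
def b502 : PP 8 4 T 0x1000000000000000000000000000000000000000000800008020000000008000000 := rS 0x6f190ab40545b (k4 i36 i904 i645 i378 (k2 b292 i991 (k1 b482 k0))) (by decide +kernel)
def b503 : PP 8 4 T 0x11000000000000001014004800400000005500000000000000104000015558000000 := rS 0xa0693c47ac60a8ae2545 (k8 b295 b368 b376 b230 i2032 i1254 b4 b408 (k2 i2031 b94 k0)) (by decide +kernel)
def b504 : PP 8 4 T 0x201000000000000000800000000100000004000000000000200100000000008000010 := rS 0xc64c1c8f4967b15054bc5b4029c7eb713a0d62bc0897564c5349b05249868743e091088d9a85619ac1e252010c1b05 (k8 b145 i466 b238 b272 b320 i338 b463 b473 (k8 b64 b370 b296 i744 i1387 i182 i1230 b32 (k8 b97 b486 b501 i40 i1521 i673 i2332 i2289 (k8 i674 i1394 i1438 i746 i1988 i1411 i1984 b503 (k8 i1809 i1335 i378 i904 b153 b502 i1254 b271 (k2 b348 b500 (k1 i527 k0))))))) (by decide +kernel)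
def b505 : PP 8 4 T 0x411000000000000001800000000000000000400002000400000000000000008000000 := rS 0xb740d1578b2 (k4 i673 i674 b295 i1335 (k2 i1988 b368 k0)) (by decide +kernel)
def b506 : PP 8 4 T 0x1100000000000001100000000005000405005100440000002000000000008000000 := rS 0x32c5d9c77 (k4 i752 b388 b36 i1029 (k1 b339 k0)) (by decide +kernel)
def b507 : PP 8 4 T 0x11000000000000000800000000000000400000014080000000000000000008000000 := rS 0x8a9ccc4b8 (k4 i546 i545 i1141 b55 (k1 b413 k0)) (by decide +kernel)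
def b508 : PP 8 4 T 0x1000000000000001000000000008000044000000000000000020000001008001020 := rS 0x230cb190089da248 (k8 i261 b278 b86 i2 b3 b445 b120 i1035 k0) (by decide +kernel)
def b509 : PP 8 4 T 0x1000000000000040000000100000000000400000000200200100000000008010100 := rS 0x16415 (k2 i509 b450 (k1 i514 k0)) (by decide +kernel)
def b510 : PP 8 4 T 0x1000000000000010000000000002000040000000040000000000000000008000000 := rS 0x11b19 (k2 b281 i1820 (k1 b120 k0)) (by decide +kernel)
def b511 : PP 8 4 T 0x201000000000000000800000000100000004000000000000200100000000008000000 := rS 0x1e02a0a9b4265c3c2753e673d9bda227388459248258a4090d10985860f82a2cd67547a159a25118348043 (k8 b238 b272 i466 b296 b320 b370 b64 b411 (k8 b426 b463 b485 b145 i338 b473 b470 i744 (k8 b32 b504 i2138 i485 i261 i611 i523 i1359 (k8 b86 b278 i1008 i754 b507 b508 b510 b506 (k4 i1013 b253 i516 i509 (k2 b488 b439 (k1 b113 k0))))))) (by decide +kernel)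
def b512 : PP 8 4 T 0x1000000000000001800000000000000008000000400400200000000000008000000 := rS 0x1045d364360b13 (k4 b0 b145 b32 b476 (k2 i2332 b505 (k1 i1438 k0))) (by decide +kernel)
def b513 : PP 8 4 T 0x1000000000000000000000000000000000000000000800200100000000008000100 := rS 0x63260fc7a3958814967b4004854112d9248043 (k8 b238 b272 b363 i36 i469 i904 i905 i648 (k8 b153 b502 i261 i1316 b271 i1801 i216 b348 (k2 b500 i527 k0))) (by decide +kernel)
def b514 : PP 8 4 T 0x1000000000000000000000540400000000000000000200200100000000008110100 := rS 0x7a076902d0613 (k4 b253 i1437 i493 b509 (k2 b31 b38 (k1 b464 k0))) (by decide +kernel)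
def b515 : PP 8 4 T 0x1000000000000001800000000100000008000000000000201100000000008000000 := rS 0x13114623aa7c54f1080941ed153ad4a85c13a0caf112dacc2ab157a14d4235b9651f138682c3aad82afc3e210697c1261148148043 (k8 b238 b272 i261 b486 i1312 i1387 b513 i466 (k8 i744 i182 b251 b145 i122 i1230 i493 b32 (k8 b0 b377 i929 i857 i1704 b512 i1869 i500 (k8 i1967 b246 i634 i1962 b463 i508 i1437 i745 (k8 b330 b345 i1398 b256 b451 b247 i764 b514 (k8 b78 b325 b197 i1707 b458 b460 b459 b461 k0)))))) (by decide +kernel)
def b516 : PP 8 4 T 0x1000001000000000014000000000000002000000800000000020000000408000000 := rS 0xe41231cb14f (k4 b88 i1869 i1601 i866 (k2 b381 b48 k0)) (by decide +kernel)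
def b517 : PP 8 4 T 0x1000000000000001800000000100000000000000800000201100000000008020000 := rS 0x64189d1c86312a3c004d2a00da65d8921586d17882c3abf0f8841a5f04814c31143d3c4e5b11b141eb52b900870d (k8 b32 b238 b272 i508 i1398 b247 i1790 i185 (k8 i1962 i745 b88 b515 b511 i1312 i261 i1387 (k8 b513 i466 i744 i182 b251 i1230 i493 b78 (k8 b309 i1953 b516 b402 b22 b252 b264 b239 (k8 i788 b317 b290 i764 b459 b432 b458 b273 (k2 i1539 i962 k0)))))) (by decide +kernel)
def b518 : PP 8 4 T 0x801000000000000001840000000100000004000000800000200100000010008000000 := rS 0x541234c56852e8841a5f04c444e5b11b141eb52b900870d (k8 b32 b238 b272 i508 i1398 b247 i1790 i185 (k8 i1962 i745 b511 i1387 b513 i466 i744 b22 (k4 b25 b376 b252 b179 (k2 b239 i764 k0)))) (by decide +kernel)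
def b519 : PP 8 4 T 0x1000000000000001800000000100000000000000800000201100000000008000000 := rS 0x179cc5aa11219da4582e21226c708a0cae5b59855626da7ab57e0d2f82452052010e2287 (k8 b515 b511 b238 b272 i261 b486 i1387 b513 (k8 i466 b251 i122 b88 i147 i1967 b246 i634 (k8 i1962 i508 i1437 b517 b189 b518 b402 b330 (k8 i1869 b509 i2367 i866 b94 b128 b390 b84 (k1 b249 k0))))) (by decide +kernel)
def b520 : PP 8 4 T 0x501000000000000000800000000000000002040000400404200000000000008000000 := rS 0x160b87c2dad61b43 (k8 b79 b32 i1398 i1812 b315 b330 i1328 i609 k0) (by decide +kernel)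
def b521 : PP 8 4 T 0x501000000000000000800000000100000002000000400000200100000002008000000 := rS 0x8e0f2b1fc46e582834be09 (k8 i1387 b513 i466 b145 b298 i47 i843 b520 (k2 i501 i1577 (k1 b341 k0))) (by decide +kernel)
def b522 : PP 8 4 T 0x101000000000000000801000000100000000000000000008201000000001158000010 := rS 0x18a5512e48a08cde335c8b54716690bce26750a4ce66364995684d86c151e35 (k8 b125 b349 b145 b32 i2352 i506 i1580 i504 (k8 b459 b285 i1369 i880 i545 i1358 b84 b304 (k8 b339 b423 b128 b387 b80 i1399 b106 b413 (k4 b432 b2 b435 b273 (k1 i2033 k0))))) (by decide +kernel)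
def b523 : PP 8 4 T 0x401000000000000001800000000100000002000000000000201100000000008010000 := rS 0x3a9d663d6904d8a83402e8b81558b90fc5b1195d820f1282c3a1f10834be0914814804388a1d5e6b (k8 b519 i625 b515 b511 b238 b272 i261 b486 (k8 i1387 b513 i466 i744 i182 i1230 i493 b521 (k8 i338 i1246 b522 i185 i1812 b520 b432 i1316 (k8 i378 b330 i1669 i1670 i925 b75 b253 b509 (k4 i1787 i1335 i1859 b31 (k1 b464 k0)))))) (by decide +kernel)
def b524 : PP 8 4 T 0x401000000000000001800000000100000000000000000000201100000001008010000 := rS 0x5004137880454232bb041e1d0f8841a5f048a40a272010cdac3a72162287 (k8 b515 b511 b523 b402 b135 b384 b238 b272 (k8 i746 i261 b486 i1387 b513 i466 i744 i182 (k8 i1230 i338 i1246 b522 i185 b488 b489 b35 (k4 i213 b317 b439 b314 k0)))) (by decide +kernel)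
def b525 : PP 8 4 T 0x101000000000000000800000000100000000000000000004201020000002008000000 := rS 0x47998982f3992c5aa11a961a446609f1460f5ac36870504835ca7f (k8 i843 b298 i466 i1387 b145 b79 b32 i1398 (k8 b247 i325 b315 i1246 b341 b428 i1328 b358 (k8 b94 b128 b248 b390 b84 b348 b249 i2597 (k1 i544 k0)))) (by decide +kernel)
def b526 : PP 8 4 T 0x101000000000000000800000000100000000000000000000201100000002008000000 := rS 0x470795846e52010e0a0d (k8 i466 b145 b238 b272 b298 i47 b525 i501 (k2 i1577 b341 k0)) (by decide +kernel)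
def b527 : PP 8 4 T 0x801000000000000001004000000000000004000001000000000120000011408011000 := rS 0x138850a2b (k4 b376 b25 i744 i746 (k1 b488 k0)) (by decide +kernel)
def b528 : PP 8 4 T 0x901100000000000001000000000000000004000001400000000120000011408001000 := rS 0x8c9e86c2663d38d2d1080ad0ac307b15c821 (k8 i744 b432 b75 i338 b473 b25 b376 b527 (k8 b309 i1763 b308 b53 b179 b289 b115 b92 (k1 b203 k0))) (by decide +kernel)
def b529 : PP 8 4 T 0x1000000000000010000000000000000000000000000000000020000008008000000 := rS 0x464f436 (k4 b289 b115 b92 b203 k0) (by decide +kernel)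
def b530 : PP 8 4 T 0x1000000000000001800000000100000000000000000000201100000000008000000 := rS 0x2f329c526003180c9a8d2e16c4e8b429a5a21089b14626736b90a8235a95cfac3609641e25579ae22878682c3b4382afc3e210697c1261148148043 (k8 b238 b272 i261 b486 i1312 i1387 b513 i466 (k8 i744 i182 b251 b145 b79 i1230 i493 b32 (k8 b515 b511 b519 i625 b526 i338 i866 i1246 (k8 b473 i1328 b522 i1398 i185 b345 b432 i1697 (k8 i1620 b273 b75 b528 b524 b309 i1763 i1543 (k8 b484 b529 i1757 b330 i1846 i531 b44 b459 (k4 b317 i1366 i1358 i962 (k2 b399 b494 k0)))))))) (by decide +kernel)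
def b531 : PP 8 4 T 0x1000000000000000000000000000000000000000000080000020000000008020000 := rS 0x4cd1 (k2 b309 i1757 (k1 b529 k0)) (by decide +kernel)
def b532 : PP 8 4 T 0x1000000000000000800000000100000000000000000000201100000000008000000 := rS 0x225a62d8a819303d6889c22a94684e8a2f538fcf28b2518d66c35b1c578af2d134d4e43f174a8235aac4ae15349f5822b2c83c4b11660a4c2058682c3b4382afc3e09108348043 (k8 b238 b272 i466 i744 i1387 i182 b251 b145 (k8 b79 i1230 i493 b32 i261 i1312 b486 b530 (k8 b370 b526 i338 i866 i888 i1246 i1328 i1831 (k8 b230 b522 i1394 i1398 i185 b345 i1971 b315 (k8 b432 i770 i2551 i769 i499 i849 i2558 i848 (k8 b52 i634 b459 b348 b480 i3130 i1411 i1984 (k8 b399 b70 i1960 i1051 b213 b531 i746 b451 (k8 i1783 b455 b464 b133 i981 b31 i1340 b352 k0)))))))) (by decide +kernel)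
def b533 : PP 8 4 T 0x1000000000000002800000000100000000000000000002200100000000008010000 := rS 0x14e130391d1a611e8cd9eb95b2f22caf3f03d76b30aac4ea5a5a9f4d48f8682c8043a1ab57e092589c087127c44ee48 (k8 b532 i2510 b370 i31 i749 b97 b86 i29 (k8 i1387 b251 i122 b79 b238 b272 i493 b32 (k8 b290 i770 i1541 i767 i769 i1540 i1967 b246 (k8 i634 i1949 b247 b315 i1923 b294 i849 i848 (k8 b387 b36 b80 i1783 i1391 i1964 i264 b261 (k2 i267 b224 (k1 b464 k0))))))) (by decide +kernel)
def b534 : PP 8 4 T 0x1000000000000000000000000000000000000000000020000020000000008000020 := rS 0x4846 (k2 i867 i866 (k1 i2142 k0)) (by decide +kernel)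
def b535 : PP 8 4 T 0x1000000000000002800000000100000000000000000000200100000000008010000 := rS 0xda6b5d1756c3d538fda415508ac4a07721848eaf5a204ac6907955074f88c343aab82afc1a1f0489ce24f118a4fa59021208043 (k8 b238 b272 b532 b97 b534 i1328 i2138 i2137 (k8 i31 i749 b86 i1387 i182 i466 b251 b145 (k8 i123 i1230 b32 b370 b329 i895 b533 i339 (k8 i1831 b345 i1975 i506 i2324 i1577 i2892 b341 (k8 b261 b48 i888 i880 b230 b304 b235 b18 (k4 b38 i2031 i1930 i887 (k2 i507 i1681 (k1 b308 k0)))))))) (by decide +kernel)
def b536 : PP 8 4 T 0x1000000000000000014000000000000000000001500000000400000000008155000 := rS 0xc6 (k2 i2029 b189 k0) (by decide +kernel)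
def b537 : PP 8 4 T 0x1000000000000000014000000000000004000000500200000400000000008115000 := rS 0xda13 (k2 b253 i516 (k1 b536 k0)) (by decide +kernel)
def b538 : PP 8 4 T 0x1100000000000000100000000000000000000000040000000400008000008000000 := rS 0xcb17 (k2 b80 i1545 (k1 b339 k0)) (by decide +kernel)
def b539 : PP 8 4 T 0x1000000000000000800000000100000000000000000008202000010400458004000 := rS 0x658bae0662d6919d2a8950a3e282537b90c27323ad21a71278c60a0d00a4d9204 (k8 b97 i611 i1367 b95 i466 b145 b183 i31 (k8 i749 b32 i506 i1577 b285 i2892 b341 i1008 (k8 b48 b413 b349 i880 b2 b435 b507 b304 (k4 b128 b538 b163 b387 (k2 i1026 b339 k0))))) (by decide +kernel)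
def b540 : PP 8 4 T 0x201000000000000001800000000100000000000000000000200100000000008000000 := rS 0x431acbe09 (k4 i1387 b513 b463 b511 (k1 b512 k0)) (by decide +kernel)
def b541 : PP 8 4 T 0x101000000000000000800000000000000400000100002000010000000000008000000 := rS 0x3bc5cc8b8 (k4 i1391 i1392 b387 i1548 (k1 b294 k0)) (by decide +kernel)
def b542 : PP 8 4 T 0x1000000000000001900000000001000004000100440102002060000001008001000 := rS 0x9f3da2cf2858288c088f (k8 b290 b97 i2137 b145 i1544 i1013 b485 i754 (k2 b508 b506 k0)) (by decide +kernel)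
def b543 : PP 8 4 T 0x1000000000000000800000000100000000000000400004200100000000008010000 := rS 0x53acd6eb10a972268336a1d5e0d2f82446293f50cfa256483d6a9d8b1dcce6f30934e24f86a3ca9052c81080433a92222cd (k8 b535 b540 b532 i1011 b238 b272 b97 b534 (k8 b145 b345 b290 b32 i31 i749 i72 b541 (k8 i1008 b507 i752 b294 b313 i1398 b247 i611 (k8 i764 i1328 b79 b315 i2138 i2137 i1387 b513 (k8 i466 i625 b512 i1697 i925 b528 b542 i509 (k4 i1848 i1930 i514 b256 (k1 b514 k0))))))) (by decide +kernel)
def b544 : PP 8 4 T 0x1000000000000000800000000100000000000000000004200100000000008010000 := rS 0xa7579716f13430ade0834284cb6b30aac4da6a238ce2c77339bcc2c3720951e0f3a9516b0d56c157e210697c124d139c49e231496408482010e22cd (k8 b535 b540 b238 b272 b532 b97 b534 i2138 (k8 i2137 i31 i749 b86 i72 i1387 b513 i466 (k8 i744 b251 b145 i122 b32 i1398 b345 i1011 (k8 b247 b290 i764 b432 b52 b541 i1008 b507 (k8 i752 b294 b80 i264 b543 i147 i1967 b246 (k8 i634 i1962 i1961 i1869 i1437 b439 b35 b488 (k4 b0 i857 b330 i500 (k2 b256 b514 k0)))))))) (by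 decide +kernel)
def b545 : PP 8 4 T 0x1000000000000000800000000100000000000000000008200100000000008000000 := rS 0x3c3a1f0488c6a2f021208043 (k8 b238 b272 b532 b97 i2187 i2210 i2137 i1387 (k4 i182 i1230 i501 b539 k0)) (by decide +kernel)
def b546 : PP 8 4 T 0x1000000000000000800000000100000000000000000000200100000000008000000 := rS 0x33b14de6a308959a8f2a4450a87891ecf3192d8d9146d07840eab52b9645223388104e4d240841a4f869008705 (k8 b145 b238 b272 b32 i31 i466 i744 b532 (k8 i72 b86 b97 i749 i2137 i2138 b534 b545 (k8 i1398 i1011 b544 b247 i2344 i523 i524 i1757 (k8 b279 i1854 i1775 b343 b0 b25 b511 b345 (k8 b290 i769 i764 b541 b478 i1008 i1790 b507 (k1 b472 k0)))))) (by decide +kernel)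
def b547 : PP 8 4 T 0x1000000000000004000000000001000400000500000010010000000004108028020 := rS 0xf67942a1d9a9f1b228d4c4 (k8 i602 i601 i523 i524 b396 i1791 i1523 i1869 (k2 i1854 i1775 (k1 b388 k0))) (by decide +kernel)
def b548 : PP 8 4 T 0x1000000000000000000400140200000000000000800000000420000000008010540 := rS 0x29c7abb09b156615 (k8 b246 i634 i1789 i1961 i1946 i1386 i368 b464 k0) (by decide +kernel)
def b549 : PP 8 4 T 0x1000000000000015000000000001000405001500000000010000000000008088020 := rS 0x3da7d1868 (k4 i345 i267 i1566 i1816 (k1 b388 k0)) (by decide +kernel)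
def b550 : PP 8 4 T 0x1100000000000010000000000008000000000001400000000000000000008000000 := rS 0xd34f (k2 b316 i1566 (k1 b308 k0)) (by decide +kernel)
def b551 : PP 8 4 T 0x11000000000000010000000800000000080008014000000000000000000008000000 := rS 0x8a188e697 (k4 i1374 i841 i553 b413 (k1 b55 k0)) (by decide +kernel)
def b552 : PP 8 4 T 0x1000000000000005800000140201000001001504400002202000000000008010400 := rS 0x3c0aa9d7ac3a72ccd28a3d27c266d43c349a5f689c49e07048388f0572834088f (k8 b290 b97 i2340 b430 b145 i2143 b341 i1388 (k8 i1380 i31 i749 b278 b363 i72 b32 b512 (k8 i1697 b549 b550 b388 i754 i1887 b551 b308 (k4 b135 b385 i367 b417 (k2 b464 i1385 k0))))) (by decide +kernel)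
def b553 : PP 8 4 T 0x1000000000000004800000140201000001001504400002202000000000008010400 := rS 0xcc (k2 b552 i770 k0) (by decide +kernel)
def b554 : PP 8 4 T 0x1000000000000000800000000000000000000000000004202100000000008000000 := rS 0x1acf2852e8455eb17e34d06a067a74de7e8b186227747890ce543e83812072c87c8e0d1a9d44204139361a0b2010e87055fb9548b5 (k8 i1398 b546 b430 b251 b145 b79 b238 b272 (k8 i493 b32 i72 b86 b97 b127 i1011 i2210 (k8 i2340 i2143 i2136 b534 i1380 i1388 b341 i1325 (k8 i339 i542 i338 b290 i752 b320 b541 b294 (k8 b315 i1008 b313 b36 i842 i2620 b94 b431 (k8 b382 b76 b547 b509 i1544 i1013 b548 b553 k0)))))) (by decide +kernel)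
def b555 : PP 8 4 T 0x1000000000000000000000000000000400000500000000000020000000008008002 := rS 0x8bc459024 (k4 i338 i597 b320 b336 (k1 b294 k0)) (by decide +kernel)
def b556 : PP 8 4 T 0x1000000000000000800000000000000000000504000004200100000000008000000 := rS 0x50095a71003154180f47800b2472500cfa092687e1a1d82b954805249008621 (k8 b87 b238 b272 b554 i261 b546 b430 b145 (k8 i1230 b32 b144 i528 i1309 i1325 b44 b348 (k8 i208 i608 b317 i1133 b555 b341 i1489 i465 (k4 b345 b31 b320 b304 (k1 i363 k0))))) (by decide +kernel)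
def b557 : PP 8 4 T 0x11000000000000000800000000200000000000000000014000000000000158002000 := rS 0x2804ad388018ab05 (k8 b145 i1489 i465 b345 b31 b320 b304 i363 k0) (by decide +kernel)
def b558 : PP 8 4 T 0x1000000000000000000000000000000400000500000000000020000000008008010 := rS 0x203 (k2 b403 b555 (k1 b317 k0)) (by decide +kernel)
def b559 : PP 8 4 T 0x11000000000000000800000000200000000000000000004000420000000118004000 := rS 0x3e0c049660ae5 (k4 b430 b145 i867 i1388 (k2 b341 i182 (k1 b557 k0))) (by decide +kernel)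
def b560 : PP 8 4 T 0x1000000000000000000000001000000000000000000000200000000000008000210 := rS 0x6201a203cfd (k4 b291 i1309 b350 b51 (k2 b169 i1349 k0)) (by decide +kernel)
def b561 : PP 8 4 T 0x1000000000000000800000000000000000000500000004200100000000008000000 := rS 0x8f071f48e1f04aa4e66e10c343aa4029248043 (k8 b238 b272 b554 i261 b546 i1230 b32 b87 (k8 b556 i58 i496 b560 i182 i208 i1325 b559 (k2 i1135 b558 k0))) (by decide +kernel)
def b562 : PP 8 4 T 0x1000000000000000000000000000000000000800000000000020000000008008010 := rS 0x3400090060d (k4 i5 b403 i338 b317 (k2 i804 i1115 k0)) (by decide +kernel)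
def b563 : PP 8 4 T 0x1000000000000000800000000000000000000800000004200100001000008000000 := rS 0x542e01035230861a1d55a922e0f029248043 (k8 b238 b272 b554 i261 b562 b21 b546 i123 (k8 i1230 b32 b82 b559 b358 i208 b171 b560 (k1 i1140 k0))) (by decide +kernel)
def b564 : PP 8 4 T 0x1000000000000000800000000000000000000800000004200100000000008000000 := rS 0x4d3208192671803e2f05029248043 (k8 b238 b272 b554 i261 b145 b21 b562 b563 (k4 i1506 i983 i1507 b339 (k2 i2544 i1548 k0))) (by decide +kernel)
def b565 : PP 8 4 T 0x1000000000000000000000000200000000000000000000200820000000008000010 := rS 0xdc53540794208 (k4 i208 i2080 i1309 b560 (k2 i826 b144 (k1 i1056 k0))) (by decide +kernel)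
def b566 : PP 8 4 T 0x1000000000000000800000000000000000000000000004200100000000008000000 := rS 0x80d920e2c91ce8213b814930d0e90086a4 (k8 b546 b238 b272 i1230 b32 b554 i261 b564 (k8 b87 b561 b565 i867 b559 i1064 b403 i597 (k1 b317 k0))) (by decide +kernel)
def b567 : PP 8 4 T 0x1000000000000000800000000000000000000000000000200100000000008000000 := rS 0x6690303ea123ad01e7f2b08dcaa482aae1a1d (k8 i1230 b32 i123 b145 b546 b430 b134 b566 (k8 i1665 i501 i506 i1577 i364 i1396 b341 b304 (k2 i465 b31 k0))) (by decide +kernel)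
def b568 : PP 8 4 T 0x1000000000000000000000000200000000000000000008200100000002048000000 := rS 0x1a6fd502a8fc7d04c3416b588d0c0ecb (k8 b567 i1379 b301 b11 i1397 i493 b32 i1309 (k4 i1325 b315 i1665 i842 (k2 b359 b94 (k1 b431 k0)))) (by decide +kernel)
def b569 : PP 8 4 T 0x1000000000000000000000000000000000000000000000200020000000088000000 := rS 0x1525302820dca1 (k4 i90 b144 i182 i2136 (k2 i826 i1056 (k1 b560 k0))) (by decide +kernel)
def b570 : PP 8 4 T 0x1000000000000000000000000200000000000000000008200100000000008000000 := rS 0x1288dca1f2010e2221 (k8 i1498 b11 b238 b272 b569 b430 b134 b568 (k1 b432 k0)) (by decide +kernel)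
def b571 : PP 8 4 T 0x1000000000000000100000000000000000000000000000000020000000808000000 := rS 0x20a6732c5c9a46029d06403 (k8 b276 b106 b109 i2137 i184 i788 b80 i1546 (k2 i1588 b383 (k1 b339 k0))) (by decide +kernel)
def b572 : PP 8 4 T 0x1000000000000000000000000010000000000200005008200100000001008004000 := rS 0x129143f3f554a303aa5a4738682c3acb0487d5a4f5291d820d7208d928f2010e2221 (k8 i1498 b11 b238 b272 b349 i504 b571 b432 (k8 b28 b346 i1577 b570 i31 i1582 b569 i1309 (k8 b567 i1230 i493 b32 b390 b304 i496 b31 (k4 b423 i2027 b359 i498 (k2 b342 i1667 (k1 b435 k0)))))) (by decide +kernel)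
def b573 : PP 8 4 T 0x1000000000000040000000008000000000000000000000000000000000008001500 := rS 0xefd (k2 b359 i457 (k1 b431 k0)) (by decide +kernel)
def b574 : PP 8 4 T 0x111000000000000000500011015000004000040000055000008000000000008000000 := rS 0x3ed0d2873 (k4 i1093 i2040 b424 i1598 (k1 b315 k0)) (by decide +kernel)
def b575 : PP 8 4 T 0x1000000000000000000000000000000000000200000008210100000001008004010 := rS 0x1dfaa83faada6a0498bce2672518e1a0b0e8243ead27835c82364a3c804388884c26524ae56acb (k8 b567 i1397 i1066 b97 i1580 i1312 i1498 b11 (k8 b238 b272 b349 i504 b571 b432 b28 i31 (k8 i1582 b569 i1309 i1230 i493 b32 b459 b348 (k8 i1588 i1358 b399 i1590 b572 b94 b573 i1665 (k4 b574 b338 i456 b431 k0))))) (by decide +kernel)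
def b576 : PP 8 4 T 0x1000000000000000000000000000000000000200000008200100000001008004010 := rS 0x498be2a95448b5566e31198044c19ae4eeb5658243ea51a8c5c82364a3c804388884c249 (k8 b97 i1312 i1498 b11 b238 b272 b349 i504 (k8 b571 b432 b273 b125 b570 b569 i1309 b567 (k8 i1397 i79 i1066 i1585 b575 i788 i529 i527 (k8 i528 i2349 i1000 i190 i1673 b55 b418 i1322 (k1 b161 k0))))) (by decide +kernel)
def b577 : PP 8 4 T 0x1000000000000000000010008100004000000000004000200100015000008001010 := rS 0x1291444aa4e62d50b49fa0b0487c8043309245e71 (k8 i1358 b399 b97 i1312 b238 b272 b569 i1309 (k8 i493 b359 b573 b94 b128 b390 i496 b169 (k2 b342 b163 (k1 b435 k0)))) (by decide +kernel)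
def b578 : PP 8 4 T 0x1000000000000000000000000000000000000000000008200100000001008004010 := rS 0x1a4a0039c9faa83faac66b949c58ee2f339c4004a3180c9a7532984930d058756acb0487d5a4f528d41a317208d928f2010e2221 (k8 i1498 b11 b238 b272 b349 i504 b571 b432 (k8 b273 b28 b125 b570 i31 i1582 b569 i1309 (k8 b567 i1397 i1230 i493 b32 b97 i1312 i1580 (k8 b576 i530 b44 b459 b348 b317 i1358 i449 (k8 b399 i1627 b294 b7 b387 b80 b577 i1665 (k4 b574 b338 i496 i456 (k2 b390 b431 (k1 b94 k0)))))))) (by decide +kernel)
def b579 : PP 8 4 T 0x111000000000000000000001000080000000040000000000000000000000408000000 := rS 0xfb43 (k2 b98 i1593 (k1 b315 k0)) (by decide +kernel)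
def b580 : PP 8 4 T 0x10000000000000000000000000000000000000100000002000200000000080000a0 := rS 0xc30d (k2 b32 b266 (k1 b261 k0)) (by decide +kernel)
def b581 : PP 8 4 T 0x11000000000000000401001014100000000000000000008000000000000408005540 := rS 0x511fe2247 (k4 i1577 b11 i1665 i2027 (k1 b579 k0)) (by decide +kernel)
def b582 : PP 8 4 T 0x111000000000000080000000008100004400000410001000002000011400008000000 := rS 0x19ae52a898b450ea6f328b4e6a1 (k8 b94 b390 b128 i1660 i1008 i1010 b413 b294 (k4 b2 b435 b387 b80 (k1 b163 k0))) (by decide +kernel)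
def b583 : PP 8 4 T 0x1000000000000000000000000000000000000000000008200100000001008004000 := rS 0xcd73163aa54dc89300b54693691f954073b9c45ea92412c083106b05c823648d51f0d05ad596090f900871110ab49ea5 (k8 b570 i31 i1582 i1498 b11 b238 b272 b569 (k8 i1309 b567 i1397 i493 b32 b349 b125 i504 (k8 b571 b432 b346 b28 b273 b578 i485 i261 (k8 i572 i2187 i1359 i1628 b580 b581 i498 b573 (k8 i1636 b423 b128 b582 i1277 i1311 i2685 i1667 (k4 b294 b387 b80 i2033 k0)))))) (by decide +kernel)
def b584 : PP 8 4 T 0x1202000000000000402011000000014000040410000000012000000000008000000 := rS 0x6239a3d123364aa4ea65 (k8 b9 i1010 b338 b288 i1613 i1344 b333 b401 (k2 b187 b176 k0)) (by decide +kernel)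
def b585 : PP 8 4 T 0x101202000000000000002000000000000000040000000000200100000002008000020 := rS 0x88189c91d158ba492a6f3a9c5727717920963586ad596652680cc2d30487c8043 (k8 b238 b272 b569 i1309 b56 b137 b264 i788 (k8 b9 b567 i1397 b32 i2210 i485 i261 i2187 (k8 i804 i1250 i1359 i1010 i1008 i1518 b584 b7 (k4 b71 b294 b413 b327 (k2 b401 i1345 k0))))) (by decide +kernel)
def b586 : PP 8 4 T 0x1000000000000000000000000000000000000000000008200100000000008005040 := rS 0x8b8c5248919a557273478bc6a672518c004902934066154bf140d360434161d5a8243e4021c455a4f11aacfea56499608472cb2dca24 (k8 b583 b298 b567 i607 i205 b341 b9 b288 (k8 b570 i843 i498 i47 i31 i1582 b11 b238 (k8 b272 b569 i1309 i1397 i1230 i493 b32 b581 (k8 b56 b304 b431 b338 b137 b264 i788 b585 (k8 b97 b317 b459 b348 i449 i1114 i1078 i1132 (k8 i1093 i1250 i1518 i287 i279 b574 b212 b7 (k1 b335 k0))))))) (by decide +kernel)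
def b587 : PP 8 4 T 0x111000000000000000502001015000000000040000011000010000000002058001094 := rS 0x8b8c524334aae51e89178d4ce4a3180092e5 (k8 b298 b97 b317 b459 b348 i449 i1114 i1077 (k8 i1340 i1132 i1250 i1518 i287 b574 b212 b7 (k1 b335 k0))) (by decide +kernel)
def b588 : PP 8 4 T 0x10000000000000000000000000000000000000000000002001000000000080000a0 := rS 0x3812c8043 (k4 b238 b272 i485 b580 (k1 i1359 k0)) (by decide +kernel)
def b589 : PP 8 4 T 0x1000000000000000000000000000000000000000000008200100000000008005000 := rS 0x11718a4866955ca3e84891a99c94c13180092052680cc2a969818cac9824343a090f90087115693dcaa35a91cb2cb559fc48a5 (k8 b570 b583 i843 i498 b567 i607 i205 i1397 (k8 i325 b298 i31 i1582 b11 b238 b272 b569 (k8 i1309 i1230 b32 b341 b288 b9 b586 b31 (k8 b265 b266 b264 i788 b588 b97 b317 b459 (k8 b587 b348 i449 i1114 i1340 b428 i1132 b422 (k4 b424 i287 b574 b212 (k2 b7 b335 k0))))))) (by decide +kernel)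
def b590 : PP 8 4 T 0x800000000000111000000000000000500001015000000010040000015000008000000002008000002 := rS 0x45c6292338ccee8f1ab957295 (k8 b424 b422 b298 i1114 i1132 i804 i287 i490 (k4 b574 b212 b7 b335 k0)) (by decide +kernel)
def b591 : PP 8 4 T 0x1000000000000000200000000000000000000000000008000000000000008002000 := rS 0xcd1c67 (k4 i121 i504 i1609 b333 k0) (by decide +kernel)
def b592 : PP 8 4 T 0x101000000000000000100000010000000000040000000000200100000002008002080 := rS 0x45c62924aae4ce7c199de868f1aa24e663251949a002480c0a6154b4e1a1d5ab2c121f2010dcaab (k8 i498 b298 b238 b272 b569 i1309 b567 i1397 (k8 i1230 b32 b31 b265 b266 b588 b264 b97 (k8 b317 i788 i1492 b348 b459 i1093 i1340 i1114 (k8 i1132 b590 i804 i287 b315 i490 i1330 i1598 (k4 b574 b212 b7 b335 k0))))) (by decide +kernel)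
def b593 : PP 8 4 T 0x111000000000000000500001015000000010040000015000008000000002008000002 := rS 0x11718a492ab93e50dca35338cd1e73 (k8 i1093 i1132 i287 i450 i1114 b298 b590 b315 (k4 i1330 i1598 b574 b212 (k2 b7 b335 k0))) (by decide +kernel)
def b594 : PP 8 4 T 0x111000000000000000500001015000000000040010015000008000000002048000002 := rS 0x37c551073 (k4 i1093 b593 b2 i1317 (k1 b413 k0)) (by decide +kernel)
def b595 : PP 8 4 T 0x1000000000000000000000002000000000000000000000200100000000008000040 := rS 0xa0691c9fa0b0487c8043 (k8 b238 b272 b569 i1309 i493 b338 i496 b431 (k2 b390 b94 k0)) (by decide +kernel)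
def b596 : PP 8 4 T 0x101000000000000000100000011000000000040000000001208100000002008000000 := rS 0x710018cca6102934064f868756acb0f90086ab (k8 i498 b238 b272 b569 b567 i1397 i1230 b32 (k8 i31 b286 i51 i485 i1048 i1050 b459 b317 (k2 i1358 b594 k0))) (by decide +kernel)
def b597 : PP 8 4 T 0x101000000000000000000000000000000000000400010000002000000000008002000 := rS 0x45d1e66199d40801 (k8 b95 b97 i1010 i1610 i521 b333 b85 b294 k0) (by decide +kernel)
def b598 : PP 8 4 T 0x1000000000000000000000000000000000000000010008200100000002008002000 := rS 0x18458935cc552a3119a24dc62330089849658243e4021aac5e711a9dc96a903b24fea55693cab11 (k8 b11 i33 i31 i1582 b570 i843 b591 b592 (k8 b595 b596 i1628 b131 i1359 b399 i498 b238 (k8 b272 b569 i1309 b567 b597 b348 i788 i529 (k8 i527 i528 i190 i2066 i1002 i1673 b55 i1405 (k4 i1322 b161 i1312 i1000 k0))))) (by decide +kernel)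
def b599 : PP 8 4 T 0x1000000000000000000000000000000000000000000008200100000002008002000 := rS 0x2920ce64 (k4 b598 i75 i1580 i521 (k1 b97 k0)) (by decide +kernel)
def b600 : PP 8 4 T 0x1000000000000000000000000000000000000000000008200100000000008004000 := rS 0x1824 (k2 b583 b589 (k1 b599 k0)) (by decide +kernel)
def b601 : PP 8 4 T 0x1001000000000000000000010000100010010000408000000000000005500008000000 := rS 0x12635 (k2 b131 i1322 (k1 b161 k0)) (by decide +kernel)
def b602 : PP 8 4 T 0x800000000014001000000000000004041400000545000000000000000000000001140000008000000 := rS 0x30c7ec5a73c17abb (k8 b114 b62 b357 b378 b297 b119 b135 i2036 k0) (by decide +kernel)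
def b603 : PP 8 4 T 0x1000000000000000000000000000000000000000000000000008000000008110100 := rS 0x26f1 (k2 b119 i216 (k1 b439 k0)) (by decide +kernel)
def b604 : PP 8 4 T 0x800000000004001000000000000000041010000545800000000000000000000001140000008000000 := rS 0x5f5399f19 (k4 b72 i1151 b378 b602 (k1 b83 k0)) (by decide +kernel)
def b605 : PP 8 4 T 0x1000000000000000000000040000200000000018000400020000000000008000000 := rS 0x2265b2e9e0f68b (k4 i1938 i1941 i1059 i531 (k2 i793 b414 (k1 b330 k0))) (by decide +kernel)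
def b606 : PP 8 4 T 0x800000000000001000000000000000041010000544800000000800508415021001140000008000000 := rS 0x424490ecd2e96cda9c67ac91517 (k8 b21 i1446 i1445 i1151 b604 i556 i1884 i2355 (k4 i810 b331 b330 i2039 (k1 b25 k0))) (by decide +kernel)
def b607 : PP 8 4 T 0x1000000000000000000000000000080000000008000400024000000000008000000 := rS 0xb45d46c4cf480 (k4 i1323 i1324 b60 i3066 (k2 i1892 b330 (k1 i794 k0))) (by decide +kernel)
def b608 : PP 8 4 T 0x800000000000001000000000000000041010000544140010000800508415021005140500008000000 := rS 0x9b (k2 b606 b375 k0) (by decide +kernel)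
def b609 : PP 8 4 T 0x1000000000000000000000000000000400000800040415001000200012008000008 := rS 0x4296cdacd2ea1cf28a4e048566b34c122234 (k8 i804 b320 b345 b140 b353 b271 i194 i360 (k8 i195 i1851 i927 b253 i1910 i1642 i1884 i1632 (k1 i2039 k0))) (by decide +kernel)
def b610 : PP 8 4 T 0x1001000000000000000000140000000000000000000000000008000000008100140 := rS 0x2c82145 (k4 b58 b603 b395 i473 k0) (by decide +kernel)
def b611 : PP 8 4 T 0x10000000000000000000000000000004000008005004150200000a0004108000018 := rS 0x439759a6d2da15888b3d8419cc7 (k8 b96 i1120 i1005 i1775 i1774 i1121 i1871 i1757 (k4 i476 i809 i531 i1523 (k1 i2039 k0))) (by decide +kernel)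
def b612 : PP 8 4 T 0x800000000000001000000000000000001010000540140000000800008415021061140502008000100 := rS 0x3350a5d3da75166d2da1e301061d147c9b359a609111385512028ab1d3e34 (k8 i804 b440 b96 b55 i788 i190 b314 i2545 (k8 b320 b345 b140 b353 b606 b608 b58 i375 (k8 b603 b300 i928 i1757 i476 b461 b281 b92 (k4 i531 i1631 i809 i2039 k0)))) (by decide +kernel)
def b613 : PP 8 4 T 0x1000000000000000000000000100000000000800000415020068140002008000100 := rS 0x19a852e9ed3a8b3696d0f180830de26b34c1222270a8098e34 (k8 i804 b96 i788 b314 i2545 b320 b345 b140 (k8 b353 b119 i375 b603 b357 i928 i1757 i476 (k4 b461 b281 b92 i531 (k2 i1631 i809 (k1 i2039 k0))))) (by decide +kernel)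
def b614 : PP 8 4 T 0x1000000000000001000000000000000004000001500555000000000000008000000 := rS 0x22484 (k2 i2039 b330 (k1 b25 k0)) (by decide +kernel)
def b615 : PP 8 4 T 0x1000000000000000000000000000000000000000040005204100000002008002000 := rS 0xbacd4396cdab24e229343f4950c6e394ba653e348b9d92aa53fa85823d53ae62a31692245aaf371884e0217930e24f5a94cbea355ab4121f20084ca6b34c122259658a4868f199849205 (k8 i521 b97 i1312 i1609 b333 b238 b486 b567 (k8 i607 b320 b345 b140 b353 b9 i12 b272 (k8 b569 i1309 i1494 i497 i1647 b513 i827 i1397 (k8 i31 i1359 b348 b399 i788 i2545 i527 i528 (k8 i2350 i1000 i190 b264 i1002 b55 i1405 b18 (k8 b38 b56 b94 i842 b160 i1058 b601 b21 (k8 i804 b440 b605 b607 b609 b611 b612 b268 (k8 b613 b375 i1446 i1450 i1445 i556 i1884 b331 (k2 i1910 i2355 (k1 b614 k0)))))))))) (by decide +kernel)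
def b616 : PP 8 4 T 0x101000000000000000500000015000014400080400055000000000000000008000000 := rS 0x4597075 (k4 i1667 i2040 b294 b387 k0) (by decide +kernel)
def b617 : PP 8 4 T 0x1000000000000000100000004000000010000000050001208100000002008002000 := rS 0x16c5528d349a80fca939b2d46ad04c451e3330924ee350000c5e71319343e40218143b0d (k8 b32 i1230 i521 b238 b272 b569 i51 b459 (k8 i1358 b399 b286 b317 i1114 i804 b97 i1312 (k8 i1609 b333 b320 i1309 i1494 i1647 b567 b401 (k8 i496 b596 i842 i1638 b94 b616 b435 i979 (k1 b352 k0))))) (by decide +kernel)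
def b618 : PP 8 4 T 0x1000000000000000000000000000000000000000040005200100000002008002000 := rS 0x1c9526f03c551071319349405868743e4021aad926582444b2cb (k8 b567 i607 b320 b345 b9 b288 i497 b238 (k8 b272 b569 i1230 b32 i521 b615 i51 b459 (k8 i1358 b617 b2 i1340 i1317 b595 b413 i1093 k0))) (by decide +kernel)
def b619 : PP 8 4 T 0x101000000000000000000000000000000000000000010001002000000000008002000 := rS 0x77 (k2 i751 b597 k0) (by decide +kernel)
def b620 : PP 8 4 T 0x1000000000000010000000000000000400000000000415001000220002008000008 := rS 0x5b36b34ba8745270242b359a60911 (k8 b320 b345 b140 b353 b271 i194 i360 i195 (k4 i927 b253 i1910 i1643 (k2 i1884 b614 k0))) (by decide +kernel)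
def b621 : PP 8 4 T 0x1000000000000000000000000002000400000001500555000000000000008000000 := rS 0x19a87 (k2 b331 i1910 (k1 b614 k0)) (by decide +kernel)
def b622 : PP 8 4 T 0x1000000000000000000000000000000000000000000000200100000002008006000 := rS 0x125154e974b66d59229343fa18e54a7f1ba7d42c11ea9c68764ca5d72d219a245aaf479b9a26213808624c30814922f389d496958b998d26b32c10ab111093cb2b56594cbee551aacaead0487c8043 (k8 b238 b272 b569 i1309 i1494 b600 i497 i1647 (k8 b28 b513 i827 b567 i1397 i607 i31 i12 (k8 b320 i764 b345 b9 b353 b140 b618 b85 (k8 i1673 i489 i1587 i1359 b399 b619 i261 i1312 (k8 b348 i1506 i788 i2545 i527 i653 i528 i2597 (k8 i2350 i1000 i190 i2066 b264 i1405 b607 b605 (k8 b294 b335 b18 b38 b56 b94 b440 b611 (k8 i842 b160 b620 b612 b613 b375 i1446 i1445 (k4 i556 i1884 i2355 b621 (k2 b55 b268 (k1 i1450 k0))))))))))) (by decide +kernel)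
def b623 : PP 8 4 T 0x1000000001000000000000000000000000000000080000000000014000008000010 := rS 0x6317 (k2 b85 i1506 (k1 b335 k0)) (by decide +kernel)
def b624 : PP 8 4 T 0x800000000000001000000000000080000001000040000000010000000000000000000001558000000 := rS 0x3fa9582a1 (k4 b94 b56 b301 b337 (k1 i2030 k0)) (by decide +kernel)
def b625 : PP 8 4 T 0x1000000000000000000000000400540010000002020000000001100500008100100 := rS 0x3e088dd189e (k4 i1699 i1700 b209 i1759 (k2 b375 b603 k0)) (by decide +kernel)
def b626 : PP 8 4 T 0x1000000000000010000000000008000040000000010000000000000000008000000 := rS 0x11b19 (k2 b3 i1035 (k1 b120 k0)) (by decide +kernel)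
def b627 : PP 8 4 T 0x1000000000000015000000000400140401000500548555000001000500008000108 := rS 0x236327a4f995363945a74d87943c482a89 (k8 i190 b314 b330 b0 b414 b614 i1643 i555 (k8 i195 i1446 b625 b626 b388 b92 i1815 b120 k0)) (by decide +kernel)
def b628 : PP 8 4 T 0x1000000000000000000000000400140000000000001080020021000400008000100 := rS 0x1f8dd363908a300a490a8b51202 (k8 i788 i190 i1000 b314 i72 i261 i794 b531 (k4 i1814 i1033 i1005 b603 (k1 b375 k0))) (by decide +kernel)
def b629 : PP 8 4 T 0x1000000000000000000000000000000000000000000200220100000000008000000 := rS 0x8acd14af0aa9da4023092562973712cbe090f9008662 (k8 i527 b238 b272 b569 i1309 b513 i51 i528 (k8 b607 i1354 i72 i1312 i788 b264 b18 b314 (k4 i2350 i531 i2355 b461 (k1 b514 k0)))) (by decide +kernel)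
def b630 : PP 8 4 T 0x201000000000000014000000000001000400001400200400000000000000008002001 := rS 0x8c8dc72f13d04988874fb350a75 (k8 b426 b64 b370 i1566 i1564 i1495 i1496 b388 (k4 b297 i1879 i1800 b92 (k1 b357 k0))) (by decide +kernel)
def b631 : PP 8 4 T 0x1000000000000000000000000000000000000000000005220100000001008002000 := rS 0x3da7e303708234d487349e6245d2da759e778b50cce3d53a4d2a994b8bd731519b485a71308155e6e689880202259243a595ab2cbe090f91d46ab478d59a853e9d620211190086e5 (k8 b28 b238 b272 i185 i743 b432 b426 b65 (k8 b64 b370 b125 b349 i497 i1647 i26 b569 (k8 i1309 b513 b567 i1397 i607 i1230 i72 i51 (k8 i788 i445 i527 i653 i528 i2350 i261 i1312 (k8 i1359 i1000 b264 i192 b55 i1405 b418 b607 (k8 b605 i1057 i1321 b18 b38 b623 b624 b268 (k8 b21 b36 b313 b628 b629 b330 b414 b630 (k8 b0 b627 i1964 i467 i1004 b441 b3 b92 (k1 b388 k0))))))))) (by decide +kernel)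
def b632 : PP 8 4 T 0x1000000000000011000000000000000041000100850000000000000015008002000 := rS 0x1e50e7b8933cef1815bc62c8d610420a8f648d53a9f (k8 b626 b510 b125 i464 b349 b353 i467 i468 (k8 i1965 b339 b78 i371 b120 b21 b36 b325 (k4 b92 b0 b414 b388 k0))) (by decide +kernel)
def b633 : PP 8 4 T 0x401000000000000014100000000000000044000000450400000400000004008020004 := rS 0x1b0b8694696d3a9f (k8 b626 b510 i1757 i1760 i1764 b330 i2042 i516 k0) (by decide +kernel)
def b634 : PP 8 4 T 0x1000000000000014100000000000000144002000450401000000000000008000000 := rS 0x1a4da5c2da753f13 (k8 b414 b626 b510 i1807 b330 i516 i1850 i2042 k0) (by decide +kernel)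
def b635 : PP 8 4 T 0x1000000000000015100000000000000445004500450401000000000014008000002 := rS 0x2b788486c8c899e13a9f (k8 b626 b510 b388 b414 b634 i964 i965 b374 (k2 i213 b325 k0)) (by decide +kernel)
def b636 : PP 8 4 T 0x1000000000000014100000000000000048000000450405008000000000008000000 := rS 0x361711a5b34c4d3a9f (k8 b626 b510 b0 i1564 i777 i1052 b330 i2042 (k1 i515 k0)) (by decide +kernel)
def b637 : PP 8 4 T 0x1000000000000010000000000000000040008000000000010000000000008000000 := rS 0x11b19 (k2 b92 i1816 (k1 b120 k0)) (by decide +kernel)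
def b638 : PP 8 4 T 0x1000000000000015100000000000000441004500450405008000000014008000002 := rS 0x87 (k2 b636 b635 k0) (by decide +kernel)
def b639 : PP 8 4 T 0x1000000001000008000000000000000000000000400000008000004015008100000 := rS 0x3ca32241215845e2c21b0c22e35 (k8 b125 b36 b335 i988 i989 b374 i1952 i371 (k4 b439 b325 i1799 b414 (k1 i1051 k0))) (by decide +kernel)
def b640 : PP 8 4 T 0x1000000001000000000000000000000000000800000000000000014000108000000 := rS 0x6317 (k2 b21 i1507 (k1 b335 k0)) (by decide +kernel)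
def b641 : PP 8 4 T 0x1000000000000010000000000000000000000000040405010020000011008002000 := rS 0x671acf6270aa3d92cd429d6202332800064a24a2c0a77198846ae5 (k8 b28 b125 i743 i1609 b640 i521 b480 b97 (k8 b348 b44 b317 i1492 i185 b432 b426 b64 (k8 b370 i464 b349 i637 b529 b637 b632 b638 (k1 b639 k0)))) (by decide +kernel)
def b642 : PP 8 4 T 0x1000000000000000000000000020000020000000004000208100000000008000000 := rS 0x2a4e407 (k4 i1340 i279 b595 i1093 k0) (by decide +kernel)
def b643 : PP 8 4 T 0x11000000000000000000000000000020000000150000000000000000000008000000 := rS 0xdf15 (k2 b435 i1057 (k1 b413 k0)) (by decide +kernel)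
def b644 : PP 8 4 T 0x1000000001000000000020000000000000000000000000000000014100008000000 := rS 0x6317 (k2 b387 i986 (k1 b335 k0)) (by decide +kernel)
def b645 : PP 8 4 T 0x1000000000000008000000000000000000000000000000000000012000008052000 := rS 0x788546cc5 (k4 i1794 i988 i642 b374 (k1 b439 k0)) (by decide +kernel)
def b646 : PP 8 4 T 0x1000000000000000000000000000000008000000000501000000000000008000000 := rS 0xb713 (k2 b0 i777 (k1 b330 k0)) (by decide +kernel)
def b647 : PP 8 4 T 0x1000000000000000000000000002000000000000100000000020002000008010000 := rS 0x13788558838 (k4 i1512 i1511 i2176 b297 (k2 i1803 b439 k0)) (by decide +kernel)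
def b648 : PP 8 4 T 0x1000000000000040000000100004000000405100000000200100006000008012020 := rS 0x2439672750e5d2f8243e8f2a9a4cc771ab350b101092080250788c86e5 (k8 b28 b238 i1570 i5 b622 b272 i261 b127 (k8 b432 b64 b370 b125 b640 i521 i2935 i2933 (k8 b349 b569 i1309 b513 b509 b646 b647 b388 (k2 i1977 b645 (k1 i266 k0))))) (by decide +kernel)
def b649 : PP 8 4 T 0x1000000000000040000000100004000000405100000000200100006000008002020 := rS 0x10e9d67c646c8a0823cd6771ab350b101092080250788c86e5 (k8 b28 b238 i1570 i5 b622 b272 i261 b127 (k8 b432 b64 b370 b125 b640 i2341 b349 b648 (k4 i523 i524 b279 i1978 (k2 i1780 b198 (k1 b388 k0))))) (by decide +kernel)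
def b650 : PP 8 4 T 0x1000000000000040000000000004000000404100000000210100006100008002020 := rS 0x1045970f0b17e01c900b0487c8043 (k8 b238 b272 b569 i1309 i493 i261 i520 b431 (k4 b382 b649 i1013 i1854 (k2 b509 i523 k0))) (by decide +kernel)
def b651 : PP 8 4 T 0x1000000000000000000000000020000020000000000000210100000000008000010 := rS 0x2518c930d0e87c8043 (k8 b238 b272 b569 i1230 b32 b97 b459 b348 (k1 b642 k0)) (by decide +kernel)
def b652 : PP 8 4 T 0x1000000000000010040000140008008020000000080000000100000000008000564 := rS 0x1e84d66a7088546e8a4b1b0562f (k8 i92 b197 i1713 i1718 i1714 i997 b230 i2344 (k4 i1898 i1374 i1882 i1347 (k1 b464 k0))) (by decide +kernel)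
def b653 : PP 8 4 T 0x1000000000000000000000000000008000000000000000200100004100008002000 := rS 0xa75984c7a110aa651437159e93eaf58bf18ed11381ccc480220cea7238a805e6f6993510c0018c21a0b0ec5dca65568243e40218d44a0f (k8 i5 b622 b125 b238 b272 b569 i1309 i1494 (k8 i1549 b28 b7 i1230 i493 b32 b335 i1002 (k8 i1509 i1510 i788 b56 i2856 i92 b304 i796 (k8 i279 i1590 b438 b651 i261 i521 i520 b86 (k8 b278 i3010 b431 b382 b76 b652 b650 b379 (k8 i1775 i754 i1941 b230 i524 i1347 i1882 b551 (k2 i283 b464 k0))))))) (by decide +kernel)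
def b654 : PP 8 4 T 0x1000000000000000000000000000008000000000000000200100000100008002000 := rS 0x2492c9a003300c64572383c8043 (k8 b238 b272 i5 i26 b600 b653 i192 i1609 (k4 i1610 i788 i489 b95 (k1 b348 k0))) (by decide +kernel)
def b655 : PP 8 4 T 0x1001000000000000040000000000000000000000000000000210100000100008000010 := rS 0x110a0179c4c61f2010c3b0d (k8 b32 i1230 b238 b272 b569 b459 i1358 b399 (k2 b304 b352 (k1 b651 k0))) (by decide +kernel)
def b656 : PP 8 4 T 0x1000000000000000000000000000008000000000000000211100008100008000000 := rS 0x20a5588918f8ad3fbf0e6a95081da4a317894e28f3192a1a0b0e9656acb0487e2a2106b054ab95588cae0f029008661 (k8 i1312 b238 b272 i261 i2167 b600 i185 i497 (k8 i130 i289 i1614 b654 i744 b71 b569 i1309 (k8 b567 i1397 i607 i1230 i493 b32 b348 b459 (k8 i1133 i1358 i287 b399 i1634 b655 b31 b94 (k8 b595 b390 b342 i1638 b405 i2030 i2027 b65 (k2 i1541 b383 (k1 b345 k0))))))) (by decide +kernel)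
def b657 : PP 8 4 T 0x1000000000000000000000000000008000000000000000201100008100008000000 := rS 0x88c14f8462a9b8044c32814b2cb2b83c8043 (k8 b238 b272 i2167 b600 b567 i607 i261 i1546 (k8 b656 i788 i528 i792 i192 i1321 b383 b65 (k1 b345 k0))) (by decide +kernel)
def b658 : PP 8 4 T 0x1000000000000000000000000000008000000100000000210800000000008000020 := rS 0x881f0eeac479904b17 (k8 b7 i2142 i265 b349 i1549 i1548 i1313 b294 (k1 b65 k0)) (by decide +kernel)
def b659 : PP 8 4 T 0x1000000000000000000000000000008000000000000000200100008100008000000 := rS 0xcc7c2a415586523a8c0ec9178109a483a88d565752b041e0b658243e4021c5d720d (k8 b654 i130 b7 b238 b272 b569 i1309 b567 (k8 i493 i2167 i1614 i289 b600 i497 i185 i1585 (k8 b657 i72 b97 i2187 i611 i520 i1634 b658 (k4 i1545 i2027 b118 i1314 (k2 i1313 b339 (k1 i2974 k0)))))) (by decide +kernel)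
def b660 : PP 8 4 T 0x4001000000000000000000000000000000400020100000000002000000000008000000 := rS 0x2a198ed11 (k4 b65 b294 i752 i751 (k1 i2974 k0)) (by decide +kernel)
def b661 : PP 8 4 T 0x1000000000000000400000014140000020000000080000000400010000008001540 := rS 0x300620f (k4 i542 i1505 i2027 i1345 k0) (by decide +kernel)
def b662 : PP 8 4 T 0x11000000000000000000000140000000020008014000000002120000000008000540 := rS 0xf54e115984c2a374c969142b13b44064d (k8 i72 b44 b278 b86 b379 i754 i753 i1941 (k8 i1775 b230 i1882 b551 b531 i283 i1347 b464 k0)) (by decide +kernel)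
def b663 : PP 8 4 T 0x1000000000000001000000000000000080004000540515000000000000008000000 := rS 0x1b4b687 (k4 b646 i1883 i555 b614 k0) (by decide +kernel)
def b664 : PP 8 4 T 0x1000000000000041000000100000000001404100550005202100006000008010000 := rS 0xabc426c21b0e59c9f45a1cf29d2e965965f0487c804347811a277 (k8 i752 b278 b97 b333 b238 b272 b569 i1309 (k8 b513 b567 i607 b509 b647 i1013 b646 b663 (k8 b626 b388 i1977 i988 i989 i266 b374 i2219 (k1 b439 k0)))) (by decide +kernel)
def b665 : PP 8 4 T 0x1000000000000000000000000000008000000000000000202100000100008000000 := rS 0x448b8798ca28207b183010acd2b9a4aa6b07c42087733abd62fc69a0d10a039194dead3eaad4a752381d5235649c4084d27c3416596597c121f2010e2f1506a3d4633 (k8 b659 i1633 b333 b654 b71 b7 b238 b272 (k8 b569 i1309 b513 b567 i607 i493 b32 i31 (k8 i72 b97 i749 i1124 i2210 i572 i520 i264 (k8 i1590 i1365 i1636 b660 i1313 i1321 i1549 b413 (k8 b390 b401 b438 b94 b431 b382 b76 b661 (k8 i752 b339 b294 b283 b353 b30 b140 b11 (k8 b370 b64 i2027 i1345 b662 b664 i523 b279 (k4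 i1854 b663 b343 b22 k0)))))))) (by decide +kernel)
def b666 : PP 8 4 T 0x1001000000000000000000000001000000020000000000000201100000000008000000 := rS 0xe273319289a6f01c343a090f8148043 (k8 b238 b272 i261 b569 i1309 i1230 b32 i190 (k4 i1317 i788 b348 b459 (k2 i1093 i1358 (k1 b413 k0)))) (by decide +kernel)
def b667 : PP 8 4 T 0x1000000000000000401000014140000000020000000014000000000000008005540 := rS 0x82118ab11 (k4 b65 i1541 i2027 b345 (k1 b383 k0)) (by decide +kernel)
def b668 : PP 8 4 T 0x1000000000000000000000000000008000000010000000200100000100008000040 := rS 0x14559ad8d48115a1c7f1258a0c2acd2da652e5d5789c044b26094da622a415faac2b83e22a1608f54e763e348dc2f8682c3a596597c121f0688d4633308a40a4021aace6a544aa49315 (k8 b71 b665 b595 b666 i1364 b401 i1636 b238 (k8 b272 i261 b486 i1312 b659 i1633 b106 b654 (k8 b569 i1309 b513 b567 i607 i1230 i493 b32 (k8 b399 b413 b352 i1321 i1322 b18 b38 b56 (k8 b94 b65 b562 b600 b667 b405 b118 i1314 (k8 b342 i3016 i764 b459 i488 i788 i2545 i2350 (k8 b629 b607 b605 b628 i2551 b314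 i1438 i1354 (k8 b330 b610 b0 b376 b60 b528 i2031 i633 (k2 b70 b395 k0))))))))) (by decide +kernel)
def b669 : PP 8 4 T 0x1000000000000000000000000000000000000020000000200100000000008000010 := rS 0x26988df0d0e87c8043 (k8 b238 b272 b569 i1230 b32 i77 i1358 i528 (k1 b459 k0)) (by decide +kernel)
def b670 : PP 8 4 T 0x1000000000000000000000000000008000000000000000200100000100008000000 := rS 0x22152d3030bce205249008715 (k8 b71 b238 b272 b665 i261 b669 b399 b668 (k4 b31 b265 b352 b666 k0)) (by decide +kernel)
def b671 : PP 8 4 T 0x1000000000000000000000000000008000000000000000200100000000008000000 := rS 0x111129f11e2372884dc71600c8e62c5cc561a1d (k8 i1230 b32 b71 i130 b670 b391 i1242 i1241 (k8 i1239 b413 b372 b346 i1574 i1134 i1321 i287 (k2 b65 b432 k0))) (by decide +kernel)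
def b672 : PP 8 4 T 0x1000000000000040001000000120000000000000000000000000000000218000000 := rS 0xa11f946e5 (k4 b130 i1650 i823 b428 (k1 b337 k0)) (by decide +kernel)
def b673 : PP 8 4 T 0x1000000000000001014000000000000001000000500555000420000051108101000 := rS 0x9bc422c63609c4687 (k8 b646 i185 i745 b614 i2032 i475 b4 i218 (k1 b439 k0)) (by decide +kernel)
def b674 : PP 8 4 T 0x801000000000000001014000000000000000000000500515000520000011108001000 := rS 0x4de2c613844b41515a144687 (k8 b646 i185 b25 b376 b230 b673 b531 i746 (k4 i2032 b4 i218 b439 k0)) (by decide +kernel)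
def b675 : PP 8 4 T 0x101000000000000001000000000000000000000000500515000520000011108000002 := rS 0x3653822852d44c1ac362b904687 (k8 b646 i185 b432 b75 b52 b28 b674 b330 (k4 i1812 b531 b402 b489 (k1 b384 k0))) (by decide +kernel)
def b676 : PP 8 4 T 0x1000000000000002100000000000000040000800000000010000000000008000000 := rS 0x3419c7a (k4 i809 i810 b637 i1147 k0) (by decide +kernel)
def b677 : PP 8 4 T 0x1000000000000000001000010140000000000008080000210100000000008005000 := rS 0xc0062411c960b658243e4021aacae03 (k8 b44 b600 i497 b238 b272 b569 i1309 b567 (k4 i493 i489 i1618 b348 (k2 i2027 i1008 (k1 b266 k0)))) (by decide +kernel)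
def b678 : PP 8 4 T 0x1000000000000000000000141000000040000008005200001000000000008000000 := rS 0x41ac936998c2dd1ad1 (k8 b306 i1846 i1930 b120 i1060 b72 b455 i1439 (k1 i514 k0)) (by decide +kernel)
def b679 : PP 8 4 T 0x101100000000000001000000000000000001000001400500000520000015508100000 := rS 0x2d0aa2687638358ae4 (k8 b432 b75 b28 b475 b476 b528 b179 b330 (k1 i772 k0)) (by decide +kernel)
def b680 : PP 8 4 T 0x10001000000000000000000000000004000008001000000000000000000000008000000 := rS 0xf713 (k2 b0 i818 (k1 b343 k0)) (by decide +kernel)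
def b681 : PP 8 4 T 0x4001100000000000020004000000000000001000000000412000120000011408001002 := rS 0x6d43b353e6b139e42319 (k8 b292 b309 i1072 i746 b451 b217 i770 b680 (k2 i1697 b489 k0)) (by decide +kernel)
def b682 : PP 8 4 T 0x111100000000000011004000141000000045080011005500010120000011408001002 := rS 0x448d65b082fe8627 (k8 b529 b337 i1723 b489 i1757 b457 b330 b528 k0) (by decide +kernel)
def b683 : PP 8 4 T 0x111100000000000011004000141000000041080011005500010120000011408001002 := rS 0x16e2686 (k4 b682 b0 i778 b330 k0) (by decide +kernel)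
def b684 : PP 8 4 T 0x1002000000000000500010005000014000000108040000010000000000008000000 := rS 0x4b24990c263 (k4 i1320 b137 b165 i1008 (k2 i1049 b348 k0)) (by decide +kernel)
def b685 : PP 8 4 T 0x1000000000000040000000000000000000000000002000200100000000008000000 := rS 0x1dfa0b0487c8043 (k8 b238 b272 b569 i1309 i493 b137 b266 b431 k0) (by decide +kernel)
def b686 : PP 8 4 T 0x1000000000000000000000000000000008000001000500000000000000008000000 := rS 0xb713 (k2 b0 i778 (k1 b330 k0)) (by decide +kernel)
def b687 : PP 8 4 T 0x101000000000000000604000141000000040000000005514010120000211008001002 := rS 0x2c8d4998929d1a5b083350e7b3689da2853b150eb178280d1e23 (k8 i185 b349 b44 b322 b336 i1064 b345 b294 (k8 i1544 b681 b529 i671 b637 b686 i809 b489 (k8 i1757 i1760 i1912 b330 i981 b528 b455 i633 k0))) (by decide +kernel)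
def b688 : PP 8 4 T 0x4001000000000000000108000000000000040000000000000000000011000008000002 := rS 0x8cb4470ce468c86ee5 (k8 b52 i1957 b335 i964 i291 i290 i1147 b107 (k1 b120 k0)) (by decide +kernel)
def b689 : PP 8 4 T 0x1000000000000001000000000000000000000000500515000000000004008021000 := rS 0x16cda87 (k4 b646 i475 i1757 b614 k0) (by decide +kernel)
def b690 : PP 8 4 T 0x1000000000000001004000000000000001000000500515000520000051508011000 := rS 0x3c18d1362a1c4e15 (k8 b230 i746 b646 b481 b674 i2032 b325 b4 k0) (by decide +kernel)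
def b691 : PP 8 4 T 0x101000000000000040400000005020014000000000045000000000000001418002104 := rS 0xc05c080cac956b946aa5 (k8 i363 b125 b28 i1494 i464 i1492 b432 i2040 (k2 b672 i1250 k0)) (by decide +kernel)
def b692 : PP 8 4 T 0x101200000000000001000000000000000000000000400514000120000001108000002 := rS 0x3491caa29 (k4 i187 b30 b383 b140 (k1 b675 k0)) (by decide +kernel)
def b693 : PP 8 4 T 0x111000000000000000500001015000014400000400055000000000000000008000000 := rS 0x3ed0cfeb8 (k4 i2040 b616 b422 i1330 (k1 b315 k0)) (by decide +kernel)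
def b694 : PP 8 4 T 0x1000000000000040001000020000000000000000000000000000000000008000500 := rS 0xefd (k2 b405 i1225 (k1 b431 k0)) (by decide +kernel)
def b695 : PP 8 4 T 0x101000000000000000000000000000000400000400080004000000000000008000000 := rS 0xeb17 (k2 b85 i1587 (k1 b294 k0)) (by decide +kernel)
def b696 : PP 8 4 T 0x111200000000000000500001015000014400000000005004002000000000008000000 := rS 0x339dcaa65 (k4 b9 b30 i751 b695 (k1 b693 k0)) (by decide +kernel)
def b697 : PP 8 4 T 0x1000000000000015000000000001000541005500020500000000000000008000000 := rS 0x43a7cdb18 (k4 b120 i1700 b3 b686 (k1 b388 k0)) (by decide +kernel)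
def b698 : PP 8 4 T 0x1000000000000005000000000005000401005500020500000000000000008000000 := rS 0x10c6d (k2 i1699 b388 (k1 b686 k0)) (by decide +kernel)
def b699 : PP 8 4 T 0x1000000000000001004000100000540004405054000502000124000005508011000 := rS 0x40adcb42a899b45285 (k8 i1544 i187 i1697 b527 b488 b330 i851 i1809 (k1 b421 k0)) (by decide +kernel)
def b700 : PP 8 4 T 0x1100000000000000008000000000000000000000000000000000000000008005020 := rS 0x8ee5 (k2 b52 i2144 (k1 b341 k0)) (by decide +kernel)
def b701 : PP 8 4 T 0x1000000000000011400008010000100004005500110000000428000001008201140 := rS 0x51b0576c555b394ad34ea1541184f968548b478d41e0b (k8 i2232 i338 b125 b349 b417 i377 i378 b626 (k8 b442 i850 i1811 b281 b94 i363 b388 b573 (k4 i1794 i1950 i1426 i407 (k1 i2027 k0)))) (by decide +kernel)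
def b702 : PP 8 4 T 0x1200000000000001000008000000500000004000000101002008000001008001100 := rS 0x9c8b21623124fb3cac5b1b22820152009da2792ca3cee872f9ac8ead34b2cea651c81c5a04 (k8 b97 i1423 i520 i297 b9 i1010 b145 b140 (k8 b118 b383 b353 b363 b646 i751 b349 i868 (k8 i1013 b278 b86 b319 b701 b603 i523 i524 (k8 i1757 b689 i1978 b209 b330 b11 b25 b294 (k2 b388 b313 k0))))) (by decide +kernel)
def b703 : PP 8 4 T 0x1200000000000000000008000000500000004054000101002008000001008001000 := rS 0x1a4335ca9462a18b39057116602526898a2561a8f1a87442231787c08403b9d4ca2d (k8 i1423 b9 i1010 i751 b319 b97 i2136 i2187 (k8 i2137 b127 b90 b125 b349 b101 b643 b413 (k8 b2 b71 i262 b702 b370 i888 b432 b294 (k4 i402 b273 b430 b387 (k2 b80 b304 (k1 b163 k0)))))) (by decide +kernel)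
def b704 : PP 8 4 T 0x1200000000000000000000000000500000004054000101002008000001008001000 := rS 0x3372ae148b555c41268951b0576958bc51a4ce04984fa637eb353a855913855182d27cff13412dc0e2d478d44e79078a4ee872f91d5a69659d4caa978a5d021f059002604 (k8 b97 i2146 b319 i2232 i2136 i1332 b416 b119 (k8 i1086 b9 i1010 b145 b140 b118 b383 b363 (k8 b646 i751 i187 i338 i1013 b86 b125 b349 (k8 i1423 i520 b703 b421 b33 i925 b151 b330 (k8 b343 b325 i775 i776 i1811 b281 i888 b293 (k8 i1350 i1273 i1431 i1428 b388 b431 b342 b36 (k8 i1104 i1950 b56 b423 b2 b71 b294 i666 (k4 b277 i2027 i2044 b430 (k2 i288 b644 k0))))))))) (by decide +kernel)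
def b705 : PP 8 4 T 0x201200000000000000000000004000000000050000000011540000000000008000000 := rS 0x5a95d5acb (k4 b145 b118 b11 b277 (k1 i2037 k0)) (by decide +kernel)
def b706 : PP 8 4 T 0x1000000000000080000004000000000000500000000000000005000054058000000 := rS 0x142a7 (k2 b18 b94 (k1 i2031 k0)) (by decide +kernel)
def b707 : PP 8 4 T 0x1000000000000010000008000000800000004000000000080000000000008000000 := rS 0x1168d2d2b93319 (k4 b72 i154 i762 i761 (k2 i1924 i1883 (k1 b120 k0))) (by decide +kernel)
def b708 : PP 8 4 T 0x401000000000000001000000000000004000160000000000000000000000000000000000000008000000 := rS 0x17f43 (k2 b422 i1458 (k1 b409 k0)) (by decide +kernel)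
def b709 : PP 8 4 T 0x1000000000000040000000000000000010000020000000002000000000008000000 := rS 0x5b150e8bc0840 (k4 b319 b97 i2187 b90 (k2 b334 i1239 (k1 b352 k0))) (by decide +kernel)
def b710 : PP 8 4 T 0x800000000000001000000001000000000010000040014410000540000000002000000001008000000 := rS 0x30140dc71699f6201d10914461f02100feb5 (k8 b425 b337 b319 b97 i2136 i2137 i22 b127 (k8 b90 b432 b65 b624 b709 i2044 i1009 i1008 (k1 b685 k0))) (by decide +kernel)
def b711 : PP 8 4 T 0x800000000000001000000000000000008000000000804000000504002000002000000000008000800 := rS 0x158d47c5623c674f399fd2ab567ae4e24e2ea34064d088f4d2ae5985457193c91480fda2ac5a2bb (k8 b114 b278 i1298 b351 b137 b319 i22 i2691 (k8 b72 b442 b230 i659 b395 i1926 b393 i563 (k8 i72 b44 i1034 b260 i301 i1280 b422 i1151 (k8 b425 b424 b337 b407 b135 i291 b333 b186 (k4 i2044 b191 i1274 i507 k0))))) (by decide +kernel)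
def b712 : PP 8 4 T 0x1000000000000000000000004000000000020000000000182000000002008000000 := rS 0x1eac2a87dcb11239640840 (k8 b319 b97 b534 i205 b320 b298 i2136 i1542 (k2 i1273 i339 (k1 b214 k0))) (by decide +kernel)
def b713 : PP 8 4 T 0x800000000000001000000000000000000000000000804000000100002000102000000002008000800 := rS 0x2086a078346431471f586c5781a4da1357235664e08d14e63d58b442a2b8c9e48a7f5ca5556b55db948e593b8d408407e9c49a6f (k8 i1009 i72 i1280 b137 b319 b97 i2210 i804 (k8 b534 i205 b298 b114 b425 b104 b424 b422 (k8 b337 i22 i2691 b72 b442 b230 b278 i1298 (k8 b393 b407 b351 i563 i301 i659 i1034 b395 (k8 i267 i593 i1926 b439 b297 b711 b712 i2044 (k4 b327 b333 i522 i2167 (k2 b536 b341 (k1 b353 k0)))))))) (by decide +kernel)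
def b714 : PP 8 4 T 0x1000000000000000000000000000800020000000000000002000000000008000000 := rS 0x13788447c38008102a2b8c9e48a40 (k8 b319 i22 i2691 b72 b442 b230 b97 b95 (k4 i1444 i1443 i1874 b119 (k2 i2146 b439 k0))) (by decide +kernel)
def b715 : PP 8 4 T 0x1000000000000000000000000000000000000200000000002000000002008000000 := rS 0xd8283cc856019348ae5239640840 (k8 b319 b97 b534 i205 b298 i22 i72 b44 (k4 i1011 i1010 i501 b9 (k2 i1492 b341 k0))) (by decide +kernel)
def b716 : PP 8 4 T 0x800000000000001000000000000000000000000000800000000000002000102000000002008000800 := rS 0x22b0d4928080733a9c49a6f (k8 i1009 i72 i1280 b715 b407 b319 i300 b713 (k2 b321 b71 (k1 b413 k0))) (by decide +kernel)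
def b717 : PP 8 4 T 0x20001000000000000000000000000010500010200000000000000005040400018000000 := rS 0x163494f0d4b8a4721f (k8 b350 b107 b136 b26 b138 i1859 b304 b375 (k1 b128 k0)) (by decide +kernel)
def b718 : PP 8 4 T 0x20001000000000000080000000000000500010000000000000000005040400008000000 := rS 0x16a9d2e39 (k4 b107 b26 b18 b128 (k1 b375 k0)) (by decide +kernel)
def b719 : PP 8 4 T 0x1000000000000040000000000000000000000000000000080000000000018000500 := rS 0xefd (k2 b293 i1221 (k1 b431 k0)) (by decide +kernel)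
def b720 : PP 8 4 T 0x1000000000000000008000004000000000050000000000142000000001008001000 := rS 0x15621047294c42232c8101e40 (k8 b319 i338 b97 b534 i2137 b127 b332 b52 (k4 b700 b432 b30 b705 k0)) (by decide +kernel)
def b721 : PP 8 4 T 0x1000000000000040000000008000000000000000000000000000000000008000520 := rS 0xefd (k2 b359 i2337 (k1 b431 k0)) (by decide +kernel)
def b722 : PP 8 4 T 0x11000000000000040000000100000000000400000000200000000000010008110540 := rS 0xb2 (k2 b255 i514 k0) (by decide +kernel)
def b723 : PP 8 4 T 0x1000000000000000000000000000800000000000000200002000000000008000000 := rS 0x798cc4cf64b (k4 i29 i1892 b22 b72 (k2 i2691 b343 k0)) (by decide +kernel)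
def b724 : PP 8 4 T 0x2001000000000000080000000000000400000000000000000000000100400008150100 := rS 0x36780fd4e3d16a252e99 (k8 b133 b364 b2 b128 b38 b18 b603 b439 (k2 b375 b374 k0)) (by decide +kernel)
def b725 : PP 8 4 T 0x401000000000000000000000000000000000000000000000002000000000008020000 := rS 0xf31915229e24d138a48004 (k8 b97 b319 i2138 b86 i72 b78 i523 b325 (k2 b279 i1854 (k1 b442 k0))) (by decide +kernel)
def b726 : PP 8 4 T 0x2001000000000000080000000000000000000000000000200002000000000008100100 := rS 0x798c8e0229b3d84e264b148bc0840 (k8 b319 b97 i2187 i2138 i29 b22 b253 i1892 (k4 b723 b725 b724 b107 (k2 i1851 b343 k0))) (by decide +kernel)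
def b727 : PP 8 4 T 0x101000002000000000000000000000000005080000000000082000000040008000000 := rS 0x4acd138845223021018ac7 (k8 b4 b297 b319 b97 i2137 i2138 b127 b86 (k2 i2517 i2515 (k1 b179 k0))) (by decide +kernel)
def b728 : PP 8 4 T 0x1000000000000000000000000000000000020000000000082000000002008000000 := rS 0x2aca651 (k4 i31 b332 i1596 b712 k0) (by decide +kernel)
def b729 : PP 8 4 T 0x1000000000000080000008000000000000050114000002000000010002008000000 := rS 0xb819ad51e2d729dd2a938a434e6a1 (k8 b94 b390 b101 b413 b71 b643 i804 b298 (k4 b128 b290 i2523 i287 (k2 i2044 b644 k0))) (by decide +kernel)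
def b730 : PP 8 4 T 0x111000000000000000000000080000000000450002000000000000000000008000000 := rS 0x5ad0d7caa (k4 i593 i594 b104 i1455 (k1 b315 k0)) (by decide +kernel)
def b731 : PP 8 4 T 0x101000000000000000000000000000000080000502000000000000000000008000000 := rS 0x47c5d3c66 (k4 i555 i556 b85 b369 (k1 b294 k0)) (by decide +kernel)
def b732 : PP 8 4 T 0x1000000000000000000018000000104000050544000002000000000000008000000 := rS 0x955a9c61a8f (k4 b290 b101 i802 i2523 (k2 b643 i2044 k0)) (by decide +kernel)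
def b733 : PP 8 4 T 0x11000000000000040000001000000000400050044000000002000000002008000000 := rS 0x4a9c684a00e8bc3e935cc5a22753b8d40840 (k8 b319 b97 i2210 i804 b715 b320 b294 b387 (k8 b7 i2136 i2187 b90 b304 b315 i796 b424 (k1 i2044 k0))) (by decide +kernel)
def b734 : PP 8 4 T 0x1001002000000000000004440010000000500000000000002000000040008000000 := rS 0x14c0b13874521f021007a3f (k8 b119 b324 b319 b97 i2136 i2138 b90 b86 (k2 i300 i2031 (k1 b221 k0))) (by decide +kernel)
def b735 : PP 8 4 T 0x1000002000000000000000000000100000400000000182082000000042008000000 := rS 0x5ac3540d357add667d3f9bd02737e92c4e1d1487c7a3f5183926b98b23e22753b8d40840 (k8 b319 b97 i2210 i804 b715 b320 b290 b294 (k8 b387 b7 i764 i2190 b119 b324 i2136 i2138 (k8 b90 b86 i29 b293 b323 i1276 i1272 i2515 (k8 b728 i1429 b732 i1922 b706 b734 b321 i881 (k1 b733 k0))))) (by decide +kernel)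
def b736 : PP 8 4 T 0x11000000000000000000000000000000000000004002000440000000000008000000 := rS 0xa2fd (k2 b137 i1311 (k1 b108 k0)) (by decide +kernel)
def b737 : PP 8 4 T 0x1100000000000000100020000000000000000000041000000000000000008000000 := rS 0xcb17 (k2 b387 i1026 (k1 b339 k0)) (by decide +kernel)
def b738 : PP 8 4 T 0x11000000000000000000011000000004400050554000000000000000000008000000 := rS 0x95 (k2 b643 i2044 k0) (by decide +kernel)
def b739 : PP 8 4 T 0x1002000000000010000000000000000000000080000000000001200000008150540 := rS 0x14eb34ca291ab157a213719 (k8 b107 b407 b401 b76 b382 i1813 b120 i1938 (k2 i554 i283 (k1 b464 k0))) (by decide +kernel)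
def b740 : PP 8 4 T 0x1000000000000004000000000001000005001400000002002000000000008088000 := rS 0x1986826b44b2042023cea4b (k8 i29 i1540 b290 b319 b97 b534 b278 i72 (k2 i345 b549 (k1 i1831 k0))) (by decide +kernel)
def b741 : PP 8 4 T 0x1000000000000000000000000001000005005001440002002000000000008000000 := rS 0x4fb35a3053a92d928f (k8 b290 i1124 i29 i1540 b30 b278 i770 b550 (k1 b506 k0)) (by decide +kernel)
def b742 : PP 8 4 T 0x1002000000000004400000000001000001005480000002002000000040008008540 := rS 0x29872b31e9a9e01336a1c2ad12299d62af44090228f2c900ea4b108104e4d (k8 i72 b86 b97 b127 i29 i1540 b319 b534 (k8 b290 b547 i338 b401 b76 b382 i1619 i22 (k8 b278 b230 i927 i667 b740 b439 b741 b324 (k4 i633 b739 b464 i282 k0)))) (by decide +kernel)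
def b743 : PP 8 4 T 0x1000000000000000000000000000000000000000000000002000000080008008000 := rS 0x85439b4ce542bc148a35021ed866b4ec60f25a0a04cbef108c4c804b (k8 i29 b319 b376 b725 b35 b363 i213 b439 (k8 i378 i1808 b442 b281 b246 i2219 b379 b97 (k8 i2210 i22 b283 i501 i339 i542 i668 b476 (k2 i1812 b741 k0)))) (by decide +kernel)
def b744 : PP 8 4 T 0x11000000000000000400000000000000020000014000002000400004000008005540 := rS 0x5634d56a0279c9471560a95c905 (k8 b30 b341 b430 b346 b2 i280 b413 b323 (k4 b390 i1658 b94 i2027 (k1 b694 k0))) (by decide +kernel)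
def b745 : PP 8 4 T 0x400000000000001100000000000000500000015000010000000000054000000000000000008000000 := rS 0x7ea4d7316 (k4 b339 b387 b7 b165 (k1 b433 k0)) (by decide +kernel)
def b746 : PP 8 4 T 0x11000000000000000400001000000000400010514010002002400000000008004540 := rS 0x5ad2552b686633f4512a734494c6a2f202a40831008cd4ae40688526b98b324cf05 (k8 b30 i1619 i1124 b339 b387 b7 b127 i1489 (k8 b341 b430 b538 b95 b183 b97 i572 b319 (k8 i2187 i2210 b332 b744 b401 b643 b413 b738 (k4 b55 b337 i1556 b745 (k2 b573 b128 (k1 b163 k0)))))) (by decide +kernel)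
def b747 : PP 8 4 T 0x1000000000000000001001000100000000010020000000002000000001008000500 := rS 0x51349424e3f87442231787c0840 (k8 b319 b97 i2136 i2187 i2137 b127 b90 i2506 (k4 i749 i796 b719 i2030 (k1 b423 k0))) (by decide +kernel)
def b748 : PP 8 4 T 0x100000000000000040000000500000000000040a000002002000000000008000000 := rS 0x1474256b49fa95301409a1d10914461f02100eab53e89526b98b1953f18431e4b44b64a3ccf05 (k8 b30 i1619 b290 i1124 i29 i1698 i1808 i1697 (k8 b198 b3 i1699 b339 b387 b7 i2530 i3016 (k8 i768 i1540 b319 b97 i2136 i2137 i22 b127 (k8 b90 i72 i1009 i1008 i2685 b684 b685 i1313 (k2 b433 b423 (k1 b624 k0)))))) (by decide +kernel)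
def b749 : PP 8 4 T 0x11000000000000000000000000000000000000010000000002000000000008000080 := rS 0x6120010064d (k4 i72 b44 b97 b319 (k2 i1224 b261 k0)) (by decide +kernel)
def b750 : PP 8 4 T 0x100000000000000040000000100000000000040a000002002000000000008000000 := rS 0x2a89e4b (k4 i29 i1272 b748 i1658 k0) (by decide +kernel)
def b751 : PP 8 4 T 0x11000000000000000400000000000000000000412000002002000000000008000400 := rS 0x8a9cd10a1041bc8e654fc611e75548116a073e9e4960f12a18b440 (k8 b319 i1698 i1697 i2530 i338 i29 i1808 i3016 (k8 b749 i768 b97 i572 i1540 b290 b198 b3 (k8 i1699 i265 b750 b746 i2139 i262 b390 b2 (k1 b413 k0)))) (by decide +kernel)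
def b752 : PP 8 4 T 0x11000000000000000000000000000000000000010000000002000000000008000200 := rS 0x115379cd10515087c0840 (k8 b319 b97 i2136 i2139 i1309 i262 b390 i1009 (k2 b2 b413 k0)) (by decide +kernel)
def b753 : PP 8 4 T 0x2001000000000000080000000000000000000000000000200002000000000008000100 := rS 0x548a40 (k4 b319 i22 i509 b726 k0) (by decide +kernel)
def b754 : PP 8 4 T 0x22001000000000000080000000000000000000000000000000002000000000008100000 := rS 0x26111ca6d162f200251204 (k8 b97 b2 i262 b319 i2187 b279 b72 b107 (k2 i523 i266 (k1 b724 k0))) (by decide +kernel)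
def b755 : PP 8 4 T 0x2001000000000000080000000000000400000000000000000002000100000008110000 := rS 0x262f200251204 (k4 b97 b2 i262 b319 (k2 i2187 i266 (k1 b724 k0))) (by decide +kernel)
def b756 : PP 8 4 T 0x1000000000000080000000000010000005150001000002002000000041008010000 := rS 0xb71fad1e0a509b90d48388b31860f1387452230f8114e3d60a8c2a45204141a21 (k8 b127 i1489 b30 b319 i22 b230 b423 b56 (k8 b38 b18 b97 i2136 i2137 i2138 b90 b86 (k8 i338 b700 b488 b370 i2525 i770 b432 i1960 (k4 b430 b439 i2030 b119 (k2 i2523 i2031 k0))))) (by decide +kernel)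
def b757 : PP 8 4 T 0x1000000000000080000008000000000000050004000002002000000002008000000 := rS 0xe23502100ea4b (k4 i29 i1540 b319 b97 (k2 i2210 i2507 (k1 b729 k0))) (by decide +kernel)
def b758 : PP 8 4 T 0x10001000000000000000000000000000000000801000000000002000000000008000000 := rS 0xf713 (k2 b33 i2512 (k1 b343 k0)) (by decide +kernel)
def b759 : PP 8 4 T 0x1000000000000001000000000004000405005100000000000000090002008000000 := rS 0x19e9d8b0ccef11 (k4 b320 i804 i287 b294 (k2 i1780 b36 (k1 b388 k0))) (by decide +kernel)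
def b760 : PP 8 4 T 0x11000000000000000000004500000000000500000000140142000000000008000000 := rS 0x573f0a65f (k4 b363 b332 b108 i2038 (k1 b76 k0)) (by decide +kernel)
def b761 : PP 8 4 T 0x400000000000001100000000000080400000014100000000000000000000000400000000008005000 := rS 0x1f8080581d82a3 (k4 b423 b56 b31 b311 (k2 i2027 b433 (k1 b291 k0))) (by decide +kernel)
def b762 : PP 8 4 T 0x1000000000000085044002008001000005000014020000002008005001008000000 := rS 0x10699599e55e5a0a26c2236369ee26395ba7c54352589c02211488c162d39a85e2974087c26c50203c800d019360a60 (k8 i1660 b9 i72 b44 i1492 b319 i338 b97 (k8 b471 i2146 i2136 i1332 b416 b119 b94 b390 (k8 b128 b311 i2137 i2138 b127 b95 b86 i29 (k8 b125 i2032 b445 i886 b271 b376 b379 i1699 (k8 b427 b725 i994 b439 i378 i587 i1808 i665 (k2 i1021 i776 (k1 b421 k0))))))) (by decide +kernel)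
def b763 : PP 8 4 T 0x1100000000000080044002008000000005000000420008000008005001008001000 := rS 0x2215360ae9ecc349bcfecf2292d28604e9c4c6677884c0848 (k8 i1580 b97 i2146 b119 i75 i537 i750 i2957 (k8 i1660 i1659 i2727 b66 i2697 i127 i1058 i1583 (k4 b762 b329 i888 b308 (k2 b230 i475 (k1 b439 k0))))) (by decide +kernel)
def b764 : PP 8 4 T 0x1000000000000080000000008001020002000014002000002028000000008000000 := rS 0x132833cabcb41459a6c227b36a7e260b2597d6e81861cd431578a5c2604 (k8 b97 i2146 b416 b119 b435 b94 b390 b413 (k8 b138 b101 b363 i2727 b311 b25 b371 i1604 (k8 i1895 b725 i1181 i665 b439 i378 i587 i1808 (k2 i776 i1021 (k1 b421 k0))))) (by decide +kernel)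
def b765 : PP 8 4 T 0x1100000000000080004002008100000000000000020000000408001001008001000 := rS 0x28ae08af8d8bba7b190a6b43af426f1a282d4633a19bd3a0438920ac592011496943010c03112a9fcc667 (k8 i75 i537 i127 i1657 b277 i963 b355 i1660 (k8 i1659 i2727 b66 b272 i866 b345 i1580 i750 (k8 b97 i2957 i1058 b425 i1545 b423 b311 b58 (k8 b119 i2146 i1411 i934 i586 b764 b763 b53 (k4 i1679 b475 b409 i475 (k2 i1722 b439 (k1 i587 k0))))))) (by decide +kernel)
def b766 : PP 8 4 T 0x400000000000000101000000000000000000000000000000005000000000000000000000081008000000 := rS 0x19b13 (k2 b376 i888 (k1 b402 k0)) (by decide +kernel)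
def b767 : PP 8 4 T 0x1000001000000080000004000000000000100000000000000004000054048000000 := rS 0x414487a1d (k4 b126 b38 b325 b706 (k1 b33 k0)) (by decide +kernel)
def b768 : PP 8 4 T 0x101000000000000080080004000000000000100000020008000004000011448000000 := rS 0x6d4327c5485a7bc44e48 (k8 i1580 b86 b4 b53 i1601 b767 b197 b766 (k2 i1699 i1705 k0)) (by decide +kernel)
def b769 : PP 8 4 T 0x1000000000000000000000000000000008000000020008004000000000008000000 := rS 0x13e6c2e44c9a67 (k4 i75 i529 b0 i1706 (k2 i1705 b150 (k1 i1699 k0))) (by decide +kernel)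
def b770 : PP 8 4 T 0x101000000000000080000004000000000004100002020000002004000011048000000 := rS 0x41464f22b4f1750b4f1e874be27 (k8 b86 b363 b126 b38 b384 i1604 i516 i1699 (k4 b766 i1013 b3 b706 (k1 b758 k0))) (by decide +kernel)
def b771 : PP 8 4 T 0x1000000000000080000004000008000000100000000000002004000010048000000 := rS 0x20cf22b8c8f43a27 (k8 b86 b126 b38 b3 b197 i2692 b758 b706 k0) (by decide +kernel)
def b772 : PP 8 4 T 0x1000000000000080014004408000000004100000000400000104000054048001000 := rS 0x5c359a4225b5eac626f0410547a1d0782c8ea3 (k8 b423 i1655 b311 i579 b126 b38 b230 b706 (k8 b767 b33 i1296 i1416 i776 b78 i1662 i586 (k2 b330 b537 k0))) (by decide +kernel)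
def b773 : PP 8 4 T 0x1100000000000080000002008000000000000000020000000000000001008001000 := rS 0x99419e55e5a0a25c2236099ede3131c8a9369f599b50ec740ade1829388104e5f4e920ac59200fc3e4552b1586312188d9e6f25c55c80119980c6554a11c1e35058f546735099e227f (k8 i127 b277 i75 b94 b390 b423 b38 b311 (k8 b125 i579 i1655 i1659 i1657 i537 i1660 i2990 (k8 i963 b341 b435 i2727 i1058 i2697 b106 b355 (k8 b183 b52 b75 b430 b66 b144 b765 b272 (k8 i866 b345 i1580 i2957 b363 b86 b97 i750 (k8 i2138 b413 b101 b138 b768 b769 b770 i665 (k8 b771 i1181 b772 b271 b376 b35 b379 i213 (k8 b427 b725 i1777 b439 i378 i587 i1808 i776 (k2 i1021 b421 k0))))))))) (by decide +kernel)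
def b774 : PP 8 4 T 0x1100000000000080000002000000000000000000020008000000000001008001000 := rS 0x29596477214446452012d5a4807955931110d0cfaab (k8 b773 i126 b425 b340 b277 i120 i33 i502 (k8 i1580 i1581 i1050 b319 b66 b571 b600 b432 (k4 i1577 i505 b430 b761 k0))) (by decide +kernel)
def b775 : PP 8 4 T 0x1000000000000004000000000001000000000400020004006020000081008000000 := rS 0x429e4ba5a0a0459a134f9ede31347914be75 (k8 i1011 b363 i22 b349 b376 b35 b379 b197 (k8 i213 i888 b725 b439 i378 i509 i1808 i1812 (k1 b698 k0))) (by decide +kernel)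
def b776 : PP 8 4 T 0x401000000000000084014004000001000000100000000000002000015050048100100 := rS 0x798c8e1049f1bb1c7ef0088f43a27 (k8 b86 b126 b38 b725 b325 b603 b4 b374 (k4 b771 b706 b427 b107 (k2 i1851 b758 k0))) (by decide +kernel)
def b777 : PP 8 4 T 0x1100000000000080000002000000000000000000020000000020000001008001000 := rS 0x331145b081b50a8789054563367a762c75138a496480200502093b80d4ac518b0d944e5b935c8540f88cb20f22a3c6aa133b2622213e9fca257 (k8 b774 i1398 i127 i126 b340 b277 i120 i75 (k8 b94 b125 b349 i22 i338 i866 b571 i183 (k8 b345 b432 i2550 i2523 i767 i768 b52 b273 (k8 b75 b430 b44 i1548 i1387 i2886 i962 b317 (k8 i261 i485 i2138 b86 i1011 b294 b313 b36 (k8 b80 b775 b230 b776 b0 b25 i1697 b756 (k4 i1757 i523 b472 i769 k0))))))) (by decide +kernel)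
def b778 : PP 8 4 T 0x1000000000000000000002000000000000000000000000000000002001008000000 := rS 0x11b962221 (k4 b340 b277 b273 b299 (k1 b432 k0)) (by decide +kernel)
def b779 : PP 8 4 T 0x1100000000000080000002000000000000000000020000000000000001008001000 := rS 0x25513145c9854a6f7eb91944e11950e863199288ea92201006412895c6a0b60a8c5a2f50c4442934790c0231 (k8 b778 i962 b355 b349 i1369 b340 b277 b94 (k8 b84 b128 b423 b56 b311 b125 b774 i1398 (k8 b777 b354 b317 b272 i572 b42 b66 i1545 (k8 i487 i1049 i1050 b106 i767 i768 b432 b293 (k8 i2885 b430 i1047 i1065 b342 b2 b435 i2033 k0))))) (by decide +kernel)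
def b780 : PP 8 4 T 0x1100000000000080000002000000000000000000020000000000000001008000000 := rS 0x1831 (k2 b778 b779 (k1 i1491 k0)) (by decide +kernel)
def b781 : PP 8 4 T 0x1000000000000080000001000100000000010204000000000000000001508000000 := rS 0xfe1f60a8d421d (k4 b126 b94 b423 b56 (k2 b144 i1668 (k1 i2030 k0))) (by decide +kernel)
def b782 : PP 8 4 T 0x801100000002000000000000141000000000080008025000018400000041508000000 := rS 0x18ecd3589d647b68a651a8b5fa7c5279429750ec3629b4e854 (k8 i1050 i1049 i3015 b75 b52 b0 b22 b25 (k8 b414 b123 b443 i1723 i491 i1051 i1059 i1166 (k4 b637 b455 b115 i634 (k2 i770 b475 (k1 i2032 k0))))) (by decide +kernel)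
def b783 : PP 8 4 T 0x501000000000000080010000140000000000080001000400100000000055508050100 := rS 0x19a8742af4ba81590558ef005a9c0e3d (k8 b38 b31 b18 b311 b325 b4 b404 b464 (k4 i1334 i513 i1414 i1670 (k2 b686 i849 (k1 b179 k0)))) (by decide +kernel)
def b784 : PP 8 4 T 0x401002000000000080000000000000000000000000000400100000000020008050100 := rS 0xb8b22d85416a7038f562af (k8 b76 b382 b38 b31 b18 b311 b57 i1805 (k2 b464 b330 (k1 i513 k0))) (by decide +kernel)
def b785 : PP 8 4 T 0x1000000000000000000000000000000000000000000000000010000008008000001 := rS 0x22da27a1b134224a2210c0803 (k8 b354 b317 b355 b272 b66 i2303 b270 b289 (k4 b115 i990 i1773 b637 k0)) (by decide +kernel)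
def b786 : PP 8 4 T 0x101100000002000080000000001000000000080000020400118400000045508050100 := rS 0x2989b14da6e3e9514ab558abdf91530a50e863 (k8 i487 i1049 i1667 i2727 b435 b342 b76 b382 (k8 b780 b430 i1050 i1542 b781 i3015 b75 b782 (k2 b784 b783 k0))) (by decide +kernel)
def b787 : PP 8 4 T 0x101100000002000080000000001000000000080000020400101200000005508010000 := rS 0x1165c3d8a95eb17e1862a94098248e4d319b8fa543a1294ab5 (k8 b780 b430 b66 i1049 i1050 i1542 b781 i487 (k8 b270 b42 b312 b269 i1667 b435 i2727 b342 (k4 b382 b76 b786 b379 (k2 i386 i492 (k1 b678 k0))))) (by decide +kernel)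
def b788 : PP 8 4 T 0x101100000002000080000000000000000000000000020000100010001001408000000 := rS 0x158fc6593d57420f1fe1a6e3e81d82a3508756a210683d4a490491ca6a905844be04019d0a84a2210c4e01 (k8 i962 b785 b355 b272 b66 i1050 i1049 b354 (k8 b317 i2432 i2303 b311 i572 i564 b42 b312 (k8 b319 b430 b437 i1491 b82 b780 b126 b94 (k8 b423 b56 b31 i1542 b781 b397 b787 i2030 (k4 b315 i1657 i1269 b79 (k2 b108 i2027 (k1 b405 k0))))))) (by decide +kernel)
def b789 : PP 8 4 T 0x111000000002000080000001014000000000040000000002000400000000008001100 := rS 0x142651f4160760a8c1ea5 (k8 b430 b437 b423 b56 b31 b311 i1541 i2027 (k2 b315 b79 k0)) (by decide +kernel)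
def b790 : PP 8 4 T 0x1000000000000080000010021100000000000200001000208000015000008000000 := rS 0x8a220c69338a55fac1518b45ea1 (k8 b94 b84 b128 b423 b56 b405 i1558 i2875 (k4 i1590 i488 i2033 b342 (k1 b2 k0))) (by decide +kernel)
def b791 : PP 8 4 T 0x1000000000000000000000141000000000000008001000001200000080008000000 := rS 0x1165c3d928c64d (k4 b270 i1320 b66 b379 (k2 i386 i492 (k1 b678 k0))) (by decide +kernel)
def b792 : PP 8 4 T 0x501000000000000080010000140000000000080001000502000000000045508050100 := rS 0x178b2660558ef014a1cb48505a9c0e3d (k8 b38 b31 b18 b311 i1544 b330 b686 i1805 (k4 b325 b4 b404 b179 (k2 b464 i849 (k1 i1414 k0)))) (by decide +kernel)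
def b793 : PP 8 4 T 0x101100000002000080000000000000000000000000020004000010001001408000000 := rS 0x1648a0a972262b57ac5f91531a50dc7e3eab4c2ab869404eb936950e85f088cd524d2511c12130211006491a82d4e071ead4420d218058aa5 (k8 b430 b75 i962 b355 i1491 b82 b780 b38 (k8 b31 b18 b311 b125 b319 b354 b272 b317 (k8 b269 b312 b42 b66 b270 i572 i1545 i2303 (k8 i2432 i1049 i1050 i3015 i1066 b785 b788 b32 (k8 i497 i1312 b790 i1541 b789 b781 i1667 i1320 (k8 b435 b342 b382 b76 b791 b782 b792 i510 (k2 b678 b464 (k1 i2310 k0)))))))) (by decide +kernel)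
def b794 : PP 8 4 T 0x1000000000000000000000000000000000000000000000008100000000008000001 := rS 0xa03 (k2 b286 i485 (k1 b317 k0)) (by decide +kernel)
def b795 : PP 8 4 T 0x401000000000000000004000000004000040000000020050020040115000008000008 := rS 0x67b158e3735844bc5d4e8342a6d (k8 i1699 b314 i1491 i1552 i531 b330 i469 i629 (k4 i1005 b189 b481 i1029 (k1 b427 k0))) (by decide +kernel)
def b796 : PP 8 4 T 0x1000000000000000000000000000000000000000020000020020001081008000010 := rS 0x6f194530cb69f898e46a432c8cc0401 (k8 i962 b317 i1546 i866 i21 b125 b271 b376 (k4 b197 i2552 i371 b795 (k2 b279 i1774 (k1 b482 k0)))) (by decide +kernel)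
def b797 : PP 8 4 T 0x1100000000000002000000000000000000000000000014020000000000008000000 := rS 0xab11 (k2 b370 i2551 (k1 b345 k0)) (by decide +kernel)
def b798 : PP 8 4 T 0x1000000000000001008000000000000041000500020501000000004001008005008 := rS 0x3d460f28d8933cb716350c51e3582a75a2e5 (k8 b52 b344 i1552 b9 b125 b349 i1003 b473 (k8 b335 i1963 b36 b330 i1964 b414 b120 b697 (k1 b92 k0))) (by decide +kernel)
def b799 : PP 8 4 T 0x20001000000000000005000000000001000401001500020500000000000000008000000 := rS 0xf69f (k2 b3 b92 (k1 b698 k0)) (by decide +kernel)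
def b800 : PP 8 4 T 0x1000000000000081008000000000000004500000000000000005000015558000000 := rS 0xfea55f2f68abb5b50d42a360a9e9e2b3ead620e5 (k8 b52 b432 b277 b65 i371 b135 b18 b56 (k8 b423 b94 b624 b706 i1944 b70 i1988 b409 (k2 i1451 i1723 (k1 i2030 k0)))) (by decide +kernel)
def b801 : PP 8 4 T 0x1000000000000001100000000000000409800004000000000040000000000060020000001008012000 := rS 0x57acdfa6c58948d6ad28914b34f3483cbe2b2b9f56b1011954eee51a8846602 (k8 i788 i2068 i2544 b125 b52 b640 i791 b276 (k8 b432 b277 b65 b11 i371 i904 i338 i1829 (k8 b135 i866 i22 b631 i1493 i467 i2037 i1299 (k4 b308 b326 i661 i593 (k1 b395 k0))))) (by decide +kernel)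
def b802 : PP 8 4 T 0x1000000000000001100000000000040009001000540000010010000000014060020010000008005000 := rS 0x515694ce009172bc5a93092cd6316231a8624b0090c16553b88466023faf596b94aaae84e508bc07a3f (k8 i375 i1959 b408 b78 b52 b428 b104 b424 (k8 b422 b79 b62 b337 i788 i2068 i2544 b640 (k8 i791 b386 i21 i445 i51 i1003 b473 b341 (k8 b335 i1966 i633 i210 b7 b170 i1920 i2033 (k4 b215 b399 i827 b694 (k2 i1359 i2037 k0)))))) (by decide +kernel)
def b803 : PP 8 4 T 0x1100000000000040009008000540000000000000040000020020000001008000000 := rS 0x26d3239548bc5ab045acce20803bf55e6c292fcd6ad2883022377810c8a5968d3cd20f2f8acae553b8d4663f1eb2d564f44a80ff425a9f620e51088c3e020ed152e73 (k8 i2580 i1902 b70 i2543 i788 b51 b276 i2544 (k8 b52 b432 b65 b277 b428 b337 i2030 i279 (k8 i2546 b104 b79 i1959 i375 i2068 b125 b640 (k8 i791 b11 i371 i904 i338 i1829 b135 b344 (k8 i866 i22 i21 b408 b374 b78 b802 b631 (k8 i1493 i467 b801 i2037 b308 i594 b326 i453 (k8 i827 i2556 i661 i555 b395 i1001 b282 i575 (k4 i195 i1826 i1298 b375 k0))))))))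 (by decide +kernel)
def b804 : PP 8 4 T 0x11000000000000000400001010000000000050000000015540000000000008000000 := rS 0x1f8aa (k2 i2037 b108 (k1 b359 k0)) (by decide +kernel)
def b805 : PP 8 4 T 0x1100000000000000009408000000000000040002000000020020000001008002000 := rS 0x53a95a608501495ecb2c99c0a493ead61a4f51af59a512bc4046452a9ddca35108cc04ad (k8 i1493 i788 i2068 i2544 b125 b52 b640 i791 (k8 i22 b276 b432 b11 b631 b370 i1988 i329 (k8 i2548 b101 b277 b65 i72 i261 b623 i866 (k8 i674 i594 b804 i826 i827 b94 i364 i203 (k1 b803 k0))))) (by decide +kernel)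
def b806 : PP 8 4 T 0x1100000000000000009408000000000000040000000000020020000001008002000 := rS 0x4646ecf18190f28b89040b66a36974a28f2289c024368d3d3a85149a41e5f1599c0a492bb34eb1011954eee51a8846602 (k8 i788 i2068 i2544 b125 b52 b640 i791 b276 (k8 b432 b426 b370 b11 i72 i261 b623 i371 (k8 i904 i338 i1829 b142 i1866 i1906 b135 b344 (k8 i21 i445 i2545 i22 b349 b631 i1931 b805 (k8 b308 i1963 i467 b330 b461 b414 b632 i1491 (k4 i2678 i1956 b799 b441 k0)))))) (by decide +kernel)
def b807 : PP 8 4 T 0x1100000000000000009408000000000000040000000000020020000001008000000 := rS 0x28ab4a670048b912a669a5596a5a12ec5ab94984966ab58c588c6a088c41a0f2c92c02430e82c3f4f3381492573ead4aa771a8ce8a4f51af59b107288c0421 (k8 i2544 i788 b276 b52 b432 b370 i1988 i329 (k8 i2548 b70 i2068 b125 b640 i791 b277 b65 (k8 b11 i72 i261 b623 b135 b51 b386 i2543 (k8 i21 i445 i51 i866 i338 b806 i1003 i1953 (k8 b473 b341 b335 i1966 i586 i634 i210 b7 (k8 b387 b170 i3118 b409 b301 b79 b424 b624 (k8 b803 i2065 i2033 b282 b399 i827 b694 i1359 (k1 i2037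 k0)))))))) (by decide +kernel)
def b808 : PP 8 4 T 0x1100000000000000009008000000000000040000000005120020000001008001000 := rS 0x15a53048b92acba1225a6a040a945b121fa3556b12d918d4be0796402430e9cc161f14a0e8a4f1e89d0e5d51af4225f15b34fab58808c42935cb3e2ce5198d46202 (k8 i788 i1003 b125 i2068 b52 b335 b36 b387 (k8 b7 i2544 b276 b432 b277 b65 b370 i371 (k8 i904 i1953 i1989 i329 i1931 i856 i2545 i1783 (k8 i2548 b70 i151 b142 b51 b386 i2580 i2543 (k8 i21 i445 i866 i338 b807 b473 b341 i1963 (k8 i1966 i586 i1964 i2084 b330 b172 i1451 b60 (k8 i2030 b800 i279 b428 b79 b424 i2033 b282 (k2 i827 b694 (k1 i2037 k0))))))))) (by decide +kernel)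
def b809 : PP 8 4 T 0x1000000000000000009008000000000000040000000005120020000001008001000 := rS 0x12a2f16a9512710401d405265ab608b949ad4ea7d8b4414633728d48659109cc470d27af46202 (k8 i788 i1003 i1989 i2548 b101 b276 i2580 i2544 (k8 i866 i21 b125 b52 i2068 i329 b432 b335 (k8 b65 b426 b277 b7 b387 b808 b118 b145 (k8 b804 i826 i453 i827 i2556 i279 i364 i1001 (k2 b282 b643 (k1 i2033 k0)))))) (by decide +kernel)
def b810 : PP 8 4 T 0x1200000000000001014000000000000000000000000545020020000001008001000 := rS 0x113229644229011ac8e69 (k8 b140 b383 b353 i788 b142 i2544 i866 i22 (k2 b674 b330 k0)) (by decide +kernel)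
def b811 : PP 8 4 T 0x1000000000000000000008000020000000000000000800000020000000008000000 := rS 0xf8242a (k4 i904 i905 i851 i2088 k0) (by decide +kernel)
def b812 : PP 8 4 T 0x1200000000000000001009000000000000050000000005120020000001008001000 := rS 0x2a2d044becd62c41c9435c2552714518bc5aa544b4c1007501490a3521914b227109cc46298693c625d619ad5a69658cc8e02 (k8 i788 b383 i192 b145 b140 b118 b353 b809 (k8 i1931 i1003 i2548 b101 b142 b276 i2580 i2544 (k8 i2545 i866 i22 i21 b125 i1935 b804 i826 (k8 i453 i827 b94 i279 i364 i1001 b282 i200 (k8 b352 b71 b435 i2033 b422 b644 b315 b75 (k4 b370 b811 b689 b810 (k2 b690 i2552 k0))))))) (by decide +kernel)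
def b813 : PP 8 4 T 0x1200000000000001014000000000000001000000000505020020000001008001000 := rS 0x2a2d0448a59138844629011ac8e69 (k8 b140 b383 b353 i788 b142 b276 i2544 i2545 (k4 i866 i22 b689 b810 (k2 b690 i2552 k0))) (by decide +kernel)
def b814 : PP 8 4 T 0x1000000000000012000000000000000000000800400040000000000000008000000 := rS 0x8b46c659c7a (k4 i809 i810 b92 i1815 (k2 i1978 b120 k0)) (by decide +kernel)
def b815 : PP 8 4 T 0x821000000000000002000000000400000000000000000000000001000015558000000 := rS 0x5fd0d68bd51d147cbb3fadd427da78ad068160a95c911 (k8 b370 b432 b430 b346 b60 b33 b376 b329 (k8 b34 b321 b101 b141 i1948 i2031 b58 i407 (k4 i1411 i2030 b425 i1455 (k1 b409 k0)))) (by decide +kernel)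
def b816 : PP 8 4 T 0x11200000002000000000000000010000000000000000000540000000000058004500 := rS 0x28c0eab693f08ead65b041aa5 (k8 b430 b28 b346 b145 b118 b383 b108 b304 (k4 b359 b31 b423 i2027 k0)) (by decide +kernel)
def b817 : PP 8 4 T 0x400000000000000001000000000000000004044000880140000100054000000000000000144008000008 := rS 0x1ed367941c62243978b197c375ed145343 (k8 b98 b142 b122 i1984 i1917 b409 i1719 b4 (k8 i2070 b325 b357 b33 b414 b72 b92 b421 k0)) (by decide +kernel)
def b818 : PP 8 4 T 0x1001000000000000000000000009000000000000000041000000000000000008000000 := rS 0xc6fd (k2 b359 i537 (k1 b342 k0)) (by decide +kernel)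
def b819 : PP 8 4 T 0x1000000000000010000004501000040040501044001540520000000000008000000 := rS 0x264e27b4dc52306346bf55c4f (k8 i790 i2038 b76 i1925 i539 b120 b342 b72 (k4 b92 b334 b133 b421 k0)) (by decide +kernel)
def b820 : PP 8 4 T 0x2021000000000000010000000080000040040401040000000000000000000008000000 := rS 0x7b4dc611a9938add026f (k8 b397 b138 b101 b334 b133 i1924 b120 b72 (k2 b92 b421 k0)) (by decide +kernel)
def b821 : PP 8 4 T 0x21000000000000010000000080000140040401050000000000000000000008000000 := rS 0x1ed371846add026f (k8 b397 b138 b101 i1924 b120 b72 b92 b421 k0) (by decide +kernel)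
def b822 : PP 8 4 T 0x1000000001000000000000000000000000000000000008020000004000008000010 := rS 0xd0e866 (k4 i529 i530 b623 b429 k0) (by decide +kernel)
def b823 : PP 8 4 T 0x801000001001000000044000000000000000000000500015000000000004008020000 := rS 0x62d3d986d43974be5b (k8 i1757 b39 b22 b0 i476 b614 b329 i1791 (k1 b381 k0)) (by decide +kernel)
def b824 : PP 8 4 T 0x1000000000000000400001010010000000010000000015500008000000058020080 := rS 0xfeab862c89ed3 (k4 b31 i1221 i1419 b304 (k2 i2286 b141 (k1 i2037 k0))) (by decide +kernel)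
def b825 : PP 8 4 T 0x400000000000000001000000000000000001041000150000004010000000000000008000001558000000 := rS 0xbfa19f97b45 (k4 b58 i1411 i2030 b337 (k2 i1723 b409 k0)) (by decide +kernel)
def b826 : PP 8 4 T 0x1000000001000000000000000000000000000000500555420108000004558100100 := rS 0x13d6eaf5e2fd48bb51acc0ecb289b018b53eb3620ad608969ec66184162a178d147a8715a0d0312 (k8 b330 b60 b33 b376 b0 i20 b58 b119 (k8 i402 i1293 b603 i1952 b823 b53 i410 i1694 (k8 b191 b432 b370 b65 b277 b689 b614 b631 (k8 i2289 b824 i473 i1648 i1682 b825 i1452 i415 (k4 i594 i1988 b210 i2038 k0))))) (by decide +kernel)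
def b827 : PP 8 4 T 0x801000000000000001008000000410000004000000000000000005000055558000000 := rS 0x10d69ad90283 (k4 b33 b60 i2031 b800 (k2 b101 b304 k0)) (by decide +kernel)
def b828 : PP 8 4 T 0x1000000000000001008000000410000004000000000500120005000055558000000 := rS 0x435a6b640a0cb513 (k8 b827 b330 i2553 i1810 i2031 b800 b101 b304 k0) (by decide +kernel)
def b829 : PP 8 4 T 0x1000000000000000000000040a00000000000002000000000000000000008000440 := rS 0xaa7e02574d3 (k4 b18 i368 i203 b431 (k2 i1681 b359 k0)) (by decide +kernel)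
def b830 : PP 8 4 T 0x400000000000000001000000000000000000080000200000000000001100000000000000000008000080 := rS 0x6a57c1418ca (k4 i1379 i1380 b145 i2277 (k2 b308 i1946 k0)) (by decide +kernel)
def b831 : PP 8 4 T 0x1000000000000000044000000200000004000000100000000000000041008004008 := rS 0x118904cd6f1621550acd3bc40b23511854522768884805719b940a4c (k8 b44 i65 b430 i2067 b822 b354 i2544 b344 (k8 b529 b142 b314 b134 b125 i866 b432 b640 (k8 b370 b64 i791 i2032 b297 i1790 i1803 b325 (k2 b823 b439 k0)))) (by decide +kernel)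
def b832 : PP 8 4 T 0x1000000001000000064000000000000000000000100005000020000054008104000 := rS 0x16421122384cd6f1 (k8 b297 i1790 i1803 i1535 b325 b439 i867 b823 k0) (by decide +kernel)
def b833 : PP 8 4 T 0x1000000000000000000488000008000000000044000000000000000000008000000 := rS 0x11538a51330d (k4 b101 i1113 i1685 i802 (k2 b435 b413 k0)) (by decide +kernel)
def b834 : PP 8 4 T 0x101000000000000000514088001200000400050040010004420000045100008000000 := rS 0x4a98e28714c8e13e6f67ae5569d338d5f8cc3b94526b427c3686e563a8d7ea7 (k8 i367 i1452 i115 i1679 b430 b301 b101 i2548 (k8 b315 i1369 i1398 i2563 i886 b108 b131 b695 (k8 i1910 b359 b644 i1951 i1399 b833 b427 i1936 (k4 i802 b413 b55 b435 (k1 b165 k0))))) (by decide +kernel)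
def b835 : PP 8 4 T 0x11000000000000000014090000200010000000014000000420020010040008000000 := rS 0x34894191043c14c8cb2c9acda4757aac12637e4509ec751874e65f0795d92670292526553bb944233548bc0451 (k8 i528 i788 i365 i1084 i2067 i2544 b430 b640 (k8 i791 i1365 i72 i261 b623 i1122 b822 b403 (k8 i904 i2580 i2543 i115 i1679 i789 b413 b108 (k8 b55 b291 b359 b76 i208 i1681 i1946 i867 (k8 b559 b165 b9 b476 b345 b341 b320 i1495 (k1 b831 k0)))))) (by decide +kernel)
def b836 : PP 8 4 T 0x1000000000000084054004000005000000100000000400020005015054018000008 := rS 0x131c1706e5b89bc1041f (k8 b51 b706 b767 b33 i2553 b374 b330 b427 (k2 b253 i194 k0)) (by decide +kernel)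
def b837 : PP 8 4 T 0x101000000000000080414080000205000000100020000000420024010054008000000 := rS 0x7a1b2d86265821648ec71ea8c3a734797cfa1f2b81492c92aaa45ecf5c8b4fe77728846602 (k8 i788 i2067 i2544 b430 b640 i799 b128 b644 (k8 i1951 i365 i1084 i791 i1122 i72 i261 b822 (k8 b51 i1325 i904 i2597 i2580 i2543 i115 i1788 (k8 i1679 i209 i867 b345 b9 i1002 b836 b834 (k2 i801 i1775 k0))))) (by decide +kernel)
def b838 : PP 8 4 T 0x11000000000000000800000000200000000000000000005500020000000118004000 := rS 0x43f08c4f (k4 i1390 b559 b108 i208 (k1 b291 k0)) (by decide +kernel)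
def b839 : PP 8 4 T 0x1000000000000080414080000205000000100020000000420024010054008000000 := rS 0x10acd12a1e207f11b1d4677728846602 (k8 i788 i2067 i2544 b430 b640 i115 i1679 b134 (k4 i799 b837 i1683 b320 (k2 b370 b64 (k1 i2032 k0)))) (by decide +kernel)
def b840 : PP 8 4 T 0x11000000000000080014080000205000000100004000000420024010054008000000 := rS 0x2522871659443a730795c0a492a9dc42b9168cc04e5 (k8 b430 i788 i2067 b128 b644 i2544 b640 i791 (k8 i72 i261 b822 b403 i2580 i2543 i528 b838 (k4 b839 b413 b835 b435 k0))) (by decide +kernel)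
def b841 : PP 8 4 T 0x11000000000000000514090011210004000110048040415540000000054108000000 := rS 0xca95821d50d1036a144a61559f9f8637288d8ea338b356a6b (k8 i1947 i1399 i1949 i77 i115 i1679 b134 b430 (k8 i1319 b108 b804 b359 b137 i842 i1670 i1681 (k4 b432 i2032 b426 b476 (k2 b643 b9 (k1 i2040 k0))))) (by decide +kernel)
def b842 : PP 8 4 T 0x11000000000000000414080000210000000100008000000020024010054008000000 := rS 0x11182890d0852dad9328736a0d5e5d30aac12502c9ac8e23638f546a7229cd5a0f3e95d92670292526553b885522f299c49e972597d9ab55c8b5a41f0e8cc04e5 (k8 b430 i788 i2067 i2543 b51 b304 b128 b644 (k8 i1399 i1949 i904 i51 b607 i1272 i77 i826 (k8 i365 i1084 i2544 b640 i791 i1365 i72 i261 (k8 b623 i1122 b822 i1325 b403 i1286 i2580 b270 (k8 i367 i115 i1788 i1679 b134 i209 i1947 i867 (k8 b841 i1309 i497 i1312 b629 i2350 i1438 i1681 (k8 b686 b605 i2031 b628 i1935 b614 i2032 b140 (k2 b320 b345 k0)))))))) (by decide +kernel)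
def b843 : PP 8 4 T 0x11000000000000000800000000200000000000000000005400120000000118004000 := rS 0x51 (k2 b567 b838 k0) (by decide +kernel)
def b844 : PP 8 4 T 0x1000000000000080000480000008000000100004000000020025000054008000000 := rS 0x2265b2ea091a795ba69281d3997c3e02 (k8 i788 b51 i904 i2580 i2543 i1685 i1686 b833 (k4 i1073 i2708 b706 i532 (k2 i794 b33 (k1 b330 k0)))) (by decide +kernel)
def b845 : PP 8 4 T 0x1000000001000000010000000002000000000000000000000000014000008000000 := rS 0x6317 (k2 b313 i1511 (k1 b335 k0)) (by decide +kernel)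
def b846 : PP 8 4 T 0x11000000000000000014080000210000000100000000000020024010054008000000 := rS 0x13e6f1ea8d7e9d6907d96532a9dcae3372814920f010843a45 (k8 b270 i2543 i2544 i788 b403 i72 i261 b430 (k8 i2067 b822 b640 i791 i826 b843 b51 b304 (k4 b845 i1452 i115 i1788 (k2 b842 b844 (k1 b840 k0))))) (by decide +kernel)
def b847 : PP 8 4 T 0x1000000000000000000000000000000000200000000080020000000000008000000 := rS 0xf48c (k2 i794 i793 (k1 i3066 k0)) (by decide +kernel)
def b848 : PP 8 4 T 0x1000000000000000014080000200000000200000000000020020010054008000000 := rS 0x248821e0a6b2c9901847180e4d2132e16c6ecf36a7de09959a6e26c7519ccbe012183cae0524954ee214e8cc04e5 (k8 b430 i788 i2067 b845 i2544 b640 i791 i72 (k8 i261 b822 b403 i21 i445 i904 i2580 i115 (k8 i1679 b60 b373 i1335 i1864 b325 i1686 i1682 (k8 i1950 b374 b847 b330 b253 i1850 i194 b427 (k8 i1532 i1003 i1002 i867 i468 b9 b476 b345 (k2 b831 b24 k0)))))) (by decide +kernel)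
def b849 : PP 8 4 T 0x11000000000000000014080000200000000000000000000020024010054008000000 := rS 0x6d2d97514121c27d2acf8a2e4622d349940e6b820dd965943c459af0238916a8969a828ac71ea8d4e1d3997c1e5733814922f2a9dc429d19809ca81 (k8 b848 b430 i788 i2067 b845 i2544 b640 i791 (k8 i365 i72 i261 b623 b822 b403 i904 i2580 (k8 i2543 i367 i115 i1788 i1679 b434 b846 b94 (k8 i279 i881 i363 i2080 b408 i1949 b320 i928 (k8 i867 b559 b374 b345 i1947 i1379 b9 b140 (k8 i1001 i1002 b644 b352 i1951 b435 i1685 b427 (k4 i194 i195 b253 i1884 (k2 i555 b614 k0)))))))) (by decide +kernel)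
def b850 : PP 8 4 T 0x1000000000000000014080000200000000000000000000020024010054008000000 := rS 0x414b26423c4460244fb3c72693c22826372e3c0b71343a08feb750c318e3d51a9c3a5f0090c1e1f2b99c0a492a9dc429d19809ca81 (k8 b848 b430 i788 i2067 b845 i2544 b640 i791 (k8 i72 i261 b623 b822 b51 b403 i21 i445 (k8 i904 i2543 i367 i115 i1788 i1679 b849 b321 (k8 b101 b141 i2031 i1683 b33 i2553 b325 b330 (k8 b374 b253 i531 i532 i1850 i194 i1979 i1076 (k8 b831 b427 b320 i1532 i1002 i867 b9 b345 k0)))))) (by decide +kernel)
def b851 : PP 8 4 T 0x1000000000000000000000000000000000000000200000000020000000208004000 := rS 0x32c5ccec9269d86105 (k8 b140 b82 b87 i2544 i983 i2935 b21 i1548 (k1 b339 k0)) (by decide +kernel)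
def b852 : PP 8 4 T 0x1100001000000000020000000000000000000000040405010020000010008102000 := rS 0x709d1bc662cd0648d44b102c90cca03 (k8 b44 i1492 i21 i461 b345 b320 b125 i464 (k4 b641 b339 b292 i991 (k2 b313 b357 (k1 i1879 k0)))) (by decide +kernel)
def b853 : PP 8 4 T 0x1000000001000000000000000000000000000000280000000000014000008000000 := rS 0x6317 (k2 b85 i2935 (k1 b335 k0)) (by decide +kernel)
def b854 : PP 8 4 T 0x1000001001000000020000000000000001001000000400000020000000008184000 := rS 0x275a2012619d9e771a896205510a3cb2332bc15160c3410c525d (k8 b253 i187 i21 i1803 i1804 i3090 b140 i1583 (k8 i2966 i461 b333 b851 i1489 b345 b320 b125 (k8 b640 i1794 b853 b852 i445 i653 b510 b630 k0))) (by decide +kernel)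
def b855 : PP 8 4 T 0x1000000000000000014000000000000005000000200000000020000041508080000 := rS 0x661644e43149758e15 (k8 i137 i1562 b253 i187 i21 i1798 i866 i2032 (k1 i1831 k0)) (by decide +kernel)
def b856 : PP 8 4 T 0x1000000002000000010000000000000000000000240001020020000000008080000 := rS 0x9c458e50acd8833cb2c9128d486292e9b60ac307b1c2a87029244637088c41a9f6895c6602 (k8 i788 i193 i529 b344 i1566 i1495 i1003 i27 (k8 i1005 b276 i72 i261 i1563 i137 i1562 i339 (k8 i1829 b140 i40 b253 i187 i21 b365 b48 (k8 i1122 i866 i1833 b345 i1831 b64 b487 b484 (k2 b427 b510 k0))))) (by decide +kernel)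
def b857 : PP 8 4 T 0x1000000000000000010000000000000000000000240001020020000000008080000 := rS 0x3845b3d3ac91a919ca3382b0c1ec70a8dc223106a7da202 (k8 i788 b344 i1566 i1495 i1003 i27 i1005 i137 (k8 i1562 i339 i1829 b140 i193 b856 b341 b358 (k4 i1122 b845 i1833 i1887 (k2 b427 i195 k0)))) (by decide +kernel)
def b858 : PP 8 4 T 0x1000000000000000010000000000000000000000200001020020000000008080000 := rS 0x2144b102bb34ea593308d1e022289c86292e884db0506b0c1e87 (k8 i1563 i339 i1829 i1495 b140 i40 i743 b253 (k8 i187 i21 i1798 i22 i788 i2597 b276 b857 (k8 i544 i2963 i1831 i530 b345 b320 b64 b498 k0))) (by decide +kernel)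
def b859 : PP 8 4 T 0x1000000000000000000000000000000004000000280100000020000000008015004 := rS 0x1e6264812b36327b25b9116234e344024732b248a6d82b0c524d (k8 i788 i187 i1829 b140 i40 i22 i121 i75 (k8 i1618 i449 i657 i1623 b571 i1888 b341 b794 (k8 b637 b281 i1909 b48 b348 b527 i1013 b343 k0))) (by decide +kernel)
def b860 : PP 8 4 T 0x401100000000000001014000000002000004000000040100000020000005508000000 := rS 0x6564958b4842f8ac6ec78bc64528f (k8 b349 i187 b281 b313 b280 i1779 b482 i904 (k4 i2032 b330 i1812 i504 (k2 i2957 b339 k0))) (by decide +kernel)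
def b861 : PP 8 4 T 0x10401000000000000004014000000005000002000000200011000100015014408000000 := rS 0x15bc424001b230be4a1c968f0563db1e2305 (k8 b140 b64 i1601 i1895 b345 b343 i1584 i1851 (k8 i1808 i36 i1807 b427 b794 i965 b374 i213 (k1 b325 k0))) (by decide +kernel)
def b862 : PP 8 4 T 0x1400000000000001000001000000000441000110500000000000000200000000401000000008205000 := rS 0xa21f02da6fc04aae0a07 (k8 i640 b140 i1662 i382 b433 b761 b347 b408 (k2 i2027 i406 k0)) (by decide +kernel)
def b863 : PP 8 4 T 0x401000001000000000451080040500440000105004200400002400000000008204000 := rS 0x2615273861c56e8331ac15a3da2d0c1a53 (k8 b332 i1495 b114 b434 i1787 i1560 b862 i1354 (k8 i1296 i1824 i750 b368 b302 i1086 b421 i1826 k0)) (by decide +kernel)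
def b864 : PP 8 4 T 0x1000000000000401000000000000000000004200000440000105004000400002000000000008000000 := rS 0x2615273861c50663 (k8 i1354 i1296 i750 b368 b302 i1086 b421 i1826 k0) (by decide +kernel)
def b865 : PP 8 4 T 0x1000000000000001000001000000000440000114400000000000000200000000401000000008205400 := rS 0x515080ec152b920a09 (k8 i382 b140 b341 b430 b346 i640 b862 i2027 (k1 b98 k0)) (by decide +kernel)
def b866 : PP 8 4 T 0x1000000000000021000001000000000040004104000440000005000200008002420000400018205000 := rS 0xe08344a65a63c05ab5427d39b2d025a539bca245 (k8 i22 b600 i1009 i2196 i1584 i1810 i505 b302 (k8 b34 b321 i1581 i300 b865 b38 i1786 i1346 (k2 i1255 b421 (k1 b709 k0)))) (by decide +kernel)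
def b867 : PP 8 4 T 0x1000000000000401000001000000000040004004000440000005000240008002420000400018205000 := rS 0x24d1314319f12ab916a8d58617eb4816a959139423d39a0a1ab1658d4ee1f4097cb4c118a954e3364a3c4ae4829bca245 (k8 i22 b600 i1009 b140 b341 b48 b349 i504 (k8 b538 i2196 b430 b273 b346 i1584 i36 i1810 (k8 i183 i2982 b131 i505 b864 b866 b368 b438 (k8 i1255 i920 i775 i776 i1086 i300 b304 b293 (k8 i1431 b865 b423 b128 b737 i1558 i1581 i2869 (k4 b342 b2 b71 i2033 k0)))))) (by decide +kernel)
def b868 : PP 8 4 T 0x2000000000000001000000000000000000004000080040000105004000000002000004000008000000 := rS 0x1c4e68969a65069b (k8 b351 b303 b275 b423 i280 b401 b709 b421 k0) (by decide +kernel)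
def b869 : PP 8 4 T 0x2000000000000001000000000000000000140000000000002001000000080000000000080008000000 := rS 0x389cd12d31e28d4ac5608cdc847639bd92232401096014bb4631053db0c9aa7409448a563380c222743834286d2f9a01e552e9016e9941a6c7ebf (k8 b63 b58 b351 b303 b275 i1934 i771 i35 (k8 i1544 i339 i1811 i36 i1604 i772 i641 i1564 (k8 i14 i1757 b314 b859 i1812 i386 b600 i1810 (k8 i2196 i2552 i372 b379 b140 b442 b292 b26 (k8 i637 b794 b317 b348 i2137 i611 i1009 i1601 (k8 i1577 b341 b538 b346 b75 b430 b868 i2036 (k4 b38 i1346 b401 b709 (k1 b421 k0)))))))) (by decide +kernel)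
def b870 : PP 8 4 T 0x1000000000000000000000000000000000002000000080000000000080008000000 := rS 0x4948c22974265f (k8 i36 i213 i35 i386 i1807 i1808 i965 b794 k0) (by decide +kernel)
def b871 : PP 8 4 T 0x1000000000000000000040000000000002000000000080000000000080008000000 := rS 0x3f15ab0a1af288b755c4cd6cd82bc4f6cb2899c222743834da5f3403caa974d9209a1d25914ba2f6391c460400b463079018508056 (k8 i1812 i771 i772 b314 b870 b442 b292 i637 (k8 b317 i2137 i1577 i1601 i2187 i35 i386 b794 (k8 b232 i2552 b348 b72 b26 i1544 i339 i1811 (k8 i36 i1604 i641 i1564 i14 i1757 b859 b600 (k8 i505 b379 b35 b140 i128 i1962 b25 i1661 (k8 i1934 b867 b869 b62 i1834 i1292 b433 b382 k0)))))) (by decide +kernel)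
def b872 : PP 8 4 T 0x1000000000000000000000000000000002000000000080000000000080008000000 := rS 0x5d2958ac17211d8e6f11920084b00a6d2ed18c1e5968106a9c0651079342845201ede3132b2bcda5f2a9760a68 (k8 i1811 b140 i35 i1544 i36 i1604 i3104 i1812 (k8 b25 b35 b379 i771 i386 i772 i2552 i339 (k8 b600 b314 i2196 i641 i1810 i505 b870 b442 (k8 b292 b26 b72 i637 b794 b317 b348 i2137 (k8 i1009 i1601 i1577 b341 b346 b75 b430 b871 (k1 b863 k0)))))) (by decide +kernel)
def b873 : PP 8 4 T 0x1000000000000000054000000005000000000000200009002000140000008000000 := rS 0xcd9e476488c620f0200481051a9dcce0d (k8 i1495 i1623 i2982 b131 b140 b319 b95 b97 (k8 i339 b183 i2137 i611 i1577 i1833 b538 b427 k0)) (by decide +kernel)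
def b874 : PP 8 4 T 0x1100000002000004054000000005000000000000040008000400150000008000000 := rS 0xc91923c6225 (k4 b48 b273 b349 b427 (k2 i504 b538 k0)) (by decide +kernel)
def b875 : PP 8 4 T 0x400000000000001100000001000000401000010100400000104004000080000005100450018148000 := rS 0x38c356c833993e2aa17e349561113825461f (k8 b144 i323 i343 b115 i1757 i580 b428 b433 (k8 b94 b724 b293 b390 i775 b706 b101 i801 (k1 b413 k0))) (by decide +kernel)
def b876 : PP 8 4 T 0x400000000000001000000000000000400000010000000000800000200080000000000000008000000 := rS 0x1faab272c4bf05 (k4 b140 i36 i1296 i775 (k2 i1662 b293 (k1 b433 k0))) (by decide +kernel)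
def b877 : PP 8 4 T 0x400000000000001000000000000040401000000100000000000000000000000000000000008008000 := rS 0x146e5 (k2 b437 i323 (k1 b428 k0)) (by decide +kernel)
def b878 : PP 8 4 T 0x20001000002002000004044000000004000000000000200008000400000000008000000 := rS 0x338e53b051a9dd8a37 (k8 b374 b297 i2982 b131 b140 b281 b107 i1623 (k1 b874 k0)) (by decide +kernel)
def b879 : PP 8 4 T 0x10001000000000000000000000000000000002000000040080000500001015008000000 := rS 0x669d66a7d0e5f2a974b305108d4ee6861b15e11315b3d928f2b08c8043 (k8 b81 b272 i184 i1812 b349 i504 i1871 b872 (k8 b25 b325 b297 i1866 i1811 i2982 b131 b87 (k8 b140 i54 i35 i1544 i36 i1564 b371 i128 (k2 b860 b538 (k1 b861 k0))))) (by decide +kernel)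
def b880 : PP 8 4 T 0x101000000000000000000000000000000400000400280000000000000000008000000 := rS 0xeb17 (k2 b85 i2963 (k1 b294 k0)) (by decide +kernel)
def b881 : PP 8 4 T 0x1000000000000000040000000000000002000000000080000400000014008004000 := rS 0x1c2313a8b6892802132219e32cf478c44ae488a7cbb051a9dcacc30a8dc1ac57844c5668 (k8 i1811 b872 b25 b325 b297 i1495 b374 b404 (k8 i1866 i1812 i2982 b131 b140 i35 b371 b64 (k8 b341 b48 b273 b349 i1871 b878 b880 b879 (k8 b269 b47 b66 b231 i491 b510 b120 b874 (k1 i1813 k0))))) (by decide +kernel)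
def b882 : PP 8 4 T 0x1000000000000000000000000000000000000000000008000840000000008000000 := rS 0x19074200888a59 (k4 i54 b42 i1577 b272 (k2 b109 b571 (k1 i1064 k0))) (by decide +kernel)
def b883 : PP 8 4 T 0x1000000000000000400080000100400002000000000080000000100014008000000 := rS 0x18d6b0d372d9026158aa542a77e349561f66c44fe3d1f84d862f0eb04f6d1008549a8b2ea4d3ac57844c56e55cc58ca4a01b240833220920a670731c8e431a9dcac8356abe8668 (k8 i1811 b114 i3104 i1560 b876 i1812 i2982 b131 (k8 b81 b882 i1561 b881 i542 b140 i502 i501 (k8 i2169 b139 i612 b403 b66 b180 b339 b387 (k8 b437 b872 b25 b325 b297 b845 i1639 i35 (k8 i491 b270 b404 b47 b231 b637 i1519 i863 (k8 b392 i1866 i344 b119 b324 i2997 b64 i128 (k8 i350 i580 b877 b433 b18 b94 b338 b382 (k8 b137 i1809 i2031 b875 b101 i886 i1320 b574 k0)))))))) (by decide +kernel)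
def b884 : PP 8 4 T 0x1000000000000000500008010000004202002000050080418000000000008000000 := rS 0xc6a9559856a6e5893e1acd88abcfe565cc5a0a68 (k8 i1811 b140 b339 b387 i1812 i2997 i3104 b64 (k8 i128 b101 i762 i1824 i1933 i886 i1048 i1662 (k2 i1090 i1320 (k1 b574 k0)))) (by decide +kernel)
def b885 : PP 8 4 T 0x10001000000000000000400080000000000002000000000080000000000014008000000 := rS 0x8a22132805b9cc5aa153a9136833fd0e8aad578dc7a3f17875825349a758ae55cc58ca036481066248299c6a771ca3026c34b9e0f6d100855e11315935164a220398e47219a0ac5d (k8 i35 i1812 i1811 b81 b882 i1561 b881 i501 (k8 b66 i491 b270 b872 b25 b325 b404 b47 (k8 b231 b637 b343 i3061 i1866 i344 b120 i1813 (k8 i2982 b131 i542 b140 i502 i2169 b139 i612 (k8 b403 b180 b339 b387 b437 b297 b845 i1639 (k8 i2386 i1519 i863 b392 b119 b324 b374 i3104 (k8 i1560 b434 b114 i2997 b876 i1074 b883 i367 (k8 i364 i1383 b390 b884 b218 i1864 b375 b300 (k1 b2 k0))))))))) (by decide +kernel)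
def b886 : PP 8 4 T 0x1000000000000000800080000000000002000000000080000000000000008000000 := rS 0x2061a835bad0a04f3ec4caa5d2c9597b45 (k8 b434 i134 i1812 i54 i35 i1544 b25 i1328 (k8 i1390 i505 i506 i1935 i775 b32 i1401 b368 k0)) (by decide +kernel)
def b887 : PP 8 4 T 0x400000000000001000000000000000500008010000000002004040250000408000000000008000000 := rS 0xa87e18d2aab389f16305 (k8 b140 i1824 i1935 i801 i1662 i1598 i488 b433 (k2 b745 b415 k0)) (by decide +kernel)
def b888 : PP 8 4 T 0x1000000000000000000080000000000002000000000080000000000014008000000 := rS 0xc6ab54985605027ad61a805bae4e71650a9ca6c932a91261d1981094c11c9ed36974e99c4844018fc7ac58c039e11388974ff051a9dc56c72395886bda2a0d96ad57d0cd0c3 (k8 i1866 i1811 b114 i3104 i1560 b886 b876 b434 (k8 i134 b81 i1812 b882 i1561 b872 i2982 b131 (k8 b140 i2997 i35 b64 b25 b325 b881 b885 (k8 b297 b324 b119 b403 i501 i502 i542 b281 (k8 b26 b72 b92 b107 i1519 b66 b139 i2169 (k8 i863 i1639 b883 b180 i612 i2386 i367 i364 (k8 b339 b390 b387 b887 b218 b138 i1401 i1276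 (k4 i1810 i1809 i1048 i2313 (k2 i498 i1354 (k1 b574 k0)))))))))) (by decide +kernel)
def b889 : PP 8 4 T 0x1000000000000000000000000000000000000000000400000040000008008010000 := rS 0x5000d109905e236 (k8 b289 b360 i746 i1798 b202 b785 b439 i637 k0) (by decide +kernel)
def b890 : PP 8 4 T 0x1000000000000000000000000000000000000000000080000000000020008000000 := rS 0x7078 (k2 b124 b136 (k1 i3060 k0)) (by decide +kernel)
def b891 : PP 8 4 T 0x1000000000000010000000000000000040000000000000000000200000008040000 := rS 0x11b19 (k2 b107 i1813 (k1 b120 k0)) (by decide +kernel)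
def b892 : PP 8 4 T 0x101000000000000000500010004000044000240000050088008000000000008000020 := rS 0xc6b554ab4c2b02813e1a5d (k8 i35 b138 i1276 i1810 i1809 i1048 i1582 i2313 (k2 i1397 i1354 (k1 b574 k0))) (by decide +kernel)
def b893 : PP 8 4 T 0x1100000000000014400050215005044000000000000000000000000000008000000 := rS 0x2557b424cafd36fd (k8 b382 i1298 i1299 i1826 b433 b62 b424 i2048 k0) (by decide +kernel)
def b894 : PP 8 4 T 0x800000000000001000000000000000500014015000004000100000054080018015000046008000000 := rS 0x106d259a861a1d271b8e2600fa554a29 (k8 b890 b301 b424 i350 i2040 i1280 i1047 i1048 (k4 b117 b397 i755 i2914 (k2 b304 i776 (k1 b706 k0)))) (by decide +kernel)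
def b895 : PP 8 4 T 0x1000000000000000404004015000000000142000244080000215000046008108000 := rS 0x532903a1f509bd827d4d82d28837e50c52e5179ec9a935cc58ca036481067051ca2c945d688042673 (k8 i1097 i344 b47 b231 i35 b66 i491 b891 (k8 b140 i2169 b139 i612 b403 b180 b339 b387 (k8 b7 b270 b637 b392 b437 b890 b894 b433 (k8 b876 b745 b347 i1074 i1598 i1518 i1058 i308 (k4 i351 i863 b875 i2031 (k1 i367 k0)))))) (by decide +kernel)
def b896 : PP 8 4 T 0x401000000000000000000004000000000000100000008080001200000044008000000 := rS 0x14c1f0ec3506a1379409e0b1e8fde0292681c084a (k8 b66 b139 i2301 b270 b890 b325 b119 b324 (k8 i2304 i1351 i487 i1320 i308 i775 b32 i1229 (k2 b144 i2031 (k1 b256 k0)))) (by decide +kernel)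
def b897 : PP 8 4 T 0x1000000000000010000004002000000000100000000080000205100044008000000 := rS 0x83538743ea159a205a0a288a40204 (k8 b139 b47 b890 i2313 i572 i974 i573 i663 (k4 i309 b367 b99 i282 (k2 i776 i2031 k0))) (by decide +kernel)
def b898 : PP 8 4 T 0x1000000000000000400000000000000002002000000080000000000000008000000 := rS 0x2289b37ac904d2388761a1f509f09ca528ab1526339a06227f55add763d1f88c122f24904aa935cc58ca036481066248299c6a771ca2c945d6880488157844c56130731c4e1123958d0432fb0c5297 (k8 i3061 b890 i1866 i36 b81 i1811 i1812 b882 (k8 i1764 b889 i1561 b881 i344 b872 b25 b325 (k8 b404 i501 b47 b231 i35 b66 i491 b891 (k8 i2982 b131 i542 b140 i502 i2169 b139 i612 (k8 b403 b180 b339 b387 b7 i1544 i339 b319 (k8 b392 b312 b284 b119 b324 b888 i1934 i1661 (k8 i2997 b64 b892 i1097 b896 b897 b895 i1314 (k8 i1285 i1582 i1581 i309 i350 b34 i1234 i1360 (k4 b304 b706 i776 i2914 (k2 i1073 b413 (k1 b724 k0))))))))))) (by decide +kernel)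
def b899 : PP 8 4 T 0x10001000000000000000000000000000000002000000000080000000000000008000000 := rS 0xe0808ab494ea14d9bc3b0d4187ce60b30ad0a04f3eaa594973c230aa595baec7a3f048bc0e7b26ae62c6501b24083312414ce353b8e5164a2eb4402440abc2262b098398e270891cac682197d8629 (k8 b890 i1866 i36 b81 i1811 i1812 b882 i1764 (k8 b889 i1561 b881 i344 b872 b25 b325 b404 (k8 i501 b47 b231 i35 b66 i491 b891 i2982 (k8 b131 i542 b140 i502 i2169 b139 i612 b403 (k8 b180 b339 b387 b270 b637 i2301 b392 b312 (k8 b119 b324 b888 i1934 i54 i1544 b120 b343 (k8 i3061 b898 i623 i1328 i1390 i505 i506 i1392 (k8 i2322 i1093 i351 i775 b32 i1229 i1399 i1033 (k4 i308 b256 b304 b724 (k2 i2031 b413 (k1 i1362 k0))))))))))) (by decide +kernel)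
def b900 : PP 8 4 T 0x401000000000000000800014000000440000000000000089000200000042008050000 := rS 0x1c62a806929d426f0ec35061f3982d6850279f552591e8fc122f648cc0e041ca2c945d688042af01489c865f (k8 i36 b81 b889 b890 b325 b404 b47 b231 (k8 i35 b66 i491 b891 b139 i2301 i2169 i612 (k8 b392 b312 b119 b324 i54 i623 i1328 i1390 (k8 i505 i506 i2322 i1093 i351 i775 b32 i1229 (k8 i1399 i308 b256 b304 i2031 b724 i1362 b413 k0))))) (by decide +kernel)
def b901 : PP 8 4 T 0x1000000001000000500054005050004000500000054088018015000446058000000 := rS 0x602528661569bcfaa586299a629 (k8 b890 b706 i2031 b304 i368 b34 b397 i1581 (k4 i1047 b894 i2040 b428 (k1 i1518 k0))) (by decide +kernel)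
def b902 : PP 8 4 T 0x101000000000000000500010005000004000040000054008008000000000488000100 := rS 0x15a615a93e1a88 (k4 b350 b50 i1269 i1396 (k2 i1277 i1582 (k1 b574 k0))) (by decide +kernel)
def b903 : PP 8 4 T 0x101000000000000000500010005060004000040000054001001200000000008000000 := rS 0xc2ad5a9421a4a (k4 b66 b321 i309 i881 (k2 i1314 i1312 (k1 b574 k0))) (by decide +kernel)
def b904 : PP 8 4 T 0x1000000000000000000000000000000002400000000080000000000000008000000 := rS 0xbd4aa65802c0e2fd3e37179353ac572b3c3e0911a85523945b4402151f8f5e06340a8d969b4bc6026c35b8ae26b949c5a0ac9020ccca4a1200c9241338d4ee440731d56bb1489c22472197cfe5634154bb11 (k8 b64 i35 i1544 i1811 i1812 i2997 i36 b81 (k8 b882 i1764 b889 b890 b888 i1661 i1561 b881 (k8 i501 i2982 b131 i542 i339 b319 b403 i502 (k8 b66 b180 i2169 b139 i612 b140 b339 b7 (k8 b387 b25 b872 i1934 i1866 i344 b899 b26 (k8 b72 b900 i323 b892 b896 b325 b324 b119 (k8 b404 b47 b231 i491 b891 b897 b903 b284 (k8 b312 b902 i1833 b437 b297 b845 b270 b392 (k8 b374 b371 i1608 b901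 b99 i863 i980 i979 (k2 i1252 i2048 k0)))))))))) (by decide +kernel)
def b905 : PP 8 4 T 0x1000000000000000000000000000000002000000000080000000000000008000000 := rS 0x1a51405bf4c2b2271bd04a9319e502cb4da5e30395ca4e2c0764a2ccad1248cc084a008bc1213339044844018fc7a155baac1cf05db0c5227638448e2b1ac14fe772a9a0ac5d2197e2711 (k8 b64 b25 i36 b81 i35 i1812 i1811 i1544 (k8 i2982 i2997 b140 b131 b872 b882 i1764 i1561 (k8 b889 b890 i1866 b888 b325 b881 i1661 i1934 (k8 b404 b324 b119 b403 i501 i502 i339 i542 (k8 i344 b312 b392 b47 b66 b139 i2169 b319 (k8 b231 b180 i491 i612 i2301 b339 b7 b387 (k8 b891 b899 b26 b72 b900 b892 b898 b896 (k8 b897 b904 i1440 i775 i776 i1047 b293 i659 (k2 b342 b431 (k1 b724 k0)))))))))) (by decide +kernel)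
def b906 : PP 8 4 T 0x1000000000000000100000000000000042000000140000008200000002008000000 := rS 0x271a316369720a5f07012269f4696cd65967a3cca03 (k8 b286 b180 i1132 i1871 i605 i1869 b905 i1052 (k8 b371 b25 b139 i346 i2432 b283 b330 i1604 (k4 b339 b306 i2042 b313 k0))) (by decide +kernel)
def b907 : PP 8 4 T 0x1000000000000000000000000000000000000000080000008000004002008000000 := rS 0x114020f (k4 i2307 i450 i346 b794 k0) (by decide +kernel)
def b908 : PP 8 4 T 0x1000000000000014100000000004000140000001550000000000000000008000000 := rS 0x9c (k2 i2042 b510 k0) (by decide +kernel)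
def b909 : PP 8 4 T 0x1000000000000000100000000000000002000000100000008100000002008000000 := rS 0x1a26d2e22c525f02902269f2690d1a5b359659e650199c668f (k8 i1132 i287 b907 b286 b180 i1871 i605 i1869 (k8 b905 i1052 b436 i51 b371 b25 b272 i485 (k4 b502 b486 b480 b330 (k2 i1604 b306 (k1 b908 k0))))) (by decide +kernel)
def b910 : PP 8 4 T 0x1000000000000000100000000000000002000000100000008000000002008000000 := rS 0x4e458f5054503888650199c668f (k8 i1132 i287 b907 b286 b180 b909 i346 b906 (k4 b283 i492 b339 i1895 (k1 b313 k0))) (by decide +kernel)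
def b911 : PP 8 4 T 0x1000000000000000100000000000000002000000000000008000000002008000000 := rS 0x3a8380a403b9508b162bc14d067328ce225b0190cb28f (k8 i1132 i605 b436 b286 b905 b64 i287 b180 (k8 b907 b910 b140 i1584 b339 i347 b345 b21 (k4 b272 i485 i764 i1539 (k1 b558 k0)))) (by decide +kernel)
def b912 : PP 8 4 T 0x1000000000000001000001000000000501010145500014000000000055000000404015400008000040 := rS 0xd2160f512a35945158fd (k8 b165 i2040 b342 b395 i1553 b2 i1253 i2033 (k2 b408 b128 k0)) (by decide +kernel)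
def b913 : PP 8 4 T 0x1000000000000001000001000000000441000105500060000000000200000000000001400008205000 := rS 0x88698f05aad8ad0e0a47 (k8 i383 b140 b424 b435 i1558 i978 b862 b761 (k2 b352 i1346 k0)) (by decide +kernel)
def b914 : PP 8 4 T 0x1000000000000001000001000000000440010104500054000000000218000008000015400008205040 := rS 0xf1102d5682e2a47 (k8 i383 b55 i2304 i1353 i1237 b161 b865 i1346 k0) (by decide +kernel)
def b915 : PP 8 4 T 0x1000001000000000541010105500440000800000251000008000011400008205040 := rS 0xf47ed30e8b0e28951c5158fd31a568a9319c5a0a47 (k8 i383 b140 b339 b80 b7 b303 b913 b914 (k8 b165 i2040 b342 i1553 b2 b334 i2033 b117 (k4 b128 i1423 i1255 b408 k0))) (by decide +kernel)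
def b916 : PP 8 4 T 0x1000001000000010541010505500040100000000255000000004011400008205040 := rS 0x4ad15309319c5a0a9b8c22c8eaf (k8 i588 i383 i1888 b120 b72 b140 b339 b80 (k4 b7 i2041 b275 b913 (k1 b912 k0))) (by decide +kernel)
def b917 : PP 8 4 T 0x101000000000000000401001004100000000040000018000008400000000408005140 := rS 0x10d511415a0b (k4 i2304 i1353 i487 i2027 (k2 b32 b579 k0)) (by decide +kernel)
def b918 : PP 8 4 T 0x401000001000000000541011005100040100140000255200008000001081008205000 := rS 0x3e43142a3a28f9661d418d44277118ce2d0558add371868a2c3e2f5381c0844 (k8 i509 b139 i2301 i2198 b392 i390 i1888 b306 (k8 b120 b72 i3109 i1847 b140 b339 b80 b106 (k8 b21 b87 b125 b915 i900 i514 b916 b58 (k4 i406 i403 b368 i2030 (k1 b34 k0))))) (by decide +kernel)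
def b919 : PP 8 4 T 0x1000000000000000500010001000040002100000210004008000000004008000000 := rS 0xa33ea861a1d271b8e2603181c080923910821f0a0a9e2111b0a54a0f628c582397231c1ac35884da22310aad6a5c199dd3a548b22e0b1388a7c9a594696d9e8f1a894fe67 (k8 i489 i1670 b911 b125 i1132 i1871 b905 i1052 (k8 i605 i51 b371 b64 b25 b140 i1888 b339 (k8 b345 b313 b21 b80 i1544 i768 i1657 b87 (k8 b106 b306 b253 i1847 i3078 i1489 i1601 b432 (k8 b891 b346 b273 b75 b437 b430 b136 b427 (k8 i1763 b374 b325 b439 i390 i378 i509 i383 (k8 i382 b139 i2301 b917 b918 i1280 i1047 i1048 (k4 b117 b397 i755 i1274 (k2 b579 b211 k0))))))))) (by decide +kernel)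
def b920 : PP 8 4 T 0x1000001000000000100000000000000002000000110004008000000004008200000 := rS 0xb844680a8828b14c4d3e434696cd65967a3cce6d (k8 i1603 i489 i1132 i1871 i605 i1869 b905 i1052 (k8 b436 b371 b25 b57 b417 i378 b325 b908 (k2 b272 i386 (k1 b306 k0)))) (by decide +kernel)
def b921 : PP 8 4 T 0x1000000000000020000000000000000002000000000000000040000000008100000 := rS 0x822b229786e002ec66265b (k8 b905 b25 b292 b306 b231 i991 b330 b47 (k2 b482 i904 (k1 b272 k0))) (by decide +kernel)
def b922 : PP 8 4 T 0x1000001000000000100000000000000002000000110004008000000004008000000 := rS 0x2b149e914d10ac4d3e434696cd65967a3cce6d (k8 i1603 i489 i1132 i1871 i605 i1869 b905 i1052 (k8 b436 b371 b25 b920 b921 b908 i492 b307 (k2 b379 b325 k0))) (by decide +kernel)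
def b923 : PP 8 4 T 0x1000000000000000500010001000040002100000010004008000000004008000000 := rS 0x1ac3020a4027a6284d14d108855e04707c10aa6988a7c06434696cd65967a3cce6d (k8 i1603 i489 i1132 i1871 i605 i1869 b905 i1052 (k8 b436 b286 b371 b64 b919 i1543 b345 b283 (k8 b383 b922 b404 b78 b921 b908 i1882 b297 (k4 i492 i451 b307 b317 (k2 i1866 i2302 (k1 b536 k0)))))) (by decide +kernel)
def b924 : PP 8 4 T 0x411000000000000010000004101420040140100000001000000200000000008000000 := rS 0x26288af5998d06500526e302f (k8 b392 b120 b72 i308 i309 i920 i534 i660 (k4 i500 b368 i2041 b275 k0)) (by decide +kernel)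
def b925 : PP 8 4 T 0x1000000000000010000000101400040140000000001000000000000084028200040 := rS 0xb357a64c63c1f8b13718 (k8 b120 b72 b99 i1422 i901 i1237 i981 i588 (k2 i1253 i2041 k0)) (by decide +kernel)
def b926 : PP 8 4 T 0x411000000000000050000004101400040140100000001000000200000000058000000 := rS 0xa1 (k2 b924 b304 k0) (by decide +kernel)
def b927 : PP 8 4 T 0x401100001000000050441001005100040140140000201200008200000005508205040 := rS 0x1ed1416987e2bd5b43512ccc6a13e946181d58add37181791d4e1f150a47213 (k8 b253 b891 b136 b325 i390 i2198 b42 b392 (k8 b120 b72 i3109 i1847 b925 b926 b32 b34 (k8 b321 i487 i513 i2030 b98 i1553 i1927 b433 (k4 i2041 b347 b275 i1786 (k1 b865 k0))))) (by decide +kernel)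
def b928 : PP 8 4 T 0x1000000000000000500010001000040002100000000004008000000004008000000 := rS 0xa1868749c6e38981a61f03904541402111e211008d852a507b1462c11cb918ec309a2c46ab5a9a0b89d19884a87406b460a6489c453e0326a34b6cf478d44a7f (k8 i1670 b911 b125 i1132 i1871 b905 i1052 i51 (k8 b286 b371 b64 b25 b923 b9 i1166 i1492 (k8 i1049 i1050 b394 i2945 i2946 i1544 i1543 i768 (k8 i1657 b106 i1887 b253 i3078 i1601 b432 b891 (k8 b346 b273 b75 b437 b430 b136 b427 i962 (k8 i1763 b374 b794 b317 b439 b325 i22 i2301 (k8 i390 b793 b927 i1280 i1047 i1048 b117 b397 (k2 i755 b304 k0)))))))) (by decide +kernel)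
def b929 : PP 8 4 T 0x1000000000000010100000000000000042000000000008008000000000008000000 := rS 0x3b9993a6d8c17d3e8d359659e8f3496cca49 (k8 i29 i1580 b905 i1584 i1132 i1871 i605 i1869 (k8 i1052 b371 i645 b120 i1604 b281 b908 i1631 (k1 i490 k0))) (by decide +kernel)
def b930 : PP 8 4 T 0x1000000000000020000000000000000002000000000000000040000000008000000 := rS 0x22904525e0a176265b (k8 b905 b25 b306 b921 b330 b57 i378 i644 (k1 b272 k0)) (by decide +kernel)
def b931 : PP 8 4 T 0x1000000000000000100000000000000002000000000008008000000004008000000 := rS 0x3141a11780118637158a4267a0aa281e4734c4cb603269acb2253697da243 (k8 b436 b930 i645 i1604 b911 i605 i1869 i51 (k8 b286 b905 b25 i1584 b882 i502 b929 b417 (k8 i492 i1882 b307 b379 i1775 i1866 b480 b325 (k4 i524 i2302 b297 b536 k0)))) (by decide +kernel)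
def b932 : PP 8 4 T 0x1000000000000000100000000000000042000000140000008000000000008000000 := rS 0x642aa7d1a5b359659e8f3697da243 (k8 b436 b930 i645 i1604 i1132 i1871 i605 i1869 (k4 b905 i1052 b371 i1543 (k2 b908 i1050 k0))) (by decide +kernel)
def b933 : PP 8 4 T 0x1000000000000004000000000001000002000000200000000000104001008140000 := rS 0x1e03608b1462e411c453e356188452c7 (k8 i1562 b136 i1504 i1866 b125 b371 b64 b106 (k4 b432 b273 b75 i1763 (k2 b427 b439 (k1 b374 k0)))) (by decide +kernel)
def b934 : PP 8 4 T 0x101000000000000000000000000000000400000400000002000000008000008000000 := rS 0xeb17 (k2 b80 i2945 (k1 b294 k0)) (by decide +kernel)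
def b935 : PP 8 4 T 0x11000000000000000511410041501540002000110240000008000001000008204000 := rS 0x1bd102d5182da41f1f93960aa1eab68b435d24d2a658b27ce6cf1a8945e638283426bd5abc48ec7118cca87747c44120722170bed12196e261d (k8 b117 b25 b905 b436 b930 i645 b330 i509 (k8 i480 b312 b64 i1132 i1631 i1850 b934 b106 (k8 i1601 i383 b404 i768 i1872 b253 i1496 b140 (k8 i488 b399 b911 b125 i1871 i1093 b371 b294 (k8 i1049 b643 b7 i2048 b114 b434 i1560 i1787 (k8 b745 b862 i1658 i1293 i1269 b408 b311 b423 (k4 b128 i2033 i1317 b744 k0))))))) (by decide +kernel)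
def b936 : PP 8 4 T 0x1000000000000010000000441000540140000000004040201000000000008000000 := rS 0x16261 (k2 i1312 i1316 (k1 i2041 k0)) (by decide +kernel)
def b937 : PP 8 4 T 0x1000000000000000500010001000040002000000000000008000000004008000000 := rS 0x2ad5aa305879425169990e807048114a0f628c582440091c82e46385046335f834a9053429c427714a74728b318755e993d9c5669b86a00ce132b970bed112b3ce65347a34864901c4e225b (k8 b905 b64 b25 b286 i29 b436 i1052 i1132 (k8 i566 i1093 i1871 b911 b930 i645 b330 b931 (k8 b253 i489 b928 b138 b373 i1335 i1362 i1893 (k8 i1864 i1862 b117 i488 i492 b891 b510 b136 (k8 i1631 i1504 i1859 b932 b140 i1850 i1496 i1568 (k8 b934 b106 b933 i1601 b432 i378 i383 i637 (k8 i509 b346 b273 b75 b437 b430 b317 b312 (k8 i480 b935 i1539 b793 b936 i309 b304 b367 (k4 i240 b694 b721 i2027 k0))))))))) (by decide +kernel)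
def b938 : PP 8 4 T 0x20001000000000000000000000000010100000200050000000002005040000048100000 := rS 0x37c5510d286a6c5e1d (k8 b117 b399 b373 b138 b304 b717 b754 i1317 (k1 b413 k0)) (by decide +kernel)
def b939 : PP 8 4 T 0x101000000000000000000000000000000000000400000000002000000000008002004 := rS 0x64 (k2 b597 i1492 k0) (by decide +kernel)
def b940 : PP 8 4 T 0x1000000000000000004000000000000002000001100010000020000000408051000 := rS 0x15e0a4607956226b62bc02a5b (k8 b905 i378 b439 b297 i1869 b64 i1543 i339 (k4 b536 b383 i1577 b345 k0)) (by decide +kernel)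
def b941 : PP 8 4 T 0x1000000000000000000000440400000000000000000240200100000000008110100 := rS 0xb0 (k2 b514 i1316 k0) (by decide +kernel)
def b942 : PP 8 4 T 0x1002000000000010000000441000540140000000004000000000000000008000000 := rS 0xc2b1 (k2 b382 b137 (k1 i2041 k0)) (by decide +kernel)
def b943 : PP 8 4 T 0x401001000000000000000000440000000200000000000040200000000000008000000 := rS 0x20482e17c121f0a9014e45a212d6243 (k8 b238 i1316 i1052 b395 b66 b122 b272 i378 (k4 b569 i1309 b513 b330 (k2 i1846 b941 (k1 b725 k0)))) (by decide +kernel)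
def b944 : PP 8 4 T 0x20001000000000000000000000000010100000200010000000002001000000048110000 := rS 0xd9e03f098107273 (k8 b390 b107 b97 i266 i1332 b439 b938 b374 k0) (by decide +kernel)
def b945 : PP 8 4 T 0x1000000000000000100000000005000401005100600410002000000000008000000 := rS 0x6699d0f05 (k4 b140 i1564 i1623 i1831 (k1 b506 k0)) (by decide +kernel)
def b946 : PP 8 4 T 0x1100000000000080000010000000014010000000040000000400010400008004021 := rS 0xa4720c4660d60a8c5ac9 (k8 i611 b128 b423 b56 i521 b538 b183 b341 (k2 i2033 b430 k0)) (by decide +kernel)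
def b947 : PP 8 4 T 0x1100000000000080404051205405054000200108000000002400010400458004000 := rS 0x6331448bd52b359cbfa11f55b17330fc020410b45fa3d60a8d1e89 (k8 i1317 i1134 b423 b56 b38 b382 b278 b127 (k8 b97 b95 i1332 b946 b85 i1621 b660 b433 (k8 i1299 b893 i1975 b301 b62 b624 i1794 i2036 (k1 i411 k0)))) (by decide +kernel)
def b948 : PP 8 4 T 0x1000000000000000001010010045000005005408080000202100000000008200000 := rS 0x2941a3162b399b108b9346a046190086752b83c548f (k8 i1134 b230 b743 b600 i1011 b238 b272 i2219 (k8 b97 i2210 i72 b85 b695 b370 b388 i1794 (k4 i989 i642 b171 b677 k0))) (by decide +kernel)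
def b949 : PP 8 4 T 0x1000000000000000000010000000040000200008100080206000000000008000000 := rS 0x6317673358ea40699cee8756956088f0ea4c5eb5658fc6a23538a50ac151a753ec355a54ea57078a8e6bb23852307b3c8f542d27e81e1a0b0487c8045218462699582a40871 (k8 i1359 b97 i2313 i1809 i1826 b60 b725 b238 (k8 b66 b272 b569 i1309 i493 b32 b749 b382 (k8 b431 b94 b38 i1808 i1893 b343 b944 i384 (k8 i1827 b390 b230 b743 b600 i1011 b643 i497 (k8 i2219 b3 b281 b423 b56 b905 i2138 i1859 (k8 i2137 i2210 i1332 b567 i1397 b399 b671 i1230 (k8 i1134 b947 b30 b118 i777 i751 b948 i521 (k4 i2027 i414 i889 b388 (k2 b36 i989 (k1 b171 k0)))))))))) (by decide +kernel)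
def b950 : PP 8 4 T 0x11200000000000000500010005000004000000154041000000000000000008000000 := rS 0x634ac50caad (k4 b118 b9 b413 b643 (k2 b55 i2040 k0)) (by decide +kernel)
def b951 : PP 8 4 T 0x1001000000000000000400010014025014025005500000000000400000080008005540 := rS 0x19ecd47c598e7ea1a9146c1 (k8 i1344 i281 i2027 b301 i364 i2243 b268 b67 (k2 i889 b36 (k1 b388 k0))) (by decide +kernel)
def b952 : PP 8 4 T 0x1000000000000000000000000225000005005500000000000000000080008000000 := rS 0xcea73351f11639f84913 (k8 b376 i363 i364 i2243 b320 b67 i889 b402 (k2 b388 b412 k0)) (by decide +kernel)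
def b953 : PP 8 4 T 0x1001200000000000000400010004020004020000100040000002000000000008204540 := rS 0x28a3f4c2f19ccd4789544a54a0f52f18439e50a9d4f9ed4e2a2d22de24b68914806523ab4ee5506811a6c1 (k8 i1344 b94 b97 i521 b30 i751 b118 b383 (k8 b9 b319 i22 b278 i29 b404 b417 i378 (k8 b230 i330 i754 b626 b510 b905 i1808 i777 (k8 b442 b26 i1346 b951 b952 i2027 i2162 b349 (k4 i888 b388 i1105 i1104 (k2 i1411 b275 (k1 b408 k0))))))) (by decide +kernel)
def b954 : PP 8 4 T 0x4001000000000000001000000000120000401000180550100002000000040008010000 := rS 0x289fd24c051b08ae25659541f103ec10a65f10914b22911834eeb5442ad5afc0593da607388bc810d0491c08c9 (k8 i1124 b97 i265 i2139 b321 b319 i2187 i796 (k8 b749 b94 b323 i301 b431 b405 b721 b401 (k8 b285 i752 i521 i2137 i2138 b534 i22 b127 (k8 b363 b332 b339 b660 b294 b283 b30 b145 (k8 b320 b11 b690 i2163 i2027 i1344 i1515 b671 (k1 b804 k0)))))) (by decide +kernel)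
def b955 : PP 8 4 T 0x1000000000000001000000000120000400000180050080002000000040008000000 := rS 0xcb36152268667c58d26b2f964ee832ea1422273c92d3e9d459ed5e6f58bf1a60903a20e22f0202c9e4520435a2c9 (k8 i1124 b278 b321 b319 i22 b323 i301 b97 (k8 i2187 i796 b401 b749 i2139 b94 b431 b382 (k8 i58 b76 b662 i1883 b510 b626 i29 i1808 (k8 b86 i1757 b905 i35 b438 i752 b534 b363 (k8 i1962 b945 b954 b36 b388 b0 i777 b686 (k2 b505 b751 k0)))))) (by decide +kernel)
def b956 : PP 8 4 T 0x11000000000000012000001150000000060000000000002000400000000008110540 := rS 0x1fe86bd652c87aa7780e4267d369aa2287 (k8 i129 b370 i770 i1697 i1541 i1961 b891 b439 (k8 i282 b324 b464 i633 i1414 b79 i849 b315 k0)) (by decide +kernel)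
def b957 : PP 8 4 T 0x1000000000000000000000000120000400000180050080002000000000008100000 := rS 0x5782b281e5551b0466938b44598d12c834eeb555ab48e11138ad167b579bd62fc698240e88388bc080b27914810d (k8 b321 b319 i22 b323 i301 b97 i2187 i796 (k8 b401 b749 i2139 b94 b431 b382 i58 b76 (k8 b662 i1883 i772 b86 i1757 i265 b405 b721 (k8 b285 i752 i521 b534 b278 b955 b370 b294 (k8 b7 b80 i1344 i280 b956 i339 i2027 b145 (k2 i506 b345 k0)))))) (by decide +kernel)
def b958 : PP 8 4 T 0x1000000000000000000001014100000820000000000000000420000000008001540 := rS 0x1046528dca0f608906431 (k8 b327 b333 b349 i1345 i2167 b298 i325 i2027 (k2 b341 b145 k0)) (by decide +kernel)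
def b959 : PP 8 4 T 0x1100000000000002000000000000000000000000000054000000000000008000000 := rS 0xab11 (k2 b370 i769 (k1 b345 k0)) (by decide +kernel)
def b960 : PP 8 4 T 0x1000000000000005004000000021000401000180040041002000000001008110000 := rS 0x1169e3621cf3122e97c5223069dd067b579bd62fc698240e88388bc080b27914810d (k8 b321 b319 i22 b323 i301 b97 i2187 i796 (k8 b401 b749 i2139 b94 b431 b382 i58 b76 (k8 b662 b438 i752 i521 i2137 i2138 b363 b722 (k4 b330 i1013 b646 b527 (k2 b388 i555 (k1 b508 k0)))))) (by decide +kernel)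
def b961 : PP 8 4 T 0x1100000000000004010000000021000400000180040045002000000001008104000 := rS 0x2282085881344e211488d860d669640840 (k8 b319 b97 b534 b959 i521 b700 i2137 i2138 (k8 b127 b86 i72 b345 b64 b960 i523 b472 k0)) (by decide +kernel)
def b962 : PP 8 4 T 0x1100000000000001010000000000000401000100040000002000000001008020000 := rS 0x1144d138845223068101e40 (k8 b319 i338 b97 i521 i2137 i2138 b127 b86 (k2 i72 i523 (k1 b472 k0))) (by decide +kernel)
def b963 : PP 8 4 T 0x201100000000000001000000000020000400000181040040002400000000008100000 := rS 0x43c48ba1162b0dc80f42894be451488c1a8358bf0164f6981ce22f204341204 (k8 b97 i2139 b321 b319 i2187 i796 b749 b94 (k8 b323 i301 b431 b382 b438 i521 i2137 i2138 (k8 i22 b363 b320 b64 i338 b341 b700 b75 (k4 b962 b722 b330 b686 (k1 b527 k0))))) (by decide +kernel)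
def b964 : PP 8 4 T 0x101000000000000001010000000020000000000080000042002000000001008110000 := rS 0x2a43c490ac72e97c4e211488d06b17e02c9ed3039c45e4086824086d (k8 i1698 b97 i2139 b321 b319 i2187 i796 b749 (k8 b94 b323 i301 b431 b382 b438 i2137 i2138 (k8 b127 b86 b363 b722 b189 i1544 b330 b686 (k2 b179 b376 k0)))) (by decide +kernel)
def b965 : PP 8 4 T 0x1100000000000001000000000020000400000180040042002400000000008104000 := rS 0x10912083144ae406812226d (k8 i1698 b963 b97 i521 b341 i764 b75 b964 (k2 b725 b962 (k1 b25 k0))) (by decide +kernel)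
def b966 : PP 8 4 T 0x1100000000000005000000000121000000000180040042002400000000008100000 := rS 0x3ca14bacb088ac1c4d13884b2293ba0cf6af37ac48a8f56bf156d30593d10b5039c45f0d048340840 (k8 b319 b97 i521 i2139 b321 i2187 i796 b749 (k8 b285 b401 b323 i301 b94 b721 b431 b405 (k8 b958 i22 b382 i58 b76 b662 b438 i752 (k8 i2138 b534 b127 b86 i72 b965 b743 b547 (k4 b247 b722 i1544 i1013 (k1 b742 k0)))))) (by decide +kernel)
def b967 : PP 8 4 T 0x1100000000000004001000000121000000000180040041002400000000008100000 := rS 0x18a252bb91940f518cd928f56bf156d30593d6a07388be1a09068108088 (k8 b401 b319 b97 i521 i2139 b321 i2187 i796 (k8 b749 b285 b323 i301 b94 b721 b431 b405 (k8 b958 i1124 b538 i280 i339 i2027 b341 i506 (k2 b48 b75 (k1 b961 k0))))) (by decide +kernel)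
def b968 : PP 8 4 T 0x1100000000000004001000000121000000000180040040002400000000008100000 := rS 0x19a54 (k2 b967 i769 (k1 b966 k0)) (by decide +kernel)
def b969 : PP 8 4 T 0x1100000000000000000000000120000000000180050000002000000000008100000 := rS 0xc167a4d3b166496d1e4756bf156d30593d10b5039c45f0d048340840 (k8 b319 b97 i521 i2139 b321 i2187 i796 b749 (k8 b285 b401 b323 i301 b94 b721 b431 b405 (k8 i265 b958 b957 i1124 b339 b313 b7 b36 (k2 i1344 b968 k0)))) (by decide +kernel)
def b970 : PP 8 4 T 0x1000000000000004401000000121000000000180540041002400000000008104000 := rS 0xb912082159b108b8c986252ba88be272c88cee8f56bf156d30593d10b5039c45f0d048340840 (k8 b319 b97 i521 i2139 b321 i2187 i796 b749 (k8 b285 b401 b323 i301 b94 b721 b431 b405 (k8 b958 i752 i2137 b534 b86 b363 i2027 b581 (k8 i2162 i2163 i280 b80 b294 b370 b64 b960 (k2 b725 b689 (k1 b22 k0)))))) (by decide +kernel)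
def b971 : PP 8 4 T 0x1200000000000000002000004000000420000500000000042000000000008000000 := rS 0x1103e9462e7f4914c42452c8108055 (k8 b30 b319 b97 b534 i22 b127 b332 i1344 (k4 i1515 b7 b671 b660 (k2 b294 b705 k0))) (by decide +kernel)
def b972 : PP 8 4 T 0x1000000000000008404000000020020000000080400000002000000000008100000 := rS 0xf566a70984530bc1ca2d10b157bf0164f6981ce22f204341204 (k8 b97 i2139 b321 b319 i2187 i796 b749 b94 (k8 b323 i301 b431 b76 b382 b401 i1978 i1976 (k8 i1105 i1104 i523 i266 i282 i1413 i1786 b464 k0))) (by decide +kernel)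
def b973 : PP 8 4 T 0x1000000000000000000000000120000000000180050000002000000000008100000 := rS 0x2e448f2cd36a1e329c67a5186575130596692a9ac1f042da3cbe5911834eeb555ab4f6af37ac5f8d30481d10711782c9e45204348e04 (k8 b97 i265 b321 b319 i22 b323 i301 i2187 (k8 i796 b401 b749 i2139 b94 b431 b382 i58 (k8 b76 b662 b405 b721 b285 i752 i521 i2137 (k8 b534 b363 b958 b957 b969 b283 b353 b30 (k8 b140 b145 b971 i2027 b581 i2163 i281 b972 (k8 b970 b281 b331 i1642 i1909 i1858 b343 b614 (k1 b22 k0))))))) (by decide +kernel)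
def b974 : PP 8 4 T 0x11000000000000040000000000000000000400000000200002000000000008100540 := rS 0x4226290210162fc (k8 b431 b382 b319 b97 i2138 b22 b722 b725 k0) (by decide +kernel)
def b975 : PP 8 4 T 0x1200000000000005000000000001000405004100040104002000000000008000000 := rS 0x9e4597da25902100ee6535954d279 (k8 i1013 b140 b30 b353 b9 i752 b319 b97 (k4 b534 b278 b363 b663 (k2 b388 b626 k0))) (by decide +kernel)
def b976 : PP 8 4 T 0x801200000000000000004000000220000000000100040000002000000000008000000 := rS 0x7118090452f454cacde03d5b2f29ec56629d0e2714b94aa696395d3acf4d9ed62af229742b15441c9926f30bf1527117aac1eb98b4451e77498d596833f09012d38681c1a04059010a2b (k8 b376 b25 b319 i2212 b97 i521 i1380 b321 (k8 b94 i2139 i363 i364 i2620 b145 i2210 i1365 (k8 i752 b67 b320 b294 b387 b283 b721 i2187 (k8 i796 i572 b431 b137 i1008 b288 b950 b401 (k8 b102 b953 b974 i22 b76 b382 b662 b407 (k8 b36 b313 i1665 i2243 b140 b30 b430 i2138 (k8 b86 i928 i367 b975 b832 b329 i849 i848 (k8 i1386 b381 i1413 i1990 b70 i1901 b78 b464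 (k2 b300 i266 (k1 b107 k0)))))))))) (by decide +kernel)
def b977 : PP 8 4 T 0x801200000000000000000000000220000000000100040000002000000000008000000 := rS 0x1c4602497a2a6566a75b2f176cc1e8458485609ad6aa32ba759e9b3dac55e45439742b15441c9926f30bf1527117aac1eb98b4451e77498d596833f09012d38681c1a0405900aa5f (k8 b363 b30 b319 i2212 b97 i521 i1380 b321 (k8 b94 i2139 i363 i364 i2620 b145 i2210 i1365 (k8 i752 b67 b320 b294 b387 b283 b721 i2187 (k8 i796 i572 b431 b137 i1008 b288 b950 b401 (k8 b102 b953 b974 b646 i22 b76 b382 b662 (k8 b407 b36 b313 i1665 i115 i881 b353 i114 (k8 b25 b976 i1952 i1959 b975 i1949 i849 i848 (k8 i368 i1413 i1990 b70 i1901 b464 b300 i266 (k1 b107 k0))))))))) (by decide +kernel)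
def b978 : PP 8 4 T 0x1200000000000000000000000220000000000100040000002000000000008000000 := rS 0xb25e29c26cc1ea14729f6296a301189a1cf25d0a9ee2a883933d729d37c58c2af58a0d1f117e2acfc2438825a70d2f9145e770383526355482c800407b24aacb (k8 b145 b30 b288 b283 b97 b319 i2212 i572 (k8 i2210 i1365 i521 i1380 i752 i2187 i22 b363 (k8 b321 b94 i2139 i796 i363 i364 b721 b431 (k8 b320 b67 i2620 b382 b76 b137 b294 i1008 (k8 b313 b387 b36 b950 b401 b102 b662 b953 (k8 b974 i1013 b646 b977 b725 b343 b330 b481 (k8 b3 b107 b905 i1386 b388 i266 i282 i849 (k2 b464 i1413 k0)))))))) (by decide +kernel)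
def b979 : PP 8 4 T 0x1200000000000000000000000000000000000180040000002000000000008100000 := rS 0x2914065 (k4 b9 b390 b973 b978 k0) (by decide +kernel)
def b980 : PP 8 4 T 0x11000000000000000000000008000000000000000000000042000000000008005000 := rS 0xae507e94c8a40 (k4 b319 i22 b332 b359 (k2 b108 b589 (k1 i497 k0))) (by decide +kernel)
def b981 : PP 8 4 T 0x4001000000000000001008000000080140000501054000000000000011000008000000 := rS 0x9b3db396e325faf1cac7 (k8 i117 b52 i329 i1719 b335 i1988 i291 i1980 (k2 i1152 b421 k0)) (by decide +kernel)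
def b982 : PP 8 4 T 0x1200000000000000004000000000000080000000040000000000000000008111004 := rS 0x1b4260f3591cd2c5 (k8 b481 b140 b383 b353 b283 i1882 i555 b536 k0) (by decide +kernel)
def b983 : PP 8 4 T 0x1000000000000010000000000000800040000000001000000000000000008000000 := rS 0x11b19 (k2 b72 i1033 (k1 b120 k0)) (by decide +kernel)
def b984 : PP 8 4 T 0x1000000000000010000000100000080040000000000000000000000000008000000 := rS 0x11b19 (k2 b26 i1817 (k1 b120 k0)) (by decide +kernel)
def b985 : PP 8 4 T 0x1202000002000080000000000000000000000000000000000000000000008000000 := rS 0x6591c160760a8c1a0f5282556ad (k8 b405 b359 b291 b430 b437 b28 b423 b56 (k4 b31 b311 b383 b145 (k1 i2027 k0))) (by decide +kernel)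
def b986 : PP 8 4 T 0x221000000002000080000000000000000000000000000000000000000000008000000 := rS 0x5a88d82a3508744a21529f43e7f (k8 b141 b50 b34 b430 b130 b48 b126 b94 (k4 b423 b56 b296 b277 (k1 i2030 k0))) (by decide +kernel)
def b987 : PP 8 4 T 0x821000002000000080000000000000000000000000000000000000000000008000000 := rS 0x52831e8744e2b1f87d6e81 (k8 b138 b101 b50 b119 b35 b360 b126 b38 (k2 b33 b123 (k1 b706 k0))) (by decide +kernel)
def b988 : PP 8 4 T 0x2001002000002000080000002000000000000000000040000020400000000008000000 := rS 0x5c8cd92774a9c512c1518b45ea11a8c54a6182a4d1e25 (k8 b48 b349 i1369 b985 b137 b430 b273 b365 (k8 b94 b84 b128 b423 b56 b2 b334 b435 (k4 i807 i614 b538 b737 (k1 i2033 k0)))) (by decide +kernel)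
def b989 : PP 8 4 T 0x28001000002002000000000000000000000000000000000000000000004000008000000 := rS 0x729f1ab0c62c5638dd3acf (k8 b36 b313 b374 b4 b75 b273 b52 b365 (k2 b3 b107 (k1 b427 k0))) (by decide +kernel)
def b990 : PP 8 4 T 0x8001000002002000000800000000000000140800000000020020000004010408000000 := rS 0x66a150ebf3d1ada1194e89586c510b1c4e2b (k8 b35 b360 b4 b130 b75 b52 b48 b313 (k8 b989 b120 i2425 i654 i1454 i930 i1895 i895 (k1 i2032 k0))) (by decide +kernel)
def b991 : PP 8 4 T 0x20001000002002000081000020000000000010040801000000000100000010408000000 := rS 0x10cba42a61369d1e8bd420d12b0c4227158dc223f (k8 b119 b78 b374 b35 b360 b130 b52 b48 (k8 b28 b94 b84 b38 b281 b72 b718 i1631 (k2 i1144 b488 (k1 i1683 k0)))) (by decide +kernel)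
def b992 : PP 8 4 T 0x1000002002000080200002000000000150040000000820024000000010408000000 := rS 0x10a873c9ada11966ae0da7612b0d8a216389c5645 (k8 i604 b35 b360 b4 b130 b75 b52 b48 (k8 i614 i2448 i808 i891 b991 b120 i2425 i1071 (k2 i930 i1632 (k1 i2032 k0)))) (by decide +kernel)
def b993 : PP 8 4 T 0x1100002002000000900000000000000000800000010020000400000010408000000 := rS 0x22c3333a3c4a4c458451a00211148237 (k8 b374 i867 i604 b272 b355 i964 b78 i451 (k4 b143 b48 b349 i544 (k2 b538 b339 (k1 b990 k0)))) (by decide +kernel)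
def b994 : PP 8 4 T 0x21100002002000080800000000000000000000000000020000400000010408000000 := rS 0xb8441d990821e89c563f5ba04cab460884fa1d529fc3ea151894968b08a346e5e8996cba00261088a41 (k8 i867 i604 b272 b143 b355 i2259 b81 b987 (k8 b330 b374 i964 b78 i451 b436 b48 b423 (k8 b94 b50 b141 b430 b126 b34 b130 b56 (k8 i2030 b780 b138 b101 b119 b35 b360 b38 (k4 b706 b993 i614 b992 (k2 i808 i1403 k0)))))) (by decide +kernel)
def b995 : PP 8 4 T 0x21002002002000080000000000000000000000000000000000400000000408000000 := rS 0x8cb44707814235164b001088a412c15568a10e89442370893e0a7d0f9fcae516503d4a0d5582d5a0903b054711 (k8 b986 b423 b56 b31 b291 b405 b311 b359 (k8 b28 b430 b437 i2027 b32 i505 b141 b50 (k8 b34 b985 b293 b78 b374 b130 b48 b126 (k8 b94 i2030 i767 b345 i867 i604 b272 b355 (k8 b436 i451 i964 b994 b124 b136 i1071 b107 (k1 b120 k0)))))) (by decide +kernel)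
def b996 : PP 8 4 T 0x21002002002000080000000000000000000000000000000000400000000008000000 := rS 0x219149a586419caa41191dc45112b9451e2582b281ea506aac16ad0481d82a3 (k8 b423 b56 b31 b291 b405 b311 b359 b28 (k8 b430 b437 i2027 b985 b48 b349 b32 i505 (k8 b986 b995 b356 b106 i185 i1537 b695 b538 (k4 b345 i614 i603 b143 (k1 b272 k0))))) (by decide +kernel)
def b997 : PP 8 4 T 0x1000002002000080200002000000000140040000000160024000000010448000000 := rS 0x102838917c7a1d138ac7eb744ae0eca5 (k8 b430 i614 i808 i1403 i2563 b119 b35 b360 (k4 b126 b38 b992 b330 (k2 b33 b60 (k1 b706 k0)))) (by decide +kernel)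
def b998 : PP 8 4 T 0x1000000000000000000000000000000140000000000000004000000020008000000 := rS 0x8cb447078 (k4 b124 b136 i1071 b107 (k1 b120 k0)) (by decide +kernel)
def b999 : PP 8 4 T 0x1002002002000080000000000000000000000000000020000400000000408000000 := rS 0x815b9e4bc70681be32835cc5866c90f8f43a735089c563f549860a5b2e9962ab43e9462343652941aab05ab4120760a8cfe538699d1e25260a51a3745800224b211141e41 (k8 i867 b437 i603 b272 b436 b78 b355 i451 (k8 b374 i964 b998 b143 b48 b349 i544 b996 (k8 b326 i844 b423 b56 b31 b291 b405 b311 (k8 b359 b28 b430 i2027 b79 b361 b567 i1327 (k8 b315 b988 i963 i2259 b81 b985 b137 b338 (k8 b119 b35 b360 b94 b390 b126 b38 b233 (k8 b997 b538 b339 b737 b993 b989 i1399 b120 (k4 b413 i653 i1071 i2559 (k2 i1363 b706 k0))))))))) (by decide +kernel)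
def b1000 : PP 8 4 T 0x1002002002000080000000000000000000000000000020000400000000008000000 := rS 0xc9191dc444c21114ce4107a3c4b05 (k8 b985 b48 b349 b437 i867 i544 i603 b272 (k4 b143 b999 b356 b106 (k2 i614 b538 k0))) (by decide +kernel)
def b1001 : PP 8 4 T 0x1000002002000010000000000000000140000000020000000000004000008000008 := rS 0x27a30394e8d5863162b1c6ecf (k8 i1028 b374 b4 b75 b273 b52 b365 i1552 (k4 i195 b120 b427 b3 k0)) (by decide +kernel)
def b1002 : PP 8 4 T 0x1100000000000000000000040000000000880001000400000000000000008000000 := rS 0x1ad0cba (k4 i926 i925 i1946 b476 k0) (by decide +kernel)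
def b1003 : PP 8 4 T 0x1002002002000090000000000000000100400020020400020000004000048000008 := rS 0x2e04a26b3402dd328a2d82d4e071e8744e2b0a8447e0958abc529b (k8 i1447 b142 b76 b382 b291 b119 b78 b404 (k8 b35 b360 b126 b38 b31 b18 b311 i794 (k8 b1001 i1938 i802 b706 i554 b60 b464 b330 (k1 b253 k0)))) (by decide +kernel)
def b1004 : PP 8 4 T 0x101002002002000080000000000000000000000000000000020400000000408000000 := rS 0x43a14ba9d4620ce094448a5a2020f97cdab91980480643f2d4ec753390ca82d398bd423512b0c6221138ac2a1127abcc30d2292496cd8295d26c92cb281ea506aac16ad0481d82a3 (k8 b423 b56 b31 b291 b405 b311 b359 b28 (k8 b430 b437 i2027 b1000 i613 i1367 i2352 b985 (k8 b797 i51 i72 b270 b996 b137 b76 b293 (k8 b78 b404 b35 b360 b130 b273 b52 b48 (k8 b365 b94 b84 b390 b128 b345 b310 i1620 (k8 i1540 i791 i767 b789 i792 b272 i445 b538 (k8 b737 i3018 i904 i182 i788 b231 b142 i190 (k8 i2033 b643 b1002 b1003 i1820 i1846 i1631 b686 (k1 b488 k0))))))))) (by decide +kernel)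
def b1005 : PP 8 4 T 0x1100002002000001900000000000000001000000000000004400000000408000002 := rS 0x786821a327714c58668d45994ce2561b1442c7138ac6e11 (k8 b78 b374 b35 b360 b4 b130 b75 b52 (k8 b48 i2263 i963 i451 i964 b538 b339 b998 (k4 b21 b989 i2032 b120 (k2 b198 i1071 k0)))) (by decide +kernel)
def b1006 : PP 8 4 T 0x1002002002000080000000000000000000000000000000020400000000408000000 := rS 0xb309970b713430a4045f2010c028588334aec9259154e3d12b0d8a216389c561508ac55f056503d4a0d5582d5a0903b054659 (k8 b1000 b423 b56 b31 b291 b405 b311 b359 (k8 b28 b430 b437 i2027 b985 b76 b382 b78 (k8 b404 b35 b360 b4 b130 b75 b52 b48 (k8 b38 b18 b270 i51 i613 i2352 b797 b1004 (k8 b64 b1005 b355 b272 i904 i788 b142 i2032 (k4 b0 i2554 b330 b253 (k2 i2355 b464 k0))))))) (by decide +kernel)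
def b1007 : PP 8 4 T 0x111002002002000090200000000000000000080800000000110000000000408000000 := rS 0x13899710c8566a74f66d06b0d8a21138ac220958abcc30533a2c52630000c0e5f201140a0f21928928f129c52aa9 (k8 b338 i1100 i800 b48 b349 i1124 b348 b143 (k8 b437 i611 b139 b272 b502 b31 b44 b317 (k8 i447 b486 b480 i121 b985 b137 b76 b382 (k8 b291 b78 b35 b360 b130 b75 b52 b28 (k8 i671 b637 b510 i809 i1631 b489 b683 b0 (k2 b253 b783 k0)))))) (by decide +kernel)
def b1008 : PP 8 4 T 0x101002002002000080200000000000000000000000000000000400000000408000000 := rS 0x215a07e5a9d8a8c327c161b173a964ae290000ca2ca52835560b568240ec15197c80450283c864a24a3c4a4d (k8 b1006 b48 b349 i1124 b348 b143 b437 i611 (k8 b139 b272 b502 b423 b56 b31 b291 b405 (k8 b311 b359 b28 b430 i2027 b567 b44 b317 (k8 b486 i504 b1000 i1064 b336 b996 b985 b293 (k8 b52 b345 b294 i767 b789 b1007 b930 b681 k0))))) (by decide +kernel)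
def b1009 : PP 8 4 T 0x1002002000000080000000000000000000000000000200100000000000008000000 := rS 0x2cc260b5381c7a150882562af (k8 b76 b382 b291 b78 b404 b38 b31 b18 (k4 b311 b253 i513 b464 k0)) (by decide +kernel)
def b1010 : PP 8 4 T 0x1002002002000080200000000000000000000000000000000400000000408000000 := rS 0x1a26c2a1750c8566c40be4028800524525014931761b14428f12b1c4e2b82b281ea506aac16ad0481d82a32c80c864d (k8 b1006 b143 b44 b1000 b423 b56 b31 b291 (k8 b405 b311 b359 b28 b430 b437 i2027 b985 (k8 b35 b360 b4 b48 b349 b130 b75 b52 (k8 b336 i1124 i611 b348 b139 b486 b317 b567 (k8 b272 b502 b1008 b370 b64 i2032 b1009 b646 (k2 b686 b681 (k1 i671 k0))))))) (by decide +kernel)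
def b1011 : PP 8 4 T 0x1002002002000080100000000000000000000000000008000400000000008000000 := rS 0x19e398b0cd3a9f4599da2b22500426443294168a71e8d44ac318b158e151b84562af82b281ea506aac16ad0481d82a3 (k8 b423 b56 b31 b291 b405 b311 b359 b28 (k8 b430 b437 i2027 b985 b76 b382 b78 b374 (k8 b404 b4 b75 b273 b52 b48 b365 b38 (k8 b18 i506 i505 b780 b567 b269 b47 b66 (k8 b464 b231 i2308 i2310 b626 b510 b538 b339 (k2 b891 b36 (k1 b427 k0))))))) (by decide +kernel)
def b1012 : PP 8 4 T 0x1100002002000000900000000000000001000000000402000400000010408000002 := rS 0x10ecd3c9ada1193bc58668d45994ce2561b1442c7138ac6e11 (k8 b78 b374 b35 b360 b4 b130 b75 b52 (k8 b48 i2263 i963 i451 i964 b538 b339 b21 (k4 b989 b120 i631 i1072 (k2 i770 b198 (k1 i2032 k0))))) (by decide +kernel)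
def b1013 : PP 8 4 T 0x1002002002000080000000000000000000000000000002000500000010408000000 := rS 0x442e62895339bce2752401096014297cba40289cc5ea11aa3c4a2b279860b0d0190c9a9364b281ea506aac16ad0481d82a3 (k8 b423 b56 b31 b291 b405 b311 b359 b28 (k8 b430 b437 i2027 b1010 i1367 b1006 b143 b44 (k8 b996 b985 b137 b293 b35 b48 b349 b365 (k8 b94 b84 b390 b567 b272 b1009 i904 i1544 (k8 b1012 b794 b317 b348 i1540 i749 i1008 b507 (k4 b643 b413 b737 b946 (k1 b2 k0))))))) (by decide +kernel)
def b1014 : PP 8 4 T 0x101002002002000080000000000000000000000000000000000600000000408000000 := rS 0x19e394ea7e2c3345994ced159104940109a9c7a3512b0c62c5638546e1158abe0aca07a941aab05ab4120760a8caec9 (k8 b1010 b1011 b423 b56 b31 b291 b405 b311 (k8 b359 b28 b430 b437 i2027 b985 b76 b382 (k8 b78 b374 b404 b4 b75 b273 b52 b48 (k8 b365 b38 b18 b269 b47 b66 i22 b464 (k8 b231 i2308 b793 i2310 b538 b339 b626 b510 (k2 b891 b36 (k1 b427 k0))))))) (by decide +kernel)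
def b1015 : PP 8 4 T 0x101002002002000080000000000000000000000000000000000400000000408000000 := rS 0x174504028914a9056503d4a0d5582d5a0903b05465921934aec9 (k8 b1010 b1011 b1006 b143 b1000 b423 b56 b31 (k8 b291 b405 b311 b359 b28 b430 b437 i2027 (k8 b985 b345 b1014 b567 b272 b1013 b1009 i187 k0))) (by decide +kernel)
def b1016 : PP 8 4 T 0x1002002000000080800000000000000008000000000001000140000000008000000 := rS 0x5f2e900a22b (k4 b35 b567 b272 b1009 (k2 i904 b646 k0)) (by decide +kernel)
def b1017 : PP 8 4 T 0x1002002002000080000000000000000008000000000001000400000000408000000 := rS 0x4622c3345a34ca6768ac8940109910b6a71e85422b157c15940f52835560b568240ec15190c9ac9 (k8 b1010 b1006 b143 b423 b56 b31 b291 b405 (k8 b311 b359 b28 b430 b437 i2027 b985 b76 (k8 b382 b78 b404 b38 b18 i777 b1016 b269 (k8 b47 b66 b464 b231 i2308 i1050 i1052 i2310 (k4 b538 b339 b120 b989 k0))))) (by decide +kernel)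
def b1018 : PP 8 4 T 0x1002002002000080000000000000000000000000000000000400000010408000000 := rS 0x19e394fc58668b3299da2b22500426442a2750ca71e8d44ac318b1442c7138ac2a3708ac55f056503d4a0d5582d5a0903b0546c966a14eb10 (k8 b1015 b426 b64 b370 b1010 b423 b56 b31 (k8 b291 b405 b311 b359 b28 b430 b437 i2027 (k8 b985 b76 b382 b78 b374 b404 b35 b360 (k8 b4 b130 b75 b273 b52 b48 b365 b38 (k8 b18 i2032 b331 b1017 b1013 b269 b47 b66 (k8 b464 b231 i2308 i1049 i2310 b538 b339 b626 (k2 b891 b36 (k1 b427 k0)))))))) (by decide +kernel)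
def b1019 : PP 8 4 T 0x1002002000000080800000000000000000000000000000000140000020008000000 := rS 0x1748051 (k4 b567 b272 b1009 i187 k0) (by decide +kernel)
def b1020 : PP 8 4 T 0x1002002002000080000000000000000000000000000000000400000000408000000 := rS 0x1a0010991116383c0a0864d0ab281ea506aac16ad0481d82a3 (k8 b423 b56 b31 b291 b405 b311 b359 b28 (k8 b430 b437 i2027 b404 b1006 b143 b1018 b124 (k4 b136 i1854 b1019 b269 (k2 b47 b891 (k1 b231 k0))))) (by decide +kernel)
def b1021 : PP 8 4 T 0x1002002002000080000000000000000000000000000000000400000000008000000 := rS 0x2b324aa7488888b305 (k8 b985 b1000 b1020 b296 b109 i1537 i1064 b345 (k1 b1011 k0)) (by decide +kernel)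
def b1022 : PP 8 4 T 0x101002002002000080800000000000000000000000000020000000000010408000000 := rS 0x2056e7a2f3410719199be2cb964ad03e7da18f582a35087442a5138ac7ea9309fca66747994ae318296c96512e9311611468008441129148c37 (k8 b374 b1021 b42 b48 i866 b272 b355 i964 (k8 b78 i451 b143 i2259 b238 b436 b81 b985 (k8 b273 i1577 b793 b349 i544 b326 i844 b137 (k8 b338 b119 b35 b360 b430 b130 b126 b94 (k8 b423 b56 b38 b79 i1327 b233 i2030 b997 (k8 b737 b339 i1399 b80 b989 b990 b120 i653 (k4 i654 i852 i1894 b706 k0))))))) (by decide +kernel)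
def b1023 : PP 8 4 T 0x1002002000000080404000000000000000000000800000000000000000008000000 := rS 0x2cc260b5381c7a150882562af (k8 b76 b382 b291 b78 b404 b38 b31 b18 (k4 b311 i1960 i633 b464 k0)) (by decide +kernel)
def b1024 : PP 8 4 T 0x1000002002000010000000000000000044000800440040000000000010408000000 := rS 0x10acd4e89586c510b1c4e2b (k8 b35 b360 b4 b130 b75 b52 b48 b510 (k2 b814 i1631 (k1 i2032 k0))) (by decide +kernel)
def b1025 : PP 8 4 T 0x1000002002000000000000000000000044000801440040024000000010408000000 := rS 0x42b34f25e6809586c510b1c4e2b (k8 b35 b360 b4 b130 b75 b52 b48 b1024 (k4 i653 i1071 i891 i1632 (k1 i2032 k0))) (by decide +kernel)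
def b1026 : PP 8 4 T 0x101002002002000080000000000000000000000000000020000000000010408000000 := rS 0x42b34f45e68464669d8b324ee8735b2d1a8b2612cb60021194ce41618c58a21478944e2b1b8460a4536b1cae46 (k8 b1021 i1577 b4 i1695 b42 b985 b78 b374 (k8 b35 b360 b48 b349 b130 b75 b273 b52 (k8 i866 i544 b793 b272 b355 b81 b436 b143 (k8 i451 i964 b1022 b1023 i930 b1025 i614 b339 (k8 b313 b80 b989 b120 i653 i654 i891 i1895 (k1 i2032 k0)))))) (by decide +kernel)
def b1027 : PP 8 4 T 0x1000002000000082004000140000000000080001000002000000000000008000100 := rS 0x26b3352f016a7038f42a11 (k8 b78 b404 b38 b31 b18 b311 i849 i770 (k2 i1414 i1960 (k1 b464 k0))) (by decide +kernel)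
def b1028 : PP 8 4 T 0x1000002002000001000000000000000000000000000102000800000010408000000 := rS 0x21d0a0d12b0c4227089b58e5f2010c8a2b (k8 b35 b42 b310 b272 i904 b4 i1695 b78 (k8 b360 b130 b52 b48 b28 i1544 b686 b488 k0)) (by decide +kernel)
def b1029 : PP 8 4 T 0x1002002002000080000000000000000000000000000002000000000010408000000 := rS 0x164502e335067e0f97c807d5a90d4ec151a843a25618854a2b0a844124f58ab55f05229b48cc7 (k8 b4 b1021 i1695 b42 b985 b76 b405 b382 (k8 b293 b291 b78 b404 b35 b430 b130 b52 (k8 b48 b126 b94 b423 b56 b18 b310 i767 (k8 i1541 b272 i904 i182 i2030 b1002 b1027 b1028 (k2 b1009 b514 (k1 i514 k0)))))) (by decide +kernel)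
def b1030 : PP 8 4 T 0x101002002002000080000000000000000000000000000000000000000010408000000 := rS 0x598295c8c55 (k4 b1029 b1021 i1577 b985 (k2 b1026 b345 k0)) (by decide +kernel)
def b1031 : PP 8 4 T 0x1002002002000080000000000000000000000000000000000000000010408000000 := rS 0x512e328be6a34d3d0c852cb362055068958621138ac2305229b48cc7 (k8 b4 b1021 i1695 b42 b985 b78 b35 b360 (k8 b130 b52 b48 b28 b1029 b1030 b370 b361 (k8 b64 b488 b111 i1563 b308 i629 b1023 b646 (k2 b567 b1009 k0)))) (by decide +kernel)
def b1032 : PP 8 4 T 0x1000000000000000000000000000000000000000000000000120000020008000000 := rS 0xa43 (k2 i21 i2138 (k1 b486 k0)) (by decide +kernel)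
def b1033 : PP 8 4 T 0x1000002000000000000000000000000000000000000000000100000020008000000 := rS 0x46a2c9600211046e11 (k8 b78 b374 b1032 b272 b355 b436 i451 i964 (k1 b998 k0)) (by decide +kernel)
def b1034 : PP 8 4 T 0x4001100000000000000000000000000000000000200040000000080001000008000000 := rS 0x649949600 (k4 b355 b436 i962 i1063 (k1 b339 k0)) (by decide +kernel)
def b1035 : PP 8 4 T 0x1002002002000080000000000000000000000000000000000000000000008000000 := rS 0xae4021c5cce741900c44292291a0a31 (k8 b273 b985 b1021 b42 b1033 b1031 b276 b106 (k4 b109 i1618 b80 b1034 (k2 b272 b882 (k1 i185 k0)))) (by decide +kernel)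
def b1036 : PP 8 4 T 0x1000002000000080000000010000000008400000000020800400000000008000100 := rS 0x59ac426af3517816a7038f42a11 (k8 b78 b404 b38 b31 b18 b311 i929 i930 (k4 i590 i1961 i1967 i2427 (k1 b464 k0))) (by decide +kernel)
def b1037 : PP 8 4 T 0x2001000002002000080200000000000000044000101041040024400000010408000100 := rS 0x394d84da26a4f9d85ea10789c2a11 (k8 b78 b404 b360 b437 b94 b84 i614 b447 (k4 b1025 i632 i1961 b983 (k2 b891 b724 k0))) (by decide +kernel)
def b1038 : PP 8 4 T 0x1100002002000080800000000000000040000000005060164400000010408000010 := rS 0xb919b250e833a9b4fc9529451129386aa412ad60a8c5a2f508d462a57e99d1e25 (k8 b48 b349 i544 b1035 b430 b273 b365 b94 (k8 b84 b128 b423 b56 i122 i1387 i2416 b994 (k8 i1366 b169 b342 b108 b435 i622 i2449 i1667 (k4 i2621 b1036 b1037 b538 (k2 b737 i2033 k0))))) (by decide +kernel)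
def b1039 : PP 8 4 T 0x21000000002000080000001000000000000040000000000000000000000408000000 := rS 0x1f3eb0546a10e89442a5 (k8 b430 b130 b48 b126 b94 b423 b56 b34 (k2 b50 i2030 k0)) (by decide +kernel)
def b1040 : PP 8 4 T 0x1001000000000000000000000000000000000000004000020000000000088000010 := rS 0x2a51071 (k4 b287 b350 i575 b169 k0) (by decide +kernel)
def b1041 : PP 8 4 T 0x1000002002000080200000000000000140040000005160024000000010448000000 := rS 0x4555292371f16a7660a8d421d128854afd (k8 b1035 b430 b130 b48 b126 b94 b423 b56 (k8 i614 b997 i2030 i1630 i1629 i1055 b71 b342 k0)) (by decide +kernel)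
def b1042 : PP 8 4 T 0x1000002000000082000004020000000000000000400000040000000010048000000 := rS 0x8141af56a3d0e89c563f (k8 b119 b35 b360 b126 b38 i1287 i1292 i894 (k2 i1974 b706 k0)) (by decide +kernel)
def b1043 : PP 8 4 T 0x1000000002000080500011010000004000000000015020020000000000448000000 := rS 0x541c52a7c55b05461d39a8442a533a3c4a7f (k8 i845 b48 b349 i544 b430 b130 b94 b390 (k8 b126 b423 b56 i582 i2030 i1598 i1360 i2040 (k1 i575 k0))) (by decide +kernel)
def b1044 : PP 8 4 T 0x1100002002000080500004000000000000008000415020060400000010448000000 := rS 0x52412a903435a2b47a1d0683d4a3f5ca4d98854ec58ce8f138ac42c312b1d8a87 (k8 i930 b75 b4 b48 b52 b130 b35 b360 (k8 b349 i544 b339 b313 i1895 i2032 b7 b737 (k8 b119 b430 b437 b28 b126 b38 b1042 b1043 (k4 b425 i1402 b761 b706 (k2 i581 i2568 k0))))) (by decide +kernel)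
def b1045 : PP 8 4 T 0x101100002002000080000000000000000000000000000020000500000010408000000 := rS 0x2ac12ad592c68ab634d3d988543abcf45e35b42329d8b0cd921f3fb2cba6330a3516512612c9e5b02800ca4233904ae0b03b05462d06b0c62c51083d4a8f12b1c4e2b1b8447efd (k8 b1035 b119 b78 b374 b35 b360 b4 b48 (k8 b349 b430 b437 b130 b75 b273 b52 b28 (k8 b128 b423 b56 b31 b311 i54 i867 i544 (k8 b272 b793 b355 b74 b81 b91 b436 b143 (k8 b238 i451 i964 i960 i447 i2259 b1038 i845 (k8 b1040 b1041 b538 b339 b313 b989 b120 i2425 (k8 i653 i654 i2401 i930 i1895 i2032 b329 i1830 (k8 b1044 b70 i1823 i853 b191 b215 i2441 i2027 k0)))))))) (by decide +kernel)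
def b1046 : PP 8 4 T 0x101100000000000000000000000000000000000000000010000080000000008001000 := rS 0xae55 (k2 b310 i441 (k1 b345 k0)) (by decide +kernel)
def b1047 : PP 8 4 T 0x1000000002000080000001000000000000040800000000200120000000408000000 := rS 0xf8930fb0546a10e89442a5 (k8 b430 b130 b48 b126 b94 b423 b56 b569 (k2 b671 i2030 (k1 i1629 k0))) (by decide +kernel)
def b1048 : PP 8 4 T 0x1000000002000080000001000000000000040800000002000120000000408000000 := rS 0x3e7d28b0546a10e89442a5 (k8 b430 b130 b48 b126 b94 b423 b56 b1047 (k2 i1542 i183 (k1 i2030 k0))) (by decide +kernel)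
def b1049 : PP 8 4 T 0x101100000002000080600000000000000000000000000010000500000000408000000 := rS 0xdf15542a8e2ad86d0cfcb52a1d8ae754ac5ce60f52a3c4a532010c1aa1 (k8 b94 b28 b1046 b272 i826 b48 b349 b430 (k8 b437 b390 b336 i1101 i1064 i504 b294 b345 (k8 i768 b1048 b337 b141 i1556 i800 b761 i583 (k2 b305 i1056 (k1 b413 k0))))) (by decide +kernel)
def b1050 : PP 8 4 T 0x101000002002000082000001000000000000040000400110500000000010448000000 := rS 0x16e8156138f90d418f582a3508744a215289c563f7ed3cd255 (k8 i770 i1831 b329 b1035 b119 b35 b360 b430 (k8 b130 b48 b126 b94 b423 b56 b38 i894 (k4 b1039 i2030 b108 i1273 (k2 i1276 b177 (k1 b706 k0))))) (by decide +kernel)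
def b1051 : PP 8 4 T 0x1000002002000082000004008000000004100000000400000100000010048000000 := rS 0x592ec1ac36289c563f (k8 b119 b35 b360 b75 b52 b28 i1948 b772 (k1 i666 k0)) (by decide +kernel)
def b1052 : PP 8 4 T 0x101100002002000080400000000000000000000000000000000500000010408000002 := rS 0x15e4e58c368a835b2a902ad3ed0d681f3f944ac6c2a9a69ecc439e50a6b2eb4232778b0cd922561b14420f52b1c4efd29a84be401580c9a432c994ce0d458451a37 (k8 b374 i964 b78 i451 b28 i449 i963 b1045 (k8 b1046 i445 i23 b35 b272 i904 b94 i826 (k8 b1035 b360 b4 b430 b437 b130 b75 b52 (k8 b48 b1049 b538 b339 b21 b989 b120 b260 (k8 i631 b930 i1072 b198 i2032 b329 i1831 i770 (k8 b308 b345 b600 i1666 i183 b1050 b425 i126 (k8 i1288 i1402 b761 b1051 i151 b70 b101 i1824 (k2 b108 b730 (k1 b210 k0))))))))) (by decide +kernel)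
def b1053 : PP 8 4 T 0x1001000002000080800000000000000000040800005002000120000000408000000 := rS 0x115549c12ab4 (k4 b1048 i1675 i807 i624 (k2 b334 b342 k0)) (by decide +kernel)
def b1054 : PP 8 4 T 0x1001000000000000000000004000000000080000000000500000000000008000000 := rS 0x9f0d (k2 b141 i760 (k1 b108 k0)) (by decide +kernel)
def b1055 : PP 8 4 T 0x101100002002000080000000000000000000000000000000000500000010408000002 := rS 0x5a2ea12271964a0902338b2dc9c775a1fcea542b87cfa5104aad946330a34ca4d0181c7ac1518745a2152a3c4a271b8447efd29a84be40219641a2b (k8 b35 b28 b1045 b1046 b272 i904 b94 i826 (k8 b1035 b119 b78 b374 b360 b48 b349 b430 (k8 b130 b128 b126 b423 b56 b38 b31 i23 (k8 i445 i963 i964 i960 i447 b1052 i123 i1387 (k8 b567 i1327 i182 i505 b345 i1539 b1054 i2030 (k8 b1053 i767 i2523 b294 b934 i2886 b706 b336 (k4 b989 b33 b1012 b260 (k2 b330 b905 k0)))))))) (by decide +kernel)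
def b1056 : PP 8 4 T 0x1000000002000080400000000000000000040000000002100000000000448000000 := rS 0x7d5ab0546a10e89442a5 (k8 b430 b130 b48 b126 b94 b423 b56 i768 (k2 i1542 i2030 k0)) (by decide +kernel)
def b1057 : PP 8 4 T 0x1000000000000000000000020000000000000000000008020000000000008000000 := rS 0xe866 (k2 i529 i530 (k1 i2962 k0)) (by decide +kernel)
def b1058 : PP 8 4 T 0x1101000002000080000001000000000000040000000008504400000000448000001 := rS 0x6749a26287102120064d561bd729531938f90d60a8c3a7317a846a2107a951e25 (k8 b48 b349 b430 b437 b130 b365 b94 b84 (k8 b390 b126 b423 b56 b1039 i2030 b108 i2869 (k8 i1598 i1330 i1272 i1273 b1057 b44 b348 b317 (k4 i750 b413 b2 b71 (k2 i1621 b946 k0))))) (by decide +kernel)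
def b1059 : PP 8 4 T 0x1000002002000080000002008000000000000000000008140120000010008000000 := rS 0x5f9b19aae432ccb8b12dd15051340ade183d0e83586c5138fdfa535097c561f (k8 i183 b35 i904 b94 i826 b1035 b119 b360 (k8 b75 b52 b28 b126 b38 b108 b101 b138 (k8 b987 b706 b303 i775 i1296 b330 i513 b772 (k4 b395 i129 i1705 i1456 (k1 i594 k0))))) (by decide +kernel)
def b1060 : PP 8 4 T 0x10000000020000800000000000000040000004000000080a0420000000008000000 := rS 0x4aa2466b98a98ccc02381245a2f508d462a5 (k8 b430 b273 b365 b94 b84 b128 i72 i789 (k8 i788 i529 i1351 b334 i1408 i192 i191 i1674 (k1 b161 k0))) (by decide +kernel)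
def b1061 : PP 8 4 T 0x111000000002000080000000008000004000000500000000002000000000008000000 := rS 0x894a98012c1518b4e62f508d462a55c8cce26333c591e25 (k8 b48 b349 b294 b85 i537 i750 b80 b387 (k8 b430 b273 b365 b94 b84 b390 b128 b423 (k4 b56 b752 b582 b643 (k2 i1277 i2033 k0)))) (by decide +kernel)
def b1062 : PP 8 4 T 0x101100002002000080400000000000000000040000000000100500000010408000000 := rS 0x70784fa0902b78646466cf4ec58ea482693954ad32a4e86b43b958aa1f1e8746ac318b141ea5478958e27158dc7efd29900865906a849601 (k8 b1055 b794 b94 b28 b1045 b1046 b272 i826 (k8 b1035 b119 b374 b35 b360 b4 b48 b349 (k8 b430 b437 b75 b273 b52 b365 b126 b38 (k8 i183 b1056 b345 i1628 b1058 b425 i1369 b780 (k8 i1288 b761 b1059 b1060 b348 i1010 b294 b313 (k8 b36 b80 b989 b1061 b101 b138 b706 b771 (k2 b758 b427 (k1 i1851 k0)))))))) (by decide +kernel)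
def b1063 : PP 8 4 T 0x101100002002000080400000000000000000040000000000000500000010408000000 := rS 0xde885ca54667c3b950e2b52b825261f86940160760a8c3a2d398bd4235188841ea54789480432c8349601 (k8 b1055 b794 b28 b1045 b1046 b272 b48 b349 (k8 b430 b437 b130 b273 b365 b94 b84 b390 (k8 b128 b126 b423 b56 b31 b311 b1062 b32 (k8 b569 b671 i1309 b589 i1397 i1359 b345 b1048 (k4 i2030 b934 i1598 i1330 (k2 i2033 i1317 (k1 b744 k0))))))) (by decide +kernel)
def b1064 : PP 8 4 T 0x101000002002000080000000008000000000080000000002004000000010408000000 := rS 0x863ca153f192e99a28093b1c4906f669349c7512b0d8a216389c561586a4ce6a1 (k8 b94 b390 i1638 b141 b404 b35 b360 b4 (k8 b130 b75 b52 b48 i1540 i1658 i2547 i2517 (k8 i1272 b348 i2506 b1061 b752 b413 i752 b753 (k4 b754 i3025 i1544 i1013 (k2 i2032 b680 k0))))) (by decide +kernel)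
def b1065 : PP 8 4 T 0x101100002002000080400000000000000000000000000000000500000010408000000 := rS 0x512b15554ada19f81ea529900865906a849601 (k8 b1055 b794 b94 b28 b1045 b1046 b272 i826 (k8 b430 b437 b1063 b337 i1556 b761 b1064 b345 (k2 b600 i1666 k0))) (by decide +kernel)
def b1066 : PP 8 4 T 0x101100002002000080000000000000000000000000000000000500000010408000000 := rS 0x67a762c33899dd0448409d49ab727151687f2b87cfa5104aad944b0094c80432c8f582a3508746a0d618c58a2152a3c4a27158547efd (k8 b1035 b119 b404 b35 b360 b48 b349 b430 (k8 b130 b75 b273 b52 b28 b365 b126 b94 (k8 b423 b56 b38 b1045 b1046 b272 i826 b1055 (k8 b794 b1065 i123 i1387 b567 i1327 i182 i505 (k8 b1054 i2030 b345 i767 i2523 i2550 i1540 i2886 (k8 b348 b706 i2509 b33 b934 b294 b313 b36 (k1 b776 k0))))))) (by decide +kernel)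
def b1067 : PP 8 4 T 0x1001000000000000000000000000000000000000000000100100000000088000000 := rS 0x98052118c826e (k4 b144 i183 i1319 b272 (k2 b74 b143 (k1 b1040 k0))) (by decide +kernel)
def b1068 : PP 8 4 T 0x1001000000000000000000000000000000000000000000000100000000088000000 := rS 0x1048650 (k4 b1067 b238 b569 b272 k0) (by decide +kernel)
def b1069 : PP 8 4 T 0x1100002002000000000000000000000008000000000010000480000000008000000 := rS 0x681ee32778b0cd928d4599cca4c000346e11 (k8 b78 b374 b28 b355 b143 i963 i449 i451 (k8 i964 i613 b538 b339 b21 b989 i817 b120 (k1 i654 k0))) (by decide +kernel)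
def b1070 : PP 8 4 T 0x11000000000000000600000008000000000080044000000000000000000008000000 := rS 0x8a9c55095 (k4 i1101 i583 i800 b305 (k1 b413 k0)) (by decide +kernel)
def b1071 : PP 8 4 T 0x11100002002000080400000008000000008080000000400080400000000008000002 := rS 0x340f1193bc5866c9379851a8b339945a73508346e11 (k8 b78 b374 b28 b94 b390 b128 i963 i449 (k8 i451 i964 i960 i1271 b1070 b538 b339 b21 (k4 b989 b198 b120 i1072 k0))) (by decide +kernel)
def b1072 : PP 8 4 T 0x400000000000011100002002000080400000000000000008080000000404400500000010008000000 := rS 0x20d02798c9762809389bc904b00adc9a4e28aa87a1d39a841a0f5289c56151f87dfaad (k8 i1556 b1035 b1068 b119 b404 b35 b360 b430 (k8 b437 b28 b94 b390 b126 b38 b761 i497 (k8 b108 i2547 i2519 b1071 b794 b348 i1272 i2506 (k8 b752 b413 b753 b754 i1013 i1276 b758 b706 k0)))) (by decide +kernel)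
def b1073 : PP 8 4 T 0x1100002002000080000000000000000000000000000000000500000010408000000 := rS 0x28aad945f29900867ea187d0d0d5a9f50a596695e20c151a843a2561b1442a56389c56fd (k8 b1035 b35 b360 b4 b430 b130 b75 b52 (k8 b48 b126 b94 b423 b56 b1066 b11 b370 (k8 b361 b64 b65 b277 b986 i2032 b1068 b624 (k8 i2030 b1069 b272 i826 i904 b1072 i123 b567 (k1 b1054 k0))))) (by decide +kernel)
def b1074 : PP 8 4 T 0x1101000002000080000001000000000000040000010000508400000000408000121 := rS 0x6f8aa20e2938b19ceeac5ca54ac7c0f93a1ac151874e62f508d442a547895920f (k8 b437 i611 b48 b349 b430 b130 b365 b94 (k8 b84 b390 b126 b423 b56 b1039 b108 i1269 (k8 i2030 i1274 i1598 i1330 i1273 i2981 i490 b339 (k4 b7 i1360 b946 b2 (k2 i1317 b413 k0))))) (by decide +kernel)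
def b1075 : PP 8 4 T 0x1101000002000080000002000000000000000000005000008400000000008000021 := rS 0xb9339dd2a7144c505ea11aaa416c907a4d1e25 (k8 b48 b349 i1369 b437 i611 b311 i572 b365 (k8 b94 b84 b342 b2 b334 b435 i807 i490 (k2 b737 b946 k0))) (by decide +kernel)
def b1076 : PP 8 4 T 0x1101000002000080000002000000000000000000014000018400000000008000021 := rS 0x11733ae0ee6e38981920f (k8 b437 i611 b1075 i1280 i1047 i807 i1399 i490 (k2 b387 b339 k0)) (by decide +kernel)
def b1077 : PP 8 4 T 0x101101000002000080400000000000000000000000000010518410000000408000121 := rS 0x1bd109538ae4ef16199d43e672a138ae93869f96a653182c0e7317a846a0d128c5920f (k8 b437 i611 b273 b48 b28 b365 b94 b84 (k8 b390 b31 b311 i487 b788 b1076 b1074 b141 (k8 i1638 i1666 b108 b345 i489 i1269 i1539 b538 (k8 b339 b21 b387 i799 b643 b946 i1317 b744 k0)))) (by decide +kernel)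
def b1078 : PP 8 4 T 0x101101000002000080000000020000000000000000000000208410000000408000021 := rS 0x22527148b18cca674a9c4aeb917a846a2518aa416c90793cc249 (k8 i29 i1312 i31 b437 i611 b311 i572 b273 (k8 b48 b365 b94 b84 i1290 i1582 i2875 i1558 (k8 i1622 b793 i488 b339 b342 b7 b2 b946 k0))) (by decide +kernel)
def b1079 : PP 8 4 T 0x101100002002000080400000000000000000000000000010418410000000408040121 := rS 0xe5368b36450d26b31958fcaa56984a00760a8c5ea106b0d8a0f52845fad10a925520b (k8 b311 i572 i29 b404 b231 b1035 b78 b430 (k8 b437 b75 b52 b28 b94 b84 b423 b56 (k8 b31 b1077 i1312 b1078 i2027 i498 i497 i2305 (k8 i2315 i2997 b342 b536 i2311 b983 b891 b724 k0)))) (by decide +kernel)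
def b1080 : PP 8 4 T 0x101101000002000080000000004000000000000000000000518410000000408000121 := rS 0x16a7f3298c4a31 (k4 b273 b48 i487 b788 (k2 b1054 b1076 (k1 b1074 k0))) (by decide +kernel)
def b1081 : PP 8 4 T 0x1100002002000090900002000000000000000000000000208400000000008040100 := rS 0xe53e8b592c502cf4ea155f162b19416a7038f46a2561b158e270a8dc2267 (k8 i2308 b78 b374 b404 b360 b4 b75 b52 (k8 b48 b365 b38 b31 b18 b311 b780 i1398 (k8 b339 i2324 b931 b313 b36 i1402 i1315 b464 (k4 i2310 b626 b891 b874 k0)))) (by decide +kernel)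
def b1082 : PP 8 4 T 0x101100002002000080000000000000000000000000000010418410000000408040121 := rS 0x888a254c6713bc58ea652a1f8aeb55c9861a504999cfb4355b28e62f508d44a317eb442a495482d920f (k8 b437 i611 b311 i572 i29 b404 b231 b1035 (k8 b273 b48 b365 b94 b84 b390 b1079 i123 (k8 b79 i1328 i2308 i1367 b1080 b32 i1312 b737 (k8 b1081 i506 b315 b345 b793 i1539 b339 b21 (k4 i799 i488 b643 b342 (k2 b946 b2 k0)))))) (by decide +kernel)
def b1083 : PP 8 4 T 0x1100002002000080000000000000000000000000000000000400000010408000000 := rS 0xe53e783dc659e778b27466654319cea856695e20c96894cb2042690494010484c880b1a8958631628841ec7138ac2a37 (k8 b374 b404 b35 b360 b4 b437 b130 b75 (k8 b273 b52 b48 b365 b311 b1073 b269 b312 (k8 b47 b66 i22 b270 b139 i603 i564 b231 (k8 i611 b1082 b11 b370 b64 b426 i489 i2032 (k8 i1049 b538 b331 b339 b21 b36 b989 i817 (k4 b198 b206 i1851 b427 k0)))))) (by decide +kernel)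
def b1084 : PP 8 4 T 0x8001000002002000000000000000000000140000001000020020000000010408000000 := rS 0x8566a1cf45e35b4232334e89586c510b1c4e2b (k8 b35 b360 b4 b130 b75 b52 b48 b313 (k8 b80 b989 b120 i2425 i653 i654 i930 i891 (k2 i1895 i2032 k0))) (by decide +kernel)
def b1085 : PP 8 4 T 0x1000002000000090000000000000100150000000001000000000000000008000000 := rS 0x461363d17a846e3f (k8 b119 b374 b94 b84 b38 b983 b120 b718 k0) (by decide +kernel)
def b1086 : PP 8 4 T 0x101100002002000080000000000000000000000000000000000010000010408000000 := rS 0x10e6b68266288954949947e3b320eb172e98cc28d45960984b2d8140067329080607169cd420d18a3c4a37089b58e570f9148cfd (k8 b1035 b1083 b42 b1068 i1577 b4 i1695 b78 (k8 b374 b48 b349 b273 b28 b94 b390 b128 (k8 b31 b354 b272 b793 i1618 b355 b74 b81 (k8 b436 b143 b1046 i451 i964 i960 i447 i2259 (k8 b1084 b1034 b339 b294 b1041 i845 i844 i2416 (k4 b234 b342 b133 b1085 (k2 i2425 i930 (k1 b1025 k0)))))))) (by decide +kernel)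
def b1087 : PP 8 4 T 0x101000002002000080000000000000000000040000000002100820000010408000002 := rS 0xcc4117503195b93a2c335a1dcfaca1eb0546a10e8854a8f1289c56111f87c8afd01934868d1b9845a63039d4ca31 (k8 b273 i962 i1539 b31 i447 b128 i960 b374 (k8 i964 i21 i445 i23 b1035 b42 b1068 b119 (k8 b78 b35 b360 b48 b349 b430 b130 b126 (k8 b94 b423 b56 b38 b1056 i1542 b1053 i2030 (k8 b934 b294 i767 i2523 b989 i2886 b260 b706 (k2 b1028 i2525 k0)))))) (by decide +kernel)
def b1088 : PP 8 4 T 0x101000002002000080000000000000000000040000000002000820000010408000002 := rS 0x17295199f112713bad5529365c34a075319940a0760a8c3a2d398bd4235188854a8f1287c8afd (k8 b1035 b42 b1068 b48 b349 b430 b130 b273 (k8 b365 b94 b84 b390 b128 b126 b423 b56 (k8 b31 i2 i962 i447 i1539 b1087 b32 b567 (k8 b671 b595 i1397 b1047 b669 b169 i2030 b934 (k2 b643 i1330 (k1 i2033 k0)))))) (by decide +kernel)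
def b1089 : PP 8 4 T 0x1100000000000080000002000000000000000000000002004800000001008000000 := rS 0x240149a65 (k4 b780 i2550 i265 b348 (k1 b97 k0)) (by decide +kernel)
def b1090 : PP 8 4 T 0x101100002002000080000000000000000000040000000000000000000010408000000 := rS 0x15106354a4c9a3338ae52a503b9f16a75258040ec1518745a7317a846a3110a951e1f22bf4a85920094ae46 (k8 b1083 i1577 b48 b1086 i866 b345 b1035 b42 (k8 b1068 b349 b430 b130 b273 b365 b94 b84 (k8 b390 b128 b126 b423 b56 b31 b1088 b794 (k8 i1540 b1089 i2030 b1048 i1542 i1598 i1330 i1361 (k8 b934 i791 b671 b595 b176 i2033 i264 b169 k0))))) (by decide +kernel)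
def b1091 : PP 8 4 T 0x101100002002000080000000000000000000000000000000000000000010408000000 := rS 0xca282b6867e2990142fd22aac8ca3 (k8 b423 b1083 i1655 b42 b1035 b94 b1086 i826 (k4 b1090 b337 i1556 b1054 (k2 b433 b567 k0))) (by decide +kernel)
def b1092 : PP 8 4 T 0x400000000000001101000000000000000000004000000000080000000010000080000000008000000 := rS 0xca292b4a255 (k4 b310 b238 i1555 b1054 (k2 b433 i621 k0)) (by decide +kernel)
def b1093 : PP 8 4 T 0x1100002002000080000000000000000000000000000000000000000010408000000 := rS 0x651415a532010cfd435a9f4b3100faac8a4660a8d421d128854afd (k8 b1035 b430 b130 b48 b126 b94 b423 b56 (k8 b1083 b42 i1655 b1068 b1091 b361 b65 b277 (k8 b624 i2030 b1092 b272 i826 i1556 b1054 b433 (k1 b567 k0)))) (by decide +kernel)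
def b1094 : PP 8 4 T 0x1001000000000000000000000000000000020800005000004000000000008000000 := rS 0x54c54dc92 (k4 i1629 i1630 b71 i1055 (k1 b342 k0)) (by decide +kernel)
def b1095 : PP 8 4 T 0x1200002002000000000000084400000000000000000000000000000000008000000 := rS 0x1b4260d61b141e15089ac8e69 (k8 b140 b383 b353 b78 b404 b437 b75 b52 (k4 b28 i1920 i593 b536 k0)) (by decide +kernel)
def b1096 : PP 8 4 T 0x1000000000000000000800050000000000000000000000000004000000008000200 := rS 0x16345 (k2 b63 i1299 (k1 b215 k0)) (by decide +kernel)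
def b1097 : PP 8 4 T 0x800000000000001000002002000080000400000000000000000000000000000000000000008000000 := rS 0x2ed7aa71eb0546c362a958e3f (k8 b119 b4 b430 b75 b52 b423 b56 b38 (k4 b18 b62 b114 i2036 k0)) (by decide +kernel)
def b1098 : PP 8 4 T 0x1200000000000000000011005000010000040200044004800080000000018000004 := rS 0x491c592652ab2c9e51 (k8 b238 b91 b145 b30 b9 b288 i798 b167 (k1 i1590 k0)) (by decide +kernel)
def b1099 : PP 8 4 T 0x1000002002000090000400000000008000020020000000000000000000008000002 := rS 0xbc40aed2e9d8c29c7ac151b0d8aa5638fcce0d458451a37 (k8 b374 i964 b78 i451 b28 i449 b119 b4 (k8 b430 b75 b52 b423 b56 b38 b18 b120 (k4 b510 b26 i1639 i1362 (k2 i2036 i1331 k0)))) (by decide +kernel)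
def b1100 : PP 8 4 T 0x4101200002002000080000001000000000000060000000000800080000010048000004 := rS 0x815b9e4bcd0491c22aa83a0f43a2715930ce9539a85728f12accee63308005a4b7ea0e86bf57a9c100f03b0546ab5295c1a596582d5a3f (k8 b119 b118 b311 b145 b43 b28 i441 b430 (k8 i1595 b423 b56 b31 b437 b667 b18 b1095 (k8 b1096 b1097 i922 b1035 b436 b128 b355 i960 (k8 i447 b1094 i1427 b48 b349 i1330 b94 b390 (k8 i1598 i449 b143 b35 b360 b126 b38 b294 (k8 b1098 b305 i575 b268 b1099 i653 i1071 i853 (k2 i1363 b706 k0))))))) (by decide +kernel)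
def b1101 : PP 8 4 T 0x101000002002000080000001000000000000040000000000000080000010448000004 := rS 0x715424e2c7729255570d3e305461d39a8442a547895fac932ab597042792c98512b99c1a611698c0007 (k8 b31 b355 i447 b128 i960 b28 i449 i441 (k8 b238 b143 b436 b91 b1093 b145 b118 b9 (k8 b288 b1035 b48 b349 b430 b130 b94 b390 (k8 b126 b423 b56 i2030 b1039 i1595 i1598 b108 (k4 b1094 b1100 b7 b693 (k2 i1360 i575 k0)))))) (by decide +kernel)
def b1102 : PP 8 4 T 0x101000002002000080000000000000000000040000000000000110000010408000000 := rS 0xd03da64e2828a22502b754c30a6b4319851a8b289309e050010806071e8745a27158dc223f2cc103efd (k8 b1035 b1068 b1093 b43 b119 b78 b374 b35 (k8 b360 b128 b126 b38 b31 b354 b272 b355 (k8 b74 b91 b143 b238 i451 i964 i960 i447 (k8 b1101 i882 b108 i574 b101 b138 b169 b342 (k4 b706 b334 b133 i815 (k2 b1085 i654 k0)))))) (by decide +kernel)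
def b1103 : PP 8 4 T 0x1201000002000080000001000000000000040000000000400000000000448000000 := rS 0x41409eab869f0160760a8d421d06894420f5291d5acb (k8 b145 b118 b383 b430 b437 b130 b48 b28 (k8 b126 b94 b423 b56 b31 b311 i2030 b1039 (k4 i1596 i1273 b108 i2027 (k1 i1309 k0)))) (by decide +kernel)
def b1104 : PP 8 4 T 0x1001000000000000100002000000000000000800005000000000000000008000000 := rS 0x8aaa4e0b8 (k4 i808 i807 i1139 b334 (k1 b342 k0)) (by decide +kernel)
def b1105 : PP 8 4 T 0x1001000000000000000000000000000000000008001000500000000000008000000 := rS 0x9f0d (k2 b397 i1271 (k1 b108 k0)) (by decide +kernel)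
def b1106 : PP 8 4 T 0x101000000000000000000020000000000400000404000000000000000000008000000 := rS 0xeb17 (k2 b387 i1065 (k1 b294 k0)) (by decide +kernel)
def b1107 : PP 8 4 T 0x1201000000000000000010005000004000000000045000000000000000008000000 := rS 0x12914649955acb (k4 b145 b118 b9 b288 (k2 b342 i2040 (k1 b435 k0))) (by decide +kernel)
def b1108 : PP 8 4 T 0x1000000000000000000000040000000000800000000400000004000000008000200 := rS 0x16345 (k2 b303 i1296 (k1 b215 k0)) (by decide +kernel)
def b1109 : PP 8 4 T 0x1200002002000080000000004000000000100000000400400000000010048000000 := rS 0x163455b20d5e0805a9c0e3d60a8c3a0d07a944e2b1f91d5acb (k8 b145 b118 b383 b119 b35 b360 b430 b437 (k8 b28 b126 b423 b56 b38 b31 b18 b311 (k4 i2027 b1095 b1108 b706 (k2 b70 i1824 (k1 b215 k0))))) (by decide +kernel)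
def b1110 : PP 8 4 T 0x101000000000000000000000000000000400000400000000000000008000408000000 := rS 0xeb17 (k2 b80 i1585 (k1 b294 k0)) (by decide +kernel)
def b1111 : PP 8 4 T 0x1001000002000080000010001000004000000000005000000000004000008000010 := rS 0x252288960a8c5a2f508d462a5 (k8 b430 b273 b365 b94 b84 b128 b423 b56 (k4 b169 b342 i2033 b435 k0)) (by decide +kernel)
def b1112 : PP 8 4 T 0x1000002000000080000000040000000000100000000400080000000010048000200 := rS 0x20d6e3d0e89c563f (k8 b119 b35 b360 b126 b38 i762 b1108 b706 k0) (by decide +kernel)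
def b1113 : PP 8 4 T 0x1000002002000014000000000001000040000000010000000000004000008040000 := rS 0x1ca7c6ac318b158e37 (k8 b374 b4 b75 b273 b52 b365 b626 b891 (k1 b427 k0)) (by decide +kernel)
def b1114 : PP 8 4 T 0x111000002002000080000002008000000000140000500400080500000010008000200 := rS 0xb64121cd8bd09ab966a706b0d8a0f138ac2a111f87dfa7d (k8 i126 b1035 b1068 b119 b78 b404 b35 b360 (k8 b437 b75 b52 b28 b18 i1427 b1112 i1920 (k4 i1986 b536 i934 b730 (k2 b772 i151 k0)))) (by decide +kernel)
def b1115 : PP 8 4 T 0x1200002002000000000000000000000000000000000204000000000000008000000 := rS 0x1b4260d61b141e15089ac8e69 (k8 b140 b383 b353 b78 b404 b437 b75 b52 (k4 b28 b253 i515 b536 k0)) (by decide +kernel)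
def b1116 : PP 8 4 T 0x1000000000000000000000000000000000200000000500100000000000008000000 := rS 0xb713 (k2 b60 i1810 (k1 b330 k0)) (by decide +kernel)
def b1117 : PP 8 4 T 0x1000002002000080000004008000000000100000000404000100000010408000000 := rS 0x210d8cd590344ac3628858e27158fc3efd43974ab04 (k8 b1093 b30 b1115 b646 b1035 b1068 b119 b35 (k8 b360 b4 b130 b75 b52 b48 b28 b772 (k4 b1051 i665 i2032 i1603 k0))) (by decide +kernel)
def b1118 : PP 8 4 T 0x11100000200200008000000a008000000000140000500400500500000010008000000 := rS 0x266d570249c0d61b141e1508bf4fa83 (k8 i151 i126 b1035 b78 b404 b437 b75 b52 (k4 b28 b108 b1114 i762 (k2 b730 i1921 (k1 b536 k0)))) (by decide +kernel)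
def b1119 : PP 8 4 T 0x10100000200200008000000a008000000000140000500400500500000010008000000 := rS 0x10c (k2 b1118 b101 k0) (by decide +kernel)
def b1120 : PP 8 4 T 0x101000002002000080000000000000000000040000000004000100000010408000000 := rS 0x16caa40974d6473497c56515a14c80a10fbf59704 (k8 b1093 b145 b1035 b1068 b94 b1102 i826 b1103 (k8 i1397 b35 i904 b140 b383 b353 b1115 b1116 (k2 b1109 b1117 (k1 b1119 k0)))) (by decide +kernel)
def b1121 : PP 8 4 T 0x1200002002000080000002004000000000000000000400400000000010048000000 := rS 0x872e20d00af0402d4e0760a8c1ac36283d4a15088fcd647569a4a2cb (k8 b145 i1397 b140 b118 b383 b353 b119 b78 (k8 b404 b430 b437 b75 b52 b28 b423 b56 (k8 b31 b18 b311 i2027 b1095 b1109 b1108 b1116 (k2 i933 b537 k0)))) (by decide +kernel)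
def b1122 : PP 8 4 T 0x1200002002000000000002000000000000200000000408000000000000008000000 := rS 0x218da5c4203586c507854226b239a4a2cb (k8 b145 i1397 b140 b383 b353 b78 b404 b437 (k8 b75 b52 b28 i1402 b1116 i1604 b537 i1705 k0)) (by decide +kernel)
def b1123 : PP 8 4 T 0x1000002002000080000004008000000005100000000400000100000010408000000 := rS 0x19a2561b1442c7138ac3efd (k8 b1035 b1068 b35 b360 b4 b130 b75 b52 (k2 b48 b1051 (k1 i2032 k0))) (by decide +kernel)
def b1124 : PP 8 4 T 0x1000002000000080000002100000000008000000400008100000000000008000100 := rS 0x2bd66135e17016a7038f42a11 (k8 b78 b404 b38 b31 b18 b311 i1706 i934 (k4 b253 i513 i1986 b464 k0)) (by decide +kernel)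
def b1125 : PP 8 4 T 0x1000002002000080000004008000000004100000000400000100000010408000000 := rS 0xb4842e83586c507854226b239a609134109c3a3f1e8ac3efd (k8 b1035 b1068 b35 b38 b119 b126 b360 b706 (k8 b33 b1093 b140 b383 b353 b78 b404 b437 (k4 b75 b52 b28 b537 (k2 b1123 b330 (k1 b905 k0))))) (by decide +kernel)
def b1126 : PP 8 4 T 0x101000002002000080000000000000000000040000000000000100000010408000000 := rS 0x57821788658a096e8155158a2b42f94c801f1ea843a27158fdfa6b239a59704 (k8 b1093 b145 b140 b383 b353 b1035 b119 b35 (k8 b360 b126 b94 b38 b1068 b1102 i826 i904 (k8 b1103 i1397 b1120 b1121 b1122 b1119 b706 i1296 (k4 b1125 i934 b1124 i1986 (k1 b1108 k0))))) (by decide +kernel)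
def b1127 : PP 8 4 T 0x400000000000101000000002000080000001000000000000050000000000000000000000408000000 := rS 0x10d (k2 b1039 b315 k0) (by decide +kernel)
def b1128 : PP 8 4 T 0x1000002000000082000004008000000000100000000080000000000010048000000 := rS 0x592ed043d0e89c563f (k8 b119 b35 b360 b126 b38 b706 i1948 i776 (k1 i666 k0)) (by decide +kernel)
def b1129 : PP 8 4 T 0x101000002002000080000000000000000000040000000100000000000010408000000 := rS 0x1809c98374356c5a899e0e917670cceecc438851e256389c56fd329553a513db44028b251343e815a1f4a743550254acb05ab40ec151a14d813089a586470683cd7040ab14be44 (k8 b1126 i644 b75 b404 b1093 b353 b437 b28 (k8 b383 b52 b140 b78 b269 b536 i1604 b423 (k8 b56 b31 b118 b311 b145 b430 b312 i2027 (k8 b104 i564 i1596 b1127 i1402 i1396 b270 b66 (k8 i2311 b47 b231 b637 i498 i1643 b30 b9 (k8 b1035 b35 b360 b4 b48 b349 b130 b646 (k8 i2032 i809 b1110 b1113 b36 b294 i1067 b414 (k8 b330 b1128 b101 i1933 i1932 b108 i1271 i2728 k0)))))))) (by decide +kernel)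
def b1130 : PP 8 4 T 0x101000002002000080000000000000000000040000000000000000000010408000000 := rS 0x10cb12b17102b4289f68685551b0a65f0484c880b03b05460d61b141ea50a844d647569a59704 (k8 b1093 b145 b140 b118 b383 b353 b78 b404 (k8 b430 b437 b75 b52 b28 b423 b56 b31 (k8 b311 b1126 b269 b312 i644 i564 b536 i2027 (k8 i1604 b104 i1596 i498 b1127 i1402 b1129 i515 (k2 i1847 b537 (k1 b1124 k0)))))) (by decide +kernel)
def b1131 : PP 8 4 T 0x4001200002000000080000000004000010148280000041000820000000000008000010 := rS 0xcf4fc65a0b844aa4e23d0e8bc6e3f649955acb4998d369939a869e9d (k8 b331 b111 b94 b390 i1864 b373 i536 i1638 (k8 b145 b118 b9 b288 b119 b374 b84 b126 (k8 b38 i800 i575 b234 i2040 b1085 b717 i1189 (k2 i1147 b378 k0)))) (by decide +kernel)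
def b1132 : PP 8 4 T 0x1200002000000080000000004000000148280800041000820000000000008000010 := rS 0x8cb452c7b381bd28758b9cd430d (k8 b141 b94 b390 b21 i79 b1131 i1057 b643 (k4 i1894 i1362 i654 b26 (k1 b120 k0))) (by decide +kernel)
def b1133 : PP 8 4 T 0x1200002000000080000000004000000148280000041000820000000000008000010 := rS 0x8968aa4f6713ba64e6a1 (k8 b94 b390 i1864 b1132 i799 i817 i575 i654 (k2 b234 b1085 k0)) (by decide +kernel)
def b1134 : PP 8 4 T 0x1001000000000000000080440000000000000000100000000000000000008000000 := rS 0x16345 (k2 b434 i1827 (k1 b395 k0)) (by decide +kernel)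
def b1135 : PP 8 4 T 0x1000002002000080000000004000000140080000041800820000000010448000010 := rS 0x2010cb7668f43a2561b1442c7138acb28342aed660807a941acb0591d5a0760a8c7eaf539a608fd (k8 b1035 b1093 b140 b18 b1095 b119 b423 b56 (k8 b31 b118 b383 b311 b145 b28 b430 b437 (k8 i2027 i1427 b1134 i1669 i922 b43 b35 b360 (k8 b4 b130 b75 b52 b48 b126 b38 i890 (k4 i853 i2032 b706 b1133 k0))))) (by decide +kernel)
def b1136 : PP 8 4 T 0x1000002002000080000000004000000140080000041140920000000010448000010 := rS 0x2c68ab64097d06b35782016a7038f582a30e8341ea5138ac7efd23ab59704 (k8 b1093 b145 b118 b383 b1035 b119 b35 b360 (k8 b430 b437 b28 b126 b423 b56 b38 b31 (k8 b18 b311 i2027 b1095 i1427 i922 b1135 b1116 (k4 b706 b70 i1823 b395 k0)))) (by decide +kernel)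
def b1137 : PP 8 4 T 0x11000002000000090000000000000000000200000000000000000000000048000002 := rS 0x1c4df154ba22308b08a346e6116a64e6a1 (k8 b94 b390 i1864 b128 i960 b374 i964 b78 (k8 i451 b120 b1085 b26 b2 i1317 i1362 b413 k0)) (by decide +kernel)
def b1138 : PP 8 4 T 0x11001002000000080000000000000000000200000004000024000000000048000002 := rS 0x11554a58e27a3cb40c22d (k8 b128 i960 b1137 i1071 i654 i1363 i1893 i575 (k2 b364 b342 k0)) (by decide +kernel)
def b1139 : PP 8 4 T 0x1000002000000080000000008000000008500000000800000000000010048000000 := rS 0x5fad95e3d0e89c563f (k8 b119 b35 b360 b126 b38 i590 b706 i1722 (k1 i857 k0)) (by decide +kernel)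
def b1140 : PP 8 4 T 0x1200002002000000000000000400000000880000000000800000000000008000000 := rS 0xda135fab96e0d61b141e15089ac8e69 (k8 b140 b383 b353 b78 b404 b437 b75 b52 (k4 b28 i151 i922 i1724 (k2 i1920 i594 (k1 b536 k0)))) (by decide +kernel)
def b1141 : PP 8 4 T 0x1000002002000080000000008000000001500000000800000000000010448000000 := rS 0x21d9a2561b1442c7138acb304 (k8 b1093 b43 b35 b360 b4 b130 b75 b52 (k4 b48 i890 b1139 i2032 k0)) (by decide +kernel)
def b1142 : PP 8 4 T 0x1000002002000080000000000000000000080000000000800100000010408000000 := rS 0x17acc5721d665f58d156c8342a05545d30a35166728930965b02800846320a9c7a1d169cd420d12b0d8a216389c5637088fcd655824343efd (k8 b1035 b1068 b141 b1093 b30 b353 b119 b78 (k8 b374 b35 b360 b4 b130 b75 b52 b48 (k8 b28 b94 b390 b128 b126 b38 b18 i826 (k8 i536 b272 b355 b74 b81 b436 b143 b238 (k8 i449 i451 i964 i960 i2259 b1136 b1138 i1670 (k8 b1140 b706 b70 i1823 b1141 i661 b646 b395 (k2 i2032 i1986 (k1 i849 k0)))))))) (by decide +kernel)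
def b1143 : PP 8 4 T 0x1000002002000080000000000000000000080000000000000100000010408000000 := rS 0xab2b824a0530f82c0ec1518341ea57e91d5acb8693cab04 (k8 b1093 b30 i759 b141 b145 b118 b383 b1035 (k8 b430 b437 b28 b423 b56 b31 b311 b1068 (k4 b1142 b108 i1309 b589 (k2 i497 i2027 k0)))) (by decide +kernel)
def b1144 : PP 8 4 T 0x1000002002000080000000000000000000080000000000000000000010408000000 := rS 0x228394daa4c28b31b45546c021280209099109e0b03b05462f5083586c507a942a117e9acaa47569a59704 (k8 b1093 b145 b140 b118 b383 b30 b353 b1035 (k8 b78 b404 b430 b437 b75 b52 b28 b94 (k8 b84 b423 b56 b31 b311 i759 b1143 b269 (k8 b312 b47 b66 b139 b536 i2027 b231 i2305 (k4 i2311 i1048 i572 b983 (k2 b891 b342 (k1 b724 k0))))))) (by decide +kernel)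
def b1145 : PP 8 4 T 0x1000002002000080000000000000000000000000000000000000000010408000000 := rS 0x110bc1e431756a7d42b34af103f95608c151a843a2561b1442a56389c56fd (k8 b1035 b35 b360 b4 b430 b130 b75 b52 (k8 b48 b126 b94 b423 b56 b1093 b30 b1144 (k8 b1130 b11 b370 b64 b65 b277 b1115 i2032 (k4 i2030 b646 b1068 i644 k0)))) (by decide +kernel)
def b1146 : PP 8 4 T 0x1000002000000000000000000000000000000000000000000000000020008000000 := rS 0x22da28d250042719220e0f615 (k8 b404 b307 b136 b1033 b107 b269 b47 b66 (k4 i1813 b231 i492 b120 k0)) (by decide +kernel)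
def b1147 : PP 8 4 T 0x1000002002000080000000000000000000000000000000800100000000008000000 := rS 0xaf042f957423ead55a5923c1192653392c004220b2e1a0b5381d82a1068c41ea51f80e22743fa8e2e32110a43efd (k8 b1035 b1068 b1146 b1145 b106 b80 b423 i1663 (k8 b109 b296 b276 b119 b430 b437 b273 b28 (k8 b94 b56 b31 b18 b311 b121 i622 i826 (k8 b272 b355 b436 i449 i962 i1063 b339 b383 (k8 b43 b118 i882 b1100 b315 b104 b1097 i2027 (k2 b1095 b1096 k0)))))) (by decide +kernel)
def b1148 : PP 8 4 T 0x1100000002000000000000000000000000000000000000000100000000808000002 := rS 0x2c1019043129d22e3233834ca31 (k8 b273 i962 b28 i449 b106 b80 b109 b48 (k4 b1034 b339 b272 i1064 (k1 i866 k0))) (by decide +kernel)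
def b1149 : PP 8 4 T 0x1000002002000080000000004000000000000000000000000100000000008000002 := rS 0xb949aa4deb42b9309e512102082cb569648ec98218cc2670581d822d0683d4a7f5195464774789622221487dfa53 (k8 b1147 b1035 b1068 b1146 b1145 b296 b48 b349 (k8 b356 b106 b934 b423 i1663 b430 b437 b28 (k8 b128 b56 b31 b311 i449 i960 i447 b1148 (k8 b288 b383 b43 b118 b145 b571 i2027 b272 (k8 i1309 b91 b143 i441 b162 b1105 i574 i1369 (k2 b1106 b1107 k0)))))) (by decide +kernel)
def b1150 : PP 8 4 T 0x1000000000000000000000000000000000000000000000000100000000808000001 := rS 0x200108603 (k4 b276 b355 b317 b272 (k1 i2137 k0)) (by decide +kernel)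
def b1151 : PP 8 4 T 0x1000002002000080000000000000000000000000000000000100000000008000000 := rS 0xf482682056e9938a2619142613d724237904a293a1b25550430a3516670014c3e3d0e8b41a8f1289c5637088fdfa77889fe2e951908852a3 (k8 b423 b1146 b1145 b106 i1671 b80 i1663 b296 (k8 b356 b1035 b119 b78 b374 b35 b360 b48 (k8 b349 b28 b128 b126 b38 b1068 b1147 b1150 (k8 i449 i451 i964 i960 b1148 b1149 b288 b104 (k8 i1635 i498 b571 b1105 b272 b1106 b91 b143 (k8 b268 b108 b2 b334 b133 b101 b138 b1085 (k2 b706 i654 (k1 i815 k0)))))))) (by decide +kernel)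
def b1152 : PP 8 4 T 0x1001000000000090000000001000000040000000005000000000000000008150100 := rS 0x1144d8bd4239 (k4 b891 b94 b84 b983 (k2 b342 b724 k0)) (by decide +kernel)
def b1153 : PP 8 4 T 0x1000002002000080000000000000000000000000000000000000000000008000000 := rS 0x236329a59a5d1299271b8c0631caa916cb56c1192a933b44084a0091c1213220c8ee03110a5fa3f088dc2a0b5381c7ac1518b45ea106b0c1ea5 (k8 b430 b437 b52 b28 b94 b84 b128 b423 (k8 b56 b38 b31 b18 b311 b404 b374 b78 (k8 b119 b1035 b1146 b1145 b276 b356 b106 b1151 (k8 b269 b312 b42 b47 b66 b139 b231 i490 (k8 i572 i611 b538 b118 b145 b982 i2027 b891 (k8 i2305 b1152 i1047 i1048 i2728 i1277 i1284 i2914 (k4 b375 b72 i1034 b120 k0))))))) (by decide +kernel)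
def b1154 : PP 8 4 T 0x101101000002000080000000004000000000040000000000800100000000408000002 := rS 0x541c5271619b24eeb92612cf8425a90582a35087442a5478940a670699462611698c0e1f (k8 b1068 b31 i447 b128 i960 b273 i962 b28 (k8 i449 i2 b48 b349 b430 b130 b126 b94 (k8 b423 b56 i826 i883 b272 i2030 b436 b143 (k8 i1330 b1094 i614 b1110 b339 b7 i1360 b1111 (k1 i575 k0))))) (by decide +kernel)
def b1155 : PP 8 4 T 0x101001000002000080000000000000000000040000000000400080000000408000002 := rS 0x5c8ccee9338ad2290c37aa4a24c27a3c4a05308b4c607 (k8 b31 i447 b128 i960 i2 b48 b349 b91 (k8 b143 b238 i574 b1105 b108 b342 b1039 b334 (k4 b71 i807 b1110 b1106 (k1 b1111 k0)))) (by decide +kernel)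
def b1156 : PP 8 4 T 0x1001001000000000000000000000000000200000000400500101000000008040000 := rS 0x2215581709d0d (k4 b138 b108 b1116 i1275 (k2 i509 i1761 (k1 b439 k0))) (by decide +kernel)
def b1157 : PP 8 4 T 0x101001000002000080000000000000000000040000000000200120000000408000002 := rS 0x172333e1dd6aa949b2d82a35087442a5478940a611698c0e1f (k8 b1068 b31 i447 b128 i960 i2 b48 b349 (k8 b430 b130 b126 b94 b423 b56 b567 b671 (k4 b595 i1397 b1047 i2030 (k2 b1110 i1330 (k1 b1111 k0))))) (by decide +kernel)
def b1158 : PP 8 4 T 0x1001001000000000000000000000000000200000000400500101000000008000000 := rS 0x245c (k2 b1116 b1156 (k1 b253 k0)) (by decide +kernel)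
def b1159 : PP 8 4 T 0x1000001000000080000000000000000000100000000000080000000054048080000 := rS 0xfd6eb341c495ea7 (k8 b18 i1920 b325 b33 i1429 i762 i217 b767 k0) (by decide +kernel)
def b1160 : PP 8 4 T 0x101101000002000080000000004000000000140000000000500120000054408010000 := rS 0x3297a6c56d0c7ccd5a2de184f35a1c25120aa9c7a1d06b0c42a57887cb225 (k8 b48 i866 b1068 b1153 b430 b130 b52 b28 (k8 b126 b38 b18 b230 b325 b439 b0 i1960 (k8 b1159 b108 b101 b1039 b815 b767 b425 i1288 (k4 b528 i1411 b433 i674 k0)))) (by decide +kernel)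
def b1161 : PP 8 4 T 0x101101000002000080000000004000000000040000000000000100000010408010002 := rS 0x2327968168288d099ee262a13a04a25f2513492402194de23d (k8 b38 b1153 b1154 b1155 b272 b95 i445 b348 (k8 b502 b1157 b1158 b889 b1160 b376 b379 i213 (k4 i965 b439 i378 i637 (k2 i1807 b292 (k1 b343 k0))))) (by decide +kernel)
def b1162 : PP 8 4 T 0x901100000002000000000000000000000000000001100408000140000014408100000 := rS 0x14e661ac8e2510900ba85 (k8 b25 b22 b272 b130 b48 b882 i507 b679 (k2 b308 b329 k0)) (by decide +kernel)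
def b1163 : PP 8 4 T 0x901101000002000080000000000005000000044001100040000140000014408100002 := rS 0x33a2c77651d59a542b9e50a874799462611698c0e1f2c894be4a26924a240 (k8 b272 b1157 b95 i445 b348 b502 b48 i866 (k8 b1068 b31 i447 b128 i960 b273 i962 b349 (k8 b0 b25 b414 b1162 b345 b959 i1539 b1056 (k4 b1053 b294 b388 b36 k0)))) (by decide +kernel)
def b1164 : PP 8 4 T 0x1100000000000011000000000000000540000001150008000000000000008000000 := rS 0xce8b1ad929f (k4 b626 i504 i508 b339 (k2 b908 b36 k0)) (by decide +kernel)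
def b1165 : PP 8 4 T 0x101101000002000080000000004000000000040000000000000100000010408000002 := rS 0x64aa22cb919a4ceeca3a950aecd1544d3a7b4f89cd26d4696da215081bca28b2c934804329b151e257880c0a670699462611698c0e1f (k8 b1068 b31 i447 b128 i960 b273 i962 b28 (k8 i449 i2 i23 b1153 b48 b349 b75 b1154 (k8 b1155 b272 i445 i866 b480 b1157 b1105 b1161 (k8 i136 b309 b531 i1760 i475 i1763 b529 b626 (k8 b637 b510 b1163 b325 i888 b1164 b345 i1539 (k8 b1056 b1053 i1366 b1110 b1106 b294 b1111 b336 (k1 i623 k0))))))) (by decide +kernel)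
def b1166 : PP 8 4 T 0x201000000002000080000000000000000000040000000000000000000000448000000 := rS 0xb53eb0546a10e89442a5 (k8 b430 b130 b48 b126 b94 b423 b56 b65 (k2 b277 i2030 k0)) (by decide +kernel)
def b1167 : PP 8 4 T 0x1000000002000080000001010000000000020000000000800480000010408010200 := rS 0x5f0fd76bd59b31025f42a1e24c75789c242b538f582a312b0d8a2152bc42a5b (k8 b81 b229 b1153 b430 b130 b75 b52 b48 (k8 b423 b56 b38 b18 i897 b439 i1797 i1920 (k8 i218 b325 b0 b25 b39 b60 i2032 i661 (k4 i1331 i1949 i217 i2036 (k1 b1096 k0))))) (by decide +kernel)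
def b1168 : PP 8 4 T 0x101000000000000008000000000000000400001400000000000000000000008000000 := rS 0xeb17 (k2 b36 i1067 (k1 b294 k0)) (by decide +kernel)
def b1169 : PP 8 4 T 0x1200000000000014000000000000000140000001050000000000000000008000000 := rS 0x4fb24d669 (k4 b140 b353 b288 b626 (k1 b908 k0)) (by decide +kernel)
def b1170 : PP 8 4 T 0x1000001000000080000000002000100080100000000000020000000054048000000 := rS 0x1fadd2c70 (k4 i575 i578 i802 b416 (k1 b767 k0)) (by decide +kernel)
def b1171 : PP 8 4 T 0x1201000000000000000010005000000000000000045000000000000000008000000 := rS 0x12514 (k2 b342 b1107 (k1 b71 k0)) (by decide +kernel)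
def b1172 : PP 8 4 T 0x101200000002000080000000002000000000000400000040120000000050048020002 := rS 0x9c70994533cf2818917d1e257899cca313181cbad14680cda0d (k8 b28 i475 i23 i1760 b309 i2259 b31 i447 (k8 b273 i962 i449 b1153 b48 b349 i470 b330 (k8 b1116 b414 b1168 b1169 i1939 i452 b400 b1170 k0))) (by decide +kernel)
def b1173 : PP 8 4 T 0x1001000002000080000000004000000000040000000000800100000010408000002 := rS 0x45b3d9a9f1c9d05470541b51ad1081dd724c2596cf8425a905421d10a3c4a033399462611698d926b3494410ad07a941a0b6591e091103b05461f (k8 b1068 b423 b56 b31 b1166 b1165 b383 b145 (k8 b311 b28 b430 b437 b118 i2027 i1309 b140 (k8 b353 b288 i447 b128 i960 b273 i962 i449 (k8 i23 b48 b349 b130 b126 b94 i826 i883 (k8 b272 i2030 b81 b436 b143 i1330 b1094 b1167 (k8 b309 i1760 i475 b1171 i575 b1172 i1361 b271 (k4 b197 i888 i1068 i452 (k1 b908 k0)))))))) (by decide +kernel)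
def b1174 : PP 8 4 T 0x1001000002000080000000000000000001100000000000500500000054408010000 := rS 0x10c6631c9e87094482aa71e8744ac362885e21f (k8 b1068 b1153 b130 b75 b52 b48 b126 b38 (k8 b18 b230 b325 b439 b0 b1159 i218 i2032 (k2 b108 b815 k0))) (by decide +kernel)
def b1175 : PP 8 4 T 0x1001000002000080000000000000000001000000000000500540000010408010002 := rS 0x464f2d02d0511a133dc4c54274097c944d24901e23d (k8 b38 b1153 b272 b95 i445 b348 b502 b1158 (k8 b889 b1174 b376 b379 i213 i965 b439 i378 (k4 i637 i1807 b292 b343 k0))) (by decide +kernel)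
def b1176 : PP 8 4 T 0x1001000002000080000000004000000000040000000000000100000010408000002 := rS 0x2a43c4ce878a7c5d9c9f139b51ad108215164a26900ee435a14ca208659a55a4735b26091105b05460f52a3c4af1019240a670699462611698c0e1f (k8 b1068 b31 i447 b128 i960 b273 i962 b28 (k8 i449 i2 b95 i23 b1153 b48 b349 b430 (k8 b437 b423 b56 b311 b1166 b1165 b288 b353 (k8 b383 b118 b140 b145 i2027 i1309 b1173 b1103 (k8 b1155 b1104 b272 i445 b348 b480 b932 b1175 (k8 b309 i1760 i475 b529 b626 b908 b36 b412 (k4 b1168 b294 b414 i1707 (k2 b325 b766 k0)))))))) (by decide +kernel)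
def b1177 : PP 8 4 T 0x1100001000000000014000000000000000000001000020000080000011508010000 := rS 0x69a7b310a87891ac4ec7090ac2a5b (k8 b81 b229 i897 b439 b189 i1797 i1960 b325 (k4 i930 b25 i2032 b329 (k2 i1830 b308 k0))) (by decide +kernel)
def b1178 : PP 8 4 T 0x101000000002000000800000084040000005080000000000000000000054408000000 := rS 0x31d9aba5e8958a21 (k8 b130 b75 b48 i1987 i626 i849 i1679 b179 k0) (by decide +kernel)
def b1179 : PP 8 4 T 0x101001000002000080800000504000000004180000000000000000000054448100000 := rS 0x16d441fabc0ea3788254a85 (k8 i1670 b430 i1387 b1153 b423 b31 b1178 b610 (k2 b395 b767 (k1 b70 k0))) (by decide +kernel)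
def b1180 : PP 8 4 T 0x1000000000000010000000000000000000000000000000000080000008008000000 := rS 0x464f439 (k4 b400 b115 b92 b204 k0) (by decide +kernel)
def b1181 : PP 8 4 T 0x101001000002000080000000004000000000080000000120100000000054448120000 := rS 0x40a1cbeca588f56607 (k8 b31 i473 b38 i1761 i845 i470 i929 b1116 (k1 b1179 k0)) (by decide +kernel)
def b1182 : PP 8 4 T 0x101101000002000080000000004000000000080000000000000080000010448000002 := rS 0x2bd165e1c8a84eb358a35a2104cc51526d41b28a45d2c14498151e8344ac362885e203308b4c607 (k8 b31 i447 b128 i960 i23 b1153 b130 b75 (k8 b52 b48 b28 b38 b229 b143 b238 b1046 (k8 i2259 b1054 i845 i2621 i2449 i2416 b342 b133 (k8 b1177 b309 i1760 i1761 i473 b1180 b1181 b271 (k4 i896 i452 i590 b455 k0))))) (by decide +kernel)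
def b1183 : PP 8 4 T 0x1101000000000000000000004000000000080000000000400100000000008000000 := rS 0x651415b43 (k4 b337 i1556 b1054 b433 (k1 b567 k0)) (by decide +kernel)
def b1184 : PP 8 4 T 0x1101000002000080000000004000000000000000000000000100000010408000002 := rS 0x1102c10882525087e867e (k8 b1176 b337 b1068 b94 b1183 i826 b272 b1092 (k2 b1182 b59 k0)) (by decide +kernel)
def b1185 : PP 8 4 T 0x1000001000000000014000000400000000080000000000800480000011508010200 := rS 0xb1a28fd6cb36617d0a878931d5e27090ac2a5b (k8 b81 b229 i897 b439 i1797 i1920 i218 b325 (k8 b0 b25 b39 i2032 i661 i848 i217 b70 (k2 i1823 b215 k0))) (by decide +kernel)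
def b1186 : PP 8 4 T 0x1000000002000080000000000000000000090000500515000000000004448020200 := rS 0xa2abc7ebb5b2f29ecc43b0546a10e8344a2152ad5623d (k8 b38 i1761 i127 b430 b130 b48 b28 b126 (k8 b94 b423 b56 b646 b689 b329 i849 i848 (k4 i1949 b825 i1986 b70 (k1 b215 k0)))) (by decide +kernel)
def b1187 : PP 8 4 T 0x1001000000000018000000540000000140080000005000020000000000008000000 := rS 0x71542553344 (k4 b395 b275 i1104 b455 (k2 i800 i575 k0)) (by decide +kernel)
def b1188 : PP 8 4 T 0x1201000000000010000000504000000100080041055800020000000000008000000 := rS 0x228714c1bd2aba412f68aaea7afd9c9b5ba2e870d (k8 b141 b337 b318 i853 b983 b1169 i1724 b412 (k8 b1187 b410 i1987 i590 b409 i1105 i1439 i1950 (k2 i800 b413 (k1 b133 k0)))) (by decide +kernel)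
def b1189 : PP 8 4 T 0x1001000002000080000000004000000000000000000000000100000010408000002 := rS 0xbd3e331025f13accdab146b44205d261088252288219669569648e5535c10ae7e05a9c7ac1519cd422561b14420f52bc406670699462611698c0e1f (k8 b1068 b31 i447 b128 i960 b273 i962 b28 (k8 i449 i23 b1153 b430 b437 b130 b75 b52 (k8 b48 b94 b390 b423 b56 b38 b18 b311 (k8 b1176 i1665 b1184 b353 b30 b383 b43 b118 (k8 b140 b145 i2027 i1309 b1054 i826 b272 b143 (k8 i2259 b1185 b309 i1760 i1761 i475 i473 b1180 (k4 b1188 b1116 b689 b1186 (k2 i1331 i849 k0)))))))) (by decide +kernel)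
def b1190 : PP 8 4 T 0x1100001000000000014000000000000000000000000020000080000011508010000 := rS 0x891784e6c090ac2a5b (k8 b81 b229 i897 b439 b1177 i1797 i669 b325 (k1 b39 k0)) (by decide +kernel)
def b1191 : PP 8 4 T 0x1000000000000014100000000000000140000001550000000000000000008000000 := rS 0x9e (k2 b908 b626 k0) (by decide +kernel)
def b1192 : PP 8 4 T 0x1000000000000014100000008000000100000001150800000000000000008000000 := rS 0xd68b (k2 b318 i2395 (k1 b1191 k0)) (by decide +kernel)
def b1193 : PP 8 4 T 0x1000000002000080000200408000000004140000000400000100000054048000000 := rS 0x16e3f06b0d8aa5 (k4 b430 b75 b52 b28 (k2 i1411 i1989 (k1 b772 k0))) (by decide +kernel)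
def b1194 : PP 8 4 T 0x1101000002000080000000000000000000040000000000000180000010408000002 := rS 0xcd63d38d6bd42c49022b4397c4e6936a35a21067c5966c92e960985b12b0d8a217880cce0d328c48ea38887ca2aa (k8 b1189 i498 b1068 b1166 b423 i1655 b273 i962 (k8 b28 i449 i23 b1153 b130 b75 b52 b48 (k8 b81 b143 b1046 i2259 i2393 i2441 b339 b36 (k8 b1190 b309 i1760 i2287 i1763 b1180 b1192 i929 (k8 i896 b1116 b330 b25 b1193 i586 b308 b475 (k2 b329 i2032 k0)))))) (by decide +kernel)
def b1195 : PP 8 4 T 0x1001000002000080100000000000000000000000000008100140000010408010002 := rS 0x4209c8eaa5194d425f251349240 (k8 b272 b95 i445 b348 b502 b94 i826 b423 (k4 b1189 i1655 b889 b1175 (k1 b931 k0))) (by decide +kernel)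
def b1196 : PP 8 4 T 0x1101000002000080000000000000000000040000000000000100000010408000002 := rS 0x54cc8989cd26d46b442a102fb24ac8b251649a4021b151e257880c920533834ca316591d46558887ca2aa (k8 b1189 i498 b1068 b1166 i1657 b423 i1655 i123 (k8 b273 i962 b28 i449 i2 b95 i23 b1153 (k8 b48 b349 b75 b1194 b272 i445 i866 b348 (k8 b480 b345 b1049 b502 b1195 i136 b309 i1760 (k4 i475 i1763 b529 b1162 (k2 b1164 b325 (k1 i888 k0))))))) (by decide +kernel)
def b1197 : PP 8 4 T 0x1001000002000080000000008000000000040000000010000080000000448000002 := rS 0xb53e948aec151a843a0d128854b11 (k8 b1166 b430 b130 b48 b28 b126 b94 b423 (k4 b56 i441 b1155 i1595 (k2 i882 i2030 k0))) (by decide +kernel)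
def b1198 : PP 8 4 T 0x1001000002000080000000000000000000040000000000000100000010408000002 := rS 0x1521e26743c53e2ece4f89cda8d68840ee855a22c94532690086692cb26085188a851e257880c920533834ca31308b4c6070f91d54a3 (k8 b423 b1189 i1655 b1068 b31 i447 b128 i960 (k8 b273 i962 b28 i449 i2 b95 i23 b1153 (k8 b48 b349 b94 b1166 i498 b1196 b288 b43 (k8 b140 b1197 b272 i445 i826 b348 b480 b1103 (k8 b932 b1104 b1175 b309 i1760 i475 b529 b626 (k8 b1169 b36 b412 b1168 b294 b414 i1707 b325 (k1 b766 k0))))))) (by decide +kernel)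
def b1199 : PP 8 4 T 0x1101000002000080000000000000004000080000000010020400000000008000002 := rS 0x38aa0eeb98b0cd920533834ca31308b4c607 (k8 b31 i447 b128 i960 b273 i962 b28 i449 (k8 i2 i613 b538 b339 b737 b21 b1111 i799 (k1 i575 k0))) (by decide +kernel)
def b1200 : PP 8 4 T 0x1101000002000080100000000000004000080000000000400400000000008000002 := rS 0x37c54e2a83bae62c3339a840a670699462611698c0f0d (k8 b141 b31 i447 b128 i960 b273 i962 b28 (k8 i449 i2 b94 b390 b538 b339 b737 b21 (k4 b1111 i799 b305 i1056 (k1 b413 k0)))) (by decide +kernel)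
def b1201 : PP 8 4 T 0x1101000002000080000000008000000000080000000000000100000000008000002 := rS 0x6e54320a64021934e6a14999c1a4751c34b2cb (k8 i123 i845 b141 b423 i1655 b28 i449 i1635 (k8 b94 b390 b1199 b143 b272 i826 b1200 i583 (k2 b1070 i1056 k0))) (by decide +kernel)
def b1202 : PP 8 4 T 0x1001000002000080000000000000000000080000000000800480000010448010000 := rS 0x58d1566b64097d07125789c7e12048ad4e3d0e89586c510bc42a5b (k8 b81 b229 b1153 b130 b75 b52 b48 b126 (k8 b38 b18 i897 b1185 b439 b603 i1797 i1920 (k8 b325 i922 b39 b60 b706 i661 b70 i1823 (k1 b395 k0)))) (by decide +kernel)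
def b1203 : PP 8 4 T 0x1001000000000010100000508000000100080041555800020000000000008000000 := rS 0x1144c1c4deba4aa097b455753d36ce45d0e1abf (k8 i1721 b141 b104 b318 b1192 b983 b412 b1187 (k8 b410 i1986 i590 i1105 b409 i1439 i800 i1950 (k2 b413 b133 k0))) (by decide +kernel)
def b1204 : PP 8 4 T 0x1001000002000080100000008000000000080000500001000080000010448000002 := rS 0xa2abd6cbc6617c4eb336ac51ad108148ba57289307a735080cce0d328c4c22d3181c8ea386965964f (k8 i759 i123 i845 b141 b423 i1655 b31 i447 (k8 b128 i960 b273 i962 b28 i449 i23 b94 (k8 b390 b38 b143 b238 i441 i2259 b108 b1202 (k8 b309 i1760 i1761 i475 i473 b1180 b1203 b689 (k4 i849 i848 i1986 b70 (k1 b395 k0)))))) (by decide +kernel)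
def b1205 : PP 8 4 T 0x1001000002000080000000000000000000000000000000000100000010408000002 := rS 0xae5029900864f34954d6c982434fcaa0fa841a0f (k8 b437 b28 b94 b1068 b1189 b1198 b141 b1201 (k8 b288 b353 b30 b140 i759 b1204 b272 i826 (k2 b108 b589 (k1 i497 k0)))) (by decide +kernel)
def b1206 : PP 8 4 T 0x400000000000501000000002000081200402041001204140000000005000020000000000008020100 := rS 0x2197a85a7a54ec0b608bd42c362a956607 (k8 b31 i473 b430 b75 b52 b94 b84 b56 (k8 b311 i614 i1100 b492 i1631 i1991 b402 i934 k0)) (by decide +kernel)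
def b1207 : PP 8 4 T 0x1100000002000080800000041000200100040000055800000080000000448020100 := rS 0x865e9a99f1664ad17e933ed0d82a3508744a2152930a26962acc0f13669b4b11106a7516d1 (k8 b309 b318 b510 b28 b1166 b1046 i2287 i891 (k8 b362 b31 i473 b75 i1763 b238 b143 b430 (k8 b130 b48 b126 b94 b423 b56 b79 i1327 (k8 i1366 i1453 i2030 b1206 b339 b36 b1191 i1990 (k2 i630 i934 k0))))) (by decide +kernel)
def b1208 : PP 8 4 T 0x401000000002000081200000041001200140040004005000020000000000448020100 := rS 0x2fd27435a1f4ecc151a843a2152a3c4b11 (k8 b1166 b48 b349 b430 b130 b126 b94 b423 (k8 b56 i614 i1630 i2030 b425 i1369 i1456 b1206 k0)) (by decide +kernel)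
def b1209 : PP 8 4 T 0x1100000002000080000000151000000100040000055800400080000000448020100 := rS 0x2197a6a5a33d26b98b325966f4ea616ecd89a2c98d136962220d34b156607 (k8 b31 i473 b75 i1763 b28 b1166 b1046 i2287 (k8 b309 b143 b318 b362 i891 i852 b455 b510 (k8 i1060 b1207 b1208 b339 b737 b7 b36 b1043 (k4 b1191 i1990 i630 i934 k0)))) (by decide +kernel)
def b1210 : PP 8 4 T 0x1000000002000090200008541000000105041000000000020000000054448000002 := rS 0x18ecd1c33d1499371f16a9f3b30546a10e8958a215299c1a611698c0f11 (k8 b1166 b31 i447 b128 i960 b28 i449 b430 (k8 b130 b75 b48 b126 b94 b423 b56 i614 (k8 i1185 i2563 i2030 i1630 i1059 b455 i1979 i452 (k2 i810 i299 (k1 b179 k0))))) (by decide +kernel)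
def b1211 : PP 8 4 T 0x1000000000000010000008541000000140001040005000000000000000008000000 := rS 0x1c0f66f8ac61310d (k8 b101 b455 b120 b133 i1059 b92 b413 i801 k0) (by decide +kernel)
def b1212 : PP 8 4 T 0x1100000002000080000000151000000000040000000000440080000010448000102 := rS 0x651f16acc638e1149319ae62c7764ad8f28342c49022b4397c4eb336a35a2102c44582a30e9cd42c3628854a8f12bc406670699462611698c0e152d944ba4c (k8 b143 i2259 b238 b81 b229 b31 i447 b128 (k8 i960 b273 i962 b28 i449 i23 b1153 b48 (k8 b349 b430 b130 b75 b52 b94 b390 b126 (k8 b423 b56 b1166 b1046 b1190 b309 i1760 i2287 (k8 i473 b1180 b1209 i929 i896 b1116 b330 b25 (k8 b33 b414 i2038 b1210 i806 b339 b737 b1110 (k8 b7 b1211 i452 i298 i2032 b236 i2030 b1043 (k1 i1327 k0)))))))) (by decide +kernel)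
def b1213 : PP 8 4 T 0x1100001000000000014000000000000000000000010000000080000011508011002 := rS 0x2327a1cb458c5f438cd9e7789458ea853589d92cd88048b28b15a3cce152a96c9857 (k8 i441 b143 b81 b310 b229 i449 b349 i897 (k8 i451 b1190 b439 b1046 b959 i613 i1797 i1960 (k8 b64 b426 b339 b325 b21 b36 b80 b0 (k4 b39 i2032 i653 i298 (k2 b635 b92 (k1 b204 k0)))))) (by decide +kernel)
def b1214 : PP 8 4 T 0x1000000000000010000000541000000100000008005800400000000000008000000 := rS 0x2616e8b (k4 b318 i852 b455 i1060 k0) (by decide +kernel)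
def b1215 : PP 8 4 T 0x1000000002000014200000000000000005000000000000020000200054408000000 := rS 0x63b353e7612b0d8a21 (k8 b130 b75 b52 b48 i614 i1185 i810 i299 (k1 i2032 k0)) (by decide +kernel)
def b1216 : PP 8 4 T 0x1000000002000000100010055000010005000008155020000008200054408100140 := rS 0x29ccc6531d26333bc4586c510a951e25 (k8 b48 b349 b430 b130 b75 b52 b361 i806 (k4 b1110 i1322 i298 i2040 (k2 i2032 b235 (k1 b329 k0)))) (by decide +kernel)
def b1217 : PP 8 4 T 0x1100000002000080000000155000000000040000000000440080000010408000102 := rS 0x31d9a332cc59923e4d0e19f19a2a290ab64ba650f12408acbe955cc55066e441c43ca5339845a630a954b64b2895cba4c4680cd2b30389da210328c5e22162b0c4a0d (k8 b28 b48 b52 b75 b130 b1153 b273 i962 (k8 b1213 b309 b1180 b31 i473 i1763 i23 i1760 (k8 b143 i2259 i441 b238 b436 b81 b310 b229 (k8 i447 b128 i960 i449 b430 b1212 b287 b350 (k8 b144 i1436 b2 i1403 i1058 b1214 i896 b1116 (k8 b330 b646 b605 b607 i2038 b25 b455 b70 (k8 b279 i1979 i452 b300 i1443 b1215 b339 b1216 (k4 b80 b959 i298 i2032 k0))))))))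 (by decide +kernel)
def b1218 : PP 8 4 T 0x1100000002000080000000155000000000000000000000440080000010408000102 := rS 0x728a632650e2b2f9ba2a884a9c466775cc58ea8564b36205949c34fc2759a35a2102e95c985b2a9cc5ea11a89586c510a95e20333834ca31308b4c607 (k8 b31 i447 b128 i960 b273 i962 b28 i449 (k8 i23 b1153 b430 b130 b75 b52 b48 b365 (k8 b94 b84 b390 b310 b81 b143 i441 i2259 (k8 b1213 b309 i1760 i473 b1180 b1217 b141 i1638 (k8 i844 b1046 b959 i613 b64 b426 b339 b737 (k8 b21 b80 i799 b643 b163 b2 b413 b1214 (k4 i896 b646 b605 i2032 (k2 b455 i298 (k1 i452 k0))))))))) (by decide +kernel)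
def b1219 : PP 8 4 T 0x101000000002000010200000000000000005004000000400000120000010408010002 := rS 0x19876369d62e0d61a3cb225 (k8 b48 i866 b349 b52 b28 b336 i1064 i671 (k2 b294 b489 (k1 i809 k0))) (by decide +kernel)
def b1220 : PP 8 4 T 0x1000000002000090000000000000000000040000000000000100000010408010002 := rS 0x2d176cb3633d26b98b3257b0d46ad8d27940a150f12358ac7e123d8544ac362885e2670699462611698c0e8b02c443e272f9289a492010e0aaf5694d62ab5493c12fc (k8 b1205 b291 b293 b338 b359 b382 b326 b405 (k8 b76 b985 b1218 b272 b95 i445 b348 b502 (k8 b889 i182 b1166 i2 b480 b31 i447 b128 (k8 i960 b273 i962 b28 i449 b1153 b130 b75 (k8 b52 b48 i637 b637 b439 b603 i213 i1960 (k8 b325 b0 b25 b60 b414 b855 b767 i1051 (k8 b101 i1989 b1219 b339 b737 b7 b36 b1191 (k4 i674 i1681 b574 i887 k0)))))))) (by decide +kernel)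
def b1221 : PP 8 4 T 0x101100000002000020200000000000000001000000000400000120000010408000002 := rS 0x2a95e2e0d61a3cb225 (k8 b48 i866 b349 b52 b28 b336 i504 b681 (k1 b345 k0)) (by decide +kernel)
def b1222 : PP 8 4 T 0x1000000002000080000000000000000000040000000000000100000010408010002 := rS 0xcb239b29ecc638ce2cc95ead8d23840a1c6e3f094482a2b3ca14d7196809c160760a8d86c51083d4af133834ca312c894be4a26926221f2010e0aaf5694d62ab5493c12fc (k8 b1205 b291 b293 b338 b359 b382 b326 b405 (k8 b76 b985 b1218 b272 i182 b1166 b95 i445 (k8 b348 b502 b48 i866 b273 i962 b28 i449 (k8 b1153 b430 b437 b130 b75 b52 b423 b56 (k8 b31 b311 b889 b1220 b292 b451 b930 i1072 (k8 b442 b230 b325 b439 b603 i991 b0 b60 (k8 b357 b855 b767 i1989 b1221 b339 b80 i298 (k4 i2032 b329 b308 i1695 (k2 i674 i2027 k0))))))))) (by decide +kernel)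
def b1223 : PP 8 4 T 0x101100000002000080200000000000000000040000000000040120000000408000000 := rS 0xb42a1d8ae758ba3cb225 (k8 b48 i866 b349 b336 i1064 i504 b294 b345 (k2 b1048 i767 k0)) (by decide +kernel)
def b1224 : PP 8 4 T 0x400000000000000001100000002000090000100010000000141040001150010000000000080448000000 := rS 0x1f0a8b52ba199ac151a843a2152a3c4b11 (k8 b1166 b48 b349 b430 b130 b126 b94 b423 (k8 b56 i888 b766 b1164 i934 b345 i2030 i1541 k0)) (by decide +kernel)
def b1225 : PP 8 4 T 0x1000000002000080000000000000000000040000000000000100000010408000002 := rS 0x1d59a542b9e50f1215d3d7a6a679dd0b1664a613e9d3d89d666936a34b6d10a84222c547bc406670699462611698c0e591287d16052f9289a492010e0aaf5694d62ab5493c12fc (k8 b1205 b291 b293 b338 b359 b382 b326 b405 (k8 b76 b985 b1218 b272 b95 i445 b348 b502 (k8 i2 b480 i182 b48 i866 b31 i447 b128 (k8 i960 b273 i962 b28 i449 i23 b1153 b349 (k8 b75 b1166 b1222 i136 b309 b531 i1760 i475 (k8 i1763 i473 b529 b637 b510 b626 b455 b1223 (k8 b339 b932 b21 b36 b1191 i1990 b88 b1224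 (k8 b325 b0 b414 b1162 b345 b959 i1539 b388 k0)))))))) (by decide +kernel)
def b1226 : PP 8 4 T 0x1000000002000010200000000000000005004000000400000120000010408010002 := rS 0x19910368344ac3 (k4 b52 b48 b28 i671 (k2 b1219 b489 (k1 b370 k0))) (by decide +kernel)
def b1227 : PP 8 4 T 0x1000000002000090000000000000000000000000000000000100000010408010002 := rS 0x65af17655a79b19f1664aca8a8d5b1a57e7940a0d0a87891ac563f091ec2aa71e874e6a161b1442f133834ca31308b4c6072c8943e8b02d0cfc272f9289a492010e0aaf5694d62ab5493c12fc (k8 b1205 b291 b293 b338 b359 b382 b326 b405 (k8 b76 b985 b1218 b272 b95 i445 b348 b502 (k8 b889 b1225 b337 i2 b480 i182 b48 i866 (k8 b31 i447 b128 i960 b273 i962 b28 i449 (k8 b1153 b130 b75 b52 b94 b390 b126 b38 (k8 b18 i637 b637 b439 b603 i213 i1960 b325 (k8 b0 b25 b33 b60 b414 i1723 b855 i2031 (k8 i1051 b70 b1211 b1226 b339 b36 b1191 b384 (k4 i1697 i1681 b409 b223 (k1 i1413 k0)))))))))) (by decide +kernel)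
def b1228 : PP 8 4 T 0x1100000002000020200000000000000005000000000400000120200014408010002 := rS 0x3358f104f9d586c51083cb2250a8acf319 (k8 b292 i1072 b442 b230 b48 i866 b437 b130 (k8 b75 b52 i1064 b447 b1221 i299 b370 i2032 k0)) (by decide +kernel)
def b1229 : PP 8 4 T 0x1000000002000080000000000000000000000000000000000100000010408010002 := rS 0x15622cc638ce2cc91c21c6f120a8acf28535c65a02761b1442f133834ca312c894be4a26924804382abd5a5358aa49e092b9f956fc (k8 b1205 b359 b1225 i1665 b291 b293 b338 b382 (k8 b326 b405 b76 b985 b1218 b272 b95 i445 (k8 b348 b502 b48 i866 b273 i962 b28 i449 (k8 b1153 b130 b75 b52 b889 b1227 b292 b451 (k8 b930 i1072 b442 b230 b325 i991 b0 b357 (k8 b1228 b339 b80 i298 i2032 b370 i770 b345 k0)))))) (by decide +kernel)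
def b1230 : PP 8 4 T 0x400000000000001100000000000010200000541000004140000001105000000000000000008000000 := rS 0x6a5d53d70ce4ac5e2a98 (k8 b455 b133 b336 i1100 b491 b268 b412 i1144 (k2 b308 i1946 k0)) (by decide +kernel)
def b1231 : PP 8 4 T 0x1000000002000080000000000000000000000000000000000100000010408000002 := rS 0x9544af8dc6a388cd9e775cc5993154c3353eb3349b51a5b68840ae9386d0cfc8b0f9649a4021c155ead29ac556a927825f86330994ce050181c5a7317a846a0d128c58aa5 (k8 b430 b75 b273 b48 b28 b365 b94 b84 (k8 b390 b128 b31 i23 i2 i449 i962 i960 (k8 i447 b1205 b291 b293 b338 b359 b382 b326 (k8 b405 b76 b985 b1218 b272 i445 i866 i182 (k8 b480 b1225 b337 b141 i1638 i1665 b1229 b309 (k8 b531 i1760 i475 i1763 i473 b626 b959 b455 (k8 b133 b1230 b339 b737 b21 b36 b80 i799 (k4 b1191 b413 b453 i1317 (k2 i1725 b161 k0))))))))) (by decide +kernel)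
def b1232 : PP 8 4 T 0x1000000002000000200000000000000000000000000000000000000000008000001 := rS 0x280c6a0f (k4 b437 b365 i1122 i611 (k1 b317 k0)) (by decide +kernel)
def b1233 : PP 8 4 T 0x101100000002000000000000000000000000000000000800020060040000008080000 := rS 0x678cd8e7423958aa9d32c613e39668a91635618c58a59128080a49 (k8 i72 i261 i788 b48 i866 b75 b273 b52 (k8 b365 b318 i904 i2604 i195 b197 b482 b796 (k8 b281 i792 b345 b882 i530 i218 i192 i1068 (k1 b427 k0)))) (by decide +kernel)
def b1234 : PP 8 4 T 0x1001000002000080000000000000000000000000000008000100000050408010000 := rS 0x512383ca6a142a0624f1139008601 (k8 b1231 b355 b272 i746 b1153 b325 b60 b25 (k4 b94 i826 b437 b882 (k2 b600 b1174 k0))) (by decide +kernel)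
def b1235 : PP 8 4 T 0x901100000002000000000000000000000000000000000004020120000010408010000 := rS 0x361519a0d619644a87 (k8 b0 b48 i866 b52 b28 b797 b345 b527 (k1 i1697 k0)) (by decide +kernel)
def b1236 : PP 8 4 T 0x1100000002000080000000000000000000040000000000020100000010408010000 := rS 0x55825f8ad6591cad121597e22121b87c2a020581d82a30683d4af1139008601 (k8 b1231 b355 b272 i746 b1153 b430 b437 b28 (k8 b423 b56 b31 b311 i788 b314 b51 i1005 (k8 b439 b1166 b1233 i213 b325 b1235 b882 i2352 (k4 b1057 b1234 b291 b359 (k1 i2027 k0))))) (by decide +kernel)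
def b1237 : PP 8 4 T 0x1101000002000080000000000000000000040000000000000100000050408010000 := rS 0xcd369ac705442a1c2457890541ac3789644a278887c0803269008601 (k8 b1231 b355 b272 b1236 b44 b317 i2136 b1166 (k8 i746 b48 i866 b1153 b52 b28 b230 b325 (k8 b1234 b439 b0 b25 b345 i266 i1960 i1697 (k2 i770 b487 k0)))) (by decide +kernel)
def b1238 : PP 8 4 T 0x1100000002000080000000000000000008040000400480000000000000448000000 := rS 0x1f0a86c5ab0546a10e89442a5 (k8 b430 b130 b48 b126 b94 b423 b56 i2532 (k4 b476 i777 i2030 i3016 k0)) (by decide +kernel)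
def b1239 : PP 8 4 T 0x1000000002000080000000000000000000040800000000002120000000408000000 := rS 0xa8b5 (k2 i2509 i751 (k1 b1048 k0)) (by decide +kernel)
def b1240 : PP 8 4 T 0x1101000002000080000000000000000000040000000000000100000010408010000 := rS 0xb528990ac7423b3d8f4e43a763079429acb4146684d3e7b898a81e8f12bc4a6a12fc443e04019dc904d259008601 (k8 b1231 b355 b272 b794 b1236 b348 b1239 b44 (k8 b317 i2136 b1166 b363 b94 i826 b1153 b48 (k8 b349 b437 b1237 b376 b379 b197 i213 i888 (k8 b439 i378 b246 b905 i1808 b442 b281 b1238 (k8 b402 b53 b412 i383 b388 i1011 i1010 b600 (k2 b780 b1058 k0)))))) (by decide +kernel)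
def b1241 : PP 8 4 T 0x1100000002000080000000000000000000040000000000000100000010408010000 := rS 0x545a15cfa51652b5564f0491df8333bc443e042400c9a0b03b0546a10e834420f52a3c96592010c0225 (k8 b48 b1231 b355 b272 i866 b794 b349 b430 (k8 b437 b130 b28 b126 b94 b423 b56 b31 (k8 b311 b1236 b44 b348 b317 i2136 b1166 b1239 (k8 b1110 b1240 i264 b291 b293 b359 b405 i2027 (k4 b567 i1328 i505 i2030 (k2 b345 i767 k0)))))) (by decide +kernel)
def b1242 : PP 8 4 T 0x1101000000000000000000000000000000080000000000420100000000008000000 := rS 0x282aa1a4f (k4 i2547 b141 b1183 b108 (k1 i2349 k0)) (by decide +kernel)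
def b1243 : PP 8 4 T 0x1100000002000080000000004000000010080000000800020024040000008080000 := rS 0x53cda865d20903454c1a536972ac60ca395b8aa268b538f45a731789462c529a861a0202924d6c3 (k8 b52 i1960 i72 i261 i788 b141 b94 i826 (k8 b75 b273 b48 b84 b390 b128 b38 b18 (k8 b318 b362 i904 i852 i195 b796 b482 i792 (k8 b26 b72 b858 b375 b275 i1864 b368 i926 (k4 i925 i1681 b111 b308 k0))))) (by decide +kernel)
def b1244 : PP 8 4 T 0x1100000002000080000000000000000000000000000000020100000010448010000 := rS 0x17b455dd3d6cc65fa05068543c499a2b2b97c7e8955825f8121b85404a71e87586c510bc4a6a12c8944e4021806867e (k8 b1241 b337 b1231 b355 b272 i746 b48 i866 (k8 b94 i826 b1153 b130 b75 b52 b126 b38 (k8 b18 i788 b314 i1005 b439 b1242 b291 b359 (k8 i190 b603 b1243 i1665 i213 b797 b325 b0 (k8 b25 b33 b60 i1723 i2032 i2031 b53 i1680 (k2 b70 i1988 (k1 b409 k0))))))) (by decide +kernel)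
def b1245 : PP 8 4 T 0x1101000002000080000000000000000000000000000000002100000010408010000 := rS 0x1069b2d4616e7b899e4545d4ca5d0b14409bca24e23aa87aa3398341ef12594d42272010c025f049c61a7e (k8 b1241 b141 i2506 b752 b363 b1231 b355 b272 (k8 i746 b94 i826 b794 b1153 b437 b28 b390 (k8 b423 b38 b1183 i1655 b980 i31 i1272 b1158 (k8 b413 i1670 b364 b133 b753 b1174 i1013 b376 (k4 b379 i850 b442 b330 (k2 b72 i2529 (k1 b421 k0))))))) (by decide +kernel)
def b1246 : PP 8 4 T 0x1000000002000000000000100000540004405054400502000124000000408010000 := rS 0x19a0d12b0c4227 (k4 i746 b130 b52 b48 (k2 b28 i770 (k1 b699 k0))) (by decide +kernel)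
def b1247 : PP 8 4 T 0x1100001002000010000000100000140000000050001104012120000050408010120 := rS 0x13ecd3bc40aa9d67a6cf66935a30708b41a150e3f094482a0d61b14428f2c8944e032f9bcea79 (k8 i1013 i1011 i1008 b363 b44 i746 b48 i866 (k8 b349 b130 b75 b52 b28 b230 b325 b439 (k8 b603 b0 b25 b33 i1882 i266 i267 i1960 (k8 b855 b637 b983 i1976 i1819 b1246 b345 i751 (k2 b370 b508 (k1 b388 k0)))))) (by decide +kernel)
def b1248 : PP 8 4 T 0x1100000002000090000000000000000000000000000000010100000010408010000 := rS 0x205069b2d4616e7b898a8f25d4ca5e286f2b98562ab7e024e25f02120067350bc49640218061a7e (k8 b1241 b141 b1231 b355 b272 b794 b1153 b94 (k8 b390 b44 b348 b317 b363 i2506 b752 b1245 (k8 b359 b382 b137 i1665 i1008 b413 b364 b133 (k8 b753 i1013 b1247 b376 b379 i850 b442 b330 (k4 b72 i2529 i1809 b421 k0))))) (by decide +kernel)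
def b1249 : PP 8 4 T 0x1100000002000080000000000000000000000000000000020100000010408010000 := rS 0x1e011008601 (k4 b1231 b355 b272 i788 (k2 b1244 b51 k0)) (by decide +kernel)
def b1250 : PP 8 4 T 0x1100000002000080000000000000000000000000000000000100000010408010000 := rS 0xd0241349601 (k4 b1231 b794 b1249 b348 (k2 b1248 b278 k0)) (by decide +kernel)
def b1251 : PP 8 4 T 0x1100000002000080000000000000000000040000000000020100000010408000000 := rS 0xb53b150af112c8942a6d069a58a276887c05122ea2cbe5b081008601 (k8 b1231 b355 b272 b1250 b531 i469 b461 i531 (k8 b330 i788 b51 b309 b529 b75 i1763 b28 (k8 i475 i136 b48 i866 b1166 b1162 b345 i791 (k2 i2550 b1048 k0)))) (by decide +kernel)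
def b1252 : PP 8 4 T 0x1100000002000080000000000000000000000000000000020100000010408000000 := rS 0xbda2ad87e7d4a2e46667352ee9ec66695d1261558257efc49ad6867e40a0c568543c48ba1f458094e3d60a8c3a2d398bc6ac3188854a53509644ac92d97cda0d34b144ed1081008601 (k8 b1231 b355 b272 b1250 b309 b529 b75 i1763 (k8 b28 i475 i469 b531 b1232 b48 i866 b94 (k8 i826 b430 b130 b273 b52 b365 b84 b390 (k8 b128 b126 b423 b56 b38 b18 i788 b461 (k8 b51 i531 b330 b686 b25 b376 b33 b60 (k8 b1251 b337 i127 i1638 b1242 i1723 b291 b359 (k8 b137 i190 i1665 b797 i2032 b53 i1679 b308 (k8 i547 i193 b737 b163 i1598 b825 i2031 b70 (k2 i1988 b409 k0))))))))) (by decide +kernel)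
def b1253 : PP 8 4 T 0x1100000002000080000000000000000000040000000000000100000010408000000 := rS 0x19a753395cef11479644a152d97cda0d34b144ed10f810064021a1624482692c0210 (k8 b1250 b1231 b794 b1252 b348 b725 b25 b355 (k8 b272 b44 b317 i2136 b309 b529 b75 i1763 (k8 b28 i475 i469 b531 i136 b48 i866 b349 (k4 b1166 b1239 b1162 b695 (k2 i1011 b959 (k1 b962 k0)))))) (by decide +kernel)
def b1254 : PP 8 4 T 0x1000000000000000000000000000440080505050000040084000000000008000000 := rS 0x4c2dcc66f (k4 i1272 i1350 i761 b421 (k1 i1939 k0)) (by decide +kernel)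
def b1255 : PP 8 4 T 0x1100000002000080000000000000000000000000000000000100000010408000000 := rS 0x1966f23998c2cd3abf0aeab27824e2ad869f9369740a0d0a791b228f7124681090032689cda5b6884016071eb05462d3983586c51083d4a8f2594d42592010c0225 (k8 b48 b1231 b355 b272 i866 b94 i826 b794 (k8 b349 b430 b437 b130 b75 b52 b28 b390 (k8 b128 b423 b56 b38 b31 b311 b1250 b309 (k8 b531 i475 b529 b1252 b44 b348 b317 i1760 (k8 b725 i753 i523 i524 i1012 b25 b33 b60 (k8 i1777 i994 b1253 b141 i1556 i2506 b752 b1254 (k8 b980 i1665 b1183 i1011 b959 b137 b962 b474 (k2 i1008 b507 (k1 i2027 k0))))))))) (by decide +kernel)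
def b1256 : PP 8 4 T 0x501000000002000080040002000000000000040000000000000000044014008000000 := rS 0xfd32895daf170863b1d50b4f8bb39369d8c3353e39150f45ea11ab0c62c552a3c4af1 (k8 b1153 b48 b349 b430 b75 b273 b52 b365 (k8 b94 b84 b38 b325 b271 b197 i888 b482 (k8 b281 b72 b427 b36 b412 i1871 i1068 b294 (k8 b402 i808 i934 i1683 i1403 i1144 i1411 b718 k0)))) (by decide +kernel)
def b1257 : PP 8 4 T 0x801000000002000080000000000000000000000000000000100100000010408010000 := rS 0x408ad0a535091dfb04139008601 (k8 b1231 b355 b272 i746 b1255 b985 b383 b94 (k4 i826 b25 b376 b60 (k1 b1174 k0))) (by decide +kernel)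
def b1258 : PP 8 4 T 0x501000000002000080000002000000000000040000000000000400000014008010008 := rS 0x18c12198dc2af1 (k4 b1153 b314 i1005 i192 (k2 b439 b1256 (k1 i218 k0))) (by decide +kernel)
def b1259 : PP 8 4 T 0x1000000002000080000000000000000000040000000000000100000010408010000 := rS 0x21cf28567a74b5160a1dcea132401006cd4f9ec551328c45688f12bc4965350994aa476587dfb04139008601 (k8 b1231 b355 b272 i746 b1255 b985 b1068 b145 (k8 b383 b30 b9 b94 i826 b794 b1153 b48 (k8 b349 b1103 b1166 i1397 b1257 b325 b379 b197 (k8 i888 b1258 b317 i261 i2145 i1010 i751 b439 (k8 b294 i378 b313 b36 b905 i1808 i777 b388 k0))))) (by decide +kernel)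
def b1260 : PP 8 4 T 0x1200000002000080000000000000000000000000000000200100000000008000000 := rS 0x2a8ae090581d82a30683d4a4756b2c3efd (k8 b985 b1068 b145 b118 b383 b430 b437 b28 (k8 b423 b56 b31 b311 i1309 b589 i2027 i497 k0)) (by decide +kernel)
def b1261 : PP 8 4 T 0x101000000002000081000402000000000005100000000000000000000054448000000 := rS 0x17b451f2ee9eb76328c4ac510a95e343 (k8 b425 b1153 b430 b130 b75 b48 b423 b179 (k4 i886 b53 i1679 b767 (k2 b58 i1411 (k1 b409 k0)))) (by decide +kernel)
def b1262 : PP 8 4 T 0x101001000002000080000002000000000000100000410001124460000010448020000 := rS 0x2e51295379809d0d3bb317e8315a150f122e8cc0a8b011254e3d0e8b45e35188854a5350a4d1e252d97c4ed1 (k8 b309 b529 i469 b531 b48 b349 i1369 b94 (k8 i826 b430 b130 b273 b365 b84 b128 b126 (k8 b38 b18 i72 i788 b461 i261 i192 i531 (k8 b330 b646 b25 b376 b33 i1455 b1261 b814 (k8 b815 b108 i790 i1272 i1018 i1278 b1106 b163 k0))))) (by decide +kernel)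
def b1263 : PP 8 4 T 0x1000000002000080000000000000000000040000000000000100000010408000000 := rS 0xc408382ac9d0d6626d2e9d4fb3d06852ea1cf236451dcea7b8923408480193502272f96da21509a4c21115a02d4e071eb05461d169cc1ac51083d4a8f7892ca6a12c900860112994d65523ab4d2cb0fbf4a304 (k8 b1255 b1260 b985 b1068 b145 b140 b118 b383 (k8 b30 b353 b9 b48 b1231 b355 b272 i866 (k8 b94 i826 b794 b1153 b349 b430 b437 b130 (k8 b75 b28 b390 b128 b126 b423 b56 b38 (k8 b31 b18 b311 b1103 b1166 b1259 i1369 i27 (k8 i136 b309 b531 i469 b529 b1158 b1262 b44 (k8 b348 b317 i1760 b725 i753 i1010 i751 i523 (k8 i524 i1012 b0 b22 b25 b33 b1168 b446 (k8 i1779 i1777 i994 b388 b815 b108 b1061 b1254 (k2 i2027 i750 (k1 i1349 k0))))))))))) (by decide +kernel)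
def b1264 : PP 8 4 T 0x1000000002000080000000000000000000000000000000000100000010408000000 := rS 0x27c34fc517e95608532010c02a1 (k8 b94 b1231 b355 b272 i826 b1255 b30 b985 (k4 b1260 b1263 b141 i759 (k1 b108 k0))) (by decide +kernel)
def b1265 : PP 8 4 T 0x1000000002000080000000000000000000000000000000000100000000408000000 := rS 0x235164b0004884112080c70780a8dc50f1 (k8 b1153 b1264 b46 b57 b124 b136 b142 b1032 (k8 i3079 b272 b439 b355 b436 i1882 i964 b998 k0)) (by decide +kernel)
def b1266 : PP 8 4 T 0x1100000000000011800000000000000540000000110208008000000000008000000 := rS 0xda67 (k2 i2308 i2332 (k1 b1164 k0)) (by decide +kernel)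
def b1267 : PP 8 4 T 0x101101000002000080000000000000000000040000000001000000000080408000000 := rS 0x15aab86ad4a0cb34958ca07608354a8f0491c024d2c83ca60b4585022f1099719a25688e4088d2d9049444 (k8 b1265 b66 i22 i771 i1052 b139 b271 i652 (k8 b48 i888 i386 b269 b1153 i2303 b439 b417 (k8 b311 i564 b437 i603 b270 b47 b42 b312 (k8 b349 b430 b28 b56 b31 i1050 b345 i1850 (k4 b1266 b1077 i1397 b32 (k2 i498 i1314 (k1 b581 k0))))))) (by decide +kernel)
def b1268 : PP 8 4 T 0x101101000002000080000000000000000000040000000002000000000000408000000 := rS 0xad5ac34a0ab2b834124700928824d0214c880b (k8 b311 b1265 i564 b139 b270 i22 b66 b47 (k8 b42 b312 b28 i33 i1657 b1080 b32 i1398 (k2 b1078 b789 k0))) (by decide +kernel)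
def b1269 : PP 8 4 T 0x101101000002000080000000004000000000000000000001000000000040448000000 := rS 0x7eb75e2ecd94f662fd68ca569414e071eb0546a10e8354a0923934a60b359a50a562c83d92872e97d06818909c8201148502204253c42644 (k8 b1265 b269 b1153 b66 b139 i2303 b439 b57 (k8 b47 i22 b785 b325 b60 b33 i2432 i510 (k8 b646 b1232 b437 i603 b345 b931 i1583 i627 (k8 b311 i564 b270 b42 b312 b430 b28 b126 (k8 b94 b423 b56 b38 b31 b18 b1080 i1314 (k8 i2027 i506 i1454 b1261 b329 b308 i1681 i674 (k2 i887 i1411 (k1 i2031 k0)))))))) (by decide +kernel)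
def b1270 : PP 8 4 T 0x1101000002000080000000000000000000040000000000000000000000448000000 := rS 0xa2cb550acab110491c024a2093408590794c880b (k8 b311 b1265 i564 b437 i603 b139 b270 i22 (k8 b66 b47 b42 b312 b1166 b1268 b1267 b1269 (k2 i123 i498 (k1 b1077 k0)))) (by decide +kernel)
def b1271 : PP 8 4 T 0x1101000002000080000000000000000000040000000000000000000000408000000 := rS 0x30c54c68838878124a54810880b (k8 b311 b1265 b139 i572 b66 b312 b1270 b287 (k4 b350 i488 b2 i1277 (k1 b342 k0))) (by decide +kernel)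
def b1272 : PP 8 4 T 0x1100000000000000800000000000000040000000110008000200000081008000000 := rS 0x11ad166970b639479288204 (k8 b139 i22 b66 b349 b271 i771 i386 i888 (k2 i652 i1052 (k1 b1266 k0))) (by decide +kernel)
def b1273 : PP 8 4 T 0x1100000002000080000000000000000000040000000000000000000000448000000 := rS 0x7eb75e2ecd94f6620d0e5d15a04a06942958aa655a4454e3d508744a216489c82012f8a5164f3e9657eca56a941a090591d56fc03b05466b0a044084a7884c880f (k8 b437 b1265 b269 b1153 b66 b139 i2303 b439 (k8 i627 b423 b56 b31 b1271 b359 b42 b311 (k8 b312 b28 b430 b405 i2027 i1454 i603 i1328 (k8 b293 b417 b57 i2432 b47 i22 b785 b1232 (k8 b130 b48 b126 b94 b38 b18 b1166 i2030 (k8 b780 i767 b345 b931 i1583 i505 i1402 b1272 (k8 i510 b646 i1438 b1261 b329 b308 i1681 i674 (k2 i887 i1411 (k1 i2031 k0))))))))) (by decide +kernel)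
def b1274 : PP 8 4 T 0x1100000002000080000000000000000000040000000000000000000000408000000 := rS 0x9f3db4472c6329e50ecf3ba74ea8566c4a2d1015a562ab537435101e5c8cd26673ed0d946156ac556fc03b05460d61b1442a5478941247269641ec92489c8201548a516af0a044084a7884c880b (k8 b311 b1265 b269 b1153 b66 b139 i2303 b439 (k8 i587 b417 b57 i572 b47 i22 b785 i29 (k8 b1232 b437 i603 b270 b42 b312 b48 b349 (k8 b430 b130 b75 b52 b28 b423 b56 b31 (k8 b1271 b359 b382 b405 b137 i2027 b79 i1328 (k8 i2308 i1367 b538 b737 b1273 b350 b50 b144 (k8 i1396 b2 i1058 b791 b315 b268 b325 b370 (k8 b64 b426 b313 b21 b36 b0 b414 i1049 (k4 i2032 i298 i652 b637 (k2 b626 b388 k0)))))))))) (by decide +kernel)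
def b1275 : PP 8 4 T 0x101100000002000000000000000000000005000000400002000400000054408000000 := rS 0x18c6d668958a21 (k4 b130 b75 b48 i770 (k2 i1697 b179 (k1 b475 k0))) (by decide +kernel)
def b1276 : PP 8 4 T 0x1001000002000080080001108000000000000000000000000000000040448000000 := rS 0x16d441facd774f538f582a3508744a2152abd0e8340c484e41008a4281102129e2133e94c880b (k8 b311 b1265 i564 i1596 b269 b1153 b66 b139 (k8 i2303 b439 b57 b47 i22 b785 b325 b60 (k8 b33 b0 i587 b430 b130 b48 b126 b94 (k8 b423 b56 b38 b18 b53 i1679 i666 b825 (k2 b395 i2031 (k1 b70 k0)))))) (by decide +kernel)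
def b1277 : PP 8 4 T 0x101101000002000080000000000000000000000000000000000000000040448000000 := rS 0x17067199dd98c74aa2628b13098ca04f55158aa8142a1e24c1518b45e35618c58a2152a3c4a4726965922720805520b14a2cd6140881094f1099101eb5499f8e6a1 (k8 b94 b390 b1274 i1638 i127 b437 b1265 b269 (k8 b1153 b66 b139 i2303 b439 i627 b417 b57 (k8 b311 i572 b47 i22 b785 b1232 i603 b270 (k8 b42 b48 b349 b430 b130 b75 b273 b52 (k8 b365 b84 b128 b423 b56 b325 b0 b25 (k8 b60 b1275 b345 b1269 i759 i1666 i2305 i1048 (k8 i1315 b342 b2 b435 b1276 i2032 b676 b1110 (k2 i490 i2033 (k1 b737 k0))))))))) (by decide +kernel)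
def b1278 : PP 8 4 T 0x101101000002000091000000004000000000000000000240000000000000408000000 := rS 0x31a64e3443bace2c833299d0eb130b28ae50128c412472093592012497d528b3583d5e1408811e213a1ab4fc5305a349444 (k8 b1265 b66 i1052 b311 i564 b1274 i1556 b337 (k8 b269 b1153 b139 i2303 b439 i587 b437 i627 (k8 b417 i572 i2432 i29 b47 b1232 b270 i22 (k8 b42 b312 b273 b48 b1080 i1665 b433 i1312 (k8 i1316 b512 i489 b793 i925 b339 i514 b21 (k4 b395 i799 b275 i488 (k1 b455 k0))))))) (by decide +kernel)
def b1279 : PP 8 4 T 0x101101000002000080000000000000000000000000000000000000000000448000000 := rS 0x454c298282ccc6cb5526d2f1846b459a5c2d8e454250491c0241269641e5324aa516af0a044084a7884c880b (k8 b311 b1265 b269 b1153 b66 b139 i2303 b439 (k8 i587 b417 i572 i29 i564 b437 i603 b270 (k8 i22 b47 b42 b312 b48 b1277 b271 i771 (k8 i386 i888 i652 i1052 b120 b26 b72 b1278 (k8 i123 i2305 i2330 b1077 b936 i1312 b133 b342 k0))))) (by decide +kernel)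
def b1280 : PP 8 4 T 0x1101000002000080000000000000000000000000000000000000000000448000000 := rS 0x1862a884a98ce2b93bc58ca673a95e202f1a83c12472532402a902110170d499f8e6a1 (k8 b94 b390 b1274 i1638 b141 b311 b1265 b139 (k8 i572 b47 b1232 b66 b42 b312 b437 b365 (k8 b84 b1279 b11 b426 i489 i1049 b339 b21 (k8 b387 i799 i488 b643 b946 b2 i1277 b342 k0)))) (by decide +kernel)
def b1281 : PP 8 4 T 0x101100000002000080000000000000000000000000000000000000000000448000000 := rS 0xdf1544254e2778b1d4a865178d44a3123904085907c35267350ae4ce57559f894c900910c2fc (k8 b1280 b137 b1265 b47 b1232 b66 b1274 b359 (k8 i1665 i489 b737 b94 b390 i1638 b141 b437 (k8 i603 b139 i22 b42 b273 b48 b365 b84 (k8 b793 b345 i1539 b339 b21 i799 b643 b946 (k2 b2 i1317 (k1 b413 k0)))))) (by decide +kernel)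
def b1282 : PP 8 4 T 0x1100000002000080000000000000000000000000000000000000000000448000000 := rS 0xdf1544254e2778b194eb105c99cae6155bf05e350791c940464804890d499f8e6a1 (k8 b94 b390 b1274 i1638 b141 b1265 b47 b1232 (k8 b139 b66 b42 b437 b365 b84 b1280 b359 (k8 b137 i1665 i489 b737 b1281 b426 i1049 b339 (k4 b21 i799 b643 b946 (k2 b2 i1317 (k1 b413 k0)))))) (by decide +kernel)
def b1283 : PP 8 4 T 0x101100000002000000000000000000000005000000400014000400000054408000000 := rS 0x54 (k2 b345 b1275 k0) (by decide +kernel)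
def b1284 : PP 8 4 T 0x1100000002000080000000000000000000000000000000000000000000408000000 := rS 0x4f9eda239631d59b10679dd3b16329e50a8719c48ce2b2bac556fc30c54c66e441c43c7e61b14428f128248e4d2cb249227208055229459ac1eaf0a044084a7884c880b (k8 b311 b1265 b269 b1153 b66 b139 i2303 b439 (k8 i587 b437 i627 b417 b57 i572 b47 i22 (k8 b785 i29 b1232 i603 b270 b42 b312 b48 (k8 b349 b130 b75 b52 b1274 b1282 b287 b350 (k8 b144 i488 b2 i1277 b342 b359 b382 i1665 (k8 b791 i489 b325 b538 b0 b25 b414 b782 (k8 b339 b313 b21 b36 b1283 b370 b426 i2032 (k4 i298 i652 b637 b626 (k1 b388 k0))))))))) (by decide +kernel)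
def b1285 : PP 8 4 T 0x101000000002000080000002000000000000000000000000100000000040448000000 := rS 0x163451f2cd6e4e86b31068540a1e245d538f5421d12884a62720804be292abf57eaa6583d4a0d0491d5b0403b0546af0a044084a7884c880b (k8 b311 b1265 b269 b1153 b66 b139 i2303 b439 (k8 i587 b423 b56 b31 b1284 b118 b42 b312 (k8 b28 b430 b437 b145 i2027 i1722 b985 b30 (k8 b57 i2432 b47 i22 b785 i564 b130 b48 (k8 b126 b94 b38 b18 i510 b325 b646 b1116 (k8 b25 b33 b1261 b815 b816 i762 i1429 b767 (k2 b58 i1293 (k1 b395 k0)))))))) (by decide +kernel)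
def b1286 : PP 8 4 T 0x101001001000000010100002440000000140000000510204008000000085008000000 := rS 0x10686a253d62ce409b50a67 (k8 i489 b922 i515 i1402 b1191 i1847 b412 b395 (k2 b766 b303 (k1 i933 k0))) (by decide +kernel)
def b1287 : PP 8 4 T 0x1000000002000080000000000000000000040000000000000000000000448000000 := rS 0x2f58f4e438fd074458a050a565dacd1ad12e16c722a5a4454e3d508744ac362885922720805166b329a5fa7d29afd5e140881094f10994554cb07a941a090591c88ad8201d82a3 (k8 b423 b56 b31 b1284 b118 b1265 b42 b311 (k8 b312 b28 b430 b437 b145 i2027 i498 b269 (k8 b1153 b66 b139 i2303 b439 i587 i1722 i564 (k8 i1596 b985 b140 b9 i627 b417 b47 i22 (k8 b785 b1232 b130 b75 b52 b48 b126 b94 (k8 b38 b18 b1166 i2030 b1285 b271 i771 i386 (k8 i652 i1052 i2330 b1134 b1286 b931 i1402 i1847 (k8 b395 b303 b58 i933 b766 b53 b385 i2036 k0)))))))) (by decide +kernel)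
def b1288 : PP 8 4 T 0x1000000002000080000000000000000000040000000000000000000000408000000 := rS 0x27c343c5129bf554cb07a941a090591c88ad8201d82a3 (k8 b423 b56 b31 b1284 b118 b1265 b42 b311 (k8 b312 b28 b430 b437 b145 i2027 b985 i564 (k4 i498 b1287 b50 i1269 (k1 b108 k0)))) (by decide +kernel)
def b1289 : PP 8 4 T 0x1000000002000080000000000000000000000400000000000000000000408000000 := rS 0x2e22c33168bd423518a3c4a9344c44ac5029c34ea958a1849e5554811fa635532c1ea506824164756c100ec151928887e (k8 b1288 b1265 b66 b423 b56 b31 b1284 b118 (k8 b42 b311 b312 b28 b430 b437 b145 i2027 (k8 i2305 b985 b139 i572 b30 i759 i1048 b342 (k8 b435 i1667 b141 i564 b108 i497 b11 b2 (k8 i1636 b48 b349 b273 b365 b94 b84 b128 (k4 b1110 b294 i2033 b387 k0)))))) (by decide +kernel)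
def b1290 : PP 8 4 T 0x1000000002000080000000000000000000000000000000000000000040408000000 := rS 0x58b190287891744ac362884be295aa14ac5029c344e410fa262861279f8aaa97e98d54cb07a941a090591d5b0403b0546cd3b1359201458502204253c42644 (k8 b1265 b269 b1153 b66 b139 i2303 b439 b417 (k8 b47 b1232 b270 b1289 b676 b423 b56 b31 (k8 b1284 b118 b42 b311 b312 b28 b430 b437 (k8 b145 i2027 i2305 b985 i572 b30 b1288 i759 (k8 i1048 b342 b2 b350 i22 b785 b141 i564 (k8 b108 i497 b931 i127 b57 i2432 b130 b75 (k8 b52 b48 i510 b325 b646 b60 i2032 i1315 (k1 b1276 k0)))))))) (by decide +kernel)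
def b1291 : PP 8 4 T 0x1000000002000080000000000000000000000000000000000000000000408000000 := rS 0x2cd628d68970b6391526628503093e1a7e31aa9facb5695608af45851521129810824a2382426440581d82a30683d4af1 (k8 b1153 b430 b437 b28 b423 b56 b31 b311 (k8 b1265 b269 b312 b42 b66 i22 b139 i564 (k8 i2303 i572 b439 b417 i587 b1284 b30 b118 (k8 b145 b985 i2027 i2305 b1288 b141 i759 i1048 (k8 b108 b342 b133 b1290 b271 i771 i386 i652 (k4 i1052 i1316 i2330 b455 k0)))))) (by decide +kernel)
def b1292 : PP 8 4 T 0x1100000002000000000000000000000000000000000000000100000000808000000 := rS 0x0 (k2 b1150 b1148 k0) (by decide +kernel)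
def b1293 : PP 8 4 T 0x1100000002000000000000000000000000000000000000000000000000808000000 := rS 0x33b24940123910ee32 (k8 b106 b356 b1292 b42 b47 b66 b1232 i490 (k1 b538 k0)) (by decide +kernel)
def b1294 : PP 8 4 T 0x101201000000000000000000004000000400000400045000520000000000008000000 := rS 0x2e5526f (k4 b1105 i574 b1106 b1171 k0) (by decide +kernel)
def b1295 : PP 8 4 T 0x1001000002000080000000004000000000000000000000000100000050048000000 := rS 0xb65e2057ebb41c487ec75789c2411538f5421d61b15e27f34854b60807a95960b23ab582a359aa172b529146227747894e863039845a6700034984220b260822 (k8 b1291 b1293 b288 b571 b272 b143 b28 b1150 (k8 i449 b128 i960 b31 i447 b109 b48 b349 (k8 b356 b296 b1260 b1294 i883 i1066 b1171 i2439 (k8 b423 b56 b118 b383 b311 b145 b430 b437 (k8 i2027 b81 b229 b140 i1663 b1153 b75 b52 (k8 b126 b94 b38 b18 b1172 b439 i1797 i1920 (k8 i218 i217 b325 i922 b1134 b1096 b60 i2036 (k2 i2031 i1989 k0)))))))) (by decide +kernel)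
def b1296 : PP 8 4 T 0x1000000000000000000000000000000000000000000100004000000020008000002 := rS 0x45a34f037 (k4 b46 b124 i964 i1853 (k1 b998 k0)) (by decide +kernel)
def b1297 : PP 8 4 T 0x1200000000000000000000000000000400000000040004020000000080808000002 := rS 0x46b3cdad14584d087b1c99482c9 (k8 b288 b571 b9 b271 b379 i391 i212 i452 (k4 i654 i1603 i1871 i965 (k1 b1169 k0))) (by decide +kernel)
def b1298 : PP 8 4 T 0x400000000000101000000000000000000000000000000000050000000010800000000000008000000 := rS 0x16b0d (k2 b121 i882 (k1 b315 k0)) (by decide +kernel)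
def b1299 : PP 8 4 T 0x1000001000000080000004000000140010000014000000000080000044048000002 := rS 0x2327a4da2c723e689e5025f41c487a1d39a84c22d14974984b (k8 b436 b143 i2259 b1296 b128 i960 b94 b390 (k8 b126 b38 b325 b33 b39 b60 b414 i653 (k4 b706 i296 i452 b983 (k2 b421 b92 (k1 b204 k0))))) (by decide +kernel)
def b1300 : PP 8 4 T 0x1000001000000080000004000000140010000014000000000080000040048000002 := rS 0x6817c6c26 (k4 b1299 b289 b93 b1180 (k1 b202 k0)) (by decide +kernel)
def b1301 : PP 8 4 T 0x1001000002000080000000000000000000000000000000000100000000048000000 := rS 0x994b9c513145baa6186f299f686aa158a4ba572612c9e633099c0a42288000e2d06a3c4af1889fd465920b260822 (k8 b1291 b1293 b288 b571 b43 b423 i1663 b296 (k8 b1153 b48 b349 b28 b128 b31 b1150 b1260 (k8 b272 i2 i449 i960 i447 b91 b436 b143 (k8 i441 i2259 b1296 b1297 b1295 b104 i1595 b1298 (k8 b1105 b108 i574 b101 b342 b169 b334 b364 (k2 b133 b1300 k0)))))) (by decide +kernel)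
def b1302 : PP 8 4 T 0x1001000000000000000008040000000000000000000000500000000000008000000 := rS 0x9f0d (k2 b101 i762 (k1 b108 k0)) (by decide +kernel)
def b1303 : PP 8 4 T 0x1001000002000080000000000000000000000000000000000000000000048000000 := rS 0x1ed37184c9c53f4f8a1bd746c30ac89eb14bd147cb7679e5028389274568557a2c52142898d52113389d54530212802090991016a7038f5821d39a841a0f52a3c4af13bc44e87f8ba5464a323ab4d2cb20b260822 (k8 b1291 b1293 b288 b571 b145 b140 b118 b383 (k8 b423 b106 i1671 b80 i1663 b109 b296 b356 (k8 b1153 b48 b349 b430 b437 b28 b94 b390 (k8 b126 b56 b38 b31 b18 b311 b1301 b269 (k8 b312 b47 b66 b139 i564 i2027 b785 i490 (k8 i2303 i572 i2305 i498 b439 b57 b417 i587 (k8 b932 i391 i1591 b325 b33 b60 b414 b1168 (k8 b1302 i2031 b58 b416 i1293 b210 b395 i1048 (k8 i665 i666 b1105 b342 b384 i1685 b334 b133 (k4 b378 b72 b92 b421 k0)))))))))) (by decide +kernel)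
def b1304 : PP 8 4 T 0x1001000002000080000000000000000000000000000000000000000000008000000 := rS 0x1554204ae62a9322220e21e0581d820d07a94e9174a8c9464756b2e0822 (k8 b1291 b1293 b145 b118 b383 b423 b106 i1671 (k8 b80 b109 b430 b437 b28 b56 b31 b311 (k8 b1303 b287 b350 b1068 i1590 b2 i1403 b312 (k2 b268 i2027 (k1 b104 k0))))) (by decide +kernel)
def b1305 : PP 8 4 T 0x1000000002000080000000000000000000000000000000000000000000008000000 := rS 0x3f20822 (k4 b1291 b1293 b1304 b985 k0) (by decide +kernel)
def b1306 : PP 8 4 T 0x1000000000000004100000004000000140800000550000820000000000008000000 := rS 0x36b455c7b (k4 i2568 i922 i654 i593 (k1 b1191 k0)) (by decide +kernel)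
def b1307 : PP 8 4 T 0x1001002000000084000000404000000000000000040020824000000050048002002 := rS 0xd13697d6c8335a2d1a69408fc223713b154e3d50874c6078699406c9 (k8 i2275 i23 i1492 b121 b31 i447 b126 b94 (k8 b38 b18 b297 b360 b374 b78 b119 b1138 (k8 i1495 i964 i451 i467 b1306 i2031 i853 i669 (k2 i653 b1191 k0)))) (by decide +kernel)
def b1308 : PP 8 4 T 0x1000000000000014100000402100000040000001050000000008000000008102000 := rS 0xd26b4684d86b1 (k4 i1294 i375 i217 i1090 (k2 i468 i1496 (k1 b1191 k0))) (by decide +kernel)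
def b1309 : PP 8 4 T 0x1000001000000094100000402100000040000021050040000000000054048102000 := rS 0x8ca34f4b15b0fd0312 (k8 b325 b60 b1308 b767 i1823 i801 i1090 b92 (k1 b120 k0)) (by decide +kernel)
def b1310 : PP 8 4 T 0x1000001000000084000000002100000000000000054060020000000054048102000 := rS 0x1308a689b5025f89324e0b3 (k8 i2439 i575 i2275 b325 b39 b60 i669 i653 (k2 b1309 b1170 (k1 i1939 k0))) (by decide +kernel)
def b1311 : PP 8 4 T 0x101101000000000080000000004000000000040000000000800100000050448000002 := rS 0x6817c6c2678acd50cf49a554ab98b50992ad32830486710960984b2da3caa422b90596c150b942a03308b4c607 (k8 b31 i447 b128 i960 i23 b230 b1305 b94 (k8 b56 i622 i826 i568 b272 b310 b69 b81 (k8 b436 b143 b345 b103 i544 b432 i859 i1492 (k8 i1493 i2275 b433 b339 b737 b301 b424 b7 (k8 b36 i2040 i2439 b1307 b1310 b289 b93 b1180 (k1 b202 k0)))))) (by decide +kernel)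
def b1312 : PP 8 4 T 0x101101000000000080000000004000000000000000000000420000000000408000002 := rS 0xb864b2d5a6506090ce214aa4cb1144795552422bb05ca03308b4c607 (k8 b31 i447 b128 i960 i23 b1305 b56 i2258 (k8 i445 i574 b310 b69 b342 b345 b71 b435 (k8 b103 i544 b432 i859 i1492 i1493 i465 i2275 (k2 i2040 b737 k0)))) (by decide +kernel)
def b1313 : PP 8 4 T 0x101000000001000000200000000000000400000400010000000020014000008000000 := rS 0x55071d06117 (k4 b336 b335 b294 i983 (k2 i1539 i339 k0)) (by decide +kernel)
def b1314 : PP 8 4 T 0x1100000001000000100000000000000000000000000000008000000002008001002 := rS 0x11c1e59 (k4 i605 i597 i205 b341 k0) (by decide +kernel)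
def b1315 : PP 8 4 T 0x101000000001000000200000000000000400000000010000000020010002008000000 := rS 0x6677 (k2 i804 i287 (k1 b1313 k0)) (by decide +kernel)
def b1316 : PP 8 4 T 0x101100000001000000000000000000000000000000000000008060000000408001002 := rS 0x11c1e5618a399065120d44203 (k8 i23 i744 i1115 b432 b180 b1314 b1315 b327 (k4 i1133 i598 b882 b341 k0)) (by decide +kernel)
def b1317 : PP 8 4 T 0x101100000001000000000000000000000000000000000000000000000001408002002 := rS 0x117339d866c9100d4ca03 (k8 i23 i1492 b125 b432 i464 b372 b87 i450 (k2 b21 b339 k0)) (by decide +kernel)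
def b1318 : PP 8 4 T 0x1001000000000094100000006000000144000000550400500004000054048000000 := rS 0xb1a2a0902b72eabcd8b3538f5421d (k8 b126 b94 b38 b18 i663 b1191 i593 i516 (k4 b1302 b1116 i2031 b303 (k2 i1296 b395 k0))) (by decide +kernel)
def b1319 : PP 8 4 T 0x1000000000000000000000400000000000800000000500000000000000008000000 := rS 0xb713 (k2 b33 i776 (k1 b330 k0)) (by decide +kernel)
def b1320 : PP 8 4 T 0x10010000000000a0000000002000000000500000001000500024000054048010000 := rS 0x57ad936a71e8745ea1 (k8 b94 b84 b126 b38 b18 b193 i2031 i592 (k1 b1302 k0)) (by decide +kernel)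
def b1321 : PP 8 4 T 0x1001002000000084100000006000000044000000140400500020000054048002002 := rS 0x4c1e964b789a0902792ec65a06b468fc2237308b4ca03 (k8 i23 i1492 b128 i960 b374 b78 b119 i964 (k8 i467 b1318 b292 b306 i1072 b1116 b1320 b33 (k4 i151 b1319 b343 i664 (k1 i1940 k0)))) (by decide +kernel)
def b1322 : PP 8 4 T 0x1001001000000094140000006100000144000000550400500000000054048100000 := rS 0x186c5a78f8d8e5 (k4 b1305 b1191 b1318 b384 (k2 i1522 i375 (k1 b381 k0))) (by decide +kernel)
def b1323 : PP 8 4 T 0x1001000000000084040000006100000044000000140008508120000054048002002 := rS 0x9b1c0f86e118cb411a6b3ca0cba81893c47a2f50854c22d2f99406c9 (k8 b591 i23 i1492 b502 b128 i960 b230 b94 (k8 b84 b38 b1321 b325 b1158 b22 b33 b414 (k8 i507 i1051 b1322 b292 b309 i991 b1320 b357 (k2 b193 i297 k0)))) (by decide +kernel)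
def b1324 : PP 8 4 T 0x101101000000000080000000004000000000040000000000000100000050448000002 := rS 0xd00809950cf49c58ce693ba146ac92b1550ec7288912ab952d0996ad329641e0c2f901164a21934a6c17280c9205308b4c607 (k8 b31 i447 b128 i960 i2 b95 i23 b1305 (k8 b56 b1311 b1312 b143 b348 b480 b272 b502 (k8 b1316 i5 i461 i1492 i1493 i465 b433 b301 (k8 b422 b424 b1317 b622 i410 i927 i764 b345 (k8 b591 i1114 b911 i804 i1583 i490 b339 b7 (k4 b36 i2040 b1323 b889 (k2 b529 b309 k0))))))) (by decide +kernel)
def b1325 : PP 8 4 T 0x1101000000000080000001000000000400050100000010020000000001448001002 := rS 0x254e314379dd525319b2926a410ae48c6760a8c3a7350b94c22d3181c6a0f28b24aa42 (k8 i445 b310 i613 i2257 i2405 b125 b31 i447 (k8 b128 i960 b1305 b94 b390 b126 b423 b56 (k8 i449 b341 b737 i1529 i2030 i1365 i209 i289 (k8 i621 i2416 b640 b1105 b342 b334 b435 i2044 k0)))) (by decide +kernel)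
def b1326 : PP 8 4 T 0x1101000000000080000001004000000400050100000010020000000001448000002 := rS 0x8b99cec331050996ad32831920760a8c3a03 (k8 i23 b126 b423 b56 b31 i613 b1325 i1492 (k8 i1493 i465 b433 b624 b372 b87 i450 b21 (k1 b339 k0))) (by decide +kernel)
def b1327 : PP 8 4 T 0x4001001000001000000000000004200000000000000004000000000011000008000010 := rS 0x54a217032 (k4 b335 b171 i288 i1140 (k1 b169 k0)) (by decide +kernel)
def b1328 : PP 8 4 T 0x1101000000000080000001004000000400050100010000000020000001448001002 := rS 0x12a718a2a5727764c58deca498c4a2a42308582a30e9cdca05308b4c6071a94d420f (k8 i338 b94 i826 b125 b31 i447 b128 i960 (k8 i2 b1305 b390 b126 b423 b56 i744 b341 (k8 i2030 b565 i1531 i1365 i209 b1105 b1327 b336 (k4 b21 b387 i623 b342 (k2 b334 b435 (k1 i2044 k0)))))) (by decide +kernel)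
def b1329 : PP 8 4 T 0x1101000000000080000000004000000000040000000000000100000050448000002 := rS 0x3b8822d4264b2d5a0c3299c804a219346ab53aa3cfa592b896200760a8c3a49 (k8 b95 b126 b423 b56 b31 b1324 b320 b11 (k8 b361 b65 b411 b426 b277 b125 b1326 b143 (k8 b348 b272 i489 i1049 b1328 i1493 i465 i464 (k4 b433 b339 b624 b21 (k1 b87 k0))))) (by decide +kernel)
def b1330 : PP 8 4 T 0x1101000000000080000000004000000000080000000000000100000000408000000 := rS 0x43112c108825212d0d42e5 (k8 b1305 b94 b337 i842 b1183 i826 b272 b1092 (k2 b361 b103 (k1 b432 k0))) (by decide +kernel)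
def b1331 : PP 8 4 T 0x1000000000000000000000000000000000000000000000004020000000208000000 := rS 0x9a49 (k2 b127 i2544 (k1 b348 k0)) (by decide +kernel)
def b1332 : PP 8 4 T 0x1101000000000000400000005000020000000000000000000000000000008000000 := rS 0x15b43 (k2 b424 i1558 (k1 b433 k0)) (by decide +kernel)
def b1333 : PP 8 4 T 0x1000000000000080000004040000000000100000000400000004000054048000200 := rS 0x82538f5421d (k4 b126 b94 b38 b18 (k2 i2031 b1108 k0)) (by decide +kernel)
def b1334 : PP 8 4 T 0x1000000000000004050000080401010000000000008000000800045000008000008 := rS 0x13e3961a602635 (k4 b358 i1920 i540 i210 (k2 i194 i1112 (k1 b427 k0))) (by decide +kernel)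
def b1335 : PP 8 4 T 0x1000002000000080000000000000540010000000000000000000100000008000000 := rS 0xfc6ea71e8b45ea1 (k8 b94 b84 b128 b38 b18 b374 b119 b375 k0) (by decide +kernel)
def b1336 : PP 8 4 T 0x1000000000000090000004000000140050100014001000000000000054008000008 := rS 0xde327a3ca0e24f14d8e4e6a1 (k8 b94 b390 i195 b983 b1335 b325 b33 b414 (k4 b421 b92 i1775 b357 k0)) (by decide +kernel)
def b1337 : PP 8 4 T 0x1000000000000080810004000200000000100000000000020824000054048000000 := rS 0x61ae826ae5397c6a08 (k8 i208 b358 i904 b18 b1333 i1920 i626 i210 (k1 b850 k0)) (by decide +kernel)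
def b1338 : PP 8 4 T 0x1001000000000090800004000000000000100004005000020860004050048101000 := rS 0x72f11f3146e118ca2948994aa5ce314448bc4ea929a840a495c8b5271618809ca35 (k8 b358 b1305 i788 i1003 b335 b7 b128 b644 (k8 i72 i261 b94 i826 i574 b529 b84 i191 (k8 b342 b334 b364 b435 b133 b163 b1336 b279 (k4 b461 i1774 b481 b1337 (k2 b119 i2069 (k1 b357 k0)))))) (by decide +kernel)
def b1339 : PP 8 4 T 0x21000002000000080000000000000000000000000000500020000000054048000000 := rS 0xb482898fd4e3d508756e81 (k8 b138 b101 b126 b94 b38 b18 b119 b987 (k2 i2031 b330 (k1 i2553 k0))) (by decide +kernel)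
def b1340 : PP 8 4 T 0x21000002000000080050000000000000000000000000420020800005054048000008 := rS 0x27d8684099707e3d0ea759f16728d56e81 (k8 b138 b101 b358 b1305 b335 b36 b313 b126 (k8 b38 b119 b1339 b253 i610 i210 b371 b836 k0)) (by decide +kernel)
def b1341 : PP 8 4 T 0x21101000000000080440000000000000040000001008000020820005050048100201 := rS 0x9f628dcd612591e50ac358d16243e78abc725d13b44be0f012759f16728d56e81 (k8 b138 b101 b358 b1305 b335 b36 b313 i788 (k8 b403 i904 b231 b529 i531 i195 i539 b1339 (k8 b1333 b325 b58 i1294 i2084 b25 b414 b395 (k4 i1428 i633 i1800 b854 (k2 b550 b427 k0))))) (by decide +kernel)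
def b1342 : PP 8 4 T 0x1101000000000080440000004000000000000000000020020020004050048100001 := rS 0xe07cf1628dc2319452056f0c2798810884a9454a2f13b45525350814926d2fae45a938b0c41a43013946a46 (k8 i867 b358 b1305 i788 b355 i461 i1003 b335 (k8 b7 b128 b644 i904 i669 i72 i261 b94 (k8 i826 i574 b231 b529 b84 i209 i607 b1332 (k8 b163 i190 i191 i1351 b108 b101 b138 b1341 (k8 b279 b461 i1774 b481 b1340 b767 b357 i2069 k0))))) (by decide +kernel)
def b1343 : PP 8 4 T 0x21101000000000080040000000000000040000001008000020820005050048100001 := rS 0x27d8a373584810b261ac68a79428fa24f1578e4ba0713b44be0f012759f16728d56e81 (k8 b138 b101 b358 b1305 b335 b36 b313 i788 (k8 b403 i904 b231 b529 b31 i531 i195 i539 (k8 b1339 b325 b767 b25 b414 b58 i1294 i2084 (k8 b395 b610 i1428 i1960 i1800 b854 b550 b427 k0)))) (by decide +kernel)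
def b1344 : PP 8 4 T 0x101101000000000080000000004000000000000000000000020100000052048000001 := rS 0x381f3c58a3708c65146240ade186f27984a2ca5c8d4626d23034b05719814aa02248b5ca2768854a6a12f90086c7 (k8 i410 b355 b272 i904 b94 i826 b230 b231 (k8 b529 b1305 b128 i72 i788 i2549 i261 i2066 (k8 b822 b345 i461 i867 i669 i1003 b358 b644 (k8 b1342 b567 i1391 i1390 b1105 b108 b101 b138 (k8 b1338 b1343 b279 b461 i1774 b481 b1340 b767 (k2 b357 i2069 k0)))))) (by decide +kernel)
def b1345 : PP 8 4 T 0x1000000000000000000011000000014000040550000002102000000000008000000 := rS 0x1bcfa8f (k4 b290 i1542 i1009 i2044 k0) (by decide +kernel)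
def b1346 : PP 8 4 T 0x1001002000000090000000000000000040200010000400606000000000048100000 := rS 0xb68c3c46532b357c4c7a73509ec6e3f (k8 b119 b374 i754 b94 b390 b38 b60 i1862 (k4 i1335 i1864 b938 b343 (k2 b120 i1808 (k1 b943 k0)))) (by decide +kernel)
def b1347 : PP 8 4 T 0x1001000000000080000000000000000000800000004000202000000000008100100 := rS 0x22a612e2a4e6a1 (k4 b94 b390 i1086 i1438 (k2 i2917 b726 (k1 b342 k0))) (by decide +kernel)
def b1348 : PP 8 4 T 0x1101000000000000400000004200000000000000000000000000000000008000100 := rS 0x15b43 (k2 b301 i1285 (k1 b433 k0)) (by decide +kernel)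
def b1349 : PP 8 4 T 0x1001000000000094000008000001000044000400005002002000000000008118100 := rS 0x842e9e4251437aa4e6a1 (k8 b94 b390 i1086 i1008 b342 b1152 i1933 b753 (k2 b740 i1544 k0)) (by decide +kernel)
def b1350 : PP 8 4 T 0x1000000000000014000000000001800044001001040002002000000000008000000 := rS 0xd68546176327b (k4 i754 b72 b723 b120 (k2 i1544 i1964 (k1 b741 k0))) (by decide +kernel)
def b1351 : PP 8 4 T 0x1001002000000094000011000001014044040500044402406000000054048118000 := rS 0x92b870b34d9e53289371828ab641a5d628104c349e5038a9c7a1d39a84da3f (k8 b119 i667 b94 b390 b126 b38 b18 i750 (k8 b1345 i31 b32 i1309 b1346 i1315 b984 b1347 (k8 i2031 b70 b1349 b736 i2852 i2686 i1932 b1350 (k4 i1431 b1335 b395 b891 (k1 i1920 k0))))) (by decide +kernel)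
def b1352 : PP 8 4 T 0x1001002000000094000011000001014044040500040402414000000054048118000 := rS 0x3ca14b4b258b368a824fa049cb7579c0c43f538f43a7350a3cf648 (k8 b348 i754 b290 b94 b390 b126 b38 b18 (k8 b119 b1351 b176 i539 i2507 i749 i2870 b771 (k8 i2031 b303 i2525 i1296 b395 i1430 b905 i1808 (k1 b388 k0)))) (by decide +kernel)
def b1353 : PP 8 4 T 0x1000001000000004000000000001000004000400000002002000000054008118000 := rS 0x3ca142512 (k4 b325 b439 b25 b414 (k1 b740 k0)) (by decide +kernel)
def b1354 : PP 8 4 T 0x1000000000000080000000000000000000440000000502102004000056048000000 := rS 0x5ba04de7d538f5421d (k8 b126 b94 b38 b18 i1542 i1009 b1116 b757 (k1 i2031 k0)) (by decide +kernel)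
def b1355 : PP 8 4 T 0x1101000000000094400010004001004000040000040402414100000056048018000 := rS 0x96302c16663579c412504197426798ca296a9505a9c0e3d01aa4e6a13aa3c7ef03b9210e15 (k8 b230 i927 b348 i2508 b1353 b119 b290 b715 (k8 b94 b390 i1086 b44 b38 b31 b18 b311 (k8 b1332 i768 b1352 b279 i1854 i1882 b258 b758 (k8 b1354 i1309 i1359 i499 b176 i553 b464 i1886 (k2 i1885 i2853 k0))))) (by decide +kernel)
def b1356 : PP 8 4 T 0x1000000000000000100000000001000000004101000412002400000000008088020 := rS 0x4fa14f26b34230ba8f (k8 b290 b253 i267 i345 i1961 i1013 i1544 i1036 (k1 b945 k0)) (by decide +kernel)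
def b1357 : PP 8 4 T 0x1001000000000000000000000000000000200000008000500000000000008000000 := rS 0x9f0d (k2 b138 i2870 (k1 b108 k0)) (by decide +kernel)
def b1358 : PP 8 4 T 0x1001000000000094100004000001000044000500001412502400000054048118120 := rS 0x853c97564b166a093e8157988267b05a9c0e3d0eaa4e6a136a3c7ef0 (k8 b1353 b119 b290 i667 b94 b390 i1086 b126 (k8 b38 b31 b18 b311 i754 b1356 b1152 i539 (k8 b1357 b771 i2031 i2525 i1296 b464 i513 i1013 (k2 i1544 b388 k0)))) (by decide +kernel)
def b1359 : PP 8 4 T 0x101101000000000080000000004000000000000000000000000100000050448000000 := rS 0x41974f319452dcde613e94412ca1fbc022cf49a762cb964a3c66672a0381a472c8d4ea7702120064d438905ae513b442a535097c42402192c027f (k8 b1330 b1329 b794 b355 b272 b1331 i904 b94 (k8 i826 b230 b231 b529 b1305 b128 b432 i927 (k8 b1344 b44 b348 b317 i2508 b715 i2210 b534 (k8 i2142 b939 b341 i339 i542 i2167 b290 i612 (k8 b644 b294 b313 b7 b36 b547 b1353 b119 (k8 b1355 i1388 b567 i1328 b541 i1009 b757 b1358 (k4 b279 i1854 b258 b758 (k1 b1354 k0))))))))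 (by decide +kernel)
def b1360 : PP 8 4 T 0x21001000000000081800000000000000040000000008001020920000055448000200 := rS 0x1b422bd5930d6345890f9e287579742a5f0681d6e81 (k8 b138 b101 b31 i465 i904 b230 i531 i539 (k8 b646 b1339 b1333 b325 b58 i1294 i2084 b395 (k4 i2901 i473 i674 b527 k0))) (by decide +kernel)
def b1361 : PP 8 4 T 0x1101000000000080000000004000000000000000000000000100000050448000000 := rS 0x3c4263e59b14d41145188aa613bae4664c5f808926f40adc1005861189e5106b295b435203c6ab53aa3cfa856689620212989c80d12590c020760a8d421d16b94fe15 (k8 b230 b1330 b1305 b128 b126 b94 b423 b56 (k8 b31 b1329 b355 b794 b231 b272 b529 i826 (k8 b1331 b1359 b320 b370 b64 b65 b411 b426 (k8 b277 b125 i338 i2030 b624 i1286 b433 i465 (k8 b567 i1389 b341 b108 i2143 i208 b101 b138 (k8 b397 b97 b317 i2924 b348 i2067 b644 b640 (k8 i1391 i791 b1338 b1360 b461 b485 b481 i634 (k4 b1337 i217 b119 b439 k0)))))))) (by decide +kernel)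
def b1362 : PP 8 4 T 0x1101000000000080000000004000000000000000000000000100000040448000000 := rS 0x25800ba420904482f11c1e05015 (k8 b230 b1361 b124 b136 b1033 b1032 i3079 b439 (k4 b272 b253 b355 b436 (k1 b1296 k0))) (by decide +kernel)
def b1363 : PP 8 4 T 0x101100000001000010000000000000000140000000000800000080000000408060004 := rS 0x67458d6696499418243699c42582aa3c9857 (k8 i442 b143 b69 b310 b345 b103 i544 i2287 (k8 b432 i859 i1492 i2275 i1496 i2278 b339 b1191 (k1 b36 k0))) (by decide +kernel)
def b1364 : PP 8 4 T 0x1101000000000080000000004000000000000000000000000110000000448000002 := rS 0xb53a9f4b225883451a102f1311e1321394fe7b01a2c722a (k8 b1362 b271 i452 i23 b379 b1330 b1305 b272 (k8 i212 b69 b143 i896 i897 i965 i654 b1363 (k4 b320 b361 b65 b426 (k2 b277 b1326 k0)))) (by decide +kernel)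
def b1365 : PP 8 4 T 0x1100000000000011000000000000000540000000150008000000000002008020000 := rS 0xd8c7 (k2 i411 b1164 (k1 i476 k0)) (by decide +kernel)
def b1366 : PP 8 4 T 0x1100000000000010000000000000000400000000040408000000000082008002002 := rS 0xc33521d985c0816c2b1378a2c728d3280cd213 (k8 i213 i1496 i23 i1492 i965 b271 i452 b35 (k8 b376 i637 i772 b439 b330 b1365 i129 i1970 (k2 i372 i468 k0))) (by decide +kernel)
def b1367 : PP 8 4 T 0x1000000000000020000000000000000000000000000400000000000080008000000 := rS 0xf319 (k2 b292 i1072 (k1 b442 k0)) (by decide +kernel)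
def b1368 : PP 8 4 T 0x101100000001000000000000000000000000000000000000000020000080408000002 := rS 0xcc77478d592562a890b20f0610da25f251340649 (k8 b95 i23 i788 b348 b502 b1367 i21 b1316 (k8 i5 i461 b1317 i764 b345 b591 i1114 i1132 (k2 i804 b1366 (k1 i490 k0)))) (by decide +kernel)
def b1369 : PP 8 4 T 0x1101000000000080000000004000000000000000000000000100000000448000002 := rS 0x33c666b64830ca693699d86355a9d51e7d4295c4b102e16c2ad14684cbe4a26901164901b94fe39138a6262a (k8 b1362 b376 i138 i14 b271 b1330 b1305 i23 (k8 b95 i452 b1364 i788 b348 b502 i213 i965 (k8 b1367 i637 i772 b330 b1368 b320 b11 b64 (k8 b65 b411 b426 b277 b125 i371 i489 i515 (k8 i1849 i1049 b1328 i464 i468 i1609 b639 b1191 k0))))) (by decide +kernel)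
def b1370 : PP 8 4 T 0x1000000000000004004000000005000000000000000800000060111002008001008 := rS 0x31d8a37090442a33 (k8 i2066 b314 i469 i905 i1005 b481 i2091 b427 k0) (by decide +kernel)
def b1371 : PP 8 4 T 0x101100000001000000000000000000000000000000000000020020000082008000001 := rS 0x45040b8132fb3d3b16618d4624606960ae33078540a552d808923989bc53e43 (k8 b355 b197 b35 b376 b271 i72 i788 i2552 (k8 i2549 i261 b314 b403 i2066 b822 b345 i461 (k8 i867 b183 b358 i2083 b335 b313 b36 b1370 (k4 i213 b330 b439 i531 (k1 b461 k0))))) (by decide +kernel)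
def b1372 : PP 8 4 T 0x101100000001000000000000000000000000000000000000004020000080408000001 := rS 0x1a47079dc0848019344821 (k8 b1331 b432 b1371 b44 b348 b317 i2508 b743 (k2 i2142 b939 (k1 b341 k0))) (by decide +kernel)
def b1373 : PP 8 4 T 0x1000000000000004004000000205000000000000000800000860111000008000008 := rS 0x18ec51b8482233 (k4 i2067 i469 i905 i1005 (k2 i1536 i2092 (k1 b427 k0))) (by decide +kernel)
def b1374 : PP 8 4 T 0x1101000000000080000000004000000000000000000000000100000000448000000 := rS 0x114102e04cbecf4ec58b6330a9300449028c48c0d652b686a46183c6ab53e89620212012c86014fbc62639151fc0ec151a843ae5 (k8 b1305 b126 b94 b423 b56 b31 b1330 b1362 (k8 b271 b376 b35 b197 b1369 b355 b794 b272 (k8 b1331 b1372 b320 b65 b277 b125 i338 i371 (k8 i2030 b624 i1286 b433 i465 b341 b183 i2143 (k8 b97 b317 b348 b314 i2067 i2552 b335 b313 (k4 b36 b1373 i213 b330 (k2 b439 i531 (k1 b461 k0)))))))) (by decide +kernel)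
def b1375 : PP 8 4 T 0x1001000000000080100000404000000000000000550800800080002040048000002 := rS 0x104cf46a047e37782dc4f1345a9c7aa10e98c0e292e930970d (k8 b121 b436 b143 i2259 b1296 b31 i447 b126 (k8 b94 b38 b18 b318 b362 b93 i853 b325 (k4 b374 b119 b1138 i964 (k2 i988 i2031 (k1 b1306 k0))))) (by decide +kernel)
def b1376 : PP 8 4 T 0x1001000000000000000000440000000000000000000000000008000000008100000 := rS 0x16345 (k2 b58 i1294 (k1 b395 k0)) (by decide +kernel)
def b1377 : PP 8 4 T 0x1201000000000080000000004000000000000000000004000080000040248000002 := rS 0x2c68ab61fabcd82740a1da2832facca4a85c99c60cd19a9c7aa10eb94ca6b2a964d2611698c0e3564854b65114974984b (k8 b436 b143 i2259 b1296 b238 b81 b229 b288 (k8 i1114 b31 i447 b128 i960 b140 b43 b30 (k8 b353 b9 b1305 b126 b94 b38 b18 b372 (k8 b45 b82 i450 b644 b1171 i574 i2439 b1375 (k8 i921 i653 b646 b1116 b1180 b614 i593 b1376 (k4 i2031 b70 i1823 b395 k0)))))) (by decide +kernel)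
def b1378 : PP 8 4 T 0x1201000000000080000000004000040000000000040800000080004040448000002 := rS 0xce8b209483186a056e7f59948e0a83bae54e3d51a843a65359a40a611698c0e35649f56b101095dca252ca2c7e8d1bbc2262714974984b (k8 b436 b143 i2259 b1296 b93 b362 b325 b374 (k8 i964 b119 b318 b43 i858 b1305 i442 b1377 (k8 b432 b277 b65 b288 i1114 b31 i447 b128 (k8 i960 i2 b140 b353 b9 b126 b94 b423 (k8 b38 b18 b644 b640 b1171 i575 i574 i2439 (k8 i799 i2559 i1362 b121 b1375 b211 i2031 b1327 (k2 b1306 b36 k0))))))) (by decide +kernel)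
def b1379 : PP 8 4 T 0x1201000000000090000000004000000000000000040800000080000040448000002 := rS 0x988a2255271291f94a9518c5c64978c305461d39a840a611698c0e3564944fab588084aee512965168d1bbc2262714974984b (k8 b436 b143 i2259 b1296 b93 b362 b325 b374 (k8 i964 b318 b43 i858 b1305 i442 b1377 b432 (k8 b277 b65 b238 b288 i1114 b31 i447 b128 (k8 i960 i2 b94 b390 b126 b423 b56 b120 (k8 b26 b1378 b80 i69 i1671 b1327 i2030 b1054 (k4 i800 i575 b234 b342 (k2 b1085 b133 k0))))))) (by decide +kernel)
def b1380 : PP 8 4 T 0x1201000000000080000000004000000000000000040800000080004040448000002 := rS 0x80382dd06a84b2e54e3d0e9cd42e5308b4c6071ab247ef08989c525d261e5a04b (k8 b436 b1379 i1071 b143 i2259 b1296 b93 b362 (k8 b325 b119 b288 i1114 b31 i447 b128 i960 (k8 b1305 b94 b390 b126 b38 b18 b644 b1378 (k4 b1171 b406 i1902 i575 (k2 i2031 i1363 k0))))) (by decide +kernel)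
def b1381 : PP 8 4 T 0x1201000000000080000000004000000000000000040800000080000040448000002 := rS 0x10ec34f8c99e798cb4192cd42c40425772894b2c563bc2262714974984b (k8 b436 b143 i2259 b1296 b93 b362 b325 b4 (k8 b297 b43 i858 b1305 i442 b1377 b432 b64 (k8 b370 b288 b1379 b292 i1071 i1147 b1380 i1711 (k2 i291 b680 (k1 i2032 k0))))) (by decide +kernel)
def b1382 : PP 8 4 T 0x1201000000000080000000004000000000000000000800000080000040448000002 := rS 0x1311444aa5a25249a74fc8652b0c6317332346ec762bc04f1345b05461d39a840a611698c0e3564944525d2612d9a853ead620212bb944a59 (k8 b43 i858 b1305 i442 b1377 b432 b277 b65 (k8 b64 b370 b436 b143 i2259 b1296 b238 b288 (k8 i1114 b31 i447 b128 i960 i2 b94 b390 (k8 b126 b423 b56 b318 b362 b93 b325 b297 (k8 b4 b374 i964 b1381 b85 i1506 b688 b1327 (k8 i2032 i2030 b331 i1638 b1054 i658 i576 b234 (k2 b342 b1085 (k1 b133 k0)))))))) (by decide +kernel)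
def b1383 : PP 8 4 T 0x1201000000000080000000004000000000000000040000000080004040448000002 := rS 0xc363a907e7f599c150775ca9c7ac151a843a611698c0e3564944524b429f56a2768b142aaf3621cb65d26336202172894b2692b97cd655 (k8 b30 b353 b1382 i442 b140 b43 i858 b1305 (k8 b1377 b432 b370 b143 i2259 b81 b646 b614 (k8 i593 b229 i1522 i653 b1180 b277 b65 b64 (k8 b436 b1296 b238 b288 i1114 b31 i447 b128 (k8 i960 b126 b94 b423 b56 b38 b18 b644 (k8 b640 b1171 i575 i2439 i799 b1376 i2030 i414 (k2 b828 i2032 k0))))))) (by decide +kernel)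
def b1384 : PP 8 4 T 0x1201000000000080000000004000000000000000000000000080000040448001002 := rS 0xa4f13f0218ca5618c62e320899c16a760a8d421d0791d5acb0298c0e3564944524b429f56a2768b142a8b3621cb65d26336202172894b2692b97cd655 (k8 b30 b353 b1382 i442 b140 b43 i858 b1305 (k8 b1377 b432 b370 b143 i2259 b81 b646 b614 (k8 i2266 b229 i1522 i653 b1180 b277 b65 b64 (k8 b436 b1296 b238 b288 i1114 b31 i447 i2 (k8 b145 b118 b383 b283 b126 b94 b423 b56 (k8 b18 b311 i449 b689 b1383 b80 i69 b688 (k4 b1327 i2032 i2027 i2030 (k2 b4 b1054 (k1 b1185 k0))))))))) (by decide +kernel)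
def b1385 : PP 8 4 T 0x1201000000000080000000004000000000000000000000000080004040448000002 := rS 0x67 (k2 i450 b1383 k0) (by decide +kernel)
def b1386 : PP 8 4 T 0x1201000000000080000000004000000000000000000000000080000040448000002 := rS 0xa946ac56cb3498407e7e63295866618c5c640c5da2d5ec5a79b0f28313a050f126897d6a7d42b3620211eb05461d39a85ca6b2a9a40605308b4c6071ab242a5b2895c4a5914974984b (k8 b436 b143 i2259 b1296 b43 i858 i442 b238 (k8 b81 b229 b288 i1114 b31 i447 b128 i960 (k8 i2 i23 b140 b30 b353 b1305 b94 b390 (k8 b126 b423 b56 b38 b1377 b432 b370 b64 (k8 b65 b277 b1382 i653 b330 b646 b1116 b1180 (k8 b33 b414 b614 b384 i1522 i593 i2266 i1681 (k8 b1384 b1385 b80 i69 i1609 b688 b1327 i2032 (k8 i2030 b825 i1688 i1638 i474 b706 i1761 i1760 (k2 i576 b1211 k0))))))))) (by decide +kernel)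
def b1387 : PP 8 4 T 0x1201000000000080000000004000000100000000000800020000000081448021002 := rS 0x16a7d88294423162c5cfece3699d82a30e9cd42e532814c22d318d592c3458e5a27b588f56607 (k8 b31 i473 b38 i1761 b379 i654 b271 i452 (k8 i371 b288 i1114 i447 b128 i960 i2 b9 (k8 b1305 b94 b390 b126 b423 b56 i449 i475 (k8 b1169 b1188 b36 i1794 i989 i903 b1327 b432 (k2 b65 b277 (k1 i2030 k0)))))) (by decide +kernel)
def b1388 : PP 8 4 T 0x1200000000000010004000000004000140000000040000000000002000008020000 := rS 0x36b3d8e65 (k4 b9 i1691 i989 i476 (k1 b1169 k0)) (by decide +kernel)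
def b1389 : PP 8 4 T 0x1201000000000090004000004004000140000000040000020000000001548122002 := rS 0xfd8caf3633e2c31521fce0a83bae466c151a843a65029845a631ab2566073ead620e5 (k8 b1305 b432 b277 b65 b31 i473 b288 i1114 (k8 i447 b128 i960 i2 b9 b126 b94 b423 (k8 b56 i1609 b644 b640 b1171 i575 i799 i2030 (k8 b1388 b1327 b36 b1169 i593 i476 b1376 i414 k0)))) (by decide +kernel)
def b1390 : PP 8 4 T 0x1201001000000090004000004004000140000000000800020000000001548122002 := rS 0x29c8663a08daae4cc5152933f2958a311945cccb53ec4182a30e9cd42e5029845a631ab25623d5981d3b18 (k8 b120 b281 b31 i473 b38 i1761 b288 i1114 (k8 i447 b128 i960 i2 b1305 b94 b390 b126 (k8 b423 b56 b432 b65 b277 b1389 b85 b623 (k8 i1506 i1615 b1327 i2030 i1638 i576 b342 b133 (k4 b455 i593 i590 i1687 (k2 i925 b381 (k1 b111 k0))))))) (by decide +kernel)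
def b1391 : PP 8 4 T 0x1201001000000090004000004004000140000000000800020000000001448122002 := rS 0x338c06620 (k4 b1390 b372 b82 i450 (k1 b1388 k0)) (by decide +kernel)
def b1392 : PP 8 4 T 0x1001000000000080000000004000000000000000000000000110000000448000002 := rS 0x311ad145b0c205e09a7cf6f11c8a84a4c0a908b304 (k8 b1374 b43 b272 b229 b143 i858 b1386 b271 (k8 b35 b379 b197 i212 i896 i897 i371 i452 (k4 i654 i965 b1387 b1391 k0))) (by decide +kernel)
def b1393 : PP 8 4 T 0x1200000001000011000000000000000041004100000404008000004015108100002 := rS 0xcf3b994d6551aa3d9267 (k8 i489 b288 i1132 i1114 b30 b353 b9 b640 (k2 b639 b638 k0)) (by decide +kernel)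
def b1394 : PP 8 4 T 0x1001000000000080400000014100000000000000000000400400000001548005000 := rS 0x513f020160760a8d421d3ead620e5 (k8 b1305 b432 b277 b65 b126 b94 b423 b56 (k4 b31 b311 i2027 i2030 (k2 i1309 b1054 k0))) (by decide +kernel)
def b1395 : PP 8 4 T 0x1200000001000011000000000000000001000100000004000020004011008100002 := rS 0x338f627329ad16052fa3cce4a2680c9277109546ac9 (k8 b288 i1114 b30 i743 b640 b95 i23 i788 (k8 b348 i489 i1132 b502 i2 b480 b353 b9 (k4 b529 b637 b638 b639 k0))) (by decide +kernel)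
def b1396 : PP 8 4 T 0x10001000000000000080008000000000000004101000004100010004000055548000000 := rS 0x268f48289a9c7aa10eb3620e5 (k8 b1305 b432 b370 b126 b94 b38 b18 b827 (k4 b800 b343 i816 b154 k0)) (by decide +kernel)
def b1397 : PP 8 4 T 0x1001000000000080000000004000000000000000000000000100004041448001002 := rS 0x12788f9842740a1cf2112ec65a04e3f94550b9399ac8e59349845a63038d59253508a4be1566a14fa753395e20e510956084a269000649 (k8 b95 i23 b1392 i788 b348 b1374 b30 i743 (k8 b1305 b432 b11 i489 b426 b65 b64 b370 (k8 b230 b502 b1032 b94 i826 b288 i1114 b31 (k8 i447 b128 i960 b140 b43 b383 b353 b390 (k8 b644 b1171 i496 b1054 b705 b1395 b292 b306 (k8 b309 i1072 b646 b1116 i746 b690 b1396 b119 (k2 b439 b1159 k0))))))) (by decide +kernel)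
def b1398 : PP 8 4 T 0x1001000000000080000000004000000000000000000000000100000041448001002 := rS 0x18c5c64a47283c8ead65814c6071ab24a6a110900ab04 (k8 b1374 b30 b1392 i743 b94 i826 b288 i1114 (k8 b31 i447 i2 b145 b118 b383 b283 b1305 (k4 b1394 b1397 b80 i69 (k1 b1327 k0)))) (by decide +kernel)
def b1399 : PP 8 4 T 0x1001000000000080000000004000000000000000000000000100000041448000002 := rS 0x12273c5027f28aa04e875cb3c225d19b4018673e95e207372964d2611698c0e356494d42212ac1116051497c944d019248015 (k8 b230 b1392 b95 i23 i788 b348 b502 b1032 (k8 i2 b480 b1374 b30 i743 b94 i826 b288 (k8 i1114 b31 i447 b128 i960 b140 b43 b1305 (k8 b390 b432 b11 b65 i489 b1398 b641 i1609 (k8 b306 b309 i1147 b644 b646 i746 b1171 i496 (k4 b1054 b1116 b1321 b705 (k2 b439 b1159 k0))))))) (by decide +kernel)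
def b1400 : PP 8 4 T 0x1001002000000094100000006000000044000000550400400000000054048000002 := rS 0x11a3f1b944e6a1 (k4 b94 b390 i496 b374 (k2 b119 i964 (k1 b1318 k0))) (by decide +kernel)
def b1401 : PP 8 4 T 0x1001000000000080000000400000000000500000000000500000000054048080000 := rS 0x16e3f57a9c7a1d (k4 b126 b38 b18 i1920 (k2 i217 b1302 (k1 b706 k0))) (by decide +kernel)
def b1402 : PP 8 4 T 0x1001000000000080004000404000000004000000500400500400000054048115000 := rS 0x5b2bc7e6c7804d06812e8f43ac5 (k8 b481 b126 b38 b537 b1116 b1319 b1401 b439 (k4 b536 b119 i593 b706 (k1 b1302 k0))) (by decide +kernel)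
def b1403 : PP 8 4 T 0x1001002000000090100000006000000044000000550400400000004054048000002 := rS 0x6317670ddca35 (k4 i1114 b1305 b374 b1400 (k2 b36 i988 (k1 b335 k0))) (by decide +kernel)
def b1404 : PP 8 4 T 0x1000000000000020000000002000000000800000000400000000000000008000000 := rS 0x4c9e964b789c64ba79 (k8 i1072 b306 b292 b33 i151 b1319 b343 i1940 (k1 i664 k0)) (by decide +kernel)
def b1405 : PP 8 4 T 0x10010000000000a0000000002000000000000000001400000020000050048100000 := rS 0x39788f9368313a046e112ec647a2f29944e6a1 (k8 b94 b390 i496 i826 b84 b38 b292 b306 (k8 b309 i991 b1116 i746 b1404 b193 b1320 b119 (k2 i297 b357 k0))) (by decide +kernel)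
def b1406 : PP 8 4 T 0x1001000000000080000000004000000000000000000000000100000040448000002 := rS 0x6c0833d1a133ca0d031278acc4ed128aa17267199dd0ec7888902a3d39b94ca6b349845a63038d4a6a145814525f479289a40019259304 (k8 b1374 b288 b95 i23 b1392 i788 b348 i1132 (k8 b502 b1032 i2 b480 b94 i826 i1114 b31 (k8 i447 b128 i960 b140 b353 b9 b1305 b390 (k8 b38 b230 b1399 b320 i410 i927 i804 i287 (k8 i490 b644 b1171 i496 b1405 b529 i663 b1403 (k8 b325 b1158 b33 b414 b1401 i1051 b1168 b439 (k2 b1169 i476 k0))))))) (by decide +kernel)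
def b1407 : PP 8 4 T 0x1201000000000091000000004004000100000000000000000020000011448020002 := rS 0x117520c4640d339d50a57883941e4756b2cc6071ab24a6a11095516052f9289a0324855866b (k8 b353 i1952 i637 b95 i23 i788 b348 b502 (k8 i2 b480 b30 i743 b94 i826 b288 i1114 (k8 b31 i447 b145 b118 b383 b283 b1305 b432 (k8 b11 b64 b426 i489 b641 b1395 b1388 b1394 (k2 b80 b1327 k0))))) (by decide +kernel)
def b1408 : PP 8 4 T 0x1001000000000080000000004000000000000000000000000100000000448000002 := rS 0xcea719d0e853bc4448cd61970205b0aa35a2134fbc626271517d164a268a480350292406c9329ac8f04 (k8 b1374 b383 b353 b9 b288 i23 b95 i2 (k8 i1114 b1392 b1032 i788 b348 b480 b502 b1406 (k8 i14 b376 b35 b197 i213 b1367 i965 i637 (k8 i772 b439 b330 i1952 i1970 b1407 b320 i804 (k4 b911 i928 i490 b402 (k2 b633 b412 k0)))))) (by decide +kernel)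
def b1409 : PP 8 4 T 0x201201002000000080000010004000000000000000044000024020000055048001000 := rS 0x1329b1ca34f6132e16d2f1341204e0b7271fca260448f5821d2a964be573ead47e49012a4a6a1 (k8 b94 i826 i574 i788 i72 b119 b277 b65 (k8 b11 i904 b43 b30 b126 b56 b38 i191 (k8 b1171 i527 b1054 b705 b812 i789 i2839 b706 (k8 b33 b406 i2553 b330 b253 i1892 i1846 i194 (k2 i1448 i1020 (k1 b1335 k0)))))) (by decide +kernel)
def b1410 : PP 8 4 T 0x1200002000000080000000000000000000000000000100020020000055548001000 := rS 0x40a0cb45089b090ea71ea843a552f95d9a85883958a3f (k8 b119 b297 b1305 b432 b64 b370 b11 i904 (k8 b30 b126 b94 b38 b18 b646 b813 b827 (k4 b828 b330 i1438 b847 (k1 b800 k0)))) (by decide +kernel)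
def b1411 : PP 8 4 T 0x1001002000000080000010004000000000000000040000020100000041448001000 := rS 0x1fca25c2798892552cc10a6a11489da2153ec41ca21259008601 (k8 b1408 b355 b272 b794 b1331 b1305 b432 b65 (k8 b230 b231 b529 b1032 b94 i826 b1374 b43 (k8 b30 i72 b1409 i1351 b1410 b629 b1054 b705 k0))) (by decide +kernel)
def b1412 : PP 8 4 T 0x1001000000000000000011004000014400010550000000502000000000008000000 := rS 0xde7f (k2 b1054 i1009 (k1 i2044 k0)) (by decide +kernel)
def b1413 : PP 8 4 T 0x1000000000000080050400000000000000500000000000000004000055548000000 := rS 0x3090eb6538f5421d66a1620e5 (k8 b1305 b432 b64 b370 b126 b94 b38 b18 (k4 i2031 i857 i2032 b800 k0)) (by decide +kernel)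
def b1414 : PP 8 4 T 0x1201002000000090000400004000004000000000044400406000004055548100020 := rS 0x2c514b35796d2e803720c12504a980e20b03874d28f3e9d56b105c8b4eee51ab158e111faa4e6a1 (k8 b94 b390 i1086 b119 b78 b4 b297 b125 (k8 b1305 b640 b128 b644 b432 b277 b426 b65 (k8 b349 b140 b126 b31 b311 i750 b1171 i1019 (k8 b1412 i1309 b1347 i1311 b1413 i2853 b949 i1862 (k4 i1335 b1346 i1885 b466 k0))))) (by decide +kernel)
def b1415 : PP 8 4 T 0x1400000000000001000000000000000008500000400000000000000000000000000000000008000000 := rS 0x1774f (k2 b135 i1944 (k1 b409 k0)) (by decide +kernel)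
def b1416 : PP 8 4 T 0x1001000000000080050000004000000000000000048000100104000041448011004 := rS 0x59abcb88b61af56345412054e6b2a964d2292f89da2152bb350b433ead620e5518757ea41092ca6402180542cb5691c1f04 (k8 b1374 b283 b383 b118 b145 b94 b1408 b355 (k8 b272 i826 b794 b1331 b1394 i1451 b126 b423 (k8 b1305 b432 b277 b65 b624 b64 b370 b11 (k8 b230 b231 b529 i904 b1032 b140 b43 b30 (k8 b353 b18 b1357 b1413 b303 i1296 i1415 b1415 (k4 b982 b690 i539 i513 (k1 b395 k0))))))) (by decide +kernel)
def b1417 : PP 8 4 T 0x1001002000000080000000004000000000000000040000000100004041448001000 := rS 0x1c61a5037c54c4042400c9abf1f8458ec5398a4be2768855722d72a4d48212594c804300a8596ad2383e0835 (k8 b125 b1374 b283 b383 b118 b145 b94 b1408 (k8 b355 b272 i826 b794 b1331 b1394 i1365 b1305 (k8 b128 b644 b230 b231 b529 i904 b1032 b390 (k8 b297 b4 b78 b119 i1451 b1411 b44 b348 (k8 b317 b1414 b55 i1320 b1416 b32 i1359 b413 k0))))) (by decide +kernel)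
def b1418 : PP 8 4 T 0x1001000000000080000000004000000000000000040000000100004041448001000 := rS 0x7f28af8104f1f049841140a0cba87893c47a1d359548e5934c10a6a11497c4ed10a95d9a853ec41ca21259008601 (k8 b1408 b355 b272 b794 b1331 b1305 b432 b65 (k8 b64 b370 b11 b230 b231 b529 i904 b1032 (k8 b94 i826 b1374 b140 b43 b383 b30 b353 (k8 b126 b38 b1417 b325 b0 b22 b33 b60 (k8 b689 b690 b439 b800 b1159 b603 i376 i1309 (k2 i1723 b705 k0)))))) (by decide +kernel)
def b1419 : PP 8 4 T 0x400000000000001000002000000080000005000200000000100100000400020000015054048000008 := rS 0x9e3c30cb8bd2dc4e8a825f8fd8ec5538f5421d4eb3e2ce5 (k8 b1305 b335 b36 b313 b126 b94 b38 b18 (k8 b297 b4 b119 i1451 i2031 b303 b33 i2553 (k4 i1415 b330 b1415 i532 (k2 b836 i1075 k0)))) (by decide +kernel)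
def b1420 : PP 8 4 T 0x1001000000000080000000004000000000000000040000000100004041448000000 := rS 0x362b8b6b1a2841065d438f8271278a056e70302909c7f18944044c02831826535954b2698214d42292f89da2151a95d9a75a19f56b1072a8c424b2010c021d (k8 b126 b1408 b355 b272 b794 b1331 b423 b1305 (k8 b432 b277 b65 b624 b426 b370 b11 b125 (k8 b230 b231 b529 i904 b1032 b94 i826 b1374 (k8 b140 b43 b30 b353 b9 b56 b1418 i521 (k8 b641 b317 b631 i1002 b1054 b705 i2030 i790 (k8 i789 i2548 i2839 b1419 b325 b1159 b767 b0 (k8 b22 b33 b439 b58 i1294 b531 b210 b614 (k1 i593 k0)))))))) (by decide +kernel)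
def b1421 : PP 8 4 T 0x400000000000001000002000000080000400004000000000100000500400080400000010048105200 := rS 0xc25e9b42745570458aa7 (k8 b18 b297 b78 b1112 b410 i1920 i593 i1987 (k2 b536 b1415 k0)) (by decide +kernel)
def b1422 : PP 8 4 T 0x1001000000000080000000004000000000000000040000000100000041448000000 := rS 0x40ba13893c49c083fa04a2bf30430de9b8a98ce2a92422170045200c1a32059cc1e6b2a91cb2ad34b2e0853508a4be2768854aecda19f56b1072a8c424b2010c021d (k8 b126 b1408 b355 b272 b794 b1331 b423 b1305 (k8 b432 b277 b65 b624 b370 b11 b230 b231 (k8 b529 i904 b1032 b94 i826 b1374 b145 b140 (k8 b118 b43 b383 b30 b353 b283 b390 b311 (k8 b1420 i1609 i192 b1394 b317 i289 i288 i261 (k8 i572 i1407 i1405 b2 b714 i1317 b413 b342 (k8 i1457 i1311 b138 b141 i1277 b705 b1421 b325 (k4 b1159 b22 b439 b689 k0)))))))) (by decide +kernel)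
def b1423 : PP 8 4 T 0x1201000000000080000000004000000000000000080000000020000055548101000 := rS 0x205d09c49e24e5fa04fe084dc30a260241be2a044418ce2a9192e12631521cc1e6b2a91cb2ad34b2ca6a12f8d4aecda19f56b1072a8c3b17 (k8 b85 b126 b423 b1305 b432 b277 b65 b624 (k8 b370 b11 b125 i904 b94 i826 b145 b140 (k8 b118 b43 b383 b30 b353 b283 b390 b1394 (k8 i1505 i1365 b171 b335 i576 i1407 i1405 i288 (k8 b1327 b2 i1317 i261 b342 i1311 b413 b714 (k8 i1277 b1054 b138 i1457 b705 b1421 b325 b1159 (k2 b22 b439 (k1 b689 k0)))))))) (by decide +kernel)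
def b1424 : PP 8 4 T 0x10001000002000000080040000000000040004401000000000000000000055548000000 := rS 0xf713403087ec5538f5421d66a1620e5 (k8 b1305 b432 b64 b370 b126 b94 b38 b18 (k4 b297 b119 i2032 b800 (k2 b827 i1893 (k1 b343 k0)))) (by decide +kernel)
def b1425 : PP 8 4 T 0x1001000000000080000000004000000000000000000000000100000041448000000 := rS 0x311863f58a0624f1439e55e832e94013194b98ce2898a24d8e48181dd7204198312b173350d6a753ea159a57880d51ea7038f582a30e8b4e6e507954d3041092ca6a11497c4ed10a9008601 (k8 b1408 b355 b272 b230 b231 b529 i904 b1032 (k8 b94 i826 b794 b1331 b1374 b140 b30 b283 (k8 b1305 b390 b128 b126 b423 b56 b38 b31 (k8 b18 b349 b125 b432 b11 b370 b64 b65 (k8 b426 b277 b624 b1422 b85 i1673 b1423 i1610 (k8 b623 b644 b640 b335 i261 i3010 i1509 b268 (k8 b2 b334 b55 b364 b754 i262 b1412 b753 (k8 b1347 i499 i1013 b646 b1424 b325 b60 i1315 (k4 b610 b827 i2032 b832 k0))))))))) (by decide +kernel)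
def b1426 : PP 8 4 T 0x101001000000000080000000004000000004200000500400500400000054048115000 := rS 0x2169ecd611716713 (k8 b60 i1335 b1116 b1402 i1970 b135 i1866 b402 k0) (by decide +kernel)
def b1427 : PP 8 4 T 0x1001000000000000000000010000000000020000000000500000000000008000000 := rS 0x9f0d (k2 b34 i1273 (k1 b108 k0)) (by decide +kernel)
def b1428 : PP 8 4 T 0x1201000000000090000010804000000000100000044500504004000054048000000 := rS 0x90792696a33134d208c0b754abc7a1d (k8 b126 b38 i146 i663 b1302 b1171 b706 i1431 (k4 b33 b72 b330 i2553 (k2 i1808 b348 (k1 b758 k0)))) (by decide +kernel)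
def b1429 : PP 8 4 T 0x101201002000000090000010004000000004040000044500504000000054048101000 := rS 0x3882090a526d089cb586ad97683612cc16a7038f582a350875963f40844d2473583cfaad (k8 b118 b1427 b283 b353 b383 b140 b78 b1426 (k8 b119 b145 b126 b94 b423 b56 b38 b31 (k8 b18 b311 b1428 b1402 b1319 i1944 i2031 b101 (k8 i887 b108 b315 i2548 b301 b348 i2027 i750 (k1 b752 k0))))) (by decide +kernel)
def b1430 : PP 8 4 T 0x1001002000000080400000814001000400100400000100104420000056048005000 := rS 0x1ecea9f679229c7926a14b4cd89afd04a45b8255e0b038f582a30e94d425f88a1c223f (k8 b119 b78 i927 b320 i904 b94 i826 b126 (k8 b423 b56 b38 b31 b311 i146 i1427 b1302 (k8 i2027 b706 b245 b33 i895 b330 b905 i2553 (k8 i1808 b402 b348 b1168 b316 b715 i2512 b388 k0)))) (by decide +kernel)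
def b1431 : PP 8 4 T 0x1201002000000090000000004000000000000000040100104020014052048101000 := rS 0x483813a1ab641accdf15312757277538f43a2d39b955acb3fb147e8f408450f111397ca6a13491cd60f (k8 b283 b353 b383 b140 b94 i826 i904 b529 (k8 b320 i927 b78 b1426 b333 b119 b297 i842 (k8 b145 b118 b1305 b390 b128 b126 b38 b18 (k8 i804 b644 b845 b1429 b55 i1319 b1430 b1319 (k4 i2031 b101 b108 b413 (k2 i1351 i2507 k0)))))) (by decide +kernel)
def b1432 : PP 8 4 T 0x1201002000000090000000004000000000000000040100104020004052048101000 := rS 0x5b89a096e4e8693092761a0f43a3f408450f111397ca6a13491cd60f (k8 b283 b353 b383 b140 b94 i826 i904 b529 (k8 b320 i927 b78 b1426 b119 b126 b38 b1431 (k8 b131 i2508 b348 b1339 b108 i2548 b706 b33 (k2 i2553 b330 k0)))) (by decide +kernel)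
def b1433 : PP 8 4 T 0x101000002000000000000000000000000004000000500200000400000010008105000 := rS 0x2169ec266c4d8a11 (k8 b78 b297 b22 i1970 b537 b135 i1866 b402 k0) (by decide +kernel)
def b1434 : PP 8 4 T 0x1000000000000080400000014000000000000000000011600500000002048005000 := rS 0x52ad4ae092782c0ec151c44fea1 (k8 b94 i842 b320 b423 b56 b31 b311 i31 (k4 i1309 b589 i1398 b160 (k1 i2027 k0))) (by decide +kernel)
def b1435 : PP 8 4 T 0x1000000000000080400008014000000000000004000000002400008000008005000 := rS 0x44a92280938c34160760a8ce6a1 (k8 b94 b390 b423 b56 b31 b311 b101 i2507 (k4 b752 b413 i2027 b2 (k1 i288 k0))) (by decide +kernel)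
def b1436 : PP 8 4 T 0x1201002000000080000000004000000000000000040000000100000042048001001 := rS 0xc4b830a922a9b04c6164825b9e55248378111c0318c5c6a323ea04a25d0581c7ac1518741e6b2a91cb2ad34b2c9653508a4be2768854804388a1c223f (k8 b119 b78 i927 b320 b355 b272 b230 b231 (k8 b529 i904 b1032 b94 i826 b794 b145 b140 (k8 b118 b43 b383 b30 b353 b283 b126 b423 (k8 b56 b38 b31 b311 b1433 b1434 b1426 b1427 (k8 b1432 i113 b80 i69 i2066 i287 b317 i1135 (k8 i261 i572 i1013 b1435 b706 b1319 b758 i1427 (k4 b72 b754 i2027 i1431 (k2 b171 b342 (k1 i1405 k0))))))))) (by decide +kernel)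
def b1437 : PP 8 4 T 0x1001002000000080000000000000000000000000000500520000000054048000000 := rS 0xb713412dc9d0d408f43a3f (k8 b119 b126 b38 b1116 b1339 b108 i2548 b706 (k2 b33 i2553 (k1 b330 k0))) (by decide +kernel)
def b1438 : PP 8 4 T 0x1001000000000000000000100000000000200000000000500000000000008000000 := rS 0x9f0d (k2 b138 i1275 (k1 b108 k0)) (by decide +kernel)
def b1439 : PP 8 4 T 0x501000000000000001008000000000000004000000000000000000000010008000000 := rS 0x10b4f (k2 b135 i1866 (k1 b402 k0)) (by decide +kernel)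
def b1440 : PP 8 4 T 0x1000002000000084044004000004000000100000000400020000015054008000008 := rS 0x13a3d0eb958a3f (k4 b119 b297 b1305 b126 (k2 b38 b845 (k1 b836 k0))) (by decide +kernel)
def b1441 : PP 8 4 T 0x1001000000000000000000000000000000000008000000504000000000008000000 := rS 0x9f0d (k2 b397 i1272 (k1 b108 k0)) (by decide +kernel)
def b1442 : PP 8 4 T 0x1000002000000084000002000000440400000000000000000000120000008000000 := rS 0x9944ae12676 (k4 b131 i1369 i808 i359 (k2 i1143 b1335 k0)) (by decide +kernel)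
def b1443 : PP 8 4 T 0x1201002000000080000000004000000000000000040000000100000042048000001 := rS 0x2651263272d5366f1a30d2e8158a7d9e393c2296ecd09c4cb8312baa4fa022623ca205248cc180f329acaa5956b2c96531497c4ed10a90087113fa858e87 (k8 i927 i410 b94 i842 b320 b355 b272 b230 (k8 b231 b529 i904 b1032 i826 b794 b145 b118 (k8 b43 b30 b353 b9 b283 b1436 i1610 b619 (k8 i521 b622 b333 b348 b317 b1427 i574 i529 (k8 i1002 b1437 b22 b253 i1970 i1931 i531 i532 (k8 i194 i1978 i1076 i3082 b1438 i1855 b1439 b1440 (k8 b1441 i1073 b1442 i2037 i1351 b169 i1939 b1335 k0))))))) (by decide +kernel)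
def b1444 : PP 8 4 T 0x101001002000000080400000014000000004000000580000104420000050048105001 := rS 0x18970615245536098c2c904b7190d4f2a902120064d40974620b038f582a30e9cdca5f13b44223f8b9bca6a1 (k8 b94 i826 b1441 b85 b119 b78 b231 b529 (k8 i904 b1305 b390 b126 b423 b56 b38 b31 (k8 b311 i1505 b1433 b1426 b1437 b44 b348 b317 (k8 i1086 i1013 i2210 b335 b1435 b706 b1319 b758 (k8 i1427 b72 b754 i2027 i1431 b171 b342 i1405 k0))))) (by decide +kernel)
def b1445 : PP 8 4 T 0x1001002000000080400000014000000000000000590011104420000052048104001 := rS 0x2651263272d52e814dac59e78450e4b857548d0044c02a3c9233061bcfae52997c4ed1889fd4287 (k8 i927 b94 i842 b320 b231 b529 i904 i826 (k8 b1305 b1427 b1441 b1444 i1610 b619 b333 i261 (k8 b348 b317 b623 i574 b822 b1437 b620 i531 (k8 i532 i1978 i3082 i1073 b1438 i1855 b1442 i2037 (k4 i1351 b169 i1939 b1335 k0))))) (by decide +kernel)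
def b1446 : PP 8 4 T 0x1000000000000080400000014000000000000000000011600500000002048004000 := rS 0xd (k2 b622 b1434 k0) (by decide +kernel)
def b1447 : PP 8 4 T 0x1201002000000080000000004000000000000000000000000100000042048000001 := rS 0xcc65359a496290a944a64021a8596ad2c91caa0f (k8 b283 b30 b383 b43 b118 b145 b94 b355 (k8 b272 i826 b1446 b230 b1032 b794 b140 b353 (k2 b9 b1443 (k1 b1445 k0)))) (by decide +kernel)
def b1448 : PP 8 4 T 0x1001000000000000000008000000000000000000000000520000000000008000000 := rS 0x9f0d (k2 b101 i2548 (k1 b108 k0)) (by decide +kernel)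
def b1449 : PP 8 4 T 0x1000001001000004044000000000000000000000500015000020115054008104008 := rS 0x4f5386ec508c493b16 (k8 b335 b313 b325 b823 b832 i1005 b381 b427 (k1 b316 k0)) (by decide +kernel)
def b1450 : PP 8 4 T 0x1000001000000080408000014000000000150000400015500008000054048100000 := rS 0x13d6a125f0450712 (k8 b325 b33 i1952 i376 b439 i1455 b1159 i2037 k0) (by decide +kernel)
def b1451 : PP 8 4 T 0x1001001000000080440000014000000004140000540011120020000054048104000 := rS 0xb47b36b36314e1bb1422c31c8f96e5701394be7d29a84bb12 (k8 b325 b22 b94 i826 b1427 i904 b1305 i788 (k8 i529 b1448 b767 i2069 b1450 b823 b832 i1005 (k4 b381 b357 b329 b384 (k2 b92 b614 (k1 i793 k0))))) (by decide +kernel)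
def b1452 : PP 8 4 T 0x1001001000000000000008000400000000000000000000500000000004008100000 := rS 0x205a099395d0d (k4 b101 b1302 b108 i1920 (k2 i761 b439 (k1 i1757 k0))) (by decide +kernel)
def b1453 : PP 8 4 T 0x1000001001000002044000000000000000000000000000000000000004008000000 := rS 0x18b4f (k2 b329 i1791 (k1 b381 k0)) (by decide +kernel)
def b1454 : PP 8 4 T 0x1000000000000084400000014000200080000000000000000400008000008005004 := rS 0x5282572620581d82a3 (k8 b423 b56 b31 b311 i1939 i1143 i1349 i289 (k1 i2027 k0)) (by decide +kernel)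
def b1455 : PP 8 4 T 0x1001001000000080440004014000000005501004400000014428000002008105001 := rS 0x1c0c699192399acf4fa6d5c7b61a286cb32d84026353a8109003038b4e6a17289da297 (k8 b416 b231 b529 b1305 b94 b390 b128 b31 (k8 b44 b348 b317 b715 i2210 i2146 b439 b531 (k8 i473 i524 i523 i1952 i753 b1376 i994 i997 (k8 i1978 b1453 b759 b333 b1454 i540 b421 i750 k0)))) (by decide +kernel)
def b1456 : PP 8 4 T 0x1001001000000080400000014000000000100000500011120020000056148104000 := rS 0x2d9b4f74e8c3358a37619d8ae341c8cc0a664780892e52f9fd8e873e976243e5b94d42a7 (k8 b18 b94 i826 b1452 b767 b325 b22 b1427 (k8 i927 i410 i842 i904 b1305 i72 i788 i2597 (k8 b1451 i261 i2066 i2069 b623 b822 b131 b1450 (k8 b611 b832 b1453 b357 b381 b92 b384 i793 (k1 b614 k0))))) (by decide +kernel)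
def b1457 : PP 8 4 T 0x1001000000000080000000004000000000000000000000000100000040448000000 := rS 0xc241347cb73ca0d0a81893c4de5143b1e222413b44be15538f41e65359548e59569a597041092ca6a1149008601 (k8 b1408 b355 b272 b1032 b94 i826 b794 b1331 (k8 b1374 b145 b140 b118 b43 b383 b30 b353 (k8 b9 b283 b38 b18 b230 i904 b231 b529 (k8 b1425 b320 i410 i927 b1446 b1441 b1447 b325 (k8 b1158 b25 b33 b414 b1452 b767 b1456 b348 (k2 b1455 b619 k0)))))) (by decide +kernel)
def b1458 : PP 8 4 T 0x1001000000000090000000400000000000000000000800084020100000008000001 := rS 0x974ca24c0a94d8fc6e6326015601224a2d4e3d168bca6a1 (k8 b94 i826 b84 b128 b38 b18 b318 b363 (k8 i905 i909 i261 b348 i1351 i1800 i217 i1298 (k4 i574 i790 b169 i1826 (k2 i1284 b375 k0)))) (by decide +kernel)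
def b1459 : PP 8 4 T 0x1001000000000080000000000000000000000000000000084020000080008100001 := rS 0x1144c24840b8132facda25b218e626f1 (k8 b35 b376 b271 b355 i772 b231 i1430 b1458 (k4 i213 b330 b439 b725 (k2 b348 i531 (k1 b461 k0)))) (by decide +kernel)
def b1460 : PP 8 4 T 0x1001000000000080000000004000000000000000000000100100000001448000000 := rS 0x985e0f8e29563035703162d3e2ece4da74ef182421cf2042e968061452138de7f60a8c3a732a966085350bc4f69f478d586cd15214fa755ac41ca21259008601 (k8 b1408 b355 b272 b794 b1331 b1305 b432 b277 (k8 b426 b65 b64 b1457 i888 i371 b125 b349 (k8 b197 b379 b35 b94 i826 b1374 b43 b30 (k8 b390 b126 b423 b56 b1054 b1441 b705 i2030 (k8 b1459 b314 i378 i509 b317 i1808 i777 i261 (k8 b442 i751 b281 b72 b388 b36 b412 i1794 (k8 i989 b171 i642 b381 i131 i1407 i414 i415 (k2 b704 i1991 k0)))))))) (by decide +kernel)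
def b1461 : PP 8 4 T 0x1000000000000000000000000000000000000000000400204100000080008100000 := rS 0x26924b8102dc4de213 (k8 i213 b35 b376 i772 b439 b330 b725 b629 (k1 b348 k0)) (by decide +kernel)
def b1462 : PP 8 4 T 0x1001000000000080000000004000000000000000000000000100000001448000000 := rS 0x2cd63455e0f948c606b169ece4e9de3048439e4085a01850beaf04940ea8566b0e203547b941e5523ab597041092ca64021805e27b4fadc54a1 (k8 b94 b1457 i850 b197 b379 b35 b1408 b355 (k8 b272 i826 b794 b1331 b1374 b145 b118 b383 (k8 b30 b283 b1305 b349 b125 b432 i371 i888 (k8 b64 b426 b1460 i1309 i500 b513 b1461 b314 (k8 i378 b317 i1808 i777 i261 b442 i751 b281 (k8 b388 b412 i1794 i642 b381 b1394 i414 i415 (k4 b58 i1293 i1413 b395 k0))))))) (by decide +kernel)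
def b1463 : PP 8 4 T 0x1001000000000000400002040000000008000000000000040000000000008000000 := rS 0xb1a2acd04bc (k4 i934 i933 i1413 b303 (k2 i1295 b395 k0)) (by decide +kernel)
def b1464 : PP 8 4 T 0x1001000001000000400000014000000000040000110811544020000082008000001 := rS 0x18cc3155c1c0ec3467d3986875a15d3a3119c615202628dd8e4c02abc24491cbc53e7d (k8 b1427 b197 b35 b271 b363 i905 i589 i261 (k8 b348 i2091 i1800 i1803 b317 i574 b482 i2066 (k8 i1002 b281 b822 i2037 b1463 i372 b381 b412 (k8 b427 b131 i807 i808 b334 i1279 i1405 b342 k0)))) (by decide +kernel)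
def b1465 : PP 8 4 T 0x1001000000000080400000014000000000000000110011104020000082008100001 := rS 0x4513092102e04cbe4f2db94865389bc4fea1 (k8 b94 i842 b35 b376 i826 b355 b1305 i772 (k8 b1459 b1464 i213 b330 b439 b725 b348 i531 (k1 b461 k0))) (by decide +kernel)
def b1466 : PP 8 4 T 0x1000000000000000000004040000440000105044000400002004000000008000224 := rS 0x9938a0cc063 (k4 i1349 i263 b1108 i750 (k2 i1021 b421 k0)) (by decide +kernel)
def b1467 : PP 8 4 T 0x101001000000000080400000054000000005101504000400002404000080008005024 := rS 0x30c54c6885c0c91ccfa73358ea40481d82a339c4cf69f5ba85520b4ea5d3718 (k8 b442 b72 b26 b281 b311 i572 b94 i850 (k8 b197 b379 b376 b390 b423 b56 b31 b1466 (k8 i2027 i414 i889 b402 b412 b388 b333 i289 (k4 i288 i1405 b2 i1277 (k1 b342 k0))))) (by decide +kernel)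
def b1468 : PP 8 4 T 0x1001000000000080000000004000000000000000000000000100000000448000000 := rS 0x454c6885c0c91ccfa73358e615ea91640958d147c9b4ba741a753bc6152481aa04f28742810beaf2d00c26143794622245ba7cf7131514c804b218059669569648e553283e080b03b0546a1 (k8 b94 b423 b56 b31 b311 b1374 b283 b9 (k8 b30 b383 b43 b118 b140 b145 b1408 b355 (k8 b794 b272 i826 b1457 b376 b379 b197 i850 (k8 b1462 b320 b1446 b1441 b1465 i137 b314 i378 (k8 i587 i905 b317 b905 i2530 i1808 i1810 i2210 (k8 i261 i572 b442 i804 b715 b619 b281 b26 (k8 b72 b1467 b58 b864 i382 b395 i2027 i1413 (k8 i1431 i415 i889 b402 b412 b388 b333 i289 (k4 i288 i1405 b2 b342 k0))))))))) (by decide +kernel)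
def b1469 : PP 8 4 T 0x1100000000000000100000000000000000000000010000000000000000208000002 := rS 0x8b99cec33 (k4 b372 b87 i450 b21 (k1 b339 k0)) (by decide +kernel)
def b1470 : PP 8 4 T 0x1100002000000080000001008000000008110000000800800000000011548110000 := rS 0x14a7f5daf966ae5b9b1054f60a843a6b34b1418e523a8c1e0b (k8 b311 i579 b423 i1655 b1305 b341 b297 i1495 (k8 i2395 b126 b94 b56 b111 b1139 b308 i151 (k4 i922 i662 i594 i1682 (k2 i1724 b166 (k1 i2030 k0))))) (by decide +kernel)
def b1471 : PP 8 4 T 0x1101000000000080000000008000000000000000000800800080000041448100002 := rS 0x2f948bd57514fe825db090e811fb158ef00889e26a71eb05421da198c0e7d1497496cd2c95d0ab5880301e0b72885924c3291d470d (k8 b121 b423 i1655 i963 b143 i2393 b1469 b1305 (k8 b311 i579 b341 b1317 b277 b64 i442 i462 (k8 b797 b436 i2259 b1296 i1595 b31 i447 b104 (k8 b126 b94 b56 b38 b18 b362 b93 i470 (k8 b325 i1688 b297 b119 b1138 b1470 i2032 i1944 (k8 b800 i926 b303 i922 i1416 i2030 b1415 b166 k0)))))) (by decide +kernel)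
def b1472 : PP 8 4 T 0x1000002000000081000000000000000005000000000500120000000055548000000 := rS 0x610fd8ec5538f5421d (k8 b126 b94 b38 b18 b297 b4 b119 i2032 (k1 b828 k0)) (by decide +kernel)
def b1473 : PP 8 4 T 0x1001001000000081000001408000000000000000000545120004000055548002000 := rS 0xa53faf8d8ae349ad634561ad94e3d60a8d421d3e9650e81 (k8 b1116 b646 i462 i1595 b126 b94 b423 b56 (k8 b38 b18 b767 b828 b70 i1823 i468 i1662 (k4 b395 b614 i594 i1723 (k2 i1451 i2030 k0)))) (by decide +kernel)
def b1474 : PP 8 4 T 0x1000000000000001040000008000000000000000100555000008000000008020000 := rS 0x352f4da87 (k4 b646 i476 i1412 b614 (k1 i586 k0)) (by decide +kernel)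
def b1475 : PP 8 4 T 0x1101000000000080000000008000000000000000000000800080000041448100002 := rS 0xa45e9ad774f61b18206909ab9623e7889d66876897d82a10e954b6513e8a4ba4b66964ae855ac40180f05b9442c9261948ea3 (k8 b423 i1655 i963 b143 i2393 b1469 b1305 b311 (k8 i579 b341 b1317 b277 b64 i442 i462 b797 (k8 b436 i2259 b1296 i1595 b238 b81 b310 b126 (k8 b94 b56 b1471 i653 b646 i661 b1180 b1472 (k8 b1473 i1294 b1376 i217 i1662 b439 b1474 i117 (k4 b53 i1679 i468 i1986 (k2 b825 i415 k0))))))) (by decide +kernel)
def b1476 : PP 8 4 T 0x1101000000000080000000000000000000000000000000000180000041448000002 := rS 0x1dd7295388ce288949a90dea93f94c42b53ac4018c10e9cd42e50782c2a8f1a814c22d3181cca475192ca2c9261f4aeaa (k8 b1468 i442 i1595 b143 i2393 b238 b436 b423 (k8 i1655 i963 b31 i447 b128 i960 i2 b125 (k8 b349 b230 b311 i579 b1305 b94 b390 b126 (k8 b56 b341 b1317 b426 b277 b1469 b1475 b1242 (k8 i574 b1441 i2030 i1636 b169 b342 i288 b334 (k4 b435 b644 b640 i2044 k0)))))) (by decide +kernel)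
def b1477 : PP 8 4 T 0x1001000000000010000000508000000100880040555800020000000000008000000 := rS 0x2e8d8c9 (k4 i2393 b1203 i926 i1682 k0) (by decide +kernel)
def b1478 : PP 8 4 T 0x1001002000000080000001008000000008110000540800860000000011448110002 := rS 0x4ca2629173b081729552af9767f1ca6d3e1368acd7ab1571ed2eb7a2a0a9ea760874e6a1a19845a63039948ea345a346e93 (k8 i1635 b374 i964 b318 b423 i1655 i963 b31 (k8 i447 b128 i960 b104 b94 b390 b126 b56 (k8 b18 b111 b1139 b303 i151 b406 i2568 i922 (k8 i1295 i1415 i662 i654 i1920 b626 b983 b891 (k8 b1477 i1683 b409 b166 i1725 i1457 i2030 b87 (k4 b21 b268 b2 b133 (k1 b1335 k0))))))) (by decide +kernel)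
def b1479 : PP 8 4 T 0x101000000000000080000000008000000004110000000810800000000051448000000 := rS 0x2c8dab6a720d0a7e1029c7aa10eb9686cd1fbc22627 (k8 b93 b362 b325 b119 i890 b104 b1305 b126 (k8 b94 b38 b18 b432 b1298 i1504 i925 b402 (k4 i2031 b384 i853 i665 k0))) (by decide +kernel)
def b1480 : PP 8 4 T 0x400000000000001000000000000081050001000000000005150000000000000004000055548000000 := rS 0x5ed1504bf612914e3d60a8d421d (k8 b126 b94 b423 b56 b38 b18 i2030 i2032 (k4 i1451 b800 b303 i1416 (k1 b1415 k0))) (by decide +kernel)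
def b1481 : PP 8 4 T 0x1000000000000081000001008000004105150000001800020000000051448000000 := rS 0x166b636a0e9c7a8cb41327144c512a9f8bb3d3ab93b0c06620538f5421d16b96863545b158e371fbc22627 (k8 b93 b362 b325 b119 b374 b4 b297 b318 (k8 b125 b104 b1305 b128 b126 b94 b38 b18 (k8 b1480 b372 b82 b87 b644 b845 i988 b21 (k8 i1715 i1675 b268 b2 b334 b133 b1085 b292 (k4 i654 b378 i815 b384 (k2 i2031 i665 (k1 i853 k0))))))) (by decide +kernel)
def b1482 : PP 8 4 T 0x1001000000000080000000008000000000110000540810860000000051448100002 := rS 0x9b4cc622889a7a7e2ecf4eaa4d876180cd64205b2fd067e42c410e93538f43a7317a85ca35029845a6303ad422cd62b1c7e8d1bbc22627 (k8 b93 b362 b325 b374 i964 b119 b4 b297 (k8 i890 i470 i882 b31 i447 b128 i960 i2 (k8 b125 b1305 b94 b84 b390 b126 b38 b18 (k8 i1635 b1478 b1479 b64 b1481 i925 i1723 i2031 (k8 b1413 i853 b372 b82 b87 i665 i2439 b845 (k8 i988 b21 i1715 b384 b234 b342 b378 b133 (k2 b72 b718 k0))))))) (by decide +kernel)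
def b1483 : PP 8 4 T 0x1400000000000001000000000000080000101080000000008050000000000000000000001548110000 := rS 0x5fa9176c151a843b4f (k8 b111 b126 b94 b423 b56 i1683 i2030 b166 (k1 b409 k0)) (by decide +kernel)
def b1484 : PP 8 4 T 0x1001000000000080000000008000000000010000500810864000000041448100002 := rS 0x2651314549c5267e37a6d7aaea2b45049d4321620c3108c464958b9991a811bb1d8af0668444f13459cd42e5a18d40a611698c0ec9149761ab5 (k8 i882 b121 i2259 b1296 i2393 b31 i447 b128 (k8 i960 i2 b125 b104 b1305 b94 b390 b318 (k8 b362 b93 i470 i890 b325 b297 b4 b374 (k8 b1138 i964 b1482 b85 i1674 i450 i1506 b372 (k8 b688 b432 b64 i2032 b331 b1139 i658 b303 (k8 i922 i1415 b983 i1439 b1483 i1638 i800 i576 (k4 b413 b234 b133 b1085 k0))))))) (by decide +kernel)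
def b1485 : PP 8 4 T 0x1001002000000090000000000000000000500000000000800080000040048000002 := rS 0x4c45112a9389ee30b645a347e111ba9c7a1d39a840a611698c0e292e9309627 (k8 b1180 b436 b143 i2259 b1296 b31 i447 b128 (k8 i960 i2 b94 b390 b126 b38 b18 b374 (k8 b78 b119 i964 i451 i2031 b120 b92 i801 (k4 i575 b234 b342 b1085 (k1 b133 k0))))) (by decide +kernel)
def b1486 : PP 8 4 T 0x400000000000101001001000000080000000000000000000110000500555800000000055448100000 := rS 0x2f68ab61fabd774f362fd9a7e103950eb3 (k8 i661 b646 b1305 b432 b1298 b45 i1723 b614 (k8 b384 i1682 i594 b1376 b767 b70 i1988 b409 k0)) (by decide +kernel)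
def b1487 : PP 8 4 T 0x400000000000000001000001000000081000040408000000000100000000000000000000054048080000 := rS 0x5ed156cbf1fabd4f43 (k8 b104 b18 i1920 i217 i1722 b767 b70 i1988 (k1 b409 k0)) (by decide +kernel)
def b1488 : PP 8 4 T 0x1001000000000080000000008000000000000000500010800080000041448100002 := rS 0x148bd570f842c60604026bba79b19b107889d668340a1da25f5ab0546a10ed0caa5b27944fa5714974984b (k8 b436 b143 i2259 b1296 i442 i1595 b238 b91 (k8 b81 b310 b104 b126 b94 b423 b56 i882 (k8 b1484 i653 b646 b1116 i921 i661 b1180 b1485 (k8 b1486 b370 b614 b384 i1682 b1487 b439 b689 (k4 i476 i1690 b1473 b1376 (k2 i1986 b825 (k1 i415 k0))))))) (by decide +kernel)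
def b1489 : PP 8 4 T 0x1001000000000080000000000000000000000000000000000180000041448000002 := rS 0xf6d04122d1a3f088dc4ef04ca5ce31444a04deb754c30a6692c9ae08292e944984b27a9c7aa10eaa82a05308b4c607 (k8 b31 i447 b128 i960 i2 b230 b1468 b126 (k8 b94 b38 b18 b91 b436 b143 b238 i2259 (k8 b1296 b1476 b353 b43 b140 b1488 b108 i574 (k8 b1448 b1441 b138 b169 b342 b334 b364 b133 (k8 b1300 b360 b374 b78 b119 i964 i451 i2031 (k2 b1085 i815 (k1 i654 k0))))))) (by decide +kernel)
def b1490 : PP 8 4 T 0x1100002000000080000000008000000000000000000000010020000051448000002 := rS 0xc240a1cf25d8cb40aa67288850acd2bb26200c7283c16353181cca475197c944962b1c4e3f (k8 b119 b360 b4 b297 b95 b348 i904 b423 (k8 i1655 i963 b31 i447 b125 b311 i579 b1305 (k8 b341 b1317 i464 b11 b370 b64 b1469 i497 (k8 i489 i1489 b641 b292 b306 i1072 b646 b1116 (k2 i2032 b1396 k0))))) (by decide +kernel)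
def b1491 : PP 8 4 T 0x1000002000000080000000000000000000200000000400100000000000048000002 := rS 0x171a10d (k4 b138 b1137 b1116 b306 k0) (by decide +kernel)
def b1492 : PP 8 4 T 0x400000000000001000000000000080050000000000000004110000000000000004000055548000000 := rS 0x1047e610f43acd42ad620e5 (k8 b1305 b432 b277 b64 b370 b126 b38 i2032 (k2 b1480 b800 (k1 i925 k0))) (by decide +kernel)
def b1493 : PP 8 4 T 0x1000002000000080000000008000000000000000000000010020000051448100002 := rS 0xc21c8c81a6d09b44b8864099ca27542b34af10109a4aa6b820fc222763b15cb430782c8ea32f928928b029f4a6a1 (k8 b94 i826 i1596 i2 b480 b95 b348 i904 (k8 b423 i1655 b311 i579 b104 b1305 b297 b4 (k8 b360 b78 b119 b1490 b353 b30 b140 i743 (k8 b432 b11 b370 b64 b426 i497 i489 b1491 (k8 b1492 b646 b306 b253 i515 b641 b1395 b891 (k2 b536 i290 k0)))))) (by decide +kernel)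
def b1494 : PP 8 4 T 0x1101000000000080000000000000000000000000000000000100000041448000002 := rS 0x3f44b1c4e871c2a46e112ec65a0c540954ce511095d9310060f5cb430782c6a611698c0e6523a8cbe4a249f4a6a1788a40a4d2010c2aaa (k8 b1468 b230 b1489 b272 i445 i2 b486 b1493 (k8 b94 i826 i1596 b95 b348 i904 b423 i1655 (k8 i963 b31 i447 b128 i960 b125 b311 i579 (k8 b104 b1305 b38 b341 b1317 i464 b11 b1469 (k8 i497 i489 i1489 b1158 b852 b641 b292 b306 (k8 b309 i991 b1405 b357 b646 i746 i1688 b169 (k2 i296 b1492 k0))))))) (by decide +kernel)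
def b1495 : PP 8 4 T 0x1000001000000001000000008400000001000000500005000528000055408001000 := rS 0x2f95ec2090442a592f884bb12 (k8 b325 b22 i743 i904 i867 b230 b689 b439 (k4 b690 i1920 i376 i1722 k0)) (by decide +kernel)
def b1496 : PP 8 4 T 0x1001000000000080000000000000000000000000000000000100000045448000002 := rS 0x22470a91bc65a00c1f2dd4e47519845a63039acd2cd4299c944940944af101095608e5788a40a4d0aaa8a6a12f900863d (k8 b38 b1489 b272 i904 b94 i826 b1468 b230 (k8 i445 i2 b486 b1493 b1305 b1494 b30 i743 (k8 b432 b11 i497 b1158 b95 b348 i489 b64 (k8 b370 b140 b353 b31 i447 b128 i960 b423 (k8 i1655 b18 b1452 b767 b1495 b641 b292 i991 (k4 b1405 b357 b169 i296 k0)))))) (by decide +kernel)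
def b1497 : PP 8 4 T 0x1001000000000080000000000000000000000000000000000100000041448000002 := rS 0x1a0361317c8043 (k4 b1489 b272 i904 b1496 (k2 b289 b529 (k1 b202 k0))) (by decide +kernel)
def b1498 : PP 8 4 T 0x1100002000000001000000000000000001000001500400000000000055508000000 := rS 0xc2a721d8ac7 (k4 b4 b297 b476 b308 (k2 i2032 b135 k0)) (by decide +kernel)
def b1499 : PP 8 4 T 0x10000000000000000000000000000000002000000000000a0000000000008000000 := rS 0xe060 (k2 i790 i789 (k1 i2839 k0)) (by decide +kernel)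
def b1500 : PP 8 4 T 0x1001000000000080000000000000000000200000000400504000000000008000000 := rS 0x8a024e24826938c65c869cd426f (k8 b1441 b94 b390 b138 b1116 b1357 b108 b1499 (k4 b348 i750 b752 b413 (k1 b753 k0))) (by decide +kernel)
def b1501 : PP 8 4 T 0x1001002000000080000000008000000000100004000000120020010054048000000 := rS 0x994498d2e9b1c99cf08a098cc0a5c01125ca475194d425f (k8 i904 b94 i826 b423 i1655 b1305 i72 i788 (k8 b1437 i261 i192 b253 i531 i532 b623 i194 (k4 i1073 i1855 i537 i191 (k2 i1939 b1335 k0)))) (by decide +kernel)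
def b1502 : PP 8 4 T 0x1000000001000000000000000000000000000000000002000400000000108004000 := rS 0x1b05 (k2 b30 i1489 (k1 b341 k0)) (by decide +kernel)
def b1503 : PP 8 4 T 0x1001000000000000000000000000000000080000000001500000000000008000000 := rS 0x9f0d (k2 b141 i759 (k1 b108 k0)) (by decide +kernel)
def b1504 : PP 8 4 T 0x400000000000001000002000000080000000000000000000150000000000000000000055548000000 := rS 0x17b45412ee9ebf430fd8ec5523056b107287542a3 (k8 b423 b94 b126 b1305 b432 b277 b56 i2030 (k8 b297 b4 b119 b1492 i1451 b111 i1683 b1413 (k2 b303 i1415 (k1 b409 k0)))) (by decide +kernel)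
def b1505 : PP 8 4 T 0x1000001000000081040000008200000000100000000000000008000055048100008 := rS 0x2cc24bb08d3cd6c25ea9c1e0b43c48d2b1 (k8 i1294 i1662 b325 b0 b311 i579 b18 i1412 (k8 b831 i586 b135 i1952 i1944 b439 i666 b1487 k0)) (by decide +kernel)
def b1506 : PP 8 4 T 0x1001000000000000080400000000000000000000000000000008000000008102040 := rS 0x57accd810 (k4 i1688 i1687 i473 i594 (k1 b1376 k0)) (by decide +kernel)
def b1507 : PP 8 4 T 0x1001001000000081000000008200000001100000000005020020000055048100000 := rS 0x2080d5fb0d8ac60101dca0f0591d465f2ec487cb72894d42a7 (k8 b18 b94 i826 i497 b1452 b767 b325 b22 (k8 i904 b423 i1655 b311 i579 b1305 b31 i788 (k4 b1505 i141 i117 i1452 (k2 b1506 b341 (k1 b813 k0))))) (by decide +kernel)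
def b1508 : PP 8 4 T 0x1001000000000080000000000000000000000000000000000100000041448000000 := rS 0x105069a98c6d2d840260401934d2b11f1750eb7893c5487f2aa04a2b542b34ae7d8817cb2292989c42406892c860153b05421d72d0c1e0b23aa94615 (k8 b230 b423 b1468 i1655 b311 i579 b104 b1305 (k8 b126 b94 b56 b18 b1497 b355 b794 b231 (k8 b272 b1331 b529 i826 b1032 i867 i904 b432 (k8 i1596 b11 b370 b64 b277 i497 b1500 b1502 (k8 b1503 i2030 b1504 b325 b1452 b0 b22 b767 (k8 i1294 i1662 b1507 b44 b317 i2146 b439 b531 (k4 i2344 b1474 b614 i1687 (k2 b353 b341 k0)))))))) (by decide +kernel)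
def b1509 : PP 8 4 T 0x11001000000000080000000000000000000200000000000024000000040048000002 := rS 0x3c44f133181c525d (k8 i2259 b1296 b31 i447 b60 i1770 b1138 b325 k0) (by decide +kernel)
def b1510 : PP 8 4 T 0x1000000000000080000000008000000100100000150820020004000054048000000 := rS 0x36b455c7b412dd4e3d50874a4b367c5a0ac9 (k8 i2393 b328 b339 b36 i2441 i581 b126 b94 (k8 b38 b18 i853 i2031 i2568 i922 i654 i2403 (k1 b1192 k0))) (by decide +kernel)
def b1511 : PP 8 4 T 0x1000002000000080000000008000000000100000040020020000000054048002002 := rS 0x1a26d2f9ad168d348fc223762b3e2d053291d46c9 (k8 i2393 b423 i1655 i963 b328 b339 b36 b297 (k8 b374 b78 b119 i1495 i964 i451 i467 b1510 (k2 i669 i653 (k1 b1191 k0)))) (by decide +kernel)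
def b1512 : PP 8 4 T 0x40000000000000100000100000008004040a000000000000040000000000000000000004008000000 := rS 0x186cc5ed154ee5 (k4 b1305 b18 b70 i1989 (k2 i886 b1415 (k1 b1453 k0))) (by decide +kernel)
def b1513 : PP 8 4 T 0x1001000000000080040000008000000000140000040020020000000054048102002 := rS 0x442a4708a469acd2ae5eac52e3e5bb44dabf2fa0e24f139a868605308b4a4b459b3e2d053291d46c9 (k8 i2393 b423 i1655 i963 b328 b339 b36 i2441 (k8 i582 i581 b128 i960 i2 b104 b94 b390 (k8 b1511 b325 b33 b39 i1455 i669 i653 b1512 (k8 b767 b416 i1294 i1412 b1376 i1662 i586 i1925 (k4 b1191 i452 i578 i296 (k1 b234 k0)))))) (by decide +kernel)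
def b1514 : PP 8 4 T 0x1001000000000080000000008000000000000000000000000080000042048100002 := rS 0x1a05f1b099030d14948ce5d06160984b479fd42c7 (k8 i410 b94 i842 b69 b436 b143 i858 i859 (k8 i2259 i544 i581 b1296 b121 b1509 b1513 b289 (k2 b93 b1180 (k1 b202 k0)))) (by decide +kernel)
def b1515 : PP 8 4 T 0x1001000000000080000000000000000000200000000400500100000000048000002 := rS 0x1e03d (k2 b38 b1158 (k1 b1491 k0)) (by decide +kernel)
def b1516 : PP 8 4 T 0x101000000000000081000002008000000005100000000500000004000054048000000 := rS 0xd94e5944d04b7538f5421d (k8 b126 b94 b38 b18 i886 i2031 b33 b1319 (k2 b402 i665 (k1 b384 k0))) (by decide +kernel)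
def b1517 : PP 8 4 T 0x1000000000000082000004008000000000100000000500000004000054048000000 := rS 0x2c97682538f5421d (k8 b126 b94 b38 b18 i2031 i1948 b1319 i666 k0) (by decide +kernel)
def b1518 : PP 8 4 T 0x101001002000000080000002008000000005140000500500400000000054048101000 := rS 0x619b426bf5eaba8a835b3314f430782c8ea328b14223f (k8 b119 b78 b297 i498 b423 i1655 b311 i579 (k8 b104 b18 b1516 b1517 i151 b70 b1302 i1989 (k4 i1455 i1920 i594 b1415 (k1 b536 k0)))) (by decide +kernel)
def b1519 : PP 8 4 T 0x1001002000000080000000008000000000100000000100000020000056448101002 := rS 0x1b5654e66a0a26b7862d50a6935b2608a71e875cb43889fd0e5f2513486493e94d423f (k8 b119 b94 i826 i1596 b95 b1514 i445 b348 (k8 i904 i927 i842 b320 b104 b1305 b126 b38 (k8 b18 b1316 b288 b353 b140 b911 b1518 b315 (k8 b101 b987 i2031 b1517 b402 b1319 b384 i665 k0)))) (by decide +kernel)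
def b1520 : PP 8 4 T 0x1000000000000000000000000000000002000000000500000000000000008000000 := rS 0xb713 (k2 b25 b905 (k1 b330 k0)) (by decide +kernel)
def b1521 : PP 8 4 T 0x121000002000000080000000008000000004100000000500000000000054048000000 := rS 0x6d595399a8289add4e3d508747e85 (k8 b1520 b119 b126 b94 b38 b18 b101 b987 (k4 i2031 b1517 b402 b1319 (k2 b384 i665 k0))) (by decide +kernel)
def b1522 : PP 8 4 T 0x1001002000000080000000008000000000100000000100000020000056448100002 := rS 0xa96833d1f04649b4ce355f9e55c7741ada9ecc5a4350a6b348328711439948ea32f928928b2690c0a7d3794cc22d289fd42c5088fd1a37 (k8 b374 i964 b119 b78 b297 b94 i842 i498 (k8 b128 i960 i826 b1105 i1596 i2 b1514 i445 (k8 b480 b95 b348 i904 b423 i1655 i963 i927 (k8 b320 b104 b1519 i1495 i467 b1520 b1521 b315 (k8 b1516 b329 b1517 i151 i2563 b1302 i1933 i1455 (k8 b131 i490 i594 i464 b308 i1132 b1168 b1169 (k2 b1405 i591 k0))))))) (by decide +kernel)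
def b1523 : PP 8 4 T 0x101000000000000000200000000000000000000000000011000000000000008002000 := rS 0xaf05 (k2 b322 b591 (k1 b345 k0)) (by decide +kernel)
def b1524 : PP 8 4 T 0x1001002000000080000000008000000000100000000000000020000056448100002 := rS 0x19d9f4e19a151ec9061ad9abd5fa08da695bc4da25c468fc6ea71e87622872a83c16513fa84ca5923a8c9449459348605 (k8 i2 b1514 i445 b480 b95 b348 b423 i1655 (k8 i867 i963 b94 i842 i498 b311 i579 i764 (k8 i927 b320 b126 b38 b18 b374 b119 i964 (k8 b1522 b306 b22 i1931 i1850 i516 i2031 i1721 (k8 i1416 i895 i586 b1433 b1523 i1132 b911 i287 (k4 b402 b412 b907 b1191 k0)))))) (by decide +kernel)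
def b1525 : PP 8 4 T 0x1001001000000080040000008000000000100002000000500000000054048101000 := rS 0x2c97612610458b4f53b950712 (k8 b325 b33 b1305 b18 b384 i1522 i475 b381 (k4 b439 i1944 b1401 i666 k0)) (by decide +kernel)
def b1526 : PP 8 4 T 0x1001000000000080000000008000000000100000000000000020000056448101002 := rS 0x152ae682ccdacf47b24ef04338d5cb11639845a6523a8cbe8b028f96e513f94d42a7469e624f1251348649 (k8 b95 b1514 i445 b348 b1524 b325 b414 i1051 (k8 b18 b94 i826 i842 i498 b1452 b767 i2 (k8 b480 i904 b423 i1655 i963 b128 i960 i410 (k8 b320 b1305 i1115 i449 b1316 i804 b288 i1132 (k4 b1168 b1525 i665 b1169 (k2 b1376 b1405 (k1 i591 k0))))))) (by decide +kernel)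
def b1527 : PP 8 4 T 0x1001001000000080040000008000000000100002000000500000000054048100000 := rS 0x2c97612610458b4f53b950712 (k8 b325 b33 b1305 b18 b384 i1522 i476 b381 (k4 b439 i1944 b1401 i666 k0)) (by decide +kernel)
def b1528 : PP 8 4 T 0x1001000000000080000000008000000000100000000000000020000056448100002 := rS 0xa957341666d33b3cee8f1ab24186b34af5628d1f1e56f1278a9e22c72a83c16513f9845a6529a84b2475197c9449459348605 (k8 i2 b1514 i445 b480 b95 b348 i904 b423 (k8 i1655 i867 b94 i826 i963 b128 i960 i842 (k8 i498 b311 i579 i764 i410 b320 b18 b1524 (k8 b325 b1452 b414 b767 i1051 i1294 i1412 i1662 (k8 i586 b1526 b1523 i1114 i1132 i804 b1168 i490 (k4 b1527 i665 b1191 b1376 (k2 b1405 i591 k0))))))) (by decide +kernel)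
def b1529 : PP 8 4 T 0x1001000000000080000000000000000000000000000000000100000040448000002 := rS 0x680d84c812f94c5240218142a513f89142aa (k8 b1468 b94 b1508 i842 i498 b230 i2 b1514 (k8 b272 b486 i826 i904 b1515 b1528 b289 b529 (k1 b202 k0))) (by decide +kernel)
def b1530 : PP 8 4 T 0x1001002000000090000000008000000000000000000000004020000052048000011 := rS 0x9831a6d2e891ca54f08a4115d26342e2dd1e33549300449538f43a2f729541e0b139648ea337a04be513f94d423f (k8 b119 b94 i826 i842 i498 i904 b1500 b1441 (k8 b423 i1655 i867 b529 b311 i579 i764 b1305 (k8 b84 b126 b38 b18 b97 b317 b348 i1084 (k8 i2066 i2597 b1448 b1437 b1501 i1636 b822 i2031 (k8 i531 i532 i1098 b620 i359 b406 i1073 i538 (k2 b1335 i1939 k0)))))) (by decide +kernel)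
def b1531 : PP 8 4 T 0x1001002000000080000000008000000000000000000000004020000052048100001 := rS 0x16b0d42974d26b82034ee481a80c08e5a183c164751c450e27689f5025f289fca6a1 (k8 b94 i826 i842 i498 i904 b1500 i1596 b231 (k8 b529 i927 b320 b423 i1655 b311 i579 b104 (k8 b1305 b1530 i65 i2210 i261 i804 b939 b341 (k4 b353 b140 b1433 b1520 (k2 b1521 b1518 (k1 b315 k0)))))) (by decide +kernel)
def b1532 : PP 8 4 T 0x1000000001000000000000000000000000000000000008004000000002008000011 := rS 0x199300449 (k4 b97 b317 b348 i2066 (k1 b822 k0)) (by decide +kernel)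
def b1533 : PP 8 4 T 0x1001000000000080000000000000000000000000000000000100000040448000000 := rS 0x4c18ce2954727d36933d9d514365492008353bb34ac5b081acd2c35704d7ab14bafd663e3ca0d0a6d5bc49e2813797cb2292989c80d12590c02512aa1d8e7f120554e2d39a85ca0f0591d54a3 (k8 b423 b1468 i1655 b311 i579 b1305 b94 b390 (k8 b128 b18 b230 b1508 i842 i410 i927 i764 (k8 i498 b1529 b355 b794 b231 b272 b529 i826 (k8 b1032 i867 i904 b1441 b1500 b1531 b325 b1452 (k8 b1527 b25 b33 b414 b767 i665 i1721 b416 (k8 i1294 i1412 b1401 b1376 i376 i1662 i586 b439 (k8 i1922 b823 b1453 i1628 b131 b1532 i261 i572 (k8 i524 i523 b715 i753 i1636 i994 i997 b759 (k4 i1102 i877 i538 b421 (k1 i1939 k0)))))))))) (by decide +kernel)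
def b1534 : PP 8 4 T 0x1000000000000080000001000000000010050000000000000000008001448000000 := rS 0x14a2160a8d421d (k4 b126 b94 b423 b56 (k2 b372 i288 (k1 i2030 k0))) (by decide +kernel)
def b1535 : PP 8 4 T 0x1001000000000080000000000000000000000000000000800180000001448001002 := rS 0x54a2170325245c42b5671fc625936c10cec10e9cd42e50782d3e3561814c22d31995163964b44987b3e95cd65e588f566073491d54a3468405403 (k8 i23 b1533 i897 i1760 b423 b1468 i1655 i1764 (k8 b31 i473 b38 i1761 i896 i2395 i442 i1595 (k8 b379 b143 i654 i2393 b271 i452 i963 i447 (k8 b128 i960 i2 i371 b125 b197 b311 i579 (k8 b1305 b94 b390 b126 b56 i449 b341 i475 (k8 b43 b1388 b1203 b1191 i882 b82 b36 i2030 (k4 b335 b171 i288 i1139 (k1 b169 k0)))))))) (by decide +kernel)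
def b1536 : PP 8 4 T 0x1000000001000010104000000000000140000001550000000000010000008002000 := rS 0x18c5d9c33 (k4 i1609 b1191 b36 i989 (k1 b335 k0)) (by decide +kernel)
def b1537 : PP 8 4 T 0x1001000000000080100001000000000000050000080000000000000001448000002 := rS 0x5c2a14888108c4651760a8d421d1a814c607 (k8 b31 i447 i2 b125 b126 b94 b423 b56 (k8 b85 i450 i1506 b372 b1534 i2030 b169 b171 (k1 i1139 k0))) (by decide +kernel)
def b1538 : PP 8 4 T 0x1001000000000090100001000000000000050000510000000000000081448122002 := rS 0x1f2fd482163314d86703b0546a10eb946ac3458e51a03 (k8 i23 i1760 b271 i452 i371 b125 b1305 b126 (k8 b94 b423 b56 b31 b1537 b1536 i1522 i476 (k4 i903 i2030 i1452 i414 (k1 b1506 k0)))) (by decide +kernel)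
def b1539 : PP 8 4 T 0x1001001000000090004000508000000140080001100800020000000000008002002 := rS 0x106ae43a669d1462aa464c733394c22d3181cca4751b24d69d8c24ce6a1 (k8 b94 b390 i1638 b120 b281 i2395 i2393 b423 (k8 i1655 i963 b31 i447 b128 i960 b1305 b1203 (k8 i1687 i450 i576 i1615 b342 b381 b133 b111 (k2 b455 i925 (k1 i590 k0))))) (by decide +kernel)
def b1540 : PP 8 4 T 0x1001000000000080000000000000000000000000000000800180000001448000002 := rS 0xccec67382a1334410abd8a6c5fa4cfcb52c830e6e578add4235619845a6332a2c721564b44987b3e95cd65e588f566073491d54a3468405403 (k8 i23 b1533 i897 i1760 b423 b1468 i1655 i1764 (k8 b31 i473 b38 i1761 i896 i2395 i442 i1595 (k8 b379 b143 i654 i2393 b229 b271 i452 i963 (k8 i447 b128 i960 i371 b125 b94 i850 b35 (k8 b1305 b390 b1535 i462 i882 b1538 i1638 i1724 (k8 b1539 i1522 i594 i903 b395 b275 b455 i575 (k4 i576 i799 i1609 b640 k0))))))) (by decide +kernel)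
def b1541 : PP 8 4 T 0x1001000000000080000000000000000000000000000000000180000001448000002 := rS 0x4c4515ea929a5d368d59ac5a2102f1307a7b019845a6303a2c722a (k8 b1533 b271 i452 b31 i447 b128 i960 i23 (k8 b379 b38 b143 i896 i897 i654 i1761 i473 (k8 i1760 b983 b984 b1540 i574 i589 b342 i2041 (k1 b133 k0)))) (by decide +kernel)
def b1542 : PP 8 4 T 0x1000000001000000004000000000000000000000800000000400000000008004000 := rS 0x1b05 (k2 b353 i468 (k1 b341 k0)) (by decide +kernel)
def b1543 : PP 8 4 T 0x1001000000000080000000000000000000000000000000000100000001448001002 := rS 0x2a17088521fca2328bad4aece18b24ab1036c10ce21608744e294f8d4d6c30782dca053181cca4751a2c727d29a85548d08055a2f10997c944d24900862a (k8 b1533 b1541 b272 b95 i445 b348 b502 i213 (k8 b35 b1367 i637 b439 i965 b1468 b94 i826 (k8 i1596 b271 i452 b423 i1655 i963 b31 i447 (k8 i2 b1305 b311 i579 i371 b1542 b125 b197 (k8 i138 i14 b126 b56 i744 i449 b341 i475 (k8 b432 b1502 b288 b1388 b1169 b11 b277 b36 (k8 b639 i497 b1503 i2030 b1534 b171 b169 i1139 k0)))))))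 (by decide +kernel)
def b1544 : PP 8 4 T 0x1000000001000000000000000000000000000000080000009020000001408000000 := rS 0x88884ac55 (k4 i1620 i489 i743 b11 (k1 b432 k0)) (by decide +kernel)
def b1545 : PP 8 4 T 0x1001000000000080000000000000000000000000000000000100000001448000002 := rS 0x111109598a6c33b2418692e040b61546b44265f25134804345994923989bc46a6b618a88ea307aa816e5 (k8 b1305 b311 b1468 i579 b423 i1655 b1533 i371 (k8 b1542 b125 b35 b376 b271 b95 i963 i452 (k8 b1541 b272 i445 b348 b502 i213 b1367 i965 (k8 i637 i772 b439 b330 i1764 b1543 i464 b1544 (k4 b1536 i1522 i515 i903 (k2 b11 b432 k0)))))) (by decide +kernel)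
def b1546 : PP 8 4 T 0x1000000001000000040000000000000000000000000000000000044081008111008 := rS 0x19d16628c4729f1ab0d3b18 (k8 b482 b281 i371 b125 b197 b271 i1003 b481 (k2 b335 b427 (k1 b36 k0))) (by decide +kernel)
def b1547 : PP 8 4 T 0x1000000000000080000000201000440010000000000000000000140000008100000 := rS 0x2647ea71e8b45ea1 (k8 b94 b84 b128 b38 b18 i1294 i1826 b375 k0) (by decide +kernel)
def b1548 : PP 8 4 T 0x1001000000000081004401008000000001000000000800104020010080008000001 := rS 0x105445dacd7a8736d398a6958a24c68133a6d2f0c19c609ea90131c6e15260155e122d92472f15b9f4fe551091d460f05b94a6a1 (k8 b94 i826 b1305 b311 i579 b423 i1655 b1331 (k8 b1502 b1503 i1596 i850 b35 b271 b363 i36 (k8 i905 i589 i261 b348 i378 i1800 i218 b317 (k8 i574 b1459 b482 i192 b108 b26 b72 b623 (k8 b138 i537 i191 b1547 i1662 i1803 b381 b384 (k4 b111 b385 i665 b1134 (k2 b395 i2047 (k1 b303 k0)))))))) (by decide +kernel)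
def b1549 : PP 8 4 T 0x1000000000000000000000000000000000000000000400020060000080008000000 := rS 0x8a081702a5b0144de213 (k8 i213 b35 b376 i788 i2552 b314 b330 b439 (k2 i531 b461 k0)) (by decide +kernel)
def b1550 : PP 8 4 T 0x1001000000000080000000000000000000000000000000000100000001448000000 := rS 0x4c9c47cbb822e18c0d18b169f176726d3b18439e4ba5a0a1dc22482684cbebf521bcfe515a9d50a573e956205310900964300b35863547b043a7350b941e0b23aa94713789ed3e2a (k8 b1533 b197 b379 b35 b376 b423 b1468 i1655 (k8 b311 i579 b1305 b94 b390 b126 b56 b349 (k8 b125 i371 i888 b1545 b355 b794 b272 b1331 (k8 i826 b432 b1502 i1596 b11 b64 b426 b277 (k8 i497 b1503 b1441 i2030 i1452 b1548 i213 b1549 (k8 b348 b725 i751 b439 i378 i509 i1808 i777 (k8 b442 b281 b72 b388 b36 b412 i1794 i989 (k8 i642 b381 b171 b341 i1679 i414 i1407 i1144 (k1 b704 k0))))))))) (by decide +kernel)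
def b1551 : PP 8 4 T 0x1000000001000000000000000000000000000000000800000080000082408000002 := rS 0x8d82b4426102c130827b8880d1639 (k8 b271 i452 i23 b320 b379 i21 b143 i858 (k4 i897 i212 i654 b328 (k2 i1760 b1363 k0))) (by decide +kernel)
def b1552 : PP 8 4 T 0x1000000001000000000000000000000000000000000800000100000082408000002 := rS 0x4b269008649 (k4 b95 b1551 b272 i445 (k2 b502 b348 k0)) (by decide +kernel)
def b1553 : PP 8 4 T 0x1000000001000000000000000000000000000000000000000500000082408000002 := rS 0x6799cdb4e3ba1d9a851ab0cb86b64840b64a820551a4d2034426432fa2cca491cc4de311 (k8 b320 b35 b376 b271 b95 i963 i452 b1552 (k8 i896 i213 b1367 b272 i445 i965 i637 b1368 (k8 b348 i772 b439 b288 b353 b330 i1952 i1114 (k8 b911 i1970 i928 i804 b402 i516 i490 b412 (k1 b1169 k0))))) (by decide +kernel)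
def b1554 : PP 8 4 T 0x1001001000000080054000049005440000000000000000000000145000008180000 := rS 0x14558a61123f1a2cd9e6da729c7a2d17a85ca93 (k8 i1636 b1305 b94 b84 b128 b38 b18 b381 (k8 b384 b412 i665 b427 i217 i359 b375 b1547 (k2 b275 b395 k0))) (by decide +kernel)
def b1555 : PP 8 4 T 0x1001000000000080000000441000440010000000000000000004140000008100000 := rS 0xa226162a71e8b45ea1 (k8 b94 b84 b128 b38 b18 b1547 b375 b395 (k1 b275 k0)) (by decide +kernel)
def b1556 : PP 8 4 T 0x1001000000000080000000008000000000000000110800004020000082008000001 := rS 0x1986a62442cc7ebb6126d2e9d498c46718548097ec51bb1c2a4c02abc245b24a9dca3978a7ca6a1 (k8 b94 i826 b197 b35 b271 b1305 b18 b363 (k8 i36 i905 i589 i261 b348 i378 i2091 i1800 (k8 i1803 i1722 b317 i574 b482 i2066 i1002 i1636 (k8 b281 b26 b72 b1554 i1944 i376 i666 b1555 (k4 i191 i359 i537 b623 k0))))) (by decide +kernel)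
def b1557 : PP 8 4 T 0x1001000000000002000004049000440000105054000000000000000000008000000 := rS 0x2c68a9859a0d76bf (k8 i1722 i1948 i895 i666 b421 b275 i1826 b395 k0) (by decide +kernel)
def b1558 : PP 8 4 T 0x501001000000000000000004049000440004105054000080000000000000008000000 := rS 0xb1a2a6106b336d399a85 (k8 b905 b1557 b402 b384 i665 i776 b421 b275 (k2 i1826 b395 k0)) (by decide +kernel)
def b1559 : PP 8 4 T 0x1001000000000080000000000000000000000000000000000100000000448000000 := rS 0x1163323cc3153826d2f183ca1d5e5a0a24c22753baa4904d4084cbe69329be08532012c8601289fe22245b9ede3131511d540b519cd42e5 (k8 b1305 b94 b390 b423 b311 b1468 i1655 b1533 (k8 b376 b35 b379 i850 b1550 b320 i842 i498 (k8 b1553 b355 b794 b272 i826 b1372 b1441 b9 (k8 b140 b1556 i213 b1500 b1549 b348 i1086 i2508 (k8 b715 b725 i1636 b439 i378 i587 i2530 i1808 (k8 b442 b26 b72 b1558 b334 i1280 i877 b818 (k2 b294 b85 k0))))))) (by decide +kernel)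
def b1560 : PP 8 4 T 0x400000000004101000000000000095104010000001004001000100150404018400000044048151100 := rS 0x38a516d1586a05069b894610e393da7e9e8b3629c7a1d398bd4203628fc52f0079acab04 (k8 b339 b30 b353 b283 b439 b1146 b603 b481 (k8 b286 b94 b84 b390 b126 b38 b18 b536 (k8 b982 b384 b626 b637 b891 b636 b378 b402 (k8 b72 b33 b60 b987 b724 i2031 b268 i801 (k1 b643 k0))))) (by decide +kernel)
def b1561 : PP 8 4 T 0x101000000000000005108000000000000040000001550005000200000000008100000 := rS 0x78892310e5f6880452f0088109413 (k8 b269 b66 b139 i2303 b439 b1146 b47 b231 (k4 i2432 b636 b1191 b1439 (k2 i1051 b414 k0))) (by decide +kernel)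
def b1562 : PP 8 4 T 0x1000000000000000000000200000000080008000000200000000000000008000000 := rS 0x372589c80 (k4 i1847 i1848 i1885 i1894 (k1 i2835 k0)) (by decide +kernel)
def b1563 : PP 8 4 T 0x400400000000000001000000000000000000440084000000000000000000000000000000000008000000 := rS 0x17b45 (k2 b410 i1987 (k1 b409 k0)) (by decide +kernel)
def b1564 : PP 8 4 T 0x400000000004101000000000000095108010000001004040000100050404018000000044048150100 := rS 0xe2945b4561a8141a6e2518438e4f69f1e874e62f508fc52f035956094f (k8 b135 b339 b30 b353 b439 b1146 b603 b94 (k8 b84 b390 b126 b38 b626 b637 b891 b636 (k8 b378 b1439 b72 b33 b60 b987 b724 b706 (k2 b268 i801 (k1 b643 k0))))) (by decide +kernel)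
def b1565 : PP 8 4 T 0x101000000000000090000000004000000000000000150000018400010045448140120 := rS 0x162b32e1e914af5dd3d84bfa1a9196ad07c122ecf49ae53ac94295cec30669d4662005a9c0e3d60a8c5ae52fb141a3f1b8a5e011 (k8 i2303 b439 b1146 b374 b603 i2302 b481 i2432 (k8 b1305 b128 b423 b56 b38 b31 b18 b311 (k8 b432 b372 b394 b45 b82 b87 i1497 i1504 (k8 i612 b845 b644 i1509 i988 b21 b339 b283 (k8 b118 b145 i2027 b301 i1451 b1560 b135 i1944 (k4 b1563 b1564 i492 i491 (k2 i2310 b1562 (k1 b464 k0)))))))) (by decide +kernel)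
def b1566 : PP 8 4 T 0x1001000000000080000000440000000140000000000000000200000000008100000 := rS 0x184c6885829c0e3d5482c7e091bbc02204250e426974dc61a201 (k8 b47 b231 b120 b72 b26 b269 b891 b66 (k8 b139 i2303 b439 b374 b312 b603 b311 i572 (k8 b38 b31 b18 b464 b1555 i1355 i1277 b1152 k0))) (by decide +kernel)
def b1567 : PP 8 4 T 0x201001000000000080204000040000000040000000100000000000000041448100000 := rS 0xfc8240ac8b8bba1a18d421469b46505518744e410097d8a0d638a5e01102128264466a14fab5 (k8 b277 b65 b64 b370 b1559 b269 b66 b139 (k8 i2303 b439 b1146 b4 i2302 b481 i2432 b47 (k8 i22 b785 b126 b423 b322 i612 i2447 i1129 (k8 b372 b1498 i2032 b624 i1946 b686 b1566 i1335 (k2 i514 b1504 (k1 i926 k0)))))) (by decide +kernel)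
def b1568 : PP 8 4 T 0x1001000000000080000000440000000040000000000000000200000040048100000 := rS 0xc2632825d00782d1756e83462c14e071ea843a532489c825f5482da2011f82452f0088109413 (k8 b269 b66 b139 i2303 b439 b1146 b312 b603 (k8 b47 b231 b311 i572 i2432 i22 b785 i29 (k8 i564 b126 b94 b38 b31 b18 b464 b1566 (k8 i1296 i1824 i1846 i1052 i1051 i2031 i3061 b1116 (k2 i1354 i1312 (k1 b1152 k0)))))) (by decide +kernel)
def b1569 : PP 8 4 T 0x1000002000000080100000840000000000810001850400000000000045448000000 := rS 0x203bd0cff16654145281 (k8 i1335 b1146 b353 i633 b339 b1002 b79 b21 (k2 b1504 b87 k0)) (by decide +kernel)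
def b1570 : PP 8 4 T 0x1001000000000080104000040000000140010001150000000000000041448100000 := rS 0xcd9c0e35a096e70311847a1d7291c4e415482d8a0d1f82452f00884cf6d10093502b22f8109444 (k8 b1559 b66 b139 i2432 b1568 i1335 b270 b47 (k8 b231 b637 b269 i2303 b439 b1146 b312 b603 (k8 i2302 b481 b311 i572 i22 b785 b42 b1305 (k8 b126 b38 i1432 b1152 i488 i801 b706 b1569 (k4 b536 b1191 i285 b639 k0))))) (by decide +kernel)
def b1571 : PP 8 4 T 0x1001000000000081104000040000000041010001150000000000000041448100000 := rS 0x1163b414400e439acba8c239244e410097d8a0d638a5e011021282644 (k8 b1559 b269 b66 b139 i2303 b439 b1146 b4 (k8 i2302 b481 i2432 b47 i22 b785 i29 b42 (k8 b1570 i1846 i1965 b686 b536 i2032 b283 b87 (k2 b339 b21 k0)))) (by decide +kernel)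
def b1572 : PP 8 4 T 0x1001000000000080004000044000000040000000150000000000000041448100000 := rS 0x17f43522f597045d83e9e6c56d1564c90581d82a3728347e1166a14fb106889c82010213494471a8242644 (k8 b1559 b269 b312 b366 b42 b66 b270 b139 (k8 b47 i22 b785 b231 b1565 b65 b64 b370 (k8 i2303 b603 i2302 b1305 b423 b56 b31 b311 (k8 b1567 b1568 b295 i1434 b1571 b384 i667 i1681 (k4 b341 b145 i1413 i2027 (k2 b301 i1451 (k1 b409 k0))))))) (by decide +kernel)
def b1573 : PP 8 4 T 0x1001000000000080004000004000000040000000150000000000000041448100000 := rS 0x1184d23512993025cc6ae1c825520b78044084a09b440244 (k8 b1559 b47 b231 b269 b66 b139 i2303 b439 (k8 b311 i572 b312 b891 b1572 i2306 i1900 b1152 (k4 i2728 i1277 i1924 b1335 (k2 b120 b72 k0)))) (by decide +kernel)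
def b1574 : PP 8 4 T 0x201000000000000000204000000000000000008000000000000200000041408100000 := rS 0x21c429f1909c82d100b141ac714bc022042504d9a85 (k8 b64 b370 b269 b66 b139 i2303 b439 b1146 (k8 b4 i2302 b481 b47 b231 i22 b785 i612 (k4 i1185 b372 i818 i2032 k0))) (by decide +kernel)
def b1575 : PP 8 4 T 0x1001000000000080004000004000000000000000150000000000000041448100000 := rS 0x10e213bc5993053d22806c506b1c52f008b350b106889c82010213494471a8242644 (k8 b1559 b269 b312 b366 b42 b66 b270 b139 (k8 b47 i22 b785 b231 b1565 b64 b370 i2303 (k8 b439 b1146 b4 i2302 b481 b286 b1573 i492 (k4 b982 b1574 b339 b21 (k2 b87 i817 (k1 i2032 k0)))))) (by decide +kernel)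
def b1576 : PP 8 4 T 0x400000000000000001100002000000080110000840000000000010001150400000004000045448000000 := rS 0x43884bb433ba0d95163531c5281 (k8 i1335 b1146 b4 b308 b339 i633 b1569 b21 (k4 b79 i514 b87 b686 (k1 b1492 k0))) (by decide +kernel)
def b1577 : PP 8 4 T 0x400000000000000001000002000000080110040844000000000010001150400000404000045448001100 := rS 0xbfa1a91960f822f4160760a8e8aad (k8 i1434 b295 b423 b56 b31 b311 i1414 b1576 (k4 b283 b145 i2027 b301 (k2 i1451 b409 k0))) (by decide +kernel)
def b1578 : PP 8 4 T 0x1001000000000080000000044000000040000000150000000000000041448100000 := rS 0x2fe86a45eb2e080f359b15b455902c0ec15197de0c5068fc227d8809c824d2511c6a09a7aed4ec9198e426d100b080844 (k8 b1559 b139 b1575 b47 b231 b269 b891 i290 (k8 i612 b18 i1944 b135 b312 b366 b42 b66 (k8 b270 i22 b785 b1565 b65 i2303 b603 i2302 (k8 b481 b439 i2432 b423 b56 b31 b311 b1568 (k8 b295 i1434 b1577 i147 i667 b473 b145 i1413 (k4 i2027 b301 i1451 b409 k0)))))) (by decide +kernel)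
def b1579 : PP 8 4 T 0x1001000000000080000000004000000040000000150000000000000041448100000 := rS 0x1184d23512993025cc6ae1c825520b78044084a09b440244 (k8 b1559 b47 b231 b269 b66 b139 i2303 b439 (k8 b311 i572 b312 b891 b1578 i2306 i1900 b1152 (k4 i2728 i1277 i1924 b1335 (k2 b120 b72 k0)))) (by decide +kernel)
def b1580 : PP 8 4 T 0x1000000000000080050001000000000000118400000000000004000055448000000 := rS 0x14243885461d (k4 b126 b423 b87 i817 (k2 b1492 b624 k0)) (by decide +kernel)
def b1581 : PP 8 4 T 0x1001000000000080000000004000000000000000150000000000000041448100000 := rS 0x835b938dc863024d3d041845cec6340ae55c3358b259eb33c970f519452769ec25a9f620a7038f5821d16b946a472694c4e415482da201628347e09638a5e011021282644 (k8 b1559 b269 b66 b139 i2303 b439 b1146 b4 (k8 b312 b603 i2302 b481 b47 b231 b311 i572 (k8 i22 b785 i564 b270 b42 b366 b1305 b128 (k8 b126 b56 b38 b31 b18 b1565 b65 b277 (k8 b1575 b135 i1906 b1579 b279 i492 i491 i1854 (k8 i2310 i1979 i618 b1562 i291 b464 b644 i1862 (k8 i2306 b1580 b21 b335 b339 b378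 i1509 b1107 (k4 i1715 i1047 i1048 i2519 (k2 i1440 b706 k0))))))))) (by decide +kernel)
def b1582 : PP 8 4 T 0x1000000001000000000000000000000000000200000000000000000001408000000 := rS 0x4311 (k2 b426 b394 (k1 b432 k0)) (by decide +kernel)
def b1583 : PP 8 4 T 0x1000000001000000000000000000000000000000000008000000000001408001000 := rS 0x4311 (k2 b11 i1497 (k1 b432 k0)) (by decide +kernel)
def b1584 : PP 8 4 T 0x1100000000000000000000000000000000000000050000000000000000208000020 := rS 0x8bb24ec33 (k4 b372 b87 i612 b21 (k1 b339 k0)) (by decide +kernel)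
def b1585 : PP 8 4 T 0x1001000000000080000000004000000000000000000000000000000041448100000 := rS 0x4244042cd61a1e0a6814b1d8af0099644e4100844be653a99cae0d023949444 (k8 b1559 b66 b1305 b139 i2302 b1583 i489 b1582 (k8 i1049 i2432 i2303 b47 i22 b785 i604 b269 (k8 b439 b481 b4 b1146 b1581 b140 i1564 i1828 (k4 i1831 b1584 b432 i2032 (k1 b64 k0))))) (by decide +kernel)
def b1586 : PP 8 4 T 0x1000001001000000044000000000000000000002000000000000000000008001000 := rS 0x18b4f (k2 b384 i1521 (k1 b381 k0)) (by decide +kernel)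
def b1587 : PP 8 4 T 0x1000000000000080000000200000000000000000000000400000000044048200100 := rS 0x7eb740c49e229 (k4 b57 b404 b325 b60 (k2 i1824 i1293 (k1 b767 k0))) (by decide +kernel)
def b1588 : PP 8 4 T 0x1001000000000080000000104000000000000000050000008000010044248200020 := rS 0x1f26cc4614c8e1a06d67b0c1eb98231c6033038f45a2f50b941aa905a2d028d3cc49e229 (k8 b57 b404 b325 b414 i1051 b60 b417 b311 (k8 i572 i2302 b1305 b94 b84 b128 b38 b31 (k8 b372 b82 i1690 b1584 b644 b283 i369 i989 (k8 b1586 b1169 i652 i1108 i1165 b1171 i1446 b227 (k1 i297 k0))))) (by decide +kernel)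
def b1589 : PP 8 4 T 0x400000000000000001000000000000080080040000000000004500000000000000004000055548000000 := rS 0x17ebda29f96ca5538f582a166d0cfab588395461d (k8 b126 b423 b1305 b432 b277 b65 b624 b370 (k8 b94 b56 b38 b18 i414 i2031 i2030 b70 (k2 i1988 i1723 (k1 b409 k0)))) (by decide +kernel)
def b1590 : PP 8 4 T 0x400000000000000001101000000000080000000004000000000000001100000000000000041448000000 := rS 0xbc592928a3e5db18d4c151a843aaf43a0d0312788a4fab58808562530582428672b834ca75139040204250d488e5 (k8 b1305 b1559 b366 b66 b139 b47 i22 b785 (k8 b1582 i1049 i2302 b1583 i489 b1585 b312 b311 (k8 i564 b1587 b1588 b432 b277 b65 b57 b404 (k8 b325 b60 b33 b0 i587 b126 b94 b423 (k8 b56 b308 i628 i1946 b1589 b58 b825 b395 (k2 i415 i1414 k0)))))) (by decide +kernel)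
def b1591 : PP 8 4 T 0x800000000000000001000000000000011004000000000000045001100040000010000000051508000000 := rS 0x4e9ed1e9f (k4 b316 b349 b637 b510 (k1 b495 k0)) (by decide +kernel)
def b1592 : PP 8 4 T 0x1101000000000080004000004000000000000000100000000000000041448000000 := rS 0x8bb2538331c0dda0c463d38da0e2393516852e97d0e79893c452cd8808562530582428672b834ca75139040204250d488e5 (k8 b1305 b1559 b366 b66 b139 b47 i22 b785 (k8 b1582 i1049 i2302 b1583 i489 b1585 b312 b311 (k8 i564 b1587 b1588 b432 b370 b57 b404 b325 (k8 b414 b0 i2432 i510 b1520 b417 b270 b42 (k8 b341 i668 b1590 b53 i2032 b1591 i990 i652 (k4 i1616 i1879 i612 b313 (k1 b339 k0))))))) (by decide +kernel)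
def b1593 : PP 8 4 T 0x400000000000000001000001000000089004001000200440000505000000000000000010000048000000 := rS 0xb737a64e2bc5da2170c6190c58b17519cd42e5 (k8 b1305 b94 b390 b423 b36 i1794 i989 b335 (k8 b381 b171 i288 i1679 i415 i1407 i1144 i1317 (k2 i1988 b421 k0))) (by decide +kernel)
def b1594 : PP 8 4 T 0x1001000000000090004000004000000000000000100000000000000041448000000 := rS 0x59d15783e632ecd8cf4dd3d2f183d93516af42974be8741a051a79893c452cd5ac4042b129850ce57329d44e41008d5cac935a915acb2383e080905834084a2201d82a3 (k8 b423 b56 b31 b1559 b66 b139 i2302 b311 (k8 b312 b1592 b283 b42 b145 b118 i2027 b353 (k8 b288 b1305 b366 b47 i22 b785 b1582 i1049 (k8 b1583 i489 b1585 i564 b1587 b1588 b432 b277 (k8 b370 b57 b404 b325 b414 i1051 b60 b33 (k8 b0 i2432 i510 b1520 i587 b417 b270 b637 (k8 b120 b984 b1591 b72 b1593 b1191 i1681 b1586 (k4 b1589 i415 b58 i1413 (k1 b395 k0))))))))) (by decide +kernel)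
def b1595 : PP 8 4 T 0x1001000000000080004000004000000000000000100000000000000041448000000 := rS 0x1f26cc4b919b118e614c8e06ed05232d5a0f8201c7ac1518b45ea123aa516852e97d0e81893c452cd8808562530582428672b834ca75139040204250d488e5 (k8 b1305 b1559 b366 b66 b139 b47 i22 b785 (k8 b1582 i1049 i2302 b1583 i489 b1585 b312 b311 (k8 i564 b1587 b1588 b432 b370 b57 b404 b325 (k8 b60 b0 i2432 i510 b1520 b417 i572 b42 (k8 b94 b84 b128 b423 b56 b38 b31 b1592 (k8 b283 b118 b145 i2027 b1594 i990 i652 i1108 (k8 i1165 i2182 i2032 i1616 b644 b1171 i1446 b227 (k1 i297 k0)))))))) (by decide +kernel)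
def b1596 : PP 8 4 T 0x1001000000000080008000004000000000000000000000000000000041448000000 := rS 0xca5ec155a3e071b18ea71ea850f12788a59b433ead620a310ac4a60b04850ce5706994eae5139040204250d4881d (k8 b126 b1559 b366 b66 b139 b47 i22 b785 (k8 b1305 b1582 i1049 i2302 b1583 i489 b1585 b312 (k8 b311 i564 b1587 b1588 b423 b432 b277 b65 (k8 b624 b370 b57 b404 b325 b0 b94 b38 (k8 b18 i117 i370 i369 b827 i1702 b283 i1412 (k2 b433 i674 k0)))))) (by decide +kernel)
def b1597 : PP 8 4 T 0x1000000001000015020000000004000445001100040000000200000000108000000 := rS 0x66764e9ec6a4d (k4 b270 b366 b637 b510 (k2 b388 i1615 (k1 b640 k0))) (by decide +kernel)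
def b1598 : PP 8 4 T 0x1001000000000080000000004000000000000000000000000000000041448000000 := rS 0x45d929c198e06ed06233d8e9f829a186cd88085628d3ca1d0b122ea2c52f10a0246a472982c4e410097d1e653a99cae0d023949444 (k8 b1559 b66 b1305 b139 i2302 b1583 i489 b1582 (k8 i1049 b349 i2432 b47 i22 b785 b311 i564 (k8 b42 b366 b312 b1585 b404 b57 b417 i510 (k8 b325 b1520 b0 b414 i1051 b1587 b1588 b432 (k8 b370 b1596 b1595 b140 i1565 i1561 i1832 i2032 (k8 b1597 i990 i652 i1616 i1879 i612 b313 b339 k0)))))) (by decide +kernel)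
def b1599 : PP 8 4 T 0x1001000000000090004000001000000000000000004404118400000044048155100 := rS 0x16e834d2cd2e894c938dc811c9ecc05d459b14e3d508740667359a608e5628fc52f0 (k8 b439 b1146 b603 b481 b1305 b341 b140 b353 (k8 i489 b286 b126 b94 b38 b18 b536 b982 (k8 i515 b1152 b637 b891 b1116 i1047 i1048 i2728 (k4 i1277 i1284 i2914 b1335 (k2 b1319 b707 (k1 i2031 k0)))))) (by decide +kernel)
def b1600 : PP 8 4 T 0x1001000000000080000000400000000040000000004000000200000040048100000 := rS 0x461348d4ba2532ae1c98012a905bc022042504da201 (k8 b47 b231 b269 b66 b139 i2303 b439 b311 (k8 i572 b312 b1152 b891 b1568 i2728 i1277 i1284 (k4 i1924 b1335 b120 b72 k0))) (by decide +kernel)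
def b1601 : PP 8 4 T 0x1001000000000080000000008000000000000000000004000200000040048100000 := rS 0x2f68aae5fac4da5c3d22966bba7b09a2a7038f426092689c82010897d52513199e866b8203c16e523834084a (k8 b66 b139 i2302 b42 b1305 b311 i579 b341 (k8 b353 b104 i489 i537 i497 i572 i2432 i2303 (k8 b47 i22 b785 b270 b312 b269 b38 b31 (k8 b18 b231 b1599 b135 i1944 i666 b1600 i492 (k8 i491 i2311 b1562 i1721 b464 b410 i1986 b409 k0))))) (by decide +kernel)
def b1602 : PP 8 4 T 0x1001000000000080000000000000000000000000000000000000000041448000000 := rS 0x632e8d8b2a28f902b761ac4baaf14bc4280f28aa8aea372824a60b13904020d2f8109444 (k8 b1559 b66 b139 i2432 i2302 b47 i22 b785 (k8 b311 i564 b312 b1305 b423 b1583 b1598 i497 (k8 i579 b1601 b404 b57 i587 i510 b1587 i369 (k8 b1302 b1116 b767 b58 b395 i665 i666 b1586 (k1 i1679 k0))))) (by decide +kernel)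
def b1603 : PP 8 4 T 0x1101000000000080454500014000000000000000000000000004000000008000100 := rS 0x2ed4b42538f582a3 (k8 b423 b56 b38 b18 b433 b1348 b114 i2036 k0) (by decide +kernel)
def b1604 : PP 8 4 T 0x1101000000000080044000804000000040000001150008000200000040008100000 := rS 0x1896e615a32a26782d2fd9a8ca72f55a813584c92272097d520b67c5992d100b141a3f088109409 (k8 b312 b66 b139 i2303 b603 i2302 b481 b47 (k8 b231 i2320 b339 b36 b311 i572 i2432 i22 (k8 b785 i29 b269 i2326 i1335 i1434 i1414 b308 (k8 b1191 b329 b83 i1052 i1051 b414 b1603 i506 (k4 i1392 i886 b1152 b896 k0))))) (by decide +kernel)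
def b1605 : PP 8 4 T 0x1101000000000080044000004000000040000001150008000200000040048100000 := rS 0x57189664a (k4 b66 b1604 b1600 b1568 (k1 i2306 k0)) (by decide +kernel)
def b1606 : PP 8 4 T 0x1000000000000001000000000000080000000020000000001100000000209000004000054008000000 := rS 0x835b9f0a2a71ea843b13 (k8 b22 b126 b94 b38 b18 i1314 i1581 i1931 (k2 i1442 b218 k0)) (by decide +kernel)
def b1607 : PP 8 4 T 0x1101000000000080100010005000000081000000050009418000000054048150100 := rS 0x5ba0c9c6e302b52acb31a068aae58accf25c3d16c16a7038f5421d24a4e2c3f (k8 b603 b339 b7 i29 b126 b94 b38 b31 (k8 b18 b311 i1884 i492 i491 i1854 i2310 b1562 (k8 b464 b410 i1862 i2306 i2324 b1332 b1606 i2040 (k4 i1047 i1048 i1440 i761 (k1 i2031 k0))))) (by decide +kernel)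
def b1608 : PP 8 4 T 0x1001000000000080040010000000000001000000050009000200000050048108000 := rS 0x57189666aa7b09166d098249a53139040211252a5920482aac1669 (k8 i1583 b311 i579 b283 b139 i2320 i572 b66 (k8 i2303 b47 i22 b785 i564 b270 b312 b269 (k8 i667 b1607 b1605 b135 b308 i2326 b1600 b1568 (k1 i2306 k0)))) (by decide +kernel)
def b1609 : PP 8 4 T 0x2000000000000001000000000000080000000000000000000500000000000000000000054048000000 := rS 0x16e3f538f5421d (k4 b126 b94 b38 b18 (k2 b58 b70 (k1 i2031 k0))) (by decide +kernel)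
def b1610 : PP 8 4 T 0x1101000000000081054500014000000000500000000008000004000054048000100 := rS 0x2d594b6538f5421d (k8 b126 b94 b38 b18 i2031 b1603 i886 i506 k0) (by decide +kernel)
def b1611 : PP 8 4 T 0x1101001000000080044000114000000540000000550008000000000054048001120 := rS 0x454c6884b8f98abd5f984714e681b59ae55482d3b1664a0d0312 (k8 b325 b60 b33 i2320 b339 b313 b311 i572 (k8 b1305 b1453 b1586 b1164 b308 i652 i1165 b83 (k8 b385 i1879 b1610 b416 i296 i656 b2 b342 k0))) (by decide +kernel)
def b1612 : PP 8 4 T 0x101000000000000000100058015000004040040042051000018000000000008000000 := rS 0x7a689c0c4cb5aaf52f0d (k8 b101 i1902 i1989 i887 i674 b574 i488 i656 (k2 i801 b637 k0)) (by decide +kernel)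
def b1613 : PP 8 4 T 0x1001000000000080000000000000000000000000000000000000000040448000000 := rS 0x196a45f0f96ebb3618584ad595151a7940a0e24b1579ad16f10a24cd2298b21557055c99d1ec92a9941c332b31cff111229c5a7350b9412352694c0627208041a4a54810880b (k8 b311 b1559 b139 i572 b66 i2302 b47 i22 (k8 b785 b286 i564 b270 b366 b312 b1305 b94 (k8 b390 b128 b18 b1602 b320 i842 i410 i347 (k8 i2169 i346 b180 i763 i2320 b333 b907 b644 (k8 b283 i579 b911 b339 i353 i1583 b7 b1608 (k8 b404 b417 i2325 i587 b1587 b325 b33 b60 (k8 b414 i1051 b1609 b395 i1434 b1611 i1432 i370 (k4 i1944 b1612 b767 i376 (k2 i375 i1454 (k1 b1348 k0)))))))))) (by decide +kernel)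
def b1614 : PP 8 4 T 0x1101000000000014200000445200000140000000100000000000018000008000100 := rS 0x4cac4c2635c3295a93 (k8 i1365 i1285 b1348 i289 i616 i1127 i1394 i1143 (k1 b455 k0)) (by decide +kernel)
def b1615 : PP 8 4 T 0x1101000000000080040000404000000000000000100000000000000001448000000 := rS 0x2068a83868f8fca55da9c7ac151874123554c4d86b750abc167d5ac4042bf5eb1464c867d38da6b0a194ea672b835ca9d8c344be0446970928b3d8a89444 (k8 b1559 b66 b1613 b379 i492 i29 i386 i1846 (k8 b139 i2432 b1367 b120 b281 b1305 i2302 b1583 (k8 i489 b1582 i1049 i385 i628 i515 b308 b412 (k8 b1191 i612 i1615 b385 b83 b1584 b432 b277 (k8 b65 b311 i587 b94 i850 i2221 b376 i572 (k8 b366 b312 b126 b423 b56 b38 b18 b1134 (k8 b1614 i2030 i2036 b141 i926 b58 i1332 b368 k0))))))) (by decide +kernel)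
def b1616 : PP 8 4 T 0x1101000000000080040000004000000000000000100000000000000001448000000 := rS 0xc71549a21487f86a08a061590c990cfa721cd6a3508746aa905851a25f459ed1a4936970547d5ac4042672b834ca752501088e5 (k8 b1305 b1559 b139 b66 b1582 i1049 i2302 b1583 (k8 i489 b1584 b432 b277 b65 b1613 i386 i515 (k8 i29 i1846 b379 i492 i2432 b1367 i385 b311 (k8 i572 b366 b126 b94 b423 i628 b476 b308 (k8 b412 b1191 i612 b1615 i1432 i513 i514 b32 (k4 i925 b211 b1534 i1365 (k2 b2 i616 (k1 b342 k0)))))))) (by decide +kernel)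
def b1617 : PP 8 4 T 0x1001000000000090000000445000000040080000000200008000010000108008000 := rS 0x1d86670649893344589849e9339a85ca974dc611a49 (k8 i29 i1846 b120 b72 b26 b1305 b94 b390 (k8 i1638 i760 i1048 i1848 b395 b275 i2041 i616 (k4 i488 i285 i799 b640 k0))) (by decide +kernel)
def b1618 : PP 8 4 T 0x1001000000000080080000404000000000000000000000000000000001548008000 := rS 0x28ab11f2b5487f60a8d421d048d5525c6897c088b3d9295e1415110167d5ac41ca6a (k8 i409 b1305 b432 b277 b65 b311 b1559 b1613 (k8 i385 i587 b66 b379 i492 b139 i2432 b1367 (k8 i386 i572 b366 b312 b126 b94 b423 b56 (k4 b1617 i2030 i1285 i414 (k2 i1967 b58 (k1 b395 k0)))))) (by decide +kernel)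
def b1619 : PP 8 4 T 0x1101000000000080000000004000000000000000100000000000000001448000000 := rS 0x3fa957cb2353196a7d880841cc1518748ec35b8a942653a99cae0d023949444 (k8 b1559 b66 b1305 b139 i2302 b1583 i489 b1582 (k8 i1049 b94 b1613 i850 i2221 b42 b126 b423 (k8 b56 b341 b1584 b432 b65 b277 b1616 i409 (k4 b1618 i634 i1452 i1724 (k1 i2030 k0))))) (by decide +kernel)
def b1620 : PP 8 4 T 0x1201000000000090004000005000000140000001050000000400010000008001100 := rS 0xc31531a21703218c5d48ce65ab41e0b03b0546e5 (k8 b1305 b423 b56 b31 b311 b283 b118 b145 (k8 b1169 i2027 b36 i989 b335 b171 i288 i1405 (k2 b2 i1277 (k1 b342 k0)))) (by decide +kernel)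
def b1621 : PP 8 4 T 0x1001000000000080000000004000000000000000000000000000000001448000000 := rS 0x84881a04305048d48ea905b0da25f459ed1a49329d4ce6d2b834084a729705444 (k8 b1559 b1613 i386 b1305 b66 b139 i2302 b1583 (k8 i515 i489 b1582 i1049 i29 i1846 b379 i492 (k8 i2432 b1367 i2221 b311 i572 b42 b366 b312 (k4 b1620 b1584 b1619 b432 (k2 i1849 b64 k0))))) (by decide +kernel)
def b1622 : PP 8 4 T 0x1001000000000080000000000000000000000000000000000000000001448000000 := rS 0x1862a885ac40423218b162e7f6715608513e83d546d33994ae75728246a4729835520b61b44be04459ed1a5c151249444 (k8 b1559 b66 i29 b1613 i386 i1846 b379 i492 (k8 b139 i2432 b1367 i2221 b311 i572 i2302 i564 (k8 b42 b366 b312 b1305 b1582 b1583 i1049 i489 (k8 i515 b1621 i579 i1596 i497 b341 b30 b1169 (k8 b1503 b36 i1794 i989 b335 i903 b432 b277 (k4 b1534 b2 i1277 b818 k0)))))) (by decide +kernel)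
def b1623 : PP 8 4 T 0x1001000000000080000000000000000000000000000000000000000000448000000 := rS 0x669b60a67479a4d665070ccac2446a2da25b61850b87b1517c9203021049444 (k8 b1559 b66 i22 b139 b286 i29 i2432 b1613 (k8 b379 i386 i385 i2221 i771 b1367 i492 i1846 (k8 b1622 i347 i2169 i346 b180 i2325 i1584 b333 (k4 b907 b283 i668 i1970 (k1 b1164 k0))))) (by decide +kernel)
def b1624 : PP 8 4 T 0x1001000000000080000000000000000000000000000000000000000000408000000 := rS 0xa931984084a27c54886e441c43c0b (k8 b311 b1623 b287 b350 b144 b1068 b2 i2833 (k4 b66 b139 i1048 i488 (k2 i572 b342 k0))) (by decide +kernel)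
def b1625 : PP 8 4 T 0x1000000000000080000000000000000000000000010001000800004001448000000 := rS 0x6f8aa212a71869f926b53ec58ef10528c442c151874e62f50825f8755c8b5ca35 (k8 b125 b1305 b128 b644 b1582 b1624 b291 b94 (k8 b84 b390 b126 b423 b56 i1529 i1531 i208 (k8 b432 b640 b335 b65 b277 b7 i2030 b141 (k4 i799 b643 i2033 b2 (k2 i1317 b413 k0))))) (by decide +kernel)
def b1626 : PP 8 4 T 0x1100000000000080000000000000000000000000050000020100004001448004000 := rS 0x37c54c49538c34fc7749ad4fb1688324a2cb2c8308eb9038b4e6a127aa5565356985f8353ab94ae55 (k8 i792 i529 b1305 b1582 b125 b1624 b137 b405 (k8 b326 b359 b338 b293 b94 b390 b128 b31 (k8 b644 b1625 b341 i462 i465 b631 i464 b345 (k8 b339 b65 b277 b7 b21 i2037 b141 i799 (k4 b643 i2040 b55 i1319 (k1 b413 k0)))))) (by decide +kernel)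
def b1627 : PP 8 4 T 0x1100000001000000000000000000000000000000050000020000008001408000000 := rS 0x59644422e21 (k4 b372 b80 b432 b339 (k2 b361 i613 k0)) (by decide +kernel)
def b1628 : PP 8 4 T 0x1100000000000080000000000000000000000000050000004000000001448000010 := rS 0x80c1c3326125ca45 (k8 b66 b1305 b97 b348 b1627 b1626 b403 i2405 (k1 b317 k0)) (by decide +kernel)
def b1629 : PP 8 4 T 0x1100000000000080000000000000000000000000050000004000000001448000000 := rS 0x71008e0d21811ca45 (k8 b66 b1305 b1628 b74 i521 i265 b272 b341 (k1 i338 k0)) (by decide +kernel)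
def b1630 : PP 8 4 T 0x1000000000000000000000000000000000000000000000000800000000208000000 := rS 0xec30 (k2 b82 b87 (k1 i2940 k0)) (by decide +kernel)
def b1631 : PP 8 4 T 0x1100000000000000000000000000000008000001100110000000000000008000000 := rS 0x1a8bd4f (k4 b111 b686 b308 i629 k0) (by decide +kernel)
def b1632 : PP 8 4 T 0x1000000000000011054000000000000145000000000000004000000041508000000 := rS 0x3d89a3029 (k4 b998 b120 i2032 b92 (k1 b115 k0)) (by decide +kernel)
def b1633 : PP 8 4 T 0x1000000000000011054000000000000045000000000000004000000041508000010 := rS 0x810cf45f130a4728c (k8 b1632 i1814 b136 i2032 b93 b115 b1180 b889 (k1 i3037 k0)) (by decide +kernel)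
def b1634 : PP 8 4 T 0x1000000000000010000000000000000000000000000000020100000008008000000 := rS 0x8641 (k2 i2545 b1180 (k1 b272 k0)) (by decide +kernel)
def b1635 : PP 8 4 T 0x1100000000000011044000000000000041000000100010004800000041408000010 := rS 0x218da5d261258a21 (k8 b1630 i1535 b97 b348 i531 i1695 b1633 b1631 k0) (by decide +kernel)
def b1636 : PP 8 4 T 0x1100000000000090004001000000000040000000100000004800000041448000010 := rS 0x3f40a1d07125d8a69ef1631f8fa852cb36202152b0546a10eb9412fc139309245 (k8 b66 b97 b348 b1634 b1624 b291 b1305 b126 (k8 b94 b423 b56 i208 b1630 b432 b370 b361 (k8 b64 b65 i2030 b1635 b4 b53 b100 i1679 (k4 b325 i926 b0 b60 (k2 b825 b1589 k0))))) (by decide +kernel)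
def b1637 : PP 8 4 T 0x1100000000000090004000000001000040000000020004024400004041448004000 := rS 0x1ed3e3646464f31278a1ca2772aa14425f1c8a480cd67808b26b0623c6a75729744e45 (k8 b66 b1634 i531 b1305 b1582 b125 b349 b341 (k8 b1542 i462 i1492 i1029 b797 b354 b142 i195 (k8 i904 b1331 b1520 i1489 b640 b631 b646 b1472 (k8 b325 b414 b799 b120 b357 b207 i1775 b388 k0)))) (by decide +kernel)
def b1638 : PP 8 4 T 0x1100000000000080004000000000000040000000120000004000000041448000010 := rS 0x81c012395c983324ad5a29d (k8 i1551 i1167 b780 b97 i1546 b348 i1580 b1636 (k4 i963 b1637 b317 b403 k0)) (by decide +kernel)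
def b1639 : PP 8 4 T 0x1100000000000080004000000000000040000000140000004000000041448000000 := rS 0xba868a50cda958b9f50acd194408c48138841e5f149001a11218102aa30eb9412455ab457261499915afc (k8 b1624 b405 b1629 i1549 b137 i1026 i1167 b780 (k8 b66 b291 b1305 b126 b423 b230 b1638 b74 (k8 i523 i521 b272 b1032 i904 i338 b1331 b529 (k8 i261 b341 b432 i264 b370 b64 b65 b80 (k4 i1671 i3017 b624 b268 (k2 b488 b726 (k1 b686 k0))))))) (by decide +kernel)
def b1640 : PP 8 4 T 0x1100000000000080000000000000440000000000120904004400000081408004000 := rS 0x8386a068a7e4c1f4aa371fc404211449010e43010559659008314e071e8b4e62f7293d565356ad473135ba84da9f2891412fc (k8 b1624 b291 b66 b513 b197 i1699 b94 i850 (k8 b376 b271 b780 b405 b326 b359 b293 b1305 (k8 b84 b390 b128 b38 b31 b18 b341 i963 (k8 i462 i465 i641 i1492 b355 b1631 b354 i190 (k8 i469 i902 b1372 b603 i1005 i1489 b65 b375 (k4 i2037 b275 i1864 b141 (k2 i925 b368 k0))))))) (by decide +kernel)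
def b1641 : PP 8 4 T 0x11002000000000090000000000000000140000010000800000110000080008000010 := rS 0x451306f5998c20002100c0e7350aa4a6af4d9852eb1 (k8 b382 b984 b137 b983 b76 b326 b338 b94 (k8 b390 b31 b354 b272 b317 i897 i447 i473 (k4 b1214 i2041 b413 b133 k0))) (by decide +kernel)
def b1642 : PP 8 4 T 0x1000000000000000000000000000000000000000020000020020000081008001010 := rS 0x6002 (k2 i788 b796 (k1 i1003 k0)) (by decide +kernel)
def b1643 : PP 8 4 T 0x1100000000000080000000000000000040000000120000004000000081448004010 := rS 0x8c0980c8271869f8fa77880854a0d23178ba5b2b930664960a8d421d728246a455aa6cc29768ac5f913 (k8 b376 b1624 b382 i1167 b984 b137 b983 b780 (k8 b66 b125 b291 b1305 b126 b94 b423 b56 (k8 b97 i1546 b348 i1580 i2552 i531 b330 b1640 (k8 i26 i208 b1630 b432 b640 b65 i2030 b141 (k4 i799 b1642 b354 i212 (k2 b1641 b317 (k1 i965 k0))))))) (by decide +kernel)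
def b1644 : PP 8 4 T 0x1100000000000080000000000000000040000000140000004000000081448004000 := rS 0x460a034221302394c8f1 (k8 b35 b1629 b1305 b1643 i2145 i523 i521 b439 (k2 b341 i384 k0)) (by decide +kernel)
def b1645 : PP 8 4 T 0x1100000000000080004000000000000040000000140000004000000001448000000 := rS 0x21004820e15324c845 (k8 b66 b1629 i120 b1639 b1644 i338 i597 b272 (k1 b355 k0)) (by decide +kernel)
def b1646 : PP 8 4 T 0x1100000001000010004000000000000040000000140400008400000015408104002 := rS 0x154eecd2b8850b1667c4066c9358311e35329d4f64d (k8 i51 b637 b1582 i1049 b125 b349 b341 b1542 (k8 i464 i1609 b1317 b639 b339 b932 b1469 b11 (k4 b370 b21 i1489 b638 k0))) (by decide +kernel)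
def b1647 : PP 8 4 T 0x1000000000000080000000000100000000080100000000000000015000148000000 := rS 0x37c551095389dd72c1518b45ee586a4ce6a1 (k8 b94 b390 i1638 b141 b1305 b84 b128 b423 (k8 b56 b644 b640 i799 b643 i2033 b2 i1317 (k1 b413 k0))) (by decide +kernel)
def b1648 : PP 8 4 T 0x1100000000000090004000000000000040000000140400000100000011448104002 := rS 0x43174228359234dac88b8c9267ea1ad4fa8566c4042a5188348c2760a8c3a735082552b157985f835329d5ca4021928c607 (k8 b31 i447 b1645 b436 b272 b1305 b1582 i1049 (k8 b125 b1624 b137 b76 b382 b338 b291 b94 (k8 b390 b126 b423 b56 b529 b1646 i26 i1531 (k8 i208 b1630 b1316 b370 b64 b65 b277 b624 (k8 i2030 i1638 b1647 b80 b339 i671 i1129 b1230 (k4 b1002 i473 i514 b489 (k1 b686 k0))))))) (by decide +kernel)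
def b1649 : PP 8 4 T 0x10001100000001000000004000000000000001001000150000000020000051408116002 := rS 0xc5439559a573b8858f1019b246a27 (k8 i746 b125 i464 i1609 b1317 i1688 b1469 b640 (k4 b11 b370 i1489 b198 (k2 b832 i2032 k0))) (by decide +kernel)
def b1650 : PP 8 4 T 0x1100000000000080004000000000000040000000140000000000000041448004010 := rS 0x3978b190e9f8b8c8fcb53eb354a316288620460689c6e794284632d02c97c2a40148008ac151a843a097e0d4064332928eae5 (k8 b1305 b1582 b1645 i1049 b436 b286 b125 b1624 (k8 b291 b126 b94 b423 b56 b139 b317 b486 (k8 b272 b230 i904 i866 b1648 b292 b309 b930 (k8 i1072 i991 i746 b1649 b341 b1316 i744 b481 (k8 i1531 i208 b370 b65 b277 i2030 b1647 b80 (k4 b217 b680 i2032 b4 (k2 i299 b357 k0))))))) (by decide +kernel)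
def b1651 : PP 8 4 T 0x1100000000000080004000000000000040000000140000000000000041448004000 := rS 0x11c1a0432928eae5 (k8 b1305 b1582 b1645 i1049 b1650 i2302 i265 b341 k0) (by decide +kernel)
def b1652 : PP 8 4 T 0x1100000000000080104000000000000000000000150400000000000055548118000 := rS 0x5390cf0628fd64c705a9c0e3d04ac55efc0684cdacd429f620e5 (k8 b1305 b432 b65 b64 b370 i668 i344 i5 (k8 b1624 b76 b382 b291 b38 b31 b18 b311 (k8 i408 b464 b603 b481 b439 i2032 b1576 b111 k0))) (by decide +kernel)
def b1653 : PP 8 4 T 0x1100000000000080004000000005000000004000150400000000004055448018020 := rS 0x1e50f122ebc428cf8b1dd928f1a9d4dacd42c4042e5 (k8 b1305 b1584 b432 b64 b370 i668 b1582 b125 (k8 b349 i612 b640 b339 b36 b1652 b404 i510 (k4 b325 b686 b414 b388 k0))) (by decide +kernel)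
def b1654 : PP 8 4 T 0x1100000000000080014000000000000000000000000400000000000055548118000 := rS 0x208fc5c40a19e0b26382d4e071e82562af7e04cdacd42d0cfab588395461d (k8 b126 b423 b1305 b432 b277 b65 b624 b64 (k8 b370 i668 i344 b1624 b76 b382 b291 b38 (k8 b31 b18 b311 i408 b464 b439 i2032 i1335 (k4 b686 b1504 i514 b1002 k0)))) (by decide +kernel)
def b1655 : PP 8 4 T 0x1100000000000090004000000000000040000000140000000000000041448000000 := rS 0x2ccc6cf5fa4d483e5d9a98d4f3ca05068789175e21446b159032148e4f69d4ba6d3ec150aa562af30bf06a4d099b44e010897d9a85a19f56b10518840844208388665251d5ca1d (k8 b126 b1305 b1582 b1645 i1049 b436 b1651 i338 (k8 b272 b139 b1584 b423 b432 b277 b65 b624 (k8 b64 b370 i2432 i2303 b47 b785 i668 i344 (k8 i51 b125 b1624 b137 b76 b382 b338 b94 (k8 b56 b626 b983 b984 b510 b637 b891 b136 (k8 b1653 i285 i1615 i1129 b1654 b404 i510 b325 (k8 b686 b33 b60 b414 b1591 i2032 b308 i1679 (k8 b1589 b825 i1365 i1452 b1593 i616 i634 b491 k0)))))))) (by decide +kernel)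
def b1656 : PP 8 4 T 0x1100000000000080004000000000000040000000140000000000000041448000000 := rS 0x3262e334e31052c7438e06e7935975a08566c40425f138100244369041c4332928eae5 (k8 b1305 b1582 b1645 i1049 b436 b1651 i338 i668 (k8 b272 b47 b139 b785 i2432 b1584 b432 b370 (k8 b64 b1655 b306 i2424 i1072 i990 i652 b686 (k8 i409 b124 i2032 i1879 i1616 b313 i612 b339 k0)))) (by decide +kernel)
def b1657 : PP 8 4 T 0x1100000000000090004000000000000040000000140400000100000011448004002 := rS 0x14 (k2 b1648 i637 k0) (by decide +kernel)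
def b1658 : PP 8 4 T 0x1100000000000080004000000000000040000000140000000000000001448004010 := rS 0x1a25f200008a0321928522a (k8 b1656 i138 b1645 b436 b286 b139 b317 b272 (k2 b502 b1367 (k1 b1657 k0))) (by decide +kernel)
def b1659 : PP 8 4 T 0x1100000000000080004000000000000040000000140000000000000001448004000 := rS 0x11c1a0432928eae5 (k8 b1305 b1582 b1645 i1049 b1658 i2302 i265 b341 k0) (by decide +kernel)
def b1660 : PP 8 4 T 0x401002000000000014084005000200000140000000800000008000000000048000000 := rS 0x144c50c4ca0d034559af07cbf54ac55e61 (k8 b137 b76 b382 b338 i1452 i414 i415 i634 (k8 b58 i1332 i1415 i1990 b368 b455 b32 i487 k0)) (by decide +kernel)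
def b1661 : PP 8 4 T 0x1100000000000080004000000000000040000000140000000000004001448000000 := rS 0x7e528c58c6a67c5992c151875f83589a7d6ea1368511a5b688e4547d5ac404204221041c4332928eae5 (k8 b1305 b1582 b1645 i1049 b436 b1659 i338 b272 (k8 b139 b1584 b432 b277 b65 b1656 b271 i652 (k8 i771 i1052 i385 i668 b94 i850 b197 b376 (k8 b125 b1624 b126 b423 b56 i612 b339 b36 (k4 b1191 i628 i1691 b1660 (k2 i2030 b1647 k0)))))) (by decide +kernel)
def b1662 : PP 8 4 T 0x1000000000000094200000000000000140040004000200000000008001548000000 := rS 0x28430e2b231c55709344291827350aa562af30bf06b433ead620e5518762e31 (k8 i69 b80 b126 b423 b1305 b432 b277 b65 (k8 b624 b125 b1624 b137 b76 b382 b338 b94 (k8 b390 b56 i2030 b1534 i1365 b171 b2 i616 (k4 b491 i1407 b413 i513 (k1 b32 k0))))) (by decide +kernel)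
def b1663 : PP 8 4 T 0x1100000000000094200000000000000140000005000600000000008001548000000 := rS 0x2c8c683499f8e6a154ac55e617e50cfab588395461d (k8 b126 b423 b1305 b432 b277 b65 b624 b1624 (k8 b137 b76 b382 b338 b94 b390 b1662 i1638 (k4 b1002 i616 b491 i514 k0))) (by decide +kernel)
def b1664 : PP 8 4 T 0x4001002000000000010204040000200000140000000800000000000011000008000000 := rS 0x4caccc6b85fa4d52af4d9852eb1 (k8 b382 b984 b137 b983 b76 b338 i1365 i1452 (k4 b171 i616 i634 i1144 (k1 b942 k0))) (by decide +kernel)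
def b1665 : PP 8 4 T 0x1100000000000080004000000000000040000000140000000000000001448000000 := rS 0x4caccc71438a0d270d3f295766a6353d9cc54ab206317192d4fa9d4ba6e20d110a34be5c37810b644369041cf1148e454652192494c151874e6a154ac55e617e0d4eae5 (k8 b1305 b1582 b125 b1624 b137 b76 b382 b338 (k8 b94 b390 b126 b423 b56 b1645 i29 b436 (k8 i1049 b1656 b271 i138 b35 b1659 i338 i668 (k8 b272 i771 b139 b791 i386 i644 i1052 b1584 (k8 i652 b432 b983 b984 b510 b65 b277 b1661 (k8 b80 i69 i285 i1671 i1615 b1663 b412 b381 (k8 b308 i1679 b1664 i2030 b141 i1638 b1002 i800 (k4 b413 i616 i514 b133 (k1 b942 k0))))))))) (by decide +kernel)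
def b1666 : PP 8 4 T 0x1100000000000091004000000000000001080000100910000000000055548102002 := rS 0x1b17486412058ac71fbc16e11898f43a095594df90d (k8 b141 b1624 b326 b359 b291 b126 b38 b362 (k8 i470 i852 b325 b603 i1688 b297 b1137 b706 (k4 i2032 i926 b1631 i1681 k0))) (by decide +kernel)
def b1667 : PP 8 4 T 0x1100000000000090004000000000000040000000100000004000000041448000010 := rS 0x2f1774f5b51506f1362fd023f4397cb67e14908a2cb000308e27038249eab29ab5f80f359759a85a19f56b102a95c98493a9651ea3108c86a66728742a45 (k8 b66 b230 b126 b1305 b1665 b125 b623 b372 (k8 b423 b349 i544 b1582 b97 b348 i530 i1620 (k8 b345 b277 b65 b624 b64 b797 i531 i547 (k8 i542 b1624 b405 b326 b359 b293 b291 b31 (k8 b1634 b1636 b341 i1610 i465 b631 i445 b1296 (k8 i2037 b81 b1666 b646 b826 b1116 i1723 b614 (k8 b1472 i925 b1609 b767 b384 i1681 b409 i1988 k0))))))) (by decide +kernel)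
def b1668 : PP 8 4 T 0x1100000000000080004000000000000040000000100000004000000041448000010 := rS 0x18ac74389c526c4e1e4bd1946b402a9f22884643566a1620552b930927572964cc8f (k8 b349 b1665 i544 b1305 b1582 b97 b348 i530 (k8 i1620 b345 b64 b797 b125 b623 b372 b66 (k8 i1714 b230 b1667 i144 b292 i653 i1071 i658 (k4 i657 b998 b93 b680 (k2 b280 i1522 (k1 i2032 k0)))))) (by decide +kernel)
def b1669 : PP 8 4 T 0x1002000000000090000001000000000040010000080814000110000080008000010 := rS 0x71869f9968d0004c064f29ab52aab2a924a209 (k8 b291 b513 b97 i1620 b359 i1673 b405 b326 (k8 b293 b354 i212 b317 i965 i2263 i2037 b141 (k2 i800 b1641 k0))) (by decide +kernel)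
def b1670 : PP 8 4 T 0x1100000000000080004000000000000040000000100000004000000001448000010 := rS 0x6f8a9c61a983f0fc6e89528042402219012e9b68978b6b73dc4c722a5a9f6205d2b884aa4c191254e3d60a8c3a2d398bd4209589846a75729651e95332adf845 (k8 b66 b1624 b359 b1665 i1673 b349 i544 b1305 (k8 b1582 b125 b137 b382 b291 b94 b84 b390 (k8 b128 b126 b423 b56 b38 b18 b97 b623 (k8 b348 i1620 b372 i530 i531 b345 b65 b277 (k8 b1668 b271 b376 b379 i850 i2552 b330 i654 (k8 b983 b984 b1669 i21 i788 i905 i445 i2067 (k8 i190 i1800 i216 i2030 b375 b141 i800 b133 (k2 i1060 b413 k0)))))))) (by decide +kernel)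
def b1671 : PP 8 4 T 0x1100000000000080004000000000000040000000100000004000000001448000000 := rS 0x21cf25d8a50d0acd67a7526b55c9f4f6772f956203019920420c2011c2201218108ac1518745a09479d5ca658b83c6a9555bf13e66 (k8 b1665 i1714 b1624 b359 i1673 b125 i542 b85 (k8 i75 b1305 b1582 b349 b291 b128 b126 b423 (k8 b56 b66 b1670 b74 i2 i523 i265 b272 (k8 b341 b1331 i261 i1610 i522 b432 i1489 b363 (k8 i751 i754 b660 b644 b778 i1509 b647 i989 (k8 b370 b64 b624 b268 b753 i1013 b646 b388 k0)))))) (by decide +kernel)
def b1672 : PP 8 4 T 0x1100000000000080004000000000000040000000100000000000000001448000000 := rS 0xa4406104ac4324928cce5 (k8 b1305 b1665 b1671 i29 b436 i489 b1544 b1583 (k2 b272 i2302 (k1 b139 k0))) (by decide +kernel)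
def b1673 : PP 8 4 T 0x1100000000000000008000000000000000000000020810000000000040008004000 := rS 0x600cd641 (k4 i904 i629 b354 b473 (k1 i1492 k0)) (by decide +kernel)
def b1674 : PP 8 4 T 0x1100000000000080008000000000000000000000020100004010000005548004010 := rS 0x7e2923144000d2100d4e3d508748acd4397cb31015954eee5198d49849 (k8 b97 b348 b125 i1546 b1305 b640 i791 i371 (k8 b432 b361 b1673 b646 b370 b66 b126 b94 (k8 b38 b18 b354 b272 i1492 b317 b238 b341 (k2 b1296 i2084 (k1 b828 k0))))) (by decide +kernel)
def b1675 : PP 8 4 T 0x1100000000000080008000000000000040000000020000004000000005548004010 := rS 0x2fc7c7e28b2c1802149010e5f2a9f50a59669de20a7038f5421d27aaca6ad7e0d456452b9d5ca5d261256a33 (k8 i1546 b780 b97 b348 i531 b1305 b1582 i530 (k8 b66 i371 b125 b1624 b405 b326 b359 b293 (k8 b126 b94 b38 b31 b18 b432 b640 b370 (k8 b361 b64 b65 i791 b1673 b646 b1674 b1032 (k8 i788 b798 i465 b631 i2037 b828 i1723 i376 k0))))) (by decide +kernel)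
def b1676 : PP 8 4 T 0x1000000000000000000000000000000000000000020000020100000000208000000 := rS 0x211508276 (k4 b87 i2544 i1547 b272 (k1 b310 k0)) (by decide +kernel)
def b1677 : PP 8 4 T 0x1000000000000000000000000000000000000000000000020000000000008008010 := rS 0x203 (k2 b403 i2405 (k1 b317 k0)) (by decide +kernel)
def b1678 : PP 8 4 T 0x1100000000000080000000000000000040000000120000004000000001448000010 := rS 0x13885a2c22283c9849 (k8 b97 b348 b1677 b66 b1672 i1167 b1676 b1634 (k1 b1675 k0)) (by decide +kernel)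
def b1679 : PP 8 4 T 0x1100000000000080000000000000000040000000100000004000000001448000010 := rS 0x300231191ae2ec9331941e4c24b946ac2 (k8 b1672 b125 b1305 b97 b348 b1677 b1678 b1629 (k8 i121 b85 i547 b623 i1506 b688 b473 i1610 k0)) (by decide +kernel)
def b1680 : PP 8 4 T 0x1100000000000080000000000000000040000000100000004000000001448000000 := rS 0x22719439e6285da1ae526958b9b16a7d6695c606635956200c3d97c90210793452271f901a2470890c06040a9154e3d60a8d421d16b9412ab7e53c56c2 (k8 b1672 i371 b135 b1624 b359 b291 b1305 b128 (k8 b126 b94 b423 b56 b38 b18 b66 b230 (k8 b1679 i65 b74 i523 i2144 i651 b272 b603 (k8 b529 b1032 i788 i338 b1331 i261 i904 b637 (k8 b700 b432 b1502 i2341 i521 i522 b11 b370 (k8 b65 b277 b308 b85 i1673 i1509 i986 b624 (k4 i515 b268 i1013 b646 (k2 b754 b827 (k1 b343 k0))))))))) (by decide +kernel)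
def b1681 : PP 8 4 T 0x1000000000000080000000000000000000000000010000000800004001548000000 := rS 0x1f94a3160a8d421d04bf06a753ead620e5 (k8 b1305 b432 b277 b65 b1582 b125 b1624 b291 (k8 b126 b94 b423 b56 i1531 i208 i2030 b1647 k0)) (by decide +kernel)
def b1682 : PP 8 4 T 0x1100000001000010000000000000000000000000040404010420000011108000000 := rS 0x154180f (k4 i338 b341 b1502 b641 k0) (by decide +kernel)
def b1683 : PP 8 4 T 0x1100000000000090000000000000000040000000100000000000000001548000010 := rS 0x1181c234646a2315e20c226994ea292f99c80452192494e5 (k8 b1305 b1680 i29 b436 b139 b272 b1544 b502 (k8 b486 b1582 i1049 i51 b1672 b432 b11 b1682 (k4 i211 b1681 i1965 i290 (k2 b120 b107 k0)))) (by decide +kernel)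
def b1684 : PP 8 4 T 0x1100000000000000000000000000000000000000010000000000000000208004002 := rS 0x19030 (k2 b82 b1469 (k1 i983 k0)) (by decide +kernel)
def b1685 : PP 8 4 T 0x1100000000000080000000000000000040000000100000000000000001448000010 := rS 0xf46f4044d288764b2caa0c239ac4e3fa19e4225d8cad4facd6844042670797cb26320054520022a9c0e3d51a843a0954aad5afc1ab158e2b6100c924332928eae5 (k8 b1305 b1582 b1680 i1049 b436 i29 b286 b1672 (k8 i371 i117 i116 b125 b1624 b405 b359 b338 (k8 b291 b126 b94 b423 b38 b31 b18 b139 (k8 b317 b486 b230 b272 i447 i866 b502 i338 (k8 b1544 b1684 b432 b1683 b370 b65 b277 b292 (k8 b306 b309 i1072 b624 b603 i746 b451 i211 (k8 b473 b1502 i465 i464 b646 b745 b827 b1492 (k2 i1057 b343 (k1 i1894 k0))))))))) (by decide +kernel)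
def b1686 : PP 8 4 T 0x1000000000000000000000000000000008000000000500000000000054008008000 := rS 0xa3c0d913 (k4 b0 b686 b325 i667 (k1 b404 k0)) (by decide +kernel)
def b1687 : PP 8 4 T 0x1000000000000084008000000004000000004400000500000000000015548008000 := rS 0x7e8340bc0b5133c21c7a1d27ac5f88f3a8ad3a3566a1620e5 (k8 b1305 b432 b64 b370 b125 i1906 i371 b1582 (k8 b349 b1624 b382 b293 b126 b38 b1686 b388 (k4 b414 b330 b325 i1809 (k2 i775 b119 (k1 b800 k0))))) (by decide +kernel)
def b1688 : PP 8 4 T 0x1100000000000090000000000000000040000000100000000000000001448000000 := rS 0x1643f781b42b132e33e2c77648cc52394f9ec16a7038f412b157bf06ac5a78ac9a112f89c0241248398413221f620213395c1a0432928eae5 (k8 b1305 b1582 b1680 i1049 b1685 i2302 b1583 i489 (k8 b1584 b432 b65 i485 b269 b1672 b700 i29 (k8 i261 i2 b785 i2432 i2303 i51 i371 b135 (k8 i116 b125 b1624 b76 b382 b291 b38 b31 (k8 b18 b311 b637 b626 b891 b136 i290 i612 (k8 b640 b339 b36 b1687 b22 i510 i515 b325 (k2 b603 b464 (k1 b1576 k0)))))))) (by decide +kernel)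
def b1689 : PP 8 4 T 0x1100000000000080000000000000000040000000100000000000000001448000000 := rS 0x12acb31a697c97498fa2cb98921d9233788a4d8991c050f26b2eb419b101099c1c5713904be0d00810ca49250ae9ec2538f5421d16aa556617e0d4eae5 (k8 b1305 b1582 b125 b1624 b137 b359 b338 b128 (k8 b126 b94 b38 b18 b1672 b135 i371 b1680 (k8 i29 i1049 b1685 i2 i2302 i2432 i261 b785 (k8 b1583 b700 i489 b1584 b432 b370 b1688 b306 (k8 i2424 i1072 b231 i652 i1108 b308 b124 b404 (k8 i2173 i2447 b1686 b325 b644 b339 b827 b7 (k4 b416 i376 i297 i656 (k2 i1454 i1726 (k1 b157 k0))))))))) (by decide +kernel)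
def b1690 : PP 8 4 T 0x1000000000000001004000000000000005000001000800000100000055508001000 := rS 0x10 (k2 b488 i470 k0) (by decide +kernel)
def b1691 : PP 8 4 T 0x11000000000000090004000000000000044000011000800000010000015508001010 := rS 0x230262a7e1159a85883940003 (k8 b354 b317 b1305 b432 b64 b370 b139 b1624 (k4 b1690 i212 b1641 i965 k0)) (by decide +kernel)
def b1692 : PP 8 4 T 0x1000000000000090004001000000000044000001020000004010000001448000010 := rS 0x2d91ab33c84103121597ce283869f94a292318ca25b06800840303b05461d39a84124f54ac4a6af30bf0ba273b8cc6acd429f62021261248ae5 (k8 b1305 b139 b97 b348 b1676 b432 b65 b64 (k8 b370 b125 i1546 b640 b1634 i531 b1624 b137 (k8 b76 b326 b382 b338 b293 b291 b94 b390 (k8 b126 b423 b56 b31 b354 b272 b317 i1492 (k8 b81 b238 i447 i963 b1296 i208 i2030 b141 (k8 i925 i799 b1691 i896 b330 b1116 b488 b414 (k4 i473 i1760 i2038 b1211 k0))))))) (by decide +kernel)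
def b1693 : PP 8 4 T 0x1002000000000080000001000000440004010000020814020020100001008000010 := rS 0x1070d40d14fc98658fc6e0c091456e2a89a9c0e3d169cc5ea127aaca6ad2a9dc66e5109146a0121a240409 (k8 b291 i788 i190 i21 i445 b125 b139 b1676 (k8 b1305 i1546 b640 i791 b405 b326 b359 b293 (k8 b94 b84 b390 b128 b38 b31 b18 b362 (k8 i904 i852 b513 i905 b1642 i1800 i216 i465 (k4 b375 i2037 b275 i1864 (k2 b141 i925 (k1 b368 k0))))))) (by decide +kernel)
def b1694 : PP 8 4 T 0x1100000000000090000000000000000040000000040000004000000001448000010 := rS 0x1f862a5230acbe39008088640439f4b255881dc42335aa74c8c151a843a091a9b48a573ab95860f26124d09b30a5d62fc (k8 b1624 b382 b984 b137 b983 b1689 b97 b348 (k8 b1677 i1829 b1305 b1582 i530 b139 i40 b125 (k8 b291 b126 b94 b423 b56 b1629 b510 b780 (k8 i1546 b1676 b640 b432 i791 b361 b65 i1563 (k8 b1692 i21 i788 i445 i195 b1693 b1549 b1637 (k4 i208 i1532 i2030 b1647 k0)))))) (by decide +kernel)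
def b1695 : PP 8 4 T 0x1100000000000090000000000000000040000000000000004000000001448000010 := rS 0x428a6200d1ca1d9a212a8c9189c2c8c4cc27478d4da452b9d5cac3079309268 (k8 b1689 b97 b348 b1677 i1829 b1305 b1582 i530 (k8 b139 i40 b125 b349 b1634 b1694 i2935 i544 (k8 i1623 i1624 b853 i1620 b82 b797 b331 i1814 (k4 i2966 b345 b136 b64 (k1 b498 k0))))) (by decide +kernel)
def b1696 : PP 8 4 T 0x1100000000000080000000000000000040000000000000004000000001448000010 := rS 0x8706884aa644290856cd138a4ce7a3c97806118ca35a0c307930eae5369a09245 (k8 b139 b97 b1689 i40 b1305 b1582 b348 b1677 (k8 i1829 b1695 i144 b292 b309 b344 i653 i1071 (k8 i654 i657 b998 b93 i891 b442 b153 i1896 (k4 b1629 b310 b1676 i1492 (k2 i1563 b488 k0))))) (by decide +kernel)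
def b1697 : PP 8 4 T 0x1100000000000090000000000000000040000000000000000000000001448000010 := rS 0x18a10190348c9d36934ca75000a4ce49669650e5f6195d0b101083c804325114d0e5 (k8 b1305 b1689 b139 b1696 b436 b272 i338 b851 (k8 b432 b64 b11 i1829 b502 i1564 i866 i1831 (k8 b97 b1544 b486 b794 b1582 i1049 i51 i40 (k4 b510 b1682 i26 b1681 (k2 b489 i1615 (k1 i1763 k0)))))) (by decide +kernel)
def b1698 : PP 8 4 T 0x1100000000000080000000000000000040000000000000000000000001448000010 := rS 0x3c588120a8304e2b3c845a0858830d0ecd1083cbe59200a4864a22b94da68 (k8 b1689 i40 b1305 b139 b1696 b436 b486 b272 (k8 i866 b502 i338 b851 i1831 i1564 i1829 b432 (k8 b64 b1697 b309 i1072 b1367 b889 b488 b230 (k4 i1496 i1495 b297 b854 k0)))) (by decide +kernel)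
def b1699 : PP 8 4 T 0x1000000001000010000000000000000040000000200000004000000001408000020 := rS 0x183133270f25d43a14bf10649ec902107934b24022a3cea6b0190c229f (k8 i1566 i523 b74 i65 i39 b1582 b349 b66 (k8 b272 i866 i788 i338 b1331 i261 b637 i611 (k8 b432 b363 b64 i1564 i1849 i1013 b945 b510 (k2 i2935 b859 (k1 i522 k0))))) (by decide +kernel)
def b1700 : PP 8 4 T 0x1100000001000010004000000000000040000000200000000000000001408000020 := rS 0x1123c33de2c4159750b10108a4ce3963b344e872b84c8e592f83488652527d1e353a90c0211 (k8 i523 i2 b74 b1582 b125 b349 i1566 b1699 (k8 i1049 b794 i2302 i2432 i2408 i265 b269 b1583 (k8 i1564 b889 i1831 i1561 b891 i489 b136 b1584 (k8 b432 b64 i1849 i386 i2032 b297 i1794 b1597 (k2 b325 b414 k0))))) (by decide +kernel)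
def b1701 : PP 8 4 T 0x1100000001000000004000000000000040000000200000000000000001408000020 := rS 0x3262e334e31042cd32b1d0e592511e24441589c52f1208dd0a383385092d03a9b48601 (k8 i2 b74 i40 b1582 b1700 b278 i651 i657 (k8 i652 b930 i990 i261 b404 b57 b400 b271 (k8 b272 b325 b42 b66 i604 b0 i1561 i1049 (k8 i1831 b1584 i2032 i1879 i1616 b313 i612 b339 k0)))) (by decide +kernel)
def b1702 : PP 8 4 T 0x1100000000000080000000000000000040000000000000000000000001448000000 := rS 0x45208481cc221810d0e5 (k8 b1305 b1689 b1698 b74 b1701 i1829 i1828 i338 (k2 b269 b272 k0)) (by decide +kernel)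
def b1703 : PP 8 4 T 0x1100000000000001004000000000000081000001120010024000044001508000002 := rS 0x10ec7628a4ba382309c5719 (k8 b279 b482 b289 i963 i452 i2259 b1296 i1535 (k2 i298 b1631 (k1 i2032 k0))) (by decide +kernel)
def b1704 : PP 8 4 T 0x1100000000000080004000000000000000000000140000004000000001548000010 := rS 0x28bc0b9134331480296390c02553b8ccc86d7e0d4be152289c56378ca28ae750793092cd2ca1620e5 (k8 b1305 b432 b64 b361 b370 b97 b348 b1677 (k8 b1582 i530 b1702 b279 i1774 b482 b289 b139 (k8 b417 b318 b125 b1624 i555 b1629 i1546 b640 (k8 i791 b1703 b355 b444 b486 b272 b832 i2032 (k4 b0 b686 b325 b629 (k1 b1009 k0)))))) (by decide +kernel)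
def b1705 : PP 8 4 T 0x1100000000000001014000000000000081000000180010004000000001508000014 := rS 0x10ec7359b4525d238004e2b1bc649849 (k8 b97 b348 b279 i1774 b482 b289 b317 i1618 (k4 i2259 b1296 i2266 i2264 (k2 b475 b1631 (k1 i2032 k0)))) (by decide +kernel)
def b1706 : PP 8 4 T 0x1002000000000080000000000000000008000000000401020100000054008000000 := rS 0x28bc0b913 (k4 b0 b646 b325 b629 (k1 b1009 k0)) (by decide +kernel)
def b1707 : PP 8 4 T 0x1100000000000080004000000000000000000000100000004000000001548000010 := rS 0x1c8498c6c438348646148048002629546466429659b1072bf06a5f2289c56378ca289849 (k8 b97 b348 b1702 b279 i1774 b482 b289 b139 (k8 b318 b125 b1624 b1305 b432 b370 b361 b64 (k8 b1704 b623 i1620 i1616 b1705 b354 i23 b142 (k8 i192 i21 i1610 b1706 b484 i2032 i1696 i2070 (k1 i1881 k0))))) (by decide +kernel)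
def b1708 : PP 8 4 T 0x1100000000000080004000000000000000000000100000004000000001448000010 := rS 0xce65198801e4c728d49245 (k8 b139 b97 b125 b1305 b348 b1677 b1707 b372 (k2 b1676 b623 (k1 b1626 k0))) (by decide +kernel)
def b1709 : PP 8 4 T 0x1000000000000000000000000000000080000000000000008000000000008000010 := rS 0x1410c9a45 (k4 b139 i51 b436 b480 (k1 b486 k0)) (by decide +kernel)
def b1710 : PP 8 4 T 0x1100000000000080000000000000000000000000140000000000000001548000010 := rS 0x91708d13068fd0e112a8a40277218ccd464679b54e3d5087412fc1a97c2a452d89c56378c83c984962d3d844b4533620e5 (k8 b1305 b432 b370 b1702 b1709 b1708 b135 i116 (k8 b97 b348 b1677 b279 i1774 b482 b289 i1884 (k8 b139 b417 b318 b125 b1624 b291 b126 b94 (k8 b38 b18 i555 i1979 b1629 b308 i291 b158 (k8 b640 i445 b486 i791 b441 b1706 b603 i467 (k4 b827 b341 b330 i210 (k1 b253 k0))))))) (by decide +kernel)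
def b1711 : PP 8 4 T 0x1000000000000000008000000000000080000000000000000000008000008000010 := rS 0x11003387003 (k4 i2068 i290 i291 b317 (k2 i3138 i451 k0)) (by decide +kernel)
def b1712 : PP 8 4 T 0x1100000000000080000000000000000000000000100000000000000001448000010 := rS 0x10190ce3361130964524b946a8a (k8 b1702 b125 b1305 b97 b139 b1709 b348 b1708 (k4 b1711 b623 b1629 b1710 (k1 b1676 k0))) (by decide +kernel)
def b1713 : PP 8 4 T 0x1100000000000080004000000000000000000000040000004000000001448000020 := rS 0xc523190da0d479d4be290789da2792680d145766a1620212011486e5 (k8 b1305 b74 b66 b272 b1331 b432 b64 b370 (k8 b11 b1702 i65 i788 i1854 i145 b529 i338 (k8 b1032 b318 b1582 b349 i521 i555 b1629 b1682 (k2 b471 b474 k0)))) (by decide +kernel)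
def b1714 : PP 8 4 T 0x1100000000000080004000000000000000000000100000004000000001448000000 := rS 0x3150ec73b8c0aa0c239990acd2b8ae207913920420f268a4804572c65a2154500c8604 (k8 b1712 b74 i65 b1702 b417 i145 b279 b1305 (k8 b66 b272 b1032 i788 i338 b1331 i261 b529 (k8 i1854 b432 b442 b11 b370 b64 b1713 i1618 (k8 b341 b1502 i522 i751 i3010 b198 b832 i2032 k0)))) (by decide +kernel)
def b1715 : PP 8 4 T 0x1002000000000080000000000000000080000000000000008000000000008000020 := rS 0x5984416a7038f412b157854268d (k8 i76 i267 b417 b76 b382 b291 b38 b31 (k4 b18 b311 i2303 i2310 (k1 b464 k0))) (by decide +kernel)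
def b1716 : PP 8 4 T 0x1100000000000080000000000000000000000000100000000000000001448000000 := rS 0x12e87782c8ba833c9542227240841e4d1491c6e2b6390184452584c86030202d4e071eb9412b157bf2328d6897c2a8a (k8 b1702 b417 b318 i145 i76 b279 b1624 b76 (k8 b382 b291 b1305 b38 b31 b18 b311 b1712 (k8 i65 b74 i267 b1715 b66 b1714 b272 i117 (k8 i371 i3127 i2144 b1032 i788 i338 b1331 i261 (k8 b529 i524 b1502 i1854 b758 b260 b464 b439 (k2 b646 i1374 (k1 b1424 k0))))))) (by decide +kernel)
def b1717 : PP 8 4 T 0x1100000000000080000000000000000000000000000000000000000001448000000 := rS 0x1109bc48ec4180cc0ac38b92cce9c321a02a8d450d4eae5 (k8 b1305 b1582 b125 b1702 i76 b417 b1716 i1888 (k8 i1887 i1624 i1049 b313 i1906 b1713 i1546 b335 (k4 b845 i2941 b297 i3090 (k2 i1764 b439 k0)))) (by decide +kernel)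
def b1718 : PP 8 4 T 0x1000002000000090010400000000000040080000040000000000000055548000002 := rS 0x454e2984ab38da6f5d2f504814d9cd42ab30bf0cb045ac41cb0d638fd1a37 (k8 b374 i964 b119 b4 b141 b1305 b432 b277 (k8 b1717 b9 b1624 b137 b359 b94 b390 b983 (k8 b1137 b1413 i1415 i926 i1439 i1681 b1169 i1105 (k4 i1950 i800 b133 b413 k0)))) (by decide +kernel)
def b1719 : PP 8 4 T 0x1000000000000080000000000000000048080000040100004000000055548000002 := rS 0xc93c763cc65a0bf63adde05e62c4dca537e0d4ab04 (k8 b1717 b30 b125 b1624 b326 b1305 b0 i1523 (k8 b646 b325 i852 b4 i1724 b1718 b292 i1071 (k4 b198 b680 b640 i1711 k0))) (by decide +kernel)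
def b1720 : PP 8 4 T 0x1000002000000001004000000000000005000000000000000000000055508000000 := rS 0x18ec5 (k2 b297 b4 (k1 i2032 k0)) (by decide +kernel)
def b1721 : PP 8 4 T 0x1000000000000080004000000000000040080000040040024100000055548100002 := rS 0x2f5774fa2ad87e6c4097e24f141afd0e095594df86b2a964d3042b9d4bacd42d0cfab588395461d (k8 b126 b423 b1305 b432 b277 b65 b624 b64 (k8 b370 i531 b1582 i530 b1717 b140 b43 b30 (k8 b353 b1624 b326 b359 b291 b1719 i1723 i925 (k8 b1720 b325 b39 b60 b614 b826 b767 b1609 (k4 b384 i1681 i1988 b409 k0))))) (by decide +kernel)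
def b1722 : PP 8 4 T 0x1000000000000080004000000000000040000000040000004010000015548000010 := rS 0x333b250e08d68978267b15434fc512d854004201a8c9eab29bf06a552cc108a4c249f620e5 (k8 b1305 b432 b65 b97 b348 b139 b1717 b43 (k8 b30 b125 b1624 b326 b359 b293 b423 b354 (k8 b272 b317 b229 b81 b238 b705 b141 b1721 (k8 b379 i212 i896 i654 i965 b1641 i800 i799 (k2 i1671 b640 k0))))) (by decide +kernel)
def b1723 : PP 8 4 T 0x1000000000000080004000000000000000000000000100020120100055548000000 := rS 0x168203e5d84e9e8141b1a24f14397d461d0494df80f35954b2692b9d59a85880559f161991dca3518808cb04 (k8 b1717 b9 i788 i1002 b125 b1305 b383 i192 (k8 b335 b36 b314 b432 b64 b370 b1582 i530 (k8 b140 b43 b30 b353 b283 b1624 b326 b291 (k8 b126 b423 i904 b646 b1720 b325 b1449 b33 (k8 b60 b53 i218 i1679 b1589 b439 b826 i1757 k0))))) (by decide +kernel)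
def b1724 : PP 8 4 T 0x1000000000000080004000000000000040000000040000004000000015548000010 := rS 0x62b1c6e122f0a99f164ea7c723119b44020221901ca353291cd304229749849 (k8 b97 b348 i531 b139 b1717 b140 b383 b9 (k8 b125 b1305 b1722 i21 i788 i445 b344 i192 (k8 i1002 i195 b626 b510 b335 b36 b1723 b1549 (k4 i905 i1800 i218 i1803 (k1 b427 k0))))) (by decide +kernel)
def b1725 : PP 8 4 T 0x1000000000000000000000000000000000000000000000020100000008008000000 := rS 0x340be36 (k4 b289 b93 b1634 b202 k0) (by decide +kernel)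
def b1726 : PP 8 4 T 0x1000000000000000000000000000000040000000000000004000000020008000010 := rS 0x11838 (k2 b136 b998 (k1 i1814 k0)) (by decide +kernel)
def b1727 : PP 8 4 T 0x11000000000000080004000000000000040000010080800000000000055548100002 := rS 0x132898a1bd04814db453a8d430dc7ef008a9c7a1d39a84126166a1620e589adca6fc (k8 b1624 b326 i852 b362 b1305 b432 b64 b370 (k8 b137 b291 b94 b390 b126 b38 b18 i470 (k8 b325 b603 b374 b1720 i964 b331 i658 b983 (k4 b1137 i2031 i1439 b413 (k2 b2 b133 (k1 b1085 k0)))))) (by decide +kernel)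
def b1728 : PP 8 4 T 0x1000000000000080004000000000000040000000000800004000000001548000010 := rS 0x1a07b1515ceab5208561a713f1440003190d48e4f2c956087d88394a695330a44e4c2491556fc (k8 b1624 b359 b139 b97 b348 b1725 b1726 b1724 (k8 i1673 b326 b1305 b432 b65 b1717 b30 b43 (k8 b293 b383 b125 b623 i192 b317 i2257 b705 (k8 i800 b141 i2429 i788 b277 b1582 i530 b1727 (k2 b379 b1669 (k1 i654 k0)))))) (by decide +kernel)
def b1729 : PP 8 4 T 0x1000000000000080004000000000000040000000000000004000000001548000010 := rS 0x18ebb62d3d063f3620456872f9f8b61528908000319198fa8566c403a0927aaca6fc1a9acaa472c9a608573ab94ba27261248a29 (k8 b1726 b139 b97 b348 b1725 i531 b1305 b1582 (k8 i530 b1717 b140 b43 b383 b30 b353 b125 (k8 b1624 b326 b359 b293 b291 b126 b432 b370 (k8 b64 b65 b1724 b623 i192 b317 i445 i2257 (k8 i2429 b81 b705 b1728 b646 i896 b1116 b614 (k4 b826 i925 b384 i1522 (k2 i1681 b1589 (k1 i2032 k0)))))))) (by decide +kernel)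
def b1730 : PP 8 4 T 0x1200002000000094000004004000000040080000040000000004000054048000002 := rS 0x5da08d881538f5421d32c351a37 (k8 b374 i964 b141 b9 b126 b94 b38 b18 (k4 b1137 b1169 i2031 i1681 (k1 i926 k0))) (by decide +kernel)
def b1731 : PP 8 4 T 0x1202000000000084000000000000000040080020040800024000000054048100002 := rS 0x83409e8f2d01fbc022a71ea843a0955c4d6e53 (k8 b326 i852 b362 b359 b291 b126 b94 b38 (k8 b18 i470 b325 b603 b1730 i1071 i654 i1363 (k2 i2569 i2031 k0))) (by decide +kernel)
def b1732 : PP 8 4 T 0x1200000000000000004000000000000040000000040000020090002080008000002 := rS 0x11ad10804d3e7b (k4 b379 b197 i212 i897 (k2 i654 i965 (k1 b1388 k0))) (by decide +kernel)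
def b1733 : PP 8 4 T 0x1000000000000080004000000000000040000000000000004000000001448000010 := rS 0xb65e0fde14508aed8b4f41afcd88143b44be2b3843686943f18ca25b0a800847d6780d26b933b1c82761833466b5100a44e5d2b9300ec1169cd420927aa5565356985f8353ab95926535954b26965c109245 (k8 b139 b97 b1717 b145 b140 b43 b30 b353 (k8 b9 b288 b1305 b1582 b125 b1624 b137 b405 (k8 b326 b359 b338 b293 b291 b94 b390 b128 (k8 b56 b31 b348 i530 i531 b1725 b1726 b1729 (k8 b340 b372 b45 b82 b87 i2544 i1690 b623 (k8 b644 i1509 i1002 i989 i1629 b272 b317 b229 (k8 b81 b238 i447 i2037 i2040 b337 b141 b643 (k8 b1732 b1731 i653 b646 b1116 b614 i1723 i925 (k8 b384 i1522 i1681 i476 b1609 b381 b603 b409 (k2 b1730 i1988 k0)))))))))) (by decide +kernel)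
def b1734 : PP 8 4 T 0x1202000000000091000001000000000001010100040404010020000011048100012 := rS 0xfd0c289be2a71442e148318b834640b03b05467350b94124f54aaca6ad1a83caa472cb2c9245 (k8 b139 b97 b145 b43 b383 b30 b283 b125 (k8 b405 b326 b359 b338 b293 b291 b1305 b94 (k8 b390 b423 b56 b31 b311 b1395 b641 b80 (k8 i69 i2027 b171 i288 i1407 b2 i1317 b666 (k2 b413 i2037 (k1 b141 k0)))))) (by decide +kernel)
def b1735 : PP 8 4 T 0x1000000000000080004000000000000001000000040400010020000055448000012 := rS 0xc5638310e112eb402afc3a83cd6472c9a48a57669f56b101095608e5 (k8 b1305 b1717 b30 i743 b432 b277 b65 b370 (k8 b11 b139 b140 b43 b383 b353 b283 b1582 (k8 b1624 b230 b1734 b306 b309 b646 b690 i1688 (k2 b832 i2032 k0)))) (by decide +kernel)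
def b1736 : PP 8 4 T 0x1202000000000091000001000000000001010100040404010020000011048000012 := rS 0x15 (k2 i637 b1734 k0) (by decide +kernel)
def b1737 : PP 8 4 T 0x1000000000000080004000000000000040000000000000000000000001448000010 := rS 0x138ac22d05a9f59a578821442672f90052002193494fc3ab95925534c109245 (k8 b139 b97 b1717 b140 b30 b288 b1305 b1582 (k8 b1624 b1733 i51 b436 b794 b486 b272 b502 (k8 b1544 i743 b932 b432 b11 b370 b65 b277 (k4 b1736 b309 b1367 b889 (k1 b1735 k0))))) (by decide +kernel)
def b1738 : PP 8 4 T 0x1000000000000080000000000000000040000000040800004000000001548000010 := rS 0x17295199c4f2cf40340c6835fa4e1a003f00de0515b9062607169cd424f54aaca6ad308d592652a96596c5638ad76a71f8541e11611ae08097e0a4ae751393092453ead620e5 (k8 b1305 b432 b277 b65 b139 b97 b348 b1725 (k8 b1582 i530 b1726 b1624 b291 b1717 b353 b1737 (k8 i1952 b283 i369 b603 b18 i1944 i371 i117 (k8 i116 b145 b43 b30 b9 b288 b125 b137 (k8 b405 b326 b359 b338 b293 b94 b390 b128 (k8 b31 b362 i904 i852 b513 b325 b354 i2037 (k8 b317 b141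 i1638 i1724 i926 i447 b1718 b1413 (k4 i1147 i1071 i1363 i291 (k2 b643 b644 (k1 i2040 k0)))))))))) (by decide +kernel)
def b1739 : PP 8 4 T 0x1000000000000080008000000000000000000000000500020100000011548000000 := rS 0x2d2022687538f5425562b1c563f0a83c226b82025f82766d0cfab588395461d (k8 b126 b423 b1305 b432 b277 b65 b624 b370 (k8 b1725 b1624 b291 b1717 b353 i1952 b283 i369 (k8 b603 i371 i117 i116 b30 b94 b38 b18 (k4 b1706 b827 b1492 b330 (k1 b847 k0))))) (by decide +kernel)
def b1740 : PP 8 4 T 0x1000000000000080000000000000000040000000000000004000000001548000010 := rS 0x18c5c0666209786ac98211456c2149749849 (k8 b97 b348 i531 b1726 b1737 i371 b139 b1717 (k8 b288 b125 b1739 i904 b1738 b354 b85 i1506 (k2 b317 b688 k0))) (by decide +kernel)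
def b1741 : PP 8 4 T 0x1202000000000080000000000000000040080020040800024000002054048100002 := rS 0x1b3c19d13 (k4 b362 b1731 b325 i988 (k1 b374 k0)) (by decide +kernel)
def b1742 : PP 8 4 T 0x1000000000000080000000000000000040000000000000004000000001448000010 := rS 0x5ed156cbf40a1cbe7041c3686943f18ca200211f406935c99c82761833466b51009cba57149300e3d608745a735093d52ab29ab46a7572b24ca552cb2c924515aed4e3f0a83c22c235c1012fc (k8 b1624 b291 b1717 b353 b1737 i1952 b283 i369 (k8 b603 b18 i1944 i371 b139 b97 b145 b43 (k8 b30 b9 b288 b1305 b1582 b125 b405 b326 (k8 b359 b338 b293 b94 b390 b128 b126 b56 (k8 b38 b31 b348 b1726 i530 i531 b1725 b1740 (k8 b340 b372 b45 b82 b87 i2544 b623 b644 (k8 i1509 i1002 i1629 b272 b317 b238 i447 i2037 (k8 b165 b337 b141 i926 b643 b1741 b1706 b1116 (k4 i1723 i2031 b1609 i1988 (k1 b1415 k0)))))))))) (by decide +kernel)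
def b1743 : PP 8 4 T 0x1000000000000080000000000000000040000000000000000000000001448000010 := rS 0xb48089a1cbad0a1ad4facd2bc404e213397d0a4014800864d250fc221515b1d8ac2538f546a10e82562fc3ab941e6b2ac109245 (k8 b139 b97 b1717 b30 b353 b283 b1305 b1582 (k8 b1624 b382 b291 b126 b94 b423 b38 b18 (k8 b1737 i116 i117 i371 i369 i1952 b603 b1742 (k8 i51 b436 b794 b486 b272 i1866 b502 b1544 (k8 i743 i746 b432 b11 b370 b65 b277 b624 (k4 b1736 b306 b646 b827 (k2 b1492 b330 (k1 i1809 k0)))))))) (by decide +kernel)
def b1744 : PP 8 4 T 0x1000000000000080004000000000000000000001500451020100000055508000000 := rS 0x448b8f143bf0ae7566a1620e5 (k8 b1305 b432 b64 b370 b1582 i530 b1624 b1706 (k4 b1720 b614 b325 b22 k0)) (by decide +kernel)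
def b1745 : PP 8 4 T 0x1000000000000000000000000000000000000000000440020000000020008000010 := rS 0x1700713 (k4 b123 b142 b330 b317 (k1 i2259 k0)) (by decide +kernel)
def b1746 : PP 8 4 T 0x1000000000000080004000000000000080000000500011000000000001508000010 := rS 0x1c0c804c64f19802c542b34d910728d42a871496c984b248ae32271b914befc (k8 b1624 b318 b139 i1774 b289 b279 b482 b97 (k8 b1709 b348 i1884 b1745 b1706 b417 b125 b1305 (k8 b432 b1744 b370 b64 i1522 i2266 i555 i556 (k4 i2032 b317 b623 i1712 (k1 i2070 k0))))) (by decide +kernel)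
def b1747 : PP 8 4 T 0x1000000001000000000000000000000084000000510015000000010000208000010 := rS 0x5c001b4066718334665f2d9309649 (k8 b97 b1709 b348 i1884 b318 b372 b45 b82 (k4 b623 i1002 i555 b317 (k2 b614 i2259 k0))) (by decide +kernel)
def b1748 : PP 8 4 T 0x1000000000000080000000000000000000000000000000000000000001448000010 := rS 0x1e251899718421438a4ae4c1589cb64b1b97e328a22925f8353ab94ca6b2a964d304 (k8 b1717 b140 b43 b30 b353 b9 b1305 b1582 (k8 b125 b1624 b97 b139 b1743 b279 b318 i1774 (k8 b1709 i1884 b289 b482 b348 i530 b1745 b1706 (k4 b1747 b1746 b1739 b22 (k2 b629 b1009 (k1 b325 k0)))))) (by decide +kernel)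
def b1749 : PP 8 4 T 0x1000000000000001004000000000000001000000500415000520000051508015000 := rS 0x6d09b14b815 (k4 b230 b690 b481 b253 (k2 i515 b536 k0)) (by decide +kernel)
def b1750 : PP 8 4 T 0x1000000000000080004000000000000040000000040000000100000011548000000 := rS 0x29ece41a050e792e9682813788a93a974d9eda25f24100964f589851e353a9acaa593490c225766a156b1072a901a045691c1e0905aadf8cb8201d82a3 (k8 b423 b56 b31 b1717 b145 b1624 b359 b311 (k8 b291 b283 b383 b405 b1748 i521 i2027 b1305 (k8 b432 b277 b64 b370 b11 i523 b74 b140 (k8 b43 b30 b353 b1582 b125 b349 b137 b382 (k8 b293 i485 b272 i261 b363 b278 i754 b983 (k8 b984 b510 b1749 b35 i2145 b439 i378 i509 (k4 i1808 i777 i1809 i775 (k2 b975 b412 (k1 b1593 k0))))))))) (by decide +kernel)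
def b1751 : PP 8 4 T 0x1000000000000090004000000000000044000000040000000000000051548000000 := rS 0x634cacd70bc192ecec6c67d3cf69d4fa5d36a958abcc28f1a9d4cb433ead43abf520355a470782416ab7e32e080760a8c9b4540a0d1a79893c50acd883944e41008109444 (k8 b1750 b66 b1748 i2 i22 b785 b1305 b432 (k8 b370 b64 b1720 b325 b414 i1051 b33 b60 (k8 b1609 b270 b423 b56 b31 b1717 b145 b1624 (k8 b359 b311 b291 b283 b383 b405 i521 i2027 (k8 i1452 b126 b277 b65 b624 b9 b1582 b125 (k8 b349 b137 b76 b382 b338 b983 b984 b626 (k8 b510 b637 b1591 b1593 b1169 b388 i1681 b640 (k4 b409 i289 i1413 i1990 (k2 i1405 b455 k0))))))))) (by decide +kernel)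
def b1752 : PP 8 4 T 0x201002000000000000500010000000004000000540050011108000000000008000000 := rS 0x7186a50fc6327aa556535695cfab5 (k8 b277 b65 b11 b405 b326 b359 b338 b293 (k4 i487 i2037 b165 b141 (k2 i799 b643 k0))) (by decide +kernel)
def b1753 : PP 8 4 T 0x11002000000000000500010000000004000000150050000008000000000008000000 := rS 0x4a98d52ab (k4 b359 b338 i488 b643 (k1 b165 k0)) (by decide +kernel)
def b1754 : PP 8 4 T 0x1000000000000080004000000000000044000000040000000000000051548000000 := rS 0x7e624d9c21a503bae466c4638dd3238682042912788f45a7317a85527564994aa5908b350b1072a4d480d5691c1e0905aadf8cb8201d82a31a84c9427209100204 (k8 b1748 i2 b1750 i22 b785 b66 b269 b125 (k8 b423 b56 b31 b1717 b145 b1624 b359 b311 (k8 b291 b283 b383 b405 i521 i2027 i1365 b1305 (k8 b432 b64 b370 i523 b43 b30 b9 b288 (k8 b1582 b338 b94 b84 b390 b128 b38 b1720 (k8 b325 b439 b60 b1751 i652 i1108 i990 i2182 (k8 i2032 i1616 b644 b640 b1752 b32 b1753 i2921 (k2 i1358 i297 (k1 b227 k0))))))))) (by decide +kernel)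
def b1755 : PP 8 4 T 0x1000000000000080004000000000000040000000040000000000000051548000000 := rS 0x36854b8c54303cd655239a608112bc41ca0d0204cbe44 (k8 b1750 i644 b269 b1748 i521 b1305 b432 b11 (k8 i523 b1717 b140 b383 b30 b353 b283 b1754 (k4 i1523 b646 i510 i515 (k1 b536 k0)))) (by decide +kernel)
def b1756 : PP 8 4 T 0x1000000000000080004000000000000040000000040000000000000011548000000 := rS 0x2cd32635e2ed70c618b169f17671b51a5c6896de22a2f904944452034160760a8c12a955ac55aaf30bf06a0f3291d97040215e20e5 (k8 b1305 b432 b11 b1748 b1717 b145 b383 b9 (k8 b283 b125 b1624 b137 b76 b405 b382 b359 (k8 b338 b291 b423 b56 b31 b311 i521 i2027 (k8 b1750 b66 i22 i644 b1755 b35 i771 b1367 (k8 i386 i1052 i515 b1169 b36 b412 i1794 i989 (k8 b381 b171 i1679 i415 i1405 i1144 i1413 b455 k0)))))) (by decide +kernel)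
def b1757 : PP 8 4 T 0x400000000004001000000000000080004000000000010000000000500011000500000051508014020 := rS 0x2e4510cc55ca4d8e3006055822d04bf0aecd42c41ca272f9208043 (k8 b74 b272 i261 b363 i746 b1305 b432 b64 (k8 b370 b11 b1624 b291 b128 b56 b230 b1749 (k8 i522 i1688 i1509 i986 b832 i2032 b268 b646 (k1 b753 k0)))) (by decide +kernel)
def b1758 : PP 8 4 T 0x221202000000000000000000000000000000000000000000000000000000008000000 := rS 0x3f9449eab29ab4aa596595cfab5 (k8 b277 b65 b11 b145 b43 b30 b405 b326 (k4 b359 b293 b32 b141 (k1 i2037 k0))) (by decide +kernel)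
def b1759 : PP 8 4 T 0x1000000000000080004000000000000040000000000000000000000011548000000 := rS 0x106813ca64b5144ba6c287137b4426b73dbc4902a2011496958b998e6a127aad6261079acaa472c9a486110215e867d5aa8c3b0d8839608fc (k8 b1624 b1717 b1305 b432 b1758 b126 b423 b277 (k8 b65 b624 b11 b1748 i523 b74 b140 b43 (k8 b383 b30 b353 b283 b137 b382 b359 b293 (k8 b94 b390 b1756 b85 i1673 i489 b66 b272 (k8 b1757 i261 b35 b379 i850 i2145 b278 i1008 (k8 i749 b439 b983 b984 b413 i378 b133 i1808 (k2 i1809 i775 (k1 b421 k0)))))))) (by decide +kernel)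
def b1760 : PP 8 4 T 0x1000000000000000000000000000000000000000000000000000000020008010020 := rS 0x881220bc42a43 (k4 b74 b57 b1146 i2138 (k2 b439 b272 (k1 b269 k0))) (by decide +kernel)
def b1761 : PP 8 4 T 0x1000000000000080000000000000100000500020000000000000200054048000000 := rS 0xfd6e9b538f5421d (k8 b126 b94 b38 b18 i1447 i802 i297 i2031 k0) (by decide +kernel)
def b1762 : PP 8 4 T 0x1002000000000000500010000000004000000950050000008000000000008000000 := rS 0xfe948618d52ab (k4 b359 b338 i488 b1753 (k2 b165 b141 (k1 i1675 k0))) (by decide +kernel)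
def b1763 : PP 8 4 T 0x10000000000000a0000000001000000000080020000401000000000054048000020 := rS 0x20d02873ca64705d (k8 b306 i652 i1108 i1072 b646 i1363 i925 b1761 k0) (by decide +kernel)
def b1764 : PP 8 4 T 0x1202000000000084044000000000000040080020040404018000000044048000020 := rS 0x8d369e5e3121f51506b740a1cf69768a9c7aa10eb9552b164994d655148441b0d (k8 b141 i2302 i523 b1760 b30 b353 b9 b288 (k8 b382 b338 b1305 b126 b94 b38 b18 b1763 (k8 b984 b637 b636 i1362 i801 i925 b1609 i2031 (k4 b368 b119 b414 b1586 (k2 i1051 b1169 k0))))) (by decide +kernel)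
def b1765 : PP 8 4 T 0x1000000000000080004000000000000040000000000000000000000001448000000 := rS 0x1a286151f929153850ccea42b834be4d2509c891763b3d26b9209d860331002c0ec1518b4e6a104aad5afc1a9d5ca0f64994d65523b2e0843008a42204 (k8 b1748 i523 b1760 i2 b74 b1717 b145 b383 (k8 b30 b353 b9 b288 b283 b1305 b1582 b125 (k8 b1624 b405 b359 b291 b94 b390 b128 b423 (k8 b56 b31 b311 b1759 b372 b82 b87 i743 (k8 b644 i1509 i989 i3011 b21 b272 b785 b66 (k8 b270 i644 i2302 b1583 i2027 i1505 b301 b1762 (k4 b334 b268 i1675 b1764 (k2 i902 b1367 (k1 b636 k0))))))))) (by decide +kernel)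
def b1766 : PP 8 4 T 0x400000000000001202000000000080008000000000000000000000000000000200000000108010000 := rS 0x2fd7b45522c81a1305a9c0e3d60a8d56b156abc8ecb1f8541e09 (k8 b291 b283 i369 b603 b145 b383 b76 b405 (k8 b382 b359 b423 b56 b38 b31 b18 b311 (k8 b269 i482 b464 i2027 b295 i1413 i1451 b1415 k0))) (by decide +kernel)
def b1767 : PP 8 4 T 0x1000000000000080000000000000000040000000000000000000000001548000000 := rS 0x1133ca1e325d8a1c4de7b2f89c904d20116870d5a9f59b10538f5461d39a85ca4f309540643148ada23f0ab081f040881012fc (k8 b1624 b291 b1748 i523 b1717 b283 b1765 i369 (k8 b603 i651 i371 b1760 b74 i65 b30 b137 (k8 b293 b1305 b94 b390 b126 b423 b38 b18 (k8 b432 b370 b65 b277 b1758 b624 b1766 b272 (k8 i788 i261 i746 i904 b637 i1008 i749 b413 (k4 b753 b754 b646 i1013 (k2 b827 b343 k0))))))) (by decide +kernel)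
def b1768 : PP 8 4 T 0x1000000000000080000000000000000040000000000000000000000001448000000 := rS 0xbfa1a917b4506ac8941322104403f0aaee9ec20882d4e071eb05460955ac55aaf7e03caa4765c108604 (k8 b1748 b74 b1717 b145 b383 b30 b283 b1624 (k8 b76 b405 b382 b359 b291 b423 b56 b38 (k8 b31 b18 b311 i523 b1765 b135 i1944 i369 (k8 b603 b1767 i743 b272 b269 b66 b464 i2302 (k4 b295 i1413 i2027 b301 (k2 i1451 b409 k0)))))) (by decide +kernel)
def b1769 : PP 8 4 T 0x1000000000000080000000000000000000000000000000000000000001448000000 := rS 0xb66d082ccba638a4359a57439dce26f881e44e481093480450992c2a5f68c65144301810d2592a9ae080b5381c7a7350b94124f58abcc2fc (k8 b1624 b137 b76 b382 b293 b291 b1305 b94 (k8 b390 b38 b31 b18 b311 b1717 b353 b30 (k8 b43 b140 b1748 i65 b74 b1768 b279 i145 (k8 b318 b417 b1715 i1882 b66 b272 i788 b1331 (k8 i261 b529 i1854 b432 i1008 i749 i751 b198 (k8 b11 b370 b1758 b413 b55 b753 i553 b464 (k2 i2344 i1757 (k1 b614 k0)))))))) (by decide +kernel)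
def b1770 : PP 8 4 T 0x1000001000000080000000000004020000040010000000000200200040048000000 := rS 0xb71fc31366f8a9cd42818909c8201148449404 (k8 b139 b66 i2303 b1760 b47 i22 b785 b325 (k8 b60 b94 b390 b435 i1058 i1181 b413 i297 (k2 b101 b767 k0))) (by decide +kernel)
def b1771 : PP 8 4 T 0x11020000000000a0000010000000000000040001050008000200000040048000000 := rS 0x222283e86adcde505a3292a6338a05071266a7de34e4c8e0286b39a8552ab14844d28513904024a49c599204 (k8 b139 i2320 b339 b7 b66 b47 i22 b785 (k8 b931 i1583 i2303 b1760 b359 b338 b94 b390 (k8 i2424 i651 i652 i1108 b308 b404 b316 b329 (k8 b325 b33 b60 b1761 i488 b1770 b165 i506 (k8 i505 i1399 i886 b32 b767 b413 i296 b2 k0))))) (by decide +kernel)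
def b1772 : PP 8 4 T 0x1000000000000014140000000000000040000001150000008000000054008200000 := rS 0x7946448d6f1 (k4 b404 i628 b325 b1191 (k2 b414 i1051 k0)) (by decide +kernel)
def b1773 : PP 8 4 T 0x1002000000000080000000000000000040000001000000000200000042048000000 := rS 0xcb4a98d6a6e86ad906782d335194e409ad643f0ab458e0b5381c7a1d0493d52ab58ab55e61889fd4213269dcbe8f5c8b5ca3514844d28513904029367c58ce3382838ca0325324ac04 (k8 b139 i347 i2320 b66 b286 b180 i346 b283 (k8 i2169 b907 b339 b36 b7 b47 i22 b785 (k8 b931 i1583 i2303 b1760 b366 b1305 b128 b644 (k8 b333 i2432 i804 b270 b269 b94 i842 b320 (k8 b137 b76 b405 b382 b359 b338 b293 b291 (k8 b126 b38 b31 b18 b311 i410 b1771 b1772 (k8 b603 b464 i2326 i1335 b308 b1191 b329 i1052 (k8 i1051 i775 i2031 b101 i1933 i886 i1320 i1058 (k2 i506 b693 k0))))))))) (by decide +kernel)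
def b1774 : PP 8 4 T 0x1002000000000080000000000000000040000001000000000200000002048000000 := rS 0x35a35a2142d8a8be694289c820167c58ce3382838ca0325324ac04 (k8 b139 i347 i2320 b66 b286 b180 i346 b283 (k8 i2169 b907 b339 b36 b47 i22 b785 b931 (k8 i1583 i2432 b1773 i771 i385 b1367 i1052 i2325 (k1 b1191 k0)))) (by decide +kernel)
def b1775 : PP 8 4 T 0x1002000000000080000000000000000040000000000000000200000002048000000 := rS 0x3db453c984a18ca30c3ed0d96b5522f87c8141c4856f15baed8414359b1271614c1572676489cca1101838665602134824a008d45a7372aa556ad30c44fea1 (k8 b94 i842 b320 b137 b405 b359 b338 b1305 (k8 b390 b128 b366 b47 b66 i22 b270 b139 (k8 i347 i2169 i346 b286 i2303 b180 b785 i2320 (k8 b907 b644 b283 b1760 b339 b7 b1774 i147 (k8 i667 i668 i1681 b1612 b404 i2221 b325 b33 (k8 b60 b767 i376 i375 i1455 i1454 b301 i1325 (k8 b315 b32 i487 i2040 i1726 i1725 i1108 i1940 (k1 b206 k0)))))))) (by decide +kernel)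
def b1776 : PP 8 4 T 0x1202000000000080000008000000000000000100040000002400010000008001000 := rS 0x5c0ce1a2d39a85caa937984e24f64a4d48cb5683c120b5581d82a3 (k8 b423 b56 b31 b359 b311 b291 b283 b405 (k8 b145 i2027 i1365 b288 b293 i749 b137 i1008 (k8 b338 b1305 b94 b390 b128 b101 b1435 b950 (k1 b644 k0)))) (by decide +kernel)
def b1777 : PP 8 4 T 0x1202000000000080004000000000000000000000040010002500010056048011000 := rS 0x16e26825ba04a25d659a4aa6b07a9c7aa10e93d56535697cea87628fc2a09 (k8 b291 b230 b603 b481 i928 b715 b363 b405 (k8 b326 b359 b293 b126 b94 b38 b18 b283 (k8 b353 b30 b140 b145 b537 b1446 b1116 b1776 (k4 i2031 b33 i775 b330 k0)))) (by decide +kernel)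
def b1778 : PP 8 4 T 0x1002000000000080004000000000000040000000000000000000000042048008020 := rS 0x2e144b7138620903155b9f564392a04c16a7038f43a7358ab55e7f508a44e352f9d4de7127a6da2482010cc23f0a9142209 (k8 b291 i523 b1775 b230 b603 b137 b74 b272 (k8 i261 b278 b983 b293 i749 i1008 b715 b363 (k8 i2210 i746 b1760 b94 i842 b76 b405 b382 (k8 b390 b126 b38 b31 b18 b311 i344 i339 (k8 b891 b464 i1541 b729 b755 i1335 i2031 b413 (k4 b33 i775 b32 b330 (k1 i513 k0))))))) (by decide +kernel)
def b1779 : PP 8 4 T 0x1002000000000080004000000000000040000000000000000000000042048000020 := rS 0x2dc4d04b719204631728974cccb349ae0855078fd8a15538f5421d728249eab29ab48e2913844b2352f8340677889bc904021914c287 (k8 i928 b137 b1775 b74 b272 i261 i1008 b320 (k8 i2508 i65 b939 b363 i2210 b534 i523 i746 (k8 b1760 i2142 b405 b326 b359 b293 b291 b1305 (k8 b126 b94 b38 b18 b230 b481 b603 b1778 (k8 i764 b341 b1542 b140 b145 b1777 b537 b1446 (k8 b85 i1505 b1116 b335 b1435 i2031 b33 i775 (k1 b330 k0))))))) (by decide +kernel)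
def b1780 : PP 8 4 T 0x1000001000000080004000000201200800000000000000000000000000008000000 := rS 0x53d8ece5eb157095191cd42e5 (k8 b1305 b94 b390 b333 i1102 i289 i1615 i1991 (k4 i1143 i415 b412 b381 k0)) (by decide +kernel)
def b1781 : PP 8 4 T 0x1000000000000080004000000000000040000000000000000000000000448000020 := rS 0x18cbd6633d1e9d4c46106813ca15485a658501f0409add3ef11521c160760a8ce6a17282556ad0091c224b3a8340677889bce24f3da6cc2976892080432289162fc (k8 b1624 b382 b1769 b1775 b74 b272 i261 b278 (k8 b984 b137 b983 i754 b293 i749 i1008 b320 (k8 i2508 i65 b939 b715 i485 i523 i2142 i2 (k8 b405 b359 b291 b1305 b94 b390 b423 b56 (k8 b31 b311 i928 b1779 b35 b197 i850 i2145 (k8 b1372 b743 b439 b145 i378 i2027 b905 i1808 (k8 i1809 i775 b442 b421 b281 b1780 b1168 b388 (k2 i1990 i889 (k1 i415 k0))))))))) (by decide +kernel)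
def b1782 : PP 8 4 T 0x101200000000000080000004000000000004100000000400040404000054048101000 := rS 0x2dc4cba827829c7aa10e83cd669 (k8 b140 b353 b283 b126 b94 b38 b18 b767 (k4 i2031 b1433 b33 i775 (k1 b330 k0))) (by decide +kernel)
def b1783 : PP 8 4 T 0x101000000000000000008000000000000004210000000000000000000010008000000 := rS 0x19b13 (k2 b60 i1975 (k1 b1439 k0)) (by decide +kernel)
def b1784 : PP 8 4 T 0x400400000000000001000000000000000000448000000000000040000000000000000000000008000000 := rS 0x17b45 (k2 b70 i1989 (k1 b409 k0)) (by decide +kernel)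
def b1785 : PP 8 4 T 0x1200000000000080008004000000000000010000000400040404000056048101000 := rS 0x2050f11 (k4 b320 i927 b1783 b1782 k0) (by decide +kernel)
def b1786 : PP 8 4 T 0x1000000000000000000000000000000000000000000000000000000080008110020 := rS 0x26f1 (k2 b35 i2145 (k1 b439 k0)) (by decide +kernel)
def b1787 : PP 8 4 T 0x1202000000000080008000000000000000000000000400000404000056048101000 := rS 0x5b2fcfb435232c1e0b03b05460927aad5a7f50d3d76a7 (k8 b18 i1944 b135 b94 i842 b405 b359 b293 (k8 b291 b423 b56 b31 b311 b283 b145 i2027 (k4 b301 i1325 i1451 b1785 (k1 b1784 k0)))) (by decide +kernel)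
def b1788 : PP 8 4 T 0x1000000000000080000000000000000040000000000000000000000000448000020 := rS 0xbfa1af68a944124d3e818b2e56e7d5aa3c6654074150e2b1f855774f611c4de0d3a9dcbe352409c52400891c8603538f43a2d39b94124f56986227f5091448fc (k8 b1624 b1769 b1775 b94 i842 b320 b137 b405 (k8 b293 b291 b1305 b390 b128 b126 b38 b18 (k8 i65 b74 i2142 i523 b272 b1760 i746 i261 (k8 i2210 b363 i2508 b715 b939 i1008 i749 b1781 (k8 b135 i1944 i2219 b603 b1786 i927 b1787 b341 (k8 i339 i2167 b290 i767 i1541 b729 b644 b294 (k8 b1783 b771 b7 i2031 i2044 b303 i1416 b424 (k2 i1725 b409 k0)))))))) (by decide +kernel)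
def b1789 : PP 8 4 T 0x1202000000000080004000000000000040000000000000000000000042048011010 := rS 0x998ca6e2ad04fa519e6f5c8cd1a6747800c64a01a4c6e4d368d5e0ba3bad12f0da2ad9025d5f9f686c55202c0ec1518745a737293d5261889fd424964994d66928b2ca6ad239541eab14a1d8e5f1390086591f8548a09 (k8 b291 b1775 b230 b603 b43 i858 b272 i746 (k8 i904 i410 i928 b486 b359 b283 b30 b383 (k8 b405 b326 b145 b1446 b140 b353 b9 b288 (k8 b97 b94 i842 b320 b137 b338 b293 b1305 (k8 b390 b128 b126 b423 b56 b31 b311 i2027 (k8 b481 b301 i1325 i1452 b537 b1116 b1782 b70 (k8 b101 i1902 b315 i2563 i887 b1512 b131 i1681 (k8 b850 b374 i1365 b44 b348 b459 b317 i1132 (k8 i490 i964 i287 b644 i1399 i1951 i2040 b833 (k4 b1169 b435 i1181 b292 (k2 i1108 b300 k0))))))))))) (by decide +kernel)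
def b1790 : PP 8 4 T 0x1002000000000080000004000000000000100000000400100004000054048000000 := rS 0xb7132ea09e0a71ea843a4f (k8 b293 b126 b94 b38 b18 b767 i2031 b1009 (k2 b33 i775 (k1 b330 k0))) (by decide +kernel)
def b1791 : PP 8 4 T 0x1002000000000080000000000000000000200000000400100000000000008110000 := rS 0x245c5982d4e071e82562af (k8 b76 b382 b291 b38 b31 b18 b311 i1335 (k2 b1116 b464 (k1 b253 k0))) (by decide +kernel)
def b1792 : PP 8 4 T 0x11202000000000000000010000000000400040050044000008000000002048000002 := rS 0x1144a1bd26b454aad5a6188b24cacb (k8 b145 b9 b288 b320 b137 b405 b359 b338 (k4 b594 i1369 i1399 i2040 (k2 b413 b435 k0))) (by decide +kernel)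
def b1793 : PP 8 4 T 0x1202000000000080000008000000000040000000040000000000004002048000014 := rS 0xd04c1e8e0b9250d4c64d0001c5a7372aa4fea124b2480432c9161a8f (k8 b333 b101 b1775 b43 i858 b272 b288 b97 (k8 b94 i842 b338 b1305 b390 b128 b31 b317 (k8 i788 i447 i1114 b348 b644 b1792 i801 i802 (k2 b637 i1108 k0)))) (by decide +kernel)
def b1794 : PP 8 4 T 0x1000000001000000054000000005000000000000000000000000155000008000000 := rS 0x19d16 (k2 b335 b427 (k1 b36 k0)) (by decide +kernel)
def b1795 : PP 8 4 T 0x1202000000000080004000000000000040000000040000000000000042048010010 := rS 0x1c4dc7c5a9d8ea3462a60ae9d4fa6c6e39448c4964c00b440433538f45a2f7293d5e613f994d2c70625d6c811f85412272f900524328b2ca6ad2c91caa0f55914e6a1 (k8 b94 b390 b1775 b359 b283 b30 b383 b43 (k8 b405 b326 b145 b1446 i858 b486 b272 i904 (k8 i746 b291 b230 b603 b1791 b1790 i1902 b1789 (k8 i410 b140 b9 i842 b137 b76 b293 b1305 (k8 b84 b128 b38 b18 i1609 b1793 b344 i23 (k8 b44 b286 i1002 i190 i195 i1005 b983 b626 (k8 b510 b1532 b375 b832 b1794 b429 b131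 i2563 (k4 i2037 i1630 i1361 b605 k0)))))))) (by decide +kernel)
def b1796 : PP 8 4 T 0x1000000000000000100000000000000000000000080000000020000002008000014 := rS 0x11c4a191340049 (k4 b97 b317 i788 i450 (k2 b348 i287 (k1 i1132 k0))) (by decide +kernel)
def b1797 : PP 8 4 T 0x1202000000000080004000000000000040000000000000000000000042048010010 := rS 0x71371f16a763aa611e574d8dc72892593002d1011992eb6408fc4ea71e8b4e62f728249eaf30c44fea16494596535691caa0f558a42a5f2010cb245 (k8 b1775 b43 i858 b272 i904 b230 b486 b359 (k8 b283 b30 b383 b405 b326 b145 b1446 b288 (k8 b94 i842 b320 b137 b76 b293 b291 b1305 (k8 b84 b390 b128 b38 b18 i746 b603 b1791 (k8 b1790 i1902 b1795 b1796 b344 i23 b44 b286 (k8 i190 i195 i1005 b983 b1532 i2597 b375 i1587 (k4 b695 i2563 i2037 i1630 (k2 i1361 b605 k0)))))))) (by decide +kernel)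
def b1798 : PP 8 4 T 0x1002000000000080000008000000000040001000000000010000000000048020010 := rS 0x11a6301874e6a154ac55e6168acc0f0d (k8 b101 b31 i473 b309 b137 b76 b382 b338 (k4 b94 b390 b126 b44 (k2 b459 i1760 (k1 b1211 k0)))) (by decide +kernel)
def b1799 : PP 8 4 T 0x1202000000000080004000000000000040000000000000000000000042048000010 := rS 0x24b262d8ac7940a0cbb121396d66d178840bec703b949eb1579acd2516594d5a472a83d56292010cb245 (k8 b1775 b43 i858 b272 b486 b359 b283 b30 (k8 b383 b405 b326 b145 b1446 b140 b353 b76 (k8 b382 b293 b1305 b31 i410 i904 b1797 b78 (k8 b309 i473 b531 b529 b325 b22 b33 b60 (k4 b414 b823 i2038 b1798 (k2 i51 i445 (k1 b1532 k0))))))) (by decide +kernel)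
def b1800 : PP 8 4 T 0x1200000000000080004000000000000040000000000000000000000000448000000 := rS 0xfab53b2e4686f67a75314e8c0fd8a37638499a5e4ba6cae89188cc98d12580802b74fbc4722a538f45a2f728249eb1309fd4205329a4a2cb29ab48e5507aac80432c91448fc (k8 b1624 b1769 b1775 b43 i858 b272 b359 b283 (k8 b30 b383 b405 b326 b145 b1446 b140 b9 (k8 b1788 b94 i842 b137 b382 b293 b291 b1305 (k8 b84 b128 b38 b18 b1799 b271 b35 b197 (k8 i850 b1553 b317 b794 b344 b44 i2066 i1002 (k8 i190 b1532 b983 b984 b1549 i2604 i905 i411 (k8 i1800 i1803 i216 b482 b381 b375 b281 b412 (k4 i1060 b1794 i1143 b131 (k2 i808 i1630 (k1 i2037 k0)))))))))) (by decide +kernel)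
def b1801 : PP 8 4 T 0x1202000000000080000008000000000040000000000000000000000002048002014 := rS 0xcccec92010cb245 (k8 b1775 b43 i858 b272 b288 b1796 i1609 b1793 k0) (by decide +kernel)
def b1802 : PP 8 4 T 0x1000000000000080000010000100010010000000000000000000015000008000000 := rS 0x4945982a3168bd42e5 (k8 b1305 b94 b84 b128 b423 b56 b335 i2033 (k1 b7 k0)) (by decide +kernel)
def b1803 : PP 8 4 T 0x1202000000000080008000000000000040000000000000000000000042048000010 := rS 0xdc713b1d468955ca94f8982ba6c6e39448c4664b26005a2025aa5d6c810617c7a2d398bdca4f57986227f50994a2cb29ab48e5507aac52bb5389d8a3f089ac2a40219648a09 (k8 b291 b1775 b43 i858 b272 i2219 b353 i1952 (k8 b603 i116 i865 b18 i1944 b486 b359 b283 (k8 b30 b383 b405 b326 b145 b1446 b9 b94 (k8 i842 b320 b137 b76 b293 b1305 b84 b390 (k8 b128 b38 i904 b1787 b1791 b1790 i1902 i887 (k8 b1801 b344 i23 b44 b286 i2066 i1002 i190 (k8 i195 i1005 b983 b1532 b375 i2037 b160 i1144 (k4 i1598 b1802 b429 b131 (k2 i1361 i1630 (k1 b605 k0)))))))))) (by decide +kernel)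
def b1804 : PP 8 4 T 0x400000000000000101002000000000000400040000200200400040100000015000004000000048000000 := rS 0x116671dd78b45fd0c9eab29ab68ab9 (k8 i1144 b275 b405 b326 b359 b293 b301 i1451 (k4 b160 b409 i808 i1990 (k2 b294 b36 k0))) (by decide +kernel)
def b1805 : PP 8 4 T 0x400000000000000001000000000000080000040000104200010000000000000000000015000008000000 := rS 0xbd5fd0d9e948b3968ab9 (k8 i1144 b275 b1305 b335 b1802 b36 b424 i1725 (k2 i1990 b409 k0)) (by decide +kernel)
def b1806 : PP 8 4 T 0x1200000000000080000000000000000040000000000000000000000000448000000 := rS 0x2d4fa761a295726f4c25d3657448c46e7547b449602090cd0c015ba7de239150fc22155dd3d84402890d965923954d66507a9c7a2d17b94124f55ac4a6ad30c44fea122891f805 (k8 b1788 b1624 b1769 b1775 b94 i842 b320 b137 (k8 b405 b326 b382 b359 b293 b291 b1305 b84 (k8 b128 b38 b18 b283 b9 b353 b30 b383 (k8 b43 b145 i858 b1446 b272 b1800 b135 i1944 (k8 i2219 i1952 b603 b1803 b271 b35 b197 i850 (k8 b1553 i372 i290 b439 b317 b794 b231 b377 (k8 i1707 i1800 i1002 i190 b1532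 b983 b984 b375 (k8 i1060 i1144 b1804 b1805 b131 i1630 i808 i2037 k0)))))))) (by decide +kernel)
def b1807 : PP 8 4 T 0x1002000000000080000004000000000000000000000400100000000054048110000 := rS 0x2047e09 (k4 b291 b603 b1791 b1790 k0) (by decide +kernel)
def b1808 : PP 8 4 T 0x5010000000000000a0000004001001020004000004000000020004000054048000000 := rS 0x29c9e66a69048142afcf499538f5421d (k8 b126 b94 b38 b18 i1108 i654 i1726 i1895 (k4 i1894 i2031 i816 i895 (k2 i1181 b402 (k1 b316 k0)))) (by decide +kernel)
def b1809 : PP 8 4 T 0x101002000000000084000004000001020044000004450020120000000054048112002 := rS 0x40a0d98bf3627da28d348dd8af0899794e3d0eaa5927d39a847e09 (k8 b291 b603 b94 b390 i1598 i2275 b338 b126 (k8 b38 b18 b1807 b362 b325 b297 b374 i1495 (k8 i964 b1808 b626 b1191 i1725 i670 i895 i1975 (k1 i2031 k0)))) (by decide +kernel)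
def b1810 : PP 8 4 T 0x1001000000000000080000008000000000000000004000000400080000000008000000 := rS 0x1c465307a689c0bf0d539cd424c (k8 b143 b94 b390 b18 b101 i852 b413 i653 (k4 i801 i802 b92 b204 (k1 i1936 k0))) (by decide +kernel)
def b1811 : PP 8 4 T 0x1000000000000000000004540000000000400000000540540000000000008000000 := rS 0x80 (k2 i2038 b1116 k0) (by decide +kernel)
def b1812 : PP 8 4 T 0x1102000000000080004000000000000040000000000000000010000042048000010 := rS 0x4197d66105b9be2a9467a4d3ab98b324d6cb3389c525d3298c185828930965b478008e420181c9ea955ac4a6ad57986227f508548a87 (k8 i927 b1775 b230 b94 i842 b320 b137 b76 (k8 b405 b326 b382 b359 b338 b293 b31 b354 (k8 b272 i204 b317 b69 b81 b436 b143 b238 (k8 i858 i859 i447 i963 i2259 b1726 b1725 i544 (k8 i465 i468 i2275 b339 b737 b313 b7 b36 (k8 i2040 b435 i1058 b1810 b1809 i473 i470 b1319 (k1 b1811 k0))))))) (by decide +kernel)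
def b1813 : PP 8 4 T 0x1000000000000000000000000000000000000000000000200100000002008002000 := rS 0xf (k2 i5 b622 k0) (by decide +kernel)
def b1814 : PP 8 4 T 0x1100000001000000000000000000000000000000000000200120000002408000010 := rS 0x250009a03070348e5965c449243 (k8 i21 b97 b320 b567 i607 i205 b1813 b341 (k4 b403 b1677 b317 b348 (k1 b1316 k0))) (by decide +kernel)
def b1815 : PP 8 4 T 0x1100000000000080004008000000000001000000000000008120000002408000010 := rS 0x53cdacc5d2d126b934c58ce5664954b26b65830c6650000c0ea955ab4c2fc10c44fea121945cb0d (k8 b101 b1305 b1814 i21 b94 i842 b320 i12 (k8 b1624 b137 b405 b359 b338 b31 b286 b794 (k8 b180 i487 b1316 i465 i468 i461 i1489 b1523 (k8 b345 b1796 b339 i1583 b737 b7 b574 i887 (k4 i886 i1681 b329 b308 k0))))) (by decide +kernel)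
def b1816 : PP 8 4 T 0x1000000000000080004000000000000040000000000000000000000040448010000 := rS 0x236329e4e8d462c53699c8c0d2c15c6e3919b440202079551e4c25a14bab613c4492156390c525f289020a0522bf048e5 (k8 b1305 b1769 b1624 b1775 b1788 b1806 b1812 b1814 (k8 i904 b1032 i21 i410 b230 b97 b320 i746 (k8 b1807 i1931 b1520 b1815 b348 i2597 i2549 b1677 (k8 i788 i445 i653 i287 i195 i1005 b1532 b345 (k8 i461 i867 i544 i669 b481 b183 b358 b510 (k4 b1794 b3 i1036 b120 k0)))))) (by decide +kernel)
def b1817 : PP 8 4 T 0x1000000000000080004000000000000040000000000000000000000040448000000 := rS 0x7da1a5172c9528d462673b9181a582ba2466010103caa8f5ac34984b5b1e506852eb3624272dacda2f108144be29219000e73728249eb129abcc3113fa848afc02c158e24 (k8 b1769 i410 b1806 b1788 b1624 b1775 b94 i842 (k8 b320 b137 b76 b326 b382 b293 b291 b1305 (k8 b390 b31 b1812 i21 b1032 i904 b1814 b1816 (k8 b78 b309 i473 b531 b529 b325 b1453 b22 (k8 b25 b33 b414 b1811 b1815 b1798 b101 i886 (k8 i2597 i2549 b1677 i788 i445 i287 i190 b1532 (k8 b345 i461 i867 i2561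 i544 b183 b358 i208 (k4 i614 b737 b1802 b424 (k2 i1598 b315 k0))))))))) (by decide +kernel)
def b1818 : PP 8 4 T 0x1102000000000080008004000000000040000000000000000010000042048010010 := rS 0x1bd28cf49a762c355c9ad92cb33978526531830b0512612d1e0023908060754aad5a61889fd421522a1c4ec5 (k8 i116 i865 i927 b1775 b230 b94 i842 b320 (k8 b137 b405 b359 b338 b31 b354 b272 i204 (k8 b317 b69 b436 b143 b238 i858 i859 i447 (k8 i963 b1726 b1807 i544 i465 i2275 i2278 b737 (k8 i1114 b339 i1906 b7 b36 i2040 i1058 b1809 k0))))) (by decide +kernel)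
def b1819 : PP 8 4 T 0x1000000000000080000004000000000040000000000000000000000040448010000 := rS 0xa25f14901ca05828548afc13b158424 (k8 b1769 b1817 i116 i865 b1624 b1775 b230 b1806 (k4 b1788 b1305 b1818 b1032 (k2 i904 b1814 (k1 b1807 k0)))) (by decide +kernel)
def b1820 : PP 8 4 T 0x1100000000000000008000000000000000000000000400000080000002008010000 := rS 0x1a4d66d061618b4f (k8 b135 i116 i858 i859 i669 i467 i1495 b308 k0) (by decide +kernel)
def b1821 : PP 8 4 T 0x11100000000000080000001000000000000000000000000008140000002408000010 := rS 0x126b98b19d92552cb2c186332800060754aad5a617e086227f5094480e5 (k8 b1305 b272 b1814 b94 i842 b320 i12 b1624 (k8 b137 b405 b359 b338 b31 b286 b794 b180 (k8 i487 b1316 i465 i461 i1489 b1523 b1796 b339 (k2 b737 b7 (k1 b574 k0))))) (by decide +kernel)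
def b1822 : PP 8 4 T 0x1000000000000080000000000000000040000000000000000000000040448010000 := rS 0xfb434a2946a312303572584c26cae371ca2466d1008081e5547930964021ad52e5f86ad87e3d169cc5ee50494cc3113fa849205828548a247e2ed84a7 (k8 b18 b1817 i1944 b1624 b1769 b1775 b230 b1806 (k8 b1788 b97 b94 i842 b320 b137 b326 b291 (k8 b1305 b84 b390 b128 b38 b603 b1819 b101 (k8 i852 i1902 i887 b1820 b272 b1821 b348 i2597 (k8 i2549 b1677 i788 i445 i653 i287 i190 i195 (k8 i1005 b1532 b983 b375 b345 i1144 i461 i867 (k4 b183 b358 i208 b1802 (k2 b424 i1598 (k1 b315 k0))))))))) (by decide +kernel)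
def b1823 : PP 8 4 T 0x1000000000000080000000000000000040000000000000000000000040448000000 := rS 0x11a6300108b0575b1e5065d89144aa292d830d4392facda213788404ec56101ce6a127aa5625357984431122891f905 (k8 b1806 b1624 b1769 b1775 b320 i12 b137 b76 (k8 b326 b382 b338 b293 b94 b390 b31 b1817 (k8 i116 i865 b1822 b78 i27 b309 i473 i470 (k8 i1873 i1952 i1953 i1757 b136 i1489 b1813 b325 (k8 b22 b33 b414 b1811 i507 b345 i461 b355 (k2 i447 i965 (k1 b1211 k0))))))) (by decide +kernel)
def b1824 : PP 8 4 T 0x101100000001000000000000000000000000000000000000000120000080408000000 := rS 0x9601 (k2 b1368 b794 (k1 b1372 k0)) (by decide +kernel)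
def b1825 : PP 8 4 T 0x1000000000000080000000000000000040000000000000000000000000448000000 := rS 0x11c0641154140a4572bf22224 (k8 b1769 b320 b1624 b1305 b1775 b1788 b1806 b1823 (k4 b1824 b354 i204 b317 (k1 b1553 k0))) (by decide +kernel)
def b1826 : PP 8 4 T 0x1202000000000080000000000000000080000000000000000000000042048010020 := rS 0x619b58a0d3a9dde0481a84c07114697cd647348a44e40219648a0f688fc2a09 (k8 b291 b417 b603 i145 b283 i346 b43 i858 (k8 b272 b529 b1032 b140 b383 b353 b318 i76 (k8 b320 i65 i267 i354 i261 b439 i804 b715 (k4 b939 b297 b731 b1787 (k1 b536 k0))))) (by decide +kernel)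
def b1827 : PP 8 4 T 0x101002000000000000414008000200000000040000000015020024000054048000000 := rS 0x1aae8eeb427aaca6ad (k8 b405 b326 b359 b293 b160 i2563 i887 b131 (k1 b850 k0)) (by decide +kernel)
def b1828 : PP 8 4 T 0x11000000000000000000000000000020000040050000000000000000000008000000 := rS 0xdf15 (k2 b435 i1058 (k1 b413 k0)) (by decide +kernel)
def b1829 : PP 8 4 T 0x1200000000000000000000000000000084000000000144000000020000008000000 := rS 0xdacd4f9d9a25f35954b269 (k8 b140 b43 b30 b353 b318 i145 b131 b440 (k2 b814 i556 (k1 b614 k0))) (by decide +kernel)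
def b1830 : PP 8 4 T 0x1202000000000080000000000000000080000000000000000000000042048010000 := rS 0x62b0d98bfa19b548b9338d52a31448ccb65701130920538af4bb0da292d6c3f00a9c5a7372826227f5097c2a9957a1cca6b34944aa5356b2c8eab1489c80432c9141ed1 (k8 i145 b283 i346 b43 i858 b272 b529 b1032 (k8 b359 b383 b145 b405 b326 b30 b1446 b140 (k8 b353 b9 i927 b76 i1938 b417 b318 b94 (k8 i842 b320 b291 b1305 b390 b128 b18 i451 (k8 b603 b1807 b794 b70 b101 i1930 i1989 i802 (k8 b1826 b97 b480 b317 b1532 i1884 i2066 i190 (k8 i1002 b1828 b1829 b623 b644 b1802 i555 b301 (k4 i1451 b614 b1415 i1791 (k1 b1827 k0))))))))) (by decide +kernel)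
def b1831 : PP 8 4 T 0x1202000000000080000000000000000080000000000000000000000042048000000 := rS 0x2393e7b199bc1a753bad86c481a92d06852e810f2032b336245b26b0d66f10809c5240219448acb349648e553583c0ee527aad625356abcc3116897d8e87 (k8 i927 i410 b318 i145 b320 b137 b76 b405 (k8 b326 b382 b359 b293 b1305 b31 b283 b353 (k8 b30 b383 b43 b140 b145 i346 b1446 i858 (k8 b272 b1032 b529 b1830 b78 i473 i1952 b461 (k8 i1757 b325 b1453 b823 b44 i1854 b480 b22 (k8 b25 b33 i485 i354 i261 i524 b1811 i1628 (k8 b715 b939 i1008 b1435 i753 i997 b759 b333 k0))))))) (by decide +kernel)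
def b1832 : PP 8 4 T 0x1002000000000080000000000000000080000000000000000010000000008000020 := rS 0x1109643 (k4 b74 b1715 b272 b66 k0) (by decide +kernel)
def b1833 : PP 8 4 T 0x1002000000000080000000000000000080000000000000000010000042048000000 := rS 0x255270d8b2e56c711ab2cce3340a0d922906160a28f599747065319304e420012c6e450296c8e032481c5a737293d52ab5894cfea12fa655f05 (k8 b1831 b76 i1938 b318 b94 i842 b326 b382 (k8 b359 b338 b293 b1305 b390 b128 b31 b319 (k8 b354 i204 i1884 b1832 b139 i1774 b1709 b317 (k8 b272 b289 b348 i447 i963 i452 i2259 i2265 (k8 b69 b238 i858 i859 b1745 i2275 b1319 b1116 (k8 i287 i544 i465 i1114 b1761 b1811 b644 b339 (k4 b101 b7 b1828 b165 k0))))))) (by decide +kernel)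
def b1834 : PP 8 4 T 0x1002000000000080000000000000000080000000000000000000000042048000020 := rS 0x5086045269d8b33d72b73ead51e67199501c7137834ea77269646a482380c5a737293d5a6110c44fea12f8560a292289c80d1 (k8 i145 b1833 b529 i22 b1032 b1831 b417 b318 (k8 b94 i842 b320 i12 b137 b405 b293 b1305 (k8 b390 b128 i65 i2142 i261 i2210 b534 i788 (k8 i2508 b715 b939 i1008 i749 b341 i339 i2167 (k8 i542 b290 i767 i1541 b729 b644 i1979 b294 (k4 b313 b7 b547 b738 (k2 b1807 b32 k0))))))) (by decide +kernel)
def b1835 : PP 8 4 T 0x1000000000000080000000000000000000000000000000000000000040448000000 := rS 0x5cb254a351899cee4606a54b07186a24aeb6198080211079551e4c2892c0a27149148640829cdca0930c44fe2450b44be154ca295efc (k8 b1624 b76 b1825 i1938 b417 b318 i145 b94 (k8 b1769 i842 b320 b137 b291 b1305 b390 b1831 (k8 b1833 i21 i22 b1032 b529 b1834 b1709 b1814 (k8 b480 i2597 i2549 b1677 b461 i445 i788 i287 (k8 b1807 b1532 i190 b101 i802 b345 b1828 i461 (k8 i867 i2561 i544 b183 b358 i208 i614 b737 (k1 b1802 k0))))))) (by decide +kernel)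
def b1836 : PP 8 4 T 0x1000000000000080000000000000000000000000000000000000000000448000000 := rS 0x804c219e08a2a0a97e328a (k8 b1825 b279 b318 b417 b1835 i385 b442 i896 (k2 i1854 b272 (k1 b1549 k0))) (by decide +kernel)
def b1837 : PP 8 4 T 0x1000000000000001004000000200000005000000000000000000201055508000000 := rS 0x18ac7 (k2 i2182 i1880 (k1 i2032 k0)) (by decide +kernel)
def b1838 : PP 8 4 T 0x1200000000000080000000000000000040000000000000000000000041408000020 := rS 0x31d8abd4eac9a23946a64f31278b358710108c464b842a1d274333975485731834be4a1489c88110090c160760a8c5a7350aa556b156abce30d20824926e0f185f8353ab941ec9329548ecb (k8 b145 b383 b30 b9 b288 b283 b1305 b1582 (k8 b125 b1624 b137 b1836 b144 i1008 b291 i182 (k8 b50 b287 b76 b405 b382 b359 b338 b94 (k8 b390 b128 b423 b56 b31 b311 b74 i2 (k8 i523 b272 b785 b1760 b66 i644 i2302 i488 (k8 b1583 i2027 b678 i489 b301 i1365 b646 b1520 (k8 b1753 b644 i986 b372 b432 b1766 b370 b1720 (k8 b325 b414 i1059 i1051 b1837 i652 b455 b510 (k4 i1413 i1615 i415 i2032 k0)))))))))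 (by decide +kernel)
def b1839 : PP 8 4 T 0x400400000000000001000000000000000400440800000000000000000000000000000000000008000000 := rS 0x17b45 (k2 b295 i1413 (k1 b409 k0)) (by decide +kernel)
def b1840 : PP 8 4 T 0x201200000000000000000000144000000004400000000544540000000000008000000 := rS 0xbda2ad966bba7afe866c3f1f59a6b2a964d2cb (k8 b145 b140 b43 b30 b353 b370 b65 b705 (k8 b614 b337 i1723 b384 i1681 b1839 b1811 b70 (k2 i1988 b409 k0))) (by decide +kernel)
def b1841 : PP 8 4 T 0x1000000000000000501000015000010020000000015000000000000000208000002 := rS 0x935c99c6033 (k4 b372 b82 i450 i1404 (k2 i1509 i2040 k0)) (by decide +kernel)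
def b1842 : PP 8 4 T 0x201200000000000080000000000000000000000000000500000100000050408000000 := rS 0x4393d56b129abd065528924dc6154c55105b2b89c98422087812fc (k8 b1624 b291 b1836 i182 b272 b143 b1725 i442 (k8 b81 b350 b2 b338 b137 b144 i1008 b666 (k8 b30 i2918 b76 b326 b382 b359 b293 b1706 (k1 b1840 k0)))) (by decide +kernel)
def b1843 : PP 8 4 T 0x400000000000001000000001000000440400141000100148400000005000004000010000108000000 := rS 0x324f1d8f319682cd774f (k8 b111 i1684 b1839 b455 b292 i1071 b198 b680 (k2 b640 i1711 k0)) (by decide +kernel)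
def b1844 : PP 8 4 T 0x1200000000000080000000000000000040000000000000000000000041408000000 := rS 0xb81999d9ed059a75774f6121d1a3763afd32f05bc4cbd43499f8fa8566c40422714974984b3194484002281596592a99592a703b049ea955ac4a6ad5780c82098aa0d104937185f8354a9d5cb0d38878e6a1 (k8 b94 b390 b1836 b287 b50 b1305 b1582 b643 (k8 b125 b1624 b137 b144 i1008 b350 i2918 b2 (k8 b291 i182 b51 b76 b405 b326 b382 b359 (k8 b338 b293 b56 b31 b18 b288 b9 b30 (k8 b43 b145 b1838 b139 b317 b272 b666 i447 (k8 b436 b143 b678 b1726 b1725 b1841 b432 b370 (k8 b64 b65 b705 i1321 b337 b1842 b362 i852 (k8 b325 i1060 i1724 b4 b374 i964 b1843 b1720 (k8 b135 i1944 i1906 b1839 b455 i1147 i658 i291 (k2 i2040 i1404 k0)))))))))) (by decide +kernel)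
def b1845 : PP 8 4 T 0x1000000000000000400000015000014020000000055000000000004000008000020 := rS 0x172c9 (k2 i612 i1404 (k1 i2040 k0)) (by decide +kernel)
def b1846 : PP 8 4 T 0x1002000000000000400000000000100140000000804000000000000000008000020 := rS 0x166d154ac55e61 (k4 b137 b76 b382 b338 (k2 i2424 i633 (k1 b455 k0))) (by decide +kernel)
def b1847 : PP 8 4 T 0x1102000001000000604000000000100045000000044000010000001045508008020 := rS 0x39683129cc7359e6248d789a4ea2908b36206d (k8 i2447 b432 b370 i523 b1760 b1582 b1701 b1720 (k8 i1129 b325 b414 b1846 i409 b308 i2032 b1591 (k2 i1880 i652 k0))) (by decide +kernel)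
def b1848 : PP 8 4 T 0x1102000001000000400000000000114065000000054000010000000045408048020 := rS 0x688e02ac2640c464a955ab4c221 (k8 b1584 b137 b405 b359 b338 b1845 i69 i285 (k4 b1847 i2173 i290 i651 (k1 b891 k0))) (by decide +kernel)
def b1849 : PP 8 4 T 0x1000000000000021004000000001000005000000000000000000000055508008020 := rS 0x62b1c706b (k4 i2424 i652 i409 i1879 (k1 i2032 k0)) (by decide +kernel)
def b1850 : PP 8 4 T 0x1100000001000000004000000000000045000000050000010000004045408008020 := rS 0x1ed3ed167a762c7764a3c6a753cc49e2cd880845211 (k8 i523 b1760 b1584 b432 b370 b1720 b325 b414 (k8 b1582 b125 b349 i612 b640 b339 b313 b36 (k4 b1849 b626 b637 b388 k0))) (by decide +kernel)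
def b1851 : PP 8 4 T 0x400000000000001100000001000000004000141000114065000000005000018000000045408008020 := rS 0x35d3d64d11cafd48b818c5c648d3cc48daf134c54521166c4042672b834ca75 (k8 b1582 i1049 i2302 b1583 i489 b1584 b432 b370 (k8 i523 b1760 b2 b1701 b1720 i668 b325 b414 (k8 i1051 b1850 b80 i69 b268 i1403 i1452 b1837 (k4 i652 b455 b1591 i634 (k1 b308 k0))))) (by decide +kernel)
def b1852 : PP 8 4 T 0x400000000000001001100000000000020800010000000100000000000104000000000000000008000020 := rS 0x4bd1536b25e1b0d719 (k8 b292 i2424 b308 i674 i673 i1417 b295 i1373 (k1 b300 k0)) (by decide +kernel)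
def b1853 : PP 8 4 T 0x11100000000000001800000000000000000402000100500000000000055508000000 := rS 0xd46d2d3c22685 (k4 b1520 b414 b325 b330 (k2 b505 b1498 (k1 i3130 k0))) (by decide +kernel)
def b1854 : PP 8 4 T 0x400000000000000001100000001000001800000000001100465001100154000010000014000008000020 := rS 0xf69f67b462c775cb262a21 (k8 b1584 b2 i612 i1404 b640 b339 b1852 b36 (k2 b626 b637 (k1 b388 k0))) (by decide +kernel)
def b1855 : PP 8 4 T 0x11102000001000000000000000000114060400000004500018000000045408048020 := rS 0xd11c054647934a769ec2a1b2952b1579851e35438a4228566c4042672b834ca75 (k8 b1582 i1049 i2302 b1583 i489 b1584 b432 b370 (k8 b1520 i523 b1760 b1686 b125 b349 b137 b76 (k8 b382 b338 b1848 b79 b1851 b135 i1906 i1828 (k4 b1853 b1854 i2173 i290 (k2 i651 b891 k0))))) (by decide +kernel)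
def b1856 : PP 8 4 T 0x11102000001000000000000000000010060000018000400000010000041408000020 := rS 0xd34f369ad84152d3c226784c24cfacd880850a87339741c573298c1a4d2511c262913910220121aa562af41924c275 (k8 b1582 b137 i1008 i2918 b76 b382 b338 b74 (k8 i2 i523 b272 b785 b1760 b269 b42 b66 (k8 b270 i2302 i488 i1049 b1583 b341 b678 i489 (k8 b1686 b1520 b1584 b432 b370 b65 i1321 b1855 (k8 i1059 b414 b325 b330 b404 b1720 i3130 i667 (k2 b135 i1828 (k1 b308 k0))))))) (by decide +kernel)
def b1857 : PP 8 4 T 0x400000000000001100000000000001504400815005010005005100014000000000000051408004002 := rS 0x362e8d34f330851e6b (k8 i633 b349 b1684 b745 b495 i1623 b1839 b308 (k1 i1681 k0)) (by decide +kernel)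
def b1858 : PP 8 4 T 0x400000000001001100000000000001504400815000550004001100004501000000000051408004002 := rS 0x1d99e643da7d3b1835d151e85 (k8 b1520 b349 b295 i633 b300 b281 b3 b92 (k4 b1857 i1029 b799 i1547 k0)) (by decide +kernel)
def b1859 : PP 8 4 T 0x1400000000000001100000000000001504500015005010005005100414000000000000051408004002 := rS 0x1b17469a7998428f (k8 b349 b1684 b745 b495 i1623 b409 b308 i1681 k0) (by decide +kernel)
def b1860 : PP 8 4 T 0x1001100000000000011504001155000150044410100005555540000000051408004012 := rS 0x3b33cc89d8c27cd6bda29ec6c121cad918b35fd0cfc8f429e6249b (k8 b983 b330 b414 b1520 b349 i2037 b337 i1723 (k8 b1858 b455 b1811 i1814 i965 i964 i1815 b70 (k8 i1988 i1960 b209 b300 b281 b1859 i1029 b799 (k1 i1547 k0)))) (by decide +kernel)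
def b1861 : PP 8 4 T 0x1001100001000000005004000800001540000000500000500000080000011508101042 := rS 0xcac58c0468a8f429e6245b (k8 b81 b330 b414 b1520 b349 b295 i473 b300 (k2 b481 b799 (k1 b1213 k0))) (by decide +kernel)
def b1862 : PP 8 4 T 0x201000000000000080004000000000000040000000000400000000000041408000000 := rS 0x41186d59b3ceef18b085729d2319c1b436524d927d2cb349eab29ab56a8328c542a5b2b83d2e871492caa274ca14ba630000c0eaf24aa5629b68930844502c152a7539a84dd0d441c5ca410f024c2fc (k8 b1624 b137 b291 b1836 i182 b1305 b287 b350 (k8 b50 b144 b94 b390 b1582 b643 b1844 b1856 (k8 b139 b272 b143 i653 b983 b382 b338 i1008 (k8 b76 b31 b51 b317 i447 b678 b1520 b605 (k8 b1725 b310 b436 b1726 b1706 b607 b1677 i442 (k8 b81 b230 b2 b666 i2918 i1396 b405 b326 (k8 b359 b293 b370 b361 b65 i613 i1321 b1860 (k8 b79 i465 i2263 b341 b510 b737 b1630 b268 (k8 b1720 b21 b36 b1861 i673 b455 b488 i1760 k0))))))))) (by decide +kernel)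
def b1863 : PP 8 4 T 0x101100000001000000000000000000000000000000000000000080000001408000000 := rS 0x2c080aa57 (k4 i442 b310 b432 b345 (k1 b103 k0)) (by decide +kernel)
def b1864 : PP 8 4 T 0x400000000000000001000000000000001400041154000000004410000000555540000000000008000000 := rS 0x2f68ab659afe867e (k8 i2037 b337 i1723 b1839 b1811 b70 i1988 b409 k0) (by decide +kernel)
def b1865 : PP 8 4 T 0x1000000000000080000000000000000040000000000400000000000041408000000 := rS 0xf69f8c2359e778b2e4d46706d0d949d5dd3d26c9611f4b2cd881e50ad14389c1e2989174ae4c2596caa6328908004502a9c0e4f54aad625356abc06b5208262a8344124dc617e23c6a953ab961a710f1cd4305 (k8 b1844 b94 b390 b1836 b287 b50 b1305 b1582 (k8 b643 b125 b349 b1624 b137 b144 i1008 b350 (k8 i2918 b2 b291 i182 i1396 b51 b76 b405 (k8 b326 b382 b359 b338 b293 b31 b18 b1856 (k8 b139 b317 b272 b666 i447 b310 b81 b436 (k8 b143 i442 b678 b330 b1726 b1677 b1725 b1706 (k8 i653 b1520 b414 b1863 b370 b361 b65 b1862 (k8 i613 i1321 b135 i1944 i1906 b1864 b79 i465 (k8 i2263 b473 b737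 b268 b21 b36 i1964 b120 (k2 b3 b92 (k1 b388 k0))))))))))) (by decide +kernel)
def b1866 : PP 8 4 T 0x1000000000000000000000000000000000000000000800000010000000008000020 := rS 0x1109643 (k4 b74 i2432 b272 b66 k0) (by decide +kernel)
def b1867 : PP 8 4 T 0x1100000000000000000000000000000000000000000000020100000000208004002 := rS 0x65 (k2 b1676 b1684 k0) (by decide +kernel)
def b1868 : PP 8 4 T 0x1100000000000080040004000000000148010000004115104000010000508004000 := rS 0xbfa19f9960c239b0d2077293d52ab5894d5aaf30bf16a8344264dc1e (k8 b1836 b144 i1060 b350 i2918 i1396 b1624 b137 (k8 b76 b405 b326 b382 b359 b338 b293 b1305 (k8 b31 i1563 b1631 i1695 b341 i465 i2037 b337 (k2 i1724 b1843 k0)))) (by decide +kernel)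
def b1869 : PP 8 4 T 0x1000000000000080000000000000000040000000000000000000000041408000000 := rS 0xd1599997f433f32c18654eaee9ec2438851a37639ad92f03ea14b2cd078a620572612caa6328908004502a656e272ec4cbd054a9d46aa7039cd42e527aa556b129ab55e718680d6a4104c55104937078c2fc (k8 b1624 b137 b1836 b144 i1008 b350 b2 b291 (k8 i182 i1396 b51 b50 b287 b76 b405 b326 (k8 b382 b359 b338 b293 b1305 b94 b390 b31 (k8 b18 b125 b1582 b643 b1844 b1865 b362 i56 (k8 b93 i852 i1060 b1866 b139 b317 b272 b666 (k8 i447 b310 b436 b143 i442 b1863 b1726 b1677 (k8 b370 b361 b64 b65 b325 i613 i629 b4 (k8 b374 i964 b1867 b1868 b1720 b135 i1944 i1906 (k8 b1673 b473 i465 i2037 b337 i1724 b745 b1839 (k2 i658 b455 k0)))))))))) (by decide +kernel)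
def b1870 : PP 8 4 T 0x1000000000000000000000015200010020020010001000000010000002408000024 := rS 0x19d966332a4c6659250d48843 (k8 b74 b272 b366 b66 i604 i2169 i1365 b180 (k4 i488 i1328 b907 b1845 k0)) (by decide +kernel)
def b1871 : PP 8 4 T 0x1000000000000080000000000000000000000000000000000000000002408000000 := rS 0x324cf0565830b04c47994c651210008a05a1a548e7c521fc0e7350aa556ad38c34064104c55104937078c2fc (k8 b1624 b137 b1836 b144 i1008 b350 b2 b291 (k8 i182 b51 b50 b287 b405 b359 b338 b94 (k8 b390 b31 i842 i350 i351 i204 b1828 b301 (k8 b1870 b139 b317 b272 b666 i447 i963 b69 (k8 b143 i858 i859 i1327 b328 i544 i2275 b745 k0))))) (by decide +kernel)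
def b1872 : PP 8 4 T 0x1000000000000080000000000000000040000000000000000000000000408000000 := rS 0x235a25e028023042a2a652e9b2284c7c803d8e4547350aa562af38c3482098aa20926e0f185f825 (k8 b1871 b1624 b137 b1836 b144 i1008 b350 b2 (k8 b291 i182 b50 b287 b76 b382 b338 b94 (k8 b390 b1869 b271 b379 i390 i389 i2086 b791 (k8 i1444 i1324 i1864 b58 b272 b300 b355 b74 (k4 i896 b292 i965 b1641 k0))))) (by decide +kernel)
def b1873 : PP 8 4 T 0x1200000000000080000000000000000000000000000000000000000000408000000 := rS 0x6188596692c9accac960aa556ad44254ea2572c34e2735089c56378c98c0e6d08000065521114524c2596c926e3097c0a8a2087812fc (k8 b1624 b291 b1836 i182 b1872 b1832 b318 b137 (k8 b144 i1008 i1884 b1709 b348 b1745 b139 b272 (k8 b310 b51 b317 i451 i2266 b31 i447 b279 (k8 i1774 b482 b289 b94 b390 b287 b50 b1305 (k8 b1871 b1582 b643 b350 b405 b359 b338 b56 (k8 b288 b9 b353 b43 b140 b145 b1841 i1952 (k1 b1744 k0))))))) (by decide +kernel)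
def b1874 : PP 8 4 T 0x1000000000000080404000000000000000000000010000000000000000408000000 := rS 0x35198d2953ac34e2735098c0e210000c1ec92612e867e2c95d6aad2a94d564f3ec420a4212b94a24502a288209249b8c2a97e455101e (k8 b1836 b350 b2 b1624 b338 b137 b144 i1008 (k8 b291 i182 b1872 b1832 b139 b666 b1305 b1871 (k8 b272 b1873 b1863 b65 b293 b359 b326 b310 (k8 b405 i1396 i442 b361 i2037 b337 b1709 b348 (k8 i613 b1677 b51 b317 b1867 b31 i447 b94 (k8 b390 b287 b50 b1582 b643 i1888 b745 b1746 (k1 i2264 k0))))))) (by decide +kernel)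
def b1875 : PP 8 4 T 0x1100000000000001004000000000000080000000020010020000000001408000012 := rS 0x13a68181186637259b50a5d2f8848a0f (k8 b1677 b139 b1867 b318 i2259 b1520 i2266 b1709 (k4 i1774 i1546 i963 i962 (k2 b1703 i2941 (k1 i1887 k0)))) (by decide +kernel)
def b1876 : PP 8 4 T 0x1000000000000080004000000000000000000000000000000000000000408000000 := rS 0x5dd3d7f4335328d2652ad14420f2caf59b10829084ae55b174984b5896d66000194cbe83289140a8a20824926e30aa62a880f2bc9efc (k8 b1624 b293 b76 b1836 b350 b2 b338 b137 (k8 b144 i1008 b291 i182 b1872 b1832 b139 b666 (k8 i2918 b318 b326 b51 b317 i2265 i1884 b382 (k8 b1709 b348 i2259 b1811 b1305 b1871 b272 b1873 (k8 b1863 b370 i1988 b361 b1677 b1867 b70 b310 (k8 b1875 i1888 b1874 b1746 b79 i1453 b88 i1946 (k1 b409 k0))))))) (by decide +kernel)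
def b1877 : PP 8 4 T 0x1000000000000080000000000000000000000000000000000000000000408000000 := rS 0xca062ee9ec23e9659b1082a1cba292b954204c1589ca2420012c6e452d814bf194509492838a9056a6e01a203c6157ab4a6b155aa49e097e29c0ee5 (k8 b1305 b31 b18 b1624 b291 b293 b338 b359 (k8 b382 b326 b405 b76 b137 b1836 b350 b51 (k8 b144 i1396 i182 b2 i2918 i1008 b1871 b1872 (k8 b279 b318 b1832 i1884 b139 i1774 b1709 b317 (k8 b272 b666 b289 b482 b348 i451 b310 i442 (k8 b1745 i2259 b1706 b1873 b1863 b370 b361 b65 (k4 b1876 b135 i1944 i1953 (k2 b1864 i465 k0)))))))) (by decide +kernel)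
def b1878 : PP 8 4 T 0x1000001000000080000004148000000000100000000000000000000054048001000 := rS 0x319746c595147ca372b0c44fd (k8 b359 b1877 b89 b1305 b423 b767 b58 b395 (k4 i665 i666 b1586 i1679 k0)) (by decide +kernel)
def b1879 : PP 8 4 T 0x1000000000000080000000000000000040000000001000000000000000008100020 := rS 0x1a2a90884dfa635532d5b0472a941e0d1882c124703b05464a2210c8222 (k8 b1877 i2137 b74 b272 b66 b423 b56 b31 (k8 b42 b312 b311 b299 i522 b284 b134 b1305 (k8 b341 b118 b145 i2027 i2305 b359 b269 i523 (k2 i572 i651 (k1 b1152 k0))))) (by decide +kernel)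
def b1880 : PP 8 4 T 0x1000000000000080000000000000000040000000001000000000000000008000020 := rS 0x16caf40ac5e2140f9bc521113804a62b4299cee4a649a5fa515532d5b0472a941e0d1882c12472210c8207609fc44a3 (k8 b423 b1877 i1663 b56 b31 i2137 b74 b272 (k8 b42 b312 b311 b299 i522 b284 b134 b1305 (k8 b341 b118 b145 i2027 i498 b359 b140 i611 (k8 b66 b356 i490 b932 i391 i564 i2 b785 (k8 i523 b1760 b1105 b144 b1879 b404 b1587 b1438 (k2 i587 b1878 (k1 b1302 k0))))))) (by decide +kernel)
def b1881 : PP 8 4 T 0x1000000000000080000000000000000040000000000000000000000000008000020 := rS 0x2d962af78a0428b45987e1a4e37180a27d31d0dfa2b5521596695699e08532511c1227223241a290890402430581d82e5189de220f529fc44a3 (k8 b423 b1877 i1663 b134 b284 b296 b356 b299 (k8 b1305 b56 b31 b311 b74 i2 i2137 i523 (k8 b1760 i522 i611 b272 b785 b312 b42 b66 (k8 i564 b341 i490 b118 b140 b145 b932 i2027 (k8 i391 b359 b104 i2305 i1596 i498 b1880 i1047 (k8 i1048 b397 i1269 i2914 b315 b1600 i1402 b404 (k4 i587 b1587 b1878 b1302 k0))))))) (by decide +kernel)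
def b1882 : PP 8 4 T 0x1002000000000080400000010000000000000000000000000400000000008001000 := rS 0xab0482c0ec15183d4a22 (k8 b1877 b134 b284 b423 b56 b31 b311 b291 (k2 b359 i2027 k0)) (by decide +kernel)
def b1883 : PP 8 4 T 0x1001000000000080000000440000000000100000000040800000000054048100000 := rS 0xb05b5147e83538f5421d (k8 b126 b94 b38 b18 i922 b1376 b1609 i2031 (k2 b395 i1823 k0)) (by decide +kernel)
def b1884 : PP 8 4 T 0x1200000000000080000000004000000040000000000000000000000040048000000 := rS 0x226835b9e1987b674611a6d68d155cb3382a172815ac34a474328c8c22d3181c2a5b288a4962733c44ee8f12bf41a572610882c9228000a031132d5a47 (k8 b383 b118 b145 b1877 b276 b1881 b317 b139 (k8 b288 b571 b272 b143 i2258 i1569 b1882 i47 (k8 b349 b356 b296 b695 b1725 b436 b1726 b238 (k8 b81 b230 b31 i447 b128 i960 b106 i1546 (k8 b109 b1294 b121 i883 b1509 i1066 b1171 i575 (k8 i2439 b1883 b410 i2401 i593 i1925 b120 b1169 (k4 b92 i1068 i1067 i801 (k2 i894 b414 (k1 b368 k0))))))))) (by decide +kernel)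
def b1885 : PP 8 4 T 0x1200000000000080000000000000000040000000000000000000000040048000000 := rS 0x7b682091a3f1bbc1329738a0513145bc30dea9299f686aa538f5421d889fd46611698c0e5927944524b13bf41a572610882c9228000a031132d5a47 (k8 b383 b118 b145 b1877 b276 b1881 b317 b139 (k8 b288 b571 b272 b143 i2258 i1569 b1882 b1725 (k8 b436 b1726 b238 b91 b43 b31 i447 b128 (k8 i960 b423 i1663 b296 b126 b94 b38 b18 (k8 b1884 b104 i1595 b1298 i574 b1105 b108 b1448 (k8 b342 b169 b138 b334 b364 b133 b1300 b374 (k4 b119 i964 i2031 b1085 (k2 i815 i654 k0)))))))) (by decide +kernel)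
def b1886 : PP 8 4 T 0x1200000000000080000000000000000040000000000000000000000040008000000 := rS 0xf3f41a572610882cb5691d9245000140622 (k8 b1877 b276 b1881 b317 b139 b288 b383 b118 (k8 b145 b571 b272 b143 i2258 i1569 b1882 b1885 (k1 b1068 k0))) (by decide +kernel)
def b1887 : PP 8 4 T 0x1100000000000000000000000000000000000000000000010000000000808000010 := rS 0x16590403390c4a748b914ca32 (k8 b106 i1546 b139 b80 b109 i47 b143 i1588 (k4 b272 b339 i866 i1064 k0)) (by decide +kernel)
def b1888 : PP 8 4 T 0x1100000000000000000000000000000000000000000000000000000000808000010 := rS 0xcc57211306277889d22e32478940003 (k8 b276 b317 i47 b349 b106 b80 b109 b296 (k4 b356 b299 b1887 i445 (k2 i2258 b1034 (k1 b695 k0)))) (by decide +kernel)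
def b1889 : PP 8 4 T 0x1000000000000080000000000000000040000000000000000000000000008000000 := rS 0x662b930844115326080022814067788a3c4a22 (k8 b1877 i47 b349 b296 b356 b276 b1881 b139 (k8 b317 b1888 b288 b1886 b571 b272 b143 i2258 (k2 b1297 b695 k0))) (by decide +kernel)
def b1890 : PP 8 4 T 0x1200000000000080000000000000000000000000000000000000000000008000020 := rS 0x18a6d089284e4406804863107b0c2a134500cd647349059222 (k8 b1877 b288 b571 b140 b383 b353 b276 b1889 (k8 i1882 b417 b89 b284 b299 b74 i2 i522 (k4 b272 b785 b66 i484 (k2 i2311 b481 (k1 b536 k0))))) (by decide +kernel)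
def b1891 : PP 8 4 T 0x1200000000000080000000000000000000000000000000000000000040008000000 := rS 0x2fe86aa5caf55d455487d76fd6353cce0d40a0de2cc4cac452572e94566103698cc24c13908004b1b9140a5b6792482cb34ab4b247359959207518b5ca033bc45868f129550e7419088be8a (k8 b1889 b318 b1877 b106 b109 i3020 i2945 i47 (k8 b349 b89 b296 b356 b276 b1305 b128 b423 (k8 b31 b288 b9 b353 b383 b43 b118 b140 (k8 b145 b571 i1010 i1978 i1884 b1890 b139 i1774 (k8 b1709 b317 b272 b289 b348 i960 i447 i2266 (k8 i451 i2265 b238 i2259 i2258 b1745 i1886 i1939 (k8 b614 b78 b1319 b1116 i1569 b695 b329 b1453 (k8 b1882 i1679 b1068 b1170 b1609 b395 i1986 b708 (k4 b1171 b104 i1721 b409 k0))))))))) (by decide +kernel)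
def b1892 : PP 8 4 T 0x1100000000000080000000000000000000000000000000000000000000008000000 := rS 0x8c44069048604728c41e22 (k8 b1877 b284 b299 b1305 b1888 b74 i2137 i522 (k2 b272 b341 (k1 b42 k0))) (by decide +kernel)
def b1893 : PP 8 4 T 0x1000000000000080000000000000000000000000000000000000000000008000000 := rS 0x6e2a02c12328a (k4 b1889 b279 b1892 b1890 (k2 b1891 i1774 (k1 b482 k0))) (by decide +kernel)
def b1894 : PP 8 4 T 0x201202000000000000000000000010000000000000000000400000000000048000040 := rS 0xa27f0e434fa552c93d56d3 (k8 b1893 b359 b293 b43 b30 b65 b1758 b304 (k2 b274 i1229 (k1 b705 k0))) (by decide +kernel)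
def b1895 : PP 8 4 T 0x1000000000000000000000000010000000000000000000200000000000048000040 := rS 0x761ad3 (k4 b1893 b32 i1229 b304 k0) (by decide +kernel)
def b1896 : PP 8 4 T 0x101002000000000001404022000000000041400820004000008004000245408000020 := rS 0x1187968a652eb3890e576a74ed3de29f6326d0e2908aa55f4362b9042bf (k8 i1456 b340 b432 b75 b425 b76 b338 i523 (k8 b1760 i933 i1447 b179 i1715 b1720 b53 b280 (k8 i337 i1680 i299 b325 b1839 i1410 i981 i652 (k2 b414 b942 (k1 i1051 k0))))) (by decide +kernel)
def b1897 : PP 8 4 T 0x1202000000000000004000000000000040000000004004000200000040468000020 := rS 0x5c7816e2682669d970957224c62215a1f47e6f380b0fe652a9655acb268941e5f148451e27208049ea955c44a6515082c0e85339299269 (k8 b140 b288 b66 i489 b932 i2301 b347 i308 (k8 b1895 i2386 b1894 b359 b338 b293 i2 i22 (k8 b785 i1132 i523 b1760 i644 b283 i346 b270 (k8 b145 b118 b43 b30 b9 b274 b99 b117 (k8 b267 i1422 i1234 i2037 b340 b778 i1369 b432 (k8 i978 b165 b1106 b676 b1896 b33 i775 b325 (k2 b330 b1115 k0))))))) (by decide +kernel)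
def b1898 : PP 8 4 T 0x101202000000000000000000000080004000000404044000000200001000408000000 := rS 0xb62a9444ae46665658bd1e4a64aa556d3 (k8 b1893 b359 b338 b288 b66 i1132 b392 b145 (k8 b9 b1110 b1106 i280 b165 b435 i978 b352 k0)) (by decide +kernel)
def b1899 : PP 8 4 T 0x1202000000000000000000000000000000000000004004400200000000458001040 := rS 0x5b15449c12a7651295c89318b0442b4379fcfb0c2a91cb2ad658245e2507a3d924f55c44a2a10599c94d3 (k8 b1893 b66 i489 b347 i308 b1895 b1894 b359 (k8 b293 b288 i1132 b283 i346 b392 b312 b145 (k8 b118 b43 b383 b30 b304 b34 b141 b397 (k8 i2037 b340 i1247 b778 i1369 b432 b430 i2027 (k4 b1898 i1675 i807 i281 (k2 b334 i1239 (k1 b352 k0))))))) (by decide +kernel)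
def b1900 : PP 8 4 T 0x1202000000000000000000000000000040000000004004000200000040448000020 := rS 0x85cab4611f4fe1c2a9655acb1283c1a4f55c44a6515082c0e4a (k8 b66 i2301 b347 i308 b1895 i2386 b1894 b359 (k8 b293 i2302 b283 i346 b145 b118 b43 b30 (k8 b1899 b274 i1234 b1897 i2037 b52 b340 b432 k0))) (by decide +kernel)
def b1901 : PP 8 4 T 0x1000000000000000000000000010000000000008000000000000000000048000000 := rS 0x4343ad3 (k4 b1893 b267 b397 b304 k0) (by decide +kernel)
def b1902 : PP 8 4 T 0x101202000000000000000000000080000000000004044008000200001000408000000 := rS 0x1dd262f (k4 b392 i1634 i1627 b1898 k0) (by decide +kernel)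
def b1903 : PP 8 4 T 0x11202000000000000000000000000000040000000000000000200000040448000020 := rS 0x26d32b3688dd1a5c7816d2f13412e07e70162d0385f148449ea9579850a272080586cd3b198dea252ab582cb0491d5631720941e0d2b18ca3115082c0e532513592d3 (k8 b1893 b288 b270 b66 i2386 i2301 b347 i308 (k8 b1894 b1895 i487 b1900 i2302 b283 i346 b1583 (k8 b273 b359 b383 b312 b145 b346 b118 b430 (k8 i2027 b1901 b1902 i490 b676 b52 i2 i22 (k8 b785 b931 b137 b76 b338 b293 i523 b1760 (k8 i644 b304 b581 b99 b117 i1422 i808 b1896 (k8 b33 b406 i775 b325 b330 i1052 b374 b306 (k4 i513 i980 b983 b942 k0)))))))) (by decide +kernel)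
def b1904 : PP 8 4 T 0x101000001000000001010004100000000051500054081000010000000445508040420 := rS 0x2d8aa60f6974db453ac6539e50e14890a422d3 (k8 b1893 i523 b1760 b325 b439 b0 b414 i330 (k8 b179 b280 i658 b983 b984 b637 b421 b133 (k2 i981 b352 k0))) (by decide +kernel)
def b1905 : PP 8 4 T 0x101000000000000001014004100090000051500050081008010000000445558040420 := rS 0x2f68abba7a997e861f8f58ef014846866f (k8 b1901 b98 i523 b1760 b1904 b4 b324 b119 (k8 b1720 i1719 i2031 b111 i3006 b122 i1984 b409 k0)) (by decide +kernel)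
def b1906 : PP 8 4 T 0x1000000000000001004001000080000001800000000008000000000055508000000 := rS 0x1774f5fa198ef05ec4e8b43 (k8 b98 b303 b33 i1415 b325 b4 b1720 i1719 (k2 b111 i3006 (k1 b409 k0))) (by decide +kernel)
def b1907 : PP 8 4 T 0x1000000000000000000000000000000010000020000000000000000400018000000 := rS 0xb62ad3 (k4 b1893 b334 i1239 b352 k0) (by decide +kernel)
def b1908 : PP 8 4 T 0x101000000000000001014004100090000051100840081008010000000445558040420 := rS 0x825a9c45211 (k4 i523 b1760 b1907 i807 (k2 b1905 b1906 k0)) (by decide +kernel)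
def b1909 : PP 8 4 T 0x1202000000000000000000000000000040000000000000000200000040448000020 := rS 0x9b4cacda23746971e05b4bc4d04b45c4547e701607102b78633512764ac5ccc6f49d0d44a5628c586c110a15c8563194622c923ab59613048bc9a250797c5211298340e27208049eab58abcc27354929420b (k8 b347 i308 b66 b338 i1093 b137 b76 b382 (k8 b359 b293 i2 i22 b785 i2301 i2302 i2386 (k8 i523 b1760 i644 b283 i346 b270 b392 b312 (k8 b269 b145 b118 b383 b288 b1894 b1895 i487 (k8 b1900 b1583 b931 i1497 b346 b52 b273 b75 (k8 b430 i2027 b98 i1634 b1901 b1902 b85 i1673 (k8 i490 i281 b676 b1903 b101 b138 b1908 b99 (k8 b117 i1422 b334 b268 i1407 b1896 b33 b406 (k8 i775 b325 b330 i1052 b374 b306 i513 i980 (k2 b983 b942 k0)))))))))) (by decide +kernel)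
def b1910 : PP 8 4 T 0x1000000000000000404000141200000045000008005000008000008045408000020 := rS 0x178b26323532c53ca7624d1788e452113395c1a3166c4042e5 (k8 b430 b372 b432 b370 i69 i2302 b1583 i489 (k8 i523 b1760 b1837 b1720 i652 b325 b510 b414 (k4 i1615 i1059 i1051 i2032 (k2 b455 i415 (k1 i1413 k0))))) (by decide +kernel)
def b1911 : PP 8 4 T 0x1202000000000000000000000000000040000000000000000200000040408000020 := rS 0x688e02ac21919d2a573aa4dca8543a90bac131a8cdc8838878c2af05ac556a9329548ead658d426091283cbe29089241a072509c8201 (k8 i2 i22 b785 b66 i2301 i2302 i29 i523 (k8 b1760 i644 b283 i346 b312 b269 i354 b145 (k8 b118 b383 b30 b9 b338 b359 b382 b347 (k8 b76 b137 b1909 b287 b350 b144 i240 i488 (k8 i2856 b678 i2027 b646 b1520 b430 i1365 b1582 (k8 b1583 i1057 i489 b1845 b1910 i369 i290 i651 (k1 b891 k0))))))) (by decide +kernel)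
def b1912 : PP 8 4 T 0x1001000000000000020000040080000000000000100000000000000000008000040 := rS 0x2cd743c (k4 i1654 i1653 i1253 b1134 k0) (by decide +kernel)
def b1913 : PP 8 4 T 0x1201000000000000000020101008000040000000005000000004000000008201140 := rS 0x2889a59994d64765a6628af (k8 i588 b342 b133 b145 b383 b353 b9 b228 (k2 i1189 b395 (k1 b351 k0))) (by decide +kernel)
def b1914 : PP 8 4 T 0x1200001000000001004020101080000041000000001000000204000040508000020 := rS 0x2fd649b688e53ebba7b198a8d579e50e14891a596290884c4a0f0689c8201a1a5d3314318281207250bdfad3 (k8 b1893 b1911 b392 b66 i2301 b312 b431 i534 (k8 b342 b133 b364 b422 i2 i22 b785 i2302 (k8 b283 i346 b269 i523 b1760 b145 b140 b325 (k8 b439 b0 b414 i588 i1051 b1912 i2032 b53 (k8 i1680 b1913 i299 i652 b983 i2041 i1457 b1839 k0))))) (by decide +kernel)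
def b1915 : PP 8 4 T 0x1200002000000001004000000000000001000000000404000000000055508051000 := rS 0xb86c430558a0f359548e69 (k8 b140 b383 b30 b353 b283 b297 b404 b1720 (k2 b536 b646 (k1 i515 k0))) (by decide +kernel)
def b1916 : PP 8 4 T 0x1200000000000001004020001080000040000000000004200204000040508000020 := rS 0x8158449e2131283cbe29088344e4100a14cec934984924a (k8 b66 i29 i1312 b140 b288 i489 b932 i2 (k8 i22 b785 i2302 i523 b1760 i644 b283 i346 (k4 b269 b1915 b325 b1914 (k2 b60 i1315 k0)))) (by decide +kernel)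
def b1917 : PP 8 4 T 0x1200000001000001000020001000000040000000000004200204000040508000020 := rS 0x688e02ac21928827438bb046a3152829fa09039281ed3 (k8 b1893 b283 b66 i2301 b312 b1911 b431 i361 (k8 i987 i354 i1250 b387 b422 b269 b428 b335 (k4 b1916 i369 i290 i651 (k1 b891 k0)))) (by decide +kernel)
def b1918 : PP 8 4 T 0x1200000000000001000000004000000040000008000004000200000040408000020 := rS 0xd01cacd3ea746ac58caf3ca050e148928de2c561b90429960c5170611f94140a90e8d426252f8a42249298344e410087cc62f52829fa090383d0a6725324d2d3 (k8 b1893 b140 b288 b66 i489 b932 b283 i2301 (k8 b312 b1911 b431 i361 b392 i534 b367 i2 (k8 i22 b785 i2302 i2386 i29 i523 b1760 i644 (k8 i346 b269 i354 b267 i1056 b1901 i309 i402 (k8 i1312 b1171 b342 i1250 b133 b672 b1917 b52 (k8 b75 b1915 b1916 b325 b439 b0 b60 b414 (k8 i588 i2032 i1315 i1051 i336 b1913 i660 i299 (k2 b455 i652 k0)))))))) (by decide +kernel)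
def b1919 : PP 8 4 T 0x2821000000000000000000000000080000040000040000000000008000000008000820 := rS 0x1a2ae1ca5d0679 (k4 b414 b33 b364 i2180 (k2 i401 i652 (k1 b820 k0))) (by decide +kernel)
def b1920 : PP 8 4 T 0x201200001000000000004020005090000041000004000000000200000040408000020 := rS 0x689e8729b1e2c07ea7599396e7f86144aa592694c3ecd3e9cd2e998a18c5e61108c54a0a7e8240e4a07874e2b50a04d06813cc4852111390402d3 (k8 b1893 i2 i22 b785 i523 b1760 b325 b414 (k8 b60 b33 b269 b439 b277 i1407 b117 b283 (k8 b66 i2301 b312 b1911 b431 i361 i987 b82 (k8 i1047 b392 i534 b342 b133 b364 i1093 b65 (k8 b370 b367 i2386 b270 b43 b30 b1895 b304 (k8 b1054 b101 b705 i1429 i331 b1919 b1914 i2031 (k4 i1297 i1877 b421 i652 (k1 b637 k0)))))))) (by decide +kernel)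
def b1921 : PP 8 4 T 0x201200000001000000004000005000000040000000000004000200000040408000020 := rS 0x3f282814543608d5e22118ae0c62f309bd4a0a7e8240ecd4299d926913904020d2517c4a0f098a422d3 (k8 b1893 i523 b1760 b269 b283 i346 i644 b66 (k8 i2302 i2 i22 b785 b140 b288 i489 b932 (k8 b370 i2301 b312 b1911 b431 i361 b1918 i1047 (k8 b392 i534 b1171 i987 b82 b1915 i354 i1250 (k4 b422 b428 b1920 i309 (k2 i402 b1917 k0)))))) (by decide +kernel)
def b1922 : PP 8 4 T 0x201200001000000000004020005010000041000004000000000200000040408000020 := rS 0xfea328894a61f3eb046a2118a9414fd0481c940f0e9c56ad3 (k8 b1893 b277 i1407 b117 b283 b66 i2301 b312 (k8 b1911 b431 i361 i987 b82 i354 i1250 b65 (k4 b367 i2386 i346 b1895 (k2 b1920 b1054 (k1 i2030 k0))))) (by decide +kernel)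
def b1923 : PP 8 4 T 0x201200000000000000004000005000000040000000000004000200000040408000020 := rS 0x68acc72a74fa8d62af1f94140c662b911a7940a1c29127884c4a5f148441a27208050ac934a66282118ae0ce6317984decd52829fa09039281ed3 (k8 b1893 b283 b66 i2301 b312 b1911 b431 i361 (k8 b370 b1918 i1047 b392 i534 i489 b1171 i987 (k8 b82 b342 b133 b140 b288 b932 i2 i22 (k8 b785 i2302 i523 b1760 i644 i346 b269 b1915 (k8 b325 b439 b0 b60 b414 i1051 b1921 b75 (k8 i2032 b1922 i309 i402 i2316 i1315 b1916 b1913 (k4 i336 i299 i660 i652 (k1 b455 k0)))))))) (by decide +kernel)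
def b1924 : PP 8 4 T 0x201200000000000000000000005000000040000000000004000200000040408000020 := rS 0x38688c82ae5610c62eb81a84cc62f52829fa090383cce6137b3494d3 (k8 b1893 b66 b370 b1918 i1047 i489 b283 i2301 (k8 b312 b1911 b431 i361 b392 i534 b269 i354 (k8 b1171 b387 i987 b1923 b52 i369 b335 i651 (k2 i290 b891 k0)))) (by decide +kernel)
def b1925 : PP 8 4 T 0x1201000000000001004001004150000021050000000404080000000055558051000 := rS 0xb66d572c68ab35f2ed065d43af5243089301e26b2a9655a695ba0618d3 (k8 b1893 b304 b138 b101 b140 b118 b43 b30 (k8 b353 b1915 i2030 b325 i1345 i1344 i1252 b0 (k8 b22 b33 i2938 i2047 i1429 b63 i1299 b395 (k2 i593 i1922 (k1 b614 k0))))) (by decide +kernel)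
def b1926 : PP 8 4 T 0x1200001001000000004000000010000060000000040000008000000144208040820 := rS 0x1f8f470d053a0cda1489324ca69148441ab740c303e1d63b3c60d3 (k8 b1893 b82 i989 i1690 b99 b367 b304 b138 (k8 b101 i2302 i523 b1760 b140 b9 b288 b325 (k8 b439 b1586 b33 i2164 b1772 i652 i1878 i2178 (k1 i2031 k0)))) (by decide +kernel)
def b1927 : PP 8 4 T 0x1200002000000000004000000010000060000000000404000000000044018041820 := rS 0x106a72e8e5666c688fc7a156283cd647348a422b740c303ed3 (k8 b1893 b367 b304 b138 b101 i523 b1760 b140 (k8 b383 b353 b283 b297 b404 b324 b119 i651 (k4 b536 i659 b891 i515 (k2 i282 b1319 (k1 i2031 k0))))) (by decide +kernel)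
def b1928 : PP 8 4 T 0x801000000000000001000010000080020441000500000000010008008000008000020 := rS 0xf4cf68a7d3aba1ca5d0e79 (k8 b414 b0 b416 i2180 i407 i1678 i1712 i652 (k2 i1951 b388 (k1 b637 k0))) (by decide +kernel)
def b1929 : PP 8 4 T 0x801001000000000001000010000090000461040100100000010000000544048200060 := rS 0x9d4f9ed9e391b2658a3c578fcee94190a422b740c303a87419e54ed3 (k8 b1893 i2164 b414 b33 b0 b99 b304 b138 (k8 b101 i523 b1760 i280 i281 i1675 b1928 i588 (k8 i2031 b1912 i1786 i1347 i1878 i1104 i1775 b209 (k2 i1779 b388 k0)))) (by decide +kernel)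
def b1930 : PP 8 4 T 0x201200000000000000004000004000000040000000000004000200000040408000020 := rS 0x39440a30a449e213179344a5f148441a8f139043ea5050240e0f4299d9269669d56ab9442843a2d00938fefd28aa0b2553e94c94d3 (k8 b1893 b66 i2386 b65 b30 b43 b1924 i2313 (k8 b1911 b1054 b705 i2 i974 b99 i309 i573 (k8 i1140 b277 b426 b370 b140 b288 i489 b932 (k8 b283 i2301 b312 b431 i361 b367 i22 b785 (k8 i1132 i2302 i523 b1760 i644 i346 b270 b392 (k8 b269 b1927 b325 b439 b1929 b1925 b130 b1926 k0)))))) (by decide +kernel)
def b1931 : PP 8 4 T 0x201200000000000000000000004000000040000000000004000200000040408000020 := rS 0x361711acf4116c66a71e8e566f0688fc2ae5612056f0c0ea85102d28aa19265359a426252f8a42227208043ea5053f412070799c94d3 (k8 b1893 b66 i489 b283 i2301 b312 b1911 b431 (k8 i361 b367 i2 i22 b785 i523 b1760 i644 (k8 i346 b269 b140 b353 b9 b288 b1924 i2313 (k8 i974 i573 i309 b99 b304 b101 b138 b1930 (k8 b52 i369 i375 i651 b439 i659 b891 b324 (k8 i282 i290 b897 i2031 b639 i1052 b1319 b1191 (k1 i515 k0))))))) (by decide +kernel)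
def b1932 : PP 8 4 T 0x1200000000000000004000005010000040000000000004000200000040408000020 := rS 0x689e8729b4fb19607941a1d02b71fc498b0c513c5c81d5ab3442994b9c4ec3160d0e28b8309f4fe6f28ab46a1326894be290894c1a8f13904021f318bd4a0a7e8240e0f4299d9269889cc94d3 (k8 b1893 b66 i1093 b1931 b140 b288 i489 b932 (k8 b283 i2301 b312 b1911 b431 i361 b392 i534 (k8 b367 i2 i22 b785 i1132 i2302 i2386 i523 (k8 b1760 i644 i346 b270 b269 i354 b118 b1895 (k8 b1901 b1054 b1427 i1047 b1171 b342 b422 i1250 (k8 i987 b1106 b334 b364 b133 b82 b676 b1104 (k8 b117 b432 b1915 i2030 b315 b75 b325 b1919 (k8 b101 b138 b0 b33 b414 b1914 i2032 i1715 (k4 i1297 i299 b421 i652 (k1 b637 k0)))))))))) (by decide +kernel)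
def b1933 : PP 8 4 T 0x1200000000000000004000005000000040000000000004000200000040408000020 := rS 0x1a0b31caee9e8d58afd3ec6579e502870a4498aa378b919a213f1d932c13ed0d26958a2e0c23f5a9421a1d501955acb1a84c9a252f8a4224906a3c4e410098c5ea5053f4120707a14ce4a649a622d3 (k8 b1893 b1931 b140 b288 b66 i489 b932 b283 (k8 i2301 b312 b1911 b431 i361 b392 i534 i2 (k8 i22 b785 i1132 i2302 i29 i523 b1760 i644 (k8 i346 b270 b269 i354 b145 b118 b9 b1932 (k8 i89 b321 i309 i880 i402 i1312 b1171 b342 (k8 i131 i130 b422 i1330 i1250 b133 b693 b315 (k8 b672 b676 b432 b1915 b1916 b75 b325 b439 (k8 b0 b60 b414 i2316 i2032 i1715 i1723 i1315 (k4 i1051 b53 i1679 i299 (k2 b1839 b455 (k1 i652 k0))))))))))) (by decide +kernel)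
def b1934 : PP 8 4 T 0x101200001001000000004000000010000060000000040000000200000140408000020 := rS 0x20098941e272080414fd0481c94d3 (k8 b1893 b66 i2301 b312 b1911 b431 i2 i22 (k4 b785 b283 i346 b269 (k2 b432 b1926 k0))) (by decide +kernel)
def b1935 : PP 8 4 T 0x101001000000000001181000004550000560450000005000000000000045518000820 := rS 0x1184b34478391f8cd5ebf3bd0d76b4148456e818607e9ed3 (k8 b1893 b53 b367 b304 b138 b101 i523 b1760 (k8 i2030 i1679 b425 b1104 i1456 b1563 b1110 i401 (k4 i298 i2031 i652 i1346 (k2 b120 b26 k0)))) (by decide +kernel)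
def b1936 : PP 8 4 T 0x1200000000000001004000004000000040000000000004000200000040408000020 := rS 0x1d064a2631344a8f0f98c5ea507a15926930ae4fe7d5694d0e83538511a79893058a21723c43a0a7e8240e2720834be290884d4251440b550018899c94d3 (k8 b1893 b66 i489 b1931 i2 b1933 i974 i573 (k8 i2313 i309 b269 i523 b1760 i644 i2302 i22 (k8 b785 i2301 b312 b1911 b431 b99 b1927 b1934 (k8 b130 b75 b346 b325 b414 i1051 b439 i2164 (k8 b33 b0 i2386 b118 b1427 b1054 i1140 i96 (k8 b140 b288 b932 b283 i361 b392 i534 b367 (k8 i1132 i346 b270 b179 b1935 i280 b1929 i1585 k0))))))) (by decide +kernel)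
def b1937 : PP 8 4 T 0x1200000000000000004000004000000040000000000004000200000040408000020 := rS 0x8cb452c361e33042e446a9cf21489431e21d50a205a515404c4a0f2f8a4220d13904021f053f412073392a22d3 (k8 b1893 b1931 b66 i489 i2301 b312 b1911 b431 (k8 b367 i2 i22 b785 i2302 i523 b1760 i644 (k8 b283 i346 b269 b1933 i2313 i974 i573 i309 (k8 b99 b1927 b304 b325 b439 b414 i2164 i1051 (k8 b1934 b130 b1936 b815 i1347 i1346 i990 b26 (k1 b120 k0)))))) (by decide +kernel)
def b1938 : PP 8 4 T 0x1200000000000000000000004000000040000000000004000200000040408000020 := rS 0x538756ea1440b4a28354204baaf3e9850e6c5c9bd9e3d1c9d860cd19acde0d1100fc2ae561444cec9329acaa6909894be290894c4e410087cc62f52829fa09039281ed3 (k8 b1893 b283 b66 i2301 b312 b1911 b431 i361 (k8 b392 i534 b367 i2 i22 b785 i2386 i523 (k8 b1760 i644 i346 b269 b140 b30 b353 b9 (k8 b288 i489 b1931 b1937 b52 i369 i375 b432 (k8 i651 b439 i659 b372 b45 b82 b87 b891 (k8 b324 b639 b1918 i987 b1561 b636 i1047 i1630 (k8 i593 i515 b1783 b1171 b1319 i2313 i974 i573 (k4 i309 b1302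 b99 i282 (k1 i2031 k0))))))))) (by decide +kernel)
def b1939 : PP 8 4 T 0x101001000000000001111000004550000565450000005000000000000045518000820 := rS 0x3185211 (k4 i523 b1760 b179 b1935 k0) (by decide +kernel)
def b1940 : PP 8 4 T 0x101001001000000000111000004150000061050000004000008000000045518040820 := rS 0x232d14b0d878cc46a9cf283438522401148451e6137c303ed3 (k8 b1893 b367 b304 b1901 i1047 i1132 i523 b1760 (k8 i2 b325 b439 b0 b33 b414 i2164 i1051 (k4 b1939 b815 i1347 i1346 (k2 i990 b26 (k1 b120 k0))))) (by decide +kernel)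
def b1941 : PP 8 4 T 0x1200000000000000000000004010000040000000040000000200000040408000020 := rS 0x58d1504a7578e5666c688fc7a15782056f0c51875102d542e466773591cd2132f8a4228f318bd4b113fa144e4100b2442c161b15c8561283c1a7d28ab4a6613787c14fd0481c94d3 (k8 b1893 b66 i2301 b312 b1911 b431 b367 b1901 (k8 i1047 i2386 b118 b1895 b1427 i2302 b283 i346 (k8 b1938 b1583 b75 b52 b346 i1497 b288 i2 (k8 i22 b785 b931 i1665 b11 i361 b392 i534 (k8 i1132 i523 b1760 i644 b269 b140 b383 b353 (k8 i1627 b1110 b1106 b1171 i974 i573 b99 i280 (k8 b304 b101 b138 b1940 b404 b324 b119 i651 (k8 b536 i659 b891 i593 i282 i2031 b303 i1296 (k1 b395 k0))))))))) (by decide +kernel)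
def b1942 : PP 8 4 T 0x801000000000000001014004000000140041500054081000010000000055508000000 := rS 0x26cf6d14eb18f287 (k8 b0 b414 i2032 b280 i658 b637 b983 b421 k0) (by decide +kernel)
def b1943 : PP 8 4 T 0x1200000000000000000000005010000040000000000000000200000040408000020 := rS 0x8d58abd365b532ccd8d1430fc7a157844d06815ba8a181d4ca5ce314359548e691484426a53fa144e410088582c362b90ac2507834e67d28ab4a6cd26ad4ec66318bcc26f0f828120725325fad3 (k8 b1893 b1911 b288 b66 i2301 b312 b431 b367 (k8 b1901 i1047 b392 i534 b1941 i490 b1104 b270 (k8 b676 i2386 b118 b1895 b1427 b390 i2302 b283 (k8 i346 b1938 b1583 b75 b52 b346 i1497 i2 (k8 i22 b785 b931 i1665 i361 b269 i523 b1760 (k8 b140 b383 b30 b353 b342 b334 b364 b133 (k8 b117 b304 i2030 b101 b138 b1906 b1942 b325 (k8 b404 b324 b119 b1720 i651 b536 i659 i2031 (k4 i777 b983 i593 i1821 (k2 i1052 i2041 k0)))))))))) (by decide +kernel)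
def b1944 : PP 8 4 T 0x1200000000000000000000004010000040000000000000000200000040408000020 := rS 0x28c3a8816aa16a764a998c27d3794592ad0094c3e6317a9414fd0481cfe2160b90ac250783494d3 (k8 b1893 b66 i2302 b283 i346 b1938 b1583 b346 (k8 i1497 i1665 i2301 b312 b1911 b431 i361 b392 (k8 i534 b367 i2386 i2 b118 b288 b1895 b1901 (k8 b1427 i1047 b1941 i1673 i490 b1104 b1943 i974 (k4 i573 b99 i281 i2030 k0))))) (by decide +kernel)
def b1945 : PP 8 4 T 0x11200000000000000000001005000014400000000045008000000000000008000000 := rS 0xeec932ab59711 (k4 b11 b145 b118 b9 (k2 b288 i1627 (k1 b693 k0))) (by decide +kernel)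
def b1946 : PP 8 4 T 0x1000001000000001014000001040100041000000084000208000000045508040820 := rS 0xb368a9d3a8d58b195e7940a1c291214844c249 (k8 i29 i1312 i523 b1760 b325 b439 b0 b60 (k8 b414 i2316 i2032 i1315 i1051 b280 i336 i658 (k2 i660 b455 k0))) (by decide +kernel)
def b1947 : PP 8 4 T 0x1200000000000000000000004000000040000000000000000200000040408000020 := rS 0x8d57a6cb6b3363450c1578334ec664ca4d2f144a985527351ad4e25044c3540c5618850ae43fc44ac6b2a91cd2290884c9a25079241a8f6489c820131829fa09039285ed3 (k8 b1893 b392 b66 i2301 b312 b1911 b431 i534 (k8 i2 i22 b785 b288 i1132 i2302 i29 b283 (k8 i346 b270 b269 i523 b1760 b140 b383 b30 (k8 b353 b1938 b11 i1665 b1583 b931 i1497 b52 (k8 b75 b1944 b321 i2160 i309 i796 i880 b579 (k8 b401 i573 i1312 b1828 b342 b364 b71 b133 (k8 b1945 i490 b676 b1946 b404 b1720 i651 b536 (k4 i659 i777 b983 i593 (k2 i1052 b936 k0))))))))) (by decide +kernel)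
def b1948 : PP 8 4 T 0x2001001001000000001000000008090000041000000100000010000000045508040860 := rS 0x1a27a1ca6c78a7633157eaf618fcf283438522429089ccde974cadd030c0e9c43ed3 (k8 b1893 b367 b334 b117 b304 b138 b101 b133 (k8 b364 b1901 b390 i523 b1760 b325 b439 b0 (k8 b33 b414 b1919 i2194 i588 i1722 b1912 i2032 (k4 i337 i2031 b393 i1877 (k2 b421 i652 (k1 b637 k0)))))) (by decide +kernel)
def b1949 : PP 8 4 T 0x2201200000000000000000000000010000040000000000004000200000040508000020 := rS 0x15eb1a2af14cb361055e0a25ab34d61326894be290889c82015283e86c1069f5547f2887c140903954a6fd4299c94c934874e2d3 (k8 b1893 b334 b117 b140 b288 b66 i489 b932 (k8 b1911 i2386 b30 i2301 b312 b431 b367 b1895 (k8 b1503 b1947 i1596 i2302 i1513 b104 b283 i361 (k8 i2 i22 b785 i523 b1760 i644 i346 b270 (k8 b269 b353 b370 b277 i2030 b1948 b404 b1915 (k4 i659 b257 i329 b122 (k2 i1821 i1986 (k1 b395 k0)))))))) (by decide +kernel)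
def b1950 : PP 8 4 T 0x801000000000000010000004000000140040100054001000010000000000008000000 := rS 0x4d9ed0679 (k4 b414 b33 b637 b983 (k1 b421 k0)) (by decide +kernel)
def b1951 : PP 8 4 T 0x101000001000000000000000009010140051000010001000010000000045548040020 := rS 0x19ac75fae964a61e8fd5e386820d0e14890a4227337add030c0eb15c8d3 (k8 b1893 b432 b75 b117 b304 b138 b101 b1901 (k8 b390 i523 b1760 b325 b439 b0 b33 b1950 (k8 i652 i591 i296 i1877 i2031 i331 i666 i1722 (k2 i337 i1948 (k1 b179 k0))))) (by decide +kernel)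
def b1952 : PP 8 4 T 0x1200000000000000000000001010000040000000000004000200000040508000020 := rS 0x57ac68a5a5344d06b3689747e3d0abc1c911099344a0f2f8a422272080554734299d926944a5d32b740c303a718a18c5e613787c14fd0481c94d3 (k8 b1893 b66 i2301 b312 b1911 b431 b367 b1901 (k8 i1047 b392 i534 b342 b334 b117 b304 b138 (k8 b101 b133 b364 i277 b140 b288 i489 b932 (k8 b390 b1947 i2 i22 b785 i523 b1760 i644 (k8 b283 i346 b270 b269 b1949 b432 b1951 b404 (k8 b324 b119 b1115 i651 i659 b1319 b1950 i2031 (k4 b330 b122 i1821 i1922 (k1 b395 k0)))))))) (by decide +kernel)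
def b1953 : PP 8 4 T 0x400000000000001000000000000000001000000100000000040000000000000000000000208000000 := rS 0x28dcad3 (k4 b1893 b130 i1649 b428 k0) (by decide +kernel)
def b1954 : PP 8 4 T 0xa01001000000000000001010000110000461050000100000010000000545548200060 := rS 0xa35a9d59a1d (k4 b99 b370 b426 b277 (k2 b1929 i2030 k0)) (by decide +kernel)
def b1955 : PP 8 4 T 0x1000000000000000000000000410000000400000000000000000200154008000800 := rS 0x1f8f56e81860743ed3 (k8 b1893 b367 b99 b304 b138 b101 i1878 i2178 (k1 i2031 k0)) (by decide +kernel)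
def b1956 : PP 8 4 T 0x1200001000000000000000000010000040000000000004000200000040408000020 := rS 0x5a28d7cbb3653cb6c6573347c3d4bc61a23962b9222b346a9cf2832ea1c291235964262f26894be2908a3c4e413ea14ce695cb2510b740c303a2d54084fe512a94d820da1aa94a0f0087c14fd0481c94d3 (k8 b1893 b66 i2301 b312 b1911 b431 b367 i2 (k8 b283 i361 b1947 b104 i2302 i1513 i2386 b30 (k8 b1895 b1503 b1953 b1952 i974 b99 b304 b138 (k8 b101 i573 b288 i1139 b140 i489 b932 i1596 (k8 i22 b785 i1132 i523 b1760 i644 i346 b270 (k8 b392 b269 b43 b353 b325 b439 b0 b22 (k8 b33 b414 i2164 i1051 i660 b1954 b432 b75 (k8 b1955 i652 b120 b26 i1346 i2031 b815 i401 (k8 b179 i1922 b53 b614 i1682 i594 i407 b825 (k1 i1455 k0)))))))))) (by decide +kernel)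
def b1957 : PP 8 4 T 0x1200000000000000000000000010000040000000000004000200000040408000020 := rS 0xa372b09e01d440b550132f8a4222720804427f2887caa536083686aa52829fa09039281ed3 (k8 b1893 b283 b66 i2301 b312 b1911 b431 i361 (k8 b1947 b104 i2302 i1513 i2386 b30 b367 b1895 (k8 b1503 b1953 i2 i22 b785 i523 b1760 i644 (k8 b269 b1952 i974 i573 b99 b1956 b1927 b52 (k2 i2163 b428 k0))))) (by decide +kernel)
def b1958 : PP 8 4 T 0x400400000000000101201002002000010000042400011000440000000005400000000000054458041000 := rS 0x2f68abf5320cba873a45d9c333b83d926b239a586151e8fd6e818627ccad3 (k8 b1893 b9 b626 b304 b138 b101 b119 b324 (k8 b404 b52 b140 b383 b353 b288 b283 b1104 (k8 b1110 b1113 b36 b294 i1707 b1433 b1319 i2031 (k4 i1455 b122 i1984 b409 k0)))) (by decide +kernel)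
def b1959 : PP 8 4 T 0x1000000000000011054001441090100041000000004409008005000055558000000 := rS 0x1628d53170b68343184df115ba0618d3 (k8 b1893 b304 b138 b101 b11 b1901 i1047 b179 (k4 b1906 i777 b646 i2031 (k2 i1052 i3076 (k1 b455 k0)))) (by decide +kernel)
def b1960 : PP 8 4 T 0x1200000000000000000000001010000040000000000000000200000040408000020 := rS 0x58d154c83662bd7ea25aa75774f599b1a2815b8fc7a1563c31e01d4ca5ce314449ac8e6909934be2908a3cc62f3e984de213f9443e5529b0686aa52829fa0903c450a272080592c362b90ac250783494d3 (k8 b1893 b66 i2302 b283 i346 b1957 b1583 b75 (k8 b52 b288 i2 i22 b785 b931 b11 i2301 (k8 b312 b1911 b431 i361 b1947 b104 i1513 i2386 (k8 b30 b367 b1895 b1503 b1953 b1901 i1047 i1596 (k8 b392 i534 i1132 i523 b1760 i644 b270 b269 (k8 b140 b383 b353 i277 b342 b334 b364 b133 (k8 b117 b1951 b304 b4 b404 b324 b119 b101 (k8 b138 i651 b536 i659 b384 i1682 i1643 b1958 (k8 i2030 i1719 i594 b1959 i894 i2031 b122 i1821 (k1 b395 k0)))))))))) (by decide +kernel)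
def b1961 : PP 8 4 T 0x1400000000000001000000000000000081100000150000000450000000000000000000001458000000 := rS 0xbf5dad0434f (k4 b53 b1953 i2030 i1679 (k2 i1455 b409 k0)) (by decide +kernel)
def b1962 : PP 8 4 T 0x400000000000101001001000000000011010000110000461050000100000018000000545408040820 := rS 0xe832513197b45668f87a978c344728d539e506870a4485211038856e81860743ed3 (k8 b1893 b367 b99 b304 b138 b101 b1953 i2301 (k8 i523 b1760 b325 b439 b0 b33 b414 i2164 (k8 i1051 b1955 i652 b120 b26 i1346 i2031 b815 (k4 b58 i1411 b179 b1961 (k2 i280 b1929 (k1 i1585 k0)))))) (by decide +kernel)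
def b1963 : PP 8 4 T 0x1200000000000000000000000010000040000000000000000200000040408000020 := rS 0x33544825aa9d3abba78e5666c688fc7a15782056f0c0ea205ab954315868572444ac21309fcde51359548e69099344a5f148451ec913904021f318bd4a0a7e8240e0fa1b041a7d5514c94d3 (k8 b1893 b66 i2386 b1947 i1596 i2302 i1513 b104 (k8 b283 i2301 b312 b1911 b431 i361 b392 i534 (k8 b367 i2 i22 b785 b288 i1132 i523 b1760 (k8 i644 i346 b270 b269 b140 b383 b30 b353 (k8 b1895 b1901 b1503 i1047 b1953 b1957 b11 b1583 (k8 b931 b52 b75 b1960 i1139 i974 i573 b99 (k8 b304 b101 b138 b1962 b404 b324 b119 i651 (k8 b536 i659 b891 b384 i1682 i1643 i282 b1958 (k4 i2031 i2030 i894 b1906 k0))))))))) (by decide +kernel)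
def b1964 : PP 8 4 T 0x1000001000000001000000001040100441000000004008208000200045508040820 := rS 0x771919d8d1161b15c80d43c485211 (k8 i523 b1760 b325 b0 i2302 b1583 b75 b52 (k4 b11 b179 b1946 i298 (k2 i1627 b1110 k0))) (by decide +kernel)
def b1965 : PP 8 4 T 0x1001000000000002400000140000000000080000000000000000000000008000000 := rS 0xa2acd6cbc (k4 i849 i848 i1413 b70 (k1 b395 k0)) (by decide +kernel)
def b1966 : PP 8 4 T 0x1000001000000001000000001040100441000000004008208000000045508040820 := rS 0xb368a9c726124abc28b140a34f2c643c48521188b15c80d (k8 i2302 b1583 b75 b11 i523 b1760 b325 b0 (k8 b179 b414 i1051 b60 i1315 b439 i2316 i29 (k4 i1312 b1964 i336 i652 (k2 i660 b455 k0)))) (by decide +kernel)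
def b1967 : PP 8 4 T 0x1001001000000000400000009000000441000000004000208004000045508040020 := rS 0xee32338e1a0b35da758ccd46ac55e7940a1c291214844fd114cc50c24962b90ac0d (k8 i2302 i497 b1583 b75 i29 i1312 b342 b133 (k8 b11 i498 i523 b1760 b325 b439 b0 b60 (k8 b414 i2316 i1315 i1051 b1965 b179 b280 i1680 (k4 i666 b455 i652 i658 (k2 i298 i1627 (k1 b1110 k0)))))) (by decide +kernel)
def b1968 : PP 8 4 T 0x1000000000000010000000441000140040000000004040208000000000008000000 := rS 0x46a6cc249 (k4 i29 i1312 b983 i1052 (k1 b936 k0)) (by decide +kernel)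
def b1969 : PP 8 4 T 0x1200000000000000000000000000000040000000000000000200000040408000020 := rS 0xb05b3310e5a57accd8d10abc18ac34ca5d0ae48a184ac7e548847e504487540c155294c60a7e89c0e8f0694c9225209285e090983d926b2a91cd2cb008a422d3 (k8 b1893 i523 b1760 i2 b145 b140 b383 b30 (k8 b353 b288 b283 b269 b312 b392 b66 i22 (k8 i346 i29 i2386 i2302 i1132 i2301 b785 b1911 (k8 b431 i534 i361 b1947 i1513 b1963 i89 i2160 (k8 i309 i402 b672 i573 i498 i497 i1312 b342 (k8 b1583 b931 b364 b133 b52 b75 b1967 b404 (k8 i651 b536 i659 i2318 b1968 i777 b1720 i848 (k2 b1965 i1824 k0)))))))) (by decide +kernel)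
def b1970 : PP 8 4 T 0x1000000002000014000000000001000040000000010000000000004000008150000 := rS 0xf0 (k2 b439 b1113 k0) (by decide +kernel)
def b1971 : PP 8 4 T 0x1202000000000000000002000010000040000000000000000000000041408000020 := rS 0x5ed15774f5fa6198838ca150e79638e0ba1267a7467167230d1e4714884be273a994f67337944fab7409fd567127a5d629b30b458a0d88c303e1d2580cee552410086110a91686d3 (k8 b1893 b425 b1969 b230 i523 b74 b272 i261 (k8 b30 i751 i65 i485 b232 i2136 b304 b1758 (k8 b939 b481 i651 b137 b983 b382 b984 b293 (k8 i749 b359 b141 b138 b101 b34 b32 b1901 (k8 b390 i754 b9 i1010 i746 i904 b1331 b1760 (k8 b383 b349 b720 b432 b294 b1110 b313 b36 (k8 b1970 b253 i266 i218 i1013 b646 b1520 b107 (k8 b758 i2032 b421 i1455 b329 i1948 b275 i1990 (k1 b409 k0))))))))) (by decide +kernel)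
def b1972 : PP 8 4 T 0x1000000000000000000000000000000000800000000500040000000000008000000 := rS 0xb713 (k2 b33 i775 (k1 b330 k0)) (by decide +kernel)
def b1973 : PP 8 4 T 0x1202000000000000000000000010000044000000000000000101000040008040020 := rS 0x448b62aa64c20cf25d1b8e5e00f3591cd2292f8bc4e7b399bd6e811f824227127a5d629b30b442a0d88c303e1d2580cee552410086d3 (k8 b1893 b74 b272 i261 b30 i751 i65 i485 (k8 b232 i2136 b304 b1758 b939 b230 i651 b137 (k8 b983 b382 b984 b293 i749 i523 b291 b603 (k8 b138 b101 b1901 b390 i754 i746 i2187 i904 (k8 b1760 b140 b383 b353 b283 b439 b891 b374 (k8 b1433 i1013 b1972 b421 i2031 b133 i980 i282 (k1 b352 k0))))))) (by decide +kernel)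
def b1974 : PP 8 4 T 0x1202000000000000000002000010000040000000000000000000000040408000020 := rS 0xcf47b3466ba5327506853ca30705d090f5488751b9448c1a19a4525f139d4f69f689956e81278fc12c506c46181f0e92c06772a9208043088548ad3 (k8 b1893 b1969 b230 i523 b74 b272 i261 b30 (k8 i751 i65 i485 b232 i2136 b304 b1758 b939 (k8 b481 b291 b603 b293 b138 b101 b9 i651 (k8 b626 i754 i1010 i746 i904 b1760 b140 b425 (k8 i1247 b1971 b298 i324 i927 b428 i1386 b1973 (k8 b253 i266 i267 i1013 b1520 b1972 i1819 i2031 (k4 i368 i2172 i1948 b333 (k2 i1977 b388 k0)))))))) (by decide +kernel)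
def b1975 : PP 8 4 T 0x101000000000000000000001000010000000000510000000000000000401558000000 := rS 0x16c5512945124d4a3160ae467167223ce66f3e9fe18d3 (k8 b1893 b304 b141 b34 b1901 b390 b349 b432 (k8 b294 b1110 b1106 b346 b273 b430 b7 i2030 (k4 i2044 i280 b435 i978 (k1 b352 k0)))) (by decide +kernel)
def b1976 : PP 8 4 T 0x1202000000000000000000000010000044000000000000000100000040008040020 := rS 0x1e3c02215 (k4 b230 i523 b439 b1973 (k1 b324 k0)) (by decide +kernel)
def b1977 : PP 8 4 T 0x1000000000000000000004000a05000005005500000000000000200000008000000 := rS 0xcf47b3466ba (k4 i368 i2172 i1948 b333 (k2 i1977 b388 k0)) (by decide +kernel)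
def b1978 : PP 8 4 T 0x1202000000000000000000000010000040000000000000000000000040408000020 := rS 0x1808f5281d10a64c27506853ca30703d2e8490ea3122d41a9b4b9c47f1130ac5564f0483c8ead34b2c060114884be2f13844ea7b3b920aa9f68854ca73059bd6e818607c3a402192c8ad3 (k8 b1893 b1969 i485 b74 b272 b232 i2136 b304 (k8 b138 b101 b1901 i300 b390 b9 b230 i651 (k8 b626 b30 i261 i751 i754 i1010 i523 i746 (k8 i2187 i904 b1331 b1760 i2 i65 b145 b140 (k8 b118 b383 b283 b291 b293 b359 b382 b137 (k8 b1758 b603 i749 b984 b983 b939 b1974 b1975 (k8 i324 i927 b1976 b253 i1801 i266 i267 i1013 (k8 b1520 b1972 i1819 b421 i2031 i1937 i1341 b1977 (k2 b958 i2027 (k1 b971 k0)))))))))) (by decide +kernel)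
def b1979 : PP 8 4 T 0x201201002000000000000000000210000000000000000000000100000041408010020 := rS 0xc18b0d70bda2a54e2823018c5aa7042fd2607a19ac8e5934b2c06011a83c52212f89cea653b920aa73059bcfab7409fe181f0e900864b478f47e5766a156ad3 (k8 b1893 b277 b64 b370 b11 b119 b324 b349 (k8 i485 b74 b272 b232 i2136 b304 b141 b138 (k8 b101 b34 b1901 i300 b390 b30 i261 i751 (k8 b9 i1010 i746 i904 b1331 b1760 b283 i354 (k8 i2 i65 b145 b140 b43 b383 b353 b301 (k8 i1379 i1365 i1451 b431 i2141 i1264 i1349 i263 (k8 i2031 i750 i1018 b303 i1415 i2044 b1415 i986 (k2 b1749 i522 k0)))))))) (by decide +kernel)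
def b1980 : PP 8 4 T 0x201201000000000000000000000000000000040000000000500000000000018000520 := rS 0xab27954b2ad6595d6ad3 (k8 b1893 b277 b11 b145 b118 b43 b30 b719 (k2 b721 b162 k0)) (by decide +kernel)
def b1981 : PP 8 4 T 0x201201002000000000000000000010000000000000000000000100000041408010020 := rS 0x305460852ad55a210594ca27d3fc303a402192c3ed3 (k8 b1893 b1068 i485 b74 b272 b232 b304 b141 (k8 b34 b32 i826 i300 b1331 b118 b277 b1979 (k4 b1980 i2140 i1265 i2030 k0))) (by decide +kernel)
def b1982 : PP 8 4 T 0x1200000000000000000000000010000040000000000000000000000041408040020 := rS 0x19e9d19c59c91178045fa2125b442a75329dc90402290caa8f (k8 b349 b30 b74 b1969 b272 i261 i751 b9 (k8 i1010 b230 i651 i485 b1331 b1978 i523 b439 (k4 b1981 b432 b294 b1110 (k2 b313 b36 (k1 b1113 k0))))) (by decide +kernel)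
def b1983 : PP 8 4 T 0x1000000000000000000000000010000000400000000000000004000044058010220 := rS 0xf54e295ba0618d3 (k8 b1893 b304 b138 b101 b1760 i2141 i1268 i2031 k0) (by decide +kernel)
def b1984 : PP 8 4 T 0x1001000000000010000000000010000040000000000000012000000044058080420 := rS 0x4b2c5322c31224c2710313c128389464f2381f9740601089ccde7b5ba0618d3 (k8 b1893 b304 b138 b101 i754 b1901 b390 i523 (k8 i2 i65 b253 i2146 i266 i1013 b107 b343 (k8 b758 b1983 b719 b431 i749 i1224 i1341 i519 (k4 i520 i1937 i2827 b1950 (k1 b984 k0))))) (by decide +kernel)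
def b1985 : PP 8 4 T 0x1000000000000000000000000010000000000000000500000004000044058010220 := rS 0x104b3 (k2 i1427 b1983 (k1 b1319 k0)) (by decide +kernel)
def b1986 : PP 8 4 T 0x1200000000000000000000000010000040000000000000000000000040408000020 := rS 0x994da5c5861419c40c4f049e4ba0d43c447e3d1b89072f009a056e773dc30ded10589c904d2f8743e152012dfa450190c1e6b2a91cd229089cc5ed3 (k8 b1893 b84 b390 i523 b1760 b140 b383 b30 (k8 b353 b283 b74 i65 b1969 b1978 i485 b272 (k8 b230 b1068 b232 i904 i788 i261 i746 i300 (k8 i651 b1901 b304 i754 i751 b101 b138 b1984 (k8 b439 b891 b1982 b374 b324 b119 b320 i927 (k8 b939 b1433 i1013 b1985 b719 b431 i749 b1972 (k4 i1224 i520 b220 b983 (k2 i980 b421 k0)))))))) (by decide +kernel)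
def b1987 : PP 8 4 T 0x1000000000000000000000000490000000400000000000000000200154048000000 := rS 0xf47eb740c303ad3 (k8 b1893 b99 b304 b138 b101 i2180 i1878 i2031 k0) (by decide +kernel)
def b1988 : PP 8 4 T 0x1202000000000000000000000010000040000000000000000000000040008200020 := rS 0xf9763d3625da23967a34f283891754ef114844be272093d62885ba06181d16a51726f6498ca26554a4c5e673b8c43ea255ab40e4a07b2c1609220048ea50690d827f3a0c844d3 (k8 b1893 b1986 b106 b109 i2998 i2959 b74 i1570 (k8 b134 b383 i2 b1150 b312 b347 b145 b283 (k8 b66 i2301 b118 b359 i2027 i241 b299 b356 (k8 i490 b84 i1634 b338 b9 b1895 i487 b288 (k8 b1901 i1065 b165 i978 b99 b304 b138 b101 (k8 i1672 b382 b293 b571 b785 b1866 i523 b1760 (k8 b404 i330 i510 b325 b1972 b414 i1051 i1067 (k8 b1987 i652 b984 b1169 i1346 i1681 i2031 i407 k0)))))))) (by decide +kernel)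
def b1989 : PP 8 4 T 0x1202000000000000000000000010000040000000000000000000000040008000020 := rS 0x538f506391fbc0bad10aa056f0c0ea205a9431ae4a26f4987d440b55aa49e0f329ac8ead658bc62c352834868714845827f2f89c82130481d8a9d4299cee4a2200592693a0c844d3 (k8 b1893 b1986 b106 b109 b140 b288 i2 b1150 (k8 b66 b356 i490 b932 i1591 i1615 i2301 b312 (k8 b269 b571 b785 b1866 i2998 i2959 i523 b1760 (k8 i1704 b74 i1570 b134 b89 b299 b84 b145 (k8 b118 b383 b353 b9 b283 b293 b338 b359 (k8 b347 i2027 i241 i1634 b1901 b1895 i1065 i487 (k8 b165 i978 i1672 b99 b304 b101 b138 b1988 (k8 i651 b537 b439 b603 b891 b1972 b324 i282 (k1 i2031 k0))))))))) (by decide +kernel)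
def b1990 : PP 8 4 T 0x1000000000000000000000000010000020000000000000000000200054008200800 := rS 0xa716a0e24f1 (k4 b404 b325 b33 i68 (k2 i2164 b1955 k0)) (by decide +kernel)
def b1991 : PP 8 4 T 0x1200000000000020000000000010000040000000000000000000000040018200020 := rS 0x29e9f362c94c3d4bc51549954a247e388c994d647658348717192750a673b9a4c62f30ae4de933e9455a535ba06181f053f412072511106cf3cc49e2290889c82c9009d044d3 (k8 b1893 b1986 b109 i2 b288 b571 b785 i523 (k8 b1760 b404 b325 b414 i1067 b33 b1150 b66 (k8 i2301 b312 b1989 b431 b367 b304 b138 b101 (k8 i2386 b118 b1895 b1427 i1589 b1901 i1065 i1047 (k8 b84 i534 b140 b356 i490 b932 i1591 b106 (k8 b80 b74 i1570 b145 b383 b353 b9 b292 (k8 i652 i2178 b1990 i573 i1937 b1107 b342 b364 (k4 i1877 i2031 i331 i665 (k2 b228 b384 (k1 b378 k0)))))))))) (by decide +kernel)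
def b1992 : PP 8 4 T 0x4021000000000000010000010080004044040401042000000000000000000008000000 := rS 0x1434aaa97d15 (k4 b820 i594 i593 i1725 (k2 b104 b268 k0)) (by decide +kernel)
def b1993 : PP 8 4 T 0x1000000000000000000000000010040020000000000000000004000054058200000 := rS 0x3d53add030c41c49e2d3 (k8 b1893 b404 b325 b33 b304 b138 b101 i2164 (k2 i1346 i2031 k0)) (by decide +kernel)
def b1994 : PP 8 4 T 0x1200000000000000000000000010000040000000000000000000000040018200020 := rS 0x4c450e2a9448fd5e978c1b1367b4fb459e8d3ca0e24f1328a422738b8c84e4164934ce77318bcc2b937a4cfa515694ce8b740c303e0a7e8240e4a2208802d3 (k8 b1893 i2 b1986 b1150 b66 i2301 b312 b1989 (k8 b431 b367 b304 b138 b101 b109 i2386 b118 (k8 b1895 b1427 i1589 b1901 i1065 i1047 b84 i534 (k8 b356 i490 b270 b288 b571 b785 b106 b80 (k8 b390 i523 b1760 b9 b404 b325 b33 b414 (k8 i1051 i1067 b1991 b626 b637 b983 b1169 b120 (k8 b26 b1992 i401 b1993 i573 b1907 b342 b421 (k1 b133 k0)))))))) (by decide +kernel)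
def b1995 : PP 8 4 T 0x1200000000000000000000000010000040000000000000000000000040018000020 := rS 0x1123c16d5cb1a2a5d4c831e8e53eb3360fde05d6885502b78603cca6b239cc5ec30690d0e2908c5cbe272084d8a9d4299ceec9348c9726f499f4a21f050240efd5694c9444009d044d3 (k8 b1893 b1986 b109 i2 b1150 b66 i2386 b118 (k8 b1989 i2301 b312 b431 b367 b1895 b1427 i1589 (k8 b1901 i1065 b106 b140 b288 b356 i490 b932 (k8 i1591 i1615 b269 b571 b785 b1866 b80 i523 (k8 b1760 i1704 b74 i1570 b89 b84 b390 b383 (k8 b353 b9 b283 b304 b101 b138 b1994 i651 (k8 b537 b439 b603 b536 i659 b626 b891 b324 (k8 b1319 i2031 b220 b122 i1821 b395 i1922 b1992 (k2 b330 b414 k0))))))))) (by decide +kernel)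
def b1996 : PP 8 4 T 0x1200000000000000000000000010000040000000000000000000000040008000020 := rS 0x455527044870c26f3187c14fd039281244110bc02d3 (k8 b1893 i2 b84 b1986 b1150 b312 b66 i2301 (k8 b1989 b431 b367 i534 b1901 i1047 b1995 b398 (k4 b117 i573 b334 b342 k0))) (by decide +kernel)
def b1997 : PP 8 4 T 0x4001200000000000000000000004064000025005000000000040000000001008050420 := rS 0x67a7460cd0630620a54791d5a69658d41e093a994ee55039c45f0d241008a43 (k8 b74 i308 b272 i261 b321 i2187 i796 b749 (k8 b30 i751 b9 i1010 i2139 b283 i354 b145 (k8 b140 b118 b383 b349 i363 b294 b971 i2027 (k4 b370 i522 b647 b645 (k1 b388 k0))))) (by decide +kernel)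
def b1998 : PP 8 4 T 0x101000000000000000400000014020000020000500080000002400010000008000544 := rS 0x1fd488e06c5d4695 (k8 i1673 i281 b85 b939 b294 b661 b67 i364 k0) (by decide +kernel)
def b1999 : PP 8 4 T 0x1200000000000000000000004024000025005000000000040000000000008110420 := rS 0x19e9d182306e0c092951ecd12c4146958b998e4030091d5a69658d41e093a994ee55039c45f0d241008a43 (k8 b74 i308 b272 i261 b321 i2187 i796 b749 (k8 b30 i751 b9 i1010 i2139 b283 i354 b145 (k8 b140 b118 b383 i2 i65 i279 b979 b85 (k8 i1673 i281 b1998 b320 b370 b411 i363 b1997 (k4 b661 i1800 i267 i522 (k2 i1819 i988 (k1 b388 k0))))))) (by decide +kernel)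
def b2000 : PP 8 4 T 0x1202000000000000002001000000014000000010000000012000010000108000000 := rS 0x7f5cb2cee55 (k4 b30 i751 b145 i1250 (k2 i1515 b584 k0)) (by decide +kernel)
def b2001 : PP 8 4 T 0x11200002000000000001009005100014005000000005000002000000055508001540 := rS 0x612f59b105115c1ec923ab5968f (k8 b349 b145 b118 b383 b288 b283 b581 i2027 (k4 b696 b370 i1988 b1720 (k1 i329 k0))) (by decide +kernel)
def b2002 : PP 8 4 T 0x1202002000000000000008000000000040000000000000000000000041008000020 := rS 0x2e6843051b9418c15aa951e3507aa446011092c9a03139dd2a7531a4e287344a150e5f2a9e4ba0714ac412834fb44ca7b0aaac9e11869c45e6f241008a0b5010cc2d3 (k8 b1893 b137 b74 b1996 b347 i308 b272 i261 (k8 i1008 i2187 i796 b321 i523 b293 b359 b230 (k8 i754 b9 i651 b626 i919 i2139 b382 b1760 (k8 b749 b722 i1013 b30 i904 b646 b1520 b1999 (k8 b401 b413 b71 b55 i1010 b643 i751 i746 (k8 i65 i788 i485 b1331 i2 b1150 b338 b283 (k8 i354 b349 i363 i880 b2000 b2001 b28 i1647 (k4 i522 b428 i987 b710 k0)))))))) (by decide +kernel)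
def b2003 : PP 8 4 T 0x1200000001000000000000000220000000000000000000002000010000008001000 := rS 0x631719998ea65 (k4 b9 i1010 b978 i2171 (k2 b85 i1505 (k1 b335 k0))) (by decide +kernel)
def b2004 : PP 8 4 T 0x1202000000000000000000000160014000000010000000012000010000108001100 := rS 0x180b50791d5acb5582c0f0d (k8 b321 b749 b347 b359 b145 b118 b383 b283 (k2 i881 i2027 (k1 b2000 k0))) (by decide +kernel)
def b2005 : PP 8 4 T 0x1202000000000000000008000000000040000000000000000000000040008040020 := rS 0x6c5d30d68a25e9fd4a0d88b9448c5781ac8e691a83c424b2680cee953aa4e287344a150e5f2a9e4ba0714ac412834fb44ca7b0aaac9e11869c45e6f241008a0b5010cc2d3 (k8 b1893 b137 b74 b1996 b347 i308 b272 i261 (k8 i1008 i2187 i796 b321 i523 b293 b359 b230 (k8 i754 b9 i651 b626 i919 i2139 b382 b1760 (k8 b749 b722 i1013 b30 i904 b646 b1520 b1999 (k8 b401 b413 b71 i1010 b643 i751 i65 i788 (k8 i485 b1331 b283 i354 b140 b383 b353 b439 (k8 b297 b2002 b298 b320 b939 b2003 i843 i1989 (k4 b2004 i325 i329 i887 (k2 b536 i1681 k0))))))))) (by decide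 +kernel)
def b2006 : PP 8 4 T 0x1202000000000000050008000020014005000010004000012000010055508001100 := rS 0x612f59b102ba881ec956b2d52ab059840f0d47a9582b5 (k8 i880 b2000 i363 b349 b321 b749 b137 b347 (k8 b359 b338 b145 b118 b288 b283 b2004 b581 (k4 b696 b370 i1988 i2032 (k1 i329 k0)))) (by decide +kernel)
def b2007 : PP 8 4 T 0x1202000000000000000008000000000040000000000000000000000041008000020 := rS 0x2e6843051b9418c15aa951e350788c02212593406273ba54ea6349c50e68942a1cbe553c9740e2958825069f68994f6155593c230d388bcde482011416a0219858e4762848d2d3 (k8 b1893 b140 b2005 i1803 b383 i218 b137 b74 (k8 b1996 b347 i308 b272 i261 i1008 i2187 i796 (k8 b321 i523 b293 b359 b230 i754 b9 i651 (k8 b626 i919 i2139 b382 b1760 b749 b722 i1013 (k8 b30 i904 b646 b1520 b1999 b401 b413 b71 (k8 b55 i1010 b643 i751 i746 i65 i788 i485 (k8 b1331 i2 b1150 b283 i354 b349 i363 i880 (k8 b2000 b2006 b28 i1647 i522 b428 i987 b710 k0)))))))) (by decide +kernel)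
def b2008 : PP 8 4 T 0x8011200000000000000000000005000000000000154001000000000000000008000000 := rS 0xceb964b2d2714 (k4 b413 b71 b145 b288 (k2 b387 b85 (k1 b950 k0))) (by decide +kernel)
def b2009 : PP 8 4 T 0x1000000000000000000000100000000000200000000500000000000000008000000 := rS 0xb713 (k2 b60 i1809 (k1 b330 k0)) (by decide +kernel)
def b2010 : PP 8 4 T 0x1202000000000000000000000000000040000000000000000000000040008000020 := rS 0xa7b3d98ba5a2894a0d4ec6622e5460e048125b2062e9949c512a7344a150e792e81d2e9b4f9bcee7b3a9c5a24817934be210a90096453082d62ab5493c064332954d235078a4230d04a0d40d3 (k8 b1893 b1996 i919 i2139 b321 i523 b1760 b283 (k8 i354 b140 b30 b9 b74 i65 b293 b338 (k8 b359 b382 b347 b137 i308 i485 b272 b230 (k8 b1331 i904 i788 i2187 i261 i651 i796 i1010 (k8 i754 i751 i1008 b626 b983 b984 b749 b722 (k8 i1013 b646 b1520 b1999 b401 b643 b413 b71 (k8 b133 b2008 b2009 b421 b2005 b2007 i266 i267 (k8 b298 b320 b107 i1819 b939 b2003 b2004 i325 (k4 i887 i886 i1950 b329 (k1 b378 k0)))))))))) (by decide +kernel)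
def b2011 : PP 8 4 T 0x1001000000000000000000000020000000000000000000000000000000008000420 := rS 0xa2530313c8a430ec3412d3 (k8 b1893 i2139 b321 i89 b74 i308 b719 b431 (k2 i453 b588 (k1 b108 k0))) (by decide +kernel)
def b2012 : PP 8 4 T 0x1200000000000000000001000000000040000000000000000200000040008000020 := rS 0xb933a4cc2ab549fce8772498ce25044888942f0f829faa0 (k8 b1996 b2010 b2011 i90 b392 b66 b1969 i2160 (k8 i309 i796 i534 i29 b356 b109 i1664 i573 (k4 i498 i1312 i1590 i490 (k2 i1066 b1107 k0)))) (by decide +kernel)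
def b2013 : PP 8 4 T 0x1200000000000000000000000000000040000000000000000000000041008000020 := rS 0x3c0e1023251299cac242b34ae0d880c58317a1ae132934bc512a733b9d4e26f3e9fc9c53240bcbe2128900962322ad51e4300994d655239655a691a8a4230d04a0d4a0a7ea801ed3 (k8 b1893 b283 b1996 b2010 b2011 i361 i919 i2139 (k8 b321 i523 b1760 i354 b140 b118 b43 b383 (k8 b30 b353 b9 i2 b74 b349 i880 b2012 (k8 b1150 i485 b272 i493 b1331 i904 i2187 i261 (k8 i827 i301 b1503 b1427 i1009 i796 i1010 i751 (k8 b323 b1828 b413 b364 b71 b133 i2044 b422 (k8 b387 i1250 i987 b1106 i522 b11 b370 b64 (k8 b1749 b52 b257 b428 b335 i1859 i290 b981 (k1 i1851 k0))))))))) (by decide +kernel)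
def b2014 : PP 8 4 T 0x800000000000001000000000000010000000000000800040000000000000102000000002008000800 := rS 0x61 (k2 b716 b983 k0) (by decide +kernel)
def b2015 : PP 8 4 T 0x11201000000000010000001000000000040501050000000402000000002008111900 := rS 0x610e4da13572d93632a1238d64734c44fea53eab4f6c54ba66286f289141ed3 (k8 b1893 b283 i346 i493 i1009 b413 b133 b364 (k8 b481 i754 b118 b1427 i361 i843 b320 b140 (k8 b383 b353 b733 b315 b333 b2014 b421 b1302 (k4 i1921 b730 b891 b536 (k1 i290 k0))))) (by decide +kernel)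
def b2016 : PP 8 4 T 0x1000000000000010000000400000800040000000000000000000000000008000000 := rS 0x11b19 (k2 b72 i1034 (k1 b120 k0)) (by decide +kernel)
def b2017 : PP 8 4 T 0x1201000000000010000000000020000040501050000000402000000002008111900 := rS 0x619b426bd572896cb43591cd3113fa94faad3db152e998a434de512283d36b3 (k8 i659 b2016 b283 i346 i493 i1009 b321 b413 (k8 b133 b364 b481 i754 b118 b1427 i361 i843 (k8 b320 b140 b383 b353 b2015 b421 i881 b1302 (k4 i1989 i1921 b730 i329 (k1 b536 k0))))) (by decide +kernel)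
def b2018 : PP 8 4 T 0x101200000000000000000000000000000004200000000000080000000054008101000 := rS 0x3c0b913079ac8e69 (k8 b140 b383 b353 b283 b60 i1276 b325 b1433 k0) (by decide +kernel)
def b2019 : PP 8 4 T 0x1200000000000000000000000000000040000000000000000000000040008000020 := rS 0x3c0b9133c204e60d38b449c53139205e15201dc8a878889014fd4182540290880c866b239a46a0f (k8 b283 i354 b140 b383 b353 b74 i65 i523 (k8 b1760 b1996 i2139 i919 b2010 b2011 b2013 b320 (k8 i927 i346 i804 b272 b230 i2187 i261 i746 (k8 i827 i301 i651 i796 b939 b323 b2018 b2017 (k4 b414 i1013 b325 b1433 k0))))) (by decide +kernel)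
def b2020 : PP 8 4 T 0x1202000000000000000000000010000080000000000000000200000000008000020 := rS 0x1fcfa930e1d860b531880a3114487caea611b947ac2783140e6d598441a252503cd655239655a696585426030493d56b12982d32af (k8 b76 i1938 b347 b326 b382 b359 b293 b291 (k8 i65 i1882 b417 b145 b140 b118 b43 b383 (k8 b30 b353 b283 b66 i346 i2302 i2303 i2310 (k8 i2311 i2301 b481 b439 b536 b324 b52 b89 (k8 b464 b1583 b380 i283 b1894 b1895 b432 i487 (k8 b340 b82 b87 b1899 i1510 i1629 b274 i2037 k0)))))) (by decide +kernel)
def b2021 : PP 8 4 T 0x1000000000000000000004140000000000400000000400542000000004008020020 := rS 0x2e448b6b3 (k4 i2343 i1757 b725 b1811 (k1 b22 k0)) (by decide +kernel)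
def b2022 : PP 8 4 T 0x1000000000000000000000000040020010000000000000000000000400008000000 := rS 0xb62ad3 (k4 b1893 b435 i979 b352 k0) (by decide +kernel)
def b2023 : PP 8 4 T 0x1202000000000000000000000010000000000000000000000000000040008000020 := rS 0xa41630687155a1892a6749c59728f51a24662472a99843d628fde011069b507113fa056e7d289c4ee753c9be1827241343e290e90096454cabca6b155aa49e092183d92652a91cd2cb8cb44be150980d9e8a359cc5ed3 (k8 b1893 b84 b390 b353 b2019 i1978 i65 i1882 (k8 b417 b318 i145 b279 b145 b140 b383 b30 (k8 b9 b288 b283 b74 b291 b293 b338 b359 (k8 b382 b326 b76 i1938 b2020 i485 b272 b232 (k8 b1032 i2136 i788 i261 b529 b304 b1901 i1854 (k8 i1010 i751 i749 b32 b34 b101 b138 b141 (k8 b1758 b758 b731 b939 b2021 b439 b603 b481 (k8 b324 b536 i2031 b52 b720 i291 i283 i324 (k8 b333 b1106 b294 b7 b85 b2022 b165 i2044 (k4 b55 b425 i1247 b352 (k2 b428 i1383 k0))))))))))) (by decide +kernel)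
def b2024 : PP 8 4 T 0x400000000000000001201000000000000000040500800000080000001045000000000000400008000000 := rS 0x2fe86aa5caf552ae4bd159e6b (k8 b353 i1978 b122 i1898 b395 i578 i1986 b708 (k4 b1171 b104 i1721 b409 k0)) (by decide +kernel)
def b2025 : PP 8 4 T 0x1001000000000000000000000000000000000000005000000000000000028000020 := rS 0x8aaa4e089 (k4 b398 b117 i573 b334 (k1 b342 k0)) (by decide +kernel)
def b2026 : PP 8 4 T 0x1200000000000000000000000010000000000000000000000200000041008000020 := rS 0x2213470410754e675ba04c2575d944df4f11b94c6a50fb087a0a58b147ef01489c0e6d59970f4110690494090083cd64734854268a018bdfad3 (k8 b1893 b2023 b84 i65 b2019 i1882 b417 b140 (k8 b383 b353 b283 i2 b312 b66 i22 i2302 (k8 i2303 i492 i491 i2310 i2311 i2301 b785 b1760 (k8 b439 b603 b481 b1562 b431 b324 b536 b367 (k8 i361 i534 b52 b89 b135 b1901 b1895 i1945 (k8 b1583 i1047 i1894 i1931 i489 b2024 b2025 i2031 (k4 i815 i816 b1907 i1443 k0))))))) (by decide +kernel)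
def b2027 : PP 8 4 T 0x1201000000000000000004000000000080450000000000502000000005518000520 := rS 0xc561844dae406ac55f11032ac9e0f3591cd25f0a84c0675329dcaad3 (k8 b1893 b30 i751 b9 i1010 i65 i1882 b417 (k8 b318 b140 b383 b353 b283 b719 b721 b431 (k8 b1980 i2338 i1228 b939 b432 b731 b2021 b720 (k2 b75 b536 k0)))) (by decide +kernel)
def b2028 : PP 8 4 T 0x1200000000000000000000000010000000000000000000000000000041008000020 := rS 0x97a28f9363d8aa65106031a9c10833fa056e7d289e618272982c904d108a43a1f2012c46450190c031968a29fad3 (k8 b1893 b2023 b2019 i145 b279 i2 b74 i65 (k8 b2026 b1150 i485 b272 b1068 b232 b1032 b1331 (k8 i788 i261 i300 i826 b529 b304 i1854 b32 (k8 b34 b101 b138 b141 b758 b2027 i2141 i1349 (k8 i263 i262 i1939 b2 i2837 b714 i2031 b58 (k2 b416 b300 k0)))))) (by decide +kernel)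
def b2029 : PP 8 4 T 0x1200000000000000000000000010000000000000000000000000000040008000120 := rS 0x5fd0d688f49aec669da7af53545612c98af05ca5422b1312255ea5388189e01239a5965f0a84d9e6b398bcfea30594c4ed1069456e8186074961f7ea0cf24d01c64da75241008a4332a2a2277120d41ed3 (k8 b1893 b283 i354 b2028 i804 b320 b2019 b9 (k8 b74 i346 b272 i261 i1010 b731 b279 i65 (k8 i788 i1854 b758 b2023 b1068 i485 b232 b304 (k8 b138 b101 b32 b939 i145 b529 i826 i300 (k8 i324 i842 b84 b390 b353 i1978 i1882 b417 (k8 b318 b145 b140 b383 i2 b719 b431 i749 (k8 i1379 i2338 i1341 i519 i1228 b2021 b2022 i1405 (k8 b439 b481 b734 b536 b295 i554 i1413 b135 (k8 i1906 i291 i1945 i1450 b333 b176 b425 i1455 (k1 b409 k0)))))))))) (by decide +kernel)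
def b2030 : PP 8 4 T 0x1200000000000000000000000010000000000000000000000000000040008000020 := rS 0x25e8a3e4d8f62a9944180c6a70420d02b73cc304e48268a43a1f2012c8a247e80c860f8cb4514d3 (k8 b1893 b2019 i145 b279 b283 b74 i65 b2023 (k8 b2028 i346 i485 b272 b1068 b232 b1032 i788 (k8 i261 b529 b304 i1854 b101 b138 b758 b2029 (k8 i2141 i1349 i263 i262 i1939 b2 i2837 b714 (k4 i2031 b58 b416 b300 k0))))) (by decide +kernel)
def b2031 : PP 8 4 T 0x10000000000000000000001400000000a0000000000000002000000000008050540 := rS 0x2cd4e9b4c8f5e015 (k8 b417 b439 b324 i1938 b714 i283 i554 b464 k0) (by decide +kernel)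
def b2032 : PP 8 4 T 0x1202000000000000000000000020100001101050000400012020010041508011100 := rS 0x30862a2079ac8e5934a0c524505a952a9749c50aecd8845cde6155aa61a772aa3cea65 (k8 b9 i1010 b349 b30 i751 b321 b338 b359 (k8 b137 i1008 b2008 b294 b370 b11 b413 b71 (k8 b364 b643 i363 b347 i308 b1032 i919 b140 (k8 b43 b383 b353 b283 b2004 i1651 b1749 b981 k0)))) (by decide +kernel)
def b2033 : PP 8 4 T 0x1202000000000000000000000000000000000000000000000000000041008010020 := rS 0x173421828dca0c60a4e289539a246a0f09aad32af11804424b3c9340675329dcaa6f30a15025d039c45e1504a0e1a482011416432fa29628f52ad540d3 (k8 b1893 b2030 i880 i363 b349 b382 b2019 b318 (k8 b74 b347 i308 b272 i261 b321 i919 i2139 (k8 b417 i2187 i796 b749 b974 b2009 b1520 b137 (k8 i1008 b30 i751 b9 i1010 i65 i788 i1854 (k8 i485 b1331 i2 b1150 b76 i1938 b359 i1882 (k8 b283 i354 b2031 b401 b643 b413 b71 b2000 (k4 b2032 b28 i1647 i522 (k2 b428 i987 (k1 b710 k0))))))))) (by decide +kernel)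
def b2034 : PP 8 4 T 0x11000000000000000400005154100000004400000500511440500000005008024560 := rS 0x60a8c1ae43fc4598572800c46011092cee482010cb66d (k8 i2344 i1757 b74 b272 i261 i751 i485 b1331 (k8 i2 b1150 i65 b2021 b600 b614 b370 i848 (k4 b432 b939 b579 b346 (k1 i2027 k0)))) (by decide +kernel)
def b2035 : PP 8 4 T 0x1202000000000000000000000000000000000000000000000000000041008000020 := rS 0xf68ab653bc420b55283cd6472cab4d2cb2f8fc9eab5894d5e2768a1cee558c9e49a032e81ce22f0aa28128386920804505a8086d3 (k8 b1893 b74 b2030 b347 i308 b272 i261 b321 (k8 i919 i2139 b2019 b417 i2187 i796 b749 b974 (k8 i65 i788 i1854 b279 b30 i751 b198 i145 (k8 b529 b76 b326 b382 b359 b293 i402 b318 (k8 b145 b140 b118 b43 b383 b353 b283 i363 (k8 i880 b2033 b78 i1912 b2034 b70 i1783 b408 k0)))))) (by decide +kernel)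
def b2036 : PP 8 4 T 0x111200000000000000000000145000000080000010001000002000000000008051500 := rS 0x47c5c667361315120f239a42acf359bc0e6d3a994ee55 (k8 b30 i751 b9 i1010 b731 b749 i1008 b353 (k8 i1978 b417 b140 b383 b283 b2031 b481 b536 (k4 b401 i291 b2008 b333 (k1 b294 k0)))) (by decide +kernel)
def b2037 : PP 8 4 T 0x1202000000000000000000000000000000000000000000000000000040008000020 := rS 0xf68ab628959871253bc4200d63c45ca243b9c44e48179008a615782ca6b155aa49e43079acaa5934b44be134500e1a091fa0d40d3 (k8 b1893 b2030 i919 i402 i2139 b321 i65 b2019 (k8 i1882 b318 i145 b140 b43 b30 b353 b283 (k8 b74 b293 b338 b359 b382 b326 b347 b76 (k8 b137 i308 b272 i2187 i261 b529 i796 i751 (k8 b2035 b298 b320 i410 b939 b2036 b78 i1912 (k8 b725 i1952 b823 b600 b2021 b70 i1783 b408 k0)))))) (by decide +kernel)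
def b2038 : PP 8 4 T 0x1201000000000000000000000020000080000000000000000200000001008000020 := rS 0x60d0d46b853aacce575dd3c46e558b098a61549b4b87a08834926328224942f3591cd2350980d4a0f598282ad3 (k8 b1893 b417 b2011 i659 b283 i361 i65 i1882 (k8 i354 b140 b383 b353 b392 b66 i2160 i309 (k8 i534 i29 i2302 i2303 i492 i491 i2311 i573 (k8 i1312 b481 b536 b1562 b52 b89 b135 i1945 (k8 b1583 i489 i497 b2024 b1171 i328 b422 i1250 (k1 b428 k0)))))) (by decide +kernel)
def b2039 : PP 8 4 T 0x400000000004001000000000000001009000000100140000501054000000000000011000008000000 := rS 0x28dcad3 (k4 b1893 b52 b981 b428 k0) (by decide +kernel)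
def b2040 : PP 8 4 T 0x1200000000000000000000000000000000000000000000000000000041008000020 := rS 0x5c89041e2c342b34ae0d880c58317a1a0570b149a5e28874c9ccee75319c4f26f3e9fc4e4e299205e4d108a4a2402588c8ab54780c8601329acaa472cab4d2358cb44be8a8682506a5053f5400f (k8 b283 b2030 b2037 b2011 i361 i919 i2139 b321 (k8 b2019 b318 i145 b279 i354 b140 b118 b43 (k8 b383 b30 b353 b9 i2 b74 i65 b349 (k8 i880 b2038 b1150 i485 b272 i493 b1032 b1331 (k8 i788 i2187 i261 i827 i301 b529 b1503 b1427 (k8 i1009 i1854 i796 i534 i1010 i751 b323 i1939 (k8 b198 b413 b364 b71 i1885 b738 b1438 b422 (k8 b387 i1250 i987 b1106 i522 b11 b370 b64 (k4 b2039 b1720 b1749 b325 (k2 b689 b22 k0)))))))))) (by decide +kernel)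
def b2041 : PP 8 4 T 0x1001000000000004008000500120000000010044400000002000000002008000000 := rS 0x15f455e29944c1a1ad11e330ec34fed3 (k8 b1893 i843 b321 i89 i291 b333 b733 b425 (k4 i1247 i881 b257 i329 (k2 b122 i1986 (k1 b395 k0)))) (by decide +kernel)
def b2042 : PP 8 4 T 0x1000000000000000004000000000000000000001500000000400000000008155000 := rS 0xc5 (k2 b481 b536 k0) (by decide +kernel)
def b2043 : PP 8 4 T 0x1200000000000000000000000000000000000000000000000000000040008000020 := rS 0x1ed365b1e04186b14bc51026d39834ea713c9bcfa272714c902f268a4a240259dc8a878889166a5053f5060986a819e130ab45143534ab48e6b3283c0643 (k8 b74 i65 b283 b9 b353 b383 b118 b140 (k8 i354 b2019 i145 b417 i1882 i1978 b2030 b321 (k8 i2139 i919 b2037 b2011 i361 i659 b2040 b320 (k8 i927 i346 i804 i485 b272 i493 b1032 i788 (k8 i2187 i261 i827 i301 b529 b1427 i1009 i1854 (k8 i796 i1010 b939 b323 b731 b2018 b413 b364 (k8 i1885 b2041 b2042 i563 i1757 b393 i753 b1254 k0))))))) (by decide +kernel)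
def b2044 : PP 8 4 T 0x11002000000000000000000000010000040000010100000000010000041008204020 := rS 0x3da7d9e7768c593b4f32a558c7566c412657a1b2932b98aad5466e44078c61d3982556ad05a3c9a5903b2586c1628854a237203494472210e0a6b42974be873cc49e2290889c02d3 (k8 b1893 i2 b785 i523 b1760 b404 b325 b414 (k8 b0 b1866 i510 b1520 i627 b2043 b74 b272 (k8 b42 b66 i2302 b341 b1293 b430 b130 b75 (k8 b346 b700 i611 i2301 i2408 b270 b349 b347 (k8 b405 b359 b291 b390 b117 i488 b304 b350 (k8 b144 i240 i1396 b2 i1403 i1059 i2027 b79 (k8 i506 i1367 b1283 b370 b426 i2032 b643 i1049 (k8 b53 b280 b268 b1852 b21 b36 b626 b637 (k1 b388 k0))))))))) (by decide +kernel)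
def b2045 : PP 8 4 T 0x1201002000000000000000010000000114045001400104000000010000041008004020 := rS 0x7b4fb3da2ca8b2769e65631d59aa9558a4228f138049ac961b144223720348f05339288843 (k8 b74 b272 b66 i490 b2043 b42 i2302 b341 (k8 b1293 b130 b75 b700 i611 b270 i2 b785 (k8 b349 i523 b1760 b359 b338 b370 b426 i2032 (k8 i1049 b53 b280 b339 b165 b1852 b36 b626 (k2 b637 b388 k0))))) (by decide +kernel)
def b2046 : PP 8 4 T 0x1002000000000000000000000000114045001420500000100010000041008004020 := rS 0xcb32958ab115c99d52ab148444e012cb2446e40691e0b15319288843 (k8 b74 b272 b66 i487 b334 b2043 b42 i2302 (k8 b341 b1293 i611 i2408 i2 b785 i523 b1760 (k8 b359 b338 i490 i1408 b2045 b1275 b1283 i1050 (k2 i505 b165 k0)))) (by decide +kernel)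
def b2047 : PP 8 4 T 0x11002000000000000000000000010000040400000100000000010000041008204020 := rS 0xb888ad0accb33334cb173b26526951f8b0c61c2887ce07943a16245d35a9de20955ab416290897c4e4d03b24620161b054a237203494472210e0ad3 (k8 b1893 b2043 b74 b272 b42 b66 i2302 b341 (k8 b1293 b430 b346 b700 i2 b183 i611 i2301 (k8 b270 b785 b1866 i523 b1760 b347 b405 b359 (k8 b291 b404 i330 i627 i510 b325 b1520 b0 (k8 b414 b2044 b287 b1895 b304 i487 b99 i1422 (k8 i978 i1241 i981 b2046 b21 i1548 b676 b339 (k4 i2308 i489 b581 b11 (k2 i808 b1896 k0)))))))) (by decide +kernel)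
def b2048 : PP 8 4 T 0x1102000000000010144000000004000040000000000000008400151000088005040 := rS 0x2562ece4e8cd2667a1b297315519b9100955ab416c162a9446e4 (k8 b341 b1293 b430 b75 b346 b347 b405 b359 (k8 b291 b350 b144 i240 b2 i1403 i2027 b79 (k8 i2308 i1367 b538 b510 b427 b36 i2736 b268 k0))) (by decide +kernel)
def b2049 : PP 8 4 T 0x800000000000001002000000000000001000000100000000000000000000000400000000008005040 := rS 0x146cb04aad5a0b (k4 b347 b405 b359 b291 (k2 b79 b98 (k1 i2027 k0))) (by decide +kernel)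
def b2050 : PP 8 4 T 0x400000000000001100000000000010154000000000014040000420000000000200051000008000000 := rS 0x19d164e8cd7267238e4269f3d9349515 (k8 b334 b66 b270 b637 b206 b269 b891 b42 (k4 i490 i1408 b538 b510 (k2 b268 b427 (k1 b36 k0)))) (by decide +kernel)
def b2051 : PP 8 4 T 0x11002000000000000000000000010000040400000100000001000000041008004020 := rS 0x55431999a658b9d92695380b0381f4fa146ec73d8e4baf06885412b1058a422352f89c264d648c402c362884474352b05c9050383494472210486d3 (k8 b1893 b74 i261 b272 b42 b66 i2302 i2301 (k8 b2043 b341 b346 b430 b2049 b1293 b130 b75 (k8 b700 i2 b183 i611 b270 b269 b785 b1866 (k8 b125 i523 b1760 b347 b382 b291 b2047 i651 (k8 b439 b722 b891 b637 b4 b374 b1520 b206 (k8 b2048 b304 b99 b117 i978 i1241 b2050 b21 (k4 i1548 b676 b339 b1720 (k2 i1620 b646 k0)))))))) (by decide +kernel)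
def b2052 : PP 8 4 T 0x11002000000000000000000000010000040000000100000001000000041008004020 := rS 0x1302c318dd668d68870a2f02e07e268227aa562af308a4225f138040e4a2210486d3 (k8 b1893 b74 i261 b272 b66 i2301 i2 b785 (k8 b1866 i523 b1760 b137 b76 b382 b338 b293 (k8 b2051 b33 i1436 b1972 b325 b1895 b304 b306 (k4 i1846 i513 b374 i487 (k2 b99 b455 (k1 i980 k0)))))) (by decide +kernel)
def b2053 : PP 8 4 T 0x21002000000000020000000000000000000000000140000000010000051018204020 := rS 0x95658b0ac3c88b3126c78b0e0caa95596462c36288446e40687cc6512529c166b42974be87893c44e011991c88435cc14c2c9 (k8 i611 b137 b2043 b737 b74 b272 b42 b538 (k8 i2 b785 b404 b325 b0 b1866 i510 b1520 (k8 i627 b347 i330 b66 b32 i487 b50 i2302 (k8 b341 b1293 b130 b75 b700 b183 i2408 b359 (k8 b338 i1167 i652 b339 i298 b7 i2032 b370 (k4 b815 b1283 i1878 i505 (k2 i978 b165 k0))))))) (by decide +kernel)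
def b2054 : PP 8 4 T 0x21002000000000000000000000010000040000010140000000010000041008204020 := rS 0xa3632f510cd1f0b47b15a2a612ed1199cc5eb13093592c362884474352b05c9050383494472210cfa1f5ba04fe6f0ea9c1685419749e5f43c49e2290889c02d3 (k8 b1893 i2 b785 i523 b1760 b404 b325 b0 (k8 b1866 b293 i510 b1972 b1520 b347 i330 b117 (k8 b397 b141 b138 b101 b50 b34 b74 b272 (k8 b42 b66 i2302 i2301 b2043 b341 b346 b430 (k8 b2049 b1293 b130 b75 b700 i611 b270 b137 (k8 b382 b84 b390 b538 b2053 b984 b1950 b275 (k8 b133 i1786 i981 b408 b815 b352 i1411 i2032 (k2 i280 b1961 k0)))))))) (by decide +kernel)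
def b2055 : PP 8 4 T 0x21002000000000000000000000010000040000010100000000010000041008204020 := rS 0x44c459aa22b1d996953320d0a5d789cc5e0927aad62ad05984be270084c9a0764b058a215288dc80d2511c884382add026f (k8 b397 b138 b101 b2043 b74 b272 b42 b66 (k8 i2302 b341 b1293 b430 b130 b75 b346 i611 (k8 i2301 b270 b269 i2 b785 b1866 b137 b347 (k8 b405 b382 b359 b293 b291 b84 b390 b404 (k8 i510 b1520 b1972 b2054 i1673 i2308 i490 i489 (k4 i2027 b676 b11 i281 (k1 b1904 k0))))))) (by decide +kernel)
def b2056 : PP 8 4 T 0x1100000000000010154000000000000040000000040000000200051000008000000 := rS 0x5b3c230d4743245d9c9d1991c72134f9ec9a4a (k8 b66 b270 b637 b206 b269 b891 b42 b538 (k8 b510 b427 b36 b339 i1049 i1029 i1028 i1067 (k2 i3130 i1052 k0))) (by decide +kernel)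
def b2057 : PP 8 4 T 0x21002000000000000000000000010000040000010100000000010000041008004020 := rS 0x41a250b115ab3544563b32d2a661bb1de0d10a874e62f04aad62ad0598452111a89c264d03b24620161b058a215288dc80d2511c88438287d6e81 (k8 b138 b101 b50 b2043 b74 b272 b42 b66 (k8 i2302 b341 b1293 b430 b130 b75 b346 b700 (k8 i2 b183 i611 i2301 b270 b269 b785 b125 (k8 i523 b1760 b137 b347 b405 b382 b359 b291 (k8 b84 b390 b117 b2055 i651 b439 b4 b374 (k8 b2056 i1673 i2308 i490 i489 i2027 b676 i807 (k4 b11 b931 i281 b1906 (k1 b1905 k0)))))))) (by decide +kernel)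
def b2058 : PP 8 4 T 0x21002000000000020000000000000000040000420100000000010000041008204020 := rS 0x95498b22c1c4c99552c918c141a5135a14ba5f439e624f1148444e01339288843 (k8 b74 b272 b66 i490 i2 b785 i523 b1760 (k8 b404 b325 b414 b0 b1866 i510 b1520 i627 (k8 b32 i2302 b2043 b183 i611 b338 i1167 i1108 (k4 b2053 b339 b99 b7 (k2 i978 b2046 k0))))) (by decide +kernel)
def b2059 : PP 8 4 T 0x400000000000021000000000000000015000000510040001400020000000000000004055518200000 := rS 0x3197b4566a8c7c3d440bcfa1f3fa1e24f1 (k8 b404 b325 b0 b141 b50 b34 b84 b1907 (k8 i1346 b1993 i280 b815 b58 i1411 i2032 b1961 k0)) (by decide +kernel)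
def b2060 : PP 8 4 T 0x21002000000000000000000000010000040000400100000000010000041008204020 := rS 0x9949a54581c4bb44666758b2462c362884474352b05c9050383494472210ca2705382cd685419749e5f439e624f1148444e01 (k8 i2 b785 i523 b1760 b404 b325 b414 b0 (k8 b1866 b293 i510 b1972 b1520 i627 b347 i330 (k8 b2057 b32 b74 b272 b42 b66 i2302 i2301 (k8 b2043 b341 b346 b430 b2049 b1293 b130 b75 (k8 b700 b183 i611 b382 i490 b538 b2058 b984 (k4 b2059 b99 i978 i1241 (k2 i981 b2046 k0))))))) (by decide +kernel)
def b2061 : PP 8 4 T 0x21002000000000000000000000010000040000000100000000010000041008204020 := rS 0x5a0b1703f44a4d7711511b0accb631992acd32c5cec8741a16245d35bc45e0927aad5a0b14844be270093592c362884474352b05c905038348e7f31944944421c54e0d3 (k8 b1893 b2057 b334 b74 b272 b66 b32 i487 (k8 b141 b42 i2302 i2301 b2043 b341 b346 b430 (k8 b2049 b1293 b130 b75 b700 i611 b270 i2 (k8 b785 b1866 i523 b1760 b347 b405 b359 b293 (k8 b291 b84 b404 i627 i510 b325 b1520 b1972 (k8 b0 b2060 b21 i1548 b676 i1675 b339 i2032 (k8 i2308 i489 b475 i2027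 b11 i1681 i1634 i281 (k4 i407 b268 b352 i1407 (k1 b1896 k0))))))))) (by decide +kernel)
def b2062 : PP 8 4 T 0x1002000000000000000000000010000040000000100000001000000041008004020 := rS 0x11a992dacd70865fa4d774f42b35446c2b1d9965535a562e661bb1de0d10ac54e06328c305e0954aad62ad05abcc229088d44e1326b24620161b144223a1a9582e48281c1a4a239108243 (k8 b74 i261 b272 b42 b66 i2302 i2301 b2043 (k8 b341 b346 b430 b2049 b1293 b130 b75 b700 (k8 i2 b183 i611 b270 b269 b785 b125 i523 (k8 b1760 b137 b76 b347 b405 b382 b359 b338 (k8 b291 b84 b2052 b32 i487 b2057 b334 b2061 (k8 i651 b439 b4 b374 b2056 b85 i1673 i547 (k8 i1620 i2308 i490 i489 b2042 i2027 b676 b931 (k8 b384 i1681 i1634 i1719 b1720 b268 b1839 i777 (k2 i1144 i1052 (k1 b455 k0)))))))))) (by decide +kernel)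
def b2063 : PP 8 4 T 0x1002000000000000000000000010000040000000000000001000000041008004020 := rS 0x1b99de05768c4d08cd63a1cd02310b158631723260a29088d4be270091c1a59251108243 (k8 b74 i261 b272 b66 i2408 i2302 b42 i2 (k8 b785 b1866 b125 i523 b1760 b2043 i611 b341 (k8 b183 b700 b75 b130 b1293 b2062 i1564 i1561 (k8 i1831 i2032 b25 b930 b929 b325 i489 b374 (k1 b2056 k0))))) (by decide +kernel)
def b2064 : PP 8 4 T 0x11002000000000000000000000010000040000010000000001000000041008000020 := rS 0xdc880f2560a732f904eae5118383ad3 (k8 b1893 b117 b2063 b284 b437 b1582 i261 b1866 (k4 b390 b2043 b643 b304 (k2 b350 b144 (k1 b1856 k0)))) (by decide +kernel)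
def b2065 : PP 8 4 T 0x1000000000000020004000000000000004000000000000000000001055108008020 := rS 0xc5638e0d6cd42c41ca23 (k8 b284 b437 b432 b64 b370 i2424 i652 i409 (k2 i1880 i2032 k0)) (by decide +kernel)
def b2066 : PP 8 4 T 0x1002000000000000004000000010000040000010100000001000000041008200020 := rS 0x52aed823d353198a98a7a752ed1640c62e32369cc5e611a935460b66a14fab588084ca758299dca2340ac50e5d0717d1a79893c452111380494442090c3a1f5b9fcdf0c (k8 b2064 b397 b141 b101 b50 b117 b74 i261 (k8 b272 b66 i2 b785 i523 b1760 b404 b325 (k8 b414 i1051 b1866 b2063 i510 b1686 b382 b2009 (k8 b284 b437 i2307 b2043 b1582 i1049 b1584 b432 (k8 b277 b65 b64 b370 b347 i322 b270 b125 (k8 b137 b84 b390 i668 b1850 b80 i69 i285 (k8 b2065 b984 b510 b1591 b1950 i1615 b381 b308 (k4 i1786 i1694 i1679 b1664 (k1 i2030 k0))))))))) (by decide +kernel)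
def b2067 : PP 8 4 T 0x1002000000000000000000000010000040000010100000001000000041008200020 := rS 0x3f1eafd82ca2a9acd8c7611fc3e51860749eab29ab4b2072bb34fab588084ca758299c944421b9446a705c49e2872e8a4220e13804be41 (k8 i261 b1866 i2 b785 b2063 i523 b1760 i510 (k8 b1686 b404 b325 b347 i330 b284 b437 b74 (k8 b272 b66 i2307 b2043 b1582 i1049 b1584 b432 (k8 b277 b65 b370 i502 i2301 i2408 b405 b326 (k8 b359 b293 b117 b2064 b32 b50 b141 b2066 (k8 i117 i370 i628 i1697 i2037 i1245 i1454 i1959 (k2 i376 b827 k0))))))) (by decide +kernel)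
def b2068 : PP 8 4 T 0x1002001000000000004000000400000040000020150500110000000045008008060 := rS 0x14360b287b455916cd4c55bd3d3a7b68a94623236ac4a6af5182ceacd42a0c9e873cc4852115cad6202182b9446d3 (k8 b1893 b284 b437 b2043 b1584 b432 b277 i1407 (k8 i523 b1760 b325 b414 b1686 b293 b1972 b64 (k8 b370 b1582 b347 i322 b76 b326 b382 i668 (k8 b1850 i69 i289 b2065 b637 b510 b1591 i801 (k8 i1615 b308 i1962 b1811 b295 i1253 i633 b168 (k2 b79 b428 k0)))))) (by decide +kernel)
def b2069 : PP 8 4 T 0x801000000000000001808000000410000004000000400000000000000055548000040 := rS 0xe8fc7aa45fb0686d3 (k8 b1893 b79 i1245 i1454 b257 i1959 i376 i1382 (k1 b827 k0)) (by decide +kernel)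
def b2070 : PP 8 4 T 0x1002000000000000000000000010000040000000100000001000000041008200020 := rS 0xeecb49c58aac9359b066c761145721f3821e245d53bc4e60b148446a5f138049a5903b356b1010994eb0533928884121b94460e (k8 b2063 b284 b437 b74 i261 b272 b66 i2307 (k8 b2043 b1582 i1049 b1584 b432 b277 b370 i2301 (k8 i2408 b270 i2 b785 b1866 b125 i523 b1760 (k8 b347 b390 b404 i330 i510 b325 b1686 b2067 (k8 b287 i1407 b1895 b2068 i117 i2173 i370 i628 (k4 i612 i1697 b339 b7 (k2 b2069 b640 (k1 b1752 k0)))))))) (by decide +kernel)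
def b2071 : PP 8 4 T 0x1002000000000010000000400000000140000000004000000000000400008150040 := rS 0x16c5512985302552b105abcc2391b8f5e0d3 (k8 b1893 b439 b324 b374 b891 b137 b76 b347 (k8 b382 b338 b291 b464 b455 i282 b133 i980 (k1 b352 k0))) (by decide +kernel)
def b2072 : PP 8 4 T 0x1000000001000000000000800040000000000000800000000004000000008000040 := rS 0x14ac1a1af994d3 (k4 b1893 i633 i634 b79 (k2 i1245 i1451 (k1 b428 k0))) (by decide +kernel)
def b2073 : PP 8 4 T 0x1002000000000000000000000010000040000000100000001000000041008000020 := rS 0x500f9894cb3469a87a6d780fda2151782562af14844be270084c0ea305b350b1010994eb0533928884121b94460e (k8 b2063 b284 b437 b74 i261 b272 b66 i2307 (k8 b2043 b1582 i1049 b1584 b432 b64 b370 b347 (k8 i322 i2301 b269 i2 b785 b1866 i523 b1760 (k8 b76 b382 b291 b84 b2070 i651 b603 b439 (k8 i667 b324 b1498 i1965 b2072 b464 b2071 b380 (k2 i487 b1895 k0)))))) (by decide +kernel)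
def b2074 : PP 8 4 T 0x1002000000000000000000000010000040000000000000001000000041008000020 := rS 0x186687288c1c13221048705 (k8 b2043 b74 i261 b272 b269 b2063 b284 b437 (k2 b2073 i1828 (k1 b1701 k0))) (by decide +kernel)
def b2075 : PP 8 4 T 0x1000001000000001004000000000000000000000100000000000000045508110020 := rS 0x65234658cc51c0dd0a87094480229 (k8 b1760 i2 b325 b439 b0 b25 i1800 i266 (k4 i1803 i2032 b107 i218 (k2 b444 i265 k0))) (by decide +kernel)
def b2076 : PP 8 4 T 0x1100002002000010104000000000000048004000050000000000015010008000000 := rS 0x1e0711967c593ec5638de269d (k8 b331 b0 b374 b4 b297 b626 b339 b36 (k4 b989 b427 b343 i1851 k0)) (by decide +kernel)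
def b2077 : PP 8 4 T 0x401000000000000000000000000008000000004000000000002000000000008000000 := rS 0xf319 (k2 b3 i2692 (k1 b343 k0)) (by decide +kernel)
def b2078 : PP 8 4 T 0x1100002000000010104000000000000048004000050000000400010000008004020 := rS 0xc5c833068045211 (k8 i523 b1760 i2 i521 b538 b341 b183 b2076 k0) (by decide +kernel)
def b2079 : PP 8 4 T 0x1102000001000000000000000000000000050000000010100400000001508004020 := rS 0x16a5765956200c27aaca6ad (k8 b405 b326 b359 b293 b341 b432 b1502 i2340 (k2 b11 b277 (k1 i2037 k0))) (by decide +kernel)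
def b2080 : PP 8 4 T 0x1000000000000001004000000000000001000500580410000420000051508011000 := rS 0x15a2055479141f17 (k8 b85 i338 i22 b349 i1619 b294 b1749 b11 k0) (by decide +kernel)
def b2081 : PP 8 4 T 0x1002000000000001004000000010000041000000500000000000000041008000020 := rS 0x1425ed1530bf419e5445a5a950eca506b05c89533194ea9f23aee9f133621a0a73558a46a4b2f964f66f3893c1e9758a6da261289f56e813fc303a1f63bc02a23203251e211392022d3 (k8 b1893 i523 b2074 b86 b127 b349 i1124 b319 (k8 b571 i377 b2075 b4 i2136 b90 b304 b141 (k8 b138 b101 b34 b32 b137 b278 b983 b382 (k8 b984 i338 b293 i749 i1008 i754 i868 b363 (k8 i29 b125 b1760 b359 b390 b2043 b1720 b1498 (k8 b0 b111 i1683 i1695 b2077 i1707 i1699 b2078 (k8 i1673 b2079 b346 b28 b430 b2080 i751 i2509 (k8 i1698 i2030 i1808 i775 i1719 b421 b275 i1991 (k2 b409 b98 k0))))))))) (by decide +kernel)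
def b2082 : PP 8 4 T 0x1000000000000000004000000000000002000000100410000020000001508010000 := rS 0x1813721b4b911 (k4 b64 b1520 i1604 b432 (k2 b253 b940 (k1 b28 k0))) (by decide +kernel)
def b2083 : PP 8 4 T 0x1002000000000000401000000100200000000000000000000400004000008085020 := rS 0x28c0e88168e06e0104aad5a0b (k8 b347 b405 b359 b291 i2 i1800 i266 i980 (k4 i1937 i520 i280 i2027 k0)) (by decide +kernel)
def b2084 : PP 8 4 T 0x1002000000000000004000000010000040000000500000000000000041008000020 := rS 0x583744bc07213530f62acb23a614ac119834ac833cb90ee552ec45980321c14e62f1489cf66f3893c1e9758a6da2611f85412515ba06181d0fa1446c92ca3c425f2012022d3 (k8 b1893 i523 b2074 b319 b363 b127 b349 i868 (k8 i1124 b571 b2082 i2136 b90 b304 b138 b101 (k8 b32 b291 i377 b603 b137 b278 b983 b382 (k8 b984 i338 b293 i749 i1008 i754 b86 b1760 (k8 b84 b390 b2043 b74 i65 b2081 b370 i1970 (k8 i770 i2510 b432 i1013 b1972 b345 b939 b1110 (k8 b346 b430 b421 b882 i505 b133 i1786 i2031 (k4 b2083 b891 b439 i282 (k2 b374 b352 (k1 i980 k0))))))))))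 (by decide +kernel)
def b2085 : PP 8 4 T 0x1002000000000000000000400000000020000000000000000000100000008150001 := rS 0x5381c12b105abc7af0 (k8 b439 b324 b76 b347 b382 b291 i1341 i282 (k1 b464 k0)) (by decide +kernel)
def b2086 : PP 8 4 T 0x1000000000000000000000000000020010000000000000000000001400008000000 := rS 0xb62ad3 (k4 b1893 b435 i978 b352 k0) (by decide +kernel)
def b2087 : PP 8 4 T 0x1100002000000010104000000000000048004000050000000000010000008004020 := rS 0x47 (k2 i265 b2078 k0) (by decide +kernel)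
def b2088 : PP 8 4 T 0x1002000000000001004000000010000040000000100000000000000041008000020 := rS 0x2ac4568933225512b32e1d50c57398bd5a291a89cf66f3893c8a513e9fe181d0fa1446591097cda31068041e775c99e0a6164a3c72d17804cd4152012022d3 (k8 b1893 i523 b2074 b319 i377 b2084 i1960 b439 (k8 b278 b891 b349 i1124 b137 b2043 i547 b737 (k8 i752 i338 i2 i468 b183 i147 b363 b127 (k8 i868 b571 b2082 i2136 b90 b304 b141 b34 (k8 b32 i22 b293 i749 i1008 i754 b86 b125 (k8 b1760 b405 b84 b390 i508 b488 i1011 b1631 (k8 i513 b2085 b2086 b2087 i1549 i2044 b277 i767 (k1 b345 k0)))))))) (by decide +kernel)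
def b2089 : PP 8 4 T 0x1100000002000010100000000001000040000000050000000000004000008150000 := rS 0x22cce (k2 b1970 b339 (k1 b36 k0)) (by decide +kernel)
def b2090 : PP 8 4 T 0x101100000000000000000000000010000000000400000004042000000001048000000 := rS 0x5a150ea2f0e884b27111901928f (k8 b349 i1124 b319 b571 i749 i868 b127 b90 (k4 b84 i1011 b345 b1975 (k1 i767 k0))) (by decide +kernel)
def b2091 : PP 8 4 T 0x1002000000000000004000000010000040000000100000000000000041008000020 := rS 0x672353f132e158c84719b9222cc1bbc072776384ccec54e9b4d4438293c52111a934965f13885a24511b251e1f078548048 (k8 b2074 b319 i377 i338 i2136 b349 i1124 b571 (k8 i22 b278 b127 b86 b363 i29 i72 b125 (k8 i523 b1760 b293 b2043 b74 b2084 i147 i1908 (k8 i1790 i547 i1960 b189 i752 b891 b439 b374 (k8 b2088 b370 b432 b1110 i264 b2089 b2090 i507 (k4 b1162 b150 i3136 b874 (k1 i1028 k0))))))) (by decide +kernel)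
def b2092 : PP 8 4 T 0x1102000000000000008000000000000000050000000010100000000001508004020 := rS 0x8ee5 (k2 b52 i2144 (k1 b2079 k0)) (by decide +kernel)
def b2093 : PP 8 4 T 0x1002000000000000000000000010000040000000000000000000000041008000020 := rS 0x46270cc762b970b71142035c8cd439b4d0c33f9f4a30c0787c464564965a2210e89cbe4b201211f05278a422d3 (k8 b1893 i523 b1760 b293 b2043 b349 b2074 b319 (k8 i29 b363 b86 b90 b127 b278 i868 i1124 (k8 i22 b571 i2136 i338 b304 b32 b34 b141 (k8 b2092 b2091 i40 i1564 i1831 b1699 b28 b488 (k8 b64 b905 b1520 i1584 b2090 i752 i1631 i1624 (k1 i3075 k0)))))) (by decide +kernel)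
def b2094 : PP 8 4 T 0x1002000000000000100010000010004000000000050008208000000002008000040 := rS 0xcb31ad4e21e86aa556ad30c44467f (k8 i842 i47 b320 b137 b405 b359 b338 b32 (k4 b1895 b287 i1396 i488 (k2 i506 b574 k0))) (by decide +kernel)
def b2095 : PP 8 4 T 0x1000000000000020000000000410400000000000000400040001000054058000020 := rS 0x1fa0c705d5ba0618d3 (k8 b1893 b304 b138 b101 b306 i652 b1972 i297 (k1 i2031 k0)) (by decide +kernel)
def b2096 : PP 8 4 T 0x1002000000000001004000000010000040000000000000001000000040008000020 := rS 0x20c7e5d0aa31a23d4daf53f4e3593c52116397d1e3334a144e0167add030c0e87cfe2304c44daa75250d829455aa4c62f6594527165cc14c2c9338380e652a928ac442090c48d3 (k8 b1893 b2093 b74 i261 b272 i347 b66 i763 (k8 i1050 i2301 i346 i2307 i2320 b137 b2043 b737 (k8 b339 b7 b2094 i505 b84 i487 b338 b359 (k8 b165 i1518 b424 b877 i367 i668 b320 b291 (k8 i47 i842 b902 i863 b304 b138 b101 b36 (k8 i2 b785 b931 i1583 i2169 b333 b1866 i410 (k8 i523 b1760 b293 i508 b308 b316 b385 i1181 (k8 i1385 b2095 b1164 b1772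 i1846 b603 b1972 i2031 k0)))))))) (by decide +kernel)
def b2097 : PP 8 4 T 0x1002000000000000004000000010000040000000000000001000000040008000020 := rS 0xfc7a837831598a75f8a422e56389c02a4a1add030c0eb05282f0fb2d527f31945271603994aa2304aad72670712a0a6164958884121c4448d3 (k8 b1893 b2093 b320 b74 i261 b272 i347 i2320 (k8 b137 b2043 b66 i346 i2307 b737 b359 b291 (k8 i47 i763 i1050 i2301 b339 b7 b2094 i487 (k8 i842 b338 i505 b902 b84 b165 i1518 i863 (k8 b304 b138 b101 b424 b877 i2 b785 i410 (k8 b298 i523 b1760 i1452 i367 b2096 i1791 b1453 (k4 i895 i1386 b119 i2031 k0))))))) (by decide +kernel)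
def b2098 : PP 8 4 T 0x101102000000000001008000000210020004000000100008000000040054058008040 := rS 0x9e8c2f8729b788f94ebb0a20cd91235aac16af5ba06183d608be9ed3 (k8 b1893 b135 b84 i1518 i1959 b304 b138 b101 (k8 b76 b347 b359 i508 b1439 b308 b33 i667 (k8 i1681 b829 i2031 b404 i1182 i297 i376 b357 (k2 i1725 b3 k0)))) (by decide +kernel)
def b2099 : PP 8 4 T 0x1002000000000000000000000010000040000000000000001000000040008000020 := rS 0x20c7ebf4fb454e9b5db306e3d612056f0c0ea9183430fa51966328b3d26695cc590ac93381cca5607128aa272217c824300c145e0927aa556611484622233fa1c48d3 (k8 b1893 b2093 i927 i842 i47 b320 i523 b1760 (k8 b137 b359 b338 b293 b291 b84 b2043 i2 (k8 b74 i261 b1866 b272 b785 i763 b66 i346 (k8 i347 i1050 i2301 i2307 i2320 b931 b339 b737 (k8 i1583 b7 b36 b2094 i487 i505 b165 b902 (k8 b424 i1518 b877 i863 b304 b101 b138 b2097 (k8 i1959 i1956 b2098 i1948 i1182 i368 b2095 b626 (k4 i1725 i376 i895 i2031 k0)))))))) (by decide +kernel)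
def b2100 : PP 8 4 T 0x1002000000000000000000000010000040000000000000000000000040008000020 := rS 0x2ea0964a7440f528f01ca4c27165ca7592b5479b4ce332a03902b728b147e0d861646a150f9dce2753db443a272f9009047519fe22e5120a4220300c14e62f0493cc2d3 (k8 b1893 b137 b293 b291 b84 b390 b2043 i2 (k8 i65 i523 b1760 b2093 b298 b320 i842 i324 (k8 i2142 b2099 b319 b363 b86 b90 b278 i754 (k8 b715 i749 i2508 i2136 i377 i2210 b534 b304 (k8 b939 b603 b481 b32 b101 b138 b341 i339 (k8 i2167 i542 i667 b290 i767 i612 b845 b737 (k8 b294 b1356 b7 b891 b439 b1345 b324 b2022 (k4 i282 b2085 i2031 i513 (k1 b1972 k0))))))))) (by decide +kernel)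
def b2101 : PP 8 4 T 0x1102000000000000004000400000000000000001100000000400000000008155040 := rS 0x32d46bea1aee9ec13539156ad62b1e8aa55ea987af05882d5e09 (k8 b291 b76 b347 b382 b439 b324 b464 i1984 (k8 i367 b122 b189 b481 b405 b359 b341 b536 (k8 b346 b88 i1946 b2049 b409 i1719 i1453 i2027 k0))) (by decide +kernel)
def b2102 : PP 8 4 T 0x1000000001000001044000000000000000008000040000000200000045408100020 := rS 0x458ecc9434404285329d60a29628349411 (k8 i484 b66 i2302 b481 b1760 b2043 b1582 i1049 (k8 i1896 b1584 b432 i2032 b1574 i817 b339 b21 k0)) (by decide +kernel)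
def b2103 : PP 8 4 T 0x1002000000000000004000400000000000008001100040000200000045008140020 := rS 0x44cd3395dca0e8291c1a59039298e11 (k8 i484 b189 b66 i2301 i2408 i2302 b42 b2043 (k4 b2101 b437 i502 i2307 (k2 b959 b2102 (k1 b284 k0)))) (by decide +kernel)
def b2104 : PP 8 4 T 0x1002000000000000000000000000000080000000004040000200000445008000020 := rS 0xc1a1b2926a58b2e52abb32b24cea3351d53a0ea788dcac282aa556ad308d41a6d34970f489530f5e0b10aacc260303928161104a655ed3 (k8 b1893 b76 i1938 b291 i484 b347 b66 i2301 (k8 i65 i1882 i2310 b417 b382 b439 b324 b464 (k8 i283 i492 i491 i3097 i2311 i2302 b366 b137 (k8 b405 b359 b338 b2043 b2103 b52 b89 b135 (k8 b700 i1906 b1582 b308 i322 i2307 i618 i1049 (k8 i1946 b2022 b737 b339 i368 b7 i2040 b79 (k2 i1245 b428 k0))))))) (by decide +kernel)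
def b2105 : PP 8 4 T 0x1002000000000000000000000010000000000000000000001000000040008000020 := rS 0x49459728f65b24ce95329dc66560728e222431944de890fa987af003acc224a1a89c885b2090c03051782552ab5882c2a1301a6514af (k8 b76 b2100 i1938 i65 i1882 b417 b347 b382 (k8 b359 b338 b291 b84 b2043 i2 b74 i261 (k8 i1884 b272 b785 b366 b66 i484 i2310 i2301 (k8 b439 b324 b464 b380 i283 b1901 b1895 i487 (k8 b2104 b320 i324 i346 i347 i2169 i804 b180 (k8 b2022 i2307 i2320 i505 b333 b1106 b339 b165 (k1 b7 k0))))))) (by decide +kernel)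
def b2106 : PP 8 4 T 0x1002000000000000000000000010000000000000040000000000000041008000020 := rS 0x35158d34f88b310e77069b452852e8456eaf13a0cf2535893c8a8d01c649a5f4530c1e7f289f6181d0f88cb240109220ad3 (k8 b1893 b2043 b2105 b127 b319 b534 i2137 i2136 (k8 b90 b304 b34 b32 b141 i338 b2092 b2100 (k8 b318 i72 b279 i65 i76 i22 b293 b382 (k8 b326 i1012 b758 b86 b76 b101 b2021 b260 (k8 b1520 b1032 i555 i521 i752 b686 b488 b370 (k4 b329 i1831 b2090 b308 (k1 i507 k0))))))) (by decide +kernel)
def b2107 : PP 8 4 T 0x1000000000000000000000000000000088001000000100010000000000008000000 := rS 0x3b27a325f (k4 b318 b279 b680 b198 (k1 b156 k0)) (by decide +kernel)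
def b2108 : PP 8 4 T 0x1002000000000000000000000010000000000000000000000000000041008000020 := rS 0x1de22cc3ac5cccc307a3e0a21118a4b27d3fa158ac77805426872e8456eaf28c303a1f13a0ca6b12797c8a4001c64f28d2692114d3 (k8 b1893 b2100 b2105 i72 i76 i1012 b279 i65 (k8 b319 i22 b318 b293 b382 b326 b758 b86 (k8 i2136 b90 b304 b32 b76 b101 b2021 b260 (k8 b2107 i1882 b417 b439 b4 b297 b1520 b141 (k8 b34 b534 b1032 i2137 b127 b2043 b349 i338 (k8 b2092 b2106 b85 i1588 i2032 b370 i2510 b294 k0)))))) (by decide +kernel)
def b2109 : PP 8 4 T 0x1002000000000000000000000010000000000000000000000000000040008000020 := rS 0x24a2cb964ad51e67199501c0d4a9d4ee4751c45ca2444a987af01f844fe815b945070c1a87c52453c9c43a272012132130a97d1b19451855e535893c1203829cc5ed3 (k8 b1893 b84 b390 b2043 i65 b291 b293 b382 (k8 b326 b76 b137 b2100 b279 i76 b318 b417 (k8 i1882 i1938 b2105 b319 b86 b90 i749 i1012 (k8 i22 b1032 i2136 i2210 b304 b758 b32 b101 (k8 b138 b141 b2021 b603 b439 b324 i2031 i283 (k8 b2108 b298 b320 i324 i2142 i804 b715 b2022 (k8 b939 b341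 i339 i2167 i542 b290 i767 i612 (k4 b737 b294 b1345 b7 k0)))))))) (by decide +kernel)
def b2110 : PP 8 4 T 0x400000000000000001000000000000001001040000110000004000002000000000008000001518000800 := rS 0x5a2f946ae3ec303ed3 (k8 b1893 b367 b304 b34 i401 i407 i594 b825 (k1 i1456 k0)) (by decide +kernel)
def b2111 : PP 8 4 T 0x1000000000000001000000000410010040000000040000000010000041008204020 := rS 0x1549938aa478891faed66135ba0596a560ae5074f49a5e30ad2b444e8cf3d934ef1647a753e6536234f2d11cb198a21618cd9287893c4521113804b2852e97c46e40691e0a6b3ec303a613798c5e1f0501c94092210dfad3 (k8 b1893 b2109 b74 b272 b312 b66 i2301 b431 (k8 b367 b84 i534 b1901 i1047 b2025 b304 b34 (k8 i627 b2043 b42 i2302 b341 b1293 b1866 i510 (k8 b1520 i2408 i2 b785 i523 b1760 b404 b325 (k8 b0 i611 b538 b700 b130 b75 i2032 i298 (k8 i652 b414 i1051 b475 i1700 b626 b280 b349 (k8 b339 b21 b270 b637 b36 b388 b426 b1283 (k8 i1581 b120 b26 b7 b53 b33 b737 b346 (k8 i361 i619 b138 b101 b269 i660 i1682 b2110 (k4 b1993 i2031 i573 b1907 (k2 i1786 i2040 (k1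 b1951 k0)))))))))))) (by decide +kernel)
def b2112 : PP 8 4 T 0x1000000000000001000000000010010040000000040000000010000041008204020 := rS 0x2ad52af5f2247ea665ae526ad2b444e8cf3d934ef1647a753e6536234f2d11cb198a21618cd9287893c4521113804b2852e97c46e40691e0a6b3ec303a613798c5e1f0501c94092210dfad3 (k8 b1893 b2109 b74 b272 b312 b66 i2301 b431 (k8 b367 b84 i534 b1901 i1047 b2025 b304 b34 (k8 i627 b2043 b42 i2302 b341 b1293 b1866 i510 (k8 b1520 i2408 i2 b785 i523 b1760 b404 b325 (k8 b0 i611 b538 b700 b130 b75 i2032 i298 (k8 i652 b414 i1051 b475 i1700 b626 b280 b349 (k8 b339 b21 b270 b637 b36 b388 b426 b1283 (k8 i1581 b7 b737 i619 b2111 i140 i2164 i337 (k4 i588 i573 i1722 i2040 k0))))))))) (by decide +kernel)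
def b2113 : PP 8 4 T 0x1000000000000001000000000010000040000000040000000010000041008204020 := rS 0x8816d0d29113a33cee7b8b27da2651c9b0d29d6304c9a7d3fc303a6317a3c62c352b058a2111b901ab9309bc3e0a03825fa3323b260a6b42974be87469e624f1148444e012511086d3 (k8 b1893 b74 b272 b66 i2 b785 i523 b1760 (k8 b404 b325 b414 i1051 b0 b1866 i510 b1520 (k8 i627 b2043 i611 b42 b538 b2109 b312 i2301 (k8 b431 b367 b1901 i1047 b737 i2302 b341 b1293 (k8 b130 b75 b346 i361 b700 b183 b349 b84 (k8 i534 b2025 b304 b141 b34 b270 b269 i2032 (k8 b280 i1561 b475 i298 i1700 i652 b626 b339 (k8 b637 b21 b36 b388 b426 b2112 b424 i978 (k2 b2086 b1962 k0))))))))) (by decide +kernel)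
def b2114 : PP 8 4 T 0x1000000000000000000000000010000000000000000000000012200050008200020 := rS 0x45552964489c026317984de1f0501c12fd2511086d3 (k8 b1893 b74 b272 b66 b2109 b312 i2301 b431 (k8 b367 b1901 i1047 b84 i534 i2 b785 b1990 (k4 i1877 i573 b364 b342 k0))) (by decide +kernel)
def b2115 : PP 8 4 T 0x1000000000000000000000000010000040000000000000000012000040008200020 := rS 0xe0894bc61a2394c9cc9ab740c303a613798c5e1f0501c12fd469e624f1148444e012511086d3 (k8 b1893 b74 b272 b66 i2 b785 i523 b1760 (k8 b404 b325 b414 i1051 b2109 b312 i2301 b431 (k8 b367 b84 i534 b1901 i1047 b2025 b304 b138 (k8 b101 b270 b390 i1786 b2114 i652 b120 b26 (k2 i1346 b1950 (k1 b1907 k0)))))) (by decide +kernel)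
def b2116 : PP 8 4 T 0x1000000000000000000000000010000040000000040000000010000041008204020 := rS 0x25156a9592254c3d49c595a652b15577116621d0b122e9ade2290897c4e593eade181d318bc62016588446e40691d7305309bc3e0a03825fa4a2210d92d3 (k8 b1893 i611 b74 b272 b66 b2109 b312 i2301 (k8 b431 b367 b1901 i1047 b2043 b737 b42 i2302 (k8 b341 b1293 b130 i619 i2 b183 b84 i534 (k8 b2025 b304 b101 b34 i2408 b785 b1866 i523 (k8 b1760 b404 i627 i510 b325 b1520 b0 b2113 (k8 b370 i1948 i770 b1283 i1050 i1581 b339 b7 (k8 b2115 b815 i2164 i331 i573 i666 i2040 b2086 k0))))))) (by decide +kernel)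
def b2117 : PP 8 4 T 0x1000000000000000000000000010000040000000040000000010000041008004020 := rS 0x1bb1de0d10a8442635648c402c362b901a4a8291c8843 (k8 b74 b272 b42 b2043 b66 i2302 b341 b75 (k8 b700 i2 b183 i611 b366 b269 i523 b2116 (k4 i651 b439 b4 b374 (k1 b2056 k0)))) (by decide +kernel)
def b2118 : PP 8 4 T 0x1000000000000000000000000010000040000000000000001000000041008004020 := rS 0x57acda2bf360fc7a1563bc1331454aa92743511a50ab566958ec55569accc2310b1582a565b0dc8c9828a4225f13804264726834fa7f86074c26f318bc3e0a0392812442090dfad3 (k8 b1893 b2109 b74 i261 b272 b312 b66 i2301 (k8 b431 b367 b84 i534 b1901 i1047 b2025 b304 (k8 b141 b34 i2302 b270 b42 b269 i2 b785 (k8 b1866 i523 b1760 b2043 i611 b341 b700 i619 (k8 i361 b346 b75 b130 b1293 b2117 i547 i1622 (k8 i1620 i490 i489 b676 b1104 b931 i2982 i2030 (k8 b98 i1634 b433 i576 b342 b133 b1948 b4 (k8 b404 b324 b119 b1498 i1719 i651 i659 i594 (k1 b1959 k0))))))))) (by decide +kernel)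
def b2119 : PP 8 4 T 0x1000000000000000004000000010000040000000000000000010000041008208020 := rS 0xfd4ea259b04d4c662d3d3ad1528c4646936934fab7409fe181d309bcc62f0f8280e097eb350ab588084ca758299c94442188dca3d43974be833cc49e2290889c02d3 (k8 b1893 i2 b785 i523 b1760 b404 b325 b414 (k8 b33 b1866 i510 b1686 b2115 b437 b284 b74 (k8 b272 b66 i2307 b2043 b1582 i1049 b1584 b432 (k8 b277 b64 b370 b2109 b312 i2301 b431 b367 (k8 b84 i534 b1901 i1047 b2025 b304 b141 b138 (k8 b101 b34 b270 i668 b1701 b1850 i69 i2170 (k8 b2065 b510 b1591 i1615 b381 b308 i1694 i2426 (k4 i2030 i331 i2235 i2031 k0)))))))) (by decide +kernel)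
def b2120 : PP 8 4 T 0x1000000000000000000000000010000040000000000000000010000041008208020 := rS 0x15aab27ac565452ab2d4caf3628c7e696120d0f121e975e2290897c4e010994cb2513e9fe181d309bcc62f0f8280e097e95d9ab588084ca758299c94442188dcad3 (k8 b1893 b437 b284 b74 b272 b66 i2307 b2043 (k8 b1582 i1049 b1584 b432 b277 b370 i502 b2109 (k8 b312 i2301 b431 b367 b84 i534 b1901 i1047 (k8 b2025 b304 b141 b34 b1895 i2408 i2386 b269 (k8 i2 b785 b1866 i523 b1760 b404 i510 b2115 (k8 b325 b1686 b33 b2119 i1828 i2224 i2194 i370 (k8 i588 b827 i620 i1697 b122 i331 i1821 b210 (k2 i2440 i1434 (k1 i2037 k0))))))))) (by decide +kernel)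
def b2121 : PP 8 4 T 0x1000000000000000002011000010004400050504000000000000000000018000000 := rS 0x714aa24e62f (k4 b84 b390 i1344 i1518 (k2 b1907 i2044 k0)) (by decide +kernel)
def b2122 : PP 8 4 T 0x1001000000000000001040500010000000800000800000000000000001118008800 := rS 0x51a9596ab572f68a7d3fc303eb58808dcad3 (k8 b1893 b437 b284 b432 b277 b367 b304 b141 (k8 b34 b303 i1415 b395 i586 i626 i362 i323 (k1 i2030 k0))) (by decide +kernel)
def b2123 : PP 8 4 T 0x1000000000000000104040500010000000000000800000000015100051008008020 := rS 0x12acb38aa556ae44af68aa641b0526778b2e46673138046a7d5ba04ff0c0e984de631787c140704bf51eb588084ca758299c94442188dcad3 (k8 b1893 b437 b284 b74 b272 b66 i2307 b2043 (k8 b1582 i1049 b1584 b432 b277 b349 b2109 b312 (k8 i2301 b431 b367 b84 i534 b1901 i1047 b2025 (k8 b304 b141 b138 b101 b34 b366 i2 b785 (k8 b390 i285 b737 b339 b640 b7 b2121 b2122 (k8 i2031 b122 i1984 i282 b395 i586 i573 b1907 (k2 i626 b1332 (k1 i2044 k0)))))))) (by decide +kernel)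
def b2124 : PP 8 4 T 0x1001000000000000202000000000000000000000005000000000000000008000020 := rS 0x4555292448c86201 (k8 i2 i982 i612 i1345 i1613 i573 b71 b342 k0) (by decide +kernel)
def b2125 : PP 8 4 T 0x1000000000000000004000000010000040000000000000000010000041008008020 := rS 0x5ed157f435328906c1528c990b15d9729e6a431a4525f13804b27d5ba04ff0c0e984de631787d9a855ac4042653ac14ce23728fd660a0392812fd36b1c72d11ebc02a132210c22d3 (k8 b1893 i523 b74 b272 b269 b2120 b439 b324 (k8 i651 b891 i408 i667 b2109 b312 b66 i2301 (k8 b431 i659 b603 b437 b284 i2307 b2043 b1582 (k8 i1049 b1584 b432 b277 b64 b370 b367 b84 (k8 i534 b1901 i1047 b2025 b304 b141 b138 b101 (k8 b34 i2408 i2 b785 b1866 b1760 b1701 b1720 (k8 b1498 b111 b1631 i1683 i1847 b2123 i612 i2170 (k8 b2124 b2122 i2030 i2031 b98 i1719 b122 i1984 (k1 b409 k0))))))))) (by decide +kernel)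
def b2126 : PP 8 4 T 0x1001000000000000009000400410000000000000800400000005000055118008800 := rS 0x58aed04b740c303ed3 (k8 b1893 b367 b304 b138 b101 i2031 i1944 i1296 (k1 b2122 k0)) (by decide +kernel)
def b2127 : PP 8 4 T 0x1000000000000000000000000010000040000000000000001000000041008000020 := rS 0x1291438aa512a660a4e2cb93bb24d43334d3d843d1c9b566f01fb442ab588084ca7533b94460e47c14e6290897c4e01098d4fa7f86074c26f318bc3e0a0392812442090dfad3 (k8 b1893 b2109 b74 i261 b272 b312 b66 i2301 (k8 b431 b367 b84 i534 b1901 i1047 b2025 b304 (k8 b141 b34 b366 b269 i2 b785 b1866 i523 (k8 b1760 b390 b2043 b349 b2118 b284 b437 i2307 (k8 b1582 i1049 b1584 b432 b277 b2120 i651 b603 (k8 b439 i659 i667 b891 b324 b2125 b135 i1828 (k8 i290 b308 i612 b640 b737 b339 b7 b2121 (k4 b2126 i282 i573 b1907 (k2 b342 i2044 (k1 b435 k0)))))))))) (by decide +kernel)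
def b2128 : PP 8 4 T 0x1000000000000000000000000010000040000001000000001000000040008200020 := rS 0x2a9649554a99123f1c3416e8163b2d466942ab4fb0c0e984c62f5c9dc6a8f19c44de1f0501c12fd49b3e2cc92b19c1c6512128884301c147a83893c452111390402d3 (k8 b1893 i2 i261 b785 i523 b1760 b404 b325 (k8 b33 b2115 b2043 i65 b74 b272 b66 b2127 (k8 b180 i346 i2307 i347 i2320 b339 b36 b7 (k8 b2109 b312 i2301 b431 b367 b1901 b320 i2169 (k8 b333 b366 i804 b1106 b84 i534 i1047 b2025 (k8 b304 b34 i1581 b931 i1583 i324 i620 i410 (k8 b138 b101 b1772 i652 i2178 b1990 i2031 i573 (k4 b2022 i331 i2040 i665 k0)))))))) (by decide +kernel)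
def b2129 : PP 8 4 T 0x1000000000000000000000000010000040000000000000001000000040008200020 := rS 0x2ad2aa9592254c3f611b107121ebc45211138056e8165a8d5a7d86074c26317ae4ee35478ce226f0f8280e097ea4e2cc92b19c1c651212888412180e0ad3 (k8 b1893 b2043 i65 b74 i261 b272 b66 b2127 (k8 b180 i346 i2307 i347 i2320 b339 b7 b2109 (k8 b312 i2301 b431 b367 b1901 b320 i2169 b333 (k8 b366 i804 b1106 b84 i534 i1047 b2025 b304 (k8 b34 i1581 i324 i620 b138 b101 i2 b785 (k8 i523 b1760 b404 b2115 b325 b33 b2128 i668 (k8 i2224 i2031 i2164 i331 i573 b2022 i2440 i2040 k0))))))) (by decide +kernel)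
def b2130 : PP 8 4 T 0x1101000000000010500000410000000444800001150408001000000000008000000 := rS 0x286ab5a1a9988d5e9719f16 (k8 b339 b36 b1319 i1416 i1846 b1164 b1191 i894 (k2 i586 b425 (k1 b433 k0))) (by decide +kernel)
def b2131 : PP 8 4 T 0x1000000000000000000000000010000040000000000000001000000040008000020 := rS 0x352f5548d4aaa55c8958d154c831e8e4dab3780fda21567a4e2cb947ab4d2856499d96653b8ccac0e43a8e222440adcfb0c0e984de630f8280e4a1a82426272217c8203218060a2f7e8a422d3 (k8 b1893 i523 b1760 b2109 b84 b2043 i2 b74 (k8 i65 i261 b1866 b272 b785 b269 b312 b366 (k8 b66 i2301 b431 b367 i534 b1901 i1047 b2025 (k8 b304 b34 b101 b138 b2127 b320 i324 i927 (k8 i346 i347 i2169 i804 b180 i620 i2307 i2320 (k8 b931 i1583 i1581 b333 b1106 b339 b7 b36 (k8 b2129 i651 b603 b439 i659 i667 b891 b324 (k8 b2130 i2031 b122 i1821 i282 b395 i573 b2022 (k4 i1925 i2040 i1985 b1191 (k1 i586 k0)))))))))) (by decide +kernel)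
def b2132 : PP 8 4 T 0x1001000000000000000000000000000000800000000400100000000000018010500 := rS 0xb8b227d1562d3 (k4 b1893 i1296 b303 b719 (k2 b164 b1972 (k1 i513 k0))) (by decide +kernel)
def b2133 : PP 8 4 T 0x1100000000000010000000000000000040000000050000000000000000008144020 := rS 0x390664708b241a9d (k8 b510 i521 i611 i523 i265 b538 b341 b2089 k0) (by decide +kernel)
def b2134 : PP 8 4 T 0x1100000001000000000000000010000000000000000000002000000001008005220 := rS 0x2d54b1023084467d3fc303a1f2028d82d3 (k8 b1893 i1266 i2140 b319 i2136 b90 b304 b141 (k8 b34 i2137 b127 b341 b432 i2143 b277 i2030 k0)) (by decide +kernel)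
def b2135 : PP 8 4 T 0x1101000000000000050000000011000000800400020000002000140001008015020 := rS 0x2519caa19ab687115a32d4ae46098146084fc4cbe21118d4b20b289f4ff0c0e87c808f1880586d3 (k8 b1893 b700 i2 b183 b349 b319 i2136 b90 (k8 b304 b141 b34 b32 i300 b534 i2210 i2137 (k8 b127 b363 b33 b151 b2132 i2140 i263 i1266 (k8 b2134 b430 i1387 i2030 b277 b425 i1288 b1110 (k4 b433 b427 i1659 i2697 k0))))) (by decide +kernel)
def b2136 : PP 8 4 T 0x1000000000000000000000000010000040400000000000000000000040008000020 := rS 0x1e5329b2e8b0c2715901912b1a28252ea6019cc5e293d8e4de515ba0618371e8fde01509b441627268743e40243f422d3 (k8 b1893 i523 b2109 b2131 b319 i2136 b90 i72 (k8 b86 i300 b278 b1984 i377 b439 b119 b324 (k8 b374 b304 b138 b101 b32 b1901 b891 i754 (k8 b1760 b84 b390 i65 i2031 b220 b1983 b122 (k8 i1822 i282 b431 b164 b709 i1224 i520 i513 (k4 b983 i980 i1013 b421 k0)))))) (by decide +kernel)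
def b2137 : PP 8 4 T 0x1101000000000000000000000010000040800000040000002000000001008144020 := rS 0x1913a77068e5a2c5638dde011 (k8 i523 b439 b374 b4 b297 b278 b891 i521 (k4 i752 b510 b2133 b2135 k0)) (by decide +kernel)
def b2138 : PP 8 4 T 0x1000000000000000000000000000000000000000280200000000000000008000000 := rS 0x1388c (k2 i1624 i1623 (k1 i3075 k0)) (by decide +kernel)
def b2139 : PP 8 4 T 0x1100002000000000004100000010000000000110500250002000000051448010000 := rS 0x444eeb52b1550c6c428bc805f1387442cd (k8 i1970 b127 b90 b86 b363 b319 b84 b2082 (k8 b1498 b1720 i1698 i515 i934 i751 b11 b1975 k0)) (by decide +kernel)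
def b2140 : PP 8 4 T 0x1000000000000000000000000010000040000000000000000000000041008004020 := rS 0x15cd910a7b9584695e9d4d666828a442232c9715c3f78054e2630196d660828c30be1109b441627268743e40243f504d3 (k8 b1893 b2136 b2109 b2131 b319 i2136 b90 i72 (k8 b86 i300 b278 b1984 i523 b363 b304 b32 (k8 b2132 i1428 i776 i65 i1349 i750 i377 b439 (k8 b119 b1108 b1985 b534 i2137 b127 b1760 b2043 (k8 b2137 i547 i1588 i1986 b2138 b2139 b52 b135 (k4 b432 b308 b11 i515 k0)))))) (by decide +kernel)
def b2141 : PP 8 4 T 0x1000000000000000000000000010000040000000000000000000000040008004020 := rS 0x30ee4788b944803828d48048 (k8 b2131 b319 i2210 b2043 i65 b2140 b298 b320 (k4 i2142 i804 b341 b939 k0)) (by decide +kernel)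
def b2142 : PP 8 4 T 0x1000000000000000000000000010000040000000000000000000000040008000020 := rS 0x935c9d4ee955a99c665412395580e38980c62d04208fe518602cb2350faa43a5f201202203009cdfad3 (k8 b1893 b2109 b390 i2 i65 i523 b2131 b319 (k8 b363 b90 i1086 i2136 i2210 b534 i300 b304 (k8 b32 b141 b2136 b2132 i1264 i1349 i263 i750 (k8 b2141 i343 b437 i338 i339 i2167 i542 i1288 (k4 i1558 i804 b715 b644 (k2 i1282 b1345 k0)))))) (by decide +kernel)
def b2143 : PP 8 4 T 0x1000000000000000500010005000014000010000045008001000000000008000000 := rS 0x15a65 (k2 i1580 i1581 (k1 i2040 k0)) (by decide +kernel)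
def b2144 : PP 8 4 T 0x1100000000000000100000000000000000000800040000010000000000008000000 := rS 0xcb17 (k2 b21 i1548 (k1 b339 k0)) (by decide +kernel)
def b2145 : PP 8 4 T 0x1000000000000000504010000800104080010000845008001000001400008000000 := rS 0x12aab54a257a97 (k4 i1898 i1984 i283 i578 (k2 i586 b2086 (k1 b2143 k0))) (by decide +kernel)
def b2146 : PP 8 4 T 0x1000000000000000000000000000000000808000000000000004000400018000000 := rS 0x2213470 (k4 i815 i816 b1907 i1443 k0) (by decide +kernel)
def b2147 : PP 8 4 T 0x1000000000000000000000000010000000000000000000001000000040008004020 := rS 0xcd4395ceeb94299c462135391863165895930523934b2c506a64d2c7369f618938a2a52ea641adca25c409e87e3d7804c06150e8a4222700a28c26f0f98c1407250248841218bdfad3 (k8 b1893 b2109 b84 b74 i261 b272 b312 b66 (k8 i2301 b431 i534 b367 b1901 i1047 b2142 i2 (k8 b785 i484 b1760 b2025 b417 i65 i1882 b439 (k8 b324 b603 i492 i1894 i491 b1895 i1931 b2146 (k8 i2031 i1898 i578 b342 b71 b304 b34 i2311 (k8 b189 i3097 i3114 i2302 b481 i2408 b270 b42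 (k8 b2043 i611 i346 i619 b183 b700 b341 b536 (k8 b82 b1293 i2309 i1869 b737 b2144 b2145 i817 (k2 i1971 i2032 k0))))))))) (by decide +kernel)
def b2148 : PP 8 4 T 0x1000000000000000000000000010000000000000000000001000000041008000020 := rS 0x5cad4eec9880cd3a21611959a752ba3e0a731ab1cda7d3fc30e2894ca4d2b1454a5d4c835b944b8813d0fc7af00980c2a1d148444e01309bc3e630501c122f7e88dcacf3383894442090d14d3 (k8 b1893 b2142 b74 i261 b272 b66 b2147 i2307 (k8 i1979 b437 b284 b2109 b84 b312 i2301 b431 (k8 i534 b367 b1901 i1047 i2 b785 i484 b1760 (k8 b2025 b417 i65 i1882 b439 b324 b603 i492 (k8 i1894 i491 b1895 i1931 b2146 i2031 i1898 i578 (k8 b342 b435 b71 i3114 i283 b1907 b304 b141 (k8 b34 i2311 b189 b366 b390 b2043 b349 i502 (k8 b1582 i1971 i1049 b2102 b1584 i1906 i291 b432 (k4 i618 b640 b277 b737 (k1 i2044 k0)))))))))) (by decide +kernel)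
def b2149 : PP 8 4 T 0x1000000000000000000000000010000000000000000000001000000040008000020 := rS 0xa7308d6a4552e51ead64af596653b8ccaca388890ce0e4aa4e28a94ba99067d860756e8130944de630f8f41469780a40e6d2e1e87e11250d41227221048601828bdfa1509a2806d3 (k8 b1893 i65 b2142 i1882 b417 b2109 b84 b2043 (k8 i2 b74 i261 b272 b785 b312 b366 b66 (k8 i484 b603 i492 i491 i2311 i2301 b1760 b439 (k8 i3097 b431 b324 b367 i534 b1901 b1895 i1047 (k8 i1894 i1931 b2025 b304 b34 b2146 i2031 i1898 (k8 i578 b342 b71 b435 b2147 i2307 b2148 b320 (k8 i324 i347 i2169 i804 b180 i620 i1985 i2320 (k8 i1581 b333 b1106 i2040 i580 i586 i367 b308 (k1 b135 k0))))))))) (by decide +kernel)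
def b2150 : PP 8 4 T 0x1000000000000000004000000010000000000401000000000000000041008011020 := rS 0x2c8d45658d14d34f8893d4ccc04a147e3d62b1cbaf082bf4be150980c9a271088c52452c82d06b740c303a1f2021e32792423514d3 (k8 b1893 b2142 i76 b2149 i1012 b279 b198 b319 (k8 i2136 b90 b304 b138 b101 b758 i300 b534 (k8 i22 b1032 i2137 b127 b86 i72 i65 i1882 (k8 b417 b318 b2109 b2043 b439 b258 b189 b481 (k8 b324 b119 b1520 b1985 i2032 i2031 b719 b370 (k8 b329 i1831 b122 i1822 b2090 b308 b164 i2326 k0)))))) (by decide +kernel)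
def b2151 : PP 8 4 T 0x1001000000000000000004100000000000400000000400102000000000008020520 := rS 0x2b80c4f2989c3ad3 (k8 b1893 b90 b86 b332 b719 b431 b2021 i2338 k0) (by decide +kernel)
def b2152 : PP 8 4 T 0x1001000000000000000004000000000080100044000000102000000000008020420 := rS 0x4ba64e29b3018c5a08589ec6c5b01804be27419e51b19 (k8 b279 i76 i1012 b758 b86 b318 i2 i65 (k8 i1757 i524 i753 i3048 b2151 i1264 i1349 i263 (k4 i994 i750 i1939 i1283 (k1 b421 k0)))) (by decide +kernel)
def b2153 : PP 8 4 T 0x1000000000000000000000000010000000000000040000000000000041008004020 := rS 0x619dc1a6d8284502b728c303a6f0f82c8048453f4e6d3 (k8 b1893 b390 b2109 b2142 b2149 b319 i300 i2136 (k8 b1901 b90 b304 b32 b101 b138 b2152 b2043 (k4 i555 i521 i752 b700 (k1 b2150 k0)))) (by decide +kernel)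
def b2154 : PP 8 4 T 0x4001000000000000002000000000000000400000100000000002000000000008000000 := rS 0xef11 (k2 b370 i2510 (k1 b294 k0)) (by decide +kernel)
def b2155 : PP 8 4 T 0x1000000000000000000000000010000000000000000000000000000041008004020 := rS 0x2ab2d6a57364419a6b349d55b173323e0a531088cb27f62b1d0a5f439749a4f55aca8ab1530f4524530818123f7804c2a833ca36322708a056e5186074de1f451cc1640243f406d3 (k8 b1893 i65 b2109 b2149 b319 i300 b390 b2142 (k8 i2136 b1901 b90 b304 b32 b101 b138 b2152 (k8 b86 b279 i76 i1012 b758 b417 i1882 b439 (k8 b119 b1983 b431 i1224 i22 b1032 b324 i2031 (k8 i1822 b122 b164 b721 b719 i72 b258 b2107 (k8 b318 b1520 b4 b297 b141 b534 i2137 b127 (k8 b332 b2043 b349 b2153 b85 i1622 i1588 i1624 (k8 i2373 b2154 b179 b1498 b11 b277 i2381 i1697 (k1 b162 k0))))))))) (by decide +kernel)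
def b2156 : PP 8 4 T 0x1000000000000000000000000010000000000000000000000000000040008004020 := rS 0x30ee4788b944803828d48048 (k8 b2149 b319 i2210 b2043 i65 b2155 b298 b320 (k4 i2142 i804 b341 b939 k0)) (by decide +kernel)
def b2157 : PP 8 4 T 0x1000000000000000000000000010000000000000000000000000000040008000020 := rS 0x499d4eeb94aad46654123001c2c388189e091fbc0227f40adca26f41c3016350f9e43a2720120261546c6514fd179cc06d3 (k8 b1893 i65 b390 b84 b2109 b2142 b279 i76 (k8 b417 i1882 b2149 b319 b86 b90 i1012 i2136 (k8 i2210 i300 b304 b758 b1901 b32 b101 b138 (k8 b141 b2152 b439 b119 b1983 b719 b431 i749 (k8 i520 b2156 i600 i338 i339 i2167 i1247 i1518 (k4 i1250 i804 b715 i1242 (k1 b1345 k0))))))) (by decide +kernel)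
def b2158 : PP 8 4 T 0x1100000000000000014000000000000005000001400010000400000055508000000 := rS 0x34d3d98c7 (k4 b475 i2032 b329 i1831 (k1 b308 k0)) (by decide +kernel)
def b2159 : PP 8 4 T 0x1000000000000000000000000000000040000000040000000010000040008204020 := rS 0x2b4ca6c46ac4f28143aae246b788fc26502c8a422934a895868f108c58a23720348e855cc15962700b252f14318bd52893093c94fd0511086a0 (k8 b2157 b74 b272 i308 b347 b66 i755 i1048 (k8 i2160 i573 b392 i534 b342 b364 i611 i2 (k8 b785 i619 b2043 b737 b937 b42 i2302 b341 (k8 b1293 b75 b183 b82 i1132 b700 i346 b435 (k8 b71 i484 b1760 i2408 i309 b269 i402 b404 (k8 i627 b325 b1967 b0 b60 b414 i1315 i1051 (k4 b2158 i1700 i1702 i2040 k0))))))) (by decide +kernel)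
def b2160 : PP 8 4 T 0x1000000000000000000000000000000040000000040000000010000040008004020 := rS 0x3763bc1a215098d42227648c402c362b901a4a8291c8843 (k8 b74 b272 b42 b2043 b66 i2302 b341 b75 (k8 b700 i2 b183 i611 b785 i484 b366 b269 (k4 b2159 i651 b439 b4 (k2 b374 b2056 k0)))) (by decide +kernel)
def b2161 : PP 8 4 T 0x1000001000000000000000000000000040000000000000000010000040008004020 := rS 0xa1289563f099413314318bd52897e895960a478846223720348f05569849ea0669d89a852b1984e01649288843 (k8 b74 b272 b66 i611 i2 b785 b2160 i489 (k8 b931 b270 i490 b676 b2157 i755 i1048 i1622 (k8 b2043 b42 i2302 b341 b1293 b183 b82 i1132 (k8 i308 i619 i346 b347 i2160 i573 b392 i534 (k8 b342 b133 i309 b269 i402 b1967 b1966 b433 (k1 b98 k0)))))) (by decide +kernel)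
def b2162 : PP 8 4 T 0x1000000000000000000000000000000040000000000000001000000040008004020 := rS 0xaf2dacda26c43055e06942b34ac762a9accc5f26940521113a5d3314318bd52893093dfa0a503244ac3108c40223720349447221048705 (k8 b2043 b74 i261 b272 b42 b66 i2302 b341 (k8 b1293 i2 b183 b82 b700 i346 i611 b2157 (k8 i308 b347 i755 i1048 i2160 i573 b392 i534 (k8 b342 b133 b364 b785 i484 b1760 i309 b270 (k8 b1866 b2160 i547 i1620 i490 i489 b676 b931 (k8 i2982 b2161 b404 b1720 b1498 i651 i659 i777 (k2 i2318 b1968 k0))))))) (by decide +kernel)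
def b2163 : PP 8 4 T 0x1000000000000000000000000000000000000000000000001000000040008004020 := rS 0xad3295998875c9dd0a67559a8d2f036970f4154508c42e4618c5962564c142647269401a59148444e0149a56286317aa5126127929fa0a2210486a0 (k8 b2157 b74 i261 b272 i308 b347 b66 i755 (k8 i1048 i2160 i573 b392 i534 b342 b435 b71 (k8 i2 b785 i484 b1760 i2408 i2302 i309 b270 (k8 b42 b269 b2043 i611 i346 i619 b183 b700 (k8 b341 b82 b1293 b2162 b417 i492 i491 i2311 (k8 b439 i3097 b2042 i2315 i2309 i1869 b2144 b737 (k4 i817 b1720 i1971 i1580 (k2 i1582 i2040 k0)))))))) (by decide +kernel)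
def b2164 : PP 8 4 T 0x1000000000000000004000000000000040000000000000001000000041008200020 := rS 0xd4b2a7b446232349b49a998a18c5ea9449849efd053350b1010994eb053388dcaaf439741c5f58a04a0a0469e624f1148444e01251108243 (k8 b74 i261 b272 b66 i2 b785 i484 b1760 (k8 b404 b325 b414 i1051 b2157 i309 b60 i1315 (k8 b1866 b2163 i510 b1686 i2316 b437 b284 i2307 (k8 b2043 b1582 i1049 b1584 b432 b64 b370 i308 (k8 b347 i755 i1048 i2160 i573 b392 i534 b342 (k8 b133 b270 i668 b1701 b1850 i69 b2065 b1591 (k2 b455 b308 (k1 i2426 k0)))))))) (by decide +kernel)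
def b2165 : PP 8 4 T 0x1000000000000000000000000000000040000000000000001000000041008200020 := rS 0x5cb2d92a319b0926958a18c5ea9449849efd052ad4aad3ec4042653ac14ce4a11b941c502210486a0 (k8 b2157 b74 i261 b272 i309 b2163 b437 b284 (k8 b66 i2307 b2043 b1582 i1049 b1584 b432 b65 (k8 i1313 i2214 i580 i308 b347 i755 i1048 i2160 (k8 i573 b392 i534 b342 b435 b71 b2164 i2173 (k4 i2194 i612 i620 b737 (k1 i2040 k0)))))) (by decide +kernel)
def b2166 : PP 8 4 T 0x1000000000000000004000000000000040000000000000001000000041008000020 := rS 0x3f5096ccb57235765b35218d2832f8a52e998a18c5ea944bf556a566a155a7d88084ca758299c46e5282cc14f0098444e013683936d10a9849ea0251108243 (k8 b74 i261 b272 b66 b2157 i755 i1048 b2165 (k8 i651 b983 b2163 i667 i2 b785 i484 b269 (k8 b439 i308 i659 i309 b437 b284 i2307 b2043 (k8 b1582 i1049 b1584 b432 b65 i1313 b64 b370 (k8 i2214 i580 b347 i2160 i573 b392 i534 b342 (k8 b133 b364 b1760 b1866 i919 b1701 b1720 b1498 (k8 i778 i1684 i1965 b936 i626 i500 b433 i856 (k1 b337 k0)))))))) (by decide +kernel)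
def b2167 : PP 8 4 T 0x1000000000000000000000000000000040000000000000001000000041008000020 := rS 0xca572e5628d649a866bb34d3d843936acda215569f62021329d60a132824d2a998a18c5ea9449849efd0508dca67252ac1ca52210486a0 (k8 b2157 b74 i261 b272 i2214 b2163 i580 b66 (k8 i2307 b437 b284 i308 b347 i755 i1048 i2160 (k8 i573 b392 i534 b342 b133 b435 b71 i309 (k8 b269 b2043 b1582 i1049 b1584 b432 b65 i1313 (k8 b2165 i651 i659 i667 b891 b2166 b135 i1828 (k8 i1945 i290 b308 i612 i1965 i1967 b737 b455 (k2 i2040 i626 k0))))))) (by decide +kernel)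
def b2168 : PP 8 4 T 0x1100000000000000000000005000000000000000041000200010000002008000820 := rS 0xb965b255a652b154064a49a5628631791086fd (k8 b347 b74 b272 b392 i534 b342 b435 b71 (k8 b66 i65 i763 i347 b180 i1314 i2320 i2322 (k2 b737 i2040 k0))) (by decide +kernel)
def b2169 : PP 8 4 T 0x1000000000000000000000000000000000000000000000001000000040008000020 := rS 0x288a657b0686ca56ae4fac95dc4066c266b1c42cf58accf45b0a99514752b89556677288c1c9549c5152637e964c20728295120a250bc9e272210486018287540d3 (k8 b1893 b2157 i89 b2043 i2 b74 i261 b272 (k8 b785 i755 b392 b66 i308 i2160 i2214 i309 (k8 i480 i1048 i2408 b347 i534 i573 b342 b71 (k8 b435 b2163 b284 b437 i2307 i580 b2168 i502 (k8 b1582 b2167 i1049 b417 i1884 i492 i2310 i1886 (k8 i1979 b1584 i408 b959 b2102 i291 b432 i1945 (k8 i612 b65 b737 i1313 i2040 b79 i1245 i626 (k2 b257 b395 (k1 b122 k0))))))))) (by decide +kernel)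
def b2170 : PP 8 4 T 0x1100000000000000014000000000000040000401000110002000000041408010000 := rS 0x8b9d5e1182b84d1a6a678cdc869a7c4598876389c42d1149142a40479e50a5f (k8 b363 b1520 i1013 b349 b319 i377 i22 b1032 (k8 b278 b127 b86 b189 b686 i2032 b370 b329 (k8 i1831 b432 b1110 b1168 b308 i1964 i1960 i507 (k4 b120 b439 i1011 b989 (k1 b294 k0))))) (by decide +kernel)
def b2171 : PP 8 4 T 0x11100000000000002000001014100000000000000400010000100000001508005540 := rS 0x32ca2c12b390ab11 (k8 b370 i770 b432 b345 b346 b600 i505 b581 k0) (by decide +kernel)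
def b2172 : PP 8 4 T 0x1000000000000000000000000000000040000000040000000000000041008000420 := rS 0x13e6489a19e0cd349acd8855697556fc04a0cbe2710b444629228d4b207388be1a7b52ad540c9479dd8a110ab0c1b050790090d3 (k8 b1893 b2169 b319 i338 b2043 i521 b700 i377 (k8 i523 b481 i752 b349 i1124 b2157 i880 i363 (k8 i754 b321 i2187 i796 b749 b534 i2210 i22 (k8 b1032 i2137 b278 b127 b86 b363 i919 i2139 (k8 b2011 b721 b974 b405 b1520 b2170 i147 i40 (k4 b2171 b2075 b1720 b0 (k2 b2087 b2077 (k1 i1699 k0)))))))) (by decide +kernel)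
def b2173 : PP 8 4 T 0x1001000000000000000011004000014400000410000004182000000000008000000 := rS 0x3e9d4a673 (k4 b323 b332 i1011 i1274 (k1 b1412 k0)) (by decide +kernel)
def b2174 : PP 8 4 T 0x1000000000000000000000000000000040000001040000000000000041008000020 := rS 0x1e0eacc671a9c8694391cab112b2ad7237320e5e09f09c4cb8c7219344e23148d4b28f5a9dd3ad1628442ac37e9448acb4aa24620d828041e938a1ce1a6f2702896711790090a0 (k8 b2157 b2169 b319 i2187 i796 i29 b2172 i301 (k8 i1272 b321 b323 b413 b71 i338 i2 b2043 (k8 i521 b183 i2159 b2086 i619 i22 i493 b347 (k8 b700 i377 i523 b481 b278 b510 i752 i880 (k8 b349 b534 i2210 b1032 i2137 b86 i72 b74 (k8 b189 b2170 b22 b253 b150 b325 b891 b2133 (k8 b374 i1027 i1659 b2173 b11 i33 b882 b769 (k8 b873 b1583 b1433 b874 i508 i2689 b1168 i1973 k0)))))))) (by decide +kernel)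
def b2175 : PP 8 4 T 0x1000001000000000000000000000540000404014000000080000000054008110100 := rS 0x2d95e794084a2473 (k8 b323 b325 b439 b60 b414 i1921 b421 i762 k0) (by decide +kernel)
def b2176 : PP 8 4 T 0x1000000000000000000000000000000048000000040000000000000041008000020 := rS 0x9f3244c6ac947b0c1b05079b1e0994bc50e70d4dacda26f25938147b089c45e151491480272420c12a0 (k8 b2157 i2139 i919 b2169 b86 b319 i22 b1032 (k8 i377 i2187 i796 i523 i754 b2172 i301 i29 (k8 i1272 b278 i659 b2016 b321 b323 b413 b364 (k8 b133 b2175 b2174 i338 b2043 i521 b700 b349 (k4 i1124 i2210 b0 b2087 (k2 b2077 i1699 k0)))))) (by decide +kernel)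
def b2177 : PP 8 4 T 0x1000000000000000000000000000000040000000040000000000000041008000020 := rS 0x3e2b55cb688a04f27f66174aa8763bc10a6935d3cd8994bc51366f39acca24e7e82986c506c161a094192ca65f13885a223149142a59388bd40113d83c8048 (k8 b2169 b319 i338 i754 i523 b2157 i2187 i796 (k8 b534 i377 i22 b1032 i2137 b278 b127 b86 (k8 b363 b332 i29 i919 i2139 b321 b2043 i521 (k8 b481 b700 b2172 b347 i301 i493 i659 b323 (k8 i1272 b2016 b413 b364 b133 b2174 b384 i147 (k8 i40 i1604 b2175 b4 b2176 i1697 i516 i2032 (k8 i759 i1013 i1276 b370 b421 b1302 b177 b730 (k1 i1273 k0)))))))) (by decide +kernel)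
def b2178 : PP 8 4 T 0x1000001000000000004000000000000000000000080000000000000041008010020 := rS 0xc4188e10a873404a24271088c52450a9019a7526c5d1e48 (k8 b2169 b349 b85 i72 i1588 b2154 b319 i377 (k8 i22 b1032 i2137 b127 b86 b325 b439 b2075 (k4 b0 b25 i266 i2935 (k2 b855 i1880 k0)))) (by decide +kernel)
def b2179 : PP 8 4 T 0x1000000000000000004000000000000002000000080410000020000001508010000 := rS 0xd05c (k2 b1520 b2082 (k1 b2138 k0)) (by decide +kernel)
def b2180 : PP 8 4 T 0x1000000000000000440000000104000008000000000000000401000040008014420 := rS 0x14cb759afd454309b0472e406c60a87957ab5625d55bf0125f108a48a15039c45e4086922274f5da0d40d3 (k8 b1893 b2157 i919 i1684 b111 b0 b2169 b321 (k8 b319 i2187 i796 b749 i377 i22 b1032 b127 (k8 b363 i2139 b2011 b721 b974 b382 b405 b76 (k8 i1013 b646 b680 i1489 b1502 b107 b346 i266 (k4 b2049 i2027 i1719 b1839 (k2 i857 b464 (k1 b256 k0))))))) (by decide +kernel)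
def b2181 : PP 8 4 T 0x1000000000000000000004000000540000404054000080104000000000008000000 := rS 0x10279 (k2 i1808 i1810 (k1 b421 k0)) (by decide +kernel)
def b2182 : PP 8 4 T 0x1000000000000000004000000000000040000000000000000000000041008000020 := rS 0x3622772b154b85b4ca5e289b5b9bce6b32893814cb361a62686428f58ef082c35064b2f89c42d1118a48a152c9c45e113da95400f201ad3e4701b34ea4d8b9991e48 (k8 b2169 b349 b2177 b85 i72 i1588 b2154 i65 (k8 i1618 i1714 i547 b319 i338 b2157 i363 i754 (k8 i523 i2187 i796 b534 i377 i22 b1032 i2137 (k8 b278 b127 b86 b363 i29 i919 b321 b2043 (k8 b2178 b4 b324 b2179 b1720 b0 i1564 b476 (k8 b505 b2180 i301 i493 i659 b323 i1272 i2519 (k8 b2016 b413 b364 b133 b2181 b330 i1698 i515 (k4 i751 b11 b939 b2080 k0)))))))) (by decide +kernel)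
def b2183 : PP 8 4 T 0x1000000000000000000000000000000040000000000000000000000041008000020 := rS 0x4872ce439e4ba573b9b0663088154d29d428329ee561334ea474f9ae2e6607a3c060182934be21118a48a3520044f648 (k8 b2169 i754 i523 b319 i2210 i22 b1032 i2137 (k8 b127 b363 i72 b2043 i2 i65 b349 i338 (k8 b2177 b85 i547 i1714 i1618 i1588 b2154 b2182 (k8 b52 b135 b700 i1866 i1906 i1829 b1502 b432 (k8 i522 i1610 b308 i751 b11 i515 i1013 b646 (k4 b388 i1977 b645 i266 k0)))))) (by decide +kernel)
def b2184 : PP 8 4 T 0x1000000000000000000000000001000004004001440102002000000000008000000 := rS 0x214f25f (k4 b363 i1013 b1520 b741 k0) (by decide +kernel)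
def b2185 : PP 8 4 T 0x1100000000000000000000000061000004404401440002002400000402008100100 := rS 0x4a9ccfe5144a94145b2e3348a40039c61ab549ae59f16479d622d3 (k8 b1893 b320 b715 b290 b294 b36 b387 b7 (k8 i881 b321 i796 b749 b319 i22 i770 b2184 (k8 i35 b974 i2212 i2159 i493 i843 b966 b2022 (k1 b1345 k0)))) (by decide +kernel)
def b2186 : PP 8 4 T 0x11002000000000000000000400000000140000010000000002000000400008150001 := rS 0x115399bcc4893081c72d1 (k8 b278 b891 b749 b137 b2085 b2071 i1008 b401 (k2 b55 b413 k0)) (by decide +kernel)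
def b2187 : PP 8 4 T 0x1000000000000000000000000000000040000000000000000000000040008000020 := rS 0x4a9ccfe51449394a0a7ea35666a67ae526138b275928f5a9b4ce332a28c1cc5069d4ee4743c45ca243d8440601828247e832f9142a352c81ce22f204354048 (k8 b2169 b2157 b321 b319 i2187 i796 b749 b534 (k8 i2210 i377 i22 b363 i919 i402 i2139 b2043 (k8 i2 i65 i523 i754 b2183 b298 b320 i927 (k8 i2142 i804 b715 b939 b481 b341 i2190 i339 (k8 i2167 i542 i667 i881 b290 i612 b845 b294 (k8 b1356 b7 b387 b36 b2185 b2072 i1964 b2186 (k8 b2011 i2212 i301 i2159 i493 i843 b323 b2022 (k1 b1345 k0)))))))) (by decide +kernel)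
def b2188 : PP 8 4 T 0x1000000000000000000000000000000000000000440000000000000041008010020 := rS 0x194448ccc42b15e05d2f89c4223149142a590980d1e6d618360a0f2021cef193ca289a48 (k8 b2169 i72 b2187 i1854 b279 i752 b198 b319 (k8 i338 b2043 i521 b700 i555 b349 i65 i1882 (k8 b534 i377 i22 b1032 i2137 b127 b86 b363 (k8 b258 b439 b481 b1520 b1720 b2158 b370 i264 (k1 b1110 k0))))) (by decide +kernel)
def b2189 : PP 8 4 T 0x1000000000000001000000000000000000000000440000000000000041008000020 := rS 0x440e90513884462922a3c1e40069b50e778c9e5144d42c482048 (k8 b2169 b2188 b725 b25 i72 b2187 i1854 b279 (k8 i752 b198 i555 i521 b319 i338 b349 i22 (k8 b1032 i2137 b127 b86 b2043 b478 b528 b426 k0))) (by decide +kernel)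
def b2190 : PP 8 4 T 0x1000000000000000000000000000000000000000440000000000000041008000020 := rS 0x69a7b320a5920120da8a (k8 b2187 i555 b2169 b319 b534 b2043 b2189 b329 (k2 i1831 b308 k0)) (by decide +kernel)
def b2191 : PP 8 4 T 0x11102000000000000004000000000000080008011100000002400000000008155000 := rS 0x6f59185a207 (k4 b749 b278 b137 b2101 (k2 i1008 b551 k0)) (by decide +kernel)
def b2192 : PP 8 4 T 0x1000000000000000000000000000000000000000040000000000000041008010020 := rS 0x254fe7328a249c0a7eae526473d458665a2a1d62257663c0bb0d13884462922854e22f0980d1eb5501b46201618360a0f439de327945134d285351648048 (k8 b2169 b319 b534 b2190 i1869 i39 i72 b2187 (k8 i1854 b279 i752 b198 i338 b2043 i521 b700 (k8 i2 b183 i555 b2157 i880 b349 i65 i1882 (k8 i2187 i796 i377 i22 b1032 i2137 b127 b86 (k8 b321 b258 b439 b488 i507 b370 i1011 b345 (k8 b959 b1110 b294 i1883 i264 b7 b387 b2191 (k8 b2011 i301 i2159 i493 b323 b727 b2086 b1345 k0))))))) (by decide +kernel)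
def b2193 : PP 8 4 T 0x1000000000000000000000000000000000000000040000000000000041008000020 := rS 0x669d4ae5d8916c2085629a81b052689c422314914b28a4783c8048 (k8 b2169 b319 i338 b349 b2187 b534 i22 b1032 (k8 i2137 b127 b86 i72 b2043 i521 b2190 i1790 (k8 i1869 b2192 i1757 b725 b22 i507 i1011 b959 (k1 b472 k0)))) (by decide +kernel)
def b2194 : PP 8 4 T 0x1000000000000001004000000000000004000000080410000020000045508050000 := rS 0x85780a48a15 (k4 i377 i22 b1032 b439 (k2 b2179 b1720 k0)) (by decide +kernel)
def b2195 : PP 8 4 T 0x1000000000000000000000000000000000000001400000000000000041008000020 := rS 0xaae52bb10191042976241061d398e878297c4e21118a48a152c84c1e402380cd28d45334ea4d8b9991e48 (k8 b2169 b349 b2193 b85 i72 i1588 b2154 b2187 (k8 i76 i1624 i65 i1618 b319 i338 i1882 b534 (k8 i377 i22 b1032 i2137 b127 b86 b363 b2043 (k8 b476 b475 b308 b135 b2194 b725 b22 b25 (k4 b679 b479 b2158 b11 (k2 b28 i1489 (k1 b832 k0))))))) (by decide +kernel)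
def b2196 : PP 8 4 T 0x1000000000000000000000000000000000000002000000000000000041008000420 := rS 0x183433f24ce66f44a54c2af58aadf8095a9f4eea306308422966a3d0b05039c45f0d5c8c066c77845c6ae5118044e592383d0e5d08916325f2aa78ea4d349991a1301a282a402429540d3 (k8 b1893 b2157 i363 b2169 b319 i377 b2187 i65 (k8 i1882 i76 b2193 i1624 i72 i1588 i556 i3025 (k8 b363 b279 i22 i2344 b258 b646 i338 i1618 (k8 b534 b86 i2 i2137 b446 i2210 b85 b439 (k8 b4 i1711 b335 i987 b321 i2187 i796 b749 (k8 b2043 i1604 b349 b2154 b1032 b127 b1720 b700 (k8 i1648 i751 b660 i880 i2139 b2011 b721 b382 (k8 b76 b137 i1673 b2031 i1008 b401 i1510 b738 (k2 b710 i1515 (k1 b428 k0)))))))))) (by decide +kernel)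
def b2197 : PP 8 4 T 0x1000000000000000000000000000000000000002000000000000000041008000020 := rS 0x1267f379cd124e052e46033729dd8e872abc0ba9e088061a4b2f89c8a230a8d4b27117c6426a55aa801e402380cd28d451f62e8f3a9989a48 (k8 b2169 i72 b2193 i1588 b349 b85 b660 b2187 (k8 i76 i1624 i65 i1618 b319 i338 b2157 i880 (k8 i363 i1882 b279 i2187 i796 b534 i2210 i377 (k8 i2137 i22 b86 b363 i29 b321 i2 i2344 (k8 i556 b258 b439 i3025 b646 b4 i751 b446 (k8 i1711 b335 i987 b2196 i301 i2159 b323 i1272 (k2 i759 i1510 (k1 b738 k0)))))))) (by decide +kernel)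
def b2198 : PP 8 4 T 0x1000001000000000000008000400000000000000000000000004000004008000000 := rS 0xf68ad3 (k4 b1893 b70 i1783 b408 k0) (by decide +kernel)
def b2199 : PP 8 4 T 0x1000000000000000000000000000000000000000000000000000000041008000420 := rS 0x25ce689511bd32cb4a9855e5056aadf84f41a95665b60b908eb10497503123db3936365ba9c20130197c0e7117c35e2c306c141e211491446cd3ac5d1e853516480874f9b4cd193ca289a27240fd40d3 (k8 b1893 b2157 i402 b2169 b86 i72 b2187 i1854 (k8 b279 b2193 b2197 i1713 b680 b319 b534 b2195 (k8 i1869 b349 b85 i1588 b2154 i2137 i22 b1032 (k8 b127 i338 b2043 i2341 b700 b1720 b321 i2187 (k8 i796 b749 b363 i65 i1882 b2194 i1913 b2198 (k8 i524 i995 i548 i1980 b343 b60 b22 i2139 (k8 i1762 i1618 b341 b346 i1962 i2373 i363 i919 (k8 i756 b2011 b721 b694 b760 b76 b137 i1673 (k8 b567 i1938 i1008 i2027 i281 b401 i1778 b421 k0))))))))) (by decide +kernel)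
def b2200 : PP 8 4 T 0x1000000000000000000000000000000000000000000000000000000041008000020 := rS 0x9739a249c0a4da046d12081ed865b670350e6a4f9b59a758b9981e8f828fd064b2f89c42232c9c45e405046426033ca289a48 (k8 b2169 i72 b2187 i1854 i65 i1882 b279 b2157 (k8 b319 i2187 i796 b534 i2137 b127 b86 b363 (k8 i29 i919 i402 b2043 b349 i338 b2193 b85 (k8 i1588 b2154 b2197 i1713 b2195 b680 i2341 i548 (k8 i1962 b700 i1980 b2194 b343 i524 b60 i995 (k4 b2199 i301 i2159 b323 (k2 i1778 b1254 k0))))))) (by decide +kernel)
def b2201 : PP 8 4 T 0x1000000000000000000000000000000000000000400000000000000040008000020 := rS 0x148a63f2cce66f3ea24c2ad58bf15e0b27a64b4c33d53812836881ce22f86a1cdab551a80d25d22c647af008a762c8f2a0859e672c9d41c0d3b8d622e58291c48272684d14030a90090d3 (k8 b1893 b2169 b319 i377 i65 b2187 i1882 i72 (k8 b86 b2200 i2142 b2043 b298 b320 i2210 i804 (k8 b939 b341 b715 b534 i542 i1979 b127 i339 (k8 b290 b294 b313 b547 b439 b324 b279 i22 (k8 b258 i1887 b2157 i2190 i881 b731 i927 b321 (k8 i2187 i796 b749 b278 i919 i2139 b308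 b2185 (k8 b135 i753 i1941 b735 i301 i1923 b2011 b382 (k8 b405 b137 b2031 i1541 i1008 b401 b551 b733 (k2 b464 i843 (k1 i367 k0)))))))))) (by decide +kernel)
def b2202 : PP 8 4 T 0x1000000000000000000000000000000000000000000000000000000040008000420 := rS 0xfca5399bd767d53224c2af56ac5f8095a8f5e0114ec591e5410b3cce593a89c9a1345055666a1fa8c1c0d3b8d407118291dca24039c45e4086a8090d3 (k8 b1893 b2169 b2157 b321 b319 i2187 i796 b749 (k8 b2200 b298 i2142 b2043 b320 i65 i2210 i804 (k8 b939 b341 i2190 i402 b2201 b2072 i377 b2187 (k8 i1882 i72 b86 b715 b534 i542 i1979 b127 (k8 i339 b290 b294 b313 b547 b439 b324 i881 (k8 i2139 b2011 b382 b405 b76 b137 b2031 b464 (k4 i1541 i1946 i1008 b401 (k2 i368 b733 (k1 i843 k0))))))))) (by decide +kernel)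
def b2203 : PP 8 4 T 0x1000000000000000000000000000000000000000000000000000000040008000020 := rS 0x4a9ccfe51449394a0a5ca4e2c8f5a951460e069d4ee4788b9448711a8bc8a40242820a03 (k8 i65 b2043 b2157 b2169 b319 i22 i2187 i2210 (k8 i796 b2200 b298 b320 i2142 i804 b715 b939 (k8 b341 i2190 i339 i881 b290 b294 b7 b387 (k8 b2202 i2212 i301 i2159 i493 i843 b323 b2022 (k1 b1345 k0))))) (by decide +kernel)
def b2204 : PP 8 4 T 0x4001200000000000000000000000000000400000100040000001000000000008000420 := rS 0x15cc67628c443e6f0e98562af7e2a5422704a9c28530681d2f184696da23911a14d28b2511082433db2454d3 (k8 b1893 b2203 b288 b379 b74 i261 b272 b66 (k8 i492 b140 b932 i391 b271 i652 i771 i1052 (k8 b120 b26 i2301 i2302 i2386 i385 i2198 b312 (k8 i14 i308 i572 b431 i587 b382 b137 b925 (k8 b791 b144 b1894 b1895 b294 i487 i1627 b1899 k0))))) (by decide +kernel)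
def b2205 : PP 8 4 T 0x1000001000000008000001000510040020050000000000000000001001558000000 := rS 0x288981fa5176a25cb047ad3 (k8 b1893 i1346 i1345 i1403 i2030 i1951 i281 i407 (k2 i1104 b408 (k1 b275 k0))) (by decide +kernel)
def b2206 : PP 8 4 T 0x1001000000000008000000400110000005050000004000000010000001048000020 := rS 0x146c11e8fa8abb5726628a944ad620f15385022274ba6e308d2db44728b3d88e9e31618858a3558a06181d309bc945c2210c54d3 (k8 b1893 b2203 b74 b272 i386 b66 b1901 i1047 (k8 b2025 b304 b138 i1847 b125 i1794 i903 i371 (k8 i989 b412 i391 b379 i492 b271 i652 i771 (k8 i1052 b120 b72 b26 i14 i484 i385 i2198 (k8 b35 b766 b277 b2205 i573 b342 b133 i2041 (k4 i1950 b410 i588 i1781 (k2 b168 i407 (k1 b825 k0)))))))) (by decide +kernel)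
def b2207 : PP 8 4 T 0x4001001000000000000100002000000000400000100005000000000000000008000000 := rS 0xef11 (k2 b277 b1104 (k1 b294 k0)) (by decide +kernel)
def b2208 : PP 8 4 T 0x1001000000000008100000410110000001000000004001000010000001048000020 := rS 0x146c11e8fa8aae4cc5152895aaed0cb140c303a7f3e984a26f78a3d4e142e0444e5303a5d37184696da2394592888433d88e2e31619d59a21628d454d3 (k8 b1893 b2203 b125 i1794 i903 i888 i1068 i371 (k8 i989 b36 i391 b379 b74 b272 b66 i492 (k8 b271 i652 i771 i1052 b120 b72 b26 i2301 (k8 i2386 i14 i484 i386 i385 i2198 b349 b35 (k8 b1901 b1895 i1047 b1427 b1503 b2025 b304 b138 (k8 i1847 b2206 i1683 b2207 b2205 i573 b342 b133 (k4 i2041 b410 i588 i1781 (k2 b168 i407 (k1 i2030 k0))))))))) (by decide +kernel)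
def b2209 : PP 8 4 T 0x1200000000000008000000000000000000000000040000001000000001008000020 := rS 0x1311457aa4c2504493d40a55998c3efd051d62e8f668bc285c4ba6e308d2db44720f2aab50a69459288841219ec54c9 (k8 b288 b2203 b379 b74 i261 b272 b66 i492 (k8 b140 b932 b118 b30 b283 b271 i652 i771 (k8 i1052 b120 b72 b26 i386 i385 b392 i888 (k8 b349 b36 i1068 b2204 b347 b367 i534 i2328 (k8 i361 b2208 i755 i2160 i309 i1048 i573 i2316 (k2 b342 b936 (k1 b133 k0))))))) (by decide +kernel)
def b2210 : PP 8 4 T 0x101200000000000000001000000100004000000400040000001000001000008000420 := rS 0x31144de1f30ac544af7e2ad52a10491c280d0383d5acb11a14d28b2511082433db2454d3 (k8 b1893 b2203 b288 b379 b74 i261 b272 b66 (k8 i492 b140 b932 i391 b145 b118 b283 i2301 (k8 i2302 i385 b42 b312 i308 i572 b721 b431 (k8 i587 i2027 b382 b137 i240 b791 b1895 b1898 (k1 i487 k0))))) (by decide +kernel)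
def b2211 : PP 8 4 T 0x1000001000000000001000000510040028050000000000000000004001558000000 := rS 0x1fd1578825a28c7ad3 (k8 b1893 i1346 i280 i2030 i933 i934 b303 i1411 (k1 b408 k0)) (by decide +kernel)
def b2212 : PP 8 4 T 0x101001000000000000001000410110000008000400404001000010000001548000020 := rS 0xae5e265691438aa512b140c303a7f3e984a26f788bd4e5c2981d2e9b8c234b6d11ca2c9444219ecea9f150cd1ed3 (k8 b1893 b349 b1110 b2203 b197 i1707 b379 b74 (k8 b272 b66 i492 b271 i652 i771 i1052 b120 (k8 b72 b26 i2301 i2386 i386 i2198 b392 b35 (k8 b1901 b1895 i1047 b1427 b1503 b2025 b304 b138 (k8 i1847 b2211 i573 b1907 b342 b1975 b133 i934 (k2 i2041 i1986 k0)))))) (by decide +kernel)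
def b2213 : PP 8 4 T 0x1200000000000000000000000000000000000000440000001000000001008000020 := rS 0x45130af54984a08927a8166630fbf41493528c58316721de2275109590cc53633c468534ab4aa6564a7d1e2f2e0352e9b8c234b6d11ca2c94442090cf62a (k8 b2203 b379 b74 i261 b272 b66 i492 b271 (k8 i652 i771 i1052 b120 b72 b26 i2302 i386 (k8 b392 b349 b197 b288 b9 b30 b118 b140 (k8 b932 i391 b2209 b1169 i1521 i516 i515 i903 (k8 i1707 b11 i1627 b1583 b294 b346 b273 b430 (k8 b7 b2210 b347 b367 i534 i2328 b2212 i755 (k8 i2160 i309 i1048 i573 i2318 b936 b342 b133 k0))))))) (by decide +kernel)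
def b2214 : PP 8 4 T 0x1100000000000000000000004050000000000000000010000400000001558005540 := rS 0x2ac44aeb46529582e427ab5f8513e9fe18d3 (k8 b1893 b304 b141 b34 b1895 b431 b405 b293 (k8 b341 b346 b430 i2027 i2030 i505 b277 i767 (k1 b345 k0))) (by decide +kernel)
def b2215 : PP 8 4 T 0x1100000000000000000000000000000000000001440000000010000001448000420 := rS 0x3054a311945d72c867d396a6534c40eae5070046ac306965567d3fc303a274bc605a214397d46c7238fa8a3d4c18d167b57851665150971a23930aa51a5b58bf01207250bd4e4421bc454d3 (k8 b1893 b2203 b35 b74 b272 i2198 b392 b66 (k8 i2301 b312 b431 b382 i771 i1052 i572 b137 (k8 b271 i652 i386 i308 b1895 i513 i385 i587 (k8 b379 i492 i487 b455 i1786 b275 b408 b42 (k8 b475 i406 b1866 b476 i902 i981 b120 b26 (k8 i14 b925 b304 b141 b34 b721 i2408 i2302 (k8 i371 b125 i2 b2214 b437 b1582 b432 b1701 (k8 i1049 b277 b308 b412 b1191 i1143 b336 i612 (k4 i982 b171 i1614 i2030 k0))))))))) (by decide +kernel)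
def b2216 : PP 8 4 T 0x1100000000000000000000000000000000000000000000000400000000808001000 := rS 0x1ca0f (k2 b284 b1293 (k1 b341 k0)) (by decide +kernel)
def b2217 : PP 8 4 T 0x1000000000000000000000000000000000000000440000001000000001008000420 := rS 0x28c42bb6283cd83e1ed1530b3319443e6f0e98562af7e2ad52a113bc5860917a9c285c2c81d2f184696da239459ec54238283494472210486d3 (k8 b1893 b74 i261 b272 b42 b66 i2302 b2213 (k8 b2216 b2203 b379 i492 b271 i652 i771 i1052 (k8 b120 b26 i2301 i2408 i386 i385 i2198 b392 (k8 b312 i371 b35 i14 i308 i572 b721 b431 (k8 i587 b382 b137 b925 b791 b144 b1895 i487 (k8 i513 b455 b275 i1786 b408 b2215 i668 i1521 (k4 i1681 i903 i407 b2214 k0))))))) (by decide +kernel)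
def b2218 : PP 8 4 T 0x1000000000000000501010000110000000000000200000000010004001558000020 := rS 0x4428950b5421504e5c4bc611a5b688e5164a2210cf62a3e9fe18d3 (k8 b1893 b304 b141 b34 b2203 b379 b74 b272 (k8 b66 i492 b271 i652 i771 i1052 b120 b26 (k8 i386 i14 i1850 i1849 i768 b937 i2030 i573 (k1 i280 k0)))) (by decide +kernel)
def b2219 : PP 8 4 T 0x1100000000000000000000000010000000000001440000000010000001008004820 := rS 0x15b43512d556543233d0a6960ae466a565b9192d11ca34b68b3d88c1a475997042872f8a8fa7f86074c26f2518c5e4421bf43ed3 (k8 b1893 b367 b347 b74 b272 b392 i534 b66 (k8 b1901 i1047 b2025 b304 b141 b34 b2203 b1866 (k8 b476 i902 i386 i2328 b42 i2302 b2216 b379 (k8 i492 i771 i1052 b271 i652 i611 b341 i619 (k8 i361 b538 b737 b346 b2218 b932 b2206 b1191 (k4 i1050 i1660 i768 i2030 (k2 b98 i1553 (k1 b433 k0)))))))) (by decide +kernel)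
def b2220 : PP 8 4 T 0x1100000000000000000000000010000000000001440000000010000001008000820 := rS 0x54abd26896550d44a5608c990cfa72d4ca69881d5ca0e589fd027d86074c26f688e5868d2da2cf623069288efd0f98c5eb32e11086214397c54d3 (k8 b1893 b2203 b1866 b476 i902 b74 b272 i386 (k8 i2328 b392 i534 b367 b347 b42 b66 i2302 (k8 b2216 b379 i492 i771 i1052 i371 b271 i652 (k8 b1901 i1047 b2025 b304 b34 b138 b141 i1847 (k8 b2219 b437 b1582 b432 b1701 i1049 b277 b308 (k8 b412 b1191 i612 b2124 i2170 i2030 b98 i323 (k4 i2161 i1634 i625 i573 (k1 b1230 k0)))))))) (by decide +kernel)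
def b2221 : PP 8 4 T 0x1000000000000000000000000020000000000000000000001000000000008000820 := rS 0x8a2615ea930941124f0a25d37184696da23945928f6fd318bd665c22104862a (k8 b2203 b74 i261 b272 i386 i2328 b392 i534 (k8 b347 b379 b66 i492 b271 i652 i771 i1052 (k8 b120 b72 b26 i385 i755 i2160 i309 i1048 (k4 i573 i2316 b936 b342 (k1 b133 k0))))) (by decide +kernel)
def b2222 : PP 8 4 T 0x1000000000000000000000000000000000000000440000001000000001008000020 := rS 0x561f5830c888854ae43b874ac55433141ec9309b0dea15998c3efd0508e0ac32d8bc8e4d2e0a81a4a2210486d3 (k8 b1893 b74 i261 b272 b66 i2302 b2203 i386 (k8 b270 b42 b392 i771 i371 b2213 b2216 b2217 (k8 b347 b367 i534 i2328 b2221 b1901 b2220 i1047 (k8 i2447 i668 i1521 i516 i1698 i515 b2025 b2144 (k8 b341 i361 i903 b11 b304 b346 b34 b2212 (k1 i1581 k0)))))) (by decide +kernel)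
def b2223 : PP 8 4 T 0x1000000000000000000000000000000000000000800000001000000001008000420 := rS 0xce8b29182b91ed15307f5998e18510f9bc3abb30ac56ea357bf152a189bc46ac3048bd4e5c03a5e308d2db44728b3db1422314f9f56b107283842c60a09c54238283494472210486d3 (k8 b1893 b74 i261 b272 b42 b66 i2302 b353 (k8 b2216 b2203 i14 i385 i628 i1690 i627 b437 (k8 b432 b277 b65 b197 i1691 i484 i1789 b379 (k8 i492 b271 i652 i771 i1052 b120 b26 i2301 (k8 i386 i2198 b392 b312 i371 b125 b35 b376 (k8 i308 i572 b431 i587 i322 i850 b382 b137 (k8 i1946 b925 b791 b144 b1895 b304 i487 i513 (k8 b141 b455 b275 i1786 i1144 b168 i2030 b171 (k2 b1660 b36 k0))))))))) (by decide +kernel)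
def b2224 : PP 8 4 T 0x1000000000000000000000000110000020040000000000000000001001558008000 := rS 0x182a33ead620e5 (k4 b437 b432 b277 b65 (k2 i2161 i1345 (k1 i2030 k0))) (by decide +kernel)
def b2225 : PP 8 4 T 0x1000000000000000000000000000000000000000800000001000000001008000020 := rS 0x51b047acba2ab9331454a25628186074fe61289bd4aa15998c3efd052d4fb1018885ca2362aad8c0e82bc53e2f23a9c285c0889ca60d03a5d37184696da239459288841219ec54d3 (k8 b1893 b2203 b379 b74 i261 b272 b66 i492 (k8 b271 i652 i771 i1052 b120 b72 b26 i2301 (k8 i2302 i2386 i14 i484 i386 i385 i2198 b42 (k8 b392 b197 b35 b353 i627 i628 i2394 i1789 (k8 b2216 b437 i1690 i1691 b432 b65 b277 b2223 (k8 b347 b367 i534 i2328 b2221 i362 b1901 b1895 (k8 i1047 b1054 b2025 b304 b138 i1847 b2224 i573 (k8 b342 b133 i2041 b410 i2417 i1781 b168 i323 (k1 i2030 k0))))))))) (by decide +kernel)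
def b2226 : PP 8 4 T 0x1000000000000000001000000100000100000000080000000200000000008004420 := rS 0x2d8aa61666328a243e6158a892aaf7e2ad52a1688e4122f23a9c285c0681d167b1532c46ad3b15894d3 (k8 b1893 b66 i489 i490 i2981 b356 i2308 b2203 (k8 b379 i492 i2301 i2302 i386 i385 i2198 b42 (k8 b392 b312 b271 i652 i308 i572 b721 b431 (k8 i587 i1673 i2027 b382 b137 i240 i281 b1895 (k4 i487 i513 b455 b133 (k2 i981 b352 k0)))))) (by decide +kernel)
def b2227 : PP 8 4 T 0x1000000000000000000000000000000000000000000000001000000001008000020 := rS 0x29e87631b47cae4cc5162a940afd270c512d43a7f3e984a26f50accc61f7e8294ac1720862285119d4ac762a83e2ec9331ad36974ec6116070694d1a5c0a29c9a4a1796c8841219eda2391523c6ad3 (k8 b1893 b125 b349 b2203 b271 i652 b379 b74 (k8 i261 b272 i771 b392 b66 b270 i2198 i385 (k8 i386 i1052 i2386 i2302 i2301 i492 b120 b281 (k8 b26 b72 b2225 b2222 i121 b85 i542 i1620 (k8 i490 i489 i1588 b356 i1631 b11 i1497 b1583 (k8 b346 b430 b2226 b347 b367 i534 i2328 b2221 (k8 b1901 b1895 i1047 i1630 b1503 b2025 b2207 i2030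 (k8 b304 i1634 i1720 b138 i576 i1847 b342 b133 (k4 i2041 i588 i594 i406 (k2 i1705 b53 (k1 b766 k0))))))))))) (by decide +kernel)
def b2228 : PP 8 4 T 0x1000000000000000000000004210000000000000000010400000000001558005540 := rS 0x442084772a8df8d3 (k8 b1893 b431 i115 b430 i208 b2214 b432 b1894 k0) (by decide +kernel)
def b2229 : PP 8 4 T 0x1202000000000001000000000010000400000400000080002000000080048000040 := rS 0x19e873ac44aa653da7ca6854ec60f24b (k8 i29 i1808 b442 b281 b905 b332 b197 b379 (k4 b9 b30 b1894 i1010 (k2 i777 b1168 (k1 b388 k0)))) (by decide +kernel)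
def b2230 : PP 8 4 T 0x1100000000000000001000004050000000000400000000002000000001448005540 := rS 0x15e22465a1f4ff0c27a94b28f10874a6d3 (k8 b1893 b332 b90 b127 b349 i868 b2228 b719 (k8 b304 b141 b34 i2030 b2214 b277 i1577 b2090 k0)) (by decide +kernel)
def b2231 : PP 8 4 T 0x1000000000000000000000000010000000000000040000000000000001008000520 := rS 0x1d50ecf192e928a2608c60abd52bf110071f0b47b15a2a60e28327aac027b4fb34a65f1083cb28f118bcba4553a153a974dc60f25a0a04626137892c1a7739adc546f409fe181f2007490d3 (k8 b1893 b2227 b90 b319 i2136 b304 b141 b138 (k8 b1901 b2203 i850 b390 i752 i521 i29 b35 (k8 i2145 b376 b725 b439 i378 i1808 b442 b72 (k8 b26 b281 b905 i2196 i22 i509 i2187 i2137 (k8 b349 i868 b743 b127 b363 b332 i888 b197 (k8 b379 i2 b721 b719 b1972 i749 b421 b275 (k8 b133 i1786 i981 b408 i640 b352 b431 b2228 (k8 i1411 b2229 b183 i1345 b2230 i281 i407 i280 (k4 i1105 i1683 i1585 b388 k0))))))))) (by decide +kernel)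
def b2232 : PP 8 4 T 0x1000000000000000000000000010000000000000040000000000000001008000420 := rS 0x2883e58021026f862dce6033d97c3a1f4ba6e30792d10096af0a044911309bc454d3 (k8 b1893 b2203 b35 i2145 b376 b2227 b725 b439 (k8 i587 i29 b319 i378 i1808 b442 b72 b26 (k8 i2136 b90 b363 b379 i65 b390 i850 b304 (k4 b1901 b138 b2231 i382 (k2 b1466 b864 (k1 b58 k0)))))) (by decide +kernel)
def b2233 : PP 8 4 T 0x201202000000000000002001004000000000010010000010042000010400008000000 := rS 0xa0923fa549a53109148055 (k8 b30 b319 i22 b127 b332 i72 i1518 i1515 (k2 b2000 b705 (k1 b671 k0))) (by decide +kernel)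
def b2234 : PP 8 4 T 0x1200000000000000000000004020204400000004040000002000000400008204500 := rS 0x17288390b62aa72001ce30d659d4cad3 (k8 b1893 b9 i1010 b145 b321 i796 b749 b319 (k4 i2196 b133 i981 b413 (k2 b352 i1141 (k1 b953 k0)))) (by decide +kernel)
def b2235 : PP 8 4 T 0x1202000000000001000001004120000400000000040000002000010480008201500 := rS 0x39add123f4aaed329351304fb108bb390e756591caa653da7c1e5942a752e9b8c1e4b44b3ba0d4e4f039c61aad40ac4be5d22900de61 (k8 b137 i1008 b319 i22 i509 b363 b382 b2009 (k8 b405 b321 i796 b749 i756 i2196 i920 i752 (k8 i29 i378 i1808 b442 b72 b26 b281 b905 (k8 i868 b743 b197 b379 b9 b30 b383 b145 (k8 i1010 i777 b388 b36 b1168 b660 b2233 i2027 (k8 i1634 b2234 i1950 i1104 i407 i281 i851 b401 (k1 b421 k0))))))) (by decide +kernel)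
def b2236 : PP 8 4 T 0x11100000000000001800001000000000400400000440080002000000080008000000 := rS 0x10e753695e267b4f97d92854ec60f24b (k8 i29 i1808 b442 b281 b905 i1124 b363 b197 (k4 b379 b376 i506 b505 (k2 i1011 i778 (k1 b506 k0)))) (by decide +kernel)
def b2237 : PP 8 4 T 0x1100000000000000002000010000000000000000000000000000000000008005000 := rS 0x8ee5 (k2 b346 i1533 (k1 b341 k0)) (by decide +kernel)
def b2238 : PP 8 4 T 0x1000000000000000000000000000000000000000040000000000000001008000420 := rS 0xa86c431d4aec165c155a0755bf106715aa94130d501dc1a7b4f8d59a5f07b251e23179acba4553a153b183c96828118984de2402592054d3 (k8 b1893 b2203 b2227 i29 b319 b35 i2145 b376 (k8 b725 b439 i378 i1808 b442 b281 b905 i2196 (k8 i22 i509 b246 i2187 i2137 b349 i1124 b743 (k8 b363 i888 b125 b197 b379 i521 i752 b2232 (k8 b321 i2139 i363 i880 i796 i920 b2011 b721 (k8 b749 b405 b2235 b2236 b2237 b581 i1011 b506 (k2 b476 b646 (k1 b751 k0)))))))) (by decide +kernel)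
def b2239 : PP 8 4 T 0x21002000001000000000000000000000000000000080000000000000001008000020 := rS 0x209101083c5459119008e033ec5d1e7526920a27f (k8 b141 b32 b2227 i72 i1588 b349 b85 b660 (k8 i65 i1618 b319 i2137 i868 b2203 b743 b127 (k2 b432 b2079 (k1 b1758 k0)))) (by decide +kernel)
def b2240 : PP 8 4 T 0x1002000000000000000000000010000000000000000000000000000001008000420 := rS 0x654114a0d7228d1007168f62a984a9c506ad5593c127b1a97c420f2ca3c462f2e9154e974dc60f25a0a04626137892c8e66019cd6e2a37946181f2007490d3 (k8 b1893 b2227 b90 b319 i2136 b304 b32 b1901 (k8 b2203 i850 b390 i65 b2238 i1618 i29 b35 (k8 i2145 b376 b725 b439 i378 i1808 b442 b72 (k8 b26 i2196 i22 i509 i2187 i2137 b349 i868 (k8 b743 b127 b363 b125 b379 b291 b293 b359 (k8 b405 b1972 i749 i1673 b2181 b133 i1786 i981 (k8 i640 b352 i281 b2239 b28 b430 b2214 b661 (k1 b145 k0)))))))) (by decide +kernel)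
def b2241 : PP 8 4 T 0x4001000000000000000000000000200000000000144000000002400000081008200000 := rS 0x4c9c47cbb822e18c0d18b169ece439dcaae551bc4f69f478d586cd1083cba4542a7537183c968804b (k8 i29 b319 i378 i1808 b442 b72 b281 b905 (k8 i22 i509 b743 b127 i888 i371 b125 b349 (k8 b197 b379 b35 i115 b430 b1502 i751 i777 (k8 b388 b412 i1794 i989 i642 b381 b171 b341 (k4 i1679 i414 i1408 i1144 (k1 b704 k0)))))) (by decide +kernel)
def b2242 : PP 8 4 T 0x1200000000000000000000000010000000000000000000000000000001008000420 := rS 0x11231042d59d10439dcaa7b4fb0d9a531088d4e854ea5e30792d12cfa8f289fe181d7ea94de1f201ccea4d2380e2e660a04626137892054d3 (k8 b1893 b2203 b2227 b35 i2145 b376 b725 b439 (k8 b2238 b85 i65 i1618 i72 i1588 b390 b319 (k8 i2136 b1901 b2241 b2240 b90 b304 b141 b32 (k8 b349 b660 i29 i378 i1808 b442 b26 b281 (k8 b905 i2196 i2137 b127 b332 i888 i371 b197 (k8 b379 b30 i751 i777 b294 b388 b277 b1980 (k2 i989 b2205 (k1 i262 k0)))))))) (by decide +kernel)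
def b2243 : PP 8 4 T 0x1000000000000000000002000000000400000000080000002000000000008000000 := rS 0x7788c5cea4d (k4 i72 i1588 b85 b277 (k2 i2509 b294 k0)) (by decide +kernel)
def b2244 : PP 8 4 T 0x1100000001000000000000000000000000000000080000000000000001008000020 := rS 0x33860873b830aa7b4fa3d86cd1083d0a9d8c1e4b41408c4c26f12012c5447019d49a48 (k8 b2227 i72 i1588 i65 i1618 b2203 i29 b319 (k8 b35 i2145 b376 b725 b439 i378 i1808 b442 (k8 b281 b905 b743 b127 i888 i371 b349 b197 (k8 b379 b1502 b341 i751 i777 i522 b388 i989 k0)))) (by decide +kernel)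
def b2245 : PP 8 4 T 0x1000000000000000000000000010000000000000000000000000000001008000420 := rS 0x981e1c5060604a8982e482a95fa7f289be18b7399ecbe1d1088c3e2f4ba6e30792d050231309bc4804b1511c067d8b9d49ab5331211ed3 (k8 b1893 b349 b2227 b2238 b2243 i72 i1588 b85 (k8 b660 i65 i1618 b2203 i29 b319 b35 i2145 (k8 b376 b725 b439 i378 i1808 b442 b72 b26 (k8 i2187 i2136 i2137 b127 b90 b363 b379 b390 (k8 i850 b304 b1901 b32 b141 b2240 b2241 b2242 (k8 b2244 b346 i2030 i200 b431 b2132 b747 i640 (k2 b2181 i1786 k0))))))) (by decide +kernel)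
def b2246 : PP 8 4 T 0x4011202000000000000400001004100010000400110000000042400000481008200500 := rS 0x3f5b266287344a881ac560b3a20873b954f69f1ab341e5942a752e9b8c1e4b44b3ea3c0ead40ac4be5d22900de61 (k8 b137 i1008 b319 i22 i509 b363 b382 b2009 (k8 b405 b749 b349 b660 i29 i378 i1808 b442 (k8 b72 b26 b281 b905 i868 b743 i888 b125 (k8 b197 b379 b30 i751 i777 b294 b388 b2233 (k8 i1794 i642 i2027 i281 b401 b413 b133 b421 (k2 b704 i851 k0)))))) (by decide +kernel)
def b2247 : PP 8 4 T 0x1000000000000000000000000000000000000000000000000000000001008000420 := rS 0xd8ba630f96c998a1cd12a206b05c905659bd029530ab5620755bf09e8338a94130d502d4ea478b998067b47934be0f179acba4553a5d37183c96828118984de2402592054d3 (k8 b1893 b2203 b2227 i29 b319 b35 i2145 b376 (k8 b725 b439 i378 i1808 b442 b72 b26 i2196 (k8 i22 i509 b246 i2187 b743 b363 i72 b349 (k8 b379 i65 b2238 b85 i1618 i1588 b2243 b2245 (k8 b321 i2139 i363 i796 i920 i756 b2011 b721 (k8 b749 b382 b405 b137 i1673 b2009 i1008 b507 (k8 b2246 b2244 b346 b28 i2027 i281 b401 b413 (k4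 b133 b421 i851 i406 (k2 i407 b475 (k1 i1681 k0)))))))))) (by decide +kernel)
def b2248 : PP 8 4 T 0x1000000000000000000000000000000000000000000000000000000001008000020 := rS 0x451306f39add0671869449c3f5002936978c1e54e5a0a0bc8a11259009113789ec262a (k8 b2203 i2145 b379 b35 b376 b2227 b319 i29 (k8 b725 i22 i2187 b439 i378 i2196 i1808 b442 (k8 b26 b72 b2247 i300 i2232 i301 i493 b321 (k8 i796 i920 i851 b323 i1272 b2181 b413 b133 k0)))) (by decide +kernel)
def b2249 : PP 8 4 T 0x1000000000000000000000000000000000000000000000000010000000008000020 := rS 0x1988f359b4cf05459a4ca8d199581c5c0a30c94552d910867b688e45424 (k8 b2248 b2203 b271 i652 b379 b74 b272 i771 (k8 i763 b66 i2221 i385 i386 i346 i347 i2169 (k8 i1052 i1050 i1850 i492 b283 i2307 i668 i2325 (k2 b333 b1164 (k1 i1970 k0))))) (by decide +kernel)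
def b2250 : PP 8 4 T 0x1002000000000000000000000210000400000000000000000000000000008000020 := rS 0x18cbd6633cee0765c1222237289130714ba6e30792d20c9e5d0a04626f12f84d6e6f3d8a8e64b22946181f0e92080d3 (k8 b1893 b2249 i261 b90 i2136 b304 b32 i22 (k8 i485 b390 b2203 b379 b1901 i850 i2145 i905 (k8 b35 b376 b725 b439 i509 b293 b1972 i378 (k8 i1808 b442 b72 b26 i749 b2181 b2248 b298 (k8 i47 b320 b1824 b145 i1379 i2508 b1168 b2229 (k2 i1990 i889 (k1 i415 k0))))))) (by decide +kernel)
def b2251 : PP 8 4 T 0x1002000000000000000000000210000000000000000000000000000000008000020 := rS 0x53d8ece5eb1570951923930714193cf6e51217d865d4ea5d37183c96828118984de24b229cd6e2a37946181f0e92080d3 (k8 b1893 b2249 i261 b90 i2136 b304 b32 b1901 (k8 b2203 i850 b390 i22 i485 b35 i2145 b376 (k8 b725 b439 i378 i1808 b442 b72 b26 b281 (k8 i509 i2219 i905 b2248 b298 b379 b293 b1972 (k8 i749 b2181 b2250 b333 i1102 i289 i1615 i1991 (k4 i1143 i415 b412 b381 k0)))))) (by decide +kernel)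
def b2252 : PP 8 4 T 0x1000000000000000000000040010000000000000000000000000000000008000220 := rS 0x1441f2c0067b2fa5d37183c96828118984de24b229cd6e2a37a06181f0e92080d3 (k8 b1893 b2249 i261 b90 i2136 b304 b138 b1901 (k8 b2203 i850 b390 i22 i485 b35 i2145 b376 (k8 b725 b439 i378 i1808 b442 b72 b26 i905 (k4 b379 i65 i382 b1466 (k2 b864 b58 k0))))) (by decide +kernel)
def b2253 : PP 8 4 T 0x1000000000000000000000000010000000000000000000000000000000008000420 := rS 0x2396ac052bf11007168f62a9838a0c9eab04945466f862dce67b2387c5e5f0e83ceaad65c1046e5069dc0711121754e974dc60f25a259155e1408920811309bc454d3 (k8 b1893 b2203 b35 i2145 b376 b2249 i261 b725 (k8 b439 i587 i22 i485 i378 i1808 b442 b72 (k8 b26 i2196 i509 b2248 b320 i65 i2508 b939 (k8 b298 i47 b1824 b145 b118 b715 b743 b90 (k8 i905 i2187 i2136 i2142 b379 b390 i850 b304 (k8 b1901 i324 b32 b2252 b721 b719 b1972 i749 (k8 b2181 b133 i1786 i981 i640 b352 b431 b2251 (k4 i2027 i1247 b971 b958 k0)))))))) (by decide +kernel)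
def b2254 : PP 8 4 T 0x1000000000000000000000000000000400000000040000000000000000008000420 := rS 0x8aa20e4935cc581e753bb2e08458888dca240a0462613788a952ab0481ce22f869bcc2fc5012080d3 (k8 b1893 b2249 i261 b2253 b2011 b137 i1008 b321 (k8 i2187 i796 b749 i2139 b721 i572 b2203 b35 (k8 i2145 b376 b725 b439 b2248 b298 i47 b320 (k8 i22 b1824 b145 i2508 b715 b743 b294 b1106 (k4 b7 b2008 b401 b102 (k1 b953 k0)))))) (by decide +kernel)
def b2255 : PP 8 4 T 0x1000000000000000000000000040000000000000040000000000000000008000420 := rS 0x11539a4912c05a91c1ead65834ee03558240e7117c34de617e2954104228aa2223729d44848200c91cd3 (k8 b1893 b2254 b333 b2249 i261 b2248 b715 b298 (k8 i47 b320 b2203 i22 b1824 b2253 b978 b2011 (k8 b137 i1008 b321 i2187 i796 b749 i2139 b721 (k8 i65 i2508 b939 b145 b118 b743 i2142 i881 (k4 i2027 b958 i1613 b401 (k2 b71 b413 k0)))))) (by decide +kernel)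
def b2256 : PP 8 4 T 0x1000000000000000000000000080000000000000000000000000000000008000420 := rS 0x131145b944e63f5a1ed97048888dca244ba6e30792d12c8b0d388bd06a70a0462613788a8de617e2809040 (k8 b2249 i261 b2253 b2011 b137 i1008 b2203 b35 (k8 i2145 b376 b725 b439 i2196 i920 i2187 i796 (k8 b321 i22 i485 i378 i1808 b442 b72 b26 (k8 b2248 b298 i47 b320 b1824 b145 b379 i325 (k4 i2236 b285 i1397 i851 (k2 b413 b2181 (k1 b133 k0))))))) (by decide +kernel)
def b2257 : PP 8 4 T 0x1000000000000000000000000000000000000000000000000000000000008000420 := rS 0x22a73492252a6660295466f3081d56fc388261aa03da7c4247268bc6a0f3aab5970411b941a7701c450a871227630792d05022488984de24b2290054d3 (k8 b1893 b2203 b2249 i22 i485 b35 i2145 b376 (k8 i261 b725 b439 i378 i1808 b442 b281 b2248 (k8 i2530 b905 b320 i65 i2508 b939 b298 i47 (k8 b1824 b145 b118 b715 b743 i2210 i2187 i788 (k8 i2142 i12 b197 b379 b2253 b321 i2139 i796 (k8 b2011 b721 b749 b137 i1008 b2256 b952 i2027 (k4 b2255 i1518 b1998 b2004 (k2 b401 b71 (k1 b413 k0))))))))) (by decide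 +kernel)
def b2258 : PP 8 4 T 0x1000000000000000000000000000000000000000000000000000000000008000020 := rS 0x451306f39add0671869449c3f5002936978c1e54e5a0a04496481791480133dbc6262a (k8 b2203 b376 b35 b379 i2145 b2249 i22 i2187 (k8 i261 i485 b725 b439 i378 i2196 i1808 b442 (k8 b26 b72 b2257 i300 i2232 i301 i493 b321 (k8 i796 i920 i851 b323 i1272 b2181 b413 b133 k0)))) (by decide +kernel)
def b2259 : PP 8 4 T 0x1000000000000000000000000000000000000000000000002000000000008000000 := rS 0x5 (k2 b2258 b97 k0) (by decide +kernel)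
def b2260 : PP 8 4 T 0x1000000000000000000000000000000000000000000000000200000000008000000 := rS 0x5 (k2 b2258 b139 k0) (by decide +kernel)
def b2261 : PP 8 4 T 0x4201200000000000000000000144000000004400000000144540000001055508000002 := rS 0xf061c4d165e1ab259a85 (k8 b64 b370 b288 b125 b1840 b318 b362 b688 (k2 b325 b1720 k0)) (by decide +kernel)
def b2262 : PP 8 4 T 0x1200000000000000000000000210000000000008040000000000000041008000000 := rS 0x2317e3763a656e8b782ecbd13430a4ba272612cb6318b9f885105c15ca2411098d5e5358aad52090020cc31527bf0062d442556a1e86b06868f3e9d446e5498d592652a9655a07659149205 (k8 b2258 b2259 b2260 b145 i1379 b118 b43 b30 (k8 b9 b288 b125 i1365 b430 b134 b1582 i1326 (k8 b349 b301 i114 b397 b1901 i1400 i1057 b350 (k8 b389 b51 b1068 i1270 b2 i1278 i2918 b317 (k8 b291 b338 b359 b382 b326 b76 i447 b1841 (k8 i182 b666 b1945 i2040 b432 b272 i2037 b387 (k8 i986 b81 b436 b143 b1725 i2259 b1296 b2261 (k8 b0 b646 i1684 b325 b318 i852 i1144 b4 (k4 b374 i1724 b1843 i964 k0))))))))) (by decide +kernel)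
def b2263 : PP 8 4 T 0x1202000000000000000000000210000000000000000000000000000001048000000 := rS 0x10c3f074aeb510444a6ab27b94467d2a9655a5103b2da645 (k8 b2260 b1893 b145 i1379 b1895 b118 b43 b30 (k8 i1326 b134 b430 b293 b359 b326 b1894 b432 (k4 b340 i1498 i1381 i2037 (k2 b304 b141 k0)))) (by decide +kernel)
def b2264 : PP 8 4 T 0x1000000000000000000000000200000000000000000000000000000000028000000 := rS 0xe02c (k2 b99 b117 (k1 i2880 k0)) (by decide +kernel)
def b2265 : PP 8 4 T 0x1102000000000000000000000200010020000000054000020000000001008000040 := rS 0x2e592cb19831ca23498d552ab238241e05 (k8 b2258 b1677 b291 i208 b359 b338 b125 i1365 (k8 b134 b430 b341 b1627 i465 i2275 i1404 b165 k0)) (by decide +kernel)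
def b2266 : PP 8 4 T 0x1000000000000000000000000210000000000008040000000000000001008000000 := rS 0x11ab34cb452e9b4584d00b73d8e4550426108ca512091cc6af5482400078abf006884a878ea23729149205 (k8 b2258 b2259 b2260 b430 b134 b1582 b1901 i1057 (k8 b350 b51 b1068 b2 i2855 b317 b291 b338 (k8 b76 i447 i208 i182 b666 i963 b272 b143 (k8 b2265 b2262 b271 b379 i850 i390 i2086 i452 (k4 i1444 i1324 i654 i1060 (k2 i1334 i965 (k1 b942 k0))))))) (by decide +kernel)
def b2267 : PP 8 4 T 0x1201000000000000000000004200000000040000000000500080000001008000000 := rS 0x102d2225727b94467d2a9655acb (k8 b145 b118 b43 b30 i1326 b134 b430 b91 (k4 i442 b705 b162 b432 (k1 b340 k0))) (by decide +kernel)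
def b2268 : PP 8 4 T 0x1200000000000000000000004210000020000000000000000000000041048000200 := rS 0x1fa9d5e994dacc7a2741845a0335c8015061018bceab740854525f2bb350a6327440424021bf446e528954b27d3f94e181d02925a645 (k8 b2260 b1893 b2259 b2258 b2264 b304 b121 b141 (k8 i1326 b43 b30 b32 b430 b134 b2263 b2267 (k8 b272 i743 b432 b705 i1351 b64 b370 b11 (k8 i904 b486 b230 b138 b101 b1582 b84 i191 (k8 i1278 b169 b317 i1140 i289 b1395 b309 b1404 (k8 b889 i1268 i1429 b193 i1109 i592 i283 b1376 (k1 i2031 k0))))))) (by decide +kernel)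
def b2269 : PP 8 4 T 0x1200000000000000000000004210000000000004000000000000000041008000200 := rS 0x58615c128ee4d4a8cce289272d620212010ce62f51a3cfa7511b9526352894cff0c0e954b2fd0f9248ad3 (k8 b1893 b2260 b2259 b144 b2263 b43 b30 b2264 (k8 b304 b141 b121 b32 b125 i1365 b430 b134 (k8 b1582 i1326 b349 i115 b84 b390 b2267 b272 (k8 i743 b432 b277 b705 b2268 b1907 i288 b2022 (k4 i789 b640 b348 i2044 (k2 i1047 b644 (k1 i1263 k0))))))) (by decide +kernel)
def b2270 : PP 8 4 T 0x1001000000000000000000400010540000404014000140000004000054018000400 := rS 0xa6578f4bcf0899e0e6b740c303ed3 (k8 b1893 b144 b304 b138 b101 b390 b421 b414 (k4 b325 b330 b324 i590 (k2 i2031 b221 k0))) (by decide +kernel)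
def b2271 : PP 8 4 T 0x1001000000000000000000400000000000800000000000400010000000008000000 := rS 0x5717963452797498420000c0a45 (k8 b2260 b2258 b354 b317 b272 b143 i2259 b91 (k4 b303 i1295 b1319 b395 (k1 i589 k0))) (by decide +kernel)
def b2272 : PP 8 4 T 0x1001000000000000000000400010540000404014000140000000000254018000400 := rS 0x3f (k2 i1423 b2270 k0) (by decide +kernel)
def b2273 : PP 8 4 T 0x10001200000000000001000000000000000104000000000444020000000000008000002 := rS 0x451b1a26b2a964d25d (k8 i2259 b140 b43 b30 b353 i653 b614 b120 (k1 i2266 k0)) (by decide +kernel)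
def b2274 : PP 8 4 T 0x1200000000000001000004000000140000504054000444020000000000008000002 := rS 0x46c6534798921caa5d (k8 i2259 b30 b646 b330 b414 b421 b72 i2638 (k1 b2273 k0)) (by decide +kernel)
def b2275 : PP 8 4 T 0x1000000000000000000000000010000000400000000800000010000040058000200 := rS 0x3f538f5e0af08c4d6e818609c525d26000064b211140ad3 (k8 b1893 b2258 b2260 b272 b436 b354 b317 b143 (k8 i2259 b1296 b1725 b304 b138 b101 b362 i470 (k4 i590 b325 i1268 i203 (k2 b119 i2031 k0)))) (by decide +kernel)
def b2276 : PP 8 4 T 0x1200000000000001000000008010100000404014040004000010000040018000200 := rS 0x618aa59165f39add026b2a964d25b2e80006a926108a70c0fb4c8a05 (k8 b2258 b2260 b1893 b144 b304 b121 b272 b143 (k8 i574 b354 b317 i2259 b81 b140 b43 b30 (k8 b353 b138 b101 b390 b2275 b663 b2274 b364 (k2 i1284 b818 k0)))) (by decide +kernel)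
def b2277 : PP 8 4 T 0x1001000000000000000000000000000000800000000000400010000040008000200 := rS 0x7cf05944c4e292e9300003259088a05 (k8 b2258 b2260 b272 b436 b354 b317 b143 i2259 (k4 b1296 b1725 b33 b2271 (k2 b325 i1427 (k1 b119 k0)))) (by decide +kernel)
def b2278 : PP 8 4 T 0x1200000000000001000000000000000000008000000444020000000000008000002 := rS 0x8d8ca1cba55 (k4 b30 i2259 b646 b92 (k2 i1815 b2273 k0)) (by decide +kernel)
def b2279 : PP 8 4 T 0x1000000000000000000000009000200000000000040000000000000000008000002 := rS 0xc315 (k2 b133 i2633 (k1 b818 k0)) (by decide +kernel)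
def b2280 : PP 8 4 T 0x1000000000000002000000000200000000000000000000000000000001008000000 := rS 0x10c45ca23 (k4 b134 b430 b370 b45 (k1 b432 k0)) (by decide +kernel)
def b2281 : PP 8 4 T 0x1200000000000000000000000210000000000000040000000010000041008000200 := rS 0x1c532893daa4be572616c00832100c5e2329c303acd7e87cc6aa378148ad3 (k8 b1893 b2260 b2258 b2266 b2269 i537 b144 b2263 (k8 b2280 b2264 b304 b121 b134 b84 b354 b272 (k8 b2277 b317 b81 b143 i442 b2275 i574 b2278 (k4 b169 b2279 b1907 b2276 k0)))) (by decide +kernel)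
def b2282 : PP 8 4 T 0x1200000000000000000000000210100020004014004000000020000041008000200 := rS 0x4b0f9363d3ca0c22d01992916b9268014ea83080ce62f3aadd030c0eb342ac97e87c525f2ba1620212a88dca27248148ad3 (k8 b1893 b2260 b2258 b2259 b115 b430 b134 b30 (k8 i743 b432 b64 b11 i904 b1032 b144 b2263 (k8 b288 b230 b2280 b2264 b304 b138 b101 b1582 (k8 b84 b390 i191 i1278 b169 i283 b317 i788 (k8 i1139 b480 b348 i289 b1393 b309 b1404 i1072 (k4 i1268 b193 i2031 b421 (k1 b416 k0))))))) (by decide +kernel)
def b2283 : PP 8 4 T 0x1000000000000000000000000000000000000004000000000040000200008000200 := rS 0x4b269800049 (k4 b2259 i1264 i1263 i445 (k2 i1047 b348 k0)) (by decide +kernel)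
def b2284 : PP 8 4 T 0x1200000000000000000000000210100020000014004000000020000041008000200 := rS 0x578f9363d13845a08b41a3632b3269e94ea83080c5eb740c303a157e87c86292f8148ad3 (k8 b1893 b2260 b2258 i904 b1032 i21 b144 b2263 (k8 b230 b2264 b304 b138 b101 b84 i191 i1278 (k8 b169 i283 b2282 i788 i664 b92 i1816 i815 (k8 b480 b120 b309 b889 i1268 b193 i2031 i592 (k1 b1376 k0))))) (by decide +kernel)
def b2285 : PP 8 4 T 0x1200000000000000000000000210100000000014004000000020000041008000200 := rS 0x172774a8cd127317a8d1e7d3aa4c6a7f8607c3ab588084aa23728b486d3 (k8 b1893 i21 b2283 b430 b134 b30 i743 b432 (k8 b277 b2264 b144 b304 b141 b125 i1365 b1582 (k8 i1326 b349 i115 b84 b390 b2284 i288 b2022 (k2 b640 b644 (k1 i2044 k0))))) (by decide +kernel)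
def b2286 : PP 8 4 T 0x1200000000000000000000000210100000000004004000000020000041008000200 := rS 0xaf1f26c7a2741845a0b30029d500319a217270179d56e81860759a157e87c86292f95d0ab588084aa23728148ad3 (k8 b1893 b2260 b2258 b430 b134 b30 i743 b432 (k8 b277 b64 b11 i904 b1032 i21 b144 b2263 (k8 b230 b2280 b2264 b304 b138 b101 b1582 b84 (k8 b2285 i1407 b1907 i289 i191 b169 i283 b317 (k8 i664 b1395 b309 b1404 b889 i1268 i1447 i2031 (k2 i592 b1376 k0)))))) (by decide +kernel)
def b2287 : PP 8 4 T 0x1200000000000000000000000210000000000000040000000000000041008000400 := rS 0x4f2e90eb23cc64eecf680cc94b926801500313a213a7b45c55369816a14af102f88452432018d540803bf5965535b245e8f3a88dca931aade181f378759a1524815a645 (k8 b2260 b1893 b2258 b2259 b230 b2280 b2264 b2266 (k8 b144 b304 b101 b125 i1365 b430 b134 b1582 (k8 b349 b84 b288 b353 b30 b145 b2263 i1379 (k8 b431 b2269 i537 b2281 i21 b1032 i743 i904 (k8 b432 b11 b64 b2283 b2286 i154 b133 i1939 (k8 i1940 i1943 b352 b115 i191 b169 b317 i788 (k8 i1139 b348 i289 b1393 b639 b640 b292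 i1072 (k4 i1109 b198 i666 b388 (k1 i1686 k0))))))))) (by decide +kernel)
def b2288 : PP 8 4 T 0x1002000000000015000004000001000401404500010541500000000000008000002 := rS 0x9e459e565124393d62af (k8 b76 b382 b293 b646 b330 b1811 b414 i2265 (k2 b388 b626 k0)) (by decide +kernel)
def b2289 : PP 8 4 T 0x1002000000000015000000000411000421404500010141000000000054058000002 := rS 0x1e8fd2e1145978a2b729a06181504ac48ad3 (k8 b1893 b2260 b382 b291 b230 b304 b138 b121 (k8 b101 b32 b2288 b318 i470 b984 b603 i1346 (k1 i2031 k0))) (by decide +kernel)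
def b2290 : PP 8 4 T 0x1100000000000000800401000600000001800000000110000000000055108002000 := rS 0x34a198ac336bc17b13a2d0c46cd (k8 b2280 b134 b301 b303 b33 i1415 b325 i674 (k4 b1415 b297 b1720 i1495 (k1 b1631 k0))) (by decide +kernel)
def b2291 : PP 8 4 T 0x1002000000000005000000000411000421404500010041020000000050058000002 := rS 0x6889cba45 (k4 b2260 i2259 b1725 i654 (k1 b2289 k0)) (by decide +kernel)
def b2292 : PP 8 4 T 0x1002000000000005000000000411000421400500010041020000000050058000082 := rS 0x45b4470135925de23e1e8de327a5ba061809139888ad3 (k8 b1893 b2260 i1340 b1725 b291 b304 b138 b101 (k8 b2291 b92 i1775 i1347 i2031 b119 b416 i1419 (k4 i216 b357 i656 i2265 (k1 b891 k0)))) (by decide +kernel)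
def b2293 : PP 8 4 T 0x1102000000000004800001000611000021000400000051020000000051048000002 := rS 0xd6be2f2083a8f3a88d9a4f3289cba21030301ee5238240a45 (k8 b2260 b2258 b291 i208 b430 b1677 b341 i465 (k8 b1867 i2259 b1725 i963 b293 b2280 b134 b1582 (k4 b349 b2264 b2292 b1972 (k2 b2290 i2278 (k1 i1454 k0))))) (by decide +kernel)
def b2294 : PP 8 4 T 0x1000000000000000800000000a00000000000000000000000000000000008002000 := rS 0x29c6d34b0974bd62b054606 (k8 i465 i115 i114 i1919 i1985 i368 i367 i1495 (k2 i674 b830 (k1 b135 k0))) (by decide +kernel)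
def b2295 : PP 8 4 T 0x1102000000000000000000000210000000000000040000000010000041008000000 := rS 0x4a9c512a767a75731665324ee29062d50a59108ccba0f32c40ae4c2596caa002100ce62f51a3cfa7511b9526352894cff0c0f9bc3a4f55ab4c247049140ad3 (k8 b1893 b2258 b2260 b291 i208 b137 b405 b359 (k8 b293 b2264 b2266 b144 b304 b141 b121 b32 (k8 b125 i1365 b430 b134 b1582 i1326 b349 i115 (k8 b84 b390 b354 b272 b317 b310 b81 b436 (k8 b143 i442 b1863 i963 b1677 i2259 b1627 b1867 (k8 b361 b64 b277 b341 b1296 b640 i613 i2037 (k8 b339 b737 b313 b36 b2294 b2293 b1907 b2022 (k1 i2044 k0)))))))) (by decide +kernel)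
def b2296 : PP 8 4 T 0x1100000000000000000000014200000020040000000000540020000001008000100 := rS 0xeca2a98d6a571092a20652680006233e964180f7291c9205 (k8 b2258 b2259 i208 b430 i338 b341 i867 i1326 (k8 b134 i190 b317 i788 i1492 b1317 b348 b1684 (k4 b11 b277 i487 b1502 (k2 i2037 i1340 (k1 i465 k0))))) (by decide +kernel)
def b2297 : PP 8 4 T 0x1000000000000000000010000200010000040054000000000000004001108000000 := rS 0x16a778823cfa7511b952635 (k8 b125 i1365 b430 b134 b1582 i1326 b349 b432 (k2 b640 b277 (k1 i2044 k0))) (by decide +kernel)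
def b2298 : PP 8 4 T 0x1102000000000000000000000210000000000000040000000000000041008000000 := rS 0x134ec204a9c512b919b24180f2011cc2ad5593c127317a8dca352894cff0c0f9bc3ad3 (k8 b1893 b2264 b2266 b144 b304 b141 b121 b32 (k8 b125 b430 i115 b84 b390 b291 b293 b359 (k8 b405 b137 i208 b2295 i338 b341 i464 i1609 (k8 b737 b2296 b1907 b2022 b2297 b87 i2544 b2144 k0)))) (by decide +kernel)
def b2299 : PP 8 4 T 0x1000000000000015000004140001000401404500010541540000000000008000002 := rS 0x13c8b3caca2487 (k4 b646 b330 b1811 b414 (k2 i2265 b388 (k1 b626 k0))) (by decide +kernel)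
def b2300 : PP 8 4 T 0x1000000000000005000000140411000421404500010041060000000050058000102 := rS 0x3d1fa5c228b2f344a2b729a061815139748ad3 (k8 b1893 b2260 i2259 b1725 b230 b304 b138 b121 (k8 b101 b32 i654 b2299 b318 i470 b984 b603 (k2 i1346 i2031 k0))) (by decide +kernel)
def b2301 : PP 8 4 T 0x1000000000000005000000100411000421400500018041060000000050058000102 := rS 0x45b4470135925de23e1e8de327a5ba061827032bc8ad3 (k8 b1893 b2260 i2261 i447 b1725 b304 b138 b101 (k8 b2300 b92 i1775 i1347 i2031 b119 b416 i1419 (k4 i216 b357 i656 i2265 (k1 b891 k0)))) (by decide +kernel)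
def b2302 : PP 8 4 T 0x1100000000000000000000000210000020000000040000000010000041008000000 := rS 0x35af8bc8267a762c775399466b1062e4120665325566214ab56a852c885525d1383e20572612c9e5b2a8008403478d4fa7511b94a2533fc303e6f0eb35fb15308148ad3 (k8 b1893 b2260 b2258 i1278 b2 b2298 b2280 b2264 (k8 b2266 b144 b304 b141 b121 b32 b430 b134 (k8 b1582 i1326 b125 b349 b354 b272 b317 b310 (k8 b81 b91 b436 b143 i442 b1863 b1677 b1725 (k8 i2259 i574 b1867 b361 b64 b277 i1286 b1296 (k8 b169 b818 i613 i2037 i447 i1349 i1406 i1380 (k8 i2876 i289 i1492 b2294 b640 b339 b313 b36 (k4 b2301 b1972 b2290 i2278 (k1 i1454 k0))))))))) (by decide +kernel)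
def b2303 : PP 8 4 T 0x1000000000000000000000000000000000000000000080000008000004008000008 := rS 0x4646e7a08931e239 (k8 i2069 b119 b44 i1757 i793 i1005 b92 b357 k0) (by decide +kernel)
def b2304 : PP 8 4 T 0x1000000000001001000000000000000000400000008440000000000000000000000000000008000000 := rS 0x13319 (k2 b3 i1113 (k1 b300 k0)) (by decide +kernel)
def b2305 : PP 8 4 T 0x1000000000000005000404000001000421000500000000000008000054008000008 := rS 0x998c9e93e7943a6e24394bbc68b15 (k8 b2 b58 b119 b416 i2069 b325 i1444 b0 (k4 b414 b2304 b388 b92 (k2 i1940 b300 k0))) (by decide +kernel)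
def b2306 : PP 8 4 T 0x1100000000000000000000000210000020000000040000000000000041108000001 := rS 0x18aba61bc15cbda2a087ecf4ec5862bf06b287a775589cc40819a9d524c03b44042fa1a3c6a755ba06181f378759a157ec54c2292fab41e4042ad6202372b4c0a45 (k8 b2260 b2258 b1893 b430 b134 b432 b277 b64 (k8 b2302 i338 i1286 i904 b1032 i1278 b2 b2298 (k8 b230 b2280 b2264 b2266 b144 b304 b138 b101 (k8 b1582 b125 b349 b301 b84 b317 b231 i1341 (k8 b44 i1084 i2065 i193 i190 i191 b529 b818 (k8 b640 i2867 b433 i465 i2924 i1003 b335 b313 (k8 b36 b2305 i2031 b303 i1415 b1108 b408 b1415 (k2 i626 b297 (k1 b850 k0))))))))) (by decide +kernel)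
def b2307 : PP 8 4 T 0x1101000000000000000000006200000000000000004000000000010000008004000 := rS 0x18c5d90caa1b955a05 (k8 b2258 i1286 b430 b301 b433 i623 b336 i983 (k1 b1327 k0)) (by decide +kernel)
def b2308 : PP 8 4 T 0x1000000000000000000000000210000020000000040000000000000041108000400 := rS 0x39788f94eaf4d8f44e374184632d023aa810a80398c944d0015e202f51b94463528add030c0f9bc3a157e98486292f83c8105698149245 (k8 b2260 b2259 b2258 b1893 b2287 b2302 i338 i904 (k8 b1032 i21 i1278 b2298 b230 b2264 b2266 b144 (k8 b304 b138 b101 b32 b125 b134 b430 i115 (k8 b84 b432 b11 b2306 i445 b348 i487 i1340 (k8 b169 b431 b2307 i1655 b1682 b292 b309 b1404 (k8 i991 b889 i1268 b193 i592 i203 i2031 b119 (k2 i297 b357 k0))))))) (by decide +kernel)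
def b2309 : PP 8 4 T 0x1000000000000000000000000210000020000000040000000000000041008000400 := rS 0x64934ec301003c8105 (k8 b2287 b2302 i338 b2308 b82 b87 i2544 i983 (k1 b2144 k0)) (by decide +kernel)
def b2310 : PP 8 4 T 0x1100000000000000000000000200010000040054040000000010004001008000000 := rS 0xca04190c02c8bb2570591083e204c0010806e5118d48a05 (k8 b2258 b2260 b125 b134 b430 b354 b272 b317 (k8 b143 b1863 b1677 b1867 b361 b2297 i613 b387 (k4 b644 b737 b339 i961 (k2 i1027 i2882 k0)))) (by decide +kernel)
def b2311 : PP 8 4 T 0x1000000001000010000000000002000000000000060000000000014000008002000 := rS 0x93111468 (k4 i1551 b510 b845 i1496 (k1 i3090 k0)) (by decide +kernel)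
def b2312 : PP 8 4 T 0x1000000000000000000000000000000000000000000000000008000200008000008 := rS 0x6c9a (k2 i1423 i1424 (k1 i2679 k0)) (by decide +kernel)
def b2313 : PP 8 4 T 0x1000000000000000040000100200000000000000000000000002000041108004008 := rS 0xd0875e30d88c1 (k4 i114 i1386 i1959 i1385 (k2 i1523 b831 (k1 i1834 k0))) (by decide +kernel)
def b2314 : PP 8 4 T 0x1000000000000000000000000210000000000000040000000000000041108000400 := rS 0x2c8b945410f58e3f13931a2af5380962ca061800c4727b2412301645d70e51aadd02fd218a4be0f20255463338a245f053fc303e1d379cda645 (k8 b2260 b1893 b390 b2266 b2264 b144 b304 b141 (k8 b2287 b84 b2309 b1907 i288 i115 b2022 b2310 (k8 i338 i904 b1032 i21 b2298 b138 b101 b125 (k8 b430 b2297 b387 b644 b335 b2283 i983 b719 (k8 i208 b431 b737 b341 i1379 i2876 i1224 b2294 (k8 i2277 i1165 b44 b529 b2312 i414 b2313 i2031 (k4 b303 b1972 b395 i2355 k0))))))) (by decide +kernel)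
def b2315 : PP 8 4 T 0x1000000000000000000000000210000000000000040000000000000041008000400 := rS 0xc9269d86020079012a3338a260a7317a8cff0c0f9bc3ad3 (k8 b1893 b2264 b2266 b144 b304 b141 i115 b84 (k8 b390 b2287 b2309 b1907 i288 b2022 b2310 i338 (k4 b2314 b82 b87 i2544 (k2 i983 b2144 k0)))) (by decide +kernel)
def b2316 : PP 8 4 T 0x1200000000000000000000000210000000000000040000000010000081008000200 := rS 0xb8199c52a2d10a2462d154a2d1a102618c00132100ce62f728d4a67f86074727b4fb0dfa1f378148ad3 (k8 b1893 b2260 b2258 b2266 b144 b2263 i371 b197 (k8 b379 b271 b2264 b304 b141 b121 b125 b430 (k8 b84 b390 b354 b272 i212 b317 i1349 b143 (k8 i897 i965 i452 i574 i654 b1388 b169 b82 (k4 i1384 b2086 b1907 i288 (k2 b2297 b644 k0)))))) (by decide +kernel)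
def b2317 : PP 8 4 T 0x1201000000000000000000000200000020000000000000010020000081008000200 := rS 0x64155cb45505f31800948b019d59a27149ed925742c40425511b940a49 (k8 b2259 b2258 b430 b134 b30 i743 b432 b64 (k8 b11 b288 b379 i138 i14 b2280 b1582 b44 (k8 b480 b348 b317 i1349 b502 b169 b1367 i1139 (k2 i637 b1393 (k1 i289 k0))))) (by decide +kernel)
def b2318 : PP 8 4 T 0x1201000000000000000000000200000020040000040000500020000081008000200 := rS 0x154a927930c3153e9655acb2bad620212a88dca05 (k8 b2258 b430 b134 b30 i743 b432 b277 b11 (k8 b145 b118 b43 i1326 b2 i1278 b2317 i790 (k2 i574 i2037 (k1 b818 k0)))) (by decide +kernel)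
def b2319 : PP 8 4 T 0x1200000000000000000000000210000000000000040000000000000001008000400 := rS 0x5ca546671448b44243200200efd65954e62f51b946a51299fe181f3787454d3 (k8 b1893 b2315 b2264 b2266 b144 b304 b141 b121 (k8 b32 b125 b430 i115 b84 b390 b30 b145 (k8 b2263 i1379 b431 b2316 i21 i743 b2283 b2318 (k4 b1907 i288 b2022 b644 (k1 b2297 k0))))) (by decide +kernel)
def b2320 : PP 8 4 T 0x1100000001000010104000000000000140000001440000000400010000008024002 := rS 0x1a4ca0c (k4 b341 i963 i1764 b1536 k0) (by decide +kernel)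
def b2321 : PP 8 4 T 0x1100000000000010104001001200000160050000440015540000010000008024004 := rS 0x637e8208c6d652acc315728015a05 (k8 b2258 i1286 b317 b430 b2 i1278 b818 i2037 (k4 i2289 b2320 i208 b291 (k2 i1349 b169 k0))) (by decide +kernel)
def b2322 : PP 8 4 T 0x1100000000000000000000000210000000000000040000000010000081008000000 := rS 0x4a8cce289649ad6a5968aa41e8b46840bd102b9309e550004c8403398bd46e5118d4fa51299fe181f37874727b618148ad3 (k8 b1893 b2260 b2258 i371 b379 b271 b2264 b2266 (k8 b144 b304 b141 b121 b32 i1326 b125 b134 (k8 b430 i115 b84 b390 b354 b272 i212 b317 (k8 b310 b91 b143 i442 b1863 i896 i897 i965 (k8 i452 b1677 i574 i654 b361 b277 i629 i613 (k4 b2321 b1907 i288 b2022 (k1 b2310 k0))))))) (by decide +kernel)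
def b2323 : PP 8 4 T 0x1102000000000000000000000200000020040000000000500020000001008000000 := rS 0xab278255a0f (k4 i338 i1286 b291 b293 (k2 b359 b2296 k0)) (by decide +kernel)
def b2324 : PP 8 4 T 0x1100000000000000000000000200000020040000000000500020000001008000500 := rS 0xaa0313d461d5683dfad3 (k8 b1893 b2323 i338 i1286 b2264 i115 b719 b431 (k2 b2296 i458 k0)) (by decide +kernel)
def b2325 : PP 8 4 T 0x1101000000000000000000000200000020000000040000010020000081008000200 := rS 0x119542168aa0ca5f318009403518d4ea290795e2023728149245 (k8 b2260 b2259 b2258 b430 b134 b1824 b11 i338 (k8 i138 b1582 b125 i115 b44 b348 b317 i1349 (k8 b502 i1049 b169 b1367 b1684 b2307 b1682 i1655 k0))) (by decide +kernel)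
def b2326 : PP 8 4 T 0x1100000000000000000000000200000020040000040000500020000081008000400 := rS 0x18ca638dd56330a84424a901004b65e2601c10fd30c5686e521ab41e05 (k8 b2258 i338 i1286 i21 b430 b301 b2 i1278 (k8 b2323 b2324 i3 b2325 b1549 i2552 i445 i788 (k8 i574 i905 i469 i378 i193 b818 i1800 i2092 (k2 b433 b1546 (k1 i465 k0))))) (by decide +kernel)
def b2327 : PP 8 4 T 0x1102000000000000000001000200010000040054040000000020004001008000000 := rS 0x4d3b08172c90611cc209479f4ea2372a4c6a0f (k8 i338 b125 i1365 b430 b134 b1582 i1326 b349 (k8 b291 b137 i208 b341 i464 b737 b2297 i2044 (k2 i2544 b2144 k0))) (by decide +kernel)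
def b2328 : PP 8 4 T 0x1100000000000000100001000000014400050154040000010000000000008000080 := rS 0x5c184ee03 (k4 b44 b2144 i1224 i2044 (k1 b737 k0)) (by decide +kernel)
def b2329 : PP 8 4 T 0x1100000000000000000200100000000000000001400000000000000000008000000 := rS 0xd34f (k2 b385 i1834 (k1 b308 k0)) (by decide +kernel)
def b2330 : PP 8 4 T 0x1100000000000000000004000600010000140054040000000020004081008000500 := rS 0x69432f4dabb4199289171e8fcaab809174425e26325626b060188e8f3e9d5263566bc53ebf6190cb20f42bf56b1011b95a645 (k8 b2260 b1893 b430 b134 b1824 b277 b2327 b64 (k8 i338 i866 i21 i371 i1452 b197 b35 b2280 (k8 b125 i1365 b1582 i1326 b349 i208 b431 b341 (k8 b1542 i2876 i464 b2328 b1549 i2544 i56 i905 (k8 b2297 b1502 i216 i1801 b387 b408 b339 b303 (k4 b434 i1699 b2329 i2047 (k2 i1563 b1631 k0))))))) (by decide +kernel)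
def b2331 : PP 8 4 T 0x1000000000000000000000000210000000000000040000000000000001008000400 := rS 0xc9268c0ec205c8b41095199c512b58803c864082a9c547f4094d6e518607cde933a9f46a8f398bd46e5118748ad3 (k8 b1893 b2260 b2264 b134 b430 i115 b84 b390 (k8 b349 b125 i1326 b1582 i1365 b2266 b144 b304 (k8 b32 b101 b121 b138 b141 b2315 i332 b2319 (k8 b2322 i21 i338 b1824 b277 b2326 b1907 i288 (k8 b2022 b2330 b2283 b644 b2297 i2044 b82 i2544 (k2 i983 b2144 k0)))))) (by decide +kernel)
def b2332 : PP 8 4 T 0x1100000001000000000000000000000000000000000000000000000082408000000 := rS 0x8e0320c448a05 (k8 b2258 b2260 b320 b1824 b354 i204 b317 b1553 k0) (by decide +kernel)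
def b2333 : PP 8 4 T 0x1100000000000000000000000200000000000000000010100000000002008000080 := rS 0xae556503d8311 (k4 b320 i114 i600 i1379 (k2 i764 i505 (k1 b345 k0))) (by decide +kernel)
def b2334 : PP 8 4 T 0x1100000000000000000000000000000000000000040010020000000002008000000 := rS 0x15cab11 (k4 b320 i2549 i529 b345 k0) (by decide +kernel)
def b2335 : PP 8 4 T 0x1100000001000010140400000000000040000000040000000408000000008104102 := rS 0x1acda8d618402635 (k8 i1114 i216 b603 i376 i965 i476 b1542 b2320 k0) (by decide +kernel)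
def b2336 : PP 8 4 T 0x1000000000000020000000001010000020000000000400040040000050058000100 := rS 0x29c7a3f13a0d3237089742ab740c31a645 (k8 b2260 b1893 b304 b138 b101 b230 b306 b309 (k8 i991 i1108 b1972 b889 b603 i1347 i283 i2031 k0)) (by decide +kernel)
def b2337 : PP 8 4 T 0x1100000000000010000004040a00000460000000150008000000000000008000440 := rS 0x19a8d36ae87005 (k4 b2258 i282 i368 b829 (k2 i1814 i1948 (k1 b1164 k0))) (by decide +kernel)
def b2338 : PP 8 4 T 0x501000000001000011100000000000000144000001150008000000010010008002000 := rS 0xd6c3 (k2 b1439 i508 (k1 b1536 k0)) (by decide +kernel)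
def b2339 : PP 8 4 T 0x1100000000000000000000000210000000000000040000000020000000008000500 := rS 0x1986d46970b7134129c7e3d5fa5d3e7b13b4510694a0d50a8f64958aacb07830c66500129160326abd62ab54bf00e5923ab49e2fa1a8c43110ab1d0e431497c56b740c303e511208dca1d02925a645 (k8 b2260 b1893 b2259 b2258 b2264 b430 b134 b2331 (k8 b1814 i183 b304 b138 b101 b2332 i904 b1032 (k8 i21 i927 i410 b230 b320 i12 i115 b301 (k8 b84 b719 i1285 i208 i867 b2333 b431 b338 (k8 b359 b382 b76 b2334 b44 b480 b348 b317 (k8 b180 i487 b1316 i5 i465 i1489 b345 b1523 (k8 i1132 b911 i1114 b745 i1583 b2022 b2336 b529 (k8 b637 b206 b984 i1725 i1346 b2335 b2337 i2031 (k4 b33 i775 b1972 i1052 (k2 i516 b2338 (k1 i895 k0))))))))))) (by decide +kernel)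
def b2340 : PP 8 4 T 0x1000000000000010000004000000140040501054001040000000000000008000000 := rS 0x46c64f49b (k4 b983 b421 b92 i1815 (k1 b120 k0)) (by decide +kernel)
def b2341 : PP 8 4 T 0x1000000000000010000000000410140000400010001000000001000054058000008 := rS 0x1bc6514798916c72f11f1ccdeb740c300ad3 (k8 b1893 b2258 b304 b138 b101 b1901 b390 i2031 (k8 b119 i2069 b2303 b325 b414 b2340 b279 i1774 (k1 b357 k0))) (by decide +kernel)
def b2342 : PP 8 4 T 0x1100000000000000000000000210000010000000040000020020000002008000200 := rS 0x13e391bb15081361bc0b8cd89a093a611eafe2cb96529c6a31559dc8c0d2c3449e0213c458e871497c56537e9c43a63478cd2e998a0bc5a433787ca223728148ad3 (k8 b1893 b2260 b2258 b430 b134 b1814 i183 b1901 (k8 i21 b2283 b84 b352 b133 b364 i288 b333 (k8 i1348 b2264 b1907 b291 i826 b2332 i904 b1032 (k8 i927 i410 b320 b1725 i788 i789 i653 b2334 (k8 i461 i867 i2561 i581 i1003 b358 i2082 i209 (k8 b1106 b1327 i2924 i2883 i1391 b313 b2341 b33 (k8 i895 b1972 b325 b1439 b253 i610 b297 b374 (k2 i194 b371 (k1 b1794 k0)))))))))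 (by decide +kernel)
def b2343 : PP 8 4 T 0x1000000000000014000004000210000010100004140000010020000140008002440 := rS 0xa7578e4d9185f9ad1a3f088f46ef04dc4c4e73388752e998a0bd162900194066125324b2432a8862224248148ad3 (k8 b1893 b2260 b2258 b2259 b2331 b320 i12 i1489 (k8 i21 i461 b1523 b348 i1047 b44 b180 b317 (k8 b1032 b480 b84 b352 b133 b364 b2264 b1907 (k8 b390 b529 b1950 b983 b325 b374 b324 b78 (k8 b119 i964 i467 i1451 b120 b1191 b107 i594 (k2 b829 b375 k0)))))) (by decide +kernel)
def b2344 : PP 8 4 T 0x10001000000000000000000000000000000010000000000000000008040000008000000 := rS 0x72f1 (k2 b119 i296 (k1 b357 k0)) (by decide +kernel)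
def b2345 : PP 8 4 T 0x1100000000000000000000000210000010000000040000000020000000008000400 := rS 0x20c7ea71e89d5e3708c65a0cf34c590a5664954b20c32800940326aa6282f10c442a292f8ad6e81860740e2d0410cde1f2889046e502925a645 (k8 b2260 b1893 b2259 b2258 b430 b134 b2331 b1814 (k8 i183 b1901 i21 b2339 b2283 i3 b2264 b304 (k8 b138 b101 b2332 i904 b1032 b230 b320 i12 (k8 b84 b352 b305 b2342 b44 b348 b317 b180 (k8 b1316 i461 i1489 b1523 b345 b911 b339 i1583 (k8 b36 b2343 b292 b309 i991 i591 b889 i1268 (k4 i203 b2344 b1108 i2031 k0))))))) (by decide +kernel)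
def b2346 : PP 8 4 T 0x1000001001000000044000000004000001001000000400000020115000008184001 := rS 0x628dd3b16 (k4 b335 b313 i1800 b854 (k1 b1794 k0)) (by decide +kernel)
def b2347 : PP 8 4 T 0x1000000000000000040400000210000020400000000000120020015040008000200 := rS 0x8b59840269f3ca14ba9b8916d863958a5de3451f1cdca15149bd6e818607c3b153083c4e0121aa4a6d12fa9c7a62011140ad3 (k8 b1893 b2258 b2260 i788 i191 i2867 i2065 i904 (k8 i653 i826 i574 i21 i445 b1725 b1677 i1278 (k8 b2 b2264 i183 b304 b138 b101 b1901 b1032 (k8 b230 b430 b390 i2031 b58 b119 b416 i1294 (k8 i2069 i376 b2303 b325 i1444 b22 b25 b414 (k4 b2304 b2346 b439 i1428 (k2 b461 b819 k0))))))) (by decide +kernel)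
def b2348 : PP 8 4 T 0x1100000000000000000000000210000020000000040000020020000002008000200 := rS 0x4f8e46ec54204d86f02e336268267a762cbf1a8c5944606aad5a332796152021383d1f4388b1d0e431497c56532888dcafd8a9848a05 (k8 b2258 b2260 i1278 b2 b291 b430 b134 b1814 (k8 i826 b2332 i904 b1032 i21 i927 i410 b320 (k8 b301 i2597 b1677 b1725 i788 i574 b2334 i790 (k8 i287 i1286 b818 i461 i867 b433 i1003 b358 (k8 i2924 b335 b313 b36 b2347 b33 i895 b1972 (k8 b325 b1439 b253 i610 b297 b374 i194 b371 (k1 b427 k0))))))) (by decide +kernel)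
def b2349 : PP 8 4 T 0x1100000000000010000000000200000440000000150008000002000006008000204 := rS 0x46b3420c4 (k4 i1386 i1268 i1791 i1760 (k1 b1365 k0)) (by decide +kernel)
def b2350 : PP 8 4 T 0x100000000000001414000000a000000040000000150000000008000000008100000 := rS 0x6c081ad1a135eac5e2b3 (k8 i663 b119 i1294 i1412 i217 i1090 i586 b439 (k2 b1191 i476 k0)) (by decide +kernel)
def b2351 : PP 8 4 T 0x1000000000000010000000000800000060000000000000000000000000008000200 := rS 0x2328d1c2b8c205 (k4 b2258 i1278 i203 i282 (k2 i1925 b107 (k1 b120 k0))) (by decide +kernel)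
def b2352 : PP 8 4 T 0x1100000000000010000000000210000020000000040000000020000002008000200 := rS 0x1b0b882538fc7ab3138558e872f8ad6e818607ca21d458a55063478cd54cb03bf686ad609a50a5667c5992592a83086e50008c431132928064d248148ad3 (k8 b1893 b2260 b2258 b2259 b2348 b44 b348 b180 (k8 b320 i12 b134 b317 b430 i21 b1316 i1489 (k8 i461 b1523 b339 b36 b345 b911 i1583 i114 (k8 i1493 b301 b291 i3 i465 b433 i1609 b333 (k8 i1349 b169 b1032 b480 b2264 b1814 i183 b304 (k8 b138 b101 b2332 i904 i927 i410 b230 b529 (k8 i663 b2349 b2350 b2351 i2031 b1319 b2130 i516 k0))))))) (by decide +kernel)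
def b2353 : PP 8 4 T 0x1100000000000000000000000210000000000000040000000020000000008000400 := rS 0xe5e23e53abd363d138dd06118cb41506301934c2887e82102b78607ca25f1490c5e1d0a8ac482372815a645 (k8 b2260 b1893 b2258 b430 b134 b2331 b2332 b230 (k8 b2264 b84 i21 b1032 i904 b1814 i183 b304 (k8 b101 b138 b2339 b291 b2345 i1278 b2348 b44 (k8 i1349 b169 b2352 b292 b309 b1404 i991 b889 (k8 i1268 b193 i592 i203 i2031 b119 i297 b357 k0))))) (by decide +kernel)
def b2354 : PP 8 4 T 0x1100000000000000000000100200000000000000000000000002000000008104000 := rS 0x369ad78c4 (k4 i1386 i1385 i1790 i1522 (k1 b2329 k0)) (by decide +kernel)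
def b2355 : PP 8 4 T 0x1000000000000014100000000000000000000000040020000408000000008002084 := rS 0xd68b34a34dab2081940005 (k8 b2258 b317 i963 i1420 i1419 i2287 i1760 i1764 (k2 i2265 i2280 (k1 b1191 k0))) (by decide +kernel)
def b2356 : PP 8 4 T 0x101000000000000014900000000210000004040000040120040401000054048002004 := rS 0x469a46ec535a2d86f02f336274536a097e3f729946a005ba06181d0329da605 (k8 b2258 b1893 b2294 i465 b2264 b304 b138 b101 (k8 b317 i1114 i963 b430 b2355 i1451 i2031 b237 (k8 b303 b33 i895 b1972 b408 b1439 b318 i630 (k4 b297 b374 i1495 i964 (k1 b1536 k0))))) (by decide +kernel)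
def b2357 : PP 8 4 T 0x1100000000000000000000000200000000000000000000000002000000008104100 := rS 0x2213582f188f1 (k4 b324 i1386 i1385 b2354 (k2 i3057 i1762 (k1 b439 k0))) (by decide +kernel)
def b2358 : PP 8 4 T 0x101100000000000000100000000210000004440000040160140409000054048002104 := rS 0xaf59bf00ecb2fb4420b1a18555ac167c58ca005baaca70c0eb4c0a45 (k8 b2260 b2258 b1893 b2264 b304 b121 i581 b101 (k8 b317 i963 b339 b36 i114 i1493 b230 b301 (k8 i1294 b603 b309 i470 b2356 b2355 b433 i473 (k2 b76 b1811 k0)))) (by decide +kernel)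
def b2359 : PP 8 4 T 0x1100000000000000000000004a00000000000000000000000000000000008002000 := rS 0x14f369acd2cb612e98ac1 (k8 i114 i1919 i368 i367 b2294 i1495 i1947 i1681 (k2 b135 b308 k0)) (by decide +kernel)
def b2360 : PP 8 4 T 0x101100000000000000100000000210000004440000040160140401000054048002104 := rS 0x3f5ba054eab29c303ad3 (k8 b1893 b2264 b304 b121 i581 b2359 b138 b101 (k2 b2358 i2031 k0)) (by decide +kernel)
def b2361 : PP 8 4 T 0x101100000000000000000000000210000004040000040060160401000050048002104 := rS 0x36b4586cd3dafd1a691f8dd8a6b45bc0bcbd89d1504a75594e182fa1b943a65139746ac90034c0a45 (k8 b2260 b2258 b1893 b317 i2275 i1114 i2259 b1725 (k8 i963 b2264 b430 b301 b84 b304 b121 i581 (k8 b2359 b2360 b303 b33 i1416 b1972 b325 b318 (k8 i630 b297 b374 b119 i1495 i964 i1451 b2146 (k4 i895 b1415 i654 i670 (k1 b1536 k0)))))) (by decide +kernel)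
def b2362 : PP 8 4 T 0x1000000000000000100010010000004000040040051020120000000002488000000 := rS 0x196ab31aa52a7c5a9ba1a71 (k8 b287 b50 b144 i1396 i351 b1828 i575 i1319 (k2 i582 i1327 (k1 i2040 k0))) (by decide +kernel)
def b2363 : PP 8 4 T 0x101100000000000000000000000210000004040000040060160400000050048006104 := rS 0xf42a45 (k4 b2260 b230 b2357 b2361 k0) (by decide +kernel)
def b2364 : PP 8 4 T 0x1100000000000000000000000210000000000000040000000000000000008000400 := rS 0x196fd042aca70c0f9845ab949c586a2964ab4ba6507830b0512612c9e5b0011c840320a1c567360d0dca230e886227f1234c0a45 (k8 b2260 b2258 b1893 b2331 i842 b320 i12 b2264 (k8 b134 b430 b301 i114 b390 b2332 i927 b2353 (k8 b354 b272 i204 b317 b81 b91 b436 b143 (k8 b238 i858 i859 i596 i963 i2259 i1493 i2275 (k8 b1296 i1114 b339 i1365 b387 i1383 i960 b2362 (k4 b304 b121 i581 b2363 (k2 b291 i1388 (k1 b433 k0)))))))) (by decide +kernel)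
def b2365 : PP 8 4 T 0x1000000000000000000000000400440000000000000000000001140500008080108 := rS 0x988a0fd12d3 (k4 b1893 i190 i216 b352 (k2 b375 b133 k0)) (by decide +kernel)
def b2366 : PP 8 4 T 0x1001000001000000400000011000000020040000150011500000000082008000001 := rS 0x27aacc3152597898022010c0a45 (k8 b2260 b2258 i858 b272 b317 b44 b1549 b794 (k4 b2 i1278 b818 i790 (k1 b1464 k0))) (by decide +kernel)
def b2367 : PP 8 4 T 0x1000000001000000400000010010000000000000150011000400000082418000040 := rS 0xa71b186b25f8f9549927c50e2897e82136978c3147a3763abc24cd289785aa90f930960200a9de239179fca64021b4c8a05 (k8 b2258 b2260 b1893 i858 b272 i826 i842 b84 (k8 b271 b35 i332 b1553 b317 b794 b44 b51 (k8 i1084 i1001 b1549 b1895 i2604 i905 i589 i411 (k8 i1800 i1802 i1803 b482 b26 b72 b2365 b291 (k8 b2366 b1907 b352 i789 b133 b1464 b375 i1722 (k4 i217 i376 i665 b381 (k1 b384 k0))))))) (by decide +kernel)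
def b2368 : PP 8 4 T 0x101000000000000000500000011200000400040004050015400000000400008000508 := rS 0x1707731ad22895499c556897e13d461d0f8b40ed3 (k8 b1893 i1379 i1001 b51 b2264 i115 b719 b431 (k8 i190 b359 b1907 i1364 b2022 b352 b160 b55 (k2 i807 b165 (k1 b1106 k0)))) (by decide +kernel)
def b2369 : PP 8 4 T 0x1000000000000000000000000400440090000000000000000005140500008000200 := rS 0x13063 (k2 i1348 b375 (k1 i1939 k0)) (by decide +kernel)
def b2370 : PP 8 4 T 0x101000000000000000440000010610000004040000140011020025005050008004200 := rS 0x2746a935a13d30ab30c55109b4fc647237629e114137830cb8ae4bc4e8acd412cd7e2f72854be8f1395d52531681cdeb740c303e020e815a645 (k8 b2260 b1893 b2258 b2264 i788 b51 b304 b138 (k8 b101 b1901 i1379 i1001 i826 i574 i529 b1725 (k8 i2597 i904 b230 b430 b84 i1451 i1427 i2031 (k8 i895 b303 b33 b406 b1108 b1319 b1439 b408 (k8 i1920 i531 i532 b832 b374 i194 b279 i1076 (k8 i1073 b2369 b2 i1278 b818 b300 i790 b160 (k4 i1369 i359 i1943 b1794 k0))))))) (by decide +kernel)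
def b2371 : PP 8 4 T 0x1000000000000001000000000000000008100008600000000000000400000000000000000008100000 := rS 0xae5f2ec2343 (k4 b301 i1952 i1944 b1415 (k2 i1722 b166 k0)) (by decide +kernel)
def b2372 : PP 8 4 T 0x1000001001000000044000000000000004000000500055000020000054008004000 := rS 0x6ca73159a152f9762445 (k8 b2260 b325 b22 i904 b230 b1453 b832 b381 (k2 b614 b384 k0)) (by decide +kernel)
def b2373 : PP 8 4 T 0x101000000000000000440000010610000004040000540011020021005050008004200 := rS 0x4f5aabd56be5d8458483892f4b6b178d147d437294c2a272b87c0445 (k8 b2260 i788 b51 i529 b1725 b230 i826 b430 (k8 b301 b2370 b58 b119 i1294 b2303 i1412 b325 (k8 b33 b2372 i1952 i1944 b1415 b2371 b166 i1455 (k2 b210 b160 k0)))) (by decide +kernel)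
def b2374 : PP 8 4 T 0x1000000000000000000004000a00000004000000500415000000000000008000200 := rS 0xcd2e9b4b6bf5d0495c3f (k8 i140 i203 i202 i368 i1451 i1922 i594 b253 (k2 i1948 b614 k0)) (by decide +kernel)
def b2375 : PP 8 4 T 0x1000000000000000000000000210000000000000040000020000000000008000400 := rS 0x61b1078a7042de186f1887c66a92b8084e8f17b06227f07b24d629298558e872f8ac0ecb34ab48e553287446e52010cb3041234c8a05 (k8 b2258 b2260 b1893 b2331 b2364 b43 i858 b272 (k8 b430 b134 b2264 b9 b30 b383 b118 b140 (k8 b145 i1379 b2367 i904 i927 i410 b230 i826 (k8 b486 b353 b288 b283 i842 b320 i114 b84 (k8 i2597 b1725 i788 i529 i574 i287 b51 i1002 (k8 b1901 b304 b101 b2368 b2374 b2373 i1386 i1959 (k1 b832 k0))))))) (by decide +kernel)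
def b2376 : PP 8 4 T 0x1000000000000010100000000000020044800000550400048000000000008000000 := rS 0xda8d67970b6bd (k4 i1416 i775 b1972 i1105 (k2 i1052 i516 (k1 b1191 k0))) (by decide +kernel)
def b2377 : PP 8 4 T 0x1200000000000010040000000000020040000000040000000008000000008100102 := rS 0x33cda8d5e8402665 (k8 b9 i216 b603 i1412 i965 i476 i1105 b1169 k0) (by decide +kernel)
def b2378 : PP 8 4 T 0x1000000000000000000000000210000000000000040000000000000000048000500 := rS 0x2359e6d1baf54c3f418f52e2768a2128af58aad52fc278bd466b0ab1d0e5f159a55a472a99446e52022c52432c98c0ecb499856e81860745ab937a3c94771a800064d64c122224698149245 (k8 b2260 b2259 b2258 b1893 b2331 b320 b2364 b288 (k8 b2375 b44 b317 i1114 i804 b348 i1132 b1901 (k8 b1106 i1383 b2264 b304 b138 b101 i1047 i1365 (k8 b145 i1379 i447 b43 i858 b486 b480 b272 (k8 b430 b134 b9 b30 b383 b118 b140 b2367 (k8 i904 i927 i410 b230 b353 i115 b84 b719 (k8 b431 b338 b359 b382 b76 i2040 b2022 b2336 (k8 b529 b984 i1346 b2376 b2377 i2031 i1985 i1917 (k4 b829 i1105 i964 b1169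 k0))))))))) (by decide +kernel)
def b2379 : PP 8 4 T 0x400000000000101000000001000000100400000400000044800000551400000405010010008104200 := rS 0x63451a6d61bc0b8ae5ed1566d3 (k8 b1893 i1427 b303 i1416 b1108 b1319 b408 b1415 (k4 i594 i1925 b306 b1433 (k1 b1536 k0))) (by decide +kernel)
def b2380 : PP 8 4 T 0x1000000000000000000000000000000000000000000400000020000008008000000 := rS 0x1a036 (k2 b289 b529 (k1 b202 k0)) (by decide +kernel)
def b2381 : PP 8 4 T 0x101000000000000000100000000610000044000000551400000405010054048004200 := rS 0x2097f43728556e8186075a645 (k8 b2260 b1893 b2264 b304 b138 b101 b230 b430 (k4 b301 i1451 i2031 b2379 k0)) (by decide +kernel)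
def b2382 : PP 8 4 T 0x1201000000000014000000006000000140000000040000000008000000008100000 := rS 0x571b16665 (k4 b9 i663 b1169 b1376 (k1 i593 k0)) (by decide +kernel)
def b2383 : PP 8 4 T 0x1201000000000004000010004000000140000000045000000029000450008000000 := rS 0x709b1b84632d05405507127889cbe45 (k8 b2260 i904 b2380 b119 b325 b33 b230 b1171 (k4 b2382 b292 b309 i991 (k2 b193 b357 (k1 i297 k0)))) (by decide +kernel)
def b2384 : PP 8 4 T 0x801001000000000000000004009010000040100004044000010008000000018100000 := rS 0xde32d038a6512731780006612525c0a49 (k8 b2259 b2258 b416 b348 i1047 b44 b317 b84 (k8 b390 b169 b2279 b1907 b1950 b292 i991 b2344 k0)) (by decide +kernel)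
def b2385 : PP 8 4 T 0x101200000000000000040000000610000004000400040000010021000050048000200 := rS 0x709b1b84632d0542a99e8d3ca0e24f11f0bc1e653591cd215458d4c6000181d96272f985726f4792992b740c303afd699240a45 (k8 b2260 b2258 b2259 b1893 b291 b2264 b304 b138 (k8 b101 b288 b348 i1132 b1901 b1106 i1047 i904 (k8 b2380 b145 i1379 b44 b317 i447 i1114 b480 (k8 b230 b140 b383 b353 b9 b283 b84 b2381 (k8 b119 b325 b33 b414 i1051 b1168 b2383 b2384 (k4 b2350 b292 b309 i991 (k2 b193 b357 (k1 i297 k0)))))))) (by decide +kernel)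
def b2386 : PP 8 4 T 0x1200000000000000000000000200000040000000040000000002000000008100204 := rS 0x235a2cf3684188651a8019205 (k8 b2258 b288 b317 i1114 b9 i1386 i1268 i1522 (k4 i1794 b309 i1760 b1169 k0)) (by decide +kernel)
def b2387 : PP 8 4 T 0x1000000000000000000000000210000000000000040000000000000000048000400 := rS 0x4d2a106d0679751a6d59afc22ba092b87ea61e8217261378be221563a1cbe2b03b2cd2ad23954ca1d11b94808b1490cb28f251dc6a00019359304120149245 (k8 b2260 b2259 b2258 b2331 b2364 b288 b2375 b44 (k8 b317 i1114 i804 b348 i1132 b43 i858 b486 (k8 b480 b272 b430 b134 b2264 b9 b30 b383 (k8 b118 b140 b145 i1379 b2367 i904 i927 i410 (k8 b230 b320 b84 b1901 i1047 b1106 b2378 b2386 (k8 b2385 i140 i203 i202 i368 i1913 i1451 i1427 (k8 i594 i1925 b253 i1951 b1169 b1319 i591 i592 (k1 b193 k0)))))))) (by decide +kernel)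
def b2388 : PP 8 4 T 0x1000000000000000000000000000000000000000000000000020000000088000000 := rS 0x51 (k2 b569 i183 k0) (by decide +kernel)
def b2389 : PP 8 4 T 0x1000000000000000000000000210000000000000040000000000000000008000400 := rS 0x7880432cc104845 (k8 b2260 b2331 b2364 b43 i858 b272 b2387 b2388 k0) (by decide +kernel)
def b2390 : PP 8 4 T 0x1000000000000000000000000100010000050000020004560020000081008000100 := rS 0x16aad2ab2d5630061644205 (k8 b2258 i2544 i866 b1642 b796 i1659 i466 i1489 (k2 i1494 b778 (k1 i2037 k0))) (by decide +kernel)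
def b2391 : PP 8 4 T 0x1100000000000000000000000100000000050054040000460020000281008000100 := rS 0xb53aae4ef108b154ca934aa3cae51649646602 (k8 i788 i193 i866 i613 i528 i529 b349 i2674 (k8 i1242 b2390 i792 b339 b345 b21 b387 b426 (k2 b277 i2044 k0))) (by decide +kernel)
def b2392 : PP 8 4 T 0x1100000000000000000000000010000000000000040000020020000081008000500 := rS 0xb53a9de20b98b154c26503255263c8a0b536978c1c46e7f3ea24244f86324a25701004bc1d398bd4a43299bc3e3953a3cb2d3 (k8 b1893 i866 b349 i332 b271 b2388 b1901 i826 (k8 i21 b2389 b84 b390 i2543 b1549 i445 i788 (k8 i529 i528 i613 b304 b719 i905 i190 b34 (k8 b141 i1800 b1907 b482 b26 b72 b2391 b352 (k8 b2365 b71 b435 i1802 b2390 i1223 i792 b339 (k4 b737 b345 b21 b426 (k2 b277 i2044 k0))))))) (by decide +kernel)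
def b2393 : PP 8 4 T 0x1000000000000000000000000000000000000000020000010000000001408000000 := rS 0x720c0e84a0000c0a49 (k8 b2259 b2258 b44 b317 b348 i1049 i962 b1582 (k1 b273 k0)) (by decide +kernel)
def b2394 : PP 8 4 T 0x1100000000000010004000000000000040000000150400008000002015008004002 := rS 0x477288c2a05 (k4 b2258 i637 b1888 b273 (k2 i1531 b1646 k0)) (by decide +kernel)
def b2395 : PP 8 4 T 0x1100000000000000100001000110000000000100040000010000001001158000000 := rS 0x4a9c512a2608cd27165c9dce62f47984946f3288cfa7f8634c0a49 (k8 b2259 b2258 b1893 b304 b141 b34 b1888 b2393 (k8 b1901 b348 i1047 b349 b84 b390 b2144 b737 (k8 b339 b7 b80 b2121 i2030 i280 b1907 b2086 (k1 i2044 k0)))) (by decide +kernel)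
def b2396 : PP 8 4 T 0x1000000000000000000000002000000000000000000000000000000400008000500 := rS 0x1dfad3 (k4 b1893 b338 i456 b431 k0) (by decide +kernel)
def b2397 : PP 8 4 T 0x1000001000000010000000501400000140000000005000000001000000008000080 := rS 0x1444c0fd5ed3 (k4 b1893 i460 i1419 b455 (k2 b408 b275 k0)) (by decide +kernel)
def b2398 : PP 8 4 T 0x201100000000000010004000011110000020000000040200010020000005018000000 := rS 0xa260a541ac8189a56a75428d516292f928426511800060f3e9fe181f698149245 (k8 b2260 b2259 b2258 b1893 b2388 b304 b141 b34 (k8 i338 b44 b317 b1888 b2393 b1684 b348 b502 (k8 b1032 b480 b125 b64 b426 b277 i1849 b2394 (k4 b2395 i464 i1100 b2237 (k2 i2030 i281 k0))))) (by decide +kernel)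
def b2399 : PP 8 4 T 0x1100000000000000000000000010000000000000040000000021000081008000500 := rS 0x25190a25a9d4a857349b58a3106b05c911440b62a9857ab5f8075998cfe7d2893e181d5289d4e8f2cb0d9a9b309bc3eb1083c4b85b0ac4d2f184684d16296897c94213288c00032683d522f698149245 (k8 b2260 b2259 b2258 b1893 b84 b2396 i338 b2392 (k8 b44 b317 b1888 b2393 b1684 b348 b502 b1367 (k8 b1032 b480 i213 i965 b120 b26 b376 i637 (k8 i772 b330 b35 b439 i1762 b2388 b1901 i1047 (k8 b983 i888 i371 i866 b349 i332 i14 b2389 (k8 i901 b304 b719 b32 b34 b141 i487 i513 (k8 b2397 b431 b405 b76 b942 b133 i981 b352 (k8 b2398 b432 b346 b28 b273 b75 i475 i1763 (k8 b1164 b345 i1539 i767 i2030 b2395 i281 i1100 k0))))))))) (by decide +kernel)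
def b2400 : PP 8 4 T 0x1100000000000000000000000010000000000000040000000020000081008000500 := rS 0xc48959abd323c54a5d6318082342a1368984be002522c064d178a4de1f788149245 (k8 b2260 b2259 b2258 b35 b2388 b1901 b1032 b84 (k8 b2392 b44 b480 b348 b317 b502 i1047 b1367 (k8 i213 i637 i965 b439 b120 i1762 b26 b2396 (k4 b2399 i1786 i1782 i1254 (k2 i1346 b455 (k1 i448 k0)))))) (by decide +kernel)
def b2401 : PP 8 4 T 0x1100000000000000000000000110000000000000020000020020000081008000200 := rS 0x1a50cbf41d107eb35daf50ac0882d4aaa3729b4600c78a7d6ea71196586cd3ea04ff0c0e87c425d1e848bc4303b4c8a05 (k8 b2258 b2260 b1893 i3 i21 b1549 i905 i1802 (k8 i56 i2544 b2388 i1262 b304 b141 b138 b34 (k8 i888 i371 i866 b1888 i332 i850 b197 b35 (k8 b1642 b796 i1699 b28 i1648 i1489 b778 b1824 (k8 i2030 b64 i1252 i1520 i2912 i217 b408 b303 (k4 b63 i2047 i1563 b1631 k0)))))) (by decide +kernel)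
def b2402 : PP 8 4 T 0x1100000000000000000000000110000000000000040000020020000081008000200 := rS 0x13144448fd44c15a9d5727749c422c5532a6d2f181e8dc66126495c0401109785e3978a9c468f2c81c5a6f3e9fe181d2187da605 (k8 b2258 b1893 b2388 i21 i1262 b304 b141 b34 (k8 b1901 b2283 i3 i866 b349 b1888 i332 b35 (k8 b271 b84 b1549 i2544 i445 i788 i529 i613 (k8 i905 i193 i1800 i1802 b482 b26 b72 b2401 (k8 i792 b339 b345 b7 b21 b387 b426 b277 (k4 b2121 i2030 i2090 i280 (k2 b408 b375 (k1 b275 k0)))))))) (by decide +kernel)
def b2403 : PP 8 4 T 0x201100000000000010004000000110000000000000040200010020000005008000200 := rS 0x451508955289829506b2062695a9d50a2f1ab2c5a6f3e9fe181d2187d16292f928426511800060f698149245 (k8 b2260 b2259 b2258 b1893 i338 b44 b317 b1888 (k8 b2393 b1684 b348 b502 b1032 b480 b2388 i21 (k8 i1262 b304 b141 b34 b1901 b2283 i1387 b125 (k8 b84 b64 b426 b277 i1849 b2394 b2395 i464 (k8 i1101 i1266 i2030 i201 i281 i583 b352 b419 k0))))) (by decide +kernel)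
def b2404 : PP 8 4 T 0x1100000000000000000000000010000000000000040000000020000081008000400 := rS 0x146b555950ae6936b141ac172444b85b082342a1368884be00329291603269fcfb0c0eb2c10cd6183cb28f5290c521f13c4de22302925a645 (k8 b2260 b1893 b2259 b2258 b1888 b35 b376 i14 (k8 b2388 b1032 i21 b2389 b349 i866 i338 i371 (k8 i888 b2400 i1387 i1262 b304 b34 b141 b2402 (k8 b44 b480 b348 b2393 b317 b502 b1684 b1367 (k8 i213 i637 i965 b439 i772 b330 b2403 b432 (k8 b346 b28 b75 i475 i1763 b1164 b345 i1657 (k2 i768 i201 (k1 i2030 k0)))))))) (by decide +kernel)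
def b2405 : PP 8 4 T 0x1100000000000000000000000010000000000000040000000020000080008000400 := rS 0x728904605 (k4 b2258 b1888 b2404 b298 (k1 b2332 k0)) (by decide +kernel)
def b2406 : PP 8 4 T 0x1000000000000000000000000010000000000000040000020020000081008000500 := rS 0x1d96911559d62e0d67390e2c5638dcfe7d4e8c512330922c9f0c68944ae02009783a2f2194cde1f1c9ed3e652a91cb2ad34b2e088f1ab0d9ad3 (k8 b1893 i888 i371 b125 b349 b2405 b145 b140 (k8 b118 b43 b383 b30 b9 b197 b379 b271 (k8 b2388 b1901 i826 i21 b84 i2543 b1549 i445 (k8 i788 i529 i528 i654 b304 b719 b318 i905 (k8 i193 i190 i1002 b510 b34 b141 i1800 i218 (k8 i1803 b1907 b1794 b427 b28 b36 i1068 b573 (k4 b705 i2037 b294 i807 k0))))))) (by decide +kernel)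
def b2407 : PP 8 4 T 0x1200000000000000000001004010000000010000000004000020000000018000500 := rS 0x1fca24f8614c3e552cab596d3 (k8 b1893 b145 b118 b43 b30 b2388 i826 b304 (k4 b719 b32 b141 i2037 k0)) (by decide +kernel)
def b2408 : PP 8 4 T 0x1000000000000000000000001000000000000000001000000020000000028000002 := rS 0x1fb1531938e089 (k4 b398 b117 i741 i448 (k2 b334 b293 (k1 b342 k0))) (by decide +kernel)
def b2409 : PP 8 4 T 0x221200000000000010000000000000000000000000040000450020000001008000500 := rS 0x303554fd2b8a4aa592f928a27d3fb4c9245 (k8 b2260 b2259 b1893 b141 b34 b32 b348 b502 (k8 b43 b30 b1032 b11 b1758 b705 b641 b431 (k1 i457 k0))) (by decide +kernel)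
def b2410 : PP 8 4 T 0x1000000000000000000000000010000000000000040000000020000081008000500 := rS 0x22170705a15cec758bb38daab06b92227f3e9449f0c0e8411a1509b44c25f00129160326aa45ea51494cde1f78994b2ad6588d92212ac111ecd698149245 (k8 b2260 b2259 b2258 b1893 i888 b349 b2405 b30 (k8 i743 b288 b571 b145 b118 b43 b9 b35 (k8 b2388 b1901 i826 b1032 b2389 b84 b2396 b2406 (k8 b44 b480 b348 b317 b502 i1047 b1367 i213 (k8 i637 i965 b439 b2408 b304 b719 b32 b34 (k8 b141 b2409 b432 b28 b573 i475 b1169 b36 (k8 i1068 b294 i1627 i2037 i807 i808 b1907 i1403 k0))))))) (by decide +kernel)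
def b2411 : PP 8 4 T 0x1000000000000000001002000110000000050000040000020420000081518000000 := rS 0x8938218ec7542d3e2e97674618e374e8cc248b68808025e1790c3e39789ed3ea7478d586cd18b15c911 (k8 b277 b432 b75 b778 i888 i371 b125 b349 (k8 i332 b197 b379 b35 b271 b2388 i21 b84 (k8 b1549 i445 i788 i654 b318 i905 i193 b510 (k8 i1800 i218 b482 b427 b26 b36 b412 i1871 (k4 i1068 b294 b766 i807 (k2 b2211 b1907 k0)))))) (by decide +kernel)
def b2412 : PP 8 4 T 0x1000000000000000000000000010000000000000040000000020000081008000400 := rS 0xeb17671b4208d0a9dc26d13097cc6002522c064d06b9222b43e9fd82a30e945fa0866a3d4a431494cde1f789948ead11b244255820149245 (k8 b2260 b2259 b2258 b2405 b30 i743 b288 b571 (k8 b118 b383 b9 b35 b2388 b1901 i826 b1032 (k8 i21 b2389 b349 i888 b2410 b291 i1309 i1262 (k8 i200 i1265 b1503 b1427 i2030 b277 b432 b28 (k8 b2411 b44 b480 b348 b317 i1349 b502 i1047 (k8 b1367 i213 b1104 i637 i965 b439 i475 b1169 (k2 b36 i1068 (k1 b294 k0)))))))) (by decide +kernel)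
def b2413 : PP 8 4 T 0x1000000000000000000000000010000000000000040000000020000080008000400 := rS 0x60d0d68ab279f40d0c2895c3a4c2580802a33fb944823659a55a5923954cac982294a66f0fb4c0a45 (k8 b2260 b2258 b1893 b2388 b1901 i826 b2389 b2405 (k8 b288 b9 b30 b383 b43 b118 b140 b145 (k8 b571 b2412 b298 i842 i324 b1553 b317 b794 (k8 b44 b232 b1532 i528 b304 b2367 b34 i1221 (k4 i458 i2037 b425 i1247 (k1 b428 k0)))))) (by decide +kernel)
def b2414 : PP 8 4 T 0x201000000001000000000000000010004410050414000000000000015000008000000 := rS 0x2e52b16398bceab5 (k8 b277 b426 b84 b390 b335 b2086 b387 i2044 k0) (by decide +kernel)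
def b2415 : PP 8 4 T 0x1000000000000000000000000000020010000000000000000000000400008000008 := rS 0xb62ad3 (k4 b1893 b435 i2674 b352 k0) (by decide +kernel)
def b2416 : PP 8 4 T 0x1000001000000000000004140000000000000000000500540002000004008100000 := rS 0x102d04d6683 (k4 b1972 i1254 i1801 b1811 (k2 b439 i1757 k0)) (by decide +kernel)
def b2417 : PP 8 4 T 0x1000000000000001814000000010000001000000000101060024000041008001000 := rS 0x368457aa61eabd62bb34c498cf141a1c52530a89cbe21289bc460121add030c0e87c8ad3 (k8 b1893 b2260 b2388 i2543 b304 b138 b101 i21 (k8 i445 b1150 b1901 i528 i2544 i904 b2380 b230 (k8 i826 b1032 b646 b1972 b1720 i2032 b325 i1562 (k8 i1680 i1394 i626 b2416 i2031 i1984 i1912 i674 (k1 b527 k0))))) (by decide +kernel)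
def b2418 : PP 8 4 T 0x201100000000000000000000010010000000000000060001020020000001008000500 := rS 0xc74fa759e371cbc0f08a09c4cb83f160198ac37eb90c0318b83570ca499cd4a292989cbe2b47944de333e9fe181f648d59a592b93ce21d429d56aab4aa24042f3b815a645 (k8 b2260 b1893 b2258 i1547 b84 i788 i190 b2415 (k8 i1659 b277 b426 b64 i2543 b1907 b719 i529 (k8 i866 b797 b125 i1122 b2388 b304 b141 b34 (k8 i193 b1901 i528 i2597 b2413 i904 b2380 i826 (k8 b1032 b2389 b390 i1549 i2037 i2044 i466 b387 (k8 i987 b737 b335 b137 b52 b75 b431 i1223 (k8 b2312 b2417 b22 b253 i531 i532 b325 i194 (k4 i1774 i1979 i1857 i1075 (k2 b4 b427 k0))))))))) (by decide +kernel)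
def b2419 : PP 8 4 T 0x201100000000000000000000000010000000000000060001020020000001008000500 := rS 0x8b249ca315cb001aac3b9ccde8f199f4ff0c0fb246a710ea551202179d56ad3 (k8 b1893 b277 b426 b84 i788 i190 b2415 i2543 (k8 b1907 b125 i1122 b2388 b304 b141 b34 i193 (k8 i2597 b1901 b390 i1547 b2418 i1494 b694 i1290 (k4 i1003 b346 i2044 b335 (k1 b7 k0))))) (by decide +kernel)
def b2420 : PP 8 4 T 0x1000000000000000000004100480000000000000800540540000000000008000500 := rS 0x1dfaae59afd06d3 (k8 b1893 b1972 i1720 i634 b1811 b76 i460 b431 k0) (by decide +kernel)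
def b2421 : PP 8 4 T 0x1100000000000001014004014080000001000001000500540000000055508001500 := rS 0x1facb59ab97c3f531a9625b34d3c20c6438568645 (k8 b2260 b98 b230 b686 i2032 b488 b53 i1562 (k8 i1757 i1762 b308 b2420 i140 i337 i1912 i474 (k2 i1453 b76 (k1 b433 k0)))) (by decide +kernel)
def b2422 : PP 8 4 T 0x201100000000000000000000000010000000000000060000020020000001008000500 := rS 0x31d3acf1ba7c72f03c228f6138997144ad62b0d82e4368c4ec0d2a2ad4a292989cbe2b25884a26f1180486333eadcff0c0f8d59a592b93c3a95448085e855a815a645 (k8 b2260 b1893 b2258 b277 b64 b84 i788 i190 (k8 b2415 i2543 b719 i529 i866 b797 b125 b2388 (k8 b304 b141 b101 b34 i193 i21 i445 b1150 (k8 b1901 i528 i2544 i51 b2413 i904 b2380 i826 (k8 b1032 b2389 i1659 b2419 i1489 i791 i1003 i3018 (k8 b640 b346 b52 b75 b694 i2030 b2421 b22 (k8 b253 i1892 i531 i532 b325 i194 i1716 i1774 (k4 i1979 i1857 b4 b427 k0)))))))) (by decide +kernel)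
def b2423 : PP 8 4 T 0x201100000000000000000000000010000000000000040000020020000001008000500 := rS 0x2e4ee938b1956a75399bd1e7d3fc303ec91a9c43a95448085ed3 (k8 b1893 b84 i788 i190 b2415 i2543 b1907 b125 (k8 i1122 b2388 b304 b141 b34 i2597 b1901 b390 (k8 b426 b277 b2422 b339 b7 b21 b387 i2044 k0))) (by decide +kernel)
def b2424 : PP 8 4 T 0x1100000000000001014004014080000000000001000500540000000055508001500 := rS 0x85 (k2 b1520 b2421 k0) (by decide +kernel)
def b2425 : PP 8 4 T 0x1100000000000000000000000010000000000000040000020020000001008000500 := rS 0x13ac734b3c6e9f1cbc0f08a3d84e265c36a895aab5a990ecc518b0c1ac12a392224f528a4a6272f8ac9621289bc4601218cc047d5b9fe181d0f8d59a592b815a645 (k8 b2260 b1893 b2258 i529 i866 b797 b125 b2388 (k8 i2543 b304 b141 b101 b34 i788 i193 i21 (k8 i445 b1150 b1901 i528 i2544 i51 b2413 i904 (k8 b2380 i826 b1032 b2389 b719 b2423 b432 b345 (k8 b346 b28 b52 b273 b75 i791 i792 i2550 (k8 i1657 b694 i2030 i3018 b2424 b22 b253 i1892 (k8 i531 i532 b325 i194 i1716 i1774 i1979 i3083 (k2 b4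 i1551 (k1 b427 k0))))))))) (by decide +kernel)
def b2426 : PP 8 4 T 0x1000000000000000000000000080000000000000020000000000004400008000208 := rS 0x25112aa (k4 i201 i280 i1659 b2415 k0) (by decide +kernel)
def b2427 : PP 8 4 T 0x1001000000000000000000400410000040000000008400020001000054058000000 := rS 0x1fa0d5e5d0aadd030c27925a645 (k8 b2260 b1893 b2259 i1351 b304 b138 b101 b230 (k4 i531 i539 b1972 b1376 (k1 i2031 k0))) (by decide +kernel)
def b2428 : PP 8 4 T 0x201100000000000000002010000010000000000000060001020020000041008000200 := rS 0x30d0ef1a71acd211589b4b68a63a9c7a88309892477149bc4e8f078844601219f4ff0c0e87d9a592bbf50a755aab1669d6897c66021ab94600c24b4c8a05 (k8 b2258 b2260 b1893 b2259 i1266 i1491 b346 b125 (k8 i788 i193 i904 i653 b2311 i2912 i1265 b277 (k8 b426 b64 b291 i529 i866 b797 b2388 i2543 (k8 b304 b141 b34 i21 i445 b1150 i2544 b1677 (k8 i2597 b2380 b1901 b1032 i1547 b2121 i1550 i1282 (k8 i1510 i2867 i2065 i1694 b2427 i1884 i555 i1886 (k8 b461 i1887 i467 b191 b1498 b476 b135 b2372 k0))))))) (by decide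 +kernel)
def b2429 : PP 8 4 T 0x201100000000000000000000000110000000000000060000020020000041008000200 := rS 0x5423b9580a35c8bc1e21118048633011f4ff0c0e87c0ecb5ab4c8a05 (k8 b2258 b2260 b1893 b277 i1387 i3 b2388 i2543 (k8 b304 b141 b34 i788 i193 i21 i445 b1150 (k8 i2544 b1677 b84 i1027 b2426 i2030 b346 i1534 (k2 b2428 b1502 k0)))) (by decide +kernel)
def b2430 : PP 8 4 T 0x201100000000000000000000000110000000000000040000020020000041008000200 := rS 0x254e28951305727749c58cab53a9cc5e6f478844601218ccfa7f860743ec91a809a645 (k8 b2260 b1893 i788 b125 i1122 b2388 i2543 b304 (k8 b141 b34 i193 i21 i445 b1150 i2544 i2597 (k8 b1901 b84 b390 b426 b277 b2429 b339 b7 (k8 b21 b387 b2121 i2030 i280 b1907 b2415 i2044 k0)))) (by decide +kernel)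
def b2431 : PP 8 4 T 0x1100000000000000000000000010000000000000040000020020000001008000400 := rS 0x144b532304a8e488820b22f528ac4257118048633011f4ff0c0e87da645 (k8 b2260 b1893 b2388 i2543 b304 b141 b34 i788 (k8 i193 i21 i445 b1150 i529 i2544 b2413 b2389 (k8 b84 i866 b2425 b2430 b432 b345 b346 i792 (k2 i2550 i2030 (k1 b2426 k0))))) (by decide +kernel)
def b2432 : PP 8 4 T 0x101000000001000001045145010000000005550000000005000000115200008000009 := rS 0x462782237782c58b4fa2af93b16 (k8 b335 b313 i2047 b63 b83 i1527 i1299 b381 (k4 b374 b78 b1794 b172 (k1 b152 k0))) (by decide +kernel)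
def b2433 : PP 8 4 T 0x1000000000000010000000000008000040000001000000000000000000008000000 := rS 0x11b19 (k2 b3 i1036 (k1 b120 k0)) (by decide +kernel)
def b2434 : PP 8 4 T 0x101000000001000000045145010004000005550000000005000000115204008000009 := rS 0xd9e0c5662759f16 (k8 b335 b36 b313 b2432 i1791 b1453 b427 b374 k0) (by decide +kernel)
def b2435 : PP 8 4 T 0x101100000001000000441155014000000044150001000405560800004204008001109 := rS 0xb32dabcd412612c53e8342974720f54b453a9367c5862354b9800c05 (k8 b2258 i1001 i1000 i2820 b358 i1003 b335 b36 (k8 b7 b313 i653 i574 b1677 i195 i531 b1520 (k8 b1972 b2433 b893 b2434 i210 b473 i1921 i1963 (k2 i633 b1811 k0)))) (by decide +kernel)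
def b2436 : PP 8 4 T 0x101100000001000000041015000140000004150000000425520020004400008000500 := rS 0x2113c5c5fa6d5e83a204562b32da3514977eaed96bd4c9800c63a10b15a2700aacda9d49b3e2c310690c6a46278752a89011240ad3 (k8 b1893 b2258 b2259 i788 i190 b2415 i2543 b719 (k8 i867 b358 i21 i461 i1003 b335 b36 b7 (k8 b313 i669 i581 i445 b2380 b694 i2033 b428 (k8 i1238 i1001 i1000 i2675 b62 b79 b114 b137 (k8 i2820 b2435 i76 i1884 i553 i1885 b461 b172 (k8 b2132 i459 b351 b63 b1811 i2048 i610 b371 k0)))))) (by decide +kernel)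
def b2437 : PP 8 4 T 0x1000000001000000044800000004000000000000000000000800105000008000000 := rS 0x780d98b4f4eb3e2c35 (k8 b358 b335 b36 b313 b83 i2943 b427 b381 (k1 b374 k0)) (by decide +kernel)
def b2438 : PP 8 4 T 0x1000000001000000044145000004000005550000000000000800105004008000000 := rS 0x367831598bf4eb3e2c35 (k8 b358 b335 b36 b313 b2437 i2047 i1791 b1453 (k2 b427 b374 k0)) (by decide +kernel)
def b2439 : PP 8 4 T 0x1100000001000000040145020000000044150001000401560800004004008001108 := rS 0xb12dabd666a091a5848342a7cba3907b446205 (k8 b2258 i1003 i653 b1677 i195 i531 b2433 b1520 (k8 b1972 b2438 i1829 i210 b473 i1434 i1921 i1963 (k2 i1966 b1811 k0))) (by decide +kernel)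
def b2440 : PP 8 4 T 0x101100000001000000040001000150000004000000000025020020004040008000500 := rS 0x604b0b070f11e29d66af419a422378ca29fabd1faed5806600bc52531383ca27d5ba04ff0c3697d7277479bc3e9d8b0c41a43010d48c4f0e815a645 (k8 b2260 b1893 b2258 i2543 b719 i867 b358 i788 (k8 i21 i461 i1003 b335 b313 b2388 b1901 i2597 (k8 i2561 b1106 i904 i669 b304 b141 b138 b101 (k8 b34 i528 b1677 b2380 i826 b1032 b84 b2436 (k8 i1534 b2237 i2942 i2906 i2821 b405 b2439 b279 (k8 i1774 b461 i1887 b2132 i459 i1434 b221 i2031 (k4 b324 b357 i1878 i1877 (k2 i1000 i2820 k0)))))))) (by decide +kernel)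
def b2441 : PP 8 4 T 0x1000000001000000000002000140000000000000000000000000000000018000000 := rS 0x30686d3 (k4 b1893 b425 i1247 b428 k0) (by decide +kernel)
def b2442 : PP 8 4 T 0x1000000001000000040141000410000044000001008400060800005054058000208 := rS 0x3e6120d0ab24f97472d13eadd027f863f47ad3 (k8 b1893 i2867 b291 b304 b141 b138 b101 b34 (k8 i653 i195 i531 b2433 b2427 b1520 b1972 b2438 (k2 i1427 i2084 k0))) (by decide +kernel)
def b2443 : PP 8 4 T 0x1000000000000000000000140410000080000000000500540001000054058000208 := rS 0xe4243e5920d6e818616c92d3 (k8 b1893 b2259 i1884 b304 b138 b101 b1972 b1811 (k4 i2031 i1428 i2069 i1881 k0)) (by decide +kernel)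
def b2444 : PP 8 4 T 0x1100000000000000000000000010000000000000040000020020000000008000400 := rS 0x9f618e508132e2bd8ab1088dd143d27aed7aa73118684884ab045acb7e8216acf49a762cb91a8c4daab3b9181a5543b1cb0a388b94482f5290c52151397c561d4795d5253289bc3e3301015a645 (k8 b2260 b1893 b2258 i788 i193 b2388 b1901 i528 (k8 i826 i574 i529 i2597 i2543 b2413 i904 b2380 (k8 b230 b1032 i21 b2389 b84 b2431 b298 b320 (k8 i324 b2334 i410 i927 i2549 i461 i867 i2561 (k8 i581 i669 i1003 b358 b1106 b335 b313 b7 (k8 b36 b2441 b2440 b291 i1387 b2283 i1266 b1332 (k8 i2033 b428 i1278 i191 i2065 b62 b114 i790 (k8 i2867 b2442 i1774 b461 i1886 b481 b1334 b2443 (k4 b253 i610 i194 i210 (k2 b371 b1794 k0)))))))))) (by decide +kernel)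
def b2445 : PP 8 4 T 0x1000000000000000000000009010000410050014000000000000005001508000500 := rS 0x1de20e5498306ad3 (k8 b1893 b125 b573 i1636 b28 b432 b640 b2414 k0) (by decide +kernel)
def b2446 : PP 8 4 T 0x101000000000000000054004040005000400000400000500540002115054008000108 := rS 0x3767844f2b0893c42a45 (k8 b2260 b230 b324 b325 b2416 b414 i1762 b1168 (k2 i1005 b427 k0)) (by decide +kernel)
def b2447 : PP 8 4 T 0x1000000000000000000010444010014000400000040000020021000200008000400 := rS 0x299fa3f318a44e5f1580952535ba06181d0fb24cacb82015a645 (k8 b2260 b1893 b2258 b2444 b145 b9 b288 b2388 (k8 i2543 b304 b138 b101 i826 i574 i788 b2413 (k8 i904 b2380 b1032 i1238 b2312 b165 i2031 b221 k0))) (by decide +kernel)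
def b2448 : PP 8 4 T 0x400000000000000001000000000000000005050444010004010400000040000020021010000008000400 := rS 0xa71fa652ea28a0b4e6a5149bc4e5f158cd6e818607c6265821c43a95010bda645 (k8 b2260 b1893 b84 i788 b2415 i2543 b1907 b2444 (k8 b9 i1002 b2388 b304 b138 b101 i193 b2413 (k8 i904 b2380 b1901 b1032 b2389 b390 b2447 b352 (k4 i2033 b364 b133 i407 (k2 b817 i2031 k0))))) (by decide +kernel)
def b2449 : PP 8 4 T 0x1000000000000000000000000010000040000000040000020020000001008000500 := rS 0x884d60c6788f15eb35dd3d7ecc41a153e9d2e8e4521513b44be2b5b91d9635a1b05260d61b15c8b93bad0af11559c45e891899466021180486a910a3cfe5527966087d86074a26f0f94da645 (k8 b2260 b1893 i826 b2388 b1901 i528 i2543 b304 (k8 b34 b2444 b43 b719 b30 b141 i2597 i2544 (k8 i574 i21 i445 b1150 i788 i193 b9 i1002 (k8 i190 b84 b1907 b2445 b705 i529 b2407 i807 (k8 b1106 b432 b75 b52 b28 i1369 i1247 b425 (k8 b125 b145 b383 b101 b2413 i904 i653 b2380 (k8 b230 b1032 i195 i531 b510 b626 b1520 b1972 (k8 b813 i1455 b329 i1948 b1839 b1563 b2448 b324 (k4 b2446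 b2416 i218 i1762 (k1 b439 k0)))))))))) (by decide +kernel)
def b2450 : PP 8 4 T 0x1000000000000000000000000010000000000000040000020020000001008000500 := rS 0x31812c3c582cd7e835dd3d5e5d660490a113696d14b962b0c1a7749b0686e45a445567127a245e290a97c568f07884aea929944de230090c667d5b9fe181d0f9acaa472c9a5963132c10043522925a605 (k8 b2258 b1893 b2259 b2260 b125 i788 b2444 b9 (k8 i1002 b145 b140 b43 b383 b30 b353 b2388 (k8 i2543 b304 b141 b101 b34 i193 i21 i445 (k8 b1150 b1901 i528 i826 i574 i529 i2544 b1677 (k8 i2597 b2413 i904 b230 b1032 b84 i190 b719 (k8 b1907 b2445 b705 b2407 b432 b425 i1247 i1369 (k8 i807 b28 b52 b75 b1106 b2449 i1884 i555 (k8 b461 b2082 b536 b1749 b253 i1921 b329 i1948 (k8 b1972 i1455 b1839 b1811 b2448 i1885 i1886 i1802 (k1 i2820 k0)))))))))) (by decide +kernel)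
def b2451 : PP 8 4 T 0x1000000000000000001002000140000410000004000000000000015500018000008 := rS 0x170774a9c62293 (k4 i1369 b277 b1907 b2415 (k2 i807 i2033 (k1 b1106 k0))) (by decide +kernel)
def b2452 : PP 8 4 T 0x1200000000000000014000000410000000000000000104060021000041008001000 := rS 0xf1898f906cc428a44e5f1088c02435ba06181d0f955a645 (k8 b2260 b1893 b30 b2388 i2543 b304 b138 b101 (k8 i21 i445 b1150 i2544 i904 b2380 b1032 b1520 (k4 b813 b1972 i2031 b815 (k2 b119 b325 k0)))) (by decide +kernel)
def b2453 : PP 8 4 T 0x1000000000000000000000000010000000000000040000020020000001008000400 := rS 0x3c6265c1e93d4e6230a218ac306b9168c1518b4103517a94526f1397c568f1095c4601218ccfa7f860743e47568c4cb0401015a645 (k8 b2260 b1893 b2258 i788 b2444 b9 i1002 b118 (k8 b383 b2388 i2543 b304 b141 b34 i193 i21 (k8 i445 b1150 i529 i2544 i2597 b2413 i904 b2380 (k8 b1901 b1032 b2389 b84 b125 b2450 b2283 i200 (k8 i1265 i2030 b2441 b28 b52 b75 b2451 i1278 (k8 i191 i2065 i790 i2867 b2452 b22 b1115 b325 k0)))))) (by decide +kernel)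
def b2454 : PP 8 4 T 0x1200000000000000000001000050000000000000000004000020000000018000500 := rS 0x1dfaaa3ec303ed3 (k8 b1893 b2388 b304 b34 b2407 b359 i458 b431 k0) (by decide +kernel)
def b2455 : PP 8 4 T 0x1000000000000000000000000010000000000000040000020020000000008000400 := rS 0x224e063272ae84c1042d546e51232d5a592ac10fe7d86144ae020e8bd4a533787c92d3 (k8 b1893 b2259 b2388 b1901 i826 b2389 b84 i2543 (k8 i788 i529 i528 b304 b34 b141 b2444 b30 (k8 b43 b118 b145 b2453 b298 i324 b2441 b2454 (k8 i1265 b428 b104 i2037 i1351 i789 i191 b1907 k0)))) (by decide +kernel)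
def b2456 : PP 8 4 T 0x201100000001000000000000001090000400050404051000000000014000018004000 := rS 0x15515062508e3038a25262f (k8 b84 i1634 i280 b1907 b2414 i1531 i1651 b341 (k2 b435 i1647 (k1 b818 k0))) (by decide +kernel)
def b2457 : PP 8 4 T 0x1100000001000000000001001110000000000000051000000000004001158004000 := rS 0xc19117492e580a33b9bd1e353e9fe18758808c0ad3 (k8 b1893 b2258 b1888 b432 b1582 b304 b141 b34 (k8 b125 b349 b1901 b640 b2456 i2030 i1250 b2121 (k4 b7 b339 b335 i983 k0))) (by decide +kernel)
def b2458 : PP 8 4 T 0x1000000000000001844004000080000005000000000100540820000041508001102 := rS 0x15eb11e1ac20c4368541ef11397c5245 (k8 b2260 b1032 i904 b2380 b1720 i338 b230 i1695 (k4 i2032 b489 i1790 i1654 (k2 i1762 i625 (k1 b2416 k0)))) (by decide +kernel)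
def b2459 : PP 8 4 T 0x1100000000000001804000010090000005000000000100000820000041118001502 := rS 0x538fc7abc09045626c34b158c29298544e2328add030c0faad064f2fb4c0a45 (k8 b2260 b2258 b1893 i904 b719 b1972 b573 b2388 (k8 b304 b138 b101 b32 b1888 b2380 b230 i826 (k8 b1032 b2458 i141 i1562 b2424 i1394 i2289 i1696 (k4 i674 i1801 b603 i1984 (k1 i2031 k0))))) (by decide +kernel)
def b2460 : PP 8 4 T 0x1100000000000000a08000001080004040000000005000000820000005008001100 := rS 0x166d157a3562bf369a82469639641f43 (k8 b98 i338 i866 i117 i1829 i210 b473 i1695 (k4 i1719 i1394 i1129 i1921 (k2 b451 i634 (k1 b1230 k0)))) (by decide +kernel)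
def b2461 : PP 8 4 T 0x1100000000000001804000010090000001000000000101000820000041118001502 := rS 0x10e5f (k2 i904 b646 (k1 b2459 k0)) (by decide +kernel)
def b2462 : PP 8 4 T 0x1100000000000001200001010090000041000000005005000820000041108001502 := rS 0xba432b9e06936acd628d89b44b8c3650a4a6272f964464f289f5027f86075521f55d0d262f24b4c0a45 (k8 b2260 b2258 b1893 b2259 b84 i1634 b98 b573 (k8 b2388 b2396 b2408 b304 b141 b138 b34 b32 (k8 b719 b1888 i866 i904 b2380 i826 b1032 i2037 (k8 b2460 b2461 b306 b22 i1846 i1847 i513 i515 (k4 i1850 b325 b1230 b1720 (k2 i626 i1683 k0)))))) (by decide +kernel)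
def b2463 : PP 8 4 T 0x1100000000000001204004010080000041000000040102540020008041108000502 := rS 0x314da9d688a44e5f2c88e2eab06915a605 (k8 b2258 b1893 b2260 i1609 b573 b80 b1888 i866 (k8 i904 b2380 b1032 b681 b510 i671 i1615 b2424 k0)) (by decide +kernel)
def b2464 : PP 8 4 T 0x1100000000000000208000000000000040000000000000000020008005008001000 := rS 0x8cb451a38351a4b20f (k8 i338 i866 i1829 b473 i290 i1129 b451 b107 (k1 b120 k0)) (by decide +kernel)
def b2465 : PP 8 4 T 0x1100000001000000001001000010000000000000040000000020000001008000500 := rS 0x2ee9ebf5ed150cc7573c0d2b358a36266d2e344a893a1a895a532c93cfab7409fcc6518615d9a85882ac8cc36445c1a320eaa45e210000cca2307984946f0fa95164d1489cbe2b24915a605 (k8 b2258 b1893 b2260 b2259 b2413 i904 b2380 b1032 (k8 b2455 b480 b2389 b2388 b1901 b348 i1047 i338 (k8 b1888 b2393 b44 b317 b1684 b84 b2396 b2408 (k8 b2457 i1609 b80 b339 b2464 b341 b573 b432 (k8 b64 b370 b11 b304 b32 i487 b141 b138 (k8 b101 b34 b719 i866 i826 b694 i2030 b98 (k8 i1634 b2462 b681 b2463 i671 b22 i1846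 i1847 (k8 i513 i1849 b325 b1230 b4 b1720 b410 i1987 (k4 i1719 b111 i1683 b409 k0))))))))) (by decide +kernel)
def b2466 : PP 8 4 T 0x1100000001000000000001000010000000000000040000000020000001008000500 := rS 0x7ec5558926003464a510994460f31946181d548bc0003309bc3e4a26925a605 (k8 b2258 b1893 b2259 b2455 b348 b2388 b1901 i1047 (k8 b44 b317 b84 b2396 b2408 b304 b32 i487 (k8 i338 b1888 b2393 b1684 b2389 b2457 i1609 b2465 (k4 i1613 b2237 b71 b405 (k1 b342 k0))))) (by decide +kernel)
def b2467 : PP 8 4 T 0x1000000002000001800000000000000001000002000005000420000041508000000 := rS 0x2269358a4be59078358645 (k8 b2260 b52 b28 i338 i866 i904 b1032 i147 (k2 i40 i2289 (k1 b1749 k0))) (by decide +kernel)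
def b2468 : PP 8 4 T 0x1100000000000000000001000010000000000000040005000020000001008000500 := rS 0x5d2195cf034acd628d89b44b86d23b20ea8566b2a20531397c568b149649eb74098ca2c318b155aab06d0d26a260b90fa213283cff0c0eaa40003309289a6f0f88d4a2f24815a645 (k8 b2260 b1893 b2258 b2259 b84 b2389 b1888 b2388 (k8 b1901 b2455 b348 i1047 b44 b317 b2396 b2408 (k8 b304 b141 i338 b2393 b1684 b34 b2466 b346 (k8 i2030 i1634 b98 b28 b573 b694 b75 b273 (k8 b52 b32 i487 b138 b101 b719 i866 b1032 (k8 b480 b2413 i904 b2380 i826 b345 i2037 b370 (k8 b64 b426 b2395 b2462 b2467 b2424 b306 b22 (k8 i1846 i1847 i513 i1850 b325 b1230 b1720 i626 (k1 i1683 k0))))))))) (by decide +kernel)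
def b2469 : PP 8 4 T 0x1100000000000000000001015000014400000000055008000000000000008000000 := rS 0x2e596c9 (k4 i504 i506 b737 i2040 k0) (by decide +kernel)
def b2470 : PP 8 4 T 0x201100000002000000200004001080004040140000055002500020004041008000502 := rS 0x2ee9ebf5ed150cce63ab9e06959ac51a1389970da9d68a159a291397cb2231083c9e1d61b155ac155836871724915a605 (k8 b2258 b1893 b2260 b2259 b336 b98 b28 b573 (k8 b346 b694 b75 b52 b2408 b719 i338 b1684 (k8 b1888 i866 i904 b2380 b1032 b370 b64 b681 (k8 b510 i671 b2424 b22 b253 i1846 i1847 i513 (k8 i1849 b325 b1230 b4 b1113 b1720 b410 i1987 (k4 i1719 b412 i1683 b409 k0)))))) (by decide +kernel)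
def b2471 : PP 8 4 T 0x1100000000000000214004010080000000000800000102550020000041008001500 := rS 0xcd369eda2851397d16292c884ca230000c1eab8b915a605 (k8 b2258 b1893 b2260 b336 b573 i338 b44 b317 (k8 b1888 b2393 b1684 i866 b1032 b480 i904 b2380 (k4 b1520 b681 b637 i671 (k2 i809 b2424 k0)))) (by decide +kernel)
def b2472 : PP 8 4 T 0x1100000000000000000001000010000000000000040000000020004001008000500 := rS 0x15cbba7afcd2866731d0af04e9b566b166a34271368970ed11641d4a8574a9c512531397c568b14a3c9eb74098ca2c318b155aab06d0d26a260b90fa213283cff0c0eaa40003309289a6f0f88d4a2f24815a645 (k8 b2260 b1893 b2258 b2259 b84 b2389 b1888 b2388 (k8 b1901 b2455 b348 i1047 b44 b317 b2396 b2408 (k8 b304 b141 i338 b2393 b1684 b34 b2466 b346 (k8 i2030 i1634 b98 b28 b573 b694 b75 b273 (k8 b52 b32 i487 b138 b101 b719 b349 b1032 (k8 b480 b2413 i904 b2380 i826 i280 b1907 b2086 (k8 b2469 b2468 i1539 b2395 b2470 b1975 b2471 b306 (k8 b22 b253 i1846 i1971 i1847 i513 i515 b510 (k8 b325 i1631 b4 b1113 b1720 i1849 i1719 b412 (k2 i1683 b1230 (k1 b1563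 k0))))))))))) (by decide +kernel)
def b2473 : PP 8 4 T 0x201100000000000000204004011080004040140000045002500020008041108001502 := rS 0x176bfa7af68a86639a95cf034acd628d899b4b8d142b3452272f964464f0eaae871724915a605 (k8 b2258 b1893 b2260 b2259 b80 b98 b573 b2408 (k8 b719 b1888 i866 i904 b2380 b1032 b370 b64 (k8 b681 b2463 i671 b22 i1846 i1847 i513 i1849 (k8 b325 b1230 b1498 b4 b1720 b410 i1987 b88 (k2 i1719 i1683 (k1 b409 k0)))))) (by decide +kernel)
def b2474 : PP 8 4 T 0x1100000000000000000001000010000000000000040000000020000001008000500 := rS 0xae5dd3d7e694331d0af04e9b566b166a3626d12e1da22542bb222e3249d0d56a256b15860d60b914a531397c568b14a3c42651183c9e7d5ba04fe6328c303aa91780006613787c944d24b4c0a45 (k8 b2260 b2258 b1893 b2259 b2455 b348 b2388 b1901 (k8 i1047 b44 b317 b84 b2396 b2408 b304 b32 (k8 i487 b141 b138 b101 b34 b719 i338 b1888 (k8 b2393 b1684 b349 b1032 b480 b2413 i904 b2380 (k8 i826 b2389 b2466 b346 b28 b52 b75 b694 (k8 i2030 b573 b98 i1634 b2472 b80 b339 i504 (k8 b2468 b2473 b934 b2471 b306 b22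 i1846 i1971 (k8 i1847 i513 i515 b510 b325 i1631 b4 b1720 (k4 i1849 i1719 b111 i1683 (k2 b1230 b1563 k0)))))))))) (by decide +kernel)
def b2475 : PP 8 4 T 0x1100000000000000000000000010000000000000040000000020000001008000500 := rS 0x146074425066ab65b248e0d2b390aa3156d0e22b4319449f0c0eaa45e4330928de1f47964426511800064d07b4c0a49 (k8 b2259 b2258 b1893 i338 b2455 b44 b317 b1888 (k8 b2393 b1684 i866 b349 b2388 b1901 b348 i1047 (k8 i21 b84 b2396 b2408 b304 b719 b32 i487 (k8 b2474 b277 b425 i1288 b778 i767 b432 b345 (k8 b28 b882 i504 i505 b573 b538 b745 b2086 (k2 i1340 i280 (k1 b2214 k0))))))) (by decide +kernel)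
def b2476 : PP 8 4 T 0x1100000001000000002001000010000000050004050000000000000101118000200 := rS 0x49458eec919831728f1a9d44605 (k8 b2258 b1888 b1582 b125 b349 i1250 i1266 i1614 (k4 i464 b640 b339 b2121 (k1 b7 k0))) (by decide +kernel)
def b2477 : PP 8 4 T 0x1100000001000000000001000110000000000000040000010000000101158000200 := rS 0x898aa5550c818aa88ca2609d45e6f3288d967d3fc31a605 (k8 b2258 b1893 b304 b141 b34 i1387 b1888 b2393 (k8 b1901 b84 b1582 b2476 i2030 i200 i201 i1531 (k4 b2395 i583 i1101 b305 (k2 i281 b352 k0)))) (by decide +kernel)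
def b2478 : PP 8 4 T 0x1100000000000000000001000110000000000000040010010000000101158000200 := rS 0x2262a9554320eb102a95d5446510c582e41788d967d3fc31a605 (k8 b2258 b1893 b304 b141 b34 i1387 b1888 b84 (k8 b2477 b346 b273 i2030 i200 i201 i1577 i1657 (k8 b345 b426 b2395 i583 i1101 b305 i281 b352 k0))) (by decide +kernel)
def b2479 : PP 8 4 T 0x1000000000000000001010000140004010000000000000000000015500008000000 := rS 0x95 (k2 b2022 i2033 k0) (by decide +kernel)
def b2480 : PP 8 4 T 0x1000000002000004000000000001000040000000010200000000004054008000000 := rS 0x7804e26d1 (k4 b306 b22 b253 b325 (k1 b1113 k0)) (by decide +kernel)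
def b2481 : PP 8 4 T 0x1000000000000001014000000000000005000000000000000400000055508010000 := rS 0x12633c42a45 (k4 b2260 b230 b1720 i2032 (k2 b439 i218 k0)) (by decide +kernel)
def b2482 : PP 8 4 T 0x1100000000000000000000000010000000000000040000000020000001008000400 := rS 0x1fa9d5ebf41acd76cc1e844d887359759e9d19c590ac923b15860d2b2a9c85556d0e22b440ade181d16b2dfa081099446a5219bc3e151397c568b14928000326a3cb20f698149245 (k8 b2260 b2259 b2258 b1893 i338 i866 b349 b2455 (k8 b44 b317 b348 b1032 b480 b2413 i904 b2380 (k8 b230 b2388 b1901 i21 b2389 b1888 b2393 b1684 (k8 b2475 b291 i1387 b2283 i1262 b304 b101 b138 (k8 b2478 b277 b425 i1288 i768 b432 b433 b345 (k8 b28 b52 b75 b882 i504 b931 b339 b538 (k8 b313 b36 b2480 i507 b646 b2158 i475 i1268 (k8 b2481 i1948 i666 b1319 i1455 i594 i203 b1376 (k1 i2031 k0))))))))) (by decide +kernel)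
def b2483 : PP 8 4 T 0x201000000000000000000001000010000000000000040000000020000001008000500 := rS 0x60334a9c4191444a8954fd2b94d1e5911b2442558213cfa7f31946181d548bc0003309bc3e4a26b4c0a49 (k8 b2259 b2258 b1893 b2455 b348 b2388 b1901 i1047 (k8 b44 b317 b84 b2396 b2408 b304 b32 i487 (k8 b141 b34 b719 b2482 b30 i743 b288 b571 (k8 i866 b349 i826 b11 b1758 b705 b2454 b169 (k4 b342 b573 b1907 b435 (k2 i1609 b2445 (k1 i1651 k0))))))) (by decide +kernel)
def b2484 : PP 8 4 T 0x1000000000000000000001000010000000000000040000000020000001008000500 := rS 0x4a22572333b95926ab510c41ac172444c67f3e946181d548bd4a0001984944d3787d1ecb11b24425582125a605 (k8 b2258 b1893 b2259 b2482 b30 i743 b288 b571 (k8 b145 b349 b2388 b1901 b2455 b348 i1047 b44 (k8 b317 b2389 b84 b2396 b2408 b304 b32 b34 (k8 b141 i487 b2483 b432 b346 b28 b273 i2030 (k8 b573 i1634 b2407 i1627 b1110 b1106 i280 b2143 (k1 b2086 k0)))))) (by decide +kernel)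
def b2485 : PP 8 4 T 0x1000000000000000000001000010000000000000040000000020000001008000400 := rS 0x1f4fec151874a2fd0429486530f91d5a2364884ab04 (k8 b2482 b30 i743 b288 b571 b118 b383 b2388 (k8 i826 i21 b2389 b2484 b291 i1309 i1262 i200 (k4 i1265 b1503 b1427 i2030 k0))) (by decide +kernel)
def b2486 : PP 8 4 T 0x1000000000000000501002010140000400000004055000000400000400018005500 := rS 0x2e0ee9538a240d1149aa556d3 (k8 b1893 b573 b2396 i1369 b277 i2027 i1340 b1907 (k4 b2022 i807 i2040 b1106 k0)) (by decide +kernel)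
def b2487 : PP 8 4 T 0x1000000000000000500002015000000410000004055000000000001400018000000 := rS 0x170774a9c62293 (k4 i1369 b277 b1907 b2086 (k2 i807 i2040 (k1 b1106 k0))) (by decide +kernel)
def b2488 : PP 8 4 T 0x1000000000000000501002010100000400000004055000000420001400008005502 := rS 0x1dc64b9442883aab5488e22d3 (k8 b1893 b277 b571 b2396 b573 b2408 b2486 b2487 (k4 i1403 i280 i808 b1110 k0)) (by decide +kernel)
def b2489 : PP 8 4 T 0x1000000000000000000000000000000060000000000000000002000000008000204 := rS 0x11946b452c10 (k4 i1268 i1346 b309 i1760 (k2 b26 b120 k0)) (by decide +kernel)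
def b2490 : PP 8 4 T 0x1200000002000000000000000000000000000000000204000000000054008000000 := rS 0x1e313 (k2 b22 b1115 (k1 b325 k0)) (by decide +kernel)
def b2491 : PP 8 4 T 0x400000000000000001000000000000000000042004010000000100000000500000005000054058000200 := rS 0xaf532fd06b3a1ade18d3 (k8 b1893 b304 b101 b425 i1427 b1319 i1455 i2031 (k2 b1563 i203 k0)) (by decide +kernel)
def b2492 : PP 8 4 T 0x1000000000000001000002004010000005000000000000000401000055558000200 := rS 0x15e3e41acd76a7a7c4820c678afc2b4340b0d8ae488bf40ea35bc31a645 (k8 b2260 b1893 b304 b101 i200 i3 b291 b277 (k8 b432 b75 b52 i1402 b425 b230 i1456 b1720 (k8 i2032 b2481 b325 b53 i2077 i1679 i473 b33 (k2 i2031 b1563 (k1 b1376 k0))))) (by decide +kernel)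
def b2493 : PP 8 4 T 0x1000000000000000000002004010000001000000000501000401000055558000200 := rS 0x89bc54e3e5dd3d988740ade18d3 (k8 b1893 b304 b101 i1402 b646 b2492 b329 i1948 (k4 b2491 i140 b119 b815 (k1 b325 k0))) (by decide +kernel)
def b2494 : PP 8 4 T 0x1200000000000000000002004010000061000000000400000001000055558000200 := rS 0x2087eaf433c14ecd89b44b86b2a91dc911 (k8 b277 b432 b383 b30 b353 b2493 b306 b22 (k8 i1970 b2351 b325 b2492 b1095 b119 i933 b1108 k0)) (by decide +kernel)
def b2495 : PP 8 4 T 0x101200000000000001000000000000000045000400040000000000000055508000004 := rS 0x338f26d46b46241078a3cca4706b0d8ae4 (k8 b432 b75 b52 b28 b383 b9 b349 b1720 (k8 b2481 b325 b309 i1760 i475 b414 b1169 b1168 k0)) (by decide +kernel)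
def b2496 : PP 8 4 T 0x1000000000000000000000440010000000500000000000000001000054058000200 := rS 0x1fa9c2afd5bc31a645 (k8 b2260 b1893 b304 b101 b291 b230 i203 b1376 (k1 i2031 k0)) (by decide +kernel)
def b2497 : PP 8 4 T 0x1200000000000000000002008010000041000400040500000001000055558000204 := rS 0x17b45572fd06b35dd3d988735956234340ade18d3 (k8 b1893 b304 b101 i1402 b425 b277 b30 b353 (k8 b646 b2495 b329 i1948 i666 b1319 i1455 b2496 (k2 b410 i1986 (k1 b409 k0)))) (by decide +kernel)
def b2498 : PP 8 4 T 0x1000000000000000000000000010000000000000040000000020000001008000400 := rS 0x3ac5d0cf08c27d9a8d89b44b8aa1ea2172333ba8c3a2d7e8201a637224c62c128c4568214288d96695691caa6b32b26080f1aa3c5ea52189cbe2b458a40003309289a6f0f9240a45 (k8 b2260 b2258 b2259 b2388 b1901 b2455 b348 i1047 (k8 b44 b317 b1032 b480 b2413 i904 b2380 i21 (k8 b2389 b84 b349 b125 i338 b2482 b288 b9 (k8 b353 b30 b383 b118 b140 b145 b571 b932 (k8 i743 b2485 b277 i1397 i1248 b778 i1369 b432 (k8 i487 b28 b2488 b291 b2283 i1262 i200 b1104 (k8 b1110 b1106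 b2479 b2489 b2494 b2497 b306 b22 (k8 i1846 i1970 b626 b120 b325 b2495 b989 i1707 (k1 b2207 k0))))))))) (by decide +kernel)
def b2499 : PP 8 4 T 0x800000000000001100000000000000000001011000004400000000055008000000000000008000000 := rS 0x15695 (k2 b424 b104 (k1 b2469 k0)) (by decide +kernel)
def b2500 : PP 8 4 T 0x101100000001000000000001000140000000000000055000008020000400508000502 := rS 0x9555b0286938b23cacad6495466590610d52d3 (k8 b1893 b2396 i21 b1316 i461 i1609 i1489 b1523 (k8 i1494 b345 b333 b339 b7 b2499 b428 i1514 (k2 i1518 b2469 k0))) (by decide +kernel)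
def b2501 : PP 8 4 T 0x1000000001000000501010011140000000000000055000000000014000008000000 := rS 0xc62e9255a5684d3 (k8 b1893 b428 b424 b104 i2040 b7 i1509 b335 k0) (by decide +kernel)
def b2502 : PP 8 4 T 0x1000000000000000000001000010000000000000040000000020000000008000500 := rS 0x758ba492aab602e466771aa3caccb56b2608633e946181d548bd4a00309bc3ee510c4446a332890940326b4c9205 (k8 b2258 b2259 b1893 b2455 b44 b348 b2498 b180 (k8 i324 i47 b320 i12 b298 b2388 b1901 i1047 (k8 b317 b2389 b84 b2396 b2408 b304 b32 b34 (k8 i487 b2500 b288 b118 b145 b2454 i1132 i1114 (k8 i1627 i287 b1106 b2501 i1514 i1518 i2040 b7 (k2 i1589 b294 k0)))))) (by decide +kernel)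
def b2503 : PP 8 4 T 0x1000001001000001041141000510000005040000000000000001000054058000000 := rS 0x61b169e3e5f20e247d5ba0618d3 (k8 b1893 b304 b138 b101 b34 b325 b33 i2047 (k4 i2031 b83 i1527 i375 (k1 b381 k0))) (by decide +kernel)
def b2504 : PP 8 4 T 0x1000000001000001041141040110000005040000000400000001000054058000200 := rS 0x410fde0a75ba0618d3 (k8 b1893 b304 b138 b101 i203 b2503 b119 i2031 (k1 b1108 k0)) (by decide +kernel)
def b2505 : PP 8 4 T 0x1100000001000001041141004110000005040000500500000001000054058000200 := rS 0x2fa9c8336acd5c7d5ba0618d3 (k8 b1893 b304 b138 b101 b34 b2504 i146 i593 (k4 b1319 b308 i2047 b83 k0)) (by decide +kernel)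
def b2506 : PP 8 4 T 0x1100000001000000040141004110000005040000000508000001000054058000200 := rS 0x186f11f29d5e6c41d3d986b5ba04d2c1569f618d3 (k8 b1893 b304 b34 i1581 i1265 i1583 b138 b101 (k8 i507 b2505 b329 i894 b308 i593 i203 i2031 (k2 b119 i375 (k1 b1453 k0)))) (by decide +kernel)
def b2507 : PP 8 4 T 0x1100000000000000000001000110000040000000040000008020000042008000204 := rS 0xfd06a736acda25c1ea222abb55af55142609a59ead42c59723547959925519964182f148544e5f00185ca218888cfea363a1ccafd28b2c5a6f319f56e8186074861f24b4c0a45 (k8 b2260 b2258 b1893 b2259 b2388 i21 i1262 b304 (k8 b138 b101 b34 i1349 b1901 b2283 i1387 i1309 (k8 b291 b180 i927 i410 i324 i842 i47 b320 (k8 i12 b298 i1047 b317 i904 b2380 b230 b1032 (k8 b84 b1316 i461 i1609 i1489 b1523 b345 b333 (k8 i1114 b737 b339 b911 i1581 b36 i1583 i1265 (k8 b428 b2501 b62 b104 b114 b305 b352 b2489 (k8 b2506 b306 i513 i516 b2351 b2130 b1308 i2031 k0)))))))) (by decide +kernel)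
def b2508 : PP 8 4 T 0x101000000001000000100000000000000044000000550200000000010010008002000 := rS 0x3099a6d46c4da249 (k8 b2259 b306 b22 i1846 i516 i1970 b1536 b1439 k0) (by decide +kernel)
def b2509 : PP 8 4 T 0x101201000000000000000014084000000460000400055100000021000440008000000 := rS 0x4d0fda0cf3cc491a6d2d8a4be45 (k8 b2260 i904 b1032 i1922 i593 i1925 b330 b414 (k4 b1168 b1169 b2383 i592 (k1 i1443 k0))) (by decide +kernel)
def b2510 : PP 8 4 T 0x1000000001000000041141040110000005040000000400000001000054058000200 := rS 0x186f11f20d98a75ba0618d3 (k8 b1893 b304 b138 b101 i203 b2504 i894 i2031 (k2 b119 i375 (k1 b1453 k0))) (by decide +kernel)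
def b2511 : PP 8 4 T 0x1000000000000000000001000010000000000000040000000020000000008000400 := rS 0x3c01b132e2b87a888aaed56bd54509727719b050a35479a55a4735b241f045bc30c61d16b2dfa0817a9486151397d162900184de1f72c44fea363a1c566512128064d699240a45 (k8 b2260 b2258 b2259 b1893 b2455 b44 b348 b2498 (k8 b180 b2413 i927 i410 i324 i842 b320 b298 (k8 b2388 b1901 i1047 b317 b1032 b480 i904 b2380 (k8 b230 i21 b2389 b84 b2502 b291 i1387 b2283 (k8 i1262 i1349 b304 b101 b2507 b283 b288 b353 (k8 b383 b118 b140 i1132 i1114 b911 i1265 i287 (k8 i804 b644 b428 b2501 b62 b104 b114 b305 (k8 b352 b2489 b2510 b2509 b22 b2508 b325 b1433 k0)))))))) (by decide +kernel)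
def b2512 : PP 8 4 T 0x1000000000000000000000000010000000000000040000000020000000008000400 := rS 0xa81607168a372890c2002500c9a6f0fa940a49 (k8 b2259 b2258 b2389 b2388 b1901 b2455 b44 b348 (k8 b317 i1047 b2498 b298 i324 b2511 b2441 b99 (k2 b2408 i975 k0))) (by decide +kernel)
def b2513 : PP 8 4 T 0x1000000000000010000000041484040150000000005000000000002400008020000 := rS 0x132b3163f07f1563a5136d3 (k8 b1893 b983 i1651 i1691 b435 i406 b342 b352 (k2 i474 i981 (k1 b942 k0))) (by decide +kernel)
def b2514 : PP 8 4 T 0x1100000001000000000001001110000000000000051000020000000001158000000 := rS 0x1983c4605 (k4 b2258 b1888 b1677 b1627 (k1 b2457 k0)) (by decide +kernel)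
def b2515 : PP 8 4 T 0x1000000000000000000000001090000050000000001000000010002080008000000 := rS 0x235a2970804d4e9f3d8e49842160bd5efc8aa50c60001815a645 (k8 b2260 b1893 b2258 b354 b317 i448 i1651 b435 (k8 b342 b76 b84 b352 b272 b143 b271 b379 (k8 b197 i332 i212 i897 i1244 i654 i965 b2513 k0))) (by decide +kernel)
def b2516 : PP 8 4 T 0x1100000000000000000000000000000008000001000010000010000000008000000 := rS 0x692a97498420000c0a45 (k8 b2260 b2258 b354 b317 b272 b143 i2259 b310 (k2 i1563 b1631 k0)) (by decide +kernel)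
def b2517 : PP 8 4 T 0x1000000000000000000000001090000010000000001000000010002080008000000 := rS 0x8a1c8000605 (k4 b2258 b354 b317 b271 (k2 b2515 i452 k0)) (by decide +kernel)
def b2518 : PP 8 4 T 0x1100000000000001000000000000000001000000020810000010000041008000000 := rS 0x30c4e292e92c462107930840d439b460460000c8a05 (k8 b2258 b2260 b354 b317 i963 i962 i3013 b2516 (k8 i1492 b272 b143 b1677 b1867 b1888 b436 i2259 (k4 b1296 b1725 b1673 b1690 k0))) (by decide +kernel)
def b2519 : PP 8 4 T 0x1000000000000001000004100000000041100154021400000010000000008000000 := rS 0x7a4c25d3e8f679dcaa9d368c08cd14193cf3122e93000032d9088a05 (k8 b2258 b2260 b272 b81 b354 b317 b143 i2259 (k8 b330 b414 b91 b1972 i653 i963 i962 i3013 (k8 i2941 b310 i1547 i2636 b69 b2433 b984 b2340 (k2 b698 i1940 k0)))) (by decide +kernel)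
def b2520 : PP 8 4 T 0x1100000000000001000004001090000001100104021010400010000001018000000 := rS 0x22964832f8ad5eb17e454e2634a224e62f2d93ca25d2610866300000c0a45 (k8 b2260 b2258 b354 b317 i962 i1546 b272 b143 (k8 i2259 b238 b91 b81 b84 b390 i280 i1651 (k8 i448 b1907 b435 b342 b382 b76 b2517 b2518 (k4 b1972 b1811 b2519 i2265 k0)))) (by decide +kernel)
def b2521 : PP 8 4 T 0x1100000001000000000011001110000000000000041000000010000001058000000 := rS 0x2215892033014677181181a643fa04a6b7861551e6f1083c0003261d59a59429f620232134c8a05 (k8 b2258 b2260 b1893 b272 b1888 b1863 b65 b64 (k8 b361 b370 b1582 b143 b354 b317 b1677 b1867 (k8 b1901 b69 b310 b304 b101 b121 b138 b141 (k8 b2514 i1492 i963 i962 i1547 b2520 i2030 i1534 (k4 b2121 b2237 i1510 i2861 k0))))) (by decide +kernel)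
def b2522 : PP 8 4 T 0x1100000000000001000004141090000011000000021010400814000001008001000 := rS 0x186115eac9065f438acda302d93ca2271497496231083c0003261088a05 (k8 b2258 b2260 b272 b143 b354 b317 b1677 b1867 (k8 b1888 b436 i2259 b1296 b1725 b238 b91 b81 (k8 i962 i3013 b2517 b2516 b2518 b1972 b1811 i1414 (k2 i474 i329 (k1 b488 k0))))) (by decide +kernel)
def b2523 : PP 8 4 T 0x1002000000000000000000001010000000000020004000000014000280008000000 := rS 0x2cd1a994db452e8b0804d4e7b1c800064c212bc8a05 (k8 b2258 b2260 b76 b272 b143 b354 b317 b271 (k8 b379 i332 i212 i897 i452 i1244 i654 i1448 (k4 i981 i965 i474 b942 k0))) (by decide +kernel)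
def b2524 : PP 8 4 T 0x1100000000000001000000000000000001000000000810000810000041008000000 := rS 0xd26d4331d86f035c4caa271497496231083c0003261088a05 (k8 b2258 b2260 b272 b143 b354 b317 b1677 b1867 (k8 b1888 b436 i2259 b1296 b1725 b310 b362 i629 (k4 b325 i211 b4 b1720 (k2 i1695 i1563 (k1 b1631 k0))))) (by decide +kernel)
def b2525 : PP 8 4 T 0x1100000001000000100001001110000000000000041000000010000001048000000 := rS 0x1148d8c9e964836897c56cf4e9de2c3332a888cc106d0d94af56ac556fc8a98d6e3f380b0a6893f870fa852cb34eb105c88446554796c9e510789cba572610800031ab4c8a05 (k8 b2258 b2260 b1893 b125 b354 b317 b272 b143 (k8 i2258 i2259 b1725 b1677 b238 b91 b81 b69 (k8 b310 b1888 b1867 b737 b1863 b1582 b370 b361 (k8 b64 b65 b2521 b274 b398 b77 b99 b117 (k8 i1422 i721 i448 b334 b342 b818 b382 b405 (k8 b76 i2037 b79 i466 i1246 b341 b428 b2522 (k8 b1627 b339 b640 b313 b36 b2523 b2524 i653 (k4 b1972 b1811 b2299 b92 (k2 i1815 b120 (k1 i2265 k0)))))))))) (by decide +kernel)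
def b2526 : PP 8 4 T 0x21200000001000000000001000010000000000004040000000000000001008000500 := rS 0x6095388cc46a210a2628630630686fd551fca67d529551e4f2895c9842548bcc20001904b2ad65b4c0a45 (k8 b2260 b2258 b1893 b145 b118 b43 b2512 b354 (k8 b317 i961 b84 b2396 b272 b143 i2258 b238 (k8 b91 b69 b310 b2389 b34 b121 b141 i2037 (k8 b359 b104 i1514 b573 i537 b818 b169 b1953 (k4 b428 i1569 i1609 b334 (k2 b435 b2445 (k1 i1651 k0))))))) (by decide +kernel)
def b2527 : PP 8 4 T 0x1200000001000000000001000010000000000000040000000000000001048000500 := rS 0x600c92474111f0e02c299fc390d65ab4b25527944ae4c21000064137b4c0a45 (k8 b2260 b2258 b1893 b1901 b2512 b354 b317 b272 (k8 b143 i2258 b238 b91 b310 b43 b118 b145 (k8 b2526 b304 b274 b77 b99 b117 b804 i1234 (k4 i1361 i1360 b106 i1241 (k1 i2959 k0))))) (by decide +kernel)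
def b2528 : PP 8 4 T 0x1000000001000000000001000010000000000000040000000000000001048000500 := rS 0x2c441902382a949842548bcc200019040a45 (k8 b2260 b2258 b2512 b354 b317 i961 b84 b2396 (k8 b272 b143 b2389 b2527 b1888 b2525 b1863 i613 (k1 b59 k0))) (by decide +kernel)
def b2529 : PP 8 4 T 0x1100000001000000000001000100000000000000000004400080000001088000000 := rS 0x659fe847d2ca8e20232a93ca30d60a20dcad7e34c0a45 (k8 b2260 b2258 b1893 b1068 b405 b144 b350 i2856 (k8 b50 b238 b91 b310 b1888 b1863 i240 b361 (k4 b65 b428 b337 b79 (k1 b804 k0)))) (by decide +kernel)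
def b2530 : PP 8 4 T 0x1000000001000000501010015140000000000000055000000400010000008004540 := rS 0x1832 (k2 b2501 i2027 (k1 i1609 k0)) (by decide +kernel)
def b2531 : PP 8 4 T 0x1000000001000000000001000010000000000000040000000000000001008000500 := rS 0x74191f844a26591ccac9822b5566329ae582077e1b9101e39a94a20f2b9308435548bcc200019040a45 (k8 b2260 b2258 b2512 b354 b317 i961 b84 b2396 (k8 b125 b272 b143 i2258 b1677 b238 b2389 b390 (k8 b2528 b350 b144 b1068 i1301 i2856 i1403 b234 (k8 i1319 b359 b405 b2529 b288 b9 b383 b145 (k4 b2530 i240 i241 i280 (k2 b109 i2998 k0)))))) (by decide +kernel)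
def b2532 : PP 8 4 T 0x1000000002000000000001000150000000000000000000000000000001458000000 := rS 0xfe7d8630442d3 (k4 b1893 b130 b346 b304 (k2 b34 b141 (k1 i2030 k0))) (by decide +kernel)
def b2533 : PP 8 4 T 0x1100000002000001800000000000000001000000000810000010000041008000000 := rS 0x3c08f13138a4ba000192c46c9261088a05 (k8 b2258 b2260 b272 b143 i613 b1888 b436 b354 (k8 b317 i2259 b1296 b1725 b362 b2524 b325 b1005 k0)) (by decide +kernel)
def b2534 : PP 8 4 T 0x201102000002000000000005014000000000050000040000400010000041008000000 := rS 0x388cb18f48343b44be33679dd3b1665324ea852cb34aa8f2d93ca2272b8a4ba4c2590986c51099462000188c0a45 (k8 b2260 b2258 b1888 b354 b317 b273 i962 b130 (k8 b75 b52 b272 b436 b143 i2259 b1296 i2258 (k8 b1725 b238 b91 b81 b69 b310 b370 b361 (k8 b64 b426 i613 i2037 b339 b313 b21 b36 (k8 b80 b2533 i653 b646 b1972 b2288 i2032 b92 (k2 b204 i298 k0)))))) (by decide +kernel)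
def b2535 : PP 8 4 T 0x8001000000002000000800000000000000000000020000820000010000240408000000 := rS 0x28a9b5920cd8974ca36323d1bbc2268b138a4ba4c0000c96428a8cc8a05 (k8 b2258 b2260 b80 b334 b272 b436 b354 b317 (k8 b143 i2259 b1296 b1725 b318 b362 b325 b374 (k8 b324 b989 i964 i980 i1243 b1084 b990 i673 (k2 i1447 b295 (k1 b300 k0))))) (by decide +kernel)
def b2536 : PP 8 4 T 0x1102000002000000100014005000010000000020044020400014000241008000000 := rS 0x8c1bbc0228b591b5065f65458b64f288a4ba4c2590986c51099462000188d26c158abc0a45 (k8 b2260 b2258 b76 b382 b346 i1241 b1888 b354 (k8 b317 b273 i962 b130 b75 b52 b272 b436 (k8 b143 i2259 b1296 b238 b91 b81 b339 b165 (k8 b2535 b1972 i669 b1811 i2265 i474 b1190 b374 (k2 b1084 i964 k0))))) (by decide +kernel)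
def b2537 : PP 8 4 T 0x1002000000000000400000001000140148000020004020020000000000008000000 := rS 0x136b3689ecd4af (k4 b76 i930 i2571 i2425 (k2 i633 i1448 (k1 b942 k0))) (by decide +kernel)
def b2538 : PP 8 4 T 0x1002000002000000400000001000000000000821044860024000000240408000002 := rS 0xd6874ba651a3d1bbc2268b138a4ba45 (k8 b2260 i2259 b1296 b1725 b318 b362 b325 b374 (k4 b324 i964 i980 i1243 (k2 b2537 i630 (k1 b1025 k0)))) (by decide +kernel)
def b2539 : PP 8 4 T 0x1100000002000000000001015010000010000000041000000010000001028000000 := rS 0x1e21135a2d64834397d9742369da2ec82c44456af58bf17315499f56e3f380b0a67f2a96c9e511395c525d2612c84c161b144223318000695188bc0a45 (k8 b2260 b2258 b84 b273 b2086 b354 b317 i448 (k8 b1888 b130 b75 b52 b346 b272 b436 b143 (k8 i2259 b1296 i2258 b1725 b238 b91 b81 b310 (k8 b274 b77 b99 b117 i1422 i721 i1234 i1241 (k8 b334 i1407 b342 b382 b76 b2523 b2534 b345 (k8 b2536 b336 i614 i2448 b268 b79 b2538 b646 (k4 b1972 b1811 i2265 i633 (k2 i474 b1025 (k1 b1190 k0))))))))) (by decide +kernel)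
def b2540 : PP 8 4 T 0x201100000000000000000001000000014400050054051000020000000000008000000 := rS 0xed165cb24ea59 (k4 b361 b426 i613 b737 (k2 b339 i2044 (k1 b21 k0))) (by decide +kernel)
def b2541 : PP 8 4 T 0x1000000002000004100000000000000000000200040020000010000080008000000 := rS 0xd66936a350ed145840bc134f9ec724c21314ca310000c0a45 (k8 b2260 b2258 b354 b317 b273 i962 b75 b272 (k8 b143 b271 b379 b197 i212 i896 i897 i452 (k4 i654 i1707 i965 i2287 (k2 i1763 i630 (k1 b1191 k0))))) (by decide +kernel)
def b2542 : PP 8 4 T 0x8001000000002000000800000004010000000000000000820000010000040458000100 := rS 0x5311d78bb419b11a3d1bb1c7ef008c4d16150789c525d26000064b212dd030c19b4c8a05 (k8 b2258 b2260 b1893 b80 b304 b138 b101 b272 (k8 b436 b354 b317 b143 i2259 b1296 b1725 b1677 (k8 b229 b318 b362 i470 b325 b603 b4 b374 (k8 b324 i964 b1084 b990 i1681 i674 i1695 i2031 (k1 b224 k0))))) (by decide +kernel)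
def b2543 : PP 8 4 T 0x1100000000000000100001000010000010000000040000000000000001048000500 := rS 0x228b09ac8d4b11fabcd2bba7b30da836897c567419b3d3a776545972152d93ca2271497496c362884c6b72996222935108d4a7f3ec30e21d558355ac154a545e6f328c5c861479ccae4c0000caa42209140ad3 (k8 b1893 b2258 b2260 b2512 b272 b310 b354 b317 (k8 b143 i2258 b390 b69 i961 b2531 b273 i962 (k8 b1901 b84 b2086 b2396 b346 b694 b28 b573 (k8 b2539 b1907 b304 b34 b141 b2389 b1888 b2532 (k8 i1634 b2540 b345 b121 b101 i448 b130 b75 (k8 b52 b436 i2259 b1296 b1725 b238 b91 b81 (k8 b229 b737 b339 i2040 i806 b313 b36 b80 (k8 i2044 b2541 b2542 i653 b1972 i669 b2424 b329 (k8 i1948 i1830 i626 i407 i1394 b308 b1811 i1960 (k2 i2265 i474 (k1 b2089 k0))))))))))) (by decide +kernel)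
def b2544 : PP 8 4 T 0x1100000000000000210000001090000000000000004000400010000080008000100 := rS 0x14e631ac7cb234ac55e8d5fb4516102f04d4e7b1c9840003a1a4c5e6d261088a05 (k8 b2258 b2260 b272 b143 i2448 b84 i1634 b98 (k8 b354 b317 i961 b271 b379 i332 i212 i896 (k8 i897 i452 i654 i1720 i965 i589 i1762 i1763 (k4 b1230 i474 i634 i406 (k2 b308 b53 k0))))) (by decide +kernel)
def b2545 : PP 8 4 T 0x1000002002000000000000000000000040000801440060024000000010408000000 := rS 0x87 (k2 i930 b1025 k0) (by decide +kernel)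
def b2546 : PP 8 4 T 0x1100000002000000200000011080004000000000045860424000000040008100002 := rS 0x2cd62d1349a91abf1bb1de0af08c4d16271497447433b1b40a45 (k8 b2260 b2258 i2448 i614 b98 b1888 i2259 b1296 (k8 b1725 b318 b362 i470 i589 b325 b189 b374 (k8 i1719 i964 b2545 i39 i2425 i1967 i634 b1230 k0))) (by decide +kernel)
def b2547 : PP 8 4 T 0x1100000000000000000001000010000010000000040000000000000001048000500 := rS 0x1c4659c7a66344be2b369d9905888a4cfe535b9f54471860752a6339a942a554796c9e511395c525d2612c84a91798586c510ab582ab0699462e40000c822337b4c0a45 (k8 b2260 b2258 b1893 b1901 b1888 b2512 b354 b317 (k8 b2531 b273 i962 b28 b573 b346 b694 b130 (k8 b75 b52 i961 b84 b2396 b272 b436 b143 (k8 i2259 b1296 i2258 b1725 b238 b91 b81 b69 (k8 b310 b229 b2389 b390 i448 b2086 b2539 b304 (k8 b1907 b2532 b34 b101 b121 b141 i1634 b2540 (k8 b345 b2543 i614 i2448 b2544 b2546 i653 b2424 (k4 i809 i810 b92 b204 (k1 i1976 k0))))))))) (by decide +kernel)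
def b2548 : PP 8 4 T 0x1100000000000000000001000010000000000000040000000000000001048000500 := rS 0x193174a0c9441d44295522f328c5c800019044605 (k8 b2258 b1888 b2512 b354 b317 b2531 b273 i962 (k8 b84 b2396 b2389 b2547 b398 b2532 i280 i281 (k2 b80 i1100 (k1 b339 k0)))) (by decide +kernel)
def b2549 : PP 8 4 T 0x1000000000000000000000141000000000000008001000400010000080008000040 := rS 0x2cd1ad108178267b0000c9863289088a05 (k8 b2258 b2260 b272 b238 i1319 b143 b354 b317 (k8 b379 i212 i896 i897 i654 i965 i473 b1214 k0)) (by decide +kernel)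
def b2550 : PP 8 4 T 0x8011002000002000000000001000140000000000000000800524000000041408000542 := rS 0xfb436511cfe6c88b310a873d1e5a08d8c8dd8ef05bc4d160f138a4bac3628855ac1558353a7719b4c8a05 (k8 b2258 b2260 b1893 b80 b21 b313 b28 b573 (k8 b346 b694 b130 b75 b52 i2259 b1296 b1725 (k8 b1677 b318 b362 i852 b325 b4 b374 b989 (k8 i964 b120 i1071 i654 b198 i1895 i2032 b370 (k4 i891 i848 i1695 i2027 (k2 b2049 i1327 (k1 b315 k0))))))) (by decide +kernel)
def b2551 : PP 8 4 T 0x11102000002000000100011015500000005040008040000400010000001008000140 := rS 0x69a78f9e2c65b336207da1b292a15138a4ba4c25b0d8a211198ca24215abd626149c58ca310000c0a45 (k8 b2260 b2258 b354 b317 b273 i962 b339 b7 (k8 i961 b382 b76 b2549 b272 b238 i1319 b1888 (k8 b130 b75 b52 b436 b143 i2259 b1296 b1725 (k8 b229 i1058 b165 b79 i1327 b315 b370 b2534 (k4 i2032 b1720 b2198 b53 (k2 i1562 b235 k0)))))) (by decide +kernel)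
def b2552 : PP 8 4 T 0x11102000002000000100001001540000020000018040000400010000001008000540 := rS 0xb346a6d16101cbc58ccd2c9f9329742a1da25f19c58aa272b8a4ba4c25b0d8a2156b05560d328c446b931944842b57ac4c200018148ad3 (k8 b1893 b2260 b2258 b354 b317 i961 b382 b76 (k8 b2549 b272 b238 i1319 i1403 b1888 b273 i962 (k8 b28 b573 b346 b694 b130 b75 b52 b436 (k8 b143 i2259 b1296 i2258 b1725 b310 b339 b80 (k8 b2550 i653 b646 b1520 b607 b605 b2551 i844 (k8 b797 i2032 b1720 i298 b1213 i452 i1444 i1760 (k2 i473 b942 k0))))))) (by decide +kernel)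
def b2553 : PP 8 4 T 0x11000000002000000000000141000000000400809041860524000000040408000002 := rS 0x40d1564d1469a86ef05bc4d162714974c645 (k8 b2260 i1319 i2259 b1296 b1725 b318 b362 i852 (k8 b325 b374 b2545 i964 i2425 b1214 b295 i1334 (k1 b368 k0))) (by decide +kernel)
def b2554 : PP 8 4 T 0x1000000002000000200000000000000205000000000000000010000041408000000 := rS 0x19a113416c4e292e800064b06b0c426d261088a05 (k8 b2258 b2260 b272 b143 i2448 b130 b52 b28 (k8 b436 b354 b317 i2259 b1296 b1725 b81 i1129 (k2 i1760 i1830 (k1 b488 k0)))) (by decide +kernel)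
def b2555 : PP 8 4 T 0x1000000002000010200000000000000085000000040000020000000050408000002 := rS 0x1c33c4e45 (k4 b2260 b1725 i1979 i452 (k1 b1215 k0)) (by decide +kernel)
def b2556 : PP 8 4 T 0x1100000000000000000001000010000000000000040000000000000001008000500 := rS 0xcc3d84630b24da2d1a994ba150ed12f9b4ec58640ad5eb13194d460741bf0dd0d53a20e21e119cd4a552d9444e292e9309642548bcc200019041ac310b908a05 (k8 b2258 b2260 b2531 b130 b52 b28 b2512 b354 (k8 b317 i961 b84 b2396 b272 b436 b143 i2259 (k8 b1296 b1725 b238 b81 b310 b2389 b390 b1888 (k8 b2548 b287 b350 b380 b50 b144 b1068 i1436 (k8 i1301 i240 b234 i1319 b382 b76 b2549 b2552 (k8 i613 i614 i2448 b2553 i653 b646 b1520 b607 (k8 b605 b2554 b2555 b983 b942 b120 i473 b92 (k2 b488 i809 k0)))))))) (by decide +kernel)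
def b2557 : PP 8 4 T 0x1000000000000000400001014000000000000000000010000010000000428000000 := rS 0x7d299fcaa4f2895c98420000c0a45 (k8 b2260 b2258 b354 b317 b272 b143 i2258 b238 (k4 b91 b310 b274 b77 (k2 i1234 i2037 k0))) (by decide +kernel)
def b2558 : PP 8 4 T 0x21000000000000000400001014000000000000000000010000010000000008000000 := rS 0x7f299f4aa4f2895c98420000c0a45 (k8 b2260 b2258 b354 b317 b272 b143 i2258 b238 (k4 b91 b310 b34 b121 (k2 b141 i2037 k0))) (by decide +kernel)
def b2559 : PP 8 4 T 0x1000000000000000401001014000000000000000000010000010000000028000000 := rS 0x499f0e02c299fcaa4f2895c98420000c0a45 (k8 b2260 b2258 b354 b317 b272 b143 i2258 b238 (k8 b91 b310 b274 b77 b99 b117 i2037 i1241 (k1 i1360 k0))) (by decide +kernel)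
def b2560 : PP 8 4 T 0x1000000000000000000001000010000000000000040000000000000001008000500 := rS 0x3a0c8fc225101d101e0ec35965923c1156ad06b05c8a52883c984220b4c0a45 (k8 b2260 b2258 b1893 b2512 b272 b143 b1677 b238 (k8 b2389 b2531 b346 b28 b694 b573 b2556 b383 (k8 b43 b145 b2558 b2559 b304 b350 i1301 i2027 (k4 i240 i241 i280 b109 (k1 i2998 k0))))) (by decide +kernel)
def b2561 : PP 8 4 T 0x1000000001000000002001000000014400050154000000000000010000108000000 := rS 0x1d866b9 (k4 i1250 i1613 i2044 b640 k0) (by decide +kernel)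
def b2562 : PP 8 4 T 0x1100000001000000000001000110000000000000040000000010000001008000200 := rS 0x771999462aa51305269530324b275881cd1e35379f4fe7144aa4a70c0fbf4c61d278bc462107800064c211140ad3 (k8 b1893 b2258 b2260 b272 b143 b354 b317 b1677 (k8 b1867 b1888 b84 b91 i1261 i1349 b291 b1068 (k8 b304 b121 i574 b169 b1907 b141 b34 b1901 (k8 b125 b69 b390 b1863 b1582 b361 i613 b2525 (k8 i2632 i1282 b2561 i2030 i201 i1651 i1659 b1627 (k2 b640 b2414 k0)))))) (by decide +kernel)
def b2563 : PP 8 4 T 0x1100000000000000000001000110000000000000040000000010000001008000200 := rS 0x5c9dceb1688324b29355254caa218b9046732aa3cae00379f4fe7144aa4a70c0f931fa63018749e42178148ad3 (k8 b1893 b2260 b2258 b84 b272 b91 i1261 b354 (k8 i1349 b291 b143 b1068 b304 b121 i574 b169 (k8 b1907 b141 b34 b1901 b317 i2258 b69 b310 (k8 b390 b1888 b2562 b273 b2532 i962 b2086 i201 (k8 i1634 i582 i2393 b345 b339 b426 b21 b387 (k1 i2044 k0)))))) (by decide +kernel)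
def b2564 : PP 8 4 T 0x1000000000000000000000040010140000000000000000000010000240008000600 := rS 0x1193d0e5363c5816ca22714974004b37add027144aa4c60317b44be8329c303efd0e93c984259915a605 (k8 b2258 b1893 b2260 i2911 b272 b143 b91 i1261 (k8 b291 b1068 b304 b121 b2277 b2275 i653 b84 (k8 b354 i1349 i574 b169 b1907 b138 b101 b1901 (k8 b436 b317 i2259 b1296 b1725 b238 b81 b1811 (k4 b2496 i1298 i1877 b2272 (k2 b92 b204 k0)))))) (by decide +kernel)
def b2565 : PP 8 4 T 0x1000000000000000000000080010140000000000000000000010000040008000600 := rS 0x14e3f1b84e328a1e9cc4e2925add027144aa4c62f689e6245f4194e181f7e8749e5d26000065b210148ad3 (k8 b1893 b2260 b2258 b272 b81 b354 b317 b143 (k8 i2259 b91 i1261 b291 b1068 b304 b121 b2277 (k8 b2275 b330 b414 i653 b84 i1349 i574 b169 (k8 b1907 b138 b101 b436 b1296 b1725 b390 i1782 (k4 b821 b279 i1882 i1774 (k2 b2344 i202 (k1 i2031 k0))))))) (by decide +kernel)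
def b2566 : PP 8 4 T 0x1000000000000000000001000010000000000000040000000000000001008000400 := rS 0x162b3451845aaf3ca5e24d18a17d07175c8ac65113b889c89949d0d2aaa60a8d5a5923c10e289549fd02535b9f6186f0f874c6cb7e820e62f529551e5b27944ba5726108000320b4c0a45 (k8 b2260 b2258 b1893 b2512 b354 b317 b272 b143 (k8 i2258 i2259 b238 b91 b81 b69 b310 b2389 (k8 b84 b390 b2560 b291 i1387 i1349 i1261 b1068 (k8 b1901 b304 b34 b101 b121 b138 b141 i574 (k8 b169 b1907 b2563 b383 b43 b118 i200 i1265 (k8 i2037 b2022 b104 i1636 b2279 b428 b2532 b356 (k8 b296 b106 b1297 b1106 b80 b2277 b2275 b268 (k8 i653 b330 b364 b414 b2565 b2564 i960 b2340 (k2 i2265 i1886 (k1 b1811 k0)))))))))) (by decide +kernel)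
def b2567 : PP 8 4 T 0x1000000000000004110002001010000000000000044000400010000281008001100 := rS 0x1a964bf349b562af46a65a28b66840bc13539ec724c2119462610000c0a45 (k8 b2260 b2258 b354 b317 i961 b778 i962 b272 (k8 b143 b271 b379 i332 i212 i896 i897 i888 (k8 i452 i654 i981 i965 i589 i1762 i475 i1763 (k4 i1456 b455 b1191 i634 k0)))) (by decide +kernel)
def b2568 : PP 8 4 T 0x2001000000000000010000004000000000040501054001040000000000000008000000 := rS 0x13297 (k2 b364 b133 (k1 b2340 k0)) (by decide +kernel)
def b2569 : PP 8 4 T 0x1100000000000000014004041000000040100054005420400010000201108000000 := rS 0x1b3c130114bac962fc8a8fd36511492c46d14193cf3122e93000032d9088a05 (k8 b2258 b2260 b272 b81 b354 b317 b143 i2259 (k8 b330 b414 b91 b1972 i653 b1888 b436 b1296 (k8 b238 b983 i1423 b2568 b342 b382 b1811 b984 (k4 i474 b2340 b1190 i980 (k1 b374 k0))))) (by decide +kernel)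
def b2570 : PP 8 4 T 0x1100000000000000014004041000000000100054005420400010000201108000000 := rS 0x162b34516ca2832797498420000c0a45 (k8 b2260 b2258 b354 b317 b272 b143 i2259 b91 (k4 b1972 b238 b81 b2569 (k2 i2265 i1886 (k1 b1811 k0)))) (by decide +kernel)
def b2571 : PP 8 4 T 0x1100000000000000000002005150000010000000040000000010000001018000100 := rS 0x3358eba5ed155c8342a1cbe2b67b2a2c2c5cb24667740adce30c3989c525d258d6867d3fb05268f5693cca6106960ae4c2a908de1f61b15c82388884a6630000d2a3117b4c0a45 (k8 b2260 b2258 b1893 b84 b778 b2086 b354 b317 (k8 i448 i883 b340 b277 b1888 b432 b75 b52 (k8 i1396 b1901 b272 b310 b143 i2258 b345 i462 (k8 i961 i962 b91 i1287 b69 i1369 i1248 i127 (k8 i126 b425 b125 b436 i2259 b1296 b1725 b390 (k8 b304 b1907 b101 b138 i807 b1110 i614 b1106 (k8 i2033 b339 b2487 b36 b2567 b2542 b646 b1520 (k8 b1972 b2570 b410 i1987 i626 b1961 i1948 i2032 k0)))))))) (by decide +kernel)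
def b2572 : PP 8 4 T 0x1100000002000000100004005000010000000020045020400014000241008000000 := rS 0x2e5f915 (k4 b334 b342 b737 b2536 k0) (by decide +kernel)
def b2573 : PP 8 4 T 0x1000000002000000000002141000000000000801045860024000000240408000002 := rS 0x2c97ed1669a9328d1bbc2268b138a4ba45 (k8 b2260 i2259 b1296 b1725 b318 b362 b325 b374 (k8 i964 i980 b2545 i891 i2425 i1456 b455 i634 k0)) (by decide +kernel)
def b2574 : PP 8 4 T 0x1100000000000000000002005150000010000000040000000010000001008000100 := rS 0x781ac22b25fa2d068543b44be6d3b32056af58bf22ab71f9c0581c4a98c5e5b279444e292e92c62612c15c98000195484c362b9047111094c0a45 (k8 b2260 b2258 i883 b340 b277 b1888 b432 b75 (k8 b52 b272 b310 b354 b317 b143 i2258 b345 (k8 i961 b778 b436 i2259 b1296 b1725 b238 b91 (k8 b81 b84 i448 b2086 b2571 b99 b117 i1422 (k8 i721 b334 b342 b382 b76 b2523 b2572 i614 (k8 i2448 b2573 i653 b646 b1520 b1972 b2555 i1455 (k4 b1811 i474 i634 b1190 (k1 b1024 k0)))))))) (by decide +kernel)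
def b2575 : PP 8 4 T 0x1000000000000004111000000110000020050000050000000010004081548001100 := rS 0x21cd497349b5628d68a2c205e09a9cf6f11c800064c210748a05 (k8 b2258 b2260 b398 b272 b143 b354 b317 b271 (k8 b35 b379 i332 i212 i896 i897 i452 i654 (k8 i965 i1762 i475 i1763 b984 b1191 b2211 i630 k0))) (by decide +kernel)
def b2576 : PP 8 4 T 0x8001100000002000000000004001000000020000000004420400010000001108000000 := rS 0x2306ef008a2d64af58bf00e5b288a4962361b15064f2e9308400019b40a45 (k8 b2260 b2258 i669 b354 b317 b272 b143 i2259 (k8 b91 b1972 b75 b52 b1888 b436 b1296 b238 (k8 b81 i1340 b169 b382 b76 b1811 i2265 i473 (k4 b1190 b374 b1084 i964 k0)))) (by decide +kernel)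
def b2577 : PP 8 4 T 0x8001100000000000000000002001150000020000000000400400010000041008000000 := rS 0x1a69ecc639ad7b45592c55e06312fcda8342a1cb64f2889c525d25d0cfa7f60960ae4c0000caa4262b9222215bc303a1f11b4c0a45 (k8 b2260 b2258 b1893 b1888 i1396 b398 b304 b101 (k8 b340 b277 b432 b75 b272 b310 b354 b317 (k8 b143 i2258 b345 i1248 i127 i126 b425 b436 (k8 i2259 b1296 b1725 b238 b91 b81 b646 b1520 (k8 b1972 i669 i1455 b2576 i447 i2261 i2862 b1811 (k8 b295 i1414 i634 b1961 b179 b329 i1830 b308 k0)))))) (by decide +kernel)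
def b2578 : PP 8 4 T 0x1100000000000000000002005150000000000000040000000010000001008000100 := rS 0xa741a64f4d046a6e323d1b8fde01189a2cbc2b67c59923340adcef0c5c87510154789c525d259f4fec1328c43e0d2c15c98000195484c57208e222129b4c0a45 (k8 b2260 b2258 b1893 i883 b340 b277 b1888 b432 (k8 b75 b272 b310 b354 b317 b143 i2258 b345 (k8 i462 i1396 b778 i962 i1248 i127 i126 b436 (k8 i2259 b1296 b1725 b69 b229 b2574 b398 i1403 (k8 b304 i808 b101 b138 b1110 i614 b339 b36 (k8 b2575 b2577 b318 b362 i470 b325 b603 b374 (k8 b324 b989 i1443 i964 b120 i654 i1108 i816 (k2 i283 i2031 k0)))))))) (by decide +kernel)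
def b2579 : PP 8 4 T 0x1000000000000004110002001090000010000000040000400010000081008001100 := rS 0xb34c9a92e9b8a1a4dab157a357ed1458b4205e09a9cf63917930846518984c60001b4c0a45 (k8 b2260 b2258 b1893 b354 b317 i448 i961 b778 (k8 i962 b272 b143 b84 b271 b379 i332 i212 (k8 i896 i897 b2567 i452 i654 i1720 i965 i589 (k8 i1762 i475 i1763 b352 b983 b984 b1191 b133 (k2 i634 i2041 k0))))) (by decide +kernel)
def b2580 : PP 8 4 T 0x1100000000000000000000000010000010000000040000000000000001018000500 := rS 0x591a962af34aee9ecc5f9b5065f15b3d9516649dd6e718616ca2271497497435693cca1f61b15c8231094d44ab0696222572615484a95298c000320a5462b417b4c0a45 (k8 b2260 b2258 b1893 b84 b2566 b778 b2086 b2512 (k8 b354 b317 i448 b2389 b2396 b272 b310 b143 (k8 i2258 b277 b345 i462 b573 b2578 i883 b340 (k8 b1888 b432 b75 b52 i1396 i962 b91 i1287 (k8 b425 b436 i2259 b1296 b1725 b238 b81 b304 (k8 b1907 b101 i807 i614 b339 b745 b36 b2579 (k8 b2542 b1972 i669 i1455 b2424 b329 i1948 i1830 (k4 b1563 i1394 b308 b1811 (k1 i634 k0))))))))) (by decide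 +kernel)
def b2581 : PP 8 4 T 0x1100000000000000000000000010000010000000040000000000000001008000500 := rS 0x592fcd48368b30be6d3b32056af58bf22ab71f9c0581c4a98c2a5b2889c525d258c5268f5693cc2c362b90462129a89560d2c444ae4c0000caa42548bd684152b4c8a05 (k8 b2258 b2260 b1893 b2389 b2512 b2566 b84 b2396 (k8 b272 b310 b354 b317 b143 i2258 b277 b345 (k8 i462 b573 b2578 i883 b340 b1888 b432 b75 (k8 b52 i961 b91 i1287 b69 i1369 b778 b436 (k8 i2259 b1296 b1725 b238 b81 b229 i448 b2086 (k8 b2580 b99 b117 i1422 i721 b334 b342 b382 (k8 b76 b2523 b2572 i614 i2448 b2546 b2424 i653 (k4 b1972 b814 i1455 b1811 (k1 i634 k0))))))))) (by decide +kernel)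
def b2582 : PP 8 4 T 0x1100000000000000000000000010000000000000040000000000000001008000500 := rS 0x77192e510a255834b023529551e5726108000320c4568a917b4c0a45 (k8 b2260 b2258 b1893 b84 b2396 b2566 b277 b2512 (k8 b354 b317 b272 b143 i2258 b69 b310 b2389 (k8 b1888 b345 i462 b573 b2578 b2581 i1403 i280 (k2 i808 b1110 k0)))) (by decide +kernel)
def b2583 : PP 8 4 T 0x1002002002000010400002001000140140000800445040000000000010408000000 := rS 0xbc5921936af (k4 b76 b983 b1024 b942 (k2 i934 i1413 k0)) (by decide +kernel)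
def b2584 : PP 8 4 T 0x1002000000000000400002001000000000000800445850024400000241408000002 := rS 0x43a14f4796825d328d1e8dde0cd08c4d16271497586c5724444245 (k8 b2260 b340 b277 b432 b75 b52 i2259 b1296 (k8 b1725 b318 b362 i470 i890 b325 b374 b324 (k8 i964 i980 i1243 b2583 i1071 i654 i1632 i2572 (k1 b2481 k0)))) (by decide +kernel)
def b2585 : PP 8 4 T 0x1000000000000000500002005010000010000000541010000410000001408000000 := rS 0x20cd42a1da25f15bf0ec758b8fce02c5c0712a6317954b6272b8a4ba4c25a4d1ead27908ca310000cde1f06b0d8ae4888840a45 (k8 b2260 b2258 b340 b277 b432 b75 b52 b28 (k8 i1396 b1901 b354 b317 b778 i962 b272 b91 (k8 i1287 b69 i1369 b436 b143 i2259 b1296 i2258 (k8 b1725 b81 b310 b84 i448 b2086 b2487 i2040 (k8 b99 b117 i1422 b387 i1065 b1106 b2207 b2523 (k4 b2584 i653 b646 b1520 (k2 b814 b2481 (k1 b689 k0)))))))) (by decide +kernel)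
def b2586 : PP 8 4 T 0x101000000000000000101000000110000020050400050000000010000081548000100 := rS 0x1d62ece668358ae419a3c8445 (k8 b2260 b272 b69 b1110 b432 b75 b28 i888 (k4 b2575 b36 i1068 b294 k0)) (by decide +kernel)
def b2587 : PP 8 4 T 0x1000000000000014054000000000000140000000050000000000055000008000000 := rS 0x1c4613e9d (k4 b510 b626 b120 b427 (k1 b107 k0)) (by decide +kernel)
def b2588 : PP 8 4 T 0x101000002002000011000000000000000540000400050000000000015000008000000 := rS 0x3ac5d9d1861b158e37 (k8 b374 b4 b75 b52 b120 b2587 b989 i1068 (k1 b294 k0)) (by decide +kernel)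
def b2589 : PP 8 4 T 0x101000000002000000000000001010000420000400040810020000015050048100102 := rS 0x29d06993d3411a3d1b8fde0cd08c4d162f139956e8186075a645 (k8 b2260 b1893 b398 b304 b138 b101 i962 b1725 (k8 b84 b318 b362 i470 i890 b325 b603 b374 (k8 b324 i964 b2588 i654 i1108 b2146 i283 i2031 k0))) (by decide +kernel)
def b2590 : PP 8 4 T 0x1000000000000000000000000010000000000000040000000000000001408000500 := rS 0x2ee9ecc63af51745592fd068543b44be2b57ac4c406518cd6e77862e43a8855b15860d37b903ea50a9551e5b2883c525d2612c6b1110d0cfa7f60ab49e42328c5522f308000641649ac8e696594cb3045a015a645 (k8 b2260 b1893 b2258 b2566 b2582 b43 i882 b145 (k8 b140 b383 b353 b288 b2512 b354 b317 i961 (k8 b84 b2396 b778 i962 b272 b91 i1287 i1248 (k8 i127 i126 b425 b340 b277 b125 b436 b143 (k8 i2259 b1296 b1677 b238 b81 b69 b310 b229 (k8 b2389 i1396 b432 b1901 b28 b52 b75 b573 (k8 b2585 b398 i1403 b304 i808 b101 b1110 i280 (k8 i2027 b2486 i2862 i2261 b2586 b2589 i653 b646 (k8 b1520 b1972 i1455 b1811 b295 i2265 i1413 b1961 (k4 b1633 b329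 i1948 b1839 k0)))))))))) (by decide +kernel)
def b2591 : PP 8 4 T 0x101000000000000000500000015010004410000400041000000000001000008000002 := rS 0x2e0de953187c5e65 (k8 i962 b84 b350 i448 b2086 b1901 i2040 b1106 k0) (by decide +kernel)
def b2592 : PP 8 4 T 0x501000000000000001000000000000000004000002000004000000000000008000000 := rS 0x10b4f (k2 b384 i1603 (k1 b402 k0)) (by decide +kernel)
def b2593 : PP 8 4 T 0x101200000000000000000000001010000024000200050800020000000050048100102 := rS 0x14e834c9e9a06d468f46ecf1fbc19a1189a2c5e272b9656e8186075a645 (k8 b2260 b1893 b398 b304 b138 b101 b43 i2258 (k8 b1725 b84 b318 b362 i470 i890 b325 b603 (k8 i1068 b374 b324 i964 b2592 b1169 i654 i1108 (k2 b2146 i283 (k1 i2031 k0))))) (by decide +kernel)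
def b2594 : PP 8 4 T 0x4001000000000000005000000000015000024000000500410000010000040048001100 := rS 0x14e3d1ca5e314f1f9b022152a96c4e571492d6e8186075064f2e9308400018148ad3 (k8 b1893 b2260 b2258 b354 b317 b272 b143 i2259 (k8 b91 b1972 b398 b304 b138 b101 b436 b1296 (k8 i2258 b1725 b81 b310 b229 b689 b614 b603 (k4 b384 b378 b26 b107 (k2 i1346 i282 (k1 i2031 k0)))))) (by decide +kernel)
def b2595 : PP 8 4 T 0x4001000000000000004000000000095000024000000500410000010000040048001100 := rS 0x14e3d1ca5c7f185dd3d98271492d6e8186075064f2e9308400018148ad3 (k8 b1893 b2260 b2258 b354 b317 b272 b143 i2259 (k8 b91 b1972 b398 b304 b138 b101 b436 b1296 (k8 b1725 b2594 b329 i1948 b378 i407 b26 b107 (k2 i1346 i282 (k1 i2031 k0))))) (by decide +kernel)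
def b2596 : PP 8 4 T 0x1000000000000000000000000010000000000000040000000000000001008000500 := rS 0x29c70c64f33d7e794ea0e24852fa883e9437ae45b15442ae2e0d15a1ce8323b88996692c9ad930430aa45ea50a96c4e5714974984b88d0d268f5693c846518ad0000320b4c0a45 (k8 b2260 b2258 b1893 b2512 b354 b317 b2566 b778 (k8 i962 b272 b91 i1287 b69 i1369 b425 b277 (k8 b436 b143 i2259 b1296 i2258 b1725 b81 b229 (k8 b2389 b84 b2396 i961 b2582 b288 b353 b43 (k8 b140 b145 b2590 b356 b106 b109 i1704 b1297 (k8 i1569 b80 b573 b2591 b2 i68 i1403 i2893 (k8 b268 b144 i1671 b2593 b1520 b330 b1972 i1591 (k8 b414 i1455 b1168 b2595 i1711 i1712 i337 b1987 k0)))))))) (by decide +kernel)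
def b2597 : PP 8 4 T 0x400000000000101101000000000000400000010000000000000000000000400010000000008000000 := rS 0x154582a95c98420000c0a45 (k8 b2260 b2258 b354 b317 b272 b143 i2258 b310 (k2 b345 b433 (k1 i581 k0))) (by decide +kernel)
def b2598 : PP 8 4 T 0x101200000000000000000000000000000000000400050000000010000081008001000 := rS 0x1d62ece36a35a28b66840267b1c800068f261088a05 (k8 b2258 b2260 b272 b143 b69 b354 b317 b271 (k8 b379 i212 i897 i888 i452 i654 i965 i475 (k4 b1169 b36 i1068 b294 k0))) (by decide +kernel)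
def b2599 : PP 8 4 T 0x1000000000000000000000000010000000000000040000000000000001408000400 := rS 0xaf15a64c0971603466e41a8858293328012a315c9dce28954930c60317a3cdea323c10a70c0f87596a57eab49e42a1c45684104115a605 (k8 b2258 b1893 b2260 b2596 b2512 b2566 b277 b425 (k8 b272 b91 i1287 b291 b2389 i1387 i1261 b1068 (k8 b304 b121 b2597 b383 i200 b1901 b69 b84 (k8 b354 i1349 b143 i574 b169 b1907 i807 b1106 (k8 b778 b2086 b317 i962 i1369 i1248 b340 b125 (k8 b432 b1110 b28 i2033 i2830 i1263 i2633 b2598 (k2 b2565 b2564 k0))))))) (by decide +kernel)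
def b2600 : PP 8 4 T 0x1000000000000000000000000010000000000000040000000000000001008000400 := rS 0x2c5668a308b55e794ca5e24d18a17d0717158c845045c9dce29544aa502535bc30de1f0e98d96fd042b52631a1c45687317a951e5b27944ba5726108000320815a645 (k8 b2260 b1893 b2258 b2512 b354 b317 b272 b143 (k8 i2258 i2259 b238 b91 b81 b69 b2389 b84 (k8 b390 b2566 b277 b425 b778 i1369 i1287 b2596 (k8 b291 i1387 i1349 i1261 b1068 b1901 b304 b101 (k8 b121 b138 i574 b169 b2086 b1907 i807 b1106 (k8 b2597 b2599 b106 b1297 b80 b2277 b2275 b268 (k8 i653 b330 b364 b133 b414 b2565 b2564 i960 (k4 b2340 i2265 i1886 b1811 k0)))))))) (by decide +kernel)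
def b2601 : PP 8 4 T 0x101000000000000000500010015050004410000400051000000000000000008000002 := rS 0xc52a2f (k4 b84 b2022 b212 b2591 k0) (by decide +kernel)
def b2602 : PP 8 4 T 0x1000000000000010100001000010000160000000550020000005000054048000000 := rS 0x106a7660e4d91867c5a0ab740c303ad3 (k8 b1893 b398 b304 b138 b101 b328 b339 b36 (k4 b120 b1191 b107 i670 (k2 i282 i894 (k1 i2031 k0)))) (by decide +kernel)
def b2603 : PP 8 4 T 0x1000000000000000000001001010000020000000050820020000000050048102102 := rS 0xa741a64f4d0469a47a37628fde06b08c4d162f13b256e8186075a645 (k8 b2260 b1893 b398 b304 b138 b101 i2275 b1725 (k8 b84 b318 b362 i470 i2278 b325 b603 b297 (k8 b374 b324 i1495 i964 b2602 i654 i1108 b2146 (k2 i283 i2031 k0)))) (by decide +kernel)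
def b2604 : PP 8 4 T 0x101000000001000000000001001150000400000000040060160400004050048102104 := rS 0x8d348dd8aa635a2c7a3f5920da25f58abc0c815b98a1853608b43a88559cc4e5d658d4ee935cb3e2d0532b24c20056b4c0a45 (k8 b2260 b2258 b1893 i1494 b317 i961 i2275 i963 (k8 b328 b339 b36 b387 b7 i806 i1114 i466 (k8 i2259 b1725 b390 i582 b2601 b398 i68 i1344 (k8 b234 b304 b2501 b101 b138 i447 i2261 i2862 (k8 b2603 i653 b1972 b1811 b2355 i1254 i2265 i2280 (k4 i2031 i1919 i1917 i1495 (k2 i964 b2602 k0))))))) (by decide +kernel)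
def b2605 : PP 8 4 T 0x1000000000000000000000000010000000000000040000000000000000008000500 := rS 0x18a5556896007286b456985522f0a96c9e511497497115187c668f15b9446cb529dd26b98b414b0652380006c906090984220b4c8a05 (k8 b2258 b2260 b1893 b2512 b272 b143 b2600 i859 (k8 i2275 b354 b317 i204 i963 i858 b328 b339 (k8 b387 b7 i806 b2389 i466 i47 b298 b1553 (k8 b69 i287 i350 i324 b320 b436 i2259 b1296 (k8 b238 b91 b81 b229 b84 b2396 i961 i1494 (k8 b2604 b425 b2441 b428 b398 i1514 i1518 b212 (k1 b2591 k0))))))) (by decide +kernel)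
def b2606 : PP 8 4 T 0x1000000000000000000000000010140000000000000000000010000240008000600 := rS 0xae (k2 b2564 b2565 k0) (by decide +kernel)
def b2607 : PP 8 4 T 0x1000000000000000000000000010000000000000042000000000000000008000400 := rS 0x12e2c4c8adca000188c8e24208208a05 (k8 b2258 b2260 b2605 b2512 b2600 i204 i47 b354 (k4 b317 b298 b1553 i2633 (k2 i960 i2830 (k1 b2606 k0)))) (by decide +kernel)
def b2608 : PP 8 4 T 0x1000000000000000000000000010000000000000040000000000000000008000400 := rS 0x162b357a2932978a184f312689c4be8941aa502535bc303a637e820de2b2387c46e512174a24c2796c0042019054a7317815a645 (k8 b2260 b1893 b2258 b84 b390 b2389 b2512 b354 (k8 b272 b317 b81 b91 b143 b238 i2259 b2600 (k8 b298 i47 i350 i204 b1553 b1901 b2605 b291 (k8 i1349 i1261 b304 b101 b121 b138 i574 b2277 (k8 b169 b2275 b1907 i653 b330 b414 b2607 b342 (k4 b364 b133 b2568 b2565 (k2 i2265 i1886 (k1 b1811 k0)))))))) (by decide +kernel)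
def b2609 : PP 8 4 T 0x1000000000000000000001000000000000040000082014540800000000008000500 := rS 0xac60aacaafd65995a649 (k8 b2259 b1893 i75 i1392 b137 i1620 i1656 i2971 (k2 b162 b694 k0)) (by decide +kernel)
def b2610 : PP 8 4 T 0x1000000000000000000001000010000000000000002004000000000001008000501 := rS 0xab568cc8e0665bf4ca55108c55223299c5122f279651e66289bc987d3fc303a4b2010c3e02698148a49 (k8 b2259 b2260 b2258 b1893 b317 b51 b355 b272 (k8 b794 b232 b304 b141 b34 b44 b1901 i528 (k8 b2608 i2597 i544 b719 b84 i190 b1907 i826 (k8 b1150 b2396 i1506 b82 i1620 i75 b137 i1392 (k4 b431 b2609 i192 i1226 (k2 b2445 b162 k0)))))) (by decide +kernel)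
def b2611 : PP 8 4 T 0x1000000000000000000000008010000000000000000000000000000001008000501 := rS 0x322388462665488d1e4c379c5122f3e9fe181d25900861f0134c0a45 (k8 b2260 b2258 b1893 b317 b51 b355 b272 b794 (k8 b232 b304 b141 b34 b84 i190 b1907 b1901 (k8 b44 i2597 b1150 b2396 b2608 i1506 b82 i1656 (k2 b2445 i192 k0)))) (by decide +kernel)
def b2612 : PP 8 4 T 0x1000000000000000000001000010000000000000000004000000000001008000501 := rS 0x18a28ca16ab4c22f2aa24a64f2ca3ccc5137930fa7f8607496402187c04ab698148a49 (k8 b2259 b2260 b2258 b1893 b2611 b317 b51 b355 (k8 b272 b794 b232 b304 b141 b34 b44 b1901 (k8 i528 b2608 i2597 i544 b719 i826 i190 i1620 (k8 b84 b2610 i1622 i1000 i2037 b352 i545 b55 k0)))) (by decide +kernel)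
def b2613 : PP 8 4 T 0x1000000000000001014000000005000000000000000008000000111000008080001 := rS 0x19ec7199d08e43260086e05 (k8 b2258 i1800 b317 b44 b355 b882 i530 i192 (k2 i218 i1068 (k1 b427 k0))) (by decide +kernel)
def b2614 : PP 8 4 T 0x1000000000000000000000000010000000000000000004000000000001008000501 := rS 0x3bc45686647930e289010749640218bc8a05 (k8 b2258 b2260 b84 b355 b272 b794 b232 b317 (k8 i190 b1907 b44 i2597 b2608 b2612 b277 i807 (k1 b695 k0))) (by decide +kernel)
def b2615 : PP 8 4 T 0x1000000000000000000000000000000000000000000008000000001081008000001 := rS 0x124eb34bc9f3d8e480431a9d0980261b15c911118848a05 (k8 b2258 b2260 b82 b1150 b11 b432 b75 b52 (k8 b317 b44 i530 b125 b355 b272 b271 b379 (k4 b197 b1549 i888 i1592 (k2 i905 b2613 k0)))) (by decide +kernel)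
def b2616 : PP 8 4 T 0x2021000000000000011014000000000000044000050000400560404000055508000100 := rS 0xf2ae892cd625b7884106852eadd2e99 (k8 b133 b364 b101 i531 b1520 b1972 b2481 b1720 (k4 i1757 i1762 i474 b325 (k2 b1811 b414 (k1 b821 k0)))) (by decide +kernel)
def b2617 : PP 8 4 T 0x2021000000000000011014000000000000004000050100010560444000041508000100 := rS 0x8508a2852272f9008a05 (k8 b2258 b2260 b272 i904 b529 b486 b2616 b461 (k2 b2082 b2481 k0)) (by decide +kernel)
def b2618 : PP 8 4 T 0x1000000002000004000000000001000040000000080000000400010000008010008 := rS 0xc6090c42a3361b14729f689946e05 (k8 b2258 i1005 i75 b344 b626 i195 b75 b52 (k4 i192 b314 i1506 b1970 (k2 b427 i218 k0))) (by decide +kernel)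
def b2619 : PP 8 4 T 0x2001000000000000008000010000010000000400414002100020004000054018000400 := rS 0x2ccb69b3da5d32fd (k8 b137 b133 b364 i1981 i1151 i793 i1431 b2270 k0) (by decide +kernel)
def b2620 : PP 8 4 T 0x22001000000000000000000004000000000000501054000000000000000000008000000 := rS 0x3da6d2e99 (k4 b133 b364 b72 b92 (k1 b421 k0)) (by decide +kernel)
def b2621 : PP 8 4 T 0x1000000000000000000001000010000000000000002000000000000001008000501 := rS 0x15eb15996cd88a4f464f2cf419753b4f660fc58067e9cc525313b449e59479456e81862ac8e6b3ba1cd2c36297c56634bc5286a252b922223108c526710e92c80435c9d0ac4c3787e2e664aa24042f24b4c0a45 (k8 b2260 b2258 b1893 b2259 b84 b317 i190 b2415 (k8 b2608 b85 b51 b1901 b44 b2614 i530 i1065 (k8 b355 b272 b794 b232 b1907 i1590 i1506 b82 (k8 b1150 b11 b432 b430 b2532 b98 b268 b364 (k8 b55 b2615 i904 b75 b52 i2963 i3021 i1628 (k8 i2353 b882 b2611 b304 b138 b101 i528 i2597 (k8 i544 b719 b344 b529 i826 b486 b390 b137 (k8 b431 i1223 b2312 b2617 b329 i1910 i1970 i894 (k8 b2619 i1972 b2620 b378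 i1714 i1713 i1884 i553 (k2 i1885 i593 (k1 b1811 k0))))))))))) (by decide +kernel)
def b2622 : PP 8 4 T 0x1000000000000000000000000010140000000010001000000008000054018000008 := rS 0x44904f1538f5a21f (k8 b51 b344 i20 i140 b119 b2341 b325 b33 k0) (by decide +kernel)
def b2623 : PP 8 4 T 0x1000000000000000000001000010000000000000000000000000000001008000501 := rS 0x67a2c227958449e2af1e2fd4e835d9753b4f660fc5a614ca5e2943511ce2e290a94c4ed14a93cb28f28add030c1aaac8e6b3ba1d267144874962f34ae4e84c3787c04c362a95c91111884be2b2b0c4cc40219140ad3 (k8 b1893 b2258 b2260 b355 b272 b2608 i1506 b2614 (k8 b2615 i904 b82 b1150 b11 b432 b430 b75 (k8 b52 b317 b51 b1901 b44 i530 i1065 i2963 (k8 b84 b794 b232 i190 b1907 i1590 i3021 i1628 (k8 i2353 b882 b2611 b125 b304 b138 b101 i528 (k8 i2597 i544 b719 b2415 b344 b529 i826 b314 (k8 b486 b85 b390 b2532 b98 b268 b364 b133 (k8 b2621 i1000 b2622 b2617 b329 i1910 i1970 i1948 (k8 i894 b817 i1720 i2031 b1563 b324 b325 b2416 (k4 b414 i1762 i1885 b1168 (k1 b2618 k0))))))))))) (by decide +kernel)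
def b2624 : PP 8 4 T 0x1000000000000000000000000010000000000000002000000000000001008000501 := rS 0xdc72f14f0f232a73cacd5ecf5fa0d765d4ed3d983f16019fa731494c4ed1279651e515ba0618ab23b2cd677439a586c57244446212f8ac62978a50d689338874964021ae4e856261bc3f1733255120217b4c0a45 (k8 b2260 b2258 b1893 b84 b317 i190 b2415 b2608 (k8 b85 b51 b1901 b44 b2614 i530 i1065 b355 (k8 b272 b794 b232 b1907 i1590 b2623 b425 b268 (k8 b364 i1506 b2615 i904 b82 b1150 b11 b432 (k8 b75 b52 i2963 i3021 i1628 i2353 i2352 b882 (k8 b2611 b304 b138 b101 i528 i2597 i544 b719 (k8 b344 b529 i826 b486 b390 b137 b431 i1223 (k8 b2312 b2617 b329 i1910 i1970 i1948 b1972 i1455 (k8 b2619 b1563 b1839 i1972 b221 b2620 i2031 b378 (k4 b324 i1877 i2680 b357 k0)))))))))) (by decide +kernel)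
def b2625 : PP 8 4 T 0x1000000000000000000000000010000000000000000000000000000001008000501 := rS 0x33d16113cac224f1578f17e8353aecba9da7b31443f1698532978a50d685f15a958ac360ae4d293438cdc8773a1ac8f112b2ac6a738b884622314854a62768a54e2891793cb28f33144de4c5ba06181d25900861f0134c0a45 (k8 b2260 b2258 b1893 b317 b51 b355 b272 b794 (k8 b232 b304 b138 b101 b44 b1901 i528 b2608 (k8 i2597 i544 b719 b84 i190 b1907 b2415 b344 (k8 b529 i826 b314 b486 b1150 i1506 b82 b85 (k8 b390 b125 b2611 b2614 b11 b882 i2353 i530 (k8 i1628 b432 i192 i3021 i1590 i2963 i1065 b346 (k8 b52 b75 b430 b2615 i904 b2623 b425 b268 (k8 b364 b133 b2624 i1000 b2622 b2479 b2617 b329 (k8 i1910 i1970 i1948 b817 b1972 i1720 i2031 b1563 (k8 b324 b325 b2416 b414 i1762 i1885 b1168 b2618 k0)))))))))) (by decide +kernel)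
def b2626 : PP 8 4 T 0x1000000000000000000000000010000000000000000000000000000000008000501 := rS 0x5ac10ec5751c45ca242c9c51e1d44930804b0110c5e55330148a49 (k8 b2259 b2260 b2258 b2608 i1620 b84 b355 b317 (k8 b794 b272 b44 i190 b232 i2597 b1907 i544 (k8 b2625 b298 b320 i324 b1532 b695 b345 i807 (k1 b2454 k0)))) (by decide +kernel)
def b2627 : PP 8 4 T 0x1000000000000010400001111010000150000000001810000010000000018020002 := rS 0x98a22cdfaaf5514e18630fa6d2ed3 (k8 b1893 b984 b983 b350 i448 b304 b121 b2558 (k4 i589 b359 i2286 b395 (k2 i2041 b275 k0))) (by decide +kernel)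
def b2628 : PP 8 4 T 0x1000000000000000000000008040000000000000000000000000000000008000500 := rS 0x1dfad3 (k4 b1893 b359 i458 b431 k0) (by decide +kernel)
def b2629 : PP 8 4 T 0x1000000000000010000001000010000000000000000800100010000080018020500 := rS 0x3781c3d0d55abd4653441cd522f2cb2cc2ad4a8306466458e51a13002c5a605 (k8 b2258 b1893 i1762 b2626 i212 i965 b271 i452 (k8 b2608 i450 i449 i2999 i2965 i961 i2263 i2262 (k8 b84 b2396 b390 b2627 b234 i281 i589 b2628 (k4 b2558 b304 i1301 b2549 (k1 b144 k0))))) (by decide +kernel)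
def b2630 : PP 8 4 T 0x1000000000000000000001000010000000000000000000020000000080008000500 := rS 0x2cdfa63410fce02c29a2438d108178f6a91789c8441019440045 (k8 b2260 b2626 i2257 i23 i788 i445 b1725 b84 (k8 b2396 b379 i896 i897 i654 b2629 b398 b77 (k8 b99 b117 i1422 i900 i448 b2523 i474 b2271 k0))) (by decide +kernel)
def b2631 : PP 8 4 T 0x1000000000000010000000009000000000040000085800400000000055408000082 := rS 0x164bb58a350c3d1bbc186af89a2e2e3564b350b107283042314cc51fa05 (k8 b2258 b359 b342 b133 i1506 b82 i449 b28 (k8 b432 b64 b370 i121 i1114 b85 b318 b362 (k8 i589 b688 b325 b374 b324 b1720 i964 i1227 (k2 i1683 b455 (k1 i666 k0))))) (by decide +kernel)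
def b2632 : PP 8 4 T 0x21000000000000010000000001000000000000050084000020000000041058000182 := rS 0x30d8a8b360fd0e5f8b9542a6b1ab248e69139449e5b210a4ba4b6694cff147eaa996b58808caee5108c55a0c191648203309140a49 (k8 b2259 b2258 b2260 i961 i23 i788 i2262 i450 (k8 i449 i2965 i1506 b82 b28 i2258 i1569 b432 (k8 b277 i2263 b2558 b359 b342 b141 b121 b370 (k8 i51 i2259 b1296 i445 b81 i790 i2257 b1725 (k8 i2966 i1618 i121 i1114 i2264 i2430 i1620 b85 (k8 b2631 b646 b826 b614 i2266 i1522 b688 b2616 k0)))))) (by decide +kernel)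
def b2633 : PP 8 4 T 0x1000000000000020000000000000000000000000080000004000000055408000002 := rS 0x1e34f62a1d8ec3360dcf21145c662e151ab253e3266a1620e5060846205 (k8 b2258 i1506 b82 i449 b28 b432 b64 b370 (k8 i450 i3023 i121 i1114 i2430 b85 b292 i145 (k8 b309 i1071 i991 i657 b688 i1688 b680 i1616 (k2 b384 b1720 (k1 b381 k0))))) (by decide +kernel)
def b2634 : PP 8 4 T 0x1000000000000000000000000010000010000000000000020000000001018000500 := rS 0x3f40eaa861c4c61f39aa45e5965ab4644101b4456b58839442311195c18292e89c96003334c8a05 (k8 b2258 b2260 b1893 b2608 b2626 i51 b1725 i2259 (k8 b1296 i449 i2258 i1569 i1506 b82 b28 b432 (k8 b277 b2630 b2633 i23 i788 i450 i2965 i2263 (k8 i2262 b84 b2396 b390 b350 i448 b1907 b304 (k4 b2558 b2632 b359 b431 k0))))) (by decide +kernel)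
def b2635 : PP 8 4 T 0x1000000000000000000000141000000000480008085800404000000055408000002 := rS 0x8d430dd8e995fbc186115bc4d1717658d592cd42c41ca0c108c68605 (k8 b2258 b337 i1506 b82 i449 b28 b432 b64 (k8 b370 i121 i1114 i2263 b85 b318 b362 i852 (k8 i470 b688 b325 i1724 i1060 i1688 b374 b1720 (k2 i964 b1843 k0)))) (by decide +kernel)
def b2636 : PP 8 4 T 0x1000000000000000000000000010000000000000000000020000000001018000500 := rS 0xbba79b10e5f31a0cdcaf58879f87e86aad4653441ccaaa917964d6cb34ab52a3213904065127984b6421497496cd3e8ad6b101195dca0c000846266698148a49 (k8 b2259 b2260 b2258 b1893 b2608 i1506 b82 b2626 (k8 i449 b28 i2258 i1569 b432 b277 b2630 b65 (k8 b370 i51 i2259 b1296 i445 b81 i961 i790 (k8 i2257 i23 i788 b1725 i450 i2999 i2965 i2966 (k8 i2263 i2264 i2262 b84 b2396 i1620 b390 b2634 (k8 b234 i281 b2628 b2558 i2037 b108 b304 b382 (k8 b76 b144 i1436 i1319 b2635 b646 b614 b384 (k2 i1681 b1864 k0)))))))) (by decide +kernel)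
def b2637 : PP 8 4 T 0x1000000000000000000000000010000000000000000000020000000001008000500 := rS 0x3f62a63551c1121c5ac4046572088462a91780cb2cb30b955a0c19000cc05 (k8 b2258 b2608 b2626 i450 i449 i2965 b28 i961 (k8 i2263 i2262 i23 b84 b2396 i1506 b82 i788 (k8 i2258 i1569 b432 b277 b2636 b398 b117 b2557 (k4 i448 b334 b359 b342 k0)))) (by decide +kernel)
def b2638 : PP 8 4 T 0x1000000000000000000000000010000000000000000000000000000001008000500 := rS 0x8c804a21935ca0c001989245 (k8 b2260 b2259 b2608 b2626 i449 b28 b2637 b143 (k4 b348 b272 i1570 b1544 k0)) (by decide +kernel)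
def b2639 : PP 8 4 T 0x1000000000000000000000000010000000000000000000000000000000008000500 := rS 0x8243121640600649988a05 (k8 b2258 b2260 b2608 i121 b2626 i23 i2262 b2638 (k2 i858 b1796 (k1 b272 k0))) (by decide +kernel)
def b2640 : PP 8 4 T 0x1000000000000000000000000200000000000000080000000000010000008000008 := rS 0xcdca05 (k4 b2258 b430 i2067 b623 k0) (by decide +kernel)
def b2641 : PP 8 4 T 0x1000000000000000000000000090000010000000000000000000000180008000041 := rS 0x4d4607e3d1b848bca71c900864c0125d331417b4c0a45 (k8 b2260 b2258 b1893 b84 b352 b133 b364 b317 (k8 b44 b355 b272 b271 i332 b1549 i905 i1800 (k4 i1802 i2090 b482 b375 (k1 b72 k0)))) (by decide +kernel)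
def b2642 : PP 8 4 T 0x1000000000000000000000000090000040000000080000040000000041008000201 := rS 0xfc7a12089b14e69a7b190687359744231258a42a2768adca65140c303a1f7eb0c1a0762b34980242c420a594795c8c232a97c80430291492d3 (k8 b1893 b2259 b2260 b2258 b355 b272 i904 i1620 (k8 b1150 i200 i1577 b349 i544 b383 b345 b64 (k8 b317 b44 b797 i2972 i3 i1648 i2075 b291 (k8 b1068 i1262 b304 b138 b1895 i826 b1448 b344 (k8 b529 b314 b486 b794 i1506 b82 i531 i547 (k8 b646 b1972 b1633 b53 i1562 i2077 b308 b689 (k4 i1696 i1268 i2090 i2031 k0))))))) (by decide +kernel)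
def b2643 : PP 8 4 T 0x1000000000000001014000000010000001000000000101040005000041108000201 := rS 0xa66320d0e231489da2b7299440e4c01206181d0fbf4be4021915a605 (k8 b2258 b1893 b2260 b355 b272 i904 b291 b1068 (k8 i1262 b304 b138 b317 b44 i3 b1895 i826 (k8 b1448 b344 b529 b486 b1150 b646 b1972 i2032 (k2 i2031 i2077 k0)))) (by decide +kernel)
def b2644 : PP 8 4 T 0x1000000000000000000001000010000010000000080000000000000001008000201 := rS 0x9b538e4f0132e0f47e111bc65142b42b3620c52bc158646513055a934b93e287117884626f2ca3c462d261fca6402a9440e7d86074861f7ea94043502b4c8a49 (k8 b2259 b2260 b1893 b2258 b125 b317 b2640 b291 (k8 b1068 b355 i1262 b304 b34 i3 b1895 i1620 (k8 b272 i826 b1503 b44 i1264 b1150 b349 i544 (k8 b1901 i1506 b82 b84 b1907 b352 i789 b364 (k8 b71 i1621 i1265 i2030 i200 i2075 b383 i1577 (k8 i2972 b345 b797 b64 b2641 b2642 b279 i1774 (k8 b461 b2344 i1268 b2643 b253 i532 i194 i202 (k2 i1073 b2369 k0)))))))) (by decide +kernel)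
def b2645 : PP 8 4 T 0x1000000000000000000001000010000000000000080000000000000001008000201 := rS 0x2508ca260a204231119fca6402a9440e7d86074861f7ea94043502b4c8a49 (k8 b2259 b2260 b1893 b2258 b125 b317 b2640 b291 (k8 b1068 b355 i1262 b304 b34 i3 b1895 i1620 (k8 b272 i826 b1503 b1150 i1506 b82 b2644 i1345 (k4 i2030 i200 i281 i3001 k0)))) (by decide +kernel)
def b2646 : PP 8 4 T 0x1000000000000000000002000100000010000004080000000000000501418000200 := rS 0xa2238cd7277388c46b1160a4d1e05 (k8 b2258 b349 i1369 i1248 b277 b125 i1506 b1907 (k4 i807 b1106 b1110 i1617 (k2 b2479 i200 k0))) (by decide +kernel)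
def b2647 : PP 8 4 T 0x1001000000000001014000008410000044000000008400020401000055518000000 := rS 0x2285591743e45 (k4 b2260 b1068 i531 b2427 (k2 b1520 i2286 (k1 b2481 k0))) (by decide +kernel)
def b2648 : PP 8 4 T 0x1001000000000001014000008410000004000000108010020441000045518000000 := rS 0x4284514292f9008a05 (k8 b2258 b2260 b272 i904 b486 b2647 b461 b2082 (k1 b2481 k0)) (by decide +kernel)
def b2649 : PP 8 4 T 0x1000000000000000000000000010000000000000080000000000000001008000201 := rS 0x7cf041c4d982b4391d7eaa2b1d0d2943b8f572a73145510c561b91274388ad14a815b89e1853263443a40148b44602218be2e21189440e6f0fbf46a5947b4c8a05 (k8 b2258 b2260 b1893 b349 i544 b125 b291 b1068 (k8 b1901 i3 b1895 i1506 b82 b85 b84 b355 (k8 b317 b1150 i1264 b486 b272 i1262 b344 b44 (k8 i826 b304 b529 b1448 b138 b2640 b2645 b277 (k8 b425 i1369 b432 b52 b75 b2646 b2 i191 (k8 i2065 i1403 i2867 i808 b268 b880 b294 b695 (k8 i1673 i3034 i3001 i3021 b2615 b2648 b815 i895 (k2 b325 i2031 (k1 b119 k0))))))))) (by decide +kernel)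
def b2650 : PP 8 4 T 0x4001001000000000000100000000200000000000000004000000000019000008000000 := rS 0x54a217005 (k4 b2258 b171 i288 i1139 (k1 b169 k0)) (by decide +kernel)
def b2651 : PP 8 4 T 0x1000000000000000501001014150000000040000000010000000000001158000000 := rS 0x22201f618d3 (k4 b1893 b304 b34 b2558 (k2 i2030 b571 k0)) (by decide +kernel)
def b2652 : PP 8 4 T 0x1000000000000000501001014150000000040000000010000000000001148000040 := rS 0x821c (k2 b2651 i742 (k1 b2559 k0)) (by decide +kernel)
def b2653 : PP 8 4 T 0x1000000000000000000000000010000000000000080000000000000001008000200 := rS 0x2d1567fa129582a356b94c6326583000591aa3d9317108c40e1f7eb4c8a05 (k8 b2258 b2260 b1893 b291 b1068 i3 i1506 b82 (k8 b85 i121 b349 b125 i544 b2649 i449 i2263 (k8 i450 i447 b28 i2965 i1648 i1265 b2650 b428 (k4 b337 b104 b2652 b425 k0)))) (by decide +kernel)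
def b2654 : PP 8 4 T 0x1000000000000000040000008010000010000000000000000000000182008000041 := rS 0x6c43ac9863e4dc617e3d1babc24cd2f29e263988930045725b94a64021a5d331417b4c8a05 (k8 b2258 b2260 b1893 b84 b352 b133 b364 b355 (k8 b272 i826 b298 b794 b1532 b317 b44 b320 (k8 b271 b376 i332 b1549 i889 i905 i589 i1800 (k8 i1802 i1722 b482 b72 b375 i376 i217 i928 (k2 i665 b2592 k0))))) (by decide +kernel)
def b2655 : PP 8 4 T 0x1000000001000000044000000000000004000000500015000028000050008004008 := rS 0x2dbc44ed1 (k4 b344 b529 b119 b2303 (k1 b2372 k0)) (by decide +kernel)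
def b2656 : PP 8 4 T 0x1000000001000000044004000610000014000000500015000020140150058004008 := rS 0x3dc4cf319412687e3d629bc2a2768a0618974cc505ed3 (k8 b1893 b84 b352 b133 b364 b304 b138 b344 (k8 b529 b314 b1901 b832 i1386 b2655 b375 i2031 (k4 b72 i1073 b33 b2146 (k1 b343 k0)))) (by decide +kernel)
def b2657 : PP 8 4 T 0x1000000000000000008000400610000000400000000000000001000040008010201 := rS 0x5f8f95c290a89da2b729900a20726009030c0e90c3efd5db4c8a05 (k8 b2258 b2260 b1893 i1944 b291 b1068 b355 i1262 (k8 b304 b138 b317 b44 i3 b1895 b272 i826 (k8 b1448 b344 b529 b314 b486 b2496 i2031 b166 (k1 i376 k0)))) (by decide +kernel)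
def b2658 : PP 8 4 T 0x1000000000000000400001000010000010000800000011000000020002108004201 := rS 0x2f68a8259845763d6129c6e394397c56a4a1aa89e71179fd462d148544ed147adca6402881c98023ec303a430fbf58e6b34b055b042b92dcb1102925a645 (k8 b2260 b1893 b2259 b2258 b320 b298 b794 b1532 (k8 b345 b118 i1265 b140 b353 b96 b291 b1068 (k8 b355 i1262 b304 b34 b317 b44 i3 b1895 (k8 b272 i826 b1448 i2597 b344 b529 b314 b486 (k8 i1264 i324 i842 b84 b1907 i789 i2037 b104 (k8 b428 b2654 i904 i927 b620 b611 b2374 b2656 (k8 i1959 i1944 i1952 i666 b2657 b303 i1415 b2371 k0))))))) (by decide +kernel)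
def b2659 : PP 8 4 T 0x1000000000000000400001000010000000000800000011000000020002108004201 := rS 0xab27988c2882881cfe4c0114c807d86074861f7ea545ead8215c96e5888148ad3 (k8 b1893 b2260 b2258 b320 b298 b794 b1532 b345 (k8 b118 b84 i1098 b291 b1068 b355 i1262 b304 (k8 b34 b272 i826 b317 b44 i842 i3 b1895 (k4 b2658 i1278 i191 i790 (k2 i538 i2037 k0))))) (by decide +kernel)
def b2660 : PP 8 4 T 0x1000000000000000000000000010000000000000080000000000000000008000201 := rS 0x893824d68cb2c9d88e344795c664c0e9009602218bc1e55108c5cb11120148a49 (k8 b2259 b2260 b2258 b2653 b320 b298 i1506 b82 (k8 i1620 i541 b84 b355 b317 b794 b272 i1262 (k8 b44 i2066 b1532 i2597 b623 i1617 b695 i544 (k4 i1388 b2659 i1369 i807 (k2 i359 b1907 k0))))) (by decide +kernel)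
def b2661 : PP 8 4 T 0x1000000000000000000000000010000000000000000000000000000000008000400 := rS 0x10c8259018004808649980a45 (k8 b2260 b2258 b2608 i121 b2639 b2653 b2660 i23 (k4 i2262 b1796 i858 b272 k0)) (by decide +kernel)
def b2662 : PP 8 4 T 0x1000000001000000000000004000000000010000000015500000000001108002400 := rS 0xc1a19f946cb52ad55afc8693d40d3 (k8 b1893 b2661 i756 b321 b108 b405 i880 i363 (k4 i466 i1647 b804 b337 (k2 i1515 b428 k0))) (by decide +kernel)
def b2663 : PP 8 4 T 0x1000001000000000880000000000000000000002400000000005000000008000000 := rS 0x14553ac97ed3 (k4 b1893 i1454 i673 i337 (k2 b295 b408 k0)) (by decide +kernel)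
def b2664 : PP 8 4 T 0x1000000001000000000000004000000000000000040000000000000081008000501 := rS 0x29c5ebf389f9966c630345a3d4da5cc2ad58c61f8371f9ac2251092dcbcf11cc349eb550054a6592b9f620232a9dc424b2010c6a33260088a05 (k8 b2258 b2260 b317 b44 i193 b125 b355 b272 (k8 b794 b1331 b640 i791 b1150 b432 b65 i529 (k8 i866 i827 b314 b2661 i880 i756 b321 b271 (k8 b35 b1549 i852 i905 b513 i469 i629 i403 (k8 i1800 b108 b482 b382 b405 b137 b26 b72 (k8 i1801 i1000 b2662 b1546 b189 b2663 b804 i799 (k4 i1724 b399 i337 b2365 k0))))))) (by decide +kernel)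
def b2665 : PP 8 4 T 0x201000000000000000014000000400000004000000000440500000000055508000400 := rS 0x2cd025d5bc49e21d0fb350a3f41ac55efc8693d4045 (k8 b2260 b2661 i756 b321 b108 b76 b382 i919 (k8 i402 b64 b370 i90 i89 b1720 b325 b2198 (k4 b22 b60 b503 b1811 k0))) (by decide +kernel)
def b2666 : PP 8 4 T 0x1000000001000000800000000400000000000000000000000001004441008000501 := rS 0x9f1c8dd8e7809bc0b9134316d862913b44eb1011954ee2125930be9d8b0c41a354ba66282d30bf0a30d2794c804344b1545436083c04a55034c0a45 (k8 b2260 b2258 b1893 b2661 i363 b317 b403 i1246 (k8 b79 b428 i1654 i190 b355 b272 i827 i756 (k8 b321 b567 b108 b137 i1000 b352 b133 b364 (k8 b125 i466 i1003 b335 b313 i904 b44 b794 (k8 b1331 b640 i791 b1150 b432 b1582 b344 b529 (k8 b486 b257 b628 b2665 b0 b646 b325 b253 (k4 i532 b4 b374 i194 (k2 i1075 b1794 k0)))))))) (by decide +kernel)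
def b2667 : PP 8 4 T 0x201000000000000000804000000880000000040000000000000000000041008011001 := rS 0x2ee9ebf4331cdabd118a42a212589da2022010d9a85a1d148a05 (k8 b2258 b2260 b122 b79 b64 b370 b355 b272 (k8 b317 b344 b529 b794 b1331 b314 b486 b1150 (k8 i1984 i674 b189 b488 i1719 b111 i1683 b409 k0))) (by decide +kernel)
def b2668 : PP 8 4 T 0x400000000000001100000000000000008000140180000000440000000401540800000000008005000 := rS 0x1665b2eadd7ebb3504a9ec7 (k8 i117 b135 i210 b473 i1945 i1719 b1784 b253 (k2 i1963 i634 (k1 b1811 k0))) (by decide +kernel)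
def b2669 : PP 8 4 T 0x1000000000000000000000140000000000000000000400540002000054008100000 := rS 0x891716ef1 (k4 b324 i1783 b2416 b325 (k1 b22 k0)) (by decide +kernel)
def b2670 : PP 8 4 T 0x201000000000000000804000040880000000040000000000000000000041008001001 := rS 0x11 (k2 i1912 b2667 k0) (by decide +kernel)
def b2671 : PP 8 4 T 0x201000000000000000814000000400000004000000000401400001000055508010400 := rS 0x6b36169e2c666a147e5106a954045 (k8 b2260 b2661 i363 i466 b567 i402 b64 b370 (k4 i2032 b1720 b2665 b488 (k2 i1963 b2663 k0))) (by decide +kernel)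
def b2672 : PP 8 4 T 0x1000000001000000804000000400000000000000000400400000104055508010408 := rS 0x27d8e787817226861b9d620553b9313b16188346ac51eabd62fc869442a4f5150d820f52a81a645 (k8 b2260 b1893 b2661 i363 b403 i1246 b79 b428 (k8 i756 b314 b567 b321 b108 b382 b76 b2669 (k8 i1654 b125 i466 i1003 b335 b313 b44 b640 (k8 i791 b432 b1582 i1005 b2671 b0 b646 b325 (k4 i532 b4 i1075 b1794 k0))))) (by decide +kernel)
def b2673 : PP 8 4 T 0x1000000001000000800000000000000000040000000000000000004041008000501 := rS 0x5d5baccb68b78840722e538f586af58bf08ca206b04a305a1c349ea5148541e5313b4620232a9dc424b1a930045f2010c7e835034c8a05 (k8 b2258 b2260 b1893 b2661 i919 i402 b355 b272 (k8 i904 b317 b44 b125 b794 b1331 b640 i791 (k8 b1150 b432 b344 b529 i827 b403 b314 b486 (k8 i363 i756 b321 b79 b145 b567 i1246 i466 (k8 b428 b341 b108 b382 b76 b2668 b2669 b2670 (k8 b2666 i320 b2672 b78 b461 i1757 i474 b2198 (k2 i531 b1811 k0))))))) (by decide +kernel)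
def b2674 : PP 8 4 T 0x1000000000000000000000000000000000000000000000200000000000008000108 := rS 0x185a645 (k4 b2260 b1893 b685 b264 k0) (by decide +kernel)
def b2675 : PP 8 4 T 0x1000000000000001804000000880000001400000000000000000000041008011001 := rS 0xbba7afd0cc736af446290a8849627688088043a1d148a05 (k8 b2258 b2260 b122 b79 b355 b272 b317 b344 (k8 b529 b794 b1331 b314 b486 b1150 i1984 i674 (k4 b189 b488 i1719 b111 (k2 i1684 b409 k0)))) (by decide +kernel)
def b2676 : PP 8 4 T 0x1000000001000000800000000000000000000000000000000000004041008001501 := rS 0xb75996cbabf5e1a824c7610454c2f38919447e60c1686a507b350b1011954ee21258d498831e97d62af7e1461a276894c8015010a4864f5034c0a45 (k8 b2260 b2258 b1893 b2661 i756 b355 b486 b317 (k8 b314 b272 i827 b344 b529 b321 b2674 b108 (k8 b76 b382 i904 b2669 i919 b44 b125 b794 (k8 b1331 b640 i791 b1150 b432 b64 b370 b403 (k8 i363 b79 b145 i1246 b2673 b428 b341 i799 (k8 b399 b2666 i1912 b2675 i117 i210 b473 i329 (k4 i1719 b253 i1963 i634 (k2 i1988 b1811 k0)))))))) (by decide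 +kernel)
def b2677 : PP 8 4 T 0x400000000000201000000000000000011000000400000000000000000001000000000441008000501 := rS 0x4d8e46e7809bc0b9134316d86a511930424b1fa0c7a5f58abc4ed10a8a52e998a0b4c2fc28c349ea02990086890134c0a45 (k8 b2260 b2258 b1893 b317 i190 b355 b272 i827 (k8 b2661 i756 b321 b2674 b108 b137 i1000 b352 (k8 b133 b364 b486 b314 b344 b529 b76 b382 (k8 i904 b2669 i919 i402 b794 b1331 b44 b1150 (k8 i363 b257 b628 b2665 b0 b646 b325 b253 (k4 i532 b374 i194 i1074 (k1 b375 k0))))))) (by decide +kernel)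
def b2678 : PP 8 4 T 0x1000000000000001014000000800000005080000000000000000000041008000001 := rS 0xc65f88c52212589da2022010c8a05 (k8 b2258 b2260 b355 b272 b317 b344 b529 b794 (k4 b1331 b486 b1150 i1723 (k2 i2032 i337 k0))) (by decide +kernel)
def b2679 : PP 8 4 T 0x11000000000000000000000040800000008400000000401000000000010008000000 := rS 0x2d8b913 (k4 b0 b646 b256 i1930 k0) (by decide +kernel)
def b2680 : PP 8 4 T 0x1000000001000000000000000000000000000000040000000000000001008000501 := rS 0x5b96cbab35e2ecd412a7b097e875311a0a6431c518a9517a88e2c1a19f996938b0c47a0d4197caa7d42b35722b3bc40eaa55a88c521507aa512c91a884965913b44e6ab58ab55e2d30bf0a30d27a80a640218ccae4c0134c0a45 (k8 b2260 b2258 b1893 b317 b44 i529 i193 b355 (k8 b272 i827 b2661 i756 b321 b2674 b108 b137 (k8 i1000 b76 b405 b382 b359 i2580 b344 b529 (k8 i866 b794 b1331 b125 i1122 i190 i1085 b403 (k8 b314 b486 b1150 i880 i363 b1582 b432 b640 (k8 b2664 b644 b370 b64 b65 i791 i904 i919 (k8 b2662 b2669 i1003 b335 b7 b2676 b804 b337 (k8 i1515 i799 b428 b399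 b643 i1654 b352 b55 (k8 b165 b9 b341 b2677 b2679 i1723 b2678 b135 (k8 i210 b473 i1945 i329 b1839 b253 i1963 i1988 (k1 b1811 k0))))))))))) (by decide +kernel)
def b2681 : PP 8 4 T 0x1000001000000000814000000005000000000000450000000005151000008010008 := rS 0x363199f16828559233 (k8 i193 i1122 b314 b145 b339 b36 b427 b189 (k1 b2663 k0)) (by decide +kernel)
def b2682 : PP 8 4 T 0x1000001000000000014000000405440000080000050000000005151100008080108 := rS 0x8d046345d9e764a264e1441732466d3 (k8 b1893 i193 i1122 b2365 b408 b399 b275 i800 (k4 i799 i1104 b21 b427 (k2 b339 i218 (k1 b383 k0)))) (by decide +kernel)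
def b2683 : PP 8 4 T 0x1000000000000000014004000001440000080000050000000005051180008080108 := rS 0x8a8bd30b8672e98e82532fd12331cbc53ed3 (k8 b1893 b197 b35 b271 i193 i190 i1724 b2682 (k8 i333 i337 i926 b427 i1951 i1950 i1137 b133 (k1 b352 k0))) (by decide +kernel)
def b2684 : PP 8 4 T 0x1000000000000000000000000000000000000000040000000000000081008000501 := rS 0x17a9ce2833aa159cc723c12227c3fb2c7a371fa6d2e9d2a9ac22125ba2ccacd2f27de239478d56ad12cac55a2d30bf0a30d27a80a640218ccae4c01035863162b900a45 (k8 b2260 b2258 b2680 b75 b273 b52 b28 b317 (k8 b44 i529 i193 b355 b272 i827 b2661 i756 (k8 b321 b2674 b108 b137 i1000 b405 b382 i866 (k8 b344 i880 b125 b349 b271 b35 b197 b1549 (k8 i888 b1642 b318 i852 i905 i469 i629 i792 (k8 b510 b984 b983 i403 i1800 i1801 b2681 b2683 (k8 b804 b65 b345 b383 i218 b427 i1871 i1068 (k4 i1442 i1361 i333 b399 (k1 b2365 k0))))))))) (by decide +kernel)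
def b2685 : PP 8 4 T 0x201000000000000000814000000400000000000000040401400001101055508010408 := rS 0x27d9ec73c229e05c4ec4d0c371a9306675 (k8 b426 i193 b44 b125 i1005 b2671 b0 b331 (k8 b646 b325 i531 i532 b4 i1979 i1075 b427 k0)) (by decide +kernel)
def b2686 : PP 8 4 T 0x201000000000000000800000000400000000000000040001000000000001008000501 := rS 0x218ba6d2da2c20391708c982125b041ac318b15c83d2fac55efc28c3456276894c8015010a4864f5050c0a45 (k8 b2260 b2258 b79 b2661 i756 b355 b486 b317 (k8 b314 b272 i827 b344 b529 b2684 b321 b2674 (k8 b108 b76 b382 i904 b2669 b2680 b75 b273 (k8 b52 b28 b346 b794 b1331 b44 b1150 b2677 (k8 i320 b2685 b461 i1757 i475 i531 b2665 b686 k0))))) (by decide +kernel)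
def b2687 : PP 8 4 T 0x201000000000000000800000000000000000000000040001000000000001008000501 := rS 0x1b17a8708a9846291092c4ed157bf0a30d2794c1ac37217d062b503360a572c900864c012148a05 (k8 b2258 b2260 b64 b317 b44 b355 b272 i866 (k8 i529 b145 b797 b2661 b2684 i919 i904 b2680 (k8 b52 b28 i827 i756 b321 b2674 b108 b76 (k8 b344 b529 b794 b1331 b486 b1150 b2686 i1912 (k4 b2679 i1984 b488 i674 k0))))) (by decide +kernel)
def b2688 : PP 8 4 T 0x1000000000000000014000000000000008000000040002000000011040008000001 := rS 0x33d3e391bb1d147b09bc0b89d8992c5227688ccbe40219b4ec64260080a45 (k8 b2260 b2258 b317 b44 i792 i791 i3018 b355 (k8 b272 i904 i193 b344 b529 b486 b794 b0 (k8 b331 b686 b325 b253 i1892 i531 b4 b374 (k4 i194 i1716 i1979 b427 k0)))) (by decide +kernel)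
def b2689 : PP 8 4 T 0x201000000000000000800000000000000000000000040000000000000001008000501 := rS 0x5396c208736990ec54428d446291092c4ed157bf0a30d27a80a60d618c58ae42f8ad9b052b9648043260088a05 (k8 b2258 b2260 b317 b44 b355 b272 i866 i529 (k8 b145 b797 b2684 i904 b2680 b75 b273 b52 (k8 b28 i827 b2661 i756 b321 b2674 b108 b76 (k8 b344 b529 b794 b1331 b486 b1150 b125 b64 (k8 b2687 i791 i792 i3018 b2688 b488 i1757 i1912 (k1 b2665 k0)))))) (by decide +kernel)
def b2690 : PP 8 4 T 0x101100000002000000000000000000000000000000040040000000000041008010001 := rS 0x8a3c1a0d6f04244c46291092c4ed10697d9a87628c58635369d8c8542c9008657260088a05 (k8 b2258 b2260 b317 b44 i529 b355 b272 i866 (k8 b345 i792 i791 i3018 b125 b52 b273 b75 (k8 b2688 b797 i904 b28 b344 b529 b794 b1331 (k8 b486 b1150 b1235 b488 b325 i1869 b2082 i1632 (k2 b1024 i3083 k0))))) (by decide +kernel)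
def b2691 : PP 8 4 T 0x101100000002000000000000140400000000400000040040540004000041008000001 := rS 0x1756eb345bc4204c13b44045f2010c8a05 (k8 b2258 b2260 b355 b272 i904 b317 b344 b529 (k8 b44 b2690 b78 b461 i474 b2198 i531 b1811 k0)) (by decide +kernel)
def b2692 : PP 8 4 T 0x1000000000000001004000000000000004000001000080000000000041008001001 := rS 0x114288c52212589da2022010c8a05 (k8 b2258 b2260 b355 b272 b317 b344 b529 b794 (k4 b1331 b486 b1150 b905 (k2 i1757 b488 k0))) (by decide +kernel)
def b2693 : PP 8 4 T 0x1000000000000000800000000000000000000000040000000000000001008000501 := rS 0x53040b66d43990ec5488b360a352cac55efc28c349e532010cae4c01035863162b907e8315a800a45 (k8 b2260 b2258 b2661 b2684 i919 i402 b2680 b75 (k8 b273 b52 b28 b317 b44 i529 b355 b272 (k8 i827 i756 b321 b2674 b108 b76 b382 i866 (k8 b125 b145 b797 b2689 b345 i791 i792 b2688 (k4 i3018 b2692 b2690 b2691 (k1 i1912 k0)))))) (by decide +kernel)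
def b2694 : PP 8 4 T 0x201000000000000000000000000400000000000000040001000000000001008000501 := rS 0x5d821962e76380ba867e5a8a592352c89da2ad7e1461a4f5014cae4c013041ac362b90be2b2010d96cd429f48a05 (k8 b2258 b2260 b65 b64 b370 b2693 b355 b272 (k8 b2684 i904 b2680 b75 b52 b28 b346 b317 (k8 b44 i529 i827 b2661 i756 b321 b2674 b108 (k8 b405 b344 b529 i866 b125 i1122 b486 i880 (k8 b804 b337 b2677 b399 i799 b21 i1547 b339 (k2 b2490 b813 k0)))))) (by decide +kernel)
def b2695 : PP 8 4 T 0x201000000000000000000000000400000000000000040000000000000001008000501 := rS 0x5a36a1cc8762a0d4462926084965313b44a20206b0c62c57217c564021b348a05 (k8 b2258 b2260 b370 b355 b272 b2684 i904 b2680 (k8 b75 b273 b52 b28 b317 b2674 b344 b529 (k8 i827 b794 b1331 b44 b486 b1150 b125 b2694 (k4 i791 i792 b2688 i3018 (k2 b2665 b2692 k0))))) (by decide +kernel)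
def b2696 : PP 8 4 T 0x1000000000000001414000000800000001010000000005500000000041008000401 := rS 0x873f2d4525956abdf90d2797c804341a808a05 (k8 b2258 b2260 b2661 i919 b355 b272 i904 i756 (k8 b321 b108 b76 b405 i866 b486 i880 b804 (k2 b2679 b2678 k0))) (by decide +kernel)
def b2697 : PP 8 4 T 0x201000000000000000000000000000000000000000040000000000000001008000501 := rS 0xda87321d8a811531f50acd1a88c52212589da2af7e1461a4f5014c80432b930040d618c58ae415b2c8a05 (k8 b2258 b2260 b2693 b2684 b2680 b75 b273 b52 (k8 b28 b317 b44 i529 b355 b272 i827 b2661 (k8 i756 b321 b2674 b108 b76 b344 b529 b794 (k8 b1331 b486 b1150 b125 b370 b64 b65 b2695 (k4 i1912 b2696 i791 i792 (k2 b2688 i3018 (k1 b488 k0))))))) (by decide +kernel)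
def b2698 : PP 8 4 T 0x111000000000000000500001015000000410000400051000000000000400008000008 := rS 0x126638a2545ad3 (k4 b1893 i1000 b2415 b352 (k2 b55 b71 (k1 b693 k0))) (by decide +kernel)
def b2699 : PP 8 4 T 0x1000000000000008000000000000000000000600000500020000000000008000000 := rS 0x8996cf07b (k4 i1981 i1067 i793 b414 (k1 b330 k0)) (by decide +kernel)
def b2700 : PP 8 4 T 0x1000000000000004014000000001000000000001510000000400115000008011008 := rS 0x45a7824c70ab441e37 (k8 i1005 b403 b344 b314 b189 b536 b427 i1881 (k1 b626 k0)) (by decide +kernel)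
def b2701 : PP 8 4 T 0x1000000002000004000000000001000000000000550000000400110000008010008 := rS 0xc74f849166c1b855a23306b0c62c5 (k8 b75 b273 b52 b28 i193 b344 b314 i1005 (k4 b2700 i555 b1970 b626 (k2 i218 b427 k0))) (by decide +kernel)
def b2702 : PP 8 4 T 0x1000000000000000000000140400000000400000000500540004000004008020000 := rS 0x5baccb6f1 (k4 b78 i1757 i474 b2198 (k1 b1811 k0)) (by decide +kernel)
def b2703 : PP 8 4 T 0x101000000002000000400000001401000010000400040511500000000001008010408 := rS 0x753e338fe39380b91eb5648d556ad30bf21a4f50194d64734c10ae4c (k8 b44 i529 b345 b140 b383 b353 b9 b2661 (k8 i756 b321 b108 b137 b405 b359 b125 i1122 (k8 i880 b349 b2698 b399 i320 i799 b2701 b804 (k2 b2699 i1361 k0)))) (by decide +kernel)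
def b2704 : PP 8 4 T 0x1000000000000000000000000420040000008000001080020021000400008000100 := rS 0x13071 (k2 i796 b628 (k1 i1941 k0)) (by decide +kernel)
def b2705 : PP 8 4 T 0x1000000000000000000000000400000000000000040001000000000001008000501 := rS 0xfa7f380b92e8c3d168ea7608a7598852e9ae088f5aaa5125956984ae4c06b0d8ae41fa0c7a5f58abdf851868ac4ed1299002a021490c9ea065c440a45 (k8 b2260 b2258 b2697 b2693 b2661 i756 b355 b486 (k8 b317 b314 b272 i827 b344 b529 b2684 b321 (k8 b2674 b108 b76 b382 i904 b2669 i919 i402 (k8 b2680 b75 b52 b28 b44 i529 b137 b405 (k8 i866 i190 i1085 i880 b349 b345 b353 b2490 (k8 b1520 b813 i1910 b2702 b2703 i79 b814 i809 (k4 i794 i1817 b2704 b399 (k2 i2558 i1361 (k1 b804 k0))))))))) (by decide +kernel)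
def b2706 : PP 8 4 T 0x1000000000000000000000000400000000000000040000000000000001008000501 := rS 0x369690ecd321da0a541a93162af7e144050d2794c804306b0c62c5720fd062b504448a05 (k8 b2258 b2260 b2697 b2661 b2684 i919 i402 b2680 (k8 b75 b273 b52 b28 b355 b272 i827 i756 (k8 b321 b317 b2674 b108 b76 b382 b44 b125 (k8 b2705 b30 i791 i792 i2551 b2688 b2691 i3018 (k1 b2692 k0))))) (by decide +kernel)
def b2707 : PP 8 4 T 0x101000000002000000400000001001000010420440550500500400000001008010408 := rS 0x16eb32da591438679d136701723d6a4c648d556b156abcc2fc8693d4049 (k8 b2259 b2661 i756 b321 b108 b137 b76 b405 (k8 b382 b359 b125 i1122 b44 i880 b349 b2698 (k8 b399 b420 i1361 b2699 b2701 i195 i321 i1884 (k2 i554 i1902 (k1 b1811 k0))))) (by decide +kernel)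
def b2708 : PP 8 4 T 0x1000000000000101000000002000000400100001000000010000000040001504020000051408010408 := rS 0x8aa652e9b8c9c5246e671e8ea765c9f0fe9d66214ba69239accb0447ad4425913b44e6ad57bf21a4f2b9301ac36297d06a0 (k8 b2661 i919 i904 b75 b52 b28 b44 i529 (k8 i756 b321 b108 b76 b405 i2580 b344 b529 (k8 i866 b1331 i880 b349 b345 b9 b353 b383 (k8 b140 b2490 b2082 b813 i1910 i849 b804 i1330 (k8 b2707 i79 i809 i810 i1630 i1629 i1361 b92 (k4 i1151 b607 b605 b71 (k1 b300 k0))))))) (by decide +kernel)
def b2709 : PP 8 4 T 0x1000000000000000000000000000000000000000040000000000000001008000501 := rS 0x1b4b48766990ed052a2f4234553445962b628c5860d720d4464b14931528957bf0a2028693d40532010c8a05 (k8 b2258 b2260 b355 b272 i827 b2661 i756 b321 (k8 b317 b2674 b108 b76 i190 i1085 b44 b486 (k8 b794 b1150 b125 b2680 b28 b52 b273 b75 (k8 b2684 b2693 b2697 b2706 b122 i1912 i1984 b2708 (k8 b30 i791 i792 i2551 b2688 b2690 i3018 b2692 k0))))) (by decide +kernel)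
def b2710 : PP 8 4 T 0x1000000000000000000000000000000000010000080014500000000801008000400 := rS 0x32cfeb9380d56aad4aaadf90d27a80aa49 (k8 b2259 i1620 b2661 i756 b321 b108 b359 i1673 (k8 b405 i880 b125 b399 i1137 i800 i546 b804 k0)) (by decide +kernel)
def b2711 : PP 8 4 T 0x1000000000000000000000000000000000010000000000000000000081008000501 := rS 0x11a08e4679b69ec75d2197e7e65a093263534505e355aa2556ad1695472f16195c62b7089acb2974da2cc2d11eac5f8518693d4053629a53b181b998245e260088043699140a49 (k8 b2259 b2258 b2260 b1893 b355 b272 b317 b44 (k8 b1549 i905 b2709 i1800 b482 b281 i1623 i1803 (k8 i827 b2661 i756 b321 b2674 b108 b382 i1801 (k8 b344 b137 b318 b983 b984 i866 i629 i469 (k8 i852 i1506 b2615 i371 b35 b271 i1620 i1000 (k8 b405 b359 i190 i880 b125 b2710 b352 b2365 (k8 b55 b133 i333 i545 b804 i1724 i925 i926 (k8 i337 b111 i1681 i1950 b381 b308 b2618 b383 k0)))))))) (by decide +kernel)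
def b2712 : PP 8 4 T 0x1000000000000000000000000000000000000000000000000000000081008000501 := rS 0x451242f3b1c6227c3a95d1e8916985f8518693d40532010c04313334c0a45 (k8 b2260 b2258 b1893 b2709 i1506 b317 b355 b272 (k8 i827 b2661 i756 b321 b2674 b108 b137 i1000 (k8 i190 b349 b2615 i1587 b2711 b65 i1361 b695 (k4 b399 i1629 b352 b71 k0)))) (by decide +kernel)
def b2713 : PP 8 4 T 0x400000000000001000000000000000021000000100000000000000000000000001000000008000000 := rS 0x28dcad3 (k4 b1893 b75 i1654 b428 k0) (by decide +kernel)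
def b2714 : PP 8 4 T 0x1000000000000000008000000000000000000000080000000000010000008000008 := rS 0xcdca05 (k4 b2258 b52 i2068 b623 k0) (by decide +kernel)
def b2715 : PP 8 4 T 0x201000000000000000000000000000000000000000000000000000000001008000501 := rS 0x5331583433f32cc714179f50acd2ba956a891092cb2ad16984aa3d2fac55efc28c3456276894c80151490c9ea0619980435698148a49 (k8 b2259 b2260 b2258 b1893 b125 b317 b2709 b2714 (k8 b2661 i756 b355 b486 b314 b272 i827 b344 (k8 b529 b2712 b321 b2674 b108 b76 b382 i904 (k8 b2669 i1620 b137 i1000 b405 i866 b794 b1331 (k8 i190 i880 i363 b11 b370 b64 b65 b2710 (k8 b352 b55 i545 b804 b337 i1515 b2713 b2677 (k1 b2696 k0))))))) (by decide +kernel)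
def b2716 : PP 8 4 T 0x101000000000000000800000000000000000000000000011100000000000008000000 := rS 0xaf05 (k2 b145 i505 (k1 b345 k0)) (by decide +kernel)
def b2717 : PP 8 4 T 0x1000000000000000000000000400000000000000000004000000000001008000501 := rS 0xf8701725d187a2d3310a5d35c10ec7547930b2612a8f4beb157bf0a30d1589da2530a8a49ea061998043506b15c911118849640219140a49 (k8 b2259 b2258 b2260 b355 b272 b794 b1331 b1150 (k8 b2715 b432 b75 b28 b125 b317 b2709 b2714 (k8 b2661 i756 b486 b314 i827 b344 b529 b2712 (k8 b321 b2674 b108 b76 b382 i904 b2669 i1620 (k8 b137 i866 b44 b349 i1587 b695 b345 b353 (k8 b2490 b1520 b813 b814 i809 i794 i1817 b2704 (k2 b399 b2710 (k1 i1361 k0)))))))) (by decide +kernel)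
def b2718 : PP 8 4 T 0x1000000000000000001000000060010010000200000000000000005501008000000 := rS 0x124711aa9572b5 (k4 i880 i1066 i363 b125 (k2 i796 i2033 (k1 i1590 k0))) (by decide +kernel)
def b2719 : PP 8 4 T 0x1000000000000000000000140400000000400000000400560044000004008020000 := rS 0x2e22c8045 (k4 b2260 b272 b461 b2702 (k1 i531 k0)) (by decide +kernel)
def b2720 : PP 8 4 T 0x1000000000000000000000000400000000000000000000000000000001008000501 := rS 0xb64caccb68a67a74ba8508a6ce02e519a50e333f9dce86b239596a1507931125913b4562af169852aab7e1461a4f298c4be3f418ad40c3330086ac106b15c911118849640219248a05 (k8 b2258 b2260 b2259 b355 b272 b794 b1331 b1150 (k8 b2715 b432 b75 b28 b346 b125 b317 b2709 (k8 b2714 b2661 b2712 i919 i402 i904 i1506 i827 (k8 i756 b321 b2674 b108 b359 i1673 b137 i1000 (k8 b76 b382 b344 b529 i866 i190 b44 b403 (k8 b314 i880 b2717 b882 i2353 i530 i1628 i1665 (k8 i192 i3021 i2963 b579 b2718 b399 b420 b2719 (k8 b2179 b537 i1591 b2699 b2618 i1884 i554 i1938 (k2 b1811 i802 k0))))))))) (by decide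 +kernel)
def b2721 : PP 8 4 T 0x101000000002000000004100000000000011000000080004520020000155008000400 := rS 0x22a2f491c4f87f6617608763aa3d6aad7e4349ea02f8358acb2a965a649 (k8 b2259 b1893 i866 i1620 b2716 b75 b28 i904 (k8 b2661 i756 b321 b108 b405 i880 b349 i1587 (k8 b695 b345 b2490 b813 i849 b804 i1361 i1629 (k2 b399 b71 (k1 b352 k0))))) (by decide +kernel)
def b2722 : PP 8 4 T 0x1000000000000000000000000000000000000000000000000000000001008000501 := rS 0x5b265665b4526ce0cf17175469d199a4fe773a1ac8e5642af50e11533141ac17244586832f8acaa314a9985a6157ac556fc2889cb25310a24980f6885480292588c04438693c6ab5501240a45 (k8 b2260 b2258 b2259 b2661 i880 b125 i756 b321 (k8 b355 b317 b1150 b794 b486 b272 b314 b344 (k8 b403 b44 i190 b1331 i827 i866 b529 b2674 (k8 b108 b359 b382 b76 b137 i1000 b2709 i1673 (k8 i1506 i1620 b2712 i904 i919 b2714 b2715 b432 (k8 b346 b28 b75 b2720 i1912 b2679 i1984 b2179 (k8 b2721 b882 i2353 i530 i1628 i1665 i1583 i192 (k8 i1591 b579 b537 b2718 b2699 b399 b420 b2618 (k4 i1884 i554 i1938 b1811 (k1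 i802 k0)))))))))) (by decide +kernel)
def b2723 : PP 8 4 T 0x1000000000000000000000000000000000000000001000500000000080008000402 := rS 0x26228b337970b68d4ba6c2a13689c4be2f3998c94af58aa49a407e10e1a4f5000e268b1c9240a45 (k8 b2260 b2258 b2259 b271 i452 b376 i23 b2661 (k8 i756 b321 i819 b108 b272 i445 b338 b382 (k8 b76 b348 b449 i1093 i1077 b502 i796 b1367 (k8 i213 i637 b983 b984 i965 i772 b330 b678 (k4 i513 b413 b942 b133 k0))))) (by decide +kernel)
def b2724 : PP 8 4 T 0x1000001000000010000000501400000140000000005000000000000400008000080 := rS 0x26078af (k4 i460 b2397 b455 i1786 k0) (by decide +kernel)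
def b2725 : PP 8 4 T 0x1000000000000000000000000000000000000000000000800000000080008000502 := rS 0x2bd4cb31798d52d158a34205e389cc98132101882fd50185e27b458e48ad3 (k8 b1893 b2260 b271 i452 b379 b35 i961 b2661 (k8 b326 i827 b431 b272 i212 b143 b147 i2555 (k8 i896 i897 i965 i1228 i654 i2268 i536 b399 (k4 i2284 b2724 i2272 i1912 k0)))) (by decide +kernel)
def b2726 : PP 8 4 T 0x1000001000000010000000100000040040400040005240208000000014008000500 := rS 0x11537a6166af86a81522f389240a45 (k8 b2260 b2258 b2259 b669 b399 b2396 b2661 b321 (k4 b454 i514 b1968 b678 (k2 b133 b413 k0))) (by decide +kernel)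
def b2727 : PP 8 4 T 0x1000000000000000000000000000000000000000000000000000000080008000502 := rS 0xaf532dd04972e2c6305b082342a7309b44c64a4497c9a502194d16f1898a44e390ec343ea0308149245 (k8 b2260 b2259 b2258 i961 b2661 i90 b321 i89 (k8 b271 i14 i138 b376 b35 i452 b2725 i819 (k8 b2723 i445 b513 b651 b348 b459 b1367 i213 (k8 b401 i637 i965 b439 i772 b120 i1762 b330 (k4 b26 b2726 i151 i920 (k2 i500 i1912 k0)))))) (by decide +kernel)
def b2728 : PP 8 4 T 0x201000000000000010004000000400010004000040055001500000000041008011400 := rS 0x2e12705649f88c6c65ad44657669650a7d54aad5a3d58abdf90d1397c524f1090086a0628548a05 (k8 b2258 b2260 b230 b481 b2661 i819 b272 i743 (k8 i756 b486 i904 b2380 b321 b108 b76 b382 (k8 b2669 b405 b359 b338 b65 b64 b361 b370 (k8 b11 b296 i880 b2671 b488 b2481 b804 i671 (k4 b383 i1638 b165 b737 k0))))) (by decide +kernel)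
def b2729 : PP 8 4 T 0x11002000000000010000000000000000040000050005200100000000000008000000 := rS 0x451306f59a3552af4da5d6249 (k8 b2259 b382 b984 b983 b76 b338 i1846 i513 (k4 b678 b942 b413 b133 k0)) (by decide +kernel)
def b2730 : PP 8 4 T 0x201000000000000010004000000400010000000000041101510000000041008010400 := rS 0x10e0d2b8a4be402198c3e1d3288ce6a97e4349ea0251240a45 (k8 b2260 b2258 b2259 b348 b2661 i756 b321 b108 (k8 b338 i1093 b296 b2393 i89 i90 b459 i819 (k4 b272 i904 b486 b11 (k2 b641 b646 (k1 b2728 k0))))) (by decide +kernel)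
def b2731 : PP 8 4 T 0x201000000000000000004000000000000004000000000002000040000041108010000 := rS 0x1b446cd428a44e5f200348a05 (k8 b2258 b2260 i1489 b272 i904 b2380 b486 b64 (k4 b370 b296 i1697 b488 k0)) (by decide +kernel)
def b2732 : PP 8 4 T 0x201000000001000010004000000400000000000000041000500000000041008010402 := rS 0x18cf03644d0c4610c14a8570799446272f9012a752e9c45e7354928c61f0ea2c524d21bf09f0d500148a49 (k8 b2259 b2260 b2258 b2661 b321 i756 b108 i819 (k8 i445 b486 b480 i89 i90 b459 b348 b338 (k8 i1093 i1077 i796 b2729 b426 b643 b272 i904 (k8 b2380 b296 b2393 i338 b11 b2730 b30 b1684 (k4 b1682 b2731 b0 b686 (k2 b325 i1695 (k1 b4 k0))))))) (by decide +kernel)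
def b2733 : PP 8 4 T 0x1000000001000000800000000140000000000000000000000000000000008004000 := rS 0x30686d3 (k4 b1893 b79 i1246 b428 k0) (by decide +kernel)
def b2734 : PP 8 4 T 0x201000000001000000000000000040000000000000000001500000000001008000400 := rS 0x60d0cfc215a95cb27d56bf21a4f6583c804352a81a645 (k8 b2260 b1893 b2661 i363 i819 b272 i338 b2733 (k8 i756 b321 b108 b405 b65 b361 b11 i880 (k4 i743 b804 b337 i1515 (k1 b428 k0)))) (by decide +kernel)
def b2735 : PP 8 4 T 0x201000000001000010000000000400000000000000041000500000000041008010402 := rS 0x795b4491ab32d9a88c218295196a3611754a832bb3562af458a41e5f2018c3e1d3288ce64a2690ce22f54bf21a4f501240a45 (k8 b2260 b2258 b2259 b2661 i756 b321 b108 b338 (k8 i1077 i796 i819 i445 b348 i1093 b296 b2393 (k8 i89 i90 b459 b272 i904 i338 b486 b480 (k8 b76 b382 b370 b11 i919 i363 b2729 b2732 (k8 i328 b2733 b2734 b30 b1684 b1682 i211 i1962 (k4 i633 i1965 b330 b1811 (k2 b414 b1211 k0))))))) (by decide +kernel)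
def b2736 : PP 8 4 T 0x201000000001000020004000000000000000000000000001500000000041008010400 := rS 0x45e0a9e191198c38629b1e20d5121c42232bb34b2853eaac7ab157bf21a272f900524327a82325d1b8548a05 (k8 b2258 b2260 b230 i991 b306 b292 b2661 i756 (k8 i819 b486 b272 i904 b2380 b321 b108 b76 (k8 b382 b2669 b359 b65 b64 b361 b370 b11 (k8 b296 i743 b646 b2734 b2662 b1720 b488 i1654 (k8 b357 b1586 b2481 i298 i299 b383 b80 b217 k0))))) (by decide +kernel)
def b2737 : PP 8 4 T 0x201000000001000020004000000000000000000000000000500000000041008010402 := rS 0xed164303443052a1650a29079949a238c9e4be4021a808a05 (k8 b2258 b2260 b2661 i819 b272 i904 i1072 b292 (k8 b296 i445 b2393 i338 b486 b64 b361 b2736 (k4 b30 b1684 i1489 b2731 (k2 b681 b198 (k1 b21 k0))))) (by decide +kernel)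
def b2738 : PP 8 4 T 0x201000000001000000000000000400000000000000041000500000000041008010402 := rS 0x118d6218295146c2681641e652688c4e5f2010d4045 (k8 b2260 b2661 i819 b272 i904 b2380 b296 i445 (k8 b2393 i338 b361 b2735 b2737 i328 b2734 b30 (k4 b1684 b451 b1502 i211 k0))) (by decide +kernel)
def b2739 : PP 8 4 T 0x201000000002000010000000000400000000000010041000510000000041008010400 := rS 0xc88ec9781b2268682950ba7b1ab3516293187c3a651189cbe4021a54e6a97e13c950d501d58631109248a05 (k8 b2258 b2260 b2259 b130 b273 b52 b426 b2661 (k8 b321 b348 i756 b108 b338 i1093 b643 i819 (k8 b272 i904 b2380 b296 b2393 i89 i90 b459 (k8 b486 b480 b370 b125 b637 b2729 b2730 b30 (k8 b2731 b0 b686 b325 i671 b1028 b2076 b538 k0))))) (by decide +kernel)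
def b2740 : PP 8 4 T 0x201000000002000020000000000000000004000000040000000040000041008010002 := rS 0x117648ca0a3863119e2cd428a4ca4d1189cbe4061b1443191b8548a05 (k8 b2258 b2260 b230 i991 b292 b130 b75 b52 (k8 b272 i904 b2380 b296 i445 b2393 b486 b64 (k8 b370 b1720 b2481 i2032 b357 b383 i298 b1228 (k2 b80 b339 k0)))) (by decide +kernel)
def b2741 : PP 8 4 T 0x201000000000000000000000000400000000000000041000500000000041008010402 := rS 0x116829d8a8863c97632d061835c8232ca14524d2f900867117aa5f90d27a808a05 (k8 b2258 b2260 b2661 i756 b321 b108 b338 i1077 (k8 i796 i819 b272 i904 i445 b486 b64 b361 (k8 b296 b2738 b28 b52 b2739 b292 b306 i1072 (k4 b2740 b646 b198 b30 (k2 b681 b21 k0))))) (by decide +kernel)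
def b2742 : PP 8 4 T 0x201000000000000000000000000400000000000000041000500000000041008000402 := rS 0x5c688407e8358abd16293187c3a73251344e5f2010ce22f54bf21a4f501149205 (k8 b2258 b2259 b2260 b2661 i756 b321 b108 b338 (k8 i1077 i796 i819 b272 i904 b2380 i445 b348 (k8 i1093 i89 i90 b459 b486 b480 b76 b382 (k4 i919 i402 b2741 b309 (k2 b2702 b2729 k0))))) (by decide +kernel)
def b2743 : PP 8 4 T 0x201000000000000010004000000800000000000000040101510000000041008000400 := rS 0x3f2f996c6363150e0d10ad42a232bb34b2853e8a55a272f900861157bf21a4f502f48a05 (k8 b2258 b2260 i1984 b2661 i756 b321 b108 b76 (k8 i1912 i819 b272 i904 b2380 b405 b486 b65 (k8 b64 b361 b370 b11 b296 b230 i880 i743 (k8 b641 b646 b481 b488 i2032 i674 i337 b804 (k1 i1723 k0))))) (by decide +kernel)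
def b2744 : PP 8 4 T 0x201000000000000010004000000800000000000000040100500000000041008000402 := rS 0x2847e64ad9966c89a1843052a20d9a2955ab41e5f2018c3e1d3288d2a71179cd524a2690cea1157bf21a4f501240a45 (k8 b2260 b2258 b2259 b2661 i756 b321 b108 b76 (k8 i1912 b426 i819 i445 b348 b338 i1093 i1077 (k8 i796 b643 b296 b2393 i89 i90 b459 b272 (k8 i904 i338 b405 b359 b486 b370 i919 b2743 (k8 b30 b1684 b2731 b0 b686 b505 b256 i671 (k2 i856 b745 (k1 b337 k0))))))) (by decide +kernel)
def b2745 : PP 8 4 T 0x1000000000000010008040141880010040000000005000000000000000008004002 := rS 0x118d6ca5923532375e2fc62c7 (k8 i117 i1651 i1719 i329 i1957 i1991 i964 b455 (k4 i1413 i634 b224 i211 k0)) (by decide +kernel)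
def b2746 : PP 8 4 T 0x201000000000000010000000000000000000000000041000500000000041008000402 := rS 0xf0b689235665b3511843052a32d46bb72b08baa54195d9ab157a2c520f2f900c61f0e9944695388bce6a97e13c944d21c354075531240a45 (k8 b2260 b2258 b2259 b2742 b426 b2661 b321 i819 (k8 i445 b348 i756 b108 b338 i1093 i1077 i796 (k8 b643 b296 b2393 i89 i90 b459 b272 i904 (k8 i338 b486 b480 b76 b382 b370 b11 i919 (k8 i363 b2729 b2744 b52 i1945 b2745 b2733 b2734 (k8 b30 b1684 b1682 i211 i1962 i633 i1965 b330 (k2 b1811 b1211 (k1 b414 k0)))))))) (by decide +kernel)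
def b2747 : PP 8 4 T 0x201000000000000020004000000000000000000000040000500000000041008010402 := rS 0x8b414ec5443035c8232ca1453192e9e4be4021a808a05 (k8 b2258 b2260 b2661 i819 b272 i904 i1072 b306 (k8 b292 b486 b64 b361 b296 b2737 b28 b2740 (k4 b646 b198 b30 b681 (k1 b21 k0)))) (by decide +kernel)
def b2748 : PP 8 4 T 0x1100000000000020008000000000000000000000000010000020000004008005000 := rS 0x6b (k2 b451 b473 k0) (by decide +kernel)
def b2749 : PP 8 4 T 0x201000000000000020008000000000000000000000040001500000000005008000402 := rS 0xb88b32d930418a4c1aa2108d4ae593eaad162907900c61f0e9944695388bce6a97e13c944d21c354075729240a45 (k8 b2260 b2258 b2259 b52 b426 b2661 b321 i819 (k8 i445 b348 i756 b108 b338 i1093 i1077 i796 (k8 b643 b296 b2393 i89 i90 b459 b272 i338 (k8 b486 b480 b359 b65 b361 b11 b125 i743 (k8 b2734 b2662 i1634 i1651 b2748 b288 b145 b688 (k2 b165 b387 k0)))))) (by decide +kernel)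
def b2750 : PP 8 4 T 0x201000000000000000000000000000000000000000041000500000000041008000402 := rS 0x3043052a309a0115309cca5f07abc9a407e10e1a4f5008cb245 (k8 b2260 b361 b296 b2661 i756 b321 i819 b108 (k8 b272 i445 b76 i338 i904 b2393 b2380 b2742 (k8 i1912 b2746 b2747 b2749 b30 b1684 b2748 i1489 k0))) (by decide +kernel)
def b2751 : PP 8 4 T 0x201100000000000000404000800000014000400000045800000010000051008000082 := rS 0xaa5dab50c4732ae4422366a141ec92caa5e113139308445 (k8 b2260 b272 b143 b1725 b362 b325 i2268 b361 (k8 i613 i599 b64 b370 b296 b1867 b737 b2518 (k4 b2524 b1720 i1226 i1684 (k2 i2040 i666 k0)))) (by decide +kernel)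
def b2752 : PP 8 4 T 0x1201000000000000000008801000400008400000045000000000000000008000000 := rS 0x172ab5f2ed2714 (k4 b342 b71 i1684 i857 (k2 i666 i1457 (k1 b1107 k0))) (by decide +kernel)
def b2753 : PP 8 4 T 0x201000000000000010004000040000000040000000041800800010000041008000482 := rS 0x2a972c0180810ead32c116cb258a347a3763b15e1130ea95062366a15962764965129538c3540751497496934cc50c6737eaa498424db4c0a45 (k8 b2260 b2258 b1893 b983 b272 b143 i2268 b326 (k8 b147 i536 b342 b133 b71 i2267 i2259 b1296 (k8 b426 b2661 b321 i2555 b643 i279 b361 i613 (k8 b1725 i621 b64 b370 b296 i919 i363 i89 (k8 b362 b325 b297 b4 b374 b324 i964 i1227 (k8 b455 i662 b2751 b9 b118 b2752 b1633 b82 (k4 b672 i987 b212 i1514 k0))))))) (by decide +kernel)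
def b2754 : PP 8 4 T 0x201000000000000000004000000000000004000000020000000000000055108010002 := rS 0x6c181181a0311b350a45 (k8 b2260 b64 b370 b296 i23 i1492 i963 i962 (k2 b488 i3013 k0)) (by decide +kernel)
def b2755 : PP 8 4 T 0x1000000000000010000000000000000040008000000040000000000000008000000 := rS 0x11b19 (k2 b92 i1815 (k1 b120 k0)) (by decide +kernel)
def b2756 : PP 8 4 T 0x201100000000000010004000000000000000004000040401020000000051008014002 := rS 0x7767c58ca6b093c4428f0a88d9a853a89d925945a1cba45 (k8 b2260 i2259 b646 i451 b361 i613 b1725 b426 (k8 b64 b370 b296 b230 b349 b1867 b1720 b439 (k4 i1960 b2754 b339 b36 (k2 b21 b635 k0)))) (by decide +kernel)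
def b2757 : PP 8 4 T 0x201000000000000010004000040000000000000000041000800010000041008010482 := rS 0x154b9600c040c5361a55a4735996087b4397d161d52854465766a141ecb2a96c4ec92caa51295389ce1aa03a8a4ba4c2112da645 (k8 b2260 b1893 i2267 b272 b143 i2259 b1296 b426 (k8 b2661 b321 b147 i2555 b643 i279 i2268 b361 (k8 i613 b1725 b81 b310 i621 i599 b64 b370 (k8 b11 b296 b230 i363 i89 i451 b2753 b646 (k8 b2755 b2756 b9 b353 b383 b118 b140 b614 (k4 i1522 b2481 b82 b672 (k2 i987 b212 (k1 i1514 k0)))))))) (by decide +kernel)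
def b2758 : PP 8 4 T 0x201000000000000010004000040000000000000000040000800000000001008000500 := rS 0x63b14669d8b19443051c465148759ac51a5f0800c56232bb350a0f65954b62764964525d25a6628633998400a92610882067e8148ad3 (k8 b1893 b2260 b2258 b326 b431 i827 b272 b143 (k8 i2268 b2722 i961 b147 i536 b342 b133 i2267 (k8 i2259 b1296 b361 i613 b1725 b81 b310 i621 (k8 i599 b64 b370 b11 b296 b2727 i23 b2757 (k8 i470 i1760 i1762 i2284 b646 b455 b279 i452 (k8 b2273 b1867 b1875 b339 b313 b80 i1879 i298 (k1 i2032 k0))))))) (by decide +kernel)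
def b2759 : PP 8 4 T 0x1000000001000000000020000140000000000000000000000000010000008000000 := rS 0x30686d3 (k4 b1893 b422 i1250 b428 k0) (by decide +kernel)
def b2760 : PP 8 4 T 0x201100000000000000400010004000014000000000045800000010000041008000080 := rS 0x2b08e6566a159259549308445 (k8 b2260 b272 b143 i2268 b361 i613 b64 b370 (k4 b2518 b2524 i2040 i1226 k0)) (by decide +kernel)
def b2761 : PP 8 4 T 0x201100000000000010008000000001000440005000020501000000000000008004002 := rS 0x8d351dd9e0d01b350a75 (k8 b426 b64 b370 i23 i1492 i2636 i1547 b473 (k2 i1964 b697 k0)) (by decide +kernel)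
def b2762 : PP 8 4 T 0x201100000000000010108000000001000440000000040541000000000000008004002 := rS 0x679de2c9f329ed9a853aa1cf312 (k8 b330 b414 b646 b426 b64 b370 b2755 b2761 (k4 b626 b339 b21 b36 (k1 b388 k0))) (by decide +kernel)
def b2763 : PP 8 4 T 0x201000000000000010000000000400000000000000040000800000000001008000500 := rS 0x2b08e6509a28bf055caad469da7b958ac2478d54a031583d96552d97592594a9c61aa03aa4e28633998400a92610882af033f5a645 (k8 b2260 b1893 b326 b431 i460 i827 b272 b143 (k8 i2268 b2722 i961 b147 i536 b342 b71 b426 (k8 b2661 b321 i2555 b643 b361 i613 i2259 b81 (k8 b310 i621 i599 b2727 i23 i363 b125 b349 (k8 b2758 i116 b52 b135 i1906 i328 b2628 b2759 (k8 b1171 b2760 b2762 i1882 b158 i210 i2040 i1226 k0)))))) (by decide +kernel)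
def b2764 : PP 8 4 T 0x10201100000000000000004000000000000000001000040800000010000051008004002 := rS 0xed1643194422366a15925962b1de113139308445 (k8 b2260 b272 b143 b1725 b362 b325 b4 b297 (k8 b361 i613 b64 b370 b296 b1867 b2518 i2032 (k2 b339 b198 (k1 b21 k0)))) (by decide +kernel)
def b2765 : PP 8 4 T 0x201000000000000020004000000000000000000000040000800000000001108000500 := rS 0xab5c83536e4a20cd66764f2ed0c3541a8046cd42b253314319ccc2a908b158eb11ebc2262732c10bc798c8a4ba4c2112c1ecb2c819fa4115801a645 (k8 b2260 b1893 b2722 b2727 i827 b326 b431 b361 (k8 i621 i599 i2267 b272 b143 i2259 b1296 b292 (k8 i1071 i653 b2764 b9 b1725 b362 b325 b324 (k8 i1227 b4 b297 b309 i2268 i961 b147 i536 (k8 b342 b133 i613 b64 b370 b296 b2661 i919 (k8 b125 i2032 i1684 b680 b198 b225 i1711 b164 (k4 b640 b351 b28 i1189 (k2 b573 b1171 k0)))))))) (by decide +kernel)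
def b2766 : PP 8 4 T 0x201000000000000020004000000000000000000000040000800000000001008000500 := rS 0x2ad72c018082081d52a80c22b07b2cb2a9319cc525d00464f24b033f4bc4c21105a645 (k8 b2260 b1893 i827 b272 b143 i653 b326 b431 (k8 i2267 i1071 b292 b2722 i2259 b1296 b147 i536 (k8 i2268 b361 i621 i599 b2727 i961 b2661 i363 (k8 i89 b2764 b2765 b82 b672 i987 i1514 b1171 k0)))) (by decide +kernel)
def b2767 : PP 8 4 T 0x201000000000000000000000000400000000000000040000800000000001008000500 := rS 0x172ab32ab54669a7b9584b11ebc2265e35b406aa51583d9627649652a7186a80ea292e92d2714319ccc200549308441033f5a645 (k8 b2260 b1893 b326 b431 i827 b272 b143 i2268 (k8 b2722 i961 b147 i536 b342 b71 i2267 i2259 (k8 b1296 b426 b2661 b321 i2555 b643 b361 i613 (k8 b1725 i621 i599 b2727 i363 b125 b2763 i2425 (k8 i653 b362 b325 b324 i1227 b2766 b52 b135 (k4 i1829 i328 b191 i1167 (k2 b2628 b2759 (k1 i2040 k0)))))))) (by decide +kernel)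
def b2768 : PP 8 4 T 0x201000000000000000004000000000000000000000040000800000000001008000500 := rS 0x286ad513058c2155b160a6a34a1c206d2fab9a2bd1588caecd4283d96592a96c4e292e93084410012c0cfd1ea99a645 (k8 b2260 b1893 b2767 i94 b326 b431 i2267 b2722 (k8 i827 b272 b143 i2259 b1296 b1725 b81 b310 (k8 b361 i621 i599 b64 b370 b11 b296 b2727 (k8 i1984 b2766 b2758 i2272 i2273 i459 b646 i3098 (k8 b614 b353 i1790 i586 b1867 i2032 i1694 i336 (k2 b694 b98 (k1 b433 k0))))))) (by decide +kernel)
def b2769 : PP 8 4 T 0x1000000000000010508000101900114000000000045810000000010000008000082 := rS 0x655caad5a4751ac95e6b45a346ee5a79a41ebb (k8 i1945 i599 i1829 b135 b52 i1916 i964 b318 (k8 i629 i2272 b455 b2745 i211 b191 i666 b2759 (k2 i963 i2040 k0))) (by decide +kernel)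
def b2770 : PP 8 4 T 0x1000000000000000508000001000014000000000044000000000000000008020182 := rS 0xb9569955705061a80661 (k8 i961 i23 i1952 i1953 b353 i2271 i1492 i1494 (k2 b737 i2040 k0)) (by decide +kernel)
def b2771 : PP 8 4 T 0x201000000000000000000000000000000000000000040000800000000001008000500 := rS 0x2e4caa3682ad5abd2f2c822bb34b9584b1a2a9932938a254c6a9649c4e64c079080ccb20bf61a3552a80c2002c9d5a645 (k8 b2260 b1893 b426 b361 b2722 i961 b2661 i363 (k8 b125 b321 b326 i827 i621 b431 b272 i599 (k8 b143 b147 i2555 i613 i2268 i536 b643 b342 (k8 b71 b133 b2767 b122 i1822 b2768 b52 i1829 (k8 i1945 b2770 b164 i661 i1413 i1434 i666 b2769 (k4 i329 i1167 b2759 i2040 k0)))))) (by decide +kernel)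
def b2772 : PP 8 4 T 0x201101000000000010004000000400000000000000040000000000000001008010500 := rS 0xb22e16d0c6d06b2172994babe8514030d506cd42b2d26ad3eaacae8b14928c61f0e89cbea917a54e689389405661869d4420f201949a4329a80002322b4c0a49 (k8 b2259 b2258 b1893 b2260 b296 b2722 b2661 b2771 (k8 i819 i445 b2393 b272 i338 b1684 b426 b321 (k8 i961 b2727 b2750 b669 b651 b401 b643 b399 (k8 b2396 b513 b2380 i89 i90 b459 b348 b486 (k8 b480 b11 i497 b65 i1313 b671 b567 b64 (k8 b370 i919 b125 b431 b342 b433 i460 b364 (k8 b133 b422 i2040 i464 i671 b488 i778 b686 (k2 b1968 i514 k0)))))))) (by decide +kernel)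
def b2773 : PP 8 4 T 0x1100000000000000500000015000014000000000055000000000000000008000000 := rS 0xb8 (k2 i2040 b737 k0) (by decide +kernel)
def b2774 : PP 8 4 T 0x201100000000000010004000000400000000000000040000000000000001008010500 := rS 0x218da0d6417562fc108d506cd428a59693569f556570798c3e1d3288c4e5f202a45e9539a249a4338940a62b308021aa03a915a605 (k8 b2258 b1893 b2260 b426 b2661 b321 b2722 i961 (k8 b2727 b2771 b2750 b669 i819 i445 b651 b401 (k8 b643 b399 b2396 b272 b513 b2380 b296 b2393 (k8 i89 i90 b459 i338 b11 i497 b65 i1313 (k8 b671 b567 b486 b64 b370 i919 b125 b1684 (k8 b2772 b382 b509 b2773 i464 i671 b488 b686 k0)))))) (by decide +kernel)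
def b2775 : PP 8 4 T 0x201000000000000010004000000400000000000000040000000000000001008010500 := rS 0x1a213491caa6b8208caecd2ca14524d2f94056610003c804329a808a05 (k8 b2258 b2260 b2661 b2771 i819 b272 i338 b2722 (k8 i961 b2727 b2750 b513 i445 b486 b64 b361 (k8 b370 b11 b296 b2774 b353 b30 b383 b140 (k2 i743 b641 (k1 b1749 k0))))) (by decide +kernel)
def b2776 : PP 8 4 T 0x201000000000000010004000000400000000000000040000000000000001008000500 := rS 0xf68a984babd66b14696de2104d80c7e83458a4c64d0f8761a272f90086a0548bce250298acc200699240a45 (k8 b2260 b2258 b2259 b1893 b2722 i961 b2727 b2771 (k8 b2750 b669 b399 b2396 b2661 i819 b272 b513 (k8 b2380 b321 i89 i90 i445 b459 b486 b480 (k8 i919 i402 i23 b983 b2775 b78 i1757 i1760 (k8 i1762 i474 b454 b984 b936 b275 i1786 b408 k0))))) (by decide +kernel)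
def b2777 : PP 8 4 T 0x1100000000000021404000015000014001001000055010000020000055408000002 := rS 0x38633c50ec54f835906b108d41f19088dc2a45 (k8 b2260 b230 i991 b309 b292 i338 b125 b1684 (k8 b451 b2773 i464 i1186 b481 b680 b1720 i2032 (k2 b357 i299 k0))) (by decide +kernel)
def b2778 : PP 8 4 T 0x201000000000000020404000015000014000000000045400000040000041008000002 := rS 0x18ee56221c4269239560879089742a57669650a29079949a23139008a05 (k8 b2258 b2260 b272 b2380 b296 i445 b2393 i338 (k8 b486 b64 b361 b370 b11 b230 b306 b309 (k8 i1072 b2777 b30 b383 b140 i743 b646 b2481 (k2 b2740 i141 (k1 b832 k0))))) (by decide +kernel)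
def b2779 : PP 8 4 T 0x1000000000000011204000000000000001000000000500000020000011408010002 := rS 0x86368346a45 (k4 b2260 b125 i464 i671 (k2 b489 b686 k0)) (by decide +kernel)
def b2780 : PP 8 4 T 0x1000000000000011004000115020010001000000054000200021000051408010102 := rS 0x10ec51091caac1a1c1170c92e8746aa530a0d96931397da645 (k8 b2260 b1893 b513 b2380 b671 b567 i919 i961 (k8 i363 b125 i89 b509 b2779 i2040 b2773 b422 (k4 i1250 b30 b383 b672 (k2 b2713 b646 (k1 b2481 k0))))) (by decide +kernel)
def b2781 : PP 8 4 T 0x201000000000000000004000000000000000000000040000000000000001008000500 := rS 0x2b9e210588f54cd141b350a2965a4d5a7d5595cc61f0e99446272f901522f4a9cd124d219c4a05315984010d501d40a45 (k8 b2260 b2258 b426 b2661 b321 b2722 i961 b2727 (k8 b2771 b2750 b669 i819 i445 b651 b401 b643 (k8 b399 b2396 b272 b513 b2380 b296 b2393 i89 (k8 i90 b459 b11 i497 b65 i1313 b671 b567 (k8 b486 b64 b370 i919 b2778 b2776 i94 i1822 (k4 b2780 b78 i1912 b454 k0)))))) (by decide +kernel)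
def b2782 : PP 8 4 T 0x1000000000000000208000000000000040000000000000000020000005008000000 := rS 0x198c41b17828d41ee5 (k8 b52 i338 b125 b322 b336 i464 i983 b2464 (k1 b335 k0)) (by decide +kernel)
def b2783 : PP 8 4 T 0x201000000000000000000000000000000000000000040000000000000001008000500 := rS 0x318bae192c24aaa4e62717994c68b44aad5a5f38a4d964d200a4a043299d4fa57118761a1f1aa954061158000a45 (k8 b2260 b2258 b2722 b2727 i961 b2661 i363 b125 (k8 i90 b321 i89 b296 b11 b65 b426 b2771 (k8 i819 b2750 b486 b272 i445 b567 b671 b669 (k8 b513 i1313 i497 b651 b480 b459 b2393 b399 (k8 b2380 b401 b2396 b643 b2781 b2782 i2040 b387 (k2 i987 b688 k0)))))) (by decide +kernel)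
def b2784 : PP 8 4 T 0x1000000000000000804000800100000000000000000800900000000041008000002 := rS 0x19a8543884460d369f4b105138a4968b07930844135ad88a05 (k8 b2258 b2260 i662 i2427 i904 b272 b143 b1677 (k8 b318 b436 b1726 b93 b145 i621 i1327 i2449 (k4 i466 b1888 b1867 i930 (k2 i1935 i891 (k1 b1690 k0))))) (by decide +kernel)
def b2785 : PP 8 4 T 0x101000000000000000000000000000000000000000020000020000000001008000002 := rS 0x3944621184140a45 (k8 b2260 b2258 b9 i962 b1676 b1888 b273 b432 k0) (by decide +kernel)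
def b2786 : PP 8 4 T 0x1100000000000010400000000000000000000000040800000000000001008000500 := rS 0xc9569dd828755b90b02111c351eb52d9541e5749a54cb1135ac91a3757a0d33147e984c67354931623d780a4968b8989c0c522110456005034c8a05 (k8 b2258 b2260 b1893 b2661 b2722 b2727 i904 b272 (k8 i819 i820 b93 b362 b318 b436 b1726 b325 (k8 b324 i1227 b143 i2268 b147 i536 i961 b326 (k8 b342 b133 i919 i590 b374 i964 b455 i2427 (k8 b2783 b2785 b435 b71 i2258 b1677 b310 i36 (k8 i880 b349 b321 b1888 b1867 b345 b432 i582 (k4 i930 b346 b1024 b694 (k2 i614 b693 k0)))))))) (by decide +kernel)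
def b2787 : PP 8 4 T 0x1000000000000010004000000000000000000000040800000000000001008000500 := rS 0x2169ece36b350e598232d6cb24da3d4a5157a0cae998a3f4c26339949528d1bac47af01492d171313819406526108822b888008a05 (k8 b2258 b2260 b2722 b2783 b2727 i904 b272 b143 (k8 b2785 b2661 i820 b93 b362 b318 b436 b1726 (k8 b325 b324 i1227 b374 i964 i2268 i819 b147 (k8 i536 i961 b326 b342 b133 i2258 i919 i590 (k8 b513 i363 b349 b983 b455 i662 b2784 b2786 (k8 b43 b2752 i890 b2592 b1169 b412 i1871 b402 k0)))))) (by decide +kernel)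
def b2788 : PP 8 4 T 0x1000000000000000804000000100000000100000400800800000000041008000002 := rS 0xcd42a1c4223069b4fc588289c222925a2c1e4c211048a05 (k8 b2258 b2260 i904 b272 b143 b1677 b318 b436 (k8 b1726 i470 b93 b145 i621 i622 i2449 i466 (k4 b1888 b1867 i930 i1670 (k2 i891 b488 k0)))) (by decide +kernel)
def b2789 : PP 8 4 T 0x1100002000000000400000001000014040000000444041024000000001008000500 := rS 0xda76642b582ab7216042235aa80c2290795ccb110034c8a05 (k8 b2258 b2260 b1893 b2722 b2783 b2785 i2258 b1677 (k8 b1726 i961 b2661 i880 b1888 b1867 b345 b432 (k4 i582 b346 b694 b2773 (k2 i614 i2448 (k1 b2545 k0))))) (by decide +kernel)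
def b2790 : PP 8 4 T 0x501201000000000005400000005020000000009000055000000000000055408000000 := rS 0x1444d2dd3c8610a157ec13b2e03b0d478d54ab541b158ef049a5502978a3255ad3 (k8 b1893 b118 b288 b342 b364 i1893 b435 b71 (k8 b325 b4 b297 i919 i880 i363 b125 b349 (k8 b321 i89 b1171 b693 i1250 i1458 i1632 b672 (k4 b179 i818 i857 i1189 (k2 b368 b351 k0))))) (by decide +kernel)
def b2791 : PP 8 4 T 0x401201000000000005400000001000000000009000054000000000000015408000500 := rS 0xe51083182aa0ea9540611580222d3 (k8 b1893 b2783 b2722 b2727 i961 b2661 i363 i89 (k4 b2790 i1514 b573 b672 (k2 b28 b432 k0))) (by decide +kernel)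
def b2792 : PP 8 4 T 0x1000000000000000004000000000000000000000040800000000000001008000500 := rS 0x1547c3b8899acf56965930465a04f47935b40ca9549a5e28f07e98d5257149480c732612caa422089cb71345c351ea55aa80c22b004440a45 (k8 b2260 b2258 b2783 b2722 b2727 i961 b2661 i880 (k8 i363 b349 b321 b318 b362 i36 b93 i904 (k8 b272 b310 b436 b143 b147 i820 i819 b1726 (k8 i2258 i2268 i536 b326 b325 b342 b364 b71 (k8 b435 b2785 b2787 i2425 i1071 i654 i1893 b2788 (k8 b2789 b288 b43 b118 i1147 i890 b2791 b356 (k2 i312 b693 (k1 i1595 k0)))))))) (by decide +kernel)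
def b2793 : PP 8 4 T 0x101000000000000000000000000000000000000000020000000000000001408000002 := rS 0x4c (k2 b2393 b2785 k0) (by decide +kernel)
def b2794 : PP 8 4 T 0x1000000000000011814000401000100005000001054000000004000055108001102 := rS 0x22c32648e114af58a35769d08318066111c148a05 (k8 b2258 b2260 b145 b1888 i961 i23 i2032 b488 (k8 b280 i1680 i1760 i1762 i626 b455 i452 i618 (k2 i298 b339 (k1 b80 k0)))) (by decide +kernel)
def b2795 : PP 8 4 T 0x101000000000000010804000000020000000000000040400020000000041008000102 := rS 0xa2ac55eb634aed98998a314dab37e98d0e8572148e65b1495442a92e9084e0f259847e0d529f8fa51a1c356a6511c148a05 (k8 b2258 b2260 b145 b1888 b2793 i880 b321 b79 (k8 b567 i1327 b315 i363 i466 i402 i961 i51 (k8 b1677 b1725 i445 i2259 i2416 b1867 i792 b1296 (k8 b81 b147 i819 b1863 b1520 b646 i536 b326 (k8 i661 i2449 b75 b342 b133 b2794 i1949 i1830 (k4 i848 i626 i1394 b70 (k1 b395 k0))))))) (by decide +kernel)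
def b2796 : PP 8 4 T 0x111000000000000011804000141000000000480010005500010000000001008001002 := rS 0x112431b0470514a2c94542c9008651429140a49 (k8 b2259 b2258 b2260 b1520 b567 b143 b272 i866 (k8 b2716 b348 b1709 b486 b145 b1888 b683 i1697 (k2 b505 b0 k0))) (by decide +kernel)
def b2797 : PP 8 4 T 0x1000000000000010804000000000000000000000040000000000000001008000500 := rS 0x1668d5fad8f26a43b30ba71179d55eb154951f859299cd164031928864d329f8460d3e9460b430ec343e4f52ad4c2831580141112f8148a49 (k8 b2259 b2260 b2258 b2792 b2783 b2661 b2722 b2727 (k8 i919 i961 i880 i363 i756 i90 b321 i89 (k8 b79 b145 b567 i1327 i466 b1888 b315 b2793 (k8 b2795 b143 b348 b459 b272 b1709 i1094 i827 (k8 i866 b108 b2716 b338 b382 b76 i1539 i1077 (k8 i796 b2729 b2796 i129 i770 i1973 i848 i1723 (k2 i1965 i634 (k1 b1211 k0)))))))) (by decide +kernel)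
def b2798 : PP 8 4 T 0x1100000000000010004000000000000000000000040000020000000001008000500 := rS 0xb053841e2c6669ed1a8b3b32126a356a56286d559fd8a0d608bd66fd5498cb08742b90e252031ccb6292a884ae5d209084e0f25c356aa001984565f65994471100115a605 (k8 b2258 b1893 b2260 b2722 b2783 b1888 b2793 b2797 (k8 b2792 b2727 i961 i23 b2661 i880 b321 i51 (k8 b1677 b1725 i445 i788 i2259 i2258 b1867 i792 (k8 b1296 b81 b147 i820 i819 i2555 b1863 b1520 (k8 b646 b345 i536 i2268 b326 i661 b399 b346 (k8 b28 b75 i845 i582 i669 b342 b1332 b694 (k8 b579 b71 b2773 i614 b2555 b2554 b2755 i809 (k4 i2032 b1720 b488 i336 (k2 b2724 i1762 k0))))))))) (by decide +kernel)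
def b2799 : PP 8 4 T 0x1000000002000011204000001000100045004000004400200020000011508000500 := rS 0x2cd628d57841e203308fd062b002804e45 (k8 b2260 b2380 b2661 b2722 b2727 i919 i402 i961 (k8 i23 b1720 b1226 b454 i1760 i1762 i474 b455 k0)) (by decide +kernel)
def b2800 : PP 8 4 T 0x1101000000000011004000001000000000000000040000000000000001008000500 := rS 0x4162f02e44d0c853b1b4eb176426527142813d1e61418ad96630f8761a29299644e5f4e9ed16ad60aac1a9517a24e64a500c5c82107900864d328022223699140a49 (k8 b2259 b2258 b2260 b1893 b1888 b2783 b2722 b2793 (k8 b2798 b143 b272 i338 b1684 b432 b273 b2661 (k8 b348 i1093 i279 i1077 b2086 b28 b573 b346 (k8 b694 b1709 b637 b510 b2792 b2380 i866 i827 (k8 b486 b321 i89 i90 b459 b2797 b2727 i919 (k8 i961 b349 i756 b108 b342 b671 b133 b2773 (k8 b336 i1064 i671 b294 i1631 b2799 b0 b686 (k4 b325 i1848 b509 b78 k0)))))))) (by decide +kernel)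
def b2801 : PP 8 4 T 0x1100000000000000500000015000010000000000055000000000000000008000000 := rS 0x12516 (k2 b339 b2773 (k1 b7 k0)) (by decide +kernel)
def b2802 : PP 8 4 T 0x101002000000000011604000001000000015000000005400010004000041508000002 := rS 0x4545a982eacd1b12083c406292c89c80434d9ec1ae41795d1eaf4bac5164a699140a49 (k8 b2259 b2258 b2260 b1893 b348 b1709 b382 b984 (k8 b76 b349 i504 i1077 b432 b28 b637 b983 (k8 b143 b272 b2380 i866 b486 i23 b1720 b1226 (k8 b325 i1760 i474 b22 b942 b687 b133 b352 k0)))) (by decide +kernel)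
def b2803 : PP 8 4 T 0x1100000000000011004000001000000000000000040000000000000001008000500 := rS 0x8141e05c89a1962fc1fa0c56291397ce26d429da2e75642545e89398c5560d56b05c8210798c3e1d86a80ca236598400592010d1f114ea2c944d699140a49 (k8 b2259 b2258 b2260 b1893 b2798 b348 b1709 b510 (k8 b2783 b349 b143 b272 i866 b2722 i961 b2797 (k8 b1888 b2793 b2661 b321 i89 i90 b459 i338 (k8 b1684 b432 b346 b694 b28 b573 b273 i1093 (k8 i279 i1077 b2086 b2801 i1064 b336 b294 i1631 (k8 i671 i796 b2792 b2380 b486 b2727 i919 i402 (k8 b2800 b382 b2802 b0 b686 b325 b2729 b509 (k1 b78 k0)))))))) (by decide +kernel)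
def b2804 : PP 8 4 T 0x1100000000000010004000001000000000000000040000000000000001008000500 := rS 0x661d8eb1764255122f39a3cc2cb3187c3b0d50164f68b250c55ac155835c82107900864d328022223698148a49 (k8 b2259 b2260 b2258 b1893 b1888 b2783 b2722 b2793 (k8 b2798 b143 b272 i338 b1684 b432 b28 b573 (k8 b346 b694 b273 b348 b1709 b637 i866 b2661 (k8 b321 i89 i90 b459 b2797 i961 b349 i1093 (k8 i1077 i279 b2086 b2801 b336 i1064 b294 b2803 (k1 i809 k0)))))) (by decide +kernel)
def b2805 : PP 8 4 T 0x1100000000000010004000000000000000000000040000000000000001008000500 := rS 0x1405b157eaa0a640219361a4f5034c8a05 (k8 b2258 b2260 b1893 b2661 i756 b321 b2798 b143 (k8 b272 i827 b2804 b338 b305 i975 b108 b655 k0)) (by decide +kernel)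
def b2806 : PP 8 4 T 0x101201000000000001414000005020000000000000045504000000000055408000104 := rS 0x8422c106ae03a35529ac8e5934a150e5549a5628d3 (k8 b1893 b342 b435 b71 b30 b646 b1520 b140 (k8 b43 b383 b353 i363 b125 i89 b1171 b691 (k4 i1250 b689 b672 b2481 k0))) (by decide +kernel)
def b2807 : PP 8 4 T 0x101000000000000000000000008000000000000000000000000000000001408000500 := rS 0x7288418c10ea9540d3 (k8 b1893 b2661 i363 i89 i1514 b573 b672 b28 (k1 b432 k0)) (by decide +kernel)
def b2808 : PP 8 4 T 0x1000000000000010004000001000000000000000044000020000000001408000500 := rS 0x310d8cd3b2ae1a8f5a80c2a2b88b2d9265359655a691395c524b2da1cba5f2ac1126958a3f4a442501840045 (k8 b2260 b2722 i961 b2661 i445 i819 b326 b342 (k8 b435 b71 b2805 b30 b2792 i2259 b646 b81 (k8 i51 b1296 i2258 b1725 b140 b118 b43 b353 (k8 b9 b288 b2797 b2783 b2727 b230 i23 i880 (k8 b349 b321 b2807 b693 b814 b614 b2806 i1522 k0))))) (by decide +kernel)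
def b2809 : PP 8 4 T 0x1000000000000010004000001000000000000000044000020000000001008000500 := rS 0x2a8f8771125527147e948ae4286a3d6aa03080222cb649955b04 (k8 b2805 b118 b9 b288 b2797 b2783 b2722 i961 (k8 b2661 i880 b349 b321 i445 i2258 i819 b326 (k8 b342 b71 b435 b2808 b356 i312 b693 i1595 k0))) (by decide +kernel)
def b2810 : PP 8 4 T 0x1001000000000010004000001000000000000000044000000000000001008000500 := rS 0xcc2e9d8ae93284349e8f5a80cc22b6583ccaad14a2ca6272faad8a9518b9042558888c804364c11127325135402f001149205 (k8 b2258 b2259 b2260 b2722 i1077 b2661 b2809 b348 (k8 i1093 i279 b2805 b288 b143 b272 b571 b2783 (k8 b30 i743 b432 b273 b2086 b75 b2807 b2792 (k8 b2380 i566 b1709 b486 b118 b9 b283 b2797 (k8 b2727 i961 i23 i880 b349 i756 b321 b108 (k4 b671 b600 b693 b2490 (k2 b2806 b676 k0))))))) (by decide +kernel)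
def b2811 : PP 8 4 T 0x101200000000000001000000000000000000000000000404000040000041008000002 := rS 0x5d35964522772084aa23203248a05 (k8 b2258 b2260 b288 b272 b571 b30 i743 b432 (k4 b2380 b486 b43 b353 (k2 b2490 b692 k0))) (by decide +kernel)
def b2812 : PP 8 4 T 0x111202000000000011000000000000000041000050045400000040000041008000002 := rS 0x43174ee512b00c1e2911b244e21201548a05 (k8 b2258 b2260 b30 b272 i743 b2380 b288 b571 (k8 b486 b283 i23 b2811 b600 i1627 b2729 b2495 (k1 b646 k0))) (by decide +kernel)
def b2813 : PP 8 4 T 0x1000000000000010004000001000000000000000044000000000000001008000500 := rS 0xeb17491dd98fc4a8c5c8ab449ec422339a1516402510c9b0d47ad4c22b8897d96c9329555a69821c45e00500148a49 (k8 b2259 b2260 b2258 b2661 b2722 i1077 i796 b2805 (k8 b140 b118 b30 b9 b288 b2797 b2792 b2783 (k8 b2727 i961 i880 b349 b321 b2809 b143 b348 (k8 b272 b1709 b932 i1093 b571 i743 b637 i279 (k8 b2807 b432 b273 b2086 b2810 b2812 i809 b693 (k2 b7 i1590 (k1 b294 k0))))))) (by decide +kernel)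
def b2814 : PP 8 4 T 0x1000000000000010004000001000000000000000040000000000000001008000500 := rS 0x722122098625000c0005 (k8 b2258 b2722 i23 b2661 b2813 b449 i448 i445 (k2 i279 b147 k0)) (by decide +kernel)
def b2815 : PP 8 4 T 0x1000000000000000000000002000000000000000000000000000000000008000500 := rS 0x1488651380185cfd8693d40d3 (k8 b1893 b2661 i756 b321 b338 b2396 b431 b399 (k4 b265 i2555 b108 i453 k0)) (by decide +kernel)
def b2816 : PP 8 4 T 0x1100000000000000004000000000000000000000040000000000000001008000500 := rS 0xcd36950a287651dd2aad648c41ac17208556653588cc22f88c6422852e98c3e1d868a4f2271b85456002c83c8043449cc944d6817d52a022b4c0a49 (k8 b2259 b2258 b1893 b2260 b2661 b2815 b2792 b2814 (k8 i653 b348 i1093 i279 b143 b272 i338 i866 (k8 b2722 b2727 b230 i991 b289 i1072 b124 b321 (k8 i89 i90 b459 b306 b1520 b309 b292 b2783 (k8 i1077 i961 b1888 b451 b2793 b2807 b1684 b432 (k8 b346 b28 b273 b1221 b694 b2086 b2144 b2801 (k4 b198 b567 b2716 i1697 (k2 i770 b488 k0)))))))) (by decide +kernel)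
def b2817 : PP 8 4 T 0x1000000000000000004000000000000000000000040000000000000001008000500 := rS 0xeb17491dd9895628c5c8ab10a1c46cf65ab48e5532b260889399004e293192886851b9e49a112eb40be1d8687d1eb530854567117aa400a0889140a49 (k8 b2259 b2258 b2260 b2783 b2661 b2722 b2815 i1077 (k8 i796 b2727 b230 i961 i880 b349 i90 b321 (k8 i89 b2792 b2814 b306 b309 i653 i1072 i991 (k8 b1520 b143 b348 b459 b124 b289 b272 i1093 (k8 i279 b2816 b288 b9 b30 b383 b118 b145 (k8 i1147 b571 b646 i743 b2807 b432 b273 b75 (k4 b2086 b2481 i810 b693 (k2 b7 i1590 (k1 b294 k0))))))))) (by decide +kernel)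
def b2818 : PP 8 4 T 0x1000000000000000002010005020000000000000051000020000000000208000002 := rS 0x110ad39b2d93042103c60594a8bc8a05 (k8 b2258 b2260 i1077 i1518 b103 b82 b1677 i445 (k4 b1867 i613 i1246 b147 (k2 b118 b212 (k1 i279 k0)))) (by decide +kernel)
def b2819 : PP 8 4 T 0x1000000000000000000000000000000000000000040000000000000001008000500 := rS 0x1040797c804a2193572c02b8c19aab3288046e5614443aa952a80c22b0011492d3 (k8 b1893 b2259 b2260 b2722 b2727 i961 b2661 i363 (k8 b2815 i89 b2783 b2817 b52 b89 b432 b2793 (k8 b2807 b45 b82 i1498 b672 i987 b2818 b143 (k4 b348 b272 b502 i338 (k2 b1684 b2811 k0))))) (by decide +kernel)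
def b2820 : PP 8 4 T 0x1000000000000011004000001000000001000000504555800400000055508000182 := rS 0x58a3420af62a2d666c4380c2a998a3f4c245 (k8 b2260 i961 b326 b342 b133 b230 i23 b646 (k8 b614 i661 i2266 i1522 i2273 b2481 i1760 i1762 (k1 b455 k0))) (by decide +kernel)
def b2821 : PP 8 4 T 0x201000000000000000004000001020000000000000080000000000000041008000102 := rS 0x143519f956b6592ed628d430f46ef057c4d165e60a6527146898dfa2929018e65b2e9084e4c25a159a5711a94c2832a9651e6b2380c4231729a41832699149205 (k8 b2258 b2259 b2260 b1893 i450 i449 i2966 b28 (k8 i1506 b82 i23 i1618 i2264 b349 i544 i1620 (k8 i919 i961 i363 b296 b11 b370 b64 i489 (k8 b348 b1725 i445 i2259 b81 b147 i820 i819 (k8 b1296 b326 i536 b2633 b342 b71 b133 i1613 (k8 b2820 b318 b362 i590 b325 b374 b324 b1720 (k8 i964 i1227 i1684 b455 i662 i666 i856 i1647 (k2 b337 b428 k0)))))))) (by decide +kernel)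
def b2822 : PP 8 4 T 0x1000000000000000000000000000000000000000080000000000000000808000002 := rS 0x26158e80c (k4 i449 b109 i1569 i1588 (k1 i2258 k0)) (by decide +kernel)
def b2823 : PP 8 4 T 0x1000000000000000000000000000000000000000000000000000000001008000500 := rS 0x114c28808dca211903063176499856001aa815205 (k8 b2258 b2815 b2661 b125 b2722 b2727 b2819 i121 (k8 b85 i1506 i449 i450 b82 b28 b2822 b432 (k2 b2821 b688 (k1 b1711 k0)))) (by decide +kernel)
def b2824 : PP 8 4 T 0x1000000000000000400001000000008010000140000015500000000100008000400 := rS 0x1c0f82e3fc555afc8693d40d3 (k8 b1893 b2661 i756 b321 b108 b405 b71 i1638 (k4 b352 b804 b399 i1361 k0)) (by decide +kernel)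
def b2825 : PP 8 4 T 0x1000000000000000004000000000000000000000040000000000000080008000501 := rS 0xbd4e71521f8fa935aa8cec751a0f58a3763a5d369d188499a8b659a4b2652f4113e3911b4512332b92dca73261541e2455ac55a2d30bf0a30d27a80a640218080a45 (k8 b2260 b2258 b317 b355 b272 i827 b2661 i756 (k8 b321 b2674 b108 b137 i1000 b405 b382 b359 (k8 b2823 b403 i764 b44 i2580 b298 b794 b1532 (k8 i2066 i190 b344 i47 b271 b197 b2332 b1549 (k8 b9 b43 b140 b145 b318 i2604 i905 i1002 (k8 b510 b983 b984 i411 i1800 i1803 i1801 b1794 (k8 b429 b131 b146 i881 b2824 i1629 i2037 i843 (k4 i2557 i367 b399 b2365 k0)))))))) (by decide +kernel)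
def b2826 : PP 8 4 T 0x1000000000000004054000140001000040400001000400540004015104008000008 := rS 0x829c6c9f2e8e5a24c (k8 b44 b344 i195 i531 b2433 b427 i1917 i1005 (k1 b2702 k0)) (by decide +kernel)
def b2827 : PP 8 4 T 0x1000000000000004054000000001000000000000000220000000055000008000008 := rS 0x4f8e50813 (k4 b253 i610 i194 b371 (k1 b427 k0)) (by decide +kernel)
def b2828 : PP 8 4 T 0x101100000000000004845000000101000000440000004420500005015004008000408 := rS 0xd74f5d3316c5d34acc6e5b452d18a7da1ac55e2d30bf21a4f501b40a49 (k8 b2259 b2258 i669 b2661 i756 b321 b108 b137 (k8 i1000 b76 b382 b79 i1327 b2713 b315 b2826 (k8 i1884 i1774 i553 i1887 b2827 b1811 i886 i887 (k2 b329 i1946 (k1 b308 k0))))) (by decide +kernel)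
def b2829 : PP 8 4 T 0x1000000000000004045000140001000040400001000400540804005104008000008 := rS 0x20a7621749835 (k4 b358 b44 i531 b2826 (k2 i1919 i1536 (k1 b2702 k0))) (by decide +kernel)
def b2830 : PP 8 4 T 0x1100000000000000045000000100000090440000004520500005011006008000408 := rS 0x35d3d74cc5a2885e715b2cd9711589b5722d30a4d9e5b4cabdf90d27a80d29d8b0cdca49 (k8 b2259 b298 i2066 b335 b313 i1887 b2661 i756 (k8 b321 b108 b76 i1938 i1884 b36 b7 b137 (k8 i1000 b644 i669 b382 b320 b2828 i553 b1811 (k8 i802 b399 b2479 i325 i886 i887 b329 i1947 (k1 b308 k0))))) (by decide +kernel)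
def b2831 : PP 8 4 T 0x1100000000000000044000000000000010400000040400500045000002008000408 := rS 0xb35ba6ce02e37c54c45d62a6422372da299e9d8b2946ac1189b4fe4606961ca15078cc4ed13990098b156abc5a617e4349ea0698149245 (k8 b2260 b2259 b2258 b1893 b2661 i756 b321 b108 (k8 b137 i1000 b76 b405 b382 b44 b272 i2580 (k8 b344 b529 i2066 b403 b314 b298 b2334 i461 (k8 i867 i2583 i669 i1003 b2237 b358 i2080 b335 (k8 b313 b36 b2829 i1884 i1774 b461 i1938 b481 (k8 b2827 b2830 b55 i1319 b352 b413 b420 i802 (k2 i554 b1811 k0))))))) (by decide +kernel)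
def b2832 : PP 8 4 T 0x1000000000000000004000000200000050400000000400500005000006008000408 := rS 0x262283717844e2a73f2bc5a394d984ba4c4bac5f90d27a81a2d3 (k8 b1893 b344 b2661 i756 b321 b108 b382 b984 (k8 b44 i531 b137 b983 i195 i1000 b76 i364 (k8 i367 i2557 b2702 b399 i1005 b352 b375 b133 k0))) (by decide +kernel)
def b2833 : PP 8 4 T 0x1000000000000000500001000000000410040040054015500000005100008000500 := rS 0x1a1d22e925ca54f8a97289156ad7e4349ea0 (k8 b2661 i756 b321 b108 b405 b359 b2823 b298 (k8 b2815 b804 i1598 i1330 b165 b7 b2824 b335 (k1 b429 k0))) (by decide +kernel)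
def b2834 : PP 8 4 T 0x1000000000000000004000000000000040000000044000000000000000008000501 := rS 0xf1678da2c35512d0fea54fa74723339a3c982d30b24d659658c4cac534c107aaf58bf21a4f2fa0c7ea0299451215638a44e4021b445657259541e02728900a45 (k8 b2260 b2258 b2823 b298 b317 b403 i764 b794 (k8 b1532 b2825 b344 b355 b272 b529 b486 i410 (k8 b314 i190 b2674 i827 b2661 i402 i919 i904 (k8 i756 b321 b108 b382 b76 b2669 b2831 b140 (k8 b832 b9 i1002 b145 b43 b353 b288 b137 (k8 i1000 b44 i2597 i2580 i2066 i195 b510 b626 (k8 b2832 i843 b2833 i881 b146 b335 b1794 b36 (k2 b374 b1449 k0)))))))) (by decide +kernel)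
def b2835 : PP 8 4 T 0x1200000000000000000000114200000484400000041004000000000010008010508 := rS 0xec3517974e2b5039f9470d502a622240aa2592656596da649 (k8 b2259 b1893 i1884 b145 b9 b288 i190 b314 (k8 b2823 b320 b2815 b2661 b321 i115 i364 i1379 (k4 i881 i2557 b722 b399 (k2 b1829 b2698 (k1 i804 k0))))) (by decide +kernel)
def b2836 : PP 8 4 T 0x1000000000000000004000000000000000000000044000000000000000008000501 := rS 0x382d9285d5c8346a93512d0fea559a64225b452a50e3339a3c98ab568b4c2c93591cb2cb189958a69820f55eb17e4349e5f418fd405328a242ac71489c8043688acae4b2a83c04e5121240a45 (k8 b2260 b2258 b2259 b2823 b298 b317 b403 i764 (k8 b794 b1532 b2825 b344 b355 b272 b529 b486 (k8 i410 b314 i190 b2674 i827 b2661 i402 i919 (k8 i904 i756 b321 b108 b382 b76 b2669 b2831 (k8 b140 b832 b9 i1002 b145 b43 b383 b353 (k8 b288 b137 i1000 b405 b359 b44 i2597 i2580 (k8 i2066 i928 b2815 b2834 i1884 b461 i1938 i553 (k8 b2835 i843 b2833 i881 i1369 b146 i1647 b644 (k4 b537 b165 b1811 b1828 (k1 i802 k0)))))))))) (by decide +kernel)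
def b2837 : PP 8 4 T 0x1000000001000000044000000005000000000000500015000020115050008000008 := rS 0xf1678da2cc50a89da20f (k8 b403 b344 b529 b314 b832 b335 b1794 b36 (k2 b374 b1449 k0)) (by decide +kernel)
def b2838 : PP 8 4 T 0x1000000000000000400010000000000000040020000015500000020000008000400 := rS 0xb53e9d8eaad7e4349ea0 (k8 b2661 i756 b321 b108 b405 b429 b131 i1361 (k2 i808 b804 k0)) (by decide +kernel)
def b2839 : PP 8 4 T 0x1000000001000000044000000000000040000000510015000020014050008000008 := rS 0x9f1c8c53ac50a89da20f (k8 b403 b344 b529 b314 b832 b845 i1002 i195 (k2 b626 b2837 k0)) (by decide +kernel)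
def b2840 : PP 8 4 T 0x1000000000000000004000000000000000000000040000000000000000008000501 := rS 0x2dcbab34c844b68a06a89687d49c586a7f4d9c05c6f5cc54c4c518b2cd259239accb041e97d063f638ac5a6157ab562ab7e154e6272995ca233449301ed10a900524b0110e1a4f503950e2424b4c0a45 (k8 b2260 b2258 b1893 b2259 b2823 i928 b298 b2661 (k8 i756 b321 b355 b317 b794 b486 b272 b314 (k8 b344 b403 b44 i190 i2066 b2674 b1532 i827 (k8 b529 i2580 i764 b108 b359 b382 b405 b76 (k8 b137 i1000 b2825 i410 i402 i919 i904 b2669 (k8 b2831 b9 b353 b383 b43 b140 b145 i1002 (k8 b832 b2836 b55 i1406 i1319 b352 b413 b420 (k8 i2557 b2838 b335 b7 i1360 b804 i881 i1647 (k8 b2839 i1884 b461 i1938 i554 b537 i802 b1811 k0))))))))) (by decide +kernel)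
def b2841 : PP 8 4 T 0x1100000000000000000000000000000000000000040000000040000000008000502 := rS 0x4a32d46c92a9655aab44830cafc3998c945129934801d8687c9ea07288622231200cc22f548149245 (k8 b2260 b2259 b2258 b2815 i1077 i961 i23 b2823 (k8 i47 b320 i12 b298 b2661 i756 i90 b321 (k8 i89 b272 i445 i827 b1814 b348 b459 i1094 (k8 b108 b180 b1316 i279 b359 b405 i461 i1489 (k4 b1523 i1647 b2716 b2801 (k1 b2022 k0)))))) (by decide +kernel)
def b2842 : PP 8 4 T 0x1100000000000000000000000000000000000000040000000000000000008000502 := rS 0x956599592ab31ab48e7f06160a406399308242868900661388bd52a0 (k8 b2661 b2815 i1077 i796 i961 i23 b2823 b321 (k8 b2841 i21 b143 b147 i820 i819 i858 i859 (k8 i2581 i204 i1226 i536 i2269 i2275 i1492 i622 (k2 b1828 b2801 k0)))) (by decide +kernel)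
def b2843 : PP 8 4 T 0x1202000000000000000000000020000000040050040000000000002002008000002 := rS 0x170a53187c3b0d479289a432cb249205 (k8 b2258 b2259 b288 b43 i858 i445 b348 i1132 (k4 b321 i89 i90 b459 (k2 i364 b1792 (k1 i987 k0)))) (by decide +kernel)
def b2844 : PP 8 4 T 0x1202000000000000000000001020000000000000041000000000002002008000002 := rS 0x51a516a7e49c44e22f32ab596771a98c3e1d86a3d9289399289a432caac9205 (k8 b2258 b2259 b359 b43 i858 i445 b348 i1093 (k8 i279 b288 i1132 b321 i89 i90 b459 i1114 (k8 i804 b145 b118 b9 i1077 i796 b320 i1510 (k4 b2843 i127 b616 i325 (k1 b2022 k0))))) (by decide +kernel)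
def b2845 : PP 8 4 T 0x1202000000000000000000001020000000000000041000000000000002008000002 := rS 0x172938b25462ab728bccacb1a98c3e1d86a24e633479289a432cb249205 (k8 b2258 b2259 b288 b43 i858 i445 b348 i1132 (k8 i287 i1093 i279 b321 i89 i90 b459 i1114 (k8 b145 b9 i1077 b298 b359 b2844 b2086 b335 (k2 b7 b387 (k1 b165 k0))))) (by decide +kernel)
def b2846 : PP 8 4 T 0x1000000000000000000000000000000000000000040000000000000000008000502 := rS 0xfca528019fa4a29934804365ab4b25564c10c30d27a81531112115a649 (k8 b2259 b1893 b2260 b2823 b320 b2815 b2661 i756 (k8 b321 i961 b2842 b288 b30 b43 b118 b145 (k8 i858 b272 i445 i827 b348 b2845 b431 b108 (k2 i1379 b596 (k1 i843 k0))))) (by decide +kernel)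
def b2847 : PP 8 4 T 0x1100000001000000808000140100000000440000000401540800000000008005000 := rS 0x14543 (k2 b79 b2733 (k1 b2668 k0)) (by decide +kernel)
def b2848 : PP 8 4 T 0x1100000000000000008000000000000010000000040000500040000002008000408 := rS 0x1e916701c8b946bd4bad966cb49ae4b716092946ac1350c4ba7f23034be832c0adca23688cd0a2939900985507ac55aaf16985f90d27a808a05 (k8 b2258 b2260 b2661 i756 b321 b108 b137 i1000 (k8 b76 b405 b382 b403 i764 b44 b272 i2580 (k8 b486 i1866 i2066 b344 i47 b298 b2332 b2334 (k8 i919 i904 i461 i867 i2583 i610 i1003 b473 (k8 b2237 b358 i2080 i210 b335 i1963 b644 b7 (k8 b2847 i633 b1811 i1902 i1989 i329 b2479 i321 (k4 b399 i1881 i801 b2755 k0))))))) (by decide +kernel)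
def b2849 : PP 8 4 T 0x1000000000000000000000000000000000000000044000000000000080008000500 := rS 0xbd4e71521f87a9b4bad42518433c472151995c96e5399541e8f262c45a617e4349ea0649659611358dc62658214c80514490c4802610040a45 (k8 b2260 b2258 b2846 b2840 b317 b2823 b355 i190 (k8 b2674 b272 i827 b2848 b9 i1002 i1957 b353 (k8 i1952 b145 b43 b288 b2661 i756 b321 b108 (k8 b137 i1000 b382 b44 i2597 b403 i764 i2580 (k8 b298 b794 b1532 i2066 b314 b271 b35 i372 (k8 b482 b439 i2626 b26 b72 i1801 b2833 i843 (k4 i2557 i2218 b399 b2365 k0))))))) (by decide +kernel)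
def b2850 : PP 8 4 T 0x1000000000000000000000000000000000040000044000000000000000008000500 := rS 0x4652e7a462662a5a67a50ba9b8b2e6254559af06aa65bafd82935150d76b45287552291995c96e5a79ccaa0f4793156b1578b4c2fc8693d9259658c4cb042994512c21200906a02f8ac804300b4c8a05 (k8 b2258 b2260 b1893 b2846 b355 b272 b2849 i904 (k8 b2661 i919 b317 b2823 b2840 i190 b2674 i827 (k8 b2848 b9 i1002 b145 b43 b288 i756 b321 (k8 b108 b137 i1000 b76 b382 b359 b44 i2597 (k8 b403 i764 i2580 b135 b298 b794 b1532 i2066 (k8 b486 b2815 i89 i364 b2833 i1945 b425 i881 (k8 i1369 i1247 i1455 i887 b257 b146 i329 b1839 (k8 b122 b256 b644 b335 i1417 b22 b165 b36 (k8 b1811 b435 i1990 i794 i793 i1817 b92 b300 k0))))))))) (by decide +kernel)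
def b2851 : PP 8 4 T 0x1000000000000000000000000000000000000000044000000000000000008000500 := rS 0x7a8c1699ecd36ae94d174c9da289f4ba6d3a392e8bd160738a916a7e1e97d068715aa622290a95c96e5a78fcd227689541e8f262ad62ad578b4c2fc8693d40c92cb2c226b1b8c4cb0429900a2892189004c200b4c0a45 (k8 b2260 b2258 b1893 b2846 b2840 b317 b2823 b355 (k8 i190 b2674 b272 i827 b2848 b9 i1002 i1957 (k8 b353 i1952 b145 b43 b288 b2661 i756 b321 (k8 b108 b137 i1000 b76 b405 b382 b359 b44 (k8 i2597 b403 i764 b344 b529 i1829 i2225 b135 (k8 b298 b794 b1532 b314 b486 b320 b2815 b2849 (k8 i927 i919 i904 b2669 b2850 i127 i843 i2557 (k8 i1379 b2835 b399 b722 i195 b510 b983 b984 (k8 b626 b352 b2698 b133 b21 b375 i368 b829 (k4 i1949 i1950 b614 b378 (k2 i793 b92 k0))))))))))) (by decide +kernel)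
def b2852 : PP 8 4 T 0x1000000000000000000000000000000000000000040000000000000000008000500 := rS 0x1194b9e9185a2ec4932b32fa0e8abc5f8ad4cb740b054487a1ad0facf49aee2ca51a9fd3670171bd7315310c5965932c105a6157ab562fc2a9cca685a7b1cae5119a24980f200a5844b0110c021d8693d40e51234c0a45 (k8 b2260 b2258 b1893 b2823 b298 b2661 i756 b321 (k8 i89 b2846 b355 b317 b794 b2840 b486 b272 (k8 b403 b44 i190 i2066 b2674 b1532 i117 b135 (k8 i1866 i827 i2580 i764 b108 b382 b405 b76 (k8 b137 i1000 b2848 b9 b43 b145 i1002 b2851 (k8 b55 i1406 i1319 b352 b413 b420 i2557 b2838 (k8 i364 b335 i1945 b7 b36 i1360 b804 b425 (k8 i2626 i881 i1247 i1402 i887 b257 i372 i1719 (k8 i329 b122 i919 i904 b1839 i1990 b368 b22 (k4 b1811 i794 i793 i1817 (k2 b92 b300 k0))))))))))) (by decide +kernel)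
def b2853 : PP 8 4 T 0x1000000000000000000000100400000000000000001000000040000480008000108 := rS 0x3d1ba6c248b2f0e480d1009312f1416a25a645 (k8 b2260 b1893 i190 i1000 b352 b364 b44 i23 (k8 b344 b272 b271 b1549 b318 i905 b983 i1800 (k2 i1801 b2365 k0))) (by decide +kernel)
def b2854 : PP 8 4 T 0x1000000000000000004000000000000000000000000000400000000000008000500 := rS 0x2e96d14111e97c7e2b4ca5e282f5381d0671521f8fa9316ad5970430abd5ab1519d8ea597e0d0ae734789ca2334492c98016885404401490e1a4f5039622c92a9990e24698148a49 (k8 b2259 b2260 b2258 b1893 b2823 i928 b2852 i1620 (k8 i121 b320 b298 b2661 i756 b321 i819 b486 (k8 b272 b1796 b314 b344 i23 b44 b286 i190 (k8 i2066 b2674 b529 i2597 i836 b1532 b623 b108 (k8 i544 i1587 b695 b146 b382 b405 b76 b137 (k8 b345 b2716 i881 i1000 b2824 i1629 b804 i843 (k8 i2557 i2620 i1379 i367 b399 b352 b364 b133 (k8 b2853 i402 i904 b2669 b2719 b2832 b628 b722 (k1 b1829 k0))))))))) (by decide +kernel)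
def b2855 : PP 8 4 T 0x1000000000000000000000000000000000000000080000000010000002008000000 := rS 0xb0002100c0a45 (k4 b2260 b2258 b354 b272 (k2 b317 i858 (k1 i2262 k0))) (by decide +kernel)
def b2856 : PP 8 4 T 0x1000000000000000000000100200000000000000001000000040000480008000108 := rS 0xa6 (k2 b2853 i2218 k0) (by decide +kernel)
def b2857 : PP 8 4 T 0x1000000000000000000000000800000000000000000000000000000000008000500 := rS 0xf5182d33d9a6d5d45e9e6907a7d5e5d038a5061135c102a998a21d3a392f8ac5e71521f8fa933a8b4e6893b2b597115aa8cc2b17e1461a4f5010da2552b804963419b94b28f2600992c229900cc2402925a645 (k8 b2260 b1893 b2259 b2258 b2823 b2852 b2855 i827 (k8 b2854 i121 b1796 b44 i2597 i544 b298 i2066 (k8 b623 b286 i23 b1532 i1620 b344 i21 b2661 (k8 i756 b321 b2674 b108 b382 b137 b146 i881 (k8 b320 b2716 b405 b695 i190 i836 i1000 i1587 (k8 b2824 i1629 b804 i843 i2557 b399 b2856 i904 (k8 b620 i1905 i927 b352 b133 b314 b345 b353 (k8 i1952 i2620 b1032 i1379 b722 b76 b440 i541 (k8 i1829 b135 b85 i368 b829 i1949 i1950 b614 (k2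 b378 i793 (k1 b92 k0))))))))))) (by decide +kernel)
def b2858 : PP 8 4 T 0x1000000000000000000000000000000000000000000000000000000000008000500 := rS 0xcd2daed4e5f438ad32978a1745e3d03a0ce2a43f1f42293358b56acb821855ead58aad46593b1d69ec57e0d0e68f2bb08a2334492c980168854a6021490c80556499a22e5124349ea0698148a49 (k8 b2259 b2260 b2258 b1893 b2661 i756 b321 b2823 (k8 b298 b320 b2852 i121 i1620 b2855 i21 b1032 (k8 b1796 i827 b314 b344 i23 b44 b286 i190 (k8 i2066 b2674 b2854 b1532 i2597 i836 b623 b108 (k8 i116 b135 i1587 b695 i544 b146 b359 b382 (k8 b405 b76 b137 b345 b2716 i881 i1000 b353 (k8 b2824 i1952 i1629 b804 i843 i2557 i2620 i1379 (k8 i1386 b399 b722 b352 b364 b133 b2856 i927 (k4 i904 b2857 i1944 b628 (k2 b814 b1864 k0)))))))))) (by decide +kernel)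
def b2859 : PP 8 4 T 0x1000000000000000000000000000000000000000000000000000000080008000401 := rS 0x9a598f47e375b84916a72f0e486074194880d12625d3314168bc1089012800ad3 (k8 b1893 b2258 b2661 b317 i2064 b2858 b282 i1264 (k8 b352 b133 b364 b44 b344 i196 i197 i2617 (k8 i3 i820 b271 b1549 i333 b318 i905 b811 (k4 i1800 i2088 i1802 i662 (k2 b375 b2016 k0))))) (by decide +kernel)
def b2860 : PP 8 4 T 0x201000001000000001000000000001000404005400000500000000102000008000008 := rS 0xde329e3233d0a75 (k8 b426 b64 i2678 i1002 b388 b799 i2680 b357 k0) (by decide +kernel)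
def b2861 : PP 8 4 T 0x201000000001000001004000000000000040000000040041000000000001008000401 := rS 0x1bc653ccf8b0c4f2f18921cf65d4e8e452272923c46d12617c56853a9dc66021092c8008500d48a05 (k8 b2258 b2260 b125 b2661 b2858 i196 b794 b1331 (k8 b317 i193 b640 b426 b64 b2859 i904 b44 (k8 b344 b1150 b349 i197 i2576 b1032 i195 b510 (k8 i531 b2755 b646 b330 b1720 b414 b2860 b335 (k4 b36 b388 b3 i2680 (k1 b357 k0)))))) (by decide +kernel)
def b2862 : PP 8 4 T 0x1100000001000000004000000000000000000000040041000000002001008000401 := rS 0x3c4d2874e9acc80c238a44e521a83c46d119884965f15a158e6d0a845151066964ae4c011008607042800a45 (k8 b2260 b2258 b2661 b2858 i3 i820 i196 b317 (k8 b44 i529 i866 b797 b345 b2861 b461 b314 (k8 i555 b189 b64 b2859 i904 b794 b1331 i193 (k8 b344 b1150 i338 b125 i197 i2576 b1032 i1532 (k8 i1003 i1002 b1542 b2311 b476 i1887 b1720 b2372 k0))))) (by decide +kernel)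
def b2863 : PP 8 4 T 0x1100000001000000004000100000000000040000040001000000000001008000401 := rS 0x29d36395b9e22686629a53b1618b1c226d1bc6514778690c0e2913a0c6a0f11854662125a5e282d17a247e2b66a1620592015c98022d949403d04015a645 (k8 b2260 b1893 b2258 b2858 i1267 b2661 i197 i833 (k8 b317 b44 i529 i196 i866 b345 b64 b797 (k8 b2859 i402 i2064 b282 i1264 b352 b364 b794 (k8 b1331 i193 b314 b1150 i338 b125 i2617 i2576 (k8 b1032 i3 i820 b321 b640 b2861 b279 i1774 (k8 i555 b461 b189 b2862 b335 b313 i1887 b832 (k8 i2032 b0 b198 i856 i1851 i1074 b256 b2369 k0))))))) (by decide +kernel)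
def b2864 : PP 8 4 T 0x1100000000000000014000100000000040040000000005000000000141508001408 := rS 0xada1aad786a57afc21445b8d976a734b19e28740a6cba397e9443e2913a0ca4b565a942ad14ba66282f4497d663f669310a7d8816480a01e821a645 (k8 b2260 b1893 b2858 i1267 b2661 i196 i866 b345 (k8 b65 b64 b44 b797 i402 i1427 i904 i2064 (k8 b282 b352 b133 b364 b344 b314 i363 i1387 (k8 i880 i197 i2617 i2576 b1032 i90 i1309 b291 (k8 i195 i531 b2016 b1116 b646 b1720 i2032 i1562 (k8 i2077 i1680 b375 b2198 b408 i1005 b63 b410 (k4 b689 i2047 i585 b62 (k2 i1291 b433 k0)))))))) (by decide +kernel)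
def b2865 : PP 8 4 T 0x1100000000000000004000100000000000040000040001000000000001008000401 := rS 0x26c72a73c04d6e5c89a18da37453141ae41ec34860714a0ca4231092d2e998a0b45e891f97c56cd42c40b24004280ae4c01015a645 (k8 b2260 b1893 b2258 b317 b44 i529 b2661 b2858 (k8 i196 i866 b345 b64 b797 b2859 i904 i402 (k8 i2064 b282 i1264 b352 b133 b364 b794 b1331 (k8 b1150 i197 i2617 b1032 i3 i820 b321 i1267 (k8 b2863 b28 b75 b2864 i1774 i555 b484 b0 (k8 b686 i856 b253 i532 b256 i194 i1074 b375 k0)))))) (by decide +kernel)
def b2866 : PP 8 4 T 0x1000000000000000000000000400400010000000000000000004100100008010208 := rS 0xdc7a974cc505ed3 (k8 b1893 b282 b352 b133 b364 i1268 i1005 b375 k0) (by decide +kernel)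
def b2867 : PP 8 4 T 0x1100000000000000004000000000000000040000040001000000000001008000401 := rS 0xb951ab0d46936b14620d60b90b6101ca1d169b2ea9d61102789ca4a5688cd2ac91aa5d2714168bd123f2f8ad9a59200214057260080ad3 (k8 b1893 b2258 b317 b44 i529 b2661 b2858 i196 (k8 i866 b797 b2859 i904 i402 i2064 b282 i1264 (k8 b352 b71 b364 b125 i1122 b2415 i193 b344 (k8 i363 i197 i2576 i756 b345 b2865 i1822 i1848 (k8 i1298 i1885 b646 i195 b2866 i1757 b2861 b346 (k8 b28 b273 b75 i475 i1763 b614 i1967 i1554 (k2 i1290 i2033 k0))))))) (by decide +kernel)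
def b2868 : PP 8 4 T 0x1000000000000000000000000100000010000000000002000000014100108000208 := rS 0xc151ae4620d321d9964c49c505ed3 (k8 b1893 b282 b352 b71 b44 i1387 i791 i792 (k4 i1489 i1507 i1027 b2426 (k2 i1266 b2479 k0))) (by decide +kernel)
def b2869 : PP 8 4 T 0x1000000000000000004000000000000000040000040000000000000001008000401 := rS 0x85669758a0d88390fb435c30546315691ccb041489ca48f2ca54ae4c49c505e5f15954424b200cd122d012954035040148ad3 (k8 b1893 b2260 b2258 b2858 b125 b2661 i363 b317 (k8 i1264 i2064 i193 i196 b794 b1331 b2868 b2859 (k8 i904 b282 b352 b71 b44 i529 b2415 i866 (k8 b349 i197 i2576 b1032 b2867 b9 b383 b118 (k8 i1002 i200 i1265 i2033 b422 i1330 b2759 b1298 (k4 b28 b75 b2490 b370 (k2 b64 b813 k0))))))) (by decide +kernel)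
def b2870 : PP 8 4 T 0x1100000000000000004000000000000080000000040000000000000001008000401 := rS 0x4d8e54e785bc4d7e86089b6330d218a50652118fc56cd42c40b257261dc1aa25cc5992938a30462655550d5a7e2a8849640198b596a57ea5512a0010bc6a07040148ad3 (k8 b1893 b2260 b2258 b2858 i3 b125 b282 b317 (k8 b2661 i2064 b2415 b291 i363 i1387 i1264 i193 (k8 i196 b794 b1331 b2868 b2869 i1555 b337 b433 (k8 i1659 i1002 i1515 b352 b71 i1122 b339 b387 (k8 b2479 i1648 b21 b44 i529 i866 b345 b64 (k8 b797 b2859 i402 b1150 i197 i2617 b1032 i820 (k8 b321 b279 i555 b461 b484 i1721 b0 i857 (k4 b198 b256 i1851 i1074 (k1 b2866 k0))))))))) (by decide +kernel)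
def b2871 : PP 8 4 T 0x1100000000000000004000000000000000000000040000000000000001008000401 := rS 0x1e8b679084494ef143a7d365d1ca2d8a465133d72774ec58626542aaa20cd7e8a44e5247965962368b24ae4c49c50beb31f8ae86c156954424b200cc5aa51a9d4fc95178211202500148ad3 (k8 b1893 b2260 b2258 b2661 b317 i2064 b2858 b282 (k8 b2415 b2869 i1667 b125 i363 i1264 i193 i196 (k8 b794 b1331 b2868 i1555 i1515 b337 b2859 i402 (k8 i1427 i904 b352 b71 b44 i529 i1122 b344 (k8 b1150 i1387 i866 b349 i197 i2576 b1032 b291 (k8 b797 b345 b433 b64 i1659 i1002 b339 b313 (k8 b21 b387 b36 b2479 i200 i2989 b2870 i195 (k8 i531 b2016 b626 b646 b1720 b2678 b325 b2866 (k4 b414 i1757 b388 b2755 k0))))))))) (by decide +kernel)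
def b2872 : PP 8 4 T 0x1000000000000000004000000000000000000000040000000000000001008000401 := rS 0x1ca6c6ece4fbc07aa73b2d979116621d0a5d628362ee45c28c624732c10eac1a19f8aa5f1f8ad32934b95e28214a8cd124c1692c042f1489ca4400423c6aa55034c8a05 (k8 b2258 b2260 b1893 b2661 i363 b125 b349 b2858 (k8 i196 i197 i2576 b1032 b282 b317 b794 i1264 (k8 b44 i2064 i193 b2415 b1331 b352 i529 b364 (k8 b71 b133 b2859 i402 i904 b2868 b2869 b337 (k8 i1515 i1667 b2871 b9 b383 i1002 i200 i2033 (k8 b428 b387 b28 b75 b2490 b1520 b646 b813 (k8 b370 i849 i848 b294 i1984 i1783 b2198 i1715 (k4 i810 b374 i1418 i1976 (k1 b375 k0))))))))) (by decide +kernel)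
def b2873 : PP 8 4 T 0x1000000000000000000000000000000000000000000000008000000000008000400 := rS 0xdca83087c9e2f2014810a0 (k8 b2661 b2858 i197 i196 b282 i756 i90 i1048 (k2 i566 i567 (k1 b188 k0))) (by decide +kernel)
def b2874 : PP 8 4 T 0x1000000000000000000000000000000040000000040000000000000001008020400 := rS 0x6279321ee240c3516de227293451e8514a74ea7766c41cac2118e50e5d2f8acaa3310a245a012181c044c259014aa01a8209245 (k8 b2260 b2259 b2858 b125 b2661 i363 i196 b2873 (k8 b348 i788 i3 i820 i445 i1264 i2064 b1331 (k8 i193 b2868 b2859 i904 i531 b646 i195 b1150 (k8 b2872 b52 b432 b370 b640 b1582 i1906 b1032 (k8 i1866 b349 b344 i197 i2576 b78 i1757 i1952 (k4 i1953 b325 b2755 b632 (k2 b414 b2860 (k1 i1491 k0)))))))) (by decide +kernel)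
def b2875 : PP 8 4 T 0x1100000000000000000000000000000040000000040000000000000001008000400 := rS 0xcb176727cf318891ed1a5b5729822874d974724f6897d331417acc7e2b47b24b28514a74aa8916a94ea77198086acd8839584230093086071092c80085011492d3 (k8 b1893 b2259 b2260 b2661 b2858 i196 b2873 b1331 (k8 i3 i820 b348 i445 b1150 b2872 b52 b432 (k8 b370 b125 i788 i193 b640 b1582 i363 i1264 (k8 i2064 b2868 i1906 b1032 i1866 i866 i613 b349 (k8 b2859 i402 i1427 b282 b352 b133 i904 b344 (k8 i756 i195 i531 b2016 b646 b2874 b2866 i203 (k8 i1923 i1924 b2755 b330 b120 b414 b3 b388 (k2 b36 i1028 (k1 b339 k0))))))))) (by decide +kernel)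
def b2876 : PP 8 4 T 0x1000000000000000000000000000000000000000040000000000000001008001400 := rS 0xc118a4e282f44a9546b972b086a2d0090c0e330113096400428092d3 (k8 b1893 b2259 b2661 b2858 i196 b2873 b348 i788 (k8 i193 i3 i820 i445 i1264 b125 b2872 b52 (k8 b644 i2075 i363 i2064 b282 b352 b71 i1003 (k2 i1266 b2479 k0)))) (by decide +kernel)
def b2877 : PP 8 4 T 0x1100000000000000000000000000000000000000040000000000000001008000400 := rS 0xd41136a2a9e6961004984b2181c1e40042801849 (k8 b2259 b2876 b2661 b2858 i196 i338 i3 i820 (k8 b2873 b348 i445 b2872 i1829 b135 b2875 i555 (k2 b461 b308 (k1 i467 k0)))) (by decide +kernel)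
def b2878 : PP 8 4 T 0x1000000000000000000000000000000000000000040000000000000001008000400 := rS 0x608c55a65822e546e519b09271416804860717a24044c25900103552a8092d3 (k8 b1893 b2259 b2661 i363 b125 b2858 i196 b2873 (k8 b348 i788 i2064 b282 i3 i820 i445 i1264 (k8 b352 b71 b2872 i193 b52 i2075 b644 b2877 (k4 b9 b118 i1002 i1265 (k1 b2479 k0))))) (by decide +kernel)
def b2879 : PP 8 4 T 0x1000000001000000000000000000000040000000000000000000000001008000400 := rS 0x22a734b198a0d23334ae328809ca421118b42a892cb0c6a3935a6da202598fd0a872e97c56012612c8607200214055330149245 (k8 b2260 b2259 b2258 b2878 i1620 b2661 b2858 i196 (k8 i3 i820 b2873 b348 i445 b2859 i904 i531 (k8 b646 b1520 i402 i1427 i788 b344 b2016 i547 (k8 i195 b125 b2714 i866 i2064 b314 i1264 b1150 (k8 b1331 i197 i2576 b432 b623 b11 b370 i192 (k4 i1610 i2972 b1633 i1562 (k2 i2077 b689 (k1 b2866 k0)))))))) (by decide +kernel)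
def b2880 : PP 8 4 T 0x1100000000000000080000000000400000000000400000000000100000008001400 := rS 0x81b14e69a78b42a89011007e2b009309643038214049 (k8 b2259 b2661 b2858 i3 i820 b2873 b348 i445 (k8 b2859 i402 i196 i788 i2064 b314 i1264 b53 (k4 i1562 i2077 b308 b2866 (k1 i475 k0)))) (by decide +kernel)
def b2881 : PP 8 4 T 0x1000000000000000000000000000000000000000000008000000000001008000400 := rS 0x66a33a11d2a3160ab4cc938a0b40243038bd12022612c80a004125a605 (k8 b2258 b1893 b2259 b2858 b2661 i196 b2873 b348 (k8 i788 i2064 b282 i3 i820 i445 i1264 b352 (k8 b71 b2878 i1621 i1265 i1506 b2415 b882 i530 (k2 i200 i192 (k1 b2718 k0))))) (by decide +kernel)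
def b2882 : PP 8 4 T 0x1100000000000000000000000000000040000000000000000000000001008000400 := rS 0xc7628350ee44d974d6391088da25f598fc56012181d86021ab34984b42c40ae59200214055330149245 (k8 b2260 b2259 b2258 b2878 i1620 b2661 b2858 i196 (k8 i866 b2881 b345 b64 b2873 b348 b797 b125 (k8 i788 b2714 i3 i820 i445 b2859 i402 i1427 (k8 i904 b344 b1150 b1331 i195 i547 i531 b2016 (k4 b2879 b646 b28 b75 (k2 b2880 b1633 k0)))))) (by decide +kernel)
def b2883 : PP 8 4 T 0x1100000000000000000000000000000004000000000000000000000001008000400 := rS 0xc7628e024f11489ca4211197c5601618086acd42c40ae592a99a323708a28984b2010c0e08501240a45 (k8 b2260 b2258 b2259 b2661 b2858 i3 i820 i196 (k8 b2873 b348 b2882 b461 i1774 b279 b2878 i1620 (k8 i866 b2881 b345 b64 b797 b125 i788 b2714 (k8 i445 b2859 i904 b1150 b1331 i197 i2576 b1032 (k4 b1720 b2194 b357 i3090 (k2 i2070 i2032 k0)))))) (by decide +kernel)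
def b2884 : PP 8 4 T 0x1100000000000000000000000000000000000000000000000000000001008000400 := rS 0x26d4e393c04cb8861e8446e8a419487e5f15a5e282d0090c0e2f44808984b2002140553301492d3 (k8 b1893 b2259 b2258 b2878 i1620 b2661 b2858 i196 (k8 b2873 b348 i788 i2064 b282 i3 i820 i445 (k8 i1264 b352 b364 b2859 i904 i402 i197 i2617 (k8 b2882 i1774 b461 i1268 b2883 b646 b253 i532 (k4 i194 i202 i1074 b2369 k0))))) (by decide +kernel)
def b2885 : PP 8 4 T 0x1000000000000000000000000000000000000000000000000000000001008000400 := rS 0x29c22394daf0b4ce4f9f8ed116621d0a7da19758a0d5c39066a3239ae085760ab5865518998b2a51aa3c5227293452a3f2f8ad271416804860717a24044c2590010a002925a645 (k8 b2260 b1893 b2259 b2258 b2661 b2858 i196 b2873 (k8 b348 i788 i2064 b282 i3 i820 i445 i1264 (k8 b352 b71 b2859 i904 i402 b2415 b344 i197 (k8 i2576 b1032 b349 b125 i363 i866 b2878 i1506 (k8 i1620 b2714 i1621 i1265 b2881 b2884 b353 b383 (k8 i200 i192 b623 i2033 b28 b75 b2490 b422 (k8 i1330 b1520 b646 b813 b370 b695 b1298 i1715 (k8 i810 b814 i849 i1418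 i1976 i1757 i1984 b2866 k0)))))))) (by decide +kernel)
def b2886 : PP 8 4 T 0x1000000000000000000000000000000000000000000020000000000000008000400 := rS 0x5c2946ac1189181a9549c505a012181c5e8919808984b20281caa31202092d3 (k8 b1893 b2259 b2858 b2885 i2073 b298 b2661 i196 (k8 b2873 b348 i788 i2066 i2064 b282 i3 i820 (k8 i445 i1264 b352 b71 b2415 i461 i867 i1003 (k4 i1266 b358 i2080 i2033 (k1 b644 k0))))) (by decide +kernel)
def b2887 : PP 8 4 T 0x1200000000000001004000000800000040000000000000000000000000008000400 := rS 0xd87f2da955d0d27a0ca45f43c44ba7d3b0d0b25735b94665563890562934995271416804860717a24044c2590010a024b4c8a05 (k8 b2258 b2260 b1893 b2259 b2661 b2858 i196 b2873 (k8 b348 i788 i2064 b282 i3 i820 i445 i1264 (k8 b352 b71 b9 b140 b1032 b2859 b2885 i410 (k8 i2549 i2066 b298 b353 b822 b2886 b2839 b131 (k8 i1629 i531 b320 i927 i904 i197 i2617 i756 (k4 b321 i203 i367 i1923 (k2 i843 b614 (k1 b730 k0)))))))) (by decide +kernel)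
def b2888 : PP 8 4 T 0x1200000000000000004000000000000000000000000000000000000000008020400 := rS 0x44de22913948aac71580486072b8cc044004281ca242612cb26b349240a45 (k8 b2260 b2258 b2259 b140 b353 b2886 b2873 b348 (k8 b2885 b298 b2661 b2858 i196 i788 i2066 b822 (k8 i3 i820 i445 b2859 i410 i2549 i197 i2576 (k4 b1032 b78 b823 b325 k0)))) (by decide +kernel)
def b2889 : PP 8 4 T 0x1200000000000000004000000000000040000000000000000000000000008000400 := rS 0x16d98ae531d8689b1c93c522d68a25663f2ab1c56012181cae330110010a072890984b2c994d669089240a45 (k8 b2260 b2258 b2259 b2888 b140 b353 b9 b2886 (k8 b2873 b348 b2885 b298 b2661 b2858 i196 i788 (k8 i2066 b822 i3 i820 i445 b2859 i410 i2549 (k8 i402 i1427 i2064 b344 i1264 b1032 i756 i195 (k8 b2016 b2839 b131 b2866 i203 b2887 i1923 b814 k0))))) (by decide +kernel)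
def b2890 : PP 8 4 T 0x1000000000000000000000000000000080000000000200000001040000008000400 := rS 0x9b538e4f013419487e2b4bc505a012181c5e890113096400428092d3 (k8 b1893 b2259 b2661 b2858 i196 b2873 b348 i788 (k8 i2064 b282 i3 i820 i445 i1264 b352 b364 (k8 b2859 i402 i197 i2617 b253 i532 i194 i202 (k2 i1074 b2369 k0)))) (by decide +kernel)
def b2891 : PP 8 4 T 0x1000000000000000004000000000000000000000040000000000000000008000400 := rS 0x2b9787e522e598352eac4da5b1ba287a117e97d2e938a0b45e89438ac024303a8cae3372b2e22510f954d669189940440503055b042c9309624041240ad3 (k8 b1893 b2258 b2259 b2858 b2885 b2873 b348 b2886 (k8 b2334 b118 i1265 b2661 i196 i788 b9 i1002 (k8 b140 b353 i2549 i90 i1309 b320 b2716 b298 (k8 i2066 b822 i2073 i3 i820 i445 b2859 i927 (k8 i2064 b282 i1264 b352 b71 b364 i904 b291 (k8 b2888 i1268 b2889 i1005 i1884 i555 i1885 b2890 (k8 b1829 b614 b644 b2479 i364 i849 b1965 i1986 k0))))))) (by decide +kernel)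
def b2892 : PP 8 4 T 0x1000000000000000001000000800000000000002000000000000000000008000400 := rS 0xa1a9554bb598fc56012612c860750395462457021a649 (k8 b2259 b1893 b2858 i203 b2885 i2073 b298 b2661 (k8 i3 i820 b2873 b348 i445 b2859 i402 i1427 (k4 i1682 i593 i368 b104 (k1 b428 k0)))) (by decide +kernel)
def b2893 : PP 8 4 T 0x1000000000000000000000000000000040000000040000000000000000008000400 := rS 0xeccc671b4f3123da34b6ae5326cba3927b44be998a0b45e89598fd1e55438ac024303c44ae330110140e5329a582ad04045846b82164984b121240ad3 (k8 b1893 b2258 b2259 b2885 b2873 b348 b2886 b2334 (k8 b353 b2891 i1952 b2858 b118 i1265 b140 b9 (k8 b298 b2661 i196 i788 i2066 b822 b320 i3 (k8 i820 i445 b2859 i927 i2549 i2597 i402 i1427 (k8 i2064 b282 i1264 b352 b133 i904 b344 i756 (k8 i195 i531 b2016 b2866 i203 i1923 i1924 b2755 (k4 b330 b414 b2892 b1169 (k2 b614 b1168 (k1 i809 k0))))))))) (by decide +kernel)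
def b2894 : PP 8 4 T 0x1000000000000000000000000000000000000000040000000000000000008000400 := rS 0x2b9787e522e46acc2eac4da5b450f46ec2608c4d2ad3599608fd2fa5d2714168bd12871580486075195c660220395965988944101f50154984b121240ad3 (k8 b1893 b2258 b2259 b2885 b2873 b348 i2549 b2661 (k8 i90 b2858 i1309 b320 b2886 b2716 b298 i196 (k8 i788 i2066 b822 i2073 i3 i820 i445 b2859 (k8 i927 i2064 b282 i1264 b352 b71 b364 i904 (k8 b291 b2334 b9 b353 b118 b140 i1002 i1265 (k8 b2891 i1957 i1959 b2893 i1884 i555 i1885 b2890 (k8 b614 b1829 b644 b2479 i364 i849 b1965 i1986 k0))))))) (by decide +kernel)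
def b2895 : PP 8 4 T 0x1000000000000000004000000000000000000000000000000000000000008000400 := rS 0x5d2d8f51411438dcec69139491e34331ae09112a884ae3301394485f15804984b2181c8008501649205 (k8 b2258 b2259 b2886 b2661 b2858 i196 i3 i820 (k8 b2873 b348 i445 b2859 i904 b2885 b298 i788 (k8 i2066 b822 b1331 i2549 b320 b345 b353 b2894 (k8 b623 i2597 i197 i2576 b140 b695 b611 i927 (k4 b2888 b2889 i1268 i1884 (k2 b2890 b1829 k0)))))) (by decide +kernel)
def b2896 : PP 8 4 T 0x1000000000000000000000000000000040000000000000000000000000008000400 := rS 0x1985b36ab94c9b2e93d663f439d8d2c156a4e282d17a2472343323da25f15804860708b08d7042c95c66022002140e588954984b121240ad3 (k8 b1893 b2258 b2259 b2885 b2873 b348 i2549 b320 (k8 b298 b2661 b2858 i196 i788 i2066 b822 b2886 (k8 b345 b353 b2895 i1952 i3 i820 i445 b2859 (k8 i904 b344 i2597 b2894 b623 b620 i2064 b282 (k8 i1264 b352 b71 i1621 i1265 b140 b695 i927 (k8 i402 i1427 i756 i531 b2016 b2866 i203 b2892 (k2 i1923 b614 (k1 b814 k0)))))))) (by decide +kernel)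
def b2897 : PP 8 4 T 0x1000000000000000000000000000000000000000000000000000000000008000400 := rS 0x5d2da287ac21bb04d26b3b0d15b0433164af1172a1c665547891265f8a224562d01004424c2589c86522001c5e08501240ad3 (k8 b1893 b2258 b2259 b2661 b2858 b282 i3 i196 (k8 i197 i820 i2576 b2873 b348 b1331 i445 i788 (k8 i1264 b2859 i2064 b352 i904 b71 b2885 i2597 (k8 i2549 i2066 i927 b298 b320 b822 b2886 b2894 (k8 b345 i1621 b623 b695 b353 b140 i1265 b611 (k4 b2895 i1959 b2896 i1884 (k2 b2890 b1829 k0))))))) (by decide +kernel)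
def b2898 : PP 8 4 T 0x1000000000000000000000000000000000000000000000000000000000008000200 := rS 0xa (k2 b2897 i88 k0) (by decide +kernel)
def b2899 : PP 8 4 T 0x1000000000000000000000000000000000000000000000000000000000008000080 := rS 0xa (k2 b2897 i4 k0) (by decide +kernel)
def b2900 : PP 8 4 T 0x1000000000000000000000000000000000000000000000000000000000088000000 := rS 0xa (k2 b2897 b367 k0) (by decide +kernel)
def b2901 : PP 8 4 T 0x1000000000000000000000000000000000000000000000000000000000008000008 := rS 0xa (k2 b2897 b386 k0) (by decide +kernel)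
def b2902 : PP 8 4 T 0x1000000000000000000000000000000000000000000000000000000000008000001 := rS 0xa03 (k2 b2901 b2258 (k1 b317 k0)) (by decide +kernel)
def b2903 : PP 8 4 T 0x1000000000000000000000000000000000000000000000020000000000008000000 := rS 0x1400 (k2 b2902 b2897 (k1 i2383 k0)) (by decide +kernel)
def b2904 : PP 8 4 T 0x1000000000000000000000001000000000000000000000000000000000008000000 := rS 0x1400 (k2 b2902 b2897 (k1 i559 k0)) (by decide +kernel)
def b2905 : PP 8 4 T 0x1000000000000000000000000000000000000000002000000000000000008000000 := rS 0x1200 (k2 b2902 b2898 (k1 i961 k0)) (by decide +kernel)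
def b2906 : PP 8 4 T 0x1000000000000000000000000000000000000000000000000000000100008000000 := rS 0x1400 (k2 b2902 b2897 (k1 i560 k0)) (by decide +kernel)
def b2907 : PP 8 4 T 0x1000000000000000000000000000000000000000000000000000000800008000000 := rS 0xe00 (k2 b2902 b2899 (k1 i1078 k0)) (by decide +kernel)
def b2908 : PP 8 4 T 0x1000000000000000000000000000000000000000000000000080000000008000000 := rS 0x4d (k2 b2903 b143 k0) (by decide +kernel)
def b2909 : PP 8 4 T 0x2001000000000000000000000000000000000000000000000000000000000008000000 := rS 0xa8 (k2 b2904 b305 k0) (by decide +kernel)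
def b2910 : PP 8 4 T 0x1000000000000000000000000000000000000080000000000000000000008000000 := rS 0x2c (k2 b2906 b391 k0) (by decide +kernel)
def b2911 : PP 8 4 T 0x1000000000000000000000000000000000000000000000000010000000008000000 := rS 0x8a43 (k2 b2908 b2260 (k1 b272 k0)) (by decide +kernel)
def b2912 : PP 8 4 T 0x1000000000000000000000000000000000000000000000000000000000028000000 := rS 0xe40 (k2 b2911 b2899 (k1 i742 k0)) (by decide +kernel)
def b2913 : PP 8 4 T 0x1000000000000000000000000010000000000000000000000000000000008000000 := rS 0x1440 (k2 b2911 b2897 (k1 i300 k0)) (by decide +kernel)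
def b2914 : PP 8 4 T 0x1000000000000000000000000000000000000008000000000000000000008000000 := rS 0x2f541843e40 (k4 b2911 b2900 b2905 b2904 (k2 b2907 b188 k0)) (by decide +kernel)
def b2915 : PP 8 4 T 0x1000000000000000000000000000000000000020000000000000000000008000000 := rS 0x581d (k2 b2912 b2906 (k1 i1239 k0)) (by decide +kernel)
def b2916 : PP 8 4 T 0x21000000000000000000000000000000000000000000000000000000000008000000 := rS 0xa0 (k2 b2913 b321 k0) (by decide +kernel)
def b2917 : PP 8 4 T 0x1000000000000000000000000000000000000000000000000000000000008000000 := rS 0x10d8a9cce26f (k4 b2914 b2915 b2910 b2909 (k2 b2916 b413 k0)) (by decide +kernel)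

end Pool.Agent.H551.GP.E84n
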