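import Pool.Agent.H551.GP.E84ni1
import Pool.Agent.H551.GP.E84ni2
import Pool.Agent.H551.GP.E84ni3

/-! Certificate data. -/

set_option linter.all false
set_option maxRecDepth 100000

namespace Pool.Agent.H551.GP.E84n

def c0 : PP 8 4 T 0x1000000002000000002000000000000000000000000000002000000000004000000 := rS 0x147 (k2 i3151 i1462 k0) (by decide +kernel)
def c1 : PP 8 4 T 0x400000100000000501000410410000001000000000000000005000000000000002000000000004000000 := rS 0x137 (k2 i3165 i2022 k0) (by decide +kernel)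
def c2 : PP 8 4 T 0x21000000000000000000000000000000000200000000000002000000000004000000 := rS 0x137 (k2 i3165 i1205 k0) (by decide +kernel)
def c3 : PP 8 4 T 0x5000110400001040000000010100000000000000000000000000000000002000000000004000015 := rS 0x11b (k2 i3148 i1993 k0) (by decide +kernel)
def c4 : PP 8 4 T 0x1000000002000000000000000000000000000000000000002000000000004002000 := rS 0x11b (k2 i3148 i1459 k0) (by decide +kernel)
def c5 : PP 8 4 T 0x50000010000000011011000000004400000000000000000000000000000000542000000000004000000 := rS 0x127 (k2 i3155 i2008 k0) (by decide +kernel)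
def c6 : PP 8 4 T 0x201000000000000000000000000000000002000000000000002000000000004000000 := rS 0x137 (k2 i3165 i1473 k0) (by decide +kernel)
def c7 : PP 8 4 T 0x41000000000000411000110000404000000004000000000000500000000000002000000000004000000 := rS 0x137 (k2 i3165 i2021 k0) (by decide +kernel)
def c8 : PP 8 4 T 0x1000000004000001000101000400040000000000400000000000000000000002005000000004000000 := rS 0x42e8eff (k4 i3172 i3151 i3184 i2005 k0) (by decide +kernel)
def c9 : PP 8 4 T 0x1000002000000000000000000000000000000000000000002000000000004200000 := rS 0xf3 (k2 i3185 i173 k0) (by decide +kernel)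
def c10 : PP 8 4 T 0x2000000000000001000000000000000000000000000000000000000000000002008000000004000000 := rS 0x10b (k2 i3184 i1216 k0) (by decide +kernel)
def c11 : PP 8 4 T 0x1000002000000000000000000000000000000000000000002002000000004000000 := rS 0x147 (k2 i3151 i1730 k0) (by decide +kernel)
def c12 : PP 8 4 T 0x2001000000000000000000000000000008000000000000000002000000000004000000 := rS 0x13f (k2 i3170 i1209 k0) (by decide +kernel)
def c13 : PP 8 4 T 0x100400000000005001000000140040000000010000000014000000000000000002000000000004000000 := rS 0x27ee1 (k2 i3176 i3170 (k1 i2023 k0)) (by decide +kernel)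
def c14 : PP 8 4 T 0x2000000000000001000000000000000000000000800000000000000000000002000000000004000000 := rS 0xff (k2 i3172 i1747 k0) (by decide +kernel)
def c15 : PP 8 4 T 0x1000000000000000000000000000000000000800000000002000002000004000000 := rS 0x0 (k1 i1508 k0) (by decide +kernel)
def c16 : PP 8 4 T 0x800000000000001000000000000000000000000000000000080000000000002000000000004000000 := rS 0xdb (k2 i3174 i1481 k0) (by decide +kernel)
def c17 : PP 8 4 T 0x401400000000000001000100500400000000540000000000000000000000000002000000000004000000 := rS 0x1c2fb (k2 i3189 i3176 (k1 i2026 k0)) (by decide +kernel)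
def c18 : PP 8 4 T 0x11000000401010010000000000000000000000000000000000000540002000000000004000000 := rS 0x4dde727 (k4 i3155 i3185 i3165 i2010 k0) (by decide +kernel)
def c19 : PP 8 4 T 0x1002000000000000000000000000000000000000000000082000000000004000000 := rS 0x127 (k2 i3155 i1197 k0) (by decide +kernel)
def c20 : PP 8 4 T 0x1000002000000000080000000000000000000000000000002000000000004000000 := rS 0xfb (k2 i3189 i179 k0) (by decide +kernel)
def c21 : PP 8 4 T 0x110040000010441000050000000000000000000000001000005000000000002000000000004000000 := rS 0x137 (k2 i3165 i2019 k0) (by decide +kernel)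
def c22 : PP 8 4 T 0x1002000000000000000000000000000000000000000000002000000000004000800 := rS 0xff (k2 i3172 i417 k0) (by decide +kernel)
def c23 : PP 8 4 T 0x1000000000000000000000000000000000000200000000002000008000004000000 := rS 0x0 (k1 i1586 k0) (by decide +kernel)
def c24 : PP 8 4 T 0x1000000000000000000000000000000000008000000000002000080000004000000 := rS 0x0 (k1 i1776 k0) (by decide +kernel)
def c25 : PP 8 4 T 0x21000000000000000000000000020000000000000000000002000000000004000000 := rS 0xd9 (k2 i3191 i675 k0) (by decide +kernel)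
def c26 : PP 8 4 T 0x1000000000000000000000000020000020000000000000002000000000004000000 := rS 0x0 (k1 i278 k0) (by decide +kernel)
def c27 : PP 8 4 T 0x1000001404001400000041010000000000000000000000000000000000002000015000004000000 := rS 0x13f (k2 i3170 i2002 k0) (by decide +kernel)
def c28 : PP 8 4 T 0x4000100401000011000000000000000000000000000000000000000002000000054004000000 := rS 0x6cc8e6f0b (k4 i3184 i3165 i3153 i3191 (k1 i2000 k0)) (by decide +kernel)
def c29 : PP 8 4 T 0x400000000001000001400001401000000054000000000000000000000000000002000000000004000000 := rS 0x48e16fb (k4 i3189 i3184 i3153 i2006 k0) (by decide +kernel)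
def c30 : PP 8 4 T 0x1000000000000080000000000020000000000000000000002000000000004000000 := rS 0xd9 (k2 i3191 i159 k0) (by decide +kernel)
def c31 : PP 8 4 T 0x1000000000000000000000000000000000000020000000002000000200004000000 := rS 0x0 (k1 i1240 k0) (by decide +kernel)
def c32 : PP 8 4 T 0x801000000000000000000000000000000008000000000000002000000000004000000 := rS 0xfb (k2 i3189 i698 k0) (by decide +kernel)
def c33 : PP 8 4 T 0x101000000410001000041000010000000000000000000000000000000000002000540000004000000 := rS 0x21723 (k2 i3153 i3184 (k1 i2003 k0)) (by decide +kernel)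
def c34 : PP 8 4 T 0x1002000000000000000000020000000000000000000000002000000000004000000 := rS 0x12b (k2 i3158 i1199 k0) (by decide +kernel)
def c35 : PP 8 4 T 0x2001000000000000000000000000000000000000000000000002000000800004000000 := rS 0xff (k2 i3172 i936 k0) (by decide +kernel)
def c36 : PP 8 4 T 0x2001000000000000000000000000000000000000080000000002000000000004000000 := rS 0x10f (k2 i3195 i939 k0) (by decide +kernel)
def c37 : PP 8 4 T 0x1002000000000000000000008000000000000000000000002000000000004000000 := rS 0xe1 (k2 i3176 i422 k0) (by decide +kernel)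
def c38 : PP 8 4 T 0x4001140000044000000100000000000000000000000050000002000000000004000000 := rS 0x95cee7f29 (k4 i3156 i3170 i3167 i3158 (k1 i2012 k0)) (by decide +kernel)
def c39 : PP 8 4 T 0x20001000000000000000000000000008000000000000000000002000000000004000000 := rS 0xfb (k2 i3189 i957 k0) (by decide +kernel)
def c40 : PP 8 4 T 0x20001000000000000000000000000000000080000000000000002000000000004000000 := rS 0x13b (k2 i3167 i1743 k0) (by decide +kernel)
def c41 : PP 8 4 T 0x1000000002000000020000000000000000000000000000002000000000004000000 := rS 0x123 (k2 i3153 i1463 k0) (by decide +kernel)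
def c42 : PP 8 4 T 0x2001000000000000000000000000000000000000080000000002000000000004000000 := rS 0xdb (k2 i3174 i940 k0) (by decide +kernel)
def c43 : PP 8 4 T 0x1000000001000001000000000000000000000000000000000000000002000000000004150000 := rS 0x24b1b91c2de6d5 (k4 i3190 i3185 i3184 i3153 (k2 i3148 i3154 (k1 i1996 k0))) (by decide +kernel)
def c44 : PP 8 4 T 0x2000000000000001000000000000000000800000000000000000000000000002000000000004000000 := rS 0xfb (k2 i3189 i1220 k0) (by decide +kernel)
def c45 : PP 8 4 T 0x10400000000000001101000104000000400000014000000000000000000000002000000000004000000 := rS 0x35e56e1 (k4 i3176 i3158 i3173 i2014 k0) (by decide +kernel)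
def c46 : PP 8 4 T 0x801000000000000000000000000000000000200000000000002000000000004000000 := rS 0x14b (k2 i3163 i1740 k0) (by decide +kernel)
def c47 : PP 8 4 T 0x100001000000401001000000000050040000000000000000010000000000000002000000500004000000 := rS 0x1ff47 (k2 i3151 i3172 (k1 i2001 k0)) (by decide +kernel)
def c48 : PP 8 4 T 0x400000001000000001100000404000000000000000000000000000001500000002000000000004000000 := rS 0x3ce56fb (k4 i3189 i3158 i3185 i2016 k0) (by decide +kernel)
def c49 : PP 8 4 T 0x1200000000000000000000000000000000000000000002002000000000004000000 := rS 0x127 (k2 i3155 i1465 k0) (by decide +kernel)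
def c50 : PP 8 4 T 0x20001000000000000000000000000000002000000000000000002000000000004000000 := rS 0x10f (k2 i3195 i954 k0) (by decide +kernel)
def c51 : PP 8 4 T 0x2000000000000001000000000000000000080000000000000000000000000002000000000004000000 := rS 0xe1 (k2 i3176 i1751 k0) (by decide +kernel)
def c52 : PP 8 4 T 0x400000001000001400000101000040001000000140000000000000000000002000000000004000000 := rS 0x3868eff (k4 i3172 i3151 i3176 i2004 k0) (by decide +kernel)
def c53 : PP 8 4 T 0x1002000000000000000000000000000000000000000000002000000000004000800 := rS 0xd5 (k2 i3190 i416 k0) (by decide +kernel)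
def c54 : PP 8 4 T 0x1000002000000000000000000000000000000000000000002000000008004000000 := rS 0x11d (k2 i3149 i1728 k0) (by decide +kernel)
def c55 : PP 8 4 T 0x400100000000014001000000440000004000000000005000000000000000000002000000000004000000 := rS 0x4fdf6f7 (k4 i3187 i3189 i3170 i2025 k0) (by decide +kernel)
def c56 : PP 8 4 T 0x1002000000000000000000000000000000000000000000002000000000004000200 := rS 0x125 (k2 i3154 i1196 k0) (by decide +kernel)
def c57 : PP 8 4 T 0x21000000000000000000000000000000000020000000000002000000000004000000 := rS 0x135 (k2 i3164 i1204 k0) (by decide +kernel)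
def c58 : PP 8 4 T 0x10000000000001001041000000000000000000001000000000000000005000002000000000004000000 := rS 0x1296fb5e774d (k4 i3169 i3167 i3173 i3175 (k2 i3156 i2011 k0)) (by decide +kernel)
def c59 : PP 8 4 T 0x800000000000000001000000000000000000000000000000000000002000000002000000000004000000 := rS 0xf3 (k2 i3185 i1485 k0) (by decide +kernel)
def c60 : PP 8 4 T 0x1200000000000000000000000000000000000000000000002000000000004008000 := rS 0x107 (k2 i3178 i425 k0) (by decide +kernel)
def c61 : PP 8 4 T 0x1002000000000000000000002000000000000000000000002000000000004000000 := rS 0xdf (k2 i3175 i421 k0) (by decide +kernel)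
def c62 : PP 8 4 T 0x2000000000000001000000000000000000008000000000000000000000000002000000000004000000 := rS 0xdb (k2 i3174 i1749 k0) (by decide +kernel)
def c63 : PP 8 4 T 0x1200000000000000000000000000000000000000200000002000000000004000000 := rS 0x12d (k2 i3159 i1468 k0) (by decide +kernel)
def c64 : PP 8 4 T 0x201000000000000000000000000000000000000000000008002000000000004000000 := rS 0x131 (k2 i3161 i1470 k0) (by decide +kernel)
def c65 : PP 8 4 T 0x801000000000000000000000000000000000000000000200002000000000004000000 := rS 0x131 (k2 i3161 i1738 k0) (by decide +kernel)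
def c66 : PP 8 4 T 0x800000000000001000000000000000000000000000020000000000000000002000000000004000000 := rS 0xdf (k2 i3175 i1482 k0) (by decide +kernel)
def c67 : PP 8 4 T 0x800000000000000001000000000000000000000000000000008000000000000002000000000004000000 := rS 0xf5 (k2 i3186 i1486 k0) (by decide +kernel)
def c68 : PP 8 4 T 0x4101000000010000000000000000000000400000500000000002000000000004000000 := rS 0x1d73d99c3e6b3f (k4 i3170 i3164 i3195 i3162 (k2 i3168 i3181 (k1 i2018 k0))) (by decide +kernel)
def c69 : PP 8 4 T 0x1000000000000080000000000080000000000000000000002000000000004000000 := rS 0xe1 (k2 i3176 i163 k0) (by decide +kernel)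
def c70 : PP 8 4 T 0x4000000011000000000000040000000000010000000000000000000002000000000054000000 := rS 0x1b6ffa5b663b47 (k4 i3151 i3149 i3191 i3163 (k2 i3172 i3174 (k1 i1998 k0))) (by decide +kernel)
def c71 : PP 8 4 T 0x800000000000000001000000000000000080000000000000000000000000000002000000000004000000 := rS 0x10b (k2 i3184 i1484 k0) (by decide +kernel)
def c72 : PP 8 4 T 0x100000000000000000000000000000000000000000000000a000000000004000000 := rS 0x0 (k1 i29 k0) (by decide +kernel)
def c73 : PP 8 4 T 0x1000000000000000000000000000000000000000000000022000000000004000000 := rS 0x0 (k1 i30 k0) (by decide +kernel)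
def c74 : PP 8 4 T 0x1000000000000008000000000000000000000200000000002000000000004000000 := rS 0x0 (k1 i2689 k0) (by decide +kernel)
def c75 : PP 8 4 T 0x1200000000000000000000000000000000000000020000002000000000004000000 := rS 0x129 (k2 i3156 i1466 k0) (by decide +kernel)
def c76 : PP 8 4 T 0x2000000000000001000000000000000000000800000000000000000000000002000000000004000000 := rS 0xf3 (k2 i3185 i1217 k0) (by decide +kernel)
def c77 : PP 8 4 T 0x1100000001000000000000000000000000000000000000002400000000004005000 := rS 0x495cf1b6acae4307 (k8 i3178 i3152 i3158 i3190 i3148 i3179 i3154 i1995 k0) (by decide +kernel)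
def c78 : PP 8 4 T 0x1000000000000000000000000000000100002000000000002000000000004000000 := rS 0x0 (k1 i1012 k0) (by decide +kernel)
def c79 : PP 8 4 T 0x400000000000111000000010000000000001000000000000050000000000002000000000004000000 := rS 0xdb70bb69735 (k4 i3164 i3163 i3182 i3176 (k2 i3174 i2020 k0)) (by decide +kernel)
def c80 : PP 8 4 T 0x2001000000000000000000000000000000000000000008000002000000000004000000 := rS 0x13b (k2 i3167 i1207 k0) (by decide +kernel)
def c81 : PP 8 4 T 0x2000000000000001000000000000000000000000000000000800000000000002000000000004000000 := rS 0xf5 (k2 i3186 i1218 k0) (by decide +kernel)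
def c82 : PP 8 4 T 0x1000000000000000000000000000000000002000000000002000000000004000002 := rS 0x0 (k1 i2630 k0) (by decide +kernel)
def c83 : PP 8 4 T 0x101100000000000000000000000000000000000000000015002000000000004000000 := rS 0x406633573c9e56e9 (k8 i3180 i3158 i3155 i3179 i3164 i3161 i3193 i2009 k0) (by decide +kernel)
def c84 : PP 8 4 T 0x800000000000001000000000000000000000000200000000000000000000002000000000004000000 := rS 0x107 (k2 i3178 i1211 k0) (by decide +kernel)
def c85 : PP 8 4 T 0x1000000000011001000000000000000000000000000540000000000000000002000000000004000000 := rS 0x1c7417bb7df34d (k4 i3169 i3188 i3175 i3187 (k2 i3171 i3177 (k1 i2024 k0))) (by decide +kernel)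
def c86 : PP 8 4 T 0x1000000000000000000000000000000000000000000800802000000000004200000 := rS 0xa06c448c90c76394809d1813789e482160c980e4dda0ce63ef793c6e3b0192cc65ed96acce7b0f (k8 i3195 i3168 i3162 i3190 i3191 i3160 i3161 i3154 (k8 i3193 i3149 i3148 i3155 i3187 i3150 i3166 i3171 (k8 i3192 i828 i829 i2694 i1997 i2575 i2695 c9 (k8 i28 i907 i2486 i906 i1813 i2705 i636 c50 (k4 i1992 c33 i644 i1837 k0))))) (by decide +kernel)
def c87 : PP 8 4 T 0x1000000000000000000000000000000000000000000000802000000000004200000 := rS 0x44b4c5a0a0f110865f179042c1954c54de60279c8a31f9cb769adf6ac9e371d80c96632f6cc3e7b33 (k8 i3162 i3168 i3195 i3191 i3160 i3161 i3154 i3193 (k8 i3149 i3148 i3155 i3190 i3175 i3169 i3192 i3166 (k8 i3150 i95 i828 i32 i829 i1009 c36 i1087 (k8 i2694 i1997 i2575 i2693 c86 i635 i1992 i565 (k4 i564 i1303 i157 i277 (k1 c47 k0)))))) (by decide +kernel)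
def c88 : PP 8 4 T 0x1000000000000000000000000000000800000000020000002200000000004800000 := rS 0xcdca3107094b0571ab24eb176ec1dd71f9cc85cee9 (k8 i3180 i3179 i3152 i3166 i3150 i3181 i3178 i3192 (k8 i948 i124 i120 i2700 i1579 i1025 i347 i603 (k4 i985 i166 i285 c27 k0))) (by decide +kernel)
def c89 : PP 8 4 T 0x1200000000000000001001014000000820000000000000002400000000804001540 := rS 0x28d4a956583daaed (k8 i3182 i3190 i424 i430 i1103 i249 i281 i2027 k0) (by decide +kernel)
def c90 : PP 8 4 T 0x1200000001000000000000014000000820000080000000002400010001084001540 := rS 0x28d287f5a08865118bb0462219ac7642d997ba60edd75c7e730f (k8 i3195 i3166 i3150 i3181 i3192 i3178 i3180 i3160 (k8 i3191 i3152 i3149 i3164 i726 i985 i1345 i948 (k8 i687 c27 i1999 c89 i102 i885 i241 i1671 k0))) (by decide +kernel)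
def c91 : PP 8 4 T 0x1200000000000000000000014000000820000080000000002400010001084001540 := rS 0x1fd44b952b901ecb608c5dad5 (k8 i3190 i3182 i985 i1345 i430 i424 c90 i171 (k4 i1403 i2027 i847 i241 k0)) (by decide +kernel)
def c92 : PP 8 4 T 0x101100000000000000001000014000000000000000000011102400000001084001540 := rS 0x52391460f3fb2caced (k8 i3182 c83 i505 i1665 i502 i241 c77 i2027 (k1 i171 k0)) (by decide +kernel)
def c93 : PP 8 4 T 0x1200000000000000000000014000000820000080000000002400000001084000560 := rS 0x340783462d5 (k4 i3190 i985 i522 i424 (k2 c91 i354 k0)) (by decide +kernel)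
def c94 : PP 8 4 T 0x1000001000000000000000014000000a20000080000010102400080001084000560 := rS 0x14f72b158e9d67038646833b20a90561b041a31889de0f2177badcf0f (k8 i3195 i3179 i3181 i3183 i3152 i3178 i125 i687 (k8 i985 i522 i1345 i1957 c93 c92 i766 i1619 (k8 i1129 i612 i611 i1128 i1820 i1561 i1615 i166 (k2 i1755 c29 k0)))) (by decide +kernel)
def c95 : PP 8 4 T 0x1000001000000000000000014000000a20000080000000102200080000084800560 := rS 0x8299d9235070c048472c9962ee775c0daae9 (k8 i3180 i3190 i3194 i3181 i3179 i948 c88 i869 (k8 i265 c94 i861 i346 i17 i2658 i542 i424 (k1 c38 k0))) (by decide +kernel)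
def c96 : PP 8 4 T 0x1100000000000000000000014000001625005000010000102400010001084008540 := rS 0x5588b05989367a762c770699d92593a9ad3eefa6b9dd703 (k8 i3194 i3181 i3179 i3169 i3183 i1035 i1965 i1010 (k8 i868 i1124 i542 i5 i752 c38 i1820 i950 (k4 i1477 i2046 i1344 i690 (k2 i770 c92 k0)))) (by decide +kernel)
def c97 : PP 8 4 T 0x1100000000000000000000014000001625005000050000102000000001084000560 := rS 0x5588b059893678353b163bb24b2753591d3eefa6b9dd703 (k8 i3194 i3181 i3179 i3169 i3183 i1035 i265 i1965 (k8 i1010 i868 i1124 i752 c38 i1820 i521 i950 (k4 i1477 i2046 i1344 i690 (k2 i770 c92 k0)))) (by decide +kernel)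
def c98 : PP 8 4 T 0x1100000000000000401000014040000000000000000000002400000000004005540 := rS 0x291c8ed (k4 i3182 c77 i2027 i171 k0) (by decide +kernel)
def c99 : PP 8 4 T 0x4001000000000000000000000000000000400000100000000002200000000004002020 := rS 0x1113b95860e9 (k4 i3180 i522 i481 c15 (k2 c64 c68 k0)) (by decide +kernel)
def c100 : PP 8 4 T 0x1100000000000000000010014000001625005000010000102200010001084000560 := rS 0x600c41aa38bb2d2a66079d48f3b (k8 i3167 i265 i1010 c96 c97 i1673 i546 i1475 (k4 i281 c99 i1505 c98 (k1 i1345 k0))) (by decide +kernel)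
def c101 : PP 8 4 T 0x1001000000000000000400011014000000400000100080001542000000000004000000 := rS 0x93a19f8ae7d8845d2a593bd35d6df76d2dd33b (k8 i3167 i3180 i3163 i3182 i3175 i3181 i3169 i751 (k8 i868 i1673 i1475 c68 i1472 c64 i2037 c16 (k2 i1637 c13 k0))) (by decide +kernel)
def c102 : PP 8 4 T 0x4001000000000000000404010014005001405005500000000002400010000084005540 := rS 0x1ca3318a919ca360b34467d883760eeb8fce642ed77cbe96e9 (k8 i3180 i3163 i3160 i3183 i3182 i3152 i3166 i3150 (k8 i3181 i3178 i3192 c68 i1472 i1469 i690 i1305 (k4 i240 i2046 i2027 i989 (k2 i289 i171 (k1 c27 k0))))) (by decide +kernel)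
def c103 : PP 8 4 T 0x1000000000000000000000014000001625005080010000102200010005084200060 := rS 0x2372a90431160b314693678ce2c0d33a74eec3349541ecb8227c8e758a82c9e093094d72b59ac7642d997ba60eed77d3672d5 (k8 i3190 i3166 i3169 i3183 i3182 i3178 i3180 i3160 (k8 i3191 i3152 i3149 i3164 i884 i1141 c87 i1017 (k8 i263 i1269 i237 c36 i1010 i265 i1035 c100 (k8 i430 i424 c49 c63 i369 i751 i1819 c101 (k8 i521 c102 i1474 i950 i1477 i280 i2046 i1344 (k4 i690 i729 i2027 i171 (k2 i249 i1999 k0))))))) (by decide +kernel)
def c104 : PP 8 4 T 0x8001100000000000000401000014001001625005400000000002000080000004801560 := rS 0xa79a598754f88cda0e35b0d4647678ccb32d73bbdd339 (k8 i3166 i3180 i3183 i3179 i3159 i868 i1474 i950 (k8 i264 i280 i1956 i1964 c98 i668 i245 i1036 (k4 i971 i2046 i1831 i1754 (k1 c48 k0)))) (by decide +kernel)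
def c105 : PP 8 4 T 0x1000000000000005000000000001001605005500000000002000080000004008000 := rS 0x1b53cc3 (k4 i1956 i2046 i668 i1036 k0) (by decide +kernel)
def c106 : PP 8 4 T 0x4001000000000000000401000014001001605005100020000002200090000084201140 := rS 0x36b093ece18394660e23a8d9a238802ca67782b760eeb8fce642e777cbdd24d (k8 c73 i3180 i3160 i3183 i3179 i3152 i3166 i3150 (k8 i3181 i3178 i3192 c75 i1548 c87 i237 c68 (k8 i1469 i690 i240 i224 c98 i1545 i166 c27 (k4 c105 i156 i989 i1699 (k1 i370 k0))))) (by decide +kernel)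
def c107 : PP 8 4 T 0x1100000000000000001000014000000000000200000010102000000001084001560 := rS 0x8e55888cc9733 (k4 i3162 c72 c23 i1471 (k2 i1540 i264 (k1 c92 k0))) (by decide +kernel)
def c108 : PP 8 4 T 0x1000000000000000400000014001001625005100020000002200080000084a01160 := rS 0x1170594c6a7782b05264d (k8 c73 i1549 i1344 c75 i1548 i1116 c87 i237 (k2 c104 c106 k0)) (by decide +kernel)
def c109 : PP 8 4 T 0x1000000000000001000000000001001405005100020000002400080000004205000 := rS 0x9e18b3dc86b3bc163e4d (k8 c73 i3150 c75 i1548 i627 c77 i1029 i1461 (k2 i2046 i996 k0)) (by decide +kernel)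
def c110 : PP 8 4 T 0x400000000005001000000000000000000010000001005605005100020000002200090000084201000 := rS 0x6d6127c60ce72838664751b344694881ddbb0775c7e732173bbe5f4d6fbb5d24d (k8 c73 i3180 i3182 i3175 i3169 i3160 i3183 i3179 (k8 i3152 i3166 i3150 i3181 i3178 i3192 i1548 c68 (k8 c13 i1469 i690 i240 i224 i1671 c109 i166 (k4 c105 c27 i156 i989 (k2 i1699 i370 k0))))) (by decide +kernel)
def c111 : PP 8 4 T 0x1000000000000005000000000001001605005100020000002400080000004201000 := rS 0x3cee4d (k4 c73 i1548 c105 c109 k0) (by decide +kernel)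
def c112 : PP 8 4 T 0x10001000000000000000000000014000000020000080000400102200500004084a00040 := rS 0x15622cc3591d9e338b50d9475608353a93829904a355c9651e8543c492236463c4f2298a824c20b299ed16d10200c860177ce5cf359ebde82f599c3dbb1f81bce532d9d92e4ad5 (k8 i3190 i3154 c72 i3167 i3159 i3156 i3185 i3194 (k8 i3150 i3192 i3195 i3162 i3186 i3171 i3187 i3168 (k8 i3164 i3179 i3166 i3183 i477 i635 i999 c3 (k8 i652 i550 i754 c87 i237 i1017 i263 c36 (k8 i253 i973 c9 i2013 c33 i1032 c21 c32 (k8 i1741 c95 i868 i1141 i1116 i860 c103 c75 (k8 i1549 i1552 i1492 i1344 c107 c108 i1212 c110 (k8 i1474 i950 i264 i1964 c111 i690 i770 c92 k0)))))))) (by decide +kernel)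
def c113 : PP 8 4 T 0x1100000000000004000000000005001605005501000000002000000000004000000 := rS 0x14f34b30d65996b9ddee9 (k8 i3180 i3183 i3179 i3159 i868 i1964 i2046 i1831 (k2 i1754 c48 k0)) (by decide +kernel)
def c114 : PP 8 4 T 0x1000000000000008104000000000000000000000020000002000010000004200000 := rS 0x728cc1c47350c62e696ec1dd71f9cc85ceef (k8 i3183 i3179 i3152 i3166 i3150 i3181 i3178 i3192 (k8 i1833 i950 i989 i1029 i384 i627 i1545 i166 (k1 c27 k0))) (by decide +kernel)
def c115 : PP 8 4 T 0x1000000000000000000000014005001425005000020000102000010005084200164 := rS 0x3901c23351508e21a7c44d2cc679d586c13683527053b82ca6c92cb9e6b1d90b665ee983cb5de4d (k8 c73 i3183 i3159 i3178 i3180 i3160 i3191 i3152 (k8 i3149 i3164 i3179 i868 i1124 c87 i237 i1548 (k8 c75 i1549 i1492 i1699 i1344 i370 c107 c114 (k8 i2046 i1831 i690 i1754 i729 i384 c92 c48 (k4 i1537 i627 i1999 i166 k0))))) (by decide +kernel)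
def c116 : PP 8 4 T 0x1000000000000004000000000005001405005100800000002000000001004200000 := rS 0x44198e5119dc420e33b18b2ef9ac7642d997ba60ee7 (k8 i3179 i3178 i3180 i3160 i3191 i3152 i3149 i3164 (k8 i3183 i868 i628 i548 i627 i1689 i752 i245 (k4 i166 i2046 i1999 i690 k0))) (by decide +kernel)
def c117 : PP 8 4 T 0x1100000000000002000000014000000000000000400010102400000005084200140 := rS 0xc10695442c58882ca6ef (k8 i3183 c87 i237 i690 i1792 i729 i770 i642 (k2 i1306 c92 k0)) (by decide +kernel)
def c118 : PP 8 4 T 0x1100000000000000100000000000000000000800000000002400000000004800001 := rS 0x1ca0d07880651d (k4 i3149 i712 i711 i285 (k2 i1610 i1460 (k1 c77 k0))) (by decide +kernel)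
def c119 : PP 8 4 T 0x1100000000000004000000014005001405005500000000102400000005084200140 := rS 0x330d659 (k4 i868 c116 i2046 c117 k0) (by decide +kernel)
def c120 : PP 8 4 T 0x1100000000000000000010014005001405005000010000102200000004084a00160 := rS 0xc36583c1a668bb38ee010594d9235129d48ee775c0dde4b (k8 c72 i3183 i3194 i3181 i3179 i265 i1010 i860 (k8 i1116 i1124 c87 i237 i477 c118 c119 i950 (k4 c38 c99 i542 i546 (k2 i369 c102 k0)))) (by decide +kernel)
def c121 : PP 8 4 T 0x1000000000000000000000014005001425005080000000102200000004084a00044 := rS 0x46e55208622c16628d26cf19c581a673bb0caa0f65c108e7532ad44a355cc54164f04984a60400cd63b216ccbdd30776bbe9b396ac7c972581cee52dd (k8 i3192 i3156 i3167 i3194 i3154 c72 i3150 i3190 (k8 i3166 i3169 i3183 i3182 i3178 i3180 i3160 i3191 (k8 i3152 i3149 i3164 i477 c3 c87 i1017 i263 (k8 i1269 i237 c36 i1141 i1116 i860 i884 c115 (k8 i1010 i265 c120 i430 i424 c49 i369 i751 (k8 c101 i521 c102 i1474 i950 i1477 i280 i2046 (k4 i1344 i690 i729 i2027 (k2 i171 i249 (k1 i1999 k0)))))))))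 (by decide +kernel)
def c122 : PP 8 4 T 0x1200000000000000000000014000000820000080000000002600000000084000560 := rS 0x901ed5 (k4 i3190 i424 c93 i346 k0) (by decide +kernel)
def c123 : PP 8 4 T 0x4001100000000000000000000000000000000000000010000002200000002004800000 := rS 0x33b246a0e1839dd703 (k8 i3194 i3181 i3179 i861 i346 i17 i2658 i542 (k1 c38 k0)) (by decide +kernel)
def c124 : PP 8 4 T 0x1000000000000000000000014000000820000080000000102200000000084800560 := rS 0x394420e1908d90546083462258291cb2653bc5e23358ec85b32f74c1dcf0f (k8 i3195 i3179 i3178 i3180 i3160 i3191 i3152 i3149 (k8 i3164 i687 i948 i125 c88 i869 i265 c122 (k8 c123 i985 i522 i1345 c92 i766 i1537 i612 (k4 i611 i1611 i166 i1999 k0)))) (by decide +kernel)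
def c125 : PP 8 4 T 0x1000000000000000000000014001001020000080000400102200400004084a00040 := rS 0x27d0a878c448722b68bc4f2294782c1261298100643009ed17358ecbdeb398f92e4b039dca5bad5 (k8 i3190 i3192 i3156 i3167 i3194 i3154 c72 i3150 (k8 i3166 i3186 i3160 i3149 i3164 i550 i754 i477 (k8 i635 i999 c3 c87 i1017 i263 i237 c124 (k8 i253 i973 c9 i1162 i898 i293 c28 c112 (k4 c32 i1741 c39 c121 k0))))) (by decide +kernel)
def c126 : PP 8 4 T 0x1000000000000000000000014000002020000080000400102200400004084a00040 := rS 0x702a8cc4de2298ecbdeaf7 (k8 i3187 i3186 i3160 i3149 i253 c9 i696 c50 (k2 c28 c112 (k1 i2177 k0))) (by decide +kernel)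
def c127 : PP 8 4 T 0x1000000000000000000000014000000020000080000400102200400004084a00040 := rS 0x232394e345233f (k4 i3170 c126 i1162 c125 (k2 i293 i1746 (k1 c112 k0))) (by decide +kernel)
def c128 : PP 8 4 T 0x1000000000000000000010014002001460001000000000102200010001084000560 := rS 0x410d085464490f19329eda3357bc0de72996d06773d7acce1f3f (k8 i3170 i3195 i3162 i3186 i3168 i3167 i3171 i3159 (k8 i3156 i3185 i3194 i3187 i3164 i1162 i754 i1552 (k8 i1746 i1645 c21 i2013 i1741 i1819 c100 c63 k0))) (by decide +kernel)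
def c129 : PP 8 4 T 0x1000000000000000000000014001001625005080010000102200010001084200060 := rS 0x8dca2188a9182cc51a4d9e338b034ce77619541ecb8227c8e758a82c9e093094d72b59ac7642d997ba60eed77d3672d5 (k8 i3190 i3166 i3169 i3183 i3182 i3178 i3180 i3160 (k8 i3191 i3152 i3149 i3164 i884 i1141 c87 i1017 (k8 i263 i1269 i237 c36 i1010 i265 i1035 c100 (k8 i430 i424 c49 i369 i751 c101 i521 c102 (k8 i1474 i950 i1477 i280 i2046 i1344 i2027 i690 (k4 i730 i171 i249 i1999 k0)))))) (by decide +kernel)
def c130 : PP 8 4 T 0x10001000000000000000000000014000001020001080000000102200500000084a00044 := rS 0x15622cc3591d9e338b50d94573ab041a93829910a871b23224f18a964f6d14ea2c4a355ca3c16093094c080177ce5cf356ed063ef781bce532d9dcf5eb338792e4ad5 (k8 i3190 i3154 c72 i3195 i3162 i3186 i3168 i3167 (k8 i3159 i3156 i3185 i3194 i3187 i3150 i3171 i3192 (k8 i3164 i3179 i3166 i3183 i477 c3 c87 i1017 (k8 i263 i237 c124 i1141 i1116 i860 i550 c128 (k8 i1162 i754 i868 c36 c9 c21 i2013 c33 (k8 c32 i1741 c129 c75 i1549 i1492 i1344 c107 (k8 i1579 c108 i1212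 c110 i1474 i950 i264 i1964 (k4 c111 i690 i770 c83 k0)))))))) (by decide +kernel)
def c131 : PP 8 4 T 0x801000000000000000000000014005001420005000020000102000010001084200164 := rS 0x14f34b30d6cf3ab0d826d06a4e0a770594d925943a165ae777ba49b35 (k8 i3164 c73 i3180 i3183 i3179 i3159 i1741 c32 (k8 i868 i1124 c87 i237 i1548 c75 i1549 i1492 (k8 i1699 i1344 i370 c107 c114 c116 i2046 i1831 (k2 i1754 c48 k0)))) (by decide +kernel)
def c132 : PP 8 4 T 0x1100000000000004001000014005001405005500000000102400000001084201140 := rS 0x2ac44d6cc0594cb2ef (k8 i3183 i868 c87 i237 i2046 c116 i690 i770 (k1 c92 k0)) (by decide +kernel)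
def c133 : PP 8 4 T 0x1001000000000000000000011014000000400000500080000542000000000004000000 := rS 0xa8cb (k2 i546 c101 (k1 i1619 k0)) (by decide +kernel)
def c134 : PP 8 4 T 0x1100000000000000000000014005001425005080010000102000000000084a00061 := rS 0x35829367c58ce778a93c126129b2572255a9d48f4d77b9dd703 (k8 i3194 i3181 i3179 i3183 i3169 i265 i1010 i884 (k8 i860 i1141 i1124 c87 i1017 i263 i1269 c36 (k8 c118 c133 c38 i950 i1477 i1344 i521 c132 k0))) (by decide +kernel)
def c135 : PP 8 4 T 0x801000000000000000000000014005001420005080000000102000000000084a00045 := rS 0x46e510c4548c16628d26cf19c581a673bb0caa0f65c108e7532a150f150593c126129811723512ad66b1d90b665ee983bb5df4d9cb563f2581cee52dd (k8 i3192 i3156 i3167 i3194 i3154 i3150 i3190 i3166 (k8 i3169 i3183 i3182 i3178 i3180 i3160 i3191 i3152 (k8 i3149 i3164 i884 i860 i1116 i1141 c3 c87 (k8 i1017 i263 i1269 i237 c36 c32 i1741 c131 (k8 i1010 i265 c134 i430 i424 c49 i369 i751 (k8 c101 i521 c102 i1474 i950 i1477 i280 i2046 (k4 i1344 i2027 i690 i730 (k2 i171 i249 (k1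 i1999 k0))))))))) (by decide +kernel)
def c136 : PP 8 4 T 0x1200000000000000000000014005001420005080010080102000010001084200060 := rS 0x11b9443115230598a349b3c671606a150e673bb0cd25507b2e2a0b27824c2535cad4ea479ac7642d997ba60eed77d3672d5 (k8 i3190 i3166 i3169 i3183 i3182 i3178 i3180 i3160 (k8 i3191 i3152 i3149 i3164 i265 i1010 i884 i1141 (k8 c87 i1017 i263 i1269 i237 c36 i430 i424 (k8 c49 c63 i369 i751 c101 i777 i1811 i521 (k8 c102 i1474 i950 i1477 i280 i2046 i1344 i2027 (k4 i690 i730 i171 i249 (k1 i1999 k0))))))) (by decide +kernel)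
def c137 : PP 8 4 T 0x1100000000000000000000000000000008000000000080002400000008004001000 := rS 0x3941e6b103199b1d (k8 i3149 i153 i738 i737 i1962 i409 i1460 c77 k0) (by decide +kernel)
def c138 : PP 8 4 T 0x1000000000000000000000014005001420005080010080102000000008084a00061 := rS 0x156228443b0527160699cef05239d62a0b27824c25364965723512ad4ba11a6b9dd703 (k8 i3194 i3181 i3179 i3169 i7 i1765 i884 i860 (k8 i1116 i1141 i868 i1124 c87 i1017 i263 i1269 (k8 i237 c36 i1010 i265 c136 c118 c133 i521 (k8 c38 i1477 i1344 c137 c134 c6 i1544 c92 k0)))) (by decide +kernel)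
def c139 : PP 8 4 T 0x1000000000000000000000014000000020000080000400102200400000084a00040 := rS 0xd0cc23214aecf3aa1d86c13683527053b990b5134fc613a392ea444c7b45844f22964965723512a3c16093094c0803218049b0198bd65b398f92e4b039dca5bad5 (k8 i3190 i3192 i3156 i3167 i3194 i3154 c72 i3150 (k8 i3166 i3159 i3186 i3161 i3193 c73 i477 i635 (k8 i999 c3 c87 i1017 i263 i237 c124 i860 (k8 i1116 i1141 i868 i1124 i253 i973 i7 i550 (k8 i754 c127 i734 i1765 i1875 c128 c130 c39 (k8 c135 c18 c138 i1548 c75 i1549 i1492 i1699 (k8 i1344 i370 i778 c107 c114 i1579 i1812 c132 (k2 i2046 i384 (k1 i1831 k0))))))))) (by decide +kernel)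
def c140 : PP 8 4 T 0x1000000000000040000000000000000000000080000400102200000500004a00000 := rS 0x5d40add665b15a6cf6261f25914371c8e962ab56bf15e4f05a0d101e088a542078ac341261298100643008765b478db5daaff92d263f396ed35bf2f25c0e7729 (k8 i3156 i3167 i3194 c72 i3160 i3175 i3169 i3192 (k8 i3166 i3150 i3157 i3154 i3172 i3190 i3173 i3148 (k8 i3151 i3159 i718 i477 i635 i999 c3 c87 (k8 i1017 i263 i680 c36 i520 i822 i253 i7 (k8 c70 c47 i1436 i237 i1269 i587 i1994 c34 (k8 c37 i1200 c139 i139 i19 i393 i397 i396 (k8 i1156 i714 i1444 i899 i1883 i554 i1901 i1333 (k2 i1765 i2038 k0)))))))) (by decide +kernel)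
def c141 : PP 8 4 T 0x1000000000000000000000000000000020000080000400102200000000084a00440 := rS 0x2ea056eb32d8ad367b130f92c8a1b8e4741157ab556b17e13d52040190c025386a0c532d6fb5e933180b6e97398f92e4b039dca5bad5 (k8 i3190 i3192 i3156 i3167 i3194 i3154 c72 i3150 (k8 i3166 i3163 i3174 i3193 i3161 i3157 i3173 i3175 (k8 i3159 i253 i1436 i680 c87 i477 i635 i999 (k8 c3 i572 i758 c5 i1200 c37 c34 i587 (k8 i7 c139 i139 i19 i393 i397 i396 i1156 (k8 i714 i1444 i899 i1883 i554 i1901 i1333 i1765 (k1 i2038 k0))))))) (by decide +kernel)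
def c142 : PP 8 4 T 0x1000000000000000000000000000000000000000000500002000800000004800020 := rS 0x44cb67b48228730198bd65af7 (k8 i3187 i3159 i3186 i3161 i3193 i139 i393 i1155 (k4 i714 i1883 i696 c18 k0)) (by decide +kernel)
def c143 : PP 8 4 T 0x20801000000000000000001000014000001400005000020000102000010001084200564 := rS 0x1a1984667b0cea6d06c14ee8742a753ec92c9367f35 (k8 i3164 i3170 c73 i868 i1124 c39 i1746 i1741 (k8 c32 i1548 c75 i1492 i1699 c107 i370 c114 (k4 c132 i2046 i384 i1831 k0))) (by decide +kernel)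
def c144 : PP 8 4 T 0x20801100000000000080000000000000001400005080010000102000000000084a00061 := rS 0x19d160699cef150498582ad55bf09ea90594e1a8742a753ec95c8956a7523bbdceeb81cfe6adf6bd2663016dd2dab21 (k8 i3152 i3190 i3163 i3174 i3193 i3161 i3157 i3173 (k8 i3175 i3164 i3170 i3194 i3181 i3179 i3183 i265 (k8 i1010 i884 i860 i1141 i1124 c39 i1746 i1741 (k8 c32 i680 c87 i157 i572 i758 c5 c37 (k8 c34 i1194 i1017 i263 c36 c118 c133 i521 (k2 c38 c132 (k1 i950 k0))))))) (by decide +kernel)
def c145 : PP 8 4 T 0x20801000000000000080000000000000001400005080000000102000000000084a00045 := rS 0x43116633c46e58b2901a673bb0caa0f65c108e7532ad44a355cc54126160a8d5aab7e13d520b0214e1a8742a753f358ec85b32f74c1ddeed6acfdbed7a4cc602dba5ce63f2581cee52dd (k8 i3192 i3156 i3167 i3194 i3154 i3150 i3166 i3163 (k8 i3174 i3193 i3161 i3157 i3173 i3175 i3170 i3190 (k8 i3182 i3183 i3178 i3180 i3160 i3191 i3152 i3149 (k8 i3164 c39 i1746 i1741 c32 i680 c87 c3 (k8 i157 i572 i758 c5 c37 c34 c69 i1194 (k8 i1017 i263 c36 i1141 i1116 i860 i884 c143 (k8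 i1010 i265 c144 i430 i424 c49 i369 i751 (k8 c101 i521 i2027 c102 i171 i249 i950 i2046 (k2 i690 i730 (k1 i1999 k0)))))))))) (by decide +kernel)
def c146 : PP 8 4 T 0x1200000000000000001000014040000810000000000000002600000000004000560 := rS 0x39466a4068c46a2507b2e2edd83bae3f3990bb5aae9 (k8 i3180 i3190 i3182 i3152 i3166 i3150 i3181 i3178 (k8 i3192 i948 i430 i424 i346 i354 i985 i522 (k4 i2027 i288 i171 c27 k0))) (by decide +kernel)
def c147 : PP 8 4 T 0x1000000000000000001000014040000810000000000000102200000000084800560 := rS 0x1ca21070c846c82a03462258291cb2653bc5e23358ec85b32f74c1dcf0f (k8 i3195 i3179 i3178 i3180 i3160 i3191 i3152 i3149 (k8 i3164 i687 i948 i125 c88 i869 i265 c146 (k8 c123 i985 i522 c92 i766 i1537 i612 i611 (k2 i1611 i166 (k1 i1999 k0))))) (by decide +kernel)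
def c148 : PP 8 4 T 0x1100000000000080000000000000001605005080010000102000000000084a00061 := rS 0x19d164e834ce778a824c2c156aadf84f5482ca70d64ae44ab53a91d3eef73bae06df6bd2663016dd2dab21 (k8 i3152 i3190 i3163 i3174 i3193 i3161 i3157 i3173 (k8 i3175 i3194 i3181 i3179 i3183 i1035 i265 i1010 (k8 i884 i860 i1141 i1124 i680 c87 i157 i572 (k8 i758 c5 c37 c34 i1194 i1017 i263 c36 (k4 c118 c133 i521 i1820 (k2 c38 c132 (k1 i950 k0))))))) (by decide +kernel)
def c149 : PP 8 4 T 0x1000000000000080000000000000001605005080010000102000000000084a00061 := rS 0x8622cc11b959ea48b0353a673bb0cd25507b2e089f239d62a0930b0546ad55bf09ea90594e1ab91a8956b358ec85b32f74c1ddeed6ab7daf4998c05b74b (k8 i3163 i3174 i3193 i3161 i3157 i3173 i3175 i3190 (k8 i3182 i3183 i3178 i3180 i3160 i3191 i3152 i3149 (k8 i3164 i884 i860 i1116 i1141 i680 c87 i157 (k8 i572 i758 c5 c37 c34 c69 i1194 i1017 (k8 i263 c36 i1010 i265 i1035 c148 i430 i424 (k8 c49 c63 i369 i751 c101 i1819 i521 c102 (k8 i2027 i950 i171 i249 i2046 i690 i730 i1999 k0))))))) (by decide +kernel)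
def c150 : PP 8 4 T 0x1000000000000004001000014001001605005100020000102400080001084201540 := rS 0x156226b661660aef (k8 i3183 c75 i868 c111 i1964 i690 i770 c92 k0) (by decide +kernel)
def c151 : PP 8 4 T 0x1000000000000008100000000000000000000000020000002000010000004200000 := rS 0x319846a (k4 i1029 c114 i628 i117 k0) (by decide +kernel)
def c152 : PP 8 4 T 0x801000000000000080000000000000001400001080000000102000500000084a00045 := rS 0x27cda312333cea0d4ec14ee64460da32854384de20930b055aab7e13d520b0214e1ac92c8d44a7b45b449af781bce532da0cedbb398fcd5bed7a4cc602dba5c95ab21 (k8 i3152 i3190 i3154 i3163 i3174 i3193 i3161 i3157 (k8 i3173 i3175 i3164 i3150 i3166 i3192 i3167 i3171 (k8 i3159 i3156 i3185 i3194 i3187 c73 i1162 i550 (k8 i754 i860 i1116 i868 i1124 i680 c87 c3 (k8 i157 i572 i758 c5 c37 c34 i1194 i1017 (k8 i263 c9 i28 c32 i1741 c145 c33 i2013 (k8 c149 i1548 c75 i1552 i1492 c107 c151 c150 (k4 i1532 i1696 i996 c113 k0)))))))) (by decide +kernel)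
def c153 : PP 8 4 T 0x1000000000000000001000014005001400005000020080102000010001084200564 := rS 0x1a198464295d0e7536b3c1b053bb24b24d (k8 c73 i868 i1124 i1548 c75 i1492 c151 i1699 (k8 c107 i778 i1579 i1812 c132 i2046 i384 i1831 k0)) (by decide +kernel)
def c154 : PP 8 4 T 0x1100000000000004001000014005001405005100000000102400000000084a01141 := rS 0x1dd9225 (k4 i860 i1124 c118 c132 k0) (by decide +kernel)
def c155 : PP 8 4 T 0x1000000000000004001001014045001405005100000000102400000000084a01541 := rS 0x8622cc11b94eec3521541ecb820966b1d90b665ee983bbddad5 (k8 i3190 i3182 i3183 i3178 i3180 i3160 i3191 i3152 (k8 i3149 i3164 i860 c154 i430 i424 c49 i2027 (k8 i369 i751 i171 i249 i2046 i690 i730 i1999 k0))) (by decide +kernel)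
def c156 : PP 8 4 T 0x4001200000000000000000010014005001405005100000000002400010000084201540 := rS 0x1dd865507b2daaed (k8 i3182 i3190 i430 i424 c49 i369 i751 c102 k0) (by decide +kernel)
def c157 : PP 8 4 T 0x1001000000000000000001011014045001405005000010000142400000000084a01541 := rS 0x663bc162ece29b246a7573bae06ef (k8 i3183 i3194 i3181 i3179 i1010 i1116 i1124 c87 (k4 c155 i950 c156 c118 (k2 c38 c133 k0))) (by decide +kernel)
def c158 : PP 8 4 T 0x1000000000000000000000000000000008000000000080002400000008004001000 := rS 0x20854 (k2 i777 c137 (k1 c49 k0)) (by decide +kernel)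
def c159 : PP 8 4 T 0x1001000000000000000001011014045001400005000010080142400000008084a01541 := rS 0x208682ac4508872c894ba11 (k8 i7 i1765 i860 i868 c158 c157 c6 i1544 (k2 i1811 c92 (k1 c63 k0))) (by decide +kernel)
def c160 : PP 8 4 T 0x1000000000000080000000000000000000000080000400102200000008084a00040 := rS 0xaa66658308e7532a7d3a5a8c44c727b48a2c765d08904f2298aae46a255aa3d12ab56bf09ea986a8d820b04984a6040190c033f80cc5eb2d9ebde833387ce63e4b92c0e77296eb5642df6bd25b74b (k8 i3163 i3174 i3157 i3173 i3175 i3152 i3190 i3192 (k8 i3156 i3167 i3194 i3154 c72 i3150 i3166 i3195 (k8 i3162 i3171 i3187 i3168 i3159 i3186 i3161 i3193 (k8 i3170 i477 i635 i999 c3 c87 i1017 i263 (k8 i157 i1194 c69 i680 i572 i758 c5 c34 (k8 c37 c141 c147 i884 i860 i1116 i1141 c36 (k8 i253 i973 i42 i7 i1765 c142 i550 i734 (k8 i754 i1875 c152 c21 c18 i1746 c39 c153 (k4 i1010 i265 c159 i2297 (k2 i521 i1490 (k1 c101 k0))))))))))) (by decide +kernel)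
def c161 : PP 8 4 T 0x1000000000000080000000000000001400000080000000102000000014084a00045 := rS 0x2243915b45e2791dc765ef5 (k8 i3186 i3160 i3149 i1156 i973 c9 i1162 i898 (k2 i293 c28 (k1 c152 k0))) (by decide +kernel)
def c162 : PP 8 4 T 0x1000000000000080000000000000000000000080000400102200000000084a00040 := rS 0x6cd01523633134822c762747a25e2290498582a356aadf84f5482c080321804a70d7bc0de72996d06771d97bd5bed7a4cc602dba5ce63e4b92b75ab21 (k8 i3152 i3190 i3192 i3154 c72 i3150 i3166 i3163 (k8 i3174 i3193 i3161 i3157 i3173 i3175 i3186 i3160 (k8 i3149 i3167 i3171 i3159 i3156 i3185 i3194 i3187 (k8 i680 c87 i477 i635 i999 c3 i157 i572 (k8 i758 c5 c37 c34 c69 i1194 i1017 i263 (k8 i253 c9 c141 c147 c160 i1156 i550 c161 (k4 i696 c50 i1032 c28 (k2 i2013 i899 (k1 i990 k0))))))))) (by decide +kernel)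
def c163 : PP 8 4 T 0x10401000000000000000000000000000000100000000000000002010000014004a00000 := rS 0x6816d162a1dbc5ef0379ca65b419dc765ef5 (k8 i3186 i3160 i3149 i3167 i3171 i3159 i3156 i3185 (k8 i3194 i3187 c9 i1156 c28 i550 i771 i2013 (k1 i1163 k0))) (by decide +kernel)
def c164 : PP 8 4 T 0x1000000000000000000000000000002000000000000400002010000000004a00020 := rS 0x3a2e8991b198984452f7 (k8 i3187 i253 i7 i696 c50 i1032 c163 i1765 (k2 i734 c142 k0)) (by decide +kernel)
def c165 : PP 8 4 T 0x1001000000000000000000011014000000400000100000000542200000000004002020 := rS 0x2a9999641 (k4 i42 i2297 i521 i1490 (k1 c101 k0)) (by decide +kernel)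
def c166 : PP 8 4 T 0x1000000000000000401000014040000002000000000080002400000001004001540 := rS 0x8283cd056 (k4 i1812 i1811 i502 c63 (k1 c98 k0)) (by decide +kernel)
def c167 : PP 8 4 T 0x20001100000000000000401000014040001405005000050001002400000001004001540 := rS 0x1106615d9e0e8b2753ec92c9d4eeef73bae073f (k8 i3170 i3194 i3181 i3179 i3183 i751 i1010 i868 (k8 i1124 c39 i1746 c38 c98 i950 i502 i2046 (k2 c83 i690 k0))) (by decide +kernel)
def c168 : PP 8 4 T 0x1000000001000008000000000000000000000000000000002000054000004000000 := rS 0x318bb760eeb8fce642ef (k8 i3183 i3152 i3166 i3150 i3181 i3178 i3192 i950 (k2 i988 c27 k0)) (by decide +kernel)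
def c169 : PP 8 4 T 0x1000000000000004000000000005001400005100020080002000000001004200000 := rS 0xa79a4d6cc4295cb27782a1cdb2d73bbdd24d (k8 c73 i3180 i3183 i3179 i3159 i1699 i778 c75 (k8 i1548 i868 i1579 i1812 i2046 c116 i1831 i1754 (k1 c48 k0))) (by decide +kernel)
def c170 : PP 8 4 T 0x1000000000000000001000000045001400001080020080102000000000044a00464 := rS 0xcb2383d4a7c19888e8cf069ec72d1049855aab7e13d525386b24b23512b7daf4998c05b74b (k8 i3163 i3174 i3193 i3161 i3157 i3173 i3175 i860 (k8 i1116 i868 i1124 i680 c87 i572 i758 c5 (k8 c37 c34 i1017 i263 i1162 i293 i714 i1492 (k8 c151 c169 i971 c23 i1096 i248 i245 i264 (k2 i1327 i2027 k0))))) (by decide +kernel)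
def c171 : PP 8 4 T 0x20001000000000000004401000014040001405005000410000002400010001004009540 := rS 0x198543bc14ce9d4f9d5ab3f (k8 i3170 i3190 i1010 c39 i1746 i542 i424 i752 (k2 c167 i2046 (k1 i770 k0))) (by decide +kernel)
def c172 : PP 8 4 T 0x20001000000000000004405000014040001404005000010080002400010001044201540 := rS 0x2188b30ee23729554904079ad0a9d4f9d66b1d90b665ee983bbddb3f (k8 i3170 i3182 i3183 i3178 i3180 i3160 i3191 i3152 (k8 i3149 i3164 i1010 c39 i1746 c166 c116 c171 (k8 c98 i2027 c49 i171 i248 i751 i2046 i690 (k2 i730 i1999 k0)))) (by decide +kernel)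
def c173 : PP 8 4 T 0x4001000000000000000900010000000000000000000010000002000000000004000000 := rS 0xcf0573bae06ed (k4 i3182 i3194 i3181 i3179 (k2 i430 i546 (k1 c38 k0))) (by decide +kernel)
def c174 : PP 8 4 T 0x5001100000000000000000011014000000400000000010000542400000000004800001 := rS 0x198eec93ab9dd703 (k8 i3194 i3181 i3179 i1010 i1124 c118 c38 c133 k0) (by decide +kernel)
def c175 : PP 8 4 T 0x1001000000000000008001011014040000400000000010000142400000000004a01541 := rS 0x33728c548c307c11971729b246add83bae3f3990bb5aaef (k8 i3183 i3190 i3182 i3152 i3166 i3150 i3181 i3178 (k8 i3192 i1116 i1124 c87 i950 c173 c174 i424 (k4 i369 i2027 i989 i171 (k2 i289 c27 k0)))) (by decide +kernel)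
def c176 : PP 8 4 T 0x20001200000000000004001000014040001404005000010080002400010001044201540 := rS 0xc207b2daaed (k4 i3182 i3190 i430 i424 (k2 c172 i369 k0)) (by decide +kernel)
def c177 : PP 8 4 T 0x20001100000000000004401000014040001404005000010080002400010001004201540 := rS 0x1ac1c854ea7ceb3f (k8 i3170 i1010 c39 i1746 c166 c98 c116 c171 k0) (by decide +kernel)
def c178 : PP 8 4 T 0x20001000000000000000001000000040001400001080000080102200000008044a00444 := rS 0x2ac45986b4295d947782b3d0e0d239d4cab5128d57259649ec72d18a824c2ad55bf09ea902004a70d4ea7ddf3f6fb5e933180b6e97398f92e4b039dca5bad5 (k8 i3190 i3192 i3156 i3167 i3194 i3154 c72 i3150 (k8 i3166 i3163 i3174 i3193 i3161 i3157 i3173 i3175 (k8 i3170 i3183 c39 i1746 i680 c87 i477 c3 (k8 i572 i758 c5 c37 c34 i1017 i263 c36 (k8 i1162 i293 i714 i1124 i868 i1141 i1116 i860 (k8 i884 c170 i1010 i265 c165 c158 c175 c176 (k8 c118 c177 i505 i1812 c116 i2046 i690 i770 (k1 c83 k0)))))))) (by decide +kernel)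
def c179 : PP 8 4 T 0x111000000000000000800001000000000000040000000010002000000000004000000 := rS 0x3ed0dd2e7 (k4 i3179 i3180 i1212 i1328 (k1 c79 k0)) (by decide +kernel)
def c180 : PP 8 4 T 0x1100000000000000000000000000000800000000000010002000000001004008020 := rS 0xce342a080aee511c44ef358ec85b32f74c1dcf0f (k8 i3195 i3179 i3178 i3180 i3160 i3191 i3152 i3149 (k8 i3164 i125 i687 i245 i166 i502 i1999 c83 (k2 i726 i1619 (k1 i355 k0)))) (by decide +kernel)
def c181 : PP 8 4 T 0x1100000000000000001000014040000800000000000000102200000000004800560 := rS 0x15caaca6483c1a3112c462e5923995d30f (k8 i3195 i3180 c88 i265 i869 i948 i687 c123 (k8 i985 i522 c180 i611 c98 i766 i505 c83 k0)) (by decide +kernel)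
def c182 : PP 8 4 T 0x1000000000000000001000014040000800000000000000102200000000044800560 := rS 0x11b95480d108c46a2507b2e084732c466b1d90b665ee983bb5ab0f (k8 i3195 i3190 i3182 i3178 i3180 i3160 i3191 i3152 (k8 i3149 i3164 i687 c88 i265 c181 i430 i424 (k8 i346 i354 i985 i726 i522 i2027 i171 i248 (k1 i1999 k0)))) (by decide +kernel)
def c183 : PP 8 4 T 0x101200000000000004405000014044001605005100000000002400000001044001540 := rS 0x81982372a74eea4349541f358ec85b32f74c1ddad5 (k8 i3190 i3182 i3178 i3180 i3160 i3191 i3152 i3149 (k8 i3164 i424 c49 c63 i2027 i751 i1819 i171 (k4 i248 i2046 i1999 i730 k0))) (by decide +kernel)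
def c184 : PP 8 4 T 0x101000000000000000401000000040001000001080010080102200000008044a00444 := rS 0x36a741d163bc153ec3460d90a878cbc5163b3d8e5a2c912b3c1a7523ad5728f55ab5f90d27aa41261298122a01a0bde06f394cb676dd9cc7c97256ab7daf4998c05b74b (k8 i3163 i3174 i3193 i3161 i3157 i3173 i3175 i3190 (k8 i3154 c72 i3150 i3166 i3192 i3167 i3159 i3156 (k8 i3185 i3194 i3187 i3171 i477 c36 c3 c87 (k8 i1017 i263 i572 i758 i680 c5 c34 c37 (k8 c182 i1141 i884 i265 i1010 c165 c175 i860 (k8 i1124 i1162 i293 i714 i1155 i550 c9 c178 (k8 c158 c166 c33 i2013 i1956 i1035 c183 c118 (k4 c174 c98 i1478 i668 (k1 c113 k0))))))))) (by decide +kernel)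
def c185 : PP 8 4 T 0x1101100000000000000401011014040001405001000010040142400000000004a01541 := rS 0x1bc653c6b66b1ca8202bb94469d07458eef1298ecf63968b24b235129d59edda0ce63ef79ac7642d997ba60ee7 (k8 i3179 i3178 i3180 i3160 i3191 i3152 i3149 i3164 (k8 i3187 i3150 i3166 i3171 i3192 c175 i1010 i860 (k8 i1116 i868 i1124 i1162 i293 i714 i1155 c87 (k8 c9 c118 c174 c98 i1478 i245 i166 i502 (k8 i1999 c83 i1689 i769 i628 i2046 c171 i997 (k1 c33 k0)))))) (by decide +kernel)
def c186 : PP 8 4 T 0x101000000000000080400000000000000000000080010400102200000008004a00040 := rS 0x18b4f4f3358e9d1045846e53ba91865507c110a878916de279148ecba2b3d8e5a291208959e0d3a91d6ab94787d56ad7e4349ea951b0416093094c080321c54030790bbdef419ac75b32f74bb5ab0198bd65a4b9cc7e4b039dca5badf6bd25b74b (k8 i3163 i3174 i3157 i3173 i3175 i3192 i3156 i3167 (k8 i3194 i3154 i3150 i3166 c72 i3159 i3186 i3161 (k8 i3193 i3190 i3182 i3180 i3160 i3191 i3149 i3164 (k8 i3171 i3187 i3183 i3152 i3178 i477 c36 i635 (k8 i999 c3 c87 i1017 i263 i157 i1194 c69 (k8 i572 i758 i680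 c5 c34 c37 c162 c182 (k8 i1141 i884 i265 i1010 c165 c175 i860 i42 (k8 c164 i1162 i293 i714 i898 i510 i1155 i253 (k8 i973 c9 c184 c18 c32 i1741 c185 i424 (k8 c49 i369 i2027 i751 i171 i248 c68 i1999 (k4 i1478 i1689 i730 i2046 (k2 i1487 i1526 (k1 c29 k0))))))))))))) (by decide +kernel)
def c187 : PP 8 4 T 0x1000000000000010000000000008000040000000010000002000000000004000000 := rS 0x8d8cbde06f394cb6833b (k8 i3167 i3171 i3159 i3156 i3185 i3194 i3187 c39 (k2 i1035 i2013 k0)) (by decide +kernel)
def c188 : PP 8 4 T 0x1201000000000000004000011014004001444005500000000542000000000004000000 := rS 0x46c65386768a159af781bce532da0cee7eef (k8 i3183 i3170 i3167 i3171 i3159 i3156 i3185 i3194 (k8 i3187 i690 c6 i1162 c133 i2046 i1746 i1820 (k1 i2013 k0))) (by decide +kernel)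
def c189 : PP 8 4 T 0x1000000000000000100000000000000000000800000000002400000000004800001 := rS 0x20854 (k2 i751 c118 (k1 c49 k0)) (by decide +kernel)
def c190 : PP 8 4 T 0x1000000000000000000000000000000008000000000500002400000008004001000 := rS 0xb71380cc5eb2d (k4 i3159 i3186 i3161 i3193 (k2 c32 c158 (k1 c18 k0))) (by decide +kernel)
def c191 : PP 8 4 T 0x1000000000000080000000000000000000000080010400102200000008004a00040 := rS 0x1986b429513a7e8295e2cca88a1cee9f678348e753c8a5163b2e8acf63968a4483156496572255aa3d56ad7e13d530d51b0416093094c080321805021fa0bb5d3398f92e4b039dca5bad590b7daf4998c05b74b (k8 i3163 i3174 i3193 i3161 i3157 i3173 i3175 i3152 (k8 i3190 i3192 i3156 i3167 i3194 i3154 c72 i3150 (k8 i3166 i3180 i3182 i3171 c162 i1770 i477 i635 (k8 i999 c3 c87 i1017 i263 i157 i1194 c69 (k8 i680 i572 i758 c5 c34 c37 c182 i884 (k8 i860 i1141 i868 i1124 c36 i42 c164 i1162 (k8 i293 i714 i898 i510 i1155 i550 i253 i973 (k8 i1010 i265 c165 c175 c187 c189 c190 c188 (k8 c186 c68 i505 i430 c179 i1478 c83 i1670 (k2 c116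 i2046 (k1 i770 k0))))))))))) (by decide +kernel)
def c192 : PP 8 4 T 0x1001000000000000004000011014004001445005100020000142000000001004200000 := rS 0x151986b8895ca6593bc153a4d (k8 c73 i1552 c75 i1548 i868 c87 i1579 c188 (k4 c116 i2046 c83 i770 k0)) (by decide +kernel)
def c193 : PP 8 4 T 0x11000000000000000001001014040000000000200000010002000000100044801520 := rS 0x11d960f52c44667f111bc0f33 (k8 i3162 i520 i968 i971 i1668 c23 i1471 i248 (k4 i245 c179 i264 i2027 k0)) (by decide +kernel)
def c194 : PP 8 4 T 0x1000000000000000001000000044001400000180020400102000000000044a00460 := rS 0x42a1e245b3c8a406432e8acf63968c555aab7e13d525386ae44ab54ea2c76cf1ab266b0198bd65adf6bd25b74b (k8 i3163 i3174 i3157 i3173 i3175 i3159 i3186 i3161 (k8 i3193 i3164 i1124 i1116 c151 i1155 i550 i1552 (k8 i884 i860 i1141 i680 c87 i572 i758 c5 (k8 c37 c34 c36 i1162 i293 i714 i898 i510 (k8 i635 i999 i253 i973 c170 c18 c32 i1741 (k1 c192 k0)))))) (by decide +kernel)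
def c195 : PP 8 4 T 0x1000000000000080000000000000000000000080000400102200000108004a00000 := rS 0x8888dca21660c18c87460d88e858c8cd3c75678353a64789e4528b1d974567b1cb452241649646a255aa3c3eab56bf09ea986a8d820b04984a6070200c86019ac7642d997ba60eef8fbde06f394cb6833b6ece497256ab7daf4998c05b74b (k8 i3163 i3174 i3193 i3161 i3157 i3173 i3175 i3190 (k8 i3154 c72 i3166 i3192 i3167 i3171 i3159 i3156 (k8 i3185 i3194 i3187 i3150 i3183 i3178 i3180 i3160 (k8 i3191 i3152 i3149 i3164 i477 i635 i999 c3 (k8 i520 c87 i1017 i263 i157 i1194 c69 i680 (k8 i572 i758 c5 c34 c37 c162 c182 i884 (k8 i860 i1116 i868 i1124 i42 c164 i1162 i293 (k8 i714 i898 i510 i1155 i550 i253 i973 c9 (k8 c191 i1552 i1492 c151 c193 c194 i1712 c39 (k8 i1605 i264 c33 i2013 c190 i997 i996 c111 (k4 i1689 i1461 i1571 i690 (k1 i1999 k0)))))))))))) (by decide +kernel)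
def c196 : PP 8 4 T 0x1000000000000000001000000040001405001080020000102000000100044a00424 := rS 0x8888dca21660c18c8c1b11e32334f1d59e0d4ebc5163b3d8e5a315049855aab7e13d525386b24b2b91a8956b358ec85b32f74c1ddf1f7bc0de72996d0676dd9cb7daf4998c05b74b (k8 i3163 i3174 i3193 i3161 i3157 i3173 i3175 i3166 (k8 i3192 i3167 i3171 i3159 i3156 i3185 i3194 i3187 (k8 i3150 i3183 i3178 i3180 i3160 i3191 i3152 i3149 (k8 i3164 i884 i860 i1116 i1141 i868 i1124 i680 (k8 c87 i572 i758 c5 c37 c34 i1017 i263 (k8 c36 i1162 i293 i714 i1155 i550 c9 i1552 (k8 i1492 c151 c193 c192 i1712 c39 i264 c33 (k8 i2013 i997 i996 c111 i1689 i1461 i1571 i690 (k1 i1999 k0))))))))) (by decide +kernel)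
def c197 : PP 8 4 T 0x101000000000000000800000000000000000000000000011102000000000004000000 := rS 0x414aeed (k4 i3182 i505 i430 c83 k0) (by decide +kernel)
def c198 : PP 8 4 T 0x101000000000000000000000000200000000000000000000002000000001144000000 := rS 0x46e59ac7642d997ba60eed (k8 i3182 i3178 i3180 i3160 i3191 i3152 i3149 i3164 (k2 i171 i248 (k1 i1999 k0))) (by decide +kernel)
def c199 : PP 8 4 T 0x1000000000000080000000000000000000000080000400102200000100004a00000 := rS 0xe5118394acb10955986b4ec5a22cf3b8353e473a9950a878909d6a255c965928f0faad5afc27aa546c105bc4f22915a2c767b1cb45224103c561a093094c0803218066b1d90b665ee983b9e82f5a5b6e0331a4b5dab398f92e4b039dca5badf (k8 i3175 i3192 i3156 i3167 i3194 i3154 c72 i3150 (k8 i3166 i3190 i3173 i3157 i3161 i3193 i3174 i3163 (k8 i3186 i3171 i3179 i3178 i3180 i3160 i3191 i3152 (k8 i3149 i3164 i477 i635 i999 c3 c87 i1017 (k8 i263 i680 c36 i520 i42 c164 i1162 i293 (k8 i714 i1155 i550 i898 i253 i973 c9 i157 (k8 i1194 c69 i572 i758 c5 c34 c37 c162 (k8 c182 i1124 i868 i1141 i860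 i884 c195 c28 (k8 c32 i1741 c196 i1010 i265 c187 c165 c189 (k8 c175 c188 c68 i1478 c116 i2046 i770 i729 (k4 c197 c198 i2027 i245 (k2 i166 i1999 k0)))))))))))) (by decide +kernel)
def c200 : PP 8 4 T 0x1000000000000000000000000000000000000080000400102200000100004a00000 := rS 0xfd27828c42e69c34e2530200c8601a5b6e0331a4b5dbf398f92e4b039dca5bad5 (k8 i3190 i3192 i3156 i3167 i3194 i3154 c72 i3150 (k8 i3166 i3175 i3173 i3157 i3161 i3193 i3174 i3163 (k8 i477 i635 i999 c3 c87 i78 i680 c199 (k4 c140 i316 i315 i1350 (k2 c22 c5 k0))))) (by decide +kernel)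
def c201 : PP 8 4 T 0x10021000001000000000000000000000141000005054000000002000500100004000000 := rS 0x9b418da24815bbe5bb419cc7def3d7acce1ee3 (k8 i3177 i3195 i3162 i3186 i3168 i3187 i3150 i3166 (k8 i3171 i3192 i3188 i682 c2 c21 c33 i697 (k2 i994 i2045 k0))) (by decide +kernel)
def c202 : PP 8 4 T 0x1001000000000000000000000000141000005054000500142000400100004200000 := rS 0xb7134126e30b740c31e2531cb4603317acb5f2e3a5b6e92d7 (k8 i3173 i3157 i3174 i3163 i3177 i3188 i3159 i3186 (k8 i3161 i3193 i1162 i293 c87 c9 c5 c2 (k4 i682 c201 i956 i2045 (k2 i697 i775 (k1 c18 k0))))) (by decide +kernel)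
def c203 : PP 8 4 T 0x21000001000000000000000000000141000105054000500002000500150004000800 := rS 0xb2539684d134126e30b780cc5eb2d8ecbdf2e3 (k8 i3177 i3188 i3160 i3149 i3159 i3186 i3161 i3193 (k8 i682 c201 i956 i2045 i697 c28 c18 i1914 (k2 i776 i660 k0))) (by decide +kernel)
def c204 : PP 8 4 T 0x1000000000000000000000000000000000800000000080002000000008004000800 := rS 0x2bc7cb7 (k4 i103 i736 i1922 i401 k0) (by decide +kernel)
def c205 : PP 8 4 T 0x401000000000000000000000000000141000005054000400082000000040024200800 := rS 0x532cd6c834d9684d18788a5025d7cc0662f596c765f3d7bd06670f (k8 i3195 i3162 i3171 i3187 i3168 i3160 i3149 i3159 (k8 i3186 i3161 i3193 i3188 i510 i1276 i253 c9 (k8 c21 c28 c18 i956 c204 i2045 i1429 i722 (k1 i331 k0)))) (by decide +kernel)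
def c206 : PP 8 4 T 0x1000000000000000000000000000001000000040000400102000000100004a00800 := rS 0x232374d2dd4e3f59a0e241c86a049c974cc50e21f7ea25a6f1299e4523b2e8acf63968a84de2f54b7683398fbddf32f71d35bed5 (k8 i3190 i3175 i3169 i3177 i3160 i3188 i3187 i3150 (k8 i3166 i3171 i3192 i1086 i1079 i968 i822 i1162 (k8 i293 i714 i898 i510 i1155 i253 i973 c87 (k8 c9 i157 i277 c22 i237 i710 c47 i942 (k8 i1210 c202 i1276 c203 c70 c205 i697 i1429 (k4 i1421 i331 i722 i2045 (k2 i995 i956 (k1 c33 k0)))))))) (by decide +kernel)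
def c207 : PP 8 4 T 0x1000001000000000000000000000800000000000000000002000500100004000000 := rS 0x1bc65bb419cc7deef9 (k8 i3188 i3187 i3150 i3166 i3171 i3192 i956 i994 (k1 c33 k0)) (by decide +kernel)
def c208 : PP 8 4 T 0x1000000000000001000000000000000000000140000000000400000000000082000000000004000000 := rS 0x59bf65af37cb5e92e3 (k8 i3177 i3157 i3173 i3188 i3185 i3159 c19 i1429 (k1 i2015 k0)) (by decide +kernel)
def c209 : PP 8 4 T 0x801000000000000004005000014045001600001100000080102000000000044a00561 := rS 0x578283996a50695442c588b30ee47329ec72d143a159259129addf35 (k8 i3164 i3183 i1964 i860 i868 i1124 i1741 c32 (k8 i1162 i293 i714 c169 i265 c189 i2046 i690 (k8 i1792 i730 i770 i642 c198 c197 i2027 c183 (k2 i502 c83 k0)))) (by decide +kernel)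
def c210 : PP 8 4 T 0x1002000000000000001000000040000000000200000010102040000000004800560 := rS 0x20acb2383c1a642ac44662256aac9733 (k8 i3162 c72 c37 c34 i971 c23 i1471 i1540 (k4 i1010 i1570 i245 i264 (k2 c197 c75 (k1 c98 k0)))) (by decide +kernel)
def c211 : PP 8 4 T 0x10801000000000000004001000014045001400001100000080102000000000044a00561 := rS 0x186361cbc5188b1db46774196ca5e7037bc7e72dd (k8 i3192 i3166 i3150 i3187 i3194 i3185 i3156 i3159 (k8 i3171 i3167 i1162 i1155 i550 i2013 c9 i293 (k2 c33 i1956 (k1 c209 k0)))) (by decide +kernel)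
def c212 : PP 8 4 T 0x1002000000000080000100000008000240000000400000002000180000004000560 := rS 0x32c1f050691cd8c63219c66ad55b054721 (k8 i3152 c69 i1194 c37 c34 i1712 i1714 i1035 (k8 i997 i1036 i264 i521 c75 i409 i674 c98 k0)) (by decide +kernel)
def c213 : PP 8 4 T 0x10801002000000000084000000000000201400001100000080102000000000044a00561 := rS 0x14a0f6591c1a328b9958e6d4e27d7ab9358d872f14622c76d156aad82a364d06433b96ca5e7037bc7e72dd (k8 i3192 i3166 i3150 i3187 i3194 i3185 i3156 i3159 (k8 i3167 i3152 i3171 i1124 c69 i1194 c37 c34 (k8 i1162 i1155 i550 i2013 c9 i293 c33 i1964 (k8 i1143 i1990 c212 c211 i1643 i1641 i1552 i1478 (k4 i1780 i641 i383 c173 (k2 i285 i289 (k1 i2027 k0))))))) (by decide +kernel)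
def c214 : PP 8 4 T 0x10801002000000000080000000400000201000001000000080142240000100044a00500 := rS 0xa507b2dc904639b586ba18ae16b103b9ac1a4732b169f1734b38ea352cb251ea36081c0803008d872f14622c76d18aab556ed6ac1e42ef96b9dd2eb71cee832979c0def1f9cb749725 (k8 i3154 c72 i3192 i3166 i3150 i3187 i3194 i3185 (k8 i3156 i3171 i3167 i3177 i3181 i3180 i3179 i3159 (k8 i3183 i3152 i3178 i3190 i3182 c37 c34 i942 (k8 i1162 i1155 i550 i2013 c9 i293 c33 i477 (k8 i999 c3 i520 i1194 c69 c182 i1124 i868 (k8 i1116 c210 c213 i1833 i950 i1755 i1794 c151 (k8 i384 c99 i1965 c189 c68 i689 c175 i986 (k8 i1144 i1957 i1682 i1679 c48 c29 i430 i424 (k2 i171 i2027 k0))))))))) (by decide +kernel)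
def c215 : PP 8 4 T 0x400000000000000001000001000000000010020000000200020000000000000002000100000004000000 := rS 0x31dcac35ea90649583c85deed (k8 i3182 i3183 i3152 i3178 i104 i1404 i1403 i1991 (k4 i290 i171 i415 c29 k0)) (by decide +kernel)
def c216 : PP 8 4 T 0x1000000000000008000000014000200420000000000000142208100000004a00560 := rS 0x144bb5cad62077608348e65629d69f1734bc40315648d5dae975bbdc64b (k8 c72 i3177 i3183 i3181 i3180 i3182 i1116 i1124 (k8 i942 i477 c9 i1833 i950 i1755 c74 i1794 (k8 c151 i384 c99 i1426 c189 c68 i689 c215 (k2 i1951 c175 (k1 i407 k0))))) (by decide +kernel)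
def c217 : PP 8 4 T 0x10001000000000000004000000000080400020000000000000002008400000004000000 := rS 0x45d3f4f4e8c974c6a0baddf39 (k8 i3166 i3183 i3181 i3171 i406 i407 i280 i1641 (k4 c71 i1686 i1474 c55 k0)) (by decide +kernel)
def c218 : PP 8 4 T 0x10801000000000000004001080014040201400001100000080142000000100044a00521 := rS 0x5a1dd246623a718e9f2981d363978a31163b68c5592b971cee832d94bce06f7 (k8 i3187 i3194 i3185 i3156 i3159 i3171 i3167 i3177 (k8 i1143 i1124 i942 i1162 i1155 i550 i2013 c9 (k8 i293 c207 i520 c87 i1686 i1679 c211 i383 (k4 i1820 i1943 c189 c133 (k1 i1369 k0))))) (by decide +kernel)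
def c219 : PP 8 4 T 0x10801002000000000004001000000040201400001000000080142040000100044a00501 := rS 0xc6583e0a4736318c86719a793abb3a81c08031b0e5e2ad55964d68c458eda2bd9dd065b2979c0def1f9cb764ad5 (k8 i3190 i3154 i3192 i3166 i3150 i3187 i3194 i3185 (k8 i3156 i3159 i3171 i3167 i1990 i1162 i1155 i550 (k8 i2013 i1964 i868 c37 c34 c9 i293 c33 (k8 i999 c3 i520 c210 c218 i1942 c211 i1712 (k8 i1714 i1035 i997 i1036 i264 c75 i409 i674 (k2 c98 i521 k0)))))) (by decide +kernel)
def c220 : PP 8 4 T 0x10801002000000000000000000000000201420001000000080142248000500044a00500 := rS 0xcd4f9d53a7762254463323b0146cf12b24f6070200c029b43a146c3b1cb45e2ad5587506f97bc7e73416ecd4972581cee52d5 (k8 i3190 i3156 i3167 i3194 i3154 c72 i3164 i3192 (k8 i3171 i3166 i3150 i3187 i3188 i697 i1421 c37 (k8 c34 c9 i1162 i293 i1155 c33 i1741 c32 (k8 c207 i477 i999 c3 i520 i714 i1124 i860 (k8 c216 c217 c219 i1534 i1614 i1574 i1518 i1426 (k4 c189 i1780 i971 i1112 (k2 i1792 i2046 k0))))))) (by decide +kernel)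
def c221 : PP 8 4 T 0x10801000000000000000000004400000200000000000000400102200000100044a00000 := rS 0x14f678d53abe6229466c051a7d2b17472207cd355ab5f85a299e4525d1581d4e811b0e5e28c458eda23d17c54124f58aa68a835782ce6910200c860120d05d6ef7cba63f396ed35bee391cb5e6d7a492e4b039dca5aaf7 (k8 i3187 i3190 i3156 i3167 i3194 i3154 c72 i3157 (k8 i3173 i3185 i3159 i3153 i3177 i3175 i3169 i3192 (k8 i3166 i3150 i3180 i3188 i3183 i3181 i3171 i42 (k8 i477 i635 i999 c3 c164 c200 c206 i587 (k8 i697 i1750 i1086 i1826 c208 i382 i942 i1079 (k8 i1786 i1162 i1155 i550 i2013 c9 i293 c33 (k8 c46 i330 i520 i898 i510 i253 i973 c87 (k8 i2038 i2015 c34 c37 c214 c8 c47 c220 (k8 i948 i1102 i2709 i281 c182 i1614 i114 i1426 (k4 i1425 i1780 i358 i1794 (k2 i1488 c55 k0))))))))))) (by decide +kernel)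
def c222 : PP 8 4 T 0x1000000000000000000000000000000800000000000000002200000002004800000 := rS 0x2080e8b995aae9 (k4 i3180 i3190 c88 i948 (k2 i346 c123 (k1 i424 k0))) (by decide +kernel)
def c223 : PP 8 4 T 0x5001000000000000000000010000080010000000000000000002000000400004000000 := rS 0x24e874d75b7ddaff (k8 i3172 i3182 i3175 i3181 i3169 i1479 i1634 c13 k0) (by decide +kernel)
def c224 : PP 8 4 T 0x101000000000000000002000000000000000010000000000002000000001104000000 := rS 0x2372cd63b216ccbdd307 (k8 i3178 i3180 i3160 i3191 i3152 i3149 i3164 c0 (k2 i1573 i1999 k0)) (by decide +kernel)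
def c225 : PP 8 4 T 0x1001000000000000000000000009000010000000000001000002000000000004000000 := rS 0x7e98e0749 (k4 i3157 i3194 i538 c37 (k1 c58 k0)) (by decide +kernel)
def c226 : PP 8 4 T 0x1001000000000000000000000021000000000000000011000002000000000004000000 := rS 0x7e98e0749 (k4 i3157 i3194 i1353 c34 (k1 c58 k0)) (by decide +kernel)
def c227 : PP 8 4 T 0x1000000000000080000000014000000800000000000000102200000000044800560 := rS 0x28d8321 (k4 i3152 i1194 c69 c182 k0) (by decide +kernel)
def c228 : PP 8 4 T 0x1001000000000000000000000000000000800000040001000102200000100044800520 := rS 0x182a34434d5aab18894ca95038bd531f9cb769adf (k8 i3175 i3169 i3192 i3166 i3150 i1086 i1079 i520 (k8 i1102 c88 c222 i985 c225 c226 c227 c47 (k2 i281 i1345 (k1 c182 k0)))) (by decide +kernel)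
def c229 : PP 8 4 T 0x1000000000008801000000000000004000114000004011400055554000000002000000000004000000 := rS 0x2ee9f435fb31689d49a1d0a8376be5dee374d069b35 (k8 i3164 i3169 i3171 i3180 i3177 i3183 i3188 i3182 (k8 i697 i1741 c32 i1477 i1478 i2044 i2046 i1455 (k4 i1213 i1754 i1948 c17 k0))) (by decide +kernel)
def c230 : PP 8 4 T 0x801000000000000004000004014004211440005554000000542000000000004000000 := rS 0x16b108bae50f453f9f619155ebb5d33387cf696dfa6b6dc6e1 (k8 i3176 i3177 i3174 i3169 i3175 i3163 i3168 i3195 (k8 i3162 i3180 i3182 i1991 i942 i2017 c57 i681 (k4 i1750 c32 i1143 c229 (k2 c68 i689 (k1 c188 k0))))) (by decide +kernel)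
def c231 : PP 8 4 T 0x1000000000000008001000014040200400050000010000142200180500044a00520 := rS 0x10a943ae46931d86895d0c570b511c401ac5a7c5de2a103c546a253a9dc8ec900c75db0790bbe3f396ed35bf2f74bac96e3 (k8 i3177 c72 i3181 i3180 i3160 i3175 i3169 i3192 (k8 i3166 i3150 i3183 i3152 i3178 i3182 i3149 i477 (k8 i1124 i265 c189 i1010 i860 i1116 i942 i520 (k8 i822 c9 i950 i1755 i1794 c99 c68 i1469 (k8 i689 c175 i986 i1144 c215 i1957 i1679 c47 (k4 c29 i1192 i171 i1460 (k1 i2030 k0))))))) (by decide +kernel)
def c232 : PP 8 4 T 0x801000000000000004000004014004241440005554000000542000000000004000000 := rS 0x1774f662fe869d4a2f50e85a2bb5f2ef71ba5bf35 (k8 i3164 i3175 i3180 i3177 i3183 i3188 i3182 i1750 (k8 i1741 c32 i1990 c230 i1678 c66 i1725 i2046 (k2 i1754 i1948 (k1 c17 k0)))) (by decide +kernel)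
def c233 : PP 8 4 T 0x1000000000000001000001000000000012000000400000000000000000000002001000000004000000 := rS 0x7ed371c8df321 (k4 i3152 i3188 i3153 i3177 (k2 i1194 i1426 (k1 c8 k0))) (by decide +kernel)
def c234 : PP 8 4 T 0x801000000000000000000004014000041000001050010000102200080100004a00420 := rS 0x2207cd3513058ace2981d4e3d179fcfa4fa28d4ea9f459dc8ec94787e180958aa4c2af8aa61027b419bd3639688ede2018fce5bb4d6fb8e46f925cbe670f9ed2db6e1 (k8 i3176 i3174 i3163 i3168 i3195 i3162 i3160 c72 (k8 i3188 i3153 i3177 i3175 i3169 i3192 i3166 i3150 (k8 i477 c9 i1155 i1162 i293 c207 i968 i697 (k8 i714 c46 i2045 i942 i587 i1021 i1086 i1826 (k8 i382 i2017 i1201 c228 i1124 i265 c189 i550 (k8 c187 i1010 i1116 i1750 c208 c57 i681 i1079 (k8 i1786 i330 i520 c87 c232 i1794 c233 c231 (k4 c69 c8 c47 c216 k0)))))))) (by decide +kernel)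
def c235 : PP 8 4 T 0x10801000000000000000000004810000041000001050010000102200000100004a00420 := rS 0xcf66af53a945d32cd2aa3ba7c8e7500a1d0a364622d928f0fc3012b1549855f154c204f68337a6c72d11dbc5c6f997cce1f3da5b7e9adb9dd065b2979c0def1f9cb766a4b (k8 c72 i3164 i3192 i3166 i3150 i3187 i3194 i3185 (k8 i3156 i3159 i3171 i3167 i3174 i3169 i3175 i3163 (k8 i3168 i3195 i3162 i3160 i3188 i3177 c9 i1155 (k8 i1162 i293 c207 i968 i697 i714 c46 i2045 (k8 i942 i587 i1021 i1086 i1826 i382 i2017 i1201 (k8 c228 i1124 i550 i2013 c33 i1741 c32 i477 (k8 i1010 i265 c187 c189 c234 i1662 i123 i666 (k4 c225 i1819 i1413 i1948 (k2 i1105 i2046 k0))))))))) (by decide +kernel)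
def c236 : PP 8 4 T 0x1000000000000000000000014000000000010200000010102000000100044801520 := rS 0x196a32383d82a52ac4460331101c9733 (k8 i3162 c72 i520 i971 c23 i970 i1471 i1540 (k4 i248 i1573 i245 i264 (k2 i1652 c197 (k1 i2027 k0)))) (by decide +kernel)
def c237 : PP 8 4 T 0x10801000000000000000000004810000041000001050000000102200000100004a00404 := rS 0x32d460f6091cd83063314669e3aaf4d6cf06aae0a773214c0ea71b231163d179f49f45649646a8f0fc3012b1549855f154c204f68337a6c72d11dbc4080126ce63e4b92c0e77296eb55c6f997cce1f3da5b7e9adba0cb5e6f7 (k8 i3187 i3185 i3159 i3171 i3174 i3169 i3175 i3163 (k8 i3168 i3195 i3162 i3160 i3188 i3177 i3190 i3192 (k8 i3156 i3167 i3194 i3154 c72 i3150 i3166 c73 (k8 i477 c3 c9 i1155 i1162 i293 c207 i968 (k8 i697 i714 c46 i2045 i942 i587 i1021 i1086 (k8 i1826 i382 i2017 i1201 c228 i1116 i868 i1124 (k8 i1750 c208 c57 i1079 i1786 i550 i2013 c33 (k8 i330 i520 c87 c235 i1548 c75 i1660 i1492 (k8 c151 i1964 i1990 c236 c232 i1712 i1526 i997 (k8 i996 i1036 i264 c233 i409 i1652 i674 c98 k0)))))))))) (by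 decide +kernel)
def c238 : PP 8 4 T 0x10801000000000000000000004000000040000000010000400102200000100004a00000 := rS 0x19e9d3b9d53e683699e0a574aab1928f5913c3e09861856315a2a60f2293d9bd363978aa55e0b39a1d028541a31163b68a44080321804834997b6e9adfa5cf61f3371cee731f25c9607296eb56832d79bddf335 (k8 i3164 i3188 i3187 i3185 i3159 i3171 i3190 i3192 (k8 i3156 i3194 i3154 c72 i3150 i3166 i3167 i3177 (k8 i3162 i3195 i3168 i3163 i3175 i3169 i3174 i3160 (k8 i3157 i42 i477 i635 i999 c3 c164 i1162 (k8 i1155 i550 i2013 i697 i1741 c46 c32 c200 (k8 c206 i587 i1086 c9 i293 c207 i968 i714 (k8 i253 i973 i2045 i1750 i942 i1826 i1021 i2017 (k8 i382 i1201 c208 c221 c228 i1124 c237 i1558 (k8 i1582 i1467 i1622 i1702 i1434 i1112 i1011 i752 (k2 i1820 i1833 (k1 c113 k0))))))))))) (by decide +kernel)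
def c239 : PP 8 4 T 0x10801000000000000000000004000000000000000010000400102200000100004a00000 := rS 0x1a6fd048f1603f4b2306cf11cb45163b0382ce6910200c860120d1e36d76abfe4b4991cb5ef0379ca6833b6ece63e4b (k8 c72 i3150 i3166 i3192 i3167 i3171 i3156 i3185 (k8 i3194 i3187 i3159 i3153 i3157 i3154 i3172 i3190 (k8 i3173 i3148 i3151 i42 i477 i635 i999 c3 (k8 c164 c200 c206 i520 i1155 i550 i1162 i293 (k8 c9 c33 i2013 c238 i1372 i1817 i1777 i381 (k2 i1200 i1195 (k1 i1994 k0))))))) (by decide +kernel)
def c240 : PP 8 4 T 0x801000000000000040000004000004041000001050000000102200080100004a00404 := rS 0x1d01a773233d56ad440f9f8534581d4e3d1793e8a7d2ca3c3f0c04ac5526157c5530813da0cde9b1cb4476f1020049b1f9cb769adf71c8df3478db5daaff92d2497039dca65f3387cf696db (k8 i3174 i3163 i3168 i3195 i3162 i3160 i3156 i3167 (k8 i3194 c72 i3157 i3154 i3172 i3190 i3173 i3148 (k8 i3151 i3188 i3153 i3177 i3175 i3169 i3192 i3166 (k8 i3150 c73 i477 c3 c9 i1155 i1162 i293 (k8 c207 i968 i697 i714 c46 i2045 i942 i587 (k8 i1021 i1086 i1826 i382 i2017 i1201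 c228 i868 (k8 c57 i1750 c208 i1079 i1786 i330 i520 i550 (k8 c87 i1994 c8 c47 c34 c37 c216 c234 (k4 i1548 i1492 c232 c236 k0))))))))) (by decide +kernel)
def c241 : PP 8 4 T 0x801002000000000000000004000004041000001050000000102240080100004a00400 := rS 0x679dcc87555ab4a68b0393e8ac92c8d51e1f8602562a930abe2a98409ed066f4d8e5a23b7881002c151b48064d90ce63e4b92c0e77296eb55c6f997cce1f3da5b7e9adb (k8 i3174 i3169 i3175 i3163 i3168 i3195 i3162 i3160 (k8 i3188 i3177 i3190 i3192 i3156 i3167 i3194 i3154 (k8 c72 i3150 i3166 i3152 c73 i999 c240 c69 (k8 i1194 i477 c3 c9 i1155 i1162 i293 c207 (k8 i968 i697 i714 c46 i2045 i942 i587 i1021 (k8 i1086 i1826 i382 i2017 i1201 c228 i1116 i868 (k8 i1124 i1750 c208 i520 i550 c87 c34 c37 (k4 c210 c234 i1548 c151 (k1 c232 k0))))))))) (by decide +kernel)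
def c242 : PP 8 4 T 0x801000000000000004000004810005241440005554000000542000000000004000000 := rS 0x174cc5521d0b35 (k4 i3164 i1741 c32 c232 (k2 i2046 i666 (k1 i1948 k0))) (by decide +kernel)
def c243 : PP 8 4 T 0x1000000000000000100000000000000000000800000000002000000000004800001 := rS 0x118cc20 (k4 i711 i752 c189 i2970 k0) (by decide +kernel)
def c244 : PP 8 4 T 0x1000000000000000000000010000000000010200008010102040000100044800520 := rS 0xab0699c444d (k4 c73 i971 i1588 i1570 (k2 i537 c236 k0)) (by decide +kernel)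
def c245 : PP 8 4 T 0x801000000000000000000004010005041000001050000000102240080100004a00400 := rS 0x2e574cb551959c7529a2c5e4f3f9f4b2353bb251e1f86024080160a8da4035951562627eaa4c2af8aa61027b419bd3639688ede2e37cd2606d76fbce5b2125ce63f259dca5bad597cce1f3da5d35b6e1 (k8 i3176 i3174 i3169 i3163 i3168 i3195 i3162 i3160 (k8 i3190 i3192 i3156 i3167 i3154 i3150 i3166 c72 (k8 i3152 i3159 i3185 i3175 i3173 i3194 i3157 i3188 (k8 i3177 c9 i1155 i1162 i293 c207 i968 i697 (k8 i714 c46 i2045 i942 i587 i1021 i1086 c241 (k8 c58 i1826 i1750 i2015 i999 c240 c69 i1194 (k8 i477 c3 i382 i2017 i1201 c228 i1124 c243 (k8 i1116 i868 c57 i681 c208 i1079 i550 c87 (k8 c244 c242 c151 c231 i123 i666 i1405 i1951 k0))))))))) (by decide +kernel)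
def c246 : PP 8 4 T 0x1000000002000080001001000010000000050000000000002000000001444000000 := rS 0x1461d528863aed (k4 i3182 i3149 i1460 i171 (k2 i1192 c69 (k1 i2030 k0))) (by decide +kernel)
def c247 : PP 8 4 T 0x1000000000000048000000010000200400000000000000142200100500004a00520 := rS 0xab440f9f8f103a9c7b458ac7e72dda6b7dc7237cd1e36d76abfe4b49 (k8 i3157 i3154 i3172 i3190 i3173 i3148 i3151 i3188 (k8 i3153 i3177 i3175 i3169 i3192 i3166 i3150 i942 (k8 i1750 i1786 i330 i520 c9 i1994 c8 c47 (k2 c37 c216 k0)))) (by decide +kernel)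
def c248 : PP 8 4 T 0x1000000000000008000000010000200400050000000000142200140500044a00520 := rS 0x2917ac610a55863272a8c3ad25a88d831018b14eb4f8bbc542a71ed146a253bb24030790bbdbaeb8fce63aed97ba496df (k8 i3175 c72 i3180 i3160 i3182 i3149 i3166 i3150 (k8 i3181 i3192 i3183 i3152 i3178 i477 i1124 c243 (k8 i860 i1116 i1750 i1786 i330 i822 c9 i950 (k8 i1755 c74 i1793 i988 c68 c233 i1469 i689 (k8 c247 i1192 c69 c246 c27 i290 i1671 i1611 (k4 c29 i1991 i2030 i415 k0)))))) (by decide +kernel)
def c249 : PP 8 4 T 0x801000000000000004000004050005241440005554000000502000000000004000000 := rS 0x3f154b327ac5534541cb5e6f96bd25c6df (k8 i3175 i3177 i3157 i3173 i3188 i3185 i3159 i697 (k8 i1750 i1086 i1826 c208 c242 c232 i2015 c37 k0)) (by decide +kernel)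
def c250 : PP 8 4 T 0x801000000000000000000004010005041000001050000000102240000100004a01400 := rS 0xaa321d19e3729a2c5e4fa29fcfa593bb251e1f8602562a930abe2a98409ed066f4d8e5a23b78810060125ce63f2581cee52dd6ab8df32f99c3e7b4b6fd35b6e1 (k8 i3176 i3174 i3169 i3175 i3163 i3168 i3195 i3162 (k8 i3160 i3188 i3177 i3190 i3192 i3156 i3167 i3194 (k8 i3154 i3150 i3166 c72 i477 i999 c3 c9 (k8 i1155 i1162 i293 c207 i968 i697 i714 c46 (k8 i2045 i942 i587 i1021 i1086 i1826 i382 i2017 (k8 i1201 c228 i1124 c243 i868 c57 i681 i1750 (k8 c208 i1079 i550 c87 c245 c248 c249 i1010 (k2 c236 i1660 k0)))))))) (by decide +kernel)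
def c251 : PP 8 4 T 0x801000000000000000000004000005041000001050000000102240000100804a00400 := rS 0x116679d4c8bd5c95d2aac888349f453f9f46a7764a3c3f0c04ac5526157c5530813da0cde9b1cb4476f10200c02e99792e731f92c0e77296eb55c6f999c3e7b4b6fd35b6e1 (k8 i3176 i3174 i3169 i3175 i3163 i3168 i3195 i3162 (k8 i3188 i3177 i3190 i3192 i3156 i3167 i3194 i3154 (k8 i3150 i3166 c72 i3160 i3180 i477 i999 c3 (k8 c9 i1155 i1162 i293 c207 i968 i697 i714 (k8 c46 i2045 i942 i587 i1021 i1086 i1826 i382 (k8 i2017 i1201 c228 i1124 c243 i1116 c57 i681 (k8 i1750 c208 i1570 i1469 c250 i1558 i1582 i1289 (k4 i1291 c226 i1011 c151 (k2 c68 c229 k0))))))))) (by decide +kernel)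
def c252 : PP 8 4 T 0x1001000000000000000000000020010000400000554001000042400010001404000540 := rS 0xc62ee5608cd24d2322e56afd4aaa4fe7d0fc31bb0775c7e7321a6d1e36d76abfe4b4997cce1f3da5b7db6e1 (k8 i3176 i3174 i3175 i3163 i3168 i3195 i3162 i3160 (k8 i3157 i3154 i3172 i3190 i3173 i3148 i3151 i3169 (k8 i3152 i3166 i3150 i3181 i3178 i3192 i2017 i1201 (k8 c57 i681 i1086 i1558 c34 i1287 i1289 c226 (k8 i1994 i2044 i1545 i1194 c246 i1477 i1509 c27 k0))))) (by decide +kernel)
def c253 : PP 8 4 T 0x801000000000000000000004000000000000000010000400102200000100004a00000 := rS 0xcf1bab48e75119dc4a3564a3c3e7d3f93c130c30ac62b454c25d3e9d8c14cf229459ed426f03a6c72d11dbc45ea95782ce6910200c860120a05072f70b6e9adfa5cf61f3371cfdf3398f92e4b039dca5bad5 (k8 i3190 i3192 i3156 i3167 i3194 i3154 c72 i3150 (k8 i3166 i3188 i3170 i3177 i3162 i3195 i3168 i3163 (k8 i3175 i3169 i3174 i3176 i3160 i697 c46 i42 (k8 i477 i635 i999 c3 c164 c200 c206 i587 (k8 i1086 i1079 c9 i1155 i1162 i293 c207 i520 (k8 i968 i822 i714 i550 i253 i973 c87 c239 (k8 i1746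 c39 i1745 i2045 i1750 i942 i1826 i1021 (k8 i2017 i382 c208 i681 c57 i1201 c228 i1124 (k8 i1116 i860 c243 c251 i971 i224 c252 c245 (k2 c248 c249 k0)))))))))) (by decide +kernel)
def c254 : PP 8 4 T 0x1000000000000000000000000000000000000020000000002000000000004800460 := rS 0x34dfa090e138c3478db5daaff92d263a4d (k8 c73 i3149 i3157 i3154 i3172 i3190 i3173 i3148 (k8 i3151 i1280 i749 i709 i263 c19 i1192 i1994 k0)) (by decide +kernel)
def c255 : PP 8 4 T 0x1400000000000001000000000000008000500000000100000000000000000002000000000004000000 := rS 0x2ee9eed7cbbdc6eb (k8 i3181 i3177 i3183 i3188 i3182 i1755 i1950 c17 k0) (by decide +kernel)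
def c256 : PP 8 4 T 0x1000000000000001000000000000000000100014000115405051140000000102200000100484a00520 := rS 0x82b941e68620c918368ca719e0d5fd0e2e9f5c2d48e8b3d9bd3639688ede271039dd920160a8def0379ca65b419db76731f9fbadda4b (k8 c72 i3182 i3181 i3170 i3150 i3166 i3192 i3167 (k8 i3171 i3159 i3156 i3185 i3194 i3187 i241 i1305 (k8 i477 i1124 c243 i520 c254 c9 i1155 i1162 (k8 i293 c207 i968 i714 i550 i224 i1396 i2044 (k8 i1190 i949 i1214 i1457 c99 c255 c155 i1746 (k8 c33 i2013 i1780 i1779 i1819 i285 c41 c63 (k1 c77 k0))))))) (by decide +kernel)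
def c257 : PP 8 4 T 0x1000000000000000000008000000001405051040000000102240000100084a00400 := rS 0x14e6631dcab4522e4671618b1622c3111d57aa3788be8a0958a55329344c50de710381006ad55bf09eaf29c34b2353bb2402c174c1e42ef76ce65e4b71b5e933180b6e971f92c0e77296eb56670f9eb7e9ae1 (k8 i3176 i3169 i3175 i3168 i3195 i3162 i3190 i3192 (k8 i3156 i3167 i3194 i3154 i3150 i3163 i3174 i3193 (k8 i3161 i3157 i3173 i3177 c72 i3160 i3166 i3182 (k8 i3183 i3152 i3178 i3180 i1305 i477 i1124 c243 (k8 i1116 i868 i682 c87 i587 i762 c5 c37 (k8 c34 i999 c3 i520 c254 i968 i2017 i1206 (k8 c12 i942 i941 i1824 i382 c62 i1079 c9 (k8 i241 i1989 c210 c256 i2129 i1469 i1575 i1571 (k8 c68 i1474 i949 i2033 i2044 i171 i415 i886 (k2 c29 i1754 k0)))))))))) (by decide +kernel)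
def c258 : PP 8 4 T 0x1400000000000001000000000000000000500000008400000000000000000002000000000004000000 := rS 0x2ee9eed7cbbdc6f7 (k8 i3187 i3177 i3183 i3188 i3182 i1487 i1686 c17 k0) (by decide +kernel)
def c259 : PP 8 4 T 0x1000000000000004001010014044001405081100000000102200000000084a00540 := rS 0xa5078c996368bc64ca9c2388de201458ecf63968b256a0d2bb7683398fbde7e4b (k8 c72 i3170 i3187 i3150 i3166 i3171 i3192 i1666 (k8 i481 i102 i1124 i1162 i293 i714 i1155 i550 (k8 i477 c9 i1663 i224 c155 i1552 i1746 i1478 (k4 c33 c173 i1780 i285 (k2 i289 i2027 k0))))) (by decide +kernel)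
def c260 : PP 8 4 T 0x1000000000000001000000000000000001110014000501405081100000000102208000000084a00540 := rS 0x63271449f67b34767b1cb44eec900d0d7e4b (k8 c72 i1723 c16 i477 i1124 c243 i1162 i293 (k8 i714 i1155 i849 c255 c258 c259 i2046 i406 (k1 i1641 k0))) (by decide +kernel)
def c261 : PP 8 4 T 0x1000000000000000000209000000000004000000000000002008000001004000000 := rS 0x8888446e56631949358ec85b32f74c1ddeed (k8 i3182 i3183 i3178 i3180 i3160 i3191 i3152 i3149 (k8 i3164 i1411 i1412 i1988 i171 i249 i1689 i690 (k1 i1999 k0))) (by decide +kernel)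
def c262 : PP 8 4 T 0x1000000000000040000008000000001405011040000000102240000100004a00400 := rS 0x65a941e66192306ca323c658e654e2e13ecf66af41abf2b9d686b53f305167b4d8e5a23b04ac5326344c50de7103810066156aadf84f5794c7d451ebc43d0d0ea9d42253bb2402f781bce532da0cedbb398fcfc972f71be646d7a4cc602dba5c95ab3387cf5bf4d (k8 i3169 i3175 i3168 i3195 i3162 i3190 i3154 i3163 (k8 i3174 i3193 i3161 i3157 i3173 i3153 i3188 i3177 (k8 i3160 c72 i3170 i3150 i3166 i3192 i3167 i3171 (k8 i3159 i3156 i3185 i3194 i3187 i477 i1124 c243 (k8 i860 i822 i330 i722 i682 c70 c9 i1784 (k8 c62 c8 c87 i587 i762 c5 c37 c34 (k8 i1198 i999 c3 i520 c254 i968 i2017 i1206 (k8 c80 i942 i1824 i382 i1155 i1162 i293 c207 (k8 i714 i550 i1305 c257 i102 c16 i1668 i1666 (k8 i1723 i481 c261 i849 c255 c258 c260 i2046 (k8 i1026 i1641 i1746 i265 i406 c33 i2013 i1780 (k4 i1820 i285 i288 i545 (k1 i2027 k0))))))))))))) (by decide +kernel)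
def c263 : PP 8 4 T 0x101000000000000000400010015000014400000500005001002000000000004000000 := rS 0x5782990cf166496676e9 (k8 i3180 i3167 i868 i1124 c68 i1475 i2040 c75 (k2 i1579 c83 k0)) (by decide +kernel)
def c264 : PP 8 4 T 0x1000000000000040000008000000001405001040000000102240000100004a00400 := rS 0x180223a28d72cb88954f8772cb2542a90ea9c12b14aa4cc714379c40e0401804c2ad55bf09eaf29c3696e36bd2663016dca6731f25c96073b6eb56670f9eb7e9ae1 (k8 i3176 i3169 i3175 i3168 i3195 i3162 i3190 i3192 (k8 i3167 i3194 i3154 c72 i3150 i3166 i3156 i3174 (k8 i3193 i3161 i3157 i3173 i3177 i3163 i682 c87 (k8 i587 i762 c5 c37 c34 i1198 i477 i999 (k8 c3 i520 c254 i968 i2017 c80 c12 i941 (k8 i1824 i382 i330 i722 i1086 i822 i1124 i868 (k8 c243 c262 i1542 i1472 i1327 i1330 i1594 c263 (k2 i971 c210 (k1 i1574 k0))))))))) (by decide +kernel)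
def c265 : PP 8 4 T 0x1000000000000040000008000000001005001040000000102240000100004a00400 := rS 0x7410aa342b9f0400d600c4b2a312996227f47079421d5382562898a1bce2070200c02ad55bf09eaf29c35ab0f97b8daf4998c05b74b9cc7c972581cee52dd99cf5bf4d (k8 i3169 i3175 i3168 i3162 i3192 i3156 i3167 i3194 (k8 i3154 c72 i3150 i3166 i3163 i3174 i3193 i3161 (k8 i3157 i3173 i3177 i3160 i3195 i3190 i682 c87 (k8 i587 i762 c5 c37 c34 i477 i999 c3 (k8 i520 c254 i968 i2017 i1206 i1824 i382 i330 (k8 i722 i822 c70 c264 i846 i687 c88 c222 (k8 i241 i869 i985 c147 i522 i1306 i1305 i1497 (k4 i726 i1542 c83 i354 (k1 i424 k0))))))))) (by decide +kernel)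
def c266 : PP 8 4 T 0x1000000000000080000000014000000810000000000000102200000000004800560 := rS 0xf3054721 (k4 i3152 c69 i1194 c227 (k1 c147 k0)) (by decide +kernel)
def c267 : PP 8 4 T 0x1000000000000000000000015000014400020500005000102000000000004000000 := rS 0xb965c44ab4b (k4 i3163 i1542 i1472 i1327 (k2 i1330 c263 k0)) (by decide +kernel)
def c268 : PP 8 4 T 0x8001000000000000000001000014040001405081100000000102200000000084a00540 := rS 0x2306c648ca79729d67bc5163b3d8e5a2250695c8e237bc0de72996d0676dd9cc7ddaef (k8 i3183 i3182 i3150 i3166 i3192 i3167 i3171 i3159 (k8 i3156 i3185 i3194 i3187 i1663 i224 i1666 i481 (k8 i860 i1162 i293 i714 i1155 i550 c9 i950 (k8 i1478 i949 c259 c39 c187 c33 i2013 c150 k0)))) (by decide +kernel)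
def c269 : PP 8 4 T 0x1000000000000000000008000000001005001040000000102240000100084a00400 := rS 0xcb5283ccc32460da329c4fb3d7acd8845c8e0d11afcaf435a9f9167b4d8e5a23b78d15327d3a96582a33bb251ed24482562ab56985f84f5794cc6934ac521a6f3881c080300aa5ef0379ca65b419db76731f9fbbdd2e125c95ab3387cf696dfa6b6dc6d7a4cc60321 (k8 i3152 i3193 i3161 i3157 i3173 i3177 i3174 i3169 (k8 i3175 i3163 i3168 i3195 i3162 i3190 i3154 c72 (k8 i3176 i3180 i3183 i3170 i3150 i3166 i3192 i3167 (k8 i3171 i3159 i3156 i3185 i3194 i3187 i1086 i477 (k8 i999 c3 i520 c254 i968 i682 i2017 i941 (k8 c12 c80 c87 i587 i762 c5 i1198 c34 (k8 c37 i1824 i382 i1206 c265 c266 i1124 c243 (k8 c69 i1194 i868 c210 c267 i942 c62 c9 (k8 i1155 i1162 i293 c207 i714 i550 c257 i102 (k8 c16 i1666 i1723 i1663 i481 i224 c268 c68 (k8 i690 i1988 c255 c258 c155 i1746 c33 i2013 (k4 i1780 i1820 i285 i288 (k2 i545 i2027 k0))))))))))))) (by decide +kernel)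
def c270 : PP 8 4 T 0x1000001000000010101000014042000050000000004000002400500000004001540 := rS 0x32d4a0f330c918368cbde06f394cb6833b6ece63f3f (k8 i3170 i3150 i3166 i3192 i3167 i3171 i3159 i3156 (k8 i3185 i3194 i3187 i1746 c33 i2013 i1780 i1820 (k4 i285 i288 i545 i2027 k0))) (by decide +kernel)
def c271 : PP 8 4 T 0x1000000000000008401000014040000010000000000000002400010000004205540 := rS 0x66e518a9187176ec1dd71f9cc85daef (k8 i3183 i3182 i3152 i3166 i3150 i3181 i3178 i3192 (k4 i950 i369 i2027 i989 (k2 i171 i288 (k1 c27 k0)))) (by decide +kernel)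
def c272 : PP 8 4 T 0x4001000000000000000100000000000000000000000010000002000010000004008000 := rS 0xcf0573bae06d5 (k4 i3190 i3194 i3181 i3179 (k2 i424 i542 (k1 c38 k0))) (by decide +kernel)
def c273 : PP 8 4 T 0x1000000000000008101000014040000010000000004000002400010000004201540 := rS 0x19e0aca079962ee775c0ddaef (k8 i3183 i3182 i3194 i3181 i3179 i950 c151 c272 (k4 c271 i430 i545 c38 k0)) (by decide +kernel)
def c274 : PP 8 4 T 0x201000000000000000001000014040001415005500004000002200410000004200540 := rS 0x8c1b192329e67a741a472bb3446f11cb4516c97bc0de72996d0676dd9cc7ddf2f (k8 i3160 i3183 i3150 i3166 i3192 i3167 i3171 i3159 (k8 i3156 i3185 i3194 i3187 i1124 i550 i1162 i293 (k8 c9 i1469 i690 c64 i224 i481 c270 c273 (k4 i2046 c39 c187 c33 (k2 i2013 c111 k0))))) (by decide +kernel)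
def c275 : PP 8 4 T 0x1000000000000010000000000008000040000001000000002000000000004000000 := rS 0x8d8cbde06f394cb6833b (k8 i3167 i3171 i3159 i3156 i3185 i3194 i3187 c39 (k2 i1036 i2013 k0)) (by decide +kernel)
def c276 : PP 8 4 T 0x101000000000000000000000000000001445005500020000002000000001004200000 := rS 0x16d989f36950af05689659e9d8b505d2ef (k8 i3183 i3180 i3171 c68 i1478 i950 i868 i1162 (k8 c75 i1579 c83 i1697 c275 i2046 c169 i769 k0)) (by decide +kernel)
def c277 : PP 8 4 T 0x801000000000000000000000000000000000000000000400102200000100004a00000 := rS 0x150d6cc6527ccab94e99d9f16889d4ee251a965928f51b05a4ab56985126349a55f8098a13d630d5b2150e533c8a5163b3d8e5a26f54abce20b39a4482070200c860176d0676ef74c86533970d2db70198d25af4d6fcf61f3371cd63e4b92c0dbad5 (k8 i3190 i3192 i3194 i3154 c72 i3150 i3164 i3177 (k8 i3162 i3195 i3168 i3175 i3169 i3173 i3157 i3161 (k8 i3193 i3174 i3163 i3176 i3166 i3156 i3152 i3180 (k8 i3183 i3167 i3171 i3182 i477 i635 i999 c3 (k8 i520 i42 c164 c200 c206 c254 i587 i1086 (k8 i968 i1162 i293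 i714 i1155 i550 i253 i973 (k8 c87 c32 i1741 c253 i682 i1824 i762 i2017 (k8 i382 c5 i941 c12 c80 i1206 i1198 c34 (k8 c37 c265 i1194 c69 c266 i1124 i868 i1116 (k8 i860 c243 c210 c274 c68 i950 i1475 i1478 (k8 i949 c276 c187 i2040 i2046 c116 c197 i770 k0))))))))))) (by decide +kernel)
def c278 : PP 8 4 T 0x20001000000000000004000000000000001405005400000002002000000001004200000 := rS 0x1ad989d4f9d4973f (k8 i3170 c72 i1540 c39 i1746 i2046 c116 i770 k0) (by decide +kernel)
def c279 : PP 8 4 T 0x20001000000000000000000000000000001404001000000002002000000000004a00001 := rS 0x1962ece339dc6ac93d8e5a22582a14ba2b73bae06ef (k8 i3183 i3194 i3181 i3179 i898 i510 i1544 c49 (k8 i2520 i1162 i293 i714 i1124 i1116 c243 i1619 (k4 c278 i950 c151 c38 k0))) (by decide +kernel)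
def c280 : PP 8 4 T 0x20001000000000000000000000000000001004001000000002002000000000004a00021 := rS 0x1ec847414b225 (k4 i2520 i34 c49 c279 (k2 i766 c180 (k1 i611 k0))) (by decide +kernel)
def c281 : PP 8 4 T 0x1000000000000000000000040000441000105054000000002040000008004200220 := rS 0x2dd3283581803a53 (k8 c87 i1262 i263 i382 i735 i1021 i1824 i2045 k0) (by decide +kernel)
def c282 : PP 8 4 T 0x1100000000000000401000014000041805001040000080102240000100004a00500 := rS 0x834c93d6f147e225a743511ecde9b1cb4476f1179c40e0401805029571c7e72dda6b7dceeda4bfc972581cee52d5 (k8 i3190 i3156 i3167 i3194 i3154 c72 i3172 i3157 (k8 i3182 i3179 i3175 i3169 i3192 i3166 i3150 i3177 (k8 i1102 i1810 i477 i999 c3 i520 c254 i1079 (k8 c9 i1155 i1162 i293 c207 i968 i714 c181 (k8 i1479 c69 i281 c45 c47 c265 c19 i942 (k2 i775 i2045 k0)))))) (by decide +kernel)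
def c283 : PP 8 4 T 0x1001000000000000000000041000200000000000004000002000000000004000000 := rS 0x618ac0e92e3 (k4 i3177 i3157 i3194 i942 (k2 i1021 c58 k0)) (by decide +kernel)
def c284 : PP 8 4 T 0x1000000000000000000000008000051000105054000500102000400108004200540 := rS 0x9cb64ca0c3ad231bf5363968bc552af8ed1e36d76abfe4b49 (k8 i3157 i3154 i3172 i3190 i3173 i3148 i3151 i3149 (k8 i587 i1086 c9 i1162 i293 c207 c37 i538 (k4 i1994 i1192 i735 c283 (k2 i2045 c202 (k1 i762 k0))))) (by decide +kernel)
def c285 : PP 8 4 T 0x1100000000000000000000004001041804001040000081102240000100004a00500 := rS 0x20d32b73e1809cac42b04d2e43303cac7b37a6c72d11dbc55e7103a0592478b83462250200c02cb2c99622e775c0e1f398f92e4b3b94b75aae9 (k8 i3180 i3190 i3192 i3156 i3167 i3154 c72 i3150 (k8 i3166 i3195 i3194 i3181 i3179 i687 c88 i869 (k8 c197 i477 i999 c3 c222 i985 i522 i948 (k8 i225 i1125 i1810 i520 c254 i587 c9 i1155 (k8 i1162 i293 c207 i968 i714 c83 c180 c38 (k8 c77 i1623 c0 i1811 c282 i1582 i1622 i1581 (k4 i762 i1021 i1442 i2045 k0)))))))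 (by decide +kernel)
def c286 : PP 8 4 T 0x1000000000000000000000014000000800800000000080102200000010004800560 := rS 0x3f5a64e0fd1e36d76abfe4b49 (k8 i3157 i3154 i3172 i3190 i3173 i3148 i3151 i1436 (k4 i775 c227 c19 i1994 k0)) (by decide +kernel)
def c287 : PP 8 4 T 0x401000000000000000000004040000401800505040000000102200000100004800520 := rS 0xf430c315a2a60de7103a5e312f7ad2df2e36db7e9b0f99d05ef3d (k8 i3168 i3187 i3171 i3162 i3195 i3169 i3175 i3174 (k8 i3177 i3188 i3163 i3186 i3160 c21 i1745 i520 (k8 c254 i968 i2045 i1750 i942 i1021 c7 c228 (k1 i1201 k0)))) (by decide +kernel)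
def c288 : PP 8 4 T 0x1000000000000000000000000000000804000000000400102200000100004a00000 := rS 0xfb496c8342ab4d30455a553a0940968ba97130ace2075782ce69b1dbc4de558c44cf63968a4482040190cf22900d2497398fc96073b94b75ab0f99bd682f79ecbe3b4d96cc6033f (k8 i3170 i3193 i3161 i3159 i3169 i3149 i3160 i3168 (k8 i3187 i3171 i3186 i3162 i3195 i3190 i3192 i3156 (k8 i3167 i3194 i3154 i3150 i3166 c72 i3157 i477 (k8 i253 i973 i635 i999 c3 i42 c164 i1162 (k8 i293 i714 c277 c21 c280 i968 c9 i1155 (k8 c207 c200 c206 i587 i520 c254 i898 c28 (k8 i1745 i510 c18 i1810 c281 i1746 i1102 c284 (k8 c285 c63 i1467 i1811 c286 c287 c265 c269 (k1 c227 k0))))))))) (by decide +kernel)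
def c289 : PP 8 4 T 0x1000000000000080000008005000015414001000004001102240000000004a00540 := rS 0xb965c5a22853e9d546c10200c023b3d8e5a2772c8d4c2ad7e13d5e5386bb5d32171b5e933180b6e97299cc7c972581cedbad5 (k8 i3190 i3192 i3167 i3194 i3154 c72 i3150 i3166 (k8 i3156 i3163 i3174 i3193 i3161 i3157 i3173 i3177 (k8 i3152 i3180 i3182 i682 c87 i587 i762 c5 (k8 c34 i1198 i1116 i868 i751 i1162 i293 i714 (k8 i1155 i477 i999 c3 i1194 c69 c210 c267 (k4 i1935 c274 c68 c197 (k2 i949 c263 k0))))))) (by decide +kernel)
def c290 : PP 8 4 T 0x1000000000000000000008004000000004000000000400102200000100004a00000 := rS 0x1960d60a8cff111087908d356a24c6934abf2284f86874a6a154a9c12812d1752e26159c40eaf059cd363b789bc8e558c44cf63968a4482040190cf229009644a8f97ce5c34b6dc0663496bd35bf3d87ccdc64b8fc96073b94b75aaf5a0bde3b2d (k8 i3159 i3149 i3187 i3171 i3186 i3190 i3192 i3156 (k8 i3167 i3194 i3154 i3150 c72 i3177 i3162 i3195 (k8 i3168 i3175 i3169 i3173 i3157 i3161 i3193 i3174 (k8 i3163 i3176 i3166 i3160 c288 i860 i868 i477 (k8 i253 i973 i635 i999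 c3 i42 c164 i1162 (k8 i293 i714 c277 c21 c280 i225 i968 c9 (k8 i1155 c207 c200 c206 i587 i520 c254 i898 (k8 c28 i1745 i510 c18 i1810 c281 i330 i1086 (k8 i822 c87 i722 i682 i762 i2017 c5 i941 (k8 c12 c80 i1206 c34 c289 c265 c70 i1504 (k4 c6 i1670 i241 i1306 (k2 i482 c197 (k1 c166 k0))))))))))))) (by decide +kernel)
def c291 : PP 8 4 T 0x1000000000000000000004000000441000105054000000002000000010084000000 := rS 0x988a20e1ae36dd35bf4b9ec3e672f (k8 i3160 i3162 i3195 i3168 i3163 i3175 i3169 i3174 (k4 i3177 i1201 i1436 i2017 (k2 i2045 i942 k0))) (by decide +kernel)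
def c292 : PP 8 4 T 0x1000000000000000000000000000000000800000000080002000000008004000540 := rS 0x69bf4384ea3c6daed57fc96931d (k8 i3149 i3157 i3154 i3172 i3190 i3173 i3148 i3151 (k4 i775 i735 c19 i1192 (k1 i1994 k0))) (by decide +kernel)
def c293 : PP 8 4 T 0x1000000000000000000000014040000002010000000091102200000011004000540 := rS 0x20a0f65b041a682b4444247 (k8 i225 i1504 c6 i1812 i1811 i482 c224 c197 (k2 i502 c63 (k1 c98 k0))) (by decide +kernel)
def c294 : PP 8 4 T 0x20001002000000000004001000004040001405001000000081102440000000044a00560 := rS 0x8203596c58899598753d8e5a29d4f9dcb23512ab5df3f (k8 i3170 i3183 c34 i860 i1116 i868 i751 c39 (k8 i1746 i1162 i293 i714 c210 i2046 c169 i690 (k4 i1792 c197 i642 c177 (k1 c176 k0)))) (by decide +kernel)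
def c295 : PP 8 4 T 0x20001002000000000004000000004040000404010000000480102208000000044a00540 := rS 0x334eac411b010a7b1cb453a9f239dcaa912081006433c8a4025912ab497398fc96073b94b75ab3f (k8 i3170 i3190 i3192 i3156 i3167 i3194 i3154 i3150 (k8 i3166 c72 c34 i860 i868 i477 i253 i973 (k8 i635 i999 c3 i42 c164 c280 i751 i225 (k8 c39 i1746 i1162 i293 i714 c293 c294 i1573 (k4 i1426 i971 i1792 i2046 k0))))) (by decide +kernel)
def c296 : PP 8 4 T 0x1000000000000040000000004000000004000000000400102200000100004a00000 := rS 0x19a853aae98a0d5133d5a3e443f14e9d4f9dcaa594787c7a2f8a93d62a93ec328a98418252f1838abd363b379ec72d13c899e229059cc0e812d17456910200c860120ade26e391be63f396ed35bf478db5daaff92d25b64b81cee532d7acc6034b97c761f33a0bde7b3f (k8 i3170 i3168 i3187 i3171 i3162 i3195 i3149 i3160 (k8 i3163 i3193 i3161 i3186 i3159 i3156 i3167 i3194 (k8 c72 i3174 i3157 i3154 i3172 i3190 i3173 i3148 (k8 i3151 i3175 i3169 i3192 i3166 i3150 i3188 i3153 (k8 i3177 c277 c290 i42 i477 i635 i999 c3 (k8 c164 i898 i510 c18 i1810 i520 c200 c206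 (k8 i253 c9 c28 i973 i1162 i293 i714 i968 (k8 i1155 c207 i587 c254 c21 i1745 c281 c292 (k8 i2045 i1750 c7 c57 i1086 i1826 c208 i942 (k8 i1079 i1786 c291 c288 i868 c280 i751 c39 (k8 i1746 i330 i1994 c47 c8 c34 c216 c295 (k4 i1648 i1654 i407 c236 (k2 i1771 i1948 (k1 i2046 k0)))))))))))))) (by decide +kernel)
def c297 : PP 8 4 T 0x1002000000000000000000004000000004000000000400102200000100004a00000 := rS 0x1b1959c85568bd92472a9646a254787c9eb1549fcfb0ca2a6106094bc60e2af4d8ecde7b1cb44f226788a4167303a04b45d15a4408032180482b789b0546d290b6e731f25c96073b94b75ab2d7acc602e37cd2e5f1da6c3e67417bcf5bee1 (k8 i3176 i3175 i3168 i3187 i3171 i3162 i3195 i3169 (k8 i3149 i3160 i3163 i3188 i3177 i3193 i3161 i3186 (k8 i3159 i3190 i3192 i3156 i3167 i3194 i3154 c72 (k8 i3150 i3166 i3174 i3152 c296 c69 i1194 c277 (k8 c290 i42 i477 i635 i999 c3 c164 i898 (k8 i510 c18 i1810 i520 c200 c206 i253 c9 (k8 c28 i973 i1162 i293 i714 i968 i1155 c207 (k8 i587 c254 c21 i1745 c281 c292 i2045 i1750 (k8 c7 c57 i681 i1086 i1826 c208 c291 c288 (k8 i860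 i1116 i868 c280 i225 i1125 i1079 c34 (k4 c293 c294 c151 c248 (k1 c231 k0)))))))))))) (by decide +kernel)
def c298 : PP 8 4 T 0x1000000000000008101000014040200400050000000000142200100500044a00520 := rS 0xd8ca35 (k4 i1116 c151 c248 c231 k0) (by decide +kernel)
def c299 : PP 8 4 T 0x1000000000000000000000014000000004000000000400102200000100004a00000 := rS 0x8203596c58899598cf3aa145e9d4fb248e772a9646a254787c9eb13f9f6194560a8da4627ea61060913204b45d159c40eb737a5e31133c8a4f69b1cb4476f15782d22040190c0241549cddf398f92e4b039dca5bad5a6c3e66f5a0bde7b2d98c065f1d90b6dc6f9a5b7dc33f (k8 i3170 i3176 i3175 i3163 i3188 i3177 i3174 i3152 (k8 i3149 i3160 i3193 i3161 i3159 i3168 i3187 i3171 (k8 i3186 i3162 i3195 i3169 i3190 i3192 i3156 i3167 (k8 i3194 i3154 c72 i3150 i3166 i3183 c200 i1086 (k8 i42 i477 i635 i999 c3 c164 c206 i587 (k8 c9 i1155 i1162 i293 c207 i714 i253 i973 (k8 c277 c21 i1745 i968 c290 i520 c254 i898 (k8 i510 c18 i1810 c28 c281 c292 i2045 c297 (k8 c283 c296 c69 i1194 i1750 c7 c57 i681 (k8 i1826 c208 c291 c288 i860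 i1116 i868 c280 (k8 i751 i225 i1125 c39 i1746 i1079 c293 c244 (k8 c298 i2046 c169 i690 i1792 c197 i642 c177 (k1 c176 k0))))))))))))) (by decide +kernel)
def c300 : PP 8 4 T 0x1000000000000000000000004000000004000000000400102200000100004a00000 := rS 0x19e753215d584f30ac62b454c2dd529d4fa0c12814b9c55e9b1d9bcb45d130ade20b3981d92558c44cf63968a4482040190cf229008d44a8f71b7c97398fc96073b94b75ab0f99bd682f79ecbe3b2d98c069b3f (k8 i3170 i3169 i3193 i3161 i3159 i3149 i3160 i3168 (k8 i3187 i3171 i3186 i3162 i3195 i3190 i3192 i3156 (k8 i3167 i3194 i3154 i3150 i3166 c72 i3175 i3177 (k8 c288 i860 i1116 i477 i253 i973 i635 i999 (k8 c3 i42 c164 i1162 i293 i714 c277 c21 (k8 c280 i1125 i520 c200 c206 c9 i898 c28 (k8 i510 c18 i968 i1155 c207 i587 c254 i1745 (k8 i1810 c281 c292 c39 i1746 i1086 c290 i2045 (k8 i1750 i942 i1826 i1021 c208 c299 i1582 c226 (k2 i1011 c151 (k1 c169 k0))))))))))) (by decide +kernel)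
def c301 : PP 8 4 T 0x1000000000000000000000000000000004000000000400102200000100004a00000 := rS 0x19ecd5d214eab23498963454c2dc3f0c5cc55287d56bf55459479dcaa5354a753e8304a052f1838abd363b379ec72d13c968ba26898ade229059cd224103810064300cb5e6f96bd25c6df97b6e9b4b9ec3e66e19cc7c972581cee52dd6abd63b3180d05ef3f (k8 i3170 i3187 i3171 i3193 i3161 i3149 i3186 i3190 (k8 i3192 i3156 i3167 i3194 i3154 c72 i3150 i3166 (k8 i3176 i3162 i3195 i3168 i3163 i3169 i3174 i3160 (k8 i3175 i3177 i3157 i3173 i3188 i3185 i3159 i477 (k8 i635 i999 c3 i520 i42 c164 c200 c206 (k8 i253 c9 i898 c277 c28 i510 c18 i973 (k8 i1162 i293 i714 i968 i1155 c207 i587 c254 (k8 c21 i1745 i1810 c281 c292 c39 i1746 i1086 (k8 c87 c280 i751 c288 i868 c300 c37 i98 (k8 i1596 c284 i941 i104 i2017 i1201 i682 i2045 (k8 i1750 i1826 c283 i1662 i2015 c244 i1811 i666 (k2 i1948 i1951 (k1 i2046 k0))))))))))))) (by decide +kernel)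
def c302 : PP 8 4 T 0x1000000000000000000000000000000000000000000400102200000100004a00000 := rS 0x8e0d103190c5a1344c22f11497456910200c860120c0662f596c765f398f92e4b039dca5bad5 (k8 i3190 i3192 i3156 i3167 i3194 i3154 c72 i3150 (k8 i3166 i3160 i3149 i3159 i3186 i3161 i3193 i42 (k8 i477 i635 i999 c3 c164 i898 i510 i253 (k8 c9 i7 c277 c28 c18 c301 i738 i737 (k2 i1688 i1530 (k1 c158 k0)))))) (by decide +kernel)
def c303 : PP 8 4 T 0x1000001000000000000000000000000008000000000500002200000050004000000 := rS 0xd23898ae2389c765ef5 (k8 i3186 i3160 i3149 c32 i1704 i1706 c28 i224 (k2 i481 c190 k0)) (by decide +kernel)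
def c304 : PP 8 4 T 0x1000000001000008140000000000000000000000000000002000010000004200000 := rS 0x3081ec532d3e2ef183c85deeb (k8 i3181 i3183 i3152 i3178 c9 i950 i1755 c151 (k4 i1794 c272 c29 i369 k0)) (by decide +kernel)
def c305 : PP 8 4 T 0x1000000000000002000000000000000000000000000015002000000000204200000 := rS 0x1d0461445aaef (k4 i3183 i3190 i690 i730 (k2 c83 i369 (k1 i424 k0))) (by decide +kernel)
def c306 : PP 8 4 T 0x1000000001000001140000000005001405001500000000002000000000004a00000 := rS 0xce1a9ec72d1 (k4 i1162 i293 i714 i1116 (k2 i2046 c304 k0)) (by decide +kernel)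
def c307 : PP 8 4 T 0x1000000000000000000000000005001005001000000015002000000000204a00020 := rS 0x1d041a4451ccd72b1d92773ab561f1d (k8 i3149 i3195 i3190 i1011 i751 i1125 i1689 i1460 (k4 c305 c306 i687 i726 (k2 c83 i354 (k1 i424 k0)))) (by decide +kernel)
def c308 : PP 8 4 T 0x11000000000000000000000000090000000000000000000002000000000414000000 := rS 0x7da72f (k4 i3160 c69 i240 c70 k0) (by decide +kernel)
def c309 : PP 8 4 T 0x401000000000000000100000000200001005001500000000202000000001504a00000 := rS 0x81a2adc7cbc633351f1072a0cba2b86a753f183d8e5a2f5a5be5c6db77c3e6b1d90b665ee983bb667417bcf67f31 (k8 i3161 i3170 i3168 i3187 i3171 i3162 i3182 i3178 (k8 i3180 i3160 i3191 i3152 i3149 i3164 i3195 i3183 (k8 i3174 i3177 i3188 i3163 i3186 i1162 i293 i714 (k8 c21 c39 i1746 i1202 i898 i510 i1438 i171 (k8 i1999 i687 i690 c306 i415 i414 i1988 c10 (k2 i1333 c7 k0)))))) (by decide +kernel)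
def c310 : PP 8 4 T 0x11000000000000000800000000005001005005014000015002000010000004200000 := rS 0x450c473332e0cb17673351f1082b24ee756dd35bf4b9ec3e66e775c0ddeed (k8 i3182 i3183 i3194 i3181 i3179 i3162 i3195 i3168 (k8 i3163 i3175 i3169 i3174 i1011 i751 i1125 i430 (k8 c83 i687 i690 i2046 i950 c151 c173 c38 (k4 i1141 i545 i2017 c80 k0)))) (by decide +kernel)
def c311 : PP 8 4 T 0x11000000000000000002000000010000000000000000000002000000000114000000 := rS 0x6987e5f21 (k4 i3152 i3160 i1306 i1194 (k1 c70 k0)) (by decide +kernel)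
def c312 : PP 8 4 T 0x401000000000000000000000000010001005001004400004202600000000404a01060 := rS 0xcc47c418f057283982cb52a8c6a212c824830d3882c3a9d4fb24eead2ac60f63968804ea2555bbe6b1d90b665ee983b55ce4b87ccdeb417bcf67f31 (k8 i3161 i3170 i3168 i3187 i3171 i3186 i3162 i3195 (k8 c72 i3179 i3190 i3178 i3180 i3160 i3191 i3152 (k8 i3149 i3164 i3183 i497 i347 i1011 i477 i1162 (k8 i293 i714 c21 c280 i1314 i751 i1125 c39 (k8 i1746 i1229 i494 i1359 i1202 i42 i1310 i604 (k8 c307 i1117 c308 c309 c310 c311 i2027 i166 (k4 i424 i409 i1999 c180 (k2 c306 i690 k0)))))))) (by decide +kernel)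
def c313 : PP 8 4 T 0x1000000000000000100000000000000000000000000000002000011000804008000 := rS 0x116470cdca5874b760eeb8fce642e7 (k8 i3179 i3152 i3166 i3150 i3181 i3178 i3192 i3180 (k4 i245 i166 i285 i868 (k2 c27 i948 k0))) (by decide +kernel)
def c314 : PP 8 4 T 0x1200000000000040001001014000000800080000000000002400000500804001540 := rS 0x8a1c9131f9cb769adf (k8 i3175 i3169 i3192 i3166 i3150 c89 i846 c47 (k1 c42 k0)) (by decide +kernel)
def c315 : PP 8 4 T 0x401000000000000000000000000000001004001000000084202600000100004a01020 := rS 0xc6958a225726719c591e7e499f5a7435119597042c83c62a5608d622225aaad0a75049061a71548740e61378bc16a14ea7d9277569acab183d8e5a20170c7e72dda6b7ddb3b74bfe5e4b87ccdeb417bcf67f31 (k8 i3161 i3170 i3168 i3187 i3171 i3186 i3162 i3195 (k8 c72 i3160 i3172 i3180 i3167 i3182 i3175 i3169 (k8 i3192 i3166 i3150 i3176 i477 i1162 i293 i714 (k8 c21 c280 i1963 i1314 i751 i1125 c39 i1746 (k8 i822 i494 i315 i968 i1311 i520 i1229 i2313 (k8 i1359 i1202 i42 i1310 i1011 i1812 i497 i1398 (k8 c312 i1469 i2125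 i1574 i249 i1571 c313 i603 (k8 c83 c310 c75 i2027 i1479 c69 i1594 i1634 (k8 c79 c314 c68 i1474 i1475 i949 i280 c47 (k2 i941 c80 (k1 i2040 k0))))))))))) (by decide +kernel)
def c316 : PP 8 4 T 0x11000000000000000000000000090000000040000000000002000000000014000000 := rS 0x7da72f (k4 i3160 c69 i241 c70 k0) (by decide +kernel)
def c317 : PP 8 4 T 0x1000000000000000401000014040000000000000000000202400000000804005540 := rS 0x148b5 (k2 i1397 i2027 (k1 i249 k0)) (by decide +kernel)
def c318 : PP 8 4 T 0x1000000000000000100000014000000400000400000008202400000500804801140 := rS 0x2e4671644a54eb1418a94e6e449ad20aca519fcde7105c446ac1108761aa107965db3974b85b74d6fd2e7b0f99c7e624b (k8 c72 i3161 i3150 i3162 i3195 i3168 i3163 i3175 (k8 i3169 i3174 i3176 i3180 i3166 i3182 i54 i245 (k8 i822 i1202 i1229 i1497 c311 i1117 c64 i494 (k8 i1359 i968 i1665 c316 c317 i430 i506 i1367 (k8 c77 i884 i171 i1461 i2017 i970 i941 i1206 (k4 c68 i1474 i949 i2033 k0)))))) (by decide +kernel)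
def c319 : PP 8 4 T 0x1000000000000000000000008000000000000000000000202000000000804000540 := rS 0x289a47e7ed1e36d76abfe4b49 (k8 i3157 i3154 i3172 i3190 i3173 i3148 i3151 c37 (k4 i498 i1994 i1663 c69 k0)) (by decide +kernel)
def c320 : PP 8 4 T 0x1000000000000000100000010000000000000400000008202600000500804801040 := rS 0x18a286639c1570ca32c5d468e3faac1e6f04904e20b2cb04421d86a85b74d6fd2e7b0f99b9dd70376ba6624b (k8 c72 i3161 i3180 i3182 i3194 i3181 i3179 i3162 (k8 i3195 i3168 i3163 i3175 i3169 i3174 i822 i1202 (k8 i1229 i1497 c311 i54 i494 i1359 i42 i1310 (k8 i968 i245 c319 i1665 c318 c316 i948 c88 (k8 c317 c173 i430 i1142 c38 i2017 i545 c80 k0))))) (by decide +kernel)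
def c321 : PP 8 4 T 0x401000000000000000101000014040001805041404010000202600000000504a01440 := rS 0x450c473332e20aca5283c4b17049061a711a9d5b74d6fd2e7b0f99b9dd70376ba49731 (k8 i3161 c72 i3180 i3182 i3194 i3181 i3179 i3162 (k8 i3195 i3168 i3163 i3175 i3169 i3174 i971 i1117 (k8 i1359 i1202 i42 i1310 i948 c222 c272 c309 (k8 i2027 i430 c173 c38 i1142 i545 i2017 c80 k0)))) (by decide +kernel)
def c322 : PP 8 4 T 0x401000000000000000100000014000001005001400000008202600000500004a01040 := rS 0x894ac50e6b418b29729319b914a0f8b0951e7f37824827105c446ac110a8c3b0d50994ea239cb85b74d6fd2e7b0f99c7ddb358ec85b32f74c1e624b (k8 c72 i3161 i3178 i3180 i3160 i3191 i3152 i3149 (k8 i3164 i3182 i3150 i3162 i3195 i3168 i3163 i3175 (k8 i3169 i3174 i3176 i3166 c320 i971 i1579 i822 (k8 i1202 i1229 c308 i1497 c311 i1117 c64 i494 (k8 i1359 i42 i1310 i968 i1665 c321 i860 c68 (k8 i502 c309 i1999 i1474 i1477 i949 i2027 i1461 (k4 i506 i884 i2017 i941 (k2 i1206 i2033 k0)))))))) (by decide +kernel)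
def c323 : PP 8 4 T 0x1000000000000002000001148000000000080000000000002000000000004000000 := rS 0x51566b65dbf65af37cb5e92e3 (k8 i3177 i3157 i3173 i3188 i3185 i3159 c37 i1949 (k4 i848 i666 c62 i2015 k0)) (by decide +kernel)
def c324 : PP 8 4 T 0x401000000000000000100000011000001005001400000008202600000508004a01040 := rS 0x22a95392399f4e66ac5023d5ab48fccb7eaa8124157974560b50984de9d4fc60f63968c44ea2375bbdf7357aba647478db5daaff92d261f33a0bde7b3f (k8 i3170 i3168 i3187 i3171 i3162 i3195 i3157 i3154 (k8 i3172 i3190 i3173 i3148 i3151 i3153 i3180 i3186 (k8 i3164 i3189 i3183 i3181 c320 i971 c64 i1162 (k8 i293 i714 c21 c39 i1746 i968 i1311 i822 (k8 i494 i898 i510 i499 i42 i1310 c322 c37 (k8 i123 i498 i1994 i1397 i1195 i1769 i1315 c323 (k4 c1 i1755 i2046 i846 (k2 i1103 c36 (k1 c225 k0))))))))) (by decide +kernel)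
def c325 : PP 8 4 T 0x401000000000000000000000000000000000000000000400002600000108004a01000 := rS 0x4208cacad3bb24aa5a8c1e4f63968a1cba2b4890452f103aa45e0b2828408032180603317acb67af7a0cce1f398f92e4b039dca5bad5 (k8 i3190 i3192 i3156 i3167 i3194 i3154 c72 i3150 (k8 i3166 i3195 i3162 i3171 i3187 i3168 i3159 i3186 (k8 i3161 i3193 i477 i635 i999 c3 i822 c302 (k8 i494 i315 i2313 i520 c9 i253 i42 c164 (k8 i898 i510 c303 i1162 i293 i714 i973 c21 (k8 c18 c280 i1125 i751 i1314 c315 c320 c324 (k1 i1772 k0))))))) (by decide +kernel)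
def c326 : PP 8 4 T 0x1000000000000000000001009000000800080000001000002000000000004000000 := rS 0x4552a72 (k4 i846 i1103 c36 c225 k0) (by decide +kernel)
def c327 : PP 8 4 T 0x901000000000000000000000049005001004005500001000202000000000004000000 := rS 0xce8b23d9ab53f32d0ab140bbdd335 (k8 i3164 i3180 i3183 c46 i1315 i1741 i123 i498 (k4 i1397 c323 c326 c68 (k2 i2046 i950 k0))) (by decide +kernel)
def c328 : PP 8 4 T 0x1000000000000000001000014045441405505014400008002400000000404801540 := rS 0x132b75e2ece66c5a4169eca662959ee407c584a21889dcd27596b9ddeed74cd63b216ccbe0e4b (k8 c72 i3178 i3160 i3191 i3152 i3149 i3164 i3180 (k8 i3182 i3183 i3179 i3159 i971 i1583 i1628 c64 (k8 i1497 i860 c68 i502 i1999 i950 i171 i2046 (k8 i2027 i1754 i430 i506 c48 i884 i1681 i674 (k2 i887 i1990 (k1 i2045 k0)))))) (by decide +kernel)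
def c329 : PP 8 4 T 0x20801000000000000000001000051044401004405004400008202600000000404801440 := rS 0x8a188e6665c41594a57203c4b17471fd56974e824830d38985028564c44ee3510994eadba6b7e973d87ccdceeb81bb66b1d90b665ee983cfc9731 (k8 i3161 c72 i3170 i3178 i3180 i3160 i3191 i3152 (k8 i3149 i3164 i3182 i3194 i3181 i3179 i3162 i3195 (k8 i3168 i3163 i3175 i3169 i3174 i971 i1579 i1497 (k8 i1117 i1628 c64 i503 i1741 c46 i1311 i1359 (k8 i1202 i42 i1310 i1746 i1745 c327 i1665 c328 (k8 i948 c222 c272 i1999 i171 i2027 i430 c173 (k4 c38 i1142 i545 i2017 (k1 c80 k0)))))))) (by decide +kernel)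
def c330 : PP 8 4 T 0x801000000000000000000000011000401044005000000108202600000500004801040 := rS 0x114311ccccb882b294ae4078962e8e3faad2e9d464653e65519d582353488cef11109ad92d141824830d38abc16a10e984de8558a05b74d6fd2e7b0f99b9dd70376cd63b216ccbdd3077bbce532da0cec9731 (k8 i3161 c72 i3167 i3171 i3159 i3156 i3185 i3187 (k8 i3178 i3180 i3160 i3191 i3152 i3149 i3164 i3182 (k8 i3194 i3181 i3179 i3162 i3195 i3168 i3163 i3175 (k8 i3169 i3174 c46 i1315 i1741 i968 i1311 i1229 (k8 i822 i494 i499 i1359 i1202 i42 i1310 i1438 (k8 i1162 i503 i507 i1497 c64 i1628 c320 i1583 (k8 i1117 c311 i971 c308 i1579 c187 c329 i2013 (k8 i1819 i1817 c327 i1665 c328 i948 c222 c272 (k8 i1999 i171 i2027 i430 c173 c38 i1142 i545 (k2 i2017 c80 k0)))))))))) (by decide +kernel)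
def c331 : PP 8 4 T 0x1100000000000000000000000000000800000000000014002000000001004000020 := rS 0xc807952230f (k4 i3195 i687 c83 c180 (k2 i766 i611 k0)) (by decide +kernel)
def c332 : PP 8 4 T 0x111000000000000000400000014010000000000000000000002400000001514005540 := rS 0x5239146c176cd63b216ccbdd307 (k8 i3178 i3180 i3160 i3191 i3152 i3149 i3164 i3182 (k4 c311 c308 i1999 i2027 (k1 i171 k0))) (by decide +kernel)
def c333 : PP 8 4 T 0x1000000000000000000000010000000800000000000004202600000100004801020 := rS 0x3f34d4422608846a0f65c10b26588824830d0e81c5e0b5089556b56abb61f31 (k8 i3161 i3195 i3182 i3190 i1398 i497 i347 i822 (k8 i494 i315 i520 i1229 i1202 i42 i1310 i687 (k8 c88 i869 c331 i430 i424 i354 i726 c311 (k4 c332 c317 c69 c316 (k1 c314 k0))))) (by decide +kernel)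
def c334 : PP 8 4 T 0x101000000000000000400000010010001445105400000004202400000001004201140 := rS 0x1451ead83c3f3f34d442207b0608bb10955986b4fa759e658b3c5a30d0ea9c167555ad4b2e391be65ed5a0bbdd331 (k8 i3161 i3180 i3183 i3171 i3190 i3160 i3188 i3153 (k8 i3177 i868 i1398 i497 i1011 i494 i330 i1229 (k8 i1202 i1162 c9 c68 c276 i950 i1478 c187 (k8 c116 i2046 i770 c305 i1949 c83 c311 i424 (k8 c332 c317 c69 c316 i407 c70 i848 i1307 (k2 c62 c8 k0)))))) (by decide +kernel)
def c335 : PP 8 4 T 0x1000000000000010000000000002000040000000100000002000000000004000000 := rS 0x11b197bc0de72996d06773f (k8 i3170 i3167 i3171 i3159 i3156 i3185 i3194 i3187 (k2 i1746 i1819 (k1 i2013 k0))) (by decide +kernel)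
def c336 : PP 8 4 T 0x11000000000000008401000014040000400000014000000002400011000004205540 := rS 0x1c9711519221caa48bb6e9adfa5cf61f339cb760eeb8fc85daef (k8 i3183 i3182 i3152 i3150 i3181 i3178 i3192 i3166 (k8 i3162 i3195 i3168 i3163 i3175 i3169 i3174 i950 (k8 i2027 i171 c271 c27 i1206 i289 i2017 i1141 k0))) (by decide +kernel)
def c337 : PP 8 4 T 0x11200000000000001404000014050001405001414000004002400000000014a05560 := rS 0xc0188859c9d4f994d255458ecf639689d4b235 (k8 i1116 i868 i1011 i1162 i293 i714 i1155 i550 (k8 c49 c63 c75 c187 c335 i2046 c307 i989 (k2 c336 c311 k0))) (by decide +kernel)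
def c338 : PP 8 4 T 0x1100000000000000400000014040000000000000000000002400000000004005540 := rS 0x1c8c0 (k2 c98 c77 (k1 c0 k0)) (by decide +kernel)
def c339 : PP 8 4 T 0x11000000000000001404000014050001405001414000004002400000000014a05560 := rS 0x105 (k2 c337 c338 k0) (by decide +kernel)
def c340 : PP 8 4 T 0x11000000000000000002000000010000000010000000000002000000000014000000 := rS 0xfb4e5f21 (k4 i3152 i3160 i1194 i1305 (k1 c70 k0)) (by decide +kernel)
def c341 : PP 8 4 T 0x1000000000000008100000000000000000000000000000002000010000004208000 := rS 0x1962eef (k4 i3183 i950 c151 c272 k0) (by decide +kernel)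
def c342 : PP 8 4 T 0x1000000000000000400000010010001405101404000004202400000009004a01160 := rS 0x8b99538cf4f9b4cf050730d46cd11c41163b3d8e5a30d3882c3a7555b246ae775c0e82d577cbc9731 (k8 i3161 c72 i3160 i3183 i3190 i3171 i3194 i3181 (k8 i3179 i1116 i1124 i497 i1011 i1229 i494 i1359 (k8 i1202 i1162 i293 i714 i1155 i550 c334 i1469 (k8 i690 c308 i1954 c339 i424 i542 i668 c275 (k4 c341 i2046 i1552 i1478 (k1 c38 k0)))))) (by decide +kernel)
def c343 : PP 8 4 T 0x1100000000000000100000000002000040000000040000002000000000004000000 := rS 0x22e6573bae0741 (k4 i3171 i3194 i3181 i3179 (k2 i1552 i1478 (k1 c38 k0))) (by decide +kernel)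
def c344 : PP 8 4 T 0x1000000000000005000000000001001445005500000000002000000008004008000 := rS 0x36a7986d1 (k4 i1162 i1954 i2046 i668 (k1 c275 k0)) (by decide +kernel)
def c345 : PP 8 4 T 0x1100000000000000000000000000001445005400000004002000010009004208000 := rS 0xd49f2a19622cc4eb3cced13ab24b2ef (k8 i3183 i868 i1124 i1011 i1162 i542 c341 c343 (k4 c344 i690 c276 c83 (k2 c187 i770 (k1 c116 k0)))) (by decide +kernel)
def c346 : PP 8 4 T 0x1100000000000002000000000000000000000000400014002000000000004000000 := rS 0x15622ef (k4 i3183 i690 i770 c83 k0) (by decide +kernel)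
def c347 : PP 8 4 T 0x101000000000000001000000000000001445005500000000002000000001004200000 := rS 0x9f4eb3ccb1668d05dee9 (k8 i3180 i3183 i3171 i1162 c68 c276 i950 i1478 (k2 c187 i2046 k0)) (by decide +kernel)
def c348 : PP 8 4 T 0x11000000000000001800000000005001405005414000004002000010000004200000 := rS 0xce658b9519c75649660ae775c0ddeed (k8 i3182 i3183 i3194 i3181 i3179 i430 i868 i1124 (k4 i1011 i2046 c310 i950 (k2 c151 i1619 (k1 c38 k0)))) (by decide +kernel)
def c349 : PP 8 4 T 0x1000001000000000000000000008000000000000000000002000501000004000000 := rS 0xde32dda0ce63ef7 (k8 i3187 i3150 i3166 i3171 i3192 c39 i996 c33 k0) (by decide +kernel)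
def c350 : PP 8 4 T 0x801000000000000000000000010000001004001000000000202600000108004a01020 := rS 0xde329c4fb3462c5721ac1f05651dc6a5964a3c4a5700a2cba2b3d9bc0e9b1cb4476f1049061a71548bc16a140a15bb419cc7def3f76cd49731 (k8 i3161 c72 i3164 i3182 i3170 i3187 i3150 i3166 (k8 i3171 i3192 i1741 c46 i822 i494 i315 i2313 (k8 i1359 i1202 i42 i1310 c9 i1155 i1162 i293 (k8 c207 i520 i968 i714 i898 i510 i550 i477 (k8 c330 i347 c333 i1124 i868 i1116 c243 c342 (k8 i430 c345 i627 c77 c41 i1461 c346 c349 (k4 c348 i1746 i1779 c33 k0))))))) (by decide +kernel)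
def c351 : PP 8 4 T 0x1000000000000000000000000000000000000000000400002600000108004a01000 := rS 0x35b301e8f1ac44ee253a964a8673e414aecb562162479458ecf63968a1cba2b4881006430090452f127984a06fa5d266b398f92e4b039dca5bad5 (k8 i3190 i3192 i3156 i3167 i3194 i3154 c72 i3150 (k8 i3166 i3164 i3157 i3163 i968 c302 i1311 i52 (k8 c9 i253 i42 i477 i635 i999 c3 c164 (k8 i898 i510 c303 i1162 i293 i714 i1155 i550 (k8 i973 c325 i1741 c350 i122 i1582 i1467 i1313 (k8 i1622 i1314 i607 i1011 i347 i1630 i1472 i355 (k4 c331 c345 c347 i627 (k1 i770 k0)))))))) (by decide +kernel)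
def c352 : PP 8 4 T 0x1000000000000000000000000000000000000000000000002240000000004802000 := rS 0x470d62e75100c0cc230200c033b9cc7c972581ca5bad5 (k8 i3190 i3192 i3156 i3194 i3154 c72 i3150 i3166 (k8 i3167 i477 i999 c3 i1570 i521 i522 i482 (k4 i971 i1475 i17 c99 (k1 i726 k0)))) (by decide +kernel)
def c353 : PP 8 4 T 0x1000000000000000000000000000000000000000000400002200000108004a00000 := rS 0x23cb27542c44ee642a15d8a221299c8c113ca2c767b1cb450e5d15a4408030090452f10690e5f398f92e4b039dca5bad5 (k8 i3190 i3192 i3156 i3167 i3194 i3154 c72 i3150 (k8 i3166 i3160 i635 c352 c9 i253 i42 i477 (k8 i999 c3 c164 i898 i510 c303 i1162 i293 (k8 i714 i1155 i550 i973 i7 c351 i1618 i2142 (k8 i224 i1536 i1578 i225 i265 i752 i1469 i1771 (k4 i1011 i34 i1025 c276 k0)))))) (by decide +kernel)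
def c354 : PP 8 4 T 0x1000000000000000000000000000001445005400000000002a00000001004200020 := rS 0x1d622642b888832f (k8 i3160 i42 i224 i1578 i265 i1469 i1011 c276 k0) (by decide +kernel)
def c355 : PP 8 4 T 0x801000000000000000000000001000001404001100000000202600000500804a01040 := rS 0x196574ea7d5b1618956228b2e8acf6a137a6c72d11dbc41241869c502852c8d44a776480682e99792e6b31 (k8 i3161 i3164 c72 i3160 i3180 i3171 i477 i1124 (k8 c243 i860 i1116 i868 i1741 c46 i1359 i1202 (k8 i42 i1310 c9 i1155 i1162 i293 c207 i968 (k8 i822 i714 i898 i510 i550 i1469 i1537 i1571 (k4 c68 i1314 c349 i1478 (k2 c330 c310 (k1 c334 k0))))))) (by decide +kernel)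
def c356 : PP 8 4 T 0x101000000000000000000000000010001445005504000004202400010005404201140 := rS 0x65ab41e55721ac429f4eb3d98658b3461a7105874b2ab73cd63b216ccbdd307a0bbc9731 (k8 i3161 c72 i3183 i3171 i3178 i3180 i3160 i3191 (k8 i3152 i3149 i3164 i3179 i497 i868 i1229 i494 (k8 i1359 i1202 i1162 c68 c276 c347 i950 i1478 (k8 c187 i729 c116 i1999 i770 i166 i1314 c310 (k1 c332 k0))))) (by decide +kernel)
def c357 : PP 8 4 T 0x8001000000000000001000000000000001405005500000000002400400000004201000 := rS 0x11836324653c9d67bc472d145bde06f394cb6833b6ece63eef (k8 i3183 i3150 i3166 i3192 i3167 i3171 i3159 i3156 (k8 i3185 i3194 i3187 i550 i1162 i293 c9 i950 (k4 i1478 i2046 c39 c187 (k2 c33 i2013 (k1 c111 k0))))) (by decide +kernel)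
def c358 : PP 8 4 T 0x1000000000000001000000000009001405005100000000002400400000004201000 := rS 0x2306c648cb3de23968a2def0379ca65b419db76731f (k8 i3150 i3166 i3192 i3167 i3171 i3159 i3156 i3185 (k8 i3194 i3187 i550 i1162 i293 c9 i156 c39 (k4 c187 c33 i2013 c111 k0))) (by decide +kernel)
def c359 : PP 8 4 T 0x11000000000000001000000014051001405001514000004002400000000014a01560 := rS 0x30c1ecb6727c767b1cb459235 (k8 i1116 i1124 i1162 i293 i714 i1155 c358 i2046 (k4 c348 c341 i369 c339 k0)) (by decide +kernel)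
def c360 : PP 8 4 T 0x1000000000000000000000000010001405001504000004202400000004404a01160 := rS 0x39189051b03cd11932a722ead669f620ab78a2c767b1cb44e20b648d44aa30ec35bb419cc7def3f77d2e624b (k8 c72 i3161 i3163 i3183 i3170 i3187 i3150 i3166 (k8 i3171 i3192 i1202 i1229 c308 i860 i1116 i1124 (k8 i494 i1359 i1162 i293 i714 i1155 i550 c9 (k8 i497 c356 i1472 i690 i1313 c357 c359 i1552 (k8 i1746 c335 c272 c33 c63 i1779 c77 c41 k0))))) (by decide +kernel)
def c361 : PP 8 4 T 0x801000000000000000000000001000401044005000000108202600000500004801040 := rS 0x15a4f (k2 i52 i1582 (k1 c330 k0)) (by decide +kernel)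
def c362 : PP 8 4 T 0x801000000000000000000000000000001404001000000000202200000104004a01020 := rS 0x111d4ae473b895920145974567b3781d3639688ede20920aa45e0b50a166a4b (k8 c72 i3164 i1741 i822 i494 i315 i2313 i42 (k8 i1310 c9 i1155 i1162 i293 c207 i520 i968 (k8 i714 i898 i510 i550 i477 i1124 i860 c243 (k4 c354 c361 i1011 c360 (k1 c355 k0))))) (by decide +kernel)
def c363 : PP 8 4 T 0x1000000000000000000000000000000000000000000400002200000100004a00000 := rS 0x822b0ae472c894ca8e8909c5e0b549413607509e5163b3d8e5a2872e8ad22040180482297883487498ecbdeb398f92e4b039dca5bad5 (k8 i3190 i3192 i3156 i3167 i3194 i3154 c72 i3150 (k8 i3166 i3186 i3160 i3149 i3157 i635 c352 c9 (k8 i253 i42 i477 i999 c3 c164 i898 i510 (k8 c303 i1162 i293 i714 i1155 i550 i973 i822 (k8 i520 c207 c302 i2313 i494 i315 c353 c28 (k8 c362 c88 c222 i869 i265 c361 c333 c331 (k1 i1467 k0))))))) (by decide +kernel)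
def c364 : PP 8 4 T 0x1000000000000010000000000000800040000000001000002000000000004000000 := rS 0x11b197bc0de72996d0676f9 (k8 i3188 i3167 i3171 i3159 i3156 i3185 i3194 i3187 (k2 i956 i1033 (k1 i2013 k0))) (by decide +kernel)
def c365 : PP 8 4 T 0x1000000000000000000000040000200000000000004000002000000200004200000 := rS 0x53f14ca9 (k4 i2651 i981 c283 i330 (k1 c53 k0)) (by decide +kernel)
def c366 : PP 8 4 T 0x801000000000000000000000000010401000005000004000102000000200004200000 := rS 0x5a99f83da293e1ab64cabc7ef1299c5a6971cb450283379cdc7237cd2db70198d25af1f (k8 i3150 i3173 i3157 i3161 i3193 i3174 i3163 i3188 (k8 i3153 i3177 i977 i1009 i697 c46 i1162 i293 (k8 i1244 i1193 c31 c87 c9 i1423 i588 c365 (k8 i2045 i682 i762 c62 i1784 c5 c8 c22 (k1 i330 k0))))) (by decide +kernel)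
def c367 : PP 8 4 T 0x801000000000000000000000000000001000005000000000102200400200004200000 := rS 0x295e3e7ea306c604cc6534635081de23968a2da60900d1e36d76abfe4b4994bde06f396d0676dd9cc7df24b (k8 c72 i3188 i3150 i3166 i3192 i3167 i3171 i3159 (k8 i3185 i3194 i3187 i3156 i3157 i3154 i3172 i3190 (k8 i3173 i3148 i3151 i477 i1264 i1193 i550 i1162 (k8 i293 c9 i479 i309 i1237 c366 i956 i105 (k8 c364 c33 i2013 i1198 i995 i1924 i1994 i401 k0))))) (by decide +kernel)
def c368 : PP 8 4 T 0x201000000000000000000000000000000000000200000000002000000000004000000 := rS 0x133 (k2 i3162 i1471 k0) (by decide +kernel)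
def c369 : PP 8 4 T 0x1001000000000040000000000000000000000000000000002000000000004000540 := rS 0x5264aff6ab5e3747 (k8 i3151 i3148 i3173 i3190 i3172 i3154 i3157 i1994 k0) (by decide +kernel)
def c370 : PP 8 4 T 0x1000000000000000000000000000000000002000000000002000800000004000000 := rS 0x0 (k1 i2690 k0) (by decide +kernel)
def c371 : PP 8 4 T 0x1000000000000001001000000000000000000540000000000000000000000002000000000004000000 := rS 0x1c7496bbe5e72d (k4 i3159 i3185 i3188 i3173 (k2 i3157 i3177 (k1 i2015 k0))) (by decide +kernel)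
def c372 : PP 8 4 T 0x1000000000000000000000000000000000000008000000102000000000004000000 := rS 0x0 (k1 i1009 k0) (by decide +kernel)
def c373 : PP 8 4 T 0x1002000000000000000000200000000000000000000000002000000000004000000 := rS 0x12d (k2 i3159 i1200 k0) (by decide +kernel)
def c374 : PP 8 4 T 0x1000002000000000000000000000000000000000000000002000000000004020000 := rS 0x11b (k2 i3148 i1727 k0) (by decide +kernel)
def c375 : PP 8 4 T 0x1000000000000000000000000000000000000000000000002080000000004400000 := rS 0x0 (k1 i699 k0) (by decide +kernel)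
def c376 : PP 8 4 T 0x801000000000000000000000000000000002000000000000002000000000004000000 := rS 0x135 (k2 i3164 i1741 k0) (by decide +kernel)
def c377 : PP 8 4 T 0x21000000000000000000000000000000000000000000000202000000000004000000 := rS 0x131 (k2 i3161 i1202 k0) (by decide +kernel)
def c378 : PP 8 4 T 0x1000000000000080000000000000000000000000000000002000000000004000080 := rS 0x11b (k2 i3148 i1191 k0) (by decide +kernel)
def c379 : PP 8 4 T 0x1011000000000000000000000000000000000000054000000002000000000004000000 := rS 0x4ce1f3da5b7e9adb (k8 i3174 i3169 i3175 i3163 i3168 i3195 i3162 i2017 k0) (by decide +kernel)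
def c380 : PP 8 4 T 0x20001000000000000000000000000000000000000000000000002000800000004000000 := rS 0xdd (k2 i3192 i951 k0) (by decide +kernel)
def c381 : PP 8 4 T 0x1000000000000000000000000000000000000000000000802000000000024000000 := rS 0x0 (k1 i2474 k0) (by decide +kernel)
def c382 : PP 8 4 T 0x1000000000000000000000000000000000000008000000002000000000004000002 := rS 0x0 (k1 i2628 k0) (by decide +kernel)
def c383 : PP 8 4 T 0x1000000000000000000000000000000000000000000800002000000008004000000 := rS 0x0 (k1 i2486 k0) (by decide +kernel)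
def c384 : PP 8 4 T 0x1002000000000000000000000000000000000000002000002000000000004000000 := rS 0x129 (k2 i3156 i1198 k0) (by decide +kernel)
def c385 : PP 8 4 T 0x1000000000000000000000002000000000000000000000202000000000004000000 := rS 0x4b (k2 c72 i495 k0) (by decide +kernel)
def c386 : PP 8 4 T 0x2001000000000000000000000000000020000000000000000002000000000004000000 := rS 0xe1 (k2 i3176 i941 k0) (by decide +kernel)
def c387 : PP 8 4 T 0x800000000000001000000000000000000000000080000000000000000000002000000000004000000 := rS 0xff (k2 i3172 i1479 k0) (by decide +kernel)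
def c388 : PP 8 4 T 0x2000000000000001000000000000000000000000000200000000000000000002000000000004000000 := rS 0xdf (k2 i3175 i1750 k0) (by decide +kernel)
def c389 : PP 8 4 T 0x8001000000000000000000000000000000000000000000000002000008000004000000 := rS 0x139 (k2 i3166 i1474 k0) (by decide +kernel)
def c390 : PP 8 4 T 0x801000000000000000000000000000002000000000000000002000000000004000000 := rS 0xf7 (k2 i3187 i696 k0) (by decide +kernel)
def c391 : PP 8 4 T 0x1000000000000000000000000000000000000000000000002100000000006000000 := rS 0x0 (k1 i1007 k0) (by decide +kernel)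
def c392 : PP 8 4 T 0x101000000001000000000000000000000000000000000000002000000001504000000 := rS 0x41dd32f6cc863b35 (k8 i3164 i3149 i3152 i3191 i3160 i3180 i3178 i1999 k0) (by decide +kernel)
def c393 : PP 8 4 T 0x20001000000000000000000000000002000000000000000000002000000000004000000 := rS 0x13f (k2 i3170 i1746 k0) (by decide +kernel)
def c394 : PP 8 4 T 0x20001000000000000000000000000000800000000000000000002000000000004000000 := rS 0xf9 (k2 i3188 i956 k0) (by decide +kernel)
def c395 : PP 8 4 T 0x1000000000000000000000000000000000000000000000002000008002004000000 := rS 0x0 (k1 i286 k0) (by decide +kernel)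
def c396 : PP 8 4 T 0x1000000000000000000000000000000000000000000000002020000000004000020 := rS 0x0 (k1 i260 k0) (by decide +kernel)
def c397 : PP 8 4 T 0x201000000000000000000000000000000000000000000020002000000000004000000 := rS 0xe7 (k2 i3179 i686 k0) (by decide +kernel)
def c398 : PP 8 4 T 0x400000000000000501000000000000001000000000000000005000000000000002000000000004000000 := rS 0xe97acd5f6ef (k4 i3183 i3189 i3164 i3186 (k2 i3180 c1 k0)) (by decide +kernel)
def c399 : PP 8 4 T 0x1000000000000000000000000000000000000000000000002150000000004000000 := rS 0xd56ccbe632580c763727 (k8 i3155 i3148 i3149 i3193 i3154 i3161 i3160 i3191 (k2 i3190 i1992 k0)) (by decide +kernel)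
def c400 : PP 8 4 T 0x1000000000000000200000000000000000000000000008002000000000004000000 := rS 0x4b (k2 c72 i503 k0) (by decide +kernel)
def c401 : PP 8 4 T 0x10001000000000000010000000000000000140000000000000002000000000004000000 := rS 0x4ee832d94bce06f7 (k8 i3187 i3194 i3185 i3156 i3159 i3171 i3167 i2013 k0) (by decide +kernel)
def c402 : PP 8 4 T 0x2001000000000000000000000002000000000000000000000002000000000004000000 := rS 0xd7 (k2 i3173 i938 k0) (by decide +kernel)
def c403 : PP 8 4 T 0x20001000000000000000000000000000000000000000000000002000800000004000000 := rS 0x10b (k2 i3184 i952 k0) (by decide +kernel)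
def c404 : PP 8 4 T 0x1000000000000080000000000000000000000000000000002000000000004000800 := rS 0xd5 (k2 i3190 i157 k0) (by decide +kernel)
def c405 : PP 8 4 T 0x1000000000000080000000000000000000000000000000002000000000024000000 := rS 0x11d (k2 i3149 i1192 k0) (by decide +kernel)
def c406 : PP 8 4 T 0x8001000000000000000000000000000000000000000000000002000020000004000000 := rS 0xdd (k2 i3192 i943 k0) (by decide +kernel)
def c407 : PP 8 4 T 0x1000000000000000200000000000000000000000000000002000000000006000000 := rS 0x0 (k1 i2777 k0) (by decide +kernel)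
def c408 : PP 8 4 T 0x21000000000000000000000000000000000080000000000002000000000004000000 := rS 0xe1 (k2 i3176 i681 k0) (by decide +kernel)
def c409 : PP 8 4 T 0x1000000002000000000000000000000000000000000000002000000000004008000 := rS 0xe7 (k2 i3179 i166 k0) (by decide +kernel)
def c410 : PP 8 4 T 0x1000000000000000000000000000000000000000000000002000000000004000015 := rS 0x9cc7e4b039dca5bad5 (k8 i3190 i3192 i3156 i3167 i3194 i3154 i3150 i3166 (k1 c3 k0)) (by decide +kernel)
def c411 : PP 8 4 T 0x2001000000000000000000000000000200000000000000000002000000000004000000 := rS 0xe3 (k2 i3177 i942 k0) (by decide +kernel)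
def c412 : PP 8 4 T 0x2001000000000000000000000000000000000000020000000002000000000004000000 := rS 0x13d (k2 i3168 i1208 k0) (by decide +kernel)
def c413 : PP 8 4 T 0x1000000000000002000000000000000000000000000800002000000000004000000 := rS 0x0 (k1 i2605 k0) (by decide +kernel)
def c414 : PP 8 4 T 0x1000000000000000000000000000000000000008000000002000000800004000000 := rS 0x0 (k1 i2684 k0) (by decide +kernel)
def c415 : PP 8 4 T 0x800000000000001000000000000000000200000000000000000000000000002000000000004000000 := rS 0xef (k2 i3183 i1215 k0) (by decide +kernel)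
def c416 : PP 8 4 T 0x201000000000000000000000000000000800000000000000002000000000004000000 := rS 0x10f (k2 i3195 i687 k0) (by decide +kernel)
def c417 : PP 8 4 T 0x1000000000000000000000000000000000000000000000002080000000004000020 := rS 0x4d (k2 c73 i517 k0) (by decide +kernel)
def c418 : PP 8 4 T 0x1002000000000000000000000000000000000000000000802000000000004000000 := rS 0xdb (k2 i3174 i419 k0) (by decide +kernel)
def c419 : PP 8 4 T 0x2000000000000001000000000000000000000000000800000000000000000002000000000004000000 := rS 0xf7 (k2 i3187 i1219 k0) (by decide +kernel)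
def c420 : PP 8 4 T 0x8001000000000000008000000000000000000000000000000002000000000004000000 := rS 0xef (k2 i3183 i950 k0) (by decide +kernel)
def c421 : PP 8 4 T 0x1000000000000000000000000000000000000000000000002000000000004400002 := rS 0x0 (k1 i958 k0) (by decide +kernel)
def c422 : PP 8 4 T 0x1000000000000000000000000000000000002000000080002000000000004000000 := rS 0x4b (k2 c72 i1808 k0) (by decide +kernel)
def c423 : PP 8 4 T 0x801000000000000000000000000000000000002000000000002000000000004000000 := rS 0x133 (k2 i3162 i1739 k0) (by decide +kernel)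
def c424 : PP 8 4 T 0x1000000000000000000000000000000000808000000000002000000000004000000 := rS 0x0 (k1 i2512 k0) (by decide +kernel)
def c425 : PP 8 4 T 0x1200000000000000000000000000000000000000000000002800000000004000000 := rS 0x125 (k2 i3154 i1464 k0) (by decide +kernel)
def c426 : PP 8 4 T 0x1000000000000000000000000008000000002000000000002000000000004000000 := rS 0x0 (k1 i2692 k0) (by decide +kernel)
def c427 : PP 8 4 T 0x11001000000000000000000000000000000000000000000542000000000004000000 := rS 0x1af4998c05b74b (k4 i3163 i3174 i3193 i3161 (k2 i3157 i3173 (k1 c5 k0))) (by decide +kernel)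
def c428 : PP 8 4 T 0x800000000000000001000000000000000008000000000000000000000000000002000000000004000000 := rS 0x107 (k2 i3178 i1752 k0) (by decide +kernel)
def c429 : PP 8 4 T 0x1000000000000000000000000000000000000200000004002000000000004000000 := rS 0x0 (k1 i1011 k0) (by decide +kernel)
def c430 : PP 8 4 T 0x1000000000000000000000000000000008008000000000002000000000004000000 := rS 0x0 (k1 i2513 k0) (by decide +kernel)
def c431 : PP 8 4 T 0x1000000000000000200000000000000000000000000000002000002000004000000 := rS 0x0 (k1 i2658 k0) (by decide +kernel)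
def c432 : PP 8 4 T 0x8001000000000000000200000000000000000000000000000002000000000004000000 := rS 0x103 (k2 i3194 i945 k0) (by decide +kernel)
def c433 : PP 8 4 T 0x201000000000000000000000000000000000020000000000002000000000004000000 := rS 0x14b (k2 i3163 i1472 k0) (by decide +kernel)
def c434 : PP 8 4 T 0x1200000000000000800000000000000000000000000000002000000000004000000 := rS 0xed (k2 i3182 i430 k0) (by decide +kernel)
def c435 : PP 8 4 T 0x20001000000000000000000000000000000000008000000000002000000000004000000 := rS 0x13d (k2 i3168 i1744 k0) (by decide +kernel)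
def c436 : PP 8 4 T 0x8001000000000000000000000000000008000000000000000002000000000004000000 := rS 0x14d (k2 i3169 i1477 k0) (by decide +kernel)
def c437 : PP 8 4 T 0x1000000000000000000000002000000000000000000000002000000000006000000 := rS 0x0 (k1 i2755 k0) (by decide +kernel)
def c438 : PP 8 4 T 0x1000000000000000000000000000000080002000000000002000000000004000000 := rS 0x4d (k2 c73 i1854 k0) (by decide +kernel)
def c439 : PP 8 4 T 0x800000000000001000000000000000000000008000000000000000000000002000000000004000000 := rS 0xd7 (k2 i3173 i1480 k0) (by decide +kernel)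
def c440 : PP 8 4 T 0x1000000000000411000000000000000000004000000000000500000000000002000000000004000000 := rS 0xdb71be696f5 (k4 i3186 i3163 i3188 i3177 (k2 i3174 c7 k0)) (by decide +kernel)
def c441 : PP 8 4 T 0x1000000000000000000000000000000000000020000000202000000000004000000 := rS 0x4b (k2 c72 i1359 k0) (by decide +kernel)
def c442 : PP 8 4 T 0x1000000000000000000000000000000000000000000000002000080000006000000 := rS 0x0 (k1 i2683 k0) (by decide +kernel)
def c443 : PP 8 4 T 0x1000002000000000000000000000000000000000000000002000800000004000000 := rS 0xf7 (k2 i3187 i177 k0) (by decide +kernel)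
def c444 : PP 8 4 T 0x1000000002000000008000000000000000000000000000002000000000004000000 := rS 0xef (k2 i3183 i172 k0) (by decide +kernel)
def c445 : PP 8 4 T 0x1000000000000000000000000000000000000800000001002000000000004000000 := rS 0x0 (k1 i751 k0) (by decide +kernel)
def c446 : PP 8 4 T 0x1000000000000000000000000000000000000000000000002000000000006000004 := rS 0x0 (k1 i1006 k0) (by decide +kernel)
def c447 : PP 8 4 T 0x1000000000000000000000000000000000000800000000002000000002004000000 := rS 0x0 (k1 i2508 k0) (by decide +kernel)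
def c448 : PP 8 4 T 0x1000000000000080000000000000000000000000000000002000000800004000000 := rS 0xdf (k2 i3175 i162 k0) (by decide +kernel)
def c449 : PP 8 4 T 0x1000000000000001000001000000040000000000400000000000000000000002005000000004000000 := rS 0x3e646e3 (k4 i3177 i3153 i3188 c8 k0) (by decide +kernel)
def c450 : PP 8 4 T 0x1000000002000000000000000000000000000000000000002000002000004000000 := rS 0x11f (k2 i3150 i1461 k0) (by decide +kernel)
def c451 : PP 8 4 T 0x1000000000000000000000000000000000000008001000002000000000004000000 := rS 0x0 (k1 i1008 k0) (by decide +kernel)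
def c452 : PP 8 4 T 0x21000000000000000000000000000000000000000000000002000000000084000000 := rS 0x12f (k2 i3160 i1201 k0) (by decide +kernel)
def c453 : PP 8 4 T 0x1000000002000000000000000000000000000000000000002000020000004000000 := rS 0xeb (k2 i3181 i170 k0) (by decide +kernel)
def c454 : PP 8 4 T 0x201000000000000000000000000000000000000000000000002000000000804000000 := rS 0x12f (k2 i3160 i1469 k0) (by decide +kernel)
def c455 : PP 8 4 T 0x201000000000000000000000000000000800000000000000002000000000004000000 := rS 0xeb (k2 i3181 i688 k0) (by decide +kernel)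
def c456 : PP 8 4 T 0x1000000000000000000000000000000000000000080020002000000000004000000 := rS 0x4d (k2 c73 i543 k0) (by decide +kernel)
def c457 : PP 8 4 T 0x1000000000000000000000000020000000000000000000002080000000004000000 := rS 0x0 (k1 i2573 k0) (by decide +kernel)
def c458 : PP 8 4 T 0x1000000000000000000020002000000000000000000000002000000000004000000 := rS 0x0 (k1 i2781 k0) (by decide +kernel)
def c459 : PP 8 4 T 0x1000000000000000200000000000000400000000000000002000000000004000000 := rS 0x0 (k1 i1124 k0) (by decide +kernel)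
def c460 : PP 8 4 T 0x1000000000000000000000000000000000000200080000002000000000004000000 := rS 0x4d (k2 c73 i1588 k0) (by decide +kernel)
def c461 : PP 8 4 T 0x1000000000000000000000000000000000000000000000002000000000005400000 := rS 0xdd99cf65f398ec7e1ed9 (k8 i3191 i3195 i3150 i3149 i3166 i3160 i3168 i3162 (k2 i3192 i1997 k0)) (by decide +kernel)
def c462 : PP 8 4 T 0x1000000000000000000000000020000000000020000000002000000000004000000 := rS 0x0 (k1 i795 k0) (by decide +kernel)
def c463 : PP 8 4 T 0x201000000000000000000002000000000000000000000000002000000000004000000 := rS 0xed (k2 i3182 i689 k0) (by decide +kernel)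
def c464 : PP 8 4 T 0x1000000000000000000000000000000000000000000000002080000080004000000 := rS 0x0 (k1 i2609 k0) (by decide +kernel)
def c465 : PP 8 4 T 0x1000000000000000000000000000000000000000000020002000000000204000000 := rS 0x0 (k1 i2480 k0) (by decide +kernel)
def c466 : PP 8 4 T 0x1000000000000000000000002000000000000000000000002000000200004000000 := rS 0x0 (k1 i2651 k0) (by decide +kernel)
def c467 : PP 8 4 T 0x1000002000000000000000000000000000000000000000002000000080004000000 := rS 0xf5 (k2 i3186 i175 k0) (by decide +kernel)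
def c468 : PP 8 4 T 0x2000000000000001000000000000000000000080000000000000000000000002000000000004000000 := rS 0xd7 (k2 i3173 i1748 k0) (by decide +kernel)
def c469 : PP 8 4 T 0x1000000000000000000000000000000000000020002000002000000000004000000 := rS 0x4d (k2 c73 i1280 k0) (by decide +kernel)
def c470 : PP 8 4 T 0x1000000002000000000000000000000000000000000000002000000000204000000 := rS 0x11d (k2 i3149 i1460 k0) (by decide +kernel)
def c471 : PP 8 4 T 0x800000000000000001000000000000000000800000000000000000000000000002000000000004000000 := rS 0xf9 (k2 i3188 i1488 k0) (by decide +kernel)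
def c472 : PP 8 4 T 0x400000000005001000000000000000000010000000014000000000000000002000000000004000000 := rS 0x76b7dd74d (k4 i3169 i3181 i3175 i3182 (k1 c13 k0)) (by decide +kernel)
def c473 : PP 8 4 T 0x21000000000000000000000000000000000000000000000802000000000004000000 := rS 0x101 (k2 i3193 i677 k0) (by decide +kernel)
def c474 : PP 8 4 T 0x1000000000000000000000000000000000000020004000002000000000004000000 := rS 0x0 (k1 i750 k0) (by decide +kernel)
def c475 : PP 8 4 T 0x1000000002000000000000000000000000000000000000002000000002004000000 := rS 0xe9 (k2 i3180 i168 k0) (by decide +kernel)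
def c476 : PP 8 4 T 0x1000000000000080000000000000000000000000000000002002000000004000000 := rS 0x123 (k2 i3153 i1195 k0) (by decide +kernel)
def c477 : PP 8 4 T 0x1000000000000000000000000000000100000000000800002000000000004000000 := rS 0x0 (k1 i907 k0) (by decide +kernel)
def c478 : PP 8 4 T 0x1000000000000000000000000000000000000800000000002080000000004000000 := rS 0x0 (k1 i2452 k0) (by decide +kernel)
def c479 : PP 8 4 T 0x1000000000000020000000000000001000000000000000002000000000004000000 := rS 0x0 (k1 i1162 k0) (by decide +kernel)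
def c480 : PP 8 4 T 0x2001000000000000000000000000000000000000000000000002000000800004000000 := rS 0xdd (k2 i3192 i935 k0) (by decide +kernel)
def c481 : PP 8 4 T 0x1000000000000000000000000000000000000000000000002000002000006000000 := rS 0x0 (k1 i2682 k0) (by decide +kernel)
def c482 : PP 8 4 T 0x8001000000000000000000000000000000000000800000000002000000000004000000 := rS 0x13d (k2 i3168 i1476 k0) (by decide +kernel)
def c483 : PP 8 4 T 0x1000000000000000000000000000000000000008000000082000000000004000000 := rS 0x4b (k2 c72 i1272 k0) (by decide +kernel)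
def c484 : PP 8 4 T 0x1000000002000000000000000200000000000000000000002000000000004000000 := rS 0xed (k2 i3182 i171 k0) (by decide +kernel)
def c485 : PP 8 4 T 0x401400000000000001000000000000000000540000000000000000000000000002000000000004000000 := rS 0x71bbdf2ed (k4 i3182 i3188 i3183 i3177 (k1 c17 k0)) (by decide +kernel)
def c486 : PP 8 4 T 0x8001000000000000000000000000000000000000000080000002000000000004000000 := rS 0x13b (k2 i3167 i1475 k0) (by decide +kernel)
def c487 : PP 8 4 T 0x8001000000000000000000020000000000000000000000000002000000000004000000 := rS 0xed (k2 i3182 i949 k0) (by decide +kernel)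
def c488 : PP 8 4 T 0x1200000000000000000000020000000000000000000000002000000000004000000 := rS 0x149 (k2 i3157 i1467 k0) (by decide +kernel)
def c489 : PP 8 4 T 0x1000000000000000000000000000001000000000000800002000000000004000000 := rS 0x0 (k1 i906 k0) (by decide +kernel)
def c490 : PP 8 4 T 0x800000000000001000000000000000000080000000000000000000000000002000000000004000000 := rS 0xe3 (k2 i3177 i1483 k0) (by decide +kernel)
def c491 : PP 8 4 T 0x800000000000000001000000000000002000000000000000000000000000000002000000000004000000 := rS 0xe9 (k2 i3180 i1754 k0) (by decide +kernel)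
def c492 : PP 8 4 T 0x401000000000000000000000000000000000000000000540002000000000004000000 := rS 0x96bd66301 (k4 i3193 i3161 i3186 i3159 (k1 c18 k0)) (by decide +kernel)
def c493 : PP 8 4 T 0x1000000000000000000000000000000000000200010000002000000000004000000 := rS 0x0 (k1 i1010 k0) (by decide +kernel)
def c494 : PP 8 4 T 0x1000002000000000000000000000000000000000000000002008000000004000000 := rS 0xf9 (k2 i3188 i178 k0) (by decide +kernel)
def c495 : PP 8 4 T 0x1000000000000000000000000000000000000020000000042000000000004000000 := rS 0x0 (k1 i749 k0) (by decide +kernel)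
def c496 : PP 8 4 T 0x1000000000000080000000000800000000000000000000002000000000004000000 := rS 0xe3 (k2 i3177 i164 k0) (by decide +kernel)
def c497 : PP 8 4 T 0x1200000000000000000000000000000000000000000000002000000000004008000 := rS 0xd5 (k2 i3190 i424 k0) (by decide +kernel)
def c498 : PP 8 4 T 0x1000000000000000000000000000800000002000000000002000000000004000000 := rS 0x0 (k1 i2691 k0) (by decide +kernel)
def c499 : PP 8 4 T 0x1000000000000002000000000000000000000800000000002000000000004000000 := rS 0x0 (k1 i2510 k0) (by decide +kernel)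
def c500 : PP 8 4 T 0x10401000000000000000000000000000001000005000000000002000000000004000000 := rS 0x21f337ad05ef3d (k4 i3168 i3187 i3171 i3186 (k2 i3162 i3195 (k1 c21 k0))) (by decide +kernel)
def c501 : PP 8 4 T 0x800000000000000001000000000000008000000000000000000000000000000002000000000004000000 := rS 0xeb (k2 i3181 i1755 k0) (by decide +kernel)
def c502 : PP 8 4 T 0x1000000000000000000000000000000000000800040000002000000000004000000 := rS 0x0 (k1 i752 k0) (by decide +kernel)
def c503 : PP 8 4 T 0x1002000000000000000000080000000000000000000000002000000000004000000 := rS 0xe3 (k2 i3177 i423 k0) (by decide +kernel)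
def c504 : PP 8 4 T 0x8001000000000000000000000000000000800000000000000002000000000004000000 := rS 0xe9 (k2 i3180 i948 k0) (by decide +kernel)
def c505 : PP 8 4 T 0x1000000000000020000000000000000000000000000000002000000000006000000 := rS 0x0 (k1 i2798 k0) (by decide +kernel)
def c506 : PP 8 4 T 0x8001000000000000000000000000000000000000000000000002000020000004000000 := rS 0x107 (k2 i3178 i944 k0) (by decide +kernel)
def c507 : PP 8 4 T 0x1000000000000000000000000000000400000000000020002000000000004000000 := rS 0x0 (k1 i868 k0) (by decide +kernel)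
def c508 : PP 8 4 T 0x1000000000000020000000000000000000000000000000002000080000004000000 := rS 0x0 (k1 i2665 k0) (by decide +kernel)
def c509 : PP 8 4 T 0x1000000000000000000000000000000000000000000000002000000000006000020 := rS 0x4d (k2 c73 i229 k0) (by decide +kernel)
def c510 : PP 8 4 T 0x4001000000001000000000000000000000000000000000000002000015000004000000 := rS 0x243398fbae0edd (k4 i3192 i3178 i3181 i3150 (k2 i3166 i3152 (k1 c27 k0))) (by decide +kernel)
def c511 : PP 8 4 T 0x21000000000000000000000000000000000000008000000002000000000004000000 := rS 0x133 (k2 i3162 i1203 k0) (by decide +kernel)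
def c512 : PP 8 4 T 0x401000001000000000000000000000000000000000000000002000000054004000000 := rS 0x3d65f1d (k4 i3149 i3160 i3186 c28 k0) (by decide +kernel)
def c513 : PP 8 4 T 0x800000000000000001000000000000000000000000000000000000000800000002000000000004000000 := rS 0xe7 (k2 i3179 i1753 k0) (by decide +kernel)
def c514 : PP 8 4 T 0x1000000000000000000008000000000000000000000800002000000000004000000 := rS 0x0 (k1 i2590 k0) (by decide +kernel)
def c515 : PP 8 4 T 0x400000000000000001000001001000000054000000000000000000000000000002000000000004000000 := rS 0x3be4307 (k4 i3178 i3152 i3183 c29 k0) (by decide +kernel)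
def c516 : PP 8 4 T 0x1000000000000020000000000000200000000000000000002000000000004000000 := rS 0x0 (k1 i2768 k0) (by decide +kernel)
def c517 : PP 8 4 T 0x1000000000000000000000000000000080000000000800002000000000004000000 := rS 0x4d (k2 c73 i551 k0) (by decide +kernel)
def c518 : PP 8 4 T 0x2001000000000000000000000000000000020000000000000002000000000004000000 := rS 0x139 (k2 i3166 i1206 k0) (by decide +kernel)
def c519 : PP 8 4 T 0x1000000000000000000000000000000000000000000000002000000200006000000 := rS 0x0 (k1 i2681 k0) (by decide +kernel)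
def c520 : PP 8 4 T 0x10001000001000000000000000000000000000000000000000002000540000004000000 := rS 0xf78fce682dd (k4 i3192 i3171 i3166 i3150 (k2 i3187 c33 k0)) (by decide +kernel)
def c521 : PP 8 4 T 0x800000000000000001000000000000000000200000000000000000000000000002000000000004000000 := rS 0xed (k2 i3182 i1756 k0) (by decide +kernel)
def c522 : PP 8 4 T 0x1000000000000000200000000008000000000000000000002000000000004000000 := rS 0x0 (k1 i2811 k0) (by decide +kernel)
def c523 : PP 8 4 T 0x1000000000000000000000000000000000800000000000802000000000004000000 := rS 0x0 (k1 i2618 k0) (by decide +kernel)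
def c524 : PP 8 4 T 0x1000000000000000000000000000000000008000000200002000000000004000000 := rS 0x4b (k2 c72 i1892 k0) (by decide +kernel)
def c525 : PP 8 4 T 0x1000000000000000000000000000000000000800000020002000000000004000000 := rS 0x4d (k2 c73 i805 k0) (by decide +kernel)
def c526 : PP 8 4 T 0x20001000000000000000000000000000080000000000000000002000000000004000000 := rS 0x14d (k2 i3169 i1745 k0) (by decide +kernel)
def c527 : PP 8 4 T 0x1000000000000000000000000000000000000000000000002000800000004000002 := rS 0x0 (k1 i2794 k0) (by decide +kernel)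
def c528 : PP 8 4 T 0x1000000000000000000000000000000000000040000000802000000000004000000 := rS 0x0 (k1 i828 k0) (by decide +kernel)
def c529 : PP 8 4 T 0x800000000000000001000000000000000000000000008000000000000000000002000000000004000000 := rS 0xf7 (k2 i3187 i1487 k0) (by decide +kernel)
def c530 : PP 8 4 T 0x20001000000000000000000000000000002000000000000000002000000000004000000 := rS 0xf5 (k2 i3186 i955 k0) (by decide +kernel)
def c531 : PP 8 4 T 0x800000000000001000000000000000800000000000000000000000000000002000000000004000000 := rS 0xe7 (k2 i3179 i1212 k0) (by decide +kernel)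
def c532 : PP 8 4 T 0x4001100000000000000100000000000000000000000050000002000000000004000000 := rS 0x40dd6e7 (k4 i3179 i3181 i3194 c38 k0) (by decide +kernel)
def c533 : PP 8 4 T 0x1000000000000020000000000000000000000000000200002000000000004000000 := rS 0x4b (k2 c72 i511 k0) (by decide +kernel)
def c534 : PP 8 4 T 0x21000000000000000000000000000000000000080000000002000000000004000000 := rS 0xdf (k2 i3175 i680 k0) (by decide +kernel)
def c535 : PP 8 4 T 0x1000000000000000000000000000000000008000000000002080000000004000000 := rS 0x0 (k1 i2453 k0) (by decide +kernel)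
def c536 : PP 8 4 T 0x1000000000000000000000000000000000000000000000002010000000004000002 := rS 0x0 (k1 i959 k0) (by decide +kernel)
def c537 : PP 8 4 T 0x1200000000000000000000000000000000000000800000002000000000004000000 := rS 0xef (k2 i3183 i431 k0) (by decide +kernel)
def c538 : PP 8 4 T 0x1200000000000000000000000000000000000000000020002000000000004000000 := rS 0x101 (k2 i3193 i426 k0) (by decide +kernel)
def c539 : PP 8 4 T 0x1000000000000080002000000000000000000000000000002000000000004000000 := rS 0x121 (k2 i3152 i1194 k0) (by decide +kernel)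
def c540 : PP 8 4 T 0x1000001000000000000000000000000000000000000000002000000000004150000 := rS 0x12d (k2 i3159 c43 k0) (by decide +kernel)
def c541 : PP 8 4 T 0x21000000000000000000008000000000000000000000000002000000000004000000 := rS 0xe3 (k2 i3177 i682 k0) (by decide +kernel)
def c542 : PP 8 4 T 0x1000000000000000000000002000800000000000000000002000000000004000000 := rS 0x0 (k1 i2804 k0) (by decide +kernel)
def c543 : PP 8 4 T 0x800000000000001000000000000000000020000000000000000000000000002000000000004000000 := rS 0xeb (k2 i3181 i1214 k0) (by decide +kernel)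
def c544 : PP 8 4 T 0x1000000000000000000000000000000000000200000000002000020000004000000 := rS 0x0 (k1 i2687 k0) (by decide +kernel)
def c545 : PP 8 4 T 0x201000000000000000000000000000000000000000000000002000000002004000000 := rS 0x107 (k2 i3178 i684 k0) (by decide +kernel)
def c546 : PP 8 4 T 0x400000000000001101000000000000400000014000000000000000000000002000000000004000000 := rS 0x525dae7 (k4 i3179 i3182 i3157 c45 k0) (by decide +kernel)
def c547 : PP 8 4 T 0x1000002000000000020000000000000000000000000000002000000000004000000 := rS 0x121 (k2 i3152 i1731 k0) (by decide +kernel)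
def c548 : PP 8 4 T 0x1001000000000000040000000000000000010000000000000002000000500004000000 := rS 0xdfa6b76731f (k4 i3150 i3166 i3192 i3169 (k2 i3175 c47 k0)) (by decide +kernel)
def c549 : PP 8 4 T 0x1000000000000020000000000000000000000000000040002000000000004000000 := rS 0x0 (k1 i1163 k0) (by decide +kernel)
def c550 : PP 8 4 T 0x400000000000000001100000000000000000000000000000000000001500000002000000000004000000 := rS 0x3bdcf2d (k4 i3159 i3179 i3183 c48 k0) (by decide +kernel)
def c551 : PP 8 4 T 0x1000000000000000000000000000000000008000000040002000000000004000000 := rS 0x0 (k1 i753 k0) (by decide +kernel)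
def c552 : PP 8 4 T 0x8001000000000000000000000000002000000000000000000002000000000004000000 := rS 0x141 (k2 i3171 i1478 k0) (by decide +kernel)
def c553 : PP 8 4 T 0x1200000000000000200000000000000000000000000000002000000000004000000 := rS 0x103 (k2 i3194 i428 k0) (by decide +kernel)
def c554 : PP 8 4 T 0x1000000000000080000000000000000000000000000000002000000800004000000 := rS 0xdd (k2 i3192 i161 k0) (by decide +kernel)
def c555 : PP 8 4 T 0x201000000000000002000000000000000000000000000000002000000000004000000 := rS 0xef (k2 i3183 i690 k0) (by decide +kernel)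
def c556 : PP 8 4 T 0x1000000000000080000000000000000000000000000000002000000200004000000 := rS 0x11f (k2 i3150 i1193 k0) (by decide +kernel)
def c557 : PP 8 4 T 0x1000000000000000000000000000000000000800000008002000000000004000000 := rS 0x4b (k2 c72 i1628 k0) (by decide +kernel)
def c558 : PP 8 4 T 0x1000000000000000000008000000000000000020000000002000000000004000000 := rS 0x0 (k1 i2507 k0) (by decide +kernel)
def c559 : PP 8 4 T 0x20001000000000000000000000000000000000000000000000002000200000004000000 := rS 0x139 (k2 i3166 i1742 k0) (by decide +kernel)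
def c560 : PP 8 4 T 0x801000000000000000000000000000000000000000000000002000000020004000000 := rS 0x12f (k2 i3160 i1737 k0) (by decide +kernel)
def c561 : PP 8 4 T 0x400000000000001000000001000040001000000140000000000000000000002000000000004000000 := rS 0x41ddb21 (k4 i3152 i3182 i3178 c52 k0) (by decide +kernel)
def c562 : PP 8 4 T 0x1000000000000000000002000000000000000000000000802000000000004000000 := rS 0x0 (k1 i2599 k0) (by decide +kernel)
def c563 : PP 8 4 T 0x1000000000000000000000000000000000000000000000002080000000004000004 := rS 0x0 (k1 i700 k0) (by decide +kernel)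
def c564 : PP 8 4 T 0x1000000000000000200000000000000000000000000001002000000000004000000 := rS 0x0 (k1 i1125 k0) (by decide +kernel)
def c565 : PP 8 4 T 0x1000000000000000000000000000020000000008000000002000000000004000000 := rS 0x0 (k1 i2685 k0) (by decide +kernel)
def c566 : PP 8 4 T 0x400000000000014001000000000000004000000000005000000000000000000002000000000004000000 := rS 0x3bdd741 (k4 i3171 i3181 i3183 c55 k0) (by decide +kernel)
def c567 : PP 8 4 T 0x1000000000000000000002000000000000000800000000002000000000004000000 := rS 0x0 (k1 i2509 k0) (by decide +kernel)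
def c568 : PP 8 4 T 0x1000000000000000000000000000000000000000010020002000000000004000000 := rS 0x0 (k1 i869 k0) (by decide +kernel)
def c569 : PP 8 4 T 0x1000000000000000000000000000000000000000000000002200000000004000002 := rS 0x4b (k2 c72 i477 k0) (by decide +kernel)
def c570 : PP 8 4 T 0x1000000000000000000000000000000040008000000000002000000000004000000 := rS 0x0 (k1 i754 k0) (by decide +kernel)
def c571 : PP 8 4 T 0x2001000000000000000000000000000080000000000000000002000000000004000000 := rS 0x141 (k2 i3171 i1210 k0) (by decide +kernel)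
def c572 : PP 8 4 T 0x1000000000000000000000000000000000000800000000802000000000004000000 := rS 0x0 (k1 i2578 k0) (by decide +kernel)
def c573 : PP 8 4 T 0x1001001000000000000000000001000000000000000005000002000000000004000000 := rS 0x29303 (k2 i3194 i3157 (k1 c58 k0)) (by decide +kernel)
def c574 : PP 8 4 T 0x1000000000000000000000000000000000000200000000002000000000004000002 := rS 0x0 (k1 i2629 k0) (by decide +kernel)
def c575 : PP 8 4 T 0x1000000000000000000000000000000000000000000000002000000800004000002 := rS 0x0 (k1 i2752 k0) (by decide +kernel)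
def c576 : PP 8 4 T 0x1000000000000000000000000000000000080000000020002000000000004000000 := rS 0x0 (k1 i2584 k0) (by decide +kernel)
def c577 : PP 8 4 T 0x1000000000000000000000002000000000000040000000002000000000004000000 := rS 0x0 (k1 i1086 k0) (by decide +kernel)
def c578 : PP 8 4 T 0x1000000000000000000000000000000000080020000000002000000000004000000 := rS 0x0 (k1 i2506 k0) (by decide +kernel)
def c579 : PP 8 4 T 0x801000000000000000000000000000000000800000000000002000000000004000000 := rS 0xf9 (k2 i3188 i697 k0) (by decide +kernel)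
def c580 : PP 8 4 T 0x800000000000001000000000000000000002000000000000000000000000002000000000004000000 := rS 0xe9 (k2 i3180 i1213 k0) (by decide +kernel)
def c581 : PP 8 4 T 0x1000000000000000000020000000000000000200000000002000000000004000000 := rS 0x0 (k1 i2688 k0) (by decide +kernel)
def c582 : PP 8 4 T 0x1000000000000000000000000000000000000020000000002080000000004000000 := rS 0x0 (k1 i2451 k0) (by decide +kernel)
def c583 : PP 8 4 T 0x1000000000000000000000002000000000000000000000042000000000004000000 := rS 0x0 (k1 i1087 k0) (by decide +kernel)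
def c584 : PP 8 4 T 0x1000000000000000000000000000000008000000000020002000000000004000000 := rS 0x0 (k1 i2624 k0) (by decide +kernel)
def c585 : PP 8 4 T 0x1000000000000000000000000000000000000008008000002000000000004000000 := rS 0x4d (k2 c73 i1320 k0) (by decide +kernel)
def c586 : PP 8 4 T 0x1000000000000000000000000000000000002000000100002000000000004000000 := rS 0x0 (k1 i1013 k0) (by decide +kernel)
def c587 : PP 8 4 T 0x1000000000000000000000000000000000000000000000002020000000006000000 := rS 0x4b (k2 c72 i181 k0) (by decide +kernel)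
def c588 : PP 8 4 T 0x1000000000000000000000000000000000000800000800002000000000004000000 := rS 0x0 (k1 i2613 k0) (by decide +kernel)
def c589 : PP 8 4 T 0x1000000000000000000000000000000000000200000002002000000000004000000 := rS 0x4b (k2 c72 i1540 k0) (by decide +kernel)
def c590 : PP 8 4 T 0x1000000000000000000000000000000000000000000000002080000002004000000 := rS 0x0 (k1 i2594 k0) (by decide +kernel)
def c591 : PP 8 4 T 0x1000000000000000000000000000000000000800020000002000000000004000000 := rS 0x4d (k2 c73 i1548 k0) (by decide +kernel)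
def c592 : PP 8 4 T 0x1000000000000000200000000000020000000000000000002000000000004000000 := rS 0x0 (k1 i2761 k0) (by decide +kernel)
def c593 : PP 8 4 T 0x1000000000000000000000000000000000000000001000802000000000004000000 := rS 0x0 (k1 i829 k0) (by decide +kernel)
def c594 : PP 8 4 T 0x1000002000000000000000000000000000000000000000002000080000004000000 := rS 0x11f (k2 i3150 i1729 k0) (by decide +kernel)
def c595 : PP 8 4 T 0x4101000000000000000000000000000000400000500000000002000000000004000000 := rS 0xe9 (k2 i3180 c68 k0) (by decide +kernel)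
def c596 : PP 8 4 T 0x1000000000000000000000000000000000000000008000802000000000004000000 := rS 0x4d (k2 c73 i535 k0) (by decide +kernel)
def c597 : PP 8 4 T 0x1000000000000000000000000000200000000008000000002000000000004000000 := rS 0x0 (k1 i2686 k0) (by decide +kernel)
def c598 : PP 8 4 T 0x1000000000000000000000000000000200008000000000002000000000004000000 := rS 0x4d (k2 c73 i1816 k0) (by decide +kernel)
def c599 : PP 8 4 T 0x1000000000000028000000000000000000000000000000002000000000004000000 := rS 0x0 (k1 i2789 k0) (by decide +kernel)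
def c600 : PP 8 4 T 0x11000000000000040000000000010000000000000000000002000000000054000000 := rS 0x12f (k2 i3160 c70 k0) (by decide +kernel)
def c601 : PP 8 4 T 0x1000000000000000000000000000000000000000000000002000020000004000002 := rS 0x0 (k1 i2774 k0) (by decide +kernel)
def c602 : PP 8 4 T 0x400000000000111000000000000000000001000000000000050000000000002000000000004000000 := rS 0xe9 (k2 i3180 c79 k0) (by decide +kernel)
def c603 : PP 8 4 T 0x11000000000000000000000000000000000000000000000002200000200014000440 := rS 0x371843cfc50b4c1201 (k8 c569 i1264 c556 i308 c369 c600 c384 i1303 (k1 c451 k0)) (by decide +kernel)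
def c604 : PP 8 4 T 0x1000000000000000000000000000000000000000000000602200000200004800040 := rS 0xc31539281fa0a0e98d530d (k8 c377 c466 i1237 i1229 c603 c22 i494 i821 (k2 c36 i1017 (k1 c573 k0))) (by decide +kernel)
def c605 : PP 8 4 T 0x1000000000000000000000000000000000000000000000602200000200004800004 := rS 0x8a9ccde620e1840d0d020045e71 (k8 c31 i15 c569 c410 c377 c604 i1224 i480 (k4 i519 c451 i718 c80 (k1 c379 k0))) (by decide +kernel)
def c606 : PP 8 4 T 0x1000000000000000000000000000000000000000000400002200000000004a00000 := rS 0x2d4cfc1e93e8b0d5b26506af1fa6d02268c1ccc61f89a840e6f28a5da671161ec722b1db452204019e5e2531490c8201 (k8 c569 i42 i635 i253 c87 c9 i973 i999 (k8 c410 c164 c479 i1155 i898 i293 i714 c363 (k8 c31 c556 i1244 c605 c372 i479 i309 c367 (k8 i1303 i1237 i977 c500 c512 i1770 c394 i1423 (k8 i588 i736 c365 i2045 c541 c62 i762 i1784 (k4 c427 c449 c22 i330 k0)))))) (by decide +kernel)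
def c607 : PP 8 4 T 0x1000001000000000004008014000000801000040000000002040000400016000140 := rS 0x14e6631d68a465c117ac56083c1aa323b94fe221a3241602 (k8 c446 i302 c407 i1130 i1131 i846 c453 i207 (k8 i326 i1570 i2122 i1574 i1575 i1989 c77 c434 (k4 i2027 i249 i415 i886 (k2 c515 c491 k0)))) (by decide +kernel)
def c608 : PP 8 4 T 0x1000000000000001000001000000000004100000205101405005500000000002000000001004000000 := rS 0x62d3d98cf63afe86e5 (k8 c484 c84 i1452 i415 c255 i2046 c491 i1792 (k1 c515 k0)) (by decide +kernel)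
def c609 : PP 8 4 T 0x1000001000000040405008014045115405055554000000002400000001084004540 := rS 0xa1b95700c5aa957b45 (k8 c62 i1989 c608 i1395 i2027 i2044 c4 c543 (k1 c561 k0)) (by decide +kernel)
def c610 : PP 8 4 T 0x1000000000000000000008000005101405085500000000002008000001004000000 := rS 0x3359ebd5fd0d6b45 (k8 c62 i102 c16 i1723 c261 c255 i849 i2046 k0) (by decide +kernel)
def c611 : PP 8 4 T 0x11200001000000050004008015010001445005040005000102008000001014000540 := rS 0xa33fb04fa9f3aa74ee65349548e0f65a5532938a1c4de1e (k8 c600 c372 c474 c379 c12 c411 c386 c434 (k8 c497 c425 c49 c63 c75 c445 c335 c493 (k4 c187 c267 c340 c610 (k2 c316 c609 k0)))) (by decide +kernel)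
def c612 : PP 8 4 T 0x1000000000000010000000000000001404004000000000002200801001004202000 := rS 0x3b9d53a9f66b3cac65363118e1142c4a3279 (k8 c370 c403 c500 c376 i7 i1688 i642 i641 (k8 i1491 i481 i1146 i1792 i1525 i1643 c493 c557 (k1 i2046 k0))) (by decide +kernel)
def c613 : PP 8 4 T 0x1000000000000001100000000000000100000014040401444004000004000102408800001084205540 := rS 0x4e9dd3e755eb3ccebf2bd0d4a3560b29c86b42c4a3279 (k8 c370 c403 c500 c376 i627 c77 c338 c0 (k8 c453 c484 c531 i505 i1454 i545 i1145 i1411 (k4 c429 c258 c502 c343 (k1 c132 k0)))) (by decide +kernel)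
def c614 : PP 8 4 T 0x1100000000000000104000000000001644000000000000002000800001004008018 := rS 0x33d3e9d3b9d4dac71a19cae8589464f27b (k8 c598 c370 c403 c500 c376 i502 i541 i340 (k8 i2239 i668 c429 c502 c343 i1184 i1146 c113 k0)) (by decide +kernel)
def c615 : PP 8 4 T 0x1000000000000011100000000000000100000014410401444004000004000102408804001094205540 := rS 0x9d3a9dd3ebd67b18fc225fd0d4a3560a89c88589464f26f (k8 c372 c370 c403 c500 c376 c77 c613 c0 (k8 c453 c484 c387 i1720 i240 c316 i406 i1145 (k4 i1411 c258 i1625 i1668 (k2 i1640 c132 k0)))) (by decide +kernel)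
def c616 : PP 8 4 T 0x11000000000000050100000015000001404000040005000102200000000004201158 := rS 0x9f4eb3cea773699c6a57111181f050f0f826f1208cd86254282c5f451ea843ab64da2d028389464f23a3da66287137a5d18a7 (k8 i2197 i380 i1818 c372 c474 c379 c411 c598 (k8 i379 c370 c403 c500 c579 c46 i549 c364 (k8 i2045 i722 i2185 i1784 c62 c480 i302 c376 (k8 i2207 i2220 i2094 i42 c9 i28 c449 c600 (k8 c611 c614 c615 i224 i1578 i2099 i1617 i1696 (k4 i1625 c429 i1145 c343 (k2 c275 c113 k0))))))) (by decide +kernel)
def c617 : PP 8 4 T 0x1000000000000010100000000000001644000000000000002a00804000004040000 := rS 0x9f4eb3cea773699c6a5711414828589464f27b (k8 c598 c370 c403 c500 c376 i42 c425 i224 (k8 i1578 i2099 i1617 i1696 i1625 c429 i1145 c343 (k2 c275 c113 k0))) (by decide +kernel)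
def c618 : PP 8 4 T 0x11100000000000000100000014045001404000410000000102400000001004201558 := rS 0x19a352bb91946b07b0d168589464f23a3da30de59 (k8 c507 c372 i380 c598 i379 c370 c403 c500 (k8 c376 i549 i2220 c614 i627 c338 c77 i505 (k2 c453 c346 (k1 c348 k0)))) (by decide +kernel)
def c619 : PP 8 4 T 0x11000000000000000101008014045101404000510000000102401000001004201558 := rS 0x3f631f98b4f5e395480f65c11e2c342c4a32791d1ed1945 (k8 c62 i380 c598 i379 c370 c403 c500 c376 (k8 i2220 c9 c618 c434 c497 i2027 c484 c608 (k4 c521 i1795 i1989 c515 (k2 c610 i414 k0)))) (by decide +kernel)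
def c620 : PP 8 4 T 0x2001000000000000010005000000048400050000000000000002400005100004001008 := rS 0x1c9055203cc8b91aa55262f (k8 c480 c12 c386 i1184 i1189 c187 i340 i2033 (k2 c75 c77 (k1 c484 k0))) (by decide +kernel)
def c621 : PP 8 4 T 0x1000000000000010000000014042000240000000004000002400000000004001548 := rS 0x1970507998d065 (k4 i1552 c335 i1820 i341 (k2 c63 i545 (k1 c338 k0))) (by decide +kernel)
def c622 : PP 8 4 T 0x1000000000000000000000014040000000000800004000002400000000004001548 := rS 0x1960f82998ca54 (k4 c445 c591 c502 c49 (k2 i341 i545 (k1 c338 k0))) (by decide +kernel)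
def c623 : PP 8 4 T 0x11002000000000000000000000000001004000040004000102240000000006200040 := rS 0x329d208774ea7c8ea360b481a8f0e8f56c9b04aad5a6109bc55231688b5928919a8586a712a2c0a8142a0e25193c8e8f69746264162f8a1c4de02 (k8 c446 c372 c474 c379 c480 i302 c411 i380 (k8 i1818 c598 i379 c370 c403 c500 c579 c376 (k8 c46 c509 i549 i2207 i2197 i2220 i2185 i2094 (k8 i2093 c407 c519 c505 c481 c437 c9 i28 (k8 c384 c34 c37 c56 c364 i2045 i1784 i722 (k8 c607 c612 c616 c539 c69 c617 c620 c621 (k4 c622 c618 c619 c75 (k1 c493 k0)))))))) (by decide +kernel)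
def c624 : PP 8 4 T 0x11000000000000000000000000000001004000040004000102240000000006200040 := rS 0x9a59adc9cfd57a6628973894d028389464f23a3da30046f (k8 c372 c446 i380 c598 i379 c370 c403 c500 (k8 c579 c46 c87 c474 i1818 c379 c411 i1924 (k4 c623 c427 i762 i1429 (k2 i2045 i1034 k0)))) (by decide +kernel)
def c625 : PP 8 4 T 0x1200000000000000005000014045001604000400000000002404800001044001540 := rS 0x220cc67b1ceaa43283d968589464f27b (k8 c598 c370 c403 c500 c376 c434 c497 c75 (k4 i2027 c493 i414 i1146 (k2 i2046 c183 (k1 c555 k0)))) (by decide +kernel)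
def c626 : PP 8 4 T 0x1000000000000000104000014005001644000400000000082404800001044001558 := rS 0x671d46a6d2a391940f82a15668389464f27b60a8da4fd (k8 c19 c369 c69 c539 c598 c370 c403 c500 (k8 c579 i1429 c376 c625 c614 c338 c77 i1390 (k4 i673 c453 c589 c113 (k1 i1145 k0)))) (by decide +kernel)
def c627 : PP 8 4 T 0x1000000000000010004000414048000040000000000000002400000000004001548 := rS 0x19705079b0c835 (k4 i1184 c187 c275 i340 (k2 c75 i673 (k1 c338 k0))) (by decide +kernel)
def c628 : PP 8 4 T 0x1000000000000000104444014004041644050400000000082404800001044001558 := rS 0x169105e9d59b174e2050a8389464f27b (k8 c598 c370 c403 c500 c579 c376 c46 c626 (k4 c552 i1909 i1592 i1911 (k2 c595 i2047 (k1 c463 k0)))) (by decide +kernel)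
def c629 : PP 8 4 T 0x1000000000000010104444014000041644050000000000082404800001044001558 := rS 0xf65c14cab52a1d93eb341c4a32793da8da4fd (k8 c19 c369 c69 c598 c370 c403 c500 c579 (k8 i1429 c627 c628 c445 c567 c591 c49 i1389 (k2 i341 c338 k0))) (by decide +kernel)
def c630 : PP 8 4 T 0x1001000000000000010100000121000001404010000001000002000000001004200018 := rS 0xcf1aa7cea9d3b83cc86d2b99e0ac345a1625193c8e8f68c (k8 i380 c598 i379 c370 c403 c500 c376 i549 (k8 i2220 c488 i1622 i1581 i1702 c226 c614 c502 (k4 c343 c429 c275 i1023 (k2 c151 c113 k0)))) (by decide +kernel)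
def c631 : PP 8 4 T 0x1000000000000010100004001000041404040000008000082200001000044200058 := rS 0xcca745d9e9d4f9d4ee664a1a4ca55552b48e0d098cd862542c48f27b46184fab11fafd77448aa645ed27e825120b4da2e323a (k8 i379 c403 i549 i1446 i533 i2093 i1348 c19 (k8 c369 c554 i1106 c80 c85 c51 c44 c10 (k8 i1354 i2869 i74 i380 c598 c370 c500 c376 (k8 i2207 i2220 i2094 i28 c612 c617 c630 c629 (k8 i1657 i1660 i1662 i538 i537 c445 c493 c187 (k4 c335 i1104 c486 c566 (k2 i2046 c491 k0))))))) (by decide +kernel)
def c632 : PP 8 4 T 0x1000000000000000000000000000000800000020000000002040000000046000540 := rS 0x5641196ab5283c1a4772a4844345480992c151b49fa4e (k8 c495 c19 c369 c69 c539 c407 c446 c437 (k8 i1130 i1131 i877 c453 i207 i1570 i2122 i248 (k4 i1636 i1367 c77 i2027 (k1 c488 k0)))) (by decide +kernel)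
def c633 : PP 8 4 T 0x1001000000000000010104400021000001644010000001000002000800001004000018 := rS 0x356727cea9d3b83cc86d2b99e0a8589464f27b (k8 c598 c370 c403 c500 c376 c488 i1622 i1581 (k8 i1701 c226 c614 c502 c343 c429 c275 c113 (k2 i1023 i1145 k0))) (by decide +kernel)
def c634 : PP 8 4 T 0x1100000000000000104000214004001644000000000000082400800001004001558 := rS 0x9d3bb34eacf5e2d0a835653901e8589464f27b51b49fa6b (k8 i1967 c19 c369 c69 c598 c370 c403 c500 (k8 c376 c614 c77 c338 c453 i1390 i1389 i1393 (k4 i1145 c589 i770 c567 (k2 i3067 i2046 k0)))) (by decide +kernel)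
def c635 : PP 8 4 T 0x1000000000000010104000214000001644000000000000082404800001044001558 := rS 0x274ee692ac113eb341c4a32793da8da4fd (k8 c19 c369 c69 c598 c370 c403 c500 c579 (k8 i1429 c627 c634 c49 c63 c445 c335 c626 k0)) (by decide +kernel)
def c636 : PP 8 4 T 0x11000000000000000000000000000001004000040000000102240000000006200040 := rS 0x19a9d881a62e9f3ab3cee664a1952655552b57e3f582588e0d479f43e7f5b938e00905c54c26209aa462d164a2466c312a2c0a8589464f23a3da30046f (k8 c372 c446 i380 c598 i379 c370 c403 c500 (k8 c376 c509 i549 i2207 i2220 i2094 i2093 c407 (k8 c505 c481 c437 i28 c624 i74 c80 i533 (k8 i1348 c379 c495 c558 c578 i1356 i2869 c632 (k8 c612 c617 c631 i1817 i1371 i2871 c633 c635 (k8 i1657 i1636 i1660 i538 i537 c445 i1983 c493 (k4 c187 c486 i3002 c595 (k2 c335 c555 (k1 i2046 k0))))))))) (by decide +kernel)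
def c637 : PP 8 4 T 0x1001000000000000004001015014005001445005500000000142400000801084201540 := rS 0x29546353fc581ecb664460853 (k8 c87 c132 c188 i2046 c434 c497 c595 i848 (k4 c506 i241 i365 i2027 k0)) (by decide +kernel)
def c638 : PP 8 4 T 0x1000000000000008001010014000000000000000000000002400800800004001548 := rS 0x654114a0f51b958c34 (k8 i1145 i1146 c453 i327 i2239 i2244 c77 i2027 (k1 c434 k0)) (by decide +kernel)
def c639 : PP 8 4 T 0x111000000000000000400001014000000000050000000000002400000000084005540 := rS 0x5250946c1 (k4 i1305 i241 c602 i2027 (k1 c84 k0)) (by decide +kernel)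
def c640 : PP 8 4 T 0x11000000000000000000010000004001444010480000000142400000801084201148 := rS 0x7cbc52d14fc358b03d96b66644608cf4e99ceac178a9d0b15059847a8189464f23a3da31a6ad55bf0a6b5 (k8 i884 c87 c427 c37 c34 c448 i380 c598 (k8 i379 c370 c403 c500 c46 i1307 i1017 i303 (k8 c36 c376 i2197 c9 i1305 i1096 c133 i1820 (k8 c638 c132 c188 i2046 c637 c434 c497 c595 (k4 c506 c639 c62 i365 (k2 i849 c449 (k1 i1411 k0))))))) (by decide +kernel)
def c641 : PP 8 4 T 0x11000000000000014400000014154001445005400000001002400000000014205540 := rS 0x19a573aa74406534b020859 (k8 c507 c338 i2027 c63 c75 c311 c335 c493 (k2 i1497 c305 (k1 i2046 k0))) (by decide +kernel)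
def c642 : PP 8 4 T 0x1000000000000000104000000000001644000000000000002000800001004008018 := rS 0x105 (k2 c497 c614 k0) (by decide +kernel)
def c643 : PP 8 4 T 0x11000000000000010000010000014001444000480000000142400000801094205148 := rS 0x31d9cc051a9596553e21416611ea0625193c8e8f68c56aadf853 (k8 c87 c427 c37 c34 i380 c598 i379 c370 (k8 c403 c500 c46 i1307 i1017 i303 c376 c640 (k8 i1542 i1327 i1326 i1594 i2027 c641 i1694 i1146 k0))) (by decide +kernel)
def c644 : PP 8 4 T 0x11011000000000000010004000014018440044000000400010102400000801094005548 := rS 0x4c2fe8aca5928c471060b90ab05529b0c835 (k8 i1184 c187 c275 i365 c75 i1697 c77 c0 (k8 c92 c454 c308 c627 i2027 c76 i1454 c85 (k1 i1113 k0))) (by decide +kernel)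
def c645 : PP 8 4 T 0x11000000000000010100010000000001404000080000000142200001800094200058 := rS 0x28d9705119962e543b27cd60f23834b21319a85862545c64747b8aa6c166104ab5569758bf0a68c (k8 i380 c87 c427 c373 i1817 c37 c34 i223 (k8 i1017 i303 i1179 c36 c598 i379 c403 i549 (k8 i2207 i2220 i2185 i2094 i28 c507 c612 c617 (k8 c642 i627 c644 c643 c445 c482 c591 i1625 (k4 c49 c173 c308 c338 k0))))) (by decide +kernel)
def c646 : PP 8 4 T 0x11000000000000000000000000000001004000000000000102240000000004600040 := rS 0x654114ac107835464772888688e55ab412fc058b9721e279843a7229aa40431688159218 (k8 c461 c407 c509 c505 c481 c446 c437 c87 (k8 c636 i717 i1017 i758 i1092 i2782 i1091 i303 (k8 c427 i223 c34 c37 c645 i1130 i1131 c453 (k8 i207 i327 i1570 i2122 i1574 i2127 c77 i2027 (k1 c434 k0))))) (by decide +kernel)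
def c647 : PP 8 4 T 0x1000000000000000000004000081001200000054000000002000820000004000000 := rS 0x4ba6536b81f8b9028389464f27b (k8 c598 c370 c403 c500 c579 c46 i326 i2237 (k4 i327 i2707 i1107 i1410 (k1 i2045 k0))) (by decide +kernel)
def c648 : PP 8 4 T 0x1000000000000000001004000000001800000044000000002040000000046200540 := rS 0x538d8cf592692e9931afdfaaa519c55ea940a0e25193c8e8f68c8ba553ea565ab53a69823941e02068888e3464a2c0ad1 (k8 c505 c509 i549 c407 i1130 i207 i1131 i1570 (k8 c446 i2122 c453 c77 c63 c335 c488 c434 (k8 i248 i2812 i2762 c504 i380 c598 i379 c370 (k8 c403 c500 c579 c46 c437 i587 c632 c647 (k8 i2027 c37 i1722 i538 c283 i1818 i2045 i1034 (k4 i1152 i665 c566 c59 k0)))))) (by decide +kernel)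
def c649 : PP 8 4 T 0x1000000000000000000004000000001240000044000000002000800000004000808 := rS 0x4ca5ce29b300b9028389464f27b (k8 c598 c370 c403 c500 c579 c46 i302 i303 (k4 i2707 c469 i1284 i2698 (k1 i2045 k0))) (by decide +kernel)
def c650 : PP 8 4 T 0x1000000000000000000004000000001800010044000000002040000001044600140 := rS 0x180218882d1605460e80418 (k8 c461 c446 i379 i380 c509 i549 c649 c416 (k2 i725 c648 (k1 c224 k0))) (by decide +kernel)
def c651 : PP 8 4 T 0x1000000000000000002000000000000400050040000000502400001101004005540 := rS 0x22f1149158e2753b93ccaad2abf208b565ae52aab69b94de59 (k8 c507 c372 c0 c539 i1513 i1517 i1249 i1245 (k8 i1248 c77 c369 c49 c488 c75 c19 c445 (k4 c493 c495 i2037 i2044 (k2 c64 c436 (k1 c595 k0))))) (by decide +kernel)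
def c652 : PP 8 4 T 0x5001000000000000000401010014000010000000000000000002400004800004005540 := rS 0x49d0d44a5 (k4 i366 i2027 c387 i1633 (k1 c472 k0)) (by decide +kernel)
def c653 : PP 8 4 T 0x14101000000000000004401010014400240400000010000000002408004800004005540 := rS 0xa7a7d8cbf512946a743ba752915 (k8 c411 c652 i1678 i1676 c595 c544 i365 i2027 (k4 i1720 i406 i1113 c71 (k1 c566 k0))) (by decide +kernel)
def c654 : PP 8 4 T 0x101002000000000010401004014400001640000050400000502400804000004005148 := rS 0x64821d0d34f36a7d8cba5fa894a353bc599e2e1f2e530974dac49e6140a0e25193c9ec166f (k8 c372 c649 c598 c370 c403 c500 c579 c46 (k8 c384 c19 c373 c364 i1817 i2045 i2784 i1107 (k8 i1106 c638 c653 c482 c506 i365 i2027 i1720 (k8 i407 i406 i1113 i1681 c71 i1561 c232 c550 (k2 c493 c75 k0))))) (by decide +kernel)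
def c655 : PP 8 4 T 0x101000000000000010401004014000001444000050000000102400004001044205148 := rS 0xcd2b9d4ee2032955490451b49fa5353a1625193c9ec166f460e8b26b (k8 i627 c507 i379 i380 c372 c649 c598 c370 (k8 c403 c500 c376 i2197 c87 c654 c369 c69 (k8 c338 i2027 c49 c75 c198 c445 c493 i1497 (k2 c305 c347 k0)))) (by decide +kernel)
def c656 : PP 8 4 T 0x101000000000000000901000000010001455055000000000102400000101044205000 := rS 0x8a8bcc4b869998cab58b9d86a23669d5c8542bc14b26b (k8 i627 c507 c434 i505 c197 c77 c429 c346 (k8 i1537 c453 c347 c482 c567 c591 c502 c246 (k4 c173 i545 i1137 c80 (k1 c548 k0)))) (by decide +kernel)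
def c657 : PP 8 4 T 0x101000000000000000000004008000101645501554000000002000000001004200000 := rS 0x974d98d66675dc59987b (k8 c598 c347 c595 i1948 c486 i666 i537 i1034 (k2 i1818 i2045 k0)) (by decide +kernel)
def c658 : PP 8 4 T 0x101000000000000000000004008000001644040054000000002000800001004200540 := rS 0x4da5d28633219ce899179dda4557ea050a8389464f27b (k8 c598 c370 c403 c500 c579 c376 c46 c37 (k8 i1657 c369 c445 c554 i1106 c657 c460 c493 (k4 i537 i1659 i1818 i2708 (k1 i2045 k0)))) (by decide +kernel)
def c659 : PP 8 4 T 0x101000000000000000001000020010000000050000000010002400000001044005540 := rS 0x2a089a4e42bad5fb05 (k8 c488 c34 i1288 i1581 c77 c369 c246 c83 (k1 i1537 k0)) (by decide +kernel)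
def c660 : PP 8 4 T 0x101000000000000010501004015000001404040040000000102200001000044200058 := rS 0x3f58258c44e38224120b37834f6471984c1e8b12a31863a (k8 i379 i2220 i380 i2207 i549 c642 i28 i2094 (k8 c617 c598 c612 c372 c649 i222 i2093 c655 (k4 c495 c474 c631 i1817 (k2 i1371 c635 k0)))) (by decide +kernel)
def c661 : PP 8 4 T 0x101000000000000010100004001000001404050040000000102200001100044200058 := rS 0x45cea6632988c2773815554ad65a25428589464f2596083d86471984c1a7b059bd168c1d0244a53 (k8 c87 i2207 i222 i379 i380 i549 c372 c649 (k8 c598 c612 i28 i2094 c617 i2220 c642 c651 (k8 c507 c370 c403 c500 c376 i2185 i2093 c656 (k8 c659 c660 i1657 c658 c445 c469 c474 i1660 (k4 i537 c493 c486 c595 k0))))) (by decide +kernel)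
def c662 : PP 8 4 T 0x1000000000000011001005049010001444054144000000002400800001444005540 := rS 0xe0634ba5536ce4fa74ca6982265ca2f3bb497e932abf5028541c4a3279 (k8 c370 c403 c500 c579 c376 c46 c37 i1657 (k8 i1636 i1722 c369 c445 c554 c246 i1106 c77 (k8 c63 c75 c335 c187 i2046 i1152 i1104 i1983 (k2 i538 i2045 (k1 c474 k0))))) (by decide +kernel)
def c663 : PP 8 4 T 0x1000000000000010100004015000001404040020000000002200001000044200458 := rS 0x3f58258c44e44b0c120d3d8948e8b460e86613 (k8 i28 i2094 i379 i380 i549 c617 i2207 c598 (k8 c612 i222 i2220 i2093 c495 c474 c631 i1817 (k2 i1371 c635 k0))) (by decide +kernel)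
def c664 : PP 8 4 T 0x1200000000000000000001014000000000050000000014542000000000004000000 := rS 0xaacb (k2 c434 c49 (k1 i2037 k0)) (by decide +kernel)
def c665 : PP 8 4 T 0x1000000000000000001005014010001240050050408014502400800001444005540 := rS 0xd34f36b1974a20e8f9309758bf1a62152b920a4f4da0507128c9e4f66f (k8 c372 c598 c370 c403 c500 c579 c46 i1446 (k8 i1350 c664 c77 c484 c470 c246 c369 c373 (k8 i1817 i2045 i1107 i1421 i2030 i407 i406 i1681 (k2 c71 i1561 (k1 c550 k0))))) (by decide +kernel)
def c666 : PP 8 4 T 0x1100000000000010001005004010041040054054400000002400800001444005540 := rS 0x69a79b58cba510747c984d985f8d310a95c88141c4a3279 (k8 c370 c403 c500 c579 c46 c77 c484 c470 (k8 c246 c369 c384 c364 i2045 i1107 i1421 i2030 (k4 i407 i406 i1681 c71 (k2 i1561 c550 k0)))) (by decide +kernel)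
def c667 : PP 8 4 T 0x1000000000000010101005015000001404050040000004102200001000444200058 := rS 0x9b4cacdfa4e8225cc67129a85028389464f2095782cde59069ec8e33099ac1e8b12a31863a (k8 i379 i2220 i380 i2207 i549 c642 i627 i28 (k8 i2094 c617 c598 c612 c507 c372 c649 i587 (k8 i222 c370 c403 c500 c579 c46 i2185 c87 (k8 c663 c665 i1818 c666 c664 c19 i1429 c283 (k2 i1034 i2045 k0))))) (by decide +kernel)
def c668 : PP 8 4 T 0x1000000000000000000000000000001004000000000000102240000000004600040 := rS 0xd2723f60aac5595d9ab5119d620c10791c1a8f5782c12b70f9f4e67f861bc2653548c5a22d648cd423a6189516053da300418 (k8 c461 c446 i380 c598 c509 i549 i2207 i2220 (k8 i379 i2185 i2094 c407 c519 c505 c481 c437 (k8 c87 i28 c372 c646 c408 c534 c57 c452 (k8 c541 i222 c649 i587 c650 c612 c617 c642 (k8 c651 c661 c368 c454 c463 c555 c64 c662 (k4 c667 c488 c34 c77 (k2 c369 c246 k0))))))) (by decide +kernel)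
def c669 : PP 8 4 T 0x1000000000000010000004000000141040505044000000202000000000004000000 := rS 0x268c271 (k4 c441 i1311 i2045 c364 k0) (by decide +kernel)
def c670 : PP 8 4 T 0x1000000000000001200001000000010005000814041101445005500000000002400000001004005540 := rS 0x9f522f4cacb (k4 c434 c75 i1413 i2027 (k2 c187 c608 k0)) (by decide +kernel)
def c671 : PP 8 4 T 0x11100000000000080000001014010000000050000000010002400000001044005540 := rS 0x220226539182a3 (k4 c69 c539 c77 c338 (k2 c246 c179 (k1 c454 k0))) (by decide +kernel)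
def c672 : PP 8 4 T 0x1000000000000001200001000000010005000814041101445005400000000002400000001004005540 := rS 0xe865 (k2 c75 c670 (k1 c493 k0)) (by decide +kernel)
def c673 : PP 8 4 T 0x11000001000000090004005014010811644010000006000002400800001044005548 := rS 0x4fb3d9a755c0d4fcca72414ee9d42c4a32793d96582a34c8be8ab2 (k8 i1034 c419 c554 i1106 c69 c539 c507 c598 (k8 c370 c403 c500 c376 c621 c622 c672 c77 (k8 c338 c671 c453 i1391 i1667 i848 i1145 i2710 (k1 i2046 k0)))) (by decide +kernel)
def c674 : PP 8 4 T 0x1000000000000000000000148000001445005008000000202000000001004200000 := rS 0xcd3a9de227e2b2556a60 (k8 c451 i2892 c565 i497 i498 c64 c557 i1667 (k2 c323 c347 k0)) (by decide +kernel)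
def c675 : PP 8 4 T 0x1000001000000010004004004010811644010000006000202400800001044005148 := rS 0x15a0b690761ab5 (k4 i2892 c377 i1229 c600 (k2 i494 i1313 (k1 c673 k0))) (by decide +kernel)
def c676 : PP 8 4 T 0x1000000000000080000000004000001445025000000000202400000001004205540 := rS 0x776699cea545632d4b112c9ad82a3 (k8 c69 c539 i627 c507 c433 i1326 i1328 i2027 (k4 i1314 c589 i2974 i770 (k2 c502 c347 k0))) (by decide +kernel)
def c677 : PP 8 4 T 0x1000000000000010000004040010001444000040000000202400000001044205148 := rS 0x19e75368d4fcca724147e9fa22ccee9d4dab4faab5abf4c695301b9e2c342a0c169758a0625193c9ed185960a8d322f690761a3a (k8 i379 c377 i1229 c600 c554 i1106 c69 c539 (k8 c507 i380 c598 c370 c403 c500 c46 i1315 (k8 i1817 i494 c579 c376 i2220 c9 c669 c451 (k8 c565 c585 c384 i2892 c674 c676 i1313 c675 (k8 c621 c622 i1431 c371 c627 c10 c625 c77 (k4 c338 c671 c453 i673 (k2 i1667 i1145 (k1 c113 k0)))))))) (by decide +kernel)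
def c678 : PP 8 4 T 0x1000000000000001000000000000000000000140000400000000000002000002000000000004000000 := rS 0x166fd (k2 c384 i1431 (k1 c371 k0)) (by decide +kernel)
def c679 : PP 8 4 T 0x1000000000000000800000400005001604000500000000002400800000004005000 := rS 0x6ace721b60a8589464f27b (k8 c598 c370 c403 c500 c376 c434 i673 c77 (k2 c113 c453 (k1 i1145 k0))) (by decide +kernel)
def c680 : PP 8 4 T 0x1000001000000000005008414045101604000500000000202400800001044005540 := rS 0x1f2f208a45ab2d0b128c9e4f745 (k8 c62 c598 c370 c403 c500 c376 c679 i1397 (k4 i2027 c338 c608 c625 (k1 c261 k0))) (by decide +kernel)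
def c681 : PP 8 4 T 0x2001000000000000000001000000040000010000200000000002000005501044000000 := rS 0x29042b9888d52a93 (k8 c12 c386 c544 c368 c581 i1499 i2033 c198 k0) (by decide +kernel)
def c682 : PP 8 4 T 0x1000001000000010005008014040401654000000000000202400805501044005548 := rS 0x88c5d98b867a946ae482ac8ea774ea7cc6934ac510a9758a0625193c9ed3345 (k8 c62 i1106 c598 c370 c403 c500 c46 i1315 (k8 i1817 c376 c85 c386 c12 c80 c620 c621 (k8 c622 c681 c680 c672 c77 c453 c484 i1145 (k4 i2033 i2046 c487 c555 (k1 c595 k0))))) (by decide +kernel)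
def c683 : PP 8 4 T 0x1000001000000010004008004010001654010000400000202400805101044005148 := rS 0x13ecf66ae0eabf2bb28fd055a9dd3ab23018d2a9a42c4a32793d82cb2c151a645ed20ec368aad (k8 i1313 c62 c377 i1229 c600 c554 i1106 c69 (k8 c539 c507 i494 c598 c370 c403 c500 c376 (k8 c682 i2708 i1446 c364 i1034 c621 c622 i2892 (k8 c672 c671 c338 i1665 i1723 i1667 i1391 c346 (k2 i1152 i2710 (k1 i2046 k0)))))) (by decide +kernel)
def c684 : PP 8 4 T 0x1000000000000000000000148000001445005000000000202000000001004200000 := rS 0xcd3a9de22b5379f8accb (k8 i123 i497 i498 c674 i1397 c64 c557 i1668 (k2 c323 c347 k0)) (by decide +kernel)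
def c685 : PP 8 4 T 0x1000000000000010000000040010001454000040000000202400005101044205148 := rS 0x1f56cd278b0e1a0b0e9ad56b140a1625193da30f23a (k8 i379 c370 i380 c598 c403 c500 c376 c46 (k8 i1315 c684 i627 i1229 i494 c377 i2220 c9 (k4 c600 c677 c676 c683 k0))) (by decide +kernel)
def c686 : PP 8 4 T 0x1000000000000001000000000000011405100014040101445005500000000002400000000004005540 := rS 0x9f4eb3cca695fd0e08a4 (k8 i2027 c338 c84 i1452 c63 c75 c255 c335 (k2 c187 i2046 k0)) (by decide +kernel)
def c687 : PP 8 4 T 0x1000000000000000000000000000000000000040008000202000000000004000000 := rS 0x8a9be1a71 (k4 c441 c377 c585 c80 (k1 c379 k0)) (by decide +kernel)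
def c688 : PP 8 4 T 0x1000000000000011105008014045101445005500404000002400000000004005540 := rS 0x33c14cb17653397b45 (k8 c62 i1988 i2046 c686 c420 i1029 c434 i545 (k1 c532 k0)) (by decide +kernel)
def c689 : PP 8 4 T 0x1000000000000010105008015045115455005500405000002400005500004005540 := rS 0x1cb055232972358b15622cc (k8 c688 c555 i770 c595 c506 c487 c263 i2033 (k2 c434 c484 (k1 c77 k0))) (by decide +kernel)
def c690 : PP 8 4 T 0x1000000000000010105008015045115455005400405000002400005500004005540 := rS 0x39149055c9906a74 (k8 c689 c544 c493 c581 c75 i2033 c77 c484 k0) (by decide +kernel)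
def c691 : PP 8 4 T 0x1000000000000010105008015041101455005044400000202400005500004005548 := rS 0x13e934aa6e2861869c4ee63 (k8 c687 c622 c441 c377 i1311 c379 c364 c386 (k2 c12 c620 (k1 c690 k0))) (by decide +kernel)
def c692 : PP 8 4 T 0x1000001000000010105008055040001654000040400000202400805501004005548 := rS 0x4fb34eacf5c15c6aca7241564b57e980dc774ea15628189464f27b2ca64c745 (k8 c62 c687 i1106 c507 c598 c370 c403 c500 (k8 c46 i1315 c376 c621 c622 c691 c451 c384 (k8 i2892 c371 c672 c77 c338 c453 i506 i1391 (k4 i1145 c429 c346 i2710 (k1 i2046 k0))))) (by decide +kernel)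
def c693 : PP 8 4 T 0x1000000000000010100008041010001454010040000000202400005101004205148 := rS 0x195042b954ef113f08944c156bc5870d05874b26b55ac5028589464f68c3c8e85e1e (k8 c685 i239 i379 c370 i380 c598 c403 c500 (k8 c376 c46 i1315 c684 i627 c507 i1229 i494 (k8 c377 i2220 c9 i1313 i1305 c692 i240 c316 (k4 c454 i1625 i1537 i1665 (k2 c83 c334 (k1 c434 k0)))))) (by decide +kernel)
def c694 : PP 8 4 T 0x1000000000000000000000004010001444020000004000202400000001084205148 := rS 0x202b1dd80ad7e34d96a352c45028589464f23a3da301659 (k8 c507 i494 i380 c598 i379 c370 c403 c500 (k8 c376 c46 c433 i1326 i1594 i1328 c676 c369 (k4 c34 i2027 c622 c334 (k2 i1306 i1497 k0)))) (by decide +kernel)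
def c695 : PP 8 4 T 0x400000000000011000000000000000000001004000000000010000000008002000000000004000000 := rS 0xff11 (k2 c64 i1665 (k1 c602 k0)) (by decide +kernel)
def c696 : PP 8 4 T 0x1000000000000010405000040011001444014400002000202400800001004205140 := rS 0x3ea231936ce66c40ae9f3a9957f43822921aab58a050b128c9e55ab551b49fa0b (k8 i494 c384 c369 c69 i2892 i1313 c370 c403 (k8 c500 c376 c46 i1315 c684 c377 i2027 c338 (k8 c84 i1452 c75 c493 c187 c695 c334 c555 (k4 i2046 i1152 i1146 c678 (k2 i414 c10 k0))))) (by decide +kernel)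
def c697 : PP 8 4 T 0x1000000000000010100000041010001454000040000000202400005101004205148 := rS 0x9f67b34eab83215e0aca3ba7546d25abf4c06e5bb055a7d31a645e1e61a0c16972c9ad56b140a1625193da30f23a (k8 i379 c370 i380 c598 c403 c500 c376 c46 (k8 i1315 c684 i627 c507 i1817 i494 c579 i2220 (k8 c685 i239 i1106 c687 c694 i1313 i1305 c693 (k8 c669 c451 c384 i2892 c369 c69 c621 c622 (k8 c696 c434 i506 i1392 i1391 c429 c346 i1029 (k2 i2710 i2046 k0)))))) (by decide +kernel)
def c698 : PP 8 4 T 0x11001000000000000014804000014041441444005500400004002400000000004001548 := rS 0x28a99592799abf82a162459 (k8 c507 c500 c376 c434 i1454 c346 i2046 c627 (k2 i1113 c76 (k1 c85 k0))) (by decide +kernel)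
def c699 : PP 8 4 T 0x1000000000000000000000010010001445105000000004202400004001804201140 := rS 0x208ca2a9de2259 (k4 c507 c454 i1625 i1537 (k2 c334 c83 (k1 c434 k0))) (by decide +kernel)
def c700 : PP 8 4 T 0x11001000000000000014804010014040441644001500400004002400000000004001548 := rS 0x270ce7b (k4 c598 i546 c698 i1820 k0) (by decide +kernel)
def c701 : PP 8 4 T 0x1001000000000000010001010004050401444000500000004202400000801004205148 := rS 0x9f4eb3468948829196c342a5d628189464f27b461ad9ead7e34c163a (k8 i379 i494 c448 c369 c34 c638 i627 i380 (k8 c598 c370 c403 c500 c46 i1315 i1817 c376 (k8 i2220 c700 i2027 c334 i366 i365 c555 i1678 (k2 i1184 i2046 k0)))) (by decide +kernel)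
def c702 : PP 8 4 T 0x1001000000000000000101010004000000000000810000000002400004800004005540 := rS 0x32d2a658bab5f8d3 (k8 c448 c369 c34 c482 c591 i1676 c173 c652 k0) (by decide +kernel)
def c703 : PP 8 4 T 0x1001000000000000010001010004010401444000500000004202400004801004205148 := rS 0x5108d028589464f23a3da321a1d56bf1a60b (k8 i494 c448 c369 c34 i1229 c377 i380 c598 (k8 i379 c370 c403 c500 c376 c46 c699 c701 (k1 c308 k0))) (by decide +kernel)
def c704 : PP 8 4 T 0x1000000000000010100010004010001444010080000000202400004801084205148 := rS 0x659fe22563b9d5830d38c5536b556bf1a60b (k8 i494 c448 c369 c34 i884 i1179 c36 c441 (k8 c377 i1305 i1096 c702 c703 c64 i1665 i506 (k1 c639 k0))) (by decide +kernel)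
def c705 : PP 8 4 T 0x1000000000000000000000000000001404000000000000202200000000006200040 := rS 0x80acc03bb2d46a5889f15afc698b9721e379c9560f23834b213548c5a22d64a2466c312a2c0a85049055e5d15ac503128c9e4747b4602d4202 (k8 c446 i2185 i494 i380 c598 i379 c370 c403 (k8 c500 c46 i1315 i2229 i510 i499 i42 i1310 (k8 c376 c509 i549 i2207 i2220 i2094 i2093 c407 (k8 c519 c505 c481 c437 i28 c507 c612 c617 (k8 c642 c684 c697 i58 i1092 i2782 i1091 c448 (k8 c369 c34 c704 c433 i1326 i1594 i1328 i1630 (k4 i2027 c334 i1306 i1497 k0))))))) (by decide +kernel)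
def c706 : PP 8 4 T 0x1000000000000000000000000000001004000000000000002240000000004600040 := rS 0x1ccfcb85132e08ad55b041e0d23b94aa221a2383a0b04c34a04164a840418 (k8 c461 c446 i2185 c407 i42 c668 c377 i1310 (k8 i494 i1229 c705 i1130 i1131 i766 c453 i207 (k8 i1570 i2122 i1574 c319 i1314 c77 c434 c317 (k4 i327 c316 i2782 i846 k0)))) (by decide +kernel)
def c707 : PP 8 4 T 0x1000000000000000000000000000000000000000000400002200000000004200000 := rS 0xb739a5cde99280f03eb1308fc0c8340c490e7b3cc64ba8b460e856a1488b40ad1010602e1109bc45243 (k8 i635 i253 c9 i28 i7 c606 c461 c446 (k8 c505 c509 c519 i1169 i2185 i2229 i379 i380 (k8 i549 i510 c403 c370 c598 c303 c500 c46 (k8 c579 c706 i1420 i1223 i1228 i1302 i640 i479 (k4 i1107 c451 i1817 i1092 (k2 i1784 c669 k0)))))) (by decide +kernel)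
def c708 : PP 8 4 T 0x1000000000000000000000000000000000000000000400002000000000004200000 := rS 0xa8b416200648a43 (k8 i635 c707 c391 c399 c461 i378 i377 i2526 k0) (by decide +kernel)
def c709 : PP 8 4 T 0x1000000000000000000000000000000000000000000000002000000000004200000 := rS 0x6e3b1405888198c90c727920a404e8c2e979e213 (k8 i28 c9 c708 i56 c477 c383 c489 i905 (k8 c586 i1813 i636 c50 i2706 c399 c461 i644 (k2 i2705 i1837 (k1 c520 k0)))) (by decide +kernel)
def c710 : PP 8 4 T 0x1000000000000000000000000000000000000000000000002200000000005000080 := rS 0x140a62c0b0100601 (k8 c569 i220 c410 c461 i520 i2336 i479 c605 k0) (by decide +kernel)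
def c711 : PP 8 4 T 0x1000000000000000000000100010002080000040000000202000000000004050140 := rS 0x2068a83532cd5e635bc3417131e8fde015 (k8 c709 c540 c494 c11 c390 i494 c377 i854 (k8 c687 i500 i553 i2028 i1437 c14 i1860 c440 k0)) (by decide +kernel)
def c712 : PP 8 4 T 0x401000000000000000000004100000000080100080000000202000000000004050540 := rS 0xa229906b34ca6d5f0d1e8fde015 (k8 c709 c540 c494 c11 c377 i500 i1180 i1938 (k4 i554 i924 i2028 c440 (k1 c14 k0))) (by decide +kernel)
def c713 : PP 8 4 T 0x1001000000000000000000008001000002000000000001200002000000000004000000 := rS 0x637ea655c83 (k4 i103 i1930 i1111 c503 (k2 i540 c573 k0)) (by decide +kernel)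
def c714 : PP 8 4 T 0x1000000000000000000000000000002000000000000040202200000000005000000 := rS 0x14eb34026d5eb78a9c87e3d78045145c1ba3633132f8ada2040180426a904905620b50984de2d0394c2c15 (k8 c709 c461 i95 c710 c604 i968 i1311 i822 (k8 i494 i1316 i42 i1310 c385 i227 c569 i220 (k8 c410 i651 i385 i643 c390 c50 i1032 i993 (k8 c492 c401 i524 c540 c11 c494 c711 c36 (k4 c713 i500 i1180 c712 (k2 i554 i1860 (k1 i2028 k0))))))) (by decide +kernel)
def c715 : PP 8 4 T 0x1000000000000000000000000000001080000080000040202200000400004000440 := rS 0x12f45530fc7a99782bc225d892ce32793d84c124158c553615 (k8 c709 i1179 c36 i1316 i42 i1310 i227 c551 (k8 c438 c40 i554 c500 c65 i483 i499 c540 (k4 i1938 c11 c494 i2028 (k2 c14 i1898 (k1 c85 k0))))) (by decide +kernel)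
def c716 : PP 8 4 T 0x11000000000000000000000000810000000000000000000002000000010014000000 := rS 0x3ed3 (k2 c496 i242 (k1 c600 k0)) (by decide +kernel)
def c717 : PP 8 4 T 0x801002000000000090400010000010001440005500000000202400050005004005140 := rS 0x43116633d3e9d19b94ca695208e090d0e82d0e8560a8d5aab (k8 c37 c34 c69 c539 c376 c32 i494 i1229 (k8 c377 c338 c317 i2027 c63 c75 c484 i289 (k4 c335 c187 c168 i2046 (k2 c555 i729 (k1 c332 k0))))) (by decide +kernel)
def c718 : PP 8 4 T 0x801002000000000010050010800010001440005400000004202400050045044005140 := rS 0x35b3046bf61884fce43ec15940b43a1452a3690761aad559d56a59 (k8 c507 i1398 c429 c37 c34 c377 i1229 c600 (k8 c69 c560 c376 c32 i494 c717 c434 i1328 (k8 c77 c671 c470 c444 i1723 i1663 i2032 i634 (k1 c346 k0)))) (by decide +kernel)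
def c719 : PP 8 4 T 0x801002000000000000050000800000001240004080000000202600040004045000000 := rS 0x9d4fb3cce3336c15ca0e3bae46ac9129d51e571583486d10200c02a904905422d298bc3a074d9e42c87429755a15 (k8 c709 c34 c65 c376 c32 c461 i972 i1179 (k8 c710 i1229 i1080 i95 c604 i822 i42 i1310 (k8 c385 c569 i220 c410 i651 i41 c352 i385 (k8 c330 c333 c429 i347 c459 i1116 i1141 c243 (k8 c718 c409 c497 i667 i285 i542 c168 c275 (k2 i1820 c113 k0)))))) (by decide +kernel)
def c720 : PP 8 4 T 0x1000000000000000000000000000000000000000000000002a00000000004000004 := rS 0x8ba3ceb113b964645711094ce0f829040801 (k8 c569 c410 i42 c425 i109 i1618 i2142 i224 (k8 i1578 i264 i603 c502 c454 c429 c331 c389 (k1 c595 k0))) (by decide +kernel)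
def c721 : PP 8 4 T 0x801002000000000000000000000000000000000080000040202200000000045000000 := rS 0x5588b319e3382b941c774fa7572352cb26308f46ab456d1020050ac713b146eb21eac47ef00884d5e0920a9c530d3a894ae9b2380c1a4354a1cf65d4582d422d298bc3a07489e42c15 (k8 c709 c461 c423 c714 c710 i1229 i1080 i95 (k8 c604 i822 i494 c715 c65 c551 c32 c385 (k8 i41 c352 i220 c720 i1179 c361 i347 c429 (k8 c377 c560 c716 i42 i1310 i499 i227 i483 (k8 c540 c494 i1316 c11 i2028 c594 c547 c54 (k8 c20 c376 c569 c410 i651 i385 c34 c719 (k8 c333 c401 c459 c507 i1116 i1141 c393 c39 (k8 c243 c718 c409 c497 i285 c168 i2046 c555 (k2 i769 c83 k0))))))))) (by decide +kernel)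
def c722 : PP 8 4 T 0x1000000000000010000000000000001445001400000044002000050000004008000 := rS 0x2ac45989d4fb3cce3336c15ca7b3ab24b215 (k8 c709 c507 c459 c429 c551 c409 c497 i667 (k8 i285 i542 c168 c275 c343 i2046 c555 i769 (k1 c83 k0))) (by decide +kernel)
def c723 : PP 8 4 T 0x1000000002000000050000000000000005000000000042002400000055004000000 := rS 0x6688c42c3 (k4 c444 c470 i1537 i769 (k1 i2032 k0)) (by decide +kernel)
def c724 : PP 8 4 T 0x1100000000000000050000000000000005000000000054002400000055004005000 := rS 0x33447102ab0c42e4 (k8 c77 c470 c444 c723 c83 c454 c555 i2032 k0) (by decide +kernel)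
def c725 : PP 8 4 T 0x801000000000000080000000000000000400000080000040202200000000005000000 := rS 0x8622cc678cdca9f522744665569a59704079dd72352cb2456d1020041241428a58e27628dde01109b05467512aacae9b2380c1a4354a1cf65d4582d422d298bc3a07489e42c15 (k8 c709 c461 c423 c714 c710 i1229 i1080 i95 (k8 c604 i822 i494 c715 c65 c551 c32 c385 (k8 i41 c352 i220 c720 i1179 c361 i497 i347 (k8 c429 c69 c539 i227 i483 c540 c594 c547 (k8 c54 c20 c560 c376 i42 i1310 c569 c410 (k8 i651 i385 c459 c507 i1116 i1141 c243 c722 (k8 c724 c434 c63 c488 c75 c317 c335 i2027 (k8 c187 c484 i289 c168 i2046 c555 i729 c392 k0)))))))) (by decide +kernel)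
def c726 : PP 8 4 T 0x801000000000000000000000000000000000000080000040202200000000045000000 := rS 0xac32a38c4fd2ba2d37150690c08012380cf6a91782cc26f48a1cf25d692845a530b0740f0d (k8 c377 c710 i1229 c461 i95 c604 i822 c600 (k8 c65 c423 c32 c714 i968 i1311 i494 i1080 (k8 c385 c551 i220 c720 c569 c410 i41 c352 (k8 c36 i1179 c715 c361 c721 c573 c725 c88 (k2 c333 i1353 k0))))) (by decide +kernel)
def c727 : PP 8 4 T 0x1000000000000000000000800400000000000044000000202005040500004040020 := rS 0x46c64709b44a651714318ee1a7130a5da215 (k8 c709 i651 i1374 i1311 c441 c377 i392 c687 (k8 c379 i553 c411 c518 c364 i2034 c559 i1813 (k1 c401 k0))) (by decide +kernel)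
def c728 : PP 8 4 T 0x101000000000000000400000014015001425005500000000202400000005004005140 := rS 0x1088d82cc51a4d9e338b4343a0b (k8 i494 i1229 c377 c595 c389 c420 c436 i280 (k4 i2046 i1344 c317 i729 (k1 c332 k0))) (by decide +kernel)
def c729 : PP 8 4 T 0x1000000000000008008000000000000000000000000000002000150000004000000 := rS 0x66e5 (k2 c444 i290 (k1 c168 k0)) (by decide +kernel)
def c730 : PP 8 4 T 0x801000000000000000000000010000000000000000000040202200000000005000000 := rS 0x24e86958ba919ca360b34467d8827d3abd329a597044403ceed35c8d4b2c9478ada2856389d8b150f1d44aab2ba6c8e0d21aa50e7b459c964b157824823f1b8f5e0112ea9c530d3784c08030082d422d298bc3a07489e42c15 (k8 c709 c461 c423 c714 c710 i1229 i1080 i95 (k8 c604 i822 i494 c569 i220 c410 i227 i968 (k8 c377 c560 c716 c65 i483 c540 c11 c594 (k8 c494 i42 i1310 i499 i1316 i2028 c727 c715 (k8 c551 c32 c385 i41 c352 c720 i1179 c361 (k8 i497 i347 c429 c726 c36 c547 c54 c20 (k8 c376 i651 i385 c333 c459 c507 i1116 i1141 (k8 c725 c243 c722 c548 c724 c434 c63 c75 (k8 i1413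 c335 c187 c728 c433 c454 c555 i1305 (k8 c308 i2046 i2027 c420 i1105 c84 i1365 c472 k0)))))))))) (by decide +kernel)
def c731 : PP 8 4 T 0x801000000000000000000000000000000000000000000040202200000000005000000 := rS 0x23c6a7707164c87f82b2d58252ba2d3715392c87e376289d8e3d7829d5e1114974f285438ac1a43688100247019ec270d5482482b11787416a1309bc5a07298592215 (k8 c709 c714 c461 i95 c710 c604 i968 i1311 (k8 i822 i494 i1229 i1080 i1316 i42 i1310 c385 (k8 c377 i227 c551 i220 c720 c569 c410 i651 (k8 i41 c352 i385 c32 c376 c423 c65 c560 (k8 i483 i499 c716 c540 c11 c20 c54 c547 (k8 c594 c494 i2028 c727 c36 i1179 c715 c361 (k8 i347 c730 i122 c488 i1556 c226 i607 c724 (k4 i838 i2700 c88 c722 k0)))))))) (by decide +kernel)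
def c732 : PP 8 4 T 0x101000000000000000000000000000000000000000000010002000000001104008000 := rS 0x46e5 (k2 c409 i245 (k1 c392 k0)) (by decide +kernel)
def c733 : PP 8 4 T 0x1000000000000000000000000005000402001401000040002400510001004051000 := rS 0x1945862757215e0a68079ad86cf10c458ec51bbc0b215 (k8 c709 c507 c540 c594 c547 c20 c6 i1503 (k8 i1870 i1867 i1869 c732 i2029 c63 i1584 c77 (k4 c429 c450 c595 i2035 (k1 c389 k0)))) (by decide +kernel)
def c734 : PP 8 4 T 0x101000000002000000050000000005000400000400000000002000540000004800000 := rS 0x33c67163a8c58635 (k8 i1116 c444 c450 i970 c595 c389 c420 i2035 k0) (by decide +kernel)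
def c735 : PP 8 4 T 0x501000000001000000000000000000000005000000000200002400000000004055000 := rS 0x53984cd35c118ec5781b4d215 (k8 c709 i1849 i516 c540 c547 c20 c77 c537 (k4 i1970 i2029 c398 c428 k0)) (by decide +kernel)
def c736 : PP 8 4 T 0x1000000000000010000000000000001445001400000040002000050001004008000 := rS 0x57 (k2 i502 c722 k0) (by decide +kernel)
def c737 : PP 8 4 T 0x501000000000000000000000000005000405000400000200002400500000004855000 := rS 0x1cac7628dde015 (k4 c709 c540 c594 c547 (k2 c20 c734 (k1 c735 k0))) (by decide +kernel)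
def c738 : PP 8 4 T 0x401000000000000010000000000000001444000000000240002400400000004851001 := rS 0xcf053530ccb1767334eb10079a50a77128d592c762a353a9f1cc60f237781ecda15 (k8 c709 i516 c551 c540 c594 i972 c500 c559 (k8 c39 c393 i1845 c547 c20 c459 i1116 i860 (k8 c243 c733 i1849 c736 c737 c368 c555 i2046 (k4 c420 i1028 c729 i2029 (k2 c537 i547 (k1 c532 k0)))))) (by decide +kernel)
def c739 : PP 8 4 T 0x1000002000000000000000800400001000000004000200202000000500004040020 := rS 0x72410f46e3f (k4 c494 c594 c11 i514 (k2 c727 i923 k0)) (by decide +kernel)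
def c740 : PP 8 4 T 0x11000000000000000000000000810000000000000000200002000000000014000540 := rS 0xaf5b3f03cd3 (k4 c496 c600 c369 i243 (k2 c503 i1930 k0)) (by decide +kernel)
def c741 : PP 8 4 T 0x401000000000000000000000100000001040004000000200202000000100004840160 := rS 0x894cc50c6fd572cc72978c1e47e371ebc136111db45522f309bd4e0b508761a15 (k8 c709 c377 i1229 i822 i494 c740 i968 i1311 (k8 i1080 c385 i651 i392 i523 c364 c540 c11 (k8 c594 c494 i972 c500 c526 c559 c739 i2028 (k4 c503 i539 c573 c411 (k2 c518 i2034 k0))))) (by decide +kernel)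
def c742 : PP 8 4 T 0x401000000000000000000000100000001000004000000200202000000100004840160 := rS 0x464f28a (k4 c741 c438 c40 c500 k0) (by decide +kernel)
def c743 : PP 8 4 T 0x1000000000000000000000000000000000000000000040202200000000005000000 := rS 0x5c89a45622d0494c825f0b0100601039ec2615 (k8 c709 i227 c551 c710 c569 i220 c410 c461 (k8 i643 i42 i95 i1310 c604 i1316 c714 c731 (k2 c492 c742 k0))) (by decide +kernel)
def c744 : PP 8 4 T 0x401000000000000000000000000000001080004000000000002000000000004000000 := rS 0x23279 (k2 c438 c40 (k1 c500 k0)) (by decide +kernel)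
def c745 : PP 8 4 T 0x2001000000000000000000000000400440000000000000000002005540500004000000 := rS 0x11299 (k2 c411 c518 (k1 i2034 k0)) (by decide +kernel)
def c746 : PP 8 4 T 0x1001000000000000000000501000440140000000000000002000500500004050540 := rS 0x894c9822a635729da43d1b8fde015 (k8 c709 c540 c494 c594 c11 c369 c496 i2028 (k4 i539 c745 c573 i1020 (k2 i1277 i2034 k0))) (by decide +kernel)
def c747 : PP 8 4 T 0x1000000000000000000000500000440140000000000000002000100100004040560 := rS 0xc6998a225a6a657985f82f548eda23d1fbc02215 (k8 c709 i523 c540 c494 c11 i651 i392 i572 (k8 i315 c746 c384 c503 i2028 c496 i282 c548 (k2 c411 c80 (k1 i2041 k0)))) (by decide +kernel)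
def c748 : PP 8 4 T 0x1001000000000000000000004000000000080000000000502000000000004000000 := rS 0x9f0d (k2 c408 i760 (k1 c427 k0)) (by decide +kernel)
def c749 : PP 8 4 T 0x1000000000000001001000000000000000000084000414408010550000000502000000000004000000 := rS 0xbfa1aed707f5aaf4df4f (k8 c67 c372 i1987 i934 c748 i2044 i1683 c543 (k2 i1457 c485 k0)) (by decide +kernel)
def c750 : PP 8 4 T 0x401000000000000001000000000000000000020088000400400800500110000002400010000004051800 := rS 0xc25d1ad7aa55a9b41f105fc5d8ec5783268615 (k8 c709 c439 c459 c540 c547 c20 c487 i1457 (k8 c595 c272 i594 c463 i361 i1415 i586 c485 (k2 i2029 i1945 k0))) (by decide +kernel)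
def c751 : PP 8 4 T 0x400000000000000001001000000000000000011408000014400810550100000502000000000004000000 := rS 0x2085436939750d359f97a6f (k8 c372 i1415 i2044 i586 c408 i926 c427 i1682 (k2 i759 c550 (k1 c49 k0))) (by decide +kernel)
def c752 : PP 8 4 T 0x400000000000000501000000000000001000000000000000004000001500000002400000001004051000 := rS 0x7b0e088463b15e015 (k8 c709 c540 c547 c20 c398 c550 i1867 c497 (k1 i2029 k0)) (by decide +kernel)
def c753 : PP 8 4 T 0x1000000000000000000000000000000800000000000010002000000001004008020 := rS 0x105 (k2 c497 c180 k0) (by decide +kernel)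
def c754 : PP 8 4 T 0x101000000000000000000000000000000004000000500200002400000001004055000 := rS 0x14e6133626c762bc0da15 (k8 c709 i516 c540 c547 c20 c65 i1970 i2029 (k2 c752 c428 k0)) (by decide +kernel)
def c755 : PP 8 4 T 0x1000000000000000000000000000001000000000200240002200000000005000000 := rS 0x951c592ba1e0a6b2f8342c431db448e1308a2e267b0200c0215 (k8 c709 c569 i220 c410 c551 c65 c744 i523 (k8 i227 c720 i651 i392 i41 c461 c352 i643 (k8 i39 c63 i1564 i1584 i609 c738 i347 c331 k0))) (by decide +kernel)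
def c756 : PP 8 4 T 0x1000000000000000000000000000001840000000100200002200000000005040000 := rS 0x19e0a6a6483cb22532a1e2f11068588647088100601 (k8 c569 i220 c410 i523 c720 i41 c461 c352 (k8 c416 c504 i931 c88 c222 c568 c753 i611 (k4 c754 c537 i547 c532 k0))) (by decide +kernel)
def c757 : PP 8 4 T 0x1000000000000000000000100810001408004400100200502400000100004841820 := rS 0x40a272af0ff115a2e4caaa3ea08e6934ca56282f319c55c8940d14766f59add8a9d4fa5d36398c0d44b4f3a9e46e2363bc0228b89b4dfa15 (k8 c709 c22 c404 c65 c744 i523 c540 c20 (k8 i1703 c594 i972 i1708 c67 i860 i1116 c500 (k8 c559 c394 c526 c39 c393 c547 i1931 i513 (k8 c372 i392 c14 i1860 i282 c371 i710 i539 (k8 i316 c548 c386 c411 c12 c36 i2045 i1710 (k8 c749 i1659 c750 c751 c463 i102 i934 c734 (k2 i1985 c392 (k1 i1649 k0)))))))) (by decide +kernel)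
def c758 : PP 8 4 T 0x1000000000000000000000000400440000000040000000002005540100004800800 := rS 0x114448bd52d3 (k4 c404 c577 i1079 i277 (k2 c548 c745 k0)) (by decide +kernel)
def c759 : PP 8 4 T 0x1000000000000000000000100010001408004400100200502400000100004841820 := rS 0x89540709d0d389c94e1f1d8f47e974d8e630791bbc0228b89b4dfa15 (k8 c709 c22 c404 c65 c744 i523 c540 c594 (k8 i972 c500 c559 c394 c526 c494 c11 i392 (k8 i237 c757 c758 i78 c534 c427 c600 i758 (k2 i1342 i573 k0)))) (by decide +kernel)
def c760 : PP 8 4 T 0x1000000000000000000000100010001408004400100200102400000100004841160 := rS 0x8917c54c0722934c14b346a5d36398c1e46ef008a2e2615 (k8 c709 c65 c744 i523 c540 c594 i972 c500 (k8 c559 c394 c526 i1845 i513 c747 c404 c759 (k4 c528 c593 c36 i2693 (k2 i1277 c548 k0)))) (by decide +kernel)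
def c761 : PP 8 4 T 0x1000000000000000000001080000414408850550100000502400010000004051800 := rS 0x65552e0df4f7ed1596bb (k8 i1683 i626 c81 c22 c67 c372 i2044 c749 (k2 i1027 c750 k0)) (by decide +kernel)
def c762 : PP 8 4 T 0x401000000000000001000000000000000000140000000120000000000000000002000000000004000000 := rS 0x17f43 (k2 c66 i1726 (k1 c485 k0)) (by decide +kernel)
def c763 : PP 8 4 T 0x201000000000000000000000080000400448850540106200502400110200004051800 := rS 0x619ac1e651919a2e924a9b57a575ab1d8ac9a7a646ef038aee8a15 (k8 c709 c81 i1683 c31 c540 c594 i980 c67 (k8 c459 c547 c20 c463 c64 i1415 i515 c762 (k8 c761 c436 i1282 i1242 i1550 c272 i547 i290 (k1 i2029 k0)))) (by decide +kernel)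
def c764 : PP 8 4 T 0x1001000000000000000000000100000001408004440104200502400400200004851800 := rS 0x2d52aa551ae526208b39622aea2a08fa7f40982186f59add16c54ea7d2e9b1cc622635129d4f22363a646ef0549c5fa15 (k8 c709 c22 c31 c466 c540 c594 i980 c20 (k8 i1703 i972 i1708 i860 i1116 c65 c500 c559 (k8 c394 c526 c39 c393 c547 c744 i1931 i513 (k8 c372 c379 c573 c2 c408 c57 i2045 c81 (k8 c371 c763 c734 c595 c392 c436 c487 i1649 (k4 i1383 i979 i728 c761 k0)))))) (by decide +kernel)
def c765 : PP 8 4 T 0x1001000000000000000000100000000000200000000000502000000000004000000 := rS 0x9f0d (k2 c2 i1275 (k1 c427 k0)) (by decide +kernel)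
def c766 : PP 8 4 T 0x1000000000000000000000480005414408810440100000502400500200004851800 := rS 0x1ca2188a9568b932aa98a3512d3cea791b88d8ef038bf68a15 (k8 c709 c81 c22 c31 c540 c20 i1703 c594 (k8 i972 i1708 c67 i860 i1116 c547 c749 i1659 (k4 c750 c751 i1383 c463 (k2 i728 c734 (k1 c392 k0))))) (by decide +kernel)
def c767 : PP 8 4 T 0x1000000000000000000000100000001408004440104200502400400200004851800 := rS 0x7c57515048149a5628fd37acd6e9d4fa5d36398c1e626991bbc0e215 (k8 c709 c31 c540 c594 i980 c65 i972 c500 (k8 c559 c394 c526 c39 c393 i1931 i513 c372 (k8 c22 c764 c386 c12 c765 i2045 c81 c371 (k2 c766 i1710 k0)))) (by decide +kernel)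
def c768 : PP 8 4 T 0x1000000000000000000000100000001000000000000240002200000000005000100 := rS 0x57985f80b299ccc61f69aa5322c3ba19928f34a6d2e8d8c1e46ef008a2c1a16218eda2040081c8e033d84cdea189acca215 (k8 c709 c743 i513 c65 i309 c372 i227 c551 (k8 i220 c720 c710 c569 c410 i651 i392 i41 (k8 c461 c352 c744 i523 c540 c594 i972 c500 (k8 i1845 c526 c394 c755 c756 c459 c738 c243 (k8 c760 i980 c466 c556 i1303 i1237 i977 i565 (k4 c767 c369 c384 c503 (k1 i2041 k0))))))) (by decide +kernel)
def c769 : PP 8 4 T 0x1000000000000000000012015000014400000500005000142000000000004000000 := rS 0x659562259 (k4 c507 c463 i767 c197 (k1 c263 k0)) (by decide +kernel)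
def c770 : PP 8 4 T 0x1000000000000000000000014008414400810550005000142000000000004000000 := rS 0xfeb55dae4dea9 (k4 c577 c372 i1189 i1686 (k2 c769 i926 (k1 i2044 k0))) (by decide +kernel)
def c771 : PP 8 4 T 0x400000000000010001000000000000004000020000001400000000000000000002000000000004000000 := rS 0x13f17 (k2 c487 i1189 (k1 c566 k0)) (by decide +kernel)
def c772 : PP 8 4 T 0x10001000000000000004000000054810414408001450005600142400000000004051540 := rS 0x6b07b0d74bd511b5041c2bc34fcb55c9f4ea694ed3cdf135bb1d8af054d150215 (k8 c709 i1860 c14 c577 c540 c547 c20 i1931 (k8 c65 c372 c67 i1644 i1564 i1708 i1710 c771 (k8 c769 i2044 c408 i1666 c740 c440 i515 i720 (k4 i1415 i926 i329 i322 (k2 i1946 i2029 k0))))) (by decide +kernel)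
def c773 : PP 8 4 T 0x1000000000000401000000000000000000004000000000004180000000000002000000000004000000 := rS 0x1070d (k2 c408 i925 (k1 c440 k0)) (by decide +kernel)
def c774 : PP 8 4 T 0x1000000000000004000001014000014480050551001000142400010000004051000 := rS 0x619adc8668295cd20f881962eb837b1d8af029b24b215 (k8 c709 c507 c459 c528 c540 c547 c20 c372 (k8 i2044 c487 i1026 c595 c272 i1888 c64 c664 (k4 c532 c77 i548 c444 (k1 i2029 k0)))) (by decide +kernel)
def c775 : PP 8 4 T 0x1000000000000004000000014000014480040551005000142400010000004051000 := rS 0x22cb888ad0faa9 (k4 c577 c267 c774 c463 (k2 c769 c595 (k1 c487 k0))) (by decide +kernel)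
def c776 : PP 8 4 T 0x1000000000000000000000054800416400000040005240042200000000005000500 := rS 0xa38283d963032158ab113a1fcda873bb3c4a352cb241a432384e26b73ca291a5f8cb442237159c40e04018042d4540a84a215 (k8 c709 c743 i309 i1860 c14 c461 c569 i220 (k8 c410 c710 c254 i385 i993 i524 i651 c50 (k8 i643 i1032 c401 i148 i1931 c65 i227 c720 (k8 i41 c352 c459 c507 i1116 i860 i1149 c243 (k8 c772 i516 c773 c775 c368 c589 c429 c493 (k4 i970 c197 i502 c75 (k2 i1651 c338 k0))))))) (by decide +kernel)
def c777 : PP 8 4 T 0x4101000000000000000100000000000002004000000110200002400000001004055000 := rS 0x33c14d4cf (k4 i1150 c754 c537 i548 (k1 c532 k0)) (by decide +kernel)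
def c778 : PP 8 4 T 0x1000000000000000000000000000002800000000000200002200000000005040000 := rS 0x15e0a6a673350c556483cd259129962f1106858864745234bf19688446e2b0200c0215 (k8 c709 c569 i220 c410 i385 i993 i524 i651 (k8 c50 i643 i1032 c401 c720 i41 c461 c352 (k8 c416 c504 c88 c222 c568 i1888 c753 i611 (k8 i766 c777 i153 i932 i1978 c537 i508 c83 k0)))) (by decide +kernel)
def c779 : PP 8 4 T 0x1000000000000000000000104010000000080000000200502000000000104050540 := rS 0x14eaf0ebf21ab31e8fde015 (k8 c709 c540 c494 c11 i513 c408 c748 i719 (k2 c503 c740 (k1 i2028 k0))) (by decide +kernel)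
def c780 : PP 8 4 T 0x1000000000000000000000108000000000000000800202502000000000004000000 := rS 0x41c368ab540af0fcae65bf626b7 (k8 i1931 c65 c37 i123 i585 i1657 i586 c765 (k4 i768 c468 c408 i1415 (k1 c440 k0))) (by decide +kernel)
def c781 : PP 8 4 T 0x1000000000000000000002504000000008000000000002002000000000004000000 := rS 0x1faafa29397882 (k4 i933 i934 i767 c81 (k2 i1987 c19 (k1 c371 k0))) (by decide +kernel)
def c782 : PP 8 4 T 0x101100000000000000000010100010100408000551100200102400000401044055540 := rS 0x53abd10fc16c55a6945a9fd563110b04fa6a72150deb31e8fcb253a788d8ef049c58ae15 (k8 c709 i1705 c595 c436 c540 c20 i1703 c67 (k8 c528 c507 c494 c11 i513 c372 c83 c77 (k8 c550 i1542 c0 c470 c450 c780 c779 c781 (k8 i2044 c246 c386 i978 c369 c548 c503 i283 (k1 i2028 k0))))) (by decide +kernel)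
def c783 : PP 8 4 T 0x2000000000000001000000000000000000000500000000000000000000000002000000000004050540 := rS 0x14eaf1e8fde015 (k4 c709 c540 c494 c11 (k2 c468 c14 (k1 i2028 k0))) (by decide +kernel)
def c784 : PP 8 4 T 0x100000000000a001200000000000000100010541000400000000000010000002000000000004000000 := rS 0xab30bf12a634999d96ad (k8 c488 c434 c486 c436 c80 c386 c371 c678 (k2 c37 i2040 k0)) (by decide +kernel)
def c785 : PP 8 4 T 0x1000000000000001000000000000000008000080000414408010551400000102000000000004000540 := rS 0x174a75fd0da4bd553f4a74f (k8 c67 c528 c503 c749 i1986 c369 c439 i1721 (k2 c496 c485 (k1 i1944 k0))) (by decide +kernel)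
def c786 : PP 8 4 T 0x2101000000000000000000010100010500408000551100200102400000401044055540 := rS 0x32abcfa2072b08d70462b25534559a5446c77824e2c15 (k8 c709 c595 c436 c540 c20 i1703 c386 i513 (k8 c783 c577 c459 c547 c782 c537 i2029 c444 (k4 c392 i1502 c785 c75 (k1 c784 k0)))) (by decide +kernel)
def c787 : PP 8 4 T 0x2101000000000000000000010100010500488000550100200102400000401044051540 := rS 0x53abc3afc869f8fab52a08156a382838ae6d33a4e2c6f598f47ef02c94d2a15 (k8 c709 c386 c528 c507 c540 c494 c11 i513 (k8 c372 c595 c436 c486 i555 i1705 c786 c497 (k8 i322 i579 c732 c83 c781 i1502 i2044 c408 (k4 c748 i720 c503 c740 (k1 i2028 k0))))) (by decide +kernel)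
def c788 : PP 8 4 T 0x2001000000000000000000000150000400000000040000240002200000000005000500 := rS 0xab27985f8a61e8fde08fa28446e901581006015994426074a98d2615 (k8 c709 c12 c80 c386 c710 i227 c743 i513 (k8 c569 i220 c410 i385 c768 i993 i524 c783 (k8 c778 c540 c494 c11 i2028 c371 c678 c19 (k2 c37 c776 k0)))) (by decide +kernel)
def c789 : PP 8 4 T 0x2001000000000000000000000100000400008000040000240002200000000045000500 := rS 0x106aa40bf55cad869f96a7d882e4ea694ed3c1a43239bd43135b9e5148d2fc65a225679dd928f298bd32710b5142237480ac080300acca21303a552615 (k8 c709 c12 c386 c710 i227 c743 i513 c569 (k8 i220 c410 i385 c768 i993 i524 c783 c461 (k8 c254 i1110 i1079 c528 c778 c459 c243 i1149 (k8 i860 i651 c50 i643 i1032 c401 i148 i1931 (k8 c65 i309 c372 c720 i41 c352 c67 i1644 (k8 i1564 i1708 c771 c787 c433 c463 i2044 c408 (k4 i1556 c788 c503 i1862 (k2 c748 c751 (k1 c440 k0))))))))) (by decide +kernel)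
def c790 : PP 8 4 T 0x2001000000000000000000004180000400000080000000200102200000000005000500 := rS 0x789c868696e27457ea04a673 (k8 c36 c528 i1862 c503 c468 c65 i55 c408 (k4 c773 c427 c789 i1269 k0)) (by decide +kernel)
def c791 : PP 8 4 T 0x1001000000000000000000000000000000000000000000502000000000084000100 := rS 0x9f0d (k2 c452 i1269 (k1 c427 k0)) (by decide +kernel)
def c792 : PP 8 4 T 0x1000000000000001000000000000000000100108400000000000001000000002400000000004051400 := rS 0x5dd3d846b5f9a41f4363b15e015 (k8 c709 c540 c547 c20 c439 i579 i1662 i1721 (k4 i586 i2029 c428 i1944 (k1 c485 k0))) (by decide +kernel)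
def c793 : PP 8 4 T 0x400000000000012001000000000000004000000000000400404040454500200002400010001004055000 := rS 0x172b53e9d53b106131d8af04aa4cda15 (k8 c709 i516 c12 c386 c540 c547 c20 i2029 (k4 c754 i1906 c368 c433 (k2 c463 c771 (k1 i2044 k0)))) (by decide +kernel)
def c794 : PP 8 4 T 0x400000000000000001000000000000000000000000000416404840454800000002000000000004000000 := rS 0xb43ec40eab942a762719649659ecd (k8 i892 i1149 c507 c459 c50 c390 i1908 i1869 (k4 c771 i1174 c398 i1442 (k2 i2044 c463 k0))) (by decide +kernel)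
def c795 : PP 8 4 T 0x400000000000012001000000000000004000000000000400404040454500200002400010001004051000 := rS 0x3a086d (k4 i516 c550 c793 c60 k0) (by decide +kernel)
def c796 : PP 8 4 T 0x1000000000000000000000000000000480004400200200002000000000004000000 := rS 0x1113ac5d089c (k4 i1887 i1849 c552 i1592 (k2 c6 c595 k0)) (by decide +kernel)
def c797 : PP 8 4 T 0x400000000000002001000000000000000000000000000402404840454100200002400000000004051000 := rS 0x35c646a250b06476f067a552615 (k8 c709 c12 c386 i1149 c540 c443 i1168 c461 (k4 i860 i1116 c50 c794 (k1 c795 k0))) (by decide +kernel)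
def c798 : PP 8 4 T 0x1000000000000000100000000002000000000000100000002000010000004008000 := rS 0xcb17 (k2 c552 i1551 (k1 c272 k0)) (by decide +kernel)
def c799 : PP 8 4 T 0x6001000000000000000400000000000000400050554000000002000010000004008000 := rS 0x2e56a64883252a93 (k8 c12 c386 c459 c595 c272 c463 i1027 i2044 k0) (by decide +kernel)
def c800 : PP 8 4 T 0x11000000000000000000000180000402000000040000000102000000000004050500 := rS 0x10c4568b98b038eacb3eb0d3e6b5fd38da7f4387d8ec52380c1a591a894d27764a3c88410b00486191dbc1148d8c970be5b689ed05454094d6f134aa4e286f38a5d521d6901dfa15 (k8 c709 c503 i459 c369 c405 c577 i1900 i917 (k8 c372 c379 c12 c386 c390 i854 c528 i1862 (k8 c468 c440 i149 i591 i774 i589 c492 c50 (k8 i1032 c401 c540 c443 i1168 i443 i451 c461 (k8 i740 c399 c778 c459 c243 c796 i860 i1116 (k8 c507 c352 i999 c720 c547 c20 c791 c789 (k8 c790 i516 c797 c471 c513 c529 c428 i1441 (k8 i625 i1173 i2029 c799 c487 i2044 c463 i727 (k1 c732 k0))))))))) (by decide +kernel)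
def c801 : PP 8 4 T 0x1000000000000000000010000000014400040454000000082000000000014808000 := rS 0x2188ad0fa752b88cb225 (k8 i860 c507 i245 i502 i971 i1274 i2044 c463 (k2 i727 c732 k0)) (by decide +kernel)
def c802 : PP 8 4 T 0x4001000000000000080000021500050000010050000000000502000010001514050140 := rS 0xcdcaa40fbf462ae16a9c163d1fbc18215 (k8 c709 i1250 c540 c494 c11 c404 c496 c556 (k8 i2028 i986 c503 c791 i2030 c246 i288 c510 k0)) (by decide +kernel)
def c803 : PP 8 4 T 0x1000000000000000000004500000000000000000000000502000000000084050140 := rS 0x573f14e0b1e8fde015 (k8 c709 c540 c494 c11 i237 i243 c791 i2028 (k1 c503 k0)) (by decide +kernel)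
def c804 : PP 8 4 T 0x4001000000000000080000000500050014410040550000000102000010001054050140 := rS 0x331888170e55a88cfb10299bd822d (k8 c556 c539 c372 c528 c595 c433 c454 c463 (k4 c246 i2044 c802 i986 (k2 i1611 c510 k0))) (by decide +kernel)
def c805 : PP 8 4 T 0x1000000000000000000000000000000000000200000000002400000000004805000 := rS 0x72c146064 (k4 c493 i970 c75 c450 (k1 c77 k0)) (by decide +kernel)
def c806 : PP 8 4 T 0x1200000000000080000000001000008010000000000000002400000000004005140 := rS 0x295560b60a8d96ad (k8 c488 c434 c69 c539 c404 i1636 i1364 i2027 k0) (by decide +kernel)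
def c807 : PP 8 4 T 0x4001000000000000080000000500010000410040550000000102400010001054055140 := rS 0x5593cce621818467154a24ccaad82394a6a960a8dfaae1fbc016a71e964fa235a95e2015 (k8 c709 c595 c64 c463 c454 c433 c507 c476 (k8 c496 c404 c540 c494 i2028 c503 c69 c539 (k8 c577 c528 c246 c77 c488 c75 c806 c804 (k8 c386 i1671 i1018 c510 c573 i1505 i1350 i537 (k1 c664 k0))))) (by decide +kernel)
def c808 : PP 8 4 T 0x4001001000000000000100000000000000000080450000000102000000000004000000 := rS 0x19e0a652a2549d1455434a66f (k8 c372 c528 c408 c748 c379 c427 c386 i759 (k4 i1659 c49 i1619 c532 k0)) (by decide +kernel)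
def c809 : PP 8 4 T 0x4001000000000000080000000500000010410040550000000102000010000054050100 := rS 0xc8403152a480ea3729f5822511ad620a1 (k8 c30 c595 c463 c454 c545 c539 c433 c246 (k8 c69 c378 c804 i1364 i1509 i2030 c510 i1611 k0)) (by decide +kernel)
def c810 : PP 8 4 T 0x1000000000000010000020480004000000000002000000002000000000004000000 := rS 0x8d8ca697c8b (k4 i556 i594 i1457 c394 (k2 i1034 c401 k0)) (by decide +kernel)
def c811 : PP 8 4 T 0x4001000000000000080000000500000010410040550000000102000000000054054100 := rS 0xbf5dd3d48c2559b686b85ea4d5a6935b2e080d220613e17238d1ca5712ad4467d881bd42c1518ed8ec5a2b455c3f7802d4e071eaa59215 (k8 c709 c459 c577 c476 c378 c496 c404 c540 (k8 c494 i2028 i591 c783 c547 c20 c443 c69 (k8 c539 c30 c372 c595 c433 c454 c463 c545 (k8 c64 c246 c809 i207 i1116 i1183 c461 c391 (k8 i481 c77 c434 c537 c63 c488 c806 i1986 (k8 i2044 c543 c810 c792 i2029 i2027 c428 i1944 (k2 i1451 c485 k0))))))) (by decide +kernel)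
def c812 : PP 8 4 T 0x1000000000000000000000000000000000000200000010002000000000004008000 := rS 0x32171208c6a56 (k4 c429 c544 i245 i502 (k2 i971 i348 (k1 c461 k0))) (by decide +kernel)
def c813 : PP 8 4 T 0x400000000000000001100000000000000400040514000000000000000000000002400000000004055540 := rS 0x29d5ebc7e2fe86a2a28f58e3f7830dc815 (k8 c709 c77 c444 c540 c494 c20 c11 c783 (k8 c338 c387 i1719 c546 c485 c503 i1984 i2028 k0)) (by decide +kernel)
def c814 : PP 8 4 T 0x1000000000000000400000510000010000000200000000002400000000004055140 := rS 0x5fa9e88bd51a5d3715a11805cfd052657719a7a787202220c586a560861c8171d8f58ec51b8fde0331ab3e0aab4e990ac15 (k8 c709 c429 c493 i2957 i1659 c75 c74 c544 (k8 c23 c540 c494 c594 c547 c20 c11 c443 (k8 c805 c77 c461 c0 c484 c444 c450 c391 (k8 c446 i2095 i2035 c529 c39 i1685 i1112 c813 (k8 c22 i302 i303 c546 c35 i1175 i1283 c387 (k4 c415 c85 c14 c44 (k1 i2036 k0))))))) (by decide +kernel)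
def c815 : PP 8 4 T 0x1000000000000000000000000000000000000000000000002020000000004000001 := rS 0x2e19 (k2 c587 i740 (k1 c461 k0)) (by decide +kernel)
def c816 : PP 8 4 T 0x1000000000000000000000000000000000000200000000002000000000004002000 := rS 0x190b8c00464 (k4 c493 i1492 i1491 i2671 (k2 c481 c461 k0)) (by decide +kernel)
def c817 : PP 8 4 T 0x1000000000000000800000500100000000000000000008002200000000004054140 := rS 0x1a61f508761aa65a02ca0af1e8fde015 (k8 c709 c540 c494 c11 i2324 i505 i619 i506 (k4 i2028 c377 i1229 i308 (k2 i1395 c496 (k1 c600 k0)))) (by decide +kernel)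
def c818 : PP 8 4 T 0x1000000000000000000000500000010000000250000010002000000000004050140 := rS 0x8a1bc5d0d28a8cf8ac60b2d122d18a9430447205c860d239041f0549ae4c8562a8046a33 (k8 c23 c544 c574 c589 c429 c493 c581 i1590 (k8 c75 c812 c815 i1578 c816 i441 c805 c77 (k8 c399 c461 c484 c450 c519 i231 c817 c0 (k8 c814 i1581 i1553 i1314 c57 i2033 c372 c379 (k1 c480 k0))))) (by decide +kernel)
def c819 : PP 8 4 T 0x1000000000000000000000000000000000000000000000002000000000004000802 := rS 0x1502c (k2 i560 i559 (k1 c466 k0)) (by decide +kernel)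
def c820 : PP 8 4 T 0x1000000000000000000000000000000000000004000000002000000000084000800 := rS 0x1122f8a980e403290b5a609 (k8 i88 c404 i1303 i237 i2116 c528 c593 c36 (k2 i1014 i1277 (k1 c548 k0))) (by decide +kernel)
def c821 : PP 8 4 T 0x1001000000000000000000000000000000000000000000000002000000500024000800 := rS 0x54a20e6d3 (k4 c404 i718 c548 c577 (k1 i277 k0)) (by decide +kernel)
def c822 : PP 8 4 T 0x1001100000000000000000800000000440000000001092000002000000000004000000 := rS 0x8ca65148d351a68b4f (k8 c471 c44 i2976 c550 i1965 i547 i1020 c40 (k1 c85 k0)) (by decide +kernel)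
def c823 : PP 8 4 T 0x1001000000002000000001540100140400000000001092000002000000000004054800 := rS 0x1194ca291a6a34aba8aa67eacc7e0d23b15863d63bc12e15 (k8 c709 i1283 c540 c20 c11 c444 c41 i304 (k8 i561 i400 i659 c22 i2036 c14 c371 i1926 (k4 i2029 i1965 i547 i1020 (k2 c40 c85 k0)))) (by decide +kernel)
def c824 : PP 8 4 T 0x1000000000000000000080020000008000000000080000002000000000004000000 := rS 0x46270d0ae (k4 i1560 i1559 i1639 i1624 (k1 i3106 k0)) (by decide +kernel)
def c825 : PP 8 4 T 0x1000000000000000001140100140000000000000200000002000000000004000800 := rS 0x53b147b44782bd7ec363845fab31f91c2615 (k8 c709 i307 i304 i400 i659 c22 i1764 i1562 (k8 i1828 i1568 i1926 c540 c371 c11 c547 c14 (k1 i2036 k0))) (by decide +kernel)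
def c826 : PP 8 4 T 0x1001000000000000040001000000000000000020050000000002000000000044000000 := rS 0x642e2f501b83b0d (k8 c57 i1233 c379 c600 c414 i969 i310 c461 k0) (by decide +kernel)
def c827 : PP 8 4 T 0x1000000000000000000000000000000000000080002000002000000000004000800 := rS 0x219143a1f291bc8201 (k8 c819 c815 i58 i1017 c820 c381 i565 i558 (k1 c399 k0)) (by decide +kernel)
def c828 : PP 8 4 T 0x1001100000000000000001011000000010000040004012004002000000000004008800 := rS 0x933b8b11e161781032032ca24127d0f9c5a6751291086533990402c9 (k8 i1126 c819 c815 c827 c528 i557 c399 i347 (k8 c429 c404 c469 i237 c826 i88 i1277 c568 (k8 i341 c446 c410 i1014 c461 c331 c548 c243 (k2 i1241 i2044 k0)))) (by decide +kernel)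
def c829 : PP 8 4 T 0x1000000000000000000000000000000800000000020000002200000000004000000 := rS 0x42207060b017 (k4 c88 i1025 c461 i603 (k2 i604 c446 (k1 i2122 k0))) (by decide +kernel)
def c830 : PP 8 4 T 0x1000000000000000400000020000010000010050024000002200000000004000000 := rS 0x5a1651e935c9dcfe5337944ea57 (k8 i1581 c429 i1313 c372 c528 i1556 c591 i1027 (k4 i1550 c829 c507 i2044 (k1 i1288 k0))) (by decide +kernel)
def c831 : PP 8 4 T 0x1000000000000000000001020000014400010050000000002000000000004000000 := rS 0xec673f94cde513a95d72c9 (k8 c459 i1290 i1581 c429 i1313 c372 c528 i1556 (k2 i1621 i2044 (k1 c502 k0))) (by decide +kernel)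
def c832 : PP 8 4 T 0x1001000000000000000001440120040000400000000002000002000000000004010800 := rS 0x4d99924e407ae5920d23c154a0936af4267f2b9bca2b52c994fa1f69910865320804e695559c4c6cb (k8 i620 i74 c469 i98 i1019 c827 c819 c815 (k8 c528 i557 c399 c404 i237 c826 c830 c568 (k8 i1288 i1313 c372 i1581 i1556 i307 i1291 i1702 (k8 i88 i1285 c488 i304 i561 c459 i1290 c828 (k4 c77 c831 i1282 i1449 (k1 c823 k0)))))) (by decide +kernel)
def c833 : PP 8 4 T 0x1100000000000000000000000000000800000000000014002400000001004000001 := rS 0xc8011500b11 (k4 c416 c331 c83 c410 (k2 i766 i1123 k0)) (by decide +kernel)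
def c834 : PP 8 4 T 0x1001000000000000000001440120040000000000000002000002000000000004000800 := rS 0x48a64f27b41a34b85b1326c203f4ba05fab7861bca217170b5248f1295e0a475a964ca44219040263659f43e5339a55567169a241215 (k8 c709 i88 i1277 c404 c469 i98 i1019 c827 (k8 c528 i237 c826 i620 i74 c819 c815 i557 (k8 c399 c830 c568 i1288 i304 c488 i1581 i347 (k8 c833 c831 i1241 c548 i2693 i1313 c372 c379 (k8 c541 c22 c765 i1283 i400 c832 i1449 i484 (k8 i1758 i483 i3042 i736 c551 c78 i1020 i733 (k1 i2045 k0))))))) (by decide +kernel)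
def c835 : PP 8 4 T 0x1001000000000000000001040120040000000000000002000002000000000004000800 := rS 0x4e1a9354f5f1a54a0936af52ec9332491e252bc148eb52c994884320804c6cb3e87ca6d339a555671 (k8 c469 i98 i1019 c827 c404 c528 i237 c826 (k8 i620 i74 c819 c815 i557 c399 c830 c568 (k8 i1288 i304 c488 i1581 i347 c833 c831 i1282 (k8 c459 i1283 i1291 i1702 i88 i1285 c825 c834 (k4 c471 c822 c550 i1450 (k1 i1908 k0)))))) (by decide +kernel)
def c836 : PP 8 4 T 0x1001000000000000000001000120040000000000000002000002000000000004000800 := rS 0xba332491eb52c9944a573e9103e43299cd2a7131b4c820123b2e0aab (k8 i98 c488 i620 i304 c819 c815 c404 i74 (k8 c469 i1019 c827 c528 i557 i237 c399 c826 (k8 i1581 i347 c830 c568 i1288 c833 c831 i1282 (k2 c835 c824 k0)))) (by decide +kernel)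
def c837 : PP 8 4 T 0x1001000000000000000000000000000000000000000005000002000000000004000800 := rS 0x435421d390b4a22f5434dfa1f3781006442194c8201 (k8 c819 c815 c593 i557 c399 i303 c410 c451 (k8 c820 c22 c404 c573 i316 c385 c466 c577 (k4 c821 i309 c534 c600 k0))) (by decide +kernel)
def c838 : PP 8 4 T 0x1001000000000000000000000020000000000000000001000002000000000004000800 := rS 0x9f0d289c9422e16aa4c4160c80ca6fd (k8 c22 c593 i303 c446 c461 c837 i97 i2826 (k4 i534 i822 i1079 i494 (k2 c534 i758 (k1 c427 k0)))) (by decide +kernel)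
def c839 : PP 8 4 T 0x1000000000000000000004000000500000501044292400002000000000004000000 := rS 0x122973da311671 (k4 c469 i1888 i1624 c570 (k2 i1284 i1032 (k1 i2045 k0))) (by decide +kernel)
def c840 : PP 8 4 T 0x1000000000000010000000000000002000000000000500002000000000004000000 := rS 0xb713 (k2 c390 i774 (k1 c492 k0)) (by decide +kernel)
def c841 : PP 8 4 T 0x1100000000000000000004000000501000505004002014002400100000004015800 := rS 0x2763bc052854396c27124529e3296388ac4a442194ce64100b15c815 (k8 c709 c77 c41 c819 c815 c827 c528 i557 (k8 c399 i347 i385 c469 i2045 c526 i1897 i1284 (k8 c500 i306 i1883 c32 c376 c560 c540 c20 (k2 c54 c724 k0)))) (by decide +kernel)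
def c842 : PP 8 4 T 0x1001000000000000000001000020040000000000000000000002000000000004000800 := rS 0x7666338d4c7781b4268a2d1e922694db44303961b1404e44f8b81e79330b5725d492051eb5861644a6f41994ae512f9f4887f0f90c22b74c94d60734aa24e2a931981a609208041a4765c155615 (k8 c709 i98 c488 i620 i304 i561 c819 c815 (k8 i88 c404 c838 i74 i96 c469 i1277 i1019 (k8 c827 c836 c528 i1826 i1824 i1762 i557 i237 (k8 i1556 c399 c826 i643 i1313 i1581 c830 i1296 (k8 c372 i347 c568 c379 i1288 c833 c2 c831 (k8 i1847 i130 i1241 i1282 c586 c828 c548 i3026 (k8 c77 i1014 c41 c444 i2095 i220 c505 i1298 (k8 c839 c840 c841 c551 c570 i1881 i556 c540 (k4 c20 i2029 i548 i1962 (k2 i1981 c499 k0)))))))))) (by decide +kernel)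
def c843 : PP 8 4 T 0x1001000000000010000000200000140000000054000500102000000000004000000 := rS 0x13e1a80489e56e534da0cf68b (k8 i1885 c570 i1296 i1298 c528 i1824 c586 c840 (k4 i2045 c2 i1276 c427 k0)) (by decide +kernel)
def c844 : PP 8 4 T 0x2001000000000000000000000200000000000000000000000002000000000004000800 := rS 0xe0f61af04004cb81169825fa9938a5da2043787ca65f2210c820128a842c19018bce615 (k8 c709 c36 c480 i302 c446 c461 i821 i494 (k8 c819 c815 c563 c399 i643 c528 i237 i969 (k8 c410 i651 c571 c412 c411 c22 i88 c404 (k8 i1762 c843 i1844 i1847 c540 c2 c11 c600 (k1 i1235 k0))))) (by decide +kernel)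
def c845 : PP 8 4 T 0x1000000000000040001000000010000000020000000000002000000000044000000 := rS 0x3b0d (k2 c57 i1233 (k1 c600 k0)) (by decide +kernel)
def c846 : PP 8 4 T 0x1000000000000000001000020040000000000000000000002000000000004000800 := rS 0x47ad4b2253295cfaa1220583e430c94c0663398bd26714ac520ad3208048ecb (k8 i620 i304 c819 c815 c404 c488 c842 c386 (k8 c412 c12 c480 c36 c80 i302 c528 c446 (k8 c563 i237 c461 c399 i821 c845 i1581 c830 (k4 i347 c568 i1288 c833 (k1 c831 k0))))) (by decide +kernel)
def c847 : PP 8 4 T 0x1000000000000000014000100000000400000000180204002600000000005045120 := rS 0x319e06b08b3c6e6d4816c5615 (k8 c709 i385 i55 c768 i515 i993 i1149 i524 (k4 i548 c540 i2029 c20 k0)) (by decide +kernel)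
def c848 : PP 8 4 T 0x1100000000000000050000000000000001000000000154002600000005004005000 := rS 0x52878917c5615 (k4 c709 i385 i643 c492 (k2 c32 c560 (k1 c724 k0))) (by decide +kernel)
def c849 : PP 8 4 T 0x2001100000000000000001001000050014400000050010004002000000000024800800 := rS 0x21c525a13b1de0112eb0d8a2134b3446852ab9155103303e87175c294fe097e8348ecb568ac88413e87da66f2886408032194cb2251a9dd920109ac4ea15 (k8 c709 c493 c844 i307 c819 c459 c243 i1116 (k8 i860 c507 c528 i557 i999 c410 i8 i494 (k8 c372 c404 i237 c845 c815 c399 i385 c846 (k8 i620 i304 i561 c22 i88 i720 i1381 i2044 (k8 c487 c543 c799 c532 c595 c546 c561 i1619 (k8 c6 c454 c555 i1662 c470 c41 c444 c847 (k8 i483 c540 c20 c54 c848 i1805 i777 i2032 k0))))))) (by decide +kernel)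
def c850 : PP 8 4 T 0x2001100000000000000001001000050014400000550000000002000010001014000800 := rS 0x8446e452c401f175c1fe180d23b2cfa1f29b4cde51 (k8 i494 c372 c404 c528 i237 c845 i620 i304 (k8 i561 c600 c408 i2044 c487 c799 c595 i361 (k4 c77 c454 c470 i2030 k0))) (by decide +kernel)
def c851 : PP 8 4 T 0x2001100000000000000001001000050014400000050010000002000000000004800800 := rS 0x22f115c158fe1c3e87ca6d3379444a353bb240275 (k8 c493 c819 c459 c243 i1116 i860 i494 c372 (k8 c404 c528 i237 c845 c850 i720 c849 i2044 (k2 c64 c487 (k1 c595 k0)))) (by decide +kernel)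
def c852 : PP 8 4 T 0x1000000000000000000001000000014400010550000008102000000000004000000 := rS 0xb88b1fe226f (k4 c372 c64 i1666 c595 (k2 i2044 c487 k0)) (by decide +kernel)
def c853 : PP 8 4 T 0x1000002000000001014000000000000001000000000081002000000041504040000 := rS 0x438a58e27 (k4 c54 c20 i1805 i777 (k1 i2032 k0)) (by decide +kernel)
def c854 : PP 8 4 T 0x1000000000000001014000000000000001000000000101002200000001504040000 := rS 0xa50f122d89d8ef00897c5615 (k8 c709 i385 i643 i483 c540 c20 c54 c853 (k4 c492 c32 c560 i2032 k0)) (by decide +kernel)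
def c855 : PP 8 4 T 0x1000000000000000001020100040000400000500500005002200000001005004820 := rS 0x18cf0088dcda902d97186c510b344685724428717698241a471584d4a15 (k8 c709 i361 i307 i385 i304 i561 i88 c404 (k8 c487 c543 c595 c561 c6 c454 c555 c470 (k8 c41 c444 c854 i55 c768 i515 i993 i524 (k2 c540 i2029 (k1 c20 k0))))) (by decide +kernel)
def c856 : PP 8 4 T 0x2001000000000000000001001000050014400000050010000002000000000004800800 := rS 0x4f869f9725734954d60f821d5fa44209f43ed33794432040190ca6253bb2402b1 (k8 c844 c819 c459 c243 i860 c528 i557 i999 (k8 c410 i8 i494 c372 c404 i237 c845 c815 (k8 c399 c22 c493 c851 c497 c537 c49 c63 (k4 c852 c855 i2044 c408 (k2 i759 c427 k0))))) (by decide +kernel)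
def c857 : PP 8 4 T 0x1000000000000000000000000000000000000200000010002400000000004801000 := rS 0xf (k2 c812 c805 k0) (by decide +kernel)
def c858 : PP 8 4 T 0x1000000000000001014000108000000401000000080005002600000001505005820 := rS 0x2e9a42609 (k4 i88 i307 i1662 c847 (k1 c854 k0)) (by decide +kernel)
def c859 : PP 8 4 T 0x400000000004001100000000000000414000010000000400100050010004102400000000104801800 := rS 0x468492c5d4cac0aaaa333f5525f22104de19318bda2040190ca625078d50a2366c40ea593bb240215 (k8 c709 c819 c459 c243 c507 c857 c595 c555 (k8 c454 c6 i1116 c272 i860 c528 i557 i999 (k8 c410 i651 i1079 i534 i8 c372 c815 c399 (k8 i643 c577 c22 c532 c546 i1619 c858 i1826 (k4 i1847 c843 c854 i1818 (k1 i267 k0)))))) (by decide +kernel)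
def c860 : PP 8 4 T 0x1000000000000000001021000050014400000050000000002000000000004800800 := rS 0x8d09258ba99581a4aa6b8230d8a2140b9218a56688d0b1507c40cb438bbf596ad5497c884137864c62f688100643128d4ae752c91c1a7764804fa1f29b4ca215 (k8 c709 i494 c404 c528 i237 c845 c819 c459 (k8 c243 i561 i304 c507 c857 c852 i1116 i860 (k8 i557 i999 c410 i651 i1079 i534 i8 c372 (k8 c815 c399 i643 c577 c846 i620 c22 c487 (k8 c543 i1027 c595 c272 c856 c6 c454 c555 (k8 i361 c379 c561 c2 c470 c41 c444 c859 (k8 c537 c49 c63 c855 i1826 i1847 c843 c854 (k2 i1818 i267 k0)))))))) (by decide +kernel)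
def c861 : PP 8 4 T 0x1000000000000040000000000050000000080000000000002000000000044000000 := rS 0x3b0d (k2 c408 i720 (k1 c600 k0)) (by decide +kernel)
def c862 : PP 8 4 T 0x1000000000000000001001000050014400000050000000002000000000004800800 := rS 0x1d4eeb92cb24020d239f4de513f87ca6d3 (k8 c404 c528 i237 c861 i494 c372 c845 i304 (k8 i561 c819 c459 c507 c860 c243 c857 i2044 k0)) (by decide +kernel)
def c863 : PP 8 4 T 0x1000000000000000000000100000000800000000000200002200000000005040100 := rS 0x1205b (k2 i55 c768 (k1 c778 k0)) (by decide +kernel)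
def c864 : PP 8 4 T 0x2000000000000001000000000000000000004000000141000105054000000002000000000004000000 := rS 0x1049b (k2 c419 i2045 (k1 c81 k0)) (by decide +kernel)
def c865 : PP 8 4 T 0x101000000000000000008000000000000000000000000000002000000011104000000 := rS 0x44e5 (k2 c444 c392 (k1 i250 k0)) (by decide +kernel)
def c866 : PP 8 4 T 0x11000000000000000001011000050000800000050000000002000000000004800800 := rS 0x13b4f3533e32c34d0a507122d9b55cc5a2adcf62763a7de091089e4ba6909af556bb40ac52e99a10709d1404bf5660d2397cfa6f289fc3ed30cb46231752b24423507964ca252210408032194c0215 (k8 c709 c819 c528 i557 i999 c410 c815 c399 (k8 c222 c829 c568 c753 i354 i726 i611 i361 (k8 c504 c416 i651 i8 c404 i237 c861 i494 (k8 c372 c845 i643 i304 i561 i659 c22 i88 (k8 c379 c427 c600 c602 c411 c571 c844 i1275 (k8 c490 c439 c415 i307 c825 c863 c586 i483 (k8 c840 c540 i1187 c20 c54 i713 i721 c864 (k8 c547 c371 i593 i1922 c492 c579 c560 i2045 (k4 c865 c394 i1151 i2029 (k2 c513 i1908 (k1 c566 k0))))))))))) (by decide +kernel)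
def c867 : PP 8 4 T 0x1000000000000000000000010000000800000000800001002200000000005040100 := rS 0x174acb182c44b265 (k8 c829 c568 c416 c537 i1967 c83 c863 i507 k0) (by decide +kernel)
def c868 : PP 8 4 T 0x1000000000000010000000400000800040000000000000002000000000004000000 := rS 0x11b19 (k2 c394 i1034 (k1 c401 k0)) (by decide +kernel)
def c869 : PP 8 4 T 0x1000000000000010000000100000080040000000000000002000000000004000000 := rS 0x11b19 (k2 c526 i1817 (k1 c401 k0)) (by decide +kernel)
def c870 : PP 8 4 T 0x1000000000000040000000000000200010000000000000002000040400004000000 := rS 0x5b15 (k2 c411 i980 (k1 c548 k0)) (by decide +kernel)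
def c871 : PP 8 4 T 0x21000000000000000014000100000000800000054500000002400000000004841800 := rS 0x5b89a0932974da2cf66c1b89d8e9f7824422792eb4c12b344aa4be1917b441e593289488410200c865300a056e15 (k8 c709 c541 c2 c819 c528 i557 i999 c410 (k8 c815 c399 c222 c829 c568 c753 i651 i1079 (k8 i8 i643 c577 i277 i659 i88 c404 c863 (k8 c586 i483 c840 c540 i1187 c20 c54 c594 (k8 i2029 i713 i556 c868 c869 c870 i2045 c579 (k2 i776 c492 k0)))))) (by decide +kernel)
def c872 : PP 8 4 T 0x1000000000000000000000200000000000100050000000102000000000004840800 := rS 0x3d4b0b1e05d8a84532d304bf512a92f910826f17b4408032194c0215 (k8 c709 c819 c528 i557 i999 c410 i651 i1079 (k8 c372 c815 c399 i643 c577 i277 c22 i88 (k8 c404 i1826 i1762 c844 i1847 c540 c548 c843 (k2 c11 i1243 k0)))) (by decide +kernel)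
def c873 : PP 8 4 T 0x1000000000000000001000100140000000000000200000002000000000004000800 := rS 0xa22e95ebd7eacd5a15 (k8 c709 c846 i659 c22 i1834 i1927 c825 c371 (k1 c51 k0)) (by decide +kernel)
def c874 : PP 8 4 T 0x1000000000000000000000000000000000000000000500002000000020004040000 := rS 0xb713 (k2 c560 i1805 (k1 c492 k0)) (by decide +kernel)
def c875 : PP 8 4 T 0x21000000000000000001000000040000800000050000000102000000000004840800 := rS 0x3098a2934bc0225d589ac120d23ab4be6f0cc454a55648846a0f2c9944a44208100643298050215 (k8 c709 c2 c819 c528 i557 i999 c410 c815 (k8 c399 c222 c829 c568 c753 i354 i726 i611 (k8 i766 i361 c416 i8 c372 i643 c846 i304 (k8 i561 i88 c867 c872 c863 i483 c540 c873 (k4 c874 c547 c871 c865 k0))))) (by decide +kernel)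
def c876 : PP 8 4 T 0x1000000000000000000000000000000000000050000000102000000000004880800 := rS 0x13297582bd185d04bf5525f22104de6317b4408032194c0215 (k8 c709 c819 c528 i557 i999 c410 i651 i1079 (k8 i534 c372 c815 c399 i643 c577 c22 i88 (k4 i1844 i267 i1921 i307 (k2 i1818 c283 (k1 c843 k0))))) (by decide +kernel)
def c877 : PP 8 4 T 0x1000000000000000001001000050000800000050000000002000000000004800800 := rS 0x2e2850d889f4fe1f29b4c2651 (k8 i494 c876 c404 c528 i237 c861 c845 c416 (k4 c875 c602 c866 c543 k0)) (by decide +kernel)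
def c878 : PP 8 4 T 0x1000000000000040001000000000008010000000000000002000000400004000000 := rS 0x5b15 (k2 c12 i1241 (k1 c548 k0)) (by decide +kernel)
def c879 : PP 8 4 T 0x1000000000000000000006100000050400150154000100002000000000004840800 := rS 0x1774f4f2f57e9a41c48b6aea2a64f63713bc122113cb4dfab344aa4be44208bda2040190ca74367ae62d113bb240215 (k8 c709 c819 c459 c243 c463 c595 c487 c420 (k8 c580 c528 i557 i999 c410 i651 i1079 c815 (k8 c399 i643 c577 i277 i659 c22 c404 c586 (k8 i483 c840 c540 c54 c594 i713 c870 c864 (k8 c371 i1922 c492 c579 i2045 i1455 i1417 c229 (k2 c529 i1685 (k1 c485 k0))))))) (by decide +kernel)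
def c880 : PP 8 4 T 0x1001000000000000000001000000050010400000050000000002000000000004800800 := rS 0xaf053531de06d08a299a3746c65205b2e30d8a0f4b9a5c82158a956e81300b218097e97c5644209f4de7f0f864c6d10200c8653099444b432ab2cceb98b445689317a2552d33a9648e0d3bb240215 (k8 c709 c819 c459 c243 i561 i304 c507 c857 (k8 c404 c577 i277 i1079 c878 c862 c463 c595 (k8 c487 c486 i620 i768 c580 i860 i494 c876 (k8 c528 i557 i999 c410 i651 i534 i8 i237 (k8 c861 c372 c845 c815 c399 i385 i643 c22 (k8 i88 c379 c548 c573 c2 c541 i1383 c872 (k8 i728 c561 c873 i1283 c732 c41 c444 c879 (k8 i55 c768 c50 i1032 i993 i892 c401 i524 (k4 i555 c540 c20 i2029 (k2 c537 i508 (k1 c83 k0))))))))))) (by decide +kernel)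
def c881 : PP 8 4 T 0x101000000000000001000000000000000000000000800011002000000000004000000 := rS 0xaf05 (k2 c537 i508 (k1 c83 k0)) (by decide +kernel)
def c882 : PP 8 4 T 0x101000000000000000000000000000000000000000000011002000000001004008000 := rS 0xaf05 (k2 c497 i502 (k1 c83 k0)) (by decide +kernel)
def c883 : PP 8 4 T 0x1000000000000000000002100000050400151156000000002000000000004840800 := rS 0x11946a40b65c5ba2d76095991082196881006432999e2d113bb240215 (k8 c709 c819 c459 c243 c463 c595 c486 c528 (k8 i557 i999 c410 i651 i8 c815 c399 i659 (k8 i88 i1682 i555 i887 c879 i55 c768 i1845 (k2 c50 c401 k0)))) (by decide +kernel)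
def c884 : PP 8 4 T 0x101000000000000000000000100000000400000000800001002200000000005000100 := rS 0x17122566616e0a59 (k8 c507 c537 i1963 c881 c83 i892 i507 c768 k0) (by decide +kernel)
def c885 : PP 8 4 T 0x1000000000000000014002100000050400150054500000002400000000004855800 := rS 0x3c9b06ec7781d4b215 (k8 c709 c507 c857 c540 c20 c594 i2029 i972 (k1 c883 k0)) (by decide +kernel)
def c886 : PP 8 4 T 0x1000000000000000001000000050010400000050000000002000000000004800800 := rS 0x48970b626081ad8a6961b914a0f40ac52f142ad0e22b41296412fd0691d9644209f4de7f0f86476040190ca60109945262f44aa5a615 (k8 c709 c404 c577 i277 i1079 c878 i494 c876 (k8 c819 c528 i557 i999 c410 i392 i8 i237 (k8 c861 c372 c845 c815 c399 i620 i304 i561 (k8 c22 i88 c507 i860 c862 c463 c580 i768 (k8 c880 c571 c844 c765 c882 i361 c561 c444 (k8 c873 c41 c884 c885 i484 i1758 i483 i734 (k1 c768 k0))))))) (by decide +kernel)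
def c887 : PP 8 4 T 0x1000000000000000001000000050000800000050000000002000000000004800800 := rS 0x2265b412b9374545adcf66c13b1d3ef061b1522113c9a5c85d52a0562974c9ac1e1c27450ab432cc35682532b4c12fd598348ecb5687cbe44209bc32d10200c86530084ca215 (k8 c709 i494 c876 c819 c528 i557 i999 c410 (k8 i651 i8 c372 c815 c399 i643 i237 c846 (k8 i620 i304 i561 i659 c22 i88 c404 c829 (k8 c222 c877 c875 c568 c580 i768 c379 c427 (k8 c600 c753 c867 c411 c571 c844 i1275 i361 (k8 c863 c561 c873 c586 i483 c840 c41 c444 (k8 c540 i1187 c20 c54 i2029 i713 i721 i556 (k4 c864 c868 c371 i2045 (k2 i1922 c579 (k1 c492 k0)))))))))) (by decide +kernel)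
def c888 : PP 8 4 T 0x1000000000000000001000000050000000000050000000002000000000004800800 := rS 0x16c55288f17b4d12a9 (k8 c577 i277 c404 i1079 c887 c886 c386 i979 (k1 c548 k0)) (by decide +kernel)
def c889 : PP 8 4 T 0x11001000000000000000000000000000501040001054002000002000000000004000000 := rS 0x28a973da056f0c (k4 c379 c541 c2 c570 (k2 i1284 c864 (k1 c85 k0))) (by decide +kernel)
def c890 : PP 8 4 T 0x1000000000000004014400018001000000000054042000002400114800006051000 := rS 0xa2a5d5cb1351b5149934c64f29e4da458e3b780c5a2378a83c0415 (k8 c709 c446 i340 c35 c442 c505 c481 c540 (k8 c443 c20 i1168 i1175 i2035 c426 c39 i1566 (k8 i1113 c889 i555 i2029 i1967 i585 i1283 c468 (k1 c85 k0)))) (by decide +kernel)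
def c891 : PP 8 4 T 0x1000000000000000000000000000000000000054000000002000000000006020800 := rS 0x1327b3ca0d3697488f0b62653ac45209038fc8843299040237302056f0c8a8b80415 (k8 c709 c446 i302 c35 c379 c541 c2 i303 (k8 c442 c819 c815 c528 i557 c399 i400 i4 (k8 i88 i1836 i1762 i1913 i484 i1758 i563 i1169 (k4 i1283 i1176 i736 i1767 (k2 c551 i1785 (k1 i2045 k0)))))) (by decide +kernel)
def c892 : PP 8 4 T 0x1000000000000010000000000000000000000050004000102000100000004080800 := rS 0x994bac15ea62e825faa92f910865320804de15 (k8 c709 c372 c819 c815 c528 i557 c399 i643 (k8 c577 c22 i88 i1844 i306 i1921 i307 i1897 (k2 c283 c843 k0))) (by decide +kernel)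
def c893 : PP 8 4 T 0x1001000000000010000000200000140000100050000400102000000000004000000 := rS 0xba6f (k2 c372 i1847 (k1 c843 k0)) (by decide +kernel)
def c894 : PP 8 4 T 0x1000000000000044005400018140040000000054042000002400104800006051000 := rS 0x4ac5d38357250e2ab949b15e015 (k8 c709 c540 c547 i1281 i1138 c35 c439 c561 (k4 c453 c890 c552 i1678 (k1 c472 k0))) (by decide +kernel)
def c895 : PP 8 4 T 0x1000000000000004005400100050040400000050040000002000000000004000800 := rS 0x1146c4f194d69d1a83e09162ad0e22b43aa5556097e81d660d23b2cfa7f0fb4c623719895722e499815a3b63b15e0133181472442194c820168844de512c9a54a020c05cee15 (k8 c709 c502 c888 c461 c446 i2213 c873 c507 (k8 i494 c372 c891 c505 c819 c815 c528 i557 (k8 c399 i2095 c509 i533 c892 c540 c547 c20 (k8 c443 c846 i303 i1281 i302 i1138 i2207 i2094 (k8 c442 c481 c404 i237 c861 c845 i620 i304 (k8 i561 i659 i4 c22 i88 c894 i1019 c818 (k8 i2044 c463 c580 i768 c595 c546 c882 c506 (k4 c552 c537 c75 i2035 (k2 i2029 c187 (k1 i555 k0)))))))))) (by decide +kernel)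
def c896 : PP 8 4 T 0x1001000000000000008000010000000004400050454002000002000000000004000000 := rS 0xb4a1254eb17 (k4 c420 c74 i2697 c472 (k2 i2044 c580 k0)) (by decide +kernel)
def c897 : PP 8 4 T 0x800000000000001000000000000000000010100000004400050454000000002000000000004050800 := rS 0x3aad52a0903accb215 (k8 c709 c507 i659 i4 i88 c66 c580 c818 (k1 i2044 k0)) (by decide +kernel)
def c898 : PP 8 4 T 0x1000000000000000001000000050140400000050040000002000000000004000800 := rS 0x4f4613b455f30c6ae4a1b3cee7d3f87da6311b8cd4ab9499815ac762a6c76f00998c0a3908ac5030c8a8b8046f688602e512f910865320805fa15 (k8 c709 c22 c819 c815 c528 i557 c399 i643 (k8 i494 c888 c461 c505 c372 c446 i302 c35 (k8 c379 c2 c893 c891 i2095 c509 i533 c892 (k8 c540 c443 i1175 c547 c20 c846 i303 i1281 (k8 i1138 i2213 i2094 c442 c481 c404 i237 c861 (k8 c845 c502 c896 c897 c561 c453 c444 c895 (k4 c44 i1646 c85 i2035 (k1 c39 k0)))))))) (by decide +kernel)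
def c899 : PP 8 4 T 0x1001100000000000000000800104000440000000000082000002000000000004000800 := rS 0x2b8d9457eaccca15 (k8 c709 i38 i659 c22 c44 c822 c371 i593 k0) (by decide +kernel)
def c900 : PP 8 4 T 0x1000000000000000001000000050140400000050000000002000000000004000800 := rS 0x28aaf531b17ec372414a8765eaad77424a83ccb17332c5fab31f8348e5f3e9fc3ed352ae5266056a0619151eb1d8a9b1dbc02663028e488432990402d1089bca22e010602e15 (k8 c709 c888 c461 c446 i302 i494 c372 c891 (k8 c505 c819 c815 c528 i557 c399 i2095 c509 (k8 i533 c892 c540 c443 i1175 c547 c20 c11 (k8 c35 c379 c2 c846 i303 i1281 i1138 i2213 (k8 c404 i237 c861 c845 i643 i304 i561 i400 (k8 i659 c22 c893 c898 c486 i38 i541 i1674 (k8 c472 c490 c439 c415 c897 c445 c49 c77 (k4 c444 c899 c823 i2036 (k2 i594 c14 (k1 c371 k0)))))))))) (by decide +kernel)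
def c901 : PP 8 4 T 0x1001000000000000000000010180000004440050054180000002400000000004051810 := rS 0xe582b08a86d3b2ae846b4a83e2e6363b15e015 (k8 c709 c540 c547 c20 i533 c486 i541 i1674 (k8 i547 c472 c439 c897 i593 c445 i2029 c49 (k2 c444 c77 k0))) (by decide +kernel)
def c902 : PP 8 4 T 0x1000000000000000001000000050200400000050000000002000000000004000800 := rS 0x618d5c943679dcce694fa755cb145bf41a47549f4fe1f698c46e3352c55722e499815a3b63b15e0133181472022210ca64100b4422180b9bca215 (k8 c709 i494 c372 c888 c461 c891 c505 c819 (k8 c815 c528 i557 c399 c446 i2095 c509 i533 (k8 c892 c540 c547 c20 c443 c846 i303 i1281 (k8 i302 i1138 c35 i2213 i2094 c442 c481 c404 (k8 i237 c861 c845 c577 i304 i561 c22 i1939 (k8 i1826 c283 i1943 i2699 c873 c901 c502 c896 (k4 c897 c561 c453 c444 (k1 i2035 k0)))))))) (by decide +kernel)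
def c903 : PP 8 4 T 0x400000000000001000000000000000001000000140000080000001400000002000000000004050800 := rS 0x1549c32414d0c307b91a6fd0691d96ad63b15e015 (k8 c709 c540 c547 c20 c846 i620 i304 i561 (k8 c22 c404 c561 c409 c444 i2029 c63 i1888 (k2 i1887 c546 (k1 i2992 k0)))) (by decide +kernel)
def c904 : PP 8 4 T 0x1000000000000000001000000050000400000050040000002000000000004000800 := rS 0x10c4446e53a3096a955eaee846d3b8fcfa7f0fb4c62a512ae47ac762bc022a7452fd266b568a4bab04b264c081864545c6f0998c0a390134430172897c8843299040215 (k8 c709 c819 c815 c528 i557 c399 i643 i494 (k8 c888 c461 c505 c446 i2095 c509 i533 c892 (k8 c372 i302 c35 c379 c2 i303 c902 c900 (k8 i1283 i1847 c874 c846 i1967 i1281 i1377 i1284 (k8 i1897 c891 c540 c547 c20 c11 i1138 i2207 (k8 i2213 c481 c404 i237 c861 c845 i400 c502 (k8 i555 c903 c490 c415 c66 c580 i2036 i2044 (k4 c444 i250 c368 i1499 (k1 c392 k0))))))))) (by decide +kernel)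
def c905 : PP 8 4 T 0x1000000000000000001000000050000400000050000000002000000000004000800 := rS 0x1042a394ecc25aaf577424a83e2e75332fd4e964c8fc1a473e9fc3ed352c55722e499815a3d63b15e0133181472022210ca64100b4422180b9bca215 (k8 c709 i494 c372 c888 c461 c891 c505 c819 (k8 c815 c528 i557 c399 c446 i2095 c509 i533 (k8 c892 c540 c547 c20 c11 c846 i303 i1281 (k8 i302 i1138 c35 i2213 c404 i237 c861 c845 (k8 i304 i561 i400 c902 c900 i1897 i1377 c904 (k8 c460 c486 i541 i1674 c472 i1904 c415 c580 (k4 i2036 i2044 c444 c445 (k2 c77 c49 k0)))))))) (by decide +kernel)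
def c906 : PP 8 4 T 0x1000000000000000001000000050000000000050000000002000000000004000800 := rS 0x2c68a994b9ed5e8b4e9b186293c974d26b822adca0fa10d042654ac5e22874fa3922c5638ede01308add030c49ae62a63129805c3902b4404180b9bca2fd598348ead5497c8843299040215 (k8 c709 c819 c815 c528 i557 c399 i643 c577 (k8 c846 i304 i561 i659 c22 i494 c372 c888 (k8 c461 c446 c505 c509 i2095 i302 i303 i2207 (k8 i533 c35 i1138 i1281 c379 c2 c541 c891 (k8 c892 c540 c443 c20 c547 i1168 c905 i1187 (k8 i931 c416 c504 i2762 c829 i725 i1130 c472 (k8 i341 c453 c439 c77 c537 c63 c754 c586 (k8 c874 c865 i2029 i1643 i556 i593 i879 i1284 (k4 c283 c864 c893 c371 k0))))))))) (by decide +kernel)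
def c907 : PP 8 4 T 0x1000000000000000000000000020000000000040000000002200000000004000000 := rS 0x642e03 (k4 i2185 i821 c446 c461 k0) (by decide +kernel)
def c908 : PP 8 4 T 0x1000000000000000001000000040000000000040000000002000000000004000800 := rS 0x180185cc2705091112435494c8201 (k8 c819 c815 c528 c577 i557 i277 c399 c907 (k4 c906 c469 i710 i303 (k2 c461 c446 k0))) (by decide +kernel)
def c909 : PP 8 4 T 0x1000000000000000000000000000000000000080000000002000000000004000800 := rS 0x280702c4f17064c4530f9861b15389bdfa07 (k8 i4 c22 i58 i78 c36 c534 c827 c820 (k8 c593 c837 i1092 i534 i1350 c461 i1080 c427 (k1 i1229 k0))) (by decide +kernel)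
def c910 : PP 8 4 T 0x2011200000000000000055000000000000400000010000000002000000000005010800 := rS 0x19a232ea14af10362d4be6f06d0cfa1f1284c8e03498bd12a969a5d02b13a8c52a77648581e6b34884fe552714542442190402537ea88e615 (k8 c709 c909 c908 c22 c528 c819 c815 i557 (k8 c399 c907 i494 c427 c49 i759 i1649 c63 (k8 c537 c497 c461 c459 c243 c386 i1651 i970 (k8 c844 c765 c571 c404 c577 i277 i1079 c878 (k8 i220 c720 c876 i324 i237 c845 c387 i561 (k8 c372 i643 c885 i2029 c602 c852 i1604 i515 (k2 c454 c555 (k1 c854 k0)))))))) (by decide +kernel)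
def c911 : PP 8 4 T 0x1000000000000000000000100000000000000000000000002000000000005020800 := rS 0x244b85b130247604019108653399040215 (k8 c709 c819 c815 c909 c528 i557 c399 i220 (k8 c410 i392 i88 i484 i1758 i483 i734 c768 k0)) (by decide +kernel)
def c912 : PP 8 4 T 0x1000000000000000000000000080000000000000000010082000000001004008000 := rS 0x2188ad194a5 (k4 i93 i323 i1389 c463 (k2 i728 c732 k0)) (by decide +kernel)
def c913 : PP 8 4 T 0x2111000000000000000005000000000000400000010000000002000000000005000800 := rS 0xd6b4049bcfa954ba04d2553f885c80d0e34c3eaa6583cb24e12ab48e037ec158ec57804562130b14542442194c8201a1a88e615 (k8 c709 c909 c908 c387 c819 c815 c528 i557 (k8 c399 c907 i494 c461 c876 c844 c911 c540 (k8 c547 c20 c910 c22 i220 c720 i1553 i324 (k8 c427 i871 c912 i619 c546 i237 c404 c600 (k8 i561 c77 c470 i719 i1657 i1662 c765 c571 (k4 c386 c845 c372 i88 (k2 c602 c884 (k1 c885 k0)))))))) (by decide +kernel)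
def c914 : PP 8 4 T 0x2011000000000000000005000000000000400000010000000002000000000005000800 := rS 0x22cb82bad6207f3288554e43bc15926f06d0cfa9317a2552813a8c52ac762bc022b10985838d30fb2c1e595691c064e28bf44aa12210ca64100a88e615 (k8 c709 c909 c908 c819 c815 c528 i557 c399 (k8 c907 i324 c22 i494 c427 i220 c720 i1553 (k8 i871 c912 i619 i237 c404 c600 c461 c876 (k8 c844 c911 c540 c547 c20 c386 i1651 i970 (k8 c765 c577 i277 i1079 c878 c845 c387 i561 (k8 c372 c459 c910 c243 c77 c546 c470 i1659 (k4 i719 c913 c463 c64 (k2 i2044 c859 (k1 c487 k0))))))))) (by decide +kernel)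
def c915 : PP 8 4 T 0x2011000000000000000005000000000000000000010000000002000000000005000800 := rS 0xda6957514d6912a9751c095997cde0d68a652e8162afd8e7b3c8dd6e277804562130b071a61f6483cb2ad23938a2fd12a854404019108653399040215 (k8 c709 c819 c815 c909 c528 i557 c399 i220 (k8 c410 c908 c907 i324 c22 i494 c427 c720 (k8 i1553 i871 c912 i611 i237 c404 c600 c461 (k8 c876 c844 c911 c540 c54 i721 c594 i972 (k8 i713 c20 i1719 c547 c765 c571 c411 i651 (k8 i561 c372 i643 i659 i88 c914 c863 i766 (k4 c840 c867 c864 c371 (k2 i1927 i594 (k1 i2029 k0))))))))) (by decide +kernel)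
def c916 : PP 8 4 T 0x2011000000000000000001000000000000000000010000000002000000000005000800 := rS 0xae35d1608a65e395840f2c939fab3288344aa15691c06442194c8201511cd6215 (k8 c709 c844 c909 c908 c819 c815 c528 i557 (k8 c399 i220 c720 i1553 c907 i324 i561 i494 (k8 i659 c22 c427 i871 c912 c915 c444 i329 (k4 i328 c77 c14 c537 (k2 c371 i1986 k0))))) (by decide +kernel)
def c917 : PP 8 4 T 0x1000000000000000009000100000000000000000000000002400000000004004800 := rS 0xae35d1608a65e395fab306a88e615 (k8 c709 c909 c908 i561 i659 c22 c444 i329 (k4 i328 c77 c14 c537 (k2 c371 i1986 k0))) (by decide +kernel)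
def c918 : PP 8 4 T 0x1000000000000000004400090000000000000000400000002400000000004055000 := rS 0xda6963b15e015 (k4 c709 c540 c547 c20 (k2 i1927 i594 (k1 i2029 k0))) (by decide +kernel)
def c919 : PP 8 4 T 0x2001000000000000000001000000000000000000010400000002000000000005004800 := rS 0x15cd8b534a3d145c46c65214457accbe6f069f43e9317a2552d3688115a994ba05fa7518a558abf639ec4e791bbc0221328a856e77109fe18a20b30d6247019108653399040215 (k8 c709 c819 c815 c909 c528 i557 c399 i220 (k8 c720 c844 c917 c461 c908 c916 c408 i1649 (k8 i711 c541 c907 i494 c876 c911 c540 c594 (k8 i972 c54 i713 c20 i1719 c547 c386 i1651 (k8 i970 c22 c765 c571 c411 i1553 c410 i651 (k8 c404 c577 i277 i1079 c878 i237 c845 i561 (k8 c372 i643 i659 c918 c371 c864 c50 i1032 (k8 c840 c401 c778 c796 c885 i2029 c852 i515 k0)))))))) (by decide +kernel)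
def c920 : PP 8 4 T 0x2001000000000000000001000000000000000000010000000002000000000005004800 := rS 0x8b2e0aeb58823caa6555414d4c365824de0da19f43e9317a2552d35691c06817e9d4629562bc022b10994542442194c82013b884ff0c511cc2c15 (k8 c709 c461 c909 c908 c916 c408 i1649 i711 (k8 c819 c815 c528 i557 c399 c907 i494 c876 (k8 c844 c911 c540 c547 c386 i1651 i970 c22 (k8 c765 i220 c720 i1553 c404 c577 i277 i1079 (k8 c878 i237 c845 c387 i561 c372 i88 i619 (k8 c917 c919 c537 c546 i1659 i1657 c867 c884 (k4 c463 c64 i2044 c859 (k1 c487 k0)))))))) (by decide +kernel)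
def c921 : PP 8 4 T 0x1000000000000000001000000000010400040510000000002000000400004008800 := rS 0x5cad62d1019965926f289f43e2550910865320805268954b4c6a3110a88e6e5 (k8 c409 c909 c908 i1649 i1651 i326 c404 c577 (k8 i277 c878 c819 c815 c528 i557 c399 c907 (k8 i324 i237 c845 i494 c372 c459 c507 i285 (k4 c732 c510 c463 c487 (k1 i2044 k0))))) (by decide +kernel)
def c922 : PP 8 4 T 0x2001000000000000000001000000000000000000010000000002000000000005000800 := rS 0x2c1951c0e3b884ff0c3a8c52a2550a885e160200c8843299cc8201 (k8 c819 c815 c909 c528 i557 c399 i220 c410 (k8 c461 i1079 c908 c907 i324 c386 i1651 i970 (k8 c916 c408 i1649 i711 c920 c921 c829 c753 (k1 c568 k0)))) (by decide +kernel)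
def c923 : PP 8 4 T 0x1000000000000000001000000000000000000010000000002000000000005008800 := rS 0x8f4a9d4c8ab2bb294a253fc30de51509dd92608a98c5efd54ab48e032210ca641511cc2c01 (k8 c819 c461 c909 c908 c815 c528 i557 c399 (k8 i220 c720 i1553 c577 c22 i1079 i534 c922 (k8 c573 i1127 c243 c907 i494 c372 c379 c408 (k8 i324 i93 i323 i502 i580 i1392 c429 i1019 (k2 c829 c921 k0))))) (by decide +kernel)
def c924 : PP 8 4 T 0x400000000000001001000000000000400000010000010000000000020000002000000000004000000 := rS 0x15705 (k2 c75 i1659 (k1 c546 k0)) (by decide +kernel)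
def c925 : PP 8 4 T 0x1200000000000000001000000000010400000010000000002000000000005000800 := rS 0xba902bd10d8b5579a4d6b32f9f43e9368810feb73bb255a973018dfac55fb1d447b139e53237780445e8954b4cea0d6183d628186454de130b1454247019108653399040215 (k8 c709 c819 c815 c909 c528 i557 c399 i220 (k8 c720 c907 i494 c461 c876 c372 c922 c379 (k8 c2 c872 c923 c917 i561 c805 c404 c577 (k8 i277 i1079 c911 c540 c594 c870 i972 c54 (k8 i713 c908 c20 i1719 c547 c22 i534 c573 (k8 i1283 i1553 i1127 c243 c541 c408 c410 i651 (k8 c878 i237 c845 i643 i659 c537 c63 c918 (k4 c885 i2029 c371 c852 (k2 c864 i515 (k1 c840 k0)))))))))) (by decide +kernel)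
def c926 : PP 8 4 T 0x1000000000000000001000000000010400000010000004002000000000005000800 := rS 0x5aae621163e87d268969884eec93018c5ea962bc022593a83586b14084c2c652aaaa0aad2380dfacb07d0d447f86454de5150910865320804e615 (k8 c709 c909 c819 c815 c528 i557 c399 c907 (k8 i494 c372 c922 c379 c408 c908 c387 c923 (k8 i619 c22 i220 c720 i1553 c925 c546 i1657 (k8 c924 c461 c876 c2 c872 c917 i561 c805 (k8 i603 c911 c540 c547 c577 i1079 i534 c573 (k8 i1127 c243 i1649 c404 i277 c878 i237 c845 (k4 c859 c83 c487 c463 (k1 i2044 k0)))))))) (by decide +kernel)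
def c927 : PP 8 4 T 0x1000000000000000001000000000010400000010000000002000000000005000800 := rS 0x35ad222562a9a5550504d0cfa1f49a25a67f3bb255aa24b980c62f7eaa58af008b2cea0d6183d628186454de130b1454247019108653399040215 (k8 c709 c819 c815 c909 c528 i557 c399 i220 (k8 c720 c907 i494 c461 c876 c372 c922 c379 (k8 c2 c872 c923 c917 i561 c805 i619 c911 (k8 c540 c547 c577 c22 i1079 i534 c573 i1283 (k8 c908 i1553 i1127 c243 c408 c404 i277 c878 (k8 i237 c845 c387 i88 c925 c546 i1662 i1657 (k4 c926 c64 c852 c884 (k1 c885 k0)))))))) (by decide +kernel)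
def c928 : PP 8 4 T 0x1000000000000000000000000000020000000000002000002400000200004005000 := rS 0x82b94c830 (k4 i978 i1018 c450 c75 (k1 c77 k0)) (by decide +kernel)
def c929 : PP 8 4 T 0x1000000000000000001000000000000000000010000000002000000000005000800 := rS 0x57d14d6912a9751c956183d32793dafc6e2763bc0229758b256e81300b2191556b44c6470204c5e030b34c12fd59a25525f3794542442194c820106a88e615 (k8 c709 c909 c908 i561 c819 c815 c528 i557 (k8 c399 c907 i494 c372 i643 c577 i277 i659 (k8 c22 i88 c404 c461 i220 i1079 c876 c410 (k8 c720 i534 i651 i1553 c922 c379 c548 c573 (k8 c2 c541 i1127 c872 i1283 c911 c540 c20 (k8 c54 c594 i1719 i713 i972 c870 c923 c917 (k8 c928 c927 c863 i766 c840 c867 c864 c918 (k1 c371 k0)))))))) (by decide +kernel)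
def c930 : PP 8 4 T 0x1000000000000000001000000000010800000010000000002400000000004000800 := rS 0x145589ed2e9d4c9b15ec3149e4ba6935c11ca0f5c21c68658bc45fab35497c1b4312a4c66815bb14427f864545c911dafd8ef00998c0a390134422183794542442194c820156a88e615 (k8 c709 c909 c908 i1553 c819 c815 c528 i557 (k8 c399 c907 i494 c372 c929 c891 c505 c446 (k8 i2095 c509 i533 c892 c540 c20 i1719 c443 (k8 i1168 i302 c35 c379 c408 i1649 c547 c541 (k8 c2 i2094 i1633 i324 c387 i561 i643 c577 (k8 i659 c22 c416 c504 c829 i1130 i931 c472 (k8 i341 c453 c77 c537 c63 c754 c586 c874 (k8 c865 c918 i2029 c283 i1643 i1410 i879 c893 (k2 c864 c371 k0))))))))) (by decide +kernel)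
def c931 : PP 8 4 T 0x400000000001001000000000000010004000000000414000008000410000002400000000004055000 := rS 0x22eb9332769e6c34b3d151963b15e015 (k8 c709 c540 c547 c20 c435 c570 i1978 i1888 (k4 i2029 c59 i1643 i555 (k2 c771 c486 (k1 c472 k0)))) (by decide +kernel)
def c932 : PP 8 4 T 0x1000000000000000000000000000014400410112000240002000000000004000800 := rS 0xb43ba18ac5528a848843299040273 (k8 c909 c819 c815 c528 i557 c399 c907 i494 (k4 i1698 i515 i516 c445 (k2 c852 i933 k0))) (by decide +kernel)
def c933 : PP 8 4 T 0x400000000000001001000000000000400000110000000000000000200000002000000000004000000 := rS 0x15705 (k2 c63 i1662 (k1 c546 k0)) (by decide +kernel)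
def c934 : PP 8 4 T 0x1000000000000000005000100000010000000010400000002400000000004004800 := rS 0xb85b419e28899361ed5eb354834fa1f69a4c66815bc322ac548a6c762e5fb1de0133181472d1089bca2a12210ca64100a3cea654b980041834b2d5b43511cdfa15 (k8 c709 c22 c909 c908 c387 i1553 i619 c933 (k8 c929 c446 i303 i1283 c924 c493 c930 c819 (k8 c815 c528 i557 c399 c907 i494 c372 c891 (k8 c505 i2095 c509 i533 c892 c540 c20 i1719 (k8 i302 c443 i1175 i1168 c547 c35 c379 c541 (k8 c2 i2094 i1633 c404 i237 c845 i561 c577 (k8 i659 c918 c931 i2029 c283 c371 c864 c81 (k2 c422 c586 (k1 c932 k0))))))))) (by decide +kernel)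
def c935 : PP 8 4 T 0x1000000000000000005000000000000400000010800000002400000000004004800 := rS 0x67679dd72551aaa9c89d82bf41b433e87da6c93024c667f864545cc55fb1de01331814720268844306f28a8488432990402ad511cd9615 (k8 c709 i619 c909 c908 i1553 c819 c815 c528 (k8 i557 c399 c907 i494 c372 c929 c891 c505 (k8 c446 i2095 c509 i533 c892 c540 c20 i1719 (k8 c547 i302 c35 c379 c408 i2094 i1633 i303 (k8 c407 c404 i237 c845 c387 i561 c22 c537 (k8 i1908 c77 c546 c453 i1657 i1137 c445 c896 (k2 i548 c890 k0))))))) (by decide +kernel)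
def c936 : PP 8 4 T 0x1000000000000000005000000000010000000010000000002400000000004004800 := rS 0x1175c9993b4f361a59e8a8ca58ba99582bcd6a92f834c09319a06191562a6c762e5fb1de01331814720268844306f28a84884329904028f32b2d5b43511cdfa15 (k8 c709 c22 c909 c908 c387 i1553 i619 c924 (k8 c930 c819 c815 c528 i557 c399 c907 i494 (k8 c372 c929 c891 c505 c446 i2095 c509 i533 (k8 c892 c540 c20 i1719 i302 c443 i1175 c547 (k8 c35 c379 c2 i2094 i1633 i303 i561 i643 (k8 c577 c935 c918 c934 c283 i1847 c843 c526 (k8 i1284 i1983 i1888 i2029 c59 i1643 i555 c771 (k2 c486 c472 k0)))))))) (by decide +kernel)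
def c937 : PP 8 4 T 0x1000000000000000001000000000010000000010000000002400000000004004800 := rS 0x2c14cc25104cc6051c809a21828a848843299040273 (k8 c909 c819 c815 c528 i557 c399 c907 i494 (k8 c929 c505 c446 i2095 c509 i533 c892 c908 (k4 c936 i328 c917 i1821 k0))) (by decide +kernel)
def c938 : PP 8 4 T 0x1000000000000000000000000080000000000000002000002000000800004008008 := rS 0x2e0c8ca (k4 i323 i341 i1391 i2701 k0) (by decide +kernel)
def c939 : PP 8 4 T 0x1000000000000000001000000000010000000010000000002000000000004000800 := rS 0xb547ab0a835231f5421f69a4c66442194c82016583cc02e010614473 (k8 c909 c908 c929 c446 i302 i303 c938 i619 (k8 c819 c815 c528 i557 c399 i2094 i1633 c404 (k8 i237 c907 c845 c937 i2099 i225 i305 i1130 (k2 i768 c831 k0)))) (by decide +kernel)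
def c940 : PP 8 4 T 0x1000000000000000001000000000000000000010000000002000000000004000800 := rS 0xe4614153a47679915467568d5280f5fb158ef00998cc02e1c8cc22056880830a93794542442194c820106a88e615 (k8 c709 c909 c908 i561 c819 c815 c528 i557 (k8 c399 c907 i494 c372 c577 c929 c446 c505 (k8 c509 c891 i2094 i2095 i302 i303 i533 c892 (k8 c540 c20 c547 i1719 c938 c939 i2696 i1558 (k8 i1674 i1019 i1018 i2697 i305 i2992 c75 c890 (k2 c77 c444 k0)))))) (by decide +kernel)
def c941 : PP 8 4 T 0x1000000000000000000000000000000000000020000000002000000000004000800 := rS 0x60061730a255273 (k8 c909 c577 i277 c469 i710 i303 c461 c446 k0) (by decide +kernel)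
def c942 : PP 8 4 T 0x1000000001000000000000000000000000000200000000002000001001404000000 := rS 0x4311 (k2 c368 i1499 (k1 c392 k0)) (by decide +kernel)
def c943 : PP 8 4 T 0x1000000000000000000000000000000000000000000002002000000000004004800 := rS 0xd8290402e523b00e207 (k8 i4 c941 c940 i1534 c0 c819 c815 c49 (k2 i1490 c77 k0)) (by decide +kernel)
def c944 : PP 8 4 T 0x1000000000000000000000000000000000000000000000002000000000006004800 := rS 0xd82ab124772a8248e073f9812ab916ad51e75119f61915171bca2a1128088843299cc820118b958071 (k8 c941 c940 c0 c481 c819 c815 c909 c528 (k8 i557 c399 c446 i2207 c907 i494 c372 i302 (k8 c35 c379 c57 i1573 c942 i1131 i1248 c519 (k8 i1249 i1517 i303 i1516 i4 i1534 i88 c943 (k4 c445 i2044 i1281 c488 (k2 i1494 c77 k0)))))) (by decide +kernel)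
def c945 : PP 8 4 T 0x1000000000000000000000000000000000000000000000002000000000006000800 := rS 0x933b9901c754788cfb0c5ac5572634a8945c2d028c4046f28b94fec038a848843299040273 (k8 c909 c819 c815 c528 i557 c399 c907 c941 (k8 c940 i1516 c0 i494 c372 c446 c481 c509 (k8 c519 i302 i2207 i1517 i533 i1249 c35 i1248 (k8 c379 c57 i1573 i1131 c942 c944 i341 c591 (k2 i1550 i2044 k0))))) (by decide +kernel)
def c946 : PP 8 4 T 0x1000000000000000000000000000004400000400000000002000000000004008800 := rS 0x21a4f3e2e4aeb53a8d44a597e9bca247039fd420d22104024329a545e160c9cd8071 (k8 c941 c940 c909 c945 c461 i1079 i1518 c528 (k8 i557 c819 c815 c399 c352 c907 i1516 i4 (k8 i1534 i494 c372 c22 c507 i860 i1116 c857 (k4 i1248 i502 i1250 i2044 (k2 i1274 c57 (k1 c427 k0)))))) (by decide +kernel)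
def c947 : PP 8 4 T 0x1000000000000000000000000000000800000000000000002000000000004008800 := rS 0x58129942c04018648843299cc8201 (k8 c819 c815 c909 c528 i557 c399 c945 i220 (k4 c410 c461 c829 c222 (k2 c753 c568 k0))) (by decide +kernel)
def c948 : PP 8 4 T 0x1000000000000000000000000000000000000400000000002000000000004008800 := rS 0x658b99d243564a3e0a63178583273 (k8 c909 c945 c461 i1079 i534 c497 c947 c459 (k4 i1116 c946 i542 c436 (k2 i1550 c532 k0))) (by decide +kernel)
def c949 : PP 8 4 T 0x1000000000000000000000010000008000000000000000002000000000004000800 := rS 0x618abf55263178583273 (k8 c909 c945 c461 i1079 i534 c577 c22 c12 (k2 i1281 c573 k0)) (by decide +kernel)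
def c950 : PP 8 4 T 0x1000000000000000000000000000000000010400000000002000000000004000800 := rS 0x86228e119bca27f50a545e755a89572350200d26ad8203dca0d0b06488410090ca67323b00e207 (k8 i4 c941 c940 i1534 c909 c528 i557 c819 (k8 c815 c399 c945 c461 c352 c0 c948 c77 (k8 c488 c949 i220 c410 i354 i1250 i346 i1248 (k8 c805 i1079 i1518 c907 i1516 i494 c372 i1573 (k4 i2044 c416 i726 c392 k0))))) (by decide +kernel)
def c951 : PP 8 4 T 0x1000000000000000000000000000000000000400000000002000000000004000800 := rS 0x13e1a7c56c101efd28a85ca47601c40e0d0b06488410090ca673 (k8 c909 c528 i557 c819 c815 c399 c945 c461 (k8 c352 i4 c941 c940 i1534 c0 c907 i494 (k8 c22 c948 c77 c488 c950 c57 i1273 c427 k0))) (by decide +kernel)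
def c952 : PP 8 4 T 0x1000000000000000000000000000000000000000000000002000000000004000800 := rS 0x1908f3b0583247601c40207 (k8 i4 c819 c941 c940 i1534 c945 c461 c951 (k2 i125 c189 (k1 c459 k0))) (by decide +kernel)
def c953 : PP 8 4 T 0x1000000000000000000000000000000000000800000000002000000000004008000 := rS 0xc85c060118995928f (k8 i125 c459 c591 c15 i598 i341 c243 c446 (k1 c461 k0)) (by decide +kernel)
def c954 : PP 8 4 T 0x1000000001000000000000000000000000000800000000002000000000004400000 := rS 0x11c1a4420860030511950cc0f (k8 c953 c502 c445 i2973 c49 c421 c461 c815 (k4 c391 i1490 i224 c77 k0)) (by decide +kernel)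
def c955 : PP 8 4 T 0x1000000000000000000000000000000000000800000000002000000000004800000 := rS 0x105928f (k4 i125 c459 i2492 c243 (k1 c536 k0)) (by decide +kernel)
def c956 : PP 8 4 T 0x1001000000000000000000000080000000000000000000002200000000004000040 := rS 0x25a60b (k4 c952 c69 i2097 c369 k0) (by decide +kernel)
def c957 : PP 8 4 T 0x1001000000000000000000000000000000000000000000002200000800004000040 := rS 0x25a60b (k4 c952 c448 i2096 c369 k0) (by decide +kernel)
def c958 : PP 8 4 T 0x11001000000000000000000000000000000000810000000102000000000014020100 := rS 0xa2c4d6e7b419e502912e16c4cb11490c8201220dd32978a1cc9c53548602e6f (k8 c372 c955 c461 c437 c572 c427 i758 c379 (k8 c571 c411 c442 c391 c421 c815 c478 i1836 (k8 i1762 i484 i1758 i483 i1169 c765 i1767 i735 (k4 c551 i761 c65 c864 (k1 c440 k0))))) (by decide +kernel)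
def c959 : PP 8 4 T 0x2001000000000000080000000000000000000000800000000002000000400004080000 := rS 0x8c9ee269a489e47e281d974be4100b445a371c80888180ba5c7aa7 (k8 c496 c476 c571 c955 c461 c391 c446 i2095 (k8 c442 c519 c505 c421 c815 c588 i1844 i2102 (k8 i226 i2103 c586 c840 c745 c560 i1889 c394 (k1 c500 k0)))) (by decide +kernel)
def c960 : PP 8 4 T 0x11001000000000000000000008000000000000810000000102000000000004000100 := rS 0x1b138bd67ac68a9a1fb1c76f0098454e3d690c53ed1168dc660d1ab1586e42388ccc39010bd7e978a1cc9c53549bc3a7e2a28c0e440c05c1615 (k8 c709 c952 c955 c461 c391 i479 c956 c445 (k8 i1657 i720 c372 c437 c572 c427 i758 c379 (k8 c571 i3032 c957 c446 i2095 c502 i2973 i224 (k8 c954 c444 c41 c453 c4 i232 c442 c519 (k8 c505 i3025 c15 c369 c476 c496 c958 c959 (k8 c540 c443 c20 c494 c745 c419 i1298 i1152 (k4 i1418 i2035 c792 i1643 k0))))))) (by decide +kernel)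
def c961 : PP 8 4 T 0x400000000000001001000000000000000000410000800000000804000000082000000000004040000 := rS 0x1135ba1cb85ba7040da6b34ab914cf40ac68a9f0790402d106b0dc847220602e23332fcfcaa82b2d6a54 (k8 c445 c567 i1389 c49 c546 i1657 i3032 c502 (k8 i2973 c955 c461 c391 i224 c954 c444 c4 (k8 c505 c421 c815 c953 i3025 c419 i1298 i1336 (k8 i1152 c868 c371 c933 i548 i556 c918 c550 (k4 i1758 i483 c67 i761 (k2 c65 c773 k0)))))) (by decide +kernel)
def c962 : PP 8 4 T 0x1000000000000000000000000000540000000814000000082000000000084020000 := rS 0x2dcf67940a45065b130a48641009106e73548602e3d (k8 i2832 c955 c461 c437 i758 c442 c391 c421 (k8 c815 c478 i1836 i484 i1758 i1436 i1169 i1769 (k4 i1767 c551 i761 i2045 k0))) (by decide +kernel)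
def c963 : PP 8 4 T 0x400000000002001001000000000000000000010400000000000814000000082000000400084040000 := rS 0x3f1dbc0229b168dc7202220602e994b8f56615 (k8 c709 i2913 i2832 c571 c411 c955 c461 c391 (k8 c446 i2095 c442 c519 c961 c962 c540 c443 (k2 c494 c745 k0))) (by decide +kernel)
def c964 : PP 8 4 T 0x11001000000000000000020010000000000000800000000102000000000004000000 := rS 0x4d22c7e3b092cc7a1e538212e998a2a8e34382951a22d1ba247202379cd52cb2714d6a2f039103017 (k8 c955 c461 c391 i479 c957 c567 c572 c427 (k8 i1389 c437 i758 c372 c446 i2095 i2093 c442 (k8 c519 c505 c445 c49 c543 i1407 c546 c379 (k8 c411 c571 c960 i2098 i222 i2832 i2913 c963 (k4 i2102 i2103 i1881 i2034 (k1 c868 k0)))))) (by decide +kernel)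
def c965 : PP 8 4 T 0x1000000000000000000000000000020000000800000000002000000000004000000 := rS 0xfc70 (k2 i1676 i1675 (k1 c578 k0)) (by decide +kernel)
def c966 : PP 8 4 T 0x11001000000000000000000010000000000000800000000102000000000004000000 := rS 0xf1c1a47f8aa49722f519cc0e4e3789462b5299f5522d1988ca866608d54ae450a2404440c05d2a0b (k8 c952 c965 c955 c461 c391 c446 i2093 i308 (k8 c954 c484 c453 c0 c502 c445 i2973 i232 (k8 c519 c437 i2974 c572 c567 c15 c447 c372 (k8 c427 i479 i758 c956 c957 c964 i2033 c12 (k4 i1638 c878 c379 c246 (k1 i1356 k0)))))) (by decide +kernel)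
def c967 : PP 8 4 T 0x1001000000000000000000014000000000000800004000002000000000004000100 := rS 0xbd27143081972a3a132c630507aa45a33608346aa57211c46543322404440c05d2a0b (k8 c952 c965 c955 c461 c391 c446 i2093 c502 (k8 c445 i2973 i224 c954 c484 c453 c4 c0 (k8 i232 c519 c437 c953 c49 c15 i545 c546 (k8 c387 c543 i2027 i1223 c573 c12 c480 i2033 k0)))) (by decide +kernel)
def c968 : PP 8 4 T 0x1001000000000000000000000000000000000080000000002000000000004400000 := rS 0x7170748818 (k4 c461 c391 i717 i1091 (k2 i480 c957 k0)) (by decide +kernel)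
def c969 : PP 8 4 T 0x1001000000000000000000000000000000000800000000202000000000004000000 := rS 0x31aad5a092b9f4cc5420804e617 (k8 c955 c968 c421 c815 c445 c502 i2974 c557 (k4 i1310 i1313 i497 c687 (k1 c967 k0))) (by decide +kernel)
def c970 : PP 8 4 T 0x11001000000000000000000000000000000000800000000002000000000004000000 := rS 0xe31530249586f289cccc17 (k8 c955 c502 c968 c969 c372 c966 i1621 i1622 (k2 c12 c469 (k1 c379 k0))) (by decide +kernel)
def c971 : PP 8 4 T 0x11000000000000000000000000000000000000840000000002000000000004080040 := rS 0x145419ee26b740a44f25a1409c7a5d2197c8201688e532970e288c71437984e24f01035c80955ab5f84711950cca1220602e0b (k8 c952 c955 c461 c391 i308 c502 c445 i2973 (k8 i224 c970 c34 c37 c56 c954 c4 c446 (k8 c19 c495 c384 c451 c379 c80 c622 c308 (k8 c571 c411 i2095 c505 c421 c815 c588 c478 (k8 i1844 i1802 i1798 i226 i227 c586 c840 i1235 (k4 i721 c560 i1889 i775 (k2 c864 c440 k0))))))) (by decide +kernel)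
def c972 : PP 8 4 T 0x11000000000000000000000000000000000100840000080002000000000024040000 := rS 0x516267b432dc4ec77820d2229089e44acd11a14a86620805a22162b0dc82b220602e994bc50de613893df815 (k8 c709 c970 c19 c495 c384 c451 c379 c571 (k8 c411 c955 c461 c391 i385 c954 c444 c41 (k8 c470 c505 c421 c815 c502 c445 i2975 i2973 (k8 c499 c447 c422 i1758 i1805 i774 i775 c540 (k8 c20 c54 i721 i2032 c430 c32 c864 c440 k0))))) (by decide +kernel)
def c973 : PP 8 4 T 0x11000000000000000000004000000001000501840000000102000000000004000000 := rS 0xb32ea2a249a2997da2af58d15327b2d84c38a2318081ae40481d56ad2388ca8665091030174bc50de613893df80b (k8 c952 c970 c19 c495 c384 c451 c379 c571 (k8 c955 c461 c391 i308 c502 c445 i2973 i224 (k8 c34 c37 i479 c56 c954 c4 c446 c80 (k8 c622 c308 c971 c972 c551 c411 c864 c373 (k8 c503 c505 c588 c572 i2045 c440 c364 c65 (k2 i553 i2038 k0)))))) (by decide +kernel)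
def c974 : PP 8 4 T 0x11000000000000000000004000000001000101840000000102000000000004000000 := rS 0x1368d59a2cb9134117d52d157ac532973d96c261c5118e286f309c49e0206b90120755ab5f84711950cca1220602e0b (k8 c952 c955 c461 c391 i308 c502 c445 i2973 (k8 i224 c970 c34 c37 i479 c56 c954 c4 (k8 c446 c19 c495 c384 c451 c379 c80 c622 (k8 c308 c971 c972 c551 c571 c411 c373 c503 (k8 c505 c437 c588 c973 c579 c492 c744 i513 (k2 i1845 c364 (k1 i2041 k0))))))) (by decide +kernel)
def c975 : PP 8 4 T 0x1000000000000000000000000000002000000801000000002000000000004040000 := rS 0xd6c7089a59e284690cbe0f06b1586e423910301711950cc15 (k8 c709 c502 c445 i2973 c955 c461 c391 i224 (k8 c954 c444 c41 c4 c953 c588 c478 i1032 (k4 i1169 i2790 i1624 i1836 (k2 i258 i548 (k1 i2029 k0))))) (by decide +kernel)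
def c976 : PP 8 4 T 0x1000000000000000000000000000000000002801000000002000000000004040000 := rS 0x63538226935a30b88b82a141e3706b1586e423910301711950cc15 (k8 c709 c502 c445 i2973 c955 c461 c391 i224 (k8 c954 c444 c41 c4 c442 c953 i2975 c49 (k8 c438 c586 c78 i547 i1849 i1759 c550 i2029 (k1 c71 k0)))) (by decide +kernel)
def c977 : PP 8 4 T 0x1000000000000000000008000000000000000000000000102200000000024040000 := rS 0xf108898ba15 (k4 c709 i1931 i721 i483 (k2 c54 c540 k0)) (by decide +kernel)
def c978 : PP 8 4 T 0x11000000000000000000000000000000000100840000000102000000000004000000 := rS 0x1e5226d2dadc261c5118e286f309c49e0206b90120755ab5f84711950cca1220602e0b (k8 c952 c955 c461 c391 i308 c502 c445 i2973 (k8 i224 c970 c34 c37 i479 c56 c954 c4 (k8 c446 c19 c495 c384 c451 c379 c80 c622 (k8 c308 c971 c977 c972 i1698 c975 c976 c974 k0)))) (by decide +kernel)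
def c979 : PP 8 4 T 0x11000000000000000000000000000000000000840000000102000000000004000000 := rS 0xf1088f04e80098703ea231c50040d722848e232a1995aab049bcc27127bf00e440c05c2a0b (k8 c952 c709 c955 c461 c391 i479 c970 c19 (k8 c495 c384 c451 c56 c37 c34 c502 c445 (k8 i2973 i224 i308 c954 c4 c446 c379 c80 (k8 c622 i240 c308 c971 c978 i1770 i1235 i484 (k2 c11 c540 k0))))) (by decide +kernel)
def c980 : PP 8 4 T 0x11000000000000000000000000000000000000800000000102000000000004000000 := rS 0x2e5cc54e40764a3c1e3360835c847220602e232a19956093893df80b (k8 c952 c970 c19 c495 c56 c37 c502 c445 (k8 i2973 c955 c461 c391 i224 c954 c4 c0 (k8 i232 c953 i125 c459 i479 c979 c36 i1141 (k2 i1091 c702 k0)))) (by decide +kernel)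
def c981 : PP 8 4 T 0x1002000000000000000000000000000000000880000000002000000000004000000 := rS 0x38b83ab98ab251e0f19b041ae423910301711950ccab049c49e0b (k8 c952 c19 c495 c56 c37 c502 c445 i2973 (k8 c955 c461 c391 i224 c954 c4 c0 i232 (k8 c953 i125 c459 c36 i1141 i717 i1091 i480 (k1 c702 k0)))) (by decide +kernel)
def c982 : PP 8 4 T 0x11000000000000000000000000000000000000800000000002000000000004000040 := rS 0xa20e8081ae45091c88180b88ca86656aac126339bf0a00b (k8 c952 c980 c970 c981 c687 c56 c37 c34 (k8 c502 c445 i2973 c955 c461 c391 i224 i308 (k4 c954 c4 c446 i1229 (k2 c622 c308 k0)))) (by decide +kernel)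
def c983 : PP 8 4 T 0x1000000000000000000000100000000000200000000000002200000000064000000 := rS 0x3c422131e09cb615 (k8 c709 i1809 i1770 i1235 i227 i484 c11 c540 k0) (by decide +kernel)
def c984 : PP 8 4 T 0x1000000000000000000000000000000000000800000040002000000000004050000 := rS 0x6a459a6265c13b1de0252c95e0a85078358ac37211c88180b88ccc7b489b4a815 (k8 c709 c445 i1698 c975 c551 c502 i2973 c955 (k8 c461 c391 i224 c954 c444 c41 c4 c953 (k8 i2975 c49 c557 c525 c447 c540 c20 c54 (k4 c848 c65 i1849 c744 (k2 i2029 i547 k0))))) (by decide +kernel)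
def c985 : PP 8 4 T 0x11000000000000000000000000000000000000800000000002000000000004040000 := rS 0x114b789a0cb8b3081e5226d3d96ca8d15794132978a1ccde613893d021c0f81886b17e1103017 (k8 c955 c461 c391 c970 c373 c478 c982 i1302 (k8 i480 c983 c19 c495 c384 c451 c981 c379 (k8 c571 c411 c980 c503 c505 c445 c972 c551 (k8 i1698 c975 c976 c984 i2299 i483 i1437 c65 (k2 i1930 c669 (k1 c744 k0)))))) (by decide +kernel)
def c986 : PP 8 4 T 0x11000000000000000000000000000000000000800000000002000000000004000000 := rS 0x1ed6e91419e516281397424810e07c0c974cc50e650389bd624f30bf0865f20805a239011103017 (k8 c955 c461 c391 c446 i2095 c505 c421 c815 (k8 c588 c478 c970 c384 c19 c373 c451 c495 (k8 c980 c981 c379 c411 c571 c982 i1302 i480 (k8 c983 c985 i1844 i1798 i226 i1881 c586 i1438 (k4 c840 i721 i1889 c669 k0))))) (by decide +kernel)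
def c987 : PP 8 4 T 0x1000000000000000000000000000200000000800000000002000000000004000000 := rS 0xb917455928f078dc660d1a91d1202559c49efc699fcfa232a1984ac1722d54207288243f0c220602e0b (k8 c952 c955 c461 c391 c986 c452 i222 c377 (k8 i479 i308 c567 c954 c0 c447 c502 c445 (k8 i2973 i2974 c408 c246 c369 c19 c495 i1657 (k8 c446 i2093 i224 c453 c4 i232 c442 c953 (k4 i125 c459 c411 c870 (k2 i1137 c702 k0)))))) (by decide +kernel)
def c988 : PP 8 4 T 0x1000000000000000000000000000801000005800000000002000000000004000000 := rS 0x8174b6138922a32d11c808c2fc699fcfa232a1984ac1722d54207288243f0c220602e0b (k8 c952 c955 c461 c391 c986 c452 i222 c377 (k8 i479 i308 c567 c954 c0 c447 c502 c445 (k8 i2973 i2974 c408 c246 c369 c384 c446 i2095 (k8 c505 c394 c364 c500 i1881 i1883 c65 c984 (k1 i483 k0))))) (by decide +kernel)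
def c989 : PP 8 4 T 0x1000000000000000000000000000041000005800000000002000000000004000000 := rS 0x17c547c6253bc4766b46acc201345970b63d89a0a8a5f8283d52d116834564744809026f39add566157ac4e24f7e34cfe7d11950cc2560b916aa103944121f8611030174ca6c1615 (k8 c709 c952 c988 c987 c955 c461 c391 c986 (k8 c452 i222 c377 i479 i308 c567 c954 c0 (k8 c447 c502 c445 i2973 i2974 c408 c246 c369 (k8 c19 c495 c373 c503 c384 i1657 c541 c534 (k8 c511 c2 c446 i2093 i224 i385 c4 c519 (k8 c505 c437 c953 c49 c588 c864 i2045 c579 (k8 i1256 i775 c492 c744 i227 c984 i513 i1845 (k8 i547 c666 c374 i1913 i2041 c449 c80 i404 (k1 c548 k0))))))))) (by decide +kernel)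
def c990 : PP 8 4 T 0x1001000000000000000000000000000000000000800000000002000000000004000000 := rS 0x5c8b9928f078b4660d1a91d1202559c49efc699fcfa232a1984ac1722d54207288243f0c220602e0b (k8 c952 c955 c461 c391 c986 c452 i222 c377 (k8 i479 i308 c567 c954 c0 c447 c502 c445 (k8 i2973 i2974 c408 c246 c369 c19 c495 i1657 (k8 c446 i2093 i224 c453 c4 i232 c519 c953 (k4 i125 c459 c548 i1137 (k1 c702 k0)))))) (by decide +kernel)
def c991 : PP 8 4 T 0x1000000000000000000000000000000000002800000000002000000000004000000 := rS 0x804d185b220dc3017 (k8 c955 c461 c442 c391 c422 c78 i227 c984 (k1 i1759 k0)) (by decide +kernel)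
def c992 : PP 8 4 T 0x1000000000000000000000000000000000008800000000002000000000004000000 := rS 0x633c0d21335844da8a2d1750ecd3283c1ac561b908e232a1987202220602e15 (k8 c709 c955 c461 c391 c446 i2095 c502 c445 (k8 i2973 i224 c954 c444 c41 c4 c953 c591 (k8 c499 c430 c524 c551 c570 i1697 i483 i1962 (k4 i1881 i1888 c540 i2029 (k1 c20 k0))))) (by decide +kernel)
def c993 : PP 8 4 T 0x1000000000000000000000000000000000000800000000002000000000004000000 := rS 0x20131416d207b3ca5e28d1220602e43 (k8 c478 c955 c461 c391 c505 c990 c571 c991 (k4 c992 c989 i774 i1169 (k2 i227 c984 (k1 i1836 k0)))) (by decide +kernel)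
def c994 : PP 8 4 T 0x1000000000000000000000000000002000000000000000002200000000004020000 := rS 0x20c8145243008dc5615 (k8 c709 i385 i993 c569 i41 i1836 i524 i1169 (k2 c410 i220 k0)) (by decide +kernel)
def c995 : PP 8 4 T 0x1000000000000401000000000000044008004014010014480100151004000102400010000044051140 := rS 0x2f104a25ac34fc4f30bf0ee0b (k8 c952 c993 c369 c384 c19 c775 c408 i102 (k4 c861 c440 i329 i1415 k0)) (by decide +kernel)
def c996 : PP 8 4 T 0x401000000000000001000000000000000000140000200000000000000000000002004000000004000000 := rS 0x17f43 (k2 c84 i1451 (k1 c485 k0)) (by decide +kernel)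
def c997 : PP 8 4 T 0x401000000000000004408004514010014480100151404000102400010000044055140 := rS 0x3054abd5dab946a7690f47ef0a7d141615 (k8 c709 c952 c783 c428 c540 c494 c11 c995 (k8 c496 c69 i2028 i1944 i1986 c996 c539 i2027 k0)) (by decide +kernel)
def c998 : PP 8 4 T 0x2401000000000000004408000110000000488000011400240002200000000005054000 := rS 0x17aa757349faaa40a683f4504a24c67349a54a6a10381002b35b9bca2353a9648e0306858860b (k8 c952 i41 c461 c352 i220 c720 c507 c857 (k8 i1116 c743 c372 i1931 i513 c569 c410 c710 (k8 i308 i564 c386 c12 c36 c80 c518 i262 (k8 c783 c803 c789 i1336 c997 c37 c369 c371 (k2 c496 i1986 (k1 c792 k0)))))) (by decide +kernel)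
def c999 : PP 8 4 T 0x1000000000000000000000508000000000000001400000002400000000004051140 := rS 0x2f54eae693f68a0b (k8 c952 c783 c37 c369 c371 c496 i1986 c792 k0) (by decide +kernel)
def c1000 : PP 8 4 T 0x401000000000000001001000000000000400100014040000008000000000000502404000000004005140 := rS 0x148bb609fda40b (k4 c952 c369 c748 c539 (k2 i1683 i2027 (k1 c996 k0))) (by decide +kernel)
def c1001 : PP 8 4 T 0x1200000000000000008100504010000008000000000014502400000000044055140 := rS 0x1f4fe8169a995e4f7e2d5463d1fbc29ecb56d142a0b (k8 c952 c709 c783 c488 c434 c428 c540 c494 (k8 c11 i329 i934 c1000 c19 c503 i2028 c496 (k4 i1860 c861 i1710 c664 k0))) (by decide +kernel)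
def c1002 : PP 8 4 T 0x1000000000000000000000000000042008000001400000002200000000004044100 := rS 0x254c67340b4d34a64cabd26bb5e2ac3f4529a847a3f03acd6e511a9d4b2578aab59704a7b08d27b6391c1a1621b159eb147a2a328d2e17cb6d10200c02191dbc02271898541677 (k8 c993 c952 c709 c390 i917 c994 c540 c443 (k8 i1168 c569 i220 c410 i651 i774 i643 c840 (k8 i1032 c50 c401 c778 i1885 i1149 c547 i41 (k8 c461 c352 c720 c20 i149 c796 i2029 c428 (k8 c550 c434 c488 c998 i1705 c507 c857 i1116 (k8 c743 i1931 i513 c710 c494 c11 i308 i564 (k8 c783 c803 c999 c1001 i134 i1370 i1987 i1990 (k8 i2028 c85 c496 i1860 i1180 i2904 i1182 c995 k0)))))))) (by decide +kernel)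
def c1003 : PP 8 4 T 0x1000000000000000000000000000042008000001400000002200000000004044000 := rS 0x869cc3c6004456267129ac4de512db3d96ad8253d84c7238342c43629a51e5c3da29a2040186476f008806328d2f854ee0b (k8 c952 c993 c709 i643 i1032 c50 c569 c994 (k8 c540 c443 i1168 i220 c410 i651 c401 i149 (k8 c840 c778 c796 c547 i41 c461 c352 c720 (k8 c20 i2029 c428 c550 c488 c434 i1149 i774 (k8 c743 c372 i1885 i564 i917 c390 c998 c1002 (k4 i263 i222 i1017 c452 (k1 c379 k0))))))) (by decide +kernel)
def c1004 : PP 8 4 T 0x1000000000000000000000000000000000000014000000002200000000004000220 := rS 0x86c54e61e44180a60b (k8 c952 i564 i263 i262 i222 i1017 c518 c452 (k1 c379 k0)) (by decide +kernel)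
def c1005 : PP 8 4 T 0x1001000000000000000000000000001042000000041400000002200000000004044000 := rS 0xc2fd4a13926633fa05350c4ca8552cf1a9d4b3450fadca6cb56996094f3ead4af1043a144ae5611a51e7b63b1626ab049bce2b1454651ab32e17ca25b688100247018342c430386476f008854ee0b (k8 c952 c993 c709 c994 c540 c443 i1168 c710 (k8 i41 c461 c352 i220 c720 c569 c410 i651 (k8 i774 c743 i643 c840 i513 i1032 c50 c401 (k8 i1885 i917 c372 c1004 c999 c390 c547 c20 (k8 i149 c778 c796 i2029 c444 i860 i1867 c1003 (k8 c735 c64 c463 c433 c428 c550 c75 c488 (k8 c434 i564 i1931 c803 c783 c507 c857 i1116 (k8 i1149 i572 i308 i1110 c379 c85 c2 c408 (k4 i1445 i1450 c664 c997 (k2 c19 i1018 (k1 c573 k0))))))))))) (by decide +kernel)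
def c1006 : PP 8 4 T 0x1000000000000000000000501010000000000080000000502000000410004050140 := rS 0x2bd4efc0e93e1a3d1fbc02a0b (k8 c952 c709 c540 c494 c11 c534 i758 i718 (k4 c427 c716 c503 i2028 k0)) (by decide +kernel)
def c1007 : PP 8 4 T 0x1000000000000000000000000000000480000102000200002000000000004000000 := rS 0x1118b958cc77 (k4 c993 i555 i515 c486 (k2 c64 c595 k0)) (by decide +kernel)
def c1008 : PP 8 4 T 0x1000000000000000000000000000042000000040400000002200000000004044000 := rS 0xaf4da00c6934aab59714822769ec255c4d42c7629a4f6cf1a87c126f3881d6eb159944b653369d4b24706858868f454651a5c6881006191dbc022012f82c2a77 (k8 c993 c709 c952 i643 c569 c994 c540 c443 (k8 i1168 i220 c410 i651 c840 i1032 c50 c401 (k8 c778 i41 c461 c352 c720 c507 c857 c1007 (k8 i564 i774 c743 i513 i1885 i1931 c710 i917 (k8 c372 c1004 c803 i1116 i1149 i149 c796 c547 (k8 c20 i308 c390 c999 i2029 c428 i1906 c550 (k8 c1005 c434 c488 c386 c12 c80 c997 i1336 (k2 i1862 c788 k0)))))))) (by decide +kernel)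
def c1009 : PP 8 4 T 0x2001000000000000004000000140010000480000150800200502400010000104051140 := rS 0x15a4f309fdf8aba2accda954998cee0b (k8 c952 c993 c80 c12 c386 c1007 i513 c783 (k4 i585 c371 c779 c384 (k2 c19 c34 (k1 c775 k0)))) (by decide +kernel)
def c1010 : PP 8 4 T 0x1000000002000000000000184010000008010000000200502000000001004050140 := rS 0x2d17a7f0fadd66c11088d8ef0693f41615 (k8 c709 c952 c503 c369 c540 c20 i1703 c470 (k8 c0 i513 i1931 c803 c779 i1987 c246 i934 k0)) (by decide +kernel)
def c1011 : PP 8 4 T 0x2001000000002000004000000100000000488000050800240002200000000005050000 := rS 0x5c45978655529da4fd571f5029a4aa8592251ad143e093781002075bacca253369d4b247018342c438299c420b (k8 c952 c470 i548 c537 i41 c461 c352 i220 (k8 c720 c507 c857 c1007 i564 c743 i513 i1931 (k8 c710 c569 c410 c372 c1004 c803 c783 i1116 (k8 i860 c459 i308 c386 c789 i1336 i1710 c1009 (k8 c503 c369 c496 c1010 i1659 c792 c532 i1417 (k1 c487 k0)))))) (by decide +kernel)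
def c1012 : PP 8 4 T 0x1100000000000000100000010000008000000000040000002000000000004000000 := rS 0xcb17 (k2 c436 i1549 (k1 c532 k0)) (by decide +kernel)
def c1013 : PP 8 4 T 0x1000000000010001000000000000000000000400000140000000000008000002000000000004000000 := rS 0x13715 (k2 c80 i1445 (k1 c85 k0)) (by decide +kernel)
def c1014 : PP 8 4 T 0x1100000000000004000000514000014480040151004000542400010000044051140 := rS 0x50968cb5cc58fa1d8634912fd301bcee0b (k8 c952 c993 c372 c775 c384 i1277 c369 c427 (k8 c405 c57 c809 c487 i1391 i2044 c546 c580 k0)) (by decide +kernel)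
def c1015 : PP 8 4 T 0x400000000000010001000000000000004000000510001010480040051004000502400000000044859140 := rS 0x9f8bae17a1d57349fa4e499bd92752cd160aab338d4ee0b (k8 c952 c993 i1116 i542 i579 c497 c783 c507 (k8 c857 c459 c372 c1012 c1014 c19 c369 c371 (k4 c405 i1987 c801 c487 (k2 i1190 c566 k0)))) (by decide +kernel)
def c1016 : PP 8 4 T 0x1000000000010001000000000000000000000005000160000000000804000002000000000004000000 := rS 0x2b9f8ba5ea68c2bfa1ae62b4f (k8 c513 c386 i104 c66 i1726 i1019 c85 i1417 (k4 c485 c573 i1946 c503 k0)) (by decide +kernel)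
def c1017 : PP 8 4 T 0x1000000000000000000000500010000000080000000000502000000000044058140 := rS 0x29d5ed27e0f47ef051aac2a0b (k8 c952 c709 i579 i322 c540 c494 c11 c748 (k4 c861 c503 c496 i2028 k0)) (by decide +kernel)
def c1018 : PP 8 4 T 0x1102000000000004000000004000010480040151044000102400010000004051000 := rS 0x124ad279859277 (k4 c993 c459 c384 c19 (k2 c34 c775 (k1 c1012 k0))) (by decide +kernel)
def c1019 : PP 8 4 T 0x1000000000010001000000000000000000000001000160000000001104000002000000000004008000 := rS 0x352ae0b4f4f26a2a0b (k8 c952 c386 c85 i1181 c529 c497 i579 c550 (k1 c1016 k0)) (by decide +kernel)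
def c1020 : PP 8 4 T 0x1000000000000000000000000000062000000040000000002200000000004040000 := rS 0xaa3503d7a9a5cc5552693d9b4ea59238342c434798d3345049bce2b1452340eb32e17ca25b6881006010c8ede0118c8541677 (k8 c993 c952 c709 c50 c994 c540 c443 i1168 (k8 c569 i220 c410 i651 i774 c743 i643 c840 (k8 i513 c710 i1032 c401 i1885 i917 c372 c1004 (k8 c783 i1110 c1013 c778 i41 c461 c352 c720 (k8 c507 c857 c1007 i149 c796 i572 c386 i104 (k4 c85 i1417 c1019 c1008 (k2 c1016 i586 k0))))))) (by decide +kernel)
def c1021 : PP 8 4 T 0x1000000000010001000000000000000101000009100150000000000840000002200011400004000140 := rS 0x45536885c8cc5b166928d786549bf60a0b (k8 c952 c537 c37 i1636 i1659 i586 c956 c369 (k8 c532 c556 c389 c487 i2033 i1417 c518 c85 k0)) (by decide +kernel)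
def c1022 : PP 8 4 T 0x1000000000000080001000500151810400040150000000102400011401044055140 := rS 0x2e4671649a247ef00e8b4ee15 (k8 c709 c993 c556 c405 c540 c494 i1443 i1450 (k4 c807 c389 c487 i2033 k0)) (by decide +kernel)
def c1023 : PP 8 4 T 0x1000000000000000000000000000042000000040000000002200000000004044000 := rS 0x220b443a4cfb145cc3136ae6928dfa7f558c442a560b90ce854ec169e6a89a85522f648959ecd1a87d6e53369d4b24706858868f31a668a09379c5628a4681d665c2f944b6d10200c02191dbc023194a9dc1615 (k8 c709 c952 c993 c1020 c50 c994 c540 c443 (k8 i1168 c569 i220 c410 i651 i774 c743 i643 (k8 c840 i513 c710 i1032 c401 i1885 i917 c372 (k8 c1004 c783 i1110 c1013 c778 i41 c461 c352 (k8 c720 c507 c857 c1007 i564 i1931 c803 i1116 (k8 i892 i1149 i860 c459 i315 i572 i308 c390 (k8 c1008 c513 c537 i1908 i1869 i548 c77 c0 (k8 c484 c470 c450 c1021 c779 c1018 c956 c369 (k8 c371 c1022 c800 c771 c85 c57 c12 c1011 (k2 i2044 c398 (k1 c463 k0))))))))))) (by decide +kernel)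
def c1024 : PP 8 4 T 0x1001000000000000000000020000014400040150000000502000000000014808000 := rS 0x10d279f0deb964ad4b277 (k8 c993 c507 i1288 c459 i1290 c372 i2044 c801 (k2 c57 c427 k0)) (by decide +kernel)
def c1025 : PP 8 4 T 0x1100000000000000100000000000008000000000044000002000000000004000000 := rS 0xcb17 (k2 c436 i1550 (k1 c532 k0)) (by decide +kernel)
def c1026 : PP 8 4 T 0x1000000000000000000000000000042000000040000000002200000000004040000 := rS 0x50d96b83593a9cad498755cd27e9fd3a6755c141c9531a6542693db259e35a287c126f3881d6eb159944b653369d4b24706858868f454651a5c6881006191dbc022012f9dc1615 (k8 c709 c952 c993 i643 c569 c994 c540 c443 (k8 i1168 i220 c410 i651 c840 i1032 c50 c401 (k8 c778 i41 c461 c352 c720 c507 c857 c1007 (k8 i564 i774 c743 i513 i1885 i1931 c710 i917 (k8 c372 c1004 c803 c783 i1116 i1149 c459 i149 (k8 c796 i308 i1110 c1013 c1020 c1023 c497 i579 (k8 i542 c798 c1017 c1018 c369 c371 c405 c1025 (k8 c1024 c1015 c1014 c513 c801 i625 c543 c546 k0)))))))) (by decide +kernel)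
def c1027 : PP 8 4 T 0x1000000000000000000000000000042000000000000000002200000000004040000 := rS 0x57a9df81d27c34e40937ac5665145170b62f54b440807018647e3d1dbc232710094d428d2f8442a0b (k8 c952 c709 c994 i643 i1032 i308 i564 c569 (k8 i917 c50 c540 c443 c11 c494 i1168 i220 (k8 c710 c410 i651 i572 i315 i774 c840 c401 (k8 c743 i513 i1885 c372 c1004 c1026 c534 i758 (k4 i718 c427 c740 c503 (k1 i2028 k0)))))) (by decide +kernel)
def c1028 : PP 8 4 T 0x1000000000000000000000000000042000000000000000002200000000004000000 := rS 0x9a03b02974248d2f8048215 (k8 c709 i42 c569 i643 i1032 c1027 i1844 i267 (k4 i2102 c840 c410 i1160 k0)) (by decide +kernel)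
def c1029 : PP 8 4 T 0x1000000000000000000000000000000000000000000000002000000000004808008 := rS 0x6864 (k2 i341 i340 (k1 i2700 k0)) (by decide +kernel)
def c1030 : PP 8 4 T 0x1002000000000000000011000000000000800000000000142000020000045000008 := rS 0xfa593f95caacb101951c2323c5c84c90b14d5aab (k8 c37 c34 c418 c461 i2776 i999 c406 i207 (k8 i246 i1116 i2700 i1117 c173 i704 i442 i2622 (k2 c568 i1502 (k1 i2037 k0)))) (by decide +kernel)
def c1031 : PP 8 4 T 0x4001002000000000080400000000100000000000000000000002400011000004004008 := rS 0x1c80c19ab5560903b05460b (k8 c952 c69 c539 c378 c56 c37 c34 i192 (k2 i2027 c510 (k1 c4 k0))) (by decide +kernel)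
def c1032 : PP 8 4 T 0x11002000000000080100001000000000800800000010000002000010001044004008 := rS 0xaf052329596212a9fe2f1120804b231 (k8 i1002 c568 i1 c815 c416 c504 i2622 i766 (k4 i726 c179 c198 c1031 (k2 c425 i1578 (k1 c83 k0)))) (by decide +kernel)
def c1033 : PP 8 4 T 0x1000000000001011002000000000000100111000004012200800100010000142000550501004004008 := rS 0x49a962cbba7b093a3333b3d1e3163b14a6ad55a9d82a369224121f1fbc23277 (k8 c993 c50 c520 c494 i1435 c56 i190 c548 (k8 c69 c539 c496 c37 c34 c418 c547 c20 (k8 i1002 c1032 i1149 c133 i193 i1820 i2035 c428 (k4 i1944 c566 c996 c436 (k1 i2033 k0))))) (by decide +kernel)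
def c1034 : PP 8 4 T 0x1000000000000401102000000000000011015000140014000100001400014142000014500004000008 := rS 0x7f3ea1e214e2a9a5960c18104025356aad1209 (k8 c56 i190 c37 c34 c418 i1 c815 i2033 (k8 i1003 i466 i1495 i1490 c550 c83 c67 c433 (k2 c773 i2037 k0))) (by decide +kernel)
def c1035 : PP 8 4 T 0x1000000000000401102000000000000011015000040014000100001400014142080014500004004048 := rS 0x43538fc696595418473eb95482529ab55609 (k8 c56 c37 c34 c418 c590 c1034 c484 i1326 (k8 i208 c77 i704 i465 i1495 i2037 c550 c773 (k1 c67 k0))) (by decide +kernel)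
def c1036 : PP 8 4 T 0x1002000000000000000004000000212200000080000000102000440400005000018 := rS 0x3152a3843112c1acda9319b3caf05320d53ebd5ac4ceac912b141f0d27aa55a0760a8da42d509082c8904c568ab9409e43e821fbc07319 (k8 c50 i1814 c520 c494 i1111 i1435 i148 i1863 (k8 i2786 c388 c36 c56 i190 c461 i999 c457 (k8 i977 c548 c69 c539 c378 c34 i2754 i758 (k8 c534 c1029 c547 c590 i2776 i2671 c390 i885 (k8 i1991 i1112 c1030 c1033 c75 i1579 i2703 i1546 (k8 i1549 i1699 i1964 c1035 c397 c465 c507 c198 (k2 i985 i2033 k0))))))) (by decide +kernel)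
def c1037 : PP 8 4 T 0x1000000000000005050000000001000800000000000000002000554001004000000 := rS 0xc27227c6317 (k4 c504 i985 i1188 c510 (k2 i2035 c444 k0)) (by decide +kernel)
def c1038 : PP 8 4 T 0x1100000000000000008000000000000000000001400000002000000000004004000 := rS 0xd34f (k2 c428 i1829 (k1 c550 k0)) (by decide +kernel)
def c1039 : PP 8 4 T 0x1000000000000401002000000000004050005000005000000110000420014142000554000004004048 := rS 0x43538fc5534b2c1830619b4820129ab55705 (k8 c75 c37 c34 c418 i1 c815 i1699 c1038 (k8 i2035 i1003 i465 i1495 i1490 i2037 c550 c773 (k1 c67 k0))) (by decide +kernel)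
def c1040 : PP 8 4 T 0x401002000000000014050001000001200000110100020810142000554000004004048 := rS 0xfecb2aaf8d29e2badca6ad55d14d68c (k8 c477 i1964 c388 c37 c34 c418 c514 i1579 (k4 c1039 i1566 i1113 i911 (k2 i1454 i1724 (k1 i2037 k0)))) (by decide +kernel)
def c1041 : PP 8 4 T 0x1002000000000000000000000000042000000080000800102000440400004000018 := rS 0x5dd3d7ec24f8c4cab52ca3d7a3367a74fa35a1a5103454c29c0ed2899e4ead112b347ac7628fde039464641f1527aa45aa12105832454dadd1209 (k8 c56 i190 c514 i1180 c1028 c391 c461 i999 (k8 c457 i977 i2754 i758 c36 c1029 c50 c477 (k8 i1814 c520 c494 c547 c20 c11 c413 c590 (k8 i2797 i2671 i148 c390 c548 c378 c496 i2034 (k8 c388 i1863 c1036 c66 i1098 i1597 i1678 i2764 (k8 i1672 i1990 c1037 c507 i884 c1040 i1002 i1035 (k4 i2035 i1725 c428 i1944 (k1 c485 k0)))))))) (by decide +kernel)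
def c1042 : PP 8 4 T 0x11001000000000000004008000000080440000000000000000002000000000004000000 := rS 0xa2a654cbc (k4 i329 i328 i1990 c14 (k1 c85 k0)) (by decide +kernel)
def c1043 : PP 8 4 T 0x11001000000000000044008001414000440000000000000810442080000000064004000 := rS 0x6d82b28fea33e95caa234291c4aa166944d68c (k8 c477 i1964 i647 c413 c457 c590 i211 i1867 (k8 i251 i704 i650 i1234 c1042 c861 i2037 c664 (k2 i673 c1038 k0))) (by decide +kernel)
def c1044 : PP 8 4 T 0x10001000000000000004000000414005040000000180000800442080554800064004008 := rS 0x1fd96553e95d800c118c186b52ca3c820112a859ac762bc22a9b5b945a6a5 (k8 i365 c448 i647 c514 i1180 c36 c520 c547 (k8 c20 c413 c457 c590 i1 c815 c1037 c507 (k8 i884 c1043 i2035 i1571 i1003 i1082 i442 i1234 (k4 i1490 i466 i1516 i2037 k0)))) (by decide +kernel)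
def c1045 : PP 8 4 T 0x1000000000000010100010014002040000000180000800542000000000004000000 := rS 0x4411cb582954b257659992a6843994db174622e2a77 (k8 c993 c36 c517 c477 c552 i1643 i1552 i1644 (k8 c335 i1678 i1820 c173 i649 c568 i910 c63 (k4 i885 c101 c83 c455 k0))) (by decide +kernel)
def c1046 : PP 8 4 T 0x10001000000000000014000000414001040000000180000800442080554800064004008 := rS 0xe506881447e3ec41964782954ae6c321a50ab52ca791e2550b3516c762bc0a2d3 (k8 c448 i647 c520 c547 c20 c517 c413 c457 (k8 c590 c1037 c1044 c507 i884 i1605 i1566 c187 (k8 c275 i650 i911 c75 i1695 i673 c83 c433 (k4 i2037 c861 i719 i1647 (k2 c470 c77 k0))))) (by decide +kernel)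
def c1047 : PP 8 4 T 0x1000000000000008100010014000002000100080000800542000000000024000000 := rS 0xb53e954fe592bb2d0c8e32a162e79 (k8 i148 c420 i1870 i2703 i1149 i1150 c173 i650 (k4 c568 i2477 i766 i1710 (k2 i2627 i2037 k0))) (by decide +kernel)
def c1048 : PP 8 4 T 0x10001000000000000004140010554001040000000000400000002000008800004000018 := rS 0xbf5daf4da69a732d249f32918cd17 (k8 c389 i193 i192 i1546 i1711 i319 c173 c566 (k4 i1623 i1695 i1370 i1639 (k2 c471 i2043 k0))) (by decide +kernel)
def c1049 : PP 8 4 T 0x1002000000000000000000400000042000000080000800002000440000004000018 := rS 0x593fad4fa572ab2cca8e4a88c8f171a0ccd6cf4ea04381f5c8b962ab56abca67568909923d63bc0728c8c83c9ea90b0648a51 (k8 i647 c1028 c391 c461 i2754 i758 c1029 c50 (k8 c477 i1814 c520 c20 c11 i2776 i999 i2797 (k8 i2671 c418 c503 c34 c37 c373 c1041 i2780 (k8 i238 i1080 i1235 c1045 c1047 i1964 c1048 c1046 (k8 c406 i207 i246 i2760 i1116 i2700 c173 i704 (k4 i442 i1234 i885 i2477 (k2 c568 i2037 k0))))))) (by decide +kernel)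
def c1050 : PP 8 4 T 0x1001000000000000000000000000000442000000000000000802000540100004000010 := rS 0x53511122f4c981063d1fbc2320b (k8 c952 c50 c520 c494 c11 c523 c593 i1111 (k4 i1015 i1278 c85 i2034 (k1 c14 k0))) (by decide +kernel)
def c1051 : PP 8 4 T 0x1000000000000000000000000000000000000080000000202080000400004000008 := rS 0xd344818124100c545aa1 (k8 c457 i977 c36 i1 c815 i1310 i439 i190 (k2 c378 c548 k0)) (by decide +kernel)
def c1052 : PP 8 4 T 0x1000000000000000000000000000042000000080000800002000440400004000018 := rS 0xfc28c349ea929a6d6e2d509082c1922c54728c (k8 c477 i1814 c36 c1028 c391 c461 i999 c457 (k8 i977 c514 i1180 c1050 i2754 i758 c534 c1051 (k2 c427 c1041 k0))) (by decide +kernel)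
def c1053 : PP 8 4 T 0x1002000000000000000010000000000000800080000000002000020000045000008 := rS 0x2d12a4f549448416 (k8 c461 i999 i440 i2754 i758 i2760 c1030 i885 k0) (by decide +kernel)
def c1054 : PP 8 4 T 0x1000000000000005050002000001000000000090000000002000550801004000000 := rS 0xcd1c93 (k4 i1368 i884 i319 c1037 k0) (by decide +kernel)
def c1055 : PP 8 4 T 0x11001000000000000044000000000101460200000000010000002000554000004000008 := rS 0x146e560b093e3163b15e143 (k8 c66 c520 c547 c20 i1002 i1035 i2035 i1517 (k2 c444 c1042 (k1 c561 k0))) (by decide +kernel)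
def c1056 : PP 8 4 T 0x1000000000000000400001014010000000010000000014542000002800004000008 := rS 0xfe55600308201 (k4 i1 c815 i1003 i1082 (k2 i1490 i1516 (k1 i2037 k0))) (by decide +kernel)
def c1057 : PP 8 4 T 0x1000000000000004050000000005000000000000420000002000555000004004000 := rS 0x308db05 (k4 c75 i1699 i2035 c1038 k0) (by decide +kernel)
def c1058 : PP 8 4 T 0x1000000000000014450001014011400000810000020814542000554800004004008 := rS 0x3f95576694f0c4d68c (k8 c477 i1964 c1056 c1057 i1566 i1686 i911 i926 (k1 i2037 k0)) (by decide +kernel)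
def c1059 : PP 8 4 T 0x11011000000000000014000001000011660000800100000810542000554800004004008 := rS 0x27c62bf60b28c8573ed0d8ec57834d5aab7e1ad18a5 (k8 i365 c477 i1964 c427 c37 c34 c448 c520 (k8 c547 c20 c66 i1597 c695 c1055 c1058 i1246 (k4 i1454 i1082 i1113 c1057 k0))) (by decide +kernel)
def c1060 : PP 8 4 T 0x11011000000000000014000001000001640000800100000800542080554800004004008 := rS 0xc65414fe7d2b955768523b95849f18a54b28f12a859ac762bc15aab7e1ad18a5 (k8 i365 c477 i1964 c427 c37 c34 c520 c547 (k8 c20 c413 c457 c590 c1037 c507 c1059 i1081 (k8 i1112 i2035 c444 i211 i1867 i1945 i704 i650 (k4 i1442 i926 c664 i2037 (k2 c77 i466 k0))))) (by decide +kernel)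
def c1061 : PP 8 4 T 0x1000000000000000000000000000042000000080000800002000440000004000018 := rS 0x7d3f954b25765b04ca21330362e325a8d50498a2b3d3ab255ab5f881288703eb9698b8a69b1693e1b15899c402a93ab459225509099ab71eb1d8af01ca32320f0b0648a77 (k8 c993 c1028 c391 c461 c1029 c50 c477 i1814 (k8 c520 c547 c20 c11 c514 c413 i999 c457 (k8 c590 i2776 i2797 i2671 i2754 i1 i917 c390 (k8 c36 c534 i758 i977 i1180 c1050 c1052 c448 (k8 i2780 i238 i1080 i440 i1235 c427 c34 c37 (k8 c1049 c1045 c1047 c76 c85 c440 c1053 c1054 (k8 c1060 c389 i1610 i193 i1611 i1546 i1614 c173 (k4 i441 c456 i1619 i719 (k2 c845 i2037 k0))))))))) (by decide +kernel)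
def c1062 : PP 8 4 T 0x1000000000000040000000014000000000000000004000542080008100044000008 := rS 0x761a7e5ac40fb0565954b257608848c66068054277 (k8 c993 c457 i1 i1610 i193 i192 i1611 i1614 (k8 i441 c456 i1619 i545 c425 c845 c83 c463 (k4 i2037 c408 i719 c600 k0))) (by decide +kernel)
def c1063 : PP 8 4 T 0x1000000000000010150000000000000000000000000802002080554000004004001 := rS 0x9d18b3d869f43118d077 (k8 c993 i911 i704 i910 i1566 i1829 i1833 i1532 (k2 i1644 i2035 k0)) (by decide +kernel)
def c1064 : PP 8 4 T 0x1000000000000001000000000000040400005014010416000110150005015142000554000044000000 := rS 0x3097a9f4e8c59e82432891f0d3f44d8ec578464a677 (k8 c993 c528 c50 c520 c547 c20 c390 i2037 (k8 c408 i846 c861 c773 c440 i1149 i1651 i1644 (k4 c770 i1415 i2035 i329 k0))) (by decide +kernel)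
def c1065 : PP 8 4 T 0x1000000000000040000000015010014000020100005000102000014001044000000 := rS 0x631772a398077 (k4 c993 c845 c267 c0 (k2 c504 i985 (k1 c510 k0))) (by decide +kernel)
def c1066 : PP 8 4 T 0x1000000000000010000000000000002000000100000108002080554000004000008 := rS 0x61b3d3a9f188890e6c32b35185e63b15e119 (k8 c50 c520 c547 c20 c840 c477 c413 i1579 (k8 i649 i1706 i442 i1002 i1035 i1643 i1150 i251 (k1 i2035 k0))) (by decide +kernel)
def c1067 : PP 8 4 T 0x1000000000000000000000000000002000000000000820002000554001004004000 := rS 0x13acf35a7c626443a399a8b63b15e119 (k8 c50 c520 c547 c20 c517 c413 c507 c584 (k4 c568 i985 i1188 i630 (k2 i1150 i1552 (k1 c1057 k0)))) (by decide +kernel)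
def c1068 : PP 8 4 T 0x1000000000000000808000004800000000000000400000002000000000004004000 := rS 0x28d780c3611dcb05 (k8 c434 c444 i211 c1038 c77 i674 i1647 i1985 k0) (by decide +kernel)
def c1069 : PP 8 4 T 0x1000000000000000800000004800402200000000404011102000554000004004008 := rS 0x600d4faf54ac367a3d3b105f99e86c762bc23345 (k8 c14 c50 c520 c547 c20 c531 i545 i1454 (k8 c197 i1820 c416 i1149 c1068 i367 i1984 c258 (k2 i466 i2035 (k1 i1003 k0)))) (by decide +kernel)
def c1070 : PP 8 4 T 0x1000000000000000000002015000014400000100005000142000000000004000000 := rS 0x8b2e22277 (k4 c993 c463 c769 c595 (k1 c487 k0)) (by decide +kernel)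
def c1071 : PP 8 4 T 0x1000000000000010100000015800016000000150005100042080550000004004008 := rS 0x2f186ce47274d3045fd0e22b4659acb2573e954022566a2d8ec578465329b46514665140a843eb72f34c5a53 (k8 c528 i1000 c496 c840 c514 i243 c457 i1860 (k8 i648 c1062 c14 c477 i1033 i1110 c50 c520 (k8 c547 c20 c517 c413 c590 i1 c1063 c1065 (k8 c1066 c1067 i629 c1069 c1064 c463 c580 i1456 (k8 c83 c63 c335 c1070 c1037 c729 c255 i1984 k0))))) (by decide +kernel)
def c1072 : PP 8 4 T 0x1002000000000000000000000000042000000040000100002000540000004000008 := rS 0x1854e5221d68cb5e9f50a593fc44ae5551880ca8e1191c686349a54a3140fa068aa644a6c5a0955ab49e61899c5527564a8484cd462dcbcd11eb147ef08c83ca62f0b0648a99 (k8 i1110 c1028 c391 c461 i1079 c528 c1029 c50 (k8 c520 c494 c547 c11 i2797 c840 c514 c477 (k8 c413 i999 c457 i2776 i2671 i2754 i917 c390 (k8 c384 c19 c34 c37 c56 i1000 i1033 i190 (k8 i2034 c14 i1860 i243 c85 i648 c386 c12 (k8 c80 c1071 i207 i246 i1116 i2700 i1117 i326 (k8 i704 i442 c416 i846 c568 i1503 i1502 i1985 (k4 c197 i2037 i934 i728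 (k2 c398 i367 (k1 c428 k0)))))))))) (by decide +kernel)
def c1073 : PP 8 4 T 0x1001000000000000400002000000000000000000000000042000000000204000000 := rS 0xe0969a90380b (k4 c952 i727 i728 c405 (k2 i1261 i1379 (k1 c369 k0))) (by decide +kernel)
def c1074 : PP 8 4 T 0x1000000000000000000000014000046000000040005100042000550000004000008 := rS 0x9553451362d38aa4ea4264a30bcd11e8fde119078bc2c1922a65fa89 (k8 i191 c1072 i1110 c1028 c391 c461 i1079 c1029 (k8 c50 c520 c494 c11 i2797 c840 c477 i2776 (k8 i999 i2671 i2754 i917 i1000 i1033 c573 i2034 (k2 c386 c1071 k0)))) (by decide +kernel)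
def c1075 : PP 8 4 T 0x101000000000000005050000000005000000000000000000002000545001104800000 := rS 0x46e56123c6a77 (k4 c993 i1117 c1037 i2035 (k2 c734 i251 (k1 c392 k0))) (by decide +kernel)
def c1076 : PP 8 4 T 0x1001000000000001400002054000002240000000000000042000540000004800008 := rS 0xb258d1504bc43338429f18a7466653491e08d1129098ec5784662343 (k8 c580 c463 c50 c520 c547 c20 i999 c590 (k8 i2797 c546 c425 c63 c75 i192 c335 i1002 (k8 i1035 c1073 c1075 i1150 i934 i933 c81 i1295 (k2 c371 i1413 k0)))) (by decide +kernel)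
def c1077 : PP 8 4 T 0x1000000000000000000000000000002000000000000820002000440001004804010 := rS 0x27466cf35a7c62353221d1c2166a2d8ec5780e51919 (k8 c50 c477 i1814 c520 c547 c20 c517 c413 (k8 c465 c507 c584 c568 i1117 i985 i1188 i630 (k4 i1150 i1546 i1552 c1057 k0))) (by decide +kernel)
def c1078 : PP 8 4 T 0x21000000000000010800001000008046640000144000000002000000000004000000 := rS 0x28b154dac92861362e632714c9fcfa77 (k8 c993 c57 c408 i1110 i917 c50 i2710 c275 (k4 i1391 i2044 i673 i1033 (k2 c386 c76 (k1 c85 k0)))) (by decide +kernel)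
def c1079 : PP 8 4 T 0x21000000000000004850001000004144640000154420000002005450400004004018 := rS 0x1368916a9d28610329146c35c830da304e8cc02393f9f60a77 (k8 c993 c434 c57 c408 i1814 i1 i1546 i1552 (k8 c1057 i1699 i1003 i2677 c1038 i2983 i466 i465 (k4 i1391 i2044 i367 i979 (k2 i1341 i1033 (k1 i2034 k0))))) (by decide +kernel)
def c1080 : PP 8 4 T 0x1100000000000000000200100000000000000001400000002000000000004000000 := rS 0xd34f (k2 c521 i1834 (k1 c550 k0)) (by decide +kernel)
def c1081 : PP 8 4 T 0x1000000000000000800000014000042000000000000100142000440000104000018 := rS 0x9c338cc8ca461820da8859a9e89153126c5a31309953ecf47ad62093829c4ea6f64a2c7ac7628fde11917a64d6590789618fd1ca30a6732f3446a55210583245 (k8 c1028 c391 c461 i999 i703 i1117 i2797 c840 (k8 c1061 c528 c477 i1814 c1072 c427 c590 c1029 (k8 c1077 i629 i1110 i1079 c50 c520 c494 c547 (k8 c20 c11 c517 i2776 i2670 i2671 i917 c434 (k8 i1367 c197 c463 c416 i1149 c1078 c1079 i1392 (k8 i1002 i1000 i1033 c1074 c80 c85 c14 c76 (k8 i2034 i673 i190 c1038 i1387 i1388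 i2067 i1617 (k2 i2035 i1820 k0)))))))) (by decide +kernel)
def c1082 : PP 8 4 T 0x1000000000000000000000014000042000000000000100142000440000104000018 := rS 0x32061596acb2a8d4027566a2d5e5907894847f3ec31fa394614ce65e688583245 (k8 c1028 c391 c461 i2797 c840 c1061 c528 c477 (k8 i1814 c1072 c427 c57 c408 i999 c590 c1029 (k8 c1077 i589 c517 c413 i2671 i1 i1117 i703 (k4 c1081 c1076 i2037 i441 (k2 c1066 i1610 k0))))) (by decide +kernel)
def c1083 : PP 8 4 T 0x1000000000000010150000000000000000000000000802002080544000004004001 := rS 0x6846 (k2 i704 c1063 (k1 i207 k0)) (by decide +kernel)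
def c1084 : PP 8 4 T 0x1001000000000000400000014000000000000000000015542000000000204000000 := rS 0x5a9fcfb0c (k4 c427 c57 c408 c1073 (k1 i2037 k0)) (by decide +kernel)
def c1085 : PP 8 4 T 0x1000000000000000000000014000042000000000000100142000440000004000018 := rS 0x14e9b16b0862614e994d29f1ab3d12b50623c131049c1594472a8ccaee5101c4027537b25163d63b147ef08c8bd326b2c83c4a42863f4728c299ccbcd10b0648a77 (k8 c993 c1028 c391 c461 i2797 c840 c1061 c528 (k8 c477 i1814 c1072 c427 i999 c590 c1029 c1077 (k8 i629 i1110 i1079 c50 c520 c494 c547 c20 (k8 c11 c517 i2776 i2670 i2671 i1 i917 c1082 (k8 c470 i1498 i1611 c1083 i1529 c1084 c434 i1367 (k8 c197 i1388 c833 c77 c463 i190 i1149 i1116 (k8 c1078 i1495 c1079 c335 i1392 i1002 i2035 i1000 (k2 i1033 c1068 (k1 i2034 k0))))))))) (by decide +kernel)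
def c1086 : PP 8 4 T 0x21001000001000000000001009000000400000154010000002000014000004000008 := rS 0x30c5528635c99e2c313f9f52677 (k8 c993 i1636 c57 c408 i1002 c510 c486 c487 (k4 i537 i2044 c386 i1018 (k1 c573 k0))) (by decide +kernel)
def c1087 : PP 8 4 T 0x1000000000000000000000008000140200000000020000002005440500004000010 := rS 0x69299371544a50c039 (k8 i1814 i1660 i1659 i1278 c386 i2708 i2034 c548 (k1 c496 k0)) (by decide +kernel)
def c1088 : PP 8 4 T 0x21001000000000000000001009000000000000154010000002000014000204000008 := rS 0x11ee5 (k2 c470 i726 (k1 c1086 k0)) (by decide +kernel)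
def c1089 : PP 8 4 T 0x14001000000000000010000400008005800040000000000000002000000000004000000 := rS 0xa71b19eb2 (k4 c868 i1152 i665 c566 (k1 c59 k0)) (by decide +kernel)
def c1090 : PP 8 4 T 0x21001000000000000000001048000042240000040000010002000444000204000018 := rS 0x4b4d4c9b4e9a608894745c689f328b40e475195ce2013a9bda225210f47ef01cc645e993fa4d52160c9157e0b (k8 c952 i1722 c1028 c391 c461 i2754 i1636 c408 (k8 i1110 i1079 c50 i1814 c520 c494 c11 i999 (k8 c590 i2797 i2670 i2671 i1 i917 i1498 i1649 (k8 i2987 i458 i1001 c1087 i1035 c1088 c406 i1116 (k8 i359 c833 c63 c335 c1089 i2034 c496 i203 (k1 c369 k0)))))) (by decide +kernel)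
def c1091 : PP 8 4 T 0x1001000000000010050000048804100040000000000000002000555000004000000 := rS 0x186cf52ae93a06591a412b169d15960b (k8 c952 i123 c14 c496 i1822 i203 i1662 c371 (k4 c369 c335 i666 i1379 (k2 i1950 i1945 (k1 i2035 k0)))) (by decide +kernel)
def c1092 : PP 8 4 T 0x21001000000000000000001008004062000000040010000002000554000004000008 := rS 0xc27233d3a8f38aa4ea6f0b0648ac762bc23231 (k8 i1002 c50 c520 c547 c20 c1028 c391 c461 (k8 i2670 i2671 i2754 i917 i1102 i1678 i2764 c1086 (k2 i2035 c444 k0))) (by decide +kernel)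
def c1093 : PP 8 4 T 0x1000000000000010050400008404800040000000000000002000555000004000000 := rS 0x30d3aba34b3d64b1 (k8 i1298 c868 i1152 i1662 i666 c335 i1944 i2035 k0) (by decide +kernel)
def c1094 : PP 8 4 T 0x21001000000000000000001048000042240000040010000002000554000004000008 := rS 0x9d67b0cd2e5510300c2c4da24c69553a7c62d11eb1d8a3f784645e160c91532bf (k8 i1722 i1110 c1028 c391 c461 i1079 c50 c520 (k8 c494 c547 c20 c11 i2797 i1002 i1035 c1091 (k8 c1092 i538 i191 c1093 i2034 i1001 i457 i458 (k4 c4 i1495 i328 c168 (k2 c335 i2035 k0))))) (by decide +kernel)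
def c1095 : PP 8 4 T 0x1000000000000000000000008000140200000000020000002005440400004000018 := rS 0x5894 (k2 i1659 c1087 (k1 i2674 k0)) (by decide +kernel)
def c1096 : PP 8 4 T 0x1000000000000000000000048000140200000000000000002005548400004000008 := rS 0x9a44acd4e2d510212a07231981a01 (k8 i1 i1610 i193 i192 i457 i3001 i1656 i1655 (k4 i1001 i203 i1427 i281 (k2 i2034 i1034 k0))) (by decide +kernel)
def c1097 : PP 8 4 T 0x21001000000000000000001048000042240000040000010002000440000004000018 := rS 0x6821328cd322f0b0648a3f1ebc23239 (k8 i1814 c50 c520 c11 c494 c1028 c391 c461 (k4 i1079 i1110 c1096 c1095 (k2 c1090 c1094 (k1 i1117 k0)))) (by decide +kernel)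
def c1098 : PP 8 4 T 0x21000000000000000000000008000042000000000000100042000440000004000018 := rS 0x58d1566825da199c9d34c10ae3510c4568334f8c4ca55659d59a8b1eb1d8a3f784645e995794dfa731ca30b20f12908bcd10b0648a7f (k8 c408 c1028 c391 c461 i2797 c840 i999 c590 (k8 c1029 c1077 c477 i1814 c1061 c1072 c528 i589 (k8 i1110 i1079 c50 c520 c494 c547 c20 c11 (k8 c517 c413 i2671 i123 i1657 c1095 i1002 i1035 (k8 c1096 c1097 c463 c1073 i1117 c1066 c83 c63 (k8 c335 c1075 i1150 i1950 i933 i666 c81 i1295 (k1 c371 k0))))))) (by decide +kernel)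
def c1099 : PP 8 4 T 0x1100000000000010150011000000010010050154000814002080555400044004001 := rS 0x182d2720b62b174923c47102a8954277 (k8 c993 c457 c590 c1083 c83 c454 c416 i2044 (k4 c436 c12 i1242 c510 (k2 c548 c0 (k1 c246 k0)))) (by decide +kernel)
def c1100 : PP 8 4 T 0x1000000000000010150000020000010000050154010810002080550400044004008 := rS 0x1d11b4a20c1491544246330c91263188044aa182a94aeb95aa8cee0b (k8 c952 c993 i1554 i1288 i1290 i1581 i1286 c488 (k8 c457 c590 i1 i1002 i1353 i191 c1099 i193 (k8 i192 i1611 i1619 i1621 i2971 c83 c878 c454 (k2 c405 i2030 k0)))) (by decide +kernel)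
def c1101 : PP 8 4 T 0x1100000000000010100151000000052000150144020804002080440000004004011 := rS 0x106875fd129c854da7e2b1788248aa8f4e8cd9e7166add16c762bc0728c8ca64b2250b0648a77 (k8 c993 c1028 c391 c461 c590 c1077 i1110 c50 (k8 c477 i1814 c520 c547 c20 c517 c514 c413 (k8 i917 i2703 i1546 i1552 i1025 c1083 i2044 c83 (k8 c436 c12 i1718 i1450 c6 c566 c85 c471 (k2 c67 c81 (k1 i2047 k0)))))) (by decide +kernel)
def c1102 : PP 8 4 T 0x1000000000000000000000000000042000000000000100142000440000004000018 := rS 0x8e238d0cabb5ead572574ac1558ab0f9f4fe81861c402a93a9bd92c762bc2322f5794dfa731ca30d65907894845e688583245 (k8 c1028 c391 c461 i2797 c840 i999 c590 c1029 (k8 c1077 i629 c477 i1814 c1061 c1072 c528 i589 (k8 i1079 c50 c520 c547 c20 i2776 i2670 i2671 (k8 i2754 i1 i917 c427 c2 c408 c57 c452 (k8 c1098 c1085 c488 i1558 i1581 i1290 i1288 i1292 (k4 i1560 c1101 c1100 i207 (k2 i1116 c833 k0))))))) (by decide +kernel)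
def c1103 : PP 8 4 T 0x1000000000000010000000000000140000000010000800082085540400004000001 := rS 0x448b536a70e021600b (k8 c952 i909 i702 i701 i1822 i1298 i1264 i1342 (k1 i2034 k0)) (by decide +kernel)
def c1104 : PP 8 4 T 0x1000000000000000000000000000042000000000000100002000000000004080018 := rS 0xb54e9b8a079010d2813d322f398fc7af01ca31423b2f0dc84d13780632710b0648a11 (k8 i6 c1028 c391 c461 i917 c50 i1 i2670 (k8 i2797 i999 i1005 c840 i215 c457 c477 i1814 (k8 c520 c11 c494 c1061 i1079 i1110 c1103 c1102 (k8 c377 i648 i440 c379 i1336 i1860 i1303 c745 k0)))) (by decide +kernel)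
def c1105 : PP 8 4 T 0x11000000000000000000000000010000000000004000000002000000200014000000 := rS 0x3ed3 (k2 c556 i1303 (k1 c600 k0)) (by decide +kernel)
def c1106 : PP 8 4 T 0x1100000000000080000001000010000800050000000004002020000000044800000 := rS 0x72894a821889658223 (k8 i185 c539 i2595 c416 i2497 c83 i2520 c246 (k1 c392 k0)) (by decide +kernel)
def c1107 : PP 8 4 T 0x1000000000000080000001000040014410050050000000002000000100454800002 := rS 0x14a21190c62ee55c094de751aa858277 (k8 c993 c539 i821 c601 c574 c382 i860 i2044 (k4 c246 c487 i986 c510 (k2 i1611 i288 (k1 i2030 k0)))) (by decide +kernel)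
def c1108 : PP 8 4 T 0x501000000000000021500000811100014005000000015000002000000054504800000 := rS 0x2e060ab33890dac3a731d8af0 (k8 c512 c547 c20 c398 c428 c59 i2032 i657 (k4 i665 i861 i2040 i987 k0)) (by decide +kernel)
def c1109 : PP 8 4 T 0x1000000000000022500004811000014000804000015000002000000000004000000 := rS 0x2e556675f2ed3acf (k8 c599 i1909 i1948 i895 i658 i666 i1458 i2040 k0) (by decide +kernel)
def c1110 : PP 8 4 T 0x501000000000000021000000811000014005000000015000082000000154504880000 := rS 0x32d72c92a8c156671203cdac3a731d8af0 (k8 c512 c547 c20 c398 c428 c59 i344 i2032 (k8 i657 i665 i861 i764 c431 i986 i1390 i2040 k0)) (by decide +kernel)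
def c1111 : PP 8 4 T 0x1000000000000020000000000000002000000000020080002040000054004800002 := rS 0x43a14462161b344a6b3695c604647b24ea8d63b15e113 (k8 c390 c512 c547 c20 i2637 c574 i120 i2634 (k8 i963 i962 i1579 i1700 i631 i860 i892 i211 (k4 i1530 i1571 i1812 i778 (k1 i2032 k0)))) (by decide +kernel)
def c1112 : PP 8 4 T 0x1000000000000020000000000000014008050154010080002000000000004000000 := rS 0x3222f055c19ca8b54ea3d9e77 (k8 c993 c599 i932 i1644 i2532 i777 i658 i2044 (k4 c49 c487 c532 c459 k0)) (by decide +kernel)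
def c1113 : PP 8 4 T 0x1000000000000000000000000000014000050050010000002020000000204000002 := rS 0x8b414ceb86495066b5479bcea77 (k8 c993 c574 c382 i2497 i2498 i1611 i743 c459 (k4 i2044 i450 c49 c532 (k1 c487 k0))) (by decide +kernel)
def c1114 : PP 8 4 T 0x501000000000000021500000811000000005000000015000082000000054504880000 := rS 0x3b4d482c048fde09549c51fa0b (k8 c952 c19 c573 c12 c386 c512 c494 i1427 (k4 c1110 c1108 c556 i1379 (k1 c369 k0))) (by decide +kernel)
def c1115 : PP 8 4 T 0x1001000000000000500000111000000100000000215000002000000000004000000 := rS 0x2e2846755a552714 (k8 c573 c12 c386 i1662 i1624 c933 i2040 c543 k0) (by decide +kernel)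
def c1116 : PP 8 4 T 0x1000000000000020000000020000006001000050010084082020000054004800002 := rS 0x3099a252a4451c214388cfa6f3ab1d8af089c14fe534aaa56a59 (k8 i2595 i1288 c577 i1558 i2575 i1556 c488 c390 (k8 c512 c547 c20 c574 c382 i1274 i185 c1112 (k8 c1113 c831 c416 c83 i2520 i2524 i2032 c865 k0))) (by decide +kernel)
def c1117 : PP 8 4 T 0x1000000000000020000000020000006001500050010080082020000054044800002 := rS 0xa70ed100f0d3e1587a3f7844d42b7 (k8 i854 i821 c390 c512 c494 c11 c1116 i1581 (k4 c57 i2817 c440 i742 (k2 c14 i2031 k0))) (by decide +kernel)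
def c1118 : PP 8 4 T 0x1000000000000020000000020000006001400050010080102020000054004800002 := rS 0x958046888191c2104b4cfaa6860749e3d1fbc226a15babd021f7e9fca69554ad4b20b (k8 c952 i2595 i1288 c577 i1558 i2575 i1556 c34 (k8 i183 i1810 i591 i854 i821 c390 c512 c494 (k8 c11 c1117 i741 c427 i2031 c57 c496 i203 (k8 c1113 c831 c369 c416 i1226 i1225 i205 c224 k0)))) (by decide +kernel)
def c1119 : PP 8 4 T 0x1000000000000000000000021000008000000000004000002000000000004000002 := rS 0x306466161822afd (k8 c34 c12 c573 i960 i1282 i1242 i449 i2965 k0) (by decide +kernel)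
def c1120 : PP 8 4 T 0x1000000000000000000000020000042040400040010100102020000044004000002 := rS 0x1444d4353ab93e3257ebd2b27caa8433a4d7695829c4ea294cb3cc6b757aa5a08d8ca04b45f0b0648b13 (k8 c390 c1028 c391 c461 i2611 c492 i1810 c50 (k8 i2637 c401 c577 i591 i854 i656 c599 c516 (k8 i187 c574 i917 c488 i1558 i1560 c1119 i1621 (k8 c1118 i1544 i1605 i1812 i3065 i1608 c564 i1581 (k4 i1290 c343 c57 i2048 (k2 c440 c419 k0)))))) (by decide +kernel)
def c1121 : PP 8 4 T 0x1000000000000004050000000000000142000100010180002000550010004800000 := rS 0x46e5128c11e338b274cf0564b0cd09f2a8862277 (k8 c993 c6 i1503 i1544 i1605 i1811 i1866 c564 (k8 c63 i1624 c343 c532 c389 c504 i2035 i860 (k2 c734 i1571 (k1 c392 k0)))) (by decide +kernel)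
def c1122 : PP 8 4 T 0x101000000000000005050000000005000005000100000000002000544055104800000 := rS 0x8860c3 (k4 c865 c1075 i2032 i1571 k0) (by decide +kernel)
def c1123 : PP 8 4 T 0x10001000000000000000000004001014160000500000004000002025000054044000002 := rS 0xea9c9f447e26cc315 (k8 c386 i2632 i1181 c573 c85 c19 c14 i741 (k1 i2031 k0)) (by decide +kernel)
def c1124 : PP 8 4 T 0x1000000000000000000004000010000000580000000000002025000054044000000 := rS 0x2983b0d (k4 c408 i2495 i2031 c716 k0) (by decide +kernel)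
def c1125 : PP 8 4 T 0x1000000000000000008015010010004400510050404015502025000054004000002 := rS 0x533283aab27bf0c3154a1bceaa93f87c1e77 (k8 c993 i339 i183 c1124 c577 c574 c382 i2044 (k8 c386 i2632 c573 c19 c37 i741 i2037 i2031 (k1 c1068 k0))) (by decide +kernel)
def c1126 : PP 8 4 T 0x1000000001000000004006000050000000500000000000002005000054054000000 := rS 0xa569b054d43 (k4 c580 i2031 i1247 c496 (k2 i367 c561 k0)) (by decide +kernel)
def c1127 : PP 8 4 T 0x1000000001000000504006011050010000500010054000002065002054144000002 := rS 0x5c2acc2a5030243893 (k8 i1368 c1126 i1262 i742 i1382 i961 i458 i2040 (k1 i987 k0)) (by decide +kernel)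
def c1128 : PP 8 4 T 0x1000000001000040010080000140000000000000000000002000000000004000000 := rS 0x18343 (k2 c490 i1519 (k1 c561 k0)) (by decide +kernel)
def c1129 : PP 8 4 T 0x501000000000000001500004011010010005500010054000002060000054544800002 := rS 0xfabb52c31a6a60ead546307289186bd5fd398ec53f8fc7af0 (k8 c512 c11 c494 c1124 c547 c20 c398 c471 (k8 c521 c428 i2032 c475 i861 i324 c1127 i862 (k4 i2031 c496 c716 i367 (k2 c1128 c57 (k1 i2047 k0))))) (by decide +kernel)
def c1130 : PP 8 4 T 0x1000000001000020500040011840014000000000054000002000002000004000000 := rS 0xc1a1aa9726152ac5a60b (k8 c952 c496 i1822 i368 i1165 i987 i2040 c439 (k2 i1514 c561 k0)) (by decide +kernel)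
def c1131 : PP 8 4 T 0x1000000000000020500044011010014000500000054000002065000056144800002 := rS 0x2e5566152818121c53a8c60e5 (k8 c475 i861 i324 c1130 i2031 i1262 i742 i1382 (k4 i961 i458 i987 i2040 k0)) (by decide +kernel)
def c1132 : PP 8 4 T 0x1000000000000000500000051048014000400000054000002061000000024000002 := rS 0x26d714455ac566fd308189c09 (k8 i1262 i741 i742 i961 c19 i1429 i1227 i458 (k4 c371 i2040 c419 i1189 k0)) (by decide +kernel)
def c1133 : PP 8 4 T 0x400000000000000001000000000000000501044051158014000500000054000002065000055544000002 := rS 0x17f435a1f57ad3a2a983a7f (k8 c1124 c1132 i2031 c14 c496 i1985 c845 i2030 (k2 c580 i1455 (k1 c485 k0))) (by decide +kernel)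
def c1134 : PP 8 4 T 0x400400000000000001000000000000000004440000800000000000000000000002000000000004000000 := rS 0x17b45 (k2 c14 i1984 (k1 c485 k0)) (by decide +kernel)
def c1135 : PP 8 4 T 0x1000000000000020500000010000042805500040050000002440000054144000002 := rS 0x9b5c51156b159bf40c4e0e29cc2bf04d0d440d60b9186a512a4d3cbba7b312b113898c7ac71fbc226a10b0656eaf5488c8045 (k8 c1028 c399 i184 c577 i591 i854 c391 c461 (k8 i821 c390 c512 c494 c20 c11 i656 i917 (k8 c416 i1102 c1129 c491 i1948 i893 i1718 c1131 (k8 c198 c865 c392 c0 c4 c1133 c387 i200 (k8 i1719 i961 c1134 i2031 i741 i742 c19 i1429 (k4 i1227 i457 c371 i2040 (k2 c419 i1189 k0))))))) (by decide +kernel)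
def c1136 : PP 8 4 T 0x1000000000000000008005010090000400510050404015502025004054004000002 := rS 0xc62eb849a946ae5 (k8 c444 c601 i93 i1633 c1125 c487 i987 c510 k0) (by decide +kernel)
def c1137 : PP 8 4 T 0x1001000000000040000000000000000000000000000000002000000000004000140 := rS 0xb (k2 c952 c369 k0) (by decide +kernel)
def c1138 : PP 8 4 T 0x1000000000000000000011000000014400050154000000002000000000004000000 := rS 0x77 (k2 c993 i2044 k0) (by decide +kernel)
def c1139 : PP 8 4 T 0x1000000000000000000000000000000000000000000800002200000000004000000 := rS 0x15 (k2 c709 i643 k0) (by decide +kernel)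
def c1140 : PP 8 4 T 0x1000000000000000000000000080000000000000000000002000000000004008000 := rS 0xb (k2 c952 i322 k0) (by decide +kernel)
def c1141 : PP 8 4 T 0x1000000000000020000000000000000000000000000000002000000000004000020 := rS 0x15 (k2 c709 i651 k0) (by decide +kernel)
def c1142 : PP 8 4 T 0x1000000000000000000000000000000000000000000000002000008000204000000 := rS 0x77 (k2 c993 i1611 k0) (by decide +kernel)
def c1143 : PP 8 4 T 0x1000000000000000054000000000000000000001500000002400000000004055000 := rS 0x15 (k2 c709 i2029 k0) (by decide +kernel)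
def c1144 : PP 8 4 T 0x1000000000000008000000000000000000008000000000002000000000004000000 := rS 0x77 (k2 c993 i1981 k0) (by decide +kernel)
def c1145 : PP 8 4 T 0x1000000000000000401000014140000000000000000000002400000000004005140 := rS 0xb (k2 c952 i2027 k0) (by decide +kernel)
def c1146 : PP 8 4 T 0x1000000000000005000000000005001405005100000000002000000000004000000 := rS 0x77 (k2 c993 i2046 k0) (by decide +kernel)
def c1147 : PP 8 4 T 0x1000000000000000000000002000000000000000000000002000000000004000020 := rS 0xb (k2 c952 i572 k0) (by decide +kernel)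
def c1148 : PP 8 4 T 0x1000000000000000000000000000000200000000000000002000800000004000000 := rS 0x15 (k2 c709 i1030 k0) (by decide +kernel)
def c1149 : PP 8 4 T 0x1000000000000000080000000000000000000000200000002000000000004000000 := rS 0x15 (k2 c709 i1562 k0) (by decide +kernel)
def c1150 : PP 8 4 T 0x1000000000000000000000080000000000000000000000002002000000004000000 := rS 0xb (k2 c952 i1782 k0) (by decide +kernel)
def c1151 : PP 8 4 T 0x1000000000000000000000000020000000000000000000082000000000004000000 := rS 0xb (k2 c952 i756 k0) (by decide +kernel)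
def c1152 : PP 8 4 T 0x1000000000000000000000000000000000000000000000002200000080004000000 := rS 0x15 (k2 c709 i385 k0) (by decide +kernel)
def c1153 : PP 8 4 T 0x1000000000000000020000000000000000000002000000002000000000004000000 := rS 0x15 (k2 c709 i1522 k0) (by decide +kernel)
def c1154 : PP 8 4 T 0x1000000000000000000000000000000000000000002000002000000800004000000 := rS 0xb (k2 c952 i1015 k0) (by decide +kernel)
def c1155 : PP 8 4 T 0x1000000000000000000000000000000000000000080002002000000000004000000 := rS 0x77 (k2 c993 i1619 k0) (by decide +kernel)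
def c1156 : PP 8 4 T 0x1000000000000000000000000020000000000000000000002200000000004000000 := rS 0xb (k2 c952 i308 k0) (by decide +kernel)
def c1157 : PP 8 4 T 0x1000000000000000002000008000000000000000000000002000000000004000000 := rS 0xb (k2 c952 i1514 k0) (by decide +kernel)
def c1158 : PP 8 4 T 0x1000000000000000000000000000000000000000000080002000000080004000000 := rS 0x15 (k2 c709 i772 k0) (by decide +kernel)
def c1159 : PP 8 4 T 0x1000000000000000000000000000000000000002000000002000000000004008000 := rS 0x15 (k2 c709 i667 k0) (by decide +kernel)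
def c1160 : PP 8 4 T 0x1000000000000000000000540400000000000000000000002005000000004050140 := rS 0x1615 (k2 c709 c952 (k1 i2028 k0)) (by decide +kernel)
def c1161 : PP 8 4 T 0x1000000000000000000000200000000000000000000000002008000000004000000 := rS 0x15 (k2 c709 i1294 k0) (by decide +kernel)
def c1162 : PP 8 4 T 0x1000000000000000000000000000008000080000000000002000000000004000000 := rS 0x77 (k2 c993 i1637 k0) (by decide +kernel)
def c1163 : PP 8 4 T 0x1000000000000000000000000000000000000000000000002000008000006000000 := rS 0x77 (k2 c993 i233 k0) (by decide +kernel)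
def c1164 : PP 8 4 T 0x1000000000000000000000200800000000000000000000002000000000004000000 := rS 0xb (k2 c952 i1822 k0) (by decide +kernel)
def c1165 : PP 8 4 T 0x1000000000000000000000008000000000000000000000002000000000004008000 := rS 0xb (k2 c952 i579 k0) (by decide +kernel)
def c1166 : PP 8 4 T 0x1000000000000000000020000000000000000020000000002000000000004000000 := rS 0x77 (k2 c993 i1408 k0) (by decide +kernel)
def c1167 : PP 8 4 T 0x1000001000000000000000000000000000000000000000002000000000004050000 := rS 0x15 (k2 c709 c540 k0) (by decide +kernel)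
def c1168 : PP 8 4 T 0x1000000000000000000000800000000000000000000000002002000000004000000 := rS 0x15 (k2 c709 i1254 k0) (by decide +kernel)
def c1169 : PP 8 4 T 0x1000000000000000000000000000000000000000000000002000800000004000020 := rS 0x15 (k2 c709 i392 k0) (by decide +kernel)
def c1170 : PP 8 4 T 0x1000000000000000000000000000000000000000000000002000000800004000020 := rS 0xb (k2 c952 i315 k0) (by decide +kernel)
def c1171 : PP 8 4 T 0x4101000000000000000000000000000000400000100000000002000000000004000000 := rS 0x77 (k2 c993 c595 k0) (by decide +kernel)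
def c1172 : PP 8 4 T 0x1000000000000000080000000000000000000000000000002000000000004008000 := rS 0x15 (k2 c709 i408 k0) (by decide +kernel)
def c1173 : PP 8 4 T 0x1000000000000000000000000000000000000000000000802200000000004000000 := rS 0xb (k2 c952 i564 k0) (by decide +kernel)
def c1174 : PP 8 4 T 0x1000000000000000000000000002000008000000000000002000000000004000000 := rS 0x77 (k2 c993 i1644 k0) (by decide +kernel)
def c1175 : PP 8 4 T 0x101100000000000000001000014000000000000000000011102400000001084001140 := rS 0xb (k2 c952 c92 k0) (by decide +kernel)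
def c1176 : PP 8 4 T 0x1200000000000000000000014000000820000080000000002400000001084000160 := rS 0xb (k2 c952 c93 k0) (by decide +kernel)
def c1177 : PP 8 4 T 0x1100000000000000400000014040000000000000000000002400000000004005140 := rS 0xb (k2 c952 c338 k0) (by decide +kernel)
def c1178 : PP 8 4 T 0x1100000000000004000000000005001605005101000000002000000000004000000 := rS 0x77 (k2 c993 c113 k0) (by decide +kernel)
def c1179 : PP 8 4 T 0x1000000000000000000000014000000820000080000000102200000000084800160 := rS 0xb (k2 c952 c124 k0) (by decide +kernel)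
def c1180 : PP 8 4 T 0x1001000000000000000000011014000000400000100080000542000000000004000000 := rS 0x77 (k2 c993 c133 k0) (by decide +kernel)
def c1181 : PP 8 4 T 0x1000000000000000001000014040000810000000000000102200000000084800160 := rS 0xb (k2 c952 c147 k0) (by decide +kernel)
def c1182 : PP 8 4 T 0x1000000000000000001000014040000800000000000000102200000000044800160 := rS 0xb (k2 c952 c182 k0) (by decide +kernel)
def c1183 : PP 8 4 T 0x1201000000000000004000011014004001444005100000000542000000000004000000 := rS 0x77 (k2 c993 c188 k0) (by decide +kernel)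
def c1184 : PP 8 4 T 0x1000000000000080000000014000000800000000000000102200000000044800160 := rS 0xb (k2 c952 c227 k0) (by decide +kernel)
def c1185 : PP 8 4 T 0x1000000000008801000000000000004000114000004011400055154000000002000000000004000000 := rS 0x77 (k2 c993 c229 k0) (by decide +kernel)
def c1186 : PP 8 4 T 0x801000000000000004000004014004241440005154000000542000000000004000000 := rS 0x77 (k2 c993 c232 k0) (by decide +kernel)
def c1187 : PP 8 4 T 0x1000000000000000000000000000000000000020000000002000000000004800060 := rS 0xb (k2 c952 c254 k0) (by decide +kernel)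
def c1188 : PP 8 4 T 0x101000000000000000400010015000014400000100005001002000000000004000000 := rS 0x77 (k2 c993 c263 k0) (by decide +kernel)
def c1189 : PP 8 4 T 0x1000000000000080000000014000000810000000000000102200000000004800160 := rS 0xb (k2 c952 c266 k0) (by decide +kernel)
def c1190 : PP 8 4 T 0x1000000000000000000000015000014400020100005000102000000000004000000 := rS 0x77 (k2 c993 c267 k0) (by decide +kernel)
def c1191 : PP 8 4 T 0x1000000000000000401000014040000000000000000000202400000000804005140 := rS 0xb (k2 c952 c317 k0) (by decide +kernel)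
def c1192 : PP 8 4 T 0x1000000000000000000000008000000000000000000000202000000000804000140 := rS 0xb (k2 c952 c319 k0) (by decide +kernel)
def c1193 : PP 8 4 T 0x1000000000000000100000010000000000000000000008202600000500804801040 := rS 0x77 (k2 c993 c320 k0) (by decide +kernel)
def c1194 : PP 8 4 T 0x901000000000000000000000049005001004005100001000202000000000004000000 := rS 0x77 (k2 c993 c327 k0) (by decide +kernel)
def c1195 : PP 8 4 T 0x111000000000000000400000014010000000000000000000002400000001514005140 := rS 0xb (k2 c952 c332 k0) (by decide +kernel)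
def c1196 : PP 8 4 T 0x11000000000000000000000000000000000000000000000002200000200014000040 := rS 0xb (k2 c952 c603 k0) (by decide +kernel)
def c1197 : PP 8 4 T 0x1000000000000001000001000000000004100000205101405005100000000002000000001004000000 := rS 0x77 (k2 c993 c608 k0) (by decide +kernel)
def c1198 : PP 8 4 T 0x1000000000000000000008000005101405085100000000002008000001004000000 := rS 0x77 (k2 c993 c610 k0) (by decide +kernel)
def c1199 : PP 8 4 T 0x1000000000000010000000014042000240000000004000002400000000004001148 := rS 0xb (k2 c952 c621 k0) (by decide +kernel)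
def c1200 : PP 8 4 T 0x1000000000000000000000000000000800000020000000002040000000046000140 := rS 0xb (k2 c952 c632 k0) (by decide +kernel)
def c1201 : PP 8 4 T 0x1000000000000000002000000000000400050040000000502400001101004005140 := rS 0xb (k2 c952 c651 k0) (by decide +kernel)
def c1202 : PP 8 4 T 0x5001000000000000000401010014000010000000000000000002400004800004005140 := rS 0xb (k2 c952 c652 k0) (by decide +kernel)
def c1203 : PP 8 4 T 0x1000000000000010000000000000001445001000000044002000050000004008000 := rS 0x77 (k2 c993 c722 k0) (by decide +kernel)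
def c1204 : PP 8 4 T 0x101000000002000000050000000005000400000000000000002000540000004800000 := rS 0x77 (k2 c993 c734 k0) (by decide +kernel)
def c1205 : PP 8 4 T 0x11000000000000000000000000810000000000000000200002000000000014000140 := rS 0xb (k2 c952 c740 k0) (by decide +kernel)
def c1206 : PP 8 4 T 0x1001000000000000000000501000440140000000000000002000500500004050140 := rS 0xb (k2 c952 c746 k0) (by decide +kernel)
def c1207 : PP 8 4 T 0x1000000000000000000000500000440140000000000000002000100100004040160 := rS 0xb (k2 c952 c747 k0) (by decide +kernel)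
def c1208 : PP 8 4 T 0x1000000000000001001000000000000000000084000414408010150000000502000000000004000000 := rS 0x77 (k2 c993 c749 k0) (by decide +kernel)
def c1209 : PP 8 4 T 0x1000000000000000000012015000014400000100005000142000000000004000000 := rS 0x77 (k2 c993 c769 k0) (by decide +kernel)
def c1210 : PP 8 4 T 0x1000000000000004000000014000014480040151005000142400010000004051000 := rS 0x77 (k2 c993 c775 k0) (by decide +kernel)
def c1211 : PP 8 4 T 0x2000000000000001000000000000000000000500000000000000000000000002000000000004050140 := rS 0xb (k2 c952 c783 k0) (by decide +kernel)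
def c1212 : PP 8 4 T 0x1000000000000001000000000000000000100108400000000000001000000002400000000004051000 := rS 0xb (k2 c952 c792 k0) (by decide +kernel)
def c1213 : PP 8 4 T 0x1000000000000000000010000000014400040054000000082000000000014808000 := rS 0x77 (k2 c993 c801 k0) (by decide +kernel)
def c1214 : PP 8 4 T 0x4001001000000000000100000000000000000080050000000102000000000004000000 := rS 0x77 (k2 c993 c808 k0) (by decide +kernel)
def c1215 : PP 8 4 T 0x4001000000000000080000000500000010410040150000000102000000000054054100 := rS 0x77 (k2 c993 c811 k0) (by decide +kernel)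
def c1216 : PP 8 4 T 0x1000000000000000000001000000014400010150000008102000000000004000000 := rS 0x77 (k2 c993 c852 k0) (by decide +kernel)
def c1217 : PP 8 4 T 0x1000000000000000000000000000002041000000080080002020000054004800014 := rS 0x61b34462510a1c649f238c4aacf68234011963b15e113 (k8 c390 c512 c547 c20 c50 c410 i2637 c401 (k8 c599 c1155 i1506 i1618 i1714 i450 i777 i743 (k4 i861 i184 i893 i291 (k1 i2032 k0)))) (by decide +kernel)
def c1218 : PP 8 4 T 0x411000000000000000100014010000000000500002055002002000001054054800000 := rS 0x25556a91613d96a059a9e883d1fbc12705 (k8 c49 c1025 c512 c494 c11 c440 c14 c76 (k8 i2031 i673 c1151 i822 c583 i1658 i978 i2040 k0)) (by decide +kernel)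
def c1219 : PP 8 4 T 0x11000000000000001100010010000102008500002455002002000001054054800000 := rS 0x32d56a94aaf57c4f4d5156d13a7a4e0abb (k8 i1684 c49 c1025 c67 c390 c1218 c62 i855 (k8 i2518 i857 i1988 c762 c542 i1658 i1454 i2040 k0)) (by decide +kernel)
def c1220 : PP 8 4 T 0x11000000000000000000000002000002000500000000000002000000054054800000 := rS 0xa75ba85362d1e8fde113 (k8 c390 c512 c494 c11 c466 c542 i822 i855 (k2 c716 i2031 k0)) (by decide +kernel)
def c1221 : PP 8 4 T 0x400000000000000001000000000000001100018015000104000000002055000002000000000004000000 := rS 0xcb4aaf68abb (k4 i1681 c62 i1988 c762 (k2 i674 i2040 k0)) (by decide +kernel)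
def c1222 : PP 8 4 T 0x11000000000000000008000000010022000500000000000002000000054054000000 := rS 0x4d2ed6ca71e8fde113 (k8 c390 c512 c494 c11 c716 i2031 i1944 i855 (k1 i1182 k0)) (by decide +kernel)
def c1223 : PP 8 4 T 0x1011000000000000005009000000000062005500000000000002000000054054000000 := rS 0x9a5da894ad35009620e5a7c4e3343 (k8 c66 c50 c390 c428 c444 c398 c545 c1222 (k4 c30 i363 c561 i1945 (k2 c1042 i1182 k0))) (by decide +kernel)
def c1224 : PP 8 4 T 0x1000000000000000100000001000014000000080055010002000000002004800000 := rS 0x32d727f184461aad55bf22ab5 (k8 i885 c36 c573 c37 c226 c534 c545 i861 (k4 i2582 i2661 c179 i2040 k0)) (by decide +kernel)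
def c1225 : PP 8 4 T 0x1001000000000000000000000000000000000000000005000002020000000084000000 := rS 0x54bf4a008 (k4 i182 i183 c56 c385 (k1 c573 k0)) (by decide +kernel)
def c1226 : PP 8 4 T 0x1001000000000000000000000000000000000200000005080002000000000004000000 := rS 0x7eaa56050 (k4 i1810 i1809 c385 c373 (k1 c573 k0)) (by decide +kernel)
def c1227 : PP 8 4 T 0x11000000000000000000002000000002000500000000000002000000054054800000 := rS 0x29d6ea11e8fde113 (k8 c390 c512 c494 c11 i2598 i2602 c716 i2031 k0) (by decide +kernel)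
def c1228 : PP 8 4 T 0x11000000000000001000400004010022001500000410000002020000055454000000 := rS 0x410a86d34d3c40ba4f21d34b661a9c7ac7628fde113 (k8 c390 c512 c494 c547 c20 c11 c716 c1222 (k8 i2031 i855 i857 i1181 i1182 i2032 c529 i1565 (k4 i1681 i743 c550 c49 k0))) (by decide +kernel)
def c1229 : PP 8 4 T 0x1000000000000020000000000000062000400080010080002020000054004000002 := rS 0x3090e558211dca0d1828858215008d0acd1295cd60f47afcfac164d0cea2f4cb3d8ec57844d56fc54ad5021f30c54c61d868583245 (k8 c1028 c391 c461 c534 i2494 i656 c36 i2631 (k8 c1225 c1226 c1227 c1220 c573 c37 c390 c512 (k8 c547 c20 c599 c516 c575 c574 c66 c592 (k8 i1518 i1597 i1726 i1103 i597 i631 c695 i860 (k8 i892 i1812 i185 c1228 i824 i822 i979 i978 (k8 i1647 c450 i1531 c77 c49 i777 i2032 c1223 k0)))))) (by decide +kernel)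
def c1230 : PP 8 4 T 0x1000000000000004108010015100010000000000455000002000000200004004000 := rS 0x360aca498cc8ee5 (k8 c444 i211 i291 i1242 i2040 c434 i466 c77 k0) (by decide +kernel)
def c1231 : PP 8 4 T 0x1000000000000000100011015020010000000000055000002020000400814000000 := rS 0x126cb6095912d3 (k4 c30 c26 i185 i1574 (k2 i506 c878 (k1 i2040 k0))) (by decide +kernel)
def c1232 : PP 8 4 T 0x11000000000000001904010010020102001500000455080002000000055454804000 := rS 0x39060472a1b10c2106b060ac762bc226a5 (k8 i363 c390 c512 c547 c20 c434 i1246 i466 (k8 i824 i2032 i778 i777 i1695 c1219 c77 c450 k0)) (by decide +kernel)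
def c1233 : PP 8 4 T 0x11000000000000001104010014020112001500000455080002000000055454804000 := rS 0x4315443043fa4996c762bc226a9 (k8 c1220 c390 c512 c547 c20 c1232 i2040 c1162 (k4 c1012 i823 c49 i2032 (k1 i777 k0))) (by decide +kernel)
def c1234 : PP 8 4 T 0x1000000000000000000011015000010402000100055080002000000000004000000 := rS 0x126cb8b15a22c9 (k4 c459 c6 i1812 c1171 (k2 i506 c436 (k1 i2040 k0))) (by decide +kernel)
def c1235 : PP 8 4 T 0x11000000000000005100010014020112001500000455080002020000455054804000 := rS 0x18623528b152b5 (k4 c1227 c1220 i822 i363 (k2 c1231 c1230 (k1 c1233 k0))) (by decide +kernel)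
def c1236 : PP 8 4 T 0x1000000000000001154008010000008001000000040000002020000055404000000 := rS 0x202aa1e087f (k4 c1162 c1012 i856 c49 (k2 i2032 i743 k0)) (by decide +kernel)
def c1237 : PP 8 4 T 0x1000000000000001154018015000010001000000455000002020000055404000040 := rS 0x428706afd9493 (k4 c1236 i2040 i1454 i465 (k2 i857 i744 (k1 i2032 k0))) (by decide +kernel)
def c1238 : PP 8 4 T 0x1000000000000000000011015000010400000100055000002020000000804000000 := rS 0x126cb8b15a22c9 (k4 c459 c454 i185 c1171 (k2 i506 c436 (k1 i2040 k0))) (by decide +kernel)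
def c1239 : PP 8 4 T 0x1000000000000020000000000000012400400080054080002020000054004800002 := rS 0x414daca49a769ec211a696c0753b4942853583d72cd12b24ea2f1aa659e3d63b147ef089ab556fc54ad5021f30c543b0d (k8 c534 i2494 c36 i2631 c1225 c1226 c1227 c1220 (k8 c573 c37 c226 c390 c512 c494 c547 c20 (k8 c11 c599 c516 c601 c575 c574 c459 i860 (k8 i892 i1141 i597 i631 c1234 c1235 c600 c716 (k8 c378 i2031 i855 c1238 c1237 c428 i1906 i1450 (k4 i2040 c1221 c434 c1038 k0)))))) (by decide +kernel)
def c1240 : PP 8 4 T 0x4101000000000000004108000001000052000000080055010002000010010104000000 := rS 0x924f0913b4f8c8583245 (k8 c1028 c391 c461 c50 c428 i1906 c865 c566 (k2 c1224 i1718 k0)) (by decide +kernel)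
def c1241 : PP 8 4 T 0x1000000000000000100000001000010000000080055010002000000002114800000 := rS 0x285802d490c0670d (k8 c534 c395 i861 c1224 i1242 i1509 i822 c311 k0) (by decide +kernel)
def c1242 : PP 8 4 T 0x4101000000000000004100000001000052004000080055080002020010054104000000 := rS 0x126b94f1fd982561a14466923b2e08590b0648ac762bc2261d56aadf915 (k8 c36 c573 c37 c226 i2494 c390 c512 c547 (k8 c20 c1028 c391 c461 i2595 c532 c434 c425 (k8 c63 i184 i1811 c1240 c1241 i2032 i2588 i893 (k2 i1142 i1718 (k1 i2040 k0))))) (by decide +kernel)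
def c1243 : PP 8 4 T 0x1000000000000020000000000000042000400080050100002020000044004000002 := rS 0x30c468535b341e25369520a9f18b210e218bc451c9554a043e1d30c362a352d17c2c1922b3cc6c762bc05313 (k8 c390 i187 c512 c547 c20 i656 c599 c1028 (k8 c391 c461 i2611 c492 c601 c36 c534 i2631 (k8 i2494 c1225 c1226 c1220 c1229 c1239 c416 c504 (k8 i2497 i2531 c1242 c431 c522 c553 c564 i672 (k8 i861 i598 i893 i632 i1544 i1538 c1038 i2032 k0))))) (by decide +kernel)
def c1244 : PP 8 4 T 0x1000000000000020200000000000002004000000000100002100000054104000002 := rS 0x30c468535b341e25369520a9f1885832cf63b15e113 (k8 c390 c512 c547 c20 c599 c391 c461 c431 (k8 c522 c553 c564 i672 i861 i598 i893 i632 (k4 i1544 i1538 c1038 i2032 k0))) (by decide +kernel)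
def c1245 : PP 8 4 T 0x1000000000000020000000010000042800500000040100102040000044044000002 := rS 0x1086923b2e085564a1c431788964e6652d17e26290b0648045 (k8 c1028 c399 c391 c461 i187 c390 i2611 c492 (k8 c1111 c1243 i2595 c416 c504 i2497 i2531 c1244 (k4 i766 c532 c197 c425 (k2 c63 c1135 (k1 i1811 k0))))) (by decide +kernel)
def c1246 : PP 8 4 T 0x1000000000000000000000111000010402000100005190102000000000004000000 := rS 0x5ca4d56cb8b1a0ab11 (k8 c6 i1544 i1811 c1171 c197 i1662 c436 c487 (k1 c1188 k0)) (by decide +kernel)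
def c1247 : PP 8 4 T 0x8001000000000000001050000010000010405050154005000142020000055104000100 := rS 0x2223b0d55115a2e526a9 (k8 c577 c436 c487 c1138 c463 c1070 c865 i1656 (k2 i2032 i184 k0)) (by decide +kernel)
def c1248 : PP 8 4 T 0x10001000000000000021050004010810010401550050054091502025000055104000002 := rS 0x5da8c609e498cd3ae5a7aa984cb2bad447048845d0e6f3a8d59e0927d155ea930ac4d6c9 (k8 c459 i631 c1164 i1165 c577 i591 c14 c208 (k8 i203 c599 c601 c574 c382 i777 c1247 c1171 (k8 c532 c454 c463 c64 c434 i2032 i2037 c428 (k8 c444 i1906 i291 i1636 c566 c510 c1136 i1685 (k1 c1130 k0))))) (by decide +kernel)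
def c1249 : PP 8 4 T 0x10001000000000000021050004010810010401550050054090502025000055104000002 := rS 0x219271682950de750493e8aaf5498562c9 (k8 c459 c1164 i1165 c577 i591 c14 c208 i203 (k8 c574 c382 c1248 c49 c532 c1025 c1247 c1112 k0)) (by decide +kernel)
def c1250 : PP 8 4 T 0x10001000000000000021050004010810010400550050054190502025000045004000002 := rS 0x415245410214ea295498562c9 (k8 c459 c1164 i1165 c577 i187 c574 c1246 c1249 (k4 i743 c1113 c49 c1012 k0)) (by decide +kernel)
def c1251 : PP 8 4 T 0x1000000000000000000000000000042040500000040100002040000044054000002 := rS 0x8c42c3438c144a55d214589a4f2e62a94668951ead3e946188969d154c713a8bca6594c98d8ec5549fd6ea139994b45f6823632160c8fc7af0898a48045 (k8 c1028 c399 i187 c390 c512 c11 c494 c391 (k8 c461 c50 i2637 c401 i2611 c492 c1111 c1243 (k8 i821 i854 c1124 c577 c547 c20 i656 c516 (k8 i2595 i2575 c575 c574 i917 i2031 c14 c496 (k8 i283 c716 c377 c57 c1120 c1245 i860 i892 (k8 c1250 c386 i104 c1123 c85 c548 i1605 i1182 (k8 i1383 i979 i978 i1683 i1945 i1650 i1571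 i2032 k0))))))) (by decide +kernel)
def c1252 : PP 8 4 T 0x1000000000000000000000011000014400000100005000102140000000804000080 := rS 0x2e556cb8b1541b112c9002c19 (k8 c391 c461 c399 i2595 c454 i1570 i1538 c1171 (k4 c197 i457 c487 c1188 k0)) (by decide +kernel)
def c1253 : PP 8 4 T 0x1000000000000000000000000000042040500000040100002040000044044000002 := rS 0x2d573104ed3d8423438850a9b49a559a25a24511eb13eacdfa61568189c0928870fe71379d46a596798c7ac7628fde0a15babd527332968bf1314858324022b411b19 (k8 c50 i2637 c401 c1028 c399 c391 c461 i187 (k8 c390 i2611 c492 c1111 c1243 c577 i591 i854 (k8 i821 c512 c494 c547 c20 c11 i656 c599 (k8 i2595 c601 c574 c382 i917 c1124 c1251 i1230 (k8 i1262 i741 i742 c1120 i961 c19 i1429 i1273 (k8 i1227 c1245 c573 c371 i860 i892 c386 c12 (k8 c419 c1246 c1113 c1112 c1252 i2032 c428 i1906 (k4 c865 c771 c463 c1138 k0)))))))) (by decide +kernel)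
def c1254 : PP 8 4 T 0x10001000000000000004108000011000414000000000455000202000010011104000200 := rS 0x5515d96b9882748f4f (k8 c428 i211 i1906 c865 c771 i1388 c64 i2040 (k1 i497 k0)) (by decide +kernel)
def c1255 : PP 8 4 T 0x11000000000000000000001011040014400000100055010002020000000804000000 := rS 0x5caad97163f91a22c9 (k8 c459 c454 i184 i1663 c1171 c179 i1655 c487 (k1 i2040 k0)) (by decide +kernel)
def c1256 : PP 8 4 T 0x10001000000000000004100000411000414008000000055180202000000000004000000 := rS 0x32d56b93615d3b4f (k8 c67 c1174 i1706 i778 c771 i497 i673 i2040 k0) (by decide +kernel)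
def c1257 : PP 8 4 T 0x10001000000000000005150000011000414005000000455000202000010055504000200 := rS 0xc3 (k2 c1254 i2032 k0) (by decide +kernel)
def c1258 : PP 8 4 T 0x10011000000000000005050000410040400401000050455180202120000044004000242 := rS 0xa1b2e0aab3f1f418542b8810e233a8d4b22954bf56ac14aa4e286f648942c19 (k8 c391 c461 i860 c459 c382 c379 c12 c386 (k8 i2850 i2891 c56 c577 i187 i2595 c601 c574 (k8 c1255 c1256 c1257 i1498 i743 i744 i1501 c1113 (k4 i497 c49 i465 c16 (k1 c546 k0))))) (by decide +kernel)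
def c1259 : PP 8 4 T 0x1000002000000000001440120440000000000000400000002000000000004004000 := rS 0xc236a957b051eb1d8a3f (k8 c494 c547 c20 c11 c488 i1292 i1286 i1702 (k2 i2036 c1038 k0)) (by decide +kernel)
def c1260 : PP 8 4 T 0x11000000000000020000440000440402400100050055100202120000044004004242 := rS 0xcb3f9a22284569ad9ac98ca34b25a2f85832cf63b1552fd5aacc7ef014c4d82b1 (k8 i1315 i2850 c390 i187 c512 c494 i1427 i2891 (k8 c56 c577 c547 c20 c599 c391 c461 i2611 (k8 c492 i2595 i2637 c50 c459 i892 i631 c1259 (k4 c1258 c6 i1811 i1670 (k2 c179 c1115 k0))))) (by decide +kernel)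
def c1261 : PP 8 4 T 0x1000000000000000000000000000042040500000040100002040000044004000002 := rS 0x7da1ae15a6b64aad96873f886228e5da6d7e934aac4c2c15ad1228a32801d4e2d0403e1a1e389bcb2f031aa56e7332968bf131485832d046c648045 (k8 c1028 c399 c50 i2637 c401 c391 c461 i187 (k8 c390 i2611 c492 c1111 c1243 i854 c577 i656 (k8 c512 i2595 c382 i917 c1253 c452 i2205 i182 (k8 i1303 i2054 i1302 i183 i2053 c379 c440 i2891 (k8 i2850 i960 i1315 c386 c12 c44 c419 c51 (k8 c1260 c416 i2497 i846 i2531 c179 i498 c1244 (k4 i631 c1259 i2040 c543 (k2 i1329 c602 k0)))))))) (by decide +kernel)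
def c1262 : PP 8 4 T 0x11000000000000020000000000000016800000040054100202120000044004000002 := rS 0x3ed0d6ab865ab6085564aad0e7f10c5e22292d17c2c1989aa4c26f (k8 c382 i1311 c577 c390 c391 c461 i2611 c492 (k8 i187 c416 c504 i2497 i846 i2531 i498 c1244 (k8 i766 c532 i1314 c434 i2040 i1397 c543 i1329 (k1 c602 k0)))) (by decide +kernel)
def c1263 : PP 8 4 T 0x10011001000000000005450001410000400400040050454180202120000044014000042 := rS 0xd20f8250b103ec5c46b851aacea59548b542160c9852a9344c50dec9 (k8 c459 c382 c379 c518 c12 c386 i1311 c391 (k8 c461 i821 c1105 c577 i2595 c574 i498 c316 (k8 i2040 c1255 c487 i1330 c1171 c6 c1258 i182 (k2 c1137 c1107 k0)))) (by decide +kernel)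
def c1264 : PP 8 4 T 0x400000000010201001000000000005550000011000414005000000055000202020010055004000000 := rS 0x13b4f61084ab045c2acae23 (k8 c454 c64 i497 i2040 c546 c49 i743 i2032 (k2 c428 i1906 (k1 c771 k0))) (by decide +kernel)
def c1265 : PP 8 4 T 0x11001000000000004400441410000542400000040454100202020000044014000042 := rS 0x13ebd5ca769d1688a16867e3a8d58ec5780a44acd43b2526958a1c4c26f54968be160c9162719 (k8 c50 c390 c1028 c391 c461 i2611 c492 c577 (k8 c382 i1311 i917 c379 c386 c12 c459 c1256 (k8 i892 i860 i187 c512 c547 c20 c601 c574 (k8 c1263 c16 i1669 c1264 c1171 c398 c552 c487 (k2 c521 c529 (k1 i2048 k0)))))) (by decide +kernel)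
def c1266 : PP 8 4 T 0x11000000000000004000041610000542400000040454100202020000044014000002 := rS 0x85862342834d0576531d8afd038f5e02912b341e8764a4d2b1438984dea92d17c2c1922c4e32bf (k8 i1299 c50 c390 c1028 c391 c461 i2611 c492 (k8 c577 c382 i1311 i917 c379 c386 c12 c459 (k8 c1256 i597 i892 i860 i187 c512 c11 i1227 (k8 c373 c547 c20 c1265 i506 i1394 i465 i1812 (k4 i185 i1829 i744 i2032 k0))))) (by decide +kernel)
def c1267 : PP 8 4 T 0x1000000000000000000002000000000000200000000080002000000000004000000 := rS 0x17884 (k2 i1402 i1401 (k1 i3065 k0)) (by decide +kernel)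
def c1268 : PP 8 4 T 0x1000000000000000000000000000042040400000040100002040000044004000002 := rS 0x13d4e5fa1d0a6d88a757ab92a1f20aac5ab35928f49a56286b0eaed609b599421a80399c4de996798c7af032968bf13682363229200583245 (k8 c1028 c391 c461 c399 i187 c50 i2637 c401 (k8 c390 i2611 c492 c1111 c512 c11 i656 c599 (k8 c516 c382 i917 c1243 c1261 c2 i1810 i1335 (k8 i1336 i1809 i3063 i1235 i3131 c379 c386 c12 (k8 c1262 c459 i892 c1267 c1266 c488 i1313 i1314 (k8 i2854 i1292 c343 c433 i3016 i1544 i778 i1300 (k2 c398 i2048 (k1 c529 k0)))))))) (by decide +kernel)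
def c1269 : PP 8 4 T 0x1000000000000000000000820000014400000050000010082000000000004000000 := rS 0x573e2f8d0b5 (k4 i1288 i1434 i1433 c831 (k2 i2958 i1274 k0)) (by decide +kernel)
def c1270 : PP 8 4 T 0x10001000000000000005050101000000014405050154000000102020010055104000000 := rS 0x4ed3d849f8b88d7057 (k8 c1216 c1138 i185 c487 i1190 i2032 c428 i1906 (k1 c566 k0)) (by decide +kernel)
def c1271 : PP 8 4 T 0x1000000000000020000000000000002400800010054100002020000044004800002 := rS 0xca2b2ac446d5cb0e9d1688ad17a21439f50aad668959319379d46a5967b1d8af0149fca2b24aa4e28fd2718562a939968bf13 (k8 c390 i2611 c492 i2528 c577 i1296 i1165 i775 (k8 c19 c573 c12 c386 i776 i1438 i2529 i187 (k8 c512 c547 c20 c599 i2595 c601 c574 c382 (k8 c50 c459 i860 i892 c1269 c1246 i1273 c1112 (k8 c1113 i1416 c1270 c463 c1171 c398 c865 c487 (k4 c59 i2032 i665 i185 (k2 i2040 i505 k0))))))) (by decide +kernel)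
def c1272 : PP 8 4 T 0x1000000000000000000000000000042000000000040100002000000000004080010 := rS 0x4288d9aad3491d97042ab250e218bc451c934ac51faa930ac89c7358add047b3898cca5a898acbed046c6516292009c0043018583245 (k8 c1028 c391 c461 c1104 c563 c410 i1798 c399 (k8 i187 i1882 c50 i2637 c401 i2611 i213 c390 (k8 c492 c1111 i656 i917 i149 c1268 i103 i1296 (k8 i2528 i775 i776 i1165 c577 c19 c573 c386 (k8 c12 c1271 c416 c504 i2497 i2531 c1244 i766 (k8 c532 i1390 c425 c63 c488 c1109 i184 i1811 (k1 c1114 k0))))))) (by decide +kernel)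
def c1273 : PP 8 4 T 0x1000000000000000000000000000042000000000000100002000000000004080010 := rS 0x108693316856292fa344e40458008603898583245 (k8 c1028 c391 c461 c390 c1104 c563 c410 i1882 (k8 c399 i1798 i2637 i2611 i187 i213 c492 c1272 (k2 i1624 c1217 (k1 i1811 k0)))) (by decide +kernel)
def c1274 : PP 8 4 T 0x1000000000000000000000000000000000000000000000002100000000004000020 := rS 0x8641 (k2 c396 c417 (k1 c399 k0)) (by decide +kernel)
def c1275 : PP 8 4 T 0x1000000000000000000000000000042000000000000000002000000000004080000 := rS 0x8a01a3486d12e044f3190b0640a45 (k8 c1028 c1274 c391 c461 c50 i148 i6 c1273 (k4 c533 i443 i1845 i999 (k2 c401 i1882 k0))) (by decide +kernel)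
def c1276 : PP 8 4 T 0x401000000000000000000000000000000080000000000000002020000044004040000 := rS 0x780405200 (k4 c815 i186 i451 c512 (k1 c374 k0)) (by decide +kernel)
def c1277 : PP 8 4 T 0x10401000000000000000000000000000000000001000000200002100000000004040000 := rS 0xf11c84004420090456371da284e8d688583205 (k8 c1274 c391 c461 c533 i1845 i1766 c401 i1156 (k8 i1774 i899 c1276 c536 c399 c410 i443 i194 (k2 c374 c520 k0))) (by decide +kernel)
def c1278 : PP 8 4 T 0x1000000000000000000000000000042000000000000000002080000000004000000 := rS 0x29d362d8a2003b0d2813d322f1f8f4e6f01d845185e1cb44de011b96d4202208ace2160c814ba1322c64f313 (k8 c390 i148 c50 c1028 c1275 c1277 c1274 c391 (k8 c461 i917 c464 i21 c563 c457 i706 i993 (k8 c536 i2670 i2797 i194 c492 c477 i470 c1148 (k8 c1167 c1061 c11 c494 i1079 i1110 c1103 c1102 (k8 c377 i1230 i648 c379 c1105 i1336 i1860 c745 k0))))) (by decide +kernel)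
def c1279 : PP 8 4 T 0x2001000000000000040000000000000042001000040000000082000000000004000000 := rS 0x2366ab48ecb52c1038c90321c431788824c28e592c504673d9c40a034598cca2b680a400160c8fde01113968be40219748b193cc4c26a95bbf52a93 (k8 c12 c386 c19 i854 c577 c1275 c390 i148 (k8 c50 c1028 c1277 c1278 c399 i905 c492 i2500 (k8 i1757 c1167 c494 c391 c461 c815 i186 c840 (k8 c1158 c1111 i656 i145 i999 c1274 i917 i149 (k8 c1217 c1268 i1296 i776 c1271 i1165 i1427 c416 (k8 c504 i2497 i2531 c1137 c1244 i1221 c532 i1382 (k4 c434 c425 c488 c1109 (k2 i184 c1108 k0)))))))) (by decide +kernel)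
def c1280 : PP 8 4 T 0x1000000000000000000000000000042002000000000000002000000000004000000 := rS 0x11e828b19e0ac9340850e7146a2cc66515b4052000b0658af00889cb45f2010cba458c9e62613 (k8 c1275 c390 i148 c50 c1028 c1277 c1278 c399 (k8 i905 c492 i2500 i1757 c1167 c547 c391 c461 (k8 c815 i186 c840 c1158 c1111 i656 i145 i965 (k8 i917 i152 i1503 i1811 c1244 c63 i1624 c532 (k2 c1268 c504 (k1 c1271 k0)))))) (by decide +kernel)
def c1281 : PP 8 4 T 0x1000000000000000000000000000042000000040000000002000000000004000000 := rS 0x17030558cdca6d525399a2d6922527144aadd527b1aac8c2b17ec459655272b44647823250e218ba39046742a2c0605319c4ca2b2d340be5d8c9e626290989c00160c9008645 (k8 c1028 c1278 c399 c391 c461 c815 i2500 c1275 (k8 i186 c390 i148 c50 c1277 i905 c840 c492 (k8 c1158 c1111 i917 i656 c1274 i999 i145 c1280 (k8 c1217 c1268 c1271 c504 i2497 i2531 c1244 c532 (k8 c425 i184 c488 i775 i766 i1390 c416 c19 (k8 i1296 i1165 i776 c601 i149 c577 i854 i1102 (k8 c573 c12 c518 c1279 c556 c1109 c398 c1108 (k4 c59 c484 i288 i665 (k2 c510 i2040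 (k1 i986 k0)))))))))) (by decide +kernel)
def c1282 : PP 8 4 T 0x1000000000000000000000000000042000000000000000002000000000004000000 := rS 0x39208ce8515a2cb4d0138a4be0001900865d098142c1922c64f313 (k8 c390 i148 c50 c1028 c391 c461 c1274 c1275 (k8 c1277 c1278 c399 i999 c815 i905 i186 i2500 (k8 c840 c492 i145 c1158 c1280 c1217 c1268 c1281 (k1 i2528 k0)))) (by decide +kernel)
def c1283 : PP 8 4 T 0x111000000000000010100001080015000140050000550000002000040000554800000 := rS 0x60ce121b54aaba130546d2 (k8 c600 c69 c539 c602 c439 c84 i593 i2030 (k2 i2042 i861 (k1 i988 k0))) (by decide +kernel)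
def c1284 : PP 8 4 T 0x1000000000000010100000080005000840400080040080082020040000004800000 := rS 0x1b59ebf4a2d0fa23569a48e6b821561a1d46801421f22af62317109fcca59 (k8 i2595 i1025 i2516 i2497 c504 c416 i3143 i42 (k8 i1270 c1151 c815 i964 i2494 c534 i766 c532 (k8 i1963 c425 c63 c488 i184 i1273 c1283 i885 (k4 i1455 i1105 i594 i2042 k0)))) (by decide +kernel)
def c1285 : PP 8 4 T 0x1000000000000010000000080005000840400080040080082020040000004800000 := rS 0x721f446b5129512a31641fc431128b05a4a10e87c8b0d (k8 c534 i42 i1270 i2494 c1151 c600 c539 i52 (k8 c416 i2497 i2516 c1284 c431 c592 c564 i861 (k4 i885 i1538 i1542 c392 (k1 c246 k0)))) (by decide +kernel)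
def c1286 : PP 8 4 T 0x101000000000000000050000000005000400000000000000002000540000504800000 := rS 0x1ca25 (k2 i860 c1204 (k1 c392 k0)) (by decide +kernel)
def c1287 : PP 8 4 T 0x401000000000000000000000000000001405004000000000002000000014504800002 := rS 0x184ce66c40769d4f8e6307963b146ef0159d46a25 (k8 i860 c601 c574 i898 c512 c594 c547 c20 (k8 i973 c500 c559 c39 c393 i1155 c1286 c555 (k2 c1146 i2032 (k1 c729 k0)))) (by decide +kernel)
def c1288 : PP 8 4 T 0x1000000000000010000000000005000541000000040100002020000000804040000 := rS 0x3233cda6935c588c56889d400c9 (k8 c459 c815 c574 c454 i185 i184 c1171 i507 (k4 i1583 i1696 c420 i2042 (k1 i1579 k0))) (by decide +kernel)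
def c1289 : PP 8 4 T 0x401000000000000000000000000000001001004080040100082020000014004840000 := rS 0x33d9a3372880468f5721d6ca70fa0542d186a0d169d4fc60f23d1f968be450e9d46a8d000dde02b (k8 i898 c512 c594 c815 i964 c601 c574 i2494 (k8 i42 c489 c492 c494 c11 i973 c500 c39 (k8 c393 c744 i923 c534 c479 c1151 i1276 i1270 (k8 c716 i2031 i2519 i762 c1285 c1288 c1287 c470 (k4 c1142 i2499 c168 c1146 k0))))) (by decide +kernel)
def c1290 : PP 8 4 T 0x1000000000000000000000000000000000000000000000002000000000004008002 := rS 0x19030 (k2 i598 i597 (k1 c431 k0)) (by decide +kernel)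
def c1291 : PP 8 4 T 0x1000000000000000000000100000000000000000000000002200080000005000101 := rS 0x2e16c201348bc4822b (k8 c1152 c815 c594 i993 i1800 c1167 i1758 i483 (k1 c768 k0)) (by decide +kernel)
def c1292 : PP 8 4 T 0x1000000000000040000000000000000010000000008000002000000400004000040 := rS 0x5b15 (k2 c80 i1237 (k1 c548 k0)) (by decide +kernel)
def c1293 : PP 8 4 T 0x1000000000000010000000000000101000001050004040002200000000025000100 := rS 0x26916975920e24b72e84cf65f299bca26127abd02b17e01da61f (k8 i10 c405 c710 c1137 c373 c983 c503 c19 (k8 c384 i1229 i1232 c1173 c1139 c551 i227 c768 (k8 c977 c492 c579 i2038 i1374 i553 i2045 c364 k0))) (by decide +kernel)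
def c1294 : PP 8 4 T 0x1000000000000010000004100000101040501054001000002000000000004000000 := rS 0x26d2e7b (k4 c570 c869 c364 i2045 k0) (by decide +kernel)
def c1295 : PP 8 4 T 0x1000000000000000000000000000000080000000000080002000000000004810004 := rS 0x133c0f413 (k4 i1882 i1883 c1167 i713 (k1 c54 k0)) (by decide +kernel)
def c1296 : PP 8 4 T 0x1000000000000000000008000000000000000000000000102240000000024000000 := rS 0x2426 (k2 i721 c977 (k1 i1798 k0)) (by decide +kernel)
def c1297 : PP 8 4 T 0x1000000000000010000004100000100000101054001080042000000000004810004 := rS 0x22d0691 (k4 i774 i775 c1295 c1294 k0) (by decide +kernel)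
def c1298 : PP 8 4 T 0x1000000000000000000000000000000000000000000000002000000000025000005 := rS 0xa7598fc7a9678240265b5b98d32113c8dd02b15793cc2fc449cca2093787da6d1179c40e44219040816 (k8 c461 c410 c815 c563 c399 c710 c1187 c1170 (k8 c1141 c405 i10 i1232 i1262 i1229 i718 i1342 (k8 c1137 c384 c19 c503 c373 c983 c1291 i972 (k8 i524 c870 c1292 c1296 c1297 i227 c1293 c1167 (k4 c1028 c11 c494 i1374 (k2 i1898 c1160 k0)))))) (by decide +kernel)
def c1299 : PP 8 4 T 0x1000000000000050000004100010000010000010001080042000040400004810004 := rS 0xb62a724c9e5026f (k8 c451 i1809 c422 c870 c1297 c36 i977 c548 k0) (by decide +kernel)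
def c1300 : PP 8 4 T 0x1000000000000004000000000000000000000000000080002000002000004088000 := rS 0x853aa3d18c21189488433ca450e7b4f9b5a2044ea2c2241008583203338360ac9 (k8 c431 c497 i5 i1505 i1003 c481 c461 c1290 (k8 c815 i1758 c1295 c343 c410 c1141 c1159 c275 (k8 c570 i778 i774 c422 c563 c399 i2208 i2124 (k4 i344 i267 i985 i971 (k2 i1867 c1178 k0))))) (by decide +kernel)
def c1301 : PP 8 4 T 0x1000000000000040000000000000000000000010000000082200000000004000060 := rS 0x25fa6f (k4 c483 c19 c1004 c1137 k0) (by decide +kernel)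
def c1302 : PP 8 4 T 0x1000000000000000000000000000000800000000000010002000002000004008000 := rS 0x4a160c8108843018348201 (k8 c1290 c815 i5 i1003 c563 c399 c410 c481 (k2 c461 c222 (k1 c753 k0))) (by decide +kernel)
def c1303 : PP 8 4 T 0x1000000000000000000000000000000000000200000000002000000000004008000 := rS 0xb08f (k2 i124 c812 (k1 c507 k0)) (by decide +kernel)
def c1304 : PP 8 4 T 0x1000000000000004000000000000000000000000000080002000002000004008000 := rS 0x1009e22f06604dca7948a1cf69f36b44089d45844cf0564a14ae254796446752210c060d208042c19 (k8 c481 c461 c1290 c815 i5 i1003 c563 c399 (k8 c1303 i1571 i604 c1302 i860 i502 i1812 c431 (k8 c497 i1505 i1758 c1295 c343 c410 c1141 c1159 (k8 c275 c570 i778 i774 c422 c409 c1300 c1146 (k4 c1167 c555 c54 c392 (k1 i729 k0)))))) (by decide +kernel)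
def c1305 : PP 8 4 T 0x1000000000000000000000000000000000000000000080002000002000004008000 := rS 0xf1098d8d2ce0890402c9 (k8 c431 c1290 c815 i1758 c1304 i1833 i988 i345 (k2 c594 c1167 k0)) (by decide +kernel)
def c1306 : PP 8 4 T 0x1000000000000000000008100000000000000000000000002000002000004008000 := rS 0x1ce2a9a312c914af53a150efc14c49224f2ec346ad12f94d421d2b8951e59119d4f23d1fbc02237049bca2710385832040996c8843018348201 (k8 c1290 c815 i5 i1003 c563 c399 c1305 i227 (k8 c410 c481 c461 c710 c1187 c743 c372 c1004 (k8 c1291 i524 c1167 c494 c11 i972 c1303 i1571 (k8 i604 c1302 i860 i502 c1298 c1156 c1173 c1139 (k8 c1141 i17 c541 i1931 i761 c840 c492 c874 (k8 c427 c32 c376 c716 c503 c1203 c1160 i553 (k4 i554 c80 i1179 c379 k0))))))) (by decide +kernel)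
def c1307 : PP 8 4 T 0x1000000000000000000004800010001080500014000000002005000454014000040 := rS 0x1f53c31a47344c553462 (k8 i553 i554 c80 i1443 i1179 c1292 c379 c496 (k2 c452 i2031 k0)) (by decide +kernel)
def c1308 : PP 8 4 T 0x1000000000000000000000100000001000000000000000042000002000004008000 := rS 0x69299fa1f572cd148342a050e29891746ad11797c565350874ae254796446753c8f44e3f780446e0937944e2070b06408132d91086030690402b7 (k8 c1306 c1290 c815 i5 i1003 c563 c399 c1305 (k8 i227 c410 c481 c461 c710 c1187 c743 c372 (k8 c1004 c1291 i524 c1167 c494 c54 c11 i972 (k8 c1303 i1571 i604 c1302 i860 i502 c1298 c1156 (k8 c1173 c1152 c1139 c1170 c1141 i17 c768 c492 (k8 c874 c32 c46 c376 c579 c1203 c1307 i2038 (k4 c803 c503 i2031 c1137 (k1 c496 k0)))))))) (by decide +kernel)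
def c1309 : PP 8 4 T 0x1000000000000010000000101000080000000000000000002000000400004050140 := rS 0x14eb3578f47ef0 (k4 c1167 c494 c11 i1900 (k2 i1374 i1898 (k1 c1160 k0))) (by decide +kernel)
def c1310 : PP 8 4 T 0x1000000000000000000000100000000000000000000000002000002000004008000 := rS 0xa74187da48114c489c5d48a5d6e3f138f5e0111bb45522f2f8ad421d09824de512d9c40e44219040803068042c19 (k8 c481 c461 c1290 i5 i1003 c410 c815 c563 (k8 c399 c710 c1187 c1305 c743 c372 c1004 i227 (k8 c1298 c1156 c1152 c1139 c1170 c1147 c1141 c1291 (k8 i524 c1167 c11 c54 c494 c1306 c1309 c1282 (k8 c768 c1308 c492 c874 i1276 c1301 i1269 c579 (k2 c496 i2031 k0)))))) (by decide +kernel)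
def c1311 : PP 8 4 T 0x1000000000000000000000200010000000000000000400542001000044054040000 := rS 0x8114c30bafd538fd6e83 (k8 i1296 i1824 c1161 c1164 c373 i1848 c427 c874 (k2 c2 i2031 k0)) (by decide +kernel)
def c1312 : PP 8 4 T 0x1000000000000000000000000000000000000000000000002000002000004008000 := rS 0xc3154a18ce64e5ca4c4e2d608f5e01f3fb4822fd58024de510996d1e5911874e2075094c565f5491008430b00c320d559040275 (k8 c1303 c1290 c815 c1165 i5 c481 i1003 c461 (k8 c563 c410 c399 c1147 c1139 c1152 c1173 c1156 (k8 c710 c1187 c1298 i1571 i604 c1302 c1305 i227 (k8 c743 c372 c1004 c1310 c373 i1762 c1137 c748 (k8 c791 c1167 c476 c539 c556 c54 i1509 i986 (k4 c1311 i758 i1350 c1213 (k2 c386 i1019 (k1 c573 k0)))))))) (by decide +kernel)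
def c1313 : PP 8 4 T 0x1000000000000000000000000004001440000000000080002000040004004808000 := rS 0x4311662759e67118cc6a5964b960a753ca1cda7b4295c4a31 (k8 c1312 i861 i502 i1812 i713 c1159 i778 c422 (k8 c1303 c497 c409 c459 c507 i1116 i285 i245 (k4 i542 c168 c343 c1146 (k2 c555 i729 (k1 c392 k0))))) (by decide +kernel)
def c1314 : PP 8 4 T 0x1000000000000000000000000000000000000000000080002200040004005008000 := rS 0x2c1951c9f48b44088b1280c2c6d188448201 (k8 c1290 c815 i1758 c1312 c1159 c461 i220 i861 (k8 c1295 c410 c1141 i774 c275 c1313 c829 c753 (k1 c568 k0))) (by decide +kernel)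
def c1315 : PP 8 4 T 0x1000000000000005000000000004001445001100020000002000000000004000000 := rS 0x13a7b (k2 c570 i1552 (k1 c1146 k0)) (by decide +kernel)
def c1316 : PP 8 4 T 0x1000000000000040000000800000000090000000000000002000400000004000040 := rS 0xb93462 (k4 i553 i554 c1292 i1175 k0) (by decide +kernel)
def c1317 : PP 8 4 T 0x1002000000000040000000140010100480000010000000002000000010006058140 := rS 0x26e2a943f9cd2e1f5351566a31d8f47ef0448e4fab58845c68758c9bd726149ab4c802 (k8 c446 i341 c34 i1549 c384 i1026 c451 c40 (k8 c1303 i340 c406 c1171 c463 c433 i234 i231 (k8 c1167 c494 c11 c443 c1140 c1316 c1211 c1160 (k8 i242 i1897 i1092 c861 c1138 c386 i2807 c85 k0)))) (by decide +kernel)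
def c1318 : PP 8 4 T 0x1002000000000000000000100010000400000000000080042000000000006048140 := rS 0x115869896c73590bd4e1d691bcc22b409c55e83148f44e3f4ca299e6b66c422e852b8953e3432009223b780448201439b4f275 (k8 c1303 c422 c1159 i778 c1290 c815 i1758 c1167 (k8 c443 i1168 c446 i341 i340 i1183 i349 i502 (k8 i1812 c406 c1171 c555 i1962 i1029 c1315 i3112 (k8 c494 c54 c11 i1805 i775 i1923 c495 i1809 (k8 c1158 c384 c451 c1317 c405 c496 c554 c1160 (k4 i1091 c1307 i553 c541 (k2 c80 c379 k0))))))) (by decide +kernel)
def c1319 : PP 8 4 T 0x1000000000000000000000100000000000000000000080042200040000004048140 := rS 0x218b68a9bcc4615929c3ad2179cdfa8d4533cd6cd882153f174795c686412a442e020c0fc4e3d1dbc052753c8ac224100a1cda81509c55e83 (k8 i775 i1923 c495 c1156 i1809 c1159 i778 c1290 (k8 c815 i1758 c1158 c422 c1303 i1805 c1167 c443 (k8 c11 c54 c494 c1314 c446 i8 i1168 i349 (k8 i341 i340 i502 c829 c406 i1183 i1812 c1171 (k8 c555 i1962 i1029 c1315 i76 c1318 c968 c957 (k8 c1137 c405 c496 c1160 i1432 i553 c451 c80 (k2 c1307 c379 (k1 c541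 k0)))))))) (by decide +kernel)
def c1320 : PP 8 4 T 0x1000000000000000000000000000000000000000000080002200040000004088000 := rS 0xcf4f99122c9688091e18429659a8b2b89d8468118a076258291c02753ca1cda43 (k8 i41 c1159 i778 c422 c1303 c1290 i109 c497 (k8 i2208 i2102 i226 i2124 i345 i344 i1798 i502 (k8 i3091 i1969 i604 i1867 c1314 c833 c446 c505 (k4 c407 i1168 i341 i1566 (k2 i1833 c1315 k0))))) (by decide +kernel)
def c1321 : PP 8 4 T 0x1000000000000000000000100000000000000000000080042200040000004008100 := rS 0x1f51e23321bd6ab94aa4c4ac916808c27f39b0194180e1403ed3031c546751890d4213 (k8 c1320 c1156 i41 c1312 c1303 c1140 c495 c1319 (k8 c378 i1302 i479 i480 c710 i599 i600 i1092 (k8 c861 i2822 c446 c519 c407 i349 i1367 i1517 (k8 i1249 i1248 c451 i341 i2122 c829 i1234 c1138 k0)))) (by decide +kernel)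
def c1322 : PP 8 4 T 0x1000000000000000000000100000000000000000000080002200040000004008100 := rS 0x92319c5669a41a64f48a67ae4d6cb66ad6207d42a7e2e8f53a552e57338d0c889690bce63912a45922d02b442e025487cfe077e9bc304e1f89c7a3b780a42705559d4f211208050e6d (k8 c1159 i778 c1290 c815 i1758 c422 c1303 c1165 (k8 c497 c1320 i1805 c1167 c443 c11 c54 c494 (k8 c1321 c1314 c483 c19 i1222 i760 i1269 c437 (k8 c446 i8 c505 c509 c519 c407 i1168 i349 (k8 i234 c968 c957 c1137 i230 i341 i340 i541 (k8 i502 c1309 i1098 c496 c829 c406 i1183 i1812 (k8 i1274 c1171 c463 c555 i1389 i1962 i1027 i1029 (k8 c1315 i1883 i3112 c424 i2034 i1429 i1447 i1445 (k2 c1138 c1025 k0))))))))) (by decide +kernel)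
def c1323 : PP 8 4 T 0x1000000000000000000000000000000000000000000000002100000000004008000 := rS 0x20b0143201 (k4 c1290 c391 c1274 c461 (k2 c410 c1029 k0)) (by decide +kernel)
def c1324 : PP 8 4 T 0x1000000000000000000000000000000000000000000000002000000000006008200 := rS 0x38a54e6cb5618c5efd2385d127d8845c688f320088875 (k8 c1303 c1323 c446 i341 c829 i340 c406 c1171 (k8 c433 i2093 i8 i109 c56 i2096 i1348 i343 (k4 i1388 c968 i1098 c474 (k1 c830 k0)))) (by decide +kernel)
def c1325 : PP 8 4 T 0x1000000000000000000000000000000000000000000080002000040000004008000 := rS 0x743ed228adc0ea77eac01283409e914cf35b3620854fc5d1e571a1904a91010607e271e8ede029099d4a6a1221e45611208050e6d (k8 c1159 i778 c1290 c815 i1758 c1158 c422 c1323 (k8 c1156 c1173 c1303 c1320 i1805 c1167 c443 c11 (k8 c54 c494 c1314 c446 i1168 i349 i341 i340 (k8 i502 c829 c406 i1183 i1812 c1171 c555 i1962 (k8 i1029 c1315 i1883 i3092 c424 c1324 c1322 c373 (k8 c1164 i1228 i1824 i1315 c1137 c791 c405 i2031 k0)))))) (by decide +kernel)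
def c1326 : PP 8 4 T 0x1000000000000000000000000000000000000000000080002000000000004008000 := rS 0x26f11b0448201 (k4 c1290 c815 i1758 c1325 (k2 c594 i1800 (k1 c1167 k0))) (by decide +kernel)
def c1327 : PP 8 4 T 0x1000000000000000000000000000000800000000000000002000000000005008000 := rS 0x58328942c310200c8801 (k8 c1290 c1323 i220 c410 c1312 c461 i861 c829 (k2 c753 c568 k0)) (by decide +kernel)
def c1328 : PP 8 4 T 0x1000000000000000000000101000000080000080000000102000000410004018140 := rS 0x1649b29a85229709911a25b (k8 c1326 c549 c1323 i227 c1309 c1282 c1156 c1173 (k2 i1179 c1006 (k1 i554 k0))) (by decide +kernel)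
def c1329 : PP 8 4 T 0x1000000000000040000000800000000080000000000000002004400000004000040 := rS 0x1109a (k2 i554 c1316 (k1 i1443 k0)) (by decide +kernel)
def c1330 : PP 8 4 T 0x1000000000000040000000100000000080000000000100142000400000014018140 := rS 0x4316ca659abdf853508f47ef01484d02838917c885b (k8 c1326 c1323 c1139 c492 c579 c46 i227 c874 (k8 c1167 c494 c11 c1156 c1173 c1137 c503 c1329 (k4 c1160 i2038 c716 c541 k0))) (by decide +kernel)
def c1331 : PP 8 4 T 0x1000000000000000000000800000001080500054000000002205000414014000040 := rS 0x21b155b189422b (k4 c1152 c1156 i553 c1307 (k2 c80 c541 (k1 c379 k0))) (by decide +kernel)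
def c1332 : PP 8 4 T 0x1000000000000000000000500000000080000000000100142000400000014018140 := rS 0x16d0c0fbf55ca76914d422b1e89c7ef01484d02838917c885b (k8 c1326 c1323 c1139 c492 c579 c46 i227 c874 (k8 c1167 c494 c54 c11 c1152 c1156 c1173 c1330 (k4 c496 c1160 c503 c791 (k2 c427 i2031 (k1 c541 k0))))) (by decide +kernel)
def c1333 : PP 8 4 T 0x1000000000000000000000100000000000000000000000002000040000005008000 := rS 0x13294319fc9d45599ccd3194520d0a81438a6245d48a5d566d2fb44f21d2b89476a917824de513881c7a271fbc0220401804265b2224d3ab98b0cd92e5188d51e16 (k8 c461 c1327 i1116 c1312 c409 c459 i285 c510 (k8 c487 c552 c436 c1323 c1326 i227 c1290 i220 (k8 c410 i524 c1167 c494 c54 c11 c710 c1187 (k8 c743 c372 c1004 c1170 c1147 c1169 i861 i502 (k8 c1298 i972 c549 c1139 c1159 c1165 c1309 c1282 (k8 c768 c492 c874 c32 c46 c376 c579 c1203 (k8 c40 i1887 c1328 c1331 c1211 c1332 i760 i1350 (k2 c1213 i1939 (k1 c1019 k0))))))))) (by decide +kernel)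
def c1334 : PP 8 4 T 0x1000000000000000000000000000000000000000000000002000040000005008000 := rS 0xc3154a18ce64e0f9fdfab05ca4e2c331ab251e271ebc01211549bce21d021440e030b39556011894d425f1584cb644 (k8 c1323 c1326 i227 c1152 c1139 c1156 c1173 c1312 (k8 c1290 c1165 c409 c461 i220 c710 c743 c410 (k8 c1298 c1187 c372 c1147 i524 c1004 c1167 c11 (k8 c54 c1327 c459 i1116 i285 c510 c436 c487 (k8 c1333 c373 c748 c791 c1311 i758 i1350 c1213 (k2 c386 i1019 (k1 c573 k0))))))) (by decide +kernel)
def c1335 : PP 8 4 T 0x400000000000000011000000000000040000040140000000000000000800000002000000010016018040 := rS 0x50d4aca5ed1564c153b95466d50824fb108b8d11e64011d47a3f7804cb644 (k8 c1323 c1326 i227 c1167 c494 c11 c1303 c446 (k8 i341 c829 i340 c406 c1171 c433 c1324 c1156 (k8 c1159 c1140 c409 c716 c340 c1160 c76 i1414 (k4 i633 c996 c531 c561 k0)))) (by decide +kernel)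
def c1336 : PP 8 4 T 0x21002000000000008000000100000000000000014000100002000000000004008008 := rS 0xbc592516e73289fcda533ead621171a23cea4f57ae4c2935699102838917c885b (k8 c1326 c1323 c1139 c492 c579 c46 i341 c34 (k8 i1549 c384 i1026 c503 c19 c1303 c829 i340 (k8 c406 c1171 c463 c433 c1173 c1159 c408 c377 (k4 c534 c541 c1138 i2038 (k2 i1105 i1414 k0))))) (by decide +kernel)
def c1337 : PP 8 4 T 0x400000000000000011000000000000000000040140000440000000014800000002000040010014018040 := rS 0x115398bda4a7508b472183d8ec7a3f7804cb644 (k8 c1323 c1326 i227 c1167 c494 c11 c443 c551 (k8 c1334 i235 c519 c1156 c716 c1335 c554 i1091 (k2 c745 c379 k0))) (by decide +kernel)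
def c1338 : PP 8 4 T 0x1002000000000000000000000000000000000014000000002000000000026008000 := rS 0x4a294fe735185cfab58845c688f221d5726149ab4c802 (k8 c446 i341 c34 i1549 c384 i1026 c1303 c1323 (k8 c829 i340 c406 c1171 c463 c433 i8 c1140 (k4 i717 i720 i1381 c1138 (k1 i1099 k0)))) (by decide +kernel)
def c1339 : PP 8 4 T 0x1002000000000000000000100000000040001094000000002000040010004018040 := rS 0xd4bba7b390f122eac94ea12f9ec128566c422e8f3a8f47e9f1a2759305338152eaf5c990049b30b443b0d41a4476f00996c8818 (k8 c1334 c1323 c1326 i227 c1167 c443 i1168 i923 (k8 c534 c1338 c549 c384 c364 c446 i341 i1026 (k8 c503 c869 c509 i541 c497 c407 c343 i340 (k8 i1183 c494 c11 c1303 c829 c406 c1171 c555 (k8 c6 c1324 c551 c1139 c1156 c716 c1160 i514 (k4 c492 c32 c1146 c501 (k2 i1951 i1029 (k1 c1337 k0)))))))) (by decide +kernel)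
def c1340 : PP 8 4 T 0x1002000000000000000000100000000040001094000000002000040000004018040 := rS 0x53accb82841c35425f048f47e911dbc0265b222bc3a18 (k8 c1334 c1338 c503 c1323 c1326 i227 c1167 c443 (k8 i1168 c494 c11 c1324 c1139 c1156 c534 i923 (k4 c1339 c874 i514 c1205 (k1 c1160 k0)))) (by decide +kernel)
def c1341 : PP 8 4 T 0x1002000000000008000000100000440000001014000000002000040010004018040 := rS 0x10c2e9a918bba7abd7261320083a18 (k8 c1334 c1338 c446 i341 c384 i1026 c503 c501 (k4 i1951 i1028 i1029 i1845 (k2 c1337 c1336 k0))) (by decide +kernel)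
def c1342 : PP 8 4 T 0x1002000000000000000000100000000040001014000000002000040010004018040 := rS 0x14ca459a50a27f862ecd45c34d3e268667c14da5f049f50ab566c422e8f3a8f47e914f8ede013220d12eaf5ca6cc2d12da4d5a64010743073 (k8 c1340 c1334 c1338 c446 i341 c34 i1549 c1326 (k8 c549 c384 c364 i1026 c503 c869 i340 c1323 (k8 i227 c1167 c443 i1183 i1168 c494 c11 c1303 (k8 c829 c406 c1171 c555 c463 c6 c433 c1324 (k8 c1139 c1159 c497 c1341 c1315 c32 c67 i1564 (k8 c492 c550 i1946 c1337 c408 c377 c1138 i513 (k2 i1099 c1160 (k1 i368 k0)))))))) (by decide +kernel)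
def c1343 : PP 8 4 T 0x11000002000000000000000000010440000000054000200002000140100014000140 := rS 0x5ea78a0ec7a3f (k4 c494 c11 c443 c379 (k2 c1205 c480 (k1 c745 k0))) (by decide +kernel)
def c1344 : PP 8 4 T 0x1002000000000000000000100000000040001014000000002000040000004018040 := rS 0x29948b34a144ff0c5d9aa9e86679a51a5c141cc3a934dae55aaf30c14daa12f8b412393d9f50ab566c422e8f321d47a3f48a7c76f00991068020c25da25b (k8 c1326 c549 c869 c1334 c446 i340 c1323 i227 (k8 c1167 c443 i1183 i1168 c494 c11 c1303 i341 (k8 c829 c406 c1171 c555 c463 c6 c433 c551 (k8 i235 c1324 c519 c1139 c1156 c1159 c497 c384 (k8 c503 c34 i1026 c364 i1549 c1338 c1340 c1342 (k8 c874 i1845 i1849 i1028 c1315 c67 c550 i1946 (k8 c1343 c408 c377 c1138 i513 i1099 c1160 i368 k0))))))) (by decide +kernel)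
def c1345 : PP 8 4 T 0x1000002000000008000000000400040000001054000000002000040410014008000 := rS 0x20d6e1f89431025d8aa61189b5097c562d1c9ecb6892219004181d8f44e3f (k8 c494 c54 c11 c443 c1334 c446 i341 c1323 (k8 i2093 c1326 c551 i235 c519 c1152 c1139 c1156 (k8 i2704 i1028 i2034 c745 i1845 i1863 c379 c492 (k4 c452 c541 c579 i2031 k0)))) (by decide +kernel)
def c1346 : PP 8 4 T 0x401000000000000000000000100000000040001014000000002000040000004018040 := rS 0x50862c9368d8c171425f548b4727b488ede0134bb44b6730b8bc881d693f41218 (k8 c1334 c1324 c1344 c1137 c405 c1323 c957 i8 (k8 c968 c1326 c549 c869 i227 c1167 c443 i1168 (k8 c551 i235 c519 c437 c1139 c1156 c492 c500 (k4 i1845 c394 c1206 c1343 (k2 i513 c377 k0))))) (by decide +kernel)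
def c1347 : PP 8 4 T 0x1000000000000000000000100000000040001014000000002000040000004018040 := rS 0xce14a1e24a70eb485e737e9ec2e0942b36211747990ea914f8ede013220d0049d64c14ce050c25da25b (k8 c1326 c549 c869 c1334 c509 i541 c497 c407 (k8 c343 c446 i340 c1323 i227 c1167 c443 i1183 (k8 i1168 c1303 i341 c829 c406 c1171 c555 c6 (k8 c1324 i8 c551 c1344 c968 c957 c1137 c405 (k4 c496 c1346 c32 c560 (k2 c1146 c1345 k0)))))) (by decide +kernel)
def c1348 : PP 8 4 T 0x1000000000000000000000100000000040001010000000002000040000004018040 := rS 0x10d1267c6534a7693f53260179b85a091c9ed128566c422e8f321d47a3f48a7c76f00991068020c25da25b (k8 c1326 c549 c869 c1334 c446 i340 c1323 i227 (k8 c1167 c443 i1183 i1168 c494 c11 c1303 i341 (k8 c829 c406 c1171 c555 c6 i2093 c551 i235 (k8 c1324 c519 c1347 c414 c451 c597 c384 c1137 (k4 c496 i2034 c394 i2704 (k2 c500 c1315 (k1 c32 k0))))))) (by decide +kernel)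
def c1349 : PP 8 4 T 0x1000000000000000000000140000001000000080000200002000000000014018140 := rS 0x2cd4e8386a847a3f7804cb644 (k8 c1323 c1326 i227 c1167 c494 c11 c1156 c534 (k4 i923 c1205 i514 c1160 k0)) (by decide +kernel)
def c1350 : PP 8 4 T 0x1002000000000000000000100000000040000010000000002000040000004018040 := rS 0x35d3d74c2532916694289fe18730ea4d726f56abcc30536a845a091c9ecfab51e8fd223b7804d2ed12da6d18692e1e10b108b8d11e64010608875 (k8 c1303 c1323 c1334 c446 i341 c829 i340 c406 (k8 c1171 c6 c1348 c586 i1849 c78 c498 c1326 (k8 c549 c869 i227 c1167 c443 i1168 c494 c11 (k8 c463 c433 c551 i235 c1324 c519 c1156 c1159 (k8 c497 c384 c503 c34 c451 i1026 i1549 c1338 (k8 c1349 c1343 c408 c377 c1138 i513 i1099 c1160 (k4 i367 i368 c428 i3120 (k1 c550 k0)))))))) (by decide +kernel)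
def c1351 : PP 8 4 T 0x1000000000000000000000100000000040000010000000002000040000004018040 := rS 0xae312cd24513fc31726f8aa614e95690bce6fd2e26cf0976885c5a091c9ed127d5ac422e344799004183a8ec7a3f7804cb644 (k8 c1323 c1326 i227 c1167 c494 c11 c443 c1303 (k8 c1334 c446 i341 c829 i340 c406 c1171 c463 (k8 c433 i2093 c551 i235 c1324 c519 i8 c549 (k8 c869 c1348 c498 c586 c1350 c968 c957 c1137 (k8 i1098 c496 i2034 c745 c597 i2702 c379 c408 (k4 c377 c1138 i513 i1550 (k2 c1160 i539 k0))))))) (by decide +kernel)
def c1352 : PP 8 4 T 0x1002000000000000000000100000000080000010000000002000000000006018040 := rS 0x73590bd4ed20ea64deaf30a84128f320087a271fa0506298924476f009910f65b (k8 c1326 c551 c1323 i227 c1167 c443 i1168 c744 (k8 c560 c579 c46 c494 c54 c11 c446 i341 (k8 c829 c1324 c1156 c384 c503 c451 i1938 c1338 (k4 c1317 c496 c554 c1160 (k2 i1091 c1331 k0))))) (by decide +kernel)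
def c1353 : PP 8 4 T 0x1001000000000000000000500000000080500000000100002000000010004018140 := rS 0x2d89c1f28ab8a6a1158ec7a271fbc0265b220754ed2 (k8 c1137 c496 c405 c1323 c1326 i227 c1167 c494 (k8 c54 c11 c443 c1152 c1156 c1173 c1160 i499 (k4 c791 c1332 i2031 i761 k0))) (by decide +kernel)
def c1354 : PP 8 4 T 0x1000000000000000000000100000000000000010000000002000040000004018040 := rS 0x37185641d690bce6fd14975068189235147b0b8247a271fa4476f00996c8818 (k8 c1334 c1323 c1326 i227 c1167 c443 i1168 c494 (k8 c54 c11 c1324 i8 c551 c1351 i76 c744 (k8 c46 c579 c65 c560 c1352 c968 c957 c1137 (k4 c405 c1353 i1432 c1331 (k1 c451 k0))))) (by decide +kernel)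
def c1355 : PP 8 4 T 0x1000000000000000000000100000000000000000000000002000040000004018040 := rS 0x2941c4914a70eaba8ad240acdfa1f312dc9c70508acf609448087a271fa4476f00996c8818 (k8 c1334 c1323 c1326 i227 c1167 c443 i1168 c494 (k8 c54 c11 c446 i2093 c1324 c551 c1152 c1156 (k8 c1354 c495 c558 c474 i1356 c19 i1430 i1275 (k8 c1137 c1211 c371 c405 c496 i539 c744 c579 (k2 c560 i2031 k0))))) (by decide +kernel)
def c1356 : PP 8 4 T 0x1000000000000000000000000000000000000000000000002000000000006008080 := rS 0x5ca4d2a6f3f9cce2c065294381f27b4c1aa32080486a116b24fab58845c688f320088875 (k8 c1303 c1323 c446 i341 c829 i340 c406 c1171 (k8 c463 c433 c407 c519 c1156 i41 c1290 c815 (k8 c1140 i5 c378 i1222 i1302 i480 i1380 i599 (k8 i600 c495 i1092 c861 i1231 i1099 i1367 i1249 (k1 c1138 k0))))) (by decide +kernel)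
def c1357 : PP 8 4 T 0x1000000000000000000000000000000000000000000000002000040000004028000 := rS 0x13a9f67a1cf26a622451a26638c4f65b64a159b108b8d11e64010608875 (k8 c1303 c1323 c1334 c446 i341 c829 i340 c406 (k8 c1171 c555 c6 c407 c1326 c551 c1312 c1172 (k8 i484 i1759 c994 i602 i601 i1767 i738 i1028 (k2 i1525 i1908 (k1 c1146 k0))))) (by decide +kernel)
def c1358 : PP 8 4 T 0x1000000000000000000001000000010400050154020000082000000000004000000 := rS 0x31a4972cb (k4 i1389 i1027 c1138 i1350 (k1 i1550 k0)) (by decide +kernel)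
def c1359 : PP 8 4 T 0x1000000000000000000000000000000000000000000000002000040000004008000 := rS 0x505d40988e04e0ea543e7f37b485e7328a0d6ea77e8fc4e3d583c022075a9f62117478d0c8090b80830ab3a94d425f1584cb644 (k8 c1323 c1326 i227 c1152 c1139 c1156 c1173 c1303 (k8 c1165 c1334 c446 i8 c1324 i341 i340 c829 (k8 c406 c1171 c433 c463 c1356 c1357 c1167 c1355 (k8 c11 c54 c494 c373 c1164 i1824 i1296 i1316 (k8 c968 c957 c1137 c372 c748 c791 i1098 c405 (k4 c1311 c1358 c474 i2870 (k2 i1847 i2031 (k1 c874 k0)))))))) (by decide +kernel)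
def c1360 : PP 8 4 T 0x1000000000000000000000000000000000000000000000002000000000004008000 := rS 0xb0049704c6f3881020510380c2c91788646c131596c8801 (k8 c1290 c1323 c1326 c1152 i227 c1359 c442 c594 (k8 i993 c461 i220 c710 c743 c1167 c410 c1187 (k4 c372 i484 i483 c1004 (k2 c768 i3043 k0)))) (by decide +kernel)
def c1361 : PP 8 4 T 0x1002000000000040000000000000000800000080000000002600000000014800060 := rS 0x194b511a94ace428415101e56aac122f88c54020d21894b22d2ab2582211aa861a0f (k8 c1360 c534 c1156 i354 i726 c311 i611 i766 (k8 c1196 i603 i346 i41 c352 c569 c36 c416 (k8 i1080 c56 c37 c34 c600 c548 c1176 c1175 (k4 c77 c833 c484 c1193 (k2 i1395 c1195 (k1 i506 k0)))))) (by decide +kernel)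
def c1362 : PP 8 4 T 0x1002000000000000000000000000000800000080000000202600000000014800060 := rS 0x194b9119fcacad558245f118ba841a43129945b0d648846a0f (k8 c1360 i354 i726 i611 c534 c1196 c829 i346 (k8 i41 c352 c1156 c504 c416 i1080 c56 c37 (k4 c34 c333 i1665 c1193 (k2 i1142 c1195 (k1 c173 k0))))) (by decide +kernel)
def c1363 : PP 8 4 T 0x1002000000000000000000000000000800000080000000002200000000015000040 := rS 0x44878a2d223810060156aac1216 (k8 c461 c56 c37 c34 c569 i220 c410 c720 (k4 c1361 c1362 c1184 c1179 (k1 c1189 k0))) (by decide +kernel)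
def c1364 : PP 8 4 T 0x1011000000000000040000000000010000000000000000000002100000500014000100 := rS 0x4201905101e (k4 c600 c548 i182 i190 (k2 c399 c563 k0)) (by decide +kernel)
def c1365 : PP 8 4 T 0x1000000000000080200001010010000800040000000000002020000000044800000 := rS 0x3e15ca905 (k4 c553 c564 c400 c1106 (k1 i1541 k0)) (by decide +kernel)
def c1366 : PP 8 4 T 0x4001000000000000000100000000000000000000000010000002060000000804000000 := rS 0x105339181a00 (k4 c815 i1570 i184 i449 (k2 c425 c532 k0)) (by decide +kernel)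
def c1367 : PP 8 4 T 0x1002000000000000100000000000010000000080014010002000000002114800002 := rS 0x330ccc2a9 (k4 c61 c384 c395 c1241 (k1 i450 k0)) (by decide +kernel)
def c1368 : PP 8 4 T 0x4001000000000000000000012000000000000000000010000202000000000004000000 := rS 0x320acca (k4 i1397 i1398 c173 c400 k0) (by decide +kernel)
def c1369 : PP 8 4 T 0x1002000000000080000010000010000800000080000000202020000000014800040 := rS 0x1042319c1ae45289446c965a556a7f56aae231786b0546432c87c122131994000f (k8 c1360 c815 i2634 i447 i2497 c56 i182 i2595 (k8 i439 c69 c539 c534 c504 c416 c37 c34 (k8 i847 c1368 i1103 c179 c1365 c1366 c1367 c198 (k4 c392 c4 i449 c1145 (k2 c532 c425 k0))))) (by decide +kernel)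
def c1370 : PP 8 4 T 0x1002002000000010000000000010440844500080000000202100040010014800040 := rS 0x662157a9844b0d4a23129f8627d4aae073185b234421f00100866f308ae223b1eb1c4ec51fa9da42d86c545e09 (k8 c56 i1080 c36 c534 i977 c1364 c496 c494 (k8 c547 c54 c20 c11 c443 c416 i899 c384 (k8 c451 i439 c399 c815 i182 i2497 i964 i2031 (k8 c401 c559 c1369 i104 i1329 i2661 i1142 i861 (k8 i1664 c198 c865 i1403 i2034 i1991 i1935 i2032 (k1 i849 k0)))))) (by decide +kernel)
def c1371 : PP 8 4 T 0x1002000000000080000001000010000800040080010000002000000000014800042 := rS 0x4108c6706b914a2511b25969556aae231786b0546593190c061f04884800f (k8 c1360 c536 i2497 c56 i182 i1 c563 i447 (k8 c568 c69 c539 c534 c504 c416 c37 c34 (k8 i1103 c179 c1365 c1366 c1367 c198 c392 c4 (k4 i449 c1145 c532 c425 k0)))) (by decide +kernel)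
def c1372 : PP 8 4 T 0x1002002000000080000000800010001840040080010000002000040010014800042 := rS 0x369a4d6cf33b2574cc5fa50aab45ea756d180fa3480ab048ac7a271fb453e8353a04be59 (k8 c568 c489 i1335 c496 i923 i1187 c479 c494 (k8 c54 c11 i899 c56 c37 c536 i964 i182 (k8 c401 i2031 c393 i1989 c1371 i2522 i885 i1455 (k8 i886 i887 c564 i1673 i1105 i634 i1831 i1681 (k1 i2042 k0))))) (by decide +kernel)
def c1373 : PP 8 4 T 0x101000000000000000000000000000000000000000000011002810000000004000000 := rS 0xaf05 (k2 c425 i1578 (k1 c83 k0)) (by decide +kernel)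
def c1374 : PP 8 4 T 0x1002000000000080400000000000000800000000000000002400000001144800008 := rS 0x14a3588c5c620f (k4 c1360 i2676 c504 c416 (k2 i1117 c198 (k1 c1031 k0))) (by decide +kernel)
def c1375 : PP 8 4 T 0x1002002000000080400000000010000800540000000011102500000051054800008 := rS 0xb43e95c40b62993d5aab1e89c7ea7 (k8 c496 c494 c54 c11 c37 c34 c19 c418 (k4 i2031 c1374 i1498 i1502 (k2 i2037 i2483 k0))) (by decide +kernel)
def c1376 : PP 8 4 T 0x4001002000000000080400000000000000000000000000000002400011000004000008 := rS 0x72290660f (k4 c1360 i192 c1031 c510 (k1 c484 k0)) (by decide +kernel)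
def c1377 : PP 8 4 T 0x1002002000000000000010800010001840000080010000102000040010015000040 := rS 0x5ac10fa571008c681e23b2caa2518b24840220804b25327ab5562b88c5c0a8360b485a4586c545e1604a04be7f (k8 i847 c489 i1335 c56 c461 i1080 c36 c534 (k8 c1363 i977 c1364 c539 i923 c1274 c504 c416 (k8 i899 c37 c34 c19 c418 c568 c1372 c815 (k8 c410 c399 i2776 i2676 c590 i2457 c173 c1373 (k8 c1375 c1376 i246 i1117 i442 i1501 c83 i1396 (k1 c664 k0)))))) (by decide +kernel)
def c1378 : PP 8 4 T 0x1002002000000000000010800010001840000080000000102000040000015040040 := rS 0x2519ca561b904a31448e484bd10808829d499b46635009915b118b8ed8ec502a7d82a3690b48b0d8a8bc2c0914975065f (k8 c489 i923 i514 c874 c56 c461 i1080 c36 (k8 c534 c1363 i977 c1364 c69 c539 i1187 c1274 (k8 c547 c20 c443 c504 c416 c34 c1377 i2634 (k8 i2700 i1546 i1699 i1549 i1552 c815 c410 i726 (k8 i1414 c399 i194 i190 i2676 c590 c510 c865 (k4 c484 i2035 i2033 i1105 k0)))))) (by decide +kernel)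
def c1379 : PP 8 4 T 0x101000000000000002000000800000000000080000400000102000000000004000000 := rS 0x65af0aa59 (k4 c576 i770 i849 c197 (k1 i1413 k0)) (by decide +kernel)
def c1380 : PP 8 4 T 0x101000002000000001000000000000000005000000000000002000000051504000000 := rS 0x61b1c4ec5 (k4 c547 c54 c20 c865 (k1 i2032 k0)) (by decide +kernel)
def c1381 : PP 8 4 T 0x1002002000000000000000800010041840000080000000002000040000015040040 := rS 0xd8ba34a6208392a96c044200a24823310334d623429644a575aafcfc313ed0d2ab828aacde6115c44763d1f815a2874da9d46d2169161b1517858128114975065f (k8 c489 i923 i514 c874 i1335 c56 c461 i1080 (k8 c36 c534 c1363 i977 c1364 c69 c496 i1179 (k8 i931 c479 c1274 c494 c11 c443 c416 i899 (k8 c384 c451 c37 c1370 c1378 i104 c543 i1329 (k8 i2661 i1142 i1457 i885 c695 i861 c576 i1670 (k8 i1663 i634 c1379 c1380 c1142 i2497 i1404 c536 (k8 c399 c410 i706 i2457 i194 c83 i2034 c63 (k2 i1144 i2039 (k1 i1681 k0))))))))) (by decide +kernel)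
def c1382 : PP 8 4 T 0x1002000000000000000000100010001800000080000000002000040000015050040 := rS 0x22964a7690b55e3d1fbc22b0d22a6d2ed1048bc2ca9 (k8 c61 c461 i1080 c56 c479 c1309 i1179 c1363 (k8 c534 c36 c1167 c494 c11 c503 i977 c1364 (k4 c496 c1160 c1381 i554 k0))) (by decide +kernel)
def c1383 : PP 8 4 T 0x1002000000000040500010000000010810000000004000002060000401004000000 := rS 0x19d260d60b90466156aad53118b884ca00 (k8 c815 i2634 i2497 c504 c416 c61 c37 c34 (k8 c384 c1366 c392 c0 c4 c878 i449 i2040 k0)) (by decide +kernel)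
def c1384 : PP 8 4 T 0x1002002000000040400010000000010814000000404110002140000451004000000 := rS 0x46856695ca905644444240 (k8 c399 i2497 c416 c1383 c553 c564 c400 c346 (k2 i1544 i1538 (k1 c1380 k0))) (by decide +kernel)
def c1385 : PP 8 4 T 0x1002000000000000000000000000010000000080014010002000000002114800002 := rS 0x19030 (k2 i861 c1367 (k1 c431 k0)) (by decide +kernel)
def c1386 : PP 8 4 T 0x11002002000000040000011800000010814000000004110002140000451004000000 := rS 0x35b2cff11 (k4 c416 i847 c179 i633 (k1 c1384 k0)) (by decide +kernel)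
def c1387 : PP 8 4 T 0x1002000000000000000000100000001800000080000000002000040000015050040 := rS 0xca822f1986b4295c46bf3f1f686b861894ba8159195168d1096452004a98d32405a8b1a68921a812e834da1cbed157aac12a937984562f0b4458e2762bc21a45 (k8 c1363 c534 c1167 c547 c54 c20 c416 c461 (k8 i1080 i899 c384 c451 c61 c56 c37 c503 (k8 c479 c489 i931 i1179 i923 c1309 c1382 c457 (k8 c26 c30 i822 i2598 c399 c870 c1292 i2653 (k8 c815 i186 i2595 i2497 i964 i451 i2634 i2041 (k8 i1335 i514 c1385 c865 c1386 c543 i1329 i1142 (k8 i1457 i312 c695 i1670 i634 i2032 i849 c346 (k2 i1413 c434 k0)))))))) (by decide +kernel)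
def c1388 : PP 8 4 T 0x1002000000000000000000100000000800000090000000002000040000015050040 := rS 0x81a2ac8bea746a0d6e9689a421aaf048bc7a3f3d89de016 (k8 c461 c1167 c54 i713 c494 c11 i1080 c56 (k8 c503 c534 c1387 c390 c1282 i1901 i1375 i1817 (k4 i1898 c477 c1160 c76 (k2 i1335 c440 k0)))) (by decide +kernel)
def c1389 : PP 8 4 T 0x1002000000000010000000800400040000000050000400002020040100014850000 := rS 0x5b89a08bab728c322a398c26d168d0f8a4004f049bcc22b178ec7a271fbc14281 (k8 i1335 i821 c1167 c494 c54 c11 c443 i1080 (k8 i899 c384 c451 c56 c19 c815 i186 i182 (k8 i964 i451 c364 c401 c559 c745 c379 c377 (k4 c541 i513 i2031 c579 (k2 i775 c492 k0))))) (by decide +kernel)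
def c1390 : PP 8 4 T 0x2001000002000000010000000800400040000000000001000002000140500004000000 := rS 0x1169a318ec7a3f (k4 c494 c11 c443 c80 (k2 c745 i553 (k1 c364 k0))) (by decide +kernel)
def c1391 : PP 8 4 T 0x1002000000000080000000100000001000000050000000002100040000014850040 := rS 0x16e1f864550629890e4ba5b01108024140a5cbed1549bcc22b1789d420516ac94e3d578fde009 (k8 c56 c1167 c494 c503 c11 c496 c1160 c556 (k8 c1274 i821 c54 i1080 i899 c384 c451 c61 (k8 c479 c489 c1309 i1335 c1389 c536 c399 c410 (k8 i706 i443 i194 c492 c874 c579 c1390 c379 (k2 c452 c541 (k1 i2031 k0)))))) (by decide +kernel)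
def c1392 : PP 8 4 T 0x1002000000000080000000100000000000000050000000002100040000014850040 := rS 0x101989a096482c94eaf04aa45e3b1e8fde005 (k8 c1274 c1167 c494 c11 c443 i1080 c61 c56 (k8 c503 c496 c1160 c1391 c1282 c1309 i1373 i1160 (k2 i447 c410 k0))) (by decide +kernel)
def c1393 : PP 8 4 T 0x1002000000000040000004100000441010104050000100002000040400004810004 := rS 0x449045b4c93cde613ca85a25f (k8 c489 c479 i821 i972 c384 c451 c19 c870 (k4 c1299 i2045 c492 c579 k0)) (by decide +kernel)
def c1394 : PP 8 4 T 0x1002000000000040000000900000041040000050000000002000040000014850002 := rS 0x538b5105d5b944730c8c07d1a40018245e7b13bc142812fa6cc2d1 (k8 c479 c384 c364 c489 i1335 i821 c1167 c54 (k8 i713 i1080 c56 i1 c536 i964 i182 c401 (k8 c600 c559 c377 c541 i513 c1393 i68 i282 (k1 c1389 k0)))) (by decide +kernel)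
def c1395 : PP 8 4 T 0x1002000000000000000000900000001000000050000000002100040000014850040 := rS 0xb741c30531253264ba5b16a24724201104029b40a2cde613c8ec7a3f3d89de0a102b4cbe97688245ea9 (k8 c61 i1080 c56 c479 c1309 c489 c1392 c1274 (k8 i821 c1167 c54 i713 c494 c11 c443 i972 (k8 c384 c451 c1329 i1335 c364 c1394 c815 c410 (k8 c399 i194 i190 i1001 i706 i443 c870 i2034 (k4 c492 c874 c716 c579 (k2 c541 i2045 k0)))))) (by decide +kernel)
def c1396 : PP 8 4 T 0x1002000000000050000000500800040000000000000000002000040400004010042 := rS 0x22072984dc60c68b469855ea9 (k8 c61 c503 c384 i964 i451 i447 c401 c364 (k4 i2041 c559 c870 i282 k0)) (by decide +kernel)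
def c1397 : PP 8 4 T 0x1002000000000000000000100000001000000050000000002100040000014850040 := rS 0x5b431062989144ba5b211040281532cd2e5f6894c9eaf04aa45e3d1fbc142d3 (k8 c1392 i821 c1167 c494 c11 i1080 c61 c56 (k8 c503 c19 c418 c479 c489 c1309 c1395 c1160 (k8 i1860 c1396 c815 c399 i706 i443 i439 c492 (k4 c874 c579 c716 i2038 (k1 c541 k0))))) (by decide +kernel)
def c1398 : PP 8 4 T 0x1002000000000000000000100000000000000050000000002100040000014850040 := rS 0x290fa04bf0c53a3507152eadd2d1989a40de613c8ac5e3d138fde0a1 (k8 i821 c1167 c494 c54 c11 i1080 i899 i972 (k8 c384 c451 c1397 c390 c50 c1282 i854 c1277 (k8 c571 i1375 i1817 i1898 c379 c477 c2 c452 (k2 c874 i2031 k0)))) (by decide +kernel)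
def c1399 : PP 8 4 T 0x1002000000000080000000100000000800000050000000002200040400004850060 := rS 0x11586a203c51590b54eaf56aac126f308f47ef0 (k8 c1167 c494 c11 c384 c451 c56 c37 c34 (k8 c503 c496 c556 c1160 c727 c1184 c1189 c452 (k2 c518 c379 k0))) (by decide +kernel)
def c1400 : PP 8 4 T 0x11002000000000040000000800000000800000050000000002205040010014840060 := rS 0x14512c153879462d8a2b55609379845ea13f8846a0f (k8 c1360 i354 i726 i846 i821 i1080 c384 c451 (k8 c56 c37 c34 c379 c1105 c316 c600 c716 (k4 c311 c518 c727 c1181 k0))) (by decide +kernel)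
def c1401 : PP 8 4 T 0x1002000000000000000000900000000800000050000100002000040000014850044 := rS 0x1448860adc3e7d28c313681459855aab888ec7a3f3d89de095128a52e0954a45a25f108d5a604009105e0f (k8 c1360 i1080 c1398 c569 c410 c1399 i354 i726 (k8 c1139 c1141 c840 c61 c56 c1309 c874 i346 (k8 i1102 c1167 c54 i713 c494 c11 c443 c416 (k8 c37 c34 c384 c1329 i1335 c364 c1400 c377 (k4 c57 c452 c541 c224 (k2 c1393 c1182 (k1 i281 k0))))))) (by decide +kernel)
def c1402 : PP 8 4 T 0x1002000000000000000000100000000800000010000000002000040000015050040 := rS 0x20a245b44a8982cb5b9f4a2a5862054cb369b0c42551ab25a247020a4ba032c8941a5f0090c8895509cc7e3d7814cc24f57ab556091785a220f (k8 c1360 c416 c461 i1080 c56 c37 c34 c503 (k8 c19 c384 c418 c1167 c11 c494 c1388 i821 (k8 i1102 c1398 i41 c569 c1139 c352 i346 i603 (k8 i220 c863 c874 c410 c720 c1141 i611 i354 (k8 i766 i726 c865 c1399 c1401 c1160 i1860 c716 (k8 i367 c377 c57 c541 c197 c224 c1145 i281 (k4 c1299 c492 i2038 c579 k0))))))) (by decide +kernel)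
def c1403 : PP 8 4 T 0x1002002000000080000000800000000840000080000000002100040004014800042 := rS 0x6b6630c46bf42894a27e62b1c571150a8cca214097da2874d8a4ba8348a5cc640 (k8 c536 i447 i1373 c1282 i923 i514 i187 i1179 (k8 i931 c479 i2611 i1335 i2497 i2634 c69 c30 (k8 c416 i899 c20 c547 c1372 c1370 i842 i1670 (k4 i1723 i1663 c865 i2032 (k2 i634 c1379 k0))))) (by decide +kernel)
def c1404 : PP 8 4 T 0x101002000000000080000020000000040005000080014000002005140014114800002 := rS 0x18ecd5d2f530c544b9186a511894fc95158bd4e2d518ecb21f200253691 (k8 c1282 i1179 c56 c536 i182 i2595 c527 c69 (k8 c556 c496 i1080 i899 i104 i1142 c1385 i1663 (k8 c198 c865 c392 i1403 c41 i2034 i1991 i1144 (k2 i849 i1679 (k1 i2032 k0))))) (by decide +kernel)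
def c1405 : PP 8 4 T 0x1002000000000080000000800000000800000080000000002105040000014810042 := rS 0x1b4d26b6799d92ba662fd28555ead0feb942c49e2b6148e53a5d8c20d0e9f68a4502971087c4e5f2c994c68b46901560915c454ea1 (k8 c30 c496 c416 i899 c56 c37 c536 i964 (k8 i451 i447 i2634 i2595 i2611 i746 i182 i2497 (k8 i1373 i1335 c1282 c479 i1187 i931 i923 c401 (k8 i514 c393 c559 i187 i2031 c1403 c512 c376 (k8 c1404 i847 c1371 i1989 i2522 i885 i1455 i886 (k8 i887 c564 i1673 i1105 i634 i1831 i1681 i2042 k0)))))) (by decide +kernel)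
def c1406 : PP 8 4 T 0x1000000000000000050000000005000000000000420000002000555000004000000 := rS 0x19c0f (k2 c1360 c1057 (k1 i1029 k0)) (by decide +kernel)
def c1407 : PP 8 4 T 0x1000002000000000000000000004000040000000420000002000551000004000010 := rS 0x4e8cd8ec5 (k4 c547 c20 i1546 i1552 (k1 c1406 k0)) (by decide +kernel)
def c1408 : PP 8 4 T 0x4101002002000000080000000000004000040000000000001102010041011104880018 := rS 0x196472c994d6c31a8eda239 (k8 i195 i2797 i215 i1117 c865 i1960 c1407 c568 (k2 c1373 c197 (k1 c1376 k0))) (by decide +kernel)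
def c1409 : PP 8 4 T 0x1002002000000080000000800000000800000080000000002010040010015080048 := rS 0x1b174695c1ae08656695cb22042c48b62755c462ea118894aa5f4fa1d3039458bd4e9b48944844f02914ba3d1d8fc5a8904a5da216 (k8 c461 i2797 i1374 c56 i190 c556 i216 i215 (k8 i1802 i1844 c1363 c1274 c19 c399 i439 c1102 (k8 i1179 c496 i1080 i554 i195 i2034 i931 i1187 (k8 c489 i2457 c590 i2676 c30 c504 c416 c37 (k8 c54 i705 c492 c376 c1408 c465 i1498 i729 (k8 i1025 c83 c881 c1377 c63 i1144 i2039 i1681 k0)))))) (by decide +kernel)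
def c1410 : PP 8 4 T 0x1002000000000080000000000000000800000000000011102010010000004000008 := rS 0xcb23c462e31 (k4 i2676 c504 c416 c1373 (k2 c197 c1376 k0)) (by decide +kernel)
def c1411 : PP 8 4 T 0x1002000000000080000000000005000800000000000401102010140011104880018 := rS 0x3158ecf19834da642c1ad8635888c476d1 (k8 i2797 i215 i2676 c416 i1117 c865 i1960 c1410 (k8 c568 i669 i462 i1546 i1029 i219 i1804 i2035 k0)) (by decide +kernel)
def c1412 : PP 8 4 T 0x1002000000000080000000800000000800000080000000002010040010015080048 := rS 0x61d3d74ce62ae0d27e8232d8e7d5a95cb2e51027630f129ab5571160894aa5f4fa1d3039458bd4e9b48944844f02914ba3d1d8fc5a8904a5da216 (k8 c461 i2797 i1374 c56 i190 c556 i216 i215 (k8 i1802 i1844 c1363 c1274 c19 c399 i439 c1102 (k8 i1179 c496 i1080 i554 i195 i2034 i931 i1187 (k8 c489 i2457 c590 c539 c416 c37 c34 c418 (k8 c1409 c520 c393 c1411 c470 c465 i1498 i727 (k8 i1501 i1689 c197 c83 i2037 c63 i847 i1803 (k4 i1143 i1144 c501 i1944 (k1 c515 k0)))))))) (by decide +kernel)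
def c1413 : PP 8 4 T 0x1002000000000080000000800000000800000080000000002000040000015090040 := rS 0x5b898a0be911da5ca2d12e90804410093c2c3d1f8240a45 (k8 c1363 c1274 c56 i216 i1802 c461 c19 c1405 (k8 c815 c410 c399 i1844 i2797 i439 i1374 i215 (k4 c1102 c489 c1412 c560 (k2 i1806 c492 k0)))) (by decide +kernel)
def c1414 : PP 8 4 T 0x1002000000000080000000000000040804180080004000002005140014014800002 := rS 0x10ab8889944240 (k4 c536 i2497 i2634 c416 (k2 i847 i1670 (k1 c1404 k0))) (by decide +kernel)
def c1415 : PP 8 4 T 0x1002000000000090000000000004040844500080000000002000140014014880042 := rS 0x6b369a59e6764ae998942aaf5687f5b2ac563d1fa9d4263329643e4004a76308d (k8 i964 c401 c393 c56 c536 i182 i2595 i2634 (k8 i447 c30 c496 i216 i1802 i899 c37 i2031 (k8 c1414 c1371 i1989 i2522 i885 i886 i887 c564 (k4 i1673 i1105 i1831 i1681 (k2 i3118 i2042 k0))))) (by decide +kernel)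
def c1416 : PP 8 4 T 0x1002000000000080000000500000001840000080000000002000040004014880042 := rS 0xb7898a07281a2a612e834da1d3ed130abd527986a9d1a63 (k8 i447 i964 c496 c534 i972 c61 c503 c384 (k8 c479 i1187 i931 i1179 i923 c869 i2041 c388 (k4 i1863 i1936 c1415 c560 (k2 i1928 c440 k0)))) (by decide +kernel)
def c1417 : PP 8 4 T 0x1002000000000080000000500000000800000090000000002000040000014890042 := rS 0x102292d17506b76825a32900f89cf68b46900563d1f8254ea1 (k8 c30 c496 c56 i216 i1802 i899 c536 i964 (k8 i451 i2493 i746 i182 c1416 c50 c1282 c401 (k4 i1901 i1375 c533 c549 (k2 i187 i1809 (k1 i2031 k0))))) (by decide +kernel)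
def c1418 : PP 8 4 T 0x1002002000000080000000000000201840000000000000102110040010014880008 := rS 0x2e8d8b8349acfd0465b348e7d5a95cb2852d8818a272993d5aab88c5c0ac12e8c44a552117d3e87 (k8 i931 i1187 c489 c399 i2457 c590 i2676 i1844 (k8 c539 c1274 c504 c416 c37 c34 c19 c418 (k8 c54 c547 c1408 i705 i1503 c465 i1498 i727 (k8 i1501 i1529 i729 c197 c83 i2037 i1961 c63 (k4 i847 i2039 i1144 i1681 k0))))) (by decide +kernel)
def c1419 : PP 8 4 T 0x1002000000000080000000100000401840000000000000102111040010014880008 := rS 0x61d3d74ce62ae0d27e8232d8e7d5a95cb2e51027630f14c25c725327ab5562f888fc0aa7608b5120912954843b6897d3e87 (k8 i931 i1187 c489 i2797 i215 c399 i2457 c590 (k8 c56 i190 c556 c539 c496 c1274 i216 c416 (k8 i1080 c37 c34 c19 c418 i195 c869 i2034 (k8 c1418 c520 c393 c1411 c470 c465 i1498 i727 (k8 i1501 i1689 c197 c83 i2037 c63 i847 i1803 (k4 i1143 i1144 c501 i1944 (k1 c515 k0))))))) (by decide +kernel)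
def c1420 : PP 8 4 T 0x1001002000000000000000000500000401080404000000100102000000000004080000 := rS 0x4bd156c818916d33192993d5e5f (k8 c489 c503 c19 c418 c40 i3111 i1883 c744 (k4 c46 i2038 c62 i1901 (k1 c85 k0))) (by decide +kernel)
def c1421 : PP 8 4 T 0x1002000000000080000000500000001800000080000000102111040000014880008 := rS 0x16e262845a0d365f8a974f642 (k8 c399 c535 i1844 c36 c489 i1179 i923 c1420 (k4 c1419 c560 i1806 c492 k0)) (by decide +kernel)
def c1422 : PP 8 4 T 0x1002000000000080000000100000000800000090000000002000040000015010040 := rS 0x8a2f25920516897484022080566161e8480a45 (k8 c1363 c1274 c1402 i1802 c461 c1413 c1417 c815 (k8 c410 c399 i1844 i2797 i439 c1421 c1282 c840 (k2 c869 c517 k0))) (by decide +kernel)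
def c1423 : PP 8 4 T 0x1002002000000040000001800020010800100080404110002140000441104000000 := rS 0xcb5e41198852b88cfc7da1ae1566f30c461a2944a1d2297 (k8 i1373 c1282 i931 c26 i314 c534 c416 c384 (k8 c451 c37 c1386 c543 i1329 i1142 i312 c695 (k4 i1670 c1380 c346 i849 (k2 c434 i1413 k0)))) (by decide +kernel)
def c1424 : PP 8 4 T 0x1011002000000000040000011000800010815000000004010002160010455004080000 := rS 0x3159a230695190c765a8cff1735b0c4311 (k8 c416 i2497 c865 i1960 c504 i847 c223 c179 (k8 i336 c1383 c564 i464 i1538 i770 i1804 i2032 k0)) (by decide +kernel)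
def c1425 : PP 8 4 T 0x1002000000000040000000800000000800000080000000002100000040014890042 := rS 0x18ecd11b157e7e3eb0570bd42a9a24f135b0c4a952ea6d0eb5162245291502052e210f89cbe5921994c6352000cde6117c447a3f04c561b45 (k8 c76 c534 c36 c56 i216 i1802 c416 i1080 (k8 c384 c451 i1 c536 c601 i447 i2634 c563 (k8 i2595 i2611 i746 i182 i2497 i1373 i1335 c600 (k8 c1282 i314 c26 i822 i2598 i931 i1179 i1843 (k8 i2653 c1385 c865 i1960 c1423 c512 c449 c376 (k8 i1984 c1424 i1250 i1329 i1142 i1457 i1919 i312 (k2 i849 i337 (k1 i2032 k0)))))))) (by decide +kernel)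
def c1426 : PP 8 4 T 0x1000000000000040000000000000000000000080000000002000000400004000108 := rS 0x2245b15 (k4 c36 i2673 i190 c548 k0) (by decide +kernel)
def c1427 : PP 8 4 T 0x1002000000000000000000100000000800000090000000002000040000015010040 := rS 0x136d148a5d322c44a803eb331a34808b0010c06d3029161a6157825522b178587a12 (k8 c1402 i1802 c461 i1080 i899 c61 c56 c503 (k8 c384 c534 c1363 c1274 c1422 c1426 c563 c410 (k8 i1882 c399 i964 i447 c1425 i182 c600 c26 (k4 i822 c870 i1243 c1282 (k2 c479 i1179 (k1 i2041 k0)))))) (by decide +kernel)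
def c1428 : PP 8 4 T 0x1002000000000080000000800000000000000050000000002005040000014810042 := rS 0x5b89a08525d5b94619151cc6136d148a052e1f1397cc68b46900764f049bcc22b17a854e2d (k8 c556 c496 i821 i1080 i899 c384 c451 c56 (k8 c19 c527 c536 i964 i451 i447 i2611 i746 (k8 i182 i1373 i1335 c1282 c479 c364 c401 c559 (k8 c745 c379 c377 c541 i513 i187 i2031 c579 (k2 i775 c492 k0))))) (by decide +kernel)
def c1429 : PP 8 4 T 0x1002000000000080000000100000001840000000000000102111040010014880008 := rS 0x26cc2d1 (k4 c479 c384 c364 c1419 k0) (by decide +kernel)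
def c1430 : PP 8 4 T 0x1002000000000080000000900000001800000050000000002110040010014880048 := rS 0x10c5b455066213c49146f308ac5e3d1f82542812f9eca242 (k8 c399 i439 c535 c489 i1335 i821 c56 i216 (k8 i1802 i1080 i899 c384 c451 c1429 c744 i3089 (k4 i553 c579 c80 c1307 (k2 c379 c541 k0)))) (by decide +kernel)
def c1431 : PP 8 4 T 0x1002000000000080000000900000001800000050000000002100040000014880041 := rS 0x2dc4c500202974825f (k8 c489 c815 i1844 c1274 c410 c1430 c560 i1806 (k1 c492 k0)) (by decide +kernel)
def c1432 : PP 8 4 T 0x1002000000000080000000900000001800000010000000002000040000015010040 := rS 0xe130b702168500322204bed1279bcc27953804e63f048f42416 (k8 c461 c1402 i1802 c56 i216 c1427 c1428 c496 (k8 i972 c384 c451 c19 c479 c489 i1335 c1431 (k8 i220 i226 i227 c410 i1928 c1297 i266 i1936 k0))) (by decide +kernel)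
def c1433 : PP 8 4 T 0x1002000000000080000000900000000800000010000000002000040000015010040 := rS 0x302b411a96480042c3d1f8481273 (k8 c1427 c56 c1402 i216 i1802 c461 c1428 c1432 (k4 c1282 i1817 i1374 i267 (k2 i2797 c410 k0))) (by decide +kernel)
def c1434 : PP 8 4 T 0x1000000000000000000004000410000000100000000400042005000054054080000 := rS 0x2dc4d045d (k4 i1843 i2031 c579 i775 (k1 c492 k0)) (by decide +kernel)
def c1435 : PP 8 4 T 0x1000000000000080000001010010000800050000010000002060000001054800000 := rS 0x113262ec151a944311 (k8 c416 i2497 c198 c69 c539 c504 c1365 i2030 (k1 c1366 k0)) (by decide +kernel)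
def c1436 : PP 8 4 T 0x501000000000000000000020000000200004001000000200002000000000004000000 := rS 0xcd42d3d74ce (k4 i1143 i1144 c501 i1870 (k2 i3122 c398 k0)) (by decide +kernel)
def c1437 : PP 8 4 T 0x5001000000000000000000012000000010000000010000000002000000000004000000 := rS 0x12743 (k2 c580 i1368 (k1 c472 k0)) (by decide +kernel)
def c1438 : PP 8 4 T 0x1002000000000080000000500000001840000050004000002001040004014880002 := rS 0xd6cf339a48ee51995448c95aae4da5c898a16e7d862062a9d4c461369743a7da24f57ab5526f309e457118b8fd427f4aa9c6a8d3290c06592f87c8009 (k8 c56 c536 i182 i2611 i2595 i1 c563 i2634 (k8 i964 c601 c496 i1102 i846 i821 i216 c504 (k8 c416 i899 i972 c384 c451 c61 c34 c503 (k8 c19 c479 i1187 i931 c869 c868 c401 i2041 (k8 c393 c411 i1863 c379 c57 c541 c1434 c560 (k8 i187 i516 c1436 c1437 c1365 c1435 i766 c395 (k4 c475 i205 i1850 i450 (k2 c168 i1961 (k1 i2042 k0))))))))) (by decide +kernel)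
def c1439 : PP 8 4 T 0x1002000000000080000000500000000800000050000000002000040000014890042 := rS 0x102292d17506d05ba5a32900f89cc68b46900563d1f82542a7 (k8 c496 i821 c56 i216 i1802 i899 c536 i964 (k8 i451 i447 i746 i182 c1438 c50 c1282 i854 (k4 c401 i1375 c533 c549 (k2 i187 i1809 (k1 i2031 k0))))) (by decide +kernel)
def c1440 : PP 8 4 T 0x1002000000000080000000000000001880000000010000102090000000005080008 := rS 0x19a573588046471a1a4b21688974be872a96c4e6d4fa16247b (k8 c535 c744 c376 i1187 i556 i3089 i1883 i2457 (k8 i931 c489 i1844 c416 c461 c568 i1888 c1410 (k4 c1373 i246 i1117 i1961 (k2 i442 i729 (k1 i2039 k0))))) (by decide +kernel)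
def c1441 : PP 8 4 T 0x1002000000000080000000500000001800000050000000002000040010015080041 := rS 0x5239172331a991271486ad906818916d143144944f602210148a5327abc126f308bc2d171ea55822d51974825f (k8 c489 c815 i1844 c69 c556 c539 i1102 i1802 (k8 c504 c461 i1080 c384 c451 c56 c503 c19 (k8 c418 i226 c1274 c399 c410 c535 i439 i190 (k8 i2676 c1429 i1883 c744 c46 c579 i2038 c541 (k8 c379 c12 c1440 i2700 i1546 i1026 c510 i2033 (k1 c484 k0)))))) (by decide +kernel)
def c1442 : PP 8 4 T 0x1002000000000080000000500000001800000050000000002000040000015080041 := rS 0xc0a431c96a307b8989c505f3c858ba41 (k8 c815 i1844 c461 i972 c489 c1441 i48 c560 (k8 i1890 c500 c492 c559 i705 i266 i999 c410 k0)) (by decide +kernel)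
def c1443 : PP 8 4 T 0x1002000000000080000000100000000800000010000000002000040000015010040 := rS 0x4d00297d1a96481748201598582473 (k8 c1427 c1402 c461 c1433 c1439 c815 i1844 c1442 (k4 c1282 i1817 c477 i267 (k2 c840 c410 (k1 i2797 k0)))) (by decide +kernel)
def c1444 : PP 8 4 T 0x1002000000000040000000900000000140000050004000002021040000014890004 := rS 0x881ca6e30a6688a5225d4b9849e2b178fcf65f13a04a2b78607c12a1 (k8 i821 c56 i182 c600 c541 c377 c2 i746 (k8 i2611 i2493 i216 i1080 i899 c19 c384 i1373 (k8 i513 c1282 i187 c479 c1434 c401 c364 c559 (k2 c1393 i282 k0)))) (by decide +kernel)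
def c1445 : PP 8 4 T 0x4001000000000000000000000000000000000000000010000002060000000804000000 := rS 0x19056 (k2 i185 c1366 (k1 c400 k0)) (by decide +kernel)
def c1446 : PP 8 4 T 0x101000000000000000000001000050000000050000000000002000000001554000000 := rS 0x182a5 (k2 c198 c224 (k1 i2030 k0)) (by decide +kernel)
def c1447 : PP 8 4 T 0x1002000000000040000000500010011800040010000000002000040000014890042 := rS 0x359a592cf3395460e5198919ab55c9b5465c89a222a284c29d3a9b4bc610e9f689849eaf549e4562f888f47e3546a2cc6592f89c42813eade181f0488c8603329022e0f (k8 c1360 c504 c536 i2634 i1 c563 c1445 c56 (k8 i182 c600 c541 c57 c2 i2497 i746 i2611 (k8 i2595 i447 i451 i964 c601 i216 i1802 c416 (k8 i1080 i899 i972 c61 c503 c19 c384 c479 (k8 i1187 i931 c401 c869 c868 c393 c1396 i2041 (k8 c1434 c411 c870 c560 i187 i281 i516 c1436 (k8 c1437 i1969 c1446 c395 c475 i861 i764 i450 (k4 c168 c431 i1850 c881 (k1 i2042 k0))))))))) (by decide +kernel)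
def c1448 : PP 8 4 T 0x1002000000000040000000100000000800000050000000002000040000014890042 := rS 0x141754ed04b46520b35ba06181f1397cc68b46900064f158bc7a3f04a84fe95 (k8 i1102 i846 i821 c56 i216 i1802 i1080 i899 (k8 c19 i1 c536 i964 i451 i447 i2611 i746 (k8 i182 c600 c2 c541 c1444 c1447 c50 c1282 (k4 c401 i1898 c533 c1434 (k1 i187 k0))))) (by decide +kernel)
def c1449 : PP 8 4 T 0x1000000000000000000000000000001000005000000000002000000000004080005 := rS 0x89c645038220108641 (k8 c815 c563 c410 c399 i266 i226 c559 c560 (k1 c500 k0)) (by decide +kernel)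
def c1450 : PP 8 4 T 0x1002000000000040000000900000001000000050000000002000040000014880041 := rS 0x862d852838916c4ea64c8e45a8921009367b45a052e3b2fb44de613c8bc7a3f04a84ba41 (k8 c815 i1844 i821 c56 i216 i1802 i1080 i972 (k8 c384 c451 c479 c489 i1155 i1374 i1335 c1329 (k8 c570 c364 c1449 i999 i190 i1001 i195 c870 (k8 i2034 i1915 i705 c492 c579 c560 c1294 c716 (k1 c541 k0))))) (by decide +kernel)
def c1451 : PP 8 4 T 0x1002000000000040000000900000000000000050000000002000040000014880041 := rS 0x605682352c90 (k4 c1450 c1282 i1817 i1374 (k2 i267 i2797 (k1 c410 k0))) (by decide +kernel)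
def c1452 : PP 8 4 T 0x1000000000000000000000000000001000001000000000002000000000004080005 := rS 0xf48b (k2 i1882 c1449 (k1 c570 k0)) (by decide +kernel)
def c1453 : PP 8 4 T 0x1002000000000000000000500810000000000000000500102080000010014000000 := rS 0x105125b96e18274094c9eaf (k8 c503 c19 c418 i1860 i1915 c716 i705 c541 (k2 c492 i2038 (k1 c579 k0))) (by decide +kernel)
def c1454 : PP 8 4 T 0x1000000000000010000000000400140050000000001000002005440500004000008 := rS 0x729b (k2 c364 i195 (k1 i2034 k0)) (by decide +kernel)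
def c1455 : PP 8 4 T 0x4011000000000000000000010000050014010000000000000002000005100114800000 := rS 0xa4723046a2f (k4 i1080 i1117 c311 c510 (k2 i2033 c484 k0)) (by decide +kernel)
def c1456 : PP 8 4 T 0x1000000000000000000000000000000005000001500551002100000004204000000 := rS 0x19a57 (k2 i1498 i729 (k1 i2039 k0)) (by decide +kernel)
def c1457 : PP 8 4 T 0x4111002000000000000000000000050000085000001010401002110001000014880048 := rS 0x14a0d723046a21358cd9647349655aab04974a25b3d9084e0f (k8 c1360 i3089 i999 c535 i1883 i439 i1844 c56 (k8 c37 c34 c568 i1888 c1373 c197 i192 i1961 (k4 c1456 i1117 c311 c510 (k2 c4 c484 (k1 c1145 k0))))) (by decide +kernel)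
def c1458 : PP 8 4 T 0x1002000000000000000000500010015880040000000000002110000000014880048 := rS 0x215c8cc6a6451c356c8342a04db122d94cc24f57c462e5d2fa7d0e05448245a313d944aa42 (k8 i999 i2457 i439 c535 i2676 i1001 c56 i190 (k8 i24 i931 i1187 c489 i1844 c504 c416 c503 (k8 c19 c384 c418 i1883 c744 i556 c46 c376 (k8 c579 i2038 c541 c316 c1457 i2700 i1546 i1026 (k2 i726 c1455 k0))))) (by decide +kernel)
def c1459 : PP 8 4 T 0x1002000000000040000000500010011800040000000000002000040000015080041 := rS 0x8996c50275322d2e938a264a22d4491484021d97da2613c8bc2c3d1f824ba41 (k8 c815 i1844 c56 i216 i1802 c461 i1080 i972 (k8 c384 c479 c489 i1155 c1452 i999 i220 i190 (k8 i1001 i439 c870 c548 c12 c571 c1458 c1454 (k4 i1915 c1453 i705 c560 (k1 c492 k0))))) (by decide +kernel)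
def c1460 : PP 8 4 T 0x1002000000000000000000100000000800000010000000002000040000015010040 := rS 0x1815108d16c552c9059805a6953fa84e63d090245e16 (k8 c461 i1080 c56 c1402 i1802 c1427 i821 i846 (k8 i1102 c1443 c1448 c1451 c1459 c1282 c571 i1243 (k4 i1817 c548 i267 i190 (k1 c410 k0)))) (by decide +kernel)
def c1461 : PP 8 4 T 0x101002000000000000000000000000010400040180014000002000000000004000000 := rS 0x6749b2e2c6156aad52c92cc356ab9 (k8 i1141 i884 c534 c507 c459 c61 c37 c34 (k4 c384 c1171 c179 c436 (k2 c486 i2040 k0))) (by decide +kernel)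
def c1462 : PP 8 4 T 0xa01000000000000000050000000005001400005100000000002000150055104000000 := rS 0x184ce6688d0e85 (k4 c376 c32 c454 c555 (k2 c1146 i2032 (k1 c729 k0))) (by decide +kernel)
def c1463 : PP 8 4 T 0x801000000000000000000000000005001400005100000000002020050000204000000 := rS 0x19ecd19b950e85 (k4 c376 c32 c470 c1142 (k2 i2499 c168 (k1 c1146 k0))) (by decide +kernel)
def c1464 : PP 8 4 T 0x801000000000000000050000000000001540000100000100002020440004004840000 := rS 0x661145a2221429e456251a9ec529d4f8e630d1 (k8 c479 c401 c559 c39 c393 i186 i2493 i1116 (k8 i860 i899 i972 c376 c1463 c1462 c1171 c1286 (k2 c1288 c486 k0))) (by decide +kernel)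
def c1465 : PP 8 4 T 0x101000000000000000050000000005000400000000000000002000140010104800002 := rS 0x62cf19b0c4516128d4ea3b (k8 c527 c574 i1116 i860 c1171 c1286 c865 c389 (k2 c420 i1571 (k1 i2035 k0))) (by decide +kernel)
def c1466 : PP 8 4 T 0x401000000000000000050000000005001404000000000000002000140014104800002 := rS 0x2342c40f640 (k4 c536 i2493 c1465 c6 (k2 c454 c1287 k0)) (by decide +kernel)
def c1467 : PP 8 4 T 0x401000000000000000050000000005001404000000000000002000140014004800002 := rS 0x33d9a8519b9440791a9d4f640 (k8 c536 i2493 c574 i1116 i972 c1466 c470 c1142 (k4 i1504 i2499 c168 c1146 k0)) (by decide +kernel)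
def c1468 : PP 8 4 T 0x1002000000000080000000100000000400000080000000002000040000014850042 := rS 0x4aa4ccecb32af57c7e2a1b19a862d44c729f4ead8bb1841b4522814bac87ec5638a5e06157ab556a915b2572751da3516632f89c3e40048f54ea1 (k8 c30 c496 c476 c56 c536 i182 i746 i2611 (k8 i447 i451 i964 c527 c574 i1141 c459 i899 (k8 c61 c37 c34 c503 c384 c1167 i186 c20 (k8 c547 c494 c1160 i1373 i1335 c1282 c479 i923 (k8 c401 i514 i2031 c393 c39 c559 c1464 c492 (k8 c1467 i153 i778 i777 i856 i857 i1988 i1700 (k4 i674 c1155 c1162 i1725 (k1 i2040 k0)))))))) (by decide +kernel)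
def c1469 : PP 8 4 T 0x101002000000000000000000000004011445041180004000002000000011104080000 := rS 0xcc2a1ad26cf3232d871630ab556a92cc356ab9 (k8 i1141 i884 c534 c507 c61 c37 c34 c384 (k8 c1171 c865 c179 c1461 c420 c436 i1960 c1188 (k2 c1315 i770 k0))) (by decide +kernel)
def c1470 : PP 8 4 T 0x201000000000000080000000000005001405045180000000002000050001154000000 := rS 0x19b3948e56688cfab55ca8582a3 (k8 c69 c539 c30 i1141 i884 c433 c454 c555 (k4 c246 i2030 c1146 i289 (k1 c168 k0))) (by decide +kernel)
def c1471 : PP 8 4 T 0x1002000000000080000000000005001445045180004000002000050011154080000 := rS 0xfb434a4461ab5 (k4 i884 c534 c1470 c1469 (k2 c66 i1597 (k1 c602 k0))) (by decide +kernel)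
def c1472 : PP 8 4 T 0x400000000000001002000000000000000000000005015405005180404004002000000000004000000 := rS 0x195042ac4598cf8b1855aab549662ab9 (k8 i1141 c36 c507 c61 c37 c34 c384 c472 (k4 c420 c1146 c555 i770 (k2 c346 c1188 (k1 c434 k0)))) (by decide +kernel)
def c1473 : PP 8 4 T 0x101000000000000000000000000005001405000000400004002000140010504880002 := rS 0x8d04633318acf72458f259129d4f640 (k8 c536 i2493 c574 i860 c507 i972 c1171 c392 (k4 c420 c41 c1146 c1465 (k2 c346 i218 (k1 c425 k0)))) (by decide +kernel)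
def c1474 : PP 8 4 T 0x801002000000000080000008800000001440000080004000002000040000014880002 := rS 0x17ace66c41286b1195d7e93a19f8428543aacf2251a9d4f61f04a8d3a9f1cc61a28d149750640 (k8 c536 i923 i514 i187 i964 c479 c401 c559 (k8 c39 c393 c69 c56 i182 i2493 c574 i1116 (k8 i860 i972 c37 c32 c376 c1463 c1471 c16 (k8 c1162 i1723 i1665 i1663 i634 c1472 c1473 c555 (k2 c1146 i1988 (k1 i1105 k0)))))) (by decide +kernel)
def c1475 : PP 8 4 T 0x1002000000000080000000800000001440000080004000002000040004014880002 := rS 0x4aa4ccecb32af57c7e2a1b19a8662b1de05a89ad8525d409849ead55aa456c95c97c3e401ea9d423f04a0d3a9f1cc61a28d (k8 i964 c479 c401 c559 c39 c393 i923 c56 (k8 i216 c30 c496 c476 c536 i182 i2611 i1141 (k8 c459 i899 c61 c37 c34 c19 c384 i1335 (k8 i514 i187 c1434 c1474 c492 c512 c20 c547 (k8 c1467 i153 i778 i777 i856 i857 i1988 i1700 (k4 i674 c1155 c1162 i1725 (k1 i2040 k0))))))) (by decide +kernel)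
def c1476 : PP 8 4 T 0x1000000000000000000000000005211405085180000000002000000000004000000 := rS 0x66b3d7b168aae68693 (k8 c1162 c16 i1141 c36 c472 i1991 c420 i849 (k1 c1146 k0)) (by decide +kernel)
def c1477 : PP 8 4 T 0x101000000000000000000000000005001405000000000004002000140010504880002 := rS 0x1a98625 (k4 i860 c865 c1473 i1960 k0) (by decide +kernel)
def c1478 : PP 8 4 T 0x801002000000000080000008000000201440000080004000002000040010014880002 := rS 0x2f59ccd8825046573f0850a87559e44a353a9ec3e4004a8d3a9f1cc61a28d (k8 i964 c479 c401 c559 c39 c393 c69 c56 (k8 c536 i182 i2493 c574 i1116 i860 i972 c37 (k8 c32 c376 c1463 c1471 i1665 i1663 c1476 c1477 (k4 c555 c1146 i1988 i1105 k0)))) (by decide +kernel)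
def c1479 : PP 8 4 T 0x1002000000000080000000000000201440000080004000002000040014014880002 := rS 0x12a9333b2ccabe3f150d88662b1de05a89ad8ba6127ab556a915b25725f0f9007aa7508fc129d4f8e630d146acd0279 (k8 i972 i1863 c1475 i964 c479 c401 c559 c39 (k8 c393 c56 i216 c30 c496 c476 c536 i182 (k8 i2611 i1141 c459 i899 c61 c37 c34 c19 (k8 c384 i1843 c1434 c1478 c492 c512 c20 c547 (k8 c1467 i778 i777 i856 i857 i1700 i673 c1155 (k2 c1162 i1725 (k1 i2040 k0))))))) (by decide +kernel)
def c1480 : PP 8 4 T 0x1002000000000080000000100000001440000080004000002000040004014880002 := rS 0x5bc4c5081a2a61669741a6da26157aa4f30d4687c8009 (k8 c56 c536 i182 i964 c534 i972 c61 c503 (k8 c384 c479 i1179 i923 c869 c1475 i2041 c388 (k4 i1863 c1479 c560 i1929 (k1 c440 k0)))) (by decide +kernel)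
def c1481 : PP 8 4 T 0x1002000000000080000000100000000400000080000000002000040000014810042 := rS 0x8114968bab76825a32901f84942a71e93c568d4598cf65f1387c8009 (k8 c56 c536 i182 i746 i2611 i2493 i447 i451 (k8 i964 i899 c19 c476 c496 c30 c1468 i216 (k8 c1480 c50 c1282 c401 i1901 c533 c549 i187 (k2 i1809 c1434 k0)))) (by decide +kernel)
def c1482 : PP 8 4 T 0x1000000000000001002000000000000000000000000101400500080004100002000040010004850002 := rS 0x1269533b2ccabd3f2eca86ca7b34b4b64344d8ac7781855aab54b261ab93a8ecbe27202753e398c3451a8b (k8 i451 i964 c479 c401 c559 c39 c393 c536 (k8 i746 i2611 c527 c574 i1141 c534 c459 c61 (k8 c37 c34 c384 c1167 c20 c547 c1464 c1467 (k8 c440 c492 i153 c67 i778 i777 i1684 i856 (k4 i1988 i1700 i674 c1155 (k2 c762 c1162 (k1 i2040 k0))))))) (by decide +kernel)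
def c1483 : PP 8 4 T 0x1000000000000801002000000000040000000000005011440045180004000002005150455104080000 := rS 0xa778b1946c58bb399b108aae50e85 (k8 c376 c32 i1141 c36 c1469 c555 c1146 c420 (k4 i1794 c223 c1462 c20 (k2 i336 c449 k0))) (by decide +kernel)
def c1484 : PP 8 4 T 0x1000000000000801002000000000040000000000005001440045180004000002005150655104080000 := rS 0x19910679f6869486ad50e85 (k8 c376 c32 i884 c534 c1483 c66 i1597 i2654 (k2 c602 c1146 (k1 c555 k0))) (by decide +kernel)
def c1485 : PP 8 4 T 0x801002000000000040000000800000001440000080004000002004040614004880002 := rS 0x67b3529103588caebf49d0cfc2142a1d5679158946a753d87c80094ea7c731868a368a3d (k8 c1168 c76 i964 c479 c401 c559 c39 c393 (k8 c56 c536 i182 i2493 c574 i1116 i860 i899 (k8 i972 c37 c32 c376 c1463 c1484 c16 c1162 (k8 i1723 i1665 i1664 i634 c1477 c1472 c555 i2654 (k1 c1146 k0))))) (by decide +kernel)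
def c1486 : PP 8 4 T 0x1002000000000040000000100020001400000080004000002000040400004810002 := rS 0x24d2a67659957a7e5d950d94f66a198ac7781696d13090a4ba81a28e53e9d594612e9b689855ead55aa5930d5ca35165f13901063f158b13289 (k8 c26 c870 i822 i899 i402 i919 c536 i746 (k8 i2611 i451 i964 i1141 c534 c459 c61 c37 (k8 c34 c503 c384 c479 i1179 c869 c401 i2041 (k8 c393 c39 c559 c76 i1335 i514 i314 c1482 (k8 c1485 c440 c492 c512 c20 c547 c1467 i153 (k8 c67 i778 i777 i1684 i856 i1988 i1700 i674 (k4 c1155 c762 c1162 i2040 k0))))))) (by decide +kernel)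
def c1487 : PP 8 4 T 0x1000000000000000000000000000000000000000000000002002000000004010040 := rS 0x26f1 (k2 c11 i1802 (k1 c1167 k0)) (by decide +kernel)
def c1488 : PP 8 4 T 0x1002000000000000000000100000001400000080000000002000040000014810042 := rS 0x5034e1a2f3187c8009 (k8 c56 c536 i182 i447 i1080 c534 c1481 c600 (k1 c1486 k0)) (by decide +kernel)
def c1489 : PP 8 4 T 0x1000000000000002000000000000000000000000000000002020000020004000000 := rS 0x18422 (k2 i1969 i1968 (k1 i2057 k0)) (by decide +kernel)
def c1490 : PP 8 4 T 0x20101000000000000001050000000000000400000000000000002000040000104800002 := rS 0xc59e33114584a751da753e39 (k8 c559 c39 c393 c527 c574 i860 c1171 c1286 (k4 c389 c420 i1571 c1075 k0)) (by decide +kernel)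
def c1491 : PP 8 4 T 0x201002000000000001000000000005001404055100000200102000150000004080000 := rS 0x1a9874f82b38d2575aa14a64f56aacb26d (k8 i516 c507 c37 c34 c19 c418 c6 c463 (k8 c64 i1849 c1146 c664 c501 c729 c550 i1960 k0)) (by decide +kernel)
def c1492 : PP 8 4 T 0x20001002000000000001040000000000001404050000000200102000040000004880002 := rS 0x10acf1045a22791a9d4f6404ea7c72c5 (k8 i3072 c559 c39 c393 c536 i2493 c574 i1116 (k4 i972 c1491 c1171 c1490 (k2 c420 i1503 (k1 c1146 k0)))) (by decide +kernel)
def c1493 : PP 8 4 T 0x400000000000020001002000000000001041000000050000400050000100200102000040000514880002 := rS 0xd447829b548575ac40a64f56aacb2250f90012c5 (k8 i3072 c56 c536 i182 i860 c507 c37 c34 (k8 c19 c418 c1490 c463 c64 i2030 i515 c664 (k2 i208 c550 (k1 i1961 k0)))) (by decide +kernel)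
def c1494 : PP 8 4 T 0x1002000000000080000000100000001000000010000000002000040000015010042 := rS 0xd705368316a571008cd34f433358e5c142dcfa513fa0618988aacd462d60a9c7a5327abd5aab549bcf22b1796476632f89c3e404ba6cc2398c3451a8b508fc2473479142c09 (k8 c56 c461 c569 c1460 c1488 c1398 i216 i821 (k8 i451 i964 c479 c401 c559 c384 c364 c869 (k8 c536 i182 i746 i2611 i447 c527 c507 i1080 (k8 i899 i972 c451 c61 c37 c34 c503 c19 (k8 c418 c1487 c496 c539 c556 c69 c1428 c745 (k8 i2041 c379 i1863 c408 c377 c57 c541 c1434 (k8 i187 i2060 c1489 c1492 c67 i1564 i1703 c1493 (k4 i1498 i2498 i744 i515 (k2 c664 i467 (k1 c550 k0)))))))))) (by decide +kernel)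
def c1495 : PP 8 4 T 0x400000000000021001002000000000001040010000410000420050000100200102000040000514880002 := rS 0x28984c13524e0a6d3395d6b102993d5aab64964eac5 (k8 i3072 c574 c507 c459 c37 c34 c19 c418 (k8 c1490 c463 c64 c1180 i515 c664 c1012 c550 (k4 i1344 i1960 c1493 i328 k0))) (by decide +kernel)
def c1496 : PP 8 4 T 0x1002000000000000000000100000001000000010000000002000040000015010042 := rS 0x35c14da0c5a95c40b95d88cd34f433358e5c4445450a74c2dcfa513fa05670c698fc24a139a6e3097688f4a66127abd5aab548ac5e594780c8a8d4598cbe161387c8009 (k8 c56 c536 i182 i746 c461 i2611 i447 i451 (k8 i964 c569 i1 c1460 c507 i1080 i899 c61 (k8 c37 c34 c503 c19 c384 c418 c1487 c479 (k8 c869 c401 c364 c1488 i821 c1398 i216 c1494 (k8 c600 c1444 c2 c408 c377 c57 c541 i2041 (k8 c1396 c1434 c411 c870 i187 i2060 c1489 c1492 (k8 c67 i1564 i1703 i1683 i1144 c1495 i1498 i2498 (k4 i744 i515 c664 i467 (k1 c550 k0))))))))) (by decide +kernel)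
def c1497 : PP 8 4 T 0x1002000000000000000000100000000000000010000000002000040000015010042 := rS 0x204521250968bab3538fc5ab76825a32900f89cbe7b31a2d1a401d8f49eaf048ac5e16 (k8 c461 i1080 i899 c56 c503 c19 c1487 c527 (k8 c536 i964 i451 i447 i2493 i2611 i746 i182 (k8 c1496 c50 c1282 c401 i1901 i1243 i1372 i1898 (k8 i1373 c533 c549 i822 c1160 i187 i1809 c1434 k0)))) (by decide +kernel)
def c1498 : PP 8 4 T 0x20101000002000000000004000000000000400000100000000002000050000804000000 := rS 0x19e3318c5876c762a753e39 (k8 c559 c39 c393 c547 c20 c443 c1171 i1571 (k2 c389 c420 (k1 i2035 k0))) (by decide +kernel)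
def c1499 : PP 8 4 T 0x20101000002000000000000000000000000400000000000000002010040010104800000 := rS 0x23034aa741130cb2251a8ed8ec54ea7c720f (k8 c1360 c559 c39 c393 c547 c20 c443 i1116 (k8 i860 c507 c865 c1286 c1498 c589 c816 c805 (k1 c1373 k0))) (by decide +kernel)
def c1500 : PP 8 4 T 0x20001000002000000080000000000000001404040080000000002010040010154800000 := rS 0x10a75881e44a353d89d3a9f (k8 c39 c393 c54 i713 i1116 i860 i972 c1499 (k2 c368 c6 (k1 c1470 k0))) (by decide +kernel)
def c1501 : PP 8 4 T 0x20001000002000000080000008000000001400040080000000002010040010055000000 := rS 0x3319e853a8cdca20439e46a7b138593a9f (k8 c39 c393 c461 c54 i713 i1116 i972 i856 (k8 c1500 c470 c1142 i1500 i1504 c168 c1146 i729 k0)) (by decide +kernel)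
def c1502 : PP 8 4 T 0x20001000000000000001050000000000001405005100000000002000050055504000000 := rS 0xc2672753e39 (k4 c559 c39 c393 c1146 (k2 i2032 c729 k0)) (by decide +kernel)
def c1503 : PP 8 4 T 0x20001002002000000000001008000040001401000100000100002010040010504840040 := rS 0x52b2d7c6c4311c1a032210cb4bd89b3620ad55824f22b128d58ec51f9ec4e5f4ea7c720f (k8 c1360 c559 c39 c393 c489 c54 i713 c494 (k8 c547 c20 i1116 i860 i899 i972 c56 c37 (k8 c34 c1499 c555 c1462 i1988 c492 i706 c399 (k8 i999 c352 c720 c1502 i778 i857 i674 i1451 (k1 c1145 k0))))) (by decide +kernel)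
def c1504 : PP 8 4 T 0x20001002002000000000000000000010001400100080000100002011040010055040040 := rS 0xd8291ca8432d44d0ccf668cdca2011a14ea7e51b05a4b637984f22b1a8fcf6270b17d069d4fa9e1a0f (k8 c1360 c534 c716 c39 c393 i923 c489 c461 (k8 c54 i713 c494 i1116 i899 i972 c384 c451 (k8 i2031 c600 c539 c69 c1501 i1668 i1670 i1664 (k8 c1503 c470 c1142 i729 c168 c1146 c32 c492 (k4 i706 i777 i1530 c49 (k2 i1490 c77 k0)))))) (by decide +kernel)
def c1505 : PP 8 4 T 0x1000000000020001002002000000000000000000010001400100080000100002010040010194840040 := rS 0xb651c4c46853ac418279158946ac7629ec4f0d41a753e39 (k8 c559 c39 c393 i923 c534 c54 i713 c547 (k8 c20 i1116 i860 i899 i972 c311 c1499 c368 (k4 c6 c454 c1462 i240 (k2 c440 c1503 k0)))) (by decide +kernel)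
def c1506 : PP 8 4 T 0x20001002000000000000000000100010001400000080000000002010040010015050040 := rS 0xd8291ca8432d44d0ccf66a14ea33728803c5d40d1564a71eabc12791a8fcf62778058bf0d41a753e0f (k8 c1360 c39 c393 i923 c534 c489 c461 c1167 (k8 c54 i713 c494 i1116 i972 c56 c503 c1487 (k8 c716 c1160 c76 i1335 i514 c1504 c1505 c470 (k8 c1142 i1500 i1504 i729 c168 c1146 c32 c492 (k4 i706 i777 i1530 c49 (k2 i1490 c77 k0)))))) (by decide +kernel)
def c1507 : PP 8 4 T 0x1000000000000000000000000020000000000000000000002010000000004000000 := rS 0x8a43 (k2 c457 c1156 (k1 c399 k0)) (by decide +kernel)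
def c1508 : PP 8 4 T 0x401002000000000080000000800010440000100050000400002005540454054040020 := rS 0x411696e5d861462a2d5393cde61 (k8 c384 c451 c19 c496 c556 c745 c727 c379 (k4 i513 c541 c492 i2031 (k1 i775 k0))) (by decide +kernel)
def c1509 : PP 8 4 T 0x401002000000000000000001900010441001110050000014002201140011054850024 := rS 0xa741a20b45d82adca27f8634ca64f56aac562f1db1d8a3f3d89de05f0690c8e0f (k8 c1360 c720 i41 c352 c489 c1167 c54 i713 (k8 c494 c547 c20 c443 i1080 i899 c37 c34 (k8 c19 c418 c1508 c600 c408 c377 c541 c664 (k4 i513 c848 c1393 i775 (k2 i282 i2031 k0))))) (by decide +kernel)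
def c1510 : PP 8 4 T 0x1002000000000010000000500000040140000000000000002000040000004040060 := rS 0x13263162bc12a94d9847318 (k8 c401 c559 c384 c364 c61 c56 c503 c1207 (k2 i1237 i980 (k1 i2041 k0))) (by decide +kernel)
def c1511 : PP 8 4 T 0x20001002000000000000000000900000441400000050000000002211040010154850024 := rS 0x44caeb5429f62079159644a3550b1d8a7b13bc13a9f1c9d48e0d21a04be0f (k8 c1360 c489 i1335 i41 c352 c720 c805 c559 (k8 c39 c393 c1167 c54 i713 c547 c20 c1507 (k8 i1116 i860 c507 i899 i972 c1499 c433 c6 (k4 c463 c64 c1462 c1509 k0)))) (by decide +kernel)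
def c1512 : PP 8 4 T 0x20001002000000000000000000900000441400000050000000002211040010054850024 := rS 0x868933cae7d66ad50a3372880f259128d5427b13bc13a9f1c9d48e0d21a04be0f (k8 c1360 c489 i1335 i41 c352 c720 c805 c559 (k8 c39 c393 c1167 c54 i713 c1507 i1116 i860 (k8 c507 i972 c1511 c470 c1142 i1504 i727 i729 (k4 i1502 i1497 c168 c1509 (k2 c1146 c32 k0))))) (by decide +kernel)
def c1513 : PP 8 4 T 0x1002000000000000000000100000001140000010000000002000040010015050040 := rS 0x114538b61a1e590100644398e6303d37a3d4241008ec7ef04b8245e1654a6cc2d1 (k8 c479 c384 c364 c61 c461 i1080 c56 c1309 (k8 c1167 c494 c443 c1497 c815 c1507 c1460 c451 (k8 c1487 c401 c559 c1506 c1398 i220 c410 c1510 (k4 c1512 c452 i1303 i242 (k2 c379 c745 k0))))) (by decide +kernel)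
def c1514 : PP 8 4 T 0x801000002000000000000000000005001400000100000000002000140010104800000 := rS 0x678cc63161130e2279158946a3b63b14f627 (k8 c54 i713 c547 c20 c443 i1116 i860 i899 (k8 i972 c1462 c865 c1286 c1171 i1571 c389 c420 (k1 i2035 k0))) (by decide +kernel)
def c1515 : PP 8 4 T 0x801000002000000000000000000004001400000100000000002000140010104800000 := rS 0x228833587174e0ac4ac713b150e85 (k8 c376 c32 c547 c54 c20 i860 i899 c1514 (k4 c552 i1905 i1910 c1171 (k2 i2032 c454 k0))) (by decide +kernel)
def c1516 : PP 8 4 T 0x1000000000000000000000000000000000000200000010002010000000004800000 := rS 0x4606956220f (k4 c1360 c368 c589 c816 (k2 c805 c1373 k0)) (by decide +kernel)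
def c1517 : PP 8 4 T 0x20001000002000000000000000000000001400000000000100002410140010104801000 := rS 0x62c3678cdc91633c14ca5436218b4cd11a1627103c8ad92251a9d4b23b63b14f6272fa753e0f (k8 c1360 c39 c393 c489 c54 i713 c547 c20 (k8 c443 c507 c1516 i1116 i860 c459 i899 i972 (k8 c1499 c1515 c6 c454 c555 c492 c1502 i778 (k8 i777 i1699 c49 c1155 c532 c77 c389 c420 (k2 c444 c450 (k1 i2035 k0)))))) (by decide +kernel)
def c1518 : PP 8 4 T 0x20001002000000000000000000100000001200000010000000002000040010015050040 := rS 0x44cb6862ab3e08cd428cdca202380c1a43221cd3e9d1aa84ea41009651e7b13bc0be392e9e42c0f (k8 c1360 c461 i972 i1845 i1813 c489 c1167 c54 (k8 i713 c1460 c507 c1497 c815 c1516 c1507 i1116 (k8 c393 c39 c1506 c1398 i41 c352 i220 c720 (k8 c1517 c470 c1142 i1504 i729 c77 c168 c49 (k4 c1146 i777 c32 c492 k0))))) (by decide +kernel)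
def c1519 : PP 8 4 T 0x1002000000000010040001000008200244000100000010002010000000004040040 := rS 0x2290c1850659fd467d2a91caf0535af9286c3233ca64f56aac120f (k8 c1360 c56 c37 c34 c19 c418 i156 c187 (k8 c275 i1112 i1113 i1964 c75 i1579 i1696 i1697 (k8 i1597 i1719 i1723 i1454 i2037 c1177 i439 i481 (k1 c399 k0)))) (by decide +kernel)
def c1520 : PP 8 4 T 0x801000002000000000000000000004001400000100000000002000140010004800000 := rS 0x63174e33d9a3372880f2353d89d0e85 (k8 c376 c32 c54 i713 i1116 i972 c1515 c470 (k4 c1142 i729 c168 c1146 (k2 c552 i1512 (k1 c510 k0)))) (by decide +kernel)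
def c1521 : PP 8 4 T 0x2000000000000001000000000000000000000100000000000000000000000002000000000004050140 := rS 0xb3 (k2 c76 c1211 k0) (by decide +kernel)
def c1522 : PP 8 4 T 0x1002000000000000000000100000001040000010000000002000040010015050040 := rS 0x5eafe86b63f1cd2b144cad4fb1066954af0535aecd893322e69ecf4f20d028789464728c4d9bcc2793a904025947b1cf627785152ed1048bc2ca9 (k8 c61 c461 i1080 c56 c479 c1309 c1521 c1167 (k8 c54 i713 c20 c1460 c507 c1497 c815 c1516 (k8 i972 c384 c451 c364 c1513 i1813 c1518 c500 (k8 c32 c46 c579 c1520 i156 c529 i2710 c187 (k8 i1718 c275 i1686 i1964 c75 i1579 i1697 c346 (k8 c83 c433 c463 c1519 c85 c386 c36 c1138 (k4 i2045 c16 i1723 i1988 (k1 c485 k0)))))))) (by decide +kernel)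
def c1523 : PP 8 4 T 0x1000000000010001000000000000000000000000000141000000080000000002000000000004000000 := rS 0x13715 (k2 c36 i1179 (k1 c85 k0)) (by decide +kernel)
def c1524 : PP 8 4 T 0x1002000000000000000000100000001000000010000000002000040010015050040 := rS 0x862d94c5159910e65d41a0533122dc65143d2993d5e6f30a8482011f9ec4ef0a297d2ed1048bc2ca9 (k8 c61 c461 i1080 c56 c479 c1309 c489 c1521 (k8 c1167 c54 i713 c494 c1497 c815 c1507 c384 (k8 c451 c503 c19 c418 c1487 c1522 c40 i1883 (k8 c744 i1938 c46 c579 c65 c1523 c1398 c1331 (k4 c743 c1160 i2038 c716 (k1 c541 k0)))))) (by decide +kernel)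
def c1525 : PP 8 4 T 0x1002000000000000000000100000001000000010000000002000040000015050040 := rS 0x4322970b6282f8248201 (k8 c1497 c815 c56 c489 c1524 i1805 c874 c768 (k2 i443 c399 k0)) (by decide +kernel)
def c1526 : PP 8 4 T 0x1002000000000000000000100000000000000010000000002000040000015050040 := rS 0x605682592009548bc2c01 (k8 c1497 c461 i1080 c61 c56 c1525 c1282 c1309 (k2 c1141 i1161 (k1 c410 k0))) (by decide +kernel)
def c1527 : PP 8 4 T 0x20901000000000000000040000000000001400004100000000002000140010104880000 := rS 0x3958b4f6633e2cc33c894769d43a15e29f (k8 c39 c1520 c376 c32 c393 i1155 i860 i972 (k8 c865 c1171 c420 c1146 c491 i3055 c1204 c515 k0)) (by decide +kernel)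
def c1528 : PP 8 4 T 0x20801002000000000000040000000000001440004180000000102000140014104880000 := rS 0xce62440a64f56aacf22b128d53a9f8aad57287 (k8 c32 i1141 i884 c36 c39 c393 i1116 i860 (k8 i899 i972 c37 c34 c19 c418 c1527 c1462 (k2 c1183 i1794 k0))) (by decide +kernel)
def c1529 : PP 8 4 T 0x20001002000000000000000000000000001540000080000000102090140014104880000 := rS 0x8b338cb10829b08cc643c48b67964974be7b4f99d724f56c556aab3a964a655 (k8 i703 c418 c507 c1516 c37 i884 c36 c34 (k8 c19 i1141 c1180 c39 c535 c489 i1844 c459 (k8 i972 i705 c492 c32 c1528 i218 i219 c425 (k4 c1373 i1700 c1183 c532 (k1 c420 k0))))) (by decide +kernel)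
def c1530 : PP 8 4 T 0x1002000000000088100010000000000100000000040000002000010000004000008 := rS 0x20846659946317 (k4 c420 i2678 i1028 c173 (k2 c1376 c532 (k1 c425 k0))) (by decide +kernel)
def c1531 : PP 8 4 T 0x20001002000000000004000000000000001540000080000000102090140010104880000 := rS 0x3918ec5a791d991143b0d0af113154a64f56aacf2752c8ecf69d4fc556ab9 (k8 i1141 i884 c36 c39 c393 c535 i1155 c507 (k8 c1516 i972 c37 c34 c19 c418 i703 c1529 (k8 c54 i3052 i1955 i737 c1183 c1146 c1373 c491 (k4 i3055 i218 c515 c1204 k0)))) (by decide +kernel)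
def c1532 : PP 8 4 T 0x20001000000000000004000000000000001401001100000100002080000004204000000 := rS 0x434499a5b2f9ed3a9f (k8 c39 c393 c535 c489 i705 i729 c492 c1146 (k1 c32 k0)) (by decide +kernel)
def c1533 : PP 8 4 T 0x20001002000000000080000000000000201540000080000000102110040010004880008 := rS 0x1043fb310e6b2d098fa57428817acf3cb246a5d3d908729d4f99d724f56c556aab3a964a6c1 (k8 c539 c418 c507 c1516 c37 i884 c36 c34 (k8 c19 i1141 c1180 c39 c393 i195 i999 c535 (k8 i1844 i1116 c459 i972 c1530 i1990 c1531 i1504 (k8 i1498 i1501 c1532 i1797 i3128 i2462 c1146 i849 (k2 c346 c664 k0))))) (by decide +kernel)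
def c1534 : PP 8 4 T 0x20001002000000000000000000000000001440000080000000102090140014104880000 := rS 0x8b338cb10829b08cc643c48b67964974be7b4f99d724f56c556aab3a964a655 (k8 i703 c418 c507 c1516 c37 i884 c36 c34 (k8 c19 i1141 c1180 c39 c535 c489 i1844 c459 (k8 i972 i705 c492 c32 c1528 i218 i219 c425 (k4 c1373 i1699 c1183 c532 (k1 c420 k0))))) (by decide +kernel)
def c1535 : PP 8 4 T 0x20901000000000000000000000000000001400004000000001002010140010104880000 := rS 0x23b18ea59 (k4 c507 c1516 c1527 c1373 (k1 i218 k0)) (by decide +kernel)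
def c1536 : PP 8 4 T 0x1002000000000088100010000000000000000000440000002000010000004000008 := rS 0x20846659946317 (k4 c420 i2678 i1029 c173 (k2 c1376 c532 (k1 c425 k0))) (by decide +kernel)
def c1537 : PP 8 4 T 0x20001002000000000080000000000000001440000080000000102010040010104880008 := rS 0x1c8c762d3c8ecc88b3d0ec335a15e2262a9e592351d9ec84394ea7cceb927ab62ab5559d4b253 (k8 c418 c507 c1516 c37 i884 c36 c34 c19 (k8 i1141 c1180 c39 c393 i195 i999 c535 i1155 (k8 i1116 c459 i972 i703 c1534 c54 i3052 i3128 (k8 i1955 i737 c1536 c1183 c1146 c1373 c491 i3055 (k2 i218 c515 (k1 c1204 k0)))))) (by decide +kernel)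
def c1538 : PP 8 4 T 0x20001002000000000000000000000000041440000080000000102111040110014880008 := rS 0x2087f6621cb4bd358999e7d2ba15ca20460cd30c133a9da4b95ac362a533093d5aab3c8bc6aa13a9647e5d688ed12093d9093a9f (k8 c39 c393 i999 c535 c56 i190 i1155 c479 (k8 i1844 i216 c507 c1516 c1507 i1116 i1080 i972 (k8 c37 c34 c19 c384 c418 c36 c534 i884 (k8 i1141 c1426 c716 c1180 c539 c1454 i193 c1533 (k8 c1537 c470 i1504 i1498 i1501 c168 c1532 i1964 (k4 i1990 i1797 i2462 c1146 (k2 i849 c346 (k1 c664 k0)))))))) (by decide +kernel)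
def c1539 : PP 8 4 T 0x1001002000000000010000041000000040440000100080000102005440500004000008 := rS 0x2654eb86914cc24f56aad1209 (k8 c56 i190 c37 c34 c19 c384 c418 c548 (k4 c1180 c496 i1144 c1454 k0)) (by decide +kernel)
def c1540 : PP 8 4 T 0x20001002000000000000000000100000001440000050000000102011040114114880008 := rS 0x4316ca64cc50cd0532aec8c6b6330d8b17673356a238820d0a8143c48b66f3c8ac5ec9128d542752c8fc125d2f8ecf6974d985a2394ea7caa42 (k8 i999 i703 c39 c393 i195 c479 c384 c364 (k8 c869 c535 i1155 c489 i1844 c56 i216 c507 (k8 c1516 c1507 i1116 i860 c459 i1080 i899 i972 (k8 c451 i705 c492 c32 c46 c376 c579 c1535 (k8 c454 c463 c555 c1146 c420 i1794 c729 c1502 (k8 i1960 i218 i1680 i1029 c425 c532 c1539 c411 (k4 c745 c1294 c716 c541 k0))))))) (by decide +kernel)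
def c1541 : PP 8 4 T 0x20001000001000000002004000000000000400000000000001002010540000004880000 := rS 0xe46391d8b4f889653a9f (k8 c39 c393 c507 c555 c491 i3055 c1373 i218 (k2 c515 c1204 k0)) (by decide +kernel)
def c1542 : PP 8 4 T 0x20001002000000000000000000100000001440000050000000102011040110114880008 := rS 0x32523956a238845d9ccd0f9f4fea360c31a51543b0d4e8578898aa6f3c8bc4a35509d4b23f1da24127b2125d3661688e53a9f (k8 c39 c393 i195 c479 c384 c364 c869 i999 (k8 c535 c56 i190 i1155 i216 c507 c1516 c1507 (k8 i1116 i860 i1080 i972 c451 i703 c1540 c54 (k8 i3052 i1915 i1955 i737 c745 c548 c379 c539 (k8 c69 c408 c57 c452 c1541 c1146 c420 c1171 (k4 c454 c463 c246 i2030 (k2 c168 i2067 k0))))))) (by decide +kernel)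
def c1543 : PP 8 4 T 0x20001002000000000000000000100000001440000010000000102111040110014880008 := rS 0x7d821fd7b0c662622a87539acb4266795d6a8519b9440734fa74a64f56aacde79178d4ea591f9747689049ec84974d985a239 (k8 i195 c479 c384 c364 c869 i999 c535 c56 (k8 i190 i1155 i1844 i216 c507 c1516 i1116 i1080 (k8 i972 c451 c37 c34 c19 c418 c393 c39 (k8 c1538 c1542 c470 c1142 i1504 i727 i1498 c168 (k8 c1532 i1797 i3128 i1915 i2462 c745 c1454 c1146 (k4 c379 i1990 i849 c346 (k2 c57 c664 k0))))))) (by decide +kernel)
def c1544 : PP 8 4 T 0x1002000000000000000000100000001440000010000000002111040010014880048 := rS 0x132a75fc34fcb53eb2e200c2a91caf0536190b69e6289d8e8543bc225191ca5ca66127ab55679158bc4aa13a9647ed11da24122d3d944840f (k8 c1360 i999 i439 c535 i1001 c56 i190 i1155 (k8 c479 i216 c507 c1516 c1507 i860 i1080 i899 (k8 i972 c37 c34 c19 c384 c418 c869 i195 (k8 c1543 c500 c520 c32 c376 c20 c54 c547 (k8 c1520 i705 c187 c275 c75 i1579 i1695 i1697 (k8 c724 c83 i465 c433 c463 i2037 c408 i1723 (k2 c716 i1113 (k1 c1454 k0))))))))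 (by decide +kernel)
def c1545 : PP 8 4 T 0x1001002000000000000000000100000401080404000000100102000000000004080000 := rS 0xb2 (k2 c1420 i554 k0) (by decide +kernel)
def c1546 : PP 8 4 T 0x1002000000000000000000100000001080004080000100102000000000004080000 := rS 0x4dc550712 (k4 c744 c579 c36 i1179 (k1 c1545 k0)) (by decide +kernel)
def c1547 : PP 8 4 T 0x1001000000000000000000000000010000010500054000000002005000554014000000 := rS 0xb70fa9e18d2 (k4 c548 c379 c496 c452 (k2 c541 i2031 k0)) (by decide +kernel)
def c1548 : PP 8 4 T 0x2101002000000000000000000000000000400000100000001102000000000004000000 := rS 0x2e5971630ab556a92ca552663 (k8 c80 c12 c386 c507 c61 c37 c34 c384 (k4 c1171 c197 c487 c1188 k0)) (by decide +kernel)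
def c1549 : PP 8 4 T 0x2001002000000000000010000000004001405001100000000102080210055104000008 := rS 0x19c334eb099a2388154f6c7 (k8 i2070 c535 i703 c1548 c454 c555 i2032 i1906 (k2 i2068 c1146 (k1 i1977 k0))) (by decide +kernel)
def c1550 : PP 8 4 T 0x2001002000000000000010000000004001405001100000000102080210055004000008 := rS 0x318ba719ecd19b94407b (k8 c535 c1549 c470 c1142 i729 i1977 c1146 c552 (k2 i1511 c510 k0)) (by decide +kernel)
def c1551 : PP 8 4 T 0x1000000000000001000000000000000000101000008014404010154000000002000000000004000000 := rS 0x17f433f2e5774f (k4 c529 i1685 i1190 c1138 (k2 c16 i1723 (k1 c485 k0))) (by decide +kernel)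
def c1552 : PP 8 4 T 0x1002000000000000000000100000001400000010000000002111040010014880048 := rS 0xab11662f13d455b2ccfab531a4d2b1439a0d0a81438e04f122db15145327abd5aab549bcc279158bc4a35509d4b23f2e97d1209169eca242 (k8 i999 i439 c535 i1001 c56 i190 c489 i1844 (k8 i216 c507 c1516 c1507 i1116 i860 i1080 i899 (k8 i972 c384 c451 c61 c37 c34 c503 c19 (k8 c418 c1544 i3090 i1883 c744 i3089 i1881 c32 (k8 c46 c376 c579 c1546 c1547 c386 c12 c80 (k8 c1070 c1190 i553 i2038 c62 c1550 c1551 i1988 (k2 c555 i769 (k1 c1548 k0)))))))) (by decide +kernel)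
def c1553 : PP 8 4 T 0x1002000000000000000000100000001400000010000000002001040000015080041 := rS 0xb71314114045f3c858ba41 (k8 c815 i1844 c461 i972 c489 c1452 i220 c1552 (k2 c560 i1806 (k1 c492 k0))) (by decide +kernel)
def c1554 : PP 8 4 T 0x1002000000000000000000100000000000000010000000002000040000015010040 := rS 0x4d00297d1a9648174244100a3c2c3d (k8 c1487 c461 c1460 c1497 c815 c1526 i1844 c1553 (k4 c1282 i1817 c477 i267 (k2 c840 c410 (k1 i2797 k0)))) (by decide +kernel)
def c1555 : PP 8 4 T 0x4001002000000000000401000000000010000000080000000002400000000006001040 := rS 0x5c8ba2aad55824660f (k8 c1360 c1163 c56 c37 c34 c36 i1091 i2782 (k1 c1202 k0)) (by decide +kernel)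
def c1556 : PP 8 4 T 0x400000000000000001002000000000000404040100080000000000000000000002000000000004050040 := rS 0x592f14ebfa18f55f4504b1c7ef0 (k8 c1167 c494 c20 c56 c1521 c503 c1487 c387 (k4 i1719 c1134 c485 c1160 (k1 i1413 k0))) (by decide +kernel)
def c1557 : PP 8 4 T 0x1002000000000000000000100000000800000000000000002000000000016050040 := rS 0xb25e29d48a35dd3cd8c314974d26b65c1182e50691d0e55110d043111eabd5aab0bb24825f12964894504b1d8a3f488ede00f (k8 c1360 c1167 c443 i1168 c494 c547 c20 c56 (k8 c1521 c391 i603 i346 c1139 c587 c407 i8 (k8 c37 c34 c503 c1487 c416 i725 i1130 i1131 (k8 i766 i931 c1373 i482 c453 i1574 c77 c434 (k8 c537 c63 c754 c874 c865 c1143 c59 i1681 (k4 c1556 c1145 i2128 c996 (k2 c1160 i1413 k0))))))) (by decide +kernel)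
def c1558 : PP 8 4 T 0x1000000000000001002000000000000040001000008041040001180000000002000000000006040040 := rS 0x21d308c89465a2412c910f60f (k8 c1360 c570 c391 i603 c587 c505 c39 c500 (k4 c401 c1523 c32 c1519 k0)) (by decide +kernel)
def c1559 : PP 8 4 T 0x101000000000000000050000000004000400000100000000002000440010106000000 := rS 0x4e8d59ec38b0c466251c910040f (k8 c1360 c446 c391 i2095 i346 c1163 c481 c1171 (k4 c865 c420 c506 c552 (k1 i2035 k0))) (by decide +kernel)
def c1560 : PP 8 4 T 0x1002000000000001051000800004001405004180000000002000000014506000040 := rS 0x5ea522ecb674113ae5610ac4a39011e5025f0691c880f (k8 c1360 c391 i224 i482 c1139 i1335 i1097 c446 (k8 i2095 i346 c1152 i2032 c444 i1905 c77 c1146 (k4 c434 c420 c1555 i1413 (k1 i1105 k0)))) (by decide +kernel)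
def c1561 : PP 8 4 T 0x1000000000000001002000000000000050000800000040440000180000000002000440014116040040 := rS 0x32e0abe2a1ad6c5a89a188ea36688d0b104fab556093dad4ba83489e5025f0691182a1379861a0f (k8 c1360 c534 c384 c451 i311 c311 c391 i482 (k8 c1139 i1335 i1097 i1168 i923 i514 i884 c570 (k8 c56 c37 c34 c1558 c1559 c6 c454 c555 (k8 c308 i224 c1560 c32 c492 c440 i1962 i777 (k4 i857 c49 i1454 c1177 k0))))) (by decide +kernel)
def c1562 : PP 8 4 T 0x1000000000000001002000000000000050000800000040440000080000000002000440014116040040 := rS 0x146cb23a94fe562a8d4e8c106ab5560922284de61868b96a0f (k8 c1360 i884 i1091 c534 c384 c451 i311 c391 (k8 c56 c37 c34 i482 c311 c1561 c544 c589 (k4 c429 i1668 i365 i225 (k2 i506 c316 (k1 c1145 k0))))) (by decide +kernel)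
def c1563 : PP 8 4 T 0x1000000001000000000000000000000008000000000100002600000000004000000 := rS 0x821501a5a2bc4cbe0f (k8 c1360 c1139 c32 i1706 c492 i481 i777 c77 (k1 c49 k0)) (by decide +kernel)
def c1564 : PP 8 4 T 0x8001000000000000001000000000004001405005100000000002000000000004000000 := rS 0x13acf (k2 c420 c552 (k1 c1146 k0)) (by decide +kernel)
def c1565 : PP 8 4 T 0x1002000000000000000000100000000040000080000000002000040010016050040 := rS 0x33d3abd4a32c1ac13295cfa348845d0e9f23b350a7572880f25d40ac94e835aae61a3d578c59233509bcc2432f9128a096389d8a3f488ede08f3da5da20f (k8 c1360 c505 c869 c570 c1557 c1167 c443 i1168 (k8 c494 c547 c54 c20 c56 c1521 c391 c1139 (k8 i41 c384 c451 i311 c1163 c407 c481 c503 (k8 c1487 c534 i2782 i884 i923 c716 c1160 i1335 (k8 i514 i1097 c1562 c470 i1499 i1504 i729 i1530 (k8 c1558 c1563 c1564 c1171 c510 c433 c64 i1023 (k8 c340 i481 c173 c1555 i1413 i1678 i1105 c1146 k0))))))) (by decide +kernel)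
def c1566 : PP 8 4 T 0x221202000000000000000000000000000000000000000010002000000000004000000 := rS 0x513f94c9ead559f56a57 (k8 c64 c463 c433 c37 c34 c19 c418 c408 (k2 c377 c664 k0)) (by decide +kernel)
def c1567 : PP 8 4 T 0x11000002000000000000000000010440000000054000000002001140110014000000 := rS 0x2f8a29c763f (k4 c494 c443 c716 c379 (k2 c480 c745 k0)) (by decide +kernel)
def c1568 : PP 8 4 T 0x101000000000000000050000000000000440000100000000002000440010106000000 := rS 0x2a21caf05891b0c9193ca79a25922244f60f (k8 c1360 c570 i1168 c391 i603 c505 c1559 c426 (k8 c39 c187 c275 c500 c75 i1579 c32 c83 (k1 i1697 k0))) (by decide +kernel)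
def c1569 : PP 8 4 T 0x1000000000000221002000000000000050000000010000400000040000000002205001114114000040 := rS 0x412f14ebba7afe86865130d4ac17211e0acd5a88d0a53048ac4a59409fca27d0fadc1a0f (k8 c1360 i482 c541 c452 c57 c377 c408 c2 (k8 i603 i346 c1152 c56 c418 c6 c454 c463 (k8 c555 c1566 i224 c77 c1201 c484 c444 i2030 (k8 i2032 c387 i1719 c67 i1683 c1134 c485 i2031 (k1 i1415 k0))))) (by decide +kernel)
def c1570 : PP 8 4 T 0x21002000000000000000000100000000040000000000000002000040010116050040 := rS 0xbba7a893d056591d3acf321546a7461c441a3d56aac622d19a84de252c8e48802a282476c713b147ef0479ed3661689cca20f (k8 c1360 c377 c1565 c505 c384 c364 c570 c1557 (k8 c1167 c494 c547 c54 c20 c443 c56 c1521 (k8 c446 c391 i2095 i603 i346 c451 i311 c1163 (k8 c519 c481 c37 c34 c1487 i482 c1569 c865 (k8 c1568 c544 c589 c493 c74 i1592 i225 c197 (k4 c75 i2035 c1177 c529 (k2 i1686 c1556 k0))))))) (by decide +kernel)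
def c1571 : PP 8 4 T 0x400000000000000101000000000000001000000000004001405004100000000002000000000004000000 := rS 0x448f116 (k4 c1171 c1564 c398 c423 k0) (by decide +kernel)
def c1572 : PP 8 4 T 0x101002000001000001000000100044020401044100000000102400040000006050040 := rS 0xa65e2cd765c4353d7ec21eabc62331c910054504b1d8a3f488ede0cf1aa762d43 (k8 c66 c1171 c552 c506 c420 c1167 c443 i1168 (k8 c494 c547 c20 c56 c1521 c446 c391 i2095 (k8 c1163 c481 c503 c1487 i2035 i1725 c428 c1571 (k4 c1563 i1683 i513 c485 (k2 c1160 i1985 k0))))) (by decide +kernel)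
def c1573 : PP 8 4 T 0x101002000001000001000001100040000441050150000000102400040000006050040 := rS 0x43a6119128c9e53d154a2e5271637904b244a28258e911dbc0f6974d985a20f (k8 c1360 c505 c384 c364 c869 c570 c1167 c443 (k8 i1168 c20 c56 c1521 c391 i603 c587 c451 (k8 c1171 c436 c487 c1138 c386 c1572 c426 c39 (k4 c500 c401 c85 c32 (k1 c1519 k0))))) (by decide +kernel)
def c1574 : PP 8 4 T 0x1002000000000000000000100000000040000010000000002000040010014050040 := rS 0x6c14af1023b356aa3429d5ca203e944ff0c39a6d2e3d18b445aa13798486591c91004277823c300f (k8 c1360 c1554 c1557 c1167 c54 c446 c391 i2095 (k8 i603 i41 c384 c451 i311 c519 c505 c481 (k8 c1487 c869 c364 c1565 c1567 c408 c377 c57 (k8 c1570 c470 i1499 i1504 i1650 i727 i729 i1530 (k4 c1573 c64 c1566 i481 (k1 c77 k0)))))) (by decide +kernel)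
def c1575 : PP 8 4 T 0x1002000000000000000000100000000080000080000000002000000010016050040 := rS 0x59a9d370d1eabc12a1379847ef0 (k8 c1167 c494 c384 c451 i311 c56 c503 c1487 (k4 c534 i2805 c716 i554 (k1 c1160 k0))) (by decide +kernel)
def c1576 : PP 8 4 T 0x11002000000000000000000100000000000000010000000002000040010014050040 := rS 0x9717aca28a71eabc12d116a84de611c910043f781cd1418 (k8 c1554 c1574 c1575 c1167 c494 c446 c391 i2095 (k8 c384 c451 i311 c519 c505 c56 c503 c1487 (k4 c716 c379 c1160 c480 (k2 c571 c1390 k0)))) (by decide +kernel)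
def c1577 : PP 8 4 T 0x1002000000000000000004100010001080104000000400102005400054054000040 := rS 0x1a6b25317507122d94c9eaf (k8 c503 c19 c418 i1883 c744 c579 c65 i2031 (k2 i2038 c496 (k1 c1329 k0))) (by decide +kernel)
def c1578 : PP 8 4 T 0x401000000000010001002000000000000000010000000144400050151104000002a00000000004000000 := rS 0x12ab5351520a4f55aa4de61 (k8 c384 c451 c61 c37 c19 c425 i225 c550 (k2 i767 c1016 (k1 c1138 k0))) (by decide +kernel)
def c1579 : PP 8 4 T 0x1000000000000101002000000000004000000000000040480050150004000102000040010106050000 := rS 0x1286a239b4d34f5c8d4ce934f458c24f56aad52d11db1d8af08ca655e0d61894880f (k8 c1360 c391 i346 c865 i482 c503 i1938 c40 (k8 c1167 c547 c20 c443 c505 c61 c37 c34 (k8 c19 c384 c1171 c1559 c436 c486 c506 c487 (k4 c529 i1566 i555 c1578 (k2 c1143 c1210 (k1 c1016 k0)))))) (by decide +kernel)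
def c1580 : PP 8 4 T 0x1000000000000021002000000000004000000000000040480000050004080002000040010116050040 := rS 0xd09d3591cda642b154ce7461c441a3d188b5426f3089488c713b147ef03f944fa0f (k8 c1360 c57 c377 c408 c1167 c494 c547 c54 (k8 c20 c391 i346 c384 c451 i311 c519 c481 (k8 c1487 i482 c1569 c865 c1579 c460 c589 c429 (k4 c493 i555 i225 i1963 (k2 i2957 c1143 (k1 i1887 k0)))))) (by decide +kernel)
def c1581 : PP 8 4 T 0x1000000000011001000000000000000000000000010140010500054000000002005400154014000000 := rS 0x5c9a (k2 c85 c1547 (k1 i1175 k0)) (by decide +kernel)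
def c1582 : PP 8 4 T 0x1002000000000000000000100000000000000010000000002000040010014050040 := rS 0x82834ae934ac508eb53ab94406359a5da6a667969067a5b87cfa513fa0618734cc65143d2993d5ead558c45a89509bcc2432f8acb2392200a8a09138fd223b7823c300f (k8 c1360 c1554 c1557 c1167 c443 i1168 c494 c54 (k8 c56 c1521 c446 c391 i2095 i603 c1152 c1139 (k8 i41 c384 c451 i311 i231 c519 c481 c37 (k8 c34 c503 c19 c418 c1487 c1574 c40 i1938 (k8 c1575 c1576 c2 c408 c377 c57 c452 c541 (k8 c1577 c424 c551 c1144 i2031 c496 i1897 c1329 (k8 c1013 c1580 c470 i1499 i727 i1530 c1581 c386 (k4 c12 c1216 i481 c664 (k1 c77 k0))))))))) (by decide +kernel)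
def c1583 : PP 8 4 T 0x1002000000000000000000100010001000000080000200002000000000014050040 := rS 0xb353a0e1a3d578247ef0 (k8 c1167 c494 c56 c503 c1487 c534 i923 c1205 (k2 i514 c1160 k0)) (by decide +kernel)
def c1584 : PP 8 4 T 0x8001000000000000000050000000000000040000000000000002800440000006040000 := rS 0x4f1b58631688cc72440133c6a9d (k8 c552 c506 c420 c446 c391 i2095 c1163 c505 (k4 c481 i210 i1696 i2035 (k1 c275 k0))) (by decide +kernel)
def c1585 : PP 8 4 T 0x501000000000000000008000000000000000000000000200002400000001104051000 := rS 0x218448572b1de00f (k8 c1360 c1167 c20 c444 i1867 c392 c735 i1703 k0) (by decide +kernel)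
def c1586 : PP 8 4 T 0x401000000000000000000000000008001000004000000000002000000000004000000 := rS 0x23279 (k2 c426 c39 (k1 c500 k0)) (by decide +kernel)
def c1587 : PP 8 4 T 0x501000000000000000000000000004000440000100000200002000040000106050000 := rS 0x184474e8d59f16188cc4a39010ed8ec578034880f (k8 c1360 c391 i482 c1167 c547 c20 c443 c446 (k8 i2095 i346 c1163 c481 c1171 c420 c506 c552 (k2 c1584 i2035 (k1 c1585 k0)))) (by decide +kernel)
def c1588 : PP 8 4 T 0x421002000000000000000000000804000440000140000200002000040000116050040 := rS 0x2ee9ebfa19a99ca261a946ac14eb90da4734c14aeb511a16200d29abc1231688b466a1379844a591c910043b63b15e07f289f43e0f (k8 c1360 c452 c57 c377 c408 c1167 c547 c20 (k8 c443 c446 c391 i2095 i603 i346 c384 c451 (k8 i311 c1163 c519 c505 c481 c56 c503 c418 (k8 i482 c1587 c6 c454 c463 c64 c1566 i1849 (k8 i224 i515 c77 c335 c1201 c453 c484 c444 (k8 i2030 i2035 c1143 c387 i1719 c501 i1946 c1134 k0)))))) (by decide +kernel)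
def c1589 : PP 8 4 T 0x1002000000000000000000100000000000000110000000002000040000014050040 := rS 0xd8295e204766a156aa372880865913b151e7f3ea996651861cd2e9b45b445aa137984b85f1eabc7e094f9ec72440144c50911dbc0300f (k8 c1360 c1554 c1167 c443 i1168 c1582 c560 c446 (k8 c391 i2095 i1889 c1586 c56 c494 c503 c1487 (k8 c1139 c874 c384 c451 i311 c519 c505 c744 (k8 c364 c869 c1583 c1343 c377 i513 c1160 c57 (k8 c408 c1557 c547 c54 i603 i41 c1588 c470 (k8 i1650 i727 i1503 i729 i1530 c1573 c64 c1566 (k2 i481 c77 k0))))))) (by decide +kernel)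
def c1590 : PP 8 4 T 0x1002000000000000000000100000000000000010000000002000040000014050040 := rS 0xc223a74420d6795622353a27cf65c898a122c5638ede0311997c4a3922008300f (k8 c1360 c1554 c446 c391 i2095 i346 c1139 c1163 (k8 c481 c1167 c443 c20 c547 i1168 c1582 c560 (k8 c874 i1889 c1586 c1589 c544 c368 c589 c74 (k4 c816 i1499 i1592 i225 (k2 i2035 c1585 k0))))) (by decide +kernel)
def c1591 : PP 8 4 T 0x11002000000000010400000000010040050040050000000002405440100814001048 := rS 0xa6520bd32a38a2b5560937985820f (k8 c1360 i1574 c384 c451 c56 c37 c34 c379 (k4 c316 c411 c480 c1145 (k2 c1454 i2128 k0))) (by decide +kernel)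
def c1592 : PP 8 4 T 0x101002000000000000000000000000041840101010000080002005440020116000040 := rS 0x29ecd6730d70bd512614ab70fc30fe85399a597046091dca87110d12b1756aac122d44a84de25899ec72024193d366168834880f (k8 c1360 c391 i482 c505 c384 c364 c19 i775 (k8 c446 i2095 i1889 c560 i346 c451 i311 i231 (k8 c519 c56 c37 c34 c504 i2762 i1130 i1131 (k8 i931 c453 i2099 i1574 c77 c434 c63 c1555 (k8 i1811 i846 c1591 c452 c541 c198 i2045 c1145 (k4 i1991 i327 i329 i1143 (k2 i1968 c501 (k1 c398 k0)))))))) (by decide +kernel)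
def c1593 : PP 8 4 T 0x1002000000000000009000000000000000000080000000002000010000006001040 := rS 0xa3528785cad5582597047291c880f (k8 c1360 c391 i2101 c444 c77 c434 c56 c37 (k4 c34 i1091 i1092 i365 (k2 i2119 c1145 k0))) (by decide +kernel)
def c1594 : PP 8 4 T 0x2001002000000000000500010000000004000000000050000002000000000004000000 := rS 0xc69530ab556a9 (k4 c61 c37 c34 c384 (k2 c386 c80 (k1 i2040 k0))) (by decide +kernel)
def c1595 : PP 8 4 T 0x8101002000000000000050000000005441000505010400000002000440000116000040 := rS 0x5ea8930a55b87e191539b2d83041111dca65612e46a6749b3d5aab049bcc231648cc4a3901034880f (k8 c1360 c391 i482 c446 i2095 i346 c1163 c407 (k8 c481 c384 c451 c56 c37 c34 c420 c436 (k8 c486 c506 c487 i2035 c1406 c444 i2101 c392 (k8 c77 i1574 c434 c1593 c1594 c379 c452 c541 (k4 c198 i2045 c1145 i1990 (k1 i329 k0)))))) (by decide +kernel)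
def c1596 : PP 8 4 T 0x1000000000000000050000000005000000000200400000002000545000004000000 := rS 0xc835 (k2 c544 c493 (k1 c1406 k0)) (by decide +kernel)
def c1597 : PP 8 4 T 0x101002000000000000040000000000041040101010000080002005440020116000040 := rS 0x8ba3d064f4d985a2754ec613e7b899ad8a39220086631 (k8 c481 c1163 c446 c391 i2095 i3059 i3129 c560 (k8 i1889 c1586 c500 c393 c1596 c505 c384 c364 (k4 c19 i775 c1592 c1595 (k1 c1171 k0)))) (by decide +kernel)
def c1598 : PP 8 4 T 0x1002000000000000051000000045000000000080400000002400450000006001040 := rS 0x22cce6530d4a6556aac1231648cc7244010b9720f (k8 c1360 i2782 i1091 c446 c391 i2095 c1163 c407 (k8 c481 c56 c37 c34 c1406 i365 c1593 c1145 (k2 i2035 c173 (k1 c420 k0)))) (by decide +kernel)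
def c1599 : PP 8 4 T 0x1002000000000001050000000000000401500080400100002000440020516000040 := rS 0x16f455e2619c9443b2ccae58b8d146c15cc3592a137984ea9d8c1e53e7b89a45a25f1c80866310691c880f (k8 c1360 c391 i224 i482 c481 c1163 c446 i2095 (k8 c1139 c505 c840 c560 i1889 c1586 c586 c500 (k8 c393 c1596 c384 c451 i311 c407 c534 i2782 (k8 c311 c308 c1598 c406 c453 i1023 c173 c1563 (k4 c1555 c1146 i1104 i1105 (k2 c388 i3145 (k1 c440 k0))))))) (by decide +kernel)
def c1600 : PP 8 4 T 0x1000000000000001002000002000000051100000045100000000000400000002400555000004001040 := rS 0x17f436732986a556aac120f (k8 c1360 c56 c37 c34 c484 c444 c1145 i2035 (k2 c531 i1454 (k1 c255 k0))) (by decide +kernel)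
def c1601 : PP 8 4 T 0x1000000000000001002000000000001051100000045101401004000400100002600555000004001040 := rS 0x878b394f275 (k4 c1596 c586 c1600 c510 (k2 c1563 c1564 k0)) (by decide +kernel)
def c1602 : PP 8 4 T 0x11002000000000011050000000010040451500050400100002205445120514000048 := rS 0x5da919ccb43c11ca345ed154cb617a6546c18a2b5560937a6cc2754ec60f29f3dc4d225f1c8348e0f (k8 c1360 i224 i482 i2095 c1139 c840 c560 i1889 (k8 c1586 c586 c500 c393 c1596 c384 c364 c451 (k8 c56 c37 c34 c379 c311 c308 c411 c480 (k8 i2045 c1454 c62 i3145 c1601 c453 c77 c1563 (k4 c434 c1146 c1145 i1950 (k1 i368 k0)))))) (by decide +kernel)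
def c1603 : PP 8 4 T 0x1002000000000000040000000000040040100010000180002005440020116000040 := rS 0xccb98b8b99c6569b0c6b157226183055b87ca27f861cc8ecd47ad446853ec401a5356aac122d64a25426f12965064f4d984ea9d8c1e53e7b89a45a25f35b147244010cc620f (k8 c1360 c481 c1163 c446 c391 i2095 i3059 i3129 (k8 c1139 c505 c840 c560 i1889 c1586 c586 c500 (k8 c393 c1596 c384 c364 c19 i775 i603 i346 (k8 c451 i311 i231 c407 c519 c56 c37 c34 (k8 c418 i482 c1597 c433 c6 c454 c463 c416 (k8 c555 i224 c1599 c1602 c408 c377 c452 c541 (k8 c1566 c1201 i2045 c77 c411 c453 c444 c246 (k4 c1406 i2035 c870 c420 (k2 i1137 c532 (k1 c1180 k0)))))))))) (by decide +kernel)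
def c1604 : PP 8 4 T 0x11000000000000008000000000000020000500000000000002000000020004000000 := rS 0x1455ba617913 (k4 c560 i1105 i1104 i3145 (k2 c388 c440 k0)) (by decide +kernel)
def c1605 : PP 8 4 T 0x1002000000000000000000100000000000000010000000002000040000014010040 := rS 0x2ed4c998a1cc5e95523061acb82034ae7d8833a2e8723b350aa347b9440754ea7e309b4b9ad8a83409ee26913ca2c4e5a140ed8e5d1f84872592f90d4233208b5a2310b80888181e93d5aab049bcc20f (k8 c1360 c384 c451 c56 c37 c34 c19 c1487 (k8 c1554 c391 c446 i8 c481 c505 c519 c587 (k8 c1163 i311 i41 c1139 i603 i2095 c1590 i216 (k8 i1844 i2104 i2102 i226 i227 i1798 i1881 c586 (k8 c840 c560 i1889 i1809 i775 i3059 i3129 c869 (k8 c364 c500 c1586 c393 c1596 c1603 c470 i725 (k8 i1650 i1503 i729 i1530 c1563 c1564 c1146 c1171 (k8 c433 c64 i481 c77 c434 c1566 c340 c1145 (k8 c1604 i366 c1555 c379 c411 c745 i1950 i368 k0))))))))) (by decide +kernel)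
def c1606 : PP 8 4 T 0x101000002000000010004000810100000050000000001001002810150100004040010 := rS 0x5d14a1a8d2aca5f338d4334ea4d7317322397a9f2c1b462c1008ed8ec5 (k8 c547 c20 c443 c536 i1533 i1532 i1696 c1373 (k8 c275 i1414 c507 c568 c504 i1026 i1549 i1552 (k8 i1546 c1407 i2035 i634 i633 i1105 i1719 c531 (k2 c472 i2033 (k1 c35 k0))))) (by decide +kernel)
def c1607 : PP 8 4 T 0x400000000000000001002000002000000404040100100000000000000000000002400000000004050040 := rS 0x2895aab04b041a0f (k8 c1360 c4 c0 c56 c37 c34 c1145 c1556 k0) (by decide +kernel)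
def c1608 : PP 8 4 T 0x5001002000002000008104010900104000000000000000000002400000000004050040 := rS 0xbc36a50c893a1b29774f (k8 c501 i1951 c1607 c531 i1367 c173 c472 i1699 (k2 i1105 i1414 k0)) (by decide +kernel)
def c1609 : PP 8 4 T 0x4001002000000000000004000900004000000000080000000002400041000125050040 := rS 0x32d2a654e33d722e8aab5560963b1472c93fa952ed145b4c7e3b783041ae41a8586602009049e0f (k8 c1360 c19 i741 c536 c1298 i192 c461 i1117 (k8 c510 c4 c0 c1167 c443 c494 c405 c1329 (k8 i2797 i1374 i1382 i719 i2776 i194 c547 c20 (k8 c56 c37 c34 c36 i718 i1142 c1608 i2035 (k4 i1552 i1678 c173 c1202 k0))))) (by decide +kernel)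
def c1610 : PP 8 4 T 0x1000000000000050000004100000001050500050001000002000040000004800000 := rS 0x4c0bcde79 (k4 i972 c451 i1079 c1294 (k1 c870 k0)) (by decide +kernel)
def c1611 : PP 8 4 T 0x1000000000000001002000000000010040000000008041044000180000000002010000000004040040 := rS 0xb52ca61188f8ca6cc315 (k8 c36 c384 c364 c39 i1187 c401 c85 c507 (k2 i884 c1519 k0)) (by decide +kernel)
def c1612 : PP 8 4 T 0x1002000000000000000000100000001000000010000000002000040010105050040 := rS 0x8cc318c5e228e4f9c916975920d0f122f94cc2af56b4ca289408f68a091db1c7eb713bc00a75688e45a252d9746aa52a9080401208709e16 (k8 c461 c19 c1605 i741 c536 c1298 i999 i703 (k8 i1382 i1117 i443 i706 c590 i1001 i194 i2797 (k8 i2671 i24 c1167 c54 i721 c494 c20 c443 (k8 c56 c1521 c1487 i1235 i1342 i1229 c405 c34 (k8 c503 c384 c418 c489 c492 c32 c579 i2038 (k8 i1374 c1329 c1610 c1611 c1520 c416 c504 i2676 (k2 c865 c1609 (k1 c1606 k0)))))))) (by decide +kernel)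
def c1613 : PP 8 4 T 0x1000000000000010000000100000002000000000000100002000000000004000000 := rS 0x228bc96 (k4 c1282 c840 c869 c517 k0) (by decide +kernel)
def c1614 : PP 8 4 T 0x1002000000000000000000100000000000000010000000002000040010005050040 := rS 0x2d12acb1a1562f113fa38fa572c8815aab0f91472c98aa7d2e873ab1e8a095c8b8e48b5914d5e511f8ed07122f96d225d2134404012093d6e27782047a89699843816 (k8 c461 c1605 c384 c405 i1342 c1487 i1235 c1167 (k8 c54 i721 c19 i741 c536 c1298 i2797 i999 (k8 i443 c1613 i706 c489 c492 c579 c443 c494 (k8 i1229 c503 c418 i2038 c1329 c1610 i718 i2780 (k8 c56 c1521 c20 i2671 c32 i1374 c1611 c36 (k8 i2776 i194 i220 i10 c37 c34 c1612 c465 (k8 i1498 i1502 c1520 i847 c416 c504 i766 i726 (k4 c197 i2760 i2037 c1437 k0)))))))) (by decide +kernel)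
def c1615 : PP 8 4 T 0x1002000000000000000000100000000000000010000000002000040000005050040 := rS 0x1417d225d21344041600904384f (k8 c19 c1605 i741 c536 c461 c1298 i2797 i999 (k4 i443 c1613 c489 c1614 (k1 c874 k0))) (by decide +kernel)
def c1616 : PP 8 4 T 0x101002000000000000004004100104000800100050000000102000000000106050040 := rS 0x988a20e1a7c6028cf2bb45a169e5d361a4d7046591dca872a8d15aab049bcc2c762b4592911dbc0be252c834880f (k8 c1360 c391 i482 i603 i346 c1139 c1167 c443 (k8 i1168 c407 c505 c547 c20 c384 c451 c56 (k8 c37 c34 i1130 i766 i931 c453 i2099 c197 (k8 c77 c537 c63 c1143 c754 c59 i1604 i556 (k8 i1681 c586 c1556 c1145 c224 c57 i1442 c379 (k2 c1294 c411 k0)))))) (by decide +kernel)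
def c1617 : PP 8 4 T 0x101002000000000000000000100004000000000010000000002000040010104050040 := rS 0x9d67990ac353a23ca2811e8ed8ec55b89de031199cc3e390129438c312910300f (k8 c1360 c1615 c391 i346 c865 c1605 i1382 c446 (k8 i2095 i10 i1092 c1163 c481 c1167 c54 i721 (k8 c547 c20 c443 c1487 i1235 i1229 c1616 c1559 (k4 c544 c429 c493 c74 (k2 i2957 i2035 k0))))) (by decide +kernel)
def c1618 : PP 8 4 T 0x101000000000000010104000150008000400040054000000042a00004000024050140 := rS 0xbd4a29972b34cc597693452d4ea7d3519cda542bb060a3d699068a3b1fbc29e69 (k8 i1566 c529 c1167 c494 c443 c1521 i741 c405 (k8 c1487 c425 i1533 i1578 i225 i1696 i1617 c550 (k8 i1233 c429 i767 c275 c1012 i1946 c1171 i1938 (k4 c1329 c487 c1160 c1138 (k2 i1984 c762 k0))))) (by decide +kernel)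
def c1619 : PP 8 4 T 0x101002000000000000000000100108000040000000000000102400040010106050040 := rS 0x1c8cb8295576643a26cc23b63b15e0d12c83586252253d1e0f (k8 c1360 i2812 c529 c391 i346 c865 i482 i603 (k8 c505 c1167 c547 c20 c443 c384 c364 c1568 (k4 c187 i1686 c589 c75 (k2 c197 c77 (k1 c1607 k0))))) (by decide +kernel)
def c1620 : PP 8 4 T 0x1000000000000101002000000000044000000000010044480040110004000102000050010146050000 := rS 0x254f86156aad523339894880f (k8 c1360 c391 i346 i1092 c1163 c61 c37 c34 (k4 c384 c1579 i1598 c1065 k0)) (by decide +kernel)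
def c1621 : PP 8 4 T 0x101002000000000000000000100000000000000010000000002000040010104050040 := rS 0xd66d4a19ce86349a5d4cb34ca288e691aa3e32cf4f30c7a4f57ab556a937985a6a128d14123b63b147ef068b2466730f894b239011fd4a1c06910300f (k8 c1360 c1615 c391 i482 c1605 i1382 i719 c446 (k8 i2095 i603 i346 i10 i1092 c1163 c407 c505 (k8 c1167 c494 c547 c20 c443 c56 c1521 i1229 (k8 i89 c405 c384 c451 c61 c37 c34 c503 (k8 c19 c1487 c865 c1617 i156 c39 i2812 i1183 (k8 i1566 c1618 c1619 i1938 c1329 c1160 i1897 i1718 (k4 c1013 c1620 c460 c818 (k2 i555 c1016 (k1 c1143 k0))))))))) (by decide +kernel)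
def c1622 : PP 8 4 T 0x4001100000000000001150000000004000009000000000104002200000004504040000 := rS 0x321b0ce5a2a094b2c3720348e0f (k8 c1360 i224 i482 c77 c444 i603 i346 c854 (k4 c848 c1155 i778 c532 (k1 i1699 k0))) (by decide +kernel)
def c1623 : PP 8 4 T 0x1002000000000000000000100000000000000010000000002000040010104050040 := rS 0xbf532ccb9438bb299c9f5da769f133da198635724148e5766ad446853ec401aa53f94c9eaf56aac122b1e94438c713b147e31648cd223b78094b23922008300f (k8 c1360 c1615 c446 c391 i2095 i603 i346 c1167 (k8 c443 i1168 c1163 c407 c481 c494 c547 c54 (k8 c20 c1605 i1229 c1487 i901 c56 c37 c34 (k8 c503 c19 c418 i719 i1382 i482 c1621 c433 (k8 c6 c454 c463 c555 c64 i224 c664 c77 (k8 c453 c444 i2032 c430 c32 c67 c1174 i1683 (k8 c1586 i2035 c1607 c420 c531 c1622 i513 c1160 (k2 i1453 c1134 k0)))))))) (by decide +kernel)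
def c1624 : PP 8 4 T 0x101002000000000000000001000000000400010150000010102400000000204001000 := rS 0x21b153f15608572993d5aab37985ca0f (k8 c1360 c470 c384 c451 c37 c34 c19 c418 (k4 i1497 c77 c49 c664 (k2 c1548 c408 (k1 c379 k0)))) (by decide +kernel)
def c1625 : PP 8 4 T 0x101002000000000000000001100000000040000010000000002000040010004050040 := rS 0xfea32b031565139965ca8f0b9d462856689de04721910307d1007c380f (k8 c1360 c1605 i10 c1623 i1502 c1615 c391 i41 (k8 i1530 c1167 c54 i729 i1504 c481 i1499 i8 (k8 i725 c470 i603 i1092 i1229 c37 c1624 i481 (k2 i1647 i1666 (k1 c1573 k0))))) (by decide +kernel)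
def c1626 : PP 8 4 T 0x101002000000000000000000000200000410000100000000102000000100024000000 := rS 0x8a1545eb427b4c6b16 (k8 c1171 c506 c405 c19 i1381 i365 i767 c548 (k1 c1548 k0)) (by decide +kernel)
def c1627 : PP 8 4 T 0x101002000000000000000000100000000000000010000000002000040010004050040 := rS 0xbc5fa99769436acd32a3359a4accb450316aa533a4e2c3d57ab5560969945123b628fde02d39965ca8f0b9d4624721910307d1007c380f (k8 c1360 c1605 i10 c1623 i1502 c1615 c391 i41 (k8 i1530 c481 i1499 i8 i725 c470 i603 i1092 (k8 c519 c1167 c494 c547 c443 i1342 i1229 c405 (k8 c56 c37 c34 c503 c1487 c1171 c436 c486 (k8 c1626 i728 c1624 c1625 i2297 i481 i1495 i467 (k8 i1647 i1938 c1329 i555 c1216 c1128 c1160 i1726 (k2 i2043 i1985 k0))))))) (by decide +kernel)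
def c1628 : PP 8 4 T 0x1002000000000000000000100000000000000010000000002000040010004050040 := rS 0x2e4cf161a8bd44938a1fa1a6565c101a575ac40fa4772880a64f56aacde61288c592333987c38432c910300f (k8 c1360 c1615 c391 i603 i41 c1605 i10 i1092 (k8 c1163 c407 c481 i1229 c384 c451 c37 c34 (k8 c19 c418 c1623 c470 i1530 i1502 c1627 c463 (k8 c64 i481 c77 c434 c75 c1566 c664 c379 (k8 c1162 i720 c480 i326 c510 c486 c487 c1594 k0))))) (by decide +kernel)
def c1629 : PP 8 4 T 0x101000000000000000050000000000000040000000000000002810440000006040000 := rS 0x11e758b8d4ae44 (k4 c391 i1578 i2099 c1584 (k2 c429 i1130 (k1 c1171 k0))) (by decide +kernel)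
def c1630 : PP 8 4 T 0x101002000000000000000000100000000000000010000000002000040000104050040 := rS 0x1ad3a642a8d4e88f66b0c8e512093d023d63b156e27188cce61f12964b85f4fa2cf6390124476f0898a14a1c06910300f (k8 c1360 c1615 c391 i482 c1605 i1382 c1628 c560 (k8 c1167 c443 i1168 c446 i2095 i1889 c744 c1586 (k8 c1139 c874 i603 i346 i10 i1092 c1163 c481 (k8 c54 i721 c547 c20 c1487 i1235 c19 i741 (k8 i1229 c1629 c1585 i1968 c1616 c1587 c544 c589 (k4 c493 i1592 c881 c1406 k0)))))) (by decide +kernel)
def c1631 : PP 8 4 T 0x1002000000000000000000100000000000000010000000002000040000104050040 := rS 0xb83224d2b1733b38d4bd618d5c89d829b48e692ba3d6a23429f4eb10069fca64f56aacde6163b1462d1648cce61f2ca7d167b1c809223b89a99665c1417c8818288707aaf1fbc0120f (k8 c1360 c56 c1167 c494 c503 c1487 c1605 i1229 (k8 c1615 c391 c1139 c1628 c874 i513 c1160 c560 (k8 c443 i1168 c446 i2095 i1889 c744 c1586 i603 (k8 i10 i1092 c1163 c407 c505 c481 c547 c20 (k8 c384 c451 c37 c34 c19 c418 i719 i482 (k8 c1630 c368 c433 c6 c454 c463 c416 c64 (k8 i1849 i224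 i515 c664 c335 c77 c453 c444 (k8 i1984 c1143 i2035 i547 c420 i1105 c1012 c532 (k2 c1138 i1026 k0))))))))) (by decide +kernel)
def c1632 : PP 8 4 T 0x101002000000000000000000100000000000000010000000002000040000004050040 := rS 0x1fd4656062d54aab28a245a732ca2cf639012447713143951e173a8c50ac56689de04721910307d1007c380f (k8 c1360 c1605 i10 c1631 i1502 c1615 c391 i41 (k8 i1530 c1167 c54 i729 c547 i1503 c481 i1499 (k8 i8 i725 c470 c1628 c560 c443 i1168 c446 (k8 i2095 i1889 c744 i603 i1092 c519 i1342 i1229 (k8 c37 c1626 i728 c1624 i481 i1647 i1666 c1573 k0))))) (by decide +kernel)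
def c1633 : PP 8 4 T 0x1002000000000000000000100000000000000010000000002000040000004050040 := rS 0x5da09847e869ae086d06a94aeb5881a4fa4742b94405c898a0b25f2191030b76289d8f457814c9ead558243e51408707a0f (k8 c1360 c1487 c1605 i1235 i1229 i10 c56 c37 (k8 c34 c19 c418 c1167 c1521 c20 c54 c547 (k8 i721 c1615 c391 i41 c1139 i603 c1628 c560 (k8 c874 c1631 c470 i1503 i1530 i1502 i1849 c1632 (k8 c463 c64 i1381 i481 i515 c77 c537 c1566 (k4 c664 c1143 c440 i1945 (k1 i926 k0))))))) (by decide +kernel)
def c1634 : PP 8 4 T 0x1000000000000004054000000004000040000000020000002000455000004000008 := rS 0x13a39 (k2 i195 i1552 (k1 i2035 k0)) (by decide +kernel)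
def c1635 : PP 8 4 T 0x101000000000000000010000140000000000100000000000442804040010124080040 := rS 0x835b96e24b313a298ecf368cd3e5f32239223b2c3446a553d8082c6b2101432c322b4ca25d188044a41 (k8 i741 i204 c536 i1532 i1844 i1229 c405 i226 (k8 c865 c391 c1274 c399 i1960 c461 c1298 c535 (k8 i703 i1117 i2797 c1373 i215 c1613 c507 c568 (k8 c489 i1187 i1546 i1699 i1029 i219 c1634 i3089 (k4 c1329 c744 i1883 i721 (k2 c579 i2038 k0)))))) (by decide +kernel)
def c1636 : PP 8 4 T 0x1000000000000000000000100000000000000000000100002000000020025000001 := rS 0x5f2da4484d1010584f13 (k8 c560 i48 c461 c1298 i2797 i999 c1613 i705 (k2 c489 c492 k0)) (by decide +kernel)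
def c1637 : PP 8 4 T 0x101000000000000000000000140000000000000000000000442804040000124090040 := rS 0x22c9f66a3d0a87359b4f6912a0d4b4c71cb4404440c44c50752bb15023d009e4ba41 (k8 i741 i1844 c586 c536 c1487 i1235 i1536 i1578 (k8 c429 c1635 c560 c1636 c391 c446 c505 i2095 (k8 i2104 i227 i2099 i225 c1613 i1889 i1695 i3129 (k4 i778 i1812 i1130 i770 (k2 c1586 c1171 (k1 c1564 k0)))))) (by decide +kernel)
def c1638 : PP 8 4 T 0x5101000000000000050044010154004000040550000000111542485555800004000140 := rS 0x13969e14559a9d6e985e2ee9ece5fd0d3a945a1a597042fa4582c52b835c80f (k8 c1360 c510 c4 i441 c41 c0 c1613 c489 (k8 c83 c197 c63 c664 c1202 c335 c580 i1455 (k8 i2035 c501 i1951 i1105 i1104 i887 c1134 i1413 (k4 c388 c449 i2038 c54 (k1 i705 k0))))) (by decide +kernel)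
def c1639 : PP 8 4 T 0x1000000000000000054000000004000040000000420000002000455000004000008 := rS 0xcf (k2 i1029 c1634 k0) (by decide +kernel)
def c1640 : PP 8 4 T 0x4101000000000000010044000154004000040040080000111442485555000024000140 := rS 0x2e5062e8ab4ca281489f582e4 (k8 c510 c0 i1233 c1613 i1235 i1229 c405 c36 (k4 i718 i923 i1142 c1638 k0)) (by decide +kernel)
def c1641 : PP 8 4 T 0x101000000000000000044000154100000850040000401101442485450000024800148 := rS 0x2ed4c99179ce9ece5fd0d3aa25a1a597042c9947297699445a9f48b458a7d6095c1ae48b8cc620f (k8 c1360 i2676 i192 c504 c510 c4 i441 c0 (k8 i1233 c41 i2797 c1613 i1187 i1001 i1229 c405 (k8 c869 i195 c1639 c568 c83 c197 c63 c664 (k8 c1145 c335 c580 i1719 i2035 c501 c1640 i1079 (k4 c870 c1454 i1950 c1134 k0))))) (by decide +kernel)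
def c1642 : PP 8 4 T 0x1000000000000000000000140000000080100000000000442104000000024080040 := rS 0x41adcb7125989da6513d908765f48b4404010b064ba41 (k8 i741 i1844 c391 c461 c536 c1298 i2797 c1613 (k8 c489 i215 c399 c535 i1229 c405 i3089 c1329 (k4 c744 i1883 i721 c579 (k1 i2038 k0)))) (by decide +kernel)
def c1643 : PP 8 4 T 0x101000000000000000054000000004000400000100000000002000544000104800000 := rS 0x60221ab3d3b16 (k4 c1171 c552 c420 i1117 (k2 c1286 i2035 (k1 i1571 k0))) (by decide +kernel)
def c1644 : PP 8 4 T 0x101000000000000000000000000000000000000100020011002000000000004000000 := rS 0xaf05 (k2 c75 i1579 (k1 c83 k0)) (by decide +kernel)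
def c1645 : PP 8 4 T 0x101000000000000000000000154000000010000000001000442401040010124080140 := rS 0x22061a1cac44f8c4ca9d67c58b28f1ca2c76c319b44ea352a8940416210648a81008fcba413fa958e6b (k8 i1961 i218 i1382 i719 i741 i1844 i216 c536 (k8 i1235 i226 c391 c399 c461 c1298 c590 i703 (k8 i1117 i2671 i2797 i192 c865 i215 c1642 i195 (k8 c1641 c507 c1171 c420 c552 c1644 i1002 c187 (k4 i2035 c41 i1803 i1804 (k2 c392 i2951 k0)))))) (by decide +kernel)
def c1646 : PP 8 4 T 0x101000000000000000001000014100201800000000000080102400000820006001140 := rS 0xa7b350ace619a570a28232dcabd4395468958bc4d92332c9122a0f (k8 c1360 c411 c391 i603 c1163 c407 c560 c504 (k8 i2762 i1130 i766 i931 i1991 c453 c197 c77 (k8 c1145 c1202 c63 i329 i1143 i1811 i1968 c501 (k1 c398 k0)))) (by decide +kernel)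
def c1647 : PP 8 4 T 0x101002000000000000000000100000000000000010000000002000040000104010040 := rS 0x6541146e5612f46acf8b23d827d861d45d454ea6136974fc61067b45a441a5a1d8e44a7319b446202220618ab7898a0d6c723a94a6af56aacde616987ca289408f4023f049e4ba12208709e0f (k8 c1360 c19 c1605 i741 c1633 i1844 c586 c56 (k8 i216 c536 c1487 i1235 i1342 i1229 i10 c405 (k8 c384 c451 c37 c34 c503 c418 i1382 c1637 (k8 i218 i1961 c1645 c560 i1929 i1842 c1636 c391 (k8 c446 c481 c505 c1163 i1092 i346 i2095 i2102 (k8 i227 i482 c1613 i1881 i1889 i775 c500 c1586 (k8 c869 c364 i2045 c393 c388 c870 c1596 c440 (k8 c57 c224 c1646 c1171 c420 c506 i1990 i2035 (k4 c444 i329 c77 c1145 (k1 c434 k0)))))))))) (by decide +kernel)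
def c1648 : PP 8 4 T 0x101000000000000000000000140000000000000000000000442804040000224090040 := rS 0xb7134317d223b4f8e62cc968a2d8ecd479ec2c0242914ea6d2a1098a811e804f25d2088c660f (k8 c1360 c1142 i46 i741 i1844 c586 c536 c1487 (k8 i1235 i1536 i1530 i1529 i3012 i2939 i224 i1503 (k8 c563 c375 c535 i2457 i2459 i219 c1642 i2797 (k8 i2776 c1171 i195 c275 i215 c1613 c1083 c1564 (k2 c32 i2462 (k1 c492 k0)))))) (by decide +kernel)
def c1649 : PP 8 4 T 0x101000000000000000000000154000000800100010001000442404040000224080040 := rS 0x16e268239add69042fa2cae554891484d14a80868190b1fda65144804ba4111964fa1f (k8 i10 i1502 c465 i46 i741 i1844 c536 i1342 (k8 i1229 c405 i2477 i725 i1131 i726 c1298 i2760 (k8 i2797 i999 i220 c1613 i704 i442 c1642 c489 (k8 c83 c664 i2483 i885 c1610 c579 i775 c492 k0)))) (by decide +kernel)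
def c1650 : PP 8 4 T 0x101002000000000000000000100000000410100000000000002500040000224080040 := rS 0x4604ea2669f984c54f8c53ab54da5d223b679a62a658b2950a2d688d608392a9d452020b15d16420c94cc2af56aaca2011f824f25d2093dca59199f43ec7 (k8 i218 i10 i1502 c1142 c465 c470 c19 i741 (k8 i1844 c586 c56 i216 c536 i1229 c37 c34 (k8 c503 c384 c418 c391 c399 c1642 i1498 c461 (k8 c1298 c1636 i1500 i704 i195 c83 i1116 i2797 (k8 i1001 i1504 c1626 c1171 c1644 c1548 c63 c168 (k8 i215 c1613 c869 c364 i728 c552 i1002 c187 (k8 i1803 i2035 c664 i2478 i720 i1954 c1042 c1532 k0))))))) (by decide +kernel)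
def c1651 : PP 8 4 T 0x101002000000000000000000100000000000000010000000002000040000004010040 := rS 0x4593e753da15223145b159a1889a1cb4281d9111e477288c405330abd5aab44a047a011f824f25d09104384f (k8 c19 c1605 i741 c1633 i1844 c586 c56 i216 (k8 c536 c1487 i1235 i1342 c37 c34 c503 c384 (k8 c418 c1647 i46 c470 c1648 c1649 c1650 i2102 (k8 i226 i227 c1563 c560 c1636 i1969 i3059 i3091 (k8 c481 i1168 i1503 c570 i1499 c1586 c1171 c1564 k0))))) (by decide +kernel)
def c1652 : PP 8 4 T 0x1000000000000040000000014000004010000000000000542080008000044000048 := rS 0x1885e2d (k4 i1001 i319 c1062 c1292 k0) (by decide +kernel)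
def c1653 : PP 8 4 T 0x1100000000000000154000000004000040000000040000002000455000004080008 := rS 0x22cce329ac729d (k4 c343 i195 i1960 c1639 (k2 i2035 c532 (k1 c420 k0))) (by decide +kernel)
def c1654 : PP 8 4 T 0x201100000000000000050000000004001040000000040100002080455050104080008 := rS 0x1132d89d84793a894f6392fa75928f (k8 c416 c459 c343 c489 i195 c535 c545 c368 (k4 c586 c1653 i1955 i705 (k2 c1462 c492 k0))) (by decide +kernel)
def c1655 : PP 8 4 T 0x1000000000000040880000000000000000000000000000002005000000004080000 := rS 0x29e8abc591b1e2c3 (k8 i142 c20 i219 i673 i674 c76 i1984 c449 k0) (by decide +kernel)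
def c1656 : PP 8 4 T 0x201000000000000000000000154000000010000000000000442804040000124090040 := rS 0x278dac7338cd26911db29a255148082c8b210646a4518b1456d30fa047a012e90446c947c14fe592895d6a7d (k8 c433 c463 c64 i1229 c397 i719 c664 c416 (k8 c459 c454 i741 i1844 c536 c1487 i1235 i10 (k8 c405 i901 i1536 i1532 i224 i207 c391 c399 (k8 c1642 c461 c1298 c1636 i703 i2797 i2037 i215 (k8 c1613 i1367 c1652 i1617 c1655 i1695 c1654 c275 k0))))) (by decide +kernel)
def c1657 : PP 8 4 T 0x1000000000000040800000000000000010000000080000002000000000004800040 := rS 0xbcc4b8 (k4 i546 i545 i2780 c1292 k0) (by decide +kernel)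
def c1658 : PP 8 4 T 0x201000000000000000000000154000000010100000000000442504040040124080040 := rS 0x9d0ef089278cec372314620d488ed9433688d472553d8a404164590832d300974828511b344b053f964a2575a9f58e0f (k8 c1360 i218 c433 c463 c64 i1229 c397 i719 (k8 c664 c545 c555 c454 c6 i741 i1844 c536 (k8 c405 c391 c399 c1642 c461 c1298 c1636 c535 (k8 i703 i195 i1117 i2797 i192 i2037 i215 c1613 (k8 i465 i1003 i1804 c77 c444 c1657 c1654 c1586 (k4 c349 c32 c54 i2032 k0)))))) (by decide +kernel)
def c1659 : PP 8 4 T 0x1002000000000000000000100000000000000010000000002000040000104010040 := rS 0x2e0cc2e8aa7d86353da61227319b4462027222d061862c4c1a5a140ed6e432231c8f053f94d5ead559bcc22b6987ca289408f4023f049e4ba12208709e752c9f56a5764a3e200f (k8 c1360 c1651 c416 c459 c64 c463 c433 c397 (k8 c368 c19 c1605 i741 c1633 i1844 c586 c56 (k8 i216 c536 c1487 i1235 i1342 i1229 i10 c405 (k8 i901 c384 c451 c37 c34 c503 c418 i719 (k8 c664 c1656 i218 c1658 i41 c1296 i2102 i226 (k8 i227 i482 c560 i1842 c1636 i775 i3091 c77 (k8 c446 c481 c505 c1163 i1092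 i1168 c1294 c570 (k8 c453 c444 c1586 c411 c870 c1653 c1180 i1137 k0)))))))) (by decide +kernel)
def c1660 : PP 8 4 T 0x1000000000000000000000000000000008000000000500002080000000004000000 := rS 0xb713 (k2 c32 i2462 (k1 c492 k0)) (by decide +kernel)
def c1661 : PP 8 4 T 0x1000000000000011000000000000001445005100000000002800010000204000001 := rS 0x13f16368c5ca33 (k4 c1142 c470 i1532 i3012 (k2 c510 c275 (k1 c1564 k0))) (by decide +kernel)
def c1662 : PP 8 4 T 0x1000000001000005000000000004001405005100000000002000114000004000000 := rS 0xc62e9c (k4 c1146 c1564 i1512 c510 k0) (by decide +kernel)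
def c1663 : PP 8 4 T 0x1000000000000001000001154000000401110100000014442104040000224080040 := rS 0xfecb518320a644f1548e872fa459ed11a8e4f6020b22c841928804f25d20b94660f (k8 c1360 c1142 c470 i741 i1844 c586 c536 i1229 (k8 c391 c399 c1642 c461 c1298 c535 i195 i1116 (k8 i2797 c168 c1613 c489 c1660 c1661 i704 c1662 (k4 c187 c75 c77 i1647 (k2 i465 i720 (k1 i2037 k0)))))) (by decide +kernel)
def c1664 : PP 8 4 T 0x1002000000000000000000100000000000000010000000002000040000004010040 := rS 0x2289886a44e6d18222d06180691cb4281dadc864472880aecd47ad446853e964eb103c9747e1200a0482510f870de0955ab55e4f3094c7a0f (k8 c1360 c1487 c418 c384 c19 c503 c34 c37 (k8 c56 c451 c1605 i10 i1229 i741 i1235 c536 (k8 c1633 i216 i1844 c586 c1651 c368 c397 c433 (k8 c6 c454 c463 c416 c555 c64 c1659 c470 (k8 c1663 i41 c1296 i2102 i226 i227 i224 i481 (k8 c1636 i775 i3091 c77 c505 i1092 i1168 c1566 (k2 c1294 c379 (k1 c411 k0)))))))) (by decide +kernel)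
def c1665 : PP 8 4 T 0x1000000000000000000000100000000000200000000500002000000000004000000 := rS 0xb713 (k2 c46 i1809 (k1 c492 k0)) (by decide +kernel)
def c1666 : PP 8 4 T 0x1001000000000000000000000800000000000000000000002000000000004040040 := rS 0x12d3 (k2 c496 i202 (k1 c1137 k0)) (by decide +kernel)
def c1667 : PP 8 4 T 0x1001000000000000000000001400440000000000000000002005540400004000142 := rS 0x2d8a348c263 (k4 i447 i961 c1137 c573 (k2 c556 c745 k0)) (by decide +kernel)
def c1668 : PP 8 4 T 0x1001000000000010000000141000001040105010000000002005440400004040042 := rS 0x39a0d6e60a22cc10394da663063469bd4e97 (k8 c869 c1666 c382 i964 i447 c401 c283 c394 (k8 c559 c1667 i1428 c371 i2041 c62 c81 i2631 (k1 i2045 k0))) (by decide +kernel)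
def c1669 : PP 8 4 T 0x21000000000000000000000000410000000500000000000002005000054014000000 := rS 0x16e1f (k2 c452 c541 (k1 i2031 k0)) (by decide +kernel)
def c1670 : PP 8 4 T 0x1001000000000010000000140000000040100010000100042105440044014040040 := rS 0x132894d980e45286a0e24512d8b4724250808820153814f22f3d85832a94b8a4be91 (k8 c1613 c489 c874 c869 c583 c391 c461 i713 (k8 i1080 i972 c1274 c1666 c1668 c815 c410 c1507 (k8 c399 i194 i1001 i706 i439 c492 c579 c1669 (k4 c427 c528 c593 i1179 (k2 i1278 i1021 (k1 i2034 k0)))))) (by decide +kernel)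
def c1671 : PP 8 4 T 0x21000000000000000000000000400000000500000000000002005000054014000000 := rS 0xa1 (k2 c25 c1669 k0) (by decide +kernel)
def c1672 : PP 8 4 T 0x101000000000000000001000000000010000000000004001802810011500004000010 := rS 0x14a9319ae596643f96146d2449822a72 (k8 c528 c36 c593 i1278 c548 c69 c1373 c576 (k4 c568 i622 i1142 i1546 (k2 i1550 i209 (k1 i2033 k0)))) (by decide +kernel)
def c1673 : PP 8 4 T 0x1000000000000000001000000100010010000080004020002000015500004000000 := rS 0x24d72643fa8da515 (k8 c36 c548 c69 c576 c568 i1142 i1550 i2033 k0) (by decide +kernel)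
def c1674 : PP 8 4 T 0x101000000000000010000000100000000840100010000100042100040000114050040 := rS 0xb9499b15a6b82194b25734a941ace720cc8e9d51a3186d24c0c592392a8945ac101109429500a262a415a980e45286a0cdf124d944b66359ab8529f2fa5d223d1d8ad8e27628fde0a77e8145e350b0662e0f (k8 c1360 c504 c391 c461 i1117 i1080 c1274 c1664 (k8 c1666 c1167 c494 c547 c54 c20 c467 c443 (k8 c1487 c1613 c869 c489 i1187 c874 c1670 i100 (k8 i539 i1923 i499 c868 c492 c372 c579 c1671 (k8 c427 c528 c593 c562 i2575 c36 i1278 i2631 (k8 i1103 c1507 c399 c410 c311 c1105 c590 i703 (k8 i194 i2776 i2676 i2034 c548 c865 i1020 c69 (k8 i3106 c1672 i192 c510 i2035 c4 c484 i1833 (k8 i441 c1673 i1025 c833 i1965 c488 c1143 i1281 (k2 c810 c1455 k0)))))))))) (by decide +kernel)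
def c1675 : PP 8 4 T 0x1001000000000020000000101000000000000000000000002000000000004040050 := rS 0x18e2a004b1840690 (k8 c479 i1161 i1165 c1282 c410 c571 i447 c573 k0) (by decide +kernel)
def c1676 : PP 8 4 T 0x101000000000000000000000100000000040100010000100042100040000114050040 := rS 0x729f4c1d6331520980e45286a0e249b2c944b745598a51eae1e8ec56271fbc14e160c97d229768aa40afd (k8 c1664 c1274 c583 c1675 c869 c1282 c489 c391 (k8 c461 c1666 c1167 c494 c54 c467 c443 c1487 (k8 c1670 c1674 c874 i100 c468 i1923 i499 c507 (k8 c868 c492 c579 c1671 c427 c528 c593 i2575 (k4 c36 c1499 c1516 c85 (k2 i2699 i1936 (k1 c1520 k0))))))) (by decide +kernel)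
def c1677 : PP 8 4 T 0x1000000000000000000000000400440000000000004000202025540400004000200 := rS 0x2282d30878de00 (k4 c815 c382 i1309 i1311 (k2 i2849 c1225 (k1 c745 k0))) (by decide +kernel)
def c1678 : PP 8 4 T 0x4101000000000000000000000000010000000050000010010042800000000554000204 := rS 0x146b55595190571299e0aa9 (k8 c583 c425 i1618 i205 i1577 c532 c83 i583 (k2 i767 i201 (k1 c1446 k0))) (by decide +kernel)
def c1679 : PP 8 4 T 0x1001000000000000000000001400440000000000005000002005540400004000200 := rS 0x5b14 (k2 c573 i1263 (k1 c745 k0)) (by decide +kernel)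
def c1680 : PP 8 4 T 0x101000000000000010000001000055000040850001010210002000040000554800002 := rS 0x1a592cf339acaa30728cd9a241aa34f20f (k8 c1360 i972 i1845 i1117 c1446 i894 c395 c475 (k8 i861 i764 c881 i450 c168 c431 i1850 i2042 k0)) (by decide +kernel)
def c1681 : PP 8 4 T 0x4101000000000000000100000000000000004000000110200002400000001504050002 := rS 0x2086a33835c80f (k4 c1360 c392 c4 i449 (k2 c754 c532 (k1 c537 k0))) (by decide +kernel)
def c1682 : PP 8 4 T 0x101000000000000000000000100000000040100010000000042100040000114050040 := rS 0xd5046799dca3312324d2ada1ad0c0cb5191d047d3f87e18b7289b446a1a2a1e2e65042b91c63149640003200e5369d4f94d1a438c44cb83d1d8ad8ec51fa9cf22f3d89de0350b065229768aa40afd (k8 c1664 c1274 c583 c1675 c869 c1282 c391 c461 (k8 i1117 c1167 c54 i713 i1080 i972 c1666 c494 (k8 c547 c20 c467 c443 c1487 c1676 c65 c1277 (k8 i443 i1845 i571 c1586 c393 c394 c559 c399 (k8 i999 c815 i2595 i186 i447 c1465 c1668 c1667 (k8 i1025 c504 i931 c468 i197 c1445 i516 c1677 (k8 i1931 c427 i183 c773 c57 c1671 c1678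 i200 (k8 i1388 c1679 c1680 c580 i1287 c933 i1127 c1681 (k4 c395 c475 i450 c168 (k2 c532 i2042 (k1 c537 k0))))))))))) (by decide +kernel)
def c1683 : PP 8 4 T 0x101000000000000000000000100000000040000010000000042100040000114050040 := rS 0x140106329800803921c60b89b89a00be914b8f4763f539e45e7b0b0644ef068aa40afd (k8 c1664 c1274 c583 c1675 c1167 c54 c391 c461 (k8 i713 i1080 i972 c1666 c494 c443 c1487 c869 (k8 c1282 c489 c1682 c46 i1337 c1665 c500 i443 (k8 c559 c399 c815 i2575 i447 c1667 c765 c1677 k0)))) (by decide +kernel)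
def c1684 : PP 8 4 T 0x101000000000000000000000100000000000000010000000042100040000114050040 := rS 0x4ca5d129b301c8a50d41c49022948944ba2d1c90804412d804be8d45345523d1d8ac7ea77e8145e7b0b0644ef0 (k8 c1167 c54 c391 c461 i713 i1080 c1274 c1664 (k8 c1666 c494 c467 c443 c1487 c583 c1675 c1683 (k8 i76 c517 i451 i1883 c815 c410 c399 i194 (k8 i1001 i443 i439 c1613 c874 c1665 c492 c579 (k8 c1671 c427 c528 c593 i1179 i1278 i1283 i1020 (k1 i2034 k0)))))) (by decide +kernel)
def c1685 : PP 8 4 T 0x1000002000000010000000000400040840500010000000082101040010014000000 := rS 0x3e8956aad18a48cca830ab8b472690b56d0d1589c7e050b064dea10fa753e9b1cc611a6500100867f (k8 i2516 i701 c399 c815 i2634 i964 c401 c559 (k8 c394 c39 c393 i1270 c1151 c483 c391 c461 (k8 c1274 c494 c54 c467 c1671 i2031 c1105 c600 (k8 c1567 i761 i762 i960 i758 c1285 i576 i1506 (k4 i1622 i1368 i861 i1273 (k1 c1435 k0)))))) (by decide +kernel)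
def c1686 : PP 8 4 T 0x101001002000000010000000100000000040000010000100082101040000114040040 := rS 0x57aa4b47389add048e1ca7d3a918c25c76c7628fd4e79179ec2c191397d0229468008043 (k8 i701 c399 c815 i964 i186 i1275 i909 c54 (k8 c391 c461 i713 i1080 i972 c1666 c494 c547 (k8 c20 c443 c869 c401 c1613 c393 c39 c559 (k8 c1465 c1685 i103 c579 i923 c492 c577 i1922 (k1 c1668 k0))))) (by decide +kernel)
def c1687 : PP 8 4 T 0x1000000000000000000000000400002000100010000000082005000054054000000 := rS 0x41add2ca1 (k4 c1151 c1282 i2518 i1375 (k1 i2031 k0)) (by decide +kernel)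
def c1688 : PP 8 4 T 0x4101000000000000010400000001010000040850001010210002800040000554800206 := rS 0x51ad556546415ccf054ea7e308d (k8 i964 c401 c39 c393 c425 i1618 i1577 c532 (k4 c83 i583 i768 i201 (k1 c1680 k0))) (by decide +kernel)
def c1689 : PP 8 4 T 0x101000000000000000000000100000000000000010000000002100040000114050040 := rS 0x6a8233ccee519891926956d0d68a3239f618cb1618010a93688ce67f32a1e2e82472dc729b4fa74b9184bb45228b468a4b20001900c6810f90d4251379386a3d1d8ad8e27628fde0a77e8bc2c19 (k8 c391 c461 i1080 c1664 c1666 c1167 c494 c547 (k8 c54 c20 c467 c443 c1487 i1117 c1684 c483 (k8 i52 c1151 i701 i1270 i1275 i1350 c399 i999 (k8 c815 i2595 i186 i964 i451 c1687 c479 c869 (k8 c401 c1686 c393 c39 c394 c559 i1931 c1465 (k8 i2031 c504 i931 i2634 i2516 i923 c1445 i516 (k8 c577 c1667 c1679 i960 i1392 c1105 c57 c1688 (k8 i200 c1680 c580 i1288 c933 i1127 c1681 c395 (k4 c475 i450 c168 c532 (k2 i2042 c537 k0)))))))))) (by decide +kernel)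
def c1690 : PP 8 4 T 0x101001002000000001000001100000000041000110000114042101040000014040040 := rS 0x50d72aa499b15a69821acaa9532c5d1c8c4fa60722d01109420144c5482603914a1a83439be249b2896d66ae408a4762b138fd4e2f0b064be914bb455205 (k8 c1274 c583 c1675 c869 c1282 c489 c391 c461 (k8 i1080 c1666 c494 c54 c467 c443 c874 c1665 (k8 c1670 i100 i1923 i499 c868 c492 c372 c32 (k8 c579 c1671 c427 c528 c593 i2575 c36 i1278 (k8 i2631 c1507 c399 c410 c1105 i194 i2034 i2699 (k8 i1020 c1520 c504 i1025 i1103 i2457 i1965 c83 (k8 c63 c488 i2039 i1281 i593 c810 c439 c472 k0))))))) (by decide +kernel)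
def c1691 : PP 8 4 T 0x101000000000000000000000100000000040000010000000042100040000014050040 := rS 0x19e6b6499c6a650623c009d239013e6d34a3487132e2452e3d3c9ec2ce52c8cd6acd13a158af02b9d4401968aa40afd (k8 c1664 c1274 c583 c1675 c391 c1689 i1500 i1498 (k8 c1167 c547 i1503 c54 i729 i727 c1142 c465 (k8 c470 c461 i713 i972 c1487 c869 c1282 c1690 (k8 c65 i443 i1845 i1849 i515 c1586 c399 i1530 (k8 c335 c815 i2497 i744 i963 c601 i450 c459 (k2 i467 c168 (k1 i2042 k0))))))) (by decide +kernel)
def c1692 : PP 8 4 T 0x101000000000000000000000100000000000000010000000042100040000014050040 := rS 0x4ca5d129b301c8a50d41c49228114944ba2d1c90804412d804be8d45345523d1d8ac7ea77e8145e7b0b0644ef0 (k8 c1167 c54 c391 c461 i713 i1080 c1274 c1664 (k8 c1666 c494 c467 c443 c1487 c583 c1675 c1691 (k8 i76 c517 i451 i1883 c815 c410 c399 i194 (k8 i1001 i443 i439 c874 c1665 c1613 c492 c579 (k8 c1671 c427 c528 c593 i1179 i1278 i1283 i1020 (k1 i2034 k0)))))) (by decide +kernel)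
def c1693 : PP 8 4 T 0x101000000000000000000000100000000000000010000000002100040000014050040 := rS 0x54abce65a2eadcd88689a7da29d679acd30548c59926745a346a6506150528f0011c80810f90c9c752ba159a3372880f62f3c858323d1d8ac4ec51fbc14efd (k8 c1664 c1666 c1167 c494 c547 c54 c467 c443 (k8 c1487 c391 c461 i972 i1080 i713 c1689 c470 (k8 c1142 i729 i1503 i1498 i1500 c1692 i701 i1270 (k8 i1275 c399 i1530 c815 i2497 i186 i743 i744 (k8 i963 c601 i964 i451 i450 c459 c1171 c1687 (k8 c49 i1495 i467 c168 c343 c479 c187 c1463 (k8 c1564 i2042 i2519 i515 i1698 c1289 i1922 c577 (k1 c1668 k0)))))))) (by decide +kernel)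
def c1694 : PP 8 4 T 0x801001000000000010000000000400001840100000000100042205000054014801040 := rS 0x564dab4c25086a0ca62f549ecf287378b5a4092395592040190c020f (k8 c1360 c569 i41 i999 c410 i611 i766 c720 (k8 i223 c1137 c556 i968 i931 c586 c570 c583 (k8 c957 c1173 c579 c1671 c427 i1311 i1314 c364 (k2 c333 c330 k0)))) (by decide +kernel)
def c1695 : PP 8 4 T 0x1000000000000000001001010140000800000000008008002400000000004001140 := rS 0x55b2d2a0f (k4 c1360 i1103 i506 i538 (k1 c1145 k0)) (by decide +kernel)
def c1696 : PP 8 4 T 0x1000000000000101001000000000010000000100400000840000010000100042205440054114800040 := rS 0x5c1fd68a57208cacad281c8c46186c555e831ca6cb51889b248e043780c860129895462f54b045ad2049ecf2812fa5d220d8b994b20f (k8 c1360 i603 i1025 c504 i482 c1613 c869 c1139 (k8 c1665 c586 c570 i223 c1137 c556 c539 c583 (k8 c957 c956 i346 c1173 c569 i41 i999 i968 (k8 c410 c720 i611 c1694 c500 c492 c394 c559 (k8 i775 i1923 c745 c1671 c678 c573 c379 c427 (k8 c226 c333 c1193 c392 c484 c1695 i102 c1368 (k1 i1142 k0)))))))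 (by decide +kernel)
def c1697 : PP 8 4 T 0x1000000000000000401000010040000000000000000000202400000000804001140 := rS 0x1560f (k2 c1360 c1192 (k1 c1191 k0)) (by decide +kernel)
def c1698 : PP 8 4 T 0x1000000000000000000000000000000000800000000500042000000000004000000 := rS 0xb713 (k2 c579 i775 (k1 c492 k0)) (by decide +kernel)
def c1699 : PP 8 4 T 0x1000000000000101001000000000010050000100000000840000010000100042205440044114040040 := rS 0x41194ad72aacaa471a08992180b90546c169024a10d418a5025f5394c1a0f (k8 c1360 i482 c1173 c1666 c1139 c1665 c874 c1698 (k8 c1671 c427 i223 c1137 c539 c956 i42 c1696 (k8 c461 c407 i1131 i1130 c1629 i766 c1192 c453 (k4 i1314 c1191 c77 c434 k0)))) (by decide +kernel)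
def c1700 : PP 8 4 T 0x101000002000000010004000000000001440001000000010002010040010104840000 := rS 0x2a1b0c89e438e467124645a32751db1d8a7b (k8 c570 c547 c20 c443 c1516 c1499 c1171 c401 (k8 c500 c389 i1813 c32 c1643 c187 c275 c1644 (k1 i1697 k0))) (by decide +kernel)
def c1701 : PP 8 4 T 0x1000000000000101001002000000010000000100000000040000010000100042201040000114040040 := rS 0x196ab301fe0aad4cae4c8562a98c8e7444808e6180ba3d860d1db1d8a4112965462f548b5a4093cabca10d418a5025f538fc4e2b29a5d220f (k8 c1360 c1613 c869 c1173 c467 c54 c494 c1666 (k8 c1139 c1665 c874 c1698 c1671 c427 i499 c586 (k8 i223 c1137 c556 c583 c957 c956 i603 i346 (k8 i42 c547 c20 c443 i482 c865 c1699 c1700 (k8 c461 c968 c446 i231 c1568 c1629 c687 c589 (k8 c429 c493 c581 c283 i1314 c75 i2996 c1454 (k2 i498 i1391 (k1 c1177 k0)))))))) (by decide +kernel)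
def c1702 : PP 8 4 T 0x1000000000000000000000000000000800000000000000002200000000204000000 := rS 0x1406340b10c020f (k8 c1360 c569 i41 i725 i726 i999 i354 c410 k0) (by decide +kernel)
def c1703 : PP 8 4 T 0x101000000001000011000000000000001445001000000000002600000000004800000 := rS 0x278cb16821d41a4320964f60f (k8 c1360 c570 i603 i42 i41 c352 c1516 c77 (k4 c1171 c75 c1564 c187 k0)) (by decide +kernel)
def c1704 : PP 8 4 T 0x1000000000000101001002000000010000000100000000040000010000100042201040000014040040 := rS 0x2a1b0c89e8b1d462180ba3d0e4742b35ca204889d8a432c9ecf20f (k8 c1360 c586 c570 i603 i41 c547 c54 c1613 (k8 c1701 c470 i729 i1503 i1530 c1563 c1702 c1703 (k8 c461 c481 i1499 c1171 c1564 c187 c275 c1644 (k1 i1697 k0)))) (by decide +kernel)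
def c1705 : PP 8 4 T 0x1001000000000020000000101000000000000000000000002000000000004040040 := rS 0x5 (k2 c1141 c1675 k0) (by decide +kernel)
def c1706 : PP 8 4 T 0x101000000000000000000000000000001800000000000210002400000001006051000 := rS 0xd48434b94aa3443c4d920f (k8 c1360 c407 c65 i931 i1130 i766 c453 i1850 (k2 c735 c754 (k1 i1869 k0))) (by decide +kernel)
def c1707 : PP 8 4 T 0x101000000000000000000000000000001040000000000200002200040000106050000 := rS 0x13acf1a9d11ec306894b29f898c466476290476c7780e4f60f (k8 c1360 c570 i235 c1167 c20 c443 i42 c547 (k8 c1629 c1163 c481 c65 c1586 i603 i346 i482 (k4 c1585 c1706 c1587 c544 (k2 c74 i1592 (k1 i2035 k0))))) (by decide +kernel)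
def c1708 : PP 8 4 T 0x11000002000000000000000000410440010000050000000002001140510014000000 := rS 0x4c1b8763f (k4 c494 c443 c1567 i2034 (k1 c597 k0)) (by decide +kernel)
def c1709 : PP 8 4 T 0x401000000000000000000000000000801000004000000000002000000000004000000 := rS 0xf319 (k2 c394 c498 (k1 c500 k0)) (by decide +kernel)
def c1710 : PP 8 4 T 0x401000000000000001000000000000000000140000004020000000000000000002000000000004000000 := rS 0x17f43 (k2 c66 i1725 (k1 c485 k0)) (by decide +kernel)
def c1711 : PP 8 4 T 0x101000000000000000000000100000000040000010000000042000040000014050040 := rS 0x9552af5309b5dd3d84b91aa4d9e9d8b1a4ea8f428807289198c53e188996d225c4b9ec7a3b63b147ef053a8c5f45608b5a4092234552fd (k8 c1664 c583 c1705 c1693 i223 c1137 c556 c539 (k8 c1521 c957 c956 c1666 c1167 c494 c547 c20 (k8 c443 c1487 c570 c869 c1704 c1282 i55 c65 (k8 c768 c1586 c481 c1163 i231 i235 c1707 i1503 (k8 c1702 i1499 i1849 c1171 c335 c420 c436 c506 (k8 c487 i2035 c428 i1944 c1709 i2034 i1990 c996 (k2 c1710 i2033 k0))))))) (by decide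 +kernel)
def c1712 : PP 8 4 T 0x1000000000000001001000000000000000000100400040080000000000100042205000044014040000 := rS 0xe6624cac95e5086a0d02292f94e3291 (k8 c1282 c40 c1173 c1139 c874 c1665 c1698 c1671 (k4 c427 i499 c371 i1938 (k2 i553 c1523 (k1 c687 k0)))) (by decide +kernel)
def c1713 : PP 8 4 T 0x101000000000000000000000100000000000000010000000042000040000014050040 := rS 0x1133d97123193ca5d14d1a2825523d1589c7ef0538bc88fd (k8 c1664 c1693 c957 c1666 c1167 c494 c54 c467 (k8 c1487 c583 i223 c1521 c1705 c1711 c1309 c438 (k4 c40 c1282 c1712 c524 (k2 c65 c500 k0)))) (by decide +kernel)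
def c1714 : PP 8 4 T 0x1000000000000010000000000000000040000000000000002000200000004040000 := rS 0x11b19 (k2 c559 i1813 (k1 c401 k0)) (by decide +kernel)
def c1715 : PP 8 4 T 0x1000000000000000000000000000000000000080000000082200000400004000000 := rS 0x501aa03201 (k4 c569 i1091 i758 i220 (k2 c1147 c410 k0)) (by decide +kernel)
def c1716 : PP 8 4 T 0x1000002000000010000000000410040040500050000000082001140110014000000 := rS 0x269670d1589c7e6f (k8 c483 c494 c54 c467 c1671 i1429 c1567 c868 k0) (by decide +kernel)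
def c1717 : PP 8 4 T 0x101000000000000000000000100000000040000010000100002000040000014050140 := rS 0x8a9855e9b2d44d6e8216d15a43d1d8fde0a750a04c67b1ca452ed1549cc9c2f7e8a4be44 (k8 c1693 c1139 c874 c1664 c957 c1713 c1715 c577 (k8 c1705 c869 c1282 c1714 c570 i1350 i1275 c1156 (k8 c1666 c1167 c494 c443 c1487 c1137 c1521 c556 (k8 c1716 i103 c579 c492 c1709 i1922 c678 c745 (k1 c573 k0))))) (by decide +kernel)
def c1718 : PP 8 4 T 0x101000000000000000000000100000000040000010000100002000040000014050040 := rS 0x820f0b410291ebc14e012fa8502971cb455273270bc88fd (k8 c1664 c1693 c957 c1713 c1715 c577 c1705 c1714 (k8 c869 i1275 c1156 c1139 c569 c1666 c1167 c1487 (k4 c874 c1717 i1264 i222 (k2 c1716 i1436 k0)))) (by decide +kernel)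
def c1719 : PP 8 4 T 0x101000000000000000000000100000000040000010000000002000040000014050140 := rS 0x1774f4a309723549b3e2cbd4e9fcea8f3ead5190c100cc622d60ab83145690f476c7628fde0a7509bc725b599453e9b89971229768aa4e64e17911fa7b (k8 c570 c1664 c1693 c957 c1713 c1715 c577 c1705 (k8 c869 c1282 c1718 c65 c1709 c1586 i52 i513 (k8 i55 c1714 c483 c1156 c1666 c1167 c494 c547 (k8 c20 c443 c1487 c1137 c1521 c768 c1160 c539 (k8 c556 c481 c1163 c1707 c1343 c1206 i727 i1501 (k8 c1702 i1499 c408 i3106 i3144 c1171 c420 c436 (k4 c506 c487 i2035 c1138 (k2 c428 i1944 (k1 c1710 k0))))))))) (by decide +kernel)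
def c1720 : PP 8 4 T 0x101000000000000000000000100000000040000010000000002000040000014050040 := rS 0x21b150f0b4109b8997122394b9ec7a3b1fbc14e0137b455273270bc88fd (k8 c1664 c1693 c957 c1713 c1715 c577 c1705 c483 (k8 c569 c1666 c1167 c494 c443 c1487 c570 c869 (k8 c1714 c1282 c1718 c65 c1709 c1719 i1264 i222 (k2 c745 c452 (k1 c379 k0))))) (by decide +kernel)
def c1721 : PP 8 4 T 0x1000000000000000004000000000001880000000000080002200000000006051000 := rS 0xd647349b4aa3432a7d8ec578165920f (k8 c1360 c407 i603 c1167 c547 c20 i1187 i1025 (k4 i1130 i766 i556 i1888 (k2 i2099 i1963 (k1 c1143 k0)))) (by decide +kernel)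
def c1722 : PP 8 4 T 0x101000000000000000001100000040015090000100000080002200040510146050000 := rS 0x2e46a9e47a95860d1db1d8af0128c4660f (k8 c1360 c1163 c481 i346 c1167 c547 c20 c443 (k8 i482 c865 c198 c1721 c1559 i1183 i1190 i2033 k0)) (by decide +kernel)
def c1723 : PP 8 4 T 0x901000000000000000000000100000000000000010000100002000140000014050140 := rS 0x7e55ae4da0d8b27cae8f3e91d6a200c05ceabd3d22526952d4516d0d41a1c56272194d4259519bca2811497d22d1549cc5e44a287d5c3d59a28c64e1fbc14ec116b49fa0f (k8 c1360 c1664 c1137 c556 c539 c1666 c1167 c494 (k8 c1713 i1350 c1720 i553 c1487 c1160 i1269 c1521 (k8 c1693 c957 c1715 c577 c1705 c1613 c1139 c874 (k8 i1275 i52 c483 c956 i603 c1156 c1173 i41 (k8 c54 c467 c32 c579 c1671 i2031 c379 i761 (k8 c386 c12 c518 i1883 i3143 c818 i714 c461 (k8 c1722 i727 i1530 i1501 c1702 c1216 c1551 c1171 (k4 i481 i556 c487 c1212 (k2 c1138 c748 k0))))))))) (by decide +kernel)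
def c1724 : PP 8 4 T 0x101000000000000000000000100000000000000010000100002000140000014050140 := rS 0xc35f8355b4e3595d1e7d23b356a203aa4d2a89198c6281886a157a1743a0cb47a898ac4e4312a8cde51408a4be9168aa4e62f2207d5c3d59a28c64e1fbc14ec116b49fa0f (k8 c1360 c1664 c1137 c556 c539 c1666 c1167 c494 (k8 c1713 i1350 c1720 i553 c1487 c1160 i1269 c1693 (k8 c957 c1715 c577 c1705 c1613 c1139 c874 i1275 (k8 i52 c483 c956 i346 i41 c54 c467 c1723 (k8 c744 c492 c424 c430 i714 i3143 i3104 c1671 (k8 c461 c379 c481 c1163 i231 c386 c12 c681 (k8 c1722 i727 i729 i1530 i1501 c1702 c1216 i1962 (k4 c398 c831 i481 c471 (k2 c428 c918 k0))))))))) (by decide +kernel)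
def c1725 : PP 8 4 T 0x101000000000000000000000100000000000000010000100002000040000014050140 := rS 0x20d6f122d9ec2c030c8e03e3d1589c7ef053a8502798ca28525f48b455273270bc88fd (k8 c1664 c1693 c957 c1713 c1715 c577 c1705 c1613 (k8 c1139 c874 c1720 c40 c438 i1275 c1156 c1666 (k8 c1167 c494 c54 c467 c1487 i1269 c1724 i234 (k8 i194 c461 i713 c1295 c500 i761 c579 i2031 k0)))) (by decide +kernel)
def c1726 : PP 8 4 T 0x1000000000000000004000000000001880000000000000002200000000006051000 := rS 0x2086a23b94d26d1a1953ec762bc0b20f (k8 c1360 i603 c1167 c547 c20 i1187 i1025 i1130 (k4 i556 i1888 c453 i2099 (k2 c1143 c77 (k1 c537 k0)))) (by decide +kernel)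
def c1727 : PP 8 4 T 0x101000002000000000004000000004000400004000000000002000144010106000000 := rS 0x4eb3c6a741db1d8a31 (k8 c481 c547 c20 c443 c1559 c544 c74 i1592 (k1 i2035 k0)) (by decide +kernel)
def c1728 : PP 8 4 T 0x400000000000000001000000000000000001050000040814010000000000000002004015500004000000 := rS 0x2917b45 (k4 c419 i1417 i2033 c996 k0) (by decide +kernel)
def c1729 : PP 8 4 T 0x101000000000000000001000000040815090004000000000002200144510106050000 := rS 0x3ac5d70bb1ad3d3c8f61834763f78094620f (k8 c1360 c481 i346 c1167 c494 c443 i482 c865 (k8 c1726 c1727 c529 i1183 i1685 c1728 c487 c581 (k1 c1171 k0))) (by decide +kernel)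
def c1730 : PP 8 4 T 0x101000000000000000001000000040815090004054000000002200144510016050000 := rS 0x2f53cb98b1d51e7d66ad4408543c484ef03cc646345 (k8 c419 c481 c40 c438 c1167 c54 c500 c32 (k8 c376 c1729 i727 i729 i1501 c1702 i1499 c1171 (k4 c487 c1564 i1417 c1551 k0))) (by decide +kernel)
def c1731 : PP 8 4 T 0x101000002000000004004000000004000401000000000000002000144010106000000 := rS 0x2746a741db1d8a31 (k8 c481 c547 c20 c443 c1559 c544 i1591 i2035 k0) (by decide +kernel)
def c1732 : PP 8 4 T 0x1000002000000000001100000048814010000000000000002000005500004000000 := rS 0x172bb1ad3c763f (k4 c494 c443 c529 i1183 (k2 i1685 i1190 (k1 c1728 k0))) (by decide +kernel)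
def c1733 : PP 8 4 T 0x101000000000000004000000000004001081000000000000002200144010106050000 := rS 0x11ec306bc04a0f (k4 c1360 i346 c1167 i482 (k2 c865 c1726 (k1 c1731 k0))) (by decide +kernel)
def c1734 : PP 8 4 T 0x101001000000000000001000500440815090000054000000102200144510016050000 := rS 0x7e55ae41b162b9d51e7d23ad4406d4fa157acf2d1e95d457810ca631 (k8 c481 c1173 i41 c1167 c419 c371 c1730 c551 (k8 c1144 i3143 i3104 c1732 i556 c1733 i727 i1530 (k8 i1501 c1702 i1499 c1216 c1171 i481 c487 c1212 (k2 c1138 c748 k0)))) (by decide +kernel)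
def c1735 : PP 8 4 T 0x101000000000000000000000100000000000000010000100002000040000014050040 := rS 0x12e9b49a5512331c862280260c340a1e1682122291e8ec7ef053804bea337945a2a9398bc88fd59a28c64e (k8 c1713 i1350 c1720 i553 c1664 c1693 c957 c1715 (k8 c577 c1705 i52 c483 c956 c1139 c569 c1666 (k8 c1167 c494 c443 c1487 c874 c1613 c1725 i1264 (k8 i222 c1004 c452 i2831 c410 c379 i220 i194 (k4 i2094 i2093 c386 c12 (k2 c1734 c571 (k1 c745 k0))))))) (by decide +kernel)
def c1736 : PP 8 4 T 0x101000000000000000000000100000000000000010000000002000040000014050040 := rS 0x1862a964844cf65c452a4e663270bc88fd (k8 c1664 c1693 c957 c1713 i1350 c1715 c577 c1720 (k8 c1735 c524 c65 c744 c1282 c571 i1283 c573 k0)) (by decide +kernel)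
def c1737 : PP 8 4 T 0x1001002000000000000000100000001440000110000100042101040000014040040 := rS 0x13319301c93c5289144b74586ab9063b1589c7ea70b0652e39688a5025f (k8 c489 c1665 c874 c479 c1714 c869 c391 c461 (k8 c1666 c494 c54 c467 c443 c1698 c1670 c1671 (k8 c468 i1923 i499 c492 c427 c1520 c528 c593 (k2 c39 i2699 (k1 c1523 k0))))) (by decide +kernel)
def c1738 : PP 8 4 T 0x1001002000000000000000100000001441000110000100002101040000014040040 := rS 0x541cd5e675b9510c5a4fa7627184680080432720452392fb4476c7628fcf22f3d8583227 (k8 c54 c391 c461 i713 i1080 i972 c494 c547 (k8 c20 c443 c479 c489 c1714 c874 c1665 c1737 (k8 i701 c399 c815 i964 c401 c1464 c393 c39 (k8 c492 c1467 i777 i2519 c1155 i1922 c1289 c1668 (k1 c577 k0))))) (by decide +kernel)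
def c1739 : PP 8 4 T 0x1001002000000000000000100000000441000110000100002101040000014040040 := rS 0x1e270a502a82d341202b138fd4e05 (k8 c1274 c1666 c494 c54 c467 c1738 c1613 c549 (k4 c1675 i1809 i1805 c583 (k2 c1687 i1270 k0))) (by decide +kernel)
def c1740 : PP 8 4 T 0x401000000000000001000000000000000000140008000000000000001000000002000000000004000000 := rS 0x17f43 (k2 c439 i1721 (k1 c485 k0)) (by decide +kernel)
def c1741 : PP 8 4 T 0x1001000000000000000001100000401448010111000200042025440044014840040 := rS 0x5624956bd5dd15047f572652a735bc3102602882152a73c8bcf6971cb44a6293798c014f (k8 c67 c815 i447 c382 i186 i2575 c533 c1714 (k8 c869 i713 i1080 i972 c1666 c583 c1667 c1677 (k8 c1679 c765 c427 i1931 i2631 i2632 i2633 c1668 (k8 c408 c1671 c864 i1683 i1415 c1740 c1208 i1281 (k1 c1119 k0))))) (by decide +kernel)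
def c1742 : PP 8 4 T 0x1000000000000000000000100000000040000010000000002100040000014050040 := rS 0x1589255aecff0c16254c00854ab97a73a2a0966b74087d42512753cc66f430a4a6004da453e9d200e52f18369a486d18996cb83d1d8ad8e27628fde0a77e9d4fa855aa3caf103c8bc2c19 (k8 c391 c461 i1080 i972 c1736 c64 c416 c463 (k8 c6 c433 c368 c1664 c1666 c1167 c494 c547 (k8 c54 c20 c467 c443 c1487 c1739 i55 c65 (k8 c533 i443 i1849 i515 c1277 c869 c1714 c399 (k8 c335 c275 c530 c394 c815 i2575 i186 c1467 (k8 c382 i447 c67 c1741 i52 c1151 i1270 i1275 (k8 i761 i1430 i2031 c81 i923 i1415 c371 c577 (k8 c1667 c1679 i2632 i960 c1105 c408 i1683 c1740 (k2 c1208 i1281 (k1 c1119 k0)))))))))) (by decide +kernel)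
def c1743 : PP 8 4 T 0x1000000000000000000000100000000000000010000000002100040000014050040 := rS 0x994ba2536603914a1a83408a5224f289745a392100882012fa35a28a178580a191e8ec56271fbc14efd (k8 c1664 c1666 c1167 c494 c54 c467 c443 c1487 (k8 c391 c1274 c461 i1080 c1742 i145 i76 c517 (k8 i451 c815 c410 c399 i194 i1001 i443 i439 (k8 i701 c1613 c874 c1665 c1698 c1671 c427 c528 (k4 c593 i1179 i1278 i1283 (k2 i1020 i2034 k0)))))) (by decide +kernel)
def c1744 : PP 8 4 T 0x1000002000000001000000000004001401004100000100002600140010004801000 := rS 0x19e8719b94411889904f235 (k8 i1116 c586 i42 c1520 c500 c1517 c470 c1142 (k2 c1563 c168 (k1 c1662 k0))) (by decide +kernel)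
def c1745 : PP 8 4 T 0x1000002000000001001000814444141441000110004100002601140510004001140 := rS 0xa565af8cace4ea1d19123026912020c05c763f3db44f20f (k8 c1360 c586 c479 c570 c494 c443 c1744 c461 (k8 c446 i231 i2034 c1454 c1709 i1432 c32 c1199 (k4 c1146 i2704 i1152 i1392 (k2 i1451 c1145 k0)))) (by decide +kernel)
def c1746 : PP 8 4 T 0x1000002000000001000000000008001041000000000000002400000011404001000 := rS 0x18621724150e64890ad8e27629eda20f (k8 c1360 c479 c570 c547 c54 c20 c467 c1586 (k4 c187 c32 c75 c77 (k2 c470 c444 (k1 i2032 k0)))) (by decide +kernel)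
def c1747 : PP 8 4 T 0x1001002000000001000000000404041441110110000104042601140010014000040 := rS 0x59264c6ab56a68a0c186b4906091589c7e5f29a85462f689cc5a890c05cf60d (k8 i481 c570 c1744 c461 i231 c519 c968 c479 (k8 c957 c956 c1156 c1173 c1139 c494 c54 c467 (k8 i223 c1698 c1137 c1671 c539 c427 c1708 i1313 (k4 i497 c687 i105 c868 (k1 c1745 k0))))) (by decide +kernel)
def c1748 : PP 8 4 T 0x1001002000000001000000100000001441010110000104002201040001414040040 := rS 0x130af4d96a26b74118c9c8916aa4e6180ba7d02291d8fd4e5f508bc8e0d3da5c72d1 (k8 c479 c1714 c869 c570 i481 i224 c957 c1156 (k8 c1139 c1666 c494 c443 c874 c1665 c1746 c1744 (k8 c461 c968 c437 c519 i231 c1747 i1350 c1716 (k4 i103 c579 c492 c1709 (k2 i1922 i2034 (k1 c283 k0)))))) (by decide +kernel)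
def c1749 : PP 8 4 T 0x1000000000000000000000100000441000000010000200042000140000014050040 := rS 0x2ad5a5535b2e08b37287ca27f861bd3073448b58218690247a3b1fbc14e593ead44a53508bdfa4711834885b3695e200f (k8 c1360 c1736 c64 i515 i55 c1743 i481 c454 (k8 i224 c1664 c957 c1156 c1173 c545 c463 c433 (k8 c397 c1666 c1167 c494 c443 c1487 i223 c1137 (k8 c768 c539 c556 i231 i1091 i2034 c597 c1343 (k8 c408 c377 c452 c246 i513 c77 c434 c537 (k4 c49 c488 c999 i2037 k0)))))) (by decide +kernel)
def c1750 : PP 8 4 T 0x1000000000000000000000100000001040000010000000002000040000014050140 := rS 0x2e5271682255caab3faf4c10c46455122d60ab8301fa2b48763f53ad54247069b4de5131accb6a93993937133d970ae2566a3c46853e9d620f01e8e52ed117bf4880f (k8 c1360 c1743 c1664 c957 c479 c869 c1714 c1487 (k8 c1167 c1736 c368 c433 c6 c454 c416 c555 (k8 c545 c64 c1748 c570 c65 c1709 c1749 c1715 (k8 c577 i55 i1430 i1350 i52 c483 i515 i481 (k8 i224 c1156 c463 c1666 c494 c443 c1137 c1521 (k8 i1269 c768 c1160 c539 c556 i231 c745 c1206 (k8 c1343 c573 i3144 c408 c1212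 c246 i1019 c77 (k4 c1215 c806 c487 c1138 k0)))))))) (by decide +kernel)
def c1751 : PP 8 4 T 0x1000000000000000000000100000001040000010000000002000040000014050040 := rS 0x10d8a8785a08399bc9c9b899707297688f4763f7829cea7d4288d1ecd1295e200117911fa7b (k8 c570 c1664 c1743 c957 c569 c1736 c64 c545 (k8 c555 c416 c454 c6 c433 c368 c1666 c1167 (k8 c494 c443 c1487 c479 c869 c1714 c1748 c65 (k8 c1709 c1749 c483 c1715 c1750 i1264 i222 c745 (k2 c452 c379 k0))))) (by decide +kernel)
def c1752 : PP 8 4 T 0x1000000000000000000000100000000040000010000000002000040000014050040 := rS 0xa03680652c901dbc00244 (k8 c1743 c569 c1167 c443 c1751 c1282 i1168 c869 (k2 i220 c1141 (k1 c410 k0))) (by decide +kernel)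
def c1753 : PP 8 4 T 0x1001000000000000000000100000040080000000000100042200000000014050040 := rS 0xa20247a2b138fde0a7 (k8 c1666 c1167 c494 c54 c467 c1487 i223 c1712 (k1 c1521 k0)) (by decide +kernel)
def c1754 : PP 8 4 T 0x1000000000000000000000000410001080104000000000082005000054054000000 := rS 0x106b78916cf319 (k4 c40 c438 i1883 c500 (k2 i761 c579 (k1 i2031 k0))) (by decide +kernel)
def c1755 : PP 8 4 T 0x1001000000000001000001100050001480110150000000082400000010014051140 := rS 0xa45dd3d56c2349b55a9f49a5628bd35c34b487419e982ae0fd15a43d15b1c4ec51fbc14e6f65accc60f (k8 c1360 i1350 i553 i1389 c483 c1666 c1167 c494 (k8 c547 c54 c20 c467 c1487 c1137 c1521 i1269 (k8 c1160 c539 c1754 c424 c430 c551 c1671 i1962 (k8 i3143 c379 c386 c12 c1551 c831 i556 i1927 (k4 c1143 c999 c428 i1944 (k2 c1145 c996 k0)))))) (by decide +kernel)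
def c1756 : PP 8 4 T 0x1000002000000001001000080040815091004000100114002600005501004000000 := rS 0x9f362f4aa6b43c12245b6389d8a5f069e6320f (k8 c1360 c40 c438 i481 c1139 c547 c54 c20 (k8 i1883 c500 c848 c32 c537 c49 i1986 i2039 (k2 c1732 i556 k0))) (by decide +kernel)
def c1757 : PP 8 4 T 0x1000000000000000000000100000041000000010000100002000140000014050040 := rS 0xb88b1fd3b4f55b08da9f5e9ad9e5a3d1a55aae49a568a31448ce289a0143582050f0b410b33998ca26f270f58ec57829cea593ea156a8f66894025350a8c5efd2388c1a578846514294097c880f (k8 c1360 c1743 c1139 c1665 c874 c1752 c40 c1736 (k8 c64 i481 c454 i224 c1664 c957 c956 c1156 (k8 c1173 c569 c545 c555 c416 c463 c6 c433 (k8 c397 c368 c1666 c1167 c547 c20 c1487 c1753 (k8 c483 i52 i1350 c1715 i553 c1755 i1264 i222 (k8 c1004 i1266 c452 c410 c1567 c379 i2094 i2093 (k8 i1003 c419 c386 c12 c371 c831 i1927 c1756 (k8 c551 c1144 i1962 i3143 c1732 i556 c1143 c1212 (k4 c428 i1905 c748 c566 (k2 c1138 c487 k0)))))))))) (by decide +kernel)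
def c1758 : PP 8 4 T 0x1000000000000010000000100400081000000010000100002200000400014050040 := rS 0x4aa49e72869bd07151e8ac4e3f780a5025f (k8 c1139 c1665 c874 c1167 c494 c54 c467 c1487 (k8 c571 i1376 i1323 c1671 c379 c1715 c583 i223 (k1 c1309 k0))) (by decide +kernel)
def c1759 : PP 8 4 T 0x1000000000000000000000100000001000000010000100002000040000014050040 := rS 0x808019ccde382725d0229539d4fab547b34025f50a8c5efd2388c1a442bc41a28a (k8 c1752 i145 c1736 c64 c1743 i481 c454 i224 (k8 c1664 c957 c956 c1156 c1139 c569 c555 c416 (k8 c463 c433 c368 c1666 c874 c1665 c1758 c1753 (k4 c1757 c483 c1715 i194 (k2 c1755 c410 (k1 c1004 k0)))))) (by decide +kernel)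
def c1760 : PP 8 4 T 0x1000000000000000000000100000001000000010000000002000040000014050040 := rS 0x2267b2e1e6328a (k4 c1752 c40 c438 c1759 (k2 c524 c65 (k1 c500 k0))) (by decide +kernel)
def c1761 : PP 8 4 T 0x1000000000000000000000100000000000000010000000002000040000014050040 := rS 0x954810066f0ca58f69068a285e01223f476f0 (k8 c1167 c443 c1664 c1743 c569 c957 c1752 i145 (k8 c1760 i149 c1282 i1168 i1324 i220 c410 c1147 (k2 c1004 c1309 k0))) (by decide +kernel)
def c1762 : PP 8 4 T 0x101000000000000000501000000000014010000000000001402810001400004000200 := rS 0x28d7233559914a581a8145a01 (k8 c536 i1264 i262 i207 c1373 i209 c568 i581 (k4 i1546 i1027 i201 i2033 k0)) (by decide +kernel)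
def c1763 : PP 8 4 T 0x1000000000000001000000000000000884000001000555002000000000004000000 := rS 0xd26b32a162511 (k4 c416 c492 c376 i1025 (k2 c881 i1888 (k1 i2039 k0))) (by decide +kernel)
def c1764 : PP 8 4 T 0x4001000000000000000010000000000000004000001000541002100001005004812001 := rS 0x211a164d66919b950b12 (k8 c492 c376 c4 i1610 i1495 i467 i462 c510 (k2 c1456 i1117 k0)) (by decide +kernel)
def c1765 : PP 8 4 T 0x4001001000000000002501004004044814090004000000000002004005504004800000 := rS 0x82ab6866a5c0d59cbb10a769f19 (k8 c394 c491 i1909 i729 i1948 c566 i1117 c1728 (k4 i1978 c543 i1290 c537 (k1 c546 k0))) (by decide +kernel)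
def c1766 : PP 8 4 T 0x1000000000000001001000000000000000000100400800810000000000000002010000000024050200 := rS 0x1723552990425866aac66a323b04ae0d5e9b4aa314fc5e2227628fde0b7299143ecb129ecb6c948a1cbe5d4aa4e282f39939a62d452cda202028042c42 (k8 i1262 c375 c536 i262 c410 i2797 i1428 c868 (k8 i1264 c405 i1261 i2454 i1079 c548 c12 c386 (k8 i443 i909 c1660 c1613 i2776 i706 c535 c590 (k8 i2881 i10 i222 c381 i722 c1167 c494 c547 (k8 c54 c416 c504 i1187 i985 i2457 i556 i1418 (k8 c1764 i441 i1266 c1762 i200 i192 c1212 c1765 (k4 c1763 c465 c568 i1382 (k2 i1117 i1027 (k1 i2033 k0))))))))) (by decide +kernel)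
def c1767 : PP 8 4 T 0x400000000000000001000000000000000000050000040814010000000000000002004014500004001208 := rS 0x62c1 (k2 i1266 i1003 (k1 c1728 k0)) (by decide +kernel)
def c1768 : PP 8 4 T 0x1000000000000101000002000000000000000000008814490000100100000002010014400004010200 := rS 0x3015a3182194d6550628d56bd36ae4cf161f8b40405009669ebb (k8 i1685 c529 c507 c536 i262 c410 i1264 c494 (k8 c1171 c486 c487 i555 i1417 c1740 i201 c1767 (k8 i1490 i467 c1644 c550 i1002 c488 c1732 i1265 k0))) (by decide +kernel)
def c1769 : PP 8 4 T 0x1000000000000000000000100000000000000010000000002000040000004050040 := rS 0x33c14d5175e2e0cab53ec40d23367a786a8f5722a8a9a4ba4d2b144c8bd0e2948c48ea79648e5a2733f97cba5b3d85804b3270b48405009bc108144904a2d35b8714e3f1dbc07afd (k8 c1664 c1487 c1167 c443 c494 c1666 c1761 i722 (k8 c405 i1229 i742 i1342 i1235 c1137 c372 c536 (k8 i262 i1262 i1264 i1261 i1428 c410 c375 c535 (k8 i706 i443 i909 i2455 i2454 i2797 i194 i2776 (k8 i2672 i2671 c492 c1613 c874 c1660 i1079 c870 (k8 c548 c386 c12 c571 c745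 c864 c868 c371 (k8 c1766 i1116 c1520 i156 i1712 i1566 c1768 c433 (k8 c463 c1358 c1138 c1551 c487 i1986 c537 i548 (k1 c532 k0))))))))) (by decide +kernel)
def c1770 : PP 8 4 T 0x11001000000000000000000000000441000001000000000042101140000004080140 := rS 0xc4524c145124201104023b68abc7ea7178b5a4a9 (k8 c583 c1137 c556 c554 c496 i216 i1921 c479 (k8 i215 c1667 c815 c1452 c399 i190 i439 i2034 (k2 c427 c283 (k1 c596 k0)))) (by decide +kernel)
def c1771 : PP 8 4 T 0x1001000000000000000000000000041040501000000000042001140014014080140 := rS 0x5129980e69a37858330d22b44565f1fa9c5ad2 (k8 c1137 c556 c496 i216 c489 i213 c479 i226 (k8 c1671 c391 c461 i968 c1770 i1179 c364 c528 (k2 i1311 c427 k0))) (by decide +kernel)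
def c1772 : PP 8 4 T 0x1001000000000000000000000000041800104000000100042001140020004080140 := rS 0x5207d96ad55c320862a291dca981a2541a890c084ca2501110025a4dadc83131db455e3f53b045e2d51b48f2a94197e220f (k8 c1360 c416 c489 c1698 c583 c586 c1137 c69 (k8 c556 c554 c539 c496 i216 i1921 c479 i215 (k8 c560 i187 i1928 c1709 c492 c536 i1806 c1452 (k8 i346 c829 c1702 i220 i2093 i482 i2762 i1130 (k8 i2034 c453 i2099 c388 c283 c77 c440 i538 (k4 i1353 c434 c452 c1145 (k1 c198 k0))))))) (by decide +kernel)
def c1773 : PP 8 4 T 0x1000000000000000110000000001001800000000400001002810141000004080000 := rS 0x630ccda642c0d4be3b68c453e05 (k8 i266 i1187 c416 c479 i215 c489 i207 c1373 (k4 c568 i669 i1546 c1406 (k1 i219 k0))) (by decide +kernel)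
def c1774 : PP 8 4 T 0x1001000000000000080150000005005008010000000401000002400545000004001140 := rS 0x1a991c8ac82b2d460f (k8 c1360 c69 i1367 c806 c1177 c77 c226 c453 (k1 c1406 k0)) (by decide +kernel)
def c1775 : PP 8 4 T 0x1000000000000000051000014045000800000000400001102400555001044001140 := rS 0x328b2a532886220f (k8 c1360 c416 i726 c1406 c198 c568 c1145 c197 k0) (by decide +kernel)
def c1776 : PP 8 4 T 0x1001000000000000080000000004001001800050000409000442090140000054881140 := rS 0x5a966082032b9468ad498cd8e472bb1476d160a8d529f12944aac9448c4040f (k8 c1360 c563 i2676 i190 i2776 i2457 i439 c590 (k8 i1187 c583 c69 c539 c479 i215 i1804 i441 (k8 c1773 i218 i192 c1774 i1352 c1775 c453 i2700 (k4 i1117 c77 c568 i727 (k1 c664 k0))))) (by decide +kernel)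
def c1777 : PP 8 4 T 0x1000000000000000000000100000001840000010000100042000140000014010140 := rS 0x571008c68ad6596466e5062acc2624aa60fa733f87c6289864553a012a9444a0229a6e301620908d65a788644c45148f4767b4bb455e3f0929c5e2d693f4f28154a0cbf17 (k8 c504 c489 c1698 c583 c1665 c586 c1664 c1137 (k8 c556 c554 c496 c1769 i216 i1921 c479 c869 (k8 c570 i215 c1487 c1772 i226 c1771 c391 c54 (k8 i1797 i3128 i1798 i746 c461 c520 c207 i833 (k8 c563 c590 i439 i2457 c536 c393 c745 c1770 (k8 i190 i2676 c791 c408 c534 c57 i2034 i1102 (k8 c283 i1021 i538 c1776 c4 i1610 i462 i465 (k4 i1494 c510 i246 i1117 (k2 i442 c1084 k0))))))))) (by decide +kernel)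
def c1778 : PP 8 4 T 0x1000000000000000000000000000001040001000000000002000240000004080000 := rS 0x4600e32d1 (k4 c479 c559 i195 c401 (k2 c1452 i964 k0)) (by decide +kernel)
def c1779 : PP 8 4 T 0x8001000000000000000051000000445200010000000000000002004545500004000000 := rS 0x2952abba7b097ab91aa4d9f45 (k8 c388 c420 c436 c506 c487 i1990 i2035 c428 (k4 i1944 c1710 c996 i2033 k0)) (by decide +kernel)
def c1780 : PP 8 4 T 0x1000000001000080000001001000010410050154008000002400000000004001140 := rS 0xb949b2e080f (k4 c1360 c77 c434 c806 (k2 i1405 c1138 k0)) (by decide +kernel)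
def c1781 : PP 8 4 T 0x1001002000000000000000000000041440100010000100042001040000014080140 := rS 0xc4a8d1ca472bad447108b87cfa7f86188df454c1d46273448cc301712808d64421a74025a8c27d36b720c4c50c513b1c76d13dabc7ea750b045e2d51b48727954a0cbe0f (k8 c1360 c489 c1698 c583 c586 c1778 c1137 c69 (k8 c556 c554 c539 c30 c496 i216 i1921 c570 (k8 c479 i215 c20 c54 c547 c1771 c560 i187 (k8 i1928 c1709 c1586 c500 c492 c536 c393 i705 (k8 i1806 i3129 c1452 i346 i999 i220 i2094 i2093 (k8 c968 c481 c1596 i2034 c388 c597 c283 c440 (k8 c408 c57 c452 c1779 c1171 c454 c463 c64 (k4 i224 c246 c510 i1098 (k2 c1780 i481 k0))))))))) (by decide +kernel)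
def c1782 : PP 8 4 T 0x8001000001000000000011000000440201415005100000000002094141500004880000 := rS 0x1845563330669d4fc6076d1 (k8 c479 i215 c520 c39 c393 c389 c1564 c1779 (k2 i2459 c1541 (k1 i117 k0))) (by decide +kernel)
def c1783 : PP 8 4 T 0x4001000000000000080000000000000000400050100000000002000011001054000008 := rS 0x14a21193956a238828582a3 (k8 c69 c539 c30 c1171 c454 c463 c246 c510 (k2 c1142 i2067 (k1 i2030 k0))) (by decide +kernel)
def c1784 : PP 8 4 T 0x1000001000000080000000000000201414055000000000002094140000054881008 := rS 0xc6420ce2c31628acbea7608bc5aa34ea7e303b68894ea35 (k8 i1116 i2671 c590 c479 i215 c520 c39 c393 (k8 c69 c556 c554 c539 c496 c489 i213 i1804 (k4 i1003 c1783 c389 c1782 (k2 c1779 i1602 k0)))) (by decide +kernel)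
def c1785 : PP 8 4 T 0x101000000000000004041004010445241450000150008101142084044500004082008 := rS 0x9846842d1a19b13622ac626732c5876d13d8e4f2593794d0e5f (k8 c489 c1660 c596 c597 c507 c586 c1778 c570 (k8 c479 i215 c1171 c1644 c486 i1002 i537 c1779 (k8 c1186 i3055 i1803 c492 c1146 i2951 i705 i1772 k0))) (by decide +kernel)
def c1786 : PP 8 4 T 0x1001001000000000000000000000041440000010000100042100040000014090140 := rS 0xcd42c419ead2a8cd8ee5060d4eab70f9f4e67f439442d0c21064be7b60a8d3a9f8c104c49844808022f4da9c7a2d690fc72791db455ea9 (k8 c583 i1921 c479 i215 c586 c1778 i216 c1137 (k8 c556 c1487 c496 c207 c554 c1667 c1452 i190 (k8 i2034 c283 c815 c520 c39 c393 c69 c539 (k8 c570 c489 c391 c399 c1770 c461 i439 c1660 (k8 c408 c534 c57 c452 c541 i2671 i1116 c1784 (k8 c4 i1688 i1610 i1490 i1494 c168 c1785 c6 (k2 c555 c1662 k0))))))) (by decide +kernel)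
def c1787 : PP 8 4 T 0x1000000000000000000000100000001040000010000100042000040000014010140 := rS 0xd4a91dca575a8d2201f3e9fe2f0c3a9cc626b62ade26330c16850c712910c46fa2a61120200a7d3a9b8c3c51e83548f4769768abc7ea7608bc5aa3693f5025f1c9e4240f (k8 c1360 c1769 c586 c1778 c489 c1665 c1664 c1137 (k8 c69 c556 c554 c539 c496 i216 i1921 c479 (k8 c869 i215 c1487 c583 c1698 c1777 c1781 c520 (k8 c207 c393 c39 c1667 c1452 i190 i2034 c388 (k8 c597 c283 c1786 i346 i2104 i226 i227 i220 (k8 i2094 c560 i1928 i3059 i3129 c481 i1091 c1596 (k8 c440 c1779 c408 c57 c452 c1171 c1783 c463 (k4 c64 c453 i2099 i1098 (k2 i481 c1780 k0))))))))) (by decide +kernel)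
def c1788 : PP 8 4 T 0x1001000000000000000000000400041000005000004000002041140500004080101 := rS 0x9a89a6450895491004411db455e3f (k8 i216 i1921 c479 i215 c815 c1452 c399 i1085 (k4 i190 i226 c283 c560 (k2 i2034 c1709 k0))) (by decide +kernel)
def c1789 : PP 8 4 T 0x1000000000000000000000100000001040000010000100002000040000014010140 := rS 0x735420936293090000275b87cc643270e502791e8ec565f3da5da2af1f8494ea1178b5a4fd (k8 c1664 c1137 c556 c554 c30 c496 c1769 i216 (k8 i1921 c479 c869 c570 c489 i213 i215 c1487 (k8 c586 c1665 c1778 c1787 i701 i1350 i1269 i762 (k8 i1798 c1788 c536 i961 i187 c364 i2031 c1667 (k2 i923 c577 k0))))) (by decide +kernel)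
def c1790 : PP 8 4 T 0x101000000000000000051450000440000000140080000000002005108000004000000 := rS 0x3ed0d6abc4aa95870d (k8 c534 i290 i289 i1671 i2036 i885 c415 i1331 (k1 c602 k0)) (by decide +kernel)
def c1791 : PP 8 4 T 0x501000000000000009000000000000000004001000000000002000000000004000000 := rS 0x10b4f (k2 c501 i1870 (k1 c398 k0)) (by decide +kernel)
def c1792 : PP 8 4 T 0x1000000000000001051450000440001840100080000210082005540000004800002 := rS 0x359a59255180919e67199b4ca7f43c45a29f1aa353b183c9ee260f (k8 c1360 c65 c570 c82 c500 c393 i964 c601 (k8 c1586 c479 c416 i931 i2516 i2634 i516 c1790 (k8 i450 c1791 c1037 i861 i764 c431 i1850 c881 (k1 i2042 k0)))) (by decide +kernel)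
def c1793 : PP 8 4 T 0x1001000000000000000051450000440040000000000000000002005108000004000000 := rS 0x24e86bc4aa958717 (k8 c389 i290 i289 i1671 i2036 c415 i1370 c472 k0) (by decide +kernel)
def c1794 : PP 8 4 T 0x20101000000000000010000000000004000440000000040200002040040000004080000 := rS 0x329acda692395d0acf104598a452db1d9a280b064ea8d001013ac9 (k8 c459 c393 i1844 c815 i964 c574 c587 c461 (k8 i1843 c1489 i2060 i55 i227 i3072 c1171 c1490 (k8 c420 i1503 i1498 i1530 i1849 i515 i1961 i963 (k1 i2042 k0)))) (by decide +kernel)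
def c1795 : PP 8 4 T 0x4001000000000000080100001000000000000010000050000082000015001444000000 := rS 0xaa7e8239142c1 (k4 c539 c30 c510 c532 (k2 c246 c49 (k1 i759 k0))) (by decide +kernel)
def c1796 : PP 8 4 T 0x1001000000000000001001000050000000010000800000502040000001454080100 := rS 0x407f52aac8caf (k4 i1921 i1961 i585 i208 (k2 c748 i2030 (k1 i1530 k0))) (by decide +kernel)
def c1797 : PP 8 4 T 0x1000000000000090100001000005000140010001550000082000054001444000000 := rS 0xc62ece (k4 i2042 c420 i988 c1795 k0) (by decide +kernel)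
def c1798 : PP 8 4 T 0x1000000000000000000000100000001040000010000000002000040000014010140 := rS 0x14abd6191a0a64359b4d25711a14fb10338cd6a2564a3d76bfa2205664e5c9c8a29d5445630392ca34f2350b3358e1f000653e9b2990c50c52044cb8a3168bd82a1538fd5ed21ebf476123da5da20f (k8 c1360 c479 c869 c570 c1769 i215 c1664 c1487 (k8 c1137 i1921 i216 c496 c30 c539 c554 c556 (k8 c69 c1789 c65 i1844 i3072 i1843 i443 i570 (k8 c1709 c1586 c587 c815 i182 i2060 c1489 c461 (k8 c601 c82 i964 i2595 c1778 c500 c745 c1667 (k8 c393 c385 c577 c458 c583 i663 c765 c371 (k8 c44 c51 c1792 c459 i860 i884 c1793 i450 (k8 c1794 c433 c6 c454 c64 i1849 i515 c1796 (k4 c1797 c75 i963 c1038 (k2 c1080 i208 (k1 i2036 k0))))))))))) (by decide +kernel)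
def c1799 : PP 8 4 T 0x2000000000000001000000000000000000000541000001040000010000100002000040000004800042 := rS 0x3014ce46346900de7b4b9e5025f4db4532b7 (k8 c62 c388 c479 c868 c489 c1665 c586 c869 (k8 c570 c382 c536 i964 i447 c864 i2575 i2041 (k1 i1017 k0))) (by decide +kernel)
def c1800 : PP 8 4 T 0x1001000000000000000000100400001040000010000100042005040000004080240 := rS 0x14e1a6139220de511680882010b0645e45548ecf6974097c0a393ca6da2995bd1166af (k8 i1920 i1427 c371 c62 c388 c479 c868 c586 (k8 c1778 i266 c489 c1665 c869 c570 i215 c583 (k8 i223 i199 c391 c461 c1799 c815 c1452 i1264 (k8 i1310 i2670 i2034 c864 i1278 c534 c593 c427 k0)))) (by decide +kernel)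
def c1801 : PP 8 4 T 0x1001000000000000000000100400001040000010000100002005040000014080240 := rS 0x282007c8a2f0b09ce443509bc9c835ba6688b3159ed2ed13ca04beaf (k8 i1920 c489 c1665 c586 c479 c869 c570 i213 (k8 i1427 c371 c388 c62 c81 c1800 c483 c1151 (k8 i701 c864 i1798 c968 i1080 c1715 i1270 c399 (k2 i2031 i187 k0)))) (by decide +kernel)
def c1802 : PP 8 4 T 0x111000000000000000000021000000000000040004000000002000000000004000000 := rS 0xfb43 (k2 c543 i1329 (k1 c602 k0)) (by decide +kernel)
def c1803 : PP 8 4 T 0x1000000000000000400010005000014000000000055001202000000000004000000 := rS 0x15ac9 (k2 c564 i1314 (k1 i2040 k0)) (by decide +kernel)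
def c1804 : PP 8 4 T 0x101000000000000000400010005000014005000000415000202000148054504080002 := rS 0x18ecd36950ce0d7230d8a25 (k8 c395 i1616 i290 c392 c4 i449 c1803 i1697 (k2 i770 i219 (k1 i2032 k0))) (by decide +kernel)
def c1805 : PP 8 4 T 0x1000000000000000000000100400001840000010000100042020040000014010040 := rS 0x546499c60335c9ad96ab5a9421ab63fa24e6934aa1447144cc48ca632c8844e0021a055ea3508aca6a937985649b788b472791db442c1922c462e8714a0cbe3e04049fa3d (k8 c1487 c1664 c1769 c1798 c1801 c489 c1698 i257 (k8 i931 c504 c416 i2103 c391 c461 c479 i215 (k8 c586 c1778 i1424 c494 c207 i217 i1431 c451 (k8 i663 i661 i213 i402 i2090 i1920 c1665 i21 (k8 c815 i746 i2497 i2595 i447 i2634 c512 c283 (k8 c573 c1445 c376 c386 c12 c36 c518 i846 (k8 c1294 c541 c427 i2891 i498 c179 i633 c1802 (k4 c1804 c1455 i450 c431 (k2 c1803 i766 k0))))))))) (by decide +kernel)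
def c1806 : PP 8 4 T 0x101000000000000000000000000000000000000000000001002010008000004000008 := rS 0x1648c66 (k4 i193 i192 c456 c1373 k0) (by decide +kernel)
def c1807 : PP 8 4 T 0x4001000000000000000000000000000000000000000000008002180005000004000000 := rS 0x6ae5108302c19 (k4 c391 c461 i441 i1498 (k2 c4 i1117 (k1 c510 k0))) (by decide +kernel)
def c1808 : PP 8 4 T 0x101000000000000000000001004000000000050000018005542000000000004000000 := rS 0x4115a59 (k4 c568 i1353 c83 c664 k0) (by decide +kernel)
def c1809 : PP 8 4 T 0x1000000000000000000000100400001840000010000100042000040000014010040 := rS 0x188c363884da0d1ac14ce642bad57233442acc5154c2556e7d399fd9231861544a0228908024114a0d02af2997d526f30ac936f1168e4f23b6885832451f021fa3d094462e9f (k8 i1187 c504 c416 c1769 c1487 c1664 c1798 c1801 (k8 i2103 c391 c461 c479 i215 c586 c1778 i1424 (k8 c494 c207 i217 i1431 c451 i663 c489 i661 (k8 i1920 c1665 c1698 i257 c1805 c536 c399 i1310 (k8 c1452 c590 i2457 c427 i2676 i2776 c408 c534 (k8 c57 c541 i1102 c1294 c411 c283 c225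 i1348 (k8 c1806 i1404 c1437 c1807 c1808 i38 c75 i2700 (k4 i1491 i1699 i726 i219 (k2 c865 c1653 (k1 i1804 k0)))))))))) (by decide +kernel)
def c1810 : PP 8 4 T 0x1000000000000001000001000000000000000940000000000000000000000082100000040014080000 := rS 0x2262913a08b443 (k4 i701 i1430 c208 i1798 (k2 i1806 c579 (k1 c512 k0))) (by decide +kernel)
def c1811 : PP 8 4 T 0x20911000000000000000001001000040015410044104000000002000140510104880000 := rS 0x18a9466b9634593e35 (k8 i1116 c39 c1171 c1527 c1802 c389 i2092 i1691 (k1 i2033 k0)) (by decide +kernel)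
def c1812 : PP 8 4 T 0x1000000000000000000000140000001440000010000100042028040000004010240 := rS 0x2fe86ce5c334fb105a940ff0d5b224e6934a8850a878a26624633a89c00fd159ed0345518bca6a95eb053a6f30ac9362d4fc61e23b688e4f2294197c4a350b0648a12 (k8 c1769 i2103 c391 c461 i1116 i860 c489 c1698 (k8 i257 c586 c1778 c479 i215 c494 c520 c39 (k8 i1424 c207 i217 i1431 c451 c393 i2912 i2901 (k8 i663 i661 i404 i2090 c10 c1665 c570 i213 (k8 c1664 c815 i746 c574 i447 c512 c283 c573 (k8 c32 c376 c1463 c386 c12 c36 c518 c1294 (k8 c541 c1198 c427 i2891 c1811 c433 c555 c1138 (k4 c1146 c543 i1457 c255 k0)))))))) (by decide +kernel)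
def c1813 : PP 8 4 T 0x1000000000000101001001000000000000100000000241444001014008000542090040010004880000 := rS 0x8168c265a557655a7b310a2689aad5ab933a4d9f161597cf69f8c0eda239129d4b27f399f56f0c (k8 c427 c541 c57 c534 c408 c507 c1516 i860 (k8 c1778 c479 i215 c520 c39 c570 c489 i213 (k8 c1171 c420 c436 c486 c487 i1352 i537 c1186 (k8 c512 i3052 c1564 c491 i2459 i1948 c1710 c197 (k4 c1541 c1138 c865 c1073 k0))))) (by decide +kernel)
def c1814 : PP 8 4 T 0x1000000000000000000000100400001040000010000100002000040000014010040 := rS 0x8299d24ab56ae52a6962d3d9c5766ad50b104418a2a985b9f4e67f8621cea51211046a59648a51e834f93c2c6f4e864c2bd5494d37181691564f1a28f95e3d7e8ec567b4bb4410812f8e4f212 (k8 c1769 c586 c1778 c489 c1665 c1798 c479 c869 (k8 c570 i213 i215 c1664 c1487 i1920 c1801 c10 (k8 c494 i217 i2103 i1424 c520 c207 i661 i663 (k8 i2901 i1431 c391 c393 c451 c461 c1810 c39 (k8 c1698 c1809 i257 c459 c507 i1116 c1812 c399 (k8 i1310 c1516 c1660 c427 c408 c534 c57 c541 (k8 c1294 c411 c283 i1348 c1813 c6 c463 c555 (k8 c64 c1146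 c501 i1794 i1833 i1105 c215 i1434 (k4 c225 c1138 c1180 c664 (k1 c1012 k0)))))))))) (by decide +kernel)
def c1815 : PP 8 4 T 0x21000000000000000000000000000541000505014000000002000000000004000000 := rS 0x16e73 (k2 c534 c541 (k1 i2045 k0)) (by decide +kernel)
def c1816 : PP 8 4 T 0x1001000000000000000000000800541000104010000100042000000000014000200 := rS 0x20149410d14c48b6832f9e4de51570583245 (k8 i2098 c391 c461 i203 i499 c372 c586 c489 (k8 c1698 i1923 c492 c560 c1815 c716 c427 i196 (k1 i2575 k0))) (by decide +kernel)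
def c1817 : PP 8 4 T 0x1000000000000000000000100000001040000010000100002000040000014010040 := rS 0x8996d04b78607d424e4c8bc2c6f4d864a2b3449155cd31fa9872813cbf4245f3da5da208 (k8 c1798 c479 c869 c570 c489 c1769 c1664 c586 (k8 c1665 c1778 c1814 i140 c496 i203 i2098 i282 (k8 i1427 i499 c391 c868 c372 c461 i1080 c870 (k8 c1816 c1151 i1270 c600 c541 c1815 i1922 c579 (k1 c492 k0))))) (by decide +kernel)
def c1818 : PP 8 4 T 0x1001000000000000000004101400441000004010004000002025140000004080200 := rS 0x7340a66886028abc76d1378bcf2005994c2c19 (k8 c587 c461 i2575 i1427 c815 c82 c575 c382 (k8 c479 i215 i1920 c1677 c1679 c371 c283 c765 (k2 i2631 c864 k0))) (by decide +kernel)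
def c1819 : PP 8 4 T 0x1001000000000000000000100000001840850000000200042040040000054080200 := rS 0x1ca25060c4ccc9349555b435a32d466b2388cdacf328850f1788b453e05668a0068d2ca84a6160ca76307900100f713 (k8 c65 c570 i1844 c815 c82 c500 c393 c587 (k8 c461 i2575 i197 i2595 i964 i1 i1843 c1489 (k8 c396 c1586 c479 c416 c504 i931 i2497 i2634 (k8 c1791 i516 c1445 c1678 i1961 i200 i1388 c1680 (k8 c580 i1287 i767 c933 c564 i2042 i1506 i449 (k2 i861 c4 (k1 c392 k0))))))) (by decide +kernel)
def c1820 : PP 8 4 T 0x20101000000000000010000000000004000440000000000200002040040000004080000 := rS 0x668b1d40040 (k4 i1844 c815 c574 c1171 (k2 c1794 c486 k0)) (by decide +kernel)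
def c1821 : PP 8 4 T 0x2001000000000000000000011000000000400050050000000002000000000004000002 := rS 0x49a54de75 (k4 c574 c382 c386 c12 (k1 c1138 k0)) (by decide +kernel)
def c1822 : PP 8 4 T 0x1001000000000000000011001000000400050050004000002000000000004000002 := rS 0x2b1249530454de75 (k8 c574 c382 c1821 c573 i2632 c1138 i1281 c1119 k0) (by decide +kernel)
def c1823 : PP 8 4 T 0x1001000000000000000000100000001040000010004200042041040000014080200 := rS 0xbba7a199ebfa1ae16a858823d047d399fe18995e87d12ae40b4e8aa654a5da2b74da7c7ecd141bcea2f1ca84a6160ca76307900100f713 (k8 c65 c570 i1844 c815 c82 c500 c393 c587 (k8 c461 i2575 i197 c1778 c575 c574 c382 i1843 (k8 c1489 i2059 c1586 c1709 i3108 c479 c869 c583 (k8 c1818 c14 c496 i1860 i203 i282 i2054 i3142 (k8 c870 c600 c408 c534 c57 c1815 c1819 c1820 (k8 c6 c463 c1822 c543 i1457 c255 c1146 c67 (k2 i1683 c485 k0))))))) (by decide +kernel)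
def c1824 : PP 8 4 T 0x1000000000000000401001000050000000050000800000002020000001454090000 := rS 0x528848c0d (k4 i467 i1961 i744 i209 (k1 i2030 k0)) (by decide +kernel)
def c1825 : PP 8 4 T 0x1000000000000081400001000015001441050001100000002020044000454090000 := rS 0x104321ae9e8667b95a27b3a8d4f28d60a8d92250b064ce00 (k8 c815 i450 c587 c461 i860 c459 c69 c539 (k8 i964 c82 c601 c574 c570 c479 c246 c168 (k4 c1146 c67 c1824 i2042 (k2 c550 c75 k0)))) (by decide +kernel)
def c1826 : PP 8 4 T 0x1001000000000000000000100400001040000010004200002001040000014090200 := rS 0xd665551515a7e369a4ae23429f596675ac404ac919a3d46c16943576bf5c9ca2b44542bc769768b156e9b4fb1d9a3546acc7e282c8e542530b0653b183c800807b89945021f2710c8a5b (k8 i55 i227 i443 c1823 i1270 i1275 i52 c65 (k8 c570 i1844 c815 c82 c500 c393 c587 c461 (k8 i2575 i197 c1778 i2595 i1843 i2059 i1427 i964 (k8 c601 c1489 i2060 c1586 c1709 i3108 i3072 c479 (k8 c869 i215 i1920 c1818 c371 c402 c577 c458 (k8 c44 c51 c534 c600 c539 c69 c1792 c1793 (k8 c459 i860 c1820 i884 i450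 i623 c433 c6 (k8 c454 c64 i1849 i515 c1825 i1556 i759 c748 (k2 i1089 c780 (k1 c1797 k0)))))))))) (by decide +kernel)
def c1827 : PP 8 4 T 0x4101000000000000010000001001015000040850001010210082000040000554800202 := rS 0x23a899603 (k4 i1 i1389 c1680 c1688 (k1 i200 k0)) (by decide +kernel)
def c1828 : PP 8 4 T 0x101000000000000000000000000000000000000000080000002020000000504000000 := rS 0x728941831028002c19 (k8 c587 c461 c815 c396 i1506 i449 i861 c4 (k1 c392 k0)) (by decide +kernel)
def c1829 : PP 8 4 T 0x1000000000000014000002080005000140000001550000002000000000004000000 := rS 0x15590cb (k4 i625 i2042 i768 c564 k0) (by decide +kernel)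
def c1830 : PP 8 4 T 0x1000000000000000000000081000001840850000000200082040040000014080200 := rS 0x2169e6a339a55ab411b3cda6510a1e2f1168a7d9a284696542530b0653b183c800807b8987c8a5b (k8 i55 i227 i1270 c65 c570 i1844 c815 c82 (k8 c500 c393 c587 c461 i2575 i197 i2595 i964 (k8 i1843 c1489 c1586 c479 c416 c504 i931 i2497 (k8 i2634 i516 c1791 c1445 c1827 i1288 i1927 c1828 (k4 c1829 c513 i3084 c398 k0))))) (by decide +kernel)
def c1831 : PP 8 4 T 0x1000000000000000000000100000001040000010000000002000040000014010040 := rS 0xbba7a199ebfa1ae16a858823d52823e9ccfe995ec3112ae69d154c1f409393aa18c0e4a6633c8bcea6f0b33400194fa6c8a4314102265b2e0212e7b1ebf424d1 (k8 c479 c1769 c1664 c1487 c570 c869 c1798 c1817 (k8 i55 c65 i1844 i1843 i443 i227 c1709 c1586 (k8 c587 c815 c1489 c461 c382 c574 c575 c82 (k8 i447 i2575 c1778 c500 i197 c393 c1823 i1275 (k8 i1270 c1826 c14 c496 i203 i282 c600 i3142 (k8 c870 c408 c534 c57 c1815 c577 c1830 c1820 (k8 c6 c463 c1822 c543 i1457 c255 c1146 c67 (k2 i1683 c485 k0)))))))) (by decide +kernel)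
def c1832 : PP 8 4 T 0x111000000000000000051445000440000005550000000000002005000015004000000 := rS 0x42c2662957b42 (k4 c602 c415 c84 i2047 (k2 i2036 i729 (k1 c865 k0))) (by decide +kernel)
def c1833 : PP 8 4 T 0x101000000000000000051440000440000000120000000000002005000011004000000 := rS 0x610857aa5 (k4 i1326 i1331 i1501 i2036 (k1 c865 k0)) (by decide +kernel)
def c1834 : PP 8 4 T 0x11000000000000000051445000440001880500000000100002105000004004010008 := rS 0xcd2c9f8fa57069b4aa314fc5e22160c8950e5f2da1453123d9088201 (k8 i451 c815 c399 c535 c744 c560 c376 i705 (k8 c489 c1660 c590 c391 c461 c416 c504 i1187 (k8 i2676 i2457 i556 c1764 i441 c1833 c1832 c576 (k2 i848 c1763 k0)))) (by decide +kernel)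
def c1835 : PP 8 4 T 0x101000000000000001050000000000000005000000000000002000000055504000000 := rS 0xc3 (k2 c865 i2032 k0) (by decide +kernel)
def c1836 : PP 8 4 T 0x1000000000000001000000000200000005000001100554802000000000004080100 := rS 0x6b2a91d5a0f (k4 c1360 i1286 i208 i831 (k2 i1961 i2039 k0)) (by decide +kernel)
def c1837 : PP 8 4 T 0x1000000000000000001010000140004010000000012000002000014500004000008 := rS 0x12a31 (k2 i1002 i1018 (k1 i2033 k0)) (by decide +kernel)
def c1838 : PP 8 4 T 0x111000000000000000001444000440000481500000000400802001000510004080101 := rS 0x12a3156118a86452b34d26d3f15d3a67498ccfb1662b1c7e2543974b6422089d5275449816a591a8583245010e17272 (k8 c528 i1141 i1881 i1882 i2095 c391 c461 i1116 (k8 c507 c562 c593 i190 i2671 i2754 i3089 c815 (k8 c399 i705 i1844 c1660 c590 i2069 i2070 i3090 (k8 c1171 c1833 c389 c436 c486 c552 i569 c1832 (k8 i555 i1887 i848 c1836 c1837 c1644 i704 i831 (k2 i1532 i1558 (k1 i2033 k0))))))) (by decide +kernel)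
def c1839 : PP 8 4 T 0x400000000000000001000000000000001001010000040004005000001100554802000014500004090108 := rS 0x25462ab069aa0a6452abd1260 (k8 c593 i190 i1921 c1836 c1837 c75 c550 i467 (k4 i585 i1003 i1019 i2033 k0)) (by decide +kernel)
def c1840 : PP 8 4 T 0x1001000000000000000000010000000000000080000084000002000000000004000000 := rS 0x4ac5e8693 (k4 c1162 c16 c486 i1674 (k1 c472 k0)) (by decide +kernel)
def c1841 : PP 8 4 T 0x1000000000000001001000000041001480080000000004802000000500004090100 := rS 0x4f538d2794397cba5b139d50b123d90882012c8d42c19228e12633011b59e675cc54e463 (k8 c596 c528 c36 i1141 c1840 i1979 i555 i1882 (k8 i193 c1162 i1881 i2095 c391 c461 i1116 c507 (k8 i451 c815 c399 c535 c744 c376 i2671 i3089 (k8 i705 i1844 c489 c1660 c438 i1887 c1839 c1146 (k1 c529 k0))))) (by decide +kernel)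
def c1842 : PP 8 4 T 0x1000000000000001001000000040041480080000000004802000000500004090100 := rS 0x4ac5d3893a1c557272 (k8 c528 i1141 c36 c16 c1162 c1841 c552 i1678 (k1 c472 k0)) (by decide +kernel)
def c1843 : PP 8 4 T 0x400000000000008001000000000000001001010000040004081000000100414802000010500004090100 := rS 0x6c338cd0e5d2d9088201228087027 (k8 i3089 i1881 i1882 i2095 i451 c815 c399 i705 (k4 i1844 c1660 c389 c486 (k2 c1839 i555 k0))) (by decide +kernel)
def c1844 : PP 8 4 T 0x1001000000000000000000100000001080000000000000002000000000014090140 := rS 0xda3333a522e6949d3e86bc3f95d9a7d882e46a5947add76bfa225d371531ad4c0722943546c153a255ed21e8ad8a2d638fd02514396c4e2f0b065064f2e97d0a29891ec8441009140438 (k8 i1881 i1882 i2095 i451 c815 c399 c535 c744 (k8 c560 c376 c489 i1844 i701 c1698 c391 c461 (k8 i1080 i3089 i705 c1660 i439 c1665 i2069 i2070 (k8 i1001 i3090 i213 c1487 c1137 i1921 i190 c496 (k8 c539 c69 c1671 c427 c528 c593 c562 c596 (k8 c36 i1179 i1283 c678 c44 c51 c62 c1834 (k8 c507 i1116 i1141 c1838 c433 c555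 c64 c1842 (k8 i2047 c415 c521 i1370 i1834 c1843 c472 i1674 (k2 i1672 i555 (k1 c1839 k0)))))))))) (by decide +kernel)
def c1845 : PP 8 4 T 0x1000000000000001000000000200000005000001100554802000000000004080000 := rS 0xd65523ab5960f (k4 c1360 i621 i1286 i209 (k2 i831 i1961 (k1 i2039 k0))) (by decide +kernel)
def c1846 : PP 8 4 T 0x111000000000000000000444000400000481500000000400802001000510004080001 := rS 0x4a8c558462a1914acd349b4fc574e99d26333ec598ac71f8950e5d2d9088227549d4b2350b0648a021c2d572c151b49126002a362a72 (k8 c528 c36 i76 i267 c593 i1278 c548 c69 (k8 c539 i1141 c562 i1881 i1882 i2095 c391 c461 (k8 i1116 c507 i2671 i2754 i3089 c815 c399 i705 (k8 i1844 c1660 c590 i2069 i2070 i3090 c1171 c1833 (k8 c389 c436 c486 c552 i569 c1832 i555 i1887 (k8 i848 c1845 c1837 c1644 i704 i831 i1532 i1558 (k1 i2033 k0))))))) (by decide +kernel)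
def c1847 : PP 8 4 T 0x8001000000000000001000000040000001480080000000004802000000500004090000 := rS 0x25462ab069aa0a6452d3cd29e4e9e50e5f2e96c4e7542c48f64220804b2350b0648a3860a8da489300151a9319808da675cc54e463 (k8 c596 c528 c36 i1141 c1840 i555 i1882 i193 (k8 c1162 i76 i267 c593 i1278 c548 c69 c539 (k8 i1881 i2095 c391 c461 i1116 c507 i451 c815 (k8 c399 c535 c744 c376 i2671 i3089 i705 i1844 (k8 c489 c1660 c438 c552 c1564 i1887 c529 c1845 (k8 c1837 c75 c550 i467 i585 i1003 i1019 i2033 k0)))))) (by decide +kernel)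
def c1848 : PP 8 4 T 0x1001000000000001000000140000001480080000000004802000000500004090000 := rS 0x1acd255552b529173699d27434397cba5b13aa42c1942c48f642208048a021c180c6cb2cc557272 (k8 c528 i1141 c36 c507 i621 c596 c593 i1881 (k8 i1882 i2095 i451 c815 c399 c535 c744 c376 (k8 c391 c461 i2754 i3089 i705 i1844 c489 c1660 (k8 c16 c1162 c1840 i555 c1847 c472 i1558 i1019 (k4 i831 c933 i585 i2039 k0))))) (by decide +kernel)
def c1849 : PP 8 4 T 0x400000000000001001000000000000400000050000000000000000800000002000000000004000000 := rS 0x15705 (k2 c537 i585 (k1 c546 k0)) (by decide +kernel)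
def c1850 : PP 8 4 T 0x1001000000000000000000500400001480000000000000102001000100014090000 := rS 0x2562e66361acd2ad49d0d78553f95d9a7d8825d73156598d6a60392dd76bf295121aaf158fd02872d89c5e160ca0c9e5d2fa1453123d9088201228087059 (k8 c507 i1881 i1882 i2095 i451 c815 c399 c535 (k8 c744 c560 c376 c489 i1844 i701 c1698 c391 (k8 c461 i1080 i3089 i705 c1660 c1665 i2069 i213 (k8 i1920 c1671 c371 c427 c44 c51 c62 c528 (k8 c593 c562 c596 i621 c36 i1141 i1283 c1846 (k8 c433 c555 c64 c1848 i830 i2047 c415 i1370 (k8 i1291 i1834 c1849 i2039 i555 c486 i1674 c472 k0))))))) (by decide +kernel)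
def c1851 : PP 8 4 T 0x1000000000008801000000000000000000104000000015400455154000000002000000000004000000 := rS 0x5fd0d774f5a27972cf (k8 c420 c487 c1185 c1138 c529 i1685 c580 i1455 (k1 c485 k0)) (by decide +kernel)
def c1852 : PP 8 4 T 0x400000000000001001000000000001000145090000000005550001000014542000000000004000000 := rS 0x82aad7ccb (k4 i626 i2047 i1721 c664 (k1 c546 k0)) (by decide +kernel)
def c1853 : PP 8 4 T 0x1001000000000000000000100000001480000010000000102001000100014090200 := rS 0xcf0532951386b67ae8d34336ab5709f2bb356b108ba4d2ab73e94cff1439af618894bab9a74553164f3194ca8502872d89c5e6f649d42c194193cba5f428a6247b211040245598fc7002 (k8 i1882 i1881 i2069 i1427 i2095 i451 c815 c399 (k8 c535 c744 c560 c376 c489 i1844 i701 c1698 (k8 c391 c461 i2671 i2776 i968 i1080 i3089 i705 (k8 c1660 c1665 c1507 i3111 c40 c438 c507 c1850 (k8 c14 c496 i203 i1898 i2065 c716 i3142 c1523 (k8 c548 c408 c473 c57 c541 c386 c12 c1851 (k8 c1171 c463 c555 c64 c1551 c1138 c831 i556 (k8 c543 i1927 c1852 i1950 i3118 c1146 i2039 i1551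 (k2 c49 c1155 (k1 c532 k0)))))))))) (by decide +kernel)
def c1854 : PP 8 4 T 0x1001000000000000001000500400001880000000000000102001000100014090000 := rS 0x1a6898aa896a60392dd76bf295121aaf15b144e0546b1c7e8117858328327974be29891ec8441009140438 (k8 i1881 i1882 i2095 i451 c815 c399 c535 c744 (k8 c560 c489 i1844 i701 c1698 c391 c461 i1080 (k8 c1665 i2069 i2070 i76 i267 i3089 i3090 i213 (k8 i1920 c1671 c371 c427 c44 c51 c62 c528 (k4 c593 c562 c1834 c36 (k2 i1278 c69 (k1 c548 k0))))))) (by decide +kernel)
def c1855 : PP 8 4 T 0x1000000000000001000145000000000885550001500545002000000000004000000 := rS 0xa7c157c58 (k4 c1763 i2047 c538 c471 (k1 c550 k0)) (by decide +kernel)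
def c1856 : PP 8 4 T 0x1000000000000001001000000000000001045080004814891550000000400402010000500004080200 := rS 0xaaa7b31466b23b2cd23f3da1cba5b13b242c193695c6655888c485172280870bd (k8 i3142 i1881 i1882 i2095 c504 c399 i2676 c416 (k8 i2457 c1806 c1807 i556 c391 c461 i2776 i3089 (k8 i705 i1844 c1660 c535 i2069 i1926 i626 c1762 (k4 i1961 i200 c1855 c491 (k2 c1765 c1740 k0))))) (by decide +kernel)
def c1857 : PP 8 4 T 0x1000000000000000001084080000014894000001000545402000004501044080200 := rS 0x146b9528d5566410b2cb06b6685832451c4446202 (k8 i1882 i2676 c416 i1881 i2095 c391 c461 i1948 (k8 i3118 c1763 i625 c465 c568 i581 i1117 c198 (k2 i1027 i201 (k1 i2033 k0)))) (by decide +kernel)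
def c1858 : PP 8 4 T 0x1000000000000000000000100000001000000010000000002000040000014010040 := rS 0xcd2cd38cabf56d0d68cb5da556e533fa68e6bd499f6181f44a5d5cd3a2a998257068ccda5518a7e2f11472cc102942a0e242f2da1c9e513d89502162117542191f9048a2d1c0044ec54c80a328a2f8f5fa12 (k8 c1769 c1664 c1487 c489 c1831 c40 i1882 i3111 (k8 i3090 i3089 i451 i1881 i1001 i2095 c815 i2069 (k8 c391 c1507 i1844 c399 c461 c1665 c590 c535 (k8 i439 i701 c1660 i705 i1080 c744 c1698 c376 (k8 c560 c1844 i1427 c1853 c416 c504 i1187 i2676 (k8 i2457 i556 c1806 c1764 c1807 i1266 c1854 c14 (k8 c496 i203 i1898 i2065 i242 c716 c845 c878 (k8 i3142 c1523 c1816 c408 c473 c541 i1102 c1857 (k8 i626 c1856 c580 i1287 i1455 c924 c485 c568 (k2 c491 c1763 k0)))))))))) (by decide +kernel)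
def c1859 : PP 8 4 T 0x1000000000000000000000100000002080000000000000002000000000004090000 := rS 0x2097002d1 (k4 i145 i451 c1613 c815 (k1 i1844 k0)) (by decide +kernel)
def c1860 : PP 8 4 T 0x1000000000000000000000100000000000000010000000002000040000014010040 := rS 0x7c5263201147e001da9c4e03508bc86810b168ba196822c56052fadd1a6116a0e2a963da407a12 (k8 c1769 c1487 c1858 i149 c1282 c571 i1375 i1243 (k8 i1283 i1817 i1901 c477 i267 i213 c1859 c869 (k8 c505 c533 c549 c461 c1665 i2460 i1080 i822 (k8 i2797 i1798 i1898 i214 c410 i1372 c569 c536 (k4 i447 i1806 c1225 i2031 k0))))) (by decide +kernel)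
def c1861 : PP 8 4 T 0x1000000000000000000000000000000000020000000000082080000000024000000 := rS 0x6088acac (k4 i1273 i1274 i1234 i441 (k1 i2950 k0)) (by decide +kernel)
def c1862 : PP 8 4 T 0x1000000000000040041820000100000000000000000000002000200000004000000 := rS 0xc2723394743 (k4 c543 i1719 i1458 c561 (k2 i1976 c444 k0)) (by decide +kernel)
def c1863 : PP 8 4 T 0x1000000000000001000000000000000140004080000015484154154000500082000000000024880000 := rS 0x6782950d6ba5f9a5826d32ab5709f5295d9ab58845c6a59699e57a8541c48b638 (k8 i1881 i1922 c492 c579 c376 i3142 c586 c405 (k8 c507 i1116 c1851 c1171 c463 c555 c64 i1381 (k8 c1551 c1138 c831 c1358 i556 i1250 i1927 c1862 (k4 i2047 i3118 i2039 c49 (k2 c1155 c532 k0))))) (by decide +kernel)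
def c1864 : PP 8 4 T 0x1000000000000000000000100000000000000010000000002000040000004010040 := rS 0x5856b35714e1aafc434351ad14a475db04ae0d199b4aa314fc5e228e3ea29348342c498e5b5ea998a27575152e934ac51329117a1da27564adce67f2f9ec2c253c8b404b36593884052e804de450420512412887da6530e049fa3d (k8 c1487 c1664 c1769 c1860 c381 c405 i10 i1229 (k8 i742 i1342 i1235 c1137 i222 c372 c536 i1844 (k8 i262 i1262 i1261 i2881 i2910 c410 i1264 c586 (k8 c590 c375 c535 i909 i2455 i2454 i2456 i2776 (k8 i2671 i2797 c1660 i1079 c1613 c870 c548 c386 (k8 c12 c571 c864 c371 i3101 i3102 i1920 i3142 (k8 i1922 i2077 c492 c376 c579 i2045 c868 c1861 (k8 c1863 c416 c504 i1187 i2676 i2457 i556 c1806 (k8 c1764 c1807 i1266 c1857 c1762 i368 c1856 i200 (k8 c580 i728 i1455 i1117 c485 i2033 c491 i1290 (k2 c1763 i871 k0))))))))))) (by decide +kernel)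
def c1865 : PP 8 4 T 0x1000000000000090100010100040000410050000009000002201045500044080048 := rS 0xbba7a901ace55af596ad4395d9a854a9948ee5880d22e75a2a7531184fa5cf66b62c4d2279458fcb4281db1cba4100894121d53b04720f (k8 c1360 i2095 c539 c496 c405 i222 i346 i447 (k8 c815 i1844 i2104 i2102 i226 i227 i2103 i1881 (k8 c586 c1613 c560 i3059 i3129 i1889 c869 c1586 (k8 c500 c1454 c393 c388 c1596 c1779 c1783 c1171 (k8 c453 i2099 i1023 i1098 c6 c555 c64 c1563 (k8 i1353 c173 i1991 i538 c1146 i481 c1145 c501 (k2 i1951 c996 k0))))))) (by decide +kernel)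
def c1866 : PP 8 4 T 0x1000000000000000000000000410001080104000000000082005000044054000000 := rS 0x5112 (k2 c744 c1754 (k1 c560 k0)) (by decide +kernel)
def c1867 : PP 8 4 T 0x1000000000000000050000000005000000000200000080002000545000004000000 := rS 0xd455 (k2 c589 c1596 (k1 i1963 k0)) (by decide +kernel)
def c1868 : PP 8 4 T 0x1000000000000000000000100000000000000000000000002000040000004010040 := rS 0x1774f520359cab5eb2d5a872bb350a953291dcb101a1d62e9d8c27cf3132d17504b257a2cf698488fd8a27638ed2f457804c728f448cd92d118808301760a9c3ad2048bd462515910827d0fa6c02817eaa572513110cfeb716938c2a1399c07a0f (k8 c1360 c1487 c1864 i78 c462 c469 c495 c31 (k8 c558 c578 c582 c474 c441 c1166 c577 c19 (k8 i1275 i447 i2920 i2868 i2869 c815 c399 c1152 (k8 i346 c956 c957 i222 c1137 c405 c496 c539 (k8 i709 c461 c446 c481 c505 c407 c1163 i230 (k8 c1200 i2095 c1865 c1167 c1521 c1309 c443 c20 (k8 c54 c547 c494 c1282 i2034 i1940 c1866 i539 (k8 c1160 c208 i513 i1430 c579 c586 c1586 c500 (k8 c393 c1779 c1867 c1783 c1171 c453 i2099 i1023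 (k8 i1098 c6 c555 c64 c1563 i1353 c173 i1991 (k4 i538 c1146 i481 c1145 (k2 c501 i1951 (k1 c996 k0))))))))))))) (by decide +kernel)
def c1869 : PP 8 4 T 0x2000000000000001000000000000000000000000000141000105054000000002000000000004000000 := rS 0xb7 (k2 c62 c864 k0) (by decide +kernel)
def c1870 : PP 8 4 T 0x1000000000008001000000000000000000105000000015405085154000000002000000000004000000 := rS 0x27d9a7d (k4 i61 i848 c1551 c1564 k0) (by decide +kernel)
def c1871 : PP 8 4 T 0x911000000000000000000005015000101404505154001000002000000000004000000 := rS 0x2a1f1967f5ea690a954998e8a978a1657316 (k8 c1171 c487 c507 c379 c571 c1869 c80 c12 (k8 c386 c376 i2045 i1417 c1870 c179 c1851 c1188 (k1 i1541 k0))) (by decide +kernel)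
def c1872 : PP 8 4 T 0x1000000000008001000000000000001000009000000015405015154000000002000000000004000000 := rS 0x17a9e (k2 c1564 i1988 (k1 c1551 k0)) (by decide +kernel)
def c1873 : PP 8 4 T 0x1000000000000101000000000000000000009015000015405081154005000002080000000004000000 := rS 0x208ca2ab30ae7d3d9657316 (k8 c1171 c487 c507 c535 i61 i1665 c1872 i2459 (k2 c1188 c83 (k1 c434 k0))) (by decide +kernel)
def c1874 : PP 8 4 T 0x911000000000000000000001015000101404501154001000002080000000004000000 := rS 0x2a1f1967f5b2e62c854aa4cc7454bc50f659 (k8 c507 c535 c379 c571 c1869 c80 c12 c386 (k8 c376 c1171 c487 c1871 c1873 c179 c1138 c1188 (k1 i1541 k0))) (by decide +kernel)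
def c1875 : PP 8 4 T 0x4001000000000000001050000000002000005000000000000002000010055404000000 := rS 0x337288062c3 (k4 i1906 i1511 i2032 c470 (k2 c1142 c510 k0)) (by decide +kernel)
def c1876 : PP 8 4 T 0x201000000002000000050000000000000005000000000000002000000055004000000 := rS 0x6188446cd (k4 c555 c454 c470 c444 (k1 i2032 k0)) (by decide +kernel)
def c1877 : PP 8 4 T 0x1000000001000040001020000040000000000000000000002000010000004000008 := rS 0x32520c68717 (k4 c487 c543 i2677 c561 (k2 c510 i2067 k0)) (by decide +kernel)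
def c1878 : PP 8 4 T 0x11000000000000000000000001000001480500050001100002080000000084080080 := rS 0x1a4aa6b368308eca5250cfcb972a8d82576688cfb101a965a609159e532c5638950e5f2d89cea8514c48f69549c50de160c91470025aab55650 (k8 i1301 i2249 i2842 i2889 i1882 i1881 i2095 c391 (k8 c461 i2670 c379 c12 c386 c535 c744 c560 (k8 c376 i2671 i3089 i705 c489 c1660 c590 i2070 (k8 i3090 i3111 c438 i213 i25 c378 c507 i1116 (k8 c1874 c433 c454 c555 c64 i1305 i240 c1876 (k8 c1877 c1138 c16 c561 i1379 i208 i1380 i2381 (k4 i1961 i704 i1495 i2039 k0))))))) (by decide +kernel)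
def c1879 : PP 8 4 T 0x11000000000000000000000001000001080100010000000002010000000014080080 := rS 0x19a591015d72a3199b4fe5518a7e2f11472d526953087a282d44a85064f4397cba5b2109cde731785832451c02404d3 (k8 c378 i1882 i25 i1881 i2095 c391 c461 i1080 (k8 c1426 i2670 i3089 c399 i705 i1844 c489 c1660 (k8 i1222 c1698 c1507 i190 c1105 c379 c600 i1223 (k8 c386 c12 i2889 c1878 c416 c504 i1187 i2676 (k8 i2457 i846 i556 c1806 c316 c1802 c1807 c1455 (k2 c465 i729 (k1 c1763 k0))))))) (by decide +kernel)
def c1880 : PP 8 4 T 0x1000000000000000000000140000001080000010000000002014000000014080080 := rS 0x16c54c4b25b946187317b4c7a2b548151a890494d428327a04ba5f2d89cde160c8a6247b211147002 (k8 i1882 i1881 i2095 c399 c535 c744 c560 c391 (k8 c461 i2670 i3089 i705 c489 i1844 c1665 i1222 (k8 c1698 c1507 i454 i25 i190 i76 i267 i577 (k8 i213 i1801 c378 i1080 c1426 c1879 c377 c541 (k4 i2038 i553 c80 i1238 (k1 c1547 k0)))))) (by decide +kernel)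
def c1881 : PP 8 4 T 0x1000000000000000000000100000001080000010000000002000000000004090080 := rS 0x16c545e624bac8a2b70e16d028329908ba4f509148289028e0022701235a609578fda25f (k8 c489 c479 i1420 i459 i25 c378 i76 i1882 (k8 i3089 i451 i1881 i267 i190 c815 i2095 c1507 (k8 i1222 i1844 c399 i454 c1698 c1665 i705 c1880 (k8 i721 i1230 i2038 i1374 i553 i321 c80 i1238 (k1 c548 k0))))) (by decide +kernel)
def c1882 : PP 8 4 T 0x1000000000000000000004100010001440500010000000002000540000014000088 := rS 0xa12d196ad5ca4cc8694f1f4fe29782312b0c892ca322c7e87d3460289ed2ed13c9bcea734ca24122f0b0648ad3 (k8 c378 i480 c391 c461 i1080 i25 i190 c870 (k8 c1426 i2671 i2670 i972 c479 c869 c570 c669 (k8 c1610 i2045 i1301 c384 i1223 c394 c868 c1709 (k8 c600 i2674 c401 c520 c560 c408 c57 c1520 (k8 i1566 c187 i1718 i2710 i1434 i1391 c1138 c924 (k1 c580 k0)))))) (by decide +kernel)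
def c1883 : PP 8 4 T 0x11000000000000010000000000000040040000000000500002085440000014000080 := rS 0x44cb62813a98c21e16a84de9944808122f0b0648ad3 (k8 c378 i480 c391 c461 i1080 i25 c563 i190 (k8 c870 i2670 c457 c1105 c600 i1223 c1454 i1915 (k4 i242 i705 c560 c492 k0))) (by decide +kernel)
def c1884 : PP 8 4 T 0x1000000000000000000001014000000000050000012005542000000000004000000 := rS 0x19659 (k2 c568 i1392 (k1 i2037 k0)) (by decide +kernel)
def c1885 : PP 8 4 T 0x1001000000000010050000048804100040000000000000002000545200004000000 := rS 0x68c1 (k2 c1157 c1091 (k1 i1119 k0)) (by decide +kernel)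
def c1886 : PP 8 4 T 0x1000000000000000000000000004800240000000020000002000541000004800010 := rS 0x6a678d5e119 (k4 c394 c520 i2700 i2704 (k2 c1407 i1964 k0)) (by decide +kernel)
def c1887 : PP 8 4 T 0x1000000000000000000000100000001040000010000000002081540040014010000 := rS 0x19cc31aafd3a215a1a55b0423b2cb2655595d4cc513b1c662978230aa314fc5e222c7ec4a328e302696e1f3e944ff0c4ca0d0253399bd125d508940441698255e3f2f9ed2ed127814f22f0b0648a06 (k8 c1868 i480 c391 c461 i1080 i972 c1274 i1221 (k8 c479 c869 c570 c489 i1420 i459 i25 c378 (k8 i21 c563 c590 c457 i443 i190 i2670 c1426 (k8 i454 c1665 c1698 c870 c1883 c408 c377 c57 (k8 c452 c541 c1815 c1610 c1882 c394 c1709 c384 (k8 i1223 c416 c504 i1187 i2676 i2457 c401 c520 (k8 c560 c1806 c20 c54 c547 i2031 c1807 c1885 (k8 c1886 c568 i1392 c1373 c83 i1226 c63 c664 (k4 c1084 c335 i1455 i1117 (k2 c865 i2035 (k1 i1152 k0))))))))))) (by decide +kernel)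
def c1888 : PP 8 4 T 0x1000000000000000000000101020001400000000001000002000040400004810002 := rS 0x3f62a6339225a606 (k8 c1868 c378 c26 i821 i448 c36 c1486 c573 k0) (by decide +kernel)
def c1889 : PP 8 4 T 0x1000000000001001000000000000000000000100000001460500000000000002040040000014090000 := rS 0x118406aa79b4d3054315c46857e44166cd6397050a75cabc7e3d1597cf6391396480751aa753f1846b44a27d3fc3142003c984062f0b0648aa927b4c3e06 (k8 c1868 i1302 c378 i1221 c583 i480 c391 c461 (k8 i1080 i999 i1224 i972 c1452 c1888 c600 c408 (k8 c57 c377 c479 i964 c401 c39 c393 c601 (k8 c574 c399 i2595 i1798 c1778 c570 c489 i213 (k8 i1801 i1420 i459 i2896 i282 c1671 i187 i2060 (k8 c1489 i514 c1820 c371 c6 c454 c64 c1491 (k8 c1566 i1849 i515 c67 c550 c1495 i1961 i1530 k0))))))) (by decide +kernel)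
def c1890 : PP 8 4 T 0x1000000000000000000000100000001400500010000000002000040000014090000 := rS 0x2262b454c43142d33da5d524f179bc3e004d98406431c9e4565f1d8f42c1922b451606 (k8 c1868 c1881 c479 i480 c391 c461 i1801 i215 (k8 c489 i213 i972 c1778 c1887 i999 i1224 c364 (k8 c1452 i1302 i969 i1080 i1221 c583 c869 c570 (k8 c378 c1888 c600 c1815 c388 c411 c1889 c870 k0)))) (by decide +kernel)
def c1891 : PP 8 4 T 0x11000000000000010000000100000000844100000000000002040040040014090002 := rS 0x31d9abf3f2e10abd89299e26b62b0dc825a2bf1645d4ac54c69914ad4587244a81a6af1f8f52ea9278bc3e272ca6cc2030b0646a8d8888446658b9008a06 (k8 c1868 i480 c399 c504 i2634 c1445 i2497 c416 (k8 i964 c601 c391 c461 i999 i1224 c364 i2595 (k8 i1798 i1302 i1080 i1221 c583 c869 i1801 i1420 (k8 i459 c378 c600 c26 i821 i822 i2598 i314 (k8 c870 i448 c36 i2653 i1843 i2041 c573 c76 (k8 c1385 c392 c865 c41 i1960 c1423 c449 c512 (k8 i1984 c376 c1424 i1142 i1457 i849 i337 c1835 k0))))))) (by decide +kernel)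
def c1892 : PP 8 4 T 0x1000000000000000000000100000001000500010000000002000040000014090000 := rS 0x6b34b259e6d2a8c19a5c8989050b553ae547154425530b73e9cd427f8619c466510a1e2f114734c7e7b4b89cde1f2c90136614ea7e308d0000c86391597c763d3c858324568a2c0c0f (k8 c1360 c1868 c1881 c479 i480 c391 c461 i972 (k8 i1801 i215 c489 i213 c1778 c1887 i999 c1452 (k8 i964 c401 c39 c393 i1224 c364 c399 i2595 (k8 i1302 i969 i1798 c869 c570 i1420 c378 c1890 (k8 c416 c504 i931 i2497 i2634 c1445 c1828 c1891 (k8 c408 c25 c534 c57 c541 c1815 i1102 c1610 (k8 c411 i281 i2896 i282 c1437 c1671 c1446 c560 (k8 i187 c1489 i861 i764 i516 c1791 c431 i1850 (k2 c881 i2042 k0))))))))) (by decide +kernel)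
def c1893 : PP 8 4 T 0x21002000000000000000000000000001440800000000200002064040000054890000 := rS 0x146c110b088c0d529a8dabd5d9a69f052bad4468688094be594fc611a00019e5a345509fca27d63b3450ad (k8 c34 i1843 c1489 i2060 c57 c377 c408 i2616 (k8 c81 c479 i972 i999 c1452 i964 c401 c39 (k8 i2595 c489 i860 c1820 c1492 c454 c463 c64 (k8 c1566 c67 i1564 i1683 i1415 i515 c550 c996 (k4 i467 i1961 i1960 i744 (k2 i1533 i329 (k1 i2030 k0))))))) (by decide +kernel)
def c1894 : PP 8 4 T 0x4101000000000000010000000000000010040850011058210002000040000554800002 := rS 0x16aa35ca222a9d4fc611aa1 (k8 i2616 i964 c401 c39 c393 c80 i448 i1406 (k2 i281 c1437 (k1 c1680 k0))) (by decide +kernel)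
def c1895 : PP 8 4 T 0x1000000000000000000000100000001000800010000000002000040000014090000 := rS 0x26112633388cda95328850f1788a39f8b33e944ff0c2e284e74569abc7e975493c5e1f2c90136614680006431ca2c565f1db447a790b0648a06 (k8 c1868 i480 c391 c461 i972 i1801 c479 i215 (k8 c489 i213 c1881 c1778 c1887 i999 c1452 i964 (k8 i1224 c364 c399 i2595 i1302 i1080 i1221 c583 (k8 c869 i1420 i459 c378 c81 i923 i2616 c1698 (k8 c600 c408 c377 c57 i513 c371 c1893 c416 (k8 c504 i931 i2497 i2634 i1102 i516 c1445 c1828 (k4 c1894 i1340 i2041 c870 k0))))))) (by decide +kernel)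
def c1896 : PP 8 4 T 0x1000000000000000000000100000001000000010000000002000040000014090000 := rS 0x2c3128132b386a01068d4d800c2030f90c72790b2a40a1927915a6af1e8ec565f4ba2c0cd1 (k8 c479 c1868 c1881 c869 c489 i213 i215 i1801 (k8 i459 c378 i480 i1221 c391 c1274 c583 c461 (k8 i972 c1778 c1887 i1302 i999 i1224 c1452 c364 (k8 i964 c1895 c1892 c2 i1335 i1863 c600 i2041 (k2 i822 i1238 k0))))) (by decide +kernel)
def c1897 : PP 8 4 T 0x1000000000000000000000004000001444181100000000002000150000024000001 := rS 0x1953d046791c66e50688144cd42b44f60f (k8 c1360 c570 c479 i1670 i2478 i720 i719 i1647 (k8 c470 c1142 c1661 c168 c77 c1662 c75 c187 k0)) (by decide +kernel)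
def c1898 : PP 8 4 T 0x101000000000000010000000000008000044000100000010002000000000004000000 := rS 0x150d864 (k4 c187 c275 c1644 i1697 k0) (by decide +kernel)
def c1899 : PP 8 4 T 0x111000000000000000000000000004541404454080000000542084140010004080000 := rS 0xc263884ac472ab310ac5a7af92abd5dd0876d1229044a3333ae62aab56bf196b52cb3d269d8b1d40416 (k8 c375 c563 i2671 c1171 c552 c436 c420 c507 (k8 i884 c179 c427 c34 c37 c36 i1141 c1180 (k8 i193 c590 i21 i41 c479 i215 c602 c490 (k8 c415 c66 i2048 c471 i1528 i1608 c1571 i2459 (k4 c1373 i2037 i1498 i218 (k2 c1643 c865 k0)))))) (by decide +kernel)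
def c1900 : PP 8 4 T 0x111000000000000000000000000000141444400080000000042085040010024080000 := rS 0xc343118ec310b00447c4f8ecf69b30b44b27f1a8e4f20120a0466675cc5556ad7e1443eb53a858a602 (k8 c563 c381 c375 i2671 i884 i10 i440 c427 (k8 c34 c37 c36 i1141 c1180 i193 i1235 i21 (k8 c536 i2672 i195 i1116 c1897 c507 c479 c384 (k8 c364 c570 i215 c1898 c1899 i1234 i1233 i1502 (k4 i250 i1694 c1643 i1803 (k2 i1804 i2951 k0)))))) (by decide +kernel)
def c1901 : PP 8 4 T 0x10001000000000000000000000140000141000100080000100542080540000004000000 := rS 0x2dacd6e27a23c1065f (k8 c489 c1698 c520 c1523 c54 c62 c76 i705 (k1 i2038 k0)) (by decide +kernel)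
def c1902 : PP 8 4 T 0x11000000000000000000000100000101440000080000000002080040000024090000 := rS 0x3599187176727e31052bb350a7d8819d72b58aabc7e3b3da5da2c9418a4324556964fe3555bf09e09031443e533a8e4f2020b00482872f975023d (k8 i1801 i1235 i443 c489 c1660 i21 c536 c375 (k8 c563 i2672 i195 i2671 c381 i10 i440 c1868 (k8 i25 i702 c427 c37 i1116 c1897 c507 c34 (k8 i41 c391 c1636 c1698 i2776 c479 c869 c570 (k8 i215 i1420 i459 c36 i884 i1141 c1180 c1900 (k8 c433 c6 c555 c64 c664 c1901 c39 c1183 (k4 c1564 c729 c532 i1960 (k1 i1029 k0)))))))) (by decide +kernel)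
def c1903 : PP 8 4 T 0x11000000000000000000000100000101400000010000000002080040000004090000 := rS 0x30d8acf63b913ac15f8c687174fc6066b85a9f5e26349a557a26534516d45179cda63f1d9ed2e89549bd06ad16a6cc2d13f8d556fc27824a21f299d472790105802414397cba811e8711606 (k8 c1868 c1881 c1896 i1801 i1235 i443 c489 c1660 (k8 i21 c536 c375 c563 i2672 i195 i2671 c381 (k8 i10 i440 i25 i702 c427 c37 i1116 c1897 (k8 c479 c384 c364 i1000 c34 c1698 i2670 i2754 (k8 i1342 c869 c570 i215 i1420 c378 c1902 i1079 (k8 c1869 c1294 c379 i2034 i721 i1989 c386 c12 (k8 c80 c54 c1190 c1070 c1138 c1062 c520 c1551 (k8 c487 c543 i2677 i1457 i1249 c393 c510 i337 (k4 c255 i1919 c444 i2035 k0))))))))) (by decide +kernel)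
def c1904 : PP 8 4 T 0x1002000000000010000001000008200044040100000010542000000000004000000 := rS 0x1f596552baf5286c3233d5aab (k8 c37 c34 i156 c187 c275 i1112 i1990 i1579 (k4 i1697 i674 i1597 i2037 k0)) (by decide +kernel)
def c1905 : PP 8 4 T 0x1000000000000111000000000000040000004000004001404504000000000002085140010004080000 := rS 0x27101554d18663c50b121db4482798b1d40416 (k8 c375 c563 i2671 c1171 i2672 i21 c479 i215 (k8 c440 c376 c1520 c1564 c520 c449 i2459 c1535 (k2 i1914 i729 k0))) (by decide +kernel)
def c1906 : PP 8 4 T 0x1000000000000111000000000000040000001000004001404454000000000042085144810024080000 := rS 0xac232ab0998c563a154cb618a5576a34eb3e84cb8b0eda2813c9d404ad55bf0a21f299646a16 (k8 c375 i1116 c507 c381 i10 i440 c427 c37 (k8 c34 c563 i2671 i2672 i1235 c479 i215 c1171 (k8 c179 c602 c420 c552 c387 c490 c66 i1081 (k8 c1905 i722 i1935 i336 i1918 c1564 i2035 i2459 (k2 i250 i2037 (k1 i442 k0)))))) (by decide +kernel)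
def c1907 : PP 8 4 T 0x1000000000001011000000000000040000001000004001444410000000000042085040810024080000 := rS 0x3599187058bb38aecd42c40f6c92c9fc6a393c80482811999d72ab56bf0a21f3a858a602 (k8 c563 c381 c375 i2671 i10 i440 c427 c34 (k8 c37 i2780 c1180 i193 i1235 i21 c536 i2672 (k8 i195 i1116 c1897 c507 i2776 c570 c1906 c6 (k8 c555 c64 c1183 c1564 c664 c729 c532 i1960 (k1 i1029 k0))))) (by decide +kernel)
def c1908 : PP 8 4 T 0x11000000000000000000000100000001400000010000000002080040000004090000 := rS 0x10ac41331d86b610b0045113e27c66675aae4e42e8ad15307f1a965a63f1db44f689408f50e791ca2cde7501059065f148048219229755aab7e13c12062887ca61c (k8 c1896 c381 i10 i440 c1868 i25 i702 c427 (k8 c37 c34 i443 i41 c391 i21 c536 c1636 (k8 c489 c1698 c375 c563 i2671 i2670 c1881 i195 (k8 i2672 c1660 i1801 i1235 i1342 c570 c479 i215 (k8 i1420 c378 c507 i1116 c1897 c1903 c388 c411 (k8 c870 c379 i2780 i884 c1180 i193 c1904 c1907 (k8 c433 i1234 i1233 i1502 c1905 i250 i1694 i721 (k2 c1643 i3052 (k1 i1575 k0))))))))) (by decide +kernel)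
def c1909 : PP 8 4 T 0x101000000000000000000000000004000040000000000420002000445011004880008 := rS 0x18ec5618d4da0d33c1442c9 (k8 i2776 c465 c538 c456 i462 i669 i1117 c865 (k2 i1804 i219 (k1 c1653 k0))) (by decide +kernel)
def c1910 : PP 8 4 T 0x4001000000000000000000000000000000000020000000000002000005000025000000 := rS 0x728d58022 (k4 i1234 i1233 i246 c0 (k1 c510 k0)) (by decide +kernel)
def c1911 : PP 8 4 T 0x1000000000000048000002100000101050500010001000002000040000004800000 := rS 0x735ba5576d1 (k4 c479 i1950 i1104 i887 (k2 i885 c1610 k0)) (by decide +kernel)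
def c1912 : PP 8 4 T 0x11000000000000000000000100000001000000010000000002080040000004090000 := rS 0x9cb4f059a9d6ebc5da517272174568a98a7b3986355f88686b43ea758a6963a96084765964ae332a8c53e7f8bc451cab56985f8d3578fc76d129a25023d129443e39459bc04164193c12062f8a402410c914ba1c (k8 c1896 i443 i41 c391 i21 c536 c1636 c489 (k8 c1868 i25 i702 c1698 c375 c563 i2670 c1881 (k8 i195 i10 i440 c590 i1801 i1235 i1342 c381 (k8 c479 i215 i1420 i459 c378 c427 c384 c34 (k8 c37 c1908 c416 c504 i2477 i1187 i2676 i2457 (k8 c1806 c1807 c1909 c197 c1373 c83 i1379 i218 (k8 c63 i1803 c335 c1910 i2037 c580 i728 i1455 (k8 i1117 c865 i2035 c501 c1911 c388 c411 c870 (k8 c379 i2780 i885 i1951 i1105 i887 c1134 i1413 (k4 c449 i2038 c54 i705 k0)))))))))) (by decide +kernel)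
def c1913 : PP 8 4 T 0x801000002000000000000000000000051644050154000000002000140010004800000 := rS 0x2d220b949a78b2d1 (k8 c479 c507 c1520 i1718 i2710 c1898 c1138 c463 k0) (by decide +kernel)
def c1914 : PP 8 4 T 0x4001000000000000010000000048005800040000000000000002000000000004000000 := rS 0x17f19 (k2 c394 i1722 (k1 c1089 k0)) (by decide +kernel)
def c1915 : PP 8 4 T 0x1000000000000000000000100000001000000010000000002080040000004090000 := rS 0x19ec31aafe86215a2ad3a6956c108e576596466655e954629f8bc451cc563bc119128ca568a9a163f5326017adcfa733fc3052833a9bc727900864a287279742c25011040a45698255e5f1d9ed2e8b03344a61f44a04383d (k8 i1801 c1896 i1235 i1342 i10 c381 c479 c1868 (k8 c1881 c869 c570 i215 c489 i459 i25 c378 (k8 i41 c417 i21 c563 c590 c375 i443 i702 (k8 c1660 i440 c391 c536 i2672 i195 i2670 i2671 (k8 c1698 c1636 c1912 c408 c534 c57 c541 i1079 (k8 c1610 c870 c384 i1223 c1815 c1869 i2674 c394 (k8 c1709 c401 c520 c20 c547 c1913 c416 c504 (k8 i1187 i2676 i2457 i1418 c1886 c1806 c568 i1392 (k8 c1807 c1373 c83 i1226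 c63 c335 c1914 c1884 (k4 c1084 c580 i1455 i1117 (k2 c865 c255 (k1 i2035 k0)))))))))))) (by decide +kernel)
def c1916 : PP 8 4 T 0x1000000000000000000000000000001440180010000000002040040000024080080 := rS 0x450de2e39984683943860a0ab3c91dca75221740220511061a1f (k8 i10 c408 i2495 i720 i719 c536 i1844 c399 (k8 i2985 c470 i1530 c586 i2294 i479 c710 c1563 (k8 c1778 c1897 i2822 i1092 i326 c451 c379 c480 k0))) (by decide +kernel)
def c1917 : PP 8 4 T 0x1000000000000000000000000000001000100080000000002040000000024080000 := rS 0x1019e45c16 (k4 i717 i718 i1097 i999 (k2 c575 c1452 k0)) (by decide +kernel)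
def c1918 : PP 8 4 T 0x1000000000000000000000000000041040100010000000002040000000024080088 := rS 0x1144c434de50419e45a442e93c30410b805a25f3dadc4e73 (k8 c1917 i1798 i721 c570 c489 c479 i1 i999 (k8 c815 c461 i1222 i1844 c399 c519 c586 c1698 (k4 i479 i1231 c377 c669 (k2 c379 c411 k0)))) (by decide +kernel)
def c1919 : PP 8 4 T 0x1001000000000000000000000000401440910010000080002040040010024880082 := rS 0xbfa1af570bb5ad3d0c7f549ccc6891c9e68a9f3da76308d68b1d8af013c4c565f (k8 c489 i213 c579 i1798 c512 c547 c20 c479 (k8 i964 c401 c393 c570 c1586 c81 i972 c1778 (k8 i1342 i448 c1917 c577 c1916 c1467 c67 i2532 (k4 i1683 c1822 i1415 c543 (k2 i1457 c485 k0))))) (by decide +kernel)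
def c1920 : PP 8 4 T 0x101000000000000000000001000000000144800100010180002000550054524800000 := rS 0xcf423344a7963b15e113 (k8 c579 c512 c547 c20 i972 i862 i894 c1835 (k2 c1791 c1121 k0)) (by decide +kernel)
def c1921 : PP 8 4 T 0x1000000000000000000010015000000000000000055001082000000000004000000 := rS 0x196c94aa4e28fd (k4 c19 c573 c12 c386 (k2 c564 i1390 (k1 i2040 k0))) (by decide +kernel)
def c1922 : PP 8 4 T 0x101000000000000000000000000000000005800000000002002000000054504800000 := rS 0x19a2563b15e113 (k4 c579 c512 c547 c20 (k2 i2520 i2525 (k1 c1835 k0))) (by decide +kernel)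
def c1923 : PP 8 4 T 0x101000000000000000000000015000400005800000055000082000010054524800000 := rS 0x12b3582bf5c155e113 (k8 c579 c512 c1922 c1921 i1457 i1250 i895 i863 (k1 c1380 k0)) (by decide +kernel)
def c1924 : PP 8 4 T 0x1000000000000000050000000000000142000100010180002000550010004800000 := rS 0xcf (k2 i3064 c1121 k0) (by decide +kernel)
def c1925 : PP 8 4 T 0x1000000000000000000000100000001000000010000000002000040000004090000 := rS 0x668957ec1552155ab43388cca2143c5e22591aa398ac7780a4b45d3ebf5644e89a647263469d48051410bcf29b001142c610c80d52735b89c8681448712e8b158ecbed169abc0c3d (k8 i1801 c1868 i459 c378 c479 c489 i215 i213 (k8 c1881 c869 c1896 i1342 i1235 c1915 i1798 i721 (k8 c1917 c577 c1918 c446 i1224 c461 c710 c1298 (k8 c364 i972 i1079 c1610 i1230 c399 c574 i964 (k8 i448 c1778 c870 c579 i741 i2041 c19 i2817 (k8 i513 i1430 i187 c512 c20 c547 c1919 c601 (k8 i2595 c416 c504 i931 i2497 i2634 c1445 c1828 (k8 c1920 i1288 c1924 c1923 c1157 i1722 i863 i895 (k1 c1835 k0))))))))) (by decide +kernel)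
def c1926 : PP 8 4 T 0x1000000000000000000000100000000000000010000000002000040000004090000 := rS 0x3888538bc00270fa84062921a048a1615968ba192f815a0b7468b5071545a58f690698fc0c3d (k8 i1801 c1868 i1420 c378 c1925 i149 c1282 c1859 (k8 c571 i1375 i1243 i1817 i1901 c869 i520 c477 (k8 c505 c533 c549 i213 c461 c710 c1665 i2460 (k8 i1806 i2797 i822 i1302 i1798 c410 c575 i1898 (k2 c548 i2031 (k1 i1342 k0)))))) (by decide +kernel)
def c1927 : PP 8 4 T 0x1000000000000000000000000000000000000020000000002000000000004000080 := rS 0x44900c44e (k4 c495 c474 i1222 i2860 (k2 c815 i448 k0)) (by decide +kernel)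
def c1928 : PP 8 4 T 0x1000000000000040000000000000000010000000008000002000000400004000010 := rS 0x5b15 (k2 c80 i1238 (k1 c548 k0)) (by decide +kernel)
def c1929 : PP 8 4 T 0x1000000000000000000000540010000000000000000540142000000000014000080 := rS 0x4316c1f6994d0283 (k8 c1698 c1665 i454 c378 i1301 i2038 c600 c541 k0) (by decide +kernel)
def c1930 : PP 8 4 T 0x811000002000000040000001014000901404500050001000002080140010084000000 := rS 0x5caf146c17288cfb104f0d456c713b144aa93aa152a93a2a5e286f011ecf216 (k8 c375 i972 c535 c563 i2670 c379 c571 c1869 (k8 c12 c386 c376 i2671 i2754 c590 c547 c54 (k8 c20 c467 i1116 c1520 c1874 c433 c454 c1876 (k4 i1305 i240 c1551 c1877 (k1 i1417 k0))))) (by decide +kernel)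
def c1931 : PP 8 4 T 0x1000000000000000000000100000001000000000000000002080040000014010000 := rS 0x334b2202ba8c666d5c9fcaa314fc5e228e4d25d269556ad6282d30879570d282ccc6734ca285ed3578ec7a2b13bc08a0520a850e891c9bc2c0214a06245b099c5064f04818ba5f (k8 c489 i443 c1868 i25 i702 c1698 c1927 c1926 (k8 i706 c492 c1665 c874 c563 c375 i2670 i194 (k8 i190 c1660 c457 i21 c417 i41 c1167 c54 (k8 c467 c11 c443 i459 c378 i1080 c1887 c870 (k8 c1426 c1928 i553 c1929 c377 i2249 i440 i1311 (k8 c1105 c379 i2889 i2842 c386 c12 c571 c1567 (k8 c1930 c416 c504 i1187 i2676 i2457 i846 c1802 (k8 i556 c1806 i241 c1807 c1455 c465 i729 c1763 k0)))))))) (by decide +kernel)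
def c1932 : PP 8 4 T 0x1000000000000040000000800000000090000000000000002000000000004800010 := rS 0xbcc49a (k4 i554 i553 i2803 c1928 k0) (by decide +kernel)
def c1933 : PP 8 4 T 0x801000002000000000000000800000001444100100000040542000140011024840001 := rS 0x659fd4a0c55ad4fa5523aecaf0556c40d86434a786a5915b1c4ec5689e50a0f (k8 c1360 c376 i972 c479 c547 c54 c20 c467 (k8 c507 i1116 c1520 i1566 c187 c275 c1898 i1434 (k8 c75 i1579 i3004 i1696 i1697 c433 c463 i666 (k4 c724 i1381 c1897 i466 (k1 i2037 k0))))) (by decide +kernel)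
def c1934 : PP 8 4 T 0x111000002000000000000001800004000040050000000005542000141000004800010 := rS 0xd4c8212c1ad97421dab556fc (k8 c427 c37 c34 c443 c602 c531 i633 i2037 (k4 c465 c568 i1117 c1407 k0)) (by decide +kernel)
def c1935 : PP 8 4 T 0x1000002000000000100000800004040840450090000005542000145011004800010 := rS 0x5eb3996c3328853a3535a517eb45cc362a3b63b162317 (k8 c504 c416 c547 c20 c443 c36 c534 i1142 (k8 c1934 i1455 c1437 i634 i2760 i1678 i726 c1407 (k4 c865 c173 i2035 i1413 (k1 i1105 k0)))) (by decide +kernel)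
def c1936 : PP 8 4 T 0x1000000000000000000000100000001000000000000000002080040000004010000 := rS 0x3397ec31aad042ab4e9a55b0423b2cb2654d231fa60399f4ae332a8c53e7f8bc451c8b4bac96e510e20e24811494c727564a2402194393cba5b508584a02208148ad304abc76c713b15e01338819a25f (k8 c489 c479 c1868 c1927 c1926 c1167 c547 c54 (k8 c20 c443 i459 i25 c378 i41 c417 i21 (k8 c563 c590 c375 c457 i706 i443 i702 c1660 (k8 c391 c536 i190 i2776 i2671 i194 i454 c874 (k8 c1665 c492 c1698 c1931 i1230 i721 i2038 i1374 (k8 c1932 c1933 c416 c504 i2477 i1187 i2676 i2457 (k8 c1806 c1807 c1910 c1935 c1610 c384 i1432 i1431 (k8 c1886 c568 i1392 c1373 c83 i1226 c63 c335 (k8 c1914 c1084 i2037 i1117 c865 i1455 i2035 i1152 k0))))))))) (by decide +kernel)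
def c1937 : PP 8 4 T 0x1000000000000040000000000000000020500000000000002005100054054000000 := rS 0x4314ea1 (k4 c26 i282 c600 c1671 k0) (by decide +kernel)
def c1938 : PP 8 4 T 0x1000000000000000000000100000001000100000000100002000040000014010000 := rS 0x2fcd4b812bf0ca2143a562a8e5a8b0e4a086ac9326344a0da6af1f8f456277817d524f3d8a4b2793787c5e160ca352e39099c5366104b451600201140c43 (k8 c1936 c1868 i480 c399 c815 i451 c479 i25 (k8 i961 c364 c1927 c1926 c1714 c869 i964 c391 (k8 c461 i1080 i1302 i969 i972 i2595 i186 i2493 (k8 i1221 c583 c489 c1167 c54 c467 c11 i1420 (k8 i459 c378 c1698 c1937 i448 c870 i2041 c1815 (k8 c600 i821 i822 i2598 c1888 c36 i2653 i931 (k8 i2497 i2634 c573 c1385 c1386 c1423 i1457 i634 k0))))))) (by decide +kernel)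
def c1939 : PP 8 4 T 0x1000000000000000000000100000001000500000000000002000040000014010000 := rS 0x1326359a25a6af1f8f456277807d524f148bc2c1946a5c721338a6cc20968a2c004022818865c (k8 c1938 c1936 c1868 i480 c399 c815 i451 c479 (k8 i25 i961 c364 c1927 c1926 c1714 c869 i964 (k8 c391 c461 i1080 i186 i1221 c583 i1302 c1167 (k8 c54 c467 c11 i1420 i459 c378 c1937 i514 (k2 i448 c870 (k1 i2041 k0)))))) (by decide +kernel)
def c1940 : PP 8 4 T 0x1000000000000010000000501000000010000000000000002000040400004010002 := rS 0x264c6d357a352e9b308240c8b (k8 i451 c1868 i25 i961 c364 c869 i964 i459 (k4 c378 i448 c870 i2041 k0)) (by decide +kernel)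
def c1941 : PP 8 4 T 0x400000000000001021002000000000000000051000004000400800154000010442000000000004000000 := rS 0x221048ba492a675ed14fe513eab556c9 (k8 c459 c37 c34 c57 c377 c408 c81 i1415 (k4 c1180 c1710 c1138 c436 (k2 c1012 c1171 (k1 c1566 k0)))) (by decide +kernel)
def c1942 : PP 8 4 T 0x1421002000000000000050010000005001400800014000000442020140014004800000 := rS 0x8622b45dd3d0c593a800e67f (k8 c408 i923 c815 c574 i2595 c1467 c67 i1683 (k4 c1941 c463 i2498 c1465 k0)) (by decide +kernel)
def c1943 : PP 8 4 T 0x1000000000000000000000100000001000100000000000002000040000014010000 := rS 0x5a88cdaa34a99442878bc451cb98aa21f8b33e944ff0c509ce8a8289971a6af6389d8af029aa49e292c9bc3e2f0b064721338a753f1846b451600201140c43 (k8 c1936 c1868 i480 c399 c815 i451 c479 i964 (k8 c401 c39 c393 c1927 c1926 c1714 c391 c461 (k8 i1080 i1302 i969 i2595 i186 i1221 c583 i453 (k8 c1167 c547 c54 c20 i459 c378 c1938 c65 (k8 c1939 c81 i923 i2616 c600 c408 c377 c57 (k8 i513 c371 c1940 c518 i2896 c1942 c416 c504 (k8 i931 i2497 i2634 i1102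 c223 i516 c1445 c1437 (k1 c1680 k0)))))))) (by decide +kernel)
def c1944 : PP 8 4 T 0x1000000000000000000000100000001000000000000000002000040000014010000 := rS 0x22140b386a005e000b2a4801927915a6d12f87c8606 (k8 c1868 c1936 i1302 c489 c479 c378 i480 i1221 (k8 c391 c399 c583 c461 c815 i1080 c1943 c2 (k4 i1335 c600 c1940 c26 k0))) (by decide +kernel)
def c1945 : PP 8 4 T 0x101000000000000000100000015000014400080000005000002040000000024000000 := rS 0xcacb5c99e091623b941a7510288de0f (k8 c1360 c451 i720 i719 i1668 i1647 c470 i1530 (k4 c1171 c77 c486 c487 (k2 c434 c75 (k1 i2040 k0)))) (by decide +kernel)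
def c1946 : PP 8 4 T 0x1000000000000000000011000000014400040054000000002000001000244000000 := rS 0xfa75 (k2 i1499 i1502 (k1 c1138 k0)) (by decide +kernel)
def c1947 : PP 8 4 T 0x101000000000000000400011015000014400040150005000002000000000004000000 := rS 0x150f86f (k4 c451 c1138 c1188 i1541 k0) (by decide +kernel)
def c1948 : PP 8 4 T 0x111000000000000000100001015000000480000050005100002040001010064050000 := rS 0x6835a748e6d32158aa673a30c1a2165ae4fec762bc04a5922104029549c50de0f (k8 c1360 c451 c379 c12 c386 i451 c815 c399 (k8 i603 i346 c1167 c547 c20 c1945 c1802 c179 (k8 c1946 i482 c865 c1947 c460 c589 c429 c493 (k4 i555 i225 i2957 i507 (k2 c1143 i1887 k0))))) (by decide +kernel)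
def c1949 : PP 8 4 T 0x8001200000000000000100000015000014000000000005000002000000000004000000 := rS 0x5c99d9665 (k4 c75 c434 c486 c487 (k1 i2040 k0)) (by decide +kernel)
def c1950 : PP 8 4 T 0x1000000001000000100000015000014080000000005000002400105000004051000 := rS 0x9da7b08da9f1a45d9e6935c1076c762bc2320f (k8 c1360 c40 c1167 c547 c20 c443 c77 c537 (k8 c63 i1978 c1949 c510 i1183 i556 c1143 c428 (k2 i1905 c566 k0))) (by decide +kernel)
def c1951 : PP 8 4 T 0x1000000000000000000000000000001088000000000000002000000000004000000 := rS 0x2267b (k2 c430 c32 (k1 c744 k0)) (by decide +kernel)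
def c1952 : PP 8 4 T 0x101000000000000000100000005000000480000050000100202040001010064050000 := rS 0x9c321a1866b239b41a212b32968c762bc04a44208061aad30a94c60f (k8 c1360 c687 i2877 i2822 i2823 c377 i451 c815 (k8 c399 i346 c1167 c547 c20 c1948 i1397 i1398 (k8 i728 i2297 i2381 i1578 i507 c865 c1143 i1888 (k2 i1887 i2957 k0)))) (by decide +kernel)
def c1953 : PP 8 4 T 0x201000000000000000100000015000014084000000005000002200105010004050000 := rS 0xd23b94ae23428ad8e2762bc04a0f (k8 c1360 i346 c1167 c547 c54 c20 c467 c6 (k4 c454 c64 c1876 i224 (k2 i481 c1950 k0))) (by decide +kernel)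
def c1954 : PP 8 4 T 0x1000000000000000000000005000001080000010000100202040000000066050000 := rS 0x30c1a2147444525f12ab462c9198e4044420804c69549c50e66f30c350e0f (k8 c1360 c1951 c377 i2822 c451 i1092 c379 c12 (k8 c386 c687 i451 c815 c399 c446 i2095 c1163 (k8 c407 c481 i2823 i346 c489 c874 c1953 c1952 (k4 c1702 i482 c865 c1726 k0)))) (by decide +kernel)
def c1955 : PP 8 4 T 0x1000000000000000000000005000001080000010000000202040000000066050000 := rS 0x44cf65c (k4 c1954 c524 c65 c744 k0) (by decide +kernel)
def c1956 : PP 8 4 T 0x1000000000000000000000000000001080000000000000002040000000024050080 := rS 0x30505591082a900abce21f (k8 i1302 c1927 i459 i451 i577 c815 c399 i2294 (k2 i479 c710 (k1 c1955 k0))) (by decide +kernel)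
def c1957 : PP 8 4 T 0x401000000000000000050000800005015400050050004010082000140014004800002 := rS 0xa1aae0ab8659516aad432a5fa5a (k8 i1430 c19 c577 c1467 c1269 i2532 i777 i1389 (k4 c1822 c49 i1657 c543 (k1 c546 k0))) (by decide +kernel)
def c1958 : PP 8 4 T 0x1000000000000000000000100000001000000000000000102000040000004010000 := rS 0xcd9ecd128317ec1552b686675a21446bd328850f1788a3926954fa74b45d8a44e8a9b8c2c9327d7ea09526330a346a2f3a9fc9c732c8a40016200648ad304abc762b63b1512811eadc4ef01ca2c38436884ce206 (k8 c1868 c1927 c1926 c479 c1936 c1944 c1956 c1714 (k8 c1167 c54 i721 c11 i1235 i1342 c547 c20 (k8 c467 c443 i459 i25 c378 i479 c391 c399 (k8 c461 c815 i186 i2595 i2494 i741 i2495 c574 (k8 c575 c601 i964 i961 i448 c577 c1610 c19 (k8 i2817 c870 c1940 c401 c364 c81 c579 c573 (k8 i513 i1430 c393 c39 c386 c12 c1957 c416 (k8 c504 i931 i2497 i2634 i1416 c1445 c1924 c1920 (k8 c1828 c580 i1288 c1923 c1157 i1722 i457 i863 (k4 i895 c255 i1609 c1122 k0)))))))))) (by decide +kernel)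
def c1959 : PP 8 4 T 0x1000000000000000000004000000141040100044000100202000000000004000000 := rS 0x106796897cf64f (k4 i52 c570 c489 c479 (k2 c586 c1698 (k1 c669 k0))) (by decide +kernel)
def c1960 : PP 8 4 T 0x111000000000000000000000015100001440000010005200002240040000066050000 := rS 0x2e16a7f100c5929549c50e66f (k8 c451 i1092 c379 c12 c386 c407 c481 c1707 (k4 c1945 i728 c1946 c1802 k0)) (by decide +kernel)
def c1961 : PP 8 4 T 0x1000000000000001000002000000000000100000005100000080000000000002000145400024000000 := rS 0x33d86355fa8a863b63b156e27 (k8 c54 i721 c547 c20 c443 c16 i720 i1724 (k4 i326 i329 c255 i2035 k0)) (by decide +kernel)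
def c1962 : PP 8 4 T 0x1400000000000001000000000000000000500000000000008040000000000002000000000004000000 := rS 0x1774f (k2 c67 i1683 (k1 c485 k0)) (by decide +kernel)
def c1963 : PP 8 4 T 0x1000000000000011000000000000000000100815100001440000010005200002240040000066050000 := rS 0x2ee9ec235afe86b83fa74da0d239a4aeb511a14fa758831d8af01ca6da23119a55329317c50e66f4fc4cf60f (k8 c1360 c570 c65 c1586 c451 i1092 c379 c480 (k8 c12 c411 c386 c1163 c481 c479 c364 c1714 (k8 c1167 c547 c20 c1960 c368 c433 c6 c454 (k8 c463 c64 i1849 i224 i481 i515 c335 c1961 (k8 c1138 c543 i1457 i634 c1143 c428 i1945 c485 k0))))) (by decide +kernel)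
def c1964 : PP 8 4 T 0x1000000000000011000000000000000000100815100001040000010005200002240040000066050000 := rS 0x86228e (k4 c1963 c416 c1702 c1707 k0) (by decide +kernel)
def c1965 : PP 8 4 T 0x1000000000000000000000100000001000000000000000002000040000004010000 := rS 0xbd5920a265ca2a985e998a18ce62d4d9bc30ab529855a4454c34a0394ba2d6e810e07c86d11f8ec7a277804ce206 (k8 c1868 c1927 c1926 c1167 c54 c11 c443 i1420 (k8 c479 c1936 i1302 c1944 i1235 i721 c1956 c869 (k8 c1714 c1958 c377 c385 i1230 i2823 i2822 i2877 (k8 i2294 c710 c451 c364 c519 i1092 c687 c379 (k8 c411 c480 c745 c14 c1959 c65 c440 i1437 (k2 i2902 c1964 k0)))))) (by decide +kernel)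
def c1966 : PP 8 4 T 0x1000000000000000000000100000000000000000000000002000040000004010000 := rS 0xea9d102f0f80086032d34102292e97d4205228596e8d16a0e2a194b464f3133da404e2b1e8ede013388fda606 (k8 c1868 c378 i1420 c1927 c1926 c1167 c443 c11 (k8 c467 c54 c1965 i149 c390 i148 c50 c1282 (k8 i1168 c571 i1375 i1243 i1817 i1901 c461 c710 (k8 i520 i822 c477 c1277 c874 c1665 c1613 c492 (k8 i1161 i706 c410 i1302 c575 c548 i1898 i1342 (k1 i2031 k0)))))) (by decide +kernel)
def c1967 : PP 8 4 T 0x101000000000000010100000000005000540000101100005002000000000004000000 := rS 0x1accecf821962c59 (k8 c507 c1171 c1644 c83 c420 c486 c537 i2042 k0) (by decide +kernel)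
def c1968 : PP 8 4 T 0x1000000000000000100000090005001544004101000144802000000000004000000 := rS 0x3299e0ace8b9a99b1034954f2d142c48be59 (k8 c507 c477 c492 c376 c479 c78 i831 i1927 (k8 c1967 c555 i2039 c1564 c1146 c537 i547 i1028 (k1 c532 k0))) (by decide +kernel)
def c1969 : PP 8 4 T 0x101100000000000000000000000004001405001000000004002080000000004000000 := rS 0x661522c7b3a8082c59 (k8 c507 c375 c563 i2671 c535 c1171 c83 c1564 (k1 i2459 k0)) (by decide +kernel)
def c1970 : PP 8 4 T 0x1000000000000000000000080005001540000001000104802080000000004020000 := rS 0x198d46534d3d9d1766c420aac3c9ed9275010590e858917cb613 (k8 i6 i706 c477 c492 c376 c1660 c375 c563 (k8 i2671 i2776 c535 c78 c1968 c488 c1969 c555 (k8 c1564 c1146 c501 i3040 i1028 c550 c532 i547 k0))) (by decide +kernel)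
def c1971 : PP 8 4 T 0x4011000000000000000000000000000014010000080000020002080005100014000000 := rS 0xb83f88542a3690bc2d15 (k8 c36 c375 i1080 c548 c69 c457 c465 c576 (k2 c1455 i1142 k0)) (by decide +kernel)
def c1972 : PP 8 4 T 0x4111000000000000000000100090000010010000081002505002080001100014020000 := rS 0x10ae4fecc619ae0859499a5428742c48b61351b485e168a8cc0441 (k8 i21 c563 c1806 c36 c375 i1080 c548 c69 (k8 i6 i706 c492 c376 c1660 c457 i1927 i1281 (k8 c1971 c83 c537 i1952 i2039 i849 i1142 i730 (k1 c1455 k0)))) (by decide +kernel)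
def c1973 : PP 8 4 T 0x1000000000000000000000104000001000000080002100002080040000094000040 := rS 0xc8342c2960aac19954631788a397a6d57515823e2bb492a9929224c605208bd3a9f45a5d37181c84c761678a9c5a02868f5025f468422a0f (k8 c1360 c36 c1966 i1759 c477 c1665 i1307 c452 (k8 c563 i1001 i1913 c374 c375 i1155 i6 i194 (k8 c520 c394 c526 c40 c39 c393 i1080 i21 (k8 i524 i74 i1278 i1017 i1020 i1019 c548 i568 (k8 i2034 c539 c10 c678 i593 i1987 c1970 c416 (k8 c504 i2676 i2457 c1806 c1972 c488 i1286 c83 (k2 c1673 c568 (k1 i2700 k0)))))))) (by decide +kernel)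
def c1974 : PP 8 4 T 0x101000000000000010100000000005000544000100100005002000000001004020000 := rS 0x46e5108318c6c (k4 c1967 i476 i475 i1689 (k2 c4 i1569 (k1 c392 k0))) (by decide +kernel)
def c1975 : PP 8 4 T 0x1002000000000000000008004005001540000080000100442080000400004020040 := rS 0x2554abd111fcac31499962c695d9569f11660cd9e675cad46a593cb444a7b649d42c5116a1d0b122f96c271556a268ac151b481202 (k8 c563 c56 c1426 c69 c539 c62 i190 c34 (k8 c36 i6 i706 c477 c492 c376 c1660 i1001 (k8 i439 c375 i2671 i2776 c535 c590 c479 c78 (k8 c507 i1116 i884 i1141 c1180 c1530 i193 c1146 (k8 c1183 c491 i2459 i1949 i1831 c1171 c1644 c436 (k8 i1002 c1974 i1666 i442 i1989 i249 c1710 i2033 k0)))))) (by decide +kernel)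
def c1976 : PP 8 4 T 0x1002000000000080000000000000000804000000000555102010400000004820008 := rS 0xcc619b4d6696388208471a2162511 (k8 c416 c492 c376 c1410 c1373 c83 i1117 i412 (k4 i1764 c537 i476 i1952 (k2 i2039 i730 k0))) (by decide +kernel)
def c1977 : PP 8 4 T 0x1000000000000000000000104000001000000080000100002080040000094000040 := rS 0x5a29528e4498d4cf0510960ae332a8c62f114734912b604ab55efc299848a412db245e9d4fa2e3039098ec2cf1599445a0240a0c9e872fa34210d (k8 c452 c1966 i1759 c477 c1660 i701 c1698 c1665 (k8 c563 i1001 i439 i473 c374 c375 i1155 i6 (k8 i194 c520 c40 c39 c393 i1080 i2776 i706 (k8 i21 i41 c1973 c593 c427 c503 c34 c56 (k8 i2038 i190 c1426 c1975 c416 c504 i2676 i2457 (k8 c1806 c1807 c1976 c465 c538 c456 i1117 c1012 (k4 c510 c1971 c484 i1103 (k1 i1395 k0)))))))) (by decide +kernel)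
def c1978 : PP 8 4 T 0x101000000000000010101010000045004554000100100011802000014501004020008 := rS 0x7c52158ca60 (k4 c593 c1644 c1974 c1837 (k2 i569 i1326 k0)) (by decide +kernel)
def c1979 : PP 8 4 T 0x400000000000001000000000000000001000000005005555004080100011802000004501004820008 := rS 0x4a33a2ecd882e46a7968b24ea993028da515 (k8 c36 c548 c69 c593 i1020 i2671 i2776 c479 (k8 c78 i1116 i1141 c1978 c555 c1564 c1146 c472 (k1 i1104 k0))) (by decide +kernel)
def c1980 : PP 8 4 T 0x1000000000000000000000100000001000000080000100002080040000094000040 := rS 0x2f0d66d822e0ae9518c5e228e19ab88f45518f9a4594ca256a60291a4aa9360ab5fb43554540ad122894f64f548bd3a9f45a5d37181c8ec2cf159a9ca22d0121d0b122d84e1a3d4097d1a10 (k8 c1966 i1759 c477 c1665 i1307 c452 i6 i706 (k8 c492 c376 c1660 c563 i1001 i439 i1913 i473 (k8 c374 c375 i1155 i194 c520 c394 c526 c40 (k8 c39 c393 i1080 i2754 i701 c535 c590 i41 (k8 c479 i524 c36 c1977 c439 c37 i98 c1157 (k8 i1636 i1658 i1662 c427 c593 c562 i1278 i1020 (k8 i582 c548 i2034 c69 c10 i1655 c678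 i192 (k8 c1979 c416 c504 i2676 i1103 c1807 c472 c83 (k4 c810 c537 c1972 i1986 k0))))))))) (by decide +kernel)
def c1981 : PP 8 4 T 0x1000000000000000000000100000001000000000000100002080040000094000040 := rS 0x57984c6997e450a67386a35a27127aa4de8b4ba6e30390104c761678acc2051 (k8 i439 c1966 i473 c374 c375 i1155 i6 c563 (k8 i194 c520 c394 c526 c40 i2670 i2754 i701 (k8 c582 c479 i1759 c452 c1980 c528 c379 c427 (k4 c411 c80 c384 c503 (k1 i2041 k0))))) (by decide +kernel)
def c1982 : PP 8 4 T 0x1000000000000000000000104000001000000080002100002080040000014000040 := rS 0xc8342c2960aac19954631788a397a6d575147c574aa64a48931814be8d208bd3a9f45a5d37181c84c761678a9c202d010f582d286a843e0f (k8 c1360 c1981 c457 c534 c600 c539 c476 c563 (k8 i1001 c1966 i1913 c374 c375 i1155 i6 i194 (k8 c520 c394 c526 c40 c39 c393 i1080 i21 (k8 i1759 c477 i524 i74 i1278 i1017 i1020 i1019 (k8 i568 i2034 c10 c678 i593 i1987 c1970 c416 (k8 c504 i2676 i2457 c1806 c1972 c488 i1286 c83 (k2 c1673 c568 (k1 i2700 k0)))))))) (by decide +kernel)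
def c1983 : PP 8 4 T 0x1000000000000000000000104000001000000080000100002080040000014000040 := rS 0x2e98cb462a51c8cf49ae586a51a990fe212c15c665518c5e228e44ad812ad57bf0a661229044a5b17a753e8b8c0e4761678acca22d010a426814193d0e5f4684182a369435421f (k8 c1981 c457 c534 c600 c69 c539 c1966 i1759 (k8 c477 c1660 i701 c1698 c1665 i6 c874 c563 (k8 i1001 i439 i473 c374 c375 i1155 i194 c520 (k8 c40 c39 c393 i1080 i706 c590 i21 i41 (k8 c1982 c593 c427 c503 c34 c56 i2038 i190 (k8 c1975 c416 c504 i2676 i2457 c1806 c1807 c1976 (k8 c465 c576 c568 i1117 c198 c865 i1142 i1549 (k8 i1028 c510 i2033 c41 i1103 c1634 i887 i1679 k0)))))))) (by decide +kernel)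
def c1984 : PP 8 4 T 0x1000000000000000000000100000001000000080000100002080040000014000040 := rS 0x1786b36c11705757254631788d151c3e2ca6512b5300cca4473495526ad7ed0d54a3608f5a50d8a815a24512a84f64f00905522f4ea7d16974dc60723b0b3c566a7288b4048742c48be8d2d84c201f (k8 c1981 c1966 i6 i706 i1759 c477 c492 c376 (k8 c1660 c563 i1001 i439 i1913 i473 c374 c375 (k8 i1155 i194 c520 c394 c526 c40 c39 c393 (k8 i1080 i2754 i21 c536 i701 c535 c457 c590 (k8 i41 c479 i524 c36 c534 c600 c476 c539 (k8 c69 c1983 c439 c37 i98 i1636 i1658 i1662 (k8 i1655 c427 i192 c593 c562 i1278 i1020 i582 (k8 i2034 c1979 c10 c416 c504 i2676 i1103 c678 (k4 c1807 c472 c833 c810 (k2 c537 c1972 (k1 i1986 k0))))))))))) (by decide +kernel)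
def c1985 : PP 8 4 T 0x1000000000000000000000000000441100504014002000542000000000004000000 := rS 0x86265fa79 (k4 c78 c384 i1020 c427 (k1 c1815 k0)) (by decide +kernel)
def c1986 : PP 8 4 T 0x11000000000000010000000501000440140000054001000142000000000004000000 := rS 0x15e634cbf22853 (k4 c528 c379 c427 c411 (k2 c80 c503 (k1 i2041 k0))) (by decide +kernel)
def c1987 : PP 8 4 T 0x1000000000000000000000100000001000000000000100002080040000014000040 := rS 0x18dfb15572616f0c3094ce6834097cf28d689c4f65b27aa4de8b4ba6e30390104c761678acc2051 (k8 i439 c1966 i473 c374 c375 i1155 i6 c563 (k8 i194 c520 c394 c526 c40 i2670 i2754 i701 (k8 i706 c535 c582 c479 i1759 c78 c477 c1665 (k8 c1698 c1984 c528 c1985 c1986 c541 c1815 i2038 (k4 c411 c503 i539 c573 k0))))) (by decide +kernel)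
def c1988 : PP 8 4 T 0x1000000000000000000000000400000000000000002000002005540500004020000 := rS 0x4ca240a8d4ba6e30f1 (k8 c374 c520 c394 c526 i1759 i524 i1278 i1020 (k1 i2034 k0)) (by decide +kernel)
def c1989 : PP 8 4 T 0x401000000000000000000004000400001000000080000000142001440520004020008 := rS 0x2068a9844825f853308fd070d3ca352e9b8c0e426f1 (k8 c374 i6 i194 c520 c394 c526 i1759 c78 (k8 c534 i923 i257 c1988 c593 c427 c56 i190 (k4 i2034 c388 i1863 c440 k0))) (by decide +kernel)
def c1990 : PP 8 4 T 0x1000000000000000000000000400000000000000002000542001540520004020000 := rS 0xf4307cfd (k4 c384 c1988 c427 i256 (k1 c452 k0)) (by decide +kernel)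
def c1991 : PP 8 4 T 0x2000000000000001000000000000000000004000000041000105054000000002000000000004000000 := rS 0x99 (k2 c388 c864 k0) (by decide +kernel)
def c1992 : PP 8 4 T 0x8001000000000000000000000000005000000000000100002002080450004004040000 := rS 0x638c58ac31011802411c80866cf (k8 c420 c389 c563 i194 i21 c536 i704 i703 (k4 i210 i1535 i1532 i1690 (k1 i2035 k0))) (by decide +kernel)
def c1993 : PP 8 4 T 0x101000000000000010000000000000000400000000000200002080440000004020000 := rS 0xd6652a99d9f1646b24ea9d4fa2e30390104de227229b4d2cd141646a16 (k8 c375 i1116 c507 i444 i3133 i3069 i2256 i41 (k8 i1766 c374 i6 c563 i194 c520 c40 c39 (k8 c393 i2671 i2776 i1759 c1171 c420 c486 c1992 (k2 c1644 c881 (k1 i2042 k0))))) (by decide +kernel)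
def c1994 : PP 8 4 T 0x1000000000000080050000000405200410050100000000002004551501054000008 := rS 0x19c5982a3 (k4 c69 c539 c1783 c389 (k1 c1779 k0)) (by decide +kernel)
def c1995 : PP 8 4 T 0x1002000000000080050001004405440400050100000004542015550401054000048 := rS 0x19655060c1308904ab45a59 (k8 c507 i1001 c34 c56 i190 i2034 c1994 i1003 (k2 i1490 i465 (k1 i2037 k0))) (by decide +kernel)
def c1996 : PP 8 4 T 0x1000000000001001001000000000000000000501000000040000000001000002000000000004000000 := rS 0x15c62 (k2 c573 c371 (k1 i539 k0)) (by decide +kernel)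
def c1997 : PP 8 4 T 0x1002000000000090000000004000000400050000000200402080440000054020040 := rS 0x63b14aeb511a162035208949e75178593a9f4ba6e30390104de2a7288f47e28 (k8 i444 i256 i1840 i439 i1913 c374 i6 c563 (k8 i194 c520 c394 c526 c39 c393 c375 i1080 (k8 i2671 i701 c590 i21 i1116 c1993 c6 c454 (k4 c463 c64 i1841 i258 (k1 c1995 k0))))) (by decide +kernel)
def c1998 : PP 8 4 T 0x1000000000000005040000000001000800000000000000002000554021004000000 := rS 0x18821 (k2 i726 c1037 (k1 i1842 k0)) (by decide +kernel)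
def c1999 : PP 8 4 T 0x1002000000000080000000004000001000050000000200002080040000054020040 := rS 0xcb2c99468575a8cd9eb963a54aa3143c5e228e3ca35a245209c44ac94eb34a6735bc4ca24f8aab5308904a5c7a9b8c0e4263b788fc502d010bc2ca7 (k8 i1913 c375 i1080 c563 i1001 i444 i256 c374 (k8 i1155 i6 i194 c520 c394 i1840 c526 c56 (k8 i190 i2034 c34 c745 i701 i439 c65 i1931 (k8 c1989 c528 i3133 c393 i2776 c590 c582 i21 (k8 i41 c479 i1759 c78 c1997 c416 c504 i931 (k8 i2676 i2457 i1102 i259 c1436 c1791 c1806 c1437 (k4 c1807 c1998 i2700 c568 (k2 c173 i2037 k0)))))))) (by decide +kernel)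
def c2000 : PP 8 4 T 0x1002000000000080000000000000001000050000000200002080040000054020040 := rS 0xaa (k2 c1999 c37 k0) (by decide +kernel)
def c2001 : PP 8 4 T 0x1000000000000000000000100000001000000000000000002080040000014000040 := rS 0x1f8d2a2c547e1f3e9fd030c3094ce63d142de265c169454eb33ca35a2713d93d526f17a2d2e9b8c0e404131d859e210 (k8 c1966 c374 c375 i1155 i6 c563 i194 c520 (k8 c394 c526 c40 i1080 i2670 i2754 i701 c535 (k8 c582 c479 i1759 c78 i473 i1913 i439 i1001 (k8 c1987 c65 i1931 i444 i1840 c1989 c528 c1990 (k8 c1986 c2 c408 c57 c452 i256 c745 c1991 (k2 c449 c1996 (k1 c2000 k0))))))) (by decide +kernel)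
def c2002 : PP 8 4 T 0x1000000000000811000000000000000000009014005501404501040001000002088000000004000000 := rS 0xbfa1b3970cd3ec40fe7b549d50a9549c50de16011c57a25 (k8 c590 c261 c582 c563 c375 i2670 c379 c12 (k8 c386 c376 i2671 i2754 c535 c1198 c1874 c433 (k4 c555 c1138 c1146 c543 (k2 i1457 c255 k0)))) (by decide +kernel)
def c2003 : PP 8 4 T 0x1000000000000000000000100000001000000000000100002080040000014000000 := rS 0xcc619acda698231c8e592b88146335c9fcaa318bc451cab569416a934a9847c1e8a0b47a8586ada8a878920d025f3ca35a24538a84f65b279bd3a9f45a5d37181c84c76f1081cc12024ca24024117859a606 (k8 c2001 c378 c375 i1080 i21 c536 i1341 c870 (k8 c563 i25 c1426 c1966 c374 i1155 i6 i194 (k8 c520 c394 c526 c40 c39 c393 i2670 i701 (k8 i706 c535 c457 c582 i41 c479 i1759 c78 (k8 c477 c1665 c1698 c492 c1660 c1869 i2045 c1815 (k8 c376 i1784 c1105 c379 c600 c1883 i1223 c386 (k8 c12 i2889 i1301 i2842 i2249 c2002 c416 c504 (k8 i2676 i2457 i846 c1802 c1806 i241 c1455 c1807 (k8 c465 i1529 i1689 c83 i1764 i476 c537 i1952 (k2 i2039 i730 k0))))))))))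 (by decide +kernel)
def c2004 : PP 8 4 T 0x1000000000000000100001020000010400010050004000002000000000004000080 := rS 0x67493008d05 (k4 c488 i1226 i1225 c831 (k2 i2971 c1025 k0)) (by decide +kernel)
def c2005 : PP 8 4 T 0x1000000000000001000000000000000000000000000101400850040006200002080040000004020080 := rS 0x8767afe86b849ab57ab542c40f28d689c4f6c93a9bd3a9f4dc6072131d859e2cd142545802 (k8 c563 i1223 i2674 i444 i3133 c374 c375 i1155 (k8 i6 i194 c520 c394 c39 c393 i2670 i2671 (k8 i2776 c535 c582 c479 i1759 c78 c1993 c6 (k8 c463 i1415 c2004 i1281 c1138 c543 i1457 c255 (k2 c1962 c1146 k0))))) (by decide +kernel)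
def c2006 : PP 8 4 T 0x1000000000000000000000100000001000000000002000002080040000014000000 := rS 0xab56ad596595191c40651a15c66c76795462878bc451c7d3fd16188240945fa7946914e2253d93d926f4ea5d37181c84c76f129a84e6090118c0a9944804822f0b34c0d13668a0b810 (k8 c1966 c2003 i444 i3133 c65 c2001 c378 c375 (k8 i1080 i21 c536 i1341 c870 i524 c1928 c563 (k8 i25 c1426 c457 i454 c374 i1155 i6 i194 (k8 c520 c394 c526 c393 i2670 i2776 i701 c535 (k8 c590 c582 i41 i1759 c78 c384 i1311 c765 (k8 c1985 c427 c1869 c408 c57 c2005 c416 c504 (k8 i931 i2676 i2457 c1791 i259 c1806 c1807 c1998 (k8 i2700 i1117 i207 i326 c568 i1392 i727 i1226 (k2 i458 i2037 k0))))))))) (by decide +kernel)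
def c2007 : PP 8 4 T 0x1000000000000001000000000000000000000000000115400850040000200002080040000004020000 := rS 0x43b3d7f435c2f56a85881e51ad1389ecea6f4ea7d37181c808263b0b3c59a28 (k8 i444 i3133 c374 c375 i1155 i6 c563 i194 (k8 c520 c394 c39 c393 i2670 i2671 c535 c582 (k8 c479 i1759 c78 c1993 c6 c463 i1415 c1138 (k4 c543 i1457 c255 c1962 (k1 c1146 k0))))) (by decide +kernel)
def c2008 : PP 8 4 T 0x1000000000000000000000100000001000000000000000002080040000014000000 := rS 0x196ab56ad4b2a323880ca342b8cd8ecf2a8c50f1788a39047d3fc31269528a068b14570b4c2cd142ce265c4c98ce68929825a6064da5d169d8c0bcde3b1cb255201279ed4216129c4044122bc426053ca3420d1 (k8 c479 c1966 i1759 c78 i524 i6 c374 i41 (k8 i21 c563 c582 c590 c375 c457 c535 i701 (k8 c536 i2754 i2776 i194 i1155 i2670 i1080 c520 (k8 c393 c40 c526 c394 c2001 c378 i25 i454 (k8 i1341 c1426 c1928 c870 c2003 c65 i2255 i444 (k8 i3133 c2006 i1000 i2041 c548 c468 i1862 i2250 (k8 c386 c12 c1986 c408 c57 c1815 c2007 c416 (k8 c504 i931 i2676 i2457 c1791 i259 c1806 c1807 (k8 c1998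 i2700 i1117 i207 i326 c568 i727 i1226 (k2 i458 c197 (k1 i2037 k0))))))))))) (by decide +kernel)
def c2009 : PP 8 4 T 0x10001000000000000000000008000000101000004080000000002000000000004000000 := rS 0x12f45 (k2 c62 i1901 (k1 c1523 k0)) (by decide +kernel)
def c2010 : PP 8 4 T 0x11000000000000000000004500000000000400000000540542000000000004000000 := rS 0x2b9f881 (k4 c1665 c427 i2038 c503 k0) (by decide +kernel)
def c2011 : PP 8 4 T 0x1000000000000000000000000400001080104080000000082004000054054000000 := rS 0x570f150a1 (k4 c1151 i758 c1754 i577 (k1 c1150 k0)) (by decide +kernel)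
def c2012 : PP 8 4 T 0x8001000000000000000100010015000000000000000001000002060000200214000040 := rS 0x196654a8308ea3318012667 (k8 c486 c436 c815 i447 i1650 i1530 i744 i979 (k2 i963 i465 (k1 i2040 k0))) (by decide +kernel)
def c2013 : PP 8 4 T 0x111000000000000000050015015000000405000100005050002000000255504000000 := rS 0xcb4a954fe31663912716 (k8 c1171 c436 c392 c1835 c450 i848 i769 i978 (k2 c179 c1188 k0)) (by decide +kernel)
def c2014 : PP 8 4 T 0x101000000000000000050004001020000405000080000040002140000054014000040 := rS 0x25596553e1584421161661aad55bf0c6618ab244a160cad572938b1d40040 (k8 c399 c815 c574 c1171 c436 i1141 i884 c391 (k8 c461 i860 c459 c36 i2631 i447 c573 c37 (k8 c34 c534 i2595 i822 c2012 c2013 i185 i312 (k4 i1538 i506 i1597 c1188 k0)))) (by decide +kernel)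
def c2015 : PP 8 4 T 0x1000000000000000000004000410000000500080000000002004200054054000000 := rS 0x782d (k2 i977 i2031 (k1 i1878 k0)) (by decide +kernel)
def c2016 : PP 8 4 T 0x101000000000000000000004001020000405000080000040002140200050014000040 := rS 0x62b1d3a338b1d400273d9002c19 (k8 c391 c461 c399 i2493 i1875 c815 c574 c1171 (k4 c389 c552 i298 i1879 (k1 c2014 k0))) (by decide +kernel)
def c2017 : PP 8 4 T 0x11001000000000000004108010001000444000000000045000002000000200004020044 := rS 0x4ab2ccaa3062b556fc (k8 c573 c37 c34 i1953 c1042 i1492 i465 i979 (k1 i2040 k0)) (by decide +kernel)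
def c2018 : PP 8 4 T 0x400000000000000201000001000000000054000000000000005000000000000002000000055004000000 := rS 0xe5 (k2 c1876 c515 k0) (by decide +kernel)
def c2019 : PP 8 4 T 0x11201000000000000000110010001008440015000000045000002000200255004020054 := rS 0x1969532c5c64c661a4de2cf56aadf94f (k8 c529 c573 c37 c34 i3138 c374 i1718 c2017 (k4 c2018 i298 c389 i1546 (k2 i1672 c173 (k1 i2040 k0)))) (by decide +kernel)
def c2020 : PP 8 4 T 0x201000000000000000150010015008000005000000045000002002000655004020044 := rS 0x12acb32b001893610cde34f (k8 c529 c374 i1711 c2018 i1242 i1953 i1959 i1492 (k2 i465 i1518 (k1 i2040 k0))) (by decide +kernel)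
def c2021 : PP 8 4 T 0x11201000000000000000000010001001401415005101005000002000200651004020054 := rS 0x49b2d2ac132c5c64c61e258ce9e6289d9ead55bf192cd (k8 c555 c459 c573 c37 c34 i3138 i1875 i1879 (k8 c1146 i1713 c2019 i1243 c2020 i298 c389 i1546 (k4 i3024 i1672 c173 i1241 (k1 i2040 k0)))) (by decide +kernel)
def c2022 : PP 8 4 T 0x10001000000000000000000004001020001405001081000540002040200040014020050 := rS 0x15208693299c8e30621ad8f174e15d9a23882e44ac914964762f019d46a638aa6cc200139ec8089160583245 (k8 i483 c391 c461 i822 c26 c399 i2493 i1875 (k8 c815 i2631 i1179 c36 i447 c601 c574 i999 (k8 i1080 i1155 i2595 i1836 c459 i860 i1141 c2016 (k8 c454 c555 c64 c2021 c552 i1641 i1908 c1875 (k8 i1880 i2941 i1506 i963 i1764 c532 i2039 c49 k0))))) (by decide +kernel)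
def c2023 : PP 8 4 T 0x1000000000000000000000000000001080101080000500002040000040014020050 := rS 0x2769ecc628c4462563994429f8bc452a8e16281f8a927add0acf138fd326d8916d0e388c8a54e7b2c858329b4187e2a63308008045 (k8 i483 c399 c815 i2631 i447 c36 c1225 i923 (k8 i1179 c391 c461 i2595 i2493 i1913 i1836 c40 (k8 i452 c1951 i1883 c744 i2266 i1939 i297 i1875 (k8 i3138 c376 c2009 c2011 c583 c573 c2015 i822 (k8 c2022 i2653 c416 c504 i1187 i2497 i2634 i299 (k8 c1385 c1445 i985 i1880 c1835 c491 i1909 c566 k0)))))) (by decide +kernel)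
def c2024 : PP 8 4 T 0x1000000000000000000000000000000002000000000500002000000000004020000 := rS 0xb713 (k2 c376 i3036 (k1 c492 k0)) (by decide +kernel)
def c2025 : PP 8 4 T 0x1000001000000000000000000000000008000000000000002020000050004000000 := rS 0x4f13 (k2 c32 i2502 (k1 c512 k0)) (by decide +kernel)
def c2026 : PP 8 4 T 0x101000000000000002000000100000001440000090010180042000040000004000042 := rS 0x3fa557b454c3f15ea959858324531c5536614ba7e308d083459f163ad3d76b5 (k8 i884 i1949 c491 c574 c1171 c420 c479 c1966 (k8 i1759 c401 c39 c869 i2631 i1179 c36 i447 (k8 i483 c391 c461 i473 c583 i1923 c573 i2041 (k4 c1799 i1990 c1710 i849 (k1 c1461 k0))))) (by decide +kernel)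
def c2027 : PP 8 4 T 0x101000000000000000000000100000001400000080000100002000040000014000040 := rS 0x1a47d3fa849c5a2a15e0a6a329b4620d60b90d22111b30cecf8b04cf659389d50a8714bc61a1f8a98cc200202753f18458ad02433c97c0a8d68b244a160c91420b5 (k8 i884 c1966 i483 c391 c461 i860 c459 c479 (k8 i1759 i524 c477 c78 c2008 c1665 i899 c2023 (k8 c401 c39 c393 c399 c815 i2631 i447 c36 (k8 c1225 c534 c374 i1836 c2025 c2024 c574 i2491 (k8 i2595 i2493 i6 c1171 c420 c486 c1564 c1288 (k8 i2499 i1831 c392 c0 c4 c450 i475 i962 (k8 i2042 c537 i507 c83 i769 c2026 c1151 i2517 (k2 i1274 c600 (k1 c246 k0))))))))) (by decide +kernel)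
def c2028 : PP 8 4 T 0x4001000000000000008001000014045201405085180014000002000050000004000140 := rS 0xa506b908e3382250cf1565b25720f (k8 c1360 i1141 c459 c173 c36 c1840 c1476 c532 (k4 i1671 c425 c168 c4 (k2 c484 c1145 k0))) (by decide +kernel)
def c2029 : PP 8 4 T 0x1000000000000000000000101000001400000080000100002000040000014000040 := rS 0xcdca203fa8d82d2508f45b454c02556af56bf166a7388be1a9b0fc54c6614b8956a7d11c5ccac567336209d3aa14f68714bc53f18458ac2c19409e4be0546b446a00201142043 (k8 c2008 c1966 i483 c399 c815 c601 c479 i1759 (k8 i524 c477 c78 c1665 c391 c461 i899 c2023 (k8 c401 c39 c374 i1836 c2025 i2493 c2024 c574 (k8 c393 c2027 c555 c1146 i1794 i2636 c1564 c454 (k8 c433 i884 i860 c869 i2631 i447 c36 c1225 (k8 i1179 c534 i1080 i2491 i1913 i473 c573 c226 (k8 c503 c37 c56 i2041 c1799 i980 i1785 i822 (k8 c1364 c233 c308 c2028 c1470 c246 c1142 c168 k0)))))))) (by decide +kernel)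
def c2030 : PP 8 4 T 0x201000000000000000000000000015001405045180000000002000050001054000000 := rS 0xcdca205a88d9ccd693061a7d (k8 c433 c534 c340 c600 c555 c1146 c454 i884 (k4 c1470 c246 c1142 c168 k0)) (by decide +kernel)
def c2031 : PP 8 4 T 0x1000000000000000000000100000001400000080000100002000040000014000040 := rS 0x1042a19cfca1270b550658bb399b105c895927b3a8d50a8714bc43f153198400404ea7e308b1585832454090cf25f02a3420d1 (k8 c479 c1966 i1759 i524 c477 c78 c2008 c1665 (k8 i483 c391 c461 i899 c2023 c401 c39 c393 (k8 c399 c815 i2631 i447 c36 c1225 c374 i1836 (k8 c2025 c2024 c601 c574 i2493 c459 i860 i1141 (k8 c2027 c555 c1146 c1564 i2636 c2029 c466 c583 (k4 i822 c2030 c1840 i759 (k2 c532 c49 k0))))))) (by decide +kernel)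
def c2032 : PP 8 4 T 0x1002000000000094000000000010200940000081140000002000000000014800042 := rS 0x3541192555a1fd729d4fc622e65 (k8 i2634 c504 c401 c39 c393 i1143 i847 c1371 (k4 i2522 c564 c532 i2042 (k1 c537 k0))) (by decide +kernel)
def c2033 : PP 8 4 T 0x111200000000000000000000014010000000000000000000002000000001514000140 := rS 0x4765835c80f (k4 c1360 c392 c4 c434 (k2 c425 c1195 k0)) (by decide +kernel)
def c2034 : PP 8 4 T 0x1002000000000090000000010010200940000080000000002020000001414820040 := rS 0x5c9f8fab55d95ca895353220b4f671a4dac506b921a1f8a98cc31732800ce2188abd5609 (k8 c56 c37 c503 c416 i2497 c1828 c815 i2634 (k8 c504 i2631 i447 c36 c1225 c534 c392 c4 (k8 c41 i475 i1763 c2032 c501 c2033 c532 c550 (k8 c592 c564 c400 i1946 i885 i1541 c1106 i1144 (k1 i847 k0))))) (by decide +kernel)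
def c2035 : PP 8 4 T 0x1000000000000010000000101000400840000080000000002120040000414000040 := rS 0x1a4dacf23b1dca3312349422d4c0255ead7e23566102c8ac5e160c8d4c715869852e650019c4311 (k8 c416 i2497 c1828 c815 i2634 c869 i2631 c534 (k8 c36 i447 c601 c391 c461 i1080 i899 i2595 (k8 c1966 i473 i1759 c573 c226 c503 c56 i2041 (k8 i980 i822 c1364 c2034 c395 c475 i410 i205 (k4 c168 i476 i1764 c2032 k0))))) (by decide +kernel)
def c2036 : PP 8 4 T 0x1000000000000000008000000000000000000000200000002000000000004000000 := rS 0xf (k2 c1360 i1829 k0) (by decide +kernel)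
def c2037 : PP 8 4 T 0x1000000000000000401000014040000000000000000000202400000000804001140 := rS 0xf (k2 c1360 c1191 k0) (by decide +kernel)
def c2038 : PP 8 4 T 0x1100000001000000000000000000000000000000000000002400000000004001000 := rS 0xf (k2 c1360 c77 k0) (by decide +kernel)
def c2039 : PP 8 4 T 0x1000000000000010150000000000000000000000000802002080544000004000001 := rS 0xf (k2 c1360 c1083 k0) (by decide +kernel)
def c2040 : PP 8 4 T 0x111000000000000000400000014010000000000000000000002400000001514001140 := rS 0xf (k2 c1360 c1195 k0) (by decide +kernel)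
def c2041 : PP 8 4 T 0x1000000000000000401000014140000000000000000000002400000000004001140 := rS 0xf (k2 c1360 c1145 k0) (by decide +kernel)
def c2042 : PP 8 4 T 0x1100000000000000400000014040000000000000000000002400000000004001140 := rS 0xf (k2 c1360 c1177 k0) (by decide +kernel)
def c2043 : PP 8 4 T 0x1000000000000000002000000000000400050040000000502400001101004001140 := rS 0xf (k2 c1360 c1201 k0) (by decide +kernel)
def c2044 : PP 8 4 T 0x1000000000000000000000000000000000000000000000002200000002004000000 := rS 0xf (k2 c1360 i346 k0) (by decide +kernel)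
def c2045 : PP 8 4 T 0x1000000000000000000000000000000000000000000020002200000000004000000 := rS 0xf (k2 c1360 i603 k0) (by decide +kernel)
def c2046 : PP 8 4 T 0x1000000000000000000000000000002000000000000820002000440001004800010 := rS 0xf (k2 c1360 c1077 k0) (by decide +kernel)
def c2047 : PP 8 4 T 0x1000000000000000000000020200000000000000000000002000000000004000000 := rS 0xf (k2 c1360 i1286 k0) (by decide +kernel)
def c2048 : PP 8 4 T 0x1000000000000000000000000000000000000000000002002000000002004000000 := rS 0xf (k2 c1360 i764 k0) (by decide +kernel)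
def c2049 : PP 8 4 T 0x1000000000000000000000000000000000000000020000002000020000004000000 := rS 0xf (k2 c1360 i1023 k0) (by decide +kernel)
def c2050 : PP 8 4 T 0x1000000000000000802000000000000000000000000000002000000000004000000 := rS 0xf (k2 c1360 i1246 k0) (by decide +kernel)
def c2051 : PP 8 4 T 0x1000000000000000020000000000000000000000800000002000000000004000000 := rS 0xf (k2 c1360 i1790 k0) (by decide +kernel)
def c2052 : PP 8 4 T 0x4001000000000000014100000000000000140000001150000002000000000004000000 := rS 0x6a822753f18 (k4 c401 c39 c393 c532 (k2 i2042 c537 k0)) (by decide +kernel)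
def c2053 : PP 8 4 T 0x1000000000000080200000000010000800040080000000102020000000044800000 := rS 0xfab52b9512b05 (k4 c553 c592 c564 c400 (k2 i885 i1542 (k1 c1106 k0))) (by decide +kernel)
def c2054 : PP 8 4 T 0x101000000000000000000000000000000000000002000000002000000040504020000 := rS 0x7289418c6 (k4 i476 i475 i410 c4 (k1 c392 k0)) (by decide +kernel)
def c2055 : PP 8 4 T 0x1000000000000000000000100000001000000080000100002000040000014000040 := rS 0x57d1578984a2d04a31671b4faad349ae08c9691fd424e5c8b4a2a83388cca218bc451c9f4ec61161f30a0d370d8a814f2d14097d1a2b0b064c600201142043 (k8 c2008 c1966 i483 c399 c815 i447 c391 c461 (k8 i899 i1759 c477 c1665 c479 c78 i524 c36 (k8 c534 i1179 i923 i2631 c1225 c2023 c401 c393 (k8 c39 c2031 c416 c504 i2497 i2634 c1445 c1828 (k8 c2035 c385 c466 c458 c583 i822 i847 c600 (k8 c2053 c532 c537 c63 c488 i1273 c2054 i2042 (k8 i988 i861 c1435 i885 i1104 i1105 c388 i1986 (k1 c208 k0)))))))) (by decide +kernel)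
def c2056 : PP 8 4 T 0x1000000000000000000000100410000000500000002000002000200054014000012 := rS 0x4307a3f1625d126f (k8 c382 i1278 i1283 i960 i296 i1877 c1105 c1671 k0) (by decide +kernel)
def c2057 : PP 8 4 T 0x1001000000000000000000000500000000000400054005540402000000000004000000 := rS 0x5793d6e517e43102a9 (k8 c577 c1665 c379 c573 c377 c541 c19 c503 (k1 i2038 k0)) (by decide +kernel)
def c2058 : PP 8 4 T 0x1000000000000001000000000000000000000500000000000000000000100002020000000084000000 := rS 0x57bf4a008 (k4 i182 i183 c56 i499 (k1 c371 k0)) (by decide +kernel)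
def c2059 : PP 8 4 T 0x1000000000000011001000000000000000000500000000000000000000100442000000000004000000 := rS 0xa0ae (k2 c371 c427 (k1 i499 k0)) (by decide +kernel)
def c2060 : PP 8 4 T 0x101000000000000000001010000040014010000100000000002000014501144000000 := rS 0x11b9460a5 (k4 c198 i2033 c450 i1571 (k1 c392 k0)) (by decide +kernel)
def c2061 : PP 8 4 T 0x1000000000000101000001000000000000008000400011415005050000000002021200501054000000 := rS 0x19a7d5a88182c55ca7526338b1bcea350028da43f (k8 i296 c449 c69 c815 c601 c574 c382 c1171 (k8 c389 c436 c552 c487 i1879 c233 c2060 i727 (k2 i1502 i2499 (k1 c1872 k0)))) (by decide +kernel)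
def c2062 : PP 8 4 T 0x1000000000000000000000100000001480001040000500002020000050014020050 := rS 0x659957267238c1889c63a7d7b1766ad4467d49c41f8b62787c5b0d1fd147a894ba56286141b3c4e998916c70b353a04f653388bcde751a98c008543bc542c9128583245 (k8 i483 c391 c461 i860 c459 i821 c374 c2025 (k8 c2024 c815 i447 c601 c574 c382 i1080 i2491 (k8 i2575 i2493 c1665 i1913 i473 i452 i1883 c744 (k8 i1939 i1875 i3138 c579 c2056 c2057 c386 c571 (k8 c518 i1877 c1869 i296 c1671 c1105 c2058 c1754 (k8 i2031 c2059 c2061 c12 c433 c454 c463 c555 (k8 c1872 i1988 c1551 i299 c1146 c1875 i1880 i2941 (k4 i1506 i986 i963 c173 (k1 c1594 k0))))))))) (by decide +kernel)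
def c2063 : PP 8 4 T 0x400000000000001001000000000000004000050100004445400505050014082002000000000004000002 := rS 0x168ad27a557a6157d1556985b9f4a27f861bceaa9 (k8 c577 c574 c382 c379 c408 c377 c57 c541 (k8 c1815 i1657 c1991 i1922 i2633 i1990 c1710 c208 (k2 c226 c1138 (k1 c1209 k0)))) (by decide +kernel)
def c2064 : PP 8 4 T 0x101000000000000000000000100000401440000040004100002000040000014000000 := rS 0x518b61a894ca5628bb2d20ca857829a8caa5608c5c8c6619b4d2c510d3c46cc5c99d26cf19c58f2813d964e23b179bcea3500214be8715900524378a8592250b0648a971c84d3a9f8c23420d1 (k8 c479 c1966 i1759 c401 c39 c393 i6 c1714 (k8 c869 i483 c391 c461 i860 c459 i821 c374 (k8 c2008 i1836 c399 i899 c2025 c477 c2024 c815 (k8 c601 c574 c382 i1080 i1155 i2491 i2595 i2493 (k8 c1665 c78 c1171 c389 c420 c436 c486 c487 (k8 c1564 c1288 c491 i2499 i1792 i1831 c2054 c865 (k8 c1643 c392 i1691 c0 c484 i962 i2042 c537 (k8 i507 c83 i2525 i769 i3119 c2063 c386 c411 (k4 c518 c1815 c1105 c308 (k1 i2033 k0)))))))))) (by decide +kernel)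
def c2065 : PP 8 4 T 0x1000000000000001000000000000000000000100400000000000000002000002000040000004000002 := rS 0xf47ed3040b1e210 (k8 c1966 c374 i960 i961 c556 i1424 i1267 c449 k0) (by decide +kernel)
def c2066 : PP 8 4 T 0x5201000000000000000100000100400041000104050014010402000040000004000002 := rS 0x1965533415564f56bf0c3455b944ff0c3ca34206f549f56a57 (k8 c64 c463 c433 c577 c382 c1966 i1759 c78 (k8 c379 c408 c377 c541 c1991 c2065 c573 c226 (k4 c19 c37 c1566 c532 (k2 c1155 i2263 (k1 i2037 k0))))) (by decide +kernel)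
def c2067 : PP 8 4 T 0x1000000000000000000000100000001400000000000100002000040000014000040 := rS 0x835baf17f435c1fca2fd571868a998a1959d1766ad4fb104fa7537184ba2d92053cb4566a7409eca659389bcea6300214be8d438ac2c19201145243788415273 (k8 c2055 c577 c1966 c374 c2008 i1836 i483 c399 (k8 c391 c461 i899 c2025 i1759 c477 c2024 c815 (k8 i447 c574 c382 i2491 i2595 i2575 i2493 c1665 (k8 i1913 i473 c479 c78 i524 c459 c2062 c869 (k8 c401 c868 c393 c39 c2064 c433 c463 c555 (k8 c1564 c1146 i2636 c2066 c411 c1869 c2065 i2041 (k8 c503 i499 c1214 c1821 c543 i1457 c255 i1988 (k2 i1415 i2045 k0)))))))) (by decide +kernel)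
def c2068 : PP 8 4 T 0x6111002000000000000000008000005000080040004050000002000000000004000000 := rS 0x170b565b36094e64c659e93 (k8 c12 i1979 c40 i618 c566 c532 c491 c434 (k2 i886 c1594 (k1 c1802 k0))) (by decide +kernel)
def c2069 : PP 8 4 T 0x1000001000000000000000500400001880001040044500002020000050014800010 := rS 0x32d72c95ab3538ab56bf16c4f694343e3fa28f5129749c50c28313a66245b1c204f6532c9c4dea950c462e9f32800fe95 (k8 i1102 i846 c815 i2634 i1187 c504 c416 i821 (k8 c577 c382 i2491 i2595 i2575 i2493 c1665 i452 (k8 i1883 c744 i1939 i1875 c579 c2056 c2057 c12 (k8 c571 c518 i1877 c1869 i296 c2058 c1671 c449 (k8 c1754 i2031 c2059 c34 c37 c2068 i1909 i886 (k4 c1365 c1802 c179 i2040 k0)))))) (by decide +kernel)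
def c2070 : PP 8 4 T 0x5101000000000000014000000000014210140050011050090002000000400554020000 := rS 0x1a4d6c92395448b551ae53b18 (k8 c401 c393 i1143 c223 c1437 c1446 c2048 i205 (k4 c564 i1963 i1764 i2042 k0)) (by decide +kernel)
def c2071 : PP 8 4 T 0x5001000000000000000001010000110010000050010000000002000000401554000000 := rS 0x16aa3 (k2 c223 c1437 (k1 i2030 k0)) (by decide +kernel)
def c2072 : PP 8 4 T 0x1001000000000000000000000100000001000000000000100002000040000014000040 := rS 0x11d9704519ada4ba44ae01aa57209582c534d3d9c261e969308304abc9eab56bf0c3455b87cfa5186204f6532c9c45e6f1aaa5429f3fa54da974da2cce2332c5c4311471ccc60015858324022a9c52433c97d1a0578acc20d1 (k8 c479 c1966 i473 c374 i524 i1759 c477 c78 (k8 c2008 i1836 i1913 i483 c399 c391 c461 i899 (k8 c815 i447 c2055 c2067 c416 i2497 c504 i2634 (k8 c1445 c1828 c2069 c868 c869 c2054 i1102 i846 (k8 i1187 i821 c577 c601 c382 i1080 i2491 i2595 (k8 i2575 i2493 c1665 c379 c377 c57 c452 c541 (k8 c1991 c2065 c573 c226 c225 c19 c503 c56 (k8 c1698 i2041 i2038 i1785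 i1757 c2070 c501 i3040 (k8 i1794 c233 i865 c392 c198 c4 c2071 i1403 (k8 i1144 c870 i1946 c69 c550 c434 c425 c2041 k0)))))))))) (by decide +kernel)
def c2073 : PP 8 4 T 0x4101000000000000014000001000050000140040001050000082000000001554020000 := rS 0x192692b314f8e4 (k4 c392 c1446 c41 i1274 (k2 i1763 c400 (k1 c2052 k0))) (by decide +kernel)
def c2074 : PP 8 4 T 0x1000000000000014000000000004000140000001050090002000000002004020000 := rS 0x1a4d6c9239553b18 (k8 c401 c393 c2048 i205 c564 i1963 i1764 i2042 k0) (by decide +kernel)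
def c2075 : PP 8 4 T 0x4101000000000000014000008000054000140040001050010082000000000554020000 := rS 0x649a4aac55a3904a5a (k8 i761 c2074 c392 c2073 c41 i2523 i1763 c564 (k1 c2052 k0)) (by decide +kernel)
def c2076 : PP 8 4 T 0x1000000000000000000004080000541100104054000100002000000000004000000 := rS 0x1132da08be79 (k4 c78 c477 i2045 i1922 (k2 c579 c492 k0)) (by decide +kernel)
def c2077 : PP 8 4 T 0x1000000000004111001000000000010000008500014100140040001050110402000010000554020000 := rS 0x193052b2b0f8b512aed8a26671689ca3 (k8 c308 c2059 i761 c2075 i1757 i1794 i1950 i865 (k4 i887 c1446 i1273 i1274 (k2 c488 c400 (k1 c532 k0)))) (by decide +kernel)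
def c2078 : PP 8 4 T 0x1000000000004101001000000000010000008500014100140040001050110402000010000554020000 := rS 0x10c (k2 c2077 c541 k0) (by decide +kernel)
def c2079 : PP 8 4 T 0x1000000000000000000000100000001000000000000100002000040000014000040 := rS 0xb67eab8c21fa2a66289b4ba2cda67119fcca214fc5e228e50aa4e6631a9bce22b2c94cf6000b100328122bc40a5f3ca35a22921acd4e10 (k8 c1966 i1913 i473 c2008 i1836 c479 i1759 c78 (k8 c477 i524 c374 i483 c1665 c391 c399 c461 (k8 c815 i2493 i2575 i2595 i899 i2491 c382 c601 (k8 i447 c2055 c577 i821 c2067 c416 c504 i1187 (k8 i2497 i2634 i846 c1445 c1828 c2054 c2069 c869 (k8 c868 c2072 c411 c1869 c2058 c2065 i2041 c503 (k2 c2076 c2078 k0))))))) (by decide +kernel)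
def c2080 : PP 8 4 T 0x1100000000000000000000000000000000000000000000002040000000204001000 := rS 0x8ee5 (k2 c470 i1530 (k1 c2038 k0)) (by decide +kernel)
def c2081 : PP 8 4 T 0x8011000000000000000100005014100001100000001010200002051145008014000140 := rS 0x146cb239fcaccc4388582c6428358b05351d5a28b4f8ed3b18899ecf2a12c910d2c36799d1e35 (k8 c506 c504 c486 c420 i3125 i3044 c399 c2045 (k8 c1507 c78 c524 c65 c500 c393 c380 c1586 (k8 c744 c479 c493 i2042 c537 c2051 i2298 i1869 (k8 i2035 i1694 c2080 i737 c1564 i1971 i848 i1578 (k2 i506 c316 (k1 c2041 k0)))))) (by decide +kernel)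
def c2082 : PP 8 4 T 0x1000000000000004000004000000001404181004000200002000000000004000000 := rS 0x669d50a9f4ec62267b (k8 c524 c65 c500 c393 c1586 i1670 i1668 i848 (k1 c1146 k0)) (by decide +kernel)
def c2083 : PP 8 4 T 0x8101000000000000000100004014000001100100081000200002051145808014000140 := rS 0xcd3aa14a8c52332d467f43b04420d829914ab51aa3d9e5b4fa7631133d9e4df0d509648869 (k8 i3044 c399 c2045 c1507 c534 i58 c78 c524 (k8 c65 c500 c393 c1586 i55 c420 c504 c506 (k8 i884 i365 c2081 c75 i1491 c2080 c311 i737 (k8 c2082 c316 c179 c2041 i1535 i225 i1771 c589 (k2 i769 c1146 k0))))) (by decide +kernel)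
def c2084 : PP 8 4 T 0x4101000000000000000000000014010000400000080000000002200001800014000140 := rS 0x146c16591d4a7c10834ac551a9d16b0d (k8 c534 i884 c1171 c544 c589 c429 c816 i1499 (k4 i1096 i365 i225 i506 (k2 c311 i1594 (k1 c2041 k0)))) (by decide +kernel)
def c2085 : PP 8 4 T 0x4101002000000000000000000000010000000000080000000002200000000016000040 := rS 0x466083596344a884ca8e868c592b9172b55609 (k8 c56 c37 c34 i1091 i2782 c407 c481 c534 (k8 c2084 c829 c1702 i2762 i1130 c173 i482 c311 (k2 c1555 i2099 k0))) (by decide +kernel)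
def c2086 : PP 8 4 T 0x8101000000000000000100004014000001100100081000200002050145808094000140 := rS 0x3d (k2 i1307 c2083 k0) (by decide +kernel)
def c2087 : PP 8 4 T 0x8101000000000000000100000000000001100000001000200002040001018204000000 := rS 0x821501a57632199a7542b45169f4ec62267b3c9a5868f (k8 c504 i3125 i3044 c78 c524 c65 c500 c393 (k8 c1586 c744 c479 i1504 i1499 i730 c1564 i738 (k4 i1705 i1687 c1967 c2080 (k1 c49 k0)))) (by decide +kernel)
def c2088 : PP 8 4 T 0x111000000000000004100001014000001504200001150210002010000001194001140 := rS 0x222828d96472a9f0accc42c169e6a3ab44b68b4fa7631133d9e582a1 (k8 c1507 c311 c78 c524 c65 c500 c393 c1586 (k8 c744 i55 c479 c493 i2042 c513 c537 i1869 (k8 c1571 i1971 i1975 i769 i1578 i506 i1594 c1175 (k2 c2040 c1697 k0)))) (by decide +kernel)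
def c2089 : PP 8 4 T 0x8101000000000000000000004000000001004081004120210002000000000004000000 := rS 0x421519a754fc4cf68f (k8 c504 c524 c65 c1586 i1668 i848 c1644 c1564 (k1 i1543 k0)) (by decide +kernel)
def c2090 : PP 8 4 T 0x101002000000000000000000000000001100000081000200002050144018016000040 := rS 0xcd3aa14a8c52332d467f3221d820d10a014ab51aa3ccecf8b16d3e9d8c44cf67937c3542252c91062c90f0b8d2ad558256eaf (k8 c503 i1930 c56 c37 c34 i3044 i1091 i1092 (k8 c407 c481 c399 c2045 c2044 c1507 c534 i58 (k8 c78 c524 c65 c500 c393 c1586 i55 c2085 (k8 c420 c486 c504 c506 i884 i365 c2086 c2087 (k8 i482 c311 i737 c2088 c2089 c316 c179 c2041 (k4 i1535 i225 i1771 c589 (k2 i769 c1146 k0))))))) (by decide +kernel)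
def c2091 : PP 8 4 T 0x8001000000000000001001000014044001401005100000000002440000808004001140 := rS 0x208ca102950c35 (k4 c506 c1564 i365 i737 (k2 c2041 c2080 (k1 c434 k0))) (by decide +kernel)
def c2092 : PP 8 4 T 0x4001002000000000001001000000005101401005180000000002440404008206001040 := rS 0xcf43a518ecb1a411ca31 (k8 c481 c470 c2080 c510 c434 i412 c1555 i738 (k2 i1104 c1146 k0)) (by decide +kernel)
def c2093 : PP 8 4 T 0x4001002000000000001001000000005101501004180000000002440404008006001040 := rS 0xcb4a9959c87109e592b9 (k8 i2782 c407 c78 c2092 i737 c1146 i1028 i1104 (k2 c173 c1555 k0)) (by decide +kernel)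
def c2094 : PP 8 4 T 0x1000000000000000000000000000001000000080000200002040040000014020041 := rS 0x40d15311706a8c8ec12bb351e23429f4eb105b82556ad578b9f86d130606617222840441028a53e3945b44263b4ec62267b3ca361a83 (k8 i923 c534 i1759 c78 c524 c65 c500 c393 (k8 c380 i6 c479 c744 c1714 c1586 i1836 i524 (k8 c815 c410 c1507 c399 i999 i2094 i220 i484 (k8 i2300 c968 i1091 c503 c34 c37 c56 i1930 (k8 c2090 c368 c433 c6 c454 c416 c555 c64 (k8 c340 i224 c308 i481 c2091 c2093 c388 i1863 (k1 c440 k0))))))) (by decide +kernel)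
def c2095 : PP 8 4 T 0x1000001000000000000000000000000000000000000200002000040010004000002 := rS 0x27159142d13 (k4 c65 c421 c569 i899 (k2 i1766 c512 k0)) (by decide +kernel)
def c2096 : PP 8 4 T 0x11000000000000000000000000010000000100000000000002002000000014000000 := rS 0x3ed3 (k2 c476 i1307 (k1 c600 k0)) (by decide +kernel)
def c2097 : PP 8 4 T 0x2000000000000001000000000000000000000000400440010000000000000002001540500004000000 := rS 0x1323f (k2 c10 c388 (k1 i2034 k0)) (by decide +kernel)
def c2098 : PP 8 4 T 0x1000000000008101000001000000000105100000040101114000001110210002000005501004000000 := rS 0x128bb52b310b4f351d5a28b4fa7631133d9e59e9333a3c6ab9 (k8 c487 c506 c504 c486 c436 c420 c78 c524 (k8 c65 c500 c393 c1586 c744 c479 c493 i2042 (k4 c513 i1869 c1571 c1197 (k2 i3122 i2033 (k1 c762 k0))))) (by decide +kernel)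
def c2099 : PP 8 4 T 0x8101000000000000000000000000004001004005100120050002000000000004000000 := rS 0x66a14a88f (k4 c504 c1644 i1543 i769 (k1 c1564 k0)) (by decide +kernel)
def c2100 : PP 8 4 T 0x8101000000000000000000000080044001004005000120040202200000000004001140 := rS 0x1547f65ab48e562a9d20a59 (k8 c2045 c75 c2099 c589 c429 i225 i1314 i2324 (k2 i2996 c2042 (k1 i498 k0))) (by decide +kernel)
def c2101 : PP 8 4 T 0x8111001000000000000000000100000001000100000000000002000040000014000040 := rS 0x1be2a98328257a5038ab96d451eb0566a72da6d3e971ca2da2131dc62267b3c9cd423316894b28934b0d060d4388592310c0080a6d46899462f22104025c14bc42043 (k8 c2008 c1966 c374 i1836 c2079 c2095 c815 c399 (k8 c957 c956 i484 i1759 i2300 i524 c410 i220 (k8 c481 c407 c2087 i737 i482 i735 i3125 i3044 (k8 i2093 c2045 c2044 i1001 i2094 c1507 c2094 c78 (k8 c524 c65 c500 c380 i6 c479 c744 c1714 (k8 c869 c1586 c1709 i55 i1913 i473 c311 c2096 (k8 c2097 c440 c371 c558 i1931 i3146 i1310 c2100 (k4 c2098 c411 c597 c379 k0)))))))) (by decide +kernel)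
def c2102 : PP 8 4 T 0x8101001000000000000000000100000001000100000000000002000040000014000040 := rS 0x99389828b151ea51a4a504b043e7d37c3166a74da5c728b6884c7718899ecf23316aa4e62544a0d26355c88592310c0080a6d13235462f22104025c14bc42043 (k8 c2008 c1966 c374 i1836 c2079 c2095 c815 c399 (k8 c957 c956 i1759 i484 i2300 i524 c410 i220 (k8 c481 c407 c2087 c487 c506 c436 i735 i2093 (k8 c2044 c2094 c577 i1001 i2094 c78 c524 c65 (k8 c500 c380 i6 c479 c744 c1714 c869 c1709 (k8 i1913 i473 c2101 c511 c57 c452 c224 i222 (k8 c198 c1137 i2033 c476 c386 c2097 c1996 c469 (k2 i1020 c1815 k0)))))))) (by decide +kernel)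
def c2103 : PP 8 4 T 0x8101001000000000000000000100000001000000000000000002000040000014000040 := rS 0x9698f1002622104025c14bc48610 (k8 c1966 c2008 c374 i1836 c2079 c2095 c815 c399 (k4 i484 c2102 i1769 c476 (k2 i1267 c1137 k0))) (by decide +kernel)
def c2104 : PP 8 4 T 0x11002000000000010000000500000400140000040000000002000000000004000000 := rS 0x264c7142825d52af37984e24f (k8 c19 c495 c384 c451 c503 c577 c869 c1986 (k4 c379 c687 c411 i2041 k0)) (by decide +kernel)
def c2105 : PP 8 4 T 0x1000000000000001000000000000000000100040004020000000000800000002000000000004000000 := rS 0x1774f (k2 c513 i1946 (k1 c1710 k0)) (by decide +kernel)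
def c2106 : PP 8 4 T 0x1000000000008101000000000000000101000054105201154004001100040102200045500004001140 := rS 0x32c8e553a414c86b4a28da4796896526671aae57acf (k8 c420 i1990 c487 c506 c486 c436 c2045 c479 (k8 c78 c870 c69 i2033 c2105 i2042 c75 c2099 (k4 c589 i225 c197 c2042 k0))) (by decide +kernel)
def c2107 : PP 8 4 T 0x8101000000000000000000000100000001000000000000000002000040000014000040 := rS 0xfda62e1ea9583454c07cfa5140c316e713782556ad5793cc2fc4383442b35396d369f4ba2da23b4ec62267b3ca34e63316895126d18b243002029a5062622104025c14bc48610 (k8 c1966 c2008 c374 i1836 c2079 c2095 c815 c399 (k8 i484 i735 i3044 i524 c410 i220 c407 c481 (k8 i2300 i2093 c2044 i1001 i2094 c2094 i1759 c78 (k8 c524 c65 c500 c393 c380 c479 c744 c869 (k8 c1586 c1709 i55 i1913 i473 c2087 i482 i737 (k8 c2103 c384 c19 c503 c34 c37 c56 c451 (k8 c495 i1930 c2104 c2 c377 c57 c452 c1815 (k8 c1991 c224 c198 i1785 c2106 c448 i404 c449 k0)))))))) (by decide +kernel)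
def c2108 : PP 8 4 T 0x8001000000000000000000000100000001000000000000000002000040000014000040 := rS 0xca6b820801a862bb350a758823ccecf68a2d3e9d8c44cf679469b5921801014d2262210402297890c205c (k8 c2079 c1966 c2008 c374 i1836 c2095 c815 c399 (k8 i484 i3044 i524 c410 i220 c407 i2300 i1759 (k8 c78 c524 c65 c500 c393 c1586 c744 c479 (k8 c420 c486 c504 c2107 c368 c6 c555 c64 (k4 c1564 i481 i737 c2080 (k2 c537 c75 (k1 i2042 k0))))))) (by decide +kernel)
def c2109 : PP 8 4 T 0x4101000000000000000000000000000000000000000000000002200001000204000000 := rS 0xea8f (k2 c1702 i1499 (k1 c1171 k0)) (by decide +kernel)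
def c2110 : PP 8 4 T 0x1000000000000000000000080040000000000200000000202200000000004001140 := rS 0xaa829fd96ad23990ac55 (k8 c589 c429 c493 i225 i1314 i2324 i2996 c75 (k2 c2042 i498 k0)) (by decide +kernel)
def c2111 : PP 8 4 T 0x4111001000000000000000000100000440010100000000200002210540100016000040 := rS 0x32a08ad23b9556551a0891c75049415cb6a28f566a789b25062608035462f6088462a1 (k8 c1507 c481 c2109 c311 c957 c956 i482 c1966 (k8 i484 i735 c407 c65 i1913 i473 c2096 c2097 (k8 c440 c371 i1931 i1310 c2110 c1171 i1131 i1130 (k8 i766 c1192 c453 i2099 i1314 c2038 c2037 c434 k0)))) (by decide +kernel)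
def c2112 : PP 8 4 T 0x1001000000000000000000100000000000000000000000002002000000004000040 := rS 0x12d3 (k2 c476 i1267 (k1 c1137 k0)) (by decide +kernel)
def c2113 : PP 8 4 T 0x101001000000000000000000100000001000000000000000002000040000014000040 := rS 0x30c553071319bd5d0ca2a047a2f59a9d36971ca2da2131dc62267b3ca345aa939861120202a0c4c4420804b8297890c2117 (k8 c2108 c1966 c2008 c374 i1836 c2079 c2095 c815 (k8 c399 i484 i735 i524 c410 i2093 i220 c2094 (k8 c577 i1001 i1759 c78 c524 c65 c500 c380 (k8 i6 c479 c744 c1714 c869 c1709 i1913 i473 (k8 c957 c2112 i1769 c2097 c2111 c371 c511 i539 (k4 c474 c1815 c411 i1020 (k1 c1996 k0))))))) (by decide +kernel)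
def c2114 : PP 8 4 T 0x4101002000000000080000000000000000000000200000000102200000000004000008 := rS 0x32c8e551a9646218 (k8 i220 c481 c2045 c544 c589 i225 c197 c1376 k0) (by decide +kernel)
def c2115 : PP 8 4 T 0x4101002000000000080001010000100000000000000000000102200000000004000048 := rS 0x11d963432a38eaa36483442310c2b55609 (k8 c56 c37 c34 i220 c481 c2109 i482 c407 (k8 c69 c2114 c1171 c829 i1130 c173 i2099 c2041 k0)) (by decide +kernel)
def c2116 : PP 8 4 T 0x101000000000000000000000100000001000000000000000002000040000014000040 := rS 0x3e1734d723d52b0531450f9f4a2815b9c4df0c5793cc2fc4388566a74da5d16d11dc62267b3ca34e625448c4300202a0c4c4420804b8297890c2117 (k8 c2108 c1966 c2008 c374 i1836 c2079 c2095 c815 (k8 c399 i484 i735 i524 c410 i220 c481 i2093 (k8 c2044 c2094 i1759 c78 c524 c65 c500 c380 (k8 c479 c744 c869 c1709 i1913 i473 c2109 i737 (k8 c2113 c384 c19 c503 c2104 c451 c495 i1930 (k8 c2 c377 c57 c452 c1991 c1815 c224 c198 (k4 i1785 c1436 c2115 c870 (k2 c449 i404 k0)))))))) (by decide +kernel)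
def c2117 : PP 8 4 T 0x11000000000000000000000000000200000000050000000002000000000004000000 := rS 0xdf15 (k2 c411 c597 (k1 c379 k0)) (by decide +kernel)
def c2118 : PP 8 4 T 0x1000000000004001000001000000000005100014045101401005100000000002440405009204001140 := rS 0x21d48c7658d208e5 (k8 c470 c2080 c510 c434 i412 c2041 i738 c1197 k0) (by decide +kernel)
def c2119 : PP 8 4 T 0x1000000000004011000001000000001000000080040001401111140000204002450005008014000040 := rS 0xca5da959c8710a6556ad04af4a0b660a7c769d8c2844ac341834887131a2e267b (k8 c524 c65 c744 i539 c474 c399 i481 i735 (k8 i3125 c2044 c1507 c500 c393 c380 c1586 c340 (k8 c440 i1931 i3146 i1310 i1313 i497 c2117 c2118 (k4 i737 c1146 c1197 i1950 (k2 c2041 i626 k0))))) (by decide +kernel)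
def c2120 : PP 8 4 T 0x1001000000000000000000100000001000000000000000002000040000014000040 := rS 0x30c55306f861c4c6aea2a047a2f51acd4e9b4b8e516d1098ee31133d9e51a3316aa4e6891886004054189a2e753ea151ecd2b91c471022104025c14bc42043 (k8 c2008 c1966 c374 i1836 c2079 c2095 c815 c399 (k8 c2116 c454 i224 c64 c555 c416 c6 c433 (k8 c368 c2108 i484 i735 i524 c410 i220 c481 (k8 i2093 c2094 c577 i1001 i2094 i1759 c78 c524 (k8 c65 c500 c380 i6 c479 c744 c1714 c869 (k8 c1709 i1913 i473 c956 c957 c2112 i1769 c2097 (k8 c371 i539 c474 c2119 c511 c1815 c411 i1020 (k1 c1996 k0)))))))) (by decide +kernel)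
def c2121 : PP 8 4 T 0x1000000000000000000000100000001000000000000000002000040000014000040 := rS 0xf85cd31eb9183454c4143e513fa056e7137c3012af27985f80d2395d1eb5119f620831889912182c894a62d22284e6022080476978c26d17133d9714eb378814f28d688a48610 (k8 c1966 c2008 i1836 c479 i1759 c78 i524 c374 (k8 i473 i1913 c2079 c524 c65 c744 c1709 c500 (k8 c869 c380 c2095 c815 c410 c2094 c1507 c399 (k8 i1001 c528 c2044 c2045 i220 i2093 i484 c481 (k8 i735 c2116 c433 c454 c463 c416 c64 i224 (k8 i481 c2120 c384 c19 c503 c56 c2104 c451 (k8 c495 i1930 c2 c408 c377 c452 c1566 c1815 (k8 c1991 c2043 c2038 i1785 c246 c870 c449 i404 k0)))))))) (by decide +kernel)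
def c2122 : PP 8 4 T 0x8001000000000000000000000015000000000000000005000002060000200214000000 := rS 0x659952a0c23a8c009333b254ab9 (k8 c487 i1383 c432 c486 c436 c815 i1650 i1530 (k4 i744 i979 i963 i466 (k1 i2040 k0))) (by decide +kernel)
def c2123 : PP 8 4 T 0x8101000000000000000000000001020000000000000001000002120000000804000000 := rS 0x4ab2caa7c2b1d56aad55bf22a720b064c6890024d1eb9 (k8 c487 c504 c436 c815 c26 i448 c391 c461 (k8 i821 c36 c573 c37 c34 i2598 c574 i185 (k4 i312 i1538 i506 i1597 (k1 c1188 k0)))) (by decide +kernel)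
def c2124 : PP 8 4 T 0x8101000000000000000000000000000001005005100000002002000400055504020000 := rS 0xe53cc66696de23347b1462e4 (k8 c392 c450 c41 c504 c389 c374 i1757 i769 (k4 c1835 c1564 i298 c349 k0)) (by decide +kernel)
def c2125 : PP 8 4 T 0x1000000000000010000000541000500100004000005000002020000208004000000 := rS 0x4ba2c725a (k4 i745 i1875 i1883 i1244 (k1 i2041 k0)) (by decide +kernel)
def c2126 : PP 8 4 T 0x8101000000000000000000000001020001001001000001000002140000044014020000 := rS 0x57829f92a6518955c82511885928f499ecb23b3aa1c52f1162b556fc8a9c82c1931a240040 (k8 c399 c815 c26 i448 c391 c461 i821 c36 (k8 c573 c37 c34 i822 c374 i1836 c2025 c574 (k8 i1155 i2595 i2493 c436 c504 c432 c2122 c2123 (k8 i860 c392 c2124 c450 c1644 i978 c1461 c1949 (k2 i1665 c83 k0))))) (by decide +kernel)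
def c2127 : PP 8 4 T 0x4101000000000000000000000000004000085004000040000002000000055504000002 := rS 0x9da7b318ecf1c4658ae4 (k8 c392 c41 c40 i452 i1979 i299 c1835 c491 (k2 i1909 c566 k0)) (by decide +kernel)
def c2128 : PP 8 4 T 0x101000000000000000000000100020001000000000000000002000040000014000000 := rS 0x12e8b3388c4a95328853e8e8b89d5efc4dc556699318b0e43f449e5a2d35493cf659179d4c209438ac2c194297400402281852437897d1a10 (k8 c1966 i1759 c477 c374 c2008 i1836 c2121 i480 (k8 c399 c815 c2095 c2024 c391 c461 i899 c2025 (k8 i25 i961 c574 i1080 i2595 i2493 i1221 c583 (k8 c378 c479 c78 c26 i402 i821 i822 i448 (k8 c870 i474 c36 i1179 c573 c503 c2125 c2126 (k8 c1171 i1187 i2497 i2634 i2653 c1385 c1445 c1828 (k2 c2127 c869 (k1 i2041 k0)))))))) (by decide +kernel)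
def c2129 : PP 8 4 T 0x8001001000000000000000000100010001000000000000000002000040004214000000 := rS 0x166af45194c49e23ad4be7946b44e2a9279ecea352e800807f289ccfb0c0fb4d1e9d5c96e242b0b0648a06788a48610 (k8 c1966 c2008 i1836 c374 c2121 i480 c391 c461 (k8 i899 c512 i1757 c487 c552 c504 c378 i1302 (k8 c600 c57 c534 c377 c408 c399 c815 c2095 (k8 c601 c574 i2493 i1221 c583 c1927 c479 i1759 (k8 c78 c477 i727 i1530 c1463 c1822 i963 c187 (k2 i2261 i2265 (k1 c1929 k0))))))) (by decide +kernel)
def c2130 : PP 8 4 T 0x8821001000000000000004000081000001000405004000000002000000000004000082 := rS 0x4aaf628a631d14e27530824fe733eadd268f (k8 c504 c436 c541 c57 c534 c408 i25 i961 (k8 c574 c1927 c468 i2261 i460 c573 i1984 c386 (k1 c1851 k0))) (by decide +kernel)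
def c2131 : PP 8 4 T 0x8101001000000000000000000100000001000000000000000002000040004014000000 := rS 0x984fa2d2eab592bd5ac360886245b3cb44e253549ecb26f3a984128715a05065d0010052f12797d1a10289ccfab7862843e4369b3c4a8f0b0648a06 (k8 c2121 i480 c391 c461 c504 i860 c420 c378 (k8 c2008 i1302 c2128 c600 c541 c57 c534 c377 (k8 c1966 i1759 c477 i1221 c374 i1836 c399 c815 (k8 c2095 c1698 c1665 i899 c2025 i25 i961 c574 (k8 i969 i2595 i2493 c583 i453 c1927 c479 c78 (k8 i1757 c512 c2129 c224 c865 i1225 c2130 c1929 (k4 i2286 i1374 i2265 c1898 (k2 c1294 c1186 k0)))))))) (by decide +kernel)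
def c2132 : PP 8 4 T 0x8101000000000000000000000100000001040000000000000002000040000014000000 := rS 0x17f435a2ec434f51af5994544260469f4b84cf2d1389ecb26f3a984128715a050a832e80080297893cbe8d081fce67d5bc31421f21b4c66cf33a744a8f0b0648a06 (k8 c2121 i480 c391 c461 c504 i860 c552 c486 (k8 c420 c389 c378 c2008 i1302 c2128 c600 c541 (k8 c57 c534 c408 c1966 i1759 c477 i1221 c374 (k8 i1836 c399 c815 c2095 c1698 c2024 c1665 i899 (k8 c2025 i25 i961 c574 i969 i2595 i2493 c1927 (k8 c479 c78 i6 c869 c1898 c1288 c1294 c1610 (k8 c1991 c1564 i1990 i280 c491 i2499 i1948 c1446 (k2 c580 i1455 (k1 c485 k0))))))))) (by decide +kernel)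
def c2133 : PP 8 4 T 0x8101000000000000000000000100000001000000000000000002000040000014000000 := rS 0x3f15c275996c708a2fa349e7b0b064ba002011452f10814618a10f90da606 (k8 c2121 c378 c2008 i1302 c2128 c600 c377 c1966 (k8 c374 i1836 i480 c399 c815 c2095 c391 c461 (k8 i2493 i1221 i1759 c477 c2132 i452 i1883 i2265 (k4 i1875 c1929 c2131 c503 k0)))) (by decide +kernel)
def c2134 : PP 8 4 T 0x4101000000000000000000000100014010085004000040550102000000054514000082 := rS 0x1729352a2556ad65b24c6a3238c0aaae122cd524f0b0648a61049951c75 (k8 c574 c1171 i2634 i25 i961 i480 c391 c461 (k8 i1221 c583 i2265 c2127 c1929 c2048 i861 i205 (k8 i324 i2261 c564 c197 i1226 i458 i1340 i1379 (k2 i1510 i987 (k1 i2040 k0))))) (by decide +kernel)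
def c2135 : PP 8 4 T 0x101000000000000000000000100000001040000000000000002000040000014000000 := rS 0x34b259e472ab9466245aa8d731544260f2d138964de353082502832e8a5e24f2fa34fe7d5ba54e70c5087da6673688cca214745cea002010c56160c9140c10 (k8 c1966 c2121 i480 c391 c461 i899 c2008 c399 (k8 c815 c574 c2133 c1171 i2497 i2634 c1445 c2054 (k8 c1828 c378 i1302 c2128 c600 c534 i1102 c541 (k8 c57 c408 i1759 c477 i1221 c374 i1836 c2095 (k8 c1698 c1665 i25 i961 c601 i969 i2595 c1927 (k8 c479 c78 c1294 c1610 c411 i2896 i281 c1437 (k8 c1446 c395 c475 c2048 i205 c168 c564 i1764 (k1 c2052 k0)))))))) (by decide +kernel)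
def c2136 : PP 8 4 T 0x101000000000000000000000100000001000000000000000002000040000014000000 := rS 0x272d8e1146711a54ca214fa3a2e7328c3142d30f9ecb275438ac2c194297400402281852437897d1a10 (k8 c1966 i1759 c477 c374 c2008 i1836 c2121 i480 (k8 c399 c815 c2095 c2024 c391 c461 i899 c2025 (k8 c574 i2595 i2493 i1302 c378 c2128 c600 c377 (k8 c534 c2133 c1171 i1187 i2497 i2634 i1102 c1445 (k4 c1828 c2135 i452 i1883 (k2 i1875 c2134 k0)))))) (by decide +kernel)
def c2137 : PP 8 4 T 0x8001000000000000000000000015020000000000000001000002060000000214800000 := rS 0x318b11200 (k4 c815 c26 i822 i448 (k1 c2122 k0)) (by decide +kernel)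
def c2138 : PP 8 4 T 0x8001000000000000000000000100000001000000000000000002000040000214000000 := rS 0x57945f90c50b4c3ea927984b6b3453455a0c04aacd4c2638cd8b4f138e2329e3ab34f28f1d9ec4a852e800be8d8821c802b0b0648a2921bc42006 (k8 c2121 c1966 c374 c2008 i1836 i480 c391 c461 (k8 i899 c399 c2025 c2136 i1759 c477 c815 c2095 (k8 c2024 c545 i2493 i1155 c416 c78 c555 c574 (k8 c1564 c39 c520 i1875 c529 i1526 c389 i298 (k8 c2018 i1952 i2271 i25 i1953 i1494 c479 c401 (k8 i2265 i3085 i961 i1221 c583 i1302 c378 c2137 (k4 c600 c2129 c377 c503 (k1 c1929 k0)))))))) (by decide +kernel)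
def c2139 : PP 8 4 T 0x1000000000000000100010015020004000000000051000002000000001004802002 := rS 0x32d2a63528b112a3 (k8 i1647 c26 i822 i363 i448 i979 i466 i2040 k0) (by decide +kernel)
def c2140 : PP 8 4 T 0x8001000000000000000000000100000001000000000000000002000040000014000000 := rS 0x2b994513fc31425510a8d56ad329a818c259b1cb627450e18b19a7a797267498ccf2d16987ca6a9279ecb23b019d4c209438ac2c194297400402281852437897d1a103ead59a252bb251f10 (k8 c2136 c416 c459 c64 c545 c555 c463 c433 (k8 c1966 i1759 c477 c374 c2008 i1836 c2121 i480 (k8 c399 c815 c2095 c2024 c391 c461 i899 c2025 (k8 i25 i961 c574 i999 i1155 i2595 i2493 i1221 (k8 c583 i453 i1302 c378 c479 c78 c389 c436 (k8 c486 c487 c1564 c529 c39 i1526 c520 c401 (k8 i1875 i3085 i298 i2265 c2018 i1953 i1952 i1492 (k8 i1494 i2271 i1647 c2138 i1489 c2139 c600 c861 (k4 c377 i2037 c1929 i2277 k0))))))))) (by decide +kernel)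
def c2141 : PP 8 4 T 0x1000000000000000100010001020000000000000001000002060000001204800000 := rS 0x19526670611c662c56aadf9153918d1200 (k8 c815 c26 i448 i821 c36 c573 c37 c34 (k8 i822 c1142 i1530 i744 i450 i1242 i963 c2139 k0)) (by decide +kernel)
def c2142 : PP 8 4 T 0x1200000000000001000000000000000005000001100554002000000000004000000 := rS 0xaa6b (k2 c537 c49 (k1 i2039 k0)) (by decide +kernel)
def c2143 : PP 8 4 T 0x4001000000000000001100000000000000085000000010554002000000000004000002 := rS 0xd65533414d26d (k4 i2266 i1888 c2142 c532 (k2 c1155 i2264 (k1 i2039 k0))) (by decide +kernel)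
def c2144 : PP 8 4 T 0x4001000000000000001100000000000000084000000000014002000040055504020002 := rS 0x3158e9d618c08c641c04d0a5d7897d1a5b (k8 i1757 i1759 c477 c374 c2095 c2024 i6 i452 (k8 c2143 i963 i962 i210 i2941 i1692 i1879 i2032 k0)) (by decide +kernel)
def c2145 : PP 8 4 T 0x4001000000000000041000000101020001400000000001004002060040401404800000 := rS 0x25d162113abdf8b94dc556699318b0e43f44a35a2003d9650e2b14bc420c9 (k8 c459 c1966 c374 i1836 i899 c2025 i2595 i2493 (k8 c815 c479 i1759 c26 i402 i821 i822 i448 (k8 c870 i474 c36 i1179 i1141 c573 c503 c2125 (k4 c2141 c2144 c869 i2041 k0)))) (by decide +kernel)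
def c2146 : PP 8 4 T 0x4001000000000000000100000000000000000000000000000002060000000204000000 := rS 0x414ca672a11c6600 (k8 c815 c1142 i1530 i743 i450 i963 c49 c532 k0) (by decide +kernel)
def c2147 : PP 8 4 T 0x4001000000000000001000005100000001445554044000014542000040000004800082 := rS 0x33c14caab672e4c4ad8aa7d3a884c460f28d08345a6713a98412c9 (k8 c459 i25 i961 c574 c1927 c378 c479 c1966 (k8 i1759 c78 c401 c1294 c1610 c393 c39 c411 (k8 i2861 i1340 i2896 c1146 i2260 i2636 c664 c1180 (k1 c532 k0)))) (by decide +kernel)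
def c2148 : PP 8 4 T 0x1000000000000000000000100000001000000000000000002000040000014000000 := rS 0x261c22842b739944ff0c50c5d925712b351eb5119f6208342a050e612e9bc5e2b2c9ec00165490032530f93c8a096981852437897d1a10 (k8 c1966 i1759 c477 c374 c2008 i1836 c2121 c378 (k8 i25 i480 i1221 i1302 i453 c391 c399 c583 (k8 c461 c815 i2493 i2595 i899 i1080 i969 c2095 (k8 i961 c2025 c1665 c2024 c1698 c2136 c433 c454 (k8 c463 c416 c555 c545 c64 c459 c2140 c2145 (k8 c600 c408 c377 c534 c541 c2146 c2147 i452 (k2 c2144 i1875 k0))))))) (by decide +kernel)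
def c2149 : PP 8 4 T 0x1000000000000020000000000000000000000000000000002000000000004020000 := rS 0x7400 (k2 i471 i472 (k1 c527 k0)) (by decide +kernel)
def c2150 : PP 8 4 T 0x1000000000000000000000100000002000001000000000002000000000004020000 := rS 0xb8458cc4c26d1 (k4 c2149 i6 c390 c50 (k2 c994 c1613 (k1 c1277 k0))) (by decide +kernel)
def c2151 : PP 8 4 T 0x11000000000000000000004500000441000001000000540502080000000004000000 := rS 0x9939938f66f38a050712 (k8 c492 c579 c1665 c582 c372 c551 c2010 i2454 (k2 c2117 i2045 k0)) (by decide +kernel)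
def c2152 : PP 8 4 T 0x101000000000000000000000100000000400000000000000002080040000004000041 := rS 0xc09839c31071240a5d165d4dc6076890b1c5e25f6894da6393d96c82b3168080ab7539bca21c489e51a10 (k8 c1966 i1759 c78 c2150 c2148 i1229 c372 i1913 (k8 i722 i524 c410 i1001 i473 c815 i1758 c551 (k8 i1874 c405 c381 c2149 c477 c374 c582 c375 (k8 i1342 i1155 c520 c207 c1993 c40 c526 c1665 (k4 c492 c579 c2151 c534 (k2 c1815 c1610 (k1 i1020 k0))))))) (by decide +kernel)
def c2153 : PP 8 4 T 0x1000000000000050000004541000501150100054001000002000400008004000010 := rS 0x5c3e31208f297 (k4 c869 c78 c1294 i2041 (k2 i736 c1928 (k1 i404 k0))) (by decide +kernel)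
def c2154 : PP 8 4 T 0x101000000000000000000000100000000400000000000000002000040000004000041 := rS 0x3e170f531451da5ce3184da2d5e4f30c4ce6a97e1704c894085c12441490cdeb728a9d66f168b4c38913ca3404053d96c8210 (k8 c1966 c815 i1758 c551 i524 c410 i1759 c78 (k8 c2150 c2148 c405 c2149 c374 i473 i1913 i1229 (k8 i722 c372 c2152 i1836 c399 i1262 i999 i1236 (k8 i2093 i484 i483 c1137 i1085 i717 c65 c384 (k8 c19 c503 c744 c1709 c500 c495 c869 c380 (k4 c1991 c2153 i1785 c870 (k2 c449 i404 k0))))))) (by decide +kernel)
def c2155 : PP 8 4 T 0x8101000000000000000000000100000000000000000000000002080040000004000001 := rS 0x2d94eaf361acac65599a4aa3f6620d0e8540a2d3e5d8c1d476510b095e25f6894c3e1c489e51acf33a7592591c9ecb610278191e41 (k8 c815 c504 c2154 i1222 c1966 i1758 c551 i1874 (k8 c507 c432 c552 c486 c420 i1759 c78 c2150 (k8 c2148 i10 c381 c2149 c477 c374 c590 c375 (k8 i440 i1155 c1516 c520 c1993 c39 c40 c1665 (k8 c2024 c1660 c1698 c1146 i1421 i2459 i1831 i474 (k8 c1644 c1974 i2253 i2042 i2273 i1912 i2038 i722 k0)))))) (by decide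 +kernel)
def c2156 : PP 8 4 T 0x8101000000000000000000000100000000000000000000000002000040000004000001 := rS 0x459bd3313419861ab739971665057a042e441490ce20668871227946a3c04053d96c8210 (k8 c1966 c815 i1758 c551 i524 c410 c504 i1759 (k8 c78 c2150 c2148 c2149 c2154 c1927 c2155 i1836 (k8 c399 i999 i1236 i2295 i479 i2299 i483 i717 (k8 i1930 c377 i2822 i1437 c65 c2117 c451 c744 (k1 c1294 k0))))) (by decide +kernel)
def c2157 : PP 8 4 T 0x1000000000000000000000100000000000000000002000002004540100004000040 := rS 0x3c17bf54e10 (k4 c1966 i1913 c384 c1154 (k2 c1988 c2112 k0)) (by decide +kernel)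
def c2158 : PP 8 4 T 0x201000000000000000008000014000000000000000000011042000000000024020040 := rS 0xfecb51830a67d5a95d4e51 (k8 i1229 i1913 c64 c463 c433 c381 i1953 i328 (k2 i465 i720 (k1 i2037 k0))) (by decide +kernel)
def c2159 : PP 8 4 T 0x400000000000008001000001000000000054000000000000000000000000000002000540000004000000 := rS 0x720c066cf1aa753f18 (k8 c520 c39 c552 c506 c420 c389 i2035 c515 (k1 c450 k0)) (by decide +kernel)
def c2160 : PP 8 4 T 0x211000000000000000008000001000000000000080000011002080000000024020040 := rS 0xab56bf0124f1714ca20c (k8 i1953 i1229 c381 i718 i2454 i199 c427 i1494 (k2 c37 c2158 k0)) (by decide +kernel)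
def c2161 : PP 8 4 T 0x8211000000000000000008000001000000000000000000001002080000000024020040 := rS 0x8a250e6935c9651e753ead4de51389fd46a7 (k8 i1913 i328 i720 c582 i1229 c372 c463 c433 (k8 c368 c504 c507 c487 c436 c2160 c1138 c379 (k1 c386 k0))) (by decide +kernel)
def c2162 : PP 8 4 T 0x8001000000000000000000000100000000000000000000000002080040000004000041 := rS 0x28a3d39a0618c22ab1c7e27141718a69a7a192e9f8c2a47616388ac8af10997da61f67a3c6a9d01014727b2d904ea8511b3620b7539bca21c489e51a10 (k8 c1966 i1759 c78 c2150 c2148 i1229 c372 i1913 (k8 i722 c2156 c555 c454 c6 c368 c815 i1758 (k8 c551 i1874 i524 c410 c552 c506 c504 c420 (k8 i10 c405 c477 i6 c374 i41 c464 c582 (k8 c375 i1155 i2754 c520 c39 c526 c1146 c67 (k8 i1564 i1524 c1660 i444 i1766 i256 i258 c1992 (k4 c2159 c2161 c2 c534 (k2 i1839 c1991 (k1 c449 k0))))))))) (by decide +kernel)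
def c2163 : PP 8 4 T 0x8001000000000000000000000100000000000000000000000002000040000004000041 := rS 0x820a868627d368b899cdf80d2e0982e092210d66d169871227946b3d3a59478080a7b2d904207542b34af10 (k8 c2156 c64 c555 c6 c368 c1966 c815 i1758 (k8 c551 i524 c410 c504 c507 c552 c420 i1759 (k8 c78 c2150 c2148 c405 c2149 i473 c2162 c399 (k8 i1262 i999 i484 i483 i481 c1137 i717 c65 (k8 c744 c1709 c1586 c2104 c1146 c1566 i737 c2080 k0))))) (by decide +kernel)
def c2164 : PP 8 4 T 0x8001000000000000000000000100000000000000000000000002080040000004000001 := rS 0x28cfcab56b2cd40c611558e27141718a69a7a193f181d9442c2b22bc4265f2987d9e354e9651e393d96cea7d4288d9a5752ad6201c489e51a100493c0c41 (k8 c815 c2163 i1222 i25 c1966 i1759 c78 c2150 (k8 c2148 c2156 c463 i1381 c64 c555 c454 c6 (k8 c433 c368 i1758 c551 i1874 c504 c507 c552 (k8 c506 c420 i10 c381 c477 i6 c374 i41 (k8 c464 c375 i440 i1155 c520 c39 c1146 c67 (k8 i1564 i1524 c1660 i444 i1766 i258 c1992 c2159 (k8 i1953 i1952 i466 i1494 i2271 i2037 i1647 i720 k0))))))) (by decide +kernel)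
def c2165 : PP 8 4 T 0x8001000000000000000000000100000000000000000000000002000040000004000001 := rS 0x22cde9989a0cc30d5b9ccb8b3282bd0217220a48671031ecb60220815a21c489e51a10 (k8 c1966 i1759 c78 c2150 c2148 c2149 i524 c815 (k8 c410 i1758 c551 c2163 c1927 c2164 i1836 c399 (k8 i999 i1236 i2295 i479 i2299 i483 i717 i1930 (k8 c377 i2822 i1437 c65 c2117 c451 c744 c1294 k0)))) (by decide +kernel)
def c2166 : PP 8 4 T 0x8001000000000000000000000100000000000000000000000002000040000004000000 := rS 0x1145a41898a865558c41ae411ab443114aad228853e98dfa5d409855289439fc9cb714818f6732890c4a7115900762f3a914061600165728f33a4de2132fb45a61c489e51a10 (k8 c1966 i1759 c78 c2150 c2148 c405 c2149 c477 (k8 i6 c374 c436 c486 c504 c487 c507 c2165 (k8 c421 i1 c569 c574 c575 c527 c536 i899 (k8 i2491 i860 c563 i1230 i718 i2493 i742 i186 (k8 i2496 i741 i2495 c2025 i1342 c577 i1224 i1236 (k8 c2095 c19 i1350 i2817 c2024 c573 c1822 c386 (k8 c463 i2498 i1288 c1252 c392 c4 c450 i457 (k4 i962 c1921 c2124 i2501 (k2 i745 c1610 (k1 i1883 k0))))))))))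 (by decide +kernel)
def c2167 : PP 8 4 T 0x1000000000000000000000100000000000000000000100002080040000004000041 := rS 0x1807e7341c3224812fb44a6d32d90566515ba9d12710e26c5a0202a2d2f181d8592279468e5e210 (k8 c1966 c374 i1874 i1759 c78 c2150 c375 i1155 (k8 c520 c526 c40 i524 c410 i1001 c207 c2148 (k8 c582 i1342 i1913 i722 i1229 i473 c815 i1758 (k8 c405 c381 c2149 c477 c1665 c492 c2151 c579 (k4 c534 i1421 c1610 c2157 k0))))) (by decide +kernel)
def c2168 : PP 8 4 T 0x1000000000000008100001114000000000010000040014142000054000004000000 := rS 0x3f08608e43294c38913ca342117 (k8 c2166 c1966 i1759 c78 c2150 c2148 c381 i1028 (k4 c168 c532 c470 c664 (k1 i719 k0))) (by decide +kernel)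
def c2169 : PP 8 4 T 0x400000000000004201000000001000000050000000000000000000080000010002090014000024020048 := rS 0x2a031843078aa42d0d (k8 c534 c375 i2754 c374 c510 c515 i1003 c2160 (k1 i1490 k0)) (by decide +kernel)
def c2170 : PP 8 4 T 0x1000000000000000000000100000000400000080000000002080040000004000041 := rS 0x62c37253d0ccf1999d56ad7e2e49f0d8a94cf65b2094438c94ea7e303b489e51a3978b34b2353ead4aec542b1c47108b9d42c0202840505c (k8 c2167 i444 c1966 i524 c410 c375 i2671 c2166 (k8 c1171 c454 i258 c6 i1841 c64 c463 c433 (k8 i1116 c507 i3133 c374 i1874 i1759 c78 c2150 (k8 i1155 c520 c39 c393 i2776 c2148 i1229 c815 (k8 i1758 c551 c381 c36 c534 i2454 i1141 c427 (k8 c34 c37 c1180 i193 c2168 c1146 c67 c2169 (k2 c444 c450 (k1 i2035 k0)))))))) (by decide +kernel)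
def c2171 : PP 8 4 T 0x1000000000000000000000101000440050000000001000002004440400004000048 := rS 0x15c3c4c98da2d30e244f28d59a9c202d (k8 i1001 c1966 i1913 i473 i1759 c78 c2150 c2148 (k4 c405 c2149 c1292 c870 (k2 c1454 i2041 (k1 c1150 k0)))) (by decide +kernel)
def c2172 : PP 8 4 T 0x1000000000000000000000100000000000000000000000002080040000004000041 := rS 0x1055a9648e953295cfa3419b1d9e5518a1cff1155ab51c4f7e1c8122e308fd9a28899712e8b4ea6e30c9548ed12190b094e2457894da61f8b90472510e244f28d168080a10 (k8 c1966 i524 c410 i1001 i1759 c78 c2150 c2148 (k8 i1229 i1874 c815 c2166 i10 c405 c381 c374 (k8 i41 c582 c590 c375 c391 i1342 i1155 i2754 (k8 i2776 c520 c207 c393 c40 c526 c2167 c65 (k8 i444 i3133 i256 c2157 c2171 i199 i1079 c1137 (k8 i702 c2170 c34 c37 c416 i2477 i931 i2676 (k8 i2457 c1791 i259 c1806 c1998 c1910 c1807 c2049 (k4 i2760 i207 c568 i885 (k2 c664 c833 k0))))))))) (by decide +kernel)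
def c2173 : PP 8 4 T 0x1000000000000000000000100000000000000000000000002000040000004000041 := rS 0x3e170f531451da5ce3184da2d5e4f30c4ce6a97e1704c894085c12441490cdeb728a9d66f168b4c38913ca3404053d96c8210 (k8 c1966 c815 i1758 c551 i524 c410 i1759 c78 (k8 c2150 c2148 c405 c2149 c374 i473 i1913 i1229 (k8 i722 c372 c2172 i1836 c399 i1262 i999 i1236 (k8 i2093 i484 i483 c1137 i1085 i717 c65 c384 (k8 c19 c503 c744 c1709 c500 c495 c869 c380 (k4 c1991 c2153 i1785 c870 (k2 c449 i404 k0))))))) (by decide +kernel)
def c2174 : PP 8 4 T 0x11000000000000000000000100000000000000000000540142000000000024020000 := rS 0x57a99f8b629acc7e83 (k8 c1698 i1421 i474 c381 c2010 c427 i722 c503 (k1 i1912 k0)) (by decide +kernel)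
def c2175 : PP 8 4 T 0x1000000000000000000000100000000000000000000100002080040000004000001 := rS 0xb739c30c2834097da253699ecb6714493c0c41289bc3e1c45a5d37181d8592279468e5e210 (k8 c1966 c374 i1874 i1759 c78 c2150 c375 i1155 (k8 c520 c394 c526 c40 c2148 i10 i969 i440 (k8 c815 c2173 i1222 i1341 c1927 i1758 c551 c405 (k8 c381 c2149 c477 c1665 c1698 c1985 c2174 c534 (k2 c541 c1610 k0))))) (by decide +kernel)
def c2176 : PP 8 4 T 0x1000000000000004850000000000000000000000000000002000554800004020000 := rS 0xc318835829d4fc61e2a5 (k8 i365 c374 c520 c39 c393 c2050 i466 i1082 (k2 i1953 i2035 k0)) (by decide +kernel)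
def c2177 : PP 8 4 T 0x1000000000000000000000100000000400000080000000002080040000004000001 := rS 0x1c8c218b2d9e3363b14ce5711a14fab5880d4b2a18b9d5920202a753f181d8e5e2282e455722e0b2b556fc869443e4f03104a61c489e51a10 (k8 c1966 i1759 c78 c2150 c2148 c381 c815 c2173 (k8 i1222 i10 i440 c534 c427 c37 c34 c375 (k8 i718 i2780 c36 c2175 i444 c374 i1874 i1155 (k8 c520 c39 c393 i524 c410 i2776 i2671 c2166 (k8 i89 c507 i1116 c1171 i884 c433 c6 c454 (k8 c64 c1180 i1841 i258 i193 c2168 c2176 c1056 (k2 i2035 c510 (k1 c444 k0)))))))) (by decide +kernel)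
def c2178 : PP 8 4 T 0x1000000000000000000000100000000000000080000000002080040000004000001 := rS 0x2d596594a99468573e8cd8ecf2a8c50e7f88a3956ad5cbf05d0d29c5c9e0620894a21f0e0648ac9010153b181d8592279468e5e313668a0b810 (k8 c1966 c2175 i444 i3133 c65 c374 i1874 i1759 (k8 c78 c2150 c375 i1155 c520 c393 i524 c410 (k8 i2776 i41 c391 c2148 i10 i440 c590 c815 (k8 c2173 i1222 c2166 c381 c534 i718 c427 i2780 (k8 c34 c37 c2177 c416 i2477 i931 i2676 i2457 (k8 c1791 i259 c1806 c1910 c1807 c1998 c2049 i2760 (k4 c568 c173 i885 i2037 k0))))))) (by decide +kernel)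
def c2179 : PP 8 4 T 0x11000000000000010000000500000400140000040000000542000000000004000000 := rS 0xfc (k2 c427 c2104 k0) (by decide +kernel)
def c2180 : PP 8 4 T 0x1000000000000000000000100000000400000000000000002080040000004000001 := rS 0x934ac505a613ec422e750118c0a7f412645ed344d15030c59a6d164f29b452f181d8e5e26f0b1cd6e5c2887c387b2d904e206489e51a10 (k8 c1966 i1759 c78 c2150 c2173 c1927 c815 i1758 (k8 c551 c2148 i10 i440 c2175 i1931 c2178 c375 (k8 i969 c374 i1874 i1155 c520 c526 c2149 c381 (k8 i1222 c40 c394 i2255 c2179 c2 c1991 i1341 (k8 c405 i1079 c870 c1815 c408 i524 c1928 c410 (k8 i2671 c2166 c1171 c433 c2005 i1000 c548 c386 (k2 c12 c2007 k0))))))) (by decide +kernel)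
def c2181 : PP 8 4 T 0x1000000000000000000000100000000000000000000000002080040000004000001 := rS 0x196ab56965464710194685719b1d9efd2a8c50f11572394d451ea06182f39b347eb7142ce265c4da5d169d8c324de3b288584a4578b44a6d30f871227946c5c04051c9ecb6103893c0c41 (k8 c815 c2173 i1222 c1927 c1966 i1758 c551 i1874 (k8 i524 c410 c2166 i1759 c78 c2150 c2148 i10 (k8 c405 c381 c2149 c374 i41 c590 c375 i440 (k8 i1155 i969 i2776 c520 c393 c40 c526 c394 (k8 c2175 c65 i2255 i444 i1931 i1419 i3133 c2178 (k8 i1079 c2179 c2 i1839 c1991 c449 c2180 i1912 (k8 c416 i931 i2676 i2457 c503 c1791 i259 c1806 (k8 c1807 c1998 c2049 i1117 i207 i326 c568 i1226 (k2 i458 c197 (k1 c1084 k0)))))))))) (by decide +kernel)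
def c2182 : PP 8 4 T 0x1000000000000000000000100000000000000000000000002000040000004000001 := rS 0x228de9989a0cc30d5b9ccb8b3282bd0217220a48671031ecb60220815a21c489e51a10 (k8 c1966 i1759 c78 c2150 c2148 c2149 i524 c815 (k8 c410 i1758 c551 c2173 c1927 c2181 i1836 c399 (k8 i999 i1236 i2295 i479 i2299 i483 i717 i1930 (k8 c377 i2822 i1437 c65 c2117 c451 c1294 c744 k0)))) (by decide +kernel)
def c2183 : PP 8 4 T 0x4001000000000000001100000000000000085000000010504002000000000004000002 := rS 0x5b3d9648016 (k4 c421 c536 i2595 i2493 (k2 i1883 c2143 k0)) (by decide +kernel)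
def c2184 : PP 8 4 T 0x4001000000000000010000004100000101505150040001100082000000000004000002 := rS 0x2f59cbf412753e9b459a686cb32ab5705766ad620c92f9d52a93a2a5e28fd31aa4de7b388588079 (k8 c78 c536 c421 i2491 i2493 c382 c577 i1350 (k8 c19 c573 c571 c1991 c12 c386 c574 c477 (k8 c459 c1171 c463 c555 c64 c1822 c831 c1358 (k8 i1389 c543 c1115 c2183 c364 c187 c335 c1294 (k4 i1457 c1146 i1416 c255 k0))))) (by decide +kernel)
def c2185 : PP 8 4 T 0x1000000000000000000000001110000000000000055010082000000002004800080 := rS 0xab56ae596c95191c60554aa4e28fd (k8 c19 c573 c12 c386 c2048 i861 i205 i324 (k4 c564 i1390 i987 i1226 (k2 i458 i2040 k0))) (by decide +kernel)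
def c2186 : PP 8 4 T 0x4101000000000000000000000000004000085000000000000002000000051504000002 := rS 0x4c383d858ce40 (k4 c536 c1828 c421 i2493 (k2 i452 c2127 (k1 i1875 k0))) (by decide +kernel)
def c2187 : PP 8 4 T 0x1000000000000000000000100000000000000000000000002000040000004000000 := rS 0x264126d16ab06ab5c8c11299c46a5328853f1147215327d31975026154a250e7f272dcb229031cc8671158d4802f01858de008ba85a61c48b44f25f4684de210 (k8 c1966 c374 i6 i1759 c477 c78 c2149 c2150 (k8 c2148 c405 i89 c2166 c2182 c382 c421 i1 (k8 c575 c536 c601 i899 i2491 c563 i718 i742 (k8 i186 i2595 i2496 i741 i2495 c2025 i1342 c577 (k8 i1224 i1236 c2095 i1350 i2817 c870 c2024 c2184 (k8 c416 i1187 i2497 i2634 i1382 c1445 c1828 c2185 (k8 c224 c392 i1225 c4 i457 c2186 c364 c1294 (k2 c1923 i2501 k0)))))))) (by decide +kernel)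
def c2188 : PP 8 4 T 0x8001000000000000000401010001040000000000000000002802080010500004000001 := rS 0x12aa518ab08c89300146693 (k8 c436 c389 c417 c593 i1278 i704 i831 i1532 (k2 i209 i1558 (k1 i2033 k0))) (by decide +kernel)
def c2189 : PP 8 4 T 0x1000000000000000000000000000500050000000002000002001440500004000008 := rS 0x971ca9c7eb0 (k4 c2187 c1161 c1164 i195 (k2 i1284 i2034 k0)) (by decide +kernel)
def c2190 : PP 8 4 T 0x101000000000000000000044200000005495100081100141802100004411004010009 := rS 0x6b1009c46ad72bc1481332a9e1a5f419d56a3d03b0546d28a8b542415fa58c0591a859fab9 (k8 i1141 c373 c968 i1116 c507 c593 i1885 i2840 (k8 c815 c1507 i977 c36 c548 c69 c539 i454 (k8 c1487 c562 i2671 i923 c489 c534 c1164 c1644 (k8 c1846 c1837 c1167 c484 c2047 i249 c54 c392 (k2 i1967 c1456 k0))))) (by decide +kernel)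
def c2191 : PP 8 4 T 0x8001000000000000000000000200000001480000080000000802080000400004010001 := rS 0x12aa518ab01a6a2bb3620bb349b4aa9d33a4c664512a1cba5f60a8da489300162a2d509052c5b5bc6532a9012050a29891ec6a167eae59659 (k8 c507 i621 i1141 c373 c968 i1116 c535 c744 (k8 c560 c376 c46 c563 i2754 i1826 c40 c2009 (k8 i1883 i1885 c815 c1507 i977 c36 c417 c593 (k8 i1278 c548 c69 c539 c489 i443 c1660 c590 (k8 i41 c389 c436 c486 c552 c2188 i555 i1887 (k8 i1903 c2190 c555 c64 i2039 i467 i1967 i1003 (k2 c2047 i1558 (k1 i2033 k0)))))))) (by decide +kernel)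
def c2192 : PP 8 4 T 0x4001000001000000000000000000000001484004000400101002000040001004810018 := rS 0x6066199b13c694eb958e27628e024791597c77192da1453122c8d446cd2bc40eacf (k8 i1978 i2671 c1171 c64 c555 c454 i1116 c507 (k8 c744 c560 c376 i1883 c40 i1155 c489 i899 (k8 i972 c1167 c520 i3090 i3089 i2070 c1876 c1875 (k4 i1887 c1146 i2039 i1711 (k2 i555 c510 (k1 i1506 k0)))))) (by decide +kernel)
def c2193 : PP 8 4 T 0x4001000000000000000000000010000001484004000000100802000040001004810018 := rS 0x6066199b13c694eb958a2763bc19e6b2aac0f22b2f96d0a29891646a236695e2075 (k8 i2671 c1171 c64 c555 c454 i1116 c507 c744 (k8 c560 c376 i1883 c489 i899 i972 c2187 i831 (k8 i1967 i1978 c2192 c20 c54 c547 c1876 c1875 (k4 i1887 c1146 i2039 i1711 (k2 i555 c510 (k1 i1506 k0)))))) (by decide +kernel)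
def c2194 : PP 8 4 T 0x10001000001000000008000000000000000000000000800000002000440000004010008 := rS 0x193087012 (k4 c1167 c520 i1960 i1977 (k1 i2068 k0)) (by decide +kernel)
def c2195 : PP 8 4 T 0x14801000000000000000000600020000001400000080004000002000040000004010008 := rS 0x184321c3c19c9f33248d5438a8eceac914ae60a9554859fab0 (k8 c2187 c373 c968 i2754 i1558 c488 i1141 c560 (k8 i2776 i2671 i1155 c36 c415 i1292 c472 c1025 (k4 i1717 i548 c2194 c1520 (k2 i1977 i1976 (k1 i2068 k0))))) (by decide +kernel)
def c2196 : PP 8 4 T 0x1000000000000000000000000000001400000080000000802080040400004010001 := rS 0x24e867e5ea5576ac669f621175cabe2a83129d50e5d2fad4c6b78cafd2c8142c49143d03a240a604caa4043b0b3f5609b16a84827b (k8 c535 c815 c1507 i977 i1179 c2187 c373 c968 (k8 i1155 c563 i2754 i1826 c593 c417 i1278 i454 (k8 c1487 c2189 c744 c376 c46 i1885 i2840 c40 (k8 c2009 c596 c562 c489 i443 c1660 i2671 c590 (k8 i923 c36 i99 i1141 c2191 c1171 c433 c555 (k8 c2193 i1560 i1558 c2195 i2047 c16 c1162 c472 k0)))))) (by decide +kernel)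
def c2197 : PP 8 4 T 0x101000000000000000000000020000010010000080004005002000005500004800000 := rS 0x1a084b0a582b05a515 (k8 c36 c548 c539 c488 c2047 c83 c465 c1673 (k1 i1117 k0)) (by decide +kernel)
def c2198 : PP 8 4 T 0x1000000000000000000000000000001000000080000000002080040000014010001 := rS 0x9da7b30b2cf499ad5a57199b52a5518a7e2f114716e328a1ea240e635a981325243aa4a24f2e9ec040522c345aa1208bcbe9b1d859fab0 (k8 c2187 c373 c968 i1155 i1179 c489 i1080 c815 (k8 c1507 i977 c534 i41 c417 c563 c535 i443 (k8 i701 c1051 i2754 c1660 c427 i1826 c593 c562 (k8 c596 i454 i1278 c1487 c2189 c40 i1883 c2196 (k8 c416 c504 i1187 i2676 i2457 i1103 i556 c1806 (k8 c1807 c2197 i1967 i1281 i1978 c1971 c1763 c491 (k2 i1909 c566 k0))))))) (by decide +kernel)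
def c2199 : PP 8 4 T 0x1000000000000000000000000000001000000080000000002000040000014010001 := rS 0x233134b200c47b282a4c2b72794c884320c561a7917859fab0 (k8 c2187 c373 c968 i1080 i972 c534 c36 c815 (k8 c2198 c399 c1173 c1715 i1824 i1017 c583 c427 (k4 i840 c573 i1315 i1354 (k2 c46 c526 (k1 c500 k0))))) (by decide +kernel)
def c2200 : PP 8 4 T 0x1001000000000000000000000000002000000080000000002080000000014010000 := rS 0xc68c29178a24f2d974050d1785a2696 (k8 c1282 c390 c968 i1080 c534 c563 i443 i2460 (k4 i701 c1051 c492 c427 (k2 c477 c596 (k1 i1818 k0)))) (by decide +kernel)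
def c2201 : PP 8 4 T 0x1000000000000000000000000000000000000080000000002000040000014010001 := rS 0x45344c28d0214cbe032210e329020859fab0 (k8 c2187 c373 c968 c815 c2199 c50 c2200 c399 (k8 i999 c1139 c1173 c410 i1032 i1017 c1141 c401 (k1 i1886 k0))) (by decide +kernel)
def c2202 : PP 8 4 T 0x1000000000000000000000000000000000000080000000002000040000004010001 := rS 0x1089c022894c38190b435fab0 (k8 c2187 c373 c534 c968 i8 c2201 c381 i2824 (k4 c1298 c427 i999 i2454 k0)) (by decide +kernel)
def c2203 : PP 8 4 T 0x1000000000000000000000200000001080000040000000002080000000014010000 := rS 0x26f1130f618294081e2b12302594e3f159c4f66f0b009064f (k8 i701 i1295 c563 c375 i2670 c535 c582 c464 (k8 c1161 c1164 i1885 i1886 c744 c571 i2820 c46 (k4 c560 c379 c1487 c1671 (k2 c54 i3089 (k1 c1167 k0))))) (by decide +kernel)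
def c2204 : PP 8 4 T 0x1000000000000000000000200000000000000000000000202080000000004000000 := rS 0x3c06 (k2 i439 i440 (k1 i2843 k0)) (by decide +kernel)
def c2205 : PP 8 4 T 0x1000000000000000000000000000001000000040000000002080040000014010000 := rS 0x9c7a297844a32394b22c76a71fa65522b389ecf26f4db44041641a06185129bf5604f (k8 i701 c2187 c373 c528 c2204 c427 c2 i1295 (k8 c375 c563 i2797 i1298 i2670 i972 c535 c582 (k8 c464 c577 i1826 c1161 c1164 i1155 c2203 c1815 (k8 i195 c526 c500 c520 c560 c11 c54 c1671 k0)))) (by decide +kernel)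
def c2206 : PP 8 4 T 0x201000000000000001000404060000000004550000400000002000000000004000000 := rS 0x5eaed0ab5 (k4 c463 c6 i1560 i1292 (k1 i2047 k0)) (by decide +kernel)
def c2207 : PP 8 4 T 0x201000000000000000000000010000000000050000001011542000002000004000048 := rS 0x156cb320316a57 (k4 c64 c463 i1003 i1002 (k2 i465 i1660 (k1 i2037 k0))) (by decide +kernel)
def c2208 : PP 8 4 T 0x5001000000000000000001000000010000020050010000000002000008401454000008 := rS 0x1709552918cc21 (k4 c1142 i193 i192 i2067 (k2 i3001 c2071 (k1 i1403 k0))) (by decide +kernel)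
def c2209 : PP 8 4 T 0x5001000000000000000000000000010000400050110000000002000011501054000008 := rS 0x854aa3720cd82886988d6b10 (k8 c1171 c463 c454 c1783 c548 i1345 c2208 c510 (k4 i280 c484 c470 i2030 k0)) (by decide +kernel)
def c2210 : PP 8 4 T 0x5001000000000000000050400000000000400000000001810402080040500014000041 := rS 0xa7218daac829a4aa64060cc61101aabd42415b9c44ad13ab24041641a04fe7d0fc30a2fd5813d9a3b1ca300a6b (k8 i629 c417 c477 i1814 c1148 c413 i701 c2187 (k8 c373 c2204 c427 c452 c57 c408 c2 i1295 (k8 c375 c563 i2776 i2671 i2797 c590 c582 i1824 (k8 c815 c1507 i99 i1116 c1171 c2209 i69 i1003 (k8 i1002 c2039 i1495 c75 c2207 i1701 c2206 c550 (k1 c67 k0)))))) (by decide +kernel)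
def c2211 : PP 8 4 T 0x4001000000000000000000000000000002000000040000800002080040000014000001 := rS 0x2d0aead55b2c66654a9546311472bc82a9228085e7f3ec30a2537e93e2acd30a2cb2250b0b57e624b31d8a071ebc072051da3232b0 (k8 c2187 c50 c477 c1148 c417 i1814 c520 c11 (k8 i1227 c547 c20 c1282 i1818 i2871 i1244 c375 (k8 c590 c2046 c517 i1284 c413 c571 i701 c373 (k8 c528 c2204 c427 c57 c408 i1079 c563 i41 (k8 c577 c815 i99 c2210 c416 i2676 i2457 i1102 (k8 i1025 c1806 c197 c225 c226 c1807 i2037 c1076 k0)))))) (by decide +kernel)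
def c2212 : PP 8 4 T 0x201000000000000004050000014001000000000000001015442080554000004000040 := rS 0x27d8668650c56ad101058fe7d86145fab0 (k8 c2187 c373 c2204 c427 c57 c408 c375 c563 (k8 i2797 c463 c2207 i2037 i1394 c2036 i1566 i2035 k0)) (by decide +kernel)
def c2213 : PP 8 4 T 0x1000000000000000000000000000000000000000000000002080040000014010001 := rS 0x168cb32c44aeab569553a3533a4d9e338b01d8ac71ebc0b261310e4768b46334bc968ca40fa7f8613dfaaf299cc0a252eb44eac901058a2b0 (k8 c2187 c2204 c375 c563 i2776 i2671 i2797 i443 (k8 c590 c417 c2202 c528 i99 c373 i701 c427 (k8 c408 c57 c2205 c50 c1282 c840 c413 c477 (k8 c517 c1148 i1814 i1818 i1284 c2046 c520 c11 (k8 c20 c547 i1227 c2211 c389 c420 c436 c486 (k8 c506 c552 c2039 i1352 i537 c1066 c2212 c1644 (k2 c197 c1808 (k1 c1076 k0)))))))) (by decide +kernel)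
def c2214 : PP 8 4 T 0x1001000000000040000000001000080010000000004000002000000400004000008 := rS 0x31805915 (k4 c571 c548 c573 i1001 (k1 i2820 k0)) (by decide +kernel)
def c2215 : PP 8 4 T 0x1000000000000000000000000000000000000000000000002080040000004010001 := rS 0x5e48a5cc68969870a22f37b44ba16388080afd4caa4e6b0 (k8 c2187 c2202 c577 i1826 c373 c417 c563 c582 (k8 c375 i443 i2797 i2670 i1079 c2204 c2213 c405 (k4 i1342 c1928 c2214 c1282 (k2 c843 c489 k0)))) (by decide +kernel)
def c2216 : PP 8 4 T 0x1000000000000000000004200010000000000000000500082001000044054040000 := rS 0x8114a9c7e83 (k4 i1296 c1161 c1164 c874 (k2 i1276 i2031 k0)) (by decide +kernel)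
def c2217 : PP 8 4 T 0x1000002000000000000000000010001000005050000000102201040000014040020 := rS 0x4b8e61b1845a02265c270b43ed2049bdfab72997c56074db456027 (k8 c54 c2187 c479 i1298 i480 c1152 c1139 c528 (k8 i1824 c373 c372 c1004 c1137 c791 c556 c1311 (k8 c2216 c65 i1847 c744 c500 c2 c1714 c526 (k1 c1343 k0)))) (by decide +kernel)
def c2218 : PP 8 4 T 0x1000000000000000000000000000001000000000000000002000040000014810001 := rS 0x25a303937c4d162916a00b50d281ec4ef00204c06713ca84a6731e81c884320a6da2b0 (k8 c2187 c479 i1298 c815 c2215 c399 i480 c1487 (k8 c2202 c528 c1507 i972 i709 i999 c1452 c410 (k8 c1167 c54 i713 c2217 c377 i1316 i1315 c604 (k8 i1805 i1883 c46 i968 c1714 c500 c1567 c526 k0)))) (by decide +kernel)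
def c2219 : PP 8 4 T 0x1000000000000000000000200010000000000000000400542001000040054050000 := rS 0x4cf0 (k2 c1167 c1311 (k1 c54 k0)) (by decide +kernel)
def c2220 : PP 8 4 T 0x1000000000000000000000200010001000000040000000142200100000014010000 := rS 0x2267b1422c25194b1e43e5d049c5fa534caa4be2b1e81da26f (k8 c372 c479 i480 c1487 c1152 c1139 c577 i1826 (k8 c528 c373 c495 i223 i1848 c791 c586 c843 (k4 c526 c2219 i1881 i226 (k2 c570 c560 (k1 c500 k0))))) (by decide +kernel)
def c2221 : PP 8 4 T 0x1000000000000000000000200010000080000044000400082001100040014010000 := rS 0x5d0fa044f0c781c62a13302596e53 (k8 c528 i1824 i1885 i1886 i1881 c571 c469 c1167 (k4 c379 c54 c2 c452 (k2 i1847 c2216 k0))) (by decide +kernel)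
def c2222 : PP 8 4 T 0x1000000000000000000004001010081040400000000100082001140040014000000 := rS 0x99e01f148ecc512461862b197ea9c7eb0689ecf281 (k8 i1276 c586 c570 c479 c2187 c1161 c1164 c373 (k8 c526 c571 i1284 c401 c500 c573 c1148 c560 (k4 i2868 c520 i2031 c54 k0))) (by decide +kernel)
def c2223 : PP 8 4 T 0x1000000000000000000000000010001040000040000500182001140040014000000 := rS 0x3818d2efd5b94d32a941ac1a26f (k8 c372 c479 c2187 i1296 c577 i1826 c528 i1824 (k4 c373 c2222 i1354 c843 (k1 c474 k0))) (by decide +kernel)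
def c2224 : PP 8 4 T 0x1000000000000000000000000000001010000040000000102210140100014010000 := rS 0x4512c711d98e1af04004cb88b271bd4e3f50a65525f158f45e077ea6da2b0 (k8 c2187 c479 i1298 c373 i480 c957 c1487 c1152 (k8 c1139 c577 i1826 c1507 c1161 c1164 c372 c2220 (k8 c2221 c2223 i1844 i1847 c1167 c2 i2870 c443 (k4 c474 i2034 c379 c571 k0)))) (by decide +kernel)
def c2225 : PP 8 4 T 0x1000000000000000000000000000001000000000000000002000040000014010001 := rS 0x25c77183da2e267940168a0891c8b404180ba6da2a71fa6552731e8bc0e4421905fab0 (k8 c2187 c373 c815 c2215 c399 i480 c957 c1487 (k8 c2202 c577 i1826 c1161 c1164 c479 i1298 c2218 (k8 c461 c446 c519 i2095 i2093 c2224 i1316 i1315 (k8 c422 c46 i3092 c570 c500 c380 c526 i2034 k0)))) (by decide +kernel)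
def c2226 : PP 8 4 T 0x1000000000000000000000200000002000000040000400002000000000004000000 := rS 0x2e205a30c3018cdf154d9c51a963dbf55283 (k8 i1296 c577 c373 i149 c1282 i1032 i916 i85 (k8 c571 i1324 i1355 c573 c379 i1164 c2 c840 (k1 i1847 k0))) (by decide +kernel)
def c2227 : PP 8 4 T 0x1000000000000000000000000000000000000000000000002000040000004010001 := rS 0x704945a61c4897c884339bf56041 (k8 c815 c2187 c373 c2202 c2215 c399 c1139 c2226 (k4 c2225 c405 i2824 i1262 (k2 i479 c1137 k0))) (by decide +kernel)
def c2228 : PP 8 4 T 0x1001000000000040000000000000000010000080000000002000000100004000208 := rS 0x548b82d15 (k4 c36 c968 c548 i2754 (k1 i199 k0)) (by decide +kernel)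
def c2229 : PP 8 4 T 0x1000000000000000000000000000000000000000000000002000040000004000001 := rS 0x2290c4e5c4b8bd5273379c512d31694532632f808780868a34520508105fab0 (k8 c2187 c373 c815 c2227 i524 i3068 i1759 c2149 (k8 i1762 i1761 c410 c477 i1355 i1825 i1310 i1264 (k8 c476 i1347 c474 c372 c2228 c577 i199 c2214 (k4 c843 i3043 i444 i484 (k1 c399 k0))))) (by decide +kernel)
def c2230 : PP 8 4 T 0x1000000000000000000000000000000000000080000100002000040000004000000 := rS 0x8114a9c7e2b4197d6e532709c223d692845aa87e8583e6131a362b0d0eac08000 (k8 c2229 c536 c2187 i2494 c534 c36 i964 i1355 (k8 i2631 c1225 c421 c373 c573 c466 i822 c600 (k8 c476 i1761 i746 c583 i2575 i1824 i2611 i1296 (k4 i899 c1161 c1164 i187 (k2 i1276 i2031 k0))))) (by decide +kernel)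
def c2231 : PP 8 4 T 0x201000001000000000000000000000001000000080000000002000040000004000000 := rS 0xca6b5699cfc3336b24d2bf2b8951eb511a14faa71f8d4a6b960a8d76cb401393a9f4b8e630d145b1424c7668a05627088f5a4a116aa1fa160f984c68d8ac343ab0899708000 (k8 c2229 c536 c2230 c65 c2187 i2494 c534 c36 (k8 i964 i1355 i2631 c1225 c421 c373 c573 c466 (k8 i822 c600 c476 i1761 i746 i899 c512 c1489 (k8 i2060 c1167 i3072 i1886 c479 c401 c559 c526 (k8 c39 c393 c583 i1847 i2886 i3077 c69 c539 (k8 c458 i2575 c601 c1161 c1164 c433 c6 c454 (k8 c463 c416 c545 c64 i1338 i1849 c459 i515 (k4 c1793 c1825 i450 i1556 (k2 i1967 i1089 (k1 c1797 k0)))))))))) (by decide +kernel)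
def c2232 : PP 8 4 T 0x1000001000000000000000000000001000000080000000002000040000004000000 := rS 0x19e2e692a8cd92cf36afcfe6543a3a22cd63b145012538fcf22b2180ca2b9273054627088f5a4a116aa1fa160f98e2b0d0e90226805d9713e971cc61a28d4598400b0 (k8 c2187 c2229 i2631 i1886 i964 c479 c401 c559 (k8 c526 c39 c2230 i3077 i1847 c65 c536 i2494 (k8 c534 c36 i1355 c1225 c421 c373 c573 c466 (k8 i822 c600 c476 i1761 i746 c69 c539 c583 (k8 c458 c385 i1 c563 i899 c82 c1161 c1164 (k8 c1167 c512 i3072 i2060 c1489 c2231 c1820 i931 (k8 i2634 i2516 i1339 i516 c1791 c2053 c1793 i766 (k4 i1850 c504 i450 c2052 k0)))))))) (by decide +kernel)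
def c2233 : PP 8 4 T 0x1000000000000010100001010000000000010081100000002000044001404000000 := rS 0x65358d49cd2508b550fd0b07cc71586874809d4fc611a8b30ac0ce00 (k8 c2229 i450 c2187 i2631 i1886 i964 c401 c39 (k8 c393 c536 i2494 c534 c36 i1355 c1225 c421 (k8 c373 c573 c466 i822 c600 c583 c601 i1967 (k2 i1089 c1797 k0)))) (by decide +kernel)
def c2234 : PP 8 4 T 0x201000000000000000000000000000001000000080000000002000040000004000000 := rS 0x420d3fa960aac199b592695f95c4a8f5a88d0a7d538fc860329ae47ac151b49422d543f42c1f31c561a1d20201765c4b8e630d146a2cc2005831d8af0 (k8 c2232 c547 c20 c2187 c2229 i2631 i1886 i964 (k8 c479 c401 c559 c526 c2230 i3077 i1847 c536 (k8 i2494 c534 c36 i1355 c1225 c421 c373 c573 (k8 c466 i822 c600 c69 c539 c476 c458 i2575 (k8 i1 c563 c1161 c1164 c433 c6 c454 c463 (k8 c416 c545 c64 i1338 i1849 c459 i515 c1793 (k4 c2233 c488 c2047 i1556 (k2 i1493 c2080 (k1 i2030 k0))))))))) (by decide +kernel)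
def c2235 : PP 8 4 T 0x1000000000000000000000000000001400000080000000002000040000004000000 := rS 0xad369f41857119a44086148cc271612ad592453a90c065f6089c223d692845aa87e8583e638ac343a40899713a9f1cc61a28d4598400b063b15e111 (k8 c2234 c2232 c547 c20 c2187 c2229 i2631 i1886 (k8 i964 c479 c401 c559 c39 c393 c2230 c65 (k8 c536 i2494 c534 c36 i1355 c1225 c421 c373 (k8 c573 c466 i822 c600 c476 i1761 i746 c539 (k8 i2611 i1 c563 c574 c569 c459 i884 i860 (k8 c1171 c1820 c389 i186 c1467 c1465 i1564 i1703 (k4 i1498 i744 i1501 i515 (k2 i1493 c2233 k0)))))))) (by decide +kernel)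
def c2236 : PP 8 4 T 0x1000000000000000000000000000001000000080000000002000040000004000000 := rS 0x19ace359a6085533b24466d3f99442878ba3a22d13c90c068b28939a4a116aa1fa160f984c68d584561a1d20002265c (k8 c2230 c65 c2229 c536 i2494 c534 c36 c2187 (k8 i964 i1355 i2631 c1225 c421 c373 c573 c466 (k8 i822 c600 c583 c385 i1886 i1 c563 c82 (k8 c479 c2234 c2235 c504 i931 i2497 i2634 i2516 (k8 i516 c1445 c2053 c1828 i766 c532 i1850 c537 (k2 c2052 i1970 (k1 c1791 k0))))))) (by decide +kernel)
def c2237 : PP 8 4 T 0x1000000000000000000000000000000000000080000000002000040000004000000 := rS 0x11968a40b88b30ac11a00 (k8 c2229 i964 c2187 i2631 i1886 c2230 c2236 c533 (k2 c50 c401 k0)) (by decide +kernel)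
def c2238 : PP 8 4 T 0x1000000000000000000000000000000080000000000000002000040000004000000 := rS 0xb010604b0416000 (k8 c2229 c2187 i451 i1885 i1886 i1762 i960 i2830 k0) (by decide +kernel)
def c2239 : PP 8 4 T 0x1000000000000000000000000000000000000000000100002000040000004000000 := rS 0x7889c781116c52265a0ec35005014bf54e3f379145e3b159c532b729a8536971cc61168d68a44e65f2005800b0 (k8 c2187 c2229 c421 c536 i2611 c2237 c2226 c479 (k8 i964 c2238 c401 c559 c526 i1298 i821 i2575 (k8 i1824 i1825 i2491 i899 c527 c575 c569 c382 (k8 c1161 c1164 c373 i187 c843 c1959 c377 i1230 (k8 i1316 c46 c379 c1105 i3035 c745 i746 c11 (k1 c512 k0)))))) (by decide +kernel)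
def c2240 : PP 8 4 T 0x1000000000000000000000000000000000000000000000002000040000004000000 := rS 0x1e8b512d20ec503e0786939005c1ca5e308b4db4522a139add06992997cf671469e4803b179142c6f000fd4eb0 (k8 c2187 c1164 c1161 c2229 c382 c421 c569 c575 (k8 c527 c536 c82 i964 i2491 i2493 i2611 i2575 (k8 i1825 i1296 i1824 c2237 i821 c2226 c479 i1298 (k8 c2238 c401 c526 c559 c2239 i2045 i1848 c2 (k8 i2818 i1270 c379 i742 c600 c518 c1105 c476 (k1 i2034 k0)))))) (by decide +kernel)
def c2241 : PP 8 4 T 0x1000000000000000000000000000000000000000000000002000800000004000000 := rS 0x36 (k2 c2240 i19 k0) (by decide +kernel)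
def c2242 : PP 8 4 T 0x1000000000000000000000000000000000000000000000002000000000006000000 := rS 0x36 (k2 c2240 c442 k0) (by decide +kernel)
def c2243 : PP 8 4 T 0x1000000000000000000000000000000000008000000000002000000000004000000 := rS 0x36 (k2 c2240 c24 k0) (by decide +kernel)
def c2244 : PP 8 4 T 0x1000000000000000000000000000000000000000000000002000200000004000000 := rS 0x36 (k2 c2240 i71 k0) (by decide +kernel)
def c2245 : PP 8 4 T 0x1000002000000000000000000000000000000000000000002000000000004000000 := rS 0x36 (k2 c2240 c594 k0) (by decide +kernel)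
def c2246 : PP 8 4 T 0x1000000000000020000000000000000000000000000000002000000000004000000 := rS 0x36 (k2 c2240 c508 k0) (by decide +kernel)
def c2247 : PP 8 4 T 0x1000000000000000000000000000000000000000000000002000000000004400000 := rS 0x19 (k2 c2242 c461 k0) (by decide +kernel)
def c2248 : PP 8 4 T 0x1000000000000000000000200000000000000080000000002000000000004000001 := rS 0x4498da6021e0200a2d0828426417ea2de236 (k8 c2240 c2245 i3048 c373 c815 i1800 c1507 c1167 (k8 i977 i523 i1762 i1761 c410 c476 i2867 i191 (k1 c2228 k0))) (by decide +kernel)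
def c2249 : PP 8 4 T 0x1000000000000000000000200000001000000080000000002000000000004010000 := rS 0x1ea840e4e0faa0a26340a5e241213c561a8315bf54e3f308745e293cadca640000d9e216 (k8 c2247 c2245 c2240 c2248 c536 i2575 i1824 c82 (k8 i1837 c575 i718 i2631 c1161 c1164 c373 i898 (k8 i923 c534 c36 i746 c1167 c512 i3053 c46 (k8 i1354 i1315 c573 c1225 c427 i456 c1151 c1487 (k1 i2031 k0))))) (by decide +kernel)
def c2250 : PP 8 4 T 0x1000000000000000000000200000001000000080000000002000000000004000000 := rS 0x1f6998d423c04040a61d309005e03004561a16 (k8 c2247 c534 c36 c2248 i1 c575 c536 i2631 (k8 i718 i2575 c2249 i1762 i1761 i197 i1349 c476 (k2 c1225 c600 k0))) (by decide +kernel)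
def c2251 : PP 8 4 T 0x1000000000000000000000000000001080000000000000002000000000004020000 := rS 0xba4489010f636 (k4 c2240 c2243 i1774 c744 (k2 c1274 c65 (k1 i483 k0))) (by decide +kernel)
def c2252 : PP 8 4 T 0x4011000000000000000000010000050010010000000042000002000001100114000008 := rS 0x24c6616 (k4 c2247 i193 i1282 c1455 k0) (by decide +kernel)
def c2253 : PP 8 4 T 0x4001000000000000000000000000000000000000000000000002000011000004002001 := rS 0x66e5 (k2 c4 i1610 (k1 c510 k0)) (by decide +kernel)
def c2254 : PP 8 4 T 0x201000000000000000000000000000001000000080002000002000000000014000001 := rS 0xe4100ccce6a829b41a95348c69ece8bae46a5766a3cb30d2da7cea9d439090a5d461e4045f51b49120545840271516a84822f3d859e236 (k8 c2240 c2245 c2247 c2243 i1080 c815 c1507 i977 (k8 c36 i1800 c1167 c2251 i523 i1278 c548 c69 (k8 c489 c410 i2672 i1004 i1845 c2024 i999 c1660 (k8 i3039 i2671 i2680 i1758 c534 c397 c416 c555 (k8 c64 i1116 i1141 c1564 c1146 c501 i2678 i3040 (k8 i2697 c2253 i475 c2142 c550 i547 i193 c2252 (k2 c510 c470 k0)))))))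 (by decide +kernel)
def c2255 : PP 8 4 T 0x101000000000000000000000000000001400000080000000802000000400004000001 := rS 0x46e552084cac36615526cf19b2e2cb91a9653ea93a8950e424297518790117d6ac151b49126002a2c20138a8b542411b1ec2cf1 (k8 c2245 c2247 c2243 c2240 c815 c1507 i977 c36 (k8 i1800 c1167 c2251 i523 c593 i1278 c548 c69 (k8 c539 c562 c489 c410 i2672 i1004 i1845 c2024 (k8 i999 c1660 c590 i2671 i2754 i2680 c507 i1116 (k8 i1141 c1171 i621 c389 c420 c436 c2188 c1564 (k4 i1956 c1644 i730 c1837 (k2 c484 i249 (k1 c392 k0)))))))) (by decide +kernel)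
def c2256 : PP 8 4 T 0x4001000000000000000000000000000000000000002000000002000001000004000001 := rS 0xd418c50804c6cf1 (k8 c2245 c2240 i1800 c1167 c1153 i475 i1121 c2253 k0) (by decide +kernel)
def c2257 : PP 8 4 T 0x1001000000000000000000000000001000000080000000002000000000014000001 := rS 0xa2abd6c993f2e042bb661b4d3042396526ad2b8cd86952a8c62e8e88a8da4895998d6a60294561ab116a84b6412293d0e852ea30f25f289085e0202a2c20130b0d9e219 (k8 c2242 c2245 c2240 c2247 i1800 c1167 c2251 i523 (k8 c410 i1080 i999 c1051 c489 i2672 i1004 i1845 (k8 c2024 c1660 i2454 i220 c815 i1758 c1507 i977 (k8 c2250 c534 c36 c427 c593 c562 c596 i661 (k8 i1278 c548 c69 c2254 c2255 c504 i2676 i2457 (k8 i1103 i1957 c1806 c1807 c2197 i1281 c1971 c1373 (k8 c83 i1764 c2256 c2142 i1949 i730 c1455 i1142 (k4 i1144 i848 i1924 c62 (k1 c371 k0))))))))) (by decide +kernel)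
def c2258 : PP 8 4 T 0x5001002000000000080000019000000001440000000000000142000000500004000008 := rS 0x24d4b0572254d4315eb399b104fb250e5d461e4be4257a2412c151d146a33339d556ad299ec2c36 (k8 c2240 c2247 c2243 c418 c34 c37 i2671 c1180 (k8 i193 i1116 c62 c69 c539 c56 i190 c503 (k8 i999 c489 i2672 i1004 i1845 c1660 i2776 i2680 (k8 c1171 c555 c1183 i1988 i2678 c1536 c2105 c510 (k4 c537 c484 c1012 i2033 k0))))) (by decide +kernel)
def c2259 : PP 8 4 T 0x400000000000000001000000000000000001059000044004010000000000000002000015500804000000 := rS 0x945ea94ff45 (k4 c62 i1663 i249 i1989 (k2 i2033 c1710 k0)) (by decide +kernel)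
def c2260 : PP 8 4 T 0x1000000000000000000008000000001400000080000000002000000000014000001 := rS 0x20a57118c4ca215d9569f1161b3126cf8b0ccceb95a8d4b315868b542414f9d44a4f43a14ba8c3c97ca24229ab5568903b0546d204bf05e0202a2c20133d8d82cf1 (k8 c2245 c2247 c2240 c2243 i1800 c1167 c2251 i523 (k8 c410 i1080 c2257 c56 c1426 c69 c539 c378 (k8 i190 c37 c34 c418 i999 c1051 c489 i2672 (k8 i1004 i1845 c2024 c1660 i2454 c590 i2671 i2680 (k8 c815 c1507 i977 c534 c36 c507 i1116 i884 (k8 i1141 c1180 i193 c2258 c420 c436 c1564 i1956 (k8 c1183 c491 i2459 i1949 i730 c1644 i1002 c2259 (k2 i442 c2033 (k1 c1969 k0))))))))) (by decide +kernel)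
def c2261 : PP 8 4 T 0x1000000000000000000008000000001000000080000000002000000000014000001 := rS 0x14e661a4d6b462a51c8bd498d4ce7f82884b057199b4aa318bc451d45868b5425b20a7c8ac94397518792f94484af56a25a4097e0bc04054584026161dbc46c19 (k8 c2242 c2240 c2245 c2241 c2247 i1800 c1167 c2251 (k8 i523 c410 i1080 c2257 c56 c1426 i190 c34 (k8 c503 i999 c1051 c489 i2672 i1004 i1845 c1660 (k8 i2776 i220 i2680 c815 i1758 c1507 i977 c534 (k8 c62 c2260 c416 c504 i2676 i2457 c2256 c1806 (k8 c1807 c1976 c465 c538 c576 c456 i1117 c1012 (k8 i1989 c510 c1971 c41 i1103 c2105 i1763 i886 (k2 c550 c491 k0)))))))) (by decide +kernel)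
def c2262 : PP 8 4 T 0x1000000000000000000000000000001000000080000000002000000000014000001 := rS 0xb75981da40929bf0a22f86a6cbe5b20908ba8c3c8080a974584026b10b345e236 (k8 c2240 c2245 c2246 c2247 c2250 i1800 c1167 c2251 (k8 c869 i523 c410 i2672 i1004 i1845 i999 c815 (k8 i1758 c489 i2667 c534 i1080 c1051 c2257 c418 (k4 c56 c1426 c378 i473 (k2 c2261 c2151 k0))))) (by decide +kernel)
def c2263 : PP 8 4 T 0x1000000000000000000000000000001000000080000000002000000000004000001 := rS 0xa21c27974847922a3004054596c201320c34beb10b0646cf1 (k8 c2245 c2240 c2242 c2247 c2250 c489 c534 c815 (k8 i1800 c1167 i1758 c2251 i523 c410 i1004 i220 (k4 i2672 i999 i1845 i2454 (k2 c2262 i1230 (k1 c2174 k0))))) (by decide +kernel)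
def c2264 : PP 8 4 T 0x5001000000000000000000011014000001400000000000000142005000004014080002 := rS 0x16ea153af05a9449d0cfd0432b38aecd3ec40be8b2ca1d0312158a4f29f4607d92673a94c80161b1ede239 (k8 c2244 c2245 c2243 c2240 c2247 c536 i2575 c574 (k8 c1180 c459 i183 i1799 i2639 c82 i1837 i898 (k8 c512 c46 c2025 i2595 i452 c489 c1171 c433 (k8 c555 c64 c1183 i2636 c532 c664 c16 c1162 (k4 c472 i2654 i1105 i1917 (k2 i822 i1988 (k1 c1434 k0))))))) (by decide +kernel)
def c2265 : PP 8 4 T 0x111000000000000000500011015010004000000000041001002000000001154000102 := rS 0x41046573f1f686943181da4653a9648016 (k8 c2247 c536 i2595 c574 c1644 c600 c378 i447 (k8 i2040 c66 i1597 c602 c695 i1664 c83 c2033 k0)) (by decide +kernel)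
def c2266 : PP 8 4 T 0x1000000000000000000000000000001400000080000000102000000000004010000 := rS 0x18a51c863118b112a065994aa21889ad989367c58ce255cad59315229d516610e8bcb2871ea162427158a4f29f0fab5563f04bf09ea9462c4a6400043424163dbc46c39 (k8 c2244 c2240 c2245 c2243 c2247 c1167 c534 c2263 (k8 c536 i2575 c2250 i1799 i1090 i758 c427 c56 (k8 i216 c37 c34 i183 i2639 c82 i1837 i898 (k8 i746 c512 c376 i1801 c2025 i2595 c575 i718 (k8 i2631 i452 c574 c569 c36 c459 i884 i1141 (k8 i860 c1180 c2264 c420 c436 c1564 i1964 c1183 (k8 i2499 i770 c1644 c197 c2265 c26 i822 c2123 (k4 i448 c392 i2040 c450 (k1 i978 k0))))))))) (by decide +kernel)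
def c2267 : PP 8 4 T 0x1000000000000001000000000010001000000080000000102000000000004010000 := rS 0x1a18cc862c15c8c312a556a5943a155aab3388cca4301c5c4311472d87a818909c7e097e13d528c5894c248315a9c52793181da41f204343a2f000586cf1 (k8 c2245 c2240 c2247 c2263 c575 i718 c534 c536 (k8 i183 c600 c378 i447 c82 i1837 c716 i898 (k8 i923 c1167 i2575 c2250 i1799 i1090 i758 c427 (k8 c56 i216 i746 c512 c46 i1801 i2031 c2266 (k8 c416 i2497 c504 i1 c563 i2634 c1445 c1828 (k8 c37 c34 c376 c2025 i2595 i886 i1103 c1385 (k8 c865 c392 c2033 c41 c532 i2032 i1129 c1149 k0))))))) (by decide +kernel)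
def c2268 : PP 8 4 T 0x1000000000000000000000000010001000000080000000102000000000004010000 := rS 0x19cbd61250fee5638908f04649a58b4f6618c0eb66929d061d179647a818909c56293c87d5aab1f825f84f54a31625386848ce233290c071710c451c40000d9e216 (k8 c2247 c2245 c2240 c2263 c536 c2266 c416 i2497 (k8 c504 i1 c563 i2634 c1445 c1828 c1167 c534 (k8 i2575 c2250 i1799 i1090 i758 c427 c56 i216 (k8 c37 c34 i183 c82 i1837 i898 i746 c512 (k8 c46 i1801 i2595 c575 i718 i923 c716 c600 (k8 i2031 c378 i447 c2267 c491 i1791 i1831 i1129 (k8 c532 c425 c2033 i218 c475 i2582 c1385 c515 (k2 i1989 i1956 (k1 i1105 k0))))))))) (by decide +kernel)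
def c2269 : PP 8 4 T 0x4001000000000000000080000000000000000000000050000002000000000004080000 := rS 0x20ac9231a51836 (k4 c2240 i1799 c1149 i218 (k2 i1129 c425 (k1 c532 k0))) (by decide +kernel)
def c2270 : PP 8 4 T 0x1000000000000000000000000000001000000080000000102000000000004010000 := rS 0x5116ca75f9fa86b865b25765534d3d98c762b9186254a98d6a2c69a2540673588cca218bc451c3f04bf21a9b2180c3a2f299650e3d42c484e40158a4f20027aa5181258bc42c36 (k8 c2240 c2247 c2245 c2250 c1167 i1799 i1090 i758 (k8 c2263 c82 i1837 i898 c536 i746 c512 c376 (k8 i1801 c2025 i2595 i2575 c575 i718 i1 c563 (k8 i2667 c534 c427 c56 i216 c2266 c416 c504 (k8 i2497 i2634 c1445 i1965 c1828 c2268 c26 c30 (k8 i822 i2598 i448 i2653 c1385 c865 c392 c41 (k8 c2269 c1835 c491 i1831 i770 i1949 i1129 c197 (k8 c1383 c543 i1142 i1457 c1134 i848 c449 c62 k0)))))))) (by decide +kernel)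
def c2271 : PP 8 4 T 0x1000000000000000000000000000000000400000008000002001000040014010002 := rS 0xf8fda6880310c06818909c80293c8e5e236 (k8 c2240 c2245 c2244 c82 i1837 c536 i746 c512 (k8 c46 i1 c563 i447 i448 c378 i1420 i1302 (k1 c1937 k0))) (by decide +kernel)
def c2272 : PP 8 4 T 0x4201000000000000000000000000010000000000080084000002000000000004000002 := rS 0x14a7f4a8c8e21f30c54fa2312ae5821d17c3442c9479008603 (k8 i1 c563 c536 c416 c459 c2146 c534 c575 (k8 i718 c311 i1141 c545 c454 c433 c36 i2631 (k4 c1225 i78 i450 i1674 (k2 c1840 i289 (k1 c2071 k0))))) (by decide +kernel)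
def c2273 : PP 8 4 T 0x4201000000000000000000000000010001000000080000000002000000000004010000 := rS 0x923f29596955d9969ece4e99d7b4560ad94e71869d50e8142c484e293ca7c3ead558fc12fc318f43a2f15a0e2a6154a3162123e88d9a255c885928f2010c06003dbc46c16 (k8 c2247 c2240 c2245 c2243 c2263 i1 c563 c536 (k8 c416 c459 c2146 i1141 c545 c555 c454 c433 (k8 c1167 c2250 i1799 i1090 i2631 c36 i923 i898 (k8 c575 i718 i1801 c2271 c573 c56 i216 c37 (k8 c34 c1225 i2639 c82 i1837 i746 c512 c376 (k8 c46 c2025 c574 c534 i78 c716 i2031 c311 (k8 c62 i1988 c2272 i1820 c1146 c501 i2636 i1951 (k4 i1105 c173 c996 c2071 (k2 i2040 c1162 k0))))))))) (by decide +kernel)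
def c2274 : PP 8 4 T 0x1000000000000001000000000000000000000000080000002000000041504010002 := rS 0x1886963b0c640c188150e1242c484e40149e46cf1 (k8 c2245 c2240 c82 i1837 c536 i746 c512 c376 (k8 c1167 c2025 i64 i1506 i449 i450 i1957 i1688 (k2 i2966 i2032 (k1 i1803 k0)))) (by decide +kernel)
def c2275 : PP 8 4 T 0x4201000000000000000000000000000001000000080000000002000000000004010000 := rS 0x18b0924c765a558a6567274ce2c44a8042b9648959a8f119d4860343a162427200a4f29f56aadf8631e8745e2b41c54c20054a3024b11b1ec2cf1 (k8 c2245 c2247 c2243 c2240 c2250 c1167 i1799 i1090 (k8 c2263 i2631 c36 i923 i898 c575 i718 i1801 (k8 c2271 c573 c37 c34 i2639 c82 i1837 c536 (k8 i746 c512 c376 c2025 i1 c563 c574 c454 (k8 c416 c555 c545 c459 i1141 c2146 c2273 c26 (k8 i822 c2274 i1820 c1146 i2636 i3056 i2654 c173 (k4 c2269 i2040 i2032 i1510 (k1 i1957 k0)))))))) (by decide +kernel)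
def c2276 : PP 8 4 T 0x101000000000000001040000000000000004000000000000002000000055504000000 := rS 0xc47221624f1 (k4 c2245 c512 c376 c392 (k2 c1835 c41 k0)) (by decide +kernel)
def c2277 : PP 8 4 T 0x4001002000000000000000000000000000800000080004000202000000002004000002 := rS 0x2d17294180745e5910900ca16 (k8 c2247 i2634 c536 i2497 i2595 c575 i718 i861 (k4 c1385 i2661 i1103 c1368 k0)) (by decide +kernel)
def c2278 : PP 8 4 T 0x111200000000000000000000014010000000000000000000002000000001554000100 := rS 0xcd2 (k2 c600 c2033 (k1 c378 k0)) (by decide +kernel)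
def c2279 : PP 8 4 T 0x4001000000000000000000000000000001000000080000000002000000000004010000 := rS 0x288b653afcfd435c34d12a05da556acb82324d34f6630c4ac73388cca21474461a9b3a90c0659438a4f2272807c80ad558fc12fc318f43a2f15a0e2a61002a518b1093c46c16 (k8 c2247 c2240 c2245 c1167 c2250 i1799 i1090 c2263 (k8 i2631 c36 i923 i898 c575 i718 i1801 c2271 (k8 c573 c56 i216 c37 c34 c536 c1225 c2270 (k8 i746 c82 i1837 c2025 i2595 i1 c563 c574 (k8 i2667 c534 c2275 c1171 i2497 i2634 c1445 c1828 (k8 c2269 c2277 c865 c2276 c491 i1831 i1129 c532 (k8 c434 i1397 i1103 i1949 c2278 c26 c30 c1383 (k4 c543 i1142 i1457 c1134 (k2 i848 c449 (k1 c62 k0)))))))))) (by decide +kernel)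
def c2280 : PP 8 4 T 0x101000000000000000800001000000000000000000000011002000000000004000000 := rS 0xaf05 (k2 c434 i506 (k1 c83 k0)) (by decide +kernel)
def c2281 : PP 8 4 T 0x1000000000000000000000000000001000000080000000002000000000004010000 := rS 0x39060231628128cb2a88622255a9ad98c95ca3cce9367c5812ab5687df8634faa50a8c1ec4824278ac3506b1229d4c21d179650e293c900002b0b1ec6cf1 (k8 c2245 c2240 c2243 c2247 i898 c2263 c536 c82 (k8 i1837 c2025 i2595 c575 i718 i2631 c574 c569 (k8 c2250 i923 c534 c36 i746 c1167 c512 i1801 (k8 i1799 c376 i1090 i2639 c2271 c573 c1225 c34 (k8 c37 c56 c2279 c420 c436 c486 c504 c487 (k8 c432 c1564 i1964 i884 i860 c555 i2499 i770 (k8 c2280 c1188 c2265 i822 c2123 i978 c392 c450 k0))))))) (by decide +kernel)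
def c2282 : PP 8 4 T 0x4201000000000000000000000000010000000000080080000002000000000004000002 := rS 0x34c1206310b62b0d019143a2f (k8 c575 i718 c569 i1 c534 c36 i977 c2272 (k4 i447 i1349 c378 c1364 k0)) (by decide +kernel)
def c2283 : PP 8 4 T 0x4201000000000000000000000000000001000000080080000002000000000004000000 := rS 0x2b9f89959aa4c62c1f93d12a053a8d8c9572b0c640c18c553605179852eb15cd3d8ace66a7d0e29200ad0a75479e53b1846840068b1a801a216788d8727b (k8 c2243 c2244 c2240 c2245 c2247 c2246 c2263 c601 (k8 i452 i1 c2281 i1760 c401 c393 c82 c416 (k8 c574 c6 i898 c536 i1837 c2025 c39 c555 (k8 c1146 i1794 c501 i1141 c2250 c869 i2631 c575 (k8 i64 i2667 c36 i1506 i449 i450 i1957 c4 (k8 i2999 c515 c223 i336 c2282 c26 c1151 i402 (k8 i822 i448 c583 i474 i981 c573 i2041 c503 k0))))))) (by decide +kernel)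
def c2284 : PP 8 4 T 0x4001001000000000000100011000010000000010080054000002000001001404000002 := rS 0xa4191fc9cd25407e2a353095608c1109008603518745f0d (k8 c534 c575 i718 c308 i1 c563 c536 c2146 (k8 c311 c532 c49 i2631 c601 c36 c1225 c573 (k4 c600 c583 i759 c1795 (k2 i2030 i289 k0)))) (by decide +kernel)
def c2285 : PP 8 4 T 0x1000000000000000000000000010000000000080008000002000000000004000002 := rS 0x1a609034561a03228745e2d (k8 i977 c575 i718 c569 i1 c534 c36 i447 (k2 i1349 c378 (k1 c1364 k0))) (by decide +kernel)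
def c2286 : PP 8 4 T 0x1000000002000000401000014040000000000000000000002400000000004000140 := rS 0x14a0d (k2 c4 c484 (k1 c2041 k0)) (by decide +kernel)
def c2287 : PP 8 4 T 0x4001000000000000000100011000010000000010080050000002000001001404000002 := rS 0x354a327281c12ab693f03e6351b062b0d1a9843a2f1090086036591d5b04 (k8 c532 c488 c425 c173 i1 c563 c536 c2146 (k8 c575 i718 i2631 c601 c534 c36 c311 c308 (k8 c2285 c1225 c2284 c600 c37 c56 c378 c2286 (k4 c510 i289 i1609 c2041 k0)))) (by decide +kernel)
def c2288 : PP 8 4 T 0x1000000000000000000000000020001000000080000000002000000000004000000 := rS 0x130a757bf166a9318b07e4f44c55362b30a5d16b1468400600688587236 (k8 c2240 c2244 c2247 c2246 c2263 i1 c2281 i1760 (k8 c2250 i452 c869 i2631 i898 i2667 c36 c26 (k8 c1151 i402 i822 i448 c583 i474 c573 c503 (k2 i1912 i2041 (k1 i981 k0))))) (by decide +kernel)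
def c2289 : PP 8 4 T 0x4201000000000000000000000000000001000000080000000002000000000004000000 := rS 0xc2358c20865672e5926712b351eb511a14fa75438a4f24015a753f1846840068b00284f6d11cbc42c36 (k8 c2240 c2247 c2245 c2244 c2246 c2243 c2288 c2263 (k8 i452 i1 c2281 i1760 c401 c39 c393 i898 (k8 c536 c82 i1837 c2025 c574 c433 c6 c454 (k8 c463 c416 c555 c545 c2283 c459 i1141 c1146 (k4 i2636 c532 c2287 c537 (k2 i989 i1952 k0)))))) (by decide +kernel)
def c2290 : PP 8 4 T 0x4001000000000000000000000002000001000000080000000002000000001004000000 := rS 0x5155e985e250faad35b3a08c93f939725138a0d628b46b05a50d0e8bcda2b33a943e63509862a6962b90422332a38ea43019000111083442c39 (k8 c2244 c2247 c2246 c2281 c2289 c2263 c536 i1 (k8 c563 c574 c1171 i2634 c1445 i2497 c392 c41 (k8 i1763 c36 i2631 c2288 c2285 c1225 c198 c1828 (k8 i898 c2054 c575 i718 c534 c600 c539 i1760 (k8 i452 c2250 i923 i78 c385 c458 c583 i847 (k8 c2053 c532 c2052 c537 c488 i1273 c2071 i1105 (k4 i1104 i1986 c388 c208 k0))))))) (by decide +kernel)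
def c2291 : PP 8 4 T 0x4001000000000000000000000000000001000000080000000002000000001004000000 := rS 0x2655efc56aa5369745ac51ab303b483e6330c55430d0e8bc202332a3a22752180c8000688587236 (k8 c2240 c2244 c2247 c2246 c2263 c536 i1 c563 (k8 c574 c2289 c1171 i2634 c1445 c2281 c575 i718 (k8 c534 c2288 c36 i2631 c2285 c1225 c600 c378 (k8 i473 i1760 c2250 i452 c869 i2667 c2290 c226 (k4 c573 c503 c2034 i2041 k0))))) (by decide +kernel)
def c2292 : PP 8 4 T 0x4001000000000000000000000000000001000000080000000002000000000004000000 := rS 0x1846b67410d2c9238c0aa24339b4466510a3a222b3aa2c8659202342003003442c39 (k8 c2244 c2247 c2246 c2263 i1 c2281 i1760 c536 (k8 i2595 c563 i452 c574 i898 c2289 c1171 i2497 (k8 i2634 c1445 c2054 c1828 c2291 c2048 i861 i205 (k4 c564 i1764 c532 c2052 (k2 c537 i989 (k1 i1952 k0)))))) (by decide +kernel)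
def c2293 : PP 8 4 T 0x8201000000000000000000000000004001004001100000000002000000000004000000 := rS 0x66a151e7b (k4 c2243 c504 c6 c555 (k1 c1564 k0)) (by decide +kernel)
def c2294 : PP 8 4 T 0x1000000000000000000000000000000000000000000200002100000050004000000 := rS 0x9e26f1 (k4 c2245 c65 i1766 c512 k0) (by decide +kernel)
def c2295 : PP 8 4 T 0x101000000000000002000001002050000000000000000002002000000001554000000 := rS 0x3f9f49c51 (k4 c385 c583 i1542 i2517 (k1 c1446 k0)) (by decide +kernel)
def c2296 : PP 8 4 T 0x1000000000000000000000000000001000000080000000002000000000404000000 := rS 0x2f4fc983eabd5a4f54968a8573519462e436a6d2eb14ea8d66076907cc6618aa861a1d17b3ccec95a896222134b310a5d2297d0e29159d51f163ca7e308d0800d165920001a2161c9ede236 (k8 c2240 c2245 c2243 c2244 c2247 c2246 c2263 c536 (k8 i2595 i452 i1 c2281 i1760 c401 c39 c82 (k8 c2292 c504 c574 i898 i1837 c2025 c489 c569 (k8 c2294 c2024 c1564 i1831 i2499 c2293 i860 i884 (k8 c432 c486 c420 c575 i718 c534 c2288 c36 (k8 i2631 c2285 c1225 c600 c378 i473 c69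 c393 (k8 c2250 c869 i2667 c2054 c392 c450 i962 i2042 (k8 i507 c1974 i769 c2295 i758 c226 i1923 i1541 (k4 i2041 c1446 i1990 i849 k0))))))))) (by decide +kernel)
def c2297 : PP 8 4 T 0x1000000000000000000000000000001000000080000000002000000000004000000 := rS 0x22429751e678b27d3b184684c2029459e4804501800565f688d87216 (k8 c2247 c2244 c2240 c2246 c489 i898 c2263 i1 (k8 c569 c536 c82 i452 i1837 c2281 i6 i1760 (k8 c401 c393 c39 c2292 c486 c504 c2294 c2024 (k2 c2296 c1288 k0)))) (by decide +kernel)
def c2298 : PP 8 4 T 0x1000000000000000000000000000000000000080000000002000000000004000000 := rS 0x34d421d0f8fd063c440a92c90869c47636 (k8 c2240 c2241 i78 c534 c2297 c1282 i993 i1778 (k8 i1777 i1375 i1372 i389 i900 c26 c476 c600 k0)) (by decide +kernel)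
def c2299 : PP 8 4 T 0x1000000000000000000000000000000000000000000000802000000000004000000 := rS 0x73 (k2 c2298 c528 k0) (by decide +kernel)
def c2300 : PP 8 4 T 0x1000000000000000000000002000000000000000000000002000000000004000000 := rS 0x73 (k2 c2298 c577 k0) (by decide +kernel)
def c2301 : PP 8 4 T 0x1000000000000000000000000020000000000000000000002000000000004000000 := rS 0x2c73 (k2 c2298 c2247 (k1 i821 k0)) (by decide +kernel)
def c2302 : PP 8 4 T 0x1000000000000000000000000000000000000000000000002000000800004000000 := rS 0x2c73 (k2 c2298 c2247 (k1 i1079 k0)) (by decide +kernel)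
def c2303 : PP 8 4 T 0x5001000000000000000000000000000001400000000000000002000000000014000001 := rS 0xb1301f3fc31366f4b9c44a8141c48b6411a9f462ce66c413e8721214ba5f3a9e53a8c010151610098bd427b39bc46c16 (k8 c2247 c2240 c2245 c2298 c2243 c2301 c2302 i1800 (k8 c1167 c2251 i523 c410 i1004 i3039 i2672 i2671 (k8 c489 i1845 c2024 i999 c1660 i2680 c1171 c555 (k8 c1146 i2678 c433 i1116 c815 i1758 c492 c579 (k8 c46 c590 c582 i3038 i2670 i2679 c379 c408 (k4 c452 c1815 c2209 i2675 k0)))))) (by decide +kernel)
def c2304 : PP 8 4 T 0x1000000000004011100000000000000000000040000010400000000844000002000001000014000008 := rS 0x5c98562ad49a2536c938908fab53223042e4198d54623881d45a6f50858e636 (k8 c2240 c2298 c2247 c2301 i2670 c1105 i2671 c1171 (k8 c454 c308 i1116 i193 c510 c470 i1004 i1965 (k8 c463 c433 i999 c582 i2776 i2679 i191 c1025 (k4 c831 i1967 c678 i1026 (k1 c1455 k0))))) (by decide +kernel)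
def c2305 : PP 8 4 T 0x4001000000000000000000000000000001400000000000000002000000000014000001 := rS 0x314368aaf4ca56289b37a5ce28141c48ce6a8295cb25b209b46269a7b399b104fa1c84852e97cea794ea30040545840267b39bc46c16 (k8 c2247 c2240 c2245 c2298 c2243 i1800 c1167 c2251 (k8 i523 c410 i1004 i3039 i2672 i2671 c489 i1845 (k8 c2024 i999 c1660 i2680 c1171 c555 c1146 c501 (k8 i3040 i2678 c2256 c815 i1758 c507 c64 c2142 (k8 c550 i547 c492 c579 c46 c582 i3038 i2670 (k8 i2679 c2303 c386 c411 i1924 c1869 c1815 c2304 (k1 c80 k0))))))) (by decide +kernel)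
def c2306 : PP 8 4 T 0x1001000000000000000000000000000001000000000000000002000000000024000001 := rS 0x1302c8626cde9740a0e245d461e4b6412fb4d1271210080a8b0804cf62f39859e236 (k8 c2240 c2245 c2247 c2298 c2302 c2243 i1800 c1167 (k8 c2251 i523 c410 i999 c582 i1342 c405 c489 (k8 c815 i1758 i2672 i1004 i1845 c492 c579 c46 (k4 i3038 i2670 i2679 c379 (k2 c548 c1815 (k1 i2675 k0)))))) (by decide +kernel)
def c2307 : PP 8 4 T 0x4001000000000000000000000000000001400000000000000002000000000004000001 := rS 0xb18693d5a994ac51267f44945a61c10b05c8333219cd505369a4634f6715d9ab53ec406a594da7c8a7537a752e71439090a8141c48ba8c3c8080a8b2d84026412f9ece62f0b3c46c19 (k8 c2242 c2240 c2245 c2247 c2302 c2298 c2243 c489 (k8 c815 i1800 c1167 i1758 c2251 i523 c410 i2672 (k8 i1004 i1845 c492 c579 c46 c2024 i999 c1660 (k8 c582 i3038 i3039 i2670 i2671 i220 i2680 i2679 (k8 c507 i1116 c1171 c433 c463 c555 c64 c1146 (k8 c501 i2678 i3040 c2256 c2142 c550 i547 i1965 (k8 i193 c510 c0 c470 c2305 c405 i1230 i1342 (k8 i719 c878 c2306 c386 c411 c831 c1358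 c1815 (k2 i1967 c2174 k0))))))))) (by decide +kernel)
def c2308 : PP 8 4 T 0x5001000000000000000000000000000001000000000080000042000000000004000001 := rS 0x156b55eae68abb4c2dcfa518626cde9738a0507123fa5596ad8253d986b2d9650a872e9e4be5719954831121114d29d461b4628e0101516100994ce67b788d83216 (k8 c2247 c2242 c2240 c2245 c2243 c2298 c2299 i1800 (k8 c1167 c2251 i523 c410 c2307 i2676 c2256 i1004 (k8 i3039 i1623 i220 i999 c416 c815 i2457 c1806 (k8 c1807 c489 i2672 i1845 c1660 c2024 c456 i1758 (k8 i547 i2039 c491 c83 c488 c434 i1102 i846 (k8 c492 c579 c46 c582 i3038 i2670 i2679 c379 (k8 c377 c57 c541 c1815 i1948 c1991 i1144 i1991 (k2 c1437 c1740 (k1 i2037 k0))))))))) (by decide +kernel)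
def c2309 : PP 8 4 T 0x4001000000000000000000000000000001000000000080000002000000000014000001 := rS 0xd27e07ca2b45c28c5b0d44a4d331452b906a2165b32086935965366f4ea5ce28742a0507122ea30f25b2f9fd2ac33695c665520c44628e2293c840202a2c20135094c2c7b788d83273 (k8 c2298 c2242 c2240 c2245 c2243 c2247 c2299 c2301 (k8 i1800 c1167 c2251 i523 c410 i999 i701 i220 (k8 c2307 i2676 c416 c815 i2457 c1806 c1807 c2256 (k8 i1957 i1102 i846 c489 i1758 i2672 i1004 i1845 (k8 c492 c579 c46 c2024 c1660 c582 i3038 i3039 (k8 i2670 i2679 c456 i547 i1623 c83 i2039 c434 (k8 i730 i1117 c510 c484 c2308 c411 c12 c518 (k8 c1815 c1105 c316 c1455 c1802 i1397 i1395 c427 (k2 c600 c1410 k0))))))))) (by decide +kernel)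
def c2310 : PP 8 4 T 0x1000000000000001000000000000000205000001110545002000000000004000000 := rS 0xd659 (k2 c568 i1965 (k1 i2039 k0)) (by decide +kernel)
def c2311 : PP 8 4 T 0x1001000000000000000000000000000000000000000000000002000000100004000081 := rS 0x225a62f (k4 c2302 c378 i1341 c548 k0) (by decide +kernel)
def c2312 : PP 8 4 T 0x4001000000000000001100000000000000205000001050545002000000000004000000 := rS 0xd104 (k2 c532 c2310 (k1 c63 k0)) (by decide +kernel)
def c2313 : PP 8 4 T 0x1000000000000000001000000040204810000000020000002000004000044000008 := rS 0x10ae46a751290a2295168bce616 (k8 c2247 c2298 c2302 i2675 i1102 c416 i999 c590 (k4 i2671 c2049 i2702 i726 (k1 c2060 k0))) (by decide +kernel)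
def c2314 : PP 8 4 T 0x5001000000000000000000000000000001000000000000000002000000000014000001 := rS 0x5c8d576216619546c16924d126031ab9660716ac530b70f946189b3ab24de97388950e8540a0e245d461e4b65f4ab0cda5719954831118a388a4f210080a8b0804cce2f0b14d527b39bc46c19 (k8 c2242 c2240 c2245 c2298 c2243 c2300 c2299 c2247 (k8 c2302 c2309 i1800 c1167 c2251 i523 c410 i999 (k8 i701 i220 c2307 i2676 c416 c815 i2457 c1806 (k8 c1807 c2256 i1957 i1102 c489 i1758 i2672 i1004 (k8 i1845 c492 c579 c46 c2024 c1660 c590 c582 (k8 i3038 i2670 i2776 i2671 i2679 c379 c377 c452 (k8 c541 c1815 i1826 i2675 c2311 i473 i2038 i539 (k8 i1925 i191 i1282 c548 c539 c69 c2313 c2312 (k4 i730 i1948 i1117 i1144 (k1 c2060 k0)))))))))) (by decide +kernel)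
def c2315 : PP 8 4 T 0x4011000000000000000000000000000004810000000021000002000005100014000000 := rS 0x215c8d52aa33fa842c73 (k8 c2298 c2247 c2301 i846 c316 i1102 c2049 i1026 (k2 i726 c1455 k0)) (by decide +kernel)
def c2316 : PP 8 4 T 0x4001000000000000000000000000000001000000000000000002000000000014000001 := rS 0x1a4fc0f9454ab4722e06a2165b32085932985462d58c368ab657a2526998a19c9e9b649bd2e7143a1502838917518792d97cfe95619b4ae332a906224218a388a0202a2c20135094c2c7b39865e236 (k8 c2240 c2245 c2242 c2298 c2243 c2247 c2299 c2301 (k8 i1800 c1167 c2251 i523 c410 i220 c2307 i2676 (k8 i999 c416 c815 i2457 c1806 c1807 c2256 i1957 (k8 i1102 i846 c489 i1758 i2672 i1004 i1845 c492 (k8 c579 c46 c2024 c1660 c582 i3038 i2670 i2776 (k8 i2679 i701 c2309 c2314 c411 c12 c518 i1924 (k8 i2045 c1869 c1815 i1824 c1105 c316 c678 c2315 (k8 c568 c532 c2312 c434 i730 i1117 c1455 c510 (k4 c1802 c484 i1397 i1395 (k2 c427 c600 (k1 c1410 k0))))))))))) (by decide +kernel)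
def c2317 : PP 8 4 T 0x1000000000000000000000000000001000000000000000002000000000024000001 := rS 0x5b29d33144d9bd2e712120507122ea30f20202a2cb61009904be7b398d9e216 (k8 c2247 c2245 c2240 c2298 c2243 c489 c815 i1800 (k8 c1167 i1758 c2251 i523 c410 i2672 i1004 i1845 (k8 c492 c579 c46 i999 c582 i3038 i2670 i2679 (k4 c2306 c411 i1916 i2045 (k1 i722 k0))))) (by decide +kernel)
def c2318 : PP 8 4 T 0x21000000000000000000000000000001000000000000000002000000000004000001 := rS 0x2517abba2a616e7d3fa6cde9738a0507122d9059eb9a7b310e4242975185f3aa3e2c1d3ca7c040545840267b398d9e216 (k8 c2247 c2245 c2240 c2298 c2243 i1800 c1167 c2251 (k8 i523 c410 i2680 i2672 c2317 c2316 c504 i2671 (k8 c489 i1004 i1845 c2024 i999 c1660 c1564 c491 (k8 c487 c420 c815 i1758 c492 c579 c46 c582 (k8 i3038 i2670 i2679 c408 c57 c541 c1815 c1991 (k4 i1948 i1990 c1185 c1710 k0)))))) (by decide +kernel)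
def c2319 : PP 8 4 T 0x100000000000a001200000000000000100000140000000000000000011000002000000000004020000 := rS 0x2cdfaaa56b2d26675ca54c6a9 (k8 c2300 c80 c386 c487 c486 c436 c434 c488 (k4 c1949 c1594 i2286 c371 k0)) (by decide +kernel)
def c2320 : PP 8 4 T 0x1000000000000000000000000000001000000000000000002000000000004000001 := rS 0xa0aa7eab5966c8298562634ad155e3d8a2661a652a96599115ca3cce9367c589e1d40c490a87389752e9d37b24ea423ca7d368c01015165b0804c825f29aa4f673508586cf1 (k8 c2245 c2240 c2247 c2301 c2298 c2243 c2300 c2299 (k8 c489 c815 i1800 c1167 i1758 c2251 i523 c410 (k8 i1004 i2679 i2680 i2672 i999 i2671 i2776 i2670 (k8 i3039 i3038 i1845 c582 c1660 c2024 c492 c46 (k8 c2317 i701 c2316 c420 c436 c486 c504 c487 (k8 c2293 c1564 c507 i2459 c1644 c2318 c2117 c379 (k8 c2096 i1924 c1869 c386 c80 i1761 c678 c2319 (k4 c1178 i2289 i1702 c1594 (k2 c1188 c427 (k1 i2249 k0)))))))))) (by decide +kernel)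
def c2321 : PP 8 4 T 0x1000000000000000000000000000001000800000000000002000000000014000000 := rS 0x27898ac5279003c46c16 (k8 c2247 c2240 c2245 c2320 c82 i1837 i898 c579 (k2 i735 c512 k0)) (by decide +kernel)
def c2322 : PP 8 4 T 0x1001000000000000001000001000000001401010000080000002000000000514000000 := rS 0x146a555b057a611ea618d4f4da5d8ace8c2751a9534b958610190313e310280cea8b438a4f22b12a04fe1f861bce2400020d42a9179ede2d11b058e639 (k8 c2244 c2298 c2247 c2240 c2246 c2245 c2243 c2302 (k8 c2300 c2301 c2321 c2320 c536 i2491 c382 c379 (k8 c452 c408 c2 i860 i898 c82 i1837 c2025 (k8 i452 c574 i1 i64 i1506 i1714 i449 i450 (k8 c2274 i1957 c4 i2966 i2999 i1760 c335 c401 (k8 c1146 i1615 c526 c394 c501 c515 c1815 i1786 (k4 i2633 i1991 i1694 c225 (k2 i415 i1647 (k1 i2030 k0))))))))) (by decide +kernel)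
def c2323 : PP 8 4 T 0x1000000000000000000000000000080000000000000000002000000000004000002 := rS 0x230271945b446c39 (k8 c2244 c2240 c2246 i452 c526 i3053 c401 i965 k0) (by decide +kernel)
def c2324 : PP 8 4 T 0x5001000000000000000000000000000201500400000040000002000000000004000000 := rS 0x13d56b27e95596ad821959c9f4e8423013459650e2915b24fa855ab34af103a9fca3455ba06186f4b9c48079589840053549ede2d11b058e639 (k8 c2244 c2298 c2247 c2240 c2246 c2245 c2243 c2300 (k8 c2299 c2320 i2633 i1826 c82 c536 i2491 c2323 (k8 c382 c379 c2 c541 c1991 c377 c408 c574 (k8 c1171 c64 c555 c463 c6 c433 c459 i898 (k8 i1837 c2025 i2595 i452 i1799 c401 c1167 c393 (k8 c39 c1146 i2636 c532 c226 c434 c49 c1566 (k4 c1996 i2286 i1429 i2037 k0))))))) (by decide +kernel)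
def c2325 : PP 8 4 T 0x5001000000000000000000000000000201400000000000000002000000000014000000 := rS 0x20a657e338c6af4ea7c228c308f4b287149e45683861bce26766ad446853ec40ea21649008603002a4f62f0b1cde236 (k8 c2240 c2245 c2298 c2247 c2302 c2243 c2300 c2320 (k8 i1 c563 c536 c459 c2146 c574 c1171 c433 (k8 c6 c454 c463 c555 c2322 i2491 c382 c379 (k8 c2321 i898 c82 i1837 c2025 i2595 i1786 i2633 (k8 c2324 i1760 i2639 i1820 i1925 c2271 c1146 c283 (k2 i2636 c1566 (k1 c532 k0))))))) (by decide +kernel)
def c2326 : PP 8 4 T 0x1000000000000000000000000000800000000000000000002000000000004000002 := rS 0x8d8ca2da239 (k4 c2244 c2246 i452 c394 (k2 i2638 c401 k0)) (by decide +kernel)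
def c2327 : PP 8 4 T 0x5001000000000000000000000000000001400000000000000002000000000014000000 := rS 0x2dd0299861bcf2712025d3600419ece616 (k8 c2247 c2298 c2243 c2321 c2320 c2326 c2323 c536 (k8 i2491 c82 c382 c379 c2325 c2 c541 i2045 k0)) (by decide +kernel)
def c2328 : PP 8 4 T 0x401000000000000001000000000000000000140000000000004080000000000002000000000004000000 := rS 0x17f43 (k2 c16 i1723 (k1 c485 k0)) (by decide +kernel)
def c2329 : PP 8 4 T 0x1000000000002001000000000000008000101000000001400010000000000002000000000004000000 := rS 0x2fe86b83faee9e71438a4f24015a6c009939bc42c36 (k8 c2240 c2247 c2245 c2298 c411 c2320 c2326 i898 (k8 c536 c82 i1837 c2025 i2491 c501 i1950 c2328 (k4 c1821 c543 i1457 c485 k0))) (by decide +kernel)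
def c2330 : PP 8 4 T 0x1000000000000000000000000002000000000000000000002000000000004000002 := rS 0xcc0d460c8d11945b446c39 (k8 c2244 c2240 c2246 i452 c393 c335 i1780 c401 (k2 i2966 i1820 (k1 i449 k0))) (by decide +kernel)
def c2331 : PP 8 4 T 0x5001000000000000000000000000000001400000000000000002000000000004000000 := rS 0x637e9849c090e10c0671200015216 (k8 c2247 c2300 c2320 c536 i2491 i1 c563 c2327 (k4 i1262 i741 i961 c19 (k2 i1350 c573 k0))) (by decide +kernel)
def c2332 : PP 8 4 T 0x2001000000000000001000001000000001401510000000000002000000000004000000 := rS 0xcf4faf56d45379d4e287149e4802b4ba6d3a004aa65267b39bc42c36 (k8 c2240 c2247 c2245 c2298 c2243 c12 c411 c386 (k8 c2320 c2330 c2326 c2323 i898 c536 c82 i1837 (k8 c2025 i2491 c574 c382 c1869 i2045 i1988 c1551 (k2 c2329 c1146 k0)))) (by decide +kernel)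
def c2333 : PP 8 4 T 0x1000000000000000000000000000001000200000000000002000000000004000000 := rS 0x444c5a8997c805d149e48a0015bc42c36 (k8 c2240 c2247 c2245 i898 c2320 c569 c82 i1837 (k8 c2294 c536 c489 c46 c492 c512 i3035 i746 k0)) (by decide +kernel)
def c2334 : PP 8 4 T 0x1000000000000000000000000000001000800000000000002000000000004000000 := rS 0x4f13159005279003c46c16 (k8 c2247 c2240 c2245 c2320 c82 i1837 c536 i898 (k2 c579 i2501 (k1 c512 k0))) (by decide +kernel)
def c2335 : PP 8 4 T 0x4001000000000000000000000000000001400000000000000002000000000004000000 := rS 0x19ab5429f629103a8010283 (k8 c2334 c2333 c2320 c574 c1171 c2331 c433 c6 (k2 c463 c555 (k1 c2332 k0))) (by decide +kernel)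
def c2336 : PP 8 4 T 0x101000000000000009000000000000000000000000000010002000000002004020000 := rS 0xc2358c0aa16 (k4 c2247 c2048 i861 c881 (k2 i989 i1952 k0)) (by decide +kernel)
def c2337 : PP 8 4 T 0x5001000000000000000000001000000200800000000000000002000000001014020002 := rS 0xaf533f0586344ae1a6a252b04fe953388c860310c44fa1f861bce24056984caa917a842c73 (k8 c2298 c2247 c2301 c2302 c2300 i2634 i2633 c226 (k8 c536 i2491 c382 c379 c452 c57 c416 i2497 (k8 i1 c563 c1445 c1828 i1102 i846 c224 c198 (k8 c1446 c1435 c2071 i281 i1406 c548 c573 i981 (k2 c503 i1912 k0))))) (by decide +kernel)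
def c2338 : PP 8 4 T 0x5001000000000000001000001000000001100000000000000002000000000014000000 := rS 0x6935b259e472a890da10098ad16594ea7cce233290c062188a39310c4b9bd36813ca0ce24000345e2360b1ece639 (k8 c2244 c2298 c2243 c2247 c2240 c2245 c2246 c2320 (k8 c536 i2491 c2334 c82 c2333 c2326 c382 c2323 (k8 c379 c1815 c2335 c416 i2497 i1 c563 i2634 (k8 c1445 c1828 i1187 c2330 i2595 i452 i898 i1799 (k8 c1167 c2054 c2337 c2048 i205 c2336 c564 c881 (k2 i1764 i2042 k0)))))) (by decide +kernel)
def c2339 : PP 8 4 T 0x5001000000000000001000000000000001200000000000000002000000000014000000 := rS 0xb124a65cb2d923f181546609123f18e6313abc24112ca1c522b3388c860310c44a23d55a555a614c4312e6f4da04f28338900ca8e000d952163d9cc5ef1 (k8 c2245 c2302 c2298 c2243 c2247 c2300 c2240 c2320 (k8 c2335 i2634 c536 i2491 c2334 c82 c2333 c2326 (k8 c382 c2323 c379 c1815 i2633 c226 i1102 c225 (k8 i1786 c377 c416 i2497 i1 c563 c1445 c1828 (k8 i898 i1837 c2025 i2595 i1760 i965 i1925 i746 (k8 c2271 c2269 c283 c2276 c56 c395 c2048 i861 (k8 i216 c564 c197 i2662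 c1671 i2040 i1917 i1242 k0))))))) (by decide +kernel)
def c2340 : PP 8 4 T 0x5001000000000000001000000000000001000000000000000002000000000014000000 := rS 0x1460723b4a082d659ad4e55448255e4f72314d34f7e0959cba318c4dab8608416813468ac6a593388c860310c44a2ab4aab4c2988625cde9b409e50671201951c00178e5e2a90b0d8f673 (k8 c2298 c2243 c2240 c2247 c2300 c2245 c2244 c2302 (k8 c2320 c2335 i2634 c536 i2491 c2334 c82 c2333 (k8 c2326 c382 c2323 c379 c1815 i2633 c226 i1102 (k8 c225 c377 c416 i2497 i1 c563 c1445 c1828 (k8 i2595 c601 i898 c2339 i1799 c2338 c1167 i1247 (k8 c1437 c2054 i2662 i1406 i1144 i1143 i861 c573 (k8 c501 i3040 i1794 c392 c19 c503 c56 c215 (k8 i767 i1912 i1946 c197 i981 c550 c548 c425 (k2 c378 c69 (k1 c2286 k0)))))))))) (by decide +kernel)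
def c2341 : PP 8 4 T 0x4001000000000000000100000000000001100000000100000002000002000004000000 := rS 0x6730cda10098ad166b8219c46652180c43114710000d1788d87216 (k8 c2247 c2244 c2240 c2245 c2246 c2320 c536 c2335 (k8 c416 i2497 i1 c563 i2634 c1445 c1828 c532 (k8 c537 i452 i898 i1799 c1167 c2054 i1952 c2052 (k1 i989 k0)))) (by decide +kernel)
def c2342 : PP 8 4 T 0x5001000000000000000000000000000001000000000000000002000000000014000000 := rS 0xd21fb014a88612498a6313848228c65b258e302ab9448b551ae57669a7b3056352c8a4fe671190c062188944fa1f5b8f5569556985310c4b9bd36813ca0ce24032a38003978aa42ca1179ece636 (k8 c2240 c2298 c2243 c2302 c2301 c2247 c2300 c2245 (k8 c2244 c2320 c2335 i2634 c536 i2491 c2334 c82 (k8 c2333 c2326 c382 c2323 c379 c1815 i2633 c226 (k8 i1102 c225 i1786 c541 c452 c57 c377 c416 (k8 i2497 i1 c563 c1445 c1828 i846 i1837 i2595 (k8 c601 i898 c2340 c491 i1831 i1948 i1144 c223 (k8 c1437 c1446 c475 c2048 i861 i410 c564 c197 (k8 c2341 i1760 i965 i746 c2271 i3055 i2040 c515 (k4 i1510 i1365 i1509 i375 (k2 c1937 c539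 k0)))))))))) (by decide +kernel)
def c2343 : PP 8 4 T 0x5001000000000000000000000000000001000000000000000002000000000004000000 := rS 0xb37e938386158d1530b7861bcf28b389012e9b0020506a9399ec2c39 (k8 c2244 c2247 c2243 c2298 c2300 c2334 c2333 c2320 (k8 c2326 c2323 c536 i2491 i452 c82 c382 c379 (k8 c541 c1815 c1991 i1826 i2633 c2342 i741 c19 (k2 i1429 c1996 k0)))) (by decide +kernel)
def c2344 : PP 8 4 T 0x1000000000000000000000000000101000000000000000002000000000084040000 := rS 0x2c8105d14914574558ad8f28141a5ce2404d9bc00530b1ccf636 (k8 c2240 c2243 c2298 c2247 c2299 c2320 c382 c2326 (k8 c536 i2491 c2323 c2334 c2333 c82 i2045 i1824 (k8 c1869 i898 c569 i1837 c2294 i182 c2058 i1428 k0))) (by decide +kernel)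
def c2345 : PP 8 4 T 0x4001000000000000000000000000000001100000000000000002000000000004000000 := rS 0x1fab303b483e6d0804c6a8b2c974524515a7cfe6711994860310c451d458687562b64cc50f28141a5ce2404d9bc00a129b44e6f11b058f639 (k8 c2244 c2243 c2247 c2240 c2245 c2298 c2246 c2299 (k8 c2301 c2320 c382 c2326 c536 i2491 c2323 c2334 (k8 c2333 c82 c2343 c411 i2045 i1824 i2496 c1815 (k8 c1869 c2335 c416 i2497 i1 c563 i2634 c1445 (k8 c1828 i846 i1187 i898 c569 i1837 c2294 i2595 (k8 i452 c601 i1799 c1167 c2054 c2344 c600 c378 (k2 i473 c2104 (k1 c2078 k0)))))))) (by decide +kernel)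
def c2346 : PP 8 4 T 0x4001000000000000001000000000000001000000000000000002000000000004000000 := rS 0x1545056bf608c92a89172cb5a9d4b2874ea7cfe954998d8e123388c8621889951c4f579845a1d86ad9331440a0d2e714d9be242708a300640158a4f200549eca6f11b058e6a1 (k8 c2301 c2298 c2247 c2240 c2245 c2299 c2243 c2300 (k8 c2320 c82 i1837 i898 c536 i1 c2345 i1760 (k8 i746 c512 c382 c2326 i2491 c2323 c2334 c2333 (k8 c2343 c411 i2045 c1815 i2496 c1105 i960 i1925 (k8 i762 c2335 i2634 c416 i2497 c563 c1445 c1828 (k8 i965 c2269 c80 c12 i1102 i846 i1187 c2330 (k8 c2025 i2595 c574 i886 c179 c1802 c2276 c2048 (k4 c564 c532 c1594 c488 (k2 c427 i2040 (k1 c1194 k0)))))))))) (by decide +kernel)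
def c2347 : PP 8 4 T 0x2011000000000000000500010010000010000040000051000042000000000004000000 := rS 0x14154fd4998ca6a9 (k8 c2300 c2299 c80 c12 c1594 i2040 c427 i498 k0) (by decide +kernel)
def c2348 : PP 8 4 T 0x4001000000000000000000000000000001000000000000000002000000000004000000 := rS 0x12ab7e07ca2255a0c570ad65c1192556613cd6af461845a1d5b43533143388d2a7f32886228e379e48603389012e9b0020506a129858f673 (k8 c2298 c2243 c2247 c2299 c2301 c2334 c2333 c2320 (k8 c2326 c2323 c536 i2491 i1 c563 c82 c382 (k8 c2335 c416 i2497 i2634 i846 i1102 c1445 c1828 (k8 c2343 c411 c1815 i2045 i2496 c1105 i960 c2345 (k8 i1925 i1965 i762 c2346 i770 c564 c532 c434 (k8 c488 c2347 i986 c1802 i861 i1397 i1396 c427 (k2 c37 c56 (k1 c2278 k0)))))))) (by decide +kernel)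
def c2349 : PP 8 4 T 0x1000000000000000000000000008000000000000000000002000000000004000002 := rS 0x8d8ca2da239 (k4 c2244 c2246 i452 c39 (k2 i2639 c401 k0)) (by decide +kernel)
def c2350 : PP 8 4 T 0x1000000000000000000000000000001002000000000000002000000000004000000 := rS 0x4c118997c805d149e48a0015bc42c36 (k8 c2240 c2247 c2245 i898 c2320 c569 c82 i1837 (k4 c2294 c536 c489 c376 (k2 c2024 c512 (k1 i746 k0)))) (by decide +kernel)
def c2351 : PP 8 4 T 0x21000000000000000000000000000001000000000000000002000000000004000000 := rS 0x2fe86b44aaed7b454c2dcfa7f379c52e9b40a0d26b9a7b310acf438a4802b4f9d51f163ca7400733dbc42c36 (k8 c2240 c2247 c2245 c2243 c2298 c2320 c2330 c82 (k8 c2348 c504 c574 c2349 i898 c536 i1837 c2025 (k8 c420 c2350 c1146 c491 c487 c436 c2334 c2333 (k8 c2326 c2323 i2491 c382 c408 c57 c541 c1815 (k8 c1991 i1990 i1948 c1710 c1138 c580 i1455 c485 k0))))) (by decide +kernel)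
def c2352 : PP 8 4 T 0x1000000000000000000000000000001100000000000000002000000000004000000 := rS 0xa30f88c2635459748a334999d722588a55131416b043ab64ca05069738a6cdf0d10b310acf438a4569f3aa3e2c794e900002f50b446c7b78858e639 (k8 c2244 c2298 c2247 c2245 c2243 c2240 c2246 c2301 (k8 c2302 c2320 c536 c2330 c82 c2348 c504 c574 (k8 c2349 i898 i1837 c2025 c420 c2350 c1146 i2499 (k8 c2351 c382 c2326 i2491 c2323 c2334 c2333 c2117 (k8 i2045 i2496 c311 c1105 c379 c518 c386 c2293 (k8 i860 c487 c486 c436 c389 c569 c2294 i452 (k4 c601 i1799 c1288 c2344 (k2 c308 c2060 k0)))))))) (by decide +kernel)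
def c2353 : PP 8 4 T 0x1000000000000000000001000000001000000000000000002000000000004000000 := rS 0x2aca0b27eb2d765d22a4cceb964d152a638a2c49eaf308b43ab64cc3502834b9c5366f32954d68c662159e8f4ec453f16438a456793a96480005494c2cf11b1ece6a1 (k8 c2301 c2298 c2243 c2240 c2245 c2247 c2299 c2300 (k8 c2320 c536 i2595 c574 c82 i898 i1837 c2025 (k8 c2348 c2349 c2293 c2330 c504 c420 c2350 c1146 (k8 c2352 i1964 i770 c1644 c382 c2326 i2491 c2323 (k8 c2334 c2333 c2351 c2117 i2045 i2496 c1105 i960 (k8 i1925 i762 i1824 c379 c80 c386 c1869 c432 (k8 c487 c486 c436 c569 c2294 i1949 c2280 c1594 (k4 c2059 c427 i666 c1803 k0)))))))) (by decide +kernel)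
def c2354 : PP 8 4 T 0x1000000000000000000000000000001000000000000000002000000000004000000 := rS 0x794aa35e9fd68c11687512955b516289986885988588a7c4ac35ca3d26cf19c5906814ea6d2e87149c4f235201d4de00158bde27b509cc2c36 (k8 c2240 c2247 c2298 c2301 c2243 c2245 c2302 i898 (k8 c2320 c382 c574 c536 c601 c82 i2491 i1837 (k8 c2025 c2323 c2326 c2330 c2333 c2334 c2348 c389 (k8 c420 c436 c504 c487 i1956 i860 c2349 c2293 (k8 c2350 c1146 i2499 c2351 c2117 c379 c1869 i2045 (k8 c386 c518 i2496 c1105 c311 c2353 i102 i1989 (k4 c316 c1197 c2060 i1395 k0))))))) (by decide +kernel)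
def c2355 : PP 8 4 T 0x1000000000000000000000000000040000000000000000002000000000004000000 := rS 0x90 (k2 c2354 c1282 k0) (by decide +kernel)
def c2356 : PP 8 4 T 0x1000000000000000000000000000000000000000000000002000000040004000000 := rS 0x6c90 (k2 c2354 c2240 (k1 i993 k0)) (by decide +kernel)
def c2357 : PP 8 4 T 0x1000000000000000000000000000000000000000000000002000000000004000002 := rS 0x96 (k2 c2355 c2323 k0) (by decide +kernel)
def c2358 : PP 8 4 T 0x1000000000000000000000000000000000000000000000002080000000004000000 := rS 0x2a (k2 c2356 c464 k0) (by decide +kernel)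
def c2359 : PP 8 4 T 0x1000000000000000000000000000000000000000000000002200000000004000000 := rS 0x2a (k2 c2356 c1152 k0) (by decide +kernel)
def c2360 : PP 8 4 T 0x1000000000000000000000000000000000000000000000002020000000004000000 := rS 0x1 (k2 c2357 c815 k0) (by decide +kernel)
def c2361 : PP 8 4 T 0x1000000000000000000000000000000000000000000000002000000000004000000 := rS 0x1048645 (k4 c2359 c2358 c2360 c399 k0) (by decide +kernel)

end Pool.Agent.H551.GP.E84n
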