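import Pool.Agent.H551.GP.E84ni1
import Pool.Agent.H551.GP.E84ni2
import Pool.Agent.H551.GP.E84ni3

/-! Certificate data. -/

set_option linter.all false
set_option maxRecDepth 100000

namespace Pool.Agent.H551.GP.E84n

def d0 : PP 8 4 T 0x1000000000000080000000000000000000000000000000001000000200004000000 := rS 0x11f (k2 i3150 i1193 k0) (by decide +kernel)
def d1 : PP 8 4 T 0x41000400000000411000010000404000000004000000000000500000000000001000000000004000000 := rS 0xf9 (k2 i3188 i2021 k0) (by decide +kernel)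
def d2 : PP 8 4 T 0x5000000004000005004001000400040000000000400000000000000000000001005000000004000000 := rS 0xf9 (k2 i3188 i2005 k0) (by decide +kernel)
def d3 : PP 8 4 T 0x2001000000000000000000000000000000000000000008000001000000000004000000 := rS 0x13b (k2 i3167 i1207 k0) (by decide +kernel)
def d4 : PP 8 4 T 0x1014040005000005000000000000000000000000000000000000000001000000000004150000 := rS 0xd5 (k2 i3190 i1996 k0) (by decide +kernel)
def d5 : PP 8 4 T 0x1200000000000000000000000000000000000000000000001000000000004008000 := rS 0xd5 (k2 i3190 i424 k0) (by decide +kernel)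
def d6 : PP 8 4 T 0x10050140000041040000000000000000000000000000000000000000000015000000000004000000 := rS 0x27701 (k2 i3193 i3167 (k1 i2007 k0)) (by decide +kernel)
def d7 : PP 8 4 T 0x400140000000014001000040440000004000000000005000000000000000000001000000000004000000 := rS 0xfb (k2 i3189 i2025 k0) (by decide +kernel)
def d8 : PP 8 4 T 0x40000010040000011001000000004400000000000000000000000000000000541000000000004000000 := rS 0x20349 (k2 i3157 i3193 (k1 i2008 k0)) (by decide +kernel)
def d9 : PP 8 4 T 0x1000002000000000000000000000000000000000000000001000080000004000000 := rS 0x11f (k2 i3150 i1729 k0) (by decide +kernel)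
def d10 : PP 8 4 T 0x801000000000000000000000000000000000000000000800001000000000004000000 := rS 0x101 (k2 i3193 i693 k0) (by decide +kernel)
def d11 : PP 8 4 T 0x20001000000000000000000000000008000000000000000000001000000000004000000 := rS 0xfb (k2 i3189 i957 k0) (by decide +kernel)
def d12 : PP 8 4 T 0x1200000000000000000000020000000000000000000000001000000000004000000 := rS 0x149 (k2 i3157 i1467 k0) (by decide +kernel)
def d13 : PP 8 4 T 0x104001000101400000011001000000000000000000000000000000000001000000001504000000 := rS 0x11d (k2 i3149 i1999 k0) (by decide +kernel)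
def d14 : PP 8 4 T 0x1000001000000001001000000400400000000540000000000000000000000001000000000004000000 := rS 0x3cdf349 (k4 i3157 i3188 i3185 i2015 k0) (by decide +kernel)
def d15 : PP 8 4 T 0x1000000002000000000000000000000000000000000000001000020000004000000 := rS 0xdd (k2 i3192 i169 k0) (by decide +kernel)
def d16 : PP 8 4 T 0x100001000000001001004000000040040000000000000000010000000000000001000000500004000000 := rS 0x51dbb1f (k4 i3150 i3192 i3151 i2001 k0) (by decide +kernel)
def d17 : PP 8 4 T 0x411040000401000010000000000000000000000000000000000000540001000000000004000000 := rS 0x1e701 (k2 i3193 i3185 (k1 i2010 k0)) (by decide +kernel)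
def d18 : PP 8 4 T 0x404004000405000011000001000000000000000000000000000000000001000000054004000000 := rS 0x11d (k2 i3149 i2000 k0) (by decide +kernel)
def d19 : PP 8 4 T 0x10140000004141000000010000000000000000000000400000500000000001000000000004000000 := rS 0x27eeb (k2 i3181 i3170 (k1 i2018 k0)) (by decide +kernel)
def d20 : PP 8 4 T 0x101000004010005000041000000000000000000000000000000000000000001000540000004000000 := rS 0x23edd (k2 i3192 i3150 (k1 i2003 k0)) (by decide +kernel)
def d21 : PP 8 4 T 0x11044000000041000000000001000000000000000000000000000000000001000000000005400000 := rS 0x47e3add (k4 i3192 i3149 i3150 i1997 k0) (by decide +kernel)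
def d22 : PP 8 4 T 0x1002000000000000000000000000000000000000000000801000000000004000000 := rS 0x101 (k2 i3193 i418 k0) (by decide +kernel)
def d23 : PP 8 4 T 0x1000002000000000000000000000000000000000000000001002000000004000000 := rS 0x147 (k2 i3151 i1730 k0) (by decide +kernel)
def d24 : PP 8 4 T 0x801000000000000000000000000000000000800000000000001000000000004000000 := rS 0xf9 (k2 i3188 i697 k0) (by decide +kernel)
def d25 : PP 8 4 T 0x1000000002000000000000000000000000000000000000001000000000204000000 := rS 0x11d (k2 i3149 i1460 k0) (by decide +kernel)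
def d26 : PP 8 4 T 0x1000100040001000000000000000000000000000000000000000000000001000000000004000015 := rS 0x1bb038fc9676d5 (k4 i3190 i3167 i3154 i3150 (k2 i3194 i3192 (k1 i1993 k0))) (by decide +kernel)
def d27 : PP 8 4 T 0x1000002000000000000000000000000000000000000000001008000000004000000 := rS 0xf9 (k2 i3188 i178 k0) (by decide +kernel)
def d28 : PP 8 4 T 0x2001000000000000000000000000000008000000000000000001000000000004000000 := rS 0x13f (k2 i3170 i1209 k0) (by decide +kernel)
def d29 : PP 8 4 T 0x4040000001000000000001000000000000000000000000000000000001150000000004000000 := rS 0x236d580c764b31 (k4 i3161 i3154 i3149 i3193 (k2 i3190 i3148 (k1 i1992 k0))) (by decide +kernel)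
def d30 : PP 8 4 T 0x400000000005000005400001401000000054000000000000000000000000000001000000000004000000 := rS 0xfb (k2 i3189 i2006 k0) (by decide +kernel)
def d31 : PP 8 4 T 0x400000000000001101000104000400400000014000000000000000000000001000000000004000000 := rS 0x3865749 (k4 i3157 i3158 i3176 i2014 k0) (by decide +kernel)
def d32 : PP 8 4 T 0x100040000101100000014000000000000000000000000000000000015001000000000004000000 := rS 0x4065731 (k4 i3161 i3158 i3193 i2009 k0) (by decide +kernel)
def d33 : PP 8 4 T 0x1005000000000440000000000000000000000000000000001000000000004000540 := rS 0x14992b563747 (k4 i3151 i3148 i3190 i3154 (k2 i3157 i1994 k0)) (by decide +kernel)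
def d34 : PP 8 4 T 0x20001000000000000020000000000000000000000000000000001000000000004000000 := rS 0xf3 (k2 i3185 i953 k0) (by decide +kernel)
def d35 : PP 8 4 T 0x1000002000000000000000000000000000000000000000001000000000004200000 := rS 0xf3 (k2 i3185 i173 k0) (by decide +kernel)
def d36 : PP 8 4 T 0x801000000000000000000000000000000000000000000800001000000000004000000 := rS 0xf3 (k2 i3185 i694 k0) (by decide +kernel)
def d37 : PP 8 4 T 0x1000000002000000000000000000000000000000000000001000000000004008000 := rS 0xd5 (k2 i3190 i165 k0) (by decide +kernel)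
def d38 : PP 8 4 T 0x1000002000000000000000000000000000000000000000001000000008004000000 := rS 0x11d (k2 i3149 i1728 k0) (by decide +kernel)
def d39 : PP 8 4 T 0x1000000002000000000000000000000000000000000000001000002000004000000 := rS 0x11f (k2 i3150 i1461 k0) (by decide +kernel)
def d40 : PP 8 4 T 0x100000000000001001001000000040400000000001000000000000000005000001000000000004000000 := rS 0xa4c0e7729 (k4 i3156 i3167 i3194 i3157 (k1 i2011 k0)) (by decide +kernel)
def d41 : PP 8 4 T 0x21000000000000000000000000000000000000000000000201000000000004000000 := rS 0x131 (k2 i3161 i1202 k0) (by decide +kernel)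
def d42 : PP 8 4 T 0x1000000000000080000000000000000000000000000000001000000000024000000 := rS 0x11d (k2 i3149 i1192 k0) (by decide +kernel)
def d43 : PP 8 4 T 0x8001000000000000000000020000000000000000000000000001000000000004000000 := rS 0xed (k2 i3182 i949 k0) (by decide +kernel)
def d44 : PP 8 4 T 0x8001000000000000000000000000000000000000000000000001000020000004000000 := rS 0xdd (k2 i3192 i943 k0) (by decide +kernel)
def d45 : PP 8 4 T 0x1000000000000000000000000000000000000000002000201000000000004000000 := rS 0x0 (k1 i1312 k0) (by decide +kernel)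
def d46 : PP 8 4 T 0x801000000000000000000000000000000000200000000000001000000000004000000 := rS 0x14b (k2 i3163 i1740 k0) (by decide +kernel)
def d47 : PP 8 4 T 0x1200000000000000000000000000000000000000020000001000000000004000000 := rS 0x129 (k2 i3156 i1466 k0) (by decide +kernel)
def d48 : PP 8 4 T 0x1000010001000040000000010000000000000000140000000000000001000000000004000000 := rS 0x14194bce073b (k4 i3167 i3194 i3185 i3156 (k2 i3171 i2013 k0)) (by decide +kernel)
def d49 : PP 8 4 T 0x1000000000000080000000000000000000000000000000001000000000004000080 := rS 0x11b (k2 i3148 i1191 k0) (by decide +kernel)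
def d50 : PP 8 4 T 0x1000000000000080000000000000000000000000000000001000000000004000800 := rS 0xd5 (k2 i3190 i157 k0) (by decide +kernel)
def d51 : PP 8 4 T 0x801000000000000000000000000000000008000000000000001000000000004000000 := rS 0xfb (k2 i3189 i698 k0) (by decide +kernel)
def d52 : PP 8 4 T 0x20001000000000000000000000000000000080000000000000001000000000004000000 := rS 0x13b (k2 i3167 i1743 k0) (by decide +kernel)
def d53 : PP 8 4 T 0x801000000000000000000000000000000002000000000000001000000000004000000 := rS 0x135 (k2 i3164 i1741 k0) (by decide +kernel)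
def d54 : PP 8 4 T 0x1200000000000000800000000000000000000000000000001000000000004000000 := rS 0xed (k2 i3182 i430 k0) (by decide +kernel)
def d55 : PP 8 4 T 0x800000000000001000000000000000000002000000000000000000000000001000000000004000000 := rS 0xe9 (k2 i3180 i1213 k0) (by decide +kernel)
def d56 : PP 8 4 T 0x2000000000000001000000000000000000000000000800000000000000000001000000000004000000 := rS 0xf7 (k2 i3187 i1219 k0) (by decide +kernel)
def d57 : PP 8 4 T 0x201000000000000000000000000000000000000000000008001000000000004000000 := rS 0x131 (k2 i3161 i1470 k0) (by decide +kernel)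
def d58 : PP 8 4 T 0x800000000000001000000000000000000080000000000000000000000000001000000000004000000 := rS 0xe3 (k2 i3177 i1483 k0) (by decide +kernel)
def d59 : PP 8 4 T 0x800000000000000001000000000000000000800000000000000000000000000001000000000004000000 := rS 0xf9 (k2 i3188 i1488 k0) (by decide +kernel)
def d60 : PP 8 4 T 0x1000000002000000000000000200000000000000000000001000000000004000000 := rS 0xed (k2 i3182 i171 k0) (by decide +kernel)
def d61 : PP 8 4 T 0x8001000000000000000200000000000000000000000000000001000000000004000000 := rS 0x103 (k2 i3194 i945 k0) (by decide +kernel)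
def d62 : PP 8 4 T 0x101000000000011001000000000040000000000000000540000000000000000001000000000004000000 := rS 0x7cbde82e3 (k4 i3177 i3171 i3187 i3188 (k1 i2024 k0)) (by decide +kernel)
def d63 : PP 8 4 T 0x400000001000000001100000404000000000000000000000000000001500000001000000000004000000 := rS 0x4adf6f3 (k4 i3185 i3189 i3158 i2016 k0) (by decide +kernel)
def d64 : PP 8 4 T 0x20001000000000000000000000000000000000008000000000001000000000004000000 := rS 0x13d (k2 i3168 i1744 k0) (by decide +kernel)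
def d65 : PP 8 4 T 0x1004001400000001000000000000000000000000000000000000001000015000004000000 := rS 0xeb8fce67edd (k4 i3192 i3170 i3166 i3150 (k2 i3181 i2002 k0)) (by decide +kernel)
def d66 : PP 8 4 T 0x1000000002000000000000000000000000000000000000001000000000004002000 := rS 0x11b (k2 i3148 i1459 k0) (by decide +kernel)
def d67 : PP 8 4 T 0x201000000000000000000000000000000000020000000000001000000000004000000 := rS 0x14b (k2 i3163 i1472 k0) (by decide +kernel)
def d68 : PP 8 4 T 0x1000000000000000000000000000000000000000080002001000000000004000000 := rS 0x0 (k1 i1620 k0) (by decide +kernel)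
def d69 : PP 8 4 T 0x1000000000000000000000000000000000000000000000021000000000004000002 := rS 0x0 (k1 i446 k0) (by decide +kernel)
def d70 : PP 8 4 T 0x1000000000000000000000000000000000000020000000001000000200004000000 := rS 0x0 (k1 i1240 k0) (by decide +kernel)
def d71 : PP 8 4 T 0x801000000000000000000000000000000000000000000000001000000080004000000 := rS 0x10b (k2 i3184 i692 k0) (by decide +kernel)
def d72 : PP 8 4 T 0x1002000000000000000000008000000000000000000000001000000000004000000 := rS 0xe1 (k2 i3176 i422 k0) (by decide +kernel)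
def d73 : PP 8 4 T 0x800000000000000001000000000000002000000000000000000000000000000001000000000004000000 := rS 0xe9 (k2 i3180 i1754 k0) (by decide +kernel)
def d74 : PP 8 4 T 0x21000000000000000000000000000000000000000000000801000000000004000000 := rS 0x101 (k2 i3193 i677 k0) (by decide +kernel)
def d75 : PP 8 4 T 0x1000000002000000020000000000000000000000000000001000000000004000000 := rS 0x123 (k2 i3153 i1463 k0) (by decide +kernel)
def d76 : PP 8 4 T 0x1000002000000000020000000000000000000000000000001000000000004000000 := rS 0x121 (k2 i3152 i1731 k0) (by decide +kernel)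
def d77 : PP 8 4 T 0x1000000000000080000000000020000000000000000000001000000000004000000 := rS 0xd9 (k2 i3191 i159 k0) (by decide +kernel)
def d78 : PP 8 4 T 0x8001000000000000000000000000000000000000800000000001000000000004000000 := rS 0x13d (k2 i3168 i1476 k0) (by decide +kernel)
def d79 : PP 8 4 T 0x1000002000000000000000000000000000000000000000001000000080004000000 := rS 0xd9 (k2 i3191 i174 k0) (by decide +kernel)
def d80 : PP 8 4 T 0x400000000000001004000001000040001000000140000000000000000000001000000000004000000 := rS 0xe1a3bb60f21 (k4 i3152 i3178 i3182 i3151 (k2 i3176 i2004 k0)) (by decide +kernel)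
def d81 : PP 8 4 T 0x1200000000000000000000000000000000000000000000001800000000004000000 := rS 0x125 (k2 i3154 i1464 k0) (by decide +kernel)
def d82 : PP 8 4 T 0x2000000000000001000000000000000000800000000000000000000000000001000000000004000000 := rS 0xfb (k2 i3189 i1220 k0) (by decide +kernel)
def d83 : PP 8 4 T 0x2001000000000000000000000000000000020000000000000001000000000004000000 := rS 0x139 (k2 i3166 i1206 k0) (by decide +kernel)
def d84 : PP 8 4 T 0x20001000000000000000000000000000800000000000000000001000000000004000000 := rS 0xf9 (k2 i3188 i956 k0) (by decide +kernel)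
def d85 : PP 8 4 T 0x1100000001000000000000000000000000000000000000001400000000004005000 := rS 0x46e0f2590b55cf2b (k8 i3158 i3179 i3190 i3152 i3154 i3178 i3148 i1995 k0) (by decide +kernel)
def d86 : PP 8 4 T 0x8001000000000000000000000000000000000000000080000001000000000004000000 := rS 0x13b (k2 i3167 i1475 k0) (by decide +kernel)
def d87 : PP 8 4 T 0x401400000000000001000000000000000000540000000000000000000000000001000000000004000000 := rS 0x1c6fb76bbdc2f9 (k4 i3188 i3176 i3183 i3182 (k2 i3189 i3177 (k1 i2026 k0))) (by decide +kernel)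
def d88 : PP 8 4 T 0x1000000000000080000000000000000000000000000000001002000000004000000 := rS 0x123 (k2 i3153 i1195 k0) (by decide +kernel)
def d89 : PP 8 4 T 0x800000000000000001000000000000000000000000008000000000000000000001000000000004000000 := rS 0xf7 (k2 i3187 i1487 k0) (by decide +kernel)
def d90 : PP 8 4 T 0x4000000011000000000004040000000000010000000000000000000001000000000054000000 := rS 0x1477fb66971d (k4 i3149 i3163 i3191 i3172 (k2 i3151 i1998 k0)) (by decide +kernel)
def d91 : PP 8 4 T 0x2000000000000001000000000000000000000080000000000000000000000001000000000004000000 := rS 0xd7 (k2 i3173 i1748 k0) (by decide +kernel)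
def d92 : PP 8 4 T 0x1200000000000000000000000000000000000000000020001000000000004000000 := rS 0x101 (k2 i3193 i426 k0) (by decide +kernel)
def d93 : PP 8 4 T 0x400000000000111000000000004000000001000000000000050000000000001000000000004000000 := rS 0x14b74bb5c335 (k4 i3164 i3176 i3182 i3180 (k2 i3163 i2020 k0)) (by decide +kernel)
def d94 : PP 8 4 T 0x1000000000000000000000000000002000000000000080001000000000004000000 := rS 0x0 (k1 i773 k0) (by decide +kernel)
def d95 : PP 8 4 T 0x1000000000000000000000000000000020000008000000001000000000004000000 := rS 0x0 (k1 i1318 k0) (by decide +kernel)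
def d96 : PP 8 4 T 0x800000000000000001000000000000008000000000000000000000000000000001000000000004000000 := rS 0xeb (k2 i3181 i1755 k0) (by decide +kernel)
def d97 : PP 8 4 T 0x400000000000000501000000000000001000000000000000005000000000000001000000000004000000 := rS 0x1defb7acde6ae9 (k4 i3180 i3164 i3165 i3186 (k2 i3189 i3183 (k1 i2022 k0))) (by decide +kernel)
def d98 : PP 8 4 T 0x800000000000001000000000000000800000000000000000000000000000001000000000004000000 := rS 0xe7 (k2 i3179 i1212 k0) (by decide +kernel)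
def d99 : PP 8 4 T 0x800000000000001000000000000000000020000000000000000000000000001000000000004000000 := rS 0xeb (k2 i3181 i1214 k0) (by decide +kernel)
def d100 : PP 8 4 T 0x800000000000001000000000000000000000000000000000080000000000001000000000004000000 := rS 0xdb (k2 i3174 i1481 k0) (by decide +kernel)
def d101 : PP 8 4 T 0x1000000000000000000000000000000000000000000000001200000000004000008 := rS 0x0 (k1 i221 k0) (by decide +kernel)
def d102 : PP 8 4 T 0x1000000000000000000000000000000000000000008080001000000000004800000 := rS 0x884a26cc6673d87c0e5327 (k8 i3155 i3156 i3194 i3195 i3168 i3162 i3161 i2465 (k4 d6 i967 i966 i2290 k0)) (by decide +kernel)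
def d103 : PP 8 4 T 0x11001000000000000000000000000000400200101000000000221000540100004000020 := rS 0x5351112994b8bcdcb1058f47ef07fb7e9b0ba0bde4739 (k8 i3166 i3153 i3187 i3171 i3184 i3169 i3175 i3172 (k8 d20 d27 d23 i2348 i1315 i528 i315 i1817 (k4 i1059 d95 d62 i2034 (k1 i1747 k0)))) (by decide +kernel)
def d104 : PP 8 4 T 0x21200000001000000400001000000000000000000008014501000005000004000020 := rS 0x19a2caa1a9555a0f279fcfb0790c9e6ae1 (k8 i3176 i3164 i3155 i3152 i3178 i1204 i681 i1351 (k8 d5 d12 i1465 i354 i2037 d65 i537 d86 k0)) (by decide +kernel)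
def d105 : PP 8 4 T 0x1000000000000000000000000000000008000000000080021000000000004000000 := rS 0x643b150d87a (k4 i793 i778 i777 i817 (k2 i792 i3018 k0)) (by decide +kernel)
def d106 : PP 8 4 T 0x1000000000000000400000014000000000040000000015541000000000204004800 := rS 0x5a9f54a1f (k4 i237 i361 i1502 i728 (k1 i2037 k0)) (by decide +kernel)
def d107 : PP 8 4 T 0x1001000000000000000000000000000004000020044000000001000000000004000000 := rS 0x21a7187cf69b4b6db7e6735 (k8 i3164 i3162 i3175 i3174 i3163 i3169 i3168 i3195 (k2 i1360 i1204 (k1 i2017 k0))) (by decide +kernel)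
def d108 : PP 8 4 T 0x400000000000010001000000000000005004000000001000205000000008011501000440150404405020 := rS 0x225a61c5a1f45e0b3faad267433c58609f659955b042bb9440338a93c8e25399318e2762bc072130c1bc6b39a6bfdbf4175bde7eef85c8e5f0f6ccf666fb (k8 i3189 i3162 i3168 i3191 i3195 i3160 i3153 i3184 (k8 i3183 i3170 i3187 i3181 i3171 i3175 i3172 i3169 (k8 i3166 i354 i1319 d21 i2107 i1813 d20 d76 (k8 d38 i179 i229 i836 i2209 i2106 i1351 d3 (k8 i232 i2032 d25 i1497 d85 d12 d47 d54 (k8 i1035 i2035 d7 i1505 i1041 i1477 i537 i1668 (k8 d106 i315 d107 i2037 i727 d42 i1343 d16 k0))))))) (by decide +kernel)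
def d109 : PP 8 4 T 0x400000000000010001000000000000004004000000005000000000000000000001000551000004000000 := rS 0x22c3263b15e139a0badef3f77c2e46fb (k8 i3189 i3153 i3184 i3183 i3170 i3187 i3181 i3171 (k4 i3166 d20 d76 i179 (k2 i2035 d7 (k1 i1474 k0)))) (by decide +kernel)
def d110 : PP 8 4 T 0x400000000000000001000000000000001004000000001000245008000008011501000040150004405020 := rS 0x20a573219d3d11188899e4c1dc6472130c0d64f3573ba65f0f6cce67b33 (k8 i3162 i3168 i3166 i3191 i3195 i3160 i3180 i3179 (k8 i3164 i3155 i354 d21 i2107 i1813 d64 i393 (k8 i229 i1980 d108 i1572 i1469 d109 i1714 i1035 (k2 i529 d47 (k1 d32 k0))))) (by decide +kernel)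
def d111 : PP 8 4 T 0x101000000000000000000000000000000000000000020011001000000000004000000 := rS 0x20a5793cd5cee9 (k4 i3180 i3179 i3164 i3155 (k2 i1580 d47 (k1 d32 k0))) (by decide +kernel)
def d112 : PP 8 4 T 0x1000000000000000400001010000010000010040008015501000000000004000000 := rS 0x1c61a7e55c549e6f87cf69b4b6db7e66e1 (k8 i3176 i3162 i3175 i3174 i3163 i3169 i3168 i3195 (k8 i1319 i1351 d3 i538 i2037 i681 i800 i2017 k0)) (by decide +kernel)
def d113 : PP 8 4 T 0x1000000000000000004000000000000000000002008080001200000000004000000 := rS 0x703f2516ab9659f608762bc5ceace56a7cca31888859835479541e9d2cd3d0a2b2eb44be0d3994c521513bc0de511681c721340c64f437461e4963b4da2e2a872601002030c05e4f3573ba61f339ebbde72f6cce6372985d05ef23 (k8 i3153 i3187 i3171 i3184 i3156 i3148 i3166 i3191 (k8 i3160 i3185 i3183 i3168 i3162 i3195 i3180 i3179 (k8 i3164 i3155 d102 d21 d101 i2290 d26 i229 (k8 d105 d3 i1884 i1446 i393 i486 i1808 i794 (k8 i1043 i793 d64 i3066 i2107 i1813 i2345 i1237 (k8 d103 i1319 d20 d38 d35 i1805 i2358 i836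 (k8 i2346 i36 i653 i35 i386 i1604 i1485 i2445 (k8 i1643 i667 i1697 i874 i354 d110 i729 i690 (k8 i1042 d111 i1035 i1353 d109 i1067 i950 i530 (k8 d19 d32 i1630 d54 i1405 i808 d112 i1675 (k2 i1676 i2558 k0))))))))))) (by decide +kernel)
def d114 : PP 8 4 T 0x1200000000000000054000000000000000000001400000001400000000004151000 := rS 0x1a41f2d (k4 i3159 d5 i1468 i2029 k0) (by decide +kernel)
def d115 : PP 8 4 T 0x1100000000000001054000000000000004000000000095001000000055104000000 := rS 0x114410b2f93cd5cee9 (k8 i3180 i3179 i3164 i3155 i3160 i1812 d32 i2032 (k1 i1469 k0)) (by decide +kernel)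
def d116 : PP 8 4 T 0x1000000000000000000000000000000000000000200008021000000000004000000 := rS 0xe866 (k2 i529 i530 (k1 i2963 k0)) (by decide +kernel)
def d117 : PP 8 4 T 0x1000000000000000054000000000000000000001000080021600000005004144000 := rS 0x88a8852b8859ae434164562943c14d68c3d034225d (k8 i35 i483 i2346 i793 i794 i3132 d114 d105 (k8 i1805 i386 i603 i2029 d85 i1831 d25 d116 (k4 i1812 d115 i2032 i1537 k0))) (by decide +kernel)
def d118 : PP 8 4 T 0x1000000001000000000000000000000000000000000002001000004000006000020 := rS 0x6b171899cec75259320f21 (k8 i3152 i3178 i229 i486 i1540 i791 d68 i1041 (k2 d78 i355 (k1 d65 k0))) (by decide +kernel)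
def d119 : PP 8 4 T 0x1000000001000000054000000004000200000000040000001000545000004000020 := rS 0x33a2c9d1abbe0f21 (k8 i3152 i3178 i3183 i355 i1820 d65 i2035 i950 k0) (by decide +kernel)
def d120 : PP 8 4 T 0x1100000000000000000000000010000000500040088005101205004154004008000 := rS 0x3eb70ea9e18d238a245eb805b28fab588164463456a562a6129810020337aae5ee387cf69b4b6db7e67397fbb64f3573ba63729 (k8 i3156 i3148 i3180 i3179 i3164 i3155 i3182 i3172 (k8 i3166 i3162 i3175 i3174 i3163 i3169 i3168 i3195 (k8 i3177 i3160 i2359 i1319 d101 i2290 d26 i2358 (k8 i74 d3 i1673 i1622 i542 i2125 i604 d32 (k8 i689 d67 d112 i2368 i546 i315 i1404 i1407 (k4 d16 i2017 i164 d42 (k2 i682 i1201 (k1 i2031 k0)))))))) (by decide +kernel)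
def d121 : PP 8 4 T 0x1000000000000000004000000000000000000000008080001200000000004000000 := rS 0x222593a08c60672a8cdca57074153e6d4193c56112e91c4aa164834e653149ad8e3d1f8544ec5781445a071c84d03193d0dd1879258ec98180b81002034da2e2b279ab9dd3338dca6732f87b667b0ba0bde46fb (k8 i3189 i3153 i3187 i3171 i3184 i3168 i3191 i3195 (k8 i3160 i3166 i3156 i3148 i3162 i3180 i3179 i3164 (k8 i3155 d3 i1884 i1446 d101 i2290 d26 d102 (k8 d21 i229 i393 i486 i1808 i794 i1043 i793 (k8 d64 i3066 i2107 i1813 i2345 i1237 d103 d20 (k8 d76 d38 d35 d27 d23 i179 i3132 i1805 (k8 i2358 i836 i2346 i2411 i2186 i2209 i2106 i35 (k8 i483 i386 i1351 i775 d113 i1036 d114 d117 (k8 i502 d37 i285 d118 d120 d119 i1572 i1041 (k2 i604 i1471 (k1 d32 k0))))))))))) (by decide +kernel)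
def d122 : PP 8 4 T 0x400000000000000001000000000000000000000000000000000000000500000001000000000004108000 := rS 0x6d82bbe5ae7 (k4 i3179 i3159 i3183 d5 (k2 i667 d63 k0)) (by decide +kernel)
def d123 : PP 8 4 T 0x1001000000000000000400000014000000000000004000015541000002100004404020 := rS 0x225a61c5a0bcfa0b499fce820399303139a6bfdbf2f87b667b33 (k8 i3162 i3168 i3191 i3195 i3160 i3175 i3172 i3169 (k8 i3166 d21 i229 i836 i1042 i1041 i1668 i2930 (k8 d106 d107 i315 i2037 i727 d42 i1343 d16 k0))) (by decide +kernel)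
def d124 : PP 8 4 T 0x1000000001000000000000000000000000000200000000001000001001404000000 := rS 0x2188ba643076ccbe6b33 (k8 i3162 i3164 i3160 i3191 i3178 i3152 i3180 i1471 (k2 i1499 d13 k0)) (by decide +kernel)
def d125 : PP 8 4 T 0x1200000001000000000001004000000000010440008015501000005000004000020 := rS 0x1c0fd0d8a93cdead65c3e7b4da5b6dbf33 (k8 i3162 i3175 i3174 i3163 i3169 i3168 i3195 d54 (k8 d12 i1319 i1351 d3 d104 i2037 i2017 i799 k0)) (by decide +kernel)
def d126 : PP 8 4 T 0x1200000001000000000000000000000000000000048010501000004100404404020 := rS 0x1a42f0e22416200f9fe22b43ea4cef1618aacaf1527894e64c37954303556b2e734d7fb7dd32183b665f3576c3e7b33 (k8 i3162 i3168 i3195 i3182 i3164 i3160 i3191 i3178 (k8 i3152 i3180 i3175 i3172 i3169 i3166 d54 d12 (k8 i354 d21 d118 i1319 i229 i836 i2209 i1351 (k8 d3 i529 i537 d123 d65 d78 i1477 d107 (k8 d125 i689 i127 i1396 d13 d106 i230 i727 (k2 i315 d16 (k1 d42 k0))))))) (by decide +kernel)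
def d127 : PP 8 4 T 0x1000000000000000000000000000000000000000008080001200000000004000000 := rS 0x1171899a083507964474f729a466c228855e02d358e503191b8a41a07461e8f23b0993096470200ca6018aa6d16180bc1e42ef9cc8def4185ca6372f87b667b33 (k8 i3162 i3168 i3191 i3195 i3160 i3148 i3156 i3184 (k8 i3171 i3187 i3153 i3166 i3183 i3152 i3178 d102 (k8 d21 i1884 i1446 d3 i2290 i2358 d101 d26 (k8 i2106 i486 i229 i2107 i393 i1808 i793 i794 (k8 i2345 i2346 i1805 i1043 d64 i3066 i1813 i3132 (k8 i1237 d20 d35 d103 d121 i290 i1828 i172 (k8 i1752 i250 i604 d122 i354 d85 d126 i1505 (k2 d86 d65 k0)))))))) (by decide +kernel)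
def d128 : PP 8 4 T 0x1000000000000000000000000000000000000000008080005000000000004000000 := rS 0x1dbc424268c9086ed13d104f24c2f8e452450c05e73237bd06172f93b6663339ec3e0729 (k8 i3156 i3194 i3195 i3168 i3162 i3161 i3191 i3155 (k8 i3160 i3184 i3171 i3187 i3153 i3166 d102 d21 (k8 d127 i1806 i234 i36 d6 i1808 i181 i793 (k8 i653 i1043 d29 d64 i705 i706 d38 i215 (k1 d20 k0))))) (by decide +kernel)
def d129 : PP 8 4 T 0x1000000000000000000004000410000000500000000000001041000050054080100 := rS 0x7e27 (k2 i1798 i216 (k1 i2031 k0)) (by decide +kernel)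
def d130 : PP 8 4 T 0x1000000000000000000004000000000000100000008080001000000004004000000 := rS 0xf01f044263d53b4a1a1f04a245615200602ea138074a043250a48a8327bce470b92cb6372f87b66733d99c9dc6db (k8 i3174 i3177 i3155 i3162 i3168 i3166 i3191 i3195 (k8 i3160 i3148 i3159 i3154 i3184 i3153 i3185 i1351 (k8 i775 d127 i1806 d128 i2245 i487 i1230 i488 (k8 i795 d102 d21 d29 i2227 i772 i2049 i1348 (k8 i1356 d41 d90 i164 d88 d129 i1757 i2031 (k2 d4 d27 k0)))))) (by decide +kernel)
def d131 : PP 8 4 T 0x1000000000000000008000000000000000000000000000001020000008004000000 := rS 0x19820 (k2 i1955 i1954 (k1 i2499 k0)) (by decide +kernel)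
def d132 : PP 8 4 T 0x1000000000000010000000000000000000001000008080001000000000204000000 := rS 0xce8b1a60a6d32b24d667239518e0c6695c0231010602e9d4f8410e265b9ee308d45a04e040219288aef95ca5cf3f75cee07276ccbe5af787ce67b33 (k8 i3162 i3168 i3166 i3195 i3187 i3159 i3160 i3191 (k8 i3155 i3194 i3167 i3181 i3170 i3179 i3156 i3158 (k8 i3183 d127 d128 i2245 d29 i488 i1363 i1884 (k8 i1051 d48 d64 i801 d130 i2502 i746 d11 (k8 i1746 d102 d21 i180 i2724 i1038 i1498 i2499 (k8 i744 i1689 i743 i1530 i489 i1962 i463 i1491 (k4 i476 i1465 i1764 i2012 (k2 i2042 i950 k0)))))))) (by decide +kernel)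
def d133 : PP 8 4 T 0x1100000000000001000000000005001405005000040000001040001000006002000 := rS 0x3a094ee3567c58ca2364b94030777cae52e79fbae7703 (k8 i3194 i3167 i3181 i3170 i3179 i3156 i3158 i3183 (k8 i3178 i1038 d66 i463 i1570 i1491 i2012 i950 (k4 i944 d78 i348 i2046 (k1 d124 k0)))) (by decide +kernel)
def d134 : PP 8 4 T 0x1100000000000014100000000000000141000201450010001000000000004000000 := rS 0x15caa684ea7e311193cd5cee999cb5ef3f (k8 i3170 i3187 i3159 i3162 i3180 i3179 i3164 i3155 (k8 i1471 d48 d11 i1746 i2042 i1539 i1583 d32 k0)) (by decide +kernel)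
def d135 : PP 8 4 T 0x8001100000000000011000000000000000000001000048080001000000000004000000 := rS 0xe45208d6a57321f4fe742c8952677648d59f1539aa4de4d51b05a41f44a861a1d28084d66d06a150e9f4e8c51e020c05d2210132dcf71846a2d02702010c9445a6c1dded993cbe5af787ce67b339fc85b6e1 (k8 i3176 i3174 i3152 i3170 i3162 i3168 i3166 i3195 (k8 i3187 i3159 i3160 i3155 i3191 i3183 i3178 i3169 (k8 d127 d128 i2245 d29 i488 i1363 i1884 i1051 (k8 d48 d64 i801 d130 i746 d94 d102 d21 (k8 i180 i2778 i2724 i1746 d11 i2502 i3036 d133 (k8 i475 i1962 d132 i487 i1230 d41 i795 i2049 (k8 i1356 d90 i1194 i163 i51 i1320 i97 i1093 (k8 d3 i950 i944 d61 d78 i1477 i348 i605 (k8 i2046 i799 d107 d134 i1580 i1398 i185 i2030 (k2 d124 d60 k0)))))))))) (by decide +kernel)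
def d136 : PP 8 4 T 0x4001000000000000000000000010010000000000004020000209020000000156000000 := rS 0x529fcfa235ab904a742a15c6a33078c404a360b4a1b0790b6e5ee1 (k8 i3176 i3160 i3174 i3152 i3178 d41 d90 i1194 (k8 i163 i180 i2724 i2204 i2050 i1023 i1580 i1050 (k8 i1049 i348 d65 i1398 i185 i1541 i1668 d60 (k1 i2030 k0)))) (by decide +kernel)
def d137 : PP 8 4 T 0x1000000000000000201000000040000400000020008000001020000000116000000 := rS 0xb5119fd4a7d12a486895231d552a1010243e89 (k8 i2049 i1356 i1348 i180 i795 i97 i2740 i1123 (k8 i1100 i1122 i616 i349 i1361 i208 i800 i2055 (k2 i1369 i2030 k0))) (by decide +kernel)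
def d138 : PP 8 4 T 0x4001100000000000000100000010010000000000004040000209020000000156000000 := rS 0x32cae52e79fbae7703 (k8 i3194 i3167 i3181 i3170 i3179 i3156 i3158 d136 (k1 i2012 k0)) (by decide +kernel)
def d139 : PP 8 4 T 0x400000000000000101100000000000000000000000010000000050000100100201000000001554020000 := rS 0xd45636ad01aa57228d82d286bbe5ae774c860ed997cd5b6e1 (k8 i3176 i3174 i3164 i3160 i3191 i3178 i3152 i3180 (k8 i3179 i3159 i3183 d41 d90 i1194 i163 d13 (k4 d60 d66 i2030 i475 (k2 i1398 d63 (k1 i507 k0))))) (by decide +kernel)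
def d140 : PP 8 4 T 0x1100000000000010000000000000000000001000048080001000000000004000000 := rS 0x369ac1a551153cd3113e9fc4acc499dc6b162ec54e6a9379355a10132dcf71846a2d02596488582a36907d12a186a3c044021874a045380602e4a77cb5cf4d83cbe1ed99ccf6672770b6e42f7 (k8 i3187 i3152 i3174 i3176 i3155 i3162 i3168 i3166 (k8 i3191 i3195 i3160 i3178 i3169 i3179 i3159 i3183 (k8 d128 d102 d21 i488 d127 i487 i1230 i2245 (k8 d29 i180 i2778 d41 i795 i2049 i1356 d90 (k8 i163 i1194 d132 d137 i605 i1363 i1884 i1051 (k8 d48 d64 i801 d130 i746 i2875 i51 i1320 (k8 i97 i1093 d3 i35 d138 i944 d78 i1477 (k8 d135 i348 i799 d107 i690 i1831 d73 d139 (k4 i1538 i1570 i1963 i475 (k1 d63 k0)))))))))) (by decide +kernel)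
def d141 : PP 8 4 T 0x1000000000000000000000004000000000000020080000209000004000156000000 := rS 0x1c8a4119fe227d12ad4ec563ab2c9aa360b49430d74c860ed997cd5b6e1 (k8 i3176 i3174 i3164 i3160 i3191 i3178 i3152 i3180 (k8 d41 i795 d90 i1194 i163 i51 i2308 i1588 (k8 i489 i490 i1397 i349 i1361 d57 i1665 i1625 (k2 i2030 d13 (k1 d60 k0))))) (by decide +kernel)
def d142 : PP 8 4 T 0x400000000001001000000000000000000010000000004000040800000000001000000000004000000 := rS 0x4ac5e7eed75d35c2df (k8 i3175 i3176 i3169 i3181 i3182 i3170 d78 i1675 (k1 i2023 k0)) (by decide +kernel)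
def d143 : PP 8 4 T 0x1200000002000000001000014040000000000000000000001000000000004004540 := rS 0x6a959647 (k4 d81 d54 d60 d66 (k1 i2027 k0)) (by decide +kernel)
def d144 : PP 8 4 T 0x1000001001000010144000000000000140000000550000001000040000004020000 := rS 0x53d8ace36a753f1883c8646ef85cb5ef3f (k8 i3170 i3187 i3159 i3184 i3183 i3153 i3152 i3178 (k8 d48 d11 i1746 i476 i2042 i1793 d96 d30 k0)) (by decide +kernel)
def d145 : PP 8 4 T 0x1000000000000000000000000000000000001000008080001000400000004000000 := rS 0x334eecf881d62c251ab19ca23239a4ca6b8219d922161a150e10788996e7b4fa76308146a2d22ab05ab4660f04a3c6e3151b040ed20fa25427086874a0d101100864a228602eef74c860ed997cd65b3f7bc3e733d99c9db6e1 (k8 i3176 i3174 i3155 i3162 i3168 i3166 i3195 i3187 (k8 i3170 i3159 i3164 i3160 i3191 i3178 i3152 i3180 (k8 i3183 d102 d21 d127 d128 i2245 d29 i180 (k8 i1160 i487 i1230 d41 i488 i795 i2049 i1356 (k8 d90 d49 i1194 i163 i2724 i2725 i2778 i1348 (k8 i2204 i2050 i2875 i493 i2305 d94 i1884 i1051 (k8 i1363 d48 i1746 d11 d64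 i801 d130 d38 (k8 i746 i2502 i3036 d131 d132 d137 d141 d140 (k8 i431 d47 i1468 d81 i184 d143 d144 i412 (k8 i2240 d65 d124 d13 i950 d78 i690 i2046 k0)))))))))) (by decide +kernel)
def d146 : PP 8 4 T 0x1000000000000000000000000000000000002000008080001000000000004000000 := rS 0x102275ba5ce06f268dc0440219143017254be1ed99ccf66727 (k8 i3155 i3162 i3168 i3166 i3191 i3195 i3160 d128 (k8 d102 d21 d127 i2245 d29 i180 i2725 i51 (k4 i1320 i488 i3061 i1933 (k2 i1767 i1362 (k1 d130 k0))))) (by decide +kernel)
def d147 : PP 8 4 T 0x1000000000000000000000000000000000000000008080001000000000004000000 := rS 0x496ed04cc647481469e47aa717b483e09158091215509003b0d3810ca04a1491430174193d16f796c2dc6dd97b6e4ed999cf6730f (k8 i3195 i3166 i3168 i3162 i3191 i3155 i3174 i3160 (k8 i3192 i3177 i3184 i3159 i3187 i1884 i1351 i775 (k8 d102 d21 d127 i1806 d128 i487 i2245 i488 (k8 d41 i1230 d29 i795 i2227 i2049 i180 i772 (k8 i1348 i1356 d90 i161 i164 d88 d146 i1051 (k8 i1363 d145 i952 i1106 d48 i802 i1161 d129 k0)))))) (by decide +kernel)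
def d148 : PP 8 4 T 0x1001000000000000000000004000410000000500000005000001020000050044080108 := rS 0x7a1d5893df83f5489c872d93d35bed7 (k8 i3173 i3175 i3169 i3155 i3159 i21 i1798 i1085 (k4 i216 d40 i1197 i1200 (k2 i741 i1801 (k1 i2031 k0)))) (by decide +kernel)
def d149 : PP 8 4 T 0x1000000000000020000004000000000000100020005000001020800050006000000 := rS 0x5c3e540f43afd0429d36838909c22120087c04438aa84a2f1a6b7daf256cc2e5ef591cddef3d (k8 i3168 i3187 i3165 i3153 i3186 i3160 i3184 i3191 (k8 i3154 i3173 i3175 i3169 i177 i1358 i795 i1208 (k8 i21 i180 i183 i1038 i1161 i471 i1798 d18 (k8 d24 i1447 i335 d148 i1196 i1262 i1268 d40 (k2 i2031 i1084 (k1 i2089 k0)))))) (by decide +kernel)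
def d150 : PP 8 4 T 0x1000000000000000000004000000000000001020000080009000800000004000000 := rS 0x1101905a08d309bd0251318a63205458ac301748ce6531b7bcb65f0f6ccf6670b (k8 i3184 i3162 i3168 i3191 i3195 i3160 i3159 i3187 (k8 i3148 i3156 i3166 d94 i1155 d21 i388 i1884 (k8 i393 i952 i255 d147 i1358 i1810 i77 i1047 (k4 i1051 d48 d149 i1046 (k2 i1758 d26 (k1 i1154 k0)))))) (by decide +kernel)
def d151 : PP 8 4 T 0x1000000000000000000000000000000000000000000080005000800000004000000 := rS 0x841422a30824c2f81516180ba465f276ccc6673d87c0e5339 (k8 i3166 i3156 i3194 i3195 i3168 i3162 i3161 i3191 (k8 i3155 i3160 d94 i1155 d21 i1884 i393 i36 (k4 d6 i181 i794 i525 (k2 i1030 d29 (k1 i635 k0))))) (by decide +kernel)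
def d152 : PP 8 4 T 0x1000000000000000000000000000000000001020000080001000800000004000000 := rS 0x80d30d05b23494058ca2e73298dbde5b0b (k8 i3184 i3159 i3187 i3148 i3156 i3166 i1884 i952 (k8 i393 d151 i1051 d150 d48 i802 i2767 i2765 (k1 d26 k0))) (by decide +kernel)
def d153 : PP 8 4 T 0x10011000000000000000000000000000200040401004000000109000000000004000000 := rS 0x13dfab2543411a5398c9e96d76dc0def2d (k8 i3159 i3187 i3194 i3174 i3173 i3163 i3155 i3161 (k8 i567 i1051 d48 i1108 i1109 i420 i1429 d8 k0)) (by decide +kernel)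
def d154 : PP 8 4 T 0x10001000000000000000000000000000000000000000000080001110440000006000000 := rS 0xf0130e484299cc8def4185cbe4ed9 (k8 i3191 i3155 i3160 i3184 i3171 i3187 i3153 i3166 (k4 i1806 d29 i234 i705 (k2 d20 d38 k0))) (by decide +kernel)
def d155 : PP 8 4 T 0x1000000000000000000000000800000000000020000000001000100400004000000 := rS 0x112d38a8b6734d7fb7dc73d (k8 i3168 i3177 i3175 i3172 i3169 i3166 d70 i1208 (k2 i164 i282 (k1 d16 k0))) (by decide +kernel)
def d156 : PP 8 4 T 0x1400000000000001000000000000000008500000400000000000000000000001000000000004000000 := rS 0x2ee9f07 (k4 i3178 i1752 i1944 d87 k0) (by decide +kernel)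
def d157 : PP 8 4 T 0x1000000000000001200000000000080050000814400000000000000400000001404000000004151540 := rS 0x1774f3630d7f43522f4d2cb07a8d82f383cb642e1 (k8 i3176 i3152 i3159 i3178 i3185 i1194 i163 d5 (k8 d54 i1468 i1413 i2027 i1211 i1451 d156 i2029 (k2 i1485 i1681 (k1 d87 k0)))) (by decide +kernel)
def d158 : PP 8 4 T 0x400000000000000001100000000000000054000000200200210000000400000001204440000046101020 := rS 0x303a99e20682b9653e0e2aa7446bf728cd2647128e4273393cd5cee9 (k8 i3180 i3179 i3164 i3155 i3162 i2107 i1813 i2209 (k8 i2106 i1364 i2111 d60 i1451 i248 i1943 d118 (k8 d85 i1113 i604 i502 d122 d32 i1623 i1471 (k2 d119 i1041 k0)))) (by decide +kernel)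
def d159 : PP 8 4 T 0x400000000000011000000000000000000000000000000000010020000000001000002000016000000 := rS 0x88ad4fe74101ddb733 (k8 i3162 i3174 i1508 i1042 i1041 i799 i727 i1471 (k1 d93 k0)) (by decide +kernel)
def d160 : PP 8 4 T 0x400000000000000011000000000000080154400814100200200000020400080441205440000016108020 := rS 0x5a9651e23491fc68958bb2ccc313ed0d72ba679550abd340cdca5736c54a225538e4262f31a8d829f9fbb5d74d70b7e433d (k8 i3168 i3152 i3175 i3176 i3169 i3181 i3182 i3170 (k8 i1113 i1194 i163 d147 i316 i2107 i1813 d155 (k8 i2209 i1358 i1208 i668 i502 d37 i285 d122 (k8 i1414 i1812 d118 i1833 i2036 i1143 d58 i1599 (k8 d159 d119 i545 d86 i1674 i542 i800 i2023 (k4 i2125 i1131 i604 i1369 (k1 i2037 k0))))))) (by decide +kernel)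
def d161 : PP 8 4 T 0x1100000000000000054000000000000004000000000095001000000055104000000 := rS 0x44198e973cd64eef (k8 i3183 i3155 i3164 i3179 i3180 d115 d32 i690 k0) (by decide +kernel)
def d162 : PP 8 4 T 0x1100000000000000055000014140000000000000000080121600000045004144500 := rS 0x15caa21651b1c8594381c1a29 (k8 i1805 i2346 i479 d105 i603 d85 d117 i2027 (k4 d25 i1697 i505 d161 k0)) (by decide +kernel)
def d163 : PP 8 4 T 0x400000000000000011100000000000000054000800000200010000020400080061205440044016100000 := rS 0xbe340394a5146025920d2991c4a1356aac16fc549843ea360b4a2a2d17810c7216fbfe7b4d9cb85af2b (k8 i3158 i3173 i3176 i3166 i3169 i3168 i3172 i3175 (k8 i3152 d147 i525 i316 d70 i1208 d16 i1194 (k8 i163 i1356 i1279 i2388 d40 i417 d72 i1199 (k8 i2107 i2209 i2106 i798 i2346 i2411 i223 i794 (k4 i1358 d158 d162 d122 (k2 d160 i1567 k0)))))) (by decide +kernel)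
def d164 : PP 8 4 T 0x11000000001000000054081014004000601000020004004441000444000016000020 := rS 0x3f9652acb330c4fb43288e42655 (k8 d118 i2107 i1813 i1358 d58 i1599 d159 d119 (k4 i545 i1674 i544 i800 (k1 i2037 k0))) (by decide +kernel)
def d165 : PP 8 4 T 0x1100000000000000004008800000000010000020000080021200400000004000000 := rS 0x958b8d0629d3ed0d26a45da1466e52bae56a8f0733d3ecd5faf4db4e86a607aa1159ad9253238955aab7e2a4c24f638fc2ac50e89de1191b9e94e39098602e8c51b05a515168bc08639fbb5d74d70b7e0ef390bfe7b3997c3db33385d05ef237db5e56e3 (k8 i3177 i3158 i3173 i3189 i3153 i3187 i3171 i3184 (k8 i3162 i3191 i3195 i3160 i3166 i3168 i3172 i3152 (k8 i3185 i3178 i3175 i3176 i3169 i3181 i3182 i3170 (k8 d147 i525 i316 d70 i1208 d16 i1194 i163 (k8 i794 i2468 d21 i2107 i1813 d155 i801 i1776 (k8 d64 d20 d38 i721 d76 d35 d27 i179 (k8 i2548 i1279 i2388 d40 d72 i1199 i2209 i2106 (k8 i798 i2411 i3132 i811 i795 i1784 i802 i682 (k8 d163 i1485 i1756 d59 d73 d89 d96 d117 (k8 i878 i886 i1143 i502 d37 i285 i1812 d164 (k8 i2036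 i1364 i1211 i1326 i1943 d159 i2035 d44 (k2 i1098 i2023 k0)))))))))))) (by decide +kernel)
def d166 : PP 8 4 T 0x1000000000000000000008000000000010000020000080021200400000004010000 := rS 0xfa7b94d2c282b485b45358348ead55b1d8ab2538bc2a3f780e632370394562981ea84120b7e2a62a612798d5e8c3d04c08180bc1ddf39a6bfdbf2f87b667b336bc2e82f791bee56db (k8 i3174 i3158 i3189 i3153 i3187 i3171 i3184 i3173 (k8 i3162 i3168 i3191 i3195 i3160 i3175 i3172 i3169 (k8 i3166 i3183 i3178 i2468 d21 i525 i2107 i801 (k8 i794 i3105 d147 i2548 i1279 i1208 i2388 d40 (k8 i417 i223 i795 i1784 i802 i1826 i1358 i479 (k8 i1776 d64 i1813 d20 d27 d35 i316 d155 (k8 i2028 d76 i179 d72 i1199 i2106 i2346 i3132 (k8 i1749 d70 d16 d157 d165 i1828 i172 i1752 (k2 d122 d85 k0))))))))) (by decide +kernel)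
def d167 : PP 8 4 T 0x401000000000000001000000000000000000140000200000000000000000000001004000000004000000 := rS 0x2fe8707 (k4 i3178 i1211 i1451 d87 k0) (by decide +kernel)
def d168 : PP 8 4 T 0x1000000000001001000000000000000008000814400000020000004400000541204100110004501420 := rS 0x2b08060c052af597042c83caaa35d88e9ee5348cc12072384c3c1883bbe5f0f6cce67b33 (k8 i3162 i3168 i3166 i3191 i3195 i3160 i3183 i3178 (k8 d21 i230 i2107 i2106 i479 i223 i290 i1828 (k8 i172 i1752 i250 i1944 i328 d118 d122 i604 (k8 d85 d54 i1413 d167 i2027 i1345 i1306 d123 (k1 i1497 k0))))) (by decide +kernel)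
def d169 : PP 8 4 T 0x1001000000000000000402000014000000020000004000011541000000100004405020 := rS 0x15840300f0625f0f6cce67b33 (k8 i3162 i3168 i3166 i3191 i3195 i3160 d21 i230 (k4 i1345 i1306 d123 i1497 k0)) (by decide +kernel)
def d170 : PP 8 4 T 0x401000000000000001000000000000000000140000480000000000000000000001000000000004000000 := rS 0x50d7eff (k4 i3172 i1720 i1479 d87 k0) (by decide +kernel)
def d171 : PP 8 4 T 0x1000000000000000454000000140000020000020000080061200000004004504000 := rS 0x2ab00d859378b50e09039441a532389426040c2b5560b7e2a62a6131bfdaf3d6fd36572f87b667333 (k8 i3162 i3166 i3191 i3195 i3160 i3158 i3169 i3175 (k8 i3168 i3173 i3172 d147 i1279 i1208 i2388 d40 (k8 i417 d72 i1199 d21 i525 i2107 i2209 i2106 (k8 i798 i2346 i1358 i479 i223 d105 d70 i77 (k4 i603 d117 i2027 i1697 (k1 d169 k0)))))) (by decide +kernel)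
def d172 : PP 8 4 T 0x1000000000000000002000000000000020000000000000001000000000006000000 := rS 0x7449080601e (k4 i230 i1345 i1306 i1344 (k2 i1041 i2930 k0)) (by decide +kernel)
def d173 : PP 8 4 T 0x1000000000000000054800000140000020000020400080061200000004004500000 := rS 0x3d974f34ab5f8a98a984c72b6bcf5bf4d (k8 i3169 i3175 i3168 i3173 i3158 d147 i1279 i1208 (k8 i2388 d40 i1199 i1567 d59 i1454 d122 d171 k0)) (by decide +kernel)
def d174 : PP 8 4 T 0x1000000000000000000208000000000000000020000000001000000000004000000 := rS 0xfccc (k2 i1988 i1989 (k1 i2558 k0)) (by decide +kernel)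
def d175 : PP 8 4 T 0x11000000000000000004100000140200020008020000080061201400000014400000 := rS 0x428cdca57478399a6d5d27d7e6b6494c8e2556aadf8a98a9858e3f0a89d8af08c8dd4e3909a305e0431b056a1e0c4be1ed99ccf6670ba0bde46fb6bb7e9b2b (k8 i3158 i3169 i3175 i3173 i3189 i3153 i3187 i3171 (k8 i3184 i3162 i3168 i3166 i3191 i3195 i3160 d21 (k8 i230 i1395 d172 d147 i525 i316 i794 i2107 (k8 i1813 d155 i1776 d64 d20 d76 d38 d35 (k8 d27 i179 i1279 i1208 i2388 d40 d72 i1199 (k8 i2209 i2106 i798 i2411 i3132 d173 i1113 i2036 (k8 i1681 i1949 d117 i878 i502 d37 i285 i1812 (k1 d164 k0)))))))) (by decide +kernel)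
def d176 : PP 8 4 T 0x1000000000000000000000000080000020000000000000001000000000006000000 := rS 0x7719089281e (k4 i230 i281 i240 i280 (k2 i3003 i233 k0)) (by decide +kernel)
def d177 : PP 8 4 T 0x1000000000000000000008000000000000001020000080001000000000004000000 := rS 0xaeb52c838467f1a2562ecb330c53e553eafe86e519a9146bd6187910b2538758a270a8fd8ef01c8a416ab5684c4a2f58bf0a60d0201d520922184d6af0893d18412612e32370c5147a7a4c05d070d45c54dea116944c63b83c85f73991bde830b7fcae9adf6bcc6673d87c0e53276ccbdb6e3 (k8 i3177 i3174 i3160 i3191 i3155 i3156 i3194 i3195 (k8 i3168 i3162 i3161 i3173 i3175 i3169 i3158 i3172 (k8 i3184 i3171 i3187 i3153 i3166 i3189 i3152 i3178 (k8 d152 d147 i1358 d70 i795 i77 i1208 i1884 (k8 i682 i151 i2468 i802 i801 i1784 i1749 d21 (k8 i1776 d64 d153 d6 i181 i794 i2548 i1758 (k8 i3105 i3132 i1279 d154 i223 i2388 i479 i525 (k8 i2346 i798 d40 i1826 i316 i2209 i2107 i1199 (k8 d72 i417 i1805 i1813 d20 i179 d27 d35 (k8 d38 d76 i721 d155 i2028 d166 i230 d168 (k8 d174 d176 d175 i2111 d60 i1211 i1451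 i1326 (k8 d118 i1113 d159 d119 i545 d86 i1674 d65 (k4 i800 i2125 i354 i604 (k2 i1396 i502 (k1 i2037 k0))))))))))))))) (by decide +kernel)
def d178 : PP 8 4 T 0x1000000000000000000000000400000000001020000080021001000000004000000 := rS 0xb07e02cc215443c07213048bc7eb30201e88444da5d33191b86022a941a30f41720c545a51318ed5e535bcb69adf6bce646f7a0c2de7339eb661f2f (k8 i3160 i3195 i3191 i3168 i3162 i3185 i3184 i3171 (k8 i3187 i3153 i3166 i3173 i3175 i3169 i3159 d177 (k8 i832 i1922 d152 d147 i1358 d70 i1208 i787 (k8 i2465 i793 i794 i2553 i574 i1758 d21 i1776 (k8 d64 i1940 i1818 i1447 d154 d62 i479 i525 (k8 i1217 i1216 i316 i2105 i2107 i1813 d20 i2034 (k4 d35 i1277 i277 d40 (k2 i2028 i1200 k0)))))))) (by decide +kernel)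
def d179 : PP 8 4 T 0x1000000000000000000000000000000000008000000000001200000000004010002 := rS 0x3c42615130a46e1921859e72385c965b1b (k8 i3148 i3159 i3154 i3184 i3153 i3185 i478 i41 (k8 i1038 i1776 i1890 i713 i638 i226 d38 d4 k0)) (by decide +kernel)
def d180 : PP 8 4 T 0x1001000000000000005000400140401400404005500000080001005000000204150540 := rS 0x998ca792f4542ac8529131b7e9af3 (k8 i3185 i3169 i3175 d147 d94 i1805 i2028 i1504 (k4 i1217 i1373 i2046 d11 (k2 i1113 d62 k0))) (by decide +kernel)
def d181 : PP 8 4 T 0x1000000000000000000000000000000002000000000080001000000000204000000 := rS 0xac68 (k2 i1811 i1812 (k1 i2929 k0)) (by decide +kernel)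
def d182 : PP 8 4 T 0x1000000000000000004100000200000000001020000080001200000000004000000 := rS 0x90a42b121bc653c853d8fd36834eb3d624f8b3351efc439de22751034d6823048d4381f0b06416000384406432ea462a2d2898d5eb763afc0a4a26a9c7b2f87cf5eb417bcde66ef96c9e6ae97fb5ddb3994c6e0731 (k8 i3161 i3194 i3148 i3156 i3166 i3182 i3173 i3172 (k8 i3180 i3164 i3155 i3159 i3183 i3162 i3165 i3187 (k8 i3171 i3186 i3168 i3195 i3160 i1385 i367 d178 (k8 d6 i486 i1452 i415 d177 i1922 d147 i1358 (k8 d70 i1208 d94 i35 i41 d101 i483 i479 (k8 d26 i560 i1038 i478 i1357 i709 i2775 i222 (k8 i248 i1381 d42 i1382 i971 i689 i2470 i934 (k8 d33 i726 i730 d19 i1197 i1200 i950 i1478 (k8 i775 i1447 i1421 d179 d181 i2046 d11 i997 (k4 i2019 i638 i1737 d180 (k1 i226 k0))))))))))) (by decide +kernel)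
def d183 : PP 8 4 T 0x1000000000000000000000000200000000000020000000009000000000024400000 := rS 0x80c6894208b8408969ad22a2d02ce6531ba6bfdbf3d (k8 i3168 i3175 i3172 i3169 i3148 i3156 i3166 i486 (k8 d70 i1208 i1381 d42 i1343 i1382 d16 i2498 (k4 i366 i365 i1046 i2759 (k1 d26 k0)))) (by decide +kernel)
def d184 : PP 8 4 T 0x1000000000000000044000000000000000001000000080009100404000204000001 := rS 0x310d83567a18f69f4ec5a0a658c324a80c68854624720008868b488151a39148dc301766a151e672bc1ddf3f95ca5ceeb9dc0e4ef796cbdb3398dc3e7b33 (k8 i3162 i3168 i3195 i3148 i3166 i3191 i3160 i3159 (k8 i3187 i3155 i3194 i3167 i3181 i3179 i3156 i3158 (k8 i3170 i3183 i3178 i1498 i489 i1133 d181 i730 (k8 i967 d21 i1043 i1806 i234 i1051 i486 d94 (k8 i1884 i437 d26 d29 i1530 i2724 i380 i1160 (k8 i744 i743 i1123 d48 i1491 i1465 i2012 i1746 (k8 d11 d64 d133 i950 i944 i778 i2035 i1522 k0))))))) (by decide +kernel)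
def d185 : PP 8 4 T 0x8001000001001000015044000000005000505005000050094001000000000004080000 := rS 0x14e36314d3042ac44e87764a2d226b79c1e432377c2e5b279ab9dd333 (k8 i3162 i3180 i3179 i3164 i3155 i3159 i3184 i3183 (k8 i3153 i3152 i3178 i3185 i1962 d94 i1884 d61 (k8 d78 i2046 i1471 i1539 d32 i1468 i1803 i2042 (k2 d30 i1485 k0)))) (by decide +kernel)
def d186 : PP 8 4 T 0x1000001001000015044000000005000505005000050094001000014000006080000 := rS 0xa71b18a69823246117459ade70790c8ddf0b96cae52e79fbae7703 (k8 i3194 i3167 i3181 i3170 i3179 i3156 i3158 i3159 (k8 i3184 i3183 i3153 i3152 i3178 i3185 i1962 i1884 (k8 d185 d65 i2717 i2012 i1468 i1803 i2042 d30 (k1 i1485 k0)))) (by decide +kernel)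
def d187 : PP 8 4 T 0x1000001001000011044000000005000505005000050094001000014000006080000 := rS 0x22e31673be4307 (k4 i3178 i3152 i3183 d186 (k2 i989 i950 (k1 d65 k0))) (by decide +kernel)
def d188 : PP 8 4 T 0x1000000000000000004100000200000000001020000080001000000000204000000 := rS 0xba491fe2e951a1f44a7b68a7d3af12cc602483438981e413290800b933a3d0ab56695e2a812898c76b772d0d8ebf468dc66180e85c8a4a26a9c7b3f76bae9ae16fc9e530387cf6673197b667307 (k8 i3178 i3166 i3191 i3160 i3161 i3162 i3168 i3195 (k8 i3194 i3156 i3155 i3175 i3176 i3169 i3181 i3182 (k8 i3170 i1385 i367 d178 d6 d182 i967 d183 (k8 d21 i2111 i1043 i1051 i1452 i415 i1211 d60 (k8 d177 d152 d147 i1358 i1810 i1208 i1498 i730 (k8 i727 d181 i1133 i489 i1407 d184 i1038 i2712 (k8 i21 i2404 i705 i2462 i2461 i706 d154 i724 (k8 d38 i1746 d11 d34 d64 i858 i1326 d187 (k4 i2759 d44 i800 i2023 (k2 i2047 i1639 k0)))))))))) (by decide +kernel)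
def d189 : PP 8 4 T 0x1000000000000000000000000000000800000000000000009080000000004000000 := rS 0x19056 (k2 i1133 i1132 (k1 i2251 k0)) (by decide +kernel)
def d190 : PP 8 4 T 0x1000000000000000000000000410000010405020000000001005000054014000000 := rS 0x2dd021f (k4 i1356 i1363 i801 i2031 k0) (by decide +kernel)
def d191 : PP 8 4 T 0x400000000000001000000000000002000504000410440010000040000000001005540154014000000 := rS 0x43100d30f8b933445dd3d073797b6dbadf (k8 i3175 i3192 i3174 i3160 i3165 i895 d73 i1948 (k8 d87 i1750 i2034 i239 i161 i2031 d90 i1205 k0)) (by decide +kernel)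
def d192 : PP 8 4 T 0x1000000000000006144100000211000150000040150000001020160140004100000 := rS 0x1fa51552d1744fa2c356c3f7809d8a11579b136d14b8ee309f5fa9dcb43298a4474f0e884d6cb8245c7b3193d2daedb71c1e432377c2e9b4175bde7f039db9e532b (k8 i3158 i3156 i3179 i3167 i3194 i3170 i3187 i3181 (k8 i3171 i3169 i3184 i3183 i3153 i3152 i3178 i3177 (k8 i3174 i3173 i3163 i3155 i3161 i1385 d44 i2012 (k8 d54 i431 i2499 i1382 d73 i2056 i1969 i826 (k8 i1211 d60 i367 i1452 i1184 d7 i952 i1745 (k8 d34 d84 i2042 i594 i476 i1522 i746 d30 (k8 d27 d191 i682 i1749 i762 d167 i1949 i1681 (k2 i1397 d72 (k1 d8 k0))))))))) (by decide +kernel)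
def d193 : PP 8 4 T 0x1000000000000002008108000210000000000000000000001004000000014000000 := rS 0x7c46d35a29974bfa1d3e1b4597b6dc707 (k8 i3178 i3177 i3174 i3160 i1749 i682 d73 i1211 (k8 i1451 d167 d156 i1949 i164 i2128 i1396 d90 k0)) (by decide +kernel)
def d194 : PP 8 4 T 0x1000000000000000000010000200014000020400000000001420020000006000000 := rS 0x1809ecb55ab5926533964a60f01129426354c522f4381b7dc34d75c1ddb3f (k8 i3170 i3182 i3178 i3181 i3169 i3176 i3175 i3194 (k8 i1211 d44 i2023 i937 d3 i2215 i181 i180 (k8 i2204 i826 i867 i490 i2729 i1123 i1286 i1596 (k4 i1328 i1273 i2040 i1048 k0)))) (by decide +kernel)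
def d195 : PP 8 4 T 0x1000000000000000000000000000000000000000000000009010000002006000000 := rS 0xb00c21000063402ce6531b (k8 i3148 i3156 i3166 i2209 i348 i1046 d26 i1038 (k2 i1115 i858 (k1 i2274 k0))) (by decide +kernel)
def d196 : PP 8 4 T 0x1000000000000000000000000000000000000000000000001010020002006000000 := rS 0x414ce652c15c1e4222b24984b8b88c0a213a0c6572973cfdd73b81cbe4ed998cce7b0f (k8 i3195 i3168 i3162 i3161 i3191 i3155 i3160 i3194 (k8 i3167 i3181 i3170 i3179 i3156 i3158 i17 i349 (k8 i1499 i2209 i47 d44 d195 d6 i1063 i525 (k8 d29 i596 i442 i858 i1023 i1587 d92 i2012 k0)))) (by decide +kernel)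
def d197 : PP 8 4 T 0x1000000000000000000000400000000000000000000000001008000000004110000 := rS 0x9bc5e72385c965b1b (k8 i3148 i3159 i3154 i3184 i3153 i3185 d27 i217 (k1 d4 k0)) (by decide +kernel)
def d198 : PP 8 4 T 0x1000000000000000000000000000000000000000000500001000000080004100000 := rS 0x44cb6f593cde5b31 (k8 i3161 i3159 i3165 i3155 i3186 i772 d71 d17 k0) (by decide +kernel)
def d199 : PP 8 4 T 0x1000000000000000000004000410001010400040000500009005140154054000000 := rS 0x4512cfd548bc76b02818cc2d2781689f0d4dc4d3280a0d35bed796b75ef2f6db6616f591cde4f31 (k8 i3161 i3155 i3165 i3153 i3186 i3184 i3191 i3174 (k8 i3160 i3187 i3192 i3159 i3173 i3175 i3169 i3171 (k8 i2031 i1864 d46 i1337 i1205 i1276 d17 d18 (k8 d90 i1048 d147 i1810 i1809 i177 i161 i496 (k4 i1200 i2034 d40 i1210 k0))))) (by decide +kernel)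
def d200 : PP 8 4 T 0x1000000000000000400010005000014000000000055000001400000000004000088 := rS 0x15ac9 (k2 i1123 i1226 (k1 i2040 k0)) (by decide +kernel)
def d201 : PP 8 4 T 0x101000000000000000400010005000014400010000055011001000000000004000088 := rS 0xc95695a0a4693cd5cee9 (k8 i3180 i3179 i3164 i3155 d200 d81 d32 i1581 (k2 i504 i2040 k0)) (by decide +kernel)
def d202 : PP 8 4 T 0x400000000000010001000000000000004000020000001400000000000000000001000000000004000000 := rS 0x45d3f4175bde7eef (k8 i3183 i3170 i3187 i3181 i3171 i1189 d43 d7 k0) (by decide +kernel)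
def d203 : PP 8 4 T 0x1000000000000000000000000000000000000000040000001000000000804002001 := rS 0x1349656214c6673d87c0e5327 (k8 i3155 i3156 i3194 i3195 i3168 i3162 i3161 i1570 (k4 i1569 i437 i529 d6 k0)) (by decide +kernel)
def d204 : PP 8 4 T 0x1001000000000000000000000080000000000000000001401100000000204000080 := rS 0x8693ca27e208726327a5b5db6e1 (k8 i3176 i3174 i3173 i3163 i3155 i3161 i1650 i743 (k4 i1649 i1230 i1222 i681 (k1 d8 k0))) (by decide +kernel)
def d205 : PP 8 4 T 0x21000000000000000000011000000014400010550000000001000000000004000000 := rS 0x379fe66e1 (k4 i3176 i3162 i681 i1203 (k1 i2044 k0)) (by decide +kernel)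
def d206 : PP 8 4 T 0x1000000000000040000010008010014000000050040001001000001100004000088 := rS 0xfe6f0e4356b10109d43e233bc591e3512b94faa20614c02450c05dfa3397b6ddae990c1db33587ce67b33 (k8 i3162 i3168 i3166 i3195 i3164 i3191 i3178 i3152 (k8 i3180 i3182 i3174 i3160 i193 d72 i998 d21 (k8 d101 i23 i454 i457 i458 i1596 d66 i324 (k8 i327 i1130 d65 d78 d203 i240 d124 d204 (k4 d13 i689 d205 d90 (k2 i1231 i719 (k1 i2044 k0))))))) (by decide +kernel)
def d207 : PP 8 4 T 0x1000001001000010140000000000000040000000550000001000040000004020000 := rS 0x11ac3 (k2 i1952 i1759 (k1 d144 k0)) (by decide +kernel)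
def d208 : PP 8 4 T 0x20001000000001000010100000000400140010000000550000081021060500006000000 := rS 0x82892c84e1114bc47cc715a6d163b1c855b30b97bd64737 (k8 i3165 i3153 i3186 i3160 i3184 i3191 i2227 i2051 (k8 i952 d52 d84 i387 i412 i2034 d27 i2059 (k4 d207 i746 d197 d18 (k2 i1429 d24 k0)))) (by decide +kernel)
def d209 : PP 8 4 T 0x10001000000000000010000000000000000000000000000000011008000000006000008 := rS 0x113138acb85b3ca291a3a14bc46e390a90094d985cbdeb239bcc5ef2d9cd064f2981c3e7b33 (k8 i3162 i3168 i3195 i3194 i3156 i3155 i3171 i3166 (k8 i3159 i3187 i3161 i3165 i3153 i3186 i3160 i3184 (k8 i3191 d6 i1046 i2227 i2051 i2725 d27 i2059 (k8 d20 i1030 d48 i1854 i1884 i491 i388 i745 (k2 i1738 d18 k0))))) (by decide +kernel)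
def d210 : PP 8 4 T 0x10001000001000000010000000000000001000000000000000009020040000006000000 := rS 0x8989c565c2d9e5148d148e89a390ab66172f7ac8e6f317bcb67341 (k8 i3171 i3166 i3159 i3187 i3161 i3165 i3153 i3186 (k8 i3160 i3184 i3191 i2227 i2051 i51 d20 i255 (k8 i1030 d48 i1854 i1884 i491 i388 i745 i1738 (k1 d18 k0)))) (by decide +kernel)
def d211 : PP 8 4 T 0x1000000000000000000000001000000000000020000000091000000000004000000 := rS 0x618a98dfb4d6fb5e7b27 (k8 i3155 i3168 i3173 i3175 i3169 i1197 i1351 i1208 (k2 i1280 d40 k0)) (by decide +kernel)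
def d212 : PP 8 4 T 0x1001000000000000000000004001010000010008000000000089005000554044000000 := rS 0x25d006e0ea9cc0d231bf5067126b8e9adf6bce5ff27 (k8 i3155 i3172 i3166 i3173 i3175 i3169 i3177 i51 (k8 d211 i815 i1197 i1351 d16 d40 i164 d42 (k4 i1047 i2031 i2835 i1893 k0))) (by decide +kernel)
def d213 : PP 8 4 T 0x1000000000000020000000000010000000400000002400009000000000044000008 := rS 0x9c7eb7148ac22b02e9e402731ba447215448602e532029c7ad286874dc2d6dcbe66e387b66733d (k8 i3168 i3166 i3191 i3195 i3177 i3162 i3160 i3174 (k8 i2723 i1047 i1231 i1203 d90 d88 i164 i1046 (k8 i826 i998 d21 i2049 i2227 i2051 i2800 i2725 (k8 i2758 i23 i2746 i512 i1165 i471 i388 i187 (k4 i1824 i1294 i746 d199 k0))))) (by decide +kernel)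
def d214 : PP 8 4 T 0x1000000000000000200000000010000000000000002000009000020000044000008 := rS 0x3f8854a7d5a89558465c1d4301721804a64051b05a50d0e9b85a2347b2ccb216dcbe66e187b66733d (k8 i3168 i3166 i3191 i3195 i3176 i3162 i3160 i3174 (k8 i3152 i2729 i1392 i2778 i247 i2723 i1047 i1231 (k8 i1203 d90 i1194 i163 i1046 i826 i23 i437 (k8 i998 d21 i2740 i1126 i1123 i1127 i349 i1400 (k4 i1330 i209 i1530 i1556 (k1 i2030 k0)))))) (by decide +kernel)
def d215 : PP 8 4 T 0x20001000000001000010100000000400140000000000150000081021060500006000000 := rS 0x35411131777cae52e79fbae7703 (k8 i3194 i3167 i3181 i3170 i3179 i3156 i3158 i3183 (k4 d44 i2049 i2012 d208 (k1 i431 k0))) (by decide +kernel)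
def d216 : PP 8 4 T 0x20001000000001000010000000000000000000000000002000089000020400004000008 := rS 0x2222112958ea663491d9223329351e101f26d4e891c8dc763d69435421f228745a994baccdc15200602ee990c1db32f9ac3e733d99b6e16e3 (k8 i3177 i3184 i3174 i3162 i3168 i3166 i3195 i3164 (k8 i3160 i3191 i3178 i3152 i3180 i998 d21 i1046 (k8 i2227 i1047 i2914 i2835 i2728 i2723 i1231 d101 (k8 i1270 i310 i1203 d90 d88 i952 i2725 i2051 (k8 i2049 i164 d84 i2034 d197 i2778 i51 i2729 (k8 i247 d214 i207 i1764 d215 i1588 i489 i349 (k2 i1498 d57 (k1 d13 k0)))))))) (by decide +kernel)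
def d217 : PP 8 4 T 0x1000001001000010100000080200000040000000550000001000040000004020000 := rS 0x18cbd (k2 i1986 d207 (k1 i415 k0)) (by decide +kernel)
def d218 : PP 8 4 T 0x20001000000001000010000000000000000000000000002000089000000400004000008 := rS 0xbc63aa8186d829a8ca693a91d5a23a1a9196675cc584ac91a8c4660f4aa4d46c145bc420aea2bf5623e4da9d12391b8ec7ad286a843e450e8b532970a9003017599b9aeed73bbe0f2197c3db3399eccdb70b71c9e5ae1 (k8 i3176 i3159 i3155 i3177 i3184 i3174 i3162 i3168 (k8 i3166 i3191 i3195 i3160 i3152 i3178 i3183 i3179 (k8 i3182 i3173 i1047 i2914 i998 d21 i1046 i2227 (k8 i2835 i2728 i2723 i1231 d101 i1270 i310 i1203 (k8 d90 d88 i952 i2725 i2051 i2049 i164 d84 (k8 i2034 i1294 i1197 i1216 d14 d197 d27 d52 (k8 i1194 i163 i2834 i2727 i2204 i2050 i2724 d216 (k8 i1122 i348 d65 d43 d86 i1391 i2033 i1211 (k8 i2056 i1286 i209 d124 i1927 i1049 d217 i431 (k4 i147 d85 d31 i1687 (k2 i586 i1412 k0))))))))))) (by decide +kernel)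
def d219 : PP 8 4 T 0x400400000000000001000000000000000000440000100000000000000000000001008000000004000000 := rS 0x2f68b0b (k4 i3184 i1216 i1411 d87 k0) (by decide +kernel)
def d220 : PP 8 4 T 0x400000000000020001000000002000004000010000040004010000000000000001000145500004000000 := rS 0x5ed15303f1eb497f438aaed4e944ba6d82a5630ed3a3561b153edf9cd35fee177cfe1747 (k8 i3151 i3184 i3170 i3183 i3176 i3172 i3169 i3166 (k8 i3175 d11 d75 i172 d15 i1746 i952 i2035 (k8 d60 i1462 d84 i1745 i2033 i336 i1679 i941 (k8 i1482 i1725 d16 d88 d219 i2034 i1750 i1990 (k1 d87 k0))))) (by decide +kernel)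
def d221 : PP 8 4 T 0x1000000000000000100000000084000000000000400000009008000000004001008 := rS 0x2dcdf0c0ea0cf31266a1e22762b1999e654c9c6091442a04da8d178acd2104d9ed163b4e87c2b18168dc807326b4de2baa7b19a21350a445297448602ee399cbdb73d77cb5cf39a6bfdbef391c2e4b1b9fc3db2e1 (k8 i3176 i3191 i3195 i3170 i3148 i3154 i3184 i3153 (k8 i3185 i3175 i3172 i3169 i3166 i3179 i3159 i3183 (k8 i3168 i3174 i3160 i3162 i3177 i998 d21 d176 (k8 i1371 i2133 i1169 i2233 i2090 i1161 i406 i1484 (k8 i407 d27 i163 i51 i2758 i1046 i2725 i2723 (k8 d209 i2227 i2053 i1746 i952 d52 d64 d84 (k8 d4 i1562 i387 i404 i1759 i475 i1333 i1602 (k8 d16 d63 i1208 i942 d47 i1950 i2042 i489 (k8 i490 d57 i1705 i809 d97 i1739 d24 i1421 (k4 d90 i1203 i682 i2045 k0)))))))))) (by decide +kernel)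
def d222 : PP 8 4 T 0x20001000001000000004180000000004000400000000400145001000040000004041008 := rS 0x1de22758bb30cc872c99625042f9b51a69082142a2b458ed3b4f688602f0f9accdd33d77bd64f3796cc5cef391c2e4b1b9fcbdb339 (k8 i3166 i3191 i3160 i3170 i3148 i3154 i3184 i3153 (k8 i3185 i3179 i3161 i3159 i3165 i3155 i3186 i3183 (k8 i3168 i3180 i3162 i3164 i3195 i998 d21 i1161 (k8 i1484 i1746 i952 d52 i387 i379 i1602 d4 (k8 i1562 i1759 i475 i470 d63 d17 d47 d92 (k8 d51 i2042 i2039 d86 i1587 i690 i810 d19 k0)))))) (by decide +kernel)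
def d223 : PP 8 4 T 0x1000000000000000000000000080000000000002000000001008000000004000000 := rS 0x608bf41609592a95e476984d74bf53bfdaee1 (k8 i3176 i3173 i3172 i140 i1720 i407 i2090 i163 (k8 i1696 i594 i1681 i1682 i200 i401 d72 i2286 (k2 d33 i1420 k0))) (by decide +kernel)
def d224 : PP 8 4 T 0x1000000000000000000000000000000000000000000000001080000000004250010 := rS 0x8c9e4f63a1bb44040189a44985e1312e1f3d7ad05ef3799c2e73298dcc60727 (k8 i3155 i3194 i3161 i3148 i3156 i3166 i3184 i3162 (k8 i3165 i3187 i3171 i3186 i3168 i3195 i2428 i636 (k8 i635 d6 i2487 d10 d69 d26 i1161 i1005 (k4 i379 i814 i1767 i952 (k1 i2019 k0))))) (by decide +kernel)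
def d225 : PP 8 4 T 0x1000000000000000000000000000000000000000000000001020000000004200000 := rS 0xb8665f0f6cce67b33 (k8 i3162 i3168 i3166 i3191 i3195 i3160 i2227 i739 (k1 d21 k0)) (by decide +kernel)
def d226 : PP 8 4 T 0x1000000000000000080000000000000000000000200000001080000000004000000 := rS 0x21d3e7b3a9dd9e9d479e4aad10b0c8c81948a159a4c021784c8b1596c966b099b48c110a4c6673d87c0e5327 (k8 i3155 i3156 i3194 i3195 i3168 i3162 i3161 i1562 (k8 i136 i1561 i40 i219 i39 i2428 i706 i897 (k8 i2374 i636 i635 d224 d6 i1830 i1602 i2487 (k8 i2106 i265 i264 i518 i2434 i2464 i1768 i1024 (k8 i1552 i1029 i1547 i1586 i2471 i1566 i1563 i2046 k0))))) (by decide +kernel)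
def d227 : PP 8 4 T 0x1000000000000000000000000000000000000000000000001a00000000004000020 := rS 0x9a4b0ccc6673d87c0e5327 (k8 i3155 i3156 i3194 i3195 i3168 i3162 i3161 i2106 (k2 i486 i526 (k1 d6 k0))) (by decide +kernel)
def d228 : PP 8 4 T 0x1000000000000000080000000000000000000000200000001000000000004000000 := rS 0x1d53e6542b3d22794e9dc5287251ecbad01b05876192f934000566a3ca82201910864108918286d35cc6673d87c0e53279cc6e5ed9 (k8 i3191 i3160 i3148 i3166 i3155 i3156 i3194 i3195 (k8 i3168 i3162 i3161 i39 i40 i1562 i1561 i136 (k8 d225 d226 d29 d101 i224 i225 i765 i770 (k8 d227 d26 i525 i2431 i1038 i1154 i478 i638 (k8 i637 i2327 d179 d6 i1564 i253 i1626 i1641 (k8 i973 i2666 i1148 i1544 i2641 i1565 i1539 i2046 k0)))))) (by decide +kernel)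
def d229 : PP 8 4 T 0x1000000000000005000000000005000404000400000002009200000000004a00002 := rS 0x10a79489ecbad01b044ea65 (k8 i2641 i1539 i136 i638 i637 i2327 d179 i2666 (k2 i2648 i1544 (k1 i2046 k0))) (by decide +kernel)
def d230 : PP 8 4 T 0x1000000000000025000000000005001404005500000002001000000000004000000 := rS 0xba84 (k2 i2046 i512 (k1 i1544 k0)) (by decide +kernel)
def d231 : PP 8 4 T 0x1000000000000040000000000000020010000000000000001000001400004000000 := rS 0xb62b39a6bfdbee1 (k8 i3176 i3175 i3172 i3169 i3166 i941 i978 d16 k0) (by decide +kernel)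
def d232 : PP 8 4 T 0x1000000000000000000002000080000000000000000006001200000000004000400 := rS 0x1fa0727145a6097fb5e4ee1 (k8 i3176 i3155 i3173 i3172 i2097 i163 i1398 i767 (k2 i479 i1197 (k1 d33 k0))) (by decide +kernel)
def d233 : PP 8 4 T 0x1000000000000020000000004080010406000000011206001200000500904950002 := rS 0xb35381d62830f0749e7e5ab295eb7569cd527d05c51426f3199d72c9498f47ef069824e28919c58ea7788b6e0739a6bfdbf2f9eba6673587b86372d92c2e46f3 (k8 i3185 i3153 i3184 i3154 i3159 i3148 i3176 i3195 (k8 i3164 i3162 i3180 i3168 i3160 i3175 i3172 i3169 (k8 i3166 i3194 i3174 i1469 i711 i1539 d19 i1474 (k8 i280 i710 i2097 i163 d4 d27 d23 i1477 (k8 d61 d43 i2291 i2290 i968 i822 d16 i560 (k8 i1594 i937 i940 i1554 i1935 i591 i2040 d232 (k8 i2044 i1389 i719 i1664 i925 i1848 i480 i243 (k2 i514 i2028 k0)))))))) (by decide +kernel)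
def d234 : PP 8 4 T 0x1000000000000000000002000080000000000000000014001a00000000004000000 := rS 0x295a54 (k4 i225 i1288 d232 i305 k0) (by decide +kernel)
def d235 : PP 8 4 T 0x1000000000000000000011000080014400040554000000001000000000004800000 := rS 0xf8a1 (k2 i821 i2044 (k1 i1594 k0)) (by decide +kernel)
def d236 : PP 8 4 T 0x1000000000000000000000000000000000000080000000009000000200004000002 := rS 0x28a0a8 (k4 i1093 i1094 i975 i2312 k0) (by decide +kernel)
def d237 : PP 8 4 T 0x1000000000000020000000000080000000000000200000009a00000000104810002 := rS 0x59a9c16af5881d061e5693c3a7e869f56ea139ad4589538aad1209a1b4ca661178c466b949a10b83d1fbc0265b481e4f6154ec58eb111123cae413b9513e6567a359a594397db6ff70c6e5b4197cf5d3339ac3e4b0b91bce9b39 (k8 i3166 i3169 i3185 i3153 i3184 i3154 i3195 i3164 (k8 i3162 i3180 i3168 i3160 i3171 i3159 i3148 i3176 (k8 i3172 i3174 i2431 i1564 i2406 i1831 i2642 i1832 (k8 i2641 i1565 i225 i711 i739 i1578 i1133 i224 (k8 i1469 i1539 d19 i1478 d229 d179 i2648 d230 (k8 d94 i227 d4 d27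 d23 i1171 i1849 i1477 (k8 d43 i1474 i1531 i2753 i2640 i2385 i163 i1479 (k8 i2097 i280 i1656 i710 d231 d233 d234 d236 (k8 i821 i854 i1594 d205 d93 i719 i760 i1556 (k8 i1664 i925 i480 i1848 i1927 i305 i243 i514 (k1 i2028 k0))))))))))) (by decide +kernel)
def d238 : PP 8 4 T 0x1000000000000000000000040010002000000008001600001200000000005110500 := rS 0x1620759a9c9e1d400f47ef00996e372d92c2e46f3 (k8 i3185 i3153 i3184 i3154 i3159 i3148 d94 i227 (k8 d4 d27 d23 i1172 i1232 i1271 i1860 i1335 (k2 i480 i1848 (k1 i2028 k0)))) (by decide +kernel)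
def d239 : PP 8 4 T 0x1000000000000020001011000000016400040550001600001200000200005110400 := rS 0x761a7c0f9bd5ea904b4d421697b6e6b0f6cce67b33 (k8 i3162 i3168 i3166 i3191 i3195 i3164 i3174 i3160 (k8 d21 i821 d0 i1263 i975 i591 d238 i1303 (k4 i2044 i1204 i1233 d90 k0))) (by decide +kernel)
def d240 : PP 8 4 T 0x1000000000000000001011000140014400040550000000001000015500004800000 := rS 0x8a9f1106f (k4 i968 i2033 i2044 d83 (k1 d107 k0)) (by decide +kernel)
def d241 : PP 8 4 T 0x1000000000000020001011000140016400040550001202001200015400005110002 := rS 0x1bcfa1f2882858162f94e5f0f6cce67b33 (k8 i3162 i3168 i3166 i3191 i3195 i3160 i2385 i2431 (k8 d21 d240 d239 i2312 i237 i1542 i969 i2044 k0)) (by decide +kernel)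
def d242 : PP 8 4 T 0x1000000000000020000000000040012400000550001200001a00011400005110002 := rS 0x2245b14693f5520b038249cca569443eb431964ae410b295825419ae52716889fc454d6fb5dff2797cf5d3339ac3e72d9 (k8 i3191 i3166 i3195 i3164 i3162 i3180 i3168 i3160 (k8 i3155 i3172 i3173 i3175 i3169 i224 i1663 i1469 (k8 d19 i1477 d43 i1474 i225 i2944 i2100 d21 (k8 i739 i1578 i2406 i2290 d241 i1395 i1398 i1288 (k8 i768 i767 i222 i479 i305 i624 i1197 d33 (k4 d40 d0 d83 i2033 k0)))))) (by decide +kernel)
def d243 : PP 8 4 T 0x1000000000000020000000000040102400000450211200001a00010400005110002 := rS 0x112d35302562b30387d02515782e18ad169be2a940b0c4ea541e8fde0132db8e5f3787cf69b4b6db7e66e18dcb64b0b91bcdb339 (k8 i3166 i3191 i3185 i3153 i3184 i3154 i3159 i3148 (k8 i3176 i3162 i3175 i3174 i3163 i3169 i3168 i3195 (k8 i3165 i3160 i3177 d94 i227 d4 d27 d23 (k8 i225 i1539 i1531 d21 d242 i941 i2644 i978 (k8 i1557 i2017 i560 i1927 d41 i1205 i1201 i479 (k4 i513 i1847 i222 i2028 (k2 i164 i283 (k1 d231 k0)))))))) (by decide +kernel)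
def d244 : PP 8 4 T 0x1000000000000000000000000000002000000020000000001200000400005110002 := rS 0x120705abd66a75887ca22d4b208c65f458f47ef00996e372d92c2e46f3 (k8 i3185 i3153 i3184 i3154 i3159 i3148 d94 i227 (k8 d4 d27 d23 i2292 i2431 i2290 i916 i917 (k8 d70 i1358 i1357 i1296 i1898 i1373 i1899 i560 (k2 i479 i222 (k1 i2028 k0))))) (by decide +kernel)
def d245 : PP 8 4 T 0x1000000000000020000000000000000000000000200000009a00000000105010002 := rS 0x6929816af03acdfab10494136a8279c8e2a31f8f5e0132e264b6903c8d4c22f0aa762c75888891e57209dca89f32b3d1acd2ca1cbe163db8dfed781bce470b92cb6372f87b66733d99d05d335 (k8 i3164 i3180 i3171 i3162 i3168 i3166 i3191 i3195 (k8 i3160 i3148 i3159 i3154 i3184 i3153 i3185 i3194 (k8 i3173 i3172 i3177 d179 d21 i2431 i1564 i2406 (k8 i1831 i2642 i1832 i2641 i1565 i225 i711 i739 (k8 i1578 i1133 i224 i1469 i1539 d19 i1478 d229 (k8 i2753 i2640 i2775 i2648 d230 d94 i2770 i1171 (k8 i227 d4 d23 d27 d237 d244 d243 i757 (k8 i1093 i2806 i1094 i223 i1848 i420 i664 i2293 (k4 i592 i2312 i2028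 d33 (k1 i164 k0)))))))))) (by decide +kernel)
def d246 : PP 8 4 T 0x1000000000000000000000000000000000000000200000009a00000000105010002 := rS 0x1e2131b0e630d162b1d16351db0c62330aa762c75888891e57209dca89f32b3d1acd2ca1cbe1679c8e172596c6e72f797c3db33d99d05d335 (k8 i3164 i3180 i3171 i3162 i3168 i3191 i3195 i3160 (k8 i3187 i3166 i3148 i3159 i3154 i3184 i3153 i3185 (k8 d21 i2431 i1564 i2406 i1831 i2642 i1832 i2641 (k8 i1565 i225 i711 i739 i1578 i1133 i224 i1469 (k8 i1539 d19 i1478 d229 i1474 i1531 i2101 i2796 (k8 i2775 i2292 d228 i1536 d245 d48 i1742 i2035 (k2 i1799 d9 (k1 d4 k0)))))))) (by decide +kernel)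
def d247 : PP 8 4 T 0x1000000000000000000000000000000000000000200000001200000000004020000 := rS 0xb826 (k2 i484 i483 (k1 i3044 k0)) (by decide +kernel)
def d248 : PP 8 4 T 0x1000000000000000000000000000000000000000200000001840000000005000002 := rS 0x2125134224420859b32797c3e733d99ca60731 (k8 i3161 i3194 i3156 i3162 i3168 i3166 i3195 i3160 (k8 i3155 i3191 d21 i739 d29 d247 i707 d6 (k2 i1530 d246 k0))) (by decide +kernel)
def d249 : PP 8 4 T 0x1000000000000020000000000000100000000080000200009200000000004050002 := rS 0x3494c0b5781d66fd58824a09b5413c7a3f78055c6ff6bc0e372d92c2e46f3 (k8 i3185 i3153 i3184 i3154 i3159 i3148 i3194 i3173 (k8 i3172 i3177 i2327 d4 d27 d23 i757 i1093 (k8 i2806 i1094 i223 i1848 i420 i664 i2293 i592 (k4 i2312 i2028 d33 i164 k0)))) (by decide +kernel)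
def d250 : PP 8 4 T 0x11000000000000000000004000810000000000000000000001000000000014000000 := rS 0x1f69cbdb6e3 (k4 i3177 i3174 i3160 i164 (k2 i243 d90 k0)) (by decide +kernel)
def d251 : PP 8 4 T 0x1000000000000020001011000100016000040544001202001200015400005010002 := rS 0x28c2c8f388565f0f6cce67b33 (k8 i3162 i3168 i3166 i3191 i3195 i3160 i2327 d244 (k4 i765 d21 d235 d241 k0)) (by decide +kernel)
def d252 : PP 8 4 T 0x1000000000000020001010000100006004000140001206201200015400105010402 := rS 0x59a9c0e830e9f92b14378256aaf86ac4be772d8f47ef009904e215508596ee187cf69b4b6db7e672f6cce6372d92c2e46f3 (k8 i3185 i3153 i3184 i3154 i3159 i3148 i3166 i3191 (k8 i3160 i3162 i3175 i3174 i3163 i3169 i3168 i3195 (k8 i3176 i854 d21 i821 i2327 d244 i739 i1844 (k8 d4 d27 d23 i35 i711 i2431 i1316 d41 (k8 i500 i1398 i1310 d238 i2017 i941 d251 i719 (k4 i925 i480 d250 i514 (k1 i2028 k0))))))) (by decide +kernel)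
def d253 : PP 8 4 T 0x1000000000000080001010000100014010000000000000001000015400004000000 := rS 0x28c5ae1 (k4 i3176 d0 i163 i2033 k0) (by decide +kernel)
def d254 : PP 8 4 T 0x1002000000000020001010440100016000010140001202001200015400105010542 := rS 0x387e86a996ab1279dd1e3d1fbc0264138adcdea10b054bf2d93cbe1ed99ccf6671b92c2e46f3 (k8 i3185 i3153 i3184 i3154 i3148 i3162 i3168 i3166 (k8 i3191 i3195 i3160 i3155 i3159 i2431 i2327 d21 (k8 i821 d238 i854 d244 i739 i1844 d4 d27 (k8 d23 i765 i711 i1197 i1200 i767 i2028 d205 (k2 d251 d250 (k1 i719 k0)))))) (by decide +kernel)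
def d255 : PP 8 4 T 0x1000000000000020001010440100016000010140001202001200015400105010542 := rS 0x4310115582214ed27e8f47ef009904e26f508582a5f9bc3e7b4da5b6dbf3371bfdaf2f6cce6372d92c2e46f3 (k8 i3185 i3153 i3184 i3154 i3159 i3148 i3166 i3191 (k8 i3160 i3173 i3172 i3177 i3162 i3175 i3174 i3163 (k8 i3169 i3168 i3195 i3165 i2431 i2327 d21 i821 (k8 d238 d244 i739 i1844 d4 d27 d23 d254 (k8 d33 i164 d253 i2028 d83 i1847 i2017 i1205 k0))))) (by decide +kernel)
def d256 : PP 8 4 T 0x1000000000000020001010440100106000010140001202001200015400105010542 := rS 0x112d3532c5030c8aa50de5f1e8fde013209c42aa10b38e6f0f9ed3696db6fccdc32f6cce6372d92c2e46f3 (k8 i3185 i3153 i3184 i3154 i3159 i3148 i3166 i3191 (k8 i3160 i3176 i3162 i3175 i3174 i3163 i3169 i3168 (k8 i3195 i3165 i3177 d21 i821 i2327 d244 i739 (k8 i1844 d4 d27 d23 i2431 d238 d255 i941 (k4 i2017 i1205 i1847 i2028 (k2 i164 i283 (k1 d231 k0))))))) (by decide +kernel)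
def d257 : PP 8 4 T 0x1000000000000020001010400104106000010140001202001200015400105010542 := rS 0x25512d24d3f55c3f7804c82160abfdaee38dcb64b0b91bce5f0f6cce67b33 (k8 i3162 i3168 i3166 i3191 i3195 i3160 i3185 i3153 (k8 i3184 i3154 i3159 i3148 i3177 i3173 i3172 i2327 (k8 d21 i739 i1844 d4 d27 d256 i423 i592 (k4 d33 i1443 i1181 d253 k0)))) (by decide +kernel)
def d258 : PP 8 4 T 0x1000000000000000001010000100004000000050001000001200015400004000200 := rS 0x112958a434de2d0f13946e187cf69b4b6db7e672f (k8 i3160 i3162 i3175 i3174 i3163 i3169 i3168 i3195 (k8 i3176 i2097 i223 i222 i1263 i1271 i1201 i2017 (k2 i941 d83 (k1 i2033 k0)))) (by decide +kernel)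
def d259 : PP 8 4 T 0x1000000000000020001010000104106004000140001206001200015400105010402 := rS 0x2ccfa0728824e215 (k8 i2327 d244 d258 d252 i479 i1542 i513 d257 k0) (by decide +kernel)
def d260 : PP 8 4 T 0x1000000000000000000000000000000000000000200200009600000000105000002 := rS 0x21a958a9bcfab5162a03e5165828e6714ca41a1191c24d729d19a9462c13cc59c8c51b894ea2347c45e0c32b95108130ac4cb6c720a2ca635308ec5e872fb3d1a9f329ec22770b43e7b4da5b6dbf3381bd682f79bcb673479aba643076ccbde72385c963731 (k8 i3161 i3148 i3154 i3184 i3153 i3185 i3160 i3191 (k8 i3178 i3152 i3180 i3164 i3151 i3166 i3159 i3165 (k8 i3187 i3171 i3186 i3194 i3162 i3175 i3174 i3163 (k8 i3169 i3168 i3195 d21 i711 d247 d179 i2641 (k8 i1565 i2642 i1832 i2431 i1564 i2753 i2796 i2640 (k8 i2775 i2385 i2292 i739 d228 i35 i1738 i2327 (k8 i1844 i1849 i1850 i1584 i1828 d4 i1473 i765 (k8 i1537 i1539 i347 d9 d76 d13 d19 i972 (k8 i1462 d39 d60 i1474 i1478 d43 i1477 i2035 (k8 i1742 d48 i2019 i2770 d244 d249 d259 i2413 (k8 i2312 i237 i559 i560 i768 i1542 i969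 i937 (k2 i978 d205 (k1 i2017 k0))))))))))))) (by decide +kernel)
def d261 : PP 8 4 T 0x8001001000000000000400010002000015100004554200410001000000000004000000 := rS 0x3ca5d32832d2e9609b2b2a95e5556d0e22b44ea3e0a7f3eadd030c8ac9e6ae774b5ddb4187cde66df6dd2e9b3d81b8dc32d (k8 i3159 i3176 i3177 i3194 i3168 i3169 i3163 i3174 (k8 i3175 i3162 i3165 i3195 i3171 i3182 i3173 i3180 (k8 i3179 i3164 i3155 i937 i2017 i1205 i682 i1204 (k8 i681 i1468 i947 i1478 i2044 i689 d55 i1288 (k8 i768 i1927 d31 d32 i1178 i1662 i1661 i1584 (k4 i1296 i1825 i1903 i1807 (k1 i2045 k0))))))) (by decide +kernel)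
def d262 : PP 8 4 T 0x20001000000000000004054000000004000100000000000000001000415000004010002 := rS 0x3c426151b344729d79c8e172596c6e733f (k8 i3170 i3166 i3148 i3159 i3154 i3184 i3153 i3185 (k8 i1746 i1742 d34 i2035 i637 i1799 d9 d4 k0)) (by decide +kernel)
def d263 : PP 8 4 T 0x1000000000000000010000000000001000000000200000009200005040104800002 := rS 0x133c04615880de2e9c4795c268514c48f2d08cb1d16351da1cbecd2cb3d1a9f329ec22773a895860f79c8e172596c6e5f0f9accdd33da0bd5ef37 (k8 i3165 i3187 i3186 i3171 i3168 i3180 i3162 i3164 (k8 i3195 i3160 i3148 i3159 i3154 i3184 i3153 i3185 (k8 i598 i1829 i861 i970 i711 d247 d179 i2641 (k8 i1565 i2642 i1832 i2406 i1831 i2431 i1564 i2796 (k8 i2775 i2292 d228 d262 d48 i2648 i2019 i1737 (k8 d53 i226 i1583 i1133 i2046 i1478 i1780 d19 (k4 i638 i1469 d4 i2032 (k1 d38 k0)))))))) (by decide +kernel)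
def d264 : PP 8 4 T 0x4001000000000000000014000000002001000001500200000009200000041104000002 := rS 0x228809d1ef02b84d0a290ac486f1963a1cbecd2c9ec232f87cd666e99ebce470b92cb636f5a0bde6f3f (k8 i3170 i3165 i3187 i3171 i3186 i3148 i3159 i3154 (k8 i3184 i3153 i3185 i3168 i3180 i3162 i3164 i3195 (k8 i3160 d247 d179 i2406 i1831 i2431 i1564 d228 (k8 i1746 i1779 i2019 i638 i1737 d53 i226 i1583 (k4 d4 i1133 d38 d19 (k2 i2032 i1469 k0)))))) (by decide +kernel)
def d265 : PP 8 4 T 0x1000000000000005000000000005001005005500200000009000000000004000000 := rS 0x11c57 (k2 i1583 i2046 (k1 i1133 k0)) (by decide +kernel)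
def d266 : PP 8 4 T 0x4001001000000000000014004400004000100101554200100009200000001104000002 := rS 0x2c68a984da5d06af8c16a26844ea1cbecd2cb3cf61115a45c72d6bb7e9b0f9ebd682f79bcce4f31 (k8 i3161 i3155 i3162 i3165 i3187 i3171 i3186 i3168 (k8 i3195 i3169 i3175 i3173 i3159 i3177 i1171 i386 (k8 d247 d179 i1832 i2406 i1831 i2431 i1564 d264 (k8 d265 d53 d17 i2019 i1922 i776 i1745 d84 (k4 i2045 i1750 i1825 d14 k0))))) (by decide +kernel)
def d267 : PP 8 4 T 0x1000000000000000000000000000000100002000000500001000000000004000000 := rS 0x8996deb279bcb66333 (k8 i3162 i3161 i3159 i3165 i3155 i3186 i1807 i1739 (k1 d17 k0)) (by decide +kernel)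
def d268 : PP 8 4 T 0x1001000000000000000000000000000000000000001000001000000200004000440 := rS 0x4b4dfed7 (k4 i3173 i3172 d0 i1263 (k1 d33 k0)) (by decide +kernel)
def d269 : PP 8 4 T 0x4401000000000000004001004014100011000505054000008001600000400004005500 := rS 0x24e86a203b2ca30c5cc568a984ba6e313f76bae9ae16fbfdc737a5b6deb337bd067b0f (k8 i3195 i3168 i3171 i3187 i3162 i3186 i3174 i3163 (k8 i3165 i3177 i3172 i3175 i3176 i3169 i3181 i3182 (k8 i3170 i2019 d84 i1745 i2045 i1750 i942 i1143 (k8 d1 d41 i505 i479 i2027 i1479 i1634 i2023 k0)))) (by decide +kernel)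
def d270 : PP 8 4 T 0x1002000000000000001008000100000002000000000010001600000004004005000 := rS 0xcb5181cf81d5682556a105bfe4b2b (k8 i3158 i3154 i3172 i417 i308 d72 i1196 i1199 (k4 i721 i1935 i480 i1594 (k2 i1328 i2027 k0))) (by decide +kernel)
def d271 : PP 8 4 T 0x401002000000000010000004000000440140501008005000001000000000004000000 := rS 0x59511330d54ac55ef371cde96db7acce5b03 (k8 i3194 i3159 i3162 i3186 i3174 i3163 i3165 i3177 (k8 i3185 i423 i1200 i420 i1203 i1059 d1 i2041 (k1 i1217 k0))) (by decide +kernel)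
def d272 : PP 8 4 T 0x4401002000000000000010000000004010100000500201100009600000400004000002 := rS 0xa303b2d2451381bd6ea560b901e8e2b09e22848298d16cf43b34b2ad04aac167354835064f40969629d4bb4537183c97d227b08d1e1f3599ba67b377bd05eb4d9fcb6632781bfe4b2b (k8 i3158 i3154 i3172 i3194 i3155 i3161 i3159 i3170 (k8 i3169 i3186 i3171 i3187 i3165 i3168 i3180 i3162 (k8 i3164 i3195 i3151 d247 d179 i1171 i2431 d267 (k8 i2019 d84 d34 i1745 i1746 i1200 d17 i1809 (k8 i1197 i775 i1495 i420 i1093 i417 d72 i1196 (k8 i1199 i2406 i1831 i1564 i1832 i2292 i2290 i1468 (k8 d265 i1473 i1771 i1812 d19 i2319 d85 i1462 (k8 d60 d270 d271 d269 i1358 i877 i505 i479 (k2 i1634 i2027 k0))))))))) (by decide +kernel)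
def d273 : PP 8 4 T 0x1100000000000000000000000000000000000800000000001400000000004801002 := rS 0x7b946220 (k4 i711 i1508 d25 i598 (k1 d85 k0)) (by decide +kernel)
def d274 : PP 8 4 T 0x4001002000002000000000000000000010000000020000000009400000000004805000 := rS 0x24e86ca5181d728828c54c600222b412ab05b054a7710cfddaeba6b85bf3da3bfe4b2b (k8 i3158 i3154 i3172 i3151 i3168 i3175 i3176 i3169 (k8 i3181 i3182 i3170 d25 i711 d60 i1462 i417 (k8 d72 i1196 i1199 i967 i966 i2290 i1208 i1358 (k8 i710 i1408 i479 i281 i2027 d98 i1366 i2023 k0)))) (by decide +kernel)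
def d275 : PP 8 4 T 0x4001100000000000000000000000005001400005501100080001000000000004000000 := rS 0x5399c6b66c410a8777cb5cf0f9accdd33d (k8 i3168 i3180 i3162 i3164 i3195 i3179 i3159 i3183 (k8 i778 i1811 d19 i690 i1962 i2046 d63 d96 k0)) (by decide +kernel)
def d276 : PP 8 4 T 0x21002000000000000400001000000000000010000000015401000000000004000000 := rS 0x289fd5a4f55b864f2b (k8 i3158 i3155 i3176 d72 i1197 i1199 i681 d41 (k1 i2037 k0)) (by decide +kernel)
def d277 : PP 8 4 T 0x2000000000000001002000000000010000000000000000140000000004000001000000000004000000 := rS 0x968c18552b157acd3699a6bde5adf79b8e0729 (k8 i3156 i3194 i3177 i3185 i3175 i3159 i3187 i3169 (k8 i1750 d56 i1217 i423 i1200 i420 i1198 d48 (k2 i2041 i1745 k0))) (by decide +kernel)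
def d278 : PP 8 4 T 0x2000000000000401002000000000000000000000000000000000000000000001200000000004000042 := rS 0x3c78054265c2da40f6113cc65a0a71facc12b15782cc68b1da34944d0b3ce470b92cb6370f9ebd682f79bccdff2794c0e62e3 (k8 i3177 i3161 i3194 i3156 i3155 i3172 i3162 i3165 (k8 i3187 i3171 i3186 i3168 i3195 i3148 i3159 i3154 (k8 i3184 i3153 i3185 i478 d69 d6 i2642 i2796 (k8 i2292 i2290 i417 i423 i1200 i1196 i1217 i1216 (k8 i1747 d277 d34 i2648 i472 d179 i2019 d94 (k4 i1171 i227 i2327 d4 (k2 i2028 d23 k0))))))) (by decide +kernel)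
def d279 : PP 8 4 T 0x1000000000000000000022000000000400000000000000001000000000004800000 := rS 0xef113ac5e1f3599ba67aed (k8 i3182 i3168 i3180 i3162 i3164 i3195 d43 i2647 (k2 i689 i2470 (k1 d19 k0))) (by decide +kernel)
def d280 : PP 8 4 T 0x2021002000000000000500000000000000400000000054010001000000000004800000 := rS 0x3bc44acb52ac122e755c2b4c25354aacfa9549c3e6b3374cf64f2b94b9e7eeb9dc0dc2db (k8 i3174 i3176 i3194 i3167 i3181 i3170 i3179 i3156 (k8 i3158 i3155 i3168 i3180 i3162 i3164 i3195 d28 (k8 i941 i1204 d72 i420 i419 i1198 i1199 i2040 (k8 i2647 d43 i2012 i1465 d279 d276 d57 i1627 (k1 d19 k0))))) (by decide +kernel)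
def d281 : PP 8 4 T 0x1100000000000000000000000000000000000200010014001000000000004000000 := rS 0x15623279ab9dd333 (k8 i3162 i3180 i3179 i3164 i3155 i1471 i1539 d32 k0) (by decide +kernel)
def d282 : PP 8 4 T 0x2021002000000000000100000000000000400000050054010001000000000004800000 := rS 0xab115a1d4eeb98b15e0aca49a549e7f379f4a3279ab9dd2ed95ca67eeb9dc0dc333 (k8 i3162 i3176 i3194 i3167 i3181 i3170 i3156 i3158 (k8 i3182 i3180 i3179 i3164 i3155 d41 i1204 i1203 (k8 i681 i1197 i941 d28 d280 d54 i505 i2012 (k4 d43 d78 d281 i2044 (k2 i689 i767 (k1 d32 k0)))))) (by decide +kernel)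
def d283 : PP 8 4 T 0x10001000000000000000000000800000000000005000000000081000000000004000000 := rS 0x44d22822d43e7af5a0bde6f33 (k8 i3162 i3165 i3187 i3171 i3186 i3168 i3195 i1430 (k4 i1429 d94 d24 i2019 k0)) (by decide +kernel)
def d284 : PP 8 4 T 0x1000000000000000000000000000000000002000000000001200000000004100002 := rS 0xf10884c6c272d864868d251342cf391c2e4b2d8dc9e530387cf66731 (k8 i3161 i3162 i3168 i3195 i3194 i3156 i3155 i3148 (k8 i3159 i3154 i3184 i3153 i3185 i478 d69 d6 (k8 i2642 i41 i1038 i1807 i1768 i972 i227 i484 (k2 d9 d4 k0)))) (by decide +kernel)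
def d285 : PP 8 4 T 0x1000000000000000000002000000540000000400015002001015540400004000102 := rS 0x444514ea9690b592077e82e2c4e651d51f11a6b7daee37fc9e1f3599ba67aed (k8 i3182 i3168 i3180 i3162 i3164 i3195 i3155 i3172 (k8 i3177 i3173 i3175 i3169 i689 i765 i1539 i768 (k8 i767 d19 i2413 i1197 i1222 d61 d268 d33 (k4 i623 i164 d40 i2034 (k1 d83 k0))))) (by decide +kernel)
def d286 : PP 8 4 T 0x8001000000000000010000002000000540140000000555600001000000000004000000 := rS 0x150fc59d1562af5e2097ecb43334d8cf4eb253f1881b8e5ad77abde82ef (k8 i3183 i3171 i3187 i3186 i3173 i3159 i3177 i3194 (k8 d48 d11 d61 i1478 i950 i2042 i1970 i516 (k8 i2332 i1456 i933 i934 i594 i1296 i1218 i1413 (k2 d14 i2041 (k1 i420 k0))))) (by decide +kernel)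
def d287 : PP 8 4 T 0x101000000000000000000000000000000000000000800111001000000000004000000 := rS 0x15e0b279ab9dd2ef (k8 i3183 i3180 i3179 i3164 i3155 i431 i507 d32 k0) (by decide +kernel)
def d288 : PP 8 4 T 0x1002000000000010000002000000541140501046005008001000000000004000000 := rS 0x50383296ebc5daca8aab58aa6867b8c53d5ebf96c0de6f7 (k8 i3187 i3185 i3194 i3159 i1455 i594 i1485 d48 (k8 d64 d55 i420 i1200 d72 d277 i2041 i1681 (k4 d87 i887 i1413 i2045 (k2 i505 i1358 k0)))) (by decide +kernel)
def d289 : PP 8 4 T 0x1000000000000000800000000000541000545046004008001000000000004000000 := rS 0x5b9c57850 (k4 i505 i674 i1358 i1989 (k1 i2045 k0)) (by decide +kernel)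
def d290 : PP 8 4 T 0x1001000000000000000008040000000000000000000000501000000000004000000 := rS 0x27c366327a5b5db6e3 (k8 i3177 i3174 i3173 i3163 i3155 i3161 i682 i762 (k1 d8 k0)) (by decide +kernel)
def d291 : PP 8 4 T 0x1000000000000010000002000000540400400002000008001200000000004000002 := rS 0x34c120b0e07c5a705b81ca2af65bf57e630c90ca6613f9ccdeb9489e42a7b8c234944d0b22d02852fbfdaf2d93ca6070f9ecce62f7 (k8 i3187 i3161 i3162 i3168 i3195 i3194 i3156 i3155 (k8 i3159 i3173 i3172 i2431 i1604 i1402 i2292 i478 (k8 d69 d6 i2642 d48 d64 i637 d284 i1170 (k8 d279 i1399 i884 i127 i2640 i2385 i41 i1038 (k8 i2290 i1455 d288 d289 i594 i1397 i479 d290 (k8 i2045 d70 i1357 i709 i560 i222 d42 d33 k0)))))) (by decide +kernel)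
def d292 : PP 8 4 T 0x1100000000000010000002000000540400000000500008001200000000004000002 := rS 0x156fd5dac89ccb661697b135ba090b4f439b0ba632f9862343569659e9d8b324ca674fc611a4a2685916d776b9e4ef59bcb662f394c0e1f3d99bde833b75cfe56ef (k8 i3183 i3158 i3170 i3181 i3167 i3171 i3187 i3162 (k8 i3168 i3195 i3194 i3156 i3185 i3161 i3159 i3165 (k8 i3186 i3155 i3179 i3182 i3173 i2292 i478 d69 (k8 d6 i2642 d48 d11 i2291 i2641 i504 i2012 (k8 i1478 i950 i2406 i1288 d55 i689 i2640 i2431 (k8 i2290 d286 i2042 i1706 i1485 i1604 d291 i151 (k8 d24 i1416 d17 d97 i674 i775 i776 i1948 (k2 i1197 i666 (k1 d31 k0))))))))) (by decide +kernel)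
def d293 : PP 8 4 T 0x1100000000000010000002000000540400000000400008001600000000004000002 := rS 0x31462e406884d02b488541e338b324ca4a26858cf3981cedd72794c3e7b3398cfdcf2b (k8 i3158 i3179 i3170 i3161 i3162 i3168 i3195 i3156 (k8 i3155 i3181 i3167 i3194 i3166 i2291 i478 d69 (k8 d6 i2641 i504 i2012 i1474 i2319 i637 i1170 (k8 i385 d292 i2929 i482 d85 d39 d75 d263 k0)))) (by decide +kernel)
def d294 : PP 8 4 T 0x10001000000000000000000000000000000000005000200008001000000000004000000 := rS 0x44d22842d43e7af5a0bde6f33 (k8 i3162 i3165 i3187 i3171 i3186 i3168 i3195 i1584 (k4 i1583 d94 d53 i2019 k0)) (by decide +kernel)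
def d295 : PP 8 4 T 0x1000000000000000401000010100000000000020000000001400004000004805142 := rS 0x1f8aa69a8c161c440b5fed7 (k8 i3173 i3172 d70 i710 i709 i560 i280 d42 (k2 i2027 d33 (k1 d72 k0))) (by decide +kernel)
def d296 : PP 8 4 T 0x1001000000000000020000004140600541000405020000000141205000000004006502 := rS 0xbc6230c285a09acc53448917423192f94c764a26858400740bce5edfa6c3e7af5a0bde6f3393ca60731 (k8 i3161 i3194 i3156 i3155 i3162 i3165 i3187 i3171 (k8 i3186 i3168 i3195 i3169 i3175 i3160 i3185 i1363 (k8 i479 i482 i478 d69 d6 i2796 i2385 i2431 (k8 d34 i472 i512 i2019 d62 i1737 i1217 i226 (k4 i2038 i2028 i369 i642 (k2 d188 i1795 k0)))))) (by decide +kernel)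
def d297 : PP 8 4 T 0x1000000000000000000002000000541000405000000008001200000000004002002 := rS 0x9f36c61a23f45a34d6b7349ccdecf4ec58ea19889dc9eb157a9c7a81382222a945599cc66132aa5f8092182d82250781ca2ad2cb2d26d3178b548b947b24944d0b07040f796c9e530387cf667316fbfe9b3970b5dc74176ba66aef (k8 i3183 i3164 i3180 i3182 i3171 i3177 i3173 i3176 (k8 i3166 i3169 i3172 i3175 i3161 i3162 i3168 i3195 (k8 i3194 i3156 i3155 i3159 i3187 i482 i727 i478 (k8 d69 d6 i2296 i1132 d279 i728 i1383 i2753 (k8 d42 i1369 i2297 i2406 i1288 i1397 i479 i2319 (k8 i346 i1248 i561 i41 i1262 d33 i420 i2641 (k8 i2640 i2290 i2291 d72 i2040 i941 d16 i1342 (k8 i1363 i1346 i283 i423 i1200 i1197 i2470 i689 (k8 i1038 i1500 d19 i1478 i950 i1400 i1094 i2929 (k8 i2483 i2298 i2642 i2292 i1421 d296 d48 d288 (k2 d11 i2042 k0))))))))))) (by decide +kernel)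
def d298 : PP 8 4 T 0x1000000000000000000002000000541000005000000008001200000000004002002 := rS 0x68972305b89a089efc04b4e2c0734870ea8f28880d6c96582cc65f0c90d166730a34ca4a26c44ee16608941ef593cde5b3187cf682f799bfdaf3574bb65303 (k8 i3194 i3156 i3182 i3180 i3164 i3173 i3172 i3162 (k8 i3187 i3171 i3168 i3195 i3161 i3159 i3165 i3155 (k8 i3186 i2319 i346 i1248 i478 i2470 i689 d69 (k8 d6 i2641 i2642 i2640 i2291 i2292 i41 i1038 (k8 i2431 i2290 i561 i2297 i2296 i2298 i482 i1397 (k8 i1132 i1500 i727 i2929 i479 d19 d42 i1262 (k8 d33 i1197 d297 d24 i775 i2019 d17 d34 (k1 d286 k0)))))))) (by decide +kernel)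
def d299 : PP 8 4 T 0x1002000000000010000002000000540000800000000008001200000000004001002 := rS 0x309c86d82b298ac7283c0d6113497026b22dabd524f31a2cc28d251342c0f2390626b12f855defb79c8e172596c6deb279bcc5c70394c3e7b33 (k8 i3162 i3168 i3195 i3156 i3194 i3177 i3161 i3165 (k8 i3155 i3186 i3148 i3159 i3154 i3184 i3153 i3185 (k8 i3189 i3183 i637 i2431 i1296 d24 i22 i1578 (k8 i2319 i478 d69 d6 i2642 i2640 i2292 i2290 (k8 i1197 i420 i423 i775 i2041 i227 d17 i1584 (k8 i2299 i2326 d4 i513 i179 d76 i1397 d54 (k4 i2332 d85 i2029 i172 k0))))))) (by decide +kernel)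
def d300 : PP 8 4 T 0x1000000000000000000002000000000000800000000008201200000000004105000 := rS 0xc362b1dc8f035844db053484d64ca2e11c825577bede72385c965b1b (k8 i3148 i3159 i3154 i3184 i3153 i3185 i3189 i3183 (k8 i33 i22 i1578 i1438 i1397 i1437 i1844 i1850 (k8 d54 i2332 i2299 i2326 d4 d85 i179 d76 (k2 i172 i2029 k0)))) (by decide +kernel)
def d301 : PP 8 4 T 0x1101000000000000000002000000000000800001500000001600000000004145040 := rS 0xd20e02c4c090807d8ec362a969ce41e8adfed785bbe5ae7 (k8 i3179 i3159 i3183 i3184 i3173 i3172 i385 i1256 (k8 d85 d63 d60 d75 i172 i1484 i1395 i2029 (k4 i222 i484 i563 i735 (k2 d33 d42 k0)))) (by decide +kernel)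
def d302 : PP 8 4 T 0x1000000000000010000002000005540000801000500208001200000000004001002 := rS 0x3a3391ec9821b57eae8bb35661331a2cce6146994944d889dc2c4720ac4bf457e81ca21507c3e6b3374cf5d6e396b5deaed93ca60731 (k8 i3161 i3194 i3156 i3155 i3182 i3186 i3173 i3159 (k8 i3177 i3181 i3168 i3180 i3162 i3164 i3195 i2319 (k8 i637 d300 i479 d299 i1218 i2431 i1296 i22 (k8 i1578 i478 i2470 i689 d69 d6 i2641 i2642 (k8 i2640 i2291 i2292 i2290 i1844 i513 i1970 d286 (k8 d14 i1456 i594 d301 i429 i1132 i2042 d19 (k1 i1067 k0))))))) (by decide +kernel)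
def d303 : PP 8 4 T 0x1001000000000000400002015000004000000000044000009000000000004800000 := rS 0x5c23d930432d0d2b1430badaeed73b85bf4d (k8 i3169 i3175 i3176 i3179 i3182 i3173 i3181 i2640 (k8 d40 i941 d55 i2641 d31 i429 i1132 i2040 (k1 d279 k0))) (by decide +kernel)
def d304 : PP 8 4 T 0x1000000000000010000002000005540000801000500008001200000000004001002 := rS 0x53d9a6c5faa9267154ac89caf429690e5d3197c2c672513622ad2cade26fd659442a0f79bd64f3796cc5db2981c3e7b33 (k8 i3162 i3168 i3195 i3194 i3156 i3182 i3161 i3159 (k8 i3165 i3155 i3186 i3185 i2319 i637 d300 i505 (k8 d299 d24 i151 i2406 i1288 i689 d69 d6 (k8 i2291 i478 i2431 i2290 d302 i1706 d17 i1811 (k8 i1922 i775 i776 i663 d211 i1368 d303 i1722 (k4 i665 i895 i1485 d97 k0)))))) (by decide +kernel)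
def d305 : PP 8 4 T 0x400000000000001001000000000000400000110000000000000000200000001000000000004000000 := rS 0x157056bbb5cf2d (k4 i3159 i3179 i3182 i3173 (k2 i1468 i1662 (k1 d31 k0))) (by decide +kernel)
def d306 : PP 8 4 T 0x1000000000000000000002000000541000805000000008001200000000004000002 := rS 0x2fd54cc36c14d46965945fa1568a7d3b1858c4cbf43569641e0d6bbb5ceef9fc3e7af5a0bde6f33 (k8 i3162 i3165 i3187 i3171 i3186 i3168 i3195 i3170 (k8 i3183 i3179 i3182 i3173 d298 i2319 i2406 i1288 (k8 d55 i2431 d24 i1296 i2019 i1746 d11 d34 (k8 i637 d299 d300 i505 d305 d304 i431 i147 (k4 i508 d31 i1721 i895 k0))))) (by decide +kernel)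
def d307 : PP 8 4 T 0x1200000000000010000002000000540000400000000008001200000000004000002 := rS 0x758bb38da8f34b24d66732c44ee790aa753f18469289a1645c3e6b3374cf5df2d75c9e530398bde7eed (k8 i3182 i3170 i3187 i3161 i3194 i3156 i3155 i3181 (k8 i3159 i3183 i3168 i3180 i3162 i3164 i3195 i2292 (k8 i478 d69 d6 i2642 d48 d11 i1746 i637 (k8 d284 i2470 i689 i2641 i2291 i431 i429 i1468 (k4 i1132 d291 i2042 i950 (k2 i1067 d19 k0)))))) (by decide +kernel)
def d308 : PP 8 4 T 0x110000000000000000000a000000000000000001400008001000000000004000000 := rS 0xa79a598853ebbe5ae7 (k8 i3179 i3159 i3183 i126 i1935 i886 i1583 d73 (k1 d63 k0)) (by decide +kernel)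
def d309 : PP 8 4 T 0x400000000000001100000000000000000000014000000800000020004008009400000000004805000 := rS 0x196fd28b922e956bbb5cf0f (k8 i3195 i3179 i3182 i3173 i2763 i947 d85 i1358 (k2 d274 i505 (k1 d31 k0))) (by decide +kernel)
def d310 : PP 8 4 T 0x1100000000000000000002000000000000200001400008001000000000004000000 := rS 0x69a796d788477cb5ceed (k8 i3182 i3179 i3159 i3183 i1402 i1401 i3065 i1756 (k2 i1584 d63 k0)) (by decide +kernel)
def d311 : PP 8 4 T 0x1000000000000010000002004000540000400000400008001200000000004000002 := rS 0x455727240a4ce2b736a5591174718e86ad2c9bcea3172034f71846a2cf215489289a4720c141e169fbb5d74d70b7db70f93ca6073d99cc65af7 (k8 i3187 i3159 i3161 i3162 i3168 i3194 i3156 i3155 (k8 i3195 i3174 i3175 i3176 i3169 i3181 i3182 i3170 (k8 i478 i2319 d307 i22 i1578 d69 d6 i1170 (k8 i637 d284 i2292 i2642 d48 d64 d298 d85 (k8 d39 i970 i1400 i2406 i1288 d55 i2290 d293 (k8 i947 i1132 i2763 i671 d308 d309 i1368 d310 (k4 i2045 i2783 i940 i2023 k0))))))) (by decide +kernel)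
def d312 : PP 8 4 T 0x1000000000000000000002000000000000000080000000009000000000004000000 := rS 0x49a562f1538ae51d439fbb5d74d70b7e1edb (k8 i3174 i3195 i3175 i3176 i3169 i3181 i3182 i3170 (k8 d55 i884 i2783 i78 i940 i947 i2763 i1368 (k1 i2023 k0))) (by decide +kernel)
def d313 : PP 8 4 T 0x21000000000000010000000000000540000400054000000001200000000004000002 := rS 0x1e8f31848855168d251342cb740bde5b3771c9e530387cf66731 (k8 i3161 i3162 i3168 i3195 i3194 i3156 i3155 i3177 (k8 i3165 i3159 i3187 i1205 i682 i478 d69 d6 (k8 i2642 i2292 i637 i1170 d48 d284 i2045 d64 k0))) (by decide +kernel)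
def d314 : PP 8 4 T 0x21000000000000000000002000000540800400010000000001200000000004000002 := rS 0x29cc636854265c2d9a5207b35844f3196821c761639a7cde7d62b0dc80d239560ac807958944d5ba0616ef96b9e6ee393ca6070f9ecce62eb (k8 i3181 i3161 i3162 i3168 i3195 i3194 i3156 i3155 (k8 i3177 i3165 i3179 i3159 i3183 i3184 i1205 i682 (k8 d69 d6 i1133 i2319 i1132 i429 i765 i225 (k8 i2296 d85 i172 d75 i126 i1135 i2813 d312 (k8 i478 i2796 i933 d313 d34 i2648 i472 i632 (k8 d179 i2045 d294 d94 i1171 i227 i2327 i516 (k2 i2029 d63 (k1 i1484 k0)))))))) (by decide +kernel)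
def d315 : PP 8 4 T 0x1001000000000000000000002000000540800000010000000001200000000004000002 := rS 0x1e02a9168c60f74541430e65625134de7d7ab7e9b0f9ed2db73393ca60731 (k8 i3161 i3194 i3156 i3155 i3162 i3174 i3163 i3168 (k8 i3195 i3169 i3175 i3186 i126 i1135 d69 d6 (k8 i1133 d312 i2017 d314 i1218 i816 d62 d34 (k4 i955 i637 d306 d284 k0)))) (by decide +kernel)
def d316 : PP 8 4 T 0x1000000000000010000002000000540000800000000008001200000000004000002 := rS 0x7948854944d3dc9e530387cf66731 (k8 i3161 i3162 i3168 i3195 i3194 i3156 i3155 i816 (k4 d69 d6 i637 i1170 (k2 d284 d306 k0))) (by decide +kernel)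
def d317 : PP 8 4 T 0x1000000000000000000002000000540800800000000000001200000000004000002 := rS 0x29cc636854265c2da40d26b089e632d03d8ec2c9f62b0dc80d239560ac807958944d85bbe5ae793ca6070f9ecce62eb (k8 i3181 i3161 i3162 i3168 i3195 i3194 i3156 i3155 (k8 i3179 i3159 i3183 i3184 d69 d6 i1133 i2319 (k8 i1132 i429 i765 i225 i2296 d85 i172 d75 (k8 i2813 i478 i2796 i816 d316 d34 i2648 i472 (k8 i632 d294 d306 d94 i1171 i227 i2327 i2331 (k2 i2029 d63 (k1 i1484 k0))))))) (by decide +kernel)
def d318 : PP 8 4 T 0x1000000000000020000000000000002800000000000000001200000000004000002 := rS 0xa7318da1509970b6c561b901a472ac15900f35a7cd27b088ecf2168c958944d85bbe5ae793ca6070f9ecce62eb (k8 i3181 i3161 i3162 i3168 i3195 i3194 i3156 i3155 (k8 i3179 i3159 i3183 i3184 d69 d6 i1133 d34 (k8 i478 i2648 i2796 i472 d179 d294 i2813 i632 (k8 i2319 i1132 i429 i765 i225 i2296 d85 i172 (k8 d75 d94 i1171 i227 i2327 i2331 i2029 d63 (k1 i1484 k0)))))) (by decide +kernel)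
def d319 : PP 8 4 T 0x1000000000000020000002000000540800000010000000001200000000004000002 := rS 0xd8ba5b20624913d9ac22798c8ec2c732b27cde7d82aad5314641289a8387cf5eb417bcde672794c0e62eb (k8 i3181 i3161 i3194 i3156 i3155 i3162 i3165 i3187 (k8 i3171 i3186 i3168 i3195 d317 d69 d6 i1132 (k8 d315 i937 i583 i429 i126 i1135 i2813 i1133 (k8 d312 i478 i2796 d34 i2648 i472 i632 d179 (k4 d318 i2019 d46 i2045 (k2 i887 d308 (k1 i1681 k0))))))) (by decide +kernel)
def d320 : PP 8 4 T 0x1000000000000000000002000000540800000010000000001200000000004000002 := rS 0xb65da05985c429ecf26a8c2442ad141aad531437b20ac8b2ca342c7d399289af796c0e4f2987cf66731 (k8 i3161 i3162 i3168 i3195 i3156 i3155 i3194 i3159 (k8 i3187 d69 d6 d312 i126 i478 i2642 i2406 (k8 i2292 i1133 i1132 i1135 d315 i937 i583 d317 (k8 d319 i637 i1170 d48 d311 d284 d64 i1869 (k4 i507 i508 i1402 i3122 (k2 i2045 i887 k0)))))) (by decide +kernel)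
def d321 : PP 8 4 T 0x1000000000000010000002000000100400400000800008001200000000004000002 := rS 0xcb0394412700fadc66a55dc59c8cc2e3248e0f2098cce65489e42a973da6e308d45c141aad399289ac112a050a5937ae42d3995ca5cf3f75cee072787cf6673177cb5ef4d (k8 i3169 i3187 i3159 i3183 i3161 i3162 i3168 i3195 (k8 i3155 i3194 i3167 i3181 i3170 i3179 i3156 i3158 (k8 i3166 i478 d279 i1399 i2406 i1869 i1402 i860 (k8 i1248 d69 d6 d312 i1288 i2298 i431 i2292 (k8 i2642 d48 d84 d64 i1745 i637 d284 i1170 (k8 i2641 i2291 i2290 i22 i2319 i1578 i504 i507 (k8 i508 d85 i2012 i3122 d60 i1474 i887 i1395 (k4 i2045 i222 i1358 i479 (k2 i505 d295 k0))))))))) (by decide +kernel)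
def d322 : PP 8 4 T 0x1000000000000010000002000000100400400000800000001200000000004000002 := rS 0x29810371fbc02611448f5745d16c515ccc7eaa416c96793994078b150a2752bacd7e872098cc23b1799522790aa74729f4b9ed3718469289a8b82a1622770b2c55a5979c8e172596c6e9adf6bc9ddf0f9accdd33d73bb6530398bde733f (k8 i3170 i3166 i3187 i3161 i3194 i3156 i3182 i3179 (k8 i3168 i3180 i3162 i3164 i3195 i3183 i3155 i3173 (k8 i3175 i3169 i3148 i3159 i3154 i3184 i3153 i3185 (k8 i2406 i1288 i1967 i478 i2470 i689 i1869 i431 (k8 i2292 d69 d6 i2642 d48 d84 d64 i1745 (k8 d11 i1742 i1746 i637 d284 i1170 i2641 i2753 (k8 i2796 i2640 i2290 i22 i933 i1455 i634 d321 (k8 d281 i1398 d32 d19 i479 i768 i767 i950 (k8 d61 i2413 i623 i1197 i2046 i2041 d40 d268 (k8 i1971 i626 i1782 d83 i483 i3118 d4 d197 (k4 d9 d285 i2034 i2098 k0))))))))))) (by decide +kernel)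
def d323 : PP 8 4 T 0x1000000000000010000002000000100400000000800000001200000000004000002 := rS 0x572f166865faa592cd272ad95162a1d4af134118cc2654ba6e308d251351705a7a1622770b1fd62ad2cc3e6b3374cf64ee776bbe5b2981cc5ef4d (k8 i3169 i3187 i3161 i3194 i3156 i3159 i3183 i3182 (k8 i3179 i3155 i3168 i3180 i3162 i3164 i3195 i2406 (k8 i1288 i1967 i127 i478 i2470 i689 i1869 i1753 (k8 i431 i2292 d69 d6 i2642 d48 d84 i1745 (k8 i2641 i2640 i2290 d322 d24 d316 d281 d32 (k8 d19 i768 i1657 i767 i2525 d61 i623 i2925 (k4 d97 i634 i934 i2041 (k1 i1987 k0)))))))) (by decide +kernel)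
def d324 : PP 8 4 T 0x1001100000000000000000002000000000400000400015014001000000000004000000 := rS 0x7eaa5924e65458a87588d35bed793c3e6b3374cf5ceed (k8 i3182 i3179 i3168 i3180 i3162 i3164 i3195 i3155 (k8 i3173 i3175 i3169 i689 d281 d32 d19 i768 (k4 i767 d61 i623 i1197 (k1 d40 k0)))) (by decide +kernel)
def d325 : PP 8 4 T 0x1000000000000010000002000000000400000000800000001200000000004000002 := rS 0x543f12acb5f2ad7acf5dc5966cc2e324ad15a2a61729356d0cee632c99cc2654fc611a4a268591705a7c0daeed73bbe57299fbae76e36fcb64f0f9ecce62f7 (k8 i3187 i3161 i3162 i3168 i3195 i3155 i3159 i3175 (k8 i3177 i3167 i3181 i3170 i3156 i3158 i3183 i3179 (k8 i3182 i3173 i3194 i1753 i431 i2292 i478 d69 (k8 d6 i2642 d48 d11 i2641 i2640 i2291 i2406 (k8 i2290 i2470 d55 i1288 i1369 d279 d323 i1750 (k8 i942 d324 i504 i507 i508 i2326 i2012 i3122 (k8 i950 i1990 i586 d87 i1453 i1725 d31 i2040 (k1 i420 k0)))))))) (by decide +kernel)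
def d326 : PP 8 4 T 0x1001000000000000000000000020000004000000004000008001000000000004000000 := rS 0x1c89c7c (k4 i1581 i1582 d107 i757 k0) (by decide +kernel)
def d327 : PP 8 4 T 0x1000000000000020000000000000200000001000000000081200000000004000002 := rS 0x1ed64118c8ec944d0b49e530387cf66731 (k8 i3161 i3162 i3168 i3195 i3194 i3156 i3155 i478 (k8 d69 d6 i2796 d34 i472 i1109 d179 d283 k0)) (by decide +kernel)
def d328 : PP 8 4 T 0x1000000000000004000000000005001405005400000000001200000001005052000 := rS 0xf10a8998acc3a881e72385c965b1b (k8 i3148 i3159 i3154 i3184 i3153 i3185 i482 i1500 (k4 i2046 i1792 i729 i642 (k2 d38 d4 k0))) (by decide +kernel)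
def d329 : PP 8 4 T 0x8001100000000000020000000000004001000000000000000001a00000000004000002 := rS 0x330ea542b904b26567a3d3a7735b250f123d844764a269e42d1999cddef417acf61f2794c0e62ef (k8 i3183 i3161 i3194 i3156 i3155 i3195 i3168 i3186 (k8 i3171 i3187 i3165 i3162 d34 i478 i2648 d69 (k8 d6 i2796 i472 d179 i2019 d51 d61 i631 (k8 d78 i1478 i947 i950 i2641 i2406 i22 i1578 (k4 i225 d281 d230 i770 k0))))) (by decide +kernel)
def d330 : PP 8 4 T 0x8001100000000000020000000806004001000000000000000001200000000004000502 := rS 0xd2ac62a9462217211c1a19218cd9e9d3b8951e0f65b24565d43a1546c1693f40e1314c48f6111d9289a790b4665f339bbde82f59ec3e4f2981cc642d77fb85df39 (k8 i3166 i3183 i3176 i3172 i3173 i3152 i3161 i3194 (k8 i3156 i3155 i3195 i3168 i3186 i3171 i3187 i3165 (k8 i3162 i3160 d34 i478 i2648 d69 d6 i2796 (k8 i472 d179 i2019 i1737 i226 i2293 i420 d33 (k8 i1194 i163 d53 d51 i512 i386 d61 i623 (k8 i597 i947 i860 d78 i1478 i950 i1474 i41 (k8 i1038 d328 d329 d85 d25 d39 d60 d75 (k2 i2027 d263 (k1 i1434 k0))))))))) (by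 decide +kernel)
def d331 : PP 8 4 T 0x8001100000000000020000000006000200000000000000000001200000000004000002 := rS 0x286ad4a1a53c090593d642d3c9942c9125135facb64b5ddae76fc0e4f2987cf66731 (k8 i3161 i3162 i3168 i3195 i3156 i3155 i3194 i3175 (k8 i3179 i3182 i3173 d61 i623 i420 d69 d6 (k8 i2770 i478 i2641 i2648 i2655 i1109 d327 i560 (k4 i223 d330 i1565 i1112 (k2 i1434 i1482 (k1 d31 k0)))))) (by decide +kernel)
def d332 : PP 8 4 T 0x1400000000000001000000000000002000501000000000000000000000000001000000000004000000 := rS 0x1774f (k2 d73 i1949 (k1 d87 k0)) (by decide +kernel)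
def d333 : PP 8 4 T 0x1000000000000000000100000004220008000400000000001000000000004000000 := rS 0x9490269c8e30d3f209746fa79d68b15a1afe63339ec3e072993d3696db6fb85eae3 (k8 i3177 i3186 i3176 i3175 i3174 i3163 i3169 i3155 (k8 i3156 i3194 i3195 i3168 i3162 i3161 i1725 i1482 (k8 i942 i1750 i1707 i1486 i1057 d87 i1684 i1683 (k4 i681 i799 i2017 i2619 (k2 i923 d6 (k1 i2770 k0)))))) (by decide +kernel)
def d334 : PP 8 4 T 0x1000000000000000000000000000202000000000000000001000000000004000000 := rS 0x15c5e31228987225c9e530387cf66731 (k8 i3161 i3162 i3168 i3195 i3194 i3156 i3155 i2770 (k4 i1110 d6 i915 i837 (k2 i914 i1938 (k1 i2363 k0)))) (by decide +kernel)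
def d335 : PP 8 4 T 0x400000000000000101000000000000005000000000005001405004500000000001000000000004000000 := rS 0x448f133 (k4 i3162 i2046 d97 i1739 k0) (by decide +kernel)
def d336 : PP 8 4 T 0x1000000000000000000000000000001080000000000200001080000000004000001 := rS 0x6e39788ec0a101446673237bd06171b (k8 i3148 i3184 i3171 i3187 i3153 i3166 d52 i444 (k4 i443 i2335 i255 i1727 (k2 i1874 i1774 (k1 d20 k0)))) (by decide +kernel)
def d337 : PP 8 4 T 0x1001000000000000000000000000000000000080008000101000000000006000400 := rS 0x1a609038b9121e38bfdaedd (k8 i3192 i3173 i3172 i78 i1092 i231 i1091 i1301 (k2 i1348 i161 (k1 d33 k0))) (by decide +kernel)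
def d338 : PP 8 4 T 0x21000000000000080001001000110000000010000000000001000000001504000000 := rS 0x3aa33f87dc32f (k4 i3160 i3176 i1201 i681 (k2 i163 d42 (k1 i2030 k0))) (by decide +kernel)
def d339 : PP 8 4 T 0x1001000000000000101000010110000400000540808155141000001001104800421 := rS 0x2e0ce9538ac912af0334d26ca5b9fe18235a9f6210541a06245f17aac12033794d62ff6bb8dc33193d2db72d9bbd5d2e777cd5db2f (k8 i3160 i3182 i3164 i3183 i3179 i3180 i3186 i3165 (k8 i3159 i3174 i3163 i3155 i3161 i3176 i3177 i3173 (k8 i3172 i1967 i536 i1319 i998 i1349 i2361 i1079 (k8 i629 d17 d46 d24 i431 d32 d67 i689 (k8 i1469 d8 i681 i682 i2037 i1367 d338 d33 (k8 i2338 i1341 i2038 i710 d231 i2373 i2044 i1406 k0)))))) (by decide +kernel)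
def d340 : PP 8 4 T 0x1002000000000000000001000000014000000510808150161000000000004000000 := rS 0x2cd0666892e0be8f58abcfab740c322a6f3994deb279bcb662db99b7e974d9ec3dc735 (k8 i3164 i3177 i3195 i3168 i3169 i3163 i3175 i3162 (k8 i3174 i3161 i3159 i3165 i3155 i3186 i419 i836 (k8 i1319 d3 i2017 i1205 i682 i1204 i423 i1200 (k8 i874 i629 d205 d17 i1406 d24 i2373 i2038 k0)))) (by decide +kernel)
def d341 : PP 8 4 T 0x1000000000000000000004540000000000100000000540541000000000004000000 := rS 0x449053196cde4ef5 (k8 i3186 i3155 i3165 i3159 i3161 i2038 d17 d24 k0) (by decide +kernel)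
def d342 : PP 8 4 T 0x1000000000000001800000000000000081000000410555001000000000004000000 := rS 0x6d34a1e253196cde4ef5 (k8 i3186 i3155 i3165 i3159 i3161 d17 d51 i1888 (k2 i2381 i2039 k0)) (by decide +kernel)
def d343 : PP 8 4 T 0x1000000000001021000000000000000000000000000541000401050000000001000000000004000000 := rS 0xf51837add02dfa6cddc733 (k8 i3162 i3177 i3165 i3169 i3175 i1205 i682 i1203 (k2 d62 i2045 (k1 d64 k0))) (by decide +kernel)
def d344 : PP 8 4 T 0x1100000000000000000020004000200000000000480000001000000000004000000 := rS 0x29e6936b393aba49bbe5ae7 (k8 i3179 i3159 i3183 i130 i1144 i1943 i1143 i1681 (k2 i1623 d96 (k1 d63 k0))) (by decide +kernel)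
def d345 : PP 8 4 T 0x1000000000000000000000000000000000002000000800021000100000004800000 := rS 0x3c42a13089146c2802065e72385c965b1b (k8 i3148 i3159 i3154 i3184 i3153 i3185 i8 i708 (k8 i973 i972 i526 i2342 i266 i252 d9 d4 k0)) (by decide +kernel)
def d346 : PP 8 4 T 0x1000000000000000000000800000540010400000000800001000500100004400420 := rS 0x7ea71b8f450141381c5e44218625f0f6cce67b33 (k8 i3162 i3168 i3166 i3191 i3195 i3160 d21 i518 (k8 i228 i315 i520 i731 i643 i644 i1253 i1044 (k2 i330 i257 (k1 i2034 k0)))) (by decide +kernel)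
def d347 : PP 8 4 T 0x1002000000000000000000080000000000000000000000001000000000004000000 := rS 0xe3 (k2 i3177 i423 k0) (by decide +kernel)
def d348 : PP 8 4 T 0x20001000000000000000000000000000002000000000000000001000000000004000000 := rS 0xf5 (k2 i3186 i955 k0) (by decide +kernel)
def d349 : PP 8 4 T 0x201000000000000000000002000000000000000000000000001000000000004000000 := rS 0xed (k2 i3182 i689 k0) (by decide +kernel)
def d350 : PP 8 4 T 0x2001000000000000000000000000000020000000000000000001000000000004000000 := rS 0xe1 (k2 i3176 i941 k0) (by decide +kernel)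
def d351 : PP 8 4 T 0x1000002000000000080000000000000000000000000000001000000000004000000 := rS 0xfb (k2 i3189 i179 k0) (by decide +kernel)
def d352 : PP 8 4 T 0x21000000000000000000008000000000000000000000000001000000000004000000 := rS 0xe3 (k2 i3177 i682 k0) (by decide +kernel)
def d353 : PP 8 4 T 0x21000000000000000000000000000000000080000000000001000000000004000000 := rS 0xe1 (k2 i3176 i681 k0) (by decide +kernel)
def d354 : PP 8 4 T 0x4001100000000000000100000000000000000000000050000001000000000004000000 := rS 0x40e76eb9fb9e532b (k8 i3158 i3156 i3179 i3170 i3181 i3167 i3194 i2012 k0) (by decide +kernel)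
def d355 : PP 8 4 T 0x2000000000000001000000000000000000000800000000000000000000000001000000000004000000 := rS 0xf3 (k2 i3185 i1217 k0) (by decide +kernel)
def d356 : PP 8 4 T 0x21000000000000000000000000000000000000008000000001000000000004000000 := rS 0x133 (k2 i3162 i1203 k0) (by decide +kernel)
def d357 : PP 8 4 T 0x1000000000000411000000000000000000004000000000000500000000000001000000000004000000 := rS 0xf56dd2e6ee3 (k4 i3177 i3165 i3163 i3174 (k2 i3186 d1 k0)) (by decide +kernel)
def d358 : PP 8 4 T 0x1000000000000080000000000000000000000000000000001000000800004000000 := rS 0xdd (k2 i3192 i161 k0) (by decide +kernel)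
def d359 : PP 8 4 T 0x1000000000000080000000000800000000000000000000001000000000004000000 := rS 0xe3 (k2 i3177 i164 k0) (by decide +kernel)
def d360 : PP 8 4 T 0x1002000000000000000000020000000000000000000000001000000000004000000 := rS 0x12b (k2 i3158 i1199 k0) (by decide +kernel)
def d361 : PP 8 4 T 0x2001000000000000000000000000000000000000020000000001000000000004000000 := rS 0x13d (k2 i3168 i1208 k0) (by decide +kernel)
def d362 : PP 8 4 T 0x20001000000000000000000000000002000000000000000000001000000000004000000 := rS 0x13f (k2 i3170 i1746 k0) (by decide +kernel)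
def d363 : PP 8 4 T 0x20001000000000000000000000000000000000000000000000001000800000004000000 := rS 0x10b (k2 i3184 i952 k0) (by decide +kernel)
def d364 : PP 8 4 T 0x20001000000000000000000000000000000000000000000000001000200000004000000 := rS 0x139 (k2 i3166 i1742 k0) (by decide +kernel)
def d365 : PP 8 4 T 0x1000000000000001000001000000040000000000400000000000000000000001005000000004000000 := rS 0x12385b8dff47 (k4 i3151 i3172 i3177 i3184 (k2 i3153 d2 k0)) (by decide +kernel)
def d366 : PP 8 4 T 0x1200000000000000000000000000000000000000800000001000000000004000000 := rS 0xef (k2 i3183 i431 k0) (by decide +kernel)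
def d367 : PP 8 4 T 0x1000000000000000000000000000002200000000000000001000000000004000000 := rS 0x0 (k1 i1031 k0) (by decide +kernel)
def d368 : PP 8 4 T 0x801000000000000000000000000000000000000000000200001000000000004000000 := rS 0x131 (k2 i3161 i1738 k0) (by decide +kernel)
def d369 : PP 8 4 T 0x21000000000000000000000000000000000000000000000801000000000004000000 := rS 0xd7 (k2 i3173 i678 k0) (by decide +kernel)
def d370 : PP 8 4 T 0x1200000000000000200000000000000000000000000000001000000000004000000 := rS 0xeb (k2 i3181 i429 k0) (by decide +kernel)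
def d371 : PP 8 4 T 0x1000001000000000000000000000000000000000000000001000000000004150000 := rS 0x2372d92c2e46f3 (k4 i3185 i3153 i3184 i3154 (k2 i3159 i3148 (k1 d4 k0))) (by decide +kernel)
def d372 : PP 8 4 T 0x1000000000000000000000000000000000000080002000001000000000004000000 := rS 0x0 (k1 i1016 k0) (by decide +kernel)
def d373 : PP 8 4 T 0x1000000000000000000000000000000800000000000002001000000000004000000 := rS 0x0 (k1 i765 k0) (by decide +kernel)
def d374 : PP 8 4 T 0x1002000000000000000000002000000000000000000000001000000000004000000 := rS 0x103 (k2 i3194 i420 k0) (by decide +kernel)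
def d375 : PP 8 4 T 0x1000000000000080000000000080000000000000000000001000000000004000000 := rS 0xe1 (k2 i3176 i163 k0) (by decide +kernel)
def d376 : PP 8 4 T 0x2000000000000001000000000000000000080000000000000000000000000001000000000004000000 := rS 0xe1 (k2 i3176 i1751 k0) (by decide +kernel)
def d377 : PP 8 4 T 0x2000000000000001000000000000000000000000800000000000000000000001000000000004000000 := rS 0xff (k2 i3172 i1747 k0) (by decide +kernel)
def d378 : PP 8 4 T 0x800000000000001000000000000000000200000000000000000000000000001000000000004000000 := rS 0xef (k2 i3183 i1215 k0) (by decide +kernel)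
def d379 : PP 8 4 T 0x8001000000000000000000000000000000000000000000000001000008000004000000 := rS 0x139 (k2 i3166 i1474 k0) (by decide +kernel)
def d380 : PP 8 4 T 0x8001000000000000000000000000000000800000000000000001000000000004000000 := rS 0x10f (k2 i3195 i947 k0) (by decide +kernel)
def d381 : PP 8 4 T 0x800000000000000001000000000000000080000000000000000000000000000001000000000004000000 := rS 0x10b (k2 i3184 i1484 k0) (by decide +kernel)
def d382 : PP 8 4 T 0x1000000002000000002000000000000000000000000000001000000000004000000 := rS 0x147 (k2 i3151 i1462 k0) (by decide +kernel)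
def d383 : PP 8 4 T 0x1011000000000000000000000000000000000000054000000001000000000004000000 := rS 0x4cdbedba5d367b0f (k8 i3195 i3168 i3169 i3163 i3174 i3175 i3162 i2017 k0) (by decide +kernel)
def d384 : PP 8 4 T 0x1000000000000080002000000000000000000000000000001000000000004000000 := rS 0x121 (k2 i3152 i1194 k0) (by decide +kernel)
def d385 : PP 8 4 T 0x8001000000000000008000000000000000000000000000000001000000000004000000 := rS 0xef (k2 i3183 i950 k0) (by decide +kernel)
def d386 : PP 8 4 T 0x801000000000000000000000000000000000000000000000001000000020004000000 := rS 0x12f (k2 i3160 i1737 k0) (by decide +kernel)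
def d387 : PP 8 4 T 0x201000000000000000000000000000000002000000000000001000000000004000000 := rS 0x137 (k2 i3165 i1473 k0) (by decide +kernel)
def d388 : PP 8 4 T 0x1002000000000000000000000000000000000000000000001000000000004000800 := rS 0xff (k2 i3172 i417 k0) (by decide +kernel)
def d389 : PP 8 4 T 0x800000000000000001000000000000000000000000000000000000002000000001000000000004000000 := rS 0xf3 (k2 i3185 i1485 k0) (by decide +kernel)
def d390 : PP 8 4 T 0x801000000000000000000000000000002000000000000000001000000000004000000 := rS 0x10f (k2 i3195 i695 k0) (by decide +kernel)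
def d391 : PP 8 4 T 0x400000000005001000000000000000000010000000014000000000000000001000000000004000000 := rS 0x1bee1a6baddb3f (k4 i3170 i3182 i3181 i3169 (k2 i3176 i3175 (k1 i2023 k0))) (by decide +kernel)
def d392 : PP 8 4 T 0x1000000000000000000000000000000000000000000000015000000000004000000 := rS 0x49e530387cf66731 (k8 i3161 i3162 i3168 i3195 i3194 i3156 i3155 d6 k0) (by decide +kernel)
def d393 : PP 8 4 T 0x1000002000000000000000000000000000000000000000001000000000004020000 := rS 0x11b (k2 i3148 i1727 k0) (by decide +kernel)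
def d394 : PP 8 4 T 0x21000000000000000000000000000000000020000000000001000000000004000000 := rS 0x135 (k2 i3164 i1204 k0) (by decide +kernel)
def d395 : PP 8 4 T 0x1002000000000000000000000000000000000000000000081000000000004000000 := rS 0x127 (k2 i3155 i1197 k0) (by decide +kernel)
def d396 : PP 8 4 T 0x1002000000000000000000000000000000000000002000001000000000004000000 := rS 0x129 (k2 i3156 i1198 k0) (by decide +kernel)
def d397 : PP 8 4 T 0x400000000000014001000000000000004000000000005000000000000000000001000000000004000000 := rS 0xef9fbddd741 (k4 i3171 i3181 i3187 i3170 (k2 i3183 d7 k0)) (by decide +kernel)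
def d398 : PP 8 4 T 0x1000000000000000000000000000000000002000000000001000200000004000000 := rS 0x0 (k1 i1852 k0) (by decide +kernel)
def d399 : PP 8 4 T 0x11001000000000000000000000000000000000000000000541000000000004000000 := rS 0xdb6bd2e4f31 (k4 i3161 i3155 i3163 i3173 (k2 i3174 d8 k0)) (by decide +kernel)
def d400 : PP 8 4 T 0x201000000000000000000000000000000000000200000000001000000000004000000 := rS 0x133 (k2 i3162 i1471 k0) (by decide +kernel)
def d401 : PP 8 4 T 0x201000000000000000000000000000000000000000000000001000000000804000000 := rS 0x12f (k2 i3160 i1469 k0) (by decide +kernel)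
def d402 : PP 8 4 T 0x1000000002000000000000000000000000000000000000001000000002004000000 := rS 0xd9 (k2 i3191 i167 k0) (by decide +kernel)
def d403 : PP 8 4 T 0x201000000000000000000000000000000000000000000000001000000002004000000 := rS 0x107 (k2 i3178 i684 k0) (by decide +kernel)
def d404 : PP 8 4 T 0x801000000000000000000000000000000000002000000000001000000000004000000 := rS 0x133 (k2 i3162 i1739 k0) (by decide +kernel)
def d405 : PP 8 4 T 0x20001000000000000000000000000000080000000000000000001000000000004000000 := rS 0x14d (k2 i3169 i1745 k0) (by decide +kernel)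
def d406 : PP 8 4 T 0x201000000000000000000000000000000800000000000000001000000000004000000 := rS 0x10f (k2 i3195 i687 k0) (by decide +kernel)
def d407 : PP 8 4 T 0x2001000000000000000000000000000080000000000000000001000000000004000000 := rS 0x141 (k2 i3171 i1210 k0) (by decide +kernel)
def d408 : PP 8 4 T 0x2000000000000001000000000000000000000000000200000000000000000001000000000004000000 := rS 0xdf (k2 i3175 i1750 k0) (by decide +kernel)
def d409 : PP 8 4 T 0x10401000000000000000000000000000001000005000000000001000000000004000000 := rS 0x4ce6ef7a0bd67b0f (k8 i3195 i3168 i3186 i3171 i3187 i3165 i3162 i2019 k0) (by decide +kernel)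
def d410 : PP 8 4 T 0x101000000001000000000000000000000000000000000000001000000001504000000 := rS 0x26b2f6cc1e42e9 (k4 i3180 i3152 i3178 i3191 (k2 i3160 i3164 (k1 d13 k0))) (by decide +kernel)
def d411 : PP 8 4 T 0x201000000000000000000000000000000000000000000020001000000000004000000 := rS 0xe7 (k2 i3179 i686 k0) (by decide +kernel)
def d412 : PP 8 4 T 0x1002000000000000000000000000000000000000000000801000000000004000000 := rS 0xdb (k2 i3174 i419 k0) (by decide +kernel)
def d413 : PP 8 4 T 0x1002000000000000000000000000000000000000000000001000000000004000200 := rS 0x125 (k2 i3154 i1196 k0) (by decide +kernel)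
def d414 : PP 8 4 T 0x1000000000000001001000000000000000000540000000000000000000000001000000000004000000 := rS 0x35e5ae3 (k4 i3177 i3159 i3173 d14 k0) (by decide +kernel)
def d415 : PP 8 4 T 0x1000000000000000000000000000000000000800000000001000000002004000000 := rS 0x0 (k1 i803 k0) (by decide +kernel)
def d416 : PP 8 4 T 0x1000002000000000000000000000000000000000000000001000800000004000000 := rS 0xf7 (k2 i3187 i177 k0) (by decide +kernel)
def d417 : PP 8 4 T 0x1001000000000000040000000000000000010000000000000001000000500004000000 := rS 0x6fbfe9b39 (k4 i3166 i3169 i3172 i3175 (k1 d16 k0)) (by decide +kernel)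
def d418 : PP 8 4 T 0x401000000000000000000000000000000000000000000540001000000000004000000 := rS 0x13196cde4ef5 (k4 i3186 i3155 i3165 i3159 (k2 i3161 d17 k0)) (by decide +kernel)
def d419 : PP 8 4 T 0x401000001000000000000000000000000000000000000000001000000054004000000 := rS 0x26f237acbe16d9 (k4 i3191 i3184 i3160 i3186 (k2 i3153 i3165 (k1 d18 k0))) (by decide +kernel)
def d420 : PP 8 4 T 0x1000000000000000000000000000000000000000008000081000000000004000000 := rS 0x0 (k1 i1351 k0) (by decide +kernel)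
def d421 : PP 8 4 T 0x800000000000001000000000000000000000000200000000000000000000001000000000004000000 := rS 0x107 (k2 i3178 i1211 k0) (by decide +kernel)
def d422 : PP 8 4 T 0x4101000000000000000000000000000000400000500000000001000000000004000000 := rS 0x13d74cce6b0f (k4 i3195 i3164 i3162 i3180 (k2 i3168 d19 k0)) (by decide +kernel)
def d423 : PP 8 4 T 0x2001000000000000000000000000000000000000000000000001000000800004000000 := rS 0xff (k2 i3172 i936 k0) (by decide +kernel)
def d424 : PP 8 4 T 0x2000000000000001000000000000000000008000000000000000000000000001000000000004000000 := rS 0xdb (k2 i3174 i1749 k0) (by decide +kernel)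
def d425 : PP 8 4 T 0x2001000000000000000000000002000000000000000000000001000000000004000000 := rS 0x103 (k2 i3194 i937 k0) (by decide +kernel)
def d426 : PP 8 4 T 0x10001000001000000000000000000000000000000000000000001000540000004000000 := rS 0x10ba0bde4739 (k4 i3166 i3153 i3187 i3171 (k2 i3184 d20 k0)) (by decide +kernel)
def d427 : PP 8 4 T 0x1000000000000000000000000000000000000000000000001000000000005400000 := rS 0x25f0f6cce67b33 (k4 i3162 i3168 i3166 i3191 (k2 i3195 i3160 (k1 d21 k0))) (by decide +kernel)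
def d428 : PP 8 4 T 0x1000000000000000000000000000000000000080000000081000000000004000000 := rS 0x0 (k1 i757 k0) (by decide +kernel)
def d429 : PP 8 4 T 0x800000000000000001000000000000000000000000000000000000000800000001000000000004000000 := rS 0xe7 (k2 i3179 i1753 k0) (by decide +kernel)
def d430 : PP 8 4 T 0x1000000000000000000000000000000000000000000000001000000000004000015 := rS 0x46e5339 (k4 i3166 i3156 i3148 d26 k0) (by decide +kernel)
def d431 : PP 8 4 T 0x1200000000000000000000000000000000000000200000001000000000004000000 := rS 0x12d (k2 i3159 i1468 k0) (by decide +kernel)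
def d432 : PP 8 4 T 0x1000000000000000000000000000000000000000020008001000000000004000000 := rS 0x0 (k1 i1580 k0) (by decide +kernel)
def d433 : PP 8 4 T 0x800000000000000001000000000000000008000000000000000000000000000001000000000004000000 := rS 0x107 (k2 i3178 i1752 k0) (by decide +kernel)
def d434 : PP 8 4 T 0x1000000000000000000000000000000000000000000000001150000000004000000 := rS 0x3664f2f (k4 i3160 i3155 i3191 d29 k0) (by decide +kernel)
def d435 : PP 8 4 T 0x400000000000000001000001001000000054000000000000000000000000000001000000000004000000 := rS 0x10b77c8e4307 (k4 i3178 i3152 i3153 i3183 (k2 i3184 d30 k0)) (by decide +kernel)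
def d436 : PP 8 4 T 0x400000000000001101000000000000400000014000000000000000000000001000000000004000000 := rS 0x39ddad7 (k4 i3173 i3182 i3179 d31 k0) (by decide +kernel)
def d437 : PP 8 4 T 0x800000000000000001000000000000000000200000000000000000000000000001000000000004000000 := rS 0xed (k2 i3182 i1756 k0) (by decide +kernel)
def d438 : PP 8 4 T 0x101100000000000000000000000000000000000000000015001000000000004000000 := rS 0x74b9e6b27 (k4 i3155 i3164 i3179 i3180 (k1 d32 k0)) (by decide +kernel)
def d439 : PP 8 4 T 0x1000000000000000000000000000000000000000000000001020000000004800000 := rS 0x0 (k1 i739 k0) (by decide +kernel)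
def d440 : PP 8 4 T 0x1000000000000000000000000000000000000000000000021020000000004000000 := rS 0x0 (k1 i787 k0) (by decide +kernel)
def d441 : PP 8 4 T 0x1000000000000000000000000000000080000000000080001000000000004000000 := rS 0x0 (k1 i1884 k0) (by decide +kernel)
def d442 : PP 8 4 T 0x1001000000000040000000000000000000000000000000001000000000004000540 := rS 0x1aeff (k2 i3172 i3173 (k1 d33 k0)) (by decide +kernel)
def d443 : PP 8 4 T 0x1000000000000000000000000000000800000000020000001000000000004000000 := rS 0x0 (k1 i1024 k0) (by decide +kernel)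
def d444 : PP 8 4 T 0x1000000000000080000000000000000000000000000000001000000800004000000 := rS 0xdf (k2 i3175 i162 k0) (by decide +kernel)
def d445 : PP 8 4 T 0x1000000000000000000000000000000200000000000200001000000000004000000 := rS 0x0 (k1 i1846 k0) (by decide +kernel)
def d446 : PP 8 4 T 0x8001000000000000000000000000000000000000000000000001000020000004000000 := rS 0x107 (k2 i3178 i944 k0) (by decide +kernel)
def d447 : PP 8 4 T 0x800000000000001000000000000000000000000000020000000000000000001000000000004000000 := rS 0xdf (k2 i3175 i1482 k0) (by decide +kernel)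
def d448 : PP 8 4 T 0x1000000000000000000000000000000000000800000000001000002000004000000 := rS 0x0 (k1 i1508 k0) (by decide +kernel)
def d449 : PP 8 4 T 0x2001000000000000000000000000000200000000000000000001000000000004000000 := rS 0xe3 (k2 i3177 i942 k0) (by decide +kernel)
def d450 : PP 8 4 T 0x1001001000000000000000000001000000000000000005000001000000000004000000 := rS 0x35dbf4d (k4 i3169 i3175 i3173 d40 k0) (by decide +kernel)
def d451 : PP 8 4 T 0x1000000000000000000000000000000000008000000000001000000080004000000 := rS 0x0 (k1 i811 k0) (by decide +kernel)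
def d452 : PP 8 4 T 0x8001000000000000000000000000002000000000000000000001000000000004000000 := rS 0x141 (k2 i3171 i1478 k0) (by decide +kernel)
def d453 : PP 8 4 T 0x1000000000000000000000000000000000000000000000001000000000004800008 := rS 0x0 (k1 i998 k0) (by decide +kernel)
def d454 : PP 8 4 T 0x201000000000000002000000000000000000000000000000001000000000004000000 := rS 0xef (k2 i3183 i690 k0) (by decide +kernel)
def d455 : PP 8 4 T 0x1002000000000000000000200000000000000000000000001000000000004000000 := rS 0x12d (k2 i3159 i1200 k0) (by decide +kernel)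
def d456 : PP 8 4 T 0x1000000000000000000000000000000000000000000000009000000000004000020 := rS 0x0 (k1 i486 k0) (by decide +kernel)
def d457 : PP 8 4 T 0x2000000000000001000000000000000000000000000000000800000000000001000000000004000000 := rS 0xf5 (k2 i3186 i1218 k0) (by decide +kernel)
def d458 : PP 8 4 T 0x800000000000001000000000000000000000008000000000000000000000001000000000004000000 := rS 0xd7 (k2 i3173 i1480 k0) (by decide +kernel)
def d459 : PP 8 4 T 0x2000000000000001000000000000000000000000000000000000000000000001008000000004000000 := rS 0x10b (k2 i3184 i1216 k0) (by decide +kernel)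
def d460 : PP 8 4 T 0x1000000000000000000000000000000000000200000000001000008000004000000 := rS 0x0 (k1 i1586 k0) (by decide +kernel)
def d461 : PP 8 4 T 0x10001000000000000010000000000000000140000000000000001000000000004000000 := rS 0x25af7 (k2 i3187 i3159 (k1 d48 k0)) (by decide +kernel)
def d462 : PP 8 4 T 0x1000000000000080000000000000000000000000000000001000000000004000800 := rS 0xd7 (k2 i3173 i158 k0) (by decide +kernel)
def d463 : PP 8 4 T 0x1000000000000000000000000020000000000020000000001000000000004000000 := rS 0x0 (k1 i795 k0) (by decide +kernel)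
def d464 : PP 8 4 T 0x1000000000000000000000000000000000008000000000001000080000004000000 := rS 0x0 (k1 i1776 k0) (by decide +kernel)
def d465 : PP 8 4 T 0x21000000000000000000000000000000000200000000000001000000000004000000 := rS 0x137 (k2 i3165 i1205 k0) (by decide +kernel)
def d466 : PP 8 4 T 0x1000000000011001000000000000000000000000000540000000000000000001000000000004000000 := rS 0x29adf (k2 i3175 i3169 (k1 d62 k0)) (by decide +kernel)
def d467 : PP 8 4 T 0x400000000000000001100000000000000000000000000000000000001500000001000000000004000000 := rS 0x39e5aef (k4 i3183 i3159 i3179 d63 k0) (by decide +kernel)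
def d468 : PP 8 4 T 0x4001000000001000000000000000000000000000000000000001000015000004000000 := rS 0x24307 (k2 i3178 i3152 (k1 d65 k0)) (by decide +kernel)
def d469 : PP 8 4 T 0x800000000000001000000000000000000000000080000000000000000000001000000000004000000 := rS 0xff (k2 i3172 i1479 k0) (by decide +kernel)
def d470 : PP 8 4 T 0x1000000002000000008000000000000000000000000000001000000000004000000 := rS 0xef (k2 i3183 i172 k0) (by decide +kernel)
def d471 : PP 8 4 T 0x1000000000000080000000000020000000000000000000001000000000004000000 := rS 0xdb (k2 i3174 i160 k0) (by decide +kernel)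
def d472 : PP 8 4 T 0x21000000000000000000000000020000000000000000000001000000000004000000 := rS 0xff (k2 i3172 i676 k0) (by decide +kernel)
def d473 : PP 8 4 T 0x2001000000000000000000000002000000000000000000000001000000000004000000 := rS 0xd7 (k2 i3173 i938 k0) (by decide +kernel)
def d474 : PP 8 4 T 0x1200000000000000000000000000000000000000000002001000000000004000000 := rS 0x127 (k2 i3155 i1465 k0) (by decide +kernel)
def d475 : PP 8 4 T 0x400000000000001000000001000040001000000140000000000000000000001000000000004000000 := rS 0xff (k2 i3172 d80 k0) (by decide +kernel)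
def d476 : PP 8 4 T 0x21000000000000000000000000000000000000000000000001000000000084000000 := rS 0x12f (k2 i3160 i1201 k0) (by decide +kernel)
def d477 : PP 8 4 T 0x2001000000000000000000000000000000000000080000000001000000000004000000 := rS 0xdb (k2 i3174 i940 k0) (by decide +kernel)
def d478 : PP 8 4 T 0x800000000000000001000000000000000000000000000000008000000000000001000000000004000000 := rS 0xf5 (k2 i3186 i1486 k0) (by decide +kernel)
def d479 : PP 8 4 T 0x11000000000000040000000000010000000000000000000001000000000054000000 := rS 0x1b72f (k2 i3160 i3174 (k1 d90 k0)) (by decide +kernel)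
def d480 : PP 8 4 T 0x8001000000000000000000000000000008000000000000000001000000000004000000 := rS 0x14d (k2 i3169 i1477 k0) (by decide +kernel)
def d481 : PP 8 4 T 0x400000000000111000000000000000000001000000000000050000000000001000000000004000000 := rS 0xdb (k2 i3174 d93 k0) (by decide +kernel)
def d482 : PP 8 4 T 0x1100000000000000000020000000000000000000080000001000000800004005000 := rS 0xe5238d06693 (k4 i130 i319 i1137 i1617 (k2 d15 d85 k0)) (by decide +kernel)
def d483 : PP 8 4 T 0x1001000000000000000000000000000540010000000000000001005540500004000000 := rS 0x14cd2 (k2 d417 i2034 (k1 d359 k0)) (by decide +kernel)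
def d484 : PP 8 4 T 0x1100000000000000000020004000000000000000080000001000000800004004000 := rS 0x18a2 (k2 i1138 d482 (k1 i1647 k0)) (by decide +kernel)
def d485 : PP 8 4 T 0x1001000000000000000000000000000540010000000000000001004540500004000000 := rS 0x78d2 (k2 d417 d483 (k1 d88 k0)) (by decide +kernel)
def d486 : PP 8 4 T 0x1100000000000000000020004000000000000000080000001000000800004000400 := rS 0x1ca2 (k2 i1138 d484 (k1 i322 k0)) (by decide +kernel)
def d487 : PP 8 4 T 0x1000000000000000000020000000540000000000008000001000540000004008000 := rS 0x10d37878a2282f21e9c694e974d66d8c0517a81788fa2a73298bc16ab4aa2466c949b1c265b088ac302d03a159a715ac40b2231a01006653080488432095c984b2a99a0aca (k8 i1405 d54 i1406 d68 i2308 d392 i2352 d440 (k8 i2365 d434 d69 i74 i1026 i341 d430 i542 (k8 i2125 i604 d438 d349 i1407 d454 d387 i2345 (k8 i1237 i526 i2230 i2347 d147 i227 i2241 i130 (k8 i616 i285 i1404 i104 i538 i2368 d486 i2369 (k8 i836 d3 d485 d27 i1333 i1412 d371 d426 (k8 i674 i628 i2354 d362 i1623 d467 d478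 i2039 (k4 i644 i648 i256 i1319 (k2 d476 d383 k0))))))))) (by decide +kernel)
def d488 : PP 8 4 T 0x1000000000000000000020000000540000000000008000001000140000004008000 := rS 0xba6b2fa2828291d3350b102c88d8e04220d006432d994c3052a90402572612cccca (k8 i1405 i1406 i2308 d392 i2352 d69 d440 d68 (k8 d54 i74 i1026 d147 i2365 i341 i542 d434 (k8 d430 i2241 i2125 i604 d438 d387 d454 d487 (k4 i2132 i392 i393 i644 (k2 i628 i2354 (k1 d342 k0)))))) (by decide +kernel)
def d489 : PP 8 4 T 0x1000000000000000800000000000000000000000010441021000800000004204000 := rS 0x199104516408852244887052095cd65d (k8 i2354 i627 i2352 d440 d54 i635 d418 d434 (k4 d53 i525 i603 i393 (k2 d438 d342 (k1 d454 k0)))) (by decide +kernel)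
def d490 : PP 8 4 T 0x1000000000000000800000000000000000000000010041021000800010004244000 := rS 0x111642229782241 (k8 d440 i136 d489 i644 d434 i2374 d224 i393 k0) (by decide +kernel)
def d491 : PP 8 4 T 0x1000000000000000800004540000000010000000018001421000800410004004000 := rS 0x40448a25f0397522d221061142d2285d1a050ac549e5b20c6426d1 (k8 i655 i215 d363 d440 d147 d420 d3 d490 (k8 i392 i1030 i708 i525 i1238 d461 d427 d434 (k8 d417 i1169 i444 d49 i552 i439 d418 d341 (k1 d46 k0)))) (by decide +kernel)
def d492 : PP 8 4 T 0x1000000000000000800000000000540000000000018001421000800400004004000 := rS 0x442a5d451e40a901404da2b759d11131978c555eb1 (k8 i1354 i540 d3 d416 d363 i397 d466 d355 (k8 d424 i655 i215 d491 i255 i2132 i148 i915 (k4 i532 i549 i1835 d371 k0))) (by decide +kernel)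
def d493 : PP 8 4 T 0x1000000000000000000020000000540080000000008000001000140000004000010 := rS 0x394110811fade25442e97d67198a93cb6af588045a422290522180b8ec1e2f05c1556952612ca65533328ca61 (k8 i74 i1026 i1405 i1406 d68 i2369 i2308 d392 (k8 i104 i538 d54 i2368 d486 d488 d492 i708 (k8 d427 i1168 d440 i525 d434 i1238 d69 i1354 (k8 i540 d147 d420 d3 d52 i554 i552 d336 (k8 d466 d418 d424 d459 d46 d485 d341 i1341 (k1 i439 k0)))))) (by decide +kernel)
def d494 : PP 8 4 T 0x1000000000000000000020000000000020000000000000001000000000006000000 := rS 0x14832 (k2 i1404 i1403 (k1 i2111 k0)) (by decide +kernel)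
def d495 : PP 8 4 T 0x1000000000000000000020000000540000000000008000001000140000004100010 := rS 0xe30d5b17d666f0814426817881c7cd204a24ba8b15908302d2285e2a4f2dabd6273208ec1e2f05c1556952612ca65533328ca61 (k8 i74 i1026 i1405 i1406 d68 i2369 i2308 d392 (k8 i104 i538 d54 i2368 d486 d488 d492 d440 (k8 i836 i1354 i540 d147 d420 d3 i708 i525 (k8 i1238 d427 d434 i387 d493 i531 d494 i1348 (k8 d417 d485 d49 d27 i1333 i216 i439 d371 (k4 i1319 i473 i470 d341 (k2 d352 i802 (k1 d383 k0)))))))) (by decide +kernel)
def d496 : PP 8 4 T 0x1000000000000000800404000000540040105014080000001400000000004155000 := rS 0xb4882f0b26c34a7630cd89a08d6912a9cca6572612d8ac3724158ef0 (k8 d371 d351 d54 d85 d470 d75 i2308 d392 (k8 i2352 i2369 i836 d68 i915 i547 i2045 d24 (k8 i895 d409 d362 i1623 i2029 i670 i674 d438 (k2 i1415 d349 k0)))) (by decide +kernel)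
def d497 : PP 8 4 T 0x1000000000000000000020000000540000000000008000001000140000004100000 := rS 0x6a2f1b4d2b3452056f0c379ecf2512e85884450307ce22c448fd8ec362a95e0e40884c1a47024549e5b57ac57e73208ec1e2f05c1556952612ca65533328ca61 (k8 i74 i1026 i1405 i1406 d68 i2369 i2308 d392 (k8 i104 i538 d54 i2368 d486 d488 d492 d440 (k8 i836 i1457 i1354 i540 d147 d420 d3 d495 (k8 i265 i2340 i266 i524 d85 d371 d60 d75 (k8 d470 d351 d27 i1403 d485 d70 i2844 i1237 (k8 i2345 d434 i518 i2335 i2333 i972 i714 i969 (k8 d383 d352 d465 d496 i554 i1888 i2381 d341 (k2 i2029 i2372 k0)))))))) (by decide +kernel)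
def d498 : PP 8 4 T 0x1000000000000000000000000000541010004000008000421000040400004a00020 := rS 0xd3168707c8240c30deb7289784c713c90a2a73 (k8 i836 d3 i707 i972 i710 i636 i635 i2333 (k8 i852 i1319 d383 d465 i2045 i736 i735 i1424 (k2 d42 d417 k0))) (by decide +kernel)
def d499 : PP 8 4 T 0x1000000000000000000020000000540000000000008000001000140000004000000 := rS 0x19ec7a71b466bd118fa202d2c81c88180ba258aa518b90d2350691cf69d02246300345b0cd6f10a0ec1e2f2b804985325954170555a7cccca32a562a61 (k8 i74 d3 i104 i1026 i1405 i1406 i1189 i538 (k8 d54 i2368 d68 i2308 i2369 d392 d69 i2352 (k8 d486 d488 d492 d497 d35 i627 i369 i550 (k8 i379 d426 i915 d430 d362 d64 i265 i2340 (k8 i354 i1623 d85 i1505 d60 d75 i1403 d498 (k8 d427 i228 i2345 i603 i1237 d438 d485 d401 (k4 i1411 i232 i674 d467 (k2 d381 d96 (k1 i2035 k0))))))))) (by decide +kernel)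
def d500 : PP 8 4 T 0x1100000000000000405000004140000000100040588100001600000001004001460 := rS 0xa05e3ea156b1043b34b34e119b4685707254b609299555a61 (k8 i74 i1622 d68 i2358 i263 d147 i1673 i2027 (k8 i502 i542 i668 i2125 d467 i604 d73 d478 (k4 d438 d349 d387 d67 (k2 i2039 d112 (k1 i648 k0))))) (by decide +kernel)
def d501 : PP 8 4 T 0x20001100000000000000000010100100100010100040488100001608140401004001060 := rS 0x14e360cd9ee459251260f7eaa986a957b2c62694e82e8aa360b4a2a2d (k8 i1237 d3 d417 d384 d375 d459 i534 d362 (k8 i1623 i1505 i546 i540 i97 i375 d500 d72 (k8 i580 i1636 i538 d414 d85 i1104 i1671 i665 (k2 d220 d389 k0)))) (by decide +kernel)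
def d502 : PP 8 4 T 0x20001100000000000000000000000000540050000000088000001000140400006000020 := rS 0x250689319d0dcaa4408fa2ab15c91c4a2b1681ce6532e8ee2e3106910986b (k8 i547 i229 i228 i2346 i1505 d86 i393 i531 (k8 i2358 i836 i2345 i1237 i2230 i2209 i2106 d499 (k8 i1354 d3 d485 i1333 d501 d60 d421 i2111 (k4 i1364 d468 d391 i1098 k0)))) (by decide +kernel)
def d503 : PP 8 4 T 0x1100000000000000080004148000000000100000008101101204000000004000000 := rS 0x1101115c505e59aed0a4f2d94c5659 (k8 i2391 i386 i2358 d147 d420 i1602 i1680 i666 (k4 d341 i644 i650 i258 (k2 d438 d401 k0))) (by decide +kernel)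
def d504 : PP 8 4 T 0x1000000000000010000000000000000040000000000000001000200000004040000 := rS 0x11b19 (k2 d364 i1813 (k1 d461 k0)) (by decide +kernel)
def d505 : PP 8 4 T 0x201000000000000000054000000000000005000000000000001000000055104000000 := rS 0x19a23 (k2 d401 d454 (k1 i2032 k0)) (by decide +kernel)
def d506 : PP 8 4 T 0x10001000000000000018044000000000000440000000000140001200544001104000000 := rS 0x8d9a76889d50e7914c48be7b1385518f015c5d8a85 (k8 i1871 i1793 d385 i386 d426 d461 d35 d38 (k8 i1815 i643 d418 d386 d404 d51 i1067 d505 (k4 d422 i809 i1625 i2032 k0))) (by decide +kernel)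
def d507 : PP 8 4 T 0x21000001000000089054000000010000000000000408010021000000001504000000 := rS 0xcb5c410ec93a1c4568a52a95dc8653ad3e2e8f8ab04fe7d (k8 d394 d353 d384 d3 i874 d385 d96 i1068 (k8 i1029 d435 i530 i792 d60 d338 d349 d55 (k4 i1369 d422 d438 d142 (k2 d54 i1405 k0)))) (by decide +kernel)
def d508 : PP 8 4 T 0x1001001000000009054000000010000000000000408010521000000001504000540 := rS 0x431a44f (k4 d420 d442 d399 d507 k0) (by decide +kernel)
def d509 : PP 8 4 T 0x5001000000002000040100000010000000000000000010000001400004500006001540 := rS 0x19e0aca55ae546fc443041ea5 (k8 d60 d37 d382 d417 d442 d176 i1404 d72 (k4 i2027 d143 i546 d354 k0)) (by decide +kernel)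
def d510 : PP 8 4 T 0x4001000000002000000100000000040000000000000058000001000000000004000540 := rS 0x10455ab5820f (k4 d37 d382 i1353 i537 (k2 d354 d143 k0)) (by decide +kernel)
def d511 : PP 8 4 T 0x1200001000000008054000001050000000000000408010421000000001404000540 := rS 0x204beb159b312eb75d945267d7eae554cb2e93cb6af45ab4cac11083dc94f (k8 d96 d435 d37 d25 d382 i1029 i1353 i1978 (k8 i539 d147 d420 i531 d54 d143 i1405 d72 (k8 i1596 i1636 i2349 i1951 d290 i1983 d508 i666 (k4 i1354 i890 i1975 d341 k0)))) (by decide +kernel)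
def d512 : PP 8 4 T 0x1000001000000008054000009010000000000000408010421000000001404000540 := rS 0x166812fac578cc4badd2851499f596fd2e93cb6af45885c94f (k8 d96 d435 d25 i1978 i539 d147 d420 i531 (k8 d72 i123 i1596 i1636 i2349 i538 d290 i1983 (k4 d508 i1105 i1354 i890 (k2 i1975 i1413 (k1 d341 k0))))) (by decide +kernel)
def d513 : PP 8 4 T 0x1000001000000008154000001010000000000000408010421400000401406001540 := rS 0x8189ade1a83131e19ab51b51620994bac9787d2bae126ca559b20a661ea8da4a50788582e419c5e9e691c9562a9b458b55a65 (k8 i1029 i1353 i1237 i1978 i1446 d3 i792 i1976 (k8 i1833 d96 d385 i232 d435 d382 d25 d37 (k8 d60 d509 d375 d88 d510 d511 d467 d512 (k8 i2027 i1367 i546 i2352 i1328 i674 i673 i1983 (k8 d344 d438 d355 d499 d349 d454 i1043 i1044 (k4 i1415 d338 i1988 d404 (k2 i1769 d357 k0))))))) (by decide +kernel)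
def d514 : PP 8 4 T 0x1000002000000008054000000000000000000000400040021200000000404000000 := rS 0x3b1ed99118c084eae4439e452358903cbe270a8dda225158106717a79a592310c0ed0a8f2c8e4ba8b (k8 i1978 i531 i1976 i604 i874 i1871 i1146 i526 (k8 i2719 i2411 i1833 d96 d385 i232 i525 i2230 (k8 i2209 i2435 d9 d35 d38 i643 d122 d418 (k8 i354 d386 d404 d51 d468 i1067 d25 d506 (k4 d505 i2032 d64 d422 (k1 i809 k0)))))) (by decide +kernel)
def d515 : PP 8 4 T 0x10100000100000000a000000000000000400000000000150001000500000006000000 := rS 0x7b3b460ea373cc48bf17 (k8 d385 i890 d418 d404 i1043 i1067 d426 d422 (k2 d64 i809 k0)) (by decide +kernel)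
def d516 : PP 8 4 T 0x1000001000000008054000000000000000000000408000021200000000004000400 := rS 0x44b4d44ab65a5608762b9d59b11111651ea5078d582e45483592092389542188bd3c76392ea2cab152d94c5a07569945e04 (k8 i525 i315 i1029 i1353 i2345 i1237 i2358 d147 (k8 d3 i792 i1978 i531 i1976 i1146 d96 d385 (k8 i526 i2186 i2209 d227 i2105 i2411 i2346 i2388 (k8 d435 d382 d15 d37 d60 i1130 i603 d513 (k8 d401 d515 i1068 i530 d422 d438 i3003 d54 (k4 i538 i2027 d375 i281 (k1 d417 k0))))))) (by decide +kernel)
def d517 : PP 8 4 T 0x1000000000000008054000000000000000000000408000021200000000004000400 := rS 0x225a6a255a9596c14a8ca08762b9d4f28f2cc486b110797c4415780bc1a090c11c0917a79a5925d459562a5b1681d5a65 (k8 i1029 i1353 i2345 i1237 d147 d3 i792 i1978 (k8 i531 i2411 i1833 d96 d385 i525 d227 i526 (k8 i2105 i2346 i315 d516 d35 d514 i643 d122 (k8 d401 i2125 d418 i603 i1130 d404 i1067 i530 (k8 d422 d438 i1625 i3003 i2978 d54 i2111 i538 (k4 i2027 d375 i281 d417 k0)))))) (by decide +kernel)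
def d518 : PP 8 4 T 0x1000002000000008044000000000000000000000008110021200000000804000000 := rS 0x5a9f52ab9379d8aecb17144ea0a3c9ae25172d9cca6c52f8551e350c03d5a65889548e04 (k8 i525 d227 i1537 d401 d111 i1353 i245 i526 (k8 i2125 i1130 d35 i643 d76 i2358 i836 d147 (k8 d385 d418 d287 d404 d517 i1067 i2348 i534 (k8 i619 i530 d422 i1319 i1137 i3003 i1630 i808 (k1 d112 k0))))) (by decide +kernel)
def d519 : PP 8 4 T 0x101000000000000008000000000000000005000000000200021000000000004000000 := rS 0xac6a6622a274f (k4 d96 d368 i531 d97 (k2 i1978 i1971 (k1 i2353 k0))) (by decide +kernel)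
def d520 : PP 8 4 T 0x1000002000000008044000000000000000000000008000021200000000804000000 := rS 0xea773c962245d42a3d0e358881030c98b96cbe15 (k8 d35 i643 d147 d385 i2411 i526 i525 d401 (k8 i2125 i1703 i1130 i1871 d519 d418 d518 d404 (k2 i806 i1067 (k1 d422 k0)))) (by decide +kernel)
def d521 : PP 8 4 T 0x1000000000000008054000000000000000000000000442021000000004406000020 := rS 0x10e2989174428b72334ce25158cd0a8f (k8 i1131 i1871 i232 i2230 i2209 d68 i2551 d118 (k4 i1979 d25 i531 d418 (k2 d386 d51 (k1 i2032 k0)))) (by decide +kernel)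
def d522 : PP 8 4 T 0x801000002000000008044000000000000000000000008000021200000000004000000 := rS 0x69a245ea6579b816b1282cd5a66328d01ce51021d02831480c1a110491c4a2b09a862e318a8b40e73298f47e3342a3e20552f8544e18021660a573508cb6c5 (k8 d76 d147 d520 d514 i2353 d366 i604 i525 (k8 i526 d38 d35 i643 d521 d438 i1131 i1871 (k8 i232 d27 d23 i2358 i836 i2345 i1237 d3 (k8 i2719 d385 i2186 i2107 i2230 i2209 d227 i2105 (k8 i2347 i2346 d101 d386 d24 d46 d51 d505 (k8 d25 d85 d468 i1022 i355 i1353 i2373 d120 (k8 i1967 i2348 i528 i2350 i2028 i315 d95 d359 (k1 d417 k0)))))))) (by decide +kernel)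
def d523 : PP 8 4 T 0x1001000000000000000000000000000400080004000000000221004540500004000000 := rS 0x994ba255e6e (k4 i528 i2350 d95 i1324 (k2 i1938 d485 k0)) (by decide +kernel)
def d524 : PP 8 4 T 0x1000000000000008900000000000400080000000008000001000140000004000000 := rS 0x1309757ae12666 (k4 i1979 i1367 i546 i2370 (k2 i1983 d499 (k1 i1938 k0))) (by decide +kernel)
def d525 : PP 8 4 T 0x1000002000000008044000000000000000000000008000021200000000004000000 := rS 0xb8165065a555a9b33195668a46972267b669f56b102aaacaf0535164465f6289c2a3f1b81030c91d8e62a5b1681ce653 (k8 i2358 i836 i2345 i1237 d147 d3 i1976 i1146 (k8 i2411 i526 i525 d9 d27 d35 d38 d76 (k8 i643 d520 i604 d514 d366 i2353 i2361 d521 (k8 d438 d349 d67 d454 i1980 d522 d418 d445 (k8 i531 i2355 i1028 i1979 i1445 i1353 i1673 d524 (k4 d112 i2348 d523 i315 k0)))))) (by decide +kernel)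
def d526 : PP 8 4 T 0x20001000000000000008004000000000540040000000088000221200040000004000000 := rS 0x66e51aa901ec665c10d71718aac124156b157239038348e3b51b05a42f0202e2a89168603a6e (k8 i528 i2825 i526 i1040 d95 d3 i2348 i525 (k8 i315 d417 d384 d375 i393 d227 i2346 i2345 (k8 i1976 d499 i1793 i2859 d440 i1310 i2349 i989 (k8 d385 i547 d502 i546 d517 d5 i2027 i412 (k2 d143 i2111 (k1 d468 k0)))))) (by decide +kernel)
def d527 : PP 8 4 T 0x4001200000000000000401000014040000000000000000000001400011000006001540 := rS 0x19291ca0f (k4 d5 d143 i2027 d468 (k1 i2111 k0)) (by decide +kernel)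
def d528 : PP 8 4 T 0x4001000000000000000100000000000000000000000000000001000011000004008000 := rS 0x66e5 (k2 d37 i285 (k1 d468 k0)) (by decide +kernel)
def d529 : PP 8 4 T 0x1000001000000008004000000000540040000000008000221200040000004000000 := rS 0x65c10ca6b078d4cec151c61a414168ec5e4709b24220d038600917188e62a5b05aac1241448755a6e (k8 i528 i2859 i2825 d95 d440 i1310 i2349 i2348 (k8 d147 d3 i1976 i989 d385 i525 i526 i2345 (k8 i2346 i2347 i2411 i227 d227 i315 i393 i1040 (k8 d371 d417 d426 d375 d384 d526 i355 d528 (k4 i627 i1029 d354 d54 (k1 d527 k0)))))) (by decide +kernel)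
def d530 : PP 8 4 T 0x1000000000000000000000000000000000000008008000201080000000004000000 := rS 0xd3168bc0c0550c54a689 (k8 d95 i95 d3 i819 i2333 i439 i1054 i1238 (k2 d49 d417 k0)) (by decide +kernel)
def d531 : PP 8 4 T 0x4001200000000000000001000014040000000000000000000001400011000006001540 := rS 0xcb (k2 d54 d527 k0) (by decide +kernel)
def d532 : PP 8 4 T 0x4001000000000000000101000014040010000000000048000001400001000006001560 := rS 0x32a84a549b90c90507ae46b15 (k8 d3 i355 i1406 d528 d531 d354 d85 i1549 (k4 d60 d391 i2027 d98 k0)) (by decide +kernel)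
def d533 : PP 8 4 T 0x1000000000000000000000540400000000000000000000001001000000004150540 := rS 0x3e (k2 i2028 d197 k0) (by decide +kernel)
def d534 : PP 8 4 T 0x1000000000000000000000140400000000000000880000001001000000004054540 := rS 0x16615 (k2 i627 i2373 (k1 d533 k0)) (by decide +kernel)
def d535 : PP 8 4 T 0x1000000000000008004000000000000000000000008000221200010000004000000 := rS 0x1123c17c6c2978a6cba996322cd6238825caeb849b294ae42cc141ec54784426af5896d4e3d2a99982a3690be2a8916a555a6e5582c8e0927b241a070c0106317 (k8 d385 i989 i525 i526 i2345 i2346 i2411 d420 (k8 i223 d227 i2348 i2349 i528 i2859 i2736 i1237 (k8 d95 d3 i315 d417 d375 d384 d532 d68 (k8 d88 d359 d147 i1316 i2350 i227 i2347 i1130 (k8 i1794 i542 d531 i544 d85 d60 i2027 i1367 (k8 i546 i2352 i1983 d438 d401 d534 i1978 d517 (k8 d344 i531 i1446 d351 i258 d529 i644 i1043 (k2 d418 d404 k0)))))))) (by decide +kernel)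
def d536 : PP 8 4 T 0x1000000000000008004000000000000000000000008000021200020000004000000 := rS 0x6b36c1588f10731dcb4f02044d2c9 (k8 i2411 i1833 i2347 i525 d96 d15 i2241 i354 (k4 d525 d435 d5 i668 (k2 i1789 d467 k0))) (by decide +kernel)
def d537 : PP 8 4 T 0x1000000000000008400001051000000000010040088015501000000000004000000 := rS 0xb1a2acdfa98552ed28b9 (k8 i1405 d112 i1951 i1673 i1104 d72 i666 d408 (k2 i1826 d414 k0)) (by decide +kernel)
def d538 : PP 8 4 T 0x1100000002000008100000041000000000000040018015501400000000006001060 := rS 0x869c5a42f5c02d94333ead44710048954315169bd5a668bb0442a5 (k8 d60 d25 d382 d385 d354 i1353 i1319 i1237 (k8 d3 i2186 i2209 i2105 d438 d401 d349 d67 (k8 i232 d537 i2368 i546 i315 d509 i1407 d338 (k1 d383 k0)))) (by decide +kernel)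
def d539 : PP 8 4 T 0x1000002000000008004000000000000000000000008000021200000000004000000 := rS 0xc7 (k2 d351 d525 k0) (by decide +kernel)
def d540 : PP 8 4 T 0x1000000000000000400010010000000000050840008015501000000000004000000 := rS 0x12ab5 (k2 i808 i1675 (k1 d112 k0)) (by decide +kernel)
def d541 : PP 8 4 T 0x101000001000000008000000000000000400000400000150001000500000006000000 := rS 0x1d19b17 (k4 d385 d515 d422 i1068 k0) (by decide +kernel)
def d542 : PP 8 4 T 0x1000000000000001000000000000000000200508000000000000000008000001000000000004000000 := rS 0x2b8d6fd (k4 d72 i2361 d414 i1986 k0) (by decide +kernel)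
def d543 : PP 8 4 T 0x201000000000000008400000011000000000000000008015521000000000004000000 := rS 0x2f448bb0d45abcfc6755add06b340ac68abc4c2519a7d5a93cb673 (k8 i836 d147 d420 d349 d67 d454 d112 i1104 (k8 i1105 d408 i1826 i1864 i1413 i1415 i1988 d542 (k8 i1673 i2037 i1987 i1979 d353 i531 d357 d341 (k1 d36 k0)))) (by decide +kernel)
def d544 : PP 8 4 T 0x101000000000000008400000010000000400090040008015501400000000006001060 := rS 0x44b4c662f5108c16ab3b251f8c13aad61a095093e2e31378d41f04 (k8 d438 d5 i354 i1319 i2719 d385 d420 i2186 (k8 i2105 d353 i127 i1668 i1516 d399 d112 d422 (k8 d72 d388 i3003 d531 i315 i232 d375 i280 (k1 d231 k0)))) (by decide +kernel)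
def d545 : PP 8 4 T 0x101000000000000008000000000000000000000400008110021200510000004000000 := rS 0xc2723c0665b8b8c4308f (k8 i874 i526 i2719 d385 d147 i233 d541 d468 (k2 d539 d470 k0)) (by decide +kernel)
def d546 : PP 8 4 T 0x1000000000000008400000010000000000000000008015121200000000004000000 := rS 0x7e3e9d876392e8d5160f35c1222d15481c1a4709860087329a3cdeb9 (k8 i1405 i1319 i874 i2358 i836 i525 i526 i2107 (k8 d227 i2346 i2345 i2388 i2435 d543 d438 d366 (k8 d5 i1978 i354 i531 d504 i393 d545 i1630 (k2 d540 d544 k0)))) (by decide +kernel)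
def d547 : PP 8 4 T 0x1000000000000008000000000000000000000000008002021200000000004000000 := rS 0x3c186157203cd4331a990466708b248e130245c6218 (k8 i526 i2719 d385 i525 i2107 d227 i2411 i2347 (k8 d68 i1537 i792 i355 i232 i1029 d528 d468 (k4 i627 d470 d371 d539 k0))) (by decide +kernel)
def d548 : PP 8 4 T 0x1000000000000000000000000000000000000000008000901000000000006000400 := rS 0xe4fd (k2 d22 i536 (k1 d337 k0)) (by decide +kernel)
def d549 : PP 8 4 T 0x1000000000000008000000000000000000000200000150001000000000004000000 := rS 0x2fc4d9878 (k4 i1067 i1068 d404 i890 (k1 d418 k0)) (by decide +kernel)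
def d550 : PP 8 4 T 0x1000000000000008400000010000000000000000008015501000000000004000000 := rS 0x17a24b759a056345382f1308386a50fcb53e9d8eaaf2ea2cd704889cc9ea92dc5cde8f2612d76b9 (k8 i1405 i1951 i487 d392 i874 i1319 d385 d147 (k8 i97 d420 i836 d543 d438 d366 i1978 i531 (k8 i539 d549 d422 i1630 i808 d540 d112 d353 (k8 i926 i1104 i1105 i1676 d408 i1826 i1864 i1413 (k4 d174 d357 d341 d36 k0))))) (by decide +kernel)
def d551 : PP 8 4 T 0x1000000000000008400000010000000000000800008011121400000000004004000 := rS 0x182a5518b41a07048c86a2f5081006ab0b248321d059c9fa42291155241478c4ae4b (k8 i51 i1628 d448 i874 d440 i97 d546 d550 (k8 d434 d22 i536 i2357 i2475 d337 i839 d427 (k8 i1636 d453 i708 i2574 i1080 i1116 i712 i1349 (k4 i2336 i522 i977 i1634 (k2 i1365 i1614 (k1 i2027 k0)))))) (by decide +kernel)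
def d552 : PP 8 4 T 0x101000000000000008000000000000000000000800008010221000000000004000000 := rS 0x3560a8c1ed2820b45e472a8340e180211086ad0ea2412ab3702e2b17208c4ae4b (k8 i51 i1628 d448 d440 d385 d3 i2348 i528 (k8 i2349 i1310 d95 i2825 i2859 d530 d434 i525 (k8 i526 i2345 i2346 d547 i225 i315 i1040 d438 (k4 d417 d5 d375 d384 (k2 i354 d531 k0))))) (by decide +kernel)
def d553 : PP 8 4 T 0x1000000000000008000000000000800000000000088000001000000000004000000 := rS 0x1a9648a (k4 i1446 i1445 i1978 i2373 k0) (by decide +kernel)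
def d554 : PP 8 4 T 0x1000000000000008900000000400000080000000088000021001100000006000540 := rS 0x2204008151b1a826b3589a55e9b (k8 d553 i2370 i1833 i1394 i554 i1881 i1978 d524 (k4 i2371 i1774 d533 i228 (k1 i2347 k0))) (by decide +kernel)
def d555 : PP 8 4 T 0x1000000000000008000000010000000000000800008011121000000000006000400 := rS 0x8e4018d46cc508a64d86b45a6c1a3d03a9da4091c91c5e893d8cd5eb86688d2e668824d5705651cca71554c5e9e0134b246257259945a6f (k8 i1319 i1039 i1547 i51 i1628 d448 i613 i1833 (k8 d69 d96 d385 i97 d3 d548 i836 d550 (k8 d54 i123 i1367 d438 d354 i1983 d401 d454 (k8 i546 i2370 i232 i1980 i1404 d486 i1617 i235 (k8 i1348 d417 d359 d49 d88 i465 d553 d554 (k8 i547 d467 d344 i2289 i1521 d499 i1121 i1005 (k2 d468 d430 (k1 d538 k0)))))))) (by decide +kernel)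
def d556 : PP 8 4 T 0x1000000000000008000000010000000000000000018015121000000000004000800 := rS 0x33c15944421c5c82c9 (k8 i613 d440 d385 i2357 d434 d546 d54 i2368 (k1 d354 k0)) (by decide +kernel)
def d557 : PP 8 4 T 0x1000000000000008000000010000000000000800008011121000000000004000000 := rS 0x82329ca0f23834404202058320b328c4ae4b (k8 i51 i1628 d448 i1547 d556 d555 d427 i708 (k8 i707 i711 i522 i265 i595 d25 d551 d85 (k1 d54 k0))) (by decide +kernel)
def d558 : PP 8 4 T 0x1000000000000008000000000000000000000000008012021000001000004000000 := rS 0xe51a8cc400f0290830453205e2e41 (k8 d440 d385 i2464 i792 d547 d427 d434 i228 (k4 i595 i703 i1546 i1023 (k2 d25 d468 k0))) (by decide +kernel)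
def d559 : PP 8 4 T 0x1100000000000008900000004400040000000000088000021001140000006000540 := rS 0x9935ae1169b (k4 d553 d554 i546 i547 (k2 d344 d499 k0)) (by decide +kernel)
def d560 : PP 8 4 T 0x1000000000000008100000000000004000004000088000221000021000004000000 := rS 0x2fc4d02782ea61163f52d0972cb1bc1476c20731cb71755824e6534a81d2e39538f5a42f0202e2a8916860884320874dc9b (k8 d553 i528 i2825 d440 d530 d434 i526 i1040 (k8 d95 d3 i2348 i525 i315 d417 d88 d359 (k8 i235 i1983 i2345 i2736 i95 i836 i1310 i2349 (k8 d385 d147 i2241 i354 d536 i1146 d5 i1957 (k8 d559 i1405 d391 d421 i375 d523 d485 i531 (k4 i1059 i1864 d404 i648 (k1 d418 k0))))))) (by decide +kernel)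
def d561 : PP 8 4 T 0x1000000000000008000000000000000000000800008010021000000000004000000 := rS 0x39184353330546d2198b45e470681c30043da4c88cd3e88c86950ea262009559b8165056994aa318ac5c82c9 (k8 i613 d440 d385 d3 d448 d558 i1547 i1353 (k8 d557 i2348 i528 i2349 i1310 d552 d95 i2825 (k8 i2736 d530 d401 d67 d454 d434 i1321 i1980 (k8 i525 i526 i2345 i2346 i225 i315 i1040 i232 (k8 d417 d375 d384 d532 d560 d535 d468 d470 k0))))) (by decide +kernel)
def d562 : PP 8 4 T 0x1000000000000008000000000000000000000000008000221000014000004000000 := rS 0xe46145c62182210cdc41 (k8 d440 i528 d530 d434 i526 i2719 d385 d535 (k2 d468 d470 k0)) (by decide +kernel)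
def d563 : PP 8 4 T 0x1000000000000008100000000000000400000400008000221000000000004000000 := rS 0x199103d1d4686660a8da433168c44a2f238340e180211126434a87512ad04aacdc0b8ac5c8255 (k8 i791 d440 d385 d3 i2348 i528 i2349 i1310 (k8 i1314 d95 i2825 i2736 d530 i1322 d434 i525 (k8 i526 i2345 i2346 i225 i315 i2209 i2719 i1040 (k8 i233 d417 d375 d384 d532 d562 i1062 d560 (k2 d422 i1980 (k1 d454 k0)))))) (by decide +kernel)
def d564 : PP 8 4 T 0x1000000000000008000000000000000400008400000000001000000000004000000 := rS 0x1113ab30f317 (k4 d385 i81 i1980 i1067 (k2 d454 d422 k0)) (by decide +kernel)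
def d565 : PP 8 4 T 0x100000000000000a000000000000000000000400000050021000000000004000000 := rS 0x1d0bb1143c5d0a8f (k8 i874 i1871 d385 i129 d454 d519 d422 d549 k0) (by decide +kernel)
def d566 : PP 8 4 T 0x1000000000000008000000000000000000000000088010021200140000004000000 := rS 0x6b4c25d16b849aae0aca4dab4c25528b251e573ab34ee5b (k8 d147 d561 d565 i1068 i530 i874 i613 d563 (k8 i791 i74 i1622 d553 d546 d54 i123 i1367 (k4 i546 d524 i1983 d499 (k2 i547 d344 k0)))) (by decide +kernel)
def d567 : PP 8 4 T 0x1000000000000008000000000000000000000000008010021200145000004000000 := rS 0xca822b4ca6b0a3c586e4078d4ce13088122e5528b251e573ab34ee5b (k8 d147 d561 d565 i1068 i530 i874 i613 d563 (k8 i791 d385 i525 i2347 i227 d566 i355 d528 (k8 d468 d470 d539 d371 i627 i1029 i1353 d354 (k2 d546 d54 k0)))) (by decide +kernel)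
def d568 : PP 8 4 T 0x1000000000000008800000000000000000000000048110421000000000004000000 := rS 0xb740accbebc4c2fcd494322c5274382c549e9f8b9a4a2c947b34ee5b39ae55e8b (k8 i1979 i539 i1406 i836 d147 d561 d565 i874 (k8 i613 d563 i1833 d385 i133 d420 d3 d54 (k8 d98 i1367 i1394 d354 d391 i1029 i1725 i1104 (k4 i1105 i629 i634 i1864 (k2 i1988 d341 k0))))) (by decide +kernel)
def d569 : PP 8 4 T 0x4001000000000000000000001020000000000010000008000101000005001406004400 := rS 0xd30382442c144b903e3586294c8fd27a84de53 (k8 d548 i1319 i311 d420 d360 i1353 i1286 d399 (k8 i1023 d476 d468 i230 d382 d25 i1348 i1225 (k2 d338 d442 k0))) (by decide +kernel)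
def d570 : PP 8 4 T 0x1000000000000008000000000000000000001000008110021000000000006000000 := rS 0xd69845ae136973324d5705652b4a60f059088a371c8cc62412a945927b2b88c4ab53ec40eacd2dc5cee8f (k8 i874 d561 d385 d147 d565 i1068 d422 d67 (k8 d349 d403 d401 i530 d564 i613 d563 i791 (k8 d440 i2719 i233 i235 i1043 d567 d434 i2357 (k8 i595 d548 d569 d550 d54 i123 i1367 d568 (k4 i1983 d553 i546 d524 (k2 d499 i547 (k1 d344 k0))))))) (by decide +kernel)
def d571 : PP 8 4 T 0x400000000000000001000000000000000800004000000441004105054580000001000000000004000000 := rS 0x2f1046c4cc1556b8 (k8 i546 i123 d54 d344 d467 i2045 i674 i1416 k0) (by decide +kernel)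
def d572 : PP 8 4 T 0x1000000000000008800000010000000004001000008110021000000000004000000 := rS 0x7e9a902b75288618e43891d709b18994e6974a834ccc129a4d57058a93e9e01489a4aa6f28b24f65712ad620756696e2e7747811420b079082c19 (k8 d570 d427 i707 i595 i2357 i2574 i708 i874 (k8 d561 d385 d147 d565 i1068 d422 d349 d403 (k8 i530 d564 i613 d563 i1319 i791 i1833 i1149 (k8 d69 d96 d420 d3 d54 i123 i1367 i621 (k8 i1246 d568 i2340 i1673 i1983 i836 i75 i1505 (k8 d553 i546 i265 i1407 d85 d383 d25 d60 (k4 d352 d465 d571 d340 (k1 d339 k0)))))))) (by decide +kernel)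
def d573 : PP 8 4 T 0x1000000000000008010000000000000000000000000000001000000000004012021 := rS 0x13788d82a30 (k4 i522 i642 i988 d9 (k2 i1800 d371 k0)) (by decide +kernel)
def d574 : PP 8 4 T 0x4001000000000000000000010000200000000000000000000001000011000004000000 := rS 0x66e5 (k2 d60 i289 (k1 d468 k0)) (by decide +kernel)
def d575 : PP 8 4 T 0x1000000000000008000040008000000000000000008000001000000000004000000 := rS 0x14558af1309759a5126a9 (k8 i97 i1636 i538 i666 i1983 i1104 i1105 i1354 (k2 d408 d542 k0)) (by decide +kernel)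
def d576 : PP 8 4 T 0x1000000000000008010000000000000000000000000000001000000000004002021 := rS 0x22c206b (k4 i2341 d573 i1978 i523 k0) (by decide +kernel)
def d577 : PP 8 4 T 0x1000000000000008000000010000000000000000101000801800000000004000564 := rS 0x455eb35884d186a1c9902ac3538f5a4fd (k8 d22 d442 d88 d359 i2144 i384 i265 i1976 (k8 i1029 i1028 i266 i1967 i2427 i1925 i1760 d533 k0)) (by decide +kernel)
def d578 : PP 8 4 T 0x1000000000000008400000010000000000000000008010021000000000004800000 := rS 0xa84426f135b086d0418395484760a8da4077e948c31734954a2c92b9d59a772da8412030583c840d628d51e0400aad76b9 (k8 i1405 i1951 d575 d69 i708 i874 i1116 i1794 (k8 d576 i707 i595 i2357 d453 i1349 i2574 d147 (k8 d561 d565 i1068 i530 i613 d563 i791 i1833 (k8 d385 i74 d550 d22 i454 d442 d375 d384 (k8 d577 i2027 d60 d574 d85 i988 i989 d366 (k4 d9 i1800 i1952 i369 (k1 d371 k0))))))) (by decide +kernel)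
def d579 : PP 8 4 T 0x201100000000000000010000000000000005000000800000001400000050004115000 := rS 0x13b1de0c31084dc825 (k8 d403 d85 i1961 d25 d470 d371 d351 d38 (k1 d505 k0)) (by decide +kernel)
def d580 : PP 8 4 T 0x1000000000000008000000020000000004000000008110021000000000004800000 := rS 0x9d8ef009885864614c4822152fa30d46482a14aa25881d59a5b8b9dc062b079081ac51aa3c0801 (k8 d69 i708 i874 i1116 i1794 d576 i707 i595 (k8 i2610 d453 d561 d385 d147 d565 i1068 d422 (k8 d403 i791 i1871 d12 i1353 i1029 i1028 i629 (k8 i2420 i1760 d418 d386 d579 i2144 i1529 i1960 (k4 d371 d351 d38 d505 k0))))) (by decide +kernel)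
def d581 : PP 8 4 T 0x1000000000000008000000000000000004001000008110021000000000004000000 := rS 0x65ab42c19 (k4 d570 d427 d580 d572 (k1 d578 k0)) (by decide +kernel)
def d582 : PP 8 4 T 0x1000000000000008000000000000000000002000008110021000000000004000000 := rS 0xa031d8d9069944af164115c25cd86649aae0aca298b416ad0c1942e6b2f26e2639a7804d2553794592575ac40eacd2dc5cee8f (k8 i874 d561 d385 d147 d565 i1068 d422 d349 (k8 i530 i613 d563 i1319 i791 i1833 d69 d96 (k8 d398 d404 i1073 d418 i629 d345 i1029 d427 (k8 i1353 d556 i1039 d548 d550 d54 i123 i1367 (k8 d568 d467 i1983 i546 i2289 i673 i674 d494 (k4 d344 i1415 d499 i19 (k2 i1005 d346 (k1 d430 k0)))))))) (by decide +kernel)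
def d583 : PP 8 4 T 0x1000000000000008000000000000000000000000008110021000000000004000000 := rS 0x106814c9c578b25c2dce66c3314d5705652b4ca9b4b9ae305e898590c193cd3d226937945927b5ac40eacd2dc5cee8f (k8 i874 d561 d385 d147 d565 i1068 d422 d349 (k8 d564 i613 d563 i1319 i1833 i1149 d96 d582 (k8 d570 d581 d427 d51 d418 d409 i629 d405 (k8 d84 i1029 i1353 d578 d54 i123 i621 d568 (k8 d467 i836 i852 i546 i673 i674 i1407 d344 (k2 i1334 i1415 (k1 i2045 k0))))))) (by decide +kernel)
def d584 : PP 8 4 T 0x1000000000000008000000000000000000000000008010021000000000004000000 := rS 0x780d822441c90ccc780a84d145c48a3c0241 (k8 d440 d69 i874 i1149 d583 i531 i1844 i2354 (k8 i532 i1979 d336 d398 d434 i2347 d566 d371 (k1 d9 k0))) (by decide +kernel)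
def d585 : PP 8 4 T 0x1000000000000000000000004000000000000020080000209000000000004000001 := rS 0xf0cd12210e9008a180105c0a56 (k8 i489 d456 i966 d430 d427 d101 i1046 i1230 (k4 i1498 i2049 i2050 d141 (k1 i1356 k0))) (by decide +kernel)
def d586 : PP 8 4 T 0x1000000000000000000000000000000000000000008000009000000000004000002 := rS 0xb8648a43 (k4 i2245 i2290 i1038 i967 (k1 d427 k0)) (by decide +kernel)
def d587 : PP 8 4 T 0x1000000000000008000000000000000400000000050058001000000000004000000 := rS 0x6b2e3320874649de2317 (k8 d385 d57 i1627 i504 d422 d354 i1068 d549 (k2 d366 i1970 k0)) (by decide +kernel)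
def d588 : PP 8 4 T 0x5001200000000000000001011014040000010010020000000001020005401414004540 := rS 0x24e86a43fa54682172955421f (k8 i1356 d463 d474 d143 i743 d468 i1098 i800 (k4 i2030 d421 i1364 d391 k0)) (by decide +kernel)
def d589 : PP 8 4 T 0x1000000000000000200000000000000000000000008000009000000000004000000 := rS 0x202310d1ea360b483e89200602ea1384343a45010040a50 (k8 i487 d456 d586 d430 d101 i1230 d41 i488 (k8 d463 i966 d427 i1046 i2049 i1356 d479 d384 (k4 d375 i2778 i2245 i1123 (k2 d137 i1530 k0)))) (by decide +kernel)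
def d590 : PP 8 4 T 0x5001200000000000000001011014040000000000120000000001020005400416004540 := rS 0x94fa89 (k4 i2049 i1361 i349 d588 k0) (by decide +kernel)
def d591 : PP 8 4 T 0x1000000000000008000000000000000000000000008010001000000000004000000 := rS 0x2e330e9046488d6a5703b05462f6907c12890ea3c6631079008a18338082e013282e1aad5ca851aab281c00a4a26c54b717 (k8 d385 d147 d3 d584 d392 d456 i488 i487 (k8 i2305 i1052 d463 i2899 i2875 d41 i494 i1028 (k8 d586 i966 d430 d585 d427 d101 i1046 i341 (k8 i1002 i193 i2778 i1230 i2049 i1348 i1356 d479 (k8 d358 d375 d384 d49 d587 i1398 i185 d589 (k4 d354 d590 i1068 d549 (k1 i1971 k0))))))) (by decide +kernel)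
def d592 : PP 8 4 T 0x1000000000000000000000000000000000000000008020009000000000004000000 := rS 0xc9 (k2 d589 i605 k0) (by decide +kernel)
def d593 : PP 8 4 T 0x101100000000000008100000000000000000000400040040021000000000004000000 := rS 0x8997d0e78351d0ba6447a2d3f17 (k8 d385 i133 i1979 i875 d354 i531 d422 i1029 (k4 i1067 i1707 i630 d404 (k1 d418 k0))) (by decide +kernel)
def d594 : PP 8 4 T 0x1000000000000000000000000000000000000400080020001000000000004000008 := rS 0xd7291c4434198601e172bc14ca8e (k8 i544 i75 d92 i54 d453 i341 d427 i233 (k4 i1130 i1131 i1617 d15 (k2 i1569 d85 k0))) (by decide +kernel)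
def d595 : PP 8 4 T 0x1000000000000000000000000000000800000000000000001000000000006000020 := rS 0x4434 (k2 i1130 i1131 (k1 i2125 k0)) (by decide +kernel)
def d596 : PP 8 4 T 0x1000000000000000001000014100000800000420080000001000004000004005520 := rS 0x51b2c0e925c8b48e65 (k8 i75 i265 d70 i1408 i877 i520 i546 i1633 (k1 i2027 k0)) (by decide +kernel)
def d597 : PP 8 4 T 0x1000000000000000000004140000000000100000888100501000000000004000000 := rS 0x5997c9e5b (k4 d147 d420 i2372 i2373 (k1 d341 k0)) (by decide +kernel)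
def d598 : PP 8 4 T 0x1000000000000008100020000000000000000010008000001000000000004000000 := rS 0x1e0bc913622cd6815bc30e65357ac52eca49c569e694d9750e6f289ec72c37203c840d239942c190200c028e331dc984b82c44b658 (k8 d591 d147 d411 d92 d592 d392 i806 d593 (k8 i544 d69 d594 d430 d595 d427 i75 i265 (k8 i2339 i707 i2365 d85 d470 i1976 i714 i2333 (k8 i1319 i2625 i2367 d553 i1833 d96 d3 i130 (k8 i1405 i1983 i1394 i2370 i2369 i836 d383 d352 (k8 d465 d597 i1978 d467 i915 i669 d571 d345 k0)))))) (by decide +kernel)
def d599 : PP 8 4 T 0x5001000000000000000000010000080010000000000000000001000000400004000000 := rS 0x12743 (k2 d469 i1634 (k1 d391 k0)) (by decide +kernel)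
def d600 : PP 8 4 T 0x1000000000000008100000000000000000000010008000001000000000004000000 := rS 0x55e2a61b26106796617822913622cd6b540ade850c49a5ce6b1162bca60651b2d73158bd3cd2ad30a6d2aab2e8245e0b3794582a53d84c72c37203c84160ca381a4732810066682c44b677009309658 (k8 d591 d592 d392 d69 i806 d147 d411 d92 (k8 d593 d594 d430 i75 i265 i2339 i544 d595 (k8 d427 i707 i2365 d85 d470 i1976 i266 i714 (k8 d60 d382 i2333 i1319 i2357 i315 i1349 i2367 (k8 i2360 i1673 d553 i74 i1622 i1833 d96 d385 (k8 d3 d598 i546 d599 i2027 i2336 i2338 i520 (k8 i1228 i836 i1244 i1241 d383 d391 d352 d465 (k8 d55 d597 i1978 d467 i915 i523 i669 i670 (k8 d345 i894 i2045 i980 i981 d9 i330 d371 k0))))))))) (by decide +kernel)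
def d601 : PP 8 4 T 0x1000000000000008100000000000000000000000008000001000000000004000000 := rS 0xa36581d722d3829582e41783c16420b0641a47048100695472b4ca663bc54c25b8bc460aab009309658 (k8 d591 d592 d392 d69 i2360 d92 d411 d385 (k8 d147 i74 d3 i806 d593 i75 i1622 i544 (k8 i1673 d594 d430 i1349 i265 i2339 d595 d427 (k8 i707 i2357 i2365 i315 d85 d382 d60 d600 (k4 d70 i1408 i520 i546 (k2 d599 i2027 k0)))))) (by decide +kernel)
def d602 : PP 8 4 T 0x1000000000000008000000000000000000000000008000001000000000004000000 := rS 0x1ca23108d0660f01014ca25211d88a6764004824c259562258 (k8 d591 d411 i34 d592 d392 d440 d69 d601 (k8 i121 i2411 i614 d434 d415 i1547 i2410 d430 (k4 i341 i193 i1122 i724 (k2 i1625 d15 (k1 d410 k0))))) (by decide +kernel)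
def d603 : PP 8 4 T 0x1000000000000000200000000000000000000000048000001000000000004000010 := rS 0x1ca23108d0660f12c4404762c004ca4c5692d24ca (k8 i615 i616 d589 i122 d392 i1549 d69 i613 (k8 i614 d430 d411 d415 i341 i193 i1122 i724 (k2 i1625 d15 (k1 d410 k0)))) (by decide +kernel)
def d604 : PP 8 4 T 0x1001000000000000000000140000000080000020000800001000000000004000000 := rS 0x28ab34125920d1 (k4 i145 i552 i917 i916 (k2 i1374 d457 (k1 d414 k0))) (by decide +kernel)
def d605 : PP 8 4 T 0x21000000000000000000000040000400080000000008500501000000000004000000 := rS 0x2cd624f3096d6e81 (k8 d465 d352 d147 i74 d420 i1886 i554 d341 k0) (by decide +kernel)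
def d606 : PP 8 4 T 0x1000000000000010000000000000000040000000000000001000800000004100000 := rS 0x11b19 (k2 d363 i1030 (k1 d461 k0)) (by decide +kernel)
def d607 : PP 8 4 T 0x18001000000000000014014000000000000040000001000000001000545000004000000 := rS 0x18e9f782306a9d (k4 d452 d446 d461 d426 (k2 i1036 d351 (k1 i2035 k0))) (by decide +kernel)
def d608 : PP 8 4 T 0x1000000000000000000000000000000000000000000200021080000000004000000 := rS 0x48a28be01 (k4 d69 i143 i531 i914 (k1 d336 k0)) (by decide +kernel)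
def d609 : PP 8 4 T 0x10001000000000000000000000480000200000000000000000001000140000004000080 := rS 0x788ec203f (k4 i1419 i459 i1107 d393 (k1 d426 k0)) (by decide +kernel)
def d610 : PP 8 4 T 0x21000000000000000000000000000400080000000008500001000140040004000500 := rS 0x271fbc0761d538bda4071ea61faae598a506818916e325328add421f (k8 d476 d472 d352 d41 d369 d52 d147 d418 (k8 d46 d24 d386 i554 d605 d347 i540 i1782 (k8 d609 d442 d358 d359 d42 i1106 d426 d27 (k2 d38 i2031 k0)))) (by decide +kernel)
def d611 : PP 8 4 T 0x11001000000000000000000004000010800010500000000000001000540150044000000 := rS 0xea9c4e3f693c05e3d (k8 i1257 i1175 d426 d417 d27 d38 d359 d42 (k1 i2031 k0)) (by decide +kernel)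
def d612 : PP 8 4 T 0x21000000000000000000000000000000080000000008500001000000140006100400 := rS 0xbda6a703041e23a57ac9329a04a243ea15bc5506811b9e632131c8a6245b (k8 d147 d418 d386 i234 i1881 d52 d404 i1043 (k8 d46 d24 d3 d352 d472 d476 i230 i1348 (k8 d610 i154 i1445 i540 d611 d416 d371 i473 (k4 i1912 d49 i1176 d417 k0)))) (by decide +kernel)
def d613 : PP 8 4 T 0x1000000000000000000000000000000000000008008000001080000000004000000 := rS 0x50 (k2 i1319 d530 k0) (by decide +kernel)
def d614 : PP 8 4 T 0x1000000000000000000000140000000080000020008500501000000000004000000 := rS 0xb759a649e814da0e245b (k8 d147 d418 d24 i1447 d46 d420 i1938 i554 (k2 i802 d341 k0)) (by decide +kernel)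
def d615 : PP 8 4 T 0x20101000000000000004140000000000000000000000000000001800444010106010000 := rS 0x46e5613144a35188e53a9f (k8 d11 d362 i234 i1042 i207 i2078 i1536 i2035 (k2 d470 i250 (k1 d410 k0))) (by decide +kernel)
def d616 : PP 8 4 T 0x20001000000000000004040000000000000000000000000020001000554000506080000 := rS 0xc362b901a25888c53a9f (k8 d11 d362 i1042 d411 i348 i462 d410 i1804 (k2 d470 i2035 k0)) (by decide +kernel)
def d617 : PP 8 4 T 0x20001000000000000004040000000000000000000000000020001010544000506080000 := rS 0x12b946911 (k4 d411 d616 d15 d196 (k1 d410 k0)) (by decide +kernel)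
def d618 : PP 8 4 T 0x20001000000000000004000000000000000401000001000020001010444010106080000 := rS 0xc5618d444c7188e53a9f (k8 d11 d362 i234 i1042 i219 d617 i247 i250 (k2 i1575 i2035 k0)) (by decide +kernel)
def d619 : PP 8 4 T 0x20001000002000000004000000000000000400000000000000001000545010804000000 := rS 0x186354ea7d8ec5 (k4 d76 d351 d11 d362 (k2 i247 i250 (k1 i2035 k0))) (by decide +kernel)
def d620 : PP 8 4 T 0x20101000000000000004050000000000000000000000000000001000554000506000000 := rS 0x1c8c2128c53a9f (k4 d11 d362 i1042 i348 (k2 i2035 d410 (k1 d470 k0))) (by decide +kernel)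
def d621 : PP 8 4 T 0x20101000002000000004000000000000000400000000000000001010444010106000000 := rS 0x12b94682362b1c6239 (k8 i234 i1042 d351 d76 d619 d620 d15 d196 (k1 d410 k0)) (by decide +kernel)
def d622 : PP 8 4 T 0x1001000000000000000000000800000000010000000000000001000400100004020000 := rS 0x17b4c7c06 (k4 i473 i474 d49 i404 (k1 d417 k0)) (by decide +kernel)
def d623 : PP 8 4 T 0x1000001000000004000000000000000401000001000020001010444010106110000 := rS 0x4a3039 (k4 i234 d426 d371 d618 k0) (by decide +kernel)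
def d624 : PP 8 4 T 0x101000000000000000000000000000000000000000000000001010020000506000000 := rS 0x4ae5 (k2 d15 d196 (k1 d410 k0)) (by decide +kernel)
def d625 : PP 8 4 T 0x101000000000000004050000000005000000000000000000001010544000506000000 := rS 0xe4610946a31 (k4 i1042 d624 i348 i2035 (k2 d410 d470 k0)) (by decide +kernel)
def d626 : PP 8 4 T 0x101000002000000014000000000000000440000001040000001010444010106000000 := rS 0x30c6a224ea7d191962b1c6239 (k8 i234 i1042 d351 d76 d621 d461 i1036 i1820 (k4 d625 i247 i250 i2035 k0)) (by decide +kernel)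
def d627 : PP 8 4 T 0x1000000000000000000000140000000010000020048420001080004100106000000 := rS 0x5baccf6108c3c4768b1b8e50a813c8a42b1236b462a4f2db3e224147974a65137930960b (k8 i2357 d592 d392 d613 i528 d548 d608 i875 (k8 d440 d411 d602 d147 d420 d3 i653 i669 (k8 d418 i635 d386 d404 d46 d53 i234 i1043 (k8 d614 d606 d626 d426 d623 d64 d622 i801 (k1 d341 k0))))) (by decide +kernel)
def d628 : PP 8 4 T 0x20001000000000000004010000000000000400000001000820001010544000106080000 := rS 0x618d444c7668c53a9f (k8 d11 d362 i1042 i891 i219 d617 i247 i251 (k1 i2035 k0)) (by decide +kernel)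
def d629 : PP 8 4 T 0x1000001000000004000000000000000400000000000820001010544000006104000 := rS 0x348ee511309986b3631424288c15e0a21898445627 (k8 i732 i387 i470 d10 i724 d92 i54 d426 (k8 d419 d371 i1842 d628 i147 i670 i1968 i1969 (k4 d470 i211 i1569 d85 k0))) (by decide +kernel)
def d630 : PP 8 4 T 0x1000000000000000040000000000000000000002000020001000000020004004000 := rS 0x6b9444c223b30af05 (k8 d92 i54 i670 i1695 i1968 i1969 d470 i1569 (k1 d85 k0)) (by decide +kernel)
def d631 : PP 8 4 T 0x8001000000000000014054000000000000040000001000000001000555000004000000 := rS 0x27a309d (k4 d452 d607 i2035 d11 k0) (by decide +kernel)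
def d632 : PP 8 4 T 0x401100000000000015150000000000001440004001040000001000545000804000000 := rS 0x798ca793a648ba1d8635 (k8 i247 i251 i1703 d631 d354 i1552 i2035 d11 (k2 i1076 d409 k0)) (by decide +kernel)
def d633 : PP 8 4 T 0x101100000000000014150000000000001440000401040800001010544000106000000 := rS 0x13e9d61a30f0e48c8946a23668c6267b (k8 i814 d10 i1042 i891 d632 d624 i348 d620 (k4 d410 d409 d461 d470 (k2 i1858 i1036 (k1 i2035 k0)))) (by decide +kernel)
def d634 : PP 8 4 T 0x1000000000000004100000000000001440000000040820001010400000006004008 := rS 0x1193c8a5986c62b1de037089ec2a2b68c460a77108ce2639 (k8 i195 d10 i193 i724 i806 d92 d411 i1160 (k8 i387 i379 i814 i470 i1005 d629 d351 d76 (k4 d633 i670 d630 i1972 (k2 d621 d409 k0)))) (by decide +kernel)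
def d635 : PP 8 4 T 0x10001000001000000000000000000000001000001000000840001000000010006000008 := rS 0x26d0131e85713 (k4 d10 i388 d409 d419 (k2 i814 i1797 (k1 i1161 k0))) (by decide +kernel)
def d636 : PP 8 4 T 0x1000000000000000100000000000000040000000048820001000000000006004008 := rS 0x2827689e052378cbc474912db3d1e42209309645 (k8 i603 d592 d392 d440 d434 i875 d602 d147 (k8 i915 d634 d416 d363 i19 i255 d635 i1071 (k2 i1767 d606 (k1 i636 k0)))) (by decide +kernel)
def d637 : PP 8 4 T 0x1000000000000000100000000000000000000000048820001000000000006004008 := rS 0x4de2111d0a02a9068a28ba4220914984b (k8 d592 d392 i603 d440 d434 d608 d636 i145 (k8 i552 i2374 i1169 i1168 i1835 d416 i215 d371 k0)) (by decide +kernel)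
def d638 : PP 8 4 T 0x1000000000000000000000000000000080000044008500101000000140006100400 := rS 0xaf383f21ab18a93cc253 (k8 d548 i74 d420 d3 i1886 d612 d399 d383 (k2 d347 d614 k0)) (by decide +kernel)
def d639 : PP 8 4 T 0x1000000000000000000000000000000000000020048420001080000100106000008 := rS 0x2164885b93d02af09a14f6b14bc6072f1148ed162b3994ca26f058546e798916cba6d688cd1e412612e22cf (k8 d602 d411 d592 d392 d440 i875 i193 i653 (k8 i669 d608 d147 d418 d404 i1043 i635 i2357 (k8 d613 i528 d548 i836 i896 d638 d606 d386 (k8 d626 i234 d426 d405 i1354 d64 d53 d618 (k8 i539 d46 d420 i801 d627 d341 i190 i1428 k0))))) (by decide +kernel)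
def d640 : PP 8 4 T 0x1000000000000000000000000000000000000000048020001000000000004004010 := rS 0x16eb386224e2b14b84230f11dabd16371ca150279148ac2b1236b44be7329944de5d1982c30022105d1e0120930424525c462a4f2db3c5ac9 (k8 d603 i1238 d602 d147 d420 d3 d411 d592 (k8 i603 i724 d392 d440 d69 i875 i708 d434 (k8 d430 d427 i2357 i193 d608 d613 i528 d548 (k8 i836 d637 i653 i669 d418 i635 i896 d386 (k8 d404 d46 d53 i234 i1043 d638 i539 d606 (k8 d626 d426 d623 d405 i1354 d639 i231 d383 (k2 d622 d352 (k1 d341 k0)))))))) (by decide +kernel)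
def d641 : PP 8 4 T 0x1000000000000000000000000000000000000000000002021080004000004004008 := rS 0xe58b8d462203b1901a41 (k8 i21 i1490 i792 i791 i703 i1003 i1023 d78 (k2 d25 d468 k0)) (by decide +kernel)
def d642 : PP 8 4 T 0x4001000000000000000100000014000000400050500050015541000000000004000000 := rS 0x65ad60910 (k4 d422 d354 d349 d54 (k1 i2037 k0)) (by decide +kernel)
def d643 : PP 8 4 T 0x1001000000000000000000002000000000000000000000000001000010100204400000 := rS 0x2f44b4d481c (k4 i727 i728 d42 i1343 (k2 i365 d417 k0)) (by decide +kernel)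
def d644 : PP 8 4 T 0x1000000000000000000000000000000400050500058005501000000000204404018 := rS 0x2f69a900c89060260aca5a8d62cad8a93d562d64965ca47 (k8 i1529 d25 d640 d603 i1238 i537 d420 d3 (k8 i1353 d642 d446 d643 i2037 d54 i1388 d85 (k4 i190 i465 i466 d49 (k2 i365 d417 k0)))) (by decide +kernel)
def d645 : PP 8 4 T 0x1000000000000000000000000000000000000000000011001000002000006000008 := rS 0x444c874 (k4 i1041 i1002 d400 d111 k0) (by decide +kernel)
def d646 : PP 8 4 T 0x1000000000000000000000000000000020000000000000541000000000006000008 := rS 0x7ec34101e (k4 i230 i190 d476 d413 (k1 d399 k0)) (by decide +kernel)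
def d647 : PP 8 4 T 0x1000000000000010000000000000000040008000000040001000000000004000000 := rS 0x11b19 (k2 d64 i1815 (k1 d461 k0)) (by decide +kernel)
def d648 : PP 8 4 T 0x1001000000000000000000008000000000000004044000000001000000000004000000 := rS 0xe30d (k2 d352 i801 (k1 d383 k0)) (by decide +kernel)
def d649 : PP 8 4 T 0x1000000000000080000000000000000010405020000000001005000054004000000 := rS 0x754ea1 (k4 d463 d359 d42 d190 k0) (by decide +kernel)
def d650 : PP 8 4 T 0x1000000000000000000020000000440000000000008000001000140000004000000 := rS 0x132cf (k2 d602 i1143 (k1 d499 k0)) (by decide +kernel)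
def d651 : PP 8 4 T 0x1100000000000000000000000000000000000200000000001110000000004001020 := rS 0xe41803c4216210648e33 (k8 d460 i264 i228 d434 d427 i1500 i596 i970 (k2 d85 d39 k0)) (by decide +kernel)
def d652 : PP 8 4 T 0x4001000000000000000000000000000000400000400000020021000010000004000020 := rS 0x1885c1c2221910e84188c141ac9 (k8 i614 i2339 d92 d411 d440 d422 d651 i41 (k4 i604 i603 i707 i1572 (k1 d528 k0))) (by decide +kernel)
def d653 : PP 8 4 T 0x1000000000000000000000000000000080000040008500101000400140006000400 := rS 0x286f (k2 i1319 d638 (k1 i550 k0)) (by decide +kernel)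
def d654 : PP 8 4 T 0x1000000000000014114000000000000040000000400020001200551000004000000 := rS 0xc78b0ccda0e (k4 i603 i2445 i285 d528 (k2 i409 d631 k0)) (by decide +kernel)
def d655 : PP 8 4 T 0x1001000000000000000401000014100000000000000000000001400004100004005560 := rS 0x44b4d442f (k4 i315 i2027 d375 i280 (k1 d417 k0)) (by decide +kernel)
def d656 : PP 8 4 T 0x8001000000000000000000000000000000000002000008100101200000000804000000 := rS 0xa2acd04bc5a1fc3efd0532d830452a18fa5755b19266719c54124f069cca62d039bd5e9d4fac52f18788501ead329658a211b8a0d65e2dc4d16c3668ec56181c8c42e431ab25a24c25b3caa470200c0311 (k8 d401 i2290 d101 d430 d227 i1537 d602 d456 (k8 d392 i2435 i2411 i2125 i41 i707 i1572 d398 (k8 i526 i2230 i1070 i1972 i251 i1853 d404 d147 (k8 d418 i2422 i644 i1838 i46 i1842 d654 d111 (k8 i1353 i245 i643 d35 d426 d405 i1354 d11 (k8 d362 i539 i1319 i2345 i1237 i2358 i836 i2346 (k8 d420 i223 d3 d379 d86 d480 i2035 i537 (k8 i529 d107 i259 i2135 d438 i1573 d54 d655 (k8 d388 i237 i1664 i2037 i934 i933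 i1413 d457 (k1 d414 k0)))))))))) (by decide +kernel)
def d657 : PP 8 4 T 0x1000000000000010080000000000000000000200000000001000440020004050000 := rS 0x232394f0510cf1 (k4 d351 i259 d371 i1707 (k2 i293 d11 (k1 d426 k0))) (by decide +kernel)
def d658 : PP 8 4 T 0x1000000000000004054000000000001004000200000000001000555020004000000 := rS 0xf3194f274f713 (k4 d386 i1889 i1592 i2035 (k2 d11 i1076 (k1 d409 k0))) (by decide +kernel)
def d659 : PP 8 4 T 0x401000000000000000000000000000000000000000000040021200200000004000000 := rS 0x5f2e854f218 (k4 i526 d398 i2113 i532 (k2 i643 d418 k0)) (by decide +kernel)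
def d660 : PP 8 4 T 0x401000000000000000000000000000000040000000008000001200000000006100000 := rS 0x130b8042f804065b (k8 d147 d101 i2290 i643 d430 d418 i229 i531 k0) (by decide +kernel)
def d661 : PP 8 4 T 0x401000000000000015118000000000000140000200140200009000501000406000000 := rS 0x329acda344221c431163d3c66372ca753f18 (k8 d461 d11 i1905 i605 i1956 i291 d433 i117 (k8 d400 i1499 i1707 d97 d620 i516 i1869 i2729 (k1 i2042 k0))) (by decide +kernel)
def d662 : PP 8 4 T 0x5001000000000000000101000004040000000000120050000201020005400416000540 := rS 0x196b4822b5720f (k4 i2204 i2899 i2875 d354 (k2 d590 d54 (k1 i1397 k0))) (by decide +kernel)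
def d663 : PP 8 4 T 0x1000000000000000008000000000000000000000008000011000000020006000000 := rS 0x17f434a24c6b16329d54abda2a612e9f03b045f186926d46bb66b1516690f824f6a76888c763f0903d12390ea44624022adc04b93382e1a5c16a85920146aad5e502f9c00a6f2544e2a5ba78cc6ecf (k8 d602 i1956 i291 d433 d147 d3 d386 d392 (k8 i1320 i229 i488 i2433 i487 i2306 i2305 i1052 (k8 d586 d589 i311 i1039 d418 d41 i494 d585 (k8 i2899 d430 i1930 d101 i1046 i2724 i2800 i1230 (k8 i2051 i2049 i2204 i186 i2059 i2058 i2057 i512 (k8 d250 i1889 i1348 i1356 i1829 i1881 i3072 i1969 (k8 i1944 i328 i1448 d479 d461 d358 d384 d49 (k8 d11 d405 d485 d408 i1990 d167 d661 i1049 (k4 d662 d446 d480 d253 (k2 d447 i1725 (k1 d156 k0))))))))))) (by decide +kernel)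
def d664 : PP 8 4 T 0x1000000000000001000000000000000008100000404020000000000000000001000000000004000000 := rS 0x17f43 (k2 d447 i1725 (k1 d156 k0)) (by decide +kernel)
def d665 : PP 8 4 T 0x1000000001000000001010000140010010000000000000001000015500004000000 := rS 0x12516 (k2 d468 i2033 (k1 d480 k0)) (by decide +kernel)
def d666 : PP 8 4 T 0x401000000000000000008000000000000040000000008200001000000000406000000 := rS 0xcc359d208658b8d12aa55ed1504c51f8f40ec117a05e0d251aed2e9f1587c12a78c0ed12270e9a5a215189008ab93382e1a85488085aa1648055650380a40a6f250e56e4d3dabe2ae5a78cd9e8d (k8 d445 d602 i291 d433 d470 d3 i539 i1891 (k8 i531 i1930 i235 d392 i1320 i229 d663 i488 (k8 i487 i2305 d586 d589 i311 i1039 d430 i1169 (k8 i1866 d41 i494 d585 i2899 d101 i1046 i2724 (k8 i380 i512 i1849 i1230 i1766 i2049 d606 d461 (k8 d250 i1348 i1356 i387 d11 d405 i1944 i328 (k8 d479 d419 i1362 d358 d384 d49 d88 d27 (k8 d76 i2031 d457 i2902 d167 d664 d665 d44 (k4 i2729 d354 d662 d366 (k2 d661 i1970 k0)))))))))) (by decide +kernel)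
def d667 : PP 8 4 T 0x400000000000000401000000000000001000000000004000001000200000000001000000000004000000 := rS 0x10f11 (k2 d400 i1707 (k1 d97 k0)) (by decide +kernel)
def d668 : PP 8 4 T 0x1000000000000000100010015100010000000008015000001020000000244000000 := rS 0x12667659f4a80c (k4 i744 i743 i1502 i466 (k2 d68 i1321 (k1 i2040 k0))) (by decide +kernel)
def d669 : PP 8 4 T 0x4001000000001000000001010001150210000002008115400001020000001414000000 := rS 0x2847e499f6202164a30ba1f55abc12ad7e2da2ab5 (k8 i1399 d449 i1060 d450 d360 d413 d347 d72 (k8 i182 i1930 d267 i1129 d668 d410 d67 i1321 (k2 i2030 d391 (k1 d100 k0)))) (by decide +kernel)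
def d670 : PP 8 4 T 0x1000000000000000002000000010000000000000000000201020000000004000000 := rS 0x3c0969c343a4f (k4 i31 i741 d41 d384 (k2 i2850 d479 (k1 i182 k0))) (by decide +kernel)
def d671 : PP 8 4 T 0x401000000000000000000000000000000000400000000000001008000044004000000 := rS 0x52f1 (k2 d27 i257 (k1 d419 k0)) (by decide +kernel)
def d672 : PP 8 4 T 0x401000000000000000000000000000000000000000000000001002000044014000000 := rS 0x52f1 (k2 d23 i1840 (k1 d419 k0)) (by decide +kernel)
def d673 : PP 8 4 T 0x11000000000000000000000000010540010002000000000001005540500014000000 := rS 0x14cb7 (k2 i1932 i2034 (k1 d250 k0)) (by decide +kernel)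
def d674 : PP 8 4 T 0x4001000000001000000001010001150210000002008105000001020000001414000000 := rS 0x19068331897da2020c05c944d (k8 d440 d392 d439 d427 i180 i2746 i645 i2724 (k4 i2050 d468 d669 i2729 k0)) (by decide +kernel)
def d675 : PP 8 4 T 0x4001000000000000000001010001100210000002008105000001020000401414000400 := rS 0x1988c6565a4a0a0d1ab90660f18a854607692245aad04aad928c2eabdf9155b17da2020c05c944d (k8 d440 d392 d439 d427 i180 i2746 i645 i1060 (k8 d449 d450 d347 i1930 d267 i1129 d72 d413 (k8 d360 i1040 i2049 d417 d49 d375 i310 i2724 (k8 i2204 i2050 d674 d15 d66 d143 i2033 i1367 (k4 i1550 i2027 d354 i1617 k0))))) (by decide +kernel)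
def d676 : PP 8 4 T 0x1000000000000000050000000401220000000008000000001020400000004000000 := rS 0xc25eafc6acfa18e466311b8083017251368a9f (k8 i2738 d408 d440 d392 d439 d427 i180 i2725 (k8 i2724 i2050 i2051 d447 i2736 i2735 i1725 i1990 (k2 i2035 d156 k0))) (by decide +kernel)
def d677 : PP 8 4 T 0x1000000000000000001010000140010010000008000000001020005500804000000 := rS 0x248ee35 (k4 i2055 i1625 i2033 i1322 k0) (by decide +kernel)
def d678 : PP 8 4 T 0x8001000000000000000001010000140010010000000000000001000005500004000000 := rS 0x12635 (k2 d446 d480 (k1 i2033 k0)) (by decide +kernel)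
def d679 : PP 8 4 T 0x4001000000000000000001010000100210200002008100000001020000400416000400 := rS 0x32a84654999c6877123255aab7e18c9b15309295202 (k8 i180 i1084 i181 i2728 d449 d440 i1320 d450 (k8 d72 d360 i1129 d675 d415 i348 i490 i1322 (k4 i2729 d391 i2040 d98 k0))) (by decide +kernel)
def d680 : PP 8 4 T 0x1000000000000000050010000101210210002008000000001024000500006000000 := rS 0x49d0d74c35f9a22e231ea9d46c10e82da433078c55afc319362a61252a404bd (k8 i1991 i180 i1084 i181 i2728 d449 d440 i1320 (k8 d450 d360 i2724 i2204 i2050 d417 d462 d42 (k8 d384 d375 d359 i1786 d677 d678 d679 i1567 (k4 i1829 i2036 d58 i1639 (k1 d391 k0))))) (by decide +kernel)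
def d681 : PP 8 4 T 0x1000000000000000000128000400600000002000000000001020040040004000000 := rS 0x1056495018671015e202566a1d874f429d574bf671f4cb438bd14024347808c24a0c05d8ec5780a44f13 (k8 d404 i1767 i1928 d419 d76 d351 i972 d427 (k8 i181 i2728 i180 i2778 i21 i1038 d408 d43 (k8 d99 i1026 i1330 i1143 i1457 i1144 i2742 i1935 (k8 d96 d156 i857 i3123 i349 d97 d57 d505 (k4 i489 i744 i743 i463 (k2 d474 d354 k0)))))) (by decide +kernel)
def d682 : PP 8 4 T 0x1000000000000000000000000000600010002008000000001024440400004000000 := rS 0xd59ec38b2fd2743522e57a954ea30b4c563975e0af14bf16c9f318e62627a2a9da51516934665f158c55202309283017 (k8 i972 d427 i181 i2728 i180 i1084 i2724 i387 (k8 i904 i2050 d440 i980 d449 d417 d359 d408 (k8 i1767 d404 d398 i1320 i2738 i1060 d450 i1928 (k8 d347 d419 i1930 d351 d76 d418 d267 i3062 (k8 d676 i1991 d681 d680 d421 i1364 i1451 d391 (k4 d156 d385 d446 i2035 k0)))))) (by decide +kernel)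
def d683 : PP 8 4 T 0x401000000000000000000000000000000000000000000000001028000044004000000 := rS 0x52f1 (k2 d27 i2059 (k1 d419 k0)) (by decide +kernel)
def d684 : PP 8 4 T 0x1000000000000010000000000000080040000000004000001000000000004000000 := rS 0x11b19 (k2 d405 i1818 (k1 d461 k0)) (by decide +kernel)
def d685 : PP 8 4 T 0x401000000000000000000000000000000000000000000200001022000044004000000 := rS 0xa026f1 (k4 d23 i3071 d419 i186 k0) (by decide +kernel)
def d686 : PP 8 4 T 0x4001000000000000000000200000800000000000000000000001020000400004000000 := rS 0xd5caa2610cc62020c05c944d (k8 d440 d392 d439 d427 i180 i2724 i2050 i1984 (k4 i1985 d470 i326 d468 k0)) (by decide +kernel)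
def d687 : PP 8 4 T 0x401000000000000000000000000000000000000000000000001022000044004000000 := rS 0xa0baf1 (k4 d23 d685 d419 i187 k0) (by decide +kernel)
def d688 : PP 8 4 T 0x1000000000000000000000000000000000002000000000001022040040004000000 := rS 0x4f13 (k2 d404 i1767 (k1 d687 k0)) (by decide +kernel)
def d689 : PP 8 4 T 0x1000000000000040000004000010541000405050000000001000000108044000000 := rS 0xec34dc81 (k4 i1770 i2045 d356 i1231 (k1 d479 k0)) (by decide +kernel)
def d690 : PP 8 4 T 0x1000000000000000000000000000000000000000000000001022000000084000000 := rS 0x1050 (k2 i183 i182 (k1 i2851 k0)) (by decide +kernel)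
def d691 : PP 8 4 T 0x1000000000000010000000000010541000000050000000001022040140004000000 := rS 0x3b0d3720624270f9e4f71841adda6f10c05c944d (k8 d440 d392 d439 d427 d23 d88 i1784 i1256 (k8 d210 d64 d688 d690 d689 d687 d46 i2045 (k2 d356 i1231 (k1 d479 k0)))) (by decide +kernel)
def d692 : PP 8 4 T 0x1000000000000000000004000810541000405050000000001000000100004000000 := rS 0xec34dc81 (k4 i1860 i2045 d356 i1231 (k1 d250 k0)) (by decide +kernel)
def d693 : PP 8 4 T 0x1000000000000040000004000000540000405000000000001021440500044000000 := rS 0x861b83a811f29c722b39a8522718a2243017 (k8 d439 d427 i2049 d417 d361 i1168 i310 i1091 (k8 i387 i2051 d692 i2034 i1333 i1421 i2045 d479 (k1 d356 k0))) (by decide +kernel)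
def d694 : PP 8 4 T 0x4001000000000000000000000000000000000000000010000001020000000204000000 := rS 0x10533b24a80c008602e43 (k8 i21 d439 d427 i1038 i744 i743 i463 d68 (k2 d474 d354 k0)) (by decide +kernel)
def d695 : PP 8 4 T 0x1000000001000001054000000000000004008000000000001000001055504000000 := rS 0x10875 (k2 d124 i2032 (k1 i1896 k0)) (by decide +kernel)
def d696 : PP 8 4 T 0x1000000001000040000000008140000000000000000000001000000000004000400 := rS 0x18343 (k2 d458 i1514 (k1 d475 k0)) (by decide +kernel)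
def d697 : PP 8 4 T 0x1000000000000040101000002944004000000000040000001020020000004000000 := rS 0x171985767274b7183a2dcdad1124315c3b0e9f5420846a2c0e6f8a804868f3980846212c9acd304329289b1755ad4ff427287d620b4b8e43017 (k8 d439 d427 i2051 i1897 i2183 i1822 i2054 d15 (k8 d475 d100 d55 d696 d44 d440 d392 i2729 (k8 d354 d431 d366 i605 d694 i2055 i180 i2758 (k8 i2778 i21 i1038 d425 i2734 i455 i578 i1090 (k8 i1085 i311 d107 i742 i2076 i203 d479 i2030 (k8 i1160 i593 d352 i349 d461 i1922 d362 i2042 (k4 d587 i1068 d549 i1971 k0))))))) (by decide +kernel)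
def d698 : PP 8 4 T 0x1000000000000040000000000000000000000000002000001020000000044000000 := rS 0x508761a4e3702c5a020c05c944d (k8 d440 d392 d439 d427 i180 i2723 i2183 i1047 (k4 i1048 d356 i1231 i756 (k1 d479 k0))) (by decide +kernel)
def d699 : PP 8 4 T 0x1000000000000040101000000944004000000000040000001020020000004000000 := rS 0x10d50874a07027988c2a90fab59704329289b175582c30174aae684e5 (k8 d15 d475 d99 i1099 d439 d427 i2183 d696 (k8 d44 d440 d392 i2729 d354 d54 d12 i2054 (k8 d697 d698 i2040 d420 i488 i487 i741 d463 (k2 d41 d479 k0)))) (by decide +kernel)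
def d700 : PP 8 4 T 0x1000000000000040000000000000000000000000008000001020000000004000000 := rS 0x10d5087c3a50380249e4a26a243017 (k8 d439 d427 i2049 d440 d392 d420 i1348 i488 (k4 i487 i741 i182 d463 (k2 d41 d479 k0))) (by decide +kernel)
def d701 : PP 8 4 T 0x1000000000000010000000541000140140000000005000001000000000004000000 := rS 0x2309a (k2 i2041 d461 (k1 d84 k0)) (by decide +kernel)
def d702 : PP 8 4 T 0x1000000000000006900000041000000000000000005000089000000000004000000 := rS 0x68ac5668b469a8d2832d1e52e998a3f4b254 (k8 i1390 i605 d395 d450 d449 d407 i1972 i769 (k8 i2525 i1831 i770 i1051 d441 i1429 i1394 i631 (k1 d701 k0))) (by decide +kernel)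
def d703 : PP 8 4 T 0x101000000000000015010000000411140140000500000000001020010400524000000 := rS 0x132187c85a78f456c64d9ed3e3b8c0547233448b5228f398dc9471272a41243010602e4d (k8 d440 d439 d427 i180 i21 i1262 i1085 i741 (k8 d211 d392 i2725 i2758 i2778 i2800 i2723 i2049 (k8 i2050 i2051 d225 d461 d606 d11 d64 d84 (k8 d620 i387 d691 d381 i1602 i2034 d335 i1422 (k1 i2502 k0))))) (by decide +kernel)
def d704 : PP 8 4 T 0x1000000000000011014000000000000080000500000000001020000001504000000 := rS 0x18e87428a456f0139ea325b1ca446e020c05c944d (k8 d440 d392 d439 d427 i180 i2725 i2800 i2051 (k8 d441 d52 i492 i745 d210 d451 i1889 i1896 (k2 i817 d351 (k1 i2032 k0)))) (by decide +kernel)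
def d705 : PP 8 4 T 0x101000000000000015100000000491140000000500001000001020010401524001000 := rS 0xfc7a9b359e13e2b460ed16151ca245a37010602e4a26b1586e4 (k8 d410 d470 d75 d440 d392 d439 d427 i180 (k8 i2725 i2723 i2049 i2051 d225 d704 d606 d703 (k8 i387 i2732 i1051 i1964 i1033 d688 d221 i2034 k0))) (by decide +kernel)
def d706 : PP 8 4 T 0x1000000000000000900010000410000000000000055000001020000000024000000 := rS 0x18c6d43c490a2714bc4565d0904474796833544c3628354ae44e8d59e7710c444a233ac5982b42a4148a3307805122d18a44944d4aa5c5e934cc51fa4e5482486020c05d5e06 (k8 i742 i460 d439 d427 i180 i21 i1262 i1085 (k8 i741 d395 d450 d449 d28 d423 d407 d350 (k8 d440 d392 i2800 i2724 i2723 i2049 i1038 i2204 (k8 i2050 i22 d54 i1390 i1389 i1246 d354 i1539 (k8 i1538 i764 d349 i2498 i808 d385 d446 d452 (k8 d410 i1382 i1489 d75 d470 i2033 d702 d705 (k8 i2746 i1160 i471 i1161 i512 i388 d416 i2058 (k4 i746 i1544 d419 d51 (k2 i1697 i2032 (k1 i219 k0)))))))))) (by decide +kernel)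
def d707 : PP 8 4 T 0x1000000000000000500010000000014000050014010002001020000000004000000 := rS 0x768b1d56b0533a3ce6020c05c944d (k8 d440 d392 d439 d427 i180 i2758 i2778 d68 (k4 d474 i768 i1539 d354 (k2 i2044 d78 k0))) (by decide +kernel)
def d708 : PP 8 4 T 0x4001000000000000040500010001010014000000010055001001020000000004000080 := rS 0x11a08ab168c4e6020c05c944d (k8 d440 d392 d439 d427 i180 i2758 i2724 i2723 (k4 d206 d354 d200 d81 k0)) (by decide +kernel)
def d709 : PP 8 4 T 0x1000000000000060500010001010014000000810015001001020000001004000080 := rS 0x63b148e693330d3e2366c5c661267a34944d43a16242708804862b3cbc4523a010602e21 (k8 i743 d439 d427 i180 i1160 i2058 d416 i2746 (k8 i388 i21 i1038 i471 i746 d419 d53 d51 (k8 d440 d392 i1051 i2788 i1161 i2050 d78 i810 (k8 i1625 i1715 i374 d708 i1624 i1617 i1803 i218 (k1 i2032 k0))))) (by decide +kernel)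
def d710 : PP 8 4 T 0x1000000000000060500010001010014000050114015000001020000000004000080 := rS 0xad55ad0ce77128b4628f3980830172c9289a55 (k8 d707 d440 d392 i605 d439 d427 i180 i2758 (k8 i2778 i2724 i2723 i349 d709 i490 i2044 d206 (k2 i1288 i2040 k0))) (by decide +kernel)
def d711 : PP 8 4 T 0x1000000000000060500010001010014000050014015000001020000000004000080 := rS 0x2a8cf113a1545a31479cc04180b964944d (k8 d440 d392 i605 d439 d427 i180 i2758 i2778 (k8 i2724 i2723 d707 d710 d400 i1588 d201 d206 k0)) (by decide +kernel)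
def d712 : PP 8 4 T 0x1000000000000020100010001400000000000000015000001020000000024000000 := rS 0x19d94d3378b4944d3f9c4fa062725527140484906b740c484e110090de22b3c8a474020c05d421f (k8 i45 i89 d439 d427 i180 i1160 i2058 i2746 (k8 i388 d416 i21 i1038 i471 i746 d419 d46 (k8 i2496 d24 i1161 i1262 d148 d28 d350 i741 (k8 i742 i2817 d149 i2495 d440 d392 i2723 i1231 (k4 d42 d711 i545 d706 k0))))) (by decide +kernel)
def d713 : PP 8 4 T 0x4001000000000000000900000000000000000000000014000001000000000004000000 := rS 0xcf05 (k2 d54 i545 (k1 d354 k0)) (by decide +kernel)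
def d714 : PP 8 4 T 0x4101000000000000004050000000000000405000100000000001000000055504000000 := rS 0x61b35c876 (k4 d422 d410 i810 d470 (k1 i2032 k0)) (by decide +kernel)
def d715 : PP 8 4 T 0x400000000000001000000000000040009000000500000000000000000000001000000000004000000 := rS 0x146e5 (k2 d470 i328 (k1 d475 k0)) (by decide +kernel)
def d716 : PP 8 4 T 0x1000000000000010000000000000001000000000000000001020800000006000000 := rS 0x253c63237 (k4 i19 d363 d416 i181 (k1 d210 k0)) (by decide +kernel)
def d717 : PP 8 4 T 0x1000000000000000000000000000000000000008000000001000000600024000008 := rS 0xfd2993ca2600592c8b0d (k8 d356 d101 i2723 i302 i1000 i1230 i1272 i716 (k2 d396 d399 k0)) (by decide +kernel)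
def d718 : PP 8 4 T 0x1000000000000000000000540010000000100000000440561002000000004050000 := rS 0x2e0516ef1 (k4 d23 i1784 d371 d341 (k1 i2354 k0)) (by decide +kernel)
def d719 : PP 8 4 T 0x11000000000000000000004140000000000500000000200021001000000004150540 := rS 0x535116713 (k4 d368 i2355 d357 d533 (k1 d377 k0)) (by decide +kernel)
def d720 : PP 8 4 T 0x1000002000000004004000000004000000000000000080021200011001004044000 := rS 0x4ed3cd8470231c6e3b0a89d8a3945b46327a (k8 i793 d64 i2435 d441 d504 d76 d38 d35 (k8 d416 d9 d351 i525 d227 d117 d389 i1643 (k1 d109 k0))) (by decide +kernel)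
def d721 : PP 8 4 T 0x1000000000000000008020000000000000000000000000001000010000006000000 := rS 0x19b962e31 (k4 i2718 d43 d470 i2112 (k1 d468 k0)) (by decide +kernel)
def d722 : PP 8 4 T 0x4001000000000000000000000000000010000080000000000001000010000066000000 := rS 0x1ca33188804675 (k4 i1667 i1664 i719 i1041 (k2 i232 d25 (k1 d468 k0))) (by decide +kernel)
def d723 : PP 8 4 T 0x4001000002000000000000000000000000000001000000088021200010001004040000 := rS 0x539849d678c53e0f349d0cc6506a32327a (k8 i793 d64 i794 i2346 d432 i529 i530 d116 (k8 i502 i1035 i1505 i1067 i1819 d720 d397 d433 k0)) (by decide +kernel)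
def d724 : PP 8 4 T 0x1001000001000000000014010000008040005080008000000001420000051506000009 := rS 0x26e8abc5b3318e2709045a0998ca446e4a (k8 i181 i2725 i2800 d11 i2738 d210 i471 i1161 (k8 i746 i218 i2032 i848 i849 d424 i1417 d466 k0)) (by decide +kernel)
def d725 : PP 8 4 T 0x11001000001002000000000000000000441005080000000000009400000051506000008 := rS 0x198b76389e881208a65a0c5618048037 (k8 i2725 i1046 i23 d470 d75 d210 i2767 i471 (k4 i1161 d466 i746 i218 (k2 d424 i2032 (k1 i848 k0)))) (by decide +kernel)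
def d726 : PP 8 4 T 0x1000000000000000000000000000000000000000000080005100000000006000000 := rS 0x4646e7a3c8ec824c (k8 d392 i181 d151 i1808 i793 i1043 d64 d154 k0) (by decide +kernel)
def d727 : PP 8 4 T 0x4001000000000000000100000000000000000000000010000001800004000004000000 := rS 0xcf05 (k2 d81 i1617 (k1 d354 k0)) (by decide +kernel)
def d728 : PP 8 4 T 0x1000000000000000000000000000020000000000080000009000000000004000000 := rS 0x15462 (k2 i1674 i1673 (k1 i2305 k0)) (by decide +kernel)
def d729 : PP 8 4 T 0x1200002000000000014000000000000080000000000000009000100000004101000 := rS 0x99b4d60f3491d8e11 (k8 d393 d351 d81 d431 d5 d366 i2311 i1881 (k1 i2029 k0)) (by decide +kernel)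
def d730 : PP 8 4 T 0x1000000000000008000000000000000400000200050050001000000000004000000 := rS 0x15cb8cc (k4 i1068 d549 d587 i1971 k0) (by decide +kernel)
def d731 : PP 8 4 T 0x1000000000000000000000000010000050000000000040009000800900006000208 := rS 0x20a243d1f97c565d08a64f2a7680a522370a8e56f0c0f9cda61d218044e40 (k8 i1046 i745 i23 i437 i1262 d358 i2758 i239 (k8 d479 d352 i2051 d225 i2725 i2800 i255 d606 (k8 i2076 i2746 i2767 i471 i512 i388 i646 i405 (k4 i1268 d418 d199 d24 k0)))) (by decide +kernel)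
def d732 : PP 8 4 T 0x1000000000000020000000002010000010000000000080009000100100004000008 := rS 0x418f44e3f5984532911b974be29228ac2a4053abd6f0c0f9cda62e0e90c0208 (k8 i1085 i23 i437 i1262 i1084 d358 i2758 i239 (k8 d479 d352 i1922 i203 i1046 d225 i772 d101 (k8 i1806 i36 i35 i2725 i2800 i2767 i471 i664 (k4 i405 i746 i1268 i776 (k1 d199 k0))))) (by decide +kernel)
def d733 : PP 8 4 T 0x1001000000000000000000440000200100000000000000001000000000004000000 := rS 0x16345 (k2 d408 i1825 (k1 d414 k0)) (by decide +kernel)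
def d734 : PP 8 4 T 0x4101201000000000000000000000000020000000100000000109000000000004000000 := rS 0x4f869f8a676379551ec9 (k8 d370 i1132 d474 i1057 d422 i567 i1675 d353 (k2 i759 d399 k0)) (by decide +kernel)
def d735 : PP 8 4 T 0x1000000000000000000000002000140000000000000800809004440000006000002 := rS 0xbd126e38c545a4d4dabc7278 (k8 i646 d398 i2400 i1178 i51 i2714 d425 i797 (k4 i567 i231 i2733 d485 k0)) (by decide +kernel)
def d736 : PP 8 4 T 0x10100000200000002010000000a000140000000200000000009000000020006000000 := rS 0x8dca8606085860618a95a62e4487e185327a9d07441ca6cf0af2f44e32377ec5686c71fb14ba9112904a25b2109d820b16b3c6a00018ec0a33 (k8 d460 d456 d416 i1160 d430 i1114 i1147 i2714 (k8 i560 i1514 d38 i1038 i705 i2248 i180 d195 (k8 i1168 i512 d76 d27 d351 d458 d425 d374 (k8 i2720 d34 d386 d418 i2400 i646 i1178 d398 (k8 d466 d457 d377 i908 d735 d399 d476 i230 (k8 d485 d358 i365 i1082 i1078 d715 i1499 i457 (k4 d658 d66 i1703 d410 k0))))))) (by decide +kernel)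
def d737 : PP 8 4 T 0x10100000200000002010000040a000040000000200000800009000000000006000000 := rS 0x22433953c0c10b0c0c3152b4c5c1c4487d030c27a9d074450a7536535b9e15f191bbf62b43638f47e27628ac4a4128909820b16b3c6a00018ec0a77198e45299 (k8 i1109 d736 i234 d460 i79 d456 d416 i1160 (k8 d430 i1114 i1147 i2714 i560 i1514 i1038 i2248 (k8 i180 d195 d79 d76 d38 d27 d23 d351 (k8 d458 d425 d374 i2720 d34 i2400 i646 i853 (k8 d735 i1178 i1858 i819 d466 d457 d377 i908 (k8 d399 d465 d476 i230 i2031 d485 d42 i365 (k8 i1082 i1078 d715 i1499 i457 i2035 d66 i1076 (k2 d410 i1703 k0)))))))) (by decide +kernel)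
def d738 : PP 8 4 T 0x821000000000000020000000402000040000000000000040001005400040006000002 := rS 0x2c49e06048b95e9b4487d42b729c646f1516a64065d48944845f41a047229 (k8 d386 i234 d46 d24 d10 i1038 i2248 i1168 (k8 i512 i1160 i1109 i2714 d425 i2720 d34 d369 (k8 d352 d472 d476 i230 d611 i592 d485 i198 (k4 i1078 i702 i1227 d341 k0)))) (by decide +kernel)
def d739 : PP 8 4 T 0x11000000000000000000000002000140000400000000000401014540000006000002 := rS 0x17a2536070f9c09c6f7ec545a732285ca242 (k8 i1038 i2248 i8 i478 i2756 i2714 d425 d374 (k8 i1056 d399 d383 i1270 i1222 i1447 i230 i1078 (k1 d485 k0))) (by decide +kernel)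
def d740 : PP 8 4 T 0x101000002000000004014000000000000001000001500005009000155000004145000 := rS 0x13a9f3a538b1052331c7611 (k8 d393 d416 d351 i2029 d81 d438 d467 i606 (k2 d89 i1591 (k1 i2035 k0))) (by decide +kernel)
def d741 : PP 8 4 T 0x10000000000000a0400010000100800050000000800000001000015400004000000 := rS 0x9549b213ac1 (k4 d384 i1907 i631 i1450 (k2 i1101 d253 k0)) (by decide +kernel)
def d742 : PP 8 4 T 0x1000000000000000000000000000000000000000000140009000200000006000000 := rS 0x8997c5079 (k4 d398 i234 i646 d386 (k1 d418 k0)) (by decide +kernel)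
def d743 : PP 8 4 T 0x1000000000000000000000000008400000004000001000809004540000004000402 := rS 0x12e9917a262a2d039b950fd (k8 d22 i566 i567 i2267 d268 d425 d95 i2733 (k2 i2738 i1324 (k1 d485 k0))) (by decide +kernel)
def d744 : PP 8 4 T 0x1001000000000000000400000011000504011042044005015401084540500004000000 := rS 0x16851402ac9e073ea59f8d2 (k8 d417 d450 d485 d107 d49 d395 d72 i1855 (k2 i439 i2037 (k1 i1402 k0))) (by decide +kernel)
def d745 : PP 8 4 T 0x2001000000000000000500050051000504010000000055000001005540500004000400 := rS 0x58d1566fd532a92e95 (k8 d350 d407 i2040 i2034 d72 i666 d377 i1822 (k1 d414 k0)) (by decide +kernel)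
def d746 : PP 8 4 T 0x1000000000000020500050051000404011006440055015401080540500004000400 := rS 0xfe6f3825a2a991e8fde119 (k8 d34 d426 d27 d23 i1108 d745 d485 i1856 (k2 i1324 i799 (k1 d744 k0))) (by decide +kernel)
def d747 : PP 8 4 T 0x1000000000000024100000040008400011006040055015401080540500004000400 := rS 0xab5aaf97a984ba06184f0ea9cfa7f691bca3157eaa07a3f78465727749a195acb82444e8bb (k8 i1686 i1075 d400 d438 d54 d12 i1076 i3022 (k8 i1716 i2751 d34 d426 d27 d23 d746 d374 (k8 d425 i2248 i1056 d417 i1668 d107 d359 d42 (k8 i701 d399 d465 i1855 i2034 i1990 i1113 i934 (k2 i1722 i2037 k0))))) (by decide +kernel)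
def d748 : PP 8 4 T 0x1000000000000000000000000000004020000240004015401080000000406000000 := rS 0xaa7e1456a4f869f4fe070f1be2a4556b2e0911 (k8 d400 d438 d54 d12 i41 d83 d95 i230 (k8 i1340 i1668 d107 d476 i1270 i1396 i439 d399 (k2 i2037 d72 k0))) (by decide +kernel)
def d749 : PP 8 4 T 0x1000000000000000500010010000004000000000055000401080000200006000000 := rS 0x1fa4f86aa8a26e54a543e17 (k8 i8 i1304 i2715 i2714 i1039 i440 i2040 d356 (k2 i1271 d72 (k1 d399 k0))) (by decide +kernel)
def d750 : PP 8 4 T 0x100000200000002010004000a000040000000200000800009000000000006000000 := rS 0x16511 (k2 d400 d737 (k1 i666 k0)) (by decide +kernel)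
def d751 : PP 8 4 T 0x1000000000000020000000000008400000000000000800009080500000006000000 := rS 0x4cd1578825a2ad2e81863f49e513e9fd50090f9be2a2e16a24a6bb3199c160320984e63f67abcf64d5ca4c468663bc2323756b2e0859649ae22743c154d2652ba152200 (k8 i437 i2799 i1606 i650 i2712 i1565 i911 i646 (k8 i1075 d400 i2423 i1186 i605 d438 d54 d12 (k8 i2720 d34 d426 d351 i1076 i1703 i3022 i2751 (k8 i51 i813 i2400 i133 d27 i2756 i2711 i21 (k8 i1046 i2382 i2246 i2245 i1686 d743 d748 d749 (k8 d747 d423 i2733 i239 i198 i1077 i1668 d107 (k8 i440 i702 d374 d399 d465 i1855 d750 i2037 (k4 i933 i934 d457 i1990 (k1 d466 k0))))))))) (by decide +kernel)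
def d752 : PP 8 4 T 0x1000000000000020000000000008000000000000000800009080500000006000000 := rS 0xfd2893e1aaa29a04dc9554a6996ad8224e2259431d172c92b954f06b3199cc285489a4ca00 (k8 i437 i2712 i1565 i2799 i1606 i2711 i2246 i2245 (k8 i2423 i646 i911 i650 i1186 i2751 i1075 i1076 (k8 i605 d400 i3022 d438 d12 d54 d751 i2748 (k8 i2749 i1073 i1337 i566 i2040 d356 i1271 i648 (k2 d72 d399 k0))))) (by decide +kernel)
def d753 : PP 8 4 T 0x1000000000000020000000009008800000000000005000001000000000004000000 := rS 0x5d255651457d1562fd (k8 d72 i1297 d56 i591 d450 d414 d350 i666 (k1 i1685 k0)) (by decide +kernel)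
def d754 : PP 8 4 T 0x1400000000001011000000000000000001111000008014010000200000000001004004500006000000 := rS 0x8460a53e459767fa7c4546d2 (k8 d417 d375 d400 d89 i1667 i1685 d391 d481 (k4 d167 d678 i1501 i1042 k0)) (by decide +kernel)
def d755 : PP 8 4 T 0x1000000000000020000000008008800000000200404410001000500000006000402 := rS 0x36b34aeba3f1f528b5291ba1a975eacd5cb916c5550c1a1a2c5641018f4c27319b1d0a6943d15322f448fcaa65499c507122d89de1191b908ba91 (k8 i1168 i512 i1038 i2720 d34 d426 d38 i705 (k8 d418 d24 i1447 i1590 i2712 i1539 d27 i1443 (k8 i2802 i154 d56 d51 i1565 i1606 d351 i1711 (k8 i2756 i2711 d23 i1160 i180 i387 i145 d458 (k8 i1514 d753 d425 i2714 i2815 i1178 i664 i1417 (k8 i1899 d738 d383 d739 i1399 d754 i1598 i1058 (k4 i1182 i569 i849 i1682 (k1 i2039 k0)))))))) (by decide +kernel)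
def d756 : PP 8 4 T 0x1000000000000020000000006000820001000000100001001000400000006000002 := rS 0xcd2bad4a46e38c350e83890e47e5b08c662ab959a647a2d4ba2cda2b3c9cca25f5d164944d35b2596ae2285c2a372080cba42 (k8 i1038 i2254 i23 i180 i2720 i638 i8 i478 (k8 i1178 i2419 i1101 i631 i2401 d392 i605 i1182 (k8 i2400 i2317 i1094 i2748 i388 i593 i145 i1899 (k8 i2714 i1257 i154 i664 i1140 d425 d34 i472 (k8 d154 d197 d742 d418 d24 d51 d738 i1447 (k4 d383 d739 i1399 i568 (k2 i1949 i2039 k0))))))) (by decide +kernel)
def d757 : PP 8 4 T 0x1000000000000000000080006000000001000009500551001000000000004000000 := rS 0x334aeb5292e50f12 (k8 d418 d51 i1140 i1056 i1399 i568 i1949 i2039 k0) (by decide +kernel)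
def d758 : PP 8 4 T 0x1000000000000020000000006008820000000000000000001000000000006000002 := rS 0x18ae511030accd5bc30de7163a1d06a389348b6896184de23a2ac10d2852e8bcca912100e9f1516a5d166d39944be355d164944d35b2596ae (k8 i1178 i2419 i1101 i631 i2401 d392 i605 i1182 (k8 i2807 i2400 i2317 i1094 i593 i145 i1899 i2714 (k8 d425 d89 i23 i1038 i2799 i2712 i2802 i2254 (k8 i1606 i1565 d467 d474 d756 d416 i214 i373 (k8 i397 i706 d417 d418 d375 d24 d51 i1679 (k8 i1447 d757 d383 d352 i1948 i2039 i441 i442 (k2 d66 i1575 (k1 d435 k0)))))))) (by decide +kernel)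
def d759 : PP 8 4 T 0x1000000000000020000000002000800000000000000000001000000000004000008 := rS 0x530e8102e (k4 i1084 i1085 i1160 i1176 (k1 i2076 k0)) (by decide +kernel)
def d760 : PP 8 4 T 0x400000000000000001000001000000000000000000000000001000001000008001080000000004020000 := rS 0x3158ee561888186b (k8 i2253 i441 i442 i1952 d66 i1687 i1575 d435 k0) (by decide +kernel)
def d761 : PP 8 4 T 0x1000000000000000001110000048014010000001400540009000800501004000002 := rS 0x18ee5520c58acc2a8d4b2c3823250e331c9a4ca57a7a1624420c05c20f1 (k8 d416 i1154 i2796 d427 i1038 d418 d53 d89 (k8 d760 i2795 i1565 i139 i1712 d51 i1186 d467 (k8 i1952 i605 i1114 d474 i2039 i1792 i1159 i2033 (k2 d60 i415 (k1 d435 k0))))) (by decide +kernel)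
def d762 : PP 8 4 T 0x1000000000000020000000006008800000000000000000001000800000004000000 := rS 0x14a3518c5c1ac835254da5f1296c82102e90946c1690b4301744c545e00029289a0349a5d5c8b198e57ab9 (k8 i2815 i1417 i139 i1712 i145 i1178 i1899 i1718 (k8 d759 i2401 d392 d456 d430 i2802 d425 i397 (k8 i2796 d427 i2714 d417 d384 d375 i1038 i2254 (k8 i1154 i180 i1758 d195 i2400 i593 d758 d761 (k4 i631 i2279 d61 i2717 (k2 i1115 d574 (k1 i2033 k0))))))) (by decide +kernel)
def d763 : PP 8 4 T 0x1000000000000022000400088008000000400040000000001000000000004000000 := rS 0x434deb64a1fce3155d2f534a8a2d3e866b (k8 i2396 d458 d89 d91 i591 i592 i1986 d87 (k8 d425 i1447 i849 i1685 i1948 i1058 d352 d383 k0)) (by decide +kernel)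
def d764 : PP 8 4 T 0x1000000000000020000000048008800000000000005000001000000000004000000 := rS 0xa8 (k2 d753 i1178 k0) (by decide +kernel)
def d765 : PP 8 4 T 0x10000010000000a0000400008008000000000040100040409080000000004020000 := rS 0x5636b355cb786154b26b7ea0d028742c48ba5f27874a2b303ac47b4f (k8 d89 d88 i1761 d49 i473 i439 d42 i701 (k8 i2281 i2254 d418 d53 d51 d46 d24 d72 (k8 i2396 i2392 i1658 d399 d352 d341 d763 i594 (k2 i2039 d760 k0)))) (by decide +kernel)
def d766 : PP 8 4 T 0x1000000000000020000000084008000000000000000000001000800000004000000 := rS 0x134a8 (k2 i591 i592 (k1 d762 k0)) (by decide +kernel)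
def d767 : PP 8 4 T 0x10000000000000a0000000000008120000000040010040409080800000004020000 := rS 0x154aecd369acb2743f2d574c937268e297a2c356caf559a5e31940a1d0b122e97e2ab95f93c3a515981d623d (k8 d88 i1761 d49 i473 i439 d42 i701 i1726 (k8 i104 d350 i2281 i2254 d418 d53 d51 d46 (k8 d363 d416 i1565 d765 d766 d341 d352 d424 (k8 i1902 i802 d466 d383 i2808 i1182 i1399 i1058 (k8 i1057 i605 i631 i1682 i1949 i1666 i1539 i2039 k0))))) (by decide +kernel)
def d768 : PP 8 4 T 0x10000000000000a0000000000000120000000040010040409080800000004020000 := rS 0x25e8ab657a6d3f1940c48ba5f8a93c3a515981d623d (k8 d88 i1761 d49 i473 i439 d42 i701 d350 (k8 i2281 i2254 d418 d46 d363 d767 i1181 i592 (k4 d341 d424 i1902 d466 k0))) (by decide +kernel)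
def d769 : PP 8 4 T 0x1000000000000000000000000000000000000202000000001000800001404120000 := rS 0x728c418c5 (k4 i1522 i475 i1159 d66 (k1 d124 k0)) (by decide +kernel)
def d770 : PP 8 4 T 0x10000000000000a0000000000000120000000040010040009080800001004120000 := rS 0xa2a6d6cbb661b4d6232c9a592743f25d6a552bb2cdcfd292c47aa38ca050e8589174bf155cd0cfaad (k8 i1557 i1598 d447 i104 d350 i2281 i2254 d418 (k8 d53 d51 d46 d363 d375 d88 i1761 d768 (k8 d22 i567 i2415 i569 i831 i1399 i1323 i1058 (k8 i1057 i1101 d305 i845 i1663 i631 d769 i2039 (k4 i1949 i848 i1182 d424 (k1 d466 k0)))))) (by decide +kernel)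
def d771 : PP 8 4 T 0x1001000000000000040000000000000000000000008000000001000000100004000002 := rS 0x5e89 (k2 d95 i2733 (k1 d417 k0)) (by decide +kernel)
def d772 : PP 8 4 T 0x1000000000000020000000000000100020000000004440401180140000006020000 := rS 0x162af5bacca24f1ea6ce0070f206245d (k8 i2254 d418 d46 i230 i1340 i231 i1444 i1347 (k4 i1270 i439 i473 i802 (k2 i592 i1761 (k1 d341 k0)))) (by decide +kernel)
def d773 : PP 8 4 T 0x1000000000000000000000000000020000000000000000001000800000004000002 := rS 0xb657acdfab12794536a80487c5c89299bda62d8a98c7299328546e453989503122d904065d210602ed02f840944d (k8 d69 d392 i1154 i2281 i1153 i2796 d427 i1038 (k8 i2254 i23 i180 i1758 d418 d46 d195 i2756 (k8 i478 i19 i638 i2795 i2765 i139 d586 d350 (k8 i2715 d770 d771 i567 d772 d417 i239 i198 (k8 i1077 i2802 i440 i702 i1762 d374 i664 i592 (k2 d341 d290 k0)))))) (by decide +kernel)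
def d774 : PP 8 4 T 0x1000000000000000000000000000000000000000000000401000800800004000002 := rS 0x2d95eb37eac49e514daa0121f4c9cd03122d904065d210602ed02f840944d (k8 d69 d392 i1154 i2281 i1153 i2796 d427 i1038 (k8 i2254 i23 i180 i1758 d418 d46 i2756 i2765 (k8 i239 i198 i1077 i2802 i440 i702 i1762 d374 (k4 i664 i592 d341 d290 k0)))) (by decide +kernel)
def d775 : PP 8 4 T 0x4001000000000000080000010000000014010000000000000001000015500004000000 := rS 0x29146c1 (k4 d384 d375 i2033 d574 k0) (by decide +kernel)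
def d776 : PP 8 4 T 0x1000000000000001000000000000000000000001400554001480000000004020000 := rS 0x692aa1d0b12 (k4 d418 d53 d51 i704 (k2 i1764 i2039 k0)) (by decide +kernel)
def d777 : PP 8 4 T 0x1000000000000004000000000000000040000000140140009080808000004020000 := rS 0x6b369559a572ca701a213b1d4301743a16245f (k8 i2281 d418 d53 d51 i2796 d427 d460 i233 (k8 i1612 i1609 i399 i606 i1627 i810 i703 i475 (k2 i1907 i2039 k0))) (by decide +kernel)
def d778 : PP 8 4 T 0x1000000000000000000000000000000000000000010140009180802001004020000 := rS 0x15cb26b669b48e2064b118e370c05cbe0f (k8 i2404 i2281 i2796 d427 i19 i1692 i1159 i2717 (k8 i1042 i1531 i476 i1792 i1790 i605 i1498 d776 k0)) (by decide +kernel)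
def d779 : PP 8 4 T 0x1000000000000000000000015000014000000000055008001080000000094000080 := rS 0xa1b05caa35c294440c3fb2596d3 (k8 d49 i2252 i2251 i1665 i441 i442 i1379 i2040 (k4 i241 d66 i1574 d99 (k1 d475 k0))) (by decide +kernel)
def d780 : PP 8 4 T 0x1000000000000000000000000000000000000000000000001000820000004000002 := rS 0x539986b36c14d2552c95c18c8239d4462547a1d0b122d904065d210602ed02f840944d (k8 d69 d392 i1154 i2281 i1153 i2796 d427 i1038 (k8 i2254 i23 i180 i1758 d418 d53 d51 d189 (k8 d195 i247 i1062 i206 i1114 i1115 i442 i606 (k8 i704 i1764 d370 i2288 i2279 i2039 d467 d73 k0)))) (by decide +kernel)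
def d781 : PP 8 4 T 0x1000000000000000004000000000000000000001400554001080000001004022000 := rS 0x43116608c8ee5 (k4 d66 i26 i1569 d776 (k2 d454 i730 (k1 d410 k0))) (by decide +kernel)
def d782 : PP 8 4 T 0x1002000000000000500010010000014000000000055000001000000000004000000 := rS 0x156a9 (k2 d374 d72 (k1 i2040 k0)) (by decide +kernel)
def d783 : PP 8 4 T 0x1000000000000000100010014000004000000000000008001000804000004000002 := rS 0x10c0f13d481d60b48a315168bd12a8298e46e992f8c4ba5b1290406451a889facb21254c2180b99c20d03298c944d (k8 d69 d392 d586 i2795 i1153 i1154 i2283 i2796 (k8 d427 i2711 d773 i1038 i2252 d782 i442 d780 (k8 i478 i23 i180 d195 i1758 i2254 d778 i2281 (k8 i2765 i19 i139 i568 i2040 d772 d774 d749 (k8 d425 i2248 d417 d384 d42 d253 i701 i248 (k2 d399 d476 k0)))))) (by decide +kernel)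
def d784 : PP 8 4 T 0x1001000000000000000000000200000000000000000008101080000001104000000 := rS 0x434a64f0f1f43a22 (k8 i442 i1382 i1326 i248 i701 i569 d476 d399 k0) (by decide +kernel)
def d785 : PP 8 4 T 0x1000000000000000000000000000000020000000000000001000800000004000002 := rS 0xa46f318e46e9968114be422d9043017251340610 (k8 i1154 i23 d69 d392 i2796 d427 i180 i1758 (k8 i1038 i2281 i478 i1153 i2765 i19 i139 d586 (k2 d95 d772 (k1 i567 k0)))) (by decide +kernel)
def d786 : PP 8 4 T 0x1000000000000004000000000000000040000000040140009080808000004020000 := rS 0x1a18a37 (k4 i19 i1616 d777 i1763 k0) (by decide +kernel)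
def d787 : PP 8 4 T 0x1000000000000080000010000100014010000000000000001000015400004000000 := rS 0xc1 (k2 d384 d253 k0) (by decide +kernel)
def d788 : PP 8 4 T 0x1000000000000040000000000000000000000000000000801000000000006000002 := rS 0x5b15372a0944d (k4 d69 d392 i566 i567 (k2 d425 i2714 (k1 d771 k0))) (by decide +kernel)
def d789 : PP 8 4 T 0x1000001000000040000001000480000000000000000540401080000000094020000 := rS 0x28a3f5b2ed986d2b9ac1b1134954b22262884fc87428f50312 (k8 d418 d46 i1307 d53 d51 i241 i1650 i1654 (k8 i240 i844 i703 i1763 d401 i2993 d287 i441 (k4 i475 i2039 i1949 i848 (k2 i407 d424 (k1 d365 k0))))) (by decide +kernel)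
def d790 : PP 8 4 T 0x1000001000000020004010000510014010000008015440401080015500004024400 := rS 0x7232b0d6c966964ae6d8b081962355b1dcac0518f43c1d33a06245d69c356aa9 (k8 i1056 i1399 d356 d787 i2254 d418 d46 i2283 (k8 i1231 d479 i1307 d789 i2033 d382 i1694 i1514 (k8 i1574 i2847 i1306 d468 i476 i442 i724 i730 (k4 d61 i631 i2040 d776 (k2 i2842 i1534 k0))))) (by decide +kernel)
def d791 : PP 8 4 T 0x1000000000000020000010000100014010000008015440401080815400004524400 := rS 0x58acd6e51048f0381f162bd524f78a06245d61a9d4218 (k8 d427 i310 i334 i373 i2254 d418 d46 d416 (k8 i1271 i1056 i591 d790 i1304 i1040 i1158 i1263 (k4 i440 i722 i1254 i1762 (k1 d341 k0)))) (by decide +kernel)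
def d792 : PP 8 4 T 0x1000000000000000000004040000000000000000000540541000000000024020000 := rS 0x2c01281598fd0712 (k8 d418 d24 i1421 i474 d46 i1261 d341 i1762 k0) (by decide +kernel)
def d793 : PP 8 4 T 0x1000000000000000002010000000014400040054000000001000015001024000200 := rS 0x7d3a9dc4716560316ae5 (k8 d382 i1248 i1266 i1265 d468 i2950 d78 d124 (k2 i1234 i2044 k0)) (by decide +kernel)
def d794 : PP 8 4 T 0x1000000000000020000010000500014410000044000400501090015501024020400 := rS 0x669a62105629acda572a9648caa068855aa2608200e7f272dd0e858916cba7157aa628d3 (k8 d787 d417 d425 i591 d361 i2254 i1758 d418 (k8 d53 d51 i722 d792 i2455 i1222 i702 d793 (k8 i2033 i1554 i1649 i1648 i201 i200 i871 i703 (k8 i441 i475 i2396 i2989 d81 d438 i1763 d454 (k1 i2039 k0))))) (by decide +kernel)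
def d795 : PP 8 4 T 0x1000000000000000000000200080000000000000000140009080000000014020200 := rS 0xcd34c420ac52c9b4ae6b2a919540d56884168742c48be07 (k8 i3 i2281 d418 d53 d51 i2382 i1650 i1554 (k8 i1648 i201 i200 i703 i1967 i441 i475 i2392 (k4 i2989 d81 d438 i1763 (k2 d454 i2039 k0)))) (by decide +kernel)
def d796 : PP 8 4 T 0x1000000000000000002010000000014400050054000000001000015001014000000 := rS 0xee758b08d6ae5 (k4 d382 i1248 i1574 d468 (k2 d124 d78 (k1 i2044 k0))) (by decide +kernel)
def d797 : PP 8 4 T 0x21000000001000000000011000000014400000054000000001000015001404000000 := rS 0x773ac58fe7d (k4 d394 d353 d468 d124 (k2 d78 i2044 k0)) (by decide +kernel)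
def d798 : PP 8 4 T 0x14001000000000000004000000000081010000000000000000001008000000004000000 := rS 0x4fd3d74c6 (k4 i406 i407 d381 i1685 (k1 d397 k0)) (by decide +kernel)
def d799 : PP 8 4 T 0x1000000000000000000000200080000000000000000140009080000000014020000 := rS 0x8 (k2 i1762 d795 k0) (by decide +kernel)
def d800 : PP 8 4 T 0x1000000000000020000010000510014010000044000000409090015501044120000 := rS 0x162085766d3cd20d36ae98cc535aac7c3d592c4aabf10a8982b73e9fe184f0e944168f40a1d0b122d974be7157aa628d3 (k8 d787 d417 d425 i591 d361 i2281 i2254 i1758 (k8 d418 d53 d51 d46 d189 i2382 i440 d794 (k8 i701 d479 d353 d394 d352 d796 i2033 i1650 (k8 i1720 i703 d799 d341 i1254 i474 i2286 i634 (k8 i1654 i406 i407 d223 i1647 i1763 d381 i1948 (k4 i441 d467 i2039 d92 k0)))))) (by decide +kernel)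
def d801 : PP 8 4 T 0x1000000000000000000010000100004000000000000000001000800400004000002 := rS 0x3919586b64b34b25736c5840cb11aad8ee56028d6a3d0e8795314169bca6d331bc42a37309cc1e0b40c48be95188948a6561a2466cf1a974b641019091667680414ea10c05c944d (k8 d69 d392 i2796 d427 i310 i334 i1154 i1153 (k8 i2283 i145 i1038 i23 i180 i1758 i2254 d780 (k8 i1145 d786 d785 i373 i2795 i478 d195 d778 (k8 d773 i2281 d418 d46 i2382 i2404 i2756 i2711 (k8 i19 i638 d416 d586 d787 d788 d791 i1039 (k8 d417 d425 d800 i45 i1307 i1395 d789 i2033 (k8 d382 i1694 i1514 i1574 i2847 i1306 d468 i476 (k8 i442 i724 i730 d61 i631 i2040 d776 i2842 (k1 i1534 k0))))))))) (by decide +kernel)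
def d802 : PP 8 4 T 0x1000000000000000102010010000014010000000055000001000000500004004400 := rS 0xa88a32d56d3 (k4 d384 i1514 i1246 d417 (k2 i2040 d473 k0)) (by decide +kernel)
def d803 : PP 8 4 T 0x1000000000000000000010005200004000000000000000401000800000004000002 := rS 0x5a1509cb15b8f5fa08599448c07069b60aca2b98cc2818917d2ac319b3d166772ab41e5935b262c3518974b6252080c84182285cca10251355ed0 (k8 i1153 i591 d69 d392 i1154 i2795 i2796 i478 (k8 d427 i1038 i23 i180 d195 i1758 i2254 d778 (k8 d780 d574 d61 i631 i605 i2404 i1286 d60 (k8 i2283 i145 i1145 d786 i373 d773 i2281 d418 (k8 d46 i2711 d586 d783 i2040 d54 i2289 d781 (k8 i1380 d85 i439 i473 i208 d413 i2883 d290 (k4 i1761 d341 i1390 i1389 (k1 i2458 k0)))))))) (by decide +kernel)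
def d804 : PP 8 4 T 0x1000000000000002004004440200000000000000000540501080000001004020000 := rS 0x27ac43a3d10b150312 (k8 d418 d46 i1792 i730 i1386 i1382 i1761 i701 (k1 d341 k0)) (by decide +kernel)
def d805 : PP 8 4 T 0x1001000000000000000000440200000000000002000000001000000000004120000 := rS 0x28ab11f0f58cc5 (k4 i1522 i476 i1386 i414 (k2 i1761 d459 (k1 d414 k0))) (by decide +kernel)
def d806 : PP 8 4 T 0x1000000000000040000010000000004000000000000000001000800400004000002 := rS 0x425636b356e4759945faaa57aa628530a8dcbec344a8c5a5935b262ca41a8c4ba5b1290406420c1142e65081289ad0 (k8 i1153 d69 d392 i1154 i2795 i2796 i478 d427 (k8 i1038 i23 i180 d195 i1758 i2254 d778 d780 (k8 d801 d574 d61 i631 i605 i1383 i115 d785 (k8 i373 i2281 i19 i638 d788 d417 d425 i591 (k8 d803 d72 i2249 i2286 i1655 d290 d804 d805 (k2 d776 i1498 (k1 d784 k0))))))) (by decide +kernel)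
def d807 : PP 8 4 T 0x1001000000000020000000501000000000000000000540149000000000004000000 := rS 0xb65794d0312 (k4 d418 d46 i566 i591 (k2 d341 d290 k0)) (by decide +kernel)
def d808 : PP 8 4 T 0x1000000000000000004000548200000000000000400550141080000001004120000 := rS 0x2188b3046575a9496f4436a0624e53ebf48ea3 (k8 i115 i1655 d72 i1326 d60 d418 d46 d805 (k8 d414 d424 d341 i882 i569 i249 d776 d454 (k2 i730 d410 k0))) (by decide +kernel)
def d809 : PP 8 4 T 0x1400000000000001000000000000000000500000000000000010001400550801480000000004020000 := rS 0x334aeb5 (k4 i882 i569 d332 d776 k0) (by decide +kernel)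
def d810 : PP 8 4 T 0x1000000000000020004010508200014000000040000040149080015001004520000 := rS 0x2188ad0461f37c30a6715e9b535455745550477ea3d07122e97dcaa3a18b57e7d2c9ad9316 (k8 d574 d61 i631 i605 i1326 i1452 i1383 d421 (k8 i115 d60 i2281 i2254 d418 d24 d189 d72 (k8 i1655 d807 d425 d808 d91 i592 i594 i1986 (k8 i1447 d809 d399 i1056 d476 i248 d797 d349 (k2 d643 d410 k0))))) (by decide +kernel)
def d811 : PP 8 4 T 0x1000001000000020004000084200000000000000400454001080000001004020000 := rS 0x3169ec76611d7a6d65975cabf (k8 i1452 d60 i2254 i2419 i594 i1987 i209 d776 (k4 i415 d73 i1792 d435 k0)) (by decide +kernel)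
def d812 : PP 8 4 T 0x1000001000000000104010540200014000000001455554001480000001004024000 := rS 0xa20f9fac665b169f04663955a0d (k8 d781 i1286 d60 d776 d85 d73 i1792 d54 (k4 d435 d782 i414 d414 (k1 d459 k0))) (by decide +kernel)
def d813 : PP 8 4 T 0x1000000000000020100000500200000000000000000540149800000000004000000 := rS 0x54bf59408 (k4 i208 i209 d413 i623 (k1 d807 k0)) (by decide +kernel)
def d814 : PP 8 4 T 0x1000000000000000000010000000004000000000000000001000800400004000002 := rS 0x3f1966c23abcaeab58acca24f1e81c3ad235965931656a90c6f10a8dcbe613983d2a3112914cac319b3c6a5d2d90406420c05d166768040944d (k8 d69 d392 i1154 i1153 i2283 i145 i2796 d427 (k8 i1038 i23 i180 i1758 i2254 d780 i1145 d786 (k8 i373 i2795 i478 d195 d778 d773 i2404 i2756 (k8 i2711 i2281 i19 i638 d416 d586 d801 i1286 (k8 d574 d61 i605 i631 d806 d42 d49 d88 (k8 i701 i439 i473 i1761 d810 d783 d811 d813 (k4 d812 i673 d805 d782 k0))))))) (by decide +kernel)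
def d815 : PP 8 4 T 0x1000000000000000000000000000000000000000000000001000800800004000002 := rS 0xa4d30c05c944d (k4 d69 d392 i2796 d427 (k2 d358 d774 (k1 d788 k0))) (by decide +kernel)
def d816 : PP 8 4 T 0x10001000000000000006000020040000010400000000001555401000000000004000000 := rS 0x5127add66b4371fd62bc659d1349e821dd3b4f88a062517 (k8 d43 d418 d46 d454 d73 i1910 i810 d438 (k8 d397 d202 d422 d54 i1190 i1297 i1667 i1065 (k4 i1066 i1413 i1989 i1271 (k2 i1397 d341 k0)))) (by decide +kernel)
def d817 : PP 8 4 T 0x10001000001000000064000020040500010400000001101455401080000000006020000 := rS 0x510e13c3e2c7e2dc79455e0fd349e59aed629da79a99a8b40a1d0b122ed0d5abf (k8 i1458 i1289 d99 i2254 d418 d53 d51 d46 (k8 i145 d816 i2039 d429 i1907 i1967 i1946 i634 (k8 i632 d202 d219 i1190 d56 d365 i1988 d414 (k4 i1257 i1307 d395 i1040 (k2 i440 d792 k0))))) (by decide +kernel)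
def d818 : PP 8 4 T 0x10001000001000000064000020040510010000000001101045409080000000006020000 := rS 0x2dc381f86ad0dc4f289d0b05f2e9f51ead (k8 i1289 d189 i1330 i2254 i2281 d817 i606 i608 (k8 i871 i1065 i1066 d356 i1395 d479 i722 d792 k0)) (by decide +kernel)
def d819 : PP 8 4 T 0x1000000000000040000020000000000000000000000000001000800000004000002 := rS 0xb62aa85714de31930a5512a7508bd4a551095cda0d34b15c917188948a6519b3c6a5d2d90406420c05d1667681289a10 (k8 i1154 d69 d392 i1153 i2283 i145 i2796 d427 (k8 i1038 i23 i180 i1758 i2254 d780 i1145 d786 (k8 i2795 i478 d195 d778 d43 d468 d75 i1763 (k8 d66 i475 i441 d25 i703 d60 d815 i310 (k8 i334 d785 d773 i2711 d363 d416 d788 d818 (k4 i591 d425 i2714 d417 k0)))))) (by decide +kernel)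
def d820 : PP 8 4 T 0x1000000000000020000020002000000000000001100545009000000000004000000 := rS 0x5399859829ad54c84fa1d0b12 (k8 d418 d53 d51 i2815 i1139 i1140 i632 d370 (k4 i2392 i2039 d467 d73 k0)) (by decide +kernel)
def d821 : PP 8 4 T 0x10001000000000000004000028040000010400000001101555401000000000004000000 := rS 0x2ee9ebd353350e858950d7f45 (k8 d424 i1458 d99 d418 d53 d51 d816 i2039 (k4 i1988 d429 i1946 d87 k0)) (by decide +kernel)
def d822 : PP 8 4 T 0x1000000000000000000020000000000000000000000000001000800000004000002 := rS 0x29e9f662f53ab43f9d2225886ad95e5354ac56651278f40e1d691a4da572ab141a21721f687178c9851e8142c48be95188948a6519b3c6a5d2d90406420c05d166768040944d (k8 d69 d392 i1154 i1153 i2283 i145 i2796 d427 (k8 i1038 i23 i180 i1758 i2254 d780 i1145 d786 (k8 i2795 i478 d195 d778 d773 i2281 d418 d53 (k8 d46 d189 i2711 d363 d43 d99 i1330 d468 (k8 d25 d66 d75 i703 i441 i475 i1763 d819 (k8 d42 d49 d88 i701 i439 i473 i1761 d820 (k8 i566 i591 d341 d352 d821 d411 i606 i844 (k4 d481 i1591 i1989 i886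 (k2 i1190 d73 (k1 d397 k0)))))))))) (by decide +kernel)
def d823 : PP 8 4 T 0x10001000000000000024400018000000108010000041100545009000015400004000000 := rS 0x334b26b3b1d5346e38a5e8b0d45a1d0b1252b485b15 (k8 d28 i1242 d417 i1364 d418 d53 d51 i145 (k8 d352 d424 i1902 i802 d383 d466 i1590 i1322 (k4 d741 i606 i810 i2039 k0))) (by decide +kernel)
def d824 : PP 8 4 T 0x1000000000000024000000000000000000000801100545011000000000004000000 := rS 0x1a93ecd2ca1d0b12 (k8 d418 d53 d51 i805 i810 i1715 i2039 i632 k0) (by decide +kernel)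
def d825 : PP 8 4 T 0x1000000000000000000000000000000000000000000000001000800000004000002 := rS 0x22275111f4e30c4d3f55c53379dd6eb1599449e693695caa3d038758a0d10b05a4e416a956acb8bc5524b9508bc6689678d4628141c48ba8f2d894e64220a2cbe6722860cad0082642f190198c944d (k8 d69 d392 d586 i23 d363 i2796 i2765 i1154 (k8 i1153 i2795 d427 i478 i2283 i2281 i145 i180 (k8 i1038 i2756 d195 i1758 d189 i2254 d418 d24 (k8 d46 d778 d780 i1145 d785 d786 d815 i310 (k8 d822 d814 d28 d480 i1366 i1369 i1364 i1242 (k8 d468 d417 d382 d25 d66 d75 d42 d49 (k8 d88 i703 i441 i475 i1763 i701 i439 i473 (k8 i1761 d823 d824 i1322 i567 d341 d347 i592 (k4 d399 i1447 d394 d338 (k2 i1590 d401 (k1 d422 k0))))))))))) (by decide +kernel)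
def d826 : PP 8 4 T 0x4001000000000000004000000000005001405005500000000001000000000004000000 := rS 0x19910 (k2 d422 i2046 (k1 d454 k0)) (by decide +kernel)
def d827 : PP 8 4 T 0x1001000000000000000000000800000000000000000000000001000000100004020002 := rS 0x11006319289a3b (k4 d825 d69 d392 d586 (k2 i473 d622 (k1 i1340 k0))) (by decide +kernel)
def d828 : PP 8 4 T 0x1001000000000000000000000200000000040000000000000001000040100004020002 := rS 0x1102f1e2647e080a8e52e632513537184680da23b (k8 d825 i472 i23 i1760 d461 d84 d69 d392 (k8 d586 d684 i1873 i136 i1762 i1294 i1825 i1761 (k2 i198 d485 (k1 i1347 k0)))) (by decide +kernel)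
def d829 : PP 8 4 T 0x1001000000000000000000000440000440100400000000000081080140100004000002 := rS 0x7e2f44a6438070fbf4764520860944d (k8 d69 d392 i438 i21 i41 d825 d395 i1270 (k4 i1222 i701 d733 i230 (k2 i1078 i1421 (k1 d485 k0)))) (by decide +kernel)
def d830 : PP 8 4 T 0x1001000000000000000000000000000000000000044004000201000000000004000000 := rS 0xe30d (k2 d41 i1358 (k1 d383 k0)) (by decide +kernel)
def d831 : PP 8 4 T 0x1001000000000000000000000040000000000000004000100001080000000004020002 := rS 0x9e394ba6e308340c48a6b73d96c26d11dacd622d1b9e4be8d01a2ca2730c18c944d (k8 d69 d392 d586 i438 i2756 d830 i2247 i23 (k8 i1760 i2281 d267 i1043 i1039 d828 d827 d825 (k8 i472 i27 i706 d647 d648 i567 d418 d46 (k4 d24 d461 d84 d684 (k2 i1873 d829 (k1 d341 k0)))))) (by decide +kernel)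
def d832 : PP 8 4 T 0x1001000000000000000000000010008000000000000005541080010100104000002 := rS 0x2f6981d82e41988e21055616512750f9f619158bb2cc62520aacceb5479fce6a518860944d (k8 d69 d392 i438 i1042 i1365 i2756 i1638 d189 (k8 i1369 i2246 i1635 i21 d195 d586 i1366 d480 (k8 d28 d399 d394 d476 i1589 i230 i606 i2037 (k8 d12 d438 d401 i232 d468 d382 i1225 d338 (k2 i1078 d417 k0))))) (by decide +kernel)
def d833 : PP 8 4 T 0x1000000000000000000000000000008000000004000105001080010000104020002 := rS 0xd317a2438070f939faae2894c5aa131c548a4139860944d (k8 d69 d392 i438 i2756 i21 i41 d28 d586 (k8 i311 i1039 i567 d830 d831 d347 d832 i1270 (k4 i1222 i701 i230 i1078 (k2 d42 d417 k0)))) (by decide +kernel)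
def d834 : PP 8 4 T 0x1000000000000000000000000000008000004009100545011000000000004000000 := rS 0x6a88b34b27c3b21d0b12 (k8 d418 d53 d51 i1322 i1321 i805 i809 d67 (k2 i2039 d287 k0)) (by decide +kernel)
def d835 : PP 8 4 T 0x1001000000000000408005004010001000450040000515549001140154006046000 := rS 0x1d538fd12085287d590c (k8 d399 i2037 d476 i1286 i1494 i230 i375 i202 (k2 i1261 d199 k0)) (by decide +kernel)
def d836 : PP 8 4 T 0x1001000000000000000000000000000000000000000000000081080000100004000002 := rS 0x34c5e890e01c3e4520860944d (k8 d69 d392 i438 i21 i41 i1270 i1222 i701 (k4 i230 i1078 d42 d417 k0)) (by decide +kernel)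
def d837 : PP 8 4 T 0x1001000000000000400005004010001000440040800515549001140150006046000 := rS 0x13b099b1082ab0fb0c (k8 d399 d394 i2037 d12 d438 d454 i468 i1954 (k1 d835 k0)) (by decide +kernel)
def d838 : PP 8 4 T 0x1000000000000000000000000000008000000001100105001080000000004020002 := rS 0x720806a0d350cd9a238841558312c9d4fb0c278f5faae28adca62d509bd0a87418de247914c562ecb31a3406910782c565f5599c72b5479ecb61345b44767f39860944d (k8 d69 d392 i438 i2756 i1638 d825 i472 i2247 (k8 i27 i706 d647 d189 i1369 i1873 i2246 i1635 (k8 i2281 i896 i2382 i2404 i1170 i23 i1760 d586 (k8 i1366 d480 d28 i1835 d267 d418 i1043 d24 (k8 d51 d53 d834 i311 i1039 i567 d648 d830 (k8 d831 d347 i1782 d836 d399 d394 i1589 i606 (k8 i1041 i2037 d12 d438 d401 d454 i232 i2039 (k4 d837 i1115 d833 d468 (k1 d25 k0))))))))) (by decide +kernel)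
def d839 : PP 8 4 T 0x1000000000000000000000000000008000010004000005001080010000004000002 := rS 0xe41045d42317e8cc471082ab1967f289ccc653278b62aab33ad51e593a860944d (k8 d69 d392 i438 i1589 i606 d189 i1369 i2246 (k8 i1635 d28 i1039 d836 i567 d586 i2756 d830 (k8 i1638 i1366 i2037 d12 d438 d401 i232 d360 (k4 i1041 i311 d480 d832 (k2 d468 d25 k0))))) (by decide +kernel)
def d840 : PP 8 4 T 0x1000000000000000000000000000008000010004000005001080000000004000002 := rS 0x34c5ec0038308e344487e18fd56164ea0365aacceb5479fca6513998c9e2d0c1289b15 (k8 d28 d69 d392 i438 i1039 d836 d586 i2756 (k8 d830 i567 i1638 d189 i1369 i2246 i1635 i1366 (k8 i23 i1589 i606 i2037 d360 d399 d476 i230 (k8 d839 i206 i1115 i1226 i1493 i1078 d384 d417 k0)))) (by decide +kernel)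
def d841 : PP 8 4 T 0x1000000000000000000000000000008000000004000205001080000000004020002 := rS 0x612118ec518a090e21678d68a813a0cdf8703bc461a7c279456e5316c562e8d01a451e25209cc7297319ecb61345b447713143346e2722860944d (k8 d69 d392 i438 i41 i1766 i1044 i1971 i444 (k8 d368 d825 i472 i2247 i27 i706 d647 d586 (k8 d684 i1873 i2756 i21 d195 d189 i1170 i23 (k8 i1760 d480 d28 i1039 i567 d648 d830 d836 (k8 d840 d394 d67 i1630 d383 d399 i233 d422 (k8 i1362 d277 i1062 i1068 i2930 i3022 d357 i1042 (k4 i1842 i259 i1442 d658 (k1 i1867 k0)))))))) (by decide +kernel)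
def d842 : PP 8 4 T 0x1000000000000000000000000000008000000001100005001080000000004020002 := rS 0x226007058994021a9ece649ae0911429647e7c3b20c5e89370dd9a27899722a652299c565f39860729f4b98d3a9b8c22c944d4680da23b (k8 d825 i472 i23 i1760 d69 d392 i2247 d461 (k8 d84 d362 d586 d684 i1718 i1873 i438 i2756 (k8 i2281 i896 i2246 i41 i1550 d28 d838 d368 (k8 i1766 i1971 i1044 d841 d95 i2733 i1439 i1322 (k8 i1321 d671 i805 i1631 d67 d438 d366 d370 (k8 i2042 d96 d97 i1710 i1864 d485 i1040 i1241 (k2 i1234 i3019 k0))))))) (by decide +kernel)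
def d843 : PP 8 4 T 0x1000000000000000000000000000008000000001000005001080000000004020002 := rS 0xc86ee53c8c46ac42e918d1173298cbe8d01860944d (k8 d69 d392 i438 i23 i1760 i2281 d586 i1550 (k8 d480 d842 i1764 i1850 i1763 i206 i1531 d267 (k4 d75 i1043 d468 i1616 k0))) (by decide +kernel)
def d844 : PP 8 4 T 0x1000000000000000000000000000008000000000000002001080000000004000002 := rS 0x728cc62351008cea0d8b994c64520860944d (k8 d69 d392 i438 i21 i41 d586 i1550 d480 (k8 i1490 i1539 i1538 i703 i1115 i1041 i232 d25 (k1 d468 k0))) (by decide +kernel)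
def d845 : PP 8 4 T 0x4001000000000000000000000000004000000000002040000001000000000004020002 := rS 0xcdca311a8318cc9 (k8 i2288 i476 i475 i1114 i1691 d66 i1609 d468 k0) (by decide +kernel)
def d846 : PP 8 4 T 0x1000000000000000000000000000008000000000000000001080000000004020002 := rS 0x19e69649acb256369553a9f8c25cb68f4599e2e65319289a134680da23b (k8 d825 i472 i23 i1760 i27 d69 d392 d586 (k8 i1550 d480 i2246 i2247 d189 i706 d684 d461 (k8 i1718 d362 d844 d845 d843 i54 i2253 i2251 (k2 i1584 d587 (k1 i2042 k0))))) (by decide +kernel)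
def d847 : PP 8 4 T 0x4001000000000000010100000000004000140000001150058009000000000004000000 := rS 0xd6cf8223d3b18 (k4 d461 d362 i1132 d354 (k2 d587 d366 (k1 i2042 k0))) (by decide +kernel)
def d848 : PP 8 4 T 0x1001000000000000000401000004140000000020104000008001600000000004005400 := rS 0x4ab49e0739074e30d (k8 d394 i1361 i1233 d383 i480 d428 i1582 i223 (k1 i2027 k0)) (by decide +kernel)
def d849 : PP 8 4 T 0x1000000000000000401000014140000000000080000000001600000400004005400 := rS 0x38243a4f (k4 d428 i718 i223 i480 (k1 i2027 k0)) (by decide +kernel)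
def d850 : PP 8 4 T 0x1000000000000000000000000000008000000000000008001000000000004020002 := rS 0x434e21e0e8200e5139ab4fa0b16b05c87506c15906f0791cef158bb2cca8d0196c82a51a964da69518bd56674fa5d16440b06486d11d98c944d (k8 d69 d392 d586 d825 i472 d846 i1038 d427 (k8 i967 i2292 d684 i1718 i2291 i1635 i2753 i1634 (k8 d247 i2300 i2406 i2775 i1365 d439 i1758 i23 (k8 i1760 i1550 i1366 d480 d28 i1627 i1578 i2319 (k8 i1322 d847 d370 i2296 i2646 d85 d382 i1241 (k8 i560 d848 i1581 d849 d830 i479 i2027 i1262 (k4 i222 i709 d476 d383 k0))))))) (by decide +kernel)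
def d851 : PP 8 4 T 0x1001000000000000000001001000150000000050044000000001000000001514800000 := rS 0x4303c71 (k4 i709 i2030 d383 d476 k0) (by decide +kernel)
def d852 : PP 8 4 T 0x1000000000000000001001004140008000010040004000001240000001504805400 := rS 0x158fc04b4c3807289fe2acb509bc5a47 (k8 i224 i1241 i968 i822 i1366 d28 i1638 d830 (k4 i479 d851 d42 i1262 (k2 d442 i2027 (k1 d360 k0)))) (by decide +kernel)
def d853 : PP 8 4 T 0x1000000002000000000000000000008000000100000000001000000000004020002 := rS 0xac281c88e7d11c4016771683c42c18bb2cc6a51aa8c5eab338941a440b06486b54795c944d (k8 d69 d392 d850 i1133 i1369 d846 i1038 d427 (k8 i967 i481 i347 i2291 i1635 i2753 i1634 i2775 (k8 i1365 d586 i1366 d480 d382 d25 d37 i1241 (k8 i711 i560 d422 d401 d67 i224 d852 i1094 (k2 d849 i1313 k0))))) (by decide +kernel)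
def d854 : PP 8 4 T 0x4001000000000000000000000000000000400000100000000001a40000000004800000 := rS 0x889dc4421 (k4 i1530 i224 i711 d401 (k1 d422 k0)) (by decide +kernel)
def d855 : PP 8 4 T 0x1000000000000000200000000000008000000000000000001000000000004020002 := rS 0x10e8567b1c46303b8388ee53ac162e15489e45259131ecb6414fa5cc69d8c22d1a03688ed1ec30695c88160c90c944d (k8 d69 d392 d846 i1038 d427 i967 d850 i481 (k8 i1953 i1133 d825 i472 i23 i1760 i2292 d461 (k8 d362 d586 d684 i1718 d439 i1758 d647 i484 (k8 i2406 i1836 i973 i1170 i136 d480 d370 i2646 (k8 d853 d854 d85 d273 i598 i245 i408 i989 (k2 i1772 i738 (k1 d826 k0))))))) (by decide +kernel)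
def d856 : PP 8 4 T 0x1000000000000000000000000000008000000000000000001000000200004020002 := rS 0x106b7409bc7e993987ce315489e4527b2d9052e63539704c9b8c22c88160c90c944d4680da23b (k8 d825 i472 i23 i1760 d69 d392 d846 i1038 (k8 d427 i967 i2292 d461 d84 i484 i483 i3099 (k8 d586 d684 d439 i1758 d647 i1836 i973 i1170 (k8 d28 d70 i2845 d236 i981 i1423 i969 i1770 (k2 d648 i736 (k1 i2045 k0)))))) (by decide +kernel)
def d857 : PP 8 4 T 0x1000000000000000000000000000008000000000000000001000000000004020002 := rS 0x869c43c1d0401ca273609bc162d1939462756711d5a6b8203d92c30695d3a9f55c612ea3349b4ce8b529e45e441a858521921b451a031dc562ecb3298c944d (k8 d69 d392 d586 i1550 i1366 d480 d28 d825 (k8 i23 i1760 i472 d846 i1038 i1836 d427 i2775 (k8 i967 i2753 i973 i1365 i2292 i2291 i2300 d247 (k8 i1634 d684 d461 i1635 i1718 d362 d850 i481 (k8 i1953 d855 i597 d354 d366 d12 d81 i2042 (k8 i1067 i989 d853 d468 d856 i560 i968 i1614 (k8 d849 d830 i479 i2027 i1262 i222 i709 d476 (k1 d383 k0)))))))) (by decide +kernel)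
def d858 : PP 8 4 T 0x1000000000000000001001000010008000050100000000001400000000044805442 := rS 0x4510108751e7772348af057eab22ecb31a946a09518bd566712910944d (k8 d69 d392 i967 i346 i2291 i1635 i2753 i1634 (k8 i222 i2775 i1365 d586 i1366 d480 i2027 d360 (k8 d12 i1581 d442 d85 d273 i1133 d42 d25 (k2 d422 i2030 (k1 d401 k0))))) (by decide +kernel)
def d859 : PP 8 4 T 0x21000000000000000000001000000008000040100000000401400000100004805042 := rS 0x568823caa77183f2083369b9581176598c16593ea846a09221289a1f (k8 d476 d69 d392 i967 i222 i2775 d472 d394 (k8 i606 i560 d586 i1366 d480 d858 d382 d384 (k8 i1614 d85 d442 d468 i712 d474 i2659 d422 (k2 d276 d57 k0)))) (by decide +kernel)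
def d860 : PP 8 4 T 0x1000000000000008000000000000000100000000000000001000002000004118000 := rS 0x7884c6c69 (k4 i1832 i988 i345 d9 (k1 d371 k0)) (by decide +kernel)
def d861 : PP 8 4 T 0x21000000000000010000001000000048000041100000000501400000100004801002 := rS 0x5984cb85b34c4d0ccf57ac5f885698f54f10602211e77181b4af050745c169f2f9ec0e092207d22154e8e6308d251351611 (k8 d857 i451 d69 d392 i2642 d461 d364 d362 (k8 i637 i1170 d476 i967 i222 i479 d179 i2431 (k8 i1718 i560 d480 d859 d5 i2319 i2444 i598 (k8 d273 i1133 i1510 i1509 d422 i282 i1346 d384 (k8 d387 d442 d455 d347 d860 d826 d51 i1564 (k4 i778 d418 i345 i513 (k1 d533 k0))))))) (by decide +kernel)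
def d862 : PP 8 4 T 0x4001000000000000000000000000000000000000100000000009800000000004800000 := rS 0x11c57209108619 (k4 i8 i438 i967 d439 (k2 i1578 d854 (k1 i1133 k0))) (by decide +kernel)
def d863 : PP 8 4 T 0x21000000000000010000001000000048000040100000000501000000100004801002 := rS 0x1e02a4423c5c944d (k8 d69 d392 d480 d862 i967 i637 d861 d284 k0) (by decide +kernel)
def d864 : PP 8 4 T 0x11001000000000000000000000140000140020000000000000001000000000004150540 := rS 0x26e8a3f593c07aa7 (k8 i283 i1346 d371 d533 d27 d355 i1443 d466 k0) (by decide +kernel)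
def d865 : PP 8 4 T 0x1002000000000000000000000004008000000100001000001000000000004889002 := rS 0x89314505d342548244468bcef0523c5c944d (k8 d69 d392 d480 d862 d5 d273 i2753 i2642 (k8 i967 d439 i83 i345 i1844 i226 i1804 d272 (k1 d386 k0))) (by decide +kernel)
def d866 : PP 8 4 T 0x21000000000000000000001000000048000040100000000501000000100004801002 := rS 0x434493a911c97428134cb3cf319682bd62a97e215a710602211e77181b4af05070162a0b30a7cf61103824881f23c5c944d (k8 d69 d392 d480 d862 d476 i967 i222 i479 (k8 d857 d179 i1718 i960 i560 d28 i2 d859 (k8 d5 i2319 i2444 i598 d273 i1133 i1510 i1509 (k8 d422 d384 d387 d442 d374 d455 d347 d863 (k8 d34 i2648 i1148 i1108 d865 d864 i2327 i292 (k4 i1171 i1512 d409 d826 (k1 d51 k0))))))) (by decide +kernel)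
def d867 : PP 8 4 T 0x21000000000000000000001000000048000040100000000501000000100004800002 := rS 0x88a3cee56648cc1867221289b17 (k8 d480 d69 d392 i967 i2291 d866 i1609 i2296 (k4 i481 i712 i1132 d57 (k1 d422 k0))) (by decide +kernel)
def d868 : PP 8 4 T 0x1000000000000000000000000000008000010104000000001080000000004000002 := rS 0x7788958aa8f339289b17 (k8 d480 d69 d392 i2246 d189 d844 d840 d57 (k2 i1627 d422 k0)) (by decide +kernel)
def d869 : PP 8 4 T 0x21000000000000000000001000000008000040500000008401000000100004800042 := rS 0x1900c4703e224423c5c944d (k8 d69 d392 d480 d862 i967 d57 i2319 d422 (k2 d859 i1132 (k1 i2296 k0))) (by decide +kernel)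
def d870 : PP 8 4 T 0x1002000000000000000000000000008000000100001000001000000000004889002 := rS 0x13c683298c944d (k4 d69 d392 d586 i1550 (k2 i345 d865 (k1 i1565 k0))) (by decide +kernel)
def d871 : PP 8 4 T 0x1000000000000020000000540400000020000000000000001000000000004150540 := rS 0x7837 (k2 i991 d533 (k1 i1347 k0)) (by decide +kernel)
def d872 : PP 8 4 T 0x21000000000000000000001000000008000040500000000501000000100004800002 := rS 0x21d3e9d2d244d6392e85026b127bf1a6c04433c606d642141d1006a3cae05059856e478b97cf607049103e7940acd5ea717b412c8b0898c944d (k8 d69 d392 d586 d857 i451 d867 d684 i2753 (k8 i1898 i1899 i1373 d465 i1855 d476 i967 i222 (k8 i479 d179 i2431 d480 d862 d352 i960 i560 (k8 i2 d869 i1133 i481 d422 d859 d387 i597 (k8 i2444 i598 i1148 i1510 i1509 d384 d442 d395 (k8 d455 d870 d871 i2327 i292 i2421 i1171 d341 (k4 i1512 i1186 i778 d826 k0))))))) (by decide +kernel)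
def d873 : PP 8 4 T 0x1000000000000000000000000000008000000054000000001000000100004000002 := rS 0x683c64313b01cce472205832433ec316a758b9fca6518a98c944d (k8 d69 d392 d586 d28 d830 i567 i1638 d480 (k8 i1590 i1368 d383 d394 d868 i1038 d427 i967 (k8 d862 i2291 i479 d872 d448 i712 i598 i1609 (k1 d859 k0)))) (by decide +kernel)
def d874 : PP 8 4 T 0x4001000000000000000400000004140010000040120000000509000000100004805500 := rS 0x440ac8f3b95460335ac1180e512964fa47442b49efc698700e44 (k8 i967 i479 i709 d42 d442 d395 d360 i710 (k8 d862 i1361 i606 i346 d274 i2027 d85 i1248 (k8 i1614 i1345 d474 i712 i2659 i2037 d422 d57 k0))) (by decide +kernel)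
def d875 : PP 8 4 T 0x4001000000000000000200000000000000500004501000400001000002000004200002 := rS 0x10d124fc653acf3ca44d6d01cb0cba05251350b10 (k8 d422 d387 d69 d392 i2 i2327 i370 i292 (k8 i637 i2421 i1171 d267 i989 i1512 d34 i1186 (k2 d409 d826 (k1 d51 k0)))) (by decide +kernel)
def d876 : PP 8 4 T 0x1001000000000000020000000141000000020000000004000001000000000004150540 := rS 0xb24b29d3319 (k4 d34 i1108 i283 d864 (k2 d871 i1373 k0)) (by decide +kernel)
def d877 : PP 8 4 T 0x1000000000000000000000000000008000040120000000501000000100005001002 := rS 0xba5b89ac90ca74f8e52ed14eb147a917833cf21542c411e77098c0da57644141c958ab2cc68b30a348f17442946a5f3d845462f5599d52b157bf1a61c058243e0722058944d (k8 d69 d392 d427 i967 i479 i1357 i222 i560 (k8 i709 d42 d442 d347 d455 d374 i2291 i1635 (k8 i2753 i1634 d857 d179 i2431 i2775 i1365 i710 (k8 d480 d862 i2642 i960 i451 d586 i1366 d28 (k8 i83 d874 d5 i597 i2319 i2444 i598 d870 (k8 d273 i1133 d422 d387 d875 d284 d860 d371 (k8 d244 d23 d76 i1511 d876 d684 d504 i1718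 (k4 i282 d826 d533 d51 (k2 i778 i513 (k1 d418 k0)))))))))) (by decide +kernel)
def d878 : PP 8 4 T 0x1000000000000000000000000000008000040124000000101000000100004000002 := rS 0x111479dcacc919830ce440b064867d8b94c944d (k8 d69 d392 i567 d480 i1361 d868 i1038 d427 (k8 i967 i2291 d877 i1609 i2296 i481 i712 i1132 (k2 d57 d422 k0))) (by decide +kernel)
def d879 : PP 8 4 T 0x1000000000000000000000000000000000020020000000001000000000004800000 := rS 0x3888 (k2 i710 i709 (k1 i2864 k0)) (by decide +kernel)
def d880 : PP 8 4 T 0x1000000000000000080000000000000000000001000000001000000000004110000 := rS 0x26f1 (k2 d351 i219 (k1 d371 k0)) (by decide +kernel)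
def d881 : PP 8 4 T 0x1000000000000010040000000000008100000200000100001000011000004000002 := rS 0xce4f9e630972f98c944d1da2c22c561b906717 (k8 d480 d460 d468 d470 d75 d857 i451 d825 (k8 d69 d392 d586 i645 d684 d461 d267 i1718 (k2 d262 i1067 k0))) (by decide +kernel)
def d882 : PP 8 4 T 0x1000000000000000000000151000008020000200000000001100000000006000502 := rS 0x5f899e9089c4f8e4d65b0933c6f196831cda58644140e3b8a994c6a35599d1a150797422c162b0cae0d720d44a41019289a31108ce2e42 (k8 i1038 d480 d460 i2930 i1042 d69 d392 i23 (k8 i180 d195 i1062 d468 d66 i441 d470 d75 (k8 d382 d857 i443 i2404 i2428 i2713 i1588 i1635 (k8 i1633 d586 i1550 d28 d825 i1340 d143 d354 (k8 d281 i2446 d880 d881 d34 i2720 i1148 d876 (k8 d154 i1960 d742 i1186 i2035 i1591 i1592 d53 (k2 i813 d418 k0))))))) (by decide +kernel)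
def d883 : PP 8 4 T 0x1000000000000000000000000002000000000200000140011000000000004000000 := rS 0x2fc4cf484 (k4 i1591 i1592 d53 i813 (k1 d418 k0)) (by decide +kernel)
def d884 : PP 8 4 T 0x1000000000000000000000000000008000000044000000001000000100004000002 := rS 0x832fa593c9b4e89c7e29780e4b6b7678dd33196831cda58828f40ea76907d12570e8bd86c506b055eb104aa55ae47e0d49e5d078544a3115a35224220914301786aad46873e084ce333a284e0512980c77158b994c64a26844167f (k8 i1638 i560 d857 d69 d392 d586 i1550 d480 (k8 d28 d825 i23 i567 d830 d873 d463 d878 (k8 d460 i1588 i2930 i1589 i3022 i1633 i1635 d394 (k8 d879 d427 i478 i180 i1038 i2799 i2713 i387 (k8 i1042 d195 i2428 i2404 i443 d836 i1062 d399 (k8 d468 d360 d374 d413 d455 d347 d382 d66 (k8 d75 d470 i1077 i1233 i441 d882 i1356 d417 (k8 d359 d49 d88 d143 d281 i2446 d880 d881 (k8 d34 i1108 i2720 i1148 i802 d154 d742 d426 (k8 d658 d27 d38 d883 i1450 i2035 d485 d752 (k2 i1376 d199 k0))))))))))) (by decide +kernel)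
def d885 : PP 8 4 T 0x1000000000000000000000000008000000000800000100001100001000006000002 := rS 0x17e265b3d2186f19268ec8203 (k8 i23 i180 d825 d69 d11 i996 i1715 i1716 (k4 d154 d51 i813 d418 k0)) (by decide +kernel)
def d886 : PP 8 4 T 0x10001000000000000000100000000004008000000800100400001100000000006000002 := rS 0x13b4f3633cb6d01dc5d164101954ae67251346e792e908228d (k8 i2713 d857 i1038 i443 d267 i1043 d69 d392 (k8 i2246 i1627 d844 i23 i180 i451 d480 d825 (k4 d461 d154 i1147 d824 (k2 d389 i1642 (k1 d397 k0))))) (by decide +kernel)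
def d887 : PP 8 4 T 0x1000000000000000000000000000008000000008000400001000000100004000002 := rS 0x3f010a9092c9e23e4db452e398c2646e79318ee2a6117a342ac934c10ae67251649a55889f13e5d210448a180b8c51276 (k8 i1322 d95 i1510 i968 d427 i478 d857 i1038 (k8 i443 d885 i1321 d67 d844 d69 i805 d392 (k8 i2246 i1627 d438 d431 d370 i2428 i2713 i2733 (k8 i960 d28 d825 d586 d267 i1043 i1059 d886 (k8 d364 d405 d34 d84 d485 d27 d197 d371 (k4 i663 i216 d450 d413 k0)))))) (by decide +kernel)
def d888 : PP 8 4 T 0x1011000000000000000000000000000040000000000001800141004000000006000202 := rS 0x99292a166fd318ed1aaf1bb40944d (k8 d69 d392 i645 i2720 i2400 i2713 d825 d586 (k4 d413 i1427 d450 d399 (k2 d733 d735 k0))) (by decide +kernel)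
def d889 : PP 8 4 T 0x1000000000000000000000000000008000000008000000001000000100004000002 := rS 0x640c728247ef01bc652e39681e0b65e1a91d5ac98215d56552e99ca2420781d83112ca8c303152b48f8761785c9e8938c3477158bb2cc64a268441661 (k8 i960 i560 d857 d69 d392 d586 i1366 d480 (k8 d28 d825 d356 i77 d95 i2834 i968 i2733 (k8 i1322 i1321 d771 i1364 i1510 d427 i1634 i805 (k8 d67 d384 d49 i598 i1038 i439 i2246 i443 (k8 d844 i1635 i1627 d438 d370 d12 d81 i1114 (k8 d887 i36 i646 i645 d742 i1856 d34 i2720 (k4 d426 d27 d888 d143 (k2 i2027 d468 (k1 i1609 k0))))))))) (by decide +kernel)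
def d890 : PP 8 4 T 0x1000000000000000401000004140000000000804040000201400000000004804440 := rS 0x15a0d3e8c81241 (k4 d439 i1310 i712 i1630 (k2 i1609 i1313 (k1 i2027 k0))) (by decide +kernel)
def d891 : PP 8 4 T 0x4001000000000000000000000020000000000000500000000201000000000004000000 := rS 0x47c44a87c (k4 i1313 i1314 d67 d373 (k1 d422 k0)) (by decide +kernel)
def d892 : PP 8 4 T 0x1000000000000000000000000000008000000000000000001000000100004000002 := rS 0xcdca0c569dc1e3160b4956a30399d4a09238bc883520859fa752806550723782d2b176598c944d (k8 d69 d392 d586 i1366 d480 i83 i560 d889 (k8 d884 i1093 i2756 i1094 i1095 d374 d427 d439 (k8 i2775 i967 i2753 d862 i1310 i1365 i2291 i2293 (k8 i1634 i1635 d442 d384 i1509 i598 d890 d891 (k4 i2027 d66 i1609 d468 k0))))) (by decide +kernel)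
def d893 : PP 8 4 T 0x10201000002000000000110000000000001140005000000000001000008041104000000 := rS 0xc3438a59f12682158e27 (k8 d38 d351 d387 d461 d409 i1147 d386 d51 (k2 i291 d505 k0)) (by decide +kernel)
def d894 : PP 8 4 T 0x1000002000000000000000000000048000000404000100001000040000004000002 := rS 0xb7134126da31848a2d1a252f9ec222159829fa578823d92535a956080d3383c628972b008f173eb2cb275861c40e5139c54c6613ca658a321585488160c8b0944d (k8 d69 d392 d892 i1039 d427 i967 i638 i385 (k8 i1242 i1616 i980 i972 i1047 d586 d28 d236 (k8 d830 i479 d70 d383 i1590 i606 i1366 d394 (k8 d480 d862 i1241 d382 i68 i1510 i598 i2291 (k8 i1609 d85 d474 i1368 i567 d370 i1132 d422 (k8 d57 d276 d268 i2437 i1611 d857 d179 i2431 (k8 i861 i2642 i451 i1171 d893 d34 d84 d313 (k2 d24 i776 (k1 d418 k0))))))))) (by decide +kernel)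
def d895 : PP 8 4 T 0x1000002000000000000000000000048000000404000000001000040000004000002 := rS 0x1a0ce1c308da132e31d1611209acd2578823d93040699c880f18a25cac023858324a269d4e3170ab14642c (k8 d892 i1242 i1616 i638 d480 d70 i1590 d69 (k8 d392 i1039 d427 d862 i1241 d382 i68 i1510 (k8 i598 i967 i2291 i1609 d85 d370 i1132 d422 (k8 d57 d431 d366 d439 d857 i451 d351 d894 (k4 i1844 i515 i2029 i290 (k2 i291 d504 (k1 i1147 k0))))))) (by decide +kernel)
def d896 : PP 8 4 T 0x1000000000000000000000000000048000000404000000001000040000004000002 := rS 0x1229b41975601278add02412f9ec220a7e95e208f6494d6a5582034ce32078c512e56011e2e7d65964eb0c3881c885139c54c661251342a790b065322c (k8 d892 i980 i1039 d427 i972 i638 d69 d392 (k8 i1047 d586 d28 d236 d830 i967 i479 d70 (k8 d383 i1590 i606 i1366 d394 d480 d862 i1241 (k8 d382 i68 i1510 i598 i1242 i2291 i1609 d85 (k8 d474 i1368 i567 d370 i1132 d422 d57 d276 (k8 d268 d857 d179 i2431 d439 d465 d352 d895 (k4 d371 i307 i1844 i1296 (k2 i1297 i1171 (k1 i2045 k0))))))))) (by decide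 +kernel)
def d897 : PP 8 4 T 0x1000000000000000000000000000008000000404000000001000040000004000002 := rS 0x13788f12c150881c88160c944e62c8a98c944d (k8 d69 d392 d586 d28 d892 d236 d830 i1039 (k8 d427 i967 i479 d857 i638 d896 i1243 d23 (k2 i1802 d371 k0))) (by decide +kernel)
def d898 : PP 8 4 T 0x1000000000000000000000000000008000000404000000001000000000004000002 := rS 0x828926d33193cabda05d0a04d2e91788d950fd2bc4196635a964c2533eadd030c39c551a5f3d844aa8f64c101a67220c81e3144b9580470b064ea711645c944d (k8 d69 d392 d480 d892 d70 i1590 i1039 d427 (k8 d862 i1241 d382 i68 i1510 i598 i1242 i967 (k8 i2291 i1609 d85 d370 i1132 d474 d857 d179 (k8 i2431 i2642 d28 d236 d383 d465 d352 d394 (k8 i567 i1047 i606 i1368 d586 i1366 d422 d57 (k8 d276 d450 d897 d9 i2666 i1778 i1799 d371 (k8 i2327 i637 i2398 d267 d34 i2655 i1178 d409 (k2 i2045 d24 k0)))))))) (by decide +kernel)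
def d899 : PP 8 4 T 0x1000000000000000000000000000008000000004000000001000080000004000002 := rS 0x105124da66327957b40ba1409a5d22f15ba051a5f3d84550fd2b9d8a6b52ac101a67220c81e3144b9580470b0662e7d65964eb0c399c458638a984944d (k8 d69 d392 i1047 d28 d586 d892 d70 d236 (k8 d383 i1590 i606 i1366 d394 d480 i1039 d427 (k8 d862 i1241 d382 i68 i1510 i598 i1242 i967 (k8 i2291 i1609 d85 d474 i1368 i567 d898 i1627 (k8 d276 d450 d857 d179 i2431 i2642 d465 d352 (k8 d9 i2666 i1778 i1799 d371 i2327 i637 i2398 (k4 d267 d34 i2655 i1178 (k2 d409 i2045 (k1 d24 k0))))))))) (by decide +kernel)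
def d900 : PP 8 4 T 0x1000000000000000000004000000100000105044000400009000000200004080840 := rS 0x4ba4536831e9756071309042c19 (k8 i1039 d427 d439 i1047 d70 i307 i1844 i1802 (k4 i1296 i1297 i1171 i1243 (k1 i2045 k0))) (by decide +kernel)
def d901 : PP 8 4 T 0x1000000000000000000000400000000000800000000500001000000000004000000 := rS 0xb713 (k2 d24 i776 (k1 d418 k0)) (by decide +kernel)
def d902 : PP 8 4 T 0x1000000000000000000014406000140140105854100505011000000000004000000 := rS 0xb66d6833d5d194d20d224a (k8 d392 i1171 d901 i2045 d84 i1178 i1151 d461 (k2 i593 i1922 (k1 d824 k0))) (by decide +kernel)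
def d903 : PP 8 4 T 0x1000000000000000000000000000008000000004000000001000000000004000002 := rS 0x1a0ce1c308da5c4b8f58ef009b1532790a8dd660a543f4ae762a9a5926b820355607339ecbe474691102b73e858a30c2998433155cc5d966345844e6325ab9580593a9c4944d078c5122c (k8 d892 i68 i1510 i598 d69 d392 d70 i1590 (k8 i606 i1241 d382 i1368 i1242 d236 d857 i451 (k8 d586 i1366 d480 i130 d28 i1039 i1047 i567 (k8 d383 d830 d427 d394 d352 d465 i967 i2642 (k8 d862 i2431 d179 i2291 i479 i1635 i1609 d85 (k8 d366 d370 d431 d474 d898 i1627 d276 d450 (k8 d268 i2437 d899 i638 i972 i980 i1616 d900 (k8 d371 d351 d23 i1243 d902 i515 i2029 i290 (k2 i291 d504 (k1 i1147 k0)))))))))) (by decide +kernel)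
def d904 : PP 8 4 T 0x1000000000000000000000000000008000000000000000001000000000004000002 := rS 0x230c1d82e6e600c83e2c (k8 d892 i2845 i1242 i1241 d903 i969 i1322 d427 (k2 i2978 i232 k0)) (by decide +kernel)
def d905 : PP 8 4 T 0x4001000000000000000000001014000010000010000000014441080008000064400000 := rS 0x1950488954fe22108d43051 (k8 i440 d427 i113 i1612 i232 d722 i703 d401 (k2 d438 i2037 (k1 d54 k0))) (by decide +kernel)
def d906 : PP 8 4 T 0x4001200000000000000000001014000010000010000000015441000000000066000002 := rS 0xfc3565b24a242 (k4 i1038 i440 d370 d54 (k2 i1114 i2037 (k1 d722 k0))) (by decide +kernel)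
def d907 : PP 8 4 T 0x4001000000000000000000000000010000000080000000000001000000200046000000 := rS 0x1a3043895 (k4 i2715 i1040 i1516 d722 (k1 i1119 k0)) (by decide +kernel)
def d908 : PP 8 4 T 0x1000000000000000000000141000140140000000005200001080000000004000000 := rS 0x166d1 (k2 i2254 i2255 (k1 d701 k0)) (by decide +kernel)
def d909 : PP 8 4 T 0x1000000000000000814000541004140001000000000000541100015000026000002 := rS 0x5f5ba04f2271ea71e0396396d9e3708c65a06d1d90406152ea2d1a612118c944d (k8 d69 d392 d586 i1038 i2711 i2713 i2247 d908 (k8 i2428 i23 i180 d825 i673 d701 d34 i472 (k8 i2720 i1148 d154 d880 d742 d426 i2035 d23 (k4 d38 i1857 i1235 i721 (k2 i646 d341 k0))))) (by decide +kernel)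
def d910 : PP 8 4 T 0x801000002000000001014000000000000001000000000000001000000041504000000 := rS 0x438a58e27 (k4 d38 d351 d386 d51 (k1 i2032 k0)) (by decide +kernel)
def d911 : PP 8 4 T 0x1000000000000001000000000000021814000000004000001100008000100001100015000526000002 := rS 0xcf4ea68f0822f44d6e2763bc072bf2d9ac6f19868ac76252080c944d (k8 d69 d392 i23 i180 d195 d825 i387 d356 (k8 d34 i2720 i632 d154 i1454 d742 d426 d351 (k8 d38 i721 d910 d418 d357 i646 i1439 i1857 (k2 i1152 i2035 k0)))) (by decide +kernel)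
def d912 : PP 8 4 T 0x1100000000000001800000001000140001000808000000501100014000026000002 := rS 0x893c0b613351a69ece1bb1c729d3c9b6305f6884503455927cba63468ac76252080c2a8b1fac55efc279861a2364194ce422513442c561b906317 (k8 d78 d448 d468 d470 d75 d25 d69 d392 (k8 i1038 i2246 i2712 d354 i1625 d356 i2711 i1271 (k8 d399 d347 d455 i2907 i2247 i2428 i23 i180 (k8 d195 d825 i387 i2713 d586 d908 d885 d909 (k8 d355 i1334 i474 d911 i645 d461 i671 d267 (k8 d362 d364 d880 i1043 i2035 d96 i1832 d467 (k4 i1960 i1962 d371 d418 (k1 d910 k0)))))))) (by decide +kernel)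
def d913 : PP 8 4 T 0x1000000000000000000000000000080000000008000000001000000200004400002 := rS 0x2e96c6e7a1c464768922904068b21060944d (k8 d69 d392 d427 i1038 i2247 i23 i180 i478 (k8 d95 d825 d405 i1244 i1324 i1778 d154 i1891 (k1 d742 k0))) (by decide +kernel)
def d914 : PP 8 4 T 0x1000000000000000000000000000000000000000000100001100240000006000002 := rS 0x16a324a268ec8203 (k8 i23 i180 d825 d69 d392 d364 d742 d154 k0) (by decide +kernel)
def d915 : PP 8 4 T 0x1000000000000001800000000000000001000808000000001000000200004400002 := rS 0x3460c148a995483d2e332b99c947d49ad4e25926c5d56ad7e1461a4f30a54a6d30e108301f (k8 i1304 d427 i1038 i1040 d0 d788 i2715 i2711 (k8 i1271 d356 i440 d399 d360 d72 d78 d69 (k8 i805 i77 i807 d904 i1629 d392 i2246 i1627 (k8 d905 d913 i2404 i2714 i2716 i478 d54 i1246 (k2 d912 i1119 k0))))) (by decide +kernel)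
def d916 : PP 8 4 T 0x4001000000000000000000000000000000000000000000002001000005000006000002 := rS 0x3946a20069040642 (k8 i1038 i23 i180 i1490 i703 i1115 d25 d468 k0) (by decide +kernel)
def d917 : PP 8 4 T 0x1000000000000000000000000000000000000808000000001000000200004400002 := rS 0x3350b1065414aa333f95cfab52cc5c629338871422f4a99c944d56aadf8512107c9e6129861a70d (k8 d356 d0 d427 d788 i2711 i1271 i1304 i1038 (k8 i440 d399 d72 d360 d69 d392 i2246 i2715 (k8 i2733 i310 i1040 i77 d904 d448 d78 i805 (k8 i807 i1629 i1627 d907 d905 d916 d906 i2037 (k4 d438 d387 d454 d915 k0))))) (by decide +kernel)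
def d918 : PP 8 4 T 0x4001100000000000000200000000000001501000500000081001180400000006000000 := rS 0x6836b38f6d14ec613e37788e4d679438484c29 (k8 i1806 i705 i706 i2462 i1807 i1963 i234 d38 (k8 i1799 i1186 d426 d362 d34 d64 d826 i671 (k2 d275 i1832 k0))) (by decide +kernel)
def d919 : PP 8 4 T 0x24001000000000000001800000141000140001000000000040541104014000426000002 := rS 0x242678a1c52c789044da5f593453e2b1d89482030a975168d3090842c561b9062c8319289a65 (k8 i2712 d69 d392 d586 d713 i2717 d468 d470 (k8 d75 d25 i1038 i2711 i2713 i2247 d908 i2428 (k8 i23 i180 d195 d825 i387 d11 d34 d909 (k8 i645 i671 i474 d418 d880 d386 d51 d910 (k2 i2032 d371 (k1 i1797 k0)))))) (by decide +kernel)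
def d920 : PP 8 4 T 0x4001000000000000000800000001000140000000408000011501100010000026000002 := rS 0x1445927cbc81898f5e03768464725b66a1447103aa44563b12904068f1f9755eb17e13e1a8b469860a57210858ac3720c5906325134ca33 (k8 i233 i2712 d69 d392 d586 d713 i2717 d468 (k8 d470 d75 d25 i1038 i2252 d54 i2711 i2713 (k8 i2247 d356 i1271 d399 d455 d347 d908 i2907 (k8 d189 i23 i180 d195 d825 i387 i2799 d281 (k8 d438 d401 d387 d454 d918 d742 d919 d461 (k8 i2720 d426 d23 d910 i1235 d418 d752 d909 (k2 d911 d355 k0))))))) (by decide +kernel)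
def d921 : PP 8 4 T 0x10001000000000000000214020140001000000100201000140541000014000026000002 := rS 0x166b72f9a84e9e5fbc18ecf1b845a03b468551642188e4944d (k8 d69 d392 d742 i2717 i1038 i2247 i2428 i2713 (k8 d825 d461 i472 i2720 i2744 d880 d426 i1458 (k4 i2035 d38 i1186 d752 (k2 i721 i634 (k1 d341 k0))))) (by decide +kernel)
def d922 : PP 8 4 T 0x20001000000000000000814000141000140001000201000000541104015000026000002 := rS 0x19ec73c844beb268a7c76152ea2d1a612118c944d (k8 d69 d392 d586 i1038 i2711 i2713 i2247 d908 (k8 i2428 d825 d11 d34 d909 i645 i474 d267 (k2 d880 i1067 (k1 d262 k0)))) (by decide +kernel)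
def d923 : PP 8 4 T 0x1000000000000000a14022141000140001000201000000541104014000026000002 := rS 0x6e5a68465029d1d904065d45a34c242319289a31 (k8 i2717 d69 d392 d586 i1038 i2711 i2713 i2247 (k8 d908 i23 i180 d825 i1591 i1402 d922 d461 (k2 d921 i2720 (k1 d154 k0)))) (by decide +kernel)
def d924 : PP 8 4 T 0x4001000000000000000800000000000000000000008000001001000000200004400002 := rS 0x1ba7472272db3d3ec7422e1686d3a444b0c362b9062c83f9152265158ed422f478fc385d4babd62fc2794da70d45aa5328d3098c6677a195cfa510f8d5820f21060944d (k8 d69 d392 d427 i1038 i2404 i1246 i1119 i1304 (k8 i440 i1327 i2252 d98 d917 i233 d586 i2711 (k8 i2713 i2716 i2714 i2247 d356 d0 d788 i1271 (k8 d399 d455 d347 d913 d908 i1040 i2907 d189 (k8 i2733 i310 d825 i387 i2712 i2799 i478 d907 (k8 d713 i2717 d468 d75 d470 d920 d411 i606 (k8 i2446 d481 i1399 d923 i1602 i1606 i1871 i1812 (k4 i1771 d742 d883 i1044 (k1 i2035 k0))))))))) (by decide +kernel)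
def d925 : PP 8 4 T 0x1000000000000004814000141005140001000001000000541104155000026000002 := rS 0x8b19643b0a908944d (k8 d69 d392 i1038 i2428 d825 d909 i2035 i474 (k1 d880 k0)) (by decide +kernel)
def d926 : PP 8 4 T 0x1100000000000000100000000008000140000001010000001000000000004000000 := rS 0x6a681a69f19 (k4 d11 d89 i1565 d461 (k2 d467 i631 k0)) (by decide +kernel)
def d927 : PP 8 4 T 0x1000000000000004914000141001140001000001000000541104114000026000002 := rS 0x26f1088d9649f4685516313a964944d3295c8505 (k8 d54 i1038 i2252 i2712 d69 d392 i605 d281 (k8 i1041 i2247 i2428 i2713 d926 d909 d925 i474 (k2 d9 i1799 (k1 d371 k0)))) (by decide +kernel)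
def d928 : PP 8 4 T 0x11000000000000045914001001001140001000000000000141104114000426001002 := rS 0x1ca471031de11253add063d40d1578b2360ac76252080c2a0f211289ab157bf0a705 (k8 d54 d788 d399 d347 d455 d69 d392 i1038 (k8 i2404 i2428 i23 i180 d195 d825 i387 d927 (k8 i673 i674 d355 i1334 i1254 i1415 i1988 i1984 (k4 d357 d365 d351 d910 (k2 i1695 d25 (k1 d85 k0)))))) (by decide +kernel)
def d929 : PP 8 4 T 0x1000000000000041808000140100000000000000000140549000000000024004000 := rS 0xb32faf0da6a5ba054446138f5cac782d0d820d (k8 i466 i1246 d98 d54 i117 d470 i1959 i1954 (k8 d85 d475 i1235 i721 i211 i1695 i329 i2423 (k2 i1414 d341 k0))) (by decide +kernel)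
def d930 : PP 8 4 T 0x11000000000000045900001001101140001000000000040141104014000426000002 := rS 0x5f082dc26a778b1186390a9755eb17e14d168d3098d820f211289a0d (k8 i466 d69 d392 i1038 i2404 i1246 d586 i2711 (k8 i2713 i2247 d788 d399 d455 d347 d908 i2428 (k8 d742 d929 d928 d76 i1919 i1804 i722 d371 (k2 i2281 d792 k0)))) (by decide +kernel)
def d931 : PP 8 4 T 0x1000000000000000800000000000000000000008000001001000000200004400002 := rS 0x315863909098525a66a1447102cad592b94eb3e2d0d6991532a92887c9e611fa5c66778295c1aa50e0d5820f21060944d (k8 d69 d392 d427 i1038 i2404 i1246 i1119 i1040 (k8 i2878 i466 i2252 d54 d917 i233 d913 i2907 (k8 i2711 i1271 i1304 i440 i2714 i2716 i478 d0 (k8 d356 d924 d385 d452 d43 d61 i1399 i605 (k8 d438 d401 d387 d454 d930 i1806 i705 i706 (k4 i234 i1954 i1804 d928 k0)))))) (by decide +kernel)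
def d932 : PP 8 4 T 0x1000000000000000800000000000000000000008000000001000000200004400002 := rS 0x6ec3628e42426088a53e5a64a759f16368c50a202308ceab5669506ac18291482033283c7ea50e1752eaf58bf0a21f2794da70d45aa5328d30908c64a268ccee18 (k8 d427 d917 i233 d69 d392 d586 i1038 i2711 (k8 i2713 i2716 i2714 i2247 d356 d0 d788 i1271 (k8 i1304 i440 d399 d455 d347 d913 d908 i1040 (k8 i2878 i2907 i2404 i2712 i23 i180 i478 d54 (k8 i1246 i1119 d931 i2459 i767 i1539 i1538 i704 (k8 i703 i1544 i1041 i3012 d916 d385 d452 d61 (k8 d930 d926 i1806 i1758 i705 i706 i234 i1536 (k2 i1954 i1799 (k1 d925 k0))))))))) (by decide +kernel)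
def d933 : PP 8 4 T 0x1000000000000004014000000001000100000000000080001590515000006000000 := rS 0x9e8c31c6e12 (k4 i706 i1799 i218 d154 (k2 i2035 d11 k0)) (by decide +kernel)
def d934 : PP 8 4 T 0x1000000000000004414020140001000100100000000140541400115000024080002 := rS 0x2faccf2bc4f2dd8e271b9289a3b (k8 d825 d69 d392 i1799 i1797 i218 i721 i2035 (k4 i1190 i2751 i1413 i646 (k1 d341 k0))) (by decide +kernel)
def d935 : PP 8 4 T 0x1000000000000000400022140008010000100000000140549000000000004000000 := rS 0xbeb35b9e578bb (k4 i1685 i1190 i2751 i887 (k2 i1413 i646 (k1 d341 k0))) (by decide +kernel)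
def d936 : PP 8 4 T 0x1000000000000004014004040005000100000000000540541000515000026140000 := rS 0xc6780dc2279 (k4 d267 d792 i1043 d371 (k2 i2035 d351 k0)) (by decide +kernel)
def d937 : PP 8 4 T 0x1000000000000004014000000004000001000200500815009000115000006145000 := rS 0x6d1bbc29ccd680462711 (k8 d400 d10 i2281 i645 i890 d667 d371 i2720 (k2 d389 d740 k0)) (by decide +kernel)
def d938 : PP 8 4 T 0x1002000000000004514000000011000001000400000100041100110200046000002 := rS 0x632986eb63c97d3e132da0568742b834d26b2ab908f043fafcfa318bae0b2631da4c8203329851a1c29b4d2a153383d1e4a2694484ad58abd5633 (k8 i233 d72 d347 d455 d360 i1038 i440 d69 (k8 d392 d189 i2404 i2246 i2428 i2715 d0 d788 (k8 i1040 i2713 i2711 i2712 i23 i180 d904 d825 (k8 d586 i605 d782 d43 i2718 i1330 i1458 d907 (k8 d354 d727 d468 d916 d366 d431 d66 i441 (k8 d642 d906 i1402 d933 d934 d935 d937 d267 (k4 d936 i1043 i722 i2035 (k1 i337 k0)))))))) (by decide +kernel)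
def d939 : PP 8 4 T 0x20001000000000000004014000141004140140000001001000001004015000004100002 := rS 0x6384564d1319289a3b (k8 d825 d69 d392 d586 d34 d701 i474 d880 (k1 d262 k0)) (by decide +kernel)
def d940 : PP 8 4 T 0x4001000000000000004014000141005140000000001000000001004115000006000002 := rS 0xc71bd39a1191d9851a1545908944d (k8 d69 d392 i1038 i2247 i2428 i2713 i2711 d825 (k4 d939 d461 d397 i2720 (k2 d381 i2035 k0))) (by decide +kernel)
def d941 : PP 8 4 T 0x1002000000000004414000000011040001000400000000041104110200046000002 := rS 0x5ba044e3d5997de05b350de329e368c62ec81d904061c29b4ca25d57ac516a94ca34c242319289a33 (k8 i233 d69 d392 d586 i1038 i2711 i2713 i2716 (k8 i2714 i2247 d455 d347 d908 i440 d0 d788 (k8 i1040 i23 i180 d825 d938 d61 i2717 i672 (k8 d940 d11 i996 i1186 d154 d426 i2423 i633 (k4 d23 d38 i1235 i721 (k1 d341 k0)))))) (by decide +kernel)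
def d942 : PP 8 4 T 0x1000000000000000000000000000000000000000000100001100200000006000002 := rS 0x6c79 (k2 d398 d914 (k1 i1043 k0)) (by decide +kernel)
def d943 : PP 8 4 T 0x1002000000000004414000000011040000000400000000041104010200046000002 := rS 0x188dc42274fb1d0891158ec66392eabd628b54a651a612118c944d (k8 d69 d392 d586 i1038 i2711 i2713 i2716 i2714 (k8 i2247 d455 d347 d908 d942 i233 d825 i387 (k8 i2799 d941 i1602 i1606 i1771 i1503 i1044 i1042 (k1 i2035 k0)))) (by decide +kernel)
def d944 : PP 8 4 T 0x1000000000000000400000000000000000050108000005549000000000004000000 := rS 0x16a5956aadf90d (k4 d356 d399 d72 d360 (k2 i606 i1400 (k1 i2037 k0))) (by decide +kernel)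
def d945 : PP 8 4 T 0x1000000000000008000000000000000000000008000000001000010200004400002 := rS 0x2f344f0742b9f41ac12ab90fe318b871422f2ea5d5eb17e1443e4f29b4e1a8b54a651a612118c944d199dc30cb (k8 d932 d427 d917 i233 d69 d392 d586 i1038 (k8 i2711 i2713 i2716 i2714 i2247 d356 d0 d788 (k8 i1271 i1304 i440 d399 d455 d347 d913 d908 (k8 i2733 i310 i1040 d385 i2719 d907 d468 d916 (k8 d382 d66 i1233 i441 d944 i1067 i2744 d267 (k1 i645 k0)))))) (by decide +kernel)
def d946 : PP 8 4 T 0x1000000000000000408000010000000000000000000000001000015200006000002 := rS 0x191165cb94c69332984a6d333908944d (k8 d69 d392 i1038 i2246 d0 d788 i2711 i2712 (k4 d904 d586 d470 d721 (k2 d468 d749 (k1 d61 k0)))) (by decide +kernel)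
def d947 : PP 8 4 T 0x8001000000000000000400000010000000000000000000000001000000200006000002 := rS 0x64ae4c69332984a6d333908944d (k8 d69 d392 i1038 i2246 d0 d788 i2711 i2712 (k4 d904 d586 d43 d61 (k1 d749 k0))) (by decide +kernel)
def d948 : PP 8 4 T 0x1000000000000000100000000000000000000008000000001000000200004400002 := rS 0x5a1bc64e89c2bb141ae42ab0cfa3167c1170351da4c8a41019952a67478fc385d4babd628b54a651a632513466773fc5d96ad7e144844f3094da70d508bc3e18 (k8 d427 i1304 i2733 i310 d356 d0 d788 i2711 (k8 i1271 i1038 i440 d399 d360 d932 d947 d907 (k8 d917 i233 d69 d392 d586 i2713 i2716 i2714 (k8 i2247 d455 d347 d913 d908 i1040 i2907 d189 (k8 i2246 i2715 i2712 i23 i180 i478 d904 d825 (k8 i1114 d782 d354 d945 i2718 i1330 d721 d474 (k8 d468 d66 d75 i441 d943 d944 d362 i1780 (k2 d883 d154 k0)))))))) (by decide +kernel)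
def d949 : PP 8 4 T 0x1000000000000000000000000000000000000208000000001000000200004400002 := rS 0x5a1bc6538c57230d9e351d9148203508bc7e1c2ea5d5eb145aa5328d319289a333bc5d96ad7e144841f27984a6d3868c59018 (k8 d427 d948 i2717 d356 d0 d788 i2711 i1271 (k8 i1304 i1038 i440 d399 d360 d932 d947 d917 (k8 i233 d69 d392 d586 i2713 i2716 i2714 i2247 (k8 d455 d347 d913 d908 i1040 i2907 i2733 i310 (k8 i23 i180 i478 d825 i2739 d945 d946 d468 (k4 d75 d943 d362 i1780 (k2 d883 d154 k0))))))) (by decide +kernel)
def d950 : PP 8 4 T 0x1000000000000000000000000000000000000008000000001000000200004400002 := rS 0x3e440ea552b8c5907f8bb2c667756bf09e5147a84a6612107c304a26c345ed3 (k8 d0 i2733 d356 d69 d392 d427 i1304 i1038 (k8 i2711 d788 i310 d189 i440 i1271 d399 d360 (k8 d917 i233 d932 d947 d907 d948 i2717 i2251 (k4 d916 d949 d422 d944 (k1 d67 k0))))) (by decide +kernel)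
def d951 : PP 8 4 T 0x4801000000000000004400020140401001400005500000000001201000000004110540 := rS 0x5e2c93c13438a50b10 (k8 d422 d387 d386 d51 i226 d826 d533 i1190 (k1 i1413 k0)) (by decide +kernel)
def d952 : PP 8 4 T 0x4401000000000000004000000000001001400005500000501001000000000004000000 := rS 0x13e878c1690b10 (k4 d422 d387 d418 d409 (k2 i777 d11 (k1 d826 k0))) (by decide +kernel)
def d953 : PP 8 4 T 0x4001000000000000004400020140401000500000500000101001201000000004000542 := rS 0x6c9e0a21e247b3c845224a2697d0b10 (k8 d422 d387 i2431 d69 d392 i1171 i483 d267 (k4 d179 d952 d51 d951 (k2 d826 i638 (k1 i2669 k0)))) (by decide +kernel)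
def d954 : PP 8 4 T 0x1000000000000008000000000000000100000000000000001000002000004005000 := rS 0x26f1088546cc2 (k4 i989 i988 i369 i1953 (k2 d9 i1799 (k1 d371 k0))) (by decide +kernel)
def d955 : PP 8 4 T 0x4001000000000000004400020140401000500400500000001001200000000004150542 := rS 0x591707af0 (k4 d371 d23 d953 d533 (k1 i514 k0)) (by decide +kernel)
def d956 : PP 8 4 T 0x4001000000000000004400020140000000100400540000001001200002000084150542 := rS 0x44cba91142d94c9d62bc0be8f25134f27b (k8 d179 d284 d69 d392 i2659 i2431 d371 d76 (k8 i1511 d955 i243 i242 i854 i1930 d386 d952 k0)) (by decide +kernel)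
def d957 : PP 8 4 T 0x4001000000000000004400020140000000100400540000001001210002000084110542 := rS 0x4ec4d22c514174247b2f834af10479289a79 (k8 d284 d69 d392 i2659 d422 d57 i481 i2431 (k8 d179 d956 i1844 i226 i1804 i1171 d386 i1511 (k1 d952 k0))) (by decide +kernel)
def d958 : PP 8 4 T 0x1000000000000000000000141000100140000000001000001000000000004020042 := rS 0x25d66d1319289a3b (k8 d825 d69 d392 d586 i472 i473 d684 d701 k0) (by decide +kernel)
def d959 : PP 8 4 T 0x4001000000000000004000020000000000000004100000000001000002000004a00002 := rS 0x29c864fc653a79488d9a0392e8151a5f222159b10479289a77 (k8 d448 d69 d392 i2659 d422 d454 d387 i967 (k8 i2431 i2642 i2 i2327 i292 i637 i638 i1171 (k4 d267 i1512 d34 i2669 (k2 i2046 d397 (k1 d478 k0))))) (by decide +kernel)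
def d960 : PP 8 4 T 0x4001000000000000004400020000000000000000100000001001000002000004800102 := rS 0x1061e86904a6592b9f542730ead6208f3bb4c2a7b08abd62fc1602c0ea445a65526146910944d (k8 d69 d392 i967 i2642 i2640 i2660 i1143 i2292 (k8 i987 i1379 i559 i986 d268 d455 d347 d958 (k8 d179 d959 d0 d448 i2659 d422 d349 i1381 (k8 i1141 i821 d67 d57 i2406 i2385 d439 d276 (k2 d479 i2916 (k1 d957 k0)))))) (by decide +kernel)
def d961 : PP 8 4 T 0x14001000000000000004400020140001001400005500000000001200000000084110540 := rS 0x3d53a045312 (k4 d409 d386 d46 i242 (k2 i1307 d951 k0)) (by decide +kernel)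
def d962 : PP 8 4 T 0x1000000000000000000000040010002000000008001400009200000000005110500 := rS 0x5c (k2 i1171 d238 k0) (by decide +kernel)
def d963 : PP 8 4 T 0x4001002000000000004400020001001041540405500005400001200000000084110540 := rS 0x815bc4e8ab2433453f1842b3620995fac55f0d (k8 d476 d347 d455 i1458 i1143 d422 d454 d387 (k8 d961 d11 d34 i2046 d701 d277 d51 i857 (k2 i1335 d357 k0))) (by decide +kernel)
def d964 : PP 8 4 T 0x1000000000000000020000000000000000000000000000001000000000004111000 := rS 0x26f1 (k2 d76 i1804 (k1 d371 k0)) (by decide +kernel)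
def d965 : PP 8 4 T 0x4001000000000000004400020000000000000000100000000001000002000084800102 := rS 0x245066e31864bea1399e52e9d62854f61157ac5f82c0581d488b4caa4c28d0695e208f3b910944d (k8 d69 d392 i967 d448 i2659 d422 d57 i481 (k8 i2642 i2640 i2660 i1143 i2292 i987 i1379 i559 (k8 i986 d268 d455 d347 d958 d179 d959 d964 (k8 i1511 i1410 d284 i1141 i821 i2431 i8 d586 (k4 i1303 i2916 d962 d963 k0))))) (by decide +kernel)
def d966 : PP 8 4 T 0x4801000000000000004400020140201001400005500000000001200000000004110500 := rS 0x5d2794c8742a540e3d62834af10 (k8 d422 d57 i481 d964 i1386 i1379 i104 d387 (k4 d51 d951 d826 i368 (k1 i1685 k0))) (by decide +kernel)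
def d967 : PP 8 4 T 0x4001000000000000004400020141201001540005500005400001200000000004118500 := rS 0xd669a7ac90cd14fc62268566c413297 (k8 i1410 i1143 d422 d454 d387 d966 d409 d11 (k4 d34 i2046 d701 d478 (k2 i1564 i633 (k1 d122 k0)))) (by decide +kernel)
def d968 : PP 8 4 T 0x4001000000000000004400020000000000000000100000000001000002000004800102 := rS 0x53d3ec25d29966132e16e329028c303e3d4eb141d052a1e42a7b08abd62fc6982c3a0750a6458a9521cd2a6346985165f7291ccab50695e208f3b910944d (k8 d69 d392 i967 d448 i2659 d422 d57 i481 (k8 d349 i2641 i1531 d39 i2431 i2292 i2640 i2642 (k8 d586 i104 i1141 i987 i2660 i986 i1143 i821 (k8 i1379 i1381 i559 d0 d268 d455 d347 d958 (k8 d179 d959 d284 d960 d474 d85 d964 i1511 (k8 i1386 d965 d479 d41 d967 d348 d94 i1171 (k8 i227 i513 d533 i368 i367 i1685 d433 d397 k0))))))) (by decide +kernel)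
def d969 : PP 8 4 T 0x4201002000000000000400000000000020000000054050010401000000000004000000 := rS 0x2a41218c98aad4ae7d (k8 d67 d57 d349 d350 i1101 d383 d354 d276 (k1 d474 k0)) (by decide +kernel)
def d970 : PP 8 4 T 0x401400000000000001000000000000010000500000000100140000001550000001000000000004000000 := rS 0x33d92ba822753f18 (k8 d461 d11 d362 d467 d87 d370 i1950 i2042 k0) (by decide +kernel)
def d971 : PP 8 4 T 0x800000000000004001000000000000000000000000005001400005500000000001000000000004000000 := rS 0x67a1d0b10 (k4 d422 d387 d478 d96 (k1 d826 k0)) (by decide +kernel)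
def d972 : PP 8 4 T 0x1000000000000000000000000000000080000000000200001000000000004000002 := rS 0x1e227148ac20453d1289b13 (k8 d368 d69 d392 i492 i2292 i451 d451 i3093 (k2 i1766 d393 (k1 d419 k0))) (by decide +kernel)
def d973 : PP 8 4 T 0x400000000000001000000000000000600000011000140040000000005200001080000000004000000 := rS 0x7e2b9568d82ac45010 (k8 i443 i444 i3068 d370 d445 i583 d908 d436 (k1 d347 k0)) (by decide +kernel)
def d974 : PP 8 4 T 0x1000000000000004000500020005554000000000101000001000000000004000000 := rS 0x176b9 (k2 i1289 i1559 (k1 i2048 k0)) (by decide +kernel)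
def d975 : PP 8 4 T 0x1000000000000010200000000000000000001500500200001400000000004051002 := rS 0x2b0391cc3a71ed224a26a753f1846a2e0b17639b58a15 (k8 i2327 d964 i2331 d880 d61 d370 d972 d445 (k8 d461 d11 d362 d69 d392 i1170 i1891 d467 (k4 d433 d971 i2029 i1133 (k1 i2319 k0)))) (by decide +kernel)
def d976 : PP 8 4 T 0x400000000000001000000000000010600000011000100000000000001200001000000000004000002 := rS 0x2104068629dc8e0d3c84cd6113a91082b20b2bd62197e10d1a154ba2cc64a26c162eab (k8 i583 d61 d370 d69 d392 d586 d972 d684 (k8 i2327 d445 d973 d436 i1038 d455 d347 d427 (k8 d701 d439 i967 i2646 i2299 i633 i1844 d284 (k8 i2296 d862 d273 d964 d975 d260 i1849 i1503 k0)))) (by decide +kernel)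
def d977 : PP 8 4 T 0x1000000000000000200000000001000000000000200200009000000000004000000 := rS 0xea7788a3cb2842b9acb717 (k8 d61 i35 i39 i1584 i1849 i609 i1133 d387 (k2 i1631 i1064 (k1 d422 k0))) (by decide +kernel)
def d978 : PP 8 4 T 0x400000000000001000000000000000600000010000550000000010000200009000000000004820002 := rS 0x6982c383d04a083f0c39ae00e6f8abf55117499845615688ec4c44 (k8 i967 i484 d825 i472 i2327 i385 i2640 d904 (k8 d61 d976 d374 d425 i2643 i2293 d391 i2783 (k8 d383 d476 d313 i222 i1256 i735 i563 d42 (k1 d442 k0)))) (by decide +kernel)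
def d979 : PP 8 4 T 0x1000000000000000600000000000100800000000500200001000000000004000000 := rS 0x172bba12b53ebd5fb3d2a71499852e634ea6e30d108315c80d2211ceb176384c82160c90d874e82854da0f2b0ec000302a35167b669289a59 (k8 i609 i613 d392 i1970 i878 i492 d445 d456 (k8 i2778 d430 d825 i1133 i2319 i2331 i2327 d370 (k8 d467 d433 d189 i1038 d427 d439 i1844 d381 (k8 d61 i1064 d862 i967 i2296 d85 d75 i2029 (k8 i472 d461 d84 d362 d589 d684 i2640 d904 (k8 i877 i2763 d96 d59 d437 i1186 d974 d978 (k2 d58 d99 (k1 i2048 k0)))))))) (by decide +kernel)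
def d980 : PP 8 4 T 0x1000000000000000600000000000000800000000500200001000000000004000000 := rS 0x203e0786144e6ab5682d46b9378f62a986798d2a71498bcf2c1528418ae4069108e758bb1c26410b06486c3a74142a6d0780006052b1289a59 (k8 i609 i613 d392 i1133 d456 i2778 d430 i2319 (k8 i2331 i2327 d370 d467 d433 d189 i1038 d427 (k8 d439 i1844 d381 d61 i1064 d862 i967 i2296 (k8 d85 d75 i2029 d60 d382 d284 i2753 d904 (k8 i877 i2763 d589 d96 d979 d449 i1786 i1059 (k8 i1143 d599 i563 d326 i584 d849 d830 d383 (k4 i479 d476 i2027 i222 k0))))))) (by decide +kernel)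
def d981 : PP 8 4 T 0x1000000000000000200000000000000800000000500200001000000000004000000 := rS 0x8a1bd30735a1415ea9652c52eb31334420c572034264730910821607854768b0c800f643019591b17669d586c7a71b60a05319289a59 (k8 i609 i613 d392 d589 d456 d370 i2331 d467 (k8 d381 d433 i1064 i1970 d61 d445 i1133 i2778 (k8 d189 i878 d430 i1038 i492 d825 i2327 i2319 (k8 d427 d439 i967 i2640 d862 i1844 i2296 d85 (k8 d75 i2029 i472 i484 i2299 d684 i3043 d980 (k8 i2323 i625 i505 i506 i1093 d701 i1400 d830 (k1 d449 k0))))))) (by decide +kernel)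
def d982 : PP 8 4 T 0x1000000000000000000000000000020000000000000000001000008000006000000 := rS 0x110a2 (k2 i1671 i1672 (k1 d176 k0)) (by decide +kernel)
def d983 : PP 8 4 T 0x1000000000000004254000000005000000000000000000001100454000006000002 := rS 0x5c3d0e0628b (k4 i618 i2717 i2035 i235 (k2 d914 i1891 k0)) (by decide +kernel)
def d984 : PP 8 4 T 0x1000000000000004254000000085020000000000004000001000400000004400000 := rS 0xba5f3c0a5a23646928844500014062e1aa25a7155c8cc5a18 (k8 d427 i2715 d982 i104 d350 d375 i280 i327 (k8 d417 i1122 i316 d430 i478 i1038 i1037 i2713 (k4 d983 i2720 i1838 i1043 (k2 i645 i444 (k1 d267 k0))))) (by decide +kernel)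
def d985 : PP 8 4 T 0x1000000000000004254000000005000000000000000000001000414000004400010 := rS 0x5d2f9e052d11b2349442228000618 (k8 d427 i1122 d430 i478 i1038 i1037 i2713 d983 (k4 i2720 i1838 i1043 i645 (k2 i444 d267 k0))) (by decide +kernel)
def d986 : PP 8 4 T 0x1000000000000004854000002005020000000000000000001000400000004400000 := rS 0x47012905c011a01416a319860c6c8 (k8 i623 i97 d427 d982 d984 i620 i572 d985 (k4 i2759 i1098 i1099 d430 (k2 i2081 i1123 k0))) (by decide +kernel)
def d987 : PP 8 4 T 0x1000000000000000200000002000020000000000000000001000000000004000008 := rS 0x521185c34 (k4 i1122 i1084 i1123 i1099 (k1 i2081 k0)) (by decide +kernel)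
def d988 : PP 8 4 T 0x1000000000000000000000000000020000000000040000001000020000004000004 := rS 0x205 (k2 i355 i2759 (k1 d430 k0)) (by decide +kernel)
def d989 : PP 8 4 T 0x1000000000000000000000002000000000000000000000001000000000004000020 := rS 0x4520930864b (k4 d456 i2387 d392 d440 (k2 i2388 d434 k0)) (by decide +kernel)
def d990 : PP 8 4 T 0x1000000000000004800000002005020000000000000000001000000400004400000 := rS 0xa06c5c578e5665f2dac630bb0804cd34f6324cda3b0aa2d8ac3720ce2e3533ae462b740a8da4890fc309f1528908a64a268000a037e8605ac8 (k8 i623 i2652 d427 d374 d987 d989 d430 d69 (k8 d392 i2415 i1038 i2248 d350 d836 d399 d476 (k8 i230 d417 d375 d465 d352 i2717 i104 i546 (k8 d988 d61 d982 d468 d470 d75 i2247 i2428 (k8 d825 i2450 i83 d986 d381 d228 i219 d880 (k8 i1679 d397 i1394 i706 i2281 i2285 i1873 i626 (k4 d341 d220 i444 i1838 k0))))))) (by decide +kernel)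
def d991 : PP 8 4 T 0x1001000000000008000000004000020100000001000000001000000000004000000 := rS 0x15eb358d157898 (k4 i1104 i1105 d408 i1825 (k2 i1414 i1987 (k1 d414 k0))) (by decide +kernel)
def d992 : PP 8 4 T 0x1000000000000000800000002008400100000000000000049190400000006000000 := rS 0x2eabcbeb358b40b6bb35264d2378c9955a316422d6e8186144a6fd (k8 d374 i2415 i2248 d399 d465 d352 i2247 i623 (k8 i2717 i122 i1089 d11 i996 i1565 i2772 i1186 (k8 i1686 d154 d461 i1394 i664 i2423 i626 i2254 (k1 d341 k0)))) (by decide +kernel)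
def d993 : PP 8 4 T 0x1000000000000000800000002000020000000000000000001000000400004400000 := rS 0x582f68ab357ae9326b4e27d9e4f45a348441228622a9355bf4da9b168ec944d0001406c8 (k8 i623 d987 d989 d430 d69 d392 d825 i2652 (k8 i2808 i2450 d374 i123 i83 d350 d427 i478 (k8 i180 i1038 i2713 i2247 d836 d991 d992 d990 (k8 i1907 i1943 i1677 i625 i664 d376 i134 d414 (k1 i1393 k0))))) (by decide +kernel)
def d994 : PP 8 4 T 0x1000000000000000800000002002020040000000000000001000000000004000000 := rS 0x160bda2acd5eba4c9ad26fd (k8 d374 i83 i1907 i1943 i1677 i625 i664 d376 (k2 i134 d414 (k1 i1393 k0))) (by decide +kernel)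
def d995 : PP 8 4 T 0x1100000000000004200000000005000404004000200000001200000000004100002 := rS 0x212207723b34ea790b034b31748974944d (k8 d69 d392 d977 i1171 d61 i2406 i2296 i478 (k8 d284 i1064 i1831 d862 d273 d422 i2046 d387 k0)) (by decide +kernel)
def d996 : PP 8 4 T 0x1000000000000004800000202001020000000000000000001000000000004000000 := rS 0x31586c152b4d1a31198b8301722a1c2a5f3db46314382c5c6a675c8ed1e4a26a9c16000280c5ac863a7ccaada78457868 (k8 i1394 i1393 i3041 d437 i122 i1089 i1565 d228 (k8 i623 i2652 d987 d989 d430 i560 i1822 d69 (k8 d392 i2763 d825 i104 i546 d988 d61 d54 (k8 d447 d397 d34 d64 i645 i637 i1564 d995 (k8 i967 d427 d993 d982 i2717 i2713 d358 i365 (k4 i1517 d715 i1796 d262 k0)))))) (by decide +kernel)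
def d997 : PP 8 4 T 0x1000000000000000000000000000000200000000000000001000000000004000002 := rS 0xb864944d (k4 d69 d392 i2713 i2642 (k1 d427 k0)) (by decide +kernel)
def d998 : PP 8 4 T 0x1000000000000000800000002000020000000000000000001000000000004400000 := rS 0x88088b2282e2bd665f2da9c201342a056ebf58b1a189f4eb0d8a5127a2c2a55720185642208c4662e228622b052bc5d362d1a99d723b299289acf468000a03641b5faab (k8 i123 d374 i2450 i623 d987 d989 d430 d997 (k8 d991 d69 d392 i2415 d825 i104 i546 d988 (k8 i2652 i2808 d61 i2323 d54 d350 d427 i478 (k8 d993 d982 i2717 i180 i1038 i387 i1078 d468 (k8 d916 i2428 i2247 d836 i2248 d75 d470 d994 (k8 d992 d399 d986 d996 i1725 d352 d465 i1602 (k8 i219 d880 i337 i706 i2281 i2285 i460 d341 (k4 i444 i610 i258 d438 (k1 d401 k0))))))))) (by decide +kernel)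
def d999 : PP 8 4 T 0x4001000000000000004080000000005000400001501000000001200000000104100000 := rS 0x87489ec4d180853d0b10 (k8 d422 d387 d381 d880 d397 i484 d64 d348 (k2 i737 d826 k0)) (by decide +kernel)
def d1000 : PP 8 4 T 0x4001000000000000004000000000005000440001500000000009200400000104020000 := rS 0x43a44f626689710b10 (k8 d422 d387 i483 i472 i484 i1891 i1170 i737 (k1 d826 k0)) (by decide +kernel)
def d1001 : PP 8 4 T 0x1100000000000004200000000005000400000501000000001600015000004100002 := rS 0x916cd290439ae9c7b8c8458ec362885c80f8b8ec944d46a2c1a79 (k8 d284 i2296 i2292 d997 d69 d392 d825 d61 (k8 i598 d468 d25 d75 d470 d999 d1000 d262 (k8 d179 d397 d429 d478 d971 d995 d94 i2029 (k1 i227 k0)))) (by decide +kernel)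
def d1002 : PP 8 4 T 0x1100000000000004200000102005400404000500000000001200000000004118502 := rS 0x57acda09909a40d24a26a9c7ad203bf50acd8845cf27b (k8 d179 d284 d61 d422 d454 d387 d374 i2293 (k8 d442 d88 d359 d69 d392 d995 i2046 i345 (k4 d334 i1170 i664 i592 (k1 d533 k0)))) (by decide +kernel)
def d1003 : PP 8 4 T 0x1000000000000004800400102005400400000500000000041200000000004118502 := rS 0x7e862e8a2ae5984cb8b72d9a6268682b20da5325134bea71eb480efd (k8 d374 i2293 d442 d88 d359 i2431 d69 d392 (k8 i2415 i2450 i623 d54 d1002 d51 i1564 i778 (k8 i857 d418 i345 i2329 d533 i500 i626 d399 (k2 i1683 d353 k0)))) (by decide +kernel)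
def d1004 : PP 8 4 T 0x1000000000000004800400102005400400000500000000041600014000004100402 := rS 0x21d227b13344b810638386079829b4764a26a2c128566c422ec8 (k8 i623 d61 d422 d454 d387 i1388 i2292 d69 (k8 d392 d825 i2450 d54 d284 d1001 i983 i1691 (k8 d1003 i483 i472 i484 i1891 i1170 i738 i2046 k0))) (by decide +kernel)
def d1005 : PP 8 4 T 0x1000000000000000800000002004020000000000000000001000000000004000000 := rS 0x29f193ca44f6d02e84428bf4d8d4ce5f58a7516cf469b5564f5a9dc1a57829651e65569857315318cd46d20491ceb17039102c4a2682c0005018b590fd (k8 d374 i623 i2652 d987 d989 d430 i560 d69 (k8 d392 d998 i967 i2293 d61 i2646 d862 i1388 (k8 d442 d375 i1671 i97 d350 i104 i1391 i122 (k8 i1089 i2763 i2406 d54 i2323 i2296 d273 d324 (k8 i1389 i123 i2450 d997 d991 i2292 d994 d996 (k8 i2431 i546 d988 i2808 i1725 d1004 i136 i2327 (k4 i637 d179 i1171 d267 (k2 d34 d971 (k1 d397 k0))))))))) (by decide +kernel)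
def d1006 : PP 8 4 T 0x1000000000000000800000002000020000000000000000001000000000004000000 := rS 0x455e130aacda0bb35266329e1ea9d62d24e8240e8b239d4881667a34940b1d9340005018b5371736b21faab (k8 i123 d374 i623 i2450 d61 i2808 i2652 d987 (k8 d989 d430 d69 d825 i560 d392 d997 d991 (k8 d998 i967 i2646 d862 i2292 i2293 i1388 d994 (k8 d442 d996 d359 d88 d1005 d11 i2772 i1186 (k8 i1686 d461 i664 i2421 i1961 i626 i472 d533 k0))))) (by decide +kernel)
def d1007 : PP 8 4 T 0x1000000000000000800000000008020000000000000000001200000000004000002 := rS 0x9b4bd1532bb59340d9198ac1556c954a34c68b32858944d (k8 d69 d392 i478 i2641 i2292 d586 d997 d1006 (k8 i1100 i123 d54 d350 d11 d926 d461 i673 (k4 i1681 i1108 d355 i1373 (k2 i1182 d466 k0)))) (by decide +kernel)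
def d1008 : PP 8 4 T 0x11001000000000000000000000800000500000000000004000001000000000004000000 := rS 0x12f45 (k2 d355 i1373 (k1 d466 k0)) (by decide +kernel)
def d1009 : PP 8 4 T 0x10001000000000000000000000000000000000005000000000009200000000004080000 := rS 0x113488a0ba41 (k4 i22 i1844 i226 i1171 (k2 d386 d409 k0)) (by decide +kernel)
def d1010 : PP 8 4 T 0x11001000000000000000000000000800500000000000000000001000000400004000000 := rS 0x12f45 (k2 d377 i1898 (k1 d466 k0)) (by decide +kernel)
def d1011 : PP 8 4 T 0x1000000000000000000000540400000000000000000000001000000000004150540 := rS 0x78f0 (k2 d371 d533 (k1 d23 k0)) (by decide +kernel)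
def d1012 : PP 8 4 T 0x1001100000000000024000000141005400400000400000014001200000000004000542 := rS 0xab11662150f124897428a709accf66b4c9e423191d8bcc67532858944d (k8 d69 d392 i478 i2641 d281 d586 i1077 d825 (k8 d34 i472 i2648 i1108 i632 d179 d1008 d1009 (k8 d1010 d1011 i2327 i1171 d409 d51 d53 i2046 (k2 d454 i770 (k1 d438 k0))))) (by decide +kernel)
def d1013 : PP 8 4 T 0x1000000000000004800000400001020000000000000000001200000000004000002 := rS 0x206291c225c3416cd7134221d9abd4c1b686672f83432435a9d57e914bd14f2153dc61a29b4f95c0e51379ccef16328595eb104bf0c6615c965928f2513416a982c551a8b (k8 i2292 d997 d350 d54 d1006 i2413 d69 d392 (k8 i2763 i1100 i605 i104 i1391 d586 d450 d413 (k8 d455 d347 i478 i2641 d713 d78 i1093 i2644 (k8 d830 i479 i505 d1007 i1181 d1012 d461 d64 (k8 i637 d284 d277 d684 i1170 i1725 d281 d324 (k8 i41 i1038 i2297 i2431 i546 d447 i673 d701 (k8 i1990 d332 d333 i2046 d53 i1869 i1812 i2042 (k4 d418 d247 d248 d964 (k2 d260 i1503 k0))))))))) (by decide +kernel)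
def d1014 : PP 8 4 T 0x1100000000000000000000000000000002000000000114001000000000004000000 := rS 0xab11 (k2 d387 i1544 (k1 d438 k0)) (by decide +kernel)
def d1015 : PP 8 4 T 0x1100000000000002000000000000000000000000400014001000000000004000000 := rS 0xab11 (k2 d454 i770 (k1 d438 k0)) (by decide +kernel)
def d1016 : PP 8 4 T 0x1000000000000004800000000001020000000000000000001200000000004000002 := rS 0xc18ee461bc07ea569a8d4e1c441c1330c5e20cd85a34d3e268666a158a5d358f42281592dcf6393cd1630970aa45a2bf4da7ceab52b81cee3328c58de650b034be8ba1c14763505a35822f479ccb2c92782562af7e18c944d54c54c2b9 (k8 i104 i1391 d350 d1006 d69 d392 d586 d450 (k8 d347 d455 d413 d395 i1100 i605 i1093 i2763 (k8 i1077 i1518 d997 i2413 i2759 d825 d54 d447 (k8 i2292 i2431 i2297 i478 i2641 i2644 d713 d830 (k8 d379 d78 i479 i505 d324 d281 d1007 i1181 (k8 i1725 d1012 i1170 i637 d684 d461 d277 d284 (k8 d364 d64 d648 d1013 i1335 i2299 i1253 i634 (k8 i513 d964 d1014 d1015 i2046 d51 d478 i1564 (k8 d418 d467 i775 i674 d357 i1990 d313 i710 (k8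 i709 d155 i280 d42 i1381 i1421 d365 d715 (k4 d475 d351 d262 d39 k0))))))))))) (by decide +kernel)
def d1017 : PP 8 4 T 0x1000000000000000000000000000000008000000000500001080000000004000000 := rS 0xb713 (k2 d51 i2462 (k1 d418 k0)) (by decide +kernel)
def d1018 : PP 8 4 T 0x1100000000000004000000800005021405005500000014001000000000004000000 := rS 0x1ad98bf (k4 i1725 i2046 i634 d1015 k0) (by decide +kernel)
def d1019 : PP 8 4 T 0x1000000000000000800000800008020000000000000000001000000000006000002 := rS 0x136995db40d9198ac1556c954a34c66545908944d (k8 d69 d392 i1038 i2247 i2712 d586 d997 d1006 (k8 i1100 i123 d54 d350 d11 d926 d461 i1681 (k2 i1108 i1182 (k1 d1008 k0)))) (by decide +kernel)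
def d1020 : PP 8 4 T 0x1001000000000000020000000801000400000000000004000001000000000004000000 := rS 0x13319 (k2 d34 i1108 (k1 d1008 k0)) (by decide +kernel)
def d1021 : PP 8 4 T 0x1000000000000004800000800001020000000000000000001000000000004000002 := rS 0x1ed0e798c17da29b4fa14bb1546a3d228b3a95c8459829de2c650c05c8a632513592a9 (k8 d1006 i1100 d69 d392 d586 d1016 i967 d427 (k8 i2712 d713 d78 d54 i605 i1038 i2252 d281 (k8 i2247 i2799 i2763 d997 d350 i2255 d1014 d1019 (k8 i1181 d1020 i645 d461 d267 d1017 d64 d1018 k0)))) (by decide +kernel)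
def d1022 : PP 8 4 T 0x1100000000000014100000000001000002000001050004001080000000004000002 := rS 0xa020682e1acb29f46a2c944d (k8 d69 d392 i2247 d997 d926 i605 i1869 d1014 (k4 i2042 i443 i444 i3069 k0)) (by decide +kernel)
def d1023 : PP 8 4 T 0x1000000000000014800000000001020000000000000400001000000000004000002 := rS 0xc362b1d4e37140404e5c3c2150ecd5e9ec7298a2c612f43338ec6ab157bf06691189d56a778b15cb28f30ae62a635fa7cdab332c1592a946a2c84180b914944d (k8 d69 d392 d1016 i967 d427 i1038 i2247 d997 (k8 d1006 i1100 d54 i2712 d1021 i673 d926 i1453 (k8 d586 d350 i104 i1391 i2763 i605 i2252 d713 (k8 d78 d324 d281 i1041 i2799 d982 d450 d347 (k8 d455 i2759 d825 i546 d447 d684 d461 d277 (k8 d701 d364 d64 i1990 d332 d333 d1022 i2046 (k8 d267 i1766 i443 i444 i1044 i1912 i259 i1841 (k2 d156 d631 k0)))))))) (by decide +kernel)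
def d1024 : PP 8 4 T 0x1000000000000004800000000001020000000000000400001000000000004000002 := rS 0x2f68ac25b31502f0893354e396396cd6992e8dc2319680ec6a2f2993d62af7e18572332080c2a31289bcea572cc54e6634da7cdab332c1592a946a2c84180b914944d (k8 d69 d392 d1016 i967 d427 i1038 i2247 d997 (k8 d1006 i1100 d54 i2712 d1021 i673 d926 i1181 (k8 d586 i1093 d350 i605 i2252 d281 i1057 d830 (k8 i1041 i2428 i23 i180 d982 i104 i1391 d450 (k8 d347 d455 d395 i2415 i1077 i2759 d825 d1023 (k8 d34 i472 i2720 i2254 i1108 i632 d154 d880 (k8 d942 d1010 d1015 d418 d426 d46 d76 d341 (k4 i2035 d424 i1988 d664 k0)))))))) (by decide +kernel)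
def d1025 : PP 8 4 T 0x1000000000000004800000000001020000000000000000001000000000004000002 := rS 0xd34f61315e0378cb1c72d035844ba5e4f9b566313a95d16153290866180b9160a3b1aa341e592513592a9 (k8 d1006 i1100 d69 d392 i605 i597 d997 i2759 (k8 d825 d54 d1016 i967 d427 d982 i1038 i2712 (k8 i2428 i2247 i2252 d281 i1041 d1021 i673 d926 (k8 d1024 i143 i2281 i2423 i645 d942 d880 d34 (k4 i2720 d426 d76 i2035 (k2 d433 i1829 (k1 d467 k0))))))) (by decide +kernel)
def d1026 : PP 8 4 T 0x1000000000000000000000000000000000000000020000001000000000004000002 := rS 0xb864944d (k4 d69 d392 i2712 i2641 (k1 d427 k0)) (by decide +kernel)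
def d1027 : PP 8 4 T 0x1000000000000000800000000000020000000000000000001000000000004000002 := rS 0x9d67c58ca632513592a9 (k8 d1006 i1100 d69 d392 d586 d1026 d713 d385 (k2 d452 d1025 k0)) (by decide +kernel)
def d1028 : PP 8 4 T 0x1001000000000000000000000000400100000500044000000001041000010056080100 := rS 0x7186ad9422b (k4 i2085 i311 d129 d352 (k2 i802 d383 k0)) (by decide +kernel)
def d1029 : PP 8 4 T 0x1000000000000000800000000000020000000008010010001000000000004000000 := rS 0x565a9d17305 (k4 d54 i104 i1057 i1399 (k2 d281 i506 k0)) (by decide +kernel)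
def d1030 : PP 8 4 T 0x1101000000000000004100004000401101100500044150011011061000014016001108 := rS 0x6a36975169f0844a30f11f0ac76d109855421f (k8 i182 i311 d225 d1028 i1161 d716 i387 i2031 (k8 d27 d209 d683 d371 d11 d52 d368 i475 (k2 i2042 d287 k0))) (by decide +kernel)
def d1031 : PP 8 4 T 0x1000000000000000900400000000001100800000150008009000000000004000000 := rS 0x13ed1459acda5c593357acf4ec5a0a50 (k8 i505 d54 d354 d452 d385 i2902 i895 i1437 (k4 i1438 i674 i508 i2310 (k2 i512 d926 (k1 i2042 k0)))) (by decide +kernel)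
def d1032 : PP 8 4 T 0x8001000000000000000000000000000001004000200008000011020041020006000000 := rS 0xc41db1d8633678d47221 (k8 i1499 i2051 d446 d385 d379 d663 i2060 i2058 (k2 d658 i1842 k0)) (by decide +kernel)
def d1033 : PP 8 4 T 0x1000000000000000800000000000000000200000000418001000000000004000000 := rS 0xd66d422ce0ab4 (k4 i506 d54 i1335 i1402 (k2 i673 i1869 (k1 d310 k0))) (by decide +kernel)
def d1034 : PP 8 4 T 0x1000000000000000800000000000120000000200010000009000000000004000000 := rS 0x508741add7ecf4ec58ceb92690c3017188dd23110e93caa095a1c21a8d139a4b6a71e8340ed2200080a014097cc4508a9ccde568296592a9 (k8 d1006 i1100 i605 d54 d281 d1029 i1093 d350 (k8 i505 d830 i2433 d1033 d1027 d456 d430 i1046 (k8 d700 d49 i465 d88 d359 d147 i1584 i745 (k8 i1052 d41 d383 i506 i2891 i1539 i1390 i741 (k8 d400 i2800 i2725 i2724 i966 d427 i437 i51 (k8 i104 i546 d354 d452 d385 i1726 i802 d1031 (k2 i933 d1030 (k1 d1032 k0)))))))) (by decide +kernel)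
def d1035 : PP 8 4 T 0x1000000000000000800000000000020000000200010000009000000000004000000 := rS 0x1774f352fd3e6d68a2d7b454c1a51a5b312bca0568ad0d9e9d8b414ceb9398080a013796592a9 (k8 d1006 i1100 i605 d1029 d1027 d456 d430 i1093 (k8 i104 i546 d54 d354 d452 d385 d447 d350 (k8 d281 i505 i2324 d830 d147 i1052 i1584 d1034 (k8 d408 i1990 i1938 i2767 i674 d926 i1725 i2042 (k2 d429 i1946 (k1 d87 k0)))))) (by decide +kernel)
def d1036 : PP 8 4 T 0x1000000000000010800000040000220100000000110000001000000000004000000 := rS 0x1774f352fd3e8ba1a768a6d5eb3e2cc954c14ceb9 (k8 i104 i546 d54 d1006 i1100 d354 d385 i1990 (k8 i674 d408 d452 d447 i1938 d926 i1725 i2042 (k2 d429 i1946 (k1 d87 k0)))) (by decide +kernel)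
def d1037 : PP 8 4 T 0x1001000000000000000000000081000000000000000001000009000000000004000000 := rS 0xc6fd (k2 d347 i2306 (k1 d450 k0)) (by decide +kernel)
def d1038 : PP 8 4 T 0x8801100000000000000000004140004021004104100000454541000000000004000000 := rS 0x59214f25d67a3d3a77 (k8 d78 d452 d380 d385 d368 d404 d53 d341 (k1 d1018 k0)) (by decide +kernel)
def d1039 : PP 8 4 T 0x8001100000000000000020004140004021004104100000454541020000040004000000 := rS 0x26282e44c4ef1 (k4 d76 i745 d1038 d418 (k2 d419 i3072 (k1 i186 k0))) (by decide +kernel)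
def d1040 : PP 8 4 T 0x8001000000000000001820000140004021104104144004410401020000040004000000 := rS 0x853c968ae4f28bf20a615caa59e8f4e9dd6f15 (k8 d350 d648 d78 d452 d380 d385 d1006 i104 (k8 i1391 d54 d450 d830 d395 i505 d1039 i1807 (k2 i1812 i2046 k0))) (by decide +kernel)
def d1041 : PP 8 4 T 0x1000000000000000800000000000220100000000010000009000000000004000000 := rS 0x2908c2106ad446073f87cae270eb48a0700496c9e6251b95887b66a1d86c74fc60d0334e9dca67d078946ac1188e512a137964eab1409cc7a3745abcc31536af59f1664aa60a675c97c563b689012202028602e01 (k8 d1027 i966 d427 d456 d430 i2800 i1046 i2767 (k8 d716 i387 i645 i104 i546 d54 d1006 i1100 (k8 d354 d385 i1990 i674 d350 i1391 d1037 i1938 (k8 i2725 i1785 i1093 i1864 i1826 d1035 i605 d1029 (k8 i311 i2049 i2051 i2724 i1517 d446 i348 i340 (k8 i1598 i2415 d78 d452 d379 d1036 d461 d926 (k8 d228 i1829 i1564 i1831 d64 i2035 d75 i1654 (k8 d1040 d420 d147 i1348 i488 i487 d700 i741 (k8 i745 i1584 i182 i799 d49 i1576 i1398 i465 (k4 i744 d85 i2030 i208 k0)))))))))) (by decide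 +kernel)
def d1042 : PP 8 4 T 0x1000000000000000800000000000220000000000010000009000000000004000000 := rS 0x34d3d84c57831c4f1314844d6782ea30563b36a2da2bd19b3c620f1ac599305338dd22151c90004050c05c02af549857315 (k8 d350 i104 i1391 d1006 d1037 d1027 i966 d427 (k8 d456 d430 i1046 i2051 d225 i2800 i2725 i546 (k8 d54 i1100 d354 d446 i340 i2724 d385 d379 (k8 i1990 i2767 i1938 i674 d716 i387 d1041 d445 (k8 i1051 i1964 i1759 i187 d404 i1767 d880 d419 (k4 d76 d631 d433 i1829 (k1 d467 k0))))))) (by decide +kernel)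
def d1043 : PP 8 4 T 0x1000000000000000000000000000000000002000000100021000000000004800000 := rS 0x2fc4c725b (k4 i2465 d398 d404 d345 (k1 d418 k0)) (by decide +kernel)
def d1044 : PP 8 4 T 0x1000000000000000000000000001000000004000000000001000000000004202020 := rS 0x8767a7d22266222c6a0f63a1620752b9dc608f2cc5ccc792e90882160c914984b (k8 d456 d392 i2346 i228 d427 d440 d434 i2335 (k8 d1043 i521 d86 i2339 i874 i522 d448 i2334 (k8 i1587 d422 d387 i3010 i5 i354 i2374 i642 (k4 i636 i915 i1714 i1794 (k2 i738 d826 k0))))) (by decide +kernel)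
def d1045 : PP 8 4 T 0x1001000000000000000005000840014400010150000000001080002000004804140 := rS 0xb93fa94386f0507da677 (k8 d448 d359 i243 d442 i969 i558 i361 i720 (k2 i987 i2044 k0)) (by decide +kernel)
def d1046 : PP 8 4 T 0x2001000000000000000000001000040000400010100000000001080002000005004800 := rS 0x1727f37a9438774aa4ce273 (k8 d477 d361 d28 d350 d448 i558 i361 i1232 (k2 i720 i987 (k1 i2044 k0))) (by decide +kernel)
def d1047 : PP 8 4 T 0x22001000000000000080000000000000000000000000000000001005540000004000000 := rS 0x29c5a974d8bd3289 (k8 d83 d449 d423 d84 d405 d0 d359 i2034 k0) (by decide +kernel)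
def d1048 : PP 8 4 T 0x22401000000000000000400001010040000000010100000011001080102000005104020 := rS 0x40d1506b2160794e1d5b9fa1aab57ac4a6fc6982c120744a645e634795ca2a1278ec6e3d1fbc026112f16c2c4c259752e9b (k8 d84 d405 i2335 d456 d392 d427 i2465 d418 (k8 i2342 i266 d371 d27 d23 d9 i392 i2463 (k8 i2574 i2333 i2334 i874 d3 d423 d449 d83 (k8 i519 i262 d1046 d1047 d442 d412 d455 d347 (k8 d72 d276 i2037 i852 i720 d250 d479 i2034 (k4 d1011 i2916 d355 i1334 (k1 d357 k0))))))) (by decide +kernel)
def d1049 : PP 8 4 T 0x400000000001001000000000000000000000000000004000000000080000001080002000004004800 := rS 0xb94aa94c717 (k4 d86 i2357 i361 i1674 (k2 i987 d391 k0)) (by decide +kernel)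
def d1050 : PP 8 4 T 0x1001000000000000000000000000000000000000000000001000000200004000441 := rS 0x12d3 (k2 d0 i1264 (k1 d442 k0)) (by decide +kernel)
def d1051 : PP 8 4 T 0x1001000000000000000000000009000040048000000080000141080002000004154005 := rS 0x1fa18ba29ac94ed25bac412af5f98928b91682d26077ed0e2ea3 (k8 i2986 d86 d458 d72 i458 i1636 d1049 d1050 (k8 i986 d391 i1674 i3034 i539 i1349 i1354 i857 (k8 d442 d359 d1011 i662 i666 d399 i1683 d353 k0))) (by decide +kernel)
def d1052 : PP 8 4 T 0x1001000000000000000000000001000000000000000000000021080000000005000800 := rS 0x1c61a6f399483863 (k8 i2357 i558 i557 i837 i1232 d74 i798 d383 k0) (by decide +kernel)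
def d1053 : PP 8 4 T 0x1001001000000000000000001011000010400010140004000041000002000004800441 := rS 0x869bd7293388b4c077 (k8 d448 d450 d1050 i1279 i1281 i986 i968 d205 (k1 d383 k0)) (by decide +kernel)
def d1054 : PP 8 4 T 0x400000000000005001000000000000000400000014040010008001100004815101000002000004940420 := rS 0xbda2aed64835229cdcb80ea4ce3435b9fa1aaf58824a6fc3981c02a95093d6a7d881dd1e4c258fde011 (k8 i2342 d371 d27 d456 d392 i874 d448 d422 (k8 d67 d349 i2463 i2574 d989 i2 i519 i837 (k8 d1053 d412 d413 d455 d347 d276 i2037 i852 (k8 d100 i2467 i1638 i720 d391 d383 d250 i987 (k4 i1440 d1011 i1684 d355 (k2 i1413 d167 k0)))))) (by decide +kernel)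
def d1055 : PP 8 4 T 0x5001001000000000000400011154000010008010000000015141000002000004150540 := rS 0xb7291fe8493593054ed2 (k8 d442 d359 d384 d1011 i1509 d391 d100 i2037 (k2 i856 i662 k0)) (by decide +kernel)
def d1056 : PP 8 4 T 0x1000000000000000400001010000010000010000008015521000000000004000000 := rS 0x73 (k2 i836 d112 k0) (by decide +kernel)
def d1057 : PP 8 4 T 0x401000000000000000400000000000001000000000080010001080102000005104020 := rS 0xefd292c412b957988169555c550d4f4ba7e308b0080d525556a8ca2a127ad50a7d881d4ae7747c5cf27b4eb3c6ef009844bc5b0b130965d (k8 i2335 d456 d392 d427 i2465 d418 i2342 i266 (k8 d371 d9 i988 i1512 i2471 d1043 d86 i874 (k8 d448 i2334 i1587 d422 d67 d387 d349 i2463 (k8 i2574 i2333 i2986 i2934 d68 d989 i65 i2 (k8 i552 d409 i1714 d405 d971 d826 d1048 d1051 (k8 i1673 d1052 d1054 i539 i1405 i1349 i1354 d1056 (k2 d22 i454 (k1 d1055 k0)))))))) (by decide +kernel)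
def d1058 : PP 8 4 T 0x14001001000000000000000004500041014400000150000800001080002000004954541 := rS 0x29e9f432e8fc8237ae55c2d53ad4fb103bb3c6ef0 (k8 d371 d9 i988 d448 d422 d67 d349 d1045 (k8 d1050 d1011 i986 i968 i590 i2044 i926 i925 (k2 i1685 d478 (k1 d397 k0)))) (by decide +kernel)
def d1059 : PP 8 4 T 0x16001000000000000000400004010041000080000100000811001080002000005144020 := rS 0x3aa63f43556af29bf012b15981c1673449c5269731a54025728a849e165a9f62077479309611 (k8 i2342 d456 d392 i874 d448 d422 d67 d349 (k8 d427 i2463 i2574 i2333 i2334 i2 d350 d3 (k8 d407 d28 d361 d83 d477 d1046 i519 i553 (k8 i1885 i262 d1058 d412 d347 d72 d276 i2037 (k2 d1011 i720 (k1 d250 k0)))))) (by decide +kernel)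
def d1060 : PP 8 4 T 0x1001000000000000000400004000000000080000000084014101000002000004950420 := rS 0x3aa63f43556af58824a6fc599cc0e9500aa4aaad51a849eb53ec40ea77479309717 (k8 d86 d456 d392 i874 d448 i1587 d422 d67 (k8 d349 i2463 i2574 i2986 i2934 d68 d989 i2 (k8 i1674 i519 i837 i553 d1053 d412 d413 d455 (k4 d347 d72 d276 i2037 (k2 d1011 i720 (k1 d250 k0)))))) (by decide +kernel)
def d1061 : PP 8 4 T 0x1000000000000000000000148040000080000000000000001000000000004150500 := rS 0xa6692cc0efd (k4 d72 i458 i2378 d442 (k2 d1011 d359 k0)) (by decide +kernel)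
def d1062 : PP 8 4 T 0x401000000000000000000000000000000000000000000000001000100000004002020 := rS 0x29d66070ec34a49555ac412af3102e2a8a5ba651b19480553a130780d96a92aab5465150ad4fb103a95cee30479662e663d844bc5b0b064ba4222904984b (k8 d456 d392 d440 i2346 d434 i2335 i228 d427 (k8 i2465 d418 i2342 i2471 i521 d86 i2339 i874 (k8 i522 d448 i2334 i1587 d422 d67 d349 i2574 (k8 i2333 i2986 i2934 d68 d989 i2340 i65 i5 (k8 i266 i1512 d1044 d1057 d348 d367 d334 i2592 (k8 i915 d1059 d1052 d1060 i540 i1349 i1355 d1061 (k8 i1673 d1056 d74 i716 i454 i662 d250 d1011 k0))))))) (by decide +kernel)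
def d1063 : PP 8 4 T 0x401000000000000000000000000000000000000000000000001000000000004002020 := rS 0x53acc0e1d869492aab588255e6205c553ac57804d14b74ca3520158c8e0227b2f03c06cb549555aa368945425b5a9f620752b9dc608f2cc5ccc792e90882160c914984b (k8 d456 d392 i2346 i228 d427 d440 d434 i2335 (k8 d1043 i521 d86 i2339 i874 i522 d448 i2334 (k8 i1587 d422 d67 d349 i2465 i2574 i2333 i2434 (k8 i2986 i2934 d68 d989 i2340 i65 i5 d418 (k8 i2471 i2342 d1062 d364 i293 d409 d367 d334 (k8 i2592 i915 i267 d371 d76 i1511 d1059 d1052 (k8 d1060 i540 i1349 i1355 d1061 i1673 d1056 d74 (k4 i716 i454 i662 d250 (k1 d1011 k0))))))))) (by decide +kernel)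
def d1064 : PP 8 4 T 0x1000000000000000000000048040040080000000000000001000000000004110504 := rS 0x16213 (k2 i1882 i1885 (k1 d1061 k0)) (by decide +kernel)
def d1065 : PP 8 4 T 0x1000000000000014000000000001001444001500080040001000000000004000000 := rS 0x7b4fa162117 (k4 d86 d422 d387 i1714 (k2 d647 d826 k0)) (by decide +kernel)
def d1066 : PP 8 4 T 0x1000000000000000000001008040054484010152000000001000002000004910545 := rS 0x3f9bd72be16ab9fa77 (k8 d448 d72 d1064 d1050 i594 i986 i968 i1723 (k1 i2044 k0)) (by decide +kernel)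
def d1067 : PP 8 4 T 0x2001000000000000000000001000040000484010102000000001080002010005104020 := rS 0x1d869f9726f5e87da6a657aac12b15981c1673449c5269731a54027750858984b0884c069e (k8 i556 i65 i1882 i2344 d456 d392 d427 i2574 (k8 d448 i2 d350 d3 d407 d28 d361 d83 (k8 d477 d1046 i519 i553 i1885 i262 d1066 i593 (k8 d1011 d359 i242 i1985 i969 i1190 i2044 d205 (k2 i720 d479 k0))))) (by decide +kernel)
def d1068 : PP 8 4 T 0x1001000000000000000000000009000000080000002080000001000002000004110405 := rS 0x2bd620931251722d4981dfb438ba8d1a13 (k8 i1882 i76 i2986 d86 d458 d72 i458 i1636 (k8 d1050 i986 d391 i1674 i1349 i1355 i2364 d1061 k0)) (by decide +kernel)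
def d1069 : PP 8 4 T 0x1001000000000000000400000040000000080000000084014101000002010004910520 := rS 0xf298dcb159ad8e6072d930967b13bc02603 (k8 i65 i1882 d371 d38 i713 d456 d392 i2465 (k8 i519 i837 d1060 i553 i1823 d648 d1011 i969 (k1 i242 k0))) (by decide +kernel)
def d1070 : PP 8 4 T 0x1001000000000000000400000040000010080000000080414101000002010004910520 := rS 0x29a880759bf4a4b1311555aa15a9f620753ba3c984b8ba342603 (k8 i65 i1882 i76 d86 d456 d392 i874 d448 (k8 i1587 d422 d67 d349 i2574 i2934 d68 d1069 (k8 i1355 d1056 d22 i661 i454 d414 d1011 d377 k0))) (by decide +kernel)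
def d1071 : PP 8 4 T 0x1000000000000000000000000000000000000000000000001000000000004002020 := rS 0xe46303bf410af4aaac17154533d8a9d089b02a872fa4453123cb34fa855ac40ea4f2d944ba576885884194791482a334ab62e553b930b26b54b2ccc300192c020f (k8 i5 i2 d456 i65 i522 i521 i2340 d989 (k8 i2341 i2339 d392 d448 d68 d86 i2934 i2935 (k8 i2986 d440 i2346 i874 i228 d434 d427 i2434 (k8 i2334 i2335 i2333 i2465 i2463 i1587 d422 d349 (k8 d387 d67 d454 d1043 d1063 d386 d390 d10 (k8 d51 i635 i2039 i2344 i1643 i1522 d576 d1065 (k8 d1067 d1052 d1068 i1673 i593 d1070 d413 i3 (k2 i1349 d1053 (k1 i837 k0))))))))) (by decide +kernel)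
def d1072 : PP 8 4 T 0x1000000000000000000000000000000000000000000000001080000000005000010 := rS 0x1349616 (k4 d427 i438 i708 d392 k0) (by decide +kernel)
def d1073 : PP 8 4 T 0x1000000000000000000000000000000000000000000001001000002000006004008 := rS 0xb020 (k2 i1042 d645 (k1 i724 k0)) (by decide +kernel)
def d1074 : PP 8 4 T 0x1000000000000000000000048040040080000000000000001000100000004110500 := rS 0x16213 (k2 i1881 i1885 (k1 d1061 k0)) (by decide +kernel)
def d1075 : PP 8 4 T 0x6001000000000000090000400008005000040000000000000001004540100004000000 := rS 0x6ca72c99e8c4d4652e2f4ca254e3d (k8 d88 d359 d83 d449 d423 d407 d1047 i2034 (k4 d461 i1152 i1034 d397 (k2 i665 d389 k0))) (by decide +kernel)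
def d1076 : PP 8 4 T 0x1000000000000000000000000000000000000000000000001008000000004110100 := rS 0x26f1 (k2 d27 i216 (k1 d371 k0)) (by decide +kernel)
def d1077 : PP 8 4 T 0x2001000000000000010000000048041000000000000080000001000140100004110500 := rS 0x13e3b45afd2f17693f40e3f (k8 d1076 i458 d72 d442 d86 d407 i1722 d1074 (k2 d606 i1714 (k1 d1075 k0))) (by decide +kernel)
def d1078 : PP 8 4 T 0x2001000000000000010000000008041000004000000080555001000160100004112500 := rS 0x3329c6d67a2a329f1dbc0268d570fcd6998b8f5a4fd03a162469 (k8 i1623 d418 d53 i458 d72 d442 d88 d86 (k8 d449 i467 d1076 d1077 i1924 i1921 d371 d416 (k8 i1183 d1047 d461 i1978 i556 d397 i2039 d73 k0))) (by decide +kernel)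
def d1079 : PP 8 4 T 0x1000000000000000000000000008000000000000080000001000020000004020000 := rS 0x31cd8cf (k4 i133 i1713 i413 i476 k0) (by decide +kernel)
def d1080 : PP 8 4 T 0x1000000000000000004000000000000000000001000554001080000001004022000 := rS 0x6a (k2 d781 i468 k0) (by decide +kernel)
def d1081 : PP 8 4 T 0x1000000000000000000000000004000080000000000414021080000000004022000 := rS 0xc31d1b632251c8a46e798916c96452e8600af1 (k8 d393 d1071 d1072 d608 i41 i51 d726 d418 (k8 d404 i1043 d386 i234 i858 d52 i556 d426 (k2 i374 d1080 k0))) (by decide +kernel)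
def d1082 : PP 8 4 T 0x1000000000000000000000000000000000000000080410021080000000004122000 := rS 0x1b586c7358ed169f2e96c96452b9d46917728c40418029548e0f198044ad1 (k8 i653 i858 d69 i1610 i5 i26 i704 d1071 (k8 d1072 d430 d1073 d66 d86 d468 i1062 i530 (k8 i41 i51 d726 d608 d1079 d1081 d606 i547 (k4 i412 i1952 i476 d1080 k0)))) (by decide +kernel)
def d1083 : PP 8 4 T 0x2001000000000000000000000008040000000000000080410021080000000004102100 := rS 0xf11db111668669b6329c358446e39429e4531243b44ba5b25914ca8f2b9d46917728c430552383c662516bf4162f010140e01 (k8 d69 i458 d1071 d430 d423 i302 d72 d1050 (k8 i858 i1610 i5 i26 i704 d1072 d1073 d66 (k8 d86 d468 i1062 i530 i874 i1491 i41 i51 (k8 d726 d608 i653 d1017 d418 d386 d404 d53 (k8 i234 i1043 d1082 i467 d1078 d362 i1643 i1910 (k4 i2039 i1888 i1495 d606 (k2 d76 d426 k0))))))) (by decide +kernel)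
def d1084 : PP 8 4 T 0x2001000000000000000000000008041000040000000080000001000140100004110500 := rS 0x4651a3b57345323d693f40e3f (k8 d1076 i458 d72 d442 d88 d449 i658 d1077 (k4 d606 i1924 d1047 d461 k0)) (by decide +kernel)
def d1085 : PP 8 4 T 0x2001000000000000010000000008402000040000000000000001005140100004100000 := rS 0x1669a461b4769717a651319 (k8 d362 d83 d449 d423 d407 d606 i1643 d461 (k2 i2034 i665 (k1 i1034 k0))) (by decide +kernel)
def d1086 : PP 8 4 T 0x2401000000000000000000000008040001040000000080000001080040104004110108 := rS 0xa5e23a682707e2b538f5a40b17bf40e39 (k8 i195 i458 d72 d423 i302 d442 d88 d359 (k8 i897 d1076 d1084 d1085 i1160 d416 i255 d419 k0)) (by decide +kernel)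
def d1087 : PP 8 4 T 0x2001000000000000000000000008040001000000000080010021080000000004102100 := rS 0x762a688406e8b13c4cbc1816bf4162f010140e01 (k8 d69 i458 d1071 d430 d423 i302 d72 d1050 (k8 d1072 d1083 d10 i732 i552 i1044 d1086 i2282 (k2 i470 d606 (k1 i387 k0)))) (by decide +kernel)
def d1088 : PP 8 4 T 0x4001000000000000000000000000001000084000000500555001000120000004110000 := rS 0x3329c6d4f8ede0cf09c650b12 (k8 d418 d53 d52 i1881 i1978 d371 d416 i1183 (k4 i556 d397 i2039 d73 k0)) (by decide +kernel)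
def d1089 : PP 8 4 T 0x400000000000016001000000000000000000400000405000000000000000000001001540100004000000 := rS 0x4d8fd9cf04b8bd3289 (k8 d83 d449 d423 d407 d426 d397 d27 i1152 (k1 i2034 k0)) (by decide +kernel)
def d1090 : PP 8 4 T 0x400000000000006001000000001000000050000048005000000000000000000001001540100004000200 := rS 0x30de23e4dc614ebf4b8bd3289 (k8 d83 d449 d423 d407 i1722 i203 d1089 d84 (k4 i2034 d27 i376 d435 k0)) (by decide +kernel)
def d1091 : PP 8 4 T 0x6001000000001000010040000008045000040000002000000001000140100004110600 := rS 0xd352c607ebe46acd5cc5a7a647a3b (k8 d606 i1268 d449 d389 i1522 d1090 i146 i1924 (k4 i594 d197 d461 i1451 (k2 d1047 d696 k0))) (by decide +kernel)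
def d1092 : PP 8 4 T 0x2001000000001000010040000008041000404000100480555001000160100004110600 := rS 0x1de22cc369ed3e8b34c5d0b12 (k8 d418 d53 d86 i1623 d1088 i1714 d647 d1091 (k4 i2039 d454 i809 d422 k0)) (by decide +kernel)
def d1093 : PP 8 4 T 0x2001000000001000000040000008040000000000000490411021080060000006110600 := rS 0x532c1163f342ccdacd4e0e50a298921da25d2d92c8a8f2b9d44a2d7e81c023d (k8 i1268 d69 i458 d72 d1050 i858 i1062 i530 (k8 i874 i41 i51 d726 d608 i653 d1017 d418 (k8 d386 d53 i234 d1092 i1910 i1643 i665 i2039 (k4 d197 i1888 i1662 d1085 (k1 i1822 k0))))) (by decide +kernel)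
def d1094 : PP 8 4 T 0x2001001000000000010000000440000000000000000000000001005540100004000200 := rS 0x58d1534a74b8bd3289 (k8 d83 d449 d423 d407 i203 i2034 d56 i1298 (k1 d414 k0)) (by decide +kernel)
def d1095 : PP 8 4 T 0x2001000000001000000040000008051000040000000080800001000140100014110600 := rS 0xfc3504525734c7ebf598ecdad18bbf47a9f (k8 i1714 i1268 d72 d86 i658 d1091 d606 i665 (k8 i1721 d197 d1075 d1094 i589 i590 d74 i1435 (k1 d479 k0))) (by decide +kernel)
def d1096 : PP 8 4 T 0x2001000000000000010000000008002000040000000000000001001140100004100200 := rS 0x7eaf59bc1186d1da65fb19 (k8 d362 d72 d449 d606 i1643 d461 d426 i665 (k2 i1924 d27 (k1 d1094 k0))) (by decide +kernel)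
def d1097 : PP 8 4 T 0x2001000000000000000000000008040001000000000080010021080000000004112000 := rS 0x52f11d34138394589e265e1e8acd6c71b99542348bb9462182a91c1e3316bf4162f010140e010e8209e71 (k8 d361 i789 d1087 i1261 d69 i458 d1071 d430 (k8 d423 i302 d72 d1050 i1610 i5 i26 i704 (k8 d1072 d1073 d66 d86 d468 i310 i1491 i1005 (k8 i1688 i467 i897 i1268 d1093 d10 i732 i552 (k4 i195 d1095 d1096 i1160 (k2 d416 i255 (k1 d419 k0))))))) (by decide +kernel)
def d1098 : PP 8 4 T 0x2001000000000000000000000008040001000000000080010021080000000004102000 := rS 0x1d8a9165e688403005 (k8 d1071 d1072 d1097 i2282 d1082 i552 i470 d606 (k1 i387 k0)) (by decide +kernel)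
def d1099 : PP 8 4 T 0x2001000000000000000000000008040000000000000080010021080000000004102000 := rS 0x4426f1688a0748a480600a5d (k8 d608 d1071 d1072 d1098 i915 i1168 i1169 i145 (k4 d416 i215 i1835 d371 k0)) (by decide +kernel)
def d1100 : PP 8 4 T 0x1000000000000000000000000000000000000000000000001080000000004200010 := rS 0x2611 (k2 i136 i137 (k1 d224 k0)) (by decide +kernel)
def d1101 : PP 8 4 T 0x4001000000000000000000000000000000480000000500555001080020000006110000 := rS 0x6d66a70728514c490ed1 (k8 i145 d1017 d418 d386 d53 i234 d1088 i1910 (k2 i1643 i2039 k0)) (by decide +kernel)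
def d1102 : PP 8 4 T 0x4001000000000000000000000000000000480000000410155001080020000006110000 := rS 0x4de23a48178d2d1 (k8 i145 i1888 d1101 i552 i1168 d416 i215 d371 k0) (by decide +kernel)
def d1103 : PP 8 4 T 0x400000000000006001000000000000090400000014005000444400000000415141004540100004000000 := rS 0x523eac8feb55c33918be4d4647aa74b8bd3289 (k8 d83 d449 d423 d407 d359 d88 d1047 i2034 (k8 d1089 d461 d397 i1151 i1455 i1723 i1034 i1330 (k2 i2037 i661 k0))) (by decide +kernel)
def d1104 : PP 8 4 T 0x10001000000000000050000000000010141050405050001000001005540510004000000 := rS 0x1d86ad83ea613a6de08c (k8 d461 d426 i1033 d38 i2034 i242 d692 d352 (k2 i721 d479 k0)) (by decide +kernel)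
def d1105 : PP 8 4 T 0x1000000000000050400040014050141050405050001015541005540510404000000 := rS 0xfe7d0e2d61ab60fa993718 (k8 d1104 d84 i2034 i242 d692 d352 i887 d479 (k2 i1234 i720 (k1 i2037 k0))) (by decide +kernel)
def d1106 : PP 8 4 T 0x6001000000000000010400000014055001444405002000415141000140110404110540 := rS 0x26f11e2c4a6617e34d774f4b8bce299449cc763f (k8 d1076 d606 d477 d83 d449 d361 d423 d407 (k8 d389 i1681 d1103 d442 d396 d412 d455 d1105 (k2 d23 i1801 (k1 d371 k0)))) (by decide +kernel)
def d1107 : PP 8 4 T 0x4001000000000000002000000000000000400004100000000001000000000004000000 := rS 0xef11 (k2 d454 i809 (k1 d422 k0)) (by decide +kernel)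
def d1108 : PP 8 4 T 0x6001000000000000010400000014055001444000002000555141000140100404110500 := rS 0xfd86ac0dcb34dadc785330b4c0c97179c53289399ec76293ca0d0312a7abd763f (k8 d1076 i1681 i593 d389 d418 d46 d24 d404 (k8 d386 d606 d647 d477 d83 d449 d361 d423 (k8 d407 d1106 d1103 i1223 i454 d1105 i1784 i1257 (k4 i1254 i2045 d341 d356 (k2 d455 d399 k0))))) (by decide +kernel)
def d1109 : PP 8 4 T 0x1000000000000000000000000000000000000000000000001000000600006000008 := rS 0x386e (k2 i1039 i1040 (k1 d717 k0)) (by decide +kernel)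
def d1110 : PP 8 4 T 0x2001000000000000010000000040000000000000000000000001005540100004000200 := rS 0x166fd (k2 d413 i1427 (k1 d1094 k0)) (by decide +kernel)
def d1111 : PP 8 4 T 0x2001000000000000011000000004051001444000000480555141000140100404110400 := rS 0x37ade189b29c6164f11f0f5fa08579b0d3174fa5ce29939b2cc6ad499ec767941a050b12 (k8 d418 d53 d46 d24 d404 d606 d647 d28 (k8 i1621 d3 i545 d477 d449 d361 d407 i1714 (k8 d86 i1623 i2039 i593 d1108 d413 i1268 d1110 (k8 d27 d197 d426 i661 d84 d399 d290 d356 (k1 i2045 k0))))) (by decide +kernel)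
def d1112 : PP 8 4 T 0x2001000000000000000000000000000000000000000080400001080000000004012000 := rS 0xc5343c0db194e3350a3b3dc490ed1118dd2239459ad1e573a974b645329548e5131a84164f38aad46152c8946833728c62e41260b45e020092c3005 (k8 d1071 d1072 i2246 i1037 d430 d423 d1109 d392 (k8 i21 d86 i1506 d66 i1610 d468 d196 i462 (k8 d1100 i326 d1099 d361 i789 i302 i310 d3 (k8 i527 i26 i704 i75 i41 d726 d608 i1062 (k8 i530 i874 i467 d1102 i195 i915 i1005 i1569 (k8 i653 d1017 d418 d647 d606 d53 d1107 d1111 (k4 d362 i1643 d426 i2039 (k2 d76 i1495 k0)))))))) (by decide +kernel)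
def d1113 : PP 8 4 T 0x1001000000000040400001014010000000010000000015141000000000004000500 := rS 0x3f430a606 (k4 d442 i454 d399 i2037 (k1 d353 k0)) (by decide +kernel)
def d1114 : PP 8 4 T 0x4001000000000000000000002000000000400000110000000001000000000004000000 := rS 0xef11 (k2 d349 i807 (k1 d422 k0)) (by decide +kernel)
def d1115 : PP 8 4 T 0x2401001000000000090000000000000001040004000000000141004540100004000000 := rS 0x434a66e5bac8f08c4d4647aa74b8bd3289 (k8 d83 d449 d423 d407 d359 d88 d1047 i2034 (k8 d461 d409 i1034 i1932 i1073 i662 d356 d399 k0)) (by decide +kernel)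
def d1116 : PP 8 4 T 0x2401001000000000010400001014010001040004000000015141004540100004000500 := rS 0x10d299f00cd3 (k4 d1115 d442 d1113 i454 (k2 d394 d399 k0)) (by decide +kernel)
def d1117 : PP 8 4 T 0x2001000000000000090000000000000000040000000001000001004540100004000000 := rS 0x8c4d4647aa74b8bd3289 (k8 d83 d449 d423 d407 d359 d88 d1047 i2034 (k2 d461 i1033 k0)) (by decide +kernel)
def d1118 : PP 8 4 T 0x1002000000000040400001014050000000010000000015141000000000044000000 := rS 0xec34fc53 (k4 d412 i2037 d276 i720 (k1 d479 k0)) (by decide +kernel)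
def d1119 : PP 8 4 T 0x1002000000000040400001014050000000000000000015141000000000444000000 := rS 0x761a7c (k4 d1118 d394 i1234 d479 k0) (by decide +kernel)
def d1120 : PP 8 4 T 0x2001000000000000010400001014050001040004000000815141000140100404110500 := rS 0x81a2a687aa741c343cd35b94cc2fc1fa5c5e9944c4c4e3b (k8 d606 i732 d10 d83 d449 d423 d407 d1076 (k8 d1116 d396 d412 i852 d1117 d1119 d476 i1435 (k4 i243 i1308 i2034 d56 (k2 i1337 d357 k0)))) (by decide +kernel)
def d1121 : PP 8 4 T 0x2001000000000000010000000000010001040004000000800141005540100004000200 := rS 0x1f86a08a4d35744dfa1d (k8 i1261 d413 d10 d1110 d1115 i589 i590 d74 (k2 i1435 d479 k0)) (by decide +kernel)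
def d1122 : PP 8 4 T 0x2001000000000000010400001014050001040000000000855141000140140404110400 := rS 0x86078a6b7142c904f11f0f5fa081d9ee2627 (k8 i732 d10 d647 d606 d1120 d413 i1268 d1121 (k8 d27 d671 d197 d419 i151 i662 i256 d399 (k1 d476 k0))) (by decide +kernel)
def d1123 : PP 8 4 T 0x1000000001000020040000000000000000000000080000001000100000004100008 := rS 0x3169ef1619b0749c (k8 i658 i1160 i657 i1905 d416 d389 i1522 d435 k0) (by decide +kernel)
def d1124 : PP 8 4 T 0x2001000000000000000000000000000000000000000080000001080000000004012000 := rS 0x55ad49ead16a8c16a165944bc71498bcc6231b8ad22d11ca2cd68f2b9d4b225208d066312e930b6458b994aa4763808024b0c0540ae5 (k8 d66 d1071 d1100 d1072 i2246 i1037 d430 i1688 (k8 i26 i704 i75 d86 i41 d726 d392 d608 (k8 i1506 i1610 d468 i21 d196 i462 i1062 i530 (k8 i874 i467 d1102 i195 d1123 i915 i897 i1005 (k8 i1569 d3 d423 d28 d361 d1112 i527 i545 (k8 i310 i302 i326 d1109 i1621 i789 d1114 d1099 (k1 d1122 k0))))))) (by decide +kernel)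
def d1125 : PP 8 4 T 0x1001000000000000010000000000000040050001050000400801004540500004000000 := rS 0x236329a4c9b9670d (k8 d74 i661 d383 i1059 d485 d84 i1034 d461 k0) (by decide +kernel)
def d1126 : PP 8 4 T 0x1000000000000000000000000000000000000000000040001000000008004110000 := rS 0x26f1 (k2 d38 i1797 (k1 d371 k0)) (by decide +kernel)
def d1127 : PP 8 4 T 0x1001000000000000010000000008000000050505000000400001084560054006000540 := rS 0xfade18534b98ce695388f43aa717b4942fd288b5824f (k8 i702 i1514 i1119 i2249 d72 i820 d442 d358 (k8 d359 d42 d88 d649 i1098 i1091 i538 d684 (k4 d1125 d399 d352 d476 (k1 i2031 k0)))) (by decide +kernel)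
def d1128 : PP 8 4 T 0x1001000000000000010000000008000000040505000000400001080020014006110508 := rS 0x5c1894461030fd12a91b8ac723b7eb2c5ac1 (k8 i1514 i1119 i123 d72 d606 i195 i897 i1005 (k8 i1085 i190 d1076 d1127 i1223 i458 d450 i327 (k1 i1405 k0))) (by decide +kernel)
def d1129 : PP 8 4 T 0x1001001000000000010000000000010040050501050000400141005540554004000000 := rS 0x7d6f0c29a9c3ad2 (k8 d417 d42 d359 d1125 d399 d352 d476 i2031 k0) (by decide +kernel)
def d1130 : PP 8 4 T 0x1001000000000000010000000008010000040501000000400001081020514006110008 := rS 0x26a30b2788f8e24f0eb48c0974498d26734aaa46e2b1c8edfa51 (k8 i2249 d72 d606 i195 i897 i1005 i1084 i1098 (k8 i1091 i1636 i538 i359 d684 d450 d417 d42 (k8 i701 i1279 d1129 d27 d197 d426 i1431 d84 k0))) (by decide +kernel)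
def d1131 : PP 8 4 T 0x1001000000001000010000000008000000040000000080400001080020000006110408 := rS 0x92522a1a689170f546a104205067914c48825d261ec4e5b259145ac1 (k8 i1514 i1119 i41 i2246 d726 d1126 d647 d392 (k8 d608 i21 d418 d386 d404 d24 d46 d1128 (k8 i196 i2074 i1268 d1130 i92 d358 i199 d696 (k2 i576 i1364 k0)))) (by decide +kernel)
def d1132 : PP 8 4 T 0x1001000000000000000000000000000041010404000002800001004540500004000000 := rS 0xf3194d2655f13 (k4 d10 i590 i1021 d485 (k2 d84 i1074 (k1 d409 k0))) (by decide +kernel)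
def d1133 : PP 8 4 T 0x1001001000000000000000000100000001000805050002800001000000000004000000 := rS 0xae29ace189b37c622745 (k8 d457 d10 d409 i1440 d84 d383 i1431 d369 (k2 d414 i589 k0)) (by decide +kernel)
def d1134 : PP 8 4 T 0x1011001000000000010000000000000000040800050000000141000000000004000000 := rS 0x8ca35329a571b8a4b7 (k8 i151 d399 d383 i922 i1439 i1060 i1924 d84 (k1 d461 k0)) (by decide +kernel)
def d1135 : PP 8 4 T 0x1001000000000000010000000009000001050004000000800141004560500006000000 := rS 0xb24dabcde53861e16345411c4c097319cd2afd (k8 d72 i1098 i1091 i538 d684 d450 i1279 d1132 (k8 d457 i1295 d1133 d1134 d369 d356 i589 i1073 (k2 d414 i1431 k0))) (by decide +kernel)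
def d1136 : PP 8 4 T 0x1001000000000000010000000008000001040004000000800001080020000006110508 := rS 0x2514a6203185a62e1f93d12a91b8e476fd659445ac1 (k8 i1514 i1119 i2249 i123 d72 d606 i195 i1005 (k8 i1085 i190 i702 d1076 d1135 d358 i1015 d442 (k4 d450 i1379 i538 i1099 k0))) (by decide +kernel)
def d1137 : PP 8 4 T 0x1001000000000000010000000008000001040004000000800001080020500006110008 := rS 0x26a30b2788f89e1d69181126349a5552371c8edfa51 (k8 i2249 d72 d606 i195 i1005 i1084 i1098 i1636 (k8 i538 i359 d450 d417 d42 i701 d1135 d27 (k4 d197 d426 i1431 d84 k0))) (by decide +kernel)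
def d1138 : PP 8 4 T 0x1001000000001000010000000008000000040000000080000001080020000006110408 := rS 0x92522a1a6891728c105e16b05224c3d96c9645 (k8 i41 i2246 d726 d647 d392 i915 i1514 i1119 (k8 d1131 d1136 i2074 d1137 i92 d358 i199 d696 (k2 i576 i1364 k0))) (by decide +kernel)
def d1139 : PP 8 4 T 0x1000000000000000000000008000000000000000080000001080000000004012000 := rS 0x5ca4d2aa3171800e0aa1ab5a239459ad1e573a9644a411a0cc625d2616c8b17329548ec70100496180a815cb15 (k8 d1124 d66 d1071 d1100 d1072 i2246 i1037 d430 (k8 i1688 i26 i704 i75 d86 i41 d726 d392 (k8 d608 i1506 i1610 d468 i21 d196 i462 i1062 (k8 i530 i874 i467 d1102 i195 d1123 i98 d458 (k8 d1138 i4 i303 i302 i1648 i1018 i1281 i1138 (k1 d391 k0)))))) (by decide +kernel)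
def d1140 : PP 8 4 T 0x1801000000000000000000000000410080000000050000000001005000044014000000 := rS 0x4303c6f5b8a50681 (k8 d46 d24 d386 i1902 i1323 i2031 d383 d476 k0) (by decide +kernel)
def d1141 : PP 8 4 T 0x1000000000000010000000000000800040000000001000001000000000004000000 := rS 0x11b19 (k2 d84 i1033 (k1 d461 k0)) (by decide +kernel)
def d1142 : PP 8 4 T 0x1000000000000000000000000000000000000000080400001080000500004012100 := rS 0x1f6186f4c26cc2fc29a5d6a51659c47a070ea9da43f27a246e2b3d8eda23963809166b4795cea5912904683300b946317329548f1513854527941a06245b22974984b509cc3005 (k8 d1071 d1072 i1091 i310 i2246 d392 d608 i41 (k8 d726 d418 d46 d24 d404 d386 d1100 d1126 (k8 d1124 i26 i704 i75 d86 i1506 d66 i1037 (k8 i1610 d468 i21 d196 i462 i1062 i530 i874 (k8 i467 d1102 d430 i1688 i195 d1123 d606 d647 (k8 i897 i1005 i190 i702 d1076 d417 d359 d42 (k8 d49 d88 d649 i465 i439 d1114 d1140 d1125 (k8 d1129 d396 d1141 d485 i1059 d383 d394 d276 k0)))))))) (by decide +kernel)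
def d1143 : PP 8 4 T 0x1001000000000000010000000000010000050505040000400141005540554004000200 := rS 0x714bb48c6fd (k4 d413 i1348 d417 d684 (k2 d649 d1129 k0)) (by decide +kernel)
def d1144 : PP 8 4 T 0x1001000000000000010000000000000000040505000000400141005440554006000608 := rS 0xa462440e54273 (k4 i1091 i310 i195 d1143 (k2 i191 d646 (k1 d548 k0))) (by decide +kernel)
def d1145 : PP 8 4 T 0x1001000000000000010000000000000000040505000000400121005440554006000608 := rS 0xd3449c0c64e (k4 d1144 d420 i789 i191 (k2 d649 d417 k0)) (by decide +kernel)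
def d1146 : PP 8 4 T 0x1000000000000000000000000000000000000000080400001080000500004012400 := rS 0x31985129b2993e30b20ebc47c3d28bf410a91b8acf63b688e58e02459ad1e573a9644a411a0cc02e518c5cca5523c544e15149e506818916c300522974984b (k8 i2246 d392 d608 i41 d1071 d1072 d726 d418 (k8 d46 d24 d404 d386 d1100 d1126 d1124 i26 (k8 i704 i75 d86 i1506 d66 i1037 i1610 d468 (k8 i21 d196 i462 i1062 i530 i874 i467 d1102 (k8 d430 i1688 i195 d1123 d606 d647 i897 i1005 (k8 i1084 d1142 d413 i1310 i1268 d1145 d27 i1422 (k8 d197 d426 i701 i661 d84 d646 i1431 i1348 (k1 d450 k0)))))))) (by decide +kernel)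
def d1147 : PP 8 4 T 0x5001001000000000000400010011000010000000100001011121000000000006000400 := rS 0x882d0ee7d3fc30e6533115d1e4f (k8 i790 i874 i530 d450 d548 d337 d399 d353 (k4 d394 d540 d1056 d422 (k1 d349 k0))) (by decide +kernel)
def d1148 : PP 8 4 T 0x4001000000000000000000012000000000400000100000000001000000000004000000 := rS 0xef11 (k2 d349 i808 (k1 d422 k0)) (by decide +kernel)
def d1149 : PP 8 4 T 0x5001000000000000000400000015040010000000100000011121080000800406000400 := rS 0xfa84e6537e15da64f30ad5728f (k8 i874 i1138 d1148 i1015 i790 d358 i530 d1147 (k4 d412 i836 i819 i239 (k1 d1119 k0))) (by decide +kernel)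
def d1150 : PP 8 4 T 0x1000000000000000000000000000000000000000000000221080000000004000000 := rS 0xdc62 (k2 i527 i528 (k1 d530 k0)) (by decide +kernel)
def d1151 : PP 8 4 T 0x5001001000000000010400000015000001450004140004815141004540500004000000 := rS 0x7d3f94d6b0c38a08c097 (k8 d684 d450 d1132 i1279 d1134 d1114 d369 d353 (k2 d394 i2037 k0)) (by decide +kernel)
def d1152 : PP 8 4 T 0x5001001000000000010400000015000010050004100000811161004540500006000400 := rS 0x2e4c2622ba3d2273 (k8 i1091 i915 i874 i530 d1151 i74 i1405 d1147 k0) (by decide +kernel)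
def d1153 : PP 8 4 T 0x1000000000000000000002000000000000000000000000001010020000416000000 := rS 0x4311 (k2 d349 i727 (k1 d624 k0)) (by decide +kernel)
def d1154 : PP 8 4 T 0x21002000000000000400001000000000000000000000015001000000000004000000 := rS 0xfa53 (k2 d412 d394 (k1 d276 k0)) (by decide +kernel)
def d1155 : PP 8 4 T 0x1000000000000000400001014000010000000120000015541000000000004000000 := rS 0xfa7f (k2 i800 i1361 (k1 i2037 k0)) (by decide +kernel)
def d1156 : PP 8 4 T 0x1000000000000000000000000000000000000000080000001080000400004012100 := rS 0x2652e6e38c356ab74d94cc2fc658f40e1d53b487e4f56a2446511bc552aab3d8eda23963a2cd68f2b9d4b225208d066e518974985b22c5cca552385552732f0b416020092c3005 (k8 d1071 d1072 i2246 i1037 d430 i302 d1109 d1146 (k8 i1091 i1084 d1100 i26 i704 i75 d86 i41 (k8 d726 d392 d608 i1506 d66 i1610 d468 i21 (k8 d196 i462 i1062 i530 i874 i467 d1102 i1688 (k8 i195 d1123 d606 d647 d1139 i1673 d1124 i1005 (k8 d1150 i1569 i190 i1494 i702 d1076 d417 d359 (k8 d42 d49 d88 i465 d1152 d396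 d412 d1141 (k8 i852 d1153 d1154 d1155 d383 i1324 i1060 i2034 k0)))))))) (by decide +kernel)
def d1157 : PP 8 4 T 0x1000000000000000000000000000000010000000080000041084000400004012000 := rS 0x182ac691446f154aaacf63b688e58e8b35a3cae752c894823419b94625d2616c8b17329542aa92f0b416020092c30057eb2c1047 (k8 i26 d1156 i1388 d413 d1071 d1072 i2246 i1037 (k8 d430 i302 d1109 d1146 i1084 d1100 i704 i75 (k8 d86 i41 d726 d392 d608 i1506 d66 i1610 (k8 d468 i21 d196 i462 i1062 i530 i874 i467 (k8 d1102 i1688 i195 d1123 d606 d647 d1139 i1673 (k4 d1124 i1005 d1150 d417 (k2 d1152 d384 (k1 i1493 k0)))))))) (by decide +kernel)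
def d1158 : PP 8 4 T 0x1000000000000000000000000000000020000000000000141000000000006000408 := rS 0xa462 (k2 i191 d646 (k1 d548 k0)) (by decide +kernel)
def d1159 : PP 8 4 T 0x1000000000000000000000000000000000000000080000041080000400004012000 := rS 0x9a8c2c9e2601f18d12511bc5476d11cb1d166b4795cea59129046833728c4ba4c2d9162e652a91c2aa905808024b0c015fa08 (k8 d1156 d413 d1071 d1072 i2246 i1037 d430 i302 (k8 i1084 d1100 i26 i704 i75 d86 i41 d726 (k8 d392 d608 i1506 d66 i1610 d468 i21 d196 (k8 i462 i1062 i530 i874 i467 d1102 i1688 i195 (k8 d1123 d606 d1124 i1005 d1150 d1158 i1348 d1157 (k4 d450 d27 d197 d426 (k2 i1431 d84 k0))))))) (by decide +kernel)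
def d1160 : PP 8 4 T 0x1000000000000000000000000000000000000000080000001080000400004012000 := rS 0x69a243863270b40401258600b15 (k8 d1124 d1071 d1072 i2246 i1037 d430 d1109 d1159 (k4 d420 i701 i191 d42 (k1 d417 k0))) (by decide +kernel)
def d1161 : PP 8 4 T 0x1001000000000000000000000004040000000000100080011001080000800406000400 := rS 0x7d421d869c00e52542b4c31728930969544b4d96b9 (k8 i1138 i546 d358 i92 i1673 i2246 d392 d1150 (k8 d86 i1015 i1622 d1149 i574 i2268 i575 d74 (k4 i716 i820 i1356 d479 k0))) (by decide +kernel)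
def d1162 : PP 8 4 T 0x1000000000000000000000000000000000000000080000001080000000004012000 := rS 0x21a6f389cc9e520e180120a168b946ab8a9548e022c88cae75128d06601728c62e410c014984b (k8 i2246 d392 d1071 d1072 i21 d86 i1506 d66 (k8 i1037 i1610 d468 d196 i1062 i530 i1569 i462 (k8 d430 i26 i704 d1124 d1139 i1647 d1160 i15 (k8 d1161 i88 i303 i558 i557 i702 d372 i1279 (k2 i1231 d74 (k1 d383 k0)))))) (by decide +kernel)
def d1163 : PP 8 4 T 0x1000000000000000000000000000000000000000080000001080000000004002000 := rS 0x22c74911517852d1081644a3419974024c1892e2ee5208602a05 (k8 d1071 d1100 d1072 i21 d66 d86 i2246 i1506 (k8 d392 i1037 d608 i1610 d468 d196 i462 d1162 (k8 i2282 i1835 d1082 i470 i1169 i387 i552 d606 k0))) (by decide +kernel)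
def d1164 : PP 8 4 T 0x6001000000001000010040000008044000040000002000000001000140100004110400 := rS 0x8c574657c3d690fc12077ea64769d (k8 i1643 d606 d449 d72 i458 d1091 d1076 d442 (k4 d88 d1075 d1047 i1722 (k2 d461 i1924 k0))) (by decide +kernel)
def d1165 : PP 8 4 T 0x6001000000001000000440000010050000440000140500455021080160100404110400 := rS 0xdcb78626ca718593c47c3d7e8215eab4e9b13ecd42a0506791d9ee2487689752e992893ce291 (k8 i915 d361 i789 d1150 d449 d407 i443 i653 (k8 d1017 d418 d647 d606 d404 d24 d46 d53 (k8 d1107 i1183 i2039 i1643 d1164 i593 d1108 d413 (k8 i1268 d1110 d27 d197 d426 i661 d84 d399 (k2 d290 i2045 (k1 d356 k0)))))) (by decide +kernel)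
def d1166 : PP 8 4 T 0x2001001000000000090000000000000001040000000000800141004140100004100000 := rS 0xecf713 (k4 d10 i814 d606 d1115 k0) (by decide +kernel)
def d1167 : PP 8 4 T 0x401000000000000000000000000000001000000000000000001000800044004000000 := rS 0x52f1 (k2 d416 i255 (k1 d419 k0)) (by decide +kernel)
def d1168 : PP 8 4 T 0x6001000000001000000140000000000000000000000450011021080005400406110008 := rS 0x1e821a63f599b40efd551eda29f1dc4cbc3948a2d466956ad596348217456a13998ca2574793ce237058b44e5b25914ea25 (k8 i858 d124 i41 i51 d726 d1126 d1109 i302 (k8 i1005 d361 i789 i875 i529 d1150 d3 i1091 (k8 i310 i897 i443 d354 d468 d713 d1114 d12 (k8 d431 i326 d1102 i915 i195 d1165 d10 d1167 (k8 i1183 i1160 i814 d1122 d72 i458 d1164 i665 (k4 d197 d1166 d442 i1268 (k1 d1121 k0))))))) (by decide +kernel)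
def d1169 : PP 8 4 T 0x1000000001000002000000000000000000000000000000001000000005404000000 := rS 0x4311 (k2 d454 i729 (k1 d410 k0)) (by decide +kernel)
def d1170 : PP 8 4 T 0x1000000000000001000000000000000084000000450555001000000000004000000 := rS 0x349b50b12 (k4 d418 d53 i555 i1888 (k1 i2039 k0)) (by decide +kernel)
def d1171 : PP 8 4 T 0x1000000000000005000000000001000000000500450551021080000000004000000 := rS 0x8d8ca78f68b429e6248748b44ae8f (k8 i875 i529 i653 i914 d1017 d418 d404 d53 (k4 d1170 d647 i2046 d11 (k2 i1035 d461 k0))) (by decide +kernel)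
def d1172 : PP 8 4 T 0x1000000000000000000000000000000080000000000800001000000000006110000 := rS 0x13788e920d1 (k4 i145 i552 i1168 d416 (k2 i215 d371 k0)) (by decide +kernel)
def d1173 : PP 8 4 T 0x2001001000000000010000010008010001040000040040801141000001100004110508 := rS 0x3b4c7e95499c46e39 (k8 i195 i1005 d361 d28 d350 d1076 d1166 d206 (k1 d442 k0)) (by decide +kernel)
def d1174 : PP 8 4 T 0x401001000000000000000000000000000000000000000000141008000044004110000 := rS 0x86078a6b7142c904f1 (k8 d27 d671 d197 d419 i151 i662 i256 d399 (k1 d476 k0)) (by decide +kernel)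
def d1175 : PP 8 4 T 0x2001001000000000000000000000000000000000000000010021080000400004012100 := rS 0xb437c42190529b28c20655a84e69531aa526574782c6ab9698fda23b898ac7291459799a273ba759f1664b1c66751288dca651883cb64b229acba672a91c5a181b808024f389442a05 (k8 d1071 d1100 d1150 d361 i789 d69 d430 i1005 (k8 d1072 d1109 i26 i704 d1163 i443 i467 i41 (k8 i51 d726 i5 d1073 i1491 d66 d203 i858 (k8 d124 i1609 i1688 i463 d1168 d385 d452 d78 (k8 d1126 d1169 d1171 d1172 i915 i195 i897 d10 (k8 d1167 i1160 d1174 d1166 d43 d446 i302 i875 (k8 i529 d28 d425 d3 d350 i1091 i310 d1173 (k8 d442 i1223 d200 i454 d54 d399 d438 d356 (k2 d797 d349 k0))))))))) (by decide +kernel)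
def d1176 : PP 8 4 T 0x2001001000000000000000000000000000000000000000010021080000400004012000 := rS 0xf4103f509449e711b8b4727b688ed228b898acbccd139dd3acf8b3258e330a9d44a237299462020083cb64b0c0148a6b2e99caa47 (k8 i26 i704 d1163 i443 i467 i41 d1071 d1072 (k8 i51 d726 i5 d69 d430 d1073 i1491 d66 (k8 d203 i858 d124 d1100 i1609 i1688 i463 d1168 (k8 d385 d452 d78 d1126 d1169 d1171 i897 d10 (k8 d1172 i915 d1167 i1160 i814 i195 d1109 i1005 (k8 d361 i789 d1150 i310 d1174 d1175 i1268 d1121 k0)))))) (by decide +kernel)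
def d1177 : PP 8 4 T 0x2001000000000000000000000000000000000000000000010021080000400004012000 := rS 0x1d86ad43f10699f40ca4828fd940930ab5f8d11d8e5228b899799a775ca759f163a895ca332eb1cd62b509cd2a63499c4a25747b2446671b8b44e5b259142a65188080218029548e0f (k8 i5 i26 i704 d1071 d1072 d69 d430 d1073 (k8 i1491 d1100 i41 i51 d726 d1126 d1109 i1005 (k8 d1163 d203 i463 i875 i529 d1150 d361 d28 (k8 d3 d350 i1091 i310 i897 i467 i1688 i443 (k8 i1609 d66 i858 d124 d1168 d385 d452 d43 (k8 d78 d1169 d1171 d10 d1172 i915 i195 d1167 (k8 i1160 d1176 d360 d396 d413 d782 d1076 d54 (k8 i466 i465 i1328 d1117 d438 i1301 d349 d205 (k2 i1381 d479 k0))))))))) (by decide +kernel)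
def d1178 : PP 8 4 T 0x1000000000000000000000000000000000000000000000001010000002006000000 := rS 0x34 (k2 i348 d196 k0) (by decide +kernel)
def d1179 : PP 8 4 T 0x2001000000000000000000000000000000000000000000000021080000000004012000 := rS 0x5e59128600a41 (k4 i21 d1071 d1072 d1178 (k2 i462 d423 (k1 d1177 k0))) (by decide +kernel)
def d1180 : PP 8 4 T 0x1801001000000000010000000000010000050004040000400141004540544004000000 := rS 0x12e71149e50681538747ad2 (k8 d417 d88 d42 d359 d46 d24 d404 d386 (k2 d190 d1140 (k1 d1129 k0))) (by decide +kernel)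
def d1181 : PP 8 4 T 0x1801001000000000010000000001010000050004040000400141000140544004110000 := rS 0x604d98e3008593c47c3b (k8 d606 d1180 d27 d197 d1076 d426 i1348 d84 (k2 d450 i1431 k0)) (by decide +kernel)
def d1182 : PP 8 4 T 0x1801000000000000010000000000000000040004000000400141000000444006110008 := rS 0x1e862dcde984b9c47e9b04985f83d0ea9da4891ba84e6a9058b4527941a04723b (k8 d606 i195 d46 d24 d404 d386 d1109 i302 (k8 i1084 i1091 i310 i1005 d1158 d417 d359 d42 (k8 d88 d1181 d396 d413 d1141 d1076 d190 d1140 (k4 i2034 i1059 d648 d383 (k2 i2031 d476 k0))))) (by decide +kernel)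
def d1183 : PP 8 4 T 0x1001000000000000001000000000000000000000000450411021080000400006110008 := rS 0x7c3d0e0209c3b3da05067914a2e24876897456512b8dc4e5b25914162d (k8 d1109 i302 i41 i51 d726 d1126 i1005 i529 (k8 d1150 i897 i443 i653 d1017 d418 d1170 d386 (k8 d404 d24 d46 d647 d606 d1182 i702 i701 (k2 i1268 d1145 (k1 i1421 k0))))) (by decide +kernel)
def d1184 : PP 8 4 T 0x5001001000001000000400000010000000000000100000811061080005400006110108 := rS 0x156951a0dd522d1c9eda23b48a2e26272d92c8a2b4482ca23f (k8 d1076 d1150 i302 d1158 i897 i41 i51 d726 (k8 d1126 d10 d1172 i915 d1167 i1160 i814 i195 (k4 d1109 i1084 i1005 d468 (k2 i1098 d1136 (k1 d1152 k0))))) (by decide +kernel)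
def d1185 : PP 8 4 T 0x1001001000000000010000000001000001050000040004800141004540500004000000 := rS 0x4c2bd366f299e218b1411c4c0973da9c7ad2 (k8 d417 d88 d359 i814 d684 d450 i1279 d1132 (k8 i1295 d1134 d1133 d369 d356 i1073 i589 i2034 (k1 i1021 k0))) (by decide +kernel)
def d1186 : PP 8 4 T 0x1001000000000000000000000000000000000000000000061080000400004012100 := rS 0x220b4109fe187d29aacde62499de2c171995d1e373a9cd5239688ed228b899799a2372994620f359644a41339548e272d92c8a2b56b0596076922416518a8b404010c0fc2a05 (k8 d1071 d1100 d1076 d1072 d69 d430 d1109 d1179 (k8 d1150 i302 d1158 d417 d49 i465 d384 i1493 (k8 i897 i41 i51 d726 d1126 i26 i704 d1163 (k8 i21 d1178 i462 i467 i5 d1073 i1491 d66 (k8 d203 d1169 d1183 d10 d1172 i915 d1167 i1160 (k8 i195 i1084 i1091 d124 i1005 i875 i529 i1609 (k8 i8 d1184 d78 d480 d1185 i1319 i537 d548 (k4 d107 d399 d353 d644 (k2 i2037 d410 (k1 d349 k0)))))))))) (by decide +kernel)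
def d1187 : PP 8 4 T 0x1000000000000000000004000400400010004008000000001005540500004000000 := rS 0x13297 (k2 i1324 i1060 (k1 i2034 k0)) (by decide +kernel)
def d1188 : PP 8 4 T 0x1001002000000000000400000010000000000000104000015141010020400416000000 := rS 0x1c61ab54a9cca6ab (k8 d72 d412 i1091 i1098 d1153 d1154 d1155 d383 k0) (by decide +kernel)
def d1189 : PP 8 4 T 0x1001000000001000000000002000000000000000000000000001000010101404400000 := rS 0x4311 (k2 d349 d643 (k1 d410 k0)) (by decide +kernel)
def d1190 : PP 8 4 T 0x1000000000000000000000000000000000000000000000061080000400004012100 := rS 0x1c0fd0d5a9f526778b0d4deb74daaca6617e0fc2e332b8dcea731c9eda23b48a2e262b2f3344e5b2591446e5328c41e6b2c89482670a9548ea70e8f55ac16581da489059462a2d010043005 (k8 d1071 d1072 d69 d430 d1109 d1179 d1150 i302 (k8 d1158 d417 d49 i465 d384 i1493 d88 d42 (k8 d359 i26 i704 d1100 d1163 i21 d1178 i462 (k8 i467 i5 d1073 i1491 d66 d203 i41 i51 (k8 d726 d1126 d1169 d1183 i897 d10 d1172 i915 (k8 d1167 i1160 i814 i195 i1091 d124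 i1005 i529 (k8 i1609 i8 d1076 d1186 d396 d412 d72 d1141 (k8 i852 d1187 d1188 d468 d78 d480 d107 d1189 (k4 d1154 i2037 d383 i799 k0))))))))) (by decide +kernel)
def d1191 : PP 8 4 T 0x1000000000000000000000000000000000000000000000061080000400004012000 := rS 0x7e637e82112511b9cd520b168e5a23b48a2e265e8ab3446e5328c41e6b2c89482672a91c4e5b258608a15158080205 (k8 d1071 d69 d430 i897 d1100 i41 d1072 i51 (k8 d726 d1126 i26 i704 d1163 i21 d1178 i462 (k8 i467 i5 d1073 i1491 d66 d203 d1169 d1179 (k8 d1183 d10 d1172 i915 d1167 i1160 i195 d1109 (k8 i302 i1084 i1091 i1005 d1150 d1158 d1190 d413 (k2 i1348 d1174 (k1 d1185 k0))))))) (by decide +kernel)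
def d1192 : PP 8 4 T 0x1000000000000000000000000000000000000000000000021080000400004012000 := rS 0x34d121c319385a18010040b15 (k8 d1179 d1071 d69 d430 d1072 d1109 d1191 d420 (k4 i701 i191 d42 d417 k0)) (by decide +kernel)
def d1193 : PP 8 4 T 0x1001000000000000000000000000000000000000000000000041080000100004000808 := rS 0x434de71399483860 (k8 i303 i558 i557 d372 i1279 i1231 d74 d383 k0) (by decide +kernel)
def d1194 : PP 8 4 T 0x1001000000001000000000002000000000400000110000000001000000101404400000 := rS 0x6916 (k2 d1114 d1189 (k1 d44 k0)) (by decide +kernel)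
def d1195 : PP 8 4 T 0x1001000000001000000000012000000000400000100000000001000000101404400000 := rS 0x6916 (k2 d1148 d1189 (k1 d44 k0)) (by decide +kernel)
def d1196 : PP 8 4 T 0x1000000000000000900000000000000000000000050000001000000800004002000 := rS 0x1a4594905 (k4 d54 i466 d354 i365 (k1 d44 k0)) (by decide +kernel)
def d1197 : PP 8 4 T 0x1001001000001000040400000011000000400000100041015141000000101406000500 := rS 0xf90c5aa84a6b9559bcc417 (k8 i8 d450 i1319 i537 i1406 d548 i311 d1195 (k2 d399 d1113 (k1 d394 k0))) (by decide +kernel)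
def d1198 : PP 8 4 T 0x1001000000000000000000000000000000000000000000000061080000800004002100 := rS 0xb45c87d46a139aaca6fc56aa42e512ba3cea2372b4d9665189548e0f649644a182099cc20b168080205 (k8 d1071 d69 d430 i15 d1193 i1015 d1163 i21 (k8 d1072 d1178 i462 i613 i5 i26 i704 d1073 (k8 i1491 d1196 d358 d66 d203 d124 i875 i529 (k8 d1150 i8 i1085 i1494 d1197 d412 d72 i836 (k4 i819 i1647 i239 i1138 (k2 d1119 d1195 k0)))))) (by decide +kernel)
def d1199 : PP 8 4 T 0x1001000000000000000000000000000000000000000000000061080000800004002000 := rS 0x7e1a702907550a10410512d3 (k8 d358 i92 i21 d1198 i196 i199 i1261 i574 (k4 i575 d74 i1356 d479 k0)) (by decide +kernel)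
def d1200 : PP 8 4 T 0x1001000000000000000000000000000000000000000000000021080000800004002000 := rS 0x5980a64e (k4 d1199 i32 i790 i557 (k1 i1015 k0)) (by decide +kernel)
def d1201 : PP 8 4 T 0x1000000000000000000000000000000000000000000000021080000000004012000 := rS 0x5d15 (k2 d1179 d1192 (k1 d1200 k0)) (by decide +kernel)
def d1202 : PP 8 4 T 0x1000000000000000000000000000000000800000000500001080000000004000000 := rS 0xb713 (k2 d24 i2461 (k1 d418 k0)) (by decide +kernel)
def d1203 : PP 8 4 T 0x2021000000000000010000000000000001140401040001000001000000000004000000 := rS 0x7a8c26d2e714c9bd6e81 (k8 d465 d352 d356 d449 d361 d407 d1141 d461 (k2 i2045 d64 k0)) (by decide +kernel)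
def d1204 : PP 8 4 T 0x21000000000000080000000000010000000400000000000001005000054004000000 := rS 0x1d53add021f (k4 d476 d465 d352 d359 (k2 d42 i2031 k0)) (by decide +kernel)
def d1205 : PP 8 4 T 0x1000000001000060040100048101800000000000005000001000145000004000482 := rS 0x186cf1aa7d44c962bc2323b (k8 d825 d34 d426 d76 i2270 d696 d764 i1114 (k2 i1147 i329 (k1 i2035 k0))) (by decide +kernel)
def d1206 : PP 8 4 T 0x1001000001000061440000850011800000010002005015141000145000004000502 := rS 0x17f435dad156bd5281a8b4f (k8 d389 d355 d442 i1379 i1413 d1205 d1113 i1681 (k2 d55 i1456 (k1 d87 k0))) (by decide +kernel)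
def d1207 : PP 8 4 T 0x21000000000000000800000000010000000400002000004001085000054004002000 := rS 0x716aa751c4178a455c14aa472c894300520add021f (k8 d476 d465 d352 i21 d1071 d1072 d1178 i462 (k8 i26 i704 d54 i123 i466 i674 d438 i1647 (k4 i1985 d349 i2031 i1381 k0))) (by decide +kernel)
def d1208 : PP 8 4 T 0x2001000000000000000400000010000004000000000055000001000002000006004080 := rS 0x154a35cb252aa9 (k4 d425 d350 i983 i2718 (k2 i1651 i2040 (k1 i458 k0))) (by decide +kernel)
def d1209 : PP 8 4 T 0x2001001000000000000000000000000000000000000000404141080000100004012100 := rS 0x61a7d74355cb259e7a4d8c54acb4ed3cd8cd1183dca33339644ac73598cca5523a4d2a9738a6512ad379f56e8143abd0a6962ac96206698a624271f855422f1582c7af01c96e32d041c30a67330a4516451b9e51a5d0c014760020aa4944d (k8 d1201 d392 d425 i21 i437 d825 d1071 d1072 (k8 i443 d997 d267 i1043 i41 i2247 i1171 i2711 (k8 i2756 i566 d399 d1202 d1203 d34 d154 d942 (k8 d426 d23 i2382 i897 d423 i310 d1100 d1076 (k8 d1126 d418 d386 d1204 d442 i1227 d807 d76 (k8 i1495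 d53 i591 d1017 d465 d352 d394 d356 (k8 i1494 d83 d449 d361 d407 d350 d904 i26 (k8 i704 i1050 d586 i467 i1688 d1178 i462 d1163 (k8 i1609 d66 i5 i1569 d1169 i2039 d389 i1642 (k8 d1207 i1379 d1208 d1206 i2045 i1980 i672 d202 (k4 i1114 d745 i1685 i1945 (k1 i2035 k0)))))))))))) (by decide +kernel)
def d1210 : PP 8 4 T 0x2001001000000000000000000000000000000000000000400141080000100004012100 := rS 0xbb55279729d8b30c6a316788992cb2b2c96206698a58a3d8909de05b8cb4106373c83dca33339644a41638acc68b05a3cca5523a44769330a34e63900114ba95508bc30ad1f8540b0c29aa4944d (k8 d1201 d392 d425 i566 d399 d1071 d1100 d1076 (k8 i1494 d1072 d423 i310 d350 i443 i41 i437 (k8 d942 i2756 d997 i2711 d904 d825 i1171 i26 (k8 i704 i1050 d189 i2382 i2247 d586 i897 i1688 (k8 i21 d1178 i462 d1163 i1609 d66 i5 d267 (k8 i1043 d1202 d1203 d34 d154 d426 d1126 d418 (k8 d23 d76 d386 d1204 d442 i1227 d807 d1209 (k8 i2252 i2251 i442 d587 d1208 i1114 i250 d468 (k4 d452 d43 i2035 i2040 (k2 i1685 i666 k0)))))))))) (by decide +kernel)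
def d1211 : PP 8 4 T 0x2001000000000000000000000010000004000000000055014001000002000006004080 := rS 0x4119474 (k4 i1041 d1208 d281 d54 k0) (by decide +kernel)
def d1212 : PP 8 4 T 0x1000000001000060440000808004000000000000040000001000145000004000482 := rS 0x9d61b3c6a6c513258af08c8ed4abd (k8 i1413 i1379 d825 d34 d426 d76 i2270 d696 (k4 i665 i1114 i1147 i329 (k2 i1642 i2035 k0))) (by decide +kernel)
def d1213 : PP 8 4 T 0x1001000001000060440000810014000000010000040015141000145001404000502 := rS 0x43115a2ad4a06 (k4 d442 i1379 d1212 d1113 (k2 d349 i728 (k1 d410 k0))) (by decide +kernel)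
def d1214 : PP 8 4 T 0x1000000000000000800000000800000000000000500000001000000000004002000 := rS 0x1b69eba612915705 (k8 d54 i123 i466 i367 i368 d433 i1681 d467 k0) (by decide +kernel)
def d1215 : PP 8 4 T 0x1001000000000060400000800014000000010000000004141080001000004012100 := rS 0x23729548e33339644a416382c7200251348a5d568dc3005 (k8 d1071 d1072 i2720 i1494 i443 i41 d1201 d392 (k8 i437 d942 i2382 i1688 i21 d1178 i462 d1163 (k4 i1609 i26 i704 d66 (k2 i1569 d1213 k0)))) (by decide +kernel)
def d1216 : PP 8 4 T 0x2001001000000000000000000000000000000000000000000141080000100004012100 := rS 0x618d53acf11324ee5618b2d640658d15a669533147af04f8de329b66b40f0af2d978fa6f8603c66672c89482c73598c168f329548e3b499847200229752e9944a845e1829aa4944d568fc2a05 (k8 d1071 d1100 d1076 i1494 d1201 d392 d425 i566 (k8 d1072 d423 i310 d83 d449 d407 i443 i41 (k8 i437 d942 i2711 d904 d825 i26 i704 i1050 (k8 d189 i2382 d586 i467 i1688 i21 d1178 i462 (k8 d1163 i1609 i5 d399 d356 d394 d1210 i36 (k8 i2400 i646 i645 i890 i1073 d34 i2720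 d752 (k8 d426 d23 d76 i2034 i1495 d359 d377 i1822 (k8 d442 d414 d1214 d1208 d1215 i1627 i2251 i442 (k4 d587 i1858 i1114 i251 (k1 i2035 k0)))))))))) (by decide +kernel)
def d1217 : PP 8 4 T 0x2001002000000000000000000010000000000000000000004009080002000004002000 := rS 0x3280eb96483cce5912904c6652a91d2661000600a95 (k8 d350 d1071 d1072 i437 i2711 d904 i26 i704 (k8 i1050 d586 i21 d1178 i462 d1163 i5 i983 (k4 i2718 d1211 d782 i465 k0))) (by decide +kernel)
def d1218 : PP 8 4 T 0x11000000000000040000008000810000000000000000540001000000000004110000 := rS 0x1e148762427 (k4 d1126 d418 i721 d386 (k2 d479 i242 k0)) (by decide +kernel)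
def d1219 : PP 8 4 T 0x100000000100000000000a000000000000000000000000001000000001404000000 := rS 0x4311 (k2 d349 i2483 (k1 d410 k0)) (by decide +kernel)
def d1220 : PP 8 4 T 0x1002000000000040000008010010000000000000000004141080000000064002000 := rS 0x14aca5a88dca55239644a180290546ab (k8 d72 i1647 i21 d1071 d1072 d1178 i462 i26 (k4 i704 d66 i1569 d1219 (k2 d1119 i1381 (k1 i466 k0)))) (by decide +kernel)
def d1221 : PP 8 4 T 0x1002000001000000000000010000010000000000055008001080004000004400002 := rS 0x8b0c57035113259693 (k8 d904 i2252 i2251 i442 i1114 d782 i1572 d468 (k1 d43 k0)) (by decide +kernel)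
def d1222 : PP 8 4 T 0x2001000000000000010000000000000000000000000000000141080000100004012100 := rS 0x703e26149696cd3534346e3d3da0cf2b28c26cbe8b488ed1a731c914ba97549c53289508bc7e1558abcaefc56a54c2652a91cc6002513466670b8600ae5 (k8 d66 d1071 d1072 i8 d1163 i1609 d1201 d392 (k8 i437 d586 i26 i704 i1050 i2711 d350 i1494 (k8 d1216 d1221 d347 d455 d1100 d1076 d423 i310 (k8 d83 d449 d361 d425 d407 i443 i41 d942 (k8 i2756 d997 d825 i1171 i2247 i645 d1141 d461 (k8 d701 d267 d1202 d64 i1254 i1043 d1203 i2034 (k8 d1047 d692 d1218 i1806 i705 i242 i1915 d1220 k0))))))) (by decide +kernel)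
def d1223 : PP 8 4 T 0x1002000001000000500000010000010000000000055000001000005000004000002 := rS 0x8b2e06a93 (k4 d904 i1114 d782 d468 (k1 d43 k0)) (by decide +kernel)
def d1224 : PP 8 4 T 0x12001002000000000080000000010000000000000000000400141080040100004012000 := rS 0xfe7d5f2d6209f8bc1590cb03a9d1e7129aa55675188f69e9d3621624596689cb6151290446574a984ca631985dca55239acd2c5780ec7200251348a1802a1cba67 (k8 d1163 i443 d1017 d1071 d1072 i41 d1201 d392 (k8 i437 d942 d825 d426 d76 i1495 i467 i26 (k8 i704 d66 i8 i1609 d586 i1050 i2711 d350 (k8 d1221 i1569 i21 d1178 d1100 d154 d1126 d1169 (k8 i462 d418 d53 i2039 i1642 d389 d23 d1217 (k8 d124 d72 d425 i566 d361 d189 d359 d49 (k8 i465 d1223 d370 d61 i1186 d438 d1114 d1089 (k2 d67 i1723 (k1 i2037 k0))))))))) (by decide +kernel)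
def d1225 : PP 8 4 T 0x400000000000012001002000001000040400000010051000404000100455015541000145110404000002 := rS 0xbf539f83c7d5ac413f1782b212a71558f5e03b (k8 d825 d426 d23 d72 d361 d350 d1223 d370 (k8 d61 i1186 d438 d1114 d67 d1119 i2037 i242 (k2 i1723 d1089 k0))) (by decide +kernel)
def d1226 : PP 8 4 T 0x2001000000000000000000000000000000000000000000400141080000100004012100 := rS 0x716a1f884340ca482b29a69da79b10a298920d0e59358ad1ea11794d523f51aacea311eb344e5b0a89482232bbf15a9530994aa47318ccce17729a58af08c8dda03b1c800944d228600a5d (k8 i443 d1071 d1072 i41 d1201 d392 i437 d942 (k8 d825 d1222 i2720 d34 d426 d76 i1495 d66 (k8 i8 d1163 i1609 d586 i26 i704 i1050 i2711 (k8 d350 i1494 d1216 d1221 i1569 i21 d1178 d1100 (k8 d154 d1126 d1169 d23 d1217 d124 d72 i1647 (k8 d1076 d425 i566 d423 i310 d189 i897 i467 (k8 i462 d1017 d1202 d418 d386 d53 i2039 d389 (k8 i1642 d1224 d1225 d54 i466 i465 d1207 d438 (k4 i1301 d349 d479 i1381 k0))))))))) (by decide +kernel)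
def d1227 : PP 8 4 T 0x2001000000000000080000000000000000000000000000000141080000100004012100 := rS 0x5390cbf3f1f53a858bc156ac837209969a03a9cb29717a65123f0aaacea311195df8ad4a984ca552398c66670b89482e51ebc232373c2dca6a94f978763900114bad0251343005 (k8 d1071 d1072 d1201 d392 d1222 i443 i41 i437 (k8 d942 d825 d1226 d752 d425 i566 i852 i646 (k8 i2720 d34 d426 d23 d66 i21 d1178 i8 (k8 d1163 i1609 d586 i26 i704 i1050 i2711 d350 (k8 i1494 d1216 d1221 i1569 d1217 d124 d72 d1100 (k8 d1076 d83 d449 d423 d407 i462 d359 d49 (k8 i2034 i465 i1074 i1073 d1223 i1400 d370 d61 (k8 d1014 i1857 i1442 i2037 i1724 i925 d1089 d478 k0)))))))) (by decide +kernel)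
def d1228 : PP 8 4 T 0x1002000001000040400000010050150410002110055015541005145500404000002 := rS 0x9a418743d0d3ead6211782b2076ab (k8 d72 d825 d1223 d370 d61 d438 d1114 d67 (k4 d276 d1119 i45 i1435 (k2 d673 i1074 k0))) (by decide +kernel)
def d1229 : PP 8 4 T 0x2001000000000000000000000000000000000000000000000141080000100004012100 := rS 0x86874dcb54d07e20a7032920aca699e0bc69628f5e0378cb40ea311195d46ab7e3942e33339644a413598d1e652a91c76611c8008a5d4aa5ce29944a845e1829aa4944d568fc2a05 (k8 d1071 d1100 d1076 i1494 d1201 d392 d425 i566 (k8 d1072 d423 i310 d83 d449 d361 d407 d350 (k8 i443 i41 i437 d942 i2711 d825 i26 i704 (k8 i1050 d189 d586 i467 i21 d1178 i462 d1163 (k8 i1609 i8 d66 d1216 d72 i1647 d1221 i1569 (k8 d1217 d124 d1222 d34 i2720 d426 d23 d76 (k8 i1495 d1226 i646 d1227 d1228 d54 i466 i465 (k8 d1214 d438 i1301 i2034 d349 i1073 i1381 d356 (k1 d479 k0))))))))) (by decide +kernel)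
def d1230 : PP 8 4 T 0x12001000000000000000200010000000000000000000000404001084000100084012000 := rS 0xce4d1b14e6914b147b127816caa471d8e48a9717a6512cd35a160a59129050e373ca34004a269743005 (k8 d1071 d1072 i443 d1201 d392 i437 d997 d267 (k8 i1043 d1017 i21 d1178 i462 d370 d1014 i467 (k8 d1015 d83 d449 d423 d407 i41 d942 d825 (k8 i26 i704 d154 d426 d418 d23 d76 d386 (k4 i1495 i242 i2039 i2034 (k2 i672 i1151 k0)))))) (by decide +kernel)
def d1231 : PP 8 4 T 0x2011000000000000040200010140000000000400000000404001084000100084012000 := rS 0x16850b6530f5649b3db4630373c854c68b488ecc28d398e4004a26914ba97549c53289508bc3005 (k8 d1071 d1072 d423 i310 d83 d449 d361 d425 (k8 d407 i443 i41 d1201 d392 i437 d942 i2756 (k8 d997 i2711 d825 i1171 i2247 d586 d1100 d267 (k8 i1043 d1230 d34 d64 d84 d701 i1254 i2034 (k4 d692 i242 d1218 i1806 k0))))) (by decide +kernel)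
def d1232 : PP 8 4 T 0x2001000000000000000000000000000000000400000000800209004500100016100000 := rS 0x1e8dd36b2681e12e9944a845f0d (k8 d41 d423 i310 d83 d449 d407 i646 i645 (k4 i647 i1074 i2720 i1254 (k1 d673 k0))) (by decide +kernel)
def d1233 : PP 8 4 T 0x2011002000000000000400000040040000000400000000404001080000100084012180 := rS 0x183435c29590e519a547e15698c55a6149994aa4731800944d2c89482670c0141eb1 (k8 d455 i5 d1071 d1072 d1163 i21 d1178 i462 (k8 d1201 d392 i437 d586 i26 i704 i1050 d904 (k8 i2711 i1494 d1211 d49 d1100 d1076 d350 i1609 (k4 d66 d1223 i1379 d1231 (k2 d99 i1249 (k1 d475 k0)))))) (by decide +kernel)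
def d1234 : PP 8 4 T 0x12001000000000000000800000000000000000000000000404001084000100084012000 := rS 0x8bb2570cf5e268d8a7348a58a3d893c0b663329548e3b1c9152e2f4ca250e373ca34004a26afd9a6b42c14ba59128600a41 (k8 i21 d1071 d1072 d1178 i462 i443 d54 d1014 (k8 i467 d1015 i1454 d1201 d392 i437 d997 d267 (k8 i1043 d1017 d83 d449 d423 d407 i41 d942 (k8 d825 i26 i704 i1050 d586 d154 d426 d418 (k8 d23 d76 d386 i1495 i242 i2039 i2034 i674 (k4 i1152 i1417 i672 d43 (k1 d713 k0))))))) (by decide +kernel)
def d1235 : PP 8 4 T 0x2011002000000000000000000040040000000400000000404001080000100084012180 := rS 0x308d0a61eac936d18c29194b1079acc68b1d98472454b8bd5299448fc2a373ca34004a269743005 (k8 d1071 d1072 i443 d1201 d392 i437 d997 d267 (k8 i1043 d1100 d1076 d83 d449 d425 d423 d407 (k8 i41 d942 i2711 d825 i2247 d586 i467 i5 (k8 d455 d1233 i466 d1234 d34 d84 d701 i1254 (k4 i2034 d1214 i367 i1829 k0))))) (by decide +kernel)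
def d1236 : PP 8 4 T 0x2001000000001000000500000014000000000000000055000001000005000004000002 := rS 0x22cb81aa4d2aa9 (k4 d425 d350 d904 i1114 (k2 i2040 d468 (k1 d43 k0))) (by decide +kernel)
def d1237 : PP 8 4 T 0x1000000000000000000000200000000000000000000000201000000000084000080 := rS 0x132007812 (k4 i1228 i1227 i1315 i1308 (k1 i3051 k0)) (by decide +kernel)
def d1238 : PP 8 4 T 0x2011001000000000040400000144000000000400000000404001080001100084012100 := rS 0xa12e20ac8728ccce63329548e61001289a18568fc2a05 (k8 d1071 d1100 d1076 i1494 d1072 d1201 d392 i437 (k8 i2711 i26 i704 i1050 d586 d1163 i1609 d66 (k4 d1236 d370 d1231 d436 (k1 d99 k0)))) (by decide +kernel)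
def d1239 : PP 8 4 T 0x2001000000000000000000000000000000000000000000000041080000100004012100 := rS 0x308d0a61eac936d18c29194b17e8dcf25f18a8caed3418755eab0f01a1a500799cb225209acc68b329548e3b499851a39001289a450c1752a9717aa53289568fc2a05 (k8 d1071 d1100 d1076 i1494 d83 d449 d425 d423 (k8 d407 d350 i443 d1072 i41 d1201 d392 i437 (k8 d942 d997 i2711 d904 d825 i26 i704 i1050 (k8 i2247 d586 i467 i21 d1178 i462 d1163 i5 (k8 d1229 d41 i439 i440 i2249 i2250 i1230 i1438 (k8 d49 d779 i1647 d1211 d1232 d267 i1043 d1235 (k8 d1237 d1238 i466 d1234 d34 d84 d701 i1254 (k4 i2034 d1214 i367 i1829 k0)))))))) (by decide +kernel)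
def d1240 : PP 8 4 T 0x1000000000000000000000000000000000000000000000001000000200006000002 := rS 0xde17 (k2 i8 d950 (k1 i1039 k0)) (by decide +kernel)
def d1241 : PP 8 4 T 0x2001000000000000000000000000000000000000000000000001080000000004012100 := rS 0x13c5a00251343005 (k8 d1071 d1072 d1201 d392 i437 d1240 i702 d1239 k0) (by decide +kernel)
def d1242 : PP 8 4 T 0x2001000000000000000000000000000001140400040001500441110500040006110200 := rS 0xa07f1213a9de05b57c65a01f40ade181d54a845efd288f46e79 (k8 d267 i1043 i1268 i1310 d413 d423 i310 d425 (k8 i1261 d399 d352 d465 d476 d1203 d34 i591 (k8 d154 d426 i203 d1126 d418 d27 i2031 d386 k0))) (by decide +kernel)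
def d1243 : PP 8 4 T 0x1000000000000000000000440000140010000000001000001005540500004000200 := rS 0xb1a2a694efd (k4 d413 i203 i2034 d56 (k2 i1297 d414 k0)) (by decide +kernel)
def d1244 : PP 8 4 T 0x2001000000000000000000000000000001140000040001400401080500100006110200 := rS 0xf69b2db455c3f59a04de1c5b9386e833c914825d15a5c5ea938a65123d (k8 i1268 d83 d449 d361 d425 d423 d407 i897 (k8 i443 i21 i41 d267 d1202 i1043 d1242 i2456 (k8 i701 i1271 i1276 i1429 i1421 d1243 i591 i1922 (k2 d1141 d647 (k1 i2045 k0))))) (by decide +kernel)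
def d1245 : PP 8 4 T 0x2001000000000000000000000000000000000000000000000001080000000004012000 := rS 0x598fde0378cb415e5e1e820a6894caa45e970aa2d223b30a34e639229745a00251343005 (k8 d1071 d1072 d1201 d392 i437 d1240 i443 i41 (k8 d942 i2756 d997 i2711 d825 i1171 i2247 d1100 (k8 d407 d423 d425 d449 d83 i566 d1241 i1268 (k8 d1244 i2400 i645 d34 i2720 d426 d27 i1427 (k1 d1243 k0))))) (by decide +kernel)
def d1246 : PP 8 4 T 0x1001002000001000000400000010000800404400002055015141000005101404400002 := rS 0xfe7d5f4419d05642d52a7129aed5675 (k8 d124 d72 i1681 d412 i1447 i1182 d1194 d1223 (k4 d370 i672 d438 i1152 (k2 d67 i1723 (k1 i2037 k0)))) (by decide +kernel)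
def d1247 : PP 8 4 T 0x1001002000000000020000000000000400000000040004540141000000000004000000 := rS 0x4bd156cb329ac55f194caa50312 (k8 d418 d46 d374 i1108 d34 d347 d455 d412 (k4 d1020 d341 d424 i1902 (k1 d466 k0))) (by decide +kernel)
def d1248 : PP 8 4 T 0x1002000000000020400000010000000000000000000404101080000000004012000 := rS 0xb9648c12a9a5d9b0d28566b1624277816e320f7285c2a33339644a413598d1e652a91c7693309cc724527c545a87418dcf28d001289a5d0c0155623 (k8 i1569 d72 d1071 d1072 i443 d1201 d392 i437 (k8 d997 d267 i1043 d1202 d1017 d1240 d1245 d836 (k8 i41 d942 i2756 i2711 d904 d825 i26 i704 (k8 i1050 d189 d586 i467 i21 d1178 i462 d1163 (k8 i1609 d1100 i8 d66 i5 d34 d154 d426 (k8 d1126 d418 d76 d1169 d53 i1495 i2039 i1681 (k4 d1247 i1182 d1246 i983 (k2 i2718 d782 k0)))))))) (by decide +kernel)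
def d1249 : PP 8 4 T 0x1001002000001000000400000010000004020000040000015141000005000406000000 := rS 0x1dcfd165a9f46a700f1bca6ab (k8 d72 d412 d95 i230 i231 i359 d107 i1396 (k4 d468 i2037 d78 i799 k0)) (by decide +kernel)
def d1250 : PP 8 4 T 0x1001002000001000000400000010000444000001040000015141014505500406000000 := rS 0x1c0fd0d3bad62c353e9bc3a9869224ea17128dca6ab (k8 d72 d412 i1043 d1178 i8 d124 d1249 d417 (k8 d485 d42 i1059 d107 d1188 d468 d1189 d78 (k4 d276 i2037 d383 i799 k0))) (by decide +kernel)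
def d1251 : PP 8 4 T 0x1002000000000000400000000000000000000000000404101080000000004012100 := rS 0x379f9307da1c3513114a2d57274648d460974db441ee50b8ccce5912904c68b329548e3b49984e6392293e2a2d568fc2a373ca34ba180294c5ea9001289a23 (k8 i1569 d1201 d392 i437 d374 i1077 d412 d1071 (k8 d1072 i443 d997 d267 i1043 d1100 d1076 i1494 (k8 d1240 d1245 d836 i41 d942 i2756 i2711 d904 (k8 d825 i26 i704 i1050 i2247 d586 i21 d1178 (k8 i462 d1163 i1609 i8 d66 i5 d1248 d1141 (k8 d684 d1250 i17 i983 i1041 i2718 d1189 d782 (k8 d400 d748 d1154 d447 i1598 d485 d481 i1059 (k1 i1668 k0)))))))) (by decide +kernel)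
def d1252 : PP 8 4 T 0x1001000000000000000000000000000000000000000004000001000000500004000080 := rS 0x112d3 (k2 d49 i1340 (k1 d417 k0)) (by decide +kernel)
def d1253 : PP 8 4 T 0x1001002000000000020000000000010000000400044004500141114540540006110000 := rS 0x86348e289148f5351213bc0b719 (k8 d34 d154 d426 d1126 d418 d1247 d23 d386 (k4 i1444 i1447 d417 d383 (k1 d1204 k0))) (by decide +kernel)
def d1254 : PP 8 4 T 0x1002000000000000000000000000000000000000000400001080000000004012100 := rS 0x5b40acc4ecc5e30976c5a7adcd8bf3da7e8b1868a759f163ed0cde69188d528213f889925628b2c0e2f50aad5eb15494dca410b8cccec7358acc68b329548e3b309cc724527c545aad1f85506373ca34004a269743005 (k8 d1071 d1072 i443 d1201 d392 i437 d997 d267 (k8 i1043 d1202 d1100 d1076 i1494 d1240 d1245 d836 (k8 i41 d942 i2756 i2711 d825 i26 i704 i1050 (k8 i2247 d586 i897 i467 i1688 d1163 i1609 i8 (k8 i21 d66 d412 d374 d455 d347 d72 i819 (k8 i1077 d1252 i465 i439 d1251 i2251 i442 i1665 (k8 i1498 d1221 i1114 i1572 i2951 i1058 d447 i1598 (k8 d468 d385 d452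 d1253 d461 d277 d11 d64 (k8 i1725 i2042 d648 d389 i1522 i1681 d262 d87 (k4 i251 i1955 i1413 i1975 (k2 i705 d341 k0))))))))))) (by decide +kernel)
def d1255 : PP 8 4 T 0x1001001000000000000000000000000000004501002400014149005104454006000502 := rS 0x1d461101aae4fe7da1a9592be552f59e955751534bb4ba6512b5599b8a50d60b480ea11da4c5a375418cc34f (k8 d389 i2711 d586 d450 i1043 d1240 d904 d825 (k8 i310 d1252 d442 d384 d1204 d399 i567 i2438 (k8 i882 d95 i1059 i1323 i1682 d485 d56 i1178 (k8 i1182 i2792 i1986 i593 i594 i672 d167 d458 (k8 i1595 i1723 i1458 i1114 d481 d253 d400 i1041 k0))))) (by decide +kernel)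
def d1256 : PP 8 4 T 0x1001001000001000060440010810010400400010000040015141000145101404400502 := rS 0xaa5dad53c75 (k4 d124 d1213 d1195 i1686 (k2 d1113 i666 k0)) (by decide +kernel)
def d1257 : PP 8 4 T 0x1000000000000020000000000000000000000000000404001080000000004012100 := rS 0x156b5518d460b25bac4faa15794c0c6f4dae5a62e659b0d285408a59ac51ec484ef02dc65ca552385c66672c89482c7358ac168f1da4ce6392293c5aad1f8550e831b9e51a5d28aa1fa638a984004a268600a23 (k8 i1569 d1071 d1072 d1201 d392 i437 i2711 d1245 (k8 d586 d1254 d450 i2248 i443 d997 d267 i1043 (k8 d1202 d1017 d1100 d1076 i1494 d1240 d836 i41 (k8 d942 i2756 d904 d825 d189 i2382 i897 i467 (k8 i1688 i21 d1178 i462 d1163 i1609 i8 i26 (k8 i704 d66 d34 d154 d426 d1126 d418 d23 (k8 d76 d1169 d386 d46 d53 i1495 i2039 i2450 (k8 d1255 d358 i2779 i2802 i2733 i1078 d788 i592 (k8 i311 d107 i1227 d290 d341 d1256 i17 i1652 (k2 d1189 i458 (k1 d1113 k0))))))))))) (by decide +kernel)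
def d1258 : PP 8 4 T 0x1001001000000000000400001016000004000000040000015541000000000004000000 := rS 0x3f9f6186f (k4 i1056 d399 d107 d353 (k1 i2037 k0)) (by decide +kernel)
def d1259 : PP 8 4 T 0x1001000000000000010000000000000040040001040000400811004540500004000000 := rS 0x441c4dc4a (k4 d392 i567 i797 d1125 (k1 d95 k0)) (by decide +kernel)
def d1260 : PP 8 4 T 0x1001001000000000010000000400000440140000040000500151004500540006110000 := rS 0x224272dab930890fc30a6a11b9e4f718 (k8 d461 d64 d267 i1043 i310 d1259 d399 d476 (k4 i230 d485 d733 i1923 (k2 d1126 d418 (k1 d1180 k0)))) (by decide +kernel)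
def d1261 : PP 8 4 T 0x1000000001000000000002000100000000000000000000001000000001404000000 := rS 0x4311 (k2 d349 i728 (k1 d410 k0)) (by decide +kernel)
def d1262 : PP 8 4 T 0x1001001000001000000400000010015001404015000000015541100004801404000502 := rS 0x3350acf881d62c21188d4eea260b2686aa5aa9526d35c818ff0c (k8 d399 d353 i1078 i2779 d358 d904 i1379 d1261 (k8 d1113 d458 i2270 i1514 d696 d142 i1114 i1082 (k8 d204 d468 d124 d410 d385 d387 d454 i2046 k0))) (by decide +kernel)
def d1263 : PP 8 4 T 0x1000000000000000800000002000000000000000000000001000000000004000000 := rS 0x95 (k2 d1006 i624 k0) (by decide +kernel)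
def d1264 : PP 8 4 T 0x1000000000000000000000000000000000000000000404001080000000004012100 := rS 0xfaa1299bda62e3da7d3ab38c25d36d111b94aa471999cb225208ad160b47a447693398e48a4f16ab47e15439e51a5d28b2d50fd31c54c200251343005 (k8 d1071 d1072 d1201 d392 i437 i2711 d1245 d586 (k8 d1254 d450 d1263 i2248 i443 d997 d267 d1017 (k8 d1100 d1076 i1494 d1240 d836 i41 d942 i2756 (k8 d904 d825 i1171 d189 i2382 i2247 i897 i21 (k8 d1178 i462 d1163 i1609 i26 i704 d66 i1569 (k8 d1257 d1141 d684 d461 i663 d362 d11 d64 (k4 d1260 d358 i2733 d788 (k2 i311 d107 (k1 d1262 k0))))))))) (by decide +kernel)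
def d1265 : PP 8 4 T 0x1000000000000080000010000100004000040008000000001000015400004000000 := rS 0x12a89 (k2 d95 i1058 (k1 d787 k0)) (by decide +kernel)
def d1266 : PP 8 4 T 0x21000000000000080000000000010000000400000000540001004000040004110000 := rS 0x144484e3d (k4 d88 d1126 d418 d1204 (k1 d386 k0)) (by decide +kernel)
def d1267 : PP 8 4 T 0x1000000000000004040000000000000000000000100080001080054000806010002 := rS 0x61a7d8a298c0488a411da346217 (k8 i8 i1572 d997 d825 i21 i41 i706 d154 (k4 i1806 i1803 d11 i250 (k1 d262 k0))) (by decide +kernel)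
def d1268 : PP 8 4 T 0x1001001000000000000000010000100004000440000004540149000015540006110500 := rS 0x14e1a6f6901d423f (k8 d1076 i310 d1252 d442 d1265 d1266 i567 d399 k0) (by decide +kernel)
def d1269 : PP 8 4 T 0x1000000000000000000000000000000000000000000400001080000000004012100 := rS 0x14351a515698593056eb13eaed5e53031bd36d3170f5e0d08ca79868114b1624272da759f16348c5723552884fe2264958a2a87e8dd06797285c2a333389482c71598d160b1da4cc28d398e48a5d27c545a1802800944d (k8 d1201 d392 i437 d1071 d1072 d1240 d1245 d836 (k8 i443 i41 d942 i2756 d997 i2711 d904 d825 (k8 i2382 i2247 d586 i897 i1688 i21 d1178 d1163 (k8 i1609 d1100 i8 d66 d267 d1202 i1043 d1254 (k8 d450 i2248 d1264 i2251 i442 i1666 i1498 d784 (k8 i1114 i1139 i1572 i2951 d468 d385 d452 d1267 (k8 d1126 d418 i1576 d386 d46 i250 i2035 d11 (k8 d461 d426 d23 d1268 d358 i2802 i2733 i1078 (k8 d788 i592 i1686 d107 i1227 d290 i1573 d341 (k4 i664 i666 i1112 i1647 (k2 d447 d475 k0))))))))))) (by decide +kernel)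
def d1270 : PP 8 4 T 0x1001002000001000000400000010000104000002044000015141014545500416000000 := rS 0x1f8ee705ac592c354d9f42e53559d44a89 (k8 d1249 d1178 d124 d72 d412 i8 d107 i1073 (k8 d1188 d485 d468 d1189 i1856 d78 i2037 i799 k0)) (by decide +kernel)
def d1271 : PP 8 4 T 0x11001002000001000080400004010004100000006000040115149014145000406000002 := rS 0xa7b3d0cbf3f1f53a858bc1590824aa68dc893a894c66549984e62d1ebc0765317aa54e1d (k8 d42 d359 d374 i1077 d412 d825 d426 d23 (k8 d1240 i2756 i2711 d904 i1050 d586 d1178 d124 (k8 d1249 d1270 d1187 i1057 i1074 d1223 d370 d61 (k8 d1014 i1857 i1442 d944 i1724 i925 i1152 d478 (k1 d397 k0))))) (by decide +kernel)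
def d1272 : PP 8 4 T 0x1002000000000080000000000000000000000000000004001080000000004012100 := rS 0x3726cfc943ea256ab9101d19235183054e0f7285c66672c89482652a91d26613993d5a3f0a9e0f69f1ebc232371d8e48a5d55adca699681799651038bd5315168600a63001289a23 (k8 i1569 d1201 d392 i437 d586 d1071 d1072 d1240 (k8 d1245 d374 i1077 d1252 i439 i465 d1269 i645 (k8 i1108 d412 i852 d72 i443 i41 d942 d825 (k8 i2720 d34 d426 d23 d752 i813 i646 d1100 (k8 d1076 i1494 d836 i2756 i2711 d904 i26 i704 (k8 i1050 i21 d1178 i462 d1163 i1609 i8 d66 (k8 i5 d359 d384 d1271 i17 i983 i1041 i1042 (k8 i2718 d1189 d748 i1501 i2040 i2037 i2749 i1668 (k1 d1187 k0))))))))) (by decide +kernel)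
def d1273 : PP 8 4 T 0x1002000000000000000000000000000000000000000004001080000000004012100 := rS 0xc0ea886988dca55238ccce5912905267327ab4a6cb2881c5ea98a8b4300531800944d (k8 d1201 d392 i437 d586 d1071 d1072 d1240 d1245 (k8 d374 i1077 d1252 i439 i465 d412 i1494 d836 (k8 i2756 d904 i21 d1178 i462 d1163 i1609 i26 (k8 i704 d66 i1569 d1272 d417 d748 d1249 i1041 k0)))) (by decide +kernel)
def d1274 : PP 8 4 T 0x1000000000000001050000000004000400002000050058001080144000004400002 := rS 0xc3188d53acf11324ee3b (k8 d825 i1627 i2251 i442 d587 i1858 i1114 i1572 (k2 i251 i2035 k0)) (by decide +kernel)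
def d1275 : PP 8 4 T 0x1001001000001000020040010812405000400000040000015541000145101404400002 := rS 0x186cf1aae992aa5a9d526c57846476cb (k8 d1263 d825 d34 d426 d76 d904 d124 d1195 (k4 d1258 i2442 i666 i1114 (k2 i1147 i1944 (k1 i2035 k0)))) (by decide +kernel)
def d1276 : PP 8 4 T 0x1401001000001000021040000012404400400002000000015541004104401406000002 := rS 0xd94e552150f115a880e8351827564b94c2252e1f40c302e93398b58af08c8dc76cb (k8 d1263 d825 i2720 d34 d426 d76 d1240 i2756 (k8 d904 i8 d399 d465 d476 i1855 i230 d485 (k8 i2785 i1109 i1943 d1275 i17 i1041 i1042 d1189 (k4 d400 i1707 i1503 d1258 (k2 d97 i665 (k1 d389 k0)))))) (by decide +kernel)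
def d1277 : PP 8 4 T 0x1001001000001000000040000010004000400004000000815149004104401406000502 := rS 0x2d912b3371494ed2038b62678668f5e1191bb40769b5418cc2af (k8 i2400 i2711 d586 d450 i1178 d825 i645 i2720 (k8 d34 d426 d23 i890 i646 d10 d1240 d1252 (k8 d442 d359 d1276 i567 i2438 d95 d1187 i853 k0))) (by decide +kernel)
def d1278 : PP 8 4 T 0x1000000000000000000000000000000000000000000000001080000000004012100 := rS 0x288a659b093a31678d4eea260b2686aa3fad618b1529f54253031bd72d31732ca2a87e88caec51ebc06f194fb34f6d03c2bcb65e1fab5ca170a8ccce59129058e6305a3cca55238ed2661398e48a5d27c545a1802800944d (k8 d1201 d392 i437 d1071 d1072 d1240 d1245 d836 (k8 i443 i41 d942 i2756 i2711 d904 d825 i26 (k8 i704 i1050 d189 i2382 d586 i1688 i21 d1178 (k8 i462 d1163 i1609 d1100 i8 d66 i1494 d1076 (k8 d1269 i36 i2400 i646 i645 i813 i890 d752 (k8 d34 i2720 d426 d23 d76 d1274 i1569 d1273 (k8 d450 i2248 d1263 d1277 d358 i2779 i2733 i1078 (k8 d788 i311 d107 i1379 i1227 d399 d1261 d353 (k8 d1113 d458 i2270 i1514 d696 d142 i1114 i1147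 (k4 i1082 i1858 i2035 d1213 (k2 i328 d414 (k1 d377 k0)))))))))))) (by decide +kernel)
def d1279 : PP 8 4 T 0x1021000000000000000000000002000000100400000000500001114500540006110200 := rS 0x25d329b8c2bcb4b37ea846e795bb49121f (k8 d476 i230 d417 d352 d267 i1043 i196 d413 (k8 i1427 d1266 i1922 d154 i1178 d733 d405 d485 k0)) (by decide +kernel)
def d1280 : PP 8 4 T 0x1000000000000000000000002000000000000000000000001008540000004110000 := rS 0x6846164f1 (k4 d27 d197 d426 i663 (k1 d34 k0)) (by decide +kernel)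
def d1281 : PP 8 4 T 0x10001000000000000000000000000000000000000000000404001080000000004012000 := rS 0x181d62d105c9fd2a7da1a957acfa2aed7caaa7ab9346c34a5d0acd62c484ef02db94aa33339ad267350a8c8e3d0e88d0eb338ad4b22544a64dca760b48a50d1f8dcf2835418cc22f018e51a3b159742a45289049f1516bf4101802800944d (k8 d1201 d392 i437 d1071 d1072 d1278 d413 d1240 (k8 d1245 d836 i21 i1310 i41 d1100 i443 i897 (k8 d825 d997 d942 i1046 i198 i2711 d586 d450 (k8 d1202 d267 i1043 d1280 d1279 d399 d788 d384 (k8 d359 i567 i1059 d95 d1178 i462 i882 i797 (k8 i1427 d1017 i1569 i1261 i1268 i26 i200 i196 (k8 i2756 d904 i467 d1163 i1609 i704 d66 d154 (k8 d426 d1126 d418 d76 d1169 d53 d1140 i1495 (k8 i2039 d485 d1243 d389 i593 i594 i1682 d56 (k8 i2792 i1986 d167 d458 i1595 i1726 i1723 i1458 (k4 d481 d391 d400 d678 (k1 i1041 k0)))))))))))) (by decide +kernel)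
def d1282 : PP 8 4 T 0x1000000000000000000000000000000000000000000404001080000000004012000 := rS 0x3452f18294347e37419e42a2b458ed1a731c914ba4f168bc065120aa1fa0831c54c200251343005 (k8 d1071 d1072 d1201 d392 i437 i2711 d1245 d586 (k8 d1278 d413 d450 i21 i1310 i1046 i198 d1240 (k8 d836 i443 i41 d942 i2756 d997 d825 i2247 (k8 i897 d1100 d267 d1202 i1043 d1280 d1279 d399 (k4 d1281 d405 d34 d1259 k0))))) (by decide +kernel)
def d1283 : PP 8 4 T 0x1021000000000000000000000000000500000002000000000001004540500006000000 := rS 0x44a5c3e81 (k4 d465 d476 i1855 i230 (k1 d485 k0)) (by decide +kernel)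
def d1284 : PP 8 4 T 0x1001000000000000000000000000000000000000000000800151000100440006110202 := rS 0x1b92c5286a65663f1ba6c4e7b681e15f131da345aa87e98c9461 (k8 i2711 d392 d586 d413 d450 d1240 d997 d825 (k8 d10 i2400 i646 i645 i813 i732 i1178 i2720 (k8 d1174 i1427 d733 d1283 d399 d888 i567 i1324 k0))) (by decide +kernel)
def d1285 : PP 8 4 T 0x1000000000000000000000000000000000000000000000001080000000004012000 := rS 0x348dc52868c572351fa94427f113246e56419e4bea8288bdfa0827c545a3946985263b0198c004a268acba450b8546667128600a41 (k8 i21 d1071 d1072 d1178 d1163 i1609 d1100 i8 (k8 i41 i443 i897 d1201 d392 i437 d586 i1046 (k8 d825 d904 i2711 d997 d942 d1240 d1245 d836 (k8 d1278 d413 i198 i1310 d450 d1284 d267 d1202 (k8 d1282 i1043 i2251 i442 i1666 i1498 d784 d1280 (k8 i1114 i1139 i1572 d1279 d399 i567 d788 d1265 k0)))))) (by decide +kernel)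
def d1286 : PP 8 4 T 0x2001002000000000000000000100000000000000000000400101080000000006020002 := rS 0x10c0e9e5061f698f8ba065922da24a48a3476634baa53273508bcc2af (k8 d347 d396 d423 i310 d477 d449 d425 d407 (k8 d3 d825 d997 i2799 i1037 i472 i2247 d701 (k8 d958 d908 i474 d49 i1301 d1202 d267 i1421 (k2 d479 d1203 k0)))) (by decide +kernel)
def d1287 : PP 8 4 T 0x2001002000000000010000000100010001140401000000000101000000000004020000 := rS 0x3a1f698f80d0d5918d2ea94c9ccc2af (k8 d347 d396 d477 d449 d425 d407 d3 d701 (k4 d1203 i473 i474 d49 (k2 i1301 i1421 (k1 d479 k0)))) (by decide +kernel)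
def d1288 : PP 8 4 T 0x2001002000000000000000000100000000000000000000400101080000000004002000 := rS 0x1058b9a868c21d1b6328a468dcf31241a44ba652b93062396888c9602648041e552399cb2257896c2041508bc3005 (k8 d1071 d1072 d423 i310 i21 d1285 i1758 d393 (k8 d1178 i462 d1163 i26 i704 i5 d1286 i463 (k8 d430 i437 d203 i471 i1874 d1073 d392 i442 (k8 i1491 d608 i914 d1202 d418 d404 i1043 i1759 (k8 d1287 d52 i555 d426 d1080 i373 i1952 d44 (k2 d366 d354 k0)))))) (by decide +kernel)
def d1289 : PP 8 4 T 0x2001002000000000000000000000000000000000000000400001080000000004002100 := rS 0x65b24d8c335ac9a2312b974768d32a2c004a26818a00f729548e171999cb2250c014b64156ac4209531a5d52934c9855eab (k8 d72 d347 d396 d449 d28 d425 d407 d3 (k8 d350 d1285 i1762 i1494 i21 i1758 d1071 d1072 (k8 d1178 i462 d1163 i1609 i8 i26 i704 d66 (k8 i5 d1288 i439 i527 d392 i437 i2247 i1050 (k8 i1052 d825 d908 d1221 d1211 i472 d701 i2280 (k4 i1952 d1080 i2288 i2289 (k1 d1236 k0))))))) (by decide +kernel)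
def d1290 : PP 8 4 T 0x1000000000000000000000000000000000000000000800001000000000006120000 := rS 0x45344f03a260a8965d (k8 i143 i2281 i470 d392 i387 i388 i2282 d606 (k1 i1853 k0)) (by decide +kernel)
def d1291 : PP 8 4 T 0x2001000000000000000000000000000000000000000000100009080400000004002100 := rS 0x65b24d8c3358c564570eabd561e031421a794183dca451999cb22556ac52a634ba4d32737e97c2ad1488600a0045994aa474696c20413093ca6a9 (k8 d425 i566 i702 i1048 i21 d1285 i1758 i1052 (k8 i26 i704 i1050 i2247 i437 d1071 d1072 i1168 (k8 i472 d1100 d1290 d1289 d477 d449 d28 d407 (k8 d3 d350 i1762 i1494 d1178 i462 d1163 i1609 (k8 i41 d66 i5 d1202 d267 d1203 d399 i439 (k8 i440 i2249 i2250 i1230 d779 d701 d1211 i2280 (k4 i1952 d1080 i2288 i2289 (k1 d1236 k0)))))))) (by decide +kernel)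
def d1292 : PP 8 4 T 0x1000000001000010040000008000000040000000150000001000040000004020080 := rS 0x1ad92f1 (k4 d393 i2270 i2271 d207 k0) (by decide +kernel)
def d1293 : PP 8 4 T 0x1000000001000000400000014000000000050000000015541000000001404000080 := rS 0x168a5 (k2 i1379 i2037 (k1 d1261 k0)) (by decide +kernel)
def d1294 : PP 8 4 T 0x1000000000000000800000080800000000000000000000001000000000004022000 := rS 0x30974a4 (k4 i466 i626 i367 i3115 k0) (by decide +kernel)
def d1295 : PP 8 4 T 0x2001000000000000000000000000000000000000000000000009080400000004002100 := rS 0x16a752bc5d903165aac0ca6698fc3e7d3fc307a51638dd5c6d1409cb89b1c8b4a661469951e0b458001ee52295466672c894b6413491d5a4f5898d2e2f54a4ce29944bf4be150c015a210 (k8 d1285 i472 d1071 d1072 d1100 d1290 d1289 d83 (k8 d449 d361 d28 d425 d423 d407 d3 i1762 (k8 i702 i1494 i26 i1764 i21 i1758 d1178 i462 (k8 d1163 i1609 i704 i41 d66 i5 i437 i2247 (k8 i2382 d189 i1050 i1052 i1048 i566 d1240 i1873 (k8 d1141 d1291 i1766 i444 i2256 d908 i1044 i1687 (k8 i2250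 i1782 d399 d353 d394 d476 i256 d1117 (k8 i2034 d442 d1292 d1294 d1208 d1236 d61 i2251 (k2 i1064 d1114 (k1 i2037 k0)))))))))) (by decide +kernel)
def d1296 : PP 8 4 T 0x2001000000000000000500000094000400000000000011104001088000000004002000 := rS 0x17ec25c1b4ce591296c825f0805430054a98d5293 (k8 d28 d425 d3 d350 d1071 d1072 d1100 d1285 (k8 d1290 i21 i1758 d1178 i462 d1163 i593 i2040 (k2 d1080 i1457 (k1 i376 k0)))) (by decide +kernel)
def d1297 : PP 8 4 T 0x2001000000001000080100000080000400040000002150000001000445000004020000 := rS 0x5c8d54abe631ade29517a4d12d1 (k8 i472 d83 d28 d423 d350 d393 i147 i476 (k4 i594 d217 i412 i1457 (k1 d787 k0))) (by decide +kernel)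
def d1298 : PP 8 4 T 0x2001000000000000000000000000000000000000000001000001080400000004002100 := rS 0x17ec236aa87c3d6929d5c0759b2ca50d728ccd2ad27ac4c69754a6512737ea85a2912895ccec92c895060b168bcca31011548e0f46a2d37181b9e6245d2616c825f0abc47201258600a10 (k8 d1285 d1071 d1072 d1295 i1037 i1874 d393 d1100 (k8 d1290 i21 i1758 d392 d608 d418 d404 i1043 (k8 d426 d84 d52 i1759 i5 i26 i704 d430 (k8 d1073 i1491 d423 d1109 i302 d1202 d1178 i462 (k8 i613 d1163 i529 d1150 i1168 i472 i310 d1289 (k8 d477 d83 d449 d425 d407 d3 i1762 i702 (k8 i1494 i1764 i1609 d66 d1203 d399 i621 i661 (k8 i454 d701 i1913 d442 i1782 i2034 d1296 d1297 (k2 d1080 i1721 (k1 i376 k0)))))))))) (by decide +kernel)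
def d1299 : PP 8 4 T 0x2001000000000000000000000000000000000000000000000001080400000004002100 := rS 0x286ab82a917a6a6131cdaaea28f87ad259b2c0e604da2e3037329e45a0b18c4872026495cba012612da20f7295466672c895e25b209a48ead588bdfa5f080543005 (k8 d1071 d1072 d1100 d1285 d1290 d1289 d423 i1762 (k8 i1494 i26 i1764 i21 i1758 d393 d1178 i462 (k8 d1163 i1609 i704 d66 i5 i472 d1295 d392 (k8 i1037 d608 i529 i613 d430 i1874 d418 d1073 (k8 i302 d1109 d404 i1491 i1043 d426 d52 d84 (k8 d1298 i1223 i1392 i1431 d442 d88 d1047 d459 (k8 d414 d1297 i1687 d1080 d207 i1412 i375 d366 (k2 i586 d421 (k1 d436 k0))))))))) (by decide +kernel)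
def d1300 : PP 8 4 T 0x1000000000000000000000000000000000000000000000001080800000004002000 := rS 0x4162e6a1a308da5d32a28ae4c18b44464b01324020f2a91cce591296c825f080543005 (k8 d1071 d1072 d1100 d1285 d1290 i21 i1758 d1178 (k8 i462 d1163 i26 i704 i5 d825 i463 d430 (k8 i437 d203 i471 d1073 d392 i442 d606 i1491 (k8 d608 i555 d1080 i373 i1952 d44 d366 d354 k0)))) (by decide +kernel)
def d1301 : PP 8 4 T 0x1001002000000000010000000500000040140001000005100001080000000004020002 := rS 0x372615ea9 (k4 d374 d347 d701 d831 (k1 i1059 k0)) (by decide +kernel)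
def d1302 : PP 8 4 T 0x1001001000001000000000000012005205405005040000015541000015101404420000 := rS 0x2061c44d6cc5eaa8eecf5ac599675 (k8 d124 d1263 d468 d1189 d385 d78 d1258 i1990 (k4 i2046 i586 d454 i1952 (k2 d410 i730 k0))) (by decide +kernel)
def d1303 : PP 8 4 T 0x1000000000000000000000000000200000000000000104409080001008004002100 := rS 0x30cdacd8b8d0eae52a91c2e33339644a9156a1d0a9d4f9ed1e933994550fd598b516978c3c47229468dcf3122d904be150c01562d10818c01151d9849e23 (k8 i1569 i702 i1048 d1300 d1299 i437 d586 d1285 (k8 i472 i1762 d1071 d1072 d1100 d1290 i21 i1758 (k8 d418 d404 i1043 i1759 i1835 i234 d393 d426 (k8 d405 d52 d1240 d827 d1301 d450 i2248 i2756 (k8 d904 d189 d64 d11 d362 d53 d1017 i1494 (k8 i1168 d1178 i462 d1163 i1609 i8 i26 i704 (k8 d66 d124 d1302 d44 d1107 d845 i1954 d1080 k0))))))) (by decide +kernel)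
def d1304 : PP 8 4 T 0x1000000000000000000000000000000000000000000104009084000400004002100 := rS 0xaa352f56ac767b246a304c2244c1f8614c1ee50b99cb225348ad5a834d934ca5523a4ce65165aa046a11eb480e0b7eacc5a612798c008b4bc61e23914a346e798916c825f0a8600b1558b447610 (k8 d1285 d1300 i472 i1762 d1299 d1071 d1072 d1100 (k8 d1290 i21 i1758 d418 d404 i1043 i1759 i1835 (k8 i234 d393 d426 d405 d52 i437 d586 i702 (k8 i1048 d1240 d827 d1301 i2382 d1252 d442 d88 (k8 i310 i1569 d450 d1263 i2248 i2756 d904 i26 (k8 i704 i1050 i51 d84 d1202 i1494 i896 i1764 (k8 d1178 i462 d1163 i8 d66 i5 d1259 d399 (k8 d476 d1204 i230 d485 d1303 i17 i983 i2719 (k4 i1692 d1189 i1990 d207 (k2 d1258 i586 k0)))))))))) (by decide +kernel)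
def d1305 : PP 8 4 T 0x1000000001000002000000000000000000000000000111001000000001404020000 := rS 0x611ac4111 (k4 d454 d410 d287 i730 (k1 i1952 k0)) (by decide +kernel)
def d1306 : PP 8 4 T 0x8001000000000000001000000000005001405005100000000001000000000004000000 := rS 0xeecf (k2 d385 d78 (k1 i2046 k0)) (by decide +kernel)
def d1307 : PP 8 4 T 0x1001000000000000400000010000000400000000000104001088001000004002002 := rS 0x50d56a45ec14d4c263b20da348b9d4666748a1d0a9d4f9ee30373cc48b65f0a8ede23914b3446102c8943005209548ee5 (k8 d66 i26 i704 i21 d1071 d1072 d1178 i462 (k8 d1285 i1569 d1305 i1835 i234 d393 d1300 d1100 (k8 d1290 i1758 d418 d404 i1043 d426 d64 d11 (k8 d362 d53 d1017 i1168 d1163 i1609 d124 d1306 (k8 d468 d845 i1114 i412 d1080 d776 d370 i1412 (k4 i375 i586 d421 d436 k0)))))) (by decide +kernel)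
def d1308 : PP 8 4 T 0x1000000000000000000000000000000000000000010100001080002000004002000 := rS 0xd511639d1920f72954ce59129a48ed145c606e798916c825f0a8ede239148403005 (k8 d1071 d1072 d1285 i1835 i234 d393 d1300 d1100 (k8 d1290 i21 i1758 d418 d404 i1043 d426 d52 (k8 i472 i26 i1764 d1178 i462 d1163 i704 d66 (k4 i5 i983 i1041 i1692 (k2 d400 d207 (k1 d287 k0)))))) (by decide +kernel)
def d1309 : PP 8 4 T 0x1000000000000000000000000000000000000000000104009080000000004002100 := rS 0x1f5425337b4c5c3f11b948a33339644a9156a1d3a9f3d82d1e933994596a87eacc5a8b4bc61e23914a346e798916c825f0a8600ab168840c6008a8ecc24f18994aa47 (k8 i26 i704 i1050 d1308 i702 i1048 d1300 d1299 (k8 i437 d586 d1285 i472 i1762 d1071 d1072 d1100 (k8 d1290 i21 i1758 d418 d404 i1043 i1759 i1835 (k8 i234 d393 d426 d405 d52 d1240 d827 d1301 (k8 d450 d1263 i2248 i2756 d904 d189 i2382 d64 (k8 d11 d362 d1017 i1494 i1168 d1178 i462 d1163 (k8 i1609 i41 d66 i1569 d1307 d1304 d358 i2733 (k4 d788 i311 d107 d1262 k0)))))))) (by decide +kernel)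
def d1310 : PP 8 4 T 0x1000000000000000000000000000000000000000000100009080000400004002100 := rS 0x4407d2b0c5f14d5c6f60b494607728cc1693189fd4a5110914d86b34b3d1e591299cca5523a753e355cb24aca87eacc5a8b4bc61e23914a346e798916c825f0a8600ab168840c6008a8ecc24f (k8 i702 i1048 d1300 d1299 i437 d586 d1285 i472 (k8 i1762 d1071 d1072 d1100 d1290 i21 i1758 d418 (k8 d404 i1043 i1759 i1835 i234 d393 d426 d405 (k8 d52 d1240 d827 d1301 d450 d1309 i2251 i1139 (k8 i1114 d11 d362 i26 i704 i1050 d1163 d1178 (k8 i462 d189 d587 i1764 i2253 i2042 i41 i1498 (k8 i2248 d784 i1666 d1308 d904 i2382 i1609 d66 (k8 d1252 i1648 d442 d384 d1265 d831 i567 i594 (k4 d399 i1725 d476 d665 (k1 i230 k0)))))))))) (by decide +kernel)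
def d1311 : PP 8 4 T 0x1000000000000000000000000000000000000000000100009080000000004002100 := rS 0x2b80c6f171b19ec935958ca8f00154ce59129a48ed18aa353a9f45c606e798916c825f0a8ede239148403005 (k8 d1071 d1072 d1285 i1835 i234 d393 d1300 d1100 (k8 d1290 i21 i1758 d418 d404 i1043 d426 d52 (k8 d11 d362 i1759 d1299 i472 i26 i1764 d1178 (k8 i462 d1163 i704 i437 d189 i1050 d1309 i2253 (k8 i2251 d587 i2042 d1310 i2733 i1078 d831 i2273 k0))))) (by decide +kernel)
def d1312 : PP 8 4 T 0x1000000000000000000000000000000000000000000100001080000000004002100 := rS 0x35b1e08348b994eacd1888c04c947804984b3da2d3e9d8c0dd0a791cc490e2907b94aa33339644af12d904d2472f855a210488ec3005 (k8 d1071 d1072 d1300 i1168 d1285 i472 d1100 d1290 (k8 i26 i1764 i21 i1758 d393 d1178 i462 d1163 (k8 i1609 i704 d66 i5 i1835 d1017 d418 i234 (k8 d404 d53 i1043 d426 d362 d11 d52 d64 (k8 d1311 d392 i1037 i875 i613 d430 d203 d1073 (k8 d1305 d124 i1491 d1306 d468 d354 i412 d366 (k1 d207 k0))))))) (by decide +kernel)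
def d1313 : PP 8 4 T 0x1001002000001000000400000010000444000001044000015141010505520406000000 := rS 0x71868787c89 (k4 d1249 d1250 i256 d476 (k2 i1356 d383 k0)) (by decide +kernel)
def d1314 : PP 8 4 T 0x1001000000001000000400000014000000000010004000015541000002101406000000 := rS 0x7f5a9d06a17 (k4 i8 i17 i1041 d1189 (k2 i1668 i2037 k0)) (by decide +kernel)
def d1315 : PP 8 4 T 0x1002000000000000000000000000000000000000000004001080000000004002100 := rS 0x703f434eeb58b0d43ad23aa24627d28b2cde075ba605eab57aa4a6e52a91c2e33339644a4156ac62a8d3093d2e8b3d8a1a23b0818d267316800944d2e0600a23 (k8 i1569 d1071 d1072 d1312 d608 d392 i437 d1240 (k8 i2756 d904 d586 d1285 d1300 i472 i444 i3093 (k8 i492 d684 i702 i1048 d445 d1299 i1762 i1494 (k8 i21 d1178 i462 d1163 i1609 i8 i26 i704 (k8 d66 d412 d374 d347 d72 i1077 d908 i1930 (k8 d1252 i1060 i465 i439 d107 d1314 d1249 d124 (k8 d417 d42 d1188 d468 d1189 d78 d1154 i2037 (k2 d383 i799 k0)))))))) (by decide +kernel)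
def d1316 : PP 8 4 T 0x1001001000001000010140000012000200040000040150015541000045101404420002 := rS 0x17aaa67ad62c6a1abc526cb (k8 d1263 d904 d393 i1114 d207 d468 d1189 d385 (k2 d1258 i1990 (k1 i586 k0))) (by decide +kernel)
def d1317 : PP 8 4 T 0x1001001000001000000040000010000000040001001140415151004545401406020002 := rS 0x14e671ad70aa5aaf6209582b2130890fc30a61732a6d2ed1499cc5acb5418cc24a (k8 d392 i1048 d586 d450 d1263 d1240 i2756 d904 (k8 i472 d684 d1141 i1050 i8 d1259 d399 d476 (k8 i230 d485 d1316 d370 i1101 d438 i1991 d349 (k4 d1258 i584 i586 i1143 (k2 d467 d96 k0))))) (by decide +kernel)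
def d1318 : PP 8 4 T 0x1001000000000000000000000000000000000000000200141008000060004000000 := rS 0x8694c3c81 (k4 i1333 i256 i571 d476 (k1 d399 k0)) (by decide +kernel)
def d1319 : PP 8 4 T 0x1001001000001000000040000012000400040002001150015541004545401406020002 := rS 0x5399c6b5c2a96abd882560ac84c4302ed1499cc5acb (k8 d1263 d1240 i2756 d904 i472 i8 d399 d1283 (k8 d1316 d370 i1101 d438 i1991 d349 d1258 i584 (k4 i586 i1143 d467 d96 k0))) (by decide +kernel)
def d1320 : PP 8 4 T 0x1001001000001000000040004010000000000004001140415151004445401406020502 := rS 0x1126e290f5a4a73c01c72654da2da22d5418cc24a (k8 d392 i1048 d586 d450 d1240 i472 i492 d1141 (k8 i1050 i235 i456 d1317 i1913 d442 d88 d1319 (k2 i567 d95 (k1 d1187 k0)))) (by decide +kernel)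
def d1321 : PP 8 4 T 0x1001001000001000000040004010000000400004001140415151004445001406020502 := rS 0x1567d50ad40c6f5cb4c5c750bb451665499cc5acb5418cc24a (k8 d392 i1048 d586 d450 d1263 d1240 i2756 d904 (k8 i1050 i492 i472 i8 d124 d1320 d358 i2779 (k4 i2733 i1078 d1195 i311 (k2 d107 d1292 (k1 d1113 k0))))) (by decide +kernel)
def d1322 : PP 8 4 T 0x1000000000000000000000000000000000000000000004001080000000004002100 := rS 0x2086a3a324603f5b94550fd1183dca33339644a41789a4565f0ab455b151d8dc4e450c0158e6d459ec501031800168f329548e6125134b84f (k8 i702 d1312 d608 d392 i1048 i26 i704 i1050 (k8 d189 i2382 i437 d586 d1285 i444 i3093 i492 (k8 i2256 i1687 d1071 d1072 i41 i1766 i1044 d1300 (k8 d1299 i1494 i472 d1100 d1290 i896 i1764 d393 (k8 i21 d1178 i462 d1163 i1609 d66 i5 i1569 (k8 d1315 d450 i2248 i1931 d1318 d1321 i983 i1041 (k2 d207 d281 (k1 d366 k0)))))))) (by decide +kernel)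
def d1323 : PP 8 4 T 0x1000000000000000000000000000000000000000000000001080000000004002100 := rS 0x1926b2b195164a639ec6e4d368a04e5c72914aa180299de26923b447610 (k8 d1285 d1300 i472 i26 i1764 d393 d1163 d1071 (k8 d1072 i704 i41 d66 d1312 i1766 i444 i2256 (k8 d608 i1044 i3093 i1687 d392 i492 i1050 d1322 (k2 i2253 i2251 (k1 d207 k0))))) (by decide +kernel)
def d1324 : PP 8 4 T 0x2001001000000000010000000000000441140505000000000109080000000006000000 := rS 0x1bd6e4e86984a600549c53273 (k8 d477 d449 d361 d425 i437 i566 i2711 d1203 (k4 d399 i2456 i1271 i2045 k0)) (by decide +kernel)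
def d1325 : PP 8 4 T 0x1000000000000000000000000000000000000000000100005080000000004002000 := rS 0x1ad8f041a45cea65668c4460264a3c024c07b94aa33339644a6923b45228742a753e8b3dc606e798916c825f0a8ede239148403005 (k8 d1071 d1072 d1285 i1835 i234 d393 d1300 d1100 (k8 d1290 i21 i1758 d418 d404 i1043 d426 d64 (k8 d52 d11 d362 d53 d1017 i1168 i472 i26 (k8 i1764 d1178 i462 d1163 i1609 i704 d66 i5 (k8 d392 i1037 i875 i613 d430 d203 d1073 d1305 (k8 i1491 d124 d1306 d468 d354 i412 d366 d207 k0)))))) (by decide +kernel)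
def d1326 : PP 8 4 T 0x1000000000000000000000000000000000000000000104001080000000004002000 := rS 0x15a3e6089da4c2449b469173ab3446e51999cb22515a85968742a753e8f39a4c5e0718994aa4727c55367b45a5e30f11c8a51a37409e6245b4197c2a5120bf41091688ec202d0c014004a (k8 d1325 i437 d1071 d1072 d1240 d1285 d1300 i472 (k8 i1168 d1323 d413 i21 i1310 d1100 d1290 d1202 (k8 i1758 d418 d404 d46 i1043 i1759 i1835 i234 (k8 d393 d426 d405 d52 d64 d84 d1324 d836 (k8 i26 i704 i1050 d1308 i3 i1078 d904 i1094 (k8 d189 d11 d362 d53 d1017 i1388 i196 i896 (k8 d1178 i462 d1163 i1609 d66 i1569 d1305 d124 (k8 d1306 d468 d845 i359 d1080 d417 i1954 d384 (k2 d1180 i1493 (k1 d1307 k0)))))))))) (by decide +kernel)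
def d1327 : PP 8 4 T 0x1001001000000000000001010002144000000000002000100501080015400006020002 := rS 0x12a895f07d5d0c37a4c9e2d (k8 d1240 d836 d904 i1056 d399 d831 d476 i594 (k2 i230 i1725 (k1 i2033 k0))) (by decide +kernel)
def d1328 : PP 8 4 T 0x1000000000000000000000000000000000000000000100001080000000004002000 := rS 0x691b8a46c60ae46a7f52b3c4222649acac1d5413c622f16985271532a3cc6002526cf68b4ba7d3b18468dd02791cc4906292295466672c895e25b3497c2ad108244761802bf40ea3239441041 (k8 i21 d1323 i1310 i26 i200 i3 d413 d1071 (k8 d1072 d1300 i1168 d1285 i472 d1100 d1290 i1764 (k8 i1758 d393 d1178 i462 d1163 i1609 i704 i41 (k8 i1835 d1202 d418 i234 d404 d46 i1043 i1759 (k8 d426 d362 d11 d405 d52 d64 d84 d1325 (k8 i437 d586 d189 i1050 d1324 d904 i2711 d1240 (k8 i1078 d1308 d836 d450 i1261 d1326 i2253 i2251 (k8 i442 i1498 d587 d784 i1666 i1114 i1139 i1574 (k4 i2042 d1327 i567 d788 (k1 d1265 k0)))))))))) (by decide +kernel)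
def d1329 : PP 8 4 T 0x1001000000000000000000000000000000000000000200101108000060004000000 := rS 0x9c1e (k2 i256 d1318 (k1 i1270 k0)) (by decide +kernel)
def d1330 : PP 8 4 T 0x2001000000000000000000000000400440000000000000000001005540500004000000 := rS 0x11299 (k2 d449 d83 (k1 i2034 k0)) (by decide +kernel)
def d1331 : PP 8 4 T 0x1001000000000000000002000000000004000000000000000001000000500004000000 := rS 0x112d3 (k2 d384 i1344 (k1 d417 k0)) (by decide +kernel)
def d1332 : PP 8 4 T 0x1000000000000000000004000400400000004008000000001005540500004000000 := rS 0x89 (k2 d95 d1187 k0) (by decide +kernel)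
def d1333 : PP 8 4 T 0x1001001000001000000040000010000400040000001140415551004545401406020002 := rS 0xf0655418c9461 (k4 i2711 d392 d586 d450 (k2 i1050 d1317 (k1 d1319 k0))) (by decide +kernel)
def d1334 : PP 8 4 T 0x1000000000000000000000000000000000000000000004001080000000004002000 := rS 0x2f4d4aa67b24602307b9466672c895e26965b1cda652a91d5ac13e9cd26984487e185337adc9f151c8b46e271f94482fd1597c2a18029145e074b98c00a7098f562084dc61167b141289a8d2e3447610 (k8 d1285 d1300 i472 d1328 d445 d608 d392 i444 (k8 i3093 i492 d461 d84 d1323 i3068 i1267 i27 (k8 i202 i437 d586 d684 i3 i1078 i41 d1071 (k8 d1072 d1100 d1290 i896 d413 i21 i1310 d1329 (k8 i1766 i1044 d1240 i235 d1330 d836 i1931 d1332 (k8 i567 d399 d476 i230 i2034 d904 i1094 d107 (k8 d1331 i1493 i26 i704 i1050 i2256 i1687 i1388 (k8 i1764 d393 d1178 i462 d1163 i1609 d66 i5 (k8 i1569 d1333 i983 i2719 d1314 d207 i1990 i586 k0))))))))) (by decide +kernel)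
def d1335 : PP 8 4 T 0x1000000000000000000000000000000000000000000000001080000000004002000 := rS 0x1926b2b195164a639ec6e4d368a04e5c688ecd2f10819c30552291dca05 (k8 d1071 d66 i26 i41 i704 d1072 d1163 d1285 (k8 d393 i1764 d1300 i472 d1328 i1766 i444 i2256 (k8 d608 i1044 i3093 i1687 d392 i492 i1050 d1334 (k2 i2253 i2251 (k1 d207 k0))))) (by decide +kernel)
def d1336 : PP 8 4 T 0x1000000000000000800000000800000000000000400000001000000000004002000 := rS 0x611a1480f (k4 i5 i466 d1214 i367 (k1 i1829 k0)) (by decide +kernel)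
def d1337 : PP 8 4 T 0x2021002000000000000500000010000000400000000010014009000000000004000000 := rS 0x555ac10eb175c19d2a63499c4c26f (k8 d356 d396 d361 d28 d3 d350 i489 d782 (k4 d43 i1065 d354 d1114 (k2 d474 d1154 k0))) (by decide +kernel)
def d1338 : PP 8 4 T 0x2001002000000000000000000010000000040000000400000001004440000046002000 := rS 0x172673a1dc482188959966f534307ad34d874c24f729651e23648e45a7348994624a2011456d10100486054a98d2e9338a65422f (k8 d423 i310 d449 d361 d28 d407 d3 d350 (k8 d1071 d1335 i1038 d430 i1160 i387 d101 d434 (k8 i181 i2724 i1491 i2800 i2758 i2723 i2051 i463 (k8 i1570 i1131 i461 d66 d395 d396 i741 d1141 (k8 d1117 d691 d479 d1330 d356 d1336 d1337 d57 (k4 i1498 d410 d415 i349 (k2 i490 i1065 (k1 d782 k0)))))))) (by decide +kernel)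
def d1339 : PP 8 4 T 0x1000000001000040040100808910514000000050040001001000545500004000488 := rS 0x4eb3d86354fb14d8ba512e182d1 (k8 i1160 i1514 d206 d696 i666 i665 i1919 i1189 (k4 i326 i329 i1950 i1643 (k1 i2035 k0))) (by decide +kernel)
def d1340 : PP 8 4 T 0x2001000000000000000000000000000000040000000000005041000400000006012100 := rS 0x1d448b855a957ab265d14a27d379fd62af534300c3d69a6cc21d729658e3311b241639169cd2265188ada29531a5d26714ca845e5354bf47e150fab46e6b339288045010040a43 (k8 d1335 d1071 i1038 d430 d101 d434 i181 i489 (k8 i467 i1005 i1494 i182 d225 d1076 d1338 d425 (k8 i566 d423 i310 d449 d361 d28 d407 d3 (k8 d350 i1160 i387 i2724 i1491 i2800 i2758 i2723 (k8 i2051 i2183 i463 i1570 i232 i1688 i461 d66 (k8 i741 i1048 d1141 d1117 d691 d442 d479 d1330 (k8 i459 i1227 d353 d356 d394 d41 d377 d1336 (k8 d414 i1413 i1379 d1339 i2040 d1293 i1065 i349 k0)))))))) (by decide +kernel)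
def d1341 : PP 8 4 T 0x1000000000000010000000000000800040000000000000089000000000004000000 := rS 0xb237230c119 (k4 d84 d1141 d461 i1047 (k2 i1034 i2914 k0)) (by decide +kernel)
def d1342 : PP 8 4 T 0x2001000000000000000000000000000000040000000000005001000400000006012100 := rS 0xc1a1ae146ab5eac94aaf30819634569a987a9b65939cac71988d920b1c8b4e691328c456d14a98d2ea9499c532a117bf47e150fab46e6b339288045010040a43 (k8 d1335 d1071 i1038 d430 d101 d434 i181 i489 (k8 i467 i1005 i1494 i182 d225 d1076 d1338 d423 (k8 i310 d449 d361 d28 d425 d407 d3 d350 (k8 i1160 i387 i2724 i1491 i2800 i2758 i2723 i2051 (k8 i2183 i463 i1570 i232 i1688 d66 d1340 i1390 (k8 d1341 d691 d1330 d359 d377 i1822 d442 d698 (k8 i459 i1379 d414 i1413 d1339 i1647 i2040 d99 (k2 i1249 d475 k0)))))))) (by decide +kernel)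
def d1343 : PP 8 4 T 0x2011000000000000010000000000010000040000000000000049024540100044000000 := rS 0x348c21d (k4 i741 i1048 d479 d1117 k0) (by decide +kernel)
def d1344 : PP 8 4 T 0x2001000000000000000000000000000000040000000000004001000400000006012100 := rS 0x7f378700cd3530f5364e869dd72b58b080ea7d82950ce8f11b241639169cd22651892856d14aa5d26714ca845efd1f8543e4022ab46e020090c0a6b (k8 i467 d1071 d1335 i1038 d430 i1005 i1494 d101 (k8 d434 i182 d225 d1076 d1338 d423 i310 d449 (k8 d361 d28 d407 d350 i1160 i387 i181 i2724 (k8 i1491 i2800 i2758 i2723 i2051 i2183 i463 i1570 (k8 i1131 i489 d1342 d474 i1541 i1539 i1489 d354 (k8 i2498 d43 d78 d205 d1343 d1341 d691 d1330 (k4 d359 d442 d479 i2816 (k2 i2495 i2044 k0)))))))) (by decide +kernel)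
def d1345 : PP 8 4 T 0x2001001000000000000400000000010000040000200050001049424540000004000508 := rS 0xab5c818ded386184622d39b452a6354a4ce21f (k8 i182 d361 d28 d425 d3 d350 i1160 i2758 (k8 i2723 i2724 i1048 d1343 d1117 d356 d442 i1065 (k2 d206 d200 k0))) (by decide +kernel)
def d1346 : PP 8 4 T 0x2001000000000000000000000000000000040000000000000001000400000006012100 := rS 0x5c1bcc20669a987a9b2732e2e673a0d0ee241095622567e8fc3ead23b94466b648dc2a0b1c8b4e691328c49440228ada2020090c0a9531a5d529338a65422f (k8 d423 i310 d449 d361 d28 d425 d407 d3 (k8 d350 d1071 d1335 i1038 d430 i1160 i387 d101 (k8 d434 i181 i2724 i1491 i2800 i2758 i2723 i2051 (k8 i2183 d225 i1005 i463 i467 i1570 d66 i26 (k8 i1494 i182 d1076 d1338 d1344 d57 i33 i1498 (k8 d410 d415 i348 i349 i490 d44 d713 d1345 (k8 d1341 d691 d1330 d359 d442 d698 i2816 d708 (k1 i1065 k0)))))))) (by decide +kernel)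
def d1347 : PP 8 4 T 0x2001000000000000010000000000000001040000040001500441005540100004000200 := rS 0x10c3c9451a83572cd32fd (k8 d413 d449 i1427 d1110 d901 i1924 i499 d267 (k2 d399 d1203 k0)) (by decide +kernel)
def d1348 : PP 8 4 T 0x2001000000000000000000000000000000000000000000104041000400000106012000 := rS 0x11062b0c4a695f9f686b80f2aca0ad86a35828543a0cf2125944962f11f26cc2e563a3c46c91b8547227169cd2265188a5a25f15a54c69329aa5facb238f4108b339288045010040a43 (k8 d1335 d1071 i1038 d430 d101 d434 i181 i489 (k8 i491 d1346 i1268 i26 i1388 d413 d425 i566 (k8 d28 d3 d350 i387 i904 i1160 i187 i2724 (k8 i1491 i2800 i2758 i2723 i746 i2051 d225 i1005 (k8 i463 i1570 i1131 i1688 d66 i1048 d1141 d1347 (k8 d27 i1294 d683 d197 d371 d404 d24 d51 (k8 d53 i2912 i1051 d1203 i1493 d399 i497 i1309 (k8 i2040 d99 i1330 i1457 d305 i351 i376 i1803 (k2 d410 d505 k0))))))))) (by decide +kernel)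
def d1349 : PP 8 4 T 0x2001000000000000010000000000010401040000040000500001025540100054000200 := rS 0x86184f2d346a0d4cae59a5c5e99 (k8 d449 d423 d407 i1427 d1110 d1330 d901 i1924 (k4 d359 d267 d698 d479 (k1 d1203 k0))) (by decide +kernel)
def d1350 : PP 8 4 T 0x2001000000000000010000000000010001000000040000100089120540140014010200 := rS 0x20d65121f26c3e1513a2cbe3d (k8 i1268 i904 i491 i746 d225 i1270 d1341 d1349 (k4 d683 d197 d24 i1429 k0)) (by decide +kernel)
def d1351 : PP 8 4 T 0x1000000000000000000000000005001405005000010000001020001000204000000 := rS 0x458eacd (k4 i2499 i1499 d694 d1306 k0) (by decide +kernel)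
def d1352 : PP 8 4 T 0x2001000000000000000000000000000000000000000000100001000400000006012000 := rS 0x1727c521d0687712444ac210f2d4a10d469ed3e9d42a1d06798c4487c61278f43acb7e820a6a149aa45e9523b951e231b9347227169cd226518a2c94d12f8ac8045010040a43 (k8 d1335 d1071 i1038 d430 d101 d434 i387 i904 (k8 i1160 i181 i491 i2724 i1491 i2800 i2758 i2723 (k8 i746 i2051 d440 i1005 i1570 i1131 d66 i26 (k8 d350 d423 d425 d28 i310 i566 d1346 d413 (k8 i1388 i1262 i1268 d1350 i1048 d1347 d683 d209 (k8 d404 d24 d51 d53 d362 d11 d64 i1051 (k8 d1203 d399 i1397 i1309 d1351 d1348 d57 d410 (k4 d415 i348 i349 i350 (k2 i351 i1066 (k1 d194 k0)))))))))) (by decide +kernel)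
def d1353 : PP 8 4 T 0x1001000000000000010000008000000200040001040000000009000000000004000000 := rS 0x3d460de8d (k4 i1051 i1059 d461 d648 (k1 d64 k0)) (by decide +kernel)
def d1354 : PP 8 4 T 0x1001000000000000010000008000000400050000040000000009024540500004000000 := rS 0x379e13097 (k4 i1902 d485 d1353 d682 (k1 i1933 k0)) (by decide +kernel)
def d1355 : PP 8 4 T 0x1000000000000000000000000000000000800000000500041000000000004000000 := rS 0xb713 (k2 d24 i775 (k1 d418 k0)) (by decide +kernel)
def d1356 : PP 8 4 T 0x1001000000000000010000000000000001000000040000100041024440504046000000 := rS 0x1ea9d6ed2508e512290ea6cc28b2520cbe2b (k8 i387 i904 d1355 i181 i491 i1048 d1141 i741 (k8 i187 i2049 i2051 i310 d417 d1354 d359 d88 (k1 d199 k0))) (by decide +kernel)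
def d1357 : PP 8 4 T 0x1001000000000000000000000011010000000000000400105041005440004046002000 := rS 0x1e51912669b50b4f4fa759eba611d068694a29048bd821dd8293a1c454cb45bc31ca594788c728914875065f15a5d16b951aadf863699859667328c5922e68a44e62d250848045010040a43 (k8 d1335 d1071 i1038 d430 d101 d434 i743 i181 (k8 i2723 i2758 i2800 i1160 d1356 i463 i2724 i1491 (k8 i489 d1196 i1048 d358 d700 d450 d72 i1647 (k8 i1138 i491 d684 i387 i904 d1355 i741 i187 (k8 i2049 i2051 i1570 i1131 i461 d66 d479 d352 (k8 d1154 d199 d349 d55 i1369 i1247 i808 d324 (k8 i1985 d410 d475 i2040 d431 i348 i349 i367 (k8 i368 i1105 i1678 i1183 d433 i1866 i1681 i1948 (k4 d667 i2042 d404 i1051 k0))))))))) (by decide +kernel)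
def d1358 : PP 8 4 T 0x1000000001000040000000000140020000000000000000001000001000004000000 := rS 0x18343 (k2 d447 i1517 (k1 d475 k0)) (by decide +kernel)
def d1359 : PP 8 4 T 0x1001000000000000000000000011000000000000000400105041005440004046002000 := rS 0x88894f87649254dca550085ca235ca8d56fc31b4cc2cb3399462c9173452273169288045010040a43 (k8 d1335 d1071 i1038 d430 d101 d434 i181 i2723 (k8 i2758 i2800 i1160 d1356 i463 i2724 i1491 i489 (k8 d1196 i1048 d358 d700 d450 d72 i1647 i1138 (k8 i1570 d66 i743 d1357 i2215 i311 d1358 d782 (k4 i1322 i1321 d415 d67 (k1 d410 k0)))))) (by decide +kernel)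
def d1360 : PP 8 4 T 0x8001000000001000000500000015040000000000000055000001000001800004000000 := rS 0x128a5498d5a6b9 (k4 i1138 d358 d446 d480 (k2 i365 i2040 (k1 d1358 k0))) (by decide +kernel)
def d1361 : PP 8 4 T 0x1000000000000000000000100000000000000000000000001002000000004110000 := rS 0x26f1 (k2 d23 i1801 (k1 d371 k0)) (by decide +kernel)
def d1362 : PP 8 4 T 0x1001000000000000000000000011000000000000000400104041005440004046002000 := rS 0x45e0acb2a19dcac9328c546ab7e18da62e68a44e62d309288045010040a43 (k8 d1335 d1071 i1038 d430 d101 d434 i181 i1048 (k8 i2723 i2758 i2800 i1160 d1356 d358 d700 d450 (k8 d72 i1647 i2724 i1491 i463 d66 i489 d1359 (k4 d1196 d474 d1360 d354 k0)))) (by decide +kernel)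
def d1363 : PP 8 4 T 0x1000000000000050500010015054001010400240455500009005160154054000000 := rS 0x3ca3224cd36a169eba612759ea45ea514c935b9f61897459a60917 (k8 d44 d354 d431 i491 d684 d479 d394 d352 (k8 i1589 d199 i2040 i1985 i1099 i1105 i1678 i367 (k8 i368 d433 i1866 i1681 i1948 d667 i2042 d404 (k1 i1051 k0)))) (by decide +kernel)
def d1364 : PP 8 4 T 0x1000000000000000000000000000000000000000000100041000400000006012100 := rS 0x9549a94e2a065a7cce741a1dc4821889587ab951aad62fc31b4c5c8330875ca2335b246e394489c5a7348994624a14b44be2b8aab43e3f0a9008aa9010048605 (k8 d1071 d1335 i1038 d430 i1085 d101 d434 d225 (k8 d1076 i182 i1494 d1352 i387 i904 i1160 i187 (k8 i181 i2724 i1491 i2800 i2758 i2723 i746 i2049 (k8 i2051 i1005 i463 i467 i1570 d66 i741 i1048 (k8 d1355 d1356 d358 d700 d450 d455 d72 i1647 (k8 i1138 d1361 d1362 d57 i1498 d410 d415 i348 (k8 i349 i490 i1183 d1196 d1363 d463 i2215 i1590 (k2 d1358 i2040 k0)))))))) (by decide +kernel)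
def d1365 : PP 8 4 T 0x1000000000000000000000000000000000000000000100001000400000006012100 := rS 0x2f4c9812e9b7e98c9ca91f8dc2a39448b5164a20115a2020090c0b15 (k8 d1352 d1071 d1335 i1038 d430 i1160 d101 d434 (k8 i181 i491 i2723 i2049 i2051 d225 i1005 d1076 (k8 i1085 d1364 d420 d395 d1341 d684 d450 i2728 (k2 i2726 d485 k0)))) (by decide +kernel)
def d1366 : PP 8 4 T 0x1000000000000010100100080200000140000000550000001004000800004000000 := rS 0x1b59ebf4a2753f18 (k8 d461 d11 d362 i366 i1451 i1105 i594 i2042 k0) (by decide +kernel)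
def d1367 : PP 8 4 T 0x1000000000000010000100080040000100000000500544001004000800006002000 := rS 0x3ac5d98ce36aad4a6772965920b69954429f3da76308b42a1e247932a44624a20114040102a3c4643 (k8 d1335 i1570 i1131 d1071 i1038 d430 d101 d434 (k8 i181 i2724 i2800 i1491 d267 d418 d51 d53 (k8 i491 d461 d362 d647 d11 d1351 i1489 d358 (k8 i2183 i463 i461 d66 i489 d1366 d696 i593 (k4 i2042 i2039 d385 d730 (k1 d1107 k0)))))) (by decide +kernel)
def d1368 : PP 8 4 T 0x1000000000000000000000000000000000000000000100041000400000006012000 := rS 0x52a4cce741a1dd822456c44ac2142a1d3e9d34c48f7183cb14b68d5e8495ca65b9f6181f698fca22e5420cc2e535a3c46c91b8547227169cd2265188a5164a6897c57157ea8c8e1d1e98d1253508208045010040a43 (k8 d1335 d1071 i1038 d430 d101 d434 d1365 i2071 (k8 i826 i2049 i1348 i1268 i1262 i26 i200 d413 (k8 d1352 i387 i904 i1160 i181 i491 i187 i2724 (k8 i1491 i2800 i2758 i2723 i746 i2051 d225 i1005 (k8 i463 i1570 i1131 i467 d66 i1048 d1355 d450 (k8 i1084 i496 d1280 d358 i2052 d399 d394 d352 (k8 d199 i203 i202 i1985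 i1925 i1923 i3102 d267 (k8 d461 d647 d418 i1495 d362 d11 d51 d53 (k8 d1351 d1367 d57 i1582 d410 i1265 d415 i348 (k4 i349 i490 i1589 d1366 (k1 d699 k0))))))))))) (by decide +kernel)
def d1369 : PP 8 4 T 0x1001000000000000010000000000010401010400040000100009025540544054000000 := rS 0x14eb7690a5165f (k4 i904 i491 i187 d417 (k2 d1354 d359 (k1 d199 k0))) (by decide +kernel)
def d1370 : PP 8 4 T 0x1001000000000000000000000000000400000000000400100001005440004046002200 := rS 0x29526673a0d0eec1122b622212b2150e9f4e9a6247b8c1e58a5b46af424ae532dcfb0c30b4c5c8359b951e23648e5122d39a44ca3114a2c94d12f8ac8045010040aa15191c3a43 (k8 d1335 i1262 i26 i200 i2071 d1071 i1038 d430 (k8 d101 d434 i387 i904 i1160 i181 i491 i187 (k8 i2724 i1491 i2800 i2758 i2723 i2049 i2051 i463 (k8 i1570 i1131 d66 i1427 d901 d1369 d358 i2726 (k8 d479 d394 d352 d199 i203 i202 i1985 i1925 (k8 i1922 i3102 d267 d461 d647 d418 i1495 d362 (k8 d11 d51 d53 d1367 d1351 d57 i1581 d410 (k8 i1265 d415 i348 i349 i490 i1589 d1366 d699 k0)))))))) (by decide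 +kernel)
def d1371 : PP 8 4 T 0x1000000000000000000000000000000000000000000100001000400000006012000 := rS 0x41aca243e4d87c9c3d04455a22b358dc2a27459288045010040a43 (k8 d1335 d1071 i1038 d430 d101 d434 i181 i491 (k8 i746 d225 i1005 i467 i387 i1160 d1352 d1365 (k8 i1268 d1368 i1270 d1341 d1370 d683 d197 d24 (k1 i1429 k0)))) (by decide +kernel)
def d1372 : PP 8 4 T 0x400000000000001000000000000000050408000400000005000000000000001000000055104002000 := rS 0x2f584cd7288c8745 (k8 d424 d1335 i1570 d66 d1169 i2032 i1988 d156 k0) (by decide +kernel)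
def d1373 : PP 8 4 T 0x10001000000000000004040028000410000005000000040000001000000014006082000 := rS 0xa7a7d98bd4ead0fe74888918a6910c117e7da1c5d1e2364994624a20114040121814570d (k8 d352 i2085 d1071 d1335 i1038 d430 d101 d434 (k8 i181 i2724 i1491 i463 i1570 i1131 d43 d99 (k8 i1330 i1458 d354 d694 d431 i1803 d1372 d403 (k8 i349 i842 d481 i1591 i1989 i886 i1190 d73 (k1 d397 k0))))) (by decide +kernel)
def d1374 : PP 8 4 T 0x10001000000000000004040008051410014005000000045000041000000014046082000 := rS 0x487e62884a0695f95686fd552e59607692c61ac9328c45653250748045010040a43 (k8 d1335 d1071 i1038 d430 d101 d434 i741 i181 (k8 i566 i2085 i2724 i1491 i463 d352 i1824 d479 (k8 d49 i465 d1373 i2040 d782 d458 i1658 i1722 (k4 i1662 d290 i743 i1803 (k2 i498 d1372 (k1 i842 k0)))))) (by decide +kernel)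
def d1375 : PP 8 4 T 0x10001000000000000024040000011400014005400010004100041004040404046082000 := rS 0xa21a30687175c32cfa6f3fa9618065834c78b70e8cc46c9448b4e691328c452671c855ca2b57984be79509288045010048605 (k8 d1071 d1335 i1038 d430 d101 d434 i181 i310 (k8 i2746 i646 d213 i591 i2085 d66 d225 i2051 (k8 d1123 i187 i2724 i1491 i2800 i2758 i2723 i2049 (k8 i463 i1570 i232 i741 d1374 d199 d88 i1801 (k8 i1802 d479 i2876 d353 d356 d394 i466 d711 (k4 d43 d99 i1249 d468 (k2 d475 i326 k0))))))) (by decide +kernel)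
def d1376 : PP 8 4 T 0x1000000001000020100000001400000000000000015000001020005500024000000 := rS 0x14aa3658d183438bae00cd3 (k8 d42 i742 d712 d43 d99 i1249 d468 d713 (k2 i326 i1379 (k1 d475 k0))) (by decide +kernel)
def d1377 : PP 8 4 T 0x2001000000000000000000000000000000000000000000100001000000000006012100 := rS 0x78070eadc9c611f87d5ae51988d92371ca245a73328c4531967b1cbe7941a1d0b1215849e21513a54c69338a854e2f57aa5a03a489288045010048605 (k8 d1071 d1335 i1038 d430 d101 d434 i181 i2800 (k8 d1371 d716 d425 i591 d423 i334 i310 d361 (k8 d28 d3 d350 i746 d225 d416 d371 i2085 (k8 d1167 d53 d51 d24 i2746 i646 i1688 i1146 (k8 d363 i187 i2724 i1491 i2758 i2723 i2049 i2051 (k8 i1005 i463 i1570 i232 d66 i1494 i182 d1076 (k4 d213 d1375 i762 d1376 (k2 i1221 d199 (k1 i1802 k0))))))))) (by decide +kernel)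
def d1378 : PP 8 4 T 0x1000000000000000040020110000400405000000010000001020800054084082200 := rS 0x883158625348853e7da1c5dca2321bf59647 (k8 i26 i1388 d413 d1335 i1570 d66 d43 d99 (k8 i1330 i1189 d694 d305 i351 i374 i1803 d410 (k1 d505 k0))) (by decide +kernel)
def d1379 : PP 8 4 T 0x1000000000000000000000008000000000000000000000441020000000084002000 := rS 0x2222112958aa7d7288c8650 (k8 i183 d1335 i1570 d66 i1596 i1658 i497 i351 (k2 i743 d57 (k1 d410 k0))) (by decide +kernel)
def d1380 : PP 8 4 T 0x1000000000000000140000041010014405100000055000441020800054084082200 := rS 0xf984b266b168a253488534bf3ed0e2eb855ab562c128394464367bf59647 (k8 i26 i1388 d413 i1146 d1335 i1570 d66 i183 (k8 d670 i1315 i1493 d1379 i2040 d43 d99 i1330 (k8 i1458 d1378 d694 d305 i351 d56 i1803 d1169 (k4 d414 i2032 i1427 i376 k0)))) (by decide +kernel)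
def d1381 : PP 8 4 T 0x1000000000000004040020010000000005000004000000001008000014006082200 := rS 0x3318a25619a442755fd0e2ee511994624a15bf59647588548045010040a43 (k8 d1335 d1071 i1038 d430 d101 d434 d225 i1294 (k8 i26 i1388 d413 i2085 i181 i2724 i1491 i1570 (k8 d66 d43 d99 i1458 i1065 d694 d305 i376 (k4 i349 i1803 i2032 d1169 k0)))) (by decide +kernel)
def d1382 : PP 8 4 T 0x2001000000000000000000000000000000000000000000100041000000000006012000 := rS 0x53d8ac3361a57eaa5cab582b2589bc7d0c5b9443e614788d9237448b4e665188a59e67638e5ca5f3ca0d028742c485612788544e9531a4d42a71794d5ea9680e9224a20114040102bf596470e90c7a08 (k8 d1377 i1268 d1335 i1262 i26 i1388 d413 d1071 (k8 i1038 d430 d101 d434 i181 i2800 d1371 d716 (k8 d425 i591 i566 d423 i334 i310 d28 d3 (k8 d350 i746 d225 d416 d371 i2085 d1167 d53 (k8 d51 d46 d24 i2746 i646 d66 i2051 i1688 (k8 d1123 i1146 i187 i2724 i1491 i2758 i2723 i2049 (k8 i1005 i463 i1570 i1131 i1048 d1380 i1309 d290 (k8 d399 d199 d356 i1294 d197 i2912 i1493 d1381 (k8 i2040 i1722 i1662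 i665 i376 i1803 d389 d435 k0))))))))) (by decide +kernel)
def d1383 : PP 8 4 T 0x2001000000000000000000000000000000000000000000100001000000000006012000 := rS 0x7eb75987c9c3d0e8215ea750aa45e371ca245a731497cf2d041c48561278855224a139008a0200814863a (k8 d1371 d1335 d1071 i1038 d430 d101 d434 i746 (k8 i181 i2800 d225 d416 d371 i2085 d1167 d24 (k8 d716 i2746 i646 i187 i2758 i2723 i2049 i2051 (k8 i1005 d423 d425 i310 i334 i591 d1377 i1262 (k4 i1268 d1382 i1270 i1429 (k2 i762 d197 (k1 d199 k0))))))) (by decide +kernel)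
def d1384 : PP 8 4 T 0x1000000000000000000000000000820000000008000000001000000000006002000 := rS 0x253a0d5ca23189288045010048605 (k8 d1071 d1335 i1038 d430 d101 d434 i181 i2724 (k4 i1570 d66 i2807 i1057 (k2 i348 d124 k0))) (by decide +kernel)
def d1385 : PP 8 4 T 0x11001000000000000004040000000410100005500000040000041001000014006082100 := rS 0x22225109f0ed174925535454b98d6c6e7288c9a73328c456ad0faa55e1d309288045010040a43 (k8 d1335 d1071 i1038 d430 d101 d434 i181 i1048 (k8 i741 i1921 i1085 i182 i1494 i2085 i2724 i1491 (k8 i2758 d440 i1570 d66 d1028 d129 i1320 i1323 (k8 d424 d466 d1384 d1374 d480 i1322 i1321 d694 (k2 d415 d67 (k1 d410 k0)))))) (by decide +kernel)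
def d1386 : PP 8 4 T 0x1000000000000000000000000800000000000000001100001000000000006012100 := rS 0x2561b34ea9c62a48d29510c1068b98ba8d56fc3898d969a1734cd68f1988d9265188a4ced0638e5ca8343a16242b093c42a912509c80451d4555aa9010048605 (k8 d1071 d1335 i1038 d430 i1085 i1494 d1383 d1371 (k8 d101 d434 i746 i181 i2800 d225 d416 d371 (k8 i2085 d1167 d53 d51 d24 d66 i2051 i1688 (k8 d716 d1123 i187 i2724 i1491 i463 i1570 i232 (k8 i1131 i467 d359 i334 i335 d1336 d700 i1447 (k8 d450 d72 i1647 d1360 i1138 d468 d354 d694 (k8 i2807 d431 d782 i1803 i1450 i1590 i1910 i1905 (k2 i349 i2032 k0)))))))) (by decide +kernel)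
def d1387 : PP 8 4 T 0x11001000000000000004040000000410100005500000040000041000000014006082100 := rS 0xc6b7698f0561f309288045010040a43 (k8 d1335 d1071 i1038 d430 d101 d434 i181 i1048 (k4 i182 i2085 d1385 d88 (k2 i1783 d700 (k1 d148 k0)))) (by decide +kernel)
def d1388 : PP 8 4 T 0x1000000000000000000000000000000000000000000100041000000000006012100 := rS 0x111129f0ec9210a55731751aadf8cb318b8dca5699c540a73088d9265188a632cf4c99da0c71cb95068143a16242b093c42a912509c80451d4555aa9010048605 (k8 d1071 d1335 i1038 d430 i1085 i1494 d1383 d1371 (k8 d101 d434 i746 i181 i2800 d225 d416 d371 (k8 i2085 d1167 d53 d51 d46 d24 d66 i2051 (k8 i1688 d716 d1123 i2767 i1146 d363 i187 i2724 (k8 i1491 i463 i1570 i1048 d1386 d1387 d463 d471 (k8 i2215 i311 i310 i488 i466 d450 d72 i1647 (k8 d1360 i1138 d1358 d694 d782 i1322 i1321 d415 (k2 d67 d410 k0)))))))) (by decide +kernel)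
def d1389 : PP 8 4 T 0x1000000000000000000000000000000000000000000100001000000000006012100 := rS 0x30285fa63272a43e0b2f9e5a083890ac24f10aa4494272011404010290c7515 (k8 d1383 d1371 d1335 d1071 i1038 d430 d101 d434 (k8 i746 i181 i2800 d225 d416 d371 i2085 d1167 (k8 d24 d716 i2746 i646 i2183 i182 i1085 d1388 (k4 d420 d395 i756 d450 (k1 d213 k0))))) (by decide +kernel)
def d1390 : PP 8 4 T 0x1000000000000020000000002000000050000000000000009000900000006000208 := rS 0x2d8b85aa1 (k4 i2071 i2723 i1084 d732 (k1 d731 k0)) (by decide +kernel)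
def d1391 : PP 8 4 T 0x1000000000000000000000000000000000000000000100001000000000006012000 := rS 0x78a2605498d42fd0445507122f8acf212683c4748b0a8e51227489288045010048605 (k8 d1071 d1335 i1038 d430 d101 d434 i181 i2800 (k8 i746 i2049 i2051 d225 i491 d1371 d416 d716 (k8 d371 i2746 i2085 i646 d1167 d24 d1383 d1389 (k8 d413 i2071 i1348 d1390 d450 d45 d213 i183 k0)))) (by decide +kernel)
def d1392 : PP 8 4 T 0x2001002000000000000000000000000000000500000440200041000000014006002100 := rS 0x4a21889d4ac6f5c43196a65babdca594788d9265188f47e2b1db4523135687d2a6349a845e1d309288045010040a43 (k8 d1335 d1071 i1038 d430 d101 d434 i181 i1048 (k8 i741 d423 i310 d28 d3 d350 i182 i1494 (k8 d368 i2800 i512 d716 i387 d683 d687 i2724 (k8 i1491 i463 i1570 i1131 i461 d66 d347 i1930 (k8 i2031 d1336 d250 d782 d356 d1337 i1065 d57 (k2 i1498 i349 (k1 d410 k0))))))) (by decide +kernel)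
def d1393 : PP 8 4 T 0x1000000000000004050028000400000005000000010000001020000055004002000 := rS 0x10afe8717 (k4 d43 d99 i1458 d694 (k1 d1372 k0)) (by decide +kernel)
def d1394 : PP 8 4 T 0x1000000000000004550008011400014005000001055000041020000055004002000 := rS 0x42bf2ad0d54b9 (k4 d1393 i2040 d458 i1658 (k2 i1721 i743 (k1 d1372 k0))) (by decide +kernel)
def d1395 : PP 8 4 T 0x2001000000000000000500001011000000000000000051000201000000002006000000 := rS 0xab5c9fce89531a4d422f (k8 d423 i310 d28 d3 d350 i349 i842 i1066 (k2 i498 i2040 k0)) (by decide +kernel)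
def d1396 : PP 8 4 T 0x2001000000000000000000000000400000000000000040000041000000000006012100 := rS 0xb91aa95769ea7a190a7512a8d96c1692d55c505ec368ab64d3958e3311b25122d328c59a3d1f8ae26275687d529531a4d422f36b3cd629419c5027a4bb15e119450e476d12e2446e1d309288045010040a43 (k8 d1335 d1071 i1038 d430 d101 d434 i181 i1048 (k8 i741 i1005 i2800 d1391 i512 d716 i2051 d1346 (k8 d52 d426 d76 d407 i492 i1893 d361 i815 (k8 i1889 i467 i1978 i2311 d423 i310 d28 d3 (k8 d350 i1085 i182 i1494 i746 d368 i387 d683 (k8 d687 i1970 i2724 i1491 i2723 i2049 i463 i1570 (k8 i232 i1688 d66 d1330 i2031 d56 d352 i3146 (k8 i1931 i1930 i886 d479 d670 i625 d375 d1395 (k8 d124 i1896 d1394 d478 i818 i1684 d167 i1183 (k2 i1190 i2033 k0)))))))))) (by decide +kernel)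
def d1397 : PP 8 4 T 0x2001000000000000000000000000000000000000000040000041000000000006012100 := rS 0x15c06a2b4d4cfd3582c4eb3588a4728338a04f48a1db44b891251008a02008148697 (k8 d407 d1335 d1071 i1038 d430 d101 d434 i181 (k8 i2800 d1391 i512 d716 d1346 i492 i1893 d361 (k8 i815 i2051 i1889 i1885 i2310 i746 i2183 i467 (k4 d1392 d1396 d359 d377 (k2 d442 d414 (k1 i459 k0)))))) (by decide +kernel)
def d1398 : PP 8 4 T 0x1000000000000000000000000000000000000000080000001000000000006002000 := rS 0x9622213b158aae5119288045010040a43 (k8 d1335 d1071 i1038 d430 d101 d434 i181 i1570 (k8 d66 d68 i489 i490 i743 d57 d415 d410 k0)) (by decide +kernel)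
def d1399 : PP 8 4 T 0x2001001000000000000000004500410000000500000000000001025540150044010000 := rS 0x5701a8a1c4d09d2e2f (k8 d423 d407 i746 d1330 i2031 d56 i742 d414 (k1 i459 k0)) (by decide +kernel)
def d1400 : PP 8 4 T 0x2001000000000000000000000000000000000000000000000001000000000006012100 := rS 0x15c06a2b4d4c8314add02fd589e966a127228e22f4b8dc16391696c7a3f158eda2912544cb8273387c8045010040a43 (k8 d1335 d1071 i1038 d430 d101 d434 i182 d1398 (k8 i746 d1391 d368 i181 i2800 i512 d716 i387 (k8 d683 d687 i35 i2723 i2051 i2183 i1005 d407 (k8 d423 d361 d1346 d1397 i310 i2310 i492 i1885 (k8 d395 i1275 i761 i1889 i815 d1399 d359 d377 (k2 d442 d414 (k1 i459 k0))))))) (by decide +kernel)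
def d1401 : PP 8 4 T 0x1001000000000000010000004540410001110400040000000001005540154054110500 := rS 0x22e32124b01c5ed24da661a80 (k8 i2031 d465 i1864 i1337 d479 d358 d49 d485 (k4 d1011 d405 i1881 d461 k0)) (by decide +kernel)
def d1402 : PP 8 4 T 0x1021002000000000000400010000000000000000000000001001000000001106002000 := rS 0xaeb5881d5ca590ba3c4631169288045010048605 (k8 d1071 d1335 i1038 d430 d101 d434 i181 i2723 (k8 i2724 i1570 i1131 i8 i461 d66 d124 d410 (k2 d1195 d57 (k1 d1154 k0)))) (by decide +kernel)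
def d1403 : PP 8 4 T 0x1000000000000000000000000010000000400000000000041000000010006012100 := rS 0x85a7b094894499d048554f88608345cc5d46ab3ebf05c638632e8ad3533946623648dc2a0b1ca245a73328c51acd358f47e2b1db4523131399d5a1f0eac56eaf30aa4944022808020521c55665c (k8 d1391 i514 d1400 d1335 d1071 i1038 d430 d101 (k8 d434 i181 i1085 i1048 d1037 i1930 i1848 i741 (k8 i182 i1494 d1398 i746 d368 i2800 i512 d716 (k8 i387 d683 d687 i467 i1970 d445 i2724 i1491 (k8 i2758 i2723 i2049 i2051 i2183 d225 i1005 i463 (k8 i1570 i232 d66 d1401 d359 d377 d1336 d250 (k8 d700 d417 d414 d394 d72 i1647 d1360 i1138 (k8 d468 d354 d694 i1183 d474 d1402 i349 i1589 (k4 i2040 i1099 i367 d433 (k2 i1866 d667 k0)))))))))) (by decide +kernel)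
def d1404 : PP 8 4 T 0x21002000000000000500020000000200400000000050040401020000001004002000 := rS 0xb488154ae218233a2ee52c88c867d (k8 d394 d1335 i1570 i461 d66 d43 i1143 d354 (k4 d694 d587 d474 d410 (k2 d276 d349 k0))) (by decide +kernel)
def d1405 : PP 8 4 T 0x1021002000000000000400010000000000000000000000000001000000001106002000 := rS 0x55 (k2 i1489 d1402 k0) (by decide +kernel)
def d1406 : PP 8 4 T 0x1000000000000010100000000000000140000000550040001020000000204000000 := rS 0x33cdb162a2753f18 (k8 d461 d11 d362 i743 d694 i1698 d385 i2042 k0) (by decide +kernel)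
def d1407 : PP 8 4 T 0x1021002000000000000400000000000200000000000000040401000000001106002000 := rS 0x1728f11b24ca31251008a020090c0a67 (k8 d1398 d1071 d1335 i1038 d430 d101 d434 i181 (k4 i2724 i1491 i463 i1570 (k2 i1131 d1404 (k1 d1405 k0)))) (by decide +kernel)
def d1408 : PP 8 4 T 0x1000000000000001000000000000000000000000000200001000000022006002000 := rS 0x67b08e8594788d92651896e268d1db45224a33a2c7269628488045010040a43 (k8 d1335 d1071 i1038 d430 d101 d434 i186 i3072 (k8 i1495 i2051 i1881 d1398 i181 i2800 i512 d716 (k8 d445 d368 i35 i2724 i1491 i463 i1570 i1131 (k4 i461 i349 i352 d730 (k1 d661 k0))))) (by decide +kernel)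
def d1409 : PP 8 4 T 0x1000000000000000000000000010000000400000000000041000000000006012100 := rS 0x1034586a61f8cb31c5d9c6d2bc404a214ba7d3a698c3151612142cdca23648e4e6651896e268d68a459a6b3394d62b757985524a2011404010290e2a5c (k8 d1391 d1400 d1335 d1071 i1038 d430 d101 d434 (k8 i181 i1085 i1048 d1037 i1930 i1848 i827 d1398 (k8 i467 i1970 i2800 i512 d445 d368 i35 i2724 (k8 i1491 i2758 i2051 i463 i1570 d66 i514 d1403 (k8 i186 i1881 i3072 d461 i1495 d362 d11 d405 (k8 d1406 d1408 d410 d57 i515 i2042 d385 d602 (k4 d713 d450 d701 d1407 (k2 d277 i1864 (k1 d357 k0))))))))) (by decide +kernel)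
def d1410 : PP 8 4 T 0x1011000000000000010100005004000000050010041541200001025545501014002500 := rS 0x20b175cb38e09f4e9bd37183d83c464332a355aa353b040ed2 (k8 d417 d49 d384 d359 i1647 i1494 d445 i1491 (k8 d1335 i1570 i5 i1891 d461 d1141 d1332 d362 (k4 d11 d383 i2042 i1407 (k2 d385 d588 (k1 d354 k0))))) (by decide +kernel)
def d1411 : PP 8 4 T 0x1000000000000080000000140000000080000000000000009000100000004110500 := rS 0x9acd4e07 (k4 d49 d359 i2310 i1881 (k1 d1011 k0)) (by decide +kernel)
def d1412 : PP 8 4 T 0x1002000000000000000000000000040000000000100000041000000401006012100 := rS 0x1b0fa575ac36209810a6d16cb03b49ca6b1988d92370a82c7289169ccca312da347a3f158eda2918989cce530eac56eaf30aa4944022808020521c54b8ab (k8 d72 d1391 d1400 d1335 d1071 i1038 d430 d101 (k8 d434 i181 i1085 i1048 d1037 i1930 i1848 i741 (k8 i827 d1398 i746 d368 i2800 i512 d716 i387 (k8 d683 d687 d445 i35 i2724 i1491 i2758 i2723 (k8 i2049 i2051 i2183 d225 i1005 i463 i1570 i232 (k8 i467 d66 d417 d49 i465 d1411 d1141 d1406 (k8 d485 d410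 d1407 d349 d57 d67 d1410 i515 k0))))))) (by decide +kernel)
def d1413 : PP 8 4 T 0x1001002000000000000000000011010000000000000000000041000000801046002000 := rS 0x822f0c31ae596d372b24ca3133874c24a2011404010290d46ab (k8 d72 i1647 d1335 d1071 i1038 d430 d101 d434 (k8 i181 i1048 i741 d1398 i2724 i1491 i463 d66 (k8 d358 d1196 i1138 d700 d479 d1360 d1405 d694 k0))) (by decide +kernel)
def d1414 : PP 8 4 T 0x1000000000000000020000000000000000000000000200001000000000004110000 := rS 0x26f1 (k2 d76 i3072 (k1 d371 k0)) (by decide +kernel)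
def d1415 : PP 8 4 T 0x1002000000000000000000000020000000000000001000001000000001006002100 := rS 0x440f821492e52acb318b8dca5699c5ca2364994624a33ab43e4022aa404012181546ab (k8 d72 i1647 d1071 d1335 i1038 d430 i1085 d101 (k8 d434 i182 i1494 d1398 i181 i2724 i1491 i463 (k8 i1570 d66 d463 d471 i2215 i311 i310 i488 (k8 i466 d1358 i1138 d782 d668 i1321 d410 d67 k0)))) (by decide +kernel)
def d1416 : PP 8 4 T 0x1002000000000000000000000000000000000000000000041000000001006012100 := rS 0x9717a09429134b14b8155687d5315309288045010040a43 (k8 d1335 d1071 i1038 d430 d101 d434 i181 i1048 (k8 d1400 i1085 i182 i1494 d225 d1391 d1414 i1495 (k4 i2800 d1415 d1409 d1413 (k2 i1376 d1412 k0)))) (by decide +kernel)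
def d1417 : PP 8 4 T 0x1000000001000000500000015060000000000200051000009000001000006000000 := rS 0x5ca55266317295a671 (k8 d463 d471 i2215 i310 i488 i1590 d1358 i1138 (k1 i2040 k0)) (by decide +kernel)
def d1418 : PP 8 4 T 0x1000000000000014100000000004000040000201550200001000000000004000000 := rS 0x270f68d (k4 d445 i1891 i2042 i1592 k0) (by decide +kernel)
def d1419 : PP 8 4 T 0x1002000000000000000000000000000000000000000000041000000000006012100 := rS 0x5c9a699e9148250b2e086d67a7e2e873a0d048a355b94b26b4788d920b1ca245a651896c563b68a44ce69628555ab12e2bcc2a9251008a02008148715 (k8 d1400 d1335 d1071 i1038 d430 d101 d434 i181 (k8 i1085 i1048 d1037 d1391 i1848 i1494 d225 d1414 (k8 i1495 d1398 i2800 i512 d716 i387 i35 i2724 (k8 i1491 i2723 i2049 i2051 i2183 i463 i1570 i1131 (k8 i467 i461 d66 d72 i1647 d1416 i348 i349 (k8 i927 d44 i1183 d730 i516 d354 d54 d1417 (k4 d1409 d1418 i492 d1411 (k2 i816 d417 (k1 i1175 k0))))))))) (by decide +kernel)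
def d1420 : PP 8 4 T 0x1000000000000000000000000000000000000000000000041000000000006012100 := rS 0xeb1742d3c686c4fa7587184581c5ec151a85a450559c19e627eabd62610eb1c6623648dc1639328c4bf1346b34d63b68a44946734b14b8152011552020090c0b15 (k8 d1400 d1071 d1335 i1038 d430 i1085 d101 d434 (k8 d225 d1391 d1414 i1495 d1398 i181 i2800 i512 (k8 d716 i467 i1970 d445 d368 i143 i2724 i1491 (k8 i2051 i2183 i1005 i463 i1570 i232 i1688 i741 (k8 i1048 i1848 d1037 d1419 d450 d602 i488 i2305 (k8 i487 d700 d463 i1647 d670 d358 d49 d1411 (k8 d461 d666 d362 d11 i2042 i2035 d389 i1604 (k2 d44 d667 (k1 d662 k0))))))))) (by decide +kernel)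
def d1421 : PP 8 4 T 0x1000000000000000000000000000000000000000000000001000000000006012100 := rS 0x293d22a322f302dd42fd3193a2aa90fb941639448b4b68d1e8fc563b68a4495132e09c8045010040a43 (k8 d1335 d1071 i1038 d430 d101 d434 i746 d1391 (k8 d368 i181 i2800 i512 d716 i387 d683 d687 (k8 d445 i35 i2723 i2049 i2051 i2183 d66 i182 (k8 i1085 d1400 d1420 d420 d395 i756 i761 d450 (k4 i2726 d218 d461 i492 (k2 i1889 d212 k0)))))) (by decide +kernel)
def d1422 : PP 8 4 T 0x2001000000000000010100000000000000040000000541200001025545101004002200 := rS 0x180ad52c1068bb8bb38da57882993e9d10b4d37187288c86652da3546474b8bd2699 (k8 d449 d28 d423 d407 i26 i200 d445 i35 (k8 i1491 d1335 i1570 d66 d461 d1141 d1117 d1406 (k8 d362 d11 d1330 d410 d57 i515 i2042 d385 (k4 i1950 d468 d354 i368 (k2 d12 d699 (k1 i1265 k0)))))) (by decide +kernel)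
def d1423 : PP 8 4 T 0x1000000000000401000000000000084150100001410014001508001055000041020000055004002200 := rS 0x5c27956860f2d8a0ad86b047a3f7eb2c8e53 (k8 i826 i26 i1388 d413 d683 d687 d384 d1204 (k8 i1493 d399 d357 i1309 d1394 d1379 i818 i2040 (k1 i1190 k0))) (by decide +kernel)
def d1424 : PP 8 4 T 0x2001001000000000000000004580410000000400000000000001025540150004010000 := rS 0xf1450253 (k4 i826 i1862 i500 d1399 (k1 i183 k0)) (by decide +kernel)
def d1425 : PP 8 4 T 0x2001000000000000000000000000000000000000000000000041000000001006012000 := rS 0x4fa1970ad55b043c5086ad9a6a742a0c5213679e8da8a3ab958e3311b24ca31339a58a157eb2c8e1d31a25666158a55529338d15025350af55c3f1c8dc5a3d158ee262704344b891251008a020090c0a6b (k8 i467 d1071 d1335 i1038 d430 d101 d434 i181 (k8 i2800 d1391 i512 d1421 i746 d368 d716 i387 (k8 d687 i2723 i1005 i2051 d683 d1110 i1986 i2071 (k8 i826 i1862 d91 d361 d28 d425 d350 i1848 (k8 i1048 i1427 i2049 i1348 i1262 i26 i1388 d413 (k8 d225 d1414 i1495 d1398 i2724 i1491 i463 i1570 (k8 i232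 i1688 d66 d124 d1422 i2311 i492 i1978 (k8 i1881 i1889 i815 i1896 i202 d1423 d1424 d352 (k8 i1931 d479 d670 d1379 i1493 i2040 d1394 i1190 (k1 i818 k0)))))))))) (by decide +kernel)
def d1426 : PP 8 4 T 0x2001000000000000000000000000000000000000000000000041000000000006012000 := rS 0x16a505b29d06133d2b5150436b3d3f1714a1ce834122b8e2a92ca3c46c91b8e45a651896d9a6b1e99cd2c50abf542cb23acc103f158eda2918989cc24a2011404010290d625c (k8 d1391 i1848 d1335 d1071 i1038 d430 d101 d434 (k8 i181 i1048 i746 d368 i2800 i512 d716 i387 (k8 d683 d1421 i1427 i26 i1388 i2071 d413 d225 (k8 d1414 i1495 d1398 d687 i467 i1970 i35 i2724 (k8 i1491 i2723 i2051 i1005 i463 i1570 i1131 i461 (k8 d425 d361 d1110 d1425 i348 i349 i927 d1408 (k8 d44 i1183 d730 i516 d354 d1418 d12 i492 (k4 i1881 i815 i202 d1424 (k2 i1931 i886 (k1 d1395 k0)))))))))) (by decide +kernel)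
def d1427 : PP 8 4 T 0x1000000000000010100001400010000040050000550200001020000801004002200 := rS 0x2bd30bc4a29182ad8245d9c6d2bc413e9d10c61ca232da35faa323874861f (k8 i2052 d1335 i1262 i26 i200 d413 d445 i35 (k8 i1570 d66 d461 d1406 d362 d11 d410 d57 (k8 i515 i2042 d385 d354 d12 i1265 i2030 i366 (k4 i1105 i1104 i1986 d733 k0)))) (by decide +kernel)
def d1428 : PP 8 4 T 0x1000000000000000000004002010400080100000000000009005100044054000000 := rS 0xa7418a52c7a (k4 i492 i578 i1889 i816 (k2 i1897 i2031 k0)) (by decide +kernel)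
def d1429 : PP 8 4 T 0x1001000000000000010100010400010000440050000540200001020001901004402200 := rS 0x168757288c8665 (k4 i1491 d1335 i1570 d66 (k2 d124 d1427 (k1 d1195 k0))) (by decide +kernel)
def d1430 : PP 8 4 T 0x1000000000000000000000000000000000000000000000041000000000006012000 := rS 0xd8cf439d0489f8c22d027d3fade189b0fae4a22e54454c2593585d1e23648e45a73328c4b68d1e99cd2c50abf43a6344acc7e2b1db45224a899704e53508208045010040a43 (k8 d1335 d1071 i1038 d430 d101 d434 d1421 i2071 (k8 i826 i746 d1391 d368 i181 i2800 i512 d716 (k8 i387 d683 i1427 i2049 i1348 i1262 d413 d225 (k8 d1414 i1495 d1398 d687 d445 i35 i2724 i1491 (k8 i2758 i2723 i2051 i463 i1570 i1131 i8 i467 (k8 i461 i1048 d1426 d450 i1084 i496 i1139 i2052 (k8 i1175 d399 i1931 d353 d394 d465 d1428 d461 (k4 d11 d1429 i349 i927 (k2 d730 d1418 (k1 i516 k0)))))))))) (by decide +kernel)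
def d1431 : PP 8 4 T 0x1000000000000000000004000010000080100010000000009005100044054000200 := rS 0xa7418a4267a (k4 i492 i1881 i1889 i815 (k2 i202 i2031 k0)) (by decide +kernel)
def d1432 : PP 8 4 T 0x2001000000000000000000000000000000000000000500200081000040004006002200 := rS 0x6c67a1ce82430a7e308b40ab8e22f729651e3311b24722d328c51a3d1f8ac76d14892a26670e94d42400f9140401218156e5b (k8 i35 i761 d1071 d1335 i1038 d430 d101 i1270 (k8 d434 i2071 i826 i1262 d1398 d368 i181 i2800 (k8 i512 d716 i387 d683 d687 d445 i2724 i1491 (k8 i2723 i2051 i463 i1570 i232 i1131 i461 d66 (k8 d423 d361 d1110 i1862 d1431 d461 d11 d218 (k4 d1422 i349 i927 d730 (k2 d1418 i516 k0))))))) (by decide +kernel)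
def d1433 : PP 8 4 T 0x1001000000000000000100004002010000400000000540200009000500045044402208 := rS 0x8a409f4ff0c4db4d722e188b5a2911e875663f899008a43 (k8 d1335 d101 d434 d368 d683 i1427 i1262 d687 (k8 i2800 i512 i2723 i2724 i1084 i1139 d358 i1175 (k4 d479 d353 d394 d465 (k2 d1429 d1428 k0)))) (by decide +kernel)
def d1434 : PP 8 4 T 0x1001000000001000010000004001010000110000000000000099005540044014000208 := rS 0x1009a4525d4f194c9b9a471300bc5a917e98c3e45 (k8 d101 i1270 i1348 d413 i2800 i2723 i199 d450 (k8 d211 d417 i1047 i2728 d218 d359 i2835 d461 (k2 i2034 d1431 (k1 i1337 k0)))) (by decide +kernel)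
def d1435 : PP 8 4 T 0x1000000000000000000000000000000000000000000000001000000000006012000 := rS 0x45204dacf4fc310e741a26da624172a22ab70f9383aa1041a58a671f8f4563b68a36265b2e195223113a24724a26854803722809928f0085dca052c88c866b (k8 i467 d1335 i1570 i461 d1071 d66 i8 i1038 (k8 i1131 i463 d430 d101 i1005 d434 d225 d440 (k8 i181 i2051 i2049 i746 i2724 i2800 i1491 d1391 (k8 i35 d368 d445 i512 d716 i387 d687 d683 (k8 d1398 d1414 i1495 d1421 i2071 i1262 d1430 i1270 (k8 i761 d1432 d1434 i1084 d1433 d358 i1175 i348 (k8 i349 i927 d479 i1183 d730 i516 d465 d1418 (k1 d1428 k0)))))))) (by decide +kernel)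
def d1436 : PP 8 4 T 0x2001000000000000020000000000000000000000000000100001000100000004012100 := rS 0x1f055363762a790b1209c658e25079ec762f67a752e2d538f5a4075502d52fd4a994c69365ae62c7733c451e7511ab59261489289a872b1e4be442090d1a00018583205 (k8 d1071 d1435 d427 d453 d430 d997 d1335 d439 (k8 d434 i2431 d267 i481 i1706 i708 d392 i1171 (k8 i2640 i2296 i1494 i1570 i971 i1132 d57 i2291 (k8 i1627 d422 d43 i2297 d904 i2290 i1492 d350 (k8 d782 d425 i559 i2040 i2294 d442 d88 d359 (k8 d268 d407 d452 d385 i2753 d825 d179 i5 (k8 i346 i1688 d34 d1009 d409 d53 d328 i1526 (k4 i997 d753 i642 d1330 (k1 d1076 k0))))))))) (by decide +kernel)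
def d1437 : PP 8 4 T 0x2001000000000000000000000000000000000000000000100001000100000004012100 := rS 0x9bc46c3f8c055a28b1da347ad203aa816a97ea54ca6349b2d73163b99c0003889591e7511ab592442090cc24a268142c19 (k8 d1435 d427 d1071 i708 d392 i2640 d1335 d439 (k8 d434 i2296 i1494 i1570 i971 i1132 i481 d57 (k8 d453 d430 i2291 i1627 d422 d43 i2297 d904 (k8 i2290 i1492 d350 d782 d425 i559 i2040 i2294 (k8 d442 d88 d997 d825 i2292 d1436 i637 d461 (k4 d1076 d1047 d9 i1799 (k1 d371 k0))))))) (by decide +kernel)
def d1438 : PP 8 4 T 0x2001000000000000000000000000000000000000000000100001000000000004012100 := rS 0x2ed649e58a150312098563238579e50e912f8941e7b46b3d3aa7281f96a1d69080e66f1681c16fd389f554953099596a931a4d73163b99e227511ab4a60001a3d924a26814ac44208583243 (k8 d1335 d1435 d427 d439 d434 i481 d1071 i708 (k8 d392 i2296 i1132 d453 d430 i2385 i1494 i1570 (k8 i971 d57 i2291 i1627 d422 d43 d904 i2290 (k8 d425 i2297 i1492 i2640 d350 i2040 i1596 d361 (k8 d782 i559 i2294 d268 i968 d477 i482 d442 (k8 d42 i727 i2044 i1666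 d359 d452 d385 d997 (k8 d179 i5 i346 i2431 i1171 i1706 d267 i499 (k8 d1437 d364 i292 d1009 d409 d46 d53 i1315 (k4 d328 d1011 i1685 i666 k0))))))))) (by decide +kernel)
def d1439 : PP 8 4 T 0x2001000000000000000000000000000000000000000000000041000000000004012100 := rS 0x39688dd5cf01facd62130a9707aa716b480e0b553f5529532a2cc6cb1da4cc2b98b1dcce0001c44ac8f64910824a26814ea160c88c86ad (k8 i1494 d1335 i1570 d1435 d427 i971 d1071 i708 (k8 d392 d439 d434 i2296 i1132 i481 d57 d453 (k8 d430 i2291 i1627 d422 d43 i2640 d904 d825 (k8 i2297 i2290 i2292 i1492 d350 d425 d782 i2040 (k8 i559 i2294 d442 d268 d359 d88 d1438 i2327 (k8 i1844 i1848 i2330 d1076 d371 d533 d9 i591 (k2 d504 d1117 k0))))))) (by decide +kernel)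
def d1440 : PP 8 4 T 0x1001000000000000020000000001010000000400000004000009001000154004950500 := rS 0x10c691c512b157bf0e6611f9bc0e2f (k8 i2753 d1252 i968 d1076 i2640 i1093 d450 d1037 (k4 d455 d876 i710 d417 (k2 d383 d1204 k0))) (by decide +kernel)
def d1441 : PP 8 4 T 0x1001000000000000020000000000018000000500000004108449001000154204950102 := rS 0x1433fa5156985dac936b1579c8a0b538c343aa7693f5507d6081cde0b498be223f (k8 d1076 d57 i2753 d904 i560 i968 d1252 d1331 (k8 i1501 d1440 d374 d442 d359 d42 d1204 i709 (k8 i727 d399 d383 i499 i1315 i2806 d1011 i1686 (k4 i664 i666 i1112 i1665 (k2 d447 d481 k0))))) (by decide +kernel)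
def d1442 : PP 8 4 T 0x1001000000000000000000000010000000000000000000000001000000200004802000 := rS 0x2187d37aa16afd52a54e67172994c62507b2d26615188173163b99c0003889591ec922104944d029d44643 (k8 d1335 i1570 i971 d1071 i708 d392 d439 d434 (k8 i2296 i1132 i481 d57 d453 d430 i2291 i1627 (k8 d422 d43 i482 i2984 i2640 d904 i2297 i5 (k8 i346 i2290 i1492 d66 d70 d236 i979 i1383 (k4 d782 d1261 d450 i2643 (k2 d107 d383 (k1 d205 k0))))))) (by decide +kernel)
def d1443 : PP 8 4 T 0x1000000000000020000000000000000000000000000100041000000000004012100 := rS 0x9c7af00ab153c85408a624138c94cc62507880f63b67a762c7733c451ec93a88d422d8aab45691251350e563ca35065f221048600018583205 (k8 d1071 d1435 d427 d453 d430 d1335 d439 d434 (k8 i2431 d1355 d997 d267 i481 i1706 i708 d392 (k8 i1171 i386 i1494 d1439 d1442 i822 i1570 i971 (k8 i2296 i1132 d57 i2291 i1627 d422 d452 d385 (k8 d825 d179 i482 i5 i346 i2290 i2385 d34 (k8 d1009 d409 d386 d46 d53 d328 i1526 i642 (k4 d371 d23 d38 d1441 k0))))))) (by decide +kernel)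
def d1444 : PP 8 4 T 0x1000000000000000000000000000000000000000000100041000000000004012100 := rS 0x50cc09214d89f8c344f287489acca8b2f8941e7b469a440cf4ec58ee670000e225647b248841251340a750b0644643 (k8 d1335 i1570 d1435 d427 i971 d1071 i708 d392 (k8 d439 d434 i2296 i1132 i481 d57 d453 d430 (k8 i2291 i1627 d422 d452 d385 i482 i2929 d997 (k8 d179 i5 i346 i2431 i2292 i1492 i467 i1171 (k8 i1706 d267 d1443 d461 d11 i2042 i1604 d328 (k2 d1306 i226 (k1 i1969 k0))))))) (by decide +kernel)
def d1445 : PP 8 4 T 0x1001000000000000020000000501000000000000000005000009000000500004150500 := rS 0xd2532255e07 (k4 d1252 d1037 d876 d1011 (k2 d417 d359 k0)) (by decide +kernel)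
def d1446 : PP 8 4 T 0x1001000000000000021000000100000000400000100000208009200000100205010102 := rS 0x10f4f5d279289a5aab83aa7693f550b386144e6714ca40c2b98b1dccf11059bc0e633eb05262f8984c821642b147a15 (k8 i2327 d1361 d1414 i1503 d427 d439 i1844 d368 (k8 i2753 d904 d1331 i1501 i2290 d1252 i968 i560 (k8 d57 i2291 i1627 d422 d43 i2640 i512 d334 (k8 d244 d249 d830 d383 i513 d1445 d374 d442 (k8 d359 d42 d533 i727 i592 d205 i1181 i1182 (k2 d89 i3006 (k1 d97 k0))))))) (by decide +kernel)
def d1447 : PP 8 4 T 0x400000000000001001000000000000014500050111000000000000004011200009200000000004000042 := rS 0x5e2617f4359a528a5157bf0e66749c4d2e634fc61168d (k8 d997 i2292 d461 d11 i2290 d684 d368 d904 (k8 i2291 i1093 d450 d1037 d830 d278 d782 i513 (k4 d447 i1725 d701 d87 (k1 i1990 k0)))) (by decide +kernel)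
def d1448 : PP 8 4 T 0x1000000000000000000000000000000000000000000000041000000000004012100 := rS 0x4ac30e6be28ad4e2ae0ea9da4b37eaa1774f431b13f1848b447a853cac58acd09854b87d6081cde0b16c54d6654594cc62507b2cf693468bcc2691033d3ab98b1dcce0001c44ac8f64910824a26814ea160c88c86ad (k8 i1494 d1335 i1570 d1435 d427 i971 d1071 i708 (k8 d392 d439 d434 i2296 i1132 i481 d57 d453 (k8 d430 i2291 i1627 d422 d43 d452 d385 i482 (k8 i2929 i2640 i2753 d997 d904 d179 i2297 i5 (k8 i346 i2290 i2385 i2292 i1492 i467 d1439 d1442 (k8 i560 i968 d1252 d1331 i1501 d1444 i2327 i1844 (k8 i1970 d1414 i1848 d284 i1503 d1361 d1446 i1170 (k8 d461 d11 i2042 d328 d389 i3006 d1447 d374 (k8 i663 d442 d359 d42 d533 i709 i727 i2318 (k4 i594 i1094 d399 i1725 (k1 d205 k0))))))))))) (by decide +kernel)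
def d1449 : PP 8 4 T 0x10001000000000000000000000000000000000000000000100001000000000004012100 := rS 0x4cf01f8558a9e42a0c5312098941e7b1db3d3b163b99e228f649d446a115a450e563c97c8843468f618710eb48162d5680006fd03904e71537938c24a268142c19 (k8 d1435 d427 d1071 i708 d392 i2640 d1448 i1271 (k8 d1438 d428 d439 i1222 d395 d453 d430 i1494 (k8 d1442 i560 d442 d42 i709 d383 d88 d997 (k8 d1335 d434 i2431 d267 i481 i1706 i1171 i386 (k8 i821 i1570 i971 i2296 i1132 d57 i2291 i1627 (k8 d422 d452 d385 d825 d179 i5 i346 d1009 (k8 d409 d386 d24 d53 d328 i1526 i642 d1076 (k2 d371 d1204 (k1 d38 k0))))))))) (by decide +kernel)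
def d1450 : PP 8 4 T 0x1000000000000000000000000000000000000000000100001000000000004012100 := rS 0x1328357acd7e6c4db452e9f8c25218b538875a40b540b62a6b32a2cbe6349a34d22067a7573163b99c0003889591ec9221d4464339bf40e7f2a904de61251340a160c9f49cad (k8 i1494 d1448 i1273 d1435 d427 d1071 i708 d392 (k8 i2640 i1271 d439 i1490 i759 i1222 d395 d428 (k8 d1335 i1570 i971 d434 i2296 i1132 i481 d57 (k8 d453 d430 i2291 i1627 d422 d43 d452 d385 (k8 i482 i2929 d997 d904 i2290 i2431 i2292 i1492 (k8 i467 d1438 d1442 d450 i560 d442 d42 i709 (k8 i727 d383 i2044 d1449 d11 d405 d34 d84 (k4 i2042 i1725 i663 i594 (k2 d901 d733 (k1 d313 k0)))))))))) (by decide +kernel)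
def d1451 : PP 8 4 T 0x2001001000000000000000010000000000400050544000000001000000000204000142 := rS 0x6907016b438aa52a93 (k8 d904 d350 d425 d361 i2044 i559 i727 d442 (k1 d42 k0)) (by decide +kernel)
def d1452 : PP 8 4 T 0x1000000000000000000000000000000000000000000000001000000000004012100 := rS 0xbf3627e30ae68ac50294862d4e21d53b48162d8a8f5e0b36684c2a5c3e9bcfe077e944e64e569acaa6545a4d1a61348819e9d5cc58ee670000e225647b248841251340a750b0644643 (k8 d1335 i1570 d1435 d427 i971 d1071 i708 d392 (k8 d439 d434 i2296 i1132 i481 d57 d453 d430 (k8 i2291 i1627 d422 d43 d452 d385 i482 i2929 (k8 i2640 d997 d904 i2292 i1492 i1490 i467 i1494 (k8 d1448 d428 i31 d395 i1222 i759 i1271 i1273 (k8 d1450 i2327 i1844 i1970 i513 d371 d23 d1451 (k8 d1442 i560 d442 d359 d42 i709 i727 d383 (k8 i2044 d465 i1847 d1446 d533 d461 d11 i2042 (k2 i1725 i594 k0))))))))) (by decide +kernel)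
def d1453 : PP 8 4 T 0x1000000000000000000000000000000000000000000000001000000000004012000 := rS 0x943ec516ac138c34de7f398789c085cc58ef114798526202b324ce4a00110aa752680c82160c8144643 (k8 d1335 i1570 d1071 d1435 d427 d439 d453 i708 (k8 i971 i1490 d434 d430 d392 i2291 i2296 i481 (k8 i482 d904 i2640 i1132 d57 i1627 d422 d43 (k8 d1452 i223 i222 d428 i759 i1271 d476 i1357 (k4 i2831 i1396 d383 i1501 (k2 i2044 d350 k0)))))) (by decide +kernel)
def d1454 : PP 8 4 T 0x1000000000000020000000000000000000000000000000001000000000004020000 := rS 0x7400 (k2 i471 i472 (k1 d825 k0)) (by decide +kernel)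
def d1455 : PP 8 4 T 0x1000000000000000000000000000000000000000000200009000000000006002000 := rS 0xa8762720114040102bc4524348b442113 (k8 d368 d1453 d1454 i1170 d1335 i1836 d393 d1071 (k8 i1038 d430 d101 i1046 i1766 d716 d419 i387 k0)) (by decide +kernel)
def d1456 : PP 8 4 T 0x1000000000000000000000000000000000000000000000021000000000004002000 := rS 0x229040a43 (k4 d1335 d1071 d440 i525 (k1 d434 k0)) (by decide +kernel)
def d1457 : PP 8 4 T 0x1000000000000000000000000000000000000000000180001000000000004002000 := rS 0xcd3ac584a352ab18d62161a1c4c8572964d24748a3c662333b240265189e51a5f4ea7cf7181b80830172011486f11c8ed164a26b442a10 (k8 d1453 i136 d1454 d1456 d392 i491 d606 i1873 (k8 d393 d1335 i483 d434 i967 d427 i180 i2725 (k8 d426 d64 d11 d362 i469 i1759 d267 i2724 (k8 i1491 i1038 i463 d1398 i1570 i232 i1131 i1170 (k8 i26 i1764 i461 d66 i3036 i1757 i2502 d131 (k8 d1351 i468 d144 i1489 i412 i2240 d468 d124 (k2 d1305 d1306 k0))))))) (by decide +kernel)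
def d1458 : PP 8 4 T 0x1000000000000000080000000000000000000000000100001000000000004002000 := rS 0x19a758b0946ae52c8ccaa2143a753e7b8c3c4723b458550b122d9946291689e51a370117c808f0c05c8a10251344643 (k8 d1335 i1570 d1456 d392 d1453 i483 i967 d427 (k8 i1131 d434 i469 i180 i2725 i1759 d267 d1454 (k8 i1170 i2724 i1491 d1457 d418 d53 i136 i491 (k8 d606 i1873 d393 d426 d64 d11 d362 d51 (k8 d1351 i1489 i232 i461 d66 i412 i2240 d468 (k2 d124 d1305 (k1 d1306 k0))))))) (by decide +kernel)
def d1459 : PP 8 4 T 0x1000000000000000000000000000000000000000000100001000000000004002000 := rS 0x19910829a98e5510a150f122d9ed3e9d3cc611a651b8c5920233a3c02181d8e42e4045915ca5911855e25f219a48e9125135a210 (k8 d1453 d1454 d1456 d392 i1170 i26 i1764 d1335 (k8 i469 d393 i136 i1570 i461 d66 i483 i491 (k8 d434 i967 i1873 d606 d427 i1038 i1131 d1398 (k8 i180 i463 i2724 i2725 i1491 i1759 d426 d267 (k8 d362 d11 d64 d1457 d418 d51 d53 d1351 (k4 i1489 d1458 d207 d366 (k2 d287 d133 (k1 d454 k0)))))))) (by decide +kernel)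
def d1460 : PP 8 4 T 0x1000000000000000000000000000000000000000000000001040000000004002000 := rS 0x27d3a8742b359e7747c60f66d101acacc933a2cca44001e4ea160ca34b65c489289ad1148404659 (k8 i461 i1570 d1453 i1836 d1454 d1456 d392 i1170 (k8 d1459 i35 d445 d1455 d427 i971 i973 i966 (k8 i967 i2641 d972 i2291 i2296 i481 i2298 i482 (k8 i2300 i1891 d461 i1132 i1627 d587 i1970 i1504 (k4 i1705 d362 d11 i2046 k0))))) (by decide +kernel)
def d1461 : PP 8 4 T 0x1000000000000000000000000000000000000000000000001000000000004002000 := rS 0x43 (k2 d1335 d1460 k0) (by decide +kernel)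
def d1462 : PP 8 4 T 0x1000000000000004050000000005001405005100000000001000555005404000000 := rS 0x8b335cac2 (k4 i2035 d470 d1169 d468 (k1 d1306 k0)) (by decide +kernel)
def d1463 : PP 8 4 T 0x801000002000000004010000000004001004005100000000001000550004406000000 := rS 0x207233587174e0c4568f12b1c6685 (k8 d53 i232 d351 i348 i1130 i387 i1041 d1462 (k4 d452 i1906 i1910 d468 (k2 d910 d25 k0))) (by decide +kernel)
def d1464 : PP 8 4 T 0x2001000000000000004140000000004000000000200051550411090540000406114500 := rS 0x218d228bf40eb91832d5a2082276229531a4d422f1595c9ec51f8cd060d (k8 d1461 d1202 i232 d1076 d964 i702 i441 i387 (k8 d423 i310 d28 d3 d350 d400 d883 d281 (k8 d625 d12 d54 i1499 i2718 d1211 d782 i439 (k2 d442 d399 (k1 d1266 k0))))) (by decide +kernel)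
def d1465 : PP 8 4 T 0x2001000000000000000108000000010000000400000401000401085005054004004102 := rS 0x34a180728aa9facb56c108ee54a98cca6705aa49e0d (k8 d1461 i702 d425 i559 i449 d1026 d3 d350 (k8 d470 i211 d85 d12 d54 d1223 d1236 i2249 (k4 i457 d399 d442 d1204 k0))) (by decide +kernel)
def d1466 : PP 8 4 T 0x2001000000000000004140000000004000000000000400550411001040000406014102 := rS 0x20723362e9c618c4ea8514c490687508bcc2652119c16a92080c563b478946a392285d8a3f13854660d (k8 d1461 i232 i638 d1126 d1076 d964 i8 i478 (k8 d914 i1115 i348 i1130 d825 i387 i23 i180 (k8 d425 i559 i449 i1038 d1026 i2711 d423 i310 (k8 d1017 d1202 d418 d386 d53 d1464 i1041 d1465 (k4 i2035 d452 i1910 d468 (k2 i2032 d25 k0)))))) (by decide +kernel)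
def d1467 : PP 8 4 T 0x2001000000000000000108000000000000000002000401000401085145100004004102 := rS 0x26d4e6f694300e51553f596ad8211dca9531a5c5e99448ecca6705aa49e0d (k8 d1461 i702 d425 i559 i449 d1026 d825 d83 (k8 d449 d423 d407 d3 d350 d470 i211 d85 (k8 d12 d54 d1223 d1236 i2249 i457 d399 d442 (k4 d356 d359 i1073 i2034 k0)))) (by decide +kernel)
def d1468 : PP 8 4 T 0x2001002000000000000500001010010001402012000051004009005540100104000000 := rS 0x4d2003a7ea1c35709531a5c5e934ca24b311 (k8 d387 i605 d83 d449 d28 d423 d407 d3 (k8 d350 d782 d1337 d99 d481 i719 i1670 d673 (k1 i1337 k0))) (by decide +kernel)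
def d1469 : PP 8 4 T 0x1001000000000080001001000110000000010000000000441080000001504000000 := rS 0x1461a07 (k4 d49 d338 i439 d399 k0) (by decide +kernel)
def d1470 : PP 8 4 T 0x2001000000000000000000000000000000000000000000900209104500100006100000 := rS 0x1061d (k2 i1230 i1438 (k1 d1232 k0)) (by decide +kernel)
def d1471 : PP 8 4 T 0x2001000000000000004150000000004001000002100400000109005140000406000102 := rS 0x2a80cd37eab54ac1109f56acb2ac11c8843b45d38c31898d267129a845e3b309945a6705aa51e251a83cae4f21164660d (k8 d1461 i232 i605 i1038 i702 i441 i2404 i1115 (k8 i348 i1130 d425 i559 i449 d1240 d1026 i2711 (k8 d825 d423 i310 i566 d361 d28 d3 i1041 (k8 d1467 i2035 d452 i1858 i1857 d468 d354 d916 (k8 d713 d1114 i1629 i1503 d382 d60 d12 d1468 (k4 d1469 d442 d1113 i457 k0)))))) (by decide +kernel)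
def d1472 : PP 8 4 T 0x2001000000000000004140000000004000000000000400140009001040000406010102 := rS 0x268dea786349fa075c8c196ad104113b113a144f05e19935229531a5c5e934ca24a63b309945a6705aa482030795c9e421c9142ec51f854b20d (k8 d1461 i605 i638 d1076 d964 i8 i478 d914 (k8 i1038 i702 i441 i2404 i23 i180 d425 i559 (k8 i449 d1240 d1026 i2711 d825 i566 d83 d449 (k8 d28 d423 d407 d3 d350 i1171 i51 i232 (k8 d1466 i646 d1470 d1471 d400 d883 d281 d625 (k8 d12 d54 i1499 i2718 d1211 d782 d442 d399 (k4 d359 d356 i2034 i1073 k0))))))) (by decide +kernel)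
def d1473 : PP 8 4 T 0x1000000000000024014000000005000000000000100545011000511000006000000 := rS 0x369da9c3263bc06f19 (k8 d34 i2720 d426 d351 i2035 d109 i233 d389 (k1 d824 k0)) (by decide +kernel)
def d1474 : PP 8 4 T 0x1000000000000024010000000004000000000100140545011000510000806000000 := rS 0x1d8db174e30c531247c446217 (k8 i8 i1572 d401 i1130 d418 d386 i250 d1473 (k4 d452 i1642 d422 d824 k0)) (by decide +kernel)
def d1475 : PP 8 4 T 0x2001002000000000000500001010010000404012000010005149005540100104000000 := rS 0x9a41874fd0d55a5c5e994494d5259 (k8 i605 d425 i566 d83 d449 d423 d407 d72 (k4 d1337 i2037 i719 i925 (k2 d673 i1074 k0))) (by decide +kernel)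
def d1476 : PP 8 4 T 0x2001000000000000000500000010000000404002100010005149005548100106000500 := rS 0x1a4a603a6d546f3fc31fa7d5a9da2e97499c4a6a9508bcb20d (k8 d1461 i605 d423 i310 d425 i566 d361 d28 (k8 d407 d379 i233 d1114 i1629 d1475 d399 d353 (k4 d356 i2037 i1073 i457 (k2 d1330 d442 (k1 d359 k0))))) (by decide +kernel)
def d1477 : PP 8 4 T 0x2001000000000000020110000000004000000000100050144049104510100806100500 := rS 0x270ee33619459a782f1351e3d67884621743b1de0378cab5966982444aa59 (k8 i605 i1538 d401 d438 d431 d54 d12 d34 (k8 i2720 d426 d351 i1703 i8 i1572 i46 i1147 (k8 d23 i1130 i51 d1474 i646 i890 d1470 i251 (k4 d1476 i1625 i2035 i1858 k0)))) (by decide +kernel)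
def d1478 : PP 8 4 T 0x2001000000000000020100000000004000000000000000100009000000000006010102 := rS 0x44cbe28663093a333a0c4444d1a9945a6705aa4ae4f2116c8203628fc2ac71ebc072450b8dc771935b3cb20d (k8 d1461 i605 i1147 i631 d34 d825 i2720 i8 (k8 i478 d914 d426 d23 d351 i638 d1076 d964 (k8 i23 i180 d154 i1038 i702 i441 d425 i559 (k8 i449 d1240 d1026 i1115 i51 d1472 i1572 d1477 (k8 d460 d883 i2035 i251 i250 i890 d386 d418 k0))))) (by decide +kernel)
def d1479 : PP 8 4 T 0x2001000000000000020114000000008000401000000051550401084540145504000400 := rS 0x4d2a996ad5cc1199112a98c5e934ca255ea92bb1c7af08cb3d7695438a6240d (k8 d1461 d418 d386 d1017 d350 i1685 i1147 d34 (k8 d426 d23 d351 i441 d425 i591 d83 d449 (k8 d28 d423 d3 i703 d505 d910 d438 d816 (k4 d12 d54 i2040 d745 (k1 d753 k0))))) (by decide +kernel)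
def d1480 : PP 8 4 T 0x1100000001000000140000000008000140000000010000001000000000004004000 := rS 0x118d80d (k4 d1461 d926 d85 i1695 k0) (by decide +kernel)
def d1481 : PP 8 4 T 0x2001000000000000020110000000008000001000000000510401004001004406004102 := rS 0x134aa65ab608b98b39440c34598d269944abd422f30a34ca2d3382d522b478946a3d358cd8ef01caed2a83210a6245b2285e32371d904060d (k8 d1461 i23 i180 d825 i2720 d34 i8 i478 (k8 d154 d418 d386 i1038 d1202 d350 i1685 d914 (k8 d426 d351 i1711 i631 d23 i1115 i348 i1130 (k8 i387 d425 i559 i449 d1240 d1026 d997 i2711 (k8 d423 i310 i591 d83 d449 d28 d3 i145 (k8 d1465 d1479 d25 d468 d43 d1480 d12 d54 (k2 d1236 d745 (k1 d753 k0)))))))) (by decide +kernel)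
def d1482 : PP 8 4 T 0x2001000000000000020100000000008000100000000051000001004502100006004400 := rS 0x134aa65ab608b972a2cc62f49a6512af54b1c7af01bc657695 (k8 d350 i1685 d34 i2720 d426 d23 d351 d425 (k8 i591 d83 d449 d28 d423 d3 i145 d39 (k4 i2718 d1480 d12 d54 (k2 i2040 d745 (k1 d753 k0))))) (by decide +kernel)
def d1483 : PP 8 4 T 0x2001000000000000020500010010008000000000000051000001004540100004000400 := rS 0x134aa318bd269944abd523d784657695 (k8 d350 i1685 d34 d426 d23 d425 i591 d83 (k4 d449 d28 d423 d3 (k2 i2040 d745 (k1 d753 k0)))) (by decide +kernel)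
def d1484 : PP 8 4 T 0x2001000000000000020100000000000000000000000000100009000000000006010102 := rS 0xa0b458add667466a6979175c32d5b042ac444431409de24872fa153c5967a452a53579851a651699c16a9478d41e572790872c51f89cb6450bc647641018546e0d (k8 d1461 i2720 i638 i23 i180 d825 d34 i8 (k8 i478 d154 d1126 d1076 d964 d914 i1038 i702 (k8 i441 i2404 i1115 i1130 d425 i559 i449 d1240 (k8 d1026 d997 i2711 i591 i566 d350 i1171 i1147 (k8 i605 d1478 i1606 d752 d1017 d418 i1715 d46 (k8 d1482 d1481 d401 i1538 d438 d12 d54 d1483 (k8 d43 i1190 i1189 d816 d422 i1413 i1988 i1297 (k2 i1066 d341 (k1 i1397 k0))))))))) (by decide +kernel)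
def d1485 : PP 8 4 T 0x1100000000000000054000000000000000000000400541009080000045504000000 := rS 0x369a69e58664450a298921cae0d (k8 d1461 i441 d1017 d418 d386 d53 d505 i2032 (k4 d438 d73 i1830 i2446 (k1 d467 k0))) (by decide +kernel)
def d1486 : PP 8 4 T 0x2001000000000000008000004000010000000082000000000001005540100104000000 := rS 0x4d2fc3b0d4b8bd3289 (k8 d83 d449 d423 d407 d353 i719 i1724 d673 (k1 i1152 k0)) (by decide +kernel)
def d1487 : PP 8 4 T 0x400000000000016001000000000000000804000000005000000000002400000001000540100004000000 := rS 0xa65e2fc7af0 (k4 d426 d23 i1454 i674 (k2 d1089 i1984 k0)) (by decide +kernel)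
def d1488 : PP 8 4 T 0x2001000000000000000001000020100000000000000001000001000015100004000400 := rS 0x146b94a8bd2689 (k4 d83 d28 d423 d350 (k2 i1289 i1554 (k1 i2033 k0))) (by decide +kernel)
def d1489 : PP 8 4 T 0x2001000000000000020210004010004000000002000000115541004515100006000000 := rS 0x659fcd94f671f53ab588214ea71508bd1ec71ebc06f1982aad526b10b0dc917 (k8 d61 d468 d470 d25 i632 d425 i583 d370 (k8 d34 i2720 d426 d23 d351 i1130 d423 i310 (k8 d361 i1064 d1014 d438 d1114 i1857 d67 i2035 (k4 d96 i1148 d1486 d1487 (k1 i2037 k0))))) (by decide +kernel)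
def d1490 : PP 8 4 T 0x2001000000000000020210000000004000000000000000100049004000004406000002 := rS 0x33d3a743bc44b0ad28adcf05e61a9442c172154664d299845a0b5485456251a95cb64101b1de0392285c6e3b8cc162e3107908d60d (k8 d1461 i632 i1038 i2404 i983 d61 d370 d34 (k8 d825 i2720 i8 i478 d914 d426 d351 i23 (k8 i180 d154 i441 i1115 i348 i387 i638 d425 (k8 i559 d1240 i2711 i566 i51 i232 d916 d468 (k8 d382 d25 d60 d470 d1485 i646 i852 d1470 (k8 d1488 d1489 d411 i805 i606 i1858 i2744 d625 k0)))))) (by decide +kernel)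
def d1491 : PP 8 4 T 0x2001000000000000020210000000004000000000000000100049004000004006000002 := rS 0x309c89d678cce8772c1562222268d4ae5b2080d8ef01c9142e371dc660b171883c840d (k8 d1461 i1038 i2404 i983 d61 d370 d34 d825 (k8 i2720 i8 i478 d914 d426 d351 i23 i180 (k8 d154 i441 i1115 i51 d1490 d401 i1538 d438 (k8 i805 i606 i233 i2744 d883 d468 i2035 d470 k0)))) (by decide +kernel)
def d1492 : PP 8 4 T 0x1000000000000000400004140000000000000000800560441000000000004000000 := rS 0x28acd0312 (k4 d418 d46 i633 i607 (k1 d341 k0)) (by decide +kernel)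
def d1493 : PP 8 4 T 0x2001000000000000000041000800108000000000001800000001000011100004000000 := rS 0xa35caf97a9517a4d1233 (k8 i1711 d83 d28 d423 d350 i1414 i634 i1190 (k2 i1719 i2033 k0)) (by decide +kernel)
def d1494 : PP 8 4 T 0x6001000000000000000000008000018000000040000000000001000015104004000000 := rS 0x3ca269ae57a1d86a545e9344b054ae4 (k8 d468 d60 d382 d83 d28 d423 d350 d352 (k4 i721 i1989 i1190 d775 (k2 i2033 d479 (k1 i241 k0)))) (by decide +kernel)
def d1495 : PP 8 4 T 0x2001000000000000020000000000000000000000000000100009000000000006010102 := rS 0x172a35a878a0b7599fce85858c455a8114b0d4a2160c490ee42a9b4ee5f429a866cf4f0c62ec863bc04e3f628e4b64f2b83c4a8f159042a45059085a611a8ec071948a55268929abd52171ba845e0d (k8 d1461 d423 i310 i2720 i8 d425 i591 i566 (k8 d83 d28 d350 i1171 d34 i23 d825 i1115 (k8 i2711 d1240 i1038 i559 i478 i638 i180 i387 (k8 i1130 i348 i2404 i441 i702 d154 d914 d964 (k8 d1076 d1126 d426 d351 d1484 d61 i983 d1491 (k8 i133 i1711 i1186 i1606 d752 d885 i672 d916 (k8 d468 d1017 d418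 d382 d25 d60 d470 d386 (k8 d46 d1488 d505 i1967 d287 d422 i844 d1493 (k4 d1494 d341 i440 i1398 (k2 i241 i1066 (k1 i2033 k0))))))))))) (by decide +kernel)
def d1496 : PP 8 4 T 0x2001000000000000024144000000404000405500000001010001060011110406080100 := rS 0x65819603c5b9bcff0c3e875a6a25c9962ca5609a53b4f7233222258ca54c6a9499c512a1178ac4ec50f884660d (k8 d1461 i2050 i744 i182 i1804 i1798 i2085 d423 (k8 i310 d83 d361 d28 d425 d3 d350 d34 (k8 i348 d505 i2032 d410 d73 i1910 i1831 d382 (k8 d60 d397 i1167 d43 i2033 d787 d712 i1594 (k8 d479 d353 d356 d352 d129 i1801 i1802 i1394 (k1 d711 k0)))))) (by decide +kernel)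
def d1497 : PP 8 4 T 0x2001000000000000004000500000015000000000200000000001002000100054080000 := rS 0xdeb8862ed36d34aa5d2699 (k8 d449 d28 d407 d350 d88 i1257 i3054 d479 (k2 i2048 d356 (k1 i1065 k0))) (by decide +kernel)
def d1498 : PP 8 4 T 0x2001000000000000020100000000410000000000000001000001020005100804000500 := rS 0x28431941d69ae62cad32aaccec182a94ac461aa54c62f54a4d121f (k8 i182 d83 d28 d425 d423 d3 d350 i2055 (k8 i184 i185 i2056 d81 i2955 i1617 i1656 d432 (k8 d1488 d354 d43 d787 d712 i2040 d479 i505 (k1 d41 k0)))) (by decide +kernel)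
def d1499 : PP 8 4 T 0x2001000000000000020140000000004000005500000000000009040000010006000108 := rS 0x7e2e4a2b55b0f53a74122b59abf5eb2e081d33d38cb17728d12a634994d5ea9478e516cf0a8ac4ec509085e25911984be790fa9c662d1890016a117b0c740d (k8 d1461 i1160 i374 d423 i310 i302 i1046 i2724 (k8 i2723 i2050 i334 i182 i2746 i646 d213 d1498 (k8 i605 d416 i744 i1161 i1804 i1798 i2085 i137 (k8 i2788 i145 i195 i2778 d425 i591 i566 d28 (k8 d3 d350 d1496 d15 d44 i2729 d435 d1123 (k8 d1376 d354 d713 d437 d59 d73 d12 i2032 (k8 i349 i1591 d1497 d129 i886 d1395 i1066 d290 (k1 d782 k0)))))))) (by decide +kernel)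
def d1500 : PP 8 4 T 0x2001000000000000020100000000004000005500000000000009040000010006000108 := rS 0x861f56a1d69c40ea775c95e0a558b1948c35362953a69a7b1a329531aa52671449cd1e126796446612f9e43ea71d0cc5a312002d422f (k8 d423 i310 i302 i1046 i2724 i2723 i2050 i1160 (k8 i334 i182 i2746 i646 d213 d1498 i605 i2788 (k8 i1161 i2778 d477 d83 d361 d28 d425 d3 (k8 d350 d34 d1499 d381 d228 i1640 i2092 i219 (k8 i413 i218 i1167 d397 i1697 d81 i1577 d43 (k8 d78 d281 d438 d787 d712 d349 d67 d479 (k1 d205 k0))))))) (by decide +kernel)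
def d1501 : PP 8 4 T 0x2001000000000000020101010000510000000500000101000001060015150004080100 := rS 0xcb032c078b7379fe187d0eb4d4495318bd529338a243e65 (k8 i1167 i182 d83 d361 d28 d425 d423 d3 (k8 d350 i2033 d787 d712 i1594 d479 d353 d356 (k4 d352 d129 i1801 i1802 (k2 i1394 d711 k0)))) (by decide +kernel)
def d1502 : PP 8 4 T 0x2001000000000000020140000000008000405500000001010001060811110406080100 := rS 0x756e6e3f8f4e89a8bae14ac134b919911618952aa11589d8a1f108cde2a717d3cee0d (k8 d1461 i1715 d89 d423 i334 d416 i2050 i744 (k8 i182 i1804 i1798 i2085 i310 d350 i348 i373 (k8 d505 i2032 d435 i1831 d382 d60 d1501 d43 (k8 i1189 d422 i1257 i1667 i1065 d1494 i1231 d129 k0)))) (by decide +kernel)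
def d1503 : PP 8 4 T 0x1000000000000001008020000418000000500000000000001040000150054080100 := rS 0x5b8f578c1 (k4 i1249 i1190 i1959 i1988 (k1 d129 k0)) (by decide +kernel)
def d1504 : PP 8 4 T 0x4001000000001000000108000041408014410500500055000401040000510456084500 := rS 0xb6288f5faaa60ae4aecd88095422b13b2d5b04 (k8 d354 d12 d713 i1798 i2085 i310 i349 d422 (k8 d1169 d57 d1503 d802 i2040 d782 i1959 i497 (k2 d129 d290 k0))) (by decide +kernel)
def d1505 : PP 8 4 T 0x1000000000000000008020000418000000540000000000001040000150054080100 := rS 0x5b8f578c1 (k4 i1249 i1190 i1959 i1989 (k1 d129 k0)) (by decide +kernel)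
def d1506 : PP 8 4 T 0x2001000000000000020100000000408000400500400001000009060021110006080500 := rS 0xb6288f5faaa60ae4fe7456b2e081d611962ee54a98d268929abd522b0787c4633508bcce8b (k8 i145 i1714 d423 i310 i2050 d1498 i182 i2204 (k8 i2085 d425 i591 i566 d83 d28 d3 d350 (k8 d15 d44 i2729 i1184 d1376 d354 d713 d12 (k8 d1504 i1667 d1505 d802 i2040 d782 i1959 i498 (k2 d129 d290 k0))))) (by decide +kernel)
def d1507 : PP 8 4 T 0x2001000000000000020100000000000000005500000000000009040000010006000108 := rS 0x17116609948c6c529a58c353ba7846594782c622d1584866a71d184be79508bc3e40 (k8 i1046 i182 d423 i310 i2746 i646 d213 i1160 (k8 i334 i2050 i1161 i2085 i2723 i2724 i302 i2778 (k8 i605 d1498 d1500 i1715 d1506 d1502 d228 i2092 (k4 i219 i218 i1167 i3014 (k2 d727 d1501 (k1 d43 k0)))))) (by decide +kernel)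
def d1508 : PP 8 4 T 0x2001000000000000020000000000000000000000000000100009000000000006010100 := rS 0x11061b1c46253aa7c68572345d908543a050712148858a2715b3c74400923c860200815220d (k8 d1461 i1171 d456 d1495 d430 i437 i2778 i1161 (k8 i1046 i1160 i2788 i2085 i1798 i1804 i744 i187 (k8 d1167 d24 d46 d51 d53 d1507 d61 i1123 (k8 i504 i1122 i2810 i2740 i2078 i185 i413 i374 (k2 d714 d505 k0))))) (by decide +kernel)
def d1509 : PP 8 4 T 0x400000000000001000000000000002000414000000141000505054000000001000000000004000000 := rS 0xbda2a69774f (k4 d73 i1948 i2045 d56 (k2 i1417 d87 k0)) (by decide +kernel)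
def d1510 : PP 8 4 T 0x1000000000000002040010000010155010505054000000001000015505404000000 := rS 0x761ab65f87e86d35129582e4 (k8 d1169 d382 d60 i2033 d787 d469 i240 i1719 (k4 d1509 d352 i721 d479 k0)) (by decide +kernel)
def d1511 : PP 8 4 T 0x8001000000000000000040000000014155415505154000000001000015501404054402 := rS 0x3e69a887b4552b056ce44da9d86360a3c44cc5a7b31729d (k8 d452 d43 d1306 d73 i1792 d1510 d38 d371 (k8 i638 i369 i330 i994 d435 i2045 d382 d60 (k4 d424 i1784 i2033 d787 (k2 d365 i406 k0)))) (by decide +kernel)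
def d1512 : PP 8 4 T 0x4001000000000000004140000000004001405005500410000001400015000004050002 := rS 0x283736b0d8a9c72410ce0d (k8 d1461 i449 d354 d468 d826 d75 d470 i1642 (k2 i1780 d114 (k1 i638 k0))) (by decide +kernel)
def d1513 : PP 8 4 T 0x8001000000000000000040000000004155415505050000000001000015500404854402 := rS 0x37a844a75 (k4 i971 i860 i821 i968 (k1 d1511 k0)) (by decide +kernel)
def d1514 : PP 8 4 T 0x1000000002000042100010000000014000000000455010001040000000484004500 := rS 0xaf05652ad5afc51ad40ec1 (k8 d382 i1302 i1396 i240 d442 d360 d72 d782 (k2 d143 i506 (k1 d1015 k0))) (by decide +kernel)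
def d1515 : PP 8 4 T 0x1000000000000040500010011000014000000000055000001000000000004000500 := rS 0x3bf5540d (k4 d1461 i2040 d782 i457 (k1 d442 k0)) (by decide +kernel)
def d1516 : PP 8 4 T 0x400000000000000001000000000000000800100000000000000000000500000001000000000004000000 := rS 0xdb05 (k2 d54 i674 (k1 d467 k0)) (by decide +kernel)
def d1517 : PP 8 4 T 0x1000000000000040000000020000000000000000000000001400000000004000500 := rS 0xefd (k2 d360 i1226 (k1 d442 k0)) (by decide +kernel)
def d1518 : PP 8 4 T 0x1000000000000004140000001004155415505050415010001440015400404850102 := rS 0xdeb70fa6cfe56722f15705652b5a62c34d3d98b94ec58ee670583cea0d (k8 d1461 i971 i597 i559 i449 i712 d1512 d452 (k8 d43 d1306 d73 i1831 d1513 d0 d1517 d1515 (k8 d54 i123 d1516 d85 d1015 i1665 i1417 d1514 (k2 i1989 i969 (k1 i2045 k0))))) (by decide +kernel)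
def d1519 : PP 8 4 T 0x14001000000000000004000000000004000000000002040000001000000000004000000 := rS 0x13b4f (k2 d389 i1642 (k1 d397 k0)) (by decide +kernel)
def d1520 : PP 8 4 T 0x1000000000000000044000000000000000000001500000001400048000004054002 := rS 0x3142a0d (k4 d1461 i638 i1616 i2029 k0) (by decide +kernel)
def d1521 : PP 8 4 T 0x1000000000000000401008050100000000000800040000401400000000014804540 := rS 0x145faaa5195c400d (k8 d1461 i711 i1627 i1650 i2027 d72 i497 d290 k0) (by decide +kernel)
def d1522 : PP 8 4 T 0x4001000000000000004401008050514001405005100040000401400080000004a04500 := rS 0x517eaa946c42ba722077038747a0d (k8 d1461 i1784 i722 i640 d1521 d422 d826 d57 (k4 i1779 i1654 i2027 d72 (k2 i497 d290 k0))) (by decide +kernel)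
def d1523 : PP 8 4 T 0x1000000000000000000004000000141000505050000000001000080100004800000 := rS 0x1366f (k2 i968 i994 (k1 i2045 k0)) (by decide +kernel)
def d1524 : PP 8 4 T 0x400000000014001000000000000004001004000105151400005050000000001000080000404800000 := rS 0x37a6c3e3f51394407643a14ead3162050712 (k8 d409 d24 d46 d1523 d0 i971 d53 d51 (k8 d826 i711 d25 d475 d798 i240 i995 i969 (k1 i2045 k0))) (by decide +kernel)
def d1525 : PP 8 4 T 0x1000000000000020140000001004155410004050015010401440011400404850102 := rS 0xde9b0f8fd44e56227286b8698b16ea70a0d8da6956b2e08c352b062e3257a84ce0b41a050e85891e6326b6783cea0d (k8 d1461 i971 i597 i1147 i631 d34 i2648 d409 (k8 d53 d51 d46 d24 i559 i449 i821 i591 (k8 d1518 d379 i1613 i288 i291 d354 d713 d12 (k8 d431 d1519 d1520 i991 i1916 d1522 d1523 d0 (k8 d1515 d99 d1524 i1779 d75 d475 i406 i240 (k2 i995 i969 (k1 i2045 k0))))))) (by decide +kernel)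
def d1526 : PP 8 4 T 0x1000000000000020100000001004155410004050015010401440411400404850102 := rS 0x5b1fcacbc5faae870537b283ead69a95c911662e4671610a74d34f6319c168340a1d0b123cc64d6cf07894ea0d (k8 d1461 i971 i860 i597 i1147 i631 d34 i2648 (k8 d409 d53 d51 d46 d24 i559 i449 d1525 (k8 d381 d228 i1641 i1689 d397 d379 d43 d1306 (k8 d454 d410 d60 d787 d1517 d1514 d1515 i969 (k8 d54 d98 i123 i1454 d1516 d1015 i1665 d1509 (k1 i1989 k0)))))) (by decide +kernel)
def d1527 : PP 8 4 T 0x1000000001000002000000000000000000000000000000001000000001404054000 := rS 0x28c2788804d11 (k4 d454 d1169 d410 d38 (k2 i730 d371 (k1 i369 k0))) (by decide +kernel)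
def d1528 : PP 8 4 T 0x1000000000000020100000001004155410000050015000401240410400404850112 := rS 0x141c31138cd3bb946075239650e85891ecf3196783c4a0d (k8 d1461 i860 i597 i1147 d34 i2648 d179 d409 (k8 d53 d51 i2406 i224 i971 d1526 d39 d448 (k4 d1527 i2046 i1511 i1512 (k2 d964 i292 k0)))) (by decide +kernel)
def d1529 : PP 8 4 T 0x8001000000000000002154004001000155010505050515000001400011500004850102 := rS 0xd256a95966c1faf563450aa686ebb3382c1e335cd3cde0d (k8 d1461 i968 d73 d43 d379 i597 i559 i449 (k8 i1948 d1523 i2045 i638 d56 i1297 i1417 d1076 (k4 i2029 d1516 d167 i1702 (k2 d1515 d787 k0)))) (by decide +kernel)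
def d1530 : PP 8 4 T 0x8001000000000000000501008051000014010000000055000401000011400804000500 := rS 0x2d0a0a47eb4866b9 (k8 d43 d379 d1515 d782 d253 d290 i249 i1397 k0) (by decide +kernel)
def d1531 : PP 8 4 T 0x1000000000000002800008000000000000000000500010001000000000004000000 := rS 0xfe565e2ae0b4f (k4 d73 d54 i123 d1516 (k2 d1015 i1665 (k1 i1989 k0))) (by decide +kernel)
def d1532 : PP 8 4 T 0x8001000000000000000500008051000014010000000055000401000011500804004500 := rS 0x182b9 (k2 d43 d802 (k1 d1530 k0)) (by decide +kernel)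
def d1533 : PP 8 4 T 0x8001000000000000002154000041000155010505050515010401400011500804850102 := rS 0x2cdfaac65ac68ab63382c1e0d (k8 d1461 i597 i559 i449 d1529 d424 i1824 d1531 (k4 d1532 d360 i1434 d414 k0)) (by decide +kernel)
def d1534 : PP 8 4 T 0x8001000000000000004144000041004155015501550404000009000000440804850100 := rS 0xb4371596ebfa1c1594ad698b08e5534b3062531a994c26705964f6440023c42c519a75720d (k8 d1461 d43 d452 d379 i1575 i46 i1132 i966 (k8 i967 d179 i2406 i559 i449 i2640 i2641 i2775 (k8 i566 i1571 i2046 d263 i770 i225 d1533 d0 (k8 d1517 d1515 d54 d98 i1454 d1531 d1015 d1509 (k2 i506 i1400 k0))))) (by decide +kernel)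
def d1535 : PP 8 4 T 0x1000000000000000100010041000155000501250015000401200000050004850102 := rS 0x21a4f13ac9e03f58855343737adc7aa7169440ed27eaa996ad823948e7f181554267059ec1e0d (k8 d1461 i597 d179 i559 i449 i821 i1539 i970 (k8 i1667 i225 d39 d85 d12 d54 i2040 d782 (k8 d1515 i457 i498 d0 d359 d88 d290 i968 (k8 d1523 i2045 i638 i1297 d1076 d371 d533 d38 (k2 i1429 d1204 (k1 d399 k0)))))) (by decide +kernel)
def d1536 : PP 8 4 T 0xa001000000000000002180000040000001000505000551010401000091100804804500 := rS 0x14aac60b2c7ab64a98d2e2f54a4ce29944a84e633 (k8 d379 d477 i821 d83 d449 d361 d28 d425 (k8 d423 d407 d3 d350 d1523 i1784 d1531 i1694 (k2 d1532 i1286 (k1 d1488 k0)))) (by decide +kernel)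
def d1537 : PP 8 4 T 0xa001000000000000004100000040004001005501400400000009000000050804850100 := rS 0x1686e2b2dd7f4382b295ad3160d8284778954d2c6660c4eab94e8cd2a634b8bd26714ca24e6531a994c26705aa4b27b2223c1e0010b15860d (k8 d1461 i250 i1575 i46 i966 i597 i1132 i967 (k8 d179 i2406 d425 i559 i449 i2640 i2641 i2775 (k8 i566 d477 d83 d449 d361 d28 d423 d407 (k8 d3 d350 d379 d452 d43 d1535 i1571 i2046 (k8 d1534 d263 i770 d351 i225 d371 i638 d1536 (k8 d0 d1517 d1515 d54 d98 i1454 d1531 d1015 (k2 d1509 i506 (k1 i1400 k0)))))))) (by decide +kernel)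
def d1538 : PP 8 4 T 0x1000000000000000100000041000155000501250015000401200000050004850102 := rS 0xb9 (k2 i2647 d1535 k0) (by decide +kernel)
def d1539 : PP 8 4 T 0x2001000000000000020100000000004001000000000000000009000000040005010100 := rS 0x458ef11110145e89218d4768742a3cd6cf3aa0506298904cf7193c984ca44000595e5339a64e29354a5cc695 (k8 d350 d3 d407 d425 d28 d361 d449 d477 (k8 i566 i591 d427 i966 i967 i2641 i2640 i2648 (k8 d34 d179 d1009 d409 d386 d24 d46 d1538 (k8 i1147 i631 i1132 d53 d51 i2796 i2775 i438 (k8 d83 d423 d456 d1528 d401 i1626 d422 d1537 k0))))) (by decide +kernel)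
def d1540 : PP 8 4 T 0x8001000000000000020100000001008814010000000055000001404011400004000500 := rS 0x1a6ac52b2d56bda2abcd74f5d9a466b9 (k8 d43 d379 i1565 i1685 d89 i631 i591 d56 (k4 i1417 d764 d1516 d167 (k2 i2040 d787 (k1 d1517 k0)))) (by decide +kernel)
def d1541 : PP 8 4 T 0x400000000000008001000000000000000140040001000555010505050555000001404011505404800500 := rS 0x56b4d4acb5ed156ccd37a8466b9 (k8 d43 d379 i821 i968 d1510 i2045 d424 i1988 (k4 d1516 d167 d787 d1517 (k1 d1515 k0))) (by decide +kernel)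
def d1542 : PP 8 4 T 0x1000000000000040150010001000155005505050555010001440000055404804500 := rS 0x6e0fadd98c310b917f4382b295a0d (k8 d1461 d1517 d1515 d54 d98 i1454 d85 d25 (k4 d470 i2032 d1531 d1514 (k2 d1509 i969 k0))) (by decide +kernel)
def d1543 : PP 8 4 T 0x8001000000000000020140000001008155010004050055000001404011505404800500 := rS 0x1368340c48f31935d3d7669 (k8 i1565 i1685 d89 i631 d34 i2648 d409 d46 (k2 d24 d1540 (k1 d1541 k0))) (by decide +kernel)
def d1544 : PP 8 4 T 0x8001000000000000020150000001008155110004050015010401440010441404850102 := rS 0x2c16cb34daa996ad82394606f03a9c5ad2138f5e03f0a8dd16af3382c528340a1d0b123cc64d60f5d9a5720d (k8 d1461 d43 i1565 i1685 i597 i631 d34 i2648 (k8 d409 d53 d51 d46 d24 d386 i559 i449 (k8 i591 i145 i997 i638 d1076 d371 d23 d38 (k8 d1542 d0 d359 d49 i968 d1543 d39 d1480 (k8 d12 d54 i2040 d753 i666 i2045 d533 i1824 k0))))) (by decide +kernel)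
def d1545 : PP 8 4 T 0x8001000000000000020110000001008155110004050015010401440010441404850102 := rS 0x16e2d28b49faaa2bb2d5b108239460360a085e2c65cabcce0b41a050f123cc641e0d (k8 d1461 i597 d34 i2648 d409 d51 d46 d24 (k8 i559 i449 i591 d43 d1544 d351 i1689 d371 (k8 i638 i996 d39 d85 d410 d12 d54 d57 (k4 i2040 d782 d1515 i497 (k2 d0 d290 (k1 d1523 k0)))))) (by decide +kernel)
def d1546 : PP 8 4 T 0x4801000000000000001010000000008000000000000000000001000011041404050002 := rS 0xc310b9066c7780546e85 (k8 d53 i996 i638 d371 d351 i1711 d468 d25 (k2 d470 d910 k0)) (by decide +kernel)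
def d1547 : PP 8 4 T 0x1000000000000020110000001008155510000050015000401240010440404850102 := rS 0x2dcde514d8b5faaa692e4605756b3620cb8245c8e67059659e253aa050629579dd0f123d9e6320d (k8 d1461 d34 i2648 d179 d409 d51 i1715 i591 (k8 d386 d24 d46 d1538 i860 i1147 i2406 i559 (k8 i449 i224 d1545 d354 d713 d422 d1107 d12 (k8 d57 d1546 d968 d1515 i2040 d782 d0 d753 (k4 i497 i968 d290 i2045 k0))))) (by decide +kernel)
def d1548 : PP 8 4 T 0x8001000000000000020110000001008155010004050015010401400011500804850102 := rS 0xcb56af562b666a6cd8af3382d06813583e9e69618a624798c8fd8ef00a8dcde0d (k8 d1461 i968 i996 i638 d371 d351 d1076 d34 (k8 i2648 d409 d386 i250 i1565 d89 i597 i631 (k8 d46 d24 i559 i449 i591 i2029 d1540 d1533 (k4 i2045 i1824 i1988 i1702 (k2 d1516 d1532 k0))))) (by decide +kernel)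
def d1549 : PP 8 4 T 0x1000000000000000140000000008000140000000010000001800000000004000000 := rS 0xdb05 (k2 d81 i1695 (k1 d926 k0)) (by decide +kernel)
def d1550 : PP 8 4 T 0x2001000000000000020100000000000001000000000000000009000000040005010100 := rS 0x2dcdeb42b41594ad698b1365523b1de03f0aae46f1618c4444775db153c7547a2d2a634b8bd26714ca24e6535790c6a3b46994c26705aa4b21314a0d0287891ec88003c85a320d (k8 d1461 d34 d427 i2648 i966 i967 d179 d409 (k8 d51 d46 d24 d386 d1009 i2406 d425 i559 (k8 i449 i2640 i2641 i2642 i2796 i2775 i438 i591 (k8 i566 d477 d83 d449 d361 d28 d423 d407 (k8 d3 d350 i145 i1132 d1538 d1539 i1526 i1685 (k8 i1715 d1547 d401 i1571 d422 i996 d43 i638 (k8 d1076 d371 d351 d1549 i1537 d1540 d1548 d0 (k8 d1517 d1515 d54 d438 i506 i1400 i887 i2045 k0)))))))) (by decide +kernel)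
def d1551 : PP 8 4 T 0x400000000000000001000000000000001001048004110000000000002500000401400000000004204500 := rS 0x146cb03ab57a3d58d154e0d (k8 d1461 i330 d424 i1824 i1784 i1988 i1702 i640 (k2 d1516 d170 (k1 i2027 k0))) (by decide +kernel)
def d1552 : PP 8 4 T 0x11000000000000000000004000010141000505054000000001000080200004000000 := rS 0x3e0e2683ed3 (k4 d0 i1303 i2045 d479 (k2 i995 i1421 k0)) (by decide +kernel)
def d1553 : PP 8 4 T 0x1000000000000000401000014100000000000000000000001440000000484004500 := rS 0x28c0e0d (k4 d1461 i1302 i240 i2027 k0) (by decide +kernel)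
def d1554 : PP 8 4 T 0x1100000000000008400005004000141000505050000015001440080000404804500 := rS 0x50dfab886268de1f50b054ae456b4c580d (k8 d1461 d1523 d0 d1517 d85 d60 d382 i821 (k8 d1553 i969 i2045 d1552 i1151 d1154 d99 d436 k0)) (by decide +kernel)
def d1555 : PP 8 4 T 0x4001100000000000020000000004004141500004150000014401440000040404854502 := rS 0xf0f0dd451fa6d64bfa1b29a62c5b955766c34d3d9c9d538d828f161b154a2160b91428340a1d0b123cc64ee6b12ad59a0d (k8 d1461 d1107 d1114 i860 i632 d273 d34 i2648 (k8 d409 d53 d51 d46 d24 i821 d85 d382 (k8 d25 d60 d75 d470 d910 d371 i638 i330 (k8 i1779 d826 d971 i1832 i1148 i1950 i1697 d1551 (k8 d1523 d0 d1554 d98 i1454 i673 i1152 d219 (k4 d355 i2045 d365 i969 (k1 i1307 k0))))))) (by decide +kernel)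
def d1556 : PP 8 4 T 0x1000000000000020200000004004141500004050000410401440000040404850502 := rS 0x18a9c0ab3c606d0715d0e85891e633173a9de0a0d (k8 d1461 d370 d273 i2646 d61 d34 i2648 d409 (k8 d53 d51 i504 d1555 i2444 i598 i1148 d875 (k2 d826 d964 (k1 i1511 k0)))) (by decide +kernel)
def d1557 : PP 8 4 T 0x4001000000000000020401004014101151000004050000000001440480000404a04500 := rS 0x1b59ca2038f87a9a3787d0681891e6320d (k8 d1461 d34 i2648 d409 d46 d24 d1553 i969 (k8 i2045 i1258 i995 i640 i2027 d798 d223 i1148 k0)) (by decide +kernel)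
def d1558 : PP 8 4 T 0x4001000000000000020001004004101151800004050000018001440480200404a04500 := rS 0x10d37940faca50a0d03123cc655ad3 (k8 d0 d1517 d34 i2648 d409 d46 d24 i821 (k4 d1557 i1328 i505 i1135 (k2 d41 d1552 k0))) (by decide +kernel)
def d1559 : PP 8 4 T 0x1000000000000000001000014100000000000000000008001440000000484004500 := rS 0x194b5 (k2 i1396 d1553 (k1 i506 k0)) (by decide +kernel)
def d1560 : PP 8 4 T 0x4001000000000000020011004004100151800004050000018001440400200404a00502 := rS 0x2746c0f (k4 i2319 i638 i1779 d1558 k0) (by decide +kernel)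
def d1561 : PP 8 4 T 0x1000000000000020200004004004151800000050000008001640400200404850502 := rS 0xa10c031f686b551ae17ccb671b18ef00aaf5345941a062e6b889fcd285891ecf31962b0cde1f56b4d4ac1724141e0d (k8 d1461 i2319 d370 d85 d382 d60 d0 d1517 (k8 d1559 i969 d470 d75 d34 i2648 d179 d409 (k8 d53 i1583 i846 d406 i632 d61 d46 d24 (k8 i2406 i2045 i1418 d1560 d371 d351 i2029 i672 (k8 i674 i1152 i1151 i1719 i1455 d99 i1329 i2027 (k2 d481 i479 (k1 d41 k0))))))) (by decide +kernel)
def d1562 : PP 8 4 T 0x1000000000000020200000004004151800000050000008001640400200404850502 := rS 0x1578a984c1c86ad83ead69a8582a57203e0a0d (k8 d1461 d370 i2319 d85 d60 d382 i821 d0 (k8 d1517 d1559 d1561 d352 d479 i721 i722 d38 (k2 i330 d371 k0))) (by decide +kernel)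
def d1563 : PP 8 4 T 0x101000000000000000200004004004141000541050501000001600000100004854502 := rS 0x5086018fb435aa8d70be56b2d9c6c63bc17ab10aa686e7b60a958ac372414de0d (k8 d1461 i968 d370 d85 d470 d75 d60 d382 (k8 d179 d1523 i2045 i638 i1297 i1418 d371 d351 (k8 i2029 i672 i674 i1702 i1152 i1151 i1719 i1455 (k4 d99 i1329 i2027 d481 (k2 i479 d41 k0))))) (by decide +kernel)
def d1564 : PP 8 4 T 0x1000000000000000001008014110140800000010000008001600000100044200502 := rS 0xa365b496a1d4d81d4e3607c347a0d (k8 d1461 i1784 d352 i2319 i638 i330 i640 i994 (k4 i722 d320 d479 i506 (k2 d375 i2027 k0))) (by decide +kernel)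
def d1565 : PP 8 4 T 0x1000000000000020200000044004151000000050000000409040000040404810500 := rS 0x513480ecb0eb304ef00a87d5a4f86ad85ac362a9582e4129a41e7f108c4ad11470d4768d30a84be5909a0d0285891ec88003cc660a478b9d4d60d (k8 d1461 i632 i2646 d61 d862 d370 d34 i2648 (k8 i966 i967 d179 d409 d53 d46 d24 d1009 (k8 i2406 i2431 i821 i2640 i2642 i2796 i2775 d1556 (k8 d406 i1133 i2659 i726 i846 i2319 i1583 i861 (k8 d85 d382 d60 d75 d470 d1562 d1563 d352 (k8 i762 i1582 d1559 d1564 d371 d38 d910 i721 (k4 d1531 i480 d479 i2027 (k1 d375 k0)))))))) (by decide +kernel)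
def d1566 : PP 8 4 T 0x4001000000000000020401000014101810000000000000000001400480000004204500 := rS 0x36b3944071f0f6320d (k8 d1461 d34 i1258 i995 i640 i2027 d798 d223 (k1 i1148 k0)) (by decide +kernel)
def d1567 : PP 8 4 T 0x4001000000000000020401004014101151000044050000000001440480000004a04500 := rS 0x28c0e1e3726d0681891e6320d (k8 d1461 d34 i2648 d409 d46 d24 d1566 i2045 (k4 i969 i1302 i241 i2027 k0)) (by decide +kernel)
def d1568 : PP 8 4 T 0x4001000000000000020011004004100151800004050000018001440400200004a04502 := rS 0x869bca07d652746ca141a0624798c9fd5ad3 (k8 d0 d1517 i846 d34 i2648 d409 d46 d24 (k8 i821 i638 i1779 d1567 i1328 i505 i1135 d41 (k1 d1552 k0))) (by decide +kernel)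
def d1569 : PP 8 4 T 0x101000000000000008441004014100141000545054000000001600000000004004500 := rS 0x14218063ed0d6aa35c2f9340d (k8 d1461 i2045 i1152 i1151 i1719 i1455 d99 i1329 (k4 i2027 d481 i479 d41 k0)) (by decide +kernel)
def d1570 : PP 8 4 T 0x101000000000000008441004014100141000545050000000001640000000004804500 := rS 0xa303878dc0d (k4 d1461 d1569 i969 i1302 (k2 i241 i2027 k0)) (by decide +kernel)
def d1571 : PP 8 4 T 0x101000000000000020214004004000151000000050400008001640400200004854502 := rS 0x136b45fb299c6c63bc02a5941a04fe8e8b9dceac152b920a6942c48f6798cab5a60d (k8 d1461 d0 d1517 d34 i2648 d179 d409 d53 (k8 i1583 d370 d85 d60 d382 i2646 d273 d61 (k8 d422 i846 d46 d24 i2406 d1568 d371 d351 (k4 i2029 i672 d1570 i1454 (k2 i506 i1152 (k1 d320 k0)))))) (by decide +kernel)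
def d1572 : PP 8 4 T 0x4001000000000000020011008004110010000000000000008001400400200004204502 := rS 0x3296a9a0f0f83a9d538d9e2ad69c368a3d (k8 i1784 d424 d352 d0 d1517 d35 i638 i330 (k8 i1779 i722 d365 d479 i1423 i1395 d1566 i506 k0)) (by decide +kernel)
def d1573 : PP 8 4 T 0x101000000000000020214000004000151000000050400008001640400200004854502 := rS 0x510780ecb0e9b04ec7780557b0d5b2b5a6a13fa3a2e773ab054ae4829a50b123d9e6320d (k8 d1461 d34 i2648 d179 d409 d53 i1583 d370 (k8 d85 d60 d382 i2646 d273 d61 d422 i846 (k8 i821 d0 d1517 d1571 d352 i1989 d1572 d371 (k8 d351 d38 i2029 i721 i674 i480 d479 i2027 (k1 i241 k0))))) (by decide +kernel)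
def d1574 : PP 8 4 T 0x1000000000000000001008014110140800040010000008001600000100004204502 := rS 0x3296aa3038787a0d (k8 d1461 i1784 d1564 i640 i241 i1395 i2027 i506 k0) (by decide +kernel)
def d1575 : PP 8 4 T 0x1000000000000020200000044004151000000050000000409040000040004810500 := rS 0xfb4d440765874d82763bc02aad5e93e1ab6169a54ac13f959c88e2ab0d8a0f88888d63b30a84b21314a0d0285891ec88798c9dc8f173ac14000d (k8 d1461 i966 d370 i2646 d61 d862 d273 d34 (k8 i2648 i967 d179 d409 d53 d46 d24 d386 (k8 d1009 i2406 i821 i2640 i2796 i632 d1565 d401 (k8 i245 i1575 i250 i1537 d422 d85 d438 i846 (k8 d382 d60 i1583 d1573 d1563 d352 i762 i1989 (k8 i1582 d1574 d371 d351 d38 i2029 i721 i674 (k4 i480 i2027 d375 i241 (k1 d479 k0)))))))) (by decide +kernel)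
def d1576 : PP 8 4 T 0x1000000000000040001015540100014400010550000000001000000000004958500 := rS 0xdc1f3fa9a840772a8c7af0 (k8 d371 d23 i322 d37 i600 d475 d533 d100 (k2 i243 i2044 (k1 i969 k0))) (by decide +kernel)
def d1577 : PP 8 4 T 0x4001000000000000004400004140000014400000550800000001000002200004858502 := rS 0x6e0f9fd80a55cacd42b50a9f620d3 (k8 d0 d422 d67 i2421 d1114 i821 i633 d968 (k4 i1383 d1576 i1516 i1305 (k2 i2044 i969 k0))) (by decide +kernel)
def d1578 : PP 8 4 T 0x1000000001000040800001000140014400010550000000001000002000004800000 := rS 0x1b83e7f602e54343 (k8 d98 i821 i987 d475 i1516 i2847 i2044 i969 k0) (by decide +kernel)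
def d1579 : PP 8 4 T 0x1000000000000000000040140200000000000000800000001000000000004150500 := rS 0x59a9d7e071f8f5e00d (k8 d1461 d371 d23 d1076 i1380 i1451 i368 i634 (k1 d533 k0)) (by decide +kernel)
def d1580 : PP 8 4 T 0x4001000000000000004000040040000014400000550800100001600002200004858502 := rS 0xc1d53ad9670d65ae54ab156b4d425f5a9f620272db34f6e5518f5e015 (k8 i2421 d371 d23 i322 d37 d179 d1107 i1962 (k8 d1126 d422 d67 d1114 i2431 i821 d0 d1517 (k8 i1967 d1579 i987 d1578 d205 i633 d1577 d1218 (k2 i721 d533 (k1 i480 k0))))) (by decide +kernel)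
def d1581 : PP 8 4 T 0x2001000000000000020000000000000000000000000000100009000000000004010100 := rS 0xd253295660758afd82ada19f9726f168f546e5183c01c7d1185620cd5a895766a62a3d9e9e3b91ceaab8bc159085438a6242b099ec16a13c8ec88001a90c2c195794ce69938a4d52974ac65220d (k8 d1461 i1171 d34 d350 d407 d425 d28 d361 (k8 d449 d477 i566 i591 d1508 d427 i438 i2775 (k8 i966 i967 i2796 i2648 i821 i559 d179 d1009 (k8 i386 d409 d386 d51 d53 d1550 d370 d61 (k8 i583 i2646 d862 d273 d1575 i133 i2813 i1526 (k8 i1186 i1685 i860 d1114 d1107 d422 i2421 d401 (k8 d67 d579 d371 d1546 d37 i322 d23 d1580 (k8 i968 i986 i2044 d100 i1556 i1516 i1723 i1967 (k4 i600 i634 d1579 d533 (k2 d475 d359 k0)))))))))) (by decide +kernel)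
def d1582 : PP 8 4 T 0x1000000000000020200000001000001000000010000000009000001240004a10102 := rS 0x13e971b0e40a734c94d5e0b4aaac8619 (k8 i8 i438 i583 i1100 i559 i591 i566 i1108 (k4 i1093 d456 i292 i638 (k2 i1244 i996 (k1 d1575 k0)))) (by decide +kernel)
def d1583 : PP 8 4 T 0x1000000000000020200000101000001000000010000000009000000240404814102 := rS 0x13c8e4bb307af00ab0d8a21720c44b0539a64a6af05a5556430c84c8e758ba16247b221e6320d (k8 d1461 d34 i2648 i967 d179 d409 d53 d61 (k8 i2646 d862 d1009 i8 i438 i583 i1100 i559 (k8 i591 i566 i1108 i1093 d370 i346 i983 d85 (k8 d25 d75 d470 d1582 d371 d1361 d910 i1243 (k2 d1107 d1575 (k1 i2813 k0)))))) (by decide +kernel)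
def d1584 : PP 8 4 T 0x1000000000000020200000001000000000000010000100009000000200004818102 := rS 0xbb352793ac50ab3d1e303695d268d39abc16952f84cee473ac5e0a8742c48f6443cc65220d (k8 d1461 i1171 d34 i2648 i967 d179 d409 d53 (k8 d51 d370 d61 i2646 d862 d273 d1009 i2431 (k8 i1100 i559 i591 i1093 d997 d904 i2319 i2444 (k8 i598 i1133 i1148 d875 d964 i1511 d826 i1186 (k2 i1685 d1580 k0))))) (by decide +kernel)
def d1585 : PP 8 4 T 0x1000000000000020200000001000000000000010000100009000000200004810102 := rS 0x25cd6561e95622c36285444e41883d223b829cd320b4aaac86192c84cf27b8c8ac88473ac5d62fc30c54c60d (k8 d1461 d586 d1581 i2640 d450 d455 d61 i2646 (k8 d862 i967 i386 d34 d179 i2648 d1009 i2406 (k8 i8 i438 i583 i1100 i559 i1108 i1093 d370 (k8 d825 i1171 d1584 i983 d85 d1583 d1582 d75 (k8 d470 d401 i1537 d1361 d438 d287 i1243 d1573 k0))))) (by decide +kernel)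
def d1586 : PP 8 4 T 0x5001000000000000000001010014100014000000000000000001400000400004004540 := rS 0x65509460d (k4 d1461 d599 d391 i2027 (k1 d98 k0)) (by decide +kernel)
def d1587 : PP 8 4 T 0x1021000000000000000200000001010000000010500001000109600000100004004102 := rS 0x22882d51e576528da4895c29442e4129960b1705a55565956bf182930398c5e0d (k8 d1461 i1077 d586 d1252 d904 d1331 d450 d360 (k8 i2406 i583 i1100 i559 d61 d370 d1026 i346 (k8 d85 d25 d60 d1586 i1403 d417 d375 i2027 (k4 i505 i1133 d324 d422 (k2 d338 d401 k0))))) (by decide +kernel)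
def d1588 : PP 8 4 T 0x1000000000000020200000001000000000000010000100009000000000004810102 := rS 0x2e56a8f1815c1d0c3e944de2d3b91cb27550984891549994c7058b9cd2a0d (k8 d1461 i1100 i1093 d61 d370 d586 d1026 d904 (k8 d1581 i967 i2640 i821 i2646 i2406 d862 d273 (k8 d1585 i968 d830 d107 d383 d1587 i2319 i598 (k4 i1133 d324 i986 d205 k0)))) (by decide +kernel)
def d1589 : PP 8 4 T 0x10000000000000a0a15000001100000000010110000141009004100000106000002 := rS 0x6727534975fa7cf06b2f44e1a336688e20855a9660b174ca845e2d15a3c4a3518a24ae420e8f58ef01b8ee320d (k8 d1461 d34 d825 i2720 d426 d351 d88 d42 (k8 i1038 i441 i231 i2717 i1115 i348 i1130 i387 (k8 d1240 i1077 i310 i1108 d61 d370 i606 d1114 (k8 d1014 d438 d401 d454 i232 d338 d910 d418 (k8 i2423 i646 d752 i1454 i1856 d673 i1857 i2035 (k1 i1152 k0)))))) (by decide +kernel)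
def d1590 : PP 8 4 T 0x1000000000000020200000001000000000000010000100009400000000004010102 := rS 0x26b3352fd3c9d678cce87d652e186a510b90aa4d82c5c169555a3c6a312d90406c14981c1e42628fc2aad58bf0c26351b491315168bd8ef01c9146e180b8ee320d (k8 d1461 d34 d825 d1588 d427 i2720 i478 d914 (k8 d426 d351 i1077 d1240 d1581 i231 d417 d375 (k8 d586 i2711 d450 d455 d360 i638 d1076 d964 (k8 i1038 i2404 d1252 d904 d1331 i23 i180 d154 (k8 i2717 i1115 i1130 i583 i1100 i559 d61 d370 (k8 i51 i704 d85 d25 d60 d470 d1586 i2027 (k8 i1330 d1589 d460 i2744 d883 i2035 i1458 i1186 (k2 i634 i1961 (k1 d1445 k0))))))))) (by decide +kernel)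
def d1591 : PP 8 4 T 0x1000000000000024210000000000000000000000000150009000100000406000002 := rS 0x2753e782f44d9b1061884aae419c5c56251a8c58ef01b8ee32858295c840d (k8 d1461 i1038 i441 d370 d1014 d34 d825 i2720 (k8 d426 d351 i2717 i1115 i348 i387 d61 i232 (k8 d468 d916 d25 d470 d438 d454 d910 d418 (k4 i646 d752 i1857 i2035 k0)))) (by decide +kernel)
def d1592 : PP 8 4 T 0x1000000000000024210000000000000000000000000110009100000000006000002 := rS 0xab1111414b7191d90406391b95c840d (k8 d1461 i1038 i441 i2720 d914 i23 i180 d825 (k4 d34 d154 d370 d1591 (k2 d401 i1538 (k1 d438 k0)))) (by decide +kernel)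
def d1593 : PP 8 4 T 0x1000000000000020200000001000000000000010000100009000000000004010102 := rS 0x16613352797ec34bae1c89d199d0ee5867a94da4663a8d623f62bc1a4c17e054725b448c4822d308dc8a180b9363315018ed263531c5c5e995782d2a0d (k8 d1461 i1100 i559 i591 i1108 i1077 d61 d586 (k8 i1115 d904 d825 i23 d1581 d34 i51 d1588 (k8 d427 i478 i2720 i2711 d1240 i180 i2717 i231 (k8 d154 d914 i638 d450 d1331 d417 d426 d964 (k8 d1076 d455 d375 d351 d1590 i1695 i208 i1148 (k8 d1592 i805 i606 i233 d883 d468 i2033 i1410 (k4 d470 i1458 d940 i1186 (k2 i1960 i634 (k1 d1445 k0))))))))) (by decide +kernel)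
def d1594 : PP 8 4 T 0x1000000000000020200000001000000000000000000100009400000000004810102 := rS 0x67274da545f03996bb5ea7d0ea5a11ad9b1242ad506b90a204267b2c97cee1c441d4f2448ca44cb058b94d5e0b5593d6e99289f4fe956081c5a2f2ba3d26ad58bf0c27026c54c60d (k8 d1461 d586 d1581 i51 d1593 i1280 d450 d455 (k8 d360 d904 i877 i504 i1077 d70 d1252 d1331 (k8 i1100 i800 i1360 i1358 i1108 i802 d211 i583 (k8 i559 i591 i566 d61 d370 d1026 i1171 d34 (k8 i967 i2648 i2646 i710 i709 d273 i2431 i2406 (k8 d179 d1009 i1363 d876 i1408 d1355 d324 d1014 (k8 d409 d1107 i2421 d391 i1381 d51 i1186 d378 (k8 d58 d98 d1586 i2047 i2037 i2444 i1646 d229 (k1 i1148 k0))))))))) (by decide +kernel)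
def d1595 : PP 8 4 T 0x1000000000000020200000001000000000000000000100009400000000004010102 := rS 0x8896568765c295c85507908301782c5c169555b040e2d1795d1e9356bf0c27026c54c60d (k8 d1461 d586 d1581 i51 d1593 i1280 d450 d360 (k8 d904 i877 i504 i1077 d70 d1252 d1331 i583 (k8 i1100 i559 d61 d370 d1594 d427 i1038 i2404 (k8 i704 d85 d60 d1586 i1408 i1407 i805 d349 (k1 d438 k0))))) (by decide +kernel)
def d1596 : PP 8 4 T 0x1000000000000000200000000000000000000000000000009800000000004800000 := rS 0xeb17 (k2 d61 i2646 (k1 d862 k0)) (by decide +kernel)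
def d1597 : PP 8 4 T 0x1000000000000020200000001000000000000000000100009000000000004010102 := rS 0x1ad3c1261a2146e44eae466743b9619e6d63bc02a392d9046e450c05d4ac51891962fc03b04c22d3825416af179363315018ed26353298e2e0d (k8 d1461 d61 d586 d1026 i1115 d904 d825 i23 (k8 d1581 d34 i51 i1077 i591 i559 i1100 d1593 (k8 d70 i1280 d1331 d1252 d450 d455 d1595 i1531 (k8 i1536 i208 d1596 d427 i478 i2720 i180 d154 (k8 d914 i638 d426 d351 i1695 i1148 d1592 i805 (k8 i606 i233 i1408 d883 d468 d599 i2033 d470 (k4 d876 i2035 i1960 i1186 k0))))))) (by decide +kernel)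
def d1598 : PP 8 4 T 0x50010000000000000a0001000000110015000004054000000001000080101504800000 := rS 0x286b95a262187d5ba0d03123cc652e3d (k8 d88 i1777 d34 i2648 d409 d46 d24 d648 (k4 d107 d383 d1523 d338 (k2 i2785 d55 (k1 d391 k0)))) (by decide +kernel)
def d1599 : PP 8 4 T 0x1000000000000000601000000040000000000580000000009400000000004004540 := rS 0xad55941731752b920a0d (k8 d1461 d370 d85 d60 d61 i2783 i1094 i584 (k2 d891 i2027 k0)) (by decide +kernel)
def d1600 : PP 8 4 T 0x10010000000000000a0600000000000005000004414000010009400080100004804540 := rS 0x2b556565c9562298112dce6a510895c9058ba54ea8340c48f31950911822f51a5c7a0d (k8 d1461 d88 i1777 d375 i2753 d1331 i967 i308 (k8 d34 i2648 d409 d46 d24 i2646 i1101 d61 (k8 d370 d85 i346 d25 d60 d1599 d648 d1598 (k8 d1523 d401 i1537 i2785 d438 i584 d326 i2027 k0)))) (by decide +kernel)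
def d1601 : PP 8 4 T 0x10010000000000000a0600000000000001000004014000000009400000100004a00542 := rS 0x478c0da57070d9268d8b9d4ef052f964880d (k8 d1461 i967 i2406 i2431 d370 d273 i2646 d61 (k8 d997 d904 i638 d1600 i2319 i2444 i598 i1133 (k1 d875 k0))) (by decide +kernel)
def d1602 : PP 8 4 T 0x1001000000000000020200000002000001000000010000000009400000040004810502 := rS 0x279309d47ac99e302bac55e0e2826ce50d13bc07ec50a8f546a760b49422d49a362efd4ab2c5e753bc14de13038a5068143a16247b221e6320d (k8 d1461 d34 i2648 i967 d179 d409 d53 d51 (k8 d46 d24 d386 i2293 d1009 i2643 d370 d273 (k8 i2646 i2753 d1263 i1101 d374 d61 d997 d904 (k8 i975 i308 d442 d1331 d359 d375 d88 d1601 (k8 d964 d1076 d371 d38 d1204 d383 i2806 i1094 (k8 d1599 i592 i1315 i2319 i598 d860 d1011 i1133 (k4 i1511 i664 d826 i1112 k0))))))) (by decide +kernel)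
def d1603 : PP 8 4 T 0x1000000000000000000004002000101000505054000000001000000200004200012 := rS 0x4da5d5e39 (k4 i292 i2398 i1244 i1178 (k1 i2045 k0)) (by decide +kernel)
def d1604 : PP 8 4 T 0x1000000000000000200000000000000005000501000110009600000010004154000 := rS 0xd26b2b1551d11618844ae482c5c56c56389de00d (k8 d1461 d371 d38 d351 d964 i386 d61 d370 (k8 d85 i346 d25 d470 d505 d422 d373 i1133 (k2 d287 i1583 (k1 i2029 k0)))) (by decide +kernel)
def d1605 : PP 8 4 T 0x1000000000000020200000000000000000000010000100009400000000004810102 := rS 0x16ab9478c0ae0e36b3d34971ebc02a7f861f56e99398b0a20a02c552665319852acb3a9de0a6f54164262b14a0d028742c48f6443cc65220d (k8 d1461 i1171 d34 i2648 i967 d179 d409 d53 (k8 d51 d46 d24 d386 i386 d1009 i2406 d1597 (k8 i2643 d370 d273 i2646 d1263 i1101 i96 d586 (k8 d1026 d904 d1581 d456 d1602 i2312 i560 i1094 (k8 i2655 d648 d107 d383 d353 d1603 d371 d23 (k8 i1243 i2045 i2792 i672 d1604 i2319 i598 i1133 (k2 i2660 d324 (k1 i2044 k0)))))))) (by decide +kernel)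
def d1606 : PP 8 4 T 0x1000000000000020200000000000000000000000000100009400000000004810102 := rS 0xd3058705a7003911faa8 (k8 d1597 d374 i967 i2293 d1605 d70 i709 i560 (k2 d42 d442 k0)) (by decide +kernel)
def d1607 : PP 8 4 T 0x1001000000000000000200001002000540010000000000810009404140000006000102 := rS 0x154ad50ae5a653170edfacb289cc162d279f621052b954840d (k8 d1461 i1038 i704 i441 d370 d438 d67 i702 (k8 d1240 i560 i2756 i496 d1263 d374 d825 d485 (k4 d735 d358 i2779 i819 (k2 d1517 d1113 (k1 i584 k0))))) (by decide +kernel)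
def d1608 : PP 8 4 T 0x1001000000000000020210000002000000000000110000100009504000000006000102 := rS 0x5356aad64b15ca60bd133626d2ecd11b3a20855a965268d8bbf5962b478946a5b2080ca2732b93caaf01c8dc771910b0dc80f21415120d (k8 d1461 i231 d370 i1038 i2404 d85 d470 d25 (k8 d34 d825 i2720 d914 d426 i704 i702 i441 (k8 i2756 i496 i23 i180 d154 i1115 i348 i1130 (k8 i387 d1263 d374 d61 d997 d904 i606 d1114 (k8 d1014 d438 d1592 d401 d454 i1983 i2792 i1148 (k8 d910 d418 d1607 i2785 i1825 i1109 i584 i1702 (k2 i2438 d1258 k0))))))) (by decide +kernel)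
def d1609 : PP 8 4 T 0x1000000000000020200000000000000000000200000100009400000000004010102 := rS 0x16eb15794c0c9b698b9065f352e53cab4e9fd9e58198149b15498d4c6fd4ab2c56312d904065139aa0162d27b142ac71ebc072451b8ee32a561b901e420c05e0a0d (k8 d1461 d370 d1606 d427 i1038 i2404 d85 d470 (k8 d60 d34 d825 i2720 i478 d914 d426 d23 (k8 d351 i638 d964 i702 d1240 i560 d1597 i2756 (k8 i496 i23 i180 d154 i2717 i387 d1263 i1101 (k8 d374 d586 i1115 d904 d1581 i51 d456 d460 (k8 i1064 i2744 i1667 d883 i2392 d985 i1140 i1186 (k8 d752 d1202 d1268 d358 i2802 i1078 d788 i592 (k2 i1227 d290 (k1 d1492 k0))))))))) (by decide +kernel)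
def d1610 : PP 8 4 T 0x1000000000000020200000000000000000000000000100009400000000004010102 := rS 0x2ad5ab969ad4467d29a8620702c9d54a2160b907ec52a93cae0f059442a25210b4e637228602e4d8aa4c6b057eb2d500d (k8 d1461 d1597 d1263 d374 d370 i1115 d904 d1581 (k8 i51 d1606 d427 i478 i2720 i2756 d1240 i1038 (k8 i348 i638 i496 i560 i2404 i441 i702 i704 (k8 d964 d1076 d85 d382 d25 d60 d1609 i606 (k8 d1608 d438 d463 i797 i1360 d401 d349 d1469 (k4 i1407 d1517 i584 d1258 k0)))))) (by decide +kernel)
def d1611 : PP 8 4 T 0x1000000000000020200000000000000000000000000100009000000000004010102 := rS 0x2d962af2981936d31720cbe6a4f30dc89d199d0ee58679b47ac77813c16510a9fc725b15904842d398de84450c2e42ea562aac62464ab2dfaa88b8149b198a80c76931a994c60d (k8 d1461 d586 d1026 i1115 d904 d825 i23 d1581 (k8 d34 i51 d456 d61 d1597 d374 d1263 i1101 (k8 d1610 i1531 i1656 i1536 i208 d1596 i1140 d427 (k8 i478 d391 i2720 i2756 d1240 i1038 i180 i387 (k8 d154 d914 d100 i638 i496 i560 i702 d426 (k8 d351 d23 i1695 i1148 d1592 i805 i606 i233 (k8 d883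 d468 d470 d985 i1186 d752 d1202 d1268 (k8 d358 i2802 i1078 d788 i592 i1227 d1492 d290 k0)))))))) (by decide +kernel)
def d1612 : PP 8 4 T 0x4001000000000000000000000000000000400000100000000001000000000805000000 := rS 0xef11 (k2 d401 i1626 (k1 d422 k0)) (by decide +kernel)
def d1613 : PP 8 4 T 0x1002000000000020500000001000051410000050005000401240080000404850112 := rS 0x279703b498d4ca6717a655a0d (k8 d1461 d360 i1108 i1077 i449 d1026 i1115 d904 (k4 d825 d782 d1528 i2669 k0)) (by decide +kernel)
def d1614 : PP 8 4 T 0x1001000000000000000000000000000161000505050000000001000080000004800000 := rS 0x2dd366f (k4 i2644 i2668 d648 i2045 k0) (by decide +kernel)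
def d1615 : PP 8 4 T 0x4001002000000000020100000001000051410000150005000401240080000004850112 := rS 0x11b2cca19 (k4 i8 d1026 d713 d1612 (k1 d1613 k0)) (by decide +kernel)
def d1616 : PP 8 4 T 0x1001000000000000020100000001000001000000010000000009400000240004a10102 := rS 0x1b968b72b3313e69628c442e45fd0e0aca5ca7467163aa552e8949994ce8f359641e734c94d5e430c84d5afc3098c528340a1d0b123c9ec89191c8146c0d (k8 d1461 i638 d456 i292 d34 i967 d179 i2648 (k8 d409 d53 d51 d46 d24 d386 d586 i2640 (k8 d450 d360 d1009 i8 i438 i591 i566 i1108 (k8 i1093 i597 i605 i631 i1132 i449 d1026 d904 (k8 i68 i1244 d1614 d1538 d1615 d379 d452 d43 (k8 d782 d54 d98 i1454 d85 d25 d39 d75 (k8 d263 i996 d1306 d1015 d1531 i506 d1509 i1400 k0))))))) (by decide +kernel)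
def d1617 : PP 8 4 T 0x4001002000000000000100010000000004400000154055010401000000000004000000 := rS 0x1113ba5196ad (k4 d360 d713 d782 i1676 (k2 d969 d422 k0)) (by decide +kernel)
def d1618 : PP 8 4 T 0x1002000000000000100010000000014400050554055010101000000000004000000 := rS 0x2bc14ab11652d15a4f (k8 d395 d360 i2044 d782 d349 i767 d54 i505 (k1 d438 k0)) (by decide +kernel)
def d1619 : PP 8 4 T 0x1002000000000000101000000000001425055154005010501402000001044050542 := rS 0x13ecd6208dcaa465a5146774e8ce2c3b49994ce0f56aad720d (k8 d1461 i2897 d72 d360 i597 i449 d1026 d904 (k8 d825 d1617 d379 d452 d78 i280 d1618 d1027 (k4 i2027 d60 i248 i1386 (k2 d1527 i1526 (k1 d1306 k0))))) (by decide +kernel)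
def d1620 : PP 8 4 T 0x1001000000000000020100000001000001000000010000000009400000040004a10102 := rS 0x1950452b954622180cce8881e07cfe96862dca27d4d81d826f168d92659079cc5e992982c4a8f09ab556fc3098d068143a1624793d912320d (k8 d1461 d34 i967 d179 i2648 d409 d53 d51 (k8 d46 d24 d586 i2640 d450 d72 d360 d1009 (k8 i1132 i860 i559 i566 i1108 i1077 i1093 i597 (k8 i605 d904 i638 d1616 i968 d1331 d1252 i994 (k8 d107 d830 d648 d383 i2045 d353 d476 i1777 (k8 i1778 d1619 d460 i970 i971 i280 d39 i248 (k2 d85 i2027 (k1 d54 k0)))))))) (by decide +kernel)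
def d1621 : PP 8 4 T 0x1000000000000020110000001000051410000050005000401240000040404850112 := rS 0x9e1da4c6a8d328bd320d (k8 d1461 i1108 i1077 d1026 d997 i1115 d904 d825 (k2 d1528 d1547 k0)) (by decide +kernel)
def d1622 : PP 8 4 T 0x4001002000000000020110000001000041410000150005010401240000040004850112 := rS 0x6f5ca5046933299c320d (k8 d1461 i8 i449 d1026 d904 d1612 d1621 i104 (k2 i2644 d1617 k0)) (by decide +kernel)
def d1623 : PP 8 4 T 0x1001000000000000020100000001000011000000110000000009400000040004810102 := rS 0x599b136694f30c62211132926353299cd6cf078bd32af56a050e851fb1c66b93bc592e891609de0a105a0c53121eac58a157e04cf27b8c90c32612214ce6594798c0a0d (k8 d1461 d456 d586 i1132 i605 i1093 i566 i967 (k8 i2640 i8 i438 d34 d179 i2648 d1009 d450 (k8 d1620 d964 d455 d1361 d409 d386 d24 i559 (k8 i821 d371 d38 d1440 i68 i1243 d1622 d78 (k8 d43 d379 d351 d1076 d53 d51 d46 d360 (k8 i591 i1108 i1077 i597 i1147 i631 i449 d1026 (k8 i1115 d904 d782 d1621 i46 i1571 i250 d1534 (k4 d263 d1540 i2029 d1020 (k1 i673 k0)))))))))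 (by decide +kernel)
def d1624 : PP 8 4 T 0x1001000000000000020100000001000001000000110000000009400000040004810102 := rS 0x61885747f4d08d9b0c5bafc606f5150d28a55cc580a594c94c4a8f21865028562a252e2c13bc142730584d0629891e4f6448c8f42ab17e184c60d (k8 d1461 d586 i2640 d450 d455 d1620 d1361 d34 (k8 i967 d179 i2648 d409 d386 d24 d1009 i559 (k8 i1093 i821 d371 d38 d1440 i1243 i68 d964 (k8 d53 d46 i8 i438 i1132 i860 i566 i1108 (k8 i605 d456 d1622 d43 i1383 d1623 d447 i979 (k8 i2644 i978 i1726 d648 d383 d1509 i1571 i2045 (k4 d353 i1182 i1649 i1945 (k1 d910 k0)))))))) (by decide +kernel)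
def d1625 : PP 8 4 T 0x1001000000000000020100000001000001000000010000000009400000040004810102 := rS 0x9a5dadcd90437b0dca94110c0e8971609d8e3d783142a93329ac1e9929abc16a13984d62ab7e184c62941a0624793d912320d (k8 d1461 d34 i967 d179 i2648 d409 d46 d24 (k8 d386 d586 i2640 d450 d72 d455 d1009 i1093 (k8 i821 i559 i591 i566 i1108 i597 i631 d1026 (k8 d904 d1620 d964 d371 d1361 d351 d38 d1440 (k8 i1243 d1624 i970 i971 d1538 d39 i250 i2644 (k4 d85 d114 d648 i1681 (k2 i2045 i1182 k0))))))) (by decide +kernel)
def d1626 : PP 8 4 T 0x4001002000000000000100000000000014000000120054000409000000000004804500 := rS 0x2d170a465a3cc2ad558b4a27f0e28d100d (k8 d1461 i710 i281 i709 i2467 i1358 d70 d72 (k8 d360 i2640 i1132 d713 d874 d782 i1381 d279 k0)) (by decide +kernel)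
def d1627 : PP 8 4 T 0x1001000000000000020100000001000410000000120000000009000000000004800102 := rS 0x9e3695e0aca3bae53b1645a4d1a6533a3d9e590794d5e0b222b562fc309440e2d17accc60d (k8 d1461 d586 d1020 i1077 d70 d1252 i1358 i2640 (k8 d450 d455 d360 i967 i559 i591 i566 i597 (k8 i605 i1147 i1132 i449 d1026 d997 d904 i145 (k8 d1626 d452 d43 d78 d782 d54 i505 i673 (k2 d1012 d926 k0))))) (by decide +kernel)
def d1628 : PP 8 4 T 0x4001002000000000000500010000000000400050500050010501000000000004000000 := rS 0x2b15620b5822b49eab (k8 d72 d395 d360 d354 d1148 d422 d474 i2037 (k1 d57 k0)) (by decide +kernel)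
def d1629 : PP 8 4 T 0x1001000000000000020100000001000001000000120000000009400000000004810102 := rS 0x9f66b1c46e5522746716659dd72943299cb20f298951ead43a14a27d3f87c329b60a4c7e1c41c486c14038b45eaf099e4f6448ca2162fc3082cc60d (k8 d1461 d586 i559 i2640 d450 d455 i710 d34 (k8 i967 d179 i2648 d1009 i591 i1077 d70 d1252 (k8 d876 i638 d409 d24 i709 i1421 d904 d1331 (k8 i1447 i8 i1357 i2467 i1360 i1358 d53 d51 (k8 d360 i1132 i860 i566 i597 i605 i449 d1026 (k8 d1627 i104 i1675 d1027 d1628 d379 d452 d295 (k4 d60 i248 i414 d1527 (k2 i997 d1306 k0)))))))) (by decide +kernel)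
def d1630 : PP 8 4 T 0x1001000000000000020100000001000001000000000000000009400000040004810102 := rS 0x142653954aa31808466746981d821c440b4e093078bc32ad7e184c60d (k8 d1461 d586 i2640 d450 d360 i8 i1077 i597 (k8 d904 d1625 d70 i710 i709 d1331 d1252 d42 (k8 d1629 d460 i1500 i970 i280 i1382 d39 d295 (k2 d475 d98 k0)))) (by decide +kernel)
def d1631 : PP 8 4 T 0x1000000000000020000000001000000000000000000100009000000000004810102 := rS 0x27e2c6d8291856133d9e4891945a462a8d3299d920d (k8 d1461 d1611 i449 d1026 d997 d1581 i1171 i145 (k8 d34 i967 i2648 d179 d1009 i386 d1630 d81 (k4 i1696 d354 d926 d329 k0))) (by decide +kernel)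
def d1632 : PP 8 4 T 0x4001000000000000000101000014040000000000000050000001400011000006000540 := rS 0x2080d (k2 d1461 d354 (k1 d531 k0)) (by decide +kernel)
def d1633 : PP 8 4 T 0x8001002000000000000101000000040014010000000055000001400001500004004000 := rS 0x72c1548ca568cd720d (k8 d1461 d43 d379 d360 d782 d678 d54 d60 (k1 d85 k0)) (by decide +kernel)
def d1634 : PP 8 4 T 0x1001002000000000000100000000000000400000150004010001400000400004400502 := rS 0x8d681f72c31486f65a522c553299c1e61128d582930395c84ad55a8da489168c4300d (k8 d1461 d427 i1041 d1240 i231 d417 d375 d72 (k8 d360 i1038 i441 d1252 d904 d1331 i1115 i348 (k8 i2711 i597 i449 d1026 i704 d1632 d1633 d1027 (k8 i1057 i2027 d383 d60 d476 d1154 i248 d1194 k0)))) (by decide +kernel)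
def d1635 : PP 8 4 T 0x1001002000000000004150000000000000440000150404010001000140400004400502 := rS 0x27467164fb0e0a46188ec6a8d3299c300d (k8 d1461 d427 i449 d1026 d997 i1115 d825 i1041 (k8 d1634 d81 i211 d1549 d354 d379 d452 i2035 k0)) (by decide +kernel)
def d1636 : PP 8 4 T 0x1001002000000000021000000000000020001001240504155149000000000004000000 := rS 0x1746c4d21cbeab (k4 d72 i646 i1708 d1247 (k2 i2039 i1182 (k1 i1681 k0))) (by decide +kernel)
def d1637 : PP 8 4 T 0x1001002000000000020110000000000104000000250055144149004502504006000000 := rS 0x9b4b9e1288566ae4406b1bab51255659a60859 (k8 i605 d281 d431 d54 i1539 i231 d360 i2720 (k8 i631 i1042 i2718 i729 i1503 d782 d1636 i1856 (k2 i2749 d485 k0))) (by decide +kernel)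
def d1638 : PP 8 4 T 0x1001002000000000020110000000000100000000050000100009004000404004400502 := rS 0x1be1a7f0f2504431523948ecb820cce8a369225166533a3cd6cf2c83cc2251a96c820360a4cae4f56aaca2071698c84c7780e48a370c0ee320d (k8 d1461 d34 d825 d427 i2720 i478 d914 d426 (k8 d351 i1038 d586 d1240 d1252 i439 d72 d360 (k8 i702 i441 d904 d1331 i23 i180 d154 i1115 (k8 i348 i2711 i597 i605 i1147 i631 i1132 i449 (k8 d1026 i145 i231 d417 d375 d1635 d460 d281 (k8 d54 d81 d143 i2027 d1637 d124 d1223 i248 (k4 i1663 d476 i1058 d383 k0))))))) (by decide +kernel)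
def d1639 : PP 8 4 T 0x1001000000000000000000000000080000000000000000000001000000500006000000 := rS 0x112d3 (k2 d375 d176 (k1 d417 k0)) (by decide +kernel)
def d1640 : PP 8 4 T 0x9001002000000000020110000000000014000000040055140049480511500006004000 := rS 0x13ec32f3913705443299ec1569440ec7780de32a319a75720d (k8 d1461 d43 d452 d379 d1639 d34 i2720 d426 (k8 d351 d1252 i439 d360 d1331 i1147 d782 d1633 (k4 d54 i1444 d85 d1247 (k2 d470 d752 (k1 i2035 k0))))) (by decide +kernel)
def d1641 : PP 8 4 T 0x1000000000000020000000001000000000000000000100009400001000004010102 := rS 0x613353e5e4187844e55a29196943f9dd3a338b154ca67679641e53158946aa16095c9ead559440e4263bc0726f3e9c07ec51396c8b191d90406151bbf0c26305a64e6c949a8c5a180b8be2a0d (k8 d1461 d1581 i1077 d1631 d427 d1240 d1639 d904 (k8 d1611 i1093 i1108 i559 d586 i2711 d450 i2720 (k8 i638 i23 i180 d825 d34 i478 d154 d1126 (k8 d964 d1076 d1638 i1360 i77 d914 d426 d351 (k8 i1038 d1252 i439 d72 d360 i702 i441 d1331 (k8 i310 i1115 i348 i387 i566 i597 i605 i1147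 (k8 i449 d1026 i704 d1632 d379 d452 d78 i799 (k8 d1640 d1027 i2027 i2037 d60 d1189 i248 i1435 (k4 d1253 d752 i890 i2035 (k1 i251 k0)))))))))) (by decide +kernel)
def d1642 : PP 8 4 T 0x1000000000000020000000001000000000000000000100009000001000004010102 := rS 0x27467164fb0e0a46458d51a65339ad9ec9628558ef01c9146e180b8ee320d (k8 d1461 d34 d825 d1631 d427 i2720 i478 d914 (k8 d426 d351 i638 d964 d1611 i1147 i631 i449 (k8 d1026 d997 i1115 i145 d1641 d81 i211 d1549 (k4 d354 d379 d452 i2035 k0)))) (by decide +kernel)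
def d1643 : PP 8 4 T 0x1000000000000020000000001000000000000000000100009000000000004010102 := rS 0x65956082323b94607d379c0a2ab568fd8a272795c0efc0a96c4a41210b4c237228602e0b29a645e738cc54063b498d4ca632c83d920d (k8 d1461 d1611 i597 i605 d586 d1026 i1115 d904 (k8 d825 i23 d1581 d34 i1093 i1077 i1108 i566 (k8 i559 d1631 d427 i478 i2720 i2711 d1240 i1038 (k8 i180 i348 d154 i638 d450 d1252 i441 i702 (k8 d1126 d964 d1076 d360 d72 i439 d1638 i77 (k8 i1360 d1642 d39 i1531 i1572 d85 i704 d54 (k1 d1314 k0))))))) (by decide +kernel)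
def d1644 : PP 8 4 T 0x5001000000000000000000010002000154540105154140501011000000000004000000 := rS 0xaeab3b508fab7599fe18b5 (k8 d1114 d383 d353 i664 d648 d107 d391 i2044 (k2 d458 i1627 (k1 d902 k0))) (by decide +kernel)
def d1645 : PP 8 4 T 0x5001000000000000000150100002000144145105154050500009000000255004000000 := rS 0x30c431051250aa69821351efd5c944ff0c (k8 d383 d353 i496 i1139 d374 i1132 i51 d354 (k8 d431 d474 d1644 i979 d734 i1649 i329 d505 k0)) (by decide +kernel)
def d1646 : PP 8 4 T 0x8001000000000000040000110082100015500454154400410001400000001004154000 := rS 0x51b95846d5fb0686695a3f596c563bc0ee0d (k8 d1461 d78 d371 d351 d964 d1263 d374 i2044 (k8 d261 d55 i1248 i1455 i594 i2029 d470 i329 (k1 d475 k0))) (by decide +kernel)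
def d1647 : PP 8 4 T 0x1001000000000000020100000002000000000000110000100009400000200004810002 := rS 0x2086d61a797ea24a4597aae4d25c4e3d63bc18a7f0ac316e7d52a64e6d302a2d268d3299cd65907ae4de254797c262b14a0d028742c48f6443cc65220d (k8 d1461 i1171 d34 i2648 i967 d179 d409 d53 (k8 d51 d46 d24 d386 i386 d1009 i2431 i1132 (k8 i860 i2643 i1139 i597 i605 i631 i449 d1026 (k8 d997 d904 i145 d456 d0 d236 i2655 i1383 (k8 d107 d648 d383 d1603 d353 d964 d371 d351 (k8 d23 d38 i1243 i2045 i1178 i1417 d1645 d1646 (k4 i979 i1726 i1181 i329 (k2 i594 d926 (k1 d114 k0))))))))) (by decide +kernel)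
def d1648 : PP 8 4 T 0x800000000000001000000000000000401000010040000000000000000000001400000000004004540 := rS 0x2ad4a0d (k4 d1461 d421 d458 i2027 k0) (by decide +kernel)
def d1649 : PP 8 4 T 0x1001000000000000025000001012000001400004550000015001201004100004a00002 := rS 0x156bb27ac93c984ea5d363657a4dfacb29a0d028742c48f319059456e6f (k8 i2643 d648 i496 i560 d34 i2648 d409 d53 (k8 d51 d46 d24 i2385 d1263 d374 d904 i587 (k8 i638 i1178 i1777 i1780 d1523 i2046 i1109 d327 (k2 i1686 i666 (k1 d1258 k0))))) (by decide +kernel)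
def d1650 : PP 8 4 T 0x1001000000000000025000001012000001400000550000015001200004140004850102 := rS 0x99e03f0a87e18b7378a50681891ecf31950a9c3a3d6902dfa07 (k8 i2293 d374 i560 d442 d88 d42 d359 i822 (k8 d34 i2648 d179 d409 d46 d24 d386 i2643 (k8 d648 d383 d476 d1649 d1076 d371 i2031 d38 k0))) (by decide +kernel)
def d1651 : PP 8 4 T 0x11001000000000000005000000000200401400005500000000001001002000004204012 := rS 0x7d44632653cbf4ba7586361ca1d0b12 (k8 d409 d53 d51 i292 i638 i369 i1512 i1777 (k4 i1452 i2046 i1113 i997 (k2 d466 i414 (k1 d459 k0)))) (by decide +kernel)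
def d1652 : PP 8 4 T 0x5001000000000000020100000002000001000000110000000009400000140004810102 := rS 0x5158eb21f8dd8a151829156b15794136722bc4066774a50caaad66ad608051a994ce8f35b3cb20f65ae42681891ecf31960a4c5ea7518f5a40b7e81c880d (k8 d1461 i967 i2293 d374 i560 d442 d88 d375 (k8 d359 i2753 d904 d1331 d34 i2648 d179 d409 (k8 d46 d1009 i1139 d1263 i597 i605 i1147 i631 (k8 i1132 i449 d1026 i1115 d456 d354 d1114 d1107 (k8 d12 d474 d1648 d391 i1676 i1671 d422 d57 (k8 d1650 i2806 i1094 i592 i1315 i497 i2027 d574 (k8 d1651 d964 i991 d1076 d1011 i1692 d355 d157 k0))))))) (by decide +kernel)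
def d1653 : PP 8 4 T 0x21000000000000080000000000010000000400000000000001000000050004150100 := rS 0x133c07e3d (k4 d88 d1076 d371 d1204 (k1 d38 k0)) (by decide +kernel)
def d1654 : PP 8 4 T 0x1001000000000000084000010000001011405505554000000001000000150004850102 := rS 0x2ee9ecc5ea7e8a984b8d828bfa1ad218b73ea4d423d (k8 d88 i822 d904 d107 d648 d383 d205 d55 (k8 i1455 d1653 i638 i1777 d1523 d408 i1113 i1991 (k4 i2046 d73 i1948 d87 k0))) (by decide +kernel)
def d1655 : PP 8 4 T 0x1001000002000004401001140001001405005500400000201400080000004004540 := rS 0x2da887e59aa95abb2ab313ea518a8da40d (k8 d1461 d442 d375 d39 d60 i996 i2046 i770 (k8 i1949 i1314 i2027 i666 i498 d414 i848 d424 k0)) (by decide +kernel)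
def d1656 : PP 8 4 T 0x19001000000001000004000001000200401400005100000000001001000001004254012 := rS 0x629e6688d0e8589274ee36 (k8 i638 d78 d452 d409 d53 d51 i249 d1527 (k2 d1306 d1651 (k1 i996 k0))) (by decide +kernel)
def d1657 : PP 8 4 T 0x19001001000000000004401001040000401400005100400000201400000001004254552 := rS 0x4621889f8acaa52ab608e51b21d0aa31eb493a7758a06240d (k8 d1461 d409 d46 i1315 d78 d452 d442 d88 (k8 d375 d53 d51 i638 d1655 d85 d12 d1656 (k4 i2027 i497 i498 d57 (k2 i1497 i1663 (k1 d410 k0))))) (by decide +kernel)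
def d1658 : PP 8 4 T 0x9001000000000000024000010002000011400000110400010009400000140004814102 := rS 0x2ad5aa55d9a69ecc4faf53145590fc2ab1579416a9b39015966f1284c528340a1d0b123d9e632c1498bd4ea36902dfa0722274ee0d (k8 d1461 d78 d452 i967 i2293 d374 i560 d442 (k8 d375 d359 i2753 d904 d1331 d34 i2648 d179 (k8 d409 d53 d51 d46 d24 d386 d1009 i860 (k8 i2643 d1263 d456 d1654 i2806 d312 i1094 i592 (k8 i1315 d1657 d1076 d1011 d355 i664 i1413 i1112 (k8 i2046 d73 i1831 i1949 d167 i1434 i666 i2027 k0)))))) (by decide +kernel)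
def d1659 : PP 8 4 T 0x8001000000000000024005000016000201400001100000000001600000001044054502 := rS 0x66a7c46bf72a9208cb43a16247b8ca8da4fd03a74ee0d (k8 d1461 d78 d452 i2293 d374 d442 d375 d34 (k8 d179 d409 d53 d51 d1263 d331 i2027 d143 (k4 i1452 i248 i1113 d1527 (k1 i2046 k0)))) (by decide +kernel)
def d1660 : PP 8 4 T 0x9001000000000000024001000012000001400000150000000001600000140004854102 := rS 0x19a9f5d2fd54b24c25d8636578503f0c5b9bc4a2941a050e85891ecf319508f5a40b7e81d3a77 (k8 d78 d452 i2293 d374 i560 d442 d88 i822 (k8 d34 i2648 d179 d409 d53 d51 d46 d24 (k8 d386 i860 i2643 d648 d383 d476 d1653 i587 (k8 i638 i369 i1777 d1523 i1109 d1659 i1722 i666 (k2 i1113 i1948 (k1 i2046 k0)))))) (by decide +kernel)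
def d1661 : PP 8 4 T 0x8001000000000000020000000816000000000000000400000001600000000004150502 := rS 0x8229da4fd03b147ec778515300d (k8 d1461 i664 d355 d371 d351 d1076 d964 i2293 (k4 d374 d442 d359 d331 (k1 d157 k0))) (by decide +kernel)
def d1662 : PP 8 4 T 0x1000000000000020000000000000000000000110000100009400000000004810102 := rS 0x462166b0cfc565faa97b45593c18a1558abca0b54d9c95b434a45946a769304162d02c55266535b3cb20f7eb2d722f12a3d92131581d508142c48f6443cc65220d (k8 d1461 i1171 d34 i2648 i967 d179 d409 d53 (k8 d46 d1643 i2293 i386 d1009 d1611 i1132 i860 (k8 i2753 i1139 d1263 d374 i597 i605 i1147 i631 (k8 d1026 d904 d1581 d456 d1647 i560 d1331 d442 (k8 d359 d375 d1652 d1658 d447 i1557 d1660 i2806 (k8 d312 i1094 i592 i1315 d1657 d964 d371 d1011 (k8 d355 i1413 d1661 i1722 i497 i498 d156 d332 (k2 i1497 i1663 (k1 d910 k0))))))))) (by decide +kernel)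
def d1663 : PP 8 4 T 0x1001000000000000000000000000000000000020000000001000000000004800142 := rS 0x6982c382d (k4 d70 i709 i560 d42 (k1 d442 k0)) (by decide +kernel)
def d1664 : PP 8 4 T 0x1000000000000020000000000000000000000100000100009000000000004810102 := rS 0x278db168291916914699592133c9ee327103911faa8 (k8 d1643 d374 i967 i2293 d1663 d34 d179 i2648 (k8 d1009 d1611 d1026 d997 i1171 i145 d1662 d81 (k4 d862 i1696 d329 d926 k0))) (by decide +kernel)
def d1665 : PP 8 4 T 0x1001000000000000020000010002000001000005014400000009400002200804054002 := rS 0xa1a8d5495572697697360f58ef01bb042ab35b9f54a9939b4c0a9341a058a85618a6251934c11ca0d (k8 d1461 d39 d85 d431 d34 d409 d386 i250 (k8 d53 i1575 d46 d24 d904 d456 d0 d236 (k8 i2655 i1383 d107 d648 i664 d1603 i1573 i991 (k8 d371 i1692 d23 i2029 i1243 i1682 i2045 i1178 (k4 i1182 i593 i1651 d458 (k1 d475 k0)))))) (by decide +kernel)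
def d1666 : PP 8 4 T 0x1000000000000000401000010040000000040080000000009600000400804004400 := rS 0xab529416a0d (k4 d1461 d312 i1094 i249 (k2 i498 d849 k0)) (by decide +kernel)
def d1667 : PP 8 4 T 0x1000000000000020000000000000000000000000000100009000000000004810102 := rS 0x53d8e6c4fac97e984baa86caf78a94281f862dce63d6928d82a1058b55b0461b15ca473f88860553a1c50a81418a624071584cf66f179e4891948c5526653583dfacb5caa1920d (k8 d1461 d1611 d1643 i1139 d1263 d374 i597 i631 (k8 d1026 d904 d1581 i1171 d34 i967 i2648 i2753 (k8 i2643 d179 d1009 i386 i2293 d409 d386 d24 (k8 d46 d53 d1663 d1664 i1539 i970 i971 i1668 (k8 i225 d39 i1575 i250 d85 d12 d1665 i560 (k8 i822 d1331 i1652 d442 d88 d1666 d648 d383 (k8 d476 d1653 i248 d35 i587 i638 i2027 i1777 (k8 d1523 i1722 i1109 i1113 i665 i1691 d389 d435 k0)))))))) (by decide +kernel)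
def d1668 : PP 8 4 T 0x5001000000000000000000011016000000000000100000010009400000000006004102 := rS 0x1829517b480e6e2924dfacb289cc162d2b93caa42528d4620d (k8 d1461 i1041 i1115 d574 i1038 i704 i702 i441 (k8 d1240 i560 i2756 i496 d1263 d374 d904 d1258 (k4 i567 i2267 d788 i2733 (k2 i1057 d384 (k1 d1586 k0))))) (by decide +kernel)
def d1669 : PP 8 4 T 0x5001000000000000000100000002000000000000110000000009400000000006000102 := rS 0x422329b92206f19b4942943e81d8343552b54ab58224cca67479641efd5c8946a513982c5a5727908620d (k8 d1461 i1041 i1038 i702 i441 d1240 i560 i2756 (k8 i496 i1115 i348 i1139 d374 i597 i605 i1132 (k8 i449 d1026 d904 d354 d1114 d574 d12 d1668 (k8 d458 i1513 i457 i1595 d391 i820 d442 d982 (k4 i1057 d734 d468 i567 (k2 d401 d25 (k1 d1469 k0))))))) (by decide +kernel)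
def d1670 : PP 8 4 T 0x1001001000000000000000000000200000000001110500151109001104000006110142 := rS 0x46cc5a9b4dc85408a61b1241a1cbe73158ec4a352b93c4e3f509085ed2058b5ca0d (k8 d1461 d60 d1240 i560 d442 i1078 i1038 i820 (k8 d1076 d1126 i702 i441 i1115 i348 d825 i387 (k8 i2756 i646 d1017 d1202 d418 d1266 d386 d46 (k4 d53 d383 d1255 i1400 (k2 i2039 i249 (k1 d1169 k0)))))) (by decide +kernel)
def d1671 : PP 8 4 T 0x1000000000000020000000014000000000000110000100009400000000004010142 := rS 0xc2113353e5e3d9e0d30472d0d488f35b3cb20f7eb2c4a352d90406513982cae4f628fc2ac71ebc072451b8ee32312a908669d8b2a192c149a8c5e2d0c05e2a0d (k8 d1461 d1581 d1667 d427 d1240 i1078 d1639 d904 (k8 d1331 d1611 d1643 d1669 d452 d379 i1038 i704 (k8 i1041 d34 d825 i2720 i478 d914 d426 d23 (k8 d351 i638 d1076 d964 i702 i441 i560 i2756 (k8 i496 i23 i180 d154 i1115 i348 d1263 d374 (k8 i597 i605 i1147 i631 i1132 i2027 d1648 d60 (k8 d436 d431 d1670 i81 i1072 i1075 i1972 d1277 (k2 i2035 i251 k0)))))))) (by decide +kernel)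
def d1672 : PP 8 4 T 0x1000000000000020000000004000000000000110000100009400000000004010142 := rS 0x52a5558a3608bd266507ae45a31448ce2c180baa19315 (k8 d1581 d1611 d1643 d1667 d427 d1669 d379 i231 (k8 i1041 d1240 i1139 i597 d1026 d904 i1078 d1331 (k4 d1639 d1671 i1557 i1286 (k1 d678 k0)))) (by decide +kernel)
def d1673 : PP 8 4 T 0x1000000000000024010002142001000400001100140141549080514004006000000 := rS 0x224f9ed30855faca24834397c9a911295d8ef01bc6462b740c31fa0d (k8 d1461 d374 d399 d465 d290 i1041 d34 i2720 (k8 d426 d351 i441 i348 i1171 i51 i646 d1017 (k8 d1202 d418 d341 i1455 d53 i664 i1940 i1113 (k2 d1462 d1474 k0)))) (by decide +kernel)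
def d1674 : PP 8 4 T 0x1000000000000020000000004000000000000110000100009400000000004010102 := rS 0x44c266a7cf069a1c4442b458abd4aad29819263533a3d9e597eb2ca2732b93c4e5b2080d8a15638f5e039228dc77191895484334ec583017543262a0d (k8 d1461 d1581 d1611 d1643 d1667 d427 d1669 d452 (k8 d379 i1038 i704 i1041 d34 d825 i2720 i478 (k8 d914 d426 d23 d351 i638 d964 i23 i180 (k8 d154 d1126 i702 i441 i2756 i496 d1263 d374 (k8 i605 i1147 i1132 i449 i1115 d904 d1672 i2267 (k8 i1226 i1380 i459 i1227 d1258 i728 d349 d55 (k4 d305 d1673 i1075 i1972 (k2 i2035 d625 (k1 i251 k0))))))))) (by decide +kernel)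
def d1675 : PP 8 4 T 0x9001001000000000000001010000000000000001110400150109401100000006114142 := rS 0x10434395489537435065f398ac763f18a24aa3350909a40b518bc5a0d (k8 d1461 d1240 i1078 d1639 i560 d442 i1038 i820 (k8 d379 i704 i231 i1041 d1076 d825 i387 i2756 (k8 i646 d1202 d1266 d383 i1057 d678 d60 d1670 (k2 d85 d431 k0)))) (by decide +kernel)
def d1676 : PP 8 4 T 0x1000000000000020000000000000000000000110000100009400000000004010102 := rS 0x46e5613353e5e3d9e05e0760ab5549d19c58ab15479ad9e5907bf572c9128d4b64101944e6a8058b4ae4f213147e15638f5e039228dc7719188602e0d (k8 d1461 d1667 d427 i1041 d34 d825 i2720 i478 (k8 d914 d426 d23 d351 i638 d1076 d964 i1038 (k8 i702 i441 d1240 i560 d1643 i2756 i496 i23 (k8 i180 d154 i1115 i348 d1611 i1139 d374 i597 (k8 i605 i1147 i631 i1132 d1581 i704 d1669 d379 (k8 d452 d1674 i98 i1513 i457 i1078 d1675 i81 (k4 i1072 i1075 i1972 i2035 (k2 d470 i251 (k1 d1277 k0))))))))) (by decide +kernel)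
def d1677 : PP 8 4 T 0x1000000000000004150000000000000140000000450000001800551000004000000 := rS 0x13a338b27d8705 (k4 d81 i211 d1549 d354 (k2 d379 d452 (k1 i2035 k0))) (by decide +kernel)
def d1678 : PP 8 4 T 0x5001001000000000000500010000010000000010100000001509000000000006000102 := rS 0x8446e40ea8e2033690bd280760d0d54ad52ad608933299d1e59128d4162d2b8c4fe1f8613c840d (k8 d1461 i1038 i702 d399 d476 d353 i1041 i441 (k8 d1240 i560 i1115 i348 i605 i1132 i449 d1026 (k8 d904 d354 d1148 d574 d12 i2037 d458 i1513 (k8 i457 d391 i1078 d442 d982 d734 d1639 d42 (k4 d468 d401 d25 i2030 k0))))) (by decide +kernel)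
def d1679 : PP 8 4 T 0x1001000000000000000001000016040004000000040000015441400010100004404540 := rS 0x46e510c4548b465894301f863f4a20d (k8 d1461 i496 d374 d399 d476 d427 i348 d1263 (k4 d1258 i2027 d349 d643 (k2 d60 i248 (k1 d410 k0)))) (by decide +kernel)
def d1680 : PP 8 4 T 0x9001000000000000000000010006000000000000000000010401400001000004404142 := rS 0x52a5558a3608bd26353282c5a572aa243f0c7e93c845139860660d (k8 d1461 d379 d427 i2756 i496 i1038 i702 d374 (k8 d399 d476 i230 i704 i441 d1240 i560 d1026 (k8 i1115 d904 i1078 d1331 d1639 d1679 i1557 i1286 (k1 d678 k0)))) (by decide +kernel)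
def d1681 : PP 8 4 T 0x1000000000000020000000004000000000000100000100009000000000004010102 := rS 0x8984cd4f9e0d221a1c4568b157ab5a606479641e0b1695c9e272d904063d19a762c7d4994c9aa1381548e3163bc232c50a8e48a37679acce65468d4768b21144e6180bae596fd543262a0d (k8 d1461 d1581 d1611 d1643 d374 d1263 i1139 d1667 (k8 d427 i2756 i496 i1038 i145 d825 i1115 d997 (k8 d1026 i449 i631 i1147 i2720 i478 d914 i638 (k8 d964 d34 d426 d351 i1041 d1677 i704 d1676 (k8 d463 i51 i797 d904 i1360 d1678 d452 d379 (k8 d23 i23 i180 d154 d1126 i702 i441 d1240 (k8 i560 i597 i605 i1132 d1680 d49 i1226 i459 (k8 i1227 d1113 d349 d55 d643 d305 d1673 i1075 (k4 i1972 i2035 d625 i251 k0))))))))) (by decide +kernel)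
def d1682 : PP 8 4 T 0x21000000000000080000000000010000000000000000540001084000040004110000 := rS 0x83 (k2 d1202 d1266 k0) (by decide +kernel)
def d1683 : PP 8 4 T 0x1000000000000020000000000000000000000100000100009000000000004010102 := rS 0xbda2b0930bf4da7cf0af2f29da42f03d0d549d19c5a187d29a84e055238c49a8b8aa4c6a8d3299cd6cf7eb2d72c91596c8203289cd500b1693c84c51f8558ef01c9146e180b8ee320d (k8 d1461 d34 d825 d1667 d427 i2720 i478 d914 (k8 d426 d351 i638 d1076 d964 i1038 i702 d1240 (k8 i560 d1643 i2756 i496 i23 i180 d154 i387 (k8 d1611 i1139 d1263 d374 i1147 i631 i449 d1026 (k8 d997 i1115 d904 d1581 i145 i51 i1041 d1677 (k8 i704 d1676 d463 i797 i1360 d399 d1678 d379 (k8 d452 d1681 d458 i457 i1078 d442 d155 d1682 (k8 i2400 i646 d752 i1178 i1722 d1283 i2035 d408 (k2 i1990 d156 k0))))))))) (by decide +kernel)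
def d1684 : PP 8 4 T 0x1001000000000000020010000006000000000000210000110009004000004004404142 := rS 0x2fc4cf4964da14409411a64fc7d5aaccdd0d72d0d48520ea9d46c1690bd424d49bf59673158946a5b2080c162d278f5e039228dc7719889555a6923c10ae4232a24300d (k8 d1461 d427 i231 d1026 i1038 i441 d281 d81 (k8 d431 d12 i1539 d400 d34 d825 i2720 i478 (k8 d914 d426 d23 i702 d1240 i560 i23 i180 (k8 d154 i1115 i348 i387 i2756 d1263 d374 d904 (k8 i51 i820 i1078 d442 d1331 d1639 d359 d42 (k8 d1679 i2027 d1648 d143 d74 i567 i2438 i882 (k8 i1326 d481 i1109 i249 i1667 d410 i1503 d756 (k4 d485 i1324 d1140 i813 (k1 d418 k0))))))))) (by decide +kernel)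
def d1685 : PP 8 4 T 0x1000000000000020000002142008000000000000000140549080500000006000000 := rS 0x985fac9065f5ba0618fd (k8 d374 d399 d465 d290 d752 d1202 d341 i1455 (k2 i664 i1113 k0)) (by decide +kernel)
def d1686 : PP 8 4 T 0x1000000000000020000000004000000000000010000100009000000000004010102 := rS 0x1132f8a198226127c62215a2c55e530345526356783dfacb16944e6a82789d8a3f0ab1c7af01cc4466554e96c8b191b8ec820326ab608742cb24ae420c05cca0d (k8 d1461 d1026 d1667 d427 i1038 i441 d1611 i605 (k8 d1683 d281 d12 i51 i23 i180 d825 i2720 (k8 d34 i478 d154 d883 i1539 d460 d400 d914 (k8 d426 d23 d351 i638 d1076 d964 d1126 i702 (k8 d1643 i2756 i496 d1240 d1263 d374 i597 i1147 (k8 i1115 d904 d1581 d1684 i2267 i459 i1227 d1258 (k8 d643 i1042 d1685 i2035 d625 i251 i250 i890 (k2 d386 d418 k0)))))))) (by decide +kernel)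
def d1687 : PP 8 4 T 0x10010000000000000a0000000008008000000000210400150009004100000006010002 := rS 0x260dc9786a6e245f319cc560b1689c2a3d780dc771944a84842f03a9c3a0d (k8 d1461 d42 d359 i457 i1078 i1038 i820 i231 (k8 d34 d825 i2720 d426 d23 i638 d1126 d1240 (k8 i560 i387 i2756 d586 d752 d418 d755 d1682 (k4 d1140 d383 i2034 i2738 k0)))) (by decide +kernel)
def d1688 : PP 8 4 T 0x1000000000000004050000000005000000000200000150001010551000006000000 := rS 0x1132f8a19822610862233 (k8 d460 d400 i1499 i2035 d625 i251 i250 i890 (k2 d386 d418 k0)) (by decide +kernel)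
def d1689 : PP 8 4 T 0x1001001000001000000040000010004000400000000000811109004104400406000102 := rS 0xf64d128d4162d2b93c840d (k8 d1461 i1038 i702 i441 d1240 i560 i1115 i348 (k2 i51 i813 (k1 d1277 k0))) (by decide +kernel)
def d1690 : PP 8 4 T 0x1000000000000020000000000000000000000010000100009000000000004010102 := rS 0x204526c891e5065f42b344620728c10e9f690bc0eaa8a8d51e6b67bf4565139aa0162d2789d8a3f0ab1c7af01c8ccaa9d2d91632371d904064d569a608742cb24ae420c05cca0d (k8 d1461 d1026 d1667 d427 i1038 i441 d1611 i605 (k8 d1683 d281 d431 d12 i51 i23 i180 d825 (k8 i2720 d34 i478 d154 d883 i1539 d460 d914 (k8 d426 d23 d351 i638 d1076 d964 d1126 i702 (k8 d1240 i560 d1643 i2756 i496 i387 d374 i1147 (k8 i631 i1132 i1115 d1581 d1686 i457 i1078 d442 (k8 d1687 i1707 d1688 d39 i1042 i1572 i729 i1503 (k8 d1689 d1202 i1072 d418 i2039 d386 d46 d1255 k0)))))))) (by decide +kernel)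
def d1691 : PP 8 4 T 0x1000000000000020000002000000000000000000000100009000000000004010102 := rS 0x58abc0c9b69a0cbe9e188862a3567965922b058b58a3f0ab1c7af01ca74e85b22c646e3b2080d430c299c09afd27908a2730c05d500d (k8 d1461 d1643 d1667 d427 i2756 i496 i1038 i702 (k8 d374 i51 d1690 i797 d399 d463 i23 i180 (k8 d825 i2720 d34 i478 d154 d1683 d883 d914 (k8 d426 d23 d351 i638 d1076 d964 d1240 i560 (k8 i387 d1611 i605 i1147 i1115 d1581 d643 i1042 (k8 d1688 d752 d1202 d1682 i1447 d442 i592 i1227 (k1 d1685 k0))))))) (by decide +kernel)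
def d1692 : PP 8 4 T 0x1000000000000020000000000000000000000000000100009000000000004010102 := rS 0x8dca304f979a42f03aa96b0c3f9f4a6a1382b6089d2a8ccee74638fd8af02795c16510a8e4b62b209085a731b914301765bf5505967a3d92651aa4c760326c662a0d (k8 d1461 d1581 d34 i51 i23 d825 d904 i1115 (k8 d1026 d1611 i1132 i1147 i605 d1643 d374 d1263 (k8 d1667 d427 i478 i2720 i2756 d1240 i1038 i180 (k8 i387 d154 d914 i638 i496 i560 i441 i702 (k8 d426 d964 d1076 d351 d1683 i79 d460 i1539 (k8 d883 d281 d12 d1690 d463 i797 i1360 i799 (k8 d399 d1691 i2037 i457 i1078 d442 d1682 d752 (k4 d1688 d39 i1572 d1689 k0)))))))) (by decide +kernel)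
def d1693 : PP 8 4 T 0x1000000000000004210000000000000405000000000000001000800055104000008 := rS 0x33586c711b953e34 (k8 i1122 i2810 d15 i247 i413 i374 d1169 i2032 k0) (by decide +kernel)
def d1694 : PP 8 4 T 0x1002000000000004154010000000004405000108414010001000000055504000000 := rS 0x15e0aca33c5998ad30c452ab5 (k8 i1400 i1057 d505 d396 d360 i2032 d714 d86 (k4 d782 d54 i506 d1015 k0)) (by decide +kernel)
def d1695 : PP 8 4 T 0x1002000000000004154010000000004405000108414010001020004055004000000 := rS 0x32cce562308842ad30a556a0d (k8 d1461 i1400 i1057 d396 d360 i744 d1694 i184 (k4 i185 i1617 i506 d782 k0)) (by decide +kernel)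
def d1696 : PP 8 4 T 0x4101000000000000004150000000000000405000100010000001020004055004000000 := rS 0x1111c420d (k4 d1461 i744 d727 d714 (k1 i184 k0)) (by decide +kernel)
def d1697 : PP 8 4 T 0x1001002000000000004144000000000100445500150414010001060800010006080140 := rS 0x236691d749e4a2696e7f28a9a187d37a4cce775cc5a222b13b143e2119a342a251e874c20d (k8 d1461 d396 i742 i1802 i349 i137 i1030 i2050 (k8 i744 i182 i1804 i1798 i2085 d505 d1696 d43 (k8 d78 d86 d480 d1695 d107 d383 d1028 d830 (k8 d353 d352 i335 d1618 i1181 i1182 d1549 i1948 (k2 i184 i2032 k0))))) (by decide +kernel)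
def d1698 : PP 8 4 T 0x400000000000001001000000000000020800010001000000000000002504000001000000000004000000 := rS 0x26d64bc (k4 d1516 i673 i1417 d1020 k0) (by decide +kernel)
def d1699 : PP 8 4 T 0x1001002000000000020180000001000100000500140014000001041804010056080100 := rS 0x299366f4a32d26b98b19d764636274d34f1f9ad5a61 (k8 d396 d360 i631 i216 d381 d228 i1640 i219 (k8 i218 i1680 i658 d727 d43 d480 d1698 d782 (k4 i1057 i1182 d1028 i335 k0))) (by decide +kernel)
def d1700 : PP 8 4 T 0x1001002000000000020000000000000000405500150014010401060000110004400148 := rS 0x538bd70934a9ba1a7d2b95596778bc416b043391d469e1a08dcac2639855aa9448e516990aabc1e1f1982cd6c9128858a27158619e3a1e8483a0d (k8 d1461 i742 i1161 i1802 i1160 i2788 d427 i2085 (k8 i1798 i1804 i744 i349 d1693 i631 i2183 i2050 (k8 i182 i2204 i1921 i137 i2767 i145 i195 i190 (k8 i1085 d360 d396 d1699 d1697 d470 i2057 i373 (k8 i374 i2195 i211 d1123 d85 d1194 d410 d44 (k8 i1715 d54 d474 d57 d67 d276 d383 i1057 (k4 i1322 d782 i1138 i334 (k1 d1504 k0))))))))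 (by decide +kernel)
def d1701 : PP 8 4 T 0x1001000000000000020000000000000000005500110000000009040000010004400148 := rS 0x140d2303f51e2d3994d521f05900305f3c964ca63 (k8 i488 i1049 i606 i2746 i646 d427 i1046 i2183 (k8 i182 i1085 i566 i2758 i2723 i2778 d1700 d450 (k2 d442 d213 (k1 d77 k0)))) (by decide +kernel)
def d1702 : PP 8 4 T 0x1001002000000000004140000000000104445500150415010001061810810006080100 := rS 0x11b348eba4f25134b73f99cee5153430fb1637c4572c31589d8a1f108cd1a15128749e0d (k8 d1461 d395 i741 i349 i137 i1030 i2050 i744 (k8 i182 i1804 i1798 i2085 i373 i1137 d505 d1695 (k8 d1696 d107 d383 d1028 d830 d78 d86 d353 (k8 d352 i335 d1618 i1181 i1182 d1549 i1948 i184 (k1 i2032 k0))))) (by decide +kernel)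
def d1703 : PP 8 4 T 0x1001000000000000020000000000100004405500150015010001061000810006000108 := rS 0x146b86132d9a674a88e2ee51a0e5161535ab58e1d27bf1922510b144e2b678cc3e3a4caa4240d (k8 d1461 i1161 i1085 i2767 i1160 i182 i2050 i2788 (k8 i2085 i1798 i1804 i744 i349 d1693 d450 d395 (k8 i741 d1699 d360 i631 i137 i145 i195 d1702 (k8 d15 d44 i247 i1099 d1123 d1169 d713 i2032 (k2 d782 i2195 (k1 i1138 k0)))))) (by decide +kernel)
def d1704 : PP 8 4 T 0x1001000000000000020000000000000000005500110000000009040000010004410108 := rS 0xab0c821bcce7d2bc416acb8ba498e3d0eac49efc17294c206318b4e6990a94d521f19964cac91288480c5138ac2418678e91e0d (k8 d1461 i2778 i1160 i2788 d427 i1161 i2085 i1798 (k8 i1804 i1046 i744 i349 d1693 i1049 i606 i2050 (k8 i182 i1085 i566 i137 i2767 i2758 i2723 i488 (k8 d1701 i1223 i1380 d1252 d450 d395 d455 i741 (k8 d1361 d1699 d1703 d480 i1366 i1369 d1696 d57 (k4 d67 i489 i1321 d354 (k2 d383 d474 (k1 d276 k0)))))))) (by decide +kernel)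
def d1705 : PP 8 4 T 0x1000000000000020000000001000100000500020000000011060800010006080100 := rS 0x1e3494e620ea6d6e4f30a84561f (k8 i182 i2085 d463 i1280 d211 i802 i1447 i741 (k4 d149 i335 d700 d129 (k1 d88 k0))) (by decide +kernel)
def d1706 : PP 8 4 T 0x1001000000000000002000000000000120000500054000000001041800010056080100 := rS 0xbb4d2dd4d0c (k4 d383 d1028 d352 i335 (k2 i1948 i1182 k0)) (by decide +kernel)
def d1707 : PP 8 4 T 0x15001000000000000004040000014000100005500250050000001061811110016080149 := rS 0x25cfc6e4a279734f1750d98a26088dc904238ac4ec50787c423305bc5929d49b0c4a0d (k8 d1461 i348 i373 i1590 i1591 i2740 d416 i2183 (k8 i2050 i744 i182 i2204 i1804 i1798 i2085 d727 (k8 d354 d468 i184 d382 d143 i2032 d469 d1639 (k8 d73 i2741 d397 d391 d1706 i1058 i1323 d724 k0)))) (by decide +kernel)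
def d1708 : PP 8 4 T 0x9001000000002000000000000014000100010500240010010001041805510056084540 := rS 0xfc56372520aa751ae582a5 (k8 d60 d382 d43 d1639 i334 d143 d678 d1028 (k2 d281 i1058 (k1 i1665 k0))) (by decide +kernel)
def d1709 : PP 8 4 T 0x1001000000000000042104010011000104000500054555000001041800010056080500 := rS 0xca5ea554d4f (k4 d73 d1028 d1706 i1984 (k2 d1515 d1516 k0)) (by decide +kernel)
def d1710 : PP 8 4 T 0x1000000000000000800001000000000000000200010010001000000000004000000 := rS 0xaf05 (k2 d54 i506 (k1 d281 k0)) (by decide +kernel)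
def d1711 : PP 8 4 T 0x19001002000000000000144000001000100015500250454010001041805111556084540 := rS 0x1445b26cfc9465aed2eb53734c5c6966390562762c4526ad30aad720d (k8 d1461 d43 d72 d396 d360 i1590 d400 i1804 (k8 i1798 i2085 d410 i2032 i1831 d1708 d358 d1709 (k8 i1399 i1323 i1949 d1710 d782 i1058 i1182 i848 (k2 d466 d424 k0)))) (by decide +kernel)
def d1712 : PP 8 4 T 0x1001000000000000000000010000100104010540040000000001041815510056080100 := rS 0x1bd4ed2 (k4 d417 i334 d1265 d1028 k0) (by decide +kernel)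
def d1713 : PP 8 4 T 0x1001002000000000000100010000004104000500044054008001041800010056080100 := rS 0x25134cb531455a61 (k8 d396 d360 d830 d1028 i505 i335 d782 i1181 k0) (by decide +kernel)
def d1714 : PP 8 4 T 0x1001002000000000020040000000000000005500250054010001061011110006000149 := rS 0x65a556a6e698b93e7f529588c225cc584ac38ca2d52894cb3c1e1f108cc168d1d054249335b255a61558749e0d (k8 d1461 d395 i741 d72 d396 d360 i2740 i631 (k8 i1590 i1161 i137 i1160 i1030 i2183 i2050 i744 (k8 i182 i2204 i2788 i2767 i190 i1085 i145 d34 (k8 i373 i348 d1707 d43 d1711 i184 i185 i2056 (k8 i1664 d1549 d1712 d358 d1713 i1399 i1058 d1710 (k1 d1515 k0)))))) (by decide +kernel)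
def d1715 : PP 8 4 T 0x1001002000000000004040020000051000040500240054000001020860150004084548 := rS 0x184bd662d948a75a3045e891c8fc3e8d0aab4c2ab0e93d971734c11ca47649fc480d (k8 d1461 i1062 i842 i2740 i207 d15 d85 d431 (k8 d44 d713 d395 i741 d72 d396 d360 i137 (k8 i1030 i182 i216 i195 i190 i2741 i1249 i1066 (k4 i334 i2027 d148 i886 (k2 i1989 d192 (k1 d193 k0)))))) (by decide +kernel)
def d1716 : PP 8 4 T 0x1001002000000000020040000000000000005500200010000009001040010004000141 := rS 0x539bd36945ca8546cb1245dca34458c45a73678ac1e1f0598cce9d499c430171d265521221934b2c956985561d279000405 (k8 d456 d430 i1046 d395 i741 d72 d396 d360 (k8 i2740 i605 i51 i437 i1161 i1085 i2767 i1160 (k8 i966 d427 d1705 i1590 i1591 i1588 i488 i2183 (k8 i182 i2204 i2085 i2788 i2758 i2723 i2724 i145 (k8 d1714 d15 d44 i1062 d713 i2191 d1417 d1715 (k4 d782 i2807 i2735 i335 (k1 d1028 k0))))))) (by decide +kernel)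
def d1717 : PP 8 4 T 0x1001002000000000020040000000000000005500200000000009001040010004000141 := rS 0x186256688c6a548295cc83a1589c86c50903c301710900d659648080a0d (k8 d1461 d456 d430 i2740 i605 i631 i1046 i744 (k8 i966 d427 i2204 i1161 i1804 i437 i1798 i2085 (k8 i1160 d1716 d432 d47 i1050 i2729 i185 d1015 (k2 i764 i373 (k1 i2032 k0))))) (by decide +kernel)
def d1718 : PP 8 4 T 0x1001002000000000020180000001000104000500240044010001041004010056080100 := rS 0x14e6f5fa51967f5c95a2d0532918d869a79ad5a61 (k8 d396 d360 i631 d381 d228 i219 i218 i1167 (k8 d81 d727 d281 d43 i2995 d1698 d782 i1726 (k2 i1058 i337 (k1 d1028 k0)))) (by decide +kernel)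
def d1719 : PP 8 4 T 0x1001000000000000042104010011000104000500054455010001041800010056080500 := rS 0x69 (k2 i1831 d1709 k0) (by decide +kernel)
def d1720 : PP 8 4 T 0x1001002000000000040140010001000104045500054454010001061810010006080100 := rS 0x4f9588c22668ac4ec50f884168d0aab4c21d27b0c4a0d (k8 d1461 i348 i373 d395 i741 d396 d360 i137 (k8 i1030 i2183 i744 i182 i1804 i1798 i2085 d1719 (k4 i2032 i184 i185 d1549 (k1 d1713 k0)))) (by decide +kernel)
def d1721 : PP 8 4 T 0x1001002000000000060000000000000001000000200010000009041010810006000108 := rS 0x4d91d770466390ae233f1f528cb5025d6a6e12b0e328b62885e28742c44d6ad30aad8e1d2796526c93398ce24d40a0e242b138e8661f20264e6a9092e4aa0d (k8 d1461 i1539 i2741 i1161 i1085 i2758 i2767 i1046 (k8 i182 i2050 i1160 i1798 i2085 d1167 d24 d46 (k8 i51 d1705 i488 i1588 i2740 i1590 i605 d395 (k8 i741 d1718 d72 d396 d360 i631 d400 d53 (k8 d51 d416 i744 i1804 i145 d34 i373 i348 (k8 d1720 i1399 i1323 i1054 d1710 d782 i1598 i1058 (k8 i312 i1665 d410 i2032 d438 i1949 d81 i1182 (k1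 d725 k0)))))))) (by decide +kernel)
def d1722 : PP 8 4 T 0x1001002000000000020000000000000001000000200010000009041000010006000188 := rS 0xcb4a91e2e3433b25266155b4d4ab91718ce28141c4856271d26480a9091345a0d (k8 d1461 i2723 i51 i1161 i1085 i1046 i2767 i1160 (k8 i1798 i2085 d1167 d24 d46 d1705 i488 d1252 (k8 i2741 i1380 d49 d72 d396 i1590 i2740 i1588 (k4 d1721 d44 i207 i1099 (k2 d713 d200 k0))))) (by decide +kernel)
def d1723 : PP 8 4 T 0x1001002000000000020000000000000001000000000000000009000000010004010101 := rS 0x186256688c6a548295cc806638f43ab1278dce6156283c3e211998cce9335965927438a6480a926a150e8141c485618138487417218080a0d (k8 d1461 d456 d430 i437 i966 i1160 i1161 i1798 (k8 d427 i2085 d1167 d24 d46 d51 d53 i51 (k8 i1085 i1046 i2767 d1705 d1704 i2740 i605 i631 (k8 i1590 i1588 i488 i2050 i744 i182 i2204 i1804 (k8 i137 i2758 i1005 d395 d455 i741 d1361 d1718 (k8 d1717 d1722 d432 d47 i1050 i2729 i185 d1015 (k2 i764 i373 (k1 i2032 k0)))))))) (by decide +kernel)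
def d1724 : PP 8 4 T 0x1000000000000020000000000000000000000000000100009000000000004010100 := rS 0x1404e303f4c67140a0e245f058a43e2715860f23a4c90152120b90c04018a8149a91 (k8 i1171 i51 d456 d1581 d1692 d430 i437 i966 (k8 i1161 i1085 i1046 i2767 i1160 i2746 d427 i2085 (k8 i1798 i182 i187 i2183 i646 d1167 d24 d46 (k4 d1705 i488 d1723 d450 (k2 i1048 d213 (k1 i756 k0)))))) (by decide +kernel)
def d1725 : PP 8 4 T 0x2001000000000000020000000000000000000000000000100009000000000004810002 := rS 0x58d15348337a0567125b938267b289e4c24420c6522fd0425ce2993994d5ea9 (k8 d425 i591 i566 d477 d449 d361 d407 d1724 (k8 d413 i1171 d34 d439 i967 i2640 i2648 i1310 (k8 d179 d1009 i223 d290 d409 i1428 i1276 i1271 (k4 d24 i2045 d56 i1297 (k1 d414 k0))))) (by decide +kernel)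
def d1726 : PP 8 4 T 0x1000000000000000000000040000140010000000001000001005540500004000200 := rS 0xb2 (k2 d1243 i1427 k0) (by decide +kernel)
def d1727 : PP 8 4 T 0x2001000000000000020000000000000000000000000000100009000000000004010002 := rS 0x1fbc0722d308dc8a180babd129954a5e323d1d8bc0e08 (k8 d1724 i3 i1078 d825 i1268 d34 d407 d425 (k8 d449 d83 i591 d1725 d427 i478 i2720 i2711 (k4 d1240 d914 d426 d27 (k1 d1726 k0)))) (by decide +kernel)
def d1728 : PP 8 4 T 0x1001000000000000000000000000000000000000000000000009000000000005000202 := rS 0x869bce67154078a6510e984884121859fa63 (k8 d586 d413 d427 i438 d439 i967 i2640 i1262 (k8 i1310 i2385 i222 d450 i709 i1094 i1056 d476 (k1 d383 k0))) (by decide +kernel)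
def d1729 : PP 8 4 T 0x1001000000000000401010180040014014000000400555001004011504406004000 := rS 0x369a59abf56d0dcaa4198950b12 (k8 d418 d53 i348 i232 i2033 d60 d421 i1286 (k4 i1451 d1169 d305 i594 (k1 i2039 k0))) (by decide +kernel)
def d1730 : PP 8 4 T 0x10010000000000a4011000182040000000000108000500009004000404006000002 := rS 0x13e69194114b11111548eb935b256a952c8c49a8b498d51a65338b41e572d90406cb439098ef01c9142e371dc65120d (k8 d1461 d95 d34 d825 i2720 i8 i478 d914 (k8 d426 d351 i1038 d1017 d1263 i23 i180 d154 (k8 i441 i2404 d1240 i449 d1026 d997 i1115 d904 (k8 i145 i51 i1041 i606 i1057 i1400 d1592 i631 (k8 i1139 d1677 i704 d1729 d401 i249 d438 d253 (k2 d431 i1711 (k1 d1474 k0))))))) (by decide +kernel)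
def d1731 : PP 8 4 T 0x10000000000000a4210000002000000010000000000100009000004400006000002 := rS 0xab5c25462588ba4c6a2d2285d960d (k8 d1461 d1263 i8 i478 d1240 i1115 d904 d61 (k4 d1592 i2717 i1101 d775 (k2 i2392 i1140 k0))) (by decide +kernel)
def d1732 : PP 8 4 T 0x11001000000000000401011180040014014000200500555001004010504406004000 := rS 0xaaa11b0facd10394607f12a162511 (k8 d400 d418 d53 i348 i1667 d1729 d39 i1042 (k4 d1169 i1501 i2039 d481 (k2 i593 d458 k0))) (by decide +kernel)
def d1733 : PP 8 4 T 0x1000000000000020000000002000820001000200404410001000100000006000402 := rS 0x13caa1d954d3042b908ca0d (k8 d1461 d1026 i1038 i441 d281 d431 i1539 d825 (k2 d756 i1181 (k1 d755 k0))) (by decide +kernel)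
def d1734 : PP 8 4 T 0x1000000000000020000000000000000000000000000100009000000000004010002 := rS 0xa5188892a695ac11725935b24aa333a2c59eae4d25d12d23714a1a9942a05068759c484e5f658fd8a392d93cae0f519455015228ac8242169ccc2370b8622a2f319951a35498ec064d8c82dfa07608f4100d (k8 d1461 d1724 i1268 i1266 i3 d413 i88 d34 (k8 i51 i23 d825 d904 i1115 d997 d1026 d586 (k8 i1078 d1727 d1728 i8 i2720 i2711 i2756 d1240 (k8 i1038 i180 i387 i478 i638 d450 i496 d1639 (k8 i2404 i441 d836 d154 d914 d964 d1280 d1263 (k8 d1284 d1126 d418 i1427 d1017 d1202 d46 d53 (k8 i1109 d1279 d399 i567 d788 d95 i1323 d485 (k8 d1726 i2792 i1297 d1730 d460 i1539 d1731 i631 (k8 i605 i1139 d281 i882 d431 d1733 d1732 i1572 (k2 i249 d787 k0)))))))))) (by decide +kernel)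
def d1735 : PP 8 4 T 0x4001000000000000004104000000000000405000100010000001020004055004080000 := rS 0x222c723b14420d (k4 d1461 i744 i1804 d727 (k2 i218 d505 (k1 d1696 k0))) (by decide +kernel)
def d1736 : PP 8 4 T 0x1000000000000000000000000490000010400040000500409021140144014080200 := rS 0x5b1447e1f48bf452af (k8 i1920 i187 d413 i1171 i2053 i2090 i1309 d199 (k1 d290 k0)) (by decide +kernel)
def d1737 : PP 8 4 T 0x1000000000000004105000000040010415000100010000001020005555004080000 := rS 0x19ac711b9548b98b314420d (k8 d1461 i744 i1804 d1735 d43 d678 d60 i2056 (k2 i2092 d1169 (k1 i2032 k0))) (by decide +kernel)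
def d1738 : PP 8 4 T 0x10001001000000000005408020040418000010500040000500009021140144014000000 := rS 0xa21e582dd67451faf134bf488a69e9d (k8 i1905 d433 i187 i1171 i1458 d202 i1190 i376 (k4 d56 i1413 i1988 d414 (k2 d199 i1315 (k1 i183 k0)))) (by decide +kernel)
def d1739 : PP 8 4 T 0x1001000000000000008000048410000010400040000504409021140144014000000 := rS 0x2dc3e3f28afd2229 (k8 i187 i1171 i1722 i497 i376 i183 d290 d199 k0) (by decide +kernel)
def d1740 : PP 8 4 T 0x1000000000000020000000000010000000400000002000009000000000004000008 := rS 0x1e28900be79 (k4 i2746 i646 i1046 d45 (k2 d213 i183 k0)) (by decide +kernel)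
def d1741 : PP 8 4 T 0x1000000000000020000000000000000000000100000100009001040104016000208 := rS 0xaa5cab4aecb824419a6723a7846e563b08d6c91299632c1478c59ec5078845233468555e2f40a1d0aa32997cf2a7399012a938a185071215a45426354a24243a1ca2dfa0d (k8 d1461 d413 i145 i195 i1160 i1161 i2087 d1390 (k8 i1348 i2071 i1171 i2085 d1167 d24 d1740 d450 (k8 d28 d350 i1046 i2758 i2076 i2746 i646 i566 (k8 d1736 d53 d51 d46 i199 i1920 i137 i1030 (k8 i2050 i187 i744 i2204 i1804 i2788 i2724 i2778 (k8 i1266 d34 i1049 i349 d1693 i631 d1737 i117 (k8 d470 i2057 i374 i211 d1123 d1169 d410 d1480 (k4 i1388 d57 d12 d1738 (k2 i2040 d1739 k0))))))))) (by decide +kernel)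
def d1742 : PP 8 4 T 0x1000000000000000000020000000000000000200001000401000000000004000200 := rS 0xa24f86ad0dcfd (k4 d413 i1065 i1066 d356 (k2 i1271 i2891 (k1 d399 k0))) (by decide +kernel)
def d1743 : PP 8 4 T 0x1000000000000000001010000040014010000200000000001020011500006000000 := rS 0x2372a904a33 (k4 i2050 i348 i2033 d60 (k2 i2056 d124 k0)) (by decide +kernel)
def d1744 : PP 8 4 T 0x1000000000000020000000000000000000000000000100009000000000004010000 := rS 0xa71b186b21f2dc3e513eafd54ad8232c48c732c5dca345c9fd92673a24d2b1430a8d065317abcc7125097d52a7788a58a27448ac2a180eb3cf23a398e46240090dc5a1721808023d60bf4109102935160d (k8 d1461 i145 i51 d456 i1171 d1724 d413 i1266 (k8 i1268 d1734 d430 i437 i966 i1264 i1005 i1161 (k8 i1046 i2724 i195 i2758 i1160 i2746 i2788 i1262 (k8 d427 i137 i2085 i2087 i1798 i1804 i187 d416 (k8 i2076 d1390 i646 i2071 d1167 i1348 i1920 i199 (k8 i566 d24 d1736 d1740 d450 d350 d28 d1741 (k8 i1588 i2740 i1667 d1742 d1743 d15 d44 i2729 (k8 i413 i1062 d713 d354 d12 i2040 i1722 i1596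 (k8 i498 i351 d290 d199 d197 i376 i665 d435 (k1 d389 k0)))))))))) (by decide +kernel)
def d1745 : PP 8 4 T 0x1000000000000000201020540000000000000000100000001000002000004150500 := rS 0x35d3d74c25301d480e (k8 i983 i987 i600 d1011 i367 i368 d433 i1946 (k1 d122 k0)) (by decide +kernel)
def d1746 : PP 8 4 T 0x1000000000000020200024140000000000400104000200001600000000004010502 := rS 0x51034314e81a2af1349e4ed3cd4c37203c626942c40ee6d82c65171362b3d1ec77804c82160ca402b17608d5660d (k8 d1461 i514 i1115 i1250 d43 i2327 i512 i2799 (k8 d427 d439 i1844 d371 d351 d318 i1149 d964 (k8 d368 i145 d34 d370 i2331 d273 d422 d387 (k8 i1849 d1745 i598 d85 d470 i2029 d429 i1907 (k8 i632 d202 i1190 d56 i1336 i1984 d357 d1011 (k2 d41 i479 k0)))))) (by decide +kernel)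
def d1747 : PP 8 4 T 0x2001002000000000020000020040000000000400154004200001600000200004010502 := rS 0x6d61a7d4e9ba2295021c82434d6c98cc4cca676296542b767b1c7af0099042ab18bd0d82355a858328f4834c3e0d (k8 d1461 i1303 d0 i512 d318 i2799 d427 d279 (k8 i1115 i1250 d99 d43 d455 i2327 d439 i1844 (k8 d371 d23 d351 i1149 i854 i821 i2406 d964 (k8 i449 d1026 d368 d34 d1746 i631 d282 d354 (k8 d479 i1235 i1381 d357 d56 d377 i1189 d715 (k2 d1519 d114 k0)))))) (by decide +kernel)
def d1748 : PP 8 4 T 0x1000000000000040200020140010000400000101400200001400000000044810502 := rS 0x10c2807564a418039874e34a16207782b158ef0099042b17608d56a0d (k8 d1461 d279 i1115 i1250 d43 i2327 d439 i1844 (k8 d371 d351 d964 d370 d273 d422 d387 i1849 (k8 d467 d433 i2029 i598 i987 d1745 i1381 i513 (k2 d479 d41 k0)))) (by decide +kernel)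
def d1749 : PP 8 4 T 0x2001002000000000020000020040000000000000154004200001600000200004010502 := rS 0x146e552b08390486b24da6b4faf5041f69c64ca676296542cf63bc026410aac62f43608d56a160ca3d200d (k8 d1461 i512 d318 i2799 d427 d279 i1115 i1250 (k8 d99 d43 d455 i2327 d439 i1844 d371 d351 (k8 i1149 i821 i2406 d964 i449 d1026 d34 d0 (k8 i1303 d1747 i1415 i1190 i632 d1519 d1748 d282 (k4 d354 d479 d114 i1381 (k2 d470 i329 (k1 d475 k0))))))) (by decide +kernel)
def d1750 : PP 8 4 T 0x1000000000000020200020101000000000000100000000009000000000004014100 := rS 0xd6694fb0c42bd72208db0562add8ef03782d5ea139a6426410a984beb5479108f170b064000302a40b80d (k8 d1461 d1744 i512 d456 i2800 d430 i2799 d427 (k8 d43 d862 i967 d318 d279 i143 i2801 i2327 (k8 d439 i1844 d334 d249 i821 i591 i559 d238 (k8 d371 d351 i854 d964 d370 i2331 d1746 d85 (k4 i1415 d25 d470 i1190 (k2 d260 i632 (k1 i2029 k0))))))) (by decide +kernel)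
def d1751 : PP 8 4 T 0x4001000000000000000000000000000002400000102040200001000000000004000000 := rS 0x889dcac9d (k4 i1642 i515 i918 d57 (k1 d422 k0)) (by decide +kernel)
def d1752 : PP 8 4 T 0x2001002000000000020000020001000000000000100000000009000000000004010100 := rS 0x66e5611b608cb35b241e311691e2e653199d8a7117b3d1ec7781bc16af509cc8899099042c153097c320001815205c56ac52a0d (k8 d1461 d350 d455 d360 d1744 i512 d456 i2800 (k8 d430 i2799 i143 i2801 i2327 d427 d439 i1844 (k8 d334 i967 d249 i821 i591 i559 d238 d371 (k8 d351 d318 i1149 i2753 d244 d964 i449 d586 (k8 d1026 d43 d862 d1749 i986 i598 d1750 i631 (k4 d713 d354 d1751 d114 (k2 d470 i291 (k1 d1223 k0)))))))) (by decide +kernel)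
def d1753 : PP 8 4 T 0x4001000000000000000000000000000010000080400000000001000010000024000000 := rS 0x3119b954420 (k4 i719 i720 d25 i1611 (k2 i1651 d468 k0)) (by decide +kernel)
def d1754 : PP 8 4 T 0x1000000000000020200010101000010000000100000000009000000000004010100 := rS 0x5390c6b412c94e070eafe1a7e349f50b105a9dc8e6d8bc152635388bd1eb73782d5ea1399113213208582a612f864000302a40b80d (k8 d1461 d1744 i512 d456 i2800 d430 i2799 i143 (k8 i2801 i2327 d427 d439 i1844 d334 i967 d249 (k8 i821 i591 i559 d238 i854 d318 i2753 d244 (k8 i1115 d904 d370 d61 i2331 d1596 d273 d1114 (k8 d422 d387 d67 i1849 i2044 d205 i1724 d1753 (k8 i480 d250 d1011 i514 i634 i925 d467 d478 k0)))))) (by decide +kernel)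
def d1755 : PP 8 4 T 0x1100000000000020000000000000000000000001400000009400000000004014000 := rS 0x1a586217231488c77804c82160c854000348014b80d (k8 d1461 d1744 d456 i512 i2800 d430 i2327 i2799 (k8 d427 d439 i1844 d371 d351 i967 d964 d85 (k4 d25 d470 d260 i2029 k0))) (by decide +kernel)
def d1756 : PP 8 4 T 0x2001002000000000020000000001000000000000100000000009000000000004010100 := rS 0x10e212a088aea5189193e3336b060b166503cd6c95ca55168d21a4c6a653199ca659388bd1ec7781bc16af509cc8899099042c153097c320001815205c56ac5560d (k8 d1461 d72 d455 d360 d1744 i512 d456 i2800 (k8 d430 i2799 i143 i2801 i2327 d427 d439 i1844 (k8 d334 i967 d249 i821 i591 i559 d238 d371 (k8 d351 d318 i2753 d244 i2406 i2385 i449 d586 (k8 d1026 i1115 d904 i443 d445 i145 d350 d1752 (k8 d1754 i631 i597 i2040 d1617 d54 i1246 i2332 (k8 d379 d926 d1755 i1531 i208 i1578 i224 i225 (k2 i1530 i1703 (k1 d259 k0))))))))) (by decide +kernel)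
def d1757 : PP 8 4 T 0x1000000000000060200024140010000000000104000200001600000000044010502 := rS 0x9e5e9a904b50b064db174799d200d (k8 d1461 i512 i449 d318 d43 d1751 i2799 d427 (k4 d279 d1746 d1748 i1415 (k2 i632 i1190 k0))) (by decide +kernel)
def d1758 : PP 8 4 T 0x1002000000000020000020001000000000000100000000009000000000004010100 := rS 0x19b9584318232cd6c93691e2e953299d8ab767a3d8ef05687e1871698b1665137abd425f3991132611782d6315099042c190a98c0003481700a0d (k8 d1461 d456 d1744 i512 i2800 d430 d586 i2327 (k8 i2799 d427 d439 i1844 d1756 d455 i559 i2753 (k8 i2801 d334 i967 d249 i143 i821 i591 d238 (k8 d830 i513 d1445 d0 d244 d383 d476 d360 (k8 d371 d351 d318 i1149 i854 d964 i449 d1026 (k8 i104 d43 d862 d1751 d1757 i631 d713 d354 (k4 d968 d114 d470 i291 (k1 d1223 k0)))))))) (by decide +kernel)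
def d1759 : PP 8 4 T 0x1000000000000020200010101000000000000100000000009000000000004010100 := rS 0x95 (k2 i1100 d1754 k0) (by decide +kernel)
def d1760 : PP 8 4 T 0x1002000000000020000000001000000000000100000000009000000000004010100 := rS 0x6d3491d86ba4f0c144943bc581e6b64af5729a530b166073f946187d8ac6526653199d8a532c9c45e8f63bc0de0b57a84e6444c84c82160a984be190000c0a902e2c5560d (k8 d1461 d72 d455 d1744 i512 d456 i2800 d430 (k8 i2799 i143 i2801 i2327 d427 d439 i1844 d334 (k8 i967 d249 i821 i591 i559 d238 d371 d351 (k8 d318 i2753 d244 i2406 i2385 d964 i449 d586 (k8 d1026 d904 d34 d1756 d107 d383 d830 d353 (k8 i479 i513 d1445 d1011 d1010 d1758 i1417 d1759 (k8 i631 i597 d1617 d78 d1618 i979 i978 i1181 (k4 i1182 i329 i1531 i1565 (k2 i1681 i2029 k0))))))))) (by decide +kernel)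
def d1761 : PP 8 4 T 0x1000000000000021000000000000000000000200010210001000000000004910000 := rS 0x410da6b6183c8ee543b2444303c97d8ac77804c820d (k8 d1461 d439 i1844 d371 d351 d964 i143 i1072 (k8 i970 i971 i2646 i1708 d39 i1531 i245 i251 (k4 i631 i516 d85 d114 k0))) (by decide +kernel)
def d1762 : PP 8 4 T 0x1000000000000020200020001000000000000000000000009000000000004010100 := rS 0x1601c600e58b29fa6942c422e778291ceacd4796488160c854cb435698582350580006902e015560d (k8 d1461 i583 d456 d1744 i512 i2800 d430 i559 (k8 i1115 i1250 i2801 i1289 d99 d1026 i2327 i2799 (k8 d427 i967 i2406 d318 i892 d1761 d1596 d370 (k8 d273 d61 d422 d387 i1849 d1760 d436 i1394 (k4 d1750 i598 i600 i986 (k1 d268 k0)))))) (by decide +kernel)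
def d1763 : PP 8 4 T 0x1000000000000020200020001000000000000000000000009000000000004010000 := rS 0x65bf410ab8291c2c190000c0b4356985205c (k8 d1744 i512 i2801 i1289 d99 d456 i2800 d430 (k8 i2799 d427 d1596 d370 i583 d1762 d413 i1388 (k1 d436 k0))) (by decide +kernel)
def d1764 : PP 8 4 T 0x1000000000000020200020000000000000000000000000009000000000004010000 := rS 0x1ac1eaa18aa20a6d23858320001815205c (k8 d1744 i512 d456 i2800 d430 i2799 d427 d1596 (k8 i2331 d370 d1763 i2660 i1140 i598 i2396 d1755 k0)) (by decide +kernel)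
def d1765 : PP 8 4 T 0x1000000000000020200000001000000000000000000000009000000000004010100 := rS 0x4e3f2c0de5f30a4d42734c84c82b5388bcfb108b9de0a473ab351e5922058321532aad72af0580006902e0152a0d (k8 d1461 i1100 d456 d1744 i512 i2800 d430 i559 (k8 i591 d1764 i584 d1026 i2327 i2799 d427 i967 (k8 i2406 d318 i892 d1761 d1596 d370 d273 d61 (k8 d422 d67 i2753 d244 d1114 d439 i1844 d334 (k8 d249 i821 d904 i2801 i143 d238 d1759 i2044 (k2 i1848 i760 k0)))))) (by decide +kernel)
def d1766 : PP 8 4 T 0x1000000000000020200000001000000000000000000000009000000000004010000 := rS 0xfe6f270b4109530a4ce699099056a71179f621173bc148e7566a3cb2440b0642a650000d20052e2ad720d (k8 d1461 d1764 i584 d1744 d456 i512 i2800 d430 (k8 d1026 i2327 i2799 d427 i967 i2406 d318 i892 (k8 d1761 d1596 d370 d273 d61 d422 d67 i2753 (k8 d244 d1114 d439 i1844 d334 d249 d904 i2801 (k4 i1100 d1765 i1263 i223 (k2 i968 i760 (k1 i2044 k0))))))) (by decide +kernel)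
def d1767 : PP 8 4 T 0x1000000000000020200000000000000000000000000000009000000000004010000 := rS 0x86254decb8aaa1727d882d4ee478bc152671179cd3213209d59a8f2c9102c190a994000348014b80d (k8 d1461 d1744 d456 i512 i2800 d430 d1026 i2327 (k8 i2799 d427 i967 i2406 d318 i892 d1761 d439 (k8 i1844 d334 d249 i2753 d244 d904 d370 d61 (k8 d1596 d273 d1114 d422 d67 d1764 d1766 d425 (k4 d1263 i2643 i1101 d383 (k1 d205 k0)))))) (by decide +kernel)
def d1768 : PP 8 4 T 0x1000000000000020000020000000000000000000000000009000000000004010000 := rS 0x102c180cdcac28232cda478b9846a6333b159ec77804c827566a3cb2440b0642a650000d20052e1ad920d (k8 d1461 d1767 i631 d1744 d456 i512 i2800 d430 (k8 d1026 i2327 i2799 d427 i967 i2406 d318 i892 (k8 d1761 d439 i1844 d371 d351 i1149 d964 i449 (k8 d586 i1115 i2801 d43 d862 d1751 d713 d354 (k4 d114 d470 i291 d468 (k2 i986 d968 (k1 i1263 k0))))))) (by decide +kernel)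
def d1769 : PP 8 4 T 0x1100000000000020000000001000000000000000000000009400000000004010100 := rS 0x56b4d96a518b04666c724592635338bcd60f64ae4169544c51fa7566a3cb2440b0642a6531800060530a40b80d (k8 d1461 d1744 i512 i2801 d456 i2800 d430 d586 (k8 d1026 i2327 i2799 d427 i967 i2406 d318 i892 (k8 d1761 d1760 d450 d83 d350 i559 d1768 d1767 (k8 i597 i631 i2753 i449 i1115 d904 d354 d85 (k8 d1755 d379 d382 d39 d60 i2332 d253 d1517 (k1 d1515 k0)))))) (by decide +kernel)
def d1770 : PP 8 4 T 0x6001200000000000080000010000000006400000100440200001400011400004150000 := rS 0x308646d62b3d8ef04aa245a0d (k8 d1461 d0 d83 d350 d371 d351 i1149 d964 (k4 d1751 d775 d114 i291 k0)) (by decide +kernel)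
def d1771 : PP 8 4 T 0x2001201000000000080001010000000002400050154400200001400001400044010142 := rS 0x11011b956821521dc6716498d4ce15099044a160ca55120d (k8 d1461 d83 d350 i2799 d427 i860 d439 i1844 (k8 i2327 i449 i1115 d904 d1770 d379 d78 d253 (k4 d1451 i2044 d60 i248 (k2 d410 d349 k0)))) (by decide +kernel)
def d1772 : PP 8 4 T 0x1000000000000020000000001000000000000000000000009400000000004010100 := rS 0x882d042233bb94607f0f93960a73eacc0ec1692a8aacb56c112667299c45e2535b25726f05abd42734c84c825f4ac51fa7566a3cb2440b0642a6531800060530a40b80d (k8 d1461 d1744 i512 i2801 d456 i2800 d430 d586 (k8 d1026 i2327 i2799 d427 i967 i2406 d318 i892 (k8 d1761 d1760 d450 d350 i143 d439 i1844 d334 (k8 d249 i821 i591 i559 d238 d1768 d1767 i631 (k8 i860 i2753 d244 i2385 i449 d904 d1769 d12 (k8 d54 d474 i2040 d1515 i1513 i457 i2330 i1596 (k8 d359 d1011 i1848 i1269 i759 d1771 d39 d448 (k4 i1571 d1451 i2044 d410 (k1 d349 k0))))))))) (by decide +kernel)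
def d1773 : PP 8 4 T 0x1000000000000020000000001000000000000000000000009000000000004010100 := rS 0xcd82874fc5842541115d4a312322d1a4330a4c6a2f39a658ef009904eacd4796488160c854cac95c82c0003481700a0d (k8 d1461 d456 d1744 i512 i2800 d430 i559 d1768 (k8 d1767 d1026 i2327 i2799 d427 i967 i2406 d318 (k8 i892 d1761 d439 i1844 d371 d351 d334 d249 (k8 i2753 i1115 d904 i2801 i443 d445 i145 d1772 (k8 i1531 i208 i1578 i224 i225 i1530 d862 d1549 (k4 i1703 i2944 d379 d259 k0)))))) (by decide +kernel)
def d1774 : PP 8 4 T 0x1100000000000000101010000040010010000000050000001400000500004004000 := rS 0x14a3119b922c0d (k4 d1461 d354 d85 d379 (k2 d39 d60 (k1 d678 k0))) (by decide +kernel)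
def d1775 : PP 8 4 T 0x400000000006001200000000000000001010000400006400000100440200001400011400004150000 := rS 0x6134d4a6d62b1de00d (k8 d1461 d371 d351 d964 d1751 d574 d1770 d114 (k1 d715 k0)) (by decide +kernel)
def d1776 : PP 8 4 T 0x1200000000000001000002000000000000000000400200001400000000084150000 := rS 0xdac3438898ac7418fde00d (k8 d1461 d371 d27 i1435 d351 d964 i1396 i933 (k2 i251 i516 (k1 d114 k0))) (by decide +kernel)
def d1777 : PP 8 4 T 0x2001000000000000000100010001440006400000154455200081400010400084154200 := rS 0x22e313b2d6867f3eaa8aaad8232d9ac116a55120d (k8 d1461 d83 d350 i1263 i1266 i892 i1388 d1774 (k8 d12 d474 i2040 i1273 i759 d458 d1776 i2044 (k2 d448 d78 (k1 d1775 k0)))) (by decide +kernel)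
def d1778 : PP 8 4 T 0x1000000000000020000000001000000000000000000000009000000000004010000 := rS 0x1d8443123254de1e2728d4f1416820c2931a98cce71179cd3213209d59a8f2c9102c190a994d60f6480006902e015720d (k8 d1461 d1768 d456 d1744 i512 i2800 d430 d1767 (k8 i597 i631 d1026 i2327 i2799 d427 i967 i2406 (k8 d318 i892 d1761 d439 i1844 d334 d249 i2753 (k8 d244 i449 d586 i1115 d904 i2801 d1773 i1263 (k8 d1728 i2098 i2097 i223 i222 i968 d350 d1777 (k4 i1531 i224 d242 i1626 k0)))))) (by decide +kernel)
def d1779 : PP 8 4 T 0x1001000000000001000002500000000008000002000000001000000000004000000 := rS 0xa2abd04bf (k4 i1456 i933 i594 d457 (k1 d414 k0)) (by decide +kernel)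
def d1780 : PP 8 4 T 0x1100000000000020000000000000000000000000000000009400000000004010000 := rS 0x285ad34a2d44686528c442c136390eea112b1de07566a3cb2653583d92b97eacc0e093ea4d6281861bce699099062aa8389102a2f0b064000302a40b80d (k8 d1461 d1744 i512 d456 i2800 d430 i2799 d427 (k8 i2753 i2327 i967 d244 d1778 d425 d439 i1844 (k8 d334 d249 i2643 d383 d465 i1847 d904 d107 (k8 d1728 i2293 i2329 d374 d1768 d1767 i597 i631 (k8 d1026 i2406 d318 i892 d1761 d371 d351 i860 (k8 i821 d273 d85 d1755 d382 d25 d39 d60 (k8 i516 i1703 d1779 d205 d338 i978 d442 i560 k0))))))) (by decide +kernel)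
def d1781 : PP 8 4 T 0x4021200000000000000000010000000016400010150440200001400000000004910000 := rS 0x19308ec6d5ab159ec77804c820d (k8 d1461 d439 i1844 d371 d351 i1149 d964 d1114 (k4 d1751 d205 d114 i712 (k1 i291 k0))) (by decide +kernel)
def d1782 : PP 8 4 T 0x1001000000000001000002500000000000000002000200001000000000004000000 := rS 0x86 (k2 i516 d1779 k0) (by decide +kernel)
def d1783 : PP 8 4 T 0x1201000000000001000002500000000000000000400200001400000001004154140 := rS 0x1a60b0e290402372b08db1162b1de00d (k8 d1461 d371 d351 d964 d349 d1782 d114 d470 (k4 i251 d410 d1261 i727 (k2 i361 d42 (k1 d442 k0)))) (by decide +kernel)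
def d1784 : PP 8 4 T 0x21200000000000000000011000000016400010150440200001400000000004910000 := rS 0xed16 (k2 d1781 d205 (k1 d78 k0)) (by decide +kernel)
def d1785 : PP 8 4 T 0x11001000000000000000008010000000120000000000000000001000000600004000000 := rS 0x26976a652b4e86c1 (k8 i1518 d447 d0 i1383 d715 i1945 d1010 i1182 k0) (by decide +kernel)
def d1786 : PP 8 4 T 0x1001001000000000020008010500000120000000000000000001000000400004150142 := rS 0x4d2ed5ca76902c5b19 (k8 d34 d1785 i560 d442 d359 d1011 i1944 i592 (k1 i1182 k0)) (by decide +kernel)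
def d1787 : PP 8 4 T 0x1000000000000020000000000000000000000000000000009400000000004010000 := rS 0x5a0a18a9dc89b10c4446af5d9590c6c61afd28b582464cec512b1de07566a3cb2653583d92b97eacc0e093ea4d6281861bce699099062aa8389102a2f0b064000302a40b80d (k8 d1461 d1744 i512 d456 i2800 d430 i2799 d427 (k8 i2753 i2327 i967 d244 d1778 d425 d439 i1844 (k8 d334 d249 i2643 d383 d465 i1847 d904 d107 (k8 d1728 i2293 i2329 d374 d1768 d1767 i597 i631 (k8 d1026 i2406 d318 i892 d1761 d371 d351 i860 (k8 d964 i449 d34 d1780 d1783 d1784 i1726 d1786 (k8 d114 i516 i515 i1682 i594 i1703 d57 i1497 (k4 i1182 d410 d1010 d39 (k2 d1011 i978 (k1 i560 k0)))))))))) (by decide +kernel)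
def d1788 : PP 8 4 T 0x1000000000000020000000000000000000000000000000009000000000004010000 := rS 0x5682928335aa1ceec14fc5842541115d4a3123430fa09039bd9715542e5927563b35e08f399c4b2131791082160a864ca354980006614ca40868d2e22c0a0d (k8 d1461 d456 i145 d1744 d445 i443 i512 d334 (k8 i2801 i2800 d430 d904 i1115 d1026 i2799 i2327 (k8 d427 d439 i967 i2753 i1844 i2406 d244 d249 (k8 d318 d371 i892 d351 d1761 d1767 d1768 d1778 (k8 d425 d1263 i2643 i2293 d1728 d107 d383 d1787 (k8 i1531 i208 i1578 i224 i225 i1530 d862 d1549 (k8 i1534 i1626 i1703 i768 d379 d205 d259 i1557 (k1 i305 k0)))))))) (by decide +kernel)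
def d1789 : PP 8 4 T 0x1000000000000011000000000005000101005500200000009000000000004000000 := rS 0x67a1cbe91 (k4 i1170 i645 i1564 i1832 (k1 d265 k0)) (by decide +kernel)
def d1790 : PP 8 4 T 0x4001000000000000000200000000000000400000100000100009400000000004810002 := rS 0xc19c0e438a624132d9a8d285a795d9a910aa753e7b8c22cb2792fa34dad1221de0a0d (k8 d1461 d370 d273 i967 d1788 i671 d997 i645 (k8 d267 i606 i451 d461 d64 d11 d362 i637 (k8 i1170 d1107 i504 d971 d1014 d1789 d467 d275 (k8 i1961 d418 d386 d51 d1604 i2046 i598 d860 k0)))) (by decide +kernel)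
def d1791 : PP 8 4 T 0x400000000002001100000000000010001000014010041840000050001508001600000000004000502 := rS 0x60ea8cf90d4193df8cb5aa6537183ca36227f52b901e0d (k8 d1461 i2319 d85 d60 i846 d406 d997 d267 (k8 d461 d84 d449 d320 i506 d436 d395 d1355 (k4 d1203 d481 i1594 i1233 (k2 i2027 i480 k0)))) (by decide +kernel)
def d1792 : PP 8 4 T 0x1002000000000000010020000004000000000500201108009600000000004000002 := rS 0x224844ac5d1a2f (k4 i2779 d997 d43 i104 (k2 i1583 d272 (k1 d53 k0))) (by decide +kernel)
def d1793 : PP 8 4 T 0x1000000000000000200020001000000000000100000100009400000000004810102 := rS 0xea30f1f196b686ad626814c8a0b4cf09538d283a2ac49efc8aaac1691a1b046a9731b153e9b8c22cf25f46b1cda156891142430cab4c2713b9fce66b2a96622a561b901e564745e0a0d (k8 d1461 d370 d43 d1790 i1133 i2319 d85 d470 (k8 d60 d406 i606 d373 d287 i2783 i846 d273 (k8 i1408 i2640 i1289 i8 i438 i821 i967 d1788 (k8 i637 i671 d880 d997 i645 d267 i451 d461 (k8 d84 d11 d964 d586 d684 i1115 i1250 d99 (k8 i1170 i559 i583 d1791 d450 d395 d455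 d277 (k8 d1355 d1792 d467 i2029 d96 i227 i226 i1143 (k8 i1809 d386 d320 d343 d357 i506 d481 i1929 (k2 i1594 i1302 (k1 i2027 k0)))))))))) (by decide +kernel)
def d1794 : PP 8 4 T 0x1000000000000000200020000000000000000100000100009400000000004810102 := rS 0x92b8d29840c316e8337ace2afd5430dc825079ac42312b444aa8e389dc8917398d52e6362a7cf69b8c22cb2792fa360ac736855a20d (k8 d1461 d1788 i637 i671 d880 d370 d997 i645 (k8 d267 i606 i451 d461 d84 d64 d11 d964 (k8 d586 d684 i1115 i2783 d43 i967 d273 i1408 (k8 d1790 d373 d406 i1133 i2659 i726 d287 i2319 (k8 i861 d85 d470 d1793 d374 d425 i663 i2643 (k8 d901 d648 d383 d465 d313 d266 d733 i2029 (k1 i1921 k0))))))) (by decide +kernel)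
def d1795 : PP 8 4 T 0x1000000000000000200020000000000000000100000100009400000000006010002 := rS 0x224282d9a8d34f670cc471042b34aa872b83d86314790a2e3b1ab153e7b8c23516591597e0ac736855a20d (k8 d1461 d1788 i637 i671 d880 d370 i645 d198 (k8 i606 i451 d997 d461 d64 d11 d964 i1115 (k8 d825 d43 i1038 i1130 i2718 d721 i2404 i441 (k8 d1017 i704 d1107 d1014 d438 d401 i232 d262 (k4 d96 i1832 d467 i1962 (k2 d579 d418 (k1 d386 k0))))))) (by decide +kernel)
def d1796 : PP 8 4 T 0x1000000000000000200020000000000000000100000100009400000000004010002 := rS 0x552a597147eab410610b0668705 (k8 d370 d99 d1795 d427 i2640 d1794 i1289 d413 (k4 d1728 i1388 d425 d436 (k1 i583 k0))) (by decide +kernel)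
def d1797 : PP 8 4 T 0x1100000000000008000000000000000100000001400000001000000000004000000 := rS 0xd34f (k2 d96 i1832 (k1 d467 k0)) (by decide +kernel)
def d1798 : PP 8 4 T 0x1100000000000000000000000000000000000000000010001080008000004400000 := rS 0x444aa2210860ae0d (k8 d1461 i441 d427 i1612 i232 i703 d401 d438 k0) (by decide +kernel)
def d1799 : PP 8 4 T 0x1000000000000000200020000000000000000100000100009000000000004010002 := rS 0x224f01196c2710109a8aae4670cd0acd2b895868f210602e312331cdb058b994763562a7cf71846a2cb22b2f855a20d (k8 d1461 d1788 i637 i645 d198 i606 i451 d997 (k8 d461 d64 d11 d964 i1115 d825 i2730 d43 (k8 d370 i671 d880 d1796 i1531 d1596 d427 i1038 (k8 i1130 d721 i348 i441 d1107 d1014 d1798 d262 (k8 d468 d916 d1797 d25 d438 i1960 i1962 d401 (k2 d371 d418 (k1 d910 k0))))))) (by decide +kernel)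
def d1800 : PP 8 4 T 0x400000000000001002000000000010400400001000100140000002005000001000000000004000000 := rS 0xbd5daca8aab58a5e9eaf (k8 i594 d389 d684 d455 d72 d277 d701 i1681 (k2 i1413 d87 k0)) (by decide +kernel)
def d1801 : PP 8 4 T 0x22001001002000000000000000000000041000001050000100001244400000004800500 := rS 0x40adcde830e07ca0066989c7a371c9ed3699 (k8 d449 d84 d64 d364 d9 d23 d38 d1047 (k8 d442 i479 i1302 i480 i1438 i969 i721 i1235 (k1 i2045 k0))) (by decide +kernel)
def d1802 : PP 8 4 T 0x400000000002001000000000000010400400001000001140001052005100001240400000004910500 := rS 0x2056e6f418703e500334c7a281b96824f17ea652e393da6e303f (k8 d1076 d461 d84 d64 d364 d684 d449 d1800 (k8 d1801 d371 i227 i1799 i226 i3058 d1047 d442 (k8 i479 i1302 i480 i1438 i969 i1929 i1235 i2045 k0))) (by decide +kernel)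
def d1803 : PP 8 4 T 0x1000000000000010400020001000001140001052005100001240400000004910500 := rS 0xbb4c2adf915a1afd3718 (k8 d461 d84 i1457 d99 d1802 d450 d72 d1800 (k2 i1681 i1144 k0)) (by decide +kernel)
def d1804 : PP 8 4 T 0x400400000000000001002000000000010000400001000100140000001555000001000000000004000000 := rS 0x178b2a2abd6297 (k4 d684 d455 d347 d277 (k2 d701 d970 (k1 i1414 k0))) (by decide +kernel)
def d1805 : PP 8 4 T 0x400400000000002001000000000000010000400001000001140001051555100001240400000004910500 := rS 0x2056e6f418703e500334c7a281b96824f17ea652e393da6e303f (k8 d1076 d461 d84 d64 d364 d684 d449 d1804 (k8 d1801 d371 i227 i1799 i226 i3058 d1047 d442 (k8 i479 i1302 i480 i1438 i969 i1929 i1235 i2045 k0))) (by decide +kernel)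
def d1806 : PP 8 4 T 0x4001000000000000000000000000000000400000100040008001000000000004000000 := rS 0xef11 (k2 d57 i1627 (k1 d422 k0)) (by decide +kernel)
def d1807 : PP 8 4 T 0x1000000000000000400020001000000000000012000100009000000000004810002 := rS 0x243e5920902b74c9bc3c4e28c505afd042bd22731d8552e633dafd3718459e4bed14694c1641221848619 (k8 i8 i438 i2640 i967 d439 i559 i566 d997 (k8 d1788 i645 d267 i451 d461 d84 i1457 d64 (k8 d586 d684 i637 d825 i2783 i1170 i594 d1803 (k8 d413 i1263 d1728 i1310 i223 i222 i968 d449 (k4 d290 i1276 i2045 d901 (k2 i1435 i1428 (k1 i2103 k0))))))) (by decide +kernel)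
def d1808 : PP 8 4 T 0x2001000002000000000000000000400440000000000000000001001500500004000000 := rS 0x7e37 (k2 d9 d27 (k1 d1330 k0)) (by decide +kernel)
def d1809 : PP 8 4 T 0x400400000000002001000000000000010000400001000001140001051555100001240400400004910400 := rS 0xaf1b8fc24f1538b47a084b8e53718 (k8 d461 d84 d364 d684 d1805 i1268 i1263 i2098 (k4 d1808 d371 i2103 i1799 (k2 i1920 d1110 k0))) (by decide +kernel)
def d1810 : PP 8 4 T 0x1000000000000000100020000000000000000000000114009000000000004810002 := rS 0x6f86a61f915a7b38da7121ad4c2440ca4686731d8545e9d4fafd3718459e4bed146b2cc67d4794c16a9359a4ab048b994ce0d (k8 d1461 i449 i2730 d43 d354 d474 d431 d366 (k8 i1139 i559 i566 i1132 i1330 d586 d713 d997 (k8 d1788 i645 d267 i451 d461 d84 i1457 d11 (k8 d362 i2779 i637 d825 i2783 d99 i1170 i8 (k8 i967 i2640 d279 i438 i1407 d1807 i2042 d96 (k4 d1809 d450 d1804 d276 (k2 i2645 d383 k0))))))) (by decide +kernel)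
def d1811 : PP 8 4 T 0x400000000002001000000000000010400400001000001140401042005400401080400100006110000 := rS 0x2f68ab25dac5561e031409efd8682532971cc629eaf (k8 i594 d389 d461 d364 d684 d449 d1244 d1203 (k8 d1800 i702 d399 i439 i440 i2249 d1237 i1681 (k4 d701 d355 i1413 d87 k0))) (by decide +kernel)
def d1812 : PP 8 4 T 0x5001000000000000000101000011000000000000000055000001000011500006000400 := rS 0x2ac12a303bf08f04 (k8 d354 d81 d450 d1252 d1639 d413 d72 d1632 k0) (by decide +kernel)
def d1813 : PP 8 4 T 0x1000000000000000000020000000000000000100000100009000000000004010002 := rS 0x7881538784c2928169fa85a78499cc7278fcdb0d04a662883438dd8631210b4c2450c05cae472a9a4d60b29b3608cb56aa51ec93c97d2317a1994e63b338bd82354b98d8a154e8e53e7b5fa6e308d45b44b20d (k8 d1461 i606 d1788 i451 d997 d461 d84 i1457 (k8 d64 d11 d364 d362 i637 d964 d586 d684 (k8 i1115 i1250 i2779 i449 d825 i2783 i2730 d99 (k8 d43 i1170 i645 d267 d1799 i1132 i1139 i1290 (k8 d713 d354 d1107 i566 i559 d366 d431 d474 (k8 d81 d1806 d1810 d427 i478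 i2711 d1240 i1038 (k8 i2718 d721 i1043 d1017 d1202 d1812 d449 d1244 (k8 d1203 d1811 d1076 i702 d880 i2042 d114 d96 (k8 i1871 d1804 i2039 d399 i1806 i705 i440 i242 (k2 i3051 d1330 (k1 i1307 k0))))))))))) (by decide +kernel)
def d1814 : PP 8 4 T 0x400000000002001000000000000010200000511000000040000000005200001605040000004000002 := rS 0x903bf594ae69a6476971cc611a0b (k8 i559 d997 d461 d364 d684 d825 d449 d1047 (k4 d701 d976 d347 i2295 (k2 i1388 d442 k0))) (by decide +kernel)
def d1815 : PP 8 4 T 0x1000000000000010200020001000000040000000801200009605040000004000002 := rS 0x130bb57c56869731acd7e9b8c23562ad (k8 i1289 i1967 d997 d461 d84 i1457 i634 d586 (k4 d684 d99 d1814 d1037 (k2 i1946 d701 (k1 i1144 k0)))) (by decide +kernel)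
def d1816 : PP 8 4 T 0x1000000000000000200020000000000000000100000000009000000000004010002 := rS 0x23968824caf218bb551bd9715541c4d47734c14e69731a75371846a2cc2478b9e488371e8fde0132085832432e055a20d (k8 d1461 d1788 i637 d1813 i443 i1038 d427 d439 (k8 i1844 d371 d27 d23 d9 i967 d284 d43 (k8 d862 i2640 i451 d997 d461 d84 d362 d586 (k8 d684 i2783 d370 d977 d273 d975 i1408 d1815 (k8 d425 d1263 i2643 i1140 i1947 d383 i586 i1144 (k4 d313 i1415 d279 d320 k0)))))) (by decide +kernel)
def d1817 : PP 8 4 T 0x1000000000000000000020000000000000000100000000009000000000004010002 := rS 0x188cdcace611b4d26b2bc101e8f64b1de013239042c19219722e651a99d8a154e8e53f1846a2da20d (k8 d1461 d1788 i451 d997 d461 d11 d364 d362 (k8 i637 d964 i449 i1115 i2730 d43 d1813 i443 (k8 i1038 d427 d439 d862 i1844 d371 d351 d1816 (k8 i1132 i597 d354 d1806 d366 d431 i515 d114 (k4 i2042 d470 i290 d954 (k1 d468 k0)))))) (by decide +kernel)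
def d1818 : PP 8 4 T 0x1000000000000000000020000000000000000000000000009000000000004010002 := rS 0x4664848d8f16333cf25d618c484180b8cce89f62c602a8b468d4765f68c5cca0d (k8 d1461 i2730 d43 d1788 i645 d825 i1115 d997 (k8 i451 i637 d461 d964 d11 d1817 d460 i2647 (k8 d427 i1038 i2718 d721 i443 d267 i1067 d262 (k4 d351 d880 d371 i671 (k2 i218 d727 k0))))) (by decide +kernel)
def d1819 : PP 8 4 T 0x1000000000000000000000000000000000000000000000001000002000004000008 := rS 0xd (k2 d1461 i1003 k0) (by decide +kernel)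
def d1820 : PP 8 4 T 0x1000000000000000000000000000000000000000080000001000002000004000000 := rS 0xd (k2 d1461 i1505 k0) (by decide +kernel)
def d1821 : PP 8 4 T 0x1001000000000000000401000014100000000000000000000001400004100004004560 := rS 0xd (k2 d1461 d655 k0) (by decide +kernel)
def d1822 : PP 8 4 T 0x1000000000000000020000000000000000000002000000001000000000004000000 := rS 0xd (k2 d1461 i1521 k0) (by decide +kernel)
def d1823 : PP 8 4 T 0x1000000000000000000000000200000000000000000000001000000000004000080 := rS 0xd (k2 d1461 i1380 k0) (by decide +kernel)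
def d1824 : PP 8 4 T 0x4001000000000000000101000014040010000000000048000001400001000006000560 := rS 0xd (k2 d1461 d532 k0) (by decide +kernel)
def d1825 : PP 8 4 T 0x201100000000000000010000000000000005000000800000001400000050004114000 := rS 0xd (k2 d1461 d579 k0) (by decide +kernel)
def d1826 : PP 8 4 T 0x1000000000000000000000000000000000000000000000001020000000204000000 := rS 0xd (k2 d1461 i744 k0) (by decide +kernel)
def d1827 : PP 8 4 T 0x1000000000000000000000000000000000000000000000001000020000004000002 := rS 0xd (k2 d1461 i1115 k0) (by decide +kernel)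
def d1828 : PP 8 4 T 0x1000000000000000000000000000000000000000000000001080000002004000000 := rS 0xd (k2 d1461 i859 k0) (by decide +kernel)
def d1829 : PP 8 4 T 0x1000000000000000000000000000000000000000000008001080000000004000000 := rS 0xd (k2 d1461 i441 k0) (by decide +kernel)
def d1830 : PP 8 4 T 0x1000000000000000000000000000000000000000080000001000000000004000002 := rS 0xd (k2 d1461 i449 k0) (by decide +kernel)
def d1831 : PP 8 4 T 0x1000000000000000002000008000000000000000000000001000000000004000000 := rS 0xd (k2 d1461 i1513 k0) (by decide +kernel)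
def d1832 : PP 8 4 T 0x1000000000000000002000000000000000000000000000001000000000004000200 := rS 0xd (k2 d1461 i1266 k0) (by decide +kernel)
def d1833 : PP 8 4 T 0x1100000000000000000000000000000000000800000000001400000000004800002 := rS 0xd (k2 d1461 d273 k0) (by decide +kernel)
def d1834 : PP 8 4 T 0x4001200000000000000001000014040000000000000000000001400011000006000540 := rS 0xd (k2 d1461 d531 k0) (by decide +kernel)
def d1835 : PP 8 4 T 0x1000000000000000401000014140000000000000000000001400000000004004540 := rS 0xd (k2 d1461 i2027 k0) (by decide +kernel)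
def d1836 : PP 8 4 T 0x1100000001000000000000000000000000000000000000001400000000004004000 := rS 0xd (k2 d1461 d85 k0) (by decide +kernel)
def d1837 : PP 8 4 T 0x1000000000000000054000000000000000000001500000001400000000004154000 := rS 0xd (k2 d1461 i2029 k0) (by decide +kernel)
def d1838 : PP 8 4 T 0x1000000000000000008000000000000000000000000000001000000000004020000 := rS 0xd (k2 d1461 i1953 k0) (by decide +kernel)
def d1839 : PP 8 4 T 0x1000000000000000100000000084000000000000400000009008000000004000008 := rS 0xd (k2 d1461 d221 k0) (by decide +kernel)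
def d1840 : PP 8 4 T 0x20001000001000000004180000000004000400000000400145001000040000004040008 := rS 0xd (k2 d1461 d222 k0) (by decide +kernel)
def d1841 : PP 8 4 T 0x1000000000000001200000000000080050000814400000000000000400000001404000000004150540 := rS 0xd (k2 d1461 d157 k0) (by decide +kernel)
def d1842 : PP 8 4 T 0x1200000000000000054000000000000000000001400000001400000000004150000 := rS 0xd (k2 d1461 d114 k0) (by decide +kernel)
def d1843 : PP 8 4 T 0x1000000000000000000000000000000000000000000008001000000000204000000 := rS 0xd (k2 d1461 i1497 k0) (by decide +kernel)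
def d1844 : PP 8 4 T 0x1000000000000000001000014100000800000420080000001000004000004004520 := rS 0xd (k2 d1461 d596 k0) (by decide +kernel)
def d1845 : PP 8 4 T 0x1000000000000000000000008000000000000000000000001000000000004000080 := rS 0xd (k2 d1461 i457 k0) (by decide +kernel)
def d1846 : PP 8 4 T 0x1100000000000000000000000000000000000200000000001110000000004000020 := rS 0xd (k2 d1461 d651 k0) (by decide +kernel)
def d1847 : PP 8 4 T 0x1000000000000000000000000000000000000002000000001000000000004020000 := rS 0xd (k2 d1461 i475 k0) (by decide +kernel)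
def d1848 : PP 8 4 T 0x1200002000000000014000000000000080000000000000009000100000004100000 := rS 0xd (k2 d1461 d729 k0) (by decide +kernel)
def d1849 : PP 8 4 T 0x1000000000000008000000000000000100000000000000001000002000004004000 := rS 0xd (k2 d1461 d954 k0) (by decide +kernel)
def d1850 : PP 8 4 T 0x1000000000000000020000000000000000000000000000001000000000004110000 := rS 0xd (k2 d1461 d964 k0) (by decide +kernel)
def d1851 : PP 8 4 T 0x1000000000000010200000000000000000001500500200001400000000004050002 := rS 0xd (k2 d1461 d975 k0) (by decide +kernel)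
def d1852 : PP 8 4 T 0x1101000000000000004100004000401101100500044150011011061000014016000108 := rS 0xd (k2 d1461 d1030 k0) (by decide +kernel)
def d1853 : PP 8 4 T 0x1000000000000000000000000000000008000001000500001000000000004000000 := rS 0xb713 (k2 d51 i778 (k1 d418 k0)) (by decide +kernel)
def d1854 : PP 8 4 T 0x400000000022001000000000000000001040000000040000000000000000001005560100004000000 := rS 0x29146a6698bdca9b (k8 d84 d15 d423 d1047 d1330 i326 d475 i368 k0) (by decide +kernel)
def d1855 : PP 8 4 T 0x1000000000000010250020000000000010000000000100009000540045004000008 := rS 0xaf54ac412ad511845d1559afd36998c2ed1a3f1e848d4696121d2e294597e860f32b045a6349918dacd42c41ca212008c688f (k8 i2778 i1122 i247 i1046 d1826 d15 d410 d387 (k8 d1169 i671 i1123 i130 i616 i2723 i1249 i2730 (k8 i341 d99 i645 i491 i187 d684 d1853 i2032 (k8 i1829 i211 i210 i1959 i2084 i1129 i3118 d461 (k8 i1144 d84 i1457 i634 d1854 d485 i2726 i1138 (k4 i1289 i2074 i1967 i1085 (k2 i1921 d701 k0))))))) (by decide +kernel)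
def d1856 : PP 8 4 T 0x400000000022001000000001000000001000000040000000000000000000001805540100004000000 := rS 0x148a669a6d2e2f (k4 d423 d407 d84 d1047 (k2 d1330 d475 (k1 i2082 k0))) (by decide +kernel)
def d1857 : PP 8 4 T 0x1000000000000001250000000004000081000000000000009000100045504000000 := rS 0xc3438a5387a (k4 i492 i618 i1889 i818 (k2 i1905 i2032 k0)) (by decide +kernel)
def d1858 : PP 8 4 T 0x400000000022001000000000000000001000000000000000000000000000001805560100004000000 := rS 0x2885ee5 (k4 d15 d423 d1856 i326 k0) (by decide +kernel)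
def d1859 : PP 8 4 T 0x1001000000000000000000000800000400000000040004200001000000000004000000 := rS 0x1b90450 (k4 i513 i514 d830 i1439 k0) (by decide +kernel)
def d1860 : PP 8 4 T 0x1001100000000000010000020401000000140000001005000009000000000004000000 := rS 0x352e99c9858abdf897 (k8 d684 d450 d1037 d455 d701 i1143 i1144 d1797 (k1 i1946 k0)) (by decide +kernel)
def d1861 : PP 8 4 T 0x20001000000001000010000000000000000000000000002000009000000000004000008 := rS 0x5e4e (k2 i1048 i2726 (k1 d218 k0)) (by decide +kernel)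
def d1862 : PP 8 4 T 0x1000000000000000200020000000000000000000000000009000000000004010000 := rS 0x288102e5418567154dc61163f1ea36265c42c419a2372b1c4a9f1a1b48c6382a4e86731ba3c722710a25822d158ec301748b458a15200080205 (k8 d456 d1818 d430 i1046 d225 d1850 d1788 i1170 (k8 i966 d427 d716 i387 i2723 i1249 i2049 d1826 (k8 i746 i2051 i2778 i1005 i2783 d99 i130 d370 (k8 i616 i1123 i671 i1122 i2810 i2078 d880 d15 (k8 i247 d1169 d410 d387 d1855 d368 d445 d687 (k8 d683 d1857 d461 d84 d1858 d1859 d1861 d1860 (k4 i1084 i1085 i1138 i2074 k0))))))) (by decide +kernel)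
def d1863 : PP 8 4 T 0x400400000000006001000000000000000000440000100400000000000000000001021540100004000000 := rS 0x17b45530fd2e2f (k4 d423 d407 d219 d1330 (k2 d377 d686 (k1 d87 k0))) (by decide +kernel)
def d1864 : PP 8 4 T 0x1000000000000000080000000000000000000000000000001400000000004110000 := rS 0x26f1 (k2 d351 i218 (k1 d371 k0)) (by decide +kernel)
def d1865 : PP 8 4 T 0x400000000000002001000000000000000050020000005400000000000000000001021451100006000000 := rS 0x2e99ca561b922f431c8cd32bf (k8 i1457 d449 i2050 i2051 d99 d43 d468 d721 (k4 d60 i2035 d1863 i1950 k0)) (by decide +kernel)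
def d1866 : PP 8 4 T 0x22001000000000000010040020000000000040000002000000001021441100006010000 := rS 0x186f11f2ed56a3728d29f17a18e416c1628552e2f4ea7d7e9b (k8 d84 i1457 d11 d362 d423 d407 d225 d1850 (k8 i1249 i2183 i2051 d99 d43 d389 d1865 d15 (k4 i326 d1164 i1681 d1854 (k2 d27 i376 (k1 d435 k0))))) (by decide +kernel)
def d1867 : PP 8 4 T 0x2001000000000000000050020000005400000000000000000001021451100006000000 := rS 0xcea730c7233 (k4 i2050 i2051 d721 d1865 (k2 i2035 d96 k0)) (by decide +kernel)
def d1868 : PP 8 4 T 0x1000000000000000040420000000000404004000001000401028000050406010000 := rS 0x668950a7561c481117138858a15 (k8 d225 d1850 d1826 i746 d43 d1076 d683 i376 (k4 d1742 d53 i349 d1107 (k1 i2032 k0))) (by decide +kernel)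
def d1869 : PP 8 4 T 0x2001000000000000000000020000000000100000000000100009000000000004010000 := rS 0x4b11429d4ec566119948cf5334d743f349acc30451b946887368f57e9b3da7d3b182697e86731ba3c620f1c89d822d158ed22d16294d52236391d9317199942a8b1490004054b9c532a1178602e01 (k8 d1818 i966 d427 d423 i310 d449 d361 d407 (k8 d456 d430 i1046 i187 i491 d225 i2730 i2050 (k8 d43 d1862 d727 d1864 i184 i1139 i566 d1850 (k8 d1788 i1170 d716 i387 i2723 i1249 i746 i2051 (k8 i341 i2724 i2778 i1005 i2783 d99 i645 i51 (k8 d461 d362 d11 d64 d84 i1457 d691 d1866 (k8 d1853 d1867 d15 i326 d1836 d1861 d366 d431 (k8 d1868 d1854 d1047 d1330 i1950 d475 i2042 i367 (k4 i489 i490 i1588 i1866 (k2 d57 d415 (k1 d1696 k0))))))))))) (by decide +kernel)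
def d1870 : PP 8 4 T 0x1000000000000010000000000000800040000000000000009000000000004000000 := rS 0x9e60 (k2 d1141 d1341 (k1 i1048 k0)) (by decide +kernel)
def d1871 : PP 8 4 T 0x2001000000000000000000020000000000000000000000100009000000000004010000 := rS 0x56883369f0c7e21d0aba610740e5534a9208d30fa8dcaa6048d07e9d89abcf05a1ea85968c4c9c45e9731d0ce637478c41e391388416c1168ac7691629655ac723b262e330c05cca152000802054fa6d16d1 (k8 d1788 i491 d1870 i1189 d456 d1818 d430 i1046 (k8 d225 i2730 i966 d427 i2050 d43 d1862 d727 (k8 d1864 i1290 i605 d1850 i1170 d716 i387 i2723 (k8 i1249 i2183 d1826 i746 i2051 i341 i2724 i2778 (k8 i1005 i2783 d99 d3 d407 d423 d361 d449 (k8 d1869 d713 i310 d691 i1052 i1051 i1924 d404 (k8 i3062 d683 d1867 d1110 d1330 d15 i326 i182 (k8 d359 d1836 d475 d431 d474 d1823 i1382 i367 (k8 i368 i1811 i777 d442 d479 d433 i3123 d97 (k2 d1337 d57 k0)))))))))) (by decide +kernel)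
def d1872 : PP 8 4 T 0x1001000000000000000150020000001400400005000004100009020451104006000000 := rS 0xc06f338fd6e5789a199a75428f54ece69095862f1c8841689608ad52ad1191e2e33328a53ebf (k8 i1457 i1189 i187 i2730 i2050 d43 d727 i184 (k8 i1290 i1139 i387 i1249 i2049 i2183 d1826 i2051 (k8 i1137 d721 i348 d417 i2035 d359 d88 i1871 (k8 i1067 d1107 i2032 d51 i1706 i857 d683 i489 (k2 d1187 d1812 (k1 i1047 k0)))))) (by decide +kernel)
def d1873 : PP 8 4 T 0x1000000000000000000020000000000100000000000100009000000000004010000 := rS 0x5399c6d4c9ba1a672b9c620b512a94ea2e0f8fc124f7e154d26b30c11ca346598cf6974ec60f25f4ad0ce637478c45a0f1c89c769110b14b2a911b1c8ec98b8cc3017328548002008153ebf4da2da315 (k8 d1871 d1788 i491 d1870 i1457 i1189 d456 d1818 (k8 d430 i1046 d225 i2730 i966 d427 i2050 d43 (k8 d1862 d727 d1864 i184 i1139 i605 d1850 d1826 (k8 i1170 d716 i746 i2051 i341 i2723 i2724 i2778 (k8 i1005 i2783 d99 i104 i645 d267 d461 d362 (k8 d405 d64 d650 d713 d1872 d15 d1836 d1861 (k8 d366 d431 d474 d450 d395 d413 d1076 i182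 (k8 d1356 i2741 i366 i349 d1261 d410 i1407 d57 (k8 i489 d1154 d383 i1059 d1800 i2042 d1804 d96 k0))))))))) (by decide +kernel)
def d1874 : PP 8 4 T 0x1001000000000000010150020000001040400000000004100009025051104006000000 := rS 0x56431990acd5e9854e1d672dd30d203a844ac317a5686731c8841689608ac769154ab446478b8ccca294fafd368b (k8 i491 d1870 i1457 i1189 i187 i2730 i2050 d43 (k8 d727 i184 i1290 i1139 i1170 d716 i387 i1249 (k8 i2049 i2183 d1826 i2051 i2783 d99 i104 i1137 (k8 d721 i348 i310 d1252 d417 d485 d1354 i2035 (k8 i742 d359 i2728 i1991 d191 i1871 d1812 i2032 (k2 i489 i1706 k0)))))) (by decide +kernel)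
def d1875 : PP 8 4 T 0x1401002000001000010450020000000001401004040000591001020040104406000000 := rS 0x5bd161abc5315d85105ab344aa2529d5a62e4087d06b10493d2b17a188582291f8ac7687 (k8 i777 d716 i387 d683 i187 i1249 d1826 d99 (k8 d43 i104 d395 d413 d455 d1355 i182 i1809 (k8 d1356 d358 i2741 i366 i1138 i349 d1107 d1261 (k8 d410 i2032 d57 d715 i329 d1154 d377 i1988 (k1 d357 k0))))) (by decide +kernel)
def d1876 : PP 8 4 T 0x1000000000000000000020000000000000000000000100009000000000004010000 := rS 0x17a64c0fd42954d304728d07ecb1ea752f13319e0f65a46455368b2697ce637478c45a0f1c89d122b1da45a2c52caa446c723b262e330c05cca15200080205 (k8 d456 d1818 d430 i1046 d225 i2730 i966 d427 (k8 i2050 d43 d1862 d727 d1864 i184 i1139 i605 (k8 d1850 d1788 i1170 d716 i387 i2049 i746 i2051 (k8 i341 i2723 i2724 i2778 i1005 i2783 i645 i51 (k8 i491 d1870 d1871 d1873 i1052 i1816 i1051 d147 (k8 d404 i3061 i3062 d688 d713 d683 d1874 d15 (k8 d1836 d431 d474 i1811 d1875 d450 i2728 i2726 (k1 d485 k0)))))))) (by decide +kernel)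
def d1877 : PP 8 4 T 0x2001000000000000010050020000000000140000000000000009021051100006000000 := rS 0x13a9f8c26c7691 (k4 i1170 d716 d1870 d461 (k2 i1189 d362 (k1 d1867 k0))) (by decide +kernel)
def d1878 : PP 8 4 T 0x2001000000000000000000020000000000000000000000000009000010000004010000 := rS 0xcf05353c0266936c6514c31b8c45a0f1cb158e4764c5c66650aa347b132e09c563b200080a180b80522d1 (k8 d1788 i1170 d1818 i966 d427 d456 d430 i1046 (k8 d716 i387 i746 d1876 d368 d687 d445 d225 (k8 i2730 i2050 d43 d1862 d727 d1864 d1850 i2051 (k8 i341 i2723 i2724 i1005 d721 d1877 d52 i2311 (k4 i1888 i1881 d210 d1837 (k2 d1848 i2309 (k1 d354 k0))))))) (by decide +kernel)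
def d1879 : PP 8 4 T 0x2001000000000000000000020000000000040000000000000009000000000004010000 := rS 0x10a8788d3cec566119948cf69ae93aa636c6137431b8c472c116b1c2a8d1e8fe262b13a5d329f1da45a2a3179a59a6b82394680f23b262e33200080a180b804ca5c (k8 d1876 i2730 d1818 i966 d427 d456 d430 i1046 (k8 i2050 d43 d1862 d727 i341 d1878 d15 d1836 (k8 d366 i1970 d431 d423 i326 d1788 i1170 d716 (k8 i1183 d449 d407 i746 i387 d368 d683 d687 (k8 d445 d225 d1864 i2723 i1249 i2051 i2724 i1005 (k8 d99 d1870 d461 d1866 d1330 d362 d1854 d1047 (k8 i1950 d475 i2042 i367 i489 i490 d433 d57 (k2 i1705 i1631 (k1 d97 k0))))))))) (by decide +kernel)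
def d1880 : PP 8 4 T 0x2001000000000000000000020000000000000000000000000009000000000004010000 := rS 0x9da7b099e1336c65146935c113ee51a03c723b48b458ac723b262e330c05cca15200080205 (k8 d456 d1818 d430 i1046 d225 i2730 i966 d427 (k8 i2050 d43 d1862 d727 d1864 d1850 d1788 i1170 (k8 d716 i2051 i341 d1878 d15 i1183 d1836 d366 (k8 d431 d1879 d52 i2311 i1881 i1978 d1837 d433 (k2 i1905 d397 k0))))) (by decide +kernel)
def d1881 : PP 8 4 T 0x1001000000000000010100020000000000040000000000200009025051100006000000 := rS 0x822ac126b333f174cb30a60c66f4bade309b3d9cc723b4882d82a95691e2e3332a3546a703b485e89 (k8 i2049 i1137 d417 d49 d359 d1639 d445 i2730 (k8 i2050 d43 d727 i1290 i1139 i1249 i2183 i1170 (k8 d716 i2051 i2783 i1891 d1870 d461 d1354 d405 (k8 d1187 d650 i2034 i1047 d713 i1144 d450 d1812 (k4 i1947 d413 d72 d344 (k1 d1834 k0)))))) (by decide +kernel)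
def d1882 : PP 8 4 T 0x1000000000000000000020000000000000000000000000009000010000004010000 := rS 0x19e0a6a7804cd26d8ca298637188b41e3962b1c8ec98b8ccca151e8fe265c158ec301748b444e40010040b15 (k8 d1880 d456 d1818 d430 i1046 i746 d1788 i1170 (k8 i966 d427 d716 i387 d1876 d368 d683 d687 (k8 d225 i2730 i2050 d43 d1862 d727 d1864 d1850 (k8 i2051 i341 i2723 i2724 i1005 d721 d1881 d52 (k8 i2311 i1888 i1881 d210 d1837 d1848 i2309 d354 k0))))) (by decide +kernel)
def d1883 : PP 8 4 T 0x1001000000001000010400020001000000040000000000211009000000000406000008 := rS 0x434e2575ac404a6f3aa616eb157bf0c2b34bc613673109011a63 (k8 i1405 d445 i1046 d1826 i2783 d1870 d461 d684 (k8 d1859 d1861 d450 d1037 d455 i1930 d701 i2742 (k8 i1060 i349 d410 d349 d57 i1407 d1154 d383 k0))) (by decide +kernel)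
def d1884 : PP 8 4 T 0x1000000000000000000020000000000000000000000000009000000000004010000 := rS 0x4ed3d84cf099b6328a2a9a5966b8227dca348a9718e2323aa4b2c9628cc76390a8601e400b80802658b81522d1 (k8 d1788 i1170 d456 d43 i2730 d1818 d430 i966 (k8 i1046 i341 d427 d225 i2051 d716 i2050 d1850 (k8 d1862 i605 i1139 d727 i184 d1864 d1876 d1880 (k8 d1882 d15 i1183 d1836 d366 d54 d431 d474 (k8 d1883 d52 i2311 i1881 i1978 d1837 d433 i1905 (k1 d397 k0)))))) (by decide +kernel)
def d1885 : PP 8 4 T 0x1000000000000000000000000000000100000000000000001000080000004110000 := rS 0x26f1 (k2 d9 i1799 (k1 d371 k0)) (by decide +kernel)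
def d1886 : PP 8 4 T 0x2001000000000000014200010000015401840000000000508001600000200004000002 := rS 0x34d3d7cbb5ed095a0969a552e9338a64e66d5598416a935c44aa5960b901f05 (k8 d370 i2319 d1836 d382 i2406 d373 d406 d287 (k8 d425 i559 i1126 i584 i671 d477 d449 d361 (k8 d28 d407 d350 d0 i1263 d1517 d1791 d378 (k4 d58 i2048 d59 i1567 (k1 d467 k0))))) (by decide +kernel)
def d1887 : PP 8 4 T 0x1000000000000000000000000000000000000000000000001208000000004110000 := rS 0x26f1 (k2 d27 i2103 (k1 d371 k0)) (by decide +kernel)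
def d1888 : PP 8 4 T 0x2001000000000000054200010000815401840000000000508001600000000004000002 := rS 0x34d3d7cbba12b57a094aa5d26714c9ccdaab3082d526b88954b2c161b901f05 (k8 d370 i2319 d1836 d470 d382 i2406 d373 d406 (k8 d287 d425 i559 i1126 i584 i671 d477 d449 (k8 d361 d28 d407 d350 i2098 i1984 d1517 d1791 (k4 d58 i2048 d59 i1567 (k1 d467 k0))))) (by decide +kernel)
def d1889 : PP 8 4 T 0x1000000000000000000000000000000000000000000000001202000000004110000 := rS 0x1416824f1 (k4 d23 d371 i227 i226 (k1 i3058 k0)) (by decide +kernel)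
def d1890 : PP 8 4 T 0x2001000000000000000200000000000000000000000000100009000000000004810000 := rS 0x29c5acf3595a22554717d22b94b8bd328982c5cdaa13991cea594da753ed31e8dc7e15220ec7318458011ad1 (k8 d1788 i2642 i966 i451 d461 d364 i2796 i967 (k8 i637 d1887 d1885 d1889 d1047 d11 d362 d1870 (k8 i2406 i2646 d1596 d477 i821 i671 d61 d370 (k8 d83 d449 d423 d407 d1884 i1170 i645 d1790 (k8 d373 d406 i1133 d287 d1797 d1886 d1888 i2034 k0))))) (by decide +kernel)
def d1891 : PP 8 4 T 0x2001000000000000000000051000000400400810500000000001000000000004000000 := rS 0xfe6f4aa4ce273 (k4 d477 d361 d28 d350 (k2 i1439 i926 (k1 i2044 k0))) (by decide +kernel)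
def d1892 : PP 8 4 T 0x1000000000000040000000080000000000000000000000001200000000004000500 := rS 0xefd (k2 d347 i2295 (k1 d442 k0)) (by decide +kernel)
def d1893 : PP 8 4 T 0x2001000000000000040000000000000000141000500801200009600000000004010500 := rS 0xfa8f5aa08ae505dac95eb156ae4c69754a6536d1 (k8 d1788 d1870 d449 d425 d407 d3 d1884 d1517 (k8 i1967 d1892 d701 i1946 i513 i2326 i514 i1398 (k2 i1133 i1442 (k1 d1891 k0)))) (by decide +kernel)
def d1894 : PP 8 4 T 0x2001000000000000000200000000000000000000000000000009000000000004810000 := rS 0x14e2d04214d46909971a63d1f8dc729d8c26cf2593b82c2a8b3a91d1a3b2200082d14b8bd529944c14c2b9 (k8 d1884 i1126 d370 d83 d449 d425 d423 d407 (k8 d1788 d439 i966 i967 i2796 i2642 d1596 i2646 (k8 i451 i637 i559 d1833 i2406 d284 d1870 d461 (k8 d362 d364 d1885 d1887 d1889 d1047 d1890 i1844 (k4 d977 d1851 i1869 d1893 (k2 i1263 i2098 (k1 i2034 k0))))))) (by decide +kernel)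
def d1895 : PP 8 4 T 0x1100000000000000000000000000000000000000000000009080008000004400000 := rS 0xb075 (k2 d460 d1798 (k1 i606 k0)) (by decide +kernel)
def d1896 : PP 8 4 T 0x1000000000000000200000000000000040000000000100009400000000004410000 := rS 0x11c49e1102d84d9a59351d50ace19b0c427b4fa75c85563b163079478ac4a0f210551a351d90400030297e0b1736b446218 (k8 d427 i2717 d1788 i671 d61 d370 i645 d456 (k8 i1123 d430 i180 d825 d1827 d997 i637 i1038 (k8 i598 d1178 i387 i1130 d267 d461 d1850 d880 (k8 i704 d1836 d362 d11 d64 d25 d470 d1895 (k8 d985 i1871 i1067 d1797 i606 d1107 i1961 i1963 (k4 d287 d371 d418 d401 (k1 d910 k0))))))) (by decide +kernel)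
def d1897 : PP 8 4 T 0x1000000000000000200000000005000100004000000100009800400000004410002 := rS 0x471278440b61366964d47542b3986217215466c7479082a3502c162e6d18b144a2b3c97da218 (k8 d427 d1788 i645 d267 i388 i2078 i1536 i2717 (k8 i671 d61 d370 d456 d1827 i637 i1038 i1130 (k8 d880 d1895 d916 d468 i1529 d470 d985 i1871 (k8 i1067 d1797 i606 d1107 i1960 i1963 d287 d371 (k2 d418 d401 (k1 d910 k0)))))) (by decide +kernel)
def d1898 : PP 8 4 T 0x2001000000000000000200000000000000140000000000100009000000000004010000 := rS 0x16d0d4187e24a66996c7e6a612159ac7118f4b2291395c42153a8d05a404790c04013da7c723b4e8ac6f183c815229738a65127382c5cc2b9508bd36873697da2c5129183017 (k8 d1894 d427 d1896 i2078 i1536 d1788 i645 i671 (k8 d1853 d1870 d423 i310 d1884 i1126 d61 d370 (k8 d477 d83 d449 d361 d407 i1170 d456 d267 (k8 d461 i1043 i388 d362 d363 d364 d11 d64 (k8 d1897 d430 i437 i2778 i1046 i2723 i1122 i2740 (k8 i380 i1530 i504 i746 i187 i866 d691 i247 (k8 i412 d1107 d1014 i2032 i211 i2084 i1962 d1117 (k4 i2034 d418 i2054 d24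 (k2 d1203 d693 (k1 d1218 k0)))))))))) (by decide +kernel)
def d1899 : PP 8 4 T 0x2001000000000000000200000000000000040000000000100009000000000004010000 := rS 0x108cd1195c4e2961884ea34478dc8ac7358ac8602341e0765a00a304ac52321c0a5f36b443017 (k8 d1894 d427 d1788 i671 i645 d456 d1853 d1896 (k8 i1536 i2078 d1898 d997 i1052 i2731 i1051 i1129 (k8 d430 i437 i387 i3130 d228 d101 i1005 i2778 (k8 i1122 i2740 i1530 i211 i1806 i1767 i504 i247 (k2 i1973 i2032 (k1 i1812 k0)))))) (by decide +kernel)
def d1900 : PP 8 4 T 0x2001100000001000040000110000145400100000001501000001800000000004000000 := rS 0x30686ad5d2fe9ccf4aa5d2699 (k8 d449 d28 d407 d350 d1797 d467 d59 i2048 (k4 d974 d58 i1533 d475 k0)) (by decide +kernel)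
def d1901 : PP 8 4 T 0x2001000000000000010002000100000000140000000801000001800000000004014000 := rS 0x57acc0ccb31a5d5299 (k8 d449 d425 d407 d3 i1246 i1534 i633 i459 (k1 d701 k0)) (by decide +kernel)
def d1902 : PP 8 4 T 0x2001000000000000000200000000000000040000000000000009000000000004010000 := rS 0xcae0e2ccfecba1304d47d52af5621f88299a6b55188dca251e83c423f3a8d08c0b169011e2b348093e3b4e8e46e018c1ec4e4346c4cb89b0298d2ea94ca260b1736b44c2b9508602e2f (k8 d423 d1894 d427 i310 d1884 i1126 d1788 i671 (k8 d61 d370 d83 d449 d425 d407 d3 d456 (k8 d1870 d1899 d368 d445 i443 i1765 i1891 d461 (k8 i1038 i1044 i235 d362 d363 d11 d430 d977 (k8 i387 i2778 i1046 i2723 i302 i1123 i1122 i2740 (k8 d683 d1826 i2204 d687 i2078 d15 i247 i327 (k8 d1148 d1117 i2034 d410 i2054 i1822 d686 i2082 (k8 d67 d1900 d1901 d1856 d98 d100 i633 i2030 (k2 d701 i742 (k1 i459 k0)))))))))) (by decide +kernel)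
def d1903 : PP 8 4 T 0x2001000000000000000200000000000000000000000000000009000000000004010000 := rS 0x237289442cd618a468462023c720243b1d8a131589c029c0a9e8b85b450c430173681522d1 (k8 d1788 i1170 d456 i671 d1894 d427 i2717 d1902 (k8 d441 i491 i492 i549 i618 i451 d1126 d451 (k8 i3096 d1850 d880 i1645 d430 i194 i2778 i1046 (k8 i1123 i1122 i1889 i1905 i1910 d1826 i2078 d15 (k2 i247 d695 k0))))) (by decide +kernel)
def d1904 : PP 8 4 T 0x20001100000000000000150000000000000100000000010000001400010000004010002 := rS 0x18631678cdc9161da7cce0f (k8 i597 d1830 d11 d363 d354 d1836 d379 d385 (k2 d39 d470 (k1 d262 k0))) (by decide +kernel)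
def d1905 : PP 8 4 T 0x22001000000000000000000000000000400100000000000000009400000000004810000 := rS 0x29c5a0865ab608d3638fc6ec51e82c2a673099488001ab45729531a5c5ea949b247639 (k8 d364 d363 d1903 d28 d425 d423 d407 d3 (k8 d350 d1884 d1788 i2775 i966 i967 i2641 i2640 (k8 d1830 i637 i559 d1889 d1850 d1885 d1887 d1864 (k8 d1047 d1904 d12 d54 d1515 i1263 i2098 d1330 k0)))) (by decide +kernel)
def d1906 : PP 8 4 T 0x2001000000000000010100010000000001140000000000400401400040000006010002 := rS 0x69b2d5a3f820258ec5309085a0b0a99cca354a98d5293398ec7318 (k8 d461 d364 d363 d477 d28 d425 d3 d350 (k8 d1827 d1026 d1830 i637 i559 d1240 i1038 i2711 (k8 d1850 d1864 d1244 d1904 d1076 d12 d54 d1117 (k1 d1515 k0)))) (by decide +kernel)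
def d1907 : PP 8 4 T 0x2001000000002000000050010000005400000000000000000001021555100004000000 := rS 0x1774f8bafe86ce5130d4ac14a8bd2689 (k8 d83 d28 d423 d350 d382 d60 d470 i2033 (k4 i2035 d469 i1719 d385 (k2 d96 i1951 (k1 d1863 k0)))) (by decide +kernel)
def d1908 : PP 8 4 T 0x2001000000000000000050010000005401400005000000500001421515104006000000 := rS 0x2dc4d0c852ab34eb108b411ca251b8841e23 (k8 i184 i2204 d1826 i1043 i348 d1907 d1836 d468 (k8 d410 d124 d1169 d474 d387 d1306 d51 i777 (k1 d418 k0))) (by decide +kernel)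
def d1909 : PP 8 4 T 0x1000000001000000000000000000000000000000080000009000000000504000000 := rS 0x12c44ec56 (k4 i489 i490 d57 d415 (k1 d410 k0)) (by decide +kernel)
def d1910 : PP 8 4 T 0x2001000000000000000000000000000000140000000000100009400000000004010000 := rS 0x1763f672ccdb4360aa8ce69569ad96618228ccb17728d18ec51e88c4e0f108cc2a0b169006202008ac6ea10c05cf69f1c8ed3b183c814be915ca54c69717a4ce299449cca6a947b2536d1 (k8 d1788 d1870 d1903 i1132 d425 i566 d477 d83 (k8 d449 d361 d28 d423 d407 d3 d350 d1884 (k8 i1170 i645 d456 d267 d461 d362 d363 d364 (k8 d11 d64 d1905 d427 i310 i1043 i388 d1906 (k8 d430 d1819 i1046 i2723 i302 i380 i192 d1826 (k8 i2204 i746 i184 d691 d1850 d1864 d1908 d15 (k8 d44 i2729 i327 d1836 d1861 d713 d366 d12 (k8 d431 d1909 i2040 d802 d458 d1164 i665 i2042 (k2 d197 i1951 (k1 d1854 k0)))))))))) (by decide +kernel)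
def d1911 : PP 8 4 T 0x2001000000000000040150010000005400000000000001000009421555100006000500 := rS 0x32cca67821d5ca254a98d52931083c46ad (k8 d1517 i184 i2204 d1826 d28 d425 d3 d350 (k8 i348 d1907 d124 d1836 d1909 i1049 d54 d1515 k0)) (by decide +kernel)
def d1912 : PP 8 4 T 0x2001000000000000000000000000000000040000000000100009400000000004010000 := rS 0x32cce658bb9468615687da609530fde0c7628f44621138a456330a82c5a401b8c48a184ec4c72025785cf03b4f968028c02ae52a634b8bd52934cb2536d1 (k8 d1788 d1870 d1903 d449 d28 d425 d423 d407 (k8 d3 d350 d1884 d456 d1910 d997 i1052 i2732 (k8 i2731 i1051 i2642 i1924 d430 d398 d404 i3062 (k8 d427 d101 d1819 i1005 i1046 i2723 i302 i379 (k8 i192 i387 i1806 i1767 d1826 i184 d688 d1850 (k8 d1864 d419 d683 d1808 d1110 d359 i2054 d1517 (k8 d698 d1911 d15 d44 i2729 d1909 d713 d1515 k0))))))) (by decide +kernel)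
def d1913 : PP 8 4 T 0x20001000000000000000100000000000000100000000000000009800000000004810000 := rS 0x4de2c6678ce2c3161854ce6522001a3051ab14769f (k8 d11 d363 i1536 i207 d81 d1788 i966 i967 (k8 i2641 d1830 i637 i2101 i1531 d354 d379 d385 (k4 d262 d351 i2104 d371 k0))) (by decide +kernel)
def d1914 : PP 8 4 T 0x1000000000000010000000000000000000000000000000001000400000004200010 := rS 0x203 (k2 i379 i637 (k1 d430 k0)) (by decide +kernel)
def d1915 : PP 8 4 T 0x1100000000000000100000000005001400005000000510001000000000006000002 := rS 0x15622cc429d50e578b108ce65 (k8 d1026 d1830 i1038 d354 d1829 d1017 d281 d1014 (k4 d1306 d454 i2459 d438 k0)) (by decide +kernel)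
def d1916 : PP 8 4 T 0x6001000000000000000100010000005400100000000000000001821545100004110000 := rS 0x631b5c864828d58a67 (k8 i1617 i1536 i207 d81 d354 d468 i1700 d1907 (k1 d880 k0)) (by decide +kernel)
def d1917 : PP 8 4 T 0x28001000000000000000140000000000001400001000000500001800005010106010000 := rS 0xcd3aa150f10611b46ac54e8ec729f3d8dc4acf (k8 d385 i2078 i1043 d64 d11 d364 d363 d362 (k8 i1536 i207 i1695 i2035 d615 d1853 i1867 d400 (k2 d454 d1306 k0))) (by decide +kernel)
def d1918 : PP 8 4 T 0x2001000000000000000000000000000000140000000000100009000000000004010000 := rS 0x761ab63087d44d341a96241260bc58d161e8a46627108b48031218080215158dd42180b9ed3e391da7630790297d22b94aa5c5e9338a6512734796536d1828d48cc9 (k8 d1903 d1912 i207 d81 d1788 d1870 i605 i1132 (k8 d477 d83 d449 d361 d28 d423 d407 d350 (k8 d1884 i1170 i645 d456 d267 d461 d362 d363 (k8 d364 d11 d64 d1913 d427 i310 i1043 i388 (k8 d1914 d1915 d430 i437 i1532 i1046 i2723 i1530 (k8 i746 i2050 i187 d691 d1916 d1917 d351 i1694 (k8 d371 d419 i2092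 d24 d787 i2033 i2053 d698 (k4 d693 d1203 i2496 d479 k0)))))))) (by decide +kernel)
def d1919 : PP 8 4 T 0x2001000000000000000000000000000000040000000000100009000000000004010000 := rS 0x4599ce563bc07a33138a5862b169006e450c1ad3b131c85462020b9e0769f2d00518c51a9180a5f5cb2536d1 (k8 d1788 d1870 d1903 d1884 i645 d456 d1912 i207 (k8 i1536 d1918 d997 i1052 i2732 i2731 i1051 i2642 (k8 d430 i1532 d1914 d398 d404 i3062 i3130 d427 (k8 d101 i1005 i1046 i2723 d198 i211 i1806 i1767 (k8 i2050 d688 d419 d351 d1907 i2035 d468 d385 k0))))) (by decide +kernel)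
def d1920 : PP 8 4 T 0x2001000000000000040150010000005400000000000000000009441550000046000000 := rS 0x10c3ead4ee1d881d62c25043952a93389cd1ea1188b4162f198844661200080205 (k8 d456 i1038 d430 i1046 d698 i184 d1826 i192 (k8 d423 i302 i2723 d1819 i310 i1132 d477 d361 (k8 d28 d350 d1907 d1911 i348 d468 d124 d410 (k4 i1262 d78 d349 d67 (k2 d479 d205 k0))))) (by decide +kernel)
def d1921 : PP 8 4 T 0x2001000000000000000000000000000000040000000000000009400000000004010000 := rS 0xce5d1b686c1551a55a6b6599e08a332c5dca343087da6a61f8f4460f1082c5a400100456186385d729531a5c5ea949a6512c94dc4c86274e8e53ec51b8547718688151a5c (k8 d1919 d445 d456 d1788 d461 d363 d1914 d1885 (k8 d1850 d11 d364 d362 i1765 i443 d368 d1870 (k8 d1903 d83 d449 d28 d425 d423 d407 d3 (k8 d350 d1884 d1905 d1864 d427 i387 i1038 d430 (k8 i1046 i2723 i302 d1826 i2204 i184 d687 d683 (k8 d1330 d1047 i2054 d698 d1920 d15 d44 i2729 (k8 i327 d1836 d1909 d713 d366 d12 d431 i2040 (k4 d802 d458 d1164 d1854 (k2 i2042 i1950 k0))))))))) (by decide +kernel)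
def d1922 : PP 8 4 T 0x1000000000022001000000000000004050010000100400400100400000200001821050100106000000 := rS 0x41c34fab75a9d620bb0908d84e54aa4ce27389a7476394f8946233 (k8 i2050 i1042 i2078 d11 d364 d363 d362 d368 (k8 d477 d361 d28 d350 d1907 i2035 i2057 i210 (k8 i1945 d620 d124 d1261 i3108 d67 d205 d1891 (k1 d357 k0)))) (by decide +kernel)
def d1923 : PP 8 4 T 0x2001000000000000000000000000000000040000000000000009000000000004010000 := rS 0x52f16329503453bb3d4d161f8f4662d20008620115a843017108d48c37628553e391da76302721a36265c4d815a2b94b8bd1ec9 (k8 d1903 i1132 d423 d407 d1884 d1788 d456 d1870 (k8 d1919 d368 d445 i443 i1765 d461 d362 d363 (k8 d364 d11 d1914 d1850 d1885 d1921 i207 i1530 (k8 d1913 d427 i310 i387 i1038 i1042 d430 i1046 (k8 i2723 i2050 d687 d683 d1916 d1330 d385 d78 (k4 d377 i1860 i2082 d1922 (k2 d351 i2060 (k1 d419 k0)))))))) (by decide +kernel)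
def d1924 : PP 8 4 T 0x6001000000000000000000000000000000000000000000000009400010000004010000 := rS 0x10f11669d0ae644299e9e6a82b0dc859649e49b13639b4d2c57805472133d170620f1990004050c05c028a (k8 d1923 i451 i966 d427 d456 d430 i1046 i2050 (k8 i2204 d1819 i491 i492 i3096 i194 i549 d371 (k8 d1850 i3097 i2311 d880 d368 i51 i1854 d1903 (k8 i605 d468 d470 d1848 d1837 d429 i2309 i1869 (k4 d354 d432 i1049 i1971 (k2 d400 i1708 (k1 d97 k0))))))) (by decide +kernel)
def d1925 : PP 8 4 T 0x1000000000000000500010011000014000000000054004201000000000004000000 := rS 0x15661 (k2 d45 i497 (k1 i2040 k0)) (by decide +kernel)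
def d1926 : PP 8 4 T 0x2000000000000001000000000000000000000000000140010000000000000001005540500004000000 := rS 0x14e9b (k2 d56 d377 (k1 i2034 k0)) (by decide +kernel)
def d1927 : PP 8 4 T 0x1000000000000001000000001000000100010001000014400500450044200001400001001504004000 := rS 0xb628c34fa575ab2ccaad881d60913 (k8 d368 d1836 d124 d410 d12 d47 d54 d349 (k4 d57 d67 d205 d1925 (k2 d357 i1931 k0))) (by decide +kernel)
def d1928 : PP 8 4 T 0x2001000000000000000000000000000000000000000000000009400010000004010000 := rS 0x14e9b5e2ee9ebfa1a78d4a261a9582e4339dd3b1612ae52a6354a4ce68f64b1cdacf34a050671628c4420f198602f45168e4263b159e922d11396e265c1eac47eb30a8dd129917a5c4640010051405 (k8 d456 d1923 i451 d430 i1046 i184 d407 d423 (k8 d449 d83 i1774 i549 i2310 d197 i1885 d1361 (k8 i491 d368 d441 d1126 d1788 i1170 i492 d451 (k8 d1167 i3096 i194 i2723 d1926 i966 d427 i2050 (k8 i2204 d1826 d1819 d1850 d361 i815 i1893 i3097 (k8 i3140 i2311 d880 d1903 i1132 d477 d28 d425 (k8 d3 d350 d1884 i348 d1924 d452 d78 d86 (k8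 d1927 d382 d60 d470 d678 d1837 i2035 d469 (k4 i1719 d429 i1685 d87 (k2 i1417 i1984 (k1 i2034 k0))))))))))) (by decide +kernel)
def d1929 : PP 8 4 T 0x2001000000000000000000000000000000000000000000000009400000000004010000 := rS 0x4ed3d85044fc5dca348cb3d8a3b15a45a2272dc4de0151c84cf45c0790004050c05c028a (k8 d1923 i451 i966 d427 d456 d430 i1046 i2204 (k8 i491 i492 i3096 i194 i549 d371 d368 d441 (k8 d1126 d1788 i1170 d451 d1167 d1850 i3140 d52 (k8 d1928 d15 d44 i1183 d1836 d1848 d433 i1905 (k1 d397 k0))))) (by decide +kernel)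
def d1930 : PP 8 4 T 0x1000000000000000054000000000000000001000120200009020000055004000000 := rS 0x43a159a233a150ae21 (k8 d1826 d432 i1050 i1049 i185 i1971 i1543 i1708 (k1 i2032 k0)) (by decide +kernel)
def d1931 : PP 8 4 T 0x2001000000000000000000000000000000000000000000000009000000000004010000 := rS 0x14e9b5e2fe86a252b04445666445774f43a790a774ec58ca25618d48d451988452181690062391d8f42e02629a59e1315b1c7f1313ac402790a9e8dab31b970b68a64a25329317a5d2a0526a45a2b9 (k8 d1884 d1788 i1170 i51 d456 d350 d407 d423 (k8 d28 d449 d83 d1903 d1923 d441 i491 i1774 (k8 i2310 i2311 i492 i549 i1854 i451 i1885 d1126 (k8 d368 d197 d880 d451 i3096 i3140 i3097 d1850 (k8 d430 i966 d1361 d1167 i194 d1819 i1046 i2723 (k8 d427 i1889 d1826 i2050 d1926 d1929 i207 i210 (k8 i2078 d1930 d727 d452 d78 i1895 i2035 i817 (k8 d89 i1685 d505 d97 i1971 i1577 i2955 i2056 (k4 i2033 d469 i1719 d87 (k2 i1417 i1984 (k1 i2034 k0))))))))))) (by decide +kernel)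
def d1932 : PP 8 4 T 0x1100000000000000000800010000000000000001400000001000000000004000000 := rS 0xd34f (k2 d59 i1567 (k1 d467 k0)) (by decide +kernel)
def d1933 : PP 8 4 T 0x1000000000000000200000000000000040000000000100009400000000004010000 := rS 0x16a25a698532fd86c15daf5c8cf51d094aad079acde951895a2255470fc7a593a8bc88165cc5537058b9b52e6333a4c6ac51bb1c2a9d1ca7e308d0000c0ad1 (k8 d1788 d456 i1123 d430 d997 d461 d11 d364 (k8 d362 i637 d1864 d1885 d1850 d1827 d904 i121 (k8 d603 d684 i671 d61 d370 d1870 d1931 d1884 (k8 d1896 i967 i2753 i2646 i2406 d1889 d1887 d1790 (k8 d373 d406 i1133 i2659 i2763 i1134 d287 i2319 (k8 d326 d574 d391 d599 d1797 d1836 d378 d58 (k8 d382 d470 d1932 i2036 i2048 d359 i282 i980 (k1 d417 k0)))))))) (by decide +kernel)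
def d1934 : PP 8 4 T 0x400000000000001401000000000000010000011000000551001040554000000001200000000004000002 := rS 0x66a1e228247430fa93 (k8 d904 d107 d383 i2044 d313 d406 i931 i894 (k1 d97 k0)) (by decide +kernel)
def d1935 : PP 8 4 T 0x400000000000000001000000000000000200000000000000041000400000200009000000200004010002 := rS 0x162af27aa4dc7f5ad0966994a9cce2918aa6e2e615ca5cc60533a4c6e1568a3626443a8583243 (k8 i443 i1038 d427 i2646 i967 d368 d997 d1788 (k8 i637 d1885 d904 i121 d456 d603 d684 d1884 (k8 i1126 d61 d1870 d1931 i1170 d70 d236 i2652 (k8 i980 d1859 d391 d55 d100 d1934 i2643 i1271 (k2 d1037 i1848 (k1 d701 k0)))))) (by decide +kernel)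
def d1936 : PP 8 4 T 0x400000000000000401000000000000000201000000000550001000004000000009400000000004814540 := rS 0x707e9cd589168aac88753bc15462f52ad5967fa145d7315498000605 (k8 d456 i1123 d430 d904 d1931 d1884 d61 d391 (k8 d100 d98 d55 d421 i2753 d599 d370 d1833 (k8 i2646 i967 i584 d1788 i1170 d1835 d1599 d360 (k2 d1934 d1663 k0)))) (by decide +kernel)
def d1937 : PP 8 4 T 0x1002000000000010000000400000100140000000005000001000000000004000000 := rS 0x57ac55297 (k4 d684 d374 d455 d347 (k1 d701 k0)) (by decide +kernel)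
def d1938 : PP 8 4 T 0x1000000000000000200000000000110040000000000000009400000000004010000 := rS 0x15eb12813ce4717eadd0c8f678c0ae0e53a21229b30a5c76394f9ee263f048f4166f6081c5a852c9129e2f3199d6a7f59b2e85175cc55266a09904f2370a9a53b1846b44ea770b064865c0000c0b05 (k8 d370 d456 i1123 d430 d1933 i443 i1038 d427 (k8 d1833 i2646 d1788 d997 d461 d362 d977 i637 (k8 d1885 i972 d439 i1844 d1851 d904 d1931 d1884 (k8 d61 d391 d98 i633 d100 d55 i121 d603 (k8 i2753 d429 i967 i2406 i1869 d1935 d1252 d1331 (k8 i968 i560 d1889 d1728 d1076 d368 d64 d11 (k8 d364 d825 d684 i1126 d1870 i1170 d485 i282 (k8 d1936 i2319 i598 d860 i1133 d826 i856 d1937 (k4 d1663 d1934 d428 i1094 (k2 i1848 i500 (k1 d533 k0))))))))))) (by decide +kernel)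
def d1939 : PP 8 4 T 0x1000000000000000201000000000010000000004000000009400000000004814540 := rS 0x8f389f4aefd39ab156753bc15462f52ad5967fa145d7315498000605 (k8 d456 i1123 d430 d904 d1931 d1884 d61 d391 (k8 d100 d98 d55 d421 i2753 d599 d370 d1833 (k8 i2646 i584 d1835 d1599 d360 d326 d107 d1663 (k2 i1133 i2044 k0)))) (by decide +kernel)
def d1940 : PP 8 4 T 0x1000000000000000000000500000000000000020000000001001100400004950542 := rS 0x2bd4efc (k4 d1663 d155 d347 d533 k0) (by decide +kernel)
def d1941 : PP 8 4 T 0x1000000000000000200000000000010040000000000000009400000000004010000 := rS 0xaf7e9415072389f56f104323d9e302b8396298599fd96b5a124573171ca7cf6091e82cdec14981c5a852c9129e6a09904f2370a9a53b1846b44ea77828bc2c1921970000331814cf15 (k8 d1931 i121 d456 d603 i1123 d430 d1933 i443 (k8 i1038 d427 i2753 d370 d1833 i2646 d1788 d997 (k8 d461 d362 d977 i637 d1885 i972 d439 i1844 (k8 d1851 d429 i967 i2406 i1869 d1935 d1252 d904 (k8 d1331 i968 i560 d1889 d1728 d64 d11 d364 (k8 d61 d1884 i1170 d391 d55 d98 d100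 i633 (k8 d1938 i1825 d1939 i2319 i598 d860 i1133 d826 (k8 d422 i856 d67 d1940 i2044 i1093 i1094 d374 (k2 i500 d733 k0))))))))) (by decide +kernel)
def d1942 : PP 8 4 T 0x1000000000000000200000000000000040000000000000009400000000004010000 := rS 0xcb4a0000605 (k4 d456 i1123 d430 d1941 (k2 d1027 i1101 k0)) (by decide +kernel)
def d1943 : PP 8 4 T 0x1001000000000000010000000002000540000000050000500001200000000004800002 := rS 0x8620cdeb3 (k4 i663 i2643 d901 d383 (k1 d313 k0)) (by decide +kernel)
def d1944 : PP 8 4 T 0x1000000000000000500000010000440000000000000100009000000200004010002 := rS 0x10d37a0d284f7e2a4c2440b26432733897d731549994ce631b855a28d (k8 d997 d1788 i637 d1885 d586 d1830 d1026 d904 (k8 d1931 d1884 i645 d70 d236 d1240 i980 d427 (k8 i967 i2640 d1943 d450 d395 d782 d1355 i2644 (k2 d313 d383 k0)))) (by decide +kernel)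
def d1945 : PP 8 4 T 0x20001000000000000004040000440400001401001100000001201000455001004150540 := rS 0x110a50e5a13ac1e0c54e8e53e7b (k8 d64 d11 d364 d362 d1850 d371 d1011 d38 (k4 i1316 i777 i1805 d1462 (k1 d619 k0))) (by decide +kernel)
def d1946 : PP 8 4 T 0x20001000000000000004401000450440000401001580000001009640455401004114540 := rS 0xfe22662dd0e2714168249168b158e9d1ca7cf650 (k8 i1094 d64 d11 d364 d362 d1864 d1850 d1788 (k8 i1170 d1945 i227 i226 i1798 i777 i1928 i2046 (k2 d1462 i848 (k1 d1666 k0)))) (by decide +kernel)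
def d1947 : PP 8 4 T 0x1000000001000004000000440405001401005500000001201000000001404154540 := rS 0x431699ab0 (k4 d1011 d1527 i1316 i2046 (k1 i777 k0)) (by decide +kernel)
def d1948 : PP 8 4 T 0x20001000000000000004401000410440010401001480000101009640454401004114540 := rS 0x66a1c505a0908dca30579d4a09168a753e7b (k8 d64 d11 d362 d1788 i1170 i1094 i1095 i499 (k8 d1946 d39 i1571 d1947 i227 i226 i777 i1969 (k1 i2046 k0))) (by decide +kernel)
def d1949 : PP 8 4 T 0x1000000000000000000000000000010040000000000100009400000000004810002 := rS 0x2d2ba18b74c1cd0a6c3bb3c6716a1a8d4e71693040e0921a84de2517910328f079e4569d4f9ecd6692a82c7e371c8ed06b3543f57293339845acb56c118e65628546b1846a5cc6c94dc54bed1 (k8 d1788 i645 d1931 d1870 d1942 d586 d684 d997 (k8 d461 d1827 i637 d1850 d1026 d1864 d1904 d12 (k8 d54 d1944 i960 d1830 d904 d1884 d782 d450 (k8 i663 d901 d825 d364 d1885 d1280 i560 d474 (k8 d431 d366 d64 d11 d362 d198 d267 i597 (k8 i1132 i8 i967 i2753 i860 i968 i822 i438 (k8 d1728 i2293 d1331 d442 d1663 d359 d375 d1648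 (k8 d391 d379 d385 d78 i2042 i1604 d1948 d1943 (k4 d648 d383 d733 d1266 (k1 i1922 k0)))))))))) (by decide +kernel)
def d1950 : PP 8 4 T 0x1000000000000000000000000000010040000000000100009400000000004010002 := rS 0x1132d8a1842267c58434388ad1565318a940c33698b89e5728908e6180b8fd66a87e93573152c8ed26671b8acbe394f9a4aa6116b2d5b04639958a151ac611a9731b2536d1 (k8 d1788 d1870 d1942 d586 d684 d997 d461 d1827 (k8 i637 d1850 d1026 d1864 d1904 d12 d54 d1944 (k8 i960 d474 d431 d11 d364 i645 d198 d1885 (k8 d1830 d904 d825 i605 d1931 d1884 i51 d782 (k8 d450 i663 d1280 d1949 d427 i2756 i1038 i496 (k8 d1829 d836 d1260 d358 i319 i1078 i365 i1081 (k8 d788 d1845 d1258 d349 d55 i728 d391 d385 (k4 d620 d262 i250 d1267 (k2 d386 d418 k0))))))))) (by decide +kernel)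
def d1951 : PP 8 4 T 0x400000000001001000000000000010400400001000100140000002005000001000000000004000000 := rS 0xfc (k2 d450 d1800 k0) (by decide +kernel)
def d1952 : PP 8 4 T 0x1001000000000000010500000000000520040000040505500001200000000004800142 := rS 0xe0fd541b19e6533a5d3b435fa7e308d (k8 d997 d461 d11 i1725 d447 d362 d684 d1830 (k4 d1026 i1104 i2042 d1951 (k2 d374 d1943 (k1 d1663 k0)))) (by decide +kernel)
def d1953 : PP 8 4 T 0x4001002000000000000501010010000000400050400050010501400000100044804540 := rS 0x14aa3110c0e8ab (k4 d72 d1628 i970 i971 (k2 i1652 i248 (k1 d1835 k0))) (by decide +kernel)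
def d1954 : PP 8 4 T 0x1021001000000000010000004000010200100000000005500001004000000004110540 := rS 0x1695c8359b49502b (k8 d198 d450 d442 i663 d901 d733 d1266 i1922 k0) (by decide +kernel)
def d1955 : PP 8 4 T 0x1001000000000000010501010010000220540000050555510401404000100004914540 := rS 0x5dd3d7a6c67c5956fc0f9fcef0c4ed0d7e9f50944fab73dc60df45 (k8 d408 i968 d461 d64 d648 i1598 d830 i822 (k8 d11 i1725 d447 d362 d383 i1676 d353 d476 (k8 d1954 d72 d1953 d385 i2042 i1990 d389 i1681 (k1 d87 k0)))) (by decide +kernel)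
def d1956 : PP 8 4 T 0x1001000000000000010101010000000420440000040004510001600000100004810142 := rS 0xbba7af4d8cf8b2aceefc0f9fce1454c1f4a2933383d3a6b56b2cd304639958a350598686bf4fc611a193794c7e15 (k8 i637 d1887 i2385 i968 i8 d997 d461 d11 (k8 i1725 d447 i960 i560 d1827 d1850 d1026 d1864 (k8 d1904 d431 d54 d12 d366 d362 i597 d1830 (k8 d904 d830 i1598 d1952 d408 d1955 i2467 i1357 (k8 d1663 d142 d72 d1953 d385 i2042 i1990 d389 (k2 i1681 d87 k0)))))) (by decide +kernel)
def d1957 : PP 8 4 T 0x20001000000000000004401000050000000401001480000001009400455000004914540 := rS 0x75220bc4a430cacda2a751b49faa8 (k8 i1093 d374 d442 d375 d359 d1788 i663 i8 (k4 i438 i860 i2753 i967 (k2 i970 d1946 k0))) (by decide +kernel)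
def d1958 : PP 8 4 T 0x4001000000000000004000000000005001401005500000501001000000000004000000 := rS 0x10d12 (k2 d952 d826 (k1 d51 k0)) (by decide +kernel)
def d1959 : PP 8 4 T 0x1000000000000000401000010040000000000284000000009400000000004804400 := rS 0x3f888882f (k4 i2753 i967 i971 i1668 (k1 d1666 k0)) (by decide +kernel)
def d1960 : PP 8 4 T 0x1000000000000000000000000000000040000000000100009400000000004810002 := rS 0x66a1c505a0908ceae518214d83367a8d4e99692bd66fd3b941507203b04126f128bc881948ae62a8f2c8ed2667079e4be374ea7cf66b34954162d65ab608c732b142a358c2352e6364a6da294 (k8 d1950 d1788 d1870 d1942 d586 d684 d997 d461 (k8 d1827 i637 d1850 d1026 d1864 d1904 d12 d54 (k8 d1944 i560 d474 d431 d366 d64 d11 d362 (k8 d1885 i645 d267 i597 d1830 d904 d825 i605 (k8 i1132 d1931 d1884 i1170 i8 i967 i2753 i860 (k8 i968 d1728 d1331 d1252 d1956 i1093 i1094 i839 (k8 d374 i663 i499 d442 d733 d359 d375 i1104 (k8 i1671 i2042 i1604 d1957 d39 d1959 i1571 d1947 (k4 i227 i226 i777 i1969 (k1 i2046 k0)))))))))) (by decide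 +kernel)
def d1961 : PP 8 4 T 0x1001000000000000010540000010000520040000000504511011000000100006010002 := rS 0x2889308b6311108583115a2aca6a50334c5c511facdfaa83633c76933299d2ec51b8ac2a9d1c98686bf4fc611a732080c4a351995c9e42 (k8 i1038 d836 d1829 d982 d1827 i348 i23 i180 (k8 i2756 d997 d461 d11 i1725 d447 i960 d364 (k8 d362 i637 d198 d1885 d1850 d684 d1830 d1026 (k8 d904 d825 i1104 i2042 d1951 d374 i663 d1280 (k8 i496 d1260 d358 i1078 i365 d788 d1845 d1258 (k8 d349 i1248 i728 d625 i1082 d1267 d262 d418 (k2 i250 d386 k0))))))) (by decide +kernel)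
def d1962 : PP 8 4 T 0x1001000000000000008101000011000000000000000055000001000010500006000400 := rS 0x6317 (k2 d385 i2719 (k1 d1812 k0)) (by decide +kernel)
def d1963 : PP 8 4 T 0x400000000001001002000000000010100400010000200040000000504000001000000100006000002 := rS 0x5dd3d7a6c67b045eab54a4c6a6533a753f184682cc345 (k8 d408 i960 i560 d997 d461 d11 d362 d1830 (k8 d1026 d1827 d904 d374 d72 i1077 d1331 d1962 (k4 i2042 i1990 d389 i1681 (k1 d87 k0)))) (by decide +kernel)
def d1964 : PP 8 4 T 0x1000000000000000000000000000000040000000000100009400000000004010002 := rS 0x32b85c3f59aa1fa5137a609e42398602ebfa1a50c22d2a9a596ad35c113e3915b1c6ec54b9e63015319951a351d934bf154db44b2c9 (k8 d1942 i605 d1788 d1870 d1931 i645 i51 d825 (k8 d1827 d997 d1026 d586 i637 d461 d267 d684 (k8 d1850 d1885 d1864 d198 d364 d11 d1904 d366 (k8 d12 d54 d431 d474 d1944 i960 d1950 d447 (k8 i1725 d1960 d427 i2756 i1038 d836 d1961 i1059 (k8 d830 d1963 d450 i663 d1280 d1260 d733 i1078 (k1 i459 k0))))))) (by decide +kernel)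
def d1965 : PP 8 4 T 0x20001000000000000000050000000000000400000000080100009000000054504000000 := rS 0xc3428950ecd721d4ec568b9353a7b (k8 d64 d362 i51 d86 i489 i490 i1588 d1909 (k4 d1107 i1706 d415 i1631 (k2 d470 i2032 k0))) (by decide +kernel)
def d1966 : PP 8 4 T 0x20001000000000000000050000000000000100000000020000009000544000506000000 := rS 0x88b3ce835 (k4 i2729 i1049 i1028 d400 (k1 d620 k0)) (by decide +kernel)
def d1967 : PP 8 4 T 0x1000000000004001002000000000000450001000005000400545000040011001000555014506000000 := rS 0xb789c350c57669d50ace61b904a2b (k8 i387 i348 d468 d470 i2035 i1871 i1067 d1107 (k4 d1806 i2032 d1154 d51 (k2 i856 d357 k0))) (by decide +kernel)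
def d1968 : PP 8 4 T 0x1002000001000040400000000000008400000100040011001000000000556000000 := rS 0x6f501f61b102b8962eb5 (k8 i1369 d480 i349 d1806 d410 d1154 d67 d479 (k2 i1321 i311 k0)) (by decide +kernel)
def d1969 : PP 8 4 T 0x1002000000000040500000000044008010000040054100009005161154556010000 := rS 0x280e8e548ae51e595698552ab4193cbed1359560917 (k8 d480 d354 d474 d366 d1788 i645 d395 d1355 (k8 d72 d374 d396 d360 i605 i1132 d1884 i1170 (k4 d15 d1968 d1363 d1417 k0))) (by decide +kernel)
def d1970 : PP 8 4 T 0x1002000000000000540000000000010140000040004100009020145100406010000 := rS 0x2dc4d00352ab4e082e519fd6b171e87c7e92418768aab58825526127ab573152ca24f25f4ea7cf667158a44e8f32c618a151da45a221 (k8 d1826 d1788 i1170 d716 d225 d1850 d461 d1966 (k8 i1132 i746 i187 i387 d1965 d64 d11 d362 (k8 i645 d267 i2049 i605 d1931 d1884 d360 d395 (k8 d396 d374 d413 d455 d72 d277 i741 d1355 (k8 i2040 d1076 i182 d1361 d480 i1369 i1638 i1633 (k8 d1356 d354 d358 d474 d1969 d1967 d46 i1809 (k1 d418 k0))))))) (by decide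 +kernel)
def d1971 : PP 8 4 T 0x20001001000000000000000000000000014010000000004000009000014400004010008 := rS 0x1ca605234952d15cc54622d (k8 i2723 d1819 d1931 d1884 d1788 i1084 d417 d787 (k2 d450 d60 (k1 d1861 k0))) (by decide +kernel)
def d1972 : PP 8 4 T 0x20001001000000000000000000000000014000000000004000009400110000004010001 := rS 0x1166750e22b43fc3146c13ea843a083781d50a50f985a62e12ae62a37398cc423b48b4512180b88d8ac70a9000405 (k8 d456 d430 i1046 d225 d1864 d1850 i184 i966 (k8 d427 i2049 d1788 i1170 d716 d1826 i192 i2758 (k8 i1005 d1931 d1884 i348 d1971 d358 i2726 i2052 (k8 i366 d450 i455 i2734 i1085 i742 i311 d107 (k8 d1832 i200 d479 d353 i2030 d349 d55 d620 (k2 d391 d385 k0)))))) (by decide +kernel)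
def d1973 : PP 8 4 T 0x20001001000000000000100000000000014000000000004100009400100000004010001 := rS 0x14c831eb043ed35ba843a3f598205c6f03a95514230a8e2ee51a17d73151b8b4e6894f9eccec762854563b0c05d22d1118a44e21200080a8f (k8 i1132 d456 d430 i1046 d1826 i746 i187 i184 (k8 d1788 i1170 i966 d427 d716 i387 d225 d1850 (k8 d1864 d1965 d64 d11 i2049 i2758 i2723 i1005 (k8 d1931 d1884 i645 d1972 d15 d44 i327 d1861 (k8 d391 d450 d421 i455 i2734 i1084 i1085 i663 (k8 d1280 i742 i311 d648 d358 i2052 d1832 i1268 (k2 d901 d199 (k1 d699 k0)))))))) (by decide +kernel)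
def d1974 : PP 8 4 T 0x20001001000000000000100000000000010000000000014100009400100000004010001 := rS 0x243a9f618c10fb4d421d040b8de07541855b0452a8cfeb58ba4a2a7319a24cec762854563b0c05d22d1118a44e21200080a8f (k8 i1132 d456 d430 i1046 d1826 i746 i187 i184 (k8 d1788 i1170 i966 d427 d716 i387 d225 d1850 (k8 d1864 d1965 i2049 i192 i2758 d1931 d1973 d480 (k8 i1369 i1638 i1633 i1364 d354 d12 i1281 d450 (k8 i455 i2734 i1084 i1085 i742 i311 d358 i2052 (k4 d1832 d479 d394 i1589 (k2 i2030 i349 k0))))))) (by decide +kernel)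
def d1975 : PP 8 4 T 0x1000000000000000000000000000010140000000004100009400000000004010000 := rS 0x1863567b922d05653f19231169cc1e9d4f99630c762854463b48b4442400c05c66391b8080205 (k8 d456 d1964 d430 i1005 i195 i192 i966 d427 (k8 i1046 d1826 d1788 i1170 d716 i184 d225 d1850 (k8 d1864 d461 d1966 d11 d362 i2204 i2758 i2723 (k8 d1819 d1942 d1974 d1970 d54 d713 d1836 d385 (k2 d446 d470 (k1 i2035 k0)))))) (by decide +kernel)
def d1976 : PP 8 4 T 0x1000000000000000000000000000400010000040008100009020540140004010000 := rS 0x3f1e8bc3ea14187412d23813cbe9168c542a27 (k8 i746 d225 d1931 d1788 i1170 i645 d420 i488 (k8 d700 i1348 i741 d1355 d463 i1356 d358 d88 (k2 d1076 d1369 k0))) (by decide +kernel)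
def d1977 : PP 8 4 T 0x1000000000000000050000000000000200000000080000009000000055504000000 := rS 0x61a159a87721d8aa7b26a74f05a (k8 i1052 i1051 i3062 i51 i1816 d68 i490 d1909 (k4 i777 i809 i1631 d470 (k1 i2032 k0))) (by decide +kernel)
def d1978 : PP 8 4 T 0x1002000000000000550010000000014200000000004000009400555014506004000 := rS 0x309c8cf82990ce2515a7d3a6b3c1695a61 (k8 d396 d360 i1052 i1051 i3130 i3062 i2732 i387 (k8 i348 d1977 d782 d47 i1029 d1836 i2035 d470 k0)) (by decide +kernel)
def d1979 : PP 8 4 T 0x1002000000000000550010000000014200000000004000009400545014506004000 := rS 0xce65728d15a61 (k4 d396 d360 d1978 d15 (k2 i2729 d1909 (k1 d782 k0))) (by decide +kernel)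
def d1980 : PP 8 4 T 0x1000000000000040000000000000008000000200000000001000000000054000000 := rS 0x86a84f870 (k4 i1590 i1589 d463 d394 (k1 d479 k0)) (by decide +kernel)
def d1981 : PP 8 4 T 0x1002000000000000500000000000010200000040004100009420145100006010000 := rS 0x43b0d0a557215e083533b344a75519962e92698b83e1d0493d7315478841e891488d8ac70a9693e3d1fc4cf027158ed22d1 (k8 d1788 i1170 d716 i387 i746 i1051 d404 d683 (k8 d688 i2732 i1052 d225 d1864 d1850 i184 i187 (k8 i2049 i2204 d1826 i1132 d1931 d1884 d395 d413 (k8 i741 i182 d1356 d358 d1979 d480 i1550 i1633 (k8 d1980 i349 i1973 d1977 d1969 d354 d1806 d468 (k4 d474 i1812 d470 i777 (k1 i2032 k0))))))) (by decide +kernel)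
def d1982 : PP 8 4 T 0x1001001000000000000000000000000440010000000004000009004540400004000008 := rS 0x30261522d (k4 i2723 i1084 d485 d450 (k1 i2728 k0)) (by decide +kernel)
def d1983 : PP 8 4 T 0x1001000000000000000000000000440200000000000100009000100000004010001 := rS 0x8353add421d58020de075407cc22e2fc545263449cc5aaf2d0f46e3f899e04e2b1d90004050c05d22d1 (k8 d1788 i1170 i966 d427 d456 d430 i1046 d716 (k8 i387 i746 i1051 d404 d683 i1005 d688 i1052 (k8 i3103 i2723 i2758 i2049 d1976 i187 d1931 i645 (k8 d1982 i2726 i2052 d450 i455 i2734 i1085 i1090 (k4 i742 i311 i1933 i203 (k2 i1296 d199 k0)))))) (by decide +kernel)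
def d1984 : PP 8 4 T 0x1000000000000000000000000000010040000000000100009400000000004010000 := rS 0x19ec31ac59c893a1c1594fc4e9e13e5a462e62ac9188cc1ec5638552e6315a2476180ba447273169006e020081536d1 (k8 d1788 d1870 d456 d1964 d430 i1005 i1046 i2723 (k8 i2758 i195 i1170 i966 d427 d716 i2049 i387 (k8 d1976 d684 d225 d1864 d1850 i2204 i192 d1819 (k8 d1942 d1931 d1884 d1975 i1052 i2732 i1051 i3062 (k8 d1983 d1981 d54 d98 i1367 d1836 d391 d15 (k2 d470 d385 (k1 i2035 k0))))))) (by decide +kernel)
def d1985 : PP 8 4 T 0x1000000000000000054000000001020150400040000100009005555114056010000 := rS 0x29d42b75e1bd30ce48c5456792fa7e30d1 (k8 d1788 d461 d11 i645 d267 i387 d1931 i1170 (k8 i2035 i1104 i2736 i1105 d1353 i311 i1984 d199 k0)) (by decide +kernel)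
def d1986 : PP 8 4 T 0x1002000000000000450000000000020150000040004100009005555914056010000 := rS 0x132b367af22cbba7b9584a5a19853a975fa7e31454193cbed1 (k8 d1788 i645 d395 d1355 d277 d461 d11 i1725 (k8 d684 i1678 i2727 d447 i365 d1985 d470 d433 (k4 i1945 d468 d87 d385 (k2 i1413 i1990 (k1 d1937 k0))))) (by decide +kernel)
def d1987 : PP 8 4 T 0x1002000000000000400000000000000140000000000100009400000000004010000 := rS 0x3b9fceb0c35945430437a8d4917728d1a62e1e87c7e830eaad62095494c9e5f5cc551e59648c41e271499cc62b448b536613e9cd3ead32c618ec50a88c76916888480180b8cc7237010040a94 (k8 d1984 d456 d1964 d430 i1005 i195 i192 i966 (k8 d427 i1046 d1826 d1788 i1170 d716 i184 d225 (k8 d1850 d1864 d461 d1966 i1557 d11 i2758 i1598 (k8 i2727 d1870 i2723 i2049 i387 d1976 i1674 i187 (k8 i746 i2204 d1819 d1942 i605 i1132 d1931 d1884 (k8 i645 d395 d412 d374 d413 d455 d72 i741 (k8 d1355 d1076 i182 d1361 d1356 d358 d1986 d15 (k8 d44 i1099 i327 i2735 d1836 i2215 d830 d366 (k4 d479 d1363 d353 i1675 (k1 d1628 k0)))))))))) (by decide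 +kernel)
def d1988 : PP 8 4 T 0x1000000000000000400000000000000140000000000100009400000000004010000 := rS 0x6d34b3cd6ae58af424a641a8c7a1f5ba843a3f598205c6f03aa1fa5f8ab244e0b14d0cce614ea5cc62b449cc5a9b3dafd3ead32c618ec50a88c76916888480180b8cc7237010040a94 (k8 d1984 d456 d1964 d430 i1005 i195 i192 i966 (k8 d427 i1046 d1826 d1788 i1170 d716 i184 d225 (k8 d1850 d1864 d461 d1966 i1557 d11 i1725 d64 (k8 d1870 i2723 i2758 i2049 i387 d1976 d684 i1678 (k8 i2727 i1674 d447 i187 i2183 i746 d1942 d1931 (k8 i645 d1987 d450 i455 i2734 i1084 i1085 i663 (k8 d1280 i742 i311 d648 i2052 i1268 i200 d901 (k8 d199 i202 i1985 i1822 i203 i1961 i1105 d305 (k2 i594 i2042 k0))))))))) (by decide +kernel)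
def d1989 : PP 8 4 T 0x1000000000000000000000000000000140000000000100009400000000004010000 := rS 0x618d59ee48b2660aca32a7e30c9188cc420f11b158e154ea512e6315a2476180ba447273169006e020081536d1 (k8 d1788 d1870 d456 d1964 d430 i1005 i1046 i2723 (k8 i2758 i195 i1170 i966 d427 d716 i2049 i387 (k8 d1976 d684 d1984 i1678 d225 d1864 d1850 i184 (k8 i2204 d1826 i192 d1819 d1942 d461 d11 d1966 (k8 d1988 d54 d1042 d713 d1836 i1104 d446 d470 (k1 i2035 k0)))))) (by decide +kernel)
def d1990 : PP 8 4 T 0x1000000000000000054000000005020000502000000000001005555014056000000 := rS 0x29d6ea15e1bd9c2b (k8 i387 i2035 i2736 i1105 i311 i1933 i1984 i2031 k0) (by decide +kernel)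
def d1991 : PP 8 4 T 0x1001002000000000000450000000005020000502000000010001405555914554404000 := rS 0x10d5b95d7855a2b3620b5514114ce5612944a18a1b0626d3 (k8 d358 d404 i1517 d447 d427 i348 i365 d1990 (k8 d470 d715 d1836 d1358 d1189 d410 d1169 d377 (k4 d474 i329 d57 i1988 (k2 d1154 d357 k0)))) (by decide +kernel)
def d1992 : PP 8 4 T 0x1002000000000000550000000005020010102040404100009405545914554414000 := rS 0x1d8fe7586145426f51a90cb171a245731547964561833984faad29aa556832797da2d3 (k8 d358 d1788 i645 d395 d1355 d72 d374 d412 (k8 d360 i1598 i2727 i1674 d427 i387 i605 i1132 (k8 d1931 d1884 i1170 d1991 d44 i2729 i1099 i327 (k8 i2735 i2215 d830 d479 d1363 d353 d1628 i1675 k0)))) (by decide +kernel)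
def d1993 : PP 8 4 T 0x1000000000000000000000000000000040000000000100009400000000004010000 := rS 0x30c6ae482b285c810fa0c3a3f588249e3d35c4df8784f969189d4a25cc6c7628ac4629448ec4e0f1085430331c9cc5a401b8c42e0200814be918aa6da2c9 (k8 d1942 d1788 d1870 d1931 i1170 i645 d456 d1964 (k8 d430 i966 d1819 i1005 i1046 i2723 i2758 i195 (k8 i192 d427 d225 d1826 i2204 i746 d716 i2049 (k8 i187 i184 i387 d1850 d1864 d1976 d684 d1984 (k8 i1678 d1989 i1052 i2732 i1051 d1983 d404 i3130 (k8 d688 d395 d413 d455 d683 i741 d1355 i182 (k8 i1809 d1356 d1992 d54 d1836 d15 d470 d1990 k0))))))) (by decide +kernel)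
def d1994 : PP 8 4 T 0x1000000000000000040000000000000000000800500200001400140000004814002 := rS 0x1b186571904c8267 (k8 d1830 d439 i1844 i712 i1627 i290 d1520 i515 k0) (by decide +kernel)
def d1995 : PP 8 4 T 0x1000000000000010100000000000000040001200550200001000000000004000000 := rS 0xd88767a7e308d (k4 d445 d461 d11 i1067 (k2 i1708 d1418 (k1 i516 k0))) (by decide +kernel)
def d1996 : PP 8 4 T 0x1001201000000000000000010400000014400000554000200001400000001004154140 := rS 0x2c102b4861f59a6b (k8 d366 i1970 d107 d383 d205 d465 d1783 i1847 k0) (by decide +kernel)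
def d1997 : PP 8 4 T 0x1000000000000000000000000000010040000000004000009400000000005010000 := rS 0xce8b1b686ae51a9da4c105ac45a50279c8ea77389bc0eb3543f4d2cb569ac7a090799d270409894f22f3099488001a9042cb98aa3d929d1ca7d8a3763854771846971a205 (k8 d456 d1788 d1993 d445 d461 d363 d1914 d1864 (k8 d1885 d1850 d11 d364 d362 d1942 i1132 d1931 (k8 d1884 d427 d439 i2775 i966 i967 i2641 i2640 (k8 i2753 i972 i860 i1844 d1904 d904 d1830 i597 (k8 d1728 d1889 d366 d12 d54 d431 d782 d450 (k8 i2329 i2293 i2643 d1663 d1994 d1995 d1996 d428 (k8 i1094 d236 i1848 i2312 d1331 d442 d359 d375 (k4 d533 d1648 i2318 d391 (k2 i2042 d385 k0))))))))) (by decide +kernel)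
def d1998 : PP 8 4 T 0x1002000000000000500010000200010010000000014000009000000000504000000 := rS 0x6749b955a61 (k4 d396 d360 d60 i1364 (k2 d1909 d782 k0)) (by decide +kernel)
def d1999 : PP 8 4 T 0x1001002000000000000400000000100000010000000004000001400000500006004400 := rS 0x301a40751ab412ab (k8 d72 d413 d360 d1639 d1252 d417 d1835 d384 k0) (by decide +kernel)
def d2000 : PP 8 4 T 0x1000000000000000000000000110008400050000000000001000015001554000000 := rS 0xc07228d6b17 (k4 d480 i1369 i1633 d468 (k2 i2030 d382 k0)) (by decide +kernel)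
def d2001 : PP 8 4 T 0x1002000000000000500000000110010000050000014000009000015000556010000 := rS 0x51b056b42721d62e66498949ab98aa3d5a61 (k8 d396 d360 i1132 d1931 d1884 i51 i348 d2000 (k8 d782 d86 i1588 d1909 d391 d1148 d382 d469 (k1 i2030 k0))) (by decide +kernel)
def d2002 : PP 8 4 T 0x1002000001000040400000000000008400000000040011001000000000556000000 := rS 0x74 (k2 d1968 d1980 k0) (by decide +kernel)
def d2003 : PP 8 4 T 0x1002000000000000500000000010010010000000014000009400005100556014400 := rS 0x49154cf04728d0fa7f8634c5ca55cc551e595698552ab (k8 d72 d374 d396 d360 i605 i1132 d1931 d1884 (k8 d1998 d1999 d358 d479 d353 d394 d2001 d15 (k4 d1836 d1909 d474 i2040 (k1 d2002 k0)))) (by decide +kernel)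
def d2004 : PP 8 4 T 0x1000000000000000950000000005000000000000014000001400545000004004000 := rS 0x1863567b922d05 (k4 d54 d713 d1836 d385 (k2 d446 d470 (k1 i2035 k0))) (by decide +kernel)
def d2005 : PP 8 4 T 0x1002000000000000000000000000010040000000004000009400000000004010000 := rS 0x1bd40b70f87530af049849e2d4482d66734dc559665118841e40198c404010c10d8e37628540a9f1c8ed3b1846971a2c9 (k8 d1942 d1788 d1993 d445 d461 d362 d363 d364 (k8 d11 d456 d1914 d1850 d1885 d1864 i443 d1997 (k8 i1038 d430 d1819 i192 i1046 i2204 d1826 i184 (k8 d1966 d2004 d1931 d1870 i2758 d1859 i2183 i191 (k8 i2723 d395 d396 d413 d347 d1937 i741 i182 (k4 i1930 d2003 i1060 i311 k0)))))) (by decide +kernel)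
def d2006 : PP 8 4 T 0x1000000000000000000000000000010040000000004000009400010000004010000 := rS 0x490951ec9188cc4223529fcfb0c509bda61f0e81d5061172252e3f138ae26391b854771846a6da2fd8a90004010c10cb805 (k8 d456 d1993 i443 d1997 i1038 d430 i1046 d1931 (k8 d2005 d1788 d1870 d445 d461 d363 d1914 d1885 (k8 d364 d368 i387 i1765 d683 d405 i191 d1982 (k8 i2726 d450 i455 i742 i2052 d358 i2734 i311 (k8 d479 d394 d353 i366 i184 d1826 i192 d1819 (k4 d1942 i1132 i348 d1972 (k1 d2000 k0))))))) (by decide +kernel)
def d2007 : PP 8 4 T 0x1000000000000000000000000000010040000000004000009400000000004010000 := rS 0x36b3d0e74122d4d26ba119e08e51a1f4ff0c51b05421d041bc0ea85287cc2d3173f4ca3f1183c4289199000401158622a9b47965925b8990c4e394fa5d8a3763854771846971a205 (k8 d456 d1788 d1993 d445 d461 d363 d1914 d1864 (k8 d1885 d1850 d405 d11 d364 i1765 i443 d368 (k8 i35 d1942 i605 i1132 d1870 d1931 d1997 i387 (k8 i1038 d430 i1046 i192 i191 d1826 i2204 i184 (k8 d683 d1966 d2005 d1982 d358 i2726 i2052 i366 (k8 d450 i455 i2734 i1085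 i742 i311 d1832 i200 (k8 d479 d353 d394 d2006 d15 d1836 d1909 d475 (k8 d366 d431 d55 i2030 i349 i927 d730 i516 (k1 d1418 k0))))))))) (by decide +kernel)
def d2008 : PP 8 4 T 0x1000000000000000000000000000010040000000000000009400000000004010000 := rS 0x925250d9717820d00ea31799412c360b484689078843033200c416675685c04a1280b402ab3833cc4b98ab26269d1ca7d8a3763854771846971a205 (k8 d456 d1788 d1993 d445 d461 d363 d1914 d1864 (k8 d1885 d1850 d11 d364 d362 d368 d1942 d1931 (k8 d1884 d2007 d602 i488 i2305 d586 i1238 i487 (k8 d463 d430 i966 i2875 d585 i494 d1819 i1046 (k8 i192 d427 d1826 i2204 i2049 i184 d700 d670 (k8 d666 i1348 d1966 d358 d375 d49 i2035 d1774 (k4 d44 d54 d1648 d1835 (k2 d391 i1364 k0)))))))) (by decide +kernel)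
def d2009 : PP 8 4 T 0x1002000000000000000000000000000040000004005200009200000400004050100 := rS 0x44b4d4c2d03a60a2b33982d5eb154c5536391b8f42a3b8c235a205 (k8 d456 d1788 d445 d461 d363 d1914 d1889 d1885 (k8 d364 d1870 d1931 d374 d455 d347 d388 i1093 (k8 d1859 d830 d1937 i479 i980 d533 d359 i282 (k1 d417 k0)))) (by decide +kernel)
def d2010 : PP 8 4 T 0x1001000000000000100000400000020140000014510000009200000200004010002 := rS 0x2bd6345362099f0c4c9ccbf154da752e370a8ec0a675fa7e30d1 (k8 d1788 d461 d11 i1725 d728 d456 d363 d1914 (k8 d1885 d405 d362 d1870 d1931 i645 d236 i980 (k8 d383 i1104 d313 i2042 d457 i1296 i594 d414 k0))) (by decide +kernel)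
def d2011 : PP 8 4 T 0x1000000000000010100000080000020140000000550000001000000000004000000 := rS 0x33cdabd4eafd3f18 (k8 d461 d11 i1725 d362 i1986 i594 i1105 i2042 k0) (by decide +kernel)
def d2012 : PP 8 4 T 0x1000000000000000000000000000000040000000000000009400000000005010000 := rS 0x434e683272c132af53b48162d3881d66a87e9a4d60931c10266f1799488001a9042c5f8aa6d929762b1c2a3b8c234b8d102984ce94 (k8 d2008 d728 i2727 d456 d1788 d1993 d445 d461 (k8 d363 d1914 d1864 d1850 d405 d1942 d1870 d1931 (k8 i645 d427 d439 i2775 i966 i967 i2641 i2753 (k8 i2644 i1844 d1904 d586 d1728 d366 d431 d2009 (k8 d450 i2329 i2293 d1663 d2010 i560 d442 d359 (k8 d2011 d733 d1011 i1848 i1296 d428 d313 d383 k0)))))) (by decide +kernel)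
def d2013 : PP 8 4 T 0x1000000000001001000000000000000150000001005220010000000055000001000551400006000400 := rS 0xc25ea9d9ed2168cd82ad (k8 i1557 i1517 d982 i2715 d231 d1962 d359 i1990 (k2 i2035 d664 k0)) (by decide +kernel)
def d2014 : PP 8 4 T 0x1100000000000000150000000005000000000000050000001400555000004004000 := rS 0x67b0e2ce4 (k4 d1836 d354 d470 d385 (k1 i2035 k0)) (by decide +kernel)
def d2015 : PP 8 4 T 0x1002000000000008500010000000000400050400050050101000000000004000000 := rS 0x1d62e53 (k4 d412 d385 d730 d1628 k0) (by decide +kernel)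
def d2016 : PP 8 4 T 0x1001002000000000010150010000000220450010000055210101400051000056004400 := rS 0x21cd8bd679a4d7043b9fe18d31716d96334f8e4769d8c2a68a8d509bd6eaf (k8 d347 i1930 i1060 i311 d445 d277 d374 d461 (k8 d362 d363 d364 d11 d982 d2004 i35 d2013 (k8 d358 d479 d353 i1675 d2014 d366 d431 d2015 (k4 i1990 i2042 d333 i516 k0)))) (by decide +kernel)
def d2017 : PP 8 4 T 0x1001002000000000010150010400000020440000040055210001420041000006000400 := rS 0xd887679d0ee7f861a4d6d3820ba2ee51a145426f5b87c3a9857824a64f2da24facb078cd3e391da76308d (k8 d445 d461 d362 d363 d364 d11 d982 i2204 (k8 d2004 i1598 i2049 i35 d395 d412 d413 d347 (k8 d1937 i741 i182 i1930 i1060 i311 d830 d2016 (k8 d15 d44 i1098 d1836 d358 d366 d431 d479 (k4 d353 i1675 d1628 d2015 (k2 i1707 d1418 (k1 i516 k0))))))) (by decide +kernel)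
def d2018 : PP 8 4 T 0x1001000000000010150000400040020140000000150000001400055800004004000 := rS 0x19c9961abdc86b52c113a3b1ca7e30d3 (k8 d358 d461 d11 d364 d363 d362 d2014 i365 (k4 d366 d1358 d2011 d470 (k2 d733 i2035 (k1 i1104 k0)))) (by decide +kernel)
def d2019 : PP 8 4 T 0x1000000000000000000000000000000040000000004000009400000000004010000 := rS 0x1d4ac85a79b19e9957b34d7048bb94686958a0618a350874106f0387da6a8173f596b32fae62a9b47965929d4fa5e8667189cc166107a247e2715c4d5a6511b158e212000802431986072370a8ee30d102a34b894 (k8 d2008 d1993 d445 d456 d1788 d461 d363 d1914 (k8 d1885 d364 d2012 d982 i443 i1038 d430 i1046 (k8 d1826 d1864 d1850 i184 d1966 i1557 d368 i387 (k8 i1765 d683 i2049 i2204 i2727 i303 i2758 d1819 (k8 d728 d447 d405 d11 d362 d1942 i605 i1132 (k8 d1870 d1931 d1884 i645 d1859 d2004 d2017 d1982 (k8 d450 d358 i2052 i455 i2734 i1085 i742 i311 (k8 i200 d479 d465 i1847 d305 d2018 d15 d44 (k8 d1836 d366 i1970 d2011 d733 i1104 i2042 d389 (k4 i1604 i515 d667 d1806 k0)))))))))) (by decide +kernel)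
def d2020 : PP 8 4 T 0x1000000000000000000000000000000040000000000000009400000000004010000 := rS 0x2f1a34986cf3108c8031010cc02184a31c6ec50aa7c723b4ec60868d899700ad1 (k8 d1788 d456 d1993 d368 d445 i443 d461 d362 (k8 d363 d364 d11 d1914 d1850 d1885 d1864 d2008 (k8 d2012 i1038 d982 d430 d1819 i1046 i184 d2019 (k4 d602 d666 d700 i2035 (k2 d358 i1098 k0))))) (by decide +kernel)
def d2021 : PP 8 4 T 0x4001000002000000000110000000000000080000000050000009000115000004000000 := rS 0xc3823902a05 (k4 d456 i549 d468 d354 (k2 d470 d1848 k0)) (by decide +kernel)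
def d2022 : PP 8 4 T 0x1002000000000000000000000000010000000000054000009400010000004010000 := rS 0x372d0a0566630dc9056521d0a933ba762cb98a89cb62b62b1de015189cd9233148e4265c3d0841e23200080aad30aa556250c05c028a (k8 d2020 i451 i966 d427 i348 d72 d374 d396 (k8 d360 d456 d430 i1046 i184 i2204 d1826 i492 (k8 i491 i3096 i194 i1889 i192 i1123 i2758 d1819 (k8 i549 d371 d1864 d1850 d451 d441 d1126 d1931 (k8 d1884 d2021 d452 d78 d480 i1895 i817 i2040 (k8 d54 d1836 d470 i2032 i1971 i505 i506 d830 (k1 i1399 k0))))))) (by decide +kernel)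
def d2023 : PP 8 4 T 0x1002000000000000000000000000010000000000014000009400010000004010000 := rS 0x42a1e22752b45ccc4d3689cb62b67b158e15479019233148e4265c01014f4250c05c028a (k8 d2020 i451 i966 d427 i348 i492 d456 d430 (k8 i491 i3096 i194 i1889 i192 i1123 i1046 i2778 (k8 i549 d1864 d1850 i3140 d451 d441 d1126 i2311 (k8 i51 d2022 d86 i489 i1588 d57 i1705 i1896 (k1 d1696 k0))))) (by decide +kernel)
def d2024 : PP 8 4 T 0x1002000000000000000000000000010000000000004000009400010000004010000 := rS 0x391850532094f24d1396c566962b1c2a291c84cb87a0790004050c05c028a (k8 d2020 i451 i966 d427 d456 d430 i1046 i2204 (k8 i492 i491 i3096 i194 i1889 i549 d1864 d1850 (k8 i3097 d451 d441 d1126 i51 i1854 i348 d2023 (k4 d47 d1930 d1836 d470 k0)))) (by decide +kernel)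
def d2025 : PP 8 4 T 0x1002000000000000000000000000010000000000004000009400000000004010000 := rS 0x124556599e08658bb9468d30f8755eb1049849ead5c85472133d1711ec91083c16180b9644640010051405 (k8 d456 d2020 i451 d430 i1046 i184 i867 i966 (k8 d427 i2183 i2204 d1826 i1123 i2778 i491 i492 (k8 i3096 i194 i549 d1884 d360 d395 d396 d413 (k8 d455 d347 i741 i182 d1411 d2024 d15 d44 (k4 i2729 d1836 d1909 d713 (k2 d474 d782 (k1 d2002 k0))))))) (by decide +kernel)
def d2026 : PP 8 4 T 0x1000000000000000000000002000001080008040000200001025000004006000009 := rS 0x835ba9c3e81508752c51040b8de07158a47213 (k8 i3096 i194 i1889 d451 i455 i2734 i1084 i1085 (k8 i496 i578 i742 i311 i1894 i2052 i202 i1931 (k2 i1376 i2031 k0))) (by decide +kernel)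
def d2027 : PP 8 4 T 0x1001000000000000000000000001000000010008000002200009025000114004000400 := rS 0x2843eb717938a22b (k8 d451 d45 i1048 i2726 i1931 i183 i756 d212 k0) (by decide +kernel)
def d2028 : PP 8 4 T 0x1000000000000000000000000000010000000000004000009400000000004010000 := rS 0xfd30aa4e69168a2416180b8a4723d7804c5a40010047eb31396c2a053d1711515 (k8 d1931 d2020 i491 i492 d456 i549 d441 d1126 (k8 i2310 d197 i451 d430 i1046 i2723 i3096 d371 (k8 d23 i194 i1889 i966 d427 i2183 i2049 d1788 (k4 i1170 i2758 d2026 d2027 (k2 d2025 d450 k0))))) (by decide +kernel)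
def d2029 : PP 8 4 T 0x1000000000000000000000000000000080000000008000009000000000004010000 := rS 0x25a4b157985120b148e45b15548f5e0130c05ce640010fd66272d8540a013d17122d1 (k8 d1788 i1170 i491 i492 i451 d456 i549 d441 (k8 d1126 i2310 d197 d430 i1046 i2758 i966 d427 (k8 i3096 d371 d23 d2026 d1931 i2723 i194 i1889 (k8 i2183 i2049 d2027 d1037 i1886 d700 i1348 d1411 k0)))) (by decide +kernel)
def d2030 : PP 8 4 T 0x11001000000000000000000000000800500000000000000000001000100000004000000 := rS 0x12f45 (k2 d377 i1897 (k1 d466 k0)) (by decide +kernel)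
def d2031 : PP 8 4 T 0x1000000000000000000000000000000000000000000000009400000000004010000 := rS 0x2b1960a253f1d1863537295400653a0d362e6987c3ac1a1aac124f4a3f0c6b757ac4c2a92ca2416291e860e62d200c472f01d85c04c7629a42699158fe2627009e42a7a598dcb9192da35140526a45a315 (k8 d1931 d1788 i1170 i51 d456 d2020 i76 d441 (k8 d52 i491 i1774 i2310 i492 i549 i1854 i451 (k8 d1126 d368 d197 d451 i3114 i3096 i3097 d1850 (k8 d1864 d430 i966 d1167 d371 i194 d1819 i1046 (k8 i2723 i2758 d427 d23 i1889 i2183 i2049 i867 (k8 d2026 d2027 i1886 d1037 i1930 d2029 d450 d2028 (k8 d395 d413 d72 d447 i1517 i741 i182 d1411 (k8 d417 i1175 i816 d2030 d533 d1401 d1823 i311 (k8 i1099 d715 i1057 i1058 i348 d1848 d1930 d281 (k1 i1665 k0)))))))))) (by decide +kernel)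
def d2032 : PP 8 4 T 0x20001000000000000000000000000000000100000000000000009000000000004810000 := rS 0x19246 (k2 d2031 d1596 (k1 d1913 k0)) (by decide +kernel)
def d2033 : PP 8 4 T 0x1000000000000000000000000000000040000000000000009010000000004010000 := rS 0x16192792e90830173da7d3b18468ed1e002b80c0a5f48b460a46 (k8 d2031 d81 d1788 i1170 i645 d456 i1046 i1578 (k8 d430 i1133 d825 d997 d461 d362 d11 d64 (k8 d2032 d427 i1038 i443 d267 d1897 d1915 i605 k0))) (by decide +kernel)
def d2034 : PP 8 4 T 0x1002000000000050200010000000000440000000004510001800000014156114008 := rS 0x983c9b9668d501a8d27f659f58542883350ab55188dcac74395cea3436c5e0ac5158ec4a6160ab54a09 (k8 d413 i208 d360 i1533 d396 i2078 d606 i387 (k8 i1536 d81 d61 i671 i1122 i2740 i504 d1853 (k8 d880 d15 i247 i327 d1148 d1014 d1169 d410 (k8 d475 i2032 d67 d98 d100 i1829 i211 i2030 (k4 i1129 i633 i311 d267 (k2 d1937 i1059 k0)))))) (by decide +kernel)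
def d2035 : PP 8 4 T 0x1000000000000000140000000000000140000000000100009000000000004010000 := rS 0x222b9922e91629187615188846e271c8cd1e020c05c52408c1e4bed1 (k8 d1788 i645 d267 d461 d2033 i187 d439 d427 (k8 i180 i2778 i2050 i2051 i746 i1044 d1826 i1042 (k8 d225 d606 d2031 i1536 i1170 d1917 d727 d432 (k2 d1966 i185 k0)))) (by decide +kernel)
def d2036 : PP 8 4 T 0x1002000000000000000000000000010140000000004100009000000000004010000 := rS 0x126cb512f4ca6b531b0d2f1a7b0d8c9fa2c60166719ab4c2a91eac592d3170b62a3b1fa44e6371487c121d27a3cb2250103c3017138842a40232e4bed1 (k8 d1788 i645 d1884 d2031 d2033 d225 d1826 i746 (k8 d439 d427 i2204 i180 i2078 i866 i2778 d395 (k8 i741 d413 i182 i187 i1044 i2758 i1170 d1076 (k8 d606 d1931 i2723 d1356 d358 d2034 d455 d1361 (k8 d374 d396 d360 i2050 i1617 i2183 d461 d277 (k8 d11 d2035 i117 d381 d351 d228 d880 d365 (k4 i147 i1699 i1984 i336 (k2 d1516 i1633 (k1 d1515 k0))))))))) (by decide +kernel)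
def d2037 : PP 8 4 T 0x1002000000000000000000000000010040000000004100009000000000004010000 := rS 0x34d3cdace63b0de06b89a74f09f2d2306ac9698a45c5f48ae62b05628c4422b1db446e27078e4b225338cc8c8f169cc04180b8749e1f1f8242a40 (k8 d2033 d225 d413 d1076 i182 d395 i741 d439 (k8 d427 i180 i2758 i2723 i2778 d2031 i2050 i1617 (k8 i2078 i866 i2051 i2204 i746 i1044 d1788 d606 (k8 i387 d1826 i1042 i1536 d81 d1931 d1884 i1170 (k8 i645 d1356 i187 d358 d2034 i207 d2036 i1052 (k8 i2732 i1051 i1820 d404 i3130 d419 i211 d351 (k4 i2035 i1695 d96 i1833 (k1 d467 k0)))))))) (by decide +kernel)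
def d2038 : PP 8 4 T 0x1001000000000000000000000000000010000080044000000001000000000004000000 := rS 0xe30d (k2 d353 i800 (k1 d383 k0)) (by decide +kernel)
def d2039 : PP 8 4 T 0x1000000000000000201010000110000400040000000000001000000001154000008 := rS 0x7c882d54623729d46917 (k8 d61 i1122 i2740 d15 i247 i327 d1148 d410 (k2 i2030 d67 k0)) (by decide +kernel)
def d2040 : PP 8 4 T 0x9001000000000000000051100000105000000040044000000001020450101054000000 := rS 0x2d54623729f58493678c4423919a843017 (k8 d439 d427 i311 i2050 i2051 d1826 i1042 d385 (k8 d480 i2035 d107 d470 i2057 i329 d1189 i2030 k0)) (by decide +kernel)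
def d2041 : PP 8 4 T 0x1000000000000000041100000100000140040004000000009000000000054010000 := rS 0x44573245e2ac51d8546e271c8cc5a734ea7e30d11ab25428f010943017109017246 (k8 d2031 d1884 d2033 d1826 d439 d427 i2078 i180 (k8 i2778 i311 d2039 i207 d1788 d461 d11 d362 (k8 i2758 i2723 i2050 i2051 i746 i1044 d225 d606 (k4 i1536 d1931 d2040 d727 (k2 d432 d1966 (k1 i185 k0)))))) (by decide +kernel)
def d2042 : PP 8 4 T 0x1002000000000000000000000000010040000000004000009000000000004010000 := rS 0x52f1631fcdebd4c2cd6e8d899703ea50eb055e093093d5b152326c4e2b1d855a273010602e40 (k8 d2033 d439 d427 i180 i2758 d1788 d225 d606 (k8 i387 i746 d1870 d2031 d1931 d360 d395 d396 (k8 d413 d347 i1533 i741 i208 i182 d2037 d368 (k8 d445 i1930 d1859 d1937 i1991 i1060 d2038 d2041 (k2 d351 i2060 (k1 d419 k0)))))) (by decide +kernel)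
def d2043 : PP 8 4 T 0x1001001000000000000200010000000010400000040004000001820000000004000000 := rS 0x7cfea1608754a2e3781d96a8308840243128083017 (k8 d439 d427 i180 i2078 i21 i1038 d1826 i1126 (k8 d450 d1263 i455 i2734 i1084 i209 i742 i1534 (k4 i311 d2038 i2052 d2039 k0))) (by decide +kernel)
def d2044 : PP 8 4 T 0x1000000000000000000000000000010040000000004100009000000000004010000 := rS 0x53add423d0e820de07540fc3e611724e2c814199624123da7cd8f18c3191a294da5c4e2b1d855a201218e466891ab25fa73478083017204557246 (k8 d2031 d1884 d1931 d2033 d439 d427 i180 i2778 (k8 i2758 d2042 d2043 i207 i2049 i2050 i2051 i21 (k8 i1038 d1788 d225 d606 i387 i746 d684 d1870 (k8 i187 d1983 d2035 d461 d351 d880 d11 d64 (k8 d371 d419 i1699 d24 d46 d727 d480 d1971 (k8 i2726 i2052 i404 d450 i455 i2734 i1085 i742 (k4 i1802 i311 d648 i2077 (k1 i2031 k0)))))))) (by decide +kernel)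
def d2045 : PP 8 4 T 0x1001000000000000441000100100050140000004000000009000010000054010200 := rS 0x612899eaa8b2b527435e2e60ac5230ec2a31108dc4e3919a753f18689fce6020c05c8115 (k8 d1931 d2033 d439 d427 i180 i2758 d2038 d1788 (k8 d461 d11 d362 i2050 i2051 i746 i1044 d1826 (k8 i1042 d225 d606 d2031 i1536 d81 d1884 d2041 (k8 d378 i1370 i1291 d391 d436 d385 i1655 i2035 (k1 i2075 k0))))) (by decide +kernel)
def d2046 : PP 8 4 T 0x1000000000000000000000000000010040000000004000009000000000004010000 := rS 0xa5e2c658a0618a160874106f03b2d50a50f985a62e1fa36265c1ab25fa7347a2404391b80456181d89c2e430a9012e9b68ae62a46 (k8 d2031 d1931 d1884 d1788 d1870 d684 d2033 d225 (k8 i21 d439 i746 d606 d427 i387 i1038 i1044 (k8 i2051 i180 i2049 i2778 i2758 d2042 d2043 i207 (k8 d2044 d368 d445 d683 d1982 d358 i2726 i2052 (k8 i366 d450 d1263 i455 i2734 i1085 i742 i1534 (k8 i311 d479 d465 i1847 d2045 d351 i2060 d419 k0)))))) (by decide +kernel)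
def d2047 : PP 8 4 T 0x1000000000000000254000000000001480008000000000001000000015104000008 := rS 0x4288d9a873a8d1382b (k8 d451 i618 i1122 i2740 i1645 i1910 i247 i1896 (k1 i2032 k0)) (by decide +kernel)
def d2048 : PP 8 4 T 0x1000000000000000000000000000010000000000004000009000000000004010000 := rS 0x330af11a7b290e9e42a4cee9d8b0d592b55029d069b1707da61d0493d5ab77e2c55e6133995520b19894523d0c224e62d2023d8639780ec621701084d2cf098ad8e3f8989d3201219e42a7a36acc6e5c8c96d1a8a0293522d15cc558a46 (k8 d2031 i1536 d1931 d1884 d1788 i1170 i51 d456 (k8 d2046 i76 d441 d52 i491 i1774 i2310 i2311 (k8 i492 i549 i1854 i2247 i451 i1939 d1126 d368 (k8 d197 d880 d451 i3096 i3140 i3097 i1530 d430 (k8 i966 i1532 d1167 d371 i194 i210 i2778 i1046 (k8 i2723 i2758 i191 d427 d23 i1889 i2078 i2050 (k8 i2183 d2026 d1930 i1617 d2027 d1037 i1886 d450 (k8 i1930 d360 d395 d413 i741 d1411 i182 d417 (k8 i1175 i816 d2030 d1401 i880 d2047 i207 d727 (k8 d452 d78 d480 i1895 i2035 i817 d1515 d89 (k4 d505 i506 d97 i1971 k0))))))))))) (by decide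 +kernel)
def d2049 : PP 8 4 T 0x1000000000000000000000000000010000000000000000009000000000004010000 := rS 0x8b2943e09518bd121d690cd82182019d5a310b80842a1459405a01219bd92ab3813cc40526ae60a46 (k8 d2031 d81 d1884 i51 d456 d2048 d420 i488 (k8 i2305 d589 i1320 i2245 d586 i1238 i487 d2029 (k8 d463 i1530 d430 i966 i1532 i2875 d585 d2033 (k8 d427 i1533 i193 d700 i741 i2049 d358 d375 (k4 i1348 i1356 i208 d138 (k1 d678 k0)))))) (by decide +kernel)
def d2050 : PP 8 4 T 0x1002000000000000000000000000000140000000004100009000000000004010000 := rS 0x2997ef14fb1a8b1864aa47ab1698b85a940fc54763f0485522d1398089e37138602e40 (k8 d2033 d439 d427 i746 i1044 d395 i180 i2758 (k8 d1788 i1170 d225 d413 d1076 d606 d1931 i182 (k8 d2049 i2715 d1356 d358 d455 d1361 d374 i1100 (k8 d461 d277 d2035 d11 d351 i1725 d365 i337 k0)))) (by decide +kernel)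
def d2051 : PP 8 4 T 0x1002000000000000000000000000000040000000004100009000000000004010000 := rS 0xc761bc0d713409e13e5a4620c525f628c4422b1d8dc4e331c8602e9d4bb443a4f0f8fc123d58854803564aa52846 (k8 d2031 d2049 d374 i1100 i207 d2033 d225 d455 (k8 d1361 d413 d1076 i182 d395 i741 d1788 d684 (k8 i1678 d439 d427 i2051 d982 i746 i1044 d606 (k8 i387 d1826 i1042 i1536 i645 i187 d1355 d2050 (k8 i1052 i2732 i1051 i1809 d404 i3130 d419 i211 (k2 d351 d1990 k0)))))) (by decide +kernel)
def d2052 : PP 8 4 T 0x20001000000000000000050000000000000100000000020000009020444000004000000 := rS 0x4457108e43017 (k4 d439 d427 i2051 d1826 (k2 d432 d1966 (k1 i185 k0))) (by decide +kernel)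
def d2053 : PP 8 4 T 0x1000000000000001000000000000000140000000100200140000000000000009000000000004010000 := rS 0x5dd3d7ac267c58ca6d62d0c7615188846e27198e43017200d48cbf4fc61a294 (k8 d2049 d1788 d461 d11 i1725 d2031 i207 d2033 (k8 d439 d427 i2051 d982 i746 i1044 d1826 i1042 (k8 d225 d606 d447 i1536 i1695 d2052 d727 d385 (k4 d631 i1990 d433 i1945 (k1 d87 k0))))) (by decide +kernel)
def d2054 : PP 8 4 T 0x1002000000000000000000000000000040000000004000009000000000004010000 := rS 0x14bc58c98a2acd1b132e295920954c548c614a26c4e2b1d855a273010602e40 (k8 d2033 d439 d427 i180 i2758 d1788 d225 d606 (k8 i387 i746 d1870 d2049 i2727 d2031 d1931 d374 (k8 d413 i1100 i208 d2051 d368 d445 d1859 d277 (k4 d1937 d2053 d351 i2060 (k1 d419 k0))))) (by decide +kernel)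
def d2055 : PP 8 4 T 0x1000000000000000000000000000000040000000004100009000000000004010000 := rS 0x63299068d1497d229b158b512734bacd923f1b89c723b688547a085bc31a61d03804861f17284dea87e9852915010602e40 (k8 d2033 d439 d427 i180 d1931 d2049 i2727 d2054 (k8 d450 i2734 i311 i1084 i2052 i21 i1038 i455 (k8 i742 d358 d479 d352 i1085 i1268 d225 d1788 (k8 d606 i2051 i746 i1044 d1280 d987 i663 d684 (k8 i2758 i2049 i2715 i387 d1870 i1170 i645 i187 (k4 d1983 d901 d199 d2035 (k1 i2077 k0))))))) (by decide +kernel)
def d2056 : PP 8 4 T 0x1000000000000000040000000000000040000000004000009000000000004010000 := rS 0xc25133d551656994db0562d0c7615188846e27198e596081ab2550fd30c5404180b90128468c234b8d1 (k8 d1788 d2055 d445 d461 d2031 d2049 d2033 d439 (k8 d427 i180 d1931 i2727 d2054 d450 d987 i207 (k8 i1085 d1263 i2051 d982 i746 i1044 d1826 i1042 (k8 d225 d606 d447 i1536 d81 i1695 d2052 i1557 (k4 d727 d436 d385 i1655 (k2 d631 i2075 k0)))))) (by decide +kernel)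
def d2057 : PP 8 4 T 0x1000000000000000000000000000000040000000004000009000000000004010000 := rS 0x2978b1a265c138ac30171d85480d1 (k8 d1788 d2033 d225 d606 d439 d427 i387 i746 (k4 d2055 d368 d2056 d351 (k2 i2060 d419 k0))) (by decide +kernel)
def d2058 : PP 8 4 T 0x1000000000000000000000000000000040000000000000009000000000004010000 := rS 0x6c43b197b454c25d3e778c0fd4a2f8b07d428d0e824b8d256940dec93833cb64f311cd12021c8b46e2b0c0ec4e210b854809b26b462b052324cce94 (k8 d2049 d728 i83 d2031 d81 d1931 d1788 i51 (k8 d1870 d2033 d225 d439 d1826 i746 d606 d427 (k8 i387 i1044 i2715 i2051 i180 i2049 i2758 d2057 (k8 d420 d147 d602 i488 d589 i1320 i487 i1352 (k8 d700 d1976 i1348 i741 i1052 d463 i1356 d138 (k8 d358 i208 d1076 d461 d78 d11 d405 d485 (k4 d408 i1990 d2053 d333 (k2 d880 i516 k0)))))))) (by decide +kernel)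
def d2059 : PP 8 4 T 0x1000000000000000000000000000000000000000000000009000000000004010000 := rS 0xdc813f9554e836626e234f1721d3c8569874ee9d0493d6f161abf15e652cb2552253e8a4303305a24e62d2030c723b1e8c42e02109a4262b638fc4f1367ac532630090cf2153d1b566372e464b68d4519cc28f4a3148d1548b440a4d (k8 i51 d456 d1788 i1170 d1931 d2031 i1536 d2049 (k8 i2763 i2727 d728 d2058 i76 d441 d52 i491 (k8 i1774 i2310 i2311 i492 i549 i1854 i2247 i451 (k8 d2029 i1939 i1886 i1979 d368 i1765 d197 d880 (k8 d451 i3096 i3097 i1530 d430 i966 i1532 d1361 (k8 d1167 i194 i210 i1046 i2723 i2758 i191 i303 (k8 i193 d427 i1889 i1598 i2078 d2026 d2047 i866 (k8 d1930 d1037 d450 i207 d727 i1930 d395 d413 (k8 d452 d78 i741 d1411 i1895 i2035 i817 d417 (k8 d89 d505 i1175 d97 i816 d2030 i769 i848 (k2 i1975 d1852 (k1 i1058 k0)))))))))))) (by decide +kernel)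
def d2060 : PP 8 4 T 0x2001002000000000000001000000100010040000000804000009080005000404000004 := rS 0xb951af83cb228225325f4da5da28d0824c6a2d3086162af17aa40005 (k8 d456 d430 d374 i1077 d347 d455 d1072 i2711 (k8 d1240 d1827 d904 d2059 i1760 d1454 d684 d1870 (k8 i2281 d449 d83 d1286 d701 i440 i634 i240 (k2 i1457 i2033 k0)))) (by decide +kernel)
def d2061 : PP 8 4 T 0x1002000000000000001000000100010040000000804100009080005000404000004 := rS 0x1671558a5da2792fa34202d308600005 (k8 d456 d430 d1072 i2711 d1240 d2059 i1760 i2281 (k4 d267 d1454 d684 d455 (k2 d2060 d827 (k1 d1301 k0)))) (by decide +kernel)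
def d2062 : PP 8 4 T 0x2001001000000000000001000000100010040501000804000009090005000404000000 := rS 0x5f2e164a358abc3c5044a65522f48a6d2e8d3d96da210498d45a610c0000605 (k8 d456 i1046 d430 d1072 i2711 d1240 d1827 d904 (k8 d2059 d1454 i1758 d647 i1760 d684 d1870 i1170 (k8 d423 d425 d449 d83 d1324 i440 i2250 i1316 (k4 i240 d701 i2033 i634 (k1 i1457 k0))))) (by decide +kernel)
def d2063 : PP 8 4 T 0x400000000000001001000000000000000001040000100450010000000004000001000545400006020002 := rS 0x3e4cafe863d53ae1a40751a4c6a2d (k8 d1240 d1827 d904 d1639 d1252 d417 i2033 i1913 (k4 d88 d99 i1457 i1144 (k2 i2034 d219 k0))) (by decide +kernel)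
def d2064 : PP 8 4 T 0x1001000000000000000200001002000000000000100000000009400000800006004502 := rS 0x156ad5cb4e2e59 (k4 i606 d61 d358 i2779 (k2 d1517 i584 (k1 d1668 k0))) (by decide +kernel)
def d2065 : PP 8 4 T 0x400000000000001001001000000000000200040000000010040000100004000009480044000004000102 := rS 0x291bda48803a845e394d8ec2a97688404a0b18b0442a57203c46b53ec40b3052a95c9e2d541843005 (k8 d456 d1072 i2711 d450 d1240 d836 d1829 i704 (k8 d370 i606 d438 d67 d349 d401 i2404 d1836 (k8 d60 d25 d382 i983 i2382 d1828 d2059 d1454 (k8 d684 i136 d606 d1870 i1873 d2064 i310 d1252 (k4 d2063 d442 d95 d1469 (k1 i567 k0)))))) (by decide +kernel)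
def d2066 : PP 8 4 T 0x1000000000000000240000000000010040000000004100009410000000004000000 := rS 0x10d29878de8817821765165aa09f157e88e20593a9aa9ece62a958237308b5c83119954300f2ba050617211e6244536b0cbe394d8ec2a972d8d400054ea7e308d01b442105 (k8 d370 d2059 d1454 i1046 i1760 d461 d11 d362 (k8 d456 d430 d1827 i1758 d684 i136 d606 d1870 (k8 i1873 i2281 d1838 d1847 i483 d418 d267 d434 (k8 i967 d24 d46 d1829 i2404 d1072 i704 d1895 (k8 i983 d1836 d1240 i2711 i1043 d382 d60 d75 (k8 i2035 d96 d1797 i1067 i606 d438 d401 d2061 (k8 d2062 d836 d450 d1263 i2248 i1947 d2065 i198 (k4 d2063 d95 i230 i567 (k2 d476 d399 k0))))))))) (by decide +kernel)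
def d2067 : PP 8 4 T 0x1002000000000000240000000000010040000000004000009410000000004800000 := rS 0x42b3d9a8f118c0ae0e52d097207608b62a98439e566262c9dcea440a9b586913d96d269d4fc611ad182c5cb8ad30825560b17aa4000302a9d5e10 (k8 d2059 d347 i1912 d456 i1046 d430 d374 i1077 (k8 d388 d72 d413 d396 d360 d2066 d61 d370 (k8 d1454 i1760 d461 d11 d362 d904 i1758 d647 (k8 i1170 d1838 d1847 i136 i967 i2646 d1833 i2406 (k8 i484 i2299 d284 i738 d1937 d449 i981 d1331 (k8 d1252 d1860 d391 d421 d1586 i2319 i598 i245 (k4 i1133 i1971 i989 i1772 (k1 i2046 k0)))))))) (by decide +kernel)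
def d2068 : PP 8 4 T 0x1002000000000000240000000000010040000000004000009410000000004000000 := rS 0x2e40ea560c55c8b34c03c5a42188602e2f05aad5eb104aa4c2ad36a5da28d0824c000302c162e5c (k8 d2066 d61 d370 d456 i1046 d430 d904 d2059 (k8 i1760 d1454 d684 d1847 d360 d396 d374 d413 (k8 d455 d347 d72 d388 i1077 d2067 d427 i2717 (k8 i1038 d1240 i598 d908 i2255 d1836 d449 d382 (k4 d60 d1252 d1860 d1586 k0))))) (by decide +kernel)
def d2069 : PP 8 4 T 0x4001000000000000000800000080005100005005500000000009000000000004000000 := rS 0x23d9e575d245a210 (k8 d2059 d1454 i1170 i626 i2324 i1950 i1133 d826 k0) (by decide +kernel)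
def d2070 : PP 8 4 T 0x4001000000000000000401000084100541000105554000200001600000008004004500 := rS 0x5b14506ac0ea8da407 (k8 i2295 d1892 d375 d42 d1835 i735 d891 i2045 (k1 i1931 k0)) (by decide +kernel)
def d2071 : PP 8 4 T 0x1000000000000000000000000000541000105054000200001050000008004000200 := rS 0x5ba0ca21d (k4 i1262 i1310 i735 i1931 (k1 i2045 k0)) (by decide +kernel)
def d2072 : PP 8 4 T 0x4001100000000000000000000084005540004105554000200009600000000004004500 := rS 0x21594c552b9122d11304182d2 (k8 d1892 d384 d2059 i484 d1454 i1170 d1836 d60 (k4 d75 d2070 i1771 d2069 k0)) (by decide +kernel)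
def d2073 : PP 8 4 T 0x4001000000000000000000000000005000004005500000010009000000008004008002 := rS 0x10acf4788c605761a45a210 (k8 d2059 d1454 i1170 d1838 i2319 i598 i245 i1133 (k2 i989 i1772 (k1 d826 k0))) (by decide +kernel)
def d2074 : PP 8 4 T 0x2001001000000000000200000000000000044000000004200009450000000004800000 := rS 0x49bc5a8103ab9560b39a64e2a948a6d2e6129acd620f3c8544c59221de0a758ba7d3b18469ecb6d1080000605 (k8 d456 i1046 d430 d2059 d1454 i1758 d647 i1760 (k8 d461 d362 d11 d61 i2646 d370 d1833 i967 (k8 i2406 i484 i136 d284 d2073 i3043 i2299 i2385 (k8 i2640 d684 d1870 i1170 d425 d361 d449 d477 (k8 i559 i583 d701 i2295 i1862 d268 i968 d2071 (k1 d2072 k0)))))) (by decide +kernel)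
def d2075 : PP 8 4 T 0x1001000000000000000000000000000540000005014000000009000000208004000002 := rS 0x8141adc3e3f39a45a210 (k8 d2059 d1454 i1170 d236 i1423 i1303 d648 i736 (k2 i1770 i2045 k0)) (by decide +kernel)
def d2076 : PP 8 4 T 0x1001001000000000000600000000000540000004514000000009600000000004004142 := rS 0x8620ce61d51b48162d68898f21508305c905 (k8 d370 d1836 d382 d2059 i136 d284 i484 d1454 (k8 d2075 i560 d442 d375 d42 d1599 i735 d383 (k1 d313 k0))) (by decide +kernel)
def d2077 : PP 8 4 T 0x1001000000000000000401000000140214000000554800010009400000000004004540 := rS 0x11c575aab172ab5daf4fb0c (k8 d383 d107 i1991 i1947 i586 i1144 d1835 i1288 (k2 d326 d205 (k1 i1133 k0))) (by decide +kernel)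
def d2078 : PP 8 4 T 0x1000000000000000240000000000010040000000004000009410000000005000000 := rS 0x19e8f669ace6a36902d5c3d4c1c4de0765825511542b154ac17203d0e7959898b2773a8bcc244218582a6d48a6d2e7b2da4c00054ea7e308d01b44d21082c5cb8fd (k8 d2068 d2066 d61 d370 d2059 i1764 d1454 i1046 (k8 i1760 d461 d11 d362 d456 d430 d904 i1758 (k8 d647 d684 d1870 i1170 d1847 i136 d427 i438 (k8 i967 i2640 i2753 i2646 d1833 i2406 i484 i2299 (k8 d284 i738 d2073 d1836 d382 d60 d75 i1771 (k8 d2074 d450 d1728 d1263 i2293 i2643 d1663 d2076 (k8 i1786 d733 i563 d1892 d375 d1599 d2077 i1970 (k2 d981 d1797 (k1 i2046 k0))))))))) (by decide +kernel)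
def d2079 : PP 8 4 T 0x2001000000000000008201000100100054140000000005200001080015100004000400 := rS 0x2e5474265aed5cad44a65522f (k8 d423 d425 d449 d83 d1488 d908 i1950 i626 (k4 d973 d469 d99 i2033 k0)) (by decide +kernel)
def d2080 : PP 8 4 T 0x1000000000000000240000000000010040000000004000009410000000004000000 := rS 0x10d29878de88538f45e081fadd765165aa09f153a9aa9ece62a9582b11bb35c8281982cae0f229845a42158c42e187e9720a1336b0c729b1d8552e7b2da4c6a0002a753f184680da210 (k8 d2059 d1454 i1046 i1760 d461 d11 d362 d456 (k8 d430 d1827 d904 i1758 d647 d684 i136 d606 (k8 d1870 i1873 d1838 d1847 i27 d370 d2066 d2068 (k8 d2078 i8 i2717 i387 i1038 d1240 i2711 i478 (k8 i598 d1829 i2382 d1895 i444 d1836 i1971 i1838 (k8 i3068 d382 d60 d75 i2035 d96 d1797 i1068 (k8 d2079 d836 d450 d1263 i2248 i1947 i1931 d1329 (k8 d2065 i198 i1267 i202 d2063 d1332 i230 i567 (k2 d476 d399 k0))))))))) (by decide +kernel)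
def d2081 : PP 8 4 T 0x1000000000000000100000000000000040000000000100009410000000004000000 := rS 0xeb1766338d7040c15c8479229b4be913d96cca67000153a9f8c23406d1348411e59 (k8 i605 i1132 d2059 i1764 d1454 i1046 i1760 d461 (k8 d11 d362 d456 d430 d1830 d1026 i1758 d647 (k8 i1170 i2281 d1847 i483 d267 d434 d1829 d1072 (k4 d1915 d366 i2042 d776 (k2 d385 d730 (k1 d1107 k0)))))) (by decide +kernel)
def d2082 : PP 8 4 T 0x1100000000000000101000000040010010000000000000001400000500004000002 := rS 0xb88b194ce0f (k4 i597 d1830 d1026 d354 (k2 d1774 d43 k0)) (by decide +kernel)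
def d2083 : PP 8 4 T 0x2001000000000000000100000000000010040000000004000009410000000005000000 := rS 0x2e17cbb2bd3e86ce65ab4d704282f56c830eb0546d2049bc5a8103d155cfd059cd129938aa4da914da5cf65b49994ce9d4fc611ad134a3cb20f219845e53599e42a0001815622622058205c (k8 d2081 d2059 d427 i967 i484 i3043 d456 i1046 (k8 d430 i136 d284 i2299 i2385 i2753 i2640 i438 (k8 i597 i605 i1132 i1764 d1454 i1760 d461 d11 (k8 d362 d1830 d1026 d904 i1758 d647 d684 d1870 (k8 i1170 d1847 d425 d361 d449 d83 d477 i559 (k8 d1937 d701 d91 i2295 i1862 d268 i968 d2071 (k8 d442 d375 d384 d42 i735 i2045 i3146 i1931 (k8 d2082 d366 d12 d54 i2042 d1648 d96 d587 (k4 i1950 d87 d1925 i1457 k0))))))))) (by decide +kernel)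
def d2084 : PP 8 4 T 0x1001102000000000000100000000000010044000000004000009410000000004800000 := rS 0x662d57f43429d4d4ca628c59eb972458da913d96d266533a753f1834a3c1e263c854000556aa68abd4c18566444680da210 (k8 d2059 d1454 i1046 i1760 i967 i2299 i2640 d1937 (k8 i1991 d277 d374 d360 d456 d430 i136 d284 (k8 i484 i597 i1132 i1764 d461 d11 d362 d1830 (k8 d1026 d904 i1758 d647 i1170 d1847 d354 d1836 (k8 d1860 d385 d39 d75 d782 i2042 i970 i1771 (k4 d98 i1453 d325 d1306 (k1 d332 k0))))))) (by decide +kernel)
def d2085 : PP 8 4 T 0x1001002000000000000100000000000010044000000004000009410000000004800000 := rS 0x2d4aeb867155966b821f4fe51379cd30ab5493d5a6d2da4cca674ea7e308d689a51e593094c000302acc8810 (k8 d2059 i967 i2299 d456 i1046 d430 i2385 i2640 (k8 i605 i1132 i1764 d1454 i1760 d461 d11 d362 (k8 d1830 d1026 d904 i1758 d1847 d360 d395 d374 (k8 d72 d1937 i1093 i2645 d830 d2038 d107 d2084 (k8 d366 d54 d474 i2042 d782 d587 d279 i2037 k0))))) (by decide +kernel)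
def d2086 : PP 8 4 T 0x1000000000000000000011008000014400000514800008409000000000004000000 := rS 0x3f9ccfa51 (k4 i2315 i1596 i1094 i1666 (k1 i2044 k0)) (by decide +kernel)
def d2087 : PP 8 4 T 0x1001000000000000000000000000400440000005014000000009000000208004000002 := rS 0x99 (k2 i981 d2075 k0) (by decide +kernel)
def d2088 : PP 8 4 T 0x1001100000000000000501010000040010044000014000000009410000000004800540 := rS 0x55ab4accc5aa14ea6a62a9462cf3bb922c6d489ecb6933299d3a9f8c235a2694783cb853131e48815080000605 (k8 d456 i1046 d430 d2059 i136 i967 d284 i484 (k8 i2385 d2081 i597 i1132 i1764 d1454 i1760 d461 (k8 d11 d362 d1830 d1026 d904 i1758 d647 i1170 (k8 d1847 d354 d1836 d1833 d385 d39 d60 d75 (k8 i2042 i970 i1771 d325 d1306 i1971 d326 d2086 (k1 d1835 k0)))))) (by decide +kernel)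
def d2089 : PP 8 4 T 0x1000000000000000040000000000010040000000004000009410000000005000000 := rS 0x22f43672b4d70451b49820b169c4de075cb2d50fd04c554e873c8985e61220582a6d4da5cf65b49994ce9d4fc611ad1348401e0001814b8c9 (k8 d2080 d2081 d456 i1046 d430 i597 d2059 i1764 (k8 d1454 i1760 d461 d11 d362 d1830 d1026 d904 (k8 i1758 d647 d684 d1870 d1847 i136 d427 i967 (k8 i2640 i2753 i484 d284 i738 i3099 d2083 d1728 (k8 d2085 d450 d1263 i1139 i2293 i2643 d1663 d2087 (k8 i560 d1331 d442 d375 d2088 d366 d12 i2042 (k2 d1648 d385 (k1 d391 k0)))))))) (by decide +kernel)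
def d2090 : PP 8 4 T 0x1100000000000000140000000000000040000000000000009480041000004400004 := rS 0x18a33720e476151a994ce9d4fc611ad10803c0005 (k8 d456 d430 i597 d2059 d1454 i1760 d461 d11 (k8 d362 d1830 d1026 d1827 i136 d606 i1873 d1836 (k2 d1895 d75 (k1 d2014 k0)))) (by decide +kernel)
def d2091 : PP 8 4 T 0x2001000000000000000140000000000000040000000004000009410000000006000000 := rS 0x1d62eb46732cd70418ab49eab048194c3f1e9455cfd50a253271548bc266d488e536973d96d266533a753f18469a51e5907c4c563b688545a612282caab36695c6e17588a0840001814b810 (k8 d2059 d2081 d456 i1046 d430 i1038 i444 i3068 (k8 i8 i1838 d1829 i1971 i2255 i704 i2382 i478 (k8 i2711 d1240 i136 d1454 d606 i387 d368 i597 (k8 i605 i1132 i1764 i1760 d461 d11 d362 d1830 (k8 d1026 d904 i1758 d647 d684 d1870 i1873 i1170 (k8 d1847 i27 d423 d425 d361 d449 d83 i310 (k8 d1937 d908 i2250 i1782 d1329 i2034 i1913 i202 (k8 d1845 i1222 i1226 d1211 d2090 d366 d54 i2042 (k4 d1116 d385 i1068 d1114 k0))))))))) (by decide +kernel)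
def d2092 : PP 8 4 T 0x1001002000000000000100000400000010140000000104000001000000000006020402 := rS 0x2fe86bba7b28d4b967b057a2f4c5155ea9569b526353299d3a9f8c3445a61 (k8 i2711 d1240 d1454 d461 d11 d362 d1830 d1026 (k8 d1827 d904 d1847 d360 d374 d347 d277 d1937 (k8 i1077 i1991 d1331 d1962 i1143 i2042 d782 d429 (k4 i1946 d98 i1453 d87 k0)))) (by decide +kernel)
def d2093 : PP 8 4 T 0x1100000000000000140000000000000040000000000000009480040000004400004 := rS 0x307203c0005 (k4 d456 d430 i597 d1836 (k2 d2090 d39 k0)) (by decide +kernel)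
def d2094 : PP 8 4 T 0x1000000000000000040000000000010040000000004000009410000000004000000 := rS 0x14e3d179b8105255ad684758bb395a6b820fd6e515cb2d50fd27c55623766acc50550595c8a73308b4842b0b860b80f2ca3d9213368e5363b0a9ecb6933299c00054ea7e308d01b44d210 (k8 d2059 i1764 d1454 i1046 i1760 d461 d11 d362 (k8 d456 d430 d1830 d1026 d904 i1758 d647 i136 (k8 d606 d1870 i1873 d1847 i27 d2080 i1132 i605 (k8 i597 d2081 d2089 i8 i387 i1038 d1240 i2711 (k8 i2756 i478 d1829 i2382 i704 i444 i2255 i1971 (k8 i1838 i3068 d2091 d836 d2092 d450 d1263 i1139 (k8 i2248 i1931 d1329 d2093 d366 d12 i2042 d385 (k8 i1068 d391 d1148 d458 d1258 d1668 i567 i198 (k2 i1267 i202 (k1 d1332 k0)))))))))) (by decide +kernel)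
def d2095 : PP 8 4 T 0x2001000000000000000200000000000000044000000004000009450000000004800000 := rS 0x1f89968a3406612e2cc8810 (k8 d2059 i967 i2299 i483 i2640 i1046 i1760 d1454 (k2 d449 d2074 (k1 d1937 k0))) (by decide +kernel)
def d2096 : PP 8 4 T 0x1001002000000000000200000400400010040000000005000009400000400004004104 := rS 0x16819729805aad52ad36b451a10498000b1760a95c905 (k8 d370 d1836 d60 d382 d61 d456 d430 d904 (k8 d2059 i1760 d1454 d1847 d360 d374 d72 d388 (k4 d1937 d1860 d1586 i981 (k1 d1252 k0)))) (by decide +kernel)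
def d2097 : PP 8 4 T 0x1000000000000000200000000000010040000000004000009410000000005000000 := rS 0x39a8c16b916a60e2bb3781d96a87e8262a87539e566262e164ee751798488430b26d2e7b2db452600018162e6a369a69ec110a95c90507b182a10 (k8 d2059 i136 d2094 i408 d370 d1836 d60 d25 (k8 d382 d381 i1764 d1847 d467 d61 d456 i1046 (k8 d430 d904 d1454 i1758 d647 d684 d1870 d427 (k8 i438 i967 i2640 i2753 i2646 d1833 i2406 i483 (k8 i484 i2299 d284 i3099 i737 d2095 d1728 d2096 (k8 d450 d1263 i2293 i2643 i1947 d1663 d2076 d2087 (k4 i1144 i560 d599 d1599 (k1 d2077 k0)))))))) (by decide +kernel)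
def d2098 : PP 8 4 T 0x2001002000000000000001000000100414140000000805000001000015100004020000 := rS 0x2e546be1f2ed64af688bd3289 (k8 d83 d449 d423 d1454 d347 d1937 i1946 i474 (k4 i634 i407 i1457 i2033 k0)) (by decide +kernel)
def d2099 : PP 8 4 T 0x6001000000000000000001000000100010040000000804100009010005000006000000 := rS 0xb83a28d4ed33bc456a1d0f01844507e94d12a917bc5229b4b9eda293169851e352285cae293ca3506420000c0a818917cb610 (k8 d2059 i1758 i2281 d418 d46 d456 i1046 d430 (k8 i1038 d1202 i1760 d267 i1835 d1829 i8 i478 (k8 d1827 i1130 i2711 d1240 d904 d1454 d647 d684 (k8 d1870 i1170 d393 d423 d425 d83 i566 d2098 (k8 d1324 d2062 i439 i440 i1230 i1398 d401 i1625 (k4 d49 i242 d789 d422 (k2 i2033 i1066 k0))))))) (by decide +kernel)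
def d2100 : PP 8 4 T 0x1001000000000000000000000000000020000000000000149000000000006000000 := rS 0x8694c3c6f (k4 d95 i230 i567 d476 (k1 d399 k0)) (by decide +kernel)
def d2101 : PP 8 4 T 0x4001000000000000000081000000100010040000000804100009010004000006000000 := rS 0x5328d5d42031bd722e44aeca2cb543f566b127c546e792f8e5363b0aa5d274f18a7e308d68840842d308000605 (k8 d456 i1046 d430 i2711 d1240 i1038 d2059 d1454 (k8 i1760 d461 d11 i1691 d381 d904 d684 i136 (k8 d606 d1870 i1873 i2281 d267 i1043 d2099 d836 (k8 d828 d827 d1301 d450 d1263 i2248 i1947 d2100 (k8 d2063 i2779 i2733 i1078 d391 d831 d469 i460 (k1 i336 k0)))))) (by decide +kernel)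
def d2102 : PP 8 4 T 0x1000000000000000200000000000010040000000004000009410000000004000000 := rS 0x44044591417066552ba14842b0b8614ac1353922f05368eda20001814d34f07b182a10 (k8 d2059 i136 d2094 i408 d381 i1764 d456 i1046 (k8 d430 d1454 d606 d1847 d370 d61 d1836 d467 (k8 d382 d60 d2097 i8 i387 i1038 i1602 d1829 (k8 i704 d1895 d2101 i444 i610 i258 d438 d401 k0)))) (by decide +kernel)
def d2103 : PP 8 4 T 0x1002000000000000000000000000010040000000004000009410000000005000000 := rS 0x6541146e503b054a7f100b47abd379cd0c9805aad52ad68a341ec60a9845e098a800060559a9c4c440b040b8c9 (k8 d2102 d2081 d2059 d427 i967 i484 i3099 i2299 (k8 d456 i1046 d430 d2083 d1728 i2753 i2640 i136 (k8 d2094 i408 i1760 d1454 d360 d374 d72 d388 (k8 d1937 d2085 i1093 i2645 i1991 i1786 i981 i737 (k8 d2038 i415 i1694 d1252 d25 i1649 d1836 d1835 (k1 d54 k0)))))) (by decide +kernel)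
def d2104 : PP 8 4 T 0x1001100000000000000501010000040010040000014000000009410000000004804540 := rS 0x4286720988810 (k4 d2059 i967 i484 d1836 (k2 d2088 d25 (k1 i737 k0))) (by decide +kernel)
def d2105 : PP 8 4 T 0x1000000000000000000000000000010040000000004000009410000000005000000 := rS 0x22f43672b4d70451b49820b169c4de075cb2d50fd539e44c091798489150b1b536973d96d2665338000a9d4fc611a03689a41ec60a840b8c9 (k8 d2102 d2081 d2059 i136 d2094 i408 i1764 d1454 (k8 i1046 i1760 d461 d11 d362 d456 d430 d1830 (k8 d1026 d904 i1758 d647 d684 d1870 d1847 d427 (k8 d2083 i967 i2640 i2753 d1728 i484 d284 i3099 (k8 d2103 d450 d1263 i1139 i2293 i2643 d1663 d2087 (k8 i560 d1331 d442 d375 d2104 d366 d12 i2042 (k2 d1648 d385 (k1 d391 k0)))))))) (by decide +kernel)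
def d2106 : PP 8 4 T 0x6001000000000000000400000010010000440000100005211009190040540004000000 := rS 0x4f558240ca61f8f4a2fd572d532715484d22394d8ec2a974680cf65b68c4cae0b59ac45010 (k8 d2059 i444 i3068 i2255 i2382 d1829 d368 d1454 (k8 i1758 d647 i1046 i1760 d684 i136 d606 d1870 (k8 i1873 i1170 i27 d425 d361 d449 d1114 d701 (k8 d1937 i2250 i1782 d1329 d1330 i1913 i202 d1845 (k2 i1222 d1116 k0))))) (by decide +kernel)
def d2107 : PP 8 4 T 0x1000000000000000000000000000010040000000004000009410000000004000000 := rS 0xdc98292ad123f5bad684515caa1fa4f8aa845e7d191da2ece65ab4d70460c44ea86110dd9ab314154165742914e6611690856170c44cb85947b269ec6368e5363b0aa5d26353299c00054ea7e308d01b44d210 (k8 d2059 i1764 d1454 i1046 i1760 d461 d11 d362 (k8 d456 d430 d1830 d1026 d1827 d904 d684 i136 (k8 d606 d1870 i1873 d1847 d2094 d381 d2102 i1132 (k8 i605 d2081 d368 d2105 i8 i387 i1038 d1240 (k8 i2711 i2756 i478 i1602 d1829 i2382 i704 i444 (k8 i2255 i1971 i1838 i258 i259 d667 d401 i3019 (k8 d438 d366 d12 d54 i2042 d385 d422 i1625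 (k8 i1629 i319 i312 d2106 d836 d2092 d1962 i1139 (k8 i2248 d391 d1148 i1931 d1329 d2100 d458 d1258 (k2 d485 i567 (k1 i1060 k0))))))))))) (by decide +kernel)
def d2108 : PP 8 4 T 0x1400000000000001000000000000004100400040000200140000000150000001000000000004020000 := rS 0xbba7af4d46d4ea7e30d1 (k8 d1454 d461 d11 d362 d1847 i2042 i1990 d429 (k2 i1946 d87 k0)) (by decide +kernel)
def d2109 : PP 8 4 T 0x1002000000000000000000400000000040000000004000009410000000004000000 := rS 0x8695506b5821d4aebc8bb3902b739a628aaf5496cca6734ae6868f30afd3f1846b4420598997192cb0000c0a94 (k8 d2107 d456 i1046 d430 d1027 i1101 d2081 d368 (k8 i605 d2059 d1454 i1760 d461 d11 i1725 i2727 (k8 i2763 d447 i104 i1764 d1830 d1026 i1758 d374 (k8 d347 d277 d1937 i1093 i1930 i1864 d2108 d385 (k8 i1105 d587 d730 d354 d1148 i1415 d474 d1154 (k1 d357 k0)))))) (by decide +kernel)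
def d2110 : PP 8 4 T 0x400000000000001101000000000000500410010000040440500014000000009410000000004800000 := rS 0x2656e73662f0a2853aa1cd4c5188859eaa72458da913d96cca674ea7e308d689a41e5c131e48815080000605 (k8 d456 i1046 d430 d2059 i136 i967 d284 i484 (k8 d2081 i597 i1764 d1454 i1760 d461 d11 d362 (k8 d1830 d1026 i1758 d647 i1170 d1847 d354 d1836 (k8 d436 d385 d25 d39 d75 i2042 i737 i970 (k8 i1771 i2315 i586 d1306 i1094 i1931 i1990 d1509 k0))))) (by decide +kernel)
def d2111 : PP 8 4 T 0x1000000000000000000000000000000040000000004000009410000000005000000 := rS 0x99672bcd70440a0c7a1d6902c5a7103aa1faa73cacc4c6f220242c1536a6d2e7b2d99d3a698aae6868f30ab4cabf4fc611ad10817192cb0000c0a94 (k8 d2107 d456 i1046 d430 d1027 i1101 d2081 d2059 (k8 d1454 i1760 d461 d11 i1725 d1026 i1557 i2727 (k8 i2763 d447 i104 d350 i1764 d362 d1830 i1758 (k8 d647 d684 d1870 d1847 i136 d427 d1728 i967 (k8 i2644 i484 i2299 d284 i3099 d2109 d450 i2293 (k8 d1663 d2087 i560 d442 d42 d88 i735 i1769 (k4 d2110 d366 d2011 i2042 (k2 d733 i1104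 k0)))))))) (by decide +kernel)
def d2112 : PP 8 4 T 0x1100000000000000100000000000000040000000000000009480000020004400004 := rS 0x8d8d102c95caa37 (k8 i1838 i704 d1829 i605 d438 d2093 d401 i258 k0) (by decide +kernel)
def d2113 : PP 8 4 T 0x1000000000000000000000000000000040000000004000009410000000004000000 := rS 0x4cb395e6b823f566282105c305c64b2d286936994ce0002a753f184680da210 (k8 d2059 d1454 i1046 i1760 d461 d11 d362 d456 (k8 d430 d1830 d1026 d1847 i1764 d2107 d1027 i1101 (k8 d2081 d2111 i8 i1038 i444 i2255 d2109 d2112 (k4 d366 d2011 i2042 d733 (k1 i1104 k0))))) (by decide +kernel)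
def d2114 : PP 8 4 T 0x1100000000000000210000000005000100000000400000009000414000004400000 := rS 0x63b3e9c0536b0cd210 (k8 d2059 i1763 d1838 d1847 d456 d467 d1797 d381 (k1 d985 k0)) (by decide +kernel)
def d2115 : PP 8 4 T 0x1002000000000000200000000000010040000000004000009010000000004000000 := rS 0x31d9e873a2106e581409cfa5c379fd96b544508a2b903a8d662f8aaad5ea92993d5a6d6197d22394da4d1e57228ac5a613995582a535315c9171899466420c05e0a464fa763035000151a031db442a10 (k8 d2059 i136 d1454 d606 i1046 i1760 d456 d430 (k8 d1827 d461 d362 d11 d2113 d81 d1596 d427 (k8 i1038 d1895 d1026 i1531 d61 d468 d75 d2114 (k8 d60 d382 d916 i2756 i2711 d1240 i387 i478 (k8 i1578 i1133 d904 d1870 i1873 i1170 i2281 d1838 (k8 d1847 d360 d395 d412 d374 d347 d72 d2098 (k8 i1077 d827 d1639 d1252 d1860 i439 d391 i2033 (k8 d55 d98 d100 d95 d831 d107 i1766 i444 (k8 i2037 i1044 i610 i606 i929 i1871 i1602 d658 k0))))))))) (by decide +kernel)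
def d2116 : PP 8 4 T 0x1000000000000000200000000000010040000000004100009010000000004000000 := rS 0xad5594c0cb969ad45d1044aecb251659d5504f670de2ac73cb0cbe394da5d265716984e65560a969e6a62b922e31328cc84180bc148c9f4ec606a0002a34063b6885420fd (k8 d2115 d2059 i136 d1454 d606 i1046 i1760 d456 (k8 d430 d1827 d461 d362 d11 d2113 d81 d1596 (k8 d427 i1038 d1895 d1026 i1531 d61 d468 d75 (k8 d2114 d429 d60 d382 d916 i2756 i2711 d1240 (k8 i1578 d904 d684 d1870 i1873 i2281 d1838 d267 (k8 d2101 d2099 i1043 i2035 d836 d450 i1067 d1263 (k8 i2248 i606 i1947 d2100 d287 d2063 d349 d358 (k4 i2779 i1078 d788 i584 (k2 i1225 d1258 k0))))))))) (by decide +kernel)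
def d2117 : PP 8 4 T 0x1100000000000000080000000000000000000000000205001000000060004000000 := rS 0x889644485 (k4 i1602 i258 i610 d401 (k1 d438 k0)) (by decide +kernel)
def d2118 : PP 8 4 T 0x1000000000000000200000000000010040000000004000009010000000004000000 := rS 0x2b55653032e5a62e44aed6a5165c41504f2cc550ace63ac46e2813971fac31ca6d2e934795c8a2b16984e60b2ab054b4f35315c9171899466420c05e0a464fa763035000151a031db442a10 (k8 d2059 i136 d1454 d606 i1046 i1760 d456 d430 (k8 d1827 d461 d362 d11 d2113 d81 d1596 d427 (k8 i1038 d1895 d1026 i1531 d61 d468 d75 d2114 (k8 d429 d60 d382 d916 i2382 i2756 i2711 d1240 (k8 i387 i478 i1578 i1133 d904 d684 d1870 i1873 (k8 d1838 d2115 d2116 i1766 i444 i1044 i3068 d2117 (k8 i2035 i1871 d2079 i610 d836 d450 d438 d1263 (k8 i2248 d349 i1947 d2100 d2063 d358 i2779 i1078 (k4 d788 i584 i1225 d1258 k0))))))))) (by decide +kernel)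
def d2119 : PP 8 4 T 0x1000000000000000200000000000000040000000004000009010000000004000000 := rS 0xcb4a0000605 (k4 d456 i1046 d430 d2118 (k2 d1027 i1101 k0)) (by decide +kernel)
def d2120 : PP 8 4 T 0x1000000000000000100000000000000140004000000004009800000000005000002 := rS 0x43b350a7913170d421221a486160a9b5229d4fc61a210479d4b2cf8b414ce65 (k8 d1026 d1830 d81 d354 d385 i605 d281 i1133 (k8 d2059 d1454 d461 d11 d362 i1170 d1847 i136 (k8 d427 i438 d248 i967 i1530 i2042 i483 i484 (k4 d284 i1869 i1971 i737 (k1 d1306 k0))))) (by decide +kernel)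
def d2121 : PP 8 4 T 0x1100000000000000100000000005000500004000000100009000000000006000002 := rS 0xf25f48b442059 (k4 i605 d2059 d1454 i1170 (k2 i2281 d267 (k1 d1915 k0))) (by decide +kernel)
def d2122 : PP 8 4 T 0x1000000000000000000000000000000040000000004000009010000000004000000 := rS 0xa822633146e28139710a45210ac2e18678ce2cc9478c4af052327d3b18339946a7b46800b603029b586391db442a10 (k8 d2059 i136 d1454 d606 i1873 d1838 d1847 d456 (k8 i1046 i1758 d430 i1760 d647 d1827 d1026 d1830 (k8 d461 d362 d11 d2113 d81 i1578 i1531 i1133 (k8 d2119 d354 d379 d385 d2120 i8 i387 i1038 (k8 i478 d1022 d2121 i1766 i444 i1044 i1841 i2035 (k2 i258 d2117 (k1 i1538 k0))))))) (by decide +kernel)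
def d2123 : PP 8 4 T 0x2001000000000000000000000141000000040401000005000009000000000054000000 := rS 0xcd2592861a9917a452ed139a346e020c05c8010 (k8 d2059 d2122 d439 d427 i180 i2725 i1759 i2758 (k8 d1454 d684 i1170 d423 d449 d1203 i310 d701 (k2 d479 i473 (k1 d49 k0)))) (by decide +kernel)
def d2124 : PP 8 4 T 0x1002000000000000200000000000010040000000004100009000000000004000000 := rS 0x7f509bd30b959c543ea54187582af58825524f569b44289478b4e70512918c2e51a460723b0abc5a2792fa346e020c05c8010 (k8 d2059 d2122 d439 d427 i180 i2725 i1759 i2281 (k8 d267 d1454 d393 i136 d606 i1873 d426 i1122 (k8 d15 d1861 i1123 i2078 d370 i2758 i2723 i2778 (k8 i2049 d1826 d1847 d360 d395 d374 d413 d455 (k8 d347 i1533 i741 d1355 i208 i182 d2123 d622 (k4 d1860 d1937 i1059 i311 (k2 d2038 d2039 k0))))))) (by decide +kernel)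
def d2125 : PP 8 4 T 0x1000000001000008040000000000000000000000000000001000040000004020000 := rS 0x62d3de2c3 (k4 d1838 d393 d96 i1793 (k1 d435 k0)) (by decide +kernel)
def d2126 : PP 8 4 T 0x1100000001000004001000800145554000000000400000001000000000004020000 := rS 0x172bb5fd095ad35e8f80c6d (k8 d1847 i473 i474 i1414 d49 i2906 d475 d1932 (k2 d58 d99 (k1 i2048 k0))) (by decide +kernel)
def d2127 : PP 8 4 T 0x2001000000000000000201000000100010040000000404100009000000000004000000 := rS 0x38b63f9bc9c1f28a061aae41acd3a9f3dc14c3181cbc56a7d8808d1e21129199ec7729e4be8d7ea4d463429aad52b11e9c522a1178ac76151b9cc5a020c05c80974ca6da210 (k8 d2059 d1454 d1870 d449 d684 d2122 d439 d427 (k8 i180 i2723 i2758 i2725 i136 d606 i387 d423 (k8 i310 i1170 d361 d691 i1761 d425 i583 i566 (k8 i1122 i326 d28 d2124 i1759 i2281 d267 d15 (k8 i412 d2125 i1123 i2078 d1826 i2778 i247 d410 (k8 d67 d349 d393 i1873 d426 d1861 d370 d64 (k8 d11 d362 d2126 d901 d701 d1203 i1861 i499 (k4 i183 d399 i1271 i760 (k2 i2045 i2030 (k1 i2496 k0))))))))))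 (by decide +kernel)
def d2128 : PP 8 4 T 0x2001000000000000000200000000100010040000000404100009000000000004000000 := rS 0x14c681faf40cac5cb4d806d46a753f0523185cb181cbc546341e9c522a1178ac76151b9cc5a020c05c80974ca6da210 (k8 d2059 d1454 d1870 d449 d684 d2122 d439 d427 (k8 i180 i2723 i2758 i2725 i136 d606 i387 d423 (k8 i310 i1170 d361 d691 i1122 i326 d393 i1873 (k8 d426 d15 d1861 i1123 d370 d11 d362 i1759 (k8 d1847 d2127 d384 i1249 i1533 i1534 i1292 i2906 (k2 d1900 d1330 (k1 i3098 k0))))))) (by decide +kernel)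
def d2129 : PP 8 4 T 0x1000000001000000040000000000000000000000800000001000000000004024000 := rS 0x62d3de2c3 (k4 d1838 d393 d429 i1790 (k1 d435 k0)) (by decide +kernel)
def d2130 : PP 8 4 T 0x2001000000000000000200000000000010040000000004100009000000000004000000 := rS 0x15eb358b280e3d50a913271548bd229b4b8ac5a7346918c3181b8e5e26b638eda215728d0040f0c05c8010 (k8 d2059 d2122 d439 d427 i2204 i180 i1122 d15 (k8 i136 d1454 d606 i412 d2129 d393 i1873 i2725 (k8 d426 d1861 i1123 i1759 i2758 i2723 i387 d684 (k8 d1870 i1170 d423 d425 d361 d449 d2128 i310 (k4 d691 d1823 i209 i1761 (k2 i473 i625 (k1 d701 k0))))))) (by decide +kernel)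
def d2131 : PP 8 4 T 0x1000000000000000200000000000010040000000004100009000000000004000000 := rS 0xa2042a950b88abf51e7323185ca348c0dc723b0abc404180b901a210 (k8 d2059 d1454 d2122 d439 d427 i180 d393 i136 (k8 d606 i1873 i2725 d426 i1122 d15 d1861 i1123 (k8 i2758 i2778 d2124 d2130 d2043 d450 i1140 i1085 (k2 i1655 i2074 k0)))) (by decide +kernel)
def d2132 : PP 8 4 T 0x1000001000000000000000000000000000000000000200001100000050004000000 := rS 0x4f13 (k2 d368 i1766 (k1 d419 k0)) (by decide +kernel)
def d2133 : PP 8 4 T 0x1000000000000000200000000000000040000000004000009000000000004000000 := rS 0x54250045d158602e3b68854521322901e210 (k8 d2059 d393 d2122 i22 i27 i186 i136 d1454 (k8 d606 d439 d427 i387 d2132 i180 d2131 i1100 (k1 d987 k0))) (by decide +kernel)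
def d2134 : PP 8 4 T 0x2001002000000000000000000000000000040000000005000009000000000004000000 := rS 0xfa0c3aaf0493cf25d1484c8af12fa3552b11ea845e91388ac76151b9cc5a020c05c80974ca6da210 (k8 d2059 d1454 d1870 d449 d684 d2122 d439 d427 (k8 i180 i2723 i2758 i2725 i136 d606 i387 d361 (k8 i1170 d423 i310 d691 i1761 d425 i1759 i2281 (k8 d393 i22 i27 i186 d2132 d267 d395 d413 (k4 d347 i741 d1355 i182 (k1 d2123 k0)))))) (by decide +kernel)
def d2135 : PP 8 4 T 0x1100000000000000010000000000000040000000500000001000055000004020000 := rS 0x18d4e679b5868d4ea7e30391db442af1 (k8 d393 i136 d1454 d606 i1873 d426 d11 d362 (k4 i1759 d1838 d1847 d1797 (k2 d467 i2035 (k1 d381 k0)))) (by decide +kernel)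
def d2136 : PP 8 4 T 0x2001000000000000000001000400100010040000000805000009000010000004000000 := rS 0x1d62e7788ae198d22d0756c6f2707ca28186ab90631108cd128f3dc6072792e8a426457897d1a9329aa5623d508bd2271158ec2a37398b404180b9012e994db4420fd (k8 d2134 d2059 d1454 d1870 d449 d684 d2122 d439 (k8 d427 i180 i2723 i2758 i2725 i136 d606 i387 (k8 d361 i1170 d423 i310 d691 i1761 d425 i566 (k8 d28 i1759 i2281 d393 i22 i27 i186 d2132 (k8 d267 i1873 d426 d64 i2778 i2049 i2050 d1826 (k8 i1042 d901 d701 d1203 i1861 i499 i183 d399 (k8 i1271 i2045 i2496 i761 d479 i1962 d253 d454 (k4 i809 d43 i1065 d422 k0)))))))) (by decide +kernel)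
def d2137 : PP 8 4 T 0x2001100000000000000000000000000010040000000005000009400000000004000000 := rS 0x172a35daf87caf591a98aa51ab05c89b688c4420f19a245a37010602e40348405e93 (k8 d28 d423 d2059 i1764 d2122 d439 d427 i180 (k8 i2725 i2723 i2049 i2050 i2204 d1826 i1042 d1454 (k8 d1870 d1836 d382 d15 d60 d75 d2135 d2136 (k4 i146 i474 i634 i1946 (k2 i407 i1457 (k1 i2033 k0)))))) (by decide +kernel)
def d2138 : PP 8 4 T 0x2001000000002000000000000000140010040000000000000009021000000004000000 := rS 0x5dd3d8cbfa1c5d70394d8eda21518884668916a346e020c05c202f49b046ac5 (k8 d75 d15 d382 d28 d423 d2059 d439 d427 (k8 i180 i2725 i1759 i2723 i2049 i2050 d1826 i1042 (k8 i136 d1454 d606 d1870 i1873 i2033 d43 d99 (k4 i1457 d1877 d381 i1679 (k1 d1863 k0))))) (by decide +kernel)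
def d2139 : PP 8 4 T 0x2001000000000000000000000000080000040000000405000009000000000004000000 := rS 0x3b0d5b20d4cb31f87da69f3dc6072792e8a426457897d1ac91ea845e91388ac76151b9cc5a020c05c80974ca6da210 (k8 d2059 d1454 d1870 d449 d684 d2122 d439 d427 (k8 i180 i2723 i2758 i2725 i136 d606 i387 d361 (k8 i1170 d423 i310 d691 d2133 i1759 i2281 d393 (k8 i22 i27 i186 d2132 d267 i1873 d426 d64 (k8 d11 d375 i2053 d1839 i474 d1330 d901 d692 (k2 d1203 i2496 (k1 d479 k0))))))) (by decide +kernel)
def d2140 : PP 8 4 T 0x1200000001000000000000000000000040000000004000009400000000004000000 := rS 0x22e3567318ce6d618c4423346a753f181b80830171c8eda21578b24d21011900d665 (k8 d47 d366 d2122 i184 d2059 i1764 d2133 d393 (k8 i136 d1454 d606 i1873 d439 d427 i180 i2725 (k8 d426 d11 d362 i1759 i2050 d1826 i1042 d1838 (k4 d1847 d1909 d144 i2042 (k2 i412 d385 (k1 d468 k0)))))) (by decide +kernel)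
def d2141 : PP 8 4 T 0x2001000000000000000000000000000010040000000005000009400000000004000000 := rS 0xa57228cd7041ea845e91388ac76151b9cc5a020c05c80974ca6da210 (k8 d2059 d1454 d1870 d449 d684 d2122 d439 d427 (k8 i180 i2723 i2758 i2725 i136 d606 i387 d361 (k8 i1170 d423 i310 d691 d2137 d366 d2139 d2140 (k2 d60 d2138 k0)))) (by decide +kernel)
def d2142 : PP 8 4 T 0x2001000000000000000000000000000010040000000004000009400000000004000000 := rS 0x144d25287dc851300f54299388bd229b4b8ac5a738c0dc04180b900723b68855e210 (k8 d2059 d393 i136 d1454 d606 i1873 d2122 d439 (k8 d427 i180 i2725 d426 i2758 i2723 i387 d684 (k8 d1870 i1170 d423 d361 d449 i310 d691 d2141 (k4 d45 d1861 i183 d60 (k2 d698 d2138 (k1 d375 k0)))))) (by decide +kernel)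
def d2143 : PP 8 4 T 0x1001000000000000000001000002100010000000040800110001420000001004000000 := rS 0x15622b43ec31461f699fd421d040b8de07658840243010602e23 (k8 i184 d439 d427 i180 i21 i1038 d1826 d1263 (k8 i455 i2734 i1084 i1085 i742 i311 d2038 d358 (k8 i2052 i200 d479 d394 i2030 d349 i768 d287 k0))) (by decide +kernel)
def d2144 : PP 8 4 T 0x1100000000000000000000000000010040000000005000009400000000004000000 := rS 0xb53e950b47f28a8546b737a057a1f0ea628ab10493d5abb53bf15e5354d3cd4c5528d44ac1720c4420f199ccf25d158a426457897d1a372cb24d22359c55123b688545a020c05c8010 (k8 d2059 d2122 d439 d427 i180 i2723 i136 d1454 (k8 d606 i2049 d2142 d622 i184 i1764 d2133 i605 (k8 i2725 i1759 i2281 d393 i22 i27 i186 i387 (k8 d2132 d267 i2758 i2050 i2204 d1826 i1042 d1836 (k8 d382 d402 d15 d60 d75 d2135 d429 d2143 (k8 i566 d1037 d450 i1912 i1946 d360 d395 d413 (k8 d455 d277 d1937 i741 i182 i1991 i1864 i1059 (k8 d1353 d170 i311 d830 d2038 d341 i1963 i1541 (k2 i767 i2030 k0))))))))) (by decide +kernel)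
def d2145 : PP 8 4 T 0x1001000000000000000101000002105010540000040410000001420010001004020000 := rS 0x4599d4333ad1267d8628c3ed33fa843ab9040b8de0736b4462210090c66020c05cd223 (k8 i184 i1764 d439 d427 i180 i2050 i21 i1038 (k8 d1826 i1042 d1454 d1847 i455 i2734 i1084 i1085 (k8 i1139 i742 i311 d2038 d358 i2052 i200 d479 (k8 d394 d2000 i2030 i576 d55 i2042 d391 d385 k0)))) (by decide +kernel)
def d2146 : PP 8 4 T 0x1000000000000000000000000000010040000000005000009400000000004000000 := rS 0xfda63d172628aa77e2bd52a51a89582e465994d7040782d1e7346a753f181b8e5e2c959c55123b688545a020c05c8010 (k8 d2059 d2122 d439 d427 i180 i2723 i136 d1454 (k8 d606 i2049 d2142 d622 d2133 d393 i1873 i2725 (k8 d426 d11 d362 i1759 i2758 i2778 i2183 i2204 (k8 d2144 d366 d47 d54 d2140 d382 d402 d15 (k8 d60 d2145 d1037 d450 i1912 d277 d1937 d1999 (k4 i1785 d358 i404 d365 k0)))))) (by decide +kernel)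
def d2147 : PP 8 4 T 0x4001100000000000000010000000000000040000000114000009000010000004000000 := rS 0x331a82031108cc6e020c05c80c9 (k8 d2133 d2122 d439 d427 i180 i2725 i2050 d1826 (k4 i1042 d2059 d2135 d354 (k1 i2309 k0))) (by decide +kernel)
def d2148 : PP 8 4 T 0x1000000000000000000000000000010040000000004000009400000000004000000 := rS 0x19e673a1dd687f2a9ae087d32c5d70c5528d44aa36930526a10e87dc82f38938dc51304544669269b462211982d128f16a753f181c9e4ba2b1db442a2909915e25f468dc04180b90020c9 (k8 d2133 d2059 d2122 d439 d427 i180 i2725 i1759 (k8 i2281 d393 i22 i27 i186 i136 d1454 d606 (k8 i387 d2132 d267 i1873 d426 d11 d362 i2723 (k8 i2778 i2049 i2183 i2050 d1826 i1042 d1847 i51 (k8 i1764 i184 d2142 d2146 d45 i1047 i1048 i1280 (k8 i2726 d1861 i183 i1231 i756 i2834 d1331 d417 (k8 d1639 d402 d15 d60 d75 d253 d43 i2730 (k8 i1330 d2147 d366 d474 i759 i2030 i807 d1114 (k2 i490 i1067 (k1 i2042 k0)))))))))) (by decide +kernel)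
def d2149 : PP 8 4 T 0x2001000000000000000000000000140010040000000404000009000000000004000000 := rS 0x1d59a851195d80b98b394622119a251e9d4f9ee3039439b4f25d1484c8af12fa34b305128d48cc91e9c522a1178ac76151b9cc5a020c05c80974ca6da210 (k8 d2059 d1454 d1870 d449 d684 d2122 d439 d427 (k8 i180 i2723 i2758 i2725 i136 d606 i387 d423 (k8 i310 i1170 d361 d691 d2133 d2148 i207 i2078 (k8 d81 i605 i1759 i2281 d393 i22 i27 i186 (k8 d2132 d267 d1847 d1853 i1873 d426 d64 d11 (k8 d362 i2778 i2049 i2050 d1826 i1042 d2138 d468 (k8 d43 d665 i2955 i185 d1014 d1015 d124 d1306 k0))))))) (by decide +kernel)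
def d2150 : PP 8 4 T 0x2001000000000000000000000000000010040000000405000009000000000004000000 := rS 0x15eb36501d48a34691952b11e9c522a1178ac76151b9cc5a020c05c80974ca6da210 (k8 d2059 d1454 d1870 d449 d684 d2122 d439 d427 (k8 i180 i2723 i2758 i2725 i136 d606 i387 d423 (k8 i310 i1170 d361 d691 i1761 d425 d2148 i1759 (k4 d2139 d2149 d1823 i209 (k2 i473 i625 (k1 d701 k0)))))) (by decide +kernel)
def d2151 : PP 8 4 T 0x2001000000002000000000000000100010040000000005000009000000000004000000 := rS 0x1763e57ac944c11a919923d38a45422f158ec2a37398b404180b9012e994db44206a (k8 d2150 d2059 d1454 d1870 d449 d684 d2122 d439 (k8 d427 i180 i2723 i2758 i2725 i136 d606 i387 (k8 d423 i310 i1170 d361 d691 d2133 d2148 i207 (k4 d382 d2138 d2136 i146 (k2 i474 i1946 (k1 i407 k0)))))) (by decide +kernel)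
def d2152 : PP 8 4 T 0x1000000001000000000000000005001405005000000000001000015001504000000 := rS 0x66440eb16 (k4 d468 d124 d410 d1306 (k1 d454 k0)) (by decide +kernel)
def d2153 : PP 8 4 T 0x2001000000000000000000000000000010040000000005000009000000000004000000 := rS 0xa57208cae8535244622119a3d3a9f3dc607287369e4ba2b1db442a2909915e25f468dc04102c8943017200d48cc9 (k8 d2133 d2148 i207 d2122 d439 d427 i2078 i605 (k8 d2059 i180 i2725 i1759 i2281 d393 i22 i27 (k8 i186 i136 d1454 d606 i387 d2132 d267 d1847 (k8 d1853 i1873 d426 d64 d11 d362 i2778 i2050 (k8 d1826 i1042 i1170 d2150 i1869 i507 i185 d2152 (k2 d60 d2151 k0)))))) (by decide +kernel)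
def d2154 : PP 8 4 T 0x2001000000000000000000000000000010040000000004000009000000000004000000 := rS 0x1a4a25287dc851300f54299388bd229b4b8ac5a738c0dc04180b900723b68855e210 (k8 d2059 d393 i136 d1454 d606 i1873 d2122 d439 (k8 d427 i180 i2725 d426 i2758 i2723 i387 d684 (k8 d1870 i1170 d423 d361 d449 i310 d691 d2153 (k4 d45 d1861 i183 d60 (k2 d2138 d698 (k1 d375 k0)))))) (by decide +kernel)
def d2155 : PP 8 4 T 0x1100000000000000010000000000000040000000400000001000055000004020000 := rS 0x69 (k2 i1763 d2135 k0) (by decide +kernel)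
def d2156 : PP 8 4 T 0x9001000000000000000000000000100010010000000000000001000015500004000000 := rS 0x3497293 (k4 d480 d43 d417 d787 k0) (by decide +kernel)
def d2157 : PP 8 4 T 0x1000001000000040000000000400200000000000000000001004040000004000000 := rS 0x7b45 (k2 d408 i1785 (k1 d365 k0)) (by decide +kernel)
def d2158 : PP 8 4 T 0x1001000000000000000000000000100410050000000405000001800055100004020008 := rS 0x28810c1a1aa174fd4c8fda62e49ae54f165eafcd0ab72b119e6d4ba353a9f8c0e5e305598eda215 (k8 i136 d1454 d606 d622 d81 d393 i1873 d426 (k8 d11 d362 i1759 d684 d1847 d1797 d2155 d75 (k8 i2989 i1535 i2943 i1796 d468 i3098 d43 d480 (k8 d2156 d358 i404 d2157 d1937 i2048 d450 d58 (k4 i1520 i1085 d475 i201 k0))))) (by decide +kernel)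
def d2159 : PP 8 4 T 0x1000000000000000000000000100010040000000005000009000000400004000000 := rS 0x64492e62ea354c1566c17208cae85354545a894d9646ac912918f28d43974562909914da5f3da7d3b181b8e4761578a3c0433188602e2120245a210 (k8 d2059 d1454 i1170 d2122 d1826 d439 d427 i1042 (k8 i2050 i180 i2778 d393 i136 d606 i1873 i2725 (k8 d426 d362 d11 d64 i2281 d1847 i22 i27 (k8 i186 i387 d2132 d1853 i1759 d267 d2148 i2078 (k8 d2133 i207 i605 d1870 i2049 i2723 d2154 d2158 (k8 i1869 i507 i185 d2152 d382 d622 d81 i1084 (k4 d1639 d2156 d1860 i2033 (k2 d727 i1550 k0)))))))) (by decide +kernel)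
def d2160 : PP 8 4 T 0x4001000000000000000000000000140010040000000005000009000000000004000000 := rS 0x3ea843a6f03aa1fa995aa9e847f6324ce8640090ce6b36283d82e41195d0a6a8a8b5129b2c894f28d43974562909914da5f3da7d3b181b8e5e28f010cc62180b88522d30f9007e3b6885420b9170d48cc9 (k8 d2133 d2148 i207 d2159 i1137 d2059 i136 d1454 (k8 d606 i404 d2122 i2052 d358 i1170 d1826 d439 (k8 d427 i1042 i2050 i180 i2778 d393 i1873 i2725 (k8 d426 d362 d11 d64 i2281 d1847 i22 i27 (k8 i186 i387 d2132 d1853 i1759 d267 i2078 i605 (k8 d1870 i2049 i2723 d2154 d2158 i1869 i507 i185 (k8 d2152 d382 i2204 i1790 d622 i2758 i21 i1038 (k8 d727 i1049 i1550 d1966 i1667 d391 i336 d55 (k8 d2157 d1937 d450 i455 i2734 i742 i311 d107 (k1 i2030 k0)))))))))) (by decide +kernel)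
def d2161 : PP 8 4 T 0x1000000000000000000000000140010040000000005000009000000000004000000 := rS 0xab115a1f4fea10e9bc0ecb543f532a76324d9f1661804867359b141ec17208cae85354545a894d9646ac912918f28d43974562909914da5f3da7d3b181b8e5e28f010cc62180b88522d30f9007e2e1db442a10 (k8 d2059 i136 d1454 d606 d2159 i404 d2122 i2052 (k8 d358 i1170 d1826 d439 d427 i1042 i2050 i180 (k8 i2778 d393 i1873 i2725 d426 d362 d11 d64 (k8 i2281 d1847 i22 i27 i186 i387 d2132 d1853 (k8 i1759 d267 d2148 i2078 d2133 i207 i605 d1870 (k8 i2049 i2723 d2154 d2158 i1869 i507 i185 d2152 (k8 d382 i2204 i1790 d622 i2758 i21 i1038 d1838 (k8 d2160 d385 d480 i2035 i336 d2157 d1937 d450 (k8 d1263 i455 i2734 i742 i311 d2038 d107 i2030 (k2 d349 i768 (k1 d287 k0))))))))))) (by decide +kernel)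
def d2162 : PP 8 4 T 0x400000000001001101000000000040000000010000000000000000805000001004000000004020009 := rS 0x5115c3d53aa8100765aa1e2b1 (k8 i1967 d393 d450 d1263 i455 i1085 d436 i1913 (k4 i1267 i585 d365 d91 k0)) (by decide +kernel)
def d2163 : PP 8 4 T 0x1000000000000000000000000100010040000000005000009000000000004000000 := rS 0xbc53a628aaf7e2ed8ccf8b2b52743512e47ed3173169e6a61a6c62210090c1e3305a353a9f8c0dc72f1828d48cc959c55123b688545a020c05c8010 (k8 d2059 d2122 d439 d427 i180 i2723 i136 d1454 (k8 d606 i2049 d2154 d622 d2133 d2148 i207 d81 (k8 d393 i1873 i2725 d426 d11 d362 i1759 i2183 (k8 i2050 i2204 i21 i1038 d1826 i1042 d1870 d1838 (k8 d2158 d429 i1790 d2159 d358 i404 i1137 d2161 (k8 d469 i1633 i1554 d391 d385 i2035 i1680 d2162 (k4 d347 d277 d1937 i1912 (k2 d170 i1991 k0)))))))) (by decide +kernel)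
def d2164 : PP 8 4 T 0x1000000000000000000000000000010040000000005000009000000000004000000 := rS 0xfd548205ea4010602e401a9199315 (k8 d2154 d2133 d2148 i207 d2122 d439 d427 i180 (k4 d2163 i365 i208 i1084 (k2 d413 d450 k0))) (by decide +kernel)
def d2165 : PP 8 4 T 0x1000000000000000000000000000010040000000004000009000000000004000000 := rS 0xcb175c295469360b905e4e039b8c1151a918622119a245b181b8083017200e476d10abc420c9 (k8 d2133 d2059 d393 i136 d1454 d606 i1873 d2122 (k8 d439 d427 i180 i2725 d426 i2723 i2049 i2050 (k8 d1826 i1042 d2148 i207 d2154 d2164 i1047 i1223 (k8 i1048 i2726 d1861 i1534 i2834 d1639 d60 i2033 (k2 d2156 i2730 (k1 d727 k0)))))) (by decide +kernel)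
def d2166 : PP 8 4 T 0x1100000000000000000000000000000040000000400000001400055000004024000 := rS 0x188e4 (k2 d1836 d2155 (k1 d75 k0)) (by decide +kernel)
def d2167 : PP 8 4 T 0x1000000000000000100000000100020050000000444000001400045100006024400 := rS 0x1a42e1fbf14ebc4c2bd9ccb32c10da8d4ea7e303978ace2a3b688546a69 (k8 i1764 i1099 i136 d1454 d606 d350 d622 d393 (k8 i1873 d426 d11 d362 i1759 d1847 d2166 d47 (k8 d54 i2042 d2011 i1104 i1105 i1912 d733 i1411 (k2 d1999 d2157 (k1 d444 k0))))) (by decide +kernel)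
def d2168 : PP 8 4 T 0x400000000000020001000000002000000100000000000020110000000045000001000155500006000408 := rS 0x6556b3946a98aae526c1 (k8 i1517 i83 i104 d350 i1084 d1639 d220 i1558 (k2 i1028 d1962 k0)) (by decide +kernel)
def d2169 : PP 8 4 T 0x400000000001001001000000000040001000000140000000010000805010009024000001444000000 := rS 0x7e29a843ab53781d58a8080840243010602f05 (k8 d366 d439 d427 i180 i21 i1038 d1826 d2059 (k8 d450 d2162 i455 i2734 i1288 i742 i311 i567 (k2 i2030 i1556 k0))) (by decide +kernel)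
def d2170 : PP 8 4 T 0x1002000000000000000000400000000040000000005000001000040800004020000 := rS 0x1e29d314557bc51ad31f8eda215 (k8 i136 d1454 d606 i404 d358 i1759 d393 d347 (k4 d277 d1937 i1912 d365 (k1 i1785 k0))) (by decide +kernel)
def d2171 : PP 8 4 T 0x1000000000000000000000000100000040000000004000009400000000004000000 := rS 0x28958fd1f87da62e7253e0a6a11804860f1982d1b181b8e5e25964d0cc267608c4427d39ace2a891db442a2d010404a354a0602e40 (k8 d2122 d439 d427 d2165 i1099 i348 d2059 i180 (k8 i2723 i136 d1454 d606 i2049 d350 d622 i2758 (k8 i1598 d1826 i1042 i1517 d728 i2727 d447 d2133 (k8 i605 d393 i1873 i2725 d426 i1759 i2183 i2050 (k8 i2204 i21 i1038 i184 d2167 d366 d429 d1836 (k8 d2168 d358 i2052 i404 d2170 d2162 d2169 i1554 k0)))))) (by decide +kernel)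
def d2172 : PP 8 4 T 0x1000000000000000020000000005001405005000000000001000015001104000000 := rS 0x46e5 (k2 d75 i1575 (k1 d2152 k0)) (by decide +kernel)
def d2173 : PP 8 4 T 0x1000000000000000000000000000000002000000000100009000000000004000000 := rS 0x2dc4cbe10 (k4 d2059 i2281 d53 i3036 (k1 d418 k0)) (by decide +kernel)
def d2174 : PP 8 4 T 0x1000000000000000000000000100000040000000004000009000000000004000000 := rS 0x512b1fa3f0fb4c5ce41195e9e6a62c144a461aa4402431982d1e9d4f9ee3039439b4f25f468dcb2c9a1984cec118884fa7359c552889168090a5d158602e3b68854521322901e210 (k8 d2059 d393 d2122 i22 i27 i186 i136 d1454 (k8 d606 d439 d427 i387 d2132 d2173 i180 i2723 (k8 i2049 d2165 d350 d622 i2758 i1598 d1826 i1042 (k8 i1517 d728 i2727 d447 d2133 i605 i2725 i1759 (k8 i2281 d267 d1847 d1853 i1873 d426 d64 d11 (k8 d362 i2778 i2183 i2050 i21 i1038 i1170 i1099 (k8 d2171 i348 d81 d2172 d2155 d429 i507 i185 (k8 d2152 d2168 d358 i2052 i404 d2170 d2162 d2169 (k1 i1554 k0))))))))) (by decide +kernel)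
def d2175 : PP 8 4 T 0x1000000001000000000000000005001405005000000000001000014000506000000 := rS 0x4a31 (k2 i1042 i348 (k1 d2152 k0)) (by decide +kernel)
def d2176 : PP 8 4 T 0x1000000000000000000000000000000040000000004000009000000000004000000 := rS 0x104239962e3411b95488533a51927943974f69f4ec611a3747808662b0c0a442450b90026f13697d22391db442a10 (k8 d2059 i136 d1454 d606 i1873 i1170 i2281 d1847 (k8 d393 i27 d2122 d439 i22 d1826 i186 d427 (k8 i387 i2050 i180 i2778 i2725 i1759 d426 d362 (k8 d11 d64 d2132 d1853 d267 d2133 d2165 d728 (k8 d2173 d2174 d60 i2056 d2175 d44 i2729 i207 (k2 d354 d2140 k0)))))) (by decide +kernel)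
def d2177 : PP 8 4 T 0x4001000000000000000000000000000000040000000000000009000000000004000000 := rS 0xd26b32c10dacf649bc9aa15699d569d4fc611a5b688403a45280843e890c05c800200814e062 (k8 d2176 i488 d456 d586 d430 i1046 i966 d427 (k8 i2049 i1356 d1826 i487 d101 i1230 d2059 d1454 (k8 d147 i1052 d461 d11 d362 i2305 d585 i2875 (k8 d463 i51 i1320 d589 d602 d1847 d138 d136 (k2 d366 d431 (k1 i2042 k0)))))) (by decide +kernel)
def d2178 : PP 8 4 T 0x1000000000000000000000000000000040000000000000009000000000004000000 := rS 0x6b829588c2272d3d8cc512a4c6b1642a1cf25d8928c5e891589da4214fa7430331b90062458c2e4ce17010a51e7b469405a0121b2556706796cc43b1c8142af161a45a210 (k8 d2059 d1454 i1170 d1838 d393 i136 d456 i1873 (k8 d606 d2176 d147 d602 i488 i2305 d589 i2245 (k8 d586 i1238 i487 i1052 d647 i1132 i1836 d430 (k8 i966 d585 i2899 d461 d101 d1819 i1046 i2725 (k8 i193 d427 d362 d11 d1826 d700 i745 i387 (k8 i2049 d358 d375 d419 d2132 d404 d51 d53 (k8 d2177 d446 d480 i348 d2172 i2035 d381 d220 (k4 d2175 i184 i185 d81 (k2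 i507 d2155 k0))))))))) (by decide +kernel)
def d2179 : PP 8 4 T 0x1000000000000000000000000000000000000000000000009000000000004000000 := rS 0x110042915804f45c453c42005 (k8 d456 d2059 d393 d2178 i491 i492 d972 d451 (k4 i3093 d430 d2132 d101 k0)) (by decide +kernel)
def d2180 : PP 8 4 T 0x1000000000000000000000000000000000000000000000011000000000004000000 := rS 0x4b (k2 d2179 d392 k0) (by decide +kernel)
def d2181 : PP 8 4 T 0x1000000000000000000000000000000000000000000000001020000000004000000 := rS 0x4c (k2 d2180 d440 k0) (by decide +kernel)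
def d2182 : PP 8 4 T 0x1000000000000000000000000000000000000000000000001000000000004000002 := rS 0x4c (k2 d2180 d69 k0) (by decide +kernel)
def d2183 : PP 8 4 T 0x1000001000000040000000800400000000000000000000001004000000004000040 := rS 0x7b45 (k2 d355 i1253 (k1 d365 k0)) (by decide +kernel)
def d2184 : PP 8 4 T 0x2001000000000000010000004000000000140400000005000001000080210005000140 := rS 0x1026f0e029fb0d489cd42423c9752e7b2d858e2b31fa6e30d353a65e24c (k8 d2180 d9 d449 i1916 d0 d461 d84 i1423 (k8 d2183 d361 d427 i2465 d647 d684 i531 d1043 (k8 i707 i2574 i837 i915 d1203 d1937 d442 i558 (k2 i1232 i1236 (k1 d1552 k0))))) (by decide +kernel)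
def d2185 : PP 8 4 T 0x2001000000000000010000000000000000140000000004800001000080218005000140 := rS 0x21a8137948380a7e9816eb3418fda69139a8484792ea5cf65b0b26e30f138a9d324c (k8 d2180 d449 i1916 d361 d9 d461 d84 d427 (k8 i2465 d647 d684 i531 d1043 i707 i2574 i837 (k8 i915 d0 i1423 i736 d2183 i853 d2184 d396 (k4 d442 i558 i557 i1232 (k2 i1236 d74 (k1 d1552 k0)))))) (by decide +kernel)
def d2186 : PP 8 4 T 0x1000000002000000100000014140014010000000005000001000015100004000420 := rS 0xcb17652e05e0723825820f (k8 d37 d382 i262 i264 i519 i316 i2033 d1835 (k2 d43 i1026 (k1 d713 k0))) (by decide +kernel)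
def d2187 : PP 8 4 T 0x2001100001002000040000000800500010000000000405000001080015100004000020 := rS 0x34d3d8c6d512adf8ad1f02c0ec94982512c1 (k8 d382 d83 i262 d28 i2410 i519 i2436 d2183 (k8 d1488 d442 d72 d2186 d223 i406 d381 d228 (k1 d467 k0))) (by decide +kernel)
def d2188 : PP 8 4 T 0x1000000000000040000000400000100140000010005000001000000100005200120 := rS 0x7814837eac16e9139aa40e455093cf25d4b9ecb69b8c3455e5e131082c4c (k8 d2180 d427 i707 i636 i635 i2397 i2434 d461 (k8 d84 i2465 d647 d684 i531 d1043 i2463 i2574 (k8 i526 i519 d989 i837 i915 i853 d701 d1937 (k4 i1295 d442 d689 i236 k0)))) (by decide +kernel)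
def d2189 : PP 8 4 T 0x20001100000001000000000000000000001000005100400800001480015010004000000 := rS 0x2159a87101b4b08f074593a9f (k8 d11 d362 d468 d1836 d380 i595 i2443 i596 (k4 i930 i891 i1504 d1306 k0)) (by decide +kernel)
def d2190 : PP 8 4 T 0x2001100000000000040000000000100010140000000005000001000095000005000020 := rS 0xb278b90d6758c1ecb6792e91d227153a645a09448a48a262f05022d1210580e4c (k8 d2180 i519 d427 i707 i2434 i523 d1885 i635 (k8 i636 i526 i252 d83 i262 d2185 d449 i1916 (k8 d361 i915 i264 i531 d1043 i2465 d647 d461 (k4 i970 i2420 d2189 d9 (k2 d2188 d2187 k0))))) (by decide +kernel)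
def d2191 : PP 8 4 T 0x2001100000000000000000000000100010140000000005000001000095000005000020 := rS 0x19e8f66ae8b2b2552d902ad418f4161d51b48e67764a5d3a9f60a1c428562b90d6758c1ecb6792e91d229338a645a09448a48a262f05022d1210580e4c (k8 d2180 i519 d427 i707 i2434 i523 d1885 i635 (k8 i636 i526 i252 d83 i262 d2185 d449 d361 (k8 d28 i915 i264 i531 d1043 i2465 d647 d461 (k8 i970 i2420 d2189 d75 i1771 d25 i737 d382 (k8 d11 d362 d684 i2410 i712 i837 d2190 d375 (k8 d42 d462 d88 i735 d1488 i1769 d1523 d2186 (k4 i853 i2441 i666 i890 (k2 i874 i1950 (k1 i2046 k0))))))))) (by decide +kernel)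
def d2192 : PP 8 4 T 0x1001000000000040000004000010541000005050000000001180000100004200140 := rS 0x1061f290295e26 (k4 i636 i2397 d442 i557 (k2 i236 i922 (k1 d689 k0))) (by decide +kernel)
def d2193 : PP 8 4 T 0x2001100000000000000000000000100010140000000004000001000095000005000020 := rS 0x205063d0eb496eb37e9805a0944a64e2913981d42792ea5cf65b4dc61a25e131082c290a0448a4c (k8 d2180 i526 i523 d1885 i252 d427 i707 i636 (k8 i635 i2434 d461 d84 i2465 d647 d684 i531 (k8 d1043 i2574 i519 i837 i915 d361 d449 d83 (k8 i262 d2185 d2191 d396 i1431 i853 d2192 d42 (k4 d88 i735 i1769 d1523 k0))))) (by decide +kernel)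
def d2194 : PP 8 4 T 0x1000001000000010000000000400000140000000004000001000000200004000440 := rS 0x6159bf1323f69a6e3001 (k8 d2182 d461 d84 d0 i1423 i981 d1050 d2183 (k2 d396 d1937 k0)) (by decide +kernel)
def d2195 : PP 8 4 T 0x1400000000021001000001000000040000404000500055405005100000000001000000500004000000 := rS 0x2ee9ebd660fa2c3d5ca213a9f (k8 d11 d362 d417 i1403 i1346 d391 d365 d1306 (k4 i1411 d73 i1948 d87 k0)) (by decide +kernel)
def d2196 : PP 8 4 T 0x1001000000002000000000000000100010140000000005000001000095000004800420 := rS 0x36b317b164c2e5028338a207a1d51b491ebf33a4e86caa2aad5afc04a45522f239e4bac94ba753f183a978d6c107a1c4285628996e6f16a9c28117881cf6d12116ce64c (k8 d2180 i837 i2465 i707 i2434 d647 i519 d9 (k8 i523 d1885 i330 d2194 i968 d648 i636 d75 (k8 i1771 d25 i737 d37 d382 i2420 i635 i970 (k8 d461 d11 d362 d684 i2410 i531 d1043 i264 (k8 i316 d989 i915 i263 d450 d360 d72 d277 (k8 d1821 d98 i1367 i545 i1454 i875 d2195 d375 (k8 d42 d88 d2186 i709 i735 i1769 i1403 d1523 (k4 d391 i1991 d1306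 i674 (k1 i891 k0))))))))) (by decide +kernel)
def d2197 : PP 8 4 T 0x1100000000000000000000000100010140000000004000001000095000005000020 := rS 0x58209030c4c9c5fa605b9bc5aa705c55c89139aa40e47279e4ba973d96d3718689d5e25e14914d614089082c4c (k8 d2180 d427 i707 i523 d1885 i2420 i526 i252 (k8 i635 d9 i970 i2434 d461 d84 i2465 d647 (k8 d684 i531 d1043 i2463 i264 i519 d989 i837 (k8 i915 d2189 d2193 d1052 i330 d2194 i968 d648 (k8 d2196 d396 i1279 i1020 d383 d465 i2045 d1133 (k1 i1295 k0)))))) (by decide +kernel)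
def d2198 : PP 8 4 T 0x20001000000002000001100000014100115410005500005000001008015108004000420 := rS 0xce5d2150ea2628853a9f (k8 d11 d362 d25 d75 d2186 i737 i1771 i407 (k2 i2046 i1950 k0)) (by decide +kernel)
def d2199 : PP 8 4 T 0x2001000000000000040000000000100010140000000005000001000095000005000020 := rS 0x675cc59caab7e0f816b248aa4f25d3bb24f65b8c1d5e2ad32b2d9a8f2cc11267153a645a09448a48a262f05022d1210580e4c (k8 d2180 i519 d427 i707 i2434 i523 d1885 i635 (k8 i636 i526 i252 d83 i262 d2185 d449 i1916 (k8 d361 d28 d2197 d92 i874 i890 d54 d47 (k8 d12 d9 i970 d461 i2465 d647 i2410 i712 (k8 i531 d1043 d989 i915 d2188 i2436 d2183 d442 (k4 d72 d2198 d468 d43 (k2 d86 i2040 k0))))))) (by decide +kernel)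
def d2200 : PP 8 4 T 0x20001000000000000081400000010100155410005050000000001400095508004804140 := rS 0x19cba5ea150f45a7ad8fabf8ba0507435c0f4161d60a8cee9d4fa6cea6f (k8 i968 i970 d84 d11 d362 i712 d375 d384 (k8 d42 d462 d88 d253 d1648 i735 i1769 d43 (k8 i1457 i1329 d1523 d971 d424 i857 i1935 i1988 (k2 d87 d826 (k1 i1950 k0))))) (by decide +kernel)
def d2201 : PP 8 4 T 0x2001000000000000000000000000100010140000000004000001000095000005000020 := rS 0xb659bf4c0d316825129938a4d22731781c8ea13c9752e7b2da6e30d1130a48a0f56b2d9a5e0a044841647966084c (k8 d2180 d2197 d92 i874 d427 i707 i523 d1885 (k8 i635 i890 d54 d12 d5 i526 i252 i636 (k8 i2434 d461 d84 i2465 d647 d684 i531 d1043 (k8 i2574 i264 i519 i316 i837 i915 d28 d361 (k8 d449 d83 i262 d2185 d2200 d2199 d396 i1431 (k2 d2192 i853 k0)))))) (by decide +kernel)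
def d2202 : PP 8 4 T 0x1001000000000000000400000010100010140000000005000001000095000004804420 := rS 0x4424d811655b95f809548bc8e2d5385022f1689080e4c (k8 d2180 i519 i707 i2434 d9 i523 d1885 i330 (k8 d2194 i264 i316 d989 i263 d450 d2196 d72 (k4 d468 d1821 d480 d2156 (k1 i1344 k0)))) (by decide +kernel)
def d2203 : PP 8 4 T 0x1000000000000000000000000100010140000000004000001000095000005000020 := rS 0x1608240c3132717e9816e6f16a9c171565ab41f042f051e29139aa42207279e4ba973d96d3718689082c4c (k8 d2180 d427 i707 i2434 d461 d84 i2465 d647 (k8 d684 i531 d1043 i2463 i519 i523 d989 i837 (k8 i915 d9 d1885 i635 d2197 d5 d12 d54 (k8 d2201 d1052 i330 d2194 i968 d648 d2202 d396 (k4 i1279 i1020 d383 d465 (k2 i2045 d1133 (k1 i1295 k0))))))) (by decide +kernel)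
def d2204 : PP 8 4 T 0x1000000000000010000000000000000140000000004000001000000200004200440 := rS 0x14ef1 (k2 d35 i330 (k1 d2194 k0)) (by decide +kernel)
def d2205 : PP 8 4 T 0x2001002000002000000000000000100000140000000005000001080055000004100020 := rS 0x17f4336288d6cb329a62ece6183d82a91d81d923909a753f1804a255aab05ac932d162b1c8e11 (k8 i523 i264 d1864 d1850 i2434 d449 d1937 d388 (k8 d72 d360 d83 i262 d461 d11 d362 i267 (k8 d504 i2410 i519 i393 d989 d382 d37 d470 (k8 i2035 d385 i1832 i1028 d713 i633 d1835 d1837 (k2 d469 i1719 (k1 d1800 k0)))))) (by decide +kernel)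
def d2206 : PP 8 4 T 0x2001102000000000000000000000100010140000000005000001000055200004800020 := rS 0x1070d5b9f626865dd3d0ab5669fe22c210161728f6783a2ce513b1d8a1540aca8a0b29a44e6511d8440e473b9ecb63909a753e9b8c3448475499c5324c (k8 d2180 d449 d361 d28 i970 i707 i2434 d461 (k8 d84 d11 d362 i267 d504 i2465 d647 i712 (k8 i264 i519 i523 i393 i527 i837 i915 d412 (k8 d388 d277 d1937 i1334 d2204 d1850 d1864 d1126 (k8 d2205 d468 d1836 d385 d380 d43 i595 i596 (k8 i2035 d411 i844 i729 i728 i1503 d433 i1945 (k4 d335 d51 i1710 i856 (k2 d205 d1891 (k1 d357 k0))))))))) (by decide +kernel)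
def d2207 : PP 8 4 T 0x2001000000000000000000000400000441000005044000000801080000000044200000 := rS 0x40add06262f2bce299 (k8 d449 d361 i2397 i635 i636 i922 i853 i1770 (k1 i2045 k0)) (by decide +kernel)
def d2208 : PP 8 4 T 0x2001100000002000000150000000005400140800500000000801000555000024000000 := rS 0x172b547af8b26c3599976658bb38fac360a655c4c (k8 d2180 i922 d449 d382 d470 i1233 i2035 d385 (k8 i1028 i1950 d354 i547 d1797 i2403 i594 i874 (k2 i882 i1457 (k1 d1891 k0)))) (by decide +kernel)
def d2209 : PP 8 4 T 0x2001100000000000000000000000100010140000000005000001000015200005000020 := rS 0xfab53f88156585ca3c1d1672a09023d5bbc04ec762854de1f65acca41c053f522731d8440e47229e4ba7764a5cf65b1c84d3a9f4dc61a2423a8586e9338a64024c (k8 d2180 d2182 d449 d361 d28 d2203 d427 i970 (k8 i707 i2434 d461 d84 d11 d362 i267 d504 (k8 i2465 d647 d684 i2410 i712 i531 d1043 i526 (k8 i264 i519 i523 i393 i837 i915 d2206 d1050 (k8 i558 i557 i2436 i2412 i236 i1232 d2207 d1850 (k8 d1864 d1126 d371 i721 d23 i1235 i2045 d2208 (k8 d468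 d1836 d380 d43 i595 i2389 i596 i845 (k2 i883 i1502 (k1 i2044 k0))))))))) (by decide +kernel)
def d2210 : PP 8 4 T 0x2001000000000000000400000010100010140000000015000001080055200004000420 := rS 0x675cc59caab0abf1520768b252601 (k8 d2182 d28 i2410 i2434 i519 d989 d1050 d2204 (k4 d72 d2205 d468 d43 (k2 d86 i2040 k0))) (by decide +kernel)
def d2211 : PP 8 4 T 0x2001200000002000000000001080000410000000544000000001400000000024150000 := rS 0x5f2e0d87f3eb0c42c1499c4d68f2cb158e4c (k8 d2180 d1864 d1850 d92 i874 d366 d361 d28 (k8 d382 d25 d470 i1233 i719 d1842 i2044 i594 (k1 i1457 k0))) (by decide +kernel)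
def d2212 : PP 8 4 T 0x2001000000000000000000000000100010140000000005000001000015200005000020 := rS 0xfabb55308ceb967c59caae412047ab77809d8ec50aad4de1f59948380a47965966556c112273548ec2247229e4ba772bb252e7b2d8e4269d4fa6e30d1211d42c37499c5324c (k8 d2180 d449 d361 d28 d2203 d427 i970 i707 (k8 i2434 d461 d84 d11 d362 i267 d504 i2465 (k8 d647 d684 i2410 d1829 i712 i531 d1043 i526 (k8 i264 i523 i393 d989 i837 i915 d2209 d12 (k8 d47 d54 d92 i874 d2210 i558 i557 i2436 (k8 i236 i1232 i882 d2207 d1850 d1864 d1126 d371 (k8 i721 d23 i1235 i2045 i922 d2211 d468 d385 (k4 d43 d86 i2035 i2040 (k2 i1945 i1595 (k1 d1891 k0)))))))))) (by decide +kernel)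
def d2213 : PP 8 4 T 0x2001100000000000000550000000005410140800544000000801480555000064000000 := rS 0x7d5a9fc40ab2c2e51e0e8b3952671 (k8 d361 d28 d2208 d468 d1836 d380 d43 i595 (k4 i2389 i596 i845 i883 (k2 i1502 i2044 k0))) (by decide +kernel)
def d2214 : PP 8 4 T 0x2001000000000000000000000000100010140000000004000001000015200005000020 := rS 0x7d5da1584b967c59cab54796608ae412047ab77809d8ec50a9bc3ecb2907014b37e98122731d8440e47229e4ba7712b252e7b2d8e4269d4fa6e30d1211d42c3738a649801 (k8 d2182 d2180 d449 d361 d2203 d427 i970 i707 (k8 i2434 d461 d84 d11 d362 i267 d504 i2465 (k8 d647 d684 i2410 d1828 i712 i531 d1043 i526 (k8 i264 i519 i523 i393 i837 i915 d2212 d396 (k8 i1431 d1050 i558 i557 i2412 i236 i1232 d2207 (k8 d1850 d1864 d1126 d371 i721 d23 i1235 i2045 (k8 i922 d2213 d92 i874 i882 d2211 d468 d385 (k4 d43 i2035 i1867 i1945 (k2 i1442 d1891 k0))))))))) (by decide +kernel)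
def d2215 : PP 8 4 T 0x2001102000002000000000000000100010140000000005000001080015100004200420 := rS 0x1a4a2592ada2c949a6512f135a9d5ac1 (k8 d382 d1488 i330 i2420 d35 d83 d449 d28 (k4 i2410 i2434 d72 d1937 (k2 d2186 d2187 (k1 d375 k0)))) (by decide +kernel)
def d2216 : PP 8 4 T 0x2001100000000000000000000000100010140000000005000001000055110004a00420 := rS 0x11ecf2cae9651758d1554b81f0f546d27ea150ead6288582e4488ec5e07239e4ba77649ecb63909a753f18689d5269904a255e5e131ac844c (k8 d2180 i707 i2420 i636 i635 i2397 d83 i262 (k8 d449 d28 i970 i2434 d461 d11 d362 i267 (k8 d504 i2465 d647 i2410 i712 i531 d1043 i264 (k8 i519 i316 i393 i915 d2189 d382 d25 d75 (k8 d1488 i737 i1771 d2215 d442 d375 d88 d1047 (k8 d253 d2186 d459 i1293 d43 d414 i666 i2441 (k2 i1950 i874 (k1 d826 k0)))))))) (by decide +kernel)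
def d2217 : PP 8 4 T 0x1202000002000000000000000100114150000000005000001000015100004a00420 := rS 0xd21fa8964ab4881cf25d3bb24f65b8c344ea09788994e0f56a3d9a592f109824c (k8 d2180 d382 i707 i635 d92 i890 i874 d12 (k8 d5 i330 i636 d35 i262 i970 i2434 d461 (k8 i2465 d647 i2410 i712 i531 d1043 i519 i915 (k4 d72 d1937 d143 d2198 (k2 d2183 d375 k0))))) (by decide +kernel)
def d2218 : PP 8 4 T 0x2001200000002000000000000000100010140000000005000001000055100004a00420 := rS 0xbfa1ae07c3d51b49fabba7b3a2e8543b1442c1488ec5e07239e4ba773d96c72134ea7d3718689d5269904a244c0f56b2d1ecd2c978844c (k8 d2180 i707 i635 d92 i890 i874 d54 d12 (k8 d5 i636 d83 i262 d449 d28 i970 i2434 (k8 d461 d84 d11 d362 i267 d504 i2465 d647 (k8 i712 i531 d1043 i264 i519 i316 i393 i915 (k8 d382 d25 d75 i737 i1771 d1306 i2046 d971 (k8 i1950 d2217 d442 d375 d88 d1047 d253 d1648 (k2 i1457 d219 k0))))))) (by decide +kernel)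
def d2219 : PP 8 4 T 0x2001000000000000000000000000100010140000000005000001000055110004a00420 := rS 0xd333ae62ce5659955b04548bd924249825124c (k8 d2180 d83 i262 d28 i707 i2410 i316 d989 (k8 d2216 d12 d47 d54 d2218 d468 d43 d86 (k2 d787 d1515 k0))) (by decide +kernel)
def d2220 : PP 8 4 T 0x2001000000000000000000000000100010140000000004000001000015000005200420 := rS 0x102831e8756ed259bf4c02913179227303914f25d4b9ecb69b8c344843738a641289378b42c4c (k8 d2180 d427 d2214 i968 d83 i262 d449 d361 (k8 d2203 i707 i2434 d461 d84 i2465 d647 d684 (k8 i531 d1043 i526 i519 i837 i915 i635 i636 (k8 i252 d2219 d396 i1431 d442 i853 d42 d88 (k2 i735 i1769 (k1 i2045 k0)))))) (by decide +kernel)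
def d2221 : PP 8 4 T 0x1000000000000004050010000105015400105554000000401180555004004008000 := rS 0xf8865a9fc46202c2158425 (k8 d1828 i2035 i1867 i595 i596 i244 i844 i728 (k2 d1462 i2044 (k1 i1710 k0))) (by decide +kernel)
def d2222 : PP 8 4 T 0x2001000000000000000000000000100010140000000004000001000015000005000420 := rS 0x32ccb040799d728f67c59ca5330bf15a8169a987a3f7809d8ec50aa44e6a91d8445e072391542792e9dd92973d96c72134ea7d371868908ea37499c41289378b42c4c (k8 d2180 d427 d2214 i968 d83 i262 d361 d28 (k8 d2203 i970 i707 i2434 d461 d84 d11 d362 (k8 i267 d504 i2465 d647 d684 i2410 i712 i531 (k8 d1043 i2574 i526 i264 i519 i316 i523 i393 (k8 d989 i837 i915 d2220 d1850 d1864 d1126 d371 (k8 d1076 d23 d1808 d1047 i1860 d1517 d442 d396 (k8 d412 d2205 d468 d385 d380 d43 d86 d2221 (k4 d1836 d47 d54 d1515 k0)))))))) (by decide +kernel)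
def d2223 : PP 8 4 T 0x2001000000000000000000000000100010140000000004000001000015000005000020 := rS 0x3eaed0ac25cb3e2ce55aa3cb304572094c3d5bbc04ec7628543ecb59948380a378b53271489cc76111791c8aa13c974ee2564a5cf65b1c84d3a9f4dc61a2423a8586e4c (k8 d2180 d2203 d427 i970 i707 i2434 d461 d84 (k8 d11 d362 i267 d504 i2465 d647 d684 i2410 (k8 d1828 i712 i531 d1043 i2574 i526 i264 i316 (k8 i523 i393 i837 i915 d361 d449 d2214 i968 (k8 d2222 i558 i557 i2436 i2412 i236 d2207 d1850 (k8 d1864 d1126 d371 i721 d23 d1808 d692 i922 (k8 d2213 d92 i874 i882 d2211 d468 d385 d43 (k4 i2035 i1867 i1945 i1442 (k1 d1891 k0))))))))) (by decide +kernel)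
def d2224 : PP 8 4 T 0x1000000000001001000000002000000150000814105514100000000004000001400555400004000540 := rS 0xbd5fd0d96b85d9969f176730c1ec1 (k8 d382 d37 d470 i2035 d385 d96 i1028 i1950 (k4 d1586 d713 d99 i1457 (k2 i1413 d87 k0))) (by decide +kernel)
def d2225 : PP 8 4 T 0x1000000000000004050010800105015400105550100000401180555004004108000 := rS 0x1433ec3594865a9fe226e3508c4058a7a158425 (k8 d1828 i2035 i1867 d433 i595 i596 i244 d122 (k8 d2221 d411 i844 i728 d1462 i633 d356 i1710 (k2 d98 d481 k0))) (by decide +kernel)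
def d2226 : PP 8 4 T 0x1000000000000000000000000100010140000000004000001000015200005000020 := rS 0x65996080f34b08ceb947b3e2ce54089d8ec559515565330ab42afc4c825267169a44e6511d8445e0723914f25d3bb24f65b1c84d3a9f4dc61a2751b82e2a420b2a4024c (k8 d2180 d2182 d989 d427 i707 d2223 d1052 d2203 (k8 i970 i2434 d461 d84 d11 d362 i267 d504 (k8 i2465 d647 i2410 i712 i531 d1043 i526 i264 (k8 i519 i316 i523 i393 i527 i837 i915 d0 (k8 d70 i1242 i1264 i980 d1050 d2204 d1517 d396 (k8 d412 d72 d277 d1937 d1850 d1864 d1126 i1334 (k8 d2224 d468 d385 d380 d43 d86 i2035 i1828 (k4 d2225 d1836 d47 d54 (k1 d1515 k0))))))))) (by decide +kernel)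
def d2227 : PP 8 4 T 0x1000000000021001000000002000000000000000100051000005000005000001000015100004a00420 := rS 0x6d662f62c985ca050671440f43aa36923d7e6749d0d0aca43b141e21608bc0e4764a753e9b3aadcde73789784c6b2129c12ad55bf1524c (k8 d2180 d989 d450 d72 d360 i263 i330 i707 (k8 i2420 i636 i635 d35 i837 i968 d648 i970 (k8 d84 d11 d362 i2410 i264 i519 i316 d382 (k8 d25 d37 d75 i737 d1821 i1771 d98 i1367 (k8 i545 i1454 i875 d2195 d375 d42 d88 d2186 (k8 i709 i735 i1769 i1403 i2045 d391 i1991 d1306 (k2 i674 i891 k0))))))) (by decide +kernel)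
def d2228 : PP 8 4 T 0x1001000000000000000000000000100010140000000005000001000015110004a00420 := rS 0xc16583d27048b3968aab56bf01291548bc0e473c9752e7b2dc61a2752f1ac844c (k8 d2180 i707 i2420 i635 i970 i2434 d461 i2465 (k8 d647 d684 i531 d1043 i264 i519 i316 d989 (k8 i915 i263 d450 d360 d72 d277 d2227 d468 (k4 d2189 d480 d5 d54 (k2 d1331 d1821 k0))))) (by decide +kernel)
def d2229 : PP 8 4 T 0x1000000000000000000000000100010140000000004000001000015000005200020 := rS 0x2c1048186264e2fd300a4bc912293cf25d4ba6e300b54adcde2d3db44845b0b454e64c (k8 d2180 i837 d2223 d427 i2465 i707 i2434 d647 (k8 d2226 i968 d648 d989 d1052 d461 d84 d684 (k8 i531 d1043 i2463 i526 i915 i635 i252 d2228 (k8 d396 i1279 i1020 d383 d465 i2045 d1133 i1295 k0)))) (by decide +kernel)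
def d2230 : PP 8 4 T 0x1001000000002000000150000000105000100000000005000001000555100004000420 := rS 0x6467329860f6081c8e0956aadf8a9 (k8 d989 d450 d72 d360 i263 i264 i519 d382 (k4 d37 d470 d1821 i2035 (k2 d2004 i1028 k0))) (by decide +kernel)
def d2231 : PP 8 4 T 0x1000000001000000051000800145011000105044100000401100555004004908000 := rS 0xd3a1871947035108ee7547ae5274f6133e2c4c (k8 d2180 d468 d385 i2035 d433 d480 d43 d380 (k8 i970 i712 i707 d122 d2221 i633 i709 d98 (k2 d42 d475 k0))) (by decide +kernel)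
def d2232 : PP 8 4 T 0x1001000000000000000000000000105011100005000005000001100555100004910420 := rS 0xca8203d02b234a8d4ec16122126cf8b39556af5894d5afc049cca2a91781d9242099bd8ac72389cb64c (k8 d2180 i2465 d1126 i264 d1864 d1850 i968 i267 (k8 i707 i2410 i519 i316 d989 i527 i837 i263 (k8 d450 d360 d412 d455 d347 d72 d2230 d468 (k8 d385 d480 d2156 i2035 d1331 i282 i281 i1828 (k4 d1011 i1334 d2231 d1836 (k2 d1821 d54 k0)))))) (by decide +kernel)
def d2233 : PP 8 4 T 0x1000000000000000000000000100010140000000004000001000015000005000020 := rS 0x2c0bc8240c3132b338bf4c0155b9bc5a0b8a8dd2273548ec2245279e4ba973d96c72134ea7d3718689082c4c (k8 d2180 d427 i707 i2434 d461 d84 d11 d362 (k8 i267 d504 i2465 d647 d684 i531 d1043 i2463 (k8 i526 i523 i393 d989 i837 i915 d2203 d2223 (k8 d1052 d2226 i968 d648 d2229 d2232 d396 i1279 (k8 i1431 i1020 d383 d465 i2045 d901 d1133 i1295 k0))))) (by decide +kernel)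
def d2234 : PP 8 4 T 0x2001000000000000010000000000000000140000000004000001000000200005200040 := rS 0x1bc3eb32907014913991484792ea5cf65b0b26e304c (k8 d2180 d461 d84 d427 i2465 d647 d684 i531 (k8 d1043 i707 i526 i837 i915 d2204 i558 i557 (k4 i2436 i236 i1232 d2207 k0))) (by decide +kernel)
def d2235 : PP 8 4 T 0x2001100000000000044010000800105011000105440000000001500002004004800020 := rS 0xca3e9a90c8566ad4405811838eae54789484a3499c4824c (k8 d2180 d2181 d361 d28 i1651 i707 d1828 i985 (k8 d39 d1846 d1836 i1571 i595 i596 d1261 d1169 (k4 i1503 i2046 i930 i1710 (k2 i633 d1578 k0)))) (by decide +kernel)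
def d2236 : PP 8 4 T 0x2001000000000000004010000000100010140000400004000001500002204004800420 := rS 0x659960881591855afc489cca2a9039e4bac93d96d3a9f8c34484675ca4d320944b4c024c (k8 d2180 d2182 d0 d83 i262 d449 d28 i987 (k8 d1820 i707 i2434 d461 d11 d362 i2465 d647 (k8 i2410 i531 d1043 i519 d989 i527 i837 i915 (k8 d1050 d1517 d396 d1937 i1334 d2235 d47 d54 (k1 d1515 k0))))) (by decide +kernel)
def d2237 : PP 8 4 T 0x2001000000000000000000000000100010000000544000000001000002001024000000 := rS 0xfab511b951eb9499c4fea3 (k8 i1651 i720 d361 d28 i987 i985 d39 i1571 (k2 d1261 i1234 (k1 i2044 k0))) (by decide +kernel)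
def d2238 : PP 8 4 T 0x2001000000000000000000000000100010140000400004000001400002200005000020 := rS 0x42d3d9a6c2c9a4ca6b821d0bd13412056e6f29070143d67bc06e276285522730881c8a792e894aec94b9ecb6134ea7d3718689082c6738a64824c (k8 d2180 d2181 d449 d361 d1820 d427 i707 i2434 (k8 d461 d84 d11 d362 i267 i2465 d647 d684 (k8 i2410 d1829 d1828 i531 d1043 i526 i519 i523 (k8 i837 i915 d2234 d1850 d1126 d1885 d371 i988 (k8 d23 d2236 i558 i557 i1232 i721 i1235 i2045 (k8 d24 i921 d2237 d1846 d366 d47 d431 d92 (k4 i2042 i890 d389 i1603 (k1 d667 k0)))))))) (by decide +kernel)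
def d2239 : PP 8 4 T 0x1100000000000000000000000005001100005400000000001580002000004200020 := rS 0x66b3d0a6d11838eae547894bc6b438998e41 (k8 d2181 i1691 i636 i738 i2420 i635 d1828 i985 (k8 d39 d1846 d1836 i1571 i2443 i1772 d1797 i891 (k1 i2046 k0))) (by decide +kernel)
def d2240 : PP 8 4 T 0x1000000000000000000000000000000140005400000000001580002000004200020 := rS 0xc5a79b19ec3349941f0435bc522c94eb94cec74fc61a24c (k8 d2180 i2434 d461 d11 i1691 d1820 d39 d362 (k8 i2410 i915 d35 i2420 d2239 d5 d47 d431 (k4 i369 d1849 i2042 d389 (k2 d1822 d435 k0)))) (by decide +kernel)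
def d2241 : PP 8 4 T 0x2001000000000000000000000000100010140000400004000001500002100004800420 := rS 0x301966507c11646155bf15a913981d929d4fb94ceb951b144ecf49a65a60944a054c9b8c0ec7237178fc7af00a9ecb6792e84c229768909424c (k8 d2180 i2574 i707 i2434 d684 i523 i267 i531 (k8 d1043 i2465 d647 d2240 d371 d23 d27 i316 (k8 d1885 d504 i393 d461 d84 d1330 i1860 d83 (k8 i262 d1047 d449 d28 i988 d1126 d1850 i1651 (k8 i987 d1820 d39 d11 d362 i2410 i519 i837 (k8 i915 d1517 d442 d696 d396 d1937 d2235 d5 (k4 d47 d54 d1835 d802 k0))))))) (by decide +kernel)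
def d2242 : PP 8 4 T 0x2001000000000000000000000000100010140000400004000001400002000005000020 := rS 0x85a7b34d85934994d65e89c1104745b948380a409bd4c2d4c9c522731d8bd42252bb252e394ea7d37183389d9e371e8fde0153db44b6792e9082c4509844824c (k8 d2180 d2181 i523 i267 i526 d427 i707 i531 (k8 d1043 i2465 i2434 d647 d2240 d371 d27 d23 (k8 d1885 i988 d1126 d1820 d461 d84 d11 d362 (k8 d504 d684 i2410 d1829 d1828 i2574 i316 i393 (k8 i837 i915 d361 d449 d2238 d1330 i968 i1860 (k8 d2241 i558 i557 i721 d2237 i2045 d1846 d24 (k8 i921 d366 d47 d431 d92 i2042 i890 d389 (k2 i1603 d667 k0)))))))) (by decide +kernel)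
def d2243 : PP 8 4 T 0x1100000000000040010000800105015000105450000000001500012004004800020 := rS 0x651f4d48642c599ab510160460e3ab951e252128c9841 (k8 d2181 d2180 i1651 i707 d1828 i985 d39 d1846 (k8 d1836 i1571 i595 i596 d1261 d1169 d652 i1503 (k4 d1306 i930 i1710 i633 (k1 d1578 k0)))) (by decide +kernel)
def d2244 : PP 8 4 T 0x1000000000000000000000000100010140000000004000001000014200005000020 := rS 0x659960881591855afc4c825267169a44e65103b253a9f8c19d72c5138dc2a7b6896cf25d228441715181dc8e420b2a4024c (k8 d2180 d2182 d989 d427 i707 i264 i712 d2233 (k8 d2242 d1052 i523 i526 i531 d1043 i2465 i2434 (k8 d647 d2240 d1885 d1126 d1850 i987 d1820 d461 (k8 d11 d362 i2410 i519 i527 i837 i915 d0 (k8 d70 i1242 i1264 i980 d1050 d1517 d396 d1937 (k4 i1334 d2243 d47 d54 (k1 d1515 k0))))))) (by decide +kernel)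
def d2245 : PP 8 4 T 0x1001100000000000000000000000105011000005400004000001500112100004950420 := rS 0x65aca84b169abdf8090e29ca661381a8bc7d60a1926858b3356a202c08c1c75548bc0e4f72a3c4a425ca8d8a272d8f5e07f379cc9841 (k8 d2181 d2180 i837 i968 d2038 d371 d23 i2465 (k8 d1126 d1850 i1651 i987 i707 d1828 i985 d39 (k8 i2463 i519 i316 d989 d1846 d1836 i1571 i595 (k8 i596 d1261 d1169 d652 i1503 d480 d1306 d1331 (k8 d107 i929 i930 i2044 i1279 i798 d155 i709 (k8 i263 d450 i589 d42 d455 d475 d533 d98 (k1 i633 k0))))))) (by decide +kernel)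
def d2246 : PP 8 4 T 0x1001000000000000000500010011000010000000004015010001000002000004800000 := rS 0x713ac34f8235aaaca6927e144aa4f2b99d1e25211fce64c (k8 d2180 i837 d2038 i707 d1828 i985 d1820 d1829 (k8 i2463 i2464 i527 d450 d782 d412 d72 i1369 (k4 i2953 i2037 d1154 i971 (k2 i1361 d383 k0)))) (by decide +kernel)
def d2247 : PP 8 4 T 0x1000000000000000000000000100010140000000004000001000014000005000020 := rS 0x2c0bc8240c3132b338bf4c059659955b045b9bc5a0b8a85572304da7d3a398c04d2273548448e45279e4ba7764a5cf6d12116c2c4c (k8 d2180 d427 i2465 i707 i2434 d647 d684 i2410 (k8 i712 i531 d1043 i2463 i526 i264 i523 d989 (k8 i837 i915 i267 d461 d504 d362 d11 d84 (k8 d2233 i987 d2240 d2242 d1052 d2244 i968 d648 (k8 d2245 d12 d47 d54 d92 d2246 d396 i1279 (k8 i1431 i1020 d383 d465 i2045 d901 d1133 i1295 k0)))))) (by decide +kernel)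
def d2248 : PP 8 4 T 0x1100000000000000000000000080000000000000000000401000000000084800000 := rS 0x2cc44fc222a95c844c (k8 d2180 i707 d1829 i2464 i240 i241 d401 i844 (k1 d438 k0)) (by decide +kernel)
def d2249 : PP 8 4 T 0x1000000000000000000004000000541000405050000000001000000008044800000 := rS 0x1026f (k2 i969 i1770 (k1 i2045 k0)) (by decide +kernel)
def d2250 : PP 8 4 T 0x1100000000000000100000000100541000005000004000001500015200004a00440 := rS 0x32c5d9ccd479b4ceca518790a876283c42c17227d3b1841ade26b3539ac52262f3c4e6423b9d4e2ad04b4ca6ab7e0fc9801 (k8 d2182 d2180 i1423 d1050 d72 d412 d0 i1264 (k8 d1517 d70 i970 i712 i707 i837 d35 i635 (k8 i636 i252 i2420 i330 d2183 d10 i852 i736 (k8 d409 d362 d11 d2189 d382 d25 d37 d75 (k8 i737 i1771 d2249 d2248 d1835 i545 i673 i875 (k4 i891 i2046 d1306 i1029 (k1 d713 k0))))))) (by decide +kernel)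
def d2251 : PP 8 4 T 0x1000000000000000000000000000000000000000000000001000080000004110000 := rS 0x4de201 (k4 d2182 d9 i1800 d371 k0) (by decide +kernel)
def d2252 : PP 8 4 T 0x1400000000000001000000000000008000500000000100000000000000000001000000000004000000 := rS 0x1774f (k2 d96 i1950 (k1 d87 k0)) (by decide +kernel)
def d2253 : PP 8 4 T 0x1000000000000040000008000010000000000000000000001000000004044000000 := rS 0x3b0d (k2 d352 i721 (k1 d479 k0)) (by decide +kernel)
def d2254 : PP 8 4 T 0x400000000000001000000000000000404400140005101000805000000000001000415000004110560 := rS 0xa759af19c131cc628b1362b1c8e37 (k8 d2251 i264 d1864 d1850 d24 d457 d409 d364 (k4 i266 i2035 d2252 i1413 (k2 i1984 d1011 k0))) (by decide +kernel)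
def d2255 : PP 8 4 T 0x1100000002000000400000000105541000005040000000001000415200004910460 := rS 0x3b0d4020d6e6f5f87e86a26183d82a138ab412d329abd56c72389cb63d58bf0024c (k8 d2180 d2182 d1050 d455 d1361 i2465 d1126 i264 (k8 d1864 d72 d347 d412 d0 i1264 d1517 d70 (k8 i2574 d382 d37 d470 d1835 d469 d2248 i1719 (k4 i969 d2253 d2254 i2045 (k2 d465 i1235 (k1 d479 k0)))))) (by decide +kernel)
def d2256 : PP 8 4 T 0x1100000001000000010000000005001200005500000000001480015004004000000 := rS 0x10acd439ac405847b3c1d16 (k8 d468 d1836 d385 d380 i595 i596 i1964 i930 (k2 i729 i1503 (k1 i2046 k0))) (by decide +kernel)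
def d2257 : PP 8 4 T 0x1000000000000000954000000015551000105504005000001400455204004004000 := rS 0xfeb55caee2e64670e63113412dc3e73699c5267d28a3cce4c (k8 d2180 i545 i875 i527 i1327 i1242 d70 d0 (k8 i837 i1303 d2253 i2045 d24 d409 d364 i2035 (k4 d2004 d385 i1950 i1026 (k2 d1114 i926 (k1 i2044 k0))))) (by decide +kernel)
def d2258 : PP 8 4 T 0x1000000000000008804000000000000000004500004100001000010000105110020 := rS 0x44cbef03504d9a232c99072858b8acb67912b24841662a3cce4c (k8 d2180 i545 i875 d1850 d427 i707 i2410 d1828 (k8 d1043 i2465 i2610 d385 i1870 i1976 d713 d652 (k8 d1612 d1107 i266 i1029 d371 i629 d910 d418 k0))) (by decide +kernel)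
def d2259 : PP 8 4 T 0x1100000000000000000000000105110040000000004000001000015200005000420 := rS 0x7e2c2d61b11372150e8114c4a3238679f686ca6183c42e439944762b50954ee252ba30ea5362b1c4e370aa6cc2fc3d96d2ed164908f25d228588e07488449801 (k8 d2182 d2180 i523 i915 i519 i264 d427 i526 (k8 i531 d1043 i707 i2410 i2434 d684 i2465 d647 (k8 d1050 d396 d1141 d2250 d2251 d1126 d1864 d1850 (k8 d412 i970 d2247 d1829 d1828 i712 i2464 i2574 (k8 i2610 i393 i527 i837 d2256 d25 d37 d470 (k8 d2255 d98 i1327 d2258 i2035 d364 d409 d386 (k8 d46 d51 d53 d2257 d505 d356 i1400 d438 (k2 d481 i844 k0)))))))) (by decide +kernel)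
def d2260 : PP 8 4 T 0x1100000000000000150000000102541200005000004000001400015204005000440 := rS 0xb73787cfa8e5108842c142a05062966b2dc80f8930cd0873345e327315a84b625211d42c7156825a65355bf0024c (k8 d2180 d2182 d1050 d72 d412 d0 i1264 d1517 (k8 d70 d427 i970 i707 d1828 i2465 i2574 i2610 (k8 i837 d362 d452 i1820 i1645 i1819 i1906 d409 (k8 d528 d468 i545 i1830 d386 d24 d46 d53 (k8 d382 d25 i2032 d1835 d1612 i1594 d2248 i1135 (k2 d2253 i2045 k0)))))) (by decide +kernel)
def d2261 : PP 8 4 T 0x1100000000000000000000000100110040000000004000001000015200005000420 := rS 0x44186212cb910e5f1483cd712429b0d34f67c653c9d13b1d8a15488448e4515954f25d1295d92973d96d189b30bf00ed1210589801 (k8 d2182 d2180 d427 i707 i2434 i519 d1050 d396 (k8 d1141 d2247 i2465 d647 d684 i2410 d1829 d1828 (k8 i531 d1043 i2464 i2610 i526 i264 i523 i915 (k8 d2250 d1850 d1864 d1126 d2260 d2259 d11 i133 (k8 d89 i1566 i1036 i1606 d409 i1964 d122 d386 (k8 d10 d51 d1836 i669 d25 d470 d438 d505 k0)))))) (by decide +kernel)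
def d2262 : PP 8 4 T 0x1200000002000001000000014005001000005100000000001000000008085000540 := rS 0x8b8890a875131442c107a3cb24c (k8 d2180 d92 i874 d5 d382 d25 d75 d143 (k4 i737 i1771 i240 d1306 (k1 d1612 k0))) (by decide +kernel)
def d2263 : PP 8 4 T 0x8001200000000000000100000015000014000000000005000001000000000004000000 := rS 0x33ae4cacb (k4 d54 d47 d43 d86 (k1 i2040 k0)) (by decide +kernel)
def d2264 : PP 8 4 T 0x1200000000000000000000000000010000000000004000001000015200005000420 := rS 0x7e0e07cfb0d51085831011ad5c91747965960f28aa54255279dcaec9211d42c7149ab48e0969984a6ab7e01c9801 (k8 d2182 d2180 i519 d1050 d72 d412 d396 d0 (k8 i1264 i264 d1517 i1242 d70 d427 i970 i707 (k8 i2410 d1829 i712 i2463 i2464 i2574 d989 i527 (k8 d5 d54 d92 i874 d2263 d468 d1114 d1612 (k8 d422 d382 d25 d143 d1154 d67 i240 d479 (k2 i2037 i719 k0)))))) (by decide +kernel)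
def d2265 : PP 8 4 T 0x1000000000000000000000000100010040000000004000001000015200005000420 := rS 0x2a36532620a11 (k4 i523 d2264 d2261 i981 (k2 i980 i330 (k1 d2251 k0))) (by decide +kernel)
def d2266 : PP 8 4 T 0x1000000000000000000000000100010040000000004000001000015200005000020 := rS 0x13788f100835babc4e990aa6cdf140facca41c051c5a69139aa4220722a84f25d4b9eda2422d859184c (k8 d2180 d2247 d427 i2465 i707 i2434 d647 d684 (k8 i531 d1043 i2574 i526 i519 i523 d989 i837 (k8 i915 d0 d70 d2265 i558 i557 i2436 i236 (k8 d1052 i1232 i1034 d2207 d449 d1126 i1924 d2253 (k4 i922 i2045 i1235 d23 (k2 i1802 d371 k0)))))) (by decide +kernel)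
def d2267 : PP 8 4 T 0x2001102000002000000000000000100151000005000405800001000015108004800420 := rS 0x69a79b58c3e4107da6a25baaca67350b24849338a25371889ab5824c (k8 d2180 d382 d1488 d10 d409 d84 d83 d361 (k8 d28 i707 i2410 i2574 i837 d412 d72 i852 (k8 d2186 d375 d2248 d689 i736 i406 d223 d381 (k2 d228 d467 k0)))) (by decide +kernel)
def d2268 : PP 8 4 T 0x2001100000002000000000000000100110040000000405800001000015108004800420 := rS 0x11ecf2cae964665b1962e8141aa9703d0ea8da4fd569cc5e073bb252e7537a4ce20944a753718899e4ba7b68908b69160a1c424c (k8 d2180 d25 i737 d382 i915 i2465 i707 i2434 (k8 d647 i531 d1043 d10 d409 d84 d362 d83 (k8 i262 d361 d28 i968 i970 d684 i2410 i712 (k8 i519 i316 i837 d1488 d2267 d442 d375 d42 (k8 d88 d787 d2186 i735 i1769 d43 i1026 i2045 (k4 d354 i853 i666 i2441 (k2 i1950 i874 (k1 d1065 k0)))))))) (by decide +kernel)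
def d2269 : PP 8 4 T 0x2001100000000000000000000000100110040000000004000001000015000005200420 := rS 0x81418f43ab7692cdfa607226e3113358a44c5e489cc0e47229e4ba973db44845b3a9bc5a1638825124c (k8 d2180 d83 i262 d361 d427 d2266 i968 i970 (k8 i2465 i707 i2434 d647 d684 i531 d1043 i526 (k8 i264 i519 i837 i915 i635 i636 i252 i2420 (k8 d10 d409 d84 d2189 d2268 d396 i1431 d442 (k4 i853 d42 d88 i735 (k2 i1769 i2045 k0)))))) (by decide +kernel)
def d2270 : PP 8 4 T 0x2001000000000000000000004000010541000405044000000001005440500004000000 := rS 0x233131c2014e71 (k4 d361 d692 i2045 d1330 (k2 d46 d364 (k1 d409 k0))) (by decide +kernel)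
def d2271 : PP 8 4 T 0x2001102000002000000000000000100110040000000005000001000015000005000420 := rS 0x673293e394ec6226825bafc3f4369a887aab5894d22731d8bc0ea13c974eec94b9ecea6f57a3126c56391c4e5b1f82512370a84536d12105842c356b045a4c (k8 d2180 d2266 d382 d1488 d470 d25 d427 i707 (k8 i2434 d1141 i523 d2269 d2251 d83 i262 d1076 (k8 i2465 d1126 i264 d1864 d1850 d28 d2247 i1924 (k8 i968 i970 d647 d684 i2410 i712 i531 d1043 (k8 i2574 i519 i316 i393 i837 i915 d412 d455 (k8 d72 d1361 d2186 d375 d469 d2248 i1719 d2253 (k8 d2270 d24 d409 d362 d364 d11 d2254 i2035 (k1 d2258 k0)))))))) (by decide +kernel)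
def d2272 : PP 8 4 T 0x2001001000000000000000000040000100040000000005000001004040104004800420 := rS 0x2cd6345292da1a832f8a625191c0f5a49139944762f038ad424f3c9752e7b2d9bc12894db44844c (k8 d2180 i707 i2434 d1141 d83 i262 i968 i2465 (k8 d647 d684 i531 d1043 i2463 i2574 i2610 i519 (k8 i316 i393 i527 i837 i915 d442 d88 d1117 (k8 d364 d409 d386 d10 d24 d1204 d2270 d399 (k4 d424 i1823 i661 d414 k0))))) (by decide +kernel)
def d2273 : PP 8 4 T 0x1100000001000000010000000000001200005500000000001480015004004000000 := rS 0x9e36a741d16 (k4 d468 d1836 d452 i2443 (k2 d2256 i1036 k0)) (by decide +kernel)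
def d2274 : PP 8 4 T 0x2001100000000000000000000000100110040000000005000001000015000005000420 := rS 0xfc16abc7e09448ddc827628542275461eda25b3b9e4ba420b11d224c (k8 d2180 i915 i264 d427 i707 i531 d1043 i712 (k8 i2465 i2434 d647 d2247 i970 i523 d2269 d1850 (k8 d1126 d2273 d2251 d83 i262 d1076 i1924 d2266 (k2 d2272 d2271 k0)))) (by decide +kernel)
def d2275 : PP 8 4 T 0x1001000000000080000000000010801200005000000000141004000044004000000 := rS 0x5386a0cbe29892ca323d (k8 d88 d84 i1034 d409 d386 d10 d24 d1204 (k2 i661 d399 k0)) (by decide +kernel)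
def d2276 : PP 8 4 T 0x2001100000000000000000000000100110040000000004000001000015000005000420 := rS 0x2c68ab641c4a323859a6c7aa7693f4c0371f89c2a0944a44e6511d8445e0715a849e792ea5cf6d12116cde2d0b2bd184c (k8 d2180 d2247 i1924 d427 d2266 i968 i2465 i707 (k8 i2434 d647 d684 i531 d1043 i2463 i2574 i2610 (k8 i519 i316 i523 i393 i527 i837 i915 d83 (k8 i262 d2269 d1126 d1076 d2251 d2274 d396 d442 (k8 d359 d88 d2275 i1431 d1330 d364 d409 d24 (k4 d2270 d424 i1823 d414 k0)))))) (by decide +kernel)
def d2277 : PP 8 4 T 0x1001000000002000000000000000100051000005000005000001000015100004a00420 := rS 0x1962ece66a3cda67652cd56ada23f012a90391ceec93a9ad3a9f8c44cbcc107a1c428562898844c (k8 d2180 i707 i636 d75 i1771 d25 i737 d37 (k8 d382 i635 d10 d409 d11 d362 i2420 i970 (k8 i2410 i712 i264 i519 d989 i263 d450 d2227 (k8 d360 d72 d355 d1821 i545 i673 i875 i891 (k4 i2046 d1306 i1029 d713 k0))))) (by decide +kernel)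
def d2278 : PP 8 4 T 0x1001100000000000000000000000100151000005000004000001100015100004a00420 := rS 0x1608240c30e2fd303913718899ac525e2393c84755b9bce64c (k8 d2180 i837 i968 d648 i970 i707 i2463 i264 (k8 i635 i252 i2420 d10 d409 d84 d2189 d2277 (k4 d396 i1279 d383 d465 (k2 i2045 d1133 (k1 i1295 k0))))) (by decide +kernel)
def d2279 : PP 8 4 T 0x11001000000000000000000004140000500040005000004040441000000000004000000 := rS 0x4097d67122ea44a24c (k8 d2180 i527 i915 i531 d409 d1008 d10 d46 (k1 d341 k0)) (by decide +kernel)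
def d2280 : PP 8 4 T 0x1001000000000000000005000000100100240000000005000001000015100105104420 := rS 0x9f1cc613acf33b2956b129ab5f89b04aa47607279e4ba773aabd6e7b68908b66f0b1cd8ac7238dc224c (k8 d2180 i523 d2251 i264 d1864 d1850 i837 d427 (k8 i968 i2465 i707 i2434 d647 d648 i1924 i970 (k8 i712 i531 d1043 i2463 i519 i393 d989 i263 (k8 d1141 d450 d360 d412 d455 d72 d1821 i545 (k4 d2258 i1820 d2279 d364 (k2 d11 i2035 k0)))))) (by decide +kernel)
def d2281 : PP 8 4 T 0x1001000000000000000000000000010801200005000002000141000000544004110020 := rS 0x7ed204a2564fd (k4 d396 i1034 i2915 i262 (k2 d417 d1076 (k1 d2275 k0))) (by decide +kernel)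
def d2282 : PP 8 4 T 0x1100000000000000000000000100110040000000004000001000015000005000420 := rS 0xb1a2a09669b40c30e2fd3030c1e2160b904ec50aade2aaf489cca2111791c8a2b5093cf25d3ba5cf6d12116d1875378b42c4c (k8 d2180 d427 d2266 i968 i970 d2247 i2465 i707 (k8 i2434 d647 d684 i712 i531 d1043 i2463 i2574 (k8 i2610 i526 i264 i316 i523 i527 i837 i915 (k8 i1924 d2276 d648 d2278 d1850 d1126 d2273 d382 (k8 d25 d37 d470 d2280 d396 i1279 d383 d465 (k4 d2281 i1431 i2045 d457 (k2 i1295 d414 k0))))))) (by decide +kernel)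
def d2283 : PP 8 4 T 0x1001100000000000000000000000100051000005000005000001100015100004a00420 := rS 0x23313729ac525e23908ea4c (k8 d2180 i970 i707 i264 i635 i252 i2420 d2277 (k2 d10 d2189 (k1 d409 k0))) (by decide +kernel)
def d2284 : PP 8 4 T 0x1100000000000000000000000100010040000000005000001000015000005000420 := rS 0x1a69ecc42a1e25191c1ad1e9d36b3cce936530c1e2160b906e2763b142aab56bf01291548ec220723914f25d3bb252e7b68908b68c3a8585b154faf5304c (k8 d2180 d2282 i1991 i1112 d449 d2266 d427 i970 (k8 d2247 i2465 i707 i2434 d647 d684 i2410 i712 (k8 i531 d1043 i526 i264 i519 i523 i393 d989 (k8 i915 i263 d450 d360 d72 d2283 d1850 d1864 (k8 d1126 d2251 d2273 d382 d25 d37 d470 d1821 (k8 i1367 i545 d2258 i674 i1943 i875 i1964 i2035 (k8 d364 d409 d51 d53 i2046 d73 i1830 d467 k0))))))) (by decide +kernel)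
def d2285 : PP 8 4 T 0x1100000000000000000000000100010040000000004000001000015000005000420 := rS 0x14e1d0422052d341c48be270f94c7e15862cd5c717e9816e3d40a6e2a982e9cc222f038ad424f3db44845b378b42c4c (k8 d2180 d427 d2266 i968 i2465 i707 i2434 d647 (k8 i2463 i2574 i2610 i519 i316 i523 i837 i531 (k8 d2282 d449 i154 i1864 i1786 d648 d2284 d396 (k8 i1279 i1021 i1431 d383 i587 d197 d369 d476 (k8 d1126 i589 d418 d1355 d1682 d386 d417 d442 (k2 i1342 i2141 (k1 i2031 k0))))))) (by decide +kernel)
def d2286 : PP 8 4 T 0x2001202000000000000000000000105551000005000005000001000015100005200420 := rS 0x821f87dc9175baaca6735481ceec93aab51e933882512266696631132f1082c4c (k8 d2180 d427 i707 i635 d10 d409 d92 i890 (k8 i636 d83 i262 d361 d28 i874 d12 i970 (k8 i2410 i712 i519 d989 i837 d412 d72 i852 (k4 d2263 d468 d2262 d2198 (k2 d2249 i736 k0))))) (by decide +kernel)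
def d2287 : PP 8 4 T 0x2001200000000000000000000000105551000005000005000001000415100005200420 := rS 0x2150ecf5ed156cbf3e8f90283a1ae06e3d0eb0546d27ec619b13538e44c5e398bc0e473bb448475378581ead65a3cb29338825124c (k8 d2180 d83 i262 d361 d28 d92 i874 d54 (k8 d12 d5 d427 i968 i970 i707 i2434 i712 (k8 i264 i519 i316 i837 i635 i636 i293 i330 (k8 d10 i890 d409 d2286 d442 d375 d384 d42 (k8 d88 d2200 d787 d1648 i735 i1769 d1330 i1329 (k8 i1457 i2045 d459 i1411 d2252 i857 i1935 i2046 k0)))))) (by decide +kernel)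
def d2288 : PP 8 4 T 0x2001000000000000000000000000100110040000000005000001000015000005000420 := rS 0xe1f83ed33ec3544c18808d6ae48baaca6fc1f8dc4e154da44a2a91d8440ea12a93cf25d3b95d92973db44845b3a8585a0f56b2d3e654e9a51e59822bd189338825124c (k8 d2180 d83 i262 d361 d28 d2247 i1924 d2285 (k8 d92 i874 d431 i1819 d47 i1035 d54 d12 (k8 d5 d2266 d427 i970 i2465 i707 i2434 d647 (k8 d684 i2410 d1829 i712 i531 d1043 i2463 i2464 (k8 i2574 i519 i523 i393 d989 i527 i915 d1141 (k8 d2287 d1126 d2251 d1076 d2272 d412 d72 d2263 (k8 d468 d1114 d1612 d422 d382 d143 d1154 d67 (k4 d375 i240 i2037 d479 (k1 d1753 k0))))))))) (by decide +kernel)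
def d2289 : PP 8 4 T 0x400000000002001000000000000090400400018105150440000040000000001400415500004a04140 := rS 0x7cbb1bb3a3087898e44c5e211c69e913c9759a7b2d885c8858845d7093449d4ee4c (k8 d2180 i712 i970 d83 d28 d787 d43 d422 (k8 d387 d468 d25 i2465 d647 d1107 i531 d1043 (k8 i915 d971 d361 i707 i635 i636 i293 d10 (k4 i737 d409 i2046 d2200 (k2 i1950 d1075 (k1 d219 k0)))))) (by decide +kernel)
def d2290 : PP 8 4 T 0x2001000000000000000000000000100110040000000004000001000015000005000420 := rS 0x1634559ad9363f1b89c2a832908446e45fad4fb175550d703d60a8da4fd300251293489cca23b088bc0e4715a849e792e8952e7b68908b675378b42c0f56b2d3e654e9a51e59822bd184c (k8 d2180 d2247 i1924 d2285 d92 i874 d431 i1819 (k8 d47 i1035 d54 d12 d5 d427 d2266 i968 (k8 i970 i2465 i707 i2434 d647 d684 d1828 i531 (k8 d1043 i2463 i2574 i2610 i264 i519 i316 i523 (k8 i393 i527 i837 i915 d28 d83 i262 d2288 (k8 d396 d442 d375 d384 d88 d787 d1648 d1835 (k8 d43 i1329 d279 i1722 d468 d1612 d25 d1469 (k8 i922 d2289 d1126 d2251 d1076 d2275 d2270 i1431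 (k2 d424 i1823 (k1 d414 k0)))))))))) (by decide +kernel)
def d2291 : PP 8 4 T 0x1001000000000000000002000000000000000000000000000001000001500004000000 := rS 0x112d3 (k2 d384 i1345 (k1 d417 k0)) (by decide +kernel)
def d2292 : PP 8 4 T 0x1001000000000000000401000010100000000000000005000001000004100004004420 := rS 0x154fc04aa40e47 (k4 i264 i519 d989 i263 (k2 d450 d1821 (k1 d72 k0))) (by decide +kernel)
def d2293 : PP 8 4 T 0x1001000000000000000000000000000141000005044002800041000000000004000000 := rS 0x162824dc6226b77ea061871 (k8 i1279 d383 d465 d396 d648 d10 d409 d84 (k2 i2045 i1295 (k1 d1133 k0))) (by decide +kernel)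
def d2294 : PP 8 4 T 0x1000000000000000000000000100110040000000004000001000015000005000420 := rS 0x13a682a832fa061871303056f15489cca211178ad424f3c9752e7b68908b68c378b42c0f56b2e084c (k8 d2180 d2285 d54 d12 d5 d427 d2266 i968 (k8 d2247 i2465 i707 i2434 d647 d684 i531 d1043 (k8 i2463 i2574 i2610 i316 i523 i527 i837 i915 (k8 d2290 d648 d2291 d2292 i1279 d383 d465 d2293 (k4 d1355 i635 i2045 d1126 (k1 d2281 k0)))))) (by decide +kernel)
def d2295 : PP 8 4 T 0x1000000000000000000000000100010040000000004000001000015000005000420 := rS 0x29c3a08440a5a6838917c4e1f298fc2b0c59ab8e2fd303056e3d40a6e2a9865ab41f042e9cc222f038ad424f3db44845b378b42c4c (k8 d2180 d427 d2266 i968 i2465 i707 i2434 d647 (k8 i2463 i2574 i2610 i519 i316 i523 i837 i531 (k8 d2285 d5 d12 d54 d2294 d449 i154 i1864 (k8 i1786 d648 d2291 d2292 d396 i1279 i1021 i1431 (k8 d383 i587 d197 d369 d476 d1126 i589 d418 (k8 d1355 d1682 d386 d417 d442 i1342 i2141 i2031 k0)))))) (by decide +kernel)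
def d2296 : PP 8 4 T 0x1000000000000000000000000100010040000000004000001000015000005000020 := rS 0x4de23c41add5e3f1b89d32154dc503eb329070146f16a44e6a91d8445e0722a84f25d4b9eda2422d859184c (k8 d2180 d2247 d427 i2465 i707 i2434 d647 d684 (k8 i531 d1043 i2574 i526 i519 i316 i523 i393 (k8 d989 i837 i915 d2266 i968 d2295 i558 i557 (k8 i2436 i236 d1052 i1034 d2207 d449 d1126 d2251 (k8 i400 i1924 i721 i922 d2270 d23 i1802 d371 k0))))) (by decide +kernel)
def d2297 : PP 8 4 T 0x1100000000000000000000000001001000005400000000001580012000004200020 := rS 0x66c590a6d2c08c1c7572a3c4a8763a7e31132f0989841 (k8 d2181 d2180 i636 i635 d10 d409 d11 i1691 (k8 i738 d1828 i985 d39 d1846 d1836 i1571 i595 (k4 i2443 i1772 d652 i891 (k1 d1306 k0)))) (by decide +kernel)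
def d2298 : PP 8 4 T 0x1200000000000000100010015000014000000000045000001000000000004000000 := rS 0x19665 (k2 d47 d54 (k1 i2040 k0)) (by decide +kernel)
def d2299 : PP 8 4 T 0x1100000000000000000000000000001200005400000040001580012000004010020 := rS 0x35a199e854fc599a3713b14406d2c08c2a0e3ab951e254e99c9841 (k8 d2181 d2180 d1820 i1820 d1828 i985 d39 d1846 (k8 d1836 d2297 i1571 i595 i2443 i596 d1850 d1126 (k8 d2251 d1169 d652 i1036 i1503 i988 d1306 i1964 (k1 i930 k0)))) (by decide +kernel)
def d2300 : PP 8 4 T 0x1002000000000000500010010000014000000000054000001000000000004000000 := rS 0x60 (k2 d782 d396 k0) (by decide +kernel)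
def d2301 : PP 8 4 T 0x1000000000000000500010010000010000000000054000001000004200004000440 := rS 0x3f12601 (k4 d2182 i1242 d1050 d2300 k0) (by decide +kernel)
def d2302 : PP 8 4 T 0x1000000000000000000000008005541000005454000010001081002000014204000 := rS 0xa71b0e8b242ad99e8141a1d9b1361898bc8f12b1cfa57 (k8 d1829 i1595 i1691 d1828 i985 i635 i636 i369 (k8 d10 i890 i738 i735 i1769 i989 i2045 i1935 (k4 i853 i2046 i665 d667 (k1 d389 k0)))) (by decide +kernel)
def d2303 : PP 8 4 T 0x1200000000000000000010000000010240000400005000001000002100004800420 := rS 0x7e37138547a1d55349fa9938a4e28af4d825227354844f25d64a5cf6d12116d3a6707ab596594f994de4c (k8 d2180 i968 d47 i1035 d92 d54 d12 d5 (k8 d1820 i1820 i2465 i707 i2434 d647 d684 i2410 (k8 i531 d1043 i523 d989 i837 i915 i263 d1141 (k8 i1925 d2246 d28 d361 d449 d2300 d1515 d2298 (k4 d42 d88 d2302 d1126 (k2 d2251 d1076 (k1 d2272 k0))))))) (by decide +kernel)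
def d2304 : PP 8 4 T 0x1000000000000000400000010145041000005444002010041480002000004204460 := rS 0x550f43ac16902536898c45226992f2bdfa71 (k8 i1279 d396 i2397 i635 i1021 d10 d2293 d409 (k8 d83 d84 i262 d442 d384 d42 d88 d1835 (k1 d2302 k0))) (by decide +kernel)
def d2305 : PP 8 4 T 0x2001000000000000000000000000010141200005004006040041000400140004110420 := rS 0x58d156c838946566384d8f54e3f690251273288bc0efd138dd5e4c (k8 d2180 i1924 d2251 d1126 d396 i519 i316 i527 (k8 i837 d83 i262 d442 d1076 d359 d88 d2275 (k8 i2034 i1431 d364 d409 d24 d2270 d424 i1823 (k1 d414 k0)))) (by decide +kernel)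
def d2306 : PP 8 4 T 0x1000000000000000000000000000100240000000006000001000000100004900420 := rS 0x20d029b2fc316f15489cca23b178ad42792ea5cf6d1211bce24f13844b64c (k8 d2180 i2465 i523 d1126 i2463 i1279 i968 i707 (k8 i2434 d647 d684 i531 d1043 i2574 i2610 i316 (k8 i393 i527 i837 i915 d2305 d648 d383 d2293 (k4 d2281 d465 d1355 i2045 k0)))) (by decide +kernel)
def d2307 : PP 8 4 T 0x1200000000000000000000000100010240000000004000001000006000004800420 := rS 0x2d284ab6997c7e53599f5830c3fab937154c0552671301bc5a9139944222f0391c56a12a93cf25d3b95d92973db44845b72ae5469d3383d5acb2ca7cca4c (k8 d2180 d47 i1035 d92 d54 d12 d5 d1820 (k8 i1820 i1651 i987 d39 i2465 i707 i2434 d647 (k8 d684 i2410 d1829 i712 i531 d1043 i2463 i2464 (k8 i2574 i2610 i264 i519 i316 i523 i527 i837 (k8 i915 d2301 i968 d2303 i1279 i1281 d2304 d2306 (k8 d449 i154 i1021 d2038 d383 d1331 d107 i1431 (k8 d369 d197 i589 d1682 d696 d475 i2037 d55 k0))))))) (by decide +kernel)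
def d2308 : PP 8 4 T 0x1000000000000000000000000100010040000000004000001000014000005000020 := rS 0x4de23c4020d6eaf13a642a9b389be281f59948380a820c1189139aa4220723914f25d3ba5cf6d12116c2c4c (k8 d2180 d427 i2465 i707 i2434 d647 d684 i712 (k8 i531 d1043 i526 i264 i519 i523 d989 i837 (k8 i915 d2247 d2296 d2299 d2307 i558 i557 i2436 (k8 i236 d1052 i1232 i798 i1034 d2207 d449 d1126 (k8 i1924 i721 i922 i2045 i1235 d23 i1802 d371 k0))))) (by decide +kernel)
def d2309 : PP 8 4 T 0x1000000000000000000000000100010040000000004000001000004000005000020 := rS 0x1c661a1082c4c (k4 d2180 d427 i707 d2308 (k2 i355 i354 (k1 i2365 k0))) (by decide +kernel)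
def d2310 : PP 8 4 T 0x1100000000000000400000014000000000050000000015541000000000004000000 := rS 0x16910 (k2 d438 i2037 (k1 d349 k0)) (by decide +kernel)
def d2311 : PP 8 4 T 0x400000000000011100001000000000410004554000000400050400000150541000551040006000000 := rS 0x204be85632d19e7488958aa9d4fc60824c (k8 d2180 d2181 d426 d11 d362 i791 d2310 d57 (k8 i530 d541 d481 d1688 i1602 i650 i1402 d341 k0)) (by decide +kernel)
def d2312 : PP 8 4 T 0x20001100000000000000014000000000000000000000400042001000555000004000000 := rS 0x69a7b199e6d322753e4c (k8 d2180 d11 d362 i792 i1698 i1029 i2035 d381 (k2 d228 d467 k0)) (by decide +kernel)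
def d2313 : PP 8 4 T 0x11100001000000000400004554100000400050000000151541400551040006004540 := rS 0x3bd0caca260b15c84b (k8 d2179 d1836 d75 d382 d1835 d2310 d469 i1628 (k1 d2311 k0)) (by decide +kernel)
def d2314 : PP 8 4 T 0x1000000000000000000004540000000000000000000540541000000000004000000 := rS 0x10112 (k2 d418 d341 (k1 d46 k0)) (by decide +kernel)
def d2315 : PP 8 4 T 0x1100000000000000000000000100000400000000004140001600555240006204540 := rS 0x323398e238819caeca2a9fcfac510b058659723255b0d372ad3a9f8c1ac505e598fde2b75387162fc279c55ed3299449801 (k8 d2182 d2180 i527 i564 d0 d1892 d70 i789 (k8 d1050 d455 i1040 i330 i722 d35 i1424 d2183 (k8 d2314 i644 i2422 d426 d11 d362 d72 i1039 (k8 d356 d1517 i2411 d1836 i603 i369 d382 d25 (k8 d75 i1233 i719 d2312 d2313 i2352 i545 d438 (k4 d401 i258 i2035 d2014 (k1 i1029 k0))))))) (by decide +kernel)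
def d2316 : PP 8 4 T 0x1100000000000000020000000000000000000000000104001040000020004000000 := rS 0x1604084 (k4 i1841 i1842 d1014 i723 k0) (by decide +kernel)
def d2317 : PP 8 4 T 0x1100000000000000000000000100000040000000004040001000055200006200420 := rS 0x19659119b184c55aae4aac751c58ce5772838506b2f27d66b78c29d18f12e944762b12a851e43648e426d1299b8381f0b8fd5e4456b4c8e09279c562ab7e01c024c (k8 d2180 d2182 i519 d1050 d72 d455 d70 i789 (k8 i2105 i264 d0 d1517 i228 d1892 i1424 i8 (k8 i1304 i1040 i1039 i564 i2435 i2107 d504 i2411 (k8 i518 d595 i2186 i2209 i2230 i393 i527 i531 (k8 d35 d2204 i330 d426 i722 d2183 d11 d2314 (k8 i2422 i644 d2315 d37 i502 i542 d528 i322 (k8 i409 d118 d43 i1399 d2316 d119 i370 i2129 (k2 i2445 i673 (k1 d1119 k0))))))))) (by decide +kernel)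
def d2318 : PP 8 4 T 0x101000000000000000451000814100500000054008000110001400551000006004540 := rS 0x2753e745c33d68bfa1a897a5b86d14824c (k8 d2180 d2181 d355 d356 i793 i1413 d1835 d469 (k8 i1719 d481 d2252 i1399 i1400 i1189 i1592 d1688 k0)) (by decide +kernel)
def d2319 : PP 8 4 T 0x1100000000000000050000814100500005004008000100001600551055026004540 := rS 0x1516857a1b2a227f3eb0c42c12cb921a4c (k8 d2180 d356 d1836 i603 d382 d25 d470 i1233 (k8 i719 d505 d2318 d98 i2352 d481 d438 i2550 k0)) (by decide +kernel)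
def d2320 : PP 8 4 T 0x1100000000000000000000000100000040005000004000001000015200006000420 := rS 0x4651a9e3a9a84669a7b099e6d8b3941c85438a565125bbc0be2763b142a9b55ac4c24f56abdf81c37264e2d32ea44a23b0881c8e0915895923909b44a6442d8dc9801 (k8 d2182 d2180 i1043 i793 i228 i564 i2435 i2107 (k8 d504 i2411 i2209 i2230 i2105 i264 i519 i523 (k8 i393 i527 i915 i531 d0 d70 i2716 i1039 (k8 i1040 d1050 d1892 d1517 i789 d396 d455 d72 (k8 d1141 d2317 d1850 d1864 d1126 i643 d371 i721 (k8 d418 d2314 d386 d51 d53 d2319 d37 d528 (k8 i667 d385 d631 d433 i1828 i250 d122 d124 (k4 d1463 i1964 d11 d461 k0)))))))) (by decide +kernel)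
def d2321 : PP 8 4 T 0x1100000000000000000000000080000000000000400000001008000000004000000 := rS 0x34d3cdac6 (k4 i406 d223 d381 d228 (k1 d467 k0)) (by decide +kernel)
def d2322 : PP 8 4 T 0x1102000000000040400004000100040000000000004140001000555100006204420 := rS 0x1fe1a1c400a0bcb31e0fd327d44c5144511781c122b50a3ca6af53a6cb24460884aac57211cd6c38c3c55a4f30ac5564c (k8 d2180 d72 d455 d396 d395 d360 d35 d426 (k8 i369 i627 i264 d1836 d75 d2312 d25 d382 (k8 i228 i603 d84 i330 i587 i564 d595 i2186 (k8 i2230 i2105 i519 i316 i527 d1835 d2292 d176 (k8 i1594 d449 d2321 i2034 d2183 d2314 i644 i1839 (k4 i1840 d465 i719 d2313 k0)))))) (by decide +kernel)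
def d2323 : PP 8 4 T 0x1102000000000040000004800100010040005000004000001000015000004204420 := rS 0x522789b199e868b2e62a8836a8d7a3ea2a445e07048ad1ea7608855a6155d0d26c95fa14ea238815d942d4b974b25562b908e6b61c61e2372d8e426d122060764c (k8 d2180 i393 d2309 i228 i2435 i2107 d504 i793 (k8 i1043 d35 d426 i369 i627 i264 d1836 d75 (k8 d2312 i603 i531 d684 d2320 d2322 i2352 d438 (k8 d401 d400 d1014 i1454 i2411 i1367 d98 d72 (k8 d396 d360 d25 d382 i330 d595 i2230 i2105 (k8 i519 i316 i915 d355 d2183 i1411 d2321 i674 (k8 d2186 d83 d494 d1586 d2195 d385 d631 d51 (k2 i737 i258 (k1 d419 k0))))))))) (by decide +kernel)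
def d2324 : PP 8 4 T 0x1102000000000040000004000100010040005000004000001000015000004204420 := rS 0x1919cc71417966238815d945d28b252e5316abd3a9f2c9558ae4239ad8718788dcb63909b4488181d93d624c (k8 d2180 d455 d395 i393 d2309 i228 i2435 i2107 (k8 d504 i793 i1043 d35 d426 i369 i627 i264 (k8 d1836 d75 d2312 i603 d11 d362 i587 d2320 (k8 i564 d684 i2411 i527 i531 d2322 i2352 d438 (k8 d401 d2323 d2314 i644 i258 i2035 d2004 i1029 k0))))) (by decide +kernel)
def d2325 : PP 8 4 T 0x1102000000000040000000000100010040005000004000001000015000004204420 := rS 0x4945146891f1c47b455b0bd42c9220b430f1539adc84756985564c (k8 d2180 d72 d396 d360 i264 d1836 i627 i330 (k8 d35 d2309 d2320 i228 i2411 i2186 i316 d2324 (k8 d424 i1784 i801 d365 i231 d2321 d417 d2186 (k1 d28 k0)))) (by decide +kernel)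
def d2326 : PP 8 4 T 0x1102000000000000000000000100010040005000004000001000015000004204420 := rS 0x522789b190ccf8b08ceab98ac410acd4415d26ca51b49566156975222f03824568f648b53a9f2cb04425562b908e6b61c61e2372d8e426d122060764c (k8 d2180 i393 d2309 i228 i2435 i2107 d504 i793 (k8 i1043 d35 d426 i369 i627 i264 d1836 d75 (k8 d2312 d25 d382 i603 d11 d362 d2320 i2411 (k8 d595 i2230 i2105 i519 i316 i915 i531 d360 (k8 d396 d72 d2325 d375 d1835 i1367 i2352 d2186 (k8 d1015 d1014 d438 d83 d494 d400 d401 d1586 (k4 d385 d1306 i2035 d51 (k2 i737 i258 (k1 d419 k0))))))))) (by decide +kernel)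
def d2327 : PP 8 4 T 0x400000000020001001000000000000414400809040000000000000004000001000555000004000000 := rS 0x33932c78a2f57461a2a753e9b (k8 d84 d11 d362 d355 i1431 i666 i1413 d450 (k4 i1679 d449 i2035 d2252 k0)) (by decide +kernel)
def d2328 : PP 8 4 T 0x1001000000000000000000440000000000000000000000001008000000004000100 := rS 0x16345 (k2 d459 i1293 (k1 d414 k0)) (by decide +kernel)
def d2329 : PP 8 4 T 0x1001000000000000411000010100040000000000004000001000555100004204520 := rS 0x13289304547eb35fd0d54a91791d5ea74dc61e2c3518f5a407 (k8 i519 d442 d88 d375 i369 d35 d426 d84 (k8 i330 i587 i264 i316 d989 d1835 d1648 i1722 (k4 d2327 d2328 d1330 d2292 (k2 i1277 i1021 (k1 i2034 k0))))) (by decide +kernel)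
def d2330 : PP 8 4 T 0x1101000000000080801000000110000000000000000011501000000001104000000 := rS 0x5a88e1910279f4ae4c (k8 d2180 i2352 i1327 i1390 d438 d399 d401 d349 (k1 d338 k0)) (by decide +kernel)
def d2331 : PP 8 4 T 0x1001000000000000001000021100000000000000005000001000015100004000400 := rS 0x115 (k2 d1488 d450 k0) (by decide +kernel)
def d2332 : PP 8 4 T 0x1100000000000000000000000100010040005000004000001000015000004204420 := rS 0xf966994498158cb1eb49fa556288582c32cb90d651548bc0e470489542972996c5aaf53a6e30f11b8ec721368910304c (k8 d2180 d2309 i228 i2435 i2107 d504 i393 i1043 (k8 d35 d426 d84 i330 i587 d2320 i793 i564 (k8 d684 i2186 i2209 i2105 i264 i519 i316 d989 (k8 i527 i627 d1836 i603 i369 d382 d25 d75 (k8 d2312 d2326 d442 d88 d2330 d2329 d2331 i1277 (k4 i1021 i1431 i2034 d2328 k0)))))) (by decide +kernel)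
def d2333 : PP 8 4 T 0x1102001000000040404000800540010000004000004100001240555501004008040 := rS 0x2156e7d43a0e247f5dad4df152fd09102966b0588bf639ad7a3e409cca25b4eb94aecf279b4c8b95699d271664a7e304c (k8 d2180 d426 d11 i2411 d528 d480 i542 d360 (k8 d43 d2300 i1699 d395 d385 i502 d37 d362 (k8 i793 i527 i837 i1334 d2183 i1413 i633 i409 (k8 d1932 i2035 i1425 i1792 d2316 d665 d475 i644 (k8 d83 d95 d55 d58 d100 d418 d1355 d1853 (k4 d107 d648 d53 i2047 k0)))))) (by decide +kernel)
def d2334 : PP 8 4 T 0x1102000001000044405010444140014040004000004004401000055100004000020 := rS 0x620a0d65e2c2dcfa7f5a9be2b4244174e6511d8bc8617648e426d12216caa185693d624c (k8 d2180 d455 d395 d360 d2309 d118 i793 i228 (k8 i2435 i2107 d504 i2411 i8 i518 i316 i393 (k8 i527 i837 i531 d665 d475 d83 d95 d55 (k8 d100 d107 d648 i2037 d2314 i2422 i644 d654 (k1 d2316 k0))))) (by decide +kernel)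
def d2335 : PP 8 4 T 0x1102001000000040404000044540010040004000004000401000055100004008020 := rS 0xbc622fd8e6b462657714602ccba2f0390c2e974ea6dca5712b3cc26d322e55a6749c59929f8c0ec721368910304c (k8 d2180 d2309 i228 i2435 i2107 d504 i393 d426 (k8 d11 i2411 d528 d480 i542 d360 d43 d2300 (k8 i1699 d396 d385 i2209 i502 d37 d84 d362 (k8 d684 i8 i518 i519 i316 i531 d2333 d2334 (k8 d1331 i1520 d449 d1937 i1964 i409 d1932 i2035 (k2 i2048 i1796 k0)))))) (by decide +kernel)
def d2336 : PP 8 4 T 0x1100000000000000020000000000000000000000000144001240000000804000000 := rS 0x8997d0829 (k4 d2316 i1575 i644 d53 (k1 d418 k0)) (by decide +kernel)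
def d2337 : PP 8 4 T 0x1102000000000000400000044540010040004000004000401000055100004208020 := rS 0x5f3531444585b9f4fe6f8aa21a4c336990ba73288bc86172da7e30f11d8e426d12b894ce5572b3d72938b32488185693d624c (k8 d2180 d455 d395 d360 d2309 i228 i2411 d528 (k8 d480 d43 d385 d37 d118 i542 i2209 i502 (k8 i2435 i2107 d504 i393 d35 d426 d11 i793 (k8 i8 i518 i316 i527 i837 i531 d2300 i1699 (k8 i370 d2335 d787 d83 d95 d2038 d107 d648 (k4 d2310 i604 d2336 d654 (k2 i2422 d1492 k0))))))) (by decide +kernel)
def d2338 : PP 8 4 T 0x8001100000001000000800000000145010040005000004000001000015100004000020 := rS 0x14541ac9786c35978d34f89a199a853ac4102b586adcfe700f1be2a883eb06865d489cca22f039111e5b2a861724c (k8 d2180 d43 d2309 d118 i793 d595 i228 i519 (k8 i316 i527 i837 i915 i531 d98 i1245 i1327 (k8 d665 d83 d95 i230 i231 d2038 d648 d476 (k8 i1395 i1363 d481 d400 d387 d454 d1306 d51 (k8 d478 i1563 d418 i2422 d467 d1516 i673 i1415 (k2 d355 d357 k0)))))) (by decide +kernel)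
def d2339 : PP 8 4 T 0x1100000000000000000000000100010040005000004000001000015000004200420 := rS 0xc31544349facb49ae5471655b941c9f4ec614eaf78aa4762f03825923909b44a6441b8b4304c (k8 d2180 d2309 d2320 i1043 i228 i564 i2435 i2107 (k8 d504 i2411 i2105 i519 i316 i393 d989 d35 (k8 i587 i330 d426 d362 d11 d2332 d37 i579 (k8 d528 i322 d43 d480 d2338 d2337 d442 d787 (k2 d83 i1277 (k1 d450 k0)))))) (by decide +kernel)
def d2340 : PP 8 4 T 0x101002002000000000445000000100040040405040000000001005004510106004460 := rS 0x19ebd8c5154c9938afd134369c5144911d91c12a1478e4263756aad366168910824c (k8 d2180 d2181 i228 i2435 d396 d1141 d72 d360 (k8 i1043 i2107 d504 d595 i2186 i2105 i264 i393 (k8 i915 d1835 d1821 d375 d469 d176 i1719 d361 (k4 d449 d1330 d1926 d1104 (k2 i1984 d2252 (k1 d621 k0)))))) (by decide +kernel)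
def d2341 : PP 8 4 T 0x801000002002000000010000000000000000000000000002001400000041004000000 := rS 0x46cd42885864c (k4 d2180 d470 d25 d53 (k2 i2551 i1537 (k1 d910 k0))) (by decide +kernel)
def d2342 : PP 8 4 T 0x801100002000000000050000000000000040005000000000001600511045006004000 := rS 0x67a753e7433158ab1161884b2e42e96c6e2943a14824c (k8 d2180 d2181 d53 d51 d386 i1043 i793 i531 (k8 d1836 i603 d25 d470 d505 d2341 d438 i529 (k4 i530 i1714 i1592 i1067 (k1 d1688 k0)))) (by decide +kernel)
def d2343 : PP 8 4 T 0x1100000000000000000000000100010040005000004000001000015000004000420 := rS 0x4651a9e3a9a84669a7b099e6d8b3941c8714c49e05f13b1d8a151b975223b0891c5625648e426d122060b64c (k8 d2180 i793 d2309 i228 i2435 i2107 d504 i2411 (k8 i2209 i2230 i264 i523 i393 i915 i531 i1043 (k8 d2339 d1850 d1864 d1126 i643 d371 d418 d386 (k8 d51 d2342 d37 d528 i667 d385 d631 d433 (k8 i1828 i250 d467 d124 d1463 i1964 d11 d461 k0))))) (by decide +kernel)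
def d2344 : PP 8 4 T 0x1102000000000000400004000100040000000000004140001000555100006204420 := rS 0xa2692ad5a0704b05c847 (k8 i264 d1836 d382 i2105 i519 d360 d72 d2322 (k2 d1835 d375 k0)) (by decide +kernel)
def d2345 : PP 8 4 T 0x1100000000000000400004040100040000000000004140001000555100006204420 := rS 0x3e59a6512601eab1a4fd548bc0e0953a6e30f160b15c847 (k8 i264 d1836 d75 d382 d35 d426 d84 i330 (k8 i2105 i519 i316 d989 d2344 d442 d2329 d88 (k4 d2331 i1277 i1021 i1431 (k2 i2034 d2328 k0)))) (by decide +kernel)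
def d2346 : PP 8 4 T 0x1100000000000000000004040100040000000000404140001000515120006204420 := rS 0x338c8c711c40ce57651558ac32cb908ec9222753f18788dc2e4c (k8 d2180 i8 i1838 d35 d426 d11 d362 i228 (k8 i2411 i264 d1836 i603 i369 d75 d2312 d2345 (k8 i2352 i545 d438 d401 i258 d2014 i2035 i1029 k0))) (by decide +kernel)
def d2347 : PP 8 4 T 0x20001001000000000000000010001100014000000000004000001004555400004000540 := rS 0x618aa207ad2 (k4 d442 d88 d787 d1047 (k2 i1277 d450 k0)) (by decide +kernel)
def d2348 : PP 8 4 T 0x1100000000000000000000000100010040004000004000001000015000004000420 := rS 0x86455034541a647ad2592f18343653f16a3f119b0d34f6124d72cf62b1d47165595dca0e4da7d3b1816a9de2375b850506b5797a26782e945523b1781c12252185d923909a5da25322060b64c (k8 d2180 i793 d2309 i228 i564 i2435 d684 i2107 (k8 d504 i2411 i8 i518 i2209 i2105 i519 i316 (k8 i393 d989 i527 i531 d2343 d404 d418 i2399 (k8 i2422 i644 i643 i852 i1838 d35 i330 d2317 (k8 d426 d362 d11 d84 d2346 d37 i502 i579 (k8 d528 i322 i409 d2316 d385 d43 d480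 i2035 (k8 d433 i1828 i370 i2129 i375 d1261 d2347 d2337 (k8 d98 i1245 d1516 i673 d475 i1959 i1991 i1415 (k4 d355 i1334 d1047 d357 (k1 d1283 k0)))))))))) (by decide +kernel)
def d2349 : PP 8 4 T 0x1000000000000000000000000000000000000000000140001200080000006000000 := rS 0x1132f9e05217 (k4 i8 i1838 i1043 i644 (k2 d404 d418 k0)) (by decide +kernel)
def d2350 : PP 8 4 T 0x1000000000000010480000014000000000050008000811541000440060004050000 := rS 0x5a95cea85 (k4 i1602 d657 i650 i1400 (k1 i2037 k0)) (by decide +kernel)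
def d2351 : PP 8 4 T 0x1200000000000000000000001000010000000000004140001200515240006250440 := rS 0x2d4ae756731cfac5609fdc8288b97956b130adc9eb31fbf03e1c3724ce2d32885da2c929ab596552cabd4ec307a753f18788dc9801 (k8 d2182 d2180 d2349 d35 d426 d11 d362 d5 (k8 i369 i330 i587 d92 d474 d54 d12 i564 (k8 i2411 i2435 i8 i527 d0 d70 i1242 i1039 (k8 i1040 i1304 d1050 i1424 d2183 i789 i722 d396 (k8 d455 d72 d2314 d2263 i644 d468 d722 d382 (k8 d75 i1233 d2350 i2035 d549 i530 i1400 i2037 k0)))))) (by decide +kernel)
def d2352 : PP 8 4 T 0x4001002000000000048001000000190100400004000500511501400000000004204540 := rS 0x5baccd83f6695d7675a7bc55ea727ac5568742c48b64c (k8 d2180 i793 d418 d53 d51 d72 d455 d395 (k8 i330 i587 d35 d96 d549 i1950 i530 d1107 (k4 i407 i2039 d2183 d1551 (k1 d2314 k0)))) (by decide +kernel)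
def d2353 : PP 8 4 T 0x1000000000000040000084000090540040405011504411001000000000014000000 := rS 0x3f878ad0d669b9227328a050e858916cba4c (k8 d2180 i531 i793 d418 d53 d51 d46 i527 (k8 i837 i915 i2045 i1948 d356 i2039 d479 i1666 (k1 i241 k0))) (by decide +kernel)
def d2354 : PP 8 4 T 0x400000000000000001000001000000040400000804590540040405010504411001000000000004000040 := rS 0x57669f96a1e86ad83a6d5d2f47d45a1afd0e858916cba4c (k8 d2180 i531 i793 d418 d53 d51 i1720 d469 (k8 d355 d2183 i1413 d219 d223 i1421 d2353 d352 (k4 d479 i1395 i241 d332 (k2 i1665 i2039 k0)))) (by decide +kernel)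
def d2355 : PP 8 4 T 0x6001002000000000040411000000190040440005000504411401000155100004244520 := rS 0xaecd3f2d4dabd0f0f83b45868f56cb3a7b199e8543a0507122e944222f0391cb6af61a753e9b8c3c4764f58aae86bf539c5324c (k8 d2180 d449 d361 i330 i1720 d469 d72 d455 (k8 d395 i393 d35 d426 d84 d11 d362 i369 (k8 i587 i793 i264 i519 i316 i523 i527 i531 (k8 d418 d1355 d46 d51 d53 d2352 i2035 d381 (k8 d2354 d2314 d718 d352 d424 i722 d1330 d479 (k4 i1411 d223 i1395 i241 (k2 d332 i1665 (k1 i2039 k0)))))))) (by decide +kernel)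
def d2356 : PP 8 4 T 0x4001202000000000000000000000000000400050110000000501000000000004000000 := rS 0xb52bab596552c93d564c (k8 d2180 d72 d395 d92 d474 d54 d12 i530 (k2 d1114 i2037 k0)) (by decide +kernel)
def d2357 : PP 8 4 T 0x1002000002000040000000000100010040005000004000001000015000004200420 := rS 0x18e87679d0fe1c1e0fc505e8b9c4fa938a2898a2160a44a22f04a851ec94b94cd6ad659a4aa5953b0c1e9b8c3c46e2d8216c72d1098ac88180384476a92e985564c (k8 d2180 d72 d396 i531 d989 i393 i523 i519 (k8 d2309 i228 i2230 i2107 i2435 d504 i793 d2348 (k8 d2351 d2349 d35 d426 d84 d5 i369 i330 (k8 d92 d474 d431 d54 d12 d366 i564 d684 (k8 i2411 d595 i2186 i2105 i316 i527 i915 d382 (k8 d25 d75 d143 d2292 i1634 i1594 d361 d2263 (k8 d2355 i644 i2133 d1330 i1840 i719 d2356 i1067 (k2 i1708 d657 (k1 d658 k0))))))))) (by decide +kernel)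
def d2358 : PP 8 4 T 0x8001202000000000000100000001000010000000000004000001000000000004000000 := rS 0x49ab4c2ab (k4 d72 d396 d12 d480 (k1 d2263 k0)) (by decide +kernel)
def d2359 : PP 8 4 T 0x1002000000000000000000000100010040004000004000001000015000004200420 := rS 0xc767a1ce87f0e0f07ecd141784f133c1c4fad38a2898a2160b922eab30a44a22f04a851ec94b94d5acb2ca9d860f4fa6e30f11b8b6085b1cb44262b220600e111daa4ba4c (k8 d2180 i531 d989 i393 i523 i519 d2309 i228 (k8 i2230 i2107 i2435 d504 i793 d2348 d2351 d2349 (k8 d35 d426 d84 d11 d5 i369 i330 d92 (k8 d54 d12 i564 d684 i2411 d595 i2186 i2105 (k8 i316 i527 i915 d396 d72 d2358 d468 d382 (k8 d25 d75 d143 d2292 d375 i1594 d361 d2357 (k8 d404 i1767 d418 d419 i890 i2133 d1330 i1840 (k4 i719 d2356 i1707 i1068 (k2 d657 d658 k0))))))))) (by decide +kernel)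
def d2360 : PP 8 4 T 0x1000000000000000000000000100010040004000004000001000015000004200420 := rS 0xfd72b38b24cdae55531182a3693f45b1857bc5523b088bc0e47048ac72134bb441ead65c106e5b22060ba4c (k8 d2180 i531 d2309 i228 i793 d2349 d2348 d54 (k8 d12 d5 i2435 d684 i2107 d504 i2230 i2105 (k8 i264 i519 i316 i523 i393 d989 d35 i587 (k8 d426 d2351 d2359 d442 d375 d384 d2329 d1835 (k8 d75 d1822 i1636 d468 i665 d43 d2328 d2347 k0))))) (by decide +kernel)
def d2361 : PP 8 4 T 0x1002000000000000000000000100010040004000004000001000015000004000420 := rS 0x591fd6e1c37264587d88a89862160b91371755abd6261279cca2a91d8bc0e2b12a8592394bb44a60f56b2cb3041bb158e47138fc123d7804c22293ca0d0e858917c2a440c16cba4c (k8 d2180 i531 i793 d2309 i228 d2360 i643 d418 (k8 d53 d51 d24 d404 d386 i523 i2107 d371 (k8 d1889 i2105 d1076 d1126 i264 d1864 d1850 d2349 (k8 d2348 d92 d54 d12 d5 i564 i2435 d684 (k8 d504 i2411 i2186 i2209 i2230 i519 i316 i393 (k8 d989 i527 i837 d395 d396 d455 d347 d72 (k8 d2358 d1141 d468 d382 d25 d470 d143 d505 (k8 i1594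 d2340 i2716 i1039 i1040 i721 i719 d2314 (k1 d2318 k0))))))))) (by decide +kernel)
def d2362 : PP 8 4 T 0x1000000000000000000000000100010040004000004000001000015000004000420 := rS 0x3eb7274343aa7693f5028314c487a5f1f89c2a5b2e9442207048ac26a129910304c (k8 d2180 d2309 i228 i564 i2186 i2107 i2230 i2105 (k8 i519 i523 i527 i531 i793 d2360 d1126 d1076 (k8 i643 d1889 d418 d386 d24 d46 d2361 d442 (k4 d359 d42 d1653 d399 (k2 i2548 i1269 (k1 i2031 k0)))))) (by decide +kernel)
def d2363 : PP 8 4 T 0x1000002000000000000000000000000000001000000088001200010001004040000 := rS 0x458cc4c (k4 d2180 i529 d723 d86 k0) (by decide +kernel)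
def d2364 : PP 8 4 T 0x1100000000000000050000000000000000000000400084001600000055004004000 := rS 0x445466b0c42597221d0a4c (k8 d2180 i1812 d105 d1836 i603 d25 d470 d1015 (k2 d161 i2032 (k1 i1537 k0))) (by decide +kernel)
def d2365 : PP 8 4 T 0x1100000000000000000000000000000040008000000000001600415041004040000 := rS 0x34d3d84cf36c581cc9149ad18c70a89d8a57784646e392d344f24c (k8 d2180 i81 i2435 d647 d504 d464 d64 d426 (k8 d2363 d76 d38 d35 d351 d461 i3132 i1889 (k8 i2411 d2364 d528 i667 d385 d631 d433 i1828 (k1 d467 k0)))) (by decide +kernel)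
def d2366 : PP 8 4 T 0x1000000000000000000000000000000000001020000080001001100400004000000 := rS 0x14c4c (k2 d2180 d178 (k1 d155 k0)) (by decide +kernel)
def d2367 : PP 8 4 T 0x1202000000000000100000001115010400008010004000401440515000004000540 := rS 0x5b07cfc233a9d9987d69b3944c360b922eab289e58e2762bc2323707ab5964c (k8 d2180 d54 d12 d5 d464 d64 d426 d76 (k8 d38 d351 i81 i527 d72 d2358 d468 d382 (k8 d470 d143 i2035 d375 i1594 i1980 d564 i1067 (k4 i1625 d2356 d1553 i848 (k1 d2253 k0))))) (by decide +kernel)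
def d2368 : PP 8 4 T 0x1000000000000000000000000100010040000000004000001000015000004000420 := rS 0x431a4fd279c53a9f3499608151ea0de08c1496a32373c9e8a651548ec222f0391c122b12a851e430bb24721368910304c (k8 d2180 d2309 i228 i2435 i2107 d504 i2411 i8 (k8 i518 d595 i2186 i2209 i2230 i2105 i264 i519 (k8 i316 i523 i393 d989 i527 i564 d2362 i81 (k8 d464 d64 d647 i1889 d461 d426 i2553 d23 (k8 d35 d2365 d47 d431 i1035 i1819 d2366 i789 (k4 d2367 d442 d399 d1653 k0)))))) (by decide +kernel)
def d2369 : PP 8 4 T 0x1001000000000000000000000000000000000000000000501000000200006000000 := rS 0x10d279b8e24c (k4 d2180 d70 i1039 i789 (k2 d356 d399 k0)) (by decide +kernel)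
def d2370 : PP 8 4 T 0x800000000000001000000000000000001000000100014010000000000000001000015500004000000 := rS 0x172a3 (k2 d469 d99 (k1 i2033 k0)) (by decide +kernel)
def d2371 : PP 8 4 T 0x1400000000020001000000002000000000500000800100000000000000000001000555000004000000 := rS 0x19ec762b0d3a9f (k4 d11 d362 d470 d75 (k2 i337 d2252 (k1 i2035 k0))) (by decide +kernel)
def d2372 : PP 8 4 T 0x1100001000000000000000000100010040005000004000401000015000004004020 := rS 0x512b172ab5f50d7aa6590fd5eb12f0f68a8240adcdf0c27a64e2938a0b52273288bc56977eb4d12cb05305c8474dc606e5b2e8ec721368910304c (k8 d2180 d2309 i228 i2435 i2107 d504 i393 i531 (k8 i793 d2349 d426 d84 i264 d1836 d382 d2368 (k8 i619 i2108 d50 d388 d684 i2230 i316 i527 (k8 i837 i915 d2369 d417 d28 d361 d449 i789 (k8 d399 d356 d352 d465 i2045 d457 i1256 d1355 (k8 i1295 i2399 i401 d414 d365 i1413 d2370 d2371 (k4 i1722 i1457 d436 i2033 (k1 i1553 k0)))))))) (by decide +kernel)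
def d2373 : PP 8 4 T 0x2001000000000000001000400000400440001000000500555001000540500084000800 := rS 0x2bc7c6c1ea1d0312 (k8 d418 d46 d51 i1307 i2039 d1330 i594 i401 k0) (by decide +kernel)
def d2374 : PP 8 4 T 0x2001000000000000000000000000400440000000000000800001200540500014000800 := rS 0x1e8fc50af (k4 i2399 i644 i401 i1840 (k1 d1330 k0)) (by decide +kernel)
def d2375 : PP 8 4 T 0x1100000000000000000000000100010040005000004000001000015000004204020 := rS 0x6695cd2bf3eab570a35eaba8a3e1ea1503122fd0d2714538b56a1e0e948aa9b8c1ade23b17a3c8617648e4269768b4d120a1b96cba592206182c561b908e4c (k8 d2180 i264 d1836 d470 d75 d382 d2309 i228 (k8 i603 i531 i793 d2349 d2368 i2108 d50 i2435 (k8 d684 i2107 d504 i2411 i8 i518 d595 i316 (k8 i393 d35 i627 d426 d84 d2312 d2372 i715 (k8 i565 i882 i1040 i2120 d417 d28 d2370 d2374 (k8 d418 d46 d53 i1307 d1330 d459 i401 i1411 (k8 d2321 i2033 i1290 i1330 i1457 i1927 i569 d332 (k1 d2373 k0)))))))) (by decide +kernel)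
def d2376 : PP 8 4 T 0x1100000000000000000000000100010040005000004000001000015000004004020 := rS 0x1137817c4ec70a974761115894721368910305b62b908e4c (k8 d2180 i264 d1836 d75 i793 d2309 i228 i2435 (k8 i2107 d504 i2209 i2230 i523 i393 i531 d2375 (k4 d1864 d1126 i643 d371 (k2 d2342 d418 k0)))) (by decide +kernel)
def d2377 : PP 8 4 T 0x20001101000002000040400000040100050010000000000000501404555420006000000 := rS 0x144ac5caad7cbda2a987a818613e869938a4e282d60b0d364c (k8 d2180 d84 d470 d382 d2369 d417 d28 d361 (k8 d449 d2370 i789 d399 d465 i1839 d1330 d1926 (k4 i1984 d2371 i1722 i1457 (k2 d436 i2033 (k1 i1553 k0))))) (by decide +kernel)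
def d2378 : PP 8 4 T 0x1100000000000000000000000100010040004000004000001000015000004004020 := rS 0x114538f45a1e0e9493718788fc2828579784f133c32dc8511d8bc8e2b2185c72134bb45fad3448286e5b22060ba4c (k8 d2180 i531 d2309 i228 i793 d2349 d2368 i2108 (k8 d50 d388 i2435 d684 i2107 d504 i8 i518 (k8 i2230 i264 i316 i393 i527 d1836 i619 d2376 (k8 d404 i1767 d418 i2399 i644 i643 i401 d35 (k8 d426 d84 d2377 i715 i565 i1040 d672 i2120 (k2 d417 d1330 k0)))))) (by decide +kernel)
def d2379 : PP 8 4 T 0x21000000001000000000010000100014400000050000000001000015001404000000 := rS 0x16a6f (k2 d356 d1261 (k1 d797 k0)) (by decide +kernel)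
def d2380 : PP 8 4 T 0x1100000000000000000000000100010040000000004040401000015000004208020 := rS 0xf15eb1598fd5a5f53a88d4c662b04b0c311204fb0c279c6282d39944222f23a851e430ba5dfad344829ca5712b3d3ab949c59929f4dc61e2372e8ec721368910304c (k8 d2180 d2309 i228 i2435 i2107 d504 i393 i531 (k8 d2349 d35 d426 d84 d11 i2411 d528 d480 (k8 d43 d452 d385 i2209 i502 d37 d2368 i2108 (k8 d50 d388 d684 i8 i518 d595 i2186 i264 (k8 i316 i523 i527 i837 d2369 d417 d361 i789 (k8 d399 d394 d465 d2379 i2129 i245 i1573 d2336 (k8 i2035 d654 d678 i2201 i2422 i1553 i2235 i660 (k4 i1967 i588 d1330 d718 k0)))))))) (by decide +kernel)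
def d2381 : PP 8 4 T 0x1100000000000000000000000100010010000000000005801240015400006008000 := rS 0xb311119f180a3168783ab949c59924c (k8 d2180 i2411 d528 d480 d43 i715 i565 i1040 (k4 i2118 i2033 i1305 i1574 (k2 d67 i604 (k1 d438 k0)))) (by decide +kernel)
def d2382 : PP 8 4 T 0x1100000000000000000000000100010040004000004000001000015000004000020 := rS 0x430462927b0a24713697d8ec58a0545a5349ae59e558b15dca0e3994476111791c4a8f2185d923909b45fad3448286e5b22060ba4c (k8 d2180 i531 d2309 i228 i793 d2349 d2368 i2108 (k8 d50 d388 i2435 i2107 d504 i2411 i8 i518 (k8 d595 i2209 i264 i316 i523 i393 i527 i837 (k8 d2378 d37 i502 d528 d118 d385 d43 d480 (k8 d2381 d2369 d2380 d417 d1850 d1864 i643 i667 (k8 d361 d418 d631 i789 d386 i250 d399 d2379 k0)))))) (by decide +kernel)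
def d2383 : PP 8 4 T 0x1000000000000000000004000000540040104054000400001000000000004000000 := rS 0x3ca0e245d4896c9e4c (k8 d2180 i789 i793 i915 i531 d418 d1355 d404 (k1 i2045 k0)) (by decide +kernel)
def d2384 : PP 8 4 T 0x1000000000020001000000002000000400100050900114010050000000811541000555540004000000 := rS 0x42318aca25aae556bea1b0536cd (k8 i890 d84 d382 d2370 d2371 i1722 i1457 i1456 (k4 i2033 i2037 i1719 i650 (k1 i1602 k0))) (by decide +kernel)
def d2385 : PP 8 4 T 0x1000000000000000000000000100010040004000004000401000015000004200020 := rS 0xc762ae844aa5cb3e2ce530af564a6a28f47e27142bcbc815b9f4de7f8613d327149c505a7328aa45e2b12a3c861764a5dfad3448295acb2a965860f822753e9b8c3c46e5b2e8ec721368910304c (k8 d2180 d2309 i228 i2435 i2107 d504 i393 i531 (k8 i793 d2349 d35 d426 d84 d11 d362 d2382 (k8 d5 i369 d92 d474 d54 d12 d2368 i2108 (k8 d50 d388 d684 i2411 i8 i518 d595 i2209 (k8 i2230 i316 d989 i527 i837 d2369 d417 d28 (k8 d361 d449 i789 d399 d353 d356 d394 d352 (k8 d465 d2383 i2399 i644 i731 i401 i1839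 d1926 (k8 d1330 i331 i1984 i1431 d2384 d468 d385 d43 (k4 d2263 d2379 i666 i1576 (k2 i1680 i2035 k0)))))))))) (by decide +kernel)
def d2386 : PP 8 4 T 0x400000000002001000000000000000000120000400440400000000500551801000540500084000800 := rS 0x334aebf3ead50b451f0f50312 (k8 d418 d46 i1307 d1330 d459 d53 i882 i1330 (k4 i1457 i569 d332 d2373 k0)) (by decide +kernel)
def d2387 : PP 8 4 T 0x2001000000000000000000100000490440000000000500551801000540500084000800 := rS 0x334aebf3f1f50b12 (k8 d418 d53 i1594 i241 i1720 i569 i849 d2373 k0) (by decide +kernel)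
def d2388 : PP 8 4 T 0x1000000000000000001000000540450410000000500551801000555500084000800 := rS 0x1714349af47c3d40c4a28d3 (k8 d50 d417 d418 d46 i1307 d1330 i1411 d28 (k2 d2370 i2033 (k1 d2386 k0))) (by decide +kernel)
def d2389 : PP 8 4 T 0x1000000000000000000000000100010040004000004000001000015000004200020 := rS 0xcd3695c46ab72b0146bd570f87a8543a06245f8a29c5a1e0e9493718788ec222f12a851e430b8e4269768b4d120a1b96c88182e9ac1e692a966084c (k8 d2180 d2382 d92 d474 d431 d5 d366 i531 (k8 d2309 i228 i793 d2349 d2368 i2108 d50 i2435 (k8 d684 i2107 d504 i8 i518 d595 i2186 i2209 (k8 i316 i523 i393 d35 d426 d84 d2385 i715 (k8 i565 i1040 i2120 d417 d2374 d418 d46 d51 (k8 d53 i1307 d1330 i401 i1411 d2387 d2388 d382 (k4 d1831 i1574 i568 i593 (k2 d1527 i2039 k0)))))))) (by decide +kernel)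
def d2390 : PP 8 4 T 0x1000000000000010000000400000800040000000000000001000000000004000000 := rS 0x11b19 (k2 d84 i1034 (k1 d461 k0)) (by decide +kernel)
def d2391 : PP 8 4 T 0x1000000000000000000000000010441000405000004000401005540404006000800 := rS 0x9938a9a28b71687ce6517eb4d124c (k8 d2180 i2108 d50 d388 i527 i837 i237 d2369 (k4 d2253 d417 d1330 d361 (k2 d449 d692 k0))) (by decide +kernel)
def d2392 : PP 8 4 T 0x1000000000000000000000000100010040004000004000001000015000004000020 := rS 0x114538b43c1d2926cf22941c49663d2f8fc4e151b96cba911d8445ea12185c72134bb4488d344828304c (k8 d2180 d2309 d2368 i2108 d50 i228 i2435 d684 (k8 i2107 d504 i8 i518 i2186 i316 i523 i393 (k8 i915 i531 i793 d2349 d2389 d1126 i400 i643 (k8 d1889 i659 d418 d901 d386 d404 d2390 d2391 (k4 i715 i565 i1040 i242 (k2 d417 d1330 k0)))))) (by decide +kernel)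
def d2393 : PP 8 4 T 0x1001000000000040000000440000540010000000000000001005540500004040000 := rS 0x58d154d14 (k4 d417 d1330 d1926 i1821 (k1 d414 k0)) (by decide +kernel)
def d2394 : PP 8 4 T 0x1000000000000000000000000100010040000000004000001000015000004000020 := rS 0xa41c1626d32b3388547e3d57bc1185a8c8dcf27a44b4dfa0a288ec5e430b8e4269768910304c (k8 d2180 d2309 i228 i2435 d684 i2107 d504 i8 (k8 i518 i316 i393 i527 d2368 d388 d50 i2108 (k8 d2392 i81 d464 d64 d647 d461 d426 i3105 (k8 d23 d27 d35 d2366 i659 i1941 d2390 d2393 (k2 i1040 d2369 (k1 i715 k0)))))) (by decide +kernel)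
def d2395 : PP 8 4 T 0x22001000000000000080000004000000040040104044000000001200540000044000000 := rS 0xa4bc3e4c9c47a9b (k8 d84 d88 d361 d449 d1047 d2383 i256 i644 k0) (by decide +kernel)
def d2396 : PP 8 4 T 0x1001000000000000400004010100000050104004004000001200144100044204520 := rS 0x1f2cd32608aa6e30af789cc762f4bb454ec11eb480e4c (k8 d2180 i519 d442 d88 d384 d359 i2435 d684 (k8 i316 i393 i837 d35 i587 d426 d84 d2395 (k4 d2292 i1021 i1431 i2034 (k1 d2328 k0)))) (by decide +kernel)
def d2397 : PP 8 4 T 0x21000000000000080000000000010000000000000000540001004000040004110000 := rS 0x22482 (k2 d1266 d418 (k1 d24 k0)) (by decide +kernel)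
def d2398 : PP 8 4 T 0x1000000000000000000000000100010040004000004000001000006000004000420 := rS 0x17c7e154487d02b737c32867d60b485a110391c122b508e426d1519fc1efd5ca4d96b532ab609113a15cb2202185caae533b246e5b22060ba4c (k8 d2180 i531 d2309 i228 i793 d2349 i2411 d1820 (k8 d39 d118 i8 i518 i1042 i723 i529 i1041 (k8 d400 d438 d12 d111 i728 d1710 i2930 i2718 (k8 d2300 d5 i1667 i1651 i2435 i2107 d504 i2186 (k8 i2230 i2105 i264 i519 i523 d2301 d442 d384 (k8 i1501 d1648 d481 d356 d352 d465 d476 i230 (k4 d2396 d1076 i643 d2397 k0))))))) (by decide +kernel)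
def d2399 : PP 8 4 T 0x1001000000000000000000000000000000000000000000101040000200006000000 := rS 0xa41c (k2 i1040 d2369 (k1 i715 k0)) (by decide +kernel)
def d2400 : PP 8 4 T 0x1000000001000040000000008140000000000000000000001000000000004000000 := rS 0x18343 (k2 d458 d1831 (k1 d475 k0)) (by decide +kernel)
def d2401 : PP 8 4 T 0x1000000000000001000000004000040010000200000155001200540500094200800 := rS 0xaf1f1b07a8540c48be874da7e30a7789acd30488a6628d3 (k8 d50 d417 d449 d400 d438 d431 d287 d35 (k8 i2120 d426 d11 d84 i1707 d2374 d418 d46 (k4 d53 i1307 i2039 i2034 (k2 i593 i401 k0)))) (by decide +kernel)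
def d2402 : PP 8 4 T 0x1000000000000000000000000100010040004000004000001000006000004000020 := rS 0x298529b892cde03d2f8543c1d292ac9e718a225a6370516cba3b178e52ed1519fd9a0f09894461116bf5729365ad4caad82444e8572c880aae533b2488430b860a24c (k8 d2180 i527 d2309 i8 i518 i228 i2411 d1820 (k8 d39 d118 i1042 i723 i529 i1041 d400 d438 (k8 d12 d111 i728 d1710 i2930 i2718 d2300 d2399 (k8 i523 i1572 i2209 i2107 d5 d1527 i1667 i1651 (k8 i2435 d684 d504 i316 i393 i531 i793 d2398 (k8 d2349 d50 i2108 d417 d361 i789 d2400 d106 (k8 i715 i565 d2401 i643 d1889 d371 i659 d418 (k4 d2390 d386 d1808 i242 k0)))))))) (by decide +kernel)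
def d2403 : PP 8 4 T 0x1001000000000000000000000010000000400000000000141200000050004150540 := rS 0x431a453 (k4 i564 d442 d399 d1653 k0) (by decide +kernel)
def d2404 : PP 8 4 T 0x1000000000000000000000000100010040000000004000001000006000004000020 := rS 0x4dacda60a4c93d12710a8fc7aaf41bc118292d4646e793d0b5faad6599608b54996622572aae4407433b94a23b088bc0e0915a848617648e4269768910304c (k8 d2180 d2309 i228 i2435 d684 i2107 d504 i2411 (k8 i8 i518 i2186 i2230 i2105 i519 i316 i523 (k8 i393 i527 d39 d1820 i1041 i1042 i2718 d118 (k8 i529 d400 i723 i2930 i728 d438 d111 d1710 (k8 d12 d2300 d2399 d2402 i81 d464 d64 d647 (k8 i1889 d461 d426 i2553 i3105 d23 d27 d35 (k8 d2366 i231 i789 i1941 d2403 d50 i659 d2390 (k1 d2393 k0)))))))) (by decide +kernel)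
def d2405 : PP 8 4 T 0x1100000001000040400001004150000000000000000015501400000000004000540 := rS 0x143609f83c4f56bf0fb10 (k8 d438 d67 d442 d1517 d395 d1118 d2310 i1305 (k2 d100 d475 k0)) (by decide +kernel)
def d2406 : PP 8 4 T 0x1000000000000000000000000100000000080000500155001208000000004008000 := rS 0x50832f21e9c6d61a159b05 (k8 d5 d1015 d1014 i375 i668 d467 d478 i2039 (k2 i925 i644 (k1 i257 k0))) (by decide +kernel)
def d2407 : PP 8 4 T 0x24001002000000000080400001000100050000000100484155401200500400006008000 := rS 0xb84c4547e8949d0ce27e27ab4e651559f621051b8b54e3d4d9a53a4c (k8 d2180 d362 i1623 d84 d88 d359 d0 d2349 (k8 d5 d438 d67 i580 i527 i837 d360 d395 (k8 d2310 d1155 d100 i1638 i231 d2406 d1047 i2034 (k2 d391 d344 k0)))) (by decide +kernel)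
def d2408 : PP 8 4 T 0x1001000000000000400000040100000000000000500155501208000000004008100 := rS 0x5693cfeb2559f62105 (k8 d5 d438 d67 i580 d2328 d2406 i1430 i1434 (k1 d2310 k0)) (by decide +kernel)
def d2409 : PP 8 4 T 0x4001000000000000080400001001100050000000100484155001200500400006208500 := rS 0x26512608a8fdfa694da7630af789446e5316a9c7a4c (k8 d2180 d88 d359 d0 i564 d2349 i527 d35 (k8 i587 d426 d362 d84 i1623 d2407 d2408 d1047 (k4 d450 i1277 i1021 i2034 k0))) (by decide +kernel)
def d2410 : PP 8 4 T 0x1002000001000080400001004000000040011000004014401004045000406000020 := rS 0x49c55367e3093d5a73288ec5e3909a5da2442a8b4824c (k8 d2180 d2181 d0 d118 i228 i2435 d684 i2107 (k8 d504 i316 i393 i527 i837 d360 d395 d396 (k4 i2037 d1141 d1117 i1638 (k1 d1250 k0)))) (by decide +kernel)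
def d2411 : PP 8 4 T 0x1000000000000000400000000100010040000000004040001000004000004000420 := rS 0x3eb7273f502833c8a6250d2f8fc4e151e8754ed229945523b088bc0e47048ad423909a5da317519d4d6ab5a88cfb108295c1c252c9991e55728d0623722060ba4c (k8 d2180 i531 d2309 i228 d2349 d2404 d2394 d15 (k8 d118 d595 i355 i544 i2209 i354 i502 d5 (k8 d438 d67 i2125 d1261 i580 i547 i1062 i2192 (k8 d44 i2435 d684 i2107 d504 i2186 i2230 i2105 (k8 i264 i519 i316 i523 i393 d989 i527 i564 (k8 d2405 d359 d42 d88 d2409 d1126 d1076 i643 (k8 d2397 d418 d386 d404 d24 d46 d2410 d399 (k2 i2548 i1269 (k1 i2031 k0))))))))) (by decide +kernel)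
def d2412 : PP 8 4 T 0x2001000000000000000000000000000040000000000480155001200540500094208800 := rS 0xaf1f0f4d94540afa245f34a6d3b1853bc50acd82b4d5a93 (k8 d28 i1621 d50 d5 d1015 d1014 d35 i2120 (k8 d426 d362 d84 i1623 d2374 d418 d2373 d46 (k4 d82 d1932 i1307 d365 (k2 i2402 i401 k0)))) (by decide +kernel)
def d2413 : PP 8 4 T 0x1000000000000000400000000100010040000000004040001000004000004000020 := rS 0x14c294dc4966f01e97c2a1e0e948ff4227ab4e2938a0b512d37e8286e5d288ec222f2185c72134bb44886b559f621052b8384a593323caae51a0c4304c (k8 d2180 d2309 d2404 d2394 d15 d118 d595 i355 (k8 i544 i2209 i354 i502 d5 d438 d67 i580 (k8 i547 i228 i2435 d684 i2107 d504 i8 i518 (k8 i316 i523 i393 i527 i531 d2349 d2411 d388 (k8 d50 i2108 d2399 d417 d28 d361 i1621 i789 (k8 d436 d100 d2310 i715 i565 d2412 i643 d1889 (k4 d371 i659 d418 d2390 (k2 d386 d1808 (k1 i242 k0))))))))) (by decide +kernel)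
def d2414 : PP 8 4 T 0x1100000001000000400000004140000040401000004014041004005010406100420 := rS 0x349f853288440e4704910561350ad44a7d881546e4c (k8 d2180 i1043 d118 d438 d67 i2209 d1261 i2186 (k8 i2107 i2230 i228 i2105 i264 i519 i523 i527 (k4 i564 d2403 d2405 d2410 k0))) (by decide +kernel)
def d2415 : PP 8 4 T 0x1000000000000000000000000100010040000000004000001000004000004000004 := rS 0x2685ab369bf4149927a24e2151f8f5e1191babc52833d1e5185a5595e0a596588d460e331962ee51a0c52e3964b44868f1284c88170c144762f021309601 (k8 d2182 d2179 d2180 d430 i316 i393 i527 d2309 (k8 i8 i228 i2107 i2209 d595 i518 i2435 i2411 (k8 d504 d684 d2404 d2394 d15 d44 i1022 i355 (k8 i354 i2192 i2125 d713 i544 d5 i502 i580 (k8 d2413 i794 i1808 i793 i2553 i1805 i3105 i1043 (k8 d64 d426 d23 d27 d35 d2366 i231 i789 (k8 i1941 d2414 d388 d50 i659 d2399 d2393 d2390 k0))))))) (by decide +kernel)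
def d2416 : PP 8 4 T 0x411000000000000000000004000000000000400000000000001008000040004000000 := rS 0x10345 (k2 d459 i1333 (k1 d357 k0)) (by decide +kernel)
def d2417 : PP 8 4 T 0x4011102000000000040500000000104001401085100000000401000000000104a04440 := rS 0x23a8cd21e670750e771327631132f1095a0955b05424c (k8 d2180 i2574 i1516 d72 d413 d360 i707 i635 (k8 d10 d409 d362 i636 i711 i737 i719 d826 (k4 d479 i1833 d2248 i384 (k1 d1835 k0)))) (by decide +kernel)
def d2418 : PP 8 4 T 0x1100000000000000000000000000000000000000000001001000000000204004000 := rS 0x8ee5 (k2 d25 i1529 (k1 d1836 k0)) (by decide +kernel)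
def d2419 : PP 8 4 T 0x4001102000000000040100000000104000040004100004010401000000000004a04440 := rS 0xfd0d65994fab5674410a8f2895c9e6b4ec62265e3c97522ad559dd0e212a898844c (k8 d2180 i707 i636 i2464 d2418 i737 i711 d72 (k8 d360 i915 i531 d1043 i635 d10 d409 d362 (k8 i2420 i2463 i530 i527 i874 d1014 d438 d826 (k4 d349 d67 i1029 d713 (k2 d1154 i2037 (k1 d2417 k0)))))) (by decide +kernel)
def d2420 : PP 8 4 T 0x4001102000000000040000000000104000040000100004000401000010000004a04420 := rS 0x1ed153083409bce23f0f9f526a260b908ecb32a38b077109cc5e0750955929778898d6a74dc6226792e9eda25b48adcbc4256825564c (k8 d2180 d72 d413 d360 i707 i635 i852 i915 (k8 i2465 i2434 d647 i531 d1043 d10 d409 d84 (k8 i330 i2420 i636 d35 d684 i2410 i2464 i2574 (k8 i519 i316 i837 d2418 i711 d2419 d652 d443 (k8 d713 i265 d1836 d382 d1835 i1634 i1594 d2248 (k8 d2321 i877 i1135 i1770 i736 i2045 d408 i1786 (k1 d365 k0))))))) (by decide +kernel)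
def d2421 : PP 8 4 T 0x4001202000002000041000000000105011000005100000000501000000008005004440 := rS 0xec34fc713ea25441f10b0542165682556cb23a3cb24c (k8 d2180 d92 i874 d81 d54 d72 d413 d360 (k8 d427 i2574 d382 d25 d2262 d1835 i281 i1594 (k4 i710 d2356 d353 i719 (k1 d479 k0)))) (by decide +kernel)
def d2422 : PP 8 4 T 0x11000000000000000400004014100041000085050000000001400000000404a04540 := rS 0x451306f0fa8906c150899371889978844c (k8 d2180 i707 i635 d10 d409 d84 i636 i2574 (k8 i1516 i2489 d1835 i240 i969 d2249 d383 d449 k0)) (by decide +kernel)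
def d2423 : PP 8 4 T 0x1002000000000040000000000100010040000000004000401000008000005200420 := rS 0xb124c00f1d947113e1fce30d5ab9446cd479648ecb822ac12ad399440f171a95ceaa12a93c4a314b83d92264f8e53b18899e4ba7b6896d22b72f1082c4c (k8 d2180 d427 i707 i635 i852 i915 i2465 i2434 (k8 d647 i531 d1043 d10 d409 d362 i293 i1712 (k8 i636 i2410 i285 d684 i69 i861 i2463 i2464 (k8 i2574 d460 i530 i113 d379 i519 i527 i837 (k8 d360 d413 d72 d2420 d54 d81 d92 i874 (k8 i890 d1612 d2421 d1261 d1154 d1155 d2422 d2356 (k8 d67 i1594 d422 d1119 d1835 i1629 i1614 i2845 k0))))))) (by decide +kernel)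
def d2424 : PP 8 4 T 0x1000000000000040000000000100010040000000004000401000008000005200420 := rS 0x419c5328158180df0c040b5fab7399440e4f4babd371889978f25d3db44845b0b244024c (k8 d2180 d2182 i915 d427 i2465 i707 i2434 d647 (k8 i531 d1043 i635 d10 d409 d84 i2397 d684 (k8 i2463 i519 i527 i837 i852 d2423 d1050 d442 (k8 d399 i968 i263 i382 d465 i1021 i1279 i1295 (k1 i2045 k0))))) (by decide +kernel)
def d2425 : PP 8 4 T 0x1000000000000040000000000000000000000040000000801000000000004800460 := rS 0x22888378205a7186bf55201 (k8 d2182 d989 d22 d74 i798 d1050 d442 i968 (k2 i262 d383 (k1 d83 k0))) (by decide +kernel)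
def d2426 : PP 8 4 T 0x1100000000000000000000000000000040000000000010001800108000404900020 := rS 0x10c68679acbd13a79b5e09f09a445679128c58a1166a3cf6d12dc5d0a573a974ee2107b24845561a74c84c (k8 d2180 i265 i1552 i2144 i2464 i707 i2410 i285 (k8 d2418 i711 i531 d460 i530 d1014 d379 i2465 (k8 i2434 d647 i874 d1107 i523 d1850 i69 i861 (k8 d1043 i2610 i915 i266 i1712 d371 i1696 d971 (k4 d910 d418 i629 i1029 (k2 d467 i2046 (k1 i1563 k0))))))) (by decide +kernel)
def d2427 : PP 8 4 T 0x1102000000000040400000000100000040000000000010501000008000404900460 := rS 0x21c52c78904a323861919461e0eb04fd0d3ead6208510a44ae2b509549e792e894620f64b144e115682556cd479d4f6d12116e2e4c (k8 d2180 d379 i2465 i707 i2434 d647 d460 i874 (k8 d1107 d72 d413 d360 i523 d1126 d1850 i2410 (k8 i285 i69 i861 i531 d1043 i2463 i2464 i2574 (k8 i2610 i530 i915 d2418 d1014 d438 d349 d67 (k8 d1154 d2310 i1516 i719 d479 d2248 d1835 i2144 (k8 d2426 d364 d504 d409 i2147 d386 d51 i2032 k0)))))) (by decide +kernel)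
def d2428 : PP 8 4 T 0x1202000002000040400000000000010000010000000010501000008000404804440 := rS 0x3b0d3f2d4e3100fa24eea210b062e573aa84aaad04aad1e4c (k8 d2180 i874 d72 d413 d360 i2464 i2574 d460 (k8 i530 d379 d382 d25 d143 i711 i281 i240 (k4 d422 i710 d349 d2356 (k2 d1154 i719 (k1 d479 k0))))) (by decide +kernel)
def d2429 : PP 8 4 T 0x1202000000000040400040000100451000015000004010401001008004404804440 := rS 0x4ca06281c5b9bc3ea241b06867e38c356ae539944ae75509549e2518ab5564c (k8 d2180 d72 d360 i69 i861 i2463 i2464 i2574 (k8 d460 i530 i527 i837 d2428 d1261 d1154 d1155 (k8 i2037 d100 i1516 i926 d475 i240 i969 d2253 (k4 d479 d2038 i1235 d449 (k1 i2045 k0))))) (by decide +kernel)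
def d2430 : PP 8 4 T 0x1002000000000040400000000110000000020000000011141400008000404004440 := rS 0x16249801e3b28e22b58b95ceaad04aad1e4c (k8 d2180 i874 d72 d413 d360 d460 i530 d379 (k8 i126 d67 i1594 d422 d1119 d1835 i1629 i1614 (k1 i2845 k0))) (by decide +kernel)
def d2431 : PP 8 4 T 0x1002000000000040400000000100010040000000004010001000008000404900420 := rS 0x2150e5f894647012619b5747d6391cd26b82244a257509549e792ea5c1ec92981ce6c513aad36611eac422cd479d4f6d12116e2e4c (k8 d2180 d379 i2465 i707 i2434 d647 d460 i874 (k8 d1107 i523 d455 d1361 d396 d1141 d72 d1126 (k8 d1850 i837 i519 d2425 i2410 i285 d684 i531 (k8 d1043 i2463 i2464 i2574 i530 i527 i915 d2427 (k8 d366 d431 d81 d1864 d2430 d2429 i1681 i1945 (k8 d1842 i266 d364 d409 d10 d51 d53 i2039 k0)))))) (by decide +kernel)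
def d2432 : PP 8 4 T 0x1000000000000000800000000000000040000000004010001000108000005100020 := rS 0xd6692f2199f4f36b0d3e91088d4f2cd479eda25b1083d0b052b9d4ba772aa74c917649082c4c (k8 d2180 d427 i707 i2410 d379 d713 i1552 i2464 (k8 i1547 i531 d460 i530 d54 d1014 i285 d2418 (k8 i2465 i2434 d647 i874 d1107 d1043 i113 i523 (k8 i915 i1712 i290 i1699 d971 d2258 i2046 d1958 (k2 i1563 i629 (k1 d467 k0)))))) (by decide +kernel)
def d2433 : PP 8 4 T 0x1002000000000040000000000100010040000000004010001000008000005000420 := rS 0x239a984ce4fa1cbe2963c4825191c274ee85109920aca6688d1e918b95cea2b2a9e4ba25189eda20f649098a270a94c0e730896c2c4c (k8 d2180 d427 i2465 i523 i837 i519 d2425 d2424 (k8 d1126 d1850 i707 i2410 i285 i2434 d647 i69 (k8 i861 i531 d1043 i2464 i2610 d460 i530 d379 (k8 i915 i874 d1612 d1107 d2431 d54 d713 d2418 (k8 d1014 i1547 i1552 d2432 d364 d504 d409 i2147 (k8 d386 d10 d51 i1711 d1958 i2032 i1029 i2144 (k1 i1961 k0))))))) (by decide +kernel)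
def d2434 : PP 8 4 T 0x400000000000001000000000000000000404004000451000015056000020001000000000004000000 := rS 0x5ed15308141aed994f (k8 d389 i670 i1681 i895 i1975 i2045 d408 i1991 (k1 d87 k0)) (by decide +kernel)
def d2435 : PP 8 4 T 0x1000000000000000000004000002444040005054000000001000000000004000000 := rS 0x204bf124cc65224c (k8 d2180 i915 d362 i1943 d409 d10 d46 d2383 k0) (by decide +kernel)
def d2436 : PP 8 4 T 0x1002000000000040000000000100010040000000004000001000008000005000420 := rS 0x173154c20507128c8e024694e9b56e6f38afc3e7d49d0d44c360b1dc86b23b2ccc65471de0a584daac126156a445f171aa84f25d4b9eda20f649098a270a94c0e730896c2c4c (k8 d2180 d427 i2465 i523 i837 i519 d2425 d2424 (k8 d1126 d1850 i707 i2410 i285 i2434 d647 d684 (k8 i531 d1043 i2574 i113 d379 i316 i915 d360 (k8 d396 d413 d72 d1141 d2433 d92 i806 d652 (k8 d443 i875 d713 i265 i547 d1836 d1864 d382 (k8 d470 d1835 d469 i1634 i1594 d2248 i1719 i877 (k8 i1135 d2253 d2434 d2435 i1623 d1837 i266 d364 (k4 d409 d24 d46 i2045 (k2 d449 d344 (k1 d1586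 k0)))))))))) (by decide +kernel)
def d2437 : PP 8 4 T 0x4001000000000000040401010000140000000050100000010501000000001055004400 := rS 0x15aab8239440b511a3caea12a93c2c4c (k8 d2180 d427 i2463 i2464 i2574 i530 i874 d1612 (k4 d1148 i2030 d25 d2418 (k2 d696 d12 (k1 i2037 k0)))) (by decide +kernel)
def d2438 : PP 8 4 T 0x1000000000000000000004000400000000100000000500001005000004054800000 := rS 0x14a0e242b5096c844c (k8 d2180 i707 i2465 i2574 i2610 d418 d1202 d386 (k1 i2031 k0)) (by decide +kernel)
def d2439 : PP 8 4 T 0x1000000000000040000000000100010040000000004000001000008000005000420 := rS 0x130af2f0fd67150fa056e1d1e98110a737c30102d7e89c2a53489cca2110393cf25d4b9eda2422d858024c (k8 d2180 d2182 d427 i2465 i707 i2434 d647 d684 (k8 i531 d1043 i2463 i519 i523 i527 i837 i915 (k8 d2425 d2424 d1126 d2436 d1050 d442 d399 i968 (k8 i2141 i262 i263 i1268 i1261 d352 d465 d476 (k4 d83 i2915 d197 d2438 (k2 i589 d2293 (k1 i1021 k0))))))) (by decide +kernel)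
def d2440 : PP 8 4 T 0x4001002000000000000101000000140000000000000014000001000000000004004420 := rS 0x8ecb03ab412ab (k4 d72 d413 d360 i519 (k2 d713 i265 (k1 d1835 k0))) (by decide +kernel)
def d2441 : PP 8 4 T 0x1000000000000000000000000000541000005054000000401081000000014200000 := rS 0x8141adc4c5e (k4 i635 i636 i852 i735 (k2 i1769 i2045 k0)) (by decide +kernel)
def d2442 : PP 8 4 T 0x1002000000000080000000000100010040000000004000001000008000004800420 := rS 0x5ed157eb66121d062963c4825191c0fc6e270aa6687143f434fb1042ad4b2cd62885727749c151e644d824a661489cc761117c5c6a573a8ad42553c9744a314b9eda25b07b2484a751b047a6f169c43a4c (k8 d2180 d42 i709 d0 i968 d88 d384 d375 (k8 d359 i707 i2410 i285 i2465 i2434 d647 d684 (k8 i69 i861 i531 d1043 i2464 i2574 i2610 d460 (k8 i530 i113 d379 i316 i523 i393 i837 i915 (k8 d396 d412 d413 d1141 d2440 d443 d47 i1550 (k8 i1547 i1026 i2947 i2949 d1107 d652 d1114 d1014 (k8 d438 d67 d205 i2044 d383 d100 d449 d2441 (k8 d1126 d2251 d1076 d1117 d364 d504 d409 i2147 (k8 d386 d24 d51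 d505 d2270 i1723 d424 i1988 (k1 d156 k0)))))))))) (by decide +kernel)
def d2443 : PP 8 4 T 0x1001000000000000000000001000041000005014004000401081000000014200000 := rS 0xc3154c26e31132f2bce64c (k8 d2180 i837 i2397 i635 d10 d409 d84 d2441 (k2 d449 i1021 (k1 d450 k0))) (by decide +kernel)
def d2444 : PP 8 4 T 0x1001000000000080000000000000000040000000004000401000000000004800120 := rS 0x110608a8e631132f0fce63b178ad430c2893c6e15389bc5a3d0e9ecb697689e4ba4254a44224c (k8 d2180 i523 i915 d989 i707 i531 d1043 i2434 (k8 d684 i2465 d647 d42 d88 d0 i968 i709 (k8 d2443 d2251 i2463 i527 d399 i2574 i2610 i316 (k8 i393 i837 d1076 d2397 d10 d409 d364 d1047 (k2 d450 d1185 (k1 i1277 k0)))))) (by decide +kernel)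
def d2445 : PP 8 4 T 0x1001000000000080000000000000000040000000004000401000000000004800020 := rS 0x4c2bcbc3f59c54c08804056189139945521115a849e792ea5cf6d12116c7a6f169c43a4c (k8 d2180 d42 i709 d0 i968 d88 i2465 i707 (k8 i2434 d647 d684 i531 d1043 i2463 i2574 i2610 (k8 i523 d989 i527 i837 i915 d399 d2443 d2444 (k8 i262 i263 d83 i2915 d197 d2397 i589 d2293 (k1 i1021 k0))))) (by decide +kernel)
def d2446 : PP 8 4 T 0x1101000000000001501000800044101401005100000000001000000000004a04540 := rS 0x286ab5691d76696721cee212a8993b1889978844c (k8 d2180 i707 i635 d10 d409 d362 i636 i2464 (k8 d2418 i711 i737 i2046 i1833 i1950 i384 i1434 (k2 i666 d1648 (k1 d436 k0)))) (by decide +kernel)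
def d2447 : PP 8 4 T 0x1001000000000001501008000144101401005100000000001000000000004a04540 := rS 0x10390ecc762d3d9e875d1b17f435511d5b0478abd869d8c44e8ab22f1097a4c (k8 d2180 i1988 i707 i635 i853 d424 d10 d409 (k8 d362 i369 i2397 d35 d2446 d12 d81 d1835 (k8 d1648 i1722 i665 i666 i857 d2252 d389 d1822 (k4 i1679 i2046 d435 i711 (k1 d25 k0))))) (by decide +kernel)
def d2448 : PP 8 4 T 0x4001001000000000000001008000144101400005100000000801000010000005204560 := rS 0x1dcb0ca42b3446c9131082c4c (k8 d2180 d427 i707 i636 i2410 d1612 d1107 i1772 (k4 d2447 i621 i806 d652 k0)) (by decide +kernel)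
def d2449 : PP 8 4 T 0x1001000000000000001000000140041000005014004000801001008000005200420 := rS 0xab5691d9658331951cb25b26e309f40c4d0639131795e078b9d46ad107b24841649a6412898a434e64c (k8 d2180 i837 d74 d383 d83 i262 d449 d28 (k8 d427 i707 i2410 i285 i2434 i113 d460 d379 (k8 i519 i2397 i635 i636 i293 i922 d10 i1769 (k8 i1712 d409 d84 i2045 i853 d2448 d443 i875 (k4 i874 d713 i265 i1621 (k2 i2441 d1835 k0)))))) (by decide +kernel)
def d2450 : PP 8 4 T 0x2001001000000000000000000000000000040000000004000001000200100004900420 := rS 0xc2af4604a32911d8ad424f3c9752e7b68908de991396c6e3f08825124c (k8 d2180 d83 i262 i523 d1076 d2251 i2465 d1126 (k8 d449 i968 i707 i2434 d647 d684 i531 d1043 (k8 i2463 i2574 i2610 i393 i915 d364 d504 d461 (k2 i1921 d2305 (k1 d2272 k0))))) (by decide +kernel)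
def d2451 : PP 8 4 T 0x1000000000000000000000000100010040000000004000001000008000005000420 := rS 0x462cd35192f8e47e370a825131486949fa71378f43ac151a9c5ad2489cca23b088bc9e792ea5cf6d12116c2c4c (k8 d2180 d427 i2465 i707 i2434 d647 d684 i531 (k8 d1043 i2463 i316 i523 i393 i527 i837 i915 (k8 d2439 d0 d359 d375 d384 d42 d88 i968 (k8 i709 d2442 d2445 d74 d383 d83 i262 d2449 (k8 d2251 d1076 d2450 d1166 d1047 d1330 i661 d461 (k1 i1034 k0)))))) (by decide +kernel)
def d2452 : PP 8 4 T 0x1101000000000000400000180000414440050054400010001000108000404900020 := rS 0x1b4d2bf56d0d707723884aa0f649098ab53ac5d86c77804c224c (k8 d2180 i523 i266 d371 d351 i290 d379 d460 (k8 d1114 d1850 i707 i2410 i285 i2464 d2418 d2426 (k8 i711 i2044 d99 i1290 i1457 d305 i594 d1837 k0))) (by decide +kernel)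
def d2453 : PP 8 4 T 0x2001001000000000040400000400140050440000044000010801000108000424900020 := rS 0x213b39172bb552f8d847821ad62ae2f209023d63bc186134893cf25d3da6da2424cb156e270896cfac149ad4ea7154c5cfe4c (k8 d2180 i720 d379 d989 i798 d460 d1114 d28 (k8 i1613 i1233 i2465 i523 d1126 i721 d1850 d449 (k8 i707 i2434 d2390 d647 i531 d1043 i2463 i915 (k8 i266 i290 d371 d351 d23 i1235 i2045 d2383 (k8 i922 i1295 i629 d2452 d81 d1842 i594 i593 (k4 i1682 i1457 d2400 d1891 (k2 d25 i711 k0))))))) (by decide +kernel)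
def d2454 : PP 8 4 T 0x801000000000000000000004000000540040004054000000001000000000004000000 := rS 0x1025f (k2 d10 d46 (k1 d2383 k0)) (by decide +kernel)
def d2455 : PP 8 4 T 0x1101000000000000400000180000414440000054400010001000108000424900020 := rS 0x7e109541ec9211f5824c (k8 d2180 i1613 i1233 i707 i2410 i285 i2464 d2418 (k2 d2452 i719 k0)) (by decide +kernel)
def d2456 : PP 8 4 T 0x2001001000000000040400000400100050440000044000010801000008000424900020 := rS 0x47821b57ea235a4d8a5e61b1d5cb1412047af0098e631133da6522792ea6da24238aa56e270896c9e4c (k8 d2180 i2463 i2465 i523 d1126 i721 d989 i798 (k8 i707 i2434 d2390 i531 d1043 i915 d449 d647 (k8 d2454 d409 d364 i266 d371 d23 i1235 i2045 (k8 i1295 i922 d351 i290 d418 d1850 d28 i629 (k4 d2453 i1719 i594 d2455 (k2 d81 d1842 k0)))))) (by decide +kernel)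
def d2457 : PP 8 4 T 0x2001001000000000040400000400100050440000040000000801000008000025100020 := rS 0x1dcb0238b9d46ac921058de4c (k8 d2180 i1232 d427 i707 i2410 i113 d460 d379 (k4 d1612 d2456 i806 d652 k0)) (by decide +kernel)
def d2458 : PP 8 4 T 0x1000000000000000000000000100010040000000004000001000008000005000020 := rS 0xda693591cb06632a395c82408f58ef06184c731889a756e2762a6526154d9c4df140fb2d66520e34dfa0a079ed2ec9689e4845b22858ba9139aa4224c (k8 d2180 i523 d989 i837 i915 i531 d427 i526 (k8 i2465 i707 d1043 i2434 i2410 d684 d647 i285 (k8 d2451 d388 d50 i558 i557 i2436 i2412 i236 (k8 d1052 i1232 i798 d2390 d2207 d28 d449 d1850 (k8 d1126 i721 d2435 d2454 d409 d364 i266 i290 (k8 d371 d351 d23 i1235 i2045 i922 d2457 d443 (k4 i875 i874 i265 i547 (k2 i1623 i2403 (k1 d1837 k0))))))))) (by decide +kernel)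
def d2459 : PP 8 4 T 0x1000000000000001000000000480540011000000500555001000540500084000000 := rS 0x7c6c1ea1d0312 (k4 d418 d46 d51 i1307 (k2 i2039 i2034 (k1 d223 k0))) (by decide +kernel)
def d2460 : PP 8 4 T 0x6001002000000000001000000000480440411010100000151501200540400904400000 := rS 0x1e8fc505e168743c7e4c9c4d66982444ae4c (k8 d2180 i530 d401 d438 d431 d287 d361 d449 (k8 d2356 i1664 i719 i1304 d2459 i644 i2133 i1840 (k1 i2034 k0))) (by decide +kernel)
def d2461 : PP 8 4 T 0x4001202000000000000000000000010000400010100000000501000000200006000000 := rS 0x3f87ce217 (k4 i8 d70 i1304 d907 (k1 d2356 k0)) (by decide +kernel)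
def d2462 : PP 8 4 T 0x6001002001000000000000000000480440400014900000101501200500400906000000 := rS 0x27509181bb34b6172cb25124c (k8 d2180 d176 i2411 i806 i8 i793 d1107 d2349 (k4 d426 d2460 d362 i1631 k0)) (by decide +kernel)
def d2463 : PP 8 4 T 0x6001002001000000000000000000480440400010900000101501200500400906000000 := rS 0x4646e7a (k4 d2462 d464 d64 d426 k0) (by decide +kernel)
def d2464 : PP 8 4 T 0x6001002000000000000000000000080440400010900000101101200500400906200400 := rS 0x29de253 (k4 i564 d35 i330 d2463 k0) (by decide +kernel)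
def d2465 : PP 8 4 T 0x4001002000000000000004000000100000040000900004000001000000000906004420 := rS 0x2f5774f5fa9a8a6c638fc7a37628553314169f513434da895661288ec222f50a3c721360a5da3042b994d7112cb24aa472e94c884c (k8 d2180 i228 i564 i531 i2106 i1537 i2411 i806 (k8 d401 d287 d111 i530 d438 i2435 d684 i2978 (k8 i2107 d504 d595 i2186 i316 i523 i393 i527 (k8 d396 d72 d2440 d1141 d469 d176 i1594 d2461 (k8 d1639 d449 d2464 d1850 d2251 d1889 d1887 d1864 (k8 d1842 d1926 i2034 i1719 d389 i1681 i1984 d87 k0)))))) (by decide +kernel)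
def d2466 : PP 8 4 T 0x1000001000000000000000000000000000008000000000001000500000004000000 := rS 0x23237 (k2 d464 d64 (k1 d426 k0)) (by decide +kernel)
def d2467 : PP 8 4 T 0x22001001000000000080000004000000000040004000004000401200540040004000000 := rS 0x1f37c31024f1f1c4e6514bb447a4c (k8 d2180 d88 i2435 d684 i527 i837 d361 d1047 (k4 i789 i1333 d399 d356 (k2 d476 d2395 k0))) (by decide +kernel)
def d2468 : PP 8 4 T 0x1001000000000000000000000000000040000000004000001000000000006200420 := rS 0xf932b3449822a9b8c0dcb67b5babde25d548ec5e2b1c84d2ed1299105a430b9454e3d6901c124c (k8 d2180 i2105 i519 d442 d88 d359 i527 i8 (k8 i518 d2399 i228 i564 i2435 d684 i2107 d504 (k8 i2230 i316 i393 d989 i531 d35 i587 d290 (k8 d2466 i793 d2349 d426 d84 d2467 d450 i1277 (k4 i1431 i1021 i2034 d2328 k0))))) (by decide +kernel)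
def d2469 : PP 8 4 T 0x6001000000000000090000000008005000040000000000000001004540100004000000 := rS 0x15c8c5f465323d (k4 d88 d449 d1047 d1075 (k2 d461 i1722 (k1 i1924 k0))) (by decide +kernel)
def d2470 : PP 8 4 T 0x1001001000000000000000000000400000040004000004000001001000000016100020 := rS 0x1c49c833c8a6245b2e9cc5e2b508e5a22d2185ca2372f8fc88277804c2289302a4124c (k8 d2180 i2105 d989 d450 i1277 i523 i2107 d371 (k8 d38 i228 d1887 i643 d2251 i527 i8 i518 (k8 d2399 i2435 d504 i2186 i2230 i316 i837 i531 (k8 i793 d418 d386 d404 d24 d1181 d190 i789 k0)))) (by decide +kernel)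
def d2471 : PP 8 4 T 0x1001001000000000010000000000010040050501050000400101005540554004000000 := rS 0x9c4c (k2 d2180 d1129 (k1 i789 k0)) (by decide +kernel)
def d2472 : PP 8 4 T 0x4001000000000000000004000000104000040000900004000001000011000906004420 := rS 0x7141a04525a3c9e912608aa744e6c7831c7e5f1bb142aaa1e87546a7690b5fa7328aa476111781c122b5090c2e3909b052ed1359755b048895cb2c9221548e4c (k8 d2180 i2106 i1537 i228 i2411 i806 i530 d401 (k8 d438 d12 i531 d287 i2435 d684 i2978 i2107 (k8 d504 i8 i518 i2186 i2230 i2105 i519 i316 (k8 i523 i393 d989 i527 i837 d2465 d2399 d442 (k8 d359 d375 d42 d88 d1834 d2468 d1850 d2251 (k8 i643 d1887 d1864 d371 d1842 d38 i1643 d2469 (k8 d450 i1277 d2470 i81 d647 i1889 i1893 i2553 (k2 d178 d2471 k0)))))))) (by decide +kernel)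
def d2473 : PP 8 4 T 0x1000000000000001000001000000400051014000004015401200040100804040820 := rS 0x29e873631d64a61eafc7e285797a26aa40adcde7f8607ce6511d8e52ed156b2e09117ea649e718a34c5e4c (k8 d2180 i316 d50 d417 d361 i789 d449 d388 (k8 d401 d438 d54 d12 i2435 d684 d504 i393 (k8 i527 i837 i237 d399 i1664 d356 d352 d465 (k8 i2037 d2454 d2383 i2399 i644 i401 i1722 i1839 (k4 i2034 d2393 i337 i665 (k2 i1703 d389 (k1 d97 k0))))))) (by decide +kernel)
def d2474 : PP 8 4 T 0x4001000000000000000000000000000000040000900004000001000000000806200820 := rS 0x15e3e559b07b4243a04ff125197d4e1e0ec34a4854da7630376696cf6f11d8e42697689acba6982444ae5964910aa474c9f526b538c5112d316bf48617288bd1e4c (k8 d2180 d595 i316 i527 i8 i518 d388 d2399 (k8 d50 i2108 d417 d361 d1114 d28 i1629 d449 (k8 i2106 i1537 i228 i2411 i806 i530 d401 d438 (k8 d431 i531 d287 i2435 d684 i2107 d504 i393 (k8 d35 d2466 i793 d1107 d2349 d426 d362 d84 (k8 i1631 d2473 d74 i715 i565 i2120 d2374 d2459 (k8 d418 i1663 d46 d51 d481 i1307 i2039 d458 (k2 i2034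 i593 (k1 i401 k0))))))))) (by decide +kernel)
def d2475 : PP 8 4 T 0x1000000000000000000000000100010040000000004000001000000000004000004 := rS 0x430a5433f9ecf2aa5f16d1aae4d89d0e83599b1e0c71e97c7e37628556a4f3ea64e2938a0b512d37e828d7044f83d2e558896472c9688848622619d91ea10991c88170c15c6a7518c5c645d489447611178109801 (k8 d2182 d2180 d430 i316 i523 i393 i527 i915 (k8 i531 d2415 d379 i69 d460 i113 i530 d2458 (k8 i8 i228 i2106 i2107 i2186 d595 i233 i2112 (k8 i232 i518 i1612 i2435 i2411 d504 i806 d401 (k8 i1537 d684 i285 i1712 d438 d287 d2472 d388 (k8 d50 i2108 d2399 d417 d28 d361 d449 i1629 (k8 i789 d1114 d2474 d1850 d2251 i400 i643 d1889 (k8 d1864 d371 d1842 i659 d1355 i1703 d38 d2390 (k8 d2393 i1924 i1923 i594 i593 d267 d647 i1723 (k4 d458 d2391 d481 d369 k0)))))))))) (by decide +kernel)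
def d2476 : PP 8 4 T 0x4001000000000000000000000000200001000005500000800001000004009004204020 := rS 0x10a876688d8e8f6796460c3820d5ca474ea7e3113 (k8 d10 d409 d11 d362 i2143 d60 i354 d1836 (k8 i369 d468 d92 i989 i985 i1691 i1571 i890 (k2 i738 i1772 (k1 i2046 k0)))) (by decide +kernel)
def d2477 : PP 8 4 T 0x4001000000000000000000000000000000000000400000000001080000000004008020 := rS 0x3547960ce4c (k4 d2180 i2365 i595 i875 (k2 i355 d652 k0)) (by decide +kernel)
def d2478 : PP 8 4 T 0x4001002000000000000000000000200015000005000004000001000004000004a00020 := rS 0x675cb2cca748203d52e523894aec95698556772f098844c (k8 d2180 i707 i636 i635 i712 d72 d396 d360 (k8 i2410 d1829 d1828 i2143 d60 d989 d2477 d1836 (k4 d2476 d47 d54 i2647 (k2 i1587 i2040 k0)))) (by decide +kernel)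
def d2479 : PP 8 4 T 0x1002000000000000000000000200015000005000004000001100004000004a00020 := rS 0xea31828d62c9d8c44cd6292f2a5ca47649095a61559dc824c (k8 d2180 d2181 i712 d72 d396 d360 i707 i2410 (k8 i2143 d60 d989 i635 i252 i2420 d10 d409 (k4 d362 d2478 d446 d2263 (k2 d2297 d1846 (k1 d2189 k0))))) (by decide +kernel)
def d2480 : PP 8 4 T 0x6001002000001000000000000000040010040010000004000001400004000005100020 := rS 0x1cc4e305ea7b353eb53aae19e9d4799cb2cb329ac61041a83d22a92a9e4ba25649ecb6ad55a6cc2d1211dc2c93628dc224c (k8 d2180 i523 d2251 d1850 d28 d427 i712 i707 (k8 i2434 d396 d1141 d72 d360 i2465 d647 i2410 (k8 d1828 i531 d1043 i2464 d989 i915 d2477 i354 (k8 d1836 d468 d366 d47 d54 d92 d1820 i985 (k8 i1511 i988 i2040 i2647 d279 i1189 d1107 d971 (k4 d1171 d397 d10 d364 (k1 d1048 k0))))))) (by decide +kernel)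
def d2481 : PP 8 4 T 0x2001002000000000000000000000200010040000000004000001000004000005000020 := rS 0xbd432993e398c44d6eb466a14fe2310160de0e3a8b60ab94ea3e2c271e8fc6ec50aa25327149a44e6a91d8445ee55191c8a792eb24fa254b9ecb6ad2982562ab4d985a2423b858824c (k8 d2180 d2181 d427 i712 i707 i2434 d396 d1141 (k8 d72 d455 d413 d412 d360 i2465 d647 d684 (k8 d1828 i1326 i2410 i531 d1043 i526 i2143 i115 (k8 d60 i316 i523 i393 d989 i837 i915 d28 (k8 d361 d449 d83 d2479 d1850 d2251 d1076 d1361 (k8 d1126 d2480 d380 d452 d43 d2263 i1383 d1846 (k8 d1836 i968 i595 i596 i244 i844 i1503 i729 (k8 i2044 d1219 d2454 d409 d364 d11 i2034 d1306 (k2 i1985 i934 k0))))))))) (by decide +kernel)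
def d2482 : PP 8 4 T 0x1000000000000000000000000200008000000400000000001080000000004000020 := rS 0x3c6917 (k4 d480 i1365 d2477 i354 k0) (by decide +kernel)
def d2483 : PP 8 4 T 0x400000000005001002000001000000000000000040014040000000004000001400004000004900420 := rS 0x90e50d182f2169ecd8833d3a8f33965966b181953e75820d5700f48944aa792e894ae7b2dab5569b30b448477628dc224c (k8 d2180 i523 d2251 d1850 i712 i707 i2434 d396 (k8 d1141 d72 d360 i2465 d647 d1829 d1828 i531 (k8 d1043 i2464 i527 i915 d2477 d391 i354 d1836 (k8 i2647 i1189 i1026 d468 d366 d54 d92 d1820 (k8 i985 i1511 i988 d422 d1107 d971 d387 d1171 (k4 d397 d826 d364 d1054 (k1 i266 k0))))))) (by decide +kernel)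
def d2484 : PP 8 4 T 0x9001000000000000001000004140000450041005100000440541080000000004000000 := rS 0x26633454f2c90e5d48a3d3a4c (k8 d2180 d452 d380 i915 i531 d1017 d2314 d1306 (k4 d355 d11 i1112 d466 k0)) (by decide +kernel)
def d2485 : PP 8 4 T 0x1002000000000000000000000200010040000000004000001000004000005000420 := rS 0xbb35218269f1cc62265e66a156e7f10160de0e3a8b60ab94ea3d9f1613b142a938a9dd227328aa422e551d0c8e45279e4bac94b9ecb6ad2982562af55a6cc2d121058824c (k8 d2180 d2181 d427 i707 i2434 d396 d1141 d72 (k8 d347 d455 d413 d412 d360 i2465 d647 d684 (k8 i2410 i531 d1043 i2463 i526 i2143 d421 i115 (k8 d60 i523 d989 i527 i837 i915 i712 d2481 (k8 d2482 d2479 d1850 d1126 d2483 d385 d380 d452 (k8 d43 d2263 i1383 d1846 d1836 i968 i595 i596 (k8 d2038 d648 i1503 i729 d2484 d10 d409 d364 (k4 d11 i266 i2046 i930 (k2 i1683 d1579 k0))))))))) (by decide +kernel)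
def d2486 : PP 8 4 T 0x1002000000000000000000000200010040000000004000001000000000005000420 := rS 0x23d6859659fe086537c541eb84445c64ab299855a7328b948e552795d927d129082c4c (k8 d2180 d427 i707 d1828 i1326 i2410 d1829 i2463 (k8 i2464 i2143 d60 i527 i837 d360 d396 d412 (k8 d72 d2485 d379 i288 i289 i285 d83 d95 (k8 i1026 d1836 d2038 d713 d92 i2037 i874 d279 k0)))) (by decide +kernel)
def d2487 : PP 8 4 T 0x4001001000000000000000000000200001000005000000000101000004000004a00020 := rS 0xa70d5a07844593a4101ee52393c4a772f098844c (k8 d2180 i707 i636 i635 i712 d1828 i2463 i2143 (k8 d60 d2477 d1836 d2476 d92 i971 i248 i249 (k2 d476 i882 (k1 d399 k0)))) (by decide +kernel)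
def d2488 : PP 8 4 T 0x2001001000000000005000400000205400440000400004010001000000008004800420 := rS 0x3aa1d0a235b2d50283290f43ad204a253271489ccf25d3e8952e7b68908b66f1681c024c (k8 d2180 d2182 i519 d1050 i968 i2465 i707 i2434 (k8 d647 d684 d1828 i1326 i531 d1043 i837 i915 (k8 d361 d449 d83 i262 d442 d42 d88 d2445 (k8 i735 i1769 i882 i2045 i249 i1935 i857 i971 (k1 i2046 k0))))) (by decide +kernel)
def d2489 : PP 8 4 T 0x1001001000000000000000000041000041000005004004800041000000000004000000 := rS 0x4c980e64c (k4 d2180 i837 d450 i1021 (k1 d2293 k0)) (by decide +kernel)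
def d2490 : PP 8 4 T 0x1001000000000004000000000200000440000400004000001000000000004a04420 := rS 0x3357e5961c11ca47132753e9b8c44e285e579bc5a073d96d2ed1211e4ba4f54a449801 (k8 d2182 d2180 i915 d989 i2463 i531 d1043 i707 (k8 i2434 d684 i2465 d647 i519 d1050 i968 i2397 (k8 i635 d2489 d10 d409 d84 d11 d362 i636 (k8 i2143 d60 d1836 i369 d92 i1452 i890 d2488 k0)))) (by decide +kernel)
def d2491 : PP 8 4 T 0x1001000000000000000000000200000040000000004000001000004000005200420 := rS 0x313ac141c3547b3e2c9d8c44cd6292f244a2e523914f25d3db44845b3b858824c (k8 d2180 d2181 d427 i712 i2465 i707 i2434 d647 (k8 i531 d1043 i526 i2143 d60 i527 i915 i635 (k8 i252 i2420 d10 d409 d362 d2487 d385 d380 (k4 d446 d2490 d5 d1846 (k2 d2297 d2189 k0))))) (by decide +kernel)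
def d2492 : PP 8 4 T 0x2001001000000000000000000000000000040000000004000001001000000004900420 := rS 0x11b194d29c7ed2048e51291288ec5e2b5093cf25d4b9eda2421681c6e270896c9801 (k8 d2182 d2180 i2465 i523 d1126 d2251 i519 d1050 (k8 i707 i2434 d647 d684 i531 d1043 i2463 i2574 (k8 i2610 i316 i393 i527 i915 d83 d2450 i262 (k4 d442 d1076 d359 d1330 (k2 d1047 d2275 (k1 d461 k0)))))) (by decide +kernel)
def d2493 : PP 8 4 T 0x1001000000000000000000000200000040000000004000001000000000004900420 := rS 0x15e5e1facc3aa744021a61f4094e18715b9822a3d13b152273548445e4f3c9752e7b68908b66f1681c024c (k8 d2180 d2182 i519 d1050 i968 i2465 i707 i2434 (k8 d647 d684 i531 d1043 i2463 i316 i523 d989 (k8 i837 i915 d1850 d1126 i1386 d2492 d450 d648 (k8 i1279 d383 d369 d465 d476 d2445 d442 d417 (k4 i2141 i1261 i2915 d197 (k2 d2438 i589 (k1 d2489 k0))))))) (by decide +kernel)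
def d2494 : PP 8 4 T 0x1000000000000000000000000200010040000000004000001000000000005000420 := rS 0x22228322f2bc286f16bf522a90393cf25d4b9eda2422d858024c (k8 d2180 d2182 d427 i2465 i707 i2434 d647 d684 (k8 i531 d1043 i2463 i519 d989 i915 d2486 d1050 (k8 i968 d2493 i2397 i635 d2491 d2489 i288 d83 k0))) (by decide +kernel)
def d2495 : PP 8 4 T 0x1000000000000000000000000200010040000000004000001000000000005000020 := rS 0x1540e051082c4c (k4 d2180 d427 i707 d2494 (k2 i361 i362 (k1 i2389 k0))) (by decide +kernel)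
def d2496 : PP 8 4 T 0x4001002000001000000000000010000014000000000004000001400004000006004020 := rS 0xb933b2cca30820d552c922185564c (k8 d2180 d72 d396 i228 i2411 d989 i354 d1836 (k4 d468 d47 d54 d1820 (k2 i2718 i2040 k0))) (by decide +kernel)
def d2497 : PP 8 4 T 0x6001002000000000000000000000000010040001500004400001000000000004200004 := rS 0xbe3f0f996c21eb1ccac52c8d05ace5ad3e2031489445e8f2ab24fa972794d569b30a9c169d4fc606e714ca24ae0e49ab4123323b944a8742c48b67b788e426d122061483b021749801 (k8 d2182 d2180 i531 d430 i393 d2475 d2495 i228 (k8 i2435 i2107 d504 d35 d2466 i793 d418 d53 (k8 d51 i2209 d60 i2143 i2111 i2105 i1285 d28 (k8 d2496 i502 d83 d449 d361 d2349 d426 d11 (k8 d362 d388 i330 d396 d1141 d72 d412 d395 (k8 d684 i1326 i2411 d118 d595 i316 i527 i915 (k8 i1041 d422 d971 d1114 d1958 i1384 d468 d411 (k8 i1793 i1022 i2241 i1386 d435 d713 i2034 i2037 (k2 i376 i1723 k0))))))))) (by decide +kernel)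
def d2498 : PP 8 4 T 0x6001002000000000000000000000000010040001400004400001000000000004200004 := rS 0x581ac44e88f2ac14ae0e49ab4123323b944a18520109801 (k8 d2182 d2180 d430 d2475 d2495 i2209 d60 i2143 (k8 i2111 i2105 i1285 d28 d2496 i502 d5 d118 (k4 d595 d2497 d400 i1062 (k2 d438 d652 k0)))) (by decide +kernel)
def d2499 : PP 8 4 T 0x6001002000000000000000000000000010040001000004400001000000000004200004 := rS 0x7e3d5db098a6c5fb04d26b3f199963416ad59a652c8c4ec8543c48a34350955927d4b93ca6ab4ec606e5b3d975e23b1c84da24438c14ae0e49ab4123323b944a1852010024c (k8 d2180 d2182 d430 d2475 d2495 i2209 d60 i2143 (k8 i2111 i2105 i1285 d28 d2496 i502 d5 d361 (k8 i228 i2435 i2107 d504 i393 d35 i531 d2466 (k8 i793 d2349 d426 d362 d72 d412 d395 d684 (k8 i1326 i2411 d118 i2186 d421 i527 d418 d51 (k8 d53 d2498 d448 i806 i1547 i809 i807 i1384 (k8 d468 d713 d354 i2037 i547 i1623 i1516 i1723 (k4 i2039 d1822 i668 i1681 (k2 i1386 i376 (k1 d1854 k0)))))))))) (by decide +kernel)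
def d2500 : PP 8 4 T 0x6401000001000000000050000000600441400011500000000001000540444006000000 := rS 0x2e504be5d8f9842d5ad3c62e53da753f1838a65123d (k8 i1386 d83 d449 d361 d426 d11 d362 d2466 (k8 d60 i1041 d971 d1114 i1384 d435 i2034 i1944 (k4 i376 d671 i1457 d1891 k0))) (by decide +kernel)
def d2501 : PP 8 4 T 0x6401100001000000000050000000600441000001400000004001000540404006000020 := rS 0x2c0d6227415a3caae5199f44a4c (k8 d2180 i2209 i1326 i2111 d60 d118 d595 i2230 (k4 d2500 d400 i1062 d438 (k1 d652 k0))) (by decide +kernel)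
def d2502 : PP 8 4 T 0x6001002000000000000000000000000010040001000004000001000000000004200004 := rS 0x5390cc35fa097b453f0f9962d5a994b2313b0f58ac75b89c506b89979225117d0c56552185d927d4b93ca6ab4d9854e0b1b96cf6f11c84da23b22174e29944c14ae0e49ab4123323b944a1852010024c (k8 d2180 d2182 d430 d2475 d2495 i2209 d60 i2143 (k8 i2111 i2105 i1285 d28 d2496 i502 d5 d83 (k8 d449 d361 i531 i228 i393 i2435 i2107 d504 (k8 d35 d2466 i793 d2349 d388 i330 d396 d1141 (k8 d72 d412 d395 d684 i1326 i2411 i8 i518 (k8 d118 i2230 d421 i316 i527 i915 d2499 d10 (k8 i2422 i644 i731 i852 i409 d2316 i1386 d2501 (k8 d448 i806 i1547 i807 i1384 d713 i2034 i2037 (k8 d459 i1412 d671 i1724 d156 i925 d435 d478 k0))))))))) (by decide +kernel)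
def d2503 : PP 8 4 T 0x6401100001000000000010004004600440000000000004014441000540004006000004 := rS 0x53d86865f9f99682328f8682d18ad4eb10288bcaae519ab412c9221f44a9944b1c502b020f4024c (k8 d2180 d2182 i1386 d430 i2230 d419 i2135 d83 (k8 d449 i2209 i1326 i228 i2411 i2105 i1285 i2111 (k8 d60 d118 i316 i527 d438 d400 d349 i1041 (k8 i1384 d468 i2034 i1022 d671 d713 i2037 i1724 (k4 i925 i376 d478 d435 k0))))) (by decide +kernel)
def d2504 : PP 8 4 T 0x6001002000000000000000000000000010040000000004000001000000000004200004 := rS 0x343b888b0c5142dc4f133c15e0a0e7291c5625478cc86175682592972794d569b30a9c16372d9ede23909b4476440c290085d49a649801 (k8 d2182 d2180 d449 d28 i531 d430 d2475 d2495 (k8 i228 i393 i2435 i2107 d504 d35 d2466 i793 (k8 d2349 d388 i330 d396 d1141 d72 d412 d395 (k8 d684 i2411 i2105 i1285 i8 i518 i2111 d595 (k8 i2209 i2230 i2143 d60 d2496 d5 i502 d2502 (k8 d404 i1767 i1932 d419 d2316 d2503 i604 i806 (k2 d652 i2125 k0))))))) (by decide +kernel)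
def d2505 : PP 8 4 T 0x8a01000000000000000000000000005001400005000000000001000000000004000000 := rS 0x19a75679dd0e85 (k4 d53 d51 d78 d385 (k2 d400 d454 (k1 i2046 k0))) (by decide +kernel)
def d2506 : PP 8 4 T 0x8001102000000000000000000000200140440001050000401001240544000004600000 := rS 0x16cbb37b198ab4618c4da222c44503124197522a327a6cc2d12d9ed3a9f8c3c59e355c95cce4c (k8 d2180 d86 i529 d43 d446 d385 d35 d426 (k8 d11 d362 d2466 i793 i2435 d396 d1141 d395 (k8 i115 i915 i531 d1355 d418 d46 d2505 d438 (k8 i604 i2445 i1572 i2129 i249 d2336 d631 i1399 (k2 i1679 i2045 (k1 i887 k0)))))) (by decide +kernel)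
def d2507 : PP 8 4 T 0x2001100000000000004050010000405400400810400000015001000554000086008000 := rS 0x30974313aad62023 (k8 i245 d438 i1396 d400 i1041 d1891 i2035 i1944 k0) (by decide +kernel)
def d2508 : PP 8 4 T 0xa001100000000000000000000000600440440010000000801001240500440006208000 := rS 0x618c4da222c2083c3e1eb158e27141ae261719b453a9f8c0dcb67b2ebc53289678d4ee2d5c95cce4c (k8 d2180 d86 i529 d43 i1383 d78 d446 d385 (k8 d83 d449 d35 i531 d2466 i793 d2349 d426 (k8 d11 d362 i2435 i2111 i8 d10 i2422 i644 (k8 i731 i409 d2316 i1386 i2034 i256 d671 d2507 (k4 i604 i2445 i1572 i2129 (k1 d631 k0)))))) (by decide +kernel)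
def d2509 : PP 8 4 T 0x2001002000000000000000000000000010040000000004000001000000000004200004 := rS 0xf1122f83a0b164c9c4e6a91791c568f2ab9466430bb24fa254ba6cc2a7058dcb67b788e426d11d91030a4021749801 (k8 d2182 d2180 i531 d430 d2475 d2495 i228 i393 (k8 i2435 i2107 d504 d35 d2466 i793 d2349 d388 (k8 i330 d396 d1141 d684 i2209 i1326 i2411 i8 (k8 i518 i2111 d60 d118 d595 i2230 i2143 i316 (k8 d989 i837 d361 d449 d2504 d2358 d1836 d2508 (k2 d418 d2506 (k1 d404 k0))))))) (by decide +kernel)
def d2510 : PP 8 4 T 0x4001102000000000000000000000000010040001400004410001000000000004200004 := rS 0xf97e933f30996c732b14682d6753c62b53ac404691399445e8f2a8cd5a09649f52e4f29aad36614ea7e30378a95c1c47728950e858916cf6f11c84da2440c29076042e9049801 (k8 d2182 d2180 d2181 i531 d430 i393 d2475 d2495 (k8 i228 i2435 i2107 d504 d35 d2466 i793 d418 (k8 d53 d51 i2209 d60 i2143 d1836 i502 d2509 (k8 d2349 d426 d11 d362 d396 d1141 d72 d412 (k8 d395 d684 i1326 i2411 i2105 i1285 i2111 d118 (k8 d595 i316 i527 i837 i915 i245 d438 d400 (k8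 d349 i1041 d971 d1958 i1384 d468 i1793 i1022 (k8 i2241 d713 d435 i2037 i1638 i1723 d1250 i376 k0)))))))) (by decide +kernel)
def d2511 : PP 8 4 T 0x4001102000000000000000000000000010040001400004400001000000000004200004 := rS 0x68222c1111e18520109801 (k8 d2182 d2180 d430 d2475 d2495 d595 i228 d2510 (k2 i604 d652 (k1 i2125 k0))) (by decide +kernel)
def d2512 : PP 8 4 T 0x4001102000000000000000000000000010040001000004400001000000000004200004 := rS 0xc21f1b17e93349acfcb53332e202d669944659189d90a87891cca22f2a8cd5a09649f52e4f29aad36614ec606e5b3d975e23b1c84da2448a95c1c477289430a402104024c (k8 d2180 d2182 d2181 d430 d2475 d2495 i2209 d60 (k8 i2143 d1836 i502 d2509 i228 i2435 i2107 d504 (k8 i393 d35 i531 d2466 i793 d2349 d426 d362 (k8 d396 d1141 d72 d412 d395 d684 i1326 i2411 (k8 i2105 i1285 i2111 d118 i316 i527 i837 d418 (k8 d51 d53 d2511 d448 i806 i1625 i1547 i809 (k8 i1384 d438 d713 d354 d349 i2037 i547 i1623 (k4 i1638 i1723 i2039 d1250 (k2 i668 i376 k0))))))))) (by decide +kernel)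
def d2513 : PP 8 4 T 0x5001102001000000000050004000600401000001400004010001000540020006000004 := rS 0x1f20cdc7e65aeccac21a0b43b4f18ad4eb10119445e8f2a8cd5a0964910fa4f29aacf69d4fc60ae0e23b944a041e904024c (k8 d2180 d2182 d2181 i1386 d430 i2209 d60 i2143 (k8 d1836 i502 d426 d11 d362 d2466 d72 d412 (k8 d395 i1326 i228 i2411 i2105 i1285 i2111 d118 (k8 d595 i316 i527 i245 d438 d400 d349 i1041 (k8 d971 i1381 i1384 d468 d435 i1022 i1944 d713 (k4 i2037 d1188 i926 d1332 (k1 i257 k0))))))) (by decide +kernel)
def d2514 : PP 8 4 T 0x5001102001000000000050004000600401000001400004000001000540020006000004 := rS 0x1a088b044478109801 (k8 d2182 d2180 d430 d595 i228 d2513 i604 d652 (k1 i2125 k0)) (by decide +kernel)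
def d2515 : PP 8 4 T 0x4001102000000000000000000000000010040001000004000001000000000004200004 := rS 0x831f1b9267e5ab2e202d3288cb2313b3158eb7138a0d7132f15c1c91399445e4715955ca332185d5a09649f44a972794d569b30a9c16372d9ede23909b4476440c290085d8a9049801 (k8 d2182 d2180 d2181 d2509 i531 d430 d2475 d2495 (k8 i228 i393 i2435 i2107 d504 d35 d2466 i793 (k8 d2349 d388 i330 d396 d1141 d72 d412 d395 (k8 d684 i2209 i1326 i2411 i2105 i1285 i8 i518 (k8 i2111 d60 d118 i2230 i2143 i316 i527 i837 (k8 i915 d1836 i502 d2512 d10 i2422 i644 i731 (k8 i852 i409 d2316 d2514 d448 i806 i1625 i1547 (k8 i1384 d438 d713 d349 i2037 i1638 d2038 d1250 (k2 i1439 d671 k0))))))))) (by decide +kernel)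
def d2516 : PP 8 4 T 0x4001002000000000000000000000200010000000000004000001000000000006004020 := rS 0x2486ae5238cd5a09 (k8 i2105 i1285 i2111 i2143 d60 i354 d2496 i1365 k0) (by decide +kernel)
def d2517 : PP 8 4 T 0x5001002000000000000000004000600400000004000004010001001540020006008004 := rS 0x7c833732cca341687462b53ac40465117955ca3356825924427c14ae2502104024c (k8 d2180 d2182 d2181 d430 i2209 i502 d5 d395 (k8 i228 i2411 i2105 i1285 i2111 d60 d118 i316 (k8 i527 i245 d438 d400 d349 i1041 i1381 i1384 (k4 d468 i1022 d713 d1188 (k2 i1439 d1332 (k1 i257 k0)))))) (by decide +kernel)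
def d2518 : PP 8 4 T 0x4001002000000000000000000000000010040000000004000001000000000004200004 := rS 0x6877111607ac55b8a0bc27899e0af05070ac4a8f2185d92534d9854e0b1b96cf6f11c84da23b2206148042ec549801 (k8 d2182 d2180 d2509 i531 d430 d2475 d2495 i228 (k8 i393 i2435 i2107 d504 d35 d2466 i793 d2349 (k8 d388 i330 d396 d1141 d412 i2411 i8 i518 (k8 d595 i2209 i2230 d2516 d5 i502 d2515 d404 (k8 i1767 d418 d419 i852 d2316 i1386 d2517 i604 (k2 i806 d652 (k1 i2125 k0))))))) (by decide +kernel)
def d2519 : PP 8 4 T 0x9001102000000000000000000000200000440001000004401001240540000004600000 := rS 0x2cd6e6a37afd8ab4618c4445888c48ba9139945a2c92794d62af2d9ed3a9f8c3c59e355c95cce4c (k8 d2180 d86 i529 d43 d446 d385 d35 d426 (k8 d11 d362 d2466 i793 d347 d455 d412 d395 (k8 i2411 i2435 i527 i837 i915 i531 d418 d2505 (k8 d438 i604 i1572 i2129 i249 d2336 i1452 i1399 (k4 d654 d648 i634 d2314 k0))))) (by decide +kernel)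
def d2520 : PP 8 4 T 0x1401100000001000004110014015400454000000000445011001001554501006208000 := rS 0x1e86221034541a647eb25e2fd94653630862755ac4046510ba753f187895d8e4c (k8 d2180 i409 i529 d35 d426 d11 d362 i8 (k8 i527 i245 d438 d1189 d400 i1041 i2035 i370 (k8 i1699 i2040 i1454 i674 i673 i376 i1991 i1415 (k4 d355 i1334 i2034 d357 (k2 i230 d476 k0))))) (by decide +kernel)
def d2521 : PP 8 4 T 0x9001002000000000000000000000200010040000000004800001000000000004200020 := rS 0x618c4da222c0f58ac75b8a0d71317894aa332185d5a094b94d569b30a9c16372d9ede23909b44765d678d5262d5c95cce0e82b2488185491dca4c (k8 d2180 d60 i2143 d989 d2495 i228 i2411 d2358 (k8 d1836 d86 i529 d43 i1383 d480 d446 d385 (k8 i531 i393 i2435 i2107 d504 d35 d2466 i793 (k8 d2349 d388 i330 d396 d1141 d72 d412 d684 (k8 i2105 i1285 i8 i518 i2111 d118 i2209 i316 (k8 d10 i2422 i644 i852 i409 d2316 i1386 d2520 (k4 i604 i2445 i1572 i2129 (k1 d631 k0)))))))) (by decide +kernel)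
def d2522 : PP 8 4 T 0x1002000000000000000000000000010040000000004000001000000000004200004 := rS 0x788917e0b168a8dcb67b78975523b47955ca332185d923909b448818520109801 (k8 d2182 d2180 d430 d2475 d2495 i228 i2435 i2107 (k8 d504 i2411 i8 i518 i2111 d60 d118 d595 (k8 i393 d989 i531 d35 d2466 i793 d2349 d2509 (k4 d2518 d2358 d2521 d418 (k2 d2519 d404 k0))))) (by decide +kernel)
def d2523 : PP 8 4 T 0x6001000000000000000000000000200440040000000000000001005105400004148020 := rS 0x34d3cd6c233298682d1db946e11 (k8 i523 d2251 d60 i393 i1384 d468 d1330 i355 (k4 i367 i547 d433 i1828 (k1 d122 k0))) (by decide +kernel)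
def d2524 : PP 8 4 T 0x4001100000000000000000000000000000000000000000005001000002000006000020 := rS 0x444b2741a9dd1e4c (k8 d2180 d595 d448 i17 i1041 d652 d400 d438 k0) (by decide +kernel)
def d2525 : PP 8 4 T 0x4001002000000000000000000000000010040000000004000001000000000004000004 := rS 0x26512b8499f8b26b65998cb151a0b4625782838e6511d8be868f2ab9466ad04b2472133e8952e4f29aad3661688dc7a3f0a91030a408810024c (k8 d2180 d2182 d430 i523 d2475 d2495 i228 d2522 (k8 d1887 d1889 d2251 i2435 d396 d1141 d72 d412 (k8 d395 d684 i2209 i1326 i2107 d504 i2411 i2105 (k8 i1285 i2111 d60 d118 d595 d421 i316 i393 (k8 i527 i837 d2516 d5 i502 d2524 i1384 d468 (k8 d2523 i1022 i355 d713 i547 i544 d2310 i1638 (k4 d391 i359 d344 d485 k0))))))) (by decide +kernel)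
def d2526 : PP 8 4 T 0x1100000000000000000000040a00000000000001000000001000000000004040000 := rS 0x6b34d3d74c2 (k4 i367 i368 d433 i1828 (k2 i1946 d467 k0)) (by decide +kernel)
def d2527 : PP 8 4 T 0x1002000000000000000000000000010040000000004000001000000000004000004 := rS 0x5988880e83061af68ab2539b41c578299c6acf8b2fd8e3f1bb142a0b57ac5523b0881e864704955ca332185d923909b448818520109801 (k8 d2182 d2180 d430 d2475 d2495 i228 i2435 i2107 (k8 d504 i2411 i8 i518 i2111 d60 d118 i2105 (k8 i2143 d421 i519 i523 i393 d989 d455 d347 (k8 d388 d2522 d1850 d2251 d1887 d1864 i1451 d2525 (k8 d385 d446 d86 d2358 i529 d1836 i667 d2526 (k8 d1011 d355 i1414 d156 d631 i1041 i1042 d400 (k2 i723 d438 k0))))))) (by decide +kernel)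
def d2528 : PP 8 4 T 0x1001000000000000000000000200010040000000004000001000000000004200020 := rS 0x2dcdf0c0f99a2e813cc48be1d4fa756b1888264e2374d9acb2652bc16285b59aa81c89699ed4e0a7897522731d8bc4aa147955ca33648e42697689105a430b860a24c (k8 d2180 i527 d2495 i8 i518 d2399 i228 i2435 (k8 d684 i2107 d504 i2411 i2111 d60 d118 d595 (k8 i2186 i2209 i316 i393 i837 i915 i531 d35 (k8 d2468 i2217 d2466 d50 i2108 i361 i362 i660 (k8 i793 d417 d5 i502 i1659 i2391 i2394 d2390 (k8 d2349 d361 d449 d438 d426 d349 d362 d11 (k8 i1381 d2374 d418 d404 d46 d2505 d354 d2412 (k4 d479 d356 d352 d2383 k0)))))))) (by decide +kernel)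
def d2529 : PP 8 4 T 0x4001100000000000000000000000000010040000000004000001000000000004000004 := rS 0x22a8969a6c14b35532cca341895c1c2fa191c4a55728cd5a09648e42697688b48617288f47e157e91030a408810024c (k8 d2180 d2182 d430 i523 d2475 d2495 i228 d2527 (k8 d2528 d1887 d1889 i527 i8 i518 d2399 i2435 (k8 d684 i2107 d504 i2411 i2105 i1285 i2111 d60 (k8 d118 i2209 i2143 d421 i316 d1836 i502 d2524 (k8 d528 i1022 d713 d436 i2440 i579 d2390 d50 (k2 i2108 d2523 (k1 d417 k0))))))) (by decide +kernel)
def d2530 : PP 8 4 T 0x4001000000000000000000000000000010040000000004000001000000000004000004 := rS 0x1420cb44f861c56b143fc443ab9101d1a4304982c6a0f82174a20772d0c122b09a84667d1297c7e157e91030a4088109801 (k8 d2182 d2180 d430 i523 d2475 d2495 i228 d2527 (k8 d2528 d1887 i643 i2209 i1326 i2111 i2186 i2107 (k8 i2230 i2105 d421 d60 i519 i527 i531 d2529 (k8 d5 i354 i361 i1365 d468 d442 i1041 i1042 (k8 i2718 d42 d400 i1667 d391 i727 d361 d481 (k4 i789 d2397 d1355 d2403 (k1 i1805 k0))))))) (by decide +kernel)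
def d2531 : PP 8 4 T 0x400000000000001101000000000010000010010000800040000000000000001000000000004008000 := rS 0x55b2d6460 (k4 d1141 d2390 i1391 i2440 (k1 d436 k0)) (by decide +kernel)
def d2532 : PP 8 4 T 0x1001000000000000000000000a00000000000000000000001000000000004148140 := rS 0x6a551a69e0a5eb09a6a3 (k8 i115 d359 i367 i1985 d442 d433 i1828 i362 (k2 d122 i586 k0)) (by decide +kernel)
def d2533 : PP 8 4 T 0x1101000000000010000010000200000040000000004000001001000100004140120 := rS 0x16aa6932d12608aa9d360e548ec5e0772d0c8ead1ca5de011 (k8 i523 d371 d684 d504 i1285 i2143 d421 d60 (k8 i519 i316 i393 d989 d1836 d2531 d2532 d1808 (k4 d450 i1277 i1391 d417 (k2 d436 d462 (k1 i579 k0))))) (by decide +kernel)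
def d2534 : PP 8 4 T 0x1001000000000000000000000010000000000000000100141200000040004150540 := rS 0x2dc3050832f8fca6d2 (k8 d442 i564 d1887 i643 d1355 d2403 d399 i1805 (k1 d2397 k0)) (by decide +kernel)
def d2535 : PP 8 4 T 0x1000000000000000000000000000010040000000004000001000000000004000004 := rS 0x168f27a8a9c09c1d53b48160f822e62c3d0a8b5fad121a84262b220242e1852174a211038109801 (k8 d2182 d2180 d430 i519 i523 i527 i531 d2475 (k8 d2495 i8 i2105 i228 i2230 i2107 i2186 i518 (k8 i2435 d2527 d2399 d2528 d1889 d2530 d43 d2533 (k8 d5 i361 d442 d359 d42 d2534 i789 d361 (k4 d2470 i81 d647 d178 k0))))) (by decide +kernel)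
def d2536 : PP 8 4 T 0x4001100000000000000100000000001001400005100040000001000000000005200000 := rS 0x1a10d4f429b59e7711990aa2635a7e31132f1082c4c (k8 d2180 d427 i707 i635 d10 d409 d11 i2420 (k8 i636 i2464 d354 d1612 i1547 i1029 i1699 i1772 (k4 d971 d826 d467 i1563 k0))) (by decide +kernel)
def d2537 : PP 8 4 T 0x1102000000000000000000000100461000005000004000001000010000005200020 := rS 0xe9c1a4991fac978bb40a0cd94f662150eca6283c422d720c48e77678ce2c7503d0ccec93eab5528f608bcc29d5b9be2a7378898524535a9c16bf4fc62265e21058824c (k8 d2180 d2181 d427 i707 i635 d10 d409 d11 (k8 i1725 d388 i330 i2420 i526 i252 i636 d35 (k8 i837 d350 i2644 d648 i1678 d396 i316 i1518 (k8 i1102 d989 i1558 i1598 i1100 i1674 d447 i519 (k8 d1846 d2536 d379 d385 d78 i264 d2297 d2189 (k8 i978 d25 d37 d75 d2292 i737 i1771 i2046 (k8 d73 i891 i895 i1975 i1948 i674 i673 d219 (k4 i1990 d2183 i2045 d42 (k1 i709 k0))))))))) (by decide +kernel)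
def d2538 : PP 8 4 T 0x1000000000000000000004000400441000005044000000001000000208004800000 := rS 0x830f8fd3271 (k4 d70 i981 i1423 i1303 (k2 i736 d2249 k0)) (by decide +kernel)
def d2539 : PP 8 4 T 0x1002000000000000000000000100461000005000004000001000010000005200020 := rS 0x1f8e0b53ac5c642d2cb2cca0f8229c4c515ca4d927d56aa51ec11795cce4f3094d560b2a9096e6f0b454e64c (k8 d2180 i837 d350 d427 i2644 d648 i707 i2464 (k8 d388 d72 d412 d396 d395 i1674 i529 i316 (k8 i1518 i1102 d989 i1558 i1598 i1100 i83 i104 (k8 i527 i636 i330 d2537 d5 d47 d54 d92 (k8 d2538 d2292 d379 d460 d1148 d1617 i2037 i2467 k0))))) (by decide +kernel)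
def d2540 : PP 8 4 T 0x1000000002000005000000000001001001005000000000001000514041504110020 := rS 0x44e32f04f04d8a3718b0d8e47 (k8 i264 d1864 d470 d39 d2251 d1850 i266 i2035 (k4 d371 d11 d910 d409 k0)) (by decide +kernel)
def d2541 : PP 8 4 T 0x201002000002000001000000000100000041000500004000001000004000505004004 := rS 0x438a625191c33d8eca238ec0f1556aa5822f04aac162b12a3ce69d6289c2a7b4d9852ed1211e4ba3533a4422042d859862d18a509801 (k8 d2182 d2180 d2535 d39 i978 d470 d427 i2465 (k8 d430 i523 i915 i1674 d988 i531 d1043 i707 (k8 i2434 d684 d396 d1141 d647 d2539 d1126 d1850 (k8 i1678 i837 i1102 i860 i2610 d388 d72 d413 (k8 i316 i1518 d989 i1558 d350 i519 i393 i264 (k8 d1821 d1864 d2258 d2540 d364 d409 d386 d51 (k1 d505 k0))))))) (by decide +kernel)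
def d2542 : PP 8 4 T 0x4001102000002000000000000000100000040000000004000001000000000005000004 := rS 0x8714b1e24128c8e194d3510c986510394c162b12b144e154d9852e79488459a7b6896c47103a914420f21214b2773232552550b0111e731a95cce942e9300241 (k8 d2181 d2182 d2180 i531 d2535 i1674 i529 d988 (k8 i837 i1102 d430 d427 i2464 d989 i1100 d354 (k8 i1547 d652 d1014 i707 d2477 d2418 i526 d1846 (k8 d422 d1612 i2465 i2434 d647 d1107 i523 i915 (k8 d1043 d684 d396 d1141 d2539 d1126 d1850 i860 (k8 i2610 d388 d412 i519 i527 d470 d2541 i1671 (k8 d375 d2427 d2432 d364 d504 d409 i2147 d386 (k2 d51 d505 k0)))))))) (by decide +kernel)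
def d2543 : PP 8 4 T 0x4001102000000000000000000000100000040000000004000001000000000005000004 := rS 0x21c52c78904a32381930c8ce5428862059079dc466464aa4ae2b2a8951e736289c2a7b4d9852ed1211e4ba3533a5122112d858ea04229308201 (k8 d2182 d2181 d2180 i526 d430 d1846 d427 i2465 (k8 i523 i915 d2535 i1674 d988 i531 d1043 i707 (k8 i2434 d684 d396 d1141 d647 d2539 d1126 d1850 (k8 i837 i1102 i860 i2464 i2610 i529 d989 i1100 (k8 d354 d1612 i1547 d2477 d652 d422 d2418 d1014 (k8 d2542 d1836 i2144 i264 d2426 d364 d504 d409 (k4 i2147 d386 d51 d505 k0))))))) (by decide +kernel)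
def d2544 : PP 8 4 T 0x8001002000000000000804000000000000040000000004000001000101000004900004 := rS 0x985e464d89e1d8d4ce4f29ac55e792ea6cc29d4badcf6d12116cdf154a1cd8a3767b1c8e3308810024c (k8 d2180 d2182 d430 i523 d379 i264 d1864 d385 (k8 d2251 d1850 i837 d2535 d350 i2644 i2465 i707 (k8 i2434 d647 d648 d684 i1678 d396 d1141 i531 (k8 d1043 d347 d455 d412 d395 i1674 d988 i393 (k4 i2035 d631 d11 i674 (k2 d2279 i1990 k0)))))) (by decide +kernel)
def d2545 : PP 8 4 T 0x8001102000000000000000000000100000040000100004000001000000000004904004 := rS 0x34d3d989f36afd0a875e9ae24980946470ca16b0c62e44881d5aa947b045e4f2982562af5582cf25d4d9853a975b9eda2422d9be2a9439b3cee4719810024c (k8 d2180 d2182 d430 d379 i264 d78 d385 i837 (k8 d2535 d350 i2644 i2465 i707 i2434 d647 d648 (k8 d684 i1678 d396 d1141 i531 d1043 d388 d72 (k8 d347 d455 d413 d412 d395 i316 i1518 i1102 (k8 d989 i1558 i519 i915 d1836 d39 d470 i978 (k8 d1821 d2544 d364 d504 d2279 d409 i1960 i1990 (k8 d51 d53 i1454 i674 i1113 i2046 d73 i1830 (k1 d467 k0))))))))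 (by decide +kernel)
def d2546 : PP 8 4 T 0x1102000000000000000000000100000040000000004000001000000000005000004 := rS 0x1ad64865f84d3e398c44cbca7863499a855a9fe22a310161ca0e3bb3e2c7503d0cfa8f39b045e535782c8a2b50a758a3f048f562270a9ed36614bb4484792e8d4ce9448844085b0b1049801 (k8 d2182 d2180 d2181 d427 i2465 d430 i523 i915 (k8 d2535 i1674 d988 i531 d1043 i707 i2434 d684 (k8 d396 d1141 d647 d2539 d1126 d455 d1361 d413 (k8 d1076 d1850 i1678 i2574 i2610 i526 d388 d347 (k8 d412 i316 i1518 i837 i1102 i1598 d447 i519 (k8 d1846 d2543 d385 d78 d2545 d37 i595 i596 (k8 i322 d411 i844 i728 i1503 i729 d475 d481 (k8 d359 d1682 d10 d409 d364 d11 i266 i1725 (k4 i2046 d533 i634 i930 k0))))))))) (by decide +kernel)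
def d2547 : PP 8 4 T 0x4001002000000000000000000000000000040000000514010001400000200004944004 := rS 0x85a79b186cd4f9784518899d132715ca4d92a94795cce4f29ac55e792ea5d36615b9eda2422d9be2a9439b146ec708810024c (k8 d2180 d2182 d430 i523 d1864 d2251 d1850 i837 (k8 d2535 d350 i2644 i2465 i707 i2434 d647 d648 (k8 d396 d1141 d684 i531 d1043 d347 d455 d412 (k8 d395 i1674 i529 i1102 d989 i1100 i83 i104 (k8 d70 i980 d1617 d2454 d2279 i971 d418 d11 (k4 i890 i251 d1837 d389 (k2 i1603 d667 k0))))))) (by decide +kernel)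
def d2548 : PP 8 4 T 0x4001202000000000000100010010000004400010104044000001000000000004800000 := rS 0x1f8e0b539944ae4f3094d565532b2cb24c (k8 d2180 d92 d54 d47 i2464 d72 d412 d396 (k8 d395 i529 i527 i837 d1148 d1617 i2037 i2467 k0)) (by decide +kernel)
def d2549 : PP 8 4 T 0x4001202000000000000000000000100000040000000004000001000000000004900004 := rS 0xe230124c8b066745ca4ccec93eab5528f608bc9e5358abc16792ea6cc2b73db44845b37c5528731b844086b07995966923964024c (k8 d2180 d2182 d92 d81 d431 d54 d47 d5 (k8 d366 d430 i523 d2251 i837 d2535 d350 i2644 (k8 i2465 i707 i2434 d647 d648 d396 d1141 i531 (k8 d1043 d388 d347 d455 d412 d395 i316 i1518 (k8 i1102 d989 i1558 i1598 i1100 i1674 i83 i104 (k8 d2548 d460 d2292 i980 d2547 d2279 i266 d364 k0)))))) (by decide +kernel)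
def d2550 : PP 8 4 T 0x1002000000000000000000000100000040000000004000001000000000005000004 := rS 0x42d3cd8c33a04d9a224f8e4bcb48c396270c4c8c0e22c19c598e59239a5960f35c106ec50aa44223556aa5822f2b99c9e5358abc16553c9744a8f4ba6cc2b73db4484042d9bc2d154a1cc9801 (k8 d2182 d2180 i837 d2535 d350 d427 i2644 i2465 (k8 d430 i707 i2434 d647 d648 d396 d1141 d684 (k8 i1102 i860 i531 d1043 i2464 d388 d347 d455 (k8 d412 d395 i1674 i529 i316 i1518 d989 i1558 (k8 d988 i523 i915 d2539 d1850 d2251 d2546 d366 (k8 d5 d54 d431 d81 d92 d1864 d2549 d379 (k8 d2292 d70 i978 i980 d383 d2454 d39 d2279 (k8 d1154 d418 d364 d11 d1261 i890 i266 i1571 (k4 i251 d1837 d389 i1603 (k1 d667 k0)))))))))) (by decide +kernel)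
def d2551 : PP 8 4 T 0x1100000001000000000000000001001000005400000000001580014000004200020 := rS 0x8cc4c626b14978ea41 (k8 d2181 d1846 i635 i252 i2420 d2297 d10 d2189 (k1 d409 k0)) (by decide +kernel)
def d2552 : PP 8 4 T 0x400000000000001102000000000000000000000201000440001400000040001180114000004000060 := rS 0x2328d4f0c10ec335af68ab25384c76af059d4b06d67c586e3d58b1d0ac55f8fc12cd13854f6d148844400e23b949841 (k8 d2181 d2180 d60 i2143 d1836 i596 i523 i915 (k8 i2434 d647 d2551 d1126 i729 d413 d1076 i1451 (k8 d1850 i1503 d1864 d455 d1361 d2251 d2477 d385 (k8 i2443 i595 d1846 d388 d347 i393 i266 d2526 (k8 d533 d355 i1414 i634 d156 i930 d631 d1306 (k2 d2299 d11 (k1 d461 k0))))))) (by decide +kernel)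
def d2553 : PP 8 4 T 0x400000000000001102000000000000000000000201000440001400000040001180014000004000060 := rS 0x18232323813b142a7548844f6d17291c824c (k8 d2180 d2181 i2143 d60 i2434 d647 i523 i915 (k8 d1846 d2551 d1850 d1126 d2552 d364 d461 d2273 (k1 d2299 k0))) (by decide +kernel)
def d2554 : PP 8 4 T 0x1001000000000000000000000000000000000000044000000001000000000085000000 := rS 0xe30d (k2 d476 i1357 (k1 d383 k0)) (by decide +kernel)
def d2555 : PP 8 4 T 0x1001002000000000000400001000200000000000044000014001000000000004800000 := rS 0x7186874aa4c (k4 d2180 i2464 i1381 d1154 (k2 i709 d383 k0)) (by decide +kernel)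
def d2556 : PP 8 4 T 0x8001000000001000000000002000001001400005100000000001080000001404214000 := rS 0x9e8c21d0b1366898bc13 (k8 i137 i635 i636 d1527 d10 i1772 i2490 d409 (k2 d1306 d11 k0)) (by decide +kernel)
def d2557 : PP 8 4 T 0x1002000000000000000000000000000040000000004000001000000000005000004 := rS 0x5e2c90ca709a7c7318899799a8513b142a3d4434c382088ad19f163a88c3e59659941e6b821dc5a3372a913a7b4bb444a7937908b65522858ba91088bc0f155ca4e8635649f55aa90223ce65733a5012b15782c9801 (k8 d2182 d2180 d388 d347 d455 d413 d2535 i1674 (k8 i529 i837 i1102 d430 d989 i1558 i1598 i1100 (k8 d988 d447 i83 i104 d350 i519 i316 i523 (k8 i915 i531 d427 i526 i2464 i2465 i707 i2644 (k8 d1043 i860 i2434 d684 d647 i1678 d2550 d60 (k8 i289 i1383 i712 d2553 d366 d5 d47 d54 (k8 d92 d2554 i248 i971 d2548 d385 d2555 d349 (k8 d410 i727 d42 d417 i1346 d2556 d1850 d1126 (k8 i1503 i729 d1171 d10 d409 d364 d11 i266 (k4 i282 i2046 d533 i934 (k1 i1413 k0))))))))))) (by decide +kernel)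
def d2558 : PP 8 4 T 0x4001102000000000000000000000100000040001100004000001000000000004200004 := rS 0x762a97d9e85628a4d6595bb901e6f18a462a35479ccaeaf058cc5a9d4bb0cda6464aa4ce944fc606e5b3d975e23b1c84da2440c0109801 (k8 d2182 d2180 d430 d2557 i228 i2435 i2107 d504 (k8 i393 d35 i531 d2466 i793 d2349 d426 d11 (k8 d2535 i1674 d989 i1100 d354 i1699 i370 d684 (k8 i1678 i2715 d982 d388 d347 i529 i837 i1102 (k8 d988 d350 i915 i1041 i1057 d528 d468 d648 (k8 i603 i627 d2346 d75 d1014 i1029 i644 d2312 (k2 d1958 i1547 k0))))))) (by decide +kernel)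
def d2559 : PP 8 4 T 0x4001102000000000000000000000100000040001000004000001000000000004200004 := rS 0x164ab113b9d00835479ccae674a1309601 (k8 d2182 d2179 d2180 d2535 i1674 i529 i837 i1102 (k8 d988 d430 d2558 i79 d400 i1540 d652 d438 k0)) (by decide +kernel)
def d2560 : PP 8 4 T 0x1102000000000000000000000100000040001100004000001000000000004204004 := rS 0x2265f880a4d659488d51e5733abc163316a752e9f8c0dcb65d2a9de2c315b9bcf6f11c84da2440c0ec09154a1cc9801 (k8 d2182 d2180 i837 d2535 d350 d430 i393 d2557 (k8 i228 i2435 i2107 d504 d35 d2466 i1057 d648 (k8 i1041 d2559 d78 i791 i531 i793 d2349 d426 (k8 d11 d684 i1678 i2715 d982 d388 d347 i1674 (k8 i529 i1102 d988 i915 i603 i627 d2346 d438 (k2 i644 d2505 (k1 d418 k0))))))) (by decide +kernel)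
def d2561 : PP 8 4 T 0x8001102001000000000000000000100000040001100004010001000000000004008004 := rS 0xf4311081a2a0d323f592f184ca360a0d669a79790d1366ad6208511a44a22f49ab5528f2b99c9e25198b536614ea5d3f181b96cbacf2a9dc62b7379ec721368910303b024552873729049801 (k8 d2182 d2180 d2181 d37 i837 d2535 d350 d430 (k8 i393 d2557 i228 i2435 i2107 d504 d2466 i1057 (k8 d648 i1041 d78 i791 d385 i531 i793 d2349 (k8 d426 d11 d684 i1678 d396 d1141 i2715 d982 (k8 i2209 d395 i1674 i529 i1102 d989 i1558 i83 (k8 i316 i527 i915 i245 d1014 d438 d1261 d454 (k8 d2505 d1306 d418 d478 i1563 i2422 i644 d467 (k8 d1313 i668 i674 i673 i375 i1990 i1415 d355 (k4 i1334 d485 d357 i230 (k1 d476 k0)))))))))) (by decide +kernel)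
def d2562 : PP 8 4 T 0x1102000000000000000000000100000040001100004000001000000000004200004 := rS 0xb32f9a98ac3111601cb7378c4e6518a8d592a92b99c9e5358abc86175fa7e30372d9ecbaf11d8e426d122060089467c589801 (k8 d2182 d2180 d2559 d385 d2535 d430 d2557 i228 (k8 i2435 i2107 d504 i393 d35 i531 d2466 i793 (k8 d2349 d426 d11 i1725 i8 i518 d347 d455 (k8 d412 d395 i1674 i529 d989 i1100 d988 d350 (k8 i527 i837 i1041 i1057 d648 d2560 d2561 i604 (k4 i2129 d2336 d654 i2422 (k2 i634 d2314 k0))))))) (by decide +kernel)
def d2563 : PP 8 4 T 0x1102000000000000000000000100000040001000004000001000000000004200004 := rS 0xb32fadcd46f62b0c627f1116222742a9dd9f16399462a3564aa4ae672794d62af2185d7e9f8c0dcb67b2ebc4763909b448818022509801 (k8 d2182 d2180 d2535 d430 d2557 i228 i2435 i2107 (k8 d504 i393 d35 i531 d2466 i793 d2349 d426 (k8 d11 i1725 i8 i518 d347 d455 d412 d395 (k8 i1674 i529 d989 i1100 d988 d350 i527 i837 (k8 d2559 d385 d78 i791 d2562 d400 d438 i604 (k8 i844 i1572 i2129 d2336 i1058 d654 d648 i2422 (k2 i634 d2314 k0)))))))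 (by decide +kernel)
def d2564 : PP 8 4 T 0x4001100000000000000100004040100040000000000404100001000515120006200420 := rS 0xf2d9ede24c (k4 d2180 d35 d2466 i793 (k2 d528 d2346 k0)) (by decide +kernel)
def d2565 : PP 8 4 T 0x4001100000000000000100004040100040000000000404104001000514120006200420 := rS 0x151ca30 (k4 d2564 d39 d2524 d118 k0) (by decide +kernel)
def d2566 : PP 8 4 T 0x1001102000000000000400001010000000000010404004014001000000000004000000 := rS 0xe30d3f1cca24f29aacaa4c (k8 d2180 i791 d72 d412 d395 i527 i837 d2310 (k2 d1154 i799 (k1 d383 k0))) (by decide +kernel)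
def d2567 : PP 8 4 T 0x1102000000000000000000000100460000002100004100001000510000006200020 := rS 0x86a068a834cac978ca5a9647e23361a69ec263b941c6f189445f153e9cd5a1312a753f186290c2ecf3bc596e533597850271b96cf64489bc4562d1982d5e5733b25524c (k8 d2180 d989 i1100 i1674 i529 d347 d388 d982 (k8 i2715 i2230 d35 d404 i228 d2466 i793 d2349 (k8 i1767 d419 d418 i2422 d412 i852 d2565 d78 (k8 d385 i8 i518 d2316 d426 d11 i1678 i2209 (k8 i2107 i1558 i837 i1598 d350 i316 i527 i1041 (k8 i1057 d2346 d37 i409 i2035 d433 i1828 i370 (k8 i2129 i375 i2445 d1261 d2566 d1516 i673 i1990 (k4 i1415 d355 i1334 d1283 (k1 d357 k0))))))))) (by decide +kernel)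
def d2568 : PP 8 4 T 0x1102000000000000000000000100000040000000004000001000000000004200004 := rS 0x18631111618f113a154eecf8b3156e6b141784f133c27e30372d9ede25d1d8446ac95495cce535782c56331690c2e3909a6cc29d4bb448818022509801 (k8 d2182 d2180 d2535 d430 d2557 i228 i2435 d684 (k8 i1678 d396 d1141 i2107 d504 i8 i518 i2715 (k8 d982 i2230 d388 d347 d412 i1674 i529 d989 (k8 i1100 d988 i523 i393 i531 d35 d2466 i793 (k8 d2349 d426 d11 d2563 d404 i1767 d418 d419 (k8 i2422 i852 d2316 d2565 d385 d78 i791 d2567 (k4 d400 d657 d438 i604 (k2 i1572 i2129 (k1 i2035 k0))))))))) (by decide +kernel)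
def d2569 : PP 8 4 T 0x1000000000000000000000000000000000002000000500001000000000004000000 := rS 0x16e264b (k4 d2179 d404 i1808 d418 k0) (by decide +kernel)
def d2570 : PP 8 4 T 0x8001102000000000000000000000100000040000100004000001000000000004000004 := rS 0x8d8ca794ebd61348dae5a283965122dadcf66f189cca23ba18d4cec12794d62af15894663968a8c5b154a0bd8a376391c4ef009844f25f0a91030042eb3c9801 (k8 d2182 d2180 d385 i531 d430 d2557 i228 d2568 (k8 i643 d2569 i523 i2107 d371 d38 i2106 d1864 (k8 d2251 d1850 i316 d2535 d350 i2715 d1639 i2435 (k8 d504 d982 i2209 i2230 d347 d455 d412 d395 (k8 i1518 i1674 d988 d447 i393 i527 i837 i1041 (k8 i1057 d2365 d648 i793 d418 d2314 d2342 d355 (k8 d37 i667 d475 d631 i1414 d359 d664 d11 (k2 i1036 d461 k0)))))))) (by decide +kernel)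
def d2571 : PP 8 4 T 0x1000000000000000000000000000000000000000000500001000000020004040000 := rS 0xb713 (k2 d386 i1805 (k1 d418 k0)) (by decide +kernel)
def d2572 : PP 8 4 T 0x8001102000000000000000000000100000040000000004000001000000000004000004 := rS 0x1863136888b1112a9d0eecf1d8d4ae670b8cd283968b146ec723844525f0a9102618021749801 (k8 d2182 d2180 i531 d430 d2557 i2107 i228 d2568 (k8 i643 d2571 i523 i2106 d1864 d2251 d1850 i2435 (k8 d504 d2535 d982 i8 i1674 i529 d988 i393 (k8 d385 d78 d2570 i791 d400 d438 i604 i2445 (k2 i1572 i250 (k1 d631 k0)))))) (by decide +kernel)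
def d2573 : PP 8 4 T 0x4001100002000000000150000000000000040000000000400001600415041006040000 := rS 0xb7133d83c72d1139e4ba4c (k8 d2180 i531 d2569 d38 i2435 d504 d528 d2365 (k2 d2342 i793 (k1 d418 k0))) (by decide +kernel)
def d2574 : PP 8 4 T 0x1102000000000000000000000100000040000000004000001000000000004000004 := rS 0x151ca308bbc18e5f6285476111ab255257339108e2b0989408330c250024c (k8 d2180 d2182 d2535 d2557 d982 d430 i2209 i2107 (k8 i2230 i2106 i228 i1674 i529 d989 i1100 d988 (k8 i523 i393 d2568 d1850 i643 d1864 d371 d2572 (k4 d2573 d39 d2524 d118 k0)))) (by decide +kernel)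
def d2575 : PP 8 4 T 0x1002000000000000000000000100000040000000004000001000000000004000004 := rS 0x32c1f0403ab552c104aac1647518b62a94178103001 (k8 d2182 d2557 d430 i316 d2535 d350 i2715 d1639 (k8 i2106 d388 d72 d413 i1518 d989 i1558 i519 (k4 d2574 d5 d54 d1835 k0))) (by decide +kernel)
def d2576 : PP 8 4 T 0x9001102000000000000000400010201400000012004004104001240515541006240000 := rS 0x10d40d150699592f194b52c8fc466c34d3d84c7629ac505e13c4ca21772a7e30372db3ceeb73dbc4e64c (k8 d2180 i837 d35 d2466 d648 d78 d385 i793 (k8 d2349 d426 d11 d60 i8 i527 d404 i1767 (k8 d2569 d419 i2422 d2316 i2135 i2035 d433 i1828 (k8 i370 i2129 i376 i2445 d1189 d2566 d1516 i673 (k4 i1990 i1415 d355 i1334 (k2 d1283 d357 k0)))))) (by decide +kernel)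
def d2577 : PP 8 4 T 0x8001102000000000000000000000000000040000100004000001000000000004200004 := rS 0xf4311081a2a0d32b25e3296a591f88cd869a7b098ac7141ae265e3cadcde31288be2a931a9f55aa9479ccae67278ac4a2d2185d36614ea5caa330711dcaa45fa7e30372d9ecbaf11d8e426d1220600894679049801 (k8 d2182 d2180 d2181 d385 d2535 d430 d2557 i228 (k8 i2435 i2107 d504 i393 d35 i531 d2466 i793 (k8 d2349 d426 d11 i1725 d2575 d60 i2106 d1836 (k8 d982 d118 d684 i1678 d396 d1141 i8 i518 (k8 i2715 i2209 i2230 d395 i1674 i529 i837 i1102 (k8 d989 i1558 i1598 d988 i83 d350 i316 i527 (k8 i1041 i1057 d648 d2576 d2519 d10 i2422 i644 (k8 i409 d2316 i2035 d433 i1828 i370 i2129 i376 (k8 i2445 d1189 d1313 d1516 i673 i1990 i1415 d355 (k4 i1334 d485 d357 i230 (k1 d476 k0))))))))))) (by decide +kernel)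
def d2578 : PP 8 4 T 0x8001102000000000000000000000000000040000000004000001000000000004200004 := rS 0x2f9e4d46f62b0c627f111622274678be2a35649f55aa9479ccae67298ac4a2d2185d36614ea5caae5520cd7e9f8c0dcb67b2ebc4763909b448818022509801 (k8 d2182 d2180 d2535 d430 d2557 i228 i2435 i2107 (k8 d504 i393 d35 i531 d2466 i793 d2349 d426 (k8 d11 i1725 d982 d2575 d60 d118 d684 i1678 (k8 d396 d1141 i8 i518 i2715 i2209 i2230 d412 (k8 i1674 i529 i837 i1102 d989 i1558 i1598 i1100 (k8 d988 d350 i316 d385 d2577 d400 d438 i604 (k8 i844 i1572 i2129 d2336 i1058 d654 d2576 i2422 (k1 d2519 k0)))))))) (by decide +kernel)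
def d2579 : PP 8 4 T 0x4001100000000000000000010000200000000000000000005001000010000006000020 := rS 0x30 (k2 d574 d2524 k0) (by decide +kernel)
def d2580 : PP 8 4 T 0x1102000000000000000000000000000040000000004000001000000000004000004 := rS 0x5988880e83061af68ab253afcdac71f8f46ec50ab3e2c0e1d8440eb9a18d4ae6704ac55e0b2390c2e3909b44885572a9008330c250024c (k8 d2180 d2182 d2535 d2557 d982 d430 d2575 d60 (k8 d118 i228 i2435 i2107 d504 i8 i518 i2106 (k8 d388 d347 d455 d413 i1674 i529 d988 d447 (k8 i104 i519 i523 i393 d1836 d2579 d385 d2578 (k8 d1850 d2251 d1889 d1887 d1864 i667 i1451 d2526 (k8 d533 d355 i1414 d156 d631 i1041 i1042 d400 (k2 i723 d438 k0))))))) (by decide +kernel)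
def d2581 : PP 8 4 T 0x1001002000000000000400001010000000000010404004015001000000000004000000 := rS 0x703f434e6512794d564c (k8 d2180 d72 d412 d395 i527 i837 d1154 i2037 (k2 d383 i799 k0)) (by decide +kernel)
def d2582 : PP 8 4 T 0x1000000000000000480004140200000000000000000140541200000000004000000 := rS 0x5997d7829 (k4 i2135 i415 i644 i1413 (k1 d2314 k0)) (by decide +kernel)
def d2583 : PP 8 4 T 0x1002000000000004404000010205020000004500004111001200510001006000000 := rS 0x1132fa1052c46388842b45b9bc62518a9f4e6573393ca6b15785c662d728dcb64c (k8 d2180 i793 d2349 d60 i2715 d982 i8 d347 (k8 d455 d412 d395 i1674 i529 i837 i1598 d350 (k8 i527 i1041 i1057 d648 d2581 d643 d1189 d2582 (k4 i2035 i1842 i1575 i644 (k2 d53 d418 k0))))) (by decide +kernel)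
def d2584 : PP 8 4 T 0x1001000000000000004404010140205000000004200004100441200555001004000000 := rS 0x8997d08296231d6e6f5a084447328b94b64c (k8 d2180 i793 d60 i527 i837 d124 i1499 i249 (k8 i1399 d648 d2582 i2035 i1842 i1575 i644 d53 (k1 d418 k0))) (by decide +kernel)
def d2585 : PP 8 4 T 0x1000000000000000000000000400400000004008000800401001540540004000000 := rS 0x3f5bc4e1a83 (k4 i1439 d356 d10 i852 (k2 d2416 d1332 k0)) (by decide +kernel)
def d2586 : PP 8 4 T 0x1001000000000000004404010154201400000010200504115441200514541006200000 := rS 0x3169e6c428a4be3d692259a6e6388c4030439442ee553a7e30372d9ede24c (k8 d2180 d35 d2466 i793 d2349 d426 d11 i2217 (k8 d60 i8 i527 i1707 d2584 i1042 i1572 i1691 (k8 d1314 i730 d95 d417 d88 d2585 i253 i1504 (k4 i2039 d389 d1822 d435 k0)))) (by decide +kernel)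
def d2587 : PP 8 4 T 0x1202000000000004000000010201420000000000004101001600510441006200040 := rS 0x22c76189d53f181b96cf6c378ae4fa736095cce4f2982562af5582c66a316c54d60f659a4b24c (k8 d2180 d92 d431 d54 d5 d366 d350 i2715 (k8 d1639 d982 d388 d72 d347 d455 d413 d412 (k8 d395 i1674 i529 i1518 i837 i1598 i104 d35 (k8 i369 d2466 i793 d2349 d426 d11 d2586 i1041 (k2 d2583 d1834 (k1 d78 k0)))))) (by decide +kernel)
def d2588 : PP 8 4 T 0x1002000000000000000000000000000040000000004000001000001000004000004 := rS 0x4f231871911145268f3995c9ecb2cb146e3f63bc022791497c2acf3282d92c18a8b60855728cd489d4ba6cc23968894564756aa46a674a01c5e3b2204c30042e9049801 (k8 d2182 d2180 d2181 i531 d430 d2557 i2107 i228 (k8 i393 i316 i519 d2535 i1674 d988 d989 i1558 (k8 i2106 i2230 i2209 i2435 d504 d396 d1141 d684 (k8 i1678 d2575 d982 d60 d118 d2580 i2715 d350 (k8 i1518 i1100 d388 d47 d1962 d2587 i643 d2571 (k8 d2569 i523 d371 d1864 d1887 d2251 d1850 d92 (k8 d54 d395 i529 i837 i1102 i83 i527 d1250 (k4 d619 i250 d461 i2035 (k1 i1035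 k0))))))))) (by decide +kernel)
def d2589 : PP 8 4 T 0x1002000000000000000000000000000040000000004000001000000000004000004 := rS 0x99449b846303c8fcbe370ab3cb2cb32c10aae55227536971cb445a331284c56472205c300b5594cc24f2e944761103c546ac93e9cd5aa9608bc085733a509801 (k8 d2182 d2180 d2535 i1674 i529 d430 i316 i1518 (k8 d989 i1558 i837 i1598 i1100 d988 d350 i519 (k8 i523 i393 i527 i531 d395 d396 d412 d72 (k8 d388 d2557 i8 i228 i2106 i2230 i2107 i2209 (k8 d982 i2715 i2435 d504 d684 d1141 i1678 d2575 (k8 d60 d118 d2580 d47 d54 d92 d1962 d2587 (k8 d2251 i643 d1887 d2569 d2588 i1572 d1314 d95 (k2 i1059 d485 k0)))))))) (by decide +kernel)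
def d2590 : PP 8 4 T 0x1000000000000000000000000000000040000000004000001000000000006000004 := rS 0xf4310a9d47a0b0ea9e20d22ca245a331284c564722024762f1a95ccf052a9dd5464303f62aa9022509801 (k8 d2182 d2180 d2535 d430 d989 d350 d2589 d450 (k8 i1018 i1019 i2991 i791 d47 i1674 i529 d988 (k8 i316 i393 i2105 i228 i2106 i2230 i2107 i2209 (k8 d982 i2715 i1277 i2391 d417 d438 d359 d42 (k4 d462 d88 d400 d2468 (k2 i1041 d2470 (k1 d2365 k0))))))) (by decide +kernel)
def d2591 : PP 8 4 T 0x1000000000000000000000000000000040000000004000001000000000004000004 := rS 0x39148470ea8d6a2304441a6593f94c430c0f83c1671129bc844f5085832553bc155464303f4aec1479f4cf154a01c5ea9021cc9801 (k8 d2182 d2180 i837 d430 d989 i316 i519 d2535 (k8 d350 i1674 i1598 i1102 i1518 i529 d2589 d450 (k8 i1018 i1019 d47 i2991 i791 d2590 d427 i2574 (k8 i2463 i707 i2644 i860 i1279 d1052 i2389 d2554 (k8 d383 d2418 d369 d353 i581 d2445 d438 d442 (k8 d401 d349 i2140 i1261 i1655 i2030 d1836 d60 k0)))))) (by decide +kernel)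
def d2592 : PP 8 4 T 0x1001000000000000000000004140000000010000000000140541000400100006120000 := rS 0x1665f (k2 d1290 d622 (k1 d2314 k0)) (by decide +kernel)
def d2593 : PP 8 4 T 0x1000000001000014000000000001000041000000800010001000014000504000008 := rS 0x13d183ca1d1a5f2ea44848f3d96c30172292c824c (k8 d2180 d2181 d2179 d101 d453 d427 d726 d647 (k8 i1130 d434 i915 i531 i629 i1964 d1017 d2569 (k2 d461 d2175 (k1 d11 k0)))) (by decide +kernel)
def d2594 : PP 8 4 T 0x1000000000000004804400000001200000000000000000001000555000004110000 := rS 0xc636a7d7ac5 (k4 d1850 i1990 i1113 i674 (k2 i2035 d880 k0)) (by decide +kernel)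
def d2595 : PP 8 4 T 0x8001000000000000000054000000000000040000000000000001800454000004000008 := rS 0x6d188e5a2cf (k4 d385 i1160 i195 d1819 (k2 i1695 d631 k0)) (by decide +kernel)
def d2596 : PP 8 4 T 0x9001100000001000000800000000001400040000000004010001005414100004010000 := rS 0x595114e6c78b19a62e4cb0d7e6b230c4728910a14ba238815caa0f4bb446ec50a9088a050133c824c (k8 d2180 d2181 d385 d2591 i65 d101 d434 d1100 (k8 d1850 i1005 i1160 d684 i340 d641 d1829 d438 (k8 d401 i531 d1014 d2418 i191 i195 d1819 d1836 (k8 d2593 i1454 i211 d2594 d485 d358 d2595 d351 (k4 d880 i337 d365 i673 (k1 d355 k0)))))) (by decide +kernel)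
def d2597 : PP 8 4 T 0x9001000000000000000854000000001400040000000004000001000454000004000000 := rS 0x26632b25e278d8311cb4404cf (k8 d385 d2591 i1160 i195 d1819 d631 i2035 i674 (k4 i673 d11 i1990 d1008 k0)) (by decide +kernel)
def d2598 : PP 8 4 T 0x8001102000000000000000000000000020040000004004010001000414000004000000 := rS 0xf29f8946052f16330dc8ca3ba4472ad479f446b58815caa0f15a6d3a971bb144e3f048f422b73db44e715169855e532796c301744944ba15211140a0258904984b (k8 d2179 d2180 d2181 d455 d2591 i65 d101 d434 (k8 d1100 i531 i527 i191 d453 d427 d726 d395 (k8 d412 d347 d396 i1000 d350 i837 i1160 d647 (k8 d648 d2592 d1361 d413 d1076 d1126 d1850 i1005 (k8 d684 i1678 d1141 i387 i340 d641 d1829 d438 (k8 d349 d401 i1598 i1130 d360 i195 i915 d78 (k8 d2581 d2596 d470 d2597 d351 i258 d426 d419 (k2 d11 d404 (k1 d2505 k0))))))))) (by decide +kernel)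
def d2599 : PP 8 4 T 0x1000000000000001014000000008001001004100000000001000540041504000000 := rS 0x893c0f319 (k4 d11 i1075 d426 d409 (k1 d910 k0)) (by decide +kernel)
def d2600 : PP 8 4 T 0x1102000000000000000000000000020040000100004010001000414000004000000 := rS 0x2facd026a5e2619cc736a7d86e43245d8a3708add3a7b4b8ada2913994462394496c4a180b8540a4f29ac55e2d30b244315339bd0a5d11b3620572a83c844501104984b (k8 d2179 d2180 d2181 d2591 d101 d434 i340 d641 (k8 d1829 d438 d454 d401 i531 d1014 i1057 i1674 (k8 d350 d2418 i1122 d396 i1000 d347 d455 d412 (k8 d395 i65 d1100 d453 d427 d1178 d726 i191 (k8 i195 d1819 i527 i837 i915 i1160 i387 d684 (k8 d647 i1678 d648 d2592 i1005 d1850 d2598 d354 (k8 d468 d470 d2599 i1699 d880 i2035 i1104 i1105 (k4 i1029 i1864 i1414 i629 (k1 d341 k0))))))))) (by decide +kernel)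
def d2601 : PP 8 4 T 0x1000000000000000000000000000000040000000000000001000800000004000008 := rS 0x792f340531978a44b6180b85484450292c9841 (k8 d2181 d2180 d2179 i65 d101 d434 d1100 d453 (k8 d427 d726 i915 d416 d363 i255 d606 i653 (k2 i1071 d635 k0))) (by decide +kernel)
def d2602 : PP 8 4 T 0x1102000000000000000000000000020040000000004010001000014000004000000 := rS 0x1d220571d9541e4222808824c (k8 d2180 d2181 d2591 d101 d434 i340 d641 d2601 (k4 d1829 d438 d2600 d400 k0)) (by decide +kernel)
def d2603 : PP 8 4 T 0x1000000000000000008000000000000000000000000140001800000000804000000 := rS 0xbf1336b3050c7 (k4 i117 i250 i251 i1695 (k2 d386 i891 (k1 d418 k0))) (by decide +kernel)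
def d2604 : PP 8 4 T 0x1000000000000004080000000000000400000000000020001000544000006114000 := rS 0x2f9b1e241 (k4 d2181 d351 d880 d629 (k1 i669 k0)) (by decide +kernel)
def d2605 : PP 8 4 T 0x101100000000000000008000000000000000000000000100001000000000104004008 := rS 0x44467296c8a250c05c824b (k8 d2179 d2181 d453 d427 d1178 d101 d726 d470 (k2 d1836 d410 (k1 d2603 k0))) (by decide +kernel)
def d2606 : PP 8 4 T 0x1102000000000000000000000000020040000000004000001000014000004000000 := rS 0x1133c9790e6c35a32329e61b1d8a3708adcdecf3f9de22584e99e2a5d489cca2311ca242a054b9eda23b2db251e180b884aa422283c9e5358abc5a6101130824b (k8 d2179 d2181 d2180 d2591 d396 i1000 d347 d455 (k8 d412 d395 i340 d101 d434 d641 d2418 d453 (k8 d427 i1130 i1122 d726 d2601 i1160 d647 d684 (k8 i65 d1100 i191 i195 d1819 i527 i837 i915 (k8 i531 d350 i1674 i1678 d2602 d411 i806 i844 (k8 d593 i1058 d648 d2592 i1005 d1850 d2604 d2605 (k8 i2035 d11 d461 i1964 i1036 i930 i669 i1076 (k2 d10 d409 k0)))))))) (by decide +kernel)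
def d2607 : PP 8 4 T 0x1100000000000000008000000000000040000000000010001000014000004000008 := rS 0xcf354588c9d728c5a23b10a14ba238815caa0f21114824c (k8 d2180 d2181 d101 d434 i340 d641 d1829 d438 (k8 d401 i531 d1014 d2418 d2601 i1160 d1819 d470 (k4 i1906 d1836 d468 i211 (k2 d385 d2593 k0)))) (by decide +kernel)
def d2608 : PP 8 4 T 0x1001102000001000000000000000000000040000000004010001000014000004000000 := rS 0x1e04594b7378fc5c5d399451215029ecb6180bab49eb1578b53661688ed42534aad4fb102b9548445529181e094e9de2c3101104984b (k8 d2179 d2180 d2181 d2591 d1819 d468 d78 d452 (k8 d413 i340 d1836 i208 d101 d434 d641 d1829 (k8 d438 d67 d349 d2606 d412 i819 d2601 i1160 (k8 d396 d1141 i1000 d347 d455 d395 d360 d453 (k8 d427 d726 d647 i65 d1100 i191 i527 i837 (k8 i531 d2156 i404 i1054 d648 d2581 d2592 d2596 (k1 d1361 k0))))))) (by decide +kernel)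
def d2609 : PP 8 4 T 0x1102000001000000000000000000000040000000004010001000014000004000000 := rS 0x3f9bc381f86b4d447117c5126775cb054b16231cc6289478602e21568245a615094d2a7511ad4fb102b9541e4222808824c (k8 d2180 d2181 d2591 d101 d434 i340 d641 d1829 (k8 d438 d67 d349 d401 d400 d2606 d412 i819 (k8 d396 i1000 d413 d360 d2418 d453 d427 i1130 (k8 i191 d1819 i837 d1836 d468 i208 i1533 d43 (k8 d78 d480 d2608 d423 d361 d678 d787 d205 (k4 i240 d479 i1231 i719 (k1 i2044 k0))))))) (by decide +kernel)
def d2610 : PP 8 4 T 0x9001002000000000001014001000100010041010100004010001000014000504000000 := rS 0x17a2465358a4d8f14fb184e3708b296e6f1719cee9d679752273288c472891295c2a05159ecb6180b9541ead27ac55e2d4d985a23b5094c844501130824b (k8 d2179 d2181 d2180 d2591 d101 d434 d412 i819 (k8 d2601 i1160 d396 d1141 i1000 d347 d455 d395 (k8 d360 i340 d641 d453 d427 d726 d647 i387 (k8 i65 d1100 d1829 d1178 i191 i195 d1819 i527 (k8 i837 i915 i531 d385 d452 d78 d86 d2156 (k8 i1054 d648 d2581 d2592 i1005 d1126 d2597 d2599 (k8 d351 d880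 i258 i147 i1699 d419 d1171 d36 k0))))))) (by decide +kernel)
def d2611 : PP 8 4 T 0x5001000000000000000900000000000010000000000005000001000000000004000000 := rS 0x5c1912743 (k4 d98 i1367 d713 d391 (k1 i1026 k0)) (by decide +kernel)
def d2612 : PP 8 4 T 0x1001102000000000000000000000000000040000000004010001000014000004000000 := rS 0x8c6517ae0dc93a19f997173994512180bb2442ad27aac162d30a84a69542974ea235a9f59b102b9541e4222b0c04a562b90824c (k8 d2180 d2181 d2609 d75 d60 d2591 d2607 d101 (k8 d434 i340 d641 d1829 d438 d454 d67 d349 (k8 d401 d400 i531 d1014 d2606 d412 i819 d396 (k8 i1000 d388 d72 d395 d360 d2418 i1122 d453 (k8 d427 i191 i527 i837 d2610 d2611 d2310 d100 (k4 i1638 d2038 d391 i1054 (k2 i1026 d1999 (k1 d727 k0)))))))) (by decide +kernel)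
def d2613 : PP 8 4 T 0x4001000000000000004000000000005000441004500000401001000000000004000000 := rS 0x3c975224c (k4 d2180 i915 i531 d2569 (k1 d1958 k0)) (by decide +kernel)
def d2614 : PP 8 4 T 0x1000001000000000000000000000000000000000000800001000000050004100000 := rS 0x4f13 (k2 d10 i732 (k1 d419 k0)) (by decide +kernel)
def d2615 : PP 8 4 T 0x4001100000000000005014000000001000041000100000000001000054000404000008 := rS 0xd6103311cca762f8a5e2c64fa446239128540a2b3db44765b64a3c301710954844507904984b (k8 d2179 d2180 d2181 i340 d101 d434 d641 d2418 (k8 d453 d427 i1130 i1122 d726 d2601 i1160 d647 (k8 i387 i65 d1100 d1178 i195 d1819 i915 d2599 (k8 i2035 d351 i258 d2614 d2613 i1547 d727 d354 (k2 d1864 i547 (k1 d2155 k0)))))) (by decide +kernel)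
def d2616 : PP 8 4 T 0x1000000000000000000000000000000000000000000100001000080000004000008 := rS 0xbe78080602e15211140a41 (k8 d2181 i65 d101 d434 d1100 d453 d427 i1005 (k2 i1043 d1290 (k1 d2569 k0))) (by decide +kernel)
def d2617 : PP 8 4 T 0x8001100000001000000010000000001000040000000040010001000014000004000008 := rS 0xca5f360a5e2116327d22311c8942a05159ecb6180b8dd8675669dc8c6b67b44762388214ae5d10954844507930824b (k8 d2179 d2181 d2180 i340 d101 d434 d641 d2418 (k8 i531 d1829 d1014 d438 d401 d2601 i1160 d385 (k8 d2593 d1836 d78 d454 d400 d2607 d2616 d453 (k8 d427 d726 d647 i387 i65 d1100 d1178 i195 (k8 d1819 i915 d2599 d2595 d2155 d351 i258 d880 (k2 d2614 i1699 (k1 d1171 k0))))))) (by decide +kernel)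
def d2618 : PP 8 4 T 0x8001100000001000000000000000001000040000000040010001000014000004000008 := rS 0x782fa1c20684fb108c91188942a053db44765b478602e214297447102b9541e4222904984b (k8 d2179 d2180 d2181 d101 d434 i340 d641 d1829 (k8 d438 d401 i531 d1014 d2418 d453 d427 i1130 (k8 d726 d2601 i1160 d647 i65 d1100 d1178 d1819 (k8 i915 d1836 d2617 i1526 i1535 d1850 i1563 d1290 (k2 d2152 d2569 k0))))) (by decide +kernel)
def d2619 : PP 8 4 T 0x8001100000000000000000000000001000040000000040010001000014000004000008 := rS 0xf2872f8a5e2c64fb15c87767a446239128540a2b3db44765b1ba3c301710a14bac33a88d9b102b9541e4222904984b (k8 d2179 d2180 d2181 d101 d434 i340 d641 d1829 (k8 d438 d454 d401 d400 d2607 i531 d1014 d2418 (k8 d453 d427 i1130 d2616 d726 d2601 i1160 d647 (k8 i387 i65 d1100 d1178 i195 d1819 i915 d385 (k8 d78 d2618 d75 d2599 i2035 d351 i258 d2614 (k2 d1017 d2569 (k1 i2046 k0))))))) (by decide +kernel)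
def d2620 : PP 8 4 T 0x1100000000000000000000000001000040000000040010001000014000004000008 := rS 0x31c4e2943844265f461a8dace4fb14c8e48bb34467561c410a91188e44a570a814567b688ecb6180b8dcbac910954844507904984b (k8 d2179 d2180 d2181 i340 d101 d434 d641 d2418 (k8 i1122 i531 d2616 d453 d427 d726 d2601 i1160 (k8 d647 i387 i65 d1100 d1829 d1178 i195 d1819 (k8 i915 d1014 d438 d2607 d400 d401 d454 d2619 (k8 d468 d354 d75 d2599 d2615 i1699 i1029 i1028 (k8 i629 i1960 i1759 d1017 d2571 d1126 d880 d505 k0)))))) (by decide +kernel)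
def d2621 : PP 8 4 T 0x1001000000000000000000000000020000000000004020401000000000004000000 := rS 0x6055aa62a4c (k4 d2180 d350 i574 i581 (k2 d450 i1019 k0)) (by decide +kernel)
def d2622 : PP 8 4 T 0x1001000000000000000000000000000000010000044000000801000000000014000008 := rS 0xd21707d5070508602f0d (k8 d74 d453 d427 i311 d383 i798 i1356 i1084 (k2 d479 d444 k0)) (by decide +kernel)
def d2623 : PP 8 4 T 0x1100000000000000000000000000020040000000004000001000014000004000000 := rS 0x2acc0b5549b83a0b27948b0fd4e8b4ceb98a9cc6289211152ed11d808824c (k8 d2180 d2181 d2591 d2601 i1160 d684 d101 d434 (k8 i191 d1819 i837 d350 i104 i1674 i978 i1678 (k8 d2606 d2620 d2621 i32 d1193 i716 d2622 i2734 (k4 i1399 d450 i582 i1019 k0)))) (by decide +kernel)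
def d2624 : PP 8 4 T 0x1102000000000000000000000001000040000000004010001000014000004000000 := rS 0xbeb6419e54cd30ea645ebb1e8fd429b169c4fd0d8a2ad6209299849ead489cca239448540a973db44765b0c05c42955a9f59611239b29ece62b9062378bb0d9a233ac40aa0f4295c84452e9a4d66601130824b (k8 d2179 d2181 d2180 d2591 d2620 i547 i1623 i531 (k8 d101 d434 d1829 d1014 i340 d641 d438 d400 (k8 d401 d454 d2607 d86 d2616 d1819 d468 d75 (k8 d2615 d96 d467 i1617 d2166 i545 d67 d349 (k8 d2623 d2418 d453 d427 d726 d2601 i1160 d647 (k8 d684 i65 d1100 i191 i195 i527 i837 i915 (k8 d360 d395 d396 d412 d413 d455 d72 d2612 (k8 d1154 i2037 d1155 i1000 d1141 i819 d1076 d1361 (k8 i1681 d423 d449 i719 d1117 d1330 d673 i926 (k2 d692 i852 (k1 d1218 k0))))))))))) (by decide +kernel)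
def d2625 : PP 8 4 T 0x1201001000000000000001000000100000010000000004000401080000101104000000 := rS 0x27075a42f3028416a911ad4fa4c (k8 d2180 d67 d349 d401 i574 i557 i819 d450 (k4 i1015 d417 d42 d1469 (k1 i701 k0))) (by decide +kernel)
def d2626 : PP 8 4 T 0x1001001000000000000000000001000000040000000004800041000000100004010000 := rS 0xfa2691399447289688ac76372e89c2a052d8602e2f3002c844501104964c (k8 d2180 d2179 d2181 d2591 d101 d434 d1193 d450 (k8 i1015 d453 d427 d726 i65 d1100 d1126 i531 (k8 d2616 d2601 i387 i1160 i191 i195 i527 i837 (k4 i915 d10 d1185 d1174 k0)))) (by decide +kernel)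
def d2627 : PP 8 4 T 0x1201001000000000000001000000100000040000000004000001000000100104010000 := rS 0x448be2f302a4dc1d0593ca45d399451225159eda23b1385484052d8602e450112c824c (k8 d2180 d2181 d2179 d2591 d101 d453 d427 d726 (k8 i65 d434 d1100 d1126 d2601 i1160 d647 i387 (k8 d1178 i191 i527 i837 i531 d2625 i32 d1193 (k8 i716 d2622 i2734 d450 i1015 d2626 d418 d1182 k0)))) (by decide +kernel)
def d2628 : PP 8 4 T 0x1000000000000000000000000000000000000000000000001000000200004000008 := rS 0xbc3017 (k4 d453 d427 i15 d1109 k0) (by decide +kernel)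
def d2629 : PP 8 4 T 0x1100000000000000000000000001000040000000004010001000014000004000000 := rS 0x17cb85728c7a08698fd360759aa8d8bb56d0c174f4ca4c5ece8a3154ac108b90d26b65a7c8f177e9986239448540ad11d8dc5a214aa14bac33a88d9b102b9541e4222808824c (k8 d2180 d2181 d2591 d101 d434 i340 d641 d1829 (k8 d438 d454 d401 d400 d2607 i531 d1014 d2623 (k8 d2418 d2628 d2616 d2601 i1160 i65 d1100 i191 (k8 i195 d1819 d2620 d2624 d86 i1617 i1714 i545 (k8 i547 i1623 d468 d2166 d382 d60 d75 d2627 (k8 d2615 d423 d28 d449 d96 i302 d2370 i1621 (k8 i1950 d467 d436 i666 d1845 d2390 d197 d2469 (k4 d442 i1268 i200 d1110 (k2 i2033 i594 (k1 i1457 k0)))))))))) (by decide +kernel)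
def d2630 : PP 8 4 T 0x1100000000000000000000000000000040000000004010001000014000004000000 := rS 0xc5893c0f3194e33446c38821522391295c567b688ecb6180b8dcba212a9088a0f01104984b (k8 d2179 d2180 d2181 d2591 i340 d101 d434 d641 (k8 d2418 i531 d2616 d453 d427 d726 d2601 i1160 (k8 d647 i387 d1829 d1178 i195 i915 d1014 d438 (k8 d2607 d401 d454 d2629 d362 i1857 d426 d409 (k2 d76 d910 k0))))) (by decide +kernel)
def d2631 : PP 8 4 T 0x1001102000001000000000000000000000040000000004000001000014000004000000 := rS 0xc7628456e6f172962c46399446239448540a7b688ec6e2d47a559e673bb24b6180bb0e2258109541e5d2782562af5094c844501104984b (k8 d2179 d2180 d2181 d2591 d101 d434 d412 i819 (k8 d347 d455 d413 d395 i531 i340 d641 d2418 (k8 d2630 d411 d2605 d453 d427 d726 i1122 i806 (k8 d594 d593 d2623 i1130 d2628 d2616 d2601 i1160 (k8 d647 i65 d1100 i191 i195 d1819 i527 i837 (k8 d1836 d468 i208 d2156 i1054 d648 d2592 d1850 (k2 d2604 d2595 k0))))))) (by decide +kernel)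
def d2632 : PP 8 4 T 0x9001102000000000000000000000001000040000000004000001000014000004000000 := rS 0x1e198998c9b13cc708adcde2e399446239448540a7b1b8b51e956799ceec92d8602ec3889604255079749eb157a6cc2d11da84a642228094ac572104984b (k8 d2179 d2180 d2181 d2631 d75 d60 d2591 d101 (k8 d434 d412 i819 d2601 i1160 d396 d1141 d347 (k8 d455 d395 i531 i340 d641 d2418 d2630 d411 (k8 d2605 d453 d427 d726 i1122 i806 d594 d593 (k8 d2623 i1130 d2628 d2616 d647 i65 d1100 i191 (k8 i195 d1819 i527 i837 d2156 i1054 d648 d2592 (k8 d2604 i2035 d631 d11 i1112 i670 d2279 i1972 k0))))))) (by decide +kernel)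
def d2633 : PP 8 4 T 0x1001102000000000000000000000001000040000000004000001000014000004000000 := rS 0x2fd4f444cc653c3d638456e6f1f8b946bb5ed0972933245d8aa560b90e651188e5121502a5cf63716a3d2acf339dd925b0c05d87112c084aa0f2e93d62af4d985a23b5094c844501104984b (k8 d2179 d2180 d2181 d2591 d101 d434 d412 i819 (k8 d2601 i1160 d396 d1141 d347 d455 d395 i531 (k8 i340 d641 d2418 d2630 d411 d2605 d453 d427 (k8 d726 i1122 i806 d594 d593 d2623 i1130 d2628 (k8 d2616 d647 d684 i65 d1100 i191 i195 d1819 (k8 i527 i837 d2631 d382 d60 d75 d2632 d354 (k8 i1550 i1026 d391 d378 d58 d469 d2370 i404 (k8 i1054 d648 d2592 d2604 d1361 i2035 d11 i1112 (k4 d466 d2030 d82 i2036 k0))))))))) (by decide +kernel)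
def d2634 : PP 8 4 T 0x2001002000000000000000000000000000040000000004000001000000000004020000 := rS 0xf2834697d22510c05c2a05688ec6e5d58a84a64222808824c (k8 d2180 d2181 d2591 d101 d434 d412 i819 d455 (k8 i531 d2616 d2601 i1160 i65 d1100 d453 d427 (k4 i527 i915 d1290 i1759 (k2 d1202 d2569 (k1 d1287 k0))))) (by decide +kernel)
def d2635 : PP 8 4 T 0x1000000000000004000000000008000040000000000020001000000000004000008 := rS 0x226792f21cd86b46465227b688ecb6180b914964c (k8 d2180 d2179 d101 d453 d427 d726 d2601 i1160 (k8 d647 i915 d11 d461 i1964 i1036 i930 i669 (k2 i1076 d10 (k1 d409 k0)))) (by decide +kernel)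
def d2636 : PP 8 4 T 0x1000000000000004004000000005000000000000000020001000555000006114000 := rS 0x31d8a8f (k4 i1130 d1850 d2604 i2035 k0) (by decide +kernel)
def d2637 : PP 8 4 T 0x1102000000000000000000000001000040000000004000001000014000004000000 := rS 0x1140827d86212ab3e22673bb24b658078dcba3b0a9088a050c05c723101104984b (k8 d2179 d2180 d2181 d2591 d1819 i195 d453 d427 (k8 i65 d101 d434 d1100 d2601 i531 d2616 i340 (k8 d2630 d726 i1122 i806 d594 d411 d593 d641 (k4 d2418 d2605 d2635 d2636 (k2 d2633 d2634 k0))))) (by decide +kernel)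
def d2638 : PP 8 4 T 0x9001001000000000000000000000000010000000000004000001800014400004000008 := rS 0x6518148a918a245ab9 (k8 d43 d2628 i191 d1819 i1084 d2156 d450 i209 (k1 i1391 k0)) (by decide +kernel)
def d2639 : PP 8 4 T 0x1001001000000000000000000000000000000000000004000401080000800004000000 := rS 0x3002d524c (k4 d2180 i574 i557 d450 (k1 i1015 k0)) (by decide +kernel)
def d2640 : PP 8 4 T 0x1001001000000000000000000000000000000000000004000001000000800004000008 := rS 0x1b9501d3082c9e5239a2484451692c824c (k8 d2180 d2181 d2179 d2628 d101 d434 i191 i837 (k8 d2639 i32 d1193 i1015 i716 d450 d2622 i1055 k0)) (by decide +kernel)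
def d2641 : PP 8 4 T 0x400000000000029001101000000000004000000000000014000000000004000001000154000004000008 := rS 0x3948eb918a241ea3178b43017 (k8 d453 d427 d2628 d2640 d1639 i340 i191 d1819 (k4 d43 d2638 d220 d1836 k0)) (by decide +kernel)
def d2642 : PP 8 4 T 0x400000000000001001101000000000004080000000000051000401400044000001000554000004020008 := rS 0x5c1922e93659b95d0da29c47cb127a65763d0ea9cc0a36901d522f599cc62890c05c844516b251a9b8c3c4824c (k8 d2180 d2181 d393 d426 d84 i1759 i1122 d2628 (k8 d101 d434 d453 d427 i191 d1819 i837 d622 (k8 d2640 i1084 d1252 d417 d1639 d450 i1913 d42 (k8 d88 i1679 i1020 i701 i1761 i2034 i1279 d459 (k8 d343 d414 d383 i626 i1322 d2641 d354 d775 (k1 i1027 k0)))))) (by decide +kernel)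
def d2643 : PP 8 4 T 0x821000000000000000000000000000500040000010004000001000000000004000000 := rS 0x16e6f39a5cf6d11d96c301722808964c (k8 d2180 d2179 d2591 d101 d453 d427 d726 d2601 (k4 i1160 d647 d684 i837 (k2 d356 d352 (k1 d2454 k0)))) (by decide +kernel)
def d2644 : PP 8 4 T 0x1001000001000000001010000100014010000000800000001008015500004000440 := rS 0xab042f544d3 (k4 d787 d665 i1411 d442 (k2 i586 i201 k0)) (by decide +kernel)
def d2645 : PP 8 4 T 0x1000000000000000000000000200000000000000000000801800000000804000000 := rS 0x1fd94a3 (k4 i115 i209 i1663 i622 k0) (by decide +kernel)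
def d2646 : PP 8 4 T 0x111101000001000000000010000410554010100000800000801000555501104004400 := rS 0x781e1fb4d4ac1111183a07 (k8 i454 i716 d1836 d410 i1534 d2645 d787 d2644 (k2 d479 i2034 (k1 i1307 k0))) (by decide +kernel)
def d2647 : PP 8 4 T 0x20011101000000000004000010000410154010100000800020801000555501104004400 := rS 0xaa5a8203cd351295c9114dd3c3a07 (k8 i454 i716 d429 d84 d411 d2646 d60 d220 (k4 d787 d479 d442 i1395 (k2 i201 i582 k0))) (by decide +kernel)
def d2648 : PP 8 4 T 0x1100000000000000000000000001000040000000004000001000014000004000000 := rS 0x328fe643a45d70a70394a1a4f5082d3271498be28fda7b18d4c542a0537123ca0d0f182fbc42091288c47289128540a973db44763716a3d2ac310954840f2ea7d9f11339dd925b0c05c8a58011309641 (k8 d2181 d2179 d2180 d2591 d2630 d101 d453 d427 (k8 d726 i1122 i806 d594 d411 d593 d2635 i531 (k8 i340 d434 d641 d2418 d2605 d2623 i1130 d2628 (k8 d2616 d2601 i1160 d647 d684 i65 d1100 d1178 (k8 i191 i195 d1819 i527 i915 d2636 d393 d1290 (k8 d426 d1017 d1202 d2569 d418 d84 d46 d53 (k8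 d2172 d2155 i2035 d429 d2637 d2642 d423 d28 (k8 d361 d449 i302 i310 i789 d2643 d399 i454 (k8 i1913 d2647 d43 d422 d354 i1667 i1027 i622 k0))))))))) (by decide +kernel)
def d2649 : PP 8 4 T 0x1100000000000000000000000000000040000000004000001000014000004000000 := rS 0x11b194e19cee58688ed9202 (k8 d2591 i1122 d2601 i1160 d2630 i806 d594 d2648 (k2 d362 i1820 (k1 d461 k0))) (by decide +kernel)
def d2650 : PP 8 4 T 0x1001002000000000000550000000001460010000000014000001404551500006004000 := rS 0x9fa2afd30a430aa41667 (k8 i1674 d388 d374 d396 d1999 d485 i1451 d408 (k2 i1113 d2013 k0)) (by decide +kernel)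
def d2651 : PP 8 4 T 0x1202000000000000008006000080000000000000000140101000000001804000000 := rS 0x2facd02cc5e21596592794d62af (k8 d347 d455 d412 d395 d92 d54 i1867 i329 (k4 i251 i1402 i1413 i890 (k1 d341 k0))) (by decide +kernel)
def d2652 : PP 8 4 T 0x1000000000000010000000000008000040000000010000001000000000004000000 := rS 0x11b19 (k2 d11 i1035 (k1 d461 k0)) (by decide +kernel)
def d2653 : PP 8 4 T 0x9001202000000000000150004000005000000010004044145001000555900004400000 := rS 0x8944e55a308eecf2889430ad32b2cb26154aac824c (k8 d2180 d2181 d72 d374 d396 d92 d54 d47 (k8 d12 d427 d1178 i527 d385 d78 i2035 d2581 (k4 d470 d1360 d1189 d2651 k0))) (by decide +kernel)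
def d2654 : PP 8 4 T 0x1001202000000000000150000000015460010000000004145001004555104004404000 := rS 0x761a7e5a9d59cc310b922eb73787da62e3e99d727328a3c30ad32b2c8e592794d564c (k8 d2180 d72 d412 d395 d92 d81 d54 d47 (k8 d12 d427 i1130 i527 i837 i104 i1674 i1598 (k8 d2650 d358 i239 i1054 d2253 d2653 d468 d25 (k8 d470 i2035 d549 d1148 i2037 d1154 i719 d479 k0)))) (by decide +kernel)
def d2655 : PP 8 4 T 0x1001202000000000000100000000015440010000000004145001000555100004514000 := rS 0x38c356a7537ae59c2e61a95c9174a8fd8e27629cca28f0c2b596472c93ca6a904aac164c (k8 d2180 d388 d72 d413 d374 d412 d395 d92 (k8 d81 d54 d12 d427 i1130 i527 i837 d1850 (k8 d1126 d1864 d1076 d2654 d2358 d468 d60 d470 (k8 d1999 i2035 i1137 i1054 d549 d1148 d1154 d1155 (k1 d383 k0))))) (by decide +kernel)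
def d2656 : PP 8 4 T 0x1001002000000000000000000000001000040000000004000001000014000004000000 := rS 0xdc983cacd6c8d2f840e651188e512570a8152e7b2d8602e372e8b5925507a7ccb0427aa562af4d985a23b5094c844501104984b (k8 d2179 d2180 d2181 d2591 d101 d434 d412 i819 (k8 d2601 i1160 d396 d1141 d347 d455 d374 d395 (k8 d2649 d47 d2652 i340 d641 i1122 d2628 i531 (k8 d2616 d453 d427 d726 d647 d684 i65 d1100 (k8 d1829 i191 i195 d1819 i527 i837 d2655 d1290 (k4 i1759 d2592 d622 d2569 (k2 d701 d648 (k1 i1059 k0)))))))) (by decide +kernel)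
def d2657 : PP 8 4 T 0x1002000000000000000000000001000040000000004000001000014000004000000 := rS 0xa35caf99d435eb0d4ac1a2a99c83d1fb1d8b1708a65262f4ac5136b104aa4c2311ca242a42228152e372e8b592474f99608d11d8089841 (k8 d2181 d2180 d2591 d2601 i1160 d2649 d47 d2652 (k8 d81 i1122 d2628 i531 d2616 d684 i65 d101 (k8 d434 d1100 i191 i195 d1819 d396 d374 d413 (k8 d455 d1141 d2656 d350 d423 d28 d449 d2634 (k8 d2358 d1850 d1864 d1076 d1361 d468 i2034 d1926 (k8 d382 d60 d470 i1984 d2370 i2035 d2252 i1457 (k2 i1719 i2033 k0))))))) (by decide +kernel)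
def d2658 : PP 8 4 T 0x1001001000000000000000000000000000040000000004000001000000000004010000 := rS 0x448be272e9442a05159eda23b2d8602ea927875a42f448b4844501104964c (k8 d2180 d2179 d2181 d2591 d101 d434 d2628 i191 (k8 d2640 d417 d42 i701 i1084 d453 d427 d726 (k8 d2601 i1160 d647 i387 i65 d1100 i527 i531 (k4 d1126 d2626 d418 d1182 k0)))) (by decide +kernel)
def d2659 : PP 8 4 T 0x1000000000000000000000000005000000000000400110001400514000004020008 := rS 0xc667b1622cc8c17d866d7884c625b1295c2a051bb251e180b9541e4222904984b (k8 d2179 d2180 d2181 d101 d434 i340 d641 d453 (k8 d427 i1130 i1122 d2616 i65 d1100 d1829 d1178 (k8 d726 d1819 i27 d393 d1847 d1838 d1290 d426 (k4 d776 d454 i1792 d515 (k2 i2035 d1840 k0))))) (by decide +kernel)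
def d2660 : PP 8 4 T 0x8021001000000000000500000010000400040000000014000001001000000004010000 := rS 0xc00604b4c7e5e89a44e6511c8ad2e7b688ec6e5d1689c2a420296c8a9554a4d320b508bc30170113ce3145c99cdeb7409309641 (k8 d2181 d2179 d2180 d465 d352 d356 d86 d43 (k8 d2658 d361 i789 d2591 d453 d427 d423 i310 (k8 i302 d449 d28 d425 d350 d101 d726 i65 (k8 d434 d1100 d1126 d2628 i531 d2616 d2601 i1160 (k8 d647 d684 i387 i195 i527 i837 i915 d2643 (k4 d2383 d1174 d1115 d1121 (k2 d442 d1515 (k1 i1223 k0)))))))) (by decide +kernel)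
def d2661 : PP 8 4 T 0x8021000000000000000000000000001000040000000004000001000014000004000000 := rS 0x1482243a8cf2bd4d0f582b40f9f4de9139a24f62d64a3d5acb13a545e9338c51fab93b9d4b6856133c62c51bb1c229f32b44b26b1d9742a42228148f041c894301701104984b (k8 d2179 d2180 d2181 d2591 d453 d427 d1178 i195 (k8 d2649 d81 i65 d101 d434 d1100 i531 d2601 (k8 d366 d92 i1160 d47 d2652 d2659 d1864 d2616 (k8 d1850 d1819 d385 i2035 i1867 d726 d1688 d78 (k8 d43 d2657 d2658 d361 d28 d423 d350 d1126 (k8 d54 d12 i1130 i1122 d2628 d647 i191 i837 (k8 i915 d356 d394 d476 d205 i1248 i1959 d2660 (k4 i1417 i1073 i329 i934 (k2 d1462 d678 (k1 i248 k0)))))))))) (by decide +kernel)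
def d2662 : PP 8 4 T 0x1000000000000004050000000005000040000100000400001000014004004000008 := rS 0x2911448f28748908f6d12d9151e85610c476372e8e44a180b904984b (k8 d2179 d2180 d2181 d453 d427 d1178 i195 i531 (k8 d2616 d2601 d1819 i2035 i1867 i1130 d101 d726 (k8 i1160 d647 d434 i915 d1017 d2569 d418 d1462 (k2 d386 i250 k0)))) (by decide +kernel)
def d2663 : PP 8 4 T 0x8001000000000000000000000000001000040000000004000001000014000004000000 := rS 0x25a63d1fc4cbc070e94a1a7567a44a231159ec6e2d6289cb6c70a9088a0505a845e180b93ce31408a7ccad12c91cd7041d8e4045d7e904984b (k8 d2179 d2180 d2181 d2657 i531 d2591 i195 d2601 (k8 d2649 d366 d81 d92 i1160 d47 d2652 d2659 (k8 d2658 d361 i789 d453 d427 d423 i310 i302 (k8 i65 d101 d434 d1100 d1864 d726 d1126 d1850 (k8 d2628 d2616 d647 i387 d1819 i527 i915 d385 (k8 d1688 d2661 d399 i716 i454 d2662 d10 d1174 (k4 d672 d1115 d1121 d442 k0))))))) (by decide +kernel)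
def d2664 : PP 8 4 T 0x4001001000000000000400041010005000040000000004011401000000000004010000 := rS 0x3d0434cbc3f4dacc0eaa40adcfa6f3fc312273288e4ae15210152e7b688ecb6451b9745a9905a845e180b8089e718a1309641 (k8 d2181 d2179 d2180 d2658 d361 i789 d2591 d453 (k8 d427 d423 i310 i302 d449 d2628 i531 d2616 (k8 d101 d726 d2601 i1160 d647 d684 i65 d434 (k8 d1100 d1829 i195 i527 i837 i915 d399 d353 (k8 d356 d394 d352 d465 i2037 d1845 i666 d2390 (k4 d197 d2383 d2469 d442 (k2 i1268 d1121 k0))))))) (by decide +kernel)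
def d2665 : PP 8 4 T 0x1001000000000000000000000000000040000000004800001000000000014010040 := rS 0x81eb4c7f1348944722b3db4476372e8b44e1521014b64505a845e180b8089e718a1309641 (k8 d2181 d2179 d2180 d2658 d361 i789 d2591 d453 (k8 d427 d423 i310 i302 d101 d726 i65 d434 (k8 d1100 d1126 d2628 i531 d2616 d2601 i1160 d647 (k8 i387 i195 i527 i915 d10 d1174 d1115 d672 (k2 d442 d1121 k0))))) (by decide +kernel)
def d2666 : PP 8 4 T 0x1000000000000000000000000001000040000000004000001000014000004000000 := rS 0xef11110a624872f81c3a525ab3576853ab3986217245d420b4c9c45f146389d8a117e8c472250a814567b2d8dcba8f0c05caa0f21114d6ad6591cb29f32c11a23b01104984b (k8 d2179 d2180 d2181 d2591 d2601 i1160 d2649 d47 (k8 d2652 d92 d81 d54 d12 d366 d101 d434 (k8 i340 d641 d453 d427 i1130 i531 d2616 d726 (k8 d647 i387 i65 d1100 d1178 i195 d1819 d2657 (k8 d2659 d1850 d1126 d1864 d2658 d423 d361 d449 (k8 i302 i310 d2663 d468 d25 d470 i2035 d549 (k8 i1871 i1950 d1107 d1114 d2664 i716 i454 d2665 (k4 d1017 d418 d386 i2032 (k2 d505 i1625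 (k1 d422 k0)))))))))) (by decide +kernel)
def d2667 : PP 8 4 T 0x1000000000000000000000000000000040000000004000001000014000004000000 := rS 0x46c653869823447602 (k8 d2591 d2601 i1160 d2649 d431 d2666 d362 i1819 (k1 d461 k0)) (by decide +kernel)
def d2668 : PP 8 4 T 0x1100000000000000000000000000000000000000000010001080020000004000000 := rS 0x4707b25ca4c (k4 d2180 d15 i613 i595 (k2 i207 d1836 k0)) (by decide +kernel)
def d2669 : PP 8 4 T 0x1100000000000000000000000000000000000000000000001400020000004000008 := rS 0x8e339dc1cc972c5cea250c05e2258211149841 (k8 d2181 d2180 d101 d434 d2668 d411 d453 d427 (k8 d1178 i1062 d44 d15 i1123 d1836 i806 i2365 (k2 d422 i875 k0))) (by decide +kernel)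
def d2670 : PP 8 4 T 0x1100000000000000000000000000000000000000000000001000024000004000008 := rS 0x448f1099c8c5588960301721114824c (k8 d2180 d2181 d101 d434 d453 d427 d2668 d411 (k4 i34 d2669 i1617 i1529 (k2 i875 d624 (k1 i247 k0)))) (by decide +kernel)
def d2671 : PP 8 4 T 0x1002000000000000400000010010020000000140000015101000020000004000000 := rS 0xfb4d46b5172e62e234793d564c (k8 d2180 d72 d395 i874 i247 d44 i104 i1098 (k4 d1148 i327 d358 i239 (k1 d1119 k0))) (by decide +kernel)
def d2672 : PP 8 4 T 0x5001000000001000000400000015000010000000140000011541080000800406000400 := rS 0x1f4feb5511bd4a252ba849841 (k8 d2181 d2180 i819 d1829 d1178 i366 i1054 d1149 (k4 d1261 d2038 i1594 i2037 k0)) (by decide +kernel)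
def d2673 : PP 8 4 T 0x1001002000000000000400000010000440010004000004111001485565100006004000 := rS 0x2f9e0dc930ea9d48d2178adcb1711a3c9ea95582d2aa1299d44a57289cc824c (k8 d2180 d2181 i837 i527 d1829 d1178 i1062 d412 (k8 i819 d2671 d388 d72 d374 d395 i874 i247 (k8 d44 d15 i387 d2672 d417 d1999 d359 d42 (k4 i1364 d1188 d1250 d2585 (k1 d2569 k0))))) (by decide +kernel)
def d2674 : PP 8 4 T 0x1002000000000000000000000000000040000000004000001000004000004010000 := rS 0x17d6aa3388be283d1fa44e651188e512570a8152e7b2d8dcba2d72c5d8e75128602e6b07ab596692a91c468f2cc10684f04ac5560b4d985a23b5094c844501130824b (k8 d2179 d2181 d2180 d2591 d101 d434 d412 i819 (k8 d2601 i1160 d396 d1141 d388 d72 d455 d413 (k8 d395 d2667 d2670 d92 i874 i247 d81 d474 (k8 d431 d54 d12 d5 d366 d453 d427 d1178 (k8 i1062 i412 d44 d15 d2628 i531 d2616 d726 (k8 d647 d684 i65 d1100 d1829 i191 i195 d1819 (k8 i527 i837 i915 d1076 d1361 d2673 d423 d361 (k4 i326 d1114 d1120 d1165 k0)))))))) (by decide +kernel)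
def d2675 : PP 8 4 T 0x1000000000000001000000000000000000000000400110001400000000004020008 := rS 0x2f9b4b6180b95c2a4222814824b (k8 d2179 d2181 i65 d101 d434 d1100 d1829 d453 (k4 d427 d726 d1847 d1290 (k1 d776 k0))) (by decide +kernel)
def d2676 : PP 8 4 T 0x1000000000000000000000000000000040000000004000001000004000004000000 := rS 0x3d040fd55132f2d49e6651a84167117c51fa2708b34468f2c91caa69659955ac935c10eac78bb9468913994462391295c2a42028acf6d11d96c3017228dcba2d011309641 (k8 d2181 d2179 d2180 d2591 d2628 i531 d2616 d101 (k8 d453 d427 d726 d2601 i1160 d647 i387 i65 (k8 d434 d1100 d1829 d1178 i195 d1819 i527 i837 (k8 i915 d2667 d15 d44 i412 i1062 d2670 d366 (k8 d370 d12 d47 d54 d431 d474 d81 d92 (k8 i874 i247 d1107 d2675 d1126 d2674 d2658 d423 (k8 d361 i302 i310 i326 d1168 i789 d1114 d1165 (k4 d10 d1122 d1174 d1086 (k2 i1268 d1121 k0))))))))) (by decide +kernel)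
def d2677 : PP 8 4 T 0x1000000000000000000000000000000040000000004000001000000000004000000 := rS 0xb3118295592223b118cc351915c84182285c0441 (k8 d2181 d2591 d453 d101 d427 d434 d1829 d2676 (k8 i113 i193 i192 i233 i232 i1122 d68 d81 (k2 d401 i806 (k1 d438 k0)))) (by decide +kernel)
def d2678 : PP 8 4 T 0x1002000000000000400001000000000000010400008014101000000000004000000 := rS 0x381fa1b1527ab5567329954de4c (k8 d2180 i1319 i791 d412 i836 d72 d360 d420 (k4 d3 d1154 i2037 d383 (k1 i799 k0))) (by decide +kernel)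
def d2679 : PP 8 4 T 0x1100000000000000800005000001000040000000000804101240515400006208000 := rS 0xf4311081a2a0d32b25e1b07ec262afd8e2835c4e2acf4d8b40e9f4bc61e2372d988ba4c (k8 d2180 i531 d2677 d147 d2349 d35 d426 d405 (k8 d11 i2345 i1237 i1446 d602 d3 d10 i2422 (k8 i644 i409 i1454 d2316 i2035 i376 i370 i674 (k8 i673 i1990 i1415 d355 i1334 d485 d357 i230 (k1 d476 k0))))) (by decide +kernel)
def d2680 : PP 8 4 T 0x8201000000000000000000000000004000440004000000400001000000000004000000 := rS 0x891e4ba912d9893a4c (k8 d2180 d452 d2677 d147 i915 i531 d2569 d418 (k1 d2505 k0)) (by decide +kernel)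
def d2681 : PP 8 4 T 0x8001102000000000000000000000000000040004000000010001240514440006200000 := rS 0xca289bc7a0e6131d8ab7141793f1853bc59e9b4794c169d11ad4fa313ac40aa772b99c6e5b2eb045a0749c54c44c (k8 d2180 d2677 d3 d480 i2345 i1237 d1331 i531 (k8 d147 d2349 d86 i529 d78 i791 d438 d400 (k8 i1041 d67 d349 d401 d452 d388 d412 i874 (k8 i1446 d602 d35 i330 d426 d11 d2680 i644 (k8 i852 d2316 i258 i2035 i369 i1959 d2585 i528 (k2 d2678 d2679 k0)))))) (by decide +kernel)
def d2682 : PP 8 4 T 0x8001102000000000000000000000000000040000000000010001000014000006000020 := rS 0x230db1907278f2f08931c4ec52f854f6396890c6213159102e5d2d988761123a3c5e0b3a89620553b95cce4c (k8 d2180 d86 i529 d78 i791 d438 d403 d400 (k8 d388 i315 i874 i264 i523 i393 d2677 d147 (k8 i531 i8 i228 i2230 i2107 i1041 i518 i2435 (k8 d504 d2365 d2681 i643 d1850 d1126 d1864 d660 (k8 d371 d2569 d2680 d2342 d11 i667 d461 i1036 k0))))) (by decide +kernel)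
def d2683 : PP 8 4 T 0x1000000000000001000000000001000441005500000000001080000000104200000 := rS 0x13d1843c4c4c5e48b3cc44c (k8 d2180 d2677 d602 i915 i635 i636 d10 i737 (k2 d409 i2046 (k1 d11 k0))) (by decide +kernel)
def d2684 : PP 8 4 T 0x8001102000000000000000000000000000040000000000010001000014000004000020 := rS 0x8714c4a32386389c2ac362885c87b07b44f2421585832cd1288cea858815caa673ba74ba912db3cc43b0891d1e4c (k8 d2180 i874 i264 i523 i393 d2677 d602 d147 (k8 i915 i531 d452 d78 d86 i791 i529 d438 (k8 d1014 d400 d401 d403 d454 d2682 d427 i2610 (k8 i707 d1043 i2434 i595 d647 d1836 d2418 d75 (k8 d470 d2683 d1126 d1864 d2540 d364 d409 d386 (k2 d51 i2032 k0)))))) (by decide +kernel)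
def d2685 : PP 8 4 T 0x4001100000000000000100000000000000000000000000000001000014000006008020 := rS 0x551815dca25 (k4 i2209 d37 i502 d528 (k2 d118 d2524 k0)) (by decide +kernel)
def d2686 : PP 8 4 T 0x4001100000000000000914000000000000040000000000000001000555000004204000 := rS 0x321b0ce69a7ae58c974fa76306b78b3d3662 (k8 d2677 i1446 d602 d35 i627 d426 d362 d11 (k8 d405 i2035 d650 d381 d228 i546 d467 d354 (k1 i1699 k0))) (by decide +kernel)
def d2687 : PP 8 4 T 0x4001100000000000000100000014000000040000000000000001000014000006000404 := rS 0x7831cbe156530d8aa518b05c80f168e46e0768894262b221762a5b049887611238109801 (k8 d2182 d2180 d430 i264 i523 i393 d2677 i1349 (k8 d147 d3 i531 i228 i2230 i2107 i2209 i2435 (k8 i2345 d2349 d504 i1237 d2685 d1836 d382 d39 (k8 d60 d75 d470 d1821 d2686 i643 d1864 d371 (k1 d2573 k0))))) (by decide +kernel)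
def d2688 : PP 8 4 T 0x4001100000000000010814000000000000040001500000010001080415000104200000 := rS 0xd938396483d0a572e9ecb66266c411e4c (k8 d2180 i874 d422 d454 d2677 d147 d647 i531 (k8 d1829 d1014 i595 i613 i293 d2683 d2686 i1780 k0)) (by decide +kernel)
def d2689 : PP 8 4 T 0x1000000002000001000000000000000041005000000000001000114041504100020 := rS 0x1138cbc1381348b3cc43b08b15864c (k8 d2180 d470 d75 i523 i393 d2677 d602 i915 (k4 i266 d2540 d371 d362 (k2 d910 d409 k0))) (by decide +kernel)
def d2690 : PP 8 4 T 0x1102000000000000000000000000000040000000000010001000014000004000004 := rS 0x438a625191c31c4e156530d8a31669f56a21721ed0a238803ca2d12b9d4ee253c908aa2b22858331705aad5a5d4896cc43b0891c08c9479049801 (k8 d2182 d2180 d2181 i874 i613 d430 i264 i523 (k8 i393 d2677 d147 i915 i531 d360 d72 d388 (k8 d2684 d2687 d427 i526 i2610 i2464 i707 d1043 (k8 i860 i712 d1846 d1829 i2434 i2333 i595 d422 (k8 d1612 d1014 d647 d1836 d2418 d349 d67 d454 (k8 d39 d75 d470 d2678 d2688 d1126 d1864 d2689 (k4 d364 d409 d386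 d51 (k1 i2032 k0)))))))) (by decide +kernel)
def d2691 : PP 8 4 T 0x8001101000000000000400000000010000000000000008010401000015000004000140 := rS 0x1a62f059b8a07f4aa9684b955ab526b53ec40ae672a9dce64c (k8 d2180 i836 d78 i791 d86 i529 d438 d67 (k8 d349 d480 i1352 i537 d43 d436 d421 d447 (k4 d100 d112 i528 i2348 (k2 i1054 d1265 (k1 d442 k0))))) (by decide +kernel)
def d2692 : PP 8 4 T 0x8201100000000000000800000000000000440000000000000001000014000006200020 := rS 0xde50538bc163d5183984c762adc505e4fc61e2cf4da74ae6711ad48617298dcb65d1cb44f6313a84c4a2b238ec5a626081c884c (k8 d2180 i228 i2345 i1245 d2677 i1237 i393 i264 (k8 i2230 d403 i2107 d400 i1041 d2365 i2435 d504 (k8 i531 d147 d2349 i2358 i8 i518 d349 d401 (k8 d86 i529 d452 i1446 d602 d35 d426 d11 (k8 d2680 i644 i852 d2316 i258 i2035 i369 i2194 (k4 i1959 i620 i315 i330 (k2 d2679 d2585 (k1 i528 k0)))))))) (by decide +kernel)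
def d2693 : PP 8 4 T 0x8001100000000000000000000000000000040000000000010001000014000006000004 := rS 0x230db1907278f2f08931c4ec52f855947b1c94c0ed118a84262b22174b609310ec22470223dfa7512c40ae672a9dc9801 (k8 d2182 d2180 d78 i791 d86 i529 d438 d403 (k8 d400 d2690 i874 d430 i264 i523 i393 d2677 (k8 i1349 d147 i531 i228 i2230 i2107 i2186 i1041 (k8 i2435 i2345 i2358 d504 d2365 d2691 d2692 i643 (k8 d1850 d1126 d1864 d660 d371 d2569 d2680 d2342 (k4 d11 i667 d461 i1036 k0)))))) (by decide +kernel)
def d2694 : PP 8 4 T 0x8001100000000000000000000000000000040000000000010001000014000004000004 := rS 0x8714c4a32386389c2ac362885c87b07b44f2421585832cd1288ceb104295caa673ba74ba912d98822470223c9801 (k8 d2182 d2180 i874 d430 i264 i523 d2677 d147 (k8 i915 i531 d452 d78 d86 i791 i529 d1014 (k8 d438 d400 d401 d403 d454 d2693 d427 i2610 (k8 i707 d1043 i2434 i595 d647 d1836 d2418 d75 (k8 d470 d2683 d1126 d1864 d2689 d364 d409 d386 (k2 d51 i2032 k0)))))) (by decide +kernel)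
def d2695 : PP 8 4 T 0x1001000000000000400000010000000000010800008015501000000000004000000 := rS 0xfd0c279cd724c (k4 d2180 i1405 i836 d420 (k2 d399 d540 (k1 d353 k0))) (by decide +kernel)
def d2696 : PP 8 4 T 0x1100000000000000000000010000000040000000000010201000014000006000004 := rS 0xab05b262e4c (k4 d2180 d2694 i613 i2348 (k2 i2349 d2687 k0)) (by decide +kernel)
def d2697 : PP 8 4 T 0x4001100000000000000480000010005000041050000010015101200000000004000000 := rS 0x1497846773ac419e8f3db44b67329ae4c44c (k8 d2180 d2677 i1405 i2358 i836 d147 i2435 d647 (k8 i874 d602 d438 d281 d540 d401 d2613 i258 (k1 i644 k0))) (by decide +kernel)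
def d2698 : PP 8 4 T 0x400000000000020001000000002000000000010000000004010000000008000001000144500006000000 := rS 0x51c559e31 (k4 d39 d602 d3 d1639 (k1 d220 k0)) (by decide +kernel)
def d2699 : PP 8 4 T 0x1100000000000000000000000000000040000000000010001000014000006200004 := rS 0x50944ab530fda62e1ed1564932f9d0ac890fa04fa7f5bc30a2ad329b10a69a7ac58c554ba7d3ab98c1ad96f127b3d5e3b7e8aca6372d9747213688b40e44310c58ac37203e2ec9238109801 (k8 d2182 d2180 d430 i264 i613 d2694 d2685 d1836 (k8 d470 d75 d39 d2677 i228 i2345 i1237 i2435 (k8 i2107 d504 i531 d147 d2349 i2358 i2230 d2690 (k8 i393 i539 d602 d420 d35 d2686 i627 d426 (k8 i1405 d362 d11 d405 d2312 i2035 i1354 d381 (k8 d228 i1602 d467 i1699 i1702 d2696 d399 d290 (k8 d353 d394 d465 d476 i230 d2697 i530 i650 (k8 i1589 d2314 d355 i1253 d2698 d358 i404 d365 (k4 d503 i336 d436 d469 k0))))))))) (by decide +kernel)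
def d2700 : PP 8 4 T 0x1100000000000000000000000000000040000000000010001000014000006000004 := rS 0x7831cbe15628c5c80f1284c56441d8448e0464c5c9801 (k8 d2182 d2180 d2694 i613 d430 i264 i523 i393 (k8 i228 i2230 i2107 i2209 d2685 d1836 d39 d75 (k4 d2699 i643 d1864 d371 (k1 d2573 k0)))) (by decide +kernel)
def d2701 : PP 8 4 T 0x1000000000000001000000000000000441005500000000001080000000104200000 := rS 0x233134e179224c (k4 d2180 i915 i635 d2683 (k2 d10 d362 (k1 d409 k0))) (by decide +kernel)
def d2702 : PP 8 4 T 0x1100000000000000000000000000000040000000000010001000014000004000004 := rS 0x10e298946470c71385586c566885c87b4288e200f6895cea77129e48455159142c198ba3cba912d9882247021049801 (k8 d2182 d2180 d2181 d430 i264 i523 d2677 d147 (k8 i915 i531 i874 d2694 d2700 d427 i526 i2610 (k8 i2464 i707 d1043 i860 i712 d1846 d1829 i2434 (k8 i595 d422 d1612 d1014 d647 d1836 d2418 d454 (k8 d75 d470 d2701 d1126 d1864 d2689 d364 d409 (k2 d386 d51 (k1 i2032 k0))))))) (by decide +kernel)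
def d2703 : PP 8 4 T 0x1000000000000000400000100000000040000000800020001200000000004000000 := rS 0x1bd6c512ec549eaf3db44b67329988be4c (k8 d2180 i2422 d2677 i2358 i836 d147 i2435 d647 (k8 i539 d420 d3 i531 i607 d1492 i1319 d648 k0)) (by decide +kernel)
def d2704 : PP 8 4 T 0x8101000000000000000881000000044000040044001800400501000005500006000000 := rS 0x3d0c442d52aa55f2f564b73e9be2a5b57ae4e6b156a4d064f31176864c (k8 d2180 d98 i531 d2677 d420 d1355 d480 i1352 (k8 i1967 i836 d43 i539 d147 d3 i1319 i1327 (k8 d648 d2314 i1414 i634 i415 i1725 i1455 d678 (k2 d481 i230 (k1 d476 k0))))) (by decide +kernel)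
def d2705 : PP 8 4 T 0x8101000000000000000880000000004000040040001800004001000014000806008420 := rS 0x2952a895a9b8a0a317ae4a67b6896c5a621885dca5f6081c884c (k8 d2180 i228 i2345 i1245 i2422 d37 i8 i1572 (k8 d2677 i1237 d147 i2435 d647 i2358 d43 i315 (k8 i322 d2704 i528 i1398 d95 i1058 i249 d665 k0))) (by decide +kernel)
def d2706 : PP 8 4 T 0x8001000000000000000010000000000000040000000000020001000014000006200020 := rS 0x16eb328bf414ca40c494eb12fa7d8c6a8c30de24f67abc77112bb255a931b96cba0e368e426d13f94cc431111102e4c (k8 d2180 i8 i228 i604 i1572 d2677 i2358 i844 (k8 i2435 i2107 d504 i2445 i603 i531 d147 d2349 (k8 d480 i1352 d61 i54 d411 i393 i539 d602 (k8 d420 d35 i2129 d426 d654 d631 d11 i2422 (k8 i1967 i2201 d418 d46 d2703 d2705 d388 i2348 (k2 i660 d290 (k1 d341 k0))))))) (by decide +kernel)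
def d2707 : PP 8 4 T 0x8001100000000000000000000000000000040000000000000001000014000006000004 := rS 0x297817c2ac5109b444376890c26440b974b6cf310ec22048895cb08f339049801 (k8 d2182 d2180 d2181 d86 d380 d2702 i54 d411 (k8 d430 i523 i393 d2677 d602 d147 i531 i8 (k8 i228 i2107 i518 i2435 d2349 i604 i2445 i723 (k4 d2336 d2706 i643 d371 (k2 d2571 d626 k0))))) (by decide +kernel)
def d2708 : PP 8 4 T 0x1000001000000002001000014500000040000000400800401000004008005004120 := rS 0x74e0d24ca0c7eb25e2fe86ca038b43eb739c559e9b239bc16978c44cf25d3db44841648d3cd25b312ecd84c (k8 d2180 i891 i1681 d2677 d147 i1830 d73 i915 (k8 d427 i707 i2434 d647 i531 d1043 d10 d409 (k8 d405 i2357 d613 i264 i1446 d602 d3 i836 (k8 i852 d2554 d2538 i520 d1821 d98 i1454 d1516 (k8 i673 d219 i895 i1990 d2183 d2249 d42 i709 k0))))) (by decide +kernel)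
def d2709 : PP 8 4 T 0x8001100000000000000000000000000000040000000000000001000014000004200004 := rS 0xb5960739148fecc42b154a0f10b05c8a735898bcf148c541247559611e9d3bab526a13c974ea45059eda2420b064085b310049841 (k8 d2181 d2180 d2182 d2677 d147 d430 d2707 d427 (k8 i707 i2434 d647 i2357 i526 d1846 i531 d1043 (k8 i2574 d480 i1352 d78 d452 d380 d2702 i2360 (k8 i264 i1349 d3 i915 d35 i635 i636 i2420 (k8 i330 d2551 d382 d25 d37 d60 d75 i1771 (k8 d2701 i2587 d2708 i536 i2336 i622 i977 d1821 k0)))))) (by decide +kernel)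
def d2710 : PP 8 4 T 0x20001000000000000000000000400000000040000000000000001000000100004100404 := rS 0x8969a980f15578245e131c8f56297310440801 (k8 d2182 d430 i523 d2677 d405 i1354 d1361 d364 (k8 i266 i315 i1349 i539 d3 i520 d533 d359 (k2 i282 d417 k0))) (by decide +kernel)
def d2711 : PP 8 4 T 0x20001000000000000000400010000050004440000504800020001000000000204100404 := rS 0x7d4a9cc3e71162ccfeb55284576131c811629704abcc401 (k8 d2182 d2677 i539 i1349 d405 i1354 d430 d364 (k8 i266 i1946 i523 d1579 i728 i845 i633 d2710 (k4 d70 i2844 i977 i979 (k2 i1502 i2044 k0)))) (by decide +kernel)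
def d2712 : PP 8 4 T 0x21000000000000000000011000040004400010540000000001000000200004000000 := rS 0x12a71 (k2 d70 i979 (k1 d205 k0)) (by decide +kernel)
def d2713 : PP 8 4 T 0x20001000000000000000000010000000004440000500800020401000000000004908004 := rS 0x38a543abe692c9822d861fce715888bdca9f5aa9422bb098e5629704abe867d6528c400b379894251210109801 (k8 d2182 d2180 d430 i707 i2333 i2574 d2677 d613 (k8 i2357 i596 i322 d2711 i1327 d98 i539 i1349 (k8 d405 i1354 d364 i266 i1946 i523 d1579 i728 (k8 d11 d37 i315 d411 d3 i836 i844 d481 (k8 d2712 d1331 d2710 d475 i634 d42 i1725 i709 (k1 i2044 k0)))))) (by decide +kernel)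
def d2714 : PP 8 4 T 0x28001000000000000000000000000000000040000100000020001000000000004908004 := rS 0xb56672291a90c9f48a3d3ab93ba4d42792e82cf6d16689cb6624288084c508810024c (k8 d2180 d2182 d430 i523 d1850 i707 i596 i1503 (k8 d2677 d147 d1126 i729 i2434 d647 i2357 i531 (k8 d1043 i2574 d480 d78 d43 d452 d380 i915 (k8 d11 d1306 i930 d2713 i536 i2427 i977 d2710 k0)))) (by decide +kernel)
def d2715 : PP 8 4 T 0x8001100000000000000000000000000000040000000000000001000014000004008004 := rS 0xc5191972a448e583b9e4ba75229eda2420b0658a270a844085b310049841 (k8 d2181 d2180 d2182 d2677 d147 d430 i523 d2709 (k8 d1126 d1850 d2707 d427 i707 i2434 d647 i526 (k8 d1846 i531 d1043 d78 d2702 i264 i915 d37 (k4 d2714 d461 d2299 d2273 k0)))) (by decide +kernel)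
def d2716 : PP 8 4 T 0x20001000000000000004054000000001000000000000000000001000455000004000000 := rS 0x13e39 (k2 d364 d11 (k1 i2035 k0)) (by decide +kernel)
def d2717 : PP 8 4 T 0x8001100000000000000000000000000000040000000000000001000014000004000004 := rS 0x1a69ecc4f9b50a872f9ae248c8cb0c62e407b1c6ec50a9eda2753c9088a160ca751e5d4896d9e621d8448e042c1049801 (k8 d2182 d2180 d2181 d2702 d430 i264 i523 i393 (k8 d2677 d602 d147 i915 i531 d380 d452 d2707 (k8 d427 i526 i707 d1043 d1846 i2434 d647 d2709 (k8 d1850 d2251 d1864 d2715 d1836 d39 d470 d2716 (k8 d461 d409 i1964 d10 d51 d53 i669 i1036 (k4 d1306 d73 i1830 d467 k0)))))) (by decide +kernel)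
def d2718 : PP 8 4 T 0x4001000000000000000000000000000000000000000000020001000014000004008020 := rS 0xee8f1819dca4c (k4 d2180 d37 i542 d468 (k2 i875 d448 (k1 d652 k0))) (by decide +kernel)
def d2719 : PP 8 4 T 0x10000000000000000000000004000000400040040008000010000000080048000a0 := rS 0xb7398b0a69b3125e31133c975224c (k8 d2180 i915 i531 d1043 d10 d409 d405 d2677 (k4 i1446 i2336 i520 i836 (k2 i852 d2538 k0))) (by decide +kernel)
def d2720 : PP 8 4 T 0x1100000000000000000000014000000040000010080000001080004000005204120 := rS 0x38d24107d32895b9cd7053650b40e978c44d4e262f2462a9b60a95c847379e42c5d3db44b62f05988d64c (k8 d2180 i547 d2677 i2357 i315 d147 i2434 d647 (k8 i531 d427 d1043 d613 i264 d1836 d60 d382 (k8 i1446 d3 i915 i635 i636 i330 d10 d409 (k8 d405 d2719 i1237 d1821 i2369 i546 i836 i852 (k4 i1403 d344 d2554 d2249 (k2 d417 i735 (k1 d42 k0))))))) (by decide +kernel)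
def d2721 : PP 8 4 T 0x20001000000000000004054000000000000000000000000000001000455000004000000 := rS 0x9d (k2 d362 d2716 k0) (by decide +kernel)
def d2722 : PP 8 4 T 0x10000000000000000000000000100002401040140004001010000400040040000a0 := rS 0x4badd32b13987c585369a6cc44c (k8 d2180 d2677 i1446 d49 i2336 i520 i1301 i836 (k4 i2827 i980 d2253 i1817 (k1 d2383 k0))) (by decide +kernel)
def d2723 : PP 8 4 T 0x1100000000000000000000000000000040000000000000001000014000004000004 := rS 0x6943112735c14d942d03a04bf12464658e271b8fc2a7156998ca8e179ecee79508ac166f28b442cc362a9462c13a90832e42283e2eab889608e111d824085d48c54b6cf311308201 (k8 d2182 d2181 d2180 d2677 d602 d147 d3 i915 (k8 i531 d430 i1349 i393 i523 i264 d2702 d411 (k8 i2360 d2717 d2718 i603 d1836 i228 d434 d1846 (k8 d382 d39 d60 d75 d470 d427 i2434 i2333 (k8 d613 i2357 i897 i2574 d1043 i712 d647 i315 (k8 d422 d443 i875 i1353 d1844 d2720 d1076 d2251 (k8 d1126 d1864 d2721 d461 d409 d10 d46 d2722 (k8 i1237 d1821 i2369 i546 i836 i1403 d383 d417 (k1 d1682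 k0))))))))) (by decide +kernel)
def d2724 : PP 8 4 T 0x8001100000000000000000000000000000040000000000000001000014000004000000 := rS 0x160ce9d310141e02 (k8 d2723 i340 i65 d2677 d452 d86 d2620 d640 k0) (by decide +kernel)
def d2725 : PP 8 4 T 0x1100000000000000000000000000000040000000000010001000014000004000000 := rS 0x1e1123cc6538cd119d6208548b3c72372e884aa0f128ac30172b9088a7b688ecb66262b0dc91718808824c (k8 d2180 d2181 d2723 d1819 d2724 d468 d470 d75 (k8 d2677 d147 d2601 i1160 d647 d101 d434 d1829 (k8 d453 d427 i387 d1178 i340 d641 d2418 i531 (k8 d2616 i195 d602 i915 d1014 d438 d400 d401 (k4 d454 d2615 d362 i1857 (k2 d409 d426 (k1 d910 k0))))))) (by decide +kernel)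
def d2726 : PP 8 4 T 0x1100000000000000000000000000000040000000000000001000014000004000000 := rS 0x662c23c300f0285c0462 (k8 d2677 d2723 d453 i65 i340 d427 i1130 d2725 (k2 d640 i544 k0)) (by decide +kernel)
def d2727 : PP 8 4 T 0x8001000000000000000480000010000000040002000000000001600004020004004004 := rS 0xb609414a86111762a0404aacce2d039889801 (k8 d2182 d2180 d2677 i2345 i1237 d86 i537 i1349 (k8 d430 d3 i531 i258 i259 i2135 d656 i3019 (k2 i2348 d1821 k0))) (by decide +kernel)
def d2728 : PP 8 4 T 0x1000000000000000000004000010440000002000000800201000540140004000040 := rS 0xf47e9917a243ab2401ba1a4c (k8 d2180 d41 i528 i648 i647 i1229 d95 i1054 (k4 i1060 i1333 i1253 d673 k0)) (by decide +kernel)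
def d2729 : PP 8 4 T 0x28001000000000000000004000000010000040002000000800001200154040004400004 := rS 0xc4720c4466f28b1cbb1527b3d360f56b2caa472cc1076042baacce2d03a5c50b7299889801 (k8 d2182 d2180 d2677 i2358 i852 i644 d405 i2345 (k8 i1237 d86 i537 i529 d430 i393 d2726 d92 (k8 d81 d474 d54 d12 d5 i1446 d602 d420 (k8 d3 i531 d2727 d2728 i1319 d656 d123 d126 (k2 d2721 d75 k0))))) (by decide +kernel)
def d2730 : PP 8 4 T 0x1000000001000000010000000000000040000000040800001000015000006200004 := rS 0x14553a097e3d5a206183f28b4dfa0a60a950c22634549ecf57ab596470495d56c30794e30391b96cba3b788b40e621411008cd2cc109801 (k8 d2182 d2180 d2726 d92 i890 d430 i228 i644 (k8 d2677 i2345 i1237 d35 i393 i531 d147 d2349 (k8 i2113 d426 i2358 d5 i369 i537 i529 i1349 (k8 d81 d54 d12 i539 d602 d420 d3 d2721 (k8 i258 i259 i2135 i3019 d1821 d388 d50 i2348 (k8 i401 d399 d465 d104 i1839 i1456 i933 i337 (k2 d457 d365 k0))))))) (by decide +kernel)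
def d2731 : PP 8 4 T 0x1000000000000000000000000000040040001000000800201000100100004400020 := rS 0x26512835902cdc5d4d988764c (k8 d2180 i393 d2677 i1446 i531 i528 i2348 i647 (k4 i1438 d95 i1059 d346 k0)) (by decide +kernel)
def d2732 : PP 8 4 T 0x1000000000000000010000000000000040010000040800101000014000006200004 := rS 0x5154e825f8f568813fc303e3f69bf414c152a1844e46333d5e4704b0e30391b96cba3b788a19a313794cb2ad27aac2e578a8b40e4402189965507c109801 (k8 d2182 d2180 d2726 d5 d474 d54 d2677 d430 (k8 i228 i2345 i1237 d3 i529 i8 i537 d420 (k8 d12 d92 i2358 i1319 d123 i890 i644 d35 (k8 i393 i531 d147 d2349 i2113 d426 i369 i1349 (k8 d81 i539 d602 d2721 d2730 i258 i259 i2135 (k8 d382 d1821 d388 d50 i401 i237 d399 i1664 (k8 d465 i2037 i1839 i1456 i933 i337 d457 d365 k0))))))) (by decide +kernel)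
def d2733 : PP 8 4 T 0x8001000000000000000000000000000000040000000000800001000014000006200004 := rS 0x11b95887d37944f2278a964ce936183e082b5090c2e2d039cca6978c0e46e442d988ba3b023c4024c (k8 d2180 d2182 d35 d430 i393 i531 d2677 d147 (k8 i228 d2349 i2113 d426 d405 i2358 i836 i2345 (k8 i1237 i8 i518 i2186 i2230 d2726 d5 i369 (k8 d480 d86 d92 d3 i731 d2729 d2731 i1319 (k4 d107 d2732 d75 i1576 (k1 d126 k0)))))) (by decide +kernel)
def d2734 : PP 8 4 T 0x8001000000000000000480000110000000040000000000400001400004000806004404 := rS 0xa2b35bad1787f5228d822f8a93d5e094995d5667298b40e4402206245b311749801 (k8 d2182 d2180 i531 d2677 d147 d418 d46 d430 (k8 i228 i2345 i1237 i2358 d86 i537 i529 d480 (k8 i1349 i539 d420 d3 i315 d1331 d1639 d1821 (k4 i1663 i415 i249 i1989 (k2 i1413 i1398 (k1 d341 k0)))))) (by decide +kernel)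
def d2735 : PP 8 4 T 0x28101000000001000000014000000000000040000000000400001000015000006000004 := rS 0x5fd0d7b455a2ed64b7860fca2fd05088434f6333d5e0f56b2c8e59820ecae671294c6e44022c52e8327a1e245b311749801 (k8 d2182 d2180 i531 d2677 d147 d418 d51 d420 (k8 d1355 d405 i1354 d430 i228 d2349 i2358 i2209 (k8 d86 i529 i393 d2726 d92 d81 d54 d12 (k8 d5 i539 d602 d2721 d381 i1689 d410 d2734 (k8 d388 i2348 i401 d399 d290 d2314 i1680 d104 (k4 d355 i1413 d55 i1455 (k1 d87 k0))))))) (by decide +kernel)
def d2736 : PP 8 4 T 0x8001000000001000000010000000000000040000000000000001000014000006200004 := rS 0x6ca73358e20181acd2552b99d860f8c0de229f68910ca7b1cbc4760447966088742c48be5b311749801 (k8 d2182 d2180 i531 d2677 d147 d2733 d418 d53 (k8 d51 d2726 d92 i874 d430 i393 d35 i2113 (k8 d2466 d47 i228 i2435 d2652 d2680 d2349 d426 (k8 d5 i369 d86 i529 d474 d431 d366 d2735 (k4 i1042 i1692 i730 d435 (k2 i2039 d389 k0)))))) (by decide +kernel)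
def d2737 : PP 8 4 T 0x8001000000000000000010000000000000040000000000000001000014000006200004 := rS 0x2f968a63e9fd64b786145fa0a6329462c1724559eaf56b2caa472c824aeab33b0c1f04298b40eb14bc6072372216c760478a0cbe4f311749801 (k8 d2182 d2180 i531 d2677 d420 d2733 d1355 d35 (k8 d430 i393 d147 i228 d2349 i2113 d426 d405 (k8 i1354 i2345 i1237 i2358 d2726 d5 i369 d86 (k8 i537 i529 i1349 d92 d81 d474 d54 d12 (k8 i539 d602 d3 d2736 d382 d39 d60 d2721 (k8 d1821 d388 i2348 d399 d290 d2314 d353 d394 (k4 i660 i2037 i337 i1455 k0))))))) (by decide +kernel)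
def d2738 : PP 8 4 T 0x8001000000000000000000000000000000040000000000000001000014000006200004 := rS 0xcd36b110a878917c4a5d2d988d6692a96608042b99c9801 (k8 d2182 d2180 d86 i529 d430 d2726 d92 d474 (k8 d431 d366 d2677 d147 i531 i2209 d2733 d418 (k4 d51 d53 d2737 d1822 (k2 i1792 i2039 k0)))) (by decide +kernel)
def d2739 : PP 8 4 T 0x1001000000000000000000000000200000000010204000000001000000000005000000 := rS 0xf1cc4416 (k4 d427 i971 i1096 i248 (k1 d2554 k0)) (by decide +kernel)
def d2740 : PP 8 4 T 0x8001200000000000000000000000200000048010000000000101000000008004000100 := rS 0x164bc1f3f58cb55798996593b95cce4c (k8 d2180 d86 i529 d78 d92 d54 d2677 i539 (k4 i2490 i738 d2678 i414 (k2 i415 d2328 (k1 i1413 k0)))) (by decide +kernel)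
def d2741 : PP 8 4 T 0x8001000000000000000000000000000000040000000000000001000014000004200004 := rS 0x725a0784484439d4faa4608b40ecd538bd3e7b13178166f28b444a7921058325d48c54b60f56995964747966080404a7526ab339889801 (k8 d2182 d2180 d2677 d86 i537 d480 d452 i1349 (k8 d430 d2726 d92 i874 d81 d54 d47 d12 (k8 d5 d147 d3 i915 i531 d2738 d427 i707 (k8 d1043 i860 i2434 i2333 d613 i2357 i635 i636 (k8 d647 d2652 i315 i330 i890 d2719 i1237 d1331 (k8 d1821 i1326 d2739 d2740 d1306 i1772 i248 i249 (k2 d2554 i2601 k0))))))) (by decide +kernel)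
def d2742 : PP 8 4 T 0x20101200002000000000000000000000000040001000040000001004144010006000020 := rS 0x9917a24dc5011b9440978ab3d360f4796476175094c5a07221889841 (k8 d2181 d2180 d2677 i228 i2345 i1237 i2358 i2186 (k8 i8 i393 d92 i874 d5 i1446 d602 d3 (k8 d405 d621 d25 i46 d126 i528 d95 i1054 (k2 i1059 d485 k0)))) (by decide +kernel)
def d2743 : PP 8 4 T 0x8001000000000000000000000000000000040000000000000001004014000006100020 := rS 0x8ceac2189bca28c8ca1d0311149e45af08917ca6071c84c88172ea462a4f67a6c1ead659551e591da74aeab338dd8a27638448e7b2d9893ed132c10824c (k8 d2180 d2181 d2726 d47 i651 d2652 d2677 d147 (k8 d647 d81 i523 d1864 d1126 d1850 d2251 d86 (k8 i537 i529 d452 i393 d92 i874 d474 d54 (k8 d12 d5 i1446 d602 d420 d3 i915 i531 (k8 i8 i228 i2107 i235 i2345 i2358 i643 d660 (k8 d371 i1237 d2569 d2571 d2680 d46 d51 d2742 (k8 d461 d103 i1319 d123 i2035 d1688 i250 d1463 k0))))))) (by decide +kernel)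
def d2744 : PP 8 4 T 0x1001000000000000000000000000800000000000000000000001000100500004000000 := rS 0x112d3 (k2 d359 i282 (k1 d417 k0)) (by decide +kernel)
def d2745 : PP 8 4 T 0x20001200000000000000000000004000004040000000000000001000004100004100404 := rS 0x1774f3630d4ebfa1af68aa4593040f153583d5acb62b1c8e3f04988222f098e40801 (k8 d2182 d430 d364 i266 i315 i523 d2677 i1349 (k8 d1076 d81 d1864 d1850 d54 d12 d5 d366 (k8 d3 i520 d1331 d2710 d1821 d355 i1413 d421 (k4 i1451 d2744 d156 d1842 (k2 d389 i1681 (k1 d167 k0)))))) (by decide +kernel)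
def d2746 : PP 8 4 T 0x1200000000000001008000004000000000050000000004541000000001004000080 := rS 0x46e556b2caa59 (k4 d92 d474 d54 d12 (k2 d470 i251 (k1 d1293 k0))) (by decide +kernel)
def d2747 : PP 8 4 T 0x8001000000000000000000000000000000040000000000800001000014000004000004 := rS 0x111d5ca85a78c0d8c33f9f4a70c39818e22c098e630cd89a462a4f679ad5acb2a8ed26575599c6ec56391cf65b4fb44caa13c9744a8f2cc10a26f059082c191f8242215021889801 (k8 d2182 d2180 d2677 d430 d2741 i523 i1349 d1076 (k8 d2743 d427 i707 i2357 d613 i2333 d2726 d92 (k8 i874 i860 i531 d1043 i2574 d47 i651 d2652 (k8 d147 d647 d81 d1864 d1850 d2251 d86 i537 (k8 i529 d480 i393 d474 d54 d12 d366 d602 (k8 d420 d3 i915 d10 i890 d409 d364 i266 (k8 d2745 d70 i1237 i977 d383 i2336 d107 d353 (k8 d2746 d1842 d2721 d389 i1603 d39 d667 d1293 (k1 i1571 k0))))))))) (by decide +kernel)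
def d2748 : PP 8 4 T 0x20001200000000000000000000004010004040501004000000001000004000004100404 := rS 0x5ba64e61f38b4c589748a6c6e27089eda2042d988024c (k8 d2180 d2182 d2677 d147 d430 i651 d647 i523 (k8 d1126 d2251 i1446 i915 d405 d2745 d0 d70 (k4 i2844 i977 i980 d2253 (k1 i2045 k0)))) (by decide +kernel)
def d2749 : PP 8 4 T 0x1200000000000000000000000201000040000400040400001000000004005000000 := rS 0x1c9681e11330ea7d729762a5b679acca5512a3cb26f21058c44c (k8 d2180 d2677 d427 i707 d613 d92 i874 i860 (k8 d474 d47 d366 d602 d147 d3 i531 d60 (k8 i1326 d2739 d1171 d1169 i248 i249 d2554 i2601 k0))) (by decide +kernel)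
def d2750 : PP 8 4 T 0x1001000000000000000400000014100004000000000000000001400004100004004520 := rS 0x3040e2f (k4 i315 i520 d1331 d1821 k0) (by decide +kernel)
def d2751 : PP 8 4 T 0x8001000000000000000000000000000000040000000000000001000014000004000004 := rS 0x18e22c52a3232818920cbe0b37944f24250858327b1f89c6ed10aaad26673ba74bb152d83d5acb23c101262088109801 (k8 d2182 d2180 d430 i523 d2677 i1349 d2726 d81 (k8 d54 d12 d5 d147 d3 i531 d452 d78 (k8 d86 d480 i537 d2741 i651 d2251 d1126 d1076 (k8 d647 d2743 d427 i2574 i707 d1043 i2333 d613 (k8 i2357 d2747 d1202 d418 d46 d2748 d461 d2749 (k4 d2750 d70 i1237 d2722 k0)))))) (by decide +kernel)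
def d2752 : PP 8 4 T 0x4001000000000000000500000014000000000000000058011101000014100006004520 := rS 0x317295c9e070b94c88a317c54de4c (k8 d2180 i1319 d3 i315 d1639 i228 i2358 i8 (k4 i520 d420 i529 d510 (k2 d123 d468 k0))) (by decide +kernel)
def d2753 : PP 8 4 T 0x4001200000000000000000000004000000000000000008000101000014100006000520 := rS 0x304626607b255a65659548e5903a8c5f15 (k8 d3 i315 d1639 i520 d92 d81 d474 d54 (k8 d47 d12 d370 d5 d2752 d1820 d2291 d1834 k0)) (by decide +kernel)
def d2754 : PP 8 4 T 0x24001200000000000000004000000004000000000000008000101000554100006000520 := rS 0xc6a731512e40f8c61893333f5544f54b3d72cb299113a2f (k8 i315 d362 i228 i2358 d54 i1405 d602 i97 (k8 d420 d2753 d72 i537 i1636 d399 d1820 d476 (k4 d468 i230 d75 d2698 (k2 i2035 d381 k0)))) (by decide +kernel)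
def d2755 : PP 8 4 T 0x1000000000000000000004000010040040000000000800201000140140004400020 := rS 0x794d9887607 (k4 i520 i393 d2677 i1446 (k2 d2728 d2731 k0)) (by decide +kernel)
def d2756 : PP 8 4 T 0x1000000000000000000000004000000040000000040800101000014000006200804 := rS 0x216215c1ead65954b304141fcfb0c7e93ca644021889801 (k8 d2182 d2180 d2677 d430 i228 i2358 d420 d388 (k8 d399 d394 d353 i644 d2726 d92 d474 d54 (k4 d12 d5 i529 d2732 (k2 d106 i1842 k0)))) (by decide +kernel)
def d2757 : PP 8 4 T 0x4001000000000000010080000000000000400000000000000001000444020004050000 := rS 0x3bc44ea22 (k4 i258 d657 d401 i1625 (k1 d422 k0)) (by decide +kernel)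
def d2758 : PP 8 4 T 0x1000000000000000000000000000000040000000040800101000014000006200804 := rS 0x15662 (k2 d2677 i537 (k1 d2756 k0)) (by decide +kernel)
def d2759 : PP 8 4 T 0x1000000000000000000000000000000040000000000800001000014100006200004 := rS 0x311c8313331c14514badd3f18140dca6d11ca8456440b974b6cf32a3cb209310ec22048bbc426c307c109801 (k8 d2182 d2180 d2726 d5 i369 i137 d35 d2751 (k8 d430 i523 i393 d2677 i1349 d92 i874 d47 (k8 d602 d147 i531 i8 i228 i2230 i2186 i2113 (k8 i2435 i2358 d2349 i644 d426 d2652 i852 d405 (k8 d2755 d2754 d2757 d2758 d1820 d468 d2721 d75 k0))))) (by decide +kernel)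
def d2760 : PP 8 4 T 0x4001000000000000010000000000001000040001400080004001000014008004000000 := rS 0x2143390ea314896d9e6247966084c (k8 d2180 d2726 d92 i874 d2677 d602 d147 i915 (k4 d1820 i1587 d468 d1065 (k2 d25 i737 k0))) (by decide +kernel)
def d2761 : PP 8 4 T 0x5001000000000000000400010014000000000000000000000001400015100004004520 := rS 0x60a940e2f (k4 i315 i520 d574 d2291 (k1 d1821 k0)) (by decide +kernel)
def d2762 : PP 8 4 T 0x4001000000000000000000000000005000444004400000000001000000008404800000 := rS 0x429d522cf311e4ba4c (k8 d2180 i531 d1043 d2677 d602 i915 i971 i1772 (k1 d826 k0)) (by decide +kernel)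
def d2763 : PP 8 4 T 0x1000000000000000000000000000000040000000000800001000014100004200004 := rS 0x3ea9126741121d8e305599d3a9f8c09816d12b9bcf677129e484160c975231507ab4ca475cb2d1e598201012628bc4c9801 (k8 d2182 d2180 d10 d2751 d2677 i1349 d430 d2726 (k8 d92 i874 d54 i1405 d81 d47 d12 d5 (k8 d3 i915 i531 d2759 d427 i707 d1043 i860 (k8 i712 i2471 i968 d1829 i2434 i2357 i636 d409 (k8 d2652 d362 d2760 i537 d2761 i1691 i738 d2762 (k4 i1571 i2953 d2750 i1326 (k1 d2739 k0))))))) (by decide +kernel)
def d2764 : PP 8 4 T 0x1000000000000000000000000000000040000000000800001000014000004200004 := rS 0x25cf679131bda2161490832b739a9d64452982c0c2f162453662021049801 (k8 d2182 d2180 d2181 d430 d2677 i1446 i915 d2763 (k8 i15 i1237 i534 i2336 i2345 i639 i330 i836 (k8 i852 i228 d434 i252 d427 i2434 d613 i636 (k4 i973 i2471 i1374 d2538 k0)))) (by decide +kernel)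
def d2765 : PP 8 4 T 0x1200001000000000004000000000000040000000000400001000042000006000000 := rS 0x62d3cd8cd2bb1c4067729acd2552ca1d0b122d988ba4c (k8 d2180 i531 d2677 d147 d418 d53 d51 d92 (k8 d474 d431 d366 d39 d1820 i1042 i1692 i529 (k4 i730 i2039 d389 d1822 (k1 d435 k0)))) (by decide +kernel)
def d2766 : PP 8 4 T 0x24001200000000000000004000000004000000000000008000001000555100006000520 := rS 0xaa284541ead23ae5964c (k8 d2180 d54 i1405 d81 d12 d5 d3 d2754 (k2 d2761 i2349 k0)) (by decide +kernel)
def d2767 : PP 8 4 T 0x1000000000000000000000000000000040000000000000001000014000004200004 := rS 0x24e8695512f94cb25b945fa0a63315c83158a5e302d1b94c0e182205c729f21b44bec3789762a4f2db3d5e0f32ae597040498876048b9308201 (k8 d2182 d2181 d2180 d2751 d430 i393 d2677 i1349 (k8 d2726 d54 i1405 d47 d5 i539 d602 d147 (k8 d420 d3 i531 d35 i369 d2764 i653 i635 (k8 d2652 i293 i707 d434 d427 i2345 i2358 d2349 (k8 i1237 d426 d405 i1354 d2765 d468 d75 d2721 (k8 d2766 d388 i2348 d290 d2314 i660 i337 i336 (k4 i1725 d469 i1633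 d391 k0))))))) (by decide +kernel)
def d2768 : PP 8 4 T 0x20001000000000000000000000004000000040000000000000001000014100006000404 := rS 0x1dcdc92181422a0f5691d72cb8201012628b8549801 (k8 d2182 d2180 d2767 d2751 d2677 i1349 d430 d2726 (k8 d54 i1405 d81 d12 d5 d3 d2753 d2761 (k4 d2745 i528 d448 i1322 k0))) (by decide +kernel)
def d2769 : PP 8 4 T 0x1000000000000000000000008010000040000000000000001200000040004150540 := rS 0xa2fd2e93cc44c (k4 d2180 d2677 d420 i531 (k2 d72 i2349 (k1 d2534 k0))) (by decide +kernel)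
def d2770 : PP 8 4 T 0x1000000000000000000000000000000040000000000000001000014100006000404 := rS 0x232325055c553704048ee2e370881c5613508e4f6d12d9e4be5d40c4888040a9889801 (k8 d2182 d2180 d2677 d2767 d430 i228 d660 d46 (k8 i531 i643 d2569 d147 i651 d647 i235 i2186 (k8 i2107 i2230 i520 i523 d2251 d2751 i393 i1349 (k8 d2726 i1446 d3 d2769 d2753 d2768 d461 d103 k0)))) (by decide +kernel)
def d2771 : PP 8 4 T 0x1000000000000000000000000000000040000000000000001000014100006000004 := rS 0x1866da7276328c4b2c16eb328bf4145f2984c885d2796d9eaf311acd31762b1c22474fb442a0432c109801 (k8 d2182 d2180 d2726 d47 d430 d2767 i651 d2652 (k8 d81 i523 d1864 d1850 d2751 d431 d366 d2677 (k8 i539 d602 d147 d420 i531 i228 i2107 i2358 (k8 i643 d2770 d388 i2348 i659 d290 d2314 i1354 (k4 i1355 d405 i1819 d397 (k2 d389 d433 (k1 d1842 k0))))))) (by decide +kernel)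
def d2772 : PP 8 4 T 0x20001000000000000000000000004000000040000000000000001000014100004000004 := rS 0x881f0eafc11ad5a692181ac1ead5cb2d1e598bb158e47820fc1211039dcae5109a9c722f024568ab20a82c84160c9889801 (k8 d2182 d2180 d2677 d2771 d427 i707 i2357 d2767 (k8 d2710 d355 d3 d430 i315 d364 d2744 i266 (k8 i2333 d1829 i712 i520 i523 i1349 d1076 d2726 (k8 d81 d1864 d1850 d2751 d92 i874 d54 i1405 (k8 d12 d5 d366 d2761 d2745 d1841 i1369 i2953 (k4 d442 i971 d2678 d422 (k1 d67 k0))))))) (by decide +kernel)
def d2773 : PP 8 4 T 0x20001000000000000000000000000000000040000000000000001000014100004000004 := rS 0xc318a50ccaa5ed154eb21cc559ecb1d8dd8ac70891d3ed10a996082f059082c1931010024c (k8 d2180 d2182 d430 d2677 d2771 d427 i707 i2357 (k8 i315 d2726 d47 d2767 i651 d2652 d81 i523 (k8 d1864 d1850 d2251 i393 d54 d602 d3 d364 (k8 d2710 d2744 d355 i1413 d2772 i537 i538 d1820 (k2 d664 d2721 k0))))) (by decide +kernel)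
def d2774 : PP 8 4 T 0x1000000000000000000000000000000040000000000000001000014100004000004 := rS 0x19a6da72150e5f4ec4919192b9e484160c97522cf359a4aa598b9ecb6624fb442a0432c109801 (k8 d2182 d2180 d2726 d47 d430 d2767 i651 d2652 (k8 d2677 d147 d647 d2751 d92 d474 d431 d366 (k8 d602 i915 i531 d2771 d427 i707 d1043 d1829 (k8 d2773 d461 d409 i1819 d10 d51 d53 d397 (k2 d389 d73 (k1 i2039 k0)))))) (by decide +kernel)
def d2775 : PP 8 4 T 0x1000000000000000000000000000000040000000000000001000014000004000004 := rS 0x2169e6c098e586748c33569132f204feb7861f4f26f2895c4a164b90832731e914a6ab4cac52606388b13e7b63b146ed10ac5c22042ea462a4f2da6cd6ad329548eb9659891e59821308201 (k8 d2182 d2181 d2180 d2726 d92 i874 d2677 d54 (k8 i1405 d81 d474 d47 d12 d366 i1446 d147 (k8 d420 d3 i915 i531 d430 i523 d2751 d2767 (k8 i651 d2251 d1850 d1864 d647 d2652 d2774 d70 (k8 i1237 i1242 i2827 i980 d1845 i2336 i2345 d1361 (k8 i836 i228 d434 i1243 d427 d1828 d1829 i2333 (k8 d613 d1043 d107 d383 d648 d353 d465 d2383 (k8 d2454 i2037 i890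 d409 d1148 d2746 d364 i266 (k4 d1842 d389 i1603 d667 k0))))))))) (by decide +kernel)
def d2776 : PP 8 4 T 0x8001000000000000000000000000000000040000000000000001000014000004000000 := rS 0x10c3f3f56a2366979ca756131c4ec53eaac2293339dd3b152796d9e6b56b2caa472c8c472372e8b42a252b9bd3ed11d99608732994484450c05c160230988824c (k8 d2180 d2181 d2677 i74 d2775 i303 d453 d427 (k8 d101 d434 d1150 d548 i836 d2726 d47 d2601 (k8 i1160 d2652 d613 d1829 d1178 i379 d2628 i531 (k8 d2616 i195 d1819 d92 d81 d474 d54 d12 (k8 d366 d602 d147 d420 d3 d452 d78 d86 (k8 d480 d2659 i537 d107 d1850 d1126 d1864 i2035 (k8 d1688 d470 d2662 i890 i251 d1189 d2678 i2037 (k2 d399 d353 k0)))))))) (by decide +kernel)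
def d2777 : PP 8 4 T 0x20001000000000000000000000000000000040000000000000001000014000004000000 := rS 0x8b193acf311ac8e591c8dcba154fb4476658231586e48b8c4044c (k8 d2180 d2775 d1819 d2776 d468 d470 d75 d2726 (k8 d47 d2601 i1160 d2652 i379 i531 d2616 i195 (k8 d92 d81 d366 d2677 d602 d362 d2721 d2659 (k1 d1864 k0)))) (by decide +kernel)
def d2778 : PP 8 4 T 0x1000000000000000000000000000000040000000000000001000014000004000000 := rS 0x31d3af04646586c57245d3ed11b8ec7231011a4cb042eb3cc44c (k8 d2180 d2677 d602 i531 d2726 d47 d431 d2775 (k8 d1819 i195 d2601 d2616 i1160 d2652 d2776 d468 (k8 d75 d470 d2777 d461 d426 i1819 d351 i2035 k0))) (by decide +kernel)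
def d2779 : PP 8 4 T 0x5001200000000000000001000004000000000000000000000001000011100006000520 := rS 0xa21781c8ead (k4 d12 i2106 i520 i315 (k2 d1834 d1639 k0)) (by decide +kernel)
def d2780 : PP 8 4 T 0x1000000000000000000000000000000000000000008000001000018100006000004 := rS 0xf90c28bf414cb56c10ab112caaca6c9111d92a47224549f171895cea0404b049801 (k8 d2182 d2180 i1614 i1349 d430 d460 i530 i69 (k8 d379 d420 d3 i228 i2106 d982 i233 i232 (k8 i2411 i2358 i538 i806 d401 i1537 d438 d12 (k4 d54 d2779 d388 i2348 (k2 d399 d2695 (k1 d394 k0)))))) (by decide +kernel)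
def d2781 : PP 8 4 T 0x5001000000000000000001010014100000000000000080000001400000400004004540 := rS 0x28d9695 (k4 i1673 i546 d599 d1835 k0) (by decide +kernel)
def d2782 : PP 8 4 T 0x1100000000000000000000004004000044005404000000001480008500004204140 := rS 0x1cc7a1d29b48e2996522570ad331951c8562a95c91567a6e2e756082cc42635a752f1889979224c (k8 d2180 i915 i635 d10 d409 d405 d362 i2420 (k8 i636 d2677 i2357 i1614 d460 d379 i1446 d602 (k8 d3 d1836 d60 d75 i1771 d826 d443 i875 (k8 i1353 d2781 i1403 i1405 d344 i1408 d417 i2369 (k4 d42 d88 i836 d2441 k0))))) (by decide +kernel)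
def d2783 : PP 8 4 T 0x1000000000000000000000000005000440004000000000001000008008105000000 := rS 0x47173a9dc2c87 (k4 i737 d427 i711 d460 (k2 d379 d1612 (k1 d2762 k0))) (by decide +kernel)
def d2784 : PP 8 4 T 0x1100000000000000000000000000000040000000000000001000008100005200004 := rS 0x2ac8e5832a390e77108240e55378981ec91782d3e394ec62265e3c974f6d121058085b312449801 (k8 d2182 d2180 i915 d2677 d147 d430 d427 i707 (k8 i2434 d647 i531 d1043 i635 d10 d409 d362 (k8 i293 i1712 i2357 i315 i2410 i285 i636 i968 (k8 i2464 i520 i1349 d2418 i711 i737 d2783 d443 (k4 i874 i265 i2360 d2782 k0))))) (by decide +kernel)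
def d2785 : PP 8 4 T 0x5001000000000000000000010000080000000000800000000001000000400204800000 := rS 0x1c0fc94 (k4 d599 i1649 i1676 i2467 k0) (by decide +kernel)
def d2786 : PP 8 4 T 0x1000000000000000000000000000000040000000000000001000010100004200004 := rS 0x2a92aa33b0814a8f5c9648ecb56c113b184fc4c5e0f1c9ec4c5e05b25a2792105832c10397523152dc5c6404049889801 (k8 d2182 d2180 d2677 i1349 d430 d2778 d379 d147 (k8 d3 i915 i531 i520 i1614 d2780 d427 i707 (k8 d1043 i2434 i2410 i2357 i635 i636 d647 i293 (k8 i285 i315 d10 i1712 d409 d362 d2784 d12 (k8 d54 d81 d92 i1405 i874 i289 d2783 i1611 (k4 d2785 i1671 d1835 i538 k0)))))) (by decide +kernel)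
def d2787 : PP 8 4 T 0x1000000000000000000000000000000040000000000000001000010000004200004 := rS 0x3d898bc6f688588419539141606178b0b662021049801 (k8 d2182 d2180 d2181 d430 d2677 d147 d2786 i15 (k8 i1237 i534 i2345 i330 i228 d434 d427 i2434 (k4 d613 i635 i636 d647 (k1 d2719 k0)))) (by decide +kernel)
def d2788 : PP 8 4 T 0x20001100000000000000000000000000000040000000040000001400010000004800004 := rS 0x349ad0c5e429b4b26447a462ec36795ceac53db44b6623c974ee2107b2484322aa753ec77804c7215088109801 (k8 d2182 d2180 d430 i523 d2787 d364 i266 d371 (k8 d351 d11 d362 i2464 d2778 i707 i2410 i285 (k8 d2418 i711 i531 d1043 d2677 d147 i651 d647 (k8 d1850 d460 i530 d602 i291 d379 i915 i875 (k8 d354 d652 i1699 d1014 d2613 d826 i629 i1563 (k1 d1837 k0)))))) (by decide +kernel)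
def d2789 : PP 8 4 T 0x20001100000000000000000000004000000040000000000000001400010100004000004 := rS 0x5699a2a618b8240ec107b245e0b2105832a55ca5c6e1508810729b310c8024c (k8 d2180 d2182 d2778 d2677 i1446 d364 d430 i523 (k8 d2787 d2251 d405 d650 i289 d2780 d427 i707 (k8 i2357 i315 i2410 i285 i1614 i520 i1349 d379 (k4 i74 d3 d2788 i1622 (k1 d2781 k0))))) (by decide +kernel)
def d2790 : PP 8 4 T 0x20001100000000000000000000004000000040000000000000001000010100004000004 := rS 0xb223479908c398b9d42a771083d9242021542c19191889801 (k8 d2182 d2180 d2677 d2778 d2780 d427 i2464 d430 (k8 i707 i2410 i285 d2418 i711 d2787 d460 d379 (k4 d364 d2789 i265 d443 (k2 d1612 d652 (k1 d2426 k0))))) (by decide +kernel)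
def d2791 : PP 8 4 T 0x1100000000000000000000004010000045000404000400001480008551104114140 := rS 0xe70d29b48e2ca44ae15a6632a3a22a563b90bb158b9d586cf6289cb63f6082cc44c (k8 d2180 d2677 i2357 i1614 d1076 d147 d1126 d1850 (k8 d602 i291 d460 d379 d3 i531 d1836 d1864 (k8 d60 d505 d422 d443 i875 i1353 d2781 i1403 (k4 i1405 i1408 d417 i2369 (k2 d1682 i836 (k1 d383 k0)))))) (by decide +kernel)
def d2792 : PP 8 4 T 0x1100000000000000000000004000000040000000000000001000010100004000004 := rS 0x24c67888d9a8f321190a872f8a6251948c5ceac3678258a27089eda2152d81c56a13c974de25188bc16771083d9242021542c19191889801 (k8 d2182 d2180 d2677 d2778 d2780 d427 i2464 d430 (k8 i707 i2410 i285 d2418 i711 i2357 i315 i69 (k8 i861 i968 i531 d1043 i2574 i2610 i520 d147 (k8 d2787 i651 d647 i523 d1126 d1850 i1349 d602 (k8 i291 d460 d379 i915 d2790 d409 d386 d10 (k8 d51 d53 d2791 i265 d443 d1107 d1612 d910 (k2 i2032 d371 (k1 i2147 k0)))))))) (by decide +kernel)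
def d2793 : PP 8 4 T 0x1000000000000000000000008000000000000000008000001000008000004000540 := rS 0x5134928fd (k4 d72 i538 d442 i1671 (k1 d375 k0)) (by decide +kernel)
def d2794 : PP 8 4 T 0x1000000000000000000000000000000040000000000000001000010100004000004 := rS 0x203b3f0fad3512d54a8f5c9648ecb56c11562f0782ca2c9212842c196081e2b172b9d46404049889801 (k8 d2182 d2180 d2677 i1349 d430 d2778 d460 i530 (k8 d379 d3 i520 i1614 d2780 d427 i2574 i707 (k8 i2410 i2333 i2357 i285 i315 d2793 d2792 d12 (k8 d54 d81 d92 i1405 i874 i289 d1148 d1835 (k4 d375 i1594 d442 d2678 (k2 i711 d2785 k0)))))) (by decide +kernel)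
def d2795 : PP 8 4 T 0x1100000000000000000000000000000040000000000000001400010000004000004 := rS 0x5ab3284583624d966935b04cce427c5d86cf2b9d58aad55944aa0f649fd2a31191f504818627572c77804c731889ade2a713994d366f2125c7ab14c8dcf2160c9140c2c2e9eda25b312442a11020049841 (k8 d2181 d2180 d2182 d430 i523 d2787 i915 d2677 (k8 d147 i651 d647 i531 d2794 i1237 i2345 i228 (k8 d427 d1043 d2251 i980 i2827 d1361 i1243 d434 (k8 d613 i1446 i2336 i836 d70 d3 d648 d2454 (k8 d409 d364 i266 d371 d351 d650 d362 d383 (k8 d465 i2045 d394 d2778 i69 i978 d2038 i2410 (k8 i285 i2464 i2333 d1845 i2826 d1850 d460 i530 (k8 d602 i291 d379 d420 d1836 d2788 d382 i547 (k8 i1623 i546 i1241 d1837 d2310 d391 i670 d55 (k1 i894 k0)))))))))) (by decide +kernel)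
def d2796 : PP 8 4 T 0x1100000000000000000000000000000040000000000000001000010000004000004 := rS 0xb549a3cc8463b8862e7556a54625507b24647d862e4731889ade2a713994cde424c9e42c1922818ba7b6896d22374b8f5621508810589b310049841 (k8 d2181 d2180 d2182 d2677 i1446 d2794 d430 i523 (k8 d2787 i2827 d1361 i1243 d2251 i915 d147 i651 (k8 d647 i531 i1237 i2345 i228 d427 d1043 i980 (k8 d434 d613 i2336 i836 d70 d3 d648 d2454 (k8 d409 d364 d650 d383 d394 d2778 i2410 i285 (k8 i2464 i69 i978 i2826 d460 d379 d2418 i711 (k4 d2795 i265 d443 i1549 (k2 d1148 d205 k0)))))))) (by decide +kernel)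
def d2797 : PP 8 4 T 0x1000000000000000000000000000000040000000000000001000010000004000004 := rS 0x23d685965c1172398c1f6270c5b9e4aa6f288592e420c9cc7a4529a652ab156818e22c3d8dda21508810ba918a96d36628b8c4ae75191308201 (k8 d2182 d2181 d2180 d2778 d460 i530 i69 d379 (k8 d2677 i1446 d147 d3 i915 i531 d430 i523 (k8 d2787 i651 d2251 d647 d2794 d70 i1237 i2826 (k8 i2827 i978 i980 i2336 i2345 d1361 i836 i228 (k8 d434 i1243 d427 i2333 d613 i2464 d1043 d648 (k8 d383 d2454 d394 d409 d364 d650 d2796 d54 (k4 d92 d1056 i874 d1148 k0))))))) (by decide +kernel)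
def d2798 : PP 8 4 T 0x1000000000000000000000000000000040000000000000001000010000004000000 := rS 0x2c23e0a420c118cc450b8086441 (k8 d2181 d2778 d2797 d453 d101 i193 i192 d427 (k4 d434 d81 i1130 d1798 (k1 i544 k0))) (by decide +kernel)
def d2799 : PP 8 4 T 0x1000000000000000000000000000000040000000000000001000000000004200004 := rS 0x2f9e07a986929c5e89059b8a0cb5ca5e30f18aa6c76ad4aaac56531b975427b1681c72132d989a2b53ec40ae250c05caa652c910866611c141c041a1300241 (k8 d2181 d2182 d2180 d2798 d430 i354 d5 i2125 (k8 i355 i2365 d434 i604 i1022 i792 i707 d427 (k8 i2209 i502 d438 d67 d349 i2435 d2677 d147 (k8 i227 d504 i2345 i1237 d647 i2186 i531 d2349 (k8 i2358 i386 i2359 i1673 i1353 i393 i1446 d3 (k8 d35 d426 d405 d650 i546 d1056 i528 i2348 (k8 d95 i1054 i330 d417 d502 d88 i1059 d2585 (k1 d2569 k0)))))))) (by decide +kernel)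
def d2800 : PP 8 4 T 0x1000000000000000000000000000000040000000000000001000000000004000004 := rS 0x2328c4e140d081438a4f283890f4be6d1f89c2a856695cea731c8b4f68f50894b2372984c560768860881721c14d65511838cc111d99412042ec549e5b4d98a2e331a1308201 (k8 d2182 d2181 d2180 d2798 i113 d44 d2677 i1446 (k8 d147 d420 d3 i531 d430 i1349 i1022 i393 (k8 i523 i355 i354 i2125 i792 i547 d5 i2365 (k8 i707 d434 d427 i2435 i2345 i386 i227 i2358 (k8 d2349 i604 i2209 i2186 d595 d647 i1237 d504 (k8 i836 i1062 i502 d1107 d1014 d2799 d1126 d1076 (k8 i667 i643 d1889 d660 d1355 d2569 d2571 d1853 (k4 d46 i2039 d120 i1623 (k2 i1624 d362 (k1 d103 k0)))))))))) (by decide +kernel)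
def d2801 : PP 8 4 T 0x1000000000000000000000004000000040000400000000001000000000004000000 := rS 0x86bf4fc7d8813d5a552b94ca2422282cc2b55cb2cc48f2cc1067173a8943017010d0824c (k8 d2180 d2181 d2798 d2800 d453 d427 d1178 i1062 (k8 d44 i113 d2670 d92 i874 d2677 d54 i1405 (k8 d1148 i74 i303 d101 d434 d1150 d548 d1829 (k8 d474 d12 d420 d422 d67 i2037 d2678 d353 (k1 d399 k0))))) (by decide +kernel)
def d2802 : PP 8 4 T 0x1000000000000000000000000000000040000800000000001000000000004000000 := rS 0x4a3f0faad2a95d426f5aae5968f2cc1067173a89468732994484450c05c1602309889841 (k8 d2181 d2180 d2677 i74 d2800 i303 d453 d427 (k8 d101 d434 d1150 d548 i836 d2798 d1178 i1062 (k8 d44 i113 d2670 d92 i874 d54 i1405 d1148 (k8 d613 i311 d1829 d474 d12 i1630 d2695 d112 (k1 d2671 k0))))) (by decide +kernel)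
def d2803 : PP 8 4 T 0x1000000000000000000000000000000040000000000000001000000000004000000 := rS 0x66551dc22cd3aa3cf6252c91cd615689083104058ec8a17010ce2ee51a16cc315311749841 (k8 d2181 d2180 i531 d2677 d3 i74 d147 d2798 (k8 d15 d44 i113 d2800 d453 d101 d2601 i303 (k8 d2670 d427 d434 i1160 i379 d366 d81 d92 (k8 d1178 d647 i874 i1062 d1107 d2675 d2802 d2801 (k2 i537 d1138 k0))))) (by decide +kernel)
def d2804 : PP 8 4 T 0x1000000000000000000000000000000200000000000000001000000000004000000 := rS 0x8a (k2 d2803 i76 k0) (by decide +kernel)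
def d2805 : PP 8 4 T 0x1000000000000000000000000000000000000000000080001000000000004000000 := rS 0x8a (k2 d2803 d441 k0) (by decide +kernel)
def d2806 : PP 8 4 T 0x20001000000000000000000000000000000000000000000000001000000000004000000 := rS 0x8a (k2 d2803 d52 k0) (by decide +kernel)
def d2807 : PP 8 4 T 0x1000000000000020000000000000000000000000000000001000000000004000000 := rS 0x8a (k2 d2803 i145 k0) (by decide +kernel)
def d2808 : PP 8 4 T 0x9001101000000000000400000015000000000000000004000001000011500004000100 := rS 0x52a252b42300cd8293 (k8 d480 d1331 d379 d450 d436 i1019 i1277 d421 (k1 d2370 k0)) (by decide +kernel)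
def d2809 : PP 8 4 T 0x9001100000001000000480000015000000000000000004510001000010500006000100 := rS 0x522f52ad25b1b912af2993df87328acc66b911ad4fa313aac4d4cd88154ee694ea1624873695ccec14996c988a (k8 d2803 d2180 d2805 d480 d1331 d86 i529 i555 (k8 d1853 d418 d53 d452 i1887 d78 i791 d438 (k8 d454 i2039 i1967 d400 i1041 d67 d349 d401 (k8 d43 d379 i553 i527 i837 d2808 d395 d412 (k8 d347 d1249 d2581 d2314 d417 i1057 i1988 d253 (k1 i415 k0)))))) (by decide +kernel)
def d2810 : PP 8 4 T 0x9001100000001000000080000015000000000000000004510001000010500006000100 := rS 0x2f68ab65fabc9e53a1b2976a328ace9eb13533620553b9a53a858921cda573396c988a (k8 d2803 d2180 d2805 d86 i529 i555 d1853 d418 (k8 d53 d452 i1887 d78 i791 d438 d454 i2039 (k8 i1967 d429 i553 i527 d1639 i1679 d2809 d98 (k8 i621 i1390 i626 i1453 d2314 d424 i1988 d87 k0)))) (by decide +kernel)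
def d2811 : PP 8 4 T 0xa001100000000000000000000004000000000000000000000801240011400006008000 := rS 0x1480a19954ee5733a55124c (k8 d2180 d83 d350 d86 i529 d78 i791 d379 (k2 i564 d2381 (k1 i362 k0))) (by decide +kernel)
def d2812 : PP 8 4 T 0x8001100000000000000080000014000000000000000004110001000010100006008004 := rS 0x14ac15ea8c7ab605abdf85327c3512714ac516213549cca2b3178cd1eb94982542430b84502b53e8c4ea6a66c40aa7734a750b124397c88043695ccee52616d1401 (k8 d2182 d2803 d2805 d2180 d37 d86 i529 i555 (k8 d430 i228 i2375 d1853 d418 d53 d452 i1887 (k8 d78 i791 d438 d454 i2039 d400 i1041 d67 (k8 d349 d46 i2347 i8 i518 i2186 i2105 d480 (k8 d43 d380 d379 i316 i553 i527 i837 d989 (k8 i1882 i1967 d2810 d350 d361 d83 d205 i789 (k8 d2811 d399 d347 d388 d341 d718 i322 i1988 (k2 i1694 i415 (k1 d678 k0))))))))) (by decide +kernel)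
def d2813 : PP 8 4 T 0x9001001000000000000000000001100010000000000004000001000011500004000100 := rS 0x220c033 (k4 d379 d450 d2156 i1277 k0) (by decide +kernel)
def d2814 : PP 8 4 T 0x8001100000000000000000000004000000000000000004010001000010100006200004 := rS 0x21a4f299c628a54abf558c6071a862cd3ead4eb10549cca22f47ae526694e954ee570490c2e873699d0b122e97c88042616d1401 (k8 d2182 d2803 d2805 d2180 d430 i228 i2375 i2354 (k8 d418 d53 d86 i555 d1853 i8 i518 i2105 (k8 i529 d78 i791 d452 i1887 d480 d43 d380 (k8 i316 i527 i837 d989 d438 d400 d349 d67 (k8 d454 i1041 i2039 i627 i628 d2812 d360 i1558 (k4 i1285 d2813 d361 d2811 (k2 i789 d205 (k1 d399 k0)))))))) (by decide +kernel)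
def d2815 : PP 8 4 T 0x1001000000000000000000004001000000000000000005500041000000000004000000 := rS 0x2bca6fc5894566818916d144c (k8 d2180 d2803 d2805 d418 d46 i553 i527 i1886 (k4 d450 d412 d347 d341 k0)) (by decide +kernel)
def d2816 : PP 8 4 T 0x9001100000000000000000000015000000000000000006000001000011500004000100 := rS 0x32dfab9 (k4 d43 d396 i1391 d2808 k0) (by decide +kernel)
def d2817 : PP 8 4 T 0x9001100000000000000000000015000000000000000004400041000010500806200100 := rS 0xa44aad5a46e449c52f0d5b184fea3609cd32335ca4cba3a1885d144c (k8 d2180 d2803 i8 i1572 i550 i2354 d480 d43 (k8 d379 i1939 i837 d1331 d1639 i1663 d2816 d2815 (k8 d352 i1902 i802 i397 d383 d417 i1399 i1058 (k2 d253 i249 k0)))) (by decide +kernel)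
def d2818 : PP 8 4 T 0x8001000001001000000014008000440010010040000000000001000001500804000000 := rS 0x29ccc63ad148c10eaf466b9 (k8 d43 d379 i1989 i722 i1574 d678 i249 i415 (k2 i886 d435 (k1 d73 k0))) (by decide +kernel)
def d2819 : PP 8 4 T 0x8001100000000000000400000514000010010040000000400541000011500804208000 := rS 0xc152d087c0a7eab96ea319a4de2a7619b4ce8172b150b122e96c988a (k8 d2803 d2180 d2805 i2354 d418 d53 i1575 d37 (k8 d46 d86 i555 i370 i331 d35 d480 d379 (k8 i323 d2818 d341 d347 i587 i588 d436 i362 (k2 i1426 d2370 k0)))) (by decide +kernel)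
def d2820 : PP 8 4 T 0x8001002000000000000000000500000010010040000000400541000001500804208000 := rS 0x146b605abde2a7619b4ce8172b150b122e96c988a (k8 d2803 d2180 d2805 i2354 d418 d53 i1575 d37 (k8 d46 d86 i555 i370 i331 d35 d347 d388 (k2 d341 i322 (k1 d2818 k0)))) (by decide +kernel)
def d2821 : PP 8 4 T 0x8001100000000000000000000015000000000000000004020001240010500006200140 := rS 0xa21f2955c1f5bc31fac1651fd625344a5d2b142794566335ca06245d2f83862220b96d144c (k8 d2180 d2803 d2805 i8 i604 i1572 i603 i2375 (k8 i2354 d418 d46 d43 d379 i553 i527 i871 (k8 d2817 d350 d407 d83 d2811 i1885 i844 d2819 (k8 i1245 d2820 d399 d352 d476 d341 i248 i588 (k2 d678 i2235 k0))))) (by decide +kernel)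
def d2822 : PP 8 4 T 0x8001100000000000000000000004000000000000000004000001000010100006200004 := rS 0x1f218c02794d12718a29546957eab06222071615207288bd72471982488430b8109801 (k8 d2182 d2180 d430 i8 i518 i228 i2105 d379 (k8 i264 d43 i316 i527 i520 d989 d2814 i603 (k8 i604 i1572 d2821 d360 i1558 i1553 i1285 d2813 (k8 d361 d83 d2811 i789 d678 d399 i1573 d394 k0)))) (by decide +kernel)
def d2823 : PP 8 4 T 0x8001100000000000000000000000000000000000000004000001000010100006200004 := rS 0x19a5935aa90a8789174d29d2a9dcae6d3397c88042d9311401 (k8 d2182 d2803 d2180 d2805 d430 i228 i2375 d86 (k8 i555 i529 d78 i791 d452 i1887 i2354 d418 (k4 d1853 d53 d2822 i2394 (k2 i2391 d1015 (k1 i2039 k0))))) (by decide +kernel)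
def d2824 : PP 8 4 T 0x9001100000000000000000000014000000000000000004000001000011100006000004 := rS 0x112d35302d5efc5898426a903acc5e091e8542244022289801 (k8 d2182 d2180 d2803 d430 i228 i2347 d2823 d1889 (k8 i2105 i316 i553 i520 d989 i1882 d2816 i1886 (k4 d450 d347 d388 d533 (k2 d359 i2109 (k1 d417 k0))))) (by decide +kernel)
def d2825 : PP 8 4 T 0xa011100000000000000000000404010000000000000000110101640010440006140140 := rS 0x69ad94c0b57bf0a60e352050e29891a53a6d2f8f58a1142b34627588154ee5733ac52e4f3896c988a (k8 d2803 d2180 d2805 d361 i789 d407 i1885 d86 (k8 i529 d78 i791 d438 d400 i1041 d454 d387 (k8 i2347 d1850 d1889 i2375 i555 d452 i1887 d418 (k8 d2571 d1853 d46 i2039 d1825 d2811 d399 d347 (k4 d388 d533 d341 d359 (k1 d1218 k0)))))) (by decide +kernel)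
def d2826 : PP 8 4 T 0xa001100000000000000000000404010000000000040000010101640410540006140140 := rS 0xca60295a6a35302d5efc29839cac24f8e4f1132e13d630d449c52e9519b3d1e9d5ca4cda371eb1d8a115a9f4627588154ee5733930b68a (k8 d2803 d2805 d2180 d86 i529 d78 i791 d438 (k8 d400 i1041 d67 d349 i2347 d1850 d1864 d1889 (k8 d2251 i555 d480 d43 d452 d380 d385 d379 (k8 d350 d407 d361 d83 d205 i1885 i789 d2825 (k8 d368 i532 d659 i1075 i2035 d470 d1836 d2811 (k8 d399 d347 d388 d533 i322 d359 d2526 d678 (k2 d2405 i1245 k0))))))) (by decide +kernel)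
def d2827 : PP 8 4 T 0x8001100000000000000000000004000000000000000004010001000010100006000004 := rS 0xa54abf55915189d620135481ce651598bc8e332a9dcae670491056a12185c761502004988a (k8 d2803 d2180 d2182 d430 d2823 i392 i8 i518 (k8 i2186 i2230 i228 i2105 d86 i529 d78 i791 (k8 d379 i264 i316 i553 i527 i837 i520 d989 (k8 i1882 d438 d400 i1041 d2826 d2824 d360 i1558 (k2 i1285 d2813 k0))))) (by decide +kernel)
def d2828 : PP 8 4 T 0x8001000000000000000050000000000000004000000000200001200451000804000000 := rS 0xc34f8e59a78898cd9e9d2b99c985b (k8 d2805 d2180 d86 i529 d452 d385 d379 d368 (k4 i532 i1971 d659 i1076 (k2 i251 i2035 k0))) (by decide +kernel)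
def d2829 : PP 8 4 T 0x1002000000000000000000100010000000000000004500441001000000004150140 := rS 0x10d69ad94c0b5794566818916d144c (k8 d2180 d2803 d2805 d418 d46 i553 i527 d347 (k4 d388 d533 d341 d359 (k2 d352 d1218 k0))) (by decide +kernel)
def d2830 : PP 8 4 T 0x8001100000000000000000000014000000000000000004000001000010100006000004 := rS 0xa360b2cfaa55743014fda2aeca6894ba5563142781d3251598bd720915a84863d1f9aa9e9e618e4525d1885d0e226284cbe3b1bb3d8e11238ccd29d0716088040a805144c (k8 d2180 d2803 d2182 d2823 d430 i228 d2827 i603 (k8 d452 i1887 d379 i264 i2347 d1864 d385 d2251 (k8 i392 i2375 i1882 d1850 i604 i929 i8 i1572 (k8 d2828 d2571 i234 i250 i2035 d89 d122 d1887 (k8 d1889 i518 i2186 i2230 i2105 d43 i316 i553 (k8 i527 i1939 i520 i871 d2824 i1967 d350 d407 (k8 d83 d2811 i1685 d1926 d2829 d2534 d399 d414 (k4 i362 d394 i626 i1573 (k2 i323 d678 k0))))))))) (by decide +kernel)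
def d2831 : PP 8 4 T 0x8001100000000000000000000004000000000000000004000001000010100006000004 := rS 0xf90c6013ca68938c514aa34abf5583111038b0a9288bd72471982488430b8109801 (k8 d2182 d2180 d430 i8 i518 i228 i2105 d379 (k8 i264 d43 i316 i527 d989 d2827 i603 i604 (k8 i1572 d2830 d360 i1558 i1553 i1285 d2813 d361 (k4 d83 d2811 i789 d678 (k2 d399 i1573 (k1 d394 k0)))))) (by decide +kernel)
def d2832 : PP 8 4 T 0x1001100000000000000000001009010000000010000004001001600000501406000100 := rS 0x7cfe4e86a95c8210794c161d69224c0a328bf5824c (k8 d2180 d1831 d72 i527 d1639 d450 i1277 d417 (k8 d42 d462 i564 i579 d2418 d1836 d60 d338 (k4 d399 i2547 i1269 i2030 k0))) (by decide +kernel)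
def d2833 : PP 8 4 T 0xa001000000000000001000000008400000000000000000510001005440500006040000 := rS 0x134bc1c9a90e295c954ee573699d2e654a96d144c (k8 d2180 d2803 d2805 d350 i1659 d407 d86 i555 (k8 i529 d78 i791 d43 d2571 d1853 d1170 i234 (k2 i586 d1330 (k1 i1417 k0)))) (by decide +kernel)
def d2834 : PP 8 4 T 0x8001100000000000000000000000000000000000000004000001000010100006000004 := rS 0x2687278899714e0e5228d061e0e9489f0d32a24e2974ac5062cd5a88ceb102c9f582fd550fc7a371d854be1121a844a440485c26a9039cd325117a3d72c94991c66042a9dcae672616d1401 (k8 d2182 d2803 d2805 d2180 d86 i529 d78 i791 (k8 d430 d379 i264 d480 d61 d43 d380 i316 (k8 i527 i1939 i837 i520 d989 i1882 i8 i2105 (k8 i228 i2209 i2186 i518 i2347 i2375 d2823 i392 (k8 d2251 d1889 d1887 d2831 d72 d1831 i1595 i2391 (k8 d438 d400 d401 d349 d454 i1041 d2832 d350 (k8 d407 d361 d83 i1659 d205 i789 d399 i715 (k8 i565 i921 i240 d678 d1774 d2532 d2833 d368 (k4 i532 d659 d673 i1074 k0))))))))) (by decide +kernel)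
def d2835 : PP 8 4 T 0x1000000000000000014000000000000000000001100810001400000000004104004 := rS 0x31cd6110204d1401 (k8 d2182 d2803 i1882 d430 i2342 i629 d1864 d1837 k0) (by decide +kernel)
def d2836 : PP 8 4 T 0x8001100000000000000000000000000000000000000000010001080000040004000004 := rS 0x9f3d8d8206a14c490e912fb0d8a3166b910b100784d1e47199a53a553b95cda670a9e4ba042d9311401 (k8 d2182 d2803 d2180 d2805 d430 i2335 i1853 i2374 (k8 d86 i555 i529 d78 i791 d452 i1887 d379 (k8 i264 d380 i1882 i595 d438 d1014 d1836 d454 (k8 d39 d75 d470 d2835 i914 d1017 d418 d2571 (k4 i2039 d1825 i524 d464 (k2 i996 d2505 k0)))))) (by decide +kernel)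
def d2837 : PP 8 4 T 0x1001000000000000000000000000800100000000000000000001000000500004000000 := rS 0x112d3 (k2 d359 i283 (k1 d417 k0)) (by decide +kernel)
def d2838 : PP 8 4 T 0x1001002000000000000000000000400000000000004004100041000000000004100444 := rS 0x7b5b0d8be1057ac4126109aa4087359a289801 (k8 d2182 d2180 d2803 i553 i837 d430 d989 i1882 (k8 d396 d413 d455 d347 d1011 i2342 i524 d2815 (k2 d464 d648 k0))) (by decide +kernel)
def d2839 : PP 8 4 T 0x1001100000000000000000010004000004400000400004000001000000100005000004 := rS 0x15b435a1fce2cb4a981faa73e82d520739a645e4f379d48a5d020548416262280241 (k8 d2181 d2182 d2803 d2180 d427 i707 i2374 d430 (k8 i2335 i526 d1846 i968 i2463 i316 i1939 i837 (k8 i520 d989 d1052 d107 d2837 d2838 d450 i1019 (k4 i1391 i1279 d2038 i2044 (k2 d55 i1287 (k1 d436 k0)))))) (by decide +kernel)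
def d2840 : PP 8 4 T 0x2001000000000000000000010000100004400040544000000001180000001044008000 := rS 0x1f56a2011b952a71 (k8 d361 d350 d37 i244 i596 d1261 i1502 i2044 k0) (by decide +kernel)
def d2841 : PP 8 4 T 0x8001102000000000000000000004000000000000000004800001000010100004000004 := rS 0x21968bd3528986317203c3ea5533158eb70884c0e7359b248e3334a74da6737894ea450aa54e2b14b8251314499dd728f022b4c2af059fca658210ac2c19260051441 (k8 d2181 d2803 d2182 d2180 d2834 d427 i2610 i707 (k8 d2836 d412 i844 d388 d347 d396 d360 d430 (k8 d380 d43 d78 d480 d2839 d83 i262 d407 (k8 i1885 d361 d350 i2374 i526 d1846 i860 i968 (k8 d86 i555 d452 i1887 d379 i264 d61 i553 (k8 i837 i520 i1882 i2342 i852 d1864 d1850 d1011 (k8 d2526 i243 d2840 d1836 d39 d470 d2186 d1837 (k4 i1984 d235 i630 i934 k0)))))))) (by decide +kernel)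
def d2842 : PP 8 4 T 0x8001000000000000000004000000000001005001100000000001080080000004008000 := rS 0x9f66b1c408f4e854f68a (k8 d2803 d464 i2374 d452 d380 i596 i408 i730 (k2 i997 d1306 k0)) (by decide +kernel)
def d2843 : PP 8 4 T 0x8001102000000000000000000004000000000000000004000001000010100004000004 := rS 0x3ed35129462e4078754e36618407b0d42ada24874897cfe0b5794cc2ad0981ca2b317b248e335093cea450a9e4ba58210ac2c9558a5c12898a06526775ca3c085b260051441 (k8 d2181 d2803 d2182 d2180 d2805 d430 d380 d43 (k8 d78 d480 d2834 d2839 d83 i262 d407 i1885 (k8 d350 d427 i2610 i707 d2836 i2335 i1853 i2374 (k8 i526 d1846 i2463 i2574 d379 i264 d61 i316 (k8 i553 i527 i520 i1882 d360 d396 d412 d347 (k8 d388 i844 d2841 i914 d1017 d418 d2314 d53 (k8 d352 i1784 d2829 d1838 i524 i1913 i722 d2842 (k4 d1836 d39 d60 d2186 (k2 d787 i241 (k1 d479 k0)))))))))) (by decide +kernel)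
def d2844 : PP 8 4 T 0x1001000000000000000000500000000000000000000800401080000000004050140 := rS 0x14cd25782c2a8a (k4 d2803 i2374 i557 i589 (k2 d442 d1011 (k1 d359 k0))) (by decide +kernel)
def d2845 : PP 8 4 T 0x2001000000000000000000010004000004400000544000020001180000001004008800 := rS 0x3fa943ecb (k4 i2412 i236 i362 i845 (k1 d2840 k0)) (by decide +kernel)
def d2846 : PP 8 4 T 0x2001001000000000000000010004000004400000504004820001180000001004058140 := rS 0x3f32cfaae60a9da40b101cc2a9538ad4a4b14bacd144c (k8 d2180 d2803 i553 d407 i1885 d2844 i883 d361 (k8 d350 i2374 i837 i596 d2845 d442 d359 d384 (k4 d1011 i1501 i2418 i2044 (k1 i845 k0)))) (by decide +kernel)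
def d2847 : PP 8 4 T 0x1101000002000000000010004000014010000000000000001480014500004000140 := rS 0xca5682a86a269a9462c1 (k8 d382 d39 d60 d787 i2033 d2370 d442 i1553 (k2 d436 i2412 k0)) (by decide +kernel)
def d2848 : PP 8 4 T 0x2001001000000000000000010004000004400000504004820001180000001004008044 := rS 0x44260944810028a (k8 d2803 d2182 d430 d83 i262 i1882 i2342 d2846 k0) (by decide +kernel)
def d2849 : PP 8 4 T 0x1000000001000004800000500401011405001500000000001000000000404850540 := rS 0x4f2e99a7b5709c4a152116d144c (k8 d2180 d2803 d2805 i707 i2374 i860 d1126 d1011 (k4 i713 d1169 i626 i2046 (k1 i1685 k0))) (by decide +kernel)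
def d2850 : PP 8 4 T 0x8001100000000000000000000004000000000000000004000001000010100004000004 := rS 0xd9861042c490e912fb28fcb53e87582a76902c402307395fa0958a24e2974ac50260739acc5ecf4eae4ee93238ccde25479d48a792e810b04215858325b262280241 (k8 d2181 d2182 d2803 d2180 d2805 d2834 d427 i2610 (k8 i707 d2836 d430 i2335 i1853 i526 d1846 d380 (k8 i860 i968 d379 i264 d480 d78 d43 d452 (k8 d385 i316 i553 i837 i520 i1882 d2839 d350 (k8 d407 d361 d83 i1885 i262 d2843 d2847 d1836 (k8 i244 i596 d2845 d442 d359 d384 d42 i1501 (k8 i727 i2044 i845 d2848 i914 d1017 d418 d53 (k4 d2849 d1838 i524 d2842 k0)))))))) (by decide +kernel)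
def d2851 : PP 8 4 T 0x1000000000000000014000008000000000000001100800001400000000004104004 := rS 0x31cd6110204d1401 (k8 d2182 d2803 i1882 d430 i2342 i2395 d1864 d1837 k0) (by decide +kernel)
def d2852 : PP 8 4 T 0x1000000000000040014010008000041000501015104000001400000000044850000 := rS 0x4d2f16e7b3509d8e734ca842a0f2116c988a (k8 d2803 d2180 d2805 i707 i2389 i2374 i2574 i1939 (k8 i837 d1864 d1126 d1837 i713 d2253 i586 i2045 (k1 i1417 k0))) (by decide +kernel)
def d2853 : PP 8 4 T 0x8001100000000000000000000000000000000000000004000001000010100004000004 := rS 0x5b1ed4e360820624834897c38d344a5d2a1f8a30d8aa5189c61ae45a1481eaa2c1e42a5d37909422b0b064da6923a4cceb94e8cc260739a645e042d9311401 (k8 d2182 d2803 d2180 d2805 d430 i316 i1939 i837 (k8 i520 i1882 d379 d452 d43 d86 d480 i264 (k8 i1887 i555 d2834 d427 i2610 i2574 i707 i968 (k8 i2335 i2374 i1853 d2836 d2850 i2389 i581 i582 (k8 d1836 d74 i2466 d39 d60 d75 d470 d383 (k8 i1395 d350 d407 d83 d787 d479 d2851 i914 (k8 d1202 d418 d46 d2852 i524 i1913 d464 d1523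 (k1 i722 k0)))))))) (by decide +kernel)
def d2854 : PP 8 4 T 0x4001100000000000000000000000000000000000000000000001040010000004008020 := rS 0xcc3017649109841 (k8 d2181 d2180 d434 i2411 i707 d427 i285 d2685 k0) (by decide +kernel)
def d2855 : PP 8 4 T 0x5001102000000000000101000000100000000000000004410001000004100004204020 := rS 0x150d27766a75286d2b9c52eca5b02cc24f56aa4e69935a1d0b122e930b68a (k8 d2803 d2805 d2180 i2354 d418 d53 d51 i627 (k8 i1939 i837 d989 d360 d395 d396 d388 d2815 (k8 d2292 i1902 i802 i2352 i2381 d2611 i1678 d1015 (k4 i1676 i1887 i2039 i791 k0)))) (by decide +kernel)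
def d2856 : PP 8 4 T 0x5001101000000000000000010004000000000000000004000001040014100004000020 := rS 0x4e0f434fa238815cea662a9fd6a6556249967364a84a22547965822118a95c80f23a543a5305b491260548243017179109841 (k8 d2181 d2180 d434 i316 i707 d427 i2105 d989 (k8 d450 i1277 d417 d462 i564 d42 i1019 d227 (k8 d2854 d1836 d60 d39 d25 d382 i603 d595 (k8 i2209 i527 i309 i2411 i837 i1391 d775 d2761 (k8 i1550 i1369 i1638 i792 d354 i2962 i530 d438 (k4 d401 d67 d338 d2000 (k2 d399 i1269 k0))))))) (by decide +kernel)
def d2857 : PP 8 4 T 0x5001100000000000000000000004000000000000000004000001040014100004200020 := rS 0x1396ab12a25d94ada1ae16eaf2982da489303f552b317b2542510489430172cb0442a57203c8e8189174be442d9311441 (k8 d2181 d2803 d2180 d2805 d434 i2375 i2354 d418 (k8 d46 d227 d2854 d1836 d60 d25 d382 i603 (k8 i707 d427 i2209 i2105 i527 i309 i2411 i316 (k8 i553 d989 d2855 d450 i1277 d417 d462 i564 (k8 i587 d290 d2856 d99 i1290 d436 i2888 d2330 (k4 i1885 i2550 d341 i1389 k0)))))) (by decide +kernel)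
def d2858 : PP 8 4 T 0x1100000000000000000000000000000000000000000010001400008000006000000 := rS 0xab112b888ea4c (k4 d2180 d460 i232 i530 (k2 d401 i1537 (k1 d438 k0))) (by decide +kernel)
def d2859 : PP 8 4 T 0x1002000000000000000000400400000000000000000000001000000000004150140 := rS 0x2d5eb1 (k4 d455 d347 d388 d1011 k0) (by decide +kernel)
def d2860 : PP 8 4 T 0x1001100000000000000000000004000000000000000004000001040010100004000004 := rS 0x4349e235a950a6ca691f55b4344ae0c0fd0aa9c26a903a65662f648454251048951ec110a95c8332c83e2e4722010301726004828a (k8 d2803 d2181 d2182 d2180 i707 d427 d430 d434 (k8 d227 d2853 d2854 i603 d2858 d1836 d60 d25 (k8 d382 d595 i2209 i2105 i527 i309 i2347 i2411 (k8 i316 i553 i1939 i520 d989 i1882 d2837 d2857 (k8 d2859 d450 d2856 i1277 d99 i1290 i1330 d417 (k8 d436 i621 d2330 i2550 i1537 i1389 d338 d399 k0)))))) (by decide +kernel)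
def d2861 : PP 8 4 T 0x1102000000000000000000004000000000000000004000001040010100004200004 := rS 0x1451fb4c7ab65102d5e5330ab426c908a84a23152b906659238602e9549a256297279c628f153accd60f8b81103122e97c884c2da288201 (k8 d2182 d2181 d2803 d2805 d2180 d434 i2375 i2354 (k8 d418 d46 d430 d2853 d2854 i627 i553 i331 (k8 d35 d2860 d361 i789 d407 i1885 d83 d28 (k8 d350 i707 d427 d227 i603 d2858 d1836 d60 (k8 d39 i527 i309 i2347 i2411 i1882 d360 d396 (k8 d412 d347 d388 d2186 d2314 d718 d375 d2321 (k2 d424 d365 k0))))))) (by decide +kernel)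
def d2862 : PP 8 4 T 0x1001000000000000000000100000000000000000004000041200000000004200400 := rS 0x16caf29945665f2e96c988a (k8 d2803 d2180 d2805 i2354 i2375 i553 i527 i564 (k2 i587 d2314 (k1 d290 k0))) (by decide +kernel)
def d2863 : PP 8 4 T 0x1000000000000000101000020100014010000000000000001400015500004000000 := rS 0x172a3 (k2 i1553 i1290 (k1 i2033 k0)) (by decide +kernel)
def d2864 : PP 8 4 T 0x1100000000000000000000004000000000000000004000001040010100004200004 := rS 0x65029fab14bd0c9e7156a2526958a0ccb2180ba9462c17203e2e47649105e0400930828a (k8 d2803 d2181 d2180 d2182 d430 i316 d434 i2411 (k8 d227 d2853 d2854 d1836 d382 d39 d60 i707 (k8 d427 i603 d2858 d2860 d350 d28 d83 d2863 (k8 d361 i789 d2370 d407 i1885 d2861 d2862 d436 (k1 i619 k0))))) (by decide +kernel)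
def d2865 : PP 8 4 T 0x1002000002000000100000104010014010000000004400041401014100004114104 := rS 0x5dd3cd4693c1b57ebda297144a605abca6610981d66c561d0d5aa518b045e0463a289801 (k8 d2182 d2180 d2803 d1864 d430 i316 d382 d39 (k8 d60 d2863 d2370 d470 d75 i553 i520 i1882 (k8 d396 d412 d347 d388 d2859 d2186 d2829 d377 (k8 i1984 i1719 i2356 i532 i3083 d1837 d429 i1946 (k1 d87 k0))))) (by decide +kernel)
def d2866 : PP 8 4 T 0x1100000000000000000000004000000000000000004000001040010100004000004 := rS 0x394d9e226a737971a50c0594d94fd1b8fc7a3b0aab49f4358a24e2934ba562833528c582e42c83c56095097c22476486088170981d3251178122e4c2da288201 (k8 d2182 d2181 d2803 d2805 d2180 d2853 d430 i316 (k8 i527 i1939 i520 i1882 i707 d434 d427 i2411 (k8 d227 i2347 i2375 i309 i2105 i2230 d2854 i603 (k8 d1836 d382 d39 d60 d2858 d2860 d350 d407 (k8 d28 d361 d83 i1885 d2370 i789 d2863 d2864 (k8 i392 d1889 d1887 d2251 d2865 d436 i621 i619 (k8 d399 d442 d2534 d356 d359 d368 i532 i1073 (k2 d659 i2034 k0)))))))) (by decide +kernel)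
def d2867 : PP 8 4 T 0x5021101000000000000001000000110010000040110006011001080000100045004400 := rS 0x1941d51ae410d3442d44710479444a57299f4424c (k8 d2180 d2418 d394 d369 d1829 d1828 i527 i874 (k8 d438 d1612 d1114 d2625 d338 i1277 i1403 i281 (k2 i1342 d2437 (k1 i1387 k0)))) (by decide +kernel)
def d2868 : PP 8 4 T 0x1000000000000000014000000000000000000001180800001400000000004104004 := rS 0x31cd6110204d1401 (k8 d2182 d2803 i1882 d430 i2342 i2372 d1864 d1837 k0) (by decide +kernel)
def d2869 : PP 8 4 T 0x1001000000000000000000000000000000010000000004400001080000100004000004 := rS 0x1ed2e36588407ad204a8456795ba061871303f4161922a9c5e990a81d524f399bc2c91418a4265d02005144c (k8 d2180 d2803 d2182 d430 i2335 i1882 d2571 d1202 (k8 i914 i518 i968 i837 i2463 d989 i520 i2374 (k8 i1939 i316 d2837 i41 i228 d1052 d2838 d450 (k8 i1279 d383 d465 d352 i1853 i2610 i820 i262 (k8 d417 d88 d1653 i1761 i524 i1283 d464 d1523 k0))))) (by decide +kernel)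
def d2870 : PP 8 4 T 0x1000000000000000000004400400000000100000000500001000000000054910200 := rS 0x1e89c7e5b (k4 d2805 d197 d1126 i1268 (k1 d2438 k0)) (by decide +kernel)
def d2871 : PP 8 4 T 0x1001000000000000000000000000000000000000000004400001080000100004000004 := rS 0x96589ec6c100e821108348accf21f5ba061871303f4161922a9c5e990a9740ea9279ccde16022289801 (k8 d2182 d2180 d2803 d430 i518 i968 i837 i2463 (k8 d989 i520 i2335 i2374 i1939 i316 d2837 i41 (k8 i228 d1052 d2838 d450 i1279 d383 d465 d352 (k8 d2554 i1853 i553 i914 d1202 d2869 i1277 i1342 (k4 d2870 i524 d464 i3048 (k2 d1523 i1283 k0)))))) (by decide +kernel)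
def d2872 : PP 8 4 T 0x1001100000000000000000000000000010000000000004000001080014100004000004 := rS 0x6933194da8e2c30d4ac17203cee478ba84ea550f9fe1871303f4161922a9c5e992e81d524f399bc2cc5089780815451300241 (k8 d2181 d2182 d2180 d2803 i2374 d430 d2871 i2342 (k8 d1850 i518 i968 i837 i2463 d989 i520 i2335 (k8 i1939 i316 d2837 i41 i228 d1052 d2838 d450 (k8 i1279 d383 d2038 d2554 i2464 d1846 i820 d2853 (k8 i264 i712 d2477 d1836 d382 d60 d470 d2867 (k4 d652 i2380 d443 i875 (k2 i1888 d2868 k0))))))) (by decide +kernel)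
def d2873 : PP 8 4 T 0x1100000000000000000000000200000000000000000000001000000000004004020 := rS 0x8ee5 (k2 d60 i2143 (k1 d1836 k0)) (by decide +kernel)
def d2874 : PP 8 4 T 0x1001100000000000000000000004000000000000000004000001000010100004000004 := rS 0x539846b239a4cc65471614a77368853e0f608c98ec578044bd0c3f9c52a607ea9c161f09aa4e69917c5d925d0aa840e193a914aa4f378588404451300241 (k8 d2181 d2182 d2180 d2803 d430 d2866 i518 i968 (k8 i2463 i2464 i41 d1846 i228 i520 i820 i2374 (k8 i2335 i2410 d2853 i316 i1939 i837 d989 i1882 (k8 d2554 d1052 d2837 d2838 d450 i1019 i1279 d2038 (k8 d383 d2871 i2342 d371 d1850 d351 d2872 i1614 (k8 i285 i1711 d2418 i556 i711 d2873 d2867 d652 (k8 d443 i875 i1888 i265 i2372 d2868 d467 d433 k0))))))) (by decide +kernel)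
def d2875 : PP 8 4 T 0x4001102000000000000100000014000014000040514004015041000000000004000000 := rS 0x322e1947328ad51e7d88184a64c (k8 d2180 d412 d396 d438 d67 i874 d1114 i527 (k4 i837 d2310 i2044 d713 (k1 i1026 k0))) (by decide +kernel)
def d2876 : PP 8 4 T 0x4001102000002000000100000004110014010000110004014001000014100004800020 := rS 0x761a7e0fb4d440b29984aa4f379dd5a316091c5e4c (k8 d2180 i316 i264 d382 d39 d2863 i712 i968 (k8 i2463 i2464 d396 d412 d388 d2186 d375 d2248 (k4 d2875 d353 d1753 d479 k0))) (by decide +kernel)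
def d2877 : PP 8 4 T 0x4001100000000000000000000004000014010000010004010001080014100004000020 := rS 0xd32982d94fd28894aea1039d48a091095686ad18a9582e4079dc2c47648bc9841 (k8 d2181 d2180 i316 i2410 i264 i518 i712 d2477 (k8 d1836 d382 d2873 d39 d2863 d2370 i2464 d2418 (k8 i262 i41 d1846 i520 i820 d1829 d1828 i527 (k4 d2876 d436 i2412 i621 (k2 d2330 d442 k0))))) (by decide +kernel)
def d2878 : PP 8 4 T 0x1100000000000000000000004000000000000000004000001000014100004000004 := rS 0xa6080707b0d0fb4d6ca205abca6fc2fb2cd266329b51c5856d0d86c518b05c8a5079dc8e51598be2ec92e8554207278588495499c5629704a2628042da289801 (k8 d2182 d2180 d2803 d2805 d430 d2874 d83 i262 (k8 d407 i1885 d361 d28 d350 d2866 i518 i2463 (k8 i520 i820 i2374 i2335 i2410 d2853 i316 i553 (k8 i527 i264 i712 d2477 d2873 d1836 d382 d39 (k8 d75 d470 d2370 d2863 d2877 d652 i2380 d443 (k8 i875 i1888 d713 d2868 d436 d412 d347 d388 (k8 d2440 d2314 d375 d2248 d352 i1784 d479 d2865 (k2 i722 i1913 k0)))))))) (by decide +kernel)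
def d2879 : PP 8 4 T 0x11000000000000000000000540010000000000000000800001000000000014100544 := rS 0x2996e110204d1401 (k8 d2182 d2803 i1882 d430 i2342 i853 d1011 d250 k0) (by decide +kernel)
def d2880 : PP 8 4 T 0x4001102000000000000000000104000014000000014004010001080018000004000144 := rS 0x32919886b4e27cf636368419ebd1ed157eb643a44be1da1c34fc0b5794d5a134c9456615509d48a4f3c8c4ee2107b251e852eb3620572a858085b260051441 (k8 d2181 d2803 d2182 d2180 d2805 d430 i518 i2464 (k8 d1829 d438 d454 i2335 d1014 i874 i2410 i285 (k8 d2418 i711 i69 i1853 i2463 i41 d1846 i820 (k8 i2374 i553 i527 i1939 i1882 d360 d412 d347 (k8 d388 d2875 d353 d100 d1753 d2879 i914 d1017 (k8 d2314 i1723 d424 i1784 i1988 d2252 d2829 d1847 (k8 i524 d464 i996 i2046 i1908 i1779 d776 i2949 (k1 i265 k0)))))))) (by decide +kernel)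
def d2881 : PP 8 4 T 0x1000000000000000100001020000014400010554000001001000000000004000000 := rS 0xfeb9 (k2 i1290 i1555 (k1 i2044 k0)) (by decide +kernel)
def d2882 : PP 8 4 T 0x1001000000000000001001014100000000010000000010041480000000504004540 := rS 0x1945251b484aa1 (k4 i820 d1828 d442 d375 (k2 d1469 d1835 (k1 i621 k0))) (by decide +kernel)
def d2883 : PP 8 4 T 0x4001101000000000000000000014000014400010554000000001080010000004000800 := rS 0x171423fb2c38b5 (k4 d1114 i558 i2412 d1753 (k2 d436 i2044 (k1 d99 k0))) (by decide +kernel)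
def d2884 : PP 8 4 T 0x4001100000000000000001000104100014000000014004010001080018000004000144 := rS 0xfd425cb2cc8522334816ad7e9f56a238823ce6252ba8432752293cee2107b24aa16021300241 (k8 d2181 d2182 d2180 d430 i518 i2464 i2410 i285 (k8 d2418 i711 i2463 i41 d1846 i228 i820 d1829 (k8 d1828 i837 i874 d438 d1612 d1114 d67 d2880 (k8 d2881 d2883 d442 d2882 d1469 i265 i621 i1027 (k2 d436 i2044 (k1 d100 k0)))))) (by decide +kernel)
def d2885 : PP 8 4 T 0x4001102000000000000101000100110000000000000014500001000000000004904144 := rS 0xa6080707b0d0fb4d6ca205abca60409945664f2d9311401 (k8 d2182 d2803 d2180 d2805 i2463 i553 i527 i1882 (k8 d430 d412 d347 d388 d2440 d2314 d375 d2248 (k4 d352 i1784 d479 d2829 (k2 i722 i1913 k0)))) (by decide +kernel)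
def d2886 : PP 8 4 T 0x1000000000000040014010000010041000501015184000001400000000044954000 := rS 0x4d3396e7b3531c4e734c96d144c (k8 d2180 d2803 d2805 i1939 i837 d1126 d1864 d1837 (k4 i713 d2253 i548 i2045 (k1 i1151 k0))) (by decide +kernel)
def d2887 : PP 8 4 T 0x1100000000000000000000004000000000000000004000001000010100004000004 := rS 0x5b1ed4e360807c38d3052e547427ea0624834897d86c5722b48ecb34998ca6d47160ee215283d823204ac5127149a5d2b143c9bcaaa10a9742cc9229082607021cd33172d9311401 (k8 d2182 d2803 d2180 d2805 d2853 i1939 i837 d430 (k8 i520 i1882 d2866 i41 i2410 i518 i2335 i2374 (k8 i820 i2464 i968 i1853 d2874 d350 d407 d28 (k8 d361 d83 i1885 i262 d2878 i1614 i285 i288 (k8 d2418 i711 d2884 d652 i2380 d443 i875 i1888 (k8 d713 i265 i1621 d1836 d75 d470 d2868 i914 (k8 d1202 d418 d46 d2885 d436 d469 d99 d1835 (k8 d50 i558 i236 d2886 i524 i1913 d464 d1523 (k1 i722 k0))))))))) (by decide +kernel)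
def d2888 : PP 8 4 T 0x1001100000000000000000000009000020000000000004000001600000501006000100 := rS 0x2d447102a9dcae6433a84a2593e94c16d244981fa4c (k8 d2180 d72 d450 i1277 d417 d462 i564 i1596 (k8 i2391 i527 i309 i1674 i1018 i529 i2991 i791 (k4 d438 d401 d349 d2832 k0))) (by decide +kernel)
def d2889 : PP 8 4 T 0x5001100000000000000000000009000000400000010004000001600000501006000100 := rS 0x22882d4ae7537c309ea128964fa5305b4912607eae286932a9952a4c (k8 d2180 d2888 i1659 i792 i1636 d458 d391 d72 (k8 d450 i1277 d417 d462 i564 i1596 i2391 i527 (k8 i309 i789 d399 d356 i1065 i530 d1114 d438 (k2 d2832 d401 k0)))) (by decide +kernel)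
def d2890 : PP 8 4 T 0x5001100000000000000000000009000000400000000004000001600000501006000100 := rS 0x222575a1d8e0555c1952b4349964964c (k8 d2180 d2179 i2391 i1636 d458 d2888 i1659 d391 (k4 i792 d2889 i1408 i1407 (k2 i1628 d349 (k1 d438 k0)))) (by decide +kernel)
def d2891 : PP 8 4 T 0x2001001000000000000000000000000000000000000004000001200000140004000504 := rS 0x9b1c9e2266f78170763d53c302ad22984c0e2f02045425158a5c9e712616d1401 (k8 d2182 d2803 d2805 d2180 d361 i789 d407 i1885 (k8 i527 i309 i2347 d430 i316 i520 i1882 i564 (k8 d442 d2862 d399 d359 d88 i392 d2534 d371 (k4 d356 d368 i532 d659 (k2 i1073 d1808 k0))))) (by decide +kernel)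
def d2892 : PP 8 4 T 0x1100000000000000001000080100014010000004500411001000015500004200000 := rS 0xcd2b9b4eabf5c28c7ccf1d21d0b122e96c988a (k8 d2803 d2180 d2805 i2354 d418 d53 d51 i550 (k8 i1145 i588 d2321 i2033 i1458 i1065 i594 i530 (k2 d1015 i2039 k0))) (by decide +kernel)
def d2893 : PP 8 4 T 0x4001100000000000004001000000100414410000500500511001000015500084000000 := rS 0x5c2769ea33608d9b102ba1d0b128cb44b64c (k8 d2180 d2805 d2807 d2806 d418 d53 d51 i530 (k8 d422 d1015 d401 i2039 i240 d389 i1643 i2033 (k1 d202 k0))) (by decide +kernel)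
def d2894 : PP 8 4 T 0x4001101000000000000001000500100014410000404500011141200015500004200000 := rS 0x511fd72745a878a49b5bd115ecf1d206245d2f96d144c (k8 d2180 d2803 d2805 i2375 i2354 d418 d46 i550 (k8 i1145 d2892 d414 d424 d56 d341 i565 i882 (k4 d2893 i1066 i1668 i2033 (k1 i241 k0)))) (by decide +kernel)
def d2895 : PP 8 4 T 0x4001101000000000004001000500100014410000500500511001000015500084000000 := rS 0x17ab84f2b9466ca288d9a9a8815d0e8589228b64c (k8 d2180 d2805 d2803 d418 d53 d51 i530 d422 (k8 d2893 d1015 d401 d56 i2039 i240 d414 i556 (k2 i2033 i1986 (k1 i1190 k0)))) (by decide +kernel)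
def d2896 : PP 8 4 T 0x4001101000000000040001000500100014410000400500011141200015500004200000 := rS 0xa23fae4e8b50f1483b0d3717d425d678e9144c (k8 d2180 d2803 i550 i1145 i2354 i309 i2375 d2894 (k8 d356 i1231 d399 d479 i882 d2895 i1066 i1667 (k2 i2033 i241 k0))) (by decide +kernel)
def d2897 : PP 8 4 T 0x4001101000000000040001000500100014410000000100011141200015500004204000 := rS 0x6c4fb34ae7642a1d9f12358e8ba5f4516c964c (k8 d2180 d2179 d2805 d2803 i2375 i2354 i550 i627 (k8 d418 i1145 d51 d53 d2896 i1628 i810 i1715 (k2 i2039 i556 k0))) (by decide +kernel)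
def d2898 : PP 8 4 T 0x4001001000000000000015000400100154410000404100511001405415541106154000 := rS 0x512f9726c571d0d745888e50a8714c49623713b1cb68a (k8 d2803 d2805 d1864 d1126 d2251 i1885 d418 d2571 (k8 d51 d53 i234 d505 d1926 d287 d422 d414 (k4 d1837 i1065 i594 i2033 (k1 i1719 k0)))) (by decide +kernel)
def d2899 : PP 8 4 T 0x4001000000000000000014000408100154410000404000000001600415540106144000 := rS 0xa65e26cd4393c1b6265c7eb04be5912954d2651e8fc6ec708930b68a (k8 d2803 d2805 d2180 i2347 d1864 d2251 d1887 d1889 (k8 i1659 i1888 i792 i346 i2391 i2375 d1831 d72 (k8 d2898 d368 i2356 i532 d659 d1837 i1073 i586 (k2 i2034 i1984 k0)))) (by decide +kernel)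
def d2900 : PP 8 4 T 0x4101100000000000000001001000100014410000400000011101000015500084000000 := rS 0xa35c9fce856 (k4 d438 d422 i1666 i1066 (k2 i241 i2033 k0)) (by decide +kernel)
def d2901 : PP 8 4 T 0x4001100000000000040000000408100154410000400000000141600410540006044000 := rS 0x9a3c0e4b91366a14471041ad43c520ec34dc5f5089442c5618f47e3778054d25532ac462e41996582fd08930b68a (k8 d2803 d2805 d2180 i2347 d72 d1831 i2391 d2858 (k8 d1836 d39 i1885 i1659 i792 i1888 d2897 d371 (k8 d2251 d1887 d1889 d470 d75 d25 i346 i309 (k8 i2375 d2899 d356 i1231 d399 d479 i882 i921 (k8 d2900 d401 d387 d454 d910 d418 d659 i532 (k2 d673 i1074 k0)))))) (by decide +kernel)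
def d2902 : PP 8 4 T 0x1100000000000000000000000000000000000000004000001040010100004000004 := rS 0x532f29e9d3527d7e78368e4b91366a1620232b9d98ef01b8f4761569828cc692a93d6265449c52e958a30d8a31108cdc88f158254a252c97c22470c03c881709a64a2b317c5dfac164a4d54a902464985b25a288201 (k8 d2182 d2181 d2803 d2179 d2805 d2180 d2806 d430 (k8 d989 d2887 i1636 i583 d1831 d72 d2853 i316 (k8 i553 i527 i1939 i1882 i707 d434 d2854 d427 (k8 d227 i2347 i2375 i2391 i346 d2873 i2105 i2230 (k8 d595 d1836 d2858 d25 d39 d75 d470 d2890 (k8 d350 d407 d361 d83 i1659 i1885 i789 i792 (k8 i1888 d354 d2891 d50 d2897 i392 d1889 d2251 (k8 d371 d1864 d2901 i1628 i1625 d438 d387 d454 (k8 d910 d418 d659 i2356 i532 i1721 i1713 d1837 (k4 i1857 d429 i586 d1089 (k1 i1984 k0))))))))))) (by decide +kernel)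
def d2903 : PP 8 4 T 0x5001100000000000000000000008000000000000000004000001080000100004000020 := rS 0x28c3a08442d4471047964fe53861c4c0a939bf582255081c3275229f4ae4f37a9442550b03c9841 (k8 d2181 d2180 i2389 i518 i2464 d2418 d2873 i968 (k8 i2463 d1829 i1595 i41 d1846 i228 i520 i820 (k8 d1828 d1831 d72 i837 d989 d450 i1279 d383 (k8 d369 d353 i581 i874 d438 d1612 d1114 d2625 (k4 i1277 i1342 i2140 d851 k0))))) (by decide +kernel)
def d2904 : PP 8 4 T 0x11000000000000000014020500010000400000000180800001400000000014104544 := rS 0x17ccf571b1208a (k4 d2803 i552 d2868 d2879 (k2 i1149 i594 (k1 i1458 k0))) (by decide +kernel)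
def d2905 : PP 8 4 T 0x1000000000000001014000008000140001000050000410001480000100504000004 := rS 0xbc5b1ecd43636841e2818920d22131295c2a2b0b1e4ba042d9311401 (k8 d2182 d2803 d2180 d2805 d430 i2335 i1853 i518 (k8 i2610 i2374 d1829 d1828 i1882 i914 d1202 d418 (k8 d46 d910 d371 d1847 i524 d776 d464 d1523 (k2 i586 i1988 k0)))) (by decide +kernel)
def d2906 : PP 8 4 T 0x4001001000000000000014000500010014410000000180800801400010500004104404 := rS 0x2e03ad203824630d19a78d8c708810028a (k8 d2803 d2182 d430 i2342 d1864 d2868 i556 i1711 (k8 d74 d1820 i262 i520 d442 i716 d775 d2904 k0)) (by decide +kernel)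
def d2907 : PP 8 4 T 0x1100000000000000000000000000000000000000004010001000010100004000004 := rS 0x28aaf4d2fd707f0e0293b4f679b0a490089799ab511c410a8f099cd32b317bf5265d0aa840e193a914fa57379dc42550b1c5629704a24d26664aa58ac37211cca958a45c080f212aa32d1451300241 (k8 d2181 d2182 d2180 d2803 d2807 d2806 d2887 d2902 (k8 i2389 d430 d2853 d2903 d350 i1659 i265 d1836 (k8 d470 d75 d989 i583 d354 i1888 d83 i262 (k8 d407 i1885 d361 i518 i2464 d2418 i711 i968 (k8 d1829 i1595 i41 d1846 i228 i520 i820 i2374 (k8 i2335 i1636 d72 i316 i553 i1939 i837 i1882 (k8 i874 d1014 d438 d1612 d1114 d454 d2905 i2342 (k8 i552 d2844 d2868 i1149 d389 i1643 d2906 i558 (k4 d1753 i2044 i1458 d202 (k2 i594 d56 (k1 d414 k0))))))))))) (by decide +kernel)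
def d2908 : PP 8 4 T 0x2001000000000000000014000008000000000000001080000001400400500004154000 := rS 0x53a6c72bc671a98e3d782c52e6932a557e8a (k8 d2803 i1721 d350 i1659 i1888 d407 i1885 d371 (k8 d1361 d1864 d1837 i548 i586 i1976 i1152 i1984 (k1 d1808 k0))) (by decide +kernel)
def d2909 : PP 8 4 T 0x1100000000000000000000000000000000000000004000001000010100004000004 := rS 0x29ecf662e93ab63d8d820818920d225f4fad0da5861b15c866239a4ca714ba56283b3c83c2a5d0b10992aa8b8bd327309aa409192d9311401 (k8 d2182 d2803 d2180 d2805 d2806 d430 d989 i1882 (k8 i837 i1939 i316 d2853 d2887 i583 d2902 i518 (k8 i2335 i2374 i2389 i1853 i392 d2903 d350 d407 (k8 d361 i1659 i1888 i265 d354 d1836 d75 d470 (k8 d2907 i2380 i582 i1713 d2851 i914 d1202 d418 (k8 d46 d2908 i524 d464 d1523 i1779 i887 i886 (k2 i1950 d73 (k1 d397 k0)))))))) (by decide +kernel)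
def d2910 : PP 8 4 T 0x1000000000000000000040040000020000000100008100001200000000004000000 := rS 0x7186945366f8aac4be7329a28988d (k8 d2804 d2180 d2803 i2358 i836 i2375 i1355 d3 (k4 i1057 i1182 i528 d605 (k2 d614 d383 k0))) (by decide +kernel)
def d2911 : PP 8 4 T 0x9001000000000000000080001000010110400110150000000001000014100006000000 := rS 0x515363e5e2912e2f3743512b93ba4c6319 (k8 d2806 i1041 d480 d78 d43 i231 d205 d383 (k8 i1054 i1323 d2156 i415 i414 i1417 d459 d466 k0)) (by decide +kernel)
def d2912 : PP 8 4 T 0x8001000000000000001000001000010000401010100008010001200014100006200000 := rS 0x50379c12abb63205326a43c495e5d8aac4be73299a53a553b95cda6726228b68d (k8 d2804 d2805 d2803 d2180 d86 i555 i529 d78 (k8 i791 d452 i1887 i2358 i836 i2375 i1355 d3 (k8 i2354 i2362 d418 d1853 i2039 i1938 d46 i628 (k4 i1946 d2910 d2911 i77 (k2 d614 i528 k0))))) (by decide +kernel)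
def d2913 : PP 8 4 T 0x1000002000000001810004004000000001040000008500501000400141406000000 := rS 0x3097a2157289660a8913d62732da28988d (k8 d2804 d2180 d2803 d2805 i836 i1355 d420 d418 (k8 d653 i2376 i620 d2314 i1649 i1987 d910 i329 k0)) (by decide +kernel)
def d2914 : PP 8 4 T 0x1000000000000000808000400000000000000000008000001000100500004150140 := rS 0x2ed5ca705c55628d (k8 d2804 i1355 d3 i534 d2744 d1011 i1944 i626 k0) (by decide +kernel)
def d2915 : PP 8 4 T 0x21000000000000001000001014001020001010100008015001040010100404100004 := rS 0x4c2f14ca252b4c5ce56127d36393c2ce265c652dcfe078a93d9e092997c5625198ec6ef009b158e11239100943608c43017289be324c2d804828a (k8 d2803 d2181 d2182 d2805 d2180 d2806 i1057 i528 (k8 i707 d427 i1041 i1517 d447 d430 d434 d227 (k8 i2347 d1864 d1850 i1882 d371 d2251 i392 d2780 (k8 i2209 i2230 i2375 i2358 i1349 d602 d420 d3 (k8 i520 d353 d352 i2037 d2913 d368 i2355 i532 (k8 d659 i1445 i1075 i2035 d470 d2914 d358 i2216 (k4 d475 d715 i329 d2030 (k1 i1990 k0)))))))) (by decide +kernel)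
def d2916 : PP 8 4 T 0x1000000000000001000001014001020001010100008015001040010100404100004 := rS 0xb3538bcb89905abdf87086944de13038122a4f58824225f3994c884c451051a01 (k8 d2182 d2804 d2181 d2803 d2180 d434 i2358 i836 (k8 i2375 i2347 i1349 i1355 d420 d3 d430 i520 (k8 i1882 i1057 i528 d2915 d383 d399 d347 d388 (k4 i1938 d614 i315 d2837 (k2 i2355 d1011 k0))))) (by decide +kernel)
def d2917 : PP 8 4 T 0x8001100000000000000000000000010010400000050008410001004014100006150140 := rS 0x439acbab25fa9d48af058bca06e86a262ab15ca4cd29d36ad50a7d668c4eb102a9dcae672d931148d (k8 d2804 d2803 d2180 d2805 d86 i529 d78 i791 (k8 d438 d400 i1041 d454 d67 d387 d349 i555 (k8 d452 i1887 d480 d43 i1355 d3 i231 d205 (k8 d383 i1319 i1054 i2348 i2350 d2156 d2526 i1451 (k4 d1011 i2355 i634 d1853 (k1 i2039 k0)))))) (by decide +kernel)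
def d2918 : PP 8 4 T 0x1000002000000001810000004010000001040000008500501000400145406000000 := rS 0x7da6b6051cd144c (k8 d2180 d2803 i836 d653 d2913 d50 i237 d2253 k0) (by decide +kernel)
def d2919 : PP 8 4 T 0x8001100000000000000000000004000000000000000000010001040010100004000004 := rS 0x15f457eaed4c0a52b4c5cc24f8e4f0b389971834365144fe6f382558e2762bc06e3f1d85462cd3ea156a233ac415a572aa4cce774e84c0e4f67ac412470897c562550a3c08330c05ce65322188985b20805148d (k8 d2804 d2803 d2182 d2181 d2805 d2180 d2909 d434 (k8 i2358 i836 i707 d427 d2780 d430 d595 i2186 (k8 i2209 i2230 i2375 i2347 d227 i1349 i1355 d602 (k8 d420 i520 i1882 d452 d78 d86 d480 i791 (k8 i529 i1352 d438 d400 d401 d349 d387 d67 (k8 d454 i1041 d2912 i392 d1887 d2251 d371 d1850 (k8 d1126 d1864 d2916 d2917 i77 i800 i528 i2037 (k8 d98 i1245 d2918 d368 i2355 i532 d659 i1075 (k8 i2035 d2914 d358 i2216 i315 d715 i1945 d388 (k2 d377 i626 (k1 d414 k0))))))))))) (by decide +kernel)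
def d2920 : PP 8 4 T 0x4001100000000000000000000044000020000000010408110001200000000004000000 := rS 0x430a29b37a7cea6888334aa6d3215cee678ab24e65343a16245f45131a25b (k8 d2805 d2807 d2180 d2803 i2375 d418 d53 d51 (k8 i2358 i836 i2411 d3 i1673 i1676 i529 d354 (k8 i555 i791 d1015 d111 i2039 d400 i1566 i1057 (k4 i1181 i528 d383 d605 k0)))) (by decide +kernel)
def d2921 : PP 8 4 T 0x1000000000000000001001000100000000010014008000001040000100504200020 := rS 0x162e5934d350c28c54be25509cca6442eabd12180ba289841 (k8 d2181 d2180 d2803 i707 d427 i231 i2362 i2354 (k8 d434 i2358 i836 i2186 i2209 i2375 d3 i528 (k4 d383 d605 d338 i1445 (k2 d417 i2376 (k1 i315 k0))))) (by decide +kernel)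
def d2922 : PP 8 4 T 0x4001100000000000000000000004000000000000110008011001040004100004204120 := rS 0x645c3281693568bca06e3e88e20b52b81e2a612fa851e180ba9582217211c749535abcba442616c828a (k8 d2803 d2181 d2805 d2180 d434 i2354 i2362 i627 (k8 d2920 i550 d227 d1836 d25 d382 d2873 i707 (k8 d427 d595 i2186 i2375 i74 d3 i520 i530 (k8 d1114 d438 d401 d67 d2921 i1319 i1054 i2859 (k4 i1321 i2348 d2750 d1586 (k2 d489 i1026 k0)))))) (by decide +kernel)
def d2923 : PP 8 4 T 0x1000000000000000000000000000000000000000008000001200000000004200800 := rS 0x4d43166517e93ca65f2eabd144c (k8 d2180 d2803 i2362 i2354 i2375 i2358 d420 d388 (k4 i2348 i2376 d399 d605 (k1 i1445 k0))) (by decide +kernel)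
def d2924 : PP 8 4 T 0x4001100000000000000000000004000000000000010008011001040004100004204120 := rS 0xca5695927113a4548ea5059109841 (k8 d2181 d2180 d434 d2923 d2873 d227 d3 d2922 (k4 d400 i1590 d438 i1352 (k2 d2750 i2352 k0))) (by decide +kernel)
def d2925 : PP 8 4 T 0x4001100000000000000000000004000000000000010008010001040004100004204120 := rS 0x7c37ab046b53b19ca89503b254ac1108c5c8472eabcd6a31782c89150c05c9841 (k8 d2181 d2180 i707 d427 d3 d434 d2923 i315 (k8 d1639 i627 i2362 i2354 d227 d1836 d39 d25 (k8 d382 d2873 i2411 i520 d2920 d2924 d68 i791 (k4 i2550 i1537 d1824 i2859 (k2 d2921 i1630 k0))))) (by decide +kernel)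
def d2926 : PP 8 4 T 0x4001100000000000000000000004000000000000000008010001040004100004204120 := rS 0x50379c15e5d5894cbe4426228828d (k8 d2804 d2181 d2803 d2180 d434 i2375 i2358 i1355 (k4 i2354 i2362 d2925 i77 (k2 d614 i528 k0))) (by decide +kernel)
def d2927 : PP 8 4 T 0x1001100000000000000000000104010000000000000000510441400004141004114104 := rS 0x2dc3eb328b4d5e0a362b4d2cb3595a225542a1c531203a9408c110b1586e47804c4ec72da289801 (k8 d2182 d2180 d2803 d2805 d1864 d1126 i1882 d371 (k8 d1836 d470 d75 d25 d382 d430 d2873 i520 (k8 d418 d2571 d51 d53 d2341 d505 d438 d287 (k8 i2352 d116 i1582 d1837 d1821 i593 d50 i2348 (k4 i2376 i237 d2253 d2314 k0))))) (by decide +kernel)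
def d2928 : PP 8 4 T 0x1100000000000000000000004000000000000000000010001040010100004000004 := rS 0x15622744f2769e5735334d278369718e1561b15c80f8b84e2a4f67ac412c923844a65f220ac4aa1020cc30173112e328a26004828d (k8 d2804 d2181 d2182 d2180 d2803 d2806 d2179 d2909 (k8 i707 d427 d2780 d430 i2186 i2209 i2230 d434 (k8 i2375 i2358 i2347 d227 i2411 i1349 i1355 d602 (k8 d420 d3 i1882 d2919 d2854 d1836 d75 d470 (k8 d2926 d1864 d2927 i2356 i532 i3083 i1972 d1837 (k8 i508 d429 i1908 d397 i1075 d400 i1540 d438 k0)))))) (by decide +kernel)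
def d2929 : PP 8 4 T 0x1001000000000000000000010000200000000000050000000001000000000804000000 := rS 0x37c35681e (k4 i248 i249 d476 i1399 (k1 d383 k0)) (by decide +kernel)
def d2930 : PP 8 4 T 0x8001100000000000000000010040040000000040011008500401000155540806000500 := rS 0x53cd69e592696f0c28afcde9452b49124f589ccd29d4cb0527152da28988d (k8 d2804 d2180 d2803 d2805 d3 d480 d1331 i1938 (k8 d452 i1887 i836 i1355 d420 i231 d417 d2929 (k8 d678 d1265 i1726 i528 d383 d352 d610 d2314 (k4 i1181 i634 d89 d467 k0)))) (by decide +kernel)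
def d2931 : PP 8 4 T 0x8001100000000000000000010000000000000040001008000001200015100806208120 := rS 0xa06f3828c5e37058e55e5d5894cbe2b26228b68d (k8 d2804 d2805 d2803 d2180 i2230 i2375 i2358 i1355 (k8 i2354 i2362 i2113 d2923 d2349 i315 i322 d2930 (k2 i77 d614 (k1 i528 k0)))) (by decide +kernel)
def d2932 : PP 8 4 T 0x8001100000000000000000010000000000000040011008500401000555100806008520 := rS 0x57a8ca02f159cc988a (k8 d2803 d2180 i836 i2230 i315 d653 i322 i2350 (k1 d2930 k0)) (by decide +kernel)
def d2933 : PP 8 4 T 0x1100000000000000000000014018000000000000008500401000400004004000800 := rS 0xa125196985dab936b70facc5c5169bf49eb12da28988d (k8 d2804 d2180 d2803 d2805 i1355 d420 d388 d50 (k8 i2348 i534 i2376 i237 d2253 i1175 d2314 i1686 (k4 i540 i626 i1112 d436 (k1 d447 k0)))) (by decide +kernel)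
def d2934 : PP 8 4 T 0x1100000000000000000000004000000000000000000000001040010100004000004 := rS 0x371c0a00b4f30c72292eb1c4ec51b8ec2aad49a7572318b21cfe67111b41c772c1cc668f508acbe530891d92182205c081367824c44c4516c8201 (k8 d2182 d2181 d2805 d2803 d2180 d2909 i1349 d602 (k8 i1882 d430 i707 d434 d427 i2411 d227 i2347 (k8 i2358 i2375 i2230 i2186 d595 d2780 i836 d2928 (k8 i806 i603 i2445 i604 i544 i844 i929 d652 (k8 i1572 i1406 d452 d480 i1352 d2931 i392 d2251 (k8 d1850 d1126 d1864 d2828 d2571 i234 i250 i2035 (k4 d2933 d653 d2932 i528 (k1 i77 k0)))))))) (by decide +kernel)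
def d2935 : PP 8 4 T 0x1000000000000000000001000100000000010010008800001080000100504000004 := rS 0x182d286224e69a29ac94e991fabd201109c556209129bc2aa1038bc160426228028d (k8 d2804 d2182 d2803 d2180 d430 i2357 i315 i520 (k8 i820 i2374 d613 d1828 i1349 i1355 d3 i1882 (k8 i2342 i552 i2363 d1076 d334 d2837 d1011 i2377 (k4 i554 i836 i1443 d383 (k2 d417 d384 (k1 d338 k0)))))) (by decide +kernel)
def d2936 : PP 8 4 T 0x4801000000002000005000000000000001405001500000000001000000041504100004 := rS 0x9d4f9ec6c1078b0d8a310204d1401 (k8 d2182 d2803 i1882 d430 d39 d75 d470 d910 (k4 d371 i524 d464 i996 (k2 i1779 d826 k0))) (by decide +kernel)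
def d2937 : PP 8 4 T 0x1100000000000004000000000000000000000000000410001080000000004000004 := rS 0x2753e7b1b041e2c5188c8c8c32339624874884c4a153ca14ba238b8acea8f0c9159b102b9dc420f2a85808012d930828a (k8 d2803 d2181 d2180 d2805 d2182 d430 i518 i2464 (k8 i595 d2418 i711 d1829 d438 d454 i41 i228 (k8 i874 d1846 i2610 d2836 d1612 i2335 d1014 i1853 (k8 i2374 d1828 i1882 i914 d1017 d418 d2936 d1836 (k8 i2144 i265 i264 i1532 i2949 d910 d371 i524 (k4 d464 i996 i1779 d826 k0)))))) (by decide +kernel)
def d2938 : PP 8 4 T 0x1100000000000000000000000000000000000000008010001080000100004000004 := rS 0x166a77e26d3270579ed20112f1f56a2310a96211707a3c26078ab3d62092b8543275228acaa161782c088a26004828d (k8 d2804 d2181 d2182 d2180 d2803 d430 i2357 i315 (k8 i518 i2464 i2610 i41 d1846 i228 i2374 d1829 (k8 i1349 i1355 d602 d3 i520 i1882 i874 i595 (k8 d2836 d438 d2873 d2418 d1612 d349 d67 d2937 (k8 i2342 i552 i2471 i2363 d2935 d334 i1448 d604 (k2 d2837 i554 (k1 d2859 k0))))))) (by decide +kernel)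
def d2939 : PP 8 4 T 0x8001000000000000000000000800000100000050514000000001080000000014008000 := rS 0x29e6b4f2fd28b5100551eb9499a53a9a3994c988a (k8 d2803 d2180 i2377 i836 i554 d452 i1887 d480 (k8 d43 d380 i2374 i596 i727 i2044 i1726 i1181 (k2 i634 d89 (k1 d122 k0)))) (by decide +kernel)
def d2940 : PP 8 4 T 0x8001100000000000000000000000000000000000010000800001080010100004000004 := rS 0x17e6a4a30c62e45283c3ad23ea24fe734d14d64a74cb1c7ec557a40221303ac4126f0a9d48a77649b4b0b9238ccd29d60a4c5e0b02454c44c45004828d (k8 d2804 d2181 d2182 d2803 d2180 d2909 d3 d430 (k8 i2357 i315 d480 d1331 d452 i1887 d379 i264 (k8 d43 d2938 i2380 i2410 i806 i41 d1846 i2374 (k8 d613 i1349 i1355 i520 i1882 i2342 i552 i2363 (k8 d1850 d1076 d880 d334 d2837 d1011 i2377 i554 (k8 i836 i844 i1443 d107 d417 d42 d2939 d2873 (k4 d1836 d39 d470 d253 (k2 d1837 i1726 (k1 i634 k0))))))))) (by decide +kernel)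
def d2941 : PP 8 4 T 0x21000000000000000000000000010000000400000008500501000000540004150540 := rS 0xaf4dbf110d31fc54528a (k8 d2803 d2571 d3 d1076 d1653 d417 d442 i1443 (k2 d347 d605 k0)) (by decide +kernel)
def d2942 : PP 8 4 T 0x8001000000000000000000000000000000000000100000400001080000000004028020 := rS 0xd9867948a1d0b122e96c988a (k8 d2803 d2180 d2805 i2335 d418 d53 d1017 i914 (k4 i1853 d1838 i524 d2842 k0)) (by decide +kernel)
def d2943 : PP 8 4 T 0x1000000000000000000000000010000000400014008500501000000540004150540 := rS 0x869ce2a4c (k4 d2180 d3 i836 d2941 (k1 d383 k0)) (by decide +kernel)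
def d2944 : PP 8 4 T 0x8001100000000000000000000004000000000000010008400001080000100004008004 := rS 0x94a126196ae5da9d36d2599c9fa524f334f6270888dca13588244a513785542073a91456163c8bc168f4eab5269143a0d0b122e811145b00930828d (k8 d2804 d2181 d2180 d2182 d2805 d2803 d430 i2335 (k8 d418 d53 d1202 d1017 i914 d480 i1352 d452 (k8 d380 i2357 i315 i1853 i518 i2610 i41 d1846 (k8 i520 i820 i2374 d613 i2333 d1828 i1349 i1355 (k8 i1882 d37 i244 d2942 d1126 i713 d1169 d1306 (k8 d2943 d22 i536 i2377 d442 i1179 d359 i1686 (k4 d1011 i626 i540 d436 (k2 i1112 d447 k0)))))))) (by decide +kernel)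
def d2945 : PP 8 4 T 0x8001000000000000000800000000010000004400114008500501000001140004100404 := rS 0x174cc5727cf6b71b2ce18103984c0f1527ac41279178111e9d48a16245b26005148d (k8 d2804 d2803 d2182 d2180 d2805 d418 d53 i914 (k8 d452 d380 d430 i315 i1853 i1349 i1355 d420 (k8 d3 i520 i1882 i836 d2943 d383 i2343 i524 (k4 d352 d464 i996 d2314 (k2 d1306 i626 (k1 i1948 k0)))))) (by decide +kernel)
def d2946 : PP 8 4 T 0x400000000000801000000000000000014401504400000000000000000000001000000041504150540 := rS 0x17b45662b9e085 (k4 d53 d371 d1011 d910 (k2 d91 i1987 (k1 d332 k0))) (by decide +kernel)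
def d2947 : PP 8 4 T 0x8001100000000000000000000004000000000000010000000001000010100004000004 := rS 0x1454cad978cc4ba7cf6360808c7aa353afd36d23f2d566727e94a86c3628c594e410a941e858920d0e912f84e2acf588244a513782c2aa1039d48a2b2a858f25d2123d3a47198115a9331465145b26004828d (k8 d2804 d2181 d2182 d2180 d2805 d2803 d2806 d2909 (k8 d480 i1352 d430 d379 i264 d452 d380 d2934 (k8 i2335 i1853 i518 i2464 i2610 i41 d1846 i520 (k8 i820 i2374 i2357 d613 i2333 d1828 i1349 i1355 (k8 d602 d3 i1882 d2940 i914 d1017 d1202 d418 (k8 d53 d2944 d2873 d2418 d1836 d2750 d39 d75 (k8 d470 d98 d2945 d22 i536 i2377 i883 i622 (k8 d442 i1179 i1453 d359 d375 d88 i1663 d2946 (k8 i524 d464 i996 i1777 d1306 i849 i848 i1990 (k2 d424 d466 k0)))))))))) (by decide +kernel)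
def d2948 : PP 8 4 T 0x1000000000000000000000000000000000000020008000001080000100004000004 := rS 0x4dac8f6115397932af7e34c385309aa40f15588242c5d288545e0b02228028d (k8 d2804 d2182 d2803 d430 i2357 i315 i2374 i2333 (k8 i2335 i518 i1349 i1355 d3 i520 d989 i1882 (k8 i798 i709 d42 d442 d347 i1938 d614 d2837 (k4 i2342 i2471 d1011 i1448 (k1 i554 k0))))) (by decide +kernel)
def d2949 : PP 8 4 T 0x1100000000000000000000004000000000000000000000001000010100004000004 := rS 0x2dd66733d840be5357b358ec362b2a9ce45c304d647569a54a31331941e8e8b9c4da772c0bc2a0b37944bac9129082607024549ecf58824c45b262291a01 (k8 d2182 d2804 d2803 d2180 d2805 d2909 i1349 i1355 (k8 d602 d420 d3 d430 i520 i1882 d2934 d1828 (k8 i2410 i2335 i2333 d613 i2357 i2374 i315 d2938 (k8 i806 i2380 d2948 d2947 d652 d2477 d443 i875 (k8 i985 d2873 i1888 i1353 i265 i548 d2291 d2781 (k8 d1836 d467 i1405 d75 d470 d381 d73 i2370 (k8 i2369 d2868 d1837 i878 i836 i2343 d648 d2314 k0))))))) (by decide +kernel)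
def d2950 : PP 8 4 T 0x1000000000000000000004400000000000000000008400501000000000004200000 := rS 0x2bcba4f5896c988d (k8 d2804 d2180 d2805 i1355 d420 i2354 i2362 d2314 k0) (by decide +kernel)
def d2951 : PP 8 4 T 0x1100000000000000000000000000000000000000000000001000010100004000004 := rS 0x15e5d3631c2ab78617ca61161b1488e42191cd2b3289641e6b7eaa812b127988265b26228828d (k8 d2804 d2181 d2803 d2180 d2805 i1882 d2909 d420 (k8 i1355 i1349 d2949 d72 i2361 i2359 i2360 i2349 (k8 i2378 i1662 i1656 d2938 d1836 d434 d75 d470 (k8 i2347 i2358 i2375 d399 d352 d2950 d1864 d1837 (k2 i2356 i2364 (k1 d2314 k0)))))) (by decide +kernel)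
def d2952 : PP 8 4 T 0x1000000000000000000000000000000000000000004000001000000200004200000 := rS 0x5358add5ea12f87d2e3c2205c723a21974224f38945665b4510498d1 (k8 d2807 d2180 d2181 d2803 d2805 i553 i527 d70 (k8 i789 i136 i2354 i2374 i550 i293 i707 d434 (k8 i1158 i1244 i1304 i2375 i309 i1781 i1784 i1885 (k2 i565 d2314 k0)))) (by decide +kernel)
def d2953 : PP 8 4 T 0x1000000001000040800000000140000000000000000000001000000000004000040 := rS 0x18343 (k2 d98 i1245 (k1 d475 k0)) (by decide +kernel)
def d2954 : PP 8 4 T 0x8001000000000000000050000000000000000000000000220001200450000004400000 := rS 0x3143888be8a (k4 d2803 i2375 i604 i929 (k2 i1572 d2828 k0)) (by decide +kernel)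
def d2955 : PP 8 4 T 0x8001100000000000040050000004100800000000008000200501600450000004400540 := rS 0x196a372b093e313ac40b2572aaf56a673bae53acf1986142781cc4c985b (k8 d2805 d2180 d368 d659 i532 i309 d427 d379 (k8 d385 d452 d43 d78 d86 i1399 i1417 i791 (k8 i529 d2954 d438 d400 i1041 i1075 i2035 d470 (k2 i329 d2953 (k1 d2405 k0))))) (by decide +kernel)
def d2956 : PP 8 4 T 0x4001002000000000008141000000100800000000000004000001000000000004004020 := rS 0xa25f194168d (k4 d2804 d388 i1028 i1152 (k2 d2440 i1719 k0)) (by decide +kernel)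
def d2957 : PP 8 4 T 0x1100000000000000000000000000000000000000004000001040010000004000004 := rS 0x55889d13ccf4e95e9e6a61b05c85907c5d3469411e0da5c05aad5eb15ba054b0d6389c6ec529bf0386e1ea84be1123b243e182205c26d30493ce251038ec2a2c0212e324c4516c8201 (k8 d2182 d2181 d2805 d2803 d2180 d2806 d2179 d430 (k8 d2951 d2952 i392 i519 i527 d70 i789 i1264 (k8 d0 i1882 i707 d434 d427 i1304 i2411 d227 (k8 i2347 i2375 i309 d1889 i1039 i1040 d2399 i565 (k8 d1850 d2251 d1126 d1864 d356 i2878 i1235 i721 (k8 d455 d347 d72 d388 d2829 i2356 i532 d719 (k8 i3083 i1439 d2955 d2854 i603 d1836 d382 d470 (k8 d1837 d429 i2353 i1908 d2956 d397 i1075 d400 (k2 i1540 d438 k0))))))))) (by decide +kernel)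
def d2958 : PP 8 4 T 0x1000000000000000000010000000004400040544000000001080000200044008400 := rS 0x861f56b155188046e5389144aa5 (k8 i1383 d1828 i41 d70 d37 i244 i596 i322 (k4 d2840 d1261 i1502 d383 (k1 d2712 k0))) (by decide +kernel)
def d2959 : PP 8 4 T 0x8001100000000000000000000000800000000100040000800401080000200044100004 := rS 0x5a9f50c6a5ea5586317203cfe6d3491cb093339dd729d478cce275228ac2cc563bc022040982cde90450049841 (k8 d2181 d2180 d2182 d2803 i552 i1172 i557 i1882 (k8 d430 i2342 d371 d351 d1850 i518 i2610 i41 (k8 d1846 d70 d379 d380 d452 d43 d78 d86 (k8 d480 d2836 i264 i1887 i555 i844 d2958 d1836 (k8 d39 d470 i978 i1984 d1837 i630 i1710 i934 (k1 i2044 k0)))))) (by decide +kernel)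
def d2960 : PP 8 4 T 0x4001000000000000000000000000000000000000000000000001080000000004008020 := rS 0x3b0cd9216 (k4 i518 i2410 i285 d2477 (k1 i712 k0)) (by decide +kernel)
def d2961 : PP 8 4 T 0x1100000002000000000000000000000000000000004810401000010000004000004 := rS 0x1d869f92a9318b049e712bb24ea4505abd5aab37a40ee2107c5c3eb740a854cfc58a5c7af008825660709854e62c2a8588404009311441 (k8 d2181 d2803 d2180 d2182 d430 d2957 i518 i2464 (k8 d2951 i837 d2952 i1882 i519 i553 i1264 i2342 (k8 d371 d23 i1243 i1885 d2844 d2859 i820 i1860 (k8 i853 i243 d2959 d2960 d2418 i711 i552 i1172 (k8 d72 d360 i589 i557 i41 d1846 i2410 d1829 (k8 d70 i789 d382 d39 i1241 i978 d2875 d353 (k2 d1753 d2879 k0))))))) (by decide +kernel)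
def d2962 : PP 8 4 T 0x1100000000000000000000000000000000000000004810401000010000004000004 := rS 0x25126c1191908ce538a255aab37a414a0f8b87d6e8150a99f8b14b8f5e01104acc0e130a9cc584202004988a (k8 d2803 d2180 d2182 d430 d2957 d2951 i837 d2952 (k8 i1882 i519 i553 i1264 i2342 d371 d23 i1243 (k8 i1885 d2844 d2859 i820 i1860 i853 i243 d2959 (k8 d2960 d2873 i552 i1172 d72 d360 i68 d70 (k8 d2961 d1836 i265 i264 i1533 i1550 d2884 i1672 k0))))) (by decide +kernel)
def d2963 : PP 8 4 T 0x1100000000000000000000000000000000000000004800401000010000004000004 := rS 0xa7308d64734998ca8e36960ee2107c5c3e81533f012735081caa16212dd66c558a5c7af0088102615162289801 (k8 d2182 d2180 d2803 d2951 d2952 i1882 d430 i2342 (k8 d371 d23 i1243 i1885 d1850 i553 i853 d2957 (k8 i518 i2464 i519 i820 i837 i1264 d2844 d2859 (k8 i1860 i243 d2959 d2960 d2418 i711 d2962 i2380 (k8 d652 d443 i875 i1888 i265 i2372 d2868 d467 (k1 d433 k0)))))) (by decide +kernel)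
def d2964 : PP 8 4 T 0xa001100000000000000400000000000000000000040000800801080000200064100004 := rS 0x5a2acfac360b901e7f36a94d2472c19ceeb94ea3c6671129d4561662844de19228112a93450049841 (k8 d2181 d2180 d2182 d2803 d28 d350 d430 i41 (k8 i228 i1232 i2342 d1850 i518 i2610 d1846 d1828 (k8 d70 d379 d380 d452 d43 d78 d86 d2836 (k8 i264 i1887 i1383 i555 i845 d2840 d1836 d382 (k4 d470 i1233 d2851 i2044 (k1 i883 k0)))))) (by decide +kernel)
def d2965 : PP 8 4 T 0x4001101000000000000100001004000014000000554000011001080010000004000800 := rS 0x1587d8823cae4c (k4 d2180 d1829 i874 d438 (k2 d67 d2883 (k1 d2881 k0))) (by decide +kernel)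
def d2966 : PP 8 4 T 0x4001100000000000000000000000000000000000400000820001000010000004104004 := rS 0x539846b239a4cc65471b58a11022289801 (k8 d2182 d2180 d2803 d430 i2342 d1850 i2380 d652 (k8 d443 i875 i1888 i265 i2372 d2868 d467 d433 k0)) (by decide +kernel)
def d2967 : PP 8 4 T 0x1100000000000000000000000000000000000000004800001000010000004000004 := rS 0xa22695e9da79b186e45f91cd2b8551f59eb535c411e593f9dc420f8ba4d2a6f8a07d961c053f4a4b14b8f58ef062a40221354b4ce20939acc0e151615d92193a914aa162101232d1262280241 (k8 d2181 d2182 d2803 d2180 d2807 d2806 d430 d2957 (k8 i518 i2464 i41 d1846 i228 i2410 d1829 d2951 (k8 d2952 i519 i553 i837 i1264 d70 d0 d989 (k8 i1882 i2342 i552 d1850 d371 d351 d23 i1243 (k8 i1885 d2963 d22 d2425 i558 i2412 i236 d1052 (k8 i1232 d350 d28 d2964 d2960 d2418 i711 i719 (k8 d2966 i874 d438 i629 i882 i1149 d67 d2965 (k8 i2044 i1662 i1656 i1458 d1836 d470 d1837 d389 (k4 i1643 i594 d202 d414 (k1 d56 k0)))))))))) (by decide +kernel)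
def d2968 : PP 8 4 T 0x8011100000000000000000000000040000000000000000400501080000200084020044 := rS 0x7da1b2982213fc454a470796172333a91456550b0115aab7e02c12d35a8049841 (k8 d2181 d2180 d2182 i2890 d0 i1264 i557 d442 (k8 d72 d360 d430 i518 i2464 i2610 i41 d1846 (k8 d379 d43 d2836 d2942 i264 i1383 d411 i844 (k4 d2418 i1306 d1835 d98 (k2 i1327 d481 k0))))) (by decide +kernel)
def d2969 : PP 8 4 T 0x1100000000000000000000000000000000000000004000401000010000004000004 := rS 0x1659e8f32304ee215283e2ea35a8783aa7788407b0d5b2bd62fc0584da609279c4a2b30a8b1925d5081caa1621010be4c4696c028a (k8 d2803 d2182 d2805 d2804 d2180 d2967 d430 d2957 (k8 i518 i2464 i519 i820 i2335 i2410 d2951 d2952 (k8 i553 i527 d70 i789 i1264 d0 i1882 i557 (k8 d442 d455 d347 d2314 d352 i1784 d2829 d393 (k8 i1913 i722 d479 i2890 d789 d2968 d2960 d2873 (k8 d2418 i711 i1306 d2885 d443 i1028 d652 d2937 k0)))))) (by decide +kernel)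
def d2970 : PP 8 4 T 0x11000000000000000000000000010141000501044000000001000000200024020060 := rS 0xb63da9c6c71 (k4 d70 i524 i1913 d464 (k2 d1552 i722 k0)) (by decide +kernel)
def d2971 : PP 8 4 T 0x8001100000000000000000000000000001000500000004000801080000200004000004 := rS 0xb4559f586c17203cfe6d529a48e58339dd729d478cc2671129d456cb0fa5526c508a5e28a9378648a1c05059a70d3c97542074c9cc0815450049841 (k8 d2181 d2180 d2182 d2803 d2952 d430 i837 i1939 (k8 i519 i820 i2335 i1853 d74 d0 i518 d2425 (k8 i558 i41 i228 i1232 d989 d1052 d407 d2970 (k8 d1850 d28 d350 i236 i2412 i2610 d1846 d1828 (k8 d70 i1882 d379 d380 d452 d43 d78 d86 (k8 d2836 i264 i1887 i1383 i555 i845 d2840 d1836 (k4 d382 d470 i1233 d2852 (k2 i2044 i883 k0)))))))) (by decide +kernel)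
def d2972 : PP 8 4 T 0x1100000000000000000000004000000000000000004000001000010000004000004 := rS 0xb961d09c8ad239a4cc6547160dab509b24eacb4aa4d8aaea2a68f6715b89c226f0e434f2990a87d42b358a5e280a039cda61922aa5fa771083e2e5240c49065d4897c58550b108088a26004b641 (k8 d2181 d2805 d2182 d2180 d2803 d430 d2957 i518 (k8 i2464 d2951 d2967 i914 i2335 d1202 d418 d46 (k8 d2969 d2971 d2960 d2418 i711 d22 d989 i41 (k8 i228 d0 i837 i519 d2425 d1052 d407 i1885 (k8 i553 i820 i236 d2952 i1939 i1853 d74 i558 (k8 i1232 d2970 d1126 d2253 d70 i713 i2045 d56 (k8 d414 d1850 d28 d350 i2412 d1846 i2410 i1882 (k8 i883 i593 d2965 d652 d443 i875 i1888 i265 (k4 i1621 d1836 d436 d470 (k2 d99 d2886 k0)))))))))) (by decide +kernel)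
def d2973 : PP 8 4 T 0x1100000000000000000000000000000000000000004000001000010000004000004 := rS 0xbd3527cda5888b0ccce43291cd2aa1083e2e9a5b9ed8e277831422b14ba54df140f870150d2921502298920d0e912f9e4aa2b0ca84ba166495c4a45210540e993984d5204699c4122c4516c9801 (k8 d2182 d2180 d2805 d2803 d2951 i1264 d70 d0 (k8 d430 d989 i1882 i837 i1939 i519 d2952 d2957 (k8 i41 d1828 d1829 i2410 i518 i2335 i820 i228 (k8 i2610 i2464 i1853 d2967 i914 d1017 d1202 d418 (k8 d2571 d46 d53 d2969 d74 d2425 i558 i236 (k8 d1052 i1232 d350 d407 i1885 d2970 d1850 d371 (k8 d1126 d351 i713 d2253 i2045 d2971 d2960 d2418 (k8 d2972 i1662 i1656 i1659 d1836 d354 d470 d505 (k4 d438 i2380 i1713 d1837 (k2 i1418 i586 k0)))))))))) (by decide +kernel)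
def d2974 : PP 8 4 T 0x1000000000000000014002000000000000000001108800001400000200004004004 := rS 0xa2a6d04b34325d7e6a638f59a1109c556299578102a422281a328a20930028d (k8 d2804 d2182 d2180 d2181 d2803 d2806 i1237 i2345 (k8 d434 i2374 d430 i2338 i1938 i1355 d3 i1882 (k8 i2342 i891 d1361 d1864 d1837 i1456 i1243 i630 (k4 i634 i933 i1445 d457 (k1 d466 k0))))) (by decide +kernel)
def d2975 : PP 8 4 T 0x8001100000000000000000000000000000000000000008000001000000200004000004 := rS 0x31cd6115fac9065f5a25586c518b901e6d3491d26673bae53a8f1984c9eb10f82c5eaf3a974a2153f9f56e81861bc8445389cca60602454b68a26004828d (k8 d2804 d2181 d2182 d2180 d2803 d2805 d3 d430 (k8 i1237 i2336 i836 d70 i2345 d434 d613 d383 (k8 d465 d352 d394 d353 i2374 i2333 i2335 d1846 (k8 i2338 i15 i534 i2844 i1355 i789 i1882 d379 (k8 d380 d452 d43 d78 d86 d480 i264 i1887 (k8 i555 d2958 d1836 d39 d75 d470 i978 d205 (k8 d2974 d1202 d341 i1455 i2343 i634 d1864 d1837 k0))))))) (by decide +kernel)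
def d2976 : PP 8 4 T 0x1100000000000000000000000000000000000000008810001400000200004000004 := rS 0xceb8342558631721dc420f628442ab547c5cea93649b594550b064fa4f3fc30de713994e2a510215c8445558195a8d451049801 (k8 d2182 d2180 d2181 d2803 d2804 i2826 i1237 d1845 (k8 i2345 d434 d1829 d430 i2333 d3 i2336 i836 (k8 d70 d613 d383 d353 i789 d394 i228 d427 (k8 i2464 d2310 i2381 i2410 i1367 d1846 d2975 i874 (k8 d1114 i2374 i2342 d1850 d2960 d2418 i711 d1836 (k4 d39 d470 i978 d2835 (k2 d205 i1624 (k1 i1406 k0)))))))) (by decide +kernel)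
def d2977 : PP 8 4 T 0x1100000000000000000000000000000000000000000800001000010000004000004 := rS 0x955c8c8c84649ad5948f2ca249e6156aacea57649442a7f3ec30de713994e2a771083e2e422a858324503188580426004828a (k8 d2803 d2181 d2182 d2180 d430 d2951 d2973 i1237 (k8 i2345 i228 d427 i2464 d434 d2975 d2960 d2418 (k8 i711 d3 i2336 i836 d70 d613 d383 d394 (k8 d353 i2374 i2333 i2410 d1829 d1846 d1845 i2826 (k8 i74 i789 i68 d2966 i874 d2310 d1114 i1367 (k4 d2976 i265 i264 i1026 (k2 i1672 i2044 k0))))))) (by decide +kernel)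
def d2978 : PP 8 4 T 0x1100000000000000000000000000000000000000000000001000010000004000004 := rS 0x1854e3591cd2c5331958e11471b564582f9dc420f8ba056f0c2a854de512e8588419399155e53032c59f153113ce22c0204d144c2d9051a01 (k8 d2182 d2804 d2181 d2805 d2180 d2803 i1882 d430 (k8 d2951 d70 i789 d2973 d3 d602 i1355 i1237 (k8 i2336 i2338 i2345 i836 i228 d434 d427 i2335 (k8 i2333 d613 i2374 i2464 d383 d352 d465 d2975 (k8 d2960 d2418 i711 d2977 d2937 d341 i2380 d652 (k8 i2343 d880 d443 i875 d1850 i1888 i265 d597 (k2 d467 d1837 (k1 d433 k0)))))))) (by decide +kernel)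
def d2979 : PP 8 4 T 0x1000000000000000000000100000000000000000004800401000000000084000004 := rS 0x87e4343a51598554207278583204059088aaf20a289801 (k8 d2182 d2180 d2803 d2181 i589 i2375 d434 i557 (k8 d430 i228 d427 i2463 i519 i820 i2374 i553 (k4 i527 i45 d476 d399 (k2 d2879 d413 k0)))) (by decide +kernel)
def d2980 : PP 8 4 T 0x8011200000000000000000000001000000000000014004000441000000000004000000 := rS 0x25228fc649cca24c (k8 d2180 i527 i837 d370 d399 d383 d2358 d350 k0) (by decide +kernel)
def d2981 : PP 8 4 T 0x400000000000000401000000001000001000002400000000001040000000000041000000001404150440 := rS 0x1f8a704b4d761c430814911 (k8 d349 d1261 d410 d97 i727 i1683 d42 i1261 (k2 i368 d442 (k1 d2859 k0))) (by decide +kernel)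
def d2982 : PP 8 4 T 0x8401200000000000001000000001000000000000114004000441000000001004150440 := rS 0xc3154a3f56a7d3fc30cacb2aa3cb27359ae4ee932bb969e8511b098a69639acda670791d144c (k8 d2180 d2803 d81 d5 d86 i555 d366 d1864 (k8 d431 d1850 d1837 i251 i1867 d433 d470 i529 (k8 d480 d78 d43 i553 i837 d92 i874 d474 (k8 d54 d47 d2980 d353 d394 d2981 d1154 i2044 (k2 d350 i1018 (k1 d450 k0)))))) (by decide +kernel)
def d2983 : PP 8 4 T 0x8001200000000000000000000000000000000000000004800401000000100004040020 := rS 0x2956ac10e1fcc3153802d52ad65acc5e0719a4e264f3785832e5a788d9a593aa1584c534b1c2a11359b4ce0f23894844548228824c (k8 d2180 d2181 d2803 i552 i2375 d434 d1828 d81 (k8 d5 d86 i555 d366 i2342 i2374 d1864 d431 (k8 d1850 d1837 i1867 i1174 d92 i890 i251 d433 (k8 d470 i228 d427 i968 i2463 d10 d480 d379 (k8 i519 i316 i553 d54 d12 d989 i557 d2982 (k8 d361 i1279 i2467 i709 d1331 d2981 i1381 d2292 k0)))))) (by decide +kernel)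
def d2984 : PP 8 4 T 0x8001000000000000000008001000000000400000004004800801000000000004000404 := rS 0x7f3ea0976ae53875a4b35c9dd26155081cea8512909209558a5c12898a434e2160c914e604009311441 (k8 d2181 d2803 d2180 d2182 d430 i837 i2375 i228 (k8 d427 i2466 d74 d383 d83 i262 d407 i1885 (k8 d350 i552 d434 d1828 i1867 i1174 i519 i820 (k8 i2374 d480 d78 d43 i553 d2425 i716 d359 (k4 d2879 i1944 i590 i1442 (k2 i926 i2044 k0)))))) (by decide +kernel)
def d2985 : PP 8 4 T 0x8001200000000000000000000000000000000000000004800001000000100004000004 := rS 0xa229906c1a19f9767d40a9438d30525628b538c34a47511a147ac263bc18a6f508544a16210659ab7480448b13099ac1e6923a3cb2735981c08b93ba4cda6745104024c (k8 d2180 d2182 d2181 d2803 d86 i555 d480 d78 (k8 d43 d430 i519 i553 i837 d92 i874 d81 (k8 d431 d5 d366 i1882 d10 i2375 i2342 i552 (k8 i853 i890 i228 d434 d427 d1828 i2374 i820 (k8 i968 d1850 d371 d1864 d1837 d23 i1867 i251 (k8 i1174 d2983 d74 i2466 i882 d383 d350 d2984 (k8 d50 i558 i361 i1235 i1234 i1945 i2044 d100 (k4 i1516 i926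 d715 d357 (k1 d377 k0))))))))) (by decide +kernel)
def d2986 : PP 8 4 T 0x1000000000000002000000000200000000000000000000001000000001044054000 := rS 0x46e5 (k2 d60 i248 (k1 d1527 k0)) (by decide +kernel)
def d2987 : PP 8 4 T 0x8001000000000000000000004400100000000000010010400501000011400004200540 := rS 0xc14ab48c0fd582bc66b949a06245d448602e4327a28b64c (k8 d2180 d2805 d2803 i789 i2374 i707 d427 i231 (k8 i2354 d418 d46 d480 d43 d379 i587 d341 (k4 d455 i1886 d442 i1018 (k2 d384 d253 k0)))) (by decide +kernel)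
def d2988 : PP 8 4 T 0x8021000000000000000000000000000000000000010004000401000010100004200004 := rS 0xa3608f95cb14ba5628d305295761f5b84ca2b31781c66b949844120418b15988736994ae672a964be5d35894880f820e912180b90c9e5b451308201 (k8 d2182 d2181 d2180 d2803 d2805 i789 i2374 i707 (k8 d427 i231 i550 d2978 d5 d434 i346 d366 (k8 i2354 d2985 d92 d474 d86 i529 d47 i555 (k8 d1853 d1170 i1792 i1159 d430 i2105 i136 d480 (k8 d43 d379 i519 i316 i553 i527 i1882 d352 (k8 d476 i1948 d2986 d2987 d50 d417 d231 d407 (k4 i1885 d2314 i588 i1426 (k2 i407 i2033 k0)))))))) (by decide +kernel)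
def d2989 : PP 8 4 T 0x8001000000000000000000000000000000000000010004000401000010100004200004 := rS 0x11b9546743f3062a9405aacdcfc8693d52c9569445e07048602e0418b15988736994ae672a964be5d35894884307c10744c45104b601 (k8 d2182 d2805 d2181 d2803 d2180 i550 d2978 d5 (k8 i2374 d434 i346 d366 i2354 d2985 d92 d474 (k8 d86 i529 d47 i555 d1853 d1170 i1792 i1159 (k8 d430 i707 d427 i2105 i519 i316 i527 d12 (k8 d370 d989 i789 d2988 d399 d2980 d72 d388 (k8 d2358 d350 i1517 i1058 i1057 d1639 d143 i1663 (k1 d124 k0))))))) (by decide +kernel)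
def d2990 : PP 8 4 T 0x1001000000000000000000004001000000000000000005500001000000000004000000 := rS 0x9e4c (k2 d2180 i790 (k1 d2815 k0)) (by decide +kernel)
def d2991 : PP 8 4 T 0x8001000000000000000000000000000000000000000004000401000010100004200004 := rS 0x1481f44a54c0b78a9c062096289430cc2205d0e3a219742213549ac1e652a965322f020ccae6d3397e085b451049801 (k8 d2182 d2180 d2181 d2803 d2805 d2978 d2985 d86 (k8 i555 i529 d379 d430 i316 i1939 d92 d474 (k8 d47 d5 d366 d989 i1882 i136 i2354 i2374 (k8 i550 d1853 i707 d434 d1170 d427 i346 i1792 (k8 i2105 i1159 d2989 d361 i802 d2990 i1018 i1277 (k2 i2838 d2156 (k1 d2986 k0))))))) (by decide +kernel)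
def d2992 : PP 8 4 T 0x1000000000000000000000000000020000000000014000001000000100004150020 := rS 0x3f012a730c555299598bc0e8a (k8 d2803 i519 i316 i553 i1939 d989 d350 i1018 (k4 d2837 i263 d450 d2859 k0)) (by decide +kernel)
def d2993 : PP 8 4 T 0x21001000000000000000000000000000000000000004000041040000100004110404 := rS 0x9b1c9e2265c8a82430440ba64a22f038ec08371facc56f0099bd424c2d9051401 (k8 d2182 d2803 d2181 d2805 d2180 d472 d356 i1882 (k8 d371 d79 i553 d197 d2251 d430 i392 i519 (k8 i316 i527 i1939 i707 d434 d427 i223 d2891 (k4 d2534 d368 i532 d659 (k2 i1073 d1283 k0))))) (by decide +kernel)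
def d2994 : PP 8 4 T 0x8001200000000000000000000000000000000000000004000441000000100004110404 := rS 0x108969c50ba4250c31fa95158fde01354b24ca515981c085f2d805144c (k8 d2180 d2803 d2182 d2805 d2985 d430 i519 i553 (k8 i527 d47 d370 d989 i1882 d371 d197 d79 (k8 d2992 d2358 d399 d472 d2993 i2335 d2871 d1682 (k2 d83 d442 (k1 i262 k0))))) (by decide +kernel)
def d2995 : PP 8 4 T 0x8001200000000000000000000000000000000000010004000401000000100004020004 := rS 0x5ba061897891e4de838a1742c420c9ec8a3654810e6994897c9e5b451049801 (k8 d2182 d2180 d2181 d2803 d2805 i789 d2985 i914 (k8 i1939 i837 d430 d989 i524 i2347 d464 i228 (k8 d434 d427 i2335 d2871 d1202 i968 i1853 d418 (k4 d407 d2980 d46 d352 (k1 d1523 k0))))) (by decide +kernel)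
def d2996 : PP 8 4 T 0x1000000000000000008000000000000000000000450511001000000001004054000 := rS 0x19823438a4ae6d7296d144c (k8 d2180 d2803 d2805 d470 i555 i529 d2571 d1853 (k2 i250 d1170 (k1 d1527 k0))) (by decide +kernel)
def d2997 : PP 8 4 T 0x8001200000000000000000000000000000000000010004000401000000100004100004 := rS 0x5eafe8745572a936395ab34f1132e2c52e253e9bcfebb8a112194f52a2486d304bf5843d052558e3f780dd8a112784d526b07b255a65659548e594c945662f0395cda672f8ec084c2da288201 (k8 d2182 d2181 d2803 d2805 d2180 d430 i392 d2985 (k8 d86 i555 i529 i519 i316 i553 i527 i1939 (k8 d92 d81 d474 d54 d47 d12 d370 d5 (k8 d366 d989 i1882 i789 d2995 d1850 d2251 d371 (k8 d197 d1864 d2992 d2994 d23 d1842 d2358 i88 (k8 d50 i557 i277 i361 d433 d399 d434 d417 (k8 i1945 d353 d356 d394 i346 d407 i1885 d2996 (k8 d368 i532 i1970 d1783 d659 i1073 i2037 d2393 (k4 d1926 d458 i1721 i1986 (k1 d87 k0)))))))))) (by decide +kernel)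
def d2998 : PP 8 4 T 0x8001000000000000000000000000000000000000000004000401000010100004000004 := rS 0x4ba6c72783dc4d02892e18184fd638dd8a09128fc7a110c1102e4353c54e03b0a84d526b07994aa472ca65662f03810da672fc10985b259051401 (k8 d2182 d2803 d2181 d2179 d2805 d2180 d2978 d2985 (k8 d86 i555 d430 i519 i316 i553 i1939 d92 (k8 d81 d474 d47 d5 d366 d989 i1882 d2991 (k8 i392 d2997 d361 d2837 d2871 i707 d434 d427 (k8 i2347 d1889 d1887 i346 i2105 d1850 d2251 d1864 (k8 d2859 d1842 d450 d2996 i1277 i2839 d368 i1892 (k4 i532 d659 i1448 i1855 (k1 i2034 k0)))))))) (by decide +kernel)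
def d2999 : PP 8 4 T 0x8001200000000000000000000400000000000000010000400801000010500004200000 := rS 0x5116c3f3f2892a3152b4d823d44aec42c5050943c1866204881743c4986a71d10cbaf13583cca5519ae526573699d6a592da28824c (k8 d2180 d2181 d2803 d2805 d92 i882 d86 i555 (k8 i529 d480 d43 d379 d474 d47 d5 d366 (k8 d35 i2354 i2374 i550 i331 i369 d418 d1853 (k8 i707 d434 d46 d1170 d427 i565 i346 i564 (k8 i1792 i730 i1949 i231 i1307 i1306 d50 i361 (k8 i1159 d231 i2033 i241 i407 i848 d365 d424 k0)))))) (by decide +kernel)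
def d3000 : PP 8 4 T 0x1200000000000000000000000000100000000010040400901040400500004140000 := rS 0x14e9b1cadcf1134b97228c269b1c6ec5448284a3f1ea8422180e9102e6b07994aa472c9b61a832616c828a (k8 d2803 d2181 d2805 d2180 i921 d74 i555 d92 (k8 d81 d474 d47 d5 d366 i707 d434 i715 (k8 d427 i2347 i309 d1889 d1887 i346 i564 i231 (k8 d1850 d2251 d1864 d50 d1842 d417 d2996 d407 (k4 d368 i532 i1931 d659 (k2 i1074 d250 (k1 i2034 k0))))))) (by decide +kernel)
def d3001 : PP 8 4 T 0x1200000000000000010000000000000000000000040500001000000001004150000 := rS 0x186c73583cca5523964da8a (k8 d2803 i555 d92 d81 d474 d47 d5 d366 (k2 d1864 d2996 (k1 d1842 k0))) (by decide +kernel)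
def d3002 : PP 8 4 T 0x8001000000000000000000000000000000000000000004000001000010100004000004 := rS 0x156a55f50d82a3692f416ae1ed156c7b538d986105db169e0958a0598894bc48f2878a284ba1612908761541ad4e2fd29244be13549ac1ead32b2caa472cc10e69928acc5e070215cda674516c9801 (k8 d2182 d2180 d2805 d2803 d86 i555 i529 d430 (k8 i519 i316 i553 i527 i1939 i837 d2978 d92 (k8 d81 d474 d54 d47 d12 d5 d366 d989 (k8 i1882 d2985 i914 d2998 d22 i798 i882 i921 (k8 d2999 i392 d3000 d1828 i518 i2335 i820 d2871 (k8 d1017 i1853 d418 d407 d83 d1170 d46 i1885 (k8 i262 d73 i1792 i1949 d3001 d1838 i524 i1913 (k8 d464 d1523 d424 i1784 d414 i563 i1986 d2425 (k4 d170 d384 d1648 d332 (k2 i1452 i1721 (k1 d1835 k0))))))))))) (by decide +kernel)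
def d3003 : PP 8 4 T 0x1000000000000000500010010000000000000000154810401400004200004004004 := rS 0x22a946102d8a4208915322f03810da158c9051401 (k8 d2182 d2803 d2181 d2806 d2952 i555 d430 i519 (k8 i316 i1939 i2375 i2342 d434 d1850 i557 d2835 (k2 d2301 d350 (k1 d1785 k0)))) (by decide +kernel)
def d3004 : PP 8 4 T 0x8001200000000000000000000001000000000000000004000001040000200004000000 := rS 0x3f12a180bb24a24c (k8 d2180 i527 d370 i707 d427 i2715 d2399 d2358 k0) (by decide +kernel)
def d3005 : PP 8 4 T 0x8001200000000000000000000000000000000000000004000401000000200004000004 := rS 0x862d8deaf58a0528fc8902cbe0f64ab4cacb3491cb2515981c66b93393ce2162e90952042d804988a (k8 d2803 d2180 d2182 d2805 d430 d989 d3004 i2335 (k8 i518 d70 i789 d86 d43 d379 i519 i553 (k8 i527 d92 d81 d431 d54 d47 d12 d370 (k8 d5 d3003 i557 d418 d1050 d2301 d46 d455 (k4 d347 i2644 d341 d2980 (k1 d352 k0)))))) (by decide +kernel)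
def d3006 : PP 8 4 T 0x11000000000000040000011100110014000000415104810001400000001024104004 := rS 0x5114c8360d0cfc7d3a88d768540b087ac566add2011898111e7359a289801 (k8 d2182 d2180 d2803 i553 i837 i874 d430 d10 (k8 i2342 i552 i853 i890 d1850 d1361 d2835 i1235 (k8 i1867 i1945 i251 i1174 i1234 i2044 d100 i1516 (k4 i926 d715 d357 d377 k0)))) (by decide +kernel)
def d3007 : PP 8 4 T 0x8001000000000000000000000000000000000000000004000001000010000004000004 := rS 0x8b1502cc8920d0e912fac4de974a872280a5ac34a4790ca84ba161291484a50a9c5a62c3695d26673bae426a93583cca692a91cb30439a640e042da289801 (k8 d2182 d2180 d2803 d2805 d430 i519 i1939 i837 (k8 d2978 d92 d81 d474 d431 d47 d5 d366 (k8 d989 i1882 d43 d78 d86 d480 i529 i555 (k8 d3002 d0 d70 d2952 i1383 d3004 i41 d1828 (k8 i518 i2335 i820 i228 i1853 d3005 d74 i882 (k8 d2425 d1052 i558 d350 d407 i1232 i1885 d3006 (k8 i914 d1017 d1202 d418 d1170 d46 i1792 d2970 (k1 d3001 k0)))))))) (by decide +kernel)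
def d3008 : PP 8 4 T 0x1000000000000000000000000000020000000000004000001000010100004200404 := rS 0x31198302b98582678aaa4d6c956994aa59178122e3a0c05c4a0f8221e245f2210cba5b451308201 (k8 d2182 d2181 d2180 d2803 d2805 i2354 i2374 d434 (k8 i2375 d418 d51 d2978 d5 i346 i707 d427 (k8 i550 d3007 d430 i316 d92 d474 d47 d12 (k8 d370 d366 d989 d350 i1674 i1518 i1018 i529 (k4 d1812 d1170 i1159 i1792 k0))))) (by decide +kernel)
def d3009 : PP 8 4 T 0x1001000000000000000000000000000000000000000004000441000011100004200404 := rS 0x334da574e27cea964d9bd610c5c24dfb435528d82a93583d5acb349548e8f2cc10a22f03c5c12180b8110e858917c88432ea54b68a263448201 (k8 d2182 d2181 d2807 d2180 d2803 d2805 d3008 i2354 (k8 i2374 d434 i2375 d418 d53 d51 d430 i707 (k8 d427 i2105 d3007 i519 i316 i527 d2978 d92 (k8 i874 d81 d474 d431 d54 d12 d5 d366 (k8 d989 d2291 d1639 d2779 d1648 d72 i1636 d391 (k8 d399 d2862 d356 i1298 i1885 i1065 i1189 i1410 (k4 i530 i556 i1910 i2039 k0))))))) (by decide +kernel)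
def d3010 : PP 8 4 T 0x1000000000004001200001000000000000000004401010000000000000000001001811000004000540 := rS 0x1fb4d44c1720cc1ead679ae328a (k8 d2803 d2806 d366 i1978 d12 d5 i399 d468 (k4 d382 d143 d375 d798 (k1 d365 k0))) (by decide +kernel)
def d3011 : PP 8 4 T 0x1200000000000000000000000002000000000000000000001000000000004200000 := rS 0x57669d4da6b349551e5943a16245f2210cba5b263451441 (k8 d2181 d2803 d2807 d2180 d2805 i2354 i2374 d434 (k8 i2375 d418 d53 d51 d92 i874 d474 d431 (k4 d366 i1643 i1591 i1910 (k2 i530 i2039 k0)))) (by decide +kernel)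
def d3012 : PP 8 4 T 0x1000000000000000000000000000000000000000004000441000011100004200404 := rS 0x28a3d5b2ad62fc4bc5026078b845e23a53acd425115824301702206245f2210cba9d822bd2a4c2da288201 (k8 d2182 d2181 d2803 d2805 d2180 d3008 i587 d2978 (k8 d3011 i2354 i2374 d434 i2375 d418 d46 d430 (k8 i707 d427 i2105 i386 i527 i309 i553 i331 (k8 i550 d35 i136 d3007 i519 i1882 d3009 d407 (k4 d2891 i1885 d72 d341 (k2 d718 d424 (k1 d3010 k0))))))) (by decide +kernel)
def d3013 : PP 8 4 T 0x1200000000000000000000000000000000000000000000001000002000004200000 := rS 0xcc2bb10ce6b32954b23a1283d0f122f910865d2da289841 (k8 d2181 d2180 d2803 d2805 i2354 i2374 d434 i2375 (k8 d418 d51 d5 i346 i550 d92 d474 d47 (k4 d366 d1820 i1159 i529 (k2 d1170 i1792 k0)))) (by decide +kernel)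
def d3014 : PP 8 4 T 0x1000000000000000000000000000000000000000004000401000010100004200404 := rS 0x1b59a57a71d9709b44a4da470303f49c95569a4aa59679ac5e07048602e0441acd0e858917c88432ea95c8318b8cd3b041d16c9719262288201 (k8 d2182 d2181 d2803 d2180 d2806 d2179 d2805 i550 (k8 d2978 d3011 i399 d3007 d3013 d468 d60 i2354 (k8 i2374 d434 i2375 d418 d53 d51 i553 d901 (k8 d430 i707 d427 i2105 i519 i316 d366 i1978 (k8 d92 d474 d431 d12 d3008 d3012 d395 i790 (k8 i789 d442 i1281 i1277 i1447 d787 i1408 d202 (k4 i1628 i810 d389 i2039 k0))))))) (by decide +kernel)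
def d3015 : PP 8 4 T 0x1000000000000000000000000000000000000000004000401000010100004200004 := rS 0x662d4ae6d3aafd70a35e8fa8aae5b9be184fa1ac4e2934ba56288969bf414a560b9062334ea150f122f91074432eaa4d255679ad1e5982145662f0245cb64c8ca288201 (k8 d2182 d2181 d2803 d2806 d2180 d2805 d3007 d430 (k8 i316 i553 i527 d2978 d92 i874 d366 i1978 (k8 d474 d431 d989 i2354 i2374 i550 d434 i2375 (k8 d418 d51 d53 d3011 i399 d3013 d468 d382 (k8 d60 d3014 d388 d50 i277 d417 d231 d407 (k8 d28 d361 i1885 d2370 i789 d399 d356 d352 (k8 d2314 d91 i588 i1986 d798 i2033 i1458 i1065 (k4 i594 i530 d1114 i2039 (k1 d332 k0))))))))) (by decide +kernel)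
def d3016 : PP 8 4 T 0x5001001000000000000041000000000016400000016004000401080010100004000000 := rS 0x2254a21882e16ae4199dcea314f274cc252b9fcfb0c39a29a24c (k8 d2180 d2807 d2803 i837 d383 d394 d2038 d1829 (k8 d1828 i555 i1643 i556 d1820 i1587 i918 i1711 (k8 d468 d1114 i2044 d422 d25 d60 i1403 d2625 k0))) (by decide +kernel)
def d3017 : PP 8 4 T 0x1001000000000000000000000000000000000000010004800401000010100004000004 := rS 0x16a751808d0a33a7b95846d609f5270c3f981faa75483d5a69679ad1e734cacc5e078bc4cba90669658ac723a54cb040989416422293cde160c854220400a289841 (k8 d2181 d2180 d2803 d2182 d430 i2342 d3015 d1172 (k8 d427 i968 i2463 i2375 d434 i557 d1828 i1882 (k8 d2978 d47 d2992 d81 d1864 d1850 d92 i890 (k8 i552 i143 d10 d3007 i519 i316 i553 i1939 (k8 i837 i874 d366 i1978 d431 d12 d5 d989 (k8 d2837 d2838 d450 d2038 d383 i1281 d394 d1331 (k8 d3016 d2835 d470 d433 i291 i1867 i251 d468 (k2 i1174 d2981 (k1 d1053 k0))))))))) (by decide +kernel)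
def d3018 : PP 8 4 T 0x1000000000000000040000004800014010000002005000001000010100004000404 := rS 0x17abfa1b0d44e4528cc62bb4f19a9e0464ab608b38bd151401 (k8 d2182 d2803 d377 d3007 i553 d2978 d12 d370 (k8 d430 d389 i555 i556 i1682 d1820 i1711 i368 (k4 d468 d2186 d470 d469 (k2 i1719 i1984 (k1 d87 k0))))) (by decide +kernel)
def d3019 : PP 8 4 T 0x2001000000000000000000000000000000000000000004800401000010100004000004 := rS 0xa33a8c10a9d19b95846d559854cfc04ac512934b83d5acb34954b2cf3581e2e905bacc32af62b1c8e9532c104a0b211147af00881026158ca280241 (k8 d2181 d2182 d2803 d2806 d3015 i1882 d430 i2342 (k8 d371 d23 i2375 d434 i557 d1828 d2978 d47 (k8 d2992 d81 d1864 d1850 i589 d1172 i553 i853 (k8 i552 d3007 i519 d366 i1978 d92 d474 d431 (k8 d54 d12 d5 d407 d28 d83 i1885 i262 (k8 d2844 d533 d396 d72 d3018 d2835 d470 i291 (k4 i1906 i1867 d468 i1174 (k2 i1652 d1059 k0)))))))) (by decide +kernel)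
def d3020 : PP 8 4 T 0x1000000000000000000000000000000000000000004800401000010100004000004 := rS 0x38181faa78a9bc9e0b0b10832112297552991781c0815261051401 (k8 d2182 d2803 d2181 d2180 d3015 d430 i519 i316 (k8 i1939 d989 i143 i2375 i2342 d1172 d434 d427 (k8 i557 i2463 i968 d3019 d2837 d2838 d450 d3017 (k1 i1279 k0)))) (by decide +kernel)
def d3021 : PP 8 4 T 0x1000000000000000000000000000020000000000014400001000000100004100004 := rS 0x8a43084540813209311401 (k8 d2182 d2803 d2180 d2181 i1882 d430 d350 d2992 (k2 d2871 i2347 (k1 d434 k0))) (by decide +kernel)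
def d3022 : PP 8 4 T 0x1001000000000000000000000000000000000000000004400441000000100004100404 := rS 0x21afd0484488435384d3251598bc0e0426104028a (k8 d2803 d2182 d2181 d2180 d430 i519 i316 i553 (k8 i527 i1939 i1882 d2837 d2871 d434 i2347 i223 (k2 d2859 d2993 (k1 d399 k0)))) (by decide +kernel)
def d3023 : PP 8 4 T 0x2001000000000000000000000000000000000000000004000401040010100004010404 := rS 0x19b95846d532acc2fc0c1102e6b07ab566078ba54be6549825120462b1c8f0415bc02615209311401 (k8 d2182 d2803 d2180 d2181 d3015 i1882 d371 d79 (k8 d2978 d81 d1864 d1850 d430 d83 i262 d28 (k8 d47 d3020 d3021 d3007 i519 i553 d12 d5 (k8 d366 i707 d434 d427 d2891 d396 d72 d2859 (k4 d3018 d1842 d470 i2112 (k1 d2496 k0)))))) (by decide +kernel)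
def d3024 : PP 8 4 T 0x1000000000000000000000000000000000000000004000441000010100004010404 := rS 0x1a50c7ea84ba42158f47ef009945660758a5c12898a17c2a042d805144c (k8 d2180 d2803 d2182 d2805 d430 d3015 d3020 d3022 (k8 d83 i262 d407 i1885 i519 i553 i527 i1882 (k8 d371 d197 d1361 d79 d3023 i2335 i820 d2829 (k2 d399 d442 (k1 d1682 k0))))) (by decide +kernel)
def d3025 : PP 8 4 T 0x1000000000000000000000000000000000000010004000401000010100004000404 := rS 0x1fb0d33ae56c744ed3d02cc891e4de832e95c2c420ca6cf6451b1b420934bc509e0464ab59647679ad1e5939a64a31748a54be1532c12325b451049801 (k8 d2182 d2180 d2181 d2803 d2805 d2806 d2978 d47 (k8 d3015 d3020 d3021 i914 d3007 i527 i1939 i837 (k8 d92 i874 d366 i1978 d81 d54 d12 d370 (k8 d430 i789 d3022 d407 d28 d3024 d1847 i524 (k8 i2347 d464 i994 i228 d434 d427 d1829 i2335 (k8 d1202 i968 i1853 d418 d776 d46 d73 i1910 (k4 d1107 i2045 d202 i1587 (k2 d352 d2300 (k1 d399 k0))))))))) (by decide +kernel)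
def d3026 : PP 8 4 T 0x1000000000000000000000000000000000000000004000401000010100004000404 := rS 0x25d5e9d362a97ec318ae286c163b1546094984430602205c9c438a9c0260f56b2cd247679ac5e070245d2a5f0a996088a689308201 (k8 d2182 d2181 d2180 d2807 d2803 d2978 d47 d3015 (k8 d3020 d3021 d3007 d430 i519 i316 d366 i1978 (k8 d81 d431 d54 d12 d5 i1882 d3025 d361 (k8 d2871 d3022 i707 d434 i790 d427 i2347 i1281 (k8 i2105 d1639 d1850 d1864 d1331 d1648 d391 i2718 (k8 d721 i1458 d2779 d1837 i1643 i594 i1410 d1064 k0)))))) (by decide +kernel)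
def d3027 : PP 8 4 T 0x1000000000000000040100080100014010000002000000001000011500004000000 := rS 0x51b0572335f2a93c8a (k8 d2803 i556 i593 i594 i1711 i1190 d1831 i1719 (k1 i2033 k0)) (by decide +kernel)
def d3028 : PP 8 4 T 0x1000000000000000000000000000000000000000004100401000010100004000004 := rS 0x2769e9f611b57a315719826cf35ace2e952f9954a2507a4d8ac723c116297279c62889548bc08b7138442ad30fa84884305146325b26104028a (k8 d2803 d2182 d2181 d2180 d2805 d2806 i527 d3026 (k8 i557 d434 i309 i237 d50 d3015 i2347 d1126 (k8 d2253 d430 i316 d989 i277 d417 d361 i789 (k8 d407 i1885 d2978 d81 d1864 d1850 d28 d5 (k8 i346 i361 d47 d3020 d3021 d3007 i553 d366 (k8 i1978 i1882 d3001 d2314 d1820 i1986 d3027 d1842 (k4 i1713 d433 i1906 d397 k0))))))) (by decide +kernel)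
def d3029 : PP 8 4 T 0x1000000000000000000000000000000000000000004000401000010100004000004 := rS 0x5515d4620338c13c9d19d3dcac236970ff0c27b1d8a710886228440ba95124369bf4141509aa41ead659548e59679ae0851178122e4c8c904028a (k8 d2803 d2182 d2181 d2806 d2180 d3007 d430 i316 (k8 i527 d2978 d366 i1978 d92 d81 d474 d54 (k8 d12 d5 d989 i1882 d3015 d3026 d388 d50 (k8 i557 i277 i361 i707 d434 d417 d427 i2347 (k8 d361 d1850 d1864 i789 d399 d353 d3028 i2356 (k8 d1842 d470 d433 i2112 i1906 d397 d468 i1713 (k4 i1042 i1652 i529 d106 (k1 d2400 k0)))))))) (by decide +kernel)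
def d3030 : PP 8 4 T 0x1000000000000000000000000000000000000000000000001000000000004800010 := rS 0x4c (k2 d2180 i708 k0) (by decide +kernel)
def d3031 : PP 8 4 T 0x1000000000000000000000000020000000000000000000001000000000004800000 := rS 0x4c (k2 d2180 i2574 k0) (by decide +kernel)
def d3032 : PP 8 4 T 0x1000000000000000000000000000000000000000000002001000000000004800000 := rS 0x4c (k2 d2180 i2464 k0) (by decide +kernel)
def d3033 : PP 8 4 T 0x1000000000000000000000000000000000000000000000081000000000004800000 := rS 0x4c (k2 d2180 i2463 k0) (by decide +kernel)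
def d3034 : PP 8 4 T 0x1000000000000000000000000000000000000000000000001040000000004800000 := rS 0x4c (k2 d2180 i707 k0) (by decide +kernel)
def d3035 : PP 8 4 T 0x1000000000000000000000000000000000000100000008001000000000004000000 := rS 0x4c (k2 d2180 i530 k0) (by decide +kernel)
def d3036 : PP 8 4 T 0x1000000000000000000000000001000000000000200000001000000000004000000 := rS 0x8a (k2 d2803 i1887 k0) (by decide +kernel)
def d3037 : PP 8 4 T 0x1000000000000000000000000000000000000000000000001200000000004000010 := rS 0x4c (k2 d2180 i525 k0) (by decide +kernel)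
def d3038 : PP 8 4 T 0x1000000000000000000000002000000000000000000000001200000000004000000 := rS 0x4c (k2 d2180 i2388 k0) (by decide +kernel)
def d3039 : PP 8 4 T 0x1000001000000040000001000480000000000000000500401080000000094020000 := rS 0x5b (k2 d2805 d789 k0) (by decide +kernel)
def d3040 : PP 8 4 T 0x1000000000000000000000000000000000000000000000001000080000004000008 := rS 0x8d (k2 d2804 i1004 k0) (by decide +kernel)
def d3041 : PP 8 4 T 0x1000000000000000000000002000000000000008000000001000000000004000000 := rS 0x4b (k2 d2179 i1055 k0) (by decide +kernel)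
def d3042 : PP 8 4 T 0x1000000000000000000000000000000000000000000000001140000000004000000 := rS 0x41 (k2 d2181 d434 k0) (by decide +kernel)
def d3043 : PP 8 4 T 0x1000000000000000000000000000000000001000000200001000000000004000000 := rS 0x4c (k2 d2180 i532 k0) (by decide +kernel)
def d3044 : PP 8 4 T 0x1000000000000000000000000000002000000000000400001000000000004000000 := rS 0x4c (k2 d2180 i914 k0) (by decide +kernel)
def d3045 : PP 8 4 T 0x401000000000000000000000000000000000000000000000001200200000004000000 := rS 0xb64c (k2 d2180 d2805 (k1 d659 k0)) (by decide +kernel)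
def d3046 : PP 8 4 T 0x401000000000000000000000000000000000000000000500001000000000004000000 := rS 0x5b (k2 d2805 d418 k0) (by decide +kernel)
def d3047 : PP 8 4 T 0x1000000000000000000000000000000000000000000000001200000000005000000 := rS 0x4c (k2 d2180 i526 k0) (by decide +kernel)
def d3048 : PP 8 4 T 0x1000000000000000000008000000000000000000000000081000000000004000000 := rS 0x4c (k2 d2180 i2548 k0) (by decide +kernel)
def d3049 : PP 8 4 T 0x1000000000000000000008200000000000000000000000001000000000004000000 := rS 0x5b (k2 d2805 i1823 k0) (by decide +kernel)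
def d3050 : PP 8 4 T 0x1000000000000000000008000000000000000000000000081000000000004000000 := rS 0x5b (k2 d2805 i761 k0) (by decide +kernel)
def d3051 : PP 8 4 T 0x1000000000000000000004540000000000100000000500541000000000004000000 := rS 0x5b (k2 d2805 d341 k0) (by decide +kernel)
def d3052 : PP 8 4 T 0x1000000000000001000000000000000005000001500515001000000000004000000 := rS 0x5b (k2 d2805 i2039 k0) (by decide +kernel)
def d3053 : PP 8 4 T 0x1000000000000004000028040000010400000001101515401000000000004000000 := rS 0x2325b (k2 d2805 d2806 (k1 d821 k0)) (by decide +kernel)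
def d3054 : PP 8 4 T 0x1000001000000000000000000000000000000000000000001000540000004000000 := rS 0x119 (k2 d2806 d426 k0) (by decide +kernel)
def d3055 : PP 8 4 T 0x400000000000004001000000000000004000000000005000000000000000000001000000000004000000 := rS 0x119 (k2 d2806 d397 k0) (by decide +kernel)
def d3056 : PP 8 4 T 0x1000000000000000000000000000000000000000000000001200000000004080000 := rS 0x5b (k2 d2805 i227 k0) (by decide +kernel)
def d3057 : PP 8 4 T 0x1000000000000000000000002000000000000000000000401000000000004000000 := rS 0x4c (k2 d2180 i574 k0) (by decide +kernel)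
def d3058 : PP 8 4 T 0x1000000000000000000000000000000800000000000010001000000000004000000 := rS 0x4c (k2 d2180 i874 k0) (by decide +kernel)
def d3059 : PP 8 4 T 0x400000000000000001000000000000004000020000001400000000000000000001000000000004000000 := rS 0x119 (k2 d2806 d202 k0) (by decide +kernel)
def d3060 : PP 8 4 T 0x1000000000000001000000000000000000000001400514001480000000004020000 := rS 0x5b (k2 d2805 d776 k0) (by decide +kernel)
def d3061 : PP 8 4 T 0x1400000000000001000000000000000000500000000000000010001400510801480000000004020000 := rS 0x5b (k2 d2805 d809 k0) (by decide +kernel)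
def d3062 : PP 8 4 T 0x1000000000000000000000000000000000000010000000081000000000004000000 := rS 0x4c (k2 d2180 i789 k0) (by decide +kernel)
def d3063 : PP 8 4 T 0x1000000000001001000000000000000000000000000540000000000000000001000000000004000000 := rS 0x119 (k2 d2806 d466 k0) (by decide +kernel)
def d3064 : PP 8 4 T 0x1000000000000000000000000000000000000000000000001000000000004000014 := rS 0x1 (k2 d2182 d430 k0) (by decide +kernel)
def d3065 : PP 8 4 T 0x1000000000000000000000000000000000000000000000201000000000004000800 := rS 0x4c (k2 d2180 i2348 k0) (by decide +kernel)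
def d3066 : PP 8 4 T 0x1000000000000000000000800000000000000000000000001000000000004000800 := rS 0x8a (k2 d2803 i2376 k0) (by decide +kernel)
def d3067 : PP 8 4 T 0x1000000000000000000000000000000000000000000000001200000000004000080 := rS 0x4c (k2 d2180 i2345 k0) (by decide +kernel)
def d3068 : PP 8 4 T 0x1000000000000000000000000000000000000000000000081000000000004000080 := rS 0x41 (k2 d2181 i1222 k0) (by decide +kernel)
def d3069 : PP 8 4 T 0x1000000000000008000000000000000000000000040000001000000000004000000 := rS 0x8a (k2 d2803 i1979 k0) (by decide +kernel)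
def d3070 : PP 8 4 T 0x1000000000000008000000000000000000000000400000001000000000004000000 := rS 0x8a (k2 d2803 i1978 k0) (by decide +kernel)
def d3071 : PP 8 4 T 0x1000000000000000000000800000000000000000000200001000000000004000000 := rS 0x4c (k2 d2180 i2355 k0) (by decide +kernel)
def d3072 : PP 8 4 T 0x1000000000000000000000000000000000000000000200001000000000004200000 := rS 0x4c (k2 d2180 i2354 k0) (by decide +kernel)
def d3073 : PP 8 4 T 0x1000000000000000000000000000000000000002000200001000000000004000000 := rS 0x4c (k2 d2180 i2356 k0) (by decide +kernel)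
def d3074 : PP 8 4 T 0x1000000000000000000000000000000000000000000200001080000000004000000 := rS 0x4c (k2 d2180 d608 k0) (by decide +kernel)
def d3075 : PP 8 4 T 0x1000000000000000000000200000040000000000000000001000000000004000000 := rS 0x8a (k2 d2803 i1885 k0) (by decide +kernel)
def d3076 : PP 8 4 T 0x1000000000000000000000200000000000000000008000001000000000004000000 := rS 0x8d (k2 d2804 i1355 k0) (by decide +kernel)
def d3077 : PP 8 4 T 0x1000000000000000000000200000000000000000000000001000080000004000000 := rS 0x8a (k2 d2803 i3048 k0) (by decide +kernel)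
def d3078 : PP 8 4 T 0x1000000000000000000000000000000000000000000000001000000000004200010 := rS 0x8a (k2 d2803 i549 k0) (by decide +kernel)
def d3079 : PP 8 4 T 0x1000000000000000000000000000000000000000000000001000000000004200008 := rS 0x8d (k2 d2804 i380 k0) (by decide +kernel)
def d3080 : PP 8 4 T 0x1000000000000000000000000000000000000000000000001080000000004200000 := rS 0x8a (k2 d2803 i2374 k0) (by decide +kernel)
def d3081 : PP 8 4 T 0x1000000000000000000000000000000000000000000000001000400000004200000 := rS 0x8a (k2 d2803 i550 k0) (by decide +kernel)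
def d3082 : PP 8 4 T 0x1000000000000000000000000000000000000000010002001000000000004000000 := rS 0x4c (k2 d2180 i792 k0) (by decide +kernel)
def d3083 : PP 8 4 T 0x1000000000000000000000000000000000000000000002001080004000004004008 := rS 0x4c (k2 d2180 d641 k0) (by decide +kernel)
def d3084 : PP 8 4 T 0x1000000000000000000000000000200000000000002000001000000000004000000 := rS 0x8d (k2 d2804 i1020 k0) (by decide +kernel)
def d3085 : PP 8 4 T 0x1000000000000000200000008000000000000000000000001000000000004000000 := rS 0x4c (k2 d2180 i2393 k0) (by decide +kernel)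
def d3086 : PP 8 4 T 0x1000000000000000000000000000000000000044008500101000000140006100400 := rS 0x8a (k2 d2803 d638 k0) (by decide +kernel)
def d3087 : PP 8 4 T 0x1000000000000000000000000000000000000002020000001000000000004000000 := rS 0x8d (k2 d2804 i1700 k0) (by decide +kernel)
def d3088 : PP 8 4 T 0x1000000000000000000000000000000000000000280000001000000000004000000 := rS 0x8d (k2 d2804 i1624 k0) (by decide +kernel)
def d3089 : PP 8 4 T 0x1000000000000000000000000000000000000000004000201000000000004000000 := rS 0x4c (k2 d2180 i527 k0) (by decide +kernel)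
def d3090 : PP 8 4 T 0x1000000000000000000000080000000000000000000000201000000000004000000 := rS 0x4c (k2 d2180 i2350 k0) (by decide +kernel)
def d3091 : PP 8 4 T 0x1000000000000000000000008000000000000000000000201000000000004000000 := rS 0x4c (k2 d2180 i2349 k0) (by decide +kernel)
def d3092 : PP 8 4 T 0x1000000000000000000000000000200000000000004000001000000000004000000 := rS 0x8a (k2 d2803 i1939 k0) (by decide +kernel)
def d3093 : PP 8 4 T 0x1000000000000000000000040000200000000000000000001000000000004000000 := rS 0x8a (k2 d2803 i1938 k0) (by decide +kernel)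
def d3094 : PP 8 4 T 0x1000000000000000000000000000000000002000000100001000000000004000000 := rS 0x8a (k2 d2803 i1853 k0) (by decide +kernel)
def d3095 : PP 8 4 T 0x1000000000000000000000000000000000000000000800001200000000004000000 := rS 0x8a (k2 d2803 i2375 k0) (by decide +kernel)
def d3096 : PP 8 4 T 0x1001000000000000000000140000000000000020000800001000000000004000000 := rS 0x8a (k2 d2803 d604 k0) (by decide +kernel)
def d3097 : PP 8 4 T 0x1000000000000000000000000000001000000000000800001000000000004000000 := rS 0x8a (k2 d2803 i552 k0) (by decide +kernel)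
def d3098 : PP 8 4 T 0x1000000000000002000000000000002000000000000000001000000000004000000 := rS 0x4c (k2 d2180 i2606 k0) (by decide +kernel)
def d3099 : PP 8 4 T 0x1000000000000000000002000000000000000080000000001000000000004000000 := rS 0x4c (k2 d2180 i2601 k0) (by decide +kernel)
def d3100 : PP 8 4 T 0x1000000000000000000000000000000000000080000000401000000000004000000 := rS 0x4c (k2 d2180 i836 k0) (by decide +kernel)
def d3101 : PP 8 4 T 0x1000000000000000000000000000000000000080004000001000000000004000000 := rS 0x4c (k2 d2180 i837 k0) (by decide +kernel)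
def d3102 : PP 8 4 T 0x1000000000000000000000000000000000000000000000001200000000004020000 := rS 0x4c (k2 d2180 i2347 k0) (by decide +kernel)
def d3103 : PP 8 4 T 0x1000000000000000000000000000000000000000000000001000200000004020000 := rS 0x1 (k2 d2182 i1874 k0) (by decide +kernel)
def d3104 : PP 8 4 T 0x1000000000000000000000808000000000000000000000001000000000004000000 := rS 0x8a (k2 d2803 i2378 k0) (by decide +kernel)
def d3105 : PP 8 4 T 0x1000000000000000000000800000000000000000000000801000000000004000000 := rS 0x8a (k2 d2803 i2377 k0) (by decide +kernel)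
def d3106 : PP 8 4 T 0x1000000000000000000000800000000000000000004000001000000000004000000 := rS 0x8a (k2 d2803 i553 k0) (by decide +kernel)
def d3107 : PP 8 4 T 0x1000000000000000000000800000400000000000000000001000000000004000000 := rS 0x8a (k2 d2803 i554 k0) (by decide +kernel)
def d3108 : PP 8 4 T 0x1000000000000000000000000000000000000000000000001000100000004080000 := rS 0x8a (k2 d2803 i1881 k0) (by decide +kernel)
def d3109 : PP 8 4 T 0x1000000000000000000000000000000000000000000000001000000000004080020 := rS 0x8d (k2 d2804 i267 k0) (by decide +kernel)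
def d3110 : PP 8 4 T 0x1000000000000000000000000000000000000000000000001000000000004080004 := rS 0x8a (k2 d2803 i1882 k0) (by decide +kernel)
def d3111 : PP 8 4 T 0x1000000000000000000000000000000000000000000000001000080000004000010 := rS 0x8a (k2 d2803 i1774 k0) (by decide +kernel)
def d3112 : PP 8 4 T 0x1000000000000000000000000000000000000002000000001000000000004008000 := rS 0x8a (k2 d2803 i2379 k0) (by decide +kernel)
def d3113 : PP 8 4 T 0x1000000000000000000000000004000000000002000000001000000000004000000 := rS 0x8a (k2 d2803 i556 k0) (by decide +kernel)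
def d3114 : PP 8 4 T 0x1000000000000000000000000000000000000002040000001000000000004000000 := rS 0x8a (k2 d2803 i555 k0) (by decide +kernel)
def d3115 : PP 8 4 T 0x1000000000000000000000000000000000000000210000001000000000004000000 := rS 0x8a (k2 d2803 i1888 k0) (by decide +kernel)
def d3116 : PP 8 4 T 0x1000000000000000000000000000000000000000001000081000000000004000000 := rS 0x4c (k2 d2180 i790 k0) (by decide +kernel)
def d3117 : PP 8 4 T 0x1000000000000000000000000000000000000000040008001000000000004000000 := rS 0x4c (k2 d2180 i529 k0) (by decide +kernel)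
def d3118 : PP 8 4 T 0x1000000000000000000000000000000000000002000020001000000000004000000 := rS 0x8a (k2 d2803 i2380 k0) (by decide +kernel)
def d3119 : PP 8 4 T 0x1000000000000002000000000000000000000000200000001000000000004000000 := rS 0x5b (k2 d2805 i1830 k0) (by decide +kernel)
def d3120 : PP 8 4 T 0x1000000000000000400001010000010000010000008015501000000000004000000 := rS 0x4c (k2 d2180 d1056 k0) (by decide +kernel)
def d3121 : PP 8 4 T 0x4001000000000000000000000000000000400000000500515001080020000006110000 := rS 0x1145b (k2 d2805 d2803 (k1 d1101 k0)) (by decide +kernel)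
def d3122 : PP 8 4 T 0x1000000000000000000000000000000000000000000000001000000008004110000 := rS 0x5b (k2 d2805 d1126 k0) (by decide +kernel)
def d3123 : PP 8 4 T 0x1000000000000001000000000000000004000000450515001000000000004000000 := rS 0x1145b (k2 d2805 d2803 (k1 d1170 k0)) (by decide +kernel)
def d3124 : PP 8 4 T 0x1001000000000000000000000000000000000000000000001000000200004000440 := rS 0x1 (k2 d2182 d1050 k0) (by decide +kernel)
def d3125 : PP 8 4 T 0x21000000000000080000000000010000000000000000500001084000040004110000 := rS 0x5b (k2 d2805 d1682 k0) (by decide +kernel)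
def d3126 : PP 8 4 T 0x6001000000000000000400004010041000000000100000811001080002000005144020 := rS 0x11519 (k2 d2806 d2803 (k1 d1059 k0)) (by decide +kernel)
def d3127 : PP 8 4 T 0x1001000000000000000000000001000000000000000000000001080000000005000800 := rS 0x4c (k2 d2180 d1052 k0) (by decide +kernel)
def d3128 : PP 8 4 T 0x400000000000006001000000000000000000400000405000000000000000000001001540100004000000 := rS 0x119 (k2 d2806 d1089 k0) (by decide +kernel)
def d3129 : PP 8 4 T 0x1000000000000000000000000000000000000000000800001000000000006110000 := rS 0x8a (k2 d2803 d1172 k0) (by decide +kernel)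
def d3130 : PP 8 4 T 0x1000000000000000000000000000000000000000000000001000000002006000000 := rS 0x41 (k2 d2181 d1178 k0) (by decide +kernel)
def d3131 : PP 8 4 T 0x1001001000000000000000001011000010400010140004000041000002000004800440 := rS 0x1 (k2 d2182 d1053 k0) (by decide +kernel)
def d3132 : PP 8 4 T 0x1001000000000000000008010000000120000000000000000001000000600004000000 := rS 0x119 (k2 d2806 d1785 k0) (by decide +kernel)
def d3133 : PP 8 4 T 0x1000000000000000000000000000000000000000000000201080000000004000000 := rS 0x4c (k2 d2180 d1150 k0) (by decide +kernel)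
def d3134 : PP 8 4 T 0x1001000000000000000000000000800500000000000000000001000100000004000000 := rS 0x119 (k2 d2806 d2030 k0) (by decide +kernel)
def d3135 : PP 8 4 T 0x1000000000000000000004540000000000000000000500541000000000004000000 := rS 0x5b (k2 d2805 d2314 k0) (by decide +kernel)
def d3136 : PP 8 4 T 0x1000000000000000480004140200000000000000000100541200000000004000000 := rS 0x5b (k2 d2805 d2582 k0) (by decide +kernel)
def d3137 : PP 8 4 T 0x4001200000000000000000000080000001000000000004000801000002100004000004 := rS 0x3e2aa86c1058f56c7b632946c3961bc444103a1fd8b4f888259889409e50f1450858ba25210ecae155199ceee50983d5a65659548e8f39a64a22f03c34e2b52ca5d52045e9ad065f (k8 d3097 i921 d366 i1986 d3064 d989 i1900 d92 (k8 i882 i798 d74 i519 i316 d3089 d3092 d3101 (k8 d3058 d81 d474 d54 d47 d12 d5 d3110 (k8 d39 d448 d1820 i1652 d3013 d3117 i392 d3000 (k8 d1828 d3074 i518 i820 d2871 d1017 d3094 i1861 (k8 d83 d3123 i262 d454 d73 i1792 i849 d422 (k8 d3001 i971 d393 d1838 d3103 i524 i249 d435 (k8 i714 d1523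 i1784 i563 i1694 d1648 d1835 d481 (k1 i1595 k0))))))))) (by decide +kernel)
def d3138 : PP 8 4 T 0x1000000000000000000000000000200000000000000000001000000000004000008 := rS 0x565d39908300b169142e612fa45fa15379455c62 (k8 d3092 d3093 d3090 i1319 i2362 d347 d334 d3097 (k8 d3084 d453 d101 d2628 i303 d427 d3042 d337 (k2 d3074 i896 (k1 d3086 k0)))) (by decide +kernel)
def d3139 : PP 8 4 T 0x1100000000000000000000000000200000000000000000001000000000004000000 := rS 0x7d2bc304a59298616a440ba56844355b2d5a5511838cc651a3f4a2ae279880803 (k8 d3138 d3064 d3092 d420 d3093 d3090 d347 d2978 (k8 i1022 i355 i354 i2125 d3082 i1353 i2370 i2359 (k8 i2365 d436 i1673 d3034 d3042 d55 d427 i2358 (k4 i604 d3130 d399 i502 (k2 d394 d3120 k0))))) (by decide +kernel)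
def d3140 : PP 8 4 T 0x1000000000000000000001000000200000000000000004001040000000004000000 := rS 0x67550c15acb2a96466180b8b40e3507811cac236b1c8ec508854d7040980cfe7d8614c885127989faae (k8 d3093 d347 d3092 d420 d3090 d3042 i2358 d399 (k8 d394 d353 d3138 d3110 d3139 d366 i2362 d3102 (k8 d1850 d81 d1864 i2364 d1842 d470 d3064 d5 (k8 i354 i2338 i1237 d3034 d427 d2780 d92 d474 (k4 d54 d12 d104 i2037 (k2 d1820 i537 k0)))))) (by decide +kernel)
def d3141 : PP 8 4 T 0x1000000000000000000000000000200000000000000004001040000000004000000 := rS 0xba286608969152fa445a071a8102e2507b95846d6391d8a11220555c6235c102603 (k8 d3138 d3110 d3139 d366 d3092 d3093 i2362 d3042 (k8 d3102 d1850 d81 d1864 i2364 d1842 d470 d5 (k8 i346 d3034 d3064 i354 i2338 i1237 d334 d3097 (k4 d449 d3140 d1189 i251 (k2 i250 i1971 (k1 d2571 k0)))))) (by decide +kernel)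
def d3142 : PP 8 4 T 0x1000000000000000000000000000200000000000000000001040000000004000000 := rS 0x8b8c4cc212b39584c7628cc22182205cda15098b40eae311ac8e3507c100803 (k8 d3138 d3064 d3139 d5 i354 d81 d366 d3092 (k8 d3093 i2338 i1237 d3110 i2362 i2364 d3034 d3042 (k8 d427 d3102 d2780 d1850 d1864 d1842 d470 d3141 (k4 d1843 d3117 i1042 d86 (k1 d468 k0))))) (by decide +kernel)
def d3143 : PP 8 4 T 0x1000000001000000008000000000200000000000000000001000000000004000000 := rS 0x118441e251484c06cc42c490e692e964d6558217d2257211b55c62 (k8 d3092 d3093 i2364 d3142 d1829 d334 d3097 d3139 (k8 d474 d366 d92 d3074 d431 d1017 d3046 d53 (k8 d3052 d3138 d3110 d2571 d1828 d5 d1838 i250 (k1 d1527 k0)))) (by decide +kernel)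
def d3144 : PP 8 4 T 0x1000000000000000004000000000200000000000000000001000000000004010000 := rS 0x63854260323b1598858921cd25d2c9acab042fa44ae6d571884a42 (k8 d3142 d1828 d3092 d3093 i2364 d1829 d334 d3097 (k8 d3139 d474 d366 d92 d3074 d431 d1017 d3046 (k8 d53 d3052 i1792 d81 d3138 d3110 i2362 d1864 (k1 d1842 k0)))) (by decide +kernel)
def d3145 : PP 8 4 T 0x1000000000000000080000000000200000000000000000001000000000004000000 := rS 0x2a97ca55dd157acfa1b0596a36902dfa095681c08032383e9ecc42c490e692e964d6558217d2257211b55c62 (k8 d3092 d3093 i2364 d3142 d1829 d334 d3097 d3139 (k8 d474 d366 d92 d3074 d431 d1017 d3046 d53 (k8 d3052 d73 d5 d81 d3138 d3064 i2338 d12 (k8 i1349 d347 i2357 d442 d375 d54 d384 d1648 (k8 d602 i1990 d408 i1679 i415 d87 d1835 i1721 k0))))) (by decide +kernel)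
def d3146 : PP 8 4 T 0x1000000001000000000000000000200000000000000000001000000000004000000 := rS 0x78041874f62b310b12439a4ba5935956085f4895cdaae3109484c7 (k8 d3145 d3142 d1828 d3092 d3093 i2364 d1829 d334 (k8 d3097 d3139 d474 d366 d92 d3074 d431 d1017 (k8 d3046 d53 d3052 i1792 d73 d3143 d3144 d435 (k1 d393 k0)))) (by decide +kernel)
def d3147 : PP 8 4 T 0x1000000000000000000000000000200000000000000000001000000000004000000 := rS 0x458cc75550c5c8cc60a8d0a7b694490e7105858ba572123cb25534ab41e6b820b40e090200cdafd2f9895c91 (k8 d334 d3093 d3092 d3097 d347 i2364 d3138 d3064 (k8 i1349 i2338 i1237 d3139 d366 d5 d12 d431 (k8 d474 d92 d3058 d3142 d1829 d3074 i518 i2357 (k8 d2948 d1017 d3046 d442 i1941 d53 d375 d384 (k8 d3052 d3146 d39 d143 i970 i537 d1107 d86 k0))))) (by decide +kernel)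
def d3148 : PP 8 4 T 0x1000000000000001000000000000002000180008000000000000000000010041400000000004020000 := rS 0x434a6b62f974a3437e9f4ae4222afcda6b (k8 i586 d1847 i1721 d3102 d3042 d1829 i1595 d72 (k8 d458 d3133 d3074 i890 i1948 d3061 d352 d399 k0)) (by decide +kernel)
def d3149 : PP 8 4 T 0x1000000002000001000000000000000000000000400010001400000000004020000 := rS 0x19781ec30a9b4d2c52b9748445 (k8 d3102 d3042 d3074 d1829 d75 i1763 d1847 i136 (k4 d470 d37 d3060 d2675 (k1 d2835 k0))) (by decide +kernel)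
def d3150 : PP 8 4 T 0x1000000000000001000000000000002000180008000000000000000000010001400000000004020000 := rS 0x16c4e (k2 d3148 i1948 (k1 d3050 k0)) (by decide +kernel)
def d3151 : PP 8 4 T 0x401000000000000001000000000000002000100008000000000000000000010001400000000004020000 := rS 0x5d50d7e6d (k4 d1847 i1721 d458 d87 (k1 d3150 k0)) (by decide +kernel)
def d3152 : PP 8 4 T 0x1000000000000000000000000000000000000000000000081100000100004000400 := rS 0x34d12188a8bc381f0b9c0c042 (k8 d3042 d3116 d3062 d3033 i1270 i701 i1015 d361 (k4 d427 i230 d42 d417 k0)) (by decide +kernel)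
def d3153 : PP 8 4 T 0x400000000000001001000000002000004000100008000000410000000002000001400004500004020000 := rS 0x27d3b175c3312a5932c10d63518a94da6962a4d5ad2 (k8 d417 i98 i1281 d75 i1763 d1847 d60 d39 (k8 d15 i586 d467 d47 d92 i1018 d3149 d787 (k4 d2156 i1910 i1190 d3055 k0))) (by decide +kernel)
def d3154 : PP 8 4 T 0x400000000000000001200000002000084000200108000000010000000002000001000004400004000000 := rS 0x4dae2889557994d63518a95fab349ab53a97 (k8 i1283 i1911 i98 i1281 d3104 d72 d60 d39 (k8 d15 d366 d47 i1986 i1018 d414 d787 d56 (k1 d3059 k0))) (by decide +kernel)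
def d3155 : PP 8 4 T 0x400000000000001001000000002000004400000008000000410000000002000001400004000004020400 := rS 0x1962eb84d514ceae354157897588f5a42f369a58ac916bf40e99 (k8 d3147 d1845 d72 d3124 d3085 d75 i1763 d1847 (k8 i1015 d417 d88 i1761 i1283 d3153 d3154 d467 (k8 i585 i548 d91 d3063 i1417 d43 i1027 d354 k0))) (by decide +kernel)
def d3156 : PP 8 4 T 0x1001001000000000000000000000000000000000000001000001000000500004420400 := rS 0x1bcc4a939944be1515860f25d010148445 (k8 d3102 d3042 i518 d3064 d3074 d3094 d427 i388 (k8 i136 d1290 d3133 i1091 i1084 d450 d613 d3086 k0)) (by decide +kernel)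
def d3157 : PP 8 4 T 0x400000000000001001000000002000004400000008000000000000000000000001400000000004420400 := rS 0x73379885c6150a3c6a5f0a8acf25d19a240405278b5fa07289088a18 (k8 d427 d3102 d3042 d3133 d1845 d72 d3124 d3152 (k8 i518 d3064 d1158 i192 d3074 d3094 i388 i136 (k8 d1290 d15 i1130 i820 d3155 d3156 d2640 i1054 (k2 d337 d3086 k0)))) (by decide +kernel)
def d3158 : PP 8 4 T 0x400000000000000001000001000000044000220000500040000000000000000001001000000004000000 := rS 0xa22687e9d (k4 i1911 i1411 d3059 d365 (k1 d56 k0)) (by decide +kernel)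
def d3159 : PP 8 4 T 0x400000000000000001000001002000044000000008000054410000014000000001400004400004020400 := rS 0x138cc4f9ad7a595a9d62eb81ea8c10c11a8c54aa716bf40eb1 (k8 d3075 d1845 d72 d3124 i1913 d60 d39 d15 (k8 d382 d442 i200 i1267 i2033 d43 i1065 d1114 (k4 i582 d3158 i586 i1190 (k2 d3149 d3055 (k1 i1910 k0))))) (by decide +kernel)
def d3160 : PP 8 4 T 0x400000000000000001000000002000004000120008000000400000000000010001400000000004020000 := rS 0x9c6627cd717 (k4 d43 i586 i1190 d3149 (k2 d3055 i1910 k0)) (by decide +kernel)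
def d3161 : PP 8 4 T 0x400000000000000001000001002000004000000008000054410000014000000001400004400004020400 := rS 0x6a822b8cf454f2693abc2cad4eb175c349823518a94dafd64acccab1 (k8 d3075 i1659 d3104 d3085 d72 d1847 d60 d39 (k8 d15 d382 d3159 d253 d43 i1065 d1114 i582 (k8 d3160 i1911 d3059 d3055 d56 i1713 d414 d354 (k2 i1986 d366 k0)))) (by decide +kernel)
def d3162 : PP 8 4 T 0x400000000000000001000000000000004000220008000040000000001010000001000000000004000000 := rS 0x6a822b8cf454f2693afd64acd6317 (k8 d43 d3075 d3104 d3085 d72 i1911 d3059 d3055 (k4 d56 i1713 d414 d354 (k2 i1986 d366 k0))) (by decide +kernel)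
def d3163 : PP 8 4 T 0x400000000000000001000000002000004000020008000040400000000010000001400000000004020000 := rS 0x410b06b5e9b4d2c5 (k8 d75 i1763 d1847 d3162 i586 d3160 d467 d92 k0) (by decide +kernel)
def d3164 : PP 8 4 T 0x400000000000000001000001002000000400000008000000000000000000000001400000000004420400 := rS 0x85134d7265498bd2e958a33d12331d0086e8f02861823518a9472513c974844f16bf40e45 (k8 d3102 d1845 d72 d3124 d3152 d3042 d3074 d3094 (k8 d3133 d3103 d60 d39 d15 d382 d427 i518 (k8 i1130 i1043 d3064 d3054 i192 d1158 i1145 d3157 (k8 d350 d407 d423 d28 i1659 d3163 d253 i2033 (k2 d442 i200 k0))))) (by decide +kernel)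
def d3165 : PP 8 4 T 0x400000000000000001000000002000000040000008000000000000000000000001000000000004820000 := rS 0x6233c599e9d4f9ac6d040200c6ac5 (k8 d75 d15 d453 d3030 d2978 i524 d366 i997 (k4 i1779 d3070 d3055 d86 (k2 d3007 i537 k0))) (by decide +kernel)
def d3166 : PP 8 4 T 0x400000000000000001000001002000000440000008000000000000000000000001400000000004020000 := rS 0x22a2e3180814050bbf48445 (k8 d3102 d3042 d72 d3165 i518 d3164 d3064 i2357 (k2 i302 d423 (k1 d2640 k0))) (by decide +kernel)
def d3167 : PP 8 4 T 0x1000000000000000000000000000000000000000000000001080000000004000808 := rS 0x114170b49e09 (k4 i88 i702 d2628 i302 (k2 d1193 d423 k0)) (by decide +kernel)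
def d3168 : PP 8 4 T 0x1000001000000000000000000000000000000000000000001000000000004020800 := rS 0x1bd06914d9ed2e710c97c76a90200d02b739a9d5c3c0e148c6070a8e4f2292e9088a99 (k8 d3147 d3102 d3042 d3074 i1835 d3094 d3103 i136 (k8 i4 i2357 i557 i558 i563 i562 i1913 d3101 (k8 i722 i1236 d3167 d3064 d989 i392 i2342 i228 (k8 i798 i1900 d2466 i1258 d3044 d1202 i1232 i2045 k0)))) (by decide +kernel)
def d3169 : PP 8 4 T 0x400000000000000001000001002000000040000000000000000000000000000001000000000004020004 := rS 0x16e734b9c458094d9be2a62498ce2c8167aad429d4fc4906913d91d96ad358586c5f598ee08041a83d4ac50a8e4f25d211141699 (k8 d3147 d3168 d3102 d3042 d3074 d3094 d3103 i136 (k8 d75 d60 d37 d15 d3064 d2978 i392 i2343 (k8 i2342 i524 i518 d366 d12 d54 d81 d2466 (k8 d3044 d1202 d3046 i997 i1779 d3031 d3165 d3070 (k8 d46 d3055 d379 d480 d3007 d3 d613 i1445 (k4 i1349 d2750 d70 i1244 (k2 i977 d648 (k1 i2045 k0)))))))) (by decide +kernel)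
def d3170 : PP 8 4 T 0x1000000000000000000000000000000000000000008400001080000100006100400 := rS 0x1c8a66f288acf25d (k8 d3074 d3094 i388 d3133 d613 d548 d3086 d3100 k0) (by decide +kernel)
def d3171 : PP 8 4 T 0x401400000000000001001000002000000400104014000000000400000000000441400000000004020000 := rS 0x5faed68cc2c9ae08572a884fe7d861448445 (k8 d3102 d3042 d3133 d399 d394 d353 d25 i703 (k8 d1829 d436 d366 d92 d3149 i2037 i1948 i1455 (k1 d87 k0))) (by decide +kernel)
def d3172 : PP 8 4 T 0x400000000000000001000000002000004100004084000414010400000000000441400004500004020040 := rS 0x9d5c024d505652b484457ed1686c11a8c54abd (k8 i1987 d60 d39 d15 d382 d2370 d91 d347 (k8 d3102 d3042 d2863 d3171 d54 i625 i1387 d2847 (k2 i1908 d3059 k0))) (by decide +kernel)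
def d3173 : PP 8 4 T 0x400000000000000001000000002000004100004084000414010400000000000401000004500004020440 := rS 0x10a269ae53a6a82919823518a94da696293c8afd (k8 d347 d3102 d3152 d75 i1763 d1847 d60 d39 (k8 d15 d382 d3172 d81 d467 i1908 d3059 d253 (k2 i2033 d442 (k1 i201 k0)))) (by decide +kernel)
def d3174 : PP 8 4 T 0x400000000000000001000001002000004100004400400440410000054000400401000004100004020000 := rS 0x5a1dd73103ac5a0a6523165549317a54fa7f8a4300f457eab8ae512a8849e0b41a06245d211156299 (k8 d3147 d3075 d3102 d3042 d3074 d3046 d46 d1202 (k8 d3168 d3152 d25 i703 d3133 d1829 d3051 d347 (k8 d91 i460 d399 d3063 d353 d394 d350 d423 (k8 d28 d3173 i581 d3161 i1659 d81 d727 d281 (k4 d438 d43 d78 i2044 (k1 d349 k0)))))) (by decide +kernel)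
def d3175 : PP 8 4 T 0x400000000000000001000001002000004100008000410414010000000800400401000004500004020000 := rS 0x1e5134d72b54eaed823518a94ba1d57bf21a512113c1645 (k8 d3102 d3168 d3152 d3042 d3133 d352 d399 d347 (k8 i722 d3074 d60 d39 d15 d382 i1946 i1908 (k4 i887 d3059 d253 i2033 (k2 d479 d3039 k0)))) (by decide +kernel)
def d3176 : PP 8 4 T 0x400000000000000001000001002000000040000000000440000000014000000401000000000004020000 := rS 0xf944d35cc5cb30435a4c5e955798628fc1ed161ab6608c54a6d34b14ae5d2a885928f4493ca2cf1a8cce6b33197c5a0b211142aa10c05d52a71d0dc0439 (k8 d3103 d3169 d3040 d3054 i335 d3057 d453 d427 (k8 i311 i136 d3102 d3042 d3168 d2628 d1290 d3170 (k8 d3106 d3101 i398 d15 i1145 d3133 d3152 d1158 (k8 i1130 i1122 d25 i703 d3074 d1829 d75 i1763 (k8 d1847 d60 d39 d382 d3174 d352 d424 i1784 (k8 d399 d383 d396 d347 d350 d423 d28 d3175 (k8 d467 d92 d2980 d3053 d775 i2033 d365 i406 k0))))))) (by decide +kernel)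
def d3177 : PP 8 4 T 0x1000000000000000000000001000000000000020004500041000000000004000000 := rS 0x30ade2a99 (k4 d3147 d361 i802 i1279 (k1 d2990 k0)) (by decide +kernel)
def d3178 : PP 8 4 T 0x1000000000000000000004000000080010000000004400401000000100004020400 := rS 0x1a43c17ac0c0af8a974a2422791566a9 (k8 d3057 d3106 d3102 d3152 d3042 d3133 d3074 d407 (k4 i1900 d2990 d3135 i1015 (k2 i1761 d417 (k1 d88 k0)))) (by decide +kernel)
def d3179 : PP 8 4 T 0x401000000000000001200001002000004000004080000040410400014002000401000004500004020000 := rS 0x284ab4aa4d7a47659955a6b608d462a52782c8afd (k8 d347 d3102 d3168 d3152 d60 d39 d15 d382 (k8 d366 d12 d47 d54 d81 i1986 i1281 i1018 (k2 d3161 d3171 (k1 d2370 k0)))) (by decide +kernel)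
def d3180 : PP 8 4 T 0x400000000000001001000001002000000000004000000800000000004000000401000004000004020008 := rS 0x1d1711749a54ee9d2c1aa0ad2888bcc0c1128c54a6d34b14ae5510b251ecf1d0dc7235419c553457eab9629744accc651278b416818917c30170a9748445 (k8 d3102 d3042 d3074 i136 d453 d427 d1290 d3046 (k8 d46 d3168 d2628 d3152 d3133 d3170 d3106 d1158 (k8 d3178 d3075 d3051 d347 d56 d3057 d3177 d1202 (k8 d15 d3103 d3040 d3054 i1145 i1130 i1122 d25 (k8 i703 d1829 d75 i1763 d1847 d60 d39 d402 (k8 d382 d2990 d2640 d2625 d417 d3179 d467 d438 (k8 i1908 i806 d2621 i1450 d2156 d253 d422 i1065 k0))))))) (by decide +kernel)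
def d3181 : PP 8 4 T 0x400000000000000001100000000000004100020080001010000000000040000001000000000004000000 := rS 0xbb65278c917 (k4 d43 d354 d3055 i1027 (k2 i1685 i626 k0)) (by decide +kernel)
def d3182 : PP 8 4 T 0x1000000000000001000001002000000040010000400014010000000000000001001004500004000000 := rS 0xf944d3608d462a5 (k8 d60 d39 d15 d382 d253 i2033 d365 i406 k0) (by decide +kernel)
def d3183 : PP 8 4 T 0x400000000000000001100000000000004100020080000010000000001100000001000000000004000000 := rS 0x274ce6a (k4 d467 i548 i1908 d3181 k0) (by decide +kernel)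
def d3184 : PP 8 4 T 0x400000000000000001000001002000000040004000000000000000004000000401000000000004020000 := rS 0x55af48ecb329ae08ad5c29e869317a5628fd1ed155c9a58a5d8231529b4d2c564a3d1251678d4663a1b8e50681892cce2a93197c30170a93c5a02059748445 (k8 d3102 d3042 d3074 d3168 d3169 d2628 d3152 i136 (k8 d453 d427 d1290 d3170 d3057 d3177 d3106 d3046 (k8 d46 d1202 d3103 d3040 d3054 i398 d15 i1145 (k8 d3133 d1158 i1130 i1122 d75 i1763 d1847 d60 (k8 d39 d382 d3178 d3075 d3176 d3051 d56 i1257 (k8 d347 d3180 d350 d423 d28 d2370 i334 d3182 (k8 i1290 d3183 d366 d47 d54 d81 i1986 d3163 (k1 d3171 k0)))))))) (by decide +kernel)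
def d3185 : PP 8 4 T 0x400000000000000001000001002000000040000000000000000000004000000401000000000004020000 := rS 0x19cef05329622eb853a4c5e955798628fc1ed161ab638aa4da696295cba5510b251e89279459e35198e86e393998cbe2d059088a15508602e02 (k8 d3169 d453 d427 i311 i136 d3102 d3042 d3168 (k8 d2628 d1290 d3170 d3101 d3103 d3040 d3054 i398 (k8 d15 i1145 d3133 d3152 d1158 i1130 i1122 d25 (k8 i703 d3074 d1829 d75 i1763 d1847 d3057 d3177 (k8 d3184 d352 d424 i1784 d399 d383 d396 d347 (k8 d350 d423 d28 i1912 d3182 d43 d3053 i1026 (k4 d92 i806 d594 d354 k0))))))) (by decide +kernel)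
def d3186 : PP 8 4 T 0x400000000000000001001000002000004100000040000414010000000800000001000004500004000440 := rS 0x10a269ae53aab608d462a5 (k8 d60 d39 d15 d382 i585 i1908 d3059 d253 (k2 i2033 d442 (k1 i201 k0))) (by decide +kernel)
def d3187 : PP 8 4 T 0x400000000000000001000000002000004100000540010014410000000000000801000004500004020400 := rS 0x1447c5c9fd3b115ab30b247821ad36b7a21b4d2c57ec340f43608d462a5 (k8 d60 d39 d15 d382 d2370 i454 d74 d22 (k8 d75 i1763 d1847 d414 d424 d56 d3186 d467 (k8 d81 d92 d3149 i882 d454 i1910 i848 d3059 (k2 d481 i2033 (k1 i1594 k0))))) (by decide +kernel)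
def d3188 : PP 8 4 T 0x400000000000000001000001002000000040000000000000000000004000000001000000000004020000 := rS 0xbd2c91cd7045f9f5703da2ab96343498bd2e958a29c3a07292858231529b4d2c52eb251e89279459e35198e86e3939accc65f0c05c5a02059088a15 (k8 i136 d3102 d3042 d3168 d3169 d2628 d453 d427 (k8 d1290 d3170 d3106 d3101 d3103 d3040 d3054 i398 (k8 d15 i1145 d3133 d3152 d1158 i1130 i1122 d3074 (k8 d75 i1763 d1847 d60 d39 d382 i311 d3185 (k8 i454 i716 i1913 d2622 d350 d407 d423 d28 (k8 d2370 d3075 d3187 d91 i1782 d3182 i1330 i1458 (k4 d3183 d366 d81 d92 (k2 i1986 d3061 k0)))))))) (by decide +kernel)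
def d3189 : PP 8 4 T 0x400000000000002001000001002000000040000080000000000000000000000001000000000004020000 := rS 0x17a59239ae08bf3eae0a43da2bf4da6962975928f2f8559f0d3750d2ac1498d512180b93c5a0b289088a31528cd4e2f1d0dc0439 (k8 d3103 d3169 d3040 d3054 d423 i334 i398 d60 (k8 d39 d3102 d3042 d3133 d3168 d2628 d3152 d453 (k8 d427 d1158 d15 d28 d382 d350 d2370 d3188 (k8 d356 i1145 i136 d1290 i1130 i1122 d3074 d75 (k8 i1763 d1847 d347 d91 i1782 d399 d3182 i1330 (k4 i1458 d3183 d366 d81 (k2 d92 i1986 (k1 d3061 k0)))))))) (by decide +kernel)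
def d3190 : PP 8 4 T 0x400000000000002001000001002000000040000000000000000000000000000001000000000004020000 := rS 0xce7782994b1175c0f68a615b3f0a6af53a85262f4a9b4d2c52b95442c947a249e51678d4663a1b8e566631682e1ab14b9b903122f8602e020a9748445 (k8 d3102 d3042 d3074 i136 d3169 d453 d427 d1290 (k8 d3046 d46 d3188 i1323 d3075 d356 d3168 d2628 (k8 d3170 d3106 d3103 d3040 d3054 i398 d15 i1145 (k8 d3133 d3152 d1158 i1130 i1122 d25 i703 d1829 (k8 d75 i1763 d1847 d350 d423 d28 i310 i334 (k8 d3189 d3187 d399 d3135 d396 d424 i1784 d3182 (k4 d43 d3053 i1026 d92 (k2 i806 d594 (k1 d354 k0))))))))) (by decide +kernel)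
def d3191 : PP 8 4 T 0x400000000000001011100000002000004100000540010014410000000000000001000004500004020400 := rS 0x303f0c8535c45d823518a94a24227915a467351a58a6d (k8 d1847 d75 i1763 d467 i548 d417 d3102 d3152 (k8 d3042 d3133 d60 d39 d15 d382 d2156 d253 (k4 d3187 d354 d399 i1026 (k1 d396 k0)))) (by decide +kernel)
def d3192 : PP 8 4 T 0x1001000000000000000000040005000060000000000004500001000000000004000000 := rS 0xb6a21853699 (k4 d3147 i1182 i1019 d3063 (k2 d2990 d424 k0)) (by decide +kernel)
def d3193 : PP 8 4 T 0x400000000000001011100000002000004100000041010040410000000004400001000004500004020400 := rS 0x19125174aaecceab350d462a5369a58a5d2111566b1 (k8 d3075 d3106 d3102 d3042 d3074 d75 i1763 d1847 (k8 d60 d39 d15 d467 i585 i548 i1946 d3192 (k4 d2156 d3191 d354 i1550 k0))) (by decide +kernel)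
def d3194 : PP 8 4 T 0x400000000000000001000001002000000040000040000000000000000000000001000000400004020000 := rS 0x49a54c05255bf48ecb56c11420f52b251e89279459e35198e86e395998c5a0b86aa5629737206245f0c05c04152e9088b15 (k8 d3190 d3102 d3042 d3074 i136 d3169 d453 d427 (k8 d1290 d3046 d46 d3188 i1323 d3075 d3041 d356 (k8 d3168 d2628 d3170 d3106 d3103 d3040 d3054 i398 (k8 d15 i1145 d3133 d3152 d1158 i1130 i1122 d60 (k8 d37 i310 d3193 d12 d54 d81 d1999 d3166 (k4 d399 d450 i1019 i1281 (k1 d3187 k0))))))) (by decide +kernel)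
def d3195 : PP 8 4 T 0x1001000000000000000000000000000000000000008004000001080000800004000008 := rS 0x14d40fc (k4 d2640 i1054 d412 i819 k0) (by decide +kernel)
def d3196 : PP 8 4 T 0x11200000002000080000000080000000410000000002000801000004500004020000 := rS 0x1f222b8a19fd6acc4aa4d7a59239955a6b608d462a5 (k8 d60 d39 d15 d382 d366 d12 d47 d81 (k8 d92 i1986 i1281 i1018 d3149 i882 i849 d2370 (k4 d253 d454 d481 i1330 k0))) (by decide +kernel)
def d3197 : PP 8 4 T 0x400000000000000001100000002000084100000080000014010000001100000001000004400004000000 := rS 0xb8608d462a5 (k4 d60 d39 d15 d382 (k2 d253 d3183 k0)) (by decide +kernel)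
def d3198 : PP 8 4 T 0x400000000000000001000001002000000040000000000000000000000000000001000000000004020000 := rS 0xcb5d2e528934e9aa0a9a3014a8afd573485f154baa61a6e31a06243367a24be8f1d13c30c91b8b42e0205944ba42348e48a6d0a8d58a99 (k8 d3147 d75 d15 i136 d1847 d3102 d3103 i1763 (k8 d3042 d3074 d3133 d3168 d3169 d453 d2628 d3040 (k8 i1122 d427 d3152 d3054 i1130 d1290 d1158 i1145 (k8 i398 d3046 d46 d3170 d3188 d356 d3041 i1323 (k8 d3190 d3195 d417 d3194 d347 d91 d399 d450 (k8 d3063 d3196 d467 i1908 i1450 d3197 i104 i1182 (k2 i1391 i1947 k0))))))) (by decide +kernel)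
def d3199 : PP 8 4 T 0x1000001000000000000000000000000000000000000000001000000000004010010 := rS 0xa224382f9742418210542e45 (k8 d3037 d3030 d3078 d3042 d427 d371 d3074 d3129 (k4 d3108 d3046 i234 d386 k0)) (by decide +kernel)
def d3200 : PP 8 4 T 0x1000000000000000000000000000000000000000000000001000000800004200020 := rS 0x310288843 (k4 d3080 d3042 i315 i316 (k1 d2923 k0)) (by decide +kernel)
def d3201 : PP 8 4 T 0x1000000002000000000000000000000000000000008000001000000000004200020 := rS 0xb759945faaa1682ca6af5893e2ac107a955acb23974669d8200c6a3a0397c88090c05c8699 (k8 d3147 d3080 d3034 d427 i2105 d3042 d3095 d3067 (k8 d3081 d15 i65 d2978 d3011 i399 d3072 d81 (k8 d54 d12 d60 d37 d382 d3 d420 d3076 (k8 i540 i2358 d2923 i1237 d1821 d72 d3091 d3104 (k2 d290 d3135 k0))))) (by decide +kernel)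
def d3202 : PP 8 4 T 0x4001000000000000000000000000080010400000400000000001000000000084000000 := rS 0x889d4447e (k4 i241 i240 i1667 d401 (k1 d422 k0)) (by decide +kernel)
def d3203 : PP 8 4 T 0x400000000000000001000001002000000040000000000000000000000000000001000000000004000000 := rS 0x5e2e146934bc512ad31ea24141e389dca49e16c5cc6a717a1d03122f860881719a3d9e3a219753a593585208135480c0811608d462a5 (k8 d60 d39 d15 d382 d3198 d3199 i65 d989 (k8 d3109 d2978 d371 d366 d92 d3011 d3072 d3080 (k8 d3081 d3070 d3058 i399 d3034 d3042 d427 d3095 (k8 d3046 d46 d51 d3200 i334 d3201 d3007 d2952 (k8 d3055 d3029 i1715 i798 i565 i564 i231 i1307 (k8 d50 d231 d417 d407 d28 d3202 i2033 i1190 (k1 d3158 k0))))))) (by decide +kernel)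
def d3204 : PP 8 4 T 0x1000001002000001000000000000000004000001400000001200000000004000000 := rS 0x28d26b94aa24f874332d4e256292145b121998c5e3a2ea74aa690a28608592f84c22185481006c11a83c62a5 (k8 d60 d39 d37 d15 d382 d101 d3037 d3038 (k8 d3047 d3102 d3056 d3095 i603 d2978 i2186 d371 (k8 d431 d474 d3011 d3072 d3081 d3200 d3201 i399 (k8 d3046 d2952 d53 d3029 d3052 i798 i882 d3117 (k8 d3035 i569 i231 i1674 i1066 i1590 i1594 i2033 k0))))) (by decide +kernel)
def d3205 : PP 8 4 T 0x1000001002000001000000000000000000000000400000001000004000004100004 := rS 0x16420478204c0835 (k8 d15 d3064 d3110 d2978 i264 d371 d92 d3149 k0) (by decide +kernel)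
def d3206 : PP 8 4 T 0x1001000002000000000010000000014010000000000000001400004500004000440 := rS 0x2144d3608d462a5 (k8 d60 d39 d15 d382 d253 i2033 d442 i200 k0) (by decide +kernel)
def d3207 : PP 8 4 T 0x101100000002000000100000000000014410000400040000801400004500004000440 := rS 0x328fe643a45d70fd (k8 d22 d3206 d43 d422 d354 i1667 i1027 i622 k0) (by decide +kernel)
def d3208 : PP 8 4 T 0x1000000002000000100000001000004410000000044020801400004500004000440 := rS 0x1967e37181a4b98aa506a31529cdfb0d88c14ee71 (k8 i798 i806 d92 d411 d74 d22 d3101 d60 (k8 d39 d15 d3207 d350 i104 d231 d450 d383 (k2 d1265 i1391 (k1 i845 k0)))) (by decide +kernel)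
def d3209 : PP 8 4 T 0x1000000002000000000000000000000000000000004020801400004500004000408 := rS 0x6f8aa480e7150aa4e70d44a3c3017339dd9235 (k8 d15 i1122 i806 d594 d453 d427 i1130 i191 (k8 d74 d3101 i1084 i310 i798 i454 d3208 d28 (k2 i1322 d383 k0))) (by decide +kernel)
def d3210 : PP 8 4 T 0x1001000000000000000000000000000000000000004000001000000800004000008 := rS 0x115 (k2 d423 d2640 k0) (by decide +kernel)
def d3211 : PP 8 4 T 0x1101000000002000000000000000000000000000400004000801800004100004000008 := rS 0x3a2e22e955aa4d566e3028d8231529ce1a89478602e3538aa45efd (k8 d22 d3210 i1084 i798 d15 d453 d427 i1130 (k8 i191 d74 d3101 d60 d39 d382 d1639 d450 (k8 d383 i1655 i1322 i883 i1019 d2638 i2033 d422 (k1 i1066 k0)))) (by decide +kernel)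
def d3212 : PP 8 4 T 0x101100000000000000100020000000010400000400040000801000000000004000000 := rS 0xca3f990e917 (k4 d43 d422 d354 i1667 (k2 i1027 i622 k0)) (by decide +kernel)
def d3213 : PP 8 4 T 0x1000001002000001000000000000000004000001404000801000004100004000000 := rS 0x32cfc1e04289a6b949a562807232845e673bc16225842c48d25f4787420184482d92050b809823518a958a572e854aa4222885fb0d (k8 d74 d22 d25 d3204 d3042 i703 d3080 d3074 (k8 d1829 d75 d60 d39 d15 d382 d3205 d453 (k8 i65 i1122 d3167 i191 d427 d3199 i716 i1130 (k8 d1290 i1763 d3046 d53 d3052 d411 d92 i806 (k8 d594 d3210 i310 d3209 i454 d3211 d350 d28 (k8 d3212 d253 i2033 d442 d479 i241 i1387 i845 k0)))))) (by decide +kernel)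
def d3214 : PP 8 4 T 0x1000001000000000000000000000000000000000000000001000400000004000008 := rS 0x1c0406e05 (k4 i65 d3040 d3199 d3054 (k1 d3103 k0)) (by decide +kernel)
def d3215 : PP 8 4 T 0x1000001002000001000000000000000000000000400000001000000000004100004 := rS 0xb247084102635 (k4 d15 d3110 d2978 d371 (k2 d81 d92 (k1 d3149 k0))) (by decide +kernel)
def d3216 : PP 8 4 T 0x101100000000000001100020400000000400000400540500541000000000004000000 := rS 0x162af5bb2968643a45d0312 (k8 d3046 d46 d43 d422 d354 i1066 i1027 i886 (k2 i625 i1394 (k1 d3051 k0))) (by decide +kernel)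
def d3217 : PP 8 4 T 0x101000000000000001800000400000000000040000500500541000000000004000000 := rS 0x2d61ab658abcfb43 (k8 d98 i1327 i625 i1394 d3135 d352 i886 d481 k0) (by decide +kernel)
def d3218 : PP 8 4 T 0x101000000000000001000500544000000000040001500500541000000000004000000 := rS 0x1f686ba56ad5f90d5b21624cb (k8 d3217 d3046 d53 d3135 d352 d290 i886 d360 (k4 i2043 d58 i1599 d481 k0)) (by decide +kernel)
def d3219 : PP 8 4 T 0x1000000000000000000000200000000010000000004400401000000100004020400 := rS 0x16e96 (k2 d3075 d3049 (k1 d3178 k0)) (by decide +kernel)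
def d3220 : PP 8 4 T 0x1000001002000000040000000000000000000000000000001000000000004000000 := rS 0xeb174929d2a2f1ed15faae58ae4e2673faacef0588aa4b05359a14c71234a24be8f1993c20181d02d922d0285c04550a944ba57211150ecd5faf4d66da70d442c5 (k8 d75 d25 d15 d3203 d389 d429 d437 d59 (k8 d73 d478 d3204 d3042 d1829 d3074 d3133 d3080 (k8 i703 d3215 d453 i65 d2628 i1122 d3167 d3214 (k8 d427 d3199 d3152 i398 i1130 d1290 d1158 i1763 (k8 d3046 d3170 d53 d3106 d3213 d3052 d3057 d411 (k8 d92 i806 i581 i844 i544 d3177 d3216 d3219 (k8 d3218 d347 d91 i1782 d3210 d2621 i334 d3182 (k2 d480 i1590 (k1 d422 k0))))))))) (by decide +kernel)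
def d3221 : PP 8 4 T 0x101000000000000000000000000002000401000400000000001000000000004000000 := rS 0xeb17 (k2 d452 i1591 (k1 d422 k0)) (by decide +kernel)
def d3222 : PP 8 4 T 0x400000000000000001000002002000000000000000000000000000000540500001000000000004040000 := rS 0x20a6d12b142215 (k4 d35 d393 d75 d402 (k2 d3114 d3001 (k1 d467 k0))) (by decide +kernel)
def d3223 : PP 8 4 T 0x1000000002000001040000000000000000000000400000001080004000006000000 := rS 0xeb173353d3c694e84cef111c8890a298921cbe8f128d4423162b0c6e3b088544e2b7833cae5d (k8 d3074 d1829 d3070 d3220 d79 d38 d35 d393 (k8 d416 d9 d470 d75 d39 d25 d15 d402 (k8 i1130 d3129 d1017 d3046 d386 d53 d910 i234 (k8 d505 i1625 d3108 d3221 d3036 i2035 d89 d3222 (k2 d86 i1587 (k1 d422 k0)))))) (by decide +kernel)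
def d3224 : PP 8 4 T 0x1000000002000000000000000000000000000000084000401000004000005000420 := rS 0xb12a318200c2c35 (k8 d15 d427 d453 d2978 d39 i1674 d3029 d2264 k0) (by decide +kernel)
def d3225 : PP 8 4 T 0x1000000002000000000000000000000000000000080800401080004000005000000 := rS 0x5a714a3f562625782d4a572895408ad6588d6a7d8845d1e598200c6a77109d42c31 (k8 d39 d427 i970 d25 i711 d15 d453 d2978 (k8 d92 d3058 d86 d422 d67 d349 d1612 d54 (k8 d12 d1072 i703 d3133 d1829 d60 i557 i589 (k4 d3224 d3076 d2678 d3120 (k2 d3096 i978 (k1 d2935 k0)))))) (by decide +kernel)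
def d3226 : PP 8 4 T 0x1000000002000000000001000000000000010010008800001080000000404000044 := rS 0xb042a5 (k4 d60 d25 d2935 i1237 k0) (by decide +kernel)
def d3227 : PP 8 4 T 0x1001000002000004000000400000010000000052000000001081000200005000040 := rS 0x14557a697eb8379fd621c4ba4c14c14f2d4fb108b9991e598200c6a77109d42c31 (k8 d39 d427 i970 d25 i711 d15 d453 d2978 (k8 d92 d3058 d3114 d86 d422 d67 d349 d3113 (k8 d382 d3124 i1241 i1243 i558 d3075 i719 i1232 (k4 i2044 i1458 i1189 i594 (k2 d56 d414 k0))))) (by decide +kernel)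
def d3228 : PP 8 4 T 0x1000000002000001040000000000000000000000400000001080004000004000000 := rS 0xa2abd34bf5c1fc380a58a2526978a1bc5a95179ccc60738ace1afd2917a267d5a88e211742a78cc8f36164d3042384cea775080c08160c8946a21078c58ac31e8442a2b7833cae5d (k8 d3074 d1829 d3070 d3220 d79 d35 d393 d23 (k8 d470 d75 d39 d37 d25 d15 d402 d3223 (k8 d427 d1072 d453 d3031 i711 i970 d3109 i264 (k8 d2978 d431 d92 d1842 d3058 d3114 d3113 i1603 (k8 d86 d422 d1612 d349 d67 d910 d3046 d3225 (k8 d22 d74 d3105 i2466 i2336 d3226 d3101 i316 (k8 i1674 d3227 i968 d383 d407 d28 d83 d3075 (k8 d2906 i558 i719 i2044 i1458 i1189 i594 d56 (k1 d414 k0))))))))) (by decide +kernel)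
def d3229 : PP 8 4 T 0x1000000002000000040000000000000000000001400000001080000000005000000 := rS 0x23c102603020586ac5618442af0 (k8 d3220 d35 d393 d470 d75 d15 d427 d1072 (k4 d453 d3109 d2978 d81 (k1 d1842 k0))) (by decide +kernel)
def d3230 : PP 8 4 T 0x1000000002000001040000000000000000000000400000001080000000004000000 := rS 0x2ca14d2c98921cca023b17c0a1836a7c64552e95c8a35108442af0 (k8 d3220 d35 d393 d25 d15 i41 d1829 d3074 (k8 i703 d3228 i1711 d3113 d3229 i228 d3129 i233 (k8 d3064 i1546 d1017 d3046 i1122 d3115 d53 i806 (k1 d3052 k0)))) (by decide +kernel)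
def d3231 : PP 8 4 T 0x1000000002000000000000000000000000000600080000801040004000004000000 := rS 0x2e5268951a545e2d5a9c4141e31bf4a2c11a8c54aa92c83d1e180b8108917 (k8 d86 d3042 d3037 d3034 d427 d595 d37 i603 (k8 d3038 d60 d39 d15 d382 i95 d22 i2358 (k8 i565 i564 i798 i882 d2399 i316 i1674 d3202 (k4 i277 i1590 i1066 i2033 k0)))) (by decide +kernel)
def d3232 : PP 8 4 T 0x1000002000000000000000000010000000000000004500401000010000006040144 := rS 0xb127bf0e22c288f42215 (k8 d35 d393 d23 d3089 d3029 d70 d2369 d3062 (k2 d455 d2829 k0)) (by decide +kernel)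
def d3233 : PP 8 4 T 0x5001202000002000000000000000000000000000000000000001000000100006000020 := rS 0x16ab608d46209 (k4 i2105 d39 d15 d382 (k2 d72 d388 (k1 d2779 k0))) (by decide +kernel)
def d3234 : PP 8 4 T 0x1001001002002000000000000000010000000000000000100041200004100004000500 := rS 0xaa283041ea50885456070991c08ad65c100635 (k8 d15 d101 d2978 d54 d12 d3037 d227 d3056 (k8 d3067 d79 d35 d393 d60 d37 d382 d2534 (k2 d1821 d3091 k0))) (by decide +kernel)
def d3235 : PP 8 4 T 0x1000000002000000040000000000000000000000400000001040000000004000000 := rS 0x16cb328829fa2d57ac49f153114ce87788a1d02338bc4852854f198ba6c04c111ea12397c26070200c30440b8946a2162b0c2215138ade099 (k8 d3147 d3220 d79 d38 d35 d393 d470 d75 (k8 d25 d15 d402 d3034 d3042 d427 d101 d3037 (k8 d3067 d3056 d3095 d227 i2186 d595 d2978 i2105 (k8 d1842 d3073 d3114 d3113 i1604 d2571 d3046 d86 (k8 i1711 d46 d51 d505 i1715 d422 d3231 d3232 (k8 d3 d420 d3076 i540 i1237 d3233 d3234 d3065 (k2 d3066 d3051 (k1 d290 k0)))))))) (by decide +kernel)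
def d3236 : PP 8 4 T 0x400000000000000101000002002000000000000000000000000000400500504001000000010006000000 := rS 0x1d62e66098e51e35 (k8 d15 i1130 i234 d3108 d3222 d86 i1587 d422 k0) (by decide +kernel)
def d3237 : PP 8 4 T 0x1000000002000000040000000000000000000000400000001000000000004000000 := rS 0x23e2e59331d4d8160c97cee2934a469f1166174ae42678c586f0 (k8 d3220 d470 d39 d3070 d3235 d1829 d3074 d3230 (k8 d454 d73 d3098 d3119 i1968 i810 d3097 d3236 (k8 d427 d3229 i970 d3114 d3118 d86 d3058 d422 k0))) (by decide +kernel)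
def d3238 : PP 8 4 T 0x4001001000002000000040000000000000000000000000000001000000000004000140 := rS 0x5ca556b1455918a50d6930462a51f9449e89199d0ee9332324ce5888a1d0a29098958a2b13b0cba5510a3d52a11798c165f088b484450abc0301701414d435 (k8 d15 d3237 d366 d2978 d453 d427 d3220 d35 (k8 d101 d3042 d2628 d393 d3129 d3167 d3170 d3210 (k8 i310 i1084 i1130 d25 i703 d3074 d470 d38 (k8 d79 d75 d402 i1960 d2571 i1868 d1017 d505 (k8 d287 i544 i1122 d354 i1550 i806 d422 i233 (k8 i191 d3152 d3133 d27 d60 d39 d382 d442 (k8 d3125 d399 d3208 i1656 d3211 i883 d350 i1066 (k1 d253 k0)))))))) (by decide +kernel)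
def d3239 : PP 8 4 T 0x1000000002000000040000000000010000000000020000001000000400004000200 := rS 0xa255b046289199dcb11143a14521312b14562761974aa2164a4cc60b2f8445a180b9088a02829a86a15782e596a5 (k8 d60 i1387 i1027 d3220 d35 d15 d3237 d366 (k8 d2978 d101 d3042 d453 d427 d2628 d393 d3129 (k8 d3167 d3170 i1550 i1122 d25 i703 d3074 d470 (k8 d38 d79 d75 d402 i1960 d2571 i1868 d1017 (k8 d505 d287 i806 i233 i191 d39 d382 i1659 (k2 i2033 i201 k0)))))) (by decide +kernel)
def d3240 : PP 8 4 T 0x1001000002000000040000000000000000000000020000001000000000004000200 := rS 0x6f29455287f0eb2d4a4f39a24b11143a14521312b14562761974aa211798c165f088b43017211140505350d42af0 (k8 d3220 d35 d15 d3237 d366 d2978 d101 d3042 (k8 d453 d427 d2628 d393 d3129 d3167 d3170 d3210 (k8 d25 i703 d3074 d470 d38 d79 d75 d402 (k8 i1960 d2571 i1868 d1017 d505 d287 i191 d3101 (k8 d3152 d60 i1387 i1261 i845 d3239 d350 d2621 (k2 i1058 d2622 k0)))))) (by decide +kernel)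
def d3241 : PP 8 4 T 0x4001001000002000000040000000000000000000000000000001000000000004000000 := rS 0x16eb129abc0c09508bca24f40c496663058b4c8c9339622287428a4be150884c4ac51589de0c32e954844510a3c301701414d435 (k8 d15 d3237 d366 d2978 d453 d427 i1130 d25 (k8 d101 d3042 i703 d3074 d470 d3220 d38 d79 (k8 d75 d402 i1960 d393 d35 d3129 d2571 i1868 (k8 d1017 d505 d287 i544 i1122 d354 d2628 d3167 (k8 d3170 d3106 d3046 d46 d3152 d3133 d3210 i310 (k4 d3240 d3238 i459 i454 (k2 i1228 d290 (k1 d3051 k0)))))))) (by decide +kernel)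
def d3242 : PP 8 4 T 0x1002000000000000000000000000000000000000004400041081000004004150000 := rS 0xfb4c3b0d032d942af58824a65140c48bab3 (k8 d3106 d3074 d3046 d46 d3133 d412 d413 d455 (k8 d347 i819 d3051 d2829 d352 i721 d49 i1301 (k1 d479 k0))) (by decide +kernel)
def d3243 : PP 8 4 T 0x1001000000000000000000400010000000000000000500141000000000004050080 := rS 0x16eb129abd0312 (k4 d3046 d46 i459 i454 (k2 i1228 d290 (k1 d3051 k0))) (by decide +kernel)
def d3244 : PP 8 4 T 0x1000000002000000040000000000000000000000000000401000000000004000000 := rS 0x4b4d449555b0462a5448ccee5888a1d0a2912b14565510b2572938b01d422f7e89c7ab33193c162d2897484452f8602e02828d42a133530c22f0 (k8 d3220 d393 d470 d3237 i1960 d35 d15 d366 (k8 d2978 d453 d427 d3129 d101 d3042 d3074 d3133 (k8 d2628 d3167 d3152 d3170 d3106 d23 d38 d3242 (k8 d3210 i310 d3243 d3241 d480 d43 i1122 d25 (k8 i703 d79 d75 d402 d2571 i1868 d1017 d505 (k8 d287 i806 i233 i191 d60 d39 d382 i581 (k4 d2621 d678 d253 i201 (k1 d442 k0)))))))) (by decide +kernel)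
def d3245 : PP 8 4 T 0x1000000002000000040000000000000000000000000000001000000000004000000 := rS 0xfccb0f021a6a24ac508c1d869480e935ca85531617bf466673b96112b38893cc62942a1c165528974be8f21061922d2285c0413829a856270a8447af0608946a2118a958ac3 (k8 d470 d75 d60 d39 d25 d15 d402 d382 (k8 d3220 d23 d393 d35 d38 d79 d3237 d366 (k8 i1960 d2978 d453 d101 d2628 i1122 d427 d3042 (k8 i1130 d3129 d3074 d3133 i703 d3167 d1017 i1868 (k8 d2571 d3170 d3152 d505 d3106 i191 d287 i806 (k8 i544 i233 d3242 d3210 d3241 i1084 i310 d43 (k8 d480 d3243 d3244 d74 i716 d3208 d3211 d350 (k4 d678 d253 d442 d479 (k2 i1387 i241 (k1 i845 k0)))))))))) (by decide +kernel)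
def d3246 : PP 8 4 T 0x8011001000002000040400000000010000010000000000005001000000500014000440 := rS 0x444b305111f88ca20f2558231528cd7293 (k8 d480 d43 d379 d60 d39 d382 d231 d479 (k8 d678 d3206 i241 i240 d81 i845 d401 d438 k0)) (by decide +kernel)
def d3247 : PP 8 4 T 0x8011001000002000000400000000010000000000000004005001000000500014020440 := rS 0x46551822a9451b49823152d3d8c3367ae5261744aa40435 (k8 d15 d3007 i1084 i191 d453 d480 d43 d385 (k8 d379 d3245 d381 d60 d39 d382 d3246 d375 (k4 d253 d350 d450 i1019 (k2 d3157 i1655 k0)))) (by decide +kernel)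
def d3248 : PP 8 4 T 0x8011001000002000000000000000010000000000000004005001000000500014100440 := rS 0x4a451a46104b2820a9449b4049333ae466c11a8c54ac6 (k8 d3245 d60 d39 d15 d382 d379 d43 d86 (k8 d480 d3007 d3114 i191 i1084 d880 d3247 i1387 (k4 i1391 d442 d450 d253 (k1 d350 k0)))) (by decide +kernel)
def d3249 : PP 8 4 T 0x4001001000002000000000000000040020000000000004000001000000500004100400 := rS 0x232a996600b8146e104f1b53acf33ae62a31a7aed8c99 (k8 d3147 d3245 i1679 d381 d39 d350 i104 i1674 (k8 i1104 i1677 d3114 d3055 d880 i996 i524 d3030 (k4 d3156 i1391 i1019 d3157 (k1 i1655 k0)))) (by decide +kernel)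
def d3250 : PP 8 4 T 0x4001000000002000084000010000000050010000000000000001000004400004000000 := rS 0x9e49275823518a969ec6 (k8 d3245 d381 d60 d39 d15 d382 i1640 d253 (k2 d3055 i1718 k0)) (by decide +kernel)
def d3251 : PP 8 4 T 0x4001000000002000000000000000004000000000000000000001000000000004900000 := rS 0x19e9d358ee0804018d69ec6 (k8 d3245 d381 d15 d453 d3030 d2978 i392 d366 (k2 i1641 d3070 (k1 d3055 k0))) (by decide +kernel)
def d3252 : PP 8 4 T 0x1000000000000000080000000000000000000000000000001000000000004110000 := rS 0x64021b08cf1 (k4 d351 d1864 d880 d3199 (k2 i265 d3087 k0)) (by decide +kernel)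
def d3253 : PP 8 4 T 0x4001000000002000000000000000000000000000000000000001080000000004000020 := rS 0x2786c16188402ac6 (k8 d3245 d3080 d3252 d39 i518 i524 d3251 i996 k0) (by decide +kernel)
def d3254 : PP 8 4 T 0x4001001000002000084000010101000010010000000004000001000004400004000000 := rS 0x30c552c92608d462a5 (k8 d60 d39 d15 d382 d253 d3250 d28 i1283 (k1 d450 k0)) (by decide +kernel)
def d3255 : PP 8 4 T 0x4001001000002000080000000000018000000000000004000801000000500004000400 := rS 0x821a95cbc49ae162951ea8e9e69599b5928954a3c30cf1d0080af11a8cc72100a9088ac6 (k8 d3245 i564 d3042 d3080 d3252 d3103 i1712 d15 (k8 d351 d3253 d3064 d3214 i1145 d1072 i1130 i1084 (k8 i191 i1122 d1847 d3106 d228 d381 d375 d88 (k8 d3249 i1761 d3254 i130 i1190 d3187 i1986 d3197 (k1 d366 k0))))) (by decide +kernel)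
def d3256 : PP 8 4 T 0x4001001000002000000000000000418000000000000004000801000000500004000400 := rS 0x178b8518f526970f4512ad33b8cd823152d3e1a1d1ca251ecf1d009e23543a06245f0c0142015631748445 (k8 i564 d3042 d3074 d3245 d3080 d3252 d3253 d1072 (k8 d1290 d3046 d46 d1017 d15 d351 d3064 d3214 (k8 i1145 i1130 i191 d3103 i716 d74 d381 d60 (k8 d39 d382 i1712 i1715 d3255 d231 d417 d479 (k4 d407 d28 i1307 d3202 (k2 i2033 i1190 (k1 d3158 k0))))))) (by decide +kernel)
def d3257 : PP 8 4 T 0x1001000002000000000000000000000000000000004000801000000500004000440 := rS 0x5882334d69c4fa150ecf1597d1e3a6486004058b8d69ef134c343a572a88542792e9b54e100a9088ac6 (k8 d3245 i564 d3042 d3080 d3252 i1913 d1847 d3074 (k8 d3094 i820 d25 i703 d1829 i716 d74 d228 (k8 d351 d381 d15 d3248 d3253 d3064 d1072 i1122 (k8 d3214 i1130 d1290 i388 i1145 d1017 i1602 d3256 (k4 d3055 i1908 i1910 d467 (k2 d3052 d92 k0)))))) (by decide +kernel)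
def d3258 : PP 8 4 T 0x1001000002000000000000000000000000000000004000801000000100004000440 := rS 0x1f698b942420e914e70d (k8 d74 d3101 i564 i716 d3042 i820 d3257 d358 (k2 i239 d479 k0)) (by decide +kernel)
def d3259 : PP 8 4 T 0x1001000002000000000000000000000000000000004000801000000100004000040 := rS 0x5e2e146771ea1d03124f0cd1e1e2fa4d2e9d2cb3c89144aa262f04538e8865d17aa4061402045a60a608d462a5a7bc58cb3 (k8 d3106 d3245 d351 d381 d60 d39 d15 d382 (k8 d3258 d50 d3168 d3199 d3252 i65 d989 i316 (k8 d3072 d3080 d3081 i331 d2978 d3007 i277 d231 (k8 d417 d3042 i1145 d92 d3011 d407 d28 d3095 (k8 i565 d3058 i399 d3055 d3046 d46 d51 i1307 (k4 i1715 d3202 i2033 i1190 (k1 d3158 k0))))))) (by decide +kernel)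
def d3260 : PP 8 4 T 0x1001000000000000080000000000000000000000004000001000000200004000040 := rS 0x80282af1 (k4 d351 d2952 d3124 d3252 (k1 d3168 k0)) (by decide +kernel)
def d3261 : PP 8 4 T 0x1001000002000000000110000000014010000001000000001000004500004000640 := rS 0x35c155446513046a3152d3cd2c6 (k8 d3245 d228 d381 d60 d39 d15 d382 i2033 (k4 d3206 i201 d81 i586 (k1 d467 k0))) (by decide +kernel)
def d3262 : PP 8 4 T 0x1000000000000004080000000000000000000000000000001000008000004000008 := rS 0x20a6b2319a9e69368400af1 (k8 d351 i65 d3199 d1847 d228 d381 i193 i192 (k2 i548 d81 (k1 d467 k0))) (by decide +kernel)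
def d3263 : PP 8 4 T 0x1001000002000000000010000000810010000001000000001000004500004000440 := rS 0x10bd69b046a3152a4d3ac6 (k8 d3245 i1640 i1450 d60 d39 d15 d382 d253 (k2 i1417 d442 (k1 d3261 k0))) (by decide +kernel)
def d3264 : PP 8 4 T 0x1001000002000000000000000000000000000000004000001000000000004000040 := rS 0xbc35a7a09175c256289a4e8cd2eae5b9be187127975626d2fa3c16a767908201817a2474c90a9140a17012a4a62d1ad3de269631cca2b3 (k8 d3106 d3089 d3101 d3245 d228 d351 d381 d15 (k8 d3260 d3259 d3057 d3029 d453 i65 d101 d3079 (k8 i1122 d3214 i191 d3210 d427 d3199 d3042 i1145 (k8 i334 i302 i1130 d1290 d1847 d3219 d3074 d3152 (k8 d3177 d399 d356 d352 d3135 d3178 d3262 i1640 (k8 d3174 d3180 d350 d3263 d43 d3183 d3055 d366 (k2 i1190 i1986 k0))))))) (by decide +kernel)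
def d3265 : PP 8 4 T 0x1001000002000000000000000000000000000000004000001000000000004000000 := rS 0x16e815794e24a75097d622f1d1743010011082a0527914120678b18a2b3 (k8 d3106 d3089 d3245 d351 d3264 i3 d3067 d3068 (k8 i519 i639 d3042 d3064 d3199 d1072 d3074 d3214 (k8 d3210 i1762 d1290 i310 i334 d3046 i454 i460 (k2 d46 d290 (k1 d3051 k0))))) (by decide +kernel)
def d3266 : PP 8 4 T 0x1000001000000000000000140000000000000000004000441000000000004000080 := rS 0x1d86ad8bea7509743010210543e0522b4ca2b3 (k8 d3106 d3089 d49 d3067 i519 i1301 i639 d3042 (k8 d3199 d1072 d3074 i819 i1912 d1290 d3135 d352 (k2 i722 d479 k0))) (by decide +kernel)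
def d3267 : PP 8 4 T 0x1000000000000011000000002000044000000000410000010000000000400401001004100014020000 := rS 0x2fa86b85da4d47144aad45e1e1f3046a3152d3de2c62e9088a99 (k8 d3147 d3102 d3042 d3074 d3245 d351 d381 d60 (k8 d39 d15 d382 d365 d479 i405 i1395 d231 (k8 d417 d3039 d28 i1679 i2033 d2370 d219 i1458 k0))) (by decide +kernel)
def d3268 : PP 8 4 T 0x1000000002000000000000000000000000000000004400001000000000004020010 := rS 0x658bae1269533c50d505518bda43367a3d123a648b43002608d41e3152d3cd2ad30aa412ab059b61b454b9cc7aa10ead8ba4222acca2a703abd625327bf1e2c6 (k8 d3245 d351 d3265 d395 d412 d455 d347 d3266 (k8 i1913 d3089 d3106 d3102 d3042 d3074 d3135 i722 (k8 i820 i1784 d3101 i1902 d424 d352 d1847 d388 (k8 d72 d413 d374 d396 d360 d228 d381 d60 (k8 d39 d37 d15 d382 d3064 d1072 d2628 i1122 (k8 d3214 i191 i1130 i1145 d3262 d3267 d358 d375 (k8 d143 d467 d3193 i548 d350 d28 i2033 d43 (k2 i1026 d354 k0)))))))) (by decide +kernel)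
def d3269 : PP 8 4 T 0x1000000002000000000000000000000000000000004000001080000000004000020 := rS 0x4580635 (k4 d15 i65 d3253 d3007 k0) (by decide +kernel)
def d3270 : PP 8 4 T 0x1000000002000000000000000000000000000000004000001000000000004020000 := rS 0xbc18029088a15 (k4 i136 d3102 d3042 d3269 (k2 d1072 d3268 (k1 d1290 k0))) (by decide +kernel)
def d3271 : PP 8 4 T 0x1000000002000000000000000000000000000000004000001000000000004000000 := rS 0x5a030a01022537e0d5e2c6 (k8 d3245 d351 d15 d3265 d412 d3270 d3199 d3252 (k2 i65 d2952 (k1 d3029 k0))) (by decide +kernel)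
def d3272 : PP 8 4 T 0x1000000002000000000000000000000000000000000000001000000000004010000 := rS 0x14023c58c62 (k4 d3271 d3245 d351 d3199 (k2 d3252 d3201 k0)) (by decide +kernel)
def d3273 : PP 8 4 T 0x1000000002000000000000000000000000000000000000001000000000004000020 := rS 0xb74b9cce22c55a048ecb56a4cce3350c4906913da6e09160b024be3b5980c6a0f52c54c2151c82de2c637988f25d211142099 (k8 d3147 d3272 d3102 d3042 d3074 d3094 d3271 d613 (k8 d3245 d351 d3168 d3103 i136 i74 d3 d60 (k8 d37 d15 i65 i2343 i392 i2342 i263 i518 (k8 d3253 d2978 i1445 d2466 d3044 d1202 d3046 d3031 (k8 d379 d86 d480 d12 d54 d81 d46 i537 (k4 d2750 d70 i977 i1244 (k2 d648 i2045 k0))))))) (by decide +kernel)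
def d3274 : PP 8 4 T 0x1000000002000000000000000000000000000000000000001000000000004000000 := rS 0x2f8b430052102c8a1508189e2c6 (k8 d3245 d351 d3271 d3272 i136 d3102 d3168 d3042 (k4 d3273 d1072 i1238 d1290 (k1 d3170 k0))) (by decide +kernel)
def d3275 : PP 8 4 T 0x1000000000000000000000000000000000000000008000001000000000004020010 := rS 0x2f8b4301505bc48445 (k8 d3102 d3042 d393 d3168 i136 d1072 i1238 d1290 (k1 d3170 k0)) (by decide +kernel)
def d3276 : PP 8 4 T 0x1001000000000000000000010000200000000000010000000001000000000804000000 := rS 0xe4b4 (k2 i249 d2929 (k1 d3099 k0)) (by decide +kernel)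
def d3277 : PP 8 4 T 0x1000000000000000000000000000000000000000080000001000014000004000000 := rS 0xc62ee5 (k4 d3274 d86 d1820 d468 k0) (by decide +kernel)
def d3278 : PP 8 4 T 0x1000000000000000000000000000000000000000008000001000014100004020000 := rS 0x18b0124ab33824c22f05bc40e0f5691d4a2212b30d66d2ca1cae550b216245d2f9a572cb821c40604211162ae5 (k8 d3274 d3 d3102 d3042 d3275 i65 d2948 d2978 (k8 d54 i1405 d431 i2342 d3074 d3046 d53 i518 (k8 d3032 d1829 d1017 d92 d1847 d366 d3052 d1828 (k8 d1305 d3276 d81 d12 d5 i520 d393 d3168 (k8 i315 i74 i263 d3277 i537 d2750 d1821 i2953 (k1 d2291 k0)))))) (by decide +kernel)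
def d3279 : PP 8 4 T 0x1000000000000000000000000000000000000000008000001000010100004020000 := rS 0x13f17192769e8f66164d26b8233cda392b80d0e550b216245f021748445 (k8 d3102 d3042 d3074 d3275 i2342 d3046 d53 i518 (k8 d3032 d1017 i65 d1829 d3103 d1847 d602 d2978 (k8 d366 d431 d92 d3052 d3058 d73 i1910 d3278 (k2 d379 i1712 (k1 d3055 k0))))) (by decide +kernel)
def d3280 : PP 8 4 T 0x1000000000000000000000000000000000000000000000001080020000004000020 := rS 0x1d17 (k2 d44 i354 (k1 d2960 k0)) (by decide +kernel)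
def d3281 : PP 8 4 T 0x1000000000000000000000000000000000000000008000001000000000004020000 := rS 0x5ba5ce671160d502a18920d227b4d858be3b59810f26f2e9087245788562a99 (k8 d3147 d3 i136 d393 d3102 d3103 d3042 d3074 (k8 d613 d3094 d3275 i2343 i392 i2342 i518 i1445 (k8 d2466 d3044 d1202 d3046 d3031 d46 d3280 d3279 (k4 d70 i977 i1244 d648 (k1 i2045 k0))))) (by decide +kernel)
def d3282 : PP 8 4 T 0x1000000000000000000002000000000400000010080004001000000000004000000 := rS 0xeb17 (k2 d86 i1587 (k1 d1114 k0)) (by decide +kernel)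
def d3283 : PP 8 4 T 0x1000000000000000000000000000000000000000008000001000010200004000000 := rS 0x19ac22f1b4ceb43e9fd8ac7861bc2a512e95c4a8f39908b2472ab2cd65322aae081356818080338c549e11 (k8 d3281 d420 d3 d70 d2628 i1238 i1237 i2826 (k8 d3110 d2978 d1845 d3067 i2336 d366 d54 d474 (k8 d81 d92 d3042 d3100 d3058 d1828 d1829 d3074 (k8 d3133 d3080 d613 d383 d3252 d1850 d353 d394 (k4 i2037 d3282 d3114 d3001 (k2 d1842 i890 (k1 d2746 k0))))))) (by decide +kernel)
def d3284 : PP 8 4 T 0x1000000000000000000000000000000000000000008000001080010000005000000 := rS 0x112d34d2ae8ab223ab4d6a71fc100e2f0484c06040b454c2b1578b416c7628542299 (k8 d3147 d3281 d3080 d1850 d3252 i2357 d3283 i540 (k8 d3076 i74 d3 d427 d1072 d453 d3109 i263 (k8 i315 i520 d2978 d1076 d2837 d366 d12 d81 (k4 d1011 d355 d3104 d3107 (k2 d1841 i1443 (k1 d417 k0)))))) (by decide +kernel)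
def d3285 : PP 8 4 T 0x1000000000000000000000000000000000000000008000001080010000004000000 := rS 0xbe1805854222d (k4 d3283 d3281 d3080 i2357 (k2 d3284 d3129 (k1 d3170 k0))) (by decide +kernel)
def d3286 : PP 8 4 T 0x1000000000000000000000000000000000000000008000001000010000004100000 := rS 0xb53941363911b356713611718ac78aac55e110384cbe47020249e53129ac1e59821b4ce330c05c5a032210d32e5 (k8 d3274 d3147 d3285 d3042 d101 d3283 d3034 d427 (k8 d2780 d3277 d3114 d2978 d92 d5 d366 d3130 (k8 i2358 d420 i223 d3037 d227 d3095 d3056 d3067 (k8 d3281 i540 d3076 d3 d3252 d1850 d3001 d1842 (k8 d368 d3071 i1970 i251 d3045 i1445 d126 d3134 (k2 d3065 d1011 k0)))))) (by decide +kernel)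
def d3287 : PP 8 4 T 0x1000000000000000000000000000000000000000008000001000010000004000000 := rS 0x16c5138319682262d3d48cc60a1c162f18b0cbaf10a2ad726d2b96596655683cd6672ac106625298248e5f0981c08030c1102e4316c549eb15784532e5 (k8 d3274 d3147 d3281 i540 d3076 d420 d3 d3283 (k8 d3285 d3034 d3042 d427 d101 d3037 d3067 d3056 (k8 d3095 d227 i223 i2358 d3130 d2780 d2978 d118 (k8 d3277 d366 d5 d12 d47 d54 d92 d3117 (k8 d3114 i1406 i537 d3286 d35 d3072 i369 d3013 (k8 d3200 d2923 d1853 d2291 d3123 d1821 d73 i1792 (k4 d1527 i249 d435 d3276 (k2 i1398 d3136 (k1 i802 k0))))))))) (by decide +kernel)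
def d3288 : PP 8 4 T 0x1000000000000000000000000000000000000000008400001000000000004200000 := rS 0x57668969c182c9b60a692aa150e440b88c1c66891ac86042eb1c68cf (k8 d602 d3287 i413 d3072 d3078 d3080 i628 d3046 (k8 i355 i354 i2125 d3034 d3042 d51 d53 d68 (k8 d3088 d5 d3112 i604 d427 d467 d3130 d73 (k2 i502 d3052 k0)))) (by decide +kernel)
def d3289 : PP 8 4 T 0x1100000000000000000000000000000000000000008400001000000100004000000 := rS 0x196510529d363959c4cb87d42ad6205743b34e6254ad38a6182caacda6b2205d5a692a88c1c660390cca0909810071567ac55e11198d02a99 (k8 d3147 d3288 d3287 i113 d3281 i540 d3076 d602 (k8 d3 d2670 d3064 d3110 i1349 i1022 d3280 i520 (k8 i355 i354 i2125 d3082 d3115 i1353 d3034 d3042 (k8 i548 d3112 i2359 i604 d427 i2358 d122 i1673 (k8 d3130 d3100 d73 d478 i502 d438 d349 d387 (k8 d67 d3052 d368 d3071 d3045 i1445 d3134 d1011 (k2 d3065 i2368 (k1 d112 k0)))))))) (by decide +kernel)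
def d3290 : PP 8 4 T 0x1000000000000000000000000000000000000000008400001000000100004000000 := rS 0x174ae182108c2e4547814b2553483cd7040a8462e34 (k8 d3287 d44 d3281 d3288 d3289 d366 d5 d431 (k8 d474 d92 i354 d3058 d3037 d3030 i247 d3042 (k4 d427 i442 d3074 d3121 k0))) (by decide +kernel)
def d3291 : PP 8 4 T 0x1000000000000000000000000000000000000000008800001000000000004000000 := rS 0x600a15211142234 (k8 d3287 d3281 d3095 d3042 d3080 d3280 d1072 d3129 k0) (by decide +kernel)
def d3292 : PP 8 4 T 0x1000000000000000000000000000000000000000008000001000000000004000000 := rS 0x1148606020b0be34 (k8 d3287 d3291 d3290 i1238 i1237 d3280 d3067 d3042 k0) (by decide +kernel)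
def d3293 : PP 8 4 T 0x1000000000000000000000000000000000000080000000001000000000004000000 := rS 0x63 (k2 d3292 d3101 k0) (by decide +kernel)
def d3294 : PP 8 4 T 0x1000000000000000000000000000000000000000000000201000000000004000000 := rS 0x63 (k2 d3292 d3089 k0) (by decide +kernel)
def d3295 : PP 8 4 T 0x1000000000000000000000800000000000000000000000001000000000004000000 := rS 0x63 (k2 d3292 d3106 k0) (by decide +kernel)
def d3296 : PP 8 4 T 0x1000000000000000000000000000000000000000000000001000020200004000020 := rS 0x5693d56fc5287d7071698c546c965a856a7d8815c4a180bc141c5533164464421945ca63 (k8 d3292 d3274 d3294 d3280 d3042 i2125 i604 i355 (k8 d68 i354 d5 d3034 d427 d3130 i502 d438 (k8 d67 d349 i309 i545 i121 i2192 i17 d0 (k8 d70 i1118 i1304 i1384 d2399 d2400 d3062 i1290 (k1 d1118 k0))))) (by decide +kernel)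
def d3297 : PP 8 4 T 0x1000000000000080000000000000000000000000000000041040000100004140144 := rS 0x218537e82d4e112218ca2b3 (k8 d3295 d3294 d3292 d3042 d3102 d359 d462 d2859 (k2 i564 d399 (k1 d2993 k0))) (by decide +kernel)
def d3298 : PP 8 4 T 0x1000000000000000051140010540000000000000500000001005000000004108000 := rS 0xc35fd3a0a6d (k4 d3112 d5 d122 d1932 (k2 d433 i2036 k0)) (by decide +kernel)
def d3299 : PP 8 4 T 0x1000000000000000001150010500000000000010000000001000020000004100020 := rS 0x1363967274d40e518ed8ec9349987e3d1bb1422444bc51a64f0481c260316a243017218bd3263 (k8 d3292 d3147 i316 d3280 d3034 d427 i231 d3296 (k8 i65 d3109 i519 i2105 d3062 d3297 d417 d407 (k8 d3042 d3102 d1850 d2251 d1889 d1887 i355 d3088 (k8 i121 i2241 i392 i2192 i354 d3298 i1908 i548 (k2 i360 i1151 (k1 i2034 k0)))))) (by decide +kernel)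
def d3300 : PP 8 4 T 0x1001000000000000000000014000000000000010000400001000020000004100020 := rS 0x2e8a102a660878a47f5caed7aa5a102996a15a9f6205712c141c553316446446993c5a090c05c86070980ca263 (k8 d3292 d3294 i65 d3109 i519 d3280 d3034 d427 (k8 i2105 d3296 d3062 d3297 d3042 i2125 i604 i355 (k8 d68 i354 d5 d3130 i502 d438 d67 d349 (k8 i309 i545 d442 d436 i362 d378 d58 d99 (k8 d100 i2037 i565 i1305 d3299 i1860 i242 i571 (k1 d2571 k0)))))) (by decide +kernel)
def d3301 : PP 8 4 T 0x1000000000000000000000014000000000000010000400001000020000004100020 := rS 0x148a605abca6fc6993c061303a8c8e33659b422a104ad62057128602f0507154cc5911910862d729456663 (k8 d3292 d3295 d3294 d3274 d3296 d3280 d3042 i2125 (k8 i604 i355 d68 i354 d5 d3034 d427 d3130 (k8 i502 d438 d349 i2105 i309 d3102 d3112 i545 (k8 i113 i264 i2192 i519 d3109 i65 d3062 d3297 (k4 d3300 d412 d347 d388 (k2 d2859 d2405 (k1 d2526 k0))))))) (by decide +kernel)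
def d3302 : PP 8 4 T 0x1000000000000000000000014000000000000000000400001000020000004100020 := rS 0x4da5c72ce4e9a976a55ea4d1342303f582a75c938a715380c552a31db1d2a2f649a5963f1e8246ec5089d56b102b894301782838aa662c88c884316a64a263 (k8 d3292 d3294 d3147 d3296 d3280 d3042 i2125 i604 (k8 i355 d68 i354 d5 d3034 d427 d3130 i502 (k8 d438 d349 i1062 d3102 d1850 d2251 i2105 d1889 (k8 d1887 i545 d3088 i121 i316 i1098 i2241 i392 (k8 i2192 d989 i17 d3301 d361 i798 d1155 i1407 (k8 d2837 d2291 d395 d3116 d436 i1277 i1281 d378 (k8 d421 d58 d3298 i1908 i548 i360 i1983 i1151 (k1 i2034 k0)))))))) (by decide +kernel)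
def d3303 : PP 8 4 T 0x1000000000000000000100000000008010000000880000001005460500004000000 := rS 0x974d8e59c9d64a9e2a99 (k8 d3147 d28 d2837 i121 i1908 i548 i360 i1450 (k2 i1982 i2034 k0)) (by decide +kernel)
def d3304 : PP 8 4 T 0x1000000000000000000100020000000000000000000000001000020000004100020 := rS 0xbf61d38d60e518ed8e3f1e8dd8a112229576694498012180b90d4ec18aa48cc2f188b4c699 (k8 d3147 d3292 d3296 i17 i316 i355 i1621 d28 (k8 d2291 d2837 d3280 d3034 d427 i2105 i1622 i1277 (k8 d3088 i1559 i1285 d3042 d3102 d1850 d2251 d1889 (k8 d1887 i2241 i392 i2192 i354 d3303 d122 d433 (k2 d59 i2036 k0))))) (by decide +kernel)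
def d3305 : PP 8 4 T 0x1000000000000000000000020000000000000000000400001000020000004100020 := rS 0x505d41ac178810f9c16e4e0eb494e898a98124030981c5e2b1fa847a09138456b102b894301782838aa662c88c884316a64a263 (k8 d3292 d3294 d3147 d3296 d3280 d3042 i2125 i604 (k8 i355 d68 i354 d5 d3034 d427 d3130 i502 (k8 d438 d349 d3102 d3122 i2105 d1889 i309 d1887 (k8 i385 i316 i519 d3109 i65 i1621 i1622 d28 (k8 i1277 d2837 d417 d42 d3297 d3048 d3062 i1269 (k4 i2839 d3304 i1291 i1415 (k2 i1847 i2031 (k1 d2571 k0)))))))) (by decide +kernel)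
def d3306 : PP 8 4 T 0x2001000000000000000000600000400000000000000000000001001460100004000000 := rS 0x729da7c5d3e97 (k4 d407 i1183 d44 d437 (k2 i1911 i360 (k1 d3128 k0))) (by decide +kernel)
def d3307 : PP 8 4 T 0x1000000000000000000000000000000000000000000400001000020000004100020 := rS 0x434a66e40a687278899710f4e35af49e714ba9d12bf8a29014fd552b45a8588334ae271b8244a8f1e8fc22182c9b60a692a9102e3b2388c1c66218bc0e1354a462e3328a64c6e5 (k8 d3274 d3292 d3147 d3294 i113 d44 d3044 d989 (k8 d3109 i519 i316 d3280 i355 i354 i2125 i264 (k8 i392 d3034 d3042 d68 d3088 d5 d3112 i604 (k8 d427 d3102 d1887 d1889 d3058 d3130 i2105 d2251 (k8 d3122 i502 d1169 d438 d387 d3296 d3305 d3302 (k8 d72 i579 i580 d2890 i1721 i277 d2532 d407 (k8 d361 d3062 d3306 i586 d122 d478 d3052 d368 (k8 d3043 d3045 i2034 i1337 i1073 i571 d356 d399 k0)))))))) (by decide +kernel)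
def d3308 : PP 8 4 T 0x1000000000000000000000000000000000000000000400001000020000004100000 := rS 0x19a1011a3cb2472a9a4d65d2b8960818210082e45028ce2ee5 (k8 d3274 d44 i113 d3307 d3037 d3030 d3064 d3042 (k8 d427 d2670 d1828 d1829 d3074 d366 d431 d474 (k4 d81 d92 d3058 i247 (k2 d3121 d1305 (k1 d2675 k0))))) (by decide +kernel)
def d3309 : PP 8 4 T 0x1200000000000000000100108000000000000000000400001000000000004020010 := rS 0xb5869495eb7a21f686572782c5b11a79fd986b0111cb25d21114a2b3 (k8 d3295 d3294 d3037 d3042 d3074 d92 d81 d3064 (k8 d366 d2675 i849 d73 d454 d2628 d3167 d3152 (k8 d1829 d458 i1595 d3151 d424 d91 d3135 d74 (k2 i882 d481 k0)))) (by decide +kernel)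
def d3310 : PP 8 4 T 0x8001000000000000000001000000110000000020000000000001000004400004000008 := rS 0x4aa8c622d44ae4e663 (k8 d3292 d3293 d43 i191 d2628 d1819 i1594 i1598 (k1 d678 k0)) (by decide +kernel)
def d3311 : PP 8 4 T 0x101000000000000000001000004100000000040000000000801000014000004000010 := rS 0x12b423ea845eb586bf4301716a25271618808c6e5 (k8 d3274 d3292 d3064 d1819 d468 d480 i191 d2628 (k8 d3030 d427 d22 d74 i883 d3210 i310 d3310 (k2 d481 d447 (k1 d2370 k0)))) (by decide +kernel)
def d3312 : PP 8 4 T 0x8011200000000000000100000000000000000040010000000441000000000004000000 := rS 0x1286e7e2a4c651 (k4 d3294 d3292 d3057 d399 (k2 d2980 d2358 (k1 i1058 k0))) (by decide +kernel)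
def d3313 : PP 8 4 T 0x1200000000000000000100000000000000000000000400001001010000004020010 := rS 0xa2afe86ae5dad16e7d861c5525355b0562c92ba0c9e0b16ab5965588c5866313fa958cc512bc69ecc358088e592e9088ac328accc6e5 (k8 d3274 d3292 d3295 d3294 d1838 d3037 d3042 d3074 (k8 d92 d81 d3064 d366 d2675 d73 d393 d1828 (k8 i1792 d435 i415 i849 d1819 i192 d468 d454 (k8 d474 d54 d12 d2628 d3167 d3152 d1202 d1829 (k8 i1122 i1761 i1694 d3309 d3311 d3057 d3177 d3312 (k8 d394 d352 i2037 i1948 d3135 d55 i1455 d91 (k1 d87 k0))))))) (by decide +kernel)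
def d3314 : PP 8 4 T 0x21000000000000000000000040000000000000000000400001000000000004020010 := rS 0x162b729a24ba4f059085a02229456663 (k8 d3292 d3295 d3294 d3037 d3064 d2628 d3042 d3167 (k4 d3152 d3074 i191 d369 (k2 d352 d3219 (k1 d3135 k0)))) (by decide +kernel)
def d3315 : PP 8 4 T 0x8011200000000000000100000000000000000040000000500441000000000004000000 := rS 0x1c15263 (k4 d3292 d3057 d3312 d3177 k0) (by decide +kernel)
def d3316 : PP 8 4 T 0x1200000000000000000100000000000000000000000400001000010000004020010 := rS 0x500bc3afd294343eaf698f0fe180bb249e0b16a0624cc35964ba4222c58664718808c6e5 (k8 d3274 d3292 d3064 d1819 d81 i192 d468 d3037 (k8 d3042 d3074 d92 d366 d2675 d3046 d46 d2628 (k8 d3167 d3152 i1122 d3030 d427 i849 d3313 d88 (k8 i1782 i1307 d3314 d3315 d22 i716 d3210 d479 (k1 i310 k0))))) (by decide +kernel)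
def d3317 : PP 8 4 T 0x8011000001000000002000200000400000000100000000010801000004000806000408 := rS 0x5147ad35b079447e1f9f542a5608bd6a1d7ec468663 (k8 d3292 d378 d454 d22 i716 i882 d3210 i1574 (k8 i249 i310 d3310 i1411 d481 i1663 i1664 i848 (k4 d375 i1307 d424 d365 k0))) (by decide +kernel)
def d3318 : PP 8 4 T 0x1200000000000000000000000000000000000000000400001000010000004020010 := rS 0x228944bd15f8b658aa4a70d4dabd4ebc5cc584433661648e55358602e3144b244a4f058b4048189174844578b0d32633994566e5 (k8 d3274 d3295 d3294 d3293 d3292 d3147 d1838 d393 (k8 d3037 d3042 d3074 d3046 d46 d3064 d2628 d3167 (k8 d3152 d1828 i1122 i191 d1819 d3030 d427 d366 (k8 d474 d81 d92 d2675 i192 d1305 d468 d43 (k8 d3316 i1984 i1986 i1417 d3314 d3317 d3057 d3219 (k4 d3135 d399 d424 i1902 (k2 d2358 d3063 (k1 d350 k0)))))))) (by decide +kernel)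
def d3319 : PP 8 4 T 0x1000000000000001000001000000000000000000400000000000000000000001001000800004000000 := rS 0xfda699 (k4 d3147 d358 i405 d365 k0) (by decide +kernel)
def d3320 : PP 8 4 T 0x11000000000000000000000000000010000000000000400401000014000004020010 := rS 0x16a1e69a8926b98b0c582ad528248d05078745e3d50d156cb1449754eaf7e13c1642168088af1729456663 (k8 d3292 d3295 d3294 d3274 d393 d3037 d3064 d2628 (k8 d3042 d3167 d3152 d399 d347 i1912 d3074 i191 (k8 d3219 d3135 d424 i819 i1784 d3319 i722 i340 (k8 d3318 d1836 d413 i208 d360 i1533 d1819 d468 (k4 d43 d480 d665 d253 (k2 d479 i1395 (k1 d3039 k0))))))) (by decide +kernel)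
def d3321 : PP 8 4 T 0x1000000000000004000000000000000000000000000000001000808000004000008 := rS 0xc6 (k2 i398 d3262 k0) (by decide +kernel)
def d3322 : PP 8 4 T 0x1000000000000000080000080200000000000000000000001800000000004000000 := rS 0x2ed94a3 (k4 i115 i209 i1679 i626 k0) (by decide +kernel)
def d3323 : PP 8 4 T 0x1100001000000000080000080400010000000001000000001000014000004000010 := rS 0xfda6a53553c5a895ca4cd29d8b0c68a3d059088a2f7eb040e4607809ca63 (k8 d3292 d3274 d3064 i340 d1836 i460 i1534 d347 (k8 d3210 d3037 d3042 d3167 i1782 d91 d1819 d468 (k8 d452 d3036 d480 d43 i191 d2628 d381 d467 (k4 d3322 d253 d2644 d365 k0)))) (by decide +kernel)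
def d3324 : PP 8 4 T 0x1100000000000000000000080000010000000000000000001000810000004020010 := rS 0x1fb4d44a5659ad8ec103a9c5e3da2bf45a89059088af1369181eb949c5866cf18809ca63 (k8 d3292 d3274 d3064 d1819 i1145 d3321 d468 d480 (k8 d43 i340 d1836 d1847 d393 d3037 d3042 d3167 (k8 i191 d2628 d347 d91 i1782 d3210 i334 i460 (k8 i1534 d3323 d2129 i625 i209 d665 d253 i406 (k1 d365 k0))))) (by decide +kernel)
def d3325 : PP 8 4 T 0x800000000000000001000000000000004000450000001454000000000000000001000000000004000000 := rS 0x27d7a99 (k4 d3147 d437 d89 i2048 k0) (by decide +kernel)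
def d3326 : PP 8 4 T 0x1000000000000000000000000000010000000000000400001000010000004020010 := rS 0x4b4d44a555b18d54f5fa6c7ebba22c5829703c51422f7e94a1aaf16a24166d61ae526c534a762c33678e9e23914c48ba42228602e371891a0a0f013956663 (k8 d3292 d3295 d3274 d3064 i340 d3318 d1836 d1819 (k8 d3111 d3030 d427 d3037 d3042 d3074 d3046 d386 (k8 i234 d393 d3054 i1145 d3321 d468 d452 d3036 (k8 i1535 d480 d43 d1838 d1847 d3167 i191 d2628 (k8 d3324 d3314 d3320 d22 d3210 i310 d2638 i454 (k8 d407 i1534 d3075 d414 d376 d459 d56 d82 (k8 d3325 d467 d435 i585 i414 d665 d253 i201 (k1 d442 k0)))))))) (by decide +kernel)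
def d3327 : PP 8 4 T 0x1000000000000000000000002000000000000000000000001000000000004000008 := rS 0xb9fa63 (k4 d3292 d374 i1084 d3210 k0) (by decide +kernel)
def d3328 : PP 8 4 T 0x1001000000000000000000000000000000000000000000400001000000800004000010 := rS 0x4316c6f309c5524f058b4045d21114e663 (k8 d3292 d3293 d3037 d3042 d3074 d3064 d2628 d3167 (k8 d3152 d3327 d3177 i1015 d3195 d2990 d383 d352 k0)) (by decide +kernel)
def d3329 : PP 8 4 T 0x1000000000000000000000000040020000000008000000001000000000004000010 := rS 0x233a1f86202129088ae5 (k8 d3274 d3037 d3042 d1828 d3064 d1819 i1058 i1057 (k2 i1663 d124 k0)) (by decide +kernel)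
def d3330 : PP 8 4 T 0x1001000000000000000000000000000010000000000000400001000004000004100010 := rS 0x4148f16338c41e2562bf44e111a93c16131c8a6245d2111430171eb485e2d44809ca63 (k8 d3292 d3274 d3064 i191 d2628 d3328 d417 d88 (k8 d3030 d427 d3037 d3042 d3074 d3046 d386 i234 (k8 d3108 d3167 d3152 d3308 d3326 d3122 d3242 d1850 (k8 d1828 i340 d1819 d3277 d468 d2638 d3001 d1836 k0)))) (by decide +kernel)
def d3331 : PP 8 4 T 0x1001000000000000000000000000000010000000000000400001000000000004100010 := rS 0x829662255231998621193144ec7088084a57438ad1e180b8d45285891748445 (k8 d3037 d3042 d3074 d3046 d53 d386 d3308 d3030 (k8 d427 i1130 i896 d1017 d1829 d1828 d3064 d3326 (k8 d3252 d3122 d1850 d3330 i1612 i2112 i193 i192 (k4 i703 d505 i544 d81 (k1 d438 k0))))) (by decide +kernel)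
def d3332 : PP 8 4 T 0x1001000000000000000000000000000000000000000000400001000000000004100010 := rS 0x4148e64551816f0c37a51462f0c05c1e3538aa49e0b16808ba4222b94c673 (k8 d3293 d3292 d3274 d3037 d3042 d3074 d3064 d2628 (k8 d3167 d3152 d3327 d3177 d3308 i340 d3030 d427 (k8 d3328 d1639 d3331 d3329 d383 d352 d2815 i1019 (k4 i1018 i1655 d47 d1836 k0)))) (by decide +kernel)
def d3333 : PP 8 4 T 0x21000000000000000000000000000000000000000000400001000000000004100010 := rS 0x14e1d0434c3eb7418ad023f03bf44e3d58a5d422f2782c5a02098e453122e9088a180b8452b141a9456663 (k8 d3292 d3295 d3294 d3308 d3332 d350 d3326 d3030 (k8 d427 d3037 d3042 d3074 d3046 d386 i234 d3108 (k8 d3064 d2628 d3167 d3152 d423 i310 d407 d3075 (k8 d1361 d3122 d3242 d3243 d197 d46 i896 d1202 (k4 d352 d476 d3125 d442 (k2 i1261 i202 (k1 i2031 k0))))))) (by decide +kernel)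
def d3334 : PP 8 4 T 0x1100000000000000000000000000000400000000000000001080008000004400008 := rS 0xb066 (k2 i193 d1798 (k1 i544 k0)) (by decide +kernel)
def d3335 : PP 8 4 T 0x1000000000000001100000000000000051000080040010000000000000000001084550400004400008 := rS 0x2ee9ea44f2e53acf8b19c66bd55b0c8c3116a241e8f0c04dca63 (k8 d3292 d3274 d3108 d427 i1130 i340 i191 d2628 (k8 d1819 d1836 i210 i1655 i1987 d3334 d3277 d468 (k8 d3069 d452 d43 i2035 d678 d89 i1685 d167 k0))) (by decide +kernel)
def d3336 : PP 8 4 T 0x1200000000000000000000000000000000000000000400001000000000004100010 := rS 0xcccc4701094263914c48ba42228602ec508a562835 (k8 d3308 d3332 d350 d3326 d1850 d3030 d427 d3037 (k8 d3042 d3074 d3046 d386 i234 d3108 d1828 d3064 (k4 d81 d3001 i192 d3277 k0))) (by decide +kernel)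
def d3337 : PP 8 4 T 0x1000000000000000000000000000000000000000000400001000000000004100010 := rS 0x3f1616acb0f022227da1a95a6215115582c31991a0a1d294355d45038edfaf01f8f58a2763a85621117a5d2b14098e50a298913d1e2b43974ae250583d122d0c1086e020b9146ae528acd3263 (k8 d3292 d3147 d3295 d3294 d3274 d3308 d3037 d3030 (k8 d3064 d3111 d3042 d427 d2628 i191 i340 d3167 (k8 d1828 d1829 d3074 d1017 i896 i1130 d3152 d3046 (k8 d386 d53 i234 d3108 d3332 d350 d407 d423 (k8 d3326 d3075 i310 d3252 d3122 d1850 d1361 d197 (k8 d371 d3242 d416 d3243 d1926 d414 d3333 d399 (k8 i716 d3336 d1836 d3334 i210 i1534 d3083 d3335 (k8 d2418 d375 i115 d469 i1594 d505 d442 d479 (k4 i1387 i1395 d438 d481 (k1 i845 k0)))))))))) (by decide +kernel)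
def d3338 : PP 8 4 T 0x1000000000000000000000000000000000000000500000001400008000004154000 := rS 0x13e6c62b1d86cf (k4 d3070 i291 d3252 d1850 (k2 d1837 i1711 (k1 d3113 k0))) (by decide +kernel)
def d3339 : PP 8 4 T 0x1000000000000000000000000000000000000000000400001000008000004100000 := rS 0x5d66908f639229b5e2102b9d4263b8b9ac1e6923a3cb304018106a63 (k8 d3292 d3308 d3337 i65 d2978 d92 d3058 d81 (k8 d431 d5 d366 d3007 i392 d3109 d460 d3035 (k8 d3338 d393 d1847 d3102 d3103 d2466 d3042 d1107 (k2 d3074 d3060 k0)))) (by decide +kernel)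
def d3340 : PP 8 4 T 0x1000000000000000000000000000010000000000000400001000000000004120000 := rS 0x1445b25d5e9b37c50a4fd16a440ec956995963005ac46c833ca0624b9499d19857359b4ce3323c5cf6f11d8e51e598200c6a712785952042e9088ab34c9ccc6e5 (k8 d3274 d3292 d3293 d3147 d3295 d3102 d3042 d3074 (k8 d3337 d989 i518 d3033 d3177 d3308 i65 d2978 (k8 d92 d3058 d3103 i392 d393 d2466 d3007 d81 (k8 d3339 d3277 d3114 d366 d3117 d3060 d1107 i1590 (k8 i2647 d3046 d46 d3094 d1202 i524 d3077 d3168 (k8 d468 d54 d47 d12 d370 i519 d3044 d2301 (k8 d2300 d3029 d2871 i968 i994 d3137 d407 i2045 (k2 d414 d424 k0)))))))) (by decide +kernel)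
def d3341 : PP 8 4 T 0x1000000000000000000000000000000000000000000400001000000000004120000 := rS 0x1fa6f1645528c662d3c9ecc0b1744a425382c8ac37881cd6652396608030215cda67198d4c6e5 (k8 d3274 d3292 d3308 d3339 d3277 d3114 d3117 d3337 (k8 i65 d2978 d92 d81 d47 d366 i519 d393 (k8 d1838 d3102 d3168 i1913 d3042 d1828 d3074 i518 (k8 d3060 d3033 d73 i1792 d435 d3340 d350 d3021 (k2 i2644 d2838 (k1 d3260 k0)))))) (by decide +kernel)
def d3342 : PP 8 4 T 0x1000000000000000000000000000000000000000000400001080000000004100000 := rS 0x5d12994aa596103c266b3699c6647639a60803020d58a11 (k8 d3341 d1850 d3308 d3337 i65 d2978 d431 d3252 (k8 d81 d3339 d3277 d3114 d366 d3109 d5 d1837 (k4 d92 d474 d47 d1828 (k2 d3074 d2996 k0)))) (by decide +kernel)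
def d3343 : PP 8 4 T 0x1000000000000000000000000000020000000000010000001000000000006110020 := rS 0xb42663 (k4 d3292 d3109 i2715 d2992 k0) (by decide +kernel)
def d3344 : PP 8 4 T 0x1000000000000000000000000000000000000000000400001000000000004100000 := rS 0x2bca42d7ea55265c5c880e8250c1102e43613158e11368c0ce332c91caa69659955ac9079ae09170980c08354898ca2e5 (k8 d3274 d3294 d3292 d3044 d3308 d3337 i65 d3109 (k8 d3007 d2978 d366 d5 d370 d12 d47 d54 (k8 d431 d474 d81 d92 d3339 d3277 d468 d3114 (k8 d3341 d3252 d1850 d1837 d3342 d3034 d3042 d427 (k8 i346 i1041 i1042 i2718 d2996 i2930 d3343 d2300 (k4 d2399 d3029 d3137 i570 k0)))))) (by decide +kernel)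
def d3345 : PP 8 4 T 0x1200000000000000000000000000000000000000000000001000000000004200000 := rS 0x45c663518a741e04018e9ca63 (k8 d3292 d3274 d3081 d3079 d3078 d5 d3011 d3013 (k4 i354 i399 d3007 d468 k0)) (by decide +kernel)
def d3346 : PP 8 4 T 0x1000000000000000000000000000000000000000000400001000000000004000000 := rS 0x330b26b34954ae6d330cc1c3482a3c4a470c2150e440bc4886030217428e5 (k8 d3274 d3344 d3072 d3078 d3079 d3080 d3046 d3034 (k8 d3042 d51 d53 d427 d227 d3130 d595 d3345 (k8 d2978 d1836 i113 i355 d3112 i502 d118 d3088 (k4 i2371 i544 d3052 d1015 k0)))) (by decide +kernel)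
def d3347 : PP 8 4 T 0x1000000000000000000000000000000000000000000000001200000000004000000 := rS 0x5e (k2 d3346 d3095 k0) (by decide +kernel)
def d3348 : PP 8 4 T 0x1000000000000000000000000000001000000000000000001000000000004000000 := rS 0x5e (k2 d3346 d3097 k0) (by decide +kernel)
def d3349 : PP 8 4 T 0x1000000000000000000008000000000000000000000000001000000000004000000 := rS 0x1665e (k2 d3346 d3295 (k1 i853 k0)) (by decide +kernel)
def d3350 : PP 8 4 T 0x1000000000000000000000000000000000000000000000001040000000004000000 := rS 0x45 (k2 d3347 d3042 k0) (by decide +kernel)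
def d3351 : PP 8 4 T 0x1000000000000002000000000000000000000000000000001000000000004000000 := rS 0x90 (k2 d3348 d3098 k0) (by decide +kernel)
def d3352 : PP 8 4 T 0x1000000000000000000000000000000000000000000008001000000000004000000 := rS 0x42 (k2 d3350 d1829 k0) (by decide +kernel)
def d3353 : PP 8 4 T 0x1000000000000000000000000000000000000000000000001000000000004200000 := rS 0x42 (k2 d3350 d3080 k0) (by decide +kernel)
def d3354 : PP 8 4 T 0x1000000000000000000000000000010000000000000000001000000000004000020 := rS 0x7cdcb129bf0171551aa40e192a93d5acb4e8c16a7d881d446c23699d8a771983e2e11239a4d6130b23cb3041a80cbc632b9cc84b70ab35ca45 (k8 d3347 d3274 d3351 d3353 d3349 d3350 d3293 d3352 (k8 d3292 d3346 i65 d3280 d2978 d92 d3058 i518 (k8 d3109 d366 d431 d81 i2342 d3007 d2960 d3338 (k8 i712 d1850 d3277 d3114 d2835 i251 i971 d422 (k8 d67 d349 d468 i1511 d54 d12 d3033 d3032 (k8 i228 i519 d989 i1651 d3126 d3127 d3131 d412 (k4 d455 d2581 d2979 i969 k0))))))) (by decide +kernel)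
def d3355 : PP 8 4 T 0x1000000000000000000000000000000000000000000000001000000000004000020 := rS 0xb173154a308da67199648e69329ac1f048bb146a111784c06990a98cbc42 (k8 d3350 d3346 d3292 d3353 d3147 i65 d3109 i316 (k8 i2342 d3280 d1850 d3007 d2978 d2960 d366 d47 (k8 d431 d81 d92 d3338 d3277 d3114 d2835 d3354 (k4 d350 i104 d2992 d3132 k0)))) (by decide +kernel)
def d3356 : PP 8 4 T 0x1000000000000000000000000000000000000000000000001000000000005000000 := rS 0x8405 (k2 d3355 d3350 (k1 d1072 k0)) (by decide +kernel)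
def d3357 : PP 8 4 T 0x1000000000000000000000000000000000000000000000001000000000004010000 := rS 0x54bc18 (k4 d3356 d3346 d3353 d3129 k0) (by decide +kernel)
def d3358 : PP 8 4 T 0x1000000000000000000000000000000000000000000000001000000000004000000 := rS 0x2f0542018 (k4 d3356 d3357 d3353 d3346 (k1 d1290 k0)) (by decide +kernel)

end Pool.Agent.H551.GP.E84n
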