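import Pool.Agent.H551.GP.Step

/-! Certificate data. -/

set_option linter.all false
set_option maxRecDepth 100000

namespace Pool.Agent.H551.GP.E84n

def T : Nat := 0x1c1901501014c1014810144101c150181501d010190100d01009010050101cc1018c1010c1008c1004c101c81018810108100c810048101c41018410104100c410084101c11018110141101c0d0180d0100d0140d005c101c0900581018090100900c090054101409019c1015c1011c100dc1009c101c0501d81015810118100d81009810180501d4101941011410100500d4100c05009410080501405011c901d9101d8d0158901189019c501c5901d8501855019d501d9501d590159101d4d0158d015c901c9501d4901895019490114901d45015850194500d45019d101d19015d101d5101d150195101915011cd0118d01c9101d0901505019cd01cd9015cd01cd50194d018d501d0d01cd10190d018d10114d0150d014d1019c901d8901c990190901891015090149100dc901cc901c8d00d89018c90188d00d49014c90148d00d09010c90108d01885008c500c4900c85015c501c55011c501d0501c51011850190501851011450145100dc501cc501c4d00d85018c50184d014c50144d00d05010c50104d009c501c8501c490098501849009450148501449009050108501049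

end Pool.Agent.H551.GP.E84n
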