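import Pool.Agent.H551.GP.E84na
import Pool.Agent.H551.GP.E84nb
import Pool.Agent.H551.GP.E84nc
import Pool.Agent.H551.GP.E84nd

/-! Certificate data. -/

set_option linter.all false
set_option maxRecDepth 100000

namespace Pool.Agent.H551.GP.E84n

def z1 : PP 8 4 T 0x1000000000000000000000000000000000000000000000000000000000004000000 := rS 0x49 (k2 c2361 d3358 k0) (by decide +kernel)
def z2 : PP 8 4 T 0x1000000000000000000000000000000000000000000000000000000000000000000 := rS 0x1b (k2 b2917 z1 k0) (by decide +kernel)
theorem fin : ∀ d, Hyp 8 4 d → False := fS (T := T) (rS 0x109 (k2 a6192 z2 k0) (by decide +kernel))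

end Pool.Agent.H551.GP.E84n
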