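import Pool.Agent.H551.GP.E84x1

/-! Certificate data. -/

set_option linter.all false
set_option maxRecDepth 100000

namespace Pool.Agent.H551.GP.E84

def c4031 : PP 8 4 T 0x1055004156041000000000000000000000000000000000000 := rS 0x49a352a8f (k4 c971 c973 c1237 c1239 (k1 c2125 k0)) (by decide +kernel)
def c4032 : PP 8 4 T 0x100015500000000004158110000000000000000000000000000 := rS 0xe66f (k2 c1229 c1231 (k1 c2121 k0)) (by decide +kernel)
def c4033 : PP 8 4 T 0x10000000000000000000100815582000008280040000000004000000000000000000000 := rS 0x170befd2c9b8ec7b34984c67d419e6130d38a04ea8793d2662d7a6c05b72996cede74181bddf733 (k8 c3997 c4024 c4022 c4029 c4006 c4020 c4002 c3994 (k8 c3991 c4009 c4028 c3998 c4008 c3996 c3992 c3990 (k8 c3572 c3717 c3341 c3482 c1268 c485 c604 c644 (k8 c1773 c3705 c977 c828 c4032 c2091 c1093 c1112 (k4 c1263 c1378 c2086 c1338 k0))))) (by decide +kernel)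
def c4034 : PP 8 4 T 0x40015000000000000000000000000105605140000000000000 := rS 0x7635 (k2 c1222 c1223 (k1 c2113 k0)) (by decide +kernel)
def c4035 : PP 8 4 T 0x10000000000000000020040815082000008200000000000000001004100000010000000 := rS 0x884ad30f8d080451789c52472690de30d1b92c7a518ed1e5effa6b65b71f91ce617416ebddf733 (k8 c3997 c4024 c4022 c4027 c4006 c4019 c4001 c3988 (k8 c3985 c4009 c4026 c3998 c4007 c3995 c3986 c3984 (k8 c3533 c3716 c3308 c3481 c1268 c221 c340 c380 (k8 c1765 c3694 c975 c788 c4034 c2081 c1053 c1104 (k4 c1258 c1370 c2076 c1298 k0))))) (by decide +kernel)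
def c4036 : PP 8 4 T 0x600000008000020000000000000800000100 := rS 0x705878431b8fc9673296acedbb03 (k8 c4029 c4027 c4002 c4025 c3991 c4001 c3989 c3985 (k4 c3983 c832 c1298 c535 (k2 c3099 c2071 k0))) (by decide +kernel)
def c4037 : PP 8 4 T 0x600000008001400000000020000010000000 := rS 0x581c0a0f1308c4ad3049601a5c86bf6371f92ce652d59db76071da3cbdff4d6cb6e67016bcc69327 (k8 c3990 c3992 c3996 c4008 c4028 c3997 c4009 c4026 (k8 c3998 c4007 c3995 c3986 c3984 c4029 c4027 c4002 (k8 c4025 c3991 c4001 c3989 c3985 c3983 c1263 c1268 (k8 c2086 c3273 c1338 c1060 c1258 c1370 c4036 c2076 (k4 c239 c351 c1020 c534 (k1 c2071 k0)))))) (by decide +kernel)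
def c4038 : PP 8 4 T 0x40015000054008000000040010264001405150040400000040 := rS 0x148945a270f83c080305024751b8fc9673296acedbb03 (k8 c4029 c4027 c4002 c4025 c3991 c4001 c3989 c3985 (k8 c3983 c2113 c1061 c2071 c303 c534 c304 c271 (k4 c806 c391 c1335 c1569 (k1 c2110 k0)))) (by decide +kernel)
def c4039 : PP 8 4 T 0x10001000000000000000000000004000000010000000420000800100000400001040 := rS 0x2c1205080984a0f69c6e3f259cca5ab3b6ec0e8effa4b5e3b2fa6b65b721 (k8 c3987 c4009 c4026 c3998 c3995 c3984 c4008 c3992 (k8 c4007 c3986 c4029 c4027 c4002 c4025 c3991 c4001 (k8 c3989 c3985 c3983 c1259 c1331 c1371 c2076 c2072 (k4 c351 c344 c534 c2071 k0)))) (by decide +kernel)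
def c4040 : PP 8 4 T 0x15000054008600010008011004000005140040010000000 := rS 0x52251689c3e0f01828c409390e88e07118d41a582d9718e49a143622fd2fc6e3f259cca5ab3b6ec0e4f4998b5e9b016dbfe66ed70ba66b07 (k8 c4013 c3999 c4015 c4011 c4017 c3997 c4007 c4009 (k8 c4028 c3998 c4008 c3996 c3992 c3990 c4029 c4027 (k8 c4002 c4025 c3991 c4001 c3989 c3985 c3983 c1378 (k8 c1263 c1540 c1268 c2098 c1548 c1277 c2086 c840 (k8 c1338 c3273 c4037 c1297 c1019 c4039 c2113 c4038 (k8 c3112 c1110 c2071 c303 c304 c271 c806 c814 (k2 c1335 c1569 (k1 c2110 k0)))))))) (by decide +kernel)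
def c4041 : PP 8 4 T 0x10000000000000000000000000002000200000004400002000000000000000000000000 := rS 0x1093c9b0d6a594cb676f3a0c0def01 (k8 c4028 c4022 c4029 c4006 c4020 c4002 c3994 c3991 (k4 c80 c621 c976 c1928 (k2 c480 c2091 k0))) (by decide +kernel)
def c4042 : PP 8 4 T 0x40000000054008000000000008044001400000045400000800 := rS 0x148b43e03 (k4 c303 c271 c814 c1569 (k1 c2110 k0)) (by decide +kernel)
def c4043 : PP 8 4 T 0x10000000000000000000015500054008000000094008044000005150045400014000 := rS 0xa45a540a81816091d11c1ad26392685112c486371da3cbdff4d6cb6e66ed70ba66b07 (k8 c4013 c3999 c4015 c4011 c4017 c3997 c4009 c4026 (k8 c3998 c4007 c3995 c3986 c3984 c3983 c3987 c1609 (k8 c1540 c2098 c1548 c1277 c2076 c1256 c1259 c2113 (k8 c3112 c4042 c2105 c648 c1022 c815 c3537 c2110 k0)))) (by decide +kernel)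
def c4044 : PP 8 4 T 0x100000000000000094000420000000150002010014000 := rS 0x382c3c0906884071d8fcbe73336ccf5bb0f (k8 c4030 c4027 c4003 c4026 c3997 c4001 c3995 c3985 (k8 c3984 c224 c312 c1367 c1106 c2075 c535 c3100 (k1 c2105 k0))) (by decide +kernel)
def c4045 : PP 8 4 T 0x10000000000000000000000000002000200000000000000000000010100008000000000 := rS 0x3c48645190c43ea58fc8e730ba0b75eed9 (k8 c4026 c4022 c4027 c4006 c4019 c4001 c3988 c3985 (k8 c80 c352 c357 c974 c1129 c1926 c216 c2081 k0)) (by decide +kernel)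
def c4046 : PP 8 4 T 0x10000000000000000000000000000000000000000001100000000000001000008000 := rS 0xbefd93d2662d7a6c05b725 (k8 c3989 c4009 c4028 c3998 c4008 c3996 c3992 c3990 (k2 c1261 c1375 (k1 c2086 k0))) (by decide +kernel)
def c4047 : PP 8 4 T 0x10000000000000000000015500054008000000094000044000005150045400004000 := rS 0x632c045a52794cc6773380cf6070f6ab6db34d7fcbe8f1d (k8 c3984 c3986 c3995 c4007 c3998 c4026 c4009 c4025 (k8 c4030 c4029 c4003 c4028 c3997 c4002 c3996 c3991 (k4 c3990 c2076 c198 c2085 (k2 c4043 c1110 k0)))) (by decide +kernel)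
def c4048 : PP 8 4 T 0x10000000000000000000000000080000200000004400080000000000000000000000000 := rS 0x1093c9b0d6ab94cb676f3a0c0def01 (k8 c4028 c4022 c4029 c4006 c4020 c4002 c3994 c3991 (k4 c82 c661 c984 c1928 (k2 c480 c2091 k0))) (by decide +kernel)
def c4049 : PP 8 4 T 0x15500054008200000094000464000005150044010014000 := rS 0x1288e1b33 (k4 c3997 c1268 c1297 c4044 (k1 c4047 k0)) (by decide +kernel)
def c4050 : PP 8 4 T 0x10000000000000000000000015502054218600014500050004000005100044010000000 := rS 0x382c3c2111095a6091a03c22fc2fa1610792c16cc50539174de37389fd934286c44c31b8fc9673296acedbb038ed1e5effa6b65b727a4cc5af017ccb5e7417bcadcf3574ccddae1 (k8 c4011 c4017 c3997 c4015 c3999 c4014 c3993 c4022 (k8 c4006 c4020 c3994 c4023 c4028 c4008 c3996 c3992 (k8 c3990 c4009 c4026 c3998 c4007 c3995 c3986 c3984 (k8 c4029 c4027 c4002 c4025 c3991 c4001 c3989 c3985 (k8 c3983 c4041 c1540 c1268 c2098 c1549 c1278 c3482 (k8 c3481 c4040 c1337 c2121 c1534 c2087 c842 c1609 (k8 c1929 c2091 c484 c1505 c2086 c462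 c1261 c4049 (k8 c1059 c1258 c1370 c2076 c832 c1298 c535 c3100 (k1 c2071 k0))))))))) (by decide +kernel)
def c4051 : PP 8 4 T 0x10000000000000000000015000054008000000000008064000005150045400000040 := rS 0x482c74476931c934288c6e3f259cca5ab3b6ec0e431da3cbdff4d6cb6e66ed70ba66b07 (k8 c4013 c3999 c4015 c4011 c4017 c3997 c4009 c4026 (k8 c3998 c4007 c3995 c3986 c3984 c3987 c4029 c4027 (k8 c4002 c4025 c3991 c4001 c3989 c3985 c3983 c1540 (k8 c2098 c1548 c1277 c2076 c1259 c2113 c4042 c3112 (k1 c2071 k0))))) (by decide +kernel)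
def c4052 : PP 8 4 T 0x10000000000000000000000015582050218600004400010004000004100044010000000 := rS 0x2c1221018900e231a960dc5b311720a5f7e9f0ce614faae1a37888f4eb1b8fc9673296acedbb0393cae62e79ac05d3496bd35b733 (k8 c3997 c4009 c3998 c4008 c3992 c4015 c4028 c3999 (k8 c4014 c3996 c3993 c3990 c4029 c4027 c4002 c4025 (k8 c3991 c4001 c3989 c3985 c3983 c3717 c3716 c1540 (k8 c3481 c1268 c82 c1510 c4041 c4048 c4050 c1264 (k8 c1379 c1535 c2086 c2087 c840 c1337 c1338 c4037 (k8 c1297 c1019 c4051 c225 c312 c1106 c535 c2071 k0)))))) (by decide +kernel)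
def c4053 : PP 8 4 T 0x40000000000000000000000000000000020814082050010000000000000000000000000000000000000 := rS 0x410f889849e84e2b20b44ca7745b24927f63d090e7588a04e30d598fd62392b875248c47a61371989a753e915ea952ec355ad576c1a4cae5ae779bbdf7036bbfe0f4d9ab6dd2e176cce6f3d7ad061ef7 (k8 c4022 c4030 c4006 c4021 c4003 c4000 c3997 c4017 (k8 c4011 c4015 c4009 c3999 c3998 c4013 c4007 c4008 (k8 c4029 c4024 c4018 c4020 c4014 c3994 c3993 c3992 (k8 c111 c109 c1518 c82 c167 c987 c80 c137 (k8 c979 c1510 c4031 c749 c1016 c868 c2097 c1516 (k8 c1133 c1135 c3016 c3071 c3145 c3146 c3148 c3149 (k8 c1268 c3482 c3341 c1540 c3717 c3572 c2098 c1277 (k8 c1278 c1548 c1549 c4033 c1096 c1776 c4035 c1056 (k8 c1774 c4045 c4052 c482 c682 c4032 c2094 c1535 k0))))))))) (by decide +kernel)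
def c4054 : PP 8 4 T 0x400000000000000000000800202000800000000001000000000000000000000000000 := rS 0x849a4d67a429e576bd93cb662f39bc05eb03 (k8 c4029 c4021 c4028 c4000 c4020 c3996 c3994 c3990 (k8 c137 c109 c629 c715 c1242 c1968 c827 c482 (k1 c2088 k0))) (by decide +kernel)
def c4055 : PP 8 4 T 0x400000000000000000000000000001000000008001100000000000000000000000000 := rS 0xd70993cb662f39bc05eb03 (k8 c4029 c4021 c4028 c4000 c4020 c3996 c3994 c3990 (k2 c482 c561 (k1 c2088 k0))) (by decide +kernel)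
def c4056 : PP 8 4 T 0x20000080000800000000000000000000002000040010000000 := rS 0x1e22f198c5a0292287d83138ec8e5f0b9bb65eafb (k8 c4024 c4021 c4026 c4000 c4019 c3995 c3988 c3984 (k8 c749 c111 c274 c445 c1681 c1782 c1967 c863 (k2 c788 c221 (k1 c2078 k0)))) (by decide +kernel)
def c4057 : PP 8 4 T 0x1000000000000000000100000000054000000040004051581000000020000050000004 := rS 0xfc3e1c4c60b00015632b94d2676d7a7c0dbf1b8ec965f276acc5b301 (k8 c4028 c4026 c3996 c4025 c3990 c3995 c3989 c3984 (k8 c3983 c4010 c4029 c4004 c4008 c4002 c3992 c3991 (k8 c3993 c624 c575 c2070 c567 c755 c1304 c2118 (k2 c2089 c1264 k0)))) (by decide +kernel)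
def c4058 : PP 8 4 T 0x400000000000000000020814002055020000000000040101000000020000000000000 := rS 0x3eacdf87b589d4e26d39960b603379a4ca1d2b984be7f64d0a2ab560c5c3e8d4ca4c448e4d4ae53499db5e9f036fc9e633380cf61eed70bae7ee7 (k8 c4014 c4005 c4016 c4011 c4017 c4030 c4003 c4028 (k8 c3997 c3996 c3990 c4010 c4029 c4004 c4008 c4002 (k8 c3992 c3991 c3993 c1787 c866 c1305 c73 c1135 (k8 c1508 c1099 c1545 c111 c1518 c1274 c2101 c1549 (k8 c1278 c3491 c2869 c2785 c2731 c3729 c826 c1345 (k8 c792 c4057 c2085 c1617 c864 c536 c538 c4054 (k4 c4055 c2089 c1250 c1264 (k1 c2121 k0)))))))) (by decide +kernel)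
def c4059 : PP 8 4 T 0x400000000000000000000800002000800100000000000200000000000020200000000 := rS 0xc0a5a2c9b9620138bf4da578aa051d1b8ec965f276acc5b30194d2676d7a7c0dbf3d (k8 c4003 c4010 c4029 c4004 c4008 c4002 c3992 c3991 (k8 c4028 c4026 c3996 c4025 c3990 c3995 c3989 c3984 (k8 c3983 c866 c3343 c1274 c2785 c963 c1262 c1418 (k8 c2821 c4054 c2089 c1107 c1346 c311 c2834 c2070 k0)))) (by decide +kernel)
def c4060 : PP 8 4 T 0x100000000054020000040000051580000000800000010000000 := rS 0x105399f0ea6305800060559c5c3e9314156532b9db9e7f0375d26371d92cbe4ed598b66033d (k8 c4003 c4028 c4026 c3996 c4025 c3990 c3995 c3989 (k8 c3984 c3983 c3992 c4016 c4029 c4005 c4014 c4002 (k8 c3993 c3991 c3539 c1576 c73 c1101 c1545 c664 (k8 c575 c2834 c2070 c567 c755 c1575 c2118 c1616 (k2 c1535 c2090 k0))))) (by decide +kernel)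
def c4061 : PP 8 4 T 0x400000000000000000020814002055020000000000040000000000800000000000000 := rS 0x3eacdf87b589d4e26d39960b66f34974402832874ae6146a65265f3fb268515472696ac18bcae53499db5e9f036fc9e633380cf61eed70bae7ee7 (k8 c4014 c4005 c4016 c4011 c4017 c4030 c4003 c4028 (k8 c3997 c3996 c3990 c4010 c4029 c4004 c4008 c4002 (k8 c3992 c3991 c3993 c1545 c111 c1518 c1787 c866 (k8 c1274 c2101 c1549 c1278 c3491 c73 c1135 c1508 (k8 c2869 c2785 c2731 c3729 c1576 c1577 c4059 c826 (k8 c1345 c4060 c2085 c1617 c864 c536 c538 c4054 (k4 c4055 c2089 c1250 c1264 (k1 c2121 k0)))))))) (by decide +kernel)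
def c4062 : PP 8 4 T 0x400000000000000000020814002055020000000000040100000001020000000000000 := rS 0x599ccb406001d60a0b02824a80337c5c563b110811c9a94cae76e79fc0dd71b8fc9672d56ec765f2798b66033d (k8 c4003 c4028 c4026 c3996 c3990 c3995 c3984 c4027 (k8 c4025 c4001 c3989 c3985 c3983 c4016 c4029 c4005 (k8 c4014 c4002 c3993 c3991 c1787 c866 c1306 c1305 (k8 c4061 c3728 c1545 c1345 c792 c4058 c1059 c266 (k8 c306 c1532 c1686 c2070 c2071 c830 c1021 c664 (k1 c2090 k0)))))) (by decide +kernel)
def c4063 : PP 8 4 T 0x400000000000000000020814002055020000000000040000000001020000000000000 := rS 0x6052d164dcb1009c5fa6d2e080445746a65271540a39351b8ec965f276acc5b30194d2676d7a7c0dbf3d (k8 c4003 c4010 c4029 c4004 c4008 c4002 c3992 c3991 (k8 c4028 c4026 c3996 c4025 c3990 c3995 c3989 c3984 (k8 c3983 c1787 c866 c3343 c1274 c73 c1135 c1508 (k8 c2785 c1305 c1306 c4062 c963 c1262 c1418 c2821 (k4 c4054 c2089 c1107 c1346 (k2 c311 c2833 (k1 c2070 k0))))))) (by decide +kernel)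
def c4064 : PP 8 4 T 0x1000000000002000000040800080054800000000000000000005000010045010000000 := rS 0x1e2312210c702f1bb4c6622238a5771316c76472f85cddb2f56ec7e8f397fd3dbefb (k8 c4024 c4010 c4004 c4007 c4001 c3986 c3985 c4027 (k8 c4021 c4026 c4000 c4019 c3995 c3988 c3984 c2871 (k8 c749 c109 c1528 c1530 c2110 c955 c1257 c1410 (k4 c788 c2079 c365 c1240 (k2 c1966 c218 (k1 c2078 k0)))))) (by decide +kernel)
def c4065 : PP 8 4 T 0x8020800082000000000000000000000000000000000000000000 := rS 0xf1178c466446890c423e728d4763d24b1e844b12c54ce2d138751c2b4d45d289d4fa8522a5a5ae576bd5bb2d6ac155c4d2ec351b363b2397c2e6ed97ab763f219cc1e7eeb7fd3dbee176cf5f6f9 (k8 c4023 c4024 c4003 c4017 c4011 c4010 c4004 c4007 (k8 c4016 c4005 c4013 c4001 c3987 c3985 c4027 c4021 (k8 c4026 c4000 c4019 c3995 c3988 c3984 c169 c989 (k8 c167 c987 c749 c82 c111 c1518 c139 c1247 (k8 c137 c109 c1255 c1557 c80 c979 c981 c1510 (k8 c4031 c4053 c1545 c1787 c3728 c866 c2731 c2868 (k8 c2871 c2872 c1274 c3490 c3309 c2101 c1277 c1548 (k8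 c4056 c4061 c4063 c4064 c2080 c400 c405 c459 (k4 c1248 c862 c1966 c789 (k2 c218 c2078 k0)))))))))) (by decide +kernel)
def c4066 : PP 8 4 T 0x20000080000800000000000000000000008000000000000000 := rS 0xf1178c466446890c42c161c4c5b1d91cbe17376cbd5bafb (k8 c4024 c4027 c4021 c4026 c4000 c4019 c3995 c3988 (k8 c3984 c2871 c749 c167 c111 c400 c405 c459 (k4 c1248 c862 c1966 c789 (k2 c218 c2078 k0)))) (by decide +kernel)
def c4067 : PP 8 4 T 0x8040811000001000000000000000000000405412041000000000 := rS 0x248dc72d1279156ecb (k8 c139 c1247 c297 c298 c300 c1240 c1511 c1790 (k1 c2113 k0)) (by decide +kernel)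
def c4068 : PP 8 4 T 0x2000008000811000000800000000000000000104005008004000000000 := rS 0x39248dc884d21add969d6391e8eed (k8 c4017 c3986 c1530 c212 c105 c139 c1247 c337 (k4 c376 c863 c1512 c1791 (k2 c1241 c4034 k0))) (by decide +kernel)
def c4069 : PP 8 4 T 0x420000000002000008000811000000800000000000000000100005410440000000000 := rS 0x491b8e5a24f22bc0663125add969d6391c4e257dbe5bb1d91cbe17376cbd68eed (k8 c4017 c3986 c4021 c4026 c4000 c4019 c3995 c3988 (k8 c3984 c4027 c4023 c4024 c1266 c726 c1530 c212 (k8 c105 c139 c1247 c1323 c4067 c4068 c2078 c218 (k4 c220 c221 c1240 c1511 (k2 c1790 c2113 k0))))) (by decide +kernel)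
def c4070 : PP 8 4 T 0x8000811081010800000000000000000100005400040000000000 := rS 0x2434446f018880661f1a2344a278629e8b1351b351ea55d8745a9f638bc524b23b922e947dc76472f85cddb2f58fce6673d6ec3e9adb71be68eeb9fc1e42ed (k8 c4017 c3987 c4013 c4005 c4016 c3986 c4023 c4012 (k8 c4009 c3998 c4030 c4027 c4003 c3997 c4001 c3985 (k8 c4021 c4026 c4000 c4019 c3995 c3988 c3984 c4024 (k8 c868 c1545 c2080 c1530 c1325 c1528 c788 c212 (k8 c1698 c2871 c2732 c109 c1970 c1515 c169 c989 (k8 c749 c1286 c908 c2099 c726 c1266 c1268 c4069 (k8 c1099 c4068 c2075 c1967 c2078 c832 c221 c2110 (k1 c1790 k0)))))))) (by decide +kernel)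
def c4071 : PP 8 4 T 0x410000000000000000000000000000800000100008500500020000000000200000010 := rS 0x1c060f0cc20c06d7e9ee371d92cbe4ed598b66032d79cddeb496bd35b729 (k8 c3991 c4009 c3998 c4008 c3992 c4021 c4000 c4020 (k8 c3994 c4028 c4026 c3996 c4025 c3990 c3995 c3989 (k8 c3984 c3983 c1229 c1263 c865 c2086 c2088 c1804 (k4 c244 c879 c1020 c2070 (k1 c831 k0))))) (by decide +kernel)
def c4072 : PP 8 4 T 0x15080820900000000000000080020000020010000040000 := rS 0x649fcea7d39830c00631800060937a040a69599acbf133397562718a50e2e9413095a70d1007c461d8dc764b2f93b5662d980c3dbb3d99ce63ee16dd35ff479dbb5d6df9fd3e06fb (k8 c4024 c4029 c4004 c4005 c4010 c4016 c4017 c4002 (k8 c3986 c4007 c3998 c4009 c4011 c3985 c4001 c3997 (k8 c4003 c4027 c4030 c4028 c4026 c3996 c4025 c3990 (k8 c3995 c3989 c3984 c3983 c2732 c770 c1100 c2075 (k8 c732 c1258 c1370 c2076 c868 c1545 c1550 c2101 (k8 c1273 c992 c2797 c2872 c749 c576 c581 c664 (k8 c2844 c575 c1896 c4071 c1059 c839 c2070 c754 (k8 c831 c870 c871 c1616 c1624 c498 c672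 c506 (k1 c2121 k0))))))))) (by decide +kernel)
def c4073 : PP 8 4 T 0x6000000000000000000100015400000000000010144000000000000000000000000000 := rS 0x3f411627176ca6573b73cfe06eb (k8 c4016 c4029 c4005 c4014 c4002 c3993 c3991 c4017 (k4 c1273 c992 c2090 c2121 (k1 c476 k0))) (by decide +kernel)
def c4074 : PP 8 4 T 0x20000880001000000000001000000000000000000000000000 := rS 0xd27a45b0e26fb (k4 c4024 c749 c167 c723 (k2 c1250 c829 (k1 c4055 k0))) (by decide +kernel)
def c4075 : PP 8 4 T 0x15400020020000000004000080000000020018200040000 := rS 0xc93a9f4e60c0318c000304c5287170287c471b8ec965f276acc5b3019ebb5c2eb6fcfe9edb (k8 c4009 c4004 c4005 c4010 c4016 c4011 c4017 c4003 (k8 c4028 c4026 c3996 c4025 c3990 c3995 c3989 c3984 (k8 c3983 c770 c1100 c575 c1545 c1550 c2101 c1059 (k8 c839 c2070 c754 c831 c871 c1616 c1624 c498 (k2 c506 c4073 k0))))) (by decide +kernel)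
def c4076 : PP 8 4 T 0x2200002002000000000000000000000004000000000000100000000000000000000 := rS 0x15512152984c36d10ba2c332577bee36d5 (k8 c4025 c3983 c4024 c4018 c3989 c1804 c485 c1798 (k8 c221 c214 c1527 c213 c206 c477 c1532 c2109 k0)) (by decide +kernel)
def c4077 : PP 8 4 T 0x2000000000020015080820900000000000000080000000420000000000000 := rS 0x103c0207311ca0a7545c20c06d7e9ecdc81029a5666b2fc4cce514384cba718a50c4c2569c34401f118a5c83f1e8ae2e940ec6e3b2597c9dab316cc06532b9db9e7f0375bee5af39bbd692d7a6b6e1edd9ecce731f83c85c2ffa3bb5bf4f (k8 c4004 c4010 c4017 c3986 c4007 c4011 c3987 c4013 (k8 c3985 c4001 c3997 c4003 c4027 c4030 c4009 c3998 (k8 c4008 c3992 c4021 c4000 c4020 c3994 c4024 c4016 (k8 c4029 c4005 c4014 c4002 c3993 c3991 c4028 c4026 (k8 c3996 c4025 c3990 c3995 c3989 c3984 c3983 c2732 (k8 c868 c1545 c3728 c4056 c4066 c2080 c1528 c770 (k8 c1100 c2075 c732 c1258 c1370 c2076 c1550 c2101 (k8 c1273 c2797 c1527 c3573 c3535 c2872 c749 c576 (k8 c581 c664 c2844 c575 c1896 c4075 c1229 c1263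 (k8 c865 c2086 c2088 c485 c1784 c4076 c2090 c1616 (k4 c1021 c754 c1330 c2070 (k1 c879 k0)))))))))))) (by decide +kernel)
def c4078 : PP 8 4 T 0x20015080020800000000000000140000000000000000000000 := rS 0x17dfac83eaccea61379b4e6584e95ccb0d58c5287174a49e93316bd3602db70ca677339ec0e1eed75b7e7f4f (k8 c4004 c4005 c4010 c4016 c4017 c4030 c4029 c4003 (k8 c3997 c4002 c3991 c4011 c4009 c4028 c3998 c4008 (k8 c3996 c3992 c3990 c868 c1545 c1550 c2101 c992 (k8 c732 c3729 c2786 c105 c2085 c1617 c864 c1108 (k8 c616 c538 c4074 c1625 c4073 c468 c546 c2086 k0))))) (by decide +kernel)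
def c4079 : PP 8 4 T 0x1000000000000000000001000000000000015080820900000000000000080004010020010000040000 := rS 0x9a4f69d1e46ff85b8df31f (k8 c3985 c4023 c4012 c4019 c4007 c3988 c3986 c1258 (k2 c1492 c4072 (k1 c2083 k0))) (by decide +kernel)
def c4080 : PP 8 4 T 0x400000000000000000020000000000800000000200500000000000000000000000000 := rS 0x10936a28f6c193cb662f39bc05eafb (k8 c4024 c4021 c4028 c4000 c4020 c3996 c3994 c3990 (k4 c111 c709 c1784 c865 (k2 c485 c2088 k0))) (by decide +kernel)
def c4081 : PP 8 4 T 0x1000000008000015080020900000000000000080000015400040000000000 := rS 0x663127894903565d1626c7098bc524b23b914c391bc5287174a476472f85cddb2f59ccf5dae175b7e7f4f6db768f0790c7e36fb (k8 c4024 c3983 c3985 c3987 c4013 c3986 c4027 c4009 (k8 c4004 c4005 c4010 c4016 c4011 c4017 c4003 c4001 (k8 c4021 c4026 c4000 c4019 c3995 c3988 c3984 c868 (k8 c1545 c1550 c2101 c1272 c990 c1795 c2080 c1530 (k8 c1325 c1528 c788 c1527 c212 c749 c1286 c139 (k4 c4079 c2113 c282 c453 (k2 c2007 c903 (k1 c2078 k0))))))))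 (by decide +kernel)
def c4082 : PP 8 4 T 0x8020800080000800000000000000000000000400000000000000 := rS 0x923568bc0b4371c97628a6a1a808ec77210572cd5bb2d6ac14caa62e511e87456941fbee72dda7cfdbeeb70bb5b7478fc860f3d (k8 c4003 c4013 c3987 c3985 c3986 c4009 c4017 c4011 (k8 c4016 c4010 c4005 c4004 c4027 c4001 c4024 c4066 (k8 c868 c3728 c2732 c4056 c3535 c1545 c4065 c1134 (k8 c111 c1518 c139 c1247 c169 c1255 c1055 c2080 (k8 c212 c1530 c4070 c1550 c1795 c2101 c2797 c990 (k4 c1272 c4078 c4081 c221 (k2 c4077 c1790 (k1 c2113 k0)))))))) (by decide +kernel)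
def c4083 : PP 8 4 T 0x400000000000000008200000000800000000000000500000000000000000000000000 := rS 0x10936a290acb93cb662f39bc05eafb (k8 c4024 c4021 c4028 c4000 c4020 c3996 c3994 c3990 (k4 c139 c717 c1792 c905 (k2 c485 c2088 k0))) (by decide +kernel)
def c4084 : PP 8 4 T 0x400000000000000008000015500020000000050150500000000000000001400000182 := rS 0xd3138d01a6e64a9a1b1da3cbdff4d6cb6e3ee1 (k8 c4011 c3985 c4009 c4026 c3998 c4007 c3995 c3986 (k8 c3984 c732 c1795 c4083 c2121 c1290 c1019 c871 (k2 c1258 c2076 k0))) (by decide +kernel)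
def c4085 : PP 8 4 T 0x8020800080000800000000000000080000000000000000000000 := rS 0x11e86c869984990c13a9d427d3fc10e2730318c225f00024ea05019a4bab3589ae8ab951b354abb33c5d3eb560995ca2824add96552588d1ec7128dc9ef019914a2310fa4d32a9898bc403a4a51e42ff83b85dad771c069b376dbd5f34994cae76e79fc0dd71b8ec965f276acc5b2fb85c8e3f3d (k8 c4003 c3985 c3988 c4019 c4024 c4026 c3996 c4025 (k8 c3990 c3995 c3989 c3984 c3983 c4016 c4029 c4005 (k8 c4014 c4002 c3993 c3991 c3992 c4023 c4021 c4009 (k8 c4000 c3998 c4028 c4012 c4008 c4017 c4011 c4013 (k8 c4007 c3987 c3986 c868 c4082 c1577 c2832 c749 (k8 c4065 c1134 c1779 c1101 c1967 c3535 c1223 c863 (k8 c2078 c220 c1511 c312 c1519 c1515 c832 c1324 (k8 c3539 c139 c1247 c1722 c1576 c1529 c3729 c111 (k8 c1518 c1698 c1545 c2872 c109 c1970 c169 c989 (k8 c1255 c1286 c581 c625 c664 c840 c2844 c2834 (k8 c575 c4080 c230 c2070 c489 c607 c755 c831 (k8 c1616 c497 c2090 c476 c1535 c4084 c908 c874 (k8 c2099 c2111 c728 c205 c2118 c1549 c1583 c2082 k0))))))))))))) (by decide +kernel)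
def c4086 : PP 8 4 T 0x1000000000000000000000001000000040015581110000000050150000020005000005421400040000 := rS 0x47a1b20ded34693218275393de113a3c85ff0770bb5aee399d366edb7abe5f6d985cbe471d (k8 c3984 c3988 c3995 c4019 c4026 c4024 c4023 c4021 (k8 c4009 c4000 c3998 c3997 c4012 c4008 c4017 c4011 (k8 c4013 c4007 c3987 c3986 c749 c2078 c220 c908 (k8 c874 c2099 c2111 c1268 c205 c1107 c2121 c1549 (k2 c1582 c2082 k0))))) (by decide +kernel)
def c4087 : PP 8 4 T 0x8020800080000800000000000000000000000000000000000000 := rS 0x5c5004d62043d80cd27d319fe08b33a9c4026d39960b6251bb1c9ef01788c664b189244028729143e3a289962e5752a513b455cb3576b765ad5831347a4d32a98dc764b2f93b5662d980d25db2995cedcf3f81bae673d87be6470b9bbd63efb (k8 c4024 c3985 c4021 c4000 c4019 c3988 c4023 c4030 (k8 c4003 c3997 c4016 c4029 c4005 c4014 c4002 c3993 (k8 c3991 c4017 c3992 c4028 c4026 c3996 c4025 c3990 (k8 c3995 c3989 c3984 c3983 c4065 c1134 c1779 c1515 (k8 c749 c111 c1518 c139 c1247 c109 c169 c1255 (k8 c1286 c105 c868 c1970 c2786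 c1545 c3729 c3535 (k8 c4082 c1101 c1223 c1529 c1576 c1577 c1722 c1967 (k8 c1324 c863 c832 c2832 c2078 c220 c1519 c1511 (k8 c312 c4085 c2085 c1617 c864 c830 c537 c538 (k8 c4074 c2090 c476 c1533 c1535 c828 c794 c4055 (k4 c2070 c1242 c530 c4086 (k2 c4078 c810 k0)))))))))))) (by decide +kernel)
def c4088 : PP 8 4 T 0x1000000000000000000000015500000000000050154000000000000000000000000000 := rS 0x1f8c870ca6933b6bd3e06df (k8 c4010 c4029 c4004 c4008 c4002 c3992 c3991 c4011 (k2 c2121 c2089 (k1 c468 k0))) (by decide +kernel)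
def c4089 : PP 8 4 T 0x8080000080000000000000000000000000000005000000000000 := rS 0x3c45e4e68b36271d91cbe17376cbd5f2fb (k8 c4024 c4023 c4021 c4026 c4000 c4019 c3995 c3988 (k8 c3984 c749 c169 c461 c1519 c789 c220 c2078 k0)) (by decide +kernel)
def c4090 : PP 8 4 T 0x10000000000000000000040015000000000000000000000000181015140000000000000 := rS 0x452390de24b8fc8e730ba0b75eef9 (k8 c4023 c4022 c4027 c4006 c4019 c4001 c3988 c3985 (k4 c26 c220 c338 c1494 (k2 c4034 c2081 k0))) (by decide +kernel)
def c4091 : PP 8 4 T 0x40015080022002000000000000000101000140800000000000 := rS 0x238d476d0220fc7b168ad0e72db76b85d6df9fd3e1edd (k8 c4027 c4030 c4004 c4005 c4010 c4016 c4011 c4017 (k8 c4009 c4001 c1550 c994 c2101 c1543 c1000 c785 (k4 c789 c1223 c3236 c3699 (k1 c2113 k0)))) (by decide +kernel)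
def c4092 : PP 8 4 T 0x400200002002000000000000000000000004000001110000100000001000000000000 := rS 0xca2cd5090994c2a892a86da21793cb662f39bc05eb1b77bedab25 (k8 c3989 c4025 c4024 c4018 c3983 c4021 c4028 c4000 (k8 c4020 c3996 c3994 c3990 c1798 c221 c214 c1532 (k8 c477 c470 c213 c1527 c4076 c2088 c564 c1918 (k1 c2109 k0)))) (by decide +kernel)
def c4093 : PP 8 4 T 0x815501100002000050140800000000000000000000000000 := rS 0xde7130a162b0f (k4 c4030 c994 c563 c621 (k2 c1513 c1076 (k1 c4088 k0))) (by decide +kernel)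
def c4094 : PP 8 4 T 0x10000000000000000000000000000000000000000000100000000000001020008001 := rS 0x11800b1b8ec965f276acc5b301 (k8 c4028 c4026 c3996 c4025 c3990 c3995 c3989 c3984 (k4 c3983 c265 c4046 c2070 (k1 c2883 k0))) (by decide +kernel)
def c4095 : PP 8 4 T 0x10000000000000000000000000000000000000000002100000000000001020000001 := rS 0x183c0b1b8ec965f276acc5b301 (k8 c4028 c4026 c3996 c4025 c3990 c3995 c3989 c3984 (k4 c3983 c615 c4094 c879 (k1 c2070 k0))) (by decide +kernel)
def c4096 : PP 8 4 T 0x40015000020002000000040000008000000140001400000002 := rS 0x4823b486a3b138221a3f1ec5a2b4370c768f2f7fd35b2db9cbb5d6df9fd3e1edd (k8 c4027 c4030 c4004 c4005 c4010 c4016 c4017 c4001 (k8 c4009 c4026 c3998 c4007 c3995 c3986 c3984 c4011 (k8 c1550 c994 c2101 c1543 c1000 c732 c751 c2874 (k4 c1061 c3052 c2076 c1585 (k2 c2113 c204 k0))))) (by decide +kernel)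
def c4097 : PP 8 4 T 0x8000000080000000000000000000000002000005000400000000 := rS 0xf117b4053138ec8e5f0b9bb65eafb (k8 c4024 c4021 c4026 c4000 c4019 c3995 c3988 c3984 (k4 c749 c1721 c1790 c788 (k2 c221 c2078 k0))) (by decide +kernel)
def c4098 : PP 8 4 T 0x8000000080800000000080001000000000000000000000000000 := rS 0x2126935a11168365b36272796cc5e73780bd5f2fb (k8 c4024 c4023 c4021 c4028 c4000 c4020 c3996 c3994 (k8 c3990 c749 c169 c139 c677 c725 c1521 c2008 (k2 c829 c484 (k1 c2088 k0)))) (by decide +kernel)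
def c4099 : PP 8 4 T 0x400000000000000000000815101122002000040044000008000000000000000000000 := rS 0x21269421ece06b3e98576b33ac5a2b43369de4f2d98bce6f017abe676db76b85d6df9fd3e1f03 (k8 c4029 c4030 c4004 c4005 c4010 c4016 c4011 c4017 (k8 c4009 c4002 c4023 c4021 c4028 c4000 c4020 c3996 (k8 c3994 c3990 c3094 c961 c1550 c994 c2101 c1544 (k8 c1002 c109 c881 c1625 c4093 c4088 c707 c1513 (k2 c825 c484 (k1 c2088 k0)))))) (by decide +kernel)
def c4100 : PP 8 4 T 0x8000015080020002000000048000148000000004001420000000 := rS 0x6c0b63800630d530e4c0e1 (k8 c4011 c1076 c1140 c1795 c732 c2007 c4095 c4089 (k2 c566 c4096 (k1 c1344 k0))) (by decide +kernel)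
def c4101 : PP 8 4 T 0x40015000000000000000048000048001405110000000000002 := rS 0x1d8dc100b (k4 c566 c751 c1344 c1061 (k1 c2113 k0)) (by decide +kernel)
def c4102 : PP 8 4 T 0x1000000000000000000000000000000000000000008002100000000110000000000020 := rS 0x698dc200f8fd1e72ffa7b75bed5 (k8 c4025 c4010 c4027 c4004 c4007 c4001 c3986 c3985 (k4 c265 c614 c1343 c198 (k1 c2079 k0))) (by decide +kernel)
def c4103 : PP 8 4 T 0x8080000080800000000000000000000000000004000000000000 := rS 0xc09acb (k4 c139 c413 c4089 c2006 k0) (by decide +kernel)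
def c4104 : PP 8 4 T 0x8000811081022000000000040000040000000000000000000000 := rS 0x8148e352480c48603744c568d52a7c7e3d8b45686b7658e446b12e9fcda562c9dd8e330e07c42414829a371d92cbe4ed598b66030f6ecf667398fc0e77296dbb5c2eb6fcfe9efb (k8 c4024 c4004 c4005 c4010 c4016 c4011 c4017 c4009 (k8 c3991 c4002 c4029 c3985 c4001 c3997 c4003 c4027 (k8 c4030 c4028 c4026 c3996 c4025 c3990 c3995 c3989 (k8 c3984 c3983 c1795 c906 c3044 c2912 c3259 c2075 (k8 c953 c4103 c3094 c3260 c2085 c961 c4098 c2796 (k8 c1148 c2741 c1140 c139 c1247 c1550 c994 c2101 (k8 c1543 c1000 c77 c1405 c1237 c3738 c749 c4099 (k8 c1076 c4100 c2883 c282 c1369 c1371 c4102 c4101 (k1 c2070 k0))))))))) (by decide +kernel)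
def c4105 : PP 8 4 T 0x1010000000000000000000000000000000100000008002100000000100000020000001 := rS 0x3502090071b8ec965f276acc5b301 (k8 c4028 c4026 c3996 c4025 c3990 c3995 c3989 c3984 (k4 c3983 c2883 c4095 c2070 (k2 c1369 c4102 k0))) (by decide +kernel)
def c4106 : PP 8 4 T 0x100000000000000140015000020002100040008000148000000000000420000000 := rS 0x471a8ec92372a020220b0004cc47c7e9821a3f1ec5a2b431cd2656d773b85db299cb6dd6df9fd3e1edd (k8 c4027 c4030 c4004 c4005 c4010 c4016 c4009 c4001 (k8 c3991 c4017 c4011 c4014 c4008 c3993 c3992 c1140 (k8 c1550 c994 c2101 c1543 c1000 c732 c1076 c1263 (k8 c2092 c1624 c3509 c4105 c566 c607 c751 c755 (k4 c1344 c1623 c1062 c3052 (k2 c3542 c2113 k0)))))) (by decide +kernel)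
def c4107 : PP 8 4 T 0x10000000000000000000040015080822000001500004000008100010104000005014002 := rS 0x78058622f278349a496912c6a3713822263f1ec5a2a90a1c6e3b2397c2e6ed97ab8dc31fa3ce5ff4f6eb7db6ed75cfe1efb (k8 c4024 c4030 c4005 c4016 c4017 c4009 c4010 c4027 (k8 c4004 c4007 c4001 c3986 c3985 c4011 c4012 c4021 (k8 c4026 c4000 c4019 c3995 c3988 c3984 c3983 c1550 (k8 c906 c994 c2101 c1543 c1000 c749 c751 c2874 (k8 c232 c1059 c1857 c2079 c204 c205 c1256 c4090 (k4 c4091 c2006 c2108 c2078 (k1 c1798 k0))))))) (by decide +kernel)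
def c4108 : PP 8 4 T 0x40000000000011000000000000000000040015000000000001500000000000105415150000005054000 := rS 0x5378b45ca1606934744f69486470785bbdf71b8fb8e8f397fd3dbadf (k8 c4010 c4027 c4004 c4007 c4001 c3986 c4012 c3985 (k8 c3983 c4024 c4018 c4019 c4013 c3988 c3987 c2079 (k8 c4090 c2113 c205 c1256 c2108 c1529 c1763 c1798 (k2 c2031 c2084 k0)))) (by decide +kernel)
def c4109 : PP 8 4 T 0x400000000000000000000800000802000000000000000000000000080000000000000 := rS 0x788bc624e2293576bd198703e2120a423b2397c2e6ed97abe61edd9ecce731f (k8 c3985 c4001 c3997 c4003 c4027 c4030 c4023 c4021 (k8 c4026 c4000 c4019 c3995 c3988 c3984 c906 c3044 (k8 c2912 c3259 c2075 c953 c137 c109 c325 c443 (k4 c1511 c2006 c785 c220 (k1 c2078 k0))))) (by decide +kernel)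
def c4110 : PP 8 4 T 0x40000000000011000000000000000000040815000020000001500000000000100010150000025054000 := rS 0x486911c4e4b1f8f62d4370c7e8f397fd3dbadf6dbb5d73f (k8 c4005 c4016 c4017 c4009 c4010 c4027 c4004 c4007 (k8 c4001 c3986 c3985 c4011 c1550 c2101 c1543 c1000 (k4 c1323 c873 c1585 c2079 (k2 c4108 c204 k0)))) (by decide +kernel)
def c4111 : PP 8 4 T 0x8020800080020000000000000000040000000000000000000000 := rS 0x7291c742903008920518b4c4c341b84c12010ca1437083583d06117e1f4c26f34a0593053d9c98e7f368e466560e1dc82590fc551a212e88d20a5439454d434fd2d72cd5bb2d6ac14e26e27194caa68f217fc1dc2ed8fc6e3b2597c9dab316cc05f32d79cddeae3a4cadaee794cee673d81c3e72dd6dbedef41 (k8 c4006 c4022 c4024 c4009 c4027 c4001 c4030 c4029 (k8 c4003 c3997 c4002 c3991 c4014 c4008 c3993 c3992 (k8 c4012 c4021 c4000 c4020 c3994 c4023 c4028 c4026 (k8 c3996 c4025 c3990 c3995 c3989 c3984 c3983 c3985 (k8 c4017 c4011 c4013 c4007 c3987 c3986 c4065 c1134 (k8 c1016 c749 c4087 c2097 c111 c1518 c139 c1247 (k8 c169 c1255 c1557 c77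 c1550 c1795 c3536 c3574 (k8 c1405 c906 c2741 c2796 c2912 c1237 c994 c3259 (k8 c3260 c3044 c3094 c2075 c2085 c953 c1140 c961 (k8 c4098 c4103 c4104 c1231 c1534 c1730 c1364 c825 (k8 c4106 c881 c1625 c2092 c462 c469 c1261 c2008 (k8 c2088 c478 c484 c1804 c4107 c1058 c1561 c4109 (k8 c4110 c1036 c1258 c357 c350 c4097 c2070 c791 (k4 c795 c1021 c1584 c1529 (k1 c2082 k0))))))))))))))) (by decide +kernel)
def c4112 : PP 8 4 T 0x815080050054500000000000000000000000000000000000 := rS 0x4f29522a7 (k4 c908 c1245 c1403 c2125 (k1 c1781 k0)) (by decide +kernel)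
def c4113 : PP 8 4 T 0x200000000000040000000000000420002000 := rS 0xae5937814132794cc6773380cf6070f (k8 c4030 c4029 c4003 c4028 c3997 c4002 c3996 c3991 (k4 c3990 c3049 c529 c1290 (k2 c1026 c1067 (k1 c2085 k0)))) (by decide +kernel)
def c4114 : PP 8 4 T 0x1000000000000000000000000000000000800000202500000000000000000000000020000200000000 := rS 0x7892c9a32228c5a64fa3c8dff0b71be5b31f (k8 c3985 c4026 c4023 c4012 c4019 c4007 c3988 c3986 (k8 c3377 c1258 c317 c441 c966 c1934 c1324 c216 (k1 c2083 k0))) (by decide +kernel)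
def c4115 : PP 8 4 T 0x100000001000000000000040000000000002020020000 := rS 0x572c9800f2794cc6773380cf6070f (k8 c4030 c4029 c4003 c4028 c3997 c4002 c3996 c3991 (k4 c3990 c608 c279 c1025 (k2 c880 c2085 k0))) (by decide +kernel)
def c4116 : PP 8 4 T 0x200000000000008000000020000000011000 := rS 0x1efd2f1b9a71ba3c95ff496ab5e531f (k8 c3985 c3991 c4008 c4025 c3992 c4007 c3989 c3986 (k4 c3983 c1258 c1067 c1068 (k2 c1263 c3356 (k1 c2072 k0)))) (by decide +kernel)
def c4117 : PP 8 4 T 0x1000000000000000000000000000000000800000002501200000000000040000000020000000000000 := rS 0x8342a041e193d1b4de042c1a4ae110b86de04b268901a270e0849e230fb4d625d5249e53319dcce033d81c3e36d5a3c8dff0b71be63b1f97ce5b2dd (k8 c4027 c4026 c4001 c3995 c3985 c3984 c4023 c4012 (k8 c4019 c4007 c3988 c3986 c4025 c3983 c4030 c4029 (k8 c4003 c4028 c3997 c4002 c3996 c3991 c3990 c1237 (k8 c3327 c3253 c1258 c3248 c1298 c3377 c4114 c2075 (k8 c872 c4113 c1028 c1935 c3354 c2083 c214 c1798 (k8 c4115 c4116 c824 c2085 c1026 c3007 c697 c1234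 (k4 c269 c265 c1363 c1402 (k2 c642 c2108 k0)))))))) (by decide +kernel)
def c4118 : PP 8 4 T 0x1000000000000000000000000000000100815500202104000040110000020000000000000000000000 := rS 0x1fa8384a15027c3d1b4de73a4cb5aef371be65703 (k8 c4029 c3993 c4023 c4012 c4020 c4008 c3994 c3992 (k8 c1109 c3250 c697 c1234 c2121 c1363 c1402 c482 (k2 c642 c1264 (k1 c2093 k0)))) (by decide +kernel)
def c4119 : PP 8 4 T 0x400000001500000000108044000040402015011000 := rS 0x5c1e040f0849b1d8fcbe73336ccf5bb0f (k8 c4030 c4027 c4003 c4026 c3997 c4001 c3995 c3985 (k8 c3984 c285 c312 c2075 c1066 c265 c533 c2108 k0)) (by decide +kernel)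
def c4120 : PP 8 4 T 0x108000000100000010020000 := rS 0x1f10824071d8fcbe73336ccf5bb0f (k8 c4030 c4027 c4003 c4026 c3997 c4001 c3995 c3985 (k4 c3984 c343 c344 c798 (k2 c1065 c2075 k0))) (by decide +kernel)
def c4121 : PP 8 4 T 0x10010001000000000000040015000400000001500000001108105015140400015001000 := rS 0x21bc48a1623935a40f128449e078fc8e730ba0b75ef1b90b8e8f257fd25aad7 (k8 c4008 c4025 c3992 c4007 c3989 c3986 c4012 c3987 (k8 c3983 c4022 c4027 c4006 c4019 c4001 c3988 c3985 (k8 c1017 c4090 c4120 c4119 c4046 c2072 c205 c1259 (k4 c2108 c4034 c1798 c1951 (k1 c2081 k0))))) (by decide +kernel)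
def c4122 : PP 8 4 T 0x8020800080000000000000000000040000000000000000000000 := rS 0xe0321b842041afd42a0cbc6e36984ac591792c7ec71b8746a512497482b1649fcee711e9d5671688a7a1aa4462454ea1a2ae56ecb5ab052ec351b351e934aa7137138ca6553256ad265ad779b8df32993cc6773380cf6070f6ece66ae99fbae9afb7bd05eb37 (k8 c4000 c4021 c4006 c4022 c4024 c3998 c4016 c4005 (k8 c4015 c3999 c4001 c4027 c4030 c4029 c4003 c4028 (k8 c3997 c4002 c3996 c3990 c3991 c4023 c4012 c4020 (k8 c4008 c3994 c3992 c4025 c3989 c4065 c1134 c1016 (k8 c749 c4087 c2097 c1787 c1779 c1515 c169 c989 (k8 c167 c987 c111 c1518 c139 c1247 c1255 c1286 (k8 c4111 c908 c1245 c4112 c1237 c1268 c1405 c1541 (k8 c2096 c1002 c1544 c1543 c1386 c3091 c3381 c3720 (k8 c3253 c3041 c3327 c3719 c3534 c4117 c1027 c3378 (k8 c3380 c1000 c1323 c784 c4118 c2085 c880 c961 (k8 c1067 c1068 c1937 c1402 c1263 c1289 c3364 c2093 (k4 c478 c1804 c4121 c3064 k0)))))))))))) (by decide +kernel)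
def c4123 : PP 8 4 T 0x2500000002002000000000000000000084000000 := rS 0x7885c32441990e131b91c96172d6abcdbb01 (k8 c4028 c4027 c4020 c4025 c3994 c4019 c3989 c3988 (k8 c3983 c480 c277 c433 c1232 c1958 c519 c218 (k1 c2074 k0))) (by decide +kernel)
def c4124 : PP 8 4 T 0x8020800080000000000000000000000000000000000000000000 := rS 0x258642e0d12028381f2693c4e3d1f83cc3167e044a24988a158e234f0dce2411ca90421b46001425f0281d0709409dd4e2f019e0d87b2b96938954da4d1e9954a8d2f13a2b0e32b966add96b560c763f2f9cccdb33d6ec3e4b019aba67eeba4cb5aef371be69b1b93b5663377ad05eefb (k8 c4024 c4022 c4006 c4021 c4000 c3996 c4025 c3990 (k8 c3983 c3998 c4023 c4012 c4020 c4008 c3994 c3992 (k8 c4016 c4005 c4015 c3999 c4028 c3989 c4030 c4027 (k8 c4003 c4026 c3997 c4001 c3995 c3985 c3984 c111 (k8 c1518 c139 c1247 c169 c1255 c1016 c167 c1286 (k8 c749 c987 c989 c4065 c1134 c1515 c1779 c4087 (k8 c1787 c2097 c4122 c38 c705 c968 c969 c2971 (k8 c2755 c2913 c1091 c1364 c480 c641 c2452 c2583 (k8 c2584 c1795 c2070 c4112 c687 c831 c1237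 c3252 (k8 c3041 c1385 c1384 c1405 c3289 c3380 c1401 c1541 (k8 c3719 c3534 c607 c2093 c2096 c464 c1261 c1000 (k8 c1543 c870 c4090 c1935 c4123 c2075 c759 c1028 (k4 c568 c573 c309 c3354 (k1 c2108 k0)))))))))))))) (by decide +kernel)
def c4125 : PP 8 4 T 0x8020800001442040000000000000000000000000000000000000 := rS 0x9e862ae8ab966aed6ecb5ab054aa157c4d2335a6cddb6f571be61efb (k8 c4024 c4030 c4023 c4012 c4021 c4009 c4000 c3998 (k8 c3999 c1245 c746 c4124 c1794 c1406 c111 c1518 (k8 c139 c1247 c109 c169 c1255 c1286 c1677 c2099 (k2 c4031 c1269 k0)))) (by decide +kernel)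
def c4126 : PP 8 4 T 0x10020000002008000010000000000000000000000101005400802 := rS 0x26153a94d1629551950e7b28914aa3d (k8 c1782 c306 c438 c1595 c2686 c1635 c2539 c1510 (k4 c1571 c1672 c1943 c3604 (k2 c647 c570 (k1 c2109 k0)))) (by decide +kernel)
def c4127 : PP 8 4 T 0x8020800000002000000000000000080000000000000025000000 := rS 0x2ad3e25543449ef04885d13094ba8d4e6c56ae59abb5bb2d6ac152a855e00050b5f6f98dc8e4b0b96b55e701 (k8 c4028 c4020 c4025 c3994 c4019 c3989 c3988 c3983 (k8 c4023 c4024 c2920 c759 c758 c4124 c1794 c1406 (k8 c111 c1518 c139 c1247 c109 c169 c1255 c2953 (k8 c968 c2913 c1524 c1253 c480 c681 c2547 c1245 (k8 c2074 c220 c221 c4125 c1503 c4126 c1676 c4031 k0))))) (by decide +kernel)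
def c4128 : PP 8 4 T 0x20000000000008000004000010000100010001000025400050 := rS 0x1e61277451cd13040994c2a5568b94ea2a1d4650f2996cede74181bddf6ef8dc864b0795b55cf1f (k8 c3985 c4014 c4025 c3993 c4013 c3989 c3987 c3983 (k8 c4018 c4024 c4022 c4029 c4006 c4020 c4002 c3994 (k8 c3991 c1635 c1016 c1029 c1030 c1656 c1529 c1763 (k8 c1601 c286 c292 c1638 c2073 c477 c1534 c2109 (k4 c1095 c485 c604 c2091 k0))))) (by decide +kernel)
def c4129 : PP 8 4 T 0x20814001554051400004001510500040000001000025400850 := rS 0x3cc24ee8437a0cc2fc08b4c1a241a1c51893078dc83195ab05025122ca65b3b79d0606f77cb8e031ba3c95ff496ab5e3efb (k8 c4024 c3985 c4008 c4025 c3992 c4007 c3989 c3986 (k8 c3983 c4028 c4012 c4023 c4022 c4029 c4006 c4020 (k8 c4002 c3994 c3991 c438 c1595 c1364 c111 c1518 (k8 c1016 c1054 c1511 c304 c4128 c2125 c1385 c1027 (k8 c1028 c568 c1258 c278 c2072 c464 c469 c1263 (k4 c2119 c1093 c484 c602 (k1 c2091 k0))))))) (by decide +kernel)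
def c4130 : PP 8 4 T 0x800002000000000000000000000500000001100000500500000000000000000000000 := rS 0x20cc26d54b8e02f9 (k8 c4023 c4028 c4012 c748 c744 c464 c469 c2119 k0) (by decide +kernel)
def c4131 : PP 8 4 T 0x20814000054051400004000010000100000011000025400050 := rS 0x93469056ac1 (k4 c111 c1518 c1053 c1027 (k2 c4128 c2125 k0)) (by decide +kernel)
def c4132 : PP 8 4 T 0x800000000000000000020814000554051400004000510500000000000000025400850 := rS 0x3da6347ea16100d08bc49c8128914daa918c6e8f257fd25aad78fbe6470b96bce5f01 (k8 c4028 c3995 c4020 c3994 c4019 c3988 c4023 c3985 (k8 c4008 c4025 c3992 c4007 c3989 c3986 c3983 c1809 (k8 c748 c744 c438 c1595 c1364 c4129 c220 c446 (k8 c1488 c2074 c484 c4130 c4131 c1258 c1330 c2072 k0)))) (by decide +kernel)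
def c4133 : PP 8 4 T 0x800000000000000000000800000500000000100000500500004000000000000800840 := rS 0xf69bf41a4e1a21422408dd1e4affa4b55af1f (k8 c3985 c4008 c4025 c3992 c4007 c3989 c3986 c3983 (k8 c573 c613 c2548 c1053 c1054 c1487 c4130 c1258 (k2 c1330 c2072 k0))) (by decide +kernel)
def c4134 : PP 8 4 T 0x800000000000000040020800000508050001000000500100001000000000025004852 := rS 0xf309451d513168224ca61568b94822a2313caa13110401afd389de3287288c42e4b22a04f65f88b24cb2996cede74181bddf6ef99cd67ae99fc3dd71b90c960f2b6ab9e8effa4b5e9b2f (k8 c3995 c3998 c4008 c3992 c4007 c3986 c4014 c4025 (k8 c3993 c4013 c3989 c3987 c3983 c4016 c4030 c4005 (k8 c4015 c4003 c3999 c3997 c4018 c4024 c4022 c4029 (k8 c4006 c4020 c4002 c3994 c3991 c2539 c1664 c1541 (k8 c2538 c2686 c1364 c438 c1324 c4133 c1809 c1595 (k8 c1635 c1016 c1094 c1513 c4130 c568 c2072 c607 (k8 c610 c346 c446 c1299 c1300 c1054 c1530 c1765 (k8 c286 c292 c4128 c2073 c2096 c477 c1544 c2109 (k2 c485 c604 (k1 c2091 k0)))))))))) (by decide +kernel)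
def c4135 : PP 8 4 T 0x10000000000000000000000000000001400000020000400000000000000000000000 := rS 0x11b1599d367adba7c3dbf3b (k8 c4002 c4010 c4030 c4004 c4009 c4003 c3998 c3997 (k2 c1273 c1385 (k1 c2095 k0))) (by decide +kernel)
def c4136 : PP 8 4 T 0x10010000000000000000000800000000000002004011000500000000000000000000000 := rS 0x6f3b3f0f26184ca65b3b79d0606f793d2662d7a6c05b6f9 (k8 c4023 c4009 c4028 c3998 c4008 c3996 c3992 c3990 (k8 c4022 c4029 c4006 c4020 c4002 c3994 c3991 c484 (k4 c712 c602 c2086 c2091 (k2 c1263 c1093 k0)))) (by decide +kernel)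
def c4137 : PP 8 4 T 0x800000000000000040020800000508051400000000500100001000000000025000852 := rS 0x11b151b038428538c34da7b2fc66674d9eb6e9f0f6fbee0335 (k8 c3999 c4028 c4024 c4010 c4030 c4004 c4009 c4003 (k8 c3998 c3997 c1016 c2538 c2686 c744 c1269 c4135 (k4 c4136 c11 c4134 c304 (k2 c1271 c1384 (k1 c2095 k0))))) (by decide +kernel)
def c4138 : PP 8 4 T 0x800000000000000000020814000550051400000000500100000000000104025000852 := rS 0x56e51d0f46f168a24c528d2091c6ad224c458f0d4f05d6ac11f8e4be65409eca24b228c63b2197c1e6ad974c7e73339ecfe1eeba6b6e9edf (k8 c4010 c4004 c4009 c3998 c4016 c4030 c4005 c4003 (k8 c3997 c4001 c3985 c4015 c4026 c3999 c4013 c3995 (k8 c3987 c3984 c1809 c438 c1324 c1595 c2686 c1364 (k8 c2539 c2538 c3256 c3265 c111 c1518 c4133 c4132 (k8 c1269 c1392 c1541 c1663 c4137 c1258 c1259 c1053 (k8 c1027 c1570 c4128 c2095 c2096 c1272 c1543 c2113 (k2 c1529 c1640 (k1 c2077 k0)))))))) (by decide +kernel)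
def c4139 : PP 8 4 T 0x80020814000008050000004000010000001000041100025000850 := rS 0x56e51d0f62c930b8a482471aad5823f1c9448ac788c76432f83cd5b2e98fce6673d9fc3dd74d (k8 c3998 c4016 c4030 c4005 c4003 c3997 c4001 c3985 (k8 c4015 c4026 c3999 c4013 c3995 c3987 c3984 c1541 (k8 c1392 c438 c1595 c3256 c3265 c111 c1518 c1258 (k8 c1259 c1053 c1570 c573 c4128 c2096 c1543 c2113 (k2 c1529 c1640 (k1 c2077 k0)))))) (by decide +kernel)
def c4140 : PP 8 4 T 0x10000000000000000020814000008051501004000010000000000001104425011850 := rS 0xf22c4e4985c8283268d5f8246983c6f148cad5823f1ca04a24b22b1e22499ccce6b3d74cfe1eeb71c6e8f257fd25aad78ecbe9ad96dd3dbefb (k8 c4024 c4010 c4004 c4009 c4026 c3998 c3995 c3984 (k8 c4008 c4025 c3992 c4007 c3989 c3986 c3983 c4012 (k8 c4016 c4030 c4005 c4015 c4003 c3999 c3997 c4001 (k8 c1663 c1541 c1392 c438 c1324 c1595 c1364 c3256 (k8 c3265 c111 c1518 c1016 c2095 c1272 c304 c4139 (k8 c2076 c2072 c1369 c284 c469 c1053 c573 c4128 (k4 c2108 c2096 c4090 c1543 k0))))))) (by decide +kernel)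
def c4141 : PP 8 4 T 0x160000000008000001140000000000115000020000005411042 := rS 0x132a85516d01d0a6104023bc49c833ebf1a60f7dc6e472585cb5aaf37ccadaf497fd1e3ee3 (k8 c4012 c3985 c3986 c4007 c3992 c4008 c3993 c4023 (k8 c4020 c4025 c3994 c4019 c3989 c3988 c3983 c4024 (k8 c1330 c1258 c2072 c1264 c469 c2108 c220 c1494 (k8 c1492 c2074 c1570 c1055 c1056 c485 c647 c1601 (k2 c1758 c2107 k0))))) (by decide +kernel)
def c4142 : PP 8 4 T 0x10000000000000000020814000008051401040000000000000000001104425000852 := rS 0x99548ed01d139161520058fafc2683da6241a23092c963995027b2892c8a11069c4bf2b8dd1e4affa4b55af1f (k8 c3985 c4008 c4025 c3992 c4007 c3989 c3986 c3983 (k8 c3993 c2538 c4135 c568 c607 c438 c1324 c1595 (k8 c2686 c1364 c2539 c1392 c1664 c1663 c4140 c1027 (k8 c1028 c1258 c1330 c284 c2072 c1264 c4141 c573 (k8 c653 c2549 c1054 c1055 c1056 c1494 c1601 c1758 (k1 c2107 k0)))))) (by decide +kernel)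
def c4143 : PP 8 4 T 0x8020800000000000000040000000000100000000000000811840 := rS 0x7c7e04caa4707b1da64964b40744e1a1351615202e59b2b8dd1e4affa4b55af1f (k8 c3985 c4008 c4025 c3992 c4007 c3989 c3986 c3983 (k8 c3993 c169 c1255 c573 c653 c2549 c1991 c1053 (k8 c1054 c1055 c1056 c1792 c1791 c1258 c1451 c1330 (k4 c1494 c1601 c1758 c2072 (k2 c2107 c1264 k0))))) (by decide +kernel)
def c4144 : PP 8 4 T 0x8020800000000000000000000000080000000000400025000000 := rS 0x2a5572b40741382900cc4e3ea0d926126bf0480f698d02e9f3fa141a113888e1aa6518c5526d8923d37195cb356ecb52a84d69931a555e5d3489c5a050f81c425f32a04f6002892c8a0a4ba453b1b90c960f2b6ab9e3f0171b868effa4b5e3b2fa6b65b6f999cde7af5a0c3deefb (k8 c4024 c4022 c4030 c4006 c4021 c4003 c4000 c3997 (k8 c4023 c4009 c4026 c3998 c3995 c3984 c4008 c3992 (k8 c4007 c3986 c4011 c4012 c4028 c3985 c4014 c4025 (k8 c3993 c4013 c3989 c3987 c3983 c4127 c1244 c1252 (k8 c759 c438 c1324 c1595 c758 c2686 c1364 c2539 (k8 c2538 c11 c495 c10 c575 c2920 c2877 c2723 (k8 c2721 c4124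 c1786 c842 c1136 c581 c1794 c1406 (k8 c139 c1247 c169 c1255 c1016 c764 c1516 c2097 (k8 c744 c748 c1809 c1523 c4138 c733 c772 c4135 (k8 c607 c568 c4136 c1521 c4142 c4143 c4131 c1258 (k8 c1330 c2076 c2072 c284 c464 c468 c469 c1264 (k8 c2108 c2118 c1492 c472 c511 c1055 c1056 c1529 (k2 c1601 c454 (k1 c2073 k0)))))))))))))) (by decide +kernel)
def c4145 : PP 8 4 T 0x40560800000000000000040000000000100020000000004045040 := rS 0xf8fc0a954224724b40744e95c6e8f257fd25aad7 (k8 c4008 c4025 c3992 c4007 c3989 c3986 c3983 c3993 (k8 c1054 c1055 c1056 c453 c1494 c446 c1601 c454 (k2 c2072 c2107 (k1 c1264 k0)))) (by decide +kernel)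
def c4146 : PP 8 4 T 0x8020800000000041000004000010000104000020804025441050 := rS 0x7294da246149253c8d11095464c5493d264107b1d1ed3a2d2d72cd5bb2d6ac150a555e21189fd0ac945c21e32191c1e16ef7dd1dfee37cc7e3af36acb64b1b (k8 c3983 c3989 c3994 c4025 c4020 c3984 c3985 c4023 (k8 c4012 c4007 c3986 c4024 c4018 c4019 c4013 c3988 (k8 c3987 c1799 c2074 c485 c1792 c484 c1521 c16 (k8 c11 c4124 c1786 c1794 c111 c1518 c139 c1247 (k8 c169 c1255 c1557 c1286 c1258 c1306 c1451 c1330 (k8 c4145 c4128 c1492 c787 c2083 c1523 c284 c1993 (k8 c1028 c2125 c1663 c1571 c1299 c380 c2033 c1530 (k1 c2084 k0)))))))) (by decide +kernel)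
def c4147 : PP 8 4 T 0x8020800000000041000000000000000000000000904025400852 := rS 0x14da2e515118450d4f23d46a94d108823509834ea713fa2d0b08a5c6572cd5bb2d429557994f6512591462f190c8e0f0b77bee8f358fce682dd7bbe6372596b55e71d (k8 c3984 c4020 c4025 c3994 c3989 c3983 c4023 c4022 (k8 c4027 c4006 c4001 c3985 c3999 c3986 c4024 c4018 (k8 c4019 c4013 c3988 c3987 c1799 c16 c438 c1324 (k8 c1595 c2686 c2539 c4124 c1786 c1794 c139 c1247 (k8 c169 c1255 c1016 c1557 c2074 c484 c485 c1521 (k8 c1513 c1784 c568 c570 c4146 c1053 c2081 c1952 (k8 c2731 c1523 c1515 c4131 c1269 c4142 c1299 c1300 (k4 c1530 c1765 c292 c2084 k0)))))))) (by decide +kernel)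
def c4148 : PP 8 4 T 0x8020800000000000000000000000080000000000000025000000 := rS 0x1a7f2721422400b0b922974e92ca245000284e2d0287c0e21 (k8 c11 c495 c10 c575 c2920 c2877 c759 c758 (k8 c438 c1595 c1324 c4127 c1252 c1244 c4144 c4147 (k4 c573 c613 c2548 c1054 (k2 c1521 c1487 (k1 c4143 k0))))) (by decide +kernel)
def c4149 : PP 8 4 T 0x10000000000000000000000000000000100000000000000080000000000000028000000 := rS 0x4ea6e262e361ec140099cde7af5a0c3def01 (k8 c4028 c4022 c4030 c4006 c4021 c4003 c4000 c3997 (k8 c758 c759 c2686 c686 c687 c744 c865 c2755 (k1 c2097 k0))) (by decide +kernel)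
def c4150 : PP 8 4 T 0x8020800000000000000000000000080000000000000020000000 := rS 0x8cd22a84cfac9069fdfa4907b1d1472421b9a24f0a844ec180da050e7b0482800cb8cae59a995795e431ba3c95ff496ab5e52fb (k8 c4024 c3991 c4008 c4025 c3992 c4007 c3989 c3986 (k8 c3983 c3987 c38 c4124 c1136 c169 c1255 c1016 (k8 c139 c758 c759 c1057 c2686 c1635 c1364 c4149 (k8 c4148 c309 c349 c389 c2253 c2254 c1093 c1094 (k8 c1095 c1096 c1519 c1495 c1790 c1263 c1459 c1290 (k4 c717 c1502 c1561 c1766 (k2 c2072 c2107 (k1 c1259 k0)))))))) (by decide +kernel)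
def c4151 : PP 8 4 T 0x40000000000000001000000000000010000000000000000014000000000002000000000000000000000 := rS 0x8b82cae5ae779bbdf725 (k8 c3989 c4024 c4018 c4020 c4014 c3994 c3993 c1532 (k2 c1766 c2094 k0)) (by decide +kernel)
def c4152 : PP 8 4 T 0x10000000000000000000000000000000000000004400400080000000000000012000002 := rS 0x2266d182683c212101cf0690bc264f2d98bce6f017acbe3b1f9cccdb33d6ec3e533ba0c0def25 (k8 c3989 c4022 c4029 c4006 c4002 c3991 c4030 c4027 (k8 c4003 c4026 c3997 c4001 c3985 c3984 c3995 c4021 (k8 c4028 c4000 c4020 c3996 c3994 c3990 c1804 c8 (k8 c845 c2091 c500 c1958 c831 c2075 c277 c276 (k2 c865 c1809 (k1 c2088 k0)))))) (by decide +kernel)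
def c4153 : PP 8 4 T 0x400000000000000000000000000000800000008000000000000000004400000000200 := rS 0xf11891086798ec8e5f0b9bb65eadd (k8 c4027 c4021 c4026 c4000 c4019 c3995 c3988 c3984 (k4 c99 c237 c1224 c1966 (k2 c218 c2078 k0))) (by decide +kernel)
def c4154 : PP 8 4 T 0x40000000000000001000000000000000100815100000000014050154000000000000000000000000000 := rS 0x22e0ab261cae5ae779bbdf703 (k8 c4029 c4024 c4018 c4020 c4014 c3994 c3993 c1215 (k4 c2121 c474 c723 c2094 k0)) (by decide +kernel)
def c4155 : PP 8 4 T 0x1000000000000008000800000000040002000046000020000000000000000000000 := rS 0x648819d3f4349ae0c6873ebf0beb551c35508c58adcd6714c1d4ba6965d2d92833fa2542a730cc69b356dba5c2ed75cae4f496bc0666f9 (k8 c4023 c3997 c4028 c4008 c3992 c3990 c3993 c4016 (k8 c4017 c4011 c4015 c4009 c3999 c3998 c3996 c2694 (k8 c904 c1795 c2663 c1522 c2623 c1793 c1557 c139 (k8 c44 c1498 c2683 c697 c2682 c70 c1247 c1243 (k8 c1133 c1134 c1268 c3501 c3483 c1506 c2086 c1264 (k8 c1636 c965 c4154 c1126 c1280 c1396 c657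 c2098 (k2 c2118 c1539 k0))))))) (by decide +kernel)
def c4156 : PP 8 4 T 0x1000000000000008000000800000040006000002000020000000000000000000000 := rS 0x2f2953ea38819d146582974d34b64a0cfe8950a9cc27d31d35db2795cc5cf3580ba65af377bee06f9 (k8 c4023 c4029 c4024 c4018 c4020 c3994 c4015 c4028 (k8 c3999 c4014 c3996 c3993 c3990 c4017 c3998 c965 (k8 c1502 c2694 c904 c1795 c2663 c1522 c2623 c1793 (k8 c1557 c44 c1498 c474 c553 c2094 c2703 c2087 (k4 c740 c1541 c1405 c2118 (k1 c699 k0)))))) (by decide +kernel)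
def c4157 : PP 8 4 T 0x8000005000000000006008002000020000000000000000000000 := rS 0xc8ab4fc31465f7eab5606761accc67d389d5225d34b25067f44a854e615cafce66f4ba62133593d2662d7a6c05b703 (k8 c4029 c4009 c4028 c3998 c4008 c3996 c3992 c3990 (k8 c3999 c482 c697 c3210 c3143 c3144 c4155 c1525 (k8 c2694 c904 c1795 c2663 c1522 c2623 c1793 c44 (k8 c1498 c3169 c2683 c2682 c1502 c965 c4156 c1211 (k8 c656 c2121 c2050 c466 c545 c1524 c2086 c1269 (k2 c1676 c2118 (k1 c701 k0))))))) (by decide +kernel)
def c4158 : PP 8 4 T 0x100000000000000000000000000000000000040000000000000800000000140000 := rS 0xaae58dc864b0795b55cf1f (k8 c3985 c4014 c4025 c3993 c4013 c3989 c3987 c3983 (k2 c1529 c1600 (k1 c2073 k0))) (by decide +kernel)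
def c4159 : PP 8 4 T 0x1200000000002000040000080000000000000010 := rS 0x101880671b8ec965f276acc5b301 (k8 c4028 c4026 c3996 c4025 c3990 c3995 c3989 c3984 (k4 c3983 c337 c1927 c958 (k2 c830 c2070 k0))) (by decide +kernel)
def c4160 : PP 8 4 T 0x100020000000000000008000010 := rS 0x4071b8ec965f276acc5b301 (k8 c4028 c4026 c3996 c4025 c3990 c3995 c3989 c3984 (k4 c3983 c423 c2669 c2070 k0)) (by decide +kernel)
def c4161 : PP 8 4 T 0x8001000000000000008008040000000000140000000004000080 := rS 0x34476530a8f5663f8b04d86c5829dca34b78106333981cfe82eb7bbbdf6dd85c8e3ef9 (k8 c4023 c3985 c3988 c4019 c4027 c4024 c4018 c4022 (k8 c4016 c4006 c4005 c4029 c4001 c1011 c1050 c2081 (k8 c1557 c1802 c48 c1536 c1634 c1906 c3513 c2103 (k8 c1178 c1002 c1543 c648 c1903 c4158 c1631 c2115 k0)))) (by decide +kernel)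
def c4162 : PP 8 4 T 0x8100008000040001000050002045100000000000000000000000 := rS 0x17ccaa555a7d42a7 (k8 c904 c1795 c1667 c3605 c1405 c701 c699 c2118 k0) (by decide +kernel)
def c4163 : PP 8 4 T 0x8000000000000000002008002000020000040000000000000000 := rS 0x62c5d68b751ab4cec35998cfa8760afcfec9a5c26328344a452e6f399142e1b02818120b0ea60ba6930aece33fa0badeeef7dd3df3036ecedab299cc963f1b (k8 c3983 c3985 c3989 c4001 c3991 c4025 c4002 c4027 (k8 c4029 c4023 c4004 c4024 c4018 c4022 c4016 c4006 (k8 c4005 c2682 c1441 c2694 c44 c1498 c697 c3015 (k8 c2681 c3142 c2071 c527 c4160 c2473 c1218 c3144 (k8 c3143 c3210 c3169 c2663 c2623 c1011 c482 c1557 (k8 c1793 c1522 c4155 c1717 c4161 c1502 c965 c4156 (k8 c1211 c656 c2050 c1524 c4162 c4157 c1546 c1789 (k1 c2103 k0)))))))) (by decide +kernel)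
def c4164 : PP 8 4 T 0x1000000000000000000000000000004000042000000041000018110045100000000000000000000000 := rS 0x256226449a7e185f7eac178a164c5d7ea33fc5633339acf5d33f87bae6327a4b5e9b016dc0e9f416fbddc6f9 (k8 c4023 c4012 c4022 c4010 c4006 c4004 c4029 c4009 (k8 c4028 c3998 c4008 c3992 c3990 c3996 c4016 c4030 (k8 c4005 c4015 c4003 c3999 c3997 c1011 c1275 c1433 (k8 c1436 c1517 c1546 c1704 c1707 c2102 c1171 c466 (k8 c545 c2086 c1269 c1658 c2118 c1539 c1696 c2096 k0))))) (by decide +kernel)
def c4165 : PP 8 4 T 0x4000000000000000000000000000000000000000100020000000004000000010000002 := rS 0x3b1eb9454128fc8673079fb75d71b (k8 c3983 c4016 c4027 c4005 c4013 c4001 c3987 c3985 (k4 c490 c491 c1527 c1678 (k2 c1641 c2080 k0))) (by decide +kernel)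
def c4166 : PP 8 4 T 0x10004000000000200000000000000000500155400080000000000 := rS 0x62b055e95 (k4 c1694 c1774 c1933 c1136 (k1 c2115 k0)) (by decide +kernel)
def c4167 : PP 8 4 T 0x102001000140200000050000055500000000000000000000000 := rS 0x4fa8528aa (k4 c1932 c1933 c1741 c1698 (k1 c2118 k0)) (by decide +kernel)
def c4168 : PP 8 4 T 0x1000000000000400000000000000004000000000508000000000000000000000000000000000000000 := rS 0xa986d366edb7ab8df335 (k8 c3999 c4023 c4012 c4021 c4009 c4000 c3998 c1269 (k2 c1509 c2099 k0)) (by decide +kernel)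
def c4169 : PP 8 4 T 0x14400000000000000004114001000440200002040000055500000000000000000000000 := rS 0x54c35409f57d2982a5a29f69b376dbd5c6f970cfe82eb7bbbdf6f3 (k8 c4020 c4024 c4018 c4022 c4016 c4006 c4005 c4011 (k8 c4023 c4012 c4021 c4009 c4000 c3998 c1501 c1283 (k8 c1401 c4167 c2103 c1555 c4168 c2118 c732 c980 (k1 c2099 k0)))) (by decide +kernel)
def c4170 : PP 8 4 T 0x440000400001000008010000800004150000000010000002 := rS 0x5e8d49a391bac4480c27bc232f981bddbb4185ce6471f (k8 c3985 c3988 c4001 c4019 c4006 c4027 c4022 c4029 (k8 c4023 c1011 c2081 c220 c488 c489 c545 c1407 (k4 c281 c285 c1370 c1171 (k1 c2114 k0)))) (by decide +kernel)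
def c4171 : PP 8 4 T 0x400000000000000004100400400440200006048110055500000000000000000000000 := rS 0x172b78b4518abd652c550fc86a82328161ad4fabb4ba453ea5a2bb5c34fa0b7deee37cc0e9b376dbd64f4998b5e02f3 (k8 c4020 c4028 c4008 c3996 c3992 c3990 c4021 c4009 (k8 c4000 c3998 c4029 c4023 c4012 c4022 c4010 c4006 (k8 c4004 c4011 c4017 c1283 c1401 c4168 c3169 c3210 (k8 c1441 c1501 c4164 c1211 c51 c1011 c2118 c732 (k8 c2086 c2099 c466 c981 c1171 c1757 c2102 c4169 (k2 c997 c1006 (k1 c4032 k0))))))) (by decide +kernel)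
def c4172 : PP 8 4 T 0x10004000000000200000000100020000100154000000010000002 := rS 0x76531e8a824ad (k4 c2050 c490 c491 c1678 (k2 c293 c1641 (k1 c4166 k0))) (by decide +kernel)
def c4173 : PP 8 4 T 0x400000000000000004100000400440200006448110055500000000000000000000000 := rS 0x22ec55c24d40b15ba7d7ca58ca0586b53eaee8a9748bb5e703 (k8 c4029 c4020 c4017 c3169 c3210 c1283 c1441 c1501 (k8 c4164 c1211 c51 c1011 c1401 c4171 c4168 c3147 (k4 c1243 c2118 c1738 c4032 (k2 c1135 c1006 (k1 c4169 k0))))) (by decide +kernel)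
def c4174 : PP 8 4 T 0x40000401001000008012000800004150000000010000002 := rS 0x17ca4 (k2 c699 c4170 (k1 c1404 k0)) (by decide +kernel)
def c4175 : PP 8 4 T 0x110801400080600004558110000000000154000000080000000 := rS 0x14a943d608ee2e955c23d62b768945e11961c1e7f4175bdddefb76c8606dd85ce6471f (k8 c3985 c3988 c4001 c4019 c4027 c4029 c3987 c4017 (k8 c4024 c4018 c4022 c4016 c4006 c4005 c4013 c1211 (k8 c1011 c2081 c1803 c221 c3147 c1243 c1516 c4032 (k8 c858 c1006 c3106 c1933 c275 c2103 c2115 c1824 k0)))) (by decide +kernel)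
def c4176 : PP 8 4 T 0x1000000000004000000000000000000110441500080200004158110000000000154000000080000000 := rS 0x149c83d608ed2ab847ade28bd68945e11961bbe3f219cc1e7edd75cf69f416fbddc6f981c2e46fb (k8 c4024 c3988 c4019 c4029 c4023 c4012 c4022 c4010 (k8 c4006 c4004 c4003 c4016 c4027 c4005 c4013 c4001 (k8 c3987 c3985 c4018 c1211 c1011 c2081 c1803 c221 (k8 c1171 c2102 c996 c1274 c4032 c858 c3106 c1933 (k4 c275 c2080 c2115 c213 k0))))) (by decide +kernel)
def c4177 : PP 8 4 T 0x4000000000000000000100401400080200006058110001500000554000000080010000 := rS 0x1a4221c8a074531b8f694254ab0618355cc5578fd58344a2f08ca068abb61b155ecd8ec7e8f397fd3dbadf83cfe82eb7bbbdf72f93d2662d7a6c05b70379c861723 (k8 c3988 c4019 c3987 c4020 c4029 c4009 c4028 c3998 (k8 c4008 c3996 c3992 c3990 c3995 c4024 c4018 c4022 (k8 c4016 c4006 c4005 c4013 c4010 c4027 c4004 c4007 (k8 c4001 c3986 c3985 c3984 c1481 c989 c1136 c1211 (k8 c1441 c1283 c51 c1011 c2081 c1803 c221 c4176 (k8 c466 c715 c992 c1203 c1034 c2086 c2021 c859 (k8 c1266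 c2103 c275 c272 c1824 c2115 c1102 c1142 (k2 c778 c2079 (k1 c1257 k0))))))))) (by decide +kernel)
def c4178 : PP 8 4 T 0x1000000000000000000000000000080000000000000000000000400850000080000000 := rS 0x6908872288ec7e8f397fd3dbadf (k8 c4010 c4027 c4004 c4007 c4001 c3986 c3985 c3984 (k4 c1102 c1142 c778 c2079 (k1 c1257 k0))) (by decide +kernel)
def c4179 : PP 8 4 T 0x500000000000000000000000050000000000000000000000800000000100000000000 := rS 0xaba5cd66ee97abbdf707 (k8 c4013 c4024 c4018 c4021 c4015 c4000 c3999 c1824 (k2 c1943 c2100 k0)) (by decide +kernel)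
def c4180 : PP 8 4 T 0x400000000000000004100000400400600006448110055500004154000100080010000 := rS 0x5e4509a37630947228158e8a63546b047ab98b2fd8a4757c45441d27b44a2f08ca055ac35a9f577454ba459b419cbb5e72181bddbb0b91c7df6f9 (k8 c4023 c4024 c3985 c3988 c4019 c4027 c4022 c4029 (k8 c3987 c4020 c4017 c4001 c4006 c1481 c3169 c3210 (k8 c1283 c1441 c1501 c4164 c1211 c2050 c51 c1011 (k8 c2081 c1803 c221 c220 c3015 c4173 c740 c989 (k8 c1314 c1136 c4175 c4177 c1006 c1543 c1547 c1467 (k8 c1099 c4179 c2115 c1641 c1102 c1142 c1464 c779 (k4 c272 c412 c4178 c2114 (k1 c998 k0)))))))) (by decide +kernel)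
def c4181 : PP 8 4 T 0x400000000000000004000000400400600006448110055500004154000100080010000 := rS 0x698349849290ec7a938b4418aaf50b05574b8622994fd64335a2510793de11956b0e374792bfe92d56bb8e73339fd05d6f777bee6b3774bd5c2f393cc69b016dbe606dd85c8e3f21 (k8 c3987 c3985 c3988 c4019 c4027 c4029 c4023 c4009 (k8 c4028 c3998 c3996 c3990 c4020 c4011 c4021 c4015 (k8 c4000 c3999 c4024 c4018 c4022 c4016 c4006 c4005 (k8 c3997 c4001 c4012 c4008 c4025 c3992 c4007 c3989 (k8 c3986 c3983 c1211 c2050 c1011 c2081 c220 c1495 (k8 c1803 c221 c1481 c4180 c468 c717 c716 c2086 (k8 c1554 c1672 c1712 c732 c1754 c1136 c2100 c2103 (k8 c1540 c1543 c1101 c2115 c373 c2022 c507 c205 (k1 c2072 k0))))))))) (by decide +kernel)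
def c4182 : PP 8 4 T 0x400000000000000004000000400400600016408110004520004150000000000000082 := rS 0x4d5f8d46ecc24b18188a0915696e5290ed8a93608f572395ec422cb182b24fc65168fccec3849cc3a4f68878a2f08c854c2bb08cae5ae779bbdf71b90c960ed599d0672ed93cc66b0174ca6773f81badeedd85c8e3ef9 (k8 c4023 c3985 c3988 c4019 c4027 c4022 c4016 c4029 (k8 c4005 c4002 c3991 c4015 c4028 c3999 c3996 c3990 (k8 c4017 c4001 c4006 c3997 c4025 c4013 c3989 c3987 (k8 c3983 c4024 c4018 c4020 c4014 c3994 c3993 c2692 (k8 c1441 c2694 c2630 c1011 c2081 c1803 c487 c221 (k8 c220 c3015 c3144 c482 c1211 c656 c1177 c910 (k8 c4172 c4181 c126 c476 c674 c2090 c2087 c1171 (k8 c1137 c1006 c1543 c1547 c1540 c1135 c1101 c2115 (k8 c213 c1824 c253 c2073 c2094 c514 c515 c1718 (k4 c725 c1407 c1451 c1485 (k2 c2063 c2114 k0))))))))))) (by decide +kernel)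
def c4183 : PP 8 4 T 0x4400000000000000004115041000440200002008000055500004151400004000100080 := rS 0x11abe861344625698e57ac6062c424b71a8dc7c5323d28fc4f68945e11999c768f2f7fd35b2db8dc1e7f4175bdddefb90c0dbb0b9cc8e3ef9 (k8 c4023 c3985 c3988 c4001 c4019 c4027 c4029 c3987 (k8 c4024 c4018 c4022 c4016 c4006 c4005 c4013 c3983 (k8 c4009 c4026 c3998 c4007 c3995 c3986 c3984 c3997 (k8 c1011 c2081 c1803 c221 c220 c4169 c2103 c1312 (k8 c1824 c2115 c403 c1182 c3171 c1178 c675 c514 (k8 c515 c1171 c1137 c1256 c1367 c1449 c412 c2076 (k2 c2114 c1268 (k1 c1133 k0)))))))) (by decide +kernel)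
def c4184 : PP 8 4 T 0x40000000000000000000000000000004500000000044000002040000055500000000000000000000000 := rS 0x142503368a7d6db85c6ed7cbbdf6f3 (k8 c4020 c4024 c4018 c4023 c4017 c4012 c4011 c4009 (k4 c1501 c1283 c1481 c2118 (k2 c2104 c1550 k0))) (by decide +kernel)
def c4185 : PP 8 4 T 0x2100541000000000000000000000000044558100000000000080 := rS 0x4d1a9242437 (k4 c403 c1178 c1718 c1182 (k2 c2063 c2114 k0)) (by decide +kernel)
def c4186 : PP 8 4 T 0x4400100000000000004110000000400200002008110055500004150400004080100080 := rS 0x9a3529a35c837860fe28a91caf598b1239f9974b5fa2984c11eaac56a3882d5229727bc232bb3ea7d4b4577cce3f219cc1e7edd75d366edb7ab8df34fa0b7def2f76c9e573173cd602e979c0e1723 (k8 c3988 c4019 c4029 c4020 c4015 c4028 c3999 c4014 (k8 c3996 c3993 c3990 c4017 c3995 c4022 c4010 c4006 (k8 c4004 c4023 c4012 c4021 c4009 c4000 c3998 c4016 (k8 c4027 c4005 c4013 c4001 c3987 c3985 c3997 c4018 (k8 c1283 c1401 c4168 c1501 c1441 c1011 c2081 c220 (k8 c3210 c3169 c4164 c2087 c740 c1538 c1542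 c274 (k8 c1932 c4183 c1212 c1216 c1827 c1752 c4184 c1312 (k8 c2708 c725 c1171 c1137 c1483 c2102 c4185 c2099 (k4 c1272 c2080 c1268 c213 (k2 c1099 c2062 (k1 c2114 k0))))))))))) (by decide +kernel)
def c4187 : PP 8 4 T 0x400006008002000020000040000000100000000 := rS 0x1495a2d1eb0c7ec14584d5f114919876c962c5ccb055918e2683449d52ed10f1442a5d13b3cbe4b539857600018cde1192086c0a6922818120b0b87522984e9ace30181b7676d594ce64b1f8db66632797c75ef4185c8e42fb (k8 c4024 c3987 c3988 c4019 c4006 c4022 c3984 c3995 (k8 c3990 c3996 c4026 c3983 c3985 c3989 c4001 c3991 (k8 c4025 c4002 c4027 c4029 c4028 c2682 c70 c1235 (k8 c697 c3169 c3015 c2473 c2681 c3142 c2071 c1218 (k8 c44 c527 c4160 c1050 c1011 c2081 c216 c958 (k8 c2070 c1441 c2694 c904 c1320 c4174 c4163 c870 (k8 c1498 c2630 c1803 c487 c221 c3210 c2683 c2663 (k8 c2623 c744 c965 c4182 c474 c553 c1002 c1251 (k8 c2699 c3105 c4186 c657 c736 c985 c2462 c2703 (k8 c1661 c3131 c3138 c1655 c911 c945 c2115 c4179 k0)))))))))) (by decide +kernel)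
def c4188 : PP 8 4 T 0x10014000000000408000000000000000500154400000100000000 := rS 0x7ac1 (k2 c1661 c1655 (k1 c2115 k0)) (by decide +kernel)
def c4189 : PP 8 4 T 0x100000000000004112000000001200002008112051000004150400000080100080 := rS 0x1895f1789974d2272fa9d7600018cde11902875234180b6662d593cbe4b1d8dc0deedd85ce6471f (k8 c3985 c3988 c4001 c4019 c4027 c4022 c4029 c3983 (k8 c3984 c3989 c3995 c3990 c4025 c3996 c4026 c4028 (k8 c4006 c3169 c3015 c527 c1011 c2081 c216 c958 (k8 c2070 c1441 c904 c4174 c870 c44 c1498 c744 (k4 c1547 c1715 c4186 c964 k0))))) (by decide +kernel)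
def c4190 : PP 8 4 T 0x400002008002000020000040000000100000000 := rS 0x31c5c543c6099d263b1f94c26c3649958b054317d9e2725a9d76612ea04ef1338a74d675489cda21e28854000319bc0821b349142f1902818120b0ea62732d81b7676d594c963f1b80b66632797c75ef4185c8e42fb (k8 c4024 c3987 c3988 c4019 c4006 c4022 c3984 c3995 (k8 c3990 c3996 c4026 c4028 c3983 c3985 c3989 c3991 (k8 c4025 c4002 c4027 c4029 c3994 c4001 c697 c3015 (k8 c2681 c3142 c2071 c527 c1011 c2473 c1218 c44 (k8 c4160 c1050 c2081 c216 c958 c2070 c2630 c1803 (k8 c487 c221 c3144 c3169 c2683 c70 c1235 c2682 (k8 c744 c48 c51 c1498 c2694 c1441 c904 c1320 (k8 c870 c4163 c4174 c4187 c1537 c1634 c1653 c1733 (k8 c1906 c1564 c1903 c1178 c4158 c4188 c657 c4189 (k4 c2115 c274 c1543 c1607 (k1 c4186 k0))))))))))) (by decide +kernel)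
def c4191 : PP 8 4 T 0x100000000000000000000000000000000000000050000000000000080000000010 := rS 0xc71193cae62e79ac05d32f (k8 c3995 c4015 c4028 c3999 c4014 c3996 c3993 c3990 (k2 c1538 c1607 (k1 c2087 k0))) (by decide +kernel)
def c4192 : PP 8 4 T 0x10004000000001200008000042050000500154000000080100010 := rS 0x8898d54af600f4563b09b160b2795cc5cf3580ba66f2d (k8 c3994 c4000 c4015 c4028 c3999 c4014 c3996 c3993 (k8 c3990 c1537 c1634 c1564 c4158 c4191 c274 c2115 (k4 c1715 c1932 c964 c1542 (k1 c2087 k0)))) (by decide +kernel)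
def c4193 : PP 8 4 T 0x200000000000000010004000000000200000000000000000500155000000080000000 := rS 0x30476c555a4e6f33 (k8 c3997 c4000 c1540 c1542 c1135 c1101 c1932 c2115 k0) (by decide +kernel)
def c4194 : PP 8 4 T 0x1000000000000000200000000000000112541100000200004108110055500000154140004080000000 := rS 0x352688d48a32792de119599fcfb17a0d25db03a3bddbb0b9cc8e3ef9 (k8 c4023 c3985 c3988 c4001 c4019 c4027 c4022 c3986 (k8 c4029 c4017 c3992 c4006 c1547 c1535 c476 c474 (k8 c1011 c2081 c1801 c220 c4176 c4167 c1301 c1935 (k2 c1100 c2114 k0)))) (by decide +kernel)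
def c4195 : PP 8 4 T 0x200000000000000152000000001600015508110055500000154000004080000080 := rS 0x146a55f0dd703958bf177455ab2a126f39af5667f3ea2d9acf5ba515503a4cb5aef371be5c2ed (k8 c4017 c4011 c4023 c4012 c4020 c4008 c3994 c3992 (k8 c4029 c1932 c1933 c3678 c3634 c3846 c1712 c1535 (k8 c476 c474 c1172 c3144 c3143 c482 c2124 c1709 (k8 c1823 c1981 c2093 c466 c1137 c2121 c1471 c4194 (k2 c1404 c4175 (k1 c4167 k0)))))) (by decide +kernel)
def c4196 : PP 8 4 T 0x15040000000000000004200000000001544400000000000010000 := rS 0x7b4c90cb26835fb1ba3c95ff496ab5dc32d (k8 c3994 c4011 c4008 c4025 c3992 c4007 c3989 c3986 (k8 c3983 c1265 c1293 c1895 c1900 c2116 c204 c242 (k1 c2072 k0))) (by decide +kernel)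
def c4197 : PP 8 4 T 0x200000000000000152000000001600015508110054500000154000000080000082 := rS 0x9cc2fca2b2a127f3ea2d9acf4a2aa034996b5de6e37cb85db03 (k8 c4029 c4017 c4011 c4023 c4012 c4020 c4008 c3994 (k8 c3992 c4028 c1932 c1933 c3634 c3846 c1712 c1535 (k8 c476 c482 c2124 c1823 c2093 c464 c870 c4195 k0))) (by decide +kernel)
def c4198 : PP 8 4 T 0x14000000001600015408112040000400155400000080010080 := rS 0x3da64865936880d7eb20ba812384d8ecf7233528aa8bb02124f2597cab0488994a200018cc0ad1784643a638dd1e4affa4b55aee196bcdc6f976c7e433983cfdbaeba0bee06f785c8e02d998c9e5f1d74cd5cf2b (k8 c3993 c4014 c3999 c4015 c3984 c3995 c3990 c3996 (k8 c4026 c4028 c3988 c4019 c4022 c4029 c4024 c4006 (k8 c4016 c4027 c4005 c4013 c4001 c3987 c3985 c4017 (k8 c4023 c4012 c4020 c3994 c4011 c4008 c4025 c3992 (k8 c4007 c3989 c3986 c3983 c965 c3015 c1011 c2081 (k8 c221 c527 c216 c958 c2070 c1803 c4172 c4193 (k8 c2087 c1532 c698 c1801 c220 c482 c2115 c1547 (k8 c1932 c1933 c3846 c2080 c3634 c212 c1527 c1530 (k8 c4196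 c963 c4197 c468 c506 c2093 c1819 c1823 (k4 c2116 c204 c242 c2072 k0)))))))))) (by decide +kernel)
def c4199 : PP 8 4 T 0x1000000000000000000000000000000000000000001002000000000000011000 := rS 0x1ed38dd1e4affa4b55aee1 (k8 c4011 c4008 c4025 c3992 c4007 c3989 c3986 c3983 (k2 c204 c242 (k1 c2072 k0))) (by decide +kernel)
def c4200 : PP 8 4 T 0x20000000000000000040000000044000000000000000000001400000154400000000 := rS 0x12a865ee1 (k4 c4011 c3995 c732 c1266 (k1 c2110 k0)) (by decide +kernel)
def c4201 : PP 8 4 T 0x1000000000040040000000044000000000004000520001400100154100011000 := rS 0xde2a8c581821a351183a3f479cbfe9edd6fc0e4f4998b5e9b016dc6e4ad5 (k8 c4025 c3989 c3983 c4009 c4028 c3998 c4008 c3996 (k8 c3992 c3990 c4029 c4010 c4027 c4004 c4007 c4001 (k8 c3986 c3985 c2072 c1327 c1329 c4200 c2086 c616 (k4 c617 c992 c1384 c2079 k0)))) (by decide +kernel)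
def c4202 : PP 8 4 T 0x2000000000000000001000000000000040100080004400000000004000520045550100154100011000 := rS 0x1baed1860868d446d2519357ea993d2662d7a6c05b71f8ebfdeef5 (k8 c4021 c4022 c4007 c3984 c3985 c4009 c4028 c3998 (k8 c4008 c3996 c3992 c3990 c1284 c1285 c1819 c988 (k8 c4201 c1257 c1258 c4200 c2086 c617 c1390 c1384 (k1 c2114 k0)))) (by decide +kernel)
def c4203 : PP 8 4 T 0x1000000000000040000080004400001408004000520001550100154100011000 := rS 0x17715462c0c10d11b4946bf54a028b092792de1195ed3e82df7bb8df30393d2662d7a6c05b71d96bce8edd85ce6471f (k8 c3985 c3988 c4001 c4019 c4027 c3986 c4020 c3994 (k8 c3984 c4009 c4028 c3998 c4008 c3996 c3992 c3990 (k8 c4029 c4023 c4012 c4022 c4010 c4006 c4004 c1172 (k8 c1011 c2081 c1801 c220 c482 c4202 c2093 c1361 (k8 c1363 c988 c4201 c1257 c4200 c2086 c616 c617 (k2 c992 c1390 (k1 c2102 k0))))))) (by decide +kernel)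
def c4204 : PP 8 4 T 0x240000080000400000008002010021000440000150100040000 := rS 0x371a9357ebb1123500a82e1244e3906a7dfa9d35a0cde4f0f12c2200018cde0410d9a48a178c8140c0905875305f5ea15c3036ecedab299cc963f1b80b66632797c75ef4185c8e8ef9 (k8 c4023 c3986 c3988 c4019 c4006 c4022 c3984 c3995 (k8 c3990 c3996 c4026 c4028 c3983 c3985 c3989 c4001 (k8 c3991 c4025 c4002 c4027 c4029 c4011 c4190 c1172 (k8 c698 c697 c3015 c2681 c3142 c2071 c527 c1011 (k8 c2473 c1218 c44 c4160 c1050 c2081 c216 c958 (k8 c2070 c2592 c1801 c487 c220 c3143 c2623 c70 (k8 c1235 c468 c1664 c506 c1138 c871 c4199 c4203 (k8 c962 c963 c1337 c752 c1444 c1363 c1895 c1099 (k2 c1410 c2114 k0))))))))) (by decide +kernel)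
def c4205 : PP 8 4 T 0x100000001000000000006000200054150110000010000002 := rS 0x6ebf5d88900a8 (k4 c962 c963 c752 c1444 (k2 c1363 c1410 (k1 c2114 k0))) (by decide +kernel)
def c4206 : PP 8 4 T 0x1000000000000140011080000400000058002000021001445400050100041000 := rS 0x375ba3d3c5d1a9341c271ca74d683489bc9e1525844bebd428b43c00018cde0410d9a48a178c8140c090587531036ecedab299cc963f1b80b66632797c75ef4185c8e8ef9 (k8 c4023 c3986 c3988 c4019 c4006 c4022 c3984 c3995 (k8 c3990 c3996 c4026 c4028 c3983 c3985 c3989 c4001 (k8 c3991 c4025 c4002 c4027 c4029 c697 c3015 c2681 (k8 c3142 c2071 c527 c1011 c2473 c1218 c44 c4160 (k8 c1050 c2081 c216 c958 c2070 c487 c392 c4190 (k8 c1172 c698 c2592 c1801 c2630 c220 c3143 c3169 (k8 c2623 c70 c1235 c1138 c871 c2107 c245 c1329 (k4 c4205 c4203 c1427 c1667 (k2 c273 c2113 k0))))))))) (by decide +kernel)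
def c4207 : PP 8 4 T 0x1201000000000000100000080000000001400000054420004000000000000002004 := rS 0x1469f50aa6194430a04ba7f3ecd5c2f593d2662d7a6c05b72d79b8df2ed (k8 c4017 c4023 c4012 c4020 c3994 c4009 c4028 c3998 (k8 c4008 c3996 c3992 c3990 c4021 c4011 c3999 c1535 (k8 c476 c1288 c1293 c2455 c2093 c2086 c1284 c732 (k2 c1269 c988 (k1 c2118 k0))))) (by decide +kernel)
def c4208 : PP 8 4 T 0x201000000000000040011080000400000008002054020000445400050100040000 := rS 0x24836128325844be853f9f5925516878000319bc0821b349142f1902818120b0ea6206dd9db56533992c7e37016ccc64f2f8ebde830b91d25db47 (k8 c3986 c4017 c3992 c3988 c4019 c4006 c4022 c3984 (k8 c3995 c3990 c3996 c4026 c4028 c3983 c3985 c3989 (k8 c4001 c3991 c4025 c4002 c4027 c4029 c697 c3015 (k8 c2681 c3142 c2071 c527 c1011 c2473 c1218 c44 (k8 c4160 c1050 c2081 c216 c958 c2070 c487 c392 (k8 c1532 c4204 c1535 c476 c4190 c698 c2592 c1801 (k4 c2623 c482 c4207 c4199 (k1 c4206 k0)))))))) (by decide +kernel)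
def c4209 : PP 8 4 T 0x1000000000000000000000000000000000000000000000000002001110000000000000 := rS 0x6ed38fd1e72ffa7b75bee1 (k8 c4011 c4010 c4027 c4004 c4007 c4001 c3986 c3985 (k2 c204 c322 (k1 c2079 k0))) (by decide +kernel)
def c4210 : PP 8 4 T 0x4000000000400000008002040020400045400000100000000 := rS 0x1bb4c18491ac556c3907ac5f8c92384d8ee45a8a572ae49310567141a24de85088b5667f2a9f6091131a1cca750a9443c00018cda2f08c90436692285c0a060482c3a734e9ad311fa3ce5ff4f6eb7e36e192c0ddb1d90cbe0f356cba6933b6aca5f6f7a0c2e470198c9dcf2b (k8 c3993 c4014 c3990 c3996 c4028 c3988 c4019 c4006 (k8 c4022 c4024 c3991 c4025 c4002 c3992 c4015 c4026 (k8 c3999 c4013 c3995 c3987 c3984 c4017 c4029 c3989 (k8 c4011 c3983 c4010 c4027 c4004 c4007 c4001 c3986 (k8 c3985 c697 c70 c1235 c3144 c3015 c2681 c3142 (k8 c2071 c527 c2473 c1218 c44 c4160 c1050 c1011 (k8 c2081 c221 c216 c958 c2070 c487 c1803 c2630 (k8 c2683 c4172 c4192 c965 c4193 c2087 c1535 c1532 (k8 c476 c474 c392 c2592 c4190 c3143 c2663 c2623 (k8 c2682 c4166 c4198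 c1135 c1136 c3150 c1568 c3718 (k8 c2077 c212 c1527 c1530 c4204 c4208 c466 c1261 (k8 c1137 c2121 c997 c3103 c4209 c2107 c1256 c1407 (k1 c2079 k0))))))))))))) (by decide +kernel)
def c4211 : PP 8 4 T 0x50000054420001000000020000002006 := rS 0x2386a804ea34f9858e252eb4d931da3cbdff4d6cb6dc31b (k8 c3983 c4011 c4009 c4026 c3998 c4007 c3995 c3986 (k8 c3984 c507 c1256 c1288 c1367 c1447 c2455 c1571 (k4 c779 c870 c2118 c732 (k2 c771 c2076 k0)))) (by decide +kernel)
def c4212 : PP 8 4 T 0x1000040040000000020000000000000000000001000000004000000000 := rS 0x47a1d1e42ff83b85dadb (k8 c4009 c4017 c4011 c4013 c4007 c3987 c3986 c1550 (k2 c1585 c2082 k0)) (by decide +kernel)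
def c4213 : PP 8 4 T 0x40000000000000000000000000002020000000100000100010000 := rS 0x371ac5518b08fd1e72ffa7b75bf03 (k8 c4029 c4010 c4027 c4004 c4007 c4001 c3986 c3985 (k4 c616 c617 c992 c1034 (k2 c1384 c2079 k0))) (by decide +kernel)
def c4214 : PP 8 4 T 0x100011400050001000050154055500000000000000000000000 := rS 0x160fc5bc353d0393d2662d7a6c05b735 (k8 c3999 c4009 c4028 c3998 c4008 c3996 c3992 c3990 (k4 c4029 c2118 c1269 c1667 (k2 c2086 c2121 (k1 c466 k0)))) (by decide +kernel)
def c4215 : PP 8 4 T 0x100000001000000000006000200044150100000090010002 := rS 0x371a9357ebb1123500a8 (k8 c962 c963 c1337 c752 c1444 c1363 c1895 c1099 (k2 c1410 c2114 k0)) (by decide +kernel)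
def c4216 : PP 8 4 T 0x100000020218000000000000000045150100000080000000 := rS 0x34898bf8a8d46ebb5b08d1ee38fd1e72ffa7b75bee1 (k8 c4011 c4010 c4027 c4004 c4007 c4001 c3986 c3985 (k8 c4012 c850 c771 c1738 c1931 c273 c1100 c997 (k4 c3147 c2114 c2079 c205 k0))) (by decide +kernel)
def c4217 : PP 8 4 T 0x110004080200000000000000000444150100060080000000 := rS 0x4d1aafc6ebb632344aa5 (k8 c1470 c1464 c1467 c779 c1930 c272 c1133 c1099 (k2 c412 c2114 k0)) (by decide +kernel)
def c4218 : PP 8 4 T 0x100000000400000400000002020044150100000100010000 := rS 0x4d1baec6abf6923160e3 (k8 c4012 c616 c617 c4213 c1243 c1034 c1390 c1384 (k2 c205 c2114 k0)) (by decide +kernel)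
def c4219 : PP 8 4 T 0x4000000000400000008002040020400045000000100000000 := rS 0x31da64c5d8d57e3752a344b0c23d0dfac830a8d425d1c83492b5558a124b915a55ca3a3e9fd6704889c506913793c96112faf50a6343994ea1528878000319b45e1192086cd2450b8140c0905874e69d35a628f217fc1dc2ed71cde672f93d2662d7a6c05b71f81cadcf3574b7676d594ce64b1b7dbde830b91b663af9 (k8 c4023 c3984 c4026 c3988 c4019 c4006 c4022 c4024 (k8 c3983 c3989 c4001 c3991 c4025 c4002 c4027 c4015 (k8 c3999 c4014 c3993 c4029 c3985 c4009 c4028 c3998 (k8 c4008 c3996 c3992 c3990 c3995 c3997 c4000 c4012 (k8 c4017 c4011 c4013 c4007 c3987 c3986 c697 c70 (k8 c1235 c3144 c3015 c2681 c3142 c2071 c527 c2473 (k8 c1218 c44 c4160 c1050 c1011 c2081 c221 c216 (k8 c958 c2070 c487 c1803 c2630 c2683 c4172 c4192 (k8 c965 c4190 c1172 c698 c2592 c1801 c220 c3143 (k8 c3169 c2623 c2682 c4193 c2087 c474 c476 c1535 (k8 c4210 c1529 c1577 c1641 c3106 c1101 c1102 c1572 (k8 c3516 c3649 c4211 c1138 c4215 c4216 c4217 c4218 (k8 c4214 c468 c1549 c1583 c2086 c1266 c1268 c1270 (k8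 c272 c1133 c1099 c1930 c2114 c205 c412 c2082 k0)))))))))))))) (by decide +kernel)
def c4220 : PP 8 4 T 0x200100000000400000000006000420044152000000110000002 := rS 0x1ed3262ec6abf1ba951a2586184ba3906ad5fa984e9ad061e0884ceb1ba3c95ff496ab5dc73799cbe4f31a6c05b6e1 (k8 c4011 c4009 c4028 c3998 c3996 c3990 c3995 c3997 (k8 c4000 c4012 c4008 c4025 c3992 c4007 c3989 c3986 (k8 c3983 c2683 c1678 c2592 c487 c2623 c70 c1235 (k8 c697 c468 c1704 c506 c363 c4215 c4218 c2086 (k8 c1266 c1268 c1270 c272 c1133 c1099 c1930 c2114 (k2 c205 c245 (k1 c2072 k0))))))) (by decide +kernel)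
def c4221 : PP 8 4 T 0x100000000404020000050000055500020000150080000000000 := rS 0x2891ea18a095a73d8fd1e72ffa7b75bee3 (k8 c4012 c4010 c4027 c4004 c4007 c4001 c3986 c3985 (k8 c4003 c205 c285 c2079 c1735 c1274 c2118 c858 k0)) (by decide +kernel)
def c4222 : PP 8 4 T 0x2000000000000000000100100040004220000050000055500054150150000000000000 := rS 0x542817ca35da3e833d (k8 c4003 c4006 c1274 c1276 c858 c2114 c2118 c1134 (k1 c980 k0)) (by decide +kernel)
def c4223 : PP 8 4 T 0x140100440404220000050014055501044150150080000151000 := rS 0xb05c3f5440e50925a5152691e53499db5e9f036fc95c31fa3ce5fedd (k8 c4027 c4007 c4001 c3986 c3985 c4011 c3989 c4010 (k8 c4029 c4004 c4008 c4002 c3992 c3991 c3626 c4221 (k8 c4222 c2079 c204 c1734 c2107 c2118 c1261 c859 (k2 c2089 c1203 k0)))) (by decide +kernel)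
def c4224 : PP 8 4 T 0x100000000004020000050000055500000000020080110000000 := rS 0x50a8c4a8f (k4 c1306 c1370 c858 c1735 (k1 c2118 k0)) (by decide +kernel)
def c4225 : PP 8 4 T 0x140005400000001000050154055500000000080000080000000 := rS 0xa151ae51c24 (k4 c272 c273 c1471 c1463 (k2 c851 c4214 k0)) (by decide +kernel)
def c4226 : PP 8 4 T 0x140100440404220000050014055501044150150080000150000 := rS 0x8ab4c9a0c8db7dbb4f7fce68f1f (k8 c3985 c3986 c4001 c4007 c4004 c4027 c4010 c3983 (k4 c4223 c4221 c1256 c4222 (k1 c2079 k0))) (by decide +kernel)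
def c4227 : PP 8 4 T 0x140101440400221000050154055501044150100080190150000 := rS 0x1b8d53eb7 (k4 c3676 c1698 c4224 c4225 (k1 c4226 k0)) (by decide +kernel)
def c4228 : PP 8 4 T 0x140100440400265000050154055501044150100080190150000 := rS 0xc6903c6efc47c353c491aa8547155a11e371fa3ce5ff4f6eb7e4b27a4cc5af4d80b6e6b3f (k8 c4005 c3999 c4009 c4028 c3998 c4008 c3996 c3992 (k8 c3990 c3989 c4010 c4027 c4004 c4007 c4001 c3986 (k8 c3985 c3983 c3626 c4227 c1275 c1436 c1707 c1307 (k8 c1703 c2118 c1269 c1428 c2086 c273 c1261 c2079 (k2 c2107 c1256 k0))))) (by decide +kernel)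
def c4229 : PP 8 4 T 0x100100440400241000050154055501044152000000190110000 := rS 0xa34fa856848128e0549449b1c2627 (k8 c2313 c1678 c2206 c1655 c275 c274 c4228 c281 (k4 c362 c363 c1735 c1663 (k2 c1436 c2118 k0))) (by decide +kernel)
def c4230 : PP 8 4 T 0x100000000400000400000002020044150000000100010080 := rS 0x708c (k2 c617 c4218 (k1 c3123 k0)) (by decide +kernel)
def c4231 : PP 8 4 T 0x4000000000400000008002040020400044000000100000000 := rS 0x19ecd402a0b8c93e954feb38211d5ec74a0a87863439c53a6b48a5cde730f054bea730af50a112593d066528800063368bc232410d814d2450302416170e9d5314992bb606dd9db5653398fc6df6f7a0c2e47016ccc64f2f8ec85f347 (k8 c3986 c4023 c3987 c3984 c3995 c3990 c3996 c4026 (k8 c4028 c3988 c4019 c4006 c4022 c4024 c3983 c3985 (k8 c4001 c3991 c4025 c4002 c4027 c4029 c4017 c3989 (k8 c3992 c697 c2683 c3015 c2473 c2681 c3142 c2071 (k8 c1218 c44 c527 c4160 c1050 c1011 c2081 c221 (k8 c216 c958 c2070 c1803 c4172 c2623 c220 c1801 (k8 c2592 c4190 c1172 c4230 c905 c698 c2630 c487 (k8 c3144 c3143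 c3210 c3169 c70 c1235 c2682 c4192 (k8 c965 c4219 c274 c275 c2206 c1774 c3626 c4191 (k8 c474 c476 c1532 c1535 c4220 c4229 c962 c963 (k2 c1484 c1365 (k1 c4196 k0)))))))))))) (by decide +kernel)
def c4232 : PP 8 4 T 0x100000001000000000006000200044150000000090010102 := rS 0x700e (k2 c753 c4215 (k1 c240 k0)) (by decide +kernel)
def c4233 : PP 8 4 T 0x1000000100000000014000000050000055520001000000140000002006 := rS 0x44452a28ec865f079ab65d2ed (k8 c4017 c4015 c4026 c3999 c4013 c3995 c3987 c3984 (k4 c2118 c4211 c740 c2077 k0)) (by decide +kernel)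
def c4234 : PP 8 4 T 0x1000000000000000100000000000000001400000055521804000200140000000086 := rS 0x9c14fc4926a7d4344861f502fd062c02ae58dc864b0795b55ceed7fcd5c34996b5de6e37cc9e634d80b6e06ef (k8 c4018 c4029 c4009 c4028 c3998 c3996 c3990 c4023 (k8 c4012 c4020 c4008 c3994 c3992 c4011 c3999 c4007 (k8 c4017 c4014 c4025 c3993 c4013 c3989 c3987 c3983 (k8 c213 c2630 c1137 c1138 c466 c1293 c1292 c2086 (k8 c2093 c732 c1269 c1819 c372 c4233 c476 c2468 (k1 c2073 k0)))))) (by decide +kernel)
def c4235 : PP 8 4 T 0x40000000000000001000000000000000000000000000000015080000000000000000000000000000000 := rS 0x8b82cae5ae779bbdf6ed (k8 c4017 c4024 c4018 c4020 c4014 c3994 c3993 c476 (k2 c724 c2094 k0)) (by decide +kernel)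
def c4236 : PP 8 4 T 0x500111400044210000050154055500045150100000080000000 := rS 0x8ab4d6c4c588d57e375dbf046a947c35411fa3ce5ff4f6eb7dc2e381c9e93316bd3602db (k8 c4009 c4028 c3998 c4008 c3996 c3992 c3990 c4029 (k8 c4012 c4011 c4010 c4027 c4004 c4007 c4001 c3986 (k8 c3985 c2118 c732 c850 c981 c771 c2086 c1931 (k8 c273 c1134 c1100 c466 c2114 c2121 c205 c997 (k1 c2079 k0))))) (by decide +kernel)
def c4237 : PP 8 4 T 0x40000000000000001100000001000000100100000000200014040154055501044154100000080110000 := rS 0x6e3526afd7646072019c7c5aa55731662b2c92b34fa4d468a094429f3d76ca6573b73cfe06eba6cce5af377bee372192c1dab2798cd602e9 (k8 c4015 c4028 c3999 c3996 c3990 c4025 c4013 c3989 (k8 c3987 c3983 c4024 c4018 c4020 c3994 c3997 c3998 (k8 c4016 c4029 c4005 c4014 c4002 c3993 c3991 c4017 (k8 c4003 c4004 c2087 c2073 c2094 c740 c1540 c1541 (k8 c513 c1718 c1752 c1135 c2090 c1006 c1545 c1546 (k8 c4236 c1772 c1773 c1563 c1562 c1446 c1363 c1895 (k2 c1329 c1411 (k1 c2114 k0)))))))) (by decide +kernel)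
def c4238 : PP 8 4 T 0x8000000000000000000500101400044200000050154055500045150100000080000000 := rS 0x4aae67aed (k4 c4017 c4003 c1006 c1545 (k1 c4236 k0)) (by decide +kernel)
def c4239 : PP 8 4 T 0x1000000500100400044201000050154055500045155100000180000000 := rS 0xb94a8ea2eb55047e433983cfdbaeb (k8 c4016 c4027 c4005 c4013 c4001 c3987 c3985 c2118 (k4 c1707 c4238 c2080 c1577 (k2 c3106 c4236 k0))) (by decide +kernel)
def c4240 : PP 8 4 T 0x400000000000000000500100410004201000050154055500845154100000180000000 := rS 0x260d57e8d543317637572944b1151394563d558b5daef (k8 c4018 c4017 c392 c1943 c332 c293 c213 c4239 (k8 c740 c1464 c1470 c4179 c272 c1930 c989 c988 (k4 c3459 c1133 c1099 c2114 (k1 c2063 k0)))) (by decide +kernel)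
def c4241 : PP 8 4 T 0x1000000040000000080000000000000000000000000000140000000000 := rS 0x53118ec865f079ab65d2ed (k8 c4017 c4015 c4026 c3999 c4013 c3995 c3987 c3984 (k2 c740 c779 (k1 c2077 k0))) (by decide +kernel)
def c4242 : PP 8 4 T 0x400000000000000000500100410404201000050154055500844154100004180000000 := rS 0x21aa95028d4b45263318e4816b94574d9bb6deae37cb85feef (k8 c4018 c4007 c4011 c4023 c4012 c4021 c4009 c4000 (k8 c3998 c293 c213 c392 c4240 c119 c373 c372 (k4 c1819 c1935 c4241 c2118 (k2 c1483 c732 (k1 c2099 k0))))) (by decide +kernel)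
def c4243 : PP 8 4 T 0x10400000000000000000105000400008241000050154055500800000000100000000000 := rS 0x6224e2eae5a44572a350ab6973fa0badeeef7dd3e9b07 (k8 c4013 c3998 c4004 c4024 c4018 c4022 c4016 c4006 (k8 c4005 c1824 c2050 c77 c78 c1396 c1541 c4214 (k4 c4179 c1546 c3718 c2103 (k1 c1135 k0)))) (by decide +kernel)
def c4244 : PP 8 4 T 0x40180000000044000000050000055500000000000005000000000 := rS 0x43446a08ed1e5effa6b65b6e1 (k8 c4011 c4009 c4026 c3998 c4007 c3995 c3986 c3984 (k4 c2118 c1449 c732 c2076 k0)) (by decide +kernel)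
def c4245 : PP 8 4 T 0x400000000000000000104000000400200011408110045520800154000000100000084 := rS 0xaf88a884ad3631319aca4f9f567041ca452e6f3993c96115e89c5a1e32945a2f08cb9456ad60954fe870a8000a1da5c25dae3a4c0e0f016ccc5ab2797c963b1b77bedeedda0c2e73238fc868ef9 (k8 c4023 c3986 c3987 c3985 c3988 c4001 c4019 c4006 (k8 c4027 c4022 c4024 c4018 c3983 c3984 c3989 c3995 (k8 c3990 c4025 c3996 c4026 c4028 c4013 c4029 c3992 (k8 c4012 c4017 c482 c1824 c3015 c527 c2070 c2630 (k8 c1903 c4235 c253 c1982 c2050 c293 c213 c1011 (k8 c2081 c221 c1803 c4172 c487 c392 c870 c1172 (k8 c2592 c1801 c220 c3144 c3143 c3210 c3169 c4234 (k8 c4237 c474 c1535 c4243 c4242 c138 c2022 c2023 (k4 c205 c285 c4244 c740 (k2 c989 c4179 k0)))))))))) (by decide +kernel)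
def c4246 : PP 8 4 T 0x480540000000000000000000000000044154050000000000000 := rS 0x9a39 (k2 c410 c413 (k1 c2114 k0)) (by decide +kernel)
def c4247 : PP 8 4 T 0x400000000000000000000000000000040540000000000000000000000000854550050000000000000 := rS 0x690e092e56ed1e42ff83b85daef (k8 c4018 c4017 c4011 c4013 c4007 c3987 c3986 c4027 (k4 c213 c372 c2114 c2082 (k1 c202 k0))) (by decide +kernel)
def c4248 : PP 8 4 T 0x1001000000000000000000000000000001400000000000020000000000000010000 := rS 0x81a2d265ad779b8df2ff (k8 c4007 c4023 c4012 c4020 c4008 c3994 c3992 c1819 (k2 c1895 c2093 k0)) (by decide +kernel)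
def c4249 : PP 8 4 T 0x4000000000400000008002040020000044000000100000000 := rS 0x18ccb26aec6abf1ba951a258611e86fd6418d0e5284c4ce2893a854bea730a0cbabd42844961e0000c664f78464821b029a48a060585c3a6f04a613a6b9bcce5f27a4cc5af4d80b6dc3036ecedab299cc963f1b7cbde830b91b663b47 (k8 c3986 c3984 c4026 c3988 c4019 c4006 c4022 c4023 (k8 c3983 c3985 c3989 c4001 c3991 c4025 c4002 c4027 (k8 c4029 c4011 c4009 c4028 c3998 c4008 c3996 c3992 (k8 c3990 c3995 c3997 c4000 c70 c1235 c697 c3142 (k8 c3143 c3015 c2473 c2681 c2071 c1218 c44 c527 (k8 c4160 c1050 c1011 c2081 c220 c216 c958 c2070 (k8 c487 c1801 c2592 c4190 c1172 c4232 c2623 c4230 (k8 c905 c698 c2630 c2683 c2663 c2682 c744 c482 (k8 c4231 c1903 c965 c4245 c468 c1549 c1583 c2086 (k8 c1266 c1268 c1270 c272 c1133 c1099 c1930 c4248 (k2 c2022 c4247 (k1 c4246 k0)))))))))))) (by decide +kernel)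
def c4250 : PP 8 4 T 0x4000000000400000008002000020000044000000100000000 := rS 0xa63d608ed8aaf88a49646616c4d12d10f000063328bc0821b02874d2450302416178cab5310190c0dbb3b6aca673258fc6def4185c8db33193cbe3afb (k8 c4024 c3984 c3995 c3990 c3996 c4026 c3988 c4019 (k8 c4006 c4022 c3983 c3985 c3989 c4001 c3991 c4025 (k8 c4002 c4027 c4029 c3987 c4028 c697 c2050 c1011 (k8 c2473 c2681 c3142 c2071 c1218 c44 c3015 c527 (k8 c4160 c1050 c2081 c1803 c216 c958 c2070 c487 (k8 c221 c2663 c744 c392 c4249 c656 c657 c736 (k4 c985 c1251 c3105 c1661 (k2 c1655 c4179 (k1 c2115 k0))))))))) (by decide +kernel)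
def c4251 : PP 8 4 T 0x800840000200000410000055500040000000004400080000 := rS 0x6348fc2550c3592a8462c5469f88416371da3cbdff4d6cb6e66e980cd5cf3195c9e06ed (k8 c4017 c4029 c3990 c3993 c3996 c4014 c3999 c4028 (k8 c4015 c3997 c4009 c4026 c3998 c4007 c3995 c3986 (k8 c3984 c3983 c474 c2087 c1541 c740 c1243 c1133 (k8 c1134 c634 c1268 c980 c1503 c2118 c2076 c514 (k1 c1256 k0))))) (by decide +kernel)
def c4252 : PP 8 4 T 0x4000000000000000001080504000000000000000000000000054150050000000000000 := rS 0x173155d2d47343a7cfdbeeb70bb68307 (k8 c4013 c4006 c4017 c4011 c4016 c4010 c4005 c4004 (k4 c1277 c411 c1431 c2114 (k2 c1276 c1477 (k1 c2101 k0)))) (by decide +kernel)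
def c4253 : PP 8 4 T 0x1080104840000200000400110055500444158000004080180000 := rS 0x649fd42b4470d97e3511934fa3b8ba8d3f1082d35d3019ab9e632b93c0ddadd (k8 c4027 c4017 c4029 c3990 c3993 c3996 c4014 c3999 (k8 c4028 c4015 c3998 c474 c2087 c1541 c740 c1000 (k8 c21 c1352 c412 c1449 c1452 c4251 c4252 c273 (k4 c403 c851 c1433 c1704 (k1 c2118 k0))))) (by decide +kernel)
def c4254 : PP 8 4 T 0x2000044001000050100055500000000000000000000000 := rS 0x142c9 (k2 c1704 c1707 (k1 c2118 k0)) (by decide +kernel)
def c4255 : PP 8 4 T 0x1000000140504000044200000010000055500054150050004000080000 := rS 0x5d8e51ed250124fedd (k8 c4027 c515 c1718 c2118 c4212 c851 c202 c1931 (k1 c2114 k0)) (by decide +kernel)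
def c4256 : PP 8 4 T 0x1000520000000000000000000000000054150050000000000080 := rS 0x72bb (k2 c1477 c3211 (k1 c2114 k0)) (by decide +kernel)
def c4257 : PP 8 4 T 0x1000001040504800000200000000000055500054150050004000080180 := rS 0x2e94a3986039fa7c64ae5469f884166f27a4cc5af4d80b6e56e99ab9e06ed (k8 c4017 c4029 c4014 c3999 c4015 c3993 c4009 c4028 (k8 c3998 c4008 c3996 c3992 c3990 c4000 c474 c2087 (k8 c1541 c740 c4256 c635 c4255 c1264 c1563 c2086 (k4 c240 c1270 c2114 c1930 k0)))) (by decide +kernel)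
def c4258 : PP 8 4 T 0x1000000001000001040104840000200001400004055500054150050004000080180 := rS 0x1f1f82340a328abe95d265ad779b8df2f7 (k8 c4022 c4023 c4012 c4020 c4008 c3994 c3992 c3993 (k8 c4257 c1285 c1133 c1363 c1297 c2093 c4251 c1264 k0)) (by decide +kernel)
def c4259 : PP 8 4 T 0x44000000040004055500000008020004000010000 := rS 0xa1649f48cb8 (k4 c1181 c1182 c1355 c1583 (k2 c1585 c2118 k0)) (by decide +kernel)
def c4260 : PP 8 4 T 0x4000000000400000008002000020000040000000100000000 := rS 0x92a0649f5f80f699306a7f1bb1d9a5357a7d474a8821cc68b8299cca122aac96e9315b947d0938a24ea9728854be2730a0cbabd42844961e0000c664f78464821b029a48a060585c3a6f04a613a6b70b8ddb077ad36572d73bcddefb93cc66b0174c0dbb3b6aca673258fc6df2f7a0c2e46d997c768f21 (k8 c3987 c3986 c3984 c3995 c4026 c3988 c4019 c4006 (k8 c4022 c4023 c3983 c3985 c3989 c4001 c3991 c4025 (k8 c4002 c4027 c4029 c4015 c4028 c3999 c3996 c3990 (k8 c4024 c4018 c4020 c4014 c3994 c3993 c3998 c4021 (k8 c4013 c4017 c4012 c4011 c70 c1235 c697 c3142 (k8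 c3143 c3015 c2473 c2681 c2071 c1218 c44 c527 (k8 c4160 c1050 c1011 c2081 c220 c216 c958 c2070 (k8 c487 c1801 c2592 c4190 c1172 c4232 c2623 c4230 (k8 c870 c698 c2630 c1803 c3210 c2683 c2663 c2682 (k8 c482 c4250 c210 c289 c3131 c3171 c1177 c248 (k8 c1178 c491 c657 c474 c723 c755 c1564 c2087 (k8 c2094 c740 c1541 c1555 c1824 c1829 c4253 c402 (k8 c515 c4259 c4258 c205 c245 c4248 c1563 c468 (k2 c2118 c1718 (k1 c4212 k0))))))))))))))) (by decide +kernel)
def c4261 : PP 8 4 T 0x1000000001000000040000000044000081400000055500020000000004000090000 := rS 0x92a0649f5f881699fdc2e3 (k8 c4012 c4011 c724 c205 c1895 c4248 c1773 c468 (k2 c2118 c1718 (k1 c4212 k0))) (by decide +kernel)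
def c4262 : PP 8 4 T 0x1000000148104000444200000050000055500054150050004000080000 := rS 0x33940be (k4 c4255 c2118 c1216 c1795 k0) (by decide +kernel)
def c4263 : PP 8 4 T 0x1000000048104800400201000450100055500054150050004000080080 := rS 0x395fae19ec85dad5469f884169ae980cd5cf3195c9e06ed (k8 c4017 c4029 c3990 c3993 c3996 c4014 c3999 c4028 (k8 c4015 c3998 c474 c2087 c1541 c740 c4254 c2061 (k4 c4262 c1793 c635 c1216 (k2 c3211 c2114 k0)))) (by decide +kernel)
def c4264 : PP 8 4 T 0x1000000000000000048104800400201091400104055500044158000004000010180 := rS 0xbf66ae4f84d1b8d424e53fa8d3f1082b769ae980cd5cf3195c9e06ed (k8 c4017 c4029 c3990 c3993 c3996 c4014 c3999 c4028 (k8 c4015 c3998 c4027 c474 c2087 c1541 c740 c724 (k8 c210 c1178 c4259 c402 c4261 c4263 c1355 c1358 (k2 c1215 c4257 k0)))) (by decide +kernel)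
def c4265 : PP 8 4 T 0x40000000044000080020004001520000400000154100010080 := rS 0x69088730c06925fb1d93d2662d7a6c05b72b (k8 c3993 c4009 c4028 c3998 c4008 c3996 c3992 c3990 (k8 c3984 c1264 c3710 c1291 c2086 c1138 c4200 c4201 (k1 c1257 k0))) (by decide +kernel)
def c4266 : PP 8 4 T 0x20000000000000000000140000000200000000000000000054150100000080000000 := rS 0xd57e3746896672f (k8 c3995 c3997 c1266 c1268 c272 c1133 c1099 c2114 k0) (by decide +kernel)
def c4267 : PP 8 4 T 0x8144000444200000050000055500054150100010080000000 := rS 0x6a375f88d1ecf50325f90d70c9e93316bd3602db (k8 c4009 c4028 c3998 c4008 c3996 c3992 c3990 c4011 (k8 c4266 c2086 c468 c2118 c1795 c851 c770 c1216 (k2 c273 c1100 (k1 c2114 k0)))) (by decide +kernel)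
def c4268 : PP 8 4 T 0x4000000000000000000000005800000000000050000055500000004200000000000000 := rS 0x1414264ae62aa34fc420adba7cfdbeeb70bb5bb4d74c066ae798cae4f03 (k8 c4029 c3990 c3993 c3996 c4014 c3999 c4028 c4015 (k8 c3998 c4027 c4017 c4011 c4016 c4010 c4005 c4004 (k8 c4009 c474 c2087 c1541 c740 c990 c1201 c635 (k2 c2101 c2118 (k1 c1550 k0))))) (by decide +kernel)
def c4269 : PP 8 4 T 0x4001000000000000000048104800400201091400104015520044150400144180010180 := rS 0x11c3540c97e095a64c1caed6a7d238a5c83f3f8f5469f88414cf1da3cbdff4d6cb6dc2e38fc8673079fb75d6e980cd5cf3195c9e06ed (k8 c4017 c4029 c3990 c3993 c3996 c4014 c3999 c4028 (k8 c4015 c4016 c4027 c4005 c4013 c4001 c3987 c3985 (k8 c4012 c4011 c4009 c4026 c3998 c4007 c3995 c3986 (k8 c3984 c2703 c474 c2087 c1541 c740 c274 c724 (k8 c4264 c2080 c1528 c1530 c4265 c4254 c2061 c4268 (k8 c4267 c205 c285 c4248 c468 c2118 c732 c770 (k1 c2076 k0))))))) (by decide +kernel)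
def c4270 : PP 8 4 T 0x8002000040000000000000000000000 := rS 0x5d8dd7eb51f0d49acf3e8e5cac64fa8c7b10158b4c6673f9960acb5ba4c768a5945d845d139857aa72f84496850a8843c000193c66f02086c8645028183a6f04a5d227505a2506174ea60b0574d9acd27784c663f219cc1e7edd75bb69b2795cc5cf3580ba607478dc764b2f6ab65f32385d05ef299dcce7b0f (k8 c4030 c4003 c3997 c4002 c3991 c4022 c4006 c4019 (k8 c3988 c4023 c4026 c4025 c3995 c3989 c3984 c3983 (k8 c3986 c4029 c4015 c4028 c3999 c4014 c3996 c3993 (k8 c3990 c3998 c4017 c4016 c4027 c4005 c4013 c4001 (k8 c3987 c3985 c1011 c482 c48 c44 c70 c864 (k8 c961 c2085 c697 c1235 c2473 c2623 c2663 c2681 (k8 c2683 c3169 c3210 c3142 c3143 c3015 c2071 c527 (k8 c1218 c4159 c4160 c1050 c2081 c216 c220 c958 (k8 c2070 c487 c830 c2630 c4190 c1801 c2592 c698 (k8 c905 c1172 c4230 c870 c4232 c4260 c1007 c1211 (k8 c1212 c3034 c3138 c3177 c2028 c474 c553 c724 (k8 c2703 c1769 c393 c4191 c2087 c274 c740 c1541 (k8 c4269 c212 c411 c1352 c1519 c413 c1452 c2080 (k4 c4254 c1216 c403 c2061 (k1 c2114 k0)))))))))))))))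 (by decide +kernel)
def c4271 : PP 8 4 T 0x4000000000000000000088141000000000000000000000000054151500000000000000 := rS 0x6ebf1f0d59ee58fc8673079fb75d6ed (k8 c4017 c4016 c4027 c4005 c4013 c4001 c3987 c3985 (k4 c212 c1519 c1452 c2080 (k2 c1216 c403 (k1 c2114 k0)))) (by decide +kernel)
def c4272 : PP 8 4 T 0x1100000001400001501500000000020400080000000 := rS 0x201f8a786889192d93d2662d7a6c05b733 (k8 c3997 c4009 c4028 c3998 c4008 c3996 c3992 c3990 (k8 c3994 c1099 c1100 c1268 c772 c2086 c2119 c1265 k0)) (by decide +kernel)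
def c4273 : PP 8 4 T 0x1100000001400001501500020000001404000010000 := rS 0x470d5309502d38ed1e5effa6b65b6e3 (k8 c4012 c4009 c4026 c3998 c4007 c3995 c3986 c3984 (k4 c205 c1895 c284 c2119 (k2 c733 c772 (k1 c2076 k0)))) (by decide +kernel)
def c4274 : PP 8 4 T 0x1100000001008001501500004100200000000000080 := rS 0xa686205fa83062c17ee393d2662d7a6c05b703 (k8 c4029 c4009 c4028 c3998 c4008 c3996 c3992 c3990 (k8 c4012 c1240 c1137 c1138 c643 c466 c1293 c2086 (k2 c2119 c733 k0))) (by decide +kernel)
def c4275 : PP 8 4 T 0x80000000000000000000000000000000000000000000000020000 := rS 0xd5 (k2 c4025 c198 k0) (by decide +kernel)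
def c4276 : PP 8 4 T 0x80000000000000000000000000000000000000000000000020000 := rS 0xd7 (k2 c4008 c199 k0) (by decide +kernel)
def c4277 : PP 8 4 T 0x80000000000000000000000000000000000000000008000000000 := rS 0xd9 (k2 c4026 c200 k0) (by decide +kernel)
def c4278 : PP 8 4 T 0x80000000000000000000000000000000000000000008000000000 := rS 0xdb (k2 c4009 c201 k0) (by decide +kernel)
def c4279 : PP 8 4 T 0x80000000000000000000000000000000000000200000000000000 := rS 0xdd (k2 c4027 c202 k0) (by decide +kernel)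
def c4280 : PP 8 4 T 0x80000000000000000000000000000000000000200000000000000 := rS 0xdf (k2 c4010 c203 k0) (by decide +kernel)
def c4281 : PP 8 4 T 0x80000000000000000000000000000000002000000000000000000 := rS 0xe1 (k2 c4011 c204 k0) (by decide +kernel)
def c4282 : PP 8 4 T 0x80000000000000000000000000000000020000000000000000000 := rS 0xe3 (k2 c4012 c205 k0) (by decide +kernel)
def c4283 : PP 8 4 T 0x2000000000000000000000000000000000000000000000000000200000 := rS 0xd5 (k2 c4025 c206 k0) (by decide +kernel)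
def c4284 : PP 8 4 T 0x2000000000000000000000000000000000000000000000000000200000 := rS 0xe7 (k2 c4014 c207 k0) (by decide +kernel)
def c4285 : PP 8 4 T 0x2000000000000000000000000000000000000000000000200000000000 := rS 0xd9 (k2 c4026 c208 k0) (by decide +kernel)
def c4286 : PP 8 4 T 0x2000000000000000000000000000000000000000000000200000000000 := rS 0xe9 (k2 c4015 c209 k0) (by decide +kernel)
def c4287 : PP 8 4 T 0x2000000000000000000000000000000000000000008000000000000000 := rS 0xdd (k2 c4027 c210 k0) (by decide +kernel)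
def c4288 : PP 8 4 T 0x2000000000000000000000000000000000000000008000000000000000 := rS 0xeb (k2 c4016 c211 k0) (by decide +kernel)
def c4289 : PP 8 4 T 0x2000000080000000000000000000000000000000000000000000000000 := rS 0xed (k2 c4017 c212 k0) (by decide +kernel)
def c4290 : PP 8 4 T 0x2000000000000000000000000000000000000800000000000000000000 := rS 0xef (k2 c4018 c213 k0) (by decide +kernel)
def c4291 : PP 8 4 T 0x2000000000000000000000000000000000000000000000000000008000000 := rS 0xd5 (k2 c4025 c214 k0) (by decide +kernel)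
def c4292 : PP 8 4 T 0x2000000000000000000000000000000000000000000000000000008000000 := rS 0xf3 (k2 c4020 c215 k0) (by decide +kernel)
def c4293 : PP 8 4 T 0x2000000000000000000000000000000000000000000000008000000000000 := rS 0xd9 (k2 c4026 c216 k0) (by decide +kernel)
def c4294 : PP 8 4 T 0x2000000000000000000000000000000000000000000000008000000000000 := rS 0xf5 (k2 c4021 c217 k0) (by decide +kernel)
def c4295 : PP 8 4 T 0x2000000000000000000000000000000000000000000200000000000000000 := rS 0xdd (k2 c4027 c218 k0) (by decide +kernel)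
def c4296 : PP 8 4 T 0x2000000000000000000000000000000000000000000200000000000000000 := rS 0xf7 (k2 c4022 c219 k0) (by decide +kernel)
def c4297 : PP 8 4 T 0x2000000000000000000000000000000000000000080000000000000000000 := rS 0xf9 (k2 c4023 c220 k0) (by decide +kernel)
def c4298 : PP 8 4 T 0x2000000020000000000000000000000000000000000000000000000000000 := rS 0xfb (k2 c4024 c221 k0) (by decide +kernel)
def c4299 : PP 8 4 T 0x2000000000000000000000000000000000000000000000000000000000020000 := rS 0xd5 (k2 c4025 c462 k0) (by decide +kernel)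
def c4300 : PP 8 4 T 0x2000000000000000000000000000000000000000000000000000000000020000 := rS 0xff (k2 c4007 c463 k0) (by decide +kernel)
def c4301 : PP 8 4 T 0x2000000000000000000000000000000000000002000000000000000000000000 := rS 0x101 (k2 c4028 c464 k0) (by decide +kernel)
def c4302 : PP 8 4 T 0x2000000000000000000000000000000000000002000000000000000000000000 := rS 0xdb (k2 c4009 c465 k0) (by decide +kernel)
def c4303 : PP 8 4 T 0x2000000000000000000200000000000000000000000000000000000000000000 := rS 0x103 (k2 c4029 c466 k0) (by decide +kernel)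
def c4304 : PP 8 4 T 0x2000000000000000000200000000000000000000000000000000000000000000 := rS 0xdf (k2 c4010 c467 k0) (by decide +kernel)
def c4305 : PP 8 4 T 0x2000000000000200000000000000000000000000000000000000000000000000 := rS 0xe1 (k2 c4011 c468 k0) (by decide +kernel)
def c4306 : PP 8 4 T 0x2000000000000000000000000000000800000000000000000000000000000000 := rS 0xe3 (k2 c4012 c469 k0) (by decide +kernel)
def c4307 : PP 8 4 T 0x200000000000000000000000000000000000000000000000000000000000200000 := rS 0xd5 (k2 c4025 c470 k0) (by decide +kernel)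
def c4308 : PP 8 4 T 0x200000000000000000000000000000000000000000000000000000000000200000 := rS 0x107 (k2 c4013 c471 k0) (by decide +kernel)
def c4309 : PP 8 4 T 0x200000000000000000000000000000000000000080000000000000000000000000 := rS 0x101 (k2 c4028 c472 k0) (by decide +kernel)
def c4310 : PP 8 4 T 0x200000000000000000000000000000000000000080000000000000000000000000 := rS 0xe9 (k2 c4015 c473 k0) (by decide +kernel)
def c4311 : PP 8 4 T 0x200000000000000000000800000000000000000000000000000000000000000000 := rS 0x103 (k2 c4029 c474 k0) (by decide +kernel)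
def c4312 : PP 8 4 T 0x200000000000000000000800000000000000000000000000000000000000000000 := rS 0xeb (k2 c4016 c475 k0) (by decide +kernel)
def c4313 : PP 8 4 T 0x200000000000000000000000000000000080000000000000000000000000000000 := rS 0xed (k2 c4017 c476 k0) (by decide +kernel)
def c4314 : PP 8 4 T 0x200000000000000000000000000000020000000000000000000000000000000000 := rS 0xef (k2 c4018 c477 k0) (by decide +kernel)
def c4315 : PP 8 4 T 0x2000000000000000000000000000000000000000000000000000000000008000000 := rS 0xd5 (k2 c4025 c478 k0) (by decide +kernel)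
def c4316 : PP 8 4 T 0x2000000000000000000000000000000000000000000000000000000000008000000 := rS 0x10b (k2 c4019 c479 k0) (by decide +kernel)
def c4317 : PP 8 4 T 0x2000000000000000000000000000000000000002000000000000000000000000000 := rS 0x101 (k2 c4028 c480 k0) (by decide +kernel)
def c4318 : PP 8 4 T 0x2000000000000000000000000000000000000002000000000000000000000000000 := rS 0xf5 (k2 c4021 c481 k0) (by decide +kernel)
def c4319 : PP 8 4 T 0x2000000000000000000000000000000000008000000000000000000000000000000 := rS 0x103 (k2 c4029 c482 k0) (by decide +kernel)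
def c4320 : PP 8 4 T 0x2000000000000000000000000000000000008000000000000000000000000000000 := rS 0xf7 (k2 c4022 c483 k0) (by decide +kernel)
def c4321 : PP 8 4 T 0x2000000000000000000000000000000002000000000000000000000000000000000 := rS 0xf9 (k2 c4023 c484 k0) (by decide +kernel)
def c4322 : PP 8 4 T 0x2000000000000000000000000000000080000000000000000000000000000000000 := rS 0xfb (k2 c4024 c485 k0) (by decide +kernel)
def c4323 : PP 8 4 T 0x20000000000000000000000000000000000000000000000000000000008000000000 := rS 0xd9 (k2 c4026 c726 k0) (by decide +kernel)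
def c4324 : PP 8 4 T 0x20000000000000000000000000000000000000000000000000000000008000000000 := rS 0xff (k2 c4007 c727 k0) (by decide +kernel)
def c4325 : PP 8 4 T 0x20000000000000000000000000000000000000000002000000000000000000000000 := rS 0x101 (k2 c4028 c728 k0) (by decide +kernel)
def c4326 : PP 8 4 T 0x20000000000000000000000000000000000000000002000000000000000000000000 := rS 0xd7 (k2 c4008 c729 k0) (by decide +kernel)
def c4327 : PP 8 4 T 0x20000000000000000000000000000002000000000000000000000000000000000000 := rS 0x10f (k2 c4030 c730 k0) (by decide +kernel)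
def c4328 : PP 8 4 T 0x20000000000000000000000000000002000000000000000000000000000000000000 := rS 0xdf (k2 c4010 c731 k0) (by decide +kernel)
def c4329 : PP 8 4 T 0x20000000000000000000000000020000000000000000000000000000000000000000 := rS 0xe1 (k2 c4011 c732 k0) (by decide +kernel)
def c4330 : PP 8 4 T 0x20000000000000000000000000800000000000000000000000000000000000000000 := rS 0xe3 (k2 c4012 c733 k0) (by decide +kernel)
def c4331 : PP 8 4 T 0x200000000000000000000000000000000000000000000000000000000200000000000 := rS 0xd9 (k2 c4026 c734 k0) (by decide +kernel)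
def c4332 : PP 8 4 T 0x200000000000000000000000000000000000000000000000000000000200000000000 := rS 0x107 (k2 c4013 c735 k0) (by decide +kernel)
def c4333 : PP 8 4 T 0x200000000000000000000000000000000000000000080000000000000000000000000 := rS 0x101 (k2 c4028 c736 k0) (by decide +kernel)
def c4334 : PP 8 4 T 0x200000000000000000000000000000000000000000080000000000000000000000000 := rS 0xe7 (k2 c4014 c737 k0) (by decide +kernel)
def c4335 : PP 8 4 T 0x200000000000000000000000000000080000000000000000000000000000000000000 := rS 0x10f (k2 c4030 c738 k0) (by decide +kernel)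
def c4336 : PP 8 4 T 0x200000000000000000000000000000080000000000000000000000000000000000000 := rS 0xeb (k2 c4016 c739 k0) (by decide +kernel)
def c4337 : PP 8 4 T 0x200000000000000000000000000080000000000000000000000000000000000000000 := rS 0xed (k2 c4017 c740 k0) (by decide +kernel)
def c4338 : PP 8 4 T 0x200000000000000000000000020000000000000000000000000000000000000000000 := rS 0xef (k2 c4018 c741 k0) (by decide +kernel)
def c4339 : PP 8 4 T 0x800000000000000000000000000000000000000000000000000000008000000000000 := rS 0xd9 (k2 c4026 c742 k0) (by decide +kernel)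
def c4340 : PP 8 4 T 0x800000000000000000000000000000000000000000000000000000008000000000000 := rS 0x10b (k2 c4019 c743 k0) (by decide +kernel)
def c4341 : PP 8 4 T 0x800000000000000000000000000000000000000002000000000000000000000000000 := rS 0x101 (k2 c4028 c744 k0) (by decide +kernel)
def c4342 : PP 8 4 T 0x800000000000000000000000000000000000000002000000000000000000000000000 := rS 0xf3 (k2 c4020 c745 k0) (by decide +kernel)
def c4343 : PP 8 4 T 0x800000000000000000000000000002000000000000000000000000000000000000000 := rS 0x10f (k2 c4030 c746 k0) (by decide +kernel)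
def c4344 : PP 8 4 T 0x800000000000000000000000000002000000000000000000000000000000000000000 := rS 0xf7 (k2 c4022 c747 k0) (by decide +kernel)
def c4345 : PP 8 4 T 0x800000000000000000000000002000000000000000000000000000000000000000000 := rS 0xf9 (k2 c4023 c748 k0) (by decide +kernel)
def c4346 : PP 8 4 T 0x800000000000000000000000080000000000000000000000000000000000000000000 := rS 0xfb (k2 c4024 c749 k0) (by decide +kernel)
def c4347 : PP 8 4 T 0x2000000000000000000000000000000000000000000000000000000200000000000000 := rS 0xdd (k2 c4027 c990 k0) (by decide +kernel)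
def c4348 : PP 8 4 T 0x2000000000000000000000000000000000000000000000000000000200000000000000 := rS 0xff (k2 c4007 c991 k0) (by decide +kernel)
def c4349 : PP 8 4 T 0x2000000000000000000000000200000000000000000000000000000000000000000000 := rS 0x103 (k2 c4029 c992 k0) (by decide +kernel)
def c4350 : PP 8 4 T 0x2000000000000000000000000200000000000000000000000000000000000000000000 := rS 0xd7 (k2 c4008 c993 k0) (by decide +kernel)
def c4351 : PP 8 4 T 0x2000000000000000000000000000000002000000000000000000000000000000000000 := rS 0x10f (k2 c4030 c994 k0) (by decide +kernel)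
def c4352 : PP 8 4 T 0x2000000000000000000000000000000002000000000000000000000000000000000000 := rS 0xdb (k2 c4009 c995 k0) (by decide +kernel)
def c4353 : PP 8 4 T 0x2000000000000000000000008000000000000000000000000000000000000000000000 := rS 0xe1 (k2 c4011 c997 k0) (by decide +kernel)
def c4354 : PP 8 4 T 0x2000000000000000000000200000000000000000000000000000000000000000000000 := rS 0xe3 (k2 c4012 c999 k0) (by decide +kernel)
def c4355 : PP 8 4 T 0x8000000000000000000000000000000000000000000000000000008000000000000000 := rS 0xdd (k2 c4027 c1000 k0) (by decide +kernel)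
def c4356 : PP 8 4 T 0x8000000000000000000000000000000000000000000000000000008000000000000000 := rS 0x107 (k2 c4013 c1001 k0) (by decide +kernel)
def c4357 : PP 8 4 T 0x8000000000000000000000000800000000000000000000000000000000000000000000 := rS 0x103 (k2 c4029 c1002 k0) (by decide +kernel)
def c4358 : PP 8 4 T 0x8000000000000000000000000800000000000000000000000000000000000000000000 := rS 0xe7 (k2 c4014 c1003 k0) (by decide +kernel)
def c4359 : PP 8 4 T 0x8000000000000000000000000000000080000000000000000000000000000000000000 := rS 0x10f (k2 c4030 c1004 k0) (by decide +kernel)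
def c4360 : PP 8 4 T 0x8000000000000000000000000000000080000000000000000000000000000000000000 := rS 0xe9 (k2 c4015 c1005 k0) (by decide +kernel)
def c4361 : PP 8 4 T 0x8000000000000000000000020000000000000000000000000000000000000000000000 := rS 0xed (k2 c4017 c1006 k0) (by decide +kernel)
def c4362 : PP 8 4 T 0x8000000000000000000008000000000000000000000000000000000000000000000000 := rS 0xef (k2 c4018 c1008 k0) (by decide +kernel)
def c4363 : PP 8 4 T 0x20000000000000000000000000000000000000000000000000000200000000000000000 := rS 0xdd (k2 c4027 c1009 k0) (by decide +kernel)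
def c4364 : PP 8 4 T 0x20000000000000000000000000000000000000000000000000000200000000000000000 := rS 0x10b (k2 c4019 c1010 k0) (by decide +kernel)
def c4365 : PP 8 4 T 0x20000000000000000000000000000000000000008000000000000000000000000000000 := rS 0x103 (k2 c4029 c1011 k0) (by decide +kernel)
def c4366 : PP 8 4 T 0x20000000000000000000000000000000000000008000000000000000000000000000000 := rS 0xf3 (k2 c4020 c1012 k0) (by decide +kernel)
def c4367 : PP 8 4 T 0x20000000000000000000000000000002000000000000000000000000000000000000000 := rS 0x10f (k2 c4030 c1013 k0) (by decide +kernel)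
def c4368 : PP 8 4 T 0x20000000000000000000000000000002000000000000000000000000000000000000000 := rS 0xf5 (k2 c4021 c1014 k0) (by decide +kernel)
def c4369 : PP 8 4 T 0x20000000000000000000000800000000000000000000000000000000000000000000000 := rS 0xf9 (k2 c4023 c1015 k0) (by decide +kernel)
def c4370 : PP 8 4 T 0x20000000000000000000020000000000000000000000000000000000000000000000000 := rS 0xfb (k2 c4024 c1016 k0) (by decide +kernel)
def c4371 : PP 8 4 T 0x80000000000000000000000000000000000000000000000002000 := rS 0x11b (k2 c3983 c1256 k0) (by decide +kernel)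
def c4372 : PP 8 4 T 0x80000000000000000000000000000000000000000000800000000 := rS 0x11d (k2 c3984 c1257 k0) (by decide +kernel)
def c4373 : PP 8 4 T 0x80000000000000000000000000000000000000020000000000000 := rS 0x11f (k2 c3985 c1258 k0) (by decide +kernel)
def c4374 : PP 8 4 T 0x80000000000000000000000000000000000800000000000000000 := rS 0x121 (k2 c3987 c1259 k0) (by decide +kernel)
def c4375 : PP 8 4 T 0x80000000000000000000000000000000008000000000000000000 := rS 0x123 (k2 c3988 c1260 k0) (by decide +kernel)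
def c4376 : PP 8 4 T 0x2000000000000000000000000000000000000000000000000000000000008000 := rS 0x125 (k2 c3989 c1261 k0) (by decide +kernel)
def c4377 : PP 8 4 T 0x2000000000000000000000000000000000000000200000000000000000000000 := rS 0x127 (k2 c3990 c1262 k0) (by decide +kernel)
def c4378 : PP 8 4 T 0x2000000000000000000000000000000000008000000000000000000000000000 := rS 0x129 (k2 c3991 c1263 k0) (by decide +kernel)
def c4379 : PP 8 4 T 0x2000000000000000000000000000000020000000000000000000000000000000 := rS 0x12b (k2 c3993 c1264 k0) (by decide +kernel)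
def c4380 : PP 8 4 T 0x2000000000000000000000000000000200000000000000000000000000000000 := rS 0x12d (k2 c3994 c1265 k0) (by decide +kernel)
def c4381 : PP 8 4 T 0x20000000000000000000000000000000000000000000000000000000002000000000 := rS 0x12f (k2 c3995 c1266 k0) (by decide +kernel)
def c4382 : PP 8 4 T 0x20000000000000000000000000000000000000000000800000000000000000000000 := rS 0x131 (k2 c3996 c1267 k0) (by decide +kernel)
def c4383 : PP 8 4 T 0x20000000000000000000000000000000200000000000000000000000000000000000 := rS 0x133 (k2 c3997 c1268 k0) (by decide +kernel)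
def c4384 : PP 8 4 T 0x20000000000000000000000000008000000000000000000000000000000000000000 := rS 0x135 (k2 c3999 c1269 k0) (by decide +kernel)
def c4385 : PP 8 4 T 0x20000000000000000000000000200000000000000000000000000000000000000000 := rS 0x137 (k2 c4000 c1270 k0) (by decide +kernel)
def c4386 : PP 8 4 T 0x2000000000000000000000000000000000000000000000000000000080000000000000 := rS 0x139 (k2 c4001 c1272 k0) (by decide +kernel)
def c4387 : PP 8 4 T 0x2000000000000000000000000000000000000000020000000000000000000000000000 := rS 0x13b (k2 c4002 c1273 k0) (by decide +kernel)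
def c4388 : PP 8 4 T 0x2000000000000000000000000000000000800000000000000000000000000000000000 := rS 0x13d (k2 c4003 c1274 k0) (by decide +kernel)
def c4389 : PP 8 4 T 0x2000000000000000000000002000000000000000000000000000000000000000000000 := rS 0x13f (k2 c4005 c1275 k0) (by decide +kernel)
def c4390 : PP 8 4 T 0x2000000000000000000000080000000000000000000000000000000000000000000000 := rS 0x141 (k2 c4006 c1276 k0) (by decide +kernel)
def c4391 : PP 8 4 T 0x800000000000000000000000000000080000000000000000000000000000000000000000000000000 := rS 0x107 (k2 c4013 c1277 k0) (by decide +kernel)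
def c4392 : PP 8 4 T 0x800000000000000000000000000000000000000000000000080000000000000000000000000000000 := rS 0xe7 (k2 c4014 c1278 k0) (by decide +kernel)
def c4393 : PP 8 4 T 0x800000000000000000000000000000000000000080000000000000000000000000000000000000000 := rS 0xe9 (k2 c4015 c1279 k0) (by decide +kernel)
def c4394 : PP 8 4 T 0x800000000000000000000000000000000020000000000000000000000000000000000000000000000 := rS 0xeb (k2 c4016 c1280 k0) (by decide +kernel)
def c4395 : PP 8 4 T 0x800000000000000000000000000002000000000000000000000000000000000000000000000000000 := rS 0xef (k2 c4018 c1281 k0) (by decide +kernel)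
def c4396 : PP 8 4 T 0x2000000000000000000000000000000000000000000000000000000000000080000000000000000000 := rS 0x10b (k2 c4019 c1282 k0) (by decide +kernel)
def c4397 : PP 8 4 T 0x2000000000000000000000000000000000000000000000002000000000000000000000000000000000 := rS 0xf3 (k2 c4020 c1283 k0) (by decide +kernel)
def c4398 : PP 8 4 T 0x2000000000000000000000000000000000000002000000000000000000000000000000000000000000 := rS 0xf5 (k2 c4021 c1284 k0) (by decide +kernel)
def c4399 : PP 8 4 T 0x2000000000000000000000000000000000800000000000000000000000000000000000000000000000 := rS 0xf7 (k2 c4022 c1285 k0) (by decide +kernel)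
def c4400 : PP 8 4 T 0x2000000000000000000000000000008000000000000000000000000000000000000000000000000000 := rS 0xfb (k2 c4024 c1286 k0) (by decide +kernel)
def c4401 : PP 8 4 T 0x2000000000000000000000000000000000000000000000000000080000 := rS 0x11b (k2 c3983 c1527 k0) (by decide +kernel)
def c4402 : PP 8 4 T 0x2000000000000000000000000000000000000000000000020000000000 := rS 0x11d (k2 c3984 c1528 k0) (by decide +kernel)
def c4403 : PP 8 4 T 0x2000000000000000000000000000000000000000000800000000000000 := rS 0x11f (k2 c3985 c1529 k0) (by decide +kernel)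
def c4404 : PP 8 4 T 0x2000000000000000000000000000000000000000800000000000000000 := rS 0x147 (k2 c3986 c1530 k0) (by decide +kernel)
def c4405 : PP 8 4 T 0x2000000000000000000000000000000000000200000000000000000000 := rS 0x123 (k2 c3988 c1531 k0) (by decide +kernel)
def c4406 : PP 8 4 T 0x200000000000000000000000000000000000000000002000000000000000000000 := rS 0x125 (k2 c3989 c1532 k0) (by decide +kernel)
def c4407 : PP 8 4 T 0x200000000000000000000000000000000000000008000000000000000000000000 := rS 0x127 (k2 c3990 c1533 k0) (by decide +kernel)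
def c4408 : PP 8 4 T 0x200000000000000000000000000000000000080000000000000000000000000000 := rS 0x129 (k2 c3991 c1534 k0) (by decide +kernel)
def c4409 : PP 8 4 T 0x200000000000000000000000000000000020000000000000000000000000000000 := rS 0x149 (k2 c3992 c1535 k0) (by decide +kernel)
def c4410 : PP 8 4 T 0x200000000000000000000000000000008000000000000000000000000000000000 := rS 0x12d (k2 c3994 c1537 k0) (by decide +kernel)
def c4411 : PP 8 4 T 0x200000000000000000000000000000000000000000000000000000000080000000000 := rS 0x12f (k2 c3995 c1538 k0) (by decide +kernel)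
def c4412 : PP 8 4 T 0x200000000000000000000000000000000000000000020000000000000000000000000 := rS 0x131 (k2 c3996 c1539 k0) (by decide +kernel)
def c4413 : PP 8 4 T 0x200000000000000000000000000000008000000000000000000000000000000000000 := rS 0x133 (k2 c3997 c1540 k0) (by decide +kernel)
def c4414 : PP 8 4 T 0x200000000000000000000000000008000000000000000000000000000000000000000 := rS 0x14d (k2 c3998 c1541 k0) (by decide +kernel)
def c4415 : PP 8 4 T 0x200000000000000000000000008000000000000000000000000000000000000000000 := rS 0x137 (k2 c4000 c1542 k0) (by decide +kernel)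
def c4416 : PP 8 4 T 0x8000000000000000000000000000000000000000000000000000002000000000000000 := rS 0x139 (k2 c4001 c1543 k0) (by decide +kernel)
def c4417 : PP 8 4 T 0x8000000000000000000000000000000000000000200000000000000000000000000000 := rS 0x13b (k2 c4002 c1544 k0) (by decide +kernel)
def c4418 : PP 8 4 T 0x8000000000000000000000000000000020000000000000000000000000000000000000 := rS 0x13d (k2 c4003 c1545 k0) (by decide +kernel)
def c4419 : PP 8 4 T 0x8000000000000000000000002000000000000000000000000000000000000000000000 := rS 0x14f (k2 c4004 c1546 k0) (by decide +kernel)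
def c4420 : PP 8 4 T 0x8000000000000000000002000000000000000000000000000000000000000000000000 := rS 0x141 (k2 c4006 c1547 k0) (by decide +kernel)
def c4421 : PP 8 4 T 0x800000000000000000000000000000000000000000000000000000000000002000000000000000000 := rS 0xff (k2 c4007 c1548 k0) (by decide +kernel)
def c4422 : PP 8 4 T 0x800000000000000000000000000000200000000000000000000000000000000000000000000000000 := rS 0xd7 (k2 c4008 c1549 k0) (by decide +kernel)
def c4423 : PP 8 4 T 0x800000000000000000000000000000000000000020000000000000000000000000000000000000000 := rS 0xdb (k2 c4009 c1550 k0) (by decide +kernel)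
def c4424 : PP 8 4 T 0x800000000000000000000000000000000008000000000000000000000000000000000000000000000 := rS 0xdf (k2 c4010 c1551 k0) (by decide +kernel)
def c4425 : PP 8 4 T 0x800000000000000000000000000000800000000000000000000000000000000000000000000000000 := rS 0xe3 (k2 c4012 c1552 k0) (by decide +kernel)
def c4426 : PP 8 4 T 0x80000000000000000000000000000020000000000000000000000000000000000000000000000000000 := rS 0x10b (k2 c4019 c1553 k0) (by decide +kernel)
def c4427 : PP 8 4 T 0x80000000000000000000000000000000000000000000000080000000000000000000000000000000000 := rS 0xf3 (k2 c4020 c1554 k0) (by decide +kernel)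
def c4428 : PP 8 4 T 0x80000000000000000000000000000000000000080000000000000000000000000000000000000000000 := rS 0xf5 (k2 c4021 c1555 k0) (by decide +kernel)
def c4429 : PP 8 4 T 0x80000000000000000000000000000000020000000000000000000000000000000000000000000000000 := rS 0xf7 (k2 c4022 c1556 k0) (by decide +kernel)
def c4430 : PP 8 4 T 0x80000000000000000000000000000008000000000000000000000000000000000000000000000000000 := rS 0xf9 (k2 c4023 c1557 k0) (by decide +kernel)
def c4431 : PP 8 4 T 0x2000000000000000000000000000000000000000000000000000000800000 := rS 0x11b (k2 c3983 c1798 k0) (by decide +kernel)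
def c4432 : PP 8 4 T 0x2000000000000000000000000000000000000000000000000800000000000 := rS 0x11d (k2 c3984 c1799 k0) (by decide +kernel)
def c4433 : PP 8 4 T 0x2000000000000000000000000000000000000000000020000000000000000 := rS 0x11f (k2 c3985 c1800 k0) (by decide +kernel)
def c4434 : PP 8 4 T 0x2000000000000000000000000000000000000000008000000000000000000 := rS 0x147 (k2 c3986 c1801 k0) (by decide +kernel)
def c4435 : PP 8 4 T 0x2000000000000000000000000000000000000000200000000000000000000 := rS 0x121 (k2 c3987 c1803 k0) (by decide +kernel)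
def c4436 : PP 8 4 T 0x2000000000000000000000000000000000000000000000000000000000002000000 := rS 0x125 (k2 c3989 c1804 k0) (by decide +kernel)
def c4437 : PP 8 4 T 0x2000000000000000000000000000000000000000200000000000000000000000000 := rS 0x127 (k2 c3990 c1805 k0) (by decide +kernel)
def c4438 : PP 8 4 T 0x2000000000000000000000000000000000000800000000000000000000000000000 := rS 0x129 (k2 c3991 c1806 k0) (by decide +kernel)
def c4439 : PP 8 4 T 0x2000000000000000000000000000000000200000000000000000000000000000000 := rS 0x149 (k2 c3992 c1807 k0) (by decide +kernel)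
def c4440 : PP 8 4 T 0x2000000000000000000000000000000008000000000000000000000000000000000 := rS 0x12b (k2 c3993 c1808 k0) (by decide +kernel)
def c4441 : PP 8 4 T 0x800000000000000000000000000000000000000000000000000000002000000000000 := rS 0x12f (k2 c3995 c1809 k0) (by decide +kernel)
def c4442 : PP 8 4 T 0x800000000000000000000000000000000000000000800000000000000000000000000 := rS 0x131 (k2 c3996 c1810 k0) (by decide +kernel)
def c4443 : PP 8 4 T 0x800000000000000000000000000000200000000000000000000000000000000000000 := rS 0x133 (k2 c3997 c1811 k0) (by decide +kernel)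
def c4444 : PP 8 4 T 0x800000000000000000000000000200000000000000000000000000000000000000000 := rS 0x14d (k2 c3998 c1812 k0) (by decide +kernel)
def c4445 : PP 8 4 T 0x800000000000000000000000008000000000000000000000000000000000000000000 := rS 0x135 (k2 c3999 c1813 k0) (by decide +kernel)
def c4446 : PP 8 4 T 0x20000000000000000000000000000000000000000000000000000080000000000000000 := rS 0x139 (k2 c4001 c1814 k0) (by decide +kernel)
def c4447 : PP 8 4 T 0x20000000000000000000000000000000000000002000000000000000000000000000000 := rS 0x13b (k2 c4002 c1815 k0) (by decide +kernel)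
def c4448 : PP 8 4 T 0x20000000000000000000000000000000800000000000000000000000000000000000000 := rS 0x13d (k2 c4003 c1816 k0) (by decide +kernel)
def c4449 : PP 8 4 T 0x20000000000000000000000080000000000000000000000000000000000000000000000 := rS 0x14f (k2 c4004 c1817 k0) (by decide +kernel)
def c4450 : PP 8 4 T 0x20000000000000000000002000000000000000000000000000000000000000000000000 := rS 0x13f (k2 c4005 c1818 k0) (by decide +kernel)
def c4451 : PP 8 4 T 0x2000000000000000000000000000000000000000000000000000000000000020000000000000000000 := rS 0xff (k2 c4007 c1819 k0) (by decide +kernel)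
def c4452 : PP 8 4 T 0x2000000000000000000000000000000000000000000000000800000000000000000000000000000000 := rS 0xd7 (k2 c4008 c1820 k0) (by decide +kernel)
def c4453 : PP 8 4 T 0x2000000000000000000000000000000000000000800000000000000000000000000000000000000000 := rS 0xdb (k2 c4009 c1821 k0) (by decide +kernel)
def c4454 : PP 8 4 T 0x2000000000000000000000000000000000200000000000000000000000000000000000000000000000 := rS 0xdf (k2 c4010 c1822 k0) (by decide +kernel)
def c4455 : PP 8 4 T 0x2000000000000000000000000000000800000000000000000000000000000000000000000000000000 := rS 0xe1 (k2 c4011 c1823 k0) (by decide +kernel)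
def c4456 : PP 8 4 T 0x80000000000000000000000000000000000000000000000000000000000000800000000000000000000 := rS 0x107 (k2 c4013 c1824 k0) (by decide +kernel)
def c4457 : PP 8 4 T 0x80000000000000000000000000000000000000000000000020000000000000000000000000000000000 := rS 0xe7 (k2 c4014 c1825 k0) (by decide +kernel)
def c4458 : PP 8 4 T 0x80000000000000000000000000000000000000020000000000000000000000000000000000000000000 := rS 0xe9 (k2 c4015 c1826 k0) (by decide +kernel)
def c4459 : PP 8 4 T 0x80000000000000000000000000000000008000000000000000000000000000000000000000000000000 := rS 0xeb (k2 c4016 c1828 k0) (by decide +kernel)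
def c4460 : PP 8 4 T 0x80000000000000000000000000000002000000000000000000000000000000000000000000000000000 := rS 0xed (k2 c4017 c1829 k0) (by decide +kernel)
def c4461 : PP 8 4 T 0x15 := rS 0x1016ccc5ab2797c963b1b (k8 c3983 c3984 c3989 c3995 c3990 c4025 c3996 c4026 (k2 c4028 c2070 k0)) (by decide +kernel)
def c4462 : PP 8 4 T 0x540 := rS 0x1036ecedab299cc963f1b (k8 c3983 c3985 c3989 c4001 c3991 c4025 c4002 c4027 (k2 c4029 c2071 k0)) (by decide +kernel)
def c4463 : PP 8 4 T 0x1000000000040000000000000000000000000000000000000000000000015000 := rS 0x35dab497fc968f1b (k8 c3983 c3986 c3989 c4007 c3992 c4025 c4008 c2072 k0) (by decide +kernel)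
def c4464 : PP 8 4 T 0x100000001000000000000000000000000000000000001000000000000000140000 := rS 0x39dab2b83c96431b (k8 c3983 c3987 c3989 c4013 c3993 c4025 c4014 c2073 k0) (by decide +kernel)
def c4465 : PP 8 4 T 0x1000001000000000000000000000000000000000000000000000000000005400000 := rS 0x3cdab2d85c96471b (k8 c3983 c3988 c3989 c4019 c3994 c4025 c4020 c2074 k0) (by decide +kernel)
def c4466 : PP 8 4 T 0x150000000 := rS 0x10f6ecf5b3339ccbe3f1d (k8 c3984 c3985 c3995 c4001 c3997 c4026 c4003 c4027 (k2 c4030 c2075 k0)) (by decide +kernel)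
def c4467 : PP 8 4 T 0x10000000000000040000000000000000000000000000000000000000005400000000 := rS 0x36db34d7fcbe8f1d (k8 c3984 c3986 c3995 c4007 c3998 c4026 c4009 c2076 k0) (by decide +kernel)
def c4468 : PP 8 4 T 0x100000000001000000000000000000000000000000000000000000000150000000000 := rS 0x3a5b33583cbe431d (k8 c3984 c3987 c3995 c4013 c3999 c4026 c4015 c2077 k0) (by decide +kernel)
def c4469 : PP 8 4 T 0x400000001000000000000000000000000000000000000000000000005400000000000 := rS 0x3d5b33785cbe471d (k8 c3984 c3988 c3995 c4019 c4000 c4026 c4021 c2078 k0) (by decide +kernel)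
def c4470 : PP 8 4 T 0x1000000000000000040000000000000000000000000000000000000150000000000000 := rS 0x37dbb4f7fce68f1f (k8 c3985 c3986 c4001 c4007 c4004 c4027 c4010 c2079 k0) (by decide +kernel)
def c4471 : PP 8 4 T 0x4000000000001000000000000000000000000000000000000000005400000000000000 := rS 0x3adbb3f83ce6431f (k8 c3985 c3987 c4001 c4013 c4005 c4027 c4016 c2080 k0) (by decide +kernel)
def c4472 : PP 8 4 T 0x10000000001000000000000000000000000000000000000000000150000000000000000 := rS 0x3ddbb4185ce6471f (k8 c3985 c3988 c4001 c4019 c4006 c4027 c4022 c2081 k0) (by decide +kernel)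
def c4473 : PP 8 4 T 0x400000000000000000000001000040040000000000000000000000000000001400000000000000000 := rS 0x1dae183bfe4347 (k4 c3986 c3987 c4007 c4013 (k2 c4011 c4017 (k1 c2082 k0))) (by decide +kernel)
def c4474 : PP 8 4 T 0x1000000000000000000001000000040000000000000000000000000000000054000000000000000000 := rS 0x1f2e385bfe4747 (k4 c3986 c3988 c4007 c4019 (k2 c4012 c4023 (k1 c2083 k0))) (by decide +kernel)
def c4475 : PP 8 4 T 0x40000000000000000000001001000010000000000000000000000000000000500000000000000000000 := rS 0x1f6ef85c1e4721 (k4 c3987 c3988 c4013 c4019 (k2 c4018 c4024 (k1 c2084 k0))) (by decide +kernel)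
def c4476 : PP 8 4 T 0x54000000000000000000000 := rS 0x10f81cf603339dcc65327 (k8 c3990 c3991 c3996 c4002 c3997 c4028 c4003 c4029 (k2 c4030 c2085 k0)) (by decide +kernel)
def c4477 : PP 8 4 T 0x10001000000000000000000000000000000000000001500000000000000000000000 := rS 0x36e034d6bcc69327 (k8 c3990 c3992 c3996 c4008 c3998 c4028 c4009 c2086 k0) (by decide +kernel)
def c4478 : PP 8 4 T 0x100100000000000000000000000000000000000000054000000000000000000000000 := rS 0x3a6033573cc65727 (k8 c3990 c3993 c3996 c4014 c3999 c4028 c4015 c2087 k0) (by decide +kernel)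
def c4479 : PP 8 4 T 0x401000000000000000000000000000000000000001500000000000000000000000000 := rS 0x3d6033779cc65b27 (k8 c3990 c3994 c3996 c4020 c4000 c4028 c4021 c2088 k0) (by decide +kernel)
def c4480 : PP 8 4 T 0x1000001000000000000000000100000000000000014000000000000000000000000000 := rS 0x37e074f6bcee9329 (k8 c3991 c3992 c4002 c4008 c4004 c4029 c4010 c2089 k0) (by decide +kernel)
def c4481 : PP 8 4 T 0x4000100000000000000000000400000000000000140000000000000000000000000000 := rS 0x3ae073f73cee5729 (k8 c3991 c3993 c4002 c4014 c4005 c4029 c4016 c2090 k0) (by decide +kernel)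
def c4482 : PP 8 4 T 0x10001000000000000000000000000000000000005400000000000000000000000000000 := rS 0x3de074179cee5b29 (k8 c3991 c3994 c4002 c4020 c4006 c4029 c4022 c2091 k0) (by decide +kernel)
def c4483 : PP 8 4 T 0x400000000000000101000000000000100000000000000000050000000000000000000000000000000 := rS 0x1dae173b5e5749 (k4 c3992 c3993 c4008 c4014 (k2 c4011 c4017 (k1 c2092 k0))) (by decide +kernel)
def c4484 : PP 8 4 T 0x1000000000000001001000000000000000000000000000001500000000000000000000000000000000 := rS 0x1f2e379b5e5b49 (k4 c3992 c3994 c4008 c4020 (k2 c4012 c4023 (k1 c2093 k0))) (by decide +kernel)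
def c4485 : PP 8 4 T 0x40000000000000001100000000000000000000000000000054000000000000000000000000000000000 := rS 0x1f6ef79b9e5b2b (k4 c3993 c3994 c4014 c4020 (k2 c4018 c4024 (k1 c2094 k0))) (by decide +kernel)
def c4486 : PP 8 4 T 0x1010000000000000000000000000000001500000000000000000000000000000000000 := rS 0x37e1f4f6dcf69b33 (k8 c3997 c3998 c4003 c4009 c4004 c4030 c4010 c2095 k0) (by decide +kernel)
def c4487 : PP 8 4 T 0x4100000000000000000000000000000054000000000000000000000000000000000000 := rS 0x3ae1f3f74cf66b33 (k8 c3997 c3999 c4003 c4015 c4005 c4030 c4016 c2096 k0) (by decide +kernel)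
def c4488 : PP 8 4 T 0x10400000000000000000000000000001500000000000000000000000000000000000000 := rS 0x3de1f417acf66f33 (k8 c3997 c4000 c4003 c4021 c4006 c4030 c4022 c2097 k0) (by decide +kernel)
def c4489 : PP 8 4 T 0x400000000000110000000000000000000000000054000000000000000000000000000000000000000 := rS 0x1dae174b6e6b4d (k4 c3998 c3999 c4009 c4015 (k2 c4011 c4017 (k1 c2098 k0))) (by decide +kernel)
def c4490 : PP 8 4 T 0x1000000000000410000000000000000000000001500000000000000000000000000000000000000000 := rS 0x1f2e37ab6e6f4d (k4 c3998 c4000 c4009 c4021 (k2 c4012 c4023 (k1 c2099 k0))) (by decide +kernel)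
def c4491 : PP 8 4 T 0x40000000000000500000000000000000000000054000000000000000000000000000000000000000000 := rS 0x1f6ef7aba66f35 (k4 c3999 c4000 c4015 c4021 (k2 c4018 c4024 (k1 c2100 k0))) (by decide +kernel)
def c4492 : PP 8 4 T 0x400000000005000000000000000000000015000000000000000000000000000000000000000000000 := rS 0x1dae175b7e7f4f (k4 c4004 c4005 c4010 c4016 (k2 c4011 c4017 (k1 c2101 k0))) (by decide +kernel)
def c4493 : PP 8 4 T 0x1000000000011000000000000000000000540000000000000000000000000000000000000000000000 := rS 0x1f2e37bb7e834f (k4 c4004 c4006 c4010 c4022 (k2 c4012 c4023 (k1 c2102 k0))) (by decide +kernel)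
def c4494 : PP 8 4 T 0x40000000000014000000000000000000015000000000000000000000000000000000000000000000000 := rS 0x1f6ef7bbae833f (k4 c4005 c4006 c4016 c4022 (k2 c4018 c4024 (k1 c2103 k0))) (by decide +kernel)
def c4495 : PP 8 4 T 0x41400000000000000000000000000005400000000000000000000000000000000000000000000000000 := rS 0x1f6ef7cbb5c6e1 (k4 c4011 c4012 c4017 c4023 (k2 c4018 c4024 (k1 c2104 k0))) (by decide +kernel)
def c4496 : PP 8 4 T 0x500000800001000000000000000054150110000080000000 := rS 0xdd768f (k4 c853 c1979 c273 c2114 k0) (by decide +kernel)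
def c4497 : PP 8 4 T 0x400001100001001008001501500000150001004080010000 := rS 0x8ab4d74221b89618fd4029c9a35418cc9e2f5e8e496f08c818120b (k8 c703 c1224 c4462 c4365 c4472 c4434 c4274 c1172 (k8 c4432 c4297 c4293 c643 c4272 c4273 c4496 c2119 (k8 c4380 c4477 c4381 c272 c2111 c2114 c4372 c4390 (k1 c4470 k0)))) (by decide +kernel)
def c4498 : PP 8 4 T 0xa00000002002000000000000000000000000000000000000000000000100000000000 := rS 0xa4a633688bca2af18aad5a2b (k8 c4411 c4338 c4445 c4441 c4346 c4435 c4432 c4298 (k4 c4293 c4290 c4402 c2112 k0)) (by decide +kernel)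
def c4499 : PP 8 4 T 0x100000000000000000000000000000040000000000040000000008000000000000182 := rS 0xc70532955642b (k4 c289 c1177 c248 c491 (k2 c4311 c755 (k1 c4478 k0))) (by decide +kernel)
def c4500 : PP 8 4 T 0x1000000000000000000000100000800001100000000000000000000000000000000000 := rS 0x11f0d (k2 c4330 c853 (k1 c4486 k0)) (by decide +kernel)
def c4501 : PP 8 4 T 0x1000000000000000000000000000000000000000000000080000000000004404000 := rS 0x32f1 (k2 c4297 c258 (k1 c4465 k0)) (by decide +kernel)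
def c4502 : PP 8 4 T 0x800002000000000000000000000500000000000000100400014000004005404001000 := rS 0x19788b89e1784a101e5d40aa4626b (k8 c4442 c4441 c4345 c4380 c4377 c4376 c4130 c4321 (k4 c522 c4501 c2111 c4432 (k2 c1870 c4465 k0))) (by decide +kernel)
def c4503 : PP 8 4 T 0x200000000000000015000000000000000000000000000400155400000002000000 := rS 0x28b450e55 (k4 c4406 c4410 c260 c1876 (k1 c2115 k0)) (by decide +kernel)
def c4504 : PP 8 4 T 0x8000000000040000000105400800082000002 := rS 0x51688a824648294c521755b1583116198ce6062c16d371820a65e243189a0ae05 (k8 c2 c1066 c1870 c16 c276 c4432 c3776 c1103 (k8 c4472 c4448 c844 c4476 c486 c3100 c1608 c1127 (k8 c4413 c4450 c4370 c3778 c8 c1568 c2033 c4503 (k4 c4478 c490 c491 c1759 (k2 c1644 c2115 k0))))) (by decide +kernel)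
def c4505 : PP 8 4 T 0x100000000000000000100008000010004000000000014500000101000800482000000 := rS 0x14d86298b2892ac5609c4ea914b9bd6ab93e9cc7e06000ecc28d599fe08672c16d371820a65e2433415c0a31 (k8 c16 c268 c1066 c1870 c276 c4432 c3776 c1103 (k8 c4472 c4448 c844 c4476 c657 c4478 c4313 c4311 (k8 c1117 c617 c1101 c1871 c486 c3171 c3100 c1626 (k8 c135 c106 c3099 c3204 c3165 c2432 c2431 c4450 (k8 c4370 c1746 c4214 c4487 c778 c4362 c2033 c4503 k0))))) (by decide +kernel)
def c4506 : PP 8 4 T 0x100002000000000000000008000000004000000000014000000100040800082000000 := rS 0x9b1dc9174a23a1aa02f88c1a49690e4ba0f64ac4221548c54fa731f81800351ea348e3b3f95608672c16d371820a65e2433415c0a31 (k8 c16 c268 c1066 c1870 c276 c4432 c3776 c1103 (k8 c4472 c4448 c844 c4476 c657 c4478 c4406 c4313 (k8 c1101 c1586 c1117 c1743 c3103 c1871 c486 c3171 (k8 c3100 c1626 c4353 c3165 c2630 c2592 c4303 c4305 (k8 c4376 c4377 c1137 c4470 c4209 c4371 c4372 c488 (k8 c4505 c4329 c4486 c850 c4418 c4471 c4289 c4401 (k1 c2107 k0)))))))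 (by decide +kernel)
def c4507 : PP 8 4 T 0x1001000000000000000200000000000001400400000000000000000000000000000 := rS 0x10345 (k2 c4454 c1898 (k1 c4484 k0)) (by decide +kernel)
def c4508 : PP 8 4 T 0x100000000000000000000008000000004000000000014000000100040800082000000 := rS 0xc66592ca4c35e9349e85583f60909419ed7ec55db04ee71089be2b431f81800351e99cb05b4dc6082997890cd057028c48e3b (k8 c1101 c1586 c16 c268 c1066 c1870 c276 c4432 (k8 c3776 c1103 c4472 c4448 c844 c4476 c657 c1743 (k8 c3103 c1871 c486 c3171 c4424 c4353 c3099 c2592 (k8 c2431 c1111 c4450 c4449 c4370 c4369 c4365 c3899 (k8 c4436 c4478 c4506 c4480 c714 c259 c4248 c4507 (k4 c1167 c4503 c2037 c3924 (k2 c4247 c4246 k0))))))) (by decide +kernel)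
def c4509 : PP 8 4 T 0x8000000105400800082000000 := rS 0xa5309ca516894c501345ab512030babcd00062b0630414cbc48631 (k8 c16 c276 c4432 c3776 c1103 c4472 c4450 c4370 (k8 c1871 c1870 c2720 c8 c797 c3945 c821 c1768 (k8 c1559 c754 c2032 c261 c1877 c4402 c2115 c4475 (k1 c4459 k0)))) (by decide +kernel)
def c4510 : PP 8 4 T 0x11000004000000000000100020000000155401000010400002 := rS 0x30ca65168c585412 (k8 c490 c491 c4165 c1759 c1644 c292 c4362 c2115 k0) (by decide +kernel)
def c4511 : PP 8 4 T 0x15000054001544000000140000000400155400000002000000 := rS 0x6822ca2b27245d2905 (k8 c4503 c2127 c4418 c4471 c4481 c4405 c723 c2115 (k1 c261 k0)) (by decide +kernel)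
def c4512 : PP 8 4 T 0x8000000004000000000000000000100040800082000000 := rS 0x154ff045983d92b17e174bf0d1183492d2278a426c72692e8ae4662f22ec2298ad5aa388194c66123a34761755a755e27168758ac13a8442a973e9cd3e911f818b05b4dc6082997890cd057028c4003d (k8 c1743 c1871 c16 c268 c1066 c1870 c276 c4432 (k8 c3776 c1103 c4472 c4448 c844 c4476 c486 c3171 (k8 c3165 c1667 c3100 c1626 c3204 c2630 c2592 c2432 (k8 c4450 c4370 c10 c2919 c2876 c2720 c2718 c3778 (k8 c8 c1101 c1117 c1586 c617 c4509 c4510 c4508 (k8 c4337 c4338 c4411 c2032 c4511 c4362 c1167 c1168 (k8 c4471 c4454 c1858 c3973 c4289 c4401 c4402 c1479 (k8 c4474 c4281 c4371 c4372 c4200 c488 c752 c4477 (k8 c4303 c4305 c4376 c1163 c4481 c4313 c4406 c2107 k0))))))))) (by decide +kernel)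
def c4513 : PP 8 4 T 0x8000000000000000000105400800082000000 := rS 0x5168ab11653330a4da1b169a000c560c6082f1218c58699 (k8 c3776 c1127 c16 c276 c4432 c1103 c4472 c4450 (k8 c4370 c1871 c1870 c2919 c36 c783 c1568 c4504 (k4 c2033 c720 c924 c261 (k2 c1865 c2115 k0)))) (by decide +kernel)
def c4514 : PP 8 4 T 0x1000001000000000000000440000000001000454404054020041150050020002000006 := rS 0x1c92d7a4d06a14beb084818e211 (k8 c2592 c2431 c486 c4436 c4480 c545 c714 c4211 (k4 c4248 c4507 c1875 c1138 (k1 c2114 k0))) (by decide +kernel)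
def c4515 : PP 8 4 T 0x8000000000000000000000000000100040800082000000 := rS 0xcda2af09ad2258e502b17e32c9e52a5a28a2873fc10ce65248a166d115b94746361c45243d3ca0d12030b874f6bf5db04ee75489be2b433e9cc7e062c16d36682b814003567b1630414cbc48631 (k8 c16 c276 c4432 c3776 c1103 c4472 c4370 c1796 (k8 c3103 c1871 c268 c1066 c1870 c4448 c844 c4476 (k8 c486 c3171 c3100 c1626 c4424 c4353 c3099 c3165 (k8 c2432 c1111 c4450 c4449 c4369 c4365 c10 c8 (k8 c797 c3945 c3899 c3862 c1743 c4512 c4413 c1127 (k8 c1608 c4513 c4403 c1641 c1762 c3105 c1102 c1723 (k8 c491 c656 c4478 c4313 c4410 c1876 c2123 c4427 (k8 c4475 c421 c3924 c4514 c4303 c4380 c1137 c1874 (k4 c4470 c4282 c2114 c4454 (k2 c2068 c4495 k0)))))))))) (by decide +kernel)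
def c4516 : PP 8 4 T 0x8000000008000000000000000000100000800082000000 := rS 0x28856a11d4443b434fa447e062c16d371820a65e2432b814628d109a0010d120f49236 (k8 c4515 c2203 c1742 c272 c4381 c1871 c1870 c2823 (k8 c1384 c16 c268 c1066 c276 c4432 c3776 c1103 (k8 c4472 c4448 c844 c4476 c486 c3171 c3165 c1667 (k8 c4424 c10 c4413 c4513 c1739 c1641 c4489 c1464 k0)))) (by decide +kernel)
def c4517 : PP 8 4 T 0x100000000000000000000008000000000000000000000000000100000800082000000 := rS 0x26c77245caa7f4a41140110a9f4e60d1191d6ac90799d66b17e1761a243097d1c713199476931e9246c3f031d4b05b4d9a0ae0560b1630f120a64861d002ac2e31 (k8 c16 c8 c3778 c1871 c10 c276 c3776 c1103 (k8 c4432 c4472 c4370 c4450 c268 c1066 c1870 c4448 (k8 c844 c4476 c2432 c486 c3171 c4515 c2203 c1742 (k8 c4516 c1101 c4510 c4509 c2431 c273 c1425 c848 (k8 c272 c4381 c1336 c4477 c4303 c1163 c656 c4376 (k8 c4305 c106 c1411 c1410 c1407 c3100 c1626 c2630 (k8 c2592 c4505 c4478 c850 c4313 c4406 c4418 c4471 (k2 c4289 c4401 (k1 c2107 k0))))))))) (by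 decide +kernel)
def c4518 : PP 8 4 T 0x8000000000000000000000000000100000800082000000 := rS 0x553f84d8f047245d845356c4076935983d92b17e0f4be612ec348e4906a3848361f9f56aab4eabd8ac1389d422154b9cc0c582da6e30414cbc486682b8146200 (k8 c1871 c16 c268 c1066 c1870 c276 c4432 c3776 (k8 c1103 c4472 c4448 c844 c4476 c486 c3100 c3204 (k8 c2630 c2592 c2432 c2431 c4450 c4370 c2720 c2718 (k8 c3778 c106 c1626 c3171 c4515 c272 c273 c1407 (k8 c2203 c1411 c4381 c1336 c848 c1425 c1742 c4477 (k8 c4303 c4305 c4376 c1163 c4516 c1101 c4517 c4338 (k8 c2032 c4511 c4362 c4471 c4481 c4289 c4401 c4313 (k2 c4406 c2107 k0)))))))) (by decide +kernel)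
def c4519 : PP 8 4 T 0x10200000002000000000000000044000000000000051500000000000044000111000 := rS 0x12b4c46485003d92fc3f954c67d6384c5247 (k8 c4404 c4402 c4401 c4289 c4409 c4407 c4406 c4313 (k8 c4477 c4305 c4376 c2118 c2107 c770 c4281 c282 (k1 c4467 k0))) (by decide +kernel)
def c4520 : PP 8 4 T 0x200000002000000000000000044000000000000051500000000000144000111000 := rS 0x3da62224bf590a1861fcaa633eb1c5247 (k8 c4404 c4402 c4289 c4409 c4407 c4406 c4313 c4519 (k8 c4329 c2118 c4305 c4199 c4200 c4372 c1327 c4463 k0)) (by decide +kernel)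
def c4521 : PP 8 4 T 0x400000000004000000000000000000000005000040000800000000000000000000000000000000000 := rS 0x17315 (k2 c4388 c1475 (k1 c4492 k0)) (by decide +kernel)
def c4522 : PP 8 4 T 0x1000000000000000040000000000000000000000000000020000000010001000001002 := rS 0x1b8e43c06 (k4 c486 c487 c1138 c272 (k1 c4470 k0)) (by decide +kernel)
def c4523 : PP 8 4 T 0x1000000000000000040000000000000000000000000000280000000010000000010008 := rS 0x6e3938820dc57 (k4 c38 c841 c839 c1418 (k2 c1074 c233 (k1 c4470 k0))) (by decide +kernel)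
def c4524 : PP 8 4 T 0x500000001000000200000054000004405400000010 := rS 0x15231 (k2 c1879 c827 (k1 c2111 k0)) (by decide +kernel)
def c4525 : PP 8 4 T 0x2000000001580000000000000000000444000004405400000000 := rS 0x56c4d5e30a5aac9b11 (k8 c4337 c2062 c1948 c4460 c2111 c988 c4441 c2046 (k1 c4491 k0)) (by decide +kernel)
def c4526 : PP 8 4 T 0x40000000000000400000000000000000000000015080000000000000000000000000000000000000000 := rS 0x15f11 (k2 c4337 c988 (k1 c4491 k0)) (by decide +kernel)
def c4527 : PP 8 4 T 0x40000000000000001000000000000000000000000000000004400000000000002000000000001008000 := rS 0x8945c159054 (k4 c242 c243 c4406 c1767 (k2 c636 c4485 k0)) (by decide +kernel)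
def c4528 : PP 8 4 T 0x40000000000000000000000000000080000000200000000008000 := rS 0x10d1288cc0912e9bc22711b89c3c1d10a356008 (k8 c240 c241 c3125 c2157 c3160 c4466 c353 c88 (k8 c1415 c33 c1074 c841 c889 c624 c1327 c281 (k2 c4325 c4467 k0))) (by decide +kernel)
def c4529 : PP 8 4 T 0x400000000000000001000000000000000000000000000020450000000000000000000000000000000 := rS 0x19305 (k2 c4314 c636 (k1 c4483 k0)) (by decide +kernel)
def c4530 : PP 8 4 T 0x1000000000020000000000000000000000000000000140400000000000000 := rS 0x8319 (k2 c4370 c1055 (k1 c4472 k0)) (by decide +kernel)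
def c4531 : PP 8 4 T 0x400000000000000001000000000000000010800000000000050000000000000000000000000000000 := rS 0x19305 (k2 c4311 c635 (k1 c4483 k0)) (by decide +kernel)
def c4532 : PP 8 4 T 0x1000000000000000000000800000000000000101400000000000000000000000 := rS 0xbb0d (k2 c4330 c812 (k1 c4477 k0)) (by decide +kernel)
def c4533 : PP 8 4 T 0x4000000000000000002000044000040000800000000000000000000000000000000000 := rS 0x16b43 (k2 c4395 c1437 (k1 c4521 k0)) (by decide +kernel)
def c4534 : PP 8 4 T 0x20000000000008000000000000200200000000 := rS 0xe090996c520b010040a3e (k8 c855 c2367 c2854 c4461 c2364 c15 c2839 c1558 (k2 c231 c1178 (k1 c4462 k0))) (by decide +kernel)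
def c4535 : PP 8 4 T 0x100000000000000000000000000000020000000000044000000009000000000000080 := rS 0x829956475 (k4 c499 c1177 c1696 c4311 (k1 c4478 k0)) (by decide +kernel)
def c4536 : PP 8 4 T 0x100000000000000000000000000054000000000000055480000000000008000000000 := rS 0x322845d869fcfb04 (k8 c4478 c4409 c4313 c4323 c2836 c4489 c2118 c4422 k0) (by decide +kernel)
def c4537 : PP 8 4 T 0x5000000000000000000000014000054001000050100055500000000000000000000000 := rS 0x50d6ac8 (k4 c2118 c4254 c4422 c4492 k0) (by decide +kernel)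
def c4538 : PP 8 4 T 0x1000000000000000000000000000000001000000000000000000000110008000000000 := rS 0x6ed3 (k2 c4277 c321 (k1 c4470 k0)) (by decide +kernel)
def c4539 : PP 8 4 T 0x22800000000000000000000000000401001500000000000000000000000000000000000 := rS 0x26d7ebd5daa532a5 (k8 c4444 c4443 c4345 c4390 c4354 c4369 c4448 c2126 k0) (by decide +kernel)
def c4540 : PP 8 4 T 0x10000000000000000000000000000000000000004400000000000040000000002000000 := rS 0xf309 (k2 c4436 c1958 (k1 c4482 k0)) (by decide +kernel)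
def c4541 : PP 8 4 T 0x14000000000000000008014001000000000000000000000000000000000000000000000 := rS 0x1834b (k2 c4430 c1716 (k1 c4494 k0)) (by decide +kernel)
def c4542 : PP 8 4 T 0x2000000000000000054000004000000000000000400000401100200000000 := rS 0x522b19b445e51 (k4 c4435 c4432 c4298 c4293 (k2 c315 c835 (k1 c2112 k0))) (by decide +kernel)
def c4543 : PP 8 4 T 0x20020000000000000000000000020010100000000 := rS 0x78461d (k4 c762 c770 c4466 c1100 k0) (by decide +kernel)
def c4544 : PP 8 4 T 0x400000000000000000020000000000800000000200110000000000000000000000000 := rS 0xd459 (k2 c538 c4080 (k1 c1969 k0)) (by decide +kernel)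
def c4545 : PP 8 4 T 0x80000000000000000000000000000004400000015554000000000000000000000000000000000000000 := rS 0x19aaf (k2 c4428 c4460 (k1 c2128 k0)) (by decide +kernel)
def c4546 : PP 8 4 T 0x2000088000000000000400008000000000000000000000000000 := rS 0x45c250e89829dd00c8391c5974b (k8 c4460 c138 c45 c1077 c1078 c1349 c1891 c4408 (k4 c636 c1732 c4439 c1771 (k1 c4485 k0))) (by decide +kernel)
def c4547 : PP 8 4 T 0x1000000000000000000000000000000000000000004000420000000000000800000200 := rS 0x3f5625c061c40407 (k8 c3 c1106 c536 c793 c792 c504 c4377 c4480 k0) (by decide +kernel)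
def c4548 : PP 8 4 T 0x100000000000000000020400000000000000104000000000000000000000000000 := rS 0xe717 (k2 c4361 c1085 (k1 c4481 k0)) (by decide +kernel)
def c4549 : PP 8 4 T 0x1000000000000000000000000084000080000000000040400000002000000 := rS 0x115887b (k4 c1231 c1770 c257 c4530 k0) (by decide +kernel)
def c4550 : PP 8 4 T 0x2000000000000000000000000002000000000000004000000000000000000000 := rS 0x2c96cc2b1 (k4 c4303 c4301 c888 c1155 (k1 c4476 k0)) (by decide +kernel)
def c4551 : PP 8 4 T 0x1000000000000000000000000000020011100000000000000000000000000000000000 := rS 0x11f0d (k2 c4329 c850 (k1 c4486 k0)) (by decide +kernel)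
def c4552 : PP 8 4 T 0x20000000000000000090000000080000000000004000004000000 := rS 0x622f89abcd8f1 (k4 c4298 c720 c985 c4341 (k2 c783 c301 (k1 c4469 k0))) (by decide +kernel)
def c4553 : PP 8 4 T 0x800000000000000000015000014001454000000000000000000000000000000000000 := rS 0x132af (k2 c4346 c4443 (k1 c2127 k0)) (by decide +kernel)
def c4554 : PP 8 4 T 0x1000000000000020000000000000000000000000000000540000000000 := rS 0x5311 (k2 c4338 c780 (k1 c4468 k0)) (by decide +kernel)
def c4555 : PP 8 4 T 0x1000000000000000000000000000000080000000000000140000100000 := rS 0x5311 (k2 c4333 c775 (k1 c4468 k0)) (by decide +kernel)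
def c4556 : PP 8 4 T 0x800000000000000000000000000000000000200000100000044000004405000010008 := rS 0x8d4e4d06aa462a5 (k8 c4444 c4441 c4345 c1293 c1895 c1896 c793 c2111 k0) (by decide +kernel)
def c4557 : PP 8 4 T 0x4000400000000000008080000002 := rS 0xfd5881ce315300311838 (k8 c352 c353 c871 c870 c4347 c1385 c3123 c504 (k2 c4301 c4480 k0)) (by decide +kernel)
def c4558 : PP 8 4 T 0x40000000000800000000000000000000000000000405000000000 := rS 0x470d (k2 c4330 c772 (k1 c4467 k0)) (by decide +kernel)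
def c4559 : PP 8 4 T 0x100000000000000040005000000000000000104000000001404550000000000200 := rS 0x2e1663d (k4 c235 c1185 c2113 c4548 k0) (by decide +kernel)
def c4560 : PP 8 4 T 0x100000000000000100000000050000000050000055500000000000000000000000 := rS 0x2209e (k2 c2118 c4478 (k1 c4414 k0)) (by decide +kernel)
def c4561 : PP 8 4 T 0x800000000000000100000000000000000001000000051400000000014000000000010040020080000 := rS 0x2209e33a345a9351ae542b7 (k8 c4424 c4423 c4394 c4393 c1030 c912 c1027 c511 (k2 c2125 c4478 (k1 c4414 k0))) (by decide +kernel)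
def c4562 : PP 8 4 T 0x10000000000008000000000000000040080040 := rS 0x108745002 (k4 c1559 c1558 c791 c834 (k1 c4466 k0)) (by decide +kernel)
def c4563 : PP 8 4 T 0x800000000001000000000000000000000000000004001000000000000000000000150151400000000 := rS 0x119a42763a8c92a1 (k8 c4423 c4421 c4393 c4391 c4538 c4470 c2110 c4374 k0) (by decide +kernel)
def c4564 : PP 8 4 T 0x2000000002000000000000000000000008 := rS 0x14c6c (k2 c712 c713 (k1 c2910 k0)) (by decide +kernel)
def c4565 : PP 8 4 T 0x2020000000100008000010000 := rS 0xd62a3758244bed3 (k8 c4277 c66 c1156 c616 c321 c4350 c1034 c4470 k0) (by decide +kernel)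
def c4566 : PP 8 4 T 0x400000000000000000000800001001400000000000000000000000000000000000000 := rS 0x13319 (k2 c4369 c1134 (k1 c4488 k0)) (by decide +kernel)
def c4567 : PP 8 4 T 0x400000000000000000000000000001400000000000000000000080001000000000000 := rS 0x13319 (k2 c4446 c1926 (k1 c4488 k0)) (by decide +kernel)
def c4568 : PP 8 4 T 0x1000000000000400000000000000000000000000500000000000000000000000000004008000000000 := rS 0x1530d (k2 c4323 c974 (k1 c4490 k0)) (by decide +kernel)
def c4569 : PP 8 4 T 0x10000000000000000000000100000000000000004000000000020040000000000008000 := rS 0x1dc3082 (k4 c245 c244 c2002 c4540 k0) (by decide +kernel)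
def c4570 : PP 8 4 T 0x40000000000000000000800000000000000000000000000414000 := rS 0x1afd (k2 c4306 c508 (k1 c4463 k0)) (by decide +kernel)
def c4571 : PP 8 4 T 0x40000000000000000000000002000010440000000040000000000000000000020000000155400000000 := rS 0x33e86486691ca74550a7e18d3 (k8 c4282 c4467 c4384 c4329 c4451 c4290 c4404 c2062 (k4 c2110 c4421 c1790 c4495 k0)) (by decide +kernel)
def c4572 : PP 8 4 T 0x40000000000004000000000000000004011800000000000000000000000000000000000000000000000 := rS 0x18719 (k2 c4369 c1216 (k1 c4494 k0)) (by decide +kernel)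
def c4573 : PP 8 4 T 0x41000000000000000000000000000011400000000000000000000000000000002000000000000000000 := rS 0x19f43 (k2 c4421 c1790 (k1 c4495 k0)) (by decide +kernel)
def c4574 : PP 8 4 T 0x102000002002000000000000080000000004000000044000100000000000000000000 := rS 0x1960a8b (k4 c4322 c4076 c1776 c4478 k0) (by decide +kernel)
def c4575 : PP 8 4 T 0x2002000000018000080000080000004000040000100000000000020000045 := rS 0x414ca88459e21263599dd0e0a3682409118ca702a1b (k8 c4291 c4283 c986 c4367 c4335 c4461 c1058 c694 (k8 c4462 c1633 c1092 c662 c817 c4574 c4482 c605 (k4 c2056 c1776 c4314 c4478 k0))) (by decide +kernel)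
def c4576 : PP 8 4 T 0x1000000000000400000000000000000040000000554000000000000000000041400000154400000000 := rS 0x2a61a24 (k4 c2110 c4200 c1503 c4490 k0) (by decide +kernel)
def c4577 : PP 8 4 T 0x440000002000001105414000008000000100000800400008 := rS 0x8358af41891 (k4 c769 c793 c1173 c1147 (k2 c508 c2122 k0)) (by decide +kernel)
def c4578 : PP 8 4 T 0x100000000000000108040000002000000045410000008000400100000800400108 := rS 0x5c5097c7d37bf4185c42a061119 (k8 c4367 c4482 c4439 c4321 c792 c793 c4377 c1290 (k4 c1291 c4577 c4483 c1215 (k1 c4394 k0))) (by decide +kernel)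
def c4579 : PP 8 4 T 0x400000000000000008040000000444000000000000000000041400004150400000000 := rS 0x13a968aa1 (k4 c1795 c4400 c1405 c4568 (k1 c4576 k0)) (by decide +kernel)
def c4580 : PP 8 4 T 0x2000000008000000080000080000000000000000000000000050000000008 := rS 0x2fd7a6f41ac548a92f1753c23389fd92bb24a8d571327b442ec556a9d1ac723824023942a04c46732a2d6505841de327b2b164b6693c90ca687369462e7503070421f09b92222d199cd38c2 (k8 c987 c986 c3087 c4293 c982 c4335 c4468 c4401 (k8 c1194 c926 c4466 c791 c498 c4359 c4435 c958 (k8 c1633 c4290 c2054 c501 c2819 c2991 c3225 c4476 (k8 c1227 c4367 c1092 c4482 c4076 c4481 c4322 c1776 (k8 c921 c4574 c4439 c4321 c3151 c1 c1058 c4404 (k8 c4289 c3226 c2916 c163 c1253 c4431 c4298 c4297 (k8 c4346 c82 c1524 c1790 c1446 c3736 c1521 c666 (k8 c4578 c4579 c1340 c1611 c1510 c1781 c1148 c549 (k4 c1377 c1174 c1403 c2122 k0))))))))) (by decide +kernel)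
def c4581 : PP 8 4 T 0x2002000004009400800244180001105500001008001000001000000000000 := rS 0x1c576b837a80fb43662c5064d2eb2d7b0d27b44965188b1ca647 (k8 c4404 c4290 c4289 c4335 c4435 c4434 c4298 c4297 (k8 c4385 c1938 c3850 c1341 c1934 c1937 c1148 c2116 (k8 c4395 c1357 c4489 c1190 c899 c1478 c1474 c2122 k0))) (by decide +kernel)
def c4582 : PP 8 4 T 0x400000000000000000040000000544000000800000001100001400004150400000000 := rS 0x10c1397e8afd (k4 c4306 c4452 c549 c4568 (k2 c4477 c4200 k0)) (by decide +kernel)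
def c4583 : PP 8 4 T 0x400000000000000000000200000546080000000000000000041000004150400000000 := rS 0x5089d51456391dc911 (k8 c4335 c4468 c4404 c4289 c4454 c1174 c4568 c2985 (k1 c4576 k0)) (by decide +kernel)
def c4584 : PP 8 4 T 0x200044080000000000000018001000000150400000008 := rS 0x255089cbeb91a870421f6391dc911 (k8 c4335 c4468 c4404 c4289 c1194 c926 c4466 c3018 (k4 c3214 c544 c873 c899 (k2 c225 c2110 k0))) (by decide +kernel)
def c4585 : PP 8 4 T 0x400000000000000000000440800546080000005414001018041000004150000400000 := rS 0x2844e5ca2a0992b15e88d8e4742a0611191c8080c0b0ab9222091f870421f (k8 c1194 c926 c4466 c1180 c1185 c4335 c4468 c4283 (k8 c662 c4462 c1018 c3151 c4367 c4482 c4439 c4321 (k8 c4404 c4289 c4577 c4583 c4584 c634 c2122 c4452 (k4 c4582 c4568 c811 c4576 k0)))) (by decide +kernel)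
def c4586 : PP 8 4 T 0x44080100000008008000001000000150000000000 := rS 0x462513a841c3448b1c8e013081816157244412b21f870421f (k8 c1194 c926 c4466 c1180 c817 c1185 c4335 c4468 (k8 c4283 c662 c4462 c2888 c2715 c4404 c4289 c1076 (k4 c1019 c1020 c898 c872 (k2 c1369 c1328 (k1 c2110 k0))))) (by decide +kernel)
def c4587 : PP 8 4 T 0x400000000000000014001440800546080000005404001018145040004150000400000 := rS 0x1359acb1b2d0e0c72991c0c0b0ab9222091f870421f (k8 c1194 c926 c4466 c1180 c1185 c4335 c4468 c4283 (k8 c662 c4462 c4404 c4290 c4289 c4585 c667 c497 (k4 c1708 c1437 c324 c2116 k0))) (by decide +kernel)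
def c4588 : PP 8 4 T 0x2000000004000000080140080000001400000000001000000050000000000 := rS 0x6ed3114314227a1ae46acc8aae8de390302416615918a111327b442e4b28a3d4f194699ce67b2b165385b348fc38210f8558e472194dc911168cd3ebf62ab62ec14ad2d0ec2 (k8 c987 c1906 c4428 c103 c1714 c4359 c163 c1253 (k8 c4572 c1780 c4293 c982 c4335 c4468 c4290 c2054 (k8 c4404 c4289 c4283 c1194 c926 c4466 c1180 c2819 (k8 c2991 c986 c3225 c4476 c1227 c3087 c921 c3226 (k8 c4367 c2916 c2992 c4435 c4434 c4431 c4298 c4297 (k8 c4346 c4482 c4574 c817 c2888 c662 c1185 c4462 (k8 c3151 c4586 c4587 c4390 c2060 c1310 c1478 c4395 (k4 c873 c899 c4489 c4200 (k2 c4372 c1409 (k1 c4470 k0)))))))))) (by decide +kernel)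
def c4589 : PP 8 4 T 0x80000080000002000000000000000000000000000000 := rS 0x20a6332a21668b88b155ac14a99cac592d9cd38c2 (k8 c987 c986 c3087 c2991 c3225 c4476 c921 c103 (k8 c1714 c163 c1253 c4335 c605 c669 c2056 c1776 (k2 c817 c4314 (k1 c4478 k0)))) (by decide +kernel)
def c4590 : PP 8 4 T 0x2000000004000000080040080000000400000000001000000050000000000 := rS 0x1818600905984eab23129132ab339cca23f0aa7d7ec556c5d8295a58648653724445a1c1087c768742a0611193d958b29c6116cd279 (k8 c4589 c2819 c2991 c987 c986 c3225 c4476 c1227 (k8 c4367 c4482 c4439 c4321 c1906 c3035 c1194 c2990 (k8 c4466 c913 c4335 c4468 c4290 c2054 c4540 c4428 (k8 c103 c1714 c4359 c163 c1253 c4572 c1780 c4283 (k8 c1180 c1592 c3087 c921 c82 c1200 c4588 c4574 (k8 c817 c1688 c2888 c662 c1185 c4581 c4462 c228 (k1 c1018 k0))))))) (by decide +kernel)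
def c4591 : PP 8 4 T 0x10000000000000000009080000044080000000000000000000000000000000000000 := rS 0xa1a1ae59911 (k4 c4335 c2060 c1478 c4395 (k2 c899 c4489 k0)) (by decide +kernel)
def c4592 : PP 8 4 T 0x80000080000000000000000000000000080000000000 := rS 0x10de241680cd56c556c648a1c1087d38c2 (k8 c987 c986 c3224 c2990 c4466 c3221 c4367 c163 (k8 c1253 c82 c437 c1774 c1052 c4298 c341 c4472 k0)) (by decide +kernel)
def c4593 : PP 8 4 T 0x1541000002002000000000000000000108100000000000000 := rS 0x129e0351b90c824f26d122b19 (k8 c4367 c4351 c4493 c4451 c4396 c3196 c405 c403 (k4 c3194 c4472 c2114 c4434 k0)) (by decide +kernel)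
def c4594 : PP 8 4 T 0x2000000000000000080000080000000000000000000004000000000000041 := rS 0x6c55699ce67b2b164b66928b90522b888b438210f8ed849c (k8 c986 c987 c3035 c3224 c2990 c4466 c913 c4335 (k8 c4592 c777 c4468 c1867 c2819 c2991 c3225 c4476 (k4 c1227 c3087 c921 c163 (k2 c1253 c791 (k1 c4575 k0))))) (by decide +kernel)
def c4595 : PP 8 4 T 0x2000000000010000000000000000000000540100000000000005404000000000000048000020000001 := rS 0x7011c00a810dc210a83 (k8 c4452 c4397 c4482 c4315 c4439 c430 c2122 c4461 (k2 c497 c791 k0)) (by decide +kernel)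
def c4596 : PP 8 4 T 0x2000000000800000000000000001000020000001 := rS 0x280cd807 (k4 c3004 c1092 c791 c695 (k1 c4461 k0)) (by decide +kernel)
def c4597 : PP 8 4 T 0x4000044080000000000000000000000080151500000000 := rS 0x5089d72496391dc911 (k8 c4335 c4468 c4404 c4289 c323 c1471 c320 c899 (k1 c2110 k0)) (by decide +kernel)
def c4598 : PP 8 4 T 0x540080000082000000000000000000020000000000000000 := rS 0xd2240d5603737a7c4acf27d1146238aadc5a3b158e4523f030080a1b841dc629955c64f6693c8c802092b164b61c1087d849c (k8 c986 c987 c3224 c2990 c4466 c2991 c3225 c4476 (k8 c3058 c751 c1052 c4589 c2819 c1227 c4367 c82 (k8 c1200 c1912 c4596 c4482 c4315 c430 c4461 c791 (k8 c3196 c777 c3159 c4592 c3035 c913 c3178 c4351 (k8 c769 c939 c4493 c4396 c4400 c434 c1780 c2998 (k4 c4597 c4595 c3018 c4584 (k2 c4470 c4281 k0))))))) (by decide +kernel)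
def c4599 : PP 8 4 T 0x1000000000000000000001000000000400000000000000000000000000000016000000000000000000 := rS 0x9ed3 (k2 c4281 c453 (k1 c4474 k0)) (by decide +kernel)
def c4600 : PP 8 4 T 0x540080000080000000004000000000020040000000000000 := rS 0x1044418d98a224a7c46255292cfe5f415154e6739b2de24d6391dc8291f8ae222d1da04ca8b30a1542b10889d2271030080a1b841dc629955c64f6693c8c802092b164b61c1087d849c (k8 c986 c987 c3224 c2990 c4466 c2991 c3225 c4476 (k8 c3058 c751 c1052 c4589 c2819 c1227 c4367 c82 (k8 c1200 c1912 c4596 c4482 c4315 c430 c4461 c791 (k8 c497 c4598 c872 c342 c1147 c898 c4321 c2883 (k8 c4322 c1776 c4439 c3035 c913 c4335 c4592 c3196 (k8 c777 c4468 c4404 c4289 c1994 c4433 c2028 c3087 (k8 c921 c2916 c4595 c2122 c549 c677 c1855 c1937 (k8 c225 c955 c1781 c4599 c2110 c989 c819 c2064 (k2 c4478 c4314 k0))))))))) (by decide +kernel)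
def c4601 : PP 8 4 T 0x1000000000000400080010080000100008000000010000000014000010180 := rS 0x82acca87d2428d529fa243096231293da60d070d1faab56c4e9717469cc02562c96d8e473a84dc82b888b438210f8ed849c (k8 c986 c987 c3035 c3224 c2990 c4466 c913 c4335 (k8 c4592 c4468 c4401 c498 c4404 c4289 c2991 c3225 (k8 c4476 c751 c3087 c3226 c4359 c4428 c4346 c163 (k8 c82 c4378 c1019 c1020 c1290 c4373 c1491 c1369 (k8 c1328 c1333 c4467 c4474 c4384 c4398 c4526 c2110 (k4 c1623 c4199 c1190 c4406 (k1 c4481 k0))))))) (by decide +kernel)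
def c4602 : PP 8 4 T 0x540080000080000000000000000000020000000000000000 := rS 0xa254a7c4b448608c93151b1bc222750a440c0202a0437083b91d8ee4148049a31190fc12f156c4e97114caad1e798ca356e2d0e0843e3b3d958b29c6116cd22b (k8 c4592 c2819 c2991 c987 c986 c3225 c4476 c1227 (k8 c3035 c3224 c2990 c4466 c913 c3178 c3226 c4367 (k8 c4589 c2992 c82 c1200 c4335 c4428 c4346 c163 (k8 c4433 c3058 c3196 c1052 c1912 c1994 c751 c777 (k8 c4468 c4289 c4404 c4596 c4482 c4315 c4439 c430 (k8 c4461 c791 c4598 c898 c872 c342 c4601 c4600 (k8 c4386 c323 c1409 c4486 c4493 c4381 c4384 c4398 (k2 c2110 c4526 k0)))))))) (by decide +kernel)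
def c4603 : PP 8 4 T 0x2000000004000000080040080000000000000000001000000010000000001 := rS 0x63b0fc38210fb09382b (k8 c4592 c986 c987 c3224 c2990 c4466 c1180 c4590 (k2 c4594 c3004 k0)) (by decide +kernel)
def c4604 : PP 8 4 T 0x80000000000040008000000000120000000100 := rS 0x1960a630a2cc14071e8f92b11 (k8 c4335 c103 c777 c1680 c3188 c4462 c663 c398 (k4 c817 c4307 c551 c4478 k0)) (by decide +kernel)
def c4605 : PP 8 4 T 0x2000000000000000000000000000000000540800000000001105000000008046150040000000000080 := rS 0x1e6e64ac46883268e4ee71 (k8 c497 c1023 c3151 c4451 c4452 c2114 c3018 c634 (k2 c2122 c243 (k1 c1020 k0))) (by decide +kernel)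
def c4606 : PP 8 4 T 0x40000000000010000000000000000000400544800000000000005000000008002150000000000000080 := rS 0x1066f649f562cc8a514e23727b4496f042a061077 (k8 c1023 c4482 c4439 c4321 c4472 c4434 c4298 c4297 (k8 c323 c497 c4605 c4493 c4573 c4349 c1357 c634 (k2 c1190 c2065 (k1 c2122 k0)))) (by decide +kernel)
def c4607 : PP 8 4 T 0x540080000080000000000000000000040000000000000001 := rS 0x1066f38ac4fc7d5aa4544495918a0a8142b3e10873a808ee13033907e2904d2e2317479e56e2d1d99ce67b2b164b66915b2ca2f02091438210fb0a329c (k8 c986 c4367 c987 c3224 c2990 c4466 c3221 c4602 (k8 c4472 c1866 c2028 c4592 c2819 c2991 c3225 c4476 (k8 c1227 c3087 c921 c3035 c913 c3178 c4589 c2992 (k8 c4359 c4335 c4428 c1058 c4604 c1180 c4468 c4594 (k8 c4401 c1023 c1018 c498 c1906 c4482 c4580 c4321 (k8 c4439 c4076 c4574 c4481 c4606 c4590 c939 c1435 (k4 c1354 c819 c1147 c667 (k2 c1190 c677 (k1 c2122 k0))))))))) (by decide +kernel)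
def c4608 : PP 8 4 T 0x2000000000540080080080000000000000000000040000000000000000 := rS 0xfd409b8183426c24a6512792de041228210e3948adc38210fa14fe8366226086333958b25b39b08ca0015c446f14a2aa2329c (k8 c986 c4367 c988 c4398 c4493 c4386 c4335 c4592 (k8 c4607 c491 c987 c3087 c2991 c3225 c4476 c921 (k8 c2715 c4478 c4314 c989 c2064 c4313 c1481 c3224 (k8 c2990 c4466 c3178 c939 c1139 c1632 c751 c3221 (k8 c4602 c4472 c4434 c4297 c1866 c4290 c4574 c2062 (k4 c2114 c1060 c1059 c1293 (k2 c4378 c4484 k0))))))) (by decide +kernel)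
def c4609 : PP 8 4 T 0x540080080080000000000000000000040000000000000000 := rS 0x4d6339472b548c5d1eb7168ed964f25bc082450e0843f191e9560863339ccca2b8882000562ca71845b (k8 c2991 c987 c986 c3225 c4476 c4607 c751 c4335 (k8 c4592 c491 c3087 c921 c2715 c4478 c4406 c234 (k8 c4367 c3224 c2990 c4466 c3221 c4602 c4472 c4434 (k8 c4297 c2028 c3035 c913 c3178 c2992 c4359 c939 (k4 c1435 c1139 c4608 c4241 (k2 c413 c4271 k0)))))) (by decide +kernel)
def c4610 : PP 8 4 T 0x50000100050000055000000008020020000010202 := rS 0x2ea7cbec9060948c03 (k8 c1 c1182 c1369 c1060 c1583 c489 c1571 c1288 (k1 c2118 k0)) (by decide +kernel)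
def c4611 : PP 8 4 T 0x544000040081500000000050008054158500020000000002 := rS 0x17d3e5d648388e701b0d4c2a1019fcfb0431c442208 (k8 c751 c344 c4335 c2715 c4478 c4409 c4313 c1 (k8 c898 c880 c4610 c2114 c233 c1412 c232 c587 (k4 c1417 c1570 c1376 c2118 k0))) (by decide +kernel)
def c4612 : PP 8 4 T 0x1000000000540080000080000000000000000010040100000000000000 := rS 0x1434fb199ea11b51168358ac35208f60a551ab72792de04122c644ea3140b438210f8f8763d2ac10c66739994571104000ac594e308b717 (k8 c4359 c2991 c987 c986 c3225 c4476 c4607 c751 (k8 c4335 c4592 c491 c3087 c921 c2715 c4478 c4406 (k8 c234 c3035 c4471 c3224 c2990 c4466 c913 c4468 (k8 c4609 c2874 c4367 c3221 c4602 c4472 c4434 c4297 (k8 c3178 c3226 c103 c1714 c2992 c4611 c4327 c4351 (k8 c1036 c4593 c4493 c2114 c1706 c4400 c402 c1780 (k2 c4391 c4489 k0))))))) (by decide +kernel)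
def c4613 : PP 8 4 T 0x40080000000000040008000000200040020000002 := rS 0x191422ec34be614fa8520225c814fe7d8218ccb11 (k8 c4335 c491 c2715 c4478 c4409 c4313 c2 c3212 (k8 c1140 c1139 c899 c1300 c2733 c1296 c4327 c2712 (k2 c4489 c2118 (k1 c4422 k0)))) (by decide +kernel)
def c4614 : PP 8 4 T 0x1000000000540080000080000000000000000000040000000000000000 := rS 0x6bf59061489753e5f8a2841e2563d15a64c248f8511753c645a3b3d9a596273f9f47a558218ccb11088e5462b339cc38210f82000562ca71845b (k8 c2991 c987 c986 c3225 c4476 c4607 c751 c3224 (k8 c2990 c4466 c3087 c921 c4592 c4609 c4613 c344 (k8 c4335 c491 c2715 c4478 c4406 c234 c4409 c4313 (k8 c2874 c2028 c2819 c1227 c3035 c913 c4367 c2916 (k8 c4359 c4468 c4471 c370 c4612 c4282 c4451 c413 (k8 c285 c4569 c4212 c4493 c489 c1571 c753 c4351 (k4 c880 c2118 c4305 c507 (k1 c4463 k0)))))))) (by decide +kernel)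
def c4615 : PP 8 4 T 0x2000010000100080040080000000000000000020040000000000000002 := rS 0x64030c2a12ea7cbe2207a944b4b53c645a3b3d9a59615139fcfb043199622111c8acce730e0843e082b16538c22db1c2629 (k8 c4402 c4401 c4289 c2991 c987 c986 c3225 c4476 (k8 c751 c3224 c2990 c4466 c3087 c921 c4592 c4613 (k8 c344 c4335 c491 c2715 c4478 c4409 c4313 c2874 (k8 c646 c2028 c2819 c1227 c3035 c913 c4367 c2916 (k8 c4428 c285 c1935 c4569 c4571 c489 c1781 c753 (k4 c770 c2733 c4520 c2118 (k1 c506 k0))))))) (by decide +kernel)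
def c4616 : PP 8 4 T 0x200544000000000000000000000000054150100000000040200 := rS 0x1a8dc1a71 (k4 c587 c506 c233 c1060 (k1 c2114 k0)) (by decide +kernel)
def c4617 : PP 8 4 T 0x200000002000000000540000044000400000000040040054150100144000001202 := rS 0x5d309c06c352f9942a11 (k8 c344 c646 c491 c488 c1060 c2114 c233 c584 (k2 c1417 c4520 k0)) (by decide +kernel)
def c4618 : PP 8 4 T 0x2000000100540000044080500000000040040054150100144000000242 := rS 0x5097cdc911a1846e5d0600cfe7d8218ccb11 (k8 c4335 c491 c2715 c4478 c4409 c4313 c1 c4617 (k8 c1288 c1408 c503 c2114 c3052 c1059 c1377 c898 (k1 c2118 k0))) (by decide +kernel)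
def c4619 : PP 8 4 T 0x540080000080000000000000000000040000000000000000 := rS 0x12b4c68378a5159c2386a79924d09b9072a30389c10030012da24f7823e328d5b9145a1c1087c76672b164b6734e3085641 (k8 c4602 c4592 c987 c986 c3087 c2991 c3225 c4476 (k8 c921 c3035 c3224 c2990 c4466 c913 c3221 c3178 (k8 c3226 c4367 c2992 c4472 c4297 c4298 c4434 c4607 (k8 c1 c751 c2874 c1018 c4609 c4613 c4614 c4401 (k8 c4615 c4616 c4618 c4384 c1300 c1780 c4400 c4493 (k4 c4386 c2114 c4373 c1369 (k1 c4467 k0))))))) (by decide +kernel)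
def c4620 : PP 8 4 T 0x9000000000080000000000000000000080000140000000000 := rS 0xe5149487f11 (k4 c4335 c405 c2054 c777 (k2 c4290 c4468 k0)) (by decide +kernel)
def c4621 : PP 8 4 T 0x2046082000000000040008000140000120060000000 := rS 0xbe7d12c109e5d31995e00002904103e8c984fec9a14354311 (k8 c4335 c2985 c4327 c4489 c4422 c4392 c2980 c4367 (k8 c777 c4604 c3196 c262 c1058 c4472 c1567 c2715 (k4 c2712 c4297 c4478 c1503 (k2 c4409 c489 (k1 c2118 k0))))) (by decide +kernel)
def c4622 : PP 8 4 T 0x400000000000000000000200000546080000000000040008000140000150020000002 := rS 0x139e023208e466088c926850d482855111 (k8 c4335 c1174 c2985 c1173 c4327 c4489 c4421 c4367 (k8 c751 c2957 c4613 c3058 c769 c4472 c4583 c4297 k0)) (by decide +kernel)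
def c4623 : PP 8 4 T 0x2000000000000200080000080000000000000000000000000000000000000 := rS 0x4ce03126850d50c447e0114a7d50a3482dd4a995590d82951599ce62d1d914ac592d870421f6129d3913 (k8 c4346 c986 c2916 c987 c3224 c2990 c4466 c2991 (k8 c3225 c4476 c3221 c3035 c913 c3087 c921 c4592 (k8 c103 c1714 c4620 c82 c1200 c1938 c3178 c1173 (k8 c939 c1174 c1510 c4621 c4622 c1180 c4335 c2985 (k4 c4327 c4489 c4421 c4594 (k2 c4603 c1018 (k1 c4580 k0))))))) (by decide +kernel)
def c4624 : PP 8 4 T 0x200080000080000000000000000000000000000000000000 := rS 0x4a23190e480f123b90524963d084e9f50a8e1aa554242229955c656e4533958b25b3990c562d0e0843e3b4e3052ac2 (k8 c987 c103 c1714 c986 c3035 c3224 c2990 c4466 (k8 c913 c4592 c4620 c3087 c2991 c3225 c4476 c921 (k8 c3221 c3178 c4367 c82 c1200 c4335 c1173 c1174 (k8 c1938 c4327 c939 c2985 c1510 c2977 c4489 c4391 (k8 c4421 c4621 c4468 c4404 c4623 c4472 c3159 c1052 (k2 c769 c435 (k1 c2110 k0))))))) (by decide +kernel)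
def c4625 : PP 8 4 T 0x20000000000000000440800000046000000000000000000004420000154000000000 := rS 0x2488c9c32 (k4 c1052 c1054 c955 c453 (k1 c4200 k0)) (by decide +kernel)
def c4626 : PP 8 4 T 0x800080000080000000000000000000000000010000000000 := rS 0x1925d419b0fe7d84c110eb33598cca080001c0617781058e47720fca31362c64ce73218ac5a3b60a5596bd25915027b3489c38210f984ac592d97e19435c27d4a8d4e28522a3673095b11 (k8 c4335 c163 c987 c1216 c1524 c3229 c898 c986 (k8 c3226 c1403 c1781 c1215 c4394 c4489 c4382 c2991 (k8 c3225 c4476 c880 c3224 c2990 c4466 c872 c2819 (k8 c1227 c1364 c3221 c1324 c4624 c2028 c103 c1714 (k8 c3035 c913 c4592 c4620 c3087 c921 c4367 c1253 (k8 c4346 c1592 c1180 c4468 c1316 c4289 c4625 c4472 (k8 c4431 c4580 c1018 c4575 c751 c491 c2715 c492 (k8 c3197 c1632 c4478 c4574 c1356 c4313 c4479 c640 (k2 c963 c1793 (k1 c2118 k0)))))))))) (by decide +kernel)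
def c4627 : PP 8 4 T 0x800080000080000000000000000000000000000000000000 := rS 0x2127745215905d11b488e353fb1e084f3e98ccaf008acc000520924103e728a0bf0c51d0d3e6150b3970a51ca455b113cc651a45339ccf6562c96cd243158b438210f8ed38c14ab2d7ac2 (k8 c987 c4624 c2028 c103 c1714 c986 c3035 c3224 (k8 c2990 c4466 c913 c4592 c4620 c2819 c2991 c3225 (k8 c4476 c1227 c3087 c921 c3221 c3226 c4367 c4589 (k8 c4335 c163 c3229 c1240 c1403 c1215 c1216 c898 (k8 c880 c1781 c4394 c1524 c4489 c4382 c4626 c4402 (k8 c777 c4604 c1720 c3196 c262 c1058 c3197 c344 (k8 c4472 c1567 c2715 c1356 c4297 c4478 c1519 c4313 (k8 c4610 c1315 c4473 c4372 c752 c2118 c717 c1792 (k2 c1094 c4322 (k1 c4482 k0)))))))))) (by decide +kernel)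
def c4628 : PP 8 4 T 0x1000000000000000000000000100000000400000004000200000000000000000000000 := rS 0xe2fd (k2 c4377 c1417 (k1 c4480 k0)) (by decide +kernel)
def c4629 : PP 8 4 T 0x100000000000000000100002000054000000000000055508000000000000000000000 := rS 0x3e9fe08b3 (k4 c1188 c4478 c1434 c4409 (k1 c2118 k0)) (by decide +kernel)
def c4630 : PP 8 4 T 0x880000080000000000000000000000000000000000000 := rS 0xd8444023b1de2e41f8a4ee098c914ce562c96ce6cf6289c6a25248e5230ca1a7d98a15ca8d528f89ab5574b88ad174bf218ac5a1c1087c769c60a557ac2 (k8 c987 c4624 c103 c1714 c986 c3035 c3224 c2990 (k8 c4466 c913 c4592 c4620 c4627 c4619 c2061 c4335 (k8 c4428 c82 c163 c4346 c2992 c1443 c4526 c1478 (k8 c899 c2060 c1398 c4395 c4489 c4327 c1139 c1703 (k8 c4381 c1310 c873 c1253 c1446 c3087 c2991 c3225 (k8 c4476 c921 c3221 c4367 c3197 c3203 c4604 c1180 (k8 c4468 c4590 c1432 c4404 c4472 c2110 c1851 c1409 k0))))))) (by decide +kernel)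
def c4631 : PP 8 4 T 0x80000080000000000000000000000000000000000000 := rS 0x1093ba28da6431accbac95897d230c30a85469fa19bd68b954b322aba5faf4862b3d99c5a560e0ec3e732cc65827934a3cb62161272229555ab6274b (k8 c4428 c4346 c163 c82 c103 c4335 c986 c987 (k8 c2990 c2991 c2992 c2819 c4589 c1714 c4367 c3225 (k8 c3087 c3224 c3035 c4466 c4476 c913 c921 c1227 (k8 c4592 c4620 c4624 c4627 c4619 c4390 c2060 c1443 (k8 c1478 c2061 c1350 c4395 c1398 c4526 c899 c881 (k8 c4489 c4327 c4382 c1147 c1705 c4628 c4630 c817 (k4 c4629 c701 c1776 c1092 (k2 c4322 c4482 k0)))))))) (by decide +kernel)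
def c4632 : PP 8 4 T 0x10000000000000000000000000000000000080004500000000000000000000000000000 := rS 0xf309 (k2 c4322 c604 (k1 c4482 k0)) (by decide +kernel)
def c4633 : PP 8 4 T 0x1400000000000000000000000001400000400102004000208000000000000000000000 := rS 0x28b0d4124160a5 (k4 c1341 c4628 c1147 c628 (k2 c4327 c4452 (k1 c4490 k0))) (by decide +kernel)
def c4634 : PP 8 4 T 0x40000000000000001000000000000004000000000000000014020000000000000000000000000000000 := rS 0x11705 (k2 c4409 c1772 (k1 c4485 k0)) (by decide +kernel)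
def c4635 : PP 8 4 T 0x40000000000000000000000000000000005080001056000005000800054040000000000000000000000 := rS 0x45d8a7439b20facf3097cba7f379c1006c44c24f319 (k8 c4449 c47 c4438 c2042 c1092 c1890 c1891 c1350 (k8 c4235 c962 c698 c584 c3398 c4634 c2118 c1731 (k4 c586 c1095 c4417 c4494 k0))) (by decide +kernel)
def c4636 : PP 8 4 T 0x400001000000000000000080000000000000000011101508000000000000000000000 := rS 0x35c2500a5374316315 (k8 c4390 c1148 c4477 c4480 c4385 c1349 c4439 c1922 (k1 c4479 k0)) (by decide +kernel)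
def c4637 : PP 8 4 T 0x400000000000000000000080000000000500204401101000000000000000000000000 := rS 0x91869b94878354262b19 (k8 c4449 c4390 c4439 c4479 c4482 c1922 c1963 c4385 (k2 c1076 c4486 k0)) (by decide +kernel)
def c4638 : PP 8 4 T 0x200001200000000000000000000000000800010000000000100 := rS 0x382c2037 (k4 c1411 c1583 c623 c609 (k1 c4462 k0)) (by decide +kernel)
def c4639 : PP 8 4 T 0x1500000000000000000400054000004404401000008 := rS 0x4a31 (k2 c228 c225 (k1 c2111 k0)) (by decide +kernel)
def c4640 : PP 8 4 T 0x10000000000000000000000200000000400000000001000000000000004000000800 := rS 0x2312b4c6c10 (k4 c622 c623 c4275 c279 (k2 c1409 c4467 k0)) (by decide +kernel)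
def c4641 : PP 8 4 T 0x400001000000000000000080000402000500000410101408000000000000000000000 := rS 0x322092da4251788c04451c818164d2789c13440e004430d0c87d2035842c0f2a537a04b9158c9ed526d (k8 c961 c1443 c1227 c4449 c4390 c4636 c4637 c1349 (k8 c1341 c4633 c4480 c4482 c3018 c1147 c3161 c4436 (k8 c4327 c2790 c2712 c4466 c4490 c1058 c873 c4396 (k8 c4451 c4640 c4462 c3151 c1217 c1018 c769 c785 (k4 c225 c4467 c4375 c1850 (k2 c4639 c953 k0)))))) (by decide +kernel)
def c4642 : PP 8 4 T 0x400000000000000000000080000000000000000001102008000000000000000000000 := rS 0x6b84a00dc5d (k4 c40 c881 c1349 c4439 (k2 c1923 c4479 k0)) (by decide +kernel)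
def c4643 : PP 8 4 T 0x400001000000000000000080000402000500000410100008000000000000000000000 := rS 0xb02f454b26f40984da7b (k8 c1227 c961 c4642 c4637 c1349 c37 c4390 c4641 (k2 c4480 c544 k0)) (by decide +kernel)
def c4644 : PP 8 4 T 0x1010000000000000000000000000002000000000000000000008000110004400000000 := rS 0x80331b091a64f (k4 c26 c4375 c4467 c4470 (k2 c434 c1414 (k1 c1052 k0))) (by decide +kernel)
def c4645 : PP 8 4 T 0x400000000000000000000000000002000000006000000008000000000000100000080 := rS 0x31788cc5e010b1088a09 (k8 c3 c1217 c501 c500 c751 c785 c336 c4431 (k2 c1911 c4469 k0)) (by decide +kernel)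
def c4646 : PP 8 4 T 0x410000000000000000000000001400000000000000000000080000004000000000000 := rS 0x14b45 (k2 c4396 c1400 (k1 c4490 k0)) (by decide +kernel)
def c4647 : PP 8 4 T 0x100000000000000000000800000000200000020000400 := rS 0x80201c441f (k4 c10 c1140 c1137 c1296 (k2 c4462 c262 k0)) (by decide +kernel)
def c4648 : PP 8 4 T 0x410000000000000000000080000000000000000000000000008000000400420000000 := rS 0x351310c4a3210b4de231 (k8 c1915 c4434 c4375 c11 c4469 c1374 c336 c4467 (k2 c1310 c873 k0)) (by decide +kernel)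
def c4649 : PP 8 4 T 0x410000000000000000000080000402002000000000000000008000000000420000000 := rS 0x35138ba2a39 (k4 c1140 c4390 c4648 c876 (k2 c1036 c4644 k0)) (by decide +kernel)
def c4650 : PP 8 4 T 0x400000000000000040000080000402002000000000000000000000040000420000000 := rS 0x34258e62b0d (k4 c4327 c4390 c1140 c4649 (k2 c4470 c1309 k0)) (by decide +kernel)
def c4651 : PP 8 4 T 0x10000000000000000000000000000000000000000000800000000050000000020000012 := rS 0x789142c2f (k4 c1839 c492 c1220 c4431 (k1 c4472 k0)) (by decide +kernel)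
def c4652 : PP 8 4 T 0x400000000000000040000080101402002001500001101500000000040001021000410 := rS 0x3c48a4a17a90d643040000e031c08a3241 (k8 c1851 c4449 c4650 c769 c2766 c1137 c4461 c4462 (k8 c236 c4651 c2119 c1843 c1301 c1220 c4434 c4472 k0)) (by decide +kernel)
def c4653 : PP 8 4 T 0x400000000000000040000080000400001501500001101500000000040000020000010 := rS 0x31788bc946a1a294730c8aaa46641 (k8 c1851 c953 c1443 c4390 c4486 c1139 c4385 c4470 (k4 c2119 c1309 c1839 c4434 (k2 c1914 c4469 k0))) (by decide +kernel)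
def c4654 : PP 8 4 T 0x10400000000000000000000000000002000000000400100008000000000000022000000 := rS 0x3808f06a849ecda21 (k8 c11 c961 c1227 c4436 c4479 c4482 c1919 c4645 (k1 c791 k0)) (by decide +kernel)
def c4655 : PP 8 4 T 0x80000002000400000400100208000000000000000000000 := rS 0xe2fd89a9d1abf (k4 c109 c1236 c907 c4343 (k2 c4377 c1417 (k1 c4643 k0))) (by decide +kernel)
def c4656 : PP 8 4 T 0x800000000000008000000100000020001000 := rS 0x7b4c22fd11004e05c (k8 c800 c801 c2709 c760 c4377 c583 c4372 c1328 (k1 c4463 k0)) (by decide +kernel)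
def c4657 : PP 8 4 T 0x80000002000001400001500400000000040000020002000 := rS 0x391102920b12e98502192b420ee5b8cc4d4e5946afc22d354a3c0a25 (k8 c1367 c528 c761 c1443 c4371 c6 c109 c1236 (k8 c1235 c907 c4343 c4449 c968 c1092 c4479 c4476 (k8 c4654 c4439 c4642 c4655 c1148 c4653 c4652 c4650 (k2 c358 c769 k0)))) (by decide +kernel)
def c4658 : PP 8 4 T 0x80000000000000000002000008000110000000000002002 := rS 0xf02510d0079041d8b719 (k8 c4449 c38 c961 c751 c600 c1890 c237 c1293 (k2 c4472 c4434 k0)) (by decide +kernel)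
def c4659 : PP 8 4 T 0x80000002000000000002000010000010000000024002010 := rS 0x129e0340c828ee5a2b8008a030b8be1233 (k8 c953 c4317 c783 c519 c2963 c1220 c4461 c4658 (k8 c4476 c1091 c759 c309 c569 c4465 c1309 c4434 k0)) (by decide +kernel)
def c4660 : PP 8 4 T 0x40000080000002000000000000200008000000040000024000010 := rS 0x258d1e03917818040905804f4318ac4c6641 (k8 c1851 c953 c4343 c4390 c1879 c825 c2718 c702 (k8 c3240 c4461 c4462 c2772 c3151 c4469 c4470 c4434 (k1 c1309 k0))) (by decide +kernel)
def c4661 : PP 8 4 T 0x80000002000001000000400400000000040000020002000 := rS 0x162822e9a4ac772d9b40a596986c828f (k8 c761 c1851 c690 c4371 c1235 c528 c4659 c968 (k4 c1092 c4476 c4660 c4655 (k2 c4657 c1148 (k1 c1977 k0)))) (by decide +kernel)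
def c4662 : PP 8 4 T 0x80000002000001000000400000000000040000020002000 := rS 0x58e0449058c34bc8f8ac4d4e5946afc22d3 (k8 c4371 c6 c109 c1236 c1235 c907 c4343 c4390 (k8 c761 c4661 c4382 c544 c4486 c4650 c769 c358 (k1 c4647 k0))) (by decide +kernel)
def c4663 : PP 8 4 T 0x80000002000001000000400000000000000000020002000 := rS 0x14a5f862a4462547808da56349dcb67b41984ba81031c09a271b34c1ebd10a9d7e59 (k8 c1235 c109 c907 c11 c108 c5 c4371 c4662 (k8 c320 c325 c1407 c1408 c3384 c3382 c503 c509 (k8 c706 c495 c3004 c825 c4476 c961 c1018 c800 (k4 c224 c792 c1443 c4467 (k2 c4382 c4385 (k1 c2119 k0)))))) (by decide +kernel)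
def c4664 : PP 8 4 T 0x20000000000000000001080081002000001000800054040000000000000000000000 := rS 0x21d429fa5a8d8697 (k8 c4631 c1213 c988 c4428 c4384 c4329 c1632 c4635 k0) (by decide +kernel)
def c4665 : PP 8 4 T 0x20000000000000000005080011002000001000800054040800000000100000100000 := rS 0x28d0eaba5c4d429f (k8 c4384 c4329 c4343 c4456 c1943 c1903 c4526 c4635 k0) (by decide +kernel)
def c4666 : PP 8 4 T 0x20000000000000004415090010400000400000000000000100008000000020000000 := rS 0x16b43512ae94b71445e2b1954a853ea5 (k8 c4385 c4384 c4329 c1443 c4449 c4390 c4355 c1180 (k4 c3172 c4494 c1572 c4545 (k2 c4393 c1435 (k1 c4492 k0)))) (by decide +kernel)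
def c4667 : PP 8 4 T 0x1000000000000000000000000015400000020014000000000810000020001600 := rS 0x508fb053fad5922b4b9c82475 (k8 c1575 c1062 c1061 c3055 c1640 c586 c3507 c514 (k4 c4408 c1419 c4483 c4561 k0)) (by decide +kernel)
def c4668 : PP 8 4 T 0x20000000000000000000010000000000000000024054100000002000000000000200 := rS 0xa364c416e7f3ec14e85430a84be9f (k8 c4384 c4382 c4329 c4325 c234 c235 c4406 c1691 (k4 c595 c3673 c4478 c587 (k2 c4337 c2118 k0))) (by decide +kernel)
def c4669 : PP 8 4 T 0x20000000000000000001080040000000000000002000008800000000100000100000 := rS 0x3299c56ab7296cecad429ecd2a947b0d3863 (k8 c964 c960 c1214 c2965 c1443 c44 c1227 c1442 (k8 c2950 c961 c38 c4290 c1943 c293 c4555 c701 (k1 c4665 k0))) (by decide +kernel)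
def c4670 : PP 8 4 T 0x1000000000000000000000000015400000020004000000000810000020001600 := rS 0xc872 (k2 c1061 c4667 (k1 c1648 k0)) (by decide +kernel)
def c4671 : PP 8 4 T 0x20000000000000000000010000000000000000024004140000002000000000000204 := rS 0x33994e854 (k4 c234 c235 c1647 c592 (k1 c4668 k0)) (by decide +kernel)
def c4672 : PP 8 4 T 0x20000000000000000011080040000000000000002000008000050000000000000000 := rS 0x2a521fa9d5acb67b0da251168ec160d429ecd26b1abf52695488f410000286de1192298c061c0fa7042b9401751e6f3c9c0ec5b (k8 c38 c961 c1891 c600 c1350 c2965 c1417 c1890 (k8 c3448 c2964 c960 c3090 c4466 c2963 c964 c3089 (k8 c4449 c4472 c4291 c694 c4461 c751 c4671 c4327 (k8 c2966 c3092 c4380 c3293 c70 c44 c1227 c1442 (k8 c4663 c566 c4670 c2917 c4435 c4298 c1214 c3398 (k4 c3804 c2950 c4330 c4666 (k2 c2115 c384 (k1 c4669 k0)))))))) (by decide +kernel)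
def c4673 : PP 8 4 T 0x20000000000000000021080040000000000000002000008000000000000000000000 := rS 0xcea332a5d0eaba5a853f132dab52676429ecd2a947b0d3863 (k8 c964 c960 c1214 c2965 c1443 c44 c1227 c1442 (k8 c961 c3092 c2950 c38 c4341 c4384 c4329 c4429 (k4 c1674 c1635 c1253 c701 (k2 c4526 c920 (k1 c4635 k0))))) (by decide +kernel)
def c4674 : PP 8 4 T 0x2000008000080000000000000000 := rS 0x102828365b3d9a4061c0f9d93821 (k8 c2964 c960 c961 c3090 c4466 c2963 c44 c1227 (k4 c38 c335 c1887 c694 (k2 c566 c4461 k0))) (by decide +kernel)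
def c4675 : PP 8 4 T 0x2100000000800000008000020000000020000000 := rS 0x46209 (k4 c3058 c1912 c751 c4596 k0) (by decide +kernel)
def c4676 : PP 8 4 T 0x20000000000000000001080040000000000000002000008000000000000000000000 := rS 0x18a43208703e214e1d932a5 (k8 c4385 c1930 c961 c960 c2964 c3090 c4466 c4675 (k2 c4674 c4673 (k1 c4672 k0))) (by decide +kernel)
def c4677 : PP 8 4 T 0x20000000000000000000080040000000000000002000008000000000000000000000 := rS 0x50944673ec14cac93f9cd0c8b5bb35806330a84be9f3d9a4f25b65bf4ba8f5c9c10076 (k8 c961 c1890 c1891 c3448 c2965 c1417 c4380 c3804 (k8 c38 c600 c44 c1227 c4384 c4382 c4329 c4325 (k8 c964 c4676 c1989 c1748 c1713 c1892 c1621 c1461 (k8 c587 c700 c4410 c1420 c921 c2118 c4483 c4393 k0)))) (by decide +kernel)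
def c4678 : PP 8 4 T 0x20000000000000000000080000000000000000002000008000000000000000000000 := rS 0x1d94d8a3d2a22cea62618fd826732a5d5c0800014a2d10dbc082432280c38a94287d12074e23c427b4a9d8b7194ca94d26b (k8 c70 c44 c4385 c1930 c4449 c38 c961 c2966 (k8 c1227 c2964 c2965 c960 c3004 c3952 c3090 c1442 (k8 c1443 c4466 c2963 c3089 c4674 c4675 c4472 c4291 (k8 c4298 c4435 c694 c4461 c751 c4677 c4631 c1777 (k8 c2988 c1714 c1179 c1213 c4664 c1688 c1769 c755 (k4 c235 c1096 c253 c1601 (k1 c2115 k0))))))) (by decide +kernel)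
def c4679 : PP 8 4 T 0x10400000000000000000000000000000100000000800100004000000000000000000000 := rS 0x1369d (k2 c1091 c1888 (k1 c4488 k0)) (by decide +kernel)
def c4680 : PP 8 4 T 0x1020000000000000000000010080000800000000002000080000000000000000000000 := rS 0x1f4ff04599cd6f175199cea632eb11286148a84be9f34c4cca6b (k8 c70 c1777 c4341 c44 c4384 c4382 c4329 c4327 (k8 c4325 c868 c869 c2866 c2867 c4544 c2872 c2873 (k8 c4418 c1746 c1616 c664 c4481 c4313 c4409 c4537 k0))) (by decide +kernel)
def c4681 : PP 8 4 T 0x80002000000001400000000100054000000000005411800 := rS 0x3d026f (k4 c3334 c1361 c305 c2108 k0) (by decide +kernel)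
def c4682 : PP 8 4 T 0x1402004000000054000000000005411800 := rS 0x1e81 (k2 c1963 c305 (k1 c2108 k0)) (by decide +kernel)
def c4683 : PP 8 4 T 0x40000000000000001000000000000000000000000000000014000480000000000000000000000000000 := rS 0x11705 (k2 c4408 c1771 (k1 c4485 k0)) (by decide +kernel)
def c4684 : PP 8 4 T 0x40000000000000021000000000000004000010000040054414000408000000000000000000000000000 := rS 0x5bad4e67d48a851a9f (k8 c4384 c4383 c4329 c4327 c4634 c4683 c1347 c1077 (k1 c2125 k0)) (by decide +kernel)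
def c4685 : PP 8 4 T 0x20000000000000000001080080000000000000002000000000000000000000000000 := rS 0x16eb5662219e803728d1ea925bc02e1927934140922834721c0f86c22210021c0e0542a55862f2e80cf07b4e26d731548a851a9f35c2506612d164ee57899a6334b4ba4d32a5 (k8 c4385 c1930 c1779 c4631 c4428 c4449 c44 c4341 (k8 c4678 c4679 c697 c4476 c4325 c640 c4317 c70 (k8 c4384 c4383 c4329 c4327 c4390 c1478 c4680 c4488 (k8 c705 c969 c2971 c2972 c2755 c1213 c973 c1442 (k8 c2583 c2452 c1964 c4461 c831 c606 c2581 c4123 (k8 c4466 c1139 c4663 c1220 c1057 c759 c1975 c1440 (k8 c1959 c2547 c4465 c4434 c4681 c970 c988 c4682 (k4 c1349 c3335 c4684 c2044 (k2 c1438 c4546 (k1 c2125 k0)))))))))) (by decide +kernel)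
def c4686 : PP 8 4 T 0x20000000000000000000080080000000000000002000000000000000000000000000 := rS 0x14ca2130b865a23f1982812450e07caa150dc10420044a2c0e0533a1c5e033c26d28731da718ac04bd2e125a2b96532a5 (k8 c4385 c1930 c697 c4678 c4476 c4317 c4428 c4631 (k8 c4685 c111 c1715 c3528 c3564 c1714 c869 c969 (k8 c2971 c2755 c1965 c2975 c2583 c2452 c605 c680 (k8 c4461 c831 c4485 c2581 c646 c4406 c4123 c4466 (k8 c1220 c1057 c759 c2958 c1179 c1711 c1959 c2547 (k4 c571 c1593 c1983 c2109 k0)))))) (by decide +kernel)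
def c4687 : PP 8 4 T 0x10002000000000000054000000000000100000000000005500800 := rS 0xa43f098ecaa73 (k4 c1620 c307 c1580 c571 (k2 c398 c2109 (k1 c1983 k0))) (by decide +kernel)
def c4688 : PP 8 4 T 0x10002000400000000054000000000000100000000000005400802 := rS 0x7582850e717 (k4 c4420 c1620 c4687 c4307 (k2 c2570 c4481 k0)) (by decide +kernel)
def c4689 : PP 8 4 T 0x20000000000000010402000400000410410042408000080100000000000001400802 := rS 0x145105cad52e723aa1916b749c5d22a146a7cf61b (k8 c2581 c99 c4384 c4383 c4329 c4327 c4420 c1661 (k8 c1748 c1713 c4688 c1693 c1965 c929 c1348 c1086 (k2 c4487 c2125 (k1 c4337 k0)))) (by decide +kernel)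
def c4690 : PP 8 4 T 0x80000000000000220000000000000004400000011000000000000000000000000000000000000000000 := rS 0x156a350a9d3ea5 (k4 c4385 c4384 c4330 c4329 (k2 c4337 c4415 (k1 c4545 k0))) (by decide +kernel)
def c4691 : PP 8 4 T 0x21000000000000004400010011002010014040488014104000000000000000000000 := rS 0x7da1a896ec93344526c5a52d52f0530a45428d4fa3ce2fd (k8 c4378 c45 c970 c4384 c4383 c4329 c4327 c4325 (k8 c4408 c1083 c1619 c4683 c4429 c1238 c4690 c4478 (k4 c632 c1078 c2125 c4393 (k2 c1353 c4483 k0)))) (by decide +kernel)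
def c4692 : PP 8 4 T 0x1400001000000000010000014050080040054040000000101100000000100005400802 := rS 0x3260a14099d62c533ead68711 (k8 c4337 c4393 c1436 c1353 c4179 c4492 c4417 c570 (k4 c2109 c4307 c2609 c4483 k0)) (by decide +kernel)
def c4693 : PP 8 4 T 0x20000000000000014400000000002008000000000000000555000000000020000000 := rS 0x23b1d9a2a550953ea5 (k8 c4385 c4384 c4381 c1239 c1030 c1948 c290 c1642 (k1 c2116 k0)) (by decide +kernel)
def c4694 : PP 8 4 T 0x520000000000000014400014050042040400000000000000155000000100020000000 := rS 0x1165a24ca69150a353e95 (k8 c972 c4384 c4383 c4329 c4327 c4179 c4693 c2125 (k2 c4487 c4419 k0)) (by decide +kernel)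
def c4695 : PP 8 4 T 0x1421000000000000004400014051002040054040408000101051000000100025400802 := rS 0x52d271051a55a24b28bc11efd (k8 c4378 c970 c4465 c4435 c4434 c4298 c972 c4692 (k4 c4694 c4413 c4690 c4684 k0)) (by decide +kernel)
def c4696 : PP 8 4 T 0x20000000000000000000080000000000040002002000000000000000000000000000 := rS 0x15098fca6741db1622968aa9d862d5b924aa7343ae5828f28b4566cb4033cfea94a9755a654498d5e77899a632fd3712de1090b864124f228bc9a39488281a1c0fa6cf6213586c220001a70b4572ca654a0542afd0661 (k8 c4325 c640 c109 c603 c2583 c4385 c1930 c697 (k8 c4678 c4476 c601 c2971 c4461 c606 c2581 c70 (k8 c2968 c99 c865 c4123 c4466 c4663 c759 c4327 (k8 c1139 c1975 c2755 c1220 c1440 c1057 c1959 c2547 (k8 c4317 c4465 c4434 c4682 c4378 c4449 c44 c4341 (k8 c4679 c4686 c964 c681 c2585 c2953 c2972 c972 (k8 c4681 c3434 c3335 c1349 c3869 c2649 c4298 c4435 (k8 c970 c4689 c1478 c1964 c4691 c307 c4199 c1077 (k8 c2920 c2056 c4330 c4390 c4695 c4335 c1253 c1044 (k4 c929 c4179 c4666 c571 (k2 c591 c2109 k0)))))))))))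 (by decide +kernel)
def c4697 : PP 8 4 T 0x20000000000000000000080000000000000002002000000000000000000000000000 := rS 0x5aa5d4693622ae968a5b9cd0eb960b2d9e803fa3cdca92892da2f00b8649e4d050248a0d1c8703e1b0888400951797406ad4d9950a9c59814f6bf48a851a9f35c2506612d164ee57899a532a58c98d12af (k8 c4686 c681 c964 c4449 c4385 c1930 c44 c4341 (k8 c4678 c4679 c697 c4476 c4325 c640 c4317 c70 (k8 c4384 c4383 c4329 c4327 c109 c99 c2583 c2649 (k8 c601 c603 c2585 c865 c2953 c2971 c2972 c2755 (k8 c972 c4461 c2968 c606 c2581 c4123 c4466 c1139 (k8 c4663 c1220 c1057 c759 c1975 c1440 c1959 c2547 (k8 c4465 c4298 c4434 c4435 c4681 c4682 c970 c3434 (k8 c1349 c3335 c3869 c4689 c1478 c1964 c4691 c1077 (k8 c4696 c4427 c1672 c605 c1239 c4526 c1253 c1788 (k1 c2125 k0)))))))))) (by decide +kernel)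
def c4698 : PP 8 4 T 0x400000080000000000000008000400 := rS 0x1207 (k2 c2672 c425 (k1 c4462 k0)) (by decide +kernel)
def c4699 : PP 8 4 T 0x20000000000000000000080000000000000000002000000000000000000000000000 := rS 0x4c2788c6a4b780c48a3910018122f0d8cc16000e80c0a1754a68f49d3c9dd625a2b966270934c644e615389532a5 (k8 c4385 c1930 c4381 c4330 c4325 c4323 c4449 c44 (k8 c4317 c4341 c697 c4678 c4476 c624 c4679 c4697 (k8 c969 c4482 c4488 c1444 c2474 c2688 c2865 c2730 (k8 c4461 c567 c2863 c4698 c783 c4153 c4462 c495 (k8 c1137 c1218 c317 c4469 c4434 c1309 c833 c1440 (k2 c2111 c1975 k0)))))) (by decide +kernel)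
def c4700 : PP 8 4 T 0x420000000000000000000080000000000000000000100080000000000000000000000 := rS 0x5c37a0610a72f9ad32a5429ed529d36a0d6261 (k8 c4325 c624 c1977 c4699 c968 c1444 c704 c1442 (k8 c4385 c1930 c581 c4382 c4330 c4479 c4439 c1349 (k2 c2119 c841 k0))) (by decide +kernel)
def c4701 : PP 8 4 T 0x10000000000000000000000000000000800000000000200000000140000000000000002 := rS 0x789045c21 (k4 c2823 c756 c1849 c4432 (k1 c4472 k0)) (by decide +kernel)
def c4702 : PP 8 4 T 0x420000000000000000000080000000000000000000000080000000000000004000400 := rS 0x3c0942f118089e330090c8a4d401d862684d2140a9d3dc644ea712a654a6d (k8 c4699 c4385 c1930 c4381 c4330 c4323 c4449 c704 (k8 c968 c574 c1442 c4488 c4700 c1879 c845 c1890 (k8 c3802 c1090 c1887 c4701 c2842 c1360 c4461 c2833 (k4 c2835 c4524 c4469 c4434 k0)))) (by decide +kernel)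
def c4703 : PP 8 4 T 0x10400000000000000000000000000000100000000801000040000000000000000000000 := rS 0x1369d (k2 c1092 c1889 (k1 c4488 k0)) (by decide +kernel)
def c4704 : PP 8 4 T 0x421000000000000004020014055000040414000400000008000000000000000000000 := rS 0x124a339ad52b4b48a851a9f (k8 c4384 c4383 c4329 c4327 c4429 c1786 c1788 c4683 (k2 c4526 c2125 (k1 c1069 k0))) (by decide +kernel)
def c4705 : PP 8 4 T 0x10021000000000000004415014055040040414000400000008000000000000000000000 := rS 0x9549ad62c736652d22a153a353ea5 (k8 c4385 c4384 c4383 c4330 c4329 c4327 c4545 c2128 (k4 c4683 c4494 c1438 c1069 (k2 c4418 c2125 k0))) (by decide +kernel)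
def c4706 : PP 8 4 T 0x421000002000000004405094055000040414000400000008000051400100000000000 := rS 0x3e8b14d6b4388a8a2b1922b44a2c5 (k8 c4704 c4435 c4298 c4295 c4449 c4390 c4705 c4337 (k4 c4393 c1436 c4179 c4492 (k2 c2115 c4356 k0))) (by decide +kernel)
def c4707 : PP 8 4 T 0x20000000000000004402010055000040400000000000000000000000000000000000 := rS 0x12b1151335271750a9d3ea5 (k8 c4385 c4384 c4330 c4329 c4420 c1660 c1989 c2128 (k2 c4337 c858 (k1 c4487 k0))) (by decide +kernel)
def c4708 : PP 8 4 T 0x421000002000000000004094055000040010202400000008000051400100000000000 := rS 0x21d82cb479c59e6e (k8 c1963 c3335 c1422 c801 c3869 c4707 c1964 c4706 k0) (by decide +kernel)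
def c4709 : PP 8 4 T 0x20000000000000a0000000000010042000000000010000200000005420000 := rS 0x870a94caa13459cc907d23b15a251 (k8 c4435 c4298 c3270 c3305 c3337 c1202 c3085 c605 (k4 c611 c347 c372 c367 (k2 c1965 c2109 k0))) (by decide +kernel)
def c4710 : PP 8 4 T 0x420000002000000000000080151000040000200400200000000051600100004420200 := rS 0x29528268b2a854e47d1fa1d6cc15ca25a2512686556c365a3ce2563fb3cdc783d9163309 (k8 c4437 c4449 c4295 c1224 c4482 c1963 c3335 c3434 (k8 c1961 c1422 c801 c3869 c3968 c3866 c4540 c1974 (k8 c4435 c4298 c2040 c4709 c4707 c4708 c1964 c3077 (k8 c1627 c1077 c384 c347 c1771 c1560 c4683 c2109 (k1 c4456 k0))))) (by decide +kernel)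
def c4711 : PP 8 4 T 0x40000000000000001001000000000000000008100000000004440408000000000000000000000000000 := rS 0x449c8fb43 (k4 c4424 c1627 c1077 c4529 (k1 c4683 k0)) (by decide +kernel)
def c4712 : PP 8 4 T 0x100000000000000000000000000000000000000000000000800000001110000000000 := rS 0x56e5 (k2 c4290 c292 (k1 c4468 k0)) (by decide +kernel)
def c4713 : PP 8 4 T 0x40000000000000101000002000000000000000000000050014002400000008400000000000005440200 := rS 0x75454582a9339955a251 (k8 c4435 c4298 c4151 c4683 c1069 c385 c4487 c2109 (k2 c4417 c604 k0)) (by decide +kernel)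
def c4714 : PP 8 4 T 0x2000000000000000000000880000000000240000000040000000005400220 := rS 0xa954265345a250e73318a580ac68944f645 (k8 c4295 c1224 c4435 c4298 c932 c933 c2747 c2803 (k8 c1084 c1905 c3891 c1713 c1982 c531 c267 c385 (k1 c2109 k0))) (by decide +kernel)
def c4715 : PP 8 4 T 0x420000002000000000000080041000040000200400240000000050601400004004220 := rS 0x146b5499899865442e56e5309a55828714d2e22ac3fa3c206e38bf522a146a7cd6830bb4c44a75289c9a331292c9eb10c95986783d91633090697c5a3d (k8 c2188 c2356 c4382 c528 c4437 c4449 c4295 c1224 (k8 c4482 c3968 c1961 c4540 c1146 c4297 c4434 c4381 (k8 c823 c1974 c4323 c4385 c4330 c2111 c4372 c1830 (k8 c2000 c43 c4384 c4383 c4329 c4327 c4380 c1422 (k8 c1963 c4463 c801 c3434 c4710 c4338 c4458 c780 (k8 c1905 c1987 c2783 c531 c4712 c4711 c1478 c4713 (k4 c556 c2044 c2041 c1070 (k2 c1438 c819 (k1 c2125 k0))))))))) (by decide +kernel)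
def c4716 : PP 8 4 T 0x420000002000000000000080000001000000000000200000000040000400014000401 := rS 0x40de814b834083b33abcac193c214f608038e03c0f1b885a622189362a271297cee5b36aa6123341a9c2e414d2654b192293c6a4b (k8 c4434 c1309 c4297 c4295 c4449 c4385 c1930 c4488 (k8 c1848 c1830 c4330 c2000 c823 c4437 c1444 c4699 (k8 c4702 c4703 c4382 c4381 c4323 c4390 c1974 c1966 (k8 c2111 c4372 c833 c1410 c1328 c4466 c4470 c1098 (k8 c4462 c1224 c1442 c4482 c4540 c1961 c2786 c2928 (k8 c3062 c1066 c528 c4714 c4715 c1349 c2108 c345 k0)))))) (by decide +kernel)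
def c4717 : PP 8 4 T 0x200040000080000000010000200 := rS 0x570f1e00a21 (k4 c231 c2189 c237 c4466 (k2 c1066 c1961 k0)) (by decide +kernel)
def c4718 : PP 8 4 T 0x420000002000000000000080000001000000000000200000000000000400014000401 := rS 0x1350a231c9c440580f95c0a06049086a4b2789d4e252fa94b633 (k8 c823 c4702 c4385 c4382 c4381 c4330 c4323 c4297 (k8 c4434 c1309 c4716 c4717 c4462 c527 c1017 c1098 (k8 c4476 c4466 c536 c360 c833 c1441 c1975 c4524 k0))) (by decide +kernel)
def c4719 : PP 8 4 T 0x800000000000200040000000002000010000401 := rS 0x481c841e (k4 c1967 c1966 c1098 c4717 (k1 c4462 k0)) (by decide +kernel)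
def c4720 : PP 8 4 T 0x420000000000000000000080000001000000000000200000000000000400014000401 := rS 0x788cc629a4ca96325b (k8 c4702 c4449 c4385 c1930 c4488 c4719 c823 c4718 (k1 c4469 k0)) (by decide +kernel)
def c4721 : PP 8 4 T 0x10000000000000000000000000000000000000000400200000000000004800200800000 := rS 0x7b3c914af09 (k4 c4437 c2777 c440 c1961 (k2 c521 c4482 k0)) (by decide +kernel)
def c4722 : PP 8 4 T 0x420000000000000000000080000001000000000000200000000000000000014000401 := rS 0x3c9ecae070f0840a160cbc45c772d9b532a58c9ae1233 (k8 c823 c4437 c43 c4449 c4385 c1930 c4699 c4702 (k8 c4703 c4720 c4432 c1871 c4465 c532 c4721 c4466 (k4 c1098 c1066 c520 c1961 (k1 c4482 k0)))) (by decide +kernel)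
def c4723 : PP 8 4 T 0x420000000000000000000080000001000000000000200000000000000000014000400 := rS 0x440490de2412c0605c212b80c005b4d2654b19 (k8 c4449 c4385 c1930 c4488 c4702 c4722 c1 c2711 (k8 c830 c756 c757 c4476 c1849 c4432 c1953 c1106 (k2 c4472 c256 k0))) (by decide +kernel)
def c4724 : PP 8 4 T 0x10000000000000000000000000000000100000004000100020000000000800010000400 := rS 0x3c40001140a060480c86f1 (k8 c4432 c1953 c796 c1106 c4462 c527 c1217 c4461 (k2 c4472 c487 (k1 c1103 k0))) (by decide +kernel)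
def c4725 : PP 8 4 T 0x20000000000000000000080001000800000004400100020000000000000000000002 := rS 0x1a42206971026b8420c6a790f00e2b1930a9c4a5f46a94da85 (k8 c1442 c4699 c4385 c4383 c4382 c4381 c4330 c4325 (k8 c4449 c4390 c1 c487 c2433 c1099 c1976 c4482 (k4 c1968 c4439 c2119 c1288 (k2 c752 c4522 (k1 c4372 k0))))) (by decide +kernel)
def c4726 : PP 8 4 T 0x20000000000000010000405 := rS 0x180809 (k4 c1106 c4461 c4462 c527 k0) (by decide +kernel)
def c4727 : PP 8 4 T 0x400000001000000000000000000000800000004000000000000000000400000000508 := rS 0x33189143e06 (k4 c4462 c222 c1217 c1967 (k2 c863 c4469 k0)) (by decide +kernel)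
def c4728 : PP 8 4 T 0x400000001000000000000000000000800000004000000060000000000400000000408 := rS 0x6043198784208 (k4 c4727 c231 c1105 c862 (k2 c2132 c4469 (k1 c1966 k0))) (by decide +kernel)
def c4729 : PP 8 4 T 0x20000000000000000000080001000800000000000000020044000004400000000208 := rS 0x312690c461e8a89d4e252fa94de8d (k8 c4383 c1107 c4385 c4382 c4381 c4330 c4323 c4390 (k4 c1105 c4547 c2132 c1974 (k2 c1966 c2111 k0))) (by decide +kernel)
def c4730 : PP 8 4 T 0x420000000000000000000080000001000000000000000000000000000000014000400 := rS 0x98231c8c4401f048d4964f19bc0040117960ae7b34aa5342753894ee5b36a654b19 (k8 c4449 c4385 c1930 c4699 c4702 c4703 c4381 c4330 (k8 c4323 c4488 c1444 c4723 c4055 c804 c4476 c4724 (k8 c4725 c4726 c4728 c4293 c4297 c4434 c1309 c4729 (k4 c222 c4466 c1967 c360 (k2 c833 c2111 (k1 c1975 k0)))))) (by decide +kernel)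
def c4731 : PP 8 4 T 0x2000000000001000020000000000000014000401 := rS 0xcbc42e32228803f0901024f49b (k8 c105 c1234 c3249 c4726 c4319 c222 c4466 c441 (k4 c966 c521 c4293 c255 (k1 c4465 k0))) (by decide +kernel)
def c4732 : PP 8 4 T 0x20000000000000000000080000002000000000000100040000000000000014000401 := rS 0x40de818403c1a4b0b93c9a197881060440f0210a831081cf6b12b1657e911297d4a6d (k8 c4699 c4385 c4382 c4381 c4327 c109 c4731 c4476 (k8 c1147 c1227 c1017 c799 c1977 c1442 c4462 c4466 (k8 c1232 c1233 c1066 c4295 c257 c379 c298 c1911 (k8 c1914 c528 c264 c4465 c4439 c1349 c2108 c345 k0)))) (by decide +kernel)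
def c4733 : PP 8 4 T 0x2000000000000000040000000000000010000002 := rS 0x72c078ae21 (k4 c2968 c750 c4466 c4476 (k2 c3247 c486 k0)) (by decide +kernel)
def c4734 : PP 8 4 T 0x420000000000000000000080000000000000000000000000000000000000014000400 := rS 0x3e213d158d05900a70b66d (k8 c4699 c4702 c4730 c4733 c4731 c4732 c4476 c825 (k2 c2813 c3243 (k1 c4466 k0))) (by decide +kernel)
def c4735 : PP 8 4 T 0x80000000000000500000000000014000000000005410800 := rS 0x60d50a7b279141e6f (k8 c1349 c305 c438 c1440 c702 c1442 c1309 c2108 (k1 c569 k0)) (by decide +kernel)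
def c4736 : PP 8 4 T 0x20000000000000004404014051000050404000000008110000000000000000000000 := rS 0x2d198a349aad22a153a353ea5 (k8 c4385 c4384 c4383 c4330 c4329 c4327 c1612 c1609 (k4 c818 c2128 c2125 c1438 k0)) (by decide +kernel)
def c4737 : PP 8 4 T 0x4504002000000000055510000000000000000020000000000000 := rS 0xfecd (k2 c1438 c3296 (k1 c2124 k0)) (by decide +kernel)
def c4738 : PP 8 4 T 0x54000000000000400081400000005500800 := rS 0x689542651 (k4 c1957 c571 c306 c340 (k1 c2109 k0)) (by decide +kernel)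
def c4739 : PP 8 4 T 0x20000000000000004404015051000050454000000000110400080400000005400808 := rS 0x5144127171e054c69150a353e2b (k8 c2244 c4384 c4383 c4329 c4327 c4736 c383 c4738 (k4 c4416 c1654 c4487 c2125 (k1 c4337 k0))) (by decide +kernel)
def c4740 : PP 8 4 T 0x20000000000000000404080051000050454500000000110400080420000005402808 := rS 0x3442ac023ae16a45429ed9ec93e9c16e51 (k8 c1957 c1037 c568 c3292 c2542 c3301 c702 c1442 (k8 c438 c4737 c4739 c3305 c1478 c651 c1711 c4687 k0)) (by decide +kernel)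
def c4741 : PP 8 4 T 0x420000000000000000404080051002040044100000040010400080420000004402808 := rS 0x662d146935c9d5574b82a216ea153a353ea50ca0d629137b3cba8f2b16cee6d349ed6695 (k8 c972 c2643 c702 c825 c4699 c1092 c968 c4476 (k8 c970 c4655 c3301 c1349 c4327 c1147 c1977 c309 (k8 c4385 c4384 c4383 c4330 c4329 c1037 c4740 c4314 (k8 c4457 c1945 c597 c4548 c1239 c4526 c2125 c2128 (k1 c1438 k0))))) (by decide +kernel)
def c4742 : PP 8 4 T 0x1001000010000000000000000020000000000000400000000000000400000 := rS 0xa34b (k2 c4457 c1862 (k1 c4475 k0)) (by decide +kernel)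
def c4743 : PP 8 4 T 0x20000000000000004400010051002040000000000000000200180000000000000000 := rS 0x882aa2e93603151e95 (k8 c972 c970 c1595 c1956 c1238 c4420 c4707 c4487 (k1 c4415 k0)) (by decide +kernel)
def c4744 : PP 8 4 T 0x420000000000000000000080051002040000000000040010000090008010004002808 := rS 0x5b9889265828b0fd1166d28a28968ae5ca3a29a54be45428ad168765b0d9ec72ea3cd27b649f4e0342520610f1268444e8358958b6910b864ee6d (k8 c4699 c1092 c309 c573 c4327 c968 c4476 c1147 (k8 c1977 c4323 c342 c376 c4293 c4465 c4439 c4735 (k8 c1955 c568 c3292 c2542 c702 c825 c970 c4655 (k8 c3424 c3301 c3966 c3859 c4440 c4322 c2244 c1442 (k8 c438 c4382 c972 c417 c4741 c4403 c1046 c1763 (k8 c4742 c4743 c4475 c4460 c4690 c2124 c4468 c4313 (k4 c554 c368 c4478 c1038 (k1 c4736 k0)))))))) (by decide +kernel)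
def c4745 : PP 8 4 T 0x40000000000000020000001000000000040000000040044400000000000000108010900010000000000 := rS 0x465b1496ad15ca55ca9150a353e37 (k8 c1414 c4384 c4383 c4329 c4327 c4403 c1576 c1046 (k4 c1763 c1579 c4475 c2125 (k2 c2037 c1587 k0))) (by decide +kernel)
def c4746 : PP 8 4 T 0x20000000000000000000084000040044400000000000000800004028000000000000 := rS 0x16ab94a8f5822c48a851a9f (k8 c4384 c4383 c4329 c4327 c416 c1983 c2288 c855 (k2 c1478 c1308 (k1 c2125 k0))) (by decide +kernel)
def c4747 : PP 8 4 T 0x20000000000000004004084080040050400000000000000000000000000000000000 := rS 0x18b175a2e5831948a851a9fa5a4d32a5 (k8 c4385 c1930 c1779 c4428 c4384 c4383 c4329 c4327 (k4 c4449 c1714 c1478 c2125 (k2 c4419 c1788 (k1 c4494 k0)))) (by decide +kernel)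
def c4748 : PP 8 4 T 0x420000000000000000000080011002040000000000040010000090108010004002808 := rS 0x112d1602502a2d29adc765151a4e96ae4ca948a3f45a1d868f67b1c684a40c21e24d0889d06b12b16d22170c9dcdab3 (k8 c2643 c4699 c1092 c309 c573 c4327 c968 c4476 (k8 c1147 c1977 c4323 c342 c376 c4293 c4465 c4439 (k8 c4735 c1955 c3424 c3301 c970 c3966 c4440 c4322 (k8 c2364 c438 c4385 c1930 c4744 c4428 c1779 c988 (k8 c1592 c4745 c1037 c4746 c983 c382 c4747 c973 (k2 c1711 c1985 (k1 c4687 k0))))))) (by decide +kernel)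
def c4749 : PP 8 4 T 0x420000000000000000000080000002000000000000000010000000000000014002000 := rS 0x897294426152ab44a62c1d98ce6c557a596629568e4ce8b43aa446c32520610f1268c8220213a0d62562da442e410c9dcda421007c8a0a (k8 c4734 c438 c1232 c4466 c967 c4699 c1092 c309 (k8 c1051 c573 c4327 c968 c4476 c1147 c1977 c4323 (k8 c798 c342 c966 c376 c4293 c4465 c4439 c4735 (k8 c3966 c2775 c1321 c4440 c4322 c2926 c360 c2952 (k8 c2776 c2643 c4748 c987 c1253 c1084 c817 c1043 (k8 c926 c417 c341 c307 c383 c571 c1957 c4285 (k2 c4742 c2109 k0))))))) (by decide +kernel)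
def c4750 : PP 8 4 T 0x1000000000000000010000080000000000040000400080400000205400808 := rS 0x1121572955a23c161cd8a8b43c202651 (k8 c1957 c571 c4465 c4440 c4322 c1253 c1084 c926 (k4 c927 c341 c307 c4285 (k2 c2279 c4742 (k1 c2109 k0)))) (by decide +kernel)
def c4751 : PP 8 4 T 0x20000001000000004404000051000050400000000000110400080420200005400808 := rS 0x5ca262cb5688f5ca3f45a1e10b7 (k8 c1037 c4465 c4440 c4322 c2364 c4285 c329 c457 (k4 c1308 c4471 c4742 c4361 (k1 c4739 k0))) (by decide +kernel)
def c4752 : PP 8 4 T 0x20000000000000010504080051000050454510000000110400080420000005500808 := rS 0x60ae16a853db3d6e51 (k8 c1957 c1037 c3301 c702 c1442 c4737 c4739 c4687 (k1 c1478 k0)) (by decide +kernel)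
def c4753 : PP 8 4 T 0x420000001000000010504080051002040000010000040010400080420000004400808 := rS 0xb423a8d26b9721d5574b82a21428d4fa0d629145a1cde81842dd661516a54ba562d9a4f6cf47864ee6d (k8 c4699 c1092 c309 c970 c3301 c702 c825 c968 (k8 c4476 c4655 c972 c4751 c382 c1187 c1037 c4465 (k8 c4439 c1349 c4440 c4322 c4327 c1147 c1977 c4384 (k8 c4383 c4329 c4752 c4314 c4457 c1945 c597 c4742 (k4 c4548 c1239 c4526 c4404 (k2 c2125 c1307 k0)))))) (by decide +kernel)
def c4754 : PP 8 4 T 0x420000000000000000100080040002000000010000000010000000400000204400800 := rS 0xb55ca8d26c460aae96d04badd428d4f9155a6715b2d868f5488d9e342520610f126844042741ac4ac5b48864ee6d21254a632 (k8 c966 c417 c972 c967 c4699 c1092 c309 c4327 (k8 c968 c4476 c1147 c1977 c4323 c798 c342 c376 (k8 c4293 c4465 c4439 c4735 c1955 c3301 c2775 c1321 (k8 c970 c3966 c3859 c2244 c2926 c2952 c438 c4384 (k8 c4383 c4329 c1037 c4750 c4753 c4426 c1670 c1711 (k4 c341 c1239 c4526 c1478 (k2 c1788 c2125 k0))))))) (by decide +kernel)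
def c4755 : PP 8 4 T 0x420000000000000000000080040002000000000000000010000000000000014000000 := rS 0x2491e862c3f4459b4a28a25a2b94bb947453429ec52ad15a2d0ea911b2d9ec71a109927d7e035a64a26a0d629108808ac5b1383cde81843c464200f91432773685c820a (k8 c4734 c1051 c573 c4699 c1092 c309 c438 c1232 (k8 c4466 c966 c4293 c4465 c4439 c1349 c305 c4323 (k8 c968 c4476 c798 c342 c4327 c1147 c1977 c376 (k8 c4735 c4375 c4749 c4463 c4379 c4305 c967 c1955 (k8 c3424 c3301 c3859 c2775 c1321 c4440 c4322 c2244 (k8 c2952 c2776 c702 c1442 c417 c4754 c4403 c1043 (k8 c1046 c1763 c4742 c4743 c4475 c4460 c4690 c2124 (k4 c4468 c4392 c1311 c368 (k1 c4473 k0))))))))) (by decide +kernel)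
def c4756 : PP 8 4 T 0x420000000000000000000080000002000000000000000010000000000000014000000 := rS 0x112d10ab005a9429adc76b328a8d2697a5ab98ecf478d186a92521d028b84135e23f08a0c7229190088423588802e192b07c82772d89d2299529b48a0a (k8 c4734 c438 c4699 c4385 c1930 c4327 c4323 c968 (k8 c1092 c1051 c1232 c4476 c309 c573 c4466 c1147 (k8 c2775 c967 c798 c966 c2776 c360 c1977 c342 (k8 c2364 c4293 c376 c4465 c4322 c4439 c4440 c4735 (k8 c1321 c3966 c1955 c970 c3301 c3424 c4755 c4428 (k8 c4631 c1779 c988 c1592 c1187 c4745 c1037 c4746 (k4 c4747 c983 c973 c382 (k2 c1711 c1985 (k1 c4687 k0))))))))) (by decide +kernel)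
def c4757 : PP 8 4 T 0x420000000000000000000080080000800000000000000010000000000000000000000 := rS 0x1a0b457 (k4 c2786 c4476 c4700 c2844 k0) (by decide +kernel)
def c4758 : PP 8 4 T 0x40000000000000001000000000000010000000000000000054000000000001500000000000005440000 := rS 0x2904 (k2 c4485 c2109 (k1 c4308 k0)) (by decide +kernel)
def c4759 : PP 8 4 T 0x40000000000010000000000000000000015000000000000000000000000000400154400000000000000 := rS 0x1161e344a2f0 (k4 c4472 c4435 c4298 c2115 (k2 c4494 c4416 k0)) (by decide +kernel)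
def c4760 : PP 8 4 T 0x8110000014900000050020045580000000000000000000000 := rS 0x1466564a5126b7 (k4 c1167 c1127 c2059 c587 (k2 c579 c859 (k1 c2118 k0))) (by decide +kernel)
def c4761 : PP 8 4 T 0x40000000000000020000000000000000000080040000800004000000200085400050400000005040800 := rS 0xa2a1324cb0539311863f0a98d147d3f99d82bd30a84be9f4ca942e0384a24de797e9759eb938200ecd128bc23245 (k8 c438 c4449 c4472 c4435 c4298 c845 c1890 c1891 (k8 c3448 c3398 c1418 c4380 c1961 c1350 c3952 c4437 (k8 c303 c1831 c4385 c1930 c4384 c4382 c4329 c4325 (k8 c108 c1892 c925 c1462 c4634 c4758 c1768 c718 (k8 c398 c4760 c4759 c1095 c4408 c1649 c1731 c4483 (k2 c2118 c4393 k0)))))) (by decide +kernel)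
def c4762 : PP 8 4 T 0x40000000000010000000000000000000015000000000000008000000000000400150400000000000800 := rS 0x7c75 (k2 c1692 c4759 (k1 c399 k0)) (by decide +kernel)
def c4763 : PP 8 4 T 0x40000000000000420000000000000000000080441000800000000000000085400050400000005040800 := rS 0x146cd56b0186c54346542a74fa94f6454bb2d56cf38200ec68 (k8 c4700 c845 c1890 c1891 c3398 c3801 c3804 c2934 (k8 c438 c702 c4385 c4384 c4330 c4329 c4449 c4761 (k4 c1635 c1907 c4762 c1987 (k2 c3807 c4526 (k1 c2128 k0))))) (by decide +kernel)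
def c4764 : PP 8 4 T 0x420000000000000000000080441000800000000000000084400000400000084040800 := rS 0x12717600fc543d14a55451161ab58b4a50a7d2ecb55954322d67ae4e080689458e386988896a7138bde0431890532a58c8cc9a763413c8b151b8946a8d (k8 c4383 c1099 c4381 c272 c4390 c438 c1440 c4700 (k8 c845 c3802 c863 c4449 c4385 c1930 c1103 c3799 (k8 c276 c4472 c4432 c4323 c4330 c4434 c2111 c4372 (k8 c4470 c2377 c4435 c4298 c1890 c1891 c3448 c3398 (k8 c2359 c2201 c2200 c3801 c3804 c2934 c4384 c4329 (k8 c4763 c4429 c4458 c4459 c4690 c4545 c859 c779 (k4 c275 c2112 c2223 c2115 (k2 c4420 c1660 (k1 c4487 k0))))))))) (by decide +kernel)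
def c4765 : PP 8 4 T 0x20000000000000044440000045000000000000000000000814000001500000000000 := rS 0x23d0d98a3568ac92e550a9d3ea5 (k8 c4385 c4384 c4330 c4329 c4290 c372 c292 c4554 (k4 c4241 c2128 c4395 c1317 (k1 c4473 k0))) (by decide +kernel)
def c4766 : PP 8 4 T 0x420000000000000000000080000000000000000000000014000000000000014000000 := rS 0x19aa35691856e51d14d8e3869888962f7833c5a431b9046a3155b2c9a70402cc3c133b010d0032d4544ea1538951a9f0093d5233228295e9a4ea654b19 (k8 c4449 c4385 c1930 c4756 c4488 c4757 c4734 c438 (k8 c863 c1444 c1440 c567 c4384 c4383 c4381 c4330 (k8 c4329 c4323 c4390 c4476 c303 c4700 c4461 c845 (k8 c2551 c575 c2645 c1890 c1891 c3802 c3804 c3801 (k8 c3799 c1099 c1103 c272 c276 c2359 c3398 c4472 (k8 c4432 c4434 c2111 c4372 c4470 c2377 c4765 c4764 (k4 c4403 c1641 c1142 c4554 (k2 c4241 c1317 (k1 c2128 k0))))))))) (by decide +kernel)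
def c4767 : PP 8 4 T 0x420000000000000000000080000000000000000000000010000000000000014000000 := rS 0x13496231c8bc0af00b88032418487cf0682b0cd349d8c89d4e254ca9412853d93c8a0a (k8 c4734 c438 c1440 c702 c1442 c31 c4385 c1930 (k8 c4381 c4330 c4323 c4449 c4756 c4488 c863 c4766 (k8 c804 c805 c1065 c4437 c3761 c1959 c4466 c573 (k8 c4465 c311 c2777 c360 c2775 c4434 c1975 c4524 k0)))) (by decide +kernel)
def c4768 : PP 8 4 T 0x420000000000000000000080001000000000000000000000040000004400200000000 := rS 0x110d496f0538946299529347227 (k8 c4323 c360 c1975 c4385 c1930 c317 c4381 c4330 (k4 c4469 c4434 c1309 c2111 (k1 c833 k0))) (by decide +kernel)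
def c4769 : PP 8 4 T 0x1000001000002005000600000000044545500000000009100080000000000000 := rS 0x5062318e689239f686d3 (k8 c4375 c4395 c1357 c3389 c4529 c1150 c4473 c2123 (k2 c1454 c1595 k0)) (by decide +kernel)
def c4770 : PP 8 4 T 0x1001000000005000420000000044004500100020400020004040000400000 := rS 0x8962b44e62c318a62279 (k8 c1846 c4338 c781 c820 c4468 c1110 c456 c1056 (k2 c4742 c2123 k0)) (by decide +kernel)
def c4771 : PP 8 4 T 0x20001000000000000400000245000000044544400100020408120894800010440040 := rS 0x510b55ac7669d586c1248ad66e550a9d3ea57890cf2cf (k8 c3392 c1846 c1953 c4432 c4385 c4384 c4330 c4329 (k8 c4403 c1041 c1641 c1723 c1581 c1048 c1574 c4769 (k4 c1453 c4770 c916 c2128 (k1 c4241 k0)))) (by decide +kernel)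
def c4772 : PP 8 4 T 0x1000000000000010010404080840044445400040020000000000000000000000 := rS 0x49c5d80733ab0d127d31a568711 (k8 c4337 c4393 c859 c819 c1354 c4529 c2059 c539 (k4 c1110 c2123 c4420 c1660 (k1 c4487 k0))) (by decide +kernel)
def c4773 : PP 8 4 T 0x20000000000000004402000045040040000000000000000000020000000000000000 := rS 0x19aad50a9d3ea5 (k4 c4385 c4384 c4330 c4329 (k2 c1987 c3771 (k1 c2128 k0))) (by decide +kernel)
def c4774 : PP 8 4 T 0x1000000000002015000600000000044545400000000000000000000000000000 := rS 0xe675449f56b43 (k4 c4395 c1438 c1357 c4529 (k2 c627 c1150 (k1 c2123 k0))) (by decide +kernel)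
def c4775 : PP 8 4 T 0x20001000000000004415000645040000044545400540020000000000000000000000 := rS 0xcb05441d4e69531c4558cd50a9d3ea5 (k8 c4385 c4384 c4330 c4329 c4774 c2128 c4338 c820 (k4 c861 c1110 c539 c2123 (k2 c4314 c556 (k1 c4478 k0)))) (by decide +kernel)
def c4776 : PP 8 4 T 0x20001000000000000410100601000900044545000540020008400080810600000000 := rS 0x2b24b1c5a935b94584c15189d42254f9dd5e975590172cf (k8 c3392 c3445 c837 c3766 c2932 c2832 c1111 c4384 (k8 c4381 c4329 c4323 c4772 c4773 c4775 c3774 c1167 (k4 c1127 c917 c1454 c323 (k2 c315 c2110 k0)))) (by decide +kernel)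
def c4777 : PP 8 4 T 0x420000000000000000000080000000000000000000000000000000000000014000000 := rS 0x146e5248ad8e2d0a2dd26c932ac88e29628ecfe10583f4b8d311a1d026945aad06cb250d8f2531ac20d697202bc86f1170641e3354a68ce1709834de71101dc089d2c13d0a453d81c14bd8ac644e6153894be8d4fa654a6d (k8 c4699 c4385 c1930 c4384 c4383 c4382 c4381 c4330 (k8 c4325 c4323 c4449 c4390 c108 c4734 c4 c702 (k8 c438 c1442 c1440 c4767 c1234 c534 c1111 c535 (k8 c536 c1107 c2495 c2496 c2497 c2638 c4488 c1444 (k8 c430 c264 c309 c4768 c4432 c1953 c2832 c837 (k8 c2932 c1838 c4465 c1310 c3941 c1846 c1851 c1850 (k8 c3769 c3767 c3766 c4322 c4437 c4439 c4440 c833 (k8 c4375 c2119 c4377 c4480 c4463 c2655 c4771 c1055 (k8 c835 c1412 c4776 c553 c2614 c1124 c1164 c662 (k4 c391 c407 c315 c323 (k2 c4283 c4241 (k1 c4200 k0)))))))))))) (by decide +kernel)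
def c4778 : PP 8 4 T 0x10400000000000000000000000000000100000000000000020000020000000018000001 := rS 0xcc049a05a748a433d1e61277 (k8 c1111 c4315 c2504 c4482 c22 c23 c1051 c703 (k4 c4488 c4726 c863 c422 k0)) (by decide +kernel)
def c4779 : PP 8 4 T 0x10400000000000000000000000000000100000000000000020000000001000018000001 := rS 0x3317810840a03904f4093c9dde309 (k8 c4315 c4291 c1111 c2504 c425 c4482 c4778 c689 (k4 c4462 c703 c534 c1953 (k2 c2293 c4469 k0))) (by decide +kernel)
def c4780 : PP 8 4 T 0x401000000000000000000000000000000000008001000010000000000000011000000 := rS 0x1087d38682b024d65b (k8 c704 c560 c1225 c4476 c4479 c1226 c1065 c2813 (k1 c4466 k0)) (by decide +kernel)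
def c4781 : PP 8 4 T 0x420000000000000000000080000000000000000000000000000010000000010000100 := rS 0x1a0b41e10810060a3b81c88433d96462014ca96121936bc43519 (k8 c4449 c4777 c4291 c4699 c36 c4315 c4385 c1930 (k8 c686 c295 c4779 c4780 c335 c4472 c689 c1089 (k8 c4462 c2406 c4461 c2408 c4466 c271 c4700 c845 k0))) (by decide +kernel)
def c4782 : PP 8 4 T 0x10400000000000000000000000000000100000000001000000000000000000018000200 := rS 0x280cb41e3b0841601 (k8 c686 c31 c2396 c425 c4466 c4703 c2393 c574 (k1 c4461 k0)) (by decide +kernel)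
def c4783 : PP 8 4 T 0x420000000000000000000080000000000000000000000000000000000000010000000 := rS 0x43302a68409d0f91480092c8c4021a8ca654a6d (k8 c4699 c4385 c1930 c4449 c4777 c686 c295 c4779 (k8 c4782 c4781 c23 c1103 c1051 c4466 c4488 c311 (k2 c863 c4461 (k1 c422 k0)))) (by decide +kernel)
def c4784 : PP 8 4 T 0x10020000000000000004454010055040040400000000000000000000088100000000000 := rS 0x240f48f166630452271288c574b4fa954ea1 (k8 c4329 c4330 c4385 c4384 c4545 c437 c1409 c4381 (k8 c4323 c956 c4707 c2128 c4494 c3389 c4416 c2110 (k1 c322 k0))) (by decide +kernel)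
def c4785 : PP 8 4 T 0x40000000000000400000000000000000000000014000080000000000000000000000000000000000000 := rS 0x15f11 (k2 c4335 c4631 (k1 c4491 k0)) (by decide +kernel)
def c4786 : PP 8 4 T 0x10020000000000000000414000454040040400005400000000008000088100000004080 := rS 0x449ccea502ac598cc15ca2d0f080ad2d3ea952a9d9ea1 (k8 c4329 c3392 c4330 c4385 c3391 c4384 c4545 c648 (k8 c4482 c4440 c4322 c3445 c4707 c4784 c4494 c250 (k4 c1454 c4417 c1022 c1863 (k1 c2123 k0)))) (by decide +kernel)
def c4787 : PP 8 4 T 0x95000400000000044005500000000008000000000000004080 := rS 0x8939940aa15 (k4 c648 c250 c1454 c1022 (k2 c1863 c2123 k0)) (by decide +kernel)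
def c4788 : PP 8 4 T 0x20000000000000000414080414040050400005400000000008000188100000004080 := rS 0x720a18e493a8f48f438b2d982ae13895a62345a1e111915d2d3ea952a9d9ea1 (k8 c4329 c3392 c4330 c4385 c3391 c4384 c4545 c437 (k8 c4449 c4482 c4440 c4322 c1409 c4375 c4381 c4323 (k8 c4786 c1714 c4747 c4494 c4424 c1587 c4416 c4417 (k4 c322 c4787 c2110 c4473 (k1 c4402 k0))))) (by decide +kernel)
def c4789 : PP 8 4 T 0x420000000000000000400080404042000000005400000000008140088000000000080 := rS 0x8e4914b1d6a3d28b105ac34bd2c562750a9c4a9f528e522cf11ab52a0f409a4386d30a3d528d (k8 c4383 c3391 c970 c4325 c4699 c4783 c2810 c4637 (k8 c1333 c2959 c2948 c1409 c3392 c4327 c1139 c4385 (k8 c4384 c4381 c4330 c4329 c4323 c437 c4545 c4785 (k8 c1213 c912 c4788 c1595 c1783 c1788 c1454 c957 (k2 c322 c1411 (k1 c2110 k0)))))) (by decide +kernel)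
def c4790 : PP 8 4 T 0x120000000000000000054000400040054054005400000000000000080010420000080 := rS 0x3a151c88e4960ad4ea3d8b0b44e9f (k8 c4384 c4323 c912 c4487 c4416 c4417 c4419 c4420 (k4 c322 c1411 c2123 c4200 (k2 c1021 c1640 k0))) (by decide +kernel)
def c4791 : PP 8 4 T 0x14000000000000000000014000000000000000000000000000000020008480000000000 := rS 0xa5b05a051 (k4 c1645 c436 c1852 c4426 (k1 c4494 k0)) (by decide +kernel)
def c4792 : PP 8 4 T 0x420000000000000000000080400040000000005400040000000020000000000000080 := rS 0x304ea3d160ace6b78ba598ecd44b15862988aa922254f90c62cb17915262347aa494364a8c9389b10a654a1c45a1e1119 (k8 c4449 c4482 c4440 c4322 c4783 c4385 c1930 c11 (k8 c1849 c4488 c1052 c2959 c1851 c1850 c3391 c970 (k8 c1409 c3042 c23 c785 c3769 c1912 c22 c4384 (k8 c4381 c4327 c4789 c4415 c1573 c1946 c1674 c1945 (k8 c1948 c1453 c4790 c4359 c1165 c1084 c4791 c4597 (k4 c328 c499 c1853 c2123 k0)))))) (by decide +kernel)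
def c4793 : PP 8 4 T 0x400000000001000000000000000000000011000000081000000000000000000000000000000000000 := rS 0x16f17 (k2 c4359 c1165 (k1 c4492 k0)) (by decide +kernel)
def c4794 : PP 8 4 T 0x100000000000000000000000010000000020000000044000000000000000000000000 := rS 0xcb05 (k2 c4314 c557 (k1 c4478 k0)) (by decide +kernel)
def c4795 : PP 8 4 T 0x400000000000000000000000000000015000400000000054005500000000009400000000000004080 := rS 0x3a721c98ed3 (k4 c4375 c4787 c2123 c4473 (k2 c1021 c4403 k0)) (by decide +kernel)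
def c4796 : PP 8 4 T 0x420000000000000000000080400000000000005400040100000020000000000000080 := rS 0x1574b6222492c13a8f62c9761ad4c64757d0e22a28aa45729311ab52a0f409a4646d30a3d52364e26c421c4ca951a4a45a1e1119 (k8 c4449 c4482 c4440 c4322 c1850 c4383 c4385 c1930 (k8 c4783 c11 c1849 c4488 c1851 c3391 c970 c4325 (k8 c4699 c1052 c2810 c4637 c1333 c2959 c2948 c1409 (k8 c3042 c3445 c4327 c4390 c4792 c4337 c4393 c988 (k8 c1313 c818 c1435 c1214 c4793 c4487 c4416 c4417 (k4 c4420 c322 c4794 c4795 (k2 c4429 c1674 (k1 c4526 k0)))))))) (by decide +kernel)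
def c4797 : PP 8 4 T 0x420000000000000000000080000000000000000000000000000020000000000000011 := rS 0xa3168a456b731258cb05591e4ce06010953e233d974d2322b164ee5b36a3d524a1b27136210e2654b19 (k8 c4449 c4385 c1930 c4783 c11 c1849 c4488 c1851 (k8 c1850 c3391 c970 c4699 c758 c4703 c3040 c4476 (k8 c1052 c2810 c4655 c3037 c1409 c4384 c4381 c4461 (k8 c791 c2924 c4645 c4796 c4311 c552 c1187 c1188 (k4 c3174 c4191 c2769 c2798 (k2 c818 c4597 k0)))))) (by decide +kernel)
def c4798 : PP 8 4 T 0x420000000000000000000080000000000000000000000000000020000000000000001 := rS 0x1093c8682e043d958645917a713645109dcb61c36a654b19 (k8 c4449 c4385 c1930 c4699 c4783 c758 c4703 c11 (k8 c23 c1849 c4488 c785 c3040 c1052 c4476 c3037 (k4 c4797 c533 c430 c1846 (k2 c4315 c4482 k0)))) (by decide +kernel)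
def c4799 : PP 8 4 T 0x400000000000000000000000000100000000000000000000008000004400000000000 := rS 0x62f1 (k2 c4434 c1914 (k1 c4469 k0)) (by decide +kernel)
def c4800 : PP 8 4 T 0x420000000000000000000080000002000001500000000010000000000000005000021 := rS 0xdda6101a92c5e4f0b914140f038362a252fa949a39048cc82b12b16c3891 (k8 c4327 c4783 c758 c4476 c1147 c4798 c953 c1058 (k8 c1139 c1975 c4385 c4382 c4381 c4390 c528 c526 (k8 c264 c4462 c438 c573 c1440 c785 c4799 c1309 (k4 c2108 c4275 c319 c4470 k0)))) (by decide +kernel)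
def c4801 : PP 8 4 T 0x420000000000000000000080000002000000005000000000000000000000000000001 := rS 0x889e5d5492c8a8f1781804052b1644ea72f9347291199050a830d864d281841dcb61c36a654b19 (k8 c4449 c4385 c1930 c4699 c4783 c758 c4703 c4482 (k8 c4439 c4437 c4436 c4315 c1976 c1442 c4798 c953 (k8 c4327 c1139 c1975 c4382 c4330 c4323 c1234 c4476 (k8 c4800 c4461 c791 c796 c2763 c3230 c4799 c1443 (k4 c4655 c1440 c4639 c792 k0))))) (by decide +kernel)
def c4802 : PP 8 4 T 0x80000000000001500000000000054000000000005405080 := rS 0x2035 (k2 c1309 c2108 (k1 c609 k0)) (by decide +kernel)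
def c4803 : PP 8 4 T 0x20000000000000000000010400040040400000140008000000000020000000100004 := rS 0x5bad52a3b8b04d270548a851a9f (k8 c4384 c4383 c4329 c4327 c4407 c1608 c1559 c4481 (k4 c4158 c4418 c4419 c1037 (k1 c2125 k0))) (by decide +kernel)
def c4804 : PP 8 4 T 0x20100000000000000000014400040040400000140000000000000000000020100001 := rS 0x48543a492d52b1648a851a9f (k8 c4384 c4383 c4329 c4327 c4481 c4418 c4419 c2125 (k4 c1029 c1030 c4158 c1639 k0)) (by decide +kernel)
def c4805 : PP 8 4 T 0x8020001001000000004404004645040000444545400540020000080001000020000000 := rS 0x14dcb4b150e988514934582b54a8f522a146a7d2eb9 (k8 c1203 c1195 c4384 c4383 c4329 c4327 c4416 c4418 (k8 c4419 c4420 c340 c2125 c1956 c4775 c1029 c1030 (k4 c4429 c4403 c292 c4475 k0))) (by decide +kernel)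
def c4806 : PP 8 4 T 0x800000000000000200000000000004400000000000000045540000000000000000000000000000000 := rS 0x64b35127d (k4 c4409 c4314 c4395 c4422 (k1 c2124 k0)) (by decide +kernel)
def c4807 : PP 8 4 T 0x1020001001000000004404004645040000445545500540020000080021000020000001 := rS 0x642d287173ea2608734b8540cb9 (k8 c1203 c1025 c648 c1195 c3008 c4804 c4314 c4409 (k4 c4805 c4806 c4492 c4737 (k1 c1704 k0))) (by decide +kernel)
def c4808 : PP 8 4 T 0x1020001001000000004004000645040000045505400500020008080041000025000005 := rS 0x1a2512984d123d6091cfb435b154c6b90aa5c72910b9ccea67658d11e7f0834c1a5f078104a06 (k8 c1025 c4381 c4461 c264 c4382 c528 c4375 c4463 (k8 c2652 c761 c1955 c3859 c2635 c2484 c3008 c532 (k8 c4327 c1139 c1195 c648 c1203 c4803 c267 c4807 (k8 c4424 c1626 c1587 c1748 c1743 c4529 c611 c2037 (k2 c1956 c340 (k1 c2109 k0)))))) (by decide +kernel)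
def c4809 : PP 8 4 T 0x4000000000000000000000000020000044000000000000000000000000000020000000 := rS 0x12b11 (k2 c4338 c2729 (k1 c4487 k0)) (by decide +kernel)
def c4810 : PP 8 4 T 0x1000000000004400000845554040044540001540000000000000000020000000 := rS 0x18990893ed0d98ad32c162e93 (k8 c1124 c4357 c4311 c553 c4809 c2128 c4395 c1357 (k4 c4529 c4483 c2120 c1728 k0)) (by decide +kernel)
def c4811 : PP 8 4 T 0x1020000000000000004000000201040800045505401100000008000040000025000001 := rS 0x54aa8929944c863602b12cd109b1564a14fabc5a310f85d56c3788b8cecb211fc20d306bf4b86b3097d4ea507810062503160ae5b (k8 c758 c805 c4476 c1025 c4381 c2765 c4461 c264 (k8 c4385 c4330 c4382 c4325 c1968 c2119 c4377 c528 (k8 c4375 c4463 c2652 c765 c3859 c2635 c764 c4432 (k8 c3965 c3858 c532 c10 c1967 c2921 c2732 c4384 (k8 c4329 c4808 c1250 c2489 c341 c4810 c932 c933 (k8 c2803 c1196 c1865 c3889 c1984 c267 c551 c2109 k0)))))) (by decide +kernel)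
def c4812 : PP 8 4 T 0x400000000000000001000000000000000000a00000000054054000000001400080000000005440080 := rS 0x2885476d1642e18b05 (k8 c4311 c1250 c4531 c4483 c341 c3031 c2610 c1957 (k1 c2109 k0)) (by decide +kernel)
def c4813 : PP 8 4 T 0x420000000000000000000080000000000000005000000000000000000000000000001 := rS 0x8badc783b6814588b90aa5d66530995512293ead686a23fb1d9e101a0dda64a33ac00c717e83c1aab2c05cb804278b884573580c8aa94d2750e8134865161b8420cdf1530a9c4a5f268e522772d870da9952c648285 (k8 c1442 c4798 c4449 c4385 c1930 c4699 c4783 c758 (k8 c4703 c4327 c1139 c1975 c4382 c4381 c4330 c4325 (k8 c4390 c1350 c1976 c4482 c4315 c4322 c4436 c4437 (k8 c4439 c4440 c4801 c4488 c1444 c1219 c2765 c1968 (k8 c805 c765 c764 c1440 c4461 c2119 c532 c4476 (k8 c3858 c528 c264 c4377 c1418 c1025 c4480 c2635 (k8 c4802 c4375 c1414 c1955 c4463 c3301 c3424 c2652 (k8 c4811 c4393 c3297 c1354 c779 c4529 c347 c531 (k8 c2033 c4812 c1195 c648 c1203 c4772 c1595 c2109 (k4 c1763 c340 c1037 c4416 (k1 c4492 k0)))))))))))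 (by decide +kernel)
def c4814 : PP 8 4 T 0x400000000000000000000000000000000000002000000000000000004000000000081 := rS 0x179a462f1011082c05 (k8 c2485 c500 c501 c4461 c4431 c1911 c3855 c796 (k1 c4469 k0)) (by decide +kernel)
def c4815 : PP 8 4 T 0x420000000000000000000080000000400000004000000000000000000000004000001 := rS 0x100694e1851a7736a654b1942864128358a3c1a040197c72912b1640e7819904b61c (k8 c4783 c758 c4798 c953 c4813 c4814 c1025 c4476 (k8 c4327 c1139 c4382 c791 c4461 c528 c4656 c1147 (k8 c1977 c1058 c1959 c1442 c4449 c4385 c1930 c4699 (k4 c4703 c4383 c4325 c4488 (k2 c1960 c4800 (k1 c4637 k0)))))) (by decide +kernel)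
def c4816 : PP 8 4 T 0x420000000000000000000080000000000000004000000000000000000000004000001 := rS 0x109789a05c9a0c958b25b0b8280e78198243841 (k8 c4798 c4783 c1058 c953 c4813 c4814 c4462 c573 (k8 c758 c1025 c4476 c1959 c4815 c764 c804 c4432 (k2 c4437 c4465 k0))) (by decide +kernel)
def c4817 : PP 8 4 T 0x420000000000000000000080000000000000004000000000000000000000000000001 := rS 0x1a1386b224243478368cc821c (k8 c4783 c4798 c953 c4699 c4813 c4816 c4315 c599 (k4 c559 c1219 c4479 c825 k0)) (by decide +kernel)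
def c4818 : PP 8 4 T 0x400000000000000000000000000000000000008001000040000010000000028000100 := rS 0x26c8456051645c0718bc46679 (k8 c99 c953 c4291 c295 c689 c4469 c1025 c4462 (k4 c4476 c703 c805 c1952 k0)) (by decide +kernel)
def c4819 : PP 8 4 T 0x1000000000000000000000000000000000000000000000000000000800004400001 := rS 0x32f1 (k2 c4432 c1871 (k1 c4465 k0)) (by decide +kernel)
def c4820 : PP 8 4 T 0x420000000000000000000080000000000000000000200000000080000000000000001 := rS 0x46312eaa404b147959384b4d8bc2e4f8ac644ea712a654a4d1ca44670937afc0c0b0d904b66d3d024386b (k8 c43 c4783 c1058 c4817 c4699 c758 c4798 c4818 (k8 c702 c4462 c109 c1228 c4319 c953 c4327 c1139 (k8 c1975 c4385 c1930 c4381 c4330 c4323 c4449 c4390 (k8 c339 c3855 c4819 c764 c4799 c4488 c824 c2814 (k4 c1147 c1018 c1443 c4628 (k2 c229 c792 (k1 c2111 k0))))))) (by decide +kernel)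
def c4821 : PP 8 4 T 0x420000000000000000000080000000000000000000200000000000000000000000001 := rS 0x12c463117bc09e5d548088ab147959389b219ae2b1913a9c4a99529347291199bd7e060586c825b369e8121c (k8 c4783 c1058 c4817 c4699 c758 c4798 c4818 c702 (k8 c4462 c109 c1228 c953 c4327 c1139 c1975 c4385 (k8 c1930 c4381 c4330 c4323 c4449 c4390 c43 c4820 (k8 c765 c4488 c824 c2814 c1147 c3230 c1018 c1443 (k8 c4628 c1440 c4472 c785 c229 c792 c4434 c2111 k0))))) (by decide +kernel)
def c4822 : PP 8 4 T 0x420000000000000000000080000000000000000000000000000000000000000000001 := rS 0x250bc9e0f0685c8a040ca050a032c1a8ae9c34818161b41c24f4332096c12bf1297d4a6d268e43891 (k8 c4327 c4783 c1139 c1975 c4699 c4385 c4382 c4381 (k8 c109 c1058 c758 c4798 c953 c4817 c4319 c643 (k8 c4818 c702 c4462 c4821 c4055 c1227 c4479 c4476 (k8 c790 c562 c1922 c1919 c1026 c3233 c2492 c528 (k4 c264 c1440 c785 c4802 (k1 c4799 k0)))))) (by decide +kernel)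
def c4823 : PP 8 4 T 0x420000000000000000000080000000000000000000000000000000000400000000000 := rS 0x1a886812eaa50a830423cf61958958ee5b20a70d24b4dc64c2915397d1a9952814666d2c8003e1c (k8 c4783 c10 c4822 c487 c4699 c950 c2 c4385 (k8 c1930 c4383 c4382 c4330 c4327 c4325 c4449 c764 (k8 c4799 c756 c4488 c1850 c4700 c1092 c4476 c1147 (k8 c4654 c1227 c2709 c751 c1977 c1442 c1443 c4655 (k4 c4637 c236 c2119 c4651 k0))))) (by decide +kernel)
def c4824 : PP 8 4 T 0x420000000000000000000080000000000000000000100000000000000000000000000 := rS 0x2eaa5388347a6d628142958ef082dc64c2915397d32a5369643e1c358b80a00 (k8 c4822 c2 c4823 c1839 c4783 c10 c487 c4699 (k8 c4385 c1930 c4382 c4330 c4327 c4325 c4449 c4700 (k8 c4479 c4703 c4476 c4321 c4439 c1147 c2711 c2709 (k4 c1977 c4488 c1443 c4655 (k1 c2119 k0))))) (by decide +kernel)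
def c4825 : PP 8 4 T 0x420000000000000000000080000000000000000000000000000000000000000000000 := rS 0x4d1593a5b34164001f0e46532a5 (k8 c4385 c1930 c4449 c4783 c10 c4822 c487 c4824 (k4 c2723 c2718 c4476 c4488 (k1 c2711 k0))) (by decide +kernel)
def c4826 : PP 8 4 T 0x10000000000000000000000000000001000000000000000008000010000800000000002 := rS 0x4322a6c38f1 (k4 c4432 c750 c2711 c1219 (k2 c1952 c4472 k0)) (by decide +kernel)
def c4827 : PP 8 4 T 0x10000000000000000000000000000000400000000000200004000010000800002000004 := rS 0x12442c10cb6f1 (k4 c4432 c844 c1952 c4476 (k2 c4472 c1106 (k1 c256 k0))) (by decide +kernel)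
def c4828 : PP 8 4 T 0x1000004000200000000002000004 := rS 0x2c96c107a (k4 c257 c256 c704 c1106 (k1 c4476 k0)) (by decide +kernel)
def c4829 : PP 8 4 T 0x20000000000000000000080000000000000000000200000000000000000000000002 := rS 0x2d964384222a68ae410c0ba326d4ec480605 (k8 c2 c1 c4825 c4343 c4699 c4449 c756 c757 (k8 c3779 c4826 c4827 c4828 c4701 c1953 c1026 c2723 (k1 c4476 k0))) (by decide +kernel)
def c4830 : PP 8 4 T 0x20000000000000000000080000000000000000000000004000010000800020000002 := rS 0x842002e834297414b13d968b2615397d4aa935c480a1b36bc43269 (k8 c4829 c1870 c4432 c4699 c686 c2 c4825 c4442 (k8 c4345 c4385 c4382 c4330 c4325 c1026 c4476 c704 (k8 c624 c759 c2721 c1442 c1977 c573 c2119 c4465 (k1 c4439 k0)))) (by decide +kernel)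
def c4831 : PP 8 4 T 0x1000000001000000000000000100000000000200400000000000000050000005010000 := rS 0x698e4946e0b1c612fd (k8 c4380 c4439 c1422 c4465 c4480 c1834 c1074 c4375 (k1 c4470 k0)) (by decide +kernel)
def c4832 : PP 8 4 T 0x20000000000000000000080000000000000000400000080000000050800000000002 := rS 0x5c37a050685589ee2aa72fa95526b8906cda1130bc43269 (k8 c4829 c1870 c4432 c4325 c606 c4699 c686 c4825 (k8 c4442 c4345 c4385 c4382 c4330 c4390 c704 c624 (k4 c1442 c1977 c4831 c1349 (k2 c2119 c841 k0)))) (by decide +kernel)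
def c4833 : PP 8 4 T 0x1000000000000000000000000000000000000000000000220000000010001000000002 := rS 0x690881a03 (k4 c1 c1288 c752 c4522 (k1 c4372 k0)) (by decide +kernel)
def c4834 : PP 8 4 T 0x20000000000000000000080000000000000000000000004000010000800000000002 := rS 0x691281a802ea0c2c853c818e2582d9dc6e441a878861d10c56326153894bea5549ae241b36bc43269 (k8 c4829 c1870 c4432 c4699 c686 c4825 c4442 c4345 (k8 c4385 c4382 c4381 c4330 c4325 c4449 c4390 c837 (k8 c4830 c1953 c4466 c1310 c4472 c272 c1090 c4832 (k8 c4476 c536 c486 c2433 c1441 c1218 c1976 c4833 (k4 c2119 c1294 c1834 c4522 (k1 c4375 k0)))))) (by decide +kernel)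
def c4835 : PP 8 4 T 0x20000000000000000000080000000000000000000000004000000000800000000002 := rS 0x1c7006bf500b12e968de8569965064a1b07c80198aa9cbe99529b5526b89044c269 (k8 c4829 c4325 c606 c4825 c4442 c4345 c4699 c4385 (k8 c1930 c4382 c4330 c4390 c1870 c4834 c1103 c1851 (k8 c1850 c3767 c487 c4375 c3390 c3330 c4476 c841 (k4 c624 c2119 c4380 c1294 (k2 c4480 c4463 (k1 c3394 k0)))))) (by decide +kernel)
def c4836 : PP 8 4 T 0x20001000000000040000080000000000000000000000180050000000400000008000 := rS 0xe26f250d846351cc544ea712a9466a918c496261 (k8 c4325 c624 c4825 c4441 c4345 c4339 c4385 c4381 (k8 c4330 c4323 c4390 c4528 c3315 c1327 c4470 c2111 (k2 c3330 c3394 (k1 c4480 k0)))) (by decide +kernel)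
def c4837 : PP 8 4 T 0x80000000000000204001000004000000000000000002004 := rS 0x108ecf122904f24a0c1be3309 (k8 c4439 c4449 c3277 c1294 c1293 c1963 c3779 c4828 (k4 c4434 c4482 c4472 c3797 k0)) (by decide +kernel)
def c4838 : PP 8 4 T 0x20001000000000040000080000000000000000000000180050000000400000011000 := rS 0xf (k2 c4836 c4463 k0) (by decide +kernel)
def c4839 : PP 8 4 T 0x80000000001500000000000000000000050000005405000000000 := rS 0x9623 (k2 c4372 c4375 (k1 c2111 k0)) (by decide +kernel)
def c4840 : PP 8 4 T 0x20000000000000000000080000000000000200000000084000000000000000000002 := rS 0x1b088dc351c9701cd30693c9afd8a89d4e25528cd52318900c3611308bcf66d (k8 c4699 c704 c4835 c4325 c606 c686 c1 c4825 (k8 c4441 c4345 c4339 c4385 c4381 c4330 c4323 c4390 (k8 c4380 c1895 c1360 c4837 c4839 c4463 c4838 c4528 (k4 c3315 c841 c752 c4470 (k1 c3328 k0))))) (by decide +kernel)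
def c4841 : PP 8 4 T 0x20000000000000000000080000000000000000000000084000000000000000000002 := rS 0x2e1bd028342ac4f6615397d4a6d549ae2469 (k8 c4829 c4825 c4442 c4345 c4699 c4385 c4382 c4330 (k8 c4325 c704 c624 c1442 c1977 c4840 c1349 c2119 (k1 c841 k0))) (by decide +kernel)
def c4842 : PP 8 4 T 0x20000000000000000000080000000000000000000000004000000000000000000002 := rS 0x22060f40c84b4d004d2797506431b9046a853c878e2772c16c5ebf8ac644e9153894be8d4ca94da33548c4d71201844c269 (k8 c4829 c4325 c606 c1 c4825 c4442 c4441 c4345 (k8 c4339 c4699 c4385 c1930 c4383 c4382 c4381 c4330 (k8 c4327 c4323 c4449 c4390 c109 c4835 c4841 c4476 (k8 c1111 c536 c487 c2433 c1441 c1099 c1103 c272 (k8 c276 c1976 c4833 c1439 c1974 c2119 c4839 c4439 (k4 c4522 c4482 c1294 c4497 (k1 c4828 k0))))))) (by decide +kernel)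
def c4843 : PP 8 4 T 0x40000080000000000000200000000000000000100000000002200 := rS 0x1a8dcdf15 (k4 c4390 c3277 c3384 c1059 (k1 c4470 k0)) (by decide +kernel)
def c4844 : PP 8 4 T 0x20000000000000040000080000000000000200000000100000000000000000000002 := rS 0xb8824b3808c6c0e1a8362b1913a9c4aa519aa46211308209a394893c8a1c2b27624fd (k8 c4380 c4825 c4343 c4842 c750 c1219 c1440 c4327 (k8 c1139 c1975 c751 c4325 c606 c4441 c4345 c4339 (k8 c4385 c4381 c4330 c4323 c4449 c4390 c4843 c1060 (k8 c4463 c4470 c1327 c233 c3394 c1850 c2111 c4826 k0)))) (by decide +kernel)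
def c4845 : PP 8 4 T 0x20000000000000080000080000000000000000000000000000000000000000000002 := rS 0x208b8971913a9c4aa519aa4624d1ca449e450e1593b12 (k8 c4825 c4343 c4842 c750 c1219 c1440 c4327 c1139 (k8 c1975 c4441 c4345 c4339 c4385 c4381 c4330 c4323 (k4 c4449 c4375 c4839 c1850 (k1 c4826 k0)))) (by decide +kernel)
def c4846 : PP 8 4 T 0x20000000000000000000080000000000000200000000000000000000000000000002 := rS 0x36388d4b80d8aa3c10390e15922d3 (k8 c4845 c4327 c4842 c750 c1139 c751 c2709 c4390 (k4 c4843 c4844 c1060 c1417 (k2 c4470 c233 k0))) (by decide +kernel)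
def c4847 : PP 8 4 T 0x20000000000000000000080000000000000000000000000000000000000000000002 := rS 0x5c37a050a83479ed625634c54c2915397d4a6d4eaa4d712 (k8 c4825 c4442 c4345 c4343 c4699 c4385 c4382 c4330 (k8 c4327 c4325 c4390 c4829 c4842 c1147 c1226 c2709 (k4 c1977 c1442 c4846 c1349 (k2 c2119 c4628 k0)))) (by decide +kernel)
def c4848 : PP 8 4 T 0x20001000000000040000080200000000000104000000020000000080800400001000 := rS 0x51394922b638b428b749b24cab2238a58a3b65928a6404d074fe67098808a07050402e0f0200d7a2712a7d32a519aa55eab00a0d166943c22327935c48ee35 (k8 c18 c1890 c4825 c4442 c540 c4449 c4482 c4440 (k8 c4437 c4322 c1976 c4847 c4445 c4346 c4345 c4339 (k8 c4385 c1930 c4384 c4381 c4323 c108 c796 c4461 (k8 c264 c532 c4463 c318 c609 c2410 c535 c2496 (k8 c2638 c2655 c1025 c836 c837 c3941 c1850 c3769 (k8 c4771 c1055 c835 c1412 c4776 c2519 c2614 c1124 (k8 c1164 c662 c391 c407 c315 c323 c4283 c4200 (k1 c4241 k0)))))))) (by decide +kernel)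
def c4849 : PP 8 4 T 0x4000400000000054005540000000000020000000004200000 := rS 0x60b147ad1 (k4 c454 c327 c1056 c1853 (k1 c2123 k0)) (by decide +kernel)
def c4850 : PP 8 4 T 0x20000000000000004402010045000440400000000000000000000000000000000000 := rS 0xad (k2 c1986 c4707 k0) (by decide +kernel)
def c4851 : PP 8 4 T 0x20001000000000004000090200080400400044400040020000020000000210000020 := rS 0x56e51d311822d0a9cd6697619d5127d5aa54534388c5522a957aad061b45a1e11193c9ae24cb (k8 c3769 c4825 c4442 c540 c4449 c4482 c4440 c4322 (k8 c4315 c1976 c4445 c4346 c4345 c4327 c4390 c4337 (k8 c4393 c2828 c858 c1435 c1354 c4529 c539 c2061 (k8 c4793 c4531 c1150 c4849 c390 c4850 c2123 c1055 (k2 c4403 c1641 (k1 c4468 k0)))))) (by decide +kernel)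
def c4852 : PP 8 4 T 0x20000000000000000020000000040400000000000000000008020080000610000020 := rS 0x922b1691d8e291d3416a514a89d42254f8d48acf (k8 c3392 c23 c18 c4384 c4381 c4329 c4323 c1787 (k8 c1595 c1788 c1056 c1055 c834 c1454 c1411 c2424 (k2 c1641 c1723 (k1 c2110 k0)))) (by decide +kernel)
def c4853 : PP 8 4 T 0x20000000000000040008080000040000000000000000000400004080000600000000 := rS 0x58e414b1c8f431592476b46624d6ebd13a7d32a5 (k8 c4385 c1930 c4384 c4323 c108 c1167 c1127 c2060 (k8 c2061 c1048 c323 c315 c4395 c1318 c1432 c835 (k2 c4473 c4200 (k1 c4286 k0)))) (by decide +kernel)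
def c4854 : PP 8 4 T 0x10000000000000000004414002045554400000000000000000000000000000000000000 := rS 0xc1a5ab19b17 (k4 c4419 c1438 c2128 c4458 (k2 c1986 c4494 k0)) (by decide +kernel)
def c4855 : PP 8 4 T 0x80000000000000000000000000000004400000005554000000000000000000000000000000000000000 := rS 0xad (k2 c4458 c4545 k0) (by decide +kernel)
def c4856 : PP 8 4 T 0x10020001000000000004415000245040000000544400440020000000000000000000000 := rS 0x8b2c9166943c20f34b52a7d4ea1 (k8 c4329 c4330 c4384 c4385 c4855 c540 c4482 c4440 (k4 c4437 c4322 c4775 c4494 (k1 c4358 k0))) (by decide +kernel)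
def c4857 : PP 8 4 T 0x20001000000000040000080200000000400104000000020000020080000000001000 := rS 0x19aad6030d8aa30e9fcce20020fc0e0a082e41ecf4db2c94538ca854e9f52aa55eab3ba0cf26b890d45e23 (k8 c1409 c4848 c18 c4825 c4442 c540 c1976 c1890 (k8 c4445 c4346 c4345 c4385 c4384 c4330 c4329 c4449 (k8 c3942 c1850 c3769 c1848 c3392 c1333 c3445 c4463 (k8 c318 c609 c2369 c534 c535 c2638 c2655 c1025 (k4 c4851 c4852 c4853 c4856 (k2 c1986 c3771 (k1 c2128 k0))))))) (by decide +kernel)
def c4858 : PP 8 4 T 0x20001000000000040000080200000000400104000000020000000080000000001000 := rS 0x10874884e259045e232687d7a27538954a334eaa46312 (k8 c4825 c4441 c4345 c4343 c4339 c4385 c4381 c4330 (k8 c4323 c108 c272 c325 c1409 c4848 c4857 c1414 (k4 c2111 c1440 c1219 c440 (k1 c4466 k0)))) (by decide +kernel)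
def c4859 : PP 8 4 T 0x10000001000000000040000000001500100000104000100020040000005005011001401 := rS 0x12c9a0e118445e02 (k8 c4726 c4724 c342 c793 c4463 c244 c1333 c2111 k0) (by decide +kernel)
def c4860 : PP 8 4 T 0x10020001000000000004414010245040400000544400440020000000000000000000000 := rS 0x3355ac050a9d3ea5 (k8 c4385 c4384 c4330 c4329 c4856 c1986 c1989 c2128 k0) (by decide +kernel)
def c4861 : PP 8 4 T 0x20001000000000004414090200000400400144140040020000000000000000000000 := rS 0x182b34ba24fab5a1a8a2a9154abd568345a1e11193c9ae2477 (k8 c1890 c4825 c4442 c540 c4449 c4482 c4440 c4322 (k8 c1976 c4445 c4346 c4345 c4327 c4390 c4860 c4393 (k4 c1435 c1354 c4529 c4793 (k2 c4531 c4850 (k1 c2123 k0))))) (by decide +kernel)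
def c4862 : PP 8 4 T 0x10000000000000000a0200000000044404000000000008080000000005420080 := rS 0x552984d12b23e91e867f (k8 c2652 c4394 c3305 c3337 c1203 c4529 c611 c2037 (k2 c347 c4812 k0)) (by decide +kernel)
def c4863 : PP 8 4 T 0x1020000000000000004020010245000000044504400500220008190061000025000001 := rS 0x1175b8f076d02aa24a6133ed0c8ea20a8b56a5159a5dfa853c80cae910b99c08c3789fc2006 (k8 c1025 c1034 c2652 c4434 c3966 c1026 c2635 c532 (k8 c4327 c1147 c790 c540 c1497 c4377 c3269 c1250 (k8 c1595 c1788 c912 c648 c4808 c1314 c4393 c1354 (k8 c611 c2037 c4529 c347 c2109 c1763 c340 c1037 (k2 c4416 c4492 k0))))) (by decide +kernel)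
def c4864 : PP 8 4 T 0x20000000000000040000080000000000400104000000200000000000000000001000 := rS 0x59a5cfab5a1a8934c55c9fd86cb081299e42339d42e343981808451c870164f208dc4ea712a654a6d19a755e3155805fa8554a0c368b0c9a50f088c9e4b05758455225b379ae2477 (k8 c1890 c4825 c4442 c1349 c841 c4327 c4390 c4628 (k8 c1147 c4476 c540 c4449 c4482 c4440 c4437 c4436 (k8 c4322 c4315 c1976 c4345 c1497 c4377 c4847 c4445 (k8 c4441 c4346 c4343 c4339 c4699 c4385 c1930 c4381 (k8 c4330 c4323 c4858 c1851 c1439 c623 c4859 c1139 (k8 c1219 c1026 c1025 c3008 c4470 c532 c2484 c2635 (k8 c1310 c3301 c1309 c1034 c3859 c3966 c2652 c4862 (k8 c4863 c4861 c4811 c4393 c1435 c1354 c4793 c4531 (k1 c4772 k0))))))))) (by decide +kernel)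
def c4865 : PP 8 4 T 0x200000000000000000000420000000000004000002001 := rS 0x421f0e8e00c05 (k4 c528 c504 c505 c1026 (k2 c1098 c360 (k1 c4466 k0))) (by decide +kernel)
def c4866 : PP 8 4 T 0x20000000000000000000080000000000400104000000200000000000000000000000 := rS 0x1e170210806f11713c8a0620824164b268e422d23486437088ca9c4aa5198c4ee8554a0cf26b89034b0574896d611537804be27 (k8 c4323 c4382 c4847 c1349 c4390 c4628 c841 c4327 (k8 c1147 c4476 c4865 c4825 c4442 c540 c1976 c4345 (k8 c1497 c1890 c4441 c4339 c4385 c4381 c4330 c4449 (k8 c4482 c4315 c4436 c4437 c4864 c4275 c4279 c4282 (k8 c4375 c622 c1145 c1850 c4462 c1217 c1440 c4839 (k4 c4432 c796 c4472 c4461 (k2 c1950 c264 (k1 c2108 k0)))))))) (by decide +kernel)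
def c4867 : PP 8 4 T 0x20000000000000080000080000000000000008000000000050000000000000000080 := rS 0x881c0b06c4219789045c4b13a9c4aa519a755231894243e01 (k8 c4847 c1098 c4319 c4825 c4441 c4345 c4343 c4339 (k8 c4385 c4381 c4330 c4323 c4375 c4839 c1850 c4432 (k4 c1871 c837 c689 c4465 (k2 c4466 c521 (k1 c1219 k0))))) (by decide +kernel)
def c4868 : PP 8 4 T 0x20000000000000000000080000000000400008000000000054000100000000000080 := rS 0xb8b88a231b06c6a418a89d4e25528cd52318900612d3 (k8 c4867 c4319 c4847 c4825 c4441 c4345 c4339 c4385 (k8 c4381 c4330 c4323 c4390 c1850 c1309 c689 c4470 (k4 c1409 c442 c2111 c521 (k1 c4819 k0)))) (by decide +kernel)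
def c4869 : PP 8 4 T 0x20001000000000000000080000000000400508000000000050000000000000001080 := rS 0x1a2085c6e1007865e24a698e41709 (k8 c4319 c4 c1138 c4867 c4868 c4434 c1874 c1333 (k4 c4463 c318 c612 c1851 (k2 c4465 c689 k0))) (by decide +kernel)
def c4870 : PP 8 4 T 0x200000000000108000000000008000000000000000040 := rS 0xb048dc3241 (k4 c1049 c1874 c1414 c1225 (k2 c623 c4462 k0)) (by decide +kernel)
def c4871 : PP 8 4 T 0x1000000000000000000000000001500000000000004000420054000005005000400441 := rS 0x2f11808101d (k4 c1025 c4462 c4726 c4547 (k2 c797 c2111 k0)) (by decide +kernel)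
def c4872 : PP 8 4 T 0x20000000000000000000080000000000400100000000200000000000000000000000 := rS 0x462f10108144b1a85c3a072693e89093d03506792c15d611513a454e252fa94663135805fa8554c48b66f (k8 c1349 c841 c4825 c4345 c1497 c4377 c4847 c4442 (k8 c4441 c4339 c4385 c4382 c4381 c4330 c4327 c4323 (k8 c4390 c4628 c1147 c4476 c540 c1976 c4865 c4866 (k8 c4319 c4484 c4396 c4451 c4869 c1025 c520 c1033 (k4 c4870 c4871 c703 c535 (k2 c1953 c833 (k1 c2111 k0))))))) (by decide +kernel)
def c4873 : PP 8 4 T 0x1000000000000000000000000201500000000108004000420050000005005000000041 := rS 0x2317880840a258d42e1d (k8 c1025 c520 c1033 c4870 c4871 c703 c535 c1953 (k2 c833 c2111 k0)) (by decide +kernel)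
def c4874 : PP 8 4 T 0x20001000000000000000080000000000000008000000000054000000000000001080 := rS 0xb82e23228386c110d8d4831513a9c4aa519aa4631200c2472d3 (k8 c4867 c1138 c4319 c4847 c4825 c4441 c4345 c4339 (k8 c4385 c4381 c4330 c4323 c4390 c1850 c1309 c689 (k8 c609 c4470 c4463 c442 c1328 c521 c2111 c4819 k0))) (by decide +kernel)
def c4875 : PP 8 4 T 0x20000000000000000000080000000000000108000000200000000000000000000000 := rS 0x1d018dc200f2534c1606069349eb02c510e25741c257f1513a9c4a5f528cd3a3100bf50aa98916cde8e (k8 c4872 c1349 c841 c4825 c4345 c1497 c4377 c4847 (k8 c4441 c4343 c4339 c4385 c4382 c4381 c4330 c4323 (k8 c4390 c109 c4319 c643 c1226 c706 c4484 c4476 (k8 c4480 c4396 c4451 c4865 c4873 c4 c4867 c4874 (k4 c1333 c4463 c318 c342 (k2 c761 c4726 k0)))))) (by decide +kernel)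
def c4876 : PP 8 4 T 0x10000001000000000000000000201500101800104400400440048000005005000000401 := rS 0xe0dcd21084034f2582bb4c320f (k8 c1333 c1874 c4375 c1147 c4476 c540 c4865 c4482 (k4 c4463 c4437 c318 c4859 (k1 c761 k0))) (by decide +kernel)
def c4877 : PP 8 4 T 0x20000000000000000000080000000000000100000000200008000000000000000080 := rS 0xd8187008ac41ed38ac644e9153894be99528cd523135c4802777e96cde8e0593c8a7b (k8 c4875 c1217 c1440 c4 c4872 c1349 c841 c4377 (k8 c1890 c4847 c4825 c4442 c4441 c4345 c4339 c4385 (k8 c1930 c4382 c4381 c4330 c4327 c4323 c4449 c4390 (k8 c4375 c1333 c4876 c608 c4480 c4463 c497 c3382 k0)))) (by decide +kernel)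
def c4878 : PP 8 4 T 0x20000200000000000000000000080 := rS 0x1836 (k2 c497 c496 (k1 c3382 k0)) (by decide +kernel)
def c4879 : PP 8 4 T 0x10000001000000000040000000001500100000104000100020040000005005001011401 := rS 0x14380e (k4 c4463 c4859 c264 c1026 k0) (by decide +kernel)
def c4880 : PP 8 4 T 0x20000000000000000000080000000000000100000000200000000000000000000080 := rS 0x1d1708da44d348647308069e4b0b02b9c422352593c8a0b8ac644ea71297d32a519aa4626b89004eefd2d9bd1c7b (k8 c4875 c4872 c1349 c841 c4377 c1890 c4847 c4825 (k8 c4442 c4441 c4345 c4339 c4385 c1930 c4382 c4381 (k8 c4330 c4323 c4449 c4390 c4 c1217 c1440 c4877 (k8 c1309 c609 c4878 c801 c4480 c4476 c540 c4865 (k8 c4482 c1138 c4436 c4437 c1975 c4879 c4372 c4839 (k2 c760 c4724 k0)))))) (by decide +kernel)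
def c4881 : PP 8 4 T 0x10000000000000000080000000201500100000004000100020040000005005010000000 := rS 0x58b89a11 (k4 c4275 c4282 c4839 c622 (k1 c4724 k0)) (by decide +kernel)
def c4882 : PP 8 4 T 0x20000000000000000014080200000000000100000000200040000000000000000000 := rS 0x2de2eb56025cea7359a252a7da1a8a2aaf55a0d1687339fd72cf65a6c804a26af45e23100d46c0a0c8041ad334c20f26b3b8740e31548ce2499528954e278c9ecb0574896cdefd (k8 c4377 c1349 c841 c4327 c1147 c4476 c4875 c4449 (k8 c4323 c4330 c4381 c4385 c1930 c4825 c4339 c4345 (k8 c4441 c4880 c1025 c1890 c4442 c540 c4482 c4437 (k8 c4881 c504 c4847 c4436 c4859 c623 c1033 c535 (k8 c833 c4848 c108 c325 c2111 c1414 c1848 c3769 (k8 c3392 c3445 c2655 c2638 c4440 c4322 c1976 c4445 (k8 c4346 c4390 c4860 c4393 c1354 c859 c4529 c4531 (k8 c1150 c539 c1195 c2123 c1436 c4420 c1748 c4492 k0)))))))) (by decide +kernel)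
def c4883 : PP 8 4 T 0x20001000000000040008090000000000000140000000020400004080000600000000 := rS 0x2cd2c7da1a8968cc (k8 c2060 c2061 c4853 c4395 c1357 c1436 c4531 c1195 k0) (by decide +kernel)
def c4884 : PP 8 4 T 0x20000000000000000000080200000000000100000000200040000000000000000000 := rS 0x44456e5168a5443a6825588c34d94d7240250bc9a231f9fc6c2002029a6bd13a9c4a99528cd523100bf46a0d0e81c3269841e4b0574896cde6b89464f677 (k8 c1890 c4875 c4449 c4825 c4442 c1349 c841 c4327 (k8 c1147 c4476 c540 c4482 c4437 c4436 c4880 c1025 (k8 c504 c1033 c4377 c4847 c4441 c4345 c4339 c4385 (k8 c1930 c4381 c4330 c4323 c108 c4881 c4859 c534 (k8 c535 c623 c2655 c2367 c833 c325 c4848 c2111 (k8 c1414 c3445 c3942 c1848 c4883 c4882 c1787 c1056 (k8 c1055 c4852 c834 c2424 c4403 c1641 c4337 c4468 k0))))))) (by decide +kernel)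
def c4885 : PP 8 4 T 0x20000000000000000000080200000000000100000000200000000000000000000000 := rS 0x482c6c442706e10792c15ce319489ae24772d9bcf607 (k8 c4880 c4875 c1349 c841 c1890 c4825 c4442 c4327 (k8 c4449 c95 c1147 c4476 c540 c4482 c4315 c4884 (k4 c1440 c1439 c438 c233 (k1 c4462 k0)))) (by decide +kernel)
def c4886 : PP 8 4 T 0x20000000000000000000080000000000000000000000000080000000000000000000 := rS 0x1f108746c44128cd3b12 (k8 c4825 c4343 c4339 c4381 c1440 c1439 c1219 c440 (k2 c272 c4466 k0)) (by decide +kernel)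
def c4887 : PP 8 4 T 0x1000000000000000100101500000800000020000048040000085005000000040 := rS 0x34c1e2f048803a0d089343e39 (k8 c88 c272 c325 c319 c1408 c4656 c4466 c231 (k4 c2777 c1416 c4839 c4463 k0)) (by decide +kernel)
def c4888 : PP 8 4 T 0x20000000000000000000080000000000000000000000008000000050000200000000 := rS 0x1a44d178e62a27538954a33548c6244f (k8 c4886 c4825 c4441 c4345 c4339 c4385 c4381 c4330 (k4 c4323 c4390 c360 c2777 (k2 c1975 c4470 (k1 c4839 k0)))) (by decide +kernel)
def c4889 : PP 8 4 T 0x20000000000000000000080000000000000100000000200000000000000000000000 := rS 0x94d20b83436192684408030410c161e108741e372b0d4b27041ac40e7b4716d0afd5ec56322753894bea519aa4626b8913cee6f (k8 c1349 c1890 c4886 c4825 c4442 c4441 c4345 c4339 (k8 c4385 c4382 c4381 c4330 c4323 c4449 c4390 c108 (k8 c4377 c1497 c841 c4872 c4875 c4880 c4885 c1977 (k8 c4480 c536 c3291 c1418 c4887 c1415 c761 c4888 (k8 c4466 c271 c276 c1065 c223 c1066 c582 c1974 (k4 c4540 c425 c1288 c532 (k2 c4463 c2108 (k1 c4375 k0))))))))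 (by decide +kernel)
def c4890 : PP 8 4 T 0x1502000200050054000000000081015000 := rS 0xb86c060b (k4 c271 c223 c598 c1831 (k1 c2108 k0)) (by decide +kernel)
def c4891 : PP 8 4 T 0x1000000002000200000000000000000020000041 := rS 0x5c362e01916129a (k8 c1960 c4437 c1219 c791 c764 c599 c1831 c4819 k0) (by decide +kernel)
def c4892 : PP 8 4 T 0x20000000000000000000080000000000000500000000048000000000000080000000 := rS 0x784496f0268342e190d81006082182c4a31279bcb278849a10a6d30975526b2fa9d4b193da762477 (k8 c1890 c4825 c4343 c1226 c4449 c4385 c4330 c4382 (k8 c4442 c4345 c4889 c4325 c4699 c1442 c2119 c4437 (k8 c4482 c37 c1349 c4886 c4441 c4381 c271 c276 (k8 c1065 c223 c1066 c598 c4540 c1831 c528 c1974 (k4 c4465 c4434 c345 c264 (k1 c4890 k0)))))) (by decide +kernel)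
def c4893 : PP 8 4 T 0x20000000000000000000080000000000000500000000048000000000000100000000 := rS 0x18061c0fa68f10934214f71930a9cbea536a75526b89004ee5d (k8 c4889 c1890 c4847 c4825 c4442 c4345 c4343 c4699 (k8 c4385 c4382 c4330 c4325 c4449 c1226 c1442 c2119 (k8 c4437 c4482 c1960 c4892 c4466 c2765 c4891 c1018 k0))) (by decide +kernel)
def c4894 : PP 8 4 T 0x21000000000000000000080000000000000008000000020000000040000020000000 := rS 0xf10d8642e4a268191e04228e5229d18c489e41 (k8 c1851 c4886 c4825 c4441 c4343 c4327 c1139 c1219 (k8 c1026 c761 c1025 c1975 c4868 c521 c268 c689 (k2 c4434 c4465 k0))) (by decide +kernel)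
def c4895 : PP 8 4 T 0x20000000000000000000080000000000000500000000020000000040000100000000 := rS 0x250609a170410c0e020f074f50934214167938c56322730a9c4a5f529b466a9189ae2401279dcde5d (k8 c4889 c1349 c1890 c4886 c4847 c4825 c4442 c4441 (k8 c4345 c4339 c4699 c4385 c4382 c4381 c4330 c4325 (k8 c4323 c4449 c4390 c536 c540 c535 c1441 c2119 (k8 c4437 c4482 c4894 c4466 c4726 c1098 c276 c222 (k4 c520 c1974 c1225 c4871 (k1 c1874 k0)))))) (by decide +kernel)
def c4896 : PP 8 4 T 0x20000000000000000000080000000000000500000000050000000000000100000000 := rS 0x57 (k2 c4893 c4476 k0) (by decide +kernel)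
def c4897 : PP 8 4 T 0x20000000000000000000080000000000000500000000000000000040000100000000 := rS 0x214d27b2d164c2a72fa94daa935c48ee5d (k8 c4889 c1890 c4825 c4442 c4345 c4699 c4385 c4382 (k8 c4330 c4325 c4895 c4896 c704 c845 c1442 c2119 k0)) (by decide +kernel)
def c4898 : PP 8 4 T 0x20000000000000000000080000000000000800000000000000000000000000000000 := rS 0x5b2b965607830a44d712 (k8 c4825 c4442 c4327 c4325 c1976 c1977 c540 c1147 (k2 c624 c4476 k0)) (by decide +kernel)
def c4899 : PP 8 4 T 0x1000000000000000000000011500080000000040114000120000000060014200000000 := rS 0x16b9456481d0f56c7331c44fafc (k8 c4480 c4379 c4337 c818 c1110 c4088 c1743 c1037 (k4 c1038 c314 c4403 c368 (k1 c4468 k0))) (by decide +kernel)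
def c4900 : PP 8 4 T 0x100011500000000000158110000000800000020000009000000 := rS 0x2dd0e49 (k4 c2335 c1902 c1038 c4032 k0) (by decide +kernel)
def c4901 : PP 8 4 T 0x20100011500000000000158110000001000010020000000000000 := rS 0x2dd0e3b (k4 c1763 c1630 c1037 c4032 k0) (by decide +kernel)
def c4902 : PP 8 4 T 0x800000001000000000120011500000000000158010040001000010020000209000000 := rS 0x10eb7560ec5a2b720f5a25318aac5f4b289d4f245198a52aaf (k8 c4346 c1786 c834 c4339 c440 c599 c1785 c1595 (k8 c4429 c837 c4445 c4441 c4900 c4901 c1782 c4475 (k4 c314 c4285 c4403 c2112 (k2 c1037 c1905 (k1 c4032 k0))))) (by decide +kernel)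
def c4903 : PP 8 4 T 0x100000000000000000000020000000010000000050000000000000000000000000 := rS 0xc711 (k2 c4338 c821 (k1 c4478 k0)) (by decide +kernel)
def c4904 : PP 8 4 T 0x100000000000000000000000000000000000000050001000000000080000000000 := rS 0xc711 (k2 c4411 c1606 (k1 c4478 k0)) (by decide +kernel)
def c4905 : PP 8 4 T 0x20000000000000054440010045000000401080000000020000080005400008000020 := rS 0x125ca281594582ad298b52e474599687055097c1a55449e8ce0a (k8 c334 c2638 c335 c2664 c2292 c690 c4382 c4329 (k8 c4313 c4392 c554 c724 c1311 c1196 c391 c415 (k8 c4903 c4707 c1956 c4904 c2112 c4402 c1720 c4473 k0))) (by decide +kernel)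
def c4906 : PP 8 4 T 0x80000000000000020000000000000004500000005000000011550000040100000000000000000000000 := rS 0x658298d0ca288b355a8b50a9d3ea5 (k8 c4385 c4384 c4330 c4329 c4427 c4458 c4460 c4690 (k4 c4545 c2124 c818 c4410 (k2 c1652 c4478 k0))) (by decide +kernel)
def c4907 : PP 8 4 T 0x1000000000002000000040010100000000000040054000001000000020000000045800 := rS 0xe916a1ad56e485991c761508b24fafc (k8 c4480 c4379 c4305 c4299 c4283 c4403 c4404 c662 (k4 c2107 c1037 c1307 c4421 (k2 c4492 c4088 (k1 c4417 k0)))) (by decide +kernel)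
def c4908 : PP 8 4 T 0x20000000000000004400010045000000400000000000000200090000000200000000 := rS 0x4bab5803d (k4 c1685 c1956 c3860 c927 (k1 c4707 k0)) (by decide +kernel)
def c4909 : PP 8 4 T 0x1020000001000000044450010145000000401500004000100000090025000209004020 := rS 0xb75aaccea87248f5825228b96967f17834aa3f4484cce5805324fafc389ccf4d1 (k8 c341 c335 c1230 c706 c4480 c4379 c4305 c334 (k8 c311 c2638 c2687 c2664 c2371 c2292 c690 c837 (k8 c4905 c4906 c4907 c4908 c4475 c1983 c2287 c2335 (k4 c1902 c709 c663 c1308 (k2 c1038 c4032 k0))))) (by decide +kernel)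
def c4910 : PP 8 4 T 0x20000000000000000010080000000000400100000000000000000040000000000000 := rS 0x1589716b905251a58aca63b6630126475c3451aaf559bd9e0f63b2d62073d10808030d05c32f125424d0851a34c5e412693c62258a8e4402736984baa93597d06a7528ce2401 (k8 c4847 c4825 c4339 c4385 c4330 c4898 c4382 c4442 (k8 c4345 c4889 c4325 c4699 c4323 c4897 c360 c4390 (k8 c4381 c4441 c4886 c1975 c1851 c837 c4839 c4470 (k8 c3299 c2119 c4437 c1309 c4434 c1874 c1830 c4465 (k8 c422 c4461 c1310 c335 c689 c4870 c3859 c3424 (k8 c3315 c3301 c1349 c4445 c4346 c4383 c341 c4909 (k8 c3305 c1125 c1478 c1477 c1046 c2037 c315 c4460 (k4 c3861 c835 c4475 c4285 (k2 c926 c2112 (k1 c1987 k0)))))))))) (by decide +kernel)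
def c4911 : PP 8 4 T 0x20000000000000000000080000000000400100000000000000000040000000000000 := rS 0x10cd03f2d566b9a5b117eaf55b3d8ecb2aa24ce580200c020a649f5f8715881cf41a0b865e30934214da612e9acbe42250d1a62f209349e31548ce24a512a9c72204189e2a6f (k8 c1349 c4390 c4323 c4898 c4897 c360 c4330 c4381 (k8 c4385 c4825 c4339 c4345 c4441 c4886 c1975 c1851 (k8 c837 c4839 c4470 c1309 c1310 c4382 c4442 c4889 (k8 c4325 c4699 c3299 c2119 c4437 c4434 c1874 c1830 (k8 c4465 c335 c689 c4870 c706 c4480 c4379 c4305 (k8 c334 c4847 c422 c4461 c311 c2638 c2664 c2292 (k8 c3859 c3424 c3301 c4445 c4346 c109 c4910 c4429 (k4 c1254 c1251 c1788 c4902 (k2 c4905 c4235 (k1 c1630 k0)))))))))) (by decide +kernel)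
def c4912 : PP 8 4 T 0x1000000000000020000080100000000010108000000001000110020000000000000 := rS 0x3fad566755cadd0ec4608ee964267b24fafc38a162a6f (k8 c1349 c4390 c3299 c706 c4480 c4379 c4305 c3301 (k8 c1310 c4426 c1763 c1711 c341 c1630 c1037 c1478 (k4 c709 c1251 c1788 c4235 (k1 c4032 k0)))) (by decide +kernel)
def c4913 : PP 8 4 T 0x800000001000000014120010100000000011118000040401000010020000209000020 := rS 0x53568b51665828acfc291ead566514aabc62ab228cc5e71 (k8 c706 c837 c4339 c440 c4445 c4441 c4346 c1786 (k8 c1595 c1251 c1788 c1782 c834 c4902 c314 c4313 (k4 c554 c724 c391 c4903 (k2 c415 c2112 k0)))) (by decide +kernel)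
def c4914 : PP 8 4 T 0x40000000000000001000000000000004400000045514000011180000040500000000000000000000000 := rS 0x31c4544cd56a18cb05 (k8 c4313 c554 c4235 c4903 c1908 c2128 c4337 c818 (k1 c4478 k0)) (by decide +kernel)
def c4915 : PP 8 4 T 0x40000000000000001100000001000004540000055514000010150000051501000000000100000000000 := rS 0x10e8b66189462b (k4 c4904 c4241 c4560 c2128 (k2 c1768 c1908 (k1 c4485 k0))) (by decide +kernel)
def c4916 : PP 8 4 T 0x40000000000001001000000001000004440010155514000010140014051501000000060004200000020 := rS 0x5a8a5446359c105a752c324fafc (k8 c4480 c4379 c4305 c311 c538 c391 c4915 c4311 (k4 c4407 c2118 c2828 c3297 (k1 c4899 k0))) (by decide +kernel)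
def c4917 : PP 8 4 T 0x40000000000000100000001001000010000000004000000000000000000000000000000010008100020 := rS 0x280a8a62d (k4 c390 c414 c4468 c4475 (k1 c1644 k0)) (by decide +kernel)
def c4918 : PP 8 4 T 0x40000000000000000000001001000010100010104000040000158010020000000004020000008050020 := rS 0x16ab71e924ea1414acd0f11 (k8 c4412 c1652 c553 c1566 c4917 c591 c366 c327 (k2 c1038 c1308 (k1 c4032 k0))) (by decide +kernel)
def c4919 : PP 8 4 T 0x40000000000001801000001000000014440010100514040001108004001501000014060004209004820 := rS 0xa65114c45582d32b94e6c5188bc1a1308b24fafc389fcce5844aad5ea9 (k8 c4345 c4346 c4445 c2664 c311 c2638 c4914 c706 (k8 c4480 c4379 c4305 c4299 c2687 c690 c837 c4441 (k8 c4913 c1230 c4907 c4918 c391 c4916 c4338 c780 (k2 c1864 c4712 (k1 c4475 k0))))) (by decide +kernel)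
def c4920 : PP 8 4 T 0x200000000000000100000a0000000000800000000000000008080000400a00000000 := rS 0xa2ad148aca62d66251449323a3466af18aae24c3 (k8 c3966 c4825 c4445 c4441 c4346 c4339 c4383 c3304 (k8 c1125 c1475 c1476 c1477 c915 c2037 c315 c2828 (k2 c861 c3861 (k1 c2112 k0)))) (by decide +kernel)
def c4921 : PP 8 4 T 0x20000000000000000000080000000000000100000000000000000040000000000000 := rS 0xcb05319f9451156d2972d14b8891c7d6499df858449c408b11f954147a0181c341784865e268659298e0f67a148434699345e451c88083151398542a71297d3ea5368cd523135aae240127a0cde5d (k8 c4889 c1349 c4898 c4886 c4847 c4825 c4445 c4442 (k8 c4441 c4345 c4339 c4699 c4385 c4384 c4382 c4381 (k8 c4330 c4329 c4325 c4323 c4390 c1851 c4897 c360 (k8 c440 c837 c1975 c4839 c4470 c1310 c3299 c3301 (k8 c3315 c3424 c1309 c3859 c2119 c4434 c1874 c4437 (k8 c1830 c4465 c689 c422 c335 c334 c2292 c2371 (k8 c4870 c4461 c706 c2664 c311 c4480 c2638 c4305 (k8 c4379 c4911 c1305 c2931 c4912 c4920 c4919 c4458 (k4 c4690 c4545 c4906 c818 (k2 c4313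 c554 (k1 c4478 k0))))))))))) (by decide +kernel)
def c4922 : PP 8 4 T 0x80000000000000020000000000000004500000005000000011510000040100000000000000000000000 := rS 0x32c14c67e514455aa15397d3ea5 (k8 c4385 c4384 c4382 c4330 c4329 c4458 c4690 c4545 (k4 c4906 c818 c4313 c554 (k1 c4478 k0))) (by decide +kernel)
def c4923 : PP 8 4 T 0x40000000000010000000000000000000005000000000000000000000000000002020080000000000000 := rS 0x117628f07635 (k4 c18 c1723 c322 c1055 (k2 c4416 c4494 k0)) (by decide +kernel)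
def c4924 : PP 8 4 T 0x40000000000000000000000000000000000080000000000000000000000000002020080000000000000 := rS 0x30d82b628af632cb (k8 c3769 c4449 c108 c1724 c323 c1852 c1167 c4923 k0) (by decide +kernel)
def c4925 : PP 8 4 T 0x400000000000000010000000000000045400000555140000101500000015010000000000000002000a0 := rS 0x2c32c15ca67 (k4 c2635 c4283 c4307 c2516 (k2 c4915 c391 k0)) (by decide +kernel)
def c4926 : PP 8 4 T 0x800000000000000000005000010000400000000100000020000024000000020480001 := rS 0x18a934aa5da22b1eacd3aab (k8 c4445 c4343 c513 c1678 c1639 c1759 c1195 c763 (k2 c1030 c1056 (k1 c4553 k0))) (by decide +kernel)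
def c4927 : PP 8 4 T 0x10000000000000000004404000045514400000000000000000000800080000000000000 := rS 0x31546b4 (k4 c1411 c3388 c1788 c4854 k0) (by decide +kernel)
def c4928 : PP 8 4 T 0x400000000000000010000000000000045400000555140000101500000015010014000000000000550a0 := rS 0x15 (k2 c4925 c2107 k0) (by decide +kernel)
def c4929 : PP 8 4 T 0x40000000000000801000000000000004545000010514400010150040001524001424000000028415081 := rS 0x9562a4d2e2943188a8134eaa55eab3a8100633 (k8 c4339 c422 c4461 c2674 c4445 c4346 c4345 c4343 (k8 c4926 c4928 c267 c429 c1599 c816 c1608 c1634 (k2 c762 c4553 k0))) (by decide +kernel)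
def c4930 : PP 8 4 T 0x40000000000010801000000000000004544000010514000010150040001524001164080000028404081 := rS 0x130a954783b68b008ea957aac1a713a8446a9b (k8 c765 c18 c609 c2674 c536 c1407 c4445 c4346 (k8 c4345 c4927 c4929 c1711 c1581 c1853 c428 c649 (k2 c1678 c2107 k0))) (by decide +kernel)
def c4931 : PP 8 4 T 0x20000000000000000040080010000000010108000000000008000000000000000000 := rS 0x54265523a28a2876630a3261298fce61c0590cfeaf52a7d4ea124d2cfac97e0446ad307834ce0401869e2190b9149f09198040ccb67a14e2582ba74b66d2f97506ab54c488036 (k8 c4921 c1414 c4825 c4345 c4445 c4898 c4889 c4382 (k8 c4699 c704 c4343 c1226 c4476 c536 c1441 c3392 (k8 c3769 c1049 c4847 c4339 c4319 c4886 c442 c521 (k8 c1874 c4434 c4465 c422 c4461 c2635 c1407 c1333 (k8 c4375 c18 c609 c4463 c4305 c4379 c4922 c4924 (k8 c4329 c4330 c4384 c4385 c4346 c4914 c1955 c703 (k8 c4726 c3039 c3195 c3942 c4325 c4449 c4930 c2060 (k8 c3813 c3775 c1212 c3389 c429 c693 c719 c2107 k0)))))))) (by decide +kernel)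
def c4932 : PP 8 4 T 0x20000000000000000000080010000000010108000000000008000000000000000000 := rS 0x60a558a9761a4c7ad15a8ae86c68aa444aab202e5361c01869e2190b9149f0919804b0574ec48b66d0590c6a36 (k8 c4921 c18 c1955 c703 c4699 c704 c4825 c4343 (k8 c1226 c4476 c4847 c4339 c4319 c4886 c442 c521 (k8 c1874 c4434 c4465 c422 c4726 c765 c3445 c1414 (k8 c4445 c4381 c4327 c4390 c4931 c4391 c290 c3408 (k8 c460 c331 c1030 c2061 c4793 c1056 c763 c1853 (k1 c4553 k0)))))) (by decide +kernel)
def c4933 : PP 8 4 T 0x1120000000000000000080010000000000000000000000000008000000010020000000 := rS 0x4b8b16a2ba1b952225 (k8 c4381 c4327 c4289 c4391 c290 c3408 c4468 c4793 (k1 c912 k0)) (by decide +kernel)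
def c4934 : PP 8 4 T 0x40000000000000000000001000000000000000000000000010000000000000500000000000000200000 := rS 0x1a2e5 (k2 c4283 c455 (k1 c4475 k0)) (by decide +kernel)
def c4935 : PP 8 4 T 0x40000000000000000000001000000004140000000000000010050000000001501000000000000055000 := rS 0x68b948c15 (k4 c4934 c2107 c4404 c1764 (k1 c4475 k0)) (by decide +kernel)
def c4936 : PP 8 4 T 0x20000000000000000000080000000000010108000000000008000000000000000000 := rS 0x116cd2831caa13438a622ac249fe967d6499df81c02044060b0332ca61a21b3d724007865e2d38aa854e9f528cd52af55805065d1ac242e4527a141a712c15d3b122d9b4be36 (k8 c4921 c4382 c4699 c704 c4825 c4343 c1226 c4476 (k8 c536 c1407 c1441 c4886 c442 c521 c4319 c18 (k8 c4889 c4898 c4847 c4445 c4346 c4345 c4339 c4385 (k8 c4384 c4330 c4329 c4390 c4375 c4434 c1874 c1333 (k8 c1414 c3445 c3392 c1955 c4465 c3942 c3769 c1049 (k8 c703 c422 c609 c4461 c4726 c4463 c2635 c4305 (k8 c4379 c4922 c4914 c4924 c4932 c4338 c781 c1905 (k4 c531 c429 c4933 c4935 (k2 c1869 c1590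 (k1 c2124 k0)))))))))) (by decide +kernel)
def c4937 : PP 8 4 T 0x10000000000000000000000000020000000000000000000000200110000000000000000 := rS 0x86f1 (k2 c4435 c3860 (k1 c4472 k0)) (by decide +kernel)
def c4938 : PP 8 4 T 0x2000000000000000001500000001500000000000054000005005000415001 := rS 0x605110605e1b (k4 c4291 c4432 c2108 c2111 (k2 c268 c793 (k1 c4461 k0))) (by decide +kernel)
def c4939 : PP 8 4 T 0x40000000000000000000001000000000140000000000000010050000000001555000000000000055000 := rS 0xd2235159c15 (k4 c4934 c4935 c4400 c2107 (k2 c4474 c4374 k0)) (by decide +kernel)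
def c4940 : PP 8 4 T 0x1000000000000000000000000001500000000108004000420050000085005000020001 := rS 0x2c00e35 (k4 c18 c609 c319 c4873 k0) (by decide +kernel)
def c4941 : PP 8 4 T 0x1500000000000000000000054080085005010000000 := rS 0x5e23 (k2 c1410 c1953 (k1 c2111 k0)) (by decide +kernel)
def c4942 : PP 8 4 T 0x20000000000000000000080000000000000108000000000004000000000000004000 := rS 0x1b0c818081c213c632830b9150a0d38844b0574e96cda4d5e8d8de4f008c5523389294be255389e2a41 (k8 c1850 c4390 c4323 c4330 c4381 c4382 c4385 c4825 (k8 c4339 c4345 c4441 c4847 c4886 c1349 c4921 c108 (k8 c325 c4699 c704 c4343 c1226 c4476 c4940 c536 (k8 c1407 c1441 c442 c521 c4898 c4449 c4938 c4472 (k4 c4941 c1026 c1025 c268 (k2 c689 c4802 k0)))))) (by decide +kernel)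
def c4943 : PP 8 4 T 0x20000000000000000000080000000000000108000000000004000000000000000000 := rS 0x1788c360e13a9c4aa519aa46312009357b090b9146c4f (k8 c4886 c4921 c442 c521 c4319 c108 c325 c4847 (k8 c4825 c4441 c4345 c4339 c4385 c4381 c4330 c4323 (k4 c4942 c426 c1328 c4819 (k1 c2111 k0)))) (by decide +kernel)
def c4944 : PP 8 4 T 0x20000000000000000000080000000000000108000000000000000000000000000000 := rS 0x306910400cbc49417849146c4f (k8 c4886 c4921 c442 c4319 c521 c4943 c4434 c1874 (k4 c1414 c4936 c4465 c1049 (k1 c2661 k0))) (by decide +kernel)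
def c4945 : PP 8 4 T 0x20000000000000000000080000000000000100000000000000000000000000000000 := rS 0xb834321105080961b5895882782dc24d0853d9149a351b174de775ec64c2a72fa94daa935c489e83 (k8 c4898 c4886 c4825 c4442 c4345 c4699 c4385 c4382 (k8 c4330 c4325 c4449 c108 c1890 c1349 c4889 c4921 (k8 c18 c325 c442 c4944 c1442 c2119 c4437 c845 (k8 c4482 c3761 c1961 c628 c599 c1414 c4893 c799 (k4 c319 c309 c569 c573 (k1 c4682 k0)))))) (by decide +kernel)
def c4946 : PP 8 4 T 0x20000000000000000000080000000000000004000000000004000080400000000000 := rS 0x1d8b0792b96cde8e0e0889a395ec644ea712a654a33548c6240127c241a80 (k8 c4945 c1293 c4439 c4886 c4847 c4825 c4441 c4345 (k8 c4339 c4385 c1930 c4381 c4330 c4323 c4449 c108 (k8 c88 c325 c2111 c1410 c1409 c3328 c758 c4656 (k4 c1963 c4476 c4482 c1111 k0)))) (by decide +kernel)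
def c4947 : PP 8 4 T 0x20000000000000000000080420000000000004800200005400150000000085040800 := rS 0x61b150c3b14b06971957c49345a (k8 c271 c844 c4825 c4346 c4449 c4458 c3806 c781 (k4 c1102 c4761 c1635 c1907 (k1 c4762 k0))) (by decide +kernel)
def c4948 : PP 8 4 T 0x1000000000004500000055514000008050000000000000000000000000000000 := rS 0x515099b05 (k4 c4410 c1909 c4483 c2128 (k1 c4393 k0)) (by decide +kernel)
def c4949 : PP 8 4 T 0x4440000055514000000000000000000004000a00100010000000 := rS 0xcd5191856e5 (k4 c4403 c1641 c1142 c4241 (k2 c1317 c2128 k0)) (by decide +kernel)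
def c4950 : PP 8 4 T 0x20000000000000044440080010000000014040000200085404040400100005040800 := rS 0x24b948f430a289174a50a9d3ea554abd571220b44a2f00bc25009a (k8 c844 c4945 c4439 c1834 c4465 c4435 c4298 c1850 (k8 c4825 c4445 c4346 c4345 c4385 c4384 c4330 c4329 (k8 c4761 c4427 c4545 c2109 c4393 c1314 c4283 c367 (k1 c4473 k0)))) (by decide +kernel)
def c4951 : PP 8 4 T 0x20000000000000044440080010000000010040000200185404040400100005040800 := rS 0x288f8cd64a1942a74fa9552af55c49fa80 (k8 c4945 c4380 c4825 c4445 c4346 c4345 c4385 c4384 (k8 c4330 c4329 c4950 c1732 c1909 c4948 c2128 c1353 k0)) (by decide +kernel)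
def c4952 : PP 8 4 T 0x20000000000000000000080000000000000004000200004014000000000004000000 := rS 0x522b241960a7e1d99d5aa12fa7c824322b44a2f00c8401efd2a97426b32d224a6cb3b1e4df19679c05a1e0ea4442ab638281204018880e0d1c34c9e3119a944aa713c546a3717c242e8000abd5312 (k8 c4825 c4345 c4346 c4847 c4945 c1834 c4439 c4819 (k8 c4946 c1309 c4390 c4323 c4330 c4381 c4385 c4339 (k8 c4441 c4886 c4839 c4470 c1293 c1138 c2111 c793 (k8 c4461 c263 c4462 c2377 c4445 c833 c4327 c1139 (k8 c4466 c2359 c359 c3398 c4449 c1073 c1963 c4482 (k8 c3804 c4765 c3952 c271 c2645 c2551 c841 c2320 (k8 c4380 c1328 c4463 c348 c4465 c4435 c4298 c4295 (k8 c364 c1850 c4384 c4382 c4329 c4947 c924 c4949 (k4 c4951 c4313 c554 c671 (k2 c4904 c1720 (k1 c2112 k0))))))))))) (by decide +kernel)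
def c4953 : PP 8 4 T 0x10000000000000000000000010400000000000284800000000400150400000000000800 := rS 0xa5b0d8ac11fb310c75 (k8 c595 c1462 c1461 c399 c1893 c1635 c1907 c4460 (k1 c4759 k0)) (by decide +kernel)
def c4954 : PP 8 4 T 0x1000000000004400000055514000008040000000100000000000000000000000 := rS 0x511f19ac9 (k4 c1732 c1909 c4948 c2128 (k1 c1353 k0)) (by decide +kernel)
def c4955 : PP 8 4 T 0x20000000000000015040090010000000000040804000000500150400400080000800 := rS 0x3260a72620fc543d14a54fb435130c663116b050ecb2e969fa8055abd531252a7d4ea1 (k8 c4329 c4330 c4384 c4385 c4825 c4345 c4346 c4445 (k8 c4945 c4380 c271 c841 c3804 c4954 c1892 c2359 (k8 c4441 c4339 c2060 c2128 c4393 c1353 c859 c779 (k8 c275 c2112 c2223 c2115 c1095 c4408 c1731 c4483 k0)))) (by decide +kernel)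
def c4956 : PP 8 4 T 0x400000000000000001000000000000000000000000000000050084000000000000000000000000000 := rS 0x19305 (k2 c4408 c1731 (k1 c4483 k0)) (by decide +kernel)
def c4957 : PP 8 4 T 0x20000000000000000000080010000000000004000000000014000000000004000100 := rS 0x5199592b449add84c5398fd2e153199d147da5d0d98c1439fc76bd30a84be9f4c9b4824322b44a2f00c8401efd2a97426b32d01006b94494d96763c9be32cf380b43c1d4888444ab638280e0d1c34c9e3119a944aa713c546a3717c242e8000abd5312 (k8 c4825 c4345 c4346 c4847 c4945 c1834 c4439 c4819 (k8 c4946 c1309 c4390 c4323 c4330 c4381 c4385 c4339 (k8 c4441 c4886 c4839 c4470 c1293 c1138 c4462 c2377 (k8 c4445 c2111 c833 c4327 c1139 c4466 c2359 c359 (k8 c3398 c4449 c1073 c1963 c4482 c3804 c4765 c3952 (k8 c3448 c793 c4461 c271 c2645 c2551 c841 c2320 (k8 c4380 c1328 c4463 c348 c4465 c4435 c4298 c4295 (k8 c364 c1850 c4699 c1930 c4384 c4382 c4329 c4325 (k8 c108 c4949 c4953 c4954 c1892 c4955 c4395 c4460 (k8 c1358 c4758 c720 c1768 c718 c928 c398 c4956 (k8 c1095 c4759 c1167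 c1127 c2061 c587 c579 c1436 (k1 c2118 k0)))))))))))) (by decide +kernel)
def c4958 : PP 8 4 T 0x100000000000000000008000000000150000000000000000000000000000000000000 := rS 0x12717 (k2 c4362 c1127 (k1 c4487 k0)) (by decide +kernel)
def c4959 : PP 8 4 T 0x20000000000000000000080000000000000004000000004014000000000004000000 := rS 0xcb0539311863f4b854ce3b4525452c143d2e22ac4d9a4a6cb44b3c267616b1caa702d1e4146f04c65326d57aac820721810061e0e8e22a37488846a4568945e0190803c44d3178049e31548ce24a512a9c4efd0685e1280 (k8 c4945 c4439 c1834 c1293 c4380 c4323 c4330 c4381 (k8 c4385 c4825 c4339 c4345 c4441 c4886 c4847 c4819 (k8 c4839 c2111 c1328 c4463 c348 c4465 c4435 c4298 (k8 c4295 c1309 c833 c4327 c4946 c4390 c4470 c1139 (k8 c4466 c793 c4461 c364 c1138 c1850 c4445 c4346 (k8 c4699 c1930 c4449 c263 c1073 c4462 c1963 c271 (k8 c359 c2320 c2377 c2359 c4482 c2551 c3398 c3952 (k8 c3804 c4765 c4952 c1888 c4957 c4338 c4458 c1904 (k8 c3806 c781 c860 c4758 c1102 c720 c718 c928 (k4 c398 c4958 c4759 c1095 (k2 c4408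 c1649 (k1 c4903 k0)))))))))))) (by decide +kernel)
def c4960 : PP 8 4 T 0x15000014051520200000400008000000000000000000000 := rS 0xa3499f0ca67 (k4 c920 c556 c2045 c1070 (k2 c1354 c2125 k0)) (by decide +kernel)
def c4961 : PP 8 4 T 0x202000002000080000000000000000000000000000000000000000000000000000 := rS 0x2a9fc22490691c2ac709b241e7d (k8 c4379 c4376 c4305 c4401 c4289 c4283 c4374 c4371 (k4 c4281 c4275 c4313 c4406 (k1 c2107 k0))) (by decide +kernel)
def c4962 : PP 8 4 T 0x220000000002000080000000000000000000000000000000000000000000000000000 := rS 0x15a8c4e491191c5ac714a844a9f (k8 c4384 c4381 c4329 c4402 c4289 c4285 c4374 c4372 (k4 c4281 c4277 c4337 c4411 (k1 c2110 k0))) (by decide +kernel)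
def c4963 : PP 8 4 T 0xa000000000002000080000000000000000000000000000000000000000000000000000 := rS 0x1eae472491a91c7ec71dadc6eb5 (k8 c4389 c4386 c4353 c4403 c4289 c4287 c4374 c4373 (k4 c4281 c4279 c4361 c4416 (k1 c2113 k0))) (by decide +kernel)
def c4964 : PP 8 4 T 0x100000000000000000020000000010100000104080004000000000000000000000 := rS 0x2d9656493 (k4 c1125 c4548 c657 c665 (k1 c4476 k0)) (by decide +kernel)
def c4965 : PP 8 4 T 0x2000002000002000080000000000080000100000000080001000000000040000000000 := rS 0xb4b22c9cc3e3c5cc5cae094a9d56a8f388dd6e391a8fc766f829f81e0d63b24fa11248548e130000c5a05 (k8 c655 c4285 c918 c4461 c4401 c4374 c4283 c4281 (k8 c4275 c4379 c4305 c4289 c4371 c4376 c2107 c4961 (k8 c4378 c4403 c4287 c4373 c4279 c4353 c4386 c4387 (k8 c4388 c4389 c594 c858 c4559 c751 c4963 c4964 (k4 c2113 c274 c1614 c487 (k2 c4481 c4476 (k1 c665 k0))))))) (by decide +kernel)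
def c4966 : PP 8 4 T 0x20000000002002000080000044010080020000000000000000000000040040200000000 := rS 0x15ccd55af062c121afc724d1a92c5a5314944664527b445e41 (k8 c4433 c4432 c4298 c4297 c4295 c4293 c4405 c4402 (k8 c4290 c4285 c4375 c4373 c4282 c4279 c4369 c4446 (k4 c4450 c316 c2114 c1700 (k2 c2069 c2112 (k1 c989 k0))))) (by decide +kernel)
def c4967 : PP 8 4 T 0x21002002002000080000024000000000000000100080000000000040040000000100 := rS 0x578c5569a4c9ea3277100195a7905a51645328b4483055da05449f639248e293644c66270d8941aa52f934464b539a45e6b0000c5a050b968b2934695ce66f (k8 c4378 c1085 c921 c4383 c1125 c657 c4476 c4431 (k8 c655 c4285 c918 c4461 c492 c4432 c756 c4330 (k8 c4375 c4372 c4282 c4382 c4385 c4371 c4381 c4291 (k8 c4277 c4293 c4502 c4479 c4402 c4374 c4281 c4289 (k8 c4384 c4200 c4380 c4945 c4961 c4433 c4298 c4405 (k8 c4290 c4548 c4964 c2642 c2649 c2861 c4462 c495 (k8 c1023 c4966 c4482 c1131 c705 c1701 c317 c2873 (k1 c2112 k0)))))))) (by decide +kernel)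
def c4968 : PP 8 4 T 0x20000000002002000080000044000000000010080200000001000000040000000000800 := rS 0x114cd4386578c121afc724d1a92c2a5309944364527b442e41 (k8 c4433 c4431 c4298 c4297 c4295 c4291 c4405 c4401 (k8 c4290 c4283 c4375 c4373 c4282 c4279 c4369 c4446 (k4 c4450 c2114 c308 c1692 (k2 c2069 c2109 (k1 c725 k0))))) (by decide +kernel)
def c4969 : PP 8 4 T 0x21002002002000080000024000000000000000000000001000000040040000000100 := rS 0x458650ead3ba7232990e26c14894b01ce85328b4482bb409b226330d8954a4d25a9cd22f3580006050b968b2934695ce66f3318d449f1189c522d2ec460a652f9f81e0d63b24fa11248548e13 (k8 c4401 c4374 c4283 c4281 c4275 c4379 c4305 c4289 (k8 c4371 c4376 c2107 c4382 c554 c4961 c4962 c4377 (k8 c4285 c4402 c4277 c4372 c4384 c4200 c818 c4478 (k8 c4378 c1085 c921 c4383 c1125 c657 c4476 c4431 (k8 c655 c918 c4461 c492 c4432 c756 c4330 c4375 (k8 c4282 c4385 c4381 c4291 c4293 c4502 c4479 c4380 (k8 c4945 c4433 c4298 c4405 c4290 c4967 c498 c593 (k8 c2579 c4462 c2936 c567 c1031 c4968 c4488 c4679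 (k4 c2953 c1693 c309 c721 (k1 c2109 k0)))))))))) (by decide +kernel)
def c4970 : PP 8 4 T 0x21002002002000080000005000000000000000000000001000001040040000000000 := rS 0x2583c7410874105739ae072351f8ecde033318d449f1189c525d88c14ca5f3f03c1ac7649f422490a91c262d (k8 c4285 c4401 c4374 c4283 c4281 c4275 c4379 c4305 (k8 c4289 c4371 c4376 c2107 c4382 c554 c4961 c4962 (k8 c4377 c4402 c4277 c4372 c4384 c4200 c818 c4478 (k8 c918 c4378 c4403 c4287 c4373 c4279 c2113 c1085 (k8 c921 c4969 c1057 c230 c4559 c4466 c593 c1193 k0))))) (by decide +kernel)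
def c4971 : PP 8 4 T 0x20020000002002000080001008000080000000000000000000000001000000000000000 := rS 0x158a8493322ec26790d8a271192c7e531d944664527b445e41538954b114ba452aa1 (k8 c4329 c1746 c4327 c1165 c4962 c4385 c4381 c4330 (k8 c4433 c4432 c4298 c4297 c4295 c4293 c4405 c4403 (k8 c4290 c4287 c4375 c4372 c4277 c4370 c4446 c1796 (k4 c2115 c4362 c1168 c4487 (k2 c4525 c1128 (k1 c949 k0)))))) (by decide +kernel)
def c4972 : PP 8 4 T 0x10001000002002000000001000010080000000000002000090000000000040000000080 := rS 0xab578c534993d1dcf2201694c525119b445e41 (k8 c4433 c4432 c4298 c4293 c4405 c4402 c4290 c4285 (k8 c495 c2452 c1023 c4482 c1131 c705 c317 c2873 (k2 c1972 c2112 k0))) (by decide +kernel)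
def c4973 : PP 8 4 T 0x10401002002002000080001000010080000000000000080015000000000040000000100 := rS 0x22108870c9e0ee9c4ca6c380a03a2d9e112683496152984ca21b27b44828307a04d869179ac0003168142e5a (k8 c4476 c4431 c655 c4285 c918 c4461 c492 c4432 (k8 c756 c4479 c4380 c4376 c4306 c4433 c4298 c4297 (k8 c4291 c4405 c4401 c4290 c4283 c4375 c4371 c4282 (k8 c4275 c1524 c721 c4972 c4462 c567 c2730 c1031 (k8 c4488 c4679 c969 c309 c1964 c2108 c2109 c685 k0))))) (by decide +kernel)
def c4974 : PP 8 4 T 0x20000002000000080000000020000000000080002000000400000000000000000000 := rS 0x2a19831452bc4e4d1192c664f17a9c4aa5 (k8 c4385 c4381 c4330 c4432 c4297 c4293 c4375 c4372 (k8 c4282 c4277 c163 c945 c2046 c725 c2111 c1484 k0)) (by decide +kernel)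
def c4975 : PP 8 4 T 0x2000084000000080000084000000000000000000000000 := rS 0x2d95cb2754b2c926b9 (k8 c107 c1658 c1434 c1436 c595 c657 c1188 c929 (k1 c4476 k0)) (by decide +kernel)
def c4976 : PP 8 4 T 0x21002002002000080000000000000000000000000000001000001040040000000000 := rS 0x938bb098a763ca74861e4d8843a7b04166325759a5582975b0fc765122b4482b148a85768145ab4d9131986c4aa52692d4e69179ac00030285ca6b5334460a652f98cbaa21189c522d4f9f81e0d63b24fa11248548e13 (k8 c4401 c4374 c4283 c4281 c4275 c4379 c4305 c4289 (k8 c4371 c4376 c2107 c4384 c4285 c4402 c4277 c4372 (k8 c4200 c4377 c818 c4382 c554 c4961 c4962 c4478 (k8 c4975 c4290 c4431 c655 c918 c4461 c492 c4432 (k8 c756 c4330 c4375 c4282 c4385 c4381 c4291 c4293 (k8 c4502 c4479 c4974 c721 c4380 c4945 c4329 c4327 (k8 c4303 c4433 c4298 c4295 c4405 c4403 c4287 c4970 (k8 c1165 c1749 c1746 c1163 c920 c4971 c656 c4973 (k8 c1224 c1057 c230 c865 c4466 c277 c1232 c601 (k4 c4482 c1096 c2115 c4362 (k2 c1128 c4487 k0))))))))))) (by decide +kernel)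
def c4977 : PP 8 4 T 0x21002002002000080000000000000000000000000000001000000040040000000000 := rS 0xb85b8262e3ca1c551ab5334460a652f98cbaa21189c522d4f9f81e0d63b24fa11248548e13 (k8 c4401 c4374 c4283 c4281 c4275 c4379 c4305 c4289 (k8 c4371 c4376 c2107 c4384 c4285 c4402 c4277 c4372 (k8 c4200 c4377 c818 c4382 c554 c4961 c4962 c4478 (k8 c4975 c4383 c4965 c4392 c4976 c4416 c234 c1743 (k2 c4492 c4969 k0))))) (by decide +kernel)
def c4978 : PP 8 4 T 0x8401002002002000080000000010080000000000000080011000001000040000000100 := rS 0x4362c6182c31f94c765122b4482570000c5a05 (k8 c655 c4285 c918 c4461 c751 c4433 c4298 c4295 (k8 c4405 c4403 c4290 c4287 c4362 c4420 c4973 c4370 (k2 c4446 c2115 k0))) (by decide +kernel)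
def c4979 : PP 8 4 T 0x21002002002000080000000000000000000000000000001000001000040000000000 := rS 0x232c15b45e86bb40c551aad3644c661b5293496a7348bcd61729ad572590f894ae091b00006053318d449f1189c522d2ec460a652f9f81e0d63b24fa11248548e13 (k8 c4401 c4374 c4283 c4281 c4275 c4379 c4305 c4289 (k8 c4371 c4376 c2107 c4382 c554 c4961 c4962 c4377 (k8 c4285 c4402 c4277 c4372 c4384 c4200 c818 c4478 (k8 c655 c918 c4461 c4977 c232 c751 c4381 c272 (k8 c487 c1471 c4975 c4290 c4431 c492 c4432 c756 (k8 c4330 c4375 c4282 c4385 c4291 c4293 c4502 c4479 (k8 c4974 c4383 c4965 c4380 c4945 c4392 c4978 c4492 (k2 c1749 c4971 (k1 c4973 k0))))))))) (by decide +kernel)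
def c4980 : PP 8 4 T 0x21002002002000080000000000000000000000000000001000000000040000000000 := rS 0xb78b8f172365ac54cc635109c462d149760b4346a7cca5f3f03c1ac7649f422490a91c2711 (k8 c4962 c4401 c4374 c4283 c4281 c4275 c4379 c4305 (k8 c4289 c4371 c4376 c2107 c4382 c554 c4384 c4383 (k8 c4392 c4961 c4377 c4402 c4285 c4372 c4277 c4200 (k8 c818 c4478 c4965 c4975 c4977 c1471 c4979 c4416 (k2 c1742 c4492 k0))))) (by decide +kernel)
def c4981 : PP 8 4 T 0x500002002002000080000045000000010150000000180001000001040000100000000 := rS 0xca1cef190526438740f968ae962c9cd27175c0e46a3f298eca21b6885c826f829f81e0d63b24fa11248548e13 (k8 c4401 c4374 c4283 c4281 c4275 c4379 c4305 c4289 (k8 c4371 c4376 c2107 c4961 c4378 c4433 c4431 c4298 (k8 c4291 c4405 c4403 c4290 c4287 c4373 c4279 c2113 (k8 c4361 c1125 c1085 c657 c4487 c921 c4476 c1193 (k8 c4964 c4466 c1031 c759 c4968 c4679 c1693 c309 (k1 c2109 k0)))))) (by decide +kernel)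
def c4982 : PP 8 4 T 0x28000000002002000000000000000000000000000000000000000001000000000000000 := rS 0x10d8a3f298eca2456890586c1 (k8 c4420 c4362 c4433 c4298 c4295 c4405 c4403 c4290 (k4 c4287 c4370 c4446 c2115 k0)) (by decide +kernel)
def c4983 : PP 8 4 T 0x500002002002000080000045000000010150000002080001000001000001100000002 := rS 0x10a193c1dd391905265365a2bc58385904ae57e1f8a8d89a4b0d93c2e4141a06867e078358ec93e84492152384cd22f (k8 c4432 c756 c4401 c4374 c4283 c4281 c4275 c4379 (k8 c4305 c4289 c4371 c4376 c2107 c4392 c4380 c4306 (k8 c4433 c4431 c4297 c4291 c4375 c4282 c4981 c4386 (k8 c272 c1511 c1471 c232 c487 c4466 c4492 c751 (k8 c4476 c2730 c1031 c759 c4982 c4488 c4679 c969 (k2 c309 c603 (k1 c2108 k0))))))) (by decide +kernel)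
def c4984 : PP 8 4 T 0x2000004010000080000084000000000000000000000000 := rS 0x5b2b9656493 (k4 c1658 c1434 c657 c1188 (k2 c665 c4476 k0)) (by decide +kernel)
def c4985 : PP 8 4 T 0x500002002002000080000000000000050000000002100084000001080001100000000 := rS 0x42864f0774e4662c9949a6c141c04afc3e1126834963b0d93c2e414183d0207 (k8 c495 c4380 c4376 c4306 c4433 c4431 c4297 c4291 (k8 c4403 c4375 c4371 c4282 c4275 c272 c1511 c232 (k8 c4466 c4462 c2730 c1029 c1031 c4487 c4982 c4488 (k4 c4679 c969 c309 c603 (k1 c2108 k0))))) (by decide +kernel)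
def c4986 : PP 8 4 T 0x20100000002002000000001000010000050000000000000000000001000000000000000 := rS 0x4930a2e43628fca63b28915a241 (k8 c4433 c4298 c4295 c4405 c4403 c4290 c4287 c4370 (k4 c4446 c4982 c2115 c4487 (k1 c1128 k0))) (by decide +kernel)
def c4987 : PP 8 4 T 0x10400000002002000000001000000000000050000002000085000000000000000000802 := rS 0x10e193c1dd38994d8702a530994436d10b904d22f (k8 c4432 c756 c4433 c4431 c4298 c4291 c4405 c4401 (k8 c4290 c4283 c567 c2730 c1031 c4488 c4679 c969 (k2 c309 c1964 (k1 c2109 k0)))) (by decide +kernel)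
def c4988 : PP 8 4 T 0x500002002002000080000040010004001100000002080001000001000081000000000 := rS 0x127176110d309b4e9ec3c080e82e32072d164aeb360a5d6cb54a8847e531d9448a41589f81e0d63b24fa112491c2663000142a0344abda28b (k8 c721 c4298 c1774 c681 c226 c4283 c654 c4461 (k8 c1606 c4401 c4374 c4281 c4275 c4379 c4305 c4289 (k8 c4371 c4376 c2107 c4303 c4433 c4295 c4405 c4403 (k8 c4290 c4287 c314 c1694 c4984 c4983 c1165 c1749 (k8 c1163 c920 c656 c4476 c495 c4986 c4987 c759 (k8 c4462 c4466 c1224 c1232 c865 c4488 c277 c4166 (k2 c4362 c1128 (k1 c4487 k0)))))))) (by decide +kernel)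
def c4989 : PP 8 4 T 0x400000000004000000000000000000040005000000000000000000000000000000080000000000000 := rS 0x17315 (k2 c4386 c1471 (k1 c4492 k0)) (by decide +kernel)
def c4990 : PP 8 4 T 0x400000000024001100002000000080000045000000000140000002000000000000040080000000102 := rS 0x2c8148603d2c42c249ae22abc2d16486bf3d8e49a35259149e4144abda257 (k8 c751 c4298 c1774 c681 c4433 c4297 c4295 c4375 (k8 c4373 c4282 c4279 c4365 c4369 c4446 c696 c4476 (k8 c2114 c4354 c4492 c1125 c1207 c315 c4459 c495 (k4 c4485 c4462 c1907 c2642 k0)))) (by decide +kernel)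
def c4991 : PP 8 4 T 0x800000000000000000000010000000000080000000102 := rS 0xc2105a4cb457 (k4 c751 c4476 c1123 c2642 (k2 c315 c4462 (k1 c495 k0))) (by decide +kernel)
def c4992 : PP 8 4 T 0x10400100002002000000000000000000000040000002080011000002000080000000000 := rS 0xca1cee996007014210387ce8955996826510d85c826917a255ed18b9ccae09000142a03 (k8 c226 c4283 c654 c4461 c234 c751 c1614 c4416 (k8 c4298 c1774 c681 c4432 c756 c4433 c4431 c4291 (k8 c4405 c4401 c4476 c4991 c857 c4481 c275 c498 (k8 c831 c4462 c4466 c4987 c1031 c4679 c1693 c309 (k1 c4687 k0))))) (by decide +kernel)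
def c4993 : PP 8 4 T 0x2000020000000000000000000000 := rS 0xf45b (k2 c64 c696 (k1 c4270 k0)) (by decide +kernel)
def c4994 : PP 8 4 T 0x21002002002000080000000000000000000000000000001000000000000000000000 := rS 0x365ac6166595b8262e3c45ab4d913349ac00053300c551132aed4a9f4697c4aa74889c9a232594c36330b8bd0305a19f81e0d63b24fa11248548e13 (k8 c4401 c4374 c4283 c4281 c4275 c4379 c4305 c4289 (k8 c4371 c4376 c2107 c4392 c4961 c4380 c4432 c4431 (k8 c4293 c4291 c4290 c4375 c4372 c4282 c4277 c4327 (k8 c4330 c4381 c4382 c4383 c4384 c4385 c4945 c554 (k8 c4962 c4980 c226 c4904 c654 c4461 c492 c756 (k8 c4502 c4479 c4974 c721 c4988 c4416 c234 c1742 (k4 c4993 c4991 c4992 c1434 (k2 c4990 c4989 k0)))))))) (by decide +kernel)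
def c4995 : PP 8 4 T 0x8400002002002000080000005000000000000000002180000000001000081000000000 := rS 0x2d0d8aeb94b8e49235238fd8e3b888852a59 (k8 c4993 c1694 c314 c4411 c4403 c4289 c4287 c4374 (k8 c4373 c4281 c4279 c4359 c4361 c920 c2113 c4476 (k1 c4985 k0))) (by decide +kernel)
def c4996 : PP 8 4 T 0x411002002002000080000005000000000000080000580400000001000080000000000 := rS 0xb33a968e257479cd70378b964d8391a91c7e3b37c152a9112a893ea124c4686c7 (k8 c4289 c4392 c4411 c4281 c1734 c1393 c4489 c1463 (k8 c939 c1694 c4961 c4378 c4403 c4287 c4374 c4373 (k8 c4279 c4479 c4993 c4995 c4989 c2113 c1085 c1476 (k4 c921 c4135 c4476 c594 (k2 c665 c4548 k0))))) (by decide +kernel)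
def c4997 : PP 8 4 T 0x11002002002000080000004000000000000080000084000000001000080000000004 := rS 0x87a5a2558ca45a994a6d890956aa24f9a4d65f000144e4d0688c96156386c661717a0e0b4388a849295 (k8 c1694 c4281 c1734 c4411 c4392 c4961 c4306 c4432 (k8 c4431 c4293 c4291 c4289 c4283 c4375 c4372 c4371 (k8 c4282 c4277 c654 c4461 c488 c492 c756 c1393 (k8 c4489 c4984 c1463 c4996 c4341 c4444 c4502 c720 (k4 c941 c940 c2024 c4458 (k2 c1904 c4485 k0)))))) (by decide +kernel)
def c4998 : PP 8 4 T 0x10002000002000080000005000000001000080000020010000001000000000000000 := rS 0x3aae0e2378a2351e56598e49235238fd8e3b37c14b65e (k8 c554 c2557 c4961 c4378 c4403 c4289 c4287 c4374 (k8 c4373 c4281 c4279 c552 c4476 c1426 c1067 c4486 (k4 c4386 c4387 c2113 c594 (k1 c4548 k0)))) (by decide +kernel)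
def c4999 : PP 8 4 T 0x401002002002000084000000000000000000000000120001000000000000000000020 := rS 0x4421116193521c9a4b29944364f6885d0681369f81e0d63b24fa11248548e13 (k8 c4401 c4374 c4283 c4281 c4275 c4379 c4305 c4289 (k8 c4371 c4376 c2107 c2685 c4380 c4306 c4431 c4298 (k8 c4297 c4291 c4405 c4290 c4375 c4282 c1653 c4479 (k4 c269 c2537 c2108 c2109 (k1 c685 k0))))) (by decide +kernel)
def c5000 : PP 8 4 T 0x401002002002000084000140000000500000000000020005000000040000000000020 := rS 0x85185fa7552681c9346a4b2293c825d (k8 c4377 c4433 c4297 c4295 c4375 c4373 c4282 c4279 (k4 c4999 c826 c824 c4566 (k2 c4488 c2114 (k1 c4446 k0)))) (by decide +kernel)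
def c5001 : PP 8 4 T 0x1002002002000080000004000000000000000000000001000001000080000000000 := rS 0x453290e890ca9956a5358c553125d8dd7b144ca35368f0e02cae58022d59e254897802a23227cce272688c6a4b29944363327b442e2f20c16867e078358ec93e8442a4709c3622a12480cc621 (k8 c314 c1606 c226 c4281 c1734 c4411 c4994 c4401 (k8 c4374 c4283 c4275 c4379 c4305 c4289 c4371 c4376 (k8 c2107 c4392 c4961 c4433 c4432 c4431 c4298 c4297 (k8 c4293 c4291 c4405 c4290 c4375 c4373 c4372 c4282 (k8 c4277 c4997 c1394 c4478 c4489 c2438 c554 c939 (k8 c1463 c3500 c3411 c4461 c4998 c37 c535 c4726 (k8 c760 c764 c1027 c1031 c4486 c4354 c4386 c4390 (k8 c5000 c4345 c4441 c4442 c4444 c4445 c2111 c268 (k4 c556 c1652 c941 c2109 (k1 c1752 k0)))))))))) (by decide +kernel)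
def c5002 : PP 8 4 T 0x1010002000000000000000000000000000100000000000000000000080001500000002 := rS 0x2451e570e0243e0f (k8 c4376 c272 c232 c4466 c751 c760 c4550 c4486 k0) (by decide +kernel)
def c5003 : PP 8 4 T 0x410002002002000080000440000000001900000002080001000041040080000000000 := rS 0x51152bc52ab0724d1a92c8a4f20895449f2f8000a0350c4686a730b3d12af689f81e0d63b24fa11248548e13 (k8 c4401 c4374 c4283 c4281 c4275 c4379 c4305 c4289 (k8 c4371 c4376 c2107 c4298 c1774 c681 c1522 c4301 (k8 c904 c4392 c4411 c1734 c226 c654 c4461 c488 (k8 c1393 c4489 c1463 c4433 c4297 c4295 c4375 c4373 (k8 c4282 c4279 c4988 c1429 c2114 c949 c4490 c4454 k0))))) (by decide +kernel)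
def c5004 : PP 8 4 T 0x401002002002000080000000000000000000000000080005000001000080000000000 := rS 0x1de32ba5f90d36793da74101e058740e8e2d2448a812cacd623712a893e5f88d0cfc0f06b24fa112384d8e8d509262ab610c34466c348bcd600028540617 (k8 c4431 c226 c4283 c654 c4461 c492 c4432 c756 (k8 c4479 c4372 c4994 c314 c5001 c4353 c4281 c1734 (k8 c1118 c4289 c4401 c4374 c4275 c4379 c4305 c4371 (k8 c4376 c2107 c4392 c4411 c488 c1393 c4489 c1463 (k8 c5002 c4303 c1163 c656 c4380 c4295 c4550 c4476 (k8 c4486 c495 c761 c567 c4466 c4462 c1232 c1224 (k8 c601 c865 c237 c1516 c5003 c4449 c1890 c4482 k0))))))) (by decide +kernel)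
def c5005 : PP 8 4 T 0x401002002002000080000000000000000000000000080001000001000080000000000 := rS 0x61b15829621a70ec56360fca63b2891482af689d56cc93585cd20002854062f (k8 c4432 c226 c4283 c654 c4461 c756 c4431 c492 (k8 c4305 c5001 c1744 c4298 c1774 c4433 c4295 c4405 (k8 c4403 c4290 c4287 c4479 c5004 c961 c960 c4674 (k4 c920 c1893 c3097 c1214 (k1 c2115 k0))))) (by decide +kernel)
def c5006 : PP 8 4 T 0x1002002002000080000000000000000000000000080001000001000080000000000 := rS 0x10f4b44ab1948b53294db1212a893e692f8000a272688c961b198bd0705a19f81e0d63b24fa110a91c270d88a849203 (k8 c226 c4281 c1734 c4411 c4994 c4401 c4374 c4283 (k8 c4275 c4379 c4305 c4289 c4371 c4376 c2107 c4392 (k8 c4961 c4306 c4432 c4293 c4291 c4375 c4372 c4282 (k8 c4277 c654 c4461 c488 c756 c1393 c4489 c1463 (k8 c5005 c4341 c4444 c4502 c720 c941 c940 c2024 (k2 c4458 c1904 (k1 c4485 k0))))))) (by decide +kernel)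
def c5007 : PP 8 4 T 0x1010100000000000000000000400080000100000100020000000000400000420000000 := rS 0x22c9639a41268f (k4 c760 c1029 c4486 c1648 (k2 c938 c4481 (k1 c4360 k0))) (by decide +kernel)
def c5008 : PP 8 4 T 0x1002002002000080000000000000000000000000000001000001000080000000000 := rS 0x594702d221e0e978b601511913e67599d51b155b084c60350c4472231dac60b433f03c1ac7649f422490a91c270d (k8 c4994 c4401 c4374 c4283 c4281 c4275 c4379 c4305 (k8 c4289 c4371 c4376 c2107 c4392 c4961 c4303 c4403 (k8 c4372 c4279 c4411 c1734 c226 c1606 c314 c5001 (k8 c4353 c1118 c1744 c1163 c5006 c1394 c4478 c4489 (k8 c2438 c2557 c554 c5007 c4466 c1153 c271 c4486 (k2 c4726 c1426 k0)))))) (by decide +kernel)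
def c5009 : PP 8 4 T 0x401002002002000080000004000000000000000000080001000001080000000000000 := rS 0x542694a314ca7632ac618822c095fa362a272688c96531993c4ab5514354311a198d3e5f3f03c1ac7649f422490a91c26a730964d869179ac00051580c5a17 (k8 c4431 c4285 c918 c5008 c655 c4461 c492 c4432 (k8 c756 c4479 c4993 c4301 c904 c4401 c4374 c4283 (k8 c4281 c4275 c4379 c4305 c4289 c4371 c4376 c2107 (k8 c488 c1393 c42 c4392 c4333 c896 c4994 c4489 (k8 c4975 c1464 c4297 c4293 c4290 c4375 c4372 c4282 (k8 c4277 c4386 c1383 c1511 c232 c4989 c5002 c4362 (k8 c4978 c4982 c966 c2050 c2046 c2053 c4488 c2111 (k1 c867 k0)))))))) (by decide +kernel)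
def c5010 : PP 8 4 T 0x10401002002002000080000000000000020000000400080005000000000040200000100 := rS 0xc55699579e980531494466d15127cbf0d5098623433f03c1ac7649f422490a91c2659569e53a6c348bcd6000280c5a17 (k8 c4431 c4285 c918 c655 c4461 c492 c4432 c756 (k8 c4479 c2975 c601 c2861 c4993 c4401 c4374 c4283 (k8 c4281 c4275 c4379 c4305 c4289 c4371 c4376 c2107 (k8 c4392 c4333 c4301 c896 c4994 c488 c1393 c4489 (k8 c4298 c4293 c4405 c4402 c4290 c4973 c4482 c1715 (k4 c1131 c1701 c317 c2112 k0)))))) (by decide +kernel)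
def c5011 : PP 8 4 T 0x401002002002000080000024000000000800000000080001000000040040000000000 := rS 0xbb8c1dc400604ab4ea0b4a25c3a391a8fc764182ad5450d50986234331a7cbe7e078358ec93e84492152384cb457399bcb26c348bcd6000280c5a17 (k8 c4431 c4285 c918 c655 c4461 c492 c4432 c756 (k8 c4479 c4993 c4378 c1085 c921 c4476 c4401 c4374 (k8 c4283 c4281 c4275 c4379 c4305 c4289 c4371 c4376 (k8 c2107 c488 c1393 c42 c4392 c4333 c4301 c896 (k8 c4994 c4489 c4975 c4961 c4433 c4403 c4287 c4373 (k8 c4279 c761 c931 c1476 c567 c593 c2861 c4559 (k4 c4462 c495 c1023 c5010 (k2 c4449 c4966 k0)))))))) (by decide +kernel)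
def c5012 : PP 8 4 T 0x401002002002000080000004000000000000000000080001000001000000000000000 := rS 0x75599c52a8f2d15ce6b81b964d8391a8fc766f829ac2e6917ad4c6915127cbe00028ac062d86a84c311a19f81e0d63b24fa11248548e13 (k8 c4401 c4374 c4283 c4281 c4275 c4379 c4305 c4289 (k8 c4371 c4376 c2107 c4392 c4333 c4301 c896 c4994 (k8 c4285 c918 c5008 c655 c4461 c488 c1393 c4489 (k8 c939 c42 c4975 c4432 c756 c4431 c492 c4961 (k8 c4378 c4403 c4287 c4373 c4279 c4479 c4993 c5009 (k8 c2113 c1085 c921 c4476 c5011 c858 c4135 c665 (k2 c594 c4548 k0))))))) (by decide +kernel)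
def c5013 : PP 8 4 T 0x801002002002000080000000000080000000000000080000000000000040000000000 := rS 0x8943d2d94ac45a9956a518abcda272688c965314944363368a0e0a5f069a40005018b45e25 (k8 c1464 c4432 c4285 c918 c655 c4461 c756 c4371 (k8 c488 c4961 c4306 c4298 c4293 c4291 c4405 c4402 (k8 c4290 c4375 c4372 c4282 c4277 c4341 c4346 c4441 (k8 c4444 c4445 c4502 c720 c2112 c941 c4458 c1904 (k2 c2024 c4485 k0))))) (by decide +kernel)
def c5014 : PP 8 4 T 0x1002002002000080000000000000000000000000080001000001080000000000000 := rS 0x1509a528c533195630e2c730327440095f89c9a232594c664f828954e59361a45e6b0bc551a7559ada26a24f97c0005018b61aa130c46867e078358ec93e84492152384c56b1 (k8 c4303 c5008 c4401 c4374 c4283 c4281 c4275 c4379 (k8 c4305 c4289 c4371 c4376 c2107 c4392 c4333 c4301 (k8 c896 c4994 c4285 c918 c655 c4461 c488 c1393 (k8 c4489 c5013 c5012 c1163 c1744 c1118 c4353 c4431 (k8 c492 c4432 c756 c4479 c4993 c904 c1464 c4961 (k8 c4297 c4293 c4290 c4375 c4372 c4282 c4277 c1511 (k8 c232 c5002 c966 c831 c1022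 c4481 c4362 c4978 (k4 c4982 c2050 c2046 c2053 (k2 c4488 c2111 (k1 c867 k0)))))))))) (by decide +kernel)
def c5015 : PP 8 4 T 0x20100000002002000000000000010000050000000000000000000001000000000000000 := rS 0xc1 (k2 c4450 c4986 k0) (by decide +kernel)
def c5016 : PP 8 4 T 0x1000002002000000000000010000050000005100080000000041000000000000000 := rS 0x49c5d84c5609da328b1f94c765122b448311 (k8 c4333 c4433 c4298 c4295 c4405 c4403 c4290 c4287 (k8 c721 c5015 c4482 c1893 c1096 c2115 c4362 c1128 (k1 c4487 k0))) (by decide +kernel)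
def c5017 : PP 8 4 T 0x2000000080000000020404000000080002000000400000000001000000000 := rS 0xa866294628a5789c9a23258cc9e2f (k8 c4432 c4297 c4293 c4375 c4372 c4282 c4277 c163 (k4 c945 c2046 c2053 c725 (k2 c2111 c1484 k0))) (by decide +kernel)
def c5018 : PP 8 4 T 0x1002002002000080000000000000000000000000080001000001000000000000500 := rS 0x1ce2e0682964eab35b2c55aa73644cd22f3585c4aa286a84c311a1a7cbe00028ac062d3f03c1ac7649f422490a91c2653 (k8 c4290 c4401 c4374 c4283 c4281 c4275 c4379 c4305 (k8 c4289 c4371 c4376 c2107 c4285 c918 c5008 c655 (k8 c4461 c488 c1393 c4392 c4333 c4301 c896 c4994 (k8 c4489 c1464 c4431 c492 c4432 c756 c5013 c4479 (k8 c904 c5017 c4303 c5012 c1163 c1744 c4993 c4961 (k4 c4462 c4978 c1022 c4481 k0)))))) (by decide +kernel)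
def c5019 : PP 8 4 T 0x1002002002000080000000000000001000000000080001000001000000000000000 := rS 0x784e90c3c9b109ec100b0ea392e458aa352a755b0dd5aa73644cd22f3585c4aa286a84c311a1a7cbe00028ac062d3f03c1ac7649f422490a91c2653 (k8 c4290 c4401 c4374 c4283 c4281 c4275 c4379 c4305 (k8 c4289 c4371 c4376 c2107 c4285 c918 c5008 c655 (k8 c4461 c488 c1393 c4392 c4333 c4301 c896 c4994 (k8 c4489 c1464 c4431 c492 c4432 c756 c5013 c4479 (k8 c904 c5017 c5014 c5012 c1744 c1746 c1118 c4353 (k8 c4295 c1165 c4486 c761 c567 c5018 c1224 c230 (k4 c865 c4466 c277 c1232 (k2 c5016 c601 k0)))))))) (by decide +kernel)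
def c5020 : PP 8 4 T 0x1002002002000080000000000000000000000000080001000001000000000000000 := rS 0x61b058a434e1d95e962b2415a7553ad8d91312a893e693597c00a101816222d1f94c765122b442e2f20986867e078358ec93e84492152384e1a2b (k8 c5008 c4994 c4401 c4374 c4283 c4281 c4275 c4379 (k8 c4305 c4289 c4371 c4376 c2107 c4392 c4301 c4433 (k8 c4432 c4431 c4298 c4295 c4405 c4403 c4290 c4287 (k8 c4285 c4333 c655 c918 c896 c4461 c488 c492 (k8 c756 c1393 c4489 c1464 c5013 c4479 c5012 c904 (k8 c1744 c5017 c5019 c4550 c938 c2994 c961 c960 (k4 c4674 c1253 c1893 c1214 (k1 c2115 k0)))))))) (by decide +kernel)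
def c5021 : PP 8 4 T 0x2000080000000000044011000000000000000000000080041000000000 := rS 0x11aa013924464716b1c5315 (k8 c4386 c4402 c4289 c4285 c4374 c4372 c4281 c4277 (k2 c2110 c1383 (k1 c4551 k0))) (by decide +kernel)
def c5022 : PP 8 4 T 0x1010000000000000000000000000000001100000000000080000000000002000000110 := rS 0xb03878428e (k4 c4486 c313 c1424 c495 (k2 c270 c4462 k0)) (by decide +kernel)
def c5023 : PP 8 4 T 0x11000002002000080000004014040001000080002040000000001080040000004002 := rS 0x578c534993d1dc0c791027518248ca562cb559968ae095fc545ac7298a4a23327b445e41a1a7c0a59 (k8 c4993 c2 c1394 c4392 c4433 c4432 c4298 c4297 (k8 c4293 c4405 c4402 c4290 c4289 c4285 c4386 c1511 (k8 c232 c751 c4476 c664 c1434 c4989 c4418 c4982 (k8 c5021 c5022 c1236 c1384 c601 c831 c1023 c4482 (k4 c1131 c705 c317 c868 (k1 c2112 k0)))))) (by decide +kernel)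
def c5024 : PP 8 4 T 0x10002000002000080000004400040001000080000000400000001040000000000000 := rS 0xe27447ae16a39248d48e3f638ecdf05 (k8 c4961 c4378 c4403 c4289 c4287 c4374 c4373 c4281 (k4 c4279 c1434 c2113 c1475 (k2 c4548 c4135 (k1 c594 k0)))) (by decide +kernel)
def c5025 : PP 8 4 T 0x800000040000000000040010000000000000000000000 := rS 0xae5b (k2 c664 c1187 (k1 c4476 k0)) (by decide +kernel)
def c5026 : PP 8 4 T 0x11002002002000080000004000000001000080002040000000001000040000000002 := rS 0x1b83cbe0d51ab556b32ca5e2063149942705 (k8 c4961 c4401 c490 c4402 c754 c4478 c4335 c4993 (k8 c5025 c4415 c4338 c4337 c4371 c488 c4376 c5023 (k1 c5024 k0))) (by decide +kernel)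
def c5027 : PP 8 4 T 0x411002002002000080000004000000000000080000040000000001000040000000002 := rS 0x1b0217256482d566594b9b220693598cca39248d48e3f6384c523b0b8bc1f05 (k8 c4961 c4376 c4432 c4431 c4403 c4402 c4401 c4289 (k8 c4287 c4374 c4373 c4281 c4279 c490 c754 c492 (k8 c756 c4478 c4479 c4335 c4993 c5025 c1434 c5026 (k4 c4550 c1205 c751 c2113 (k1 c232 k0))))) (by decide +kernel)
def c5028 : PP 8 4 T 0x2000000000000000000000000000000002000000000000000000000000001 := rS 0x18143633 (k4 c4293 c4291 c694 c958 (k1 c4461 k0)) (by decide +kernel)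
def c5029 : PP 8 4 T 0x401002002002000080000004000080001000000000000001000001080000000000000 := rS 0x993b298f2a9528c4d019021ee320a8b0800eb56795c3a702c1791c640fa34c6258889c9a230d8cc9e2f2ea060b433f0358ec93e84492152384e1a2b33c54120f (k8 c4376 c232 c4386 c5020 c5008 c4994 c4401 c4374 (k8 c4283 c4281 c4275 c4379 c4305 c4289 c4371 c2107 (k8 c4392 c4961 c4380 c4377 c4432 c4297 c4293 c4291 (k8 c4372 c4282 c4277 c4337 c1464 c818 c3440 c272 (k8 c4478 c4486 c554 c1426 c1425 c760 c800 c3500 (k8 c3411 c496 c4466 c4989 c4462 c4982 c702 c534 (k8 c2257 c4999 c1878 c1882 c826 c1961 c4839 c4482 (k2 c2011 c1111 k0)))))))) (by decide +kernel)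
def c5030 : PP 8 4 T 0x400000000000110002002002000080000004000044001000000000050000000001080000000000001 := rS 0x4362af28abb4206414042c00cb6242b874411960a55868c8b23d6a62500449a0d1a92c7ec7298eca21b22b442e414183cde8182c557e4f (k8 c4297 c1511 c4386 c4961 c4380 c4378 c4376 c4306 (k8 c4433 c4431 c4298 c4295 c4291 c4405 c4403 c4290 (k8 c4289 c4287 c4375 c4373 c4371 c4282 c4275 c4489 (k8 c4478 c1707 c851 c4989 c4486 c4362 c4418 c4420 (k8 c4982 c1384 c1027 c1067 c1383 c842 c224 c4476 (k8 c4461 c4726 c2257 c2108 c4735 c4397 c4493 c1175 (k2 c2014 c2115 k0))))))) (by decide +kernel)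
def c5031 : PP 8 4 T 0x401002002002000080000004014000040000080000040014000000080040000000001 := rS 0x31579a0d6842f8651a630f0852a040545806075a969661126834962d6394c52510d8cc9ed10b8bd0681a19b4120f (k8 c4376 c232 c5028 c4392 c4380 c4306 c4432 c4431 (k8 c4298 c4297 c4293 c4291 c4405 c4402 c4290 c4289 (k8 c4285 c4375 c4371 c4282 c4275 c5025 c4476 c1434 (k8 c494 c839 c4989 c4462 c4461 c4418 c311 c575 (k8 c842 c1384 c2201 c577 c2108 c562 c4479 c828 (k2 c1878 c2112 k0)))))) (by decide +kernel)
def c5032 : PP 8 4 T 0x1010000000002000080000004000044001100000000000020000000000040000004001 := rS 0x142101891421d4709c9223238b58e29 (k8 c4402 c4289 c4285 c4374 c4372 c4281 c4277 c4486 (k4 c760 c851 c2110 c224 (k2 c313 c4726 (k1 c535 k0)))) (by decide +kernel)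
def c5033 : PP 8 4 T 0x2002000000080000000001000000000000000800000000000000000000000004 := rS 0xc214224d0692c364f0ba0c1e81 (k8 c4380 c4376 c4306 c4431 c4297 c4291 c4375 c4371 (k4 c4282 c4275 c563 c2108 (k1 c1919 k0))) (by decide +kernel)
def c5034 : PP 8 4 T 0x411002002002000080000000014000000200080000000000000000080040000000001 := rS 0x14ccf57515123152a10d019358100624102a4224d0692c5a5314944363327b442e2f4183d026d (k8 c5028 c4380 c4376 c4306 c4432 c4431 c4298 c4297 (k8 c4293 c4291 c4405 c4402 c4290 c4285 c4375 c4371 (k8 c4282 c4275 c3481 c1384 c1383 c224 c4461 c5033 (k8 c2257 c4479 c2108 c1882 c1878 c2040 c4397 c2112 (k2 c1522 c4490 (k1 c909 k0)))))) (by decide +kernel)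
def c5035 : PP 8 4 T 0x401002002002000080000004000000001000000000000001000001080000000000000 := rS 0x572ca391aab56a5e206551c54bb434f804ce2b869f81e0d63b24fa11248548e13 (k8 c4401 c4374 c4283 c4281 c4275 c4379 c4305 c4289 (k8 c4371 c4376 c2107 c4994 c5008 c5020 c5027 c1394 (k8 c4392 c4377 c4386 c5029 c555 c5030 c4335 c4338 (k4 c4415 c5034 c4486 c5032 (k2 c800 c5031 k0))))) (by decide +kernel)
def c5036 : PP 8 4 T 0x401002002002000080000004000080001000000000000001000001000000000000000 := rS 0x226536bb5e87228210fa352c935923cea575c1616acf2f190c7111c8d45a3f1d8bc825d37c14fc0f06b1d927d089242a4709c34ce37 (k8 c5035 c5020 c4994 c4401 c4374 c4283 c4281 c4275 (k8 c4379 c4305 c4289 c4371 c4376 c2107 c4961 c4378 (k8 c4377 c4433 c4432 c4403 c4287 c4285 c4373 c4279 (k8 c4337 c818 c4478 c554 c3500 c3411 c4998 c2113 (k8 c37 c2502 c3450 c4548 c1124 c553 c1468 c1193 (k8 c926 c4486 c4466 c4354 c4390 c764 c1031 c1026 (k1 c5000 k0))))))) (by decide +kernel)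
def c5037 : PP 8 4 T 0x22000000002000000080000000000000000000000000000000000000040000000000000 := rS 0x10d7e39268d49645279057abb (k8 c4390 c4354 c4433 c4297 c4295 c4375 c4373 c4282 (k4 c4279 c4369 c4446 c2114 k0)) (by decide +kernel)
def c5038 : PP 8 4 T 0x2002000000000000814000800000000000200000000000001040000000000 := rS 0x18aae448b4a629288cda22f (k8 c4432 c4298 c4293 c4405 c4402 c4290 c4285 c2040 (k2 c2112 c1251 (k1 c869 k0))) (by decide +kernel)
def c5039 : PP 8 4 T 0x10401000002002000000000000800001020000001401008000000000000040200000000 := rS 0x116c257ab13431559a1327a (k8 c4482 c1132 c4055 c1701 c317 c4488 c5038 c163 (k2 c861 c1768 (k1 c1212 k0))) (by decide +kernel)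
def c5040 : PP 8 4 T 0x411002002002000080000005000000021400000000008004000001040040000000001 := rS 0xa9652b918ab56af0631560aed36435fc6040790f9dd3a060582564752c134962d298a4a21b199149ed1179060a6d2d9cd7039248fc76c7238d4de1d (k8 c763 c4378 c4373 c4374 c4289 c4403 c4287 c4281 (k8 c4279 c2113 c1085 c843 c5028 c4961 c4433 c4432 (k8 c4298 c4297 c4295 c4293 c4291 c4405 c4402 c4290 (k8 c4285 c4375 c4282 c4476 c1689 c4548 c4559 c663 (k8 c4462 c4731 c1023 c1098 c4814 c4466 c5039 c4369 (k8 c4446 c4448 c4449 c4450 c5037 c316 c2114 c860 (k4 c1700 c4486 c2112 c1208 (k2 c1507 c1755 k0)))))))) (by decide +kernel)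
def c5041 : PP 8 4 T 0x511002002002000080000004000040001000080000040000000001040040000000000 := rS 0x1c228744695929175c23d6a934b9894039248d48e3f638ecdf05a1a7c0265 (k8 c555 c5027 c1394 c4392 c4961 c4378 c4403 c4289 (k8 c4287 c4374 c4373 c4281 c4279 c4489 c4478 c898 (k8 c1738 c1707 c851 c2113 c4361 c4487 c5040 c1067 (k4 c803 c4486 c594 c4387 k0)))) (by decide +kernel)
def c5042 : PP 8 4 T 0x10002000002000080000004000040041100080000040014000001040000000000000 := rS 0x178b4b3 (k4 c5025 c4476 c5024 c577 k0) (by decide +kernel)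
def c5043 : PP 8 4 T 0x10400002002002000080000000004044101000000000000025000000000040020000000 := rS 0x1108443a2c32cf351a54e9c0226c9a23258b4a6292886c664f6885c5e83409f81e0d63b24fa11248548e13 (k8 c4401 c4374 c4283 c4281 c4275 c4379 c4305 c4289 (k8 c4371 c4376 c2107 c4380 c4306 c4432 c4431 c4298 (k8 c4297 c4293 c4291 c4405 c4402 c4290 c4285 c4375 (k8 c4372 c4282 c764 c1026 c4488 c906 c824 c1235 (k4 c4579 c269 c2537 c1924 (k2 c2108 c2109 (k1 c685 k0))))))) (by decide +kernel)
def c5044 : PP 8 4 T 0x401002002002000080000004000000001100000000000005000001000000000000000 := rS 0xc53468102743a993d1e43e770302d64098cc5d6b14399d4b0391a8fc761b19904df054f9b4029756a4d5710518dcce2b869f81e0d63b24fa11248548e13 (k8 c4401 c4374 c4283 c4281 c4275 c4379 c4305 c4289 (k8 c4371 c4376 c2107 c4994 c5008 c5020 c5035 c5036 (k8 c5041 c4415 c4413 c4338 c4335 c5027 c5028 c1394 (k8 c4961 c4378 c4433 c4293 c4291 c4403 c4287 c4373 (k8 c4279 c5042 c2502 c1109 c5032 c4389 c4963 c5037 (k8 c4559 c4481 c663 c4462 c1023 c1098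 c4814 c4482 (k8 c1132 c5043 c4731 c4466 c4055 c4488 c317 c5038 k0))))))) (by decide +kernel)
def c5045 : PP 8 4 T 0x601002002002000080000000001000000000000000000080000000000040110000001 := rS 0x2bc621934028d604018785a531494466d1179b55aab (k8 c4415 c4338 c5028 c4432 c4298 c4293 c4405 c4402 (k8 c4290 c4285 c4466 c838 c4461 c5033 c574 c4479 (k4 c2201 c1878 c2844 c2112 k0))) (by decide +kernel)
def c5046 : PP 8 4 T 0x411002002002000080000004000040001200080000040014000001040040000000000 := rS 0x849b5f9a97acc5d9a596c1570c41002028819ea93818d3a5e2d2cc9a4b1694c5251199149ed117904da014bab557100e9cd70b51c9247e3b6391c6a6f (k8 c4378 c4373 c4374 c4289 c4403 c4287 c4281 c4279 (k8 c3371 c2113 c1085 c1027 c5041 c4415 c4338 c4335 (k8 c5027 c5028 c4433 c4432 c4298 c4297 c4295 c4293 (k8 c4405 c4402 c4290 c4285 c4375 c4282 c5025 c4476 (k8 c5024 c968 c843 c576 c3482 c3502 c5045 c311 (k8 c4461 c839 c2144 c2112 c1715 c1755 c828 c1478 (k4 c2116 c1208 c4479 c3460 (k2 c1969 c2114 (k1 c4567 k0))))))))) (by decide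 +kernel)
def c5047 : PP 8 4 T 0x401000002000000080000000000001000200401401100000000000040000000000000 := rS 0x21afd76bd8c26d4e7b350e49a35259149e41 (k8 c4433 c4297 c4295 c4375 c4373 c4282 c4279 c4479 (k8 c4055 c2008 c1968 c4482 c1120 c1390 c4369 c4446 (k1 c2114 k0))) (by decide +kernel)
def c5048 : PP 8 4 T 0x401002002002000080000004000000001000000000000005000001000000000000000 := rS 0x67a995c89548c54a6812814f2774e8080c0b59024ea585c2d43a8c138e49a231a92c5a3f298a476510d8cc9ed117905065d37a060a6d00ab55710518dcce2b869f81e0d63b24fa11248548e13 (k8 c4401 c4374 c4283 c4281 c4275 c4379 c4305 c4289 (k8 c4371 c4376 c2107 c4994 c5008 c5020 c5035 c5036 (k8 c5041 c4415 c4338 c5027 c5028 c4961 c4380 c4378 (k8 c4377 c4306 c4433 c4432 c4298 c4297 c4293 c4291 (k8 c4405 c4403 c4402 c4290 c4287 c4285 c4375 c4373 (k8 c4372 c4282 c4279 c4277 c5044 c1027 c3371 c2113 (k8 c5046 c2502 c4559 c4548 c663 c4462 c4726 c4731 (k8 c1023 c4814 c527 c224 c5047 c1882 c1879 c826 (k4 c2040 c2112 c2111 c1522 (k1 c909 k0))))))))))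 (by decide +kernel)
def c5049 : PP 8 4 T 0x401002002002000080000004000000001000000000000001000001000000000000000 := rS 0xeab838ad628b346a3cac978828c6e391a8fc765d37c14fc0f06b1d927d089242a4709c345667 (k8 c5020 c5008 c4994 c4401 c4374 c4283 c4281 c4275 (k8 c4379 c4305 c4289 c4371 c4376 c2107 c4961 c4378 (k8 c4377 c4403 c4287 c4373 c4279 c5035 c5036 c5041 (k8 c4335 c5048 c800 c1067 c1187 c4486 c1434 c4387 (k2 c2113 c594 (k1 c4548 k0)))))) (by decide +kernel)
def c5050 : PP 8 4 T 0x10401002002000000080000400000000000000000400100008000000000000020000000 := rS 0x210f0193d8449a0d2586c9e174183d029c4d8bd3241 (k8 c4433 c1031 c4432 c764 c4488 c4380 c4376 c4306 (k8 c4431 c4297 c4291 c4375 c4371 c4282 c4275 c1227 (k4 c4654 c4482 c2108 c603 k0))) (by decide +kernel)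
def c5051 : PP 8 4 T 0x10411002002000000080000400000000000000000001000058000000000000020000100 := rS 0x1281404064282e887a54a94d0a73ba704e4d1192c36332783cba814d8bd3241 (k8 c4433 c1031 c4432 c764 c4380 c4377 c4376 c4297 (k8 c4293 c4291 c4375 c4372 c4282 c4277 c4488 c4703 (k8 c907 c5050 c1882 c826 c825 c4490 c702 c4397 (k4 c4462 c1018 c526 c224 (k1 c4524 k0))))) (by decide +kernel)
def c5052 : PP 8 4 T 0x10000000000000000000002000044010000080000000008000000000000000000000 := rS 0x96882c94343 (k4 c4392 c1706 c1434 c4489 (k2 c1187 c4336 k0)) (by decide +kernel)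
def c5053 : PP 8 4 T 0x400000000000411002002002000080000005000000000000000001000058000001080000020000100 := rS 0x1188b2fd8e4f (k4 c4297 c4289 c1511 c4989 (k2 c5051 c4982 k0)) (by decide +kernel)
def c5054 : PP 8 4 T 0x501000002002000000010000040000100000001400108008000001000000000000000 := rS 0x2ae96c26090e307b568fca63b28915a241 (k8 c4433 c4298 c4295 c4405 c4403 c4290 c4287 c820 (k8 c1227 c4482 c4446 c4450 c2115 c4459 c1946 c4491 k0)) (by decide +kernel)
def c5055 : PP 8 4 T 0x401002002002000080000004000000000000000000000001000001000000000000000 := rS 0x2f486bf5db2d3aa6560c556a5340940a023c9dc0c0b5918952af88b1540965c0dd6a994aa6c12650e28c3e212b164b690368044e392688c6a4b168fca6291d944664527b445e4130ac50305a1c34569f339f81e0d63b24fa11248548e13 (k8 c4401 c4374 c4283 c4281 c4275 c4379 c4305 c4289 (k8 c4371 c4376 c2107 c5020 c1394 c5008 c4994 c4392 (k8 c4961 c4380 c4303 c4301 c4433 c4432 c4298 c4297 (k8 c4295 c4293 c4405 c4403 c4402 c4290 c4287 c4285 (k8 c4375 c4373 c4372 c4282 c4279 c4277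 c5027 c5028 (k8 c5049 c888 c1155 c4550 c886 c1153 c939 c4466 (k8 c555 c1058 c764 c762 c1031 c5052 c5053 c2113 (k8 c1205 c1206 c3272 c4335 c4631 c2985 c4478 c817 (k8 c663 c4462 c1023 c4814 c1018 c526 c224 c5054 (k8 c1882 c1885 c1879 c2112 c2111 c947 c2027 c1978 (k4 c1244 c4567 c1208 c2114 k0))))))))))) (by decide +kernel)
def c5056 : PP 8 4 T 0x100100000002000000000000000000000000000000040000000000000000000000002 := rS 0x319942629 (k4 c4402 c4401 c490 c754 (k1 c4478 k0)) (by decide +kernel)
def c5057 : PP 8 4 T 0x40000000000000101100002000000080100000001180000004000000440100000000001040000000000 := rS 0x11689651914c631289c9a23258cc9e2f (k8 c4432 c4297 c4293 c4375 c4372 c4282 c4277 c1464 (k4 c818 c2111 c4478 c941 (k2 c556 c1752 (k1 c4485 k0)))) (by decide +kernel)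
def c5058 : PP 8 4 T 0x801002002002000080000000000000000000000000000001000001000000000000000 := rS 0x1942b3d10a032a8d0f4b5644556a5358c55ea92692c5a5314944363327b442e2f419750305a1c34569f339f81e0d63b24fa11248548e13 (k8 c4401 c4374 c4283 c4281 c4275 c4379 c4305 c4289 (k8 c4371 c4376 c2107 c5020 c1394 c5008 c4994 c4392 (k8 c4961 c4380 c4377 c4306 c4432 c4431 c4298 c4297 (k8 c4293 c4291 c4405 c4402 c4290 c4285 c4375 c4282 (k8 c4345 c4346 c4441 c4442 c4444 c4445 c4498 c2112 (k8 c4458 c1905 c5057 c555 c4489 c4903 c1794 c685 (k2 c2039 c2108 k0))))))) (by decide +kernel)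
def c5059 : PP 8 4 T 0x2002000000005000008000000000000000000020000001000000110000001 := rS 0x314869d01078163f298eca21b22b44826d (k8 c5028 c4433 c4298 c4295 c4291 c4405 c4403 c4290 (k8 c4287 c535 c4466 c4726 c4731 c2132 c1675 c2115 k0)) (by decide +kernel)
def c5060 : PP 8 4 T 0x1002002002000084000000008000000800000000020001000001000000010000001 := rS 0x1a40842052618a094e881363f298eca23322b44825b2c01ce05e3f03d8e7d089242a470983586c18cc58e6572e9d5930559ada26b1 (k8 c4303 c5058 c5055 c1163 c4961 c4305 c1744 c4377 (k8 c800 c1649 c4481 c4982 c4420 c4362 c4371 c4401 (k8 c4374 c4283 c4281 c4275 c4379 c4289 c4376 c2107 (k8 c554 c1425 c496 c1426 c2557 c4433 c4298 c4295 (k8 c4293 c4405 c4403 c4290 c4287 c1972 c5059 c966 (k8 c231 c1675 c4488 c4462 c2115 c534 c3787 c4999 k0)))))) (by decide +kernel)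
def c5061 : PP 8 4 T 0x10001100002002000000005000000000000014000140000020000001000000110000041 := rS 0x8a3bd2d887b21808101e058fca63b28915a241 (k8 c4433 c4298 c4295 c4405 c4403 c4290 c4287 c535 (k8 c4466 c4462 c4726 c2132 c1224 c2115 c4429 c1095 (k2 c4485 c4632 k0))) (by decide +kernel)
def c5062 : PP 8 4 T 0x1002002002000080000000010080000800000000020001000001000000000000001 := rS 0x578c4d019020281220448b4a629288cda22f1596cb0073830d83198b1ccae5d43aad9e5e3f03c1ac73e84492152384c3ab3589d5928d5cc556d1386c147623 (k8 c4372 c4403 c4961 c4994 c5058 c5055 c4353 c135 (k8 c1467 c4305 c1744 c4303 c1163 c5007 c4401 c4374 (k8 c4283 c4281 c4275 c4379 c4289 c4371 c4376 c2107 (k8 c554 c3500 c5060 c1652 c4377 c800 c1649 c4481 (k8 c4982 c4420 c4362 c1425 c496 c1426 c2557 c5008 (k8 c4432 c4298 c4293 c4405 c4402 c4290 c4285 c557 (k8 c5061 c231 c4462 c534 c2257 c4999 c1878 c2820 (k1 c2112 k0)))))))) (by decide +kernel)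
def c5063 : PP 8 4 T 0x101002002002000080000000000080000800000000000001000001000000000000000 := rS 0x14c6a548c696ac43a9556272692ca633278bd0601128ac3ab3589d51ab98aada270d1d88d9e5e3218cbb05339f81e0d63b24fa11248548e13 (k8 c4401 c4374 c4283 c4281 c4275 c4379 c4305 c4289 (k8 c4371 c4376 c2107 c5020 c4961 c4377 c818 c4478 (k8 c554 c3500 c4372 c4403 c4994 c5058 c5055 c4353 (k8 c135 c1467 c1744 c4303 c1163 c5007 c5008 c1464 (k8 c5056 c4306 c4432 c4297 c4293 c4290 c4375 c4282 (k8 c4277 c5060 c1470 c1652 c5062 c4458 c2046 c949 (k2 c5057 c2111 (k1 c2008 k0)))))))) (by decide +kernel)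
def c5064 : PP 8 4 T 0x101002002002000080000000000080000000000000000001000001000000000000000 := rS 0xf885208f0e9911a63138e4463b2ec161a675cc54eac959ada26b1 (k8 c4303 c5058 c5055 c1163 c4305 c1744 c4353 c135 (k8 c5020 c4994 c4961 c4377 c4403 c4372 c4279 c4277 (k8 c818 c1467 c4478 c5007 c5063 c4486 c886 c1153 (k1 c4466 k0)))) (by decide +kernel)
def c5065 : PP 8 4 T 0x401002002002000080000000014000000000000001000080000000000040001000000 := rS 0x62af341ad081126834962d298a4a21b1993da21717a0c1e81 (k8 c4380 c4376 c4306 c4432 c4431 c4298 c4297 c4293 (k8 c4291 c4405 c4402 c4290 c4285 c4375 c4371 c4282 (k4 c4275 c2108 c2560 c4479 (k2 c2844 c1878 (k1 c2112 k0))))) (by decide +kernel)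
def c5066 : PP 8 4 T 0x80000000000000112000001 := rS 0x58103c03 (k4 c838 c4466 c4461 c2201 (k1 c574 k0)) (by decide +kernel)
def c5067 : PP 8 4 T 0x411002002002000080000008000020001100000000000000000001000040000000001 := rS 0xd26b570c4100202880305a2ca2ce4ad0eaae2e8e4a24c5a531494466d117c162a7564acd626d (k8 c5028 c4303 c1163 c4305 c1744 c4353 c4961 c4432 (k8 c4298 c4293 c4405 c4402 c4290 c4285 c1739 c4551 (k8 c4486 c4418 c3678 c763 c2851 c4481 c3708 c1109 (k8 c1617 c5065 c5066 c311 c4461 c839 c2144 c2112 (k2 c1918 c829 (k1 c4479 k0)))))) (by decide +kernel)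
def c5068 : PP 8 4 T 0x1500000002002000000001000008025050200000000000000000001000000000000000 := rS 0x5157abf5daa632ca53a6d5ead (k8 c81 c82 c1972 c2013 c1740 c5015 c980 c1390 (k4 c4566 c1120 c4455 c4493 k0)) (by decide +kernel)
def c5069 : PP 8 4 T 0x500000002002000080005000014020018000000000000020000001000000110000001 := rS 0x99572f696c4218083c0b1c924963f298eca24527b4482cf (k8 c3740 c4433 c4298 c4297 c4295 c4405 c4403 c4290 (k8 c4287 c4375 c4281 c4279 c535 c4466 c4726 c2132 (k4 c2115 c4429 c1176 c4491 (k2 c4216 c1779 k0)))) (by decide +kernel)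
def c5070 : PP 8 4 T 0x501002002002000080005000014020058000000000000060000001000000010000041 := rS 0x43629d8f2840c810f60a04882321126834963f298eca21b2293da21720a0c1e81 (k8 c4380 c4376 c4306 c4433 c4431 c4298 c4297 c4295 (k8 c4291 c4405 c4403 c4290 c4287 c4375 c4371 c4282 (k8 c4275 c5015 c5069 c231 c4462 c702 c534 c2257 (k4 c2108 c2505 c4482 c3122 (k2 c1886 c2115 k0))))) (by decide +kernel)
def c5071 : PP 8 4 T 0x101002002002000080000000000000000200000000000001000001000000000000000 := rS 0x855faf4ee7b5d9e510cb4ca1d4a6b562ac0e712d9c9825867a5586924e8751eb1419bd031500a5d6d13504353f4331195467e078358ec93e84492152384e0a67 (k8 c5020 c4961 c4401 c4374 c4283 c4281 c4275 c4379 (k8 c4305 c4289 c4371 c4376 c2107 c5064 c555 c4478 (k8 c4392 c1394 c4994 c4489 c5058 c5055 c1166 c5056 (k8 c4353 c4380 c4378 c4306 c4303 c71 c3011 c3254 (k8 c1117 c3128 c1747 c3740 c1609 c3552 c1608 c842 (k8 c537 c1022 c5068 c5070 c2049 c2053 c1905 c2050 (k8 c2027 c4903 c540 c1389 c1231 c1111 c1119 c1247 (k2 c685 c2122 k0))))))))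 (by decide +kernel)
def c5072 : PP 8 4 T 0x101002002002000080000000000000000000000000000001000001000000000000000 := rS 0x57aae96cf56a9988bd4e2fa32994d8262c1c4a87c42562c96d209346a812ea3368044e3917904c2b182d0e1a2b4f99cfc0f06b1d927d089242a4709ad56d13 (k8 c5058 c5055 c106 c4401 c4374 c4283 c4281 c4275 (k8 c4379 c4305 c4289 c4371 c4376 c2107 c5020 c1394 (k8 c5008 c4994 c4392 c4961 c4303 c4301 c4433 c4432 (k8 c4279 c4277 c5056 c5028 c5064 c1166 c4489 c5071 (k8 c1739 c5067 c888 c1155 c4550 c886 c1153 c891 (k8 c4466 c4487 c1058 c764 c1031 c4982 c5051 c4488 (k8 c137 c1246 c1245 c946 c1797 c4429 c1674 c909 (k1 c4491 k0)))))))) (by decide +kernel)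
def c5073 : PP 8 4 T 0x100000000000000000000400000020000000100004000000000000000000000000 := rS 0xe717 (k2 c4418 c1616 (k1 c4481 k0)) (by decide +kernel)
def c5074 : PP 8 4 T 0x1010000000002000080000000000044011100000000000010000000000040000004002 := rS 0x206c2450968ae8e13924464716b1c5205 (k8 c2 c4402 c4289 c4285 c4374 c4372 c4281 c4277 (k8 c4486 c2709 c4476 c4551 c2110 c1423 c5022 c232 k0)) (by decide +kernel)
def c5075 : PP 8 4 T 0x1411002002002000080000000400044040100000100000000000001000040000000002 := rS 0x188bc1bb0d82bb0410d38765f9592095679654e6c349acc6392493446352392c5a3f6394c523b288cc8a4f6885c5e413083d0305 (k8 c4961 c4380 c4376 c4301 c4433 c4432 c4431 c4298 (k8 c4297 c4295 c4293 c4405 c4403 c4402 c4290 c4289 (k8 c4287 c4285 c4375 c4374 c4373 c4372 c4282 c4281 (k8 c4279 c754 c492 c756 c4479 c904 c4993 c4579 (k8 c5073 c5074 c4550 c1245 c961 c960 c4674 c751 (k4 c1890 c1893 c1213 c232 (k2 c2114 c2115 (k1 c1176 k0)))))))) (by decide +kernel)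
def c5076 : PP 8 4 T 0x611002002002000080000008000004001000000000000000000001000040000000000 := rS 0x2c0e5b0487842a91b074488e5089c9223238b58e292783c028d49a8d2eb3589d59315 (k8 c4353 c4305 c1744 c4303 c1163 c4335 c4337 c4413 (k8 c1117 c5075 c4376 c4297 c4402 c4289 c4285 c4374 (k8 c4372 c4281 c4277 c5067 c4486 c2110 c760 c1423 (k8 c1503 c313 c1424 c232 c5045 c1098 c271 c4462 k0)))) (by decide +kernel)
def c5077 : PP 8 4 T 0x20000002002002000080000008000000000000000000000000000001000000000000800 := rS 0x45a1198720cb0a2ec121b14224d0692c7e531d944364527b442e414183d03053ab2566b1 (k8 c4303 c1163 c4305 c1744 c4961 c4380 c4376 c4306 (k8 c4433 c4431 c4298 c4297 c4295 c4291 c4405 c4403 (k8 c4290 c4287 c4375 c4371 c4282 c4275 c4370 c4446 (k8 c4450 c4982 c2115 c308 c4481 c1168 c2108 c1770 (k1 c1482 k0))))) (by decide +kernel)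
def c5078 : PP 8 4 T 0x411002002002000080000008000000002000000001000000000001000000000000900 := rS 0x1acd2a64e2fa327b0da0cb6612cac4ac9b17a64381f1c8844e41 (k8 c4433 c4277 c886 c4279 c1153 c4466 c1031 c4432 (k8 c764 c4550 c4303 c1155 c4301 c888 c4306 c4291 (k8 c702 c5077 c5051 c4488 c1245 c825 c2008 c4479 k0))) (by decide +kernel)
def c5079 : PP 8 4 T 0x1002002002000080000000000000000000000000000001000001000000000000000 := rS 0x62af54a9994bd5f4662c730302c121c0f884ac592da40da0146aad26ad51a5e20b33ac556d134f99c56271c9345a531494466d11798563053f03c1ac7649f422490a91c270d (k8 c4994 c4401 c4374 c4283 c4281 c4275 c4379 c4305 (k8 c4289 c4371 c4376 c2107 c4961 c4303 c4301 c4432 (k8 c4298 c4293 c4405 c4402 c4290 c4285 c4282 c4279 (k8 c4277 c5008 c5020 c1394 c5058 c5055 c4353 c1744 (k8 c1163 c5072 c4335 c4337 c4338 c4413 c4415 c1117 (k8 c5075 c5028 c5076 c888 c1155 c4550 c886 c1153 (k8 c4466 c1058 c5078 c4462 c1022 c4481 c4982 c5051 (k4 c137 c1247 c1245 c979 (k2 c1755 c2006 (k1 c2112 k0))))))))))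 (by decide +kernel)
def c5080 : PP 8 4 T 0x400000000000401100002002000080000001000000000140000000080001000002000080000000002 := rS 0x1771804964d869179ac2e375b9262ec7 (k8 c4289 c4416 c4281 c1742 c4989 c4431 c492 c4432 (k4 c756 c4479 c4993 c234 (k2 c4992 c4449 (k1 c4990 k0)))) (by decide +kernel)
def c5081 : PP 8 4 T 0x501002002002000080000000000000000100000000000001000000000000000000002 := rS 0x472e22a2b4895c12375a98c52b78b8f116ad12a89430da1a9cd869179ac2e614f97cfc0f06b1d927d089242a470994ccd05 (k8 c4961 c5056 c4290 c4401 c4374 c4283 c4281 c4275 (k8 c4379 c4305 c4289 c4371 c4376 c2107 c488 c1393 (k8 c4301 c4431 c492 c4432 c756 c4479 c904 c4392 (k8 c4994 c896 c4489 c1463 c5017 c721 c5079 c4416 (k8 c1742 c4402 c754 c4975 c4989 c234 c751 c4550 (k4 c5080 c4965 c4492 c4486 (k1 c5011 k0))))))) (by decide +kernel)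
def c5082 : PP 8 4 T 0x501002002002000080000000000000000000000000000001000000000000000000002 := rS 0xb33aa497097462894266309be0b4386a7cbe7e078358ec93e84492152384cb26c348bcd617 (k8 c4431 c492 c4432 c756 c4479 c4993 c4401 c4374 (k8 c4283 c4281 c4275 c4379 c4305 c4289 c4371 c4376 (k8 c2107 c488 c1393 c4994 c4392 c4961 c4378 c4301 (k8 c5056 c896 c4489 c5081 c1198 c1467 c1468 c593 (k2 c1123 c4548 k0))))) (by decide +kernel)
def c5083 : PP 8 4 T 0x401002002002000080000000000000000000000000000001000000000000000000002 := rS 0x70479d16ab35199e205a2ca44d857349acbe1717c16867e078358ec93e8442a4709c362e0939adc7849 (k8 c4281 c5079 c1742 c1614 c234 c4416 c4994 c4401 (k8 c4374 c4283 c4275 c4379 c4305 c4289 c4371 c4376 (k8 c2107 c4392 c4961 c4432 c4431 c488 c492 c756 (k8 c751 c4479 c4550 c4993 c4476 c5082 c4333 c4337 (k4 c664 c1434 c4481 c4521 (k2 c594 c4135 k0)))))) (by decide +kernel)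
def c5084 : PP 8 4 T 0x2000000000000000000000000000000080000000000000000000000001 := rS 0x280c2a2d (k4 c4285 c4283 c918 c654 (k1 c4461 k0)) (by decide +kernel)
def c5085 : PP 8 4 T 0x4010100000000000000000000000000001100080040020010000000000000000000000 := rS 0xe1143a23d665e (k4 c554 c552 c1426 c4481 (k2 c4486 c594 (k1 c4387 k0))) (by decide +kernel)
def c5086 : PP 8 4 T 0x401002002002000084000000000000001100000000020001000000040000000000000 := rS 0x89b4c870f4213cc6576bd8a1dd1e1f4b1c52ab23a95cb02d17c161b17398f0da012f1f81e0d63b24fa11248548e13 (k8 c4401 c4374 c4283 c4281 c4275 c4379 c4305 c4289 (k8 c4371 c4376 c2107 c554 c5083 c5028 c5079 c1614 (k8 c4416 c4994 c4961 c4432 c4285 c5085 c37 c2502 (k8 c4481 c1696 c2520 c553 c275 c1425 c3208 c4486 (k8 c4354 c4390 c5037 c2521 c926 c4482 c4466 c1132 (k2 c764 c1026 (k1 c5000 k0))))))) (by decide +kernel)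
def c5087 : PP 8 4 T 0x501002002002000080000000000080000000000000000001000000000000000000000 := rS 0xeab35c1c52e8c1bad59e5e32244c65d37c1687175b8f13e67009f81e0d63b24fa11248548e13 (k8 c4401 c4374 c4283 c4281 c4275 c4379 c4305 c4289 (k8 c4371 c4376 c2107 c5083 c5084 c1394 c5079 c1742 (k8 c4416 c4392 c4961 c4378 c4377 c818 c939 c4478 (k8 c554 c3500 c3411 c4989 c5086 c1198 c3441 c1467 (k2 c553 c594 (k1 c4548 k0)))))) (by decide +kernel)
def c5088 : PP 8 4 T 0x4511100002002000080000004000020001100080040008000000000000040040000101 := rS 0x793b818169d59080ea1d8c9c46e948a2d52e15638a46641a19b5268f (k8 c851 c1738 c5028 c4392 c4433 c4293 c4402 c4289 (k8 c4283 c898 c1707 c4486 c4487 c4989 c4387 c5037 (k8 c762 c594 c4466 c4481 c966 c662 c4462 c1023 (k2 c4814 c5039 k0)))) (by decide +kernel)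
def c5089 : PP 8 4 T 0x400000000000000000000224000020180000000000000000000000000000000000000 := rS 0x296ab56b094acd (k4 c2069 c1938 c1207 c901 (k2 c1741 c4459 (k1 c4785 k0))) (by decide +kernel)
def c5090 : PP 8 4 T 0x20000000002000000080000100000000000000000000000000000000040000000000000 := rS 0x176435f8e49a35259149e41 (k8 c4433 c4297 c4295 c4375 c4373 c4282 c4279 c4369 (k2 c4446 c4449 (k1 c2114 k0))) (by decide +kernel)
def c5091 : PP 8 4 T 0x4511002002002000080010004000040000100080040000000000000000040040000101 := rS 0x3155ab54ca54e2fa32bd57ae06e965aa652a9b0e084ac598aa404e4d16b1ca629288cda22f20ac4da935027e865b31194cf05 (k8 c4961 c5084 c555 c4478 c843 c4392 c1394 c4489 (k8 c1738 c5028 c4303 c4433 c4432 c4298 c4293 c4405 (k8 c4402 c4290 c4289 c4285 c4282 c4277 c5088 c4351 (k8 c1155 c4550 c886 c4466 c764 c762 c1031 c5052 (k8 c4487 c4989 c4492 c4631 c5089 c5090 c5051 c4488 (k4 c1403 c1245 c947 c1741 (k2 c2006 c2112 k0))))))) (by decide +kernel)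
def c5092 : PP 8 4 T 0x501002002002000080000000000000000000000000000001000000000000000000000 := rS 0x5e26630683c9dc0c0b592746e75102516a570ea5d181f4998856a032a8c6a3320a0cdf05a1c362e0939add8a3c689b53e67009f81e0d63b24fa11248548e13 (k8 c4401 c4374 c4283 c4281 c4275 c4379 c4305 c4289 (k8 c4371 c4376 c2107 c5083 c5084 c1394 c5028 c4298 (k8 c5079 c1782 c1742 c1614 c234 c4416 c4994 c4392 (k8 c4961 c4378 c4306 c4433 c4293 c4373 c5087 c555 (k8 c4489 c4904 c4478 c1738 c274 c5091 c1198 c1027 (k8 c1067 c3371 c4487 c4466 c1689 c4989 c966 c4481 (k8 c662 c4462 c1023 c4814 c5047 c5039 c1880 c5090 (k1 c1119 k0)))))))) (by decide +kernel)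
def c5093 : PP 8 4 T 0x2000080000004000044000800000000000000000000000040040000000 := rS 0x255089c9223238b58e29 (k8 c4402 c4289 c4285 c4374 c4372 c4281 c4277 c851 (k2 c1424 c2110 k0)) (by decide +kernel)
def c5094 : PP 8 4 T 0x401002002002000080000000000000001100000000000001000000000000000000000 := rS 0x684d0c53a200ea64f4793b818b00b2bac8eb19388de281b199060b0d8b824e66d4bab5568f0f8ad47104f99c027e078358ec93e8442a4709adc7849 (k8 c4281 c5079 c1742 c4401 c4374 c4283 c4275 c4379 (k8 c4305 c4289 c4371 c4376 c2107 c5083 c5084 c1394 (k8 c5092 c4337 c4411 c274 c5093 c4415 c4338 c4335 (k8 c5028 c1614 c234 c4416 c4994 c4961 c4433 c4293 (k8 c4291 c4486 c4386 c4387 c5037 c594 c4481 c1187 (k8 c662 c5025 c4462 c1023 c4814 c4482 c1132 c5043 (k4 c4466 c4731 c317 c4488 (k2 c4055 c5038 k0)))))))) (by decide +kernel)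
def c5095 : PP 8 4 T 0x4000000000000000000000004100000042000080000040000000000000000000000000 := rS 0x168b35c9662b43 (k4 c4392 c4351 c1155 c1205 (k2 c5025 c4492 (k1 c1434 k0))) (by decide +kernel)
def c5096 : PP 8 4 T 0x200010004000000000000200040101 := rS 0x302828b207 (k4 c498 c538 c4462 c311 (k2 c303 c4461 k0)) (by decide +kernel)
def c5097 : PP 8 4 T 0x401002002002000080000000000000000000000000000001000000000000000000000 := rS 0x33d5ca6448c552a5341e4ee050302d647512a7440372b87518910faad266515ab52f10339b40227268d45a531d8cc9e2f20ac5065d37a060a7e078358ec93e8442a4709c362e0939adc7849 (k8 c4281 c5079 c1742 c1614 c234 c4416 c4994 c4401 (k8 c4374 c4283 c4275 c4379 c4305 c4289 c4371 c4376 (k8 c2107 c4961 c4380 c4378 c4377 c4306 c4303 c4433 (k8 c4432 c4297 c4293 c4403 c4290 c4285 c4373 c4282 (k8 c4277 c5083 c5028 c5084 c5092 c4335 c4338 c4411 (k8 c4412 c4413 c4415 c274 c5095 c5094 c1027 c1067 (k8 c5034 c4466 c966 c312 c5096 c4481 c662 c4462 (k8 c310 c1023 c4814 c5047 c1882 c826 c1879 c2040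 (k4 c4839 c4542 c1522 c909 k0))))))))) (by decide +kernel)
def c5098 : PP 8 4 T 0x111002002002000080000000001100000000080001080000000000001000000000000 := rS 0x87a5a2558ca53095449f3497c008b5089c9a0d638cc9e2f30a0e0b43 (k8 c4392 c4961 c4306 c4301 c4432 c4297 c4293 c4289 (k8 c4371 c4282 c4277 c896 c720 c5084 c488 c756 (k8 c1393 c4489 c1463 c4839 c941 c940 c2024 c4458 (k2 c1904 c4485 k0)))) (by decide +kernel)
def c5099 : PP 8 4 T 0x101100002000000080140000005180000000000000440100000000001000000000000 := rS 0x52d168744ab194645318c4a27268cc9e2f (k8 c4432 c4297 c4293 c4282 c4277 c1463 c818 c4839 (k8 c4478 c941 c940 c556 c1652 c1752 c4458 c4485 k0)) (by decide +kernel)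
def c5100 : PP 8 4 T 0x1002002002000080000000000000000000000000000001000000000000000000000 := rS 0x1942a2158cf15a80caa34f99e22ab529ac62af549b6250d2692c5a5314944363327b442e2f419750305a19f81e0d63b24fa11248548e13 (k8 c4401 c4374 c4283 c4281 c4275 c4379 c4305 c4289 (k8 c4371 c4376 c2107 c4392 c4961 c4380 c4377 c4306 (k8 c4432 c4431 c4298 c4297 c4293 c4291 c4405 c4402 (k8 c4290 c4285 c4375 c4282 c4994 c5097 c4341 c4345 (k8 c4346 c4441 c4442 c4444 c4445 c4498 c5098 c1394 (k8 c5099 c555 c4489 c4904 c1794 c2112 c4903 c685 (k2 c2039 c2108 k0))))))) (by decide +kernel)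
def c5101 : PP 8 4 T 0x2002002000000080000000000000000000000000000000000000000000000000000 := rS 0xca14224d0692c364f0ba0c1e81 (k8 c4380 c4376 c4306 c4431 c4297 c4291 c4375 c4371 (k4 c4282 c4275 c4321 c4436 (k1 c2108 k0))) (by decide +kernel)
def c5102 : PP 8 4 T 0x400000000000420002002002000080000005000000000000000000080000000001000080000000000 := rS 0xac095c0de2e951c9246a471fb1c766f829b0d22f358002e25469d4a909 (k8 c5101 c5100 c1686 c4383 c4381 c4431 c5084 c492 (k8 c4432 c756 c4479 c4961 c4378 c4403 c4289 c4287 (k8 c4374 c4373 c4281 c4279 c1694 c4995 c4989 c2113 (k2 c4559 c4964 (k1 c751 k0))))) (by decide +kernel)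
def c5103 : PP 8 4 T 0x8000002002002000080000005000080000000000002080000000001000040000000000 := rS 0x3824b4362bc6582b94b8e49235238fd8e3b079655a8b6882ca909 (k8 c5101 c5100 c306 c4298 c1766 c945 c4993 c4376 (k8 c4403 c4289 c4287 c4374 c4373 c4281 c4279 c4359 (k8 c4361 c4420 c4982 c920 c2113 c4476 c232 c4972 (k1 c4462 k0)))) (by decide +kernel)
def c5104 : PP 8 4 T 0x420002002002000080000005000080000000000000080000000001000000000000000 := rS 0x4ae06f17159d472491a91c7ec71d9be0a54361a45e6b0005e1343 (k8 c4393 c5101 c4431 c5084 c492 c4432 c756 c4479 (k8 c5100 c4961 c4378 c4403 c4289 c4287 c4374 c4373 (k8 c4281 c4279 c1686 c5102 c5103 c4989 c2113 c4559 (k1 c4967 k0)))) (by decide +kernel)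
def c5105 : PP 8 4 T 0x100100000000000000000000000000000000000000080012000002400080000000102 := rS 0x71240a4b9c92a5a5995ceb17 (k8 c4416 c1687 c751 c4991 c4476 c857 c4481 c929 (k4 c1615 c4487 c567 c1029 k0)) (by decide +kernel)
def c5106 : PP 8 4 T 0x2000002000080000005000000000000000000080000000002040000000000200 := rS 0x743e5a4a9d16621058e49235238fd8e3b37c14062d (k8 c4285 c918 c4961 c4378 c4403 c4289 c4287 c4374 (k8 c4373 c4281 c4279 c31 c230 c1185 c4559 c857 (k4 c592 c275 c759 c4466 k0))) (by decide +kernel)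
def c5107 : PP 8 4 T 0x520002002002000080000005000080000000000000080000000000000000000000000 := rS 0x954bae5265a1595cea091bc5c78c71dc14a859361a45e6b0005e1343 (k8 c4393 c5101 c4431 c5084 c492 c4432 c756 c4479 (k8 c4993 c5100 c4961 c4403 c4289 c5104 c4416 c4989 (k8 c5106 c1687 c751 c5105 c4476 c1654 c4967 c929 (k2 c859 c4487 k0)))) (by decide +kernel)
def c5108 : PP 8 4 T 0x1000002002000000000000010000050000000102080000000001000000100000400 := rS 0x211e4f69d040780e450e968ae59 (k8 c4993 c920 c4476 c759 c4295 c495 c4466 c4462 (k4 c1232 c1224 c601 c5016 (k1 c237 k0))) (by decide +kernel)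
def c5109 : PP 8 4 T 0x101000002002000000100048000090001000000002080002001000000000000000000 := rS 0x2b03080b5192b82d82974a8f4ea002cab516d1 (k8 c4298 c1766 c945 c4993 c5084 c1744 c1742 c1746 (k8 c1165 c1749 c306 c920 c5015 c4476 c5108 c831 (k2 c314 c4972 k0))) (by decide +kernel)
def c5110 : PP 8 4 T 0x520002002002000080000000000080000000000000080000000000000000000000000 := rS 0xe87c428e4b2d16e49118fd925450984d869179ac001784a457681 (k8 c4380 c4945 c4327 c5101 c4431 c5084 c492 c4432 (k8 c756 c4479 c4301 c896 c5100 c4305 c4287 c4372 (k8 c4281 c5109 c5107 c1436 c1435 c2930 c1193 c760 (k1 c4466 k0)))) (by decide +kernel)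
def c5111 : PP 8 4 T 0x1000002002000000000000000000000000000002080002000001000080000000000 := rS 0x61b04869c3b158b6c54b2544275058fca63b28914825956a2d5ed1 (k8 c4298 c1774 c1766 c945 c4993 c4433 c4295 c4405 (k8 c4403 c4290 c4287 c306 c1686 c314 c1694 c5108 (k8 c1253 c929 c4476 c961 c960 c4674 c1893 c1214 (k1 c2115 k0)))) (by decide +kernel)
def c5112 : PP 8 4 T 0x101100002002000000000000000000000000000002080002000000000080000000000 := rS 0xe87cb4953a2cc420b040f07e3b018b40059 (k8 c4993 c5084 c4285 c918 c4403 c4287 c5111 c5105 (k8 c31 c230 c1185 c235 c857 c592 c275 c759 (k1 c4466 k0))) (by decide +kernel)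
def c5113 : PP 8 4 T 0x520002002002000080000000000000000000000000080000000000000000000000000 := rS 0x1469f1289c9223238b58e2950984566c348bcd6000b9521305 (k8 c4961 c5101 c5100 c4431 c5084 c492 c4432 c756 (k8 c4479 c5112 c4301 c896 c4402 c4289 c4285 c4374 (k4 c4372 c4281 c4277 c4381 (k2 c4384 c5110 (k1 c2110 k0))))) (by decide +kernel)
def c5114 : PP 8 4 T 0x20000000002002000080000004010080020000000000000000000000040040200000000 := rS 0xbb (k2 c4449 c4966 k0) (by decide +kernel)
def c5115 : PP 8 4 T 0x2002002000080000005000080000000000002080000000001000040000000000 := rS 0x62ab57a65807a8c881289d3b968f2062bac812b81bc5c72491a91c5a3f6394c523b288cc5e4137c14005956a2da343059d4a909 (k8 c5101 c5100 c1686 c306 c4393 c4298 c1766 c945 (k8 c4993 c5084 c4961 c4378 c4433 c4432 c4293 c4405 (k8 c4403 c4402 c4290 c4289 c4287 c4285 c4374 c4373 (k8 c4281 c4279 c5103 c4989 c2113 c4559 c4548 c751 (k8 c4462 c2649 c4476 c1023 c969 c665 c495 c5114 (k4 c4482 c4972 c1131 c1715 (k2 c1701 c317 (k1 c2112 k0))))))))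 (by decide +kernel)
def c5116 : PP 8 4 T 0x2000080000000010100080010000000000000000000000 := rS 0x2d95d2c73 (k4 c1618 c1436 c921 c929 (k1 c4476 k0)) (by decide +kernel)
def c5117 : PP 8 4 T 0x101102002002000000000008010080010000000102000000000001000040000000502 := rS 0xc18cc592e732d2440c571d96566b1 (k8 c4303 c1163 c4993 c4403 c751 c4462 c4550 c4476 (k4 c1021 c1165 c4481 c5015 (k2 c4420 c4972 k0))) (by decide +kernel)
def c5118 : PP 8 4 T 0x100002002002000080000000000080000000000002080000000001000000000000000 := rS 0x86c1619e4ac893916d8a9057c5d2c210425566b65a9d4163f298eca24520ac4fa0316a84c2002cab516d1159521305 (k8 c4961 c5101 c5100 c5112 c4298 c1766 c945 c4993 (k8 c5084 c4301 c896 c4285 c918 c4379 c4303 c4433 (k8 c4295 c4405 c4403 c4290 c4287 c306 c1686 c5116 (k8 c5115 c1163 c1746 c5117 c230 c5108 c4359 c4631 (k8 c1165 c1253 c929 c4481 c681 c4550 c600 c1088 (k2 c1621 c4674 (k1 c2115 k0))))))) (by decide +kernel)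
def c5119 : PP 8 4 T 0x100002002002000080000000000080000000000102080000000000000000000000000 := rS 0xc55699579e980778c818400b3c8753a944b9686e575a8245ac7298ec827d001655a8b68d0e2eb72487d263c159521305 (k8 c4961 c5101 c5100 c5112 c5118 c1654 c274 c4281 (k8 c1742 c4416 c4393 c4298 c1766 c945 c4993 c5084 (k8 c4379 c4433 c4403 c4290 c4289 c4285 c235 c5116 (k8 c751 c4989 c4476 c929 c4487 c2975 c2727 c601 (k8 c567 c4466 c4462 c5114 c1023 c4972 c4482 c1715 (k4 c1131 c1701 c317 c4542 k0)))))) (by decide +kernel)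
def c5120 : PP 8 4 T 0x100002002002000080000000000080000000000002080000000000000000000000000 := rS 0x74420b2d01ce6740f8f02600159521305 (k8 c4961 c5101 c5100 c5112 c5084 c4401 c5118 c274 (k8 c5119 c46 c498 c592 c307 c831 c759 c4466 k0)) (by decide +kernel)
def c5121 : PP 8 4 T 0x110000000000000000000000000050000000080000000400000000000000000000000 := rS 0x13f43 (k2 c4392 c1393 (k1 c4489 k0)) (by decide +kernel)
def c5122 : PP 8 4 T 0x1000002002000000000000010000000000000102080080000001000000100000400 := rS 0x164084a01d2e3f (k4 c4287 c929 c495 c5108 (k2 c4462 c857 (k1 c1185 k0))) (by decide +kernel)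
def c5123 : PP 8 4 T 0x1000002002000000000000010000000000000102080000000001000000100000400 := rS 0x30d82c55790d38764b1592a5b1f94c765122b448259 (k8 c4993 c4433 c4298 c4295 c4405 c4403 c4290 c4287 (k8 c5122 c856 c4476 c5108 c961 c960 c4674 c2988 (k4 c1253 c1893 c1214 c2115 k0))) (by decide +kernel)
def c5124 : PP 8 4 T 0x100000000000000100004500000000000050154000000000000000000000000000 := rS 0x2d22cb9 (k4 c4548 c4481 c2121 c4419 k0) (by decide +kernel)
def c5125 : PP 8 4 T 0x510000002002000080000000000454000000000000000000000000000040000000000 := rS 0xcb66b3e84492688c8e4b16b1ca629288cc9ed1 (k8 c4298 c4297 c4293 c4405 c4402 c4290 c4289 c4285 (k8 c4375 c4374 c4372 c4282 c4281 c4489 c4579 c4395 (k2 c4425 c2116 k0))) (by decide +kernel)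
def c5126 : PP 8 4 T 0x500002002002000080000000000000000000000000080000000000000000000000000 := rS 0xca151087a5b399acb4f1fd470d15ab54e6c349acbe0050844924d0691c96c729944364f0b8bcc283079f503054595212d1 (k8 c4298 c5101 c5100 c1766 c4961 c4380 c4379 c4376 (k8 c4306 c4301 c4432 c4431 c4297 c4291 c4405 c4290 (k8 c4289 c4375 c4374 c4371 c4282 c4281 c4275 c896 (k8 c5084 c488 c492 c756 c4479 c904 c945 c5112 (k8 c5113 c5120 c5121 c5125 c1669 c1398 c2116 c4430 (k4 c1636 c4485 c684 c2038 (k1 c2108 k0))))))) (by decide +kernel)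
def c5127 : PP 8 4 T 0x400000000000400002002002000080000005000000000000000000100000000001080001100000408 := rS 0xac770e4640c1f8b0257ec7279041f09 (k8 c5101 c4376 c4433 c4297 c4289 c1511 c232 c4989 (k4 c272 c4462 c4982 c4466 (k2 c1023 c790 (k1 c5050 k0)))) (by decide +kernel)
def c5128 : PP 8 4 T 0x400000000000400002002002000080000005000000000000000000120000000001000001000000018 := rS 0x38580fac812b81b8e49235238fd8e3b37c141675108a8a909 (k8 c5101 c5100 c1646 c314 c1686 c2244 c4961 c4378 (k8 c4403 c4289 c4287 c4374 c4373 c4281 c4279 c5127 (k4 c2113 c4559 c4548 c222 (k2 c552 c4466 (k1 c1026 k0))))) (by decide +kernel)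
def c5129 : PP 8 4 T 0x2000080000000000000000000000004000000500000000 := rS 0xe87d1c96 (k4 c1436 c1435 c1193 c760 (k1 c4466 k0)) (by decide +kernel)
def c5130 : PP 8 4 T 0x20000002000000080000000000000000000000000200100000000000001000000010 := rS 0x315489c9a33278bd4ea5 (k8 c4385 c4330 c4432 c4297 c4293 c4282 c4277 c826 (k2 c1879 c4839 k0)) (by decide +kernel)
def c5131 : PP 8 4 T 0x420002002002000080000000000080000000000001020000000001000000000000008 := rS 0xa2af594425fb3586c5a533d12ad8c861831542ad8d48734aecbe11249341a472594c76510d9149e1720a0c1e8182a2da34312b1c0a632ead4422a2a4247e23 (k8 c4372 c4287 c5101 c5100 c1646 c314 c5129 c4377 (k8 c818 c267 c4289 c1463 c4393 c4298 c1766 c4961 (k8 c4380 c4376 c4306 c4433 c4431 c4297 c4295 c4291 (k8 c4405 c4403 c4290 c4375 c4374 c4371 c4282 c4281 (k8 c4275 c4382 c4945 c5130 c1653 c4479 c5128 c562 (k8 c4353 c1749 c2108 c4971 c3957 c2038 c1524 c4485 (k8 c4429 c4459 c4460 c1246 c2115 c2116 c2014 c4455 (k1 c4493 k0)))))))) (by decide +kernel)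
def c5132 : PP 8 4 T 0x101100002000000080140000000080000000100000240100000000000000000000010 := rS 0x299543154a94d6272688c9633278bd3e25 (k8 c1463 c78 c4432 c4297 c4293 c4375 c4372 c4282 (k8 c4277 c43 c1882 c826 c1879 c5099 c2111 c2013 k0)) (by decide +kernel)
def c5133 : PP 8 4 T 0x400002002002000080000000000080000000000000120000000001000000000000001 := rS 0x850ca2232c161c58ee733d90cb0074e8783a8d59c556d0d5a884ea1126834464b1f8ec36452785d628307a060a6d50d0c4ac701014c65d151521287 (k8 c1653 c5101 c5100 c1646 c4377 c818 c267 c4461 (k8 c4289 c1463 c4393 c132 c5028 c4961 c4380 c4376 (k8 c4306 c4303 c4431 c4297 c4295 c4291 c4403 c4287 (k8 c4375 c4372 c4371 c4282 c4275 c1686 c314 c5129 (k8 c5131 c5128 c4353 c1163 c1118 c5007 c4466 c1232 (k8 c1098 c223 c2132 c4055 c1110 c1112 c4481 c4362 (k4 c4420 c4982 c5061 c4540 (k2 c2527 c2108 k0)))))))) (by decide +kernel)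
def c5134 : PP 8 4 T 0x4000100000000000000000000000000000000000040004002000000000000020000001 := rS 0x166752b0240405 (k4 c267 c4461 c1058 c790 (k2 c1687 c1188 (k1 c4481 k0))) (by decide +kernel)
def c5135 : PP 8 4 T 0x500002002002000080000000000080000000000000000000000000000000000000000 := rS 0xeab34925c401d0f9ce2e3c348a804640298c5ac764975025484804cf05 (k8 c4961 c5126 c5056 c5101 c5100 c4380 c4377 c4305 (k8 c4289 c4285 c818 c267 c4478 c4461 c1646 c5132 (k8 c5133 c4416 c3585 c2131 c5134 c4466 c926 c315 (k2 c553 c3595 (k1 c4481 k0))))) (by decide +kernel)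
def c5136 : PP 8 4 T 0x420002002002000080000005000000000000000000940000000001000080000000000 := rS 0x33d96cda55090e64318080a890c214be25089249a0d2392d8e532886c9e174183d03054595212d1 (k8 c4298 c5101 c5100 c1766 c4961 c4380 c4376 c4306 (k8 c4431 c4297 c4291 c4405 c4290 c4289 c4375 c4374 (k8 c4371 c4282 c4281 c4275 c4381 c4382 c562 c2108 (k8 c2038 c269 c1919 c1607 c4191 c1925 c5128 c4485 (k4 c4395 c4425 c4430 c2116 k0))))) (by decide +kernel)
def c5137 : PP 8 4 T 0x500002002002000080000005000000000000000000104000000001000080000000000 := rS 0x15a885429697456732d9b42128090e64029249a4725b1ca6512783d165451a9d06af68c34d46d00c161267 (k8 c5126 c5101 c4961 c5056 c5028 c4479 c5136 c4298 (k8 c1774 c4306 c2008 c5135 c5100 c1766 c4376 c4297 (k8 c4405 c4290 c4289 c4375 c4374 c4282 c4281 c267 (k8 c4478 c1925 c4461 c224 c5128 c4395 c4425 c2116 (k4 c4400 c4430 c1406 c4490 (k2 c4485 c948 (k1 c557 k0))))))) (by decide +kernel)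
def c5138 : PP 8 4 T 0x500002002002000080000005000000000000000000100000000001000080000000000 := rS 0x87a5b3912cb669fd09420ca7c086286a842249268348e4b6394ca21b2785d060f3ea05165468a8cd46d0099e0b09 (k8 c5101 c4961 c5126 c5056 c5028 c4479 c5135 c4298 (k8 c5100 c1766 c4380 c4379 c4376 c4306 c4431 c4297 (k8 c4291 c4405 c4290 c4289 c4375 c4374 c4371 c4282 (k8 c4281 c4275 c1734 c5136 c5137 c1607 c1610 c269 (k8 c4489 c2108 c4392 c4395 c4425 c684 c2116 c4430 (k2 c1636 c4485 k0)))))) (by decide +kernel)
def c5139 : PP 8 4 T 0x500002002002000080000005000000000000000000100000000001000000100000000 := rS 0x2bd8a964c95838793b87c0cb204ae06f435027c4a62011940a2b138e492231a91c5a3f638a476332083cde7d0099e0aa3059d4a909 (k8 c5101 c5100 c1686 c306 c5135 c4961 c5126 c5056 (k8 c4379 c4378 c4376 c4433 c4293 c4403 c4402 c4289 (k8 c4287 c4285 c4374 c4373 c4372 c4281 c4279 c4277 (k8 c5138 c266 c1646 c4461 c4478 c224 c1610 c2110 (k8 c4423 c5127 c2113 c4559 c4548 c4462 c222 c1023 (k8 c4814 c4466 c790 c1031 c1187 c3267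 c4631 c5054 k0)))))) (by decide +kernel)
def c5140 : PP 8 4 T 0x501100002002000000000002000000000000010000140002000001000000100000000 := rS 0xc52b2bd5a96312652a1c3c87cee0604a4d64738b8fc5233208041675 (k8 c1686 c306 c5056 c4433 c4293 c4402 c4287 c4419 (k8 c1618 c4481 c1124 c1185 c4462 c1023 c1098 c4814 (k8 c4466 c762 c1031 c5134 c4487 c820 c4631 c816 (k2 c1253 c5054 k0)))) (by decide +kernel)
def c5141 : PP 8 4 T 0x120002002002000080000008000000050004040000800000000001000000000000000 := rS 0x17b45213297ecd61b3d8b4a8ca255a1860a15765f089341a4b1f94c76510d9149e1720b25060f3ea060a8b2a425a315 (k8 c4353 c4298 c5101 c5100 c1766 c4961 c4380 c4379 (k8 c4376 c4306 c4305 c4433 c4431 c4297 c4295 c4291 (k8 c4405 c4403 c4290 c4287 c4375 c4371 c4282 c4275 (k8 c4382 c4945 c562 c1749 c2108 c3957 c2038 c5015 (k8 c4485 c4429 c4430 c4459 c4460 c1246 c2124 c2115 (k2 c4455 c2014 (k1 c4493 k0))))))) (by decide +kernel)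
def c5142 : PP 8 4 T 0x8000008000000000000000000000000500000100000000 := rS 0xe87d2490 (k4 c1667 c1666 c1153 c1029 (k1 c4466 k0)) (by decide +kernel)
def c5143 : PP 8 4 T 0x100002002002000080000008000044000000000000844000000001000000000000000 := rS 0x430fea14aa1cc8c9829d4a909a1acd6297 (k8 c1166 c4303 c1163 c4424 c5101 c5100 c1686 c4961 (k8 c4305 c4478 c1925 c5073 c1736 c555 c4489 c5141 k0)) (by decide +kernel)
def c5144 : PP 8 4 T 0x20002002002000080000000000044000000000000908000000000000000000000000 := rS 0x3004428a8be11139249a0d1191c962d638a4364f0ba0c1e81 (k8 c4380 c4376 c4306 c4431 c4297 c4291 c4402 c4289 (k8 c4285 c4375 c4374 c4372 c4371 c4282 c4281 c4277 (k4 c4275 c4382 c4200 c562 (k2 c1607 c2108 (k1 c269 k0))))) (by decide +kernel)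
def c5145 : PP 8 4 T 0x10410002002002000080000008000420000000000000000040000001000000020000001 := rS 0x17c902b1651a091a9b4040515924a909 (k8 c5101 c5100 c4281 c1734 c266 c4461 c5028 c4373 (k4 c1058 c1027 c1026 c790 (k2 c5067 c5051 (k1 c1245 k0)))) (by decide +kernel)
def c5146 : PP 8 4 T 0x10410002002002000080000008000020000000000000100000000001000000100000001 := rS 0x21432783b9ed1837219613a910f074223926834961b2293c2e0f40a9cd46d4196c040515924a909 (k8 c5101 c5100 c4281 c1734 c266 c4461 c838 c4306 (k8 c5028 c4479 c2008 c4380 c4376 c4431 c4297 c4295 (k8 c4291 c4375 c4371 c4282 c4279 c4275 c5145 c4466 (k8 c1153 c1232 c223 c2132 c2130 c5067 c4055 c1112 (k4 c5047 c4540 c2505 c2108 k0))))) (by decide +kernel)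
def c5147 : PP 8 4 T 0x500002002002000080000000000000000000000000100000000001000000100000000 := rS 0x392522f182d8080a2b504355a624fa5d67435b2d472491dac4faa33a950d46d0099e0b09 (k8 c5101 c4961 c5126 c5056 c5028 c4479 c5100 c1686 (k8 c5135 c4379 c4303 c4403 c4281 c4279 c5140 c5139 (k8 c4424 c1163 c1166 c5142 c5143 c820 c5144 c4489 (k8 c1734 c266 c4461 c838 c5146 c4982 c5015 c4481 (k1 c1617 k0))))) (by decide +kernel)
def c5148 : PP 8 4 T 0x500002002002000080000004000000000000000000100000000001000000000000000 := rS 0x8b2e12a931ba3c72351f8ec3e972b82e1a6a36d0d6aa0128080a010788d8e491691d46294f988ca2b2a424cf053ea444027 (k8 c4277 c5147 c886 c4379 c4961 c5126 c5101 c5100 (k8 c314 c1646 c4478 c1610 c4402 c5135 c4374 c4285 (k8 c4281 c4289 c4372 c4376 c5056 c2256 c4461 c224 (k8 c2110 c1707 c4423 c5028 c4479 c5144 c306 c799 (k8 c926 c57 c4403 c4287 c4373 c4279 c5093 c5030 (k4 c1738 c5040 c2113 c4487 (k1 c4361 k0))))))) (by decide +kernel)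
def c5149 : PP 8 4 T 0x500002002002000080000000000000000000000000100000000001000000000000000 := rS 0x1d565b39304b09561a491e8c8aad9410d4f8955a62011940a2b4ba453a1d101a84e491191c5ac7148ec660f3e952126d0099e0aa3 (k8 c5135 c4961 c5126 c5056 c5028 c5101 c5100 c4379 (k8 c4376 c4293 c4403 c4402 c4289 c4285 c4374 c4372 (k8 c4281 c4277 c4479 c5147 c11 c966 c886 c926 (k8 c314 c2256 c1646 c4461 c4478 c2049 c224 c1610 (k8 c5144 c2110 c5148 c4353 c5067 c71 c1117 c3128 (k8 c1747 c1609 c3552 c1608 c842 c5068 c1021 c5070 k0)))))) (by decide +kernel)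
def c5150 : PP 8 4 T 0x400000000000400000002002000000000005000800000000000000000000000001080001100000000 := rS 0x4d07133194e87d1b165fb1c9e2f (k8 c4432 c4297 c4289 c1511 c4989 c1384 c272 c907 (k4 c4982 c2011 c4466 c4488 (k1 c764 k0))) (by decide +kernel)
def c5151 : PP 8 4 T 0x400000000000500002002002000080000005000000000000000000004000000001000000000000000 := rS 0x3a1f4602570374f0e49235238fd8e3b37a8ceaa164a98622f5489c9e4b19a95024d11884546486894040133c141e6802952125d (k8 c4377 c5101 c5100 c267 c5149 c4376 c4961 c5126 (k8 c5056 c4461 c224 c5130 c4478 c1646 c314 c4372 (k8 c4282 c4380 c1882 c4293 c4375 c4297 c4277 c826 (k8 c4432 c1879 c2111 c4305 c1736 c1686 c5135 c4378 (k8 c4403 c4289 c4287 c4374 c4373 c4281 c4279 c4489 (k4 c5150 c2113 c4559 c1395 (k2 c222 c1027 (k1 c4466 k0)))))))) (by decide +kernel)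
def c5152 : PP 8 4 T 0x500002002002000080000005000000000000000000004000000001000000000000000 := rS 0x14b43b3956cba13354c25508c40489320144e492688c8e4b6394ca233278bd920f4595212d10099e0aa540aa4d05d (k8 c4377 c5149 c826 c4380 c1882 c4961 c5126 c5056 (k8 c4298 c5101 c5100 c1766 c4376 c4305 c4432 c4297 (k8 c4293 c4405 c4290 c4289 c4375 c4374 c4372 c4282 (k8 c4281 c4277 c267 c4478 c2041 c4461 c1879 c1736 (k8 c224 c2111 c2067 c5151 c4425 c2012 c2116 c1652 (k2 c4430 c4485 k0)))))) (by decide +kernel)
def c5153 : PP 8 4 T 0x100000000000000000000005000054051100000000000000000000400000420000000 := rS 0x5c459268f (k4 c760 c1029 c4487 c2125 (k1 c4361 k0)) (by decide +kernel)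
def c5154 : PP 8 4 T 0x500000002002000000000005000054051100000000200040000001002000500000405 := rS 0x2653a9b2c8783b191d9155a53 (k8 c4290 c2046 c4295 c4403 c5015 c5153 c4466 c4726 (k4 c4719 c1232 c1881 c4488 k0)) (by decide +kernel)
def c5155 : PP 8 4 T 0x520000002002000080000005000144000000000000208100000001000000100000401 := rS 0x12070f9592c5b01a540830152344aa750a444e492688c8e2d1fb1c5233278bd5265 (k8 c41 c826 c4432 c4297 c4293 c4402 c4289 c4287 (k8 c4285 c4374 c4372 c4282 c4281 c4277 c4327 c4329 (k8 c4330 c4381 c4383 c4200 c4839 c5130 c1694 c227 (k4 c574 c5154 c816 c1193 (k2 c1018 c262 (k1 c4462 k0)))))) (by decide +kernel)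
def c5156 : PP 8 4 T 0x2002002000080000000000020000000000000248000000000000000000000000 := rS 0x10a19442b06205678ac224926834962d298a4a21b1993c2e2f4183d030557a2ca90968995566b (k8 c43 c1613 c41 c4298 c5101 c5100 c1766 c829 (k8 c4961 c4380 c4376 c4306 c4432 c4431 c4297 c4293 (k8 c4291 c4405 c4402 c4290 c4285 c4375 c4371 c4282 (k8 c4281 c4275 c1734 c1794 c266 c1879 c2112 c4903 (k2 c2038 c685 (k1 c2108 k0)))))) (by decide +kernel)
def c5157 : PP 8 4 T 0x800000000000000002002002000080000000000000000000000000000000000000000000000000000 := rS 0x10a194421e96ce65b34fe11249341a4725b1ca6510d93c2e83079f503054595212d1 (k8 c4298 c5101 c5100 c1766 c4961 c4380 c4379 c4376 (k8 c4306 c4431 c4297 c4291 c4405 c4290 c4289 c4375 (k8 c4374 c4371 c4282 c4281 c4275 c4392 c4395 c4425 (k4 c2116 c4430 c1636 c4485 (k2 c2038 c684 (k1 c2108 k0)))))) (by decide +kernel)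
def c5158 : PP 8 4 T 0x500002002002000080000005000000000000000000000000000001000000000000000 := rS 0x402a862853e6213924464716b1c525d3ed0c165484a8c026782a94d081 (k8 c4380 c5149 c1882 c4961 c5126 c5056 c5135 c5101 (k8 c5100 c306 c5157 c4379 c4377 c4402 c4289 c4285 (k8 c4374 c4372 c4281 c4277 c5152 c1610 c5156 c4489 (k2 c4200 c5155 (k1 c314 k0))))) (by decide +kernel)
def c5159 : PP 8 4 T 0x4100100000000000000000000000000000000000040044002000001000000040000001 := rS 0x100a83a64 (k4 c4478 c5134 c1646 c4466 (k1 c314 k0)) (by decide +kernel)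
def c5160 : PP 8 4 T 0x100002002002000080000002000040000000000000240000000001000000000000000 := rS 0x258b095020a84b0c50a7cca620f8181293591ce2e272488c8e2d1fb1c525d3ed0c16752a4240305 (k8 c4961 c5056 c5101 c5100 c1686 c306 c5157 c4379 (k8 c4377 c4402 c4289 c4287 c4285 c4374 c4372 c4281 (k8 c4277 c4419 c1618 c4481 c1124 c1185 c4462 c1098 (k8 c5159 c41 c1610 c5156 c4489 c4381 c4200 c5130 (k4 c1694 c526 c4487 c1196 k0))))) (by decide +kernel)
def c5161 : PP 8 4 T 0x400000000000100100002000000080100008000040000000000000244102000001400000000004001 := rS 0x13f0d1089454a1011900a39 (k8 c4279 c267 c4478 c4461 c1736 c1646 c224 c314 (k2 c5130 c5142 (k1 c4489 k0))) (by decide +kernel)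
def c5162 : PP 8 4 T 0x500002002002000080000000000000000000000000000000000001000000000000000 := rS 0x5ed1484bf6530d9ec5a54655ac1182ec4aa74ac3142ab4f9892f155b2d55ea9529ac02685199c4e4d1f94c7651199149e2f20b241e5d3ea060a8b2a425a343 (k8 c5157 c4298 c5101 c5100 c1766 c4961 c4380 c4379 (k8 c4377 c4376 c4305 c4433 c4432 c4297 c4295 c4293 (k8 c4405 c4403 c4290 c4287 c4282 c4277 c5126 c5135 (k8 c5149 c5056 c43 c1882 c826 c829 c5160 c5158 (k8 c4353 c1166 c5161 c1610 c1613 c5156 c4489 c1746 (k8 c4330 c4381 c4945 c4839 c1749 c2046 c4986 c4491 (k8 c4429 c4430 c4459 c4855 c1246 c2115 c4455 c2014 (k1 c4493 k0)))))))) (by decide +kernel)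
def c5163 : PP 8 4 T 0x400002002002000080000005000000000000000000000000000001000000000000002 := rS 0xe6710323013151b2e56659361fcd26b2f8e4920d1a91c7ec71d85c5eb16483cde7d8282cea548499d2ea315a7e1b10 (k8 c5162 c4962 c4414 c4411 c4337 c4335 c4333 c5101 (k8 c5100 c1686 c306 c4961 c4379 c4378 c4376 c4305 (k8 c4303 c4432 c4431 c4403 c4289 c4287 c4374 c4373 (k8 c4371 c4281 c4279 c488 c492 c756 c5027 c4479 (k8 c4993 c5025 c4548 c2113 c4386 c232 c5075 c4462 (k2 c1385 c1021 (k1 c2121 k0))))))) (by decide +kernel)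
def c5164 : PP 8 4 T 0x400002002002000080000005000000000000000000104000000001000000100000000 := rS 0xe87ce71704ae06e39248d48e3f638ecdf05a182cea25010040a2b88152120f (k8 c4376 c5101 c5100 c5162 c4411 c266 c5163 c4461 (k8 c224 c1686 c306 c5157 c4961 c4378 c4403 c4289 (k8 c4287 c4374 c4373 c4281 c4279 c5127 c2113 c4559 (k4 c4361 c1085 c222 c5134 (k1 c4466 k0))))) (by decide +kernel)
def c5165 : PP 8 4 T 0x400002002002000080000005000000010000000000100000000001000000200000000 := rS 0x452308d3c81812371c8d47e3b419be0a75500940405078ac46c7248b48ea314a7e2091139ed3a333b95c1654351b40309 (k8 c5101 c5163 c5028 c4479 c5100 c306 c799 c1921 (k8 c4293 c966 c4055 c4277 c886 c5162 c4414 c4402 (k8 c4337 c4374 c4285 c4281 c4289 c4372 c4411 c4376 (k8 c266 c4461 c224 c2110 c1686 c4961 c4378 c4306 (k8 c4403 c4287 c4373 c4279 c5021 c4559 c4462 c4814 (k4 c5047 c4482 c4551 c5037 k0)))))) (by decide +kernel)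
def c5166 : PP 8 4 T 0x400002002002000080000005000000000000000000104000000001000000000000000 := rS 0x452308d3c818b0091baca2e943b9ecae914e8804e3f638cd060f82d0c16752a19d2ea315a7e1b10351b40309 (k8 c5101 c5163 c5028 c4479 c5162 c4962 c4414 c4411 (k8 c4337 c4335 c4333 c5100 c1686 c306 c5157 c4961 (k8 c4376 c4306 c4293 c4289 c4287 c4277 c5164 c966 (k8 c886 c799 c4055 c1921 c5165 c4418 c5073 c4989 (k8 c1185 c5025 c4462 c4814 c5047 c4482 c5032 c5037 k0))))) (by decide +kernel)
def c5167 : PP 8 4 T 0x400002002002000080000005000000000000000000100000000001000000100000000 := rS 0x38580fac812b81b8e49235238fd8e3b37c16860b3a99d2e25010040a2b88152120f (k8 c4376 c5101 c5100 c5162 c4411 c266 c5163 c4461 (k8 c224 c4335 c4333 c1686 c306 c5157 c4961 c4378 (k8 c4403 c4289 c4287 c4374 c4373 c4281 c4279 c5127 (k4 c2113 c4559 c4548 c222 (k2 c5025 c4466 (k1 c1026 k0)))))) (by decide +kernel)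
def c5168 : PP 8 4 T 0x400002002002000080000005000000000000000000100000000001000000000000000 := rS 0x6d174a15d22203150c170d47a804a0200814a909078ac46c7139245a47518a53f10 (k8 c5162 c4414 c4402 c4337 c4374 c4285 c4281 c4277 (k8 c4289 c4372 c4411 c4376 c5101 c5100 c266 c5163 (k8 c4461 c224 c2110 c851 c4962 c306 c5157 c5166 (k4 c5167 c886 c799 c5165 (k2 c4418 c5040 (k1 c4989 k0)))))) (by decide +kernel)
def c5169 : PP 8 4 T 0x2002000000000000014000000040000000200000000000000040000000010 := rS 0x31578b4a629288cda22f (k8 c4432 c4298 c4293 c4405 c4402 c4290 c4285 c829 (k2 c1879 c2112 k0)) (by decide +kernel)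
def c5170 : PP 8 4 T 0x400002002002000080000004000000000000000000000000000001000000000000000 := rS 0x35000da912c2c91a738bc5568175883cfb053a99d2ea34fc34d205558ad5b104595212d1 (k8 c4298 c5101 c5100 c1766 c5162 c4338 c4411 c4415 (k8 c266 c5169 c4962 c4414 c4337 c4335 c4333 c1686 (k8 c4961 c4379 c4376 c4303 c4431 c5168 c4389 c4419 (k8 c1618 c1387 c4481 c5025 c1155 c4993 c5032 c4479 (k1 c492 k0))))) (by decide +kernel)
def c5171 : PP 8 4 T 0x400002002002000080000000000000000000000000000000000001000000000000000 := rS 0x8b460e6793b9a80c99011b4387b0087c425646a4167155b1a40b0d55a7d262b56a8d2f103a89c723b1990563054595212d1 (k8 c4298 c5101 c5100 c1766 c4961 c4303 c4433 c4293 (k8 c4403 c4279 c4277 c1686 c5162 c4335 c4337 c4338 (k8 c4411 c4413 c4414 c4415 c4962 c266 c5169 c5170 (k8 c4353 c1163 c5076 c1117 c4550 c886 c1153 c5075 (k8 c1227 c4466 c5028 c4461 c1031 c791 c4479 c1920 (k4 c4814 c1021 c4482 c4481 (k1 c4982 k0))))))) (by decide +kernel)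
def c5172 : PP 8 4 T 0x400002002002000080000000000080000000000000000000000000000000000000000 := rS 0x111 (k2 c4337 c5135 k0) (by decide +kernel)
def c5173 : PP 8 4 T 0x500002002002000080000000000000000000000000000000000000000000000000002 := rS 0xcf05 (k2 c4961 c5126 (k1 c5056 k0)) (by decide +kernel)
def c5174 : PP 8 4 T 0x400000000000400100002000000080000001400000500000500104100010000002040000000004002 := rS 0x42864f0774e464e25a05450ae725c824224d0692c364f0bc5d6e49 (k8 c4281 c1742 c4416 c4431 c4297 c4291 c4375 c4371 (k8 c4282 c4275 c235 c4548 c4481 c751 c4492 c1615 (k8 c4476 c4387 c5037 c4488 c4679 c969 c309 c602 (k1 c2108 k0)))) (by decide +kernel)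
def c5175 : PP 8 4 T 0x400000000000000000002000000080000001000000000000100006000008000002040000000000000 := rS 0x173155e2ed7e434e1d8724d1a92c8a4f20c5d6e49 (k8 c4281 c1742 c4416 c4433 c4297 c4295 c4375 c4373 (k8 c4282 c4279 c961 c960 c4674 c1093 c1890 c2114 (k2 c4354 c3219 (k1 c4492 k0)))) (by decide +kernel)
def c5176 : PP 8 4 T 0x400000000000400100002000000080000001400000000000500006100002000002040000020004002 := rS 0x1d012994d904b257 (k8 c5175 c4993 c4433 c2730 c1031 c1057 c5174 c1687 k0) (by decide +kernel)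
def c5177 : PP 8 4 T 0x400002002002000080000001000000000000000000100000000000000000000000002 := rS 0x1d00c731002c3a1f598ad2e6788164d86b0985d060f37a060a54848dd6e498b8f286c7 (k8 c4289 c5157 c5171 c4416 c4281 c1742 c4989 c5101 (k8 c5100 c4961 c4380 c4378 c4376 c4306 c4431 c4401 (k8 c492 c4479 c4993 c5173 c4333 c4335 c4411 c5025 (k8 c274 c5176 c567 c4466 c1615 c831 c4481 c498 k0)))) (by decide +kernel)
def c5178 : PP 8 4 T 0x100002002002000080000001000050020000000000940000000000000000000000000 := rS 0x861893e65829521343 (k8 c5157 c5101 c5100 c4961 c3628 c1698 c4478 c4489 (k1 c5144 k0)) (by decide +kernel)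
def c5179 : PP 8 4 T 0x500002002002000080000001000010000000000000100000000000000000100000000 := rS 0x10d4f98838730fa592a7d8295287175199cd46d00c25263c (k8 c5171 c1655 c5101 c5177 c5028 c4479 c5084 c5172 (k8 c4416 c5157 c5100 c4961 c4379 c5178 c4487 c275 (k4 c1084 c4466 c5134 c1610 (k2 c5144 c4489 k0)))) (by decide +kernel)
def c5180 : PP 8 4 T 0x500002002002000080000001000000000000000000100000000000000000100000000 := rS 0x2f171184b1ecf2774ca54ac060e0083e0515a81262919904a9091badc93171e50d8e01 (k8 c5177 c4289 c5157 c5171 c4416 c4281 c1742 c4989 (k8 c5101 c5100 c4433 c4293 c4402 c1655 c5179 c1734 (k8 c266 c274 c4461 c4466 c791 c790 c762 c1031 (k8 c1023 c4814 c1227 c4487 c4482 c899 c5090 c5089 k0)))) (by decide +kernel)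
def c5181 : PP 8 4 T 0x400000000000000100000000000000100005000040000000010004040002000002000080200000000 := rS 0x11439acd72753224a2e05 (k8 c2256 c4416 c315 c4191 c3595 c1126 c1124 c3585 (k2 c4492 c4073 k0)) (by decide +kernel)
def c5182 : PP 8 4 T 0x500002002002000080000001000000000000000100100000000000000000000000000 := rS 0x8aa36307959018e6770596cae09418dd8e8f4e8cd22270101528934b8b62f0d4f988ca2b102dc923ca19bd925433c14fa6a3680612a3 (k8 c5172 c5101 c5177 c5028 c4479 c4379 c4961 c5084 (k8 c5100 c4305 c4378 c5157 c5171 c4281 c1742 c5180 (k8 c5181 c1646 c4478 c1610 c5144 c4416 c4285 c926 (k8 c1654 c4487 c2256 c4461 c4277 c886 c4293 c966 (k8 c4521 c4289 c4989 c4306 c235 c803 c839 c303 (k8 c1921 c1617 c4462 c4481 c4814 c5039 c5047 c5037 (k1 c4486 k0))))))) (by decide +kernel)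
def c5183 : PP 8 4 T 0x500002002002000080000001000000000000000000100000000000000000000000000 := rS 0xb2b1cce862328ac40c9379f60a5484d0d6e3c24a8cce01 (k8 c5177 c5084 c5172 c4281 c5171 c1742 c5157 c5101 (k8 c5100 c4961 c4379 c4378 c4305 c5180 c5181 c1646 (k4 c4478 c5182 c46 c1689 (k2 c307 c799 k0)))) (by decide +kernel)
def c5184 : PP 8 4 T 0x100000000000000000000000000040000000000040002000002000000140000011 := rS 0xb33a9ccb209058722e02 (k8 c4461 c4416 c4466 c302 c1058 c1026 c1615 c1687 (k2 c5025 c4481 k0)) (by decide +kernel)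
def c5185 : PP 8 4 T 0x2002002000084000000014000000000000000800000000000001040000000000 := rS 0x226968457064224d0692c5a531494436332785c5e8307a060a8b2a425a287 (k8 c1924 c4298 c5101 c5100 c1766 c4961 c4380 c4376 (k8 c4306 c4432 c4431 c4297 c4293 c4291 c4405 c4402 (k8 c4290 c4285 c4375 c4371 c4282 c4275 c1918 c2112 (k4 c2108 c4428 c685 c4485 k0)))) (by decide +kernel)
def c5186 : PP 8 4 T 0x400002002002000080000001000000000000000000100000000000000000000000000 := rS 0x49e0ef192102c30303da7440026787c0aab4f8ad5a978829cd467368049223238b58e291993d07052a42478a3 (k8 c5172 c5171 c5101 c5100 c4961 c4306 c4297 c4293 (k8 c4402 c4289 c4285 c4374 c4372 c4281 c5177 c5028 (k8 c5084 c4479 c2008 c5183 c4335 c4338 c4411 c4414 (k8 c4415 c266 c274 c4579 c4461 c5184 c966 c4055 (k8 c5185 c228 c2245 c316 c4446 c1887 c4482 c2144 (k1 c1959 k0)))))) (by decide +kernel)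
def c5187 : PP 8 4 T 0x400002002002000080000000000000000000000000100000000000000000000000002 := rS 0x4aa80ac7f4823d668d0f9661a9f15a5cce6c881acc6652f83426290b985925d3ec256e3c24a8e2ab4 (k8 c5186 c4389 c5172 c4281 c5171 c1742 c5101 c4379 (k8 c4377 c4305 c4301 c4431 c4402 c4401 c4371 c488 (k8 c490 c754 c492 c5173 c4479 c4333 c4335 c4411 (k8 c4414 c4962 c4993 c274 c1387 c5025 c5093 c4486 (k4 c1434 c4550 c2118 c2966 (k1 c1706 k0)))))) (by decide +kernel)
def c5188 : PP 8 4 T 0x100000000000000000000000000020000000000040002000002000080000000401 := rS 0x9038103c65 (k4 c3628 c1695 c4191 c1098 (k2 c2188 c4462 k0)) (by decide +kernel)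
def c5189 : PP 8 4 T 0x100100000000000000000000000000010000000040000002000002000080100000001 := rS 0x2c010ca0631024389649c5c161f (k8 c275 c307 c4416 c1655 c4487 c4466 c1058 c5134 (k4 c4462 c41 c1607 c526 (k1 c1196 k0))) (by decide +kernel)
def c5190 : PP 8 4 T 0x4000100000000000000000000000000008000000040040002000000000000000000000 := rS 0x16675 (k2 c3595 c1124 (k1 c4481 k0)) (by decide +kernel)
def c5191 : PP 8 4 T 0x100100000000000000000000000000000000000040040002000002000080000000001 := rS 0x214a82d2717 (k4 c4416 c5190 c307 c5188 (k2 c315 c5189 k0)) (by decide +kernel)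
def c5192 : PP 8 4 T 0x500002002002000080000000000000000000000000100000000000000000000000000 := rS 0x852e90504353e620f9940a2b13c14a83c51ae4e6b43e99d4e6a368061283 (k8 c4306 c5101 c5187 c5028 c4479 c2008 c5084 c4379 (k8 c5186 c1618 c107 c5172 c5171 c5100 c4961 c4277 (k8 c5191 c266 c1646 c274 c4478 c1610 c5144 c5125 (k4 c1707 c899 c886 c5184 k0)))) (by decide +kernel)
def c5193 : PP 8 4 T 0x400002002002000080000000000000000000000000100000000000000000000000000 := rS 0x240408f4687c0b0d4f8ad2f10338062ab413c14a9095b8f092a3 (k8 c5172 c4281 c5171 c1742 c5101 c5100 c4961 c4277 (k8 c5186 c4389 c5187 c5084 c5192 c4335 c4411 c4414 (k8 c4962 c266 c274 c1387 c5093 c5184 c4486 c886 k0))) (by decide +kernel)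
def c5194 : PP 8 4 T 0x400000000000100100000000000000100005000040000000010004040002000002000080000000001 := rS 0x12a97499c84317 (k4 c4416 c5181 c5191 c1655 (k2 c1084 c3561 (k1 c4487 k0))) (by decide +kernel)
def c5195 : PP 8 4 T 0x500002002002000080000001000000000000000000000000000000000000000000000 := rS 0x1429f129880465028ac4e23238b58e296483cde7d8295213435b8f092a333804d02f (k8 c4432 c5193 c756 c5084 c5172 c4281 c5171 c1742 (k8 c5157 c5101 c5100 c4961 c4379 c4378 c4376 c4305 (k8 c4402 c4289 c4285 c4374 c4372 c4277 c5194 c266 (k4 c1646 c4461 c4478 c224 (k2 c1610 c5156 (k1 c2110 k0)))))) (by decide +kernel)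
def c5196 : PP 8 4 T 0x200000002002000000000000000000000000000000200002000000000000000000000 := rS 0xaab15ab516d1 (k4 c4298 c1766 c4338 c4411 (k2 c4415 c266 (k1 c5169 k0))) (by decide +kernel)
def c5197 : PP 8 4 T 0x400002002002000080000000000000000000000000000000000000000000000000000 := rS 0xa14f894c4023281456735a444ce013428c78272488c8e2d638a45e0f3ec14a909 (k8 c5101 c5100 c4961 c4379 c4376 c4432 c4402 c4289 (k8 c4285 c4374 c4372 c4281 c4277 c5171 c5172 c5193 (k8 c756 c5084 c5196 c5195 c1618 c5191 c266 c1646 (k4 c4461 c4478 c224 c1610 (k2 c5156 c2110 k0))))) (by decide +kernel)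
def c5198 : PP 8 4 T 0x800102002000000080040000000080000040000000100400000000000000000000000 := rS 0x87a5a2558ca530944e4d0688c961b19a0e12a5 (k8 c4444 c5101 c4306 c4293 c4291 c4375 c4372 c4371 (k8 c4282 c4277 c1463 c4502 c941 c940 c2024 c4458 (k2 c1904 c4485 k0))) (by decide +kernel)
def c5199 : PP 8 4 T 0x820002002000000080000000000000000000000000100400000000000000000000000 := rS 0x4aa7139341a232586c66a5 (k8 c4444 c4293 c4291 c4375 c4372 c4371 c4282 c4277 (k2 c4330 c4381 (k1 c4502 k0))) (by decide +kernel)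
def c5200 : PP 8 4 T 0x2002002000080000000000000000000000000100000000000000000000000002 := rS 0x214328843d2d9ccb669fd3d0d51a84cc5f089249a0d2392d8e532886c9e1730a0c1e7d40c15165484b4686a555c46242d (k8 c4285 c5197 c4498 c4445 c4444 c5157 c4298 c5101 (k8 c5100 c1766 c4961 c4380 c4379 c4376 c4306 c4301 (k8 c4431 c4297 c4291 c4405 c4290 c4289 c4375 c4374 (k8 c4371 c4282 c4281 c4275 c488 c5056 c896 c5198 (k8 c5199 c4489 c5121 c1397 c1668 c2116 c4430 c1636 (k4 c4485 c2038 c684 c2108 k0)))))) (by decide +kernel)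
def c5201 : PP 8 4 T 0x820002002000000080000000000000000000000000100000000000000000000000000 := rS 0x5f (k2 c4382 c5199 k0) (by decide +kernel)
def c5202 : PP 8 4 T 0x2002002000080000000000008000000000000100000000000000000000000000 := rS 0x2968943b38c8cb6698c924d2392d8e532893cfb054595212d135a955711890b4ce01 (k8 c5200 c5084 c4285 c5197 c4498 c4445 c4444 c4442 (k8 c4298 c5101 c5100 c1766 c4961 c4379 c4297 c4405 (k8 c4290 c4289 c4375 c4374 c4282 c4281 c1610 c1397 (k4 c1668 c4478 c2116 c1653 (k2 c556 c4430 (k1 c4485 k0)))))) (by decide +kernel)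
def c5203 : PP 8 4 T 0x2002002000080000000000000000000000000100000000000000000000000000 := rS 0x312b0ca2b5027e1aa33380492c7298a4a233688bd925d82c2686a9578c4d6a555c46242d (k8 c4285 c5197 c4498 c4445 c4444 c4442 c4441 c4346 (k8 c4345 c5157 c5101 c4961 c4377 c4305 c4432 c4298 (k8 c4293 c4405 c4402 c4290 c4289 c4281 c5200 c5084 (k8 c5099 c5201 c5202 c4489 c1734 c1736 c2112 c4478 (k1 c820 k0))))) (by decide +kernel)
def c5204 : PP 8 4 T 0x820000002000000080000000000000000000000000000000000000000000000000000 := rS 0x4aa713934664f17aa462a5 (k8 c4444 c4441 c4345 c4432 c4297 c4293 c4282 c4277 (k2 c4330 c4381 (k1 c4839 k0))) (by decide +kernel)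
def c5205 : PP 8 4 T 0x2002002000080000000000008000000000000000000000000000000000000000 := rS 0x52d0ece3222596cd319249a4725b1ca651279f60a8b2a425a2a555c46242d33804d02f (k8 c4432 c5203 c756 c5084 c4285 c5197 c4498 c4445 (k8 c4444 c4298 c5101 c5100 c1766 c4961 c4379 c4297 (k8 c4405 c4290 c4289 c4375 c4374 c4282 c4281 c1610 (k8 c1397 c1668 c2041 c4478 c2116 c1652 c4430 c4485 k0)))) (by decide +kernel)
def c5206 : PP 8 4 T 0x2002002000080000000000000000000000000000000000000000000000000000 := rS 0x31995409f86a8cce013444556a5358c55312a1c260a5d648b58e2f (k8 c4432 c4289 c4285 c4305 c4377 c4961 c5101 c5157 (k8 c5197 c4345 c4441 c4442 c4444 c4445 c4498 c5203 (k8 c756 c5084 c5099 c5204 c5205 c4489 c1736 c5156 (k1 c4478 k0)))) (by decide +kernel)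
def c5207 : PP 8 4 T 0x501000002002000000000000010000050010000002080001000001000000100000000 := rS 0x11749b00380a2d464ea571d800b28b (k8 c721 c4993 c5084 c4403 c920 c593 c5015 c4476 (k4 c5123 c567 c4987 c1029 (k2 c4420 c4487 k0))) (by decide +kernel)
def c5208 : PP 8 4 T 0x10400100002002000000000020000000010150080040180011000000000000020000000 := rS 0x1943828e8772d1bcae152984ca21b6885d3241 (k8 c4433 c1031 c4431 c4298 c4291 c4405 c4401 c4290 (k8 c4283 c921 c1460 c4476 c4679 c4964 c759 c1693 (k2 c309 c2109 k0))) (by decide +kernel)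
def c5209 : PP 8 4 T 0x1000002002000000000000010000080000000082080000000001000000100000000 := rS 0x805158ea00 (k4 c5084 c46 c1083 c5123 (k2 c751 c84 k0)) (by decide +kernel)
def c5210 : PP 8 4 T 0x521100002002000080000001000080000000000000180000000001000080000000000 := rS 0x13182b9cd701c1b87d6f174b22d5a7e64aed1a91308e49235238fca63b7e964aa8957b453f4312b1cfa5d11a9cd86b0005c4295 (k8 c1694 c314 c4431 c5084 c492 c4479 c2945 c4372 (k8 c752 c1353 c4289 c1463 c4393 c78 c4298 c1774 (k8 c681 c5112 c4993 c5206 c4403 c4290 c4287 c4374 (k8 c4373 c4281 c4279 c4325 c4327 c4383 c4825 c632 (k8 c4483 c5017 c721 c5207 c4359 c1165 c1193 c4989 (k4 c4466 c2113 c5209 c921 (k2 c5208 c1057 (k1 c4990 k0)))))))) (by decide +kernel)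
def c5211 : PP 8 4 T 0x2000000080000000020404000000000000002000400000000001000000000 := rS 0x152a51889c9a23258cc9e2f (k8 c4432 c4297 c4293 c4375 c4372 c4282 c4277 c2046 (k2 c2053 c2955 (k1 c2111 k0))) (by decide +kernel)
def c5212 : PP 8 4 T 0x501100002002000080000001000080000000000000180000000001000080000000000 := rS 0x650e778c82933140e0dce88d4787d6f174b22d5a912d15cc10d4a8842a3f2984ca21b20bf4be0d2e88cb25544abda29fa18958ea7361ac0017 (k8 c4431 c5084 c492 c4479 c2945 c4289 c1463 c4393 (k8 c78 c4298 c1774 c681 c5112 c4993 c4372 c752 (k8 c4371 c488 c5206 c4433 c4291 c4405 c4401 c4290 (k8 c4287 c4283 c314 c1694 c5210 c4477 c2941 c4476 (k8 c2943 c5211 c721 c5207 c4359 c1165 c1193 c931 (k8 c1198 c929 c4989 c4466 c4486 c1031 c759 c5037 (k4 c4679 c1693 c309 c2109 k0))))))) (by decide +kernel)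
def c5213 : PP 8 4 T 0x400000000000000101002000000080000000020404000000010002080000400000000001000000000 := rS 0x320c27f (k4 c5017 c5211 c4483 c632 k0) (by decide +kernel)
def c5214 : PP 8 4 T 0x501100002002000080000000000080000000000000180000000001000080000000000 := rS 0x5a084463f (k4 c4287 c4372 c314 c5212 (k1 c5129 k0)) (by decide +kernel)
def c5215 : PP 8 4 T 0x501100002002000080000000000080000000000000180000000000000080000000000 := rS 0x300a4381d82433a2ce307304c5c788b56a9cfa25a1a7c2ac72984ca21b7e97446592aa255ed1361ac0017 (k8 c4431 c5084 c492 c4479 c4298 c1774 c681 c5112 (k8 c4993 c4372 c752 c5206 c4291 c4405 c4401 c4290 (k8 c4289 c4283 c78 c4393 c1463 c1353 c2945 c5213 (k8 c721 c5214 c4416 c234 c1614 c4992 c4991 c4481 (k4 c4446 c4450 c498 c1692 (k2 c4462 c2109 (k1 c308 k0))))))) (by decide +kernel)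
def c5216 : PP 8 4 T 0x400000000000501100002002000080000001000004000000010000180000000001000080000000000 := rS 0x46012b82b8706e730fade2e9645ab4fc391a91c7ec7298edfa592aa255ed1361ac0017648852a91538951abb8628492a3 (k8 c5215 c4281 c1734 c4489 c4825 c4383 c4381 c4330 (k8 c4327 c1694 c314 c633 c4431 c5084 c492 c4479 (k8 c4298 c1774 c681 c5112 c4993 c5206 c4403 c4290 (k8 c4289 c4287 c4374 c4373 c4279 c4483 c5213 c721 (k8 c5207 c4359 c1165 c1193 c5209 c4989 c4466 c921 (k4 c2113 c1057 c5208 c4990 k0)))))) (by decide +kernel)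
def c5217 : PP 8 4 T 0x400000000000501100002002000080000001000004000000000000180000000001000080000000000 := rS 0x548c558aba5b399acb3e20d4a255398618272688c8e4b6394ca233278bd424944abda26c358002ea3 (k8 c5215 c4431 c5084 c492 c4479 c4298 c1774 c681 (k8 c4281 c1734 c4432 c4297 c4293 c4405 c4290 c4289 (k8 c4375 c4374 c4372 c4282 c4277 c4489 c4325 c4330 (k8 c4381 c4385 c640 c5216 c1629 c1358 c2116 c4430 (k4 c1676 c4491 c2046 c948 (k1 c2111 k0)))))) (by decide +kernel)
def c5218 : PP 8 4 T 0x1000002002000088100000000000000000450000000001000000000000000000000 := rS 0x854083822490691c2ac70993dfb45 (k8 c4400 c5206 c4297 c4401 c4289 c4283 c4374 c4371 (k4 c4281 c4275 c2107 c1365 (k2 c1495 c4484 k0))) (by decide +kernel)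
def c5219 : PP 8 4 T 0x501100002002000080000001000004000000000000180000000001000080000000000 := rS 0x74149704a44ea713e01cb4832ba2958aba5a359c3665add9ab93fd08724d118d48e4b1fb1ca63b2893cb2a124abda255361ac001764a8c4295 (k8 c1694 c314 c5215 c633 c4431 c5084 c492 c4479 (k8 c5112 c4298 c1774 c4281 c1734 c4993 c4297 c4405 (k8 c4403 c4290 c4289 c4287 c4375 c4374 c4373 c4372 (k8 c4282 c4279 c5217 c4392 c4394 c4395 c4424 c4425 (k8 c2113 c2116 c1384 c4430 c1676 c4491 c945 c2950 (k8 c2628 c4476 c495 c5218 c1419 c1690 c889 c233 (k4 c929 c4462 c5153 c567 k0))))))) (by decide +kernel)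
def c5220 : PP 8 4 T 0x400000000000500100002002000080100000040054000000040002000000000000000000000000000 := rS 0x15231562ae96ce65a0d9aa512a9cc27c8609c924d1191c96c729944664f688bdfa89 (k8 c681 c5206 c4432 c4298 c4297 c4293 c4405 c4290 (k8 c4289 c4375 c4374 c4372 c4282 c4281 c4277 c4489 (k8 c4483 c4325 c4330 c4381 c4385 c1358 c640 c1629 (k4 c2116 c4430 c1676 c4491 (k2 c2046 c948 (k1 c2111 k0)))))) (by decide +kernel)
def c5221 : PP 8 4 T 0x501100002002000080000000000004000000000000180000000001000080000000000 := rS 0x14ebb5ea4500c5589c4f89d5f968e6833cb055257452b156a5a5b3996cda1264388f0fa6d2c7f49a362eb42691c963f6394ca24f2098cb2a124abda255361ac001764a8c4295 (k8 c1694 c314 c5215 c633 c4431 c5084 c492 c4479 (k8 c5112 c4298 c1774 c4281 c1734 c4993 c42 c4433 (k8 c4297 c4405 c4290 c4289 c4287 c4375 c4374 c4282 (k8 c5219 c4419 c1388 c1658 c4984 c4487 c2936 c1193 (k8 c930 c4466 c1031 c5220 c4395 c4425 c2116 c4430 (k8 c1406 c1676 c4491 c945 c2950 c948 c1986 c2590 (k8 c2628 c3709 c4476 c1518 c969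 c5218 c1420 c625 (k4 c1252 c1773 c889 c1899 (k2 c1446 c1896 (k1 c2126 k0)))))))))) (by decide +kernel)
def c5222 : PP 8 4 T 0x501000002002000000000000010000010010000102080001000001000000100000000 := rS 0x2d8292c00 (k4 c5084 c5207 c5123 c929 (k1 c566 k0)) (by decide +kernel)
def c5223 : PP 8 4 T 0x410000000000000001000000020040000000020002100000000000000000000000000 := rS 0x29e8a8067295528a (k8 c945 c948 c2052 c1772 c1773 c4400 c1896 c4490 k0) (by decide +kernel)
def c5224 : PP 8 4 T 0x511000002002000000000000000040010010020000180001000001000000100000000 := rS 0x46c5522b42d1c51e7439a595acd361ac0017 (k8 c4431 c5084 c492 c4479 c1358 c5223 c5207 c5209 (k8 c5222 c930 c1420 c592 c1690 c889 c4389 c1388 (k1 c4486 k0))) (by decide +kernel)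
def c5225 : PP 8 4 T 0x501100002002000080000000000000000000000000180000000001000080000000000 := rS 0x4520a96876721596cd07508fa7f86a792a21089249a47258558e53099449efd2f834aa8957b44d86b0005d92a3 (k8 c5215 c633 c4431 c5084 c492 c4479 c4298 c1774 (k8 c681 c5112 c4371 c488 c5206 c4297 c4405 c4401 (k8 c4290 c4289 c4283 c4375 c4374 c4282 c4281 c4275 (k8 c314 c1694 c5221 c4384 c1393 c5224 c4483 c2107 (k8 c4395 c4425 c1495 c2116 c1637 c4430 c5218 c4485 (k1 c2628 k0)))))) (by decide +kernel)
def c5226 : PP 8 4 T 0x400000000000501100002002000080000000000044000000000002080000000002000080000000000 := rS 0x8a56ad44aa73f430a6a124abda2c94687042073a1ce2e130fa5566092a800b235 (k8 c4373 c4993 c5084 c5112 c234 c4991 c857 c275 (k8 c4401 c4416 c1614 c4481 c498 c831 c4466 c1027 (k8 c633 c4298 c1774 c4281 c1734 c4290 c4489 c5220 (k4 c4330 c4381 c1434 c5017 (k2 c5080 c721 k0))))) (by decide +kernel)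
def c5227 : PP 8 4 T 0x400000000000501100002002000080000000000040000000000002080000000002000080000000000 := rS 0x8aa4568713e1fe1a9e7e97c1ac92d15d1e964687042073a1ce2e130fa5566092a800b235 (k8 c4373 c4993 c5084 c5112 c234 c4991 c857 c275 (k8 c4401 c4416 c1614 c4481 c498 c831 c4466 c1027 (k8 c593 c930 c751 c4476 c633 c4371 c488 c5206 (k8 c5226 c4384 c1393 c4483 c1420 c1690 c889 c4389 (k1 c4486 k0))))) (by decide +kernel)
def c5228 : PP 8 4 T 0x501100002002000080000000000000000000000000180000000000000080000000000 := rS 0x29d7a91861b8e2bf3e275528356229768752d2d9ccb669fe8499468711e9b10a580e1f3a254b4b32bb14e6098b8f192a3449555e49268d48e4b6394c265127b448259361ac0017 (k8 c4431 c5084 c492 c4479 c4993 c4433 c4298 c4297 (k8 c4405 c4401 c4290 c4289 c4375 c4374 c4373 c4282 (k8 c4281 c1774 c5112 c681 c5215 c633 c5225 c4416 (k8 c234 c1614 c1782 c751 c4991 c4476 c857 c4481 (k8 c275 c498 c593 c831 c2936 c930 c4466 c1027 (k8 c1031 c5227 c4392 c4395 c4425 c2116 c4430 c1406 (k8 c3624 c1446 c4485 c721 c2628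 c948 c947 c5218 (k8 c4566 c1420 c1691 c5223 c889 c1080 c4330 c2126 k0)))))))) (by decide +kernel)
def c5229 : PP 8 4 T 0x501100002002000080100001000080010010000000180001000001000000100000000 := rS 0x15180e0dd705a3987d6f173a2587e5945ab54e2563a7cd86b0b94cfd433ea451abb86185fa5f069740023 (k8 c4372 c5084 c752 c4371 c488 c5206 c937 c4477 (k8 c4825 c4383 c4327 c1353 c4393 c4483 c4290 c4431 (k8 c492 c4479 c78 c4289 c1463 c2945 c5213 c721 (k8 c4993 c4287 c5207 c5222 c4359 c1165 c1193 c5209 (k4 c592 c595 c4989 c4466 (k2 c5208 c759 (k1 c4968 k0))))))) (by decide +kernel)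
def c5230 : PP 8 4 T 0x2000000084000000000000000020410000000001000000000000000004000 := rS 0x10a810c8449a0d2586c9e17 (k8 c4431 c4297 c4291 c4375 c4371 c4282 c4275 c2039 (k2 c2045 c685 (k1 c2108 k0))) (by decide +kernel)
def c5231 : PP 8 4 T 0x501100002002000080100001000080000000000000180001000001000000100000000 := rS 0x16750ea5d2889079f9066167ab54e2563d0d3e6c3585dfa533e9740023 (k8 c4372 c5084 c752 c1353 c4290 c5206 c4431 c492 (k8 c4479 c78 c4393 c4289 c1463 c2945 c5213 c1524 (k8 c937 c640 c4483 c1455 c5230 c5229 c103 c2727 (k2 c593 c567 (k1 c5123 k0))))) (by decide +kernel)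
def c5232 : PP 8 4 T 0x501100002002000080100001000080000000000000180001000001000000000000000 := rS 0x12ab8478dd6f14389bceab10315d2e5a1023618611c9246a471fb1c76fd2f834ba23361ac0017 (k8 c4431 c5084 c492 c4479 c4372 c752 c4371 c488 (k8 c5206 c4403 c4289 c4287 c4374 c4373 c4281 c4279 (k8 c937 c4477 c4383 c5231 c830 c2930 c2964 c831 (k8 c624 c593 c1019 c496 c4480 c4353 c4386 c4388 (k2 c2113 c858 (k1 c4964 k0)))))) (by decide +kernel)
def c5233 : PP 8 4 T 0x400000000000511000002002000080000001010004011010000000180005000001000000100000000 := rS 0x650ec03b82933198a0706e8d4787d6f173a2582a3f6394436d120a2cb459361ac0017 (k8 c4431 c5084 c492 c4479 c4993 c4476 c721 c4433 (k8 c4298 c4291 c4405 c4289 c4287 c4283 c5207 c5222 (k8 c4359 c1165 c1193 c931 c1198 c4989 c4466 c4486 (k8 c5037 c1031 c759 c4679 c4987 c1693 c309 c4687 k0)))) (by decide +kernel)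
def c5234 : PP 8 4 T 0x501100002002000080000001000080000000000000180001000001000000000000000 := rS 0x1811639c64ea064b88122b32d254af0d44981905915ab54e25639f4ba23a1a7cd86b0005dfa53 (k8 c4290 c5206 c4431 c5084 c492 c4479 c78 c4393 (k8 c4372 c752 c1353 c4289 c1463 c2945 c5213 c5228 (k8 c4993 c5232 c632 c2618 c4325 c2941 c2859 c4476 (k8 c665 c2943 c5233 c2930 c831 c593 c5015 c1022 (k2 c4481 c4972 (k1 c4420 k0)))))) (by decide +kernel)
def c5235 : PP 8 4 T 0x2000080000000000000000000000004000000400000002 := rS 0x4096 (k2 c1436 c5129 (k1 c2930 k0)) (by decide +kernel)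
def c5236 : PP 8 4 T 0x501100002002000080000000000080000000000000180000000001000000000000000 := rS 0x124955c45d1e378a2dce26f58aed1a910325cb50c10184ea0b649504e39248d48e3b2f83542ad538958e7d2ed0d3e6c3585dfa535a8007e23 (k8 c4372 c4287 c5084 c5235 c4290 c5206 c4431 c492 (k8 c4479 c78 c4393 c752 c1353 c4289 c1463 c2945 (k8 c5213 c132 c4371 c488 c4403 c4374 c4373 c4281 (k8 c4279 c4277 c5234 c1726 c306 c1686 c937 c5123 (k8 c4477 c830 c2930 c831 c886 c4383 c4825 c624 (k8 c1019 c496 c5109 c4480 c4386 c4388 c4963 c2113 (k2 c858 c4487 (k1 c1125 k0)))))))) (by decide +kernel)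
def c5237 : PP 8 4 T 0x4400100002002000080000044000000000150080040180011000000040000140000100 := rS 0x8cae0e8b34a828380714968ae00 (k8 c5084 c751 c4476 c4402 c495 c4466 c4462 c762 (k4 c2642 c4481 c595 c4968 (k1 c5208 k0))) (by decide +kernel)
def c5238 : PP 8 4 T 0x4500100002002000080100004000080004000000042180001000000000000040000100 := rS 0x4511c714a0192e2044aecde0f58a0e187e3097c1a8b67ab54e253e9753efd298dd6a3f11d0d8e8d2d15c0059 (k8 c4993 c5084 c751 c4476 c1468 c4289 c4393 c4372 (k8 c4287 c5235 c4989 c4290 c5206 c78 c752 c1353 (k8 c1463 c2945 c5213 c1524 c721 c4371 c488 c937 (k8 c4483 c4477 c640 c624 c1455 c1460 c4825 c5230 (k8 c5237 c2930 c831 c4487 c496 c858 c4480 c4388 k0))))) (by decide +kernel)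
def c5239 : PP 8 4 T 0x500100002002000080000000000080004000000002180001000002000000040000000 := rS 0x1943b00ef194cc50380a478840e963a2561ab344981905a2b9cc12150994436d10b904b28b56a9c4a7d2ea7dfa531bc5d6a001f88e86c748adc928d (k8 c1468 c4281 c1742 c939 c4289 c4393 c4372 c4287 (k8 c5084 c5235 c4416 c4989 c4290 c5206 c78 c752 (k8 c1353 c1463 c2945 c5213 c721 c4993 c4433 c4431 (k8 c4298 c4291 c4405 c4401 c4283 c234 c1614 c751 (k8 c4476 c5238 c632 c2618 c2615 c4325 c2859 c4481 (k8 c4487 c498 c2930 c931 c4462 c4466 c4486 c1031 (k4 c5037 c4679 c4987 c1693 (k2 c309 c4687 k0)))))))) (by decide +kernel)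
def c5240 : PP 8 4 T 0x80000000100000010000002000000000000002 := rS 0x15cb609 (k4 c235 c929 c751 c4476 k0) (by decide +kernel)
def c5241 : PP 8 4 T 0x100000000000000000000000000000004000000000080012000002000010020000002 := rS 0x2cb4733a2592b17 (k8 c4416 c762 c4487 c5240 c46 c592 c307 c759 k0) (by decide +kernel)
def c5242 : PP 8 4 T 0x501100002002000080000000000080000000000000180000000000000000000000000 := rS 0x11d1438a50de064b9cc400b0eac4fcc92a24c3eb78b8f0fb432483452fd2e88cb26c358002e2b (k8 c5228 c4431 c5084 c492 c4479 c4993 c4372 c752 (k8 c5206 c4402 c4371 c4281 c4393 c1353 c5236 c4416 (k8 c1742 c274 c1654 c5239 c1726 c4483 c675 c5241 (k8 c567 c4466 c1615 c2930 c831 c1460 c4487 c496 (k2 c4480 c858 (k1 c4388 k0)))))) (by decide +kernel)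
def c5243 : PP 8 4 T 0x20000000002000080000000000040000000000000000000000000000040000000000 := rS 0x4f89c9223238b58e29 (k8 c4402 c4289 c4285 c4374 c4372 c4281 c4277 c4384 (k1 c4200 k0)) (by decide +kernel)
def c5244 : PP 8 4 T 0x400000000000501100002002000080100000000000050000010002082001000001000000100000000 := rS 0x19c85442b41e83501f98efd (k8 c5206 c4289 c4483 c673 c2658 c1455 c2906 c5207 (k2 c2667 c5230 (k1 c1521 k0))) (by decide +kernel)
def c5245 : PP 8 4 T 0x8010000000002000080000005000000001400000000000000000001000000100000000 := rS 0xd919155c8e49235238fd8e3b (k8 c4403 c4289 c4287 c4374 c4373 c4281 c4279 c4361 (k4 c4963 c4486 c2113 c1384 k0)) (by decide +kernel)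
def c5246 : PP 8 4 T 0x400000000000501100002002000080000000000000050000000000180001000001000000100000000 := rS 0x40d1506ce54ab90aab45a7910a13e18cd86b0bb24c10d518adfa5f069740023 (k8 c4372 c5084 c752 c4371 c488 c5206 c5228 c5242 (k8 c5243 c4477 c633 c4431 c492 c4479 c42 c5244 (k8 c1624 c5224 c4489 c157 c1944 c2667 c681 c1510 (k4 c1780 c641 c4400 c1366 (k1 c4484 k0))))) (by decide +kernel)
def c5247 : PP 8 4 T 0x1401000002002000088100001000050000100050002400081000000000040000000000 := rS 0x2393c9153a9550854103822272483446470a8b58e131493e1b45 (k8 c4400 c5243 c4297 c4402 c4401 c4289 c4285 c4283 (k8 c4374 c4372 c4371 c4281 c4277 c4275 c2107 c5218 (k8 c1495 c641 c1936 c905 c2982 c4576 c4486 c1427 k0))) (by decide +kernel)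
def c5248 : PP 8 4 T 0x501100002002000080000001000000050000000000180001000001000000100000000 := rS 0xb14702922ad389f11b15670d996b750b35727fa1168ea571c9249a352392c7ec7298eca24f68964d86b0bb24c10d518adfa5f069740023 (k8 c4372 c5084 c752 c4371 c488 c5206 c5228 c5242 (k8 c5243 c4477 c633 c4431 c492 c4479 c4993 c4298 (k8 c4297 c4405 c4403 c4290 c4289 c4287 c4375 c4374 (k8 c4373 c4282 c4281 c4279 c920 c593 c4476 c5246 (k8 c4392 c4394 c4395 c4423 c4424 c4425 c2113 c2116 (k8 c4386 c1384 c5247 c1419 c5223 c889 c5123 c4486 (k2 c2605 c849 k0))))))) (by decide +kernel)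
def c5249 : PP 8 4 T 0x501000002002000000000000000000010010080002082001000001000000100000000 := rS 0x2b4eaa0 (k4 c673 c2576 c2906 c5222 k0) (by decide +kernel)
def c5250 : PP 8 4 T 0x501100002002000080000000000000010010000000180001000001000000100000000 := rS 0x11482a5a1d9c8565b341d423f9f422492691c96156394c265127b44d86b0bb24c10d518adfa5f069740023 (k8 c4372 c5084 c752 c4371 c488 c5206 c5228 c5242 (k8 c5243 c4477 c633 c4431 c492 c4479 c4298 c4297 (k8 c4405 c4401 c4290 c4289 c4283 c4375 c4374 c4282 (k8 c4281 c4275 c5224 c5249 c4483 c2107 c4395 c4425 (k4 c1495 c2116 c1637 c4430 (k2 c5218 c4485 (k1 c2628 k0))))))) (by decide +kernel)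
def c5251 : PP 8 4 T 0x501100002002000080000000000000010000000000180001000001000000100000000 := rS 0x127175a25d5c88361ac0017 (k8 c4431 c5084 c492 c4479 c5250 c681 c4631 c5248 (k2 c4419 c3718 (k1 c4487 k0))) (by decide +kernel)
def c5252 : PP 8 4 T 0x501100002002000080000000000000000000000000180001000001000000100000000 := rS 0x1675568752e94361ac0017 (k8 c4431 c5084 c492 c4479 c5251 c103 c2727 c2861 (k2 c593 c567 (k1 c5123 k0))) (by decide +kernel)
def c5253 : PP 8 4 T 0x8500000002002000080000000000040000000000002080000000000000040200000000 := rS 0x9f50a9d1c85584556afd86968de3538818000d (k8 c4371 c5084 c831 c496 c4373 c1019 c830 c5243 (k8 c5206 c4419 c4963 c4480 c2696 c625 c905 c2850 (k2 c1427 c5125 k0))) (by decide +kernel)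
def c5254 : PP 8 4 T 0x2002000000000000010000020000008000080010000000000040200000000 := rS 0x15eab18a69322d298a4a233688bcb400 (k8 c5084 c830 c4432 c4298 c4293 c4405 c4402 c4290 (k4 c4285 c1131 c705 c317 (k2 c1701 c2872 (k1 c2112 k0)))) (by decide +kernel)
def c5255 : PP 8 4 T 0x2000000080040000000020000005000002080000000000000000001000000 := rS 0x4083d067e548449a0d2586c9e17 (k8 c4431 c4297 c4291 c4375 c4371 c4282 c4275 c2984 (k4 c897 c641 c1455 c1462 (k1 c2108 k0))) (by decide +kernel)
def c5256 : PP 8 4 T 0x501100002002000080000000000000000000000000180001000001000000000000000 := rS 0x58a057a834633948a94f284328553a215c87a5aad84c15d90d7f18629ed5a9445aca2e71399bcee753ca440c974e96840271a8fd8e531d944664568904b26c3585cc10d518adfa5f069740023 (k8 c4372 c5084 c752 c4371 c488 c5206 c5228 c5242 (k8 c5243 c4477 c4431 c492 c4479 c4993 c4433 c4298 (k8 c4295 c4293 c4405 c4403 c4290 c4289 c4287 c4373 (k8 c4277 c5252 c830 c966 c2930 c831 c886 c601 (k8 c593 c1023 c1019 c1022 c496 c5253 c4481 c2705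 (k8 c665 c945 c5254 c1250 c4482 c4369 c4446 c4449 (k8 c4450 c2115 c1700 c4459 c1906 c4491 c4485 c2915 (k8 c2667 c2039 c5255 c5125 c1510 c1781 c1780 c1699 (k4 c641 c1939 c1366 c1115 (k1 c2122 k0)))))))))) (by decide +kernel)
def c5257 : PP 8 4 T 0x501100002002000080000000000000000000000000180000000001000000000000000 := rS 0xb140af5068c67291529e508650aa7442b90f4b55b0982bb21afe30c53da516473389bcee798ba440c9d2d0815a7505a2ca8271a8fd8e531d944664568904b26c3585cc10d518adfa5f069740023 (k8 c4372 c5084 c752 c4371 c488 c5206 c5228 c5242 (k8 c5243 c4477 c4431 c492 c4479 c4993 c4433 c4298 (k8 c4295 c4293 c4405 c4403 c4290 c4289 c4287 c4373 (k8 c4277 c5256 c1766 c306 c1686 c945 c5123 c830 (k8 c966 c831 c886 c5253 c601 c1023 c1019 c496 (k8 c1021 c4481 c665 c5254 c1250 c4482 c4369 c4446 (k8 c4449 c4450 c2115 c1700 c4459 c1906 c4491 c4151 (k8 c2915 c2667 c2038 c5255 c5125 c1510 c1781 c1780 (k4 c1699 c641 c1939 c1366 (k2 c1115 c2122 k0)))))))))) (by decide +kernel)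
def c5258 : PP 8 4 T 0x10000000000000000000000000000000500020200000004000000000000000000000 := rS 0x8aa45686e (k4 c1691 c1690 c1075 c4389 (k1 c4486 k0)) (by decide +kernel)
def c5259 : PP 8 4 T 0x4010100000002000080100000000000000000000040002085000000000000020000000 := rS 0x2462a6e1b038fa7f3a2cc149546a3c22490688c6a470ab1c2629 (k8 c4402 c4401 c4289 c4283 c4374 c4373 c4372 c4371 (k8 c4281 c4275 c760 c1027 c762 c759 c665 c4481 (k8 c2576 c5258 c2107 c304 c305 c4386 c1075 c4486 k0))) (by decide +kernel)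
def c5260 : PP 8 4 T 0x501100002002000080000000000040000000000002080001000002000040000000000 := rS 0x1628141af518ce52279421942a9d0e88572ac62c15d90d7f18459ed5ab24a1c4ea6f3b9e5229703080161d2d15ce609138d45ac72984c7641319ac2e59649821afd2f834ba0011c5c3e93 (k8 c1654 c274 c4416 c4372 c5084 c752 c4371 c488 (k8 c5206 c5243 c4477 c633 c4993 c4431 c492 c42 (k8 c4433 c4403 c4401 c4290 c4289 c4285 c4373 c4277 (k8 c234 c1614 c751 c4476 c5259 c567 c4466 c4462 (k8 c2930 c886 c2452 c1023 c1019 c498 c496 c4487 (k8 c4481 c2861 c5254 c2705 c4482 c4369 c4446 c4449 (k8 c4450 c316 c1700 c4542 c985 c1632 c2915 c2667 (k8 c2039 c5255 c5125 c1781 c1780 c1699 c1939 c1936 (k2 c1366 c1115 (k1 c2122 k0)))))))))) (by decide +kernel)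
def c5261 : PP 8 4 T 0x501100002002000080000000000000000000000000180000000000000000000000000 := rS 0x1628141af518ce52279421942a9d0e88572ac62c15d90d7f183d9c4de774a1e522064ba7440ad0ea2ca8930fc5c786086a8c56593609c6a2d6394c523b19b4482fd3197c1a5d119ac0017 (k8 c4431 c5084 c492 c4372 c752 c4371 c488 c42 (k8 c5206 c4433 c4298 c4293 c4403 c4402 c4290 c4289 (k8 c4285 c4373 c4277 c4479 c4993 c5228 c5242 c5243 (k8 c4477 c5257 c4416 c274 c1654 c5260 c1766 c5241 (k8 c945 c4466 c966 c2930 c831 c886 c601 c4487 (k8 c1023 c1019 c496 c5254 c4482 c4369 c4446 c4449 (k8 c4450 c316 c1700 c4542 c985 c1632 c2915 c2667 (k8 c2038 c5255 c5125 c1781 c1780 c1699 c1939 c1936 (k2 c1366 c1115 (k1 c2122 k0)))))))))) (by decide +kernel)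
def c5262 : PP 8 4 T 0x400000000000020101000000000080000000020100000001010000080000040000005401000000000 := rS 0x19c7e543254e6113934464b (k8 c4375 c4372 c4282 c4277 c4325 c4330 c632 c2111 (k2 c4483 c949 (k1 c1521 k0))) (by decide +kernel)
def c5263 : PP 8 4 T 0x100002002000080000000020080000021000000080000000000000000000000000 := rS 0x196a63f9821aa53e89686a14fb1c664f17bf4be0d2e88d566b0005c6253 (k8 c4290 c2046 c4431 c5084 c492 c1944 c4372 c752 (k8 c4371 c488 c5206 c4432 c4297 c4293 c4289 c78 (k8 c132 c4393 c1463 c1353 c1470 c5262 c4477 c673 (k2 c5211 c2025 (k1 c941 k0))))) (by decide +kernel)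
def c5264 : PP 8 4 T 0x20000002000000080000000001000000000000000000000000000001000000000000 := rS 0x14a255389c9a23258cc9e2f (k8 c4432 c4297 c4293 c4375 c4372 c4282 c4277 c4330 (k2 c4381 c4385 (k1 c2111 k0))) (by decide +kernel)
def c5265 : PP 8 4 T 0x8010000000002000080000000000008000000020000080004000001000000100000000 := rS 0x1205a38a3cb2b559adc7639 (k8 c4279 c4403 c5142 c4357 c4419 c656 c1427 c1419 (k2 c4476 c5245 (k1 c889 k0))) (by decide +kernel)
def c5266 : PP 8 4 T 0x4000100000002000080000014000000010000000110000080000001000000100000400 := rS 0xb51b9c810b3038e49235238fd8e3b (k8 c4403 c4289 c4287 c4374 c4373 c4281 c4279 c495 (k4 c665 c4462 c4481 c233 (k2 c1619 c2113 k0))) (by decide +kernel)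
def c5267 : PP 8 4 T 0x400000000000110101000002000080000000000050050000000000080000000001000000100000000 := rS 0x1bad51e5b3887816910ea4a2eb95b9f13c39248d48e3f638ed92602e88cfe5f00034ae75 (k8 c593 c920 c4371 c5084 c488 c5121 c4372 c752 (k8 c4477 c633 c4403 c4289 c4287 c4374 c4373 c4281 (k8 c4279 c4489 c4483 c5142 c1396 c5265 c4487 c1029 (k8 c1157 c567 c4466 c585 c5266 c848 c1659 c273 (k1 c2113 k0))))) (by decide +kernel)
def c5268 : PP 8 4 T 0x8400000002002000088000014020001000000000000082004000001000000100000000 := rS 0x9059c43a9103a68b4bb1b264b3195ab0d6639248d48e3f638ec5e00 (k8 c5084 c4432 c4403 c4289 c4287 c4374 c4373 c4281 (k8 c4279 c4357 c4362 c4419 c4982 c656 c2050 c2113 (k8 c1445 c4476 c4488 c495 c893 c764 c585 c567 (k2 c233 c4462 k0)))) (by decide +kernel)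
def c5269 : PP 8 4 T 0x500100002002000080000000020050050000000000080000000001000000100000000 := rS 0xdd6a8f2d9c43c0b488752517672dd9ab9a1274ea571c9249a352392c7ec71d9449ed1659821aa91894dfa5f069740023 (k8 c4372 c5084 c752 c4371 c488 c5206 c4290 c2046 (k8 c948 c5264 c4477 c2027 c4298 c4297 c4405 c4403 (k8 c4289 c4287 c4375 c4374 c4373 c4282 c4281 c4279 (k8 c920 c593 c946 c5267 c4394 c4395 c4424 c2116 (k8 c5268 c4487 c1029 c1157 c567 c4466 c585 c5266 (k4 c848 c1659 c273 c2113 k0)))))) (by decide +kernel)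
def c5270 : PP 8 4 T 0x10100000002000080100000000000080000000000002081000000000000020000000 := rS 0x1c8af17 (k4 c4359 c38 c5259 c1083 k0) (by decide +kernel)
def c5271 : PP 8 4 T 0x500100002002000080000000020050010000000000080001000001000000100000000 := rS 0x2e06eb5391b8ac750596c38595b87d2c7f1c9246a471fb1c7665649821aa91894dfa5f069740023 (k8 c4372 c5084 c752 c4371 c488 c5206 c4290 c2046 (k8 c948 c5264 c4477 c633 c68 c4403 c4289 c4287 (k8 c4374 c4373 c4281 c4279 c5121 c5269 c1193 c1166 (k8 c1196 c4466 c5270 c566 c592 c4476 c881 c921 (k4 c1348 c1344 c2113 c1086 k0))))) (by decide +kernel)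
def c5272 : PP 8 4 T 0x2000000080440000040020000020000000080001000000000000000000000 := rS 0x1060f679f4fc63 (k4 c42 c897 c1624 c1794 (k2 c1455 c677 (k1 c5230 k0))) (by decide +kernel)
def c5273 : PP 8 4 T 0x500100002002000080000000020050000000000000080001000001000000100000000 := rS 0x90581d641d2d2507e00 (k8 c5084 c4287 c5271 c856 c2727 c857 c495 c567 (k2 c1185 c4462 k0)) (by decide +kernel)
def c5274 : PP 8 4 T 0x8000001000002000080000000000050000000000014000080000000000040040000000 := rS 0x254fa3961155a89c9223238b58e29 (k8 c4402 c4289 c4285 c4374 c4372 c4281 c4277 c4419 (k4 c4963 c4480 c625 c1427 (k2 c1424 c2110 k0))) (by decide +kernel)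
def c5275 : PP 8 4 T 0x1000002000080000004000054000000000014000080000000000040200000000 := rS 0x1141b2c4488f13924464716b1c521f (k8 c57 c4402 c4289 c4285 c4374 c4372 c4281 c4277 (k4 c5093 c2110 c625 c312 (k2 c4480 c4386 k0))) (by decide +kernel)
def c5276 : PP 8 4 T 0x500100002002000080000000040000000045000000080001000001000000001000000 := rS 0xb18aa31689e5ba516517389ccde752c8ac0c972d07c407f50c3596a9518c558aba5a206a156394c26510db45fa5f069ac0017 (k8 c4431 c5084 c492 c4371 c488 c5206 c4298 c4291 (k8 c4405 c4401 c4290 c4289 c4283 c4373 c2109 c4457 (k8 c1944 c4491 c2046 c5263 c948 c2027 c5264 c5272 (k8 c5121 c5273 c57 c830 c2930 c831 c314 c487 (k8 c593 c1019 c1022 c496 c5274 c4481 c665 c1164 (k4 c5275 c1698 c1699 c4389 (k2 c1115 c4480 k0))))))) (by decide +kernel)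
def c5277 : PP 8 4 T 0x500100002002000080100000040080000001100000080000000000000000001000000 := rS 0x15aaba5a21040f3f1f686112683496c70d93dfa5d119ac0017 (k8 c4431 c5084 c492 c4372 c752 c5206 c4297 c4291 (k8 c4289 c4375 c4371 c4282 c4275 c4393 c1353 c4483 (k4 c1455 c2108 c676 c4457 (k2 c1944 c5263 (k1 c4491 k0))))) (by decide +kernel)
def c5278 : PP 8 4 T 0x2000002000000080040000000000000010080000000000000000000000000000000 := rS 0x4183c224d0692c364f0ba143281 (k8 c4439 c4436 c4321 c4431 c4297 c4291 c4375 c4371 (k4 c4282 c4275 c1455 c676 (k1 c2108 k0))) (by decide +kernel)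
def c5279 : PP 8 4 T 0x101000000000000100008100000000000040000000000000000000000000000000 := rS 0xfb43 (k2 c4424 c1627 (k1 c4483 k0)) (by decide +kernel)
def c5280 : PP 8 4 T 0x100000000000000000020400000000000040100000000000000000000000000000 := rS 0xe717 (k2 c4361 c1086 (k1 c4481 k0)) (by decide +kernel)
def c5281 : PP 8 4 T 0x120101000002000080100000000000010000040100000080000001000000100000400 := rS 0x938bad172b71b879661d4bac472491a91c7ec71d9844a9f (k8 c4384 c4381 c4325 c4403 c4289 c4287 c4374 c4373 (k8 c4281 c4279 c624 c929 c759 c665 c4466 c272 (k4 c5279 c5280 c2113 c4419 (k2 c1658 c4487 k0)))) (by decide +kernel)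
def c5282 : PP 8 4 T 0x8000000000000000000000000000000000000000000080040000000000000000000000 := rS 0x2b9652eb3 (k4 c4357 c4359 c656 c920 (k1 c4476 k0)) (by decide +kernel)
def c5283 : PP 8 4 T 0x100000000002000080000001000040050000040000080040000001000001000000000 := rS 0x375b87964b92c248ae39248d48e3f638ec0117 (k8 c5282 c5084 c4403 c4289 c4287 c4374 c4373 c4281 (k8 c4279 c920 c4487 c4476 c1126 c656 c487 c1164 (k2 c272 c2113 k0))) (by decide +kernel)
def c5284 : PP 8 4 T 0x2002000000000000010000080014000000080040000001000000001000000 := rS 0xc16190ce4082b314b23f298eca24568904ca00 (k8 c5084 c68 c4433 c4298 c4295 c4405 c4403 c4290 (k8 c4287 c1196 c1253 c4476 c751 c921 c236 c1088 (k2 c1620 c2115 k0))) (by decide +kernel)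
def c5285 : PP 8 4 T 0x120100002002000080100000010040010014040100080000000001000000101000400 := rS 0x5a2492f172da7c4afd (k8 c5206 c4381 c4384 c5281 c5282 c5284 c4487 c5283 (k1 c1658 k0)) (by decide +kernel)
def c5286 : PP 8 4 T 0x500000000000000008000000051000000000000000000000000000000000000000000 := rS 0x1574b (k2 c4430 c1677 (k1 c4491 k0)) (by decide +kernel)
def c5287 : PP 8 4 T 0x800000000000000000002002000084000000000000000000000000000000000000000000000000000 := rS 0x32d9a492691c96c7299449ed1 (k8 c4298 c4297 c4405 c4290 c4289 c4375 c4374 c4282 (k4 c4281 c4395 c4425 c2116 k0)) (by decide +kernel)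
def c5288 : PP 8 4 T 0x502100002002000080000000010000010010000000080000000001000000100000000 := rS 0x5b4b50d9ea9302861a7f63bf4be0d2e800460b3aa8d925443a2c92af36a043285 (k8 c4321 c4436 c4439 c4317 c984 c4281 c4322 c4440 (k8 c5276 c1726 c5277 c1686 c306 c4372 c5084 c752 (k8 c4371 c488 c5206 c4289 c5278 c5285 c897 c4477 (k4 c976 c5286 c5287 c5267 (k2 c929 c5284 k0))))) (by decide +kernel)
def c5289 : PP 8 4 T 0x500000000000000000000000050000000020000000400000000000000000000000000 := rS 0x1574b (k2 c4457 c1944 (k1 c4491 k0)) (by decide +kernel)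
def c5290 : PP 8 4 T 0x20000000000080000000004000000100000400 := rS 0x481d645a (k4 c856 c857 c495 c1185 (k1 c4462 k0)) (by decide +kernel)
def c5291 : PP 8 4 T 0x502100002002000080000000000000000010000000080000000001000000100000000 := rS 0x2e56a3739020dc712b180b6595bc352ca918a85587f1c8d48ec7298edfa652f834ba00119d546c924a052a0b2a2bcda870ca2d0a3f (k8 c4287 c4321 c4322 c4436 c4440 c4317 c984 c5276 (k8 c306 c5290 c4439 c4281 c1726 c5277 c1686 c4372 (k8 c5084 c752 c4371 c488 c68 c5206 c4403 c4290 (k8 c4289 c4374 c4373 c4279 c5278 c5288 c897 c2046 (k8 c948 c5269 c5264 c1166 c1196 c929 c4477 c4476 (k8 c584 c881 c751 c921 c233 c1348 c1086 c2113 k0)))))) (by decide +kernel)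
def c5292 : PP 8 4 T 0x2000002000000080440000000000000000080000000000000000000000000000000 := rS 0x4183c224d0692c364f0ba143281 (k8 c4439 c4436 c4321 c4431 c4297 c4291 c4375 c4371 (k4 c4282 c4275 c1455 c677 (k1 c2108 k0))) (by decide +kernel)
def c5293 : PP 8 4 T 0x502100002002000080000000000000000000000000080000000001000000100000000 := rS 0x2e56a3739020dc712b16cb2b74b284fe6086b2d5231562212a391a91c7ec7298edfa652f834ba23358002e0b3aa8d925443a2c92af36a043285 (k8 c4321 c4436 c4439 c4317 c984 c4281 c4322 c4440 (k8 c5276 c1726 c5277 c1686 c306 c4431 c5084 c492 (k8 c4372 c752 c4371 c488 c68 c5206 c4403 c4290 (k8 c4289 c4287 c4374 c4373 c4279 c5290 c5291 c5289 (k8 c2046 c948 c2027 c5264 c4477 c5292 c897 c5269 (k8 c1166 c1196 c929 c4476 c584 c881 c751 c921 (k4 c233 c1348 c1086 c2113 k0))))))) (by decide +kernel)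
def c5294 : PP 8 4 T 0x101000002000080000000000040011000000154000090000000000040040000000 := rS 0x1608c504562cb3 (k4 c665 c4481 c4963 c5274 (k2 c4551 c4480 (k1 c1115 k0))) (by decide +kernel)
def c5295 : PP 8 4 T 0x1000000000000000000000008020000000014000010000000000000000000000 := rS 0x58c5518b4 (k4 c1698 c1699 c4389 c1115 (k1 c4480 k0)) (by decide +kernel)
def c5296 : PP 8 4 T 0x1000002000080000000800044000000040000080000000000000040200000000 := rS 0xb750968de3538818000d (k8 c4371 c5084 c831 c496 c4373 c1019 c830 c897 (k2 c1164 c5275 k0)) (by decide +kernel)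
def c5297 : PP 8 4 T 0x502100002002000080000000000000000000000000080000000001000000000000000 := rS 0x158ca441f93eb24a1cce26f2c8ad22062d07c40a33ab24a827248346ac71dbf4d6000ba15161940a1d5e6d (k8 c4317 c984 c4440 c4439 c4436 c4322 c4321 c4431 (k8 c5084 c492 c5206 c4403 c4289 c4373 c4371 c4281 (k8 c4277 c5276 c1726 c1686 c5277 c5293 c57 c830 (k8 c831 c886 c314 c487 c1019 c496 c1021 c5294 (k4 c857 c5295 c5296 c5278 (k2 c5292 c5289 (k1 c2027 k0))))))) (by decide +kernel)
def c5298 : PP 8 4 T 0x500000002002000000000000000000010044000001080000000002000000101000000 := rS 0x230784ea20b4554ca6ce81c4b07c2a53098a4a21b6885c5e410045cb293 (k8 c1655 c657 c4416 c5084 c4433 c4432 c4431 c4298 (k8 c4291 c4405 c4402 c4401 c4290 c4283 c275 c4487 (k8 c4466 c5240 c764 c1031 c5241 c592 c2109 c968 (k2 c596 c4488 (k1 c4447 k0))))) (by decide +kernel)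
def c5299 : PP 8 4 T 0x500000002002000000000000000000000044000001080000000002000000101000000 := rS 0xa0ea507e00 (k4 c5084 c4287 c5298 c2727 (k2 c5290 c567 k0)) (by decide +kernel)
def c5300 : PP 8 4 T 0x500100002002000080000000000000000000000000180000000000000000000000000 := rS 0xac65220fc9f51a5056c9591cce26f3a96412064b9683e208b8f15e8740865168536c20d600018346a2d638ec2efd (k8 c5206 c4431 c4403 c4289 c4285 c4373 c4371 c918 (k8 c5084 c492 c5261 c4317 c4321 c4322 c4436 c4439 (k8 c4440 c984 c5297 c4416 c5299 c57 c830 c2930 (k8 c831 c230 c487 c593 c1019 c496 c1021 c4481 (k8 c2615 c4991 c665 c5277 c5295 c5296 c5278 c5292 (k2 c5289 c2027 k0)))))) (by decide +kernel)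
def c5301 : PP 8 4 T 0x100100002002000000000000000000010000000000840080000000000000100000000 := rS 0x892aa1cc88b01864c61d0a94c26510db442e01 (k8 c5056 c4431 c4298 c4291 c4405 c4401 c4290 c4283 (k8 c758 c842 c5066 c838 c2561 c4478 c1925 c1647 (k2 c2558 c2109 k0))) (by decide +kernel)
def c5302 : PP 8 4 T 0x2000000080040000000080000008010000900000000000000000001000000 := rS 0x7a15027e2fb350662328449a0d2586c9e17 (k8 c4431 c4297 c4291 c4375 c4371 c4282 c4275 c1653 (k8 c1925 c2005 c3837 c1466 c819 c1461 c562 c1455 (k1 c2108 k0))) (by decide +kernel)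
def c5303 : PP 8 4 T 0x100000000002000080000000000000051100000000000810000000000000100000008 := rS 0x8ba4e281c4787c770d (k8 c4382 c4403 c223 c1426 c4466 c4486 c1029 c4963 (k1 c4487 k0)) (by decide +kernel)
def c5304 : PP 8 4 T 0x101100002002000080000000010080050002000100900000000001000000100000419 := rS 0x3d9e53a770e9611ab948c65661b369bcc85e (k8 c562 c1466 c3439 c5028 c4291 c553 c5015 c938 (k8 c4548 c1467 c5303 c1026 c1112 c4731 c2505 c561 (k1 c4482 k0))) (by decide +kernel)
def c5305 : PP 8 4 T 0x101100002002000080000000000080010010000000940002000001000000101000000 := rS 0x1f39c5d2c0202990c65e2ea11060f409f99a7505b269411249341a4b1f86c9ed10bbf402ada1a1cfac7 (k8 c4289 c1354 c5302 c4393 c2048 c5056 c5206 c4431 (k8 c4298 c4297 c4291 c4287 c4375 c4371 c4282 c4281 (k8 c4275 c4151 c1726 c306 c1686 c4460 c4483 c1461 (k8 c1455 c676 c2108 c1498 c562 c818 c1466 c267 (k4 c1647 c5304 c4359 c1084 (k2 c1193 c5159 k0)))))) (by decide +kernel)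
def c5306 : PP 8 4 T 0x501100002002000080000000000080010010000000100000000001000000101000000 := rS 0x42a068a5f5420cfeaba5a28aa87679f42ac72984ca21b6885dfaad351b40267 (k8 c5300 c5056 c5028 c4479 c2048 c5206 c4431 c4298 (k8 c4291 c4405 c4401 c4290 c4289 c4283 c1354 c1524 (k8 c5302 c5305 c2109 c4427 c1673 c2537 c645 c4526 (k4 c1465 c4398 c1362 c562 (k1 c4484 k0))))) (by decide +kernel)
def c5307 : PP 8 4 T 0x100000002002000080000000000040000012000001840001000000000000001000000 := rS 0x15c865022d3f433f1f61ac92f2a01e11248348e156394c26510d93da217 (k8 c4431 c4298 c4297 c4291 c4405 c4401 c4290 c4289 (k8 c4283 c4374 c4371 c4281 c4275 c1495 c563 c562 (k8 c2534 c4382 c3480 c2107 c4392 c1394 c2537 c4489 (k2 c2109 c980 (k1 c1633 k0))))) (by decide +kernel)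
def c5308 : PP 8 4 T 0x2000000080040000000040000011080000800000000000000000001000000 := rS 0x205060f2e8449a0d2586c9e17 (k8 c4431 c4297 c4291 c4375 c4371 c4282 c4275 c1457 (k4 c1455 c676 c1923 c2108 k0)) (by decide +kernel)
def c5309 : PP 8 4 T 0x1100002002000080100000000000000080050000000001000000000000000000000 := rS 0x67d0906fd (k4 c5206 c644 c4483 c5218 (k1 c5287 k0)) (by decide +kernel)
def c5310 : PP 8 4 T 0x10001000000000000000000000000000000000001000800010000010000000100000008 := rS 0x993b070f61f (k4 c223 c560 c4466 c4482 (k2 c1031 c1920 k0)) (by decide +kernel)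
def c5311 : PP 8 4 T 0x10001000002000000000000000000000000080000100900000000000000000100000019 := rS 0xf49d3b874b0790d904da0b (k8 c302 c5028 c4433 c4291 c604 c5310 c1026 c1112 (k2 c4731 c4632 (k1 c561 k0))) (by decide +kernel)
def c5312 : PP 8 4 T 0x501100002002000080000000010040010081040000100001000001000000101000000 := rS 0x24e2e74028081c83409799e5d5027e86c886c64fa2b4bab8c66155992961126834961b27b442e5b351b40267 (k8 c5300 c5056 c5028 c4479 c5301 c4431 c4298 c4297 (k8 c4291 c4375 c4371 c4282 c4275 c4427 c564 c1673 (k8 c2604 c1769 c565 c4785 c1774 c3715 c5015 c5243 (k8 c5309 c4422 c1665 c4489 c810 c3739 c1737 c1923 (k8 c645 c2108 c1376 c265 c5311 c4417 c1657 c4487 k0))))) (by decide +kernel)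
def c5313 : PP 8 4 T 0x501100002002000080000000000000010010000000100001000001000000101000000 := rS 0x1429f3e43594c915d0d4ecd312a8cacf4322cfe85249348e4b0ab1ca6132886c9ed10bbf55a6a36804cea3 (k8 c5306 c5300 c5056 c5028 c4479 c2048 c5206 c4431 (k8 c4298 c4297 c4291 c4405 c4401 c4290 c4289 c4283 (k8 c4375 c4374 c4282 c4281 c5307 c5308 c5312 c2109 (k8 c1637 c1653 c1924 c1925 c3837 c3912 c5287 c4904 (k4 c3657 c2116 c5243 c4483 (k2 c1669 c3567 (k1 c4489 k0))))))) (by decide +kernel)
def c5314 : PP 8 4 T 0x81000000000000510000002002000080000000002540000000000000000000000000000000000000000 := rS 0x9fa1a859eaf (k4 c4428 c4430 c980 c5287 (k2 c4168 c4489 k0)) (by decide +kernel)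
def c5315 : PP 8 4 T 0x501100002002000080000000000040000052000001800000000000000000000000000 := rS 0xa1a7d42cf312bd0d4b3ec354e5e542968a83 (k8 c128 c4397 c1402 c563 c562 c2008 c4382 c3480 (k8 c5314 c4485 c1633 c1925 c1636 c980 c1610 c5287 (k1 c4489 k0))) (by decide +kernel)
def c5316 : PP 8 4 T 0x1100002002000080000000000000000014040000000002000000000000000000000 := rS 0x7c6550d9acfa51348e4b6394ca24f68bf59249 (k8 c4281 c1726 c5206 c4298 c4297 c4405 c4290 c4289 (k8 c4375 c4374 c4282 c4151 c4430 c4460 c5287 c2116 (k2 c4483 c1628 k0))) (by decide +kernel)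
def c5317 : PP 8 4 T 0x100000002002000000014000000000050000000000008010000001000000000000420 := rS 0x43608222c07498fca63b28915a241 (k8 c4433 c4298 c4295 c4405 c4403 c4290 c4287 c1609 (k4 c526 c4487 c4462 c4420 (k2 c2189 c2115 k0))) (by decide +kernel)
def c5318 : PP 8 4 T 0x100000002002000000014000000054051100020000008000000001000000400000425 := rS 0x5aade2c7349870b03b (k8 c4403 c5317 c4726 c1029 c3008 c4487 c1626 c4419 (k1 c5153 k0)) (by decide +kernel)
def c5319 : PP 8 4 T 0x501100002002000080000000000000010010000000100000000001000000101000000 := rS 0xee794cac8ac734b00c082a46a4618a14f9f18acaa1a9d9ac3312a8cacf57a18fe8505a2d9254519249a232392d8e532893da2fd351b40267 (k8 c5300 c5056 c5028 c4479 c5206 c4298 c4297 c4405 (k8 c4290 c4289 c4375 c4374 c4372 c4282 c4281 c5306 (k8 c5313 c1726 c1766 c306 c5315 c5308 c5316 c1633 (k8 c1637 c1653 c1924 c1925 c3836 c3837 c3912 c5287 (k8 c2116 c3556 c4483 c1669 c3567 c4489 c4327 c4383 (k8 c5243 c4191 c227 c5318 c1084 c816 c817 c1199 (k2 c1965 c1191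 (k1 c5054 k0)))))))) (by decide +kernel)
def c5320 : PP 8 4 T 0x101100002002000080000000010080050002000000900040000001000000100000019 := rS 0x49c5ce80b (k4 c302 c5304 c4417 c1657 (k1 c4487 k0)) (by decide +kernel)
def c5321 : PP 8 4 T 0x101100002002000080000000010080010002000000940000000001000000100000018 := rS 0x1d566062c8703e738ba58c85e1f84c025b (k8 c5301 c5056 c4401 c4287 c562 c1466 c5320 c4359 (k8 c1084 c1193 c4466 c1026 c791 c552 c498 c4481 k0)) (by decide +kernel)
def c5322 : PP 8 4 T 0x1000002002000085000000000000000005400000000001000000000000000000000 := rS 0x288ca40844924d2392d8e532893da2fd (k8 c5206 c4298 c4297 c4405 c4290 c4289 c4375 c4374 (k4 c4282 c4281 c4275 c4196 (k2 c2116 c4484 (k1 c4455 k0)))) (by decide +kernel)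
def c5323 : PP 8 4 T 0x1001000000000000000000002000000001400001000000000000000000000000000 := rS 0x10345 (k2 c4398 c1362 (k1 c4484 k0)) (by decide +kernel)
def c5324 : PP 8 4 T 0x1100002002000084000000000000000055400000000001000000000000000000000 := rS 0x294cc (k2 c5322 c4485 (k1 c4460 k0)) (by decide +kernel)
def c5325 : PP 8 4 T 0x101100002002000080000000000080010010400000940001000001000000100000018 := rS 0x14540b28fccd3121916af54a159e492691c96c7299449ed17e9b402ad (k8 c2048 c5056 c5028 c5206 c4298 c4297 c4405 c4290 (k8 c4289 c4375 c4374 c4282 c4281 c1524 c5321 c5323 (k8 c988 c565 c5324 c1925 c3837 c819 c2116 c1461 (k2 c4455 c4484 k0)))) (by decide +kernel)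
def c5326 : PP 8 4 T 0x501100002002000080000000000040000012000001800001000000000000000000000 := rS 0xfc7d453241e81089241a470ab1c264f (k8 c4297 c4401 c4289 c4283 c4374 c4371 c4281 c4275 (k4 c51 c1495 c2534 c5315 (k2 c1773 c2107 (k1 c2537 k0)))) (by decide +kernel)
def c5327 : PP 8 4 T 0x1100002002000080000000000000000055400000000001000000000000000000000 := rS 0x294ce (k2 c5324 c4485 (k1 c4430 k0)) (by decide +kernel)
def c5328 : PP 8 4 T 0x501000002002000000000000010000010080000000100040000001000000100000019 := rS 0x938b9d2329755d2cd46d (k8 c5028 c4479 c4427 c1673 c4785 c5015 c5311 c4417 (k2 c1657 c4487 k0)) (by decide +kernel)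
def c5329 : PP 8 4 T 0x501100002002000080000000000000010010000000100001000001000000100000000 := rS 0x40d1594c96698954cf4321546492392d8e532893da2fd419351602028615a5b351b40267 (k8 c5300 c5056 c5028 c4479 c5301 c2048 c5319 c269 (k8 c1919 c5328 c4282 c1998 c5206 c4298 c4297 c4405 (k8 c4290 c4289 c4375 c4374 c4281 c5325 c5326 c5327 (k8 c1637 c1924 c1925 c3837 c3657 c2116 c4455 c1901 (k1 c4484 k0))))) (by decide +kernel)
def c5330 : PP 8 4 T 0x1000002002000084000000000000000015480000000002000000000000000000000 := rS 0x32a88cd40d28924d2392d8e532893da2fd (k8 c5206 c4298 c4297 c4405 c4290 c4289 c4375 c4374 (k8 c4282 c4281 c4151 c1462 c4460 c4484 c2116 c4455 k0)) (by decide +kernel)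
def c5331 : PP 8 4 T 0x101100002002000080000000000080010010400000940002000001000000100000018 := rS 0x28a81653350c7e42b3cfb432691c96c7299449ed17eab59249 (k8 c4281 c1726 c2048 c5206 c4298 c4297 c4405 c4290 (k8 c4289 c4375 c4374 c4282 c4393 c1354 c1524 c5321 (k4 c4483 c5330 c3837 c2116 (k2 c1461 c4455 (k1 c4484 k0))))) (by decide +kernel)
def c5332 : PP 8 4 T 0x1100002002000080000000000000000015400000000002000000000000000000000 := rS 0x679fa94d1 (k4 c4298 c4151 c5316 c4430 (k1 c5330 k0)) (by decide +kernel)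
def c5333 : PP 8 4 T 0x501100002002000080000000000000010010000000100000000001000000100000000 := rS 0x2068aca66b3d0c8551b24a88b010150618569249a4725b1ca65127b45fa5b351b40267 (k8 c5300 c5056 c5028 c4479 c5301 c5206 c4298 c4297 (k8 c4405 c4290 c4289 c4375 c4374 c4282 c4281 c2048 (k8 c5319 c1998 c269 c1919 c5328 c5329 c1726 c5331 (k8 c5315 c5332 c1637 c3837 c2116 c4455 c1901 c4484 k0)))) (by decide +kernel)
def c5334 : PP 8 4 T 0x100100000000000000000000000080000022000000140000000000000000000000000 := rS 0x18cca5d (k4 c1498 c2527 c818 c4478 k0) (by decide +kernel)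
def c5335 : PP 8 4 T 0x500000000000000000000000010080000020800000040000000000000000000000000 := rS 0x33192ae3152d56a1 (k8 c132 c1945 c4457 c4794 c4491 c1728 c989 c2065 k0) (by decide +kernel)
def c5336 : PP 8 4 T 0x500101000000000080000000000080000020800000840000440000004401000000000 := rS 0x19ea86429cfecb320c558272688c968ba19f54aab (k8 c1945 c1470 c1354 c4393 c157 c4375 c4372 c4282 (k8 c4277 c5335 c2046 c2049 c3930 c2524 c941 c4483 (k2 c2111 c1792 (k1 c949 k0)))) (by decide +kernel)
def c5337 : PP 8 4 T 0x500100002002000080000000000080000020000000900000000000000000000000000 := rS 0x1c7e41a15027d12d0c224d0692d8e1b1993c2e2f7e99c3253 (k8 c4290 c2038 c5300 c5206 c4432 c4431 c4297 c4293 (k8 c4291 c4289 c4375 c4371 c4282 c4275 c4393 c1463 (k4 c1354 c2045 c5334 c5336 (k2 c4529 c2108 (k1 c1455 k0))))) (by decide +kernel)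
def c5338 : PP 8 4 T 0x100000000000000000000000004040000022000000800000000000000000000000000 := rS 0x2870d4fa854e7e2f2a19c83 (k8 c128 c685 c563 c562 c684 c2008 c1795 c1510 (k2 c4382 c4392 (k1 c4489 k0))) (by decide +kernel)
def c5339 : PP 8 4 T 0x2000000080040000000000000005480000000000000000000000001000000 := rS 0x81078449a0d2586c9e17 (k8 c4431 c4297 c4291 c4375 c4371 c4282 c4275 c1455 (k2 c1462 c2108 k0)) (by decide +kernel)
def c5340 : PP 8 4 T 0x1000002002000080000000000000000021500000000000000000000000000000000 := rS 0x1f1994367d10924d2392ca24f68bf5967f0c94d0ec7 (k8 c4289 c52 c4290 c2038 c5339 c2024 c5206 c4298 (k8 c4297 c4405 c4375 c4374 c4282 c4281 c4484 c4400 (k4 c5287 c2116 c4529 c1357 k0))) (by decide +kernel)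
def c5341 : PP 8 4 T 0x101000002002000080000000000040000021400000800000000000000000000000000 := rS 0xa1a7e1aa16633d5aa42e201928b (k8 c157 c636 c5340 c1923 c1922 c3959 c1366 c2044 (k4 c811 c4385 c1398 c5287 (k1 c4489 k0))) (by decide +kernel)
def c5342 : PP 8 4 T 0x40000000000000500100000002000080000000004040000001880000840001000000004000000000000 := rS 0x532b856ad52b3cca9f2e9849223238b58e29 (k8 c4402 c4289 c4285 c4374 c4372 c4281 c672 c1457 (k8 c1394 c555 c1521 c1937 c2049 c4904 c4491 c4582 (k1 c909 k0))) (by decide +kernel)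
def c5343 : PP 8 4 T 0x1000000000000500100000002000080200000011440000020100000040001000000000000000000000 := rS 0x14b0d2e0acc465 (k4 c557 c4794 c4904 c1729 (k2 c5243 c1341 (k1 c4490 k0))) (by decide +kernel)
def c5344 : PP 8 4 T 0x500100002002000082000000000040000020800000840001000000000000000000000 := rS 0x21aa518ab190a75494d0345 (k8 c4452 c50 c4290 c1483 c3979 c2065 c5343 c2046 (k2 c3963 c5264 (k1 c4490 k0))) (by decide +kernel)
def c5345 : PP 8 4 T 0x400100002002000088100000080040000000840000101000000000000040000000000 := rS 0xa19f5405e5327d4a491191c5ac7148cc9efd (k8 c5206 c4297 c4293 c4402 c4289 c4285 c4374 c4372 (k8 c4281 c1937 c1781 c4579 c4532 c908 c1379 c4423 (k1 c4483 k0))) (by decide +kernel)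
def c5346 : PP 8 4 T 0x500100002002000080000000010000000020800000900001000000000000000000000 := rS 0x53a80be6015ab8c46564b399a4923b449a4b63945967f42a8d574b338cc9e53 (k8 c4290 c4297 c4293 c5300 c4457 c1945 c5337 c5338 (k8 c5342 c2025 c4405 c4289 c4375 c4282 c4298 c4374 (k8 c4281 c5344 c2116 c637 c557 c4794 c4491 c4904 (k4 c5345 c66 c882 c2009 (k1 c1795 k0))))) (by decide +kernel)
def c5347 : PP 8 4 T 0x8410000002002000080000044020001000400000000000000000001000000100000000 := rS 0x134904cc656ac3 (k4 c4362 c4419 c4982 c2050 (k2 c5245 c4488 (k1 c893 k0))) (by decide +kernel)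
def c5348 : PP 8 4 T 0x2000080000014000004008000000000000000000001000000100000008 := rS 0xd83cb50e8e49235238fd8e3b (k8 c4403 c4289 c4287 c4374 c4373 c4281 c4279 c1029 (k4 c1658 c4466 c2113 c2130 k0)) (by decide +kernel)
def c5349 : PP 8 4 T 0x510000002002000080000044020000054400000000000000000001000000100000000 := rS 0x22c9d (k2 c946 c4487 (k1 c5347 k0)) (by decide +kernel)
def c5350 : PP 8 4 T 0x2000080000014000000008400000000000000000001000000100000008 := rS 0xd83cb50e8e49235238fd8e3b (k8 c4403 c4289 c4287 c4374 c4373 c4281 c4279 c1029 (k4 c1659 c4466 c2113 c2130 k0)) (by decide +kernel)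
def c5351 : PP 8 4 T 0x500100002002000080000000000000010020800000900001000001000000100000000 := rS 0x1d562b338818b209378711a1f4b1cd268f028096eb907508fa5d2f2ed4c6186a955263320c558c9669fc22490691c2a3f6394c26337e806968551aaccf45 (k8 c4452 c5300 c1945 c5337 c5338 c4457 c5056 c5206 (k8 c4293 c4401 c4290 c4289 c4287 c4283 c4374 c4371 (k8 c4281 c4275 c5342 c5344 c637 c5346 c2046 c2049 (k8 c820 c948 c3963 c5264 c618 c4490 c3886 c4532 (k8 c812 c1380 c4483 c2107 c4394 c4424 c1376 c265 (k8 c3401 c5350 c1648 c5349 c1193 c1197 c4466 c1377 (k8 c1058 c1026 c791 c1416 c552 c544 c498 c5124 k0))))))) (by decide +kernel)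
def c5352 : PP 8 4 T 0x400000000002000080000000080040000001880000001000000000004040000000000 := rS 0x2999e5d2488c8e2d638a53ea5 (k8 c1937 c1781 c4402 c4289 c4285 c4374 c4372 c4281 (k4 c1457 c1521 c4582 c909 k0)) (by decide +kernel)
def c5353 : PP 8 4 T 0x400100002002000080000000080040000021800000100002000000000000000000001 := rS 0x67b2cfe610101456272691c96c729944664f68b359249 (k8 c4281 c1726 c2065 c4298 c4297 c4293 c4405 c4290 (k8 c4289 c4375 c4374 c4282 c4277 c1774 c266 c4461 (k4 c878 c5352 c2025 c5345 (k1 c2116 k0)))) (by decide +kernel)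
def c5354 : PP 8 4 T 0x501100002002000080000000000000010000000000100000000001000000100000000 := rS 0x39c5d268f0e2743ebf1b2dd72b5a11f4bcbb53184fe0286a955263320c558af649528a8242a8d574b440e492231a91c7ec7298ec9efd351b40267 (k8 c5300 c5056 c5028 c4479 c5206 c4297 c4403 c4290 (k8 c4289 c4287 c4374 c4373 c4372 c4281 c4279 c5333 (k8 c4457 c1945 c5337 c5338 c5341 c4452 c5351 c1726 (k8 c5353 c4491 c2046 c2049 c820 c948 c3963 c5264 (k8 c1647 c2524 c618 c4490 c3886 c4532 c1380 c4483 (k8 c5140 c4394 c4424 c2113 c1511 c2130 c907 c4466 (k4 c760 c1029 c5347 c1648 (k1 c5159 k0)))))))) (by decide +kernel)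
def c5355 : PP 8 4 T 0x1000002002000084000000000580000001500001000000000000000000000000000 := rS 0x32d9b445489c924d1191c9653288cc9ed117bf44ac7 (k8 c4289 c1463 c5206 c4432 c4298 c4297 c4293 c4405 (k8 c4290 c4375 c4374 c4372 c4282 c4281 c4277 c5323 (k4 c4484 c4525 c4455 c2116 k0))) (by decide +kernel)
def c5356 : PP 8 4 T 0x1100002002000080000000000080020010000001840000000000000000000000000 := rS 0x2aa2d0e7f0ca090a812fa959ea7472e0fa4d0a94c26510db442ead (k8 c2048 c4431 c4298 c4291 c4405 c4401 c4290 c4283 (k8 c4282 c1354 c859 c858 c2860 c1524 c3451 c3450 (k8 c1922 c562 c5355 c1998 c676 c2005 c645 c5316 (k1 c2109 k0)))) (by decide +kernel)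
def c5357 : PP 8 4 T 0x501100002002000080000000000040000012000001800000000000000000000000000 := rS 0x15114d1 (k4 c4298 c5315 c5326 c1766 k0) (by decide +kernel)
def c5358 : PP 8 4 T 0x111100002002000080000000000040000011480000840001000000000000000000000 := rS 0x32d554443281028b4f97686fd (k8 c5206 c4392 c1457 c1394 c2537 c1923 c4489 c5327 (k4 c4484 c1924 c4455 c1740 k0)) (by decide +kernel)
def c5359 : PP 8 4 T 0x100002002000084100000000000000010440000000000000000000000000000000 := rS 0x196cd3e50c924d2392d8e532893da2fd (k8 c5206 c4298 c4297 c4405 c4290 c4289 c4375 c4374 (k4 c4282 c4281 c5287 c4483 (k2 c1358 c1629 (k1 c2116 k0)))) (by decide +kernel)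
def c5360 : PP 8 4 T 0x401100002002000080100000000040020011440000800001000000000040000000000 := rS 0x5d32a013c7ca2b389223238b58e291993dfaa7 (k8 c2008 c5206 c4297 c4293 c4402 c4289 c4285 c4374 (k8 c4372 c4281 c5359 c4400 c5218 c4579 c4484 c3629 (k2 c1340 c1923 k0))) (by decide +kernel)
def c5361 : PP 8 4 T 0x1100002002000080200000008000020011400000800001000000000000000000000 := rS 0x218c68b (k4 c3633 c3657 c5327 c1925 k0) (by decide +kernel)
def c5362 : PP 8 4 T 0x501100002002000080000000000000021010404000100001000000000040000000000 := rS 0x1193b9e57a372c3156e64662290eab5aa819e9fa1b20fec78bc350aa3351b40267 (k8 c5300 c5056 c5028 c4479 c5356 c5357 c5243 c4418 (k8 c4289 c5358 c5360 c4422 c3631 c1793 c4489 c1707 (k8 c5361 c1924 c5327 c5322 c564 c3677 c3729 c1697 (k4 c4989 c2069 c605 c1112 (k2 c5090 c4482 k0))))) (by decide +kernel)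
def c5363 : PP 8 4 T 0x501100002002000080000000000000000010400000100000000001000000100000000 := rS 0xe6b3550210c75059507f1715a4472073da743c1d22a154694351b40267 (k8 c5300 c5056 c5028 c4479 c5354 c5356 c5357 c4295 (k8 c763 c4466 c1232 c561 c1098 c4279 c1153 c1694 (k8 c4418 c4287 c5362 c306 c1686 c5332 c4462 c1924 (k2 c1185 c3563 (k1 c4481 k0))))) (by decide +kernel)
def c5364 : PP 8 4 T 0x500000002002000080000000000040000009800000800000000000000040000000000 := rS 0x9f50a94f8a75533e1b45 (k8 c4452 c5243 c1637 c1924 c3912 c2005 c3849 c3567 (k2 c4168 c5125 k0)) (by decide +kernel)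
def c5365 : PP 8 4 T 0x500000002002000080000000000040000080800000800000000000000040000000000 := rS 0xa74fa85905f672b8c90d (k8 c5243 c564 c565 c645 c2515 c644 c3739 c3720 (k2 c2009 c5125 k0)) (by decide +kernel)
def c5366 : PP 8 4 T 0x501100002002000080000000000000000010000000100000000001000000100000000 := rS 0xaa8b439fc328242a8c9a152984ca21b6885cd46d0099c5694 (k8 c5354 c1694 c5300 c5056 c5028 c4479 c4431 c4298 (k8 c4291 c4405 c4401 c4290 c4283 c4282 c5356 c5357 (k4 c5363 c1998 c676 c5364 (k2 c5365 c5316 (k1 c2109 k0))))) (by decide +kernel)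
def c5367 : PP 8 4 T 0x20000020000000000800000000000000000000000000 := rS 0x1849a (k2 c860 c861 (k1 c3971 k0)) (by decide +kernel)
def c5368 : PP 8 4 T 0x501100002002000080000000000000000000000000100000000001000000100000000 := rS 0xa8ae56a090aa355d2d1094351b40267 (k8 c5300 c5056 c5028 c4479 c5354 c5366 c4457 c1945 (k4 c5337 c5338 c5341 c5367 (k2 c4491 c5346 (k1 c5353 k0)))) (by decide +kernel)
def c5369 : PP 8 4 T 0x501100002002000080000000000000000012000000100000000001000000000000000 := rS 0x1d8840b3c8c004188c95516874a990fc6304a88bc5d2d854a6132886da2174b8b4567b4e88066ad351b40267 (k8 c5300 c5056 c5028 c4479 c2048 c4293 c5368 c966 (k8 c561 c314 c4285 c926 c4431 c4298 c4291 c4405 (k8 c4401 c4290 c4283 c2560 c1498 c562 c5357 c231 (k8 c818 c1465 c1466 c5356 c1925 c2537 c1646 c5015 (k8 c2109 c1919 c1918 c1959 c2245 c316 c4482 c1887 k0))))) (by decide +kernel)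
def c5370 : PP 8 4 T 0x1100002002000080000000000080000011400001800001000000000000000000000 := rS 0x81529f99a624322d5ea97eb3d4ead (k8 c2048 c940 c1524 c5206 c5323 c988 c565 c5327 (k4 c1925 c3837 c819 c1469 (k2 c1461 c5355 k0))) (by decide +kernel)
def c5371 : PP 8 4 T 0x1100002002000080000000000080000011010001800001000000000000000000000 := rS 0x116870ca089a152984ca21b6885d9ead (k8 c2048 c1524 c4431 c4298 c4291 c4405 c4401 c4290 (k4 c4283 c4282 c5370 c1998 (k2 c2005 c645 (k1 c2109 k0)))) (by decide +kernel)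
def c5372 : PP 8 4 T 0x101100002002000080000000000080000011000000840000000001000000200000000 := rS 0x9b2c1e10c5b3ba0cc4573f19416c92a4652a7da1925fa6d00a5c5a2b3da7466ad (k8 c2048 c4293 c966 c561 c314 c4285 c926 c5056 (k8 c5028 c5206 c4281 c4393 c1354 c5356 c5015 c5371 (k8 c1726 c306 c1646 c4483 c799 c4478 c676 c1921 (k4 c2840 c5332 c4482 c4476 (k2 c3877 c541 k0))))) (by decide +kernel)
def c5373 : PP 8 4 T 0x10501000002002000000000000000001050080000000800000000001000000000000000 := rS 0x45984936290cac763ca61367360ab8b6641f94c765122b44827b (k8 c561 c4433 c4298 c4295 c4405 c4403 c4290 c4287 (k8 c564 c2561 c565 c1713 c3714 c868 c4488 c1929 (k8 c4482 c1921 c3829 c1095 c1069 c2115 c4487 c4362 k0))) (by decide +kernel)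
def c5374 : PP 8 4 T 0x501100002002000080000000000000000010400000100001000001000000000000000 := rS 0x190625533d0c8b8ca54fe9113a5c5a7b4e8cd5b0d51a14d46d0099c5620 (k8 c5368 c314 c5300 c5056 c5028 c4479 c5369 c5372 (k8 c5243 c2048 c4293 c966 c561 c4285 c926 c4277 (k8 c886 c5358 c5362 c5015 c5373 c5327 c1637 c1924 (k2 c1925 c5359 (k1 c3657 k0))))) (by decide +kernel)
def c5375 : PP 8 4 T 0x501100002002000080000000000000000010000000100001000001000000000000000 := rS 0x45a1c328226854a6132886da21715a8d0a20351b40267 (k8 c5300 c5056 c5028 c4479 c5368 c5369 c5372 c314 (k8 c4431 c4298 c4291 c4405 c4401 c4290 c4283 c4282 (k4 c5374 c1998 c5364 c5365 (k1 c2109 k0)))) (by decide +kernel)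
def c5376 : PP 8 4 T 0x1100002002000080000000000000000011400000800002000000000000000000000 := rS 0x288ca409f99acf431348e4b6394ca24f68bf59249 (k8 c4281 c1726 c5206 c4298 c4297 c4405 c4290 c4289 (k8 c4375 c4374 c4282 c5332 c1637 c3837 c5359 c1461 (k2 c2116 c4484 (k1 c4455 k0)))) (by decide +kernel)
def c5377 : PP 8 4 T 0x501100002002000080000000000000000010000000100000000001000000000000000 := rS 0x439fd045451a14d46d0099c5620 (k8 c5368 c314 c5300 c5056 c5028 c4479 c5369 c5372 (k4 c5375 c5376 c676 c5364 (k1 c5316 k0))) (by decide +kernel)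
def c5378 : PP 8 4 T 0x510100002002000080000000000000000020800000900001000000000000200000000 := rS 0x6f8a8d81671120081cb13e974bc0953184b6c952aa4c664669fd5811248348e156384c66fd4889e96855599d4745 (k8 c4452 c5337 c5300 c1945 c5338 c4457 c4277 c886 (k8 c5206 c4293 c4401 c4289 c4283 c4374 c4371 c4281 (k8 c4275 c5346 c5342 c5344 c2049 c820 c948 c3963 (k8 c637 c2558 c618 c4490 c231 c4532 c812 c1380 (k8 c545 c2107 c1376 c4046 c1416 c2243 c312 c4386 (k2 c1344 c4480 k0)))))) (by decide +kernel)
def c5379 : PP 8 4 T 0x501100002002000080000000000000000000000000100000000001000000000000000 := rS 0xad57994a88286a1546aba5a205620351b40267 (k8 c5300 c5056 c5028 c4479 c5368 c314 c5377 c4457 (k8 c1945 c5337 c5338 c5243 c5341 c5378 c1646 c5353 (k2 c2049 c4491 k0))) (by decide +kernel)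
def c5380 : PP 8 4 T 0x101000000000000100000000080000000040000040000000000000000000000000 := rS 0xfb43 (k2 c4393 c1354 (k1 c4483 k0)) (by decide +kernel)
def c5381 : PP 8 4 T 0x8000000000002000080000004000008001000000000000000000001000000100000000 := rS 0x2396b0d (k4 c4384 c4419 c5245 c1427 k0) (by decide +kernel)
def c5382 : PP 8 4 T 0x4100100000002000080000014000000050000000110020000000001000000100000008 := rS 0x56471c924b3 (k4 c553 c4487 c4481 c5350 (k2 c1649 c801 k0)) (by decide +kernel)
def c5383 : PP 8 4 T 0x100100000002000080000054008008050054004500020200000001000000100000008 := rS 0x314e67949ac120c18b2cd8671 (k8 c3396 c1947 c553 c5382 c4420 c5381 c809 c1157 (k4 c629 c1149 c1674 c2123 k0)) (by decide +kernel)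
def c5384 : PP 8 4 T 0x500101000002000088000000050000010054004401440002000001000000100000000 := rS 0x1f39c5d2c022e2e5770d32184beb74f18d50aa1f804eb4b (k8 c4430 c1686 c5056 c4287 c4491 c5286 c3557 c1676 (k8 c3605 c1506 c976 c4478 c4384 c3414 c3484 c4477 (k4 c1647 c5383 c4359 c1084 (k2 c1193 c5159 k0)))) (by decide +kernel)
def c5385 : PP 8 4 T 0x100000000000000008000080000800014000000000000000000000000000000000000 := rS 0x12f1760a6968bf (k4 c109 c1445 c1978 c1717 (k2 c4419 c933 (k1 c4487 k0))) (by decide +kernel)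
def c5386 : PP 8 4 T 0x500100002002000080000000040000010010400000500000000001000000100000000 := rS 0x1f8ba59767349add7342479f4bc5d53008c30d5498cc831562947e6d009eceea333bf41c1106a149e4d25a068ace3fb1d92542884d0e1929b4517080a86c2e49 (k8 c4281 c4431 c4291 c4283 c5379 c4322 c4298 c4290 (k8 c4436 c4440 c4401 c4405 c2109 c1726 c4289 c5278 (k8 c5359 c4400 c4439 c4375 c4282 c4297 c4321 c4371 (k8 c4275 c2108 c5206 c5300 c5380 c4438 c4319 c5056 (k8 c5028 c4287 c1406 c5384 c2046 c4903 c821 c948 (k8 c5264 c618 c1647 c4490 c813 c4532 c1651 c3401 (k8 c4483 c4394 c4424 c5350 c1648 c5385 c5349 c4359 (k2 c1193 c5159 k0)))))))) (by decide +kernel)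
def c5387 : PP 8 4 T 0x400000002002000088000000000040000000000000109400000000000040000000000 := rS 0x27d4e491191c5ac7148cc9efd (k8 c5206 c4297 c4293 c4402 c4289 c4285 c4374 c4372 (k4 c4281 c4532 c1611 c4579 k0)) (by decide +kernel)
def c5388 : PP 8 4 T 0x400100002002000088100000080044000000040000000800000000000000000000000 := rS 0x509407d53124464716b1c523327bf456d1 (k8 c4298 c1774 c5206 c4297 c4293 c4402 c4289 c4285 (k8 c4374 c4372 c4281 c4579 c1379 c908 c4483 c4423 k0)) (by decide +kernel)
def c5389 : PP 8 4 T 0x500100002002000080000000000000010010400000500000000001000000100000000 := rS 0x2c071601f379c521155ac5926b95b9f13c8f2f1840405159892eae138e476015199dfa0e088350a4f2692d02ce3fb1d92542884d0e1929b4517080a86c2e49 (k8 c4281 c4431 c4291 c4283 c5379 c4322 c4298 c4290 (k8 c4436 c4440 c4401 c4405 c2109 c1726 c4289 c5278 (k8 c5359 c4439 c4375 c4282 c4297 c4321 c4371 c4275 (k8 c2108 c5206 c5300 c5380 c5056 c4403 c4279 c4277 (k8 c5386 c4631 c4574 c1774 c266 c4461 c878 c5387 (k8 c3401 c5388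 c1610 c5142 c1396 c5350 c4487 c4419 (k8 c4963 c5381 c1419 c1076 c1153 c4480 c4466 c544 (k1 c1026 k0)))))))) (by decide +kernel)
def c5390 : PP 8 4 T 0x500100002002000080000000000000000010400000500000000001000000100000000 := rS 0x599cc1058010780a1d15c5d26941f804ce752a14426870c94da28b840543617 (k8 c4431 c4291 c4283 c5379 c4322 c4298 c4290 c4436 (k8 c4440 c4401 c4405 c2109 c1686 c5300 c5056 c4287 (k8 c5389 c73 c4418 c1694 c763 c266 c4466 c4461 (k4 c223 c222 c1109 c1185 (k1 c4481 k0))))) (by decide +kernel)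
def c5391 : PP 8 4 T 0x500100002002000080000000000000000010400000500000000001000000000000000 := rS 0x8a9c46c8c589bc485e3098804652b8145691103381c11139341a4b278050a8105a8d92542884d0e1929b4516150d85c927f8431ccefd (k8 c5206 c5300 c4289 c5379 c5278 c4281 c4431 c4291 (k8 c4283 c4322 c4298 c4290 c4436 c4440 c4401 c4405 (k8 c2109 c1726 c5380 c306 c4439 c4321 c5056 c4297 (k8 c4375 c4371 c4282 c4277 c4275 c2108 c5359 c5390 (k8 c886 c314 c2256 c799 c1646 c4461 c4478 c878 (k8 c5387 c1375 c1378 c545 c313 c312 c3369 c4386 (k1 c4480 k0))))))) (by decide +kernel)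
def c5392 : PP 8 4 T 0x100002002000085100000000000000004040000000000000000000000000000000 := rS 0x7c6550c924d2392d8e532893da2fd (k8 c5206 c4298 c4297 c4405 c4290 c4289 c4375 c4374 (k4 c4282 c4281 c5287 c2116 (k2 c4483 c1628 k0))) (by decide +kernel)
def c5393 : PP 8 4 T 0x1000000000000400101002000000080100000020140000010000000140400400000000000000000000 := rS 0x14c6186aa4c831 (k4 c2046 c4903 c948 c5264 (k2 c618 c4490 (k1 c4532 k0))) (by decide +kernel)
def c5394 : PP 8 4 T 0x400100002002000088000000080040000000840000100002000000000000000000001 := rS 0x1814c02b13b459249 (k8 c4281 c1726 c4298 c4277 c1774 c5345 c266 c878 (k1 c4461 k0)) (by decide +kernel)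
def c5395 : PP 8 4 T 0x500100002002000080000000000000000010000000500000000001000000000000000 := rS 0x56641018d2aaa57ab696ce6697d4b45411b4027b3ba8d92542884d0e1929b4516150d85c927f8431ccefd (k8 c5206 c5300 c4289 c5379 c5278 c4281 c4431 c4291 (k8 c4283 c4322 c4298 c4290 c4436 c4440 c4401 c4405 (k8 c2109 c1726 c5380 c4438 c4319 c5056 c5028 c5391 (k8 c4452 c1936 c548 c2064 c5392 c4430 c5393 c5394 (k4 c4491 c3634 c3557 c5384 (k2 c4478 c314 (k1 c1646 k0))))))) (by decide +kernel)
def c5396 : PP 8 4 T 0x500100000002000088000000050000010054004400041002040001000000100008000 := rS 0xf9ce2e960117172bb869904ab74f18d50aa1f804eb4b (k8 c4430 c1686 c5056 c4287 c4491 c5286 c3557 c1676 (k8 c3605 c1503 c4478 c4384 c3414 c3484 c4046 c1647 (k4 c5383 c4359 c1084 c1193 (k1 c5159 k0)))) (by decide +kernel)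
def c5397 : PP 8 4 T 0x500100002002000080000000000000010010400000100000000001000000100000000 := rS 0x580e2c03e6f38a422ab58b24d72b73e23c049e2f01456624bab87223238b4523b19804f6775199dfaad30a9cd40e088350a4f2692d02ce3fb1d92542884d0e1929b4517080a86c2e49 (k8 c4281 c4431 c4291 c4283 c5379 c4322 c4298 c4290 (k8 c4436 c4440 c4401 c4405 c2109 c1726 c4289 c5278 (k8 c5359 c4439 c4375 c4282 c4297 c4321 c4371 c4275 (k8 c2108 c5395 c2008 c620 c2048 c5206 c5300 c5380 (k8 c4438 c4319 c5056 c4293 c4403 c4402 c4285 c4374 (k8 c4372 c4279 c5396 c4631 c4574 c1774 c266 c5387 (k8 c4579 c4461 c3401 c1610 c5142 c1396 c5350 c4487 (k8 c4419 c4963 c5381 c1419 c1076 c1153 c4480 c4466 (k2 c544 c1026 k0))))))))) (by decide +kernel)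
def c5398 : PP 8 4 T 0x500100002002000080000000000000000010400000100000000001000000100000000 := rS 0xbf5daf46e435a30518a4012b83c9e02a45561d15a50724d118d48e4b168a466452790402a333bf55aa1539aa96ce3fb1d92542884d0e1929b4517080a86c2e49 (k8 c4281 c4431 c4291 c4283 c5379 c4322 c4298 c4290 (k8 c4436 c4440 c4401 c4405 c2109 c1726 c4289 c5278 (k8 c5359 c4430 c5395 c2008 c1795 c2048 c5206 c5300 (k8 c5380 c5056 c4433 c4297 c4295 c4293 c4402 c4285 (k8 c4375 c4374 c4373 c4372 c4282 c4279 c5397 c1694 (k8 c763 c3634 c890 c266 c4579 c4466 c4491 c4461 (k8 c1781 c1699 c3644 c1698 c2132 c2130 c1939 c3374 (k2 c1518 c2114 k0)))))))) (by decide +kernel)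
def c5399 : PP 8 4 T 0x500100002002000080000000000000000010400000100000000001000000000000000 := rS 0x454e236462c4de242f174c49e86994ae2b488819c0e539842227268344647258b4523327a15020b51b24a85109a1c325368a2c2a1b0b924ff086399dfa6a (k8 c5395 c5206 c5300 c4289 c5379 c5278 c4281 c4431 (k8 c4291 c4283 c4322 c4298 c4290 c4436 c4440 c4401 (k8 c4405 c2109 c1726 c5380 c306 c4439 c4321 c4297 (k8 c4293 c4402 c4285 c4375 c4374 c4372 c4371 c4282 (k8 c4277 c4275 c620 c2008 c2108 c5359 c5398 c886 (k8 c314 c799 c1646 c5243 c4579 c4478 c1340 c1611 (k8 c4046 c1378 c545 c313 c312 c3369 c4386 c4480 k0))))))) (by decide +kernel)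
def c5400 : PP 8 4 T 0x500100002002000080000000000000000010000000100000000001000000000000000 := rS 0x1f39c5d2c21010a8b90d322e5765f4aadd3c6330aa154a557d2d9ccd412b4d4a33ab24a87f248547ec72984ca21b6885dfa01339ed0a8b0c9dd0f08 (k8 c5379 c4440 c4438 c4436 c4322 c4321 c4319 c5300 (k8 c5056 c5206 c4431 c4298 c4291 c4405 c4401 c4290 (k8 c4289 c4287 c4283 c4281 c5278 c2109 c1726 c1686 (k8 c5380 c5395 c2048 c5399 c2064 c5392 c4430 c5394 (k8 c1406 c4491 c5286 c621 c3557 c1676 c3605 c3634 (k8 c1505 c3414 c3484 c4478 c4384 c4477 c1646 c1647 (k4 c314 c5383 c4359 c1084 (k2 c1193 c5159 k0)))))))) (by decide +kernel)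
def c5401 : PP 8 4 T 0x100002002000084500000000000000000140000000000000000000000000000000 := rS 0x7c6650c924d2392d8e532893da2fd (k8 c5206 c4298 c4297 c4405 c4290 c4289 c4375 c4374 (k4 c4282 c4281 c5287 c2116 (k2 c4483 c1357 k0))) (by decide +kernel)
def c5402 : PP 8 4 T 0x80000000000000000000000000002000000000000000000000001 := rS 0x18142227 (k4 c4277 c4275 c614 c878 (k1 c4461 k0)) (by decide +kernel)
def c5403 : PP 8 4 T 0x8000001000002000080000000000008000000020000001800000001000000100000010 := rS 0x2c071601f379c521155aadc7639 (k8 c4279 c4403 c5142 c4419 c4963 c5381 c1419 c1076 (k4 c1153 c4480 c4466 c544 (k1 c1026 k0))) (by decide +kernel)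
def c5404 : PP 8 4 T 0x500100002002000080000000000000000000400000500001000001000000100000000 := rS 0x8a9c5626f5a23122574a45d26b95b9d4f8a102a791e022ea5d5c5e568acc4651c8ecc201a5aac1c110b8349e4d2586d46677eb38fe850ca1d8ec965a210308 (k8 c5379 c4439 c5400 c2024 c636 c4289 c4440 c4436 (k8 c4321 c5339 c5401 c5206 c5300 c5380 c4291 c4375 (k8 c4282 c4297 c4371 c4431 c4275 c2108 c1945 c4457 (k8 c5056 c5402 c4403 c4279 c556 c4478 c4904 c820 (k8 c5387 c5289 c4785 c39 c1376 c3401 c5388 c265 (k8 c77 c1610 c3620 c5142 c1396 c5350 c5403 c4487 (k8 c803 c890 c1699 c1698 c1378 c545 c3369 c4389 (k1 c4480 k0)))))))) (by decide +kernel)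
def c5405 : PP 8 4 T 0x40000000000000500000002000000088000000044440000000000000000000400000000000000000000 := rS 0x21aa918ab14b45 (k4 c4400 c1406 c4491 c2046 (k2 c948 c5264 (k1 c4490 k0))) (by decide +kernel)
def c5406 : PP 8 4 T 0x500100002002000080000000000000000000400000100001000001000000100000000 := rS 0x11538ac4deb446244ae9449c5c0ab95b9d4f88f011753c5e159892eae50a9cd4392488c8e2d298a4765119b44c201a5aac1c110b8349e4d2586d46677eb38fe850ca1d8ec965a210308 (k8 c5379 c4439 c5400 c2024 c636 c4289 c4440 c4436 (k8 c4321 c5339 c5401 c5206 c5300 c5380 c4291 c4375 (k8 c4282 c4297 c4371 c4431 c4275 c2108 c1945 c4457 (k8 c5056 c5402 c4298 c4293 c4405 c4403 c4402 c4290 (k8 c4285 c4374 c4372 c4281 c4279 c5404 c2008 c1795 (k8 c5405 c4631 c4574 c1774 c5387 c4579 c39 c1376 (k8 c3401 c1610 c3620 c5142 c1396 c265 c5403 c5350 (k8 c4487 c803 c890 c1699 c1698 c1378 c545 c3369 (k2 c4389 c4480 k0))))))))) (by decide +kernel)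
def c5407 : PP 8 4 T 0x1000000000000000000000000001000000000000800000000000000200008008 := rS 0x37c54e2364602d6224 (k8 c1375 c545 c2243 c313 c312 c3369 c4386 c1344 (k1 c4480 k0)) (by decide +kernel)
def c5408 : PP 8 4 T 0x500100002002000080000000000000000000400000100001000001000000000000000 := rS 0x15ea73197c040515a4440ce51838fec9658444e4d0692d8e532886c9e177e98402850ca050f08a5aad1067 (k8 c5300 c5400 c1945 c4457 c5379 c4440 c4439 c4436 (k8 c4321 c5056 c5402 c5206 c4431 c4297 c4291 c4405 (k8 c4290 c4289 c4375 c4371 c4282 c4277 c4275 c2024 (k8 c636 c5339 c2108 c5380 c5401 c5406 c886 c314 (k4 c2255 c4461 c5407 c5387 (k2 c4532 c4574 (k1 c5405 k0))))))) (by decide +kernel)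
def c5409 : PP 8 4 T 0x500100002002000080000000000080000020800000100000000000000000000000000 := rS 0x6332ab0d667 (k4 c5300 c5337 c5335 c556 (k2 c820 c4478 k0)) (by decide +kernel)
def c5410 : PP 8 4 T 0x500100002002000080000000000000000000000000100001000001000080100000000 := rS 0xd4953219d1082 (k4 c5408 c5400 c5300 c4904 (k2 c1694 c556 (k1 c5351 k0))) (by decide +kernel)
def c5411 : PP 8 4 T 0x500100002002000080000000000000000020800000500000000000000040000000000 := rS 0x196a0541fd3ea72e188be657ed154a610099e1aa3 (k8 c5409 c5243 c5300 c5056 c5402 c1937 c4452 c5206 (k8 c556 c548 c4478 c4477 c4532 c1611 c1457 c4490 (k2 c5125 c2025 (k1 c981 k0)))) (by decide +kernel)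
def c5412 : PP 8 4 T 0x500100002002000080000000000000000020800000900001000001000000100000000 := rS 0x15894 (k2 c5351 c5346 (k1 c5367 k0)) (by decide +kernel)
def c5413 : PP 8 4 T 0x500100002002000080000000000000000000000000100001000001000000100000000 := rS 0x350ad1082 (k4 c5408 c5400 c5410 c5411 (k1 c5412 k0)) (by decide +kernel)
def c5414 : PP 8 4 T 0x500100002002000080000000000000000000000000100001000001000000000000000 := rS 0x1aa1a2b1028d0488 (k8 c5400 c5408 c5409 c5413 c314 c5243 c5411 c5378 k0) (by decide +kernel)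
def c5415 : PP 8 4 T 0x500100002002000080000000000000000000400000500000000001000000100000000 := rS 0x22a71589bd688c4895d28938bae56e7c50a791e022f0145697572b4c4651c8eda26100d2d5675070442e0d27934961b6732d1081519fd0a1943c218ec92a124cefd (k8 c5206 c5300 c4281 c5414 c1726 c4289 c5379 c4440 (k8 c4436 c4321 c5339 c5380 c4439 c5400 c2024 c5401 (k8 c4291 c4375 c4282 c4297 c4371 c4431 c4275 c2108 (k8 c1686 c1945 c4457 c5056 c5402 c4298 c4403 c4279 (k8 c556 c4478 c820 c5289 c4785 c1774 c266 c5387 (k8 c4461 c3401 c5388 c77 c1610 c5142 c1396 c5403 (k8 c5350 c4487 c803 c890 c1699 c1698 c1378 c545 (k2 c3369 c4389 (k1 c4480 k0))))))))) (by decide +kernel)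
def c5416 : PP 8 4 T 0x500100002002000080000000000000000000400000100000000001000000100000000 := rS 0x11538ac4deb446244ae9449c5d72b73e23c049e2f01456624bab942a7350e446471694c523b288cda26100d2d5675070442e0d27934961b6732d1081519fd0a1943c218ec92a124cefd (k8 c5206 c5300 c4281 c5414 c1726 c4289 c5379 c4440 (k8 c4436 c4321 c5339 c5380 c4439 c5400 c2024 c5401 (k8 c4291 c4375 c4282 c4297 c4371 c4431 c4275 c2108 (k8 c1686 c1945 c4457 c5056 c5402 c4298 c4293 c4405 (k8 c4403 c4402 c4290 c4285 c4374 c4372 c4279 c5415 (k8 c2008 c1795 c5405 c4631 c4574 c1774 c266 c5387 (k8 c4579 c4461 c3401 c1610 c5142 c1396 c5403 c5350 (k8 c4487 c803 c890 c1699 c1698 c1378 c545 c3369 (k2 c4389 c4480 k0))))))))) (by decide +kernel)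
def c5417 : PP 8 4 T 0x500100002002000080000000000000000000400000100000000001000000000000000 := rS 0x17cc4023281456911028d9c0e3fb2c22272683496c70d93c2efd30804ce850ca050f0844324a849 (k8 c4281 c5414 c1726 c5400 c5379 c4440 c4439 c4436 (k8 c4321 c5300 c5056 c5402 c5206 c4431 c4297 c4291 (k8 c4289 c4375 c4371 c4282 c4277 c4275 c2024 c5339 (k8 c2108 c5401 c5380 c5416 c886 c314 c2256 c1646 (k4 c4461 c4478 c5407 c5387 k0))))) (by decide +kernel)
def c5418 : PP 8 4 T 0x8410000002002000080000004020801100000000000800000000001000000100000000 := rS 0xbc4d23a32bb (k4 c3886 c4982 c5347 c4488 (k2 c853 c3921 k0)) (by decide +kernel)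
def c5419 : PP 8 4 T 0x510100002002000080000004020801004000000000844002000001000000000000000 := rS 0x2583d174c9cc7e014a8845464 (k8 c4478 c1646 c314 c3628 c5056 c4287 c1648 c2051 (k4 c5418 c5159 c4487 c1193 k0)) (by decide +kernel)
def c5420 : PP 8 4 T 0x510100002002000080000014020800001000000000844102000001000000000000000 := rS 0x722bc5d1c9e59a493a75010845464 (k8 c4478 c1646 c314 c1647 c1686 c906 c5419 c1124 (k4 c5348 c5350 c5381 c800 (k2 c4481 c1649 k0))) (by decide +kernel)
def c5421 : PP 8 4 T 0x500100002002000080000000000000000000000000100000000001000000000000000 := rS 0x8b9cc38964987d1e905bae6847d10974bcbb151a92a7f531921acb5498c62ac57a8d4b4541324a8aba5a210b081c9258e537e9840267 (k8 c5300 c5056 c5402 c5206 c4290 c4289 c4281 c4279 (k8 c5379 c4321 c5400 c4457 c1945 c5414 c1726 c5417 (k8 c4452 c1937 c5409 c5353 c4491 c2046 c820 c948 (k8 c2027 c5264 c4478 c4490 c5292 c3628 c556 c1646 (k8 c3886 c4532 c812 c314 c1380 c4483 c4394 c4424 (k8 c5420 c101 c1153 c1157 c5349 c4466 c1648 c4359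 (k1 c5134 k0))))))) (by decide +kernel)
def c5422 : PP 8 4 T 0x2000002002000000000000000000000010000000000001000000000000000000000 := rS 0x10e1945854a6132886da217 (k8 c4431 c4298 c4291 c4405 c4401 c4290 c4283 c4322 (k2 c4436 c4440 (k1 c2109 k0))) (by decide +kernel)
def c5423 : PP 8 4 T 0x100100002002000080000000000080000010400000940001000002000000100000000 := rS 0x8184396116648698cfcaf0e324bc5d07a583e8d48a112a7d088348e156394c26510d93da217368062eb7249ce1293 (k8 c1655 c5422 c1614 c4281 c1742 c4416 c5056 c5028 (k8 c4431 c4298 c4297 c4291 c4405 c4401 c4290 c4289 (k8 c4283 c4374 c4371 c4275 c1354 c5356 c5370 c939 (k8 c1468 c275 c4487 c1495 c1498 c562 c2534 c4466 (k8 c4631 c2107 c818 c4382 c1466 c565 c5085 c1925 (k2 c2109 c1026 (k1 c269 k0))))))) (by decide +kernel)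
def c5424 : PP 8 4 T 0x2002000000000000000000000010000000800001000000000080000000000 := rS 0x870ca2cc60357854a6132886da217 (k8 c4431 c4298 c4291 c4405 c4401 c4290 c4283 c1774 (k4 c226 c1606 c565 c1919 (k2 c1925 c2109 k0))) (by decide +kernel)
def c5425 : PP 8 4 T 0x500100002002000080000000000000000010400000100001000000000000100000000 := rS 0x312a9908667a2d5e964a9fc390d54a15469314bf62ead0f8acd50936804ce3c (k8 c5421 c5300 c5056 c5028 c5422 c4479 c5424 c274 (k8 c2048 c4416 c5206 c4402 c1655 c5423 c5357 c5323 (k8 c5243 c4466 c5358 c762 c4487 c4631 c565 c5286 (k4 c5327 c5359 c1924 c1925 (k1 c3657 k0))))) (by decide +kernel)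
def c5426 : PP 8 4 T 0x500100002002000080000000000000000010400000100001000000000000000000000 := rS 0x1287b4ba453a93100acd509138b4666d0099e2e3c (k8 c5421 c4416 c5300 c5056 c5028 c4293 c4285 c4277 (k8 c5422 c4479 c5424 c5425 c1654 c966 c886 c926 (k2 c561 c4487 (k1 c5362 k0)))) (by decide +kernel)
def c5427 : PP 8 4 T 0x500100002002000080000000000000000000400000500001000000000000000000000 := rS 0x40910ea85289e0125d5c1f2f2b526a36703856623fa050a65840449a0d25b1c521b2785dfa6d308062e3ca5aacce1929b2d9288 (k8 c5426 c636 c2024 c4290 c2038 c5300 c1945 c4457 (k8 c5421 c4416 c5056 c5402 c5028 c5206 c4431 c4297 (k8 c4291 c4402 c4289 c4375 c4371 c4282 c4275 c4479 (k8 c556 c4321 c4439 c5292 c4478 c4904 c2108 c5401 (k8 c5380 c3550 c820 c5387 c274 c5289 c4785 c1376 (k4 c5388 c4487 c77 c762 (k2 c890 c4466 (k1 c5407 k0)))))))) (by decide +kernel)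
def c5428 : PP 8 4 T 0x500100002002000080000000000000000000400000100001000000000000000000000 := rS 0x8004910e87cbc94498acc49750ab81cce409fe108553a8cd4c965865574b43a20224d0692d8e5314944364f6885dfa610099e2e3c (k8 c5421 c4416 c5300 c5056 c5402 c5206 c4431 c4298 (k8 c4297 c4291 c4405 c4402 c4290 c4289 c4375 c4371 (k8 c4282 c4275 c5426 c52 c4457 c1945 c2038 c2024 (k8 c636 c5427 c5337 c2008 c5338 c5341 c5339 c4439 (k8 c5401 c2108 c5405 c1795 c4631 c4574 c1774 c3716 (k8 c4487 c5387 c274 c762 c890 c1376 c4466 c5407 k0)))))) (by decide +kernel)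
def c5429 : PP 8 4 T 0x500000002002000080000000000000000008840000800000000000000040000000000 := rS 0x288c485 (k4 c128 c1925 c5364 c819 k0) (by decide +kernel)
def c5430 : PP 8 4 T 0x500000002002000080000000000000000010800001100001000000000000000000000 := rS 0x144ae4521c566a669fe12152984ca21b6885c324d (k8 c4282 c1998 c4431 c4298 c4291 c4405 c4401 c4290 (k8 c4283 c5422 c676 c2064 c4479 c5424 c5429 c2109 (k2 c565 c5365 (k1 c989 k0)))) (by decide +kernel)
def c5431 : PP 8 4 T 0x500100002002000080000000000000000000000000500001000000000000000000000 := rS 0xa8ca88411b40267 (k8 c5300 c5056 c5028 c5428 c5430 c556 c5411 c4904 k0) (by decide +kernel)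
def c5432 : PP 8 4 T 0x500100002002000080000000000000000000000000100001000000000000000000000 := rS 0x599d4ac79014601c9b4c9f438932f0854c1f86b259c954eaa4c63157b34fecb561a946aba5a210a8239844924d0691c96156394c26511993c5efd3698402678bb1478d1 (k8 c4298 c5421 c1782 c4416 c5300 c5056 c5402 c5028 (k8 c5206 c4432 c4297 c4293 c4405 c4401 c4290 c4289 (k8 c4283 c4375 c4374 c4371 c4282 c4281 c4275 c1614 (k8 c5428 c128 c5430 c4457 c1945 c5409 c5431 c5346 (k8 c3930 c5342 c5344 c163 c2046 c820 c948 c947 (k8 c5367 c2116 c637 c5264 c275 c5405 c5378 c4532 (k8 c1655 c4466 c1380 c2051 c764 c2107 c4488 c1376 (k4 c4447 c790 c596 c1188 (k1 c4481 k0))))))))) (by decide +kernel)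
def c5433 : PP 8 4 T 0x100100000000000000000000000000000000000000040002000002000080000000001 := rS 0x248c4954b994e517 (k8 c4416 c5191 c3585 c1084 c3561 c4478 c4487 c3550 k0) (by decide +kernel)
def c5434 : PP 8 4 T 0x400100002002000080000000000000000010400000548002000002000040000000001 := rS 0x91101792ece518395c7f408650aab18c20222726834962d6394c52510d8cc9ed10b8bdfa6d30b24921f010155a65 (k8 c1646 c4903 c266 c4461 c274 c4281 c1726 c5402 (k8 c5028 c5206 c4432 c4431 c4298 c4297 c4293 c4291 (k8 c4405 c4402 c4290 c4289 c4285 c4375 c4371 c4282 (k8 c4277 c4275 c4479 c229 c1613 c4321 c4436 c4439 (k8 c5278 c2112 c2108 c5380 c5359 c4631 c5387 c5184 (k2 c886 c5407 k0)))))) (by decide +kernel)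
def c5435 : PP 8 4 T 0x100002002000080000000000080000010400000850002000000000000000000000 := rS 0x42c24be7e63bf59249 (k8 c4281 c1726 c5206 c4289 c5380 c1466 c5278 c562 (k1 c5376 k0)) (by decide +kernel)
def c5436 : PP 8 4 T 0x501100002002000080000000000040000010400001800002000000000000000000000 := rS 0x84 (k2 c5376 c5357 k0) (by decide +kernel)
def c5437 : PP 8 4 T 0x500100002002000080000000000000000010400000100000000000000000000000000 := rS 0x911025cbcae672ac1c313fa1d021942c21466a0889c9a0d258b58e5314944363327b442e2f7e9b4c2c92487c0405312b4ca2b1e004a867 (k8 c5300 c5432 c5056 c5421 c5433 c1646 c4903 c4478 (k8 c266 c4461 c274 c4281 c1726 c5402 c5028 c5206 (k8 c4432 c4431 c4298 c4297 c4293 c4291 c4405 c4402 (k8 c4290 c4289 c4285 c4375 c4371 c4282 c4277 c4275 (k8 c5434 c5435 c5436 c4321 c4436 c4439 c4440 c5278 (k8 c228 c2108 c1612 c5359 c2112 c5387 c4631 c5184 (k2 c886 c5407 k0))))))) (by decide +kernel)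
def c5438 : PP 8 4 T 0x400100002002000080100000000040000000840001509000000000000040000000000 := rS 0xcf4397e10cd (k4 c2065 c4479 c548 c4440 (k2 c5387 c5392 k0)) (by decide +kernel)
def c5439 : PP 8 4 T 0x500100002002000080000000000000000010000000100000000000000000000000000 := rS 0x15cce55a1cd4a3189fd9a19412b49a2d298a4a233688bdfa6d30b24920202988ca2b1e004a867 (k8 c5300 c5432 c5056 c5421 c5433 c1646 c4478 c266 (k8 c4461 c4281 c1726 c5402 c5028 c5206 c4432 c4298 (k8 c4293 c4405 c4402 c4290 c4285 c4282 c4903 c5437 (k8 c1998 c2065 c676 c228 c5380 c5438 c5429 c1612 (k2 c5392 c2112 (k1 c5394 k0)))))) (by decide +kernel)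
def c5440 : PP 8 4 T 0x402100002002000080500000000000000000400000149000000000000040201000008 := rS 0xbea367038fe81428449a0d25b1c364f0bbf52227 (k8 c4277 c886 c5206 c4431 c4297 c4291 c4289 c4375 (k8 c4371 c4282 c4275 c4321 c4439 c5292 c2108 c5401 (k2 c5380 c5407 (k1 c5387 k0)))) (by decide +kernel)
def c5441 : PP 8 4 T 0x500100002002000080000000000000000000400000100000000000000000000000000 := rS 0x211466a84b2cda61649240419298812f4b55a215a62328143e2b0099c7854 (k8 c5432 c5421 c5300 c5056 c5433 c274 c266 c1646 (k8 c4478 c820 c5439 c1945 c4457 c4785 c5184 c4290 (k8 c2038 c4461 c4281 c1726 c5402 c5028 c2024 c5440 (k4 c4479 c5337 c5341 c5338 k0)))) (by decide +kernel)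
def c5442 : PP 8 4 T 0x500100002002000080000000000000000000000000100000000000000000000000000 := rS 0x28d0a82572ae96ad44188ca2b2a0f00267 (k8 c5300 c5056 c5421 c5432 c5433 c1646 c4478 c5439 (k8 c820 c4457 c1945 c4491 c5441 c128 c5409 c5353 k0)) (by decide +kernel)
def c5443 : PP 8 4 T 0x500000000000000000000000050000000080000000010000000000000000000000000 := rS 0x1574b (k2 c4427 c1672 (k1 c4491 k0)) (by decide +kernel)
def c5444 : PP 8 4 T 0x200000002000080000000000000000042000000000000040000000000000000000 := rS 0x6483c22490691c2ac7099fcaa7d (k8 c4409 c4406 c4313 c4401 c4289 c4283 c4374 c4371 (k4 c4281 c4275 c1495 c716 (k1 c2107 k0))) (by decide +kernel)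
def c5445 : PP 8 4 T 0x200002002000080000000040080000001400002000000000000000000000000000 := rS 0x2a598a58633d4e611289c96c7298cc9e2f7e956128728ab4ce5f069740023 (k8 c4372 c5028 c752 c4371 c488 c4309 c944 c4405 (k8 c4410 c4076 c4406 c5206 c4432 c4297 c4293 c4290 (k8 c4289 c4375 c4277 c1463 c936 c2945 c1524 c4477 (k4 c4385 c5322 c1484 c4525 k0)))) (by decide +kernel)
def c5446 : PP 8 4 T 0x500000000000000002000000050040000000000000000000000000000000000000000 := rS 0x1574b (k2 c4460 c1949 (k1 c4491 k0)) (by decide +kernel)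
def c5447 : PP 8 4 T 0x200002002000088000000000000000000400000000000000000000000000000000 := rS 0x324fe553ec250e51 (k8 c4405 c4410 c4076 c4409 c4406 c4313 c1793 c5218 k0) (by decide +kernel)
def c5448 : PP 8 4 T 0x500200002002000080000000040000000000400002000000000000000000000000000 := rS 0x33146854593cab09439459ead339940013 (k8 c4401 c5028 c490 c4309 c944 c5447 c4405 c4410 (k8 c4076 c4406 c4297 c5443 c5444 c5445 c5322 c5446 k0)) (by decide +kernel)
def c5449 : PP 8 4 T 0x1001000000000000000000080080000000440000000100000000000000000000000 := rS 0x81a2a1550cc (k4 c989 c988 c1481 c4398 (k2 c1361 c4484 k0)) (by decide +kernel)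
def c5450 : PP 8 4 T 0x500000002002000000000000090000010050000002400005000001000000102000000 := rS 0x8ba4d84c5219d83c1d059ee329b608fca63b28915a2410025cb459 (k8 c4993 c4476 c4631 c5028 c4433 c4298 c4295 c4405 (k8 c4403 c4290 c4287 c1714 c868 c5015 c705 c4987 (k8 c759 c4466 c4152 c277 c1096 c2115 c1778 c4362 (k1 c4487 k0)))) (by decide +kernel)
def c5451 : PP 8 4 T 0x500000002002000082000000091020001050000002402001000001000000102000000 := rS 0x2ed7ac25bafd8a4347a6d82791bac4f69d04078161d4a01cb4b53895c724d1a92c7e531d9448a4f68904b200 (k8 c5028 c4993 c4433 c4298 c4297 c4295 c4405 c4403 (k8 c4290 c4287 c4375 c4373 c4282 c4279 c880 c585 (k8 c1707 c4476 c495 c5450 c763 c567 c4466 c4462 (k8 c1232 c1224 c1145 c233 c601 c1715 c865 c849 (k8 c237 c1787 c4566 c1747 c2115 c2069 c2061 c2114 k0))))) (by decide +kernel)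
def c5452 : PP 8 4 T 0x500000002002000082100000091020000054000042402001000001000000100000000 := rS 0x2dcdc5b2b2d52a1c5c87d20181c9246a470a8fd8e53098a4a21b6885c0097 (k8 c4631 c5028 c4431 c4298 c4291 c4405 c4402 c4401 (k8 c4290 c4289 c4287 c4283 c4374 c4373 c4281 c4279 (k8 c2109 c5451 c1153 c1205 c4466 c762 c1706 c5450 (k4 c38 c881 c1078 c4101 k0)))) (by decide +kernel)
def c5453 : PP 8 4 T 0x20011000000000000080000000010000020008000 := rS 0x1b450148d (k4 c1027 c759 c4551 c304 (k1 c4386 k0)) (by decide +kernel)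
def c5454 : PP 8 4 T 0x101000002002000000000000090020011000000042000080000001010000100008000 := rS 0x22cc249b14ec7921a743c1d3dc6536c11f94c765122b448297 (k8 c4631 c4433 c4298 c4295 c4405 c4403 c4290 c4287 (k8 c1714 c868 c5015 c705 c5453 c4466 c1232 c277 (k4 c601 c4482 c1095 c1778 (k2 c2115 c4487 (k1 c4362 k0))))) (by decide +kernel)
def c5455 : PP 8 4 T 0x501000002002000082000000091020001000000042002000000001000000101008000 := rS 0x176bd612dd7ec547a6d823721ac4f69d04078161d4a01cb4b53895c724d1a92c7e531d9448a4f68904b200 (k8 c5028 c4993 c4433 c4298 c4297 c4295 c4405 c4403 (k8 c4290 c4287 c4375 c4373 c4282 c4279 c880 c585 (k8 c1707 c4476 c495 c5454 c763 c567 c4466 c4462 (k8 c1232 c1224 c1145 c236 c233 c1715 c865 c849 (k4 c1787 c4566 c1747 c2115 (k2 c2069 c2061 (k1 c2114 k0))))))) (by decide +kernel)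
def c5456 : PP 8 4 T 0x500000002002000080100000010024042080000042002000000001000000100000000 := rS 0x2dcdc562d9e4ea9c8b4656a994a871269b5c87c72491a91c7ec714904b200 (k8 c5028 c4993 c4433 c4402 c4289 c4287 c4374 c4373 (k8 c4281 c4279 c1153 c1205 c2898 c1158 c4466 c762 (k8 c1031 c1706 c5015 c4487 c4488 c4417 c604 c969 (k4 c4476 c881 c1078 c4101 k0)))) (by decide +kernel)
def c5457 : PP 8 4 T 0x500200002002000082100000081024000000000002402000000001000000100000000 := rS 0x2ed7ac25bb157e4347a6d82791bac4f69d04078161d4a01cb4185a9c4ae91450e49a35258fca63b2293c828939c250e512c8015a674b838fa0d63954fe11248548e13 (k8 c4401 c4374 c4283 c4281 c4275 c4313 c4406 c4289 (k8 c4371 c4409 c2107 c4631 c4309 c944 c5028 c4993 (k8 c4405 c4410 c4076 c4408 c4314 c4433 c4297 c4295 (k8 c4403 c4290 c4287 c4375 c4373 c4282 c4279 c5452 (k8 c5456 c880 c585 c1707 c5455 c4476 c495 c5454 (k8 c763 c567 c4466 c4462 c1232 c1224 c1145 c233 (k8 c601 c1715 c865 c849 c237 c4566 c1787 c1747 (k4 c4503 c2069 c2061 c2114 k0))))))))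 (by decide +kernel)
def c5458 : PP 8 4 T 0x101000002002000000000000090000010000001400000080000001000000000000000 := rS 0x3dc653697 (k4 c4631 c868 c5015 c705 (k1 c4482 k0)) (by decide +kernel)
def c5459 : PP 8 4 T 0x400000000000000000002002000080001101000000420080000500000080000001000000000000000 := rS 0x5b3086c438c314f63f6394c765122b448317 (k8 c4418 c4433 c4298 c4295 c4405 c4403 c4290 c4289 (k8 c4287 c705 c1787 c4632 c4446 c5090 c2115 c4989 (k1 c1167 k0))) (by decide +kernel)
def c5460 : PP 8 4 T 0x400000000004000000002002000080001005001400800000000000000000000001000000200000000 := rS 0xbb522e04a37138e4924d118d48e4b1fb1c7633278bc621f (k8 c57 c1967 c4432 c4297 c4293 c4403 c4289 c4287 (k8 c4375 c4374 c4373 c4372 c4282 c4281 c4279 c4277 (k4 c4989 c312 c2113 c2111 (k2 c1478 c1970 k0)))) (by decide +kernel)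
def c5461 : PP 8 4 T 0x400000000004000000002002000080001001001400804000000000000000000001000000200000000 := rS 0xa512a356c3113934464b1993c5e1f (k8 c57 c4432 c4297 c4293 c4375 c4372 c4282 c4277 (k4 c1967 c5460 c1117 c313 (k2 c1971 c2111 k0))) (by decide +kernel)
def c5462 : PP 8 4 T 0x500200002002000080100000000000000000400002400000000001000000000000000 := rS 0xb71b30a308b629ed371749a517ab53a9dd8279488193a5a1031c664159a24e74356aa5410d66214c0a33fbf44e9f0a97c1a5d118ada211338b4ca0009a9d5ccf2ac250e51 (k8 c4405 c4410 c4076 c4406 c5447 c5448 c909 c4401 (k8 c5028 c490 c4285 c4309 c4275 c4298 c1774 c4372 (k8 c752 c4371 c488 c4283 c1780 c4277 c5206 c4313 (k8 c5449 c4520 c713 c5322 c5243 c5125 c977 c944 (k8 c5287 c4408 c4314 c4311 c4433 c4293 c4289 c5457 (k8 c830 c966 c831 c886 c601 c1715 c1023 c498 (k8 c1707 c4507 c5458 c73 c4418 c5461 c705 c1787 (k4 c5459 c4482 c2123 c5090 (k2 c1167 c4989 k0))))))))) (by decide +kernel)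
def c5463 : PP 8 4 T 0x500200002002000080100000000000000000400002400000000000000000000000000 := rS 0x232773c8dc0cb5059ed221d2d250e2574daf5260962ade2e3c071248ec714904fb432ca5d410d66214c0a33fbf44e9f0a97c1a5d118ada211338b4ca0009a9d5ccf2ac250e51 (k8 c4405 c4410 c4076 c4406 c5447 c5448 c909 c4401 (k8 c5028 c490 c4285 c4309 c4275 c4298 c1774 c4372 (k8 c752 c4371 c488 c4283 c1780 c4277 c5206 c4313 (k8 c5449 c4520 c713 c5322 c5243 c5125 c4631 c4993 (k8 c5287 c4409 c4433 c4402 c4289 c4374 c4281 c2107 (k8 c5462 c4416 c1742 c1782 c234 c3716 c2069 c869 (k8 c751 c1416 c4487 c4476 c762 c889 c705 c567 (k4 c1707 c4462 c4989 c2452 (k2 c1023 c5090 (k1 c4482 k0)))))))))) (by decide +kernel)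
def c5464 : PP 8 4 T 0x400000000000101000002002000080000000491420000015400042000000000001000000200000000 := rS 0x5b8d98518459ed8a9b8ba4d28bd5a9d4eec13ca440c9d2d09d8e1319905fa00 (k8 c5028 c5206 c4433 c4293 c4401 c4289 c4277 c830 (k8 c966 c831 c886 c601 c1715 c1023 c498 c1707 (k8 c4507 c5458 c73 c4418 c5461 c1787 c705 c5459 (k4 c4482 c2123 c5090 c1167 (k1 c4989 k0))))) (by decide +kernel)
def c5465 : PP 8 4 T 0x400000002002000082200000081020020000000002002000000001000000100000000 := rS 0xba5eb096ec55fa3d3643589ed82795a8213a9103878165a0e95c724d258fca6131d9448a4f68904b200 (k8 c5028 c4993 c4433 c4298 c4297 c4295 c4405 c4403 (k8 c4401 c4290 c4287 c4375 c4282 c4279 c2710 c763 (k8 c4476 c567 c4466 c495 c1153 c1232 c4462 c1707 (k8 c601 c1715 c1224 c1145 c237 c865 c849 c4566 (k4 c1787 c1747 c2115 c2069 (k2 c4616 c2061 k0)))))) (by decide +kernel)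
def c5466 : PP 8 4 T 0x110000000002000080000004000020051000000000000000000001000000100000000 := rS 0x8ba4d6a8f (k4 c850 c1706 c1738 c5245 (k1 c4487 k0)) (by decide +kernel)
def c5467 : PP 8 4 T 0x110001000002000080000000000020051000000040002010000001000000100000000 := rS 0x37c556cb12d1c4ae8f (k8 c850 c880 c585 c4476 c625 c5466 c4353 c1077 (k1 c4480 k0)) (by decide +kernel)
def c5468 : PP 8 4 T 0x40011000000000000000048000048001405110000000000002 := rS 0xb6 (k2 c4101 c1077 k0) (by decide +kernel)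
def c5469 : PP 8 4 T 0x400000000000511000002002000082200000490424000014400042002000000001000000000000000 := rS 0x37158b6713ac5926b9482d52a211c9246a471fb1dfa590025d5285 (k8 c713 c977 c4631 c5028 c4993 c5206 c4289 c4287 (k8 c4374 c4373 c4281 c4279 c5464 c5465 c1706 c5467 (k8 c1205 c1158 c4487 c4417 c586 c889 c4476 c881 (k1 c5468 k0)))) (by decide +kernel)
def c5470 : PP 8 4 T 0x500000002002000080000000000000000000400000500000000000000000000000000 := rS 0x232773c8dc0cb505ac4f61d2d250ae9b47af5260962ade2e3c64331408586981469f538ad2eae32974bead00164d811139241a230a8b58e1314b4482fd33accfe892a9ce128728d0d9f04 (k8 c5442 c5447 c5287 c4405 c4410 c4076 c4408 c4406 (k8 c4314 c4313 c4311 c4309 c5206 c4433 c4298 c4402 (k8 c4401 c4289 c4285 c4283 c4372 c4371 c4281 c4277 (k8 c4275 c4479 c4993 c5028 c944 c488 c752 c490 (k8 c5448 c4631 c1774 c909 c1780 c5449 c4520 c5243 (k8 c713 c5125 c5322 c5463 c5469 c4416 c1742 c1782 (k8 c234 c3716 c2069 c851 c869 c751 c4487 c4476 (k8 c762 c705 c625 c567 c1705 c4462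 c4989 c2452 (k2 c1023 c5090 (k1 c4482 k0)))))))))) (by decide +kernel)
def c5471 : PP 8 4 T 0x1000000000000000000000000000000000000000800000000000004200008000 := rS 0x12202 (k2 c1376 c886 (k1 c5407 k0)) (by decide +kernel)
def c5472 : PP 8 4 T 0x200002002000080100100000020000000000400800800000000000000010000000 := rS 0x8c1ec6e434e878421845808ca0e0889c920d238558e530994436456885dfa7f44954fa87 (k8 c4410 c4409 c4406 c4314 c4313 c5206 c4431 c4298 (k8 c4295 c4291 c4405 c4401 c4290 c4289 c4283 c4374 (k8 c4371 c4281 c4277 c4275 c2107 c1736 c1376 c564 (k8 c2109 c5471 c4466 c1232 c2132 c2130 c561 c4540 (k1 c5090 k0))))) (by decide +kernel)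
def c5473 : PP 8 4 T 0x400000000000000200002002000080000100080020020000000000800800000001000000000000000 := rS 0x8c9ec6e793a2d58a8a5b99190772b8762ec731c250e51 (k8 c4405 c4410 c4076 c4407 c4289 c4418 c763 c802 (k8 c1921 c5472 c546 c3677 c1776 c3729 c3638 c1696 (k4 c605 c4989 c2531 c5090 (k1 c4482 k0)))) (by decide +kernel)
def c5474 : PP 8 4 T 0x110001000002000080100000000020051000000000000800000001000000000008000 := rS 0x70461be2ab15b23c4227 (k8 c4277 c5471 c850 c5466 c545 c4353 c1078 c4486 (k2 c4480 c3369 k0)) (by decide +kernel)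
def c5475 : PP 8 4 T 0x510000002002000080100100000020450000000000900800000001000000000000000 := rS 0x2b270ee1c4c87d2018458840465070444e39248348e156394c26510db442efd3f954fa878cab51304 (k8 c5442 c4314 c2048 c5015 c4410 c4409 c4406 c4313 (k8 c5206 c4431 c4298 c4291 c4405 c4401 c4290 c4289 (k8 c4283 c4374 c4371 c4281 c4279 c4277 c4275 c2107 (k8 c1736 c1376 c5471 c564 c2109 c5474 c1153 c1159 (k4 c4466 c1920 c4488 c790 (k1 c4654 k0)))))) (by decide +kernel)
def c5476 : PP 8 4 T 0x500000002002000080000000080040000001400000100000000001000000000000000 := rS 0x1e1902160f4758b07126210f9dd388a32322329b4aaf6881126834961b199149e1784a1ca34336ab5569740978baa04fb3d4e637e9861a2b35224ab04 (k8 c5442 c4406 c4314 c5470 c5424 c5243 c620 c5206 (k8 c4407 c2008 c5447 c1780 c5125 c810 c4477 c1923 (k8 c4631 c82 c2048 c70 c5287 c4405 c4410 c4076 (k8 c4431 c4297 c4295 c4293 c4291 c4375 c4371 c4282 (k8 c4275 c4484 c4454 c5473 c868 c5015 c5475 c546 (k8 c1776 c5373 c1092 c1232 c966 c1239 c4466 c4487 (k4 c4417 c4632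 c560 c1026 (k2 c269 c265 (k1 c2108 k0))))))))) (by decide +kernel)
def c5477 : PP 8 4 T 0x200000002000080000000000000000002000000800000040000000000000000000 := rS 0x6483c22490691c2ac7099fcaa7d (k8 c4409 c4406 c4313 c4401 c4289 c4283 c4374 c4371 (k4 c4281 c4275 c1495 c2534 (k1 c2107 k0))) (by decide +kernel)
def c5478 : PP 8 4 T 0x500000002002000080000000080000000000400000100000000000000000000000000 := rS 0x464f2370c2d4f60f48a74ee202b874bc814a2f4ba1f498256f17500f21aa34fa5c2227249341a4b638a436330b98e8661538ad12a936bf598853513d9e5584a1e0851 (k8 c4405 c5442 c4410 c4076 c4406 c5447 c4297 c5470 (k8 c5477 c5322 c5206 c70 c5323 c4314 c5424 c2008 (k8 c620 c5287 c4407 c4431 c4293 c4291 c4402 c4289 (k8 c4375 c4371 c4282 c4281 c4277 c4275 c4631 c1780 (k8 c988 c5243 c5476 c5125 c4416 c1742 c234 c3716 (k8 c274 c810 c2069 c4487 c1923 c4477 c762 c802 (k8 c4466 c1921 c966 c886 c5471 c561 c1707 c2108 (k4 c4989 c1959 c5090 c4482 k0)))))))) (by decide +kernel)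
def c5479 : PP 8 4 T 0x280020000000000000000000000000000000000000 := rS 0x11cb8 (k2 c859 c858 (k1 c3451 k0)) (by decide +kernel)
def c5480 : PP 8 4 T 0x101000002002000000000000010000010000000000800000000001000000202000000 := rS 0x773cc64f64204a5d3a2d1982c6002 (k8 c1919 c1918 c2245 c4293 c4285 c966 c926 c2144 (k4 c316 c561 c5015 c1959 (k2 c1887 c4482 k0))) (by decide +kernel)
def c5481 : PP 8 4 T 0x400000000000000000000000000000000000008000900000000000000000004000411 := rS 0xea70b06d (k4 c70 c560 c4055 c1026 (k1 c4731 k0)) (by decide +kernel)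
def c5482 : PP 8 4 T 0x500000002002000000000000018001450000000000000000000001000000100000000 := rS 0xc121a6232c31f94c765122b4482c5 (k8 c1675 c4433 c4298 c4295 c4405 c4403 c4290 c4287 (k4 c1947 c5015 c4488 c1927 (k2 c1933 c2115 k0))) (by decide +kernel)
def c5483 : PP 8 4 T 0x400000000000500000002002000080000101018001411000000000000000000001000000100000000 := rS 0x266321c1badc3f174b0fd8e41 (k8 c4433 c4289 c4287 c5482 c4359 c1193 c1165 c4989 (k4 c4466 c5090 c1031 c4488 k0)) (by decide +kernel)
def c5484 : PP 8 4 T 0x401000000000000000000400001002000000204000901000000010000000100000008 := rS 0x5d9e0b28f3ba36326d (k8 c70 c4367 c1236 c1092 c970 c1234 c5310 c4637 (k1 c1962 k0)) (by decide +kernel)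
def c5485 : PP 8 4 T 0x500000002002000080000000000000000000400000100000000001000000000000000 := rS 0xe8c3609dcf2b6581bd20c54e88482b339d0d526d65af536bf5aa00b90d7e984be7f4aa91554b513310a4f67c255a7b058c004050c22d5e5109a1caa5368a2608150085cd41b (k8 c4291 c5470 c4431 c492 c4283 c5442 c4314 c4298 (k8 c4290 c4406 c4410 c4401 c4405 c5478 c565 c2109 (k8 c269 c1919 c1918 c2245 c5481 c2048 c4076 c5447 (k8 c4297 c5477 c5322 c5446 c4460 c4491 c1948 c5479 (k8 c4313 c1465 c620 c5206 c4385 c4477 c1341 c3412 (k8 c3443 c3882 c3854 c138 c70 c5323 c5287 c4408 (k8 c4311 c4433 c5480 c5484 c1675 c5483 c1076 c809 (k4 c939 c1963 c1151 c1748 (k2 c1167 c2123 (k1 c627 k0)))))))))) (by decide +kernel)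
def c5486 : PP 8 4 T 0x500000002002000080000000000000000000400000100000000000000000000000000 := rS 0xed19031e46e095bc5c787b05ad4600202af548185522d454b57b310aad009aa86cf248558e530986c9ed10b905125584a1e0851 (k8 c4405 c5442 c4410 c4076 c4406 c4314 c4433 c4431 (k8 c4298 c4297 c4291 c4401 c4290 c4289 c4283 c4281 (k8 c5447 c5287 c5470 c492 c2048 c5477 c5322 c5478 (k8 c4460 c5446 c565 c4491 c2109 c1948 c3854 c269 (k8 c1919 c1918 c3412 c2245 c5481 c5485 c4416 c1742 (k4 c234 c4989 c1959 c4462 (k2 c5090 c4482 (k1 c1023 k0)))))))) (by decide +kernel)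
def c5487 : PP 8 4 T 0x500000002002000080000000000000000000000000100000000000000000000000000 := rS 0x2b50a7d46a5572ad9665541815a6b4529cd819a2a1504872aa24cf04139249a23238545ac72984c52510d93da217 (k8 c4431 c4298 c4297 c4291 c4405 c4402 c4401 c4290 (k8 c4289 c4285 c4283 c4374 c4372 c4282 c4281 c4277 (k8 c5442 c4309 c4314 c4406 c4410 c5486 c128 c4452 (k8 c1998 c5430 c905 c2109 c70 c944 c640 c641 (k8 c2624 c1753 c1672 c5443 c1936 c936 c1510 c981 (k2 c1774 c4576 k0)))))) (by decide +kernel)
def c5488 : PP 8 4 T 0x400000000000000000002002000080001101001400024080000500000080000001000000200000000 := rS 0x13717 (k2 c4418 c5461 (k1 c5459 k0)) (by decide +kernel)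
def c5489 : PP 8 4 T 0x200001000002000080000002000000000000000014000080000000000000200000000 := rS 0x2856ea315a7d2227 (k8 c4277 c886 c4414 c4411 c4337 c106 c1707 c5275 k0) (by decide +kernel)
def c5490 : PP 8 4 T 0x400000000000201000002002000080000000481400020015400042000000000001000000200000000 := rS 0xd96f18611ed8a8b4dad57a713a9bceec13c8193a0d1ab1c263320bf527172d15c0059 (k8 c4993 c5028 c2710 c4476 c4418 c4413 c5206 c4433 (k8 c4293 c4401 c4289 c4373 c4371 c966 c831 c601 (k8 c1715 c1023 c1019 c498 c496 c4507 c5489 c5461 (k8 c5488 c1787 c705 c2123 c4482 c1167 c5090 c4989 k0)))) (by decide +kernel)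
def c5491 : PP 8 4 T 0x400000000000601000002002000082000000480400020014400042002000000001000000000000000 := rS 0x26175195eadd7e431ba3d367938ac4f69d488203c071082cb41d2b8e49a35259149e412c8015285 (k8 c713 c977 c5028 c4993 c4433 c4297 c4295 c4375 (k8 c4373 c4282 c4279 c2710 c763 c4476 c567 c5490 (k8 c495 c4466 c4462 c1153 c1232 c1224 c1145 c585 (k8 c601 c865 c849 c233 c237 c4566 c1747 c2069 (k4 c5090 c2114 c4488 c1931 k0))))) (by decide +kernel)
def c5492 : PP 8 4 T 0x400000000000201000002002000080001000000000400001400002000000000001000000200000000 := rS 0x16cc21b45c86c55ac617a71379dcf27b03274b40d1a8fd8e531d944664568905fa00 (k8 c5028 c5206 c4433 c4298 c4295 c4293 c4405 c4403 (k8 c4290 c4289 c4287 c4373 c4371 c830 c966 c831 (k8 c705 c601 c1023 c1019 c496 c4507 c4482 c5489 (k4 c4370 c4446 c4982 c5090 (k2 c2115 c4989 (k1 c1167 k0)))))) (by decide +kernel)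
def c5493 : PP 8 4 T 0x400000000020000000002002000080000105000000000000000000000000000001000000000000000 := rS 0xda2ec7 (k4 c4289 c4982 c5090 c4989 k0) (by decide +kernel)
def c5494 : PP 8 4 T 0x2002000080001501000000204000000000002000000001000000100000042 := rS 0x6ebb041c5840b62a44861d1c9346a4b1f94c76512293da241 (k8 c4433 c4298 c4297 c4295 c4405 c4403 c4290 c4287 (k8 c4375 c4373 c4282 c4279 c1031 c1927 c1159 c1135 (k4 c567 c2115 c585 c4462 (k2 c2061 c233 (k1 c2114 k0))))) (by decide +kernel)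
def c5495 : PP 8 4 T 0x400000000000400000002002000080001501000001404000000000002000000001000000100000042 := rS 0xc25b10d8b184c8fca63b28915a241 (k8 c4433 c4298 c4295 c4405 c4403 c4290 c4287 c5494 (k4 c4488 c4370 c4446 c5493 (k2 c2115 c1167 k0))) (by decide +kernel)
def c5496 : PP 8 4 T 0x400000000000401000002002000082001500000001404000005000002000000001000000100000042 := rS 0x1c122764c46574b4 (k8 c5495 c1437 c4449 c4488 c4482 c1159 c1891 c585 k0) (by decide +kernel)
def c5497 : PP 8 4 T 0x400000000000601000002002000082001000000401400000400002002000000001000000000000000 := rS 0x8f5829101455daf00e7b2d2fcf2577ea4e1a59002a44285 (k8 c713 c5492 c977 c5028 c4993 c4962 c4413 c5206 (k8 c960 c601 c4566 c4476 c705 c495 c5496 c108 (k4 c4454 c4484 c4490 c1899 (k2 c1429 c625 k0)))) (by decide +kernel)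
def c5498 : PP 8 4 T 0x40400000000000411000002002000080001001000002400415440002000081000000000000020000000 := rS 0x201760f8a0dd22b78b9b8e819451dc14b13c1ecae112683496c70d93c2efd004651a35 (k8 c4373 c1027 c4367 c5028 c5206 c4431 c4297 c4291 (k8 c4289 c4375 c4371 c4282 c4275 c38 c705 c969 (k8 c625 c759 c1091 c4987 c309 c4632 c4682 c4417 (k8 c4711 c1075 c4989 c4486 c304 c4390 c2108 c1962 k0)))) (by decide +kernel)
def c5499 : PP 8 4 T 0x600200002002000080000000080000000000400002000000000001000000000000000 := rS 0x5dafd2043041d8ac713c9ecb6b50e30d7a8f0fc6538214db052a39169148297599fd125539c250f432cd2d0aa76632d52602f97400230889cca0d0aa8e1a2b4f99c92476893496c728b3c9e53 (k8 c4290 c4297 c5447 c4405 c4289 c4375 c4282 c4298 (k8 c4374 c4281 c4333 c4414 c4411 c4962 c4337 c4283 (k8 c4371 c4412 c4277 c4275 c4372 c5028 c752 c488 (k8 c4519 c977 c1755 c2116 c909 c713 c4428 c4993 (k8 c5287 c4410 c4076 c4408 c4406 c4314 c4313 c4311 (k8 c4335 c4433 c4295 c4285 c4279 c5491 c1714 c868 (k8 c5492 c5497 c4367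 c1232 c970 c1174 c1213 c4466 (k8 c1438 c5498 c4270 c600 c584 c4476 c4482 c751 (k4 c4674 c880 c3094 c1891 (k1 c4617 k0)))))))))) (by decide +kernel)
def c5500 : PP 8 4 T 0x400000000004201000002002000080000104000000000000004002000000000000000000050000100 := rS 0xd96b18389bcee7903080160d1ab1c82fd2d15c0059 (k8 c4993 c5028 c751 c4476 c5206 c4433 c4289 c4373 (k8 c4371 c567 c4466 c4462 c2452 c1023 c1019 c496 (k4 c4482 c5489 c5090 c4989 k0))) (by decide +kernel)
def c5501 : PP 8 4 T 0x400000000024000000002000000082040004000000000000000000000000000000000000000000000 := rS 0x5a8d976bd (k4 c2069 c4449 c5090 c1437 (k1 c4989 k0)) (by decide +kernel)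
def c5502 : PP 8 4 T 0x600200002002000080000000080000000000400002000000000000000000000000000 := rS 0x309391960a652a1c3d968ae9b5e87c12c55bc5c78cc65d2c924d2392d8e531493da2414b956128728d0d9e5954980be5d0008c2227328342aa3868ad3e67 (k8 c4333 c4414 c4411 c4962 c4337 c4283 c4371 c4412 (k8 c4277 c4275 c4372 c5028 c752 c488 c4519 c977 (k8 c4993 c5447 c5287 c4405 c4410 c4076 c4406 c4335 (k8 c4433 c4298 c4297 c4402 c4290 c4289 c4375 c4374 (k8 c4282 c4281 c4428 c1755 c2116 c5499 c4416 c1742 (k8 c1782 c234 c274 c2069 c869 c751 c4476 c705 (k8 c5500 c762 c1031 c1714 c5501 c4488 c4494 c1213 k0))))))) (by decide +kernel)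
def c5503 : PP 8 4 T 0x400000000000601000002002000082000000000001000000400002002000000001002000200000000 := rS 0x1829b4c07d4e4d (k4 c4282 c2006 c57 c317 (k2 c1967 c3846 (k1 c5497 k0))) (by decide +kernel)
def c5504 : PP 8 4 T 0x400000002000000080000500000001400400000000000000000040040000000000000 := rS 0x133195d0e49a35259149e41 (k8 c4433 c4297 c4295 c4375 c4373 c4282 c4279 c2114 (k2 c5090 c1931 (k1 c4488 k0))) (by decide +kernel)
def c5505 : PP 8 4 T 0x400000000000601000002002000082000000040000020000400002002000000001000000000000000 := rS 0x5e3011e9b1b90d627b3882122070f0857e79059698a9d0e95c72452c8014e3019aaca2d1148bca62b16ab49acb (k8 c138 c4282 c4338 c4285 c4411 c4290 c4432 c4402 (k8 c4298 c4405 c4415 c4293 c2112 c2006 c5028 c4993 (k8 c4295 c4279 c2710 c763 c972 c1786 c4476 c567 (k8 c601 c1486 c5503 c4466 c495 c1153 c4462 c585 (k8 c1224 c1145 c237 c233 c865 c849 c5497 c5504 (k1 c2020 k0)))))) (by decide +kernel)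
def c5506 : PP 8 4 T 0x400000002000000000000000000000800000000002000000000000000000000000040 := rS 0x16093d0cc5e00 (k4 c5028 c4432 c4293 c865 (k2 c4153 c2686 (k1 c4462 k0))) (by decide +kernel)
def c5507 : PP 8 4 T 0x400000000000601000002002000082000000000001010000400002002000000001002000000000000 := rS 0x26632c04d81cb4212b9654e4d (k8 c4282 c2006 c4993 c960 c5503 c4476 c495 c5506 (k4 c5497 c4450 c1933 c4488 k0)) (by decide +kernel)
def c5508 : PP 8 4 T 0x40400000000000411000002002000080000001000002000415440002000081000000000000000000000 := rS 0x4586412c03d9e0ae152984ca21b6885d361c0f9144233 (k8 c4293 c966 c4295 c1232 c4466 c105 c4431 c4298 (k8 c4291 c4405 c4401 c4290 c4283 c38 c969 c705 (k4 c5498 c1057 c1959 c1713 (k1 c2109 k0)))) (by decide +kernel)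
def c5509 : PP 8 4 T 0x600200002002000080000000000002000000400002000000000000000000000000000 := rS 0xbb5fa4086083b158e2793d96d6abd47b0e3239259149e413fa26865954d2d9885538c15e3355b44522f298b55a4d3017cba00118444e6506855470d15a7ccecf2ac250e51 (k8 c4405 c4410 c4076 c4406 c5447 c4333 c4414 c4411 (k8 c4962 c4337 c4283 c4371 c4412 c4277 c4275 c4372 (k8 c5028 c752 c488 c4519 c4282 c4338 c4285 c4290 (k8 c4432 c4402 c4298 c4415 c4293 c5502 c2112 c2006 (k8 c713 c5322 c4460 c977 c4993 c5287 c4314 c4313 (k8 c4433 c4297 c4295 c4375 c4279 c4367 c1214 c970 (k8 c1174 c1438 c5508 c4270 c600 c584 c4476 c4482 (k4 c751 c4674 c880 c3094 (k2 c1891 c4617 k0))))))))) (by decide +kernel)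
def c5510 : PP 8 4 T 0x400000000000601000002002000082000000040001000000400002002000000001000000000000000 := rS 0x4a8c066ab28b44522f298ac5aad (k8 c4338 c4285 c4411 c4290 c4432 c4402 c4298 c4405 (k4 c4415 c4293 c2112 c5505 (k1 c5507 k0))) (by decide +kernel)
def c5511 : PP 8 4 T 0x400200002002000080000000000000000000400000500000000000000000000000000 := rS 0x74f6984dc657a1f04ade2e3c2d15d3acc42a9c60af30174be002cd0cd8cf84a1caa11139249a0d118545ac7298a4a233688bc826751ab456654faae1b10 (k8 c5487 c4962 c4415 c4414 c4412 c4411 c4338 c4337 (k8 c4333 c4433 c4432 c4298 c4293 c4405 c4402 c4290 (k8 c4289 c4285 c4283 c4372 c4371 c4282 c4281 c4277 (k8 c4275 c4406 c4410 c4076 c5447 c4479 c5287 c4993 (k8 c5028 c488 c752 c4519 c5502 c2112 c2006 c713 (k8 c5322 c5509 c960 c4476 c5510 c4416 c1742 c234 (k8 c274 c2069 c5501 c1967 c4488 c705 c1031 c5500 k0))))))) (by decide +kernel)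
def c5512 : PP 8 4 T 0x400101002000000080000000400001020000400002006000000001000000000040000 := rS 0xdf155e0dce28f4890d62bf0f02136210382ce81d1c8015279 (k8 c601 c977 c5028 c4279 c763 c5073 c567 c498 (k8 c831 c5506 c4462 c4466 c4566 c1145 c237 c1153 (k4 c849 c585 c273 c5504 (k2 c4354 c1080 (k1 c4480 k0))))) (by decide +kernel)
def c5513 : PP 8 4 T 0x400000000000601000002002000082001000000001400000400002000000000001000000000000000 := rS 0x14ead3017446fd2f8001b0d (k8 c4962 c4371 c5028 c488 c5206 c4372 c752 c4477 (k2 c4338 c2066 (k1 c5497 k0))) (by decide +kernel)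
def c5514 : PP 8 4 T 0x601100002002000088000000080000000000400002000000000000000000000000000 := rS 0x210f8a6649248e2d638cc9ea315a7cfe602e88dfa5f06c34aad14552d12674398c0029 (k8 c4402 c5028 c754 c1632 c4333 c680 c4428 c4485 (k8 c4298 c4151 c4962 c4371 c488 c5206 c4372 c752 (k8 c4477 c672 c4414 c4411 c4337 c4297 c4293 c4289 (k8 c4285 c4374 c4281 c1793 c4579 c5309 c905 c1502 k0)))) (by decide +kernel)
def c5515 : PP 8 4 T 0x601100002002000080000000080001000000400002000000000001000000000000000 := rS 0x4da558213599652e67318a686cc679248ed12692d8e5165aa4c05d11bf4be0006c349e53 (k8 c4290 c4297 c4962 c4371 c5028 c488 c5206 c4372 (k8 c752 c4477 c977 c1755 c4405 c4289 c4375 c4282 (k8 c4298 c4374 c4281 c5514 c2116 c5287 c4402 c754 (k8 c4333 c4335 c4993 c5025 c4401 c1715 c5512 c868 (k1 c5513 k0))))) (by decide +kernel)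
def c5516 : PP 8 4 T 0x601100002002000080000000080000000000400002000000000001000000000000000 := rS 0x375dafd2043371d8ac713c9ec165b5ab0d7a8f8ca1538cc6450d9e5565a1e9639249346a4725b1ca6512293da2414b9651263149fccea93017446fd2f8001b0d (k8 c4962 c4371 c5028 c488 c5206 c4372 c752 c4477 (k8 c977 c4333 c672 c4402 c754 c680 c4993 c4335 (k8 c4433 c4298 c4297 c4295 c4405 c4290 c4289 c4375 (k8 c4374 c4373 c4282 c4281 c4279 c4428 c1632 c1755 (k8 c4151 c5514 c5287 c5359 c2116 c5515 c717 c4367 (k8 c970 c1174 c1213 c1438 c5508 c566 c4270 c600 (k8 c584 c4476 c4482 c881 c4674 c880 c3094 c1891 (k2 c1344 c2114 k0)))))))) (by decide +kernel)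
def c5517 : PP 8 4 T 0x410000000000000000800000005400000000000000000000000000000000000000000 := rS 0x14b45 (k2 c4455 c1940 (k1 c4490 k0)) (by decide +kernel)
def c5518 : PP 8 4 T 0x601100002002000080000000000000000000400002000000000001000000000000000 := rS 0x6ebb5fa40866e3b158e2793d82cb6b55ea3d87194e52d988765955914342b3d4e30578e4924d1a91c962d6394c5251199149ed11790546ad15a7d5659449fccea93017446fd2f8001b0d (k8 c4962 c4371 c5028 c488 c5206 c4372 c752 c4477 (k8 c977 c4333 c672 c680 c4993 c4415 c4414 c4411 (k8 c4338 c4337 c4433 c4432 c4298 c4297 c4295 c4293 (k8 c4405 c4402 c4290 c4289 c4285 c4375 c4374 c4373 (k8 c4282 c4281 c4279 c5516 c2112 c2006 c4579 c713 (k8 c5287 c5359 c1726 c5517 c1732 c2116 c4460 c5510 (k8 c4367 c1214 c970 c1174 c1438 c5508 c566 c4270 (k8 c600 c584 c4476 c4482 c881 c4674 c880 c3094 (k2 c1891 c1344 (k1 c2114 k0)))))))))) (by decide +kernel)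
def c5519 : PP 8 4 T 0x601100002002000080000000080000000000400002000000000000000000000000000 := rS 0x1301c4e884b4072b9d23279049ce86cc4515536cf65a1e964d2392d8e53099449e4144accb2973398c52a93017446fd2f8001b0d8badc92c56887c782b (k8 c4411 c5518 c274 c4298 c1782 c4281 c1742 c4416 (k8 c4962 c4371 c5028 c488 c5206 c4372 c752 c4477 (k8 c977 c4402 c754 c4333 c4335 c4993 c5025 c680 (k8 c4433 c4297 c4405 c4401 c4290 c4289 c4375 c4374 (k8 c4282 c4428 c1632 c1755 c5514 c869 c4151 c4485 (k8 c2116 c5287 c1614 c234 c605 c5501 c4481 c751 (k4 c498 c4476 c831 c969 (k2 c4466 c4488 (k1 c1031 k0))))))))) (by decide +kernel)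
def c5520 : PP 8 4 T 0x401000002002000080000000000000000000400000500000000000000000000000000 := rS 0x4c0713a212d01cae793a026328a3995598876450d968567a6d4e305787d8ab78b8f1527f30174beb344800b26c249341a232392c5ac72984c52511993da22f20bf4ce9751ab4569f55c362105 (k8 c5511 c5487 c4962 c4415 c4414 c4411 c4338 c4337 (k8 c4335 c4333 c5206 c4433 c4432 c4298 c4297 c4293 (k8 c4405 c4402 c4401 c4290 c4289 c4285 c4375 c4374 (k8 c4372 c4371 c4282 c4281 c4479 c4993 c5028 c680 (k8 c5025 c488 c752 c4477 c672 c977 c5518 c4416 (k8 c1742 c1782 c274 c5519 c2112 c2006 c1967 c4579 (k8 c713 c5517 c5287 c5359 c1732 c2116 c1726 c3658 (k8 c5327 c5501 c234 c4481 c605 c751 c498 c4476 (k4 c831 c969 c4466 c4488 (k1 c1031 k0)))))))))) (by decide +kernel)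
def c5521 : PP 8 4 T 0x400000000000002100002002000082000000000000000000400000000000000000000000000000000 := rS 0xaa89641f59ecb24bf5027f428650ec7 (k8 c4289 c4440 c4436 c4321 c5339 c4439 c5206 c4281 (k4 c138 c169 c1357 c5401 (k2 c4529 c1726 (k1 c5422 k0)))) (by decide +kernel)
def c5522 : PP 8 4 T 0x2000002002000000200000000000000000400000000000001000000000000000000 := rS 0xaa89 (k2 c636 c1726 (k1 c5422 k0)) (by decide +kernel)
def c5523 : PP 8 4 T 0x400000000000400000002002000080000000080000000000400000500000000000000000000000000 := rS 0x6200280c0a62fb38f8cd1191c5a291993dfaa315a7e21053fa14328763b261049 (k8 c4281 c5520 c5522 c4289 c4440 c4436 c4321 c5339 (k8 c5511 c5487 c4414 c4411 c4337 c5206 c4297 c4293 (k8 c4402 c4285 c4374 c4372 c5521 c4483 c5392 c1379 (k4 c4579 c4532 c908 c5402 (k2 c1624 c754 k0))))) (by decide +kernel)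
def c5524 : PP 8 4 T 0x400000002002000080000000080000000000400000500000000000000000000000000 := rS 0x53b3943422488c8e2d638a4664f518ad3f10 (k8 c5487 c4414 c4411 c4337 c4297 c4293 c4402 c4289 (k8 c4285 c4374 c4372 c4281 c5523 c4423 c5287 c908 (k1 c4579 k0))) (by decide +kernel)
def c5525 : PP 8 4 T 0x400000002002000080000000000000000000400000500000000000000000000000000 := rS 0x6650d9ea7182bd927f438650b08829249a23238b58e5314944664f688bd46ad15a7d5710 (k8 c5487 c4415 c4414 c4411 c4338 c4337 c4432 c4298 (k8 c4297 c4293 c4405 c4402 c4290 c4289 c4285 c4374 (k8 c4372 c4282 c4281 c5511 c5520 c4321 c4436 c4440 (k8 c5339 c5522 c5524 c2112 c2006 c4579 c5287 c5392 (k1 c5521 k0))))) (by decide +kernel)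
def c5526 : PP 8 4 T 0x80000000002000012000009 := rS 0x1020 (k2 c5066 c839 (k1 c2144 k0)) (by decide +kernel)
def c5527 : PP 8 4 T 0x80000000002000002000009 := rS 0x1d (k2 c758 c5526 k0) (by decide +kernel)
def c5528 : PP 8 4 T 0x10401000000000000000000000000001400000004000900040000010000000000000408 := rS 0x40562c9d8f298 (k4 c4488 c1929 c4482 c1112 (k2 c1921 c5310 (k1 c799 k0))) (by decide +kernel)
def c5529 : PP 8 4 T 0x1001000000000000000200000000000001400000800000000000000000000000000 := rS 0x10345 (k2 c4454 c3833 (k1 c4484 k0)) (by decide +kernel)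
def c5530 : PP 8 4 T 0x1000002000000000000000000002000000004000800000000000000000002000000 := rS 0x4070f0210f9de3233229b40217 (k8 c4431 c492 c70 c4295 c4293 c4367 c1092 c1232 (k4 c966 c4482 c4466 c1959 (k1 c1058 k0))) (by decide +kernel)
def c5531 : PP 8 4 T 0x400000000000000000000000000000040001000000000000000000000000001002080000000000000 := rS 0x16f17 (k2 c4416 c1742 (k1 c4989 k0)) (by decide +kernel)
def c5532 : PP 8 4 T 0x401200002002000080000000000000000000400000100000000000000000000000000 := rS 0x16cc2608f56a365d90d8b184eaf4b67b05a6c04056606060852aa242a3f2984c76510d915a2417e9b40217459950eaba1b3d4e6a15a7c9ec723a8e202d118cc9229 (k8 c4402 c4281 c4293 c4372 c4285 c5487 c4337 c4374 (k8 c4289 c4297 c4414 c4411 c5525 c2008 c4579 c5287 (k8 c4415 c1924 c4412 c564 c4431 c492 c70 c5206 (k8 c4433 c4298 c4295 c4291 c4405 c4403 c4401 c4290 (k8 c4287 c4283 c4314 c4406 c5477 c4092 c2109 c5322 (k8 c269 c1919 c3875 c2245 c5481 c5527 c5529 c5530 (k8 c5528 c4370 c4446 c4449 c5090 c1437 c5531 c4450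 (k2 c2115 c5493 (k1 c1167 k0))))))))) (by decide +kernel)
def c5533 : PP 8 4 T 0x10401000002000000080000500000001000000200000800000000000000000000008020 := rS 0x375d82016760387886790ea60724d1a92c8a4f20a6c427b (k8 c561 c2255 c3876 c4433 c4297 c4295 c4375 c4373 (k8 c4282 c4279 c4488 c1031 c3842 c1927 c4466 c527 (k4 c4482 c2199 c4462 c3830 (k2 c2187 c2114 k0)))) (by decide +kernel)
def c5534 : PP 8 4 T 0x400000000020000000002002000082001100000000000000000000000000000001000000000000000 := rS 0xb66145c86c51fb1ca63b28915a241 (k8 c4433 c4298 c4295 c4405 c4403 c4290 c4289 c4287 (k4 c4370 c4446 c4982 c2115 (k2 c5501 c1167 k0))) (by decide +kernel)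
def c5535 : PP 8 4 T 0x200000000000000000000401000010010520048000800400000000000000000000000 := rS 0x172b748b1164584ba8d269f (k8 c4414 c4413 c4337 c4335 c560 c682 c683 c1156 (k2 c1164 c1254 (k1 c2125 k0))) (by decide +kernel)
def c5536 : PP 8 4 T 0x401000002002000082000000000000000000400000100000000001000000000000000 := rS 0x5d9e0f6b546a55868f3ba72320e0209142bf60970be7c3fa0192195ea210aa9a589ca6fd4b9b4c28b32a1d574367a9cd42b4f93d8e4751c405a23199245305 (k8 c5532 c4402 c4281 c4293 c4372 c4285 c5487 c4337 (k8 c4374 c4289 c4297 c4414 c4411 c5525 c2008 c4579 (k8 c5287 c4415 c1924 c4412 c564 c620 c70 c4335 (k8 c5206 c4290 c4277 c4460 c1483 c1482 c4485 c5529 (k8 c2038 c636 c5340 c5339 c4483 c1382 c1923 c3892 (k8 c3339 c1625 c2110 c1336 c1335 c5534 c5533 c1092 (k8 c970 c1213 c973 c1236 c1438 c5535 c4482 c4637 (k1 c1962 k0)))))))) (by decide +kernel)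
def c5537 : PP 8 4 T 0x601100000002000080800000000400000044400000000000040000000000000000000 := rS 0x2ba94a0542254b4513924464716b1c52a315a7d570d (k8 c4962 c4415 c4414 c4411 c4337 c4402 c4289 c4285 (k8 c4374 c4372 c4281 c4277 c4455 c1940 c2024 c5517 (k4 c4576 c4485 c980 c4428 k0))) (by decide +kernel)
def c5538 : PP 8 4 T 0x401000002002000080000000000000000000400000100000000000000000000000000 := rS 0x38089d1230942c12e2fe328064b156f175ea207885a5b31970513934965328b45fa97459950eaba1b3d4e6a15a7c9ec723a8e202d118cc9229 (k8 c4402 c4281 c4293 c4372 c4285 c5487 c4337 c4374 (k8 c4289 c4297 c4414 c4411 c5525 c2008 c4579 c5287 (k8 c4415 c1924 c4412 c564 c4335 c5206 c4298 c4405 (k8 c4290 c4375 c4282 c4277 c5532 c5537 c2116 c4460 (k8 c1482 c5536 c4485 c5529 c4416 c1742 c1782 c636 (k8 c5340 c5501 c1486 c1923 c3892 c811 c4494 c2110 (k4 c1213 c1336 c1335 c5533 k0))))))) (by decide +kernel)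
def c5539 : PP 8 4 T 0x400000002002000080000000000000000000400000100000000000000000000000000 := rS 0xfecd64c1432858450d9e87539a89223238b58e29288cc9ea315a7d5710 (k8 c5487 c4415 c4414 c4411 c4337 c4297 c4293 c4405 (k8 c4402 c4289 c4285 c4374 c4372 c4281 c5525 c2008 (k8 c1924 c4579 c5287 c5538 c4321 c4436 c4076 c5522 (k2 c5521 c5339 (k1 c5392 k0))))) (by decide +kernel)
def c5540 : PP 8 4 T 0x401000002002000080000000000000000000000000500000000000000000000000000 := rS 0x54a5a1d5c7d45a819e6353aa112003609c9223238545ac72984c52510d8cc9ed10b99d462b4fc410b450c9354a82 (k8 c5539 c1936 c4282 c1998 c4452 c128 c5487 c4414 (k8 c4411 c4337 c4333 c4431 c4298 c4297 c4293 c4291 (k8 c4405 c4402 c4401 c4290 c4289 c4285 c4283 c4374 (k8 c4372 c4281 c4277 c4479 c5028 c680 c641 c905 (k8 c754 c4579 c4576 c645 c1624 c980 c2005 c4428 (k2 c2109 c4151 k0)))))) (by decide +kernel)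
def c5541 : PP 8 4 T 0x1000000000000410000000000000002000000010140000000000000000000000000000000000000000 := rS 0x14ea9 (k2 c1483 c2066 (k1 c4490 k0)) (by decide +kernel)
def c5542 : PP 8 4 T 0x400000000000400000002002000080000000000000000010000000500000000000000000000000000 := rS 0x63500015c6018a98f8ce649fca8492688c8e2d6394c523327b445efd15a7d565f82a1e105166a968a8286ab54710 (k8 c5487 c4337 c4338 c4962 c5539 c4452 c1936 c5541 (k8 c4405 c5540 c4440 c4076 c548 c4415 c4414 c4411 (k8 c5206 c4432 c4298 c4297 c4293 c4402 c4290 c4289 (k8 c4285 c4374 c4372 c4282 c4281 c5422 c5278 c1726 (k8 c5392 c4483 c4579 c2006 c4532 c2112 c5402 c908 (k2 c754 c1624 k0)))))) (by decide +kernel)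
def c5543 : PP 8 4 T 0x400000002002000080000000000000000000080000500000000000000000000000000 := rS 0x29cba612488c8e2d638a466fd33a8c569f88294be82 (k8 c5539 c548 c1936 c5487 c4414 c4411 c4337 c4333 (k8 c5206 c4293 c4402 c4289 c4285 c4374 c4372 c4281 (k4 c672 c1457 c4532 c4582 k0))) (by decide +kernel)
def c5544 : PP 8 4 T 0x400000000000400000002002000080000000000000000000000000500000000000000000000000000 := rS 0x63500015c6018a98f8ce64a20924d1191c5ac7298a4664f688bdfa2b4faacbf0543c20a2cd52d15050d56a8e207f (k8 c5543 c5487 c4337 c4338 c4962 c5539 c4452 c1936 (k8 c5541 c4405 c5540 c4440 c4076 c548 c4415 c4414 (k8 c4411 c5206 c4432 c4298 c4297 c4293 c4402 c4290 (k8 c4289 c4285 c4374 c4372 c4282 c4281 c5542 c637 (k8 c5392 c4483 c4579 c2006 c4532 c2112 c5402 c908 (k2 c754 c1624 k0)))))) (by decide +kernel)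
def c5545 : PP 8 4 T 0x400000002002000080000000000000000000000000500000000000000000000000000 := rS 0x578c54ca1a12944e492688c8e2d6394c52511993da22f51ab4569f55c428a82 (k8 c5539 c4452 c5487 c4415 c4414 c4411 c4338 c4337 (k8 c4432 c4298 c4297 c4293 c4405 c4402 c4290 c4289 (k8 c4285 c4374 c4372 c4282 c4281 c4277 c1936 c5544 (k4 c4423 c4576 c2006 c908 (k1 c2112 k0))))) (by decide +kernel)
def c5546 : PP 8 4 T 0x200002002000000000000000000000044000000000000000000000000001000000 := rS 0x5544854a6132886da217 (k8 c4431 c4298 c4291 c4405 c4401 c4290 c4283 c4314 (k2 c4406 c2109 k0)) (by decide +kernel)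
def c5547 : PP 8 4 T 0x1000002002000080000000000000000054800000000000000000000000000000000 := rS 0x2a1fc2a530994436d10bc14324d (k8 c4282 c1998 c5546 c4431 c4298 c4291 c4405 c4401 (k4 c4290 c4283 c676 c2109 (k1 c5316 k0))) (by decide +kernel)
def c5548 : PP 8 4 T 0x400000002002000080000000000000000000080000100000000000000000000000000 := rS 0x30532bcba492688c8e2d6394c525119b445ea3568ad3eab882154a61009a82e82 (k8 c5539 c4431 c5545 c492 c5402 c1937 c128 c5487 (k8 c4415 c4414 c4411 c4338 c4337 c4432 c4298 c4293 (k8 c4405 c4402 c4290 c4289 c4285 c4374 c4372 c4282 (k4 c4281 c1457 c5352 c4582 (k2 c2112 c2006 k0))))) (by decide +kernel)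
def c5549 : PP 8 4 T 0x400000002002000080100000000000000000000000100000000000000000000000000 := rS 0x62af533389223238b58e5314944664f688bc569f66a94c2010bd161aad51c150eab459a8cb100ca089a7f (k8 c5548 c4282 c5539 c1998 c5487 c4412 c5545 c564 (k8 c4415 c1924 c5546 c4337 c4338 c4962 c4452 c4431 (k8 c492 c5402 c1937 c5541 c4414 c4411 c4432 c4298 (k8 c4297 c4293 c4405 c4402 c4290 c4289 c4285 c4374 (k4 c4372 c4281 c5392 c4579 (k2 c5345 c2006 (k1 c2112 k0))))))) (by decide +kernel)
def c5550 : PP 8 4 T 0x400000002002000080000000000000000000000000100000000000000000000000000 := rS 0x4495590cd529850e8b009a8334541435566556a8e204926854a6132886da217 (k8 c4431 c4298 c4291 c4405 c4401 c4290 c4283 c4282 (k8 c4281 c5487 c4337 c4338 c4412 c4415 c4962 c5539 (k8 c4452 c1998 c5545 c492 c564 c1924 c5402 c1937 (k4 c5541 c5549 c1726 c637 (k1 c2109 k0))))) (by decide +kernel)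
def c5551 : PP 8 4 T 0x400000000000510000000000000002000000040444000000000000000000000000000000000000000 := rS 0x140ac (k2 c5446 c4489 (k1 c900 k0)) (by decide +kernel)
def c5552 : PP 8 4 T 0x10400000002000000000000000000001000000008000200000000000002000000000000 := rS 0x1d4d02cb6990d9b4022f (k8 c4432 c756 c44 c4291 c1132 c704 c702 c4488 (k2 c764 c4719 k0)) (by decide +kernel)
def c5553 : PP 8 4 T 0x200000000000200000000010002000000000001 := rS 0x59603a03358840818 (k8 c1878 c1879 c2257 c43 c229 c1031 c1881 c535 (k1 c4726 k0)) (by decide +kernel)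
def c5554 : PP 8 4 T 0x10400000002000000000000000000001000000000000200000000000002000000000000 := rS 0x764d1ee12794c8045e41 (k8 c4433 c4432 c756 c5553 c3864 c4437 c5552 c4488 (k2 c4482 c3799 k0)) (by decide +kernel)
def c5555 : PP 8 4 T 0x400000000020000000002002000082000100000000000000000000000000000000000000000000000 := rS 0xf06c4963b056abb (k8 c4449 c1437 c4450 c4289 c4281 c5090 c5534 c5531 k0) (by decide +kernel)
def c5556 : PP 8 4 T 0x410000000000000002000200010040000000000000200000000000000000000000000 := rS 0x14b45 (k2 c4454 c3791 (k1 c5541 k0)) (by decide +kernel)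
def c5557 : PP 8 4 T 0x400000000000400000002002000082000000054040000000000000000000000000000040000000000 := rS 0x70482cac1f3ba7232bd0206006301694c525119915a22f359b4d10d (k8 c5243 c5550 c44 c43 c4432 c4298 c4295 c4293 (k8 c4405 c4402 c4290 c4285 c2112 c229 c1878 c1879 (k8 c5556 c5555 c5554 c1092 c1232 c824 c309 c262 (k2 c1018 c4462 k0)))) (by decide +kernel)
def c5558 : PP 8 4 T 0x1001000000000000000000000800000001400000001000000000000000000000000 := rS 0x10345 (k2 c4453 c1897 (k1 c4484 k0)) (by decide +kernel)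
def c5559 : PP 8 4 T 0x400000000000400000002002000082000000044444000000000000000000000000000040000000000 := rS 0x441590d (k4 c5243 c5557 c5551 c4338 k0) (by decide +kernel)
def c5560 : PP 8 4 T 0x400000000000400000002002000082000000044444000000000000000000000000000000000000000 := rS 0xc618ac888a8a6a9 (k8 c1484 c4290 c5559 c4411 c5446 c5551 c2046 c5264 k0) (by decide +kernel)
def c5561 : PP 8 4 T 0x1000000000000000000000600800000201000000840000000000000000000000 := rS 0x8a9bce2b15d15cee91 (k8 c892 c1889 c805 c1970 c545 c1422 c1378 c4390 (k1 c4480 k0)) (by decide +kernel)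
def c5562 : PP 8 4 T 0x10400000002000000080000500000001400400000000000000000000001000100000008 := rS 0x3e1d1b2608641 (k4 c4433 c4567 c4488 c5504 (k2 c1031 c2130 (k1 c4466 k0))) (by decide +kernel)
def c5563 : PP 8 4 T 0x400000000000400000002002000082000000040408000000050000000001000000000000000000000 := rS 0xdd723d5ac5d88c34b27136b72dc6404213ca017a31071791ebf522b1925d868444e39248346a470a8fd8e53098eda2fd30804d02f (k8 c4432 c5550 c756 c5402 c5206 c4298 c4403 c4401 (k8 c4290 c4289 c4287 c4283 c4374 c4373 c4371 c4281 (k8 c4279 c4277 c4275 c4384 c3326 c1665 c1398 c1397 (k8 c3376 c3405 c4477 c2107 c2046 c3791 c1882 c3865 (k8 c5471 c1376 c5555 c838 c5142 c5561 c5562 c946 (k8 c1214 c947 c4359 c1438 c1782 c1254 c4989 c2113 k0)))))) (by decide +kernel)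
def c5564 : PP 8 4 T 0x400200002002000082000000004000000000400000000000000000000000000000000 := rS 0x2944aa24fa9d0aa91388c96c7298cc9efd84984022f3f954faaf319a286cf (k8 c5447 c5287 c5550 c4407 c828 c4409 c4406 c4313 (k8 c4432 c756 c5402 c4437 c5206 c4297 c4293 c4290 (k8 c4289 c4375 c4372 c4277 c1484 c1481 c5558 c5563 (k4 c5560 c1463 c1470 c4525 k0)))) (by decide +kernel)
def c5565 : PP 8 4 T 0x41000000000000400000002002000080a00000004140000000000000004000000000000000000000000 := rS 0x1405c5397c610d328ae20ad139249a23238b58e5314944664f68bf4c20117abcd09f (k8 c1668 c5550 c828 c4432 c756 c5402 c5206 c4298 (k8 c4297 c4293 c4405 c4402 c4290 c4289 c4285 c4374 (k8 c4372 c4282 c4281 c4277 c2027 c4491 c4411 c4412 (k4 c4962 c2112 c546 c2006 (k2 c4477 c4576 (k1 c810 k0)))))) (by decide +kernel)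
def c5566 : PP 8 4 T 0x400200002002000080000000000000000004400000000000000000000000000000000 := rS 0x2ec3552315617e22a2a5b21140f52d15948466abd9e7d31954fe11249341a47258558e53099449ed17e9b61261008bd5668 (k8 c5550 c1884 c4432 c756 c5402 c4437 c44 c5206 (k8 c4298 c4297 c4405 c4401 c4290 c4289 c4283 c4375 (k8 c4374 c4371 c4282 c4281 c4275 c4313 c4406 c4407 (k8 c4409 c5447 c828 c5564 c5322 c2116 c4397 c1402 (k8 c1495 c5444 c2107 c4427 c5565 c4337 c1465 c4491 (k4 c2046 c949 c5264 c1497 (k1 c4477 k0))))))) (by decide +kernel)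
def c5567 : PP 8 4 T 0x80000800000000000000000000000000000000008020 := rS 0x2c12070f15c3a21 (k8 c2255 c2732 c2786 c4466 c527 c263 c2199 c4462 k0) (by decide +kernel)
def c5568 : PP 8 4 T 0x200000000000200000000010000000100000005 := rS 0x2cb01d (k4 c1031 c1881 c535 c4726 k0) (by decide +kernel)
def c5569 : PP 8 4 T 0x10400000002000000000200000080000000000000000200000000000000002000000000 := rS 0x1c16092b1e938774c9e5362102038061b22904db09008bcb65f329acb862 (k8 c828 c1729 c43 c1777 c546 c2844 c4432 c756 (k8 c4437 c44 c4433 c4295 c4291 c225 c1335 c1336 (k8 c2255 c5567 c1960 c5568 c4703 c4488 c4482 c824 (k4 c1224 c702 c1018 c4462 k0)))) (by decide +kernel)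
def c5570 : PP 8 4 T 0x400100002002000082000000080000000000440000000000000000000000000000000 := rS 0x382416560f9dd38990c00c600412a94be856409c9a23258cc8a4f209b4022f329acb6a767a2553195ec3456d156a8cd143 (k8 c4395 c5550 c2820 c163 c4298 c1774 c5243 c5556 (k8 c5555 c1483 c2040 c169 c909 c2844 c43 c1777 (k8 c4432 c756 c44 c4433 c4297 c4295 c4293 c4375 (k8 c4372 c4282 c4277 c5359 c1481 c546 c1883 c5569 (k8 c4524 c2111 c29 c1878 c5553 c5554 c4703 c1232 (k4 c824 c309 c262 c1018 (k1 c4462 k0))))))) (by decide +kernel)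
def c5571 : PP 8 4 T 0x400100002002000082000000080000000000400000000000000000000000000000000 := rS 0x52d15087e868ad468a56b44da68 (k8 c5550 c44 c4298 c163 c829 c2820 c1774 c5243 (k4 c5570 c724 c4397 c1402 (k1 c5541 k0))) (by decide +kernel)
def c5572 : PP 8 4 T 0x100002002000082000000000008000000400000200000000000000000000000000 := rS 0x8852324fe67308045ecf (k8 c169 c4432 c756 c5402 c5084 c1394 c1665 c1397 (k2 c5359 c3950 k0)) (by decide +kernel)
def c5573 : PP 8 4 T 0x400000002002000082000000044404000000000000000000000000000000000000000 := rS 0xa512a884e2325b1ca633278be86a9 (k8 c1484 c4395 c4432 c4297 c4293 c4290 c4289 c4375 (k4 c4372 c4277 c5560 c1463 (k2 c1470 c4525 k0))) (by decide +kernel)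
def c5574 : PP 8 4 T 0x400000002002000082000000000000000004400000000000000000000000000000000 := rS 0x321f912845628d4c9f57b3d96fd8499cc20117aacd105 (k8 c5566 c5550 c1884 c4432 c756 c5402 c5084 c4437 (k8 c5206 c138 c169 c5571 c5572 c5573 c941 c2066 (k4 c5558 c685 c1481 c4903 (k1 c555 k0)))) (by decide +kernel)
def c5575 : PP 8 4 T 0x400000002002000080000000080000000004400000000000000000000000000000000 := rS 0x843e29992ce4f9fcaacb15a8d1462249344647258b58e5314944664f68bf61261009a05ecd (k8 c5574 c4432 c5550 c756 c5402 c4437 c5206 c4298 (k8 c4297 c4293 c4405 c4402 c4290 c4289 c4285 c4375 (k8 c4374 c4372 c4282 c4281 c828 c829 c2820 c1774 (k8 c3684 c1766 c725 c3706 c2116 c1793 c4579 c5218 (k2 c5558 c1502 k0))))) (by decide +kernel)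
def c5576 : PP 8 4 T 0x400000002002000080a00000044040000002000000000000000000000000000000000 := rS 0x63a5a2a8aa5 (k4 c1940 c4455 c716 c4427 (k2 c1768 c5565 k0)) (by decide +kernel)
def c5577 : PP 8 4 T 0x20000000002002000000014000000000000000000000000000000001000000000000000 := rS 0xc1218fca63b28915a241 (k8 c4433 c4298 c4295 c4405 c4403 c4290 c4287 c4446 (k2 c4450 c2115 k0)) (by decide +kernel)
def c5578 : PP 8 4 T 0x400000002002000084000000000440000004400000000000000000000000000000000 := rS 0x1c12560fa72320b1e9500630150104b0c61b14c4a988d28ca5d459f9928444a068aca249348e4b6394ca24527b45fb09338045eab344159aaf (k8 c5575 c5574 c5566 c5550 c1884 c4432 c756 c5084 (k8 c4437 c5206 c4298 c4297 c4295 c4405 c4290 c4289 (k8 c4375 c4374 c4282 c4281 c2116 c4455 c1900 c2024 (k8 c4484 c5576 c5359 c1752 c1457 c555 c4485 c5537 (k8 c826 c4478 c4429 c4459 c5517 c4381 c5130 c5243 (k8 c5264 c29 c1606 c5433 c306 c5577 c5554 c1232 (k4 c824 c262 c1018 c4462 k0))))))) (by decide +kernel)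
def c5579 : PP 8 4 T 0x400000002002000080000000000440000004400000000000000000000000000000000 := rS 0x4f8ad431052d2e8ace13924464716b1ca62927aacd0af (k8 c5575 c5550 c1884 c4297 c4402 c4290 c4289 c4285 (k8 c4374 c4372 c4281 c4277 c5578 c4400 c4430 c1406 (k4 c5405 c1794 c4411 c4414 (k1 c4576 k0)))) (by decide +kernel)
def c5580 : PP 8 4 T 0x80400000000020000000002002000080000001000000000000000000000000000000000000000000000 := rS 0x2e62abc1bade2e3c24b1d8ac3 (k8 c4459 c4429 c4289 c4281 c5577 c4416 c1742 c5531 (k4 c5090 c5037 c1207 c4492 k0)) (by decide +kernel)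
def c5581 : PP 8 4 T 0x400000002002000080000000054080000000000000000000000000000040000000000 := rS 0x280e093d1583e9c8cad44218018106023168fca6292886c6645688bcd668a1a2e9511 (k8 c4337 c4491 c4427 c4393 c5550 c43 c4432 c4298 (k8 c4295 c4293 c4291 c4405 c4402 c4290 c4287 c4285 (k8 c4372 c2112 c5169 c229 c1878 c2257 c5129 c5580 (k8 c5554 c1232 c824 c825 c262 c1018 c4462 c702 k0)))) (by decide +kernel)
def c5582 : PP 8 4 T 0x80000000000000100000002002000000000000002000810000000000008000000001000000000000425 := rS 0x580ea5d8ac3 (k4 c4459 c4429 c2937 c2731 (k2 c5317 c4726 k0)) (by decide +kernel)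
def c5583 : PP 8 4 T 0x80000000000000400100002002000080000000002080000000080000000000000000000080000000000 := rS 0xe092b1e938794d9dd320b4a8847a038c810a8655a988be5c2d914826b36c24ce01340be2343 (k8 c4393 c4337 c4432 c5550 c756 c5084 c4437 c44 (k8 c43 c4433 c4295 c2843 c826 c1506 c1458 c3409 (k8 c554 c1606 c1607 c5580 c227 c5433 c2256 c1694 (k8 c306 c5568 c4703 c5582 c1960 c4488 c4482 c824 (k2 c1224 c1018 (k1 c4462 k0)))))) (by decide +kernel)
def c5584 : PP 8 4 T 0x400000002002000080800000000400000004400000000000000000000000000000000 := rS 0xca632f97618a9151f9928ba52115a81a2bf61267008bd566882abe22a2 (k8 c5579 c4337 c5575 c5566 c5550 c1884 c4432 c756 (k8 c5084 c4437 c5206 c4455 c1900 c2026 c4484 c4491 (k8 c4427 c716 c5380 c5581 c5583 c5517 c1497 c4382 (k2 c818 c554 (k1 c4478 k0))))) (by decide +kernel)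
def c5585 : PP 8 4 T 0x400000002002000080000000000400000004400000000000000000000000000000000 := rS 0x170fca864b3996a2249348e4b6394ca24f68bf4ce01340be0acd (k8 c5574 c5566 c4432 c5550 c756 c5084 c5206 c4298 (k8 c4297 c4405 c4290 c4289 c4375 c4374 c4282 c4281 (k8 c5579 c5584 c2116 c1793 c1523 c5380 c826 c3497 k0))) (by decide +kernel)
def c5586 : PP 8 4 T 0x400000002002000080200000044040000002000000000000000000000000000000000 := rS 0xca (k2 c717 c5576 k0) (by decide +kernel)
def c5587 : PP 8 4 T 0x1100002002000080100000000000000006040000000000000000000000000000000 := rS 0x2aa2422490691c2ac70983c9e7d (k8 c1502 c4297 c1495 c4401 c4289 c4283 c4374 c4371 (k4 c4281 c4275 c684 c5316 (k1 c2107 k0))) (by decide +kernel)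
def c5588 : PP 8 4 T 0x400000000000010000000000000000000000000044000000000000000000001000000080000000000 := rS 0x14311 (k2 c4411 c1734 (k1 c4489 k0)) (by decide +kernel)
def c5589 : PP 8 4 T 0x410100002002000081000000040040000006000000000000000000001000000000000 := rS 0xa188ab0569fa19f992491694c525119b461267008bd5668 (k8 c5550 c1884 c4432 c756 c5084 c4437 c4298 c4293 (k8 c4405 c4402 c4290 c4285 c4281 c5586 c5587 c4392 (k4 c1394 c5588 c2112 c4338 (k2 c901 c4489 k0)))) (by decide +kernel)
def c5590 : PP 8 4 T 0x400000002002000080000000000000000004400000000000000000000000000000000 := rS 0x1931150a88bc84189761aa952a995ecd82aac9ac77e9ae126730804d02f (k8 c4432 c5550 c756 c5402 c5084 c4437 c43 c5206 (k8 c4289 c4282 c1884 c5566 c5574 c5575 c5585 c79 (k8 c134 c4330 c813 c2006 c5558 c4477 c5589 c132 (k2 c4337 c547 (k1 c5099 k0))))) (by decide +kernel)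
def c5591 : PP 8 4 T 0x400000000002000088000000054440000000000000000000040000000000000000000 := rS 0x13e2b882854b4ba289c9223238b58e29 (k8 c4402 c4289 c4285 c4374 c4372 c4281 c4277 c4400 (k4 c4430 c1406 c1794 c4491 (k2 c4411 c4414 (k1 c4576 k0)))) (by decide +kernel)
def c5592 : PP 8 4 T 0x400000002002000080000000004440000000440000000000000000000000000000000 := rS 0x860ad525542a968ac865334924d2392d8e5328b45128b829959ead338045eaf431b4d04f (k8 c4297 c5550 c44 c5590 c1633 c4432 c756 c5084 (k8 c1905 c5591 c1652 c4410 c53 c52 c4298 c4405 (k8 c4290 c4289 c4375 c4374 c4282 c4281 c1909 c2116 (k8 c5359 c4455 c1940 c716 c1726 c827 c4904 c4490 (k1 c5243 k0))))) (by decide +kernel)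
def c5593 : PP 8 4 T 0x400000002002000080000000004440000000400000000000000000000000000000000 := rS 0xe092b07d3919058f586c52a00e9430150122225863299aa94f974fccf329249a4725b1ca6512293da305579b55a8633804d02f (k8 c4432 c5550 c756 c5084 c5590 c1905 c44 c1633 (k8 c4410 c4298 c4297 c4295 c4405 c4290 c4289 c4375 (k8 c4374 c4282 c4281 c1652 c5591 c5592 c1457 c1394 (k8 c826 c5573 c2116 c5517 c4381 c4962 c5130 c5243 (k8 c5264 c4491 c29 c4904 c4429 c4459 c5433 c306 (k4 c5577 c5554 c1232 c824 (k2 c262 c1018 (k1 c4462 k0)))))))) (by decide +kernel)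
def c5594 : PP 8 4 T 0x400000000020000000002002000080214000000000000008000000000000000000000000000000000 := rS 0xb85e2c86e738b9d478c124b1e0ab5 (k8 c3636 c4410 c4289 c4281 c4450 c5577 c1692 c4416 (k4 c3658 c5531 c4481 c5090 (k2 c635 c1207 k0))) (by decide +kernel)
def c5595 : PP 8 4 T 0x400000002002000080000000000440000000400000000000000000000000000000000 := rS 0x1c120b2b07cee9c8c860080318095522a861550aa54fd1591436531542cf3fb34c8c388aa84e492688c8e4b16b1ca629288cc8a4f688bcda6844a2e0a86 (k8 c5590 c4410 c53 c52 c5550 c44 c4432 c4298 (k8 c4297 c4295 c4293 c4405 c4402 c4290 c4289 c4285 (k8 c4375 c4374 c4372 c4282 c4281 c4277 c5593 c4415 (k8 c3794 c1885 c1949 c555 c3592 c3665 c3591 c2116 (k8 c5287 c5359 c4455 c1669 c3792 c716 c1726 c4489 (k8 c4576 c827 c4381 c5264 c226 c4524 c1878 c5594 (k8 c5554 c1092 c1232 c824 c309 c262 c1018 c4462 k0))))))) (by decide +kernel)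
def c5596 : PP 8 4 T 0x400000002002000080000000004400000000400000000000000000000000000000000 := rS 0x8454a068a5c3f3259462a53345465249348e4b6394ca24f68bf61305579b53f1167a895a8633804d02f (k8 c4432 c5550 c756 c5084 c5590 c1905 c5595 c1524 (k8 c4337 c78 c44 c1633 c4410 c4437 c5206 c4298 (k8 c4297 c4405 c4290 c4289 c4375 c4374 c4282 c4281 (k8 c1652 c5581 c5573 c4491 c4478 c2116 c3655 c819 (k4 c818 c4455 c1901 c5583 (k2 c4484 c1497 k0)))))) (by decide +kernel)
def c5597 : PP 8 4 T 0x400000000000400000002002000080214000000500000008000000000000000000000001000000000 := rS 0x70482cac1f3ba7030031801153194289c9a23258cc8a4f179b4d08b (k8 c53 c5550 c44 c4432 c4297 c4295 c4293 c4375 (k8 c4372 c4282 c4277 c716 c5594 c827 c4524 c2111 (k8 c29 c1878 c5554 c1092 c1232 c824 c309 c262 (k2 c1018 c4462 k0)))) (by decide +kernel)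
def c5598 : PP 8 4 T 0x400000002002000080000000000400000000400000000000000000000000000000000 := rS 0x2a61a5e3f3268aa5653159a6461aa99e25a1a88924d2392d8e532893da2fd35c155a8633804d02f (k8 c4432 c5550 c756 c5084 c5590 c1905 c4410 c43 (k8 c5206 c4298 c4297 c4405 c4290 c4289 c4375 c4374 (k8 c4282 c4281 c5595 c4393 c1463 c1524 c5596 c3794 (k8 c1885 c3795 c3591 c2116 c1469 c4455 c5597 c5380 (k4 c554 c4382 c1506 c4490 k0))))) (by decide +kernel)
def c5599 : PP 8 4 T 0x400000002002000080000000004000000000400000000000000000000000000000000 := rS 0x27cfb433133d431115194922d298a4a23368c155e6d54c34624d4218612fd51a995a8633804d02f (k8 c4432 c5550 c756 c5084 c5590 c1905 c5598 c940 (k8 c5206 c4437 c5402 c5558 c4282 c2006 c4330 c134 (k8 c44 c1633 c4410 c4298 c4293 c4405 c4402 c4290 (k8 c4285 c4281 c1652 c2112 c4411 c1734 c5286 c4478 (k4 c5287 c1501 c1610 c4489 k0))))) (by decide +kernel)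
def c5600 : PP 8 4 T 0x400000002002000080000000000000000000400000000000000000000000000000000 := rS 0xfecf322a992a340aa54cad82a250c6730804d02f (k8 c4432 c5550 c756 c5402 c5084 c5590 c52 c4410 (k8 c1905 c5598 c134 c1897 c940 c1733 c5599 c1885 (k2 c1677 c555 (k1 c5359 k0)))) (by decide +kernel)
def c5601 : PP 8 4 T 0x10200002002000000000000044040000004800000000200001000001000001000000 := rS 0xad15c4286c84fa85147d318b4a629288cda22f (k8 c4432 c4298 c4293 c4405 c4402 c4290 c4285 c4407 (k8 c4409 c5546 c810 c1339 c644 c4422 c4489 c5588 (k2 c4338 c2112 k0))) (by decide +kernel)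
def c5602 : PP 8 4 T 0x400000002002000080001004020000800000000000008000000000000040000008024 := rS 0x9547a4cac590402c7a070f25c3a0117aee1aa6411a22221 (k8 c2255 c4338 c5550 c5600 c2000 c4330 c3884 c4432 (k8 c756 c764 c933 c4466 c527 c274 c2199 c4462 (k4 c4726 c263 c1609 c2780 (k2 c2783 c5349 k0)))) (by decide +kernel)
def c5603 : PP 8 4 T 0x100000002002000000015000000000410020005000010001000040000000101000420 := rS 0x59032581317498f0ee3f298eca21b22b442e41 (k8 c4433 c4431 c4298 c4295 c4291 c4405 c4403 c4290 (k8 c4287 c2042 c2115 c4188 c4416 c234 c4487 c2106 (k2 c1196 c526 k0))) (by decide +kernel)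
def c5604 : PP 8 4 T 0x100000002002000000011000000000510020005000058001000040000000101000424 := rS 0x7049dcac1f39a59843f0d9142e41 (k8 c4433 c4431 c4295 c4291 c4287 c5603 c4958 c1084 (k4 c1193 c816 c2043 c262 (k2 c1018 c2106 k0))) (by decide +kernel)
def c5605 : PP 8 4 T 0x400000002002000080000000000050000020000000000000000000000040000000000 := rS 0x16a8d49a5d226e2cacd620a629ecea438c23cf2954d95442040700c48111392446470a8b58e29338045e314c8649a9d2e304cab95bd0a22ac86a993e622fa08d668 (k8 c5550 c43 c5600 c548 c2041 c1611 c2000 c4330 (k8 c2040 c4338 c4489 c4424 c4394 c556 c3891 c2001 (k8 c2796 c4282 c1998 c3903 c3902 c4432 c756 c5084 (k8 c4402 c4289 c4285 c4283 c4374 c4372 c4281 c4277 (k8 c4275 c2110 c225 c1335 c1336 c2255 c266 c5602 (k8 c860 c1960 c852 c4488 c4567 c1688 c4365 c4370 (k8 c5604 c622 c662 c535 c305 c809 c817 c1609 (k2 c1338 c1348 (k1 c2125 k0))))))))) (by decide +kernel)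
def c5606 : PP 8 4 T 0x400000002002000080001004020000810000000000008000000001000000100000404 := rS 0x4715926594b874022f5dc34b65c53208d111 (k8 c4338 c5550 c5600 c2000 c2001 c2838 c4330 c3884 (k8 c4432 c756 c764 c933 c4726 c1609 c4476 c5349 (k1 c2780 k0))) (by decide +kernel)
def c5607 : PP 8 4 T 0x400000002002000080100000000040000004000000000000000000000000000000000 := rS 0xe093b9583e734b3098a7b21c60f29b05a54423d01810a82a5bd093f113298982ac44285163f0d9142e418499c022f4c97cd69d82abe1aa60c93556312e1a10449 (k8 c4281 c5600 c5550 c2001 c3902 c3904 c4282 c1998 (k8 c2000 c4330 c2797 c5601 c2796 c43 c548 c3903 (k8 c4432 c756 c5084 c4437 c4433 c4431 c4295 c4291 (k8 c4287 c644 c811 c5547 c2040 c3891 c2041 c556 (k8 c4338 c1611 c4489 c4424 c5605 c4904 c4191 c227 (k8 c5433 c2256 c1694 c306 c5606 c1960 c4488 c4567 (k8 c4365 c4370 c5577 c4958 c1084 c1193 c816 c2043 (k2 c262 c1018 (k1 c2106 k0))))))))) (by decide +kernel)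
def c5608 : PP 8 4 T 0x400000002002000080000000000040000004000000000000000000000000000000000 := rS 0x14311560ad3f43641245a531494466d1308045e3155b361aaf2e2990468 (k8 c5550 c5600 c2000 c2001 c2797 c4330 c3976 c3904 (k8 c3902 c4432 c756 c5402 c4298 c4293 c4405 c4402 (k8 c4290 c4285 c4281 c5607 c4422 c1665 c5588 c2112 (k2 c4338 c901 (k1 c4489 k0))))) (by decide +kernel)
def c5609 : PP 8 4 T 0x400000002002000080000000000000000004000000000000000000000000000000000 := rS 0x8b44b29450942a990468 (k8 c5550 c5600 c2000 c128 c4437 c5608 c941 c3927 (k2 c1753 c5547 k0)) (by decide +kernel)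
def c5610 : PP 8 4 T 0x400000002002000080000000000000000000000000000000000000000000000000000 := rS 0x27e862a51b295a8657c3556312e2990468248b4a629288cda22f (k8 c4432 c4298 c4293 c4405 c4402 c4290 c4285 c4281 (k8 c5550 c5600 c2000 c2001 c3902 c3904 c4330 c2797 (k8 c5609 c3908 c2004 c940 c2112 c4425 c1668 c5588 k0))) (by decide +kernel)
def c5611 : PP 8 4 T 0x2002000084400000000050000000000000000000000000000000000000000 := rS 0x9e6650c924d2392d8e532893da2a5888b61b12 (k8 c5610 c5204 c4285 c4498 c4444 c4298 c4297 c4405 (k8 c4290 c4289 c4375 c4374 c4282 c4281 c5287 c2116 (k2 c4489 c1397 k0))) (by decide +kernel)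
def c5612 : PP 8 4 T 0x40000000000000111101000002000008000000000050000004400001080000000000000000000001000 := rS 0x421fd10812fa2c0145 (k8 c4400 c5084 c720 c488 c1366 c4485 c5121 c4484 (k1 c684 k0)) (by decide +kernel)
def c5613 : PP 8 4 T 0x800000000000100040000000000400000000405 := rS 0x1603a57 (k4 c804 c764 c4476 c4726 k0) (by decide +kernel)
def c5614 : PP 8 4 T 0x100000002000080000004400008000000000100020204000001000000100000000 := rS 0x4592273 (k4 c1649 c808 c4481 c5381 k0) (by decide +kernel)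
def c5615 : PP 8 4 T 0x10001100002002000080020000000008000080220010120000000000000000100000424 := rS 0x1baec86083b2fc0e7b2b1e4ea3d59af4724d1a92c8a4f68905126b892dcb819 (k8 c269 c1651 c3589 c5610 c4442 c556 c4433 c4298 (k8 c4297 c4295 c4375 c4373 c4282 c4279 c1175 c1251 (k8 c1782 c3727 c604 c5614 c1227 c1018 c1364 c4482 (k4 c4462 c1886 c1891 c2187 (k1 c2114 k0))))) (by decide +kernel)
def c5616 : PP 8 4 T 0x1001000000000080000040001501500001600000100244000000000000000000405 := rS 0x2f8de8d47af43877489604635 (k8 c4373 c4372 c4476 c808 c1112 c4726 c4507 c760 (k4 c1027 c3007 c2126 c1363 k0)) (by decide +kernel)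
def c5617 : PP 8 4 T 0x10001000002002000088000000000408000081420000120000000000000000000000405 := rS 0x17a375890c10765f81cf6563caed8a9b2d8e46a4b229053a9982a028afd38864420407170484d278bc66a518aa62427 (k8 c4277 c5610 c4345 c4441 c4444 c4293 c4432 c4297 (k8 c4282 c4839 c1651 c1335 c1336 c2255 c269 c3395 (k8 c5206 c4400 c4484 c5447 c4443 c4343 c4433 c4295 (k8 c4375 c4373 c4279 c574 c5613 c5615 c1446 c605 (k8 c5616 c1227 c1018 c1364 c4482 c4462 c1886 c1145 (k2 c2187 c1899 (k1 c2114 k0))))))) (by decide +kernel)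
def c5618 : PP 8 4 T 0x10000000000000000000000000000000000000000000200000000000002000010800 := rS 0x4551a8f488d8b21f58884080e (k8 c1335 c1336 c2255 c622 c2199 c535 c304 c809 (k4 c1424 c1338 c4386 c4486 k0)) (by decide +kernel)
def c5619 : PP 8 4 T 0x400000000000001000002002000080100000020440000004400000100000000000000000000000000 := rS 0xbd1bac410072b2ed37182d82c06044017cb88a429f1127f32004ce111c835fa6d4e9ad32242693c5e33528c55227a598e8b056732d3d1116c3624a1 (k8 c900 c5610 c5204 c4285 c4498 c4489 c2027 c5611 (k8 c5447 c4400 c820 c4458 c4277 c4345 c4441 c4444 (k8 c4293 c4432 c4297 c4282 c4839 c4443 c4442 c4343 (k8 c4341 c5206 c4371 c4279 c4275 c5612 c5056 c4478 (k8 c1394 c556 c4483 c5587 c4485 c1651 c1380 c4484 (k8 c1336 c225 c5618 c574 c5617 c5613 c4449 c5616 (k4 c1018 c4462 c1145 c2187 (k2 c1899 c5090 k0)))))))) (by decide +kernel)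
def c5620 : PP 8 4 T 0x2000002002000000000000000000000000000000420000000000000040000000000 := rS 0xaa89 (k2 c556 c1646 (k1 c5422 k0)) (by decide +kernel)
def c5621 : PP 8 4 T 0x80000000000500000001504400000000040000000002200400002 := rS 0x2f576bf389e4deb147a306c062d07c1a35 (k8 c4373 c4371 c57 c830 c831 c312 c313 c1424 (k8 c625 c1019 c500 c496 c1511 c1389 c1120 c2122 k0)) (by decide +kernel)
def c5622 : PP 8 4 T 0x400000000000000100002002000080020000000050010000000000080000000000000000100000000 := rS 0x3d4bb45fa9d888b61b12 (k8 c5610 c5204 c4285 c4498 c4343 c5206 c4298 c1252 (k2 c1782 c5267 k0)) (by decide +kernel)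
def c5623 : PP 8 4 T 0x400000000000000100002002000080000000000050010000000000090020000000000000100000000 := rS 0x1e2492efd888b61b12 (k8 c5610 c5204 c4285 c4498 c5206 c1196 c657 c5267 (k1 c1655 k0)) (by decide +kernel)
def c5624 : PP 8 4 T 0x400000000000000100002002000080000000000050010000000000080000000000000040180000000 := rS 0x1ea5c7efd888b61b12 (k8 c5610 c5204 c4285 c4498 c5206 c4287 c1193 c274 (k1 c5267 k0)) (by decide +kernel)
def c5625 : PP 8 4 T 0x100000000002000000000000000000000000000000082002000000000000000000800 := rS 0x24c78590e0a47600 (k8 c5084 c4403 c4402 c567 c2599 c306 c1029 c5241 k0) (by decide +kernel)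
def c5626 : PP 8 4 T 0x400000000000000100002002000080000000000050000000000400090000000000000040101000400 := rS 0x30c863d390212c568b9d5825b49a6c381f2cb152a3f1d91482ac198c4a2d1148bca6af16aae2400 (k8 c5084 c5610 c4445 c4285 c4346 c4290 c4432 c4402 (k8 c4298 c4405 c4441 c4293 c2112 c4433 c4295 c4403 (k8 c4287 c5290 c5622 c5623 c5624 c4466 c764 c1029 (k8 c759 c1986 c592 c5282 c4476 c4809 c751 c921 (k4 c5240 c236 c1087 c2115 k0))))) (by decide +kernel)
def c5627 : PP 8 4 T 0x400000000000000000002002000080100000000440000004400000100000000000000040000000000 := rS 0x8aa451a571b1b8b41c04828420002998ba6507204ee19429ee109e088346a4b0d85cd711868909a4f52aa44e6382b3942cb560cc6251688a45e53578b55712 (k8 c5610 c4445 c4285 c4346 c4290 c4432 c4402 c4298 (k8 c4405 c4441 c4293 c2112 c2027 c900 c5611 c5447 (k8 c820 c4277 c4345 c4444 c4297 c4282 c4839 c5204 (k8 c4498 c4442 c4431 c4291 c4375 c4373 c4371 c4275 (k8 c4489 c5619 c4319 c4321 c4436 c4438 c4439 c2108 (k8 c5620 c1340 c4478 c265 c5084 c5621 c5626 c31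 (k8 c567 c566 c305 c304 c751 c1027 c1075 c4386 (k1 c5022 k0)))))))) (by decide +kernel)
def c5628 : PP 8 4 T 0x1000002002000080100000020440000004440000100000000000000000000000000 := rS 0x2f46eb10401cacbb4dc60b60b02278065c3e228be6140190028533844720d7e9b53a99888b61a242693c5e33528c5531213d2cc74582b3942cb (k8 c2027 c900 c5611 c5447 c4400 c820 c4458 c4277 (k8 c5610 c4345 c4441 c4444 c4293 c4432 c4297 c4282 (k8 c4839 c5204 c4285 c4498 c4443 c4343 c4341 c5206 (k8 c4371 c4279 c4275 c5612 c5587 c5056 c4478 c4484 (k8 c5402 c1382 c1366 c1365 c4477 c225 c1650 c1336 (k8 c5618 c574 c5617 c5613 c4449 c5616 c1018 c4462 (k4 c1145 c2187 c1899 c5090 k0))))))) (by decide +kernel)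
def c5629 : PP 8 4 T 0x10100000002000080000014000000000000000000082080000000000040100000400 := rS 0x5aa3e2c7538ac47a97488203c070e8e52a3f (k8 c4287 c5290 c4279 c759 c495 c4466 c4462 c1153 (k8 c1193 c274 c1145 c585 c593 c5266 c849 c4419 (k1 c5245 k0))) (by decide +kernel)
def c5630 : PP 8 4 T 0x2000080000014000000000000000100002008000000000000000000402 := rS 0x1ead46e08370e49235238fd8e3b (k8 c4403 c4289 c4287 c4374 c4373 c4281 c4279 c881 (k4 c751 c1344 c1348 c235 (k1 c2113 k0))) (by decide +kernel)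
def c5631 : PP 8 4 T 0x10100000002000080000014000000000000000000082000000000000040100000400 := rS 0x7ab51ba4918582b9d4b6951c9246a471fb1c7600 (k8 c5084 c4403 c4289 c4287 c4374 c4373 c4281 c4279 (k8 c5290 c5629 c592 c5630 c4476 c617 c657 c1384 (k2 c1388 c1655 (k1 c2113 k0)))) (by decide +kernel)
def c5632 : PP 8 4 T 0x2002000080100000000440000004400000100000000000000040000000000 := rS 0x2fd22bd46a6d1e571b1b9761c04828c0212f97400660719502770ca14f7085bae4ff420883446352586c2efd4e9ad3311868909a4f52aa44e6382b3942cb560cc6251688a45e53578b55712 (k8 c5610 c4445 c4285 c4346 c4290 c4432 c4402 c4298 (k8 c4405 c4441 c4293 c2112 c2027 c900 c5611 c5447 (k8 c820 c4277 c4345 c4444 c4297 c4282 c4839 c5204 (k8 c4498 c4443 c4442 c4343 c5206 c4431 c4291 c4375 (k8 c4373 c4372 c4371 c4275 c5627 c4392 c4394 c4424 (k8 c5628 c4319 c4321 c4436 c4438 c4439 c5620 c2108 (k8 c4478 c5084 c922 c658 c5621 c4477 c5631 c31 (k8 c567 c4735 c305 c304 c751 c760 c764 c1027 (k4 c1080 c1075 c1511 c2126 k0))))))))) (by decide +kernel)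
def c5633 : PP 8 4 T 0x2002000080000000000440000004400000100000000000000040000000000 := rS 0x6433942cb560b4a629288cda22f578c55712 (k8 c5610 c4445 c4441 c4346 c4432 c4298 c4293 c4405 (k8 c4402 c4290 c4285 c2112 c2027 c900 c5611 c5632 (k1 c1793 k0))) (by decide +kernel)
def c5634 : PP 8 4 T 0x2002000084000000000040000000000000000000000000000080000000000 := rS 0x4f32a86ab86c494249 (k8 c4281 c1734 c5610 c5204 c4445 c5287 c5611 c5588 (k1 c1668 k0)) (by decide +kernel)
def c5635 : PP 8 4 T 0x1000002002000088000000000408000001420000140000000000000000000000000 := rS 0xbd1bac410072b2ed37182d82cc8042e18c068a2fa0022397ea75330d121349e2f19a9462a913d14c20188c485b05 (k8 c5447 c4285 c5610 c4498 c5056 c5402 c4400 c4277 (k8 c4345 c4441 c4444 c4293 c4432 c4297 c4282 c4839 (k8 c5204 c4443 c4343 c5206 c4279 c4275 c4484 c1382 (k8 c1366 c225 c1611 c4477 c4461 c4478 c5618 c574 (k8 c5617 c5613 c4449 c5616 c1018 c4462 c1145 c2187 (k2 c1899 c5090 k0)))))) (by decide +kernel)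
def c5636 : PP 8 4 T 0x100000000000000000000000008000000000000050000000000000080000008000 := rS 0xba04 (k2 c4191 c1340 (k1 c265 k0)) (by decide +kernel)
def c5637 : PP 8 4 T 0x400000000000000000002002000088000000000408000004400000140000000000000080000000000 := rS 0x2150b889319901c810cc210a7c3f8441a4b0d85dfa6b121349e2f19a9462a98909d9305 (k8 c5447 c1793 c4277 c5610 c4345 c4441 c4444 c4293 (k8 c4432 c4297 c4282 c4839 c4442 c5206 c4431 c4291 (k8 c4375 c4371 c4275 c1394 c4483 c1502 c5635 c4436 (k8 c4439 c2108 c5636 c41 c556 c1651 c5422 c1336 (k1 c267 k0))))) (by decide +kernel)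
def c5638 : PP 8 4 T 0x400000000000000100002002000080000000000050010000000000080000000000000000180000000 := rS 0x1ea5c7efd888b61b12 (k8 c5610 c5204 c4285 c4498 c5206 c4287 c1193 c275 (k1 c5267 k0)) (by decide +kernel)
def c5639 : PP 8 4 T 0x400000000000000100002002000080000000000058000000000000080000000000000000100000400 := rS 0x158eab92da34381f2ca546a3f32980be0006bf4bb0d892dc7639 (k8 c4279 c4403 c5142 c5610 c5204 c922 c5206 c4371 (k8 c5084 c488 c4477 c68 c4287 c4373 c5290 c5623 (k8 c5638 c4466 c1027 c759 c1395 c592 c4476 c5630 k0))) (by decide +kernel)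
def c5640 : PP 8 4 T 0x400000000000000000002002000080000000000440000004400000100000000000000000000000000 := rS 0x455228d2b8d8dc5a0e024140e109dc32853da06108b00014cc9e088346a4b0a86c2efd36c445b0d121349e2f19a9462a98909d4249a5c159c2a (k8 c5633 c5634 c5447 c4430 c4281 c1734 c4277 c5610 (k8 c4345 c4441 c4444 c4293 c4432 c4297 c4282 c4839 (k8 c5204 c4285 c4498 c4341 c5206 c4431 c4291 c4283 (k8 c4375 c4373 c4371 c4275 c5588 c5637 c654 c5084 (k8 c720 c5612 c1366 c4319 c4321 c4436 c4438 c5621 (k8 c2108 c5639 c31 c567 c566 c305 c304 c751 (k4 c1027 c1075 c4386 c5022 k0))))))) (by decide +kernel)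
def c5641 : PP 8 4 T 0x1000002002000088000000000400000004440000140000000000000000000000000 := rS 0xc89f319f1148042bf6231216d159305 (k8 c5447 c1793 c4400 c4285 c5610 c4498 c5206 c5587 (k4 c4484 c1366 c1365 c1769 (k2 c5635 c4478 (k1 c1650 k0)))) (by decide +kernel)
def c5642 : PP 8 4 T 0x100000000000000080000004000054010000000000008204000000400000000000405 := rS 0x459689346870b0914b88c6a5b (k8 c842 c4373 c4372 c816 c808 c4476 c4726 c1027 (k4 c1029 c5153 c4487 c4419 k0)) (by decide +kernel)
def c5643 : PP 8 4 T 0x100100000002000080000014000040000000000000050000000000000080000008000 := rS 0x45968971b87810074995816952e0f53e0302150c4391a91c7ec71da849201 (k8 c5056 c4281 c1734 c4403 c4289 c4287 c4374 c4373 (k8 c4279 c4478 c4904 c4191 c227 c5636 c5433 c265 (k8 c1694 c306 c5642 c1070 c1018 c4462 c262 c2187 (k4 c1193 c2113 c4487 c4419 k0)))) (by decide +kernel)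
def c5644 : PP 8 4 T 0x100000000000000100004000000000400050140020804000004100000100000008 := rS 0x166b14ba44e21e2c1bc3a5b (k8 c838 c790 c1378 c4476 c4466 c537 c1153 c1193 (k2 c545 c553 (k1 c5124 k0))) (by decide +kernel)
def c5645 : PP 8 4 T 0x2002000080000000000440000004400000140000000000000000000000000 := rS 0x379c51a090e2cd621f2b1cd268f3e978ba75108080a3d2a224c6640720432858400422390688c6a4b1f86c2e6b888b4484d278bc66a518aa6242764c159c2a3fae56f42 (k8 c5640 c4424 c4394 c4392 c5633 c5634 c5447 c1793 (k8 c4277 c5610 c4345 c4441 c4444 c4293 c4432 c4297 (k8 c4282 c4839 c4285 c4498 c4442 c4431 c4291 c4287 (k8 c4375 c4373 c4372 c4371 c4279 c4275 c5056 c5641 (k8 c4321 c4436 c4439 c2108 c5643 c41 c556 c5422 (k8 c5433 c267 c1647 c314 c1686 c1336 c4639 c1651 (k8 c3401 c5350 c1648 c5644 c1066 c1148 c1188 c4466 (k4 c1058 c1027 c1416 c1377 (k1 c5124 k0))))))))) (by decide +kernel)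
def c5646 : PP 8 4 T 0x10100000002000080000014000000000000000000082080000000000000100000400 := rS 0x5ac591e7538ac47a97488203c070e8e52a3f (k8 c4287 c5290 c4279 c759 c495 c4466 c4462 c1153 (k8 c1193 c275 c1145 c585 c593 c849 c5266 c4419 (k1 c5245 k0))) (by decide +kernel)
def c5647 : PP 8 4 T 0x10100000002000080000014000000000000000000082010000000000000100000400 := rS 0x2b1d4b600 (k4 c5084 c5646 c592 c4476 (k1 c5630 k0)) (by decide +kernel)
def c5648 : PP 8 4 T 0x10000000000000000000000000000000000000000000000000000010002000008812 := rS 0x11548a34ae36371683809 (k8 c31 c567 c566 c305 c304 c751 c1027 c1075 (k2 c4386 c5022 k0)) (by decide +kernel)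
def c5649 : PP 8 4 T 0x2002000080000000000440000004400000100000000000000000000000000 := rS 0xf56a370f249188f2c16d2a0b07084c0770ca14f6812fc20ba8b00014ccb75c9fe8505a5b39422a120444e39249341a352392c2a3f638ec36332785c5efd36aa462a5888b61b12 (k8 c5610 c5204 c4285 c4498 c4444 c4441 c4345 c4341 (k8 c5206 c4432 c4431 c4297 c4293 c4291 c4403 c4289 (k8 c4287 c4283 c4375 c4374 c4373 c4371 c4282 c4281 (k8 c4279 c4277 c4275 c4839 c5633 c1734 c5634 c4430 (k8 c5447 c5640 c4392 c4394 c4424 c5645 c654 c5084 (k8 c720 c922 c5612 c658 c1366 c4319 c4321 c4436 (k8 c4438 c4477 c5621 c2108 c5648 c5290 c5646 c5647 (k8 c848 c617 c657 c487 c273 c1388 c1655 c2113 k0)))))))) (by decide +kernel)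
def c5650 : PP 8 4 T 0x200002002000080000000000040000004400000100000000000000000000000000 := rS 0xca56334568467c24fe492691c962d6394c52511993da22f7eabc62ab8951502a6 (k8 c5649 c1896 c4453 c5610 c4445 c4441 c4346 c5206 (k8 c4432 c4298 c4297 c4293 c4405 c4402 c4290 c4289 (k8 c4285 c4375 c4374 c4282 c4281 c4313 c4076 c5447 (k4 c4484 c5634 c1481 c2112 (k2 c2116 c2027 k0))))) (by decide +kernel)
def c5651 : PP 8 4 T 0x100002002000084000000000040000002000000040000000000000000000000000 := rS 0x192a03232d582b448b4a629288cda22f578c55712 (k8 c5610 c4445 c4441 c4346 c4432 c4298 c4293 c4405 (k8 c4402 c4290 c4285 c685 c5634 c2112 c2027 c4903 (k2 c5611 c717 (k1 c1736 k0)))) (by decide +kernel)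
def c5652 : PP 8 4 T 0x1000002002000080000000000040000004400000100000000000000000000000000 := rS 0x4fd0cfca164b38ce012f185080d7e9b55f1116c3625452ea054d05 (k8 c5650 c5649 c1896 c813 c4453 c5610 c5204 c4285 (k8 c4498 c4346 c4341 c5206 c4371 c4484 c712 c4477 (k8 c488 c5084 c5651 c1793 c1794 c5587 c4392 c1394 (k1 c4489 k0)))) (by decide +kernel)
def c5653 : PP 8 4 T 0x2100002002000084000000000000000004400000000000000000000000000000000 := rS 0x6650d92493f8650ac7 (k8 c4289 c4321 c4436 c5339 c4281 c5522 c5287 c5392 (k1 c5521 k0)) (by decide +kernel)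
def c5654 : PP 8 4 T 0x2000010000000044000000000000000108000000000005400000000010 := rS 0x56ad1694c5251 (k4 c4405 c4402 c4290 c4285 (k2 c820 c1607 (k1 c2112 k0))) (by decide +kernel)
def c5655 : PP 8 4 T 0x2100002002000080100000000000000000040000044100000000000000000008000 := rS 0xde714682438b35887cac73499d47ab75c952842a449f4c8214797804610089c72351fbf4d71116c362405 (k8 c265 c5610 c5204 c4285 c4498 c4442 c5206 c4287 (k8 c4373 c4279 c4277 c5056 c5402 c4461 c4477 c3401 (k8 c5471 c4478 c1380 c556 c5620 c4483 c5422 c4394 (k8 c4424 c5433 c1686 c5350 c1648 c5644 c1066 c1148 (k4 c1188 c4466 c1058 c1027 (k2 c1416 c1377 (k1 c5124 k0))))))) (by decide +kernel)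
def c5656 : PP 8 4 T 0x101000002000080000000000048000000000000080000000000000040200000000 := rS 0x4a9cce26f3a96522064b9683e27068d47600 (k8 c5084 c4403 c4373 c4371 c4277 c57 c830 c2930 (k8 c831 c886 c487 c593 c1019 c496 c1021 c5295 (k1 c5294 k0))) (by decide +kernel)
def c5657 : PP 8 4 T 0x10000000000000080000000000000000000000000000000000000000000000008802 := rS 0x455228d4795c6c6e0e0244635 (k8 c4373 c4372 c31 c567 c305 c304 c751 c760 (k4 c1027 c1075 c4386 c4486 k0)) (by decide +kernel)
def c5658 : PP 8 4 T 0x400000000000000100002002000080000000000050000000000000080000000000000000000000400 := rS 0x1161e2cce6752c8a812064b87c409e1dbf6230d8900c5a00 (k8 c5084 c4285 c918 c5610 c5204 c4498 c5206 c4403 (k8 c4489 c5639 c57 c2930 c831 c230 c5656 c487 (k4 c593 c1021 c4991 c314 (k2 c4481 c4416 k0)))) (by decide +kernel)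
def c5659 : PP 8 4 T 0x100002002000080000000000050000000000000082000000000000040000000400 := rS 0x1c4de9f03168400d1abf61b12002e56f42 (k8 c5658 c4424 c4394 c5084 c5610 c5204 c5206 c4373 (k8 c4371 c5631 c830 c831 c5656 c1019 c496 c5275 k0)) (by decide +kernel)
def c5660 : PP 8 4 T 0x100000000000000000000000000000000000000080000000000400080200000006 := rS 0x22eb3399d4b23c048192e1f (k8 c57 c2930 c831 c230 c314 c487 c593 c1021 (k2 c4991 c4416 (k1 c4481 k0))) (by decide +kernel)
def c5661 : PP 8 4 T 0x2002000080000000000040000004400000100000000000000000000000000 := rS 0x10d7abf4887918b02c08454b75cd0816602f800066631a859c05071fd9219429ee1105409754c111c9249a0d1a92c5ac71d86c664527b442e2f20bf55e314caae1b12 (k8 c5610 c5204 c4445 c4443 c4441 c4346 c5206 c4433 (k8 c4432 c4431 c4298 c4297 c4295 c4293 c4291 c4403 (k8 c4289 c4285 c4375 c4373 c4371 c4282 c4281 c4279 (k8 c4275 c5649 c813 c1896 c5650 c5652 c4319 c4321 (k8 c4436 c5522 c5339 c2108 c265 c5653 c1794 c5654 (k8 c5655 c918 c5084 c658 c4532 c5657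 c5658 c4394 (k8 c4424 c5659 c5660 c5647 c616 c617 c487 c1156 (k4 c1242 c1119 c276 c4496 k0)))))))) (by decide +kernel)
def c5662 : PP 8 4 T 0x1200002002000080000000000040000000400000001000000000000000000000000 := rS 0x2154ccc5032d582b679fc924d2392c5ac7298a4a23327b445efd578c55712 (k8 c5610 c4445 c4441 c4346 c5206 c4432 c4298 c4297 (k8 c4293 c4405 c4402 c4290 c4289 c4285 c4375 c4374 (k8 c4282 c4281 c4313 c5447 c5634 c2112 c2027 c5611 (k4 c2116 c900 c1481 c5558 k0)))) (by decide +kernel)
def c5663 : PP 8 4 T 0x2002000084000000000440000000000000000000000000000000000000000 := rS 0x28596ac158b4a629288cda22f578c55712 (k8 c5610 c4445 c4441 c4346 c4432 c4298 c4293 c4405 (k8 c4402 c4290 c4285 c5634 c2112 c2027 c900 c5611 k0)) (by decide +kernel)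
def c5664 : PP 8 4 T 0x10000000002000080000014000000000000000010000210000000000000000000420 := rS 0x45168911e8dc3c8f041591a071c9246a471fb1c765b (k8 c574 c4403 c4289 c4287 c4374 c4373 c4281 c4279 (k8 c526 c1338 c4476 c4462 c801 c262 c2187 c2188 (k4 c1153 c2113 c4486 c4389 k0))) (by decide +kernel)
def c5665 : PP 8 4 T 0x1000002002000080000000000040000001400000000000000000000000000000001 := rS 0x5dafe286f46a6d1ebd48870ee58058116e5c019f0e2b94517d0145670914e111393446351993c5efd4eaa4629952c362461 (k8 c5402 c5610 c5204 c4444 c4443 c4441 c4345 c4343 (k8 c5206 c4432 c4297 c4293 c4373 c4372 c4282 c4277 (k8 c4275 c5558 c4839 c5663 c4400 c4484 c3365 c1366 (k8 c3344 c3398 c1365 c225 c4477 c3711 c4461 c5618 (k8 c5664 c1111 c4726 c1156 c4507 c760 c764 c1027 (k4 c3007 c4486 c1363 c4390 (k1 c2126 k0))))))) (by decide +kernel)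
def c5666 : PP 8 4 T 0x2002000080000000000040000004400000000000000000000000000000000 := rS 0x27e867e50b259c8482984ce01849a05eaf888b61b12 (k8 c5610 c5204 c4285 c4498 c4346 c4432 c5661 c4437 (k8 c756 c925 c5402 c5662 c5665 c5651 c1793 c1794 (k4 c5587 c4392 c1394 c4489 k0))) (by decide +kernel)
def c5667 : PP 8 4 T 0x101001002000000080040000005180000000500001500000000000001000000000000 := rS 0x82b24ce7e2f185089f50d14baa6128bc4e4f258cc9a23 (k8 c4372 c4282 c4293 c4375 c4297 c4277 c4432 c1463 (k8 c2111 c813 c4453 c132 c78 c4484 c712 c4532 (k4 c1465 c659 c547 c4313 (k1 c5099 k0)))) (by decide +kernel)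
def c5668 : PP 8 4 T 0x2000002002000080000000000000000004400000000000000000000000000000000 := rS 0x20a5167a895312 (k4 c5610 c4345 c5666 c1523 (k2 c4405 c4076 (k1 c5653 k0))) (by decide +kernel)
def c5669 : PP 8 4 T 0x2002000080000000000000000004400000000000000000000000000000000 := rS 0x82b24fc5e33984d08484a05945da2a984aa15109c9a2325b1c664f17bf4daa9189ad4aab888b61b12 (k8 c5610 c5204 c4285 c4498 c4445 c4444 c4442 c4441 (k8 c4345 c4341 c5206 c4432 c4297 c4293 c4289 c4375 (k8 c4372 c4282 c4277 c5666 c132 c1463 c2111 c4453 (k8 c813 c941 c1900 c5668 c4484 c5667 c712 c925 (k4 c4477 c1465 c547 c4313 (k1 c5099 k0)))))) (by decide +kernel)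
def c5670 : PP 8 4 T 0x200002002000080000000000040000004000000000000000000000000000000000 := rS 0x9e32d0d420064338c08a2e92426fd578c5571116c34324d2fa08d712 (k8 c5610 c4442 c5669 c548 c4282 c1998 c5204 c4285 (k8 c4498 c4445 c4441 c4346 c5206 c4401 c4281 c5601 (k8 c5546 c4477 c645 c644 c5402 c1794 c4422 c490 (k2 c4489 c1664 k0)))) (by decide +kernel)
def c5671 : PP 8 4 T 0x1000002002000084000000000040000004000000100000000000000000000000000 := rS 0x1907f3332cc66556220568b298a4a233688bd5e3135aae231216a050505 (k8 c5670 c5669 c50 c4285 c5610 c4498 c4445 c4442 (k8 c4441 c4346 c4432 c4298 c4293 c4405 c4402 c4290 (k8 c645 c5634 c5547 c2112 c556 c820 c2027 c4478 (k2 c677 c5401 (k1 c633 k0))))) (by decide +kernel)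
def c5672 : PP 8 4 T 0x100002002000080000000000050000000000000150200000000000000000008000 := rS 0x152dd72ada11893e531494466d117abc62ab888b61b12 (k8 c5610 c5204 c4285 c4498 c4445 c4441 c4346 c4432 (k8 c4298 c4293 c4405 c4402 c4290 c1340 c4478 c4489 (k4 c820 c4394 c4424 c2112 (k1 c5643 k0)))) (by decide +kernel)
def c5673 : PP 8 4 T 0x1000002002000080000000000040000004000000140000000000000002000000000 := rS 0x13f4364229126407170c2017ec445b0d2fa08d70550b395f12 (k8 c5610 c4346 c5671 c1794 c5670 c4442 c5669 c548 (k8 c5204 c4285 c4498 c5206 c5056 c5402 c4477 c1335 (k4 c5672 c556 c5547 c644 (k2 c4422 c1665 (k1 c4489 k0))))) (by decide +kernel)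
def c5674 : PP 8 4 T 0x100002002000080000000000050000000040000082000000000000042000000000 := rS 0xe2905a8f62c7c4badd268f1083caa5a588700e0a56044920d118d48ec72984c523b288cda22f7eabc62ab888b61b120285400c9 (k8 c633 c5084 c4283 c654 c5610 c5204 c4285 c4498 (k8 c4445 c4441 c4346 c5206 c4432 c4298 c4293 c4405 (k8 c4403 c4402 c4401 c4290 c4289 c4374 c4373 c4372 (k8 c4371 c4281 c4275 c2112 c5659 c4 c567 c2605 (k8 c566 c5625 c5648 c831 c760 c1029 c5279 c5270 (k4 c2107 c4809 c4416 c4419 (k2 c5245 c1419 (k1 c889 k0)))))))) (by decide +kernel)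
def c5675 : PP 8 4 T 0x400000000000000100002002000080000000000050000000000000082000000000000000100000000 := rS 0x79164ba4d2a552d07014291dbf6222d86c4800c9 (k8 c633 c5084 c5610 c5204 c4285 c4498 c5206 c4403 (k8 c4402 c5658 c567 c566 c5625 c762 c1029 c5270 (k2 c4487 c5267 (k1 c4416 k0)))) (by decide +kernel)
def c5676 : PP 8 4 T 0x100002002000080100004000000000000040000082000000000000002100000800 := rS 0x1c520b51ec58f89749a551e0f2a968381124834463523b1c26291dc445b0d890142a00 (k8 c5084 c4283 c654 c5610 c5204 c4285 c4498 c4403 (k8 c4402 c4401 c4289 c4374 c4373 c4372 c4371 c4281 (k8 c4275 c567 c566 c5625 c5648 c760 c762 c1029 (k8 c5270 c2107 c4487 c4416 c4419 c5245 c1419 c889 k0)))) (by decide +kernel)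
def c5677 : PP 8 4 T 0x1000002002000080000000000440000004000000100000000000000000000000000 := rS 0x7ab51ba4918584a82d6eb9a10845460649740066018904e392488c6a47258fd8e3b1993c5efd548c54b0d0c934be6b82a855f123fb390a82 (k8 c5669 c128 c5671 c1521 c5610 c4346 c1794 c5670 (k8 c4442 c548 c4282 c1998 c5204 c4444 c4441 c4345 (k8 c5206 c4432 c4297 c4293 c4403 c4289 c4287 c4375 (k8 c4374 c4373 c4372 c4281 c4279 c4277 c4839 c4639 (k8 c5673 c5084 c922 c633 c4477 c5674 c5660 c5675 (k8 c4394 c4424 c5676 c5290 c5647 c617 c657 c1384 (k2 c1388 c1655 (k1 c2113 k0)))))))) (by decide +kernel)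
def c5678 : PP 8 4 T 0x100002002000080000000000050000000040000002000000000000040000000000 := rS 0xf62c7c4ba4d2a5710a781e552d07012071282822272483446470ab1c26291dc35926600446242d (k8 c4285 c5610 c4498 c5402 c5056 c633 c5204 c4403 (k8 c4402 c4401 c4289 c4283 c4374 c4372 c4371 c4281 (k8 c4277 c4275 c5659 c5674 c4 c31 c567 c566 (k8 c5625 c5657 c2110 c831 c751 c762 c1029 c5270 (k4 c2107 c4487 c4416 c5265 k0))))) (by decide +kernel)
def c5679 : PP 8 4 T 0x100002002000080100004000000000000040000002000000000000000100000800 := rS 0xe2905a8f62c7c4ba4d2a8f07954b41c089241a23238558e13148ee1a6600446242d (k8 c4285 c5610 c4498 c5402 c5056 c5204 c4403 c4402 (k8 c4401 c4289 c4283 c4374 c4372 c4371 c4281 c4275 (k8 c567 c566 c5625 c5657 c760 c762 c1029 c5270 (k4 c2107 c4487 c4416 c4419 (k2 c5245 c1419 (k1 c889 k0)))))) (by decide +kernel)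
def c5680 : PP 8 4 T 0x1000002002000080000000000040000004000000100000000000000000000000000 := rS 0x3d5a8dd248c2c25416b75cd08422a64998000330298fea16709c72491a91c7ec71dbf55f1116c350a5f411ae2505 (k8 c5670 c5610 c4442 c5669 c548 c128 c5204 c4285 (k8 c4498 c4346 c5206 c4403 c4289 c4287 c4374 c4373 (k8 c4281 c4279 c4277 c5671 c1794 c1521 c5677 c4532 (k8 c878 c5402 c5056 c633 c5678 c5660 c5675 c4394 (k8 c4424 c5679 c5290 c5647 c617 c657 c1384 c1388 (k2 c1655 c2113 k0)))))) (by decide +kernel)
def c5681 : PP 8 4 T 0x2000002002000000000000000000000000000000420000000000000000000000004 := rS 0xaa89 (k2 c556 c1647 (k1 c5422 k0)) (by decide +kernel)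
def c5682 : PP 8 4 T 0x100002002000080000000000050000000000000150400000000000002000000000 := rS 0xe2e18402fd888b61b12 (k8 c5610 c5204 c4285 c4498 c5206 c5056 c5402 c4477 (k2 c1335 c5672 k0)) (by decide +kernel)
def c5683 : PP 8 4 T 0x2100002002000080000000000440000000800000100000000000000000000000000 := rS 0x7ab51ba4918584a82d6eb9a108454602e800cc65649fd4203670904e392488c6a47258fd8e3b1993c5efd54abc62a586a14324d2f9ae248b (k8 c4322 c5610 c4442 c548 c4282 c1998 c128 c5204 (k8 c4444 c4441 c4346 c4345 c5206 c4432 c4297 c4293 (k8 c4403 c4289 c4287 c4375 c4374 c4373 c4372 c4281 (k8 c4279 c4277 c4839 c5663 c4639 c1794 c1521 c1792 (k8 c5681 c5682 c5084 c922 c4477 c5678 c5660 c5675 (k8 c4394 c4424 c5679 c5290 c5647 c617 c657 c1384 (k2 c1388 c1655 (k1 c2113 k0)))))))) (by decide +kernel)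
def c5684 : PP 8 4 T 0x2002000085000000000040000000000000000000000000000000000000000 := rS 0x5632856492691c962d6394c52511993da22f578c55712 (k8 c5610 c4445 c4441 c4346 c4432 c4298 c4297 c4293 (k8 c4405 c4402 c4290 c4289 c4285 c4375 c4374 c4282 (k4 c4281 c5634 c2116 c2112 (k1 c2027 k0)))) (by decide +kernel)
def c5685 : PP 8 4 T 0x2002000080000000000040000004000000100000000000000000000000000 := rS 0x21af57e910f231605805add7342108a8fea16733592660000cc0a63dc220a271c9346a4b1d9149e417eabc6299888b61a852fa08d712 (k8 c5610 c4442 c5669 c548 c128 c5204 c4285 c4498 (k8 c4443 c4441 c4346 c5206 c4433 c4297 c4295 c4403 (k8 c4375 c4373 c4282 c4279 c4277 c5670 c5680 c4319 (k8 c5683 c4532 c878 c5402 c5056 c633 c2065 c5684 (k8 c1794 c1521 c5678 c5660 c5675 c4394 c4424 c5679 (k8 c5647 c616 c617 c487 c1156 c1242 c1119 c276 (k1 c4496 k0))))))) (by decide +kernel)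
def c5686 : PP 8 4 T 0x2002000080000000000000000004000000100000000000000000000000000 := rS 0x4495590cd3022d4ccf12a8544272488c96156394c26510d8cc9ed10b8bdfaa918a94324d2fa08d712 (k8 c5610 c4442 c5669 c548 c4282 c1998 c4444 c4441 (k8 c4345 c5206 c4432 c4431 c4298 c4297 c4293 c4291 (k8 c4405 c4401 c4290 c4289 c4283 c4375 c4372 c4281 (k8 c4277 c5685 c132 c1463 c1523 c2111 c645 c4532 (k4 c2067 c937 c1726 c637 (k1 c2109 k0)))))) (by decide +kernel)
def c5687 : PP 8 4 T 0x2002000080000000000040000004000000008000000000000002000000000 := rS 0x1281c2b96016710200c22291d8045e5c5cade849f2f9ae222d86a859ccd342095f12 (k8 c5610 c4346 c5669 c5686 c3976 c5684 c1794 c5204 (k8 c4285 c4498 c4442 c548 c1611 c4489 c4424 c4394 (k8 c2001 c4432 c756 c4403 c4402 c4275 c225 c1336 (k4 c3395 c5618 c5664 c37 (k2 c4726 c5642 (k1 c762 k0)))))) (by decide +kernel)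
def c5688 : PP 8 4 T 0x2002000080000000000040000024000000000000000000000000000000000 := rS 0x1c11e592b02d2a3d2a00c082a12add73424f994c4272488c8ec7148ee222d8697cd6011799d4c5c82a859ccd342095f12 (k8 c5610 c4346 c5669 c5686 c3976 c5684 c1794 c5670 (k8 c2001 c2000 c925 c4432 c756 c4442 c548 c5204 (k8 c4285 c4498 c4403 c4402 c4289 c4374 c4372 c4281 (k8 c4277 c2041 c556 c1611 c4489 c4394 c4424 c5687 (k8 c2110 c1607 c227 c1606 c5433 c1694 c306 c5642 (k4 c37 c2780 c5664 c1417 k0)))))) (by decide +kernel)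
def c5689 : PP 8 4 T 0x2002000080000000000040000004000000000000000000000000000000000 := rS 0x13f436422912a1672be222d86c4a126140b34d082 (k8 c5669 c5686 c3976 c50 c885 c4437 c5610 c5204 (k8 c4285 c4498 c4346 c5684 c1794 c5688 c5547 c644 (k2 c4422 c1665 (k1 c4489 k0)))) (by decide +kernel)
def c5690 : PP 8 4 T 0x2002000080000000000000000004000000000000000000000000000000000 := rS 0x22516ca67a894d09342095312 (k8 c5610 c4345 c5669 c5686 c4437 c2000 c5689 c1523 (k4 c941 c645 c3927 c5547 k0)) (by decide +kernel)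
def c5691 : PP 8 4 T 0x100000002002000000000000000000010008000000108010000001000000000000420 := rS 0x30d2ec559878f6082b01c7e5b (k8 c842 c4287 c526 c4476 c4462 c1227 c262 c1185 (k4 c1635 c1193 c1907 c5317 k0)) (by decide +kernel)
def c5692 : PP 8 4 T 0x2002000080000000000040000000000000100000000000000000000000000 := rS 0x60b162c7349b0c38972c26cb60b4a8f4a8043119c025e2e984fe7c4200d9c2a56834a6291d94466d117bf4da9d578c5331116c35130532a195712 (k8 c5610 c4445 c5690 c1652 c4410 c52 c5204 c4285 (k8 c4498 c4443 c4441 c4346 c4343 c4341 c5206 c4432 (k8 c4298 c4293 c4405 c4403 c4402 c4290 c4371 c1904 (k8 c2112 c5634 c227 c1637 c1636 c1522 c712 c1498 (k8 c4477 c488 c658 c1380 c4461 c4904 c5433 c1694 (k8 c306 c842 c5613 c5691 c1196 c4726 c4958 c1029 (k4 c3008 c4487 c1634 c4420 (k1 c2127 k0)))))))) (by decide +kernel)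
def c5693 : PP 8 4 T 0x100000002002000000000000000001010008000000008010000001000000000000420 := rS 0x30d2ec559878f6082b01c7e5b (k8 c842 c4287 c526 c4476 c4462 c1226 c262 c1185 (k4 c1635 c1193 c1907 c5317 k0)) (by decide +kernel)
def c5694 : PP 8 4 T 0x100000002002000000000000044001100008000000000000000000001000000000001 := rS 0x182c58b1cd269b618712e5805a547a032a01054625699c5a53148eca233688be0a65 (k8 c1652 c4410 c4432 c4298 c4293 c4405 c4403 c4402 (k8 c4290 c4285 c5084 c1905 c4478 c2112 c1607 c1606 (k8 c227 c5433 c1694 c306 c5693 c1196 c4726 c4958 (k4 c764 c1029 c3008 c4487 (k2 c1634 c4420 (k1 c2127 k0)))))) (by decide +kernel)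
def c5695 : PP 8 4 T 0x2002000080000000000000000000000000000000000000000000000000000 := rS 0xa712a895a690021a22ab52a6462af54a76242f278cc4e4d1192c5ac7 (k8 c4289 c4285 c4375 c4372 c4282 c4277 c4293 c4297 (k8 c4432 c5610 c4343 c4345 c4346 c4441 c4443 c4444 (k8 c4445 c4498 c5690 c5694 c756 c1904 c5692 c1463 (k2 c940 c2111 k0)))) (by decide +kernel)
def c5696 : PP 8 4 T 0x1200001000000000000000010000000004000000500000500000005550000040002 := rS 0x32176822956af36c48ca6333a24aa1b (k8 c687 c4406 c4314 c4309 c754 c490 c4469 c4341 (k4 c4346 c4445 c2120 c2112 (k2 c524 c260 (k1 c4465 k0)))) (by decide +kernel)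
def c5697 : PP 8 4 T 0x1000000000000000000000000000000000004002000000000000009000084000000 := rS 0x793bc653a44 (k4 c432 c1233 c4363 c1090 (k2 c601 c4482 k0)) (by decide +kernel)
def c5698 : PP 8 4 T 0x1200000002000080000000010020000005400000500000000000001440000000002 := rS 0x184b660a3960bb8c314ee713a9bc8679228193a200faf57e7b0ed10b48b4096432163615d3632068d4962d2984c523b28bc406b3449cdfa1b (k8 c687 c4961 c4408 c4314 c4311 c1 c5695 c4405 (k8 c4403 c4402 c4401 c4290 c4285 c4375 c4373 c4371 (k8 c5696 c2863 c2957 c950 c951 c254 c4993 c1834 (k8 c524 c4476 c4484 c2958 c2474 c4399 c4454 c5697 (k8 c4466 c2968 c831 c441 c601 c337 c1019 c498 (k8 c496 c1024 c4530 c4482 c4449 c2122 c625 c4450 (k2 c851 c2123 (k1 c1167 k0)))))))) (by decide +kernel)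
def c5699 : PP 8 4 T 0x1000000000000000000000000000000000000002000000000000002000200000402 := rS 0xef193c9ed36424e9683e33 (k8 c62 c57 c830 c966 c316 c1967 c705 c601 (k2 c4446 c1887 (k1 c4482 k0))) (by decide +kernel)
def c5700 : PP 8 4 T 0x4000000000002000084000120080001000000000002000000040010042000000000200 := rS 0x176bf6290d82453c8e49a35258ede34b (k8 c4428 c5695 c4403 c4375 c4373 c4282 c4279 c601 (k4 c297 c1715 c237 c4530 (k2 c4572 c1478 (k1 c2114 k0)))) (by decide +kernel)
def c5701 : PP 8 4 T 0x110200000002000086000000080020000000000002002080040000002040104000400 := rS 0x3ca6d329c5eae16f171ba3d6a9438ac47a910407882070e8e49235238fd8e3b39bf4b297 (k8 c4631 c4993 c4961 c4408 c4403 c4289 c4287 c4374 (k8 c4373 c4281 c4279 c759 c495 c1913 c4466 c4462 (k8 c1153 c274 c1145 c585 c5467 c1707 c849 c233 (k8 c4418 c1747 c2113 c2069 c5700 c76 c105 c4123 (k1 c969 k0))))) (by decide +kernel)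
def c5702 : PP 8 4 T 0x110200000002000084000000081020000000000002400000000000002040106000402 := rS 0xc31e90582c521a7132084a914ac7b2db319697249348e4b1fb1ca63b28bc4aa607e97c1a5d1193da259 (k8 c4993 c300 c299 c4372 c752 c4371 c488 c4961 (k8 c4477 c4406 c5695 c4405 c4403 c4290 c4289 c4287 (k8 c4375 c4374 c4282 c4281 c4631 c1755 c2116 c5701 (k8 c4270 c4476 c257 c2966 c751 c1072 c960 c4674 (k4 c4530 c1714 c3058 c234 (k2 c4958 c4503 k0)))))) (by decide +kernel)
def c5703 : PP 8 4 T 0x1200000002000095000000000000000005400000000000040000000000000000000 := rS 0x14540b2822492691c96c729944aafd (k8 c4961 c4406 c4405 c4290 c4289 c4375 c4374 c4282 (k4 c4281 c4275 c2116 c4196 (k2 c4455 c4484 k0))) (by decide +kernel)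
def c5704 : PP 8 4 T 0x111200000002000084000000081020000000000002400000000000002040004000402 := rS 0x108602ef1 (k4 c5695 c1910 c4465 c5699 (k1 c5702 k0)) (by decide +kernel)
def c5705 : PP 8 4 T 0x101200000002000084000000000460000004400000100000000000000440000000002 := rS 0x8ca64ae413b1083809038295ccc0c1b1a21727c4c60ad789ad528530435fa5f06974461b (k8 c687 c4372 c752 c4371 c488 c4961 c5243 c4477 (k8 c713 c977 c620 c5695 c900 c5698 c4441 c299 (k8 c1910 c300 c4479 c4465 c5703 c5446 c5704 c4 (k8 c31 c567 c308 c309 c1873 c751 c1031 c4446 (k1 c4679 k0))))) (by decide +kernel)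
def c5706 : PP 8 4 T 0x111200001000000004000000081050000005400000500000504000001550000040002 := rS 0x8b40b259a16a10c9969f569fd127d (k8 c4409 c4314 c4313 c163 c1780 c1755 c5696 c4489 (k4 c951 c4395 c4422 c1834 (k2 c524 c2124 k0))) (by decide +kernel)
def c5707 : PP 8 4 T 0x101200000002000084000000010050000005400000100000000000001440000000002 := rS 0x9e64095964fa220516cd0b44c64272491d8e653fa24faaf549acc0fd2f834ba2386bc4a2290994c5a4b (k8 c4375 c4285 c4290 c4401 c4402 c4405 c5695 c5243 (k8 c4372 c752 c4371 c488 c4961 c4477 c620 c977 (k8 c5706 c4409 c4314 c4313 c490 c4289 c4374 c4281 (k8 c4277 c5696 c4339 c951 c5446 c5443 c1834 c4484 (k4 c4396 c4455 c434 c2124 (k2 c2110 c1664 k0)))))) (by decide +kernel)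
def c5708 : PP 8 4 T 0x1000000000080000000000000000000000000000000000000000002200000002 := rS 0x2c62a713796518360307c1a35 (k8 c4373 c4371 c57 c831 c312 c313 c487 c1019 (k4 c496 c4386 c1115 c4480 k0)) (by decide +kernel)
def c5709 : PP 8 4 T 0x110200000000000004400000000150000005400000010000004000000000000840000 := rS 0xc966a7a868b409fd127d (k8 c4409 c4314 c4313 c1834 c524 c4806 c4489 c1397 (k2 c1664 c2124 k0)) (by decide +kernel)
def c5710 : PP 8 4 T 0x101200000002000084000000000050000005400000100000000000001440000000002 := rS 0x4fd0d98d1278602ea58932c66ac258b5e265099561a1b (k8 c687 c5243 c4406 c4401 c490 c5695 c4285 c4375 (k8 c5707 c942 c2027 c4469 c4444 c5709 c4465 c259 (k4 c260 c5703 c4395 c1397 (k1 c4489 k0)))) (by decide +kernel)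
def c5711 : PP 8 4 T 0x101200000002000084000000000440000004400000100000000000000440000000002 := rS 0x13f43662b5a24f18284a6a9429821afd2f834ba23 (k8 c4372 c752 c4371 c488 c4961 c5243 c4477 c713 (k8 c977 c4290 c5705 c5710 c299 c300 c2046 c5703 (k2 c4395 c1398 (k1 c4489 k0)))) (by decide +kernel)
def c5712 : PP 8 4 T 0x510000000002000084000000055440000000000000000000000000004000000000000 := rS 0x6852996cd279249a4725b1ca651 (k8 c4405 c4290 c4289 c4375 c4374 c4282 c4281 c4646 (k4 c5446 c5517 c4491 c2116 (k1 c4426 k0))) (by decide +kernel)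
def c5713 : PP 8 4 T 0x111200000002000084000000055440000004000000500000000000004000001000002 := rS 0xb228366d893c4ca13318a4ce89 (k8 c4314 c4309 c4402 c754 c4401 c490 c5695 c5712 (k4 c4341 c686 c2120 c4465 (k1 c524 k0))) (by decide +kernel)
def c5714 : PP 8 4 T 0x101200000002000084000000000440000004400000100000000000000040000000002 := rS 0x170da85966d562ad5e19528cc5c85258a4a2f13284cce6b549821afd2f834ba23 (k8 c4372 c752 c4371 c488 c4961 c5243 c4477 c977 (k8 c620 c4309 c4401 c490 c5695 c4405 c4402 c4375 (k8 c713 c5711 c17 c1842 c1870 c788 c1844 c5713 (k4 c944 c2027 c900 c686 (k2 c5709 c4465 k0))))) (by decide +kernel)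
def c5715 : PP 8 4 T 0x101200000002000084000000000040000004400000100000000000000040000000002 := rS 0x3d9219458b95b13362115e81188ce8aa63043422492691c2ac77897c1a5d1199426673f954fafd (k8 c4961 c4409 c4406 c4313 c4309 c4401 c490 c4372 (k8 c752 c4371 c488 c5695 c4289 c4283 c4374 c4282 (k8 c4281 c4275 c5243 c4477 c5714 c4453 c2908 c2006 (k8 c1896 c909 c4484 c712 c4341 c944 c4469 c5443 (k4 c1870 c716 c1496 c2107 k0))))) (by decide +kernel)
def c5716 : PP 8 4 T 0x10000000000000002000000010040000000000000000000001000000080000000000 := rS 0x13f43 (k2 c4395 c1398 (k1 c5588 k0)) (by decide +kernel)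
def c5717 : PP 8 4 T 0x111200000002000085000000051440000005000000500000000000005400000000002 := rS 0x3449ecb0c229566d891249a4725b1ca6517899426631499d1255 (k8 c4406 c4314 c4309 c4402 c754 c4401 c490 c5695 (k8 c4405 c4290 c4289 c4375 c4374 c4282 c4281 c4469 (k8 c4341 c4445 c2120 c5713 c1753 c259 c260 c2116 k0))) (by decide +kernel)
def c5718 : PP 8 4 T 0x101200000002000084000000010440000004400000102000000000001400000000002 := rS 0x4fd0d90cb40a2da016898c95e4b3284cfe893e9ad528566c345449 (k8 c4281 c5715 c4325 c5716 c713 c977 c620 c4409 (k8 c4314 c4313 c4401 c490 c4375 c1775 c5717 c4339 (k8 c951 c436 c5443 c1834 c1750 c2124 c4806 c1664 (k1 c5588 k0)))) (by decide +kernel)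
def c5719 : PP 8 4 T 0x101200000002000084000000010440000004400000102000000000000400000000002 := rS 0x61a017278c19a4978954541b869ad5285 (k8 c713 c977 c620 c4325 c687 c5715 c4406 c5695 (k8 c4281 c5716 c5718 c299 c1910 c5703 c4465 c260 k0)) (by decide +kernel)
def c5720 : PP 8 4 T 0x101200000002000084000000000440000004400000102000000000000400000000002 := rS 0x13f43663449e180ba9624cb188cd58858692c5a53789942655508a8921b (k8 c687 c4281 c5715 c1734 c4406 c4401 c490 c5695 (k8 c4290 c4285 c4375 c4325 c713 c5719 c942 c2046 (k8 c2027 c4469 c4444 c5709 c4465 c259 c260 c5703 (k2 c4395 c1397 (k1 c5588 k0))))) (by decide +kernel)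
def c5721 : PP 8 4 T 0x1000000080000000000500000001400000101000000000005401000000002 := rS 0x4e402a4db1213934be0d2e88c366b (k8 c493 c687 c4372 c752 c4371 c488 c4282 c4277 (k4 c4469 c4341 c4345 c2119 (k2 c4839 c1360 k0))) (by decide +kernel)
def c5722 : PP 8 4 T 0x1001001000000080000000000400000001400000101000000000001400000000002 := rS 0x1dce26f3c8193a200faf57eb13dd103a5a4082cb2190b1b0ae321a92c061b12a95770c2f834ba23 (k8 c4372 c752 c4371 c488 c4477 c4847 c4385 c4381 (k8 c687 c1 c4375 c4373 c5721 c2957 c950 c951 (k8 c254 c4993 c2547 c1834 c4476 c759 c4484 c2474 (k8 c624 c4399 c4454 c5697 c4466 c2968 c831 c601 (k4 c1019 c496 c1024 c2122 k0))))) (by decide +kernel)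
def c5723 : PP 8 4 T 0x40000000000000000000001000000000001000000000000010000001800080400004402000100000400 := rS 0xc521b0c831922a60f09d (k8 c968 c580 c581 c297 c4447 c1847 c2056 c1927 (k2 c4530 c4759 k0)) (by decide +kernel)
def c5724 : PP 8 4 T 0x20000000000000000000500001401400000000400000008000000000000000000002 := rS 0x1328f48a354abb (k4 c4847 c4385 c4383 c4327 (k2 c2709 c1071 (k1 c2126 k0))) (by decide +kernel)
def c5725 : PP 8 4 T 0x200000000000000a0000500001401400000000400000040000000002000000000002 := rS 0x1b90c821e0e960ae451c9346a4b02aec9e25 (k8 c4381 c298 c4847 c2 c4375 c4373 c4282 c4279 (k8 c297 c5724 c4476 c1026 c487 c1913 c2210 c272 (k1 c2114 k0))) (by decide +kernel)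
def c5726 : PP 8 4 T 0x21000000002000080000500081400000010000000000000000000002080000800002 := rS 0x1cac423c16438418ca70b62160b42963f298ede205899b466774d82cf66a (k8 c1910 c2440 c2540 c3872 c3816 c62 c519 c4441 (k8 c2 c5695 c4403 c4290 c4287 c4428 c1774 c3643 (k8 c2266 c5723 c5725 c4367 c1052 c4733 c1234 c4482 (k4 c4651 c4476 c4645 c1951 k0)))) (by decide +kernel)
def c5727 : PP 8 4 T 0x101200000002000084000000050040000005400000000000040000002000000000000 := rS 0x335a313 (k4 c4441 c301 c5446 c5703 k0) (by decide +kernel)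
def c5728 : PP 8 4 T 0x101200000002000084000000010440000005400000100000000000000400000000002 := rS 0x5f5117aa9409dcda160cb415c4f198c096f144954541b12c30c2fd2f834ba23 (k8 c4372 c752 c4371 c488 c4961 c5720 c4477 c4381 (k8 c687 c5715 c4406 c4314 c5695 c4375 c5722 c62 (k8 c298 c5727 c1774 c260 c4465 c519 c3816 c1834 (k4 c5323 c4507 c4484 c5726 (k1 c4399 k0))))) (by decide +kernel)
def c5729 : PP 8 4 T 0x40400000000000800001000000000090000001004440000000000000001000000000000080200000002 := rS 0x2308f8a30d82c55bc5ce26f58a4878062d1246a9146c30be0d2e88d3a99 (k8 c4443 c4343 c4372 c752 c4371 c488 c4477 c4383 (k8 c4327 c4373 c4281 c830 c831 c314 c315 c624 (k8 c1019 c496 c4416 c1742 c1782 c1660 c1127 c4480 (k2 c4521 c4494 (k1 c4539 k0))))) (by decide +kernel)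
def c5730 : PP 8 4 T 0x100200001000000010000000000000100080000001000080500004401080102000404 := rS 0xc24ab147a43208203cc12281c3a973d95cce55 (k8 c4406 c4309 c38 c704 c928 c759 c495 c4828 (k8 c1713 c4466 c4462 c1873 c276 c234 c4530 c1694 (k2 c2115 c4958 k0))) (by decide +kernel)
def c5731 : PP 8 4 T 0x40000000000000000001000002000084801800100000000000000004000000000000000000000008000 := rS 0xc58bade2871 (k4 c3487 c4480 c4353 c4963 (k2 c1756 c4572 k0)) (by decide +kernel)
def c5732 : PP 8 4 T 0x400000000000000000001000000010015541001541101100000000000000501154400000000000000 := rS 0x11e9b5bc5e303c (k4 c2115 c4472 c4416 c1742 (k2 c4448 c4521 (k1 c2126 k0))) (by decide +kernel)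
def c5733 : PP 8 4 T 0x1000000000001000000000200000000002000002 := rS 0x1583a03 (k4 c1 c1219 c4828 c750 k0) (by decide +kernel)
def c5734 : PP 8 4 T 0x40400000000000000001000002000084801141001541101102000004000000080110000000000008000 := rS 0x21b157ec3588fca63b28bc5a249 (k8 c4281 c1750 c5695 c4405 c4403 c4290 c4287 c715 (k4 c2028 c5731 c1757 c339 (k1 c5732 k0))) (by decide +kernel)
def c5735 : PP 8 4 T 0x40400000000000020200000002000084801001001441100002000400000000080100000000002000002 := rS 0x618f57208382c4f71821b162abc209bc9a3f298eca2f12e88cca13318a4ce7f7ea451aa55db44920e (k8 c258 c4281 c1750 c4847 c4385 c4383 c4327 c4961 (k8 c4313 c4309 c4402 c754 c4401 c490 c4372 c752 (k8 c5695 c4405 c4403 c4290 c4287 c4282 c1500 c1872 (k8 c5734 c4354 c1176 c2014 c4472 c4365 c714 c4480 (k4 c1416 c1473 c4668 c2029 (k1 c2115 k0)))))) (by decide +kernel)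
def c5736 : PP 8 4 T 0x40400000000000820200000002000084801001000440000002000000100040080000000000002000002 := rS 0x1c4df155c2fe30c2208f4108f2b10d62c52c9d87e531d945e27f2a9cdfa9146a042e0d689255299059153a6d (k8 c4341 c4343 c5733 c2253 c4443 c4345 c4281 c1750 (k8 c4371 c522 c51 c4383 c4327 c4961 c4408 c4406 (k8 c4313 c5695 c4405 c4403 c4290 c4287 c5735 c1112 (k8 c1095 c1152 c1887 c4476 c2709 c751 c234 c1064 (k8 c2115 c4472 c1216 c2029 c4539 c1499 c1473 c4480 k0))))) (by decide +kernel)
def c5737 : PP 8 4 T 0x101200000002000084000000010440000004400000100000000000000400000000002 := rS 0x421badc83198bb008a5b1082c9c9918aa53a6d892d5574b57b443033453282e84139347ec7298eca2f10186c4aa5a1b213f0c7e9744665099fcce5f069f5422a24984c629 (k8 c4402 c754 c5720 c4281 c5715 c1734 c4409 c4371 (k8 c488 c4309 c4313 c4401 c490 c4372 c752 c4961 (k8 c4477 c4384 c2118 c4422 c4385 c4381 c687 c1 (k8 c5695 c4405 c4403 c4290 c4289 c4287 c4282 c4277 (k8 c5728 c522 c717 c716 c951 c4465 c1750 c3686 (k8 c4427 c1672 c3640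 c5443 c4341 c4343 c4345 c4441 (k8 c4443 c4839 c2253 c5729 c5730 c5733 c5736 c4420 (k4 c4450 c1852 c3679 c4989 (k2 c4472 c338 k0))))))))) (by decide +kernel)
def c5738 : PP 8 4 T 0x101200000002000084000000000440000004400000100000000000000400000000002 := rS 0x84658c466ac642953e25861845a537897c1a5d1199426631499cfe7d7ea845449 (k8 c4281 c5715 c1734 c4961 c4409 c4313 c4309 c4402 (k8 c754 c4401 c490 c4372 c752 c4371 c488 c5695 (k8 c4290 c4285 c5720 c4477 c4381 c4384 c4385 c2118 (k4 c5737 c942 c2046 c2027 (k2 c5721 c717 k0))))) (by decide +kernel)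
def c5739 : PP 8 4 T 0x111200000002000084000000000440000005400000100000000000000000000000002 := rS 0x170db2cdaac789942667508a892335292cd6050caa446af14aac5c51 (k8 c4405 c5738 c1844 c4402 c788 c4372 c786 c1870 (k8 c2 c1839 c4375 c1842 c17 c4281 c5715 c1734 (k8 c4309 c4401 c490 c5695 c5713 c944 c2027 c686 (k2 c5709 c4465 k0)))) (by decide +kernel)
def c5740 : PP 8 4 T 0x1001000000000000800000000000000005400000000000000000000000000000000 := rS 0x10345 (k2 c4455 c1900 (k1 c4484 k0)) (by decide +kernel)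
def c5741 : PP 8 4 T 0x40000000000000101200001000000000000000054000000004000000504000000000000000001040002 := rS 0xb228366d89194ce89 (k8 c4314 c4309 c490 c4491 c4341 c686 c2120 c4465 (k1 c524 k0)) (by decide +kernel)
def c5742 : PP 8 4 T 0x101200000002000084000000000440000005400000100000000000000000000000002 := rS 0x164006cdaaca5b2d3e618604de25f06974c6677ea8454495292cd6050caa446af14aac5c51 (k8 c4405 c5738 c1844 c4402 c788 c4372 c786 c1870 (k8 c2 c1839 c4375 c1842 c4281 c5715 c1734 c4961 (k8 c4309 c754 c752 c4371 c488 c5695 c4401 c5739 (k8 c4325 c4384 c5740 c4855 c5741 c944 c686 c2119 (k2 c4465 c1834 k0))))) (by decide +kernel)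
def c5743 : PP 8 4 T 0x101200000002000084000000000440000004400000100000000000000000000000002 := rS 0x15b13451b1901a0785d08af0c8b822490691c2ac714bc4ca13339fcaa7d (k8 c4409 c4406 c4313 c4309 c4401 c490 c5695 c4402 (k8 c4289 c4283 c4374 c4371 c4281 c4275 c5738 c1870 (k8 c788 c5742 c522 c1496 c4465 c2107 c686 c716 (k2 c4341 c944 (k1 c5443 k0))))) (by decide +kernel)
def c5744 : PP 8 4 T 0x101200000002000084000000000040000004400000100000000000000000000000002 := rS 0x7b24328b172b6266c422bd0260188ce8aa6089249a470ab1de25f0699426673f954fafd (k8 c4961 c4409 c4406 c4313 c4309 c4401 c490 c4371 (k8 c488 c5695 c4289 c4283 c4374 c4282 c4281 c4275 (k8 c5743 c4453 c2908 c2006 c4532 c1896 c909 c4484 (k8 c712 c4341 c944 c4469 c5443 c1870 c716 c1496 (k1 c2107 k0))))) (by decide +kernel)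
def c5745 : PP 8 4 T 0x10200001000000024000000010040000045500001514000001000004400000000000 := rS 0xac609f89d0d5ccb5599cfe89 (k8 c4314 c4313 c4309 c1671 c1750 c2120 c4806 c4346 (k4 c1780 c4469 c5588 c300 k0)) (by decide +kernel)
def c5746 : PP 8 4 T 0x10201001000000004000000010040000045500001114500501000004400005140000 := rS 0x2ad5f1218859a26b3019d1255 (k8 c4406 c4314 c4309 c4477 c620 c5745 c2109 c1910 (k4 c4469 c4346 c4445 c2120 k0)) (by decide +kernel)
def c5747 : PP 8 4 T 0x20200000002000004000000000440000045500001100500001000000000005400002 := rS 0xcda2b2e96a8681ac2a5328a24aaa5a1b213e65099fcce7d50984c629 (k8 c4402 c754 c4325 c4329 c4409 c4309 c4313 c4401 (k8 c490 c4384 c2118 c4422 c4385 c4406 c4314 c4405 (k8 c4290 c4283 c492 c2109 c2119 c4426 c1750 c4398 (k2 c1483 c4495 k0)))) (by decide +kernel)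
def c5748 : PP 8 4 T 0x400000000000100000000000000004000200080010000000000000000000000000000000000000000 := rS 0x45d2ac25b24d98c5a2d2d2ecb (k8 c1754 c4631 c4428 c4454 c1176 c4495 c1778 c2069 (k4 c2068 c1746 c4362 c4487 k0)) (by decide +kernel)
def c5749 : PP 8 4 T 0x200000000000000a0000100001401400000000400000040000000002000000000002 := rS 0x17f13 (k2 c4441 c4566 (k1 c5725 k0)) (by decide +kernel)
def c5750 : PP 8 4 T 0x100000000000000020001000004002040000000000800040000000004000000000002 := rS 0x3c8b1092a1c499063205 (k8 c2 c4367 c1052 c1239 c4733 c973 c4651 c4487 (k2 c340 c4416 k0)) (by decide +kernel)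
def c5751 : PP 8 4 T 0x400000000000120000000002000084000000080440400010000401800000000000002000000000002 := rS 0xcda2aa13abd2d88582cb6825e96ab1f94c76f119a84540b (k8 c2540 c5243 c4329 c950 c5695 c4403 c4290 c4287 (k8 c82 c4428 c4631 c1774 c1754 c3643 c2266 c5723 (k4 c5748 c5750 c5749 c4398 (k2 c1483 c4495 k0)))) (by decide +kernel)
def c5752 : PP 8 4 T 0x800000000000000000200000002 := rS 0xc5a (k2 c830 c831 (k1 c2445 k0)) (by decide +kernel)
def c5753 : PP 8 4 T 0x400000000000102200000000000000015201000000011004001000010000000000000000000000000 := rS 0x49c5d2e745cacd12733da2cef15 (k8 c4354 c4438 c4322 c4319 c4408 c4314 c4311 c1207 (k4 c2123 c4793 c4417 c1656 (k1 c4487 k0))) (by decide +kernel)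
def c5754 : PP 8 4 T 0x8000408000000000000400000040000000000000000000000 := rS 0x2c95d2c98 (k4 c1946 c1947 c1071 c1195 (k1 c4476 k0)) (by decide +kernel)
def c5755 : PP 8 4 T 0x10000000001000000000000000000001400000000000000000000010002000100000000 := rS 0x212608b13 (k4 c4441 c297 c4488 c4472 (k1 c1927 k0)) (by decide +kernel)
def c5756 : PP 8 4 T 0x2000001000000000002000000000400000000000800000100000002000000000002 := rS 0x125621164385b4e1063205369ec3221 (k8 c5752 c4436 c4319 c4317 c2 c4450 c1852 c5755 (k4 c968 c4733 c1234 c4651 (k2 c4476 c236 (k1 c751 k0)))) (by decide +kernel)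
def c5757 : PP 8 4 T 0x20000000000000080000040000000000000400000800080040100000000100000400 := rS 0x3e435e9043a983c0e49a4b (k8 c4375 c4282 c4279 c580 c581 c759 c1847 c2016 (k2 c1927 c4266 (k1 c4466 k0))) (by decide +kernel)
def c5758 : PP 8 4 T 0x80400000000000102200000000000000001201000000001004400000010000000000000080000000000 := rS 0x5bc5d28b93cc558ac3 (k8 c4459 c4429 c4354 c2016 c1207 c5753 c4418 c3676 (k1 c4492 k0)) (by decide +kernel)
def c5759 : PP 8 4 T 0x2000000000000000000000000002000000000000800000000000000000000000002 := rS 0x92b108b21c2096e32053d864666d (k8 c4317 c950 c4436 c4319 c2 c4367 c968 c1052 (k4 c4733 c1234 c4651 c4476 (k2 c236 c751 k0))) (by decide +kernel)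
def c5760 : PP 8 4 T 0x400000000000000000000800000001400100000000000000000000000000000000000 := rS 0x13319 (k2 c4369 c1133 (k1 c4488 k0)) (by decide +kernel)
def c5761 : PP 8 4 T 0x400000000000000000000002000090015541000000000000000000000000040150000000000000000 := rS 0x1e0d87249268d4963f6394c7651 (k8 c4405 c4403 c4290 c4289 c4287 c4375 c4373 c4282 (k4 c4281 c4279 c2114 c2115 (k1 c5531 k0))) (by decide +kernel)
def c5762 : PP 8 4 T 0x400000040000020002000000000010 := rS 0x2b965301c (k4 c1913 c1912 c1026 c1071 (k1 c4476 k0)) (by decide +kernel)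
def c5763 : PP 8 4 T 0x400000000000102200000002000090001441008001001004001000010040040150000000000000000 := rS 0x178c362a556677 (k4 c4438 c4311 c1700 c1675 (k2 c5754 c5761 (k1 c5753 k0))) (by decide +kernel)
def c5764 : PP 8 4 T 0x100200000002000084000000010440000004400000100000000000000400000000002 := rS 0x2f5874a62aacf2438c1057e5b22a756ac110b299ad15782d366a0b50c9f13640c054bb52a7d1a2550a44c30c249348e4b0ab1ca65178814be0d2e88cca13318a4ce7f449f5fa1b42a2c3277408ccdb08 (k8 c5744 c4317 c950 c4439 c4438 c4436 c4322 c4321 (k8 c4315 c4961 c4409 c4314 c4313 c4309 c4402 c754 (k8 c4401 c490 c4372 c752 c4371 c488 c2 c5695 (k8 c4405 c4290 c4289 c4283 c4375 c4374 c4282 c4281 (k8 c5746 c4325 c4327 c4329 c4381 c4383 c4384 c4385 (k8 c4847 c5243 c5721 c2118 c4441 c298 c4422 c5747 (k8 c1910 c3872 c2540 c5751 c301 c5446 c2116 c5752 (k8 c5756 c1708 c5759 c297 c5757 c5760 c5762 c5755 (k8 c4446 c4447 c5763 c1757 c4491 c4459 c5758 c5761 k0))))))))) (by decide +kernel)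
def c5765 : PP 8 4 T 0x100200000002000084000000000440000004400000100000000000000400000000002 := rS 0x3259a9e869814b438928596a9358c558537897c1a5d11994267f449f50a8b408ccdb08 (k8 c5744 c4317 c950 c4439 c4322 c4321 c4409 c4314 (k8 c4313 c4401 c490 c4372 c752 c4371 c488 c5695 (k8 c4290 c5764 c2046 c2048 c948 c2027 c900 c4469 (k8 c4806 c4444 c2119 c4325 c4489 c1397 c1664 c2124 k0)))) (by decide +kernel)
def c5766 : PP 8 4 T 0x100200000002000084000000000440000004400000100000000000000000000000002 := rS 0x3259a9ea1a85970d5618156af549ad4a2e259440a5f0697446650998c52673fa24fa6d42a2d0308 (k8 c5744 c4439 c4322 c4321 c4317 c4409 c4314 c4313 (k8 c4309 c4402 c754 c4401 c490 c4372 c752 c4371 (k8 c488 c2 c4405 c4375 c5765 c1842 c1839 c786 (k8 c788 c1844 c2119 c2120 c4325 c2027 c900 c4806 (k4 c4489 c1397 c1664 c2124 k0))))) (by decide +kernel)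
def c5767 : PP 8 4 T 0x10201001000000004000000050040000045500001514500501000004000005140000 := rS 0x550b8ce89 (k4 c4314 c4309 c5746 c2120 (k1 c1844 k0)) (by decide +kernel)
def c5768 : PP 8 4 T 0x101000010000020000a0000000120000040000000000000000000010004040200000002 := rS 0x24d2b171e30e2842389bc8a06068d4a6f1 (k8 c5695 c4290 c4373 c4371 c831 c440 c1019 c496 (k8 c4472 c4480 c2054 c340 c4963 c861 c1654 c4487 k0)) (by decide +kernel)
def c5769 : PP 8 4 T 0x101102000000020000a0000000020020040000000000002080000010004000010000002 := rS 0x18694220f486910f08562591c8fde2737e8ac928f (k8 c2851 c4281 c1734 c4961 c4408 c5695 c4287 c4279 (k8 c64 c625 c5768 c4466 c1153 c2210 c274 c4472 (k2 c5467 c1209 (k1 c861 k0)))) (by decide +kernel)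
def c5770 : PP 8 4 T 0x1102000000020000a0001000020020800000004000002000000000004400000000002 := rS 0x45218183c581096d2e1d2095e32f1 (k8 c5695 c4448 c2887 c1848 c764 c933 c5769 c830 (k4 c4476 c4466 c486 c2210 (k2 c1217 c4472 k0))) (by decide +kernel)
def c5771 : PP 8 4 T 0x2100000000002000080000000000020050000000000000000000000000000000000000 := rS 0x24e2eb7 (k4 c4353 c4963 c1738 c4487 k0) (by decide +kernel)
def c5772 : PP 8 4 T 0x1000001000000000080000000100000000000000000000000000000000000000000080 := rS 0x389bc1a35 (k4 c4373 c4371 c1019 c496 (k1 c4480 k0)) (by decide +kernel)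
def c5773 : PP 8 4 T 0x110200000002000080000000000020010400000000002080000000000000000000402 := rS 0x488f43c081081e2a1d58a5cb23933954e6fd (k8 c4961 c4408 c4406 c4309 c4279 c64 c928 c625 (k8 c759 c5771 c5772 c831 c4462 c4466 c234 c1153 (k1 c5467 k0))) (by decide +kernel)
def c5774 : PP 8 4 T 0x200000002000080000140000044400400400000002040040150000040000000002 := rS 0x15812590889c724d0692c5a6710afe30f1 (k8 c5695 c4472 c4369 c830 c4309 c4285 c4375 c4371 (k8 c4282 c4279 c4277 c4275 c4218 c4617 c4476 c751 k0)) (by decide +kernel)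
def c5775 : PP 8 4 T 0x100000000000000002400200000020110000000000000000000000000000000000000 := rS 0x25d84b9 (k4 c1208 c2068 c899 c4958 k0) (by decide +kernel)
def c5776 : PP 8 4 T 0x1000000004000000040000200000000000000002 := rS 0x2c95c0e1d (k4 c1219 c1217 c750 c486 (k1 c4476 k0)) (by decide +kernel)
def c5777 : PP 8 4 T 0x40000020000400000400002 := rS 0x2b964121f (k4 c1104 c1064 c487 c751 (k1 c4476 k0)) (by decide +kernel)
def c5778 : PP 8 4 T 0x100200000002000082000000020840000045504000002000000000004400005400002 := rS 0x15cb2090f90882455e96d2abb4d82c1cd00883496152984ca2892ac34624d6593d8e9f52b05322b24a3d3aa0 (k8 c2067 c2907 c2851 c4281 c1734 c3980 c3893 c79 (k8 c1397 c4289 c1479 c2027 c4282 c2006 c4330 c4406 (k8 c4314 c4405 c4401 c4290 c4283 c4375 c4371 c4275 (k8 c2109 c2108 c5657 c5770 c1978 c860 c5773 c5775 (k8 c5776 c5777 c5774 c276 c236 c487 c751 c4476 k0))))) (by decide +kernel)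
def c5779 : PP 8 4 T 0x400000000000000000000002000084001100020820020000000000000000040010000000000000000 := rS 0x372290d6abb5fadd849162c5c724d1a92c7ec729abe968f (k8 c2851 c4458 c909 c4290 c4289 c4287 c4375 c4373 (k8 c4282 c4279 c4418 c1786 c2897 c861 c1747 c4572 (k4 c1979 c1707 c2054 c1209 (k2 c4989 c2114 k0)))) (by decide +kernel)
def c5780 : PP 8 4 T 0x400000000000100200000002000086000000020800800000004000002000000000000400000800002 := rS 0x420f114425b4a82d7a1d20c65e30d189349ec760a3d3aa0 (k8 c2067 c2907 c2851 c3893 c4289 c1479 c4282 c2006 (k8 c4330 c5695 c4448 c1848 c764 c3982 c573 c5779 (k4 c5773 c830 c5776 c4466 (k2 c4472 c276 k0)))) (by decide +kernel)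
def c5781 : PP 8 4 T 0x1000000000000110200000002000080000140000020010400000000002080000000000000000800002 := rS 0x1195f9e081150525c6a67 (k8 c4309 c4373 c928 c5773 c5771 c573 c572 c1053 (k2 c4447 c4493 k0)) (by decide +kernel)
def c5782 : PP 8 4 T 0x40000080001000001000002 := rS 0x2b964121f (k4 c276 c236 c487 c751 (k1 c4476 k0)) (by decide +kernel)
def c5783 : PP 8 4 T 0x100200000002000084000000000040000004400000100000000000000400000000002 := rS 0xae593c8243e4021914165b5ea55769b0b1ecee31269809ec74fa95322b47a7540cca2d2e86cb3fab15e6b86a9866810ca2d0a6d0dc21fa6314994ba232f835e2510994c2a49 (k8 c4281 c4283 c4290 c4401 c4405 c5695 c4371 c488 (k8 c4372 c752 c490 c4402 c754 c4961 c5744 c4315 (k8 c4317 c4321 c4322 c4436 c4439 c950 c5766 c4330 (k8 c2008 c909 c5767 c4313 c2027 c4806 c4458 c4453 (k8 c4495 c2067 c2907 c2851 c1734 c3980 c79 c1397 (k8 c4289 c1479 c4532 c4282 c2006 c4438 c4319 c5778 (k8 c5780 c1978 c860 c5775 c5781 c566 c5776 c5782 (k4 c5774 c1104 c1063 c1847 (k2 c487 c751 (k1 c2117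 k0)))))))))) (by decide +kernel)
def c5784 : PP 8 4 T 0x400000000000100200000002000084001100020820000001504400002080040000000000005400002 := rS 0xc6e049e576715f901849162c5d280b070449a0d1a92d130d57d2d628f (k8 c2851 c625 c4458 c909 c4330 c4314 c4375 c4373 (k8 c4371 c4282 c4275 c2108 c5657 c5773 c4418 c1786 (k8 c2897 c861 c5779 c4572 c585 c1979 c2056 c1064 (k2 c2122 c4462 (k1 c1019 k0))))) (by decide +kernel)
def c5785 : PP 8 4 T 0x400000000000100200000002000084001100020820000000000000002080040010000000000800002 := rS 0x4a82e1a8f (k4 c2851 c4330 c573 c5779 (k1 c5773 k0)) (by decide +kernel)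
def c5786 : PP 8 4 T 0x400000000000100200000002000084001100020820800001504400002080040000000000005000002 := rS 0xf26f3881922205faec86400b2c46a8f (k8 c2851 c4373 c625 c5784 c5785 c22 c3768 c1053 (k4 c1849 c893 c831 c585 (k2 c1019 c501 (k1 c2122 k0)))) (by decide +kernel)
def c5787 : PP 8 4 T 0x400000000000100200000002000086000000020800800001504400002000000000000000005000002 := rS 0x10486451096d7b19788c49a4f63b053aa0 (k8 c2067 c2907 c3893 c4289 c1479 c4282 c2006 c5695 (k8 c4448 c3982 c5786 c830 c5776 c5782 c1849 c4472 k0)) (by decide +kernel)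
def c5788 : PP 8 4 T 0x400000000000100200000002000084001140020820010001504400002080040000000000005000002 := rS 0xb4368a8f (k4 c2851 c4453 c4330 c5784 (k1 c5781 k0)) (by decide +kernel)
def c5789 : PP 8 4 T 0x100200000002000084000000000040000004400000100000000000000000000000002 := rS 0x592b9e43e0920114165b5ea5576434d8b93a8f15a65829f5013d994365d2d58af301ae8b0d52a9866813b86516853d9b43708248558e5328bc4be0d2e88cca13318a4fefd (k8 c4961 c4313 c4402 c754 c4401 c490 c4372 c752 (k8 c4371 c488 c5695 c4405 c4290 c4289 c4283 c4281 (k8 c5744 c4315 c4317 c4319 c4321 c4322 c4436 c4438 (k8 c4439 c950 c5766 c79 c4330 c4453 c2008 c4532 (k8 c909 c5767 c4458 c2027 c4806 c4495 c1479 c2067 (k8 c1397 c3893 c3980 c1734 c2851 c2907 c5783 c5787 (k8 c1952 c1978 c860 c5775 c5788 c566 c5776 c5774 (k4 c1063 c1103 c1847 c751 (k2 c487 c2117 k0))))))))) (by decide +kernel)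
def c5790 : PP 8 4 T 0x20000000000000800000000000000000000000002000000000000 := rS 0x841e (k2 c1967 c1966 (k1 c2210 k0)) (by decide +kernel)
def c5791 : PP 8 4 T 0x400000001000000080000000001200400400000001000080040000002000101000400 := rS 0x17abb1ba4630430f10410bf228740e9d1c9346a4b (k8 c4375 c4373 c4282 c4279 c968 c495 c759 c297 (k8 c4566 c4462 c1913 c4466 c236 c5755 c1153 c273 (k2 c4449 c1939 (k1 c2114 k0)))) (by decide +kernel)
def c5792 : PP 8 4 T 0x2000088000100000000400000400000002040040150000000100000400 := rS 0x1b86c565faecb31862844724d1a92c76f1 (k8 c5695 c4403 c4375 c4373 c4282 c4279 c4275 c4530 (k8 c4472 c4218 c1446 c4369 c4476 c2114 c881 c1344 k0)) (by decide +kernel)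
def c5793 : PP 8 4 T 0x40000200002400000000002 := rS 0x1381d (k2 c1220 c297 (k1 c4733 k0)) (by decide +kernel)
def c5794 : PP 8 4 T 0x100000000000000020000000080000400000000000000000000080000080100000000 := rS 0x45d2a931e07d3297 (k8 c4631 c1927 c277 c340 c1779 c1695 c4416 c4487 k0) (by decide +kernel)
def c5795 : PP 8 4 T 0x110200000002000088000000080400000004400000000000000000000000000000002 := rS 0x2c95d1a6f5e10c8a412da6c54216805d1e305213c5f13298a4a2f102a24360b07324fec72a84492152384cd6a945864ee3336c210a602f834ba23409f5fb45 (k8 c4400 c4961 c4409 c1365 c4372 c752 c4371 c488 (k8 c4477 c713 c4484 c4317 c950 c4438 c4436 c4322 (k8 c977 c620 c4401 c4374 c4283 c4281 c4275 c4406 (k8 c4289 c4313 c1793 c2107 c5657 c427 c4314 c2 (k8 c5695 c4405 c4402 c4290 c4346 c788 c4646 c4490 (k8 c4469 c3407 c1910 c2109 c2266 c300 c5790 c5791 (k8 c5762 c5793 c5794 c5792 c1080 c1120 c881 c617 (k1 c4476 k0)))))))) (by decide +kernel)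
def c5796 : PP 8 4 T 0x10200000002000088000000021500800000000000000080040000004400000000402 := rS 0x2362ab45ca55868f220dc7ab1218203c071090448271c9249a35238fd8e3b7895462538c9c522607e97c1a5d11add7a1d (k8 c759 c2018 c1797 c4372 c752 c4371 c488 c4961 (k8 c4477 c892 c585 c4448 c4290 c2046 c4406 c5695 (k8 c4403 c4289 c4287 c4374 c4373 c4282 c4281 c4279 (k8 c4277 c4839 c1848 c5708 c495 c4466 c4462 c276 (k8 c1145 c234 c233 c4472 c849 c1209 c861 c1526 (k4 c2113 c4389 c1388 c4486 k0)))))) (by decide +kernel)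
def c5797 : PP 8 4 T 0x10010000000002000088001004020000001000000000002080040010000800000000400 := rS 0x46c551eb458ae52a081eb0c6e072208472491a91c7ec71dbc4861d (k8 c759 c1953 c5695 c4403 c4289 c4287 c4374 c4373 (k8 c4281 c4279 c837 c4472 c495 c442 c1209 c445 (k8 c4462 c861 c1526 c1145 c2113 c849 c4389 c1388 (k1 c4486 k0)))) (by decide +kernel)
def c5798 : PP 8 4 T 0x1000000000010000000000000000080000100000000000001504410000000000020000000000000400 := rS 0xdeb103450f2095dafc6a4b (k8 c4375 c4373 c1053 c1850 c1063 c1847 c4493 c4462 (k2 c4349 c1019 (k1 c2122 k0))) (by decide +kernel)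
def c5799 : PP 8 4 T 0x10200000002000088000000021500800000000000000080040010004000000000402 := rS 0x5c607e97c1a5d11c6522b75eb052e67 (k8 c4309 c928 c1987 c2018 c1797 c892 c4448 c4372 (k4 c752 c4371 c488 c4961 (k2 c4477 c5796 (k1 c5797 k0)))) (by decide +kernel)
def c5800 : PP 8 4 T 0x10000000000002000088001004000000000000004010000000080210000000000000400 := rS 0x8bb1568bb1bae4103d6181c72491fb1ca34b (k8 c4430 c4405 c4289 c4287 c4281 c4279 c1217 c1209 (k8 c445 c4462 c1526 c233 c1439 c4090 c1789 c4419 (k1 c4494 k0))) (by decide +kernel)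
def c5801 : PP 8 4 T 0x10200000002000088000000020500800000400000000080000000000000000000002 := rS 0x22a06588d812be211149cc14bbc4cea9199b56e4138a457b193b9ee1085303f4be5d1182c1cc93f8358e55089242a4709a04fb45 (k8 c4400 c4409 c1365 c4401 c4374 c4283 c4281 c4275 (k8 c4406 c4289 c4371 c4313 c1793 c2107 c5657 c4372 (k8 c752 c488 c4961 c4477 c713 c4484 c4319 c4438 (k8 c4448 c2018 c892 c585 c5798 c1797 c4317 c950 (k8 c977 c4309 c5695 c928 c1987 c5799 c5800 c4472 (k4 c339 c2152 c338 c1243 (k2 c4462 c4386 (k1 c5772 k0)))))))) (by decide +kernel)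
def c5802 : PP 8 4 T 0x10200000002000088000000020500800000400000000000000000000000000000002 := rS 0x114865b209c57a918cbc4160e649fd8e55089242a47099ec327784215027d1894d3b12a2aa4c0fd2f834ba23 (k8 c4372 c752 c4371 c488 c4961 c4477 c977 c4400 (k8 c4490 c4343 c4290 c2046 c4409 c1365 c713 c4484 (k8 c4438 c4436 c4319 c4401 c4374 c4283 c4281 c4275 (k8 c4406 c4289 c4313 c1793 c2107 c5657 c5695 c4448 (k8 c892 c2018 c585 c5798 c5801 c5782 c5776 c4472 k0))))) (by decide +kernel)
def c5803 : PP 8 4 T 0x10000000002000080000014000000010000000000002080000000000000100000400 := rS 0x46c556837479c5623d488203c071c9246a471fb1c761d (k8 c759 c4403 c4289 c4287 c4374 c4373 c4281 c4279 (k8 c495 c4466 c4462 c1153 c275 c1145 c585 c849 (k4 c233 c2113 c4389 c1388 (k1 c4486 k0)))) (by decide +kernel)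
def c5804 : PP 8 4 T 0x1000000000080000000001500000000000000000000040010005000200000002 := rS 0x128bc4e4d (k4 c4282 c4277 c837 c5708 (k1 c4839 k0)) (by decide +kernel)
def c5805 : PP 8 4 T 0x10200000002000080000010000000010000000000002080000000000000100000400 := rS 0x71589be2a91042d83c071c9cdfa1d (k8 c759 c4961 c4408 c4279 c495 c4466 c5803 c4462 (k4 c1153 c4353 c1077 c1145 (k2 c585 c4480 k0))) (by decide +kernel)
def c5806 : PP 8 4 T 0x200001000000000005000000000000044004500000000000140400000000000080 := rS 0xc53cacd1273 (k4 c4408 c4314 c4311 c501 (k2 c4530 c2123 k0)) (by decide +kernel)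
def c5807 : PP 8 4 T 0x10000000000000000000000001000001000000000000000080080000001000000000 := rS 0x8d8aa3c6cbe (k4 c339 c338 c1515 c4386 (k2 c1383 c4486 k0)) (by decide +kernel)
def c5808 : PP 8 4 T 0x110200000002000088001000001500410044004400000080000000005000000000402 := rS 0x1793c8475129152206102e586971393496131dbc4ce607e97c1a5d11a662545 (k8 c4400 c4490 c4443 c4372 c752 c4371 c488 c4961 (k8 c4477 c4309 c5695 c4403 c4401 c4375 c4282 c4277 (k8 c928 c4958 c1526 c5805 c831 c886 c440 c5708 (k4 c498 c5806 c5807 c836 (k1 c2111 k0))))) (by decide +kernel)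
def c5809 : PP 8 4 T 0x200000400000000400000002040000000000000000000000 := rS 0x2c95d1a6f (k4 c1080 c1120 c881 c617 (k1 c4476 k0)) (by decide +kernel)
def c5810 : PP 8 4 T 0x100000000400000040000020000000000000002 := rS 0x2c95c3e09 (k4 c1063 c1103 c751 c487 (k1 c4476 k0)) (by decide +kernel)
def c5811 : PP 8 4 T 0x100200001000000000001000000000110044004400000040000140400000000040082 := rS 0x258b0c22b9d40665 (k8 c490 c1 c498 c1018 c5806 c4476 c4958 c1196 k0) (by decide +kernel)
def c5812 : PP 8 4 T 0x110200000002000088000000000400000004400000100000000000000000000000002 := rS 0x1686e1b8f4ac082c81d72bf8c1056ec52290ce25b60a5536994e8c624ac52abc66770ca2cf66d842ad0aa93582cc0391a8fca63b7897cba233298c526744bf68a8107324fe0d63954fa11248548e13 (k8 c4401 c4374 c4283 c4281 c4275 c4409 c4406 c4289 (k8 c4371 c4313 c1793 c2107 c1365 c4400 c4961 c4314 (k8 c4309 c4402 c754 c490 c4372 c752 c488 c5695 (k8 c4403 c4290 c4287 c4373 c4279 c4477 c5657 c620 (k8 c977 c713 c1677 c4484 c4317 c4319 c4322 c4436 (k8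 c4438 c950 c5795 c1406 c2120 c4490 c2046 c4343 (k8 c4443 c5802 c860 c1986 c5808 c584 c5782 c5776 (k8 c4530 c1796 c5810 c4472 c4369 c1525 c5811 c486 (k4 c4462 c4476 c234 c233 (k2 c881 c2113 (k1 c1347 k0))))))))))) (by decide +kernel)
def c5813 : PP 8 4 T 0x100200000002000080000000000440000004400000100000000000000000000000002 := rS 0x9f30c31425f0697446650998c52673f9f592ce (k8 c5789 c1793 c4409 c4313 c4309 c4402 c754 c4401 (k8 c490 c4372 c752 c4371 c488 c1795 c5812 c4325 (k2 c4384 c2118 k0))) (by decide +kernel)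
def c5814 : PP 8 4 T 0x1000000000000000000000000000000002000000000000005000004000000 := rS 0x5f13 (k2 c4341 c783 (k1 c4469 k0)) (by decide +kernel)
def c5815 : PP 8 4 T 0x1000000000000000080000000000000000000000000000005010000000000 := rS 0x5f13 (k2 c4346 c788 (k1 c4469 k0)) (by decide +kernel)
def c5816 : PP 8 4 T 0x200000002000088100000000800000000000000000080000080000000001000400 := rS 0x169143a9bd62b9388196e8f618257a4d1a94d66737e838fe0d63954fa11248548e13 (k8 c4401 c4374 c4283 c4281 c4275 c4409 c4406 c4289 (k8 c4371 c4313 c2107 c4961 c4408 c4311 c4290 c4373 (k8 c4282 c2014 c236 c2054 c853 c1797 c4462 c1416 (k4 c1526 c625 c1019 c498 (k2 c5772 c2121 (k1 c4389 k0)))))) (by decide +kernel)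
def c5817 : PP 8 4 T 0x200000002000088001000000050800005400400000080000140000000000000400 := rS 0x27c569446b097875379c40c1f100256e40628d476f107324fe0d6395422490a91c267b45c21027d7ed153319 (k8 c4448 c75 c4400 c4961 c4409 c1365 c4484 c4322 (k8 c4319 c4401 c4374 c4283 c4281 c4275 c4406 c4289 (k8 c4371 c4313 c1793 c2107 c5695 c4403 c4373 c4530 (k8 c4472 c1796 c1063 c1849 c1103 c4462 c1416 c1019 (k8 c498 c5798 c5806 c1119 c2059 c1695 c1699 c5275 k0))))) (by decide +kernel)
def c5818 : PP 8 4 T 0x200000002000088000000020840800004400400002080000000004000000000400 := rS 0x5ca556ec310af4884360a5c723f33c343308429b4360e649fc1ac72a84492152384d027d7ed1542af18935e229 (k8 c4402 c5695 c4282 c2006 c5815 c1794 c4400 c4961 (k8 c4409 c1365 c4401 c4374 c4283 c4281 c4275 c4406 (k8 c4289 c4371 c4313 c1793 c2107 c427 c5814 c712 (k8 c4484 c4436 c4330 c4309 c4287 c4279 c928 c1987 (k8 c5816 c5817 c1169 c440 c1209 c1797 c861 c1526 (k1 c5803 k0)))))) (by decide +kernel)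
def c5819 : PP 8 4 T 0x200000002000088000000000840800004400000100000000000000000000000002 := rS 0x20914865b3bc653a9905c34f619562bd126735a2e1085368c49a330d839927f6395422490a91de2602f835027d7ed14ca1355b2cc629 (k8 c4402 c754 c139 c2012 c4401 c490 c4400 c4961 (k8 c4409 c1365 c4371 c488 c4532 c5695 c4374 c4283 (k8 c4281 c4275 c4406 c4289 c4313 c1793 c2107 c427 (k8 c2908 c4282 c2006 c5814 c712 c4484 c4322 c2008 (k8 c4309 c4314 c5815 c2120 c4436 c4319 c4330 c5657 (k8 c75 c105 c4448 c1888 c5818 c5782 c5776 c5810 (k1 c4472 k0))))))) (by decide +kernel)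
def c5820 : PP 8 4 T 0x10200000002000080100014100000010000000000002080000000000000000000002 := rS 0x2d228713a9bc0c201aacce6fd05838fe0d63954fa11248548e13 (k8 c4401 c4374 c4283 c4281 c4275 c4409 c4406 c4289 (k8 c4371 c4313 c2107 c5657 c4961 c4408 c4311 c4373 (k8 c5805 c831 c1019 c498 c496 c5772 c2121 c4389 k0))) (by decide +kernel)
def c5821 : PP 8 4 T 0x100000000000000000000020000040050000000000000000000000000000000000000 := rS 0x12717 (k2 c4361 c1126 (k1 c4487 k0)) (by decide +kernel)
def c5822 : PP 8 4 T 0x110200000002000080100000000040010400000000002080000000000000000000002 := rS 0x115032d840b958a5ccefd05838fe0d63954fa11248548e13 (k8 c4401 c4374 c4283 c4281 c4275 c4409 c4406 c4289 (k8 c4371 c4313 c2107 c5657 c4961 c4309 c928 c625 (k4 c5821 c5805 c5820 c831 (k2 c4353 c5772 k0)))) (by decide +kernel)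
def c5823 : PP 8 4 T 0x2000080000014000000010000000000002020000000000000100000002 := rS 0x1ead46e1e460e49235238fd8e3b (k8 c4403 c4289 c4287 c4374 c4373 c4281 c4279 c617 (k4 c487 c1384 c1388 c275 (k1 c2113 k0))) (by decide +kernel)
def c5824 : PP 8 4 T 0x200000002000080000014000000010000000000002040000000000000000000402 := rS 0x3d5a8dc106e2b16472491a91c7ec71d954fa21 (k8 c830 c4409 c4406 c4403 c4289 c4287 c4374 c4373 (k8 c4281 c4279 c5823 c4476 c881 c751 c1344 c1347 (k2 c234 c2113 k0))) (by decide +kernel)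
def c5825 : PP 8 4 T 0x100020000010000000000000002040000000000000000000000 := rS 0x2c95d6291 (k4 c1206 c1204 c880 c616 (k1 c4476 k0)) (by decide +kernel)
def c5826 : PP 8 4 T 0x100200000002000080000000000040000004400000100000000000000000000000002 := rS 0x4fd0d6cb91096d2a8f4dab142af45c210a6d05aacc06b188ce1aa60d83902c9a2b2d9c111c9249a470ab1c76f12f834ca13318a4ce7f44954fafd (k8 c4961 c4409 c4406 c4314 c4313 c4309 c4402 c754 (k8 c4401 c490 c4371 c488 c5695 c4403 c4289 c4283 (k8 c4374 c4282 c4281 c4279 c4275 c5789 c139 c4400 (k8 c1793 c1365 c2107 c427 c5813 c4330 c2908 c2006 (k8 c2008 c4532 c2012 c5657 c5814 c712 c4484 c4322 (k8 c5815 c1794 c2120 c5819 c852 c860 c5822 c830 (k4 c5825 c5824 c4424 c5142 (k1 c4489 k0)))))))) (by decide +kernel)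
def c5827 : PP 8 4 T 0x200000000000000000000010400800044800000116000000000000000000000000 := rS 0x2ad5f12359b54aa933a268b0d (k8 c4325 c4452 c4314 c4309 c2869 c3879 c641 c621 (k4 c4490 c4346 c4445 c2120 k0)) (by decide +kernel)
def c5828 : PP 8 4 T 0x10200000002000084000000010440400004800002000080000000000000000000002 := rS 0xbc8a3291ea015add26c246b057f183b9d4de79219140c9d1007c3a31192453e16529c55113849ac6a131dbc5fb450d844324d66a25167b (k8 c2626 c645 c4314 c2064 c4282 c1998 c4275 c638 (k8 c4452 c4961 c5695 c4403 c4401 c4373 c70 c4317 (k8 c4341 c641 c2568 c1936 c4465 c4168 c2982 c519 (k8 c1910 c2958 c5697 c4466 c2968 c831 c441 c337 (k8 c601 c1019 c498 c1024 c4482 c4369 c4450 c1507 (k8 c5806 c1128 c1168 c315 c5275 c5093 c981 c4486 (k2 c2028 c4354 k0))))))) (by decide +kernel)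
def c5829 : PP 8 4 T 0x10000000002000084000000081400000010800001000080000000000000000000002 := rS 0x1621353409ea418305974b899249a47258fd8e53148eca2f1a2b34669d (k8 c968 c950 c2064 c4452 c5695 c4405 c4403 c4402 (k8 c4290 c4289 c4287 c4375 c4374 c4282 c4281 c4346 (k8 c4428 c1755 c1715 c5815 c4490 c4646 c2116 c1936 (k2 c2266 c2540 (k1 c5723 k0))))) (by decide +kernel)
def c5830 : PP 8 4 T 0x10200000000000000000000051400000044800001514000000000000000000000000 := rS 0x224aa5299d1345 (k4 c4452 c4314 c4309 c1936 (k2 c2120 c4490 (k1 c4445 k0))) (by decide +kernel)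
def c5831 : PP 8 4 T 0x200000002000084000000010440000004800000102080000000000000000000002 := rS 0x5a3c9eb1520846113352bd523336bc5121926c35368b318a4ca13 (k8 c4401 c490 c4402 c754 c645 c5827 c4325 c4282 (k8 c1998 c4314 c5695 c5828 c950 c976 c5829 c5830 (k8 c4442 c493 c5752 c621 c2608 c4646 c849 c2540 (k1 c5791 k0)))) (by decide +kernel)
def c5832 : PP 8 4 T 0x800002002040000000000000000000000 := rS 0x1595059 (k4 c4993 c641 c4476 c2980 k0) (by decide +kernel)
def c5833 : PP 8 4 T 0x100200000002000084000000080400400000800000002040000000000000000000002 := rS 0x5e8dd76910f4617e94219053ab750ae5822a3b9a88b426813d4830658bd2f4b89aac7249268d48e4b6394c5251788168acd44c341621478cd526d (k8 c5832 c976 c950 c848 c830 c566 c4325 c4314 (k8 c2064 c4452 c2 c5695 c4405 c4402 c4290 c4289 (k8 c4375 c4374 c4373 c4282 c4281 c4279 c82 c4346 (k8 c4428 c4631 c788 c1755 c5815 c4490 c4646 c2116 (k8 c4495 c5793 c1936 c3848 c300 c1711 c4394 c4423 (k8 c4424 c5750 c5762 c5794 c5824 c4566 c5755 c1695 (k4 c890 c4449 c273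 c1939 (k1 c2114 k0)))))))) (by decide +kernel)
def c5834 : PP 8 4 T 0x1000000000000000048000420000000000000000000010002000100000000 := rS 0x461809d (k4 c972 c1700 c5755 c4450 k0) (by decide +kernel)
def c5835 : PP 8 4 T 0x400000000000000200000002000090014001000000010000000000002040040150000000000000002 := rS 0x2e56ebc1e30576bf8c1247e531d945e20b (k8 c566 c5695 c4405 c4403 c4290 c4287 c4281 c4472 (k8 c4369 c4449 c4450 c2115 c5761 c1742 c1207 c5824 k0)) (by decide +kernel)
def c5836 : PP 8 4 T 0x100200000002000084000000010440000004000000102000000000000000000000002 := rS 0x164ae1f049092ac55aa8286ca20b0c8ad13baa89ea4180bc2d13352bd523336884b69b2491c96c729945e2053284cc629598649acd44a2d050d (k8 c4325 c5826 c645 c4314 c2064 c4282 c1998 c4311 (k8 c4402 c754 c4401 c490 c2 c5695 c4405 c4290 (k8 c4289 c4375 c4374 c4281 c5827 c5831 c830 c5832 (k8 c950 c976 c5833 c5830 c4442 c492 c1839 c493 (k8 c621 c4646 c5712 c3816 c301 c5793 c5754 c5762 (k8 c2116 c4425 c1941 c3639 c3669 c5834 c5835 c236 (k4 c277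 c751 c487 c4476 k0))))))) (by decide +kernel)
def c5837 : PP 8 4 T 0x1000002000080000004000050020000000014000080000000000000200000000 := rS 0x4f8acb21f (k4 c57 c64 c1695 c5295 (k1 c5275 k0)) (by decide +kernel)
def c5838 : PP 8 4 T 0x10200000002000080001004001550800044004410000080000000005000200000002 := rS 0x2790484c34a9d4de25228186a131dbc5fa91 (k8 c892 c4961 c5695 c4403 c4401 c4373 c831 c440 (k8 c5708 c1019 c498 c5837 c2059 c5806 c22 c5807 (k1 c5804 k0))) (by decide +kernel)
def c5839 : PP 8 4 T 0x200000002000080000014020540800044004000102080000000000000000000402 := rS 0x2290d841e4a10442713ba46323f78c34662d1894d52a10eb052e67 (k8 c4309 c928 c1987 c759 c900 c948 c4290 c2046 (k8 c4285 c942 c4325 c5695 c4287 c4448 c892 c1888 (k8 c585 c5838 c1849 c5805 c4466 c861 c276 c1209 (k1 c4472 k0)))) (by decide +kernel)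
def c5840 : PP 8 4 T 0x100200000002000080100014020440000044000000102080000000000000000000002 := rS 0x844e3a9dc5e252281922b01030d1c954db04f69713934464b1dbc4cefd408cc5a3129a6624a5a2a09520b071fc1ac72a9f422490a91c270d (k8 c4325 c4401 c4374 c4283 c4281 c4275 c4409 c4406 (k8 c4289 c4371 c4313 c2107 c5657 c948 c5826 c4452 (k8 c3963 c4490 c4443 c4290 c2046 c4285 c942 c50 (k8 c4961 c4309 c5695 c4403 c4375 c4372 c4282 c4277 (k8 c928 c2626 c1987 c5839 c860 c5822 c4958 c5805 (k8 c5820 c101 c831 c440 c5708 c836 c1152 c626 (k2 c2111 c5806 (k1 c5807 k0)))))))) (by decide +kernel)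
def c5841 : PP 8 4 T 0x100200000002000084000000000440000004000000102000000000000000000000002 := rS 0x2290632c24d25086212d82c1cb764ae684cb18d2d590d089241a470a8fd8e5309bc4fe553ed14324d66a251682 (k8 c5826 c645 c4314 c2064 c4282 c1998 c4452 c4409 (k8 c4406 c4313 c5695 c4401 c4290 c4289 c4287 c4283 (k8 c4374 c4371 c4281 c4275 c4325 c5836 c4458 c2046 (k8 c2027 c4495 c4394 c4422 c4424 c2107 c5657 c5840 (k8 c830 c5782 c5824 c860 c861 c4448 c1849 c1209 (k1 c4472 k0)))))) (by decide +kernel)
def c5842 : PP 8 4 T 0x200001000000000000000010000000044000001514000100000005010000000000 := rS 0x5f13552bcce89 (k4 c4314 c4309 c5815 c2120 (k2 c4445 c1844 (k1 c4469 k0))) (by decide +kernel)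
def c5843 : PP 8 4 T 0x200001000000000000000010000800044000001100010500000000010005140002 := rS 0xd10b8c0d66531a24aa33 (k8 c950 c4406 c4314 c754 c490 c1969 c5842 c3872 (k2 c5790 c2109 k0)) (by decide +kernel)
def c5844 : PP 8 4 T 0x200001000000000000000010000000044000001110000100000001010000000002 := rS 0x1acc633 (k4 c950 c754 c493 c5842 k0) (by decide +kernel)
def c5845 : PP 8 4 T 0x200000002000000000000000000000044000000000000000000002000205000000 := rS 0x2ed1212602a53099451255 (k8 c4406 c4314 c4405 c4401 c4290 c4283 c317 c316 (k2 c2266 c3838 (k1 c2109 k0))) (by decide +kernel)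
def c5846 : PP 8 4 T 0x1400000000000000000000000000025000000000000000000000000000000001000000000000000000 := rS 0x1974b (k2 c4426 c1750 (k1 c4495 k0)) (by decide +kernel)
def c5847 : PP 8 4 T 0x1000000000000000000000000000000001000080000000002000100800400 := rS 0x20c6486453c01d3a6a (k8 c1910 c968 c495 c580 c297 c1951 c4447 c1847 (k1 c4472 k0)) (by decide +kernel)
def c5848 : PP 8 4 T 0x200000002000010015000000000000044005400000000000150000000000000400 := rS 0x9038f0e83f2984c765159a24aa73 (k8 c4408 c4406 c4314 c4311 c4405 c4403 c4401 c4290 (k4 c4287 c2123 c2115 c498 (k2 c234 c4462 k0))) (by decide +kernel)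
def c5849 : PP 8 4 T 0x500000000000000000008000450000000000000400000040000000000000000000000 := rS 0x1574b (k2 c4459 c5754 (k1 c4491 k0)) (by decide +kernel)
def c5850 : PP 8 4 T 0x200001002000010004000000000000044004400000000000150000000000000400 := rS 0xc13cc618a3b (k4 c4403 c4530 c4472 c4447 (k2 c4450 c5848 k0)) (by decide +kernel)
def c5851 : PP 8 4 T 0x100200001002000010000000050000000044000001100000000000000000005000002 := rS 0x592b87c1242619048a5b3d82cee9b35086262f180a40a6559858a2134494caa15 (k8 c4283 c4406 c4290 c4314 c4401 c4405 c2109 c4311 (k8 c490 c2 c4402 c5844 c16 c4441 c5845 c1910 (k8 c3872 c3816 c2540 c2440 c5847 c5793 c5762 c5849 (k4 c5850 c236 c277 c751 (k2 c487 c4476 k0))))) (by decide +kernel)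
def c5852 : PP 8 4 T 0x100200000002000084000000000440000004000000100000000000000000000000002 := rS 0x65d2d58af68d0d902a4fa86186d30a2c92f12f834ba233284cc629339fcfafda286c221926b350489 (k8 c4314 c5826 c2064 c4282 c1998 c4275 c638 c4452 (k8 c4961 c4409 c4313 c4309 c4402 c754 c4401 c490 (k8 c4372 c752 c4371 c488 c5695 c4281 c645 c5841 (k8 c640 c4477 c4329 c4384 c5243 c2118 c4422 c5846 (k4 c1774 c5851 c4458 c2027 (k1 c4495 k0)))))) (by decide +kernel)
def c5853 : PP 8 4 T 0x1000000000000000000000000080000000000000000000000000005040000 := rS 0x2f09 (k2 c4322 c524 (k1 c4465 k0)) (by decide +kernel)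
def c5854 : PP 8 4 T 0x100200000002000080000000010440400004000000100080000000001000010000002 := rS 0x938bb092ac15bc618a773a9bcf243228193a200f8c8e309360d4523b28995fa8b0c93436117884d42ce4b99cf682 (k8 c5826 c2626 c4309 c928 c5852 c1795 c4401 c5695 (k8 c4275 c638 c4282 c1998 c5853 c4961 c490 c4405 (k8 c4403 c4402 c4373 c5844 c4317 c2568 c5814 c5697 (k8 c4466 c2968 c831 c441 c337 c601 c1019 c498 (k8 c1024 c4530 c4482 c1796 c4450 c5837 c5806 c4362 (k2 c1128 c4487 k0)))))) (by decide +kernel)
def c5855 : PP 8 4 T 0x100200000002000080000000010440000004000000102080000000000000000000002 := rS 0x1b42cd115a511e3d588200e21198c03a3929945129b318a4ca0b86839928b0c934368278b38fe0d63954fa11248548e13 (k8 c4401 c4374 c4283 c4281 c4275 c4409 c4406 c4289 (k8 c4371 c4313 c5852 c5695 c5826 c638 c4282 c1998 (k8 c5853 c1792 c2107 c4325 c5657 c490 c4402 c754 (k8 c5827 c4314 c4405 c4290 c4279 c759 c5854 c62 (k8 c5845 c495 c4462 c1145 c234 c849 c5822 c1694 (k4 c300 c2109 c519 c5847 k0)))))) (by decide +kernel)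
def c5856 : PP 8 4 T 0x100200000002000080000000010440000004000000102000000000000000000000002 := rS 0x86375daf630bf46315229d4a3056e414f1dd48ae22c4c5e4f558c152b936884b60b4dc347235259440a65318a68b4b50839928b0c934368278b38fe0d63954fa11248548e13 (k8 c4401 c4374 c4283 c4281 c4275 c4409 c4406 c4289 (k8 c4371 c4313 c5852 c5695 c5826 c638 c4282 c1998 (k8 c5853 c1792 c2107 c1795 c4430 c4452 c4402 c754 (k8 c490 c2 c4405 c4375 c4373 c4279 c4325 c5827 (k8 c5657 c5855 c830 c5832 c5825 c976 c5844 c1677 (k8 c299 c16 c4441 c5793 c4491 c4490 c3848 c1405 (k8 c5762 c3721 c3644 c5824 c973 c890 c1787 c1699 (k4 c1404 c5755 c1939 c1446 (k2 c1384 c4446 (k1 c2114 k0)))))))))) (by decide +kernel)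
def c5857 : PP 8 4 T 0x1000000000000100000000050000000050000055500000000000000000000000 := rS 0x13d0c (k2 c4477 c2118 (k1 c4384 k0)) (by decide +kernel)
def c5858 : PP 8 4 T 0x200000002000088001000001540800044004400000080000000005000200000002 := rS 0x5b2f61a6064a85fa7d3f99cc6293284cba232f9c40c0d (k8 c4371 c831 c496 c488 c4372 c752 c4401 c490 (k8 c4402 c754 c4309 c4313 c4409 c4961 c1795 c1792 (k4 c5857 c4325 c2018 c5838 (k1 c1797 k0)))) (by decide +kernel)
def c5859 : PP 8 4 T 0x100200000002000088000000020540000044004000000080000000000000201000002 := rS 0x25536770302e1a6050bf4c62932974465f07324fe0d63954fa11248548e13198b4625354b052e67 (k8 c4309 c928 c1987 c948 c4290 c2046 c4285 c942 (k8 c4401 c4374 c4283 c4281 c4275 c4409 c4406 c4289 (k8 c4371 c4313 c1792 c2107 c488 c4372 c752 c490 (k8 c4402 c754 c4961 c1795 c5857 c4325 c5657 c831 (k4 c1024 c5858 c860 c5808 k0))))) (by decide +kernel)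
def c5860 : PP 8 4 T 0x100200000002000088000000020440000004800000000080000000000000000000002 := rS 0x458cb09349447ac48243040780e210e9ec723f058398e55248548e3129a6624a586981928b0c934361178a85fa7d3f99cc6293284cba232f8368aa9 (k8 c948 c4452 c4371 c488 c4372 c752 c4401 c490 (k8 c4402 c754 c4309 c4313 c4409 c4961 c1795 c5695 (k8 c4275 c638 c4282 c1998 c5853 c1792 c5857 c4325 (k8 c3963 c4490 c4443 c4290 c2046 c4374 c4283 c4281 (k8 c4406 c4289 c2107 c5657 c4287 c4279 c2626 c759 (k8 c5859 c495 c4466 c4462 c276 c1103 c1145 c849 (k4 c5822 c860 c861 c4448 (k2 c1209 c4472 k0)))))))) (by decide +kernel)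
def c5861 : PP 8 4 T 0x200000002000088000010020400800000000000002040000040000000000000402 := rS 0x128c35b91082bd8c8fde221 (k8 c830 c5695 c4287 c4448 c2018 c1849 c4472 c1797 (k2 c1209 c5824 (k1 c861 k0))) (by decide +kernel)
def c5862 : PP 8 4 T 0x100200000002000080000000000440000004000000100000000000000000000000002 := rS 0x9fa1ad92a9b21ae4425b1882d590d3003992a1670e492470ab1ca63b2f834ba233298c52673f954fafd458649a1b41045e213 (k8 c4401 c5695 c4275 c5826 c638 c4282 c1998 c5853 (k8 c4961 c4409 c4406 c4313 c4309 c4402 c754 c490 (k8 c4372 c752 c4371 c488 c4403 c4290 c4289 c4283 (k8 c4374 c4281 c4279 c5852 c1795 c1792 c2107 c5857 (k8 c4325 c5856 c5657 c2046 c5860 c830 c5825 c5782 (k4 c5861 c860 c5824 c4424 (k2 c5142 c4489 k0))))))) (by decide +kernel)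
def c5863 : PP 8 4 T 0x100200000002000084101014000850000044004000002080000000000000201000002 := rS 0x62b0cf2bc4d2c11c955d9dce27537a440c27068d426b3449cdfb0d (k8 c4330 c4961 c4408 c4314 c4311 c4401 c4373 c4371 (k8 c4277 c831 c886 c1019 c498 c496 c1024 c1979 (k8 c5837 c5822 c5820 c852 c853 c629 c2059 c1176 (k1 c2123 k0)))) (by decide +kernel)
def c5864 : PP 8 4 T 0x100200000002000084000000020840000004800000002080000000000000000000002 := rS 0x229063243612683c9410b043a7b4b8fcce8b0c86de23126a8572b7058399342a2b35134b659fc1ac72a9f422490a91c270d (k8 c4330 c4401 c4374 c4283 c4281 c4275 c4409 c4406 (k8 c4289 c4371 c4313 c2027 c4458 c4314 c2064 c4452 (k8 c4495 c4422 c2107 c5657 c4424 c4394 c901 c4282 (k8 c2006 c5695 c638 c1998 c5853 c4309 c4287 c928 (k8 c2626 c759 c1987 c5863 c5805 c4466 c860 c861 (k4 c276 c4448 c1849 c1209 (k1 c4472 k0))))))) (by decide +kernel)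
def c5865 : PP 8 4 T 0x100200000002000084000000020840000004800000002000000000000000000000002 := rS 0x2290632c24d25086212d82c1cb764ae68411248348e151fb1c26f13f954fb450cb35130d1893696cb (k8 c2027 c4458 c4282 c2006 c4330 c4314 c2064 c1998 (k8 c4452 c4409 c4406 c4313 c5695 c4401 c4289 c4287 (k8 c4283 c4374 c4371 c4281 c4275 c4495 c4394 c4422 (k8 c4424 c2107 c5657 c5864 c830 c5782 c5824 c860 (k4 c861 c4448 c1849 c1209 (k1 c4472 k0)))))) (by decide +kernel)
def c5866 : PP 8 4 T 0x100200000002000088001000000850000044004000002080000000000000201000002 := rS 0x4da392ab761314ee713a9bc8a061a8ede2fd1990c160e3f8358e553e84492152384e1ac9 (k8 c1792 c4330 c4401 c4374 c4283 c4281 c4275 c4409 (k8 c4406 c4289 c4371 c4313 c2107 c5657 c5816 c2908 (k8 c4961 c5695 c4403 c4373 c831 c440 c1019 c498 (k8 c496 c1024 c4530 c5806 c1796 c5837 c5822 c2059 (k1 c852 k0))))) (by decide +kernel)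
def c5867 : PP 8 4 T 0x100200000002000080000000020840000004800000002080000000000000000000002 := rS 0x4520c65849a4a23d62080388582433da5c723f33a859a890583992ce458649a1b789fc1ac72a9f422490a91c270d (k8 c4330 c4401 c4374 c4283 c4281 c4275 c4409 c4406 (k8 c4289 c4371 c4313 c5695 c638 c4282 c1998 c5853 (k8 c5865 c1792 c2107 c5657 c4314 c2064 c901 c4309 (k8 c4287 c4279 c928 c2626 c5816 c1987 c5866 c495 (k8 c4462 c1145 c849 c5822 c860 c861 c4448 c1849 (k2 c1209 c4472 k0)))))) (by decide +kernel)
def c5868 : PP 8 4 T 0x2000088000010020000800000000000002040000040000000000000002 := rS 0xc34a2dc88585e904af191fbc4428f (k8 c848 c830 c5695 c4287 c4448 c2887 c1849 c2019 (k4 c4476 c4472 c1797 c5823 (k2 c1209 c861 k0))) (by decide +kernel)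
def c5869 : PP 8 4 T 0x100200000002000080000000000040000004000000100000000000000000000000002 := rS 0x9fa1ad92a9b21ae4425b0583992ce50ab0da60358c4670d5322d9a190da1504111c9249a470ab1c76517897c1a650998c527f44954fafd (k8 c4961 c4409 c4406 c4314 c4313 c4402 c754 c4401 (k8 c490 c4371 c488 c5695 c4405 c4403 c4289 c4283 (k8 c4374 c4282 c4281 c4279 c4275 c5826 c128 c638 (k8 c1998 c2064 c5853 c5862 c4330 c2908 c2006 c2009 (k8 c4532 c905 c5842 c901 c5865 c1792 c2107 c5657 (k8 c5867 c830 c5825 c5782 c5868 c860 c5824 c4424 (k2 c5142 c4489 k0))))))) (by decide +kernel)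
def c5870 : PP 8 4 T 0x800000000000100080000000000000008000002 := rS 0x51e8ee6c (k4 c686 c1888 c865 c4698 (k1 c2686 k0)) (by decide +kernel)
def c5871 : PP 8 4 T 0x400000000000000000000000000000000000000000100080000000004000008000400 := rS 0x2663244041d8ae07 (k8 c2672 c38 c4698 c4462 c424 c4363 c1130 c4679 k0) (by decide +kernel)
def c5872 : PP 8 4 T 0x10200000002000080000000015400044084000000100080000000001040000000002 := rS 0x71482dd76c28c315329546a3c8a1c05304867b4db201ebd5f93e89133c9b0349d0ca945caf089241a231a91c961516b1ca6291d945e27f2a9f6126b328cc2e13 (k8 c4401 c524 c951 c490 c564 c4322 c4409 c4406 (k8 c4313 c5695 c4405 c4403 c4402 c4290 c4289 c4285 (k8 c4283 c4375 c4374 c4373 c4372 c4371 c4281 c4275 (k8 c5815 c5696 c1842 c1870 c2755 c5853 c686 c2581 (k8 c4341 c4490 c4646 c4399 c4454 c426 c2107 c5870 (k8 c705 c1952 c1713 c5871 c567 c439 c760 c1027 (k8 c762 c1032 c4530 c4149 c2127 c4449 c1167 c2126 (k2 c587 c889 k0)))))))) (by decide +kernel)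
def c5873 : PP 8 4 T 0x800000000002100010000000002000002000000 := rS 0x481c167921078ee9d (k8 c105 c1888 c1967 c1966 c601 c309 c1097 c237 (k1 c4462 k0)) (by decide +kernel)
def c5874 : PP 8 4 T 0x11000001000000080000000001400400000000002002080000100002000000000402 := rS 0x8d8aaf11ebb1bac57f18388213a434881c3c4110874724d1a92e264f (k8 c299 c4441 c4375 c4373 c4282 c4279 c759 c5699 (k8 c1913 c4466 c495 c1153 c277 c1232 c4462 c585 (k8 c4472 c4566 c1145 c233 c4449 c849 c2114 c4354 (k2 c1120 c4486 k0)))) (by decide +kernel)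
def c5875 : PP 8 4 T 0x10200000002000080000000015400044084000000102080000000000040000000002 := rS 0x26632213b1080e0a229ed36183606e26302c95de205849acca13 (k8 c4401 c490 c564 c4322 c2 c5695 c38 c64 (k8 c5872 c4441 c294 c4479 c5853 c5873 c705 c257 (k8 c5874 c4 c308 c309 c831 c4446 c1927 c4679 k0))) (by decide +kernel)
def c5876 : PP 8 4 T 0x40000000000000008000002 := rS 0x2b0b8b26c (k4 c686 c2669 c687 c4476 (k1 c2753 k0)) (by decide +kernel)
def c5877 : PP 8 4 T 0x200001000000000000000010000000084000000100040500000000150000040002 := rS 0x232434e158b26c22c4c8230178603709359946617 (k8 c524 c951 c490 c564 c4322 c5876 c5853 c1870 (k8 c5696 c5777 c4441 c5793 c4479 c4993 c4476 c960 (k2 c4674 c4367 (k1 c4472 k0)))) (by decide +kernel)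
def c5878 : PP 8 4 T 0x10200000002000084000000014000044084000000102000000000000040000000002 := rS 0x48c5570bc612652a8d62b048a1c219ed940a4db211f130d03cf26c0ca105c9d57a046345532a50611249341a35238558e3b3f954fafd849acca330b969e2511484ca62d (k8 c4285 c4290 c4401 c4402 c4405 c5695 c5877 c524 (k8 c951 c490 c564 c4322 c4961 c4409 c4406 c4313 (k8 c4403 c4289 c4283 c4374 c4373 c4371 c4282 c4281 (k8 c4275 c645 c977 c5875 c4453 c2006 c1896 c909 (k8 c2913 c5696 c4484 c1870 c712 c2587 c1496 c5853 (k8 c4341 c2852 c2107 c5870 c5871 c717 c705 c1952 (k8 c567 c439 c1713 c4530 c1027 c762 c1032 c2127 (k4 c2028 c2029 c4354 c1205 (k1 c4486 k0))))))))) (by decide +kernel)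
def c5879 : PP 8 4 T 0x10200000002000080000000014000044084400000102000000000000040000000002 := rS 0xd8c4d80e5321192a9089249a0d238558e7f2abf612330b969e2511484ca62da2a059c7d (k8 c4409 c5878 c1365 c4400 c4285 c4290 c4401 c4402 (k8 c4405 c5695 c5877 c524 c951 c4322 c4961 c4406 (k8 c4313 c4289 c4283 c4374 c4371 c4282 c4281 c4275 (k8 c977 c1793 c4484 c5875 c2107 c712 c2006 c427 (k1 c5814 k0))))) (by decide +kernel)
def c5880 : PP 8 4 T 0x10200000002000080000000014000044084000000102000000000000040000000002 := rS 0x6436820893426f1 (k8 c5695 c4401 c4282 c4275 c5879 c638 c1998 c5853 k0) (by decide +kernel)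
def c5881 : PP 8 4 T 0x200000002000080000000000040000005400002100080000000001000005000002 := rS 0x24102843e1d3d8bc64162491d8e2978bf55a6b3027c4e2b8817c1a152e88c2267169942709 (k8 c4317 c4401 c490 c4285 c4309 c4275 c4372 c752 (k8 c4283 c4371 c488 c5869 c4411 c4277 c4414 c4520 (k8 c620 c4338 c4961 c5695 c4402 c4289 c4374 c4281 (k8 c4465 c5814 c783 c2474 c2958 c5697 c5698 c4466 (k2 c2110 c5708 k0))))) (by decide +kernel)
def c5882 : PP 8 4 T 0x200000002000080000000000440000004400002100080000000001000001000002 := rS 0x16f175cc55849060aee30b5a1b15329546a3d90bd22ac4380fa22fc144f21abd4a9d19a6c5c790b86892352392d8e291dbc4fe553ea5d5a9355c3552853027c4e2b8817c1a152e88c2267169942713 (k8 c4341 c4401 c490 c4285 c4309 c4275 c4372 c752 (k8 c4283 c4371 c488 c5869 c4411 c4277 c4414 c4520 (k8 c713 c977 c4962 c4415 c4413 c4338 c4335 c4409 (k8 c4406 c4313 c5695 c4403 c4402 c4289 c4375 c4374 (k8 c4373 c4281 c5881 c9 c2581 c687 c5870 c951 (k8 c969 c1842 c788 c1952 c4646 c5871 c4566 c4490 (k8 c426 c567 c2605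 c439 c4454 c2107 c760 c1027 (k8 c762 c1032 c4530 c4422 c1705 c4149 c4449 c4450 (k4 c2126 c2127 c4351 c1205 (k2 c4362 c1167 (k1 c4492 k0))))))))))) (by decide +kernel)
def c5883 : PP 8 4 T 0x200000002000080000000000440000004400002100080000000000000001000002 := rS 0x2e1b18425e205359813e2715c40be0d0a9744611338b4ca13 (k8 c4401 c490 c4285 c4309 c4275 c4372 c752 c4283 (k8 c4371 c488 c5869 c4411 c4277 c4414 c4520 c620 (k4 c2 c5695 c4317 c5882 (k2 c294 c1910 (k1 c4465 k0))))) (by decide +kernel)
def c5884 : PP 8 4 T 0x200000002000080000000000440000004400000100080000000000000001000002 := rS 0x17688c0366d298a4a2f144955170d55a4d5a97359813e2715c40be0d0a9744611338b4ca13 (k8 c4401 c490 c4285 c4309 c4275 c4372 c752 c4283 (k8 c4371 c488 c5869 c4411 c4277 c4414 c4520 c620 (k8 c4335 c4338 c4413 c4415 c4962 c5880 c4406 c4314 (k8 c5695 c4405 c4402 c4290 c5883 c686 c5844 c300 (k2 c1910 c2109 k0))))) (by decide +kernel)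
def c5885 : PP 8 4 T 0x200000002000080000000000440000004400000100080000000000000000000002 := rS 0x4ec6482213b1080e0a229ed366c898c05e3384860a62928bc406ad869ad52604f89c57102f8342a5d11844ce2d3284cae59 (k8 c64 c38 c4401 c490 c4285 c4309 c4275 c4372 (k8 c752 c4283 c4371 c488 c5869 c4411 c4277 c4414 (k8 c4520 c977 c620 c4962 c4338 c1 c5695 c4405 (k8 c4402 c4290 c5884 c4436 c254 c1870 c5696 c4441 (k8 c4479 c5873 c705 c257 c5874 c4 c308 c309 (k4 c831 c1873 c4446 c1091 (k1 c5755 k0))))))) (by decide +kernel)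
def c5886 : PP 8 4 T 0x200000002000080000000010800000044000000100000000000000000000000002 := rS 0x3d921a421b1023119844924d0691c2ac714945e265099fcaa7d (k8 c4409 c4406 c4313 c4401 c490 c5695 c4405 c4402 (k8 c4289 c4283 c4374 c4371 c4282 c4281 c4275 c2908 (k8 c2006 c1896 c5844 c905 c5814 c716 c427 c2107 k0))) (by decide +kernel)
def c5887 : PP 8 4 T 0x10000000000000080000100001400000000000002002040000000000000000000002 := rS 0xbf2093c8abb1b90d3876040cc386e2b0bcf259898e49a3525a14161b (k8 c5876 c566 c713 c4375 c4373 c4282 c4279 c4341 (k8 c4993 c600 c783 c4476 c881 c750 c2957 c751 (k8 c961 c960 c4674 c1344 c1350 c1220 c4646 c3058 (k2 c1094 c2114 k0)))) (by decide +kernel)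
def c5888 : PP 8 4 T 0x200000002000080000000000040000004400000100000000000000000000000002 := rS 0xc4202ed1898c0da1b5e96d526b298a4a2f1449554e8b3027c4e5f06854ba230899c5a6509c35569315a5d5b10 (k8 c5869 c4338 c4335 c4411 c4413 c4415 c4962 c4401 (k8 c490 c4285 c4309 c4275 c4372 c752 c4283 c4371 (k8 c488 c4277 c4414 c4520 c5880 c5886 c4406 c4314 (k8 c5695 c4405 c4402 c4290 c620 c977 c5885 c5809 (k8 c5876 c5887 c5844 c4441 c300 c1910 c4479 c2109 (k1 c4436 k0)))))) (by decide +kernel)
def c5889 : PP 8 4 T 0x1000000000000000000000000000000002000000000000004000005000000 := rS 0x2f09 (k2 c4317 c519 (k1 c4465 k0)) (by decide +kernel)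
def c5890 : PP 8 4 T 0x200000002000088000000000040000004000000100000000000000000000000002 := rS 0x112182a4da33122854a4923b1c525178a9d16604f89cbe0d0a974466716994270d55a4c569756c428a1b08865044d (k8 c4282 c5888 c1998 c4275 c638 c4452 c5869 c4338 (k8 c4335 c4411 c4413 c4415 c4962 c4401 c490 c4285 (k8 c4309 c4372 c752 c4283 c4371 c488 c4277 c4414 (k8 c4520 c5880 c5886 c5695 c4405 c4402 c4289 c4374 (k8 c4281 c1405 c1795 c2110 c435 c5889 c976 c5844 (k2 c4490 c4441 k0)))))) (by decide +kernel)
def c5891 : PP 8 4 T 0x200000002000080000000000040000004000000100000000000000000000000002 := rS 0x32c9ed1898c1526d2db3d9a8253a2cc10d55a7d262b56a5e2089338444e492691c961516b1ca62928bc4be0d2e88cca13 (k8 c4401 c490 c4372 c752 c4371 c488 c5695 c4405 (k8 c4402 c4290 c4289 c4285 c4283 c4375 c4374 c4282 (k8 c4281 c4277 c4275 c4309 c4314 c5869 c4335 c4338 (k8 c4411 c4413 c4414 c4415 c4962 c4520 c5880 c5886 (k8 c5888 c2064 c5890 c5831 c5832 c976 c5844 c4441 (k4 c300 c299 c5517 c2116 k0)))))) (by decide +kernel)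
def c5892 : PP 8 4 T 0x10000000002000080000000011400004084050002100080000000001000000000002 := rS 0x38a416ebb612f56a994aa351ec162afe88c822ac4387b21a754a0f0526caa79170695e112483446352392c2ac7148ede2ab32a5cce4f1985c2713 (k8 c4341 c4401 c524 c951 c4646 c721 c928 c490 (k8 c1672 c5695 c4403 c4402 c4289 c4283 c4375 c4374 (k8 c4373 c4372 c4371 c4281 c4275 c5815 c5814 c4469 (k8 c2581 c429 c5870 c5871 c426 c1842 c2755 c1952 (k8 c705 c567 c2605 c439 c2107 c4490 c4566 c4530 (k8 c1713 c760 c1027 c762 c1032 c1705 c4454 c2127 (k4 c2061 c1167 c2126 c587 (k1 c889 k0)))))))) (by decide +kernel)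
def c5893 : PP 8 4 T 0x2000080000000010440000084400002102080000000000000000000002 := rS 0x4ec6482213b1080e0a229ed36180d8c0facf279fd52491191c5ac714bc4ae5984c4d134b15814ca330b84d269f86c40cf05 (k8 c5891 c721 c5056 c4962 c4414 c4413 c4401 c524 (k8 c951 c490 c2 c4191 c4427 c157 c4341 c4317 (k8 c64 c38 c5695 c4402 c4289 c4285 c4374 c4372 (k8 c4281 c977 c2707 c4646 c4579 c4634 c5892 c294 (k8 c5853 c5873 c705 c257 c5874 c4 c308 c309 (k4 c831 c1873 c4446 c1091 (k1 c5755 k0))))))) (by decide +kernel)
def c5894 : PP 8 4 T 0x10000000002000080100000000400000084010002000000000000005000000004000 := rS 0x212887e54a94aa2e0d044920d1191c96156384de313 (k8 c4341 c5695 c4401 c4289 c4283 c4375 c4374 c4372 (k8 c4371 c4281 c4275 c5814 c4469 c429 c1842 c786 (k4 c2107 c4490 c724 c4397 k0))) (by decide +kernel)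
def c5895 : PP 8 4 T 0x2000080000000010440000084400002100080000000000000000000002 := rS 0x2968a84661f99e5527b443630659f41ec97e1861a9f198ae201733d2d1211249348e4b16b1ca62928bc40a5f06974466509c161313 (k8 c4341 c4317 c5891 c4401 c490 c4372 c752 c4371 (k8 c488 c2 c5695 c4405 c4402 c4290 c4289 c4285 (k8 c4375 c4374 c4282 c4281 c4275 c157 c4427 c721 (k8 c524 c5056 c4191 c951 c4414 c4962 c5893 c4477 (k8 c4305 c4376 c4379 c1752 c5894 c294 c300 c4501 (k8 c1766 c4579 c4939 c2116 c724 c4397 c1401 c5541 k0)))))) (by decide +kernel)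
def c5896 : PP 8 4 T 0x101000002000080000000000040000800000000080000000000000000200000002 := rS 0x9f508ac4e491191c5ac7148ec0625 (k8 c5708 c1 c4403 c4402 c4289 c4285 c4374 c4372 (k4 c4281 c4277 c5660 c2850 (k2 c5656 c2110 k0))) (by decide +kernel)
def c5897 : PP 8 4 T 0x101000002000080000000000040000001400002000080000000001000004000002 := rS 0x251662b33a3960bb8c1dce6713a9bcf291032757abf105103e813d87432164d8c84e0d1a92c76f101814ca13318a4b309 (k8 c4317 c64 c4402 c754 c4401 c490 c2 c1 (k8 c5695 c4403 c4375 c4373 c4371 c4277 c5814 c2863 (k8 c951 c254 c2958 c705 c1834 c5697 c4484 c4466 (k8 c4399 c4454 c2968 c831 c886 c601 c1019 c498 (k8 c496 c1021 c1024 c4482 c4449 c2122 c625 c5896 (k4 c4191 c664 c5294 c5073 k0)))))) (by decide +kernel)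
def c5898 : PP 8 4 T 0x10100000002000080400000001400000044000002000000000000000000008000002 := rS 0xcd67b449f4a19a242e492691c96c7299461313 (k8 c4341 c4317 c4405 c4290 c4289 c4375 c4374 c4282 (k8 c4281 c9 c2660 c951 c4485 c4646 c4426 c4430 (k2 c4460 c2116 k0))) (by decide +kernel)
def c5899 : PP 8 4 T 0x100000002000080000000000440000044400002002080000000000000000000002 := rS 0x66b3e9489688609e331806d968554c35fa492691c96c729945e309 (k8 c4317 c5695 c4405 c4290 c4289 c4375 c4374 c4282 (k8 c4281 c4301 c4325 c977 c713 c5740 c5898 c5897 (k8 c62 c299 c5889 c261 c2038 c4485 c4430 c4460 (k1 c2116 k0)))) (by decide +kernel)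
def c5900 : PP 8 4 T 0x110100000002000080100000100040001800010154001010000000000041000000002 := rS 0x592496e9e3fa84cc272488c8e2d638a4be0d (k8 c4371 c488 c4402 c4289 c4285 c4374 c4372 c4281 (k8 c4277 c5056 c896 c5121 c2110 c1667 c1428 c5124 (k1 c1123 k0))) (by decide +kernel)
def c5901 : PP 8 4 T 0x1010100000002000080100000000040000100010154001080000000000041000004002 := rS 0x251669f33c40c6292cac51c91 (k8 c888 c4486 c624 c64 c4402 c754 c5900 c4333 (k4 c4414 c664 c5074 c5073 k0)) (by decide +kernel)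
def c5902 : PP 8 4 T 0x100000000000000000000000000000000000000010000000000400080200000002 := rS 0x1980605 (k4 c2 c1 c4191 c5660 k0) (by decide +kernel)
def c5903 : PP 8 4 T 0x100000002000080000000000440000000400002001080000000001000004000002 := rS 0x868ac4a8d8aaf176bf8c1dce6713a9e40c9d3e9bc1ec9103f03e85409ec3a190b26c640d258ede2033284e12b1 (k8 c624 c4317 c4401 c490 c1 c5695 c4403 c4375 (k8 c4371 c5814 c2863 c951 c254 c2958 c705 c1834 (k8 c522 c5697 c5897 c4466 c4305 c4376 c4378 c4379 (k8 c2968 c831 c601 c498 c496 c1021 c1024 c4482 (k8 c4369 c4449 c2122 c4354 c1120 c313 c5902 c5243 (k1 c5901 k0)))))) (by decide +kernel)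
def c5904 : PP 8 4 T 0x2000080000000010440000004400002100080000000001000000000002 := rS 0x3e9fd920f3a199726f4b2f182bb8c265269546a3c38bf61b1414ab57aa54b4a4e8cd365517224f2170d044920d118d48e4b0ab1c26291d9461313489851705 (k8 c5891 c5895 c5899 c888 c4341 c4317 c4405 c4403 (k8 c4402 c4401 c4289 c4283 c4375 c4374 c4373 c4372 (k8 c4371 c4281 c4275 c5903 c9 c2581 c2660 c687 (k8 c429 c5870 c951 c969 c4485 c1842 c786 c788 (k8 c1844 c5871 c4429 c4459 c4566 c567 c760 c1027 (k8 c762 c1029 c1032 c4149 c4449 c4450 c2126 c2127 (k8 c1080 c1207 c928 c929 c305 c633 c595 c1691 (k1 c2107 k0)))))))) (by decide +kernel)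
def c5905 : PP 8 4 T 0x10100000002000095000000000440000044400002001000000000000000004400002 := rS 0xcca088a7e86ca2783df8492691c96c729944be0d2e88e1313 (k8 c4341 c4317 c4372 c752 c4371 c488 c4405 c4290 (k8 c4289 c4375 c4374 c4282 c4281 c4477 c4376 c4501 (k4 c2116 c4425 c1669 c5537 (k2 c4489 c5056 (k1 c896 k0))))) (by decide +kernel)
def c5906 : PP 8 4 T 0x400000000000000080000140000000400100000000000000040110000001080000000 := rS 0x5f8dd3a431c9346a4b (k8 c4375 c4373 c4282 c4279 c277 c1232 c272 c5760 (k1 c2114 k0)) (by decide +kernel)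
def c5907 : PP 8 4 T 0x400000000000000000000000000000000000000000100080000010000000022000000 := rS 0x23076212641457 (k4 c38 c759 c1031 c308 (k2 c309 c4679 (k1 c4446 k0))) (by decide +kernel)
def c5908 : PP 8 4 T 0x2000080000000010440000004400002100080000000000000000000002 := rS 0xc08c0f486950f02c3a4103884cc2a88c308acd61b3d8a7ba526d12d10c05c363318185163f298eca2f10299427052c9ae1313 (k8 c4341 c4317 c70 c64 c5891 c4401 c490 c2 (k8 c5695 c4405 c4403 c4290 c4287 c5895 c5899 c5904 (k8 c62 c294 c1910 c5889 c261 c2038 c5873 c4485 (k8 c705 c4429 c4430 c4459 c4460 c257 c5905 c4962 (k8 c5243 c5056 c5902 c495 c1873 c5907 c567 c4466 (k4 c5290 c277 c275 c4472 (k2 c2115 c4450 k0))))))) (by decide +kernel)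
def c5909 : PP 8 4 T 0x400001000002000081011000154001514082010004000001000000000000000004000 := rS 0x11538af16eca613212e7fa5844920d238558e13 (k8 c4401 c4289 c4283 c4374 c4371 c4281 c4275 c4427 (k8 c725 c4785 c2107 c2127 c717 c1168 c2028 c587 (k2 c4354 c4480 k0))) (by decide +kernel)
def c5910 : PP 8 4 T 0x2000080000000010040000004400002100080000000000000000000002 := rS 0x30d2f4a64a2d831837a65269562afc8a1c21aad36557eac4fa893c83c142e0d2bcc0844eb35023119c3552a689c249a291d945e305 (k8 c5891 c5695 c4405 c4403 c4402 c4282 c4317 c4341 (k8 c5908 c134 c4330 c2908 c2006 c1896 c2066 c2913 (k8 c905 c904 c5815 c5814 c4469 c5871 c427 c601 (k8 c2667 c1502 c2696 c4301 c429 c5870 c1844 c1952 (k8 c567 c439 c4566 c4530 c762 c1029 c1032 c1499 (k8 c4149 c4450 c5909 c716 c4485 c5270 c4459 c2127 k0)))))) (by decide +kernel)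
def c5911 : PP 8 4 T 0x100000002000080000000011400000080000001102080000000001000000000002 := rS 0x25572b73aac47a080f01c3ac91082ca824682949e2f15c48307f59aaccf09138e4924d1694ca2053284cc61b35abc66f114bf61a85 (k8 c712 c4325 c4301 c4402 c5695 c950 c5815 c493 (k8 c686 c754 c4401 c490 c2 c4405 c4290 c4285 (k8 c4282 c4281 c4279 c4277 c4322 c720 c1672 c2705 (k8 c2707 c5853 c4479 c4191 c1870 c259 c4444 c2112 (k8 c4839 c260 c2254 c5708 c1726 c759 c495 c4466 (k8 c4462 c274 c1145 c1686 c5279 c5280 c5073 c5803 k0)))))) (by decide +kernel)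
def c5912 : PP 8 4 T 0x101000002000080000000000040011000000110000080000000000040200000002 := rS 0x1ccde060f8d47659 (k8 c64 c4403 c4373 c57 c831 c1019 c1021 c5294 k0) (by decide +kernel)
def c5913 : PP 8 4 T 0x100000002000080100000410440800020040000002080000000000040000000402 := rS 0x580216c0710a55727538b0d2239318a5fb0d (k8 c4325 c4301 c4402 c754 c4279 c892 c2058 c585 (k8 c597 c5280 c5073 c5912 c495 c5803 c4462 c5279 (k1 c1145 k0))) (by decide +kernel)
def c5914 : PP 8 4 T 0x400100000002000080100500410441000020040400002080040000000840010000002 := rS 0x2ec8b181ba64e241488203c0710a6c860b1c9346a4b (k8 c4375 c4373 c4282 c4279 c567 c1953 c5913 c836 (k8 c495 c4466 c4462 c1153 c1063 c585 c1840 c233 (k4 c4488 c4363 c4449 c2114 k0))) (by decide +kernel)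
def c5915 : PP 8 4 T 0x400000000002000080000000010440000004400000102080000000001040000000002 := rS 0x1194d9e080160782932210e325107f5999d7abf885119e813baac32a527c205c112683496513284cc61b4e9ad5e33788a61a8545aa4db05 (k8 c5891 c5910 c977 c5911 c712 c4325 c4402 c5695 (k8 c950 c5815 c493 c968 c686 c754 c4401 c490 (k8 c4405 c4375 c4371 c4282 c4275 c4469 c4479 c4646 (k8 c1842 c1870 c1844 c4438 c4439 c5591 c4490 c5712 (k8 c4399 c4454 c4333 c664 c672 c2120 c636 c5914 (k8 c11 c1032 c759 c5657 c2108 c573 c572 c1849 (k2 c4447 c4488 k0))))))) (by decide +kernel)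
def c5916 : PP 8 4 T 0x101000002000080000000400040000000000000000080000000000040200000002 := rS 0x12a713aa440c270684cc629 (k8 c4402 c754 c4401 c4371 c4277 c831 c886 c498 (k2 c496 c5073 (k1 c5912 k0))) (by decide +kernel)
def c5917 : PP 8 4 T 0x1000000000000000000000000020000200000000000054000000000000000 := rS 0x22c658478 (k4 c596 c597 c4447 c1209 (k1 c4472 k0)) (by decide +kernel)
def c5918 : PP 8 4 T 0x100000002000080100000400000100020040000002080000000001000110000002 := rS 0x12ab93aadd6241218203c0b1c8fde26314bf61a07 (k8 c495 c4325 c4301 c4402 c754 c5695 c4287 c4279 (k8 c567 c4466 c4462 c276 c1103 c1145 c5279 c5917 (k2 c5280 c5073 (k1 c5803 k0)))) (by decide +kernel)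
def c5919 : PP 8 4 T 0x10000001000000080000000000400800001400000000000000000000000025004040 := rS 0x4093e10370bc508491089341a4b4788d1a35 (k8 c4373 c1027 c4372 c760 c4375 c4371 c4282 c4275 (k8 c892 c765 c4486 c1951 c4386 c4465 c338 c4439 (k1 c2108 k0))) (by decide +kernel)
def c5920 : PP 8 4 T 0x800100000002000080101000010001444000000000002080000000000000020800000 := rS 0x55399d22ec2629dcf0401dc355695148281257 (k8 c38 c1057 c759 c4402 c762 c4445 c4325 c4403 (k8 c573 c572 c1833 c1055 c4553 c4362 c2057 c1087 (k2 c1687 c5259 k0))) (by decide +kernel)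
def c5921 : PP 8 4 T 0x100000002000080108000000000000000000400002080000000000000020000000 := rS 0xaa738b95e1a0a (k4 c759 c4325 c38 c4362 (k2 c1087 c307 (k1 c5259 k0))) (by decide +kernel)
def c5922 : PP 8 4 T 0x2000080000000010440000004400000142080000000001040000000002 := rS 0x45522365f10988c327204ef080ba6c1e0a4aa351e450e01c42c90cb0526883facd2f10089341a231a92ca63b3284cc61b4e9ad5e33788a5fb0d42a2d526d82a655712 (k8 c5915 c4445 c4443 c5891 c5910 c977 c5911 c712 (k8 c4325 c4301 c4402 c5695 c950 c5815 c493 c968 (k8 c686 c754 c4401 c490 c4403 c4290 c4375 c4373 (k8 c4372 c4371 c4282 c4275 c5056 c928 c664 c672 (k8 c2120 c4413 c1985 c2038 c636 c5916 c495 c5918 (k8 c1219 c760 c1027 c762 c759 c5657 c5919 c5920 (k8 c4465 c4438 c4439 c2108 c5921 c4553 c4530 c339 (k4 c338 c1244 c4386 c4486 k0)))))))) (by decide +kernel)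
def c5923 : PP 8 4 T 0x400000000000000000000002000084010800014000000000000000000000000000005040200000000 := rS 0x2f689059b45248d45a5328abde229 (k8 c4402 c5695 c5815 c4405 c4290 c4285 c4373 c4281 (k4 c4399 c1486 c1053 c5846 (k2 c837 c2112 k0))) (by decide +kernel)
def c5924 : PP 8 4 T 0x101000002000080000000015540000005404000080080000000005040200000002 := rS 0x2710882785faed7a8167d0e287e629dd62a0389bc169f5923c4a060e89c920d118d48e2d63abde229 (k8 c4402 c5695 c5815 c4289 c4285 c4374 c4373 c4372 (k8 c4371 c4281 c4277 c11 c831 c5708 c5896 c5916 (k8 c5656 c567 c1019 c496 c2110 c625 c1192 c1250 (k8 c5296 c4480 c4423 c1794 c1462 c4354 c4390 c5923 (k4 c2122 c1847 c501 c5804 (k1 c339 k0)))))) (by decide +kernel)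
def c5925 : PP 8 4 T 0x100000002000080000000000040000000000000082080000000000000110000002 := rS 0x1be2ab638ac57297488212a1e058e47efd86c459207 (k8 c495 c633 c4333 c4325 c4301 c4287 c4279 c567 (k8 c4466 c5290 c4462 c1153 c1193 c5821 c1145 c585 (k4 c5646 c4353 c1078 c4480 k0))) (by decide +kernel)
def c5926 : PP 8 4 T 0x2000080000000010440000004400000102080000000001040000000002 := rS 0x4f4086484776205ce0bf4da422ac18b30d2e0f2a829269546a3c8a1c10b26226655a953312089341a231a92c523b7886c667b4ebf61a8545aa4db05 (k8 c5891 c5910 c977 c5911 c712 c4325 c4301 c968 (k8 c704 c950 c686 c5695 c4403 c4402 c4375 c4373 (k8 c4372 c4371 c4282 c4275 c5915 c4443 c4444 c4445 (k8 c5922 c4333 c633 c5924 c5925 c1219 c760 c1027 (k8 c762 c1029 c759 c5625 c5657 c5270 c4958 c4487 (k8 c4420 c4963 c4486 c892 c1245 c889 c5920 c4553 (k4 c1096 c4530 c309 c1422 (k2 c339 c2108 k0)))))))) (by decide +kernel)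
def c5927 : PP 8 4 T 0x100000002000080000000000040000000000000002080000000000080000000002 := rS 0x71482d47b163e25d6e0f2aac414934aa3c38c93f884cca1888449223238558e291d814be0d3284dfb0d (k8 c4325 c4301 c4401 c490 c4371 c488 c2 c4403 (k8 c4402 c4289 c4283 c4374 c4372 c4281 c4275 c4411 (k8 c1734 c4191 c5902 c5121 c633 c5925 c760 c762 (k8 c1029 c759 c625 c5625 c5657 c5279 c5270 c2107 (k4 c4487 c4416 c4419 c5245 (k2 c1419 c889 k0)))))) (by decide +kernel)
def c5928 : PP 8 4 T 0x101000002000080000000010840000001504000000080000000005040200000002 := rS 0x8078172fda2bd67d0e287e55ac53e8f6299976713782d6491030744e49068d45a5328abde229669de1145 (k8 c4453 c4484 c4438 c2066 c4402 c5695 c5815 c4405 (k8 c4290 c4285 c4373 c4371 c4281 c4277 c11 c831 (k8 c886 c5916 c567 c1019 c496 c1979 c664 c1250 (k8 c5896 c5656 c625 c2013 c5296 c5772 c4392 c1521 (k4 c4354 c5846 c5923 c2112 (k2 c2122 c837 (k1 c1847 k0))))))) (by decide +kernel)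
def c5929 : PP 8 4 T 0x100000002000080000000400800000020440000002080000000001000110000002 := rS 0xdf1538ac57891042603c0b1cbf40ec9 (k8 c636 c495 c4301 c4279 c567 c4466 c5918 c4462 (k4 c1153 c2010 c1145 c585 (k2 c4354 c1080 (k1 c4480 k0)))) (by decide +kernel)
def c5930 : PP 8 4 T 0x101000000000000100000000020000000040000004000000000000000000000000 := rS 0xfb43 (k2 c4423 c1624 (k1 c4483 k0)) (by decide +kernel)
def c5931 : PP 8 4 T 0x10000000000000000000014000054055500000000000000000000000000000000000 := rS 0x16914 (k2 c4486 c2125 (k1 c4389 k0)) (by decide +kernel)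
def c5932 : PP 8 4 T 0x80000000000000802000500000000000000000000000025000840 := rS 0x2eba210449a4b (k4 c4375 c4282 c4275 c765 (k2 c893 c1951 (k1 c4735 k0))) (by decide +kernel)
def c5933 : PP 8 4 T 0x2000080000000010040000004400000142080000000001000000000002 := rS 0x17b19622ed36bf8aa4142b95b9d562c3052652a8d4787182c9442ad3e933facd2f10118d4ca133186d3a6b57bc4530d45864ef08a281c4281530ad0afd3d8ccdb05 (k8 c5891 c5910 c950 c704 c4301 c712 c5927 c5926 (k8 c1896 c5928 c495 c4453 c4484 c4438 c4436 c4322 (k8 c4325 c4402 c5695 c5815 c493 c968 c686 c754 (k8 c4401 c490 c4373 c4372 c5056 c928 c664 c672 (k8 c4413 c4414 c4415 c2120 c636 c1985 c5929 c760 (k8 c1027 c762 c1032 c759 c5921 c625 c597 c5279 (k8 c5280 c5930 c5931 c4351 c1244 c5932 c1978 c2127 (k2 c4370 c1175 (k1 c4493 k0))))))))) (by decide +kernel)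
def c5934 : PP 8 4 T 0x2000080000000010040000004400000102080000000001000000000002 := rS 0x21b105cab68b3d41433f1f536704845582b58b25c1e556182932934aa351e450e326226603884ee1984335034552a98568586bf422490688c6a470a8b58e53098eca3050d9ed3aaf199b5e229 (k8 c4402 c5695 c5910 c950 c5815 c968 c704 c686 (k8 c5891 c4405 c4403 c4401 c4290 c4289 c4285 c4283 (k8 c4374 c4373 c4372 c4371 c4281 c4275 c4301 c4325 (k8 c712 c5927 c5926 c79 c4453 c1896 c2066 c4484 (k8 c4436 c4438 c5928 c495 c5933 c4333 c633 c5925 (k8 c1219 c760 c1027 c762 c1029 c1032 c759 c5921 (k8 c5625 c5657 c5270 c4487 c4419 c4420 c4963 c4486 (k8 c889 c5932 c1419 c2107 c4392 c673 c1521 c5846 (k4 c1741 c2112 c2127 c1952 (k1 c4530 k0)))))))))) (by decide +kernel)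
def c5935 : PP 8 4 T 0x1000000000000000000005110054001054080084001500000000000000000000000000 := rS 0x26d8b184cafd7745893310909 (k8 c4322 c724 c725 c4479 c4397 c1442 c1485 c4443 (k4 c4493 c4370 c4448 c2127 k0)) (by decide +kernel)
def c5936 : PP 8 4 T 0x1000000000000000000200000000000000000000004000005000000000000 := rS 0x5f13 (k2 c4444 c1842 (k1 c4469 k0)) (by decide +kernel)
def c5937 : PP 8 4 T 0x2000080000000550541041004404001541010000000000000000000082 := rS 0x321784a21088b549f86cb75ea322ac15a8f587164aae4e6713a8e49235238fd8e531dbc4c6290d8ac0a6509a4d3eab079bcfa817e43621052f834ba23 (k8 c4372 c752 c4371 c488 c5891 c5056 c4962 c4477 (k8 c4380 c4379 c4378 c4376 c4415 c4414 c4413 c4401 (k8 c490 c2 c4191 c686 c4402 c754 c5695 c4403 (k8 c4290 c4289 c4287 c4374 c4373 c4281 c4279 c498 (k8 c496 c1021 c4548 c5073 c4481 c4362 c4416 c4419 (k8 c4420 c4963 c5074 c1120 c1117 c2113 c4088 c3481 (k4 c5935 c2119 c2120 c4321 (k2 c522 c2038 (k1 c4465 k0))))))))) (by decide +kernel)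
def c5938 : PP 8 4 T 0x10100000002000080000000400040005000040000055500000001000000000000200 := rS 0x11b1547ad92ab53aa80a8111c9241a35238547ec7098ed926f3e8dc1efc (k8 c4477 c4376 c232 c4379 c4378 c4305 c4403 c4401 (k8 c4289 c4287 c4283 c4374 c4373 c4371 c4281 c4279 (k8 c4275 c2107 c4560 c1686 c1707 c5073 c4559 c850 (k2 c4353 c1117 (k1 c4486 k0))))) (by decide +kernel)
def c5939 : PP 8 4 T 0x10100000002000080100008400044005000000000000010000000000040000004002 := rS 0x12a8d3ac54c629 (k4 c4402 c754 c4353 c1744 (k2 c1117 c5073 (k1 c5074 k0))) (by decide +kernel)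
def c5940 : PP 8 4 T 0x2000080000000050540000004440001541000000000000000000000002 := rS 0xd14533513454233d5343501502249238558e650998c52ab6483cfa817e43621052f834ba23 (k8 c4372 c752 c4371 c488 c5891 c5056 c4962 c4477 (k8 c4380 c4379 c4376 c4305 c4415 c4402 c754 c4401 (k8 c490 c4289 c4283 c4374 c4281 c4275 c2107 c4560 (k8 c4423 c980 c1794 c2119 c4397 c685 c1481 c2120 (k2 c5846 c1766 k0))))) (by decide +kernel)
def c5941 : PP 8 4 T 0x10002000002000080000004400040001000080000000000000000000040010000042 := rS 0x371e8203c0b2f8341e21 (k8 c831 c4376 c4371 c488 c567 c4466 c4462 c274 (k2 c232 c5024 k0)) (by decide +kernel)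
def c5942 : PP 8 4 T 0x2000080000000010440000004400000140080000000001000000000002 := rS 0x422219ea945a80e43c5cc5c6e758a1c52a8d478716a7e5b81d026f07b25f90d55a7d26b34b8ae20350297c1a5d1199426638295cb27b4e9ad5e2958a44c2a5199b5e24b (k8 c4375 c5695 c5910 c950 c5936 c5934 c888 c624 (k8 c4402 c5815 c493 c968 c704 c64 c38 c5891 (k8 c754 c4401 c490 c4372 c752 c4371 c488 c2 (k8 c4373 c5056 c4191 c928 c664 c4413 c4414 c4415 (k8 c4962 c4477 c4305 c4376 c4378 c4380 c5937 c5939 (k8 c5940 c1434 c5941 c760 c1027 c762 c4135 c4486 (k8 c594 c4386 c4963 c4548 c5042 c4481 c2125 c3707 (k4 c980 c1794 c2120 c2119 (k1 c685 k0))))))))) (by decide +kernel)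
def c5943 : PP 8 4 T 0x20101000002000080100000000000000000040000080080000000000000110000002 := rS 0x3a0f52e950f02c7f11 (k8 c4333 c4287 c567 c4466 c5290 c1193 c275 c5281 (k1 c593 k0)) (by decide +kernel)
def c5944 : PP 8 4 T 0x100000000000000000000004000054051100000000000000000000400000420000000 := rS 0x4596893 (k4 c1029 c5153 c4487 c4419 k0) (by decide +kernel)
def c5945 : PP 8 4 T 0x1000000080000000000400000001400001101000000000001001000000002 := rS 0x5e1280548645c5f06974461b35a94664b (k8 c4375 c950 c5936 c493 c686 c4372 c752 c4371 (k8 c488 c5721 c1870 c786 c2119 c4439 c1834 c4465 k0)) (by decide +kernel)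
def c5946 : PP 8 4 T 0x1000002000080000000000440000004440001181080000000001000000000002 := rS 0x13c1c183e85e12842a9d12c090525438211527d1a255bc302249238558e291dbc4be0d2e88cca138295c36b148c4592a1 (k8 c896 c633 c4333 c888 c624 c686 c38 c5891 (k8 c4401 c490 c4372 c752 c4371 c488 c5695 c4403 (k8 c4402 c4289 c4283 c4374 c4281 c4275 c4477 c5279 (k8 c4381 c4383 c4384 c5243 c5902 c5943 c762 c759 (k8 c1057 c5944 c929 c1687 c5945 c4321 c522 c1502 (k4 c4465 c2107 c2253 c1495 k0)))))) (by decide +kernel)
def c5947 : PP 8 4 T 0x1000000080000000000400000001500001101000000000001000000000002 := rS 0x150242f834ba2335a94664b (k8 c4375 c950 c5936 c493 c4372 c752 c4371 c488 (k2 c5945 c2119 (k1 c1504 k0))) (by decide +kernel)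
def c5948 : PP 8 4 T 0x2000080000000010440000004440000100080000000001000000000002 := rS 0x2189fa1b2854cf688bc48aba50609f1244b342f09422041efc139249a23238b58e532897c1b050d9ad5e2930a9466f125a2ccc6d (k8 c5910 c5942 c720 c4375 c5695 c950 c5936 c5934 (k8 c4402 c5815 c493 c686 c5891 c4371 c488 c4405 (k8 c4290 c4289 c4285 c4374 c4372 c4282 c4281 c4277 (k8 c5946 c4376 c4380 c5947 c4321 c522 c1481 c684 (k8 c4479 c4501 c4465 c4485 c4445 c4502 c1870 c261 (k4 c4430 c2112 c2116 c4425 (k2 c1669 c5588 (k1 c4381 k0)))))))) (by decide +kernel)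
def c5949 : PP 8 4 T 0x2000080000000010440000004400000100080000000001000000000002 := rS 0x5ca90c13e241784895090c4083cfca1889984e4d11b1cbe0d0d9acc2a5199b5e24b (k8 c4375 c5695 c5910 c950 c5936 c5934 c493 c686 (k8 c4371 c488 c4289 c4372 c4282 c4277 c5942 c4333 (k8 c896 c5948 c1455 c1462 c5121 c5947 c4381 c4321 (k4 c522 c4479 c4501 c4465 (k2 c4345 c2111 (k1 c1870 k0)))))) (by decide +kernel)
def c5950 : PP 8 4 T 0x1000000000000000000000002000081100000050040000004450001541000000000000000000004002 := rS 0xcba5a2116d167d0ca8a0089248e156397c1a5d11994266314aae2105 (k8 c5891 c5056 c4415 c4402 c754 c4401 c490 c4372 (k8 c752 c4371 c488 c4289 c4283 c4374 c4281 c4275 (k8 c4560 c2107 c4423 c1794 c5846 c1766 c2120 c4457 (k2 c2024 c4495 k0)))) (by decide +kernel)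
def c5951 : PP 8 4 T 0x1000000000000000000000002000081100000050040000004410001541000000000000000000004002 := rS 0x2f09423399619a5a2117433f2ae200d29bc4ca13318a60a1b (k8 c686 c5891 c4402 c754 c4401 c490 c5695 c4290 (k8 c4371 c5056 c4415 c5950 c4392 c725 c2120 c4457 (k4 c2038 c2024 c4495 c1521 (k2 c4321 c522 (k1 c4465 k0))))) (by decide +kernel)
def c5952 : PP 8 4 T 0x1100000002000000000000054000000054005400000000000000005040200000000 := rS 0x2e4db46314a1694c5251 (k8 c4405 c4402 c4290 c4285 c4485 c4482 c4426 c4448 (k2 c2112 c836 k0)) (by decide +kernel)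
def c5953 : PP 8 4 T 0x2000080000000000050020100000000000000000000000040200000000 := rS 0x9f1289c9223238b58e29 (k8 c4402 c4289 c4285 c4374 c4372 c4281 c4277 c313 (k2 c1699 c2110 k0)) (by decide +kernel)
def c5954 : PP 8 4 T 0x4110000000000000001110040151054000255555414000000000000000000000000000 := rS 0xc38caf97a9960c4a96ce65ae56b42 (k8 c4489 c1387 c4394 c4425 c2124 c4430 c5286 c1716 (k4 c4443 c1119 c2122 c4369 (k2 c1215 c4494 k0))) (by decide +kernel)
def c5955 : PP 8 4 T 0x110000000002000001100040955050020255554014000000000000015040200000000 := rS 0x2f6890580be5ea6624ce65ad13c791694c525122c5d8a77 (k8 c1192 c1786 c4418 c440 c4405 c4402 c4290 c4285 (k8 c668 c5954 c1698 c1668 c2124 c5286 c4443 c1119 (k4 c2122 c1518 c1053 c1711 (k2 c837 c2112 k0)))) (by decide +kernel)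
def c5956 : PP 8 4 T 0x40000000000004000000000000000004011140900000000001504414000000000000000000000000000 := rS 0x17e79 (k2 c669 c4572 (k1 c2122 k0)) (by decide +kernel)
def c5957 : PP 8 4 T 0x2000000002000054000000000000000000000000000005040200000000 := rS 0x17105a22d298a4a245 (k8 c440 c4405 c4402 c4290 c4285 c1711 c1852 c2112 (k1 c837 k0)) (by decide +kernel)
def c5958 : PP 8 4 T 0x10000000002000081100040115050020045554014480000000000005040200000000 := rS 0x2130883195f1e57a998952d108c3bb1565171a94e224560abde229 (k8 c4402 c5695 c5815 c5957 c440 c4333 c4290 c4373 (k8 c4418 c857 c1786 c1192 c5953 c5955 c4457 c5289 (k8 c4443 c1119 c669 c2122 c4369 c1053 c4494 c4472 (k1 c2054 k0)))) (by decide +kernel)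
def c5959 : PP 8 4 T 0x10100000002000081100040115050001045514004080080000000005040200004002 := rS 0x11a9f8aad96695399c4ea064b8ecb26b3fc44be0d (k8 c4371 c488 c4333 c5121 c493 c64 c4403 c2930 (k8 c831 c593 c496 c1021 c5958 c665 c5124 c4353 (k2 c1667 c1118 (k1 c5074 k0)))) (by decide +kernel)
def c5960 : PP 8 4 T 0x10100000002000080000010000010011200000100000480000001000000100000400 := rS 0x1175bad4e28f (k4 c71 c1385 c1388 c1118 (k2 c5245 c5266 k0)) (by decide +kernel)
def c5961 : PP 8 4 T 0x2000000000000000000000000000000080082000000000000020000002 := rS 0xf41493148ecb311 (k8 c4333 c64 c4403 c4402 c1029 c759 c5241 c306 k0) (by decide +kernel)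
def c5962 : PP 8 4 T 0x1000000000000000008000000000000000000000100000005000000000000 := rS 0x5f13 (k2 c4445 c1844 (k1 c4469 k0)) (by decide +kernel)
def c5963 : PP 8 4 T 0x100000002000080100014500000000000050114000000000001040000000000000 := rS 0xb4390e49235238fd8e3b (k8 c4403 c4289 c4287 c4374 c4373 c4281 c4279 c5124 (k2 c2113 c1618 k0)) (by decide +kernel)
def c5964 : PP 8 4 T 0x110000000000000000000008000050000000000000000000000000500000100000000 := rS 0x13f43 (k2 c4424 c5142 (k1 c4489 k0)) (by decide +kernel)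
def c5965 : PP 8 4 T 0x10100000002000080000000000050000000010000080080000000000000110004400 := rS 0xe7175a2dcea375cacc7a97042543c071c9246a471fb1c7711 (k8 c4333 c4403 c4289 c4287 c4374 c4373 c4281 c4279 (k8 c495 c4466 c5290 c4462 c1193 c275 c665 c5821 (k4 c232 c593 c5964 c2113 (k2 c4419 c1618 (k1 c4481 k0))))) (by decide +kernel)
def c5966 : PP 8 4 T 0x2000080000000010040000004400000100080000000001000000000002 := rS 0x17b44314a4485e128415881560b0e950fea145c44cc7d3783d92bb7e335034586aa54c91589855e6b089248e1516b1ca6291d945e25f0699427050d8ccf66d (k8 c5910 c704 c950 c686 c5891 c4401 c490 c4371 (k8 c488 c5695 c4405 c4403 c4402 c4290 c4289 c4285 (k8 c4283 c4374 c4281 c4275 c493 c5815 c5934 c624 (k8 c888 c5949 c134 c4330 c4453 c1896 c2066 c4532 (k8 c1979 c4305 c4376 c4378 c4379 c5951 c4333 c720 (k8 c896 c5121 c2107 c5961 c567 c5962 c5965 c5902 (k8 c5959 c4321 c522 c684 c4485 c4465 c4426 c1870 (k1 c2112 k0)))))))) (by decide +kernel)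
def c5967 : PP 8 4 T 0x10100000002000080000000000040000000400001181080000000002000000000002 := rS 0x21433080bc64ee6b27909300610104161d2a204fa0f3fbf022492691c96156384cbe0d2e88c367b89c4592a1 (k8 c896 c633 c4333 c4441 c704 c686 c4372 c752 (k8 c4371 c488 c4401 c4289 c4283 c4375 c4374 c4282 (k8 c4281 c4275 c4477 c5121 c4376 c4379 c4380 c2107 (k8 c5961 c567 c1913 c5965 c831 c317 c316 c2265 (k8 c5752 c1023 c4446 c3838 c4479 c4152 c4321 c2108 k0))))) (by decide +kernel)
def c5968 : PP 8 4 T 0x2000000000080000000000000000001400001500000040000002000004000000 := rS 0x31080b8449a0d25c4c1e81 (k8 c4380 c4376 c4441 c4375 c4371 c4282 c4275 c1910 (k2 c4479 c2108 (k1 c4436 k0))) (by decide +kernel)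
def c5969 : PP 8 4 T 0x20000000000000080000000000000000000400000800080040100000000100000002 := rS 0x16bb (k2 c4847 c2540 (k1 c5757 k0)) (by decide +kernel)
def c5970 : PP 8 4 T 0x2000080000000010040000004400000181080000000000000000000002 := rS 0x3f875fa0e2a2050a1944c202e6b1093c542586345928b57c44224d0692c2ac7298eca26509c143713228c13a6d (k8 c5910 c968 c5966 c297 c4441 c686 c5891 c4401 (k8 c490 c4405 c4403 c4290 c4289 c4283 c4375 c4371 (k8 c4282 c4275 c4333 c984 c720 c633 c301 c5967 (k8 c4381 c5243 c298 c5902 c5969 c1910 c4479 c5289 (k8 c4436 c4321 c4439 c2109 c2108 c5968 c5961 c1455 (k1 c5943 k0)))))) (by decide +kernel)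
def c5971 : PP 8 4 T 0x2000000000080000000000000000001400001100000000000002000200000002 := rS 0x1ac9e1b (k4 c686 c2265 c5752 c5968 k0) (by decide +kernel)
def c5972 : PP 8 4 T 0x1000000000000000100000000000001100000080050000001010000055500000000000000000000000 := rS 0xcfa1b2cfd4b (k4 c4428 c4560 c1754 c4392 (k2 c1521 c4495 k0)) (by decide +kernel)
def c5973 : PP 8 4 T 0x100000002000080000000400040001000040000041000000000000000110000042 := rS 0x3d04078165f069744663148ac0a6509a4e1b10 (k8 c5056 c4962 c4413 c4401 c490 c2 c4191 c4402 (k8 c754 c4372 c752 c4371 c488 c567 c4466 c4462 (k2 c274 c5938 k0))) (by decide +kernel)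
def c5974 : PP 8 4 T 0x100000002000080000004400040001000000000041000000000000000110000042 := rS 0x3f8ac0a6509bf21b102f834ba23 (k8 c4372 c752 c4371 c488 c5056 c4962 c4477 c4401 (k4 c490 c2 c4191 c5941 (k1 c5973 k0))) (by decide +kernel)
def c5975 : PP 8 4 T 0x100000002000080000000000040000001400001141080000000002000000000002 := rS 0x10632783bc202ebb5e9ae28bf38a6c148d478700e211abc4f69d17c4d626f40add929307bf0be0d2e88e1a9f882cc56053284d2259 (k8 c64 c888 c4401 c490 c2 c4191 c664 c5056 (k8 c4414 c4962 c4372 c752 c4371 c488 c4477 c4376 (k8 c4413 c4305 c5939 c4380 c4378 c624 c4441 c16 (k8 c968 c704 c5695 c4373 c5971 c495 c5974 c760 (k8 c1027 c759 c764 c4135 c5760 c4486 c2540 c4354 (k8 c4390 c1910 c4479 c4438 c2122 c4447 c1846 c5755 k0)))))) (by decide +kernel)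
def c5976 : PP 8 4 T 0x400000000000000000000000000000000002000001100000000000000000000000002 := rS 0xd709 (k2 c4321 c2441 (k1 c4479 k0)) (by decide +kernel)
def c5977 : PP 8 4 T 0x2000080000000010040000004400000101080000000000000000000002 := rS 0xcf0542c4c606d (k4 c5910 c5966 c4441 c5976 (k2 c5891 c5970 (k1 c5975 k0))) (by decide +kernel)
def c5978 : PP 8 4 T 0x100000002000080000000000040000000040000082080000000000000010000002 := rS 0x9f59081fa2b (k4 c5927 c4301 c5925 c5916 (k2 c5656 c5296 k0)) (by decide +kernel)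
def c5979 : PP 8 4 T 0x2000080000000010040000004400000100080000000000000000000002 := rS 0x15190893ed0d98cb67aad3f1033874167f07204328b6893e101715aa4d70d7e9810aa7898c0661b36844924d0688c8e4b0a8b58e53098a4a305 (k8 c5891 c4405 c4402 c4401 c4290 c4289 c4285 c4283 (k8 c4375 c4374 c4372 c4371 c4282 c4281 c4275 c5910 (k8 c686 c950 c5966 c4441 c2006 c5976 c5977 c4301 (k8 c4325 c620 c977 c5927 c1910 c4479 c299 c300 (k8 c4322 c4436 c4439 c2108 c1455 c5657 c759 c5978 (k8 c5056 c4414 c4415 c4579 c5517 c2116 c4395 c1357 (k4 c4529 c4483 c2109 c1726 k0))))))) (by decide +kernel)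
def c5980 : PP 8 4 T 0x1000000000000000000000002000080000000820050000005504010000080000000000040200000400 := rS 0x415e90e329946309347749a50a6f12c914662d (k8 c4285 c942 c440 c64 c5695 c4290 c665 c1123 (k8 c1192 c860 c861 c5953 c2051 c4448 c2054 c1119 (k2 c5798 c4472 k0))) (by decide +kernel)
def c5981 : PP 8 4 T 0x2000002000080000000000040000005400001101080000000000000000000002 := rS 0x2353f155b2556673389d456064b880161d2a1fe8b0d53204fa6f0784492470ab1c76f12f834ca132c8c4a6c958a45426688ab20a7b (k8 c704 c5891 c5979 c4338 c5056 c896 c888 c624 (k8 c633 c4290 c2046 c64 c4401 c490 c4371 c488 (k8 c5695 c4403 c4289 c4283 c4374 c4281 c4275 c4376 (k8 c4378 c4379 c4380 c5947 c4330 c4453 c5121 c2107 (k8 c5961 c567 c5965 c2930 c831 c5902 c593 c496 (k8 c1021 c5980 c857 c5124 c4353 c1667 c1118 c5074 k0)))))) (by decide +kernel)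
def c5982 : PP 8 4 T 0x2000080000000000040000005400001101080000000000000000000002 := rS 0x12a9e18fd7897c1a5d118c55853 (k8 c4290 c5979 c2046 c4372 c752 c4371 c488 c5695 (k4 c5981 c4477 c4532 c4381 (k1 c5945 k0))) (by decide +kernel)
def c5983 : PP 8 4 T 0x2000080000000000040000004400001101080000000000000000000002 := rS 0x61101784a11161b0694de34b334455905 (k8 c5891 c5979 c4338 c5056 c4458 c5695 c4290 c4371 (k8 c686 c720 c5982 c4321 c522 c4485 c4465 c2038 k0)) (by decide +kernel)
def c5984 : PP 8 4 T 0x2000080000000000040000004400000101080000000000000000000002 := rS 0x8b308eacc3f1f41eb9409bd78bb8c1cd328d47b148a1c5f90c149b2aacc5ca73c8691513362456211248344635238558e131daa5969d528c4a63316bc496c9334455905 (k8 c5891 c5979 c4338 c5056 c633 c4375 c5695 c4285 (k8 c942 c4290 c2046 c5936 c2953 c2027 c948 c4403 (k8 c4401 c4289 c4283 c4374 c4373 c4372 c4371 c4281 (k8 c4275 c624 c888 c5983 c4341 c945 c5814 c601 (k8 c904 c4469 c2705 c429 c5870 c5871 c1952 c4566 (k8 c567 c439 c4530 c760 c1027 c1032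 c1770 c4149 (k8 c4449 c2126 c1080 c1899 c1208 c305 c1773 c2107 (k4 c725 c595 c2068 c4481 (k1 c4362 k0))))))))) (by decide +kernel)
def c5985 : PP 8 4 T 0x100000002000080000000020040000004400001002080000000000000200000002 := rS 0x2ed7b1467a0562c53bc5ce26f609f91eb20325c3a0d1ad2ccd117e8acf685 (k8 c712 c704 c5927 c4301 c4338 c5056 c4458 c4373 (k8 c4371 c11 c2930 c831 c5916 c5896 c5978 c1987 (k8 c1019 c496 c4357 c1192 c1250 c625 c1462 c1521 (k4 c4480 c4354 c4390 c5956 k0)))) (by decide +kernel)
def c5986 : PP 8 4 T 0x1000000000002000080500400020000000005410000002001000000000000024004840 := rS 0x1195d9e136160cc217a4fa2b314c81501f82249268348e4b0ab1c27117ea5452991894d210d468d51e23 (k8 c4372 c760 c4373 c1027 c4325 c4486 c4290 c2046 (k8 c1032 c4402 c762 c4301 c4338 c4401 c4289 c4283 (k8 c4375 c4374 c4371 c4282 c4281 c4275 c2107 c673 (k8 c1462 c900 c901 c4453 c1479 c5775 c4484 c4436 (k4 c2108 c5932 c572 c1978 (k2 c4447 c4493 k0)))))) (by decide +kernel)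
def c5987 : PP 8 4 T 0x100000002000080000000020040000004400001002080000000000000000000002 := rS 0x71f4e0bf484556b164b954149346a3c380710a1436231a8ed969d6499a230d (k8 c4325 c4338 c5056 c633 c2953 c2027 c4403 c4373 (k8 c4372 c686 c712 c5985 c495 c5925 c760 c1027 (k8 c1029 c759 c5961 c5270 c4809 c4419 c4963 c4486 (k4 c1244 c889 c1419 c5986 (k1 c5657 k0))))) (by decide +kernel)
def c5988 : PP 8 4 T 0x2000080000000000040000004400000100080000000000000000000002 := rS 0x334f80f05154fe1a44a86266c869819266188ce22af56044920d238545ac72984de305 (k8 c5891 c5695 c4401 c4290 c4289 c4285 c4283 c4374 (k8 c4371 c4281 c4275 c5979 c163 c4338 c942 c2046 (k8 c5056 c633 c5984 c4325 c5987 c4341 c2906 c681 (k8 c5814 c673 c429 c5871 c5657 c2107 c1358 c5223 k0)))) (by decide +kernel)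
def c5989 : PP 8 4 T 0x1000000000000000100800101001505414000000000140000000080000000 := rS 0x11b1547af136bf8c1061abb (k8 c1979 c4330 c1103 c4472 c4369 c4448 c2122 c852 (k2 c4354 c1119 (k1 c4486 k0))) (by decide +kernel)
def c5990 : PP 8 4 T 0x2000080000014000000010200000000000000000001000000100000000 := rS 0xb51b8e49235238fd8e3b (k8 c4403 c4289 c4287 c4374 c4373 c4281 c4279 c1384 (k2 c1388 c2113 k0)) (by decide +kernel)
def c5991 : PP 8 4 T 0x1000000000000000100801101001505414000040000040000000080000002 := rS 0x45 (k2 c5776 c5989 k0) (by decide +kernel)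
def c5992 : PP 8 4 T 0x2000002000080000004000840000001400000180040000000001000010000002 := rS 0x16837479117b193d105328d5caecee923c9c47a434ba44b01e4e95c72492392c7ec728bc443114aac4de81 (k8 c4380 c4378 c4303 c856 c4333 c830 c5695 c4405 (k8 c4289 c4287 c4375 c4374 c4281 c4279 c750 c4733 (k8 c4466 c4476 c4550 c1193 c276 c275 c2639 c2640 (k8 c657 c1112 c1979 c5821 c5990 c2011 c1103 c5991 (k4 c4365 c1172 c4472 c853 (k2 c443 c4034 (k1 c1659 k0))))))) (by decide +kernel)
def c5993 : PP 8 4 T 0x102000002000080000000000040000001400001181040000000001000000000002 := rS 0x2d06e7204158b21c5bc354c813e9bc1e39248d48e3f638ede20510c44eaa1 (k8 c896 c592 c4333 c830 c2 c5695 c4403 c4289 (k8 c4287 c4374 c4373 c4281 c4279 c4376 c4378 c4379 (k8 c4380 c5947 c4330 c5964 c5992 c1026 c4476 c751 (k4 c921 c232 c4559 c1618 k0)))) (by decide +kernel)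
def c5994 : PP 8 4 T 0x100000002000080000000000040000001400001181040000000001000000000002 := rS 0x2553c31faf12f834ba23 (k8 c4372 c752 c4371 c488 c5695 c5993 c4477 c4532 (k2 c4381 c5945 k0)) (by decide +kernel)
def c5995 : PP 8 4 T 0x2000010014000000000008000000000000000000150002000100000000 := rS 0x9b1f94c7651 (k4 c4405 c4403 c4290 c4287 (k2 c1966 c4188 k0)) (by decide +kernel)
def c5996 : PP 8 4 T 0x2000002000080000000010000000001400001180040000000002000010000002 := rS 0xd49a2790986c5492c8f27b2c078829d2b8843713228bda2af (k8 c984 c301 c16 c5793 c4441 c5876 c830 c750 (k8 c4733 c1913 c4466 c4476 c4055 c2640 c656 c657 (k4 c1250 c1128 c5995 c2209 (k2 c277 c5968 (k1 c1968 k0))))) (by decide +kernel)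
def c5997 : PP 8 4 T 0x102000002000080000000010040000001400001180040000000002000000000002 := rS 0xb75a8dce4082b258b2930e1f4de0f1c9246a471fb1c7605889d52b17 (k8 c5282 c856 c592 c4333 c2 c4403 c4289 c4287 (k8 c4374 c4373 c4281 c4279 c4376 c4378 c4379 c5996 (k8 c1029 c1026 c4487 c4476 c751 c921 c232 c1618 (k2 c1166 c4559 k0)))) (by decide +kernel)
def c5998 : PP 8 4 T 0x2000080000000010040000005400001181000000000000000010000002 := rS 0xa835afd029a5b1f884b561ae58a92591e46e3d4b9ecb01e20a74ae39248d48e3f638ec43114ac4d4e4d228bda2af12a7d4b0c7e8c0b7052f834ba23 (k8 c4372 c752 c4371 c488 c5891 c5988 c5994 c5997 (k8 c4477 c4385 c4384 c4381 c984 c301 c16 c5793 (k8 c4282 c2006 c4441 c856 c4333 c830 c4403 c4289 (k8 c4287 c4374 c4373 c4281 c4279 c750 c4733 c1913 (k8 c4466 c4476 c4055 c1193 c275 c272 c2640 c656 (k8 c657 c1250 c5821 c1128 c1658 c5995 c5283 c2113 (k4 c277 c1462 c3262 c1968 (k2 c2119 c867 k0)))))))) (by decide +kernel)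
def c5999 : PP 8 4 T 0x400000000002000088000000050444000000000000000000040000000000000000000 := rS 0xab (k2 c1676 c5591 k0) (by decide +kernel)
def c6000 : PP 8 4 T 0x2000080000000010040000005400001181000000000000000000000002 := rS 0x21065870844b299e4160a64e4081eb14ac962ca4c384f4f89618fd66b448aa7898bc60492691c963f6394c76510297c1a5d11c1622af3aa562e5b (k8 c5988 c5282 c856 c592 c984 c4333 c5891 c4372 (k8 c752 c4371 c488 c2 c4405 c4403 c4290 c4289 (k8 c4287 c4375 c4374 c4282 c4281 c5994 c16 c4441 (k8 c2006 c5793 c301 c5446 c5997 c4477 c4381 c4384 (k8 c298 c5998 c1029 c1026 c4487 c4476 c1253 c5240 (k8 c751 c921 c3051 c1620 c1912 c5999 c2116 c2024 (k4 c5740 c1088 c4436 c2115 (k1 c236 k0)))))))) (by decide +kernel)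
def c6001 : PP 8 4 T 0x801002000002000095000000000140000000000000100400000000004080004400000 := rS 0x954f0c4fd0d944f0789c924d0688c8e4b6394ca2ab (k8 c4445 c4405 c4290 c4289 c4375 c4374 c4372 c4371 (k8 c4282 c4281 c4277 c4376 c4501 c2116 c4425 c1668 (k4 c5588 c4330 c4381 c4502 k0))) (by decide +kernel)
def c6002 : PP 8 4 T 0x2000080000000010040000004400001181000000000000000000000002 := rS 0x1f81d43273293e2553c31facfa50a912d117aac62a90c336247d0ba96128450a2d92af139345ac7298a4a2f12f834ba238286cb633 (k8 c950 c5988 c5876 c5891 c4372 c752 c4371 c488 (k8 c5695 c4405 c4402 c4290 c4289 c4285 c4282 c4277 (k8 c984 c633 c721 c896 c6000 c4321 c1402 c522 (k8 c1502 c5976 c1482 c4465 c4345 c4441 c4445 c1870 (k8 c261 c2038 c2112 c4485 c4430 c6001 c4477 c4532 (k8 c4381 c4384 c4855 c4839 c4425 c258 c4483 c1455 k0)))))) (by decide +kernel)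
def c6003 : PP 8 4 T 0x2000080000000010040000005400001101000000000001000000000002 := rS 0xcda2a995e6b14bc466c9079f502fc86c40cf052f834ba23 (k8 c4372 c752 c4371 c488 c5891 c6002 c5056 c4962 (k8 c4477 c4380 c4379 c4376 c4305 c950 c5695 c4402 (k4 c493 c5815 c5947 c4453 (k2 c2066 c5951 k0)))) (by decide +kernel)
def c6004 : PP 8 4 T 0x10100001000000011000000040040001001405410055500580115402000080000000 := rS 0x472de2f15612f11ab5a1b057e7e8c31542435daa162c9379f502fc (k8 c4477 c4380 c4379 c4378 c4305 c4303 c299 c1440 (k8 c2209 c980 c4530 c4472 c4560 c4369 c4450 c4392 (k8 c1433 c1507 c2122 c2115 c4354 c4362 c1168 c4486 (k1 c4521 k0)))) (by decide +kernel)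
def c6005 : PP 8 4 T 0x10100000002000081000000054044001001405410055500000110002040080000000 := rS 0xa052aa28aca6793c4e491191c962d1fb1ca6291d945e31353935a23d (k8 c274 c300 c4282 c2006 c4441 c5695 c4405 c4403 (k8 c4402 c4290 c4289 c4287 c4285 c4375 c4374 c4372 (k8 c4281 c4277 c6004 c5999 c2116 c4455 c5517 c1940 (k2 c4576 c980 k0)))) (by decide +kernel)
def c6006 : PP 8 4 T 0x10002000002000082000000010041001001401411100000000010002000104000000 := rS 0xa5a2af177185fa6cd4a927b1de2b137a04f713 (k8 c4441 c4055 c4380 c4378 c4303 c5695 c4289 c1479 (k8 c1483 c5968 c1968 c4566 c5755 c4449 c2122 c4454 (k2 c1939 c5541 k0))) (by decide +kernel)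
def c6007 : PP 8 4 T 0x10100001000000011001000080040001001000000055500580115402000080000000 := rS 0x8aa3d1abc5bc5d7eb56550d851862a8086a8a2b24fafc (k8 c4477 c4379 c4305 c4396 c299 c2209 c5972 c4530 (k8 c4472 c2115 c4423 c981 c1707 c4369 c4362 c1168 (k4 c2028 c1507 c4521 c4354 (k1 c4486 k0)))) (by decide +kernel)
def c6008 : PP 8 4 T 0x100000002000080000000010040000001400001141040000000002000010000002 := rS 0x8aa3d1abc5bc5d7ec262ad551438c10d949b0b33cd44f60ab99a79389dc7a7b489603c414e95c9247258b47ec7298eca2f1318a4421b19a7d56fc86c40be0d2e88e26a7269145ed115814ca13 (k8 c4401 c490 c2 c4191 c300 c16 c5793 c4282 (k8 c2006 c4441 c4372 c752 c4371 c488 c5056 c4962 (k8 c4477 c4415 c4414 c950 c5876 c830 c4402 c754 (k8 c5695 c4405 c4403 c4290 c4289 c4287 c4285 c4375 (k8 c4374 c4281 c750 c4733 c1913 c4466 c4476 c4550 (k8 c4055 c274 c1112 c2431 c2433 c6006 c6005 c1715 (k8 c6007 c5968 c4579 c492 c1968 c2116 c1950 c5755 (k8 c4425 c1755 c3641 c4530 c2115 c4369 c4362 c1168 (k4 c2028 c1507 c4521 c4354 (k1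 c4486 k0)))))))))) (by decide +kernel)
def c6009 : PP 8 4 T 0x2000081000000050040000005400001101000080000000000000000002 := rS 0xbc8a1c522795fa74ef183510d76a8a2bc562c9079bcfa817e436205f069748a2f4788d1a353d90532082b1640a1c3396e0a30 (k8 c6003 c5891 c5988 c6002 c6008 c2 c1026 c4476 (k8 c751 c3051 c1912 c1227 c4373 c1027 c4372 c760 (k8 c16 c5793 c752 c4371 c488 c5056 c4962 c4477 (k8 c4380 c4379 c4378 c4376 c4305 c4303 c5695 c4396 (k8 c299 c1440 c2152 c5951 c4472 c1920 c4367 c4369 (k4 c4447 c978 c4135 c4486 (k2 c2122 c4354 k0))))))) (by decide +kernel)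
def c6010 : PP 8 4 T 0x2000081000000050040000005400001101000000000000000000000002 := rS 0x5029551456533c9e272488c8e4b16b1ca62928a7d570d8844d4e4d688c05667029942705 (k8 c5891 c4401 c490 c2 c6002 c4191 c6003 c300 (k8 c4282 c2006 c4441 c5056 c4962 c4415 c4414 c4405 (k8 c4402 c4290 c4289 c4285 c4375 c4374 c4372 c4281 (k8 c4277 c6009 c5999 c2116 c4455 c5517 c1940 c4576 (k1 c980 k0))))) (by decide +kernel)
def c6011 : PP 8 4 T 0x10002000002000082000000010040100001400001100000000100042000004000042 := rS 0x52d1578bb5fc618a430b1a89e39268d496c71dbc62641 (k8 c1912 c4441 c5695 c4403 c4289 c4375 c4373 c4282 (k8 c4279 c1479 c5968 c492 c1951 c4530 c4472 c1486 (k4 c4449 c2114 c4454 c1938 (k1 c5541 k0)))) (by decide +kernel)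
def c6012 : PP 8 4 T 0x10100001000000001000000080040000505404000055500080110002000004040200 := rS 0x178778a1c61091449e57e9d6546116a021aec32a8a2ac5926f3ea05f94b (k8 c4428 c4477 c4380 c4379 c4378 c4305 c4303 c4396 (k8 c299 c259 c1440 c2152 c5972 c5853 c4472 c981 (k8 c4367 c4369 c4447 c2024 c978 c4485 c4135 c4486 (k2 c4438 c2122 (k1 c4354 k0))))) (by decide +kernel)
def c6013 : PP 8 4 T 0x2000080000000010040000005400001101000000000000000000000002 := rS 0x1145e2457e9d8c2ee10a821b291616679a89ec15733482374c81cf6082b1652a8d47871a24553c4c5e301c9249a352392c5ac729945e203318a4365b198ac0a6509a7c1efc86c40cf052f834ba23 (k8 c4372 c752 c4371 c488 c5891 c6002 c5056 c4962 (k8 c4477 c4376 c4414 c4401 c490 c2 c4191 c950 (k8 c5988 c5876 c4402 c754 c1 c5695 c4405 c4290 (k8 c4289 c4285 c4375 c4374 c4373 c4282 c4281 c4279 (k8 c6003 c16 c4441 c2006 c5793 c300 c6008 c760 (k8 c1027 c762 c1026 c4476 c751 c1227 c1018 c3051 (k8 c232 c1912 c6011 c6010 c1714 c6012 c5968 c4579 (k8 c492 c564 c2116 c1951 c1755 c5537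 c1980 c4472 (k4 c5759 c4369 c978 c2114 (k2 c4486 c4354 k0)))))))))) (by decide +kernel)
def c6014 : PP 8 4 T 0x100001000000000001000054001144080000000004040400114401040012000002 := rS 0x45984b34d9ee30c5399d47a432c078ae21 (k8 c830 c750 c4466 c4476 c276 c274 c2432 c1110 (k8 c4530 c4472 c4365 c4448 c722 c4511 c4481 c4362 k0)) (by decide +kernel)
def c6015 : PP 8 4 T 0x2000080000000010040000004400001101000000000000000000000002 := rS 0x745b45d78c25f9cd8abb218dcf6085995936594a871828a20b419845448bd323157a749e18891ac2f4584a10fa0f64bf21aab49a5c5710338e49a35258b47e531d945e2052f834ba233284cc6298286cb633 (k8 c950 c5988 c5876 c5891 c4402 c754 c4401 c490 (k8 c4372 c752 c4371 c488 c2 c5695 c4405 c4403 (k8 c4290 c4287 c4285 c4375 c4373 c4282 c4279 c6002 (k8 c5056 c4191 c4335 c4413 c4415 c4962 c4477 c4305 (k8 c4376 c4379 c6013 c4321 c4397 c522 c2441 c5976 (k8 c4465 c4501 c4343 c4346 c4441 c4443 c1870 c2038 (k8 c5733 c5951 c2112 c5777 c2120 c1711 c6014 c762 (k8 c1026 c764 c4476 c5025 c751 c1227 c232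 c2153 (k8 c1442 c4530 c4549 c1486 c4553 c2114 c4362 c2069 (k2 c4481 c1744 k0)))))))))) (by decide +kernel)
def c6016 : PP 8 4 T 0x2000080000000000040000004400001101000000000000000000000002 := rS 0x184405e128b42198634b88ab01a5378c14365b (k8 c5988 c5876 c5891 c5695 c4290 c4371 c6015 c4338 (k8 c4458 c2046 c5056 c5994 c720 c4321 c522 c4485 (k2 c4465 c2038 k0))) (by decide +kernel)
def c6017 : PP 8 4 T 0x1000000000000000000000000000000002000040000000000000000000002 := rS 0x1192085c8a434e020661c2b0bcb21b (k8 c5876 c4993 c783 c4476 c750 c2957 c751 c960 (k4 c4674 c1220 c519 c1064 (k2 c4367 c4472 k0))) (by decide +kernel)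
def c6018 : PP 8 4 T 0x2000080000000000040000000000000082040000000000000010000002 := rS 0x16eb959230fe3d4b9603c571f8862295 (k8 c856 c4333 c830 c4287 c750 c4466 c4476 c1193 (k4 c275 c2654 c617 c656 (k2 c5821 c1164 (k1 c5990 k0)))) (by decide +kernel)
def c6019 : PP 8 4 T 0x2000080000000000040000000000000082040000000000000000000002 := rS 0x50ae120b72b258b2930e45d2a75888ec0a0b (k8 c566 c2 c4403 c4333 c592 c856 c5282 c6018 (k8 c1029 c1026 c4487 c4476 c1166 c880 c5630 c2903 (k1 c1206 k0))) (by decide +kernel)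
def c6020 : PP 8 4 T 0x100000002000080000000000000000004400000142040000000001000010000002 := rS 0x9b2093c8abd610602f0945224fb43592e22eb55b9bcee73031d5183d1b90d22580f15c2239248d48e4b1fb1c765d1198c421b7ec34d68f428ac0a65099fd5a934faae20af199b5e229 (k8 c4402 c5695 c6017 c950 c5815 c5056 c4415 c4414 (k8 c4413 c4338 c672 c4401 c490 c2 c4191 c712 (k8 c848 c620 c4325 c4301 c5876 c830 c754 c4372 (k8 c752 c4403 c4289 c4287 c4375 c4374 c4373 c4281 (k8 c4279 c4275 c750 c4466 c4476 c1153 c276 c273 (k8 c274 c617 c2600 c486 c1110 c1112 c1108 c1117 (k8 c1387 c5245 c2113 c4481 c4394 c1355 c4529 c2120 (k8 c4322 c524 c5853 c723 c4507 c1218 c259 c1872 (k2 c2058 c4218 k0))))))))) (by decide +kernel)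
def c6021 : PP 8 4 T 0x2000080000010054000000004400001142008080010000000004000402 := rS 0xb73ab25108b218647ef13284cc62935a14dc08 (k8 c751 c881 c712 c620 c4402 c754 c4401 c490 (k8 c5695 c4287 c259 c2152 c5853 c2120 c636 c5917 (k2 c1078 c5630 k0))) (by decide +kernel)
def c6022 : PP 8 4 T 0x1000000080000100000000000000000000000000040150040000000000000 := rS 0x2ed7f181c9346a4b (k8 c4375 c4373 c4282 c4279 c4472 c4369 c4449 c2114 k0) (by decide +kernel)
def c6023 : PP 8 4 T 0x2000000000000054000400000000000000000000080005040000000200 := rS 0x5ed11694c5251 (k4 c4405 c4402 c4290 c4285 (k2 c2153 c1952 (k1 c2112 k0))) (by decide +kernel)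
def c6024 : PP 8 4 T 0x2000080000010054000000004400001142008000150000000004000402 := rS 0x4f788dd7a6e (k4 c881 c1080 c1344 c5695 (k2 c6021 c6022 k0)) (by decide +kernel)
def c6025 : PP 8 4 T 0x2000080000000054000154004400001142008000140000000004000402 := rS 0x1d56e886122cf2c10ca7480c51d945e2650998c526b4d8200e035e9b97290 (k8 c880 c1205 c881 c1080 c1 c1018 c751 c2887 (k8 c620 c4402 c754 c4401 c490 c5695 c4405 c4403 (k8 c4530 c6024 c3058 c1873 c1852 c1847 c5853 c2127 (k4 c2120 c1167 c596 c5630 k0)))) (by decide +kernel)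
def c6026 : PP 8 4 T 0x100000002000080000000000000000004400000142040000000001000000000002 := rS 0x2dceac94422c32412210d72903d820dc9b2b264b2950e2bc7e631482c363336bc4d62b02994269756a4d5710 (k8 c5056 c4415 c4413 c4338 c4335 c4401 c490 c2 (k8 c4191 c620 c5695 c6017 c950 c5876 c566 c4402 (k8 c754 c4287 c5815 c6020 c762 c1026 c1032 c4476 (k8 c2887 c881 c751 c1227 c880 c1205 c6023 c6025 (k8 c23 c257 c5853 c2120 c636 c5917 c1078 c5630 k0))))) (by decide +kernel)
def c6027 : PP 8 4 T 0x2000080000000000040000004400000100000000000000000000000002 := rS 0x5544b20fb434086516cc67b2e104f0bb454f13182ad3e7f15c40cea935c35fa60199b4365b249344647258545ac7298a4a2f1029942705 (k8 c5891 c4401 c490 c2 c5695 c4405 c4402 c4290 (k8 c4289 c4285 c4283 c4375 c4374 c4372 c4282 c4281 (k8 c5988 c5876 c6017 c950 c6016 c4301 c4325 c620 (k8 c977 c6019 c5056 c4191 c672 c4414 c4415 c6026 (k8 c4441 c2006 c300 c1910 c299 c4479 c5517 c4579 (k8 c2116 c4322 c4436 c4439 c4395 c1357 c4483 c4529 (k2 c1726 c2109 k0))))))) (by decide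 +kernel)
def c6028 : PP 8 4 T 0x20100000002000080000000100040000000800000000080000000001000010000002 := rS 0x18a455e1c22a415b1bd867768b047ab9598dc86975ab3d9488042543c7e058e49235238fd8e532898c52857e8953ec9334440e2115194263b (k8 c4403 c4401 c490 c5243 c5902 c495 c4962 c5056 (k8 c633 c4384 c4381 c4306 c128 c4402 c754 c4405 (k8 c4290 c4289 c4287 c4374 c4373 c4281 c4279 c567 (k8 c5943 c4466 c5290 c4462 c676 c677 c1521 c4984 (k8 c1193 c276 c272 c665 c5821 c275 c1985 c1750 (k8 c3928 c2029 c1459 c2113 c1063 c4353 c4480 c589 (k2 c1169 c1176 (k1 c2115 k0)))))))) (by decide +kernel)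
def c6029 : PP 8 4 T 0x1000000000000000002000000000000000000000000000005000400000000 := rS 0x5f13 (k2 c4345 c786 (k1 c4469 k0)) (by decide +kernel)
def c6030 : PP 8 4 T 0x1000000000000040101501501500800000000000000150000000005000800 := rS 0x1be2a715e1dcf2bf844602efd (k8 c4306 c573 c4472 c4465 c4369 c4447 c4438 c2126 (k4 c588 c4354 c1079 c4480 k0)) (by decide +kernel)
def c6031 : PP 8 4 T 0x900000000000000000011000014001554000000000000000000000000000000000000 := rS 0xc3 (k2 c4958 c4553 k0) (by decide +kernel)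
def c6032 : PP 8 4 T 0x1100000000002000080111000114001514000800004000081000000000000000000800 := rS 0x7d3f9d12d128c9e0e00f089241a470ab1c26fd (k8 c4306 c4401 c4289 c4283 c4374 c4371 c4281 c4275 (k8 c305 c4480 c588 c4447 c4488 c6031 c929 c2577 (k2 c1691 c2107 k0))) (by decide +kernel)
def c6033 : PP 8 4 T 0x1000000000000000000000000000000800000000000000000000005000100 := rS 0x2f09 (k2 c4438 c1833 (k1 c4465 k0)) (by decide +kernel)
def c6034 : PP 8 4 T 0x100000000002000080100040115501101100800000000081000040000000020000000 := rS 0xdf155e3057e4062a6c6a514788d2a29498ec14453b824ae192686c22f1 (k8 c5695 c4275 c638 c4282 c1998 c38 c1057 c6033 (k8 c1219 c759 c4403 c1029 c4402 c762 c4372 c760 (k8 c4405 c4373 c765 c4530 c6030 c1053 c1852 c2126 (k2 c4354 c1079 (k1 c6032 k0))))) (by decide +kernel)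
def c6035 : PP 8 4 T 0x2000000000000010000080044000000000081000080000000005400000 := rS 0x89689d18a15099458653 (k8 c4290 c2054 c4405 c4401 c4283 c1253 c929 c341 (k2 c597 c2109 k0)) (by decide +kernel)
def c6036 : PP 8 4 T 0x100000000002000080100040115555101104800000000081000000000000020000040 := rS 0x37c556c973885d7a42118edfa8b0c93436117884d2a29 (k8 c4402 c762 c4401 c5695 c4275 c638 c4282 c1998 (k8 c5853 c4306 c4403 c4372 c6034 c2014 c1951 c589 (k4 c6035 c5944 c4353 c1078 (k1 c4480 k0)))) (by decide +kernel)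
def c6037 : PP 8 4 T 0x2000080100000000000000000040204000001000000000000000000800 := rS 0x7d07844920d238558e13 (k8 c4401 c4289 c4283 c4374 c4371 c4281 c4275 c305 (k2 c1691 c2107 k0)) (by decide +kernel)
def c6038 : PP 8 4 T 0x1000000000000140101501101500800000000000000040010000025000800 := rS 0x5f1013645 (k4 c1219 c765 c6030 c2126 (k1 c1053 k0)) (by decide +kernel)
def c6039 : PP 8 4 T 0x20100000002000080000000100541000004800000000080000000005000000000002 := rS 0x44b442ec3212f4dcc53a2596e7f65ab0eea904a64aa0a4aa3c38ab118d42a5314945fa8b0c934361178a45428d4faed92668895c0e2115194263b (k8 c4403 c4401 c490 c5243 c5902 c495 c38 c4962 (k8 c5056 c633 c4847 c4384 c4383 c4329 c4327 c5695 (k8 c4275 c638 c4282 c1998 c5853 c4306 c4405 c4402 (k8 c4290 c4283 c4373 c4372 c5962 c6028 c760 c762 (k8 c759 c5961 c1032 c1057 c6029 c6033 c6036 c2027 (k8 c677 c5279 c5944 c929 c1252 c6037 c1079 c6038 (k4 c2054 c1951 c341 c597 (k1 c2109 k0)))))))) (by decide +kernel)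
def c6040 : PP 8 4 T 0x100000002000080000000000440000004800000001080000000000000000000002 := rS 0xb0b1a9107e3ed0d94cf27b455b131827562492691c96c729945e2a5198953e2115194263b579b59ac93344618fd2f834ba23 (k8 c4372 c752 c4371 c488 c4306 c4477 c4962 c5056 (k8 c633 c2065 c640 c984 c4403 c4401 c490 c5243 (k8 c5902 c4384 c4381 c950 c1937 c5695 c4405 c4290 (k8 c4289 c4375 c4374 c4282 c4281 c624 c968 c6039 (k8 c4441 c2046 c301 c298 c5999 c2116 c4425 c1628 (k4 c4483 c676 c5289 c492 (k2 c2540 c5847 k0))))))) (by decide +kernel)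
def c6041 : PP 8 4 T 0x100000000002000080000000044444000000800000080040000040000001110000002 := rS 0x13240892b5a2c522d2d86ca3da216c7e60ad57292590187a374b9603c571c9246a471fb1ca63b28b359295 (k8 c856 c633 c2065 c4405 c4403 c4290 c4289 c4287 (k8 c4374 c4373 c4281 c4279 c750 c4466 c4476 c1193 (k8 c272 c275 c486 c656 c657 c5821 c1658 c1660 (k8 c5283 c2113 c676 c2659 c677 c1168 c4457 c1217 (k4 c1250 c1750 c2026 c4491 (k2 c2115 c4443 (k1 c1103 k0))))))) (by decide +kernel)
def c6042 : PP 8 4 T 0x20000001000000000000100001401500000800000000048000140000000000000002 := rS 0x8c9057c77 (k4 c2002 c5724 c5810 c4369 (k1 c4472 k0)) (by decide +kernel)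
def c6043 : PP 8 4 T 0x2000080000014000000000000000090000000000001000000000000200 := rS 0xb51b8e49235238fd8e3b (k8 c4403 c4289 c4287 c4374 c4373 c4281 c4279 c233 (k2 c1619 c2113 k0)) (by decide +kernel)
def c6044 : PP 8 4 T 0x20000000002000080000004001401100000800080000040000041000000020000002 := rS 0x83193c1c172bc22bc4169b04158b205 (k8 c2 c1026 c4476 c751 c765 c566 c5695 c1219 (k4 c6042 c3086 c6043 c588 (k2 c4447 c1847 (k1 c4472 k0)))) (by decide +kernel)
def c6045 : PP 8 4 T 0x20100000002000080000000040440000004800000000040000000005000000000002 := rS 0x52910c53f2e0e2c35ec6538c1392cc103d5b9592c992ca4c38a921aac465178814c6290c9344a9f108a8ca131db3592754ac5ccd11 (k8 c4962 c5056 c5282 c856 c592 c633 c2065 c4403 (k8 c4401 c490 c5243 c5902 c4384 c4381 c4282 c1998 (k8 c4402 c754 c2 c5695 c4405 c4372 c5962 c5782 (k8 c6029 c6041 c1029 c1026 c1032 c4487 c4476 c1166 (k8 c5240 c751 c1188 c921 c1620 c6044 c4367 c1174 (k8 c1214 c589 c6043 c5280 c1255 c676 c4494 c4457 k0)))))) (by decide +kernel)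
def c6046 : PP 8 4 T 0x2000010000000008000400000000000080040000110000000110000002 := rS 0xc34910d2ec52c0793a571f94c7651 (k8 c4405 c4403 c4290 c4287 c750 c4733 c4466 c4476 (k4 c1675 c1193 c277 c657 (k2 c1947 c4188 k0))) (by decide +kernel)
def c6047 : PP 8 4 T 0x2000080000000000040000004000000101000000000000000000000002 := rS 0x18243598207ac32b3152c992ca4c389b20aa8ef4b441f8fb436533c9ed122ab6262f1845d2a752db3592af1099855114f89466a7861b49247258fd8e531d9440a5f0697446650998c53057e865044d (k8 c4282 c6027 c1998 c4306 c5891 c4402 c754 c4401 (k8 c490 c4372 c752 c4371 c488 c2 c4405 c4403 (k8 c4290 c4289 c4287 c4375 c4374 c4281 c640 c4477 (k8 c4532 c950 c4381 c4384 c4962 c5243 c5056 c5902 (k8 c984 c633 c2065 c6040 c592 c856 c5282 c6045 (k8 c16 c4441 c2046 c5793 c301 c298 c5999 c2116 (k8 c4425 c1628 c4483 c676 c4457 c3928 c4491 c5762 (k8 c3881 c6046 c1029 c1026 c1031 c4487 c1674 c4476 (k4 c1946 c5240 c751 c1188 (k2 c236 c1985 (k1 c2115 k0))))))))))) (by decide +kernel)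
def c6048 : PP 8 4 T 0x100000002000080000000000040000000800000082080000000005000010000002 := rS 0x11961a697a2e60c51a34b56b162eb16522140b203334fc20649245a537e9ec56af14aade251 (k8 c4405 c5695 c5962 c4402 c5815 c5927 c2626 c4306 (k8 c4290 c4285 c4281 c633 c5925 c5978 c2065 c831 (k8 c5916 c673 c676 c677 c2656 c4357 c1250 c901 (k8 c4457 c1750 c5772 c5957 c2112 c4354 c836 c2028 (k2 c4448 c4494 k0))))) (by decide +kernel)
def c6049 : PP 8 4 T 0x101000002000080000000410800000020040000002080000001001000110000002 := rS 0x955c9d5788c3ca6142c96697c1a6314c34d60b65a443c39 (k8 c4279 c4466 c1153 c2025 c567 c493 c4325 c4402 (k8 c754 c4371 c488 c2066 c637 c5930 c5918 c1928 (k4 c2011 c2010 c596 c1208 (k2 c5073 c5960 k0)))) (by decide +kernel)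
def c6050 : PP 8 4 T 0x2000080000000000040000004000001100080000000001000010000002 := rS 0x8d8aad972953a905331253a3d623d21a44101e03a204293569fd671033aad5ea9198e47e513298c52fda2a2c324d0d845e213868acc105529ad040b (k8 c567 c6027 c493 c1936 c5891 c6047 c5927 c4325 (k8 c4401 c5695 c4275 c638 c4282 c1998 c5853 c4452 (k8 c4306 c4402 c754 c490 c4405 c4287 c4279 c950 (k8 c976 c5815 c5962 c6048 c5056 c664 c672 c4338 (k8 c4413 c5916 c2120 c495 c4466 c4462 c1153 c276 (k8 c274 c1145 c849 c6049 c4490 c4443 c1103 c5917 (k4 c5073 c5280 c5803 c4353 (k2 c1117 c4486 k0)))))))) (by decide +kernel)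
def c6051 : PP 8 4 T 0x2000080000000000040000004000000100080000000001000010000002 := rS 0x81661f338c8ff09363c5fa1b088649a7b410acc105 (k8 c5891 c6047 c5927 c6027 c2626 c4282 c1998 c4275 (k8 c638 c4306 c5695 c6050 c4317 c2658 c5889 c5978 (k4 c5697 c664 c4466 c5916 k0))) (by decide +kernel)
def c6052 : PP 8 4 T 0x100000002000080000000004041100000800000082080000000000000020000002 := rS 0x158a089314fd19219f4f0bc4d9c1211560ad62c97669559311249341a470ab1c26f1468d52a29498ec8a1b0883c150d5dac51e23 (k8 c4372 c760 c625 c1977 c4325 c759 c5657 c4275 (k8 c638 c438 c4403 c1029 c4402 c762 c4373 c1027 (k8 c5695 c4401 c4289 c4283 c4374 c4371 c4282 c4281 (k8 c4333 c633 c5961 c2065 c5270 c4487 c4419 c4420 (k8 c4963 c4486 c889 c893 c589 c588 c1419 c2014 (k4 c4447 c2107 c4530 c4488 (k2 c673 c6031 (k1 c901 k0)))))))) (by decide +kernel)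
def c6053 : PP 8 4 T 0x100000002000080000040055101140020000400002080000140000000020000000 := rS 0xbd48afd4eb738b30e8c839c5d84c54dbc51e23468d5263b60acd2a29 (k8 c4402 c762 c665 c1985 c4403 c1029 c4373 c1027 (k8 c4372 c760 c5695 c765 c4530 c2127 c4362 c1087 (k8 c5921 c4481 c637 c2566 c1745 c2066 c1486 c889 (k2 c2069 c2126 k0)))) (by decide +kernel)
def c6054 : PP 8 4 T 0x2000080000000000040000004000000100080000000001000000000002 := rS 0x190721e2822eb51bade28b9489d4e2c35e909109f569fd2f1033a75767754aad5e6d22acd62094c8cc14934aa351e1c529ac7249118d48e3f6394c76513298c53057ea2c324d0da0822f109c34c057 (k8 c38 c6047 c4325 c4401 c5695 c4275 c6027 c638 (k8 c4282 c1998 c5853 c4306 c5891 c4402 c754 c490 (k8 c4405 c4403 c4290 c4289 c4287 c4374 c4373 c4372 (k8 c4281 c4279 c493 c1936 c6051 c760 c1027 c762 (k8 c1029 c759 c2958 c1032 c1057 c625 c665 c438 (k8 c5814 c5815 c5962 c6029 c6033 c1977 c968 c6052 (k8 c5056 c928 c672 c4338 c4414 c2120 c6053 c2014 (k8 c2054 c589 c597 c889 c5280 c4486 c4353 c4386 (k4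 c4389 c4963 c5931 c2113 (k2 c4481 c5930 (k1 c3658 k0))))))))))) (by decide +kernel)
def c6055 : PP 8 4 T 0x2000080000000000040000004000000100080000000000000000000002 := rS 0x1082c2c6a522a4daa7898cc60f1a286c2219411361a60 (k8 c6047 c4325 c4282 c6027 c1998 c4275 c638 c4452 (k8 c5695 c6054 c62 c4441 c2006 c5889 c976 c4490 (k4 c1936 c492 c2540 c5752 (k1 c5847 k0)))) (by decide +kernel)
def c6056 : PP 8 4 T 0x1000000000000000000000002000080000000010144004020000000002040000040000040010000002 := rS 0x1324022c489e7b662f590b85aadd18b01b8f4b01e4e95c72491a91c7ec71dbc61a2147b2cfe67 (k8 c6019 c672 c2025 c848 c830 c4325 c5695 c4403 (k8 c4289 c4287 c4374 c4373 c4281 c4279 c750 c4733 (k8 c4466 c4476 c274 c273 c616 c617 c1117 c1387 (k8 c2113 c1204 c1208 c637 c2619 c1479 c5541 c5776 (k2 c6022 c4443 (k1 c1103 k0)))))) (by decide +kernel)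
def c6057 : PP 8 4 T 0x1000000000000000000000000020000200000000000044000000000000200 := rS 0x1dc8073 (k4 c46 c5917 c2043 c1063 k0) (by decide +kernel)
def c6058 : PP 8 4 T 0x2000080000000000040000004000000100000000000001000000000002 := rS 0x1148318279dd7acc61afd90b63aae62abb1bac520083715932590e32d10a55790cd6391a92c7ec72e88cc62940bf68a8b0c93436117882c666d410ac0a65099fd2ead49a7d57103396cc105 (k8 c5891 c6047 c6055 c6019 c5056 c4415 c4414 c4413 (k8 c4338 c4335 c672 c4401 c490 c2 c4191 c6027 (k8 c5832 c950 c566 c5695 c4275 c638 c4282 c1998 (k8 c5853 c4452 c4306 c50 c4402 c754 c4372 c752 (k8 c4289 c4287 c4375 c4373 c4279 c493 c5782 c5815 (k8 c5936 c2120 c2025 c6056 c1026 c1032 c4476 c881 (k8 c751 c880 c1148 c1344 c1349 c4351 c1205 c6057 (k8 c5630 c5279 c1247 c3078 c637 c2068 c2042 c1479 (k4 c4493 c5810 c4363 c2114 k0))))))))) (by decide +kernel)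
def c6059 : PP 8 4 T 0x1000000080000000000200400400000000000000040110000000080000000 := rS 0xbd1b90d2239 (k4 c4279 c1153 c277 c273 (k2 c1939 c6022 k0)) (by decide +kernel)
def c6060 : PP 8 4 T 0x2000080000000000040000004000000100000000000000000000000002 := rS 0x218dd7abf5d820dc994695838590f904ee9b5213c8aa7898bc60a9479b4420b2dc34c019a2a080a39268d496f1 (k8 c5695 c4375 c4373 c4282 c4279 c2 c6027 c4452 (k8 c1998 c6047 c4325 c6055 c566 c830 c5832 c848 (k8 c976 c6058 c16 c4441 c2006 c5793 c299 c4490 (k8 c3879 c3848 c5762 c6059 c487 c4466 c4476 c1027 (k8 c1031 c881 c751 c4642 c1403 c1938 c1344 c236 (k1 c2114 k0)))))) (by decide +kernel)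
def c6061 : PP 8 4 T 0x102000002000080000004000000000000000000008080000000000000000000200 := rS 0x2d4ea721c9246a471fb1c7657379f46e0f (k8 c4376 c232 c4379 c4378 c38 c4403 c4289 c4287 (k8 c4374 c4373 c4281 c4279 c843 c1689 c1618 c4559 k0)) (by decide +kernel)
def c6062 : PP 8 4 T 0x2000002000080000000000040000000000000020000000000000040000000000 := rS 0x2a9fc22490691c2ac709b241e7d (k8 c4379 c4376 c4305 c4401 c4289 c4283 c4374 c4371 (k4 c4281 c4275 c555 c1646 (k1 c2107 k0))) (by decide +kernel)
def c6063 : PP 8 4 T 0x100102000002000080000000000040000400000000000080000000000000200000001 := rS 0x16c9431194560801014ce59 (k8 c64 c5084 c311 c4461 c839 c2143 c6062 c4478 (k2 c842 c6061 (k1 c1747 k0))) (by decide +kernel)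
def c6064 : PP 8 4 T 0x110102000002000080000000000040000400000000000080000000000000000000001 := rS 0xb95b9c9283d310ad6a654fd0cfc55050dc081e01884fa6f07b242239248346a470a8fd8e131d8756667 (k8 c5084 c664 c758 c4403 c4401 c4289 c4287 c4283 (k8 c4374 c4373 c4371 c4281 c4279 c4275 c4305 c4376 (k8 c4378 c4379 c6063 c838 c4466 c4461 c273 c574 (k8 c2200 c2107 c4392 c1394 c555 c1434 c5588 c4478 (k4 c274 c842 c843 c1747 (k2 c1085 c2113 k0)))))) (by decide +kernel)
def c6065 : PP 8 4 T 0x100000002000080000000000000000400010004008080000000040000000000200 := rS 0xb55b9d4e4941c9246a471fb1c7657 (k8 c38 c4403 c4289 c4287 c4374 c4373 c4281 c4279 (k4 c842 c843 c1689 c1747 (k2 c1618 c4559 k0))) (by decide +kernel)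
def c6066 : PP 8 4 T 0x100100000002000080100000000040000600010004000080000000000000200004001 := rS 0x154fe64318ac6e08128080a11248348e156384cce59 (k8 c64 c5084 c4401 c4289 c4283 c4374 c4371 c4281 (k8 c4275 c311 c4461 c224 c839 c1383 c2143 c6065 (k4 c4478 c555 c1646 c2107 k0))) (by decide +kernel)
def c6067 : PP 8 4 T 0x110100000002000080000100000840000000400000000080000000000000000000001 := rS 0x2e56f1739250c4b532d0cfc55050103c03109f41f1537b24e08c2f3f51e5d089241a470ab1c26612b8756667 (k8 c5084 c664 c758 c38 c5402 c4401 c4289 c4283 (k8 c4374 c4371 c4281 c4275 c813 c853 c6064 c4477 (k8 c577 c576 c2554 c1378 c4387 c3369 c3370 c6066 (k8 c838 c4466 c4461 c574 c2200 c2107 c4392 c555 (k8 c1434 c4478 c842 c843 c4418 c1747 c1085 c4492 k0))))) (by decide +kernel)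
def c6068 : PP 8 4 T 0x110102000002000080000100041140100004400001100080000040000000001000000 := rS 0x1a0cd61a2c7ab6310ac82cf501953f430f1f808c162914aa8901c6034bb0bd1612845f97e2a8e409f4ba0f64844920d238547ec72984c76517899cc2593da9c026b (k8 c581 c6060 c6067 c704 c64 c5402 c5084 c5695 (k8 c4405 c4403 c4401 c4290 c4289 c4287 c4283 c4374 (k8 c4371 c4281 c4275 c4305 c4376 c4377 c4379 c4380 (k8 c6064 c4388 c1426 c1515 c2119 c4321 c4397 c522 (k8 c1442 c4465 c4493 c423 c678 c429 c4363 c4370 (k8 c4450 c4461 c2107 c575 c4392 c1394 c555 c5121 (k8 c1522 c1103 c5588 c4478 c851 c274 c1768 c1167 (k2 c1482 c2115 (k1 c5846 k0))))))))) (by decide +kernel)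
def c6069 : PP 8 4 T 0x110101000002000080000004000040000000000000008080000000000000200000001 := rS 0x79f4de8c2f1751e1f13984ae2b64a7ce494 (k8 c842 c843 c3562 c3659 c3561 c38 c5402 c4277 (k8 c57 c5093 c840 c4477 c577 c1378 c1379 c5471 (k1 c6066 k0))) (by decide +kernel)
def c6070 : PP 8 4 T 0x10001000002000080000004000000000400000000009080000000000000080000000 := rS 0xb95a9c1185e1b97472491a91c7ec71d9d4ae9f1e8ace494 (k8 c842 c843 c3561 c274 c3562 c38 c1689 c4403 (k8 c4289 c4287 c4374 c4373 c4281 c4279 c840 c273 (k4 c4477 c577 c576 c1387 (k2 c1474 c2113 k0)))) (by decide +kernel)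
def c6071 : PP 8 4 T 0x110101000002000080000004000040000000000000008080000000000000000000001 := rS 0x242e284be8e050103c03108444e491191c5ac714984b21d15a7ce494 (k8 c842 c843 c3562 c3561 c758 c64 c5402 c4402 (k8 c4289 c4285 c4374 c4372 c4281 c4277 c4275 c6069 (k8 c838 c4466 c4461 c574 c6070 c1426 c851 c4477 (k2 c2110 c5618 k0)))) (by decide +kernel)
def c6072 : PP 8 4 T 0x110101000002000080000000000040000000000000008080000000000000000000001 := rS 0x17cba8e3f2d992724a1656261 (k8 c5402 c624 c64 c842 c843 c3659 c6071 c5279 (k4 c1747 c1457 c1426 c4477 k0)) (by decide +kernel)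
def c6073 : PP 8 4 T 0x2000080000000000000000000050000000881000000000000000000000 := rS 0x3d927046044920d238558e13 (k8 c4401 c4289 c4283 c4374 c4371 c4281 c4275 c577 (k4 c576 c2554 c3369 c2107 k0)) (by decide +kernel)
def c6074 : PP 8 4 T 0x110101000002000080000000000040000000000000000080000000000000000000001 := rS 0x40700d922aa10953e8e37170bea13e954e8923f990c611139241a23238545ac7098a4ce61 (k8 c5402 c5084 c4402 c4401 c4289 c4285 c4283 c4374 (k8 c4372 c4371 c4281 c4277 c4275 c6072 c4478 c555 (k8 c579 c578 c3595 c3596 c3667 c6073 c4477 c841 (k8 c840 c1339 c3331 c4489 c2110 c4422 c226 c2107 (k2 c4461 c264 k0))))) (by decide +kernel)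
def c6075 : PP 8 4 T 0x110100000002000080000100055140000004400001100080000040004000001000000 := rS 0x19f134c29df801 (k4 c6060 c6074 c6067 c6068 (k2 c4443 c5286 (k1 c5712 k0))) (by decide +kernel)
def c6076 : PP 8 4 T 0x110102000002000080000004000040000800000000008080000000000000000000040 := rS 0xaa7f050794209089241a470ab1c26c90797cb29f3e8ace494 (k8 c842 c843 c3561 c4379 c1610 c64 c1426 c4376 (k8 c4305 c4401 c4289 c4283 c4374 c4371 c4281 c4275 (k4 c6061 c851 c5093 c4462 (k2 c5121 c2200 (k1 c2107 k0))))) (by decide +kernel)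
def c6077 : PP 8 4 T 0x1000000000000000000000002000000011008054800000800000000000080001140005040000000001 := rS 0x104003200b9a2c34d3345a3f298a476512cd0c7acf (k8 c1796 c1742 c4424 c64 c4405 c4403 c4402 c4290 (k8 c4287 c4285 c2066 c852 c1168 c5846 c2112 c2115 (k4 c2835 c1849 c4461 c311 k0))) (by decide +kernel)
def c6078 : PP 8 4 T 0x110100000002000080000000010040000004400001108080000040005000001000000 := rS 0x990f010800368b0c34cd0bc25091253b3c7b435b30456724a22c920d1f94cc2072ea04be8e7e004b34562914723b359e578ab28a9496af14aa5e223 (k8 c4372 c5695 c6029 c4402 c5815 c4375 c5936 c4405 (k8 c5962 c6075 c2016 c580 c4403 c4279 c1169 c4530 (k8 c4454 c64 c6060 c6074 c6064 c1426 c4380 c4377 (k8 c494 c5402 c4290 c4287 c4371 c4281 c1768 c842 (k8 c843 c3561 c1620 c6076 c4424 c1742 c1796 c6077 (k8 c4490 c2119 c4321 c522 c1482 c4465 c1168 c5846 (k4 c423 c2115 c4461 c575 (k2 c4443 c1103 k0)))))))) (by decide +kernel)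
def c6079 : PP 8 4 T 0x2000002000080000000000040000000000000020080000000000000000000000 := rS 0xa874491fc22490691c2ac709b241e7d (k8 c4379 c4376 c4305 c4401 c4289 c4283 c4374 c4371 (k4 c4281 c4275 c555 c579 (k2 c578 c2107 (k1 c3595 k0)))) (by decide +kernel)
def c6080 : PP 8 4 T 0x110100000002000080000000000040000004400001100080000040005000001000000 := rS 0x15a6232bf0ce01 (k4 c6060 c5084 c6074 c6079 (k2 c4478 c820 (k1 c6078 k0))) (by decide +kernel)
def c6081 : PP 8 4 T 0x102000002000080000004054044000004000001514082000040000040001000000 := rS 0x168b94aa806e3d3a89410880122c0a271c9244635238b47ec7148ede2b3338041e6f (k8 c4378 c4376 c6060 c5084 c664 c5695 c4403 c4402 (k8 c4289 c4287 c4285 c4374 c4373 c4372 c4281 c4279 (k8 c4277 c266 c1767 c4461 c2120 c839 c224 c6057 (k4 c235 c232 c2110 c5073 (k2 c4548 c2113 (k1 c1706 k0)))))) (by decide +kernel)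
def c6082 : PP 8 4 T 0x102000002000080000004054844000004400001114080000040000040001000000 := rS 0xbc2508ce6586e968845d0cfc55669ae8a11248348e156384de26700b241e7d (k8 c4379 c4376 c4305 c6060 c5084 c5695 c4401 c4289 (k8 c4283 c4374 c4371 c4281 c4275 c4453 c2008 c2066 (k8 c6081 c2107 c4392 c725 c2120 c4457 c678 c2024 (k4 c4495 c1521 c4321 c522 (k1 c4465 k0))))) (by decide +kernel)
def c6083 : PP 8 4 T 0x102000002000080000004010044000004000001114082000040005040001000000 := rS 0x2f899a80aaf14aade251 (k8 c4405 c5695 c5962 c4402 c5815 c266 c6081 c4442 (k2 c1839 c4469 k0)) (by decide +kernel)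
def c6084 : PP 8 4 T 0x400000000000200000000002000080000000000440000000000000000080000000005000000004008 := rS 0xcf66d15974b50139a0251789c924d238b58e535488d5e295292d56f128ab4569f (k8 c4414 c4411 c4338 c4405 c5695 c5962 c4375 c5936 (k8 c4402 c5815 c4372 c6029 c4290 c4289 c4285 c4374 (k8 c4282 c4281 c4277 c2835 c224 c2112 c4839 c2110 (k4 c4426 c1750 c4396 c1479 (k2 c1794 c4495 k0))))) (by decide +kernel)
def c6085 : PP 8 4 T 0x200000000002000080000140044000100004080221144080000040040000080000800 := rS 0x9e455fb30f28a44904d639268d4963f63bc55a65 (k8 c4412 c4338 c5695 c4289 c4287 c4375 c4373 c4282 (k8 c4279 c581 c1103 c5917 c2120 c2591 c725 c1514 (k2 c439 c1479 (k1 c2114 k0)))) (by decide +kernel)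
def c6086 : PP 8 4 T 0x10102000002000080000104000040000404400001104080000040005000001000000 := rS 0x45a250a6b3cd105d134c2ece870462e0bc371e8283c170200d6b433f1554e111c9241a35238547ec7098ecae59489852eb3338055223578a54a4b55bc4a2ad159953f106483cde7d (k8 c4379 c4378 c4376 c4305 c6080 c4414 c4412 c4411 (k8 c4338 c4405 c5695 c5962 c4375 c5936 c4402 c5815 (k8 c4372 c6029 c6060 c5084 c664 c928 c5402 c888 (k8 c64 c38 c4403 c4401 c4289 c4287 c4283 c4374 (k8 c4373 c4371 c4281 c4279 c4275 c6082 c6083 c2107 (k8 c4392 c1434 c6084 c4461 c2552 c575 c574 c274 (k8 c273 c5024 c2113 c5042 c576 c4548 c1389 c6085 (k8 c4443 c4469 c4490 c3757 c1838 c4397 c596 c724 (k1 c2120 k0))))))))) (by decide +kernel)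
def c6087 : PP 8 4 T 0x10102000002000080000100000040000404400001104080000040005000001000000 := rS 0x46c556c91308052710 (k8 c6080 c4413 c6060 c5402 c888 c6086 c4353 c1117 (k1 c4486 k0)) (by decide +kernel)
def c6088 : PP 8 4 T 0x1000002001000000000005110055501054004484001555400000000000000001500000 := rS 0x69110945a10ba81 (k8 c4380 c4377 c2119 c5935 c4321 c2120 c4465 c678 k0) (by decide +kernel)
def c6089 : PP 8 4 T 0x102000002000080000104010044004804400001114080000000005040001000000 := rS 0x2f899a982c30ba562c043aad686033f079421530a5d666700a74f6a911abc52a525aade25164974fb155c97cb2a7 (k8 c853 c64 c1426 c1475 c4388 c4379 c4377 c4305 (k8 c4405 c5695 c5962 c4375 c5936 c4402 c5815 c4372 (k8 c6029 c704 c968 c6060 c5084 c664 c928 c5402 (k8 c4283 c851 c5093 c4560 c223 c4392 c1434 c595 (k8 c4461 c4492 c5073 c2552 c4362 c4420 c6088 c4442 (k2 c1838 c4469 k0)))))) (by decide +kernel)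
def c6090 : PP 8 4 T 0x1000002001000000000000118055501054004484001555400000000000000001500000 := rS 0x176c04217502c3 (k4 c1167 c4380 c4377 c2119 (k2 c6088 c1442 (k1 c1749 k0))) (by decide +kernel)
def c6091 : PP 8 4 T 0x10102000002000080000100000040000004400001104080000040005000001000000 := rS 0x2f899a8fc17508112a033ad0d6ca72fae62a8e0a984b2975999c029d3daa446af14a9496ab789455a2b32a4d3f106483cba7d (k8 c4379 c4377 c4376 c4305 c6080 c4414 c4413 c4412 (k8 c4411 c4338 c4405 c5695 c5962 c4375 c5936 c4402 (k8 c5815 c4372 c6029 c704 c968 c6060 c5084 c664 (k8 c928 c64 c5402 c4283 c6087 c4388 c1475 c1426 (k8 c853 c6089 c4424 c1744 c6084 c5073 c4461 c850 (k4 c2552 c4560 c6090 c4442 (k2 c1838 c4469 k0))))))) (by decide +kernel)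
def c6092 : PP 8 4 T 0x10102000002000080000004000040000004400001104080000040005000001000000 := rS 0x12ac360c5972b5a1a651c7e89235365553844920d238558e13489852eb3338053aa911abc52a525aaca2ad15995269f883241e7d8ad158a455e0e476f1 (k8 c5695 c4403 c4279 c6091 c1169 c4530 c4454 c4354 (k8 c4379 c4376 c4305 c6080 c4414 c4413 c4412 c4411 (k8 c4338 c4405 c5962 c4375 c5936 c4402 c5815 c4372 (k8 c6029 c968 c6060 c5084 c664 c928 c5402 c888 (k8 c4401 c4289 c4283 c4374 c4371 c4281 c4275 c6082 (k8 c6083 c2018 c1120 c4490 c2107 c4486 c4443 c4392 (k4 c1434 c1475 c4492 c2021 (k2 c4362 c4418 (k1 c2127 k0))))))))) (by decide +kernel)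
def c6093 : PP 8 4 T 0x10102000002000080000000000040000004400001104080000040005000001000000 := rS 0xe71761226249b4229d1c5f4ab059e8d3aad8d6c53c9168b155daf072491da44c2975999c029d5488d5e295292d56f128ab4569388324ba81 (k8 c4380 c4377 c4305 c6080 c4413 c4411 c4338 c4405 (k8 c5695 c5962 c4375 c5936 c4402 c5815 c4372 c6029 (k8 c968 c6060 c5084 c664 c928 c5402 c888 c4403 (k8 c4281 c4279 c6091 c108 c4354 c4454 c1169 c2016 (k8 c4530 c580 c6092 c1744 c1117 c1796 c1749 c5073 (k8 c577 c4486 c6077 c2119 c2018 c4490 c685 c4553 (k2 c4362 c1088 (k1 c4481 k0)))))))) (by decide +kernel)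
def c6094 : PP 8 4 T 0x102000002000080000004000000000000000000008080000000000040000000001 := rS 0x1431b1f87a550f0100609088e4920d1a91c2a3f6384c76c907c5d28b937ad4e47d (k8 c4379 c843 c1618 c4378 c1085 c842 c4418 c4376 (k8 c4305 c4403 c4401 c4289 c4287 c4283 c4374 c4373 (k8 c4371 c4281 c4279 c4275 c6061 c839 c4461 c575 (k4 c266 c274 c2107 c2113 (k2 c4392 c4989 k0))))) (by decide +kernel)
def c6095 : PP 8 4 T 0x200000000002000080011008000800000800000000000080000040005000000000001 := rS 0x222f28a3924abc52ab789455a2b (k8 c4411 c4338 c4405 c5695 c5962 c4402 c5815 c4281 (k4 c4279 c4453 c853 c6077 (k1 c1169 k0))) (by decide +kernel)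
def c6096 : PP 8 4 T 0x400000000000000000000002000004015400001500000040500001501500001041000000080000800 := rS 0x80996891624cd3cd1612841f94c7651 (k8 c4405 c4403 c4290 c4287 c2119 c4321 c4397 c603 (k4 c1482 c4479 c439 c5846 (k2 c4443 c2115 (k1 c1103 k0)))) (by decide +kernel)
def c6097 : PP 8 4 T 0x1000000000000000000000000000000000800000000000005000000400000 := rS 0x5f13 (k2 c4442 c1838 (k1 c4469 k0)) (by decide +kernel)
def c6098 : PP 8 4 T 0x10102000002000080000000000040000004400001100080000040005000001000000 := rS 0x44b09086b050782e0401a9cbebf4733d1a3da1ad982c5392511662409741e49308055223578a54af1258ad2710 (k8 c6080 c4413 c4411 c4375 c5695 c5936 c4402 c5815 (k8 c4372 c6029 c6060 c5402 c4281 c4376 c4377 c4380 (k8 c6093 c1768 c842 c843 c1786 c1620 c6094 c4424 (k8 c1742 c1117 c1796 c1747 c1246 c577 c6095 c6084 (k8 c4461 c2552 c575 c574 c6097 c2119 c6096 c685 (k1 c1088 k0)))))) (by decide +kernel)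
def c6099 : PP 8 4 T 0x100000002000080000005054000000004000005554080000040004000001004008 := rS 0x1d11037458203639248d48e3f6384c76f1 (k8 c5695 c4403 c4401 c4289 c4287 c4374 c4373 c4281 (k8 c4279 c422 c839 c5853 c232 c2120 c4559 c6057 k0)) (by decide +kernel)
def c6100 : PP 8 4 T 0x101000002000080000004054804000004400001114080000040004040001000001 := rS 0xcba5a219e8ba1ae0fc371e9543c040183d6a7d479bd9270461799a6ba28447249068d48e151fb1c263b33984ae59 (k8 c64 c38 c5402 c5084 c4403 c4401 c4289 c4287 (k8 c4283 c4374 c4373 c4371 c4281 c4279 c4275 c4453 (k8 c2008 c2066 c4532 c577 c576 c2554 c1378 c1426 (k8 c1379 c1387 c3369 c6099 c4461 c575 c266 c274 (k8 c273 c2107 c2113 c4392 c725 c3502 c2120 c4457 (k2 c2024 c4495 k0)))))) (by decide +kernel)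
def c6101 : PP 8 4 T 0x200000000002000080000000000440001000000000000880000000005000000000008 := rS 0xde8425040e44635168a4569f8a83ce08c (k8 c577 c576 c3369 c4387 c4414 c4411 c4402 c4285 (k8 c4373 c4372 c4279 c839 c224 c6084 c232 c4563 k0)) (by decide +kernel)
def c6102 : PP 8 4 T 0x210101000002000080000004000440000404000001104080000040005000000000000 := rS 0x8b44c20f3134c1d1707e1b8f4d655050782e040183d6abd5d9f4dec938230bc5d088e4920d1a91c2a3f6384c765748985666700abc52a525aade251568acca9f (k8 c4414 c4412 c4411 c4338 c4405 c5695 c5962 c4375 (k8 c5936 c4402 c5815 c6060 c5084 c664 c5402 c888 (k8 c38 c4403 c4401 c4289 c4287 c4283 c4374 c4373 (k8 c4371 c4281 c4279 c4275 c840 c4477 c577 c576 (k8 c2554 c1378 c1379 c1389 c1120 c1387 c3369 c6101 (k8 c4461 c2552 c575 c574 c266 c6097 c274 c273 (k8 c2107 c2113 c4548 c6085 c4443 c1928 c4479 c596 (k2 c4322 c2120 k0)))))))) (by decide +kernel)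
def c6103 : PP 8 4 T 0x10100000002000080000004000040000004400001104080000040005000001000000 := rS 0x1b8485c5097d1ca713924464716b1cc2012cabc52ab789455a2b32a7e20fd (k8 c6098 c6080 c4414 c4412 c4411 c4338 c4405 c5695 (k8 c5962 c4402 c5815 c64 c6060 c5402 c4289 c4285 (k8 c4374 c4372 c4281 c4277 c6100 c6102 c1426 c851 (k4 c4477 c2110 c841 c3331 k0)))) (by decide +kernel)
def c6104 : PP 8 4 T 0x10001000002000080000008000044004000000000001080000000000040000000000 := rS 0x12a84dc5c4717d1b1513924464716b1c5291 (k8 c888 c4402 c4289 c4285 c4374 c4372 c4281 c4277 (k8 c4353 c1117 c577 c4486 c4477 c841 c2837 c3331 (k1 c2110 k0))) (by decide +kernel)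
def c6105 : PP 8 4 T 0x10101000002000080000004000004000400000000008080000000000000000000001 := rS 0xd8100f011f4de20029783e5d13984ae1d (k8 c758 c38 c5402 c4277 c840 c6070 c4477 c575 (k8 c4466 c1378 c1379 c4461 c5471 c839 c6065 c232 k0)) (by decide +kernel)
def c6106 : PP 8 4 T 0x10100000002000080000000000040000004400001100080000040005000001000000 := rS 0x1b8485c5097d1c625bbf53e9315c404e491191c5ac7149840259 (k8 c64 c6060 c5402 c4402 c4289 c4285 c4374 c4372 (k8 c4281 c4277 c6080 c4411 c4413 c4414 c6098 c6104 (k8 c6103 c6105 c1426 c851 c4477 c2110 c841 c3331 k0))) (by decide +kernel)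
def c6107 : PP 8 4 T 0x10000001000000080000000000000101000000000000000000150005401002004200 := rS 0x23d1b15532f06e4f1393552235292d3718 (k8 c4472 c4448 c4375 c5936 c4372 c6029 c4282 c4277 (k8 c258 c232 c6022 c2111 c4354 c1119 c852 c4486 k0)) (by decide +kernel)
def c6108 : PP 8 4 T 0x10100000002000080000000000040000004400001100080000040005000000000000 := rS 0x272154e5c2fbf41c254c82224202082c8a6b17c2430272681c3a9130804f6a911a95e24b (k8 c4375 c5695 c5936 c4372 c6029 c704 c6060 c5402 (k8 c888 c758 c494 c4282 c4277 c6106 c4436 c1870 (k8 c1918 c257 c308 c1873 c5066 c4479 c4462 c4443 (k8 c2142 c6107 c4376 c1375 c4046 c4532 c1498 c4839 (k1 c259 k0))))) (by decide +kernel)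
def c6109 : PP 8 4 T 0x100100000000000000000000000000000000000000050080000000000080000000001 := rS 0x1e828a804 (k4 c4191 c4904 c574 c5433 (k1 c306 k0)) (by decide +kernel)
def c6110 : PP 8 4 T 0x100000000000000200000015554000054400001501500000000000000000000000 := rS 0x294cb84a010acf (k4 c1793 c716 c2119 c4439 (k2 c1900 c4485 (k1 c4545 k0))) (by decide +kernel)
def c6111 : PP 8 4 T 0x1000000080000100000000000000200020000000000050040000000004100 := rS 0x110ec4f (k4 c1359 c1422 c6022 c1089 k0) (by decide +kernel)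
def c6112 : PP 8 4 T 0x2000000205000000000000002000200000000001051000000000000800 := rS 0x4562b44f2ca1f94c7651 (k8 c4405 c4403 c4290 c4287 c717 c2588 c1750 c3690 (k2 c439 c2115 k0)) (by decide +kernel)
def c6113 : PP 8 4 T 0x100000002000080200000115554008014400201500500000041040000080004900 := rS 0x5ea010a414cc4a128a61bc4c201609c16cb91c9247e3b6391d6a35 (k8 c4373 c1658 c4374 c4289 c4403 c4287 c4281 c4279 (k8 c1126 c2113 c1745 c1660 c6060 c5402 c5695 c1128 (k8 c6110 c4322 c4479 c4443 c1103 c6112 c2119 c1899 (k1 c6111 k0)))) (by decide +kernel)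
def c6114 : PP 8 4 T 0x100000002000080000000000040000004400001100080000040005000000000000 := rS 0x10174bd4021596ac2e9c16cc81b8f4d60f048283c170200caab55c9f52a74491fd1264154453e5f12a9d430c55a9552111c9241a231a91c96151fb1c263b28bc4ce572cac4c201 (k8 c6060 c5402 c624 c64 c38 c5084 c5695 c4405 (k8 c4403 c4401 c4289 c4287 c4283 c4375 c4374 c4373 (k8 c4372 c4371 c4281 c4279 c4275 c6029 c5936 c5962 (k8 c6108 c4329 c4330 c4381 c4382 c4384 c4962 c5243 (k8 c6109 c2558 c555 c579 c578 c1697 c1650 c1126 (k8 c1658 c3595 c226 c4461 c2552 c575 c574 c263 (k8 c264 c6097 c275 c272 c2107 c2113 c1745 c1418 (k8 c6113 c2027 c717 c2119 c1899 c1421 c6111 c1850 k0)))))))) (by decide +kernel)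
def c6115 : PP 8 4 T 0x110102000002000080000004000040000000000000000080000000000000000000001 := rS 0x624719c0e65 (k4 c6079 c494 c5084 c6064 (k2 c4478 c6076 k0)) (by decide +kernel)
def c6116 : PP 8 4 T 0x4410000001000000004010000014500000454500005555580000042000000000000200 := rS 0xbd3cc52308d5d9157e4154306967742aba10b14e9ece291 (k8 c888 c4135 c704 c968 c624 c4479 c2120 c4321 (k8 c4438 c4428 c1715 c2119 c1063 c4572 c445 c1443 (k4 c1507 c4472 c4486 c4447 (k2 c4354 c2122 k0)))) (by decide +kernel)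
def c6117 : PP 8 4 T 0x1000000000000000000000000000000000800080000040000000000000008 := rS 0x23245209e130772b8203e59 (k8 c64 c223 c839 c38 c1921 c581 c580 c1063 (k2 c1129 c4447 (k1 c4472 k0))) (by decide +kernel)
def c6118 : PP 8 4 T 0x410102000002000080000004010440000004400001100480000040000000001000008 := rS 0x8a4127af58277522ba106b1e315127f8b9d16acf38a811e37458943e080d89c7249118d48e2d1fb1c26291dbc4b29130accce9d07974de8132a4d3eab318ae2001 (k8 c6060 c6115 c4411 c6094 c4415 c4414 c4413 c6079 (k8 c4380 c4378 c4377 c4376 c968 c5084 c664 c5402 (k8 c888 c64 c5695 c4403 c4402 c4401 c4289 c4287 (k8 c4285 c4374 c4373 c4372 c4281 c4279 c4277 c423 (k8 c839 c223 c225 c5853 c232 c5093 c2110 c4135 (k8 c1795 c1707 c4559 c4417 c594 c6057 c1784 c5938 (k8 c6117 c4479 c2120 c6116 c4438 c1715 c1939 c1399 (k2 c1063 c445 (k1 c6022 k0))))))))) (by decide +kernel)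
def c6119 : PP 8 4 T 0x80000000008000000000020 := rS 0xd41a (k2 c430 c431 (k1 c2559 k0)) (by decide +kernel)
def c6120 : PP 8 4 T 0x410102000002000080000004010440000004400001100080000040000000001000008 := rS 0x52d149c455da6d82ae5c31513173a50d7f155ead54070462a5569f1b98cbd10329bc1e271c9249a231a91c962d1fb1c523b338053a8b0d84c4a2b102148277841ade208 (k8 c839 c5695 c6117 c4479 c4438 c1063 c4321 c838 (k8 c2143 c2142 c4401 c423 c5853 c968 c6060 c5084 (k8 c4403 c4402 c4289 c4287 c4285 c4375 c4374 c4373 (k8 c4372 c4282 c4281 c4279 c4277 c4376 c4378 c6079 (k8 c6115 c6118 c6061 c232 c4414 c4415 c1506 c577 (k8 c576 c2110 c1387 c1120 c4387 c1513 c4423 c4559 (k8 c4417 c6057 c1784 c4492 c2120 c1715 c869 c1478 (k4 c441 c2114 c4396 c1399 (k1 c4490 k0))))))))) (by decide +kernel)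
def c6121 : PP 8 4 T 0x410100000002000080000004010440000004400001100080000040000000001000008 := rS 0x2968a4e22aed36c15731512b83a1f97ebd1b9bd9270462a41e5e5a98cbaa047aad3e65883f44e392493446352392c5a3f638a476672ba44c2014e87cb28b0d84c4a2b102148277841ade208 (k8 c839 c5695 c6117 c4479 c4438 c1063 c4321 c838 (k8 c2143 c2142 c4401 c423 c5853 c64 c223 c968 (k8 c6060 c5402 c888 c38 c5084 c4403 c4402 c4289 (k8 c4287 c4285 c4375 c4374 c4373 c4372 c4282 c4281 (k8 c4279 c4277 c6120 c6074 c4412 c4414 c4415 c5093 (k8 c2110 c840 c6105 c1707 c4477 c4046 c1506 c577 (k8 c576 c2554 c1378 c232 c1120 c1513 c5930 c4559 (k8 c595 c6057 c1784 c2120 c1715 c869 c1478 c441 (k4 c2114 c4396 c1399 c4490 k0))))))))) (by decide +kernel)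
def c6122 : PP 8 4 T 0x400000000000000000000002000004005000002060020000000000000000001051000000200000000 := rS 0x1158ad14db299b451f94c7651 (k8 c4405 c4403 c4290 c4287 c4398 c1483 c981 c2870 (k4 c5846 c3691 c441 c2115 k0)) (by decide +kernel)
def c6123 : PP 8 4 T 0x400000000000110102000002000080000000000460000005500401500480000051040000200000000 := rS 0x88bd4d93d48a961b04e494469891c497899d226100b3cba65 (k8 c6079 c2837 c1795 c6060 c5402 c888 c5084 c5695 (k8 c4281 c6064 c4478 c71 c850 c843 c1620 c1087 (k4 c6122 c2119 c3406 c1971 (k2 c1939 c6022 (k1 c441 k0))))) (by decide +kernel)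
def c6124 : PP 8 4 T 0x10102000002000080000008000460000005500401500480000050040000200000000 := rS 0x445ea6c9ea454b0d82728ba511c8d49c41e29130accce018ad0c7a4967974eac9 (k8 c4305 c1744 c2837 c1795 c4281 c1742 c4424 c4353 (k8 c6060 c5084 c664 c5402 c888 c5695 c6123 c4413 (k8 c1117 c4486 c4551 c4418 c4481 c1620 c1087 c6122 (k4 c2119 c3406 c1971 c1939 (k2 c6022 c441 k0))))) (by decide +kernel)
def c6125 : PP 8 4 T 0x10102000002000080000008000460000005500401500080000050040000200004000 := rS 0x882491e8c2f1bd92593eac4c201 (k8 c6060 c5402 c624 c1627 c64 c4305 c4378 c6124 (k4 c577 c1426 c1117 c6066 (k1 c4413 k0))) (by decide +kernel)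
def c6126 : PP 8 4 T 0x410100000002000080000000010440000004400001100080000040000000001000008 := rS 0x125107e8dc1e5d5027d6c272488c8e2d638a5226100894562042a048277841ade208 (k8 c839 c5695 c6117 c4479 c4438 c1063 c4439 c4321 (k8 c838 c2143 c2142 c6060 c5402 c888 c4402 c4289 (k8 c4285 c4374 c4372 c4281 c4277 c6121 c1667 c2110 (k4 c2837 c4046 c232 c6125 (k2 c6074 c6104 (k1 c4413 k0)))))) (by decide +kernel)
def c6127 : PP 8 4 T 0x100000002000080000000000040000004400001100080000040001000000000000 := rS 0x2182b040800405568654f131909c5a01 (k8 c6060 c4285 c4277 c6114 c4339 c902 c255 c942 (k4 c6119 c4461 c838 c839 (k2 c2143 c6126 (k1 c5243 k0)))) (by decide +kernel)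
def c6128 : PP 8 4 T 0x100000002000080000000000040000004400001100080000000001000000000000 := rS 0x1105629a1ad1278ac4a08012ad4aaf548800a2f1987d7a4213934464b1694c525178874029d (k8 c968 c6060 c758 c5695 c4405 c4402 c4290 c4285 (k8 c4375 c4372 c4282 c4277 c6127 c2014 c276 c337 (k8 c1953 c575 c4466 c6029 c5815 c5936 c5962 c4461 (k8 c839 c2142 c2143 c2152 c2153 c5243 c2111 c2112 (k2 c6067 c4338 k0))))) (by decide +kernel)
def c6129 : PP 8 4 T 0x10200000002000080000000000040000000000000000080000000000000000000001 := rS 0xe023240742150953ea1471b8b811139241a23238545ac7098a4c2fd2f954fa7f (k8 c4313 c4409 c4406 c6073 c4961 c5402 c4402 c4401 (k8 c4289 c4285 c4283 c4374 c4372 c4371 c4281 c4277 (k8 c4275 c4477 c841 c840 c2837 c1339 c3331 c2110 (k4 c5588 c226 c4422 c4461 (k2 c2107 c264 k0))))) (by decide +kernel)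
def c6130 : PP 8 4 T 0x2000080001105000000000000200000000000000050040000000004800 := rS 0x170ba1e9e0884f1c9246a471fb1c76f1 (k8 c5695 c4403 c4289 c4287 c4374 c4373 c4281 c4279 (k4 c1359 c6022 c439 c445 (k2 c1962 c2113 (k1 c1478 k0)))) (by decide +kernel)
def c6131 : PP 8 4 T 0x400000000000000000001000000010015141001541101100000000000000501154400000000000000 := rS 0x230be (k2 c5732 c4472 (k1 c4369 k0)) (by decide +kernel)
def c6132 : PP 8 4 T 0x20000000002000080201105001441101000400001501500000050040000000004800 := rS 0x8ac362b44f2ca422ed02491f94c765178a354b43 (k8 c4422 c4385 c4383 c5695 c4405 c4403 c4290 c4287 (k8 c4281 c6130 c4945 c2119 c717 c2588 c1750 c1756 (k2 c2028 c439 (k1 c6131 k0)))) (by decide +kernel)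
def c6133 : PP 8 4 T 0x1000000000000000200100000000000400010000000000000000000000000000 := rS 0xdf15 (k2 c4354 c1080 (k1 c4480 k0)) (by decide +kernel)
def c6134 : PP 8 4 T 0x200001000000000002000010000000004000001500080100000005010000000000 := rS 0xca8b499ecc6ab (k4 c5962 c4407 c704 c1660 (k2 c1713 c579 (k1 c5842 k0))) (by decide +kernel)
def c6135 : PP 8 4 T 0x20000000002000080201105000441001000400001501500000050045000000004800 := rS 0x5f134c2a5e223 (k4 c4372 c5695 c6029 c6132 (k2 c4443 c1840 (k1 c4469 k0))) (by decide +kernel)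
def c6136 : PP 8 4 T 0x20000000002000080201105000441001000400001501500000000005000080004800 := rS 0x8142c22269820294863712aa5e223 (k8 c4372 c5695 c6029 c4381 c272 c276 c4385 c6135 (k4 c1103 c4443 c4479 c4321 (k2 c4439 c2119 k0))) (by decide +kernel)
def c6137 : PP 8 4 T 0x400000000000000000000002000080000005000040000800000000000000000000040000000000000 := rS 0x79165c8e49235238fd8e3b (k8 c4403 c4289 c4287 c4374 c4373 c4281 c4279 c1475 (k2 c4521 c2113 (k1 c4416 k0))) (by decide +kernel)
def c6138 : PP 8 4 T 0x200001000000000002000000000040004000001500080100000005010000000000 := rS 0xad (k2 c1987 c6134 k0) (by decide +kernel)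
def c6139 : PP 8 4 T 0x20001000002000080201004000040000000400001501480000000005000080004800 := rS 0x2eaf51e7148a754e3712d0d6ab1 (k8 c624 c1705 c4422 c4381 c272 c4532 c968 c888 (k4 c587 c6137 c6133 c840 (k1 c6136 k0))) (by decide +kernel)
def c6140 : PP 8 4 T 0x2000080205100001500000000400021501500000051040000000004900 := rS 0x8540925e274 (k4 c586 c5695 c4281 c6111 (k2 c6112 c2119 k0)) (by decide +kernel)
def c6141 : PP 8 4 T 0x1500000000400021501500004020000000080000000 := rS 0x2108489a0530bb (k4 c1850 c1103 c1421 c4443 (k2 c2119 c4479 (k1 c4321 k0))) (by decide +kernel)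
def c6142 : PP 8 4 T 0x2000080201108001500000000400021501500000050040000000004900 := rS 0x30c7a49 (k4 c4281 c1742 c1167 c6140 k0) (by decide +kernel)
def c6143 : PP 8 4 T 0x2000080000000000040000004400001100080000000001000000000000 := rS 0x184ca4220578413a1c0ba6f1ec5572b660aa59037219ac660f048283c170200c54a512c314e5f7e9f4e6553fc1022490688c8e4b0ab1c262928bc4aeb130a5cce01 (k8 c6060 c5084 c928 c5402 c624 c38 c5695 c4405 (k8 c4402 c4401 c4289 c4283 c4375 c4374 c4372 c4371 (k8 c4281 c4275 c6128 c4313 c4406 c4408 c4409 c4961 (k8 c6073 c4532 c6129 c4381 c4385 c5243 c226 c4461 (k8 c2552 c575 c574 c263 c264 c6119 c6097 c276 (k8 c272 c2107 c6029 c6138 c6139 c135 c4353 c1742 (k8 c1077 c841 c4480 c586 c6141 c6142 c1899 c2119 (k2 c717 c6112 (k1 c2029 k0))))))))) (by decide +kernel)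
def c6144 : PP 8 4 T 0x102000002000080000000000440001000000000044080000150000041002000200 := rS 0x745b2511ca046c553ebc8813c6e6507b244e491191c5ac714bc5670d (k8 c5243 c664 c5695 c4402 c4289 c4285 c4374 c4372 (k8 c4281 c4277 c4305 c4376 c6079 c232 c258 c4478 (k8 c6022 c4414 c4354 c1120 c2110 c4486 c4551 c851 (k2 c5073 c1744 k0)))) (by decide +kernel)
def c6145 : PP 8 4 T 0x2000080000000000040000004400000100080000000001000000000000 := rS 0x5e2909e372f03cbaa04fc41fb05869148641128ac10204ea6c3002190145ea731c4cd8272488c8e2d638a5e26703a44c201 (k8 c6060 c5402 c888 c494 c5084 c5695 c4402 c4289 (k8 c4285 c4374 c4372 c4281 c4277 c6143 c4341 c965 (k8 c904 c782 c695 c4469 c4461 c959 c2865 c2971 (k8 c838 c839 c2177 c2176 c1873 c4567 c441 c5243 (k8 c6129 c6144 c6074 c4414 c2110 c2967 c4046 c4477 (k4 c232 c258 c699 c6022 (k1 c1939 k0))))))) (by decide +kernel)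
def c6146 : PP 8 4 T 0x100000002000080100000000000000004510000010080000000002000104004001 := rS 0x32e968868b3e86cda28acfc4e2aa14148b840103c1901844924d0691c96156394c26517899c3a17 (k8 c1911 c758 c5084 c5695 c4405 c4401 c4290 c4289 (k8 c4283 c4375 c4374 c4371 c4282 c4281 c4275 c838 (k8 c5066 c4466 c4461 c4465 c5853 c574 c4321 c2200 (k8 c2108 c2107 c4904 c4396 c1479 c4392 c1521 c300 (k4 c2109 c4457 c2024 c4495 k0))))) (by decide +kernel)
def c6147 : PP 8 4 T 0x80000000002000200000001 := rS 0x18141259 (k4 c64 c2144 c311 c839 (k1 c4461 k0)) (by decide +kernel)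
def c6148 : PP 8 4 T 0x10000000002000080000000000040000004400000000080000000002000004000001 := rS 0x329f592fc2e97c48a8272050b08089341a4b789842e190782808030f0843b05 (k8 c6129 c758 c6147 c4466 c838 c4461 c574 c2199 (k8 c5066 c1911 c5402 c5695 c4375 c4371 c4282 c4275 (k8 c4465 c4321 c4439 c2108 c299 c298 c1505 c1335 (k4 c4477 c4305 c4379 c6079 (k1 c6146 k0))))) (by decide +kernel)
def c6149 : PP 8 4 T 0x1102000002000080000000000040000014000000040081000150002000080004000 := rS 0x9ebd1bb3196b85ba28e873a5c5d843d68ad6862b3f194fac9089241a470a8fd8e530994566c51db0630f1 (k8 c5695 c4472 c4450 c4403 c4530 c664 c4405 c4401 (k8 c4290 c4289 c4287 c4283 c4374 c4371 c4281 c4275 (k8 c4305 c4379 c6079 c2107 c4904 c4392 c1434 c300 (k8 c274 c2115 c4362 c4459 c1088 c4481 c4485 c1744 (k4 c595 c1752 c725 c4989 (k2 c1208 c1479 (k1 c6022 k0))))))) (by decide +kernel)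
def c6150 : PP 8 4 T 0x10000000002000080000000000044000000000002000200000000000040000000800 := rS 0x4aa10889c9223238b58e29 (k8 c4402 c4289 c4285 c4374 c4372 c4281 c4277 c4275 (k2 c2967 c5618 (k1 c2110 k0))) (by decide +kernel)
def c6151 : PP 8 4 T 0x10000000002000080000000000040000004400000000080000000002000000000001 := rS 0x4f47a90bc5d4f8ae20fd4d90d126c8486a0a157899cc25919904f60f22954140401878421d (k8 c758 c6147 c4466 c838 c4461 c574 c2200 c2235 (k8 c2199 c2688 c1913 c62 c64 c5402 c5084 c5695 (k8 c4283 c6129 c6148 c4315 c295 c678 c335 c865 (k8 c6149 c6074 c4411 c4414 c6150 c4477 c699 c1426 (k2 c1400 c6059 k0))))) (by decide +kernel)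
def c6152 : PP 8 4 T 0x100000000002000080000040000044000000000000020080040110042000100000000 := rS 0xbd8cafc84c5a2b2a2ad167b356caf618f56ab93a24872491a91c963f638eca313539355a53 (k8 c4290 c2046 c4282 c2006 c4441 c4405 c4403 c4289 (k8 c4287 c4375 c4374 c4373 c4281 c4279 c579 c578 (k8 c1126 c1658 c1655 c1128 c3717 c2113 c5446 c5999 (k8 c301 c4353 c2116 c4455 c3690 c5995 c1246 c4446 (k2 c2014 c4493 k0))))) (by decide +kernel)
def c6153 : PP 8 4 T 0x1000000080000000000000000000400000000000040000000000005404000 := rS 0x2050b08089341a4b (k8 c4375 c4371 c4282 c4275 c4465 c4321 c4439 c2108 k0) (by decide +kernel)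
def c6154 : PP 8 4 T 0x2000080000000000040000004400000100080000000000000000000000 := rS 0x22d08af40d157843848699f43643f4fa7f821946e4f5d8aa229f12a8618552283c147b020783203109055a17898c022490691c2ac72984de2670eac4c201 (k8 c6060 c5402 c624 c758 c5084 c5695 c4401 c4290 (k8 c4289 c4283 c4374 c4371 c4281 c4275 c6145 c4441 (k8 c1911 c2046 c1913 c6147 c838 c5066 c4466 c4461 (k8 c2688 c574 c2199 c2235 c2200 c6151 c4329 c4381 (k8 c4384 c4962 c5243 c4783 c298 c272 c6152 c4904 (k8 c4313 c4409 c4961 c2107 c4422 c1793 c6153 c4315 (k8 c335 c6022 c4454 c1899 c5748 c4484 c5443 c716 k0))))))) (by decide +kernel)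
def c6155 : PP 8 4 T 0x10001000002000080000000000040000000000000000480000000000000000000001 := rS 0x254f8ad428e37440b90513924464716b1c5261 (k8 c5402 c4402 c4289 c4285 c4374 c4372 c4281 c4277 (k8 c6129 c4477 c6074 c841 c840 c2837 c4411 c4414 (k2 c3331 c2110 k0))) (by decide +kernel)
def c6156 : PP 8 4 T 0x2000080000000000004000004800000020080000000000081000000001 := rS 0x67d0d974b643401e170200caacd3e9d1247f449241a470ab1ca651a2a2c36110c935e213 (k8 c4401 c5695 c4282 c1998 c4275 c638 c5853 c4452 (k8 c4405 c4290 c4289 c4283 c4374 c4371 c4281 c2558 (k8 c2524 c579 c578 c1650 c2064 c3595 c226 c4461 (k8 c2552 c264 c2109 c2107 c4426 c1750 c4422 c1792 (k1 c4495 k0))))) (by decide +kernel)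
def c6157 : PP 8 4 T 0x2000080000000000040000004000000100080000000000000000000000 := rS 0x19f4365d2d90d00785d9a043e955127f01c10ca2a88a7c4b0c4597c321ba2bf50411249341a470ab1ca61328bc4ce01 (k8 c6060 c5084 c5695 c4405 c4401 c4290 c4289 c4283 (k8 c4374 c4371 c4282 c4281 c4275 c6154 c4306 c4452 (k8 c638 c1998 c2555 c5853 c6155 c4381 c4384 c4962 (k8 c5243 c6156 c6109 c227 c4313 c4314 c4406 c4409 (k8 c4461 c2064 c2552 c264 c2109 c2107 c4426 c1750 (k2 c4422 c1792 (k1 c4495 k0))))))) (by decide +kernel)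
def c6158 : PP 8 4 T 0x10002001000000080000000000000000400400000000400000050000000041000420 := rS 0x2f09422fcf6bb5ec62284548a34ee58389e4361c030841a35589bd0209 (k8 c262 c4380 c4378 c4303 c4373 c4371 c310 c4462 (k8 c4466 c689 c2485 c496 c526 c1024 c1027 c1156 (k8 c3233 c4486 c4472 c4354 c4390 c4365 c4369 c2122 (k2 c4321 c522 (k1 c4465 k0))))) (by decide +kernel)
def c6159 : PP 8 4 T 0x1000000010005000000000000000000000000000500155400000000000000 := rS 0xc5 (k2 c4530 c2115 k0) (by decide +kernel)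
def c6160 : PP 8 4 T 0x400000000000110100001000000000000000400844100000000001150000501054405150040000800 := rS 0x227094e06888c11eb0e2c934a870422e68b352ead6798940ab579ac2f45 (k8 c4453 c573 c6097 c5815 c5962 c4489 c4478 c1794 (k8 c820 c817 c2066 c5846 c2112 c837 c4466 c762 (k8 c1029 c4487 c4958 c4416 c4420 c6159 c438 c1219 (k2 c4315 c4343 (k1 c4479 k0))))) (by decide +kernel)
def c6161 : PP 8 4 T 0x1000000000005000054001154000000000000000000150400000000000000 := rS 0x26a30c5 (k4 c4530 c4472 c2127 c4448 k0) (by decide +kernel)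
def c6162 : PP 8 4 T 0x400000000000000000001000000000040005054800144000000000000000000050484000040000000 := rS 0x1d10911829561a762cbf (k8 c1512 c4989 c907 c4362 c4418 c4420 c6161 c440 (k2 c1219 c4466 k0)) (by decide +kernel)
def c6163 : PP 8 4 T 0x1000000000000000000001000000001000105154040554500080000040000000150400000000000000 := rS 0x2e542ce48b2e9717613057e9d8c316869f (k8 c1394 c4392 c4530 c4472 c4367 c4369 c4450 c2127 (k8 c4362 c4459 c2028 c5095 c4495 c1794 c1525 c2125 k0)) (by decide +kernel)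
def c6164 : PP 8 4 T 0x1000000000040105154840044000080001540000000050414012040000800 := rS 0x89c25381a2226d2a8d0e0846f4347d1532cd (k8 c2066 c2010 c4453 c1424 c4392 c6162 c312 c4466 (k8 c1027 c762 c765 c6163 c438 c1219 c4315 c4343 (k1 c4479 k0))) (by decide +kernel)
def c6165 : PP 8 4 T 0x10102000002000080000100000840000000080001140000000050005042040000800 := rS 0x44e129c0d11182bb4d870ac2168a411ac3678f62ab666a4d5a97882668a491a8b47ec7298ed6265a1a7d5651578a56ab30a9ac2ef1 (k8 c5695 c573 c6097 c4283 c662 c1434 c4402 c5815 (k8 c4405 c5962 c1394 c4392 c6062 c4303 c4403 c4290 (k8 c4289 c4287 c4285 c4373 c4281 c4453 c2010 c6160 (k8 c4335 c4338 c4413 c2066 c6164 c4353 c1742 c1797 (k8 c1168 c1117 c4500 c5846 c313 c4550 c4466 c804 (k8 c1978 c1749 c6159 c438 c1219 c4315 c4343 c4479 k0)))))) (by decide +kernel)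
def c6166 : PP 8 4 T 0x400000000000900100000002000004000000444000000016000000050000001050005040040000000 := rS 0xc08b26d26950e0845cc568d299a97459885a53148eca309a2a7532ad (k8 c4903 c4443 c4343 c4397 c4321 c4405 c4403 c4402 (k8 c4290 c4285 c4478 c1768 c817 c1482 c4485 c5846 (k8 c4429 c2112 c837 c4466 c762 c1029 c765 c4487 (k2 c6031 c4420 k0)))) (by decide +kernel)
def c6167 : PP 8 4 T 0x1100000002000000001104444000044014085004510000000000005042200000105 := rS 0x9561a2a2d155c9dc6c752c15d8e13a1ad53b12368115a67 (k8 c5084 c4903 c4461 c695 c4479 c4343 c1434 c4392 (k8 c4401 c4289 c798 c311 c5096 c312 c1112 c4548 (k4 c4386 c4989 c5952 c4362 (k2 c4418 c5935 k0)))) (by decide +kernel)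
def c6168 : PP 8 4 T 0x1102001002000000000144400500044004084000510000000150015042048000005 := rS 0x8b30920954687042c14dafcf318628ed626f548251eab28abc529d4cc48da0456a242a67 (k8 c5084 c4283 c678 c4903 c4461 c695 c4479 c4443 (k8 c4343 c4402 c5815 c4405 c5962 c1424 c262 c1504 (k8 c4378 c4303 c4403 c4530 c4472 c599 c4369 c4448 (k8 c4450 c6167 c4466 c1027 c762 c2126 c4553 c5095 (k1 c4362 k0))))) (by decide +kernel)
def c6169 : PP 8 4 T 0x1000000000000000000000200004000040000000 := rS 0x3a21 (k2 c440 c1219 (k1 c4466 k0)) (by decide +kernel)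
def c6170 : PP 8 4 T 0x10102000002000080000100000040000004480000100400000050005042040000004 := rS 0x12ac360a6d6d186291526978833d5a994ea26241a5dc2508a7248d476673097502a93699686a525aaca2af149ed66153585c148f0c81002f1 (k8 c5695 c6060 c4461 c269 c1424 c6158 c573 c6097 (k8 c4283 c662 c703 c4402 c5815 c4405 c5962 c4375 (k8 c5936 c4392 c6062 c695 c1504 c4380 c4377 c5402 (k8 c5084 c4403 c4373 c4281 c6165 c2119 c4321 c1442 (k8 c4465 c4479 c678 c4343 c4443 c4903 c1522 c6166 (k8 c4335 c4413 c6169 c4530 c4472 c6168 c4448 c4450 (k2 c1167 c1747 (k1 c2127 k0)))))))) (by decide +kernel)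
def c6171 : PP 8 4 T 0x1000000000000000000000200000000000000000000000005000040000000 := rS 0x5f13 (k2 c4443 c1841 (k1 c4469 k0)) (by decide +kernel)
def c6172 : PP 8 4 T 0x1400000000000110100001000000000011000401145414000000001150000501054405150040000800 := rS 0x4492ead539895699 (k8 c6171 c5962 c4478 c6160 c820 c817 c4490 c6031 k0) (by decide +kernel)
def c6173 : PP 8 4 T 0x10102000002000080000000000040000004480000100400000050005042040000004 := rS 0xd220ec728b9d584b956a5e209549a411ac560a6d3a45a2c5578b55982872490a8b47e531daa4da1932d0d3e6704810028f5292d5651578a532f1 (k8 c5695 c6171 c4402 c5815 c4405 c5962 c4375 c5936 (k8 c1424 c6060 c4461 c262 c5084 c1394 c4392 c6062 (k8 c269 c695 c1504 c4403 c4290 c4287 c4285 c4283 (k8 c4281 c4279 c6158 c662 c1434 c6170 c4354 c4454 (k8 c1169 c1174 c2019 c2021 c4530 c1119 c4486 c1158 (k8 c891 c6172 c4335 c4338 c1205 c2127 c595 c4362 (k4 c4481 c1087 c1088 c6033 (k1 c678 k0)))))))) (by decide +kernel)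
def c6174 : PP 8 4 T 0x10002000002000080000000045101100400480000010400000020000000041000420 := rS 0x210840d9ed161761334d6ad5345d7b1448a5d2695469dcb0714d870f2061083452f1589bd02095f8d5764b628ed8251 (k8 c4405 c1852 c4403 c1055 c4375 c1850 c4373 c1053 (k8 c262 c4380 c4378 c4303 c5695 c4402 c4371 c310 (k8 c4462 c1847 c4466 c1849 c496 c526 c1024 c1027 (k8 c762 c1029 c1196 c1156 c4486 c4354 c4963 c2126 (k8 c4809 c2008 c2066 c2127 c532 c725 c1212 c688 (k2 c2122 c4465 (k1 c4321 k0))))))) (by decide +kernel)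
def c6175 : PP 8 4 T 0x1400000000000000000000000000005000000000000000020400000000000000000000000000000000 := rS 0x1974b (k2 c4457 c2024 (k1 c4495 k0)) (by decide +kernel)
def c6176 : PP 8 4 T 0x900000000000000000011000014001144000000000000000000020000010140000000 := rS 0x255361c (k4 c4466 c1849 c762 c6031 k0) (by decide +kernel)
def c6177 : PP 8 4 T 0x1100000002000000000000044000000014005000108000000000005040200000020 := rS 0x3b16116ad (k4 c820 c1768 c311 c5952 (k1 c1112 k0)) (by decide +kernel)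
def c6178 : PP 8 4 T 0x400000000000100100000002000004000000044800140004404000108000001020005040040000020 := rS 0x24838218942434893cb442ecd35d142a53098a4da192aa758a3b6094516ad (k8 c820 c1768 c4405 c1852 c4403 c1055 c1052 c266 (k8 c269 c695 c4402 c4401 c4290 c4283 c4453 c2008 (k8 c2066 c532 c5846 c1846 c6175 c2109 c4315 c4479 (k4 c6177 c4466 c6176 c1029 k0)))) (by decide +kernel)
def c6179 : PP 8 4 T 0x400000000000110102000002000080000000401044000004404000100400000020005040040000020 := rS 0x24838213ca26128435c494e9756b3cc4a02499c025d409954a4b55abc529978afc6a9d628ed8251 (k8 c4405 c1852 c4403 c1055 c1052 c4373 c1053 c5695 (k8 c6171 c4402 c5815 c5962 c4375 c5936 c6062 c4380 (k8 c4377 c6060 c5084 c4281 c4489 c4478 c1794 c820 (k8 c817 c6178 c5712 c4442 c4130 c4321 c685 c603 (k4 c6177 c4466 c6176 c1029 k0))))) (by decide +kernel)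
def c6180 : PP 8 4 T 0x1000000000000000000001000000001000000000000000004480000000001501000000000005540000 := rS 0x225a2cf42c22868b (k8 c725 c4392 c4465 c4321 c1521 c5846 c6175 c2109 k0) (by decide +kernel)
def c6181 : PP 8 4 T 0x100001002000000000000010800044004484000150000001020005040040000020 := rS 0x255361c10b0cc54a44c2434794585d9a6ba2854a61336864aaab578a5329d628ed8251 (k8 c4405 c1852 c4403 c1055 c1052 c6171 c4402 c5815 (k8 c5962 c266 c269 c695 c4401 c4290 c4283 c4453 (k8 c2008 c2066 c532 c725 c1846 c6180 c4315 c678 (k8 c4485 c2120 c4459 c6177 c4466 c1849 c762 c2127 k0)))) (by decide +kernel)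
def c6182 : PP 8 4 T 0x2001000000000000000001500000000400001501400000000000000004000020 := rS 0x210840b9750219 (k4 c269 c4380 c4377 c532 (k2 c2119 c4465 (k1 c4321 k0))) (by decide +kernel)
def c6183 : PP 8 4 T 0x1000000000000000000000100000000000800000000020005000000000800 := rS 0xf1184d85a269d (k4 c1052 c4442 c6097 c3764 (k2 c4488 c572 (k1 c4447 k0))) (by decide +kernel)
def c6184 : PP 8 4 T 0x1100000002000000001100444000044014085004510000000000005042200000105 := rS 0x16c8c (k2 c313 c6167 (k1 c1117 k0)) (by decide +kernel)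
def c6185 : PP 8 4 T 0x1100000002000000000140454500144014084004510000000020015042040000005 := rS 0x16f175cc5584904aa35361c108a5534304a3d7e9d628ed82515a9e42e04 (k8 c4461 c532 c1846 c1434 c4405 c1852 c4403 c1055 (k8 c1052 c1053 c1424 c262 c4392 c1504 c4402 c6184 (k8 c4466 c1849 c1027 c762 c2126 c2127 c4351 c1205 (k2 c4362 c1167 (k1 c4492 k0))))) (by decide +kernel)
def c6186 : PP 8 4 T 0x10102000002000080000000000040000004480000100400000040005042040000004 := rS 0x39c5ceac25ca55211546a6d788984869086b53a4d5a97882d5667b053058a9d5d90132af55a94923525854523b28bc4c25d37a05526d0c810cb434f99c028f (k8 c1424 c6060 c5084 c1394 c4392 c6062 c4461 c269 (k8 c695 c1504 c4380 c4378 c4377 c5402 c5695 c4405 (k8 c4403 c4402 c4283 c4375 c4373 c4281 c5936 c5962 (k8 c5815 c6171 c6173 c1850 c1052 c1055 c1852 c6174 (k8 c703 c662 c1434 c6179 c4335 c4338 c4413 c6181 (k8 c6183 c2119 c6182 c4321 c678 c6185 c2018 c1120 (k8 c4354 c4486 c891 c1205 c2127 c595 c4362 c1088 (k1 c4481 k0)))))))) (by decide +kernel)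
def c6187 : PP 8 4 T 0x10002000000000000000000000200000401404000800400080040000004208000024 := rS 0xbf3baecf2bd38a74ae4548ac4de81 (k8 c4380 c4378 c4303 c886 c2408 c798 c967 c4135 (k4 c1939 c599 c1440 c1921 (k2 c1404 c2122 k0))) (by decide +kernel)
def c6188 : PP 8 4 T 0x10102000002000080000000000040000004480000100400000040001042040000004 := rS 0xf3193b90138990e084f60a03a16121727290d41a178c91e0913aa40801 (k8 c6060 c4461 c1504 c4277 c262 c1424 c6186 c17 (k8 c430 c431 c435 c434 c533 c4315 c563 c2528 (k8 c4462 c703 c6187 c4466 c1032 c952 c953 c1920 (k2 c4367 c1846 (k1 c4482 k0))))) (by decide +kernel)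
def c6189 : PP 8 4 T 0x10102000002000080000000000040000004400000100400000040001042000004000 := rS 0x4516c8d478dd6656041647a0b4b81d221d0f1f8aa111c9241a470a8fd8e133396d925d3e8100601 (k8 c6060 c224 c4461 c4379 c4377 c4305 c6157 c5084 (k8 c4401 c4289 c4287 c4283 c4374 c4371 c4281 c4279 (k8 c4275 c266 c2107 c6188 c10 c1153 c1098 c1193 (k8 c271 c274 c4726 c4462 c4476 c5025 c2187 c800 (k4 c1068 c5024 c4486 c4353 k0))))) (by decide +kernel)
def c6190 : PP 8 4 T 0x100102000000000000000004000000010000040100010000000000400000140001420 := rS 0x22e9759160e67149818380958b24de7d (k8 c4379 c4378 c4305 c4303 c262 c4466 c4462 c1029 (k4 c496 c1021 c526 c5124 (k2 c1196 c4357 (k1 c4487 k0)))) (by decide +kernel)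
def c6191 : PP 8 4 T 0x10102000002000080000000000040000004400000100400000040001002000004000 := rS 0x23d26562ca5d221d0f23573425ba7c16953a99442621e950fea1888a82239248348e151fb1c263b3396d925d3e8100601 (k8 c6060 c224 c4461 c4379 c4377 c4305 c6157 c5084 (k8 c4403 c4401 c4289 c4287 c4283 c4374 c4371 c4281 (k8 c4279 c4275 c6189 c4411 c1734 c5121 c2107 c5433 (k8 c267 c2256 c1647 c1686 c1694 c306 c1610 c5964 (k8 c5588 c4394 c5990 c6190 c10 c1153 c1193 c4726 (k4 c4476 c1609 c800 c5931 k0)))))) (by decide +kernel)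
def c6192 : PP 8 4 T 0x2000080000105114040040400080000040000000150041000020000000 := rS 0x3368aaf270cd8ef1468d52a29498ed329b (k8 c765 c1032 c4403 c1029 c4402 c762 c4373 c1027 (k8 c5695 c4289 c953 c6022 c5815 c4396 c1479 c6163 k0)) (by decide +kernel)
def c6193 : PP 8 4 T 0x10100000002000080000000101040000404480000110000000040001040040000420 := rS 0x22cf4cd612995ea519a7582bf202ad5b108baec6ebd5bb16284548a5d6a9b4ca4d2a8d2c1c43806109241a35258a476517899c0209 (k8 c262 c6060 c5084 c5695 c4405 c4403 c4402 c4375 (k8 c4373 c4371 c4281 c310 c4462 c4466 c496 c526 (k8 c1027 c762 c1029 c1032 c765 c1433 c1196 c1155 (k8 c3233 c4486 c4530 c4353 c4354 c4386 c4390 c4963 (k8 c4487 c4809 c4415 c6192 c1053 c1852 c3040 c952 (k8 c5936 c5815 c2126 c2127 c2066 c6181 c725 c1212 k0)))))) (by decide +kernel)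
def c6194 : PP 8 4 T 0x400000000000000000000002000000000001000000020000000000000000000000000002040000000 := rS 0x100dd6e1d8bb1c528f (k8 c1424 c4402 c4289 c4418 c762 c1747 c4989 c4466 (k1 c312 k0)) (by decide +kernel)
def c6195 : PP 8 4 T 0x400000000000900100000002000004000000444000000006000000050000001050005040040000000 := rS 0x88 (k2 c6166 c685 k0) (by decide +kernel)
def c6196 : PP 8 4 T 0x400000000000110102000002000080000000001044010404400001100000000050005040040000800 := rS 0x422f4e2774616124c15da6cf2bf8c3148a9d8930d9ea74cabc922d1f94c523b28bc5626f409ed40ad55a5cc465338056615 (k8 c4283 c662 c6060 c5084 c6062 c4478 c817 c1612 (k8 c820 c4489 c703 c4380 c4378 c4303 c5695 c4405 (k8 c4403 c4402 c4290 c4287 c4285 c4281 c5815 c6171 (k8 c6160 c1794 c4958 c5712 c4343 c6169 c4530 c4472 (k8 c4369 c4447 c4448 c4449 c4450 c4553 c1609 c1739 (k4 c1112 c537 c1120 c2122 (k1 c6195 k0))))))) (by decide +kernel)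
def c6197 : PP 8 4 T 0x2000000000000000000001000000000404000000000000050008006040000024 := rS 0xe2bf3baecf2bd2c274ae45488810a1d27290d41a589bd028f (k8 c1424 c4380 c4378 c4303 c430 c431 c435 c434 (k8 c953 c563 c4466 c886 c2408 c798 c967 c311 (k4 c1939 c599 c1440 c1921 (k2 c1404 c537 (k1 c2122 k0))))) (by decide +kernel)
def c6198 : PP 8 4 T 0x4000100000000000000000000400000004000000000010000000000000000200040105 := rS 0x733a960ae04 (k4 c4461 c798 c311 c5096 (k2 c1109 c4481 k0)) (by decide +kernel)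
def c6199 : PP 8 4 T 0x10102000002000080008000010840040100080001140000000050005042040000800 := rS 0x482de2acd5e2c51f17 (k8 c4362 c1424 c4303 c6165 c2066 c4354 c1168 c4486 (k1 c5095 k0)) (by decide +kernel)
def c6200 : PP 8 4 T 0x8540101501540500080000040000000000000000000000000 := rS 0x2dd2117 (k4 c4362 c2126 c1167 c5095 k0) (by decide +kernel)
def c6201 : PP 8 4 T 0x10102000002000080000000010041044000400000100000000050001042040004801 := rS 0x69104f39330eab65ca422abc53a3438218bb0982bb4dafe30c5228d47667589b4326504a3d2ab559d0cfc553e8358ec9089242a470985d4a4b559455e294c8ccf6045480c4ef1 (k8 c5695 c4277 c224 c1504 c4461 c703 c6197 c6171 (k8 c4402 c5815 c4405 c5962 c4375 c5936 c573 c4401 (k8 c4374 c4283 c4281 c4275 c4305 c4289 c4371 c4379 (k8 c266 c2107 c4392 c662 c1434 c6194 c1424 c262 (k8 c6062 c269 c695 c4303 c5084 c4403 c4373 c6169 (k8 c4530 c4472 c4369 c4448 c4449 c4450 c2127 c4362 (k8 c6198 c4466 c1027 c6199 c6200 c4354 c4486 c1205 (k8 c5095 c595 c1168 c4481 c1479 c1088 c6153 c678 k0))))))))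 (by decide +kernel)
def c6202 : PP 8 4 T 0x10102000002000080000000000040000004400000100000000050001042040004000 := rS 0x364484466269c49ab52f10358cc2e27789b53e673da556ab30523ccaa958d0cfc550200c027d06b1d9211248548e13 (k8 c4401 c4374 c4283 c4281 c4275 c4305 c4289 c4371 (k8 c4379 c6060 c224 c4461 c266 c2107 c4392 c4303 (k8 c1504 c6062 c1424 c6193 c662 c1434 c6194 c703 (k8 c5084 c1394 c695 c5695 c4277 c573 c6197 c6097 (k8 c6196 c4335 c4338 c4413 c6201 c4343 c4367 c4479 (k2 c4472 c4315 (k1 c438 k0))))))) (by decide +kernel)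
def c6203 : PP 8 4 T 0x900002000000000000011440054401154400405000100000000020000010040000020 := rS 0x84841c57a778c9613420589bd02c3 (k8 c4958 c4380 c4378 c4303 c6176 c2127 c311 c4448 (k4 c1888 c2018 c537 c4482 (k2 c2122 c4321 k0))) (by decide +kernel)
def c6204 : PP 8 4 T 0x400000000000110102000002000080000000001060010404404000100000000020005040040000820 := rS 0x22612845e9c4ee20461603a92891e54e17679ad3a995792452f1589bd02bf1aaec96c51db04a2ad55a5cc465338056615 (k8 c4283 c662 c6060 c5084 c6062 c4478 c817 c1612 (k8 c820 c4405 c1852 c4403 c1055 c4375 c1850 c4373 (k8 c1053 c4380 c4378 c4303 c5695 c4402 c4281 c5815 (k8 c6171 c1052 c6183 c1794 c532 c6178 c1846 c5712 (k8 c6203 c1029 c1609 c1739 c4466 c1112 c537 c1120 (k4 c2122 c4321 c685 c6177 k0)))))) (by decide +kernel)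
def c6205 : PP 8 4 T 0x2000000000000000440000200000401405000800000000000000004200000024 := rS 0x713baf4b05748ac4de81 (k8 c4380 c4378 c4303 c886 c798 c311 c1939 c1921 (k2 c537 c2122 k0)) (by decide +kernel)
def c6206 : PP 8 4 T 0x2000000000000000440000000000000404000000000000100009006040000024 := rS 0x232774e2643821429e612a435069528f (k8 c1424 c1504 c430 c431 c435 c4315 c599 c563 (k4 c6205 c4466 c1032 c952 (k2 c1920 c4367 (k1 c4482 k0)))) (by decide +kernel)
def c6207 : PP 8 4 T 0x400000000000110102000002000080000000001044010404404000100000000020005040040000820 := rS 0xa0 (k2 c4489 c6204 k0) (by decide +kernel)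
def c6208 : PP 8 4 T 0x102000000000000011440454401154400405000110000000000000002200040105 := rS 0x466129a4230d7a713bc591858589bd0204 (k8 c4461 c4380 c4378 c4303 c311 c313 c6198 c1112 (k8 c537 c1120 c4362 c2122 c2127 c4321 c4448 c4482 k0)) (by decide +kernel)
def c6209 : PP 8 4 T 0x10102000002000080000000000040000004400000100000000040001042040004000 := rS 0xd2209e72661d56cb948455791761235361c10a9d26ad4bc40f21735a7532af55a9466c162aed7e45202556ab33d8291e09138d496291d945e2b154864cb434f9f8aa04019f41ac76484492152384cce01 (k8 c6060 c5084 c4401 c4374 c4283 c4281 c4275 c4305 (k8 c4289 c4371 c4379 c224 c4461 c266 c2107 c1394 (k8 c4392 c6062 c269 c1504 c4303 c5695 c4405 c4403 (k8 c4402 c4375 c4373 c4277 c262 c1424 c6193 c703 (k8 c662 c1434 c6194 c6202 c23 c1053 c1850 c1055 (k8 c1852 c6206 c5936 c5962 c5815 c6171 c1052 c6183 (k8 c532 c1846 c6207 c4335 c4338 c4413 c6181 c6208 (k8 c4466 c1849 c1027 c2127 c4362 c6200 c4354 c4486 (k8 c1205 c5095 c595 c1168 c4481 c1479 c1088 c6153 (k1 c678 k0))))))))))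 (by decide +kernel)
def c6210 : PP 8 4 T 0x10102000002000080000000000040000004400000100000000040001042000004000 := rS 0x3a1c56f145aa346e8f59958105905a5c0e910e878fc55088e4920d1a91c2a3f6384c76672db24de7d0200c025e (k8 c6191 c6060 c224 c4461 c4379 c4378 c4305 c6157 (k8 c5084 c4403 c4401 c4289 c4287 c4283 c4374 c4373 (k8 c4371 c4281 c4279 c4275 c266 c2107 c6209 c10 (k8 c1153 c1098 c1193 c271 c4726 c4462 c4476 c5025 (k8 c1426 c2187 c1067 c1434 c4486 c4353 c4387 c4559 (k1 c594 k0)))))) (by decide +kernel)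
def c6211 : PP 8 4 T 0x110002000002000080000000000040010400000000000000000000000000040004424 := rS 0x3f954c8634b45e289149a34ae580e0184211248346a470ab1c263b58b24fa09 (k8 c262 c4379 c4305 c4303 c4403 c4401 c4289 c4283 (k8 c4374 c4373 c4371 c4281 c4275 c310 c4462 c4466 (k8 c526 c1018 c1027 c1029 c1155 c4486 c4963 c4487 (k4 c816 c1196 c267 c555 (k1 c2107 k0))))) (by decide +kernel)
def c6212 : PP 8 4 T 0x100000000000000000000000000000000000000040002000000000080000000801 := rS 0x7b11 (k2 c4411 c5433 (k1 c306 k0)) (by decide +kernel)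
def c6213 : PP 8 4 T 0x102000002000080000000000040000000000000040001000000000080000004000 := rS 0x1f8c811248348e156384d927d (k8 c4379 c4305 c4401 c4289 c4283 c4374 c4371 c4281 (k4 c4275 c4904 c2107 c555 k0)) (by decide +kernel)
def c6214 : PP 8 4 T 0x10102000002000080000000000040000004400000100000000040001002000004000 := rS 0x24d1e594ba443a8d0f2e4ff425ba7d2a0b3a99442621e9514311151787249068fc76673e8100601 (k8 c6060 c224 c4461 c4379 c5084 c4403 c4287 c4371 (k8 c4281 c4279 c6191 c6210 c4411 c1734 c6213 c5433 (k8 c267 c2256 c1647 c1686 c6212 c1694 c1610 c5964 (k8 c5588 c4392 c4394 c6190 c5990 c10 c1153 c1193 (k4 c4726 c1426 c1609 c5931 k0))))) (by decide +kernel)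
def c6215 : PP 8 4 T 0x10000001000000080000000100000000400400000000000000080000000041004420 := rS 0x6e4e8a2442e8d2c1e438060d8846a09 (k8 c236 c4373 c310 c334 c4462 c4466 c2485 c526 (k4 c1027 c1950 c1155 c4486 (k2 c6153 c4386 (k1 c338 k0)))) (by decide +kernel)
def c6216 : PP 8 4 T 0x400000000000000000000002000000000001054000000000000000000000001080001042200000000 := rS 0x3407a2f1b0b58e53149448233 (k8 c2294 c22 c4405 c4402 c4290 c4289 c4285 c312 (k4 c837 c5531 c2112 c340 k0)) (by decide +kernel)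
def c6217 : PP 8 4 T 0x400000000000100100000002000000000001044000000000000000150040001080001042000000800 := rS 0xd01e8be2c9b49958b2214bab4c42d298a4a233598552a1f (k8 c276 c6194 c4283 c662 c2294 c4405 c4402 c4290 (k8 c4285 c4478 c820 c817 c6216 c535 c4476 c1609 (k4 c804 c4487 c1952 c4416 (k2 c2112 c340 k0)))) (by decide +kernel)
def c6218 : PP 8 4 T 0x102000002000080000000000040000004400000100000000080001042000004800 := rS 0x66d149c1b3d958b22156c416b433f194aa11248348ec72984cce5b649f43204018055651578cde229598542e41 (k8 c22 c573 c4283 c662 c4402 c5695 c2294 c5815 (k8 c4405 c5962 c6060 c224 c4461 c269 c4379 c4305 (k8 c6157 c5084 c4401 c4290 c4289 c4374 c4371 c4281 (k8 c4275 c266 c6062 c2107 c4392 c1434 c6217 c4338 (k8 c6216 c535 c4476 c1227 c335 c6153 c4396 c1479 (k1 c6180 k0)))))) (by decide +kernel)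
def c6219 : PP 8 4 T 0x10102000002000080000000000040000004400000100000000000001002000004000 := rS 0x55150291e1f2106408037899c02b1 (k8 c4303 c6060 c5084 c5695 c224 c4461 c269 c6214 (k4 c276 c1424 c6215 c6218 (k2 c6212 c6213 k0))) (by decide +kernel)
def c6220 : PP 8 4 T 0x40400000000000000000000000000004440000000000000000000000000000080000000000000000000 := rS 0x19b45 (k2 c4396 c1479 (k1 c4495 k0)) (by decide +kernel)
def c6221 : PP 8 4 T 0x2000080000000014020000000000000000000000000005441000000000 := rS 0x3368aa627b2e96cf682bd52a5139249a23258b58e5314945e343 (k8 c4423 c5695 c4405 c4402 c4290 c4289 c4285 c4375 (k8 c4372 c4282 c4281 c4277 c5936 c6029 c5815 c2112 (k8 c1794 c4426 c1750 c6220 c4839 c4453 c2066 c4495 k0))) (by decide +kernel)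
def c6222 : PP 8 4 T 0x510000000002000080000000054460000000000000000000000000000001000000000 := rS 0x52d149cd165b3694a9249348e4b6394ca2cf (k8 c1795 c4405 c4290 c4289 c4375 c4374 c4282 c4281 (k8 c980 c4491 c5446 c5517 c4426 c2116 c4396 c1399 (k1 c4490 k0))) (by decide +kernel)
def c6223 : PP 8 4 T 0x10000000000000000000200000400001400000000000000000000000000000000000 := rS 0x11b15 (k2 c4354 c1120 (k1 c4486 k0)) (by decide +kernel)
def c6224 : PP 8 4 T 0x1000000000000000000000000002000000000000000000000000005001000 := rS 0x2f09 (k2 c4321 c522 (k1 c4465 k0)) (by decide +kernel)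
def c6225 : PP 8 4 T 0x20000002000000000000000100000000000001405410000000000000000000000000000 := rS 0xbb5fac4de81 (k4 c4380 c4378 c4303 c4369 (k2 c4449 c2122 k0)) (by decide +kernel)
def c6226 : PP 8 4 T 0x410002001000000080000000000400000401400001100040000040000000200000400 := rS 0x2ed7e408caf48a7b3b9e4e2580315d3a094889c1a3525ac4de81 (k8 c4380 c4378 c4303 c4375 c4373 c4371 c4277 c886 (k8 c231 c967 c799 c4462 c4476 c496 c501 c1112 (k8 c4055 c1217 c6223 c6225 c4472 c1053 c1850 c2122 k0))) (by decide +kernel)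
def c6227 : PP 8 4 T 0x110102000002000080000000000040000404400000100002000040001041040000410 := rS 0xa865af110bb5fb14f679399c566c1619dcea9c201153256031652a091e8712e2142ab832a7898c9409f55a2d5a6d3109c920d118d48e4b16b1c523b7899cb6b1379f5022f0d8080265 (k8 c6062 c6060 c4461 c423 c796 c4380 c4379 c4378 (k8 c4303 c6157 c5084 c5695 c4403 c4402 c4289 c4285 (k8 c4375 c4374 c4373 c4372 c4371 c4281 c4277 c4478 (k8 c965 c820 c1769 c1612 c1610 c2110 c6221 c4339 (k8 c902 c255 c6222 c6224 c6226 c4631 c4466 c5184 (k8 c1058 c762 c1026 c791 c790 c1032 c1220 c953 (k8 c952 c1686 c6033 c4958 c1714 c5025 c496 c1021 (k8 c501 c1227 c4530 c1053 c1850 c2123 c2122 c2024 (k2 c1174 c981 k0))))))))) (by decide +kernel)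
def c6228 : PP 8 4 T 0x10002001000000080000000000000000400400000100040000040008000204000400 := rS 0x840c9b4b05706c4d4e27 (k8 c4277 c902 c4339 c4371 c799 c4476 c4993 c255 (k2 c6226 c6224 k0)) (by decide +kernel)
def c6229 : PP 8 4 T 0x10102000002000080000000000040000404400000100002000040001041040000410 := rS 0x2a196bc4421516c33bb0576bf629ecf27338acc32754e1008a5603164da3d0e08464a055a7d5a978809c920d118d48e4b16b1c26291d945e2672dac4de811786c0401 (k8 c6060 c4461 c423 c796 c4380 c4378 c4303 c6157 (k8 c5084 c5695 c4405 c4403 c4402 c4401 c4289 c4285 (k8 c4375 c4374 c4373 c4372 c4371 c4281 c4277 c6227 (k8 c4335 c4338 c4414 c4415 c2110 c6221 c6228 c4466 (k8 c5184 c2963 c1026 c791 c790 c1220 c953 c952 (k8 c1686 c255 c5025 c496 c1021 c501 c1227 c4530 (k8 c1053 c1850 c1852 c1092 c1213 c5853 c6224 c2123 (k4 c2122 c2024 c1174 c981 k0)))))))) (by decide +kernel)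
def c6230 : PP 8 4 T 0x100000000000000000000020000000000000000150000000000000000000000000 := rS 0xc711 (k2 c4338 c820 (k1 c4478 k0)) (by decide +kernel)
def c6231 : PP 8 4 T 0x2000080000000010020000000000000000000000000005441000000000 := rS 0x2aca2f1 (k4 c5695 c4405 c5962 c6221 k0) (by decide +kernel)
def c6232 : PP 8 4 T 0x10102000002000080000000000040000404400000100000000040001040040004410 := rS 0xb361a252eca66a9572a8a2af10a8b3bb0576bf629ecf273389d4329c20115325603164da1c678854f13192813f433f15422272483446352392c2a2d6384c523b28bc4b6b1649bcfa81128bc360256994ce01 (k8 c6060 c5084 c6062 c6230 c4461 c423 c796 c6219 (k8 c4380 c4379 c4378 c4305 c4303 c6157 c5695 c4405 (k8 c4403 c4402 c4401 c4289 c4285 c4283 c4375 c4374 (k8 c4373 c4372 c4371 c4281 c4277 c4275 c6229 c2107 (k8 c4392 c1394 c2110 c6231 c4339 c902 c6228 c1795 (k8 c4466 c2963 c1026 c791 c790 c1032 c1220 c953 (k8 c952 c255 c498 c496 c1021 c501 c1227 c4530 (k8 c1053 c1850 c1852 c1092 c5853 c6224 c2122 c4454 (k8 c1174 c3219 c1938 c5541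 c981 c2985 c6175 c2029 (k2 c5025 c2123 k0)))))))))) (by decide +kernel)
def c6233 : PP 8 4 T 0x100000000000000000000000008000000000000050400000000000000000000000 := rS 0xc711 (k2 c4414 c1611 (k1 c4478 k0)) (by decide +kernel)
def c6234 : PP 8 4 T 0x10102000002000080000000000040000004400000100000000040001040040004410 := rS 0x11759a516ca04f97ce671031d412202b8751c65139241a23238b58e13148ecce012dac4ba25 (k8 c6219 c4377 c4303 c6157 c6060 c5084 c4403 c4402 (k8 c4401 c4289 c4285 c4374 c4372 c4371 c4281 c4277 (k8 c6062 c6232 c760 c800 c4466 c231 c5096 c4462 (k8 c496 c1021 c1425 c6233 c2110 c5093 c850 c1163 (k2 c4418 c4481 k0))))) (by decide +kernel)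
def c6235 : PP 8 4 T 0x10102000002000080000000000040000004400000100000000040001000040004410 := rS 0x38acce6062ca4d6e1c3a884fe3d321514311150087249068ecce0158b24de7d (k8 c4379 c4378 c4305 c4303 c6060 c5084 c4403 c4371 (k8 c4281 c4279 c4461 c6234 c4411 c1734 c6213 c4191 (k8 c5433 c555 c314 c1686 c4466 c5964 c1029 c1026 (k4 c791 c1648 c552 c496 (k1 c5124 k0))))) (by decide +kernel)
def c6236 : PP 8 4 T 0x10102000002000080000000000040000004400000100000000040001000040004400 := rS 0xc93aa8201f96abd5b8dcab1455a7cca2b56a5c8a91881612a8d4781838091080c0811248344635238558e1314bc4ce0158b24fa25 (k8 c6219 c4379 c4305 c4303 c6060 c5084 c5695 c4402 (k8 c4401 c4289 c4283 c4374 c4373 c4372 c4371 c4281 (k8 c4275 c6235 c29 c310 c262 c4466 c4462 c760 (k8 c1027 c762 c526 c6211 c1155 c3233 c4335 c4338 (k8 c4411 c4412 c4414 c4415 c4486 c266 c5021 c4353 (k8 c4354 c4389 c2107 c6192 c6193 c3040 c6029 c952 k0)))))) (by decide +kernel)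
def c6237 : PP 8 4 T 0x100000000000000000000000008000000010000050000000000000000000000000 := rS 0xc711 (k2 c4414 c1610 (k1 c4478 k0)) (by decide +kernel)
def c6238 : PP 8 4 T 0x10002000000000000000400000400201401405400000020000000000000000000000 := rS 0x176bd38ac4de81 (k4 c4380 c4378 c4303 c537 (k2 c6223 c1931 (k1 c2122 k0))) (by decide +kernel)
def c6239 : PP 8 4 T 0x10102000002000080000000010020000000400000110040000000001041080000208 := rS 0x39c5d288e42afcf27b0ca614f135b0c8ee7536960362f139241a3523b1c76f137a746eb31fad52239 (k8 c4279 c1153 c1707 c4287 c1185 c272 c1233 c4378 (k8 c5695 c4403 c4289 c4374 c4373 c4371 c4281 c4277 (k8 c796 c423 c223 c4993 c538 c1112 c6231 c4559 (k8 c4339 c902 c433 c255 c4055 c1929 c3147 c6224 (k4 c6238 c850 c4418 c1617 (k1 c4481 k0)))))) (by decide +kernel)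
def c6240 : PP 8 4 T 0x10102000002000080000000000040000000400000100040000000001041080004201 := rS 0xe8715bc50fc8d47954ac0401ad5409f569942227248344635238545a3f6384c523b33b24ba6f3ea447237 (k8 c272 c4279 c1153 c4379 c4378 c4377 c4305 c5084 (k8 c4403 c4402 c4401 c4289 c4287 c4285 c4283 c4374 (k8 c4373 c4372 c4371 c4281 c4277 c4275 c6062 c6230 (k8 c6237 c2110 c1707 c6239 c4461 c263 c266 c800 (k4 c1067 c2107 c4486 c4353 (k2 c4387 c4559 (k1 c594 k0))))))) (by decide +kernel)
def c6241 : PP 8 4 T 0x10102000002000080000000000040000004400000100000000040001000000004400 := rS 0x24ce7175a254eab71e9514311150206e97038843c39248d48e3f638ecce012d9bcfa25 (k8 c6219 c4379 c4378 c6157 c6060 c5084 c4403 c4289 (k8 c4287 c4374 c4373 c4281 c4279 c6236 c57 c1098 (k8 c1193 c272 c4462 c6240 c4411 c1734 c6213 c5433 (k8 c5964 c1686 c1694 c4559 c4419 c1618 c5190 c4487 k0)))) (by decide +kernel)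
def c6242 : PP 8 4 T 0x400000000000100102000002000084000000000000000404404000108000000000005840240000820 := rS 0x108421e57b1953aed7e710b9dd34402c1246a4b589bd02ab28abc529978a5d6615 (k8 c4283 c662 c817 c5695 c6171 c4402 c5815 c4405 (k8 c5962 c4380 c4378 c4303 c4375 c4373 c4281 c311 (k8 c837 c836 c1112 c2497 c537 c1053 c1850 c6178 (k4 c4448 c2018 c1846 c2122 (k2 c4482 c4321 k0))))) (by decide +kernel)
def c6243 : PP 8 4 T 0x110102000002000080000000000060000404400000100000000040005840000000820 := rS 0x414a87042623d87cb69f329f4ce01a19b5522367abde229 (k8 c4402 c5695 c5815 c1794 c4372 c6029 c695 c4423 (k8 c6060 c5084 c4379 c6062 c6237 c6157 c271 c703 (k4 c4478 c6242 c4466 c762 (k2 c6204 c6196 k0)))) (by decide +kernel)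
def c6244 : PP 8 4 T 0x102000002000080000000000000044404484000110000000000005840240000805 := rS 0x288843cc557b1953aed7e710b9de2c9a2016092352584de2b137a0412b30aab4ce04 (k8 c4461 c5084 c6230 c4283 c662 c31 c4380 c4378 (k8 c4303 c5695 c4401 c4375 c4373 c4281 c311 c837 (k8 c836 c6198 c1112 c2497 c537 c1053 c1850 c6181 (k4 c4448 c2018 c4963 c1846 (k2 c2122 c4493 (k1 c4397 k0)))))) (by decide +kernel)
def c6245 : PP 8 4 T 0x400000000000000100001000000004000000054800154004480001500001501050000000021540000 := rS 0x461804561b153b4a89425121a45b368a9b (k8 c765 c4453 c2066 c725 c6180 c6175 c4315 c4479 (k8 c4485 c4343 c4429 c4459 c1219 c2127 c4472 c4450 k0)) (by decide +kernel)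
def c6246 : PP 8 4 T 0x1000000000000100155501154500080000040000000050400000020000000 := rS 0x61b0576bf8c3148a9b (k8 c765 c1219 c4530 c4472 c4369 c4449 c4450 c6200 (k1 c2127 k0)) (by decide +kernel)
def c6247 : PP 8 4 T 0x2000000000001500000000000000800000000800 := rS 0xd4208913 (k4 c4343 c785 c4479 c438 (k1 c4316 k0)) (by decide +kernel)
def c6248 : PP 8 4 T 0x400000000000000100000002000084008000400000000000400104000000000000000000001404000 := rS 0x69104f3932d721563bc62f4b (k8 c4459 c4362 c5695 c4289 c4283 c4548 c2029 c4481 (k4 c6220 c1088 c6153 c678 k0)) (by decide +kernel)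
def c6249 : PP 8 4 T 0x400000000000010102000002000084000000010000144404400001140001000050005800020004800 := rS 0x1d16d176124182c55e1153aa73585ca63b589bc32b53f1f41ac764844924709acc2aa525aa446ab28abde28d1aa54529b (k8 c765 c4402 c762 c4373 c1027 c5695 c5815 c4405 (k8 c5962 c4372 c6029 c4375 c5936 c4283 c662 c4401 (k8 c4374 c4281 c4275 c4305 c4289 c4371 c4379 c2107 (k8 c1434 c308 c4378 c4303 c4403 c4290 c573 c6097 (k8 c6245 c6247 c1219 c6246 c4530 c2021 c6223 c2127 (k4 c4362 c5095 c6248 c1744 k0)))))) (by decide +kernel)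
def c6250 : PP 8 4 T 0x10102000002000080000000000040000404400000100000000040005040000004004 := rS 0x2e120745e05d84a735a7582c55dafc809b4aa34382149a5e20cf172655eab54a946a4b1d945e2b1379ed661f2d86414ada1a813e653388c4e2d14894da7e2a810027d06b1d9211248548e13 (k8 c4401 c4374 c4283 c4281 c4275 c4305 c4289 c4371 (k8 c4379 c6060 c4461 c266 c2107 c695 c6219 c4402 (k8 c4285 c4277 c4372 c5084 c6062 c6237 c2110 c4423 (k8 c6230 c6241 c308 c6157 c271 c662 c703 c4378 (k8 c4303 c5695 c4405 c4403 c4375 c4373 c5936 c6029 (k8 c5962 c5815 c6171 c6231 c1794 c6243 c4335 c4413 (k8 c6244 c4466 c1027 c762 c765 c6249 c1053 c1850 (k8 c1055 c1852 c1052 c6183 c6181 c2127 c532 c6200 (k4 c6248 c6223 c595 c1205 k0))))))))) (by decide +kernel)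
def c6251 : PP 8 4 T 0x510100000002000080000000050460000004000000050000000000000001000000000 := rS 0x15462 (k2 c4478 c6222 (k1 c1612 k0)) (by decide +kernel)
def c6252 : PP 8 4 T 0x10102000002000080000000000040000404400000100000000040001040000004004 := rS 0xa5a293996ab882a59aaf68d29168984b3cd41a53c4c64042692c2a5328ab5409f329f4ce0111b1c4e491691c5225 (k8 c6219 c4402 c4374 c4285 c4281 c4277 c4289 c4372 (k8 c6060 c5084 c4379 c6062 c6237 c2110 c6230 c4405 (k8 c4290 c4283 c4375 c4282 c4461 c6250 c4339 c902 (k8 c430 c431 c1795 c4315 c678 c564 c4485 c4426 (k8 c4428 c4460 c980 c6251 c4415 c5517 c2116 c4396 (k2 c1399 c4490 k0)))))) (by decide +kernel)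
def c6253 : PP 8 4 T 0x10102000002000080000000000040000404400000100000000040001040000004000 := rS 0xf2718c2f6289953c4d3a9146a6cee8519080ac1b178081af137824f619052b5409f329f4ce0111b1c4e491691c5225 (k8 c6219 c4402 c4374 c4285 c4281 c4277 c4289 c4372 (k8 c6060 c5084 c4379 c6062 c6237 c2110 c6230 c6241 (k8 c308 c703 c31 c4378 c5695 c4371 c6252 c796 (k8 c423 c303 c302 c6231 c6224 c6033 c2784 c1067 (k8 c886 c967 c4339 c902 c1071 c4486 c6223 c4488 (k2 c4387 c4447 (k1 c6225 k0))))))) (by decide +kernel)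
def c6254 : PP 8 4 T 0x10102000002000080000000000040000004400000100000000040001040000004000 := rS 0x45c062049a50ae1d46a39409f3289c9223238b58e131499c025d3e89412b30a87c145b (k8 c6157 c6241 c271 c4283 c662 c31 c6219 c4379 (k8 c4377 c6060 c5084 c4402 c4401 c4289 c4285 c4374 (k8 c4372 c4281 c4277 c6062 c6237 c2110 c6253 c71 (k8 c760 c800 c850 c1739 c4466 c303 c4418 c6198 k0)))) (by decide +kernel)
def c6255 : PP 8 4 T 0x10102000002000080000000000040000004400000100000000040001000000004000 := rS 0x5415028ce01 (k4 c6060 c5084 c6241 c6254 (k2 c6213 c6212 k0)) (by decide +kernel)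
def c6256 : PP 8 4 T 0x10000001000000080000000100000000400400000100000000080000000040004420 := rS 0x19 (k2 c269 c6215 k0) (by decide +kernel)
def c6257 : PP 8 4 T 0x40000080008000000000401 := rS 0x36960ae1d10270821b (k8 c334 c22 c337 c336 c953 c799 c4476 c4993 (k1 c4731 k0)) (by decide +kernel)
def c6258 : PP 8 4 T 0x10000000002000080000000110020000000400000100040000080001041000004401 := rS 0x11e040e00c322e1988de21f (k8 c276 c5695 c4372 c6257 c6231 c1871 c796 c1953 (k2 c4461 c760 (k1 c6215 k0))) (by decide +kernel)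
def c6259 : PP 8 4 T 0x100040000080000800000000040 := rS 0x2b965341c (k4 c1953 c1952 c1025 c804 (k1 c4476 k0)) (by decide +kernel)
def c6260 : PP 8 4 T 0x10102000002000080000000000040000000400000100040000080001041000004001 := rS 0x4506c8d2715836914780832204e014642f0b81c14a04fab4ca272488c8e2d638a5e267589bcfa41 (k8 c22 c4379 c4378 c4303 c5084 c5695 c4402 c4289 (k8 c4285 c4374 c4372 c4281 c4277 c6062 c6230 c6237 (k8 c2110 c6258 c4 c573 c6259 c6231 c2293 c337 (k8 c336 c2252 c4461 c2974 c886 c423 c303 c6153 (k4 c1067 c338 c4486 c4386 k0))))) (by decide +kernel)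
def c6261 : PP 8 4 T 0x10102000002000080000000000040000004400000100000000000001000000004000 := rS 0x599fcb264399c40a06478256e1c109d4163d2a286222a0f9084a3924834463b7899c025b58b24de7d (k8 c4379 c4378 c4305 c4303 c6157 c6060 c5084 c5695 (k8 c4403 c4372 c4371 c4281 c4279 c6219 c6255 c276 (k8 c6260 c4411 c1734 c6213 c5433 c6212 c1686 c314 (k8 c4466 c5964 c1058 c760 c4462 c6256 c496 c1021 (k4 c4191 c1026 c555 c552 (k1 c5124 k0)))))) (by decide +kernel)
def c6262 : PP 8 4 T 0x2000080000000000000000004480000000001000000000000005404000 := rS 0x19b45271242ac72984ca2f1 (k8 c5695 c4405 c4401 c4290 c4289 c4283 c4281 c6153 (k2 c4396 c1479 (k1 c6180 k0))) (by decide +kernel)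
def c6263 : PP 8 4 T 0x2000080100000000000000004410000100000000000002040000404420 := rS 0xe0936068fc550c844920d238558e13 (k8 c4401 c4289 c4283 c4374 c4371 c4281 c4275 c269 (k4 c266 c2107 c6262 c295 (k2 c2232 c2679 (k1 c4462 k0)))) (by decide +kernel)
def c6264 : PP 8 4 T 0x10100000002000080000000000044000004400000050000000000002040000004008 := rS 0x1951066abe94a067a26128b1293c306a139244647258b58e29288ce26a726ab4a6d1 (k8 c300 c4290 c2046 c4282 c2006 c4441 c62 c4405 (k8 c4402 c4289 c4285 c4375 c4374 c4372 c4281 c4277 (k8 c229 c228 c2140 c224 c564 c4436 c2038 c4579 (k4 c2110 c4485 c4428 c4460 (k2 c6251 c2116 (k1 c5537 k0)))))) (by decide +kernel)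
def c6265 : PP 8 4 T 0x10102000002000080000000000040000004400000100000000040000040000004000 := rS 0x418ca70d8560d1648a7e05154320401a7cca11248348e156384de2672db24fa330b8044230 (k8 c6261 c316 c6060 c1911 c62 c4379 c4305 c6157 (k8 c5084 c5695 c4401 c4289 c4283 c4374 c4371 c4281 (k8 c4275 c6062 c6237 c6264 c4461 c269 c266 c6263 (k8 c2107 c2235 c535 c6262 c4476 c295 c960 c4367 (k2 c1052 c4472 k0))))) (by decide +kernel)
def c6266 : PP 8 4 T 0x10102000002000080000000000040000000000000000042000000000080100000005 := rS 0x23d26562ca5d221d46879727fa127cc465020347e5d3eadd42491d8e416754a8f62267 (k8 c5084 c4411 c5433 c1694 c1686 c6212 c4279 c4403 (k8 c4281 c1734 c5964 c4379 c4377 c4287 c4371 c4461 (k8 c1647 c267 c6237 c5588 c4392 c4394 c6190 c5990 (k8 c10 c1153 c1193 c4726 c4476 c1609 c800 c5931 k0)))) (by decide +kernel)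
def c6267 : PP 8 4 T 0x10102000002000080000000000040000004400000100000000040000000000004000 := rS 0x30d834a8c315130920b448a18350087a54888a8423f298eca2f133804b630 (k8 c6261 c6157 c6060 c5084 c5695 c4405 c4403 c4290 (k8 c4287 c316 c6265 c4411 c6213 c5433 c6266 c229 (k8 c228 c2139 c2141 c3826 c4436 c2038 c4530 c4472 (k4 c4151 c4450 c4459 c2115 k0)))) (by decide +kernel)
def c6268 : PP 8 4 T 0x40000080002000008000000 := rS 0xf46c (k2 c295 c335 (k1 c4270 k0)) (by decide +kernel)
def c6269 : PP 8 4 T 0x10102000002000080000000000040000004400000100000000000000040000004000 := rS 0x1f8aa190200d3e65089241a470ab1c2667649f42e010d908605b (k8 c6157 c6261 c6267 c6268 c6060 c1911 c4379 c4305 (k8 c5084 c4401 c4289 c4283 c4374 c4371 c4281 c4275 (k8 c6062 c6237 c6264 c4461 c269 c266 c2107 c6262 k0))) (by decide +kernel)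
def c6270 : PP 8 4 T 0x10102000002000080000000000040000004400000100000000000000000000004000 := rS 0x159381c4dc24f61f0c1a80a023b884163d2a444541b8c90485131819c025b (k8 c6157 c6060 c5084 c6261 c4441 c6267 c22 c4446 (k8 c6268 c6269 c4411 c6213 c5433 c6212 c314 c1887 (k8 c6266 c29 c229 c228 c2132 c5481 c4436 c3875 (k4 c4466 c5528 c790 c4654 k0)))) (by decide +kernel)
def c6271 : PP 8 4 T 0x400001001000000080000000000000000000500000100840000040000000201000408 := rS 0x2fd76bd4dc50f271379ecee065895d3a094889c5e6d54a14360d (k8 c4371 c423 c6224 c1505 c959 c796 c4277 c886 (k8 c231 c967 c799 c545 c4462 c6033 c4055 c1378 (k8 c496 c501 c5772 c4727 c6133 c4390 c4566 c2122 k0))) (by decide +kernel)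
def c6272 : PP 8 4 T 0x100001000002000080000000000020040000000000000800000000000000020000018 := rS 0x16315031652a29 (k4 c4402 c762 c1026 c791 (k2 c5771 c544 (k1 c5772 k0))) (by decide +kernel)
def c6273 : PP 8 4 T 0x1000000080000000000000000000500000000800000000008000025000411 := rS 0x7158af4f6795dafcde77031653840468246a4b012a50a0d (k8 c4371 c6224 c1505 c4461 c4375 c4373 c1058 c1027 (k8 c953 c952 c1026 c791 c6033 c1377 c1053 c1850 (k4 c1847 c1050 c1174 c544 (k2 c496 c2122 k0)))) (by decide +kernel)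
def c6274 : PP 8 4 T 0x10000000000000000000400100400201401505404000020000000000000000000000 := rS 0x2ece2bd (k4 c6223 c537 c1931 c2122 k0) (by decide +kernel)
def c6275 : PP 8 4 T 0x10101000002000080000000000040000004410000110002000040001041001000410 := rS 0x39c5d288e599e4ee6f3aafcf6b14c020b0571ea75221e0ea6c42a940a9e265e3f0c8bb435027c4e391191c5a3f638a4c25b17ab4ce6d4286c0401788359249 (k8 c4281 c1726 c4371 c5695 c6060 c4461 c423 c6224 (k8 c959 c5084 c6230 c796 c6157 c5402 c4402 c4289 (k8 c4287 c4285 c4374 c4372 c4279 c4277 c6237 c2110 (k8 c4423 c811 c6231 c4483 c4477 c4339 c902 c1462 (k8 c1505 c6271 c862 c6273 c4466 c1153 c1233 c274 (k8 c1066 c223 c222 c433 c545 c4055 c4566 c1686 (k8 c1378 c1112 c541 c1185 c6274 c850 c4418 c1617 (k1 c4481 k0)))))))) (by decide +kernel)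
def c6276 : PP 8 4 T 0x1000002000080000000000008000000000000008840000000000000200000400 := rS 0x2562eb549c50e606588252e91138b47711 (k8 c4414 c4403 c4285 c4277 c886 c926 c231 c545 (k8 c4462 c1021 c5772 c1608 c4389 c4963 c1698 c4487 k0)) (by decide +kernel)
def c6277 : PP 8 4 T 0x1001000000080000000000001000000400000100800000040004000141000011 := rS 0x418caf976bd3dc50f271589bcee56031651a09228706a850d8081a81 (k8 c1382 c4371 c4461 c423 c6224 c4373 c4466 c6169 (k8 c1058 c1027 c1026 c791 c790 c6033 c1377 c544 (k8 c496 c501 c5772 c1227 c6133 c4390 c2122 c4369 (k2 c1053 c4472 k0)))) (by decide +kernel)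
def c6278 : PP 8 4 T 0x1000002000080000014000000000400000000000800000000000041080000018 := rS 0x115389bd68b12c15c7a37488e49235238fd8e3b (k8 c4403 c4289 c4287 c4374 c4373 c4281 c4279 c1153 (k8 c272 c274 c1066 c223 c545 c2113 c1378 c537 (k2 c4389 c4480 k0))) (by decide +kernel)
def c6279 : PP 8 4 T 0x101000002000080000000000040000000420000110040000040001041001000411 := rS 0x4e448661c0f8856e8f5ca04c45e88a7942272488c8e2d638a5e267308bc3602 (k8 c4461 c423 c796 c5402 c5084 c5695 c4402 c4289 (k8 c4285 c4374 c4372 c4281 c4277 c1625 c2110 c4414 (k8 c6233 c4478 c1382 c3362 c3402 c3553 c6276 c6278 (k4 c4466 c6273 c4469 c6277 (k1 c4344 k0))))) (by decide +kernel)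
def c6280 : PP 8 4 T 0x410001000002000080100000000060000004410000100001000040000000201004408 := rS 0x179025d3f044920d238558e1378984025b (k8 c6157 c6060 c5402 c5695 c4401 c4289 c4283 c4374 (k8 c4371 c4281 c4275 c2107 c811 c1462 c4477 c6271 k0)) (by decide +kernel)
def c6281 : PP 8 4 T 0x101000002000080200000100000000000000100000000000000000000000000080 := rS 0x11759c50e63b (k4 c4403 c1021 c5772 c634 (k2 c4963 c4481 k0)) (by decide +kernel)
def c6282 : PP 8 4 T 0x410100000002000080000000000040000004410000110001000040000040201004408 := rS 0xb38bad9291558234b85f3fb20e66f3a9600c5704a446a131d984b6fd5027cce0111b1c4e491691c5225 (k8 c224 c4402 c4374 c4285 c4281 c4277 c4289 c4372 (k8 c6060 c5084 c6237 c2110 c6270 c6157 c5402 c4403 (k8 c4401 c4373 c886 c231 c799 c4462 c4476 c5096 (k8 c1019 c1021 c6280 c126 c546 c4477 c1337 c6281 (k4 c4349 c4551 c5032 c4418 (k2 c1164 c4481 k0)))))) (by decide +kernel)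
def c6283 : PP 8 4 T 0x10101000002000080100000100020000004410000010041000000009400105004411 := rS 0x39c5d288e599e4ea6f3bafcf69804160ae414e81d221e54874bc1640974fc111c9248e151fb1c266101215e20d89a9c4e9b (k8 c862 c4277 c902 c4339 c4371 c5695 c6224 c4461 (k8 c5402 c4401 c4289 c4287 c4283 c4374 c4281 c4279 (k8 c4275 c2107 c811 c1462 c6262 c4477 c6273 c1505 (k8 c4466 c1153 c1098 c1233 c1104 c1066 c223 c222 (k8 c433 c520 c4566 c1832 c1378 c538 c541 c1185 (k4 c6274 c850 c4418 c1617 (k1 c4481 k0))))))) (by decide +kernel)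
def c6284 : PP 8 4 T 0x101000002000080200000100000000000000000008000000000000000020000008 := rS 0x3a8192a29 (k4 c4402 c762 c791 c1688 (k1 c6281 k0)) (by decide +kernel)
def c6285 : PP 8 4 T 0x10100000002000080000000100060000004410000110001000000009000101004410 := rS 0xc560b0ce6793b9d4f69822160ae9d0f07526ab31171665f44b207e612dbf45e6d4586c04017884e269b (k8 c862 c4339 c4401 c5695 c6060 c4461 c423 c5853 (k8 c959 c796 c6270 c6157 c5402 c4287 c6283 c636 (k8 c546 c634 c4477 c810 c3657 c3656 c6284 c4466 (k8 c1233 c1066 c223 c432 c433 c4055 c1689 c1112 (k4 c541 c1109 c1209 c1932 (k2 c1135 c2123 k0)))))) (by decide +kernel)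
def c6286 : PP 8 4 T 0x10100000002000080000000000040000004400000110000000040001040001004410 := rS 0x88599fd86c14b970f6c54e100ac5922870ea770f818e6093cac043131950d40554f9f516271c924464716b1c26291d945e25b7e8bc3625012b4ce01 (k8 c6060 c5084 c6230 c4461 c224 c423 c796 c6270 (k8 c6157 c5695 c4405 c4403 c4402 c4401 c4289 c4285 (k8 c4374 c4372 c4281 c4279 c4277 c5853 c6279 c6237 (k8 c6275 c2110 c4423 c6231 c4339 c6282 c6285 c628 (k8 c1145 c1150 c4462 c222 c6033 c498 c4466 c1220 (k8 c1026 c790 c953 c952 c4530 c1227 c1148 c4584 (k4 c1852 c1213 c1457 c1187 (k2 c2123 c4529 k0)))))))) (by decide +kernel)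
def c6287 : PP 8 4 T 0x101000002000080000000000040000000000000151040040000001441202000400 := rS 0x188f85e4f29942a9528ccda582b89c924d1191c962d638a5e2ad (k8 c6230 c5695 c4402 c4289 c4285 c4375 c4374 c4372 (k8 c4282 c4281 c4277 c799 c4476 c4993 c255 c5936 (k8 c6029 c6231 c4839 c2110 c4532 c6237 c1380 c6276 k0))) (by decide +kernel)
def c6288 : PP 8 4 T 0x8000102000008 := rS 0x70d81f (k4 c2175 c255 c4466 c2963 k0) (by decide +kernel)
def c6289 : PP 8 4 T 0x10100000002000080000000000040000004400000110000000040001040000004410 := rS 0x1f1089e5328552a5198849f090c2b44e492688c8e4b16b1c52f133984b6fd178940401 (k8 c6060 c4461 c224 c796 c6270 c6157 c5402 c5084 (k8 c5695 c4402 c4289 c4285 c4375 c4374 c4372 c4282 (k8 c4281 c4277 c6230 c6286 c4436 c258 c6287 c6288 (k8 c5936 c6029 c6231 c4839 c2110 c5558 c6237 c1502 k0)))) (by decide +kernel)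
def c6290 : PP 8 4 T 0x10101000002000080000000000040000000000000021040000000000041200000400 := rS 0x9e472851ab08aad62c953a9cc0cb32b8252e9113924464716b1c2629 (k8 c4402 c4401 c4289 c4285 c4374 c4372 c4281 c4277 (k8 c886 c926 c231 c799 c553 c4462 c1649 c498 (k8 c1696 c4481 c4419 c4963 c5772 c1116 c4551 c4486 (k2 c2110 c1427 k0)))) (by decide +kernel)
def c6291 : PP 8 4 T 0x10100000002000080000000000000001000000000020000000000000000020000018 := rS 0x22e75599ce28062ca4d1a8f118d4263b (k8 c4403 c4401 c4373 c4372 c760 c1027 c1029 c1026 (k4 c791 c4486 c1648 c552 (k2 c498 c4963 (k1 c4481 k0)))) (by decide +kernel)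
def c6292 : PP 8 4 T 0x100000002000080000004000008010000000000020200000000000040180000018 := rS 0x1d166582b8f52e3f (k8 c4287 c1193 c274 c1066 c223 c553 c5614 c539 k0) (by decide +kernel)
def c6293 : PP 8 4 T 0x1000002000080005000400400000004401140020400000040005400045000008 := rS 0x62914ee7b84225034535a749d1254a944e4d1192c768b09a15e20d (k8 c4371 c5695 c6224 c4401 c5853 c4403 c4375 c4372 (k8 c4282 c4277 c5936 c6029 c4469 c4639 c4343 c4442 (k8 c4396 c1360 c556 c4484 c4319 c4438 c6169 c4530 (k1 c2123 k0)))) (by decide +kernel)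
def c6294 : PP 8 4 T 0x10100000002000080000000000050000004400000100000000040001040001004410 := rS 0x112c5569ecee451930587163c9d566732b018b293048703ea72fa54b87c64add3c11138e4920d1191c2a2d638a4762f31c44fe55109904afd2d985161b01005e213 (k8 c4401 c5695 c6060 c4461 c423 c5853 c5402 c6157 (k8 c6270 c224 c6289 c6290 c1646 c555 c4412 c41 (k8 c796 c4403 c4402 c4289 c4285 c4283 c4374 c4372 (k8 c4371 c4281 c4279 c4277 c4275 c2110 c5964 c1665 (k8 c2107 c1651 c3629 c1380 c813 c6292 c4466 c1058 (k8 c1029 c1026 c791 c790 c1648 c552 c498 c501 (k8 c4481 c4362 c4420 c6293 c1220 c6033 c1227 c942 (k2 c4530 c557 (k1 c2123 k0))))))))) (by decide +kernel)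
def c6295 : PP 8 4 T 0x100001000002000084200000000060000000400000100800000040005041101000011 := rS 0x4ac517a7137ac4b05720a5d22c12787998a665d2d3aac890e47ec7788bc0543 (k8 c4423 c4461 c796 c5695 c4289 c4287 c4279 c4469 (k8 c6231 c4343 c4458 c2027 c900 c901 c6277 c6220 (k8 c3893 c1153 c1193 c1104 c1066 c223 c545 c1378 (k4 c2499 c6133 c4480 c5779 (k1 c5771 k0))))) (by decide +kernel)
def c6296 : PP 8 4 T 0x10100000002000080000000000040000004400000100000000040001040001004410 := rS 0x79389dcde7b58aed7ebd4c160ae9d48b29481e5507536ad53c4c648167b20bca057a15166d138e41a2d09bc43711109904a027e96cc201 (k8 c6060 c5402 c6157 c6270 c4461 c224 c6289 c6290 (k8 c4412 c423 c5695 c4401 c4285 c4371 c4279 c4277 (k8 c959 c5853 c6224 c1776 c6294 c1737 c1736 c3739 (k8 c1382 c6295 c4339 c902 c942 c862 c6273 c6222 (k8 c4466 c1741 c1740 c1153 c1233 c1066 c223 c433 (k8 c1939 c1404 c3845 c545 c4055 c1378 c1112 c2499 (k2 c541 c2122 k0))))))) (by decide +kernel)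
def c6297 : PP 8 4 T 0x10100000002000080000000000040000004400000100000000040001040000004410 := rS 0x324fa842eb2d4cac57aad52a56893e12330c084aa7f320444e49268344647258545ac72984c525178984b6fd178940401 (k8 c6060 c4461 c224 c796 c6270 c6157 c5402 c5695 (k8 c4405 c4402 c4401 c4290 c4289 c4285 c4283 c4375 (k8 c4374 c4372 c4371 c4282 c4281 c4277 c4275 c6289 (k8 c555 c1646 c6290 c6296 c6288 c4436 c258 c260 (k8 c5936 c6029 c5962 c5815 c2112 c4839 c2027 c813 (k4 c5558 c1651 c717 c2107 k0)))))) (by decide +kernel)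
def c6298 : PP 8 4 T 0x101000002000080000000100008041000000000050008000000000000000000000 := rS 0x1b86c718aad47b164a9d4c4b95b9f0bd111c9246a471fb1c7693 (k8 c1070 c4403 c4289 c4287 c4374 c4373 c4281 c4279 (k8 c4414 c6233 c6237 c1667 c1396 c4478 c3620 c803 (k8 c4487 c4416 c4419 c4963 c1419 c2113 c4480 c3359 k0))) (by decide +kernel)
def c6299 : PP 8 4 T 0x10100000002000080000000000041041004400000110008000000001441005004800 := rS 0x171925f2a22550d166a968a4e0b9e59f1853c4c65435027d5a272488c8e1516b1ca6292899cc2017eac4228b09a141a9b4c9dc12f1 (k8 c5695 c31 c6033 c1071 c804 c4371 c6224 c4401 (k8 c5853 c4275 c622 c6270 c6060 c5402 c5084 c4405 (k8 c4402 c4290 c4289 c4285 c4283 c4374 c4372 c4281 (k8 c4277 c6230 c6298 c2110 c4423 c6231 c4339 c902 (k8 c4488 c1795 c4447 c572 c6153 c4396 c1399 c1479 (k8 c5846 c4490 c6175 c2109 c1505 c1726 c4477 c811 k0)))))) (by decide +kernel)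
def c6300 : PP 8 4 T 0x10000000002000080000010000008041000040000021018000000000040000004000 := rS 0x24879175a8de288f469c4b87c5bb242239248346a470a8fd8e131dc44aa95 (k8 c1697 c1646 c4412 c4403 c4401 c4289 c4287 c4283 (k8 c4374 c4373 c4371 c4281 c4279 c4275 c1665 c1667 (k8 c2107 c1651 c3396 c1338 c801 c4486 c4386 c4389 (k4 c4963 c2113 c4487 c1654 k0)))) (by decide +kernel)
def c6301 : PP 8 4 T 0x10100000002000080000000000040000004400000100000000040001040000004010 := rS 0x7ab78b2312715479cd6a375027d72953fc44c89d4ba44ac591006414250d8bc04271c9244635238b47ec7148ecc201 (k8 c6060 c5402 c4403 c4402 c4289 c4287 c4285 c4374 (k8 c4373 c4372 c4281 c4279 c4277 c4461 c796 c423 (k8 c224 c6297 c308 c302 c534 c303 c886 c926 (k8 c967 c6299 c4412 c555 c1697 c5821 c6300 c2110 (k8 c5021 c3638 c3664 c2779 c5771 c1069 c4486 c4487 (k2 c3065 c4416 (k1 c2113 k0))))))) (by decide +kernel)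
def c6302 : PP 8 4 T 0x10100000002000080000000101040000004480000110000000040001040020000420 := rS 0x23c3e23 (k4 c4372 c10 c760 c6193 k0) (by decide +kernel)
def c6303 : PP 8 4 T 0x10100000002000080000000004040000004480000110000000040005442000004400 := rS 0x17ebb5ea34ec7b4795922082c8780e1d37a9d62cc422291309a5a653a1a6844936171c8545a532896c06192a88408a92f174c2fd5699c02a525abde229 (k8 c4402 c5695 c5815 c4375 c5936 c6060 c5084 c6230 (k8 c6270 c5402 c1335 c4477 c1504 c6301 c310 c266 (k8 c269 c29 c6157 c4405 c4290 c4285 c4283 c4279 (k8 c533 c5613 c4469 c2112 c6262 c4343 c4443 c4426 (k8 c4315 c678 c4485 c4235 c725 c2708 c2066 c3457 (k8 c6302 c527 c4466 c4726 c4462 c1153 c4476 c1426 (k4 c1225 c425 c1067 c6223 (k2 c1442 c1093 (k1 c2126 k0))))))))) (by decide +kernel)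
def c6304 : PP 8 4 T 0x210000000000000000010008051101510000400000800000000000000000000000000 := rS 0x184bd60d1230a789a5d26ab (k8 c4415 c4413 c4335 c4442 c2008 c4488 c4490 c4450 (k2 c4454 c2127 (k1 c1167 k0))) (by decide +kernel)
def c6305 : PP 8 4 T 0x210100000002000080000000041140000004480000110004000040001840000004400 := rS 0xc360c48f440848682e6b5b2758ab04da652a06228701258148eca2f12d80cda192a8115a6700a5d26ab (k8 c4415 c4413 c4335 c6060 c5084 c6230 c6301 c266 (k8 c269 c695 c29 c6157 c5695 c4405 c4403 c4402 (k8 c4476 c263 c4726 c3233 c4462 c762 c1032 c765 (k8 c6302 c4530 c785 c675 c6304 c532 c6262 c4315 (k4 c689 c688 c4479 c1852 (k2 c3177 c4553 k0)))))) (by decide +kernel)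
def c6306 : PP 8 4 T 0x10000000000000080000000001001501400400000800000000050044000000000000 := rS 0x5d9157a4f5fc614f131c9346a4b (k8 c4375 c4373 c4282 c4279 c4442 c2008 c4488 c4566 (k4 c4646 c6223 c4363 c4449 (k1 c2114 k0))) (by decide +kernel)
def c6307 : PP 8 4 T 0x10000000000000000000000000000021400080000000048000000000000000000000 := rS 0x22a8d381bce873 (k4 c1617 c803 c1460 c594 (k2 c1067 c4387 (k1 c4486 k0))) (by decide +kernel)
def c6308 : PP 8 4 T 0x210100000002000080000000000040000004480000110000000040005042000004400 := rS 0x4516c8a5cb112ac161af6247622424341735a6482914e8f56a370f07410b347ac40e9b3d9585caf528e49247258fd8e2928bc4b60336864aa042eaa55a6700a5d26ab (k8 c4415 c4413 c4335 c6060 c5084 c6230 c1504 c1335 (k8 c6301 c266 c269 c695 c29 c6157 c5695 c4405 (k8 c4402 c4289 c4287 c4375 c4374 c4281 c4279 c5936 (k8 c5815 c6303 c6305 c1227 c804 c1018 c1148 c800 (k8 c1187 c4462 c6302 c6193 c273 c1434 c2188 c784 (k8 c1153 c3063 c1840 c6306 c532 c6262 c4315 c424 (k8 c425 c4479 c1169 c1209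 c1892 c6307 c4553 c3098 (k4 c1096 c4034 c5935 c4353 k0)))))))) (by decide +kernel)
def c6309 : PP 8 4 T 0x8000000000420 := rS 0x31a83409 (k4 c2402 c430 c431 c4462 (k1 c2528 k0)) (by decide +kernel)
def c6310 : PP 8 4 T 0x100000001000000000000000054000000000000000008044000040401810000000405 := rS 0xc08b30d3ac54da652695228712e58 (k8 c4476 c816 c4726 c3233 c762 c1029 c1032 c765 (k4 c4530 c785 c4958 c4487 (k2 c2127 c4420 k0))) (by decide +kernel)
def c6311 : PP 8 4 T 0x10100000002000080000000000044000004400000110000000040001042000004400 := rS 0x2316d154aa5d223d0f021268f5881caca0314445d433f1f42239248348e151fb1c263b2d80caa21559455e33023c452a95699d925e2e98402fd (k8 c6270 c6060 c5402 c1335 c4477 c546 c5084 c6230 (k8 c1504 c4402 c5695 c6301 c6309 c5815 c4405 c5962 (k8 c310 c266 c29 c6157 c4403 c4401 c4289 c4287 (k8 c4283 c4374 c4371 c4281 c4279 c4275 c1379 c2107 (k8 c4392 c6303 c6308 c4478 c4489 c6310 c1018 c1148 (k8 c800 c1070 c4462 c6193 c2188 c1153 c1193 c6307 (k4 c5771 c5466 c4486 c1117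 k0))))))) (by decide +kernel)
def c6312 : PP 8 4 T 0x900000001000000020000000014000400000000000008044000040400010000000405 := rS 0x182c549a548a1c4b9613a99 (k8 c4443 c4343 c4476 c816 c4726 c3233 c762 c1029 (k2 c4530 c1711 (k1 c6031 k0))) (by decide +kernel)
def c6313 : PP 8 4 T 0x101000002000080000000000008000000000000050108000000000000000000420 := rS 0x974887810b1038e47e03 (k8 c29 c4287 c4279 c1018 c1148 c4462 c262 c1153 (k2 c1193 c6298 k0)) (by decide +kernel)
def c6314 : PP 8 4 T 0x10100000002000080000000000040000004400000110000000040001042000004400 := rS 0xd08926c5e57314453cad1694c76670096dfa03559455e33023c4525d (k8 c1335 c4402 c5695 c6301 c6309 c5815 c4405 c5962 (k8 c29 c6270 c6157 c6060 c5084 c4403 c4290 c4285 (k8 c6230 c6311 c4414 c4478 c6313 c6310 c5613 c4469 (k2 c2112 c6312 k0)))) (by decide +kernel)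
def c6315 : PP 8 4 T 0x1000002000080200000020060000000400000001000000000000000001404000 := rS 0x6a108527a99974b63bc686cf (k8 c1793 c4422 c5695 c4289 c4458 c2027 c900 c6220 (k4 c717 c5558 c6153 c4316 k0)) (by decide +kernel)
def c6316 : PP 8 4 T 0x100000001000000020000000454001500000000000000020000040400010000000405 := rS 0x61b058a934aa5c8a1c (k8 c4726 c3233 c1195 c762 c1029 c4530 c1711 c4958 (k1 c2127 k0)) (by decide +kernel)
def c6317 : PP 8 4 T 0x101000002000080200000400060000004400000120000000040001440000004420 := rS 0x3152ec13b079267b04254ac072ca2a121a27b2e96d056a653b124d85c922d1fb1ca63b30804b6030caaca2af19bc45311a1a259e73 (k8 c3664 c1793 c636 c4422 c4412 c4402 c5695 c6309 (k8 c5815 c4405 c5962 c269 c29 c6157 c6060 c5402 (k8 c4403 c4290 c4289 c4287 c4285 c4281 c533 c5613 (k8 c4469 c4343 c4443 c6315 c2112 c4426 c1750 c6220 (k8 c6153 c4315 c4485 c6316 c526 c4476 c1697 c4462 (k8 c1227 c1069 c262 c425 c1713 c1193 c1095 c6031 k0)))))) (by decide +kernel)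
def c6318 : PP 8 4 T 0x1000002000080200000020060000000400000001000000000000000001004020 := rS 0x58d689 (k4 c636 c2048 c6315 c532 k0) (by decide +kernel)
def c6319 : PP 8 4 T 0x100000001000000000000000454000000000000000000020000040401810000000405 := rS 0x60459869d62a6d32934aa5c8a1c (k8 c4726 c3233 c1195 c762 c1029 c1032 c765 c4530 (k4 c785 c4958 c4487 c2127 (k1 c4420 k0))) (by decide +kernel)
def c6320 : PP 8 4 T 0x10100000002000080000000000040000004400000100000000040001042000004400 := rS 0x2362ab64ba447a1e498212a8f2b01cb2ad171cd66a0641f4ff1132178ba111c9241a470a8fd8e131d984025b7e80c325510aaca2af19811e229 (k8 c4402 c5695 c6301 c6309 c5815 c4405 c5962 c310 (k8 c266 c269 c29 c6270 c6157 c6060 c5402 c4403 (k8 c4401 c4289 c4287 c4283 c4374 c4371 c4281 c4279 (k8 c4275 c1335 c4477 c6314 c4412 c555 c1651 c2107 (k8 c547 c2511 c3664 c6317 c6318 c6319 c526 c4476 (k8 c1426 c1697 c4462 c1069 c262 c2188 c1153 c1193 (k4 c5466 c5771 c1117 c4486 k0))))))) (by decide +kernel)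
def c6321 : PP 8 4 T 0x101000002000080000000000040000000000000110040000040001441000000421 := rS 0xc4572ec453cd050c4936272488c8e2d6394c7603559455e33788a55a67 (k8 c5084 c6230 c4402 c5695 c6309 c5815 c4405 c5962 (k8 c29 c4403 c4290 c4289 c4285 c4374 c4372 c4281 (k8 c4277 c5613 c4469 c6231 c2112 c2110 c4414 c1340 (k2 c6313 c4478 (k1 c6312 k0))))) (by decide +kernel)
def c6322 : PP 8 4 T 0x110000000002000080000000000020055400000000000000000001000000100000000 := rS 0x2362ab6 (k4 c5466 c5771 c1117 c4486 k0) (by decide +kernel)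
def c6323 : PP 8 4 T 0x110101000002000080000000000040000004400000110000000040001041000000420 := rS 0xdb44eecda2af9771446a9d7a852f9c590895c1fd8a745ba502e6b5aa3d9e7da1a81329f20a5d229d1e8dd621e0e82126074d9591662138e49235238545a3f6394c263b3080c325510a9496ab28abc52a919bc446ad338b8b601 (k8 c6060 c6157 c6321 c5084 c6230 c4372 c5695 c6309 (k8 c6029 c4402 c5815 c4405 c5962 c4375 c5936 c310 (k8 c266 c269 c29 c5402 c4403 c4401 c4290 c4289 (k8 c4287 c4285 c4283 c4374 c4373 c4281 c4279 c4277 (k8 c4478 c1769 c6310 c804 c1018 c1070 c4462 c1058 (k8 c262 c1145 c2187 c2188 c784 c1153 c1193 c3063 (k8 c6298 c1840 c2110 c4423 c1625 c1794 c2779 c1707 (k8 c6306 c532 c6322 c1747 c803 c1787 c6307 c2113 (k8 c6057 c4483 c1473 c546 c716 c6133 c4532 c1068 (k8 c4486 c4390 c2126 c4399 c1486 c1094 c5846 c425 (k1 c2109 k0))))))))))) (by decide +kernel)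
def c6324 : PP 8 4 T 0x10100000002000080000000000040000004400000110004000040001040000004400 := rS 0x48c54be8d47ac190060e1d4fe092c0d406a525abd5233788b8b7433ea813f10023f446c7139245a4714894c201 (k8 c6060 c5402 c6320 c4402 c4374 c4285 c4281 c4277 (k8 c4289 c4372 c6270 c6301 c6323 c4414 c2110 c1625 (k8 c4423 c6157 c6321 c5695 c6309 c6029 c5815 c4375 (k8 c5936 c29 c4373 c4476 c263 c6305 c538 c4726 (k8 c4462 c4483 c6281 c760 c1027 c546 c4349 c1156 (k1 c4486 k0)))))) (by decide +kernel)
def c6325 : PP 8 4 T 0x10000000002000080000001054001145404480001500049000001040000001404200 := rS 0x1145b22972c460b0d7a762225434392491c963f63944f69b (k8 c804 c1227 c4405 c4289 c4287 c4375 c4374 c4281 (k8 c4279 c6262 c6307 c424 c425 c1169 c1209 c1892 (k4 c2127 c3098 c1096 c4034 (k2 c5935 c4353 k0)))) (by decide +kernel)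
def c6326 : PP 8 4 T 0x10100000002000080000000000040000004400000110000000040001040000004400 := rS 0xd06686d8a77a29d17c738baed6e8b8a1890abd469714e5f44b20fe1735a656a4148a747a370f074108f5981d3656679f686a04fa4d2f10172b44e392491c2a2d6394c266730804b6fd019b432555292d5651578a44aa919811e223 (k8 c4372 c5695 c6301 c6309 c6029 c6320 c4402 c5815 (k8 c4405 c5962 c4375 c5936 c266 c269 c695 c29 (k8 c6270 c6157 c6060 c5402 c5084 c4401 c4290 c4289 (k8 c4285 c4283 c4374 c4281 c4279 c4277 c6230 c6321 (k8 c6323 c4335 c4413 c4414 c2110 c4423 c1625 c1794 (k8 c6324 c804 c1018 c1187 c2779 c4462 c1058 c262 (k8 c2187 c2188 c784 c1153 c3063 c1707 c1840 c6306 (k8 c532 c6325 c4483 c4529 c546 c4532 c4477 c1068 (k8 c6223 c1498 c810 c4486 c1769 c4353 c4390 c4963 (k8 c1730 c2126 c4481 c4399 c1094 c3726 c425 c1486 (k2 c2109 c5846 k0))))))))))) (by decide +kernel)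
def c6327 : PP 8 4 T 0x10000001000000080000000000000400500400000000204000140005401000000000 := rS 0x1017d195dc517a4e48a9c4e4d1aa9496a911a753312 (k8 c4469 c4443 c4343 c4372 c6029 c4375 c5936 c4373 (k8 c4282 c4277 c813 c808 c4839 c6223 c4486 c1440 (k4 c4539 c2126 c4472 c1053 k0))) (by decide +kernel)
def c6328 : PP 8 4 T 0x10001000002000080000000000040000000400000021100000000005441001004020 := rS 0x158a0641f4bc11248348e156384caa7f (k8 c555 c266 c4401 c4289 c4283 c4374 c4371 c4281 (k4 c4275 c4477 c1651 c2107 (k2 c547 c6231 (k1 c6318 k0)))) (by decide +kernel)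
def c6329 : PP 8 4 T 0x10001000002000080000000000040000000400000120040000040001441000004421 := rS 0x2351e450e15cb0715cadd3ca12e26c4e392488c6a4716b1c523b789840619108ccc711 (k8 c4412 c41 c6309 c310 c269 c29 c5402 c5695 (k8 c4403 c4402 c4289 c4285 c4374 c4373 c4372 c4281 (k8 c4279 c4277 c5613 c6328 c810 c2110 c5964 c3325 (k8 c3396 c5664 c37 c4726 c3233 c760 c1027 c6327 k0)))) (by decide +kernel)
def c6330 : PP 8 4 T 0x1000000000000800000000000000000000000000000140010000000000000 := rS 0x8319 (k2 c4369 c1053 (k1 c4472 k0)) (by decide +kernel)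
def c6331 : PP 8 4 T 0x10000000000000000000400001101500500400000000204000000000000000000000 := rS 0xba5ec5122a7 (k4 c813 c808 c4486 c6223 (k2 c2126 c4390 k0)) (by decide +kernel)
def c6332 : PP 8 4 T 0x10001000002000080000000000040000000400000020045000040001800001004421 := rS 0x2b566a0641f4bc5d5fa75369946a3c8a1c2c044920d1a91c2ac7098ecc2035292d5651578a552337888e227f (k8 c555 c4412 c4372 c5695 c6309 c6029 c4402 c5815 (k8 c4405 c5962 c4375 c5936 c29 c5402 c4403 c4401 (k8 c4289 c4283 c4374 c4373 c4371 c4281 c4275 c4476 (k8 c4726 c3233 c760 c1027 c1032 c765 c785 c6330 (k8 c6331 c4477 c1651 c2107 c547 c2511 c6318 c6319 k0))))) (by decide +kernel)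
def c6333 : PP 8 4 T 0x10100000002000080000000000040000004400000100000000040001040000004400 := rS 0x24d1e735027d7297488f43c084a81cb256171fe22633209442271c9244647168fd8e2930804b6fd01864aa04 (k8 c6301 c266 c269 c29 c6270 c6157 c6060 c5402 (k8 c4402 c4289 c4287 c4285 c4374 c4372 c4281 c4279 (k8 c4277 c310 c6320 c6326 c41 c4412 c555 c6329 (k8 c6332 c37 c1018 c802 c4462 c262 c2188 c1153 (k8 c1193 c5821 c6300 c2110 c3664 c2779 c1069 c6322 k0))))) (by decide +kernel)
def c6334 : PP 8 4 T 0x1000000000000000000100000000000000000000844000000000002000000800 := rS 0x1b450e220379611e1f (k8 c271 c1424 c4476 c1378 c535 c537 c4480 c312 (k1 c4386 k0)) (by decide +kernel)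
def c6335 : PP 8 4 T 0x900100000000000000011000414000514000000000050000000000000000000000000 := rS 0x258c49d (k4 c4343 c4478 c6031 c817 k0) (by decide +kernel)
def c6336 : PP 8 4 T 0x100000002000080010400511000514504400000050801000100005440001404000 := rS 0x178b7539d198cf452ed13095a86a867e3eb093e9788306969d684495eab52844920d2392c2a2d6394c262928bc5926f (k8 c1377 c546 c5695 c4405 c4402 c4401 c4290 c4289 (k8 c4285 c4283 c4375 c4374 c4371 c4281 c4275 c5936 (k8 c5962 c5815 c4469 c2112 c4343 c4426 c1711 c6335 (k8 c4335 c4414 c4553 c1379 c2107 c4392 c6262 c1434 (k8 c4315 c678 c2061 c4485 c1522 c725 c6248 c2066 (k2 c1744 c6200 (k1 c2069 k0))))))) (by decide +kernel)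
def c6337 : PP 8 4 T 0x10100000002000080000000000040000004400000110000000040001442000004000 := rS 0xa2a16124e3506864bf62915329546871269b10959025e47aa4ba35148ede2617e80c32555884566150f828b6ad338042e04 (k8 c6301 c533 c6060 c5084 c6230 c6157 c6333 c271 (k8 c4283 c662 c4275 c622 c266 c269 c29 c6270 (k8 c5402 c5695 c4403 c4402 c4373 c1335 c1504 c1424 (k8 c4477 c1382 c6334 c798 c804 c1070 c4466 c1027 (k8 c762 c1032 c1220 c4530 c6330 c6336 c430 c431 (k4 c434 c4315 c563 c4396 (k1 c4484 k0))))))) (by decide +kernel)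
def c6338 : PP 8 4 T 0x101000002000080000400100040000004404000110020000000005441000400000 := rS 0x2ea28bd38a3d0a81379f0bc5d3ca78d6a113924464716b1c52f15699c0277 (k8 c1112 c6060 c5084 c6230 c5695 c4402 c4289 c4285 (k8 c4374 c4372 c4281 c4277 c6231 c6097 c2110 c540 (k8 c1340 c6233 c6237 c1108 c1382 c1502 c3402 c537 (k4 c6133 c4480 c2122 c4390 k0)))) (by decide +kernel)
def c6339 : PP 8 4 T 0x10101000002000080000000000040000004400000110020000040001441000000820 := rS 0x5e23d96b74f28556b58898924b93933586cf57b05774a8c22cf289849a834a7898c97ec522a4440773a89c92231a91c5ac7148ede27b5884566155699c0217 (k8 c533 c6060 c5084 c6230 c4283 c662 c4275 c622 (k8 c703 c5695 c4403 c4402 c4289 c4285 c4374 c4373 (k8 c4372 c4281 c4277 c538 c1112 c535 c1155 c2408 (k8 c4530 c6330 c6338 c4339 c902 c430 c431 c4315 (k8 c678 c599 c564 c4482 c4485 c4449 c4450 c4428 (k8 c4430 c4459 c4460 c2123 c3118 c1109 c1110 c4413 (k8 c3551 c1612 c6251 c2110 c1667 c1668 c1427 c2129 (k1 c6223 k0)))))))) (by decide +kernel)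
def c6340 : PP 8 4 T 0x100000002000080010400510040514504400000050001000100005441001404000 := rS 0x4f17d42a913924464716b1c52f1 (k8 c5695 c4402 c4289 c4285 c4374 c4372 c4281 c4277 (k4 c6029 c6231 c6336 c2110 (k1 c6233 k0))) (by decide +kernel)
def c6341 : PP 8 4 T 0x10100000002000080000000000040000004400000110000000040001440000004000 := rS 0x464ee7984a70d41a192fd8a454ca551a8f0e24d36212b1644a17118d4523b78bf43255021ed6211598543e0a2dab4ce01 (k8 c6060 c5084 c6230 c6157 c6333 c271 c4283 c662 (k8 c4275 c622 c703 c6301 c266 c269 c6270 c5695 (k8 c4403 c4402 c4373 c4372 c533 c6337 c6339 c4476 (k8 c311 c804 c1070 c4466 c760 c1027 c762 c1032 (k8 c1220 c4530 c6330 c6340 c430 c431 c952 c4315 (k4 c599 c1920 c4367 c4482 k0)))))) (by decide +kernel)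
def c6342 : PP 8 4 T 0x100100000000000000010000454001514000000000050000000000000000000000000 := rS 0xc161c592e62 (k4 c4478 c817 c4487 c4958 (k2 c4420 c2127 k0)) (by decide +kernel)
def c6343 : PP 8 4 T 0x1000000000000000000000100000000000000000000000005000000800820 := rS 0x806a (k2 c532 c573 (k1 c6183 k0)) (by decide +kernel)
def c6344 : PP 8 4 T 0x400000000000000100000002000084010000454001554004400104000000000000000000001404000 := rS 0x39c5d80c3 (k4 c6248 c2127 c4420 c1620 (k1 c4481 k0)) (by decide +kernel)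
def c6345 : PP 8 4 T 0x10100000002000080010000000041000004400000110001000000000802001404800 := rS 0x115489c16f173a33d121aa19f8fa9f4bc40de9546871269b10959925e47974920d1a91d8e1330bf56211598555a6700abc52ab28a643e5b (k8 c6157 c271 c1841 c4405 c1844 c4402 c788 c6060 (k8 c5084 c6230 c4283 c662 c4275 c622 c6270 c5402 (k8 c4401 c4289 c4374 c4373 c4371 c4281 c1335 c1424 (k8 c4477 c546 c6334 c2777 c804 c1070 c4466 c1027 (k8 c762 c1377 c6342 c4335 c4414 c1379 c2107 c4392 (k8 c6262 c678 c1522 c6344 c4417 c1744 c594 c5095 (k2 c4387 c4486 k0))))))) (by decide +kernel)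
def c6346 : PP 8 4 T 0x1000000000000000100000002000080000450500000800400405400010020000000000040200004105 := rS 0x24879175a8dd6f14372f4e239248d48e3f6384c767542a061119 (k8 c4448 c4482 c4439 c4321 c538 c4403 c4401 c4289 (k8 c4287 c4374 c4373 c4281 c4279 c537 c2019 c2122 (k8 c4493 c3115 c1343 c1348 c4963 c2113 c6198 c1654 k0))) (by decide +kernel)
def c6347 : PP 8 4 T 0x101000002000080000400000040000004404000110021000000000840001404804 := rS 0x3eb24bc7037c551d455c938fe1b84465769a201e440773a9241a4725b1c26f10096c12b108acc2a6b (k8 c1838 c4283 c662 c4275 c622 c31 c6157 c6060 (k8 c5695 c4401 c4289 c4375 c4374 c4371 c4281 c538 (k8 c1112 c535 c540 c837 c836 c1850 c4448 c4482 (k8 c4315 c6262 c6153 c5280 c4396 c6346 c4388 c1346 (k4 c4480 c536 c2499 c3402 (k1 c2107 k0)))))) (by decide +kernel)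
def c6348 : PP 8 4 T 0x10001000000000000000400101101500500000000101400000000000000000000000 := rS 0x176bd8a244b8a7 (k4 c4532 c4477 c809 c4486 (k2 c6223 c4390 (k1 c2126 k0))) (by decide +kernel)
def c6349 : PP 8 4 T 0x10100000002000080000000000040000004400000110000000040001040000004000 := rS 0x8aa44e0b78b9d0fc6f649799e7da1a813e97882551a8f0e24d36212b1644abf629153a6b0ba6556af54a94662e5689c920d118d48e4b16b1c26291d945e26730805fa0336864aa043dac422b30a87c145b (k8 c6157 c6333 c271 c4283 c662 c4275 c622 c703 (k8 c6301 c266 c269 c695 c29 c6270 c6060 c5402 (k8 c5084 c5695 c4405 c4403 c4402 c4401 c4289 c4285 (k8 c4375 c4374 c4373 c4372 c4371 c4281 c4277 c6230 (k8 c6341 c17 c1842 c786 c788 c1844 c1841 c6343 (k8 c1838 c6247 c6169 c4530 c6330 c6345 c6347 c4476 (k8 c311 c804 c1070 c4466 c760 c1027 c762 c6342 (k8 c4335 c4414 c2110 c4423 c1625 c1794 c6348 c546 (k8 c1377 c2107 c6344 c4417 c1744 c594 c5095 c4387 (k1 c4486 k0)))))))))) (by decide +kernel)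
def c6350 : PP 8 4 T 0x10001000000000000000000100000000000000000001044000000000002000004800 := rS 0xbe5d (k2 c1335 c6334 (k1 c4477 k0)) (by decide +kernel)
def c6351 : PP 8 4 T 0x10001000002000080010000400040000004404040120020000100005441040404020 := rS 0xc06830cea1b45a56107c40d153c4e50a154e7944970d69954a944e492688c8e4b0a8b58e53098a4a2f130804325531c44ee97 (k8 c1195 c1112 c4412 c41 c266 c269 c6060 c5402 (k8 c5695 c4405 c4402 c4401 c4290 c4289 c4285 c4283 (k8 c4375 c4374 c4372 c4282 c4281 c4277 c5936 c6029 (k8 c6171 c6097 c6328 c556 c540 c813 c1498 c810 (k8 c4839 c2110 c4396 c1359 c1339 c4484 c3629 c1773 (k4 c4315 c539 c4958 c2109 (k2 c2123 c1711 k0))))))) (by decide +kernel)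
def c6352 : PP 8 4 T 0x400000000000000000011000410000000004025440820060000000000000000000000 := rS 0x1d516c34aabe2289 (k8 c557 c4412 c3715 c3629 c5849 c565 c539 c2123 k0) (by decide +kernel)
def c6353 : PP 8 4 T 0x10000000000000000000440100400000401505404000020000000000000000000000 := rS 0x2f4e291 (k4 c1155 c537 c6223 c2122 k0) (by decide +kernel)
def c6354 : PP 8 4 T 0x10000000002000080010400500040000004404000120004000100008041000004020 := rS 0x1c51c6f4097940854fb20fac15dc60f309350695aa7898444e490688c8e1516b1c262930804aa7f399dcb05b (k8 c6157 c4476 c1112 c1649 c555 c266 c6060 c5402 (k8 c4402 c4401 c4289 c4285 c4283 c4374 c4372 c4371 (k8 c4281 c4277 c4275 c4339 c902 c942 c430 c431 (k8 c4315 c599 c4482 c4449 c4450 c6352 c2107 c1665 (k8 c2534 c2110 c1737 c1382 c1378 c6353 c2499 c1425 k0))))) (by decide +kernel)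
def c6355 : PP 8 4 T 0x1000000000000010101000002000080000440400040800000000040121400000000000041000000000 := rS 0xeb175a9f2289e5ea84b8a713924464716b1c5319 (k8 c4448 c4402 c4289 c4285 c4374 c4372 c4281 c4277 (k8 c4532 c4477 c1737 c2018 c2110 c4493 c1339 c4389 (k2 c4963 c1690 (k1 c4481 k0)))) (by decide +kernel)
def c6356 : PP 8 4 T 0x10100000002000080000000000040000004400000100004000040001040000004000 := rS 0x19f43641f4bccda2b409c8b0dc2232bb4d100f289171ac66255fb148a17101dce658248346a4725b1ca6131d945e26100bf43255021ed6211598543e0a2d98cfe64 (k8 c6349 c555 c41 c6157 c6333 c271 c4283 c662 (k8 c4275 c622 c703 c6301 c266 c269 c6270 c6060 (k8 c5402 c5695 c4405 c4403 c4401 c4290 c4289 c4375 (k8 c4374 c4373 c4371 c4281 c4476 c1649 c1112 c535 (k8 c2497 c2408 c4530 c6330 c6350 c6354 c6097 c6351 (k8 c556 c540 c837 c836 c1850 c4448 c4482 c4315 (k8 c4322 c6153 c2109 c4396 c1479 c6355 c1380 c2107 (k2 c4422 c1793 (k1 c5846 k0))))))))) (by decide +kernel)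
def c6357 : PP 8 4 T 0x1000000000000200000100060080000000004000000000000000000000000000 := rS 0x8a9c520b7 (k4 c1166 c898 c587 c4351 (k1 c4480 k0)) (by decide +kernel)
def c6358 : PP 8 4 T 0x10001000002000080000000100040014100000000021101000000000000000004000 := rS 0x1c0eb158b25d40c8379f4bc11248348e156384e227f (k8 c555 c4412 c4401 c4289 c4283 c4374 c4371 c4281 (k8 c4275 c4477 c1651 c1377 c2107 c547 c6357 c4487 (k4 c5771 c4417 c4480 c586 k0))) (by decide +kernel)
def c6359 : PP 8 4 T 0x10100000002000080000000000040000004400000100000000040001040000004000 := rS 0xea7c8bad53d1450a444a5c39a4d1a8f0e2544256319903eb358828aa03020444e49118d48e1516b1c523b30804b6fd (k8 c6270 c6157 c6060 c5402 c4403 c4402 c4289 c4285 (k8 c4283 c4374 c4373 c4372 c4281 c4277 c4275 c6301 (k8 c29 c266 c6333 c622 c662 c271 c6349 c41 (k8 c6356 c798 c802 c4466 c760 c1027 c1029 c1648 (k8 c6358 c1335 c809 c810 c4486 c2110 c4389 c4963 (k2 c1339 c1690 (k1 c4481 k0))))))) (by decide +kernel)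
def c6360 : PP 8 4 T 0x2000080000000010040040000000000100000000080005040000004008 := rS 0x4452a938ba79883c50b404a2f13924464716b1ca6ab28abde229 (k8 c4402 c5695 c5815 c4405 c5962 c4290 c4289 c4285 (k8 c4374 c4372 c4281 c4277 c796 c224 c2112 c6231 (k8 c340 c341 c2110 c4416 c1654 c1786 c4414 c4487 k0))) (by decide +kernel)
def c6361 : PP 8 4 T 0x10000001000000080000000000000000000400000100020000080000000040004405 := rS 0xbf272c02e8f3c86438041186c0c09 (k8 c1105 c4462 c334 c4372 c4461 c4726 c269 c2485 (k4 c760 c1950 c6256 c6153 (k2 c1243 c339 k0))) (by decide +kernel)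
def c6362 : PP 8 4 T 0x10101000002000080000000000040000000400000100044000080001040000004401 := rS 0x158654b8803a25011605af1339843e33 (k8 c6257 c276 c5402 c5084 c5695 c4285 c4476 c6361 (k4 c224 c790 c4466 c926 (k2 c6290 c6360 (k1 c6230 k0)))) (by decide +kernel)
def c6363 : PP 8 4 T 0x2000080000000010040000000000000100000000080005440000004008 := rS 0x18ad04b0b4a6ab28abde229 (k8 c4402 c5695 c5815 c4405 c5962 c4290 c4285 c6360 (k2 c2112 c1253 (k1 c341 k0))) (by decide +kernel)
def c6364 : PP 8 4 T 0x10100000002000080000000000040000004400000100000000000001040000004400 := rS 0x163c93d60195fc5610904499296ac458080a75031ad3a09890705e214d9ecb256199dc36137899c025b7ec643e42 (k8 c6359 c276 c4446 c6270 c6157 c6060 c5084 c5695 (k8 c4401 c334 c1887 c6257 c6362 c37 c1227 c804 (k8 c799 c1952 c4466 c4469 c1058 c4343 c4442 c4462 (k8 c498 c526 c1018 c4632 c6363 c4458 c6230 c556 (k8 c6291 c4485 c4351 c1244 c4436 c5772 c339 c628 (k2 c6153 c1950 k0)))))) (by decide +kernel)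
def c6365 : PP 8 4 T 0x10100000002000080000000000040000004400000100004000000001040000004000 := rS 0x22d143a9cce26f329e91e5d0d2989ea9528cc3291021dc4a581388c96f130805fabd26ac422b30a85c822f03828845b (k8 c6157 c6359 c6364 c4 c6259 c22 c573 c4283 (k8 c662 c4275 c622 c4282 c2014 c6270 c6060 c5402 (k8 c5695 c4375 c4372 c4277 c4476 c6350 c1112 c534 (k8 c1155 c309 c2293 c5936 c6029 c5807 c4839 c6153 (k8 c813 c853 c335 c6328 c1108 c537 c1231 c538 (k2 c4480 c4481 (k1 c4963 k0))))))) (by decide +kernel)
def c6366 : PP 8 4 T 0x10000000002000080000000010040400000400000100000000080001440004004808 := rS 0x8f8aa357c365293922194e080642513bc42e41 (k8 c22 c573 c5695 c4277 c224 c6363 c302 c337 (k8 c2252 c886 c6153 c1399 c338 c339 c1237 c4386 (k2 c1516 c4486 k0))) (by decide +kernel)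
def c6367 : PP 8 4 T 0x10000001000000080000000000000000000400000100008000080001400000404005 := rS 0x2462a9d5f0d91a8f8913838330c88408231a87c367b (k8 c1227 c335 c276 c4373 c4372 c4461 c798 c269 (k8 c2293 c4466 c6153 c4469 c760 c1027 c338 c339 (k4 c4343 c4386 c1244 c4486 k0))) (by decide +kernel)
def c6368 : PP 8 4 T 0x10100000002000080000000000040000004400000100000000000001040000004000 := rS 0x84644268aa00c2054c9f3f93e24a55ca54c8cb548ce229748ab040250106d367b2c9585e170382882420889c924d1191c962d638a5e26730804b6fd (k8 c6270 c6157 c6060 c5402 c5084 c5695 c4402 c4289 (k8 c4285 c4375 c4374 c4372 c4282 c4281 c4277 c4275 (k8 c6359 c22 c6364 c4 c573 c6259 c6365 c37 (k8 c1227 c804 c335 c6367 c224 c302 c6366 c886 (k8 c926 c4338 c942 c948 c2027 c6230 c2783 c5821 (k8 c5936 c4469 c5807 c555 c6300 c4839 c4556 c6153 (k4 c2110 c4453 c4436 c1736 (k2 c4484 c717 k0)))))))) (by decide +kernel)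
def c6369 : PP 8 4 T 0x100001000000000000000000000000004000000150044000040401090000000401 := rS 0x60b1587164e915369949a56242f5587066624bab4a803024455e58 (k8 c4476 c1775 c4411 c4191 c227 c4904 c6230 c1196 (k8 c4478 c2404 c4726 c1612 c6310 c4469 c762 c1029 (k8 c1032 c765 c3233 c4343 c4487 c4958 c4530 c4420 (k1 c4553 k0)))) (by decide +kernel)
def c6370 : PP 8 4 T 0x10100000002000080000000000040000000000040020020000000000080000004011 := rS 0x22cb45cacc6e975b87842751ea54a8250e8087235238fd8e3b33c454249 (k8 c4281 c1734 c4411 c5084 c4403 c4289 c4287 c4374 (k8 c4373 c4279 c4461 c1026 c224 c226 c3628 c5433 (k8 c539 c314 c4466 c5964 c1193 c272 c553 c5821 (k2 c2113 c4481 (k1 c4419 k0))))) (by decide +kernel)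
def c6371 : PP 8 4 T 0x10001000002000080000000000010000000040000021101000000000000000004000 := rS 0x1927d2f044920d238558e13 (k8 c4401 c4289 c4283 c4374 c4371 c4281 c4275 c4477 (k2 c1651 c547 (k1 c2107 k0))) (by decide +kernel)
def c6372 : PP 8 4 T 0x10100000002000080000000000040000004400000100004000040001000000004400 := rS 0x94665c22a6d1a8f17870aa1901810e67f31990b0231a8a476f133984025b7ea845449 (k8 c4281 c6368 c1734 c6270 c6157 c6060 c5402 c5084 (k8 c5695 c4403 c4402 c4373 c4372 c4476 c6369 c41 (k8 c555 c1649 c6370 c29 c269 c267 c4726 c6332 (k8 c760 c1027 c765 c3233 c6371 c6309 c1335 c6327 k0)))) (by decide +kernel)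
def c6373 : PP 8 4 T 0x100000002000080000004000040000000000000010008000000000080000000401 := rS 0x2d22cb94b8dc3c95040f40e932a01072491a91c7ec71d99e2259 (k8 c37 c4411 c5084 c4403 c4289 c4287 c4374 c4373 (k8 c4281 c4279 c4191 c4904 c1070 c526 c5433 c4462 (k8 c1694 c262 c2187 c1193 c5821 c4487 c2113 c4419 k0))) (by decide +kernel)
def c6374 : PP 8 4 T 0x1000002000080005000400400000004401140020400000040005400044004008 := rS 0x9c1854a944e4d1192de225 (k8 c224 c5695 c4375 c4372 c4282 c4277 c5936 c6029 (k2 c6293 c4839 (k1 c258 k0))) (by decide +kernel)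
def c6375 : PP 8 4 T 0x10101000002000080000000000000000004400000120008000040001080100004011 := rS 0x1dd16890caa95a325397cb8c161ac22d153c9cceac54801926091e91438540d8bc3e02168ede267889ed6659 (k8 c37 c552 c1227 c4411 c5084 c5695 c4403 c4285 (k8 c4461 c1066 c796 c423 c226 c4466 c1220 c5433 (k8 c1058 c1029 c791 c6291 c4530 c1686 c1648 c501 (k8 c4351 c4481 c5772 c4362 c4420 c1148 c544 c813 (k8 c6374 c942 c437 c2177 c557 c3603 c6033 c2123 k0))))) (by decide +kernel)
def c6376 : PP 8 4 T 0x10100000002000080000000000040000004400000100000000040001000000004400 := rS 0x3e27d92705ca5c3c082e01caa044a9fcc6645b884b256088e41a470a8fd8e131d98402fd88a845449 (k8 c4281 c6368 c1734 c4411 c6270 c6060 c5402 c4403 (k8 c4401 c4289 c4287 c4283 c4374 c4371 c4279 c4275 (k8 c6372 c37 c799 c5964 c6373 c41 c555 c1697 (k8 c6375 c267 c526 c6371 c4462 c262 c1193 c5821 (k4 c5664 c587 c3396 c2107 (k1 c1650 k0)))))) (by decide +kernel)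
def c6377 : PP 8 4 T 0x10100000002000080000000000040000000400000100020000080000080040004401 := rS 0x399900a060102476f1 (k8 c5695 c4403 c1105 c6361 c4462 c29 c227 c1021 (k1 c6370 k0)) (by decide +kernel)
def c6378 : PP 8 4 T 0x10100000002000080000000000040000004400000100000000000001000000004400 := rS 0x298b84f582fe2a254845804053a9cc0cb34ea4c1264890716e2f10a6cac5954a94661f2109c724d1192c263b78804b6fd88a845449 (k8 c4281 c6368 c1734 c4411 c6270 c6157 c6060 c5695 (k8 c4403 c4401 c4375 c4372 c4282 c4279 c4277 c6376 (k8 c276 c2295 c5936 c6029 c6377 c4476 c804 c799 (k8 c1952 c5964 c4466 c4469 c6373 c1058 c1029 c4343 (k8 c552 c4462 c1648 c498 c526 c1018 c4481 c6291 (k8 c224 c4963 c1244 c5772 c339 c1148 c4839 c813 k0)))))) (by decide +kernel)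
def c6379 : PP 8 4 T 0x100000000000000000000400000000000000000020044000000000080000000800 := rS 0x1e458ea20399612a1f (k8 c271 c1695 c4476 c1649 c535 c539 c4481 c314 (k1 c4416 k0)) (by decide +kernel)
def c6380 : PP 8 4 T 0x10100000002000080000000000040000004400000100000000000001000000004000 := rS 0x2869f641f4e9175a9ce2893478711a212b244be5c3f990aa030facd620a508a822490688c8e156384c766730804b6fd (k8 c6270 c6157 c6060 c5402 c5084 c4403 c4401 c4289 (k8 c4283 c4374 c4372 c4371 c4281 c4275 c6368 c1734 (k8 c6378 c622 c662 c271 c2244 c6212 c4904 c555 (k8 c6371 c39 c809 c6379 c798 c1068 c4466 c760 (k8 c1029 c4486 c1648 c4389 c4963 c4481 c1690 c2107 (k2 c1339 c4422 (k1 c5588 k0))))))) (by decide +kernel)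
def c6381 : PP 8 4 T 0x10101000002000080000000000040000004400000010020000000002040100004011 := rS 0x11eb95b9f0bc1e4f0943a021c8ecce97 (k8 c1196 c5084 c4403 c4279 c4461 c1026 c224 c6264 (k4 c4466 c6233 c6237 c5142 (k2 c1396 c3402 (k1 c6278 k0)))) (by decide +kernel)
def c6382 : PP 8 4 T 0x10001001000000080000000000000000000400000001000000000002000005404000 := rS 0x174be24541390a0d (k8 c4371 c6224 c6153 c299 c298 c1505 c1335 c4477 k0) (by decide +kernel)
def c6383 : PP 8 4 T 0x10100000002000080000000000040000004400000100004000000000040000004400 := rS 0x190843eaf166374b9ccaa7f0f19042c16290e30794e8948a9b3d874046a2093c0b090c06cee6d2c044920d238547ec7098ede2612dbf6261700ab46053 (k8 c4290 c6380 c2046 c6060 c1911 c4441 c6270 c6157 (k8 c5402 c5695 c4403 c4401 c4289 c4287 c4283 c4374 (k8 c4371 c4281 c4275 c4476 c4993 c1112 c295 c6382 (k8 c4436 c269 c258 c1872 c4479 c4461 c1026 c5481 (k8 c3875 c2139 c224 c4731 c541 c5528 c4446 c4530 (k8 c4450 c316 c6381 c4466 c555 c1646 c1649 c1193 (k4 c272 c553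 c6022 c6352 (k2 c5529 c2107 (k1 c2534 k0))))))))) (by decide +kernel)
def c6384 : PP 8 4 T 0x10100000002000080000000000040000004400000050000000000002040000004008 := rS 0xcea5335968984a2d3c4f0c1a8924725b1ca2a726ab4a6d1 (k8 c300 c4290 c2046 c4282 c2006 c4405 c4289 c4375 (k8 c4374 c4281 c229 c228 c2140 c6264 c564 c4436 (k4 c2038 c1669 c1398 c4485 (k2 c2116 c4430 k0)))) (by decide +kernel)
def c6385 : PP 8 4 T 0x10001001000000080000000000000000000400000100008000000002000000004405 := rS 0x68101903810c217 (k8 c1911 c5402 c4461 c1018 c269 c4462 c6382 c2232 k0) (by decide +kernel)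
def c6386 : PP 8 4 T 0x10100000002000080000000000040000004400000100000000000000040000004400 := rS 0x1eb0d824362c5a3075399e4ee064982532b30e42482640f914306a01084f6592b3447e53098eca2f133805fa30 (k8 c6380 c6270 c6060 c5084 c5695 c4405 c4403 c4401 (k8 c4290 c4287 c300 c6383 c37 c1227 c799 c6385 (k8 c229 c228 c2139 c223 c6384 c3826 c4436 c4466 (k8 c552 c1031 c1058 c1029 c791 c1920 c1959 c1648 (k8 c498 c4482 c4481 c4370 c4446 c4450 c4362 c4416 (k1 c2115 k0)))))) (by decide +kernel)
def c6387 : PP 8 4 T 0x10101001000000080000000000000000004400000151000000000002080000404000 := rS 0xd864a804 (k4 c4191 c4904 c269 c429 (k1 c6382 k0)) (by decide +kernel)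
def c6388 : PP 8 4 T 0x10101000002000080000000000040000000400000120044000000002080000004001 := rS 0x190d810da732c3c4c217 (k8 c1911 c5402 c5695 c4476 c1649 c4993 c6370 c295 (k2 c269 c6382 k0)) (by decide +kernel)
def c6389 : PP 8 4 T 0x10100000002000080000000000040000004400000100000000000000000000004400 := rS 0x8c300e67961b14ee93049d694990e0f517092087ca8d10c1a96602109ecb2564498cc911150ede2673096dfa1700ab46053 (k8 c4290 c6380 c2046 c6060 c1911 c6270 c6157 c5402 (k8 c5084 c5695 c4403 c6386 c4411 c6387 c41 c557 (k8 c6388 c37 c1227 c799 c6385 c1188 c229 c228 (k8 c2141 c226 c223 c3826 c4436 c1766 c5433 c4466 (k8 c1031 c4151 c1686 c1058 c1029 c1920 c4429 c4459 (k4 c1959 c1648 c2123 c4482 (k1 c4450 k0))))))) (by decide +kernel)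
def c6390 : PP 8 4 T 0x10100000002000080000000000040000004400000100000000000000000000004000 := rS 0x418ca70ac59219b0341902114060a0b8cc60fd78984025b (k8 c6157 c6060 c5402 c5695 c6270 c6380 c62 c1911 (k8 c6389 c2245 c2235 c4461 c269 c6382 c295 c6268 (k4 c4993 c4476 c960 c4367 (k2 c1052 c4472 k0)))) (by decide +kernel)
def c6391 : PP 8 4 T 0x10100000002000080000000000040000000000100051040000000000040200008408 := rS 0xb38bae5288e8aac11ac8501ccde5c4f8940c5f04a444e49118d48e2d638a476fd (k8 c4376 c4403 c4402 c4289 c4285 c4374 c4373 c4372 (k8 c4281 c4277 c886 c231 c5471 c4462 c225 c6233 (k8 c4477 c1019 c1021 c2110 c811 c1337 c6281 c4349 (k4 c4486 c4551 c1475 c4418 (k2 c635 c4481 k0))))) (by decide +kernel)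
def c6392 : PP 8 4 T 0x8000001000002000080000010100000000000000010000020000001040000000000000 := rS 0x1b96d155a8e49235238fd8e3b (k8 c4403 c4289 c4287 c4374 c4373 c4281 c4279 c4419 (k4 c4963 c2113 c4480 c3115 k0)) (by decide +kernel)
def c6393 : PP 8 4 T 0x10100000002000080000000000040000000000000010060000000000040000008411 := rS 0xc95b18924728bae4e2b3588dc103d0f0843a021c8fcce617e9fd8e75 (k8 c538 c4289 c1455 c4376 c5402 c5084 c4287 c4279 (k8 c4461 c1026 c6391 c4466 c274 c222 c2130 c1145 (k8 c1185 c1415 c5280 c6392 c4481 c1109 c1110 c6043 (k2 c3656 c5279 k0)))) (by decide +kernel)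
def c6394 : PP 8 4 T 0x10100000002000080000000000040000000000000010044000000000040000008401 := rS 0x1f686b850b256eb18a1bd269546a3d229f03070b809018112e752c08c6a291dbf4fec7 (k8 c4289 c1455 c4376 c4403 c4402 c4373 c4372 c4476 (k8 c538 c1196 c6393 c29 c263 c265 c4726 c4462 (k8 c1340 c808 c760 c1027 c762 c1029 c3007 c4486 (k8 c4349 c4353 c6281 c811 c5931 c4394 c1355 c4483 k0)))) (by decide +kernel)
def c6395 : PP 8 4 T 0x1000000000000000000000000000200000000000004000000000005000000 := rS 0x2f09 (k2 c4439 c1834 (k1 c4465 k0)) (by decide +kernel)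
def c6396 : PP 8 4 T 0x1000000000080000400100000000001505410000000000000000000000000080 := rS 0xba5ec50de35 (k4 c4373 c1019 c5772 c6133 (k2 c2122 c4390 k0)) (by decide +kernel)
def c6397 : PP 8 4 T 0x100000002000080000000000040000004400000110008000040001040001008410 := rS 0x30d829c202256632a1a5d407d4f894b8b040a2cee85139244647258b452512dbf4fec75699cb27b0d9c41275099ccf206628ed7e450e07c422f01005e235 (k8 c4373 c5695 c6060 c4461 c796 c799 c1066 c4466 (k8 c1220 c6330 c4403 c4530 c791 c501 c1021 c4401 (k8 c498 c1058 c1416 c423 c1227 c37 c5084 c6230 (k8 c4289 c1455 c4376 c6157 c4405 c4402 c4285 c4375 (k8 c4374 c4372 c4281 c4277 c1496 c6033 c5853 c6395 (k8 c6396 c1148 c1336 c1340 c6279 c2110 c4584 c4423 (k8 c6231 c1187 c4529 c953 c952 c1852 c1213 c2123 k0))))))) (by decide +kernel)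
def c6398 : PP 8 4 T 0x100000002000080000000000040000004400000110008000040001040000008410 := rS 0x30d2f163195114c14eb415eab890ccd7090c3145a5328bc55a674da4cda9514a648a2f39818381f10808023b (k8 c4403 c6060 c4461 c799 c1066 c4466 c791 c1021 (k8 c796 c1220 c1032 c4402 c762 c2963 c1070 c804 (k8 c5084 c6230 c5695 c4405 c4290 c4285 c4530 c6397 (k8 c4436 c1918 c255 c4479 c5962 c5815 c2112 c4343 (k8 c1711 c261 c260 c1769 c5134 c4359 c4362 c2127 k0))))) (by decide +kernel)
def c6399 : PP 8 4 T 0x100000002000080000000000040000004400000110008000000001040000008410 := rS 0x59c5d883c682bd5633211ccea060e0bc3e021694c26291d945e25b5699c0221 (k8 c799 c6060 c5084 c6230 c6157 c5695 c4405 c4403 (k8 c4402 c4401 c4290 c4285 c4461 c1066 c796 c4466 (k8 c791 c498 c1021 c6398 c6257 c5962 c5815 c2112 (k4 c340 c341 c4416 c3267 (k1 c4481 k0))))) (by decide +kernel)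
def c6400 : PP 8 4 T 0x4000000001000000004010140011501401500000000000000500001005550000000000 := rS 0x5f30696996844956af (k8 c5815 c5962 c4469 c2112 c4443 c4426 c1710 c2126 (k1 c4572 k0)) (by decide +kernel)
def c6401 : PP 8 4 T 0x400000000000010000000002000084000100011401401514400200000000000051045040005000020 := rS 0x6885d9b4535af9322e62a2c92151694c2629289554af125aee2f14 (k8 c4486 c4963 c4390 c4375 c5695 c5936 c266 c4405 (k8 c4402 c4401 c4290 c4285 c4283 c4281 c5853 c1784 (k8 c6400 c1840 c2126 c6306 c4399 c1486 c532 c5846 (k1 c2109 k0)))) (by decide +kernel)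
def c6402 : PP 8 4 T 0x10100000002000080000000000040000004400000110000000000001040000000400 := rS 0x17e99401ac34cf64224e87da1ae176b78a2f4829d488f486b31bac43c8f46a9c10a5549c4b8071989032044d9ecb2561c92c7ef12dbf4fe0e63ab4ce01 (k8 c6060 c5084 c6230 c4289 c6390 c1455 c4376 c6157 (k8 c5695 c4287 c4375 c4279 c6394 c37 c1227 c804 (k8 c6399 c269 c264 c6309 c526 c265 c3395 c1504 (k8 c5936 c4462 c813 c1338 c801 c262 c1145 c2187 (k8 c1185 c2189 c2188 c1153 c1233 c3063 c6133 c4486 (k8 c4353 c4390 c5664 c4394 c1356 c5280 c4529 c4483 (k4 c1793 c6401 c559 c427 (k2 c1072 c1364 (k1 c2126 k0))))))))) (by decide +kernel)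
def c6403 : PP 8 4 T 0x10000000000000000000000000000000000000000001040000000000000000008800 := rS 0x5c4617e2a8f488d8dcfd (k8 c4376 c305 c304 c1076 c1346 c4386 c3359 c4486 (k2 c4477 c3322 k0)) (by decide +kernel)
def c6404 : PP 8 4 T 0x10100000002000080000000000040000000000000021040000000000040200008008 := rS 0x5f1209dfa0b (k4 c6403 c4376 c4277 c6290 (k2 c5471 c225 k0)) (by decide +kernel)
def c6405 : PP 8 4 T 0x101000002000080000000500000000000040150000020000001040000000000000 := rS 0x22cb9 (k2 c5280 c4481 (k1 c6392 k0)) (by decide +kernel)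
def c6406 : PP 8 4 T 0x10001000002000080000004140040020001505414020000000001045440000000000 := rS 0xd156b3d40cda2d0d7cb84faed6b141c9246a47168fd8e53148ee22bd62aade251 (k8 c4405 c5695 c5962 c3729 c6133 c4412 c4403 c4402 (k8 c4290 c4289 c4287 c4285 c4374 c4373 c4281 c4279 (k8 c4480 c4389 c4390 c1698 c2113 c2122 c4394 c4399 (k4 c1486 c4489 c3739 c901 (k2 c5846 c2112 k0))))) (by decide +kernel)
def c6407 : PP 8 4 T 0x2000080000000000040000000010008020024000000000040000000008 := rS 0x4f895425c2f89c9223238b58e29 (k8 c4402 c4289 c4285 c4374 c4372 c4281 c4277 c1378 (k4 c1108 c1737 c225 c1339 (k1 c2110 k0))) (by decide +kernel)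
def c6408 : PP 8 4 T 0x10001000002000080000004140040020001504414020020000001045440000000000 := rS 0x359e224f1 (k4 c5695 c4469 c6406 c4442 (k1 c540 k0)) (by decide +kernel)
def c6409 : PP 8 4 T 0x10000000002000080000004000041020000500404020020000000041440185008200 := rS 0x3cafd309b53c4c64af3da2d0a2709bc5228f5497941435c1247e3d1db1c8e354fad628717eac47311 (k8 c4412 c4279 c1145 c4376 c1415 c4480 c4389 c1698 (k8 c4373 c4374 c4289 c4403 c274 c4287 c4281 c2113 (k8 c4394 c4489 c1737 c3478 c4388 c1153 c5695 c4401 (k8 c4277 c1496 c5853 c1225 c1776 c6408 c4339 c902 (k4 c862 c433 c4566 c541 (k1 c6274 k0)))))) (by decide +kernel)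
def c6410 : PP 8 4 T 0x1000000000000000100800101001504414000000000140000000082000000 := rS 0x79 (k2 c1958 c5989 k0) (by decide +kernel)
def c6411 : PP 8 4 T 0x10100000002000080000000000040000000400000120044000000001040000008011 := rS 0x21114f685533099699562ad5f12688ccd7090c204bcc85050d709f5ac50de7d5ba50e87158acc6e081ea5d221e10a745e1b0e80872491a91c5a3f298a4765178bf4fec7059862255399b4ee58 (k8 c4476 c1112 c4993 c1649 c1646 c4412 c5402 c6403 (k8 c4289 c1455 c4376 c5695 c4405 c4403 c4402 c4290 (k8 c4287 c4285 c4374 c4373 c4281 c4279 c4461 c1026 (k8 c4160 c796 c4731 c6404 c4466 c1153 c1193 c274 (k8 c222 c2130 c553 c1145 c1415 c6405 c539 c1745 (k8 c3629 c6407 c4480 c4389 c1698 c2113 c4394 c4489 (k8 c4483 c1737 c1382 c6409 c4436 c1918 c255 c260 (k8 c4479 c1777 c5962 c2112 c4443 c2027 c861 c900 (k4 c717 c1211 c1209 c6410 (k1 c2132 k0)))))))))) (by decide +kernel)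
def c6412 : PP 8 4 T 0x10000001000000000010000001100000404400000120245500000011400004140421 := rS 0x84d05f2253a6b8926c2e3346a648a1c019611619 (k8 c269 c5853 c4476 c29 c4726 c3233 c1032 c1027 (k8 c6309 c533 c5613 c4469 c6097 c4343 c556 c6331 (k2 c2109 c6330 (k1 c341 k0)))) (by decide +kernel)
def c6413 : PP 8 4 T 0x10000001000000000000000001101100400400000000204000140010000020000000 := rS 0x2fd368d (k4 c1027 c765 c6330 c6331 k0) (by decide +kernel)
def c6414 : PP 8 4 T 0x10000001000000000010000001100000404400000120245500000011000004140421 := rS 0x8835b442e424e8b916194c91438032c1e40c09 (k8 c263 c4462 c2485 c4476 c29 c4726 c3233 c1032 (k8 c269 c5853 c6412 c785 c6413 c1950 c341 c3856 (k2 c2109 c556 k0))) (by decide +kernel)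
def c6415 : PP 8 4 T 0x10100000002000080000000000040000004400000100004000000001040000000000 := rS 0x9a4e90d006b848698a968baee289949a551a8f48a9d4aa942870b8331206406042c08c6a4b0a94c26291d945e2fd88954c80b0716cc201 (k8 c6060 c5402 c6157 c6390 c6403 c6402 c1646 c4412 (k8 c4376 c5695 c4405 c4403 c4402 c4401 c4290 c4283 (k8 c4375 c4373 c4372 c4476 c6411 c29 c269 c264 (k8 c6309 c265 c4726 c1496 c1504 c5936 c813 c808 (k8 c760 c1027 c762 c1029 c1032 c4486 c4390 c4963 (k8 c4487 c3269 c6414 c4315 c559 c427 c2291 c1235 (k2 c5616 c765 k0))))))) (by decide +kernel)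
def c6416 : PP 8 4 T 0x1000002000080005400400500000004401140020400000000005400045000008 := rS 0x2710952272688c96f1 (k8 c5695 c4375 c4372 c4282 c4277 c6029 c6293 c4639 (k1 c339 k0)) (by decide +kernel)
def c6417 : PP 8 4 T 0x1000002000080005400400000000004405000020600000000001400145000008 := rS 0xc54490d5a3252a051677258b5e24539a4c76750307026a7 (k8 c813 c4401 c4466 c791 c498 c4403 c1029 c1648 (k8 c1220 c5695 c4285 c4375 c1024 c5853 c6395 c1341 (k4 c6416 c942 c336 c557 (k2 c4530 c2123 k0)))) (by decide +kernel)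
def c6418 : PP 8 4 T 0x10101000002000080000000000000000004400000120008000000001000100000011 := rS 0x14aa9278ccd7090c0954e852f9717e7960b0d61168a9d4e6900324cda1c0d8bc3e0213934263b2c9ed6663 (k8 c41 c1188 c1227 c37 c4403 c4401 c4282 c4277 (k8 c4461 c1066 c796 c423 c4466 c2963 c1029 c791 (k8 c6291 c1648 c498 c4351 c4481 c5772 c4362 c4420 (k8 c628 c1243 c1148 c544 c714 c813 c1336 c6417 (k4 c4436 c1918 c255 c259 (k2 c5323 c1342 (k1 c4839 k0))))))) (by decide +kernel)
def c6419 : PP 8 4 T 0x10100000002000080000000000040000004400000100000000000001040000000000 := rS 0x2e12eb70f28410712e01c48044a884b2568898cc8391f8edfa0b0716cc201 (k8 c6060 c5402 c6157 c6390 c6403 c4376 c4403 c4287 (k8 c4279 c6402 c41 c4412 c6415 c37 c799 c802 (k8 c6418 c264 c526 c265 c3395 c4462 c810 c262 (k4 c5964 c1193 c5664 c5821 k0)))) (by decide +kernel)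
def c6420 : PP 8 4 T 0x10100000002000080000000000040000000000000050000000000000080000008000 := rS 0x2e56f4210a7c08391dc454249 (k8 c4281 c1734 c4411 c4403 c4279 c4191 c5636 c2255 (k4 c5588 c5964 c4394 c5643 k0)) (by decide +kernel)
def c6421 : PP 8 4 T 0x100000002000080000000000000000000000040020020000000000080000008011 := rS 0x7158acc6e084b87842751ea54a81d010e47e677e9fd8f11 (k8 c4411 c4289 c1455 c4376 c5084 c4287 c4279 c4461 (k8 c1026 c226 c3628 c5433 c539 c314 c4466 c1193 (k4 c222 c2130 c553 c1145 (k2 c1415 c6405 k0)))) (by decide +kernel)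
def c6422 : PP 8 4 T 0x10100000002000080000000000040000004400000100004000000001000000000000 := rS 0x9a4e90d006b848698a968baee289949a551a8f48a9d4aa942870aa5c198903203021ccb0231a92c2a53098a4765178bf4165b30c44c66415038ce01 (k8 c6060 c5084 c6390 c6419 c6420 c41 c4411 c5402 (k8 c6157 c6403 c4376 c5695 c4405 c4403 c4402 c4401 (k8 c4290 c4283 c4375 c4373 c4372 c4476 c1649 c6421 (k8 c29 c269 c264 c6309 c265 c267 c4726 c1496 (k8 c1504 c5936 c813 c808 c760 c1027 c762 c1029 (k8 c1032 c4486 c4390 c4963 c4487 c3269 c6414 c4315 (k4 c559 c427 c2291 c1235 (k2 c5616 c765 k0)))))))) (by decide +kernel)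
def c6423 : PP 8 4 T 0x10100000002000080000000000040000004400000100000000000001000000000000 := rS 0x12c1e5c020e2072e0916e044a884b256319914311150e4923f1d99dfa0b0716cc201 (k8 c6060 c5402 c6157 c6390 c6403 c4376 c5084 c4403 (k8 c4287 c4281 c4279 c6419 c4411 c1734 c6420 c41 (k8 c6422 c37 c799 c802 c6418 c5964 c264 c265 (k4 c526 c3395 c4462 c5664 (k2 c262 c5821 (k1 c1193 k0)))))) (by decide +kernel)
def c6424 : PP 8 4 T 0x100000002000090000000000000000004400000010000000000002000000008008 := rS 0x3359ecba521513094593c306a249348e4b6394ca2fd (k8 c4376 c4405 c4290 c4289 c4375 c4374 c4282 c4281 (k8 c229 c228 c2140 c564 c4436 c2038 c1495 c4485 (k4 c5740 c4430 c4460 c2116 k0))) (by decide +kernel)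
def c6425 : PP 8 4 T 0x10100000002000080000000000040000004400000110000000000000000000000000 := rS 0xb95b9d5928821acd627145820aa5c120640e0401964acd1158e42a3f2984ca2f133bf4fec70596cc2170086c600e (k8 c6390 c6423 c2233 c6060 c1911 c5402 c6157 c6403 (k8 c4289 c1455 c4376 c5084 c5695 c4405 c4401 c4290 (k8 c4287 c4283 c4279 c6420 c300 c6394 c37 c6424 (k8 c4461 c1018 c269 c264 c265 c266 c4462 c5853 (k8 c3395 c1145 c1185 c2189 c2109 c636 c6057 c5279 (k2 c5280 c5664 k0)))))) (by decide +kernel)
def c6426 : PP 8 4 T 0x1000000080000100000000000000000000000000040110000000080000008 := rS 0x6e43 (k2 c2132 c2130 (k1 c6022 k0)) (by decide +kernel)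
def c6427 : PP 8 4 T 0x10100000002000080000000000040000000400000020040000000002040000008011 := rS 0x1eb0d824362c5a3075599ccf2062ca4c121c0faf50b09208849e450c1a8043f2984c765178985fad1 (k8 c300 c4376 c5402 c5695 c4405 c4403 c4401 c4290 (k8 c4287 c4461 c229 c228 c2139 c2140 c6404 c3826 (k8 c4436 c1495 c5529 c6426 c4466 c1058 c1029 c1026 (k8 c791 c1959 c1648 c552 c498 c5310 c4481 c4370 (k4 c4446 c4450 c4362 c4416 (k1 c2115 k0)))))) (by decide +kernel)
def c6428 : PP 8 4 T 0x10100000002000080000000000040000004400000100000000000000040000000000 := rS 0x22c32042ab442a1328bc4b6170086c1c89322b46053 (k8 c4290 c6423 c2046 c6425 c557 c6390 c2233 c6060 (k8 c1911 c6157 c5695 c4405 c4401 c4283 c300 c1646 (k4 c6427 c269 c5853 c2109 k0))) (by decide +kernel)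
def c6429 : PP 8 4 T 0x100000000002000081000000000000000004400000000000000000002080000008008 := rS 0xcf65aa55e85849b5a24f0c1249a4725b1ca2fd19c4d5a53 (k8 c4290 c2046 c4441 c62 c4376 c4405 c4289 c4375 (k8 c4374 c4282 c4281 c228 c2140 c2141 c958 c4436 (k4 c1495 c1774 c5323 c5740 (k2 c5286 c2116 k0)))) (by decide +kernel)
def c6430 : PP 8 4 T 0x10100000002000080000000000040000004400000100000000000000000000000000 := rS 0x682bd16192a81006cd1522622640dab42e30071242a5309945e201 (k8 c6060 c5695 c4405 c4401 c4290 c4283 c4281 c6390 (k8 c6423 c1911 c2046 c2233 c6425 c4412 c557 c6428 (k8 c5716 c6429 c4461 c1647 c269 c5853 c1776 c2109 (k1 c301 k0)))) (by decide +kernel)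
def c6431 : PP 8 4 T 0x2000080000000000044000000000000004200000000000040000004000 := rS 0xa11289c9223238b58e29 (k8 c4402 c4289 c4285 c4374 c4372 c4281 c4277 c1335 (k2 c810 c2110 k0)) (by decide +kernel)
def c6432 : PP 8 4 T 0x1000002000080000000000020040000000000020820000000000000050000400 := rS 0x25628755881922091009c2711 (k8 c4412 c4401 c4277 c4466 c1105 c886 c4462 c545 (k4 c498 c5772 c1696 c5771 k0)) (by decide +kernel)
def c6433 : PP 8 4 T 0x10001000002000080200000400040000000400000100844000000001001001000011 := rS 0xf2bf4c26d4f133d8c9620821a44421e47a74e2973b9bc3a0b2c09c72cf15a7cc343249b502a08899152850d809e20d (k8 c4371 c5695 c4461 c423 c6224 c1505 c546 c4412 (k8 c547 c1382 c2684 c4281 c4422 c5402 c1665 c5588 (k8 c1793 c4279 c4277 c4476 c303 c790 c1378 c1112 (k8 c1195 c2499 c4731 c1425 c6432 c57 c1153 c2132 (k8 c222 c545 c6295 c1225 c4339 c902 c862 c433 (k2 c4566 c541 (k1 c6274 k0))))))) (by decide +kernel)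
def c6434 : PP 8 4 T 0x10200000002000080000000000040000000000000001008000000000001000004000 := rS 0x3c8b2e56e374ba3162934a8e46a3f1d9ce22b550190bc5d15d0d3e637eb20fe0d639f4aa11248548e13 (k8 c4401 c4374 c4283 c4281 c4275 c4406 c4409 c4289 (k8 c4371 c4313 c2107 c4961 c4407 c1665 c4422 c5588 (k8 c6431 c4477 c546 c547 c3638 c4412 c4408 c4403 (k8 c4287 c4373 c4279 c802 c1069 c1148 c6358 c1198 (k4 c1383 c1117 c5821 c4487 (k2 c2113 c4416 k0)))))) (by decide +kernel)
def c6435 : PP 8 4 T 0x10200000002000080000000000040000000400000100040000000001000000004011 := rS 0x8465a9958a5548cc9e6b84860ae25178084e4d25bc5666d50178ba2ba1a7cc6617eb20fe0d639f4aa11248548e13 (k8 c4401 c4374 c4283 c4281 c4275 c4406 c4409 c4289 (k8 c4371 c4313 c2107 c4961 c5402 c4407 c1665 c4422 (k8 c5588 c6431 c4477 c547 c2684 c4311 c5695 c4375 (k8 c4282 c4277 c4461 c796 c224 c6434 c6433 c4436 (k8 c1918 c258 c255 c1506 c5936 c6231 c4839 c2027 (k2 c5558 c717 k0)))))) (by decide +kernel)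
def c6436 : PP 8 4 T 0x10001000002000080000000010040040000400000120045000000001000000004421 := rS 0x1391260a6c5ec561c5886454ca4d2a1f57aac3833148eca2f18880c3258 (k8 c4476 c269 c29 c4412 c5695 c4405 c4403 c4402 (k8 c6309 c4726 c5962 c5815 c10 c762 c1029 c1032 (k8 c3233 c6361 c4487 c4958 c4530 c6332 c765 c4420 (k2 c4469 c2127 (k1 c4344 k0))))) (by decide +kernel)
def c6437 : PP 8 4 T 0x400000000000010001000002000084010000110040000000500614021120000000005041201404020 := rS 0x210848c9ecf29a60afcd62e57aac525178af57714 (k8 c4480 c4390 c6133 c5695 c4405 c4402 c5962 c5815 (k8 c6328 c6097 c5923 c5957 c836 c540 c709 c4448 (k2 c2122 c4482 (k1 c4321 k0)))) (by decide +kernel)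
def c6438 : PP 8 4 T 0x10000000002000080000000000040000004400000100004000000001000000004000 := rS 0x5f9ec86323a31528458a05c402558828e2973b9bcb03578acd9e81889915a1950178ba2ba1a7cc6c83f8358e7d2a84492152384c085b7ec10c201 (k8 c6060 c5402 c6430 c4961 c6157 c6435 c4401 c4374 (k8 c4283 c4281 c4275 c4406 c4409 c4289 c4371 c4313 (k8 c2107 c4407 c1665 c4422 c5588 c6431 c4477 c547 (k8 c269 c6318 c546 c4412 c1382 c1793 c4311 c5695 (k8 c4373 c4476 c1378 c1112 c1195 c2499 c6436 c622 (k8 c6334 c535 c2497 c4480 c2408 c5771 c3729 c1696 (k4 c6437 c2293 c703 c6330 (k1 c6354 k0)))))))) (by decide +kernel)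
def c6439 : PP 8 4 T 0x110000000002000080000000000020055400000000000000000000000000100000000 := rS 0x22c3c (k2 c6322 c4487 (k1 c4416 k0)) (by decide +kernel)
def c6440 : PP 8 4 T 0x10000000002000080000000000040000004400000100000000000001000000004000 := rS 0x9748a311eb149a54425601810b67350444c85e2e8ae869f3198402fd641fc1ac73e9560811248548e13 (k8 c4401 c4374 c4283 c4281 c4275 c6430 c4406 c4409 (k8 c4289 c4371 c4313 c2107 c4961 c6060 c5402 c4407 (k8 c1665 c4422 c5588 c6431 c4477 c546 c4412 c547 (k8 c4408 c6157 c6435 c29 c6438 c798 c802 c1069 (k4 c1148 c800 c6358 c72 (k2 c1198 c6439 k0)))))) (by decide +kernel)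
def c6441 : PP 8 4 T 0x10000000002000080000000000040000004400000100000000000000000000004000 := rS 0xe9612e570fab84a4505af48285011a89e058486036ad0bc4c611150190da5e2e8ad3ecfa1b2022490691c2ac72984de2610096cfe55319f5fb04 (k8 c6430 c4961 c4409 c4407 c4406 c4313 c6157 c6060 (k8 c5402 c5695 c4401 c4290 c4289 c4283 c4374 c4371 (k8 c4281 c4275 c2107 c4422 c1793 c1665 c5588 c6431 (k8 c4477 c2684 c546 c547 c4412 c6440 c4441 c1911 (k8 c2046 c295 c6382 c4436 c269 c258 c4479 c4461 (k8 c5477 c3826 c5529 c2245 c2139 c224 c5727 c6426 (k4 c6434 c4631 c4476 c790 (k1 c6432 k0)))))))) (by decide +kernel)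
def c6442 : PP 8 4 T 0x1000000000000140100020020055504014154020100000005410000000000 := rS 0x3317cac3c9ad8b1257aacda77 (k8 c1112 c4993 c5962 c5815 c4469 c1786 c4442 c540 (k4 c2120 c2122 c901 c1486 k0)) (by decide +kernel)
def c6443 : PP 8 4 T 0x110000000002000080000000000040000004400000110104000000001000001000008 := rS 0x1e57e984da9e2632502513f435c45d76b55baf6287b5882122710f23d9221549bcbc24138e4525133acd1263399f5fb04179dcea974e8741661009b4b05b42839024b4586de213 (k8 c4401 c5695 c423 c5853 c4375 c6395 c6441 c1496 (k8 c6157 c4476 c4993 c6060 c5402 c6403 c790 c4731 (k8 c1196 c538 c1112 c796 c6430 c4961 c4409 c4408 (k8 c4407 c4314 c4311 c5084 c4405 c4402 c4279 c4277 (k8 c4046 c4477 c1108 c1504 c5471 c546 c3401 c4466 (k8 c537 c1153 c222 c545 c1225 c4480 c6133 c4353 (k8 c4389 c4390 c4963 c4073 c4394 c1396 c5821 c4489 (k8 c6442 c4339 c902 c862 c433 c4566 c541 c6274 k0)))))))) (by decide +kernel)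
def c6444 : PP 8 4 T 0x2000080000000000040000000000000014200000000000040000000010 := rS 0x1429f1289c9223238b58e29 (k8 c4402 c4289 c4285 c4374 c4372 c4281 c4277 c1336 (k2 c1340 c810 (k1 c2110 k0))) (by decide +kernel)
def c6445 : PP 8 4 T 0x200001000000000000000010000000044000001110000100000005410000000000 := rS 0x1aa2463 (k4 c4407 c4469 c5842 c4442 k0) (by decide +kernel)
def c6446 : PP 8 4 T 0x10000000002000080000000000040000004400000110004000000001000001000010 := rS 0x1e57e984da9e2632569ee208b4284c5251788bd028f54890de774e86c166d2c16c10b1488783a210709c725e2e8ac046330805fb04 (k8 c6430 c4961 c6060 c5402 c4407 c4461 c227 c6444 (k8 c4477 c4279 c4277 c6441 c5471 c790 c4466 c1153 (k8 c545 c222 c6157 c4476 c4993 c6403 c423 c4731 (k8 c1112 c1378 c4046 c1504 c3401 c1382 c796 c5695 (k8 c4405 c4402 c4401 c1496 c5853 c6443 c1225 c4338 (k8 c6445 c4339 c902 c862 c433 c4566 c541 c6274 k0)))))) (by decide +kernel)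
def c6447 : PP 8 4 T 0x10000000002000080000000000040000004400000110004000000001000000000010 := rS 0x27afc8aa667b09409465d2e22ac57aada2330c27e86b88bad56ebd8a2c4824348878e2973a9b4de1d2c0e49a35258b47ec7298a4a2f12daccaa733e8bc422764a3cbc5d15808c66100bf6080e (k8 c6441 c6430 c4961 c6060 c5402 c4407 c4461 c227 (k8 c6444 c4477 c3401 c546 c4277 c5471 c796 c4409 (k8 c4408 c4406 c4311 c6157 c5695 c4405 c4402 c4290 (k8 c4289 c4287 c4285 c4375 c4373 c4282 c4279 c4476 (k8 c790 c1378 c4993 c538 c1196 c537 c4466 c1153 (k8 c2132 c1104 c545 c4480 c6133 c4353 c4389 c4963 (k8 c4073 c4394 c1396 c6446 c255 c260 c5962 c5815 (k8 c2112 c4338 c4458 c2027 c5821 c4489 c861 c1794 (k4 c900 c1209 c1216 c6220 (k1 c4496 k0)))))))))) (by decide +kernel)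
def c6448 : PP 8 4 T 0x400000000004010000000000000000000000020044005000000000000000000000000000020000000 := rS 0x2812d11 (k4 c4338 c4809 c4489 c898 k0) (by decide +kernel)
def c6449 : PP 8 4 T 0x200000002000080000000010000000004400000110800000000001000021000411 := rS 0xcd161314945e22f0da04da02 (k8 c4461 c2963 c1382 c423 c796 c5695 c4405 c4402 (k4 c4401 c5853 c6273 c6445 k0)) (by decide +kernel)
def c6450 : PP 8 4 T 0x10000000002000080000000000040000004400000110000000000001000000000010 := rS 0x2bd56d1198615a9fa1ae22eb55ba462875378191a6d0e2c43e932b0d45a53098a4a2f159954e67d0596c5e210709d925e2e8ac046330805fb04 (k8 c6430 c4961 c6060 c5402 c4407 c4461 c227 c6444 (k8 c4477 c546 c4277 c6441 c5471 c796 c6157 c6403 (k8 c4409 c4408 c4406 c4311 c5695 c4405 c4402 c4401 (k8 c4290 c4285 c4373 c6447 c1070 c1066 c1148 c4466 (k8 c2963 c1027 c791 c1377 c498 c5772 c4351 c4353 (k8 c4389 c4963 c4073 c4394 c1395 c6448 c6449 c255 (k4 c260 c5962 c5815 c2112 k0))))))) (by decide +kernel)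
def c6451 : PP 8 4 T 0x10000000002000080000000000040000004400000110000000000000000000000010 := rS 0x3bac4f27103164121c0fafd7b44849ed0a4127914306a89aa4602140978ba2b0d8084ef131bf6080b0716cc201 (k8 c6060 c5402 c6157 c6441 c6403 c6430 c4961 c4407 (k8 c5695 c4277 c4461 c423 c227 c6444 c4477 c1382 (k8 c5471 c6450 c3478 c4441 c229 c228 c2139 c2140 (k8 c3826 c563 c5481 c4436 c4484 c5529 c4399 c6426 (k8 c4466 c1058 c1026 c791 c1416 c1959 c544 c1023 (k1 c6396 k0)))))) (by decide +kernel)
def c6452 : PP 8 4 T 0x200000002000080000040011040000004400001110204000000005400001008404 := rS 0x810d4253a8a8926c262928bf50aa752bc496990e160b601 (k8 c6060 c6157 c4476 c4726 c1032 c4375 c5695 c5936 (k8 c813 c1496 c4961 c4405 c4402 c4401 c5613 c4469 (k4 c6445 c4343 c4322 c5853 (k2 c5616 c427 k0)))) (by decide +kernel)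
def c6453 : PP 8 4 T 0x10000000002000080000000000040000004400000110004000000001000000000000 := rS 0x22cd61b212745cad8baee28454ca4d1a8f0e25d2258118d426291d944c7040596cc20101864b86d548914a3302039e24b (k8 c4375 c5695 c6441 c6451 c2403 c5936 c264 c1504 (k8 c695 c265 c269 c29 c6060 c5402 c6157 c6403 (k8 c6430 c4407 c4405 c4403 c4402 c4401 c4373 c4372 (k8 c4476 c808 c1196 c4726 c760 c1027 c1029 c1032 (k8 c3233 c4486 c4390 c4963 c4809 c6452 c785 c6413 (k4 c334 c3856 c5853 c5842 k0)))))) (by decide +kernel)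
def c6454 : PP 8 4 T 0x200001000000000000140011501401505000001110000100000005410001040200 := rS 0xecbe0d2651512 (k4 c4469 c6445 c4443 c5853 (k2 c2126 c425 (k1 c1094 k0))) (by decide +kernel)
def c6455 : PP 8 4 T 0x10000000002000080000000000040000004400000110000000000001000000000000 := rS 0x4250345452f8d699172b621175dc517a414ea5d22431bac43c0847a340e9549a6cf65652aa4da39258fc262928bc4c6fd8202cb661008ccbe0342864e22453970080e (k8 c6441 c6451 c265 c813 c264 c3395 c269 c1496 (k8 c29 c1376 c2403 c6060 c5402 c6157 c6403 c6430 (k8 c4961 c4407 c5695 c4405 c4402 c4401 c4287 c4375 (k8 c4279 c695 c1504 c5936 c6453 c1227 c804 c1070 (k8 c802 c1018 c1068 c801 c4462 c262 c1145 c2187 (k8 c2189 c1153 c1193 c1233 c3063 c6133 c4486 c4390 (k8 c4963 c4487 c4338 c6454 c1840 c6306 c2126 c5842 (k4 c4399 c1364 c4322 c4484 k0)))))))) (by decide +kernel)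
def c6456 : PP 8 4 T 0x10000000002000080000000000040000004400000110000000000000000000000000 := rS 0x2551a910e16172b7a14452e2a55d2da08b0dab42f13182853e712f97066241086406041c92446350a94c26291d945e2892a98e080b0716cc201 (k8 c6060 c5402 c6157 c6441 c6403 c6430 c4407 c4406 (k8 c4314 c5695 c4405 c4403 c4402 c4401 c4290 c4283 (k8 c4373 c4372 c4281 c4279 c6451 c29 c269 c2255 (k8 c264 c2403 c265 c1376 c3395 c1340 c810 c6455 (k8 c4441 c1911 c2046 c2233 c5853 c2109 c4426 c1671 (k8 c300 c4785 c4411 c5588 c5964 c4394 c5664 c4726 (k4 c1156 c1027 c762 c5944 k0))))))) (by decide +kernel)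
def c6457 : PP 8 4 T 0x10001000002000080000000000041040000400404020820000000001440015008008 := rS 0x170955aade28b11b8207a91388791e21138e49235238fd8e3b88a05e24b (k8 c4375 c5695 c6395 c4412 c4403 c4289 c4287 c4374 (k8 c4373 c4281 c4279 c4277 c5471 c3401 c4466 c537 (k8 c1153 c274 c222 c2130 c545 c4480 c4353 c4389 (k2 c6409 c2113 (k1 c5821 k0))))) (by decide +kernel)
def c6458 : PP 8 4 T 0x10001000002000080000000000040000000010000021400000000000040000000008 := rS 0x27c4aa12e09c9223238b58e29 (k8 c4402 c4289 c4285 c4374 c4372 c4281 c4277 c4477 (k4 c1737 c225 c1339 c2110 k0)) (by decide +kernel)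
def c6459 : PP 8 4 T 0x10001000002000080000000400040000000400000120844000000001040001008009 := rS 0x2752e7737874b00b308bc366d (k8 c959 c423 c796 c5402 c6403 c4476 c790 c1378 (k4 c1112 c1195 c4731 c6457 k0)) (by decide +kernel)
def c6460 : PP 8 4 T 0x10001000002000080000000400040000000410000124041000000001000001008011 := rS 0x30696ac68b0e32c5212593b1748c495714198191a1c5887d2a9b2c958425d2f2bd16811586c5e02138d4962d2984c52517882cc311 (k8 c4412 c5402 c6403 c5695 c4405 c4402 c4401 c4290 (k8 c4285 c4375 c4373 c4277 c4461 c796 c423 c226 (k8 c6395 c5853 c1776 c6458 c39 c5471 c6459 c37 (k8 c804 c802 c1066 c1148 c4466 c1027 c791 c6273 (k8 c5772 c5962 c4469 c4351 c4963 c4343 c5303 c6277 (k8 c1252 c4446 c2054 c341 c2112 c4458 c1986 c4494 k0)))))) (by decide +kernel)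
def c6461 : PP 8 4 T 0x110000000002000080000000400040000000010000004000000000000000000008421 := rS 0x49a551a8f488712e585cd096e9f509c4be5c120840639118d4523b (k8 c4403 c4402 c4373 c4372 c4279 c29 c2255 c264 (k8 c265 c1376 c3395 c810 c1339 c5964 c4489 c4394 (k8 c5664 c1195 c4726 c1156 c760 c1027 c762 c1029 (k1 c5931 k0)))) (by decide +kernel)
def c6462 : PP 8 4 T 0x1001000002000080000000420040000400000000520844000000000040100000008 := rS 0x2327b4d1d128b85aade28b11b8f522c10f1e4e2973b9bc3a581c9246a471fb1c7711 (k8 c4412 c4403 c4289 c4287 c4374 c4373 c4281 c4279 (k8 c4476 c790 c1378 c1112 c1195 c537 c540 c4466 (k8 c1987 c1153 c274 c2130 c545 c4480 c4353 c4389 (k4 c2113 c5821 c1696 c860 (k2 c709 c4448 (k1 c4482 k0)))))) (by decide +kernel)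
def c6463 : PP 8 4 T 0x10001000002000080000000400040000000450040124041000000001000000008001 := rS 0x27e86b864a852d175aadd23143a9bce2064682438b14987d2a592b2b1563357b44d7090c0d45a53098a4a2f117974422747978560202c441661 (k8 c5402 c6403 c4412 c6461 c4461 c226 c6458 c3401 (k8 c4277 c5471 c39 c796 c5695 c4405 c4402 c4401 (k8 c4290 c4285 c4373 c6460 c4436 c1918 c260 c1777 (k8 c6288 c5962 c2112 c6462 c37 c802 c1066 c1069 (k8 c1148 c4466 c1058 c1027 c791 c1416 c1377 c498 (k8 c5772 c4351 c4353 c4389 c4963 c5303 c898 c547 (k4 c2121 c4394 c1395 c6448 k0))))))) (by decide +kernel)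
def c6464 : PP 8 4 T 0x10000000002000080000000000040000004400000100000000000000000000000000 := rS 0xa04ba7e861c573303ecf5ed119709429049e450c1a95aa9688c042812f0ac040588990160e7e9f4e6632a9fd6704139249a4725b1ca65178984025b (k8 c6157 c6060 c5402 c5695 c4405 c4290 c4289 c4375 (k8 c4374 c4282 c4281 c4277 c6430 c4311 c4313 c4406 (k8 c4407 c4408 c4409 c4961 c6441 c6403 c6456 c4412 (k8 c6461 c4461 c226 c6458 c1382 c5471 c6463 c300 (k8 c3478 c2046 c229 c228 c2139 c2140 c3826 c563 (k8 c4436 c5740 c4484 c5529 c4400 c6426 c2116 c5727 (k4 c4466 c4395 c1398 c4631 (k2 c4489 c6272 k0)))))))) (by decide +kernel)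
def c6465 : PP 8 4 T 0x10101000002000080200000002064001000040140000060000040000040200004401 := rS 0x167175b2522a8d582fc0c45048d5e29b (k8 c2870 c5695 c4373 c231 c441 c4462 c6330 c6281 (k4 c1507 c4349 c4551 c5032 (k2 c4418 c1164 (k1 c4481 k0)))) (by decide +kernel)
def c6466 : PP 8 4 T 0x1000000000000010101000002000080000000000140000000000010110460000000001000010004409 := rS 0xb3588dc103d0f085507321c4d263264188fea0489713ea7138e49223238b47ec7149845e2b12ab4ce75 (k8 c538 c5084 c6230 c224 c227 c796 c5402 c4402 (k8 c4289 c4287 c4285 c4374 c4372 c4281 c4279 c4277 (k8 c4532 c6233 c4477 c1156 c2110 c1457 c6431 c811 (k8 c6231 c3656 c4339 c6257 c1109 c4490 c6465 c4466 (k4 c274 c222 c2130 c1145 (k2 c1185 c6405 k0)))))) (by decide +kernel)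
def c6467 : PP 8 4 T 0x1000000000000000000000000000800000000800000000001404000000000 := rS 0x898ccd4a6 (k4 c549 c548 c902 c4442 (k1 c4469 k0)) (by decide +kernel)
def c6468 : PP 8 4 T 0x1000000000000010001000002000080000000000140000000000000110444000000001000000004009 := rS 0xe21d059620a6215a7cb861 (k8 c5402 c4477 c1340 c227 c6431 c4407 c4476 c303 (k2 c790 c1418 (k1 c6466 k0))) (by decide +kernel)
def c6469 : PP 8 4 T 0x1000000000000000080000040054000000008048000000408410040000409 := rS 0x30cf273629d5829c031152a1c1090cf6778452e0ab3 (k8 c1187 c4407 c4428 c4485 c4438 c4319 c6257 c799 (k8 c4466 c762 c1220 c791 c952 c1714 c1688 c4530 (k4 c1021 c501 c1213 c2123 k0))) (by decide +kernel)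
def c6470 : PP 8 4 T 0x10000000002000080000000000040000004000000110000000000001000000004010 := rS 0x8ca743a782001c14990f958ef08a58595c9b44b4550cd8995464cf6425e86ad82a80c4252488c8e1516b1ca6291d944b74552a2c324d0d844262b53a7cb85f17809e22730805fa82 (k8 c6464 c4306 c6060 c5402 c4277 c5695 c4461 c796 (k8 c6467 c4477 c1340 c4532 c227 c4401 c4275 c638 (k8 c4282 c1998 c5853 c1937 c4452 c6157 c4405 c4403 (k8 c4402 c4290 c4289 c4285 c4283 c4374 c4372 c4281 (k8 c224 c6431 c2110 c4407 c820 c4423 c2793 c811 (k8 c1795 c6231 c1726 c4339 c5541 c4490 c5846 c637 (k8 c2870 c980 c2109 c4428 c4485 c4438 c6468 c1066 (k8 c1071 c6469 c4 c573 c572 c791 c1051 c4447 (k1 c4488 k0))))))))) (by decide +kernel)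
def c6471 : PP 8 4 T 0x10000000002000080000000000040000004000000110000000000001000000000010 := rS 0x15c89543343f132b0c9909756c1416a0310941c9f2e29cbe2b178084e491191c5ac7148ecb6fda2a94c201458649a1b41045e213 (k8 c4401 c5695 c4275 c6464 c638 c4282 c1998 c5853 (k8 c6060 c5402 c1937 c4452 c4306 c6157 c4403 c4402 (k8 c4289 c4285 c4374 c4372 c4281 c4277 c4461 c796 (k8 c227 c6467 c4532 c4477 c1340 c6470 c225 c6444 (k8 c2110 c6403 c4407 c820 c2793 c811 c6231 c6394 (k4 c4339 c1066 c5541 c4490 (k2 c637 c980 (k1 c6469 k0)))))))) (by decide +kernel)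
def c6472 : PP 8 4 T 0x10101000002000080000000000044041000000100000220000000000001000000505 := rS 0x56a1883262eb18a24d2a8d4781838272488c6a4716b1c523b (k8 c4403 c4402 c4289 c4285 c4374 c4373 c4372 c4281 (k8 c4277 c4726 c4462 c760 c1027 c762 c1029 c4486 (k4 c4349 c4963 c6281 c4487 (k2 c811 c4411 (k1 c2110 k0))))) (by decide +kernel)
def c6473 : PP 8 4 T 0x10100000002000080000000000040000000800000110420000000001000000004121 := rS 0x1155ec657f164d10d262e64280c42b2a8748a205981c14bb3c9ac4b1248a7cb8a7139246a470a8b58e1314bf68aa53080d52330d845e2235699cea97 (k8 c1196 c538 c5084 c6230 c4372 c5695 c4275 c638 (k8 c430 c6029 c29 c5402 c1937 c4452 c4306 c4402 (k8 c4401 c4289 c4285 c4283 c4374 c4373 c4281 c4277 (k8 c4532 c4477 c6233 c1156 c4490 c1335 c4442 c540 (k8 c1976 c6472 c4 c662 c535 c438 c1025 c2256 (k8 c4904 c6431 c2110 c811 c6231 c3656 c1953 c836 (k4 c6198 c6330 c4448 c2018 (k2 c4963 c4493 k0)))))))) (by decide +kernel)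
def c6474 : PP 8 4 T 0x10100000002000080000000000040000004000000110004000000001000000004000 := rS 0x1145e2c5947e3ea7d6f106130630c52aa6c8a9949a5456060e02d3a1621c4d9a2e649ecd4a62f25c1258139241a470ab1c263b2dbf406ab28abc66040da0822f114ab4ce01 (k8 c6060 c5084 c6230 c4402 c5695 c4275 c6464 c638 (k8 c6471 c430 c5815 c4405 c5962 c29 c4306 c6157 (k8 c4403 c4401 c4289 c4283 c4374 c4371 c4281 c4277 (k8 c4476 c263 c1196 c6473 c549 c548 c2514 c546 (k8 c6467 c2066 c4442 c3856 c6097 c1234 c2497 c4726 (k8 c4462 c6369 c762 c1029 c1032 c3233 c765 c266 (k8 c4530 c4488 c4450 c2127 c4958 c1168 c4414 c1379 (k4 c2107 c677 c675 c2028 (k2 c5772 c4354 k0))))))))) (by decide +kernel)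
def c6475 : PP 8 4 T 0x10100000002000080000000001044000004000000100408000000000041000000220 := rS 0x3419a893a2e16e448a2f91eb567d0d40551392446352392c2a2d6394c5251458649a1b08bc4269b469fcb89d4c85cd71253bf68aa54118402b11bacc7e431ea443c39 (k8 c4279 c262 c1153 c2188 c2189 c4287 c1185 c2187 (k8 c1145 c6060 c5402 c6464 c1937 c4452 c4306 c4532 (k8 c4490 c4442 c532 c4443 c4343 c4477 c1457 c1068 (k8 c804 c4401 c5695 c4275 c638 c4282 c1998 c5853 (k8 c4405 c4402 c4290 c4289 c4285 c4283 c4375 c4374 (k8 c4373 c4372 c4281 c4277 c266 c2110 c4423 c1795 (k8 c1707 c2779 c6348 c4486 c6330 c4353 c4034 c5280 (k4 c6057 c2064 c2109 c5846 k0)))))))) (by decide +kernel)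
def c6476 : PP 8 4 T 0x10100000002000080000000000040000004000000110408000000001001000000400 := rS 0x16ca1888a81039248ed52330da0822f1118840e030227cce01 (k8 c6060 c5084 c6233 c6471 c29 c1018 c798 c4372 (k8 c5695 c4275 c6464 c638 c430 c6029 c4403 c4281 (k4 c4279 c4462 c6475 c4411 (k2 c1734 c6373 (k1 c5964 k0))))) (by decide +kernel)
def c6477 : PP 8 4 T 0x10100000002000080000000000040000004000000110400000000001000000004000 := rS 0x278bc84be4787122450fac414994e896248d2e29c4e4d1a96dfb455298402a91986d04117888d3621039580604 (k8 c6471 c29 c6474 c1018 c798 c804 c4372 c5695 (k8 c4275 c6464 c638 c430 c6029 c6060 c5402 c1937 (k8 c4452 c4306 c6157 c4373 c4282 c4277 c4532 c4477 (k8 c1068 c4490 c1335 c4343 c4443 c6476 c622 c271 (k8 c438 c809 c4466 c760 c6348 c6330 c6259 c5807 (k1 c4839 k0)))))) (by decide +kernel)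
def c6478 : PP 8 4 T 0x10100000000000000011000454001445400880400000048000000000000000000000 := rS 0xe71761254ea99 (k4 c1071 c2577 c6307 c2127 (k2 c4362 c1087 (k1 c4481 k0))) (by decide +kernel)
def c6479 : PP 8 4 T 0x10100000002000080000000000040000004000000110000000000001000000004000 := rS 0xaca8b73fb058b184ba453a7d598783a9f0402d32163bc4d1eb117324d4a62e9780e934d964acad138e4920d238547ec70999c025b7e80d5651578cc081b41045e229 (k8 c4402 c5695 c4275 c6464 c638 c6471 c430 c5815 (k8 c4405 c5962 c29 c4306 c6157 c6060 c5084 c4401 (k8 c4289 c4287 c4283 c4374 c4371 c4281 c4279 c4277 (k8 c6230 c6474 c37 c804 c1070 c1018 c6477 c39 (k8 c549 c548 c546 c6467 c544 c1426 c4442 c3911 (k8 c6097 c1071 c6343 c4462 c6313 c1058 c262 c1185 (k8 c1379 c784 c1153 c1193 c4488 c4370 c4450 c6478 (k4 c5279 c2107 c6373 c266 k0)))))))) (by decide +kernel)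
def c6480 : PP 8 4 T 0x10000000002000080000000000040000004000000110000000000001000000004000 := rS 0xb82b2fa7e86c83e98caa7f82044920d238558e1330805fa82 (k8 c6464 c4306 c6060 c5402 c4401 c4289 c4283 c4374 (k8 c4371 c4281 c4275 c6479 c4313 c4406 c4407 c4409 (k4 c2107 c4422 c1665 c546 (k2 c5588 c4477 (k1 c6431 k0))))) (by decide +kernel)
def c6481 : PP 8 4 T 0x10100000002000080000000000040000004000000110000000000001000000000000 := rS 0x3419a89679d286b861ad56e448a2f9223d21acc6eb10f0211e8d03a6caa56158e492352392c2a3f29944cefd458649a133fb1c165b2f80ce2244ea642e6b8929cb80e548cc36117888e8aa5411840204 (k8 c6471 c6060 c5402 c6464 c1937 c4452 c4372 c5695 (k8 c4275 c638 c430 c6029 c6480 c265 c812 c4490 (k8 c4442 c532 c4443 c4343 c264 c3395 c29 c1376 (k8 c6157 c6403 c4289 c1455 c4401 c4282 c1998 c5853 (k8 c4306 c5084 c4405 c4290 c4287 c4283 c4375 c4374 (k8 c4373 c4281 c4279 c6420 c6394 c266 c804 c1018 (k8 c1068 c801 c4462 c262 c1145 c2187 c1185 c2189 (k8 c2188 c1153 c6348 c4486 c6330 c4353 c4389 c1209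 (k8 c4034 c4394 c5280 c1526 c6057 c2064 c2109 c5846 k0))))))))) (by decide +kernel)
def c6482 : PP 8 4 T 0x10000000002000080000000000040000004000000110000000000001000000000000 := rS 0x882b0fa6359c10d71253970160e548cc082314944b74536a94c201458649a1b41045e213 (k8 c4401 c5695 c4275 c6464 c638 c4282 c1998 c5853 (k8 c6060 c5402 c1937 c640 c4452 c6157 c4405 c4402 (k8 c4372 c6471 c430 c6029 c6480 c6403 c265 c812 (k8 c4490 c4442 c6481 c4311 c4407 c4409 c5842 c6461 (k1 c4338 k0))))) (by decide +kernel)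
def c6483 : PP 8 4 T 0x100000002000080000000002044000004840000050000000000002001200400020 := rS 0x281962b44155a2272488c8e1516b1ca62928a2c324d0d845e213 (k8 c4401 c5695 c4275 c638 c4282 c1998 c5853 c4405 (k8 c4402 c4290 c4289 c4285 c4283 c4374 c4372 c4281 (k8 c4277 c2266 c2256 c2109 c4904 c2025 c2110 c981 k0))) (by decide +kernel)
def c6484 : PP 8 4 T 0x10101000002000080000000000040000000000000010244000000000001000000405 := rS 0x25cea9104960089f (k8 c1340 c4461 c4476 c263 c808 c538 c1196 c6472 k0) (by decide +kernel)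
def c6485 : PP 8 4 T 0x2000080000000002044000004840000000000000000002041000400020 := rS 0x1948850155a2272488c8e1516b1ca62928a2c324d0d845e213 (k8 c4401 c5695 c4275 c638 c4282 c1998 c5853 c4405 (k8 c4402 c4290 c4289 c4285 c4283 c4374 c4372 c4281 (k4 c4277 c300 c266 c2110 (k2 c2109 c981 (k1 c2025 k0))))) (by decide +kernel)
def c6486 : PP 8 4 T 0x10100000002000080000000000040000004800000010040000000002001000000001 := rS 0x2b02d6e54108e4766788a84549f3f970befd0200c32a8539362745529842e49 (k8 c4281 c1911 c5402 c1937 c4452 c4441 c4282 c2006 (k8 c4490 c1998 c228 c4461 c4306 c549 c4477 c1457 (k8 c1340 c6485 c1734 c4411 c5084 c4403 c4279 c6483 (k4 c4904 c5964 c6212 c6484 (k1 c6373 k0))))) (by decide +kernel)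
def c6487 : PP 8 4 T 0x10000000002000080000000000040000004800000010040000000002000000004001 := rS 0xfa5564c12842a12844920d238558e130baa227455281006193fa7cb85f53934c2fd (k8 c4306 c5402 c4282 c2006 c549 c4477 c1340 c1457 (k8 c1998 c228 c4461 c1937 c4452 c4441 c4490 c1911 (k8 c4401 c4289 c4283 c4374 c4371 c4281 c4275 c1335 (k4 c6485 c5588 c6486 c4422 (k2 c4406 c4409 (k1 c2107 k0)))))) (by decide +kernel)
def c6488 : PP 8 4 T 0x10101000002000081000000000040000004000000010240000000002000005008001 := rS 0x5cadcea4359ac410c90396510562ab4456390a8fca65133a2de2130b9fc1661388900803 (k8 c228 c4461 c264 c3395 c5402 c6403 c1457 c1911 (k8 c4401 c5695 c5853 c5084 c4405 c4290 c4287 c4283 (k8 c4279 c6420 c300 c266 c6394 c2109 c37 c1018 (k8 c637 c4462 c1145 c1185 c2189 c6057 c5279 c5280 (k1 c5664 k0))))) (by decide +kernel)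
def c6489 : PP 8 4 T 0x10000000002000080000000000040000004000000110000000000000000000000000 := rS 0x5510681f4c65544ace080b07170085f6680d5a1753c4c601529944b6fda2a94c201458649a1b41045e213 (k8 c4401 c5695 c4275 c6464 c638 c4282 c1998 c5853 (k8 c6060 c5402 c1937 c4452 c4306 c6157 c4405 c4290 (k8 c4283 c6482 c4441 c2006 c1911 c2046 c228 c5541 (k8 c549 c4461 c4477 c6487 c6403 c6488 c4311 c4314 (k4 c4406 c4407 c4409 c2109 (k2 c6461 c300 (k1 c4411 k0))))))) (by decide +kernel)
def c6490 : PP 8 4 T 0x800000000002000080005400600500000044004540020000000100001401000000000 := rS 0x314f2435da249c6b548cc4e4d1192c76f1 (k8 c5695 c4403 c4375 c4372 c4282 c4277 c4339 c4345 (k8 c4442 c2111 c556 c1440 c339 c629 c4530 c2123 k0)) (by decide +kernel)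
def c6491 : PP 8 4 T 0x1000000000000010100000002000080000004000508010004000000120200000000001041105000011 := rS 0x89552ed5aa81944d823d61a5e2cb05f9d4f6b3399dd200622958b293048703e2d1da2de213888bc04b9 (k8 c3325 c4461 c796 c4412 c4401 c5695 c5853 c4403 (k8 c4285 c6292 c4466 c1058 c1029 c1026 c790 c1220 (k8 c791 c6291 c6033 c1648 c552 c1227 c498 c1245 (k8 c809 c4481 c4359 c4362 c4416 c4420 c6490 c4469 (k4 c4490 c942 c3414 c1510 (k2 c557 c5383 k0)))))) (by decide +kernel)
def c6492 : PP 8 4 T 0x10100000002000080000000000040000004000000100000000000001040000004010 := rS 0xac590525d22205ca556e9e3e0b4b7450d844324d5298cfe6412a9cb85f17809e22730805fa82 (k8 c6464 c4306 c6060 c5402 c4277 c5695 c4461 c796 (k8 c6467 c4477 c4532 c224 c6489 c2524 c41 c1937 (k8 c4282 c1998 c4275 c638 c4452 c6157 c4285 c6458 (k8 c6431 c3589 c3629 c3325 c6491 c886 c926 c6290 (k2 c534 c303 (k1 c6300 k0)))))) (by decide +kernel)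
def c6493 : PP 8 4 T 0x10100000002000080000000000040000000000000020044000000000080000004011 := rS 0xe658 (k2 c4476 c1649 (k1 c6370 k0)) (by decide +kernel)
def c6494 : PP 8 4 T 0x10100000002000080000000000040000004000000100000000000001000000004010 := rS 0x3cb151243552b4651360b0e2cb05f9ccee900311526090e2cc3e7b2b084ea3d2a0a8b8a72f8945e02138b476672dbf54a6100a2c324d0da0822f10998e2264 (k8 c6489 c4412 c41 c4401 c5695 c4275 c6464 c638 (k8 c4282 c1998 c5853 c6060 c5402 c1937 c4306 c6157 (k8 c5084 c4403 c4285 c4277 c4461 c796 c224 c6467 (k8 c4532 c4477 c6492 c226 c5433 c1686 c314 c6493 (k8 c1227 c1066 c1188 c4466 c1058 c1029 c1220 c791 (k8 c6291 c6033 c1648 c1245 c809 c5159 c4362 c4420 (k8 c6490 c4469 c942 c437 c2295 c557 c1674 c501 (k1 c2123 k0)))))))) (by decide +kernel)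
def c6495 : PP 8 4 T 0x100000001000000000000000454000000000000000000020000040401810000800005 := rS 0xa (k2 c6319 c2497 k0) (by decide +kernel)
def c6496 : PP 8 4 T 0x10000000002000080000000000040000000800000020140000000001000000004021 := rS 0x12e914624d1eb14a884ac5956acc2ccd219cd3ec8171a94ca03e9784e490691c2ac7148ecc2fd889fd5e8b0c93426032a98d56330d845e251 (k8 c4405 c5695 c4275 c638 c430 c5962 c41 c267 (k8 c29 c4401 c4282 c1998 c5853 c1776 c2524 c4412 (k8 c4306 c5402 c4403 c4402 c4289 c4283 c4374 c4371 (k8 c4281 c4277 c4477 c1651 c6371 c549 c548 c6467 (k8 c2107 c77 c3664 c3856 c3979 c6097 c2511 c901 (k8 c6495 c4476 c311 c1697 c544 c1426 c1069 c6358 (k2 c72 c1198 (k1 c6439 k0)))))))) (by decide +kernel)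
def c6497 : PP 8 4 T 0x1101000000020000a0000040001501111000004040000020000000000000020000000 := rS 0x2f8869b62a59651760c517a4549a351e231a8ede275 (k8 c539 c5695 c4403 c4373 c4372 c760 c1027 c1029 (k8 c3233 c6223 c4486 c1711 c4963 c4481 c4487 c1250 (k4 c933 c341 c2126 c6330 k0))) (by decide +kernel)
def c6498 : PP 8 4 T 0x101010000020000a0000040001509101000004050020220000000000000000004005 := rS 0x370da2a3d8b2cd620a0e9d52ab93e0442b11 (k8 c4412 c4283 c4275 c1339 c3325 c3629 c539 c6497 (k8 c4726 c622 c662 c4481 c4416 c4963 c6392 c4480 (k1 c1343 k0))) (by decide +kernel)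
def c6499 : PP 8 4 T 0x10000000002000080000000000054000000040000020001000000000000000004000 := rS 0x322847d089241a470ab1c2711 (k8 c4412 c4401 c4289 c4283 c4374 c4371 c4281 c4275 (k4 c1650 c4489 c2107 c4422 k0)) (by decide +kernel)
def c6500 : PP 8 4 T 0x101000000020000a0000000001408000000804000020244000000000000000004005 := rS 0x17479489ccb0fd4e9ad3312a2a94c271 (k8 c3396 c5402 c1937 c4452 c4490 c4443 c4442 c4343 (k4 c4306 c4476 c1649 c808 (k2 c540 c6498 (k1 c1976 k0)))) (by decide +kernel)
def c6501 : PP 8 4 T 0x10100000002000080000000000040000004000000100000000000001000000004000 := rS 0xea738bad52714608717c912287d620a47acd1a214d964acb75c9f0e29e3db42101744a64d69d892854e5f2e2a4aa33018104615298eca25b7ed154a6100a2c324d0d845e213319fcc882 (k8 c6464 c6489 c2524 c41 c4401 c5695 c4275 c638 (k8 c4282 c1998 c5853 c6060 c5402 c1937 c4452 c4306 (k8 c6157 c4405 c4403 c4290 c4283 c4372 c6494 c29 (k8 c430 c267 c6029 c6496 c39 c812 c810 c4490 (k8 c4343 c4442 c4443 c556 c532 c4465 c2109 c4319 (k8 c6499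 c3396 c1339 c3325 c3589 c6500 c37 c804 (k8 c798 c1068 c1188 c801 c5664 c622 c271 c438 (k8 c809 c6348 c4466 c1711 c4486 c1029 c1518 c4963 (k2 c1648 c1690 (k1 c4481 k0)))))))))) (by decide +kernel)
def c6502 : PP 8 4 T 0x10000000002000080000000000040000004000000100000000000001000000004000 := rS 0x5171a8ba5e5027e86c83e9560811139241a470ab1c26f130804b663889fcc882 (k8 c6464 c6489 c2524 c4412 c41 c6157 c6060 c5402 (k8 c5695 c4401 c4289 c4283 c4374 c4371 c4281 c4277 (k8 c4275 c6501 c4406 c4409 c2107 c4422 c1665 c4489 (k4 c1737 c810 c548 c6467 (k2 c6496 c1839 k0))))) (by decide +kernel)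
def c6503 : PP 8 4 T 0x10100000002000080000000000040000004000000100000000000001040000000010 := rS 0x955b8853c7c2488c8e2d638a4b7450d844324d528394e5c30bf542641297c5e827889c0401 (k8 c6060 c4461 c4277 c5695 c6464 c796 c6467 c225 (k8 c6489 c1737 c4306 c5402 c4477 c4532 c6502 c1937 (k8 c4282 c1998 c4275 c638 c4452 c6157 c4402 c4289 (k8 c4285 c4374 c4372 c4281 c6458 c2110 c6404 c3589 (k2 c3629 c6491 k0))))) (by decide +kernel)
def c6504 : PP 8 4 T 0x100000002000080000000000000000000000000020044000000000080000008011 := rS 0xe658 (k2 c4476 c1649 (k1 c6421 k0)) (by decide +kernel)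
def c6505 : PP 8 4 T 0x10100000002000080000000000040000004000000100000000000001000000000010 := rS 0x7962a2486aa568ca26c161c5960bf399dd200622a4c121c5987cf656109d47a54150b476672da9516192686c221331c44c80e53970c2fd1297c5e827889c0401 (k8 c6060 c4461 c4277 c5695 c6464 c796 c6467 c225 (k8 c4306 c5402 c4477 c4532 c6502 c6489 c4412 c41 (k8 c4401 c4275 c638 c4282 c1998 c5853 c1937 c6157 (k8 c5084 c4403 c4285 c6503 c226 c5433 c1686 c314 (k8 c6504 c1227 c1066 c1188 c4466 c1058 c1029 c1220 (k8 c791 c6291 c6033 c1648 c1245 c809 c5159 c4362 (k8 c4420 c6490 c4469 c942 c437 c2295 c557 c1674 (k2 c501 c2123 k0)))))))) (by decide +kernel)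
def c6506 : PP 8 4 T 0x10000000002000080000000000040000004000000100000000000001000000000010 := rS 0x567d2ac10be2f0109de26100bf50464 (k8 c6489 c6464 c4306 c6060 c5402 c5695 c4277 c4461 (k4 c796 c6467 c6505 c4406 (k2 c4409 c226 (k1 c6458 k0)))) (by decide +kernel)
def c6507 : PP 8 4 T 0x101000000020000a0000000001400000000804000020244000000000000000000405 := rS 0x5da54f21c489ccb02988a74d699895154a61 (k8 c5402 c1937 c4452 c4490 c4443 c4442 c4343 c4412 (k8 c4402 c4476 c1649 c808 c4726 c540 c762 c1976 (k1 c6497 k0))) (by decide +kernel)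
def c6508 : PP 8 4 T 0x110000000002000080000000000040000000000000004008000000000000000008421 := rS 0x3e2e16659388916ea12e0847639 (k8 c4279 c4403 c2255 c265 c810 c5964 c264 c3395 (k4 c37 c1188 c5664 c6461 (k1 c1356 k0))) (by decide +kernel)
def c6509 : PP 8 4 T 0x10000000002000080000000000040000004000000100000000000001000000000000 := rS 0x3eace08573db421017449ae24a754970aa3301810160e11854a6512dd154a6100a2c324d0da0822f10998e2264 (k8 c6489 c4412 c41 c4401 c5695 c4275 c6464 c638 (k8 c4282 c1998 c5853 c6060 c5402 c1937 c4452 c6157 (k8 c4405 c4290 c4283 c4372 c6502 c6403 c6506 c29 (k8 c430 c267 c265 c6029 c812 c4490 c4442 c556 (k8 c532 c4465 c2109 c4319 c6508 c6507 c4311 c4409 (k1 c6461 k0)))))) (by decide +kernel)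
def c6510 : PP 8 4 T 0x10000000002000080000000000040000004000000100000000000000000000000000 := rS 0x5544b4406ad0b8c15e64458643682089342a5309945e201 (k8 c6060 c5695 c4405 c4401 c4290 c4283 c4282 c4275 (k8 c6464 c638 c1998 c5853 c6489 c1776 c6509 c1911 (k4 c2046 c228 c301 c557 (k2 c1647 c2109 k0)))) (by decide +kernel)
def c6511 : PP 8 4 T 0x100000002000080000000000040000004400000110100000000001000000000000 := rS 0x2703ab3042c56c0749a6d3256629dc874a1744cd4291d984b6a72fa955e6d56aacc40b4092d0a1b0c83552330200de2234a8f4a86700c44550c (k8 c6510 c5243 c4962 c6060 c5084 c4904 c5433 c1694 (k8 c4372 c5695 c227 c4461 c2404 c6029 c4371 c269 (k8 c429 c6224 c4375 c6395 c6212 c4478 c1612 c6230 (k8 c695 c1775 c4385 c4382 c4330 c6157 c5402 c4403 (k8 c4402 c2119 c4442 c4469 c4491 c3856 c3754 c4429 (k8 c6369 c1071 c804 c1070 c1018 c6373 c1148 c4462 (k4 c1163 c1058 c6342 c784 k0))))))) (by decide +kernel)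
def c6512 : PP 8 4 T 0x100100000000000080100000000054010000000000008244000000400000000000405 := rS 0x3e1ce861c5b161fa7f (k8 c1457 c4377 c4476 c5642 c4726 c4424 c3008 c4483 (k1 c1626 k0)) (by decide +kernel)
def c6513 : PP 8 4 T 0x100100000002000080000000000054001000000000010240000000000080000000001 := rS 0x162b62b1fdfa3b01b24c40b4a8f4a867 (k8 c5084 c4904 c5433 c1694 c6212 c4478 c3655 c227 (k4 c4403 c4377 c1457 c6512 (k2 c6373 c1147 (k1 c5279 k0)))) (by decide +kernel)
def c6514 : PP 8 4 T 0x100101000000000080100000000054011100000000008044000000400000000000405 := rS 0x7e582ce87153ec596c73498183897049604604 (k8 c4461 c4372 c4476 c263 c816 c4726 c4462 c1029 (k8 c3008 c5944 c4487 c1626 c4353 c4424 c4357 c5772 (k2 c4483 c674 k0))) (by decide +kernel)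
def c6515 : PP 8 4 T 0x100000002000080000000000040000004000000110000000000001000000000000 := rS 0x31532bf4eb28ee700f1f986c137a5e2a0858ad80e934d9599afd41175769542a047a0b0db255654312b41a4b1dbc4ce5b48a851a9f88864080300abc550c (k8 c6510 c5243 c1775 c6060 c227 c4461 c269 c4962 (k8 c4384 c4383 c4329 c4327 c6157 c5084 c5695 c4403 (k8 c4375 c4371 c6230 c4478 c4904 c1612 c3655 c429 (k8 c6212 c5433 c6395 c6224 c1694 c4945 c6513 c6511 (k8 c4306 c2065 c6514 c804 c1070 c1018 c6373 c1148 (k8 c4462 c4353 c1166 c1078 c1749 c1168 c5279 c262 (k8 c4480 c2003 c677 c1233 c1513 c1071 c1757 c2127 k0))))))) (by decide +kernel)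
def c6516 : PP 8 4 T 0x100000001000000000000000444000000000001000810020000000405010000000005 := rS 0x42170595b13 (k4 c4442 c2049 c6097 c4469 (k2 c6495 c1950 k0)) (by decide +kernel)
def c6517 : PP 8 4 T 0x1000000080000000001500000000400001501500000000000000005000000 := rS 0x42a041a4b (k4 c4375 c4371 c6395 c6224 (k1 c2119 k0)) (by decide +kernel)
def c6518 : PP 8 4 T 0x400000000000100001000002000084000000440554001100400000110520000000001000000000505 := rS 0xcda2b2e96bc562ed8a9b8910087090d274d6bf583062ac38b1e56c454ca4d2a8f55aa40c1c1988c96291d945e2610c9b40897 (k8 c1196 c4461 c695 c269 c5402 c5695 c4405 c4403 (k8 c4402 c4375 c4372 c6309 c4726 c4462 c6029 c5962 (k8 c760 c762 c1029 c1032 c3233 c5944 c2485 c4487 (k8 c4958 c4353 c4420 c5772 c1243 c6516 c1235 c6517 (k8 c4315 c334 c689 c4479 c765 c4530 c1850 c4553 (k4 c2126 c4458 c2027 c4454 (k2 c2068 c4495 k0))))))) (by decide +kernel)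
def c6519 : PP 8 4 T 0x1000000080000000000500000000400000101500000000001000004400020 := rS 0xd6a9428cd020d1192c326d (k8 c695 c269 c4375 c4372 c4371 c6395 c430 c6224 (k2 c6029 c6097 (k1 c2119 k0))) (by decide +kernel)
def c6520 : PP 8 4 T 0x2001000001000000080000000000500001100001401100040000000005001200400800 := rS 0x13c5e423d466246b4eaa44e4d1181c6e8f (k8 c4388 c4386 c4 c4372 c4282 c4277 c6029 c966 (k8 c6097 c4479 c4539 c4482 c703 c6259 c338 c4839 k0)) (by decide +kernel)
def c6521 : PP 8 4 T 0x2000080000000000040000004400000110104000000001000000000000 := rS 0xc1629ed868b682b48713191e6121a1e1162817102c4146f389d4ee092c0b5e2612da4542a72fa353ea588abcdab3449cdfb4367b20fa5506b1c1e04018a80225861fe0811248548e13 (k8 c4401 c4374 c4283 c4281 c4275 c6515 c4313 c6510 (k8 c4381 c6060 c5243 c227 c4461 c264 c4289 c4371 (k8 c4406 c4409 c2107 c1793 c4422 c4961 c4408 c4314 (k8 c4311 c695 c1775 c4962 c4385 c4384 c4383 c4382 (k8 c4330 c4329 c4327 c6157 c5402 c5695 c4285 c4476 (k8 c263 c1112 c538 c536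 c1108 c6518 c622 c535 (k8 c2497 c4480 c2409 c314 c6519 c4315 c599 c6520 (k8 c4339 c2293 c942 c436 c5443 c5849 c703 c1783 (k2 c1711 c2123 k0))))))))) (by decide +kernel)
def c6522 : PP 8 4 T 0x100001000002000080200000100054055500000040000000000000000000000000000 := rS 0x379c56d153aae62cb5 (k8 c1705 c4487 c5821 c4417 c4963 c2125 c586 c1077 (k1 c4480 k0)) (by decide +kernel)
def c6523 : PP 8 4 T 0x1000000080000000000500100000400000101500000000001000004000820 := rS 0x2c33 (k2 c430 c6519 (k1 c6343 k0)) (by decide +kernel)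
def c6524 : PP 8 4 T 0x20001001000000080000100100000400400000011100000000040005000028000000 := rS 0xdf155d1e57e454ec48d6a9118d522a746a953309 (k8 c4315 c1032 c4385 c4383 c4330 c4327 c4373 c4372 (k8 c6029 c559 c4479 c4343 c1219 c6330 c599 c2126 (k2 c4390 c1350 (k1 c4480 k0)))) (by decide +kernel)
def c6525 : PP 8 4 T 0x2000080000000000040000004400000110100000000001000000000000 := rS 0x118619dd8a9c202a8d4ad178c8861a5ea6414710e0256e1f8ba591eb14a81d26214d9ecac2d1fbc4c25b48a854e5f46a7d4b1136accc6737eb20fa5506b1c1e04018a80225861fe0811248548e13 (k8 c4401 c4374 c4283 c4281 c4275 c6515 c4313 c6510 (k8 c4381 c6060 c5243 c227 c4461 c264 c4289 c4371 (k8 c4406 c4409 c2107 c4961 c4408 c4407 c4311 c695 (k8 c4962 c4385 c4384 c4383 c4382 c4330 c4329 c4327 (k8 c6157 c5402 c5695 c4287 c4285 c6521 c1227 c804 (k8 c798 c1070 c1018 c802 c1148 c800 c6522 c4359 (k8 c1193 c1166 c262 c4466 c587 c4462 c1032 c6133 (k8 c6523 c335 c6524 c17 c942 c431 c437 c953 (k4 c952 c1253 c1920 c5754 (k2 c4791 c4368 k0))))))))))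 (by decide +kernel)
def c6526 : PP 8 4 T 0x200000002000080000000000000000004400000000000000000000000005404000 := rS 0x19b4568139165328bc5134367b20fa5506b1cfe11248548e13 (k8 c4401 c4374 c4283 c4281 c4275 c4313 c4289 c4371 (k8 c4406 c4409 c2107 c1793 c4422 c4314 c5695 c4405 (k4 c4290 c5853 c6153 c2109 (k2 c4396 c1479 (k1 c5846 k0))))) (by decide +kernel)
def c6527 : PP 8 4 T 0x100200000002000080000000040554001105400400010020000000001000001004505 := rS 0x5da6d7a4021c24349d0bafcd6b03ca65269547aad52060e0cc464b148eca2f1022cce6fd641f4aa0d639fc22490a91c2697 (k8 c1196 c4401 c4374 c4283 c4281 c4275 c4313 c4289 (k8 c4371 c4406 c4409 c2107 c4961 c4408 c4311 c4461 (k8 c5695 c4405 c4403 c4402 c4375 c4372 c6309 c4726 (k8 c4462 c6029 c5962 c760 c762 c1029 c1032 c2485 (k8 c6522 c6516 c1243 c532 c1235 c6526 c4315 c334 (k4 c689 c4507 c765 c1850 (k1 c2126 k0))))))) (by decide +kernel)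
def c6528 : PP 8 4 T 0x2000080000000000040000004400000110004000000001000000000000 := rS 0xc162afd86cd682b487131932e12795caed6e1a22a5628bd0b8803eb1052d4de973a9dce2092c0d45a3b7896d22a153a353ea5888655e6d59bf59ec83e9541ac707810062a00896187f8204492152384d0a5c (k8 c6525 c1498 c4401 c4374 c4283 c4281 c4275 c6515 (k8 c4313 c6510 c4381 c6060 c5243 c227 c4461 c264 (k8 c4289 c4371 c4406 c4409 c2107 c1793 c4961 c4311 (k8 c695 c1775 c269 c4962 c4385 c4384 c4383 c4330 (k8 c4329 c4327 c6157 c5695 c4403 c4285 c4373 c4476 (k8 c263 c1418 c1112 c538 c1196 c1107 c1704 c6527 (k8 c622 c271 c535 c2497 c6133 c4480 c1695 c2409 (k8 c6526 c4353 c4390 c5821 c599 c4315 c5740 c6520 (k8 c4339 c2293 c942 c436 c5446 c5849 c6330 c4530 (k2 c1711 c2129 k0)))))))))) (by decide +kernel)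
def c6529 : PP 8 4 T 0x100200000002000080000000040000400004404000010048000000001000005004061 := rS 0x11822274821d0402da29961d28eead8990c5c6a55859163309945e2b3 (k8 c4311 c5695 c4405 c4401 c430 c5853 c6526 c5962 (k8 c532 c533 c1951 c4442 c2049 c3754 c4491 c5849 (k8 c1071 c4426 c6343 c4462 c1058 c1063 c784 c5850 (k2 c4488 c4364 k0)))) (by decide +kernel)
def c6530 : PP 8 4 T 0x100001000002000080200000000054055100000040000008000000000000000000000 := rS 0x703aa3a2cb1 (k4 c1147 c4487 c6522 c4417 (k2 c801 c586 k0)) (by decide +kernel)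
def c6531 : PP 8 4 T 0x2000080000000000040000004400000110000000000001000000000000 := rS 0x118619dd8a9c202a8d4ad178c97a99388711eb70fc5d2c430d2c52a0749885367b2b0b47ef12da45428d4fc4432af36accc6737eb20fa5506b1c1e04018a80225861fe0811248548e13 (k8 c4401 c4374 c4283 c4281 c4275 c6515 c4313 c6510 (k8 c4381 c6060 c5243 c227 c4461 c264 c4289 c4371 (k8 c4406 c4409 c2107 c4961 c4408 c4407 c4311 c695 (k8 c1775 c269 c4962 c4384 c4383 c4329 c4327 c6157 (k8 c5695 c4287 c4285 c6528 c1227 c804 c798 c1070 (k8 c1018 c802 c1147 c6529 c335 c6530 c4359 c1193 (k8 c1166 c930 c4466 c587 c1032 c6133 c6524 c17 (k8 c942 c431 c437 c953 c952 c1253 c1920 c5754 (k2 c4791 c4368 k0))))))))) (by decide +kernel)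
def c6532 : PP 8 4 T 0x2000080000000000040000004000000110000000000001000000000000 := rS 0x407c16964ca5526072b164ee43568b8d41668b3d568b19b3437454150d90fd3e9ccc655449fd670457844920d238547ec72984c523b28bc4b69150a353f110c83c0803150044b0c (k8 c6510 c4381 c6060 c5243 c227 c4461 c264 c269 (k8 c4962 c4384 c4383 c4329 c4327 c6157 c5695 c4405 (k8 c4403 c4402 c4401 c4290 c4289 c4287 c4283 c4374 (k8 c4371 c4281 c4275 c1775 c6515 c4311 c4313 c4314 (k8 c4406 c4407 c4408 c4409 c4961 c2107 c4422 c6531 (k8 c4452 c638 c2064 c430 c5853 c5962 c1792 c5846 (k8 c2109 c532 c533 c2049 c3856 c3754 c6495 c4476 (k8 c526 c1070 c802 c1071 c6530 c6343 c1193 c4462 (k1 c262 k0))))))))) (by decide +kernel)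
def c6533 : PP 8 4 T 0x1000000000000000000000000000000000000040000000002000008000020 := rS 0x418ca708a560501cf25921824d833 (k8 c62 c295 c2232 c6268 c4993 c600 c2679 c4462 (k4 c4476 c439 c960 c4367 (k2 c1052 c4472 k0))) (by decide +kernel)
def c6534 : PP 8 4 T 0x100101000000000080000000000054001100000000050044000000400080000000001 := rS 0x2507a0b64950c403 (k8 c227 c4478 c4904 c3655 c6212 c5433 c6514 c1694 k0) (by decide +kernel)
def c6535 : PP 8 4 T 0x200000002000080000000000000000004800000000000000000000000005404000 := rS 0x33e86cba5b21a0cd3e955127f089241a470ab1ca65145bc42745 (k8 c4452 c4401 c5695 c5853 c4405 c4290 c4289 c4283 (k8 c4374 c4371 c4281 c4275 c4313 c4314 c4406 c4409 (k8 c2064 c2109 c2107 c4426 c1750 c4422 c1792 c4495 k0))) (by decide +kernel)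
def c6536 : PP 8 4 T 0x2000080000000000040000004000000110000000000000000000000000 := rS 0xafa5b29107e5b2c416c955958ba5431415fa820d93d5a17898c01e190200ca63b7899c025b48a844a8d4fc44550c (k8 c6510 c5243 c4962 c4384 c4383 c4381 c4329 c4327 (k8 c6157 c6060 c5084 c5695 c4403 c4290 c227 c4461 (k8 c269 c264 c6532 c4441 c1911 c2046 c298 c6533 (k8 c6153 c4306 c6535 c4478 c4904 c6513 c6534 c1612 (k8 c3655 c6212 c1148 c6373 c5279 c676 c677 c4457 (k2 c3686 c4491 k0)))))) (by decide +kernel)
def c6537 : PP 8 4 T 0x100000001000000000200440045500101510001000000020000100401010000800005 := rS 0xb861af1654a4ea6d5b13218b8d404 (k8 c4461 c532 c533 c1950 c4442 c2048 c1968 c785 (k4 c4491 c6495 c2126 c4459 (k2 c635 c1207 k0))) (by decide +kernel)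
def c6538 : PP 8 4 T 0x400000000000000000000002000084000000000000000014400000000001000000000000005404000 := rS 0x66d15a04e248558e5328a2de213 (k8 c4401 c5695 c5853 c4405 c4290 c4289 c4283 c4281 (k4 c6153 c2109 c4396 c1479 (k1 c5846 k0))) (by decide +kernel)
def c6539 : PP 8 4 T 0x20000000002000080200000040000000004400000000021000000001000005000105 := rS 0xf29947afc8a9b030713a438982cf62e3505956a95d8cd0223258a4765178a454e8d52c441e0412d0d12cf (k8 c1793 c636 c4422 c4381 c4461 c264 c4962 c4385 (k8 c4383 c4330 c4327 c5695 c4405 c4403 c4402 c4375 (k8 c4372 c6395 c430 c4945 c6029 c5962 c6538 c532 (k8 c533 c2492 c2497 c4442 c3856 c1234 c4726 c4462 (k4 c765 c1219 c5760 c760 (k2 c1032 c2485 (k1 c6537 k0))))))) (by decide +kernel)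
def c6540 : PP 8 4 T 0x100000002000080200000040500001104400000000020000000001000009004505 := rS 0x563292eb3422e578bb8aad58abf4e9e880b03aa6c8a9949a551e6b55aa40c430e0cc46352584c523b28bc408fda1b3cde17 (k8 c9 c1107 c1793 c4422 c4305 c4461 c5695 c4405 (k8 c4403 c4402 c4401 c4375 c4373 c4372 c6309 c4726 (k8 c334 c4462 c6029 c5962 c559 c760 c762 c1029 (k8 c1032 c3233 c765 c498 c6281 c689 c688 c1235 (k8 c6330 c4530 c1704 c4349 c1850 c2126 c3218 c1172 (k4 c635 c4793 c717 c6344 (k1 c2026 k0))))))) (by decide +kernel)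
def c6541 : PP 8 4 T 0x100000002000080200000000500001104400000020044000000001080009004005 := rS 0x2cc1415579601204 (k8 c4461 c263 c4476 c1775 c4283 c6540 c662 c6379 k0) (by decide +kernel)
def c6542 : PP 8 4 T 0x400000000000100000000002000084000000000540041100000000100020000000001000008000505 := rS 0x3368acba5af158c15db157ec389274809b22a6526954787cd6ab54818861c198844635258a47651789b40909 (k8 c4315 c4461 c695 c5695 c4405 c4403 c4402 c4375 (k8 c4373 c4372 c310 c6309 c4726 c334 c4462 c6029 (k8 c5962 c559 c10 c760 c762 c1029 c1032 c3233 (k8 c765 c689 c1235 c4479 c4958 c6330 c4530 c1850 (k8 c1852 c6176 c2126 c4458 c2027 c4454 c2068 c4495 k0))))) (by decide +kernel)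
def c6543 : PP 8 4 T 0x2000080000000000040000004400000100004000000001000000000004 := rS 0x60a2d86c53db40d4ad21c4cea324ac508a200fac4149759c10f3090b868de713b824e658168ede25b48a9cbe8d52c455e2a0c9b5fb4344b3d90553ea7c1ac7078100225861fcc811248548e13 (k8 c4401 c4374 c4283 c4281 c4275 c6536 c555 c6510 (k8 c4381 c6060 c4461 c264 c4289 c4371 c4384 c1650 (k8 c1647 c2107 c1793 c636 c4422 c4305 c695 c269 (k8 c5243 c1775 c4962 c4385 c4383 c4382 c4330 c4327 (k8 c6157 c5695 c4403 c4285 c4476 c1649 c263 c1112 (k8 c536 c1107 c6539 c9 c4315 c2504 c6541 c4311 (k8 c1195 c6542 c622 c271 c535 c439 c4480 c1695 (k8 c6520 c539 c4339 c2293 c942 c431 c436 c703 (k4 c4530 c5849 c565 c1711 (k1 c2123 k0)))))))))) (by decide +kernel)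
def c6544 : PP 8 4 T 0x400000000000100000000002000084000000440000400014400000000049000000001000005004061 := rS 0x3048b184e9047a1d0402da29961d28eead8990c5c6a55858663f298eca2f1 (k8 c5695 c4405 c4403 c4290 c4287 c430 c6538 c5962 (k8 c532 c533 c1951 c4442 c2048 c3754 c4491 c5849 (k8 c1071 c4426 c6343 c4462 c1058 c2188 c1063 c784 (k4 c4488 c4363 c4450 c6159 k0)))) (by decide +kernel)
def c6545 : PP 8 4 T 0x100000000002000080200000000054051100000040000008000000000000000000000 := rS 0x126fd (k2 c4305 c1069 (k1 c6530 k0)) (by decide +kernel)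
def c6546 : PP 8 4 T 0x100000000002000080200000000554411100050000000048000000001000008000460 := rS 0x1768f371c97eb65caf53a974c9d8883d1b878d6a9041e466392488c8e4b1fb1ca2f17ed0d6ab1 (k8 c1147 c1705 c4422 c4305 c5695 c4405 c4289 c4287 (k8 c4375 c4374 c4372 c4281 c4279 c6309 c598 c4462 (k8 c6029 c559 c262 c2187 c2188 c424 c425 c1072 (k8 c1193 c1233 c1169 c5821 c4034 c3095 c6545 c4956 (k2 c1346 c1350 (k1 c2126 k0)))))) (by decide +kernel)
def c6547 : PP 8 4 T 0x2000080000000000040000004400000100000000000001000000000004 := rS 0x461867762a7080aa352b45e325e9c56f174b1cd3293478703e0a2186962b34a81c429b3d9599e89a1bf5906d07864aa04089241a23238545ac7098ede2012da4542a712a354b11319fcfa644fabc550c (k8 c6510 c5243 c1775 c4384 c6536 c1650 c555 c41 (k8 c4962 c4385 c4383 c4381 c4330 c4329 c4327 c6157 (k8 c6060 c5695 c4403 c4401 c4289 c4285 c4283 c4374 (k8 c4372 c4371 c4281 c4275 c4461 c1647 c269 c264 (k8 c695 c2107 c4305 c4422 c636 c1793 c6543 c1227 (k8 c804 c798 c1018 c802 c1188 c1147 c6544 c335 (k8 c6546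 c271 c4466 c760 c1029 c1032 c1648 c6522 (k8 c4359 c1166 c587 c6133 c6524 c17 c942 c431 (k8 c437 c953 c952 c1253 c1920 c5754 c4791 c4368 k0))))))))) (by decide +kernel)
def c6548 : PP 8 4 T 0x20002001000000080000000000000000000000000100000000000005000000000008 := rS 0x8909c9a0d1192d4e252fa945e1b (k8 c423 c796 c4385 c4382 c4381 c4330 c4375 c4372 (k4 c4371 c4282 c4277 c4469 (k1 c4502 k0))) (by decide +kernel)
def c6549 : PP 8 4 T 0x1000000005500000000000000014550000000000000000000000005041000 := rS 0x11685 (k2 c6224 c5853 (k1 c2124 k0)) (by decide +kernel)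
def c6550 : PP 8 4 T 0x2000080000000000040000004400000100004000000001000000000000 := rS 0xc32d9e8966b4154ad898c902b67e2c566370425c3c6f38874e6581c8345a3f09bc4b65f469fcfa644fabc36c9249d4423d338060a5401444550c (k8 c6510 c5243 c4962 c6547 c226 c4406 c6060 c5084 (k8 c5433 c314 c1686 c4281 c1726 c423 c1775 c4384 (k8 c6536 c1650 c555 c4383 c4382 c6157 c5695 c4401 (k8 c4287 c4285 c4371 c4279 c4476 c1649 c790 c536 (k8 c1107 c4466 c1193 c222 c2130 c553 c1145 c6405 (k8 c5124 c4380 c6548 c4339 c942 c437 c436 c5446 (k4 c557 c3605 c1750 c6549 (k1 c2177 k0)))))))) (by decide +kernel)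
def c6551 : PP 8 4 T 0x2000080000000000040000004400000100000000000001000000000000 := rS 0x32d9e8966865a0aa56c4c64817e2d8e26f39819261c58acc3e56109d47ac9829503605011241a351684c76f1338052311319fcfa644fabc550c (k8 c6510 c5243 c1775 c4384 c6536 c1650 c555 c41 (k8 c4962 c4327 c6060 c5084 c5695 c4403 c4401 c4285 (k8 c4373 c4371 c4281 c6547 c29 c423 c226 c4406 (k8 c1726 c5433 c1686 c314 c6550 c1066 c1188 c1147 (k8 c4466 c1029 c791 c1648 c1019 c496 c5124 c5279 (k8 c4380 c6548 c4339 c942 c437 c436 c2177 c5446 (k4 c557 c3605 c1750 c6549 k0))))))) (by decide +kernel)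
def c6552 : PP 8 4 T 0x100000001000000000200040241500101514801000000021501100401010005140005 := rS 0x5f1ec2cd166d1556330250d9e8b (k8 c5853 c1792 c4422 c4461 c430 c5962 c4452 c2064 (k4 c5846 c2109 c2492 c6537 (k1 c1242 k0))) (by decide +kernel)
def c6553 : PP 8 4 T 0x100000001000000000200040841540001104800000020020501000401010005140005 := rS 0x5ea7536bf60b2d586aa5a208a9962a3c38b05c258f20b8b9fcaaab198119e8b (k8 c5853 c1792 c4461 c430 c5962 c1647 c555 c4357 (k8 c2519 c2616 c553 c635 c634 c4726 c930 c3269 (k8 c1200 c3233 c6552 c4457 c556 c557 c2025 c1984 (k4 c4572 c1968 c947 c1208 (k1 c2126 k0))))) (by decide +kernel)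
def c6554 : PP 8 4 T 0x100100000002000080200040000554001104800000020044000000001080000000005 := rS 0xbd5fa7536cc65ab0d48861ac0f2755b115329547818380b3fbf4aa094bacd52330208c324d0d8455ef1288ec5213298549258 (k8 c4476 c4281 c4283 c4290 c4401 c4402 c4403 c4405 (k8 c5695 c1775 c4275 c638 c4282 c1998 c4372 c4461 (k8 c430 c6029 c6553 c1195 c263 c1647 c4306 c555 (k8 c6379 c4726 c4462 c760 c762 c1032 c3233 c5944 (k8 c498 c2485 c6281 c4958 c6552 c556 c557 c2025 (k4 c637 c1968 c946 c1247 (k2 c2068 c2126 k0))))))) (by decide +kernel)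
def c6555 : PP 8 4 T 0x100000000002000080000040000554001104800000020044000000001080000004005 := rS 0x10d5a0b171a82c89822ccb053148ed5e1926b20aa7d06b1cfe490a91c26a911aac66040d845e251 (k8 c4405 c5695 c4275 c638 c4461 c430 c5962 c4372 (k8 c6029 c4401 c4374 c4283 c4281 c555 c4289 c4371 (k8 c1650 c1647 c2107 c4282 c1998 c1775 c4403 c4402 (k8 c4290 c4476 c6553 c6554 c4314 c6535 c532 c533 (k4 c2497 c2048 c3856 c6319 k0))))) (by decide +kernel)
def c6556 : PP 8 4 T 0x400000000000000000001000000004005000000001400014800000000001501055400000005140020 := rS 0x44d3319351102cd166d151633 (k8 c430 c5853 c4452 c2064 c5846 c2109 c6159 c532 (k4 c4363 c1130 c4442 c4488 k0)) (by decide +kernel)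
def c6557 : PP 8 4 T 0x100000000002000080200040000554401104800000020049000000001000000000220 := rS 0x2f57e996632d588847b0cdcb649304e4414ea5c7a430f1242a3f298eca27f3ebf5523311d0d9e8b0c93436117884d2a63 (k8 c41 c802 c4401 c5695 c4275 c638 c4282 c1998 (k8 c5853 c1792 c4422 c4372 c430 c6029 c4306 c1650 (k8 c555 c4405 c4403 c4290 c4287 c4283 c4281 c262 (k8 c2189 c2188 c1193 c1233 c3063 c6545 c3587 c1648 (k8 c1730 c4956 c3069 c1346 c6556 c557 c2025 c637 (k4 c2050 c1247 c2068 c2126 k0)))))) (by decide +kernel)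
def c6558 : PP 8 4 T 0x2000080000000000040000004000000100000000000001000000000004 := rS 0x3419a893585d320a0f8240e9b2b33e86c81983caa04248348e156394ca2012da4542a712a354b11151fcfa644fd15770c458649a1b41045e213 (k8 c4401 c5695 c4275 c6551 c638 c4282 c1998 c5853 (k8 c6510 c4898 c4452 c4384 c6536 c1650 c555 c5243 (k8 c4962 c4385 c4383 c4381 c4330 c4329 c4327 c6157 (k8 c6060 c4405 c4290 c4289 c4283 c4374 c4371 c4281 (k8 c4461 c1647 c264 c430 c2107 c4422 c1792 c6555 (k8 c804 c1018 c6557 c1065 c4462 c6171 c6343 c6097 (k4 c556 c2064 c2109 c5846 k0))))))) (by decide +kernel)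
def c6559 : PP 8 4 T 0x100000002000080100000000000000100850100020044000001000000100000008 := rS 0x58acc6e084b878de710e960723f5cade84fd (k8 c4306 c4483 c4424 c4394 c4287 c4279 c4476 c790 (k8 c2500 c1107 c4466 c1193 c222 c2130 c553 c1145 (k1 c5963 k0))) (by decide +kernel)
def c6560 : PP 8 4 T 0x2000080000000000040000004000000100000000000001000000000000 := rS 0x12d160e07cac7349add7221a11d47a9564c14a805013f50449118ecce012da45428d888a8c67f3e9913f0c (k8 c6510 c4384 c6536 c1650 c555 c41 c5243 c4962 (k8 c4383 c4329 c4327 c6157 c6060 c5084 c4403 c4372 (k8 c4281 c6551 c4306 c6558 c29 c226 c4406 c1726 (k8 c3628 c5433 c1686 c4483 c314 c4394 c4424 c5348 (k4 c1648 c6559 c1066 c4466 (k2 c5159 c5944 (k1 c4360 k0))))))) (by decide +kernel)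
def c6561 : PP 8 4 T 0x1000000080000000000000000000400000100040000000002001000400020 := rS 0xd83c324f (k4 c298 c269 c264 c6533 (k1 c6153 k0)) (by decide +kernel)
def c6562 : PP 8 4 T 0x1000001000000010004000000000400000004000800044500115400000100000008 := rS 0x6090e301e3c9dc3a58 (k8 c4476 c790 c1921 c541 c4466 c4482 c2132 c4450 (k1 c6159 k0)) (by decide +kernel)
def c6563 : PP 8 4 T 0x100000001000000000000000000000000004000000160040500004402080000000011 := rS 0x60460ee733c81926090e2cc3e5661b14428ba51d47b053da6c830968914a86a0c02c360231c4d12ad (k8 c2046 c557 c4441 c41 c4461 c294 c2245 c228 (k8 c229 c226 c2139 c2141 c4436 c3826 c3875 c5481 (k8 c4406 c5433 c1686 c4151 c1766 c314 c4429 c4459 (k8 c6562 c1066 c1188 c4466 c1058 c1029 c791 c1959 (k4 c1648 c1023 c4482 c2123 (k1 c4450 k0)))))) (by decide +kernel)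
def c6564 : PP 8 4 T 0x2000080000000000040000004000000100000000000000000000000000 := rS 0x15ed04586caa19022255a171818cc82a88c30b667008547e53098eca2f1 (k8 c5695 c4405 c4403 c4401 c4290 c4287 c4283 c6060 (k8 c5084 c6157 c6510 c4962 c5243 c6536 c41 c6560 (k8 c1911 c2046 c557 c6563 c269 c267 c6533 c5853 (k2 c2109 c1776 (k1 c301 k0))))) (by decide +kernel)
def c6565 : PP 8 4 T 0x2001000000080000000000080000060400000101080000000001000015000002 := rS 0x3b9c576795f8193abd468819ecc0faa15aae4d8ca1313362954eab3db2e96a188d0cbe5d119ad024b42835626f (k8 c4378 c624 c4371 c6224 c4375 c6395 c493 c4372 (k8 c752 c488 c4393 c4337 c132 c4457 c2024 c2665 (k8 c1944 c941 c1470 c5947 c4130 c4317 c5814 c865 (k8 c681 c945 c4526 c5697 c989 c1524 c4466 c3459 (k8 c5748 c2968 c831 c5760 c601 c1444 c496 c1024 (k1 c2122 k0)))))) (by decide +kernel)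
def c6566 : PP 8 4 T 0x100000000000000000000000080000200000004080010000000000000000000000 := rS 0x16475492e12e9f (k4 c78 c1198 c1467 c1468 (k2 c593 c4548 (k1 c1123 k0))) (by decide +kernel)
def c6567 : PP 8 4 T 0x100001000000080000000800080000054440004101080000000001000005000002 := rS 0x5daf57ecd619ed374a0b0ca126c53a3970793b9c5288125a141ab1 (k8 c624 c4371 c6224 c4375 c6395 c665 c666 c1192 (k8 c668 c859 c858 c2860 c5947 c4317 c5814 c4465 (k8 c4485 c2863 c2474 c4459 c4460 c1516 c1207 c1477 (k1 c2122 k0)))) (by decide +kernel)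
def c6568 : PP 8 4 T 0x100100000000000004100001520800001154454004080000000000400000200001002 := rS 0x18a795e4556cb9399c586c13a8192e954c9de114b (k8 c4458 c4485 c4438 c2011 c857 c2930 c831 c593 (k8 c1987 c4958 c496 c1021 c5280 c2121 c4353 c4500 (k2 c2016 c1176 (k1 c2123 k0)))) (by decide +kernel)
def c6569 : PP 8 4 T 0x100000002000080100000000000000014440004100080000000005040015000002 := rS 0x88435e4556cc3609d482371ea5c101e03885a299652b14c7b679b552a51c9246a472594c765112b1cbe0d5a8fcd67d2e88d22b105a34b2955998516137899a22a2 (k8 c6564 c4337 c5056 c5695 c4401 c5853 c937 c6567 (k8 c857 c64 c6566 c567 c624 c2943 c4372 c752 (k8 c1353 c493 c4287 c5235 c4371 c488 c4289 c1463 (k8 c4405 c4403 c4290 c4375 c4374 c4373 c4281 c4279 (k8 c5936 c6029 c5814 c1523 c704 c6517 c940 c941 (k8 c2011 c1750 c6568 c495 c4466 c4462 c1193 c274 (k8 c272 c1103 c593 c1987 c4958 c4559 c4353 c4500 (k2 c276 c6159 (k1 c1169 k0))))))))) (by decide +kernel)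
def c6570 : PP 8 4 T 0x100000002000080100000000000000014440004100080000000001040015000002 := rS 0x8c300ee733c9d40c9d4b88186c50fd2a127b3626c64b31da2de21333444c2a2 (k8 c6564 c937 c4337 c5056 c4401 c5695 c5853 c4403 (k8 c6567 c6569 c2863 c950 c705 c4317 c4485 c5697 (k8 c4429 c4459 c4466 c2930 c2968 c831 c593 c601 (k4 c1021 c1024 c2123 c4482 (k1 c4450 k0))))) (by decide +kernel)
def c6571 : PP 8 4 T 0x102001000000080000001800080000054400000101080000000001000005000002 := rS 0x17b18619ee9416849b14eb83c9c4ee944092d0a0d (k8 c4371 c6224 c4375 c6395 c665 c1192 c667 c668 (k8 c859 c2860 c5947 c4317 c4465 c4485 c2474 c4459 (k2 c4482 c1207 (k1 c6225 k0)))) (by decide +kernel)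
def c6572 : PP 8 4 T 0x100100000002000084000000420800001154404000000000000000000000200000002 := rS 0x18a795e4562c7361b04ea064b8ed2a664c9de114b (k8 c4458 c4485 c4438 c2011 c5056 c857 c4403 c2930 (k8 c831 c593 c1987 c4958 c1021 c4481 c4963 c4500 (k2 c2016 c1176 (k1 c2123 k0)))) (by decide +kernel)
def c6573 : PP 8 4 T 0x100000002000084000000400000000014400004101080000000005040015000002 := rS 0xbd8a9116cc3609d482371e90d2e080f01c42d14cb2958a63d9b552a51c9246a472594c765112b1cbe0d2ead47e2335a4516f10982d1a594a99a22a2 (k8 c6564 c4337 c5056 c857 c64 c6566 c567 c4401 (k8 c5695 c5853 c2943 c493 c4372 c4287 c5235 c752 (k8 c4371 c488 c4289 c1463 c4405 c4403 c4290 c4375 (k8 c4374 c4373 c4281 c4279 c5936 c6029 c5814 c704 (k8 c6517 c940 c941 c2011 c1750 c6572 c495 c4466 (k8 c4462 c1193 c276 c274 c272 c1103 c593 c1987 (k4 c4958 c4559 c6159 c4353 (k2 c1169 c4500 k0)))))))) (by decide +kernel)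
def c6574 : PP 8 4 T 0x10000000002000080000000000000000004400000100082000000001040005000002 := rS 0x8c300ee733c9d40c9d4b88186c50fd2a127b3626c64b3679f9126f7e074c26664c14923b8897cbab5510fc468506a2de213 (k8 c4401 c5695 c5853 c4371 c6224 c4372 c4287 c6564 (k8 c5235 c752 c488 c4337 c4403 c4281 c4406 c1726 (k8 c5056 c937 c5961 c4477 c4378 c6565 c6570 c1521 (k8 c6571 c6573 c2863 c950 c705 c4317 c4485 c5697 (k8 c4429 c4459 c4466 c2930 c2968 c831 c593 c601 (k4 c1021 c1024 c2123 c4482 (k1 c4450 k0))))))) (by decide +kernel)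
def c6575 : PP 8 4 T 0x10000000002000080100000000000000004400000100080000000001040005000002 := rS 0x8c300ee733c8193a2061b143f4a849b064b33aa252e1d474551a7b3333c2d05379f9f80f3084492470a8ee22256397d6a3f3e974465948a890a0d45bc42655 (k8 c6574 c4401 c5695 c5853 c4371 c6224 c6564 c2943 (k8 c64 c4372 c752 c1353 c4287 c5235 c488 c4289 (k8 c1463 c4337 c4403 c4283 c4374 c4281 c4275 c937 (k8 c4046 c4477 c2107 c4378 c4961 c6262 c1521 c5056 (k8 c2474 c6566 c4965 c4486 c760 c931 c6565 c593 (k8 c6571 c6573 c950 c4317 c4485 c5697 c4429 c4459 (k8 c4466 c2968 c831 c601 c1021 c1024 c2123 c4482 (k1 c4450 k0)))))))) (by decide +kernel)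
def c6576 : PP 8 4 T 0x400080000200040000080000000000000000000000000 := rS 0x755c25d3f05 (k4 c4309 c78 c1198 c1467 (k2 c593 c5280 k0)) (by decide +kernel)
def c6577 : PP 8 4 T 0x100000002000080200000401080051144404100000000000000005000051000002 := rS 0xa727b2d7a41a5b1182bf3cc562c77581cd86064c8818e3b88d0dfa8967a95e24b (k8 c4375 c5695 c5936 c1793 c636 c4305 c4393 c4337 (k8 c4403 c4289 c4466 c6171 c831 c4958 c1021 c6281 (k8 c1024 c4481 c4349 c628 c1243 c4420 c2123 c4429 (k4 c1055 c1176 c1757 c6220 (k2 c4500 c5804 k0))))) (by decide +kernel)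
def c6578 : PP 8 4 T 0x10000000002000080200000000080040044404000000080000000005000011000002 := rS 0x2396315042d80e210f2e4ea392ca452aa982a34cc607e974465f06accfe0b (k8 c567 c126 c2615 c4371 c488 c4372 c752 c4305 (k8 c4477 c936 c6576 c4309 c977 c2859 c2943 c64 (k8 c4279 c593 c5280 c6577 c57 c1097 c5647 c4462 (k4 c4353 c1145 c4486 c849 k0)))) (by decide +kernel)
def c6579 : PP 8 4 T 0x80000000000000000000004000000010000002 := rS 0x3e21 (k2 c2930 c1193 (k1 c4466 k0)) (by decide +kernel)
def c6580 : PP 8 4 T 0x10000000002000080200000000080000004400000000080000000005000015000002 := rS 0x1e8da8b7884d2e3f (k8 c4287 c6579 c4401 c5695 c5853 c5814 c6578 c704 k0) (by decide +kernel)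
def c6581 : PP 8 4 T 0x1101000002000084000000000000000055500000000000000000000000000000000 := rS 0x4f66b459744a51249a4725b1ca651 (k8 c4405 c4290 c4289 c4375 c4374 c4282 c4281 c4485 (k4 c4484 c5740 c4426 c4460 (k2 c4396 c2116 k0))) (by decide +kernel)
def c6582 : PP 8 4 T 0x10000000002000080000000000000000004400000100080000000001040005000002 := rS 0xaca529987194db057ec53c1012c168baed7a0f8a2c5320a49a3c421c52a74666d842360a7154a54cc6067acd12fd3fb20aa8b42a046a4b098eca2f188d0cbe0d2e88d22a2 (k8 c6564 c2943 c4372 c752 c4371 c488 c4393 c4337 (k8 c5695 c4405 c4403 c4401 c4375 c4373 c6395 c6224 (k8 c5853 c6574 c6575 c126 c4305 c636 c2615 c1793 (k8 c4477 c936 c2859 c977 c585 c4309 c6576 c6581 (k8 c4317 c950 c968 c5936 c6580 c11 c760 c1029 (k8 c759 c1032 c625 c4486 c5657 c6133 c4390 c4963 (k8 c6538 c4487 c573 c572 c1252 c1053 c1852 c1849 (k4 c4447 c2056 c2126 c4494 (k2 c940 c4458 k0))))))))) (by decide +kernel)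
def c6583 : PP 8 4 T 0x801002000002000080000000000100000014000001100000000000004000004000002 := rS 0xa5a2d5866534144e4d1192e22255131cbe0d (k8 c4371 c488 c4289 c6564 c1463 c4337 c4375 c4372 (k8 c4282 c4277 c4961 c4502 c5056 c940 c720 c4458 (k1 c4485 k0))) (by decide +kernel)
def c6584 : PP 8 4 T 0x10000000002000080000000000000000004400000100080000000001040004000006 := rS 0x299964f42981fb1236aa54a89178ce12181393496537889544c72f834ba23 (k8 c4372 c752 c4371 c488 c4289 c6564 c1463 c5695 (k8 c4290 c4375 c4282 c4277 c6582 c4436 c254 c1870 (k8 c2038 c5936 c6029 c5814 c4469 c6583 c4477 c712 (k4 c259 c5740 c2111 c941 k0)))) (by decide +kernel)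
def c6585 : PP 8 4 T 0x2000080000000000400000004400000101080000000001000005000002 := rS 0x4618077399e40c9d61b14407559d28cc1f4ba260a7b0ebf02c2f19424d88b42834263b78c444ac75aa887e23 (k8 c4372 c4287 c6564 c5235 c4289 c1463 c4337 c5695 (k8 c4403 c4401 c4371 c6224 c5853 c5945 c4317 c5814 (k8 c783 c4465 c5722 c2958 c2474 c4961 c6565 c6579 (k8 c5697 c5056 c4485 c6571 c593 c4466 c4429 c4459 (k8 c2968 c831 c601 c1021 c1024 c2123 c4482 c4450 k0))))) (by decide +kernel)
def c6586 : PP 8 4 T 0x2000080000000000000000004400000100080000000001040004000006 := rS 0x32e96ac68b368acf272bd56a9178cc30a553986182724934462d298a4a2f1a189544c7 (k8 c4289 c6564 c1463 c4393 c5695 c4405 c4402 c4290 (k8 c4285 c4372 c4282 c4281 c4277 c6584 c4325 c4330 (k8 c4385 c6585 c254 c1870 c6029 c5962 c5815 c4839 (k8 c1523 c4396 c1479 c5846 c2112 c4458 c2026 c6220 k0)))) (by decide +kernel)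
def c6587 : PP 8 4 T 0x400000000000001100000000000000010201044001515054000002000000000000000000000000000 := rS 0xb94b30d5b4a60c622715 (k8 c4354 c4341 c4488 c4450 c4485 c945 c4459 c2127 (k2 c1207 c4793 k0)) (by decide +kernel)
def c6588 : PP 8 4 T 0x100000000000000002000200000000111000000000000000000000000000000000000 := rS 0x25d84b6 (k4 c2069 c2068 c1165 c4958 k0) (by decide +kernel)
def c6589 : PP 8 4 T 0x400000000000001000000000000001010201044001515014080002000000000000000000000000000 := rS 0x11705 (k2 c4313 c725 (k1 c6587 k0)) (by decide +kernel)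
def c6590 : PP 8 4 T 0x2000080000000000000000004400000100080000000001040000000006 := rS 0x8b56a10cefd641fd9a6107c31026fa2af182bb8c31532934aa351e455887014bf21aad5ea952a754f1319a6caa2e449e4d9090b8692211248346a47258558e13148eca2f188d0d6a3f3e97446a2 (k8 c6564 c4372 c752 c1353 c4287 c5235 c4393 c4337 (k8 c5695 c4405 c4403 c4402 c4401 c4289 c4283 c4375 (k8 c4374 c4373 c4371 c4281 c4275 c2943 c6586 c9 (k8 c4315 c686 c2581 c2660 c687 c429 c5870 c951 (k8 c4341 c2945 c969 c1842 c786 c788 c1844 c1952 (k8 c4566 c5871 c567 c2605 c439 c760 c1027 c762 (k8 c1029 c1032 c4530 c4488 c4449 c4450 c2126 c4454 (k8 c1080 c1899 c6223 c305 c4325 c6588 c6589 c2107 (k4 c4305 c632 c4484 c944 (k2 c5909 c716 k0)))))))))) (by decide +kernel)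
def c6591 : PP 8 4 T 0x2001000000000000000000800100001404400080040000140000000010000002 := rS 0x38244b01e2b885626f409e63041 (k8 c5810 c4472 c4447 c4380 c4378 c4303 c830 c750 (k4 c4466 c4476 c4550 c5989 (k1 c2639 k0))) (by decide +kernel)
def c6592 : PP 8 4 T 0x2000002000080000000000000000004400000101040000000001000001000002 := rS 0x184721e9592c5949871831820914ee7b84225a299a5a7594ac5321486491f94c76510297c1a5d3586d4a4b548cc468b36bc4eb173341622a2 (k8 c6564 c4337 c4961 c5056 c5282 c592 c5695 c6017 (k8 c720 c4372 c950 c6029 c4375 c5936 c5876 c493 (k8 c752 c4371 c488 c2 c4405 c4403 c4290 c4287 (k8 c4281 c5782 c6224 c6517 c940 c941 c2946 c4458 (k8 c3931 c1750 c2024 c4485 c4319 c4438 c5776 c5810 (k8 c4472 c4450 c6591 c1029 c1026 c4809 c4476 c5240 (k2 c921 c6159 (k1 c1087 k0)))))))) (by decide +kernel)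
def c6593 : PP 8 4 T 0x10000000002000080000000000000000004400000101040000000001000000000002 := rS 0x11244c2430fc2997c1a5d119ac36a5199b5e24b (k8 c4375 c5695 c6017 c950 c5936 c5876 c493 c4372 (k8 c752 c4371 c488 c4290 c4477 c6592 c4436 c2038 (k2 c4479 c6583 k0))) (by decide +kernel)
def c6594 : PP 8 4 T 0x80000000000000002040000000000000000000000 := rS 0x2c95cccc8 (k4 c937 c936 c2941 c2612 (k1 c4476 k0)) (by decide +kernel)
def c6595 : PP 8 4 T 0x2000080000000000000000004400000100000000000001040000000006 := rS 0x65d2d58d1669385f450c2114f0c30b3d5eab54a94666d0d96c4e492692c5a5314945e34312a898e5f06974466b (k8 c493 c4372 c752 c4371 c488 c4289 c6564 c1463 (k8 c4393 c5695 c4405 c4402 c4290 c4285 c4375 c4282 (k8 c4281 c4277 c6590 c5876 c6017 c950 c5936 c6029 (k8 c5962 c5815 c1523 c6594 c6593 c4330 c5945 c6517 (k8 c4397 c1870 c2111 c1479 c5846 c2112 c4458 c2026 (k1 c4495 k0)))))) (by decide +kernel)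
def c6596 : PP 8 4 T 0x100000002000080000000000880001100000004000000000000001000110000042 := rS 0x2f62a445b1046e3d219d586c1040792e0b1c8d48e531d945e22563ad47e233344558954cb459449 (k8 c4281 c941 c1750 c2011 c2860 c940 c4337 c5056 (k8 c4372 c4287 c5235 c4289 c1463 c5695 c4405 c4403 (k8 c4290 c4374 c4373 c4279 c567 c6579 c4466 c4462 (k8 c1987 c4958 c593 c276 c275 c272 c1103 c4559 (k4 c6159 c4353 c1169 c4500 k0))))) (by decide +kernel)
def c6597 : PP 8 4 T 0x10000000002000080100000000880000000000000000080000000001000100000002 := rS 0x258eb173f1c6285549a3c3895089248e15098ecfa91078958e8d33444df057e184ba232f834b207 (k8 c495 c64 c4371 c488 c4372 c752 c937 c4477 (k8 c4961 c4378 c4337 c5056 c6566 c4289 c1463 c4046 (k8 c2943 c1353 c4403 c4401 c4283 c4374 c4281 c4275 (k8 c2860 c6596 c760 c1029 c5961 c4486 c4135 c2107 (k4 c4963 c594 c4487 c929 k0))))) (by decide +kernel)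
def c6598 : PP 8 4 T 0x10000000002000080100000000000000004400000100080000000001000004000006 := rS 0x2a54a4f178cc30a710c15f80f3089c9a4b1dbc44aa26397c1a5d11994262a (k8 c6595 c4401 c490 c4372 c752 c4371 c488 c4289 (k8 c6564 c1463 c5695 c4403 c4375 c4282 c4277 c937 (k8 c4046 c4477 c4961 c5902 c6597 c6585 c254 c1870 (k4 c258 c5936 c6029 c2111 k0)))) (by decide +kernel)
def c6599 : PP 8 4 T 0x10000000002000080200000000080000004400000000080000000001000005000042 := rS 0xaca5299871960afd36c53c10086960b45d76bd07c5162454c829268f0e2953a3336c2116811a92c263b28bc623434495492cf4aaa4e29182a151a66303f4ba232f835667f (k8 c126 c2615 c4371 c488 c4372 c752 c4305 c4477 (k8 c936 c6576 c2698 c4309 c2943 c585 c977 c2859 (k8 c1793 c4281 c1726 c636 c4393 c4337 c5695 c4405 (k8 c4403 c4401 c4375 c4373 c6395 c5853 c6581 c4317 (k8 c950 c968 c5936 c6580 c760 c1029 c759 c1032 (k8 c1219 c625 c4486 c5657 c6133 c4390 c4963 c6538 (k8 c4487 c1951 c573 c572 c1252 c765 c6330 c1852 (k4 c4447 c2056 c2126 c4494 (k2 c940 c4458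 k0))))))))) (by decide +kernel)
def c6600 : PP 8 4 T 0x10000000002000080000000000000000004400000100080000000001000004000006 := rS 0x14ca56593c5e33848600e2142c155266303f590272692c76f112a898e5f06974462a (k8 c6595 c4372 c752 c4371 c488 c4289 c6564 c1463 (k8 c5695 c4403 c4375 c4282 c4277 c6598 c4305 c4477 (k8 c936 c977 c4309 c2698 c5660 c495 c6599 c4436 (k4 c254 c1870 c259 c5740 (k2 c5936 c2111 (k1 c941 k0)))))) (by decide +kernel)
def c6601 : PP 8 4 T 0x1400000000000000000000000000005000000020400000000000000000000000000000000000000000 := rS 0x1974b (k2 c4458 c2026 (k1 c4495 k0)) (by decide +kernel)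
def c6602 : PP 8 4 T 0x1400000000000000001001000000005100000010000000004050001110000100000005410000000000 := rS 0x65d2d1504 (k4 c4483 c6445 c4427 c1752 (k1 c4495 k0)) (by decide +kernel)
def c6603 : PP 8 4 T 0x2000080000000000000000004400000100080000000001000004000006 := rS 0x4651ec58bb0e283c490198220a5c1114ca33b215ad13fb34160ea2bf5327b4eb3c9c84891b5522f1986162a546a9cc30c139249a4b1f94c523b28bc6234312b1cbe0d3284cfa5d118a922a2 (k8 c6564 c2943 c6595 c4372 c752 c1353 c4401 c490 (k8 c4371 c488 c4289 c1463 c4393 c4337 c5695 c4405 (k8 c4403 c4402 c4290 c4287 c4375 c4282 c4281 c4277 (k8 c6600 c4325 c4330 c4383 c4385 c624 c6585 c254 (k8 c1870 c6029 c5814 c4469 c5721 c2111 c1523 c968 (k8 c704 c4443 c4502 c4397 c258 c2253 c1479 c1455 (k8 c5846 c6601 c6602 c632 c717 c716 c5056 c4427 (k8 c5730 c1713 c831 c315 c314 c5772 c1128 c4416 (k4 c3689 c4388 c4539 c4494 k0))))))))) (by decide +kernel)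
def c6604 : PP 8 4 T 0x2000080000000000000000004400000100080000000001000000000006 := rS 0x42bf516c85683cfecd409be8abc5dc618a9949a551a8f22ac438cf052fc86ab54a953aa7898cd365517224f26c8485c3491089241a352392c2ac7148eca2f188d0cca135a8fcfa5d11a895e2a (k8 c6595 c1775 c6564 c4372 c752 c1353 c4287 c5235 (k8 c4401 c490 c4393 c4337 c5695 c4405 c4403 c4402 (k8 c4289 c4283 c4375 c4374 c4373 c4371 c4281 c4275 (k8 c2943 c6603 c9 c4315 c686 c2581 c2660 c687 (k8 c429 c5870 c951 c4341 c2945 c969 c1842 c786 (k8 c1844 c1952 c4566 c5871 c1523 c567 c2605 c439 (k8 c760 c1027 c762 c1029 c1032 c4530 c4149 c4449 (k8 c2126 c4454 c1080 c1899 c6588 c6589 c305 c6601 (k4 c2107 c5443 c4305 c716 (k1 c4484 k0)))))))))) (by decide +kernel)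
def c6605 : PP 8 4 T 0x800001001000000080000000000400001102000000000040000110001000010000002 := rS 0x47c51627b8c01886580f15c429d (k8 c4343 c830 c750 c4466 c4476 c276 c486 c4472 (k4 c4365 c714 c5772 c4388 (k1 c4539 k0))) (by decide +kernel)
def c6606 : PP 8 4 T 0x2000080000000000000000004400000100000000000001000000000006 := rS 0x705baf184bf608f486b13d820ac9b2ca3c388a2ab215ad13f9159a0e7ea653a4e20c4a8a2f0ba1030cf5da354e9154a961833309b4365b3e9acca5d2f8144e49268344635258fca613148eca2f1a189544c7 (k8 c4289 c6564 c1463 c4393 c5695 c4405 c4403 c4402 (k8 c4401 c4290 c4287 c4375 c4373 c4372 c4371 c4282 (k8 c4281 c4277 c2 c488 c752 c490 c493 c1353 (k8 c6604 c5876 c6017 c6594 c950 c6593 c5936 c6029 (k8 c4327 c4330 c4383 c4847 c1523 c6517 c5945 c8 (k8 c1870 c4397 c5976 c5777 c2111 c4343 c4443 c4502 (k8 c258 c1479 c5733 c1455 c5846 c6601 c6602 c1726 (k8 c716 c6605 c760 c1026 c764 c4476 c751 c1227 (k8 c1147 c2152 c234 c1713 c6330 c6159 c2126 c1168 (k2 c6133 c587 k0)))))))))) (by decide +kernel)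
def c6607 : PP 8 4 T 0x2000084000000000080000004410000000080000000000000005000020 := rS 0x44320fe550b98c22490691c2a13a183c4ac7 (k8 c4289 c1463 c264 c4393 c4401 c4283 c4374 c4371 (k8 c4281 c4275 c2840 c2552 c267 c6262 c2107 c6538 (k1 c636 k0))) (by decide +kernel)
def c6608 : PP 8 4 T 0x2000000000000000880000044400000000000001000000000005000020 := rS 0x15512d10b98d946b0a94c2651 (k8 c4405 c4401 c4290 c4283 c2008 c941 c2806 c532 (k4 c1750 c2024 c267 c2109 k0)) (by decide +kernel)
def c6609 : PP 8 4 T 0x80000200080004020000000000000000000000000 := rS 0x1d566b838a5d3f05 (k8 c4313 c78 c1198 c3441 c1467 c553 c594 c4548 k0) (by decide +kernel)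
def c6610 : PP 8 4 T 0x200800020 := rS 0x1458 (k2 c311 c310 (k1 c2497 k0)) (by decide +kernel)
def c6611 : PP 8 4 T 0x10002000002000080000001000000010100080000020040000000000000110000005 := rS 0x22a8f5b1647a0b48878725e (k8 c554 c4279 c4466 c1153 c271 c275 c4726 c4998 (k2 c1426 c4353 (k1 c4486 k0))) (by decide +kernel)
def c6612 : PP 8 4 T 0x2001000000000000100000000000001400000000000000000005000020801021 := rS 0x8ca74f25838818169b4c824f713219dc5c6a (k8 c532 c533 c3754 c3856 c4442 c2492 c1058 c1032 (k8 c765 c6343 c4462 c496 c526 c2485 c1234 c6225 (k1 c4488 k0))) (by decide +kernel)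
def c6613 : PP 8 4 T 0x10002000002000080000100000080000001480000000040000000005000000800005 := rS 0x2cd5a5805a5d281e0ea356a5e3218cde5d068fc771133aaca2af788a60a43171a84204 (k8 c4461 c6610 c532 c533 c3856 c4313 c4402 c5695 (k8 c5815 c4405 c5962 c5084 c4337 c4403 c4287 c4371 (k8 c4377 c4378 c818 c4478 c554 c3411 c6609 c6612 (k8 c4466 c6611 c1193 c271 c1697 c5367 c553 c6319 k0)))) (by decide +kernel)
def c6614 : PP 8 4 T 0x10001000000000000000000000080000200080000041000000000000000000000000 := rS 0x6e2f2ccea5d492e0e305 (k8 c4313 c3441 c1467 c1468 c3430 c594 c1124 c4477 (k2 c4548 c3439 k0)) (by decide +kernel)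
def c6615 : PP 8 4 T 0x80000000000000000000000002000084400000000000000000000000000000040000000000000000000 := rS 0xcd689249a4725b1ca651 (k8 c4405 c4290 c4289 c4375 c4374 c4282 c4281 c4426 (k2 c4460 c2116 k0)) (by decide +kernel)
def c6616 : PP 8 4 T 0x10000000000000080000000001000000000400000800840000000004801110000005 := rS 0x9920a3d3656041646e0b488793a071c8108677 (k8 c3754 c3856 c4461 c4279 c527 c784 c4466 c1153 (k8 c271 c272 c4726 c4462 c4476 c1969 c1426 c1063 (k2 c1071 c6306 k0))) (by decide +kernel)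
def c6617 : PP 8 4 T 0x10000000002000080100000000080000004400000000001000000001000005000005 := rS 0x3c9c40c0b4c82438b12f191594b7e8857abf65d109e77899ec5c6a0b1f822470a83c4ac740a141aa525aaca25b67aa466233e99d4e8b7884c0849 (k8 c4281 c4461 c4401 c5695 c5853 c6608 c5084 c1354 (k8 c4372 c430 c6029 c1523 c6607 c4405 c5962 c4375 (k8 c5936 c4371 c6224 c6395 c4289 c1463 c264 c4283 (k8 c4374 c4275 c2107 c6262 c532 c533 c2492 c4442 (k8 c3754 c4646 c4490 c5517 c4399 c4454 c6610 c6613 (k8 c6615 c4526 c2049 c554 c2523 c6616 c1058 c1032 (k4 c6343 c4462 c496 c2485 (k1 c6396 k0)))))))) (by decide +kernel)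
def c6618 : PP 8 4 T 0x510000000002000084000000055400000000000000000000000000004000000000000 := rS 0x529964f (k4 c4646 c5517 c4491 c6615 k0) (by decide +kernel)
def c6619 : PP 8 4 T 0x400000000000910000000002000084000000015000011100000000108040080000001000110000405 := rS 0x1974b622fd1d1560a6e2c932b2752e590f0fd8e99 (k8 c4443 c4289 c4287 c4466 c4726 c1193 c1233 c4476 (k8 c1609 c4487 c804 c4420 c4963 c4486 c1515 c6031 (k2 c4429 c1757 (k1 c6220 k0)))) (by decide +kernel)
def c6620 : PP 8 4 T 0x10000000002000080000000000000000004400000100002000000001000004000004 := rS 0xc560490c384e0b9ae248d4aa44b87e568f4c4213282c5505089347711a183c4ac74092d0a0d559455e292db3d5233119f4cea745bc42619020054449 (k8 c4281 c6564 c6606 c4461 c269 c4401 c5695 c5853 (k8 c6608 c5084 c1354 c4372 c430 c6029 c1523 c6607 (k8 c4402 c5815 c4405 c5962 c4371 c6224 c4375 c6395 (k8 c4289 c1463 c264 c4393 c4337 c4403 c4282 c4275 (k8 c4406 c266 c6212 c1647 c2256 c267 c5433 c6230 (k8 c819 c818 c2805 c1694 c3430 c6618 c4442 c532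 (k4 c2108 c6619 c5807 c1058 (k2 c6369 c4462 (k1 c1018 k0))))))))) (by decide +kernel)
def c6621 : PP 8 4 T 0x10000000002000080000000000000000004400000100000000000001000004000004 := rS 0xad899a82c89641562343078958eab28abc52cf548cc46a745bc42619020054449 (k8 c4281 c6564 c6606 c4461 c269 c4401 c5695 c5853 (k8 c6608 c4372 c430 c6029 c1523 c4402 c5815 c4405 (k8 c5962 c4289 c1463 c264 c4393 c4337 c6620 c6617 (k4 c636 c6538 c532 c4442 (k2 c2048 c6618 k0))))) (by decide +kernel)
def c6622 : PP 8 4 T 0x100000001000000000000000044000000004000000140042000004401010000800005 := rS 0x4eacc3a0803a4d36c54c95a947721c4c5c6a05ab4ca951ec145404 (k8 c4461 c266 c4406 c5433 c1694 c1647 c6230 c6212 (k8 c532 c533 c4442 c3856 c3754 c4491 c6369 c1071 (k8 c4429 c804 c1070 c1018 c4462 c1058 c1185 c784 (k1 c6342 k0)))) (by decide +kernel)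
def c6623 : PP 8 4 T 0x1000000000000100101000002000084000040044000010001080000518040000000001000110000405 := rS 0x17c7037af633155cb11329b8b2cd62932b2752e082c8780e391f8115a67 (k8 c5084 c6230 c4461 c4287 c4279 c527 c4466 c4726 (k8 c4462 c1193 c1233 c4476 c1609 c1145 c1185 c4487 (k8 c804 c1072 c6342 c4361 c4963 c4370 c1176 c1459 (k2 c4480 c4493 (k1 c1513 k0))))) (by decide +kernel)
def c6624 : PP 8 4 T 0x2000080000000000000000004400000100002000000001000004000004 := rS 0xb18aafa2c424b95cb006498243945271ac2efd4a970fc3d31084ca0b15414224d1f8ee220f12b1d0a0d559455e292db3d5233119f4cea25dc31021902005e24b (k8 c4375 c5695 c6606 c4461 c269 c6395 c6621 c4945 (k8 c6564 c5084 c1354 c4372 c430 c6029 c1523 c6607 (k8 c4402 c5815 c4405 c5962 c4371 c6224 c4289 c1463 (k8 c264 c4337 c4403 c4287 c4282 c4275 c4406 c266 (k8 c6212 c1647 c2256 c267 c5433 c819 c818 c1694 (k8 c4377 c6622 c6097 c2108 c4396 c6623 c1058 c1029 (k8 c4462 c526 c1018 c1196 c6369 c4487 c339 c4963 (k2 c1243 c5772 k0)))))))) (by decide +kernel)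
def c6625 : PP 8 4 T 0x2000080000000000000000004480000100000000000001000014000004 := rS 0x2cd3656058780e3ba196d9ea9119f44262218b9134a899a82c550c83c4ac788a895e29558cc08f128ab4ca5f86414ce01 (k8 c6606 c5084 c4313 c6621 c4382 c554 c6230 c4405 (k8 c5695 c4461 c430 c5962 c4402 c5815 c6564 c4337 (k8 c4289 c1463 c264 c269 c6624 c6262 c532 c4442 (k8 c4491 c4457 c533 c3856 c4478 c6610 c1354 c4372 (k8 c6029 c1523 c6607 c4393 c4403 c527 c4466 c271 (k4 c6310 c804 c3200 c6544 k0)))))) (by decide +kernel)
def c6626 : PP 8 4 T 0x2000080000000000000000004480000100000000000001000004000004 := rS 0xc5605a64121c21ab4c42e351942d051dc441e2563aaca2af1496d9ea919bc446193e99c08015117e1855 (k8 c6624 c6621 c4382 c6564 c6606 c4461 c5084 c1354 (k8 c269 c4372 c5695 c430 c6029 c1523 c6607 c4402 (k8 c5815 c4405 c5962 c4289 c1463 c264 c4337 c4403 (k8 c4313 c6262 c554 c532 c533 c4478 c6230 c3856 (k4 c6625 c1058 c1032 c6343 (k2 c6310 c4462 (k1 c1018 k0))))))) (by decide +kernel)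
def c6627 : PP 8 4 T 0x2000080000000000080000014400000000001000000001000015000005 := rS 0x59a6cac5905a5c3c071fc455e292d9f4ce6a108599ea919bc44743078958e04 (k8 c4461 c4289 c1463 c264 c4393 c4372 c5695 c430 (k8 c6029 c1523 c6538 c6610 c532 c5084 c1354 c6607 (k8 c4402 c5815 c4337 c4287 c527 c4466 c1193 c271 (k4 c4726 c4476 c1969 c5025 (k1 c6544 k0))))) (by decide +kernel)
def c6628 : PP 8 4 T 0x2000080000000000000000004400000100000000000001000004000004 := rS 0x1c16594c824381644b20fe558633d5ea919844920d1191c2a1314bc6867d338641e040089544c7 (k8 c4289 c6564 c1463 c6606 c4461 c264 c269 c5084 (k8 c1354 c4393 c5695 c4402 c4401 c4283 c4374 c4372 (k8 c4371 c4281 c4275 c430 c6029 c5815 c1523 c6621 (k8 c6624 c6626 c2107 c636 c6538 c6627 c1058 c1032 (k4 c6539 c6343 c526 c4462 k0))))) (by decide +kernel)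
def c6629 : PP 8 4 T 0x100000000000000000000000000000000000080000044080000000000000000000000 := rS 0xcb05 (k2 c4313 c2557 (k1 c4478 k0)) (by decide +kernel)
def c6630 : PP 8 4 T 0x2000080000001000000000000000000020280000000040000100000000 := rS 0x5b8f57274490e49235238fd8e3b3895d1a59 (k8 c64 c1338 c38 c1418 c4403 c4289 c4287 c4374 (k8 c4373 c4281 c4279 c579 c578 c1125 c1655 c1745 (k1 c2113 k0))) (by decide +kernel)
def c6631 : PP 8 4 T 0x2000080000000000000000004400000100280000000001000000000004 := rS 0x62c5d703d61c66964427d1102b7609ce08655faf5968e37214724b1f8a4a20a109656a97219ec6ecf548cde22320a66246b36c243cfd641fcc7113e99c1a550d03c080112a898e11248548e13 (k8 c4401 c4374 c4283 c4281 c4275 c4289 c6564 c1463 (k8 c6606 c4461 c264 c6628 c429 c4371 c5084 c1354 (k8 c4337 c2840 c6629 c2107 c4305 c575 c4315 c695 (k8 c2559 c4479 c4443 c1103 c4372 c5695 c6119 c6029 (k8 c1523 c272 c2688 c335 c928 c1436 c64 c311 (k8 c574 c4405 c4402 c4287 c4375 c4279 c1498 c841 (k8 c840 c5740 c1080 c1515 c6630 c4478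 c4408 c6138 (k8 c1077 c6130 c4484 c4396 c6022 c6615 c4363 c1209 (k4 c445 c4034 c4361 c1254 (k1 c4494 k0)))))))))) (by decide +kernel)
def c6632 : PP 8 4 T 0x2000080200001005100100000400001521580000050040000100004900 := rS 0x2f1007042ad986c11eae4e8921c9246a471fb1c76b153a3618fd (k8 c4305 c4477 c4383 c4532 c624 c4403 c4289 c4287 (k8 c4374 c4373 c4281 c4279 c579 c578 c1125 c1655 (k8 c1660 c1127 c2113 c6112 c1745 c2119 c6142 c1899 k0))) (by decide +kernel)
def c6633 : PP 8 4 T 0x1000002000080001001100000000000200040000000000050040000000004900 := rS 0xdf155b1c57af1 (k4 c5695 c1899 c6111 c6130 (k2 c4353 c1077 (k1 c4480 k0))) (by decide +kernel)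
def c6634 : PP 8 4 T 0x1a08000100000000000400000000000000000000000000000000 := rS 0x38af16efd (k4 c4305 c1168 c2028 c587 (k1 c6133 k0)) (by decide +kernel)
def c6635 : PP 8 4 T 0x2000080000000000000000004400000100080000000001000000000004 := rS 0x4511c714a2dc78c337afc8ad1651e59b4542205827382194baa77eb20be7f20a659f1255aa54a3721ad44209358cc141e3dac52e632c95c22490688c6a47258547e53098a4765178c4686613e99c1e255131cda0400c24aa1a (k8 c6628 c429 c4315 c6606 c4461 c695 c4289 c6564 (k8 c1463 c264 c5084 c1354 c5402 c4393 c4337 c5695 (k8 c4405 c4403 c4402 c4401 c4290 c4287 c4283 c4375 (k8 c4374 c4373 c4372 c4371 c4281 c4275 c38 c64 (k8 c2840 c928 c624 c2688 c575 c574 c6119 c2559 (k8 c263 c311 c1436 c335 c272 c5936 c6029 c5962 (k8 c4479 c1523 c4443 c1103 c6629 c1465 c2107 c4305 (k8 c4532 c6631 c6632 c4478 c4408 c6138 c6633 c2119 (k8 c4397 c1481 c2588 c717 c5846 c439 c6330 c1499 (k8 c6634 c6159 c1742 c275 c587 c858 c4480 c4388 k0)))))))))) (by decide +kernel)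
def c6636 : PP 8 4 T 0x110000000000000000200000001101140000000000121440000000100000018000405 := rS 0x24e2e74382397e9b3b2c51a952b020b20702214b8fd (k8 c4305 c4477 c1498 c4461 c527 c4726 c4462 c4476 (k8 c1697 c1338 c1145 c425 c804 c1094 c6348 c801 (k4 c586 c4417 c1657 c4487 k0))) (by decide +kernel)
def c6637 : PP 8 4 T 0x10100000002000080000000000000040004440000100000000000005000000000404 := rS 0x18b28d0487122391a864b6a77eb20fa0d2a83c4ac7089242a470997cc2a525aa446af788a53a99891acda0484868c8633380622a2 (k8 c6564 c4337 c6606 c5084 c819 c4478 c6628 c4315 (k8 c4461 c695 c559 c4479 c4443 c4343 c4402 c5695 (k8 c5815 c4372 c6029 c4375 c5936 c5402 c1465 c4401 (k8 c4374 c4283 c4281 c4275 c4289 c1463 c264 c429 (k8 c4371 c1354 c2107 c4305 c4532 c6635 c269 c4373 (k8 c4279 c938 c6636 c1058 c1027 c6540 c4462 c526 k0)))))) (by decide +kernel)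
def c6638 : PP 8 4 T 0x10100000002000080000000000000000004440000100000000000005000000000404 := rS 0x560311438094787d2c5c1a984befd641f4ce0d2a83c4ac7089242a4709a9496a978a753312359b612430d2d4420400a887e23 (k8 c4372 c4287 c6564 c6606 c4461 c310 c5129 c6628 (k8 c334 c4315 c695 c559 c4479 c4443 c4343 c5695 (k8 c6029 c4375 c5936 c4401 c4374 c4283 c4281 c4275 (k8 c4289 c1463 c264 c429 c4371 c5084 c1354 c2107 (k8 c4305 c1465 c5402 c4373 c4477 c6637 c1193 c931 (k4 c262 c4466 c6169 c4462 (k2 c6413 c1018 k0))))))) (by decide +kernel)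
def c6639 : PP 8 4 T 0x200080000080050000051800000008000000000000000000000 := rS 0x117499d0e67037c4686fd (k8 c4305 c4393 c4337 c1350 c1891 c4956 c586 c1069 (k2 c4417 c4487 k0)) (by decide +kernel)
def c6640 : PP 8 4 T 0x2000080200000001181141100040000120140000000000000018000405 := rS 0x8ba4d70735baf976bd47a6cec441ea54ac37041643c071c9246a471dc444ac73e99d4efd2f984f2b5108107e23 (k8 c4372 c4287 c4461 c310 c5129 c598 c5402 c1465 (k8 c4305 c4532 c5084 c1354 c4289 c1463 c4337 c4403 (k8 c4374 c4373 c4281 c4279 c527 c4466 c4726 c4462 (k8 c272 c4476 c1697 c2188 c424 c425 c804 c800 (k8 c1169 c6639 c2126 c3095 c1730 c2113 c1069 c4361 (k1 c4487 k0)))))) (by decide +kernel)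
def c6641 : PP 8 4 T 0x100000002000080200000000400001104400000000000000000005000009004505 := rS 0x2c81808a525abde229 (k8 c4402 c5695 c5815 c4375 c5936 c4461 c4462 c6540 (k1 c526 k0)) (by decide +kernel)
def c6642 : PP 8 4 T 0x100000002000080000000000000000004440000100000000000005000000000404 := rS 0x24e2e74382397e852e2ed7a9b4aa5cec442b1643c1d04235230c3c8e47e192da9dfac83e834aa0f12b1c22490a91c265f30a9496a97888d3a99891acda0484868c8633380622a2 (k8 c6564 c4337 c6606 c5084 c819 c4478 c6628 c4315 (k8 c4461 c695 c559 c4479 c4443 c4343 c4372 c5695 (k8 c6029 c4375 c5936 c5402 c1465 c4401 c4374 c4283 (k8 c4281 c4275 c4289 c1463 c264 c429 c4371 c1354 (k8 c2107 c4305 c4532 c6635 c269 c4287 c4279 c598 (k8 c6638 c4327 c4383 c6641 c1058 c262 c1106 c263 (k8 c424 c425 c1193 c1697 c804 c1169 c6639 c6640 (k8 c1498 c1094 c2126 c801 c586 c4417 c1657 c4487 k0)))))))) (by decide +kernel)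
def c6643 : PP 8 4 T 0x100000000000000000000400080000200040000000040000000000000000000000 := rS 0x1d124b8 (k4 c1467 c1468 c5280 c1657 k0) (by decide +kernel)
def c6644 : PP 8 4 T 0x1001001000000080000000000400000100001000100240000000005001200400824 := rS 0x8a9bcee712c15cdaa525a456211 (k8 c4275 c622 c809 c4375 c5936 c695 c798 c311 (k4 c1418 c1112 c1107 c6520 (k1 c4480 k0))) (by decide +kernel)
def c6645 : PP 8 4 T 0x10001001000000080000000000000000100000000101440000000005001008000824 := rS 0x5f10d367b479583859109706a1753a9496a911a6562113c9143e9d891acdb09 (k8 c4315 c695 c559 c4479 c4343 c271 c6169 c599 (k8 c4275 c622 c4443 c4372 c6029 c4375 c5936 c4532 (k8 c9 c4373 c4477 c6644 c535 c4466 c4476 c760 (k4 c1227 c804 c335 c6348 (k1 c6330 k0))))) (by decide +kernel)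
def c6646 : PP 8 4 T 0x1001001000000080000000000400001100001000100540000000005001200400820 := rS 0x22a6f389dcb06d5292d6211 (k8 c4275 c622 c4375 c5936 c695 c311 c1112 c536 (k2 c1108 c6520 (k1 c4480 k0))) (by decide +kernel)
def c6647 : PP 8 4 T 0x20001001000000080000000100000400000400011100000000040005000028000000 := rS 0x2f51e23 (k4 c4372 c760 c6133 c6524 k0) (by decide +kernel)
def c6648 : PP 8 4 T 0x120000000002000080200000000000000000400001120040000000005000108000800 := rS 0x8ba5ce8b63810d367b49a54ac1c2c8ede2fd588443e91 (k8 c4327 c271 c4275 c622 c4305 c5695 c4403 c535 (k8 c4466 c4476 c1697 c1029 c1227 c804 c335 c6647 (k4 c587 c586 c1165 c4417 (k1 c4487 k0)))) (by decide +kernel)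
def c6649 : PP 8 4 T 0x100000002000080000000000000000004440000100000000000005000000000004 := rS 0xba2048c311a792287d660a323c622172d98d4efd641f4ce0d2a83c4ac7089242a470997d44614ec48d66d02006121a (k8 c6628 c4315 c6606 c4461 c695 c559 c4479 c4343 (k8 c5402 c6564 c1465 c4401 c4374 c4283 c4281 c4275 (k8 c4289 c1463 c264 c429 c4371 c5084 c1354 c2107 (k8 c4305 c4532 c819 c6635 c9 c4337 c5695 c4478 (k8 c6642 c662 c271 c6169 c599 c6643 c6645 c4327 (k2 c6648 c6644 (k1 c6646 k0))))))) (by decide +kernel)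
def c6650 : PP 8 4 T 0x200000001581100000050040100240000004100000018000405 := rS 0x703aa3a2cbf5daf5269b4a9d8888d2b25d22082c8780f1110810f285 (k8 c1498 c598 c4461 c310 c4337 c527 c4466 c4726 (k8 c4462 c1153 c1193 c4476 c1338 c424 c425 c2782 (k8 c804 c1069 c1169 c6639 c1094 c4487 c2126 c4417 (k2 c801 c586 k0)))) (by decide +kernel)
def c6651 : PP 8 4 T 0x10000000002000080200000001181100000440040100040000000000000008000405 := rS 0x1580c4547824385c1c88c6a3f789f4cea77e97cc243 (k8 c334 c5402 c1465 c4305 c4532 c5084 c1354 c5695 (k8 c4287 c4373 c4372 c4279 c4477 c6650 c1058 c760 (k4 c1219 c4462 c6413 c1018 k0))) (by decide +kernel)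
def c6652 : PP 8 4 T 0x4200000045581101104050040100140000004100000018000405 := rS 0x14566af958c55db0586bd49a3d36953b110ac97041643c07a18840879 (k8 c598 c4461 c310 c4393 c527 c4466 c4726 c4462 (k8 c1193 c4476 c424 c425 c2782 c804 c800 c1069 (k8 c1169 c1209 c1892 c6639 c1095 c2127 c2126 c1486 (k2 c4399 c6601 k0)))) (by decide +kernel)
def c6653 : PP 8 4 T 0x900000000002000080200000405500001100000000000000000000000000028000421 := rS 0x108cb5e2b182bb4b9e8805862afc0c9b22a4d1e090f88c6a4b148eca2f14ea644243 (k8 c334 c310 c4443 c4343 c5695 c4405 c4403 c4402 (k8 c4375 c4373 c4372 c10 c1058 c760 c1029 c1219 (k8 c765 c4462 c6330 c4530 c526 c689 c688 c1195 (k4 c1850 c1852 c6176 c2126 (k2 c2026 c1172 (k1 c717 k0)))))) (by decide +kernel)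
def c6654 : PP 8 4 T 0x800000000002000080000000445100000004440040100040000000000000008000405 := rS 0xba1d46a4618391fc459ea77eb20fa67069541e0412b1c22490a91c265f511853a99 (k8 c4443 c4343 c5402 c6564 c1465 c4401 c4374 c4283 (k8 c4281 c4275 c4289 c1463 c4461 c264 c429 c4371 (k8 c5084 c1354 c2107 c4305 c4532 c1793 c4337 c4287 (k4 c4279 c6651 c4327 c4383 (k2 c6653 c6650 (k1 c6652 k0)))))) (by decide +kernel)
def c6655 : PP 8 4 T 0x1001000000000000000000000000000001400000000000080000000000000004000 := rS 0x10345 (k2 c4396 c1359 (k1 c4484 k0)) (by decide +kernel)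
def c6656 : PP 8 4 T 0x10001001000000080000000000000000000400000101440000000005001008000824 := rS 0x464f69a218b89e77101603a85461704e4d1a83d4ea525aa446073c9143e9d891acdb09 (k8 c4315 c695 c559 c4479 c4343 c271 c6169 c599 (k8 c4 c4372 c6029 c4375 c5936 c4532 c264 c4373 (k8 c4282 c4277 c4477 c6645 c1498 c1027 c1338 c4466 (k8 c1112 c6655 c2111 c6259 c836 c703 c4448 c4482 k0)))) (by decide +kernel)
def c6657 : PP 8 4 T 0x120000000002000080200000000000000000400001100040000000005000108000800 := rS 0x1174b9d16c7021a6cf6954995838652c8a5e2fd588443e91 (k8 c4327 c271 c4275 c622 c4305 c5695 c4402 c535 (k8 c6648 c4466 c4476 c1070 c762 c1227 c804 c335 (k4 c6647 c587 c586 c1165 (k2 c4417 c4487 k0)))) (by decide +kernel)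
def c6658 : PP 8 4 T 0x2000080000000000000000004440000100000000000005000000000004 := rS 0xba2046a4618792287c147359c113b1235abd56a95288c962928bc6226d0bc24b6a77eb20fa6706954340f020958e11248548e132fa88c201 (k8 c6606 c5402 c6564 c1465 c4401 c4374 c4283 c4281 (k8 c4275 c4289 c1463 c4461 c264 c6628 c429 c4371 (k8 c5084 c1354 c2107 c4305 c4532 c6635 c4315 c9 (k8 c695 c4337 c5695 c4405 c4402 c4375 c4372 c5936 (k8 c6029 c5962 c5815 c559 c4479 c4343 c6649 c4311 (k8 c4408 c6654 c271 c6169 c599 c6656 c4327 c4383 (k2 c6657 c6644 (k1 c6646 k0)))))))) (by decide +kernel)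
def c6659 : PP 8 4 T 0x21000000408080000254004040100240000000000000008000000 := rS 0x1e4eec13ab158658492e12e9f (k8 c78 c1198 c1467 c1468 c1338 c1947 c1255 c1657 (k4 c3598 c1112 c2504 c2123 k0)) (by decide +kernel)
def c6660 : PP 8 4 T 0x1000000020000000408000000054004040800000000040400100208000024 := rS 0x60b14ea793bb0c8a582ba5d2a2a (k8 c1670 c3632 c926 c798 c311 c2409 c1947 c1921 (k4 c2504 c539 c4530 c1711 (k1 c2123 k0))) (by decide +kernel)
def c6661 : PP 8 4 T 0x10000000002000085400000008000000044000000100240040000009000008000024 := rS 0x22f1960b0d8b144e101329347870428d681249a232392c5ac7298eca2f1511a8f6435987ce704a5a242b0948ac41411 (k8 c4275 c6309 c622 c809 c4315 c4283 c678 c6615 (k8 c4485 c4408 c271 c662 c2293 c703 c431 c6564 (k8 c5695 c4405 c4403 c4290 c4289 c4285 c4375 c4374 (k8 c4372 c4282 c4281 c2116 c6659 c6660 c4466 c760 (k8 c1029 c1032 c953 c952 c4486 c1674 c1946 c1852 (k2 c4367 c4963 (k1 c4494 k0))))))) (by decide +kernel)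
def c6662 : PP 8 4 T 0x2000000408080000254004040100240000000000000000000000 := rS 0x1dceac5609e58658492e176974fafd00a4 (k8 c1948 c1341 c3443 c78 c1198 c3442 c1467 c1468 (k8 c1338 c1947 c1962 c1988 c1254 c1657 c1112 c2123 k0)) (by decide +kernel)
def c6663 : PP 8 4 T 0x1000000000000000408000010054004040800000000040400100208000024 := rS 0x604618a753c9dd86452c15d2f09 (k8 c4315 c926 c798 c311 c2408 c1947 c1921 c2504 (k4 c539 c4530 c4482 c2123 (k1 c4450 k0))) (by decide +kernel)
def c6664 : PP 8 4 T 0x10001000002000084400000008000000044000000101440040000009000008000024 := rS 0x45e32c161b16289c20265268f0e0851a9552331225c118b4765178a88d47b21ac422b30f828e704a5a242b09 (k8 c4315 c4283 c678 c6615 c4485 c4408 c6309 c271 (k8 c662 c4275 c622 c2293 c703 c431 c6564 c5695 (k8 c4405 c4403 c4285 c4372 c4477 c809 c6661 c1948 (k8 c5479 c6662 c6663 c4466 c760 c1029 c1032 c953 (k8 c952 c4486 c1674 c1946 c1852 c4367 c4963 c4494 k0))))) (by decide +kernel)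
def c6665 : PP 8 4 T 0x2000080000000000000000004440000100000000000001000000000004 := rS 0x8c9e4ee9c202643821683354b0c39c11548ba5abc9ea96587d66853d828d4ad21c4c64cf7eb20be11249341a47258b4a6131d945e2613e99c1e255131cda040085e12890a954345b (k8 c6635 c6628 c429 c4283 c678 c4315 c9 c6606 (k8 c4461 c695 c4289 c6564 c1463 c264 c5084 c1354 (k8 c5402 c5695 c4405 c4403 c4401 c4290 c4285 c4375 (k8 c4374 c4371 c4282 c4281 c4275 c1465 c2107 c4305 (k8 c1793 c6658 c4339 c2293 c942 c431 c6309 c703 (k8 c562 c662 c271 c5740 c5323 c6655 c988 c6615 (k8 c565 c4526 c4485 c4408 c6664 c4385 c1948 c2116 (k8 c6660 c4466 c1032 c953 c952 c1920 c1846 c4367 (k1 c4482 k0))))))))) (by decide +kernel)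
def c6666 : PP 8 4 T 0x2000002000080000001000000000100080000020040000000000000010000405 := rS 0x12859869784204 (k4 c4461 c310 c554 c4382 (k2 c4726 c6611 (k1 c1697 k0))) (by decide +kernel)
def c6667 : PP 8 4 T 0x1100000000000000100000000880000014000000000000000000000000000000000 := rS 0x45d2d94ac (k4 c940 c941 c4458 c1752 (k1 c4485 k0)) (by decide +kernel)
def c6668 : PP 8 4 T 0x2000002000080000001001501100100080000020040000000000000008000405 := rS 0x5eaed227a201617e0622a6d1e090e10c463525bc408b1 (k8 c4303 c4461 c5695 c4375 c4373 c4372 c334 c6666 (k8 c1058 c760 c765 c1219 c4462 c6330 c526 c689 (k4 c688 c1155 c1850 c1171 (k1 c2126 k0)))) (by decide +kernel)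
def c6669 : PP 8 4 T 0x1000000002000080004000001180000014081540000000000140004000200000800 := rS 0x13c5ecb6652d368a8c314f6271192ca63b78d0c4ac767a9d92c18b2cc2b05 (k8 c4313 c4283 c662 c4481 c4420 c126 c6667 c1522 (k8 c4289 c1463 c4393 c5695 c4403 c4290 c4375 c4372 (k8 c4277 c703 c4530 c4482 c2123 c4448 c4427 c725 (k4 c1752 c836 c6220 c4525 k0)))) (by decide +kernel)
def c6670 : PP 8 4 T 0x2000002000080000000000000000004400000100000000000005000200000004 := rS 0x4f1790986753b9ccb0574889c9b430c83c4ac70bb3e1a07599e48a1f052d4bc8d37990c65d33c4532a911a95e24b53c1592890aa88fc5b4ec48d66d02006121a (k8 c6628 c4315 c6606 c4461 c695 c559 c4479 c4343 (k8 c6635 c6665 c6564 c4283 c678 c126 c4313 c6667 (k8 c4375 c5695 c5936 c4372 c6029 c4443 c4337 c5084 (k8 c4377 c818 c4478 c4378 c6609 c554 c3411 c6668 (k8 c271 c6169 c599 c662 c4 c4382 c1522 c9 (k8 c4289 c1463 c264 c269 c4393 c4282 c4277 c886 (k8 c798 c311 c1649 c1112 c2502 c6248 c6669 c6259 (k2 c5807 c4839 k0)))))))) (by decide +kernel)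
def c6671 : PP 8 4 T 0x2000080000000000000001100080040020010000000000000000000000 := rS 0x22d1482c351e5e (k4 c554 c1426 c4382 c4313 (k2 c4486 c5085 (k1 c4963 k0))) (by decide +kernel)
def c6672 : PP 8 4 T 0x2000002000080000000000000000004400000100000000000005000000000004 := rS 0x745b455207349870b2210facc14b586a34bc64319bcba3b8899cb6a782b24fc890aa894a4b54bc4469d4cc48d66d02006121a (k8 c6628 c4315 c6606 c4461 c695 c559 c4479 c4443 (k8 c4343 c4372 c5695 c6029 c4375 c5936 c6564 c4283 (k8 c678 c6665 c126 c4313 c6667 c6635 c5084 c4337 (k8 c4403 c4377 c4378 c818 c4478 c554 c6609 c4382 (k8 c3411 c6668 c662 c271 c6670 c535 c4466 c1029 (k4 c1648 c6671 c4351 c939 (k2 c5007 c1744 k0))))))) (by decide +kernel)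
def c6673 : PP 8 4 T 0x10001000000000000000140001581501100000800001108000000000000000000000 := rS 0x5f1bd1e5e (k4 c4477 c800 c3439 c2126 (k1 c1093 k0)) (by decide +kernel)
def c6674 : PP 8 4 T 0x1001000002000080000000000000000015480000000000000000000000000000000 := rS 0x45c1502cf (k4 c1522 c1462 c4313 c724 (k1 c6581 k0)) (by decide +kernel)
def c6675 : PP 8 4 T 0x1000000000000000000001581100100100000101940000000100000018000405 := rS 0x176bd4d9d91e5648820b21e03c344204 (k8 c4461 c310 c4382 c527 c4466 c4726 c4462 c1153 (k4 c4476 c1426 c425 c804 (k2 c6223 c1890 (k1 c6673 k0)))) (by decide +kernel)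
def c6676 : PP 8 4 T 0x1001000000080000000101581100102500000100840000000000000008000405 := rS 0x48aed7a5838afc0c9b22a3c121c218e41a231a984085d (k8 c1498 c4461 c5402 c4373 c4372 c4371 c4279 c334 (k8 c6675 c1058 c760 c1219 c765 c4462 c6330 c496 (k4 c526 c6133 c1441 c1155 (k1 c2126 k0)))) (by decide +kernel)
def c6677 : PP 8 4 T 0x2000080000000000000000004400000100000000000005000200000004 := rS 0x4f1790986753b9ccb0574889c9b430c83c4ac70bb3cde07599e48a1f052361a6158978c8632e99e22847ea6552235292d4f0564a242a813f289e25b4ec48d66d02006121a (k8 c6628 c4315 c6606 c4461 c695 c559 c4479 c4343 (k8 c6635 c5695 c6564 c6665 c1462 c4283 c678 c126 (k8 c4313 c6667 c4375 c5936 c4372 c6029 c4443 c6672 (k8 c6674 c4337 c5084 c1498 c818 c4478 c554 c2523 (k8 c5402 c4382 c6614 c6676 c271 c6169 c599 c662 (k8 c4 c3439 c1522 c9 c4289 c1463 c264 c269 (k8 c4393 c4282 c4277 c886 c798 c311 c1649 c1112 (k4 c2502 c6248 c6669 c6259 (k2 c5807 c4839 k0))))))))) (by decide +kernel)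
def c6678 : PP 8 4 T 0x2000080000000000000000004400000100000000000005000000000004 := rS 0x3a2da2a9039a4c38591087d660a46c35625e3218cba847ea653b1235aa54a23258ede31133984da040096d02a782b24fc890ac2434a2 (k8 c6564 c6628 c4315 c4283 c678 c6665 c126 c4313 (k8 c6667 c1462 c6635 c6606 c4461 c695 c5402 c5084 (k8 c4337 c5695 c4403 c4375 c4372 c5936 c6029 c559 (k8 c4479 c4343 c4443 c6672 c6674 c1498 c818 c4478 (k8 c554 c2523 c4382 c6614 c6676 c662 c271 c6677 (k8 c535 c4466 c1029 c1648 c6671 c4351 c939 c5007 (k1 c1744 k0))))))) (by decide +kernel)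
def c6679 : PP 8 4 T 0x82000000000000000000000002000084000000000000000000000000000000000000000000000000000 := rS 0x1964f (k2 c4396 c4455 (k1 c6615 k0)) (by decide +kernel)
def c6680 : PP 8 4 T 0x401000000002000080000000001080000014480000840000000000000000000000000 := rS 0xc6652e97df90c42c4502a764a959b45a522e0acf (k8 c1522 c4313 c2537 c4485 c6679 c4460 c1469 c126 (k8 c6667 c1462 c4337 c563 c4490 c6581 c4382 c4377 (k2 c554 c818 (k1 c4478 k0)))) (by decide +kernel)
def c6681 : PP 8 4 T 0x1000000000000000000000400000000016084000820000000000000000200000024 := rS 0xc08c1d4f2733b960aec561d291705 (k8 c4313 c2537 c4485 c4459 c4429 c798 c311 c1921 (k4 c1649 c2505 c2502 c4482 (k2 c2123 c4450 k0))) (by decide +kernel)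
def c6682 : PP 8 4 T 0x1000000000000000000000000000000000004000800000000000009000020400000 := rS 0x232793ba708099 (k4 c1032 c953 c952 c1920 (k2 c1846 c4367 (k1 c4482 k0))) (by decide +kernel)
def c6683 : PP 8 4 T 0x2000080000000000000000004400000100000000000001000000000004 := rS 0x1fa852e17cc4653930630793a9dcb0571007550c362d283eb3459ec146a21c4c65053f16d13090b868da04338042aa2 (k8 c6564 c4283 c6606 c5084 c4461 c695 c6628 c9 (k8 c4315 c678 c6635 c6665 c4313 c6678 c4339 c2293 (k8 c431 c6309 c703 c2537 c662 c271 c4485 c4429 (k8 c4459 c6680 c6682 c4466 c798 c311 c1921 c2502 (k8 c2504 c4482 c4450 c2123 c1649 c1110 c1466 c818 (k2 c562 c4377 (k1 c5323 k0))))))) (by decide +kernel)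
def c6684 : PP 8 4 T 0x2000002000080000000000000000000050000000001000000000000000000000 := rS 0xf64844920d238558e13 (k8 c4401 c4289 c4283 c4374 c4371 c4281 c4275 c4305 (k2 c4376 c2107 k0)) (by decide +kernel)
def c6685 : PP 8 4 T 0x400000000000000000000002000084000000000000000000050000120480000000005001000000008 := rS 0x15ad166d149ca77e9545674490204049268b58e533089c5ea525aa446ab28abde229 (k8 c4402 c5695 c5815 c4405 c5962 c4372 c6029 c4375 (k8 c5936 c796 c4277 c878 c4290 c4289 c4285 c4282 (k8 c4281 c838 c839 c579 c578 c2143 c3595 c6684 (k4 c4532 c4839 c4396 c1479 (k2 c5846 c6601 (k1 c2112 k0)))))) (by decide +kernel)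
def c6686 : PP 8 4 T 0x100000002000080000001000880100000040104000040000001000000080000008 := rS 0xbd8aa3488b660b0d66411b8208697488e46a471fb1ca63b28bc4c863338b622ac4ab459449 (k8 c4281 c941 c1750 c2860 c940 c4337 c4285 c918 (k8 c819 c4478 c5695 c4405 c4403 c4290 c4289 c4287 (k8 c4374 c4373 c4279 c1153 c1193 c2132 c222 c2130 (k8 c1103 c553 c4958 c1987 c4559 c6159 c6643 c4353 (k2 c1169 c4500 k0))))) (by decide +kernel)
def c6687 : PP 8 4 T 0x102000002000080000000000080000000040000100000000000005000000000008 := rS 0x11559a40b28d0e07d6a75108f4545453434de27268346a3f1d8040a1b5292d33121796cc8638897d9ea97888cfa67168958f43 (k8 c4393 c4289 c1463 c4285 c918 c1354 c4372 c5695 (k8 c6029 c1523 c1465 c4337 c819 c4478 c6685 c796 (k8 c4469 c4443 c4375 c5936 c423 c29 c1 c4403 (k8 c4287 c4373 c4371 c4282 c4277 c4378 c6548 c4502 (k8 c6684 c1646 c5433 c314 c1686 c5129 c6686 c4466 (k4 c1027 c1026 c6291 c552 (k2 c4351 c5007 k0))))))) (by decide +kernel)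
def c6688 : PP 8 4 T 0x100000002000080000000000080000000040000100000000000005000000000008 := rS 0x56b4456cda29549cc853bf4924d29d0c4ac73089c5e6716a9496ab28abc52cf54bc4465f (k8 c1465 c4372 c5695 c6029 c1523 c4402 c5815 c4405 (k8 c5962 c4375 c5936 c4285 c918 c796 c4277 c878 (k8 c4289 c1463 c4393 c4290 c4282 c4281 c6687 c4532 (k8 c5380 c4839 c1726 c4396 c1479 c226 c5846 c6601 (k1 c2112 k0))))) (by decide +kernel)
def c6689 : PP 8 4 T 0x2000080000000000080000000040000100000000000005000000000008 := rS 0x2b5a2cda29394e2b7e956085f249345a53a18958e61138bd4a4b559455e2967aa5e223 (k8 c4372 c5695 c6029 c1523 c4402 c5815 c4405 c5962 (k8 c4375 c5936 c796 c4277 c878 c4289 c1463 c4393 (k8 c4290 c4285 c4282 c4281 c1465 c6688 c4406 c4961 (k8 c226 c4532 c4839 c4396 c1479 c5846 c6601 c2112 k0)))) (by decide +kernel)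
def c6690 : PP 8 4 T 0x10100000002000080000000000000000100000000020800000000000000200000500 := rS 0x4551f16389d4e6062b834269113acd2e2d (k8 c4285 c926 c553 c4277 c886 c4401 c4371 c799 (k8 c4462 c1649 c498 c496 c4481 c1425 c4963 c4486 k0)) (by decide +kernel)
def c6691 : PP 8 4 T 0x10002000002000080000001000000000100080000020040000000000000200000008 := rS 0x2dc7b143923caa59158281291138160a5e (k8 c554 c4313 c29 c4277 c886 c231 c6690 c2244 (k8 c534 c1646 c1426 c6671 c4486 c1614 c4353 c4998 k0)) (by decide +kernel)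
def c6692 : PP 8 4 T 0x100000000002000090000001020800110100080004000000000000000000080000008 := rS 0x17b15222d8eac1619046e3d041608697488e49235238fd8e531d945e305 (k8 c4313 c5695 c4405 c4403 c4290 c4289 c4287 c4374 (k8 c4373 c4281 c4279 c1153 c1193 c2132 c223 c222 (k8 c2131 c2130 c1103 c4958 c1987 c2502 c4559 c6159 (k2 c4353 c1169 (k1 c4500 k0))))) (by decide +kernel)
def c6693 : PP 8 4 T 0x10100000002000080000000000080000100000000020000000000000000020000008 := rS 0x22a7559a400c591184c7605 (k8 c29 c4403 c4401 c4372 c1026 c791 c6291 c552 (k2 c498 c4351 (k1 c5007 k0))) (by decide +kernel)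
def c6694 : PP 8 4 T 0x2000080000001000880110100080004000000000000000000080000008 := rS 0xd0652b09311 (k4 c4337 c4281 c940 c941 (k2 c6692 c1750 k0)) (by decide +kernel)
def c6695 : PP 8 4 T 0x2000002000080000000000080000000000000100000000000005000000000008 := rS 0xbd8c911a2bb66d149ca75fa3982c38ac592ab63a9cd66411b8f410582b90d2e910f07442b546978c85b31c34de5d138e4924d1a91c7e531d946234312b1c0a6716a9496cf5488d331217bc60a7e (k8 c6689 c4313 c5695 c796 c4469 c4443 c4372 c6029 (k8 c1523 c4375 c5936 c4285 c918 c29 c4289 c1463 (k8 c4393 c4337 c4405 c4403 c4290 c4287 c4374 c4373 (k8 c4282 c4281 c4279 c4277 c4377 c4378 c6548 c818 (k8 c6629 c4478 c554 c6609 c3411 c6691 c6693 c4466 (k8 c1153 c1193 c2132 c1066 c223 c222 c2131 c2130 (k8 c1103 c553 c1649 c2502 c4559 c5073 c4481 c4353 (k8 c4958 c4420 c4486 c3491 c6694 c4839 c4396 c1479 (k4 c1439 c5846 c6159 c4363 (k2 c1169 c4493 k0)))))))))) (by decide +kernel)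
def c6696 : PP 8 4 T 0x80000000080000040080000000000000000000000 := rS 0xc711 (k2 c4337 c2840 (k1 c6629 k0)) (by decide +kernel)
def c6697 : PP 8 4 T 0x400000000000100001000002000084000000000000000000080000100400000000005001000000008 := rS 0x19b4568138c4a7329249ac7029844e2f338b54a4b5488d565157bc45305 (k8 c4313 c4402 c5695 c5815 c4405 c5962 c4372 c6029 (k8 c4375 c5936 c4285 c918 c796 c4277 c878 c29 (k8 c4289 c4282 c4281 c554 c4532 c4478 c4839 c5654 (k2 c4396 c1479 (k1 c5846 k0))))) (by decide +kernel)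
def c6698 : PP 8 4 T 0x2000080000001000000000100080004020840000000000000200000008 := rS 0x1badc7ab98a1c91e552c8ac14094889c72491a91c7ec71d8160b0d (k8 c4382 c4313 c29 c4403 c4289 c4287 c4374 c4373 (k8 c4281 c4279 c4277 c886 c231 c6690 c2244 c534 (k8 c1646 c1426 c6671 c4486 c1085 c1614 c4353 c4386 (k1 c2113 k0)))) (by decide +kernel)
def c6699 : PP 8 4 T 0x2000080000000000000000004400000100000000000005000000000000 := rS 0xbd8c911a2bb66d157e4e3830586a78ac5972955b2ccea79208dc7a0821a5ce6580f15c421d58a34c6b5321be1a5d2f16dfb053f264d6cf892a54a392493446352392c7e531d945e311a189544c700814c2271799c042d (k8 c4285 c6683 c918 c796 c4277 c878 c29 c1 (k8 c4289 c6564 c1463 c4393 c4337 c5695 c4405 c4403 (k8 c4290 c4287 c4375 c4374 c4373 c4372 c4282 c4281 (k8 c4279 c5936 c6029 c4469 c1523 c4442 c4443 c6689 (k8 c4313 c6695 c6696 c6697 c39 c4382 c3439 c1466 (k8 c3411 c818 c6614 c2523 c6693 c6698 c6418 c4466 (k8 c4476 c1649 c1193 c2132 c222 c2131 c2130 c1103 (k8 c540 c2502 c553 c4559 c5073 c4548 c4481 c4353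 (k8 c6694 c4958 c4420 c6392 c4839 c1514 c4396 c1479 (k4 c1439 c5846 c6159 c4363 (k2 c1169 c4493 k0))))))))))) (by decide +kernel)
def c6700 : PP 8 4 T 0x1000008000400054004500020000000004001000080000008 := rS 0xf27362b0d66582ba752e05 (k8 c29 c1193 c1233 c1066 c223 c553 c1947 c1675 (k2 c1649 c541 (k1 c2123 k0))) (by decide +kernel)
def c6701 : PP 8 4 T 0x102000002000080000000000080000004440000000000000000009000004000008 := rS 0x468703f0d521dcf6cc8426d82cba5a2cea210cb41543d1515102c9248346a3f09bc4027d67a255a643199c5b11 (k8 c4337 c4285 c918 c819 c4478 c942 c4794 c1524 (k8 c1354 c1 c5695 c4401 c4287 c4373 c4371 c4281 (k8 c4305 c4380 c6684 c1646 c5433 c437 c436 c2177 (k8 c314 c1686 c3603 c4426 c1750 c1710 c862 c4485 (k8 c6549 c4319 c4438 c1948 c4385 c6700 c4466 c1027 (k1 c6693 k0)))))) (by decide +kernel)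
def c6702 : PP 8 4 T 0x2000080000001000000010000000040000280000001000000000000400 := rS 0x5cadc6e8e370e49235238fd8e3b (k8 c4403 c4289 c4287 c4374 c4373 c4281 c4279 c841 (k4 c840 c1344 c1077 c1476 (k1 c2113 k0))) (by decide +kernel)
def c6703 : PP 8 4 T 0x400000000000000020000000011080000000000000000000000000000040000000000 := rS 0x1574b (k2 c4426 c1670 (k1 c4526 k0)) (by decide +kernel)
def c6704 : PP 8 4 T 0x2000010004000000000008000004202020000000041000000000000208 := rS 0xc122b14829b0c1e42e3f298eca201 (k8 c1 c4405 c4403 c4290 c4287 c518 c2585 c959 (k4 c2865 c1064 c1785 c257 (k2 c1661 c2115 k0))) (by decide +kernel)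
def c6705 : PP 8 4 T 0x2000080000000001180008000404200520500000041008040000000208 := rS 0xc9b5a2f13086e26a713b0d5a2d (k8 c4285 c942 c1128 c4277 c902 c4339 c423 c878 (k4 c5695 c6703 c6704 c255 (k1 c6517 k0))) (by decide +kernel)
def c6706 : PP 8 4 T 0x2000080010051002000000000000000000000000201000000200000000 := rS 0x2f96c374d0e49247258fd8e51 (k8 c4405 c4289 c4287 c4375 c4374 c4281 c4279 c441 (k4 c443 c4034 c867 c1246 k0)) (by decide +kernel)
def c6707 : PP 8 4 T 0x1000002000080000000000080000000400000120481000000008000000000008 := rS 0xc04d91482c53ba2e101936b459b45542e576a546c30ba6b57b0c7a435aa54e60b3a248f608102752e592b9249a4b1f94c263b28bc686611399c371367ab45a2b (k8 c226 c4285 c942 c1524 c4339 c423 c918 c4277 (k8 c878 c4393 c5695 c4405 c4403 c4401 c4290 c4287 (k8 c4375 c4282 c4281 c38 c64 c928 c2971 c838 (k8 c839 c2690 c579 c578 c303 c1649 c1697 c1436 (k8 c337 c234 c1128 c3717 c6117 c6702 c4477 c4383 (k8 c4385 c4959 c1125 c6705 c4398 c1484 c5846 c6704 (k8 c255 c4479 c5853 c4438 c1784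 c1063 c6706 c863 (k2 c2115 c1661 k0)))))))) (by decide +kernel)
def c6708 : PP 8 4 T 0x10001000002000090000000001080000000000000001400000000008000004000000 := rS 0xaa6652d964fa2295021936970924d2392d8e5328bc626a713b3d5a2d (k8 c4285 c942 c1524 c4277 c902 c4339 c5695 c4405 (k8 c4290 c4289 c4375 c4374 c4282 c4281 c4477 c962 (k8 c255 c6395 c1341 c4490 c4396 c4455 c6679 c2116 (k2 c4526 c1948 k0)))) (by decide +kernel)
def c6709 : PP 8 4 T 0x100100001000000000000000450000000014000100120044000000408000010040108 := rS 0x62a2d8279229ed86198b018869d3b9b4e60b2c0043713 (k8 c4339 c423 c1 c4476 c303 c1649 c4993 c1112 (k8 c4731 c6257 c4462 c4481 c255 c5849 c4055 c1217 (k4 c501 c4420 c5853 c4530 (k1 c2123 k0)))) (by decide +kernel)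
def c6710 : PP 8 4 T 0x100101001000000010200040451500001114400100120041500000418000200140008 := rS 0x13abf202642c7745af4328f5882936563886c3a09 (k8 c231 c11 c423 c586 c6709 c804 c799 c1147 (k8 c801 c2252 c6133 c5853 c6033 c2109 c1071 c573 (k2 c1053 c1051 (k1 c2126 k0)))) (by decide +kernel)
def c6711 : PP 8 4 T 0x100101001000000010200040041500001104400000104041500000418100200140008 := rS 0xac940524c0f173a2cc129744ab4c867 (k8 c918 c4478 c942 c4794 c926 c231 c553 c6710 (k4 c4417 c498 c1657 c4462 (k2 c4487 c303 (k1 c802 k0)))) (by decide +kernel)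
def c6712 : PP 8 4 T 0x101000002000080200000000000001000000100000000000000000000100000108 := rS 0xacb00e0183e0b (k4 c302 c222 c4462 c4466 (k2 c6281 c790 (k1 c1147 k0))) (by decide +kernel)
def c6713 : PP 8 4 T 0x101000002000080200000000000001000040100020000000000000000100000008 := rS 0x1ccb0570f0dc7ab35887410711c8fc0205 (k8 c29 c1 c4287 c4279 c586 c6712 c1058 c1145 (k8 c1185 c235 c233 c4466 c1066 c223 c1649 c6405 k0)) (by decide +kernel)
def c6714 : PP 8 4 T 0x100000002000080000000001000000004440000100000000000001000000000000 := rS 0xbd3c9bce2bf221613a1e0eac40e743b9ee108b42a04329b5a88576a546a4618d1578e41a231a92c2a3f2984c76517898626a713b3d12ad1596caac824bf436643199c5b112f8c804a2 (k8 c6564 c6683 c6699 c1465 c4337 c4285 c918 c819 (k8 c4478 c423 c6701 c4281 c5380 c1726 c6707 c226 (k8 c942 c4794 c1524 c4277 c902 c4339 c878 c5695 (k8 c4405 c4403 c4401 c4290 c4287 c4283 c4375 c4373 (k8 c4372 c4371 c4279 c988 c6703 c6708 c4327 c4383 (k8 c4385 c4825 c6711 c5129 c862 c6288 c6395 c6224 (k8 c5853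 c6581 c4319 c4438 c6713 c498 c627 c791 (k8 c4466 c1233 c223 c432 c5760 c2499 c1107 c541 (k2 c1169 c2122 k0))))))))) (by decide +kernel)
def c6715 : PP 8 4 T 0x500000001000000020000000010000000000000000020001000000000040004040000 := rS 0x8b57065574b (k4 c4426 c1670 c260 c4491 (k2 c5853 c1776 k0)) (by decide +kernel)
def c6716 : PP 8 4 T 0x2000100000002000080200000400000000000000100000000000000000000000000000 := rS 0x1ce2eb7 (k4 c4353 c4963 c1730 c4481 k0) (by decide +kernel)
def c6717 : PP 8 4 T 0x10101000002000080200000402000001115400100120040000000008000010000108 := rS 0x84228daae2c15d1d153884c76f188a895a2d (k8 c4285 c942 c6564 c4337 c5695 c4403 c4401 c586 (k8 c6716 c4486 c801 c4476 c6709 c4993 c1776 c5323 (k1 c4322 k0))) (by decide +kernel)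
def c6718 : PP 8 4 T 0x10101000002000080000000002000000004440000100000000000008000200000008 := rS 0x159280a4981e2e7446acc12974887426895696caac824990c66716c450a5c3089cbea2 (k8 c6564 c1465 c4277 c878 c4477 c1498 c4337 c4285 (k8 c918 c819 c4478 c4281 c5380 c1726 c6707 c942 (k8 c4794 c4401 c11 c886 c926 c231 c553 c6643 (k8 c6717 c4417 c498 c1657 c4462 c4487 c303 c802 k0)))) (by decide +kernel)
def c6719 : PP 8 4 T 0x10100000002000080000000000000000004440000100000000000001000000000000 := rS 0x11537a391a9458acce87148960aeb510970463f00814c2272d95590497e86cc863338b6225f1900944a8 (k8 c6714 c6564 c6683 c6699 c1465 c4337 c4285 c918 (k8 c819 c4478 c423 c6701 c4281 c5380 c1726 c6707 (k8 c4277 c878 c29 c1 c4287 c4372 c4477 c6718 (k8 c5129 c6418 c4476 c808 c1418 c6713 c97 c627 (k4 c539 c6643 c858 c1107 (k2 c4388 c4480 k0)))))) (by decide +kernel)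
def c6720 : PP 8 4 T 0x100100001000000000000000410000000014000100120044000000408000010040108 := rS 0x328a36ab8b01b (k4 c423 c4476 c6709 c4993 (k2 c1776 c255 (k1 c5853 k0))) (by decide +kernel)
def c6721 : PP 8 4 T 0x1000000000000000101000002000080200040000000001014400100120040000000008000200000008 := rS 0x232bf3c1002c8b5e865620a2b454e2350a94c7651688acaa4956c4c3711513c4261d04acd2e2d (k8 c4285 c926 c553 c231 c11 c4401 c5695 c6564 (k8 c4337 c423 c4339 c942 c4281 c1726 c226 c6715 (k8 c4405 c4403 c4290 c4283 c4373 c586 c6716 c6720 (k8 c799 c1147 c2252 c6133 c5853 c2109 c573 c572 (k2 c1053 c4447 (k1 c4493 k0)))))) (by decide +kernel)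
def c6722 : PP 8 4 T 0x1000000000000000101000002000080200040000000001004400000104040000000008000200000008 := rS 0x564a02926078b9d0129709a255a64338b622a2 (k8 c6564 c4337 c4285 c918 c4478 c942 c4794 c4401 (k8 c926 c231 c6721 c4417 c498 c1657 c4462 c4487 (k2 c303 c802 k0))) (by decide +kernel)
def c6723 : PP 8 4 T 0x100000002000080000000000000000004440000100000000000001000000000000 := rS 0x5e9e4de715f910b09d0f1dc3a7b842c40e8b42a04e8194dad442bb46a4619455416caac87e99072490688c963f09bc622671686c05131918cbea2 (k8 c6564 c1465 c819 c6699 c4339 c6683 c423 c4285 (k8 c918 c4337 c5695 c4401 c4287 c4375 c4372 c4371 (k8 c4281 c4279 c4478 c6701 c5380 c1726 c6707 c6714 (k8 c4398 c6719 c4327 c4383 c4825 c6722 c5129 c862 (k8 c6288 c6713 c6395 c6224 c5853 c498 c627 c4484 (k8 c708 c791 c4438 c4466 c1233 c223 c432 c5760 (k4 c2499 c1107 c541 c1169 (k1 c2122 k0)))))))) (by decide +kernel)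
def c6724 : PP 8 4 T 0x10001000002000080000000001080000000000000001400000000008040004000000 := rS 0x68c4d5a2d (k4 c4285 c942 c4339 c6703 (k1 c6708 k0)) (by decide +kernel)
def c6725 : PP 8 4 T 0x10000000000004000000000000000a0040140010080000800000000500001000040040000200000208 := rS 0x100ee458426d7e6d5713d981955b2e9639249346a4b88d0d9e2b (k8 c226 c1524 c4393 c4337 c4375 c4373 c4282 c4281 (k8 c4279 c4426 c1750 c1670 c260 c5846 c6220 c4491 (k8 c959 c3461 c2873 c4479 c441 c4438 c2114 c1063 k0))) (by decide +kernel)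
def c6726 : PP 8 4 T 0x200001002000010000000008000044044004400000000000050000000200000400 := rS 0x11136c3 (k4 c1947 c1973 c5850 c441 k0) (by decide +kernel)
def c6727 : PP 8 4 T 0x400200000002000090000100010000044004000000514000000040040000201000608 := rS 0x4527a6d98ae55904ef083da2cdac709bc43689338b622a2 (k8 c6564 c4337 c4285 c918 c4794 c423 c5695 c4401 (k8 c4289 c959 c5853 c1225 c4479 c4438 c1063 c6726 (k4 c2120 c989 c2873 c1479 (k2 c441 c6022 k0)))) (by decide +kernel)
def c6728 : PP 8 4 T 0x10200000002000080000000000000000004400000114480000000008000000000008 := rS 0x2fc9e4520861a2bba2aa126375ea511c6e42970724d1a92d8e611386e26ad39bf456070088016575aa5cce2d510f410553590d3af1 (k8 c5695 c2971 c337 c6117 c4406 c839 c234 c6564 (k8 c4285 c918 c928 c1436 c38 c303 c838 c1 (k8 c494 c226 c4961 c4408 c942 c4339 c423 c4277 (k8 c878 c4289 c4375 c4373 c4282 c4279 c4477 c1498 (k8 c841 c840 c6702 c1080 c1344 c73 c6724 c4398 (k8 c1444 c6725 c6727 c1873 c2178 c259 c6330 c2114 k0)))))) (by decide +kernel)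
def c6729 : PP 8 4 T 0x400200000002000080000000011500000004400000114480000040000000001000008 := rS 0x20a4cee9455420b87b369844e1b449cc400b2bad52e67168f4106b78b44565545abe22a2 (k8 c6564 c4337 c988 c5443 c4406 c226 c6703 c5695 (k8 c6117 c839 c234 c4285 c918 c928 c1436 c38 (k8 c303 c838 c4408 c4794 c423 c4277 c878 c959 (k8 c1225 c6517 c4479 c2120 c6702 c4438 c73 c1063 (k1 c6726 k0))))) (by decide +kernel)
def c6730 : PP 8 4 T 0x400200000002000080000000011500000004400000114480000040000000000000008 := rS 0x2ae96c260c618a45208607e531dbc5440700a5cce2d100f41055 (k8 c4406 c839 c234 c838 c4285 c918 c928 c1 (k8 c494 c6564 c5695 c4403 c4290 c4287 c6729 c1873 (k8 c2178 c4530 c4472 c4450 c4503 c4459 c1947 c4526 k0))) (by decide +kernel)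
def c6731 : PP 8 4 T 0x4000000000020000a0000000410000040014000040500001000040000000200000208 := rS 0x1d587164aae4f2368c24c82c53b91610bd4d9ed166d5713d821955b2e96496384c76f150c46861b67a88563d (k8 c234 c226 c6564 c1524 c423 c4393 c4337 c132 (k8 c5695 c4403 c4401 c4289 c4281 c4426 c1750 c1670 (k8 c260 c1710 c6220 c4491 c959 c5853 c1225 c2873 (k8 c5748 c4479 c441 c4438 c4530 c1063 c1778 c4472 (k8 c6022 c4447 c1471 c859 c4487 c4362 c4417 c2123 k0))))) (by decide +kernel)
def c6732 : PP 8 4 T 0x20000000200009000004100a001040144004400000000000051000000200000400 := rS 0x172444931586f1 (k4 c5695 c1947 c1675 c6726 (k2 c5850 c1125 (k1 c6706 k0))) (by decide +kernel)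
def c6733 : PP 8 4 T 0x400200000002000080000040012001040104000000514000000040000000201000608 := rS 0x5bc5c6cc22293d82bd4db315cab209de107b459b47ec72984c765178a86861b67ad47ad1399556689338b622a2 (k8 c6564 c4337 c4285 c918 c4794 c4311 c4406 c4408 (k8 c6731 c234 c1436 c1524 c423 c4393 c132 c5695 (k8 c4405 c4403 c4401 c4290 c4289 c4287 c959 c5853 (k8 c1225 c4479 c4438 c1063 c6732 c2120 c989 c2873 (k8 c5748 c1715 c1479 c441 c6159 c6022 c4362 c1167 (k1 c4989 k0)))))) (by decide +kernel)
def c6734 : PP 8 4 T 0x200000002000080000000000000000004400000114480000000008000000000008 := rS 0x278dd7acc5c2b928ab49d2e2ec260c617ec52290430a85da951b0c358f4860b040813a970395c724d1a92c7ec7298ede2a188d0c026789a9c4ecf568b54455 (k8 c4406 c6564 c4285 c942 c1524 c4277 c902 c4339 (k8 c918 c1 c4393 c4337 c132 c5695 c4403 c4290 (k8 c4289 c4287 c4375 c4373 c4282 c4279 c38 c494 (k8 c928 c2971 c838 c839 c303 c337 c234 c6117 (k8 c6728 c4383 c4385 c4700 c6730 c6733 c1873 c2178 (k8 c4530 c6330 c4472 c4450 c4503 c4362 c4459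 c1128 (k8 c1947 c4487 c4491 c859 c989 c5748 c1471 c1479 (k1 c2114 k0)))))))) (by decide +kernel)
def c6735 : PP 8 4 T 0x200001002000010004000000000000044000401110044000000008000200000008 := rS 0x80c0229ec0c434e9d41658098eca2010dc4c3a09 (k8 c231 c11 c4339 c423 c1 c4405 c4403 c4401 (k8 c4476 c303 c5096 c4731 c6257 c4462 c4055 c1217 (k2 c5806 c5850 (k1 c1852 k0)))) (by decide +kernel)
def c6736 : PP 8 4 T 0x100200001002000010000000040000000014000000110040000000008000201000008 := rS 0x1194e9e080990526cacc33b858da152984ca21b599543a0945c4d5a2d (k8 c4285 c942 c4339 c5443 c231 c11 c4406 c4311 (k8 c423 c4405 c4401 c4290 c4283 c959 c2109 c6033 (k8 c5849 c6735 c804 c799 c1071 c573 c572 c1051 (k2 c4447 c4488 k0)))) (by decide +kernel)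
def c6737 : PP 8 4 T 0x40000000008000202000000 := rS 0x2c95cd80b (k4 c2252 c255 c799 c4993 (k1 c4476 k0)) (by decide +kernel)
def c6738 : PP 8 4 T 0x200001002000000000000001080000014000000110040000000008000200000008 := rS 0xd157c4626ad168acaa19 (k8 c6737 c4406 c226 c4285 c942 c4339 c4337 c988 (k2 c6703 c6736 k0)) (by decide +kernel)
def c6739 : PP 8 4 T 0x400000000000000200000002000080001101000000400104404000010444000000008000204000008 := rS 0xb98aade2eb0612fc0c433c9c53a7505960760189acdfa1d36a04968506a2c26770c825e245 (k8 c441 c5695 c231 c6737 c6033 c4401 c5853 c4371 (k8 c6224 c4375 c6395 c959 c11 c4961 c4311 c4339 (k8 c1 c4403 c4476 c303 c5096 c4731 c536 c541 (k8 c6257 c4462 c5760 c5806 c6396 c4362 c1167 c4349 (k2 c1203 c4492 k0))))) (by decide +kernel)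
def c6740 : PP 8 4 T 0x2000000020000a0000000002080000014400000010440000000008000204000008 := rS 0xf11862a7486751eb0e2c9949a54acc122af5368d57331574b248ed4311a1c4d9ead599cc56555aa5c5a8b099dc13453dc210af106bf4da19 (k8 c6737 c959 c4961 c4371 c5695 c6224 c5323 c4319 (k8 c4398 c231 c6033 c4401 c5853 c4285 c926 c1436 (k8 c4406 c226 c4408 c4311 c942 c1524 c4339 c4393 (k8 c4337 c132 c4403 c4281 c4426 c1670 c5846 c4491 (k8 c3459 c2873 c5748 c441 c1711 c6739 c2782 c1070 (k8 c1071 c4487 c4958 c4416 c4417 c340 c967 c4530 (k2 c4488 c2123 (k1 c4447 k0)))))))) (by decide +kernel)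
def c6741 : PP 8 4 T 0x200000002000090000100000000400104404000110444000000008000200000008 := rS 0x30185435aa5c5aa236a2c26770c82436f1 (k8 c5695 c423 c231 c6737 c6033 c4401 c5853 c959 (k8 c6564 c4285 c926 c1436 c4393 c6735 c6739 c166 k0)) (by decide +kernel)
def c6742 : PP 8 4 T 0x200000002000080000000000000000014400000110440000000008000200000008 := rS 0x1195dafe2a7820459260a4a9591abd4db302cae689ee11455422d0a6d0ca5c1a3525854a61328bc54311a186d9ead16a88aafd (k8 c4961 c4406 c6564 c4285 c942 c1524 c423 c4393 (k8 c4337 c132 c5695 c4405 c4401 c4290 c4283 c4375 (k8 c4373 c4371 c926 c6737 c959 c6224 c5853 c6738 (k8 c4398 c5323 c4319 c6740 c6736 c2109 c989 c2873 (k8 c5748 c3459 c6741 c2782 c799 c1070 c4487 c573 (k4 c572 c4963 c1053 c1850 (k2 c4447 c4493 k0))))))) (by decide +kernel)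
def c6743 : PP 8 4 T 0x20000000000000000000000000000000001500000100444000000108000100000008 := rS 0x2f56244042fcf61e3c9bce29d3b874b0010d82d366d0ca357713 (k8 c4339 c4825 c4383 c6288 c959 c862 c302 c423 (k8 c1 c4476 c790 c1112 c4731 c536 c1107 c541 (k8 c4466 c4055 c5760 c222 c432 c1145 c1169 c2122 k0))) (by decide +kernel)
def c6744 : PP 8 4 T 0x20001001000000080000000000000000000400000100440000000008000100000008 := rS 0x5f1e4e27720018121c5887cf656488e46a010290d024b42864360d (k8 c4371 c423 c6288 c6224 c4375 c6395 c336 c29 (k8 c1 c4373 c4279 c4327 c6743 c1227 c1066 c1147 (k8 c4466 c1058 c791 c953 c6033 c496 c501 c6396 (k1 c1053 k0)))) (by decide +kernel)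
def c6745 : PP 8 4 T 0x400000000000000000000140100001400101504410000020000000000000000000000 := rS 0x2fcde79 (k4 c541 c1107 c5760 c2122 k0) (by decide +kernel)
def c6746 : PP 8 4 T 0x402080000055504440010244000004108000104000008 := rS 0xc162b3524b84630d7ab122021761e3c9d53a710e960031305a6cda19 (k8 c6288 c959 c862 c302 c4339 c1 c4476 c790 (k8 c1418 c4731 c538 c541 c4466 c1444 c222 c432 (k8 c1145 c1169 c1209 c6745 c1467 c1468 c3459 c1255 (k2 c1661 c2123 k0)))) (by decide +kernel)
def c6747 : PP 8 4 T 0x200000002000080000000000000000004400000114400000000008000000000008 := rS 0x2b978c28cb058a793a9c538400323c381f2b1dcf708a2aa0b90d45a15026d2186416212d8e41a23258fc263b28bc54343029844e1b67a24cead16c4544b339bf45655 (k8 c4406 c226 c4961 c4408 c4311 c6564 c4337 c4285 (k8 c942 c918 c4794 c1524 c423 c4277 c878 c29 (k8 c4393 c132 c5695 c4405 c4403 c4401 c4287 c4375 (k8 c4372 c4371 c4279 c6734 c6742 c302 c6288 c336 (k8 c959 c6395 c6224 c5853 c6744 c4477 c6724 c4398 (k8 c5323 c4319 c4438 c6746 c1066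 c4466 c760 c791 (k8 c953 c952 c1417 c498 c501 c1055 c1852 c4367 (k4 c2123 c5798 c1214 c5748 k0)))))))) (by decide +kernel)
def c6748 : PP 8 4 T 0x200001002000010004000000000000044000401100044000000008000010000108 := rS 0x203008a753d818869d05960263b288043713 (k8 c4339 c423 c1 c4405 c4403 c4401 c4476 c303 (k8 c4731 c6257 c4462 c4055 c498 c1217 c5806 c5850 (k1 c1852 k0))) (by decide +kernel)
def c6749 : PP 8 4 T 0x100200001002000000000000000000000014000000120040000000008000200000008 := rS 0x1194e9e080990526cacc357859166d3b864121d0a94ca2b3688acaaad16c4c3613 (k8 c4401 c423 c4339 c4285 c942 c4406 c226 c6715 (k8 c4311 c4405 c4290 c4283 c11 c231 c6737 c6033 (k8 c959 c5853 c2109 c1776 c5849 c6748 c804 c799 (k4 c1071 c573 c572 c1051 (k2 c4447 c4488 k0))))) (by decide +kernel)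
def c6750 : PP 8 4 T 0x201001002000010000000042080000015500000100244000000108000100000008 := rS 0x182754931518985daf5621e3ca74e2080e960027305a6d161b099ed8677841b43313568b56711 (k8 c4337 c4311 c4285 c942 c4339 c6288 c959 c5323 (k8 c4438 c5849 c4319 c4401 c423 c5853 c862 c302 (k8 c4408 c1 c4476 c790 c6748 c1418 c4731 c541 (k8 c4466 c1145 c6133 c1444 c433 c6745 c1136 c1468 (k2 c1657 c1661 (k1 c2123 k0)))))) (by decide +kernel)
def c6751 : PP 8 4 T 0x2000080000000000000000004440000100000000000001000000000000 := rS 0x18075229000c1c0f95986773dc215ea82e22d0a8136c34861910b44b66415bf4aab382224be631c83496131d945e31151014c2271799c360289ab4642d (k8 c4285 c6699 c942 c4339 c6683 c423 c918 c796 (k8 c4277 c878 c29 c6564 c4337 c5695 c4405 c4403 (k8 c4401 c4375 c4371 c4279 c819 c1465 c4794 c6723 (k8 c4311 c4406 c4961 c226 c6747 c6707 c6715 c6749 (k8 c6288 c336 c6744 c959 c6395 c6224 c5853 c4477 (k8 c6724 c1776 c5323 c4319 c4438 c5849 c6750 c1066 (k4 c4466 c791 c953 c1220 (k2 c498 c5806 (k1 c1852 k0)))))))))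 (by decide +kernel)
def c6752 : PP 8 4 T 0x400000000002000080000000001080040001584401008004000000000400014000108 := rS 0x958bad96493581ccf2bf0326d3a710596076f150c44025b338b5fa5c (k8 c818 c4377 c4285 c918 c6696 c1 c4337 c132 (k8 c5695 c4403 c4476 c303 c1418 c4731 c4728 c4462 (k8 c4566 c541 c1021 c6396 c1608 c674 c675 c4357 (k2 c1746 c4487 k0)))) (by decide +kernel)
def c6753 : PP 8 4 T 0x400000000002000080000000011000041045480401110000000000000000010000108 := rS 0x37a3e2ab94e459629949acd36952b1ee108962d295e2f0db3d02ab7e970c505338b622a2 (k8 c6564 c4337 c4285 c918 c4313 c4478 c818 c4377 (k8 c1612 c1462 c1524 c423 c796 c988 c4526 c4429 (k8 c4457 c6581 c4319 c6752 c2782 c804 c1187 c1070 (k8 c1071 c1147 c4487 c6342 c4361 c4963 c970 c1459 (k1 c4628 k0))))) (by decide +kernel)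
def c6754 : PP 8 4 T 0x400000000002000080000000000080040001584401008004000000000400014000108 := rS 0x12b175b2c926b0399e57e064da74e20b2c0ede2a188804b66716bf51a5c (k8 c818 c3430 c4377 c4285 c918 c6696 c1 c4337 (k8 c132 c5695 c4403 c4476 c303 c1418 c4731 c4728 (k8 c4462 c5760 c541 c1021 c6396 c1608 c674 c675 (k2 c4357 c1746 (k1 c4487 k0))))) (by decide +kernel)
def c6755 : PP 8 4 T 0x400000000002000080000000010000000004480000110000000000000000201000008 := rS 0x4653a7820058aa3d8b265260a4da54ac7b842a1fa5c314445f0507b1d021d4889d2e770496cce2d511b50a0d4586de213 (k8 c4401 c5695 c423 c5853 c4371 c6224 c959 c6564 (k8 c4285 c918 c6696 c231 c6033 c926 c4277 c886 (k8 c11 c1462 c4289 c1455 c4313 c796 c4337 c4478 (k8 c818 c4377 c6753 c5323 c4319 c6754 c2782 c804 (k8 c799 c1070 c1071 c4487 c4416 c306 c6262 c573 (k4 c572 c1051 c4447 c4488 k0)))))) (by decide +kernel)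
def c6756 : PP 8 4 T 0x2000080000000000000000004480000100000000000008000200000008 := rS 0x8d37978c8b50ca5e26ad2d99c5aa2 (k8 c6564 c4285 c918 c6696 c942 c4339 c926 c6737 (k4 c1436 c6755 c554 c3439 (k2 c6609 c6698 k0))) (by decide +kernel)
def c6757 : PP 8 4 T 0x400000000002000080000000002080400001580001008004000000000400004000408 := rS 0x5e2ed629d041c52e1d2c0e4025b338b51a7b3bc21fa5c (k8 c818 c4377 c5323 c4438 c4319 c3430 c4285 c918 (k8 c6696 c1 c4279 c4476 c790 c816 c1418 c6754 (k4 c4731 c1145 c1444 c6745 (k1 c6133 k0)))) (by decide +kernel)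
def c6758 : PP 8 4 T 0x2000080000000000080000000580000110000000000008000100000008 := rS 0x17c79389000c8f0e2c43e563b9ee10a886bf5225c3117c56231ac440a61138be27052d99c5a0b4d90cda850c86de20d (k8 c4371 c5695 c423 c6288 c6224 c959 c336 c862 (k8 c302 c4285 c918 c6696 c4313 c4339 c796 c4277 (k8 c878 c29 c4337 c4373 c4372 c227 c1466 c4478 (k8 c818 c2805 c4377 c6744 c6724 c5323 c4319 c4438 (k8 c6757 c1066 c1147 c4466 c760 c791 c953 c1417 (k2 c501 c6396 (k1 c1053 k0))))))) (by decide +kernel)
def c6759 : PP 8 4 T 0x2000080000000000000000004400000100000000000001000000000000 := rS 0x602558ac33c9d4ee733dacd30442c15d3a970f0755e892f18cc88b36865360b10a060a7e56c4c641b02804042d1f84de2a2 (k8 c6564 c5695 c4401 c4287 c4285 c6683 c1 c29 (k8 c423 c6699 c4339 c942 c6751 c4313 c1462 c6756 (k8 c302 c862 c6288 c959 c5853 c6758 c41 c554 (k8 c557 c1776 c6273 c4466 c1193 c1233 c1066 c223 (k8 c432 c433 c553 c4055 c1649 c1112 c2502 c541 (k4 c1209 c1136 c5073 c2123 (k1 c1933 k0))))))) (by decide +kernel)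
def c6760 : PP 8 4 T 0x1000000000000000000000002000080000000010080000000000000000000000000005440000000000 := rS 0x1984e6809c924d1694e862563a9496ab28abc52cf54bc446a7 (k8 c940 c4372 c5695 c6029 c1523 c4402 c5815 c4405 (k8 c5962 c4375 c5936 c4289 c1463 c4393 c4290 c4285 (k4 c4282 c4281 c4277 c2112 (k2 c4839 c5846 (k1 c1479 k0))))) (by decide +kernel)
def c6761 : PP 8 4 T 0x1000000000001000000000002000080000400010080000000000000000000000000005040200000000 := rS 0x5ec65769a200b94e4b (k8 c4375 c940 c6760 c837 c836 c1850 c4448 c2018 (k1 c4493 k0)) (by decide +kernel)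
def c6762 : PP 8 4 T 0x1000000000000000000000000000080040000021180400800000000000000000000005000200000000 := rS 0xcc2729c5e2726d0c4acf (k8 c1523 c1463 c4393 c4282 c4277 c836 c852 c4839 (k2 c6601 c1479 k0)) (by decide +kernel)
def c6763 : PP 8 4 T 0x41000000000011000001000000000080244400001180000020040000000000000000005000200000002 := rS 0x174405e93d4ecc6592e86cf (k8 c1523 c4393 c4375 c2025 c637 c941 c6220 c2068 (k2 c5804 c4493 (k1 c1850 k0))) (by decide +kernel)
def c6764 : PP 8 4 T 0x100000002000080000000000080000004840000010000000000005000200000004 := rS 0x1e58abb652999a898ca6a96ac60b0e2cbf474552ab35818190733d9f40c5a2e9d456003331c7711a1bf68a8b09a9496cf5488cc69113a5c5a990f9dc12192686c22f1 (k8 c5695 c4275 c638 c4282 c1998 c230 c6033 c57 (k8 c6171 c4285 c926 c4277 c886 c819 c4372 c6029 (k8 c1523 c4375 c5936 c4401 c5853 c4452 c4306 c4393 (k8 c4337 c4403 c4289 c4478 c5084 c5660 c593 c752 (k8 c830 c831 c1353 c2626 c1021 c4483 c632 c6281 (k8 c2615 c2859 c4349 c625 c1242 c4481 c4958 c4420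 (k8 c6761 c4458 c6762 c4448 c6763 c2064 c6601 c4495 (k4 c1979 c1757 c629 c2123 k0)))))))) (by decide +kernel)
def c6765 : PP 8 4 T 0x200001002000004000000040080000004800001100400001000000000205000004 := rS 0x205802ad68a9d9a612aa24ce152994623437ed151613 (k8 c4401 c5853 c4452 c4306 c4393 c4337 c4405 c4290 (k8 c4283 c4309 c4314 c4406 c936 c2064 c4532 c5846 (k4 c6601 c5851 c2109 c4461 (k1 c6610 k0)))) (by decide +kernel)
def c6766 : PP 8 4 T 0x2000080000000000000000004040000100000000000005000200000004 := rS 0x68335126b0b810aa01324149215299468745458649a13578a4da1b410459ea97888cbea2 (k8 c6564 c1465 c4372 c5695 c6029 c1523 c4275 c6759 (k8 c638 c5814 c4402 c5815 c4401 c4282 c1998 c5853 (k8 c4452 c4393 c4405 c4290 c4283 c4281 c6765 c6764 (k8 c490 c1647 c4461 c6610 c6097 c556 c2064 c2109 (k1 c5846 k0))))) (by decide +kernel)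
def c6767 : PP 8 4 T 0x100000002000080200000400000000100000000080080000000000000000000440 := rS 0x2287547a5d621d040e47e00869812271 (k8 c2565 c889 c632 c4325 c5084 c4287 c4279 c4462 (k4 c759 c1145 c6579 c849 (k2 c593 c4486 (k1 c6716 k0)))) (by decide +kernel)
def c6768 : PP 8 4 T 0x10000001002000000000000111181081504800000000081000000010000025000840 := rS 0x2e425ea6624a7a2a2c26bb (k8 c1977 c4401 c5853 c4452 c940 c4490 c4443 c6223 (k2 c6038 c1951 (k1 c6035 k0))) (by decide +kernel)
def c6769 : PP 8 4 T 0x4000000000002000000010140021181501544040000000001001000000000005000800 := rS 0x3c4602cc344b4594a65fb042a53099459f4b (k8 c4458 c1523 c4405 c4401 c4290 c4283 c1986 c4572 (k8 c2126 c941 c1750 c2025 c2028 c2109 c4494 c572 (k1 c4447 k0))) (by decide +kernel)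
def c6770 : PP 8 4 T 0x100000002000080000000000080000004840000080000000000005000100000000 := rS 0x112d10bb00849a5ea6558c54b1d22f145da4d1eb10e0291a074eacd225a4ac34e2602ab20fa5d001246a3b28c4686fd458649a135292d52233686c22f1 (k8 c5695 c4275 c638 c5814 c4372 c6029 c4375 c5936 (k8 c4401 c4282 c1998 c5853 c4306 c4393 c4337 c4405 (k8 c4403 c4373 c4281 c5084 c752 c1353 c4483 c1726 (k8 c632 c2565 c4325 c2859 c6594 c889 c665 c968 (k8 c495 c6576 c6767 c567 c2605 c760 c1029 c1977 (k8 c4486 c4963 c6716 c4487 c1784 c6768 c1032 c4354 (k4 c6769 c765 c933 c1951 (k2 c341 c1985 (k1 c4688 k0))))))))) (by decide +kernel)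
def c6771 : PP 8 4 T 0x400000000000000000000002000004000000000000000044800000020081001000000000005000020 := rS 0xcd682242e152984ca345 (k8 c4452 c4405 c4401 c4290 c4283 c2552 c2558 c2109 (k2 c2064 c5846 k0)) (by decide +kernel)
def c6772 : PP 8 4 T 0x400000000000000000001000000004004000000000400014800000000051501004400000005140421 := rS 0x8c3013a411e87410990395a26433b8b8d41668b368a8b (k8 c5853 c4452 c2064 c5846 c2109 c532 c533 c3754 (k8 c3856 c4442 c4476 c526 c1071 c4462 c1058 c2188 (k4 c1063 c784 c6556 c4488 (k1 c4450 k0)))) (by decide +kernel)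
def c6773 : PP 8 4 T 0x2000080204000000480400014800000000040000000005000000000405 := rS 0xbf4ca3cf2450e1606a3f1dc4556af1490c5c9146aee18a525c4cd41668b359ea911d16865129a2de2132a9242a1b088649a04 (k8 c4461 c4282 c1998 c4275 c638 c4283 c4281 c1726 (k8 c4401 c5695 c5853 c4290 c4405 c4393 c4452 c4372 (k8 c6029 c1523 c2064 c5846 c2109 c532 c4442 c4375 (k8 c5936 c4490 c4825 c4383 c4327 c533 c3856 c4402 (k8 c5815 c5962 c4337 c4403 c4287 c4373 c6772 c4726 (k4 c3233 c541 c760 c1032 (k2 c6330 c6537 k0))))))) (by decide +kernel)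
def c6774 : PP 8 4 T 0x1000000000000000000000000000000000000040000000005000000800820 := rS 0x1301f (k2 c271 c6343 (k1 c6171 k0)) (by decide +kernel)
def c6775 : PP 8 4 T 0x2000080200000010400000004000000144040000000005000000000005 := rS 0x1d2c465329a05b0e9443899ec5c6a0b3459a890a94e2343a2a2c324d0da082213559455e2967aa5e22351010aa49 (k8 c4281 c1726 c4461 c6564 c4372 c5695 c6029 c1523 (k8 c4402 c5815 c4405 c5962 c4401 c4275 c6759 c638 (k8 c4282 c1998 c5853 c4452 c4393 c4337 c4290 c4283 (k8 c4794 c2064 c5846 c2109 c532 c533 c2492 c4442 (k8 c3856 c4491 c4459 c6774 c6773 c75 c4448 c1969 (k2 c765 c4724 k0)))))) (by decide +kernel)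
def c6776 : PP 8 4 T 0x500000000000000002000040001500411100000410000040000000000800010000405 := rS 0x2f51e992b2fcb29d (k8 c784 c4726 c4566 c4476 c1071 c801 c6588 c2126 k0) (by decide +kernel)
def c6777 : PP 8 4 T 0x500000001000000082000040000400411100004410000040000040005800000000405 := rS 0x5fa748a585e819328f048706aa525aa44604 (k8 c4461 c4372 c6029 c4375 c5936 c4373 c6776 c1058 (k8 c760 c1032 c4462 c6588 c526 c1217 c1234 c6330 (k1 c2126 k0))) (by decide +kernel)
def c6778 : PP 8 4 T 0x100000002000080000000000000000004040000100000000000005000000000004 := rS 0x1d2c465329a5da35220b8610d2a16898b8e27b351dc9e88662b0b6550229cc8c800984ce2724c46862563bf68a8b0c93436820884d4a4b67aa5e2233197d4421 (k8 c6766 c6564 c1465 c819 c4372 c5695 c6029 c1523 (k8 c4375 c5936 c4401 c4275 c6759 c638 c4282 c1998 (k8 c5853 c4452 c4306 c4289 c1463 c4393 c4337 c4281 (k8 c4277 c6770 c936 c5056 c5380 c4478 c4532 c4461 (k8 c1726 c6771 c6775 c6601 c2064 c1479 c3977 c556 (k8 c2526 c2566 c2111 c4442 c6097 c5367 c3856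 c4490 (k8 c6774 c4327 c4383 c4825 c6777 c75 c4448 c1969 (k2 c765 c4724 k0)))))))) (by decide +kernel)
def c6779 : PP 8 4 T 0x2000080000000000000000004040000100000000000005000000000004 := rS 0xc90796c081600ab5a2a766984fa554499e085f319241a470a94ca311a18958efda2a2c324d09abc526d0da0822cf54bc446a2 (k8 c6564 c4372 c5695 c6029 c1523 c4275 c6759 c638 (k8 c5814 c4402 c5815 c4401 c4282 c1998 c5853 c4452 (k8 c4306 c4289 c1463 c4393 c4337 c4405 c4290 c4283 (k8 c4374 c4371 c4281 c819 c1465 c6778 c4309 c4314 (k8 c4406 c4409 c936 c2064 c4532 c5846 c6601 c5851 (k4 c2109 c4461 c2552 c264 (k2 c6775 c2107 k0))))))) (by decide +kernel)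
def c6780 : PP 8 4 T 0x40000000000000800101000002000090000000110400001100000000080000000000005000200000004 := rS 0x186c58cc5d1e9a204505cc1030ac5a531daaca2af788a53a00 (k8 c5084 c4343 c4402 c5695 c5815 c4405 c5962 c4403 (k8 c4290 c4285 c5660 c831 c5957 c2112 c5772 c837 (k4 c836 c4388 c4963 c4539 (k2 c1055 c2058 (k1 c4494 k0))))) (by decide +kernel)
def c6781 : PP 8 4 T 0x100000000000000000000020000000050100000000000000000000000000000000000 := rS 0x12717 (k2 c4361 c1125 (k1 c4487 k0)) (by decide +kernel)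
def c6782 : PP 8 4 T 0x100000000002000080000001000000100100880000080080000000000000100000400 := rS 0x228b637ae4e2bd223047a411b90d86b3042547247258fca63b28bc5fa192683d8e7744345944958a5cea07 (k8 c495 c2577 c929 c2656 c4281 c677 c1750 c676 (k8 c3928 c4289 c1455 c4282 c1998 c4306 c5695 c4405 (k8 c4403 c4290 c4287 c4375 c4374 c4279 c5290 c4462 (k8 c665 c4958 c236 c232 c1063 c235 c1985 c6159 (k4 c1169 c589 c6781 c1459 (k2 c4034 c4480 (k1 c4353 k0))))))) (by decide +kernel)
def c6783 : PP 8 4 T 0x2000080000000000480000000880000000080000000005000000000004 := rS 0xbc38454de428b2e4aa934a870142146c316a002ea5cccb14898c9a291da7e22fd5292d930530a84ead124aecbe654ea6624ad652aca34b442a5e223 (k8 c4372 c5695 c6029 c676 c4457 c4405 c5962 c677 (k8 c2026 c4526 c4443 c4343 c2524 c1466 c3887 c4281 (k8 c1750 c2577 c132 c673 c4313 c126 c4375 c5936 (k8 c4306 c4337 c78 c4403 c4402 c4282 c2840 c2943 (k8 c2656 c6696 c929 c1458 c5084 c4975 c4477 c4383 (k8 c6780 c6782 c567 c762 c1029 c5961 c6781 c4487 (k4 c6034 c1459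 c4963 c4480 (k2 c589 c2014 k0)))))))) (by decide +kernel)
def c6784 : PP 8 4 T 0x100000001000000010000000000000110000000000000000500154400000110000002 := rS 0x7ac30f25d8318 (k4 c4472 c4450 c6579 c4466 (k2 c4958 c275 (k1 c6159 k0))) (by decide +kernel)
def c6785 : PP 8 4 T 0x800001000002000090000040001580000000084400080440000000001000001000000 := rS 0x619c970564b455785949a3c389b46a4630bf86104864510c5d2a5d5a8000a63118d42a3f298eca2f14fc46867d30a853a99 (k8 c4443 c4343 c132 c673 c49 c4393 c4337 c78 (k8 c5695 c4405 c4403 c4290 c4287 c4283 c4373 c4372 (k8 c42 c654 c5084 c4975 c923 c856 c5282 c830 (k8 c5776 c5782 c5810 c4477 c6330 c4472 c4327 c4383 (k8 c4448 c6784 c760 c1029 c1026 c2126 c4539 c4487 (k4 c4476 c4793 c921 c1087 (k1 c1207 k0))))))) (by decide +kernel)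
def c6786 : PP 8 4 T 0x1000000000000000001000002000084000040044080000001080000518040000000001000110000405 := rS 0x564a1662305 (k4 c4313 c4337 c4726 c6623 (k2 c4476 c2782 k0)) (by decide +kernel)
def c6787 : PP 8 4 T 0x1000000000000000001000002000084000040044080000001080000518040000000001000100000405 := rS 0x58c5567164b960de0649a551e090e08c6a291dc44085c (k8 c818 c4461 c4337 c4403 c4402 c4373 c4372 c6786 (k8 c1058 c760 c762 c1029 c4462 c1019 c526 c1196 (k4 c4487 c4357 c4963 c674 (k1 c4628 k0)))) (by decide +kernel)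
def c6788 : PP 8 4 T 0x1000000000000000001000002000084000040044080000001080000518040000000001000100000005 := rS 0x6f8aae62c9547a4c38972c87d66b105044461514c451a5c (k8 c818 c3430 c4337 c4402 c4283 c4372 c4275 c6787 (k8 c622 c662 c271 c535 c817 c4466 c1609 c760 (k4 c762 c4487 c6781 c4963 (k2 c1459 c4628 k0)))) (by decide +kernel)
def c6789 : PP 8 4 T 0x2000080000000000000000004000000100000000000005000000000004 := rS 0x18ac38cc5d1eb75cc5182b3589bcf27105160ae2046a44b80431004ce5b35a7624ad5397d76d13bd2ccaca3a9ed1061829f99eaf55aa54a112488c961514945e2a188a890afda2865044d (k8 c4282 c6759 c1998 c4452 c4306 c128 c6564 c4337 (k8 c132 c5695 c4405 c4402 c4283 c4375 c4372 c4281 (k8 c4275 c5936 c6029 c5962 c5815 c1523 c6779 c4313 (k8 c673 c676 c2659 c2577 c677 c2524 c4457 c3928 (k8 c1750 c3887 c1466 c4532 c2026 c4526 c4343 c4442 (k8 c6783 c6785 c5056 c4478 c4461 c818 c2805 c3430 (k8 c6788 c798 c311 c310 c1418 c540 c1107 c622 (k8 c662 c1984 c4480 c4548 c4353 c4388 c4963 c4539 (k2 c2029 c1756 (k1 c4494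 k0)))))))))) (by decide +kernel)
def c6790 : PP 8 4 T 0x2000080000000000000000004000000100000000000001000000000004 := rS 0x6045986c53c9dce675a50191a9782a25661d33320167b2d1fcc1090b1b00005190fc76a2458649a1b41045e213 (k8 c4401 c5695 c4275 c6759 c638 c4282 c1998 c5853 (k8 c6564 c4403 c4287 c6789 c430 c4461 c950 c951 (k8 c4317 c640 c2658 c5832 c2474 c2547 c937 c936 (k8 c2958 c2615 c2618 c4309 c6579 c6576 c6767 c4485 (k8 c593 c1021 c1024 c2452 c4429 c4459 c4481 c2123 (k1 c4420 k0)))))) (by decide +kernel)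
def c6791 : PP 8 4 T 0x1000002000080000000000080000000000000100400000000005000000000008 := rS 0xcf3f2a446f188d0c4ac7 (k8 c4289 c1463 c4393 c4337 c5695 c4372 c6029 c6689 (k2 c1523 c6697 k0)) (by decide +kernel)
def c6792 : PP 8 4 T 0x1000000010004000000000408000000000000000500055400000200000000 := rS 0x18245 (k2 c441 c1661 (k1 c6159 k0)) (by decide +kernel)
def c6793 : PP 8 4 T 0x2000090000001000400000000800000021480000050008000200000600 := rS 0x1c56c375e91134b946c30bac31ea54e6744915472492392c7ec7298eca2f17eab45a2b2b96576b1 (k8 c624 c1977 c64 c38 c436 c4285 c942 c4306 (k8 c5695 c4405 c4403 c4290 c4289 c4287 c4375 c4374 (k8 c4281 c4279 c1646 c579 c578 c1649 c1697 c234 (k8 c1128 c6702 c4477 c4383 c1125 c6792 c863 c2018 (k4 c443 c4034 c589 c1745 k0))))) (by decide +kernel)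
def c6794 : PP 8 4 T 0x2000080000000000000000004000000100080000000001000000000000 := rS 0x1708d5bc3180372ea5534441ea4986732aaaa0865209de106b5dad4860b589ec10204ba74ae392392c7ec7298eca28b0d844266d0c9354e61319fda2cfa2d0c92af66a2626ad1917c5ef113bf62267010b504a2 (k8 c6564 c6759 c4285 c6790 c918 c4337 c4306 c4277 (k8 c5695 c796 c6467 c6791 c942 c4339 c5335 c2064 (k8 c989 c4281 c4393 c4452 c1524 c5846 c676 c819 (k8 c878 c4532 c4282 c1998 c959 c4401 c4275 c638 (k8 c5853 c4405 c4403 c4290 c4289 c4287 c4375 c4374 (k8 c4279 c38 c2971 c2933 c838 c839 c2626 c624 (k8 c303 c337 c1436 c1977 c6117 c4479 c4438 c1063 (k8 c6793 c4478 c2120 c4406 c4408 c1947 c6726 c234 (k8 c5850 c6792 c73 c6702 c443 c1972 c4477 c1749 (k2 c4383 c4034 (k1 c1125 k0))))))))))) (by decide +kernel)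
def c6795 : PP 8 4 T 0x1000000000000000101000002000080000000001580000000040000000040000000009000100000008 := rS 0x4511cbd8cafd28444ea5c3c1d4981e2e745da4618391f84e266431c45907d338b6869b (k8 c862 c4393 c4285 c918 c1354 c4483 c4337 c819 (k8 c4478 c4339 c4401 c4287 c4279 c4490 c4327 c4825 (k8 c6713 c4417 c498 c1657 c791 c4466 c1193 c1233 (k8 c432 c4487 c4566 c4363 c1169 c858 c4493 c4388 k0)))) (by decide +kernel)
def c6796 : PP 8 4 T 0x101000002000080200000000000010000040000020000000000000000180000008 := rS 0x3a1612239 (k4 c4279 c1153 c223 c6713 (k1 c539 k0)) (by decide +kernel)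
def c6797 : PP 8 4 T 0x2000000000000040000000054000400120000000040008000020000008 := rS 0x186c1629e4ea7b599cd384003158b293098eca205 (k8 c29 c4405 c4403 c4401 c1029 c1026 c790 c791 (k8 c953 c952 c1648 c552 c1227 c498 c501 c1055 (k2 c1852 c1214 (k1 c2123 k0)))) (by decide +kernel)
def c6798 : PP 8 4 T 0x1000000000000000101000002000080000000002080000000040000000000000000009000180000008 := rS 0x2fe2a8e5ec65769422274726431c45907d338b6869b (k8 c862 c4393 c4285 c918 c1354 c4483 c4337 c819 (k8 c4478 c4279 c1233 c432 c6796 c1444 c4363 c1169 (k4 c858 c4388 c1516 c4493 k0))) (by decide +kernel)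
def c6799 : PP 8 4 T 0x100000002000080000000000000000004000000100000000000001000100000000 := rS 0xec090e07d5043a2a2c324d0d844260152a9cc2af6696cc8633fa2626ad1917c5ef113bf50467010b622a2 (k8 c6564 c4337 c4285 c6790 c918 c6759 c4306 c4277 (k8 c5695 c796 c6467 c6791 c942 c4339 c5335 c676 (k8 c819 c4478 c6794 c2064 c989 c878 c4532 c1937 (k8 c1 c4401 c4275 c638 c4282 c1998 c5853 c4452 (k4 c336 c6795 c6798 c4466 (k2 c1058 c6797 (k1 c6033 k0))))))) (by decide +kernel)
def c6800 : PP 8 4 T 0x100100001000000000000000410000000014000000120040000000408000200040408 := rS 0x740315c3a09 (k4 c231 c11 c799 c4462 (k2 c6720 c498 k0)) (by decide +kernel)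
def c6801 : PP 8 4 T 0x100000002000080000000000000000004000000100000000000001000000000000 := rS 0x8ca75329b3c100ac0a3bacc12970e8802c5532054a63b28a2c324d0d84426633f8ada2cd44c4e226767ab45b45a1924645f17bc44e027ea09445b (k8 c6794 c6564 c6759 c4306 c6790 c4277 c5695 c796 (k8 c6467 c6791 c4281 c4393 c4452 c4285 c942 c1524 (k8 c918 c4337 c4339 c5335 c2064 c5846 c436 c676 (k8 c819 c4401 c4275 c638 c4282 c1998 c5853 c4405 (k8 c4403 c4290 c4283 c4478 c1646 c2109 c6799 c11 (k8 c926 c231 c553 c6033 c6800 c303 c573 c572 (k4 c804 c1071 c1051 c4447 (k1 c4488 k0)))))))) (by decide +kernel)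
def c6802 : PP 8 4 T 0x1000000000000000440000000014000040100000100040408000025040008 := rS 0x186c1629e4ea7b3ba7080062b0251601 (k8 c1 c5853 c1058 c790 c791 c953 c952 c6033 (k4 c1227 c498 c501 c1055 (k2 c1852 c1214 (k1 c2123 k0)))) (by decide +kernel)
def c6803 : PP 8 4 T 0x14000400000210054005440000020000000000000000000000 := rS 0xeac1 (k2 c1933 c539 (k1 c2123 k0)) (by decide +kernel)
def c6804 : PP 8 4 T 0x1000000000000000400080000014800040100000100004508000105840008 := rS 0xbf8aa3928c55db0d7b193c9dcf698221600e1e0e90d3745458055ecd (k8 c2064 c989 c1 c5853 c4452 c862 c336 c6802 (k8 c4466 c1098 c223 c432 c433 c520 c1112 c541 (k8 c4363 c1169 c1209 c3844 c1136 c6803 c858 c4388 (k2 c1516 c4493 k0)))) (by decide +kernel)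
def c6805 : PP 8 4 T 0x100200001002000010000000040000000014000000100040000000008000201000008 := rS 0x64 (k2 c6736 c6749 k0) (by decide +kernel)
def c6806 : PP 8 4 T 0x2000080000000000000000004000000100000000000001000000000000 := rS 0x200b1ccaab38216d5ed166b3d12ad898c8be671780916190dd15fa820889c7249268545a3f2984c765178c4686a2 (k8 c6564 c4393 c4337 c5695 c4405 c4403 c4401 c4290 (k8 c4287 c4285 c4283 c4282 c4281 c4279 c4277 c4275 (k8 c6759 c4306 c4452 c638 c1998 c5853 c6790 c796 (k8 c918 c6467 c6791 c4339 c942 c5335 c1524 c2064 (k8 c5846 c989 c6794 c6801 c4311 c4406 c4408 c2109 (k2 c6804 c6805 k0)))))) (by decide +kernel)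
def c6807 : PP 8 4 T 0x100000002000080000000000080000020800000000000000000002000100000000 := rS 0x5e10cdc37042dcac962ca4d221c861162e4130a54b69b3bb24ea0b0b2a8d4d12eabc0005333f472491a91c7711a18be264f12b1d6a3f11d2cda1b0a86466f12f9955a53 (k8 c4290 c2046 c557 c1466 c5695 c62 c2038 c4283 (k8 c678 c5889 c4457 c4372 c4287 c5129 c4289 c1463 (k8 c298 c4441 c16 c4393 c4337 c4403 c4374 c4373 (k8 c4281 c4279 c4306 c5335 c654 c5084 c984 c752 (k8 c301 c5289 c4491 c492 c2540 c2574 c2613 c3853 (k8 c3881 c5847 c5290 c937 c5762 c5282 c5793 c4477 (k8 c6046 c4327 c1029 c1026 c4487 c4476 c1165 c751 (k4 c4989 c4559 c236 c6022 (k1 c1079 k0))))))))) (by decide +kernel)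
def c6808 : PP 8 4 T 0x100000001002000000000000000000000024000000080000000000002000100000000 := rS 0x18243390207ac32b3152c992ca4c38458b9052a5b4d9dcea0b0b2a8d4d1578000a3f1d9445f1356d2cda1b0a864a633 (k8 c62 c4290 c2038 c4283 c678 c5889 c4457 c2046 (k8 c4441 c16 c4405 c4403 c4287 c654 c5084 c984 (k8 c301 c5289 c4491 c492 c2540 c2574 c3853 c3881 (k8 c5847 c5290 c5762 c5282 c5793 c6046 c1029 c1026 (k8 c1031 c4487 c1674 c4476 c1946 c5240 c751 c921 (k2 c236 c1620 (k1 c2115 k0))))))) (by decide +kernel)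
def c6809 : PP 8 4 T 0x100000002000080000000000000000024000000100000000000000000100000004 := rS 0x16c2e0431004ce8378c444aa263ab46053 (k8 c4290 c6806 c2046 c4289 c6564 c1463 c4337 c5695 (k8 c6807 c6808 c5056 c4794 c4461 c1911 c2840 c6561 k0)) (by decide +kernel)
def c6810 : PP 8 4 T 0x100100000002000000000000000000000010000000000000000000002000000800000 := rS 0x198d400 (k4 c1911 c1910 c5056 c660 k0) (by decide +kernel)
def c6811 : PP 8 4 T 0x100000002000080000000000000000014800000100000000000000000000000000 := rS 0x324fa54653459a7f4586437457e844924d2392c2a1328d0c9e2563b3d5a530b8c222a2 (k8 c6564 c4337 c6806 c6810 c4290 c2046 c1524 c4289 (k8 c1463 c298 c4393 c4405 c4401 c4283 c4375 c4374 (k8 c4282 c4281 c4275 c4306 c4452 c638 c1998 c645 (k8 c676 c2064 c5846 c2116 c2109 c1628 c1726 c4483 k0)))) (by decide +kernel)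
def c6812 : PP 8 4 T 0x100000002000080000000000000000014000000180000000000000000001000000 := rS 0x649fdfa54072150211249341a4b09945e343278958e1788a0d16ad2986c0a1568abc607d2e80046a2 (k8 c6564 c4372 c5084 c752 c1353 c6806 c985 c301 (k8 c4283 c654 c294 c4290 c2046 c721 c6811 c4337 (k8 c6810 c4289 c1463 c298 c4393 c5695 c4405 c4401 (k8 c4375 c4371 c4282 c4281 c4275 c6395 c6224 c2108 (k4 c2109 c4376 c1455 c1726 (k1 c4483 k0)))))) (by decide +kernel)
def c6813 : PP 8 4 T 0x100000002000080000000000000000014000000180000000000000000100000000 := rS 0x1823d8c254860b0f0748245039ed86c54d968b34a3642430d135a2d5e001f8eca2f189ab46053 (k8 c4290 c6806 c2046 c4441 c5695 c4405 c4403 c4287 (k8 c5084 c985 c721 c660 c301 c6812 c4436 c4479 (k8 c4485 c4993 c6017 c5873 c4429 c4459 c705 c495 (k8 c257 c1873 c5907 c4466 c567 c277 c5290 c4472 (k2 c275 c4450 (k1 c2115 k0)))))) (by decide +kernel)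
def c6814 : PP 8 4 T 0x100000002000080000000000000000004000000100000000000000000100000004 := rS 0x30da292553155e643611482434b9acc61a05078b40f0c81002674185d123b78c445e4f1809544c7 (k8 c4289 c6564 c1463 c6806 c298 c16 c4337 c5695 (k8 c4403 c6809 c6810 c6811 c6813 c5056 c4461 c269 (k8 c264 c6561 c575 c574 c6153 c2840 c2559 c928 (k8 c2208 c1104 c2235 c295 c4478 c1777 c4530 c701 (k4 c579 c301 c1947 c5995 k0))))) (by decide +kernel)
def c6815 : PP 8 4 T 0x500000000002000000000000010000000020000001080000000000000000200000000 := rS 0x1ad5e00 (k4 c5084 c984 c5752 c5289 k0) (by decide +kernel)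
def c6816 : PP 8 4 T 0x400100000002000080000000010080000020000000000000040000004000204400004 := rS 0x3808830099cda8142864224d0692ca6f1888958ecf (k8 c1524 c4289 c1463 c4337 c5695 c4290 c4375 c4371 (k8 c4282 c4275 c2038 c685 c6395 c5889 c6815 c5056 (k4 c5335 c4461 c2108 c264 k0))) (by decide +kernel)
def c6817 : PP 8 4 T 0x100000002000080000000000000000014000000180000000000000000200000000 := rS 0x7b3bc24f25a03060d6004c1043a9b0fc648430 (k8 c6806 c316 c4446 c57 c1967 c11 c1913 c317 (k8 c5084 c660 c6812 c831 c830 c1928 c4436 c1023 (k2 c705 c4482 k0))) (by decide +kernel)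
def c6818 : PP 8 4 T 0x100000002000080000000000000000004000000100000000000000000000000004 := rS 0xb6040099d06890b909301b103c6223389ab4a64f1809544c7 (k8 c4289 c6564 c1463 c6806 c298 c4290 c2046 c4441 (k8 c62 c4337 c5695 c6814 c2264 c317 c316 c3838 (k4 c6816 c6811 c6817 c5056 (k2 c4461 c6147 (k1 c6561 k0))))) (by decide +kernel)
def c6819 : PP 8 4 T 0x200000002000080000000000000000004800000100000000000000000000000000 := rS 0xb0055ed136b3516190dd14224926854265178c4686cf568c0a6892a984cea2 (k8 c6564 c4309 c936 c4406 c4314 c4290 c6806 c2046 (k8 c1524 c4393 c4337 c5695 c4405 c4401 c4283 c4282 (k8 c4281 c4275 c4452 c638 c1998 c645 c2064 c640 (k4 c5846 c989 c5851 c2109 (k1 c1911 k0))))) (by decide +kernel)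
def c6820 : PP 8 4 T 0x80000140000000400100000000000000000100002001110000000 := rS 0xf106264f (k4 c298 c4441 c1913 c4466 (k1 c5906 k0)) (by decide +kernel)
def c6821 : PP 8 4 T 0x200000002000080000000000000000004000000100080000000000000101000002 := rS 0x230788a9d587164a87126c55e90d82ae15514eed0544202e6b5f915367b4ea5cb215148eca2a188d0e26a72693c4ac767ab4a6b344954e6834092d0a0d4584cda1b178cc60f146a95770c2e88cc2677e97cfea2 (k8 c6564 c4313 c1465 c4961 c4309 c936 c4372 c752 (k8 c4477 c4847 c4385 c4383 c5695 c6806 c62 c16 (k8 c687 c5889 c4401 c5853 c4371 c6224 c4375 c6395 (k8 c6819 c4408 c4406 c4314 c4311 c4290 c2046 c1524 (k8 c4289 c1463 c298 c4282 c2006 c4441 c4393 c4337 (k8 c132 c4405 c4403 c4402 c4283 c64 c928 c968 (k8 c704 c5843 c297 c5760 c5969 c1910 c4479 c2119 (k8 c2109 c4438 c4398 c300 c301 c1711 c5794 c5748 (k8 c4530 c1778 c6820 c762 c4487 c4362 c4417 c4963 (k2 c2123 c4493 (k1 c4447 k0))))))))))) (by decide +kernel)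
def c6822 : PP 8 4 T 0x200000002000090000000000000000004000000100000000000000000101000002 := rS 0x1eb0c86c58b26630934a9053a1c609dcd5085ea6d98970b2b82a3f148eca2a188d0c4ac767ab4a6892aa0c0a8b099b4363378a35770c2e88cc2677e97cfea22296c5e30 (k8 c6806 c16 c6821 c5793 c6564 c4313 c1465 c4961 (k8 c4309 c936 c4372 c752 c4477 c4847 c4383 c5695 (k8 c62 c687 c5889 c4401 c5853 c2 c6819 c4406 (k8 c4314 c4290 c2046 c1524 c4289 c1463 c4393 c4337 (k8 c132 c4405 c4403 c4402 c4287 c4283 c5851 c2109 (k8 c4631 c989 c2873 c5748 c5449 c1910 c3816 c1988 (k8 c6820 c5759 c5762 c762 c1029 c5755 c1031 c4487 (k4 c4370 c4446 c4958 c4416 (k1 c2115 k0))))))))) (by decide +kernel)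
def c6823 : PP 8 4 T 0x200000002000080000000000000000004000000100000000000000000101000002 := rS 0x1e4eac38c4588295499dcf61c62c217a434bb0536ae152ae96d02296d768d45c30365d0288c26291dbc54311a18958e2f19c4d9ead1814d668939bf4c2672f9fd4483 (k8 c6819 c6564 c4313 c1465 c4309 c936 c4961 c4408 (k8 c4314 c4311 c4290 c6806 c2046 c1524 c4441 c62 (k8 c16 c4289 c1463 c4393 c4337 c132 c5695 c4403 (k8 c4402 c4401 c4372 c2 c752 c687 c4477 c5853 (k8 c4383 c4847 c6821 c5793 c6822 c4426 c1671 c300 (k8 c301 c5790 c1711 c4785 c5794 c5748 c5449 c4530 (k8 c6820 c4319 c4438 c1778 c762 c5762 c4487 c4472 (k4 c4362 c4417 c4447 c2123 k0)))))))) (by decide +kernel)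
def c6824 : PP 8 4 T 0x2000080000000000000000004000000100000000000000000101000004 := rS 0x1e30d94b63a2e5087040d1582bc8c0dc8243849143c1d3db2034b1051681e170200422490691c2a137893c60255131cfe553ebf50704 (k8 c6818 c6819 c4961 c4409 c4406 c4313 c4289 c6564 (k8 c1463 c6806 c298 c5695 c4401 c4283 c4374 c4371 (k8 c4281 c4275 c6823 c4461 c1911 c264 c6561 c574 (k8 c2607 c6526 c2107 c2688 c758 c575 c2235 c4315 (k8 c335 c1913 c272 c4472 c6022 c4450 c4454 c1899 (k8 c6133 c4484 c1473 c586 c587 c717 c2029 c6112 (k1 c1742 k0))))))) (by decide +kernel)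
def c6825 : PP 8 4 T 0x2000080000000000000000004000000100000000000000000002000004 := rS 0x2a5988552a2d5f0c3297400d102c244e232584e222f19c4d4e4d278958ecf568c0a6557e984ce5f3fa890704 (k8 c6818 c6819 c6564 c4313 c1465 c4309 c936 c4961 (k8 c4406 c4290 c6806 c2046 c1524 c4289 c1463 c298 (k8 c4282 c2006 c4441 c62 c16 c4337 c4401 c4375 (k8 c4372 c4277 c4436 c269 c260 c4461 c752 c490 (k8 c4477 c5449 c5443 c4385 c5444 c5703 c1484 c4525 k0))))) (by decide +kernel)
def c6826 : PP 8 4 T 0x2000080000000000000000004000000100000000000000000000000004 := rS 0x4586c40198204de230 (k8 c6806 c5695 c4401 c6818 c6825 c6824 c2264 c5853 (k1 c5845 k0)) (by decide +kernel)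
def c6827 : PP 8 4 T 0x80000000000000000101000002000080000000000000000004000000100000000000000000100000000 := rS 0x2b8f43c2b0ea34c90d3f17992841f8eca2f1889844e6716915a25b84a0c9a414d860f66a0280417130d80986ca278958ecf568c0a6a2 (k8 c6564 c4290 c6806 c2046 c1524 c4289 c1463 c298 (k8 c6615 c4459 c6826 c423 c4441 c2245 c1 c29 (k8 c229 c5481 c228 c3875 c3826 c4282 c1998 c4436 (k8 c5527 c2141 c2139 c4285 c918 c4277 c878 c4337 (k8 c5695 c4405 c4403 c4287 c5740 c2534 c562 c5380 (k8 c4382 c1466 c6614 c6693 c6563 c4466 c274 c1066 (k1 c6562 k0))))))) (by decide +kernel)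
def c6828 : PP 8 4 T 0x80000000000000000100000002000080000000000000000004000000100000000000000000100000000 := rS 0x1823d21af03c1d5dc351aa82f1f8aa2b3218cde5d7e30c765178c444ac7898148ad12d804fa6716c25064d4494c829b3506004305aa887e23 (k8 c4372 c4287 c6564 c5129 c6806 c6826 c228 c229 (k8 c3875 c3826 c4290 c2038 c4282 c1998 c4436 c4285 (k8 c918 c1354 c1 c5527 c2141 c2139 c29 c4441 (k8 c4289 c1463 c4337 c5695 c4405 c4403 c4459 c6827 (k8 c4377 c4378 c818 c4478 c6563 c1646 c6684 c554 (k8 c6680 c6609 c4382 c3413 c6693 c4466 c6820 c2132 (k2 c2131 c2021 (k1 c6159 k0)))))))) (by decide +kernel)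
def c6829 : PP 8 4 T 0x40000000000000000100000002000080000000000000000004000000100000000000000000000000000 := rS 0x42aa1fa5f571fcaa8a35344da333e99c5aa284a0c9a890c0086053 (k8 c4290 c6806 c6826 c228 c2038 c4282 c1998 c4436 (k8 c6564 c4285 c918 c1354 c62 c958 c2141 c229 (k8 c4485 c4151 c2537 c565 c1465 c6684 c988 c562 (k1 c5323 k0)))) (by decide +kernel)
def c6830 : PP 8 4 T 0x100000000000002000200000008 := rS 0x8ca7484332dc24829b0c1ecd4050082e261b (k8 c423 c4441 c2245 c1 c29 c229 c5481 c228 (k8 c3875 c3826 c4436 c5527 c62 c316 c966 c4446 (k1 c5528 k0))) (by decide +kernel)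
def c6831 : PP 8 4 T 0x100000002000080000000000000000004000000100000000000000000000000000 := rS 0xa50840430 (k4 c6806 c6826 c6830 c6829 (k1 c6828 k0)) (by decide +kernel)
def c6832 : PP 8 4 T 0x2000080000000000000000004000000100000000000000000000000000 := rS 0x30486c33b9d630794c818b2090e22c3eaa57d2d7aa965a15fb04109ec8283849b48a6a0c06c1605008099e4f56c4c663012a889ac72984c76f1 (k8 c5695 c4403 c4401 c4290 c4289 c4282 c6564 c1463 (k8 c6806 c62 c4441 c2046 c298 c1524 c6826 c1 (k8 c29 c2245 c423 c228 c229 c2139 c958 c4436 (k8 c1998 c3826 c5481 c6830 c6831 c4961 c5477 c5740 (k8 c5323 c5529 c6615 c988 c4526 c6426 c565 c4466 (k8 c1058 c1026 c791 c1031 c1959 c5310 c498 c1023 (k4 c1946 c4446 c4450 c5806 k0))))))) (by decide +kernel)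
def c6833 : PP 8 4 T 0x1000001000000080000000000000000000800000000000000000000000000400000 := rS 0xc86c224d (k4 c4282 c4275 c638 c1998 (k1 c4465 k0)) (by decide +kernel)
def c6834 : PP 8 4 T 0x1000000000000000000000000000000000200080000000000000101000020 := rS 0x20c64864504a68ec57 (k8 c38 c845 c844 c263 c1089 c1886 c4448 c1849 (k1 c4472 k0)) (by decide +kernel)
def c6835 : PP 8 4 T 0x80000000000000800000000002000084000001040080400004000000000000000200004000008000060 := rS 0x9ecb5d2fe2ab65ca4982953b1586e97040f43c0b5ec6472492392c7e51558958ed162ab587454ea64f268 (k8 c6832 c1960 c4443 c4343 c6679 c4459 c4458 c4429 (k8 c4426 c4289 c1463 c1884 c4405 c4287 c4375 c4374 (k8 c4281 c4279 c4363 c1169 c439 c6169 c444 c4462 (k8 c1193 c272 c263 c425 c2782 c1892 c2127 c3068 (k4 c4034 c4353 c3095 c4493 (k2 c3804 c1439 (k1 c6615 k0))))))) (by decide +kernel)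
def c6836 : PP 8 4 T 0x80000000000000800000000002000080000000000080400004000000000040000050005000108000020 := rS 0x170bc8aa452c9547ade2e1c1e07d1ac15d82927185f8248a491a94c76515292d5e2988d0d6a3f67aa5e22368b1586a756a753207 (k8 c689 c4443 c4343 c4458 c940 c4459 c4429 c4426 (k8 c4372 c5695 c6029 c1523 c4287 c5129 c4393 c4337 (k8 c4402 c5815 c4375 c5936 c4405 c4403 c4290 c4373 (k8 c4281 c6835 c424 c6330 c4472 c4188 c4462 c4449 (k8 c4450 c1468 c271 c6159 c4466 c4416 c1742 c760 (k4 c762 c4487 c939 c4539 (k2 c2126 c4793 (k1 c1207 k0)))))))) (by decide +kernel)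
def c6837 : PP 8 4 T 0x80000000000000800000000002000080000000000080000004000000000040000050005000108000020 := rS 0x283c090e9dd3407 (k8 c689 c6836 c1889 c765 c425 c4466 c4462 c271 k0) (by decide +kernel)
def c6838 : PP 8 4 T 0x800000000000000000000441001580480500008000000040000000000000000000000 := rS 0x173155e2456e582bd0d3a99 (k8 c4443 c4343 c4393 c1226 c4476 c3176 c939 c2126 (k2 c4354 c3218 (k1 c4793 k0))) (by decide +kernel)
def c6839 : PP 8 4 T 0x1000002000080000000100010002000000200021001000000000000000004000 := rS 0x3f975730d (k4 c4327 c1206 c809 c595 (k1 c6371 k0)) (by decide +kernel)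
def c6840 : PP 8 4 T 0x80000000000000800101000002000080000000001180000004000000001040000020000000108404000 := rS 0x190703fadd78913a19166b12c8280e7b39c5d2c934aa351e1c4d8243ec15dafc2249068d48e4b0ab1c26291d945568384bc4aaa1889f4ce685a8fc46c553ab53a99 (k8 c4443 c4343 c4458 c940 c4429 c4372 c4287 c5129 (k8 c6832 c925 c1354 c4337 c132 c429 c5695 c4437 (k8 c6833 c1884 c4405 c4403 c4402 c4401 c4289 c4283 (k8 c4375 c4374 c4373 c4371 c4281 c4275 c1053 c1850 (k8 c1852 c1103 c1064 c1849 c4466 c760 c1027 c762 (k8 c1029 c6031 c4359 c1084 c6838 c688 c4462 c1025 (k8 c622 c662 c6335 c4481 c6839 c2126 c1165 c6671 (k2 c6133 c2107 (k1 c587 k0))))))))) (by decide +kernel)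
def c6841 : PP 8 4 T 0x1000000000000000040000080000000108000000 := rS 0x2b964f40a (k4 c334 c335 c535 c1226 (k1 c4476 k0)) (by decide +kernel)
def c6842 : PP 8 4 T 0x80000000000000800100000002000080000000000080000004000000000000000000001000101000004 := rS 0x16e903a165660a39c5cc89631a4d2a8d3f175921c7e26c3ec12010d329d1a854523b28aad4a4b548ccc2550d4242e5b78c44fa675a8fc460f12b1c0801343154ead (k8 c4458 c940 c4429 c6832 c757 c4461 c4289 c1463 (k8 c264 c4372 c4287 c5129 c925 c1354 c4337 c5695 (k8 c6834 c1831 c4437 c4465 c429 c5402 c822 c6029 (k8 c4375 c5936 c1884 c4405 c4403 c4402 c4283 c4373 (k8 c4343 c4443 c6841 c6837 c1852 c1103 c1849 c6840 (k8 c4466 c4305 c4377 c6684 c1027 c762 c1029 c818 (k8 c6031 c4478 c4359 c1084 c6668 c662 c535 c4481 (k2 c6671 c1744 (k1 c939 k0))))))))) (by decide +kernel)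
def c6843 : PP 8 4 T 0x400000000000000000000000000000400000000000000040000010000800118000000 := rS 0x411417180f2740e99 (k8 c1840 c689 c784 c4466 c4488 c271 c4363 c4462 (k1 c424 k0)) (by decide +kernel)
def c6844 : PP 8 4 T 0x400000000002000000014040055180401100000000200040000010000800508000001 := rS 0x12cb98ab0579185fa74f6934aa3c121c148ecdb435a8fd4e99 (k8 c1840 c940 c4287 c5129 c4393 c44 c4403 c4402 (k8 c6843 c1058 c760 c762 c1029 c4818 c825 c4566 (k4 c4488 c2126 c4450 c4354 (k2 c1207 c2127 (k1 c4793 k0))))) (by decide +kernel)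
def c6845 : PP 8 4 T 0x400000001002000000014040055180001100000000200040000010004800508000001 := rS 0x141e0491086778ca753407 (k8 c689 c6844 c105 c4448 c1889 c6841 c4472 c425 (k2 c6169 c4462 (k1 c271 k0))) (by decide +kernel)
def c6846 : PP 8 4 T 0x40000000000000110000120 := rS 0x2c0e1e (k4 c4466 c527 c271 c4462 k0) (by decide +kernel)
def c6847 : PP 8 4 T 0x80000000000000000100000002000080000000000080000004000000000000000000001000101000004 := rS 0xb98aa59789949a551e1c4ea6c12c15f901768d48c305d1353d1586ad628d4765155a9496af1486a12172d81003435a8fd9ea9199a1e223 (k8 c4372 c5695 c6832 c822 c6029 c1523 c4287 c5129 (k8 c4393 c757 c4461 c6834 c1831 c4437 c4465 c4402 (k8 c5815 c4375 c5936 c1884 c4405 c4403 c4373 c4429 (k8 c4458 c4459 c6679 c940 c6842 c4469 c4490 c4327 (k8 c4383 c4825 c6845 c1053 c1852 c1064 c1849 c1052 (k8 c6846 c760 c762 c1029 c1032 c2126 c2127 c4354 (k2 c1207 c4793 k0))))))) (by decide +kernel)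
def c6848 : PP 8 4 T 0x800000000000000000015000014000450080000000000008000000000000000000000 := rS 0x248e69d (k4 c4343 c1770 c4553 c1069 k0) (by decide +kernel)
def c6849 : PP 8 4 T 0x400000000000000000000000000000000000000000000800010080004048000000000000000000000 := rS 0x3fbf4de5c (k4 c800 c1346 c4377 c1458 (k1 c4956 k0)) (by decide +kernel)
def c6850 : PP 8 4 T 0x40000000000000000000000002000080000080000000000004015080000000000000000000008004000 := rS 0x324fe6f42844920d23b1c2709342242a55 (k8 c429 c4283 c678 c6832 c4437 c4401 c4289 c4374 (k8 c4371 c4281 c4275 c1442 c1350 c4235 c1731 c2107 k0)) (by decide +kernel)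
def c6851 : PP 8 4 T 0x40000000000000800000000002000080000000010080400084000000020000000000001000111000004 := rS 0x5f2d91ab95da3ce4c460b0d7a953d9d8883d2b1646e97488203c392491ca2ab5292d521a8485cb7433e99d6a3f1183c4ac702004c6af19bc4529d4c9e4d0a7 (k8 c940 c6832 c1960 c4443 c4343 c4402 c5695 c822 (k8 c5815 c1768 c757 c4461 c4289 c1463 c264 c4372 (k8 c4287 c5129 c925 c1354 c4393 c6834 c1831 c4437 (k8 c4465 c6029 c4375 c5936 c1884 c4405 c4374 c4281 (k8 c4279 c4466 c6846 c1153 c1193 c272 c1106 c263 (k8 c2188 c424 c425 c1225 c1697 c1169 c1209 c1892 (k8 c6848 c1095 c6849 c6850 c3098 c1467 c4034 c2126 (k1 c3095 k0)))))))) (by decide +kernel)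
def c6852 : PP 8 4 T 0x2000080000000100080002000000200021001000000000000000004000 := rS 0x643f16ca1 (k4 c132 c939 c6839 c1744 (k1 c4305 k0)) (by decide +kernel)
def c6853 : PP 8 4 T 0x800100000002000080000000010080400004000000000000000010001000101000004 := rS 0xe0c87eadd787f489d22e9660aed62b362c617e73051648a934aa351e090e29c2249068d48e131daad06a525aa446612a9f41e2563990c68aa5a242aaf198a4cf114c90d3a5b020040e1a78c242e68 (k8 c6832 c1831 c4437 c5695 c4465 c689 c757 c4461 (k8 c6834 c4343 c6841 c4443 c4337 c925 c4402 c822 (k8 c5815 c4283 c678 c6847 c4485 c1768 c4478 c4289 (k8 c1463 c264 c1354 c429 c5402 c4372 c6029 c4375 (k8 c5936 c6833 c1884 c4403 c4401 c4374 c4373 c4371 (k8 c4281 c4275 c940 c6851 c1058 c760 c1027 c762 (k8 c1029 c1219 c1025 c4462 c1648 c6330 c4472 c4530 (k8 c552 c622 c4449 c4450 c6031 c4359 c4481 c6852 (k4 c6671 c2126 c1165 c6684 (k2 c2107 c6133 (k1 c587 k0))))))))))) (by decide +kernel)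
def c6854 : PP 8 4 T 0x40000000000010000000000002000080015008100000001180010000020011000000000000000004000 := rS 0x38321fa75379fe2c73089241a470ab1c2715 (k8 c4353 c4401 c4289 c4283 c4374 c4371 c4281 c4275 (k8 c1770 c4494 c6671 c1077 c4417 c6684 c2107 c4480 (k1 c586 k0))) (by decide +kernel)
def c6855 : PP 8 4 T 0x40400000000000900000000002000080001001101100451184014800024058000201040000008004000 := rS 0x5da3ce4c453afe2ab65c9248e4b1fb1ca2554e9e4d0c34cc657a39 (k8 c4279 c1169 c4363 c4443 c4958 c6832 c1960 c4343 (k8 c429 c4405 c4289 c4287 c4375 c4374 c4281 c6781 (k8 c4034 c4353 c3095 c4500 c6854 c1095 c6849 c6850 (k1 c2126 k0)))) (by decide +kernel)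
def c6856 : PP 8 4 T 0x40000000000000800000000002000080001000000080410084000000020000000000001000111000004 := rS 0x925c230f67622158b2b11e8dd2e910407872a525aa435090b96e23433e99d6a3f1183c4ac702004c6af199a1e229 (k8 c4402 c5695 c6832 c822 c5815 c1768 c757 c4461 (k8 c4289 c1463 c264 c4372 c4287 c5129 c925 c1354 (k8 c4393 c4337 c6834 c1831 c4437 c4465 c6029 c4375 (k8 c5936 c4279 c4466 c6846 c1153 c1193 c272 c275 (k8 c1145 c1106 c263 c424 c425 c1225 c6855 c1467 (k2 c1468 c3068 k0)))))) (by decide +kernel)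
def c6857 : PP 8 4 T 0x800100000002000080000440121180440000410000020011000000000000020004000 := rS 0x5ea9ce30c643f62a753fc592211248348e156384d3a994788d1a3539a4c76b3 (k8 c552 c4403 c1029 c1648 c4373 c1027 c4372 c760 (k8 c4443 c4343 c4401 c4289 c4283 c4374 c4371 c4281 (k8 c4275 c938 c4809 c6671 c4417 c4963 c6684 c2107 (k4 c5007 c586 c4330 c6133 (k1 c2126 k0))))) (by decide +kernel)
def c6858 : PP 8 4 T 0x800100000002000080000000000080400004000000000000000010001000101000004 := rS 0x2ec354cbd38b21fa5f3fadd22748ba5976b159c617e73051648a9346a3c121c4ab055811248346a47098ed06a525aa446612a9f41e2563990c68aa5a242aaf198a4cf114c90d3a5b020040e1a78c242e68 (k8 c6832 c1831 c4437 c5695 c4465 c689 c757 c4461 (k8 c6834 c4343 c6841 c4443 c4337 c925 c4402 c822 (k8 c5815 c4283 c678 c6847 c4485 c1768 c4478 c4289 (k8 c1463 c264 c1354 c429 c5402 c4372 c6029 c4375 (k8 c5936 c6833 c4403 c4401 c4374 c4373 c4371 c4281 (k8 c4275 c6853 c1986 c860 c6856 c1058 c760 c1027 (k8 c1029 c1219 c1025 c4462 c1648 c6330 c4472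 c552 (k8 c622 c4449 c6857 c4359 c4481 c6852 c1165 c6671 (k8 c1465 c6684 c2107 c587 c6133 c2126 c4330 c813 (k1 c4477 k0)))))))))) (by decide +kernel)
def c6859 : PP 8 4 T 0x800000000000000040000040000000108000020 := rS 0x243a77 (k4 c1889 c765 c425 c6846 k0) (by decide +kernel)
def c6860 : PP 8 4 T 0x800100000002000080011441015180400080410000021041000000000000028004100 := rS 0x38321fab75e1fd22b13a16414b3039ee2e9653844920d238558e1388a7532734788d1a354a8a5263b (k8 c4403 c1029 c4402 c762 c4373 c1027 c4372 c760 (k8 c1770 c4443 c4343 c4337 c4401 c4289 c4283 c4374 (k8 c4371 c4281 c4275 c940 c6031 c4359 c6838 c688 (k8 c722 c4462 c1025 c4481 c622 c6852 c6671 c2126 (k4 c1165 c6684 c2107 c6133 (k1 c587 k0)))))) (by decide +kernel)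
def c6861 : PP 8 4 T 0x40000000000000000100000002000080000440021181540000000000020000000000000000020000000 := rS 0x19b455e32d4f0c8a9d62cb348c4686cf4788d1a354a8a5263b (k8 c4403 c1029 c4402 c762 c4373 c1027 c4372 c760 (k8 c1523 c4393 c4337 c938 c553 c4809 c4417 c4963 (k4 c5007 c4330 c2026 c2126 (k2 c4454 c6588 (k1 c4495 k0))))) (by decide +kernel)
def c6862 : PP 8 4 T 0x100000002000080000000000880000094400000021001000000000000000004000 := rS 0xfd3fb219a5d86c24d0a1 (k8 c132 c6832 c4437 c4330 c813 c2067 c6667 c725 (k2 c4305 c6371 k0)) (by decide +kernel)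
def c6863 : PP 8 4 T 0x800100000002000080000000000080000004000000000000000000001000101000004 := rS 0x2e62abc48ac4e80a5981cf6cb8ba59588d47870e60960b1576bf2026c86994e8446a3b28aad4a4b5496e867d5a8fc46a73218d5e331499e228aa583c4ac702155121a0a98402830bc24d0f1 (k8 c5695 c6832 c4437 c1831 c6833 c757 c5402 c4283 (k8 c4465 c678 c429 c4461 c4289 c1463 c264 c6847 (k8 c4485 c4337 c925 c4402 c822 c5815 c1768 c4478 (k8 c6862 c4372 c4287 c5129 c1354 c4393 c6834 c6029 (k8 c4375 c5936 c1884 c4405 c4403 c4373 c4275 c4343 (k8 c4443 c6841 c6859 c6858 c1053 c1850 c1055 c1852 (k8 c1064 c1770 c6846 c760 c1027 c6860 c6861 c4359 (k8 c2026 c6838 c688 c722 c4462 c4481 c622 c6852 (k4 c2126 c4354 c1208 c4793 k0))))))))) (by decide +kernel)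
def c6864 : PP 8 4 T 0x400000000000000000000000000000400000000000000040000000000800118400020 := rS 0x1040 (k2 c6843 c6846 (k1 c1064 k0)) (by decide +kernel)
def c6865 : PP 8 4 T 0x40000000000000400100000002000080000001021580500080000000221041000010000000028004100 := rS 0x2e62abc489d22e965dc617eb159a74147b03844db4365a3c468d1a9cd263b (k8 c4403 c1029 c1648 c4373 c1027 c4372 c760 c2026 (k8 c4393 c44 c4275 c689 c4818 c4462 c825 c722 (k8 c622 c4566 c4488 c4449 c6861 c4359 c4481 c6852 (k4 c2126 c4354 c1208 c4793 k0)))) (by decide +kernel)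
def c6866 : PP 8 4 T 0x40000000000000400100000002000080000000020480400080000000220041000000001000108000005 := rS 0x5cc557891589d014b3039ee2f184b27576bf201cd329346a3c121c088d476175292d5261a1ad47e23078958e04170cde2cb (k8 c2026 c5695 c822 c4469 c4461 c4289 c1463 c264 (k8 c4372 c4287 c5129 c4393 c5402 c6029 c4375 c5936 (k8 c1831 c4403 c4373 c4275 c6864 c1058 c760 c1027 (k8 c1029 c1032 c1648 c6865 c1053 c1850 c1052 c6861 (k8 c4488 c4359 c4365 c688 c722 c4462 c4481 c622 (k4 c6852 c2126 c4354 c1208 (k1 c4793 k0))))))) (by decide +kernel)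
def c6867 : PP 8 4 T 0x800000000000000040000000000000108000020 := rS 0x849d (k2 c105 c6859 (k1 c6841 k0)) (by decide +kernel)
def c6868 : PP 8 4 T 0x100000002000080000000000080000004000000000000000000001000101000004 := rS 0xa6322b1140f89d2c4b116399d5683578cc526144854aa9b2d810021a78c242e68 (k8 c6832 c1831 c4437 c5695 c4465 c757 c4461 c6834 (k8 c6867 c429 c4283 c678 c5402 c4402 c822 c5815 (k8 c6833 c1884 c925 c4289 c4337 c1463 c6847 c6863 (k4 c264 c4485 c4491 c4903 (k2 c6866 c6862 k0))))) (by decide +kernel)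
def c6869 : PP 8 4 T 0x1000000000002000000000000000000000000000100140000000000000000 := rS 0x8319 (k2 c4450 c1852 (k1 c4472 k0)) (by decide +kernel)
def c6870 : PP 8 4 T 0x1000000000000080000000000000000000000000004140000000000000000 := rS 0x8319 (k2 c4449 c1850 (k1 c4472 k0)) (by decide +kernel)
def c6871 : PP 8 4 T 0x10000000002000080000000100040000000000000021101000000000000020004000 := rS 0xfc3e9fd1a354a8a5263b (k8 c4403 c1029 c4402 c762 c4373 c1027 c555 c1651 (k2 c6358 c6684 k0)) (by decide +kernel)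
def c6872 : PP 8 4 T 0x400000000000000000000000010001000020008000040000000000000000000000000 := rS 0xda69 (k2 c2040 c680 (k1 c4055 k0)) (by decide +kernel)
def c6873 : PP 8 4 T 0x410000000000000008000000001404000000000000000000000000000000000000000 := rS 0x14b45 (k2 c4400 c1405 (k1 c4490 k0)) (by decide +kernel)
def c6874 : PP 8 4 T 0x400000000000000000000080001100001000000000000000000000005400200000002 := rS 0x4e4d47096888d8a93e1aa7118d496f0 (k8 c4469 c4434 c1309 c833 c1979 c4825 c4646 c4390 (k4 c1389 c4490 c313 c4486 (k2 c4451 c2845 (k1 c2111 k0)))) (by decide +kernel)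
def c6875 : PP 8 4 T 0x4000000000000000000020081090001804004008000000000000000005420200000000 := rS 0x16eb138a310aa42f968b2003600cd27d319fe08b344814de753982d7f155cb0552674886de113 (k8 c4346 c4469 c4291 c2899 c2872 c1444 c111 c1478 (k8 c4390 c109 c702 c1231 c709 c1228 c310 c6872 (k8 c1251 c4481 c4313 c4407 c4409 c828 c794 c4055 (k8 c4461 c4993 c864 c2689 c6874 c1401 c1971 c706 (k2 c1115 c1117 (k1 c4088 k0)))))) (by decide +kernel)
def c6876 : PP 8 4 T 0x120011400000020600040000000001000000010400200000002 := rS 0xe07d5897cde73821d4b406319a4ca9a89ab96e93 (k8 c73 c1117 c1786 c4346 c1787 c3729 c756 c755 (k8 c831 c830 c4544 c5073 c1616 c1019 c2443 c625 (k2 c4409 c2121 (k1 c1385 k0)))) (by decide +kernel)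
def c6877 : PP 8 4 T 0x400000020000000000000004000000000020000000008 := rS 0xeb0539988b717 (k4 c4418 c2834 c794 c1617 (k2 c4407 c1689 (k1 c4481 k0))) (by decide +kernel)
def c6878 : PP 8 4 T 0x20080400200020000000000000000000000810400000000000 := rS 0xf90458984e66f389d4260a2c01002c93fd084eb72e8e51e8c8aae62e654ca4caab567a9d230d89aa53ac14f82406282ba695c20 (k8 c1577 c1786 c1787 c2786 c1576 c6877 c230 c3730 (k8 c111 c973 c1444 c4346 c4825 c2899 c1979 c6873 (k8 c1788 c3539 c73 c1135 c3729 c4418 c1478 c4390 (k8 c1971 c1430 c3124 c3324 c1117 c4538 c4492 c4392 (k8 c4422 c6876 c4461 c311 c310 c530 c538 c537 (k4 c1108 c1109 c2599 c4640 (k2 c6198 c4088 (k1 c4409 k0)))))))) (by decide +kernel)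
def c6879 : PP 8 4 T 0x20080000000020000000000000000800000000000000000000 := rS 0x131351c25a22354ab33dad59e231a92de031140803e4f538e8670d488fc5b1317aa534ae56a753e878ba4dcac1618f5a315 (k8 c4390 c149 c1782 c167 c111 c4290 c73 c4418 (k8 c3573 c3730 c973 c861 c1786 c1787 c1444 c2032 (k8 c4346 c2871 c4066 c2899 c4825 c416 c4471 c1979 (k8 c4646 c1101 c1577 c1576 c1967 c4469 c4434 c1309 (k8 c833 c6873 c1788 c6875 c1250 c6878 c1389 c4490 (k4 c313 c4486 c4451 c2111 (k1 c2846 k0))))))) (by decide +kernel)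
def c6880 : PP 8 4 T 0x2000000001500000800000000000000045000805401400000000 := rS 0x1c8988e4d (k4 c2063 c1317 c2111 c1142 (k1 c847 k0)) (by decide +kernel)
def c6881 : PP 8 4 T 0x40000000000000000000000000000004400101055100010800000000000000045000805401400000000 := rS 0x4ca209e86a266a9d429f (k8 c1427 c850 c853 c6880 c2128 c4393 c935 c4495 (k2 c2111 c4451 k0)) (by decide +kernel)
def c6882 : PP 8 4 T 0x80001100000000000000000000054000005404200000000 := rS 0x122a612a344635 (k4 c1309 c833 c1389 c313 (k2 c2111 c886 (k1 c1979 k0))) (by decide +kernel)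
def c6883 : PP 8 4 T 0x800000000010000200000000000004400080054800000044004001050000000000000000000000000 := rS 0x200f083849a10a77359fd1263 (k8 c4407 c4314 c4392 c3886 c3803 c1442 c2120 c4437 (k4 c3884 c4482 c4806 c3868 k0)) (by decide +kernel)
def c6884 : PP 8 4 T 0x10000000000000000004000080000800000080004000000000014000800000004410100 := rS 0x4086414783a20e1277 (k8 c3803 c4322 c645 c4632 c4482 c1575 c1959 c3868 (k1 c4735 k0)) (by decide +kernel)
def c6885 : PP 8 4 T 0x4000000000000000000020081010100840000004000000000804000800000200000000 := rS 0xb2b150b21339414ea8b0a994ce2d8824d6e172d8443742780099b45048154c012e8d920d313134728f119246ae5a5c657b1565aad82a95f8cd5e9527914a287599b45e314c8951acf (k8 c1445 c1389 c313 c75 c317 c2032 c865 c1250 (k8 c1635 c27 c1223 c1440 c6879 c868 c417 c109 (k8 c867 c111 c1972 c1980 c4390 c108 c4370 c4456 (k8 c4290 c1309 c1723 c833 c6881 c361 c1975 c6882 (k8 c4277 c4538 c4470 c2790 c2892 c892 c2270 c2145 (k8 c4453 c2066 c4461 c4474 c4495 c2382 c343 c839 (k8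 c4431 c4424 c1157 c4487 c4331 c4333 c4412 c382 (k8 c6884 c1784 c6883 c4481 c1561 c1109 c4464 c4476 (k2 c2251 c799 k0))))))))) (by decide +kernel)
def c6886 : PP 8 4 T 0x4000000000000000000020081010100840000004000000000800000800000200000000 := rS 0xb61cd0c84cc233c49a4a8c905a3155cb048a51 (k8 c27 c1223 c111 c1478 c4390 c149 c1056 c4370 (k8 c6885 c25 c4434 c2037 c2036 c4472 c4395 c364 (k2 c4492 c1587 k0))) (by decide +kernel)
def c6887 : PP 8 4 T 0x120000000000000001000604000000054001880000004410000 := rS 0x20c320d3c2281407 (k8 c499 c1575 c1784 c1785 c1408 c309 c644 c4682 k0) (by decide +kernel)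
def c6888 : PP 8 4 T 0x4000100000001000000000002400000000000000100000001000000000000000100000 := rS 0xe412 (k2 c4464 c4481 (k1 c3507 k0)) (by decide +kernel)
def c6889 : PP 8 4 T 0x4000000000000000000020080010100840000004000000000800000800000200000000 := rS 0x1a19039e10709079a0fa6344c11028b3a854ca2d33844d677880094c012ea4c2e1b04815208f7809a8a6f6992c9a3967324aa461b0d56eb418b9632411eb457b154caad82a95f8cd5e9527914a28759a14da2f (k8 c2032 c865 c1442 c1250 c1635 c27 c1223 c1440 (k8 c6879 c868 c417 c109 c867 c111 c1972 c75 (k8 c4390 c108 c149 c1782 c1056 c4370 c4290 c317 (k8 c6886 c106 c1308 c1579 c1578 c3540 c3731 c1788 (k8 c1141 c325 c1414 c4374 c3329 c4400 c6882 c4474 (k8 c847 c4538 c2270 c2145 c4291 c4431 c1659 c2790 (k8 c2892 c892 c4461 c4487 c3803 c3886 c343 c919 (k8 c4331 c4412 c382 c6887 c4632 c1366 c6888 c4314 (k8 c4407 c4409 c2120 c1331 c4437 c3884 c4482 c500 (k2 c1959 c1408 (k1 c2108 k0))))))))))) (by decide +kernel)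
def c6890 : PP 8 4 T 0x110000000000000004400000055554000000000000000000000000000000000000000 := rS 0x284cc (k2 c2128 c4489 (k1 c4395 k0)) (by decide +kernel)
def c6891 : PP 8 4 T 0x4000000000000000000020080010100840000004000000000800000800000000000000 := rS 0x1b0888ea24fa3a1a4b0dbc09a4318b3e24b588a854e2d2b8a1243548878421d17c6482d18ab2d5e9555b0552bf1f914a28d (k8 c1389 c27 c1223 c21 c109 c867 c111 c1972 (k8 c6879 c868 c1980 c4390 c149 c1056 c4370 c2032 (k8 c764 c6889 c4466 c3166 c1099 c1101 c1102 c3062 (k8 c392 c1979 c4551 c4413 c3516 c4179 c1445 c4441 (k8 c276 c1974 c4472 c4291 c4434 c4959 c4486 c1427 (k4 c6890 c1314 c778 c4178 (k1 c1410 k0))))))) (by decide +kernel)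
def c6892 : PP 8 4 T 0x1000000000000020000800000000000000000000000800500000000000 := rS 0x541d (k2 c764 c4554 (k1 c1641 k0)) (by decide +kernel)
def c6893 : PP 8 4 T 0x80000000008000000000000000804100000800000000000 := rS 0x1e210a1e231 (k4 c16 c4432 c2033 c6870 (k2 c1569 c276 k0)) (by decide +kernel)
def c6894 : PP 8 4 T 0x100000000000000000000001000050000800000000000000000000800008000000000 := rS 0x1435b0e13f0d (k4 c4323 c1427 c847 c1141 (k2 c4424 c4489 k0)) (by decide +kernel)
def c6895 : PP 8 4 T 0x1100000000001000000000001000000008100000000000000001000800008200000000 := rS 0x50c8eb61ca411f0d63a8da6a1 (k8 c1739 c4277 c935 c409 c4323 c6894 c4486 c361 (k4 c1157 c1587 c4424 c4473 k0)) (by decide +kernel)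
def c6896 : PP 8 4 T 0x81024100808000000000000000804000804000000000000 := rS 0x4c1c89c40310f8b0521d179246ae58aaa57e4f229451b11 (k8 c4338 c1389 c27 c1223 c1440 c109 c867 c4390 (k8 c4290 c1309 c1723 c6893 c764 c780 c6892 c1102 (k4 c397 c4466 c6895 c360 (k2 c6882 c1975 k0)))) (by decide +kernel)
def c6897 : PP 8 4 T 0x4000000000000000000020081020100808000000000000000800000800000000000000 := rS 0xb61cd0c84cc233c49a4a8c905a3155caad823357a548a51 (k8 c27 c1223 c6879 c868 c417 c111 c1972 c1478 (k8 c4390 c149 c1056 c4370 c6896 c25 c4434 c2037 (k4 c2036 c4472 c4395 c364 (k2 c4492 c1587 k0)))) (by decide +kernel)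
def c6898 : PP 8 4 T 0x4000000000000000000020080000100840000004000000000800000800000000000000 := rS 0x8d4e2f188944e4b26a453c8e148ac8c365bad1251156105a2bd54afc66af4a93c8a51 (k8 c27 c1223 c1440 c6879 c868 c417 c109 c867 (k8 c108 c149 c1056 c6891 c4338 c4487 c6897 c106 (k8 c1579 c1578 c3579 c3516 c1659 c1658 c1157 c325 (k8 c1414 c321 c1372 c2047 c2033 c853 c1300 c2111 k0)))) (by decide +kernel)
def c6899 : PP 8 4 T 0x5000000000000000000000011020200001000000000000000000000000000000000000 := rS 0xa1add989e (k4 c2053 c2052 c1667 c4395 (k1 c4492 k0)) (by decide +kernel)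
def c6900 : PP 8 4 T 0x10000000000000000000000000004000000000000000000000800000004400000000 := rS 0x4ad3 (k2 c4374 c1371 (k1 c4467 k0)) (by decide +kernel)
def c6901 : PP 8 4 T 0x4000000000000000000020080000200800000104000000000800000800000000000000 := rS 0x280e2a866106b2c84ce505459d4d26f72c647ad16593c8a5143acd0a6d41b3cee7f6486c2e11048346c2423c35422351b1e84b7249345a9f138d496f0188cc7229158803e93882b56a9153ae62b1355b055e95a58745e8c (k8 c1971 c3939 c764 c4456 c6879 c868 c111 c1972 (k8 c4444 c4390 c1478 c79 c892 c1388 c6899 c4491 (k8 c4413 c1101 c4466 c1641 c834 c3124 c417 c1967 (k8 c4469 c4434 c1309 c4538 c4414 c4331 c3878 c372 (k8 c1117 c4492 c4391 c1470 c3287 c4423 c4385 c6900 (k8 c2110 c312 c3366 c2142 c2258 c4431 c4291 c4422 (k8 c4392 c3800 c1406 c3879 c865 c1442 c1250 c1635 (k8 c27 c1223 c1440 c1980 c149 c1782 c4370 c4290 (k8 c1349 c1882 c6887 c4632 c4806 c4481 c1561 c1109 (k4 c1969 c4479 c4436 c252 (k2 c2108 c4464 (k1 c386 k0)))))))))))) (by decide +kernel)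
def c6902 : PP 8 4 T 0x4000000000000000000020080000000840000004000000000800000800000000000000 := rS 0xd07835c25007789a92326d (k8 c865 c4370 c6898 c4444 c3800 c6901 c4439 c3876 (k2 c4482 c4479 (k1 c3865 k0))) (by decide +kernel)
def c6903 : PP 8 4 T 0x10000000000000000000000000000200800000204000000000000000000000000000000 := rS 0x1a0f06b849b62677 (k8 c3800 c4444 c865 c4439 c3876 c4482 c4479 c3865 k0) (by decide +kernel)
def c6904 : PP 8 4 T 0x10401000000000000000000080000000800200504400100000010000804000004000000 := rS 0x1e0312505c3e0a0881df809009c4b05b0cac4d4788aa64da6f (k8 c1349 c865 c75 c4390 c4482 c4479 c628 c3875 (k8 c581 c1969 c1386 c2433 c3112 c4480 c4814 c4299 (k4 c4462 c271 c2497 c4735 (k2 c1967 c6097 (k1 c4434 k0))))) (by decide +kernel)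
def c6905 : PP 8 4 T 0x400000000000000000000080000000800200500000800000010000804000005000000 := rS 0x780c494170f82822077e0240271589e0b05b30c55326f (k8 c1349 c75 c4390 c620 c581 c1969 c1968 c1116 (k8 c1386 c2433 c3112 c4480 c4814 c4299 c4462 c271 (k4 c2497 c4735 c1967 c6097 (k1 c4434 k0)))) (by decide +kernel)
def c6906 : PP 8 4 T 0x400000000000000000000000000000800000000000000000008000004400000000000 := rS 0x62f1 (k2 c4434 c3873 (k1 c4469 k0)) (by decide +kernel)
def c6907 : PP 8 4 T 0x100000000000000000000044000000054000001554000000000000000000000000 := rS 0xad (k2 c6230 c2120 k0) (by decide +kernel)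
def c6908 : PP 8 4 T 0x200000000000000400000004000004000000800000 := rS 0x62f1 (k2 c4431 c1910 (k1 c5936 k0)) (by decide +kernel)
def c6909 : PP 8 4 T 0x1010000000000000000000000000000000200000000000000000000110004400020000 := rS 0x100906cd3 (k4 c4275 c4470 c4467 c1384 (k1 c2258 k0)) (by decide +kernel)
def c6910 : PP 8 4 T 0x1010000000000000040000000000000000601500004000000054000110004405400400 := rS 0x16c00b0019c4befd048141c20068906c11 (k8 c6909 c4470 c4467 c3366 c1384 c2108 c310 c2142 (k8 c4376 c5471 c1416 c225 c4480 c4461 c625 c830 k0)) (by decide +kernel)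
def c6911 : PP 8 4 T 0x18000000000000000000000080044200800000004000000000800000800000000000000 := rS 0x88ab5242d0f000ce583016d60717e8381ad2058442e271a92cd619841a4de810da2c722348a3cee2f4620c9b1386a9dcb4b8aa64664f229450a75 (k8 c4417 c1442 c27 c1223 c1440 c417 c75 c4390 (k8 c4456 c4290 c79 c4385 c4444 c3878 c3879 c1971 (k8 c3939 c3800 c1430 c892 c3287 c3124 c4632 c415 (k8 c6903 c1349 c1882 c6904 c4436 c6905 c6906 c1309 (k8 c4538 c6908 c6909 c4735 c6910 c4371 c2108 c4376 (k8 c3369 c4480 c625 c1116 c1115 c5282 c5402 c487 (k4 c910 c1101 c6892 c4413 (k1 c4491 k0)))))))) (by decide +kernel)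
def c6912 : PP 8 4 T 0x10000000000000000000000000000000800000000000040000000800000400008404 := rS 0x78ac212c810025c30875fa5f (k8 c3401 c4376 c760 c848 c4477 c752 c4461 c4726 (k4 c2255 c4476 c4466 c3062 k0)) (by decide +kernel)
def c6913 : PP 8 4 T 0x1010000000000000080000000001500101101500405400000044000804400001008400 := rS 0x60201281812b030014ba692d00c4e392688cbe8e (k8 c4486 c3401 c4372 c4282 c4279 c4277 c4639 c6912 (k8 c845 c841 c574 c2119 c849 c1145 c4462 c5022 (k2 c495 c4839 (k1 c317 k0)))) (by decide +kernel)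
def c6914 : PP 8 4 T 0x80000000000000000000000000004100000800010000000 := rS 0x86f1 (k2 c4432 c1953 (k1 c6870 k0)) (by decide +kernel)
def c6915 : PP 8 4 T 0x1010000000000000080000000001500101101500405000000044000804400001008400 := rS 0x2d80cd45f13934468e (k8 c4486 c4372 c4282 c4277 c3401 c6913 c4639 c581 (k1 c6912 k0)) (by decide +kernel)
def c6916 : PP 8 4 T 0x400000000000000000000000000000800000000000000000000000004400000800000 := rS 0x62f1 (k2 c4431 c3872 (k1 c4469 k0)) (by decide +kernel)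
def c6917 : PP 8 4 T 0x10000000000000080000080001100101001500001000000044000804400005410000 := rS 0xe05c551a4d06a9cee6f (k8 c1349 c1890 c1979 c4371 c4282 c1389 c4390 c4735 (k2 c2108 c6915 k0)) (by decide +kernel)
def c6918 : PP 8 4 T 0x10410000000000000080000080000100801000104100000000804000804000000010000 := rS 0x5b041a0f06b21424301b459dd324f429b5074453aa57e17178751c8d8a88c8a51 (k8 c27 c1223 c4372 c4390 c1389 c4486 c760 c6914 (k8 c6916 c109 c867 c1979 c4490 c4452 c865 c1442 (k8 c1440 c75 c1890 c4632 c415 c6917 c4436 c4540 (k4 c3875 c4482 c4479 c1959 (k2 c845 c4717 k0))))) (by decide +kernel)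
def c6919 : PP 8 4 T 0x10000000000000000000000000000000000800204400200000000000000000000000000 := rS 0x2b9e0e309 (k4 c4439 c1422 c4482 c801 (k1 c1961 k0)) (by decide +kernel)
def c6920 : PP 8 4 T 0x10410000000000000080000080000100801000004100000000804000804000000010000 := rS 0x6f2d1e4ec5c309a0be6b84bf5006d53a391b15 (k8 c4390 c1389 c4486 c1979 c865 c6918 c4380 c4439 (k8 c3876 c3403 c4479 c884 c4477 c6919 c47 c1889 (k2 c1350 c841 k0))) (by decide +kernel)
def c6921 : PP 8 4 T 0x10010000000000000080400081044110801000004100000000804000800000000010000 := rS 0x11156a485aa30f0904231890bc561d4fa39cb1554afc664f229459e8d1393446a7 (k8 c1979 c4372 c4282 c4277 c1389 c1445 c27 c1223 (k8 c1440 c417 c109 c867 c4390 c4290 c4486 c1427 (k8 c760 c1641 c6914 c6920 c4441 c6882 c4839 c4466 (k4 c1464 c395 c1101 c6892 (k2 c4413 c6890 k0))))) (by decide +kernel)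
def c6922 : PP 8 4 T 0x10000000000000000080400081004100811000004100000000804000800000000010000 := rS 0x1a210b82f09788c501120089618a153c5552bf19abc9e4528a344e4d (k8 c4282 c4277 c1389 c27 c1223 c1440 c868 c417 (k8 c109 c867 c4390 c1979 c4551 c6921 c4381 c4847 (k8 c4825 c4945 c4441 c5204 c4439 c3936 c4839 c6870 (k2 c4819 c335 k0)))) (by decide +kernel)
def c6923 : PP 8 4 T 0x10000000000000000000000000000800000000204400000000000000000000000000000 := rS 0xf309 (k2 c4439 c3868 (k1 c4482 k0)) (by decide +kernel)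
def c6924 : PP 8 4 T 0x10001000000000000000000000000000800000004400400000000010000000020000000 := rS 0x2d95c16690b064b2780d909e22e (k8 c764 c4432 c765 c335 c4482 c540 c3862 c4465 (k4 c3855 c573 c804 c759 (k1 c4476 k0))) (by decide +kernel)
def c6925 : PP 8 4 T 0x80000080000000802000100000000080000000000000005000000 := rS 0x1060a03ac51e1c0f8e44227 (k8 c4277 c886 c4279 c1153 c4466 c101 c625 c495 (k2 c759 c1977 (k1 c5932 k0))) (by decide +kernel)
def c6926 : PP 8 4 T 0x80020081000100800000004100000000804000800000000010000 := rS 0xe4185cbc042c16cae690cc21021b211acee1c5307c425d480349a3913c6482d165a5556c127914a285 (k8 c1442 c27 c1223 c1440 c111 c1972 c6879 c1980 (k8 c149 c1056 c4370 c4277 c4279 c4282 c4371 c6922 (k8 c2791 c886 c1153 c892 c4466 c3803 c3886 c765 (k8 c335 c6923 c6924 c4436 c4437 c804 c6925 c4476 (k4 c1026 c1156 c532 c548 (k2 c2108 c265 k0)))))) (by decide +kernel)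
def c6927 : PP 8 4 T 0x1000000000000000000000000000040000000000000000000000000000000044000000800400000000 := rS 0x9af1 (k2 c4432 c1993 (k1 c4474 k0)) (by decide +kernel)
def c6928 : PP 8 4 T 0x10001000000000040000000000000000500000000000120000000080001000010000 := rS 0x683ce261 (k4 c617 c537 c4046 c1407 (k1 c4463 k0)) (by decide +kernel)
def c6929 : PP 8 4 T 0x10000000000000040000000000000002500000000000144000000080001000010000 := rS 0xb2fd (k2 c4550 c6928 (k1 c4476 k0)) (by decide +kernel)
def c6930 : PP 8 4 T 0x10000000000000000040000080000800800100004100000000804000800000000010000 := rS 0x65060a3c1a0ac5b0485de002268146c0113094401d1786d028b0f974467747a428b0d5e93c8a51 (k8 c27 c1223 c1440 c108 c4330 c4453 c1979 c853 (k8 c3803 c2737 c2791 c3166 c4632 c6923 c415 c6927 (k8 c764 c4466 c313 c886 c2892 c887 c350 c325 (k8 c4461 c4474 c4431 c2145 c839 c6929 c804 c805 (k4 c799 c3884 c1959 c4735 k0))))) (by decide +kernel)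
def c6931 : PP 8 4 T 0x80001500001000000000000000044000105401400000000 := rS 0x139362a35 (k4 c1309 c4390 c1975 c4538 (k1 c2111 k0)) (by decide +kernel)
def c6932 : PP 8 4 T 0x40000000000000000000000000000000400081045500111000000000000000044010804000200000000 := rS 0x1105628d1c261c08c4a2f18af59e491aa851b15 (k8 c4390 c1389 c4551 c1309 c1723 c1445 c108 c317 (k8 c837 c313 c833 c6931 c360 c361 c935 c6881 (k2 c6894 c4338 k0))) (by decide +kernel)
def c6933 : PP 8 4 T 0x40400081044510800000000000000000804000800001110000000 := rS 0x630e13ead1b8b450920f45552bf198fd9e35 (k8 c1309 c1445 c21 c417 c109 c867 c4390 c4466 (k8 c1101 c1102 c392 c272 c6896 c1571 c4470 c4949 (k1 c410 k0))) (by decide +kernel)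
def c6934 : PP 8 4 T 0x40020081000500800000004000000000804000800001000010000 := rS 0xb009600c0d2dbf4b85f308891d0d2ba04d21941c22886b789dc6c4d1889c5c42018e43e1c8ca14da3550a362a214893c8a5119aa57eab57a652acb60905a34b (k8 c4456 c149 c1056 c111 c1980 c6879 c75 c868 (k8 c1972 c109 c867 c417 c27 c1223 c1440 c892 (k8 c6932 c4390 c1389 c4551 c1309 c865 c1442 c4370 (k8 c6933 c10 c1139 c2765 c765 c764 c2879 c1967 (k8 c1975 c4470 c3796 c4432 c3937 c4474 c6924 c4452 (k8 c4436 c4437 c4439 c804 c4945 c4486 c4467 c2724 (k8 c3385 c2119 c4377 c2721 c1288 c6259 c4476 c5782 (k2 c4 c4879 k0)))))))) (by decide +kernel)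
def c6935 : PP 8 4 T 0x20081000100800000004100000000804000800000000010000 := rS 0x88a8d5a92178ac5a1e0ea7d1d0d11891429153b4dcb198ab2d5e9555b0552bf229459e8d (k8 c1389 c1445 c27 c1223 c109 c867 c111 c1972 (k8 c6879 c868 c1980 c4390 c4370 c4290 c6926 c6930 (k8 c892 c4551 c6934 c12 c4381 c4486 c1427 c760 (k8 c1424 c395 c1641 c6914 c1101 c6892 c1464 c4413 (k1 c6890 k0))))) (by decide +kernel)
def c6936 : PP 8 4 T 0x1000000000000000000000000000000001100000000000000000000010002000020000 := rS 0x3c36470e61ad3 (k4 c4275 c4381 c281 c4486 (k2 c4470 c1424 (k1 c2202 k0))) (by decide +kernel)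
def c6937 : PP 8 4 T 0x400081004500810000000000000000804010800000000020000 := rS 0x1680257052c06c591c8704a2150a4697154caa57e335793c8a5146b4c0e35 (k8 c1309 c609 c4275 c1389 c27 c1223 c1440 c868 (k8 c417 c109 c867 c75 c4390 c4456 c892 c4551 (k8 c6932 c6936 c6933 c1139 c1025 c4470 c319 c318 (k4 c1147 c2605 c4476 c758 k0)))) (by decide +kernel)
def c6938 : PP 8 4 T 0x20081000100800000004100000000804000800000000000000 := rS 0x36130803a04018bc021f2e88d21455334c204168b2d2aab6093c8a51 (k8 c27 c1223 c1440 c111 c1972 c6879 c1980 c149 (k8 c1056 c6935 c4275 c6937 c4453 c1979 c2737 c2791 (k8 c3166 c607 c6927 c343 c4461 c764 c4466 c886 (k2 c887 c2270 k0)))) (by decide +kernel)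
def c6939 : PP 8 4 T 0x1000000000000080000000001100400000000000010000160000004020000 := rS 0x40a610182c442058238df0d40c20e2170cbf41b15 (k8 c4390 c6 c4299 c348 c612 c583 c4465 c4439 (k8 c4945 c1349 c4486 c4480 c1306 c1305 c623 c793 (k4 c2824 c310 c606 c4461 k0))) (by decide +kernel)
def c6940 : PP 8 4 T 0x1000000040000000001500000000400001401400000000001000004014020 := rS 0xd2fc840342e19 (k4 c268 c532 c528 c4465 (k2 c4463 c4437 (k1 c6182 k0))) (by decide +kernel)
def c6941 : PP 8 4 T 0x1000000001000000040000000001500000000400001400000000000021000a04014001 := rS 0x38bf4de5c2d8080a5f30a38aeb1 (k8 c1034 c2775 c832 c767 c3294 c6940 c4461 c2833 (k4 c792 c1346 c4377 c1418 (k1 c4480 k0))) (by decide +kernel)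
def c6942 : PP 8 4 T 0x40000080100000000000200400000000000000000000000014000 := rS 0x6e061c5fb15 (k4 c4390 c4380 c1422 c4463 (k2 c4480 c3277 k0)) (by decide +kernel)
def c6943 : PP 8 4 T 0x1000000000000000000000000001500000001500001001400008010025000a04014000 := rS 0x2e9a4006b890bda6f1 (k8 c4434 c4375 c837 c4799 c4442 c6941 c756 c2821 (k1 c2119 k0)) (by decide +kernel)
def c6944 : PP 8 4 T 0x20080000000840000004000000000800000800000000000000 := rS 0x42612f8891d0d40ac422390d8d0ee0f489099846418dc62a778b4c9a4a46a956a758b1b50b1920b462aab60aa57e3357a548a51 (k8 c27 c1223 c6879 c868 c417 c109 c867 c111 (k8 c1972 c4390 c149 c1056 c4370 c1442 c865 c6902 (k8 c4417 c4419 c6911 c1389 c6938 c25 c4375 c4434 (k8 c3944 c3873 c1414 c3943 c2037 c2036 c4472 c892 (k8 c3317 c3797 c1955 c335 c364 c6939 c1034 c6942 (k4 c4945 c4486 c1305 c3294 (k2 c849 c6943 (k1 c1306 k0)))))))) (by decide +kernel)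
def c6945 : PP 8 4 T 0x20080000000000000008000000000808000800000000000000 := rS 0x190d83416b03f9f512b38b2dce2391a1cd0b435a90892cf43b308c3778936971920b462ab98485c8a513ab04debf (k8 c109 c1228 c111 c709 c27 c1223 c521 c4319 (k8 c1478 c4390 c149 c1056 c4370 c4456 c25 c4434 (k8 c1414 c2037 c2036 c3811 c1326 c372 c4472 c1579 (k8 c4395 c3306 c1231 c1955 c364 c706 c1038 c4492 (k8 c4357 c682 c4634 c4235 c4088 c623 c505 c334 (k2 c1875 c4465 k0)))))) (by decide +kernel)
def c6946 : PP 8 4 T 0x40000000000000000000000000000000400080004000811100008000000000004110944000000000080 := rS 0x22669368c00a2f2d8943a2147295329d57aa57ea75a89c470d2693d0a7106b4a2a35 (k8 c1309 c4390 c4470 c4371 c496 c1441 c1440 c1975 (k8 c4867 c4372 c4538 c1579 c1979 c109 c867 c868 (k8 c105 c75 c1971 c4486 c6932 c760 c1423 c495 (k4 c6914 c527 c6931 c4270 (k2 c4524 c4441 (k1 c4055 k0)))))) (by decide +kernel)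
def c6947 : PP 8 4 T 0x1000000000000000000000200200001200000000400000000000000000000000000 := rS 0x6d34960bf13 (k4 c4444 c545 c1115 c1883 (k2 c4993 c4479 k0)) (by decide +kernel)
def c6948 : PP 8 4 T 0x1000000000000000044200800000000000000000804000800000000000000 := rS 0x4455a9216878602f89b969633 (k8 c417 c4456 c4290 c4444 c3939 c5936 c1967 c397 (k4 c1101 c6892 c4413 c4491 k0)) (by decide +kernel)
def c6949 : PP 8 4 T 0x40000000000000000000000000000000400080004100811000008000000000004110944000000000000 := rS 0x168081a01804140710a3532af54afc9e574e8254eb5 (k8 c1579 c1979 c1224 c105 c1226 c1440 c109 c867 (k8 c868 c75 c1389 c6932 c6946 c4462 c2686 c303 (k4 c702 c4461 c6867 c2688 k0))) (by decide +kernel)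
def c6950 : PP 8 4 T 0x20081000200801000008000000000800000800000000000000 := rS 0x11156a493eb63fa1ce61559954b489361a5027d64819f80b3886d0af058a32274b8aae55e9555c24d69d04914a275609bd7e4b (k8 c6945 c109 c1228 c111 c709 c27 c1223 c1224 (k8 c105 c561 c4319 c1972 c6879 c868 c1478 c4390 (k8 c4456 c4444 c1971 c6947 c6948 c3373 c4291 c706 (k8 c702 c4480 c4462 c4305 c4379 c4380 c1882 c4055 (k8 c681 c864 c253 c1251 c2632 c1022 c1903 c4235 (k4 c2121 c1667 c1117 c2053 (k2 c4413 c4491 k0))))))) (by decide +kernel)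
def c6951 : PP 8 4 T 0x20080000000801000008000000000800000840000000000000 := rS 0x943ad3508e0428d52ad6964168c55969955b0552bf19abd2a4f2294496a7 (k8 c1979 c6945 c27 c1223 c1440 c6879 c868 c417 (k8 c109 c867 c111 c1972 c75 c1980 c4390 c149 (k8 c1056 c4456 c1579 c6950 c1389 c6932 c6949 c4551 (k4 c4279 c1139 c281 c6933 k0)))) (by decide +kernel)
def c6952 : PP 8 4 T 0x400081044510800000000000000000804000880000110000000 := rS 0x4353ea356c4448284908c3ca95f8cd9e47 (k8 c1411 c1445 c417 c109 c867 c4466 c1410 c1101 (k8 c1102 c272 c4413 c6896 c778 c1570 c4381 c6890 k0)) (by decide +kernel)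
def c6953 : PP 8 4 T 0x400081004000811100008000000000804010880000000000000 := rS 0x436582d8b8846d0f870434b4caa57e335793e12574e85c8a5153a954315 (k8 c4390 c4551 c1971 c1979 c27 c1223 c521 c105 (k8 c1226 c4319 c1440 c868 c417 c109 c867 c75 (k8 c4456 c6932 c6952 c10 c2730 c765 c764 c704 (k4 c4476 c6841 c487 c4819 k0)))) (by decide +kernel)
def c6954 : PP 8 4 T 0x2000000000000000000000000000000800000080000000 := rS 0x5092 (k2 c1101 c1102 (k1 c3516 k0)) (by decide +kernel)
def c6955 : PP 8 4 T 0x20080000000801100008000000000800000800000000000000 := rS 0x40310f8745ef0a2b4d9c465a29482d165aad82a95f8cd5e9527914a24b26af44e36 (k8 c6951 c321 c108 c325 c6945 c27 c1223 c1440 (k8 c6879 c868 c417 c109 c867 c111 c1972 c1980 (k8 c149 c1056 c1971 c6953 c1578 c1788 c4374 c4400 (k4 c4474 c4432 c764 c6954 (k2 c1967 c4466 (k1 c6882 k0)))))) (by decide +kernel)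
def c6956 : PP 8 4 T 0x20080000000801000008000000000800000800000000000000 := rS 0x5aa911895 (k4 c6879 c6955 c1389 c1388 (k1 c6950 k0)) (by decide +kernel)
def c6957 : PP 8 4 T 0x20080000000840000000000000000800000800000000000000 := rS 0x8458184b05b7ea98da8d4815d07093d2f57e9d (k8 c105 c109 c108 c6944 c4319 c643 c1226 c6956 (k8 c72 c2898 c892 c4550 c704 c4476 c617 c1155 (k2 c5558 c715 k0))) (by decide +kernel)
def c6958 : PP 8 4 T 0x100000000802100408000000000000000000000000000000 := rS 0x21160612c16dfaa636c24ae9d (k8 c105 c1226 c4319 c2898 c892 c4550 c704 c4476 (k4 c617 c1155 c5558 c715 k0)) (by decide +kernel)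
def c6959 : PP 8 4 T 0x80001100100000000000000000054010004004200000000 := rS 0x5e31 (k2 c317 c837 (k1 c6882 k0)) (by decide +kernel)
def c6960 : PP 8 4 T 0x200000000080000110000080 := rS 0x43c23 (k4 c1410 c4466 c752 c1098 k0) (by decide +kernel)
def c6961 : PP 8 4 T 0x80200000800100008000000020044010084000000000000 := rS 0x8b83e1c2e4343606058842e0d0489c8a4d4caa612a5309c5fa5f48a0d7ebd (k8 c108 c109 c643 c6958 c545 c4303 c95 c617 (k8 c1971 c4319 c867 c75 c325 c442 c321 c233 (k8 c1407 c521 c6959 c535 c4462 c689 c4874 c4477 (k4 c6960 c10 c764 c487 (k1 c4819 k0))))) (by decide +kernel)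
def c6962 : PP 8 4 T 0x80000000050000008000000020804010400800000000400 := rS 0x200038172286c7e068b0252603888a15909 (k8 c4319 c2032 c2033 c4338 c2771 c1568 c1106 c4487 (k8 c4462 c4355 c689 c418 c521 c6914 c4819 c1026 (k1 c54 k0))) (by decide +kernel)
def c6963 : PP 8 4 T 0x80200000001100000000000020000000050000000000002 := rS 0x129711d0d8a985fa5f (k8 c545 c4303 c617 c4390 c4847 c4486 c4477 c1423 (k1 c4833 k0)) (by decide +kernel)
def c6964 : PP 8 4 T 0x1000000000000000000000201500000001400000000420044000005404000000009 := rS 0x9a2308835fa25 (k4 c225 c4303 c4865 c342 (k2 c793 c4248 (k1 c2111 k0))) (by decide +kernel)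
def c6965 : PP 8 4 T 0x80200000850100008000000020844010400000000000000 := rS 0x1820092e07e1a2618808021d1782c6e35548cd5f0935a754aa730bf4be9141afd0abd (k8 c108 c715 c109 c643 c6958 c545 c4303 c617 (k8 c1979 c1971 c105 c561 c4319 c868 c417 c867 (k8 c1309 c6961 c623 c6962 c764 c6963 c4726 c229 (k8 c6964 c4323 c353 c4477 c1105 c807 c4462 c609 k0)))) (by decide +kernel)
def c6966 : PP 8 4 T 0x20081200000840100008000000020800000000000000000000 := rS 0x88d030420b914363f03458134307adc16cc230dde24d2513d9f1920b462ab960a547709 (k8 c4319 c6957 c6879 c111 c1478 c4390 c149 c1056 (k8 c4370 c1445 c421 c6965 c25 c4434 c1414 c2037 (k8 c2036 c623 c1586 c3317 c4395 c1146 c4492 c4462 (k8 c4355 c689 c418 c521 c4472 c4465 c1955 c348 (k1 c1034 k0))))) (by decide +kernel)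
def c6967 : PP 8 4 T 0x20080200000840100008000000020800000000000000000000 := rS 0x1398e4b6733568c320b452a3b (k8 c6957 c6879 c149 c1056 c167 c6966 c1438 c1788 (k4 c2036 c3415 c6965 c420 k0)) (by decide +kernel)
def c6968 : PP 8 4 T 0x80000000000000000000000000880000000000000000000 := rS 0x8836 (k2 c1439 c1440 (k1 c2389 k0)) (by decide +kernel)
def c6969 : PP 8 4 T 0x80000000850100008000000040804010480000000000000 := rS 0x40a15f9123897cd20d868011c240f1743a061782c4209139149a4f4caa466af35a954e9141afd7a6d30960ae9d (k8 c105 c1226 c4476 c617 c4270 c108 c109 c643 (k8 c6958 c1979 c1971 c561 c868 c417 c867 c75 (k8 c6968 c325 c442 c321 c1224 c6959 c535 c6962 (k8 c4462 c764 c6960 c4466 c272 c273 c1098 c4381 (k8 c3399 c756 c488 c2431 c4055 c4477 c1441 c4380 (k1 c4130 k0)))))) (by decide +kernel)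
def c6970 : PP 8 4 T 0x80100000850100008001000020804010440000000000500 := rS 0x3497c008e0f204bb0d10bf10ad213934e2390e8185f1527a655233579ad3a6f52a9d22835faf4c235 (k8 c1309 c617 c108 c109 c643 c6958 c1979 c1971 (k8 c1228 c105 c561 c868 c417 c867 c75 c6968 (k8 c4390 c6962 c4462 c764 c1137 c497 c1975 c4538 (k8 c4470 c1441 c4480 c6959 c4867 c4377 c4380 c4466 (k4 c4486 c1098 c1425 c756 (k1 c2119 k0)))))) (by decide +kernel)
def c6971 : PP 8 4 T 0x80001100001100008000000020044010004000000000800 := rS 0x7223128bc6204100694e35 (k8 c1309 c1979 c702 c535 c534 c2264 c837 c313 (k2 c833 c2322 (k1 c6931 k0))) (by decide +kernel)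
def c6972 : PP 8 4 T 0x80100000850100008000000040804010400000000000000 := rS 0x2f0884a8e2689c62010bc34881e028080e081782c6f1527aa466af359bd4aa748a0d7ebd36960ae9d (k8 c105 c1226 c4476 c4270 c108 c109 c643 c6958 (k8 c1979 c1971 c1228 c561 c868 c417 c867 c6968 (k8 c4390 c6969 c6971 c6962 c6970 c3 c1106 c263 (k8 c1105 c1224 c4729 c520 c486 c229 c353 c379 (k4 c4486 c1423 c2111 c4871 (k1 c1296 k0)))))) (by decide +kernel)
def c6973 : PP 8 4 T 0x20080000000840100008000000040800000000000000000000 := rS 0xfc893eb2566fc8b1c4e6b542d0d6e876611894b12c52d864168c5572951dc24ae9d3ab04debf (k8 c109 c1228 c111 c709 c105 c1226 c4319 c6957 (k8 c6879 c1478 c4390 c149 c1056 c167 c4456 c4476 (k8 c6967 c6972 c2037 c2036 c3811 c1586 c4395 c3306 (k8 c1438 c1231 c706 c4492 c4480 c4357 c4305 c4379 (k2 c682 c2121 (k1 c4235 k0)))))) (by decide +kernel)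
def c6974 : PP 8 4 T 0x20080000000840100008000000000800000000000000000000 := rS 0x3084124b1789c360b26a3801440ec34071336014d25a53a454a4168af62a4f4caa466af4a9dd06bf (k8 c109 c643 c48 c6879 c868 c417 c867 c75 (k8 c6968 c4390 c108 c149 c1056 c1971 c6958 c1979 (k8 c6973 c845 c2688 c704 c4341 c958 c4699 c2730 (k8 c4490 c4461 c4486 c4451 c567 c5870 c2845 c783 (k4 c4799 c4153 c6959 c4462 (k1 c495 k0)))))) (by decide +kernel)
def c6975 : PP 8 4 T 0x20080000000840000008000000000800000000000000000000 := rS 0x4455a924fad8fe8739818160002accb489019b0d2813ebf0121d588be26715aa910a91461bcea6b84d2d7f155ca7556c119abd2a3b (k8 c6957 c6879 c868 c417 c111 c1972 c105 c1478 (k8 c4390 c109 c4456 c4319 c561 c709 c1228 c6974 (k8 c72 c3373 c1389 c1388 c706 c4444 c3939 c6947 (k8 c764 c4153 c4480 c4379 c4380 c1882 c4055 c958 (k8 c681 c864 c1251 c2688 c4461 c567 c4462 c1021 (k8 c1634 c4235 c4088 c1667 c1117 c2053 c4413 c4491 k0)))))) (by decide +kernel)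
def c6976 : PP 8 4 T 0x1000000000000000000000000100000000201500004000000054000010000405400480 := rS 0x1cfc06b484e3908a3d230d (k8 c4383 c72 c71 c608 c3123 c4538 c6910 c4371 (k2 c5772 c2108 (k1 c4376 k0))) (by decide +kernel)
def c6977 : PP 8 4 T 0x1002002002000000000000000000000000200000000000010000000010000000000210 := rS 0x1018983c381bb4c1e61 (k8 c4301 c4376 c5101 c232 c4470 c1113 c1114 c223 (k2 c870 c4461 k0)) (by decide +kernel)
def c6978 : PP 8 4 T 0x1002000000000000000000000000200800201100004000080044000014000400400400 := rS 0x2031307870d3060dc1e61383f5e03121844100702a45625926a0c3619 (k8 c4436 c4315 c3879 c3878 c64 c1115 c72 c574 (k8 c6976 c4462 c345 c236 c1966 c5936 c6977 c4480 (k8 c585 c3369 c232 c2108 c4371 c4470 c1113 c1114 (k2 c223 c870 (k1 c4461 k0))))) (by decide +kernel)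
def c6979 : PP 8 4 T 0x10000000000000000000000080000000800200004000000080800000004000000000000 := rS 0x702fbf4200a0c86e1035379a49617409dc5e8326c4d62a411c549e8536964d699 (k8 c75 c581 c64 c865 c1442 c6968 c4390 c3287 (k8 c1389 c1115 c4444 c3878 c3879 c3939 c3800 c6903 (k8 c6916 c6906 c845 c1349 c1309 c4479 c4315 c4436 (k4 c6978 c4735 c4299 c2553 (k2 c4480 c1385 k0))))) (by decide +kernel)
def c6980 : PP 8 4 T 0x1000001000000000000000000000000000000000004002080000000000000000000020 := rS 0xe2b1 (k2 c2607 c2563 (k1 c4480 k0)) (by decide +kernel)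
def c6981 : PP 8 4 T 0x12001000000000000000080000000800000000000000480040000000000000400800 := rS 0xd308bc4e083172c4380002834c00f2e9bd02190dc540657 (k8 c38 c303 c4390 c4315 c4436 c4439 c1349 c841 (k8 c305 c4477 c2541 c6980 c4461 c567 c2605 c764 (k4 c1977 c4480 c4432 c2562 (k2 c6153 c4463 k0)))) (by decide +kernel)
def c6982 : PP 8 4 T 0x400001000000000000000080000000800000000001000480040000000000000400800 := rS 0x2e984dea73ca44d1092b9ad330d (k8 c4825 c75 c581 c38 c6981 c4479 c2895 c1961 (k4 c1979 c1350 c884 c841 (k1 c4477 k0))) (by decide +kernel)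
def c6983 : PP 8 4 T 0x2000000000000000080001100000001000001400480000000000000000000000 := rS 0x69539dd22812ea0cc257 (k8 c38 c4301 c4306 c4377 c4380 c4550 c1890 c1979 (k2 c845 c2119 k0)) (by decide +kernel)
def c6984 : PP 8 4 T 0x20000000000000000020080000000000000004000000080000100401000000000004 := rS 0x12c36f0219343c19022000257 (k8 c38 c4847 c4945 c4461 c268 c575 c1894 c276 (k4 c4530 c4291 c4434 c4959 k0)) (by decide +kernel)
def c6985 : PP 8 4 T 0x11001000000000000000080001100000100000000001080040100005000000400800 := rS 0xd31a8dc5e1e0786c9a043c0947201370744e8e2e29d23152f8240657 (k8 c38 c303 c31 c577 c4390 c888 c1979 c4477 (k8 c4486 c2836 c2721 c841 c567 c1073 c3331 c1350 (k8 c4461 c1975 c599 c264 c575 c4819 c1343 c1099 (k2 c4839 c4470 k0)))) (by decide +kernel)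
def c6986 : PP 8 4 T 0x1000000000000000000000000000000000100000000002080000000000000000000020 := rS 0x12035388903c10 (k4 c614 c575 c615 c2563 (k2 c1099 c6936 (k1 c889 k0))) (by decide +kernel)
def c6987 : PP 8 4 T 0x20080000000800000004000000080800000400000000000800 := rS 0x7617108380002982130d18c482e0322905a3152795dfa5f52a3466af4ac64d69936a1552bf (k8 c109 c867 c1442 c865 c75 c581 c4370 c6879 (k8 c868 c417 c6979 c1971 c577 c6983 c38 c6968 (k8 c4390 c149 c1056 c2387 c303 c573 c6982 c4441 (k8 c6984 c6981 c6985 c6986 c4461 c567 c765 c764 (k2 c6924 c3796 k0))))) (by decide +kernel)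
def c6988 : PP 8 4 T 0x10000000000000000000000000000000000000000000000000000110000800010000000 := rS 0x86f1 (k2 c4432 c1953 (k1 c4472 k0)) (by decide +kernel)
def c6989 : PP 8 4 T 0x1000000000000000000000000000000000100000000002080000000000000000000008 := rS 0x2451f0d (k4 c4325 c2848 c2894 c4486 k0) (by decide +kernel)
def c6990 : PP 8 4 T 0x1000000000000000000001500000800000000002000040010005000050000002 := rS 0x1a623128821a27 (k4 c2845 c4325 c4466 c1424 (k2 c2824 c5804 (k1 c4467 k0))) (by decide +kernel)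
def c6991 : PP 8 4 T 0x1000000000000000080001100001100000000002080040010005000000000400 := rS 0x69838700803879608e539643b0d0000e2a05 (k8 c574 c4390 c6989 c4461 c4325 c759 c64 c1979 (k8 c4486 c849 c6990 c1097 c4462 c1145 c1146 c4279 (k1 c4528 k0))) (by decide +kernel)
def c6992 : PP 8 4 T 0x1000000000000000000000000802100000000002080000000000000010000002 := rS 0x3481e0d1c09c3c1158884468f (k8 c101 c2737 c2892 c625 c607 c4466 c353 c1153 (k4 c503 c241 c4463 c4280 k0)) (by decide +kernel)
def c6993 : PP 8 4 T 0x10000000000000000000000080000000800100004000002080040010004000000000400 := rS 0x481c32420f1dc60714880007152cbf4bea535a64da8554afc3a05 (k8 c574 c759 c109 c867 c1442 c865 c75 c581 (k8 c1971 c577 c6983 c64 c4390 c6989 c4461 c6992 (k8 c585 c6991 c1891 c1967 c1966 c4152 c1097 c236 (k1 c4462 k0)))) (by decide +kernel)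
def c6994 : PP 8 4 T 0x1000000000000000080000000000100000000001080000000000000000000402 := rS 0x1a6351c8dc442137238b81186c54be91 (k8 c888 c577 c4390 c4847 c606 c4477 c4486 c841 (k4 c2821 c752 c1344 c1074 (k2 c1306 c4372 (k1 c4470 k0)))) (by decide +kernel)
def c6995 : PP 8 4 T 0x1000000000040000080001100000000000000001480040010015000000010008 := rS 0x36250e44f0c2ec554e91118805e25 (k8 c225 c2835 c838 c2833 c888 c1979 c4390 c4523 (k4 c4477 c4323 c360 c6931 (k2 c4470 c1414 k0))) (by decide +kernel)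
def c6996 : PP 8 4 T 0x80000000001500000000000000000000040000005401000000000 := rS 0x9a27 (k2 c4277 c4282 (k1 c4839 k0)) (by decide +kernel)
def c6997 : PP 8 4 T 0x20080000000800000004000000080800000400000000000000 := rS 0x30dc34698444a2f100c41002038054e913081416fd2fa951a6b8c905a24f4caa57e3357a550a6d (k8 c865 c1442 c6879 c868 c417 c109 c867 c75 (k8 c6968 c149 c1056 c4370 c581 c6979 c1971 c577 (k8 c6983 c6987 c574 c6993 c888 c1979 c6994 c494 (k8 c4461 c4462 c229 c838 c2835 c225 c2305 c6996 (k4 c6995 c1059 c1060 c3277 k0))))) (by decide +kernel)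
def c6998 : PP 8 4 T 0x1000000000040000080000000000000000400001400000000020000000010000 := rS 0x5c38434de81062c41f15 (k8 c4390 c3315 c1034 c4463 c6942 c3277 c4945 c4480 (k2 c4477 c3291 k0)) (by decide +kernel)
def c6999 : PP 8 4 T 0x1010001000000000000000000000000001100000004001400000000010000000002000 := rS 0xb0080f0843a221b8091c5c (k8 c4477 c4486 c1288 c3382 c1287 c761 c833 c4466 (k2 c222 c223 (k1 c4547 k0))) (by decide +kernel)
def c7000 : PP 8 4 T 0x10000000000000000000000000000000000000204404000000000000000000000000000 := rS 0xf309 (k2 c4439 c1963 (k1 c4482 k0)) (by decide +kernel)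
def c7001 : PP 8 4 T 0x10011000000000000040000000000000800800004000400240000010000004000008000 := rS 0x25119c002562c874f077 (k8 c1889 c4482 c6924 c540 c4476 c750 c801 c1328 (k2 c3395 c4467 k0)) (by decide +kernel)
def c7002 : PP 8 4 T 0x10010000000000000040000000000000800800004000100640000000000004400000400 := rS 0x10bc48010ea64b057 (k8 c804 c4476 c75 c760 c752 c4467 c4724 c5613 (k1 c225 k0)) (by decide +kernel)
def c7003 : PP 8 4 T 0x10000001000000000040000080000000801100004004401440000010000000000010000 := rS 0x2511160ae698402c1c2706a38b90d40c546a77 (k8 c1889 c6998 c4390 c7000 c4945 c4477 c4486 c6999 (k8 c807 c4463 c305 c7001 c4437 c804 c4476 c7002 (k2 c12 c1328 (k1 c4522 k0)))) (by decide +kernel)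
def c7004 : PP 8 4 T 0x1000000000040020080000000801100004000401440800000000000000010000 := rS 0x17804961b1b05e130c070e5008f069b86b1920b462a77 (k8 c1889 c4390 c149 c1056 c4370 c6998 c7003 c3277 (k8 c1346 c1349 c1074 c4463 c4486 c4439 c3936 c4470 (k4 c2384 c1334 c4847 c4819 (k1 c4946 k0)))) (by decide +kernel)
def c7005 : PP 8 4 T 0x20000000000000040020080000000800100004000400040800000000000000020001 := rS 0x12c5e2d63bc09a1b0408432cf2c874f004374242e3101a01071213c6482d165abd2aab60aa57e77 (k8 c1889 c109 c867 c111 c1972 c6879 c868 c1980 (k8 c149 c1056 c4370 c4323 c4825 c4898 c4945 c342 (k8 c4441 c612 c4439 c7000 c4461 c4482 c6924 c1107 (k8 c3335 c268 c311 c6846 c6867 c3867 c4465 c2374 (k4 c2356 c4819 c4434 c4765 k0))))) (by decide +kernel)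
def c7006 : PP 8 4 T 0x10001000000000000000000000000000800800004000400040000010000000000020000 := rS 0x80061f13958b21d3c1dc126f (k8 c1346 c345 c1889 c4482 c6924 c540 c4476 c2778 (k4 c1065 c342 c4466 c798 k0)) (by decide +kernel)
def c7007 : PP 8 4 T 0x200000000000000000000020000000000000810000005 := rS 0x6e0a (k2 c4726 c1410 (k1 c623 k0)) (by decide +kernel)
def c7008 : PP 8 4 T 0x800000000000020000000000000020020000 := rS 0xd40c21 (k4 c11 c1025 c1306 c609 k0) (by decide +kernel)
def c7009 : PP 8 4 T 0x10000000000000040000000200000000000000000000220000000000001010000005 := rS 0x4627 (k2 c806 c7007 (k1 c4467 k0)) (by decide +kernel)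
def c7010 : PP 8 4 T 0x1000000000040020080000000801100004000401440800000000000000000000 := rS 0x350308c16020eac0e2582b9a6100937a38b90d128041a108c905a315 (k8 c4390 c149 c1056 c4370 c7004 c6 c606 c279 (k8 c7005 c4477 c4486 c1346 c345 c7006 c4437 c804 (k8 c4476 c1418 c4480 c7008 c7009 c303 c793 c4462 (k2 c1305 c609 k0)))) (by decide +kernel)
def c7011 : PP 8 4 T 0x10010001000000000000000080000000801100004000001440054000100000500011000 := rS 0x323107810f0681b9584a593820d62080382c3c810e9bc028e2e4550a77 (k8 c1889 c1442 c4390 c4477 c4486 c752 c1346 c760 (k8 c7000 c4466 c271 c1098 c4462 c1145 c1977 c4480 (k8 c536 c3395 c1418 c272 c804 c805 c1066 c1415 (k2 c4719 c268 (k1 c4890 k0))))) (by decide +kernel)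
def c7012 : PP 8 4 T 0x1000000000000020080000000801100004000401440800000000000000000000 := rS 0x5110341d3c0b82f0918a02240112c30424b118349a3913845a51920b449e9954afc66af4a9dd4aa7 (k8 c1979 c1971 c1889 c6879 c868 c417 c109 c867 (k8 c75 c6968 c149 c1056 c4370 c7010 c4275 c4277 (k8 c4279 c4282 c4371 c4372 c4375 c6959 c7011 c4381 (k8 c4847 c4825 c4945 c4441 c4439 c3936 c6996 c4482 (k4 c6924 c4819 c6914 c598 (k1 c2387 k0)))))) (by decide +kernel)
def c7013 : PP 8 4 T 0x10000000000000000080000080000500800800504000100020040010004000005014001 := rS 0x2517808620b0b074424b118349a274caa57e85 (k8 c1442 c109 c867 c75 c4277 c4282 c4371 c4372 (k8 c4375 c6959 c760 c2108 c535 c3872 c4726 c4724 (k2 c224 c6996 k0))) (by decide +kernel)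
def c7014 : PP 8 4 T 0x1100000020000020000000000008000000400 := rS 0x38246e1f (k4 c353 c321 c1105 c497 (k1 c4462 k0)) (by decide +kernel)
def c7015 : PP 8 4 T 0x1000000000000020080000000801100004000401040800000000000000000000 := rS 0x1d018dc44271282c18d334864370845844f2750083cb03538239626f40a0e1a5d2f46482d18a93c66af4a9dd4aa7 (k8 c1979 c1971 c1889 c6879 c868 c417 c6968 c4390 (k8 c149 c1056 c4370 c7012 c39 c4382 c549 c1381 (k8 c1377 c545 c4486 c4480 c3294 c1426 c3401 c2431 (k8 c539 c540 c2498 c4632 c4482 c415 c4436 c4437 (k8 c7013 c4463 c569 c1368 c7014 c4467 c3385 c792 (k2 c761 c4726 k0)))))) (by decide +kernel)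
def c7016 : PP 8 4 T 0x800000000000940000000000000800000000 := rS 0x90e88408031b960ae35 (k8 c3294 c800 c4476 c3385 c792 c1296 c833 c761 (k2 c1106 c6846 k0)) (by decide +kernel)
def c7017 : PP 8 4 T 0x1010000000000000040000000000000001100000020000020000000050000400010000 := rS 0xb130e04a8e (k4 c4486 c1423 c4470 c4467 (k2 c358 c7014 k0)) (by decide +kernel)
def c7018 : PP 8 4 T 0x20080000000801100004000401040800000000000000000000 := rS 0x605120841227259346c1d11b4c02701a978d2190dc2116793a960ae8e86a04ba0f41845f91920b457b1527a6552bf19abd2a85369dd4aa7 (k8 c1979 c1971 c1889 c865 c1442 c6879 c868 c417 (k8 c109 c867 c75 c6968 c4390 c108 c149 c1056 (k8 c4370 c7015 c4299 c4306 c4376 c4377 c4380 c4945 (k8 c4486 c800 c4476 c539 c540 c4632 c4482 c415 (k8 c4436 c4437 c2119 c3294 c1425 c2431 c7013 c7016 (k8 c760 c7017 c325 c1414 c321 c232 c6959 c4467 (k2 c6846 c224 (k1 c4461 k0)))))))) (by decide +kernel)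
def c7019 : PP 8 4 T 0x10010000000000000000000080000000801100504000100820054010004000405400041 := rS 0x1b031a611079c10aa553a3a2a35 (k8 c1309 c4390 c4486 c1979 c1971 c1442 c1425 c3401 (k4 c2498 c7013 c2108 c7017 (k1 c1408 k0))) (by decide +kernel)
def c7020 : PP 8 4 T 0x10010000000000000000000080100000801100504000100020054010004400405400041 := rS 0xf098100205845f8712fc5552bf52a9c3a6f (k8 c1107 c764 c1979 c1971 c109 c867 c4390 c7019 (k8 c536 c4480 c4299 c4735 c4726 c4462 c4639 c1105 (k1 c353 k0))) (by decide +kernel)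
def c7021 : PP 8 4 T 0x20080000000801100004000001040800000000000000000000 := rS 0x2f01410020588444b1419346a07009bc3b442585e1a7840960322f0dc4cd26a53c6482d18a93d52bf19abd2aa5 (k8 c1971 c6879 c868 c417 c109 c867 c6968 c4390 (k8 c149 c1056 c4370 c1979 c7018 c43 c4442 c559 (k8 c3937 c3875 c1969 c3876 c1968 c4825 c6916 c4799 (k8 c4490 c764 c1107 c2433 c500 c1309 c4451 c4452 (k8 c628 c7020 c833 c535 c4726 c4462 c29 c4547 (k1 c1296 k0)))))) (by decide +kernel)
def c7022 : PP 8 4 T 0x2100000000000144000000000000200010000 := rS 0x1a636130951f0d (k4 c4327 c101 c313 c886 (k2 c887 c4277 (k1 c6929 k0))) (by decide +kernel)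
def c7023 : PP 8 4 T 0x10000000000000000000000080000000812100004000000860800000000000000000000 := rS 0x260342e0f020b884030e084221f0c818370805a2cf209581d4ae4f4297496813ba0cd6a6 (k8 c892 c3886 c548 c1889 c6923 c3944 c2791 c1442 (k8 c6968 c37 c539 c1155 c3167 c540 c4632 c2508 (k8 c4482 c415 c4462 c4436 c3165 c2507 c7022 c4466 (k8 c2765 c765 c764 c1026 c1376 c1950 c2486 c4802 (k1 c3883 k0))))) (by decide +kernel)
def c7024 : PP 8 4 T 0x10000000000000000000000000000000002001506400000040044000001000080414001 := rS 0x641a4d0d90c480b (k8 c271 c1154 c276 c598 c284 c1368 c4540 c2108 k0) (by decide +kernel)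
def c7025 : PP 8 4 T 0x20080000000800100004000001840800000000000000000000 := rS 0x190693414091b06c40450f83c221d7e01c2f093c1a002562ca0c82d15e93d3a3357a550a6f259ac628153240ef19 (k8 c4370 c1889 c7021 c892 c6923 c3885 c3886 c3944 (k8 c1076 c1442 c6879 c868 c417 c105 c6968 c108 (k8 c149 c1056 c548 c7023 c4476 c2711 c804 c805 (k8 c4437 c3934 c500 c5558 c6924 c4299 c4376 c7024 (k8 c6169 c4466 c599 c887 c231 c799 c325 c1408 (k2 c1959 c4682 k0)))))) (by decide +kernel)
def c7026 : PP 8 4 T 0x20080000000800100004000001040800000000000000000000 := rS 0xc8349a0a048d836202287c3a070bc24f0680083d06112b3f0b25f408c4d64b37a98bb0d4846482d15e93d3a3357a550a77 (k8 c1889 c1442 c6879 c868 c417 c105 c6968 c108 (k8 c149 c1056 c4370 c7021 c4327 c2791 c892 c1076 (k8 c3944 c3886 c3885 c6923 c7025 c1156 c4477 c4476 (k8 c4299 c4306 c4376 c2711 c804 c805 c4437 c3934 (k8 c500 c6924 c7024 c6169 c4466 c599 c887 c231 (k4 c799 c325 c1408 c1959 (k1 c4682 k0))))))) (by decide +kernel)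
def c7027 : PP 8 4 T 0x80100000000201500000000000054000000000005410100 := rS 0xc0b8a88cde35 (k4 c1309 c1349 c3287 c4390 (k2 c4735 c4462 (k1 c6976 k0))) (by decide +kernel)
def c7028 : PP 8 4 T 0x10000000000000000000000080100000000200504400000000054000000000004410100 := rS 0x3cc243085 (k4 c1442 c7027 c4436 c1959 (k1 c4482 k0)) (by decide +kernel)
def c7029 : PP 8 4 T 0x20080000000800000004000001040800000000000000000000 := rS 0x638984a12829f8e6b749c415a2d698fc185522865e0151590c041e05820368b3a9f41e112c3f0ae6f2585d022f4193626b138ad5482386a31cb4b8cc55724f55b0466af4aacd0a77 (k8 c1889 c1442 c1250 c6879 c868 c417 c111 c1972 (k8 c6968 c1478 c4390 c4370 c4456 c4290 c7026 c4383 (k8 c3287 c1389 c1388 c1386 c1116 c4444 c3878 c3879 (k8 c3939 c6903 c6916 c6906 c1349 c1067 c4480 c4476 (k8 c4299 c4376 c4379 c539 c4632 c415 c7028 c31 (k8 c1105 c1106 c2132 c2138 c2346 c4728 c4540 c4295 (k8 c252 c2108 c1248 c4371 c392 c4554 c4491 c4413 (k8 c1117 c1109 c4088 c4313 c4464 c224 c4467 c408 (k1 c515 k0)))))))))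 (by decide +kernel)
def c7030 : PP 8 4 T 0x1000000000000000000000020000000000001000000000000000500000 := rS 0x2705 (k2 c4314 c516 (k1 c4464 k0)) (by decide +kernel)
def c7031 : PP 8 4 T 0x54000000054000001544000800000000000000000002 := rS 0xc82b (k2 c293 c2120 (k1 c491 k0)) (by decide +kernel)
def c7032 : PP 8 4 T 0x20080000000840000000000000000800000000000000000000 := rS 0x31d6ea14f44558891b8b4c62123801a403138d40a151c8fcaa492585c0c190d9a45e4d89a043a09841ad06a745ad548233799d600b3ca44ea8c2c28d1e578697cba603b96cda8559a1cf63b19aad5ee58c8f5a3155cb052a4f (k8 c6968 c6879 c111 c1478 c4390 c149 c1782 c4370 (k8 c4290 c868 c1972 c417 c6957 c6975 c1635 c1250 (k8 c1442 c865 c6997 c1889 c7029 c40 c66 c4325 (k8 c2887 c848 c6594 c4476 c617 c539 c1156 c2601 (k8 c2599 c616 c656 c1108 c3287 c1389 c1388 c4632 (k8 c1979 c1976 c1968 c4482 c3125 c3010 c7000 c4444 (k8 c3878 c3939 c1883 c415 c4436 c4462 c6916 c6906 (k8 c372 c252 c3264 c3123 c649 c527 c1309 c4538 (k8 c878 c6910 c4461 c4374 c830 c755 c910 c1384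 (k8 c7030 c7031 c4338 c2053 c900 c5964 c1392 c2113 k0)))))))))) (by decide +kernel)
def c7033 : PP 8 4 T 0x1000000000000000000000000000000000100000000000020000000000002000000040 := rS 0x2386e910107810010ec341621 (k8 c313 c535 c4381 c1025 c486 c4462 c4466 c4726 (k4 c3167 c2130 c4486 c1423 k0)) (by decide +kernel)
def c7034 : PP 8 4 T 0x2000000020000000000400000000080 := rS 0xf00144cd21600a68d47b2b96c120b (k8 c4 c3 c64 c37 c99 c540 c541 c2433 (k4 c500 c1961 c4442 c5613 (k2 c4727 c4431 k0))) (by decide +kernel)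
def c7035 : PP 8 4 T 0x400000000000000000000000000001400000008001000000000000000000000000000 := rS 0x13319 (k2 c4365 c1132 (k1 c4488 k0)) (by decide +kernel)
def c7036 : PP 8 4 T 0x10000000000000000000000000000001900000000000120000000000008000000080 := rS 0x3f4beb0388e01661 (k8 c617 c4 c847 c7014 c1137 c1425 c4303 c4477 k0) (by decide +kernel)
def c7037 : PP 8 4 T 0x440100000000001505004000000000010020000000000080 := rS 0x5e9dce20b (k4 c4 c1304 c1023 c1039 (k1 c2122 k0)) (by decide +kernel)
def c7038 : PP 8 4 T 0x40000000200001505000000010000000004000800000080 := rS 0x3178900deb1470d0babf0e8444000469683e9b4ec4c1657 (k8 c2997 c4 c4443 c76 c75 c1097 c4476 c1298 (k8 c494 c495 c2594 c759 c5760 c2821 c833 c832 (k4 c1034 c1345 c7037 c4433 (k2 c1913 c6171 k0)))) (by decide +kernel)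
def c7039 : PP 8 4 T 0x20000000000000200000404 := rS 0x43a5b (k4 c64 c11 c830 c4726 k0) (by decide +kernel)
def c7040 : PP 8 4 T 0x2000000000000000000000440000000000001505414000000000000000000000000000 := rS 0x17ab1 (k2 c4349 c4354 (k1 c2122 k0)) (by decide +kernel)
def c7041 : PP 8 4 T 0x40000000000000000000001000000000000000000000020000000000000000500000002000020000000 := rS 0xe5688a0561f (k4 c10 c1695 c762 c300 (k2 c4402 c4475 k0)) (by decide +kernel)
def c7042 : PP 8 4 T 0x1000000000000000000000000050000000110020500000402440020000000 := rS 0x434202a132a8642e1b03010b6d1 (k8 c300 c64 c1026 c1025 c6533 c533 c269 c266 (k4 c530 c649 c4465 c2109 (k1 c4440 k0))) (by decide +kernel)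
def c7043 : PP 8 4 T 0x4000000000000000000001000400000000008000040000000000000000000000000000 := rS 0xeb05 (k2 c4410 c1692 (k1 c4481 k0)) (by decide +kernel)
def c7044 : PP 8 4 T 0x4000000000000000000000000000000044000000000020010000000000000000000000 := rS 0x12b11 (k2 c4412 c1697 (k1 c4487 k0)) (by decide +kernel)
def c7045 : PP 8 4 T 0x20000000000008010000000000000020140000 := rS 0x4a8567296c5105 (k8 c4407 c762 c2722 c4402 c4476 c4464 c2710 c1599 k0) (by decide +kernel)
def c7046 : PP 8 4 T 0x20000000000000052000000000000200000000 := rS 0x28e656 (k4 c4476 c1617 c799 c307 k0) (by decide +kernel)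
def c7047 : PP 8 4 T 0x8080000002000000000000008 := rS 0x1d41057 (k4 c38 c839 c1689 c235 k0) (by decide +kernel)
def c7048 : PP 8 4 T 0x40000140000501501500000000000000040020000000400000000 := rS 0x9745542fde24d (k4 c1994 c4433 c1054 c2126 (k2 c4398 c1321 (k1 c4474 k0))) (by decide +kernel)
def c7049 : PP 8 4 T 0x200000000000000008000020000000200000000 := rS 0x6cec692c808125b788640e1d (k8 c11 c1017 c1873 c4433 c38 c231 c798 c37 (k4 c1881 c1071 c423 c6033 k0)) (by decide +kernel)
def c7050 : PP 8 4 T 0x100000000000000000005400054045500000104000008000000000000000000000 := rS 0x17295 (k2 c803 c4548 (k1 c2125 k0)) (by decide +kernel)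
def c7051 : PP 8 4 T 0x1000000040000540001001501500200000001000000000000000001005018 := rS 0x692f86948100ba9e12fd (k8 c4380 c4439 c1897 c1835 c4463 c2126 c4465 c542 (k2 c1883 c423 k0)) (by decide +kernel)
def c7052 : PP 8 4 T 0x1000000040000540001001501500100000000000010000000400000020008 := rS 0x974553294b84f (k4 c2413 c343 c1341 c2126 (k2 c4453 c1856 (k1 c4474 k0))) (by decide +kernel)
def c7053 : PP 8 4 T 0x200000000000008000000000008200000000 := rS 0x3f41a11371c4ba592d874720a0134c1e61 (k8 c2885 c239 c4277 c798 c799 c2319 c11 c38 (k8 c37 c1338 c1386 c1067 c4120 c568 c4378 c4463 k0)) (by decide +kernel)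
def c7054 : PP 8 4 T 0x2001000000000000100000201500000104011000000000000000000001000108 := rS 0x3b1e4371834a162683 (k8 c4306 c4444 c1402 c1882 c4488 c423 c4447 c6225 (k1 c6033 k0)) (by decide +kernel)
def c7055 : PP 8 4 T 0x2000000001000000000000400000000000000505004000000000000000000005001100 := rS 0x429dce2bb (k4 c4390 c4387 c6033 c6224 (k1 c7040 k0)) (by decide +kernel)
def c7056 : PP 8 4 T 0x2000000000000040005000050001100000010008008001000000000200001000 := rS 0x8ce43f854aa7459a7c269749c14b2290496c7e0a01045920f379f51e5d (k8 c4377 c800 c4379 c4378 c4376 c4305 c4299 c798 (k8 c799 c2364 c38 c231 c2776 c37 c4407 c1609 (k8 c2801 c1558 c1610 c1187 c7050 c1687 c591 c594 (k2 c4464 c2107 (k1 c4404 k0))))) (by decide +kernel)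
def c7057 : PP 8 4 T 0x400000000000000000000000000000011500000855511500000000000000000000000000000000000 := rS 0x65d2d9ec25c24d5a9755c421b455bc515ecd (k8 c2067 c908 c4500 c4353 c4453 c4330 c4489 c2013 (k8 c4335 c4338 c4413 c5931 c2127 c1525 c4459 c2028 (k1 c4495 k0))) (by decide +kernel)
def c7058 : PP 8 4 T 0x2100002000000000000000010500000054000040010044000000000000000000000000 := rS 0xcb05391d62cc9379f56eb5 (k8 c4389 c4353 c4379 c4378 c4305 c4487 c4417 c2121 (k2 c4408 c1648 (k1 c4478 k0))) (by decide +kernel)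
def c7059 : PP 8 4 T 0x2000000000000040000000000008000040000000008001000000000200101000 := rS 0x7211a0a132a9c8ea3d2d8ac040a08b241e7d (k8 c4379 c4376 c4305 c4299 c799 c798 c2244 c38 (k8 c1654 c1657 c1069 c306 c570 c4408 c2107 c4464 (k1 c4404 k0))) (by decide +kernel)
def c7060 : PP 8 4 T 0x8081100000000000008000000000000200100000 := rS 0x81748e0d3ead4e3048a155ca13478f0583b0e8e5464915809927f33b1c4a0f86828b661 (k8 c880 c38 c799 c4384 c6403 c313 c1391 c2926 (k8 c1394 c1665 c798 c2244 c1662 c78 c2319 c11 (k8 c1043 c926 c927 c930 c571 c4285 c247 c4486 (k8 c4464 c4387 c4389 c4409 c568 c1682 c1339 c2107 (k1 c4120 k0))))) (by decide +kernel)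
def c7061 : PP 8 4 T 0x100000000000000000000000000000050000000000000008000000000000200080000 := rS 0x45d267439828125b (k8 c38 c231 c799 c1561 c570 c1069 c4417 c4487 k0) (by decide +kernel)
def c7062 : PP 8 4 T 0x40000140000000001100000000000008000020000008200025000 := rS 0x102a95f93532194da75e261029645e070ea3c9e02 (k8 c798 c2413 c2778 c11 c1017 c2777 c37 c311 (k8 c880 c4433 c1051 c1848 c1873 c7049 c1994 c1054 (k2 c975 c7051 (k1 c7052 k0)))) (by decide +kernel)
def c7063 : PP 8 4 T 0x10001001000000040000400101001501500100000001400000000000400000420008 := rS 0x210680da94324c5eaee285c (k8 c343 c4486 c4390 c4354 c7052 c349 c1341 c2337 (k2 c6348 c4465 (k1 c4437 k0))) (by decide +kernel)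
def c7064 : PP 8 4 T 0x10001001000000040000400101001501500000000001000000000001400000405018 := rS 0x98a40c29d00bd5dc50be10 (k8 c4463 c542 c4486 c4390 c4354 c7063 c1897 c7051 (k2 c2126 c348 (k1 c1934 k0))) (by decide +kernel)
def c7065 : PP 8 4 T 0x10001000002000040000400100001501501004000021000000080001448000405018 := rS 0xee7941298d10978294d6a9890ce32bd5dc50be10 (k8 c4463 c542 c4486 c4390 c4354 c4446 c337 c4567 (k8 c974 c4442 c4444 c7064 c5620 c6348 c2126 c5558 (k2 c1960 c2002 (k1 c4482 k0)))) (by decide +kernel)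
def c7066 : PP 8 4 T 0x10001000002000040500400100001501501000000205001000000001400001445018 := rS 0x22d0ed10da09e0a644aa54a15299457abb8a17cb810 (k8 c4463 c343 c542 c4486 c4390 c4354 c4405 c4290 (k8 c4283 c1883 c827 c2041 c2126 c7064 c813 c4291 (k4 c4298 c2004 c644 c2109 k0))) (by decide +kernel)
def c7067 : PP 8 4 T 0x10001000002000041440400141001501500000000101000001000001400000405018 := rS 0x6793496d1523c0a6472893cbe10 (k8 c4463 c542 c2413 c4405 c4404 c4290 c7064 c6348 (k4 c4298 c4434 c1934 c1406 (k1 c2116 k0))) (by decide +kernel)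
def c7068 : PP 8 4 T 0x1000002000040000400000009501100000000000008000000000000200440000 := rS 0x3451689552055aa84386cd21921b2d5ecd321f10a632e17caa10069c6288f132c40a593388c5e3188924560264b1c4a0f86828b6610a94ca27b (k8 c1226 c4405 c4290 c4283 c880 c38 c799 c4384 (k8 c6403 c313 c1391 c1665 c798 c2244 c1662 c4414 (k8 c2245 c2777 c2775 c2926 c37 c311 c1147 c4467 (k8 c2778 c4486 c4387 c568 c4463 c346 c542 c343 (k8 c1611 c3474 c1339 c1340 c3326 c3715 c3590 c7065 (k8 c308 c7066 c423 c1653 c7067 c2954 c3342 c1510 (k4 c4794 c1773 c1670 c2109 k0))))))) (by decide +kernel)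
def c7069 : PP 8 4 T 0x1000002000080000010000008041000000000040008000000000041000004000 := rS 0x32c14b2b130a8e1a7f (k8 c1394 c4384 c78 c880 c1147 c37 c6434 c6300 (k1 c6298 k0)) (by decide +kernel)
def c7070 : PP 8 4 T 0x100000000000000000000000000002040000000100024009500000000000200540000 := rS 0x341e289458650e1b3d8c95a7734c662667368ac040a (k8 c799 c798 c2244 c2964 c2926 c4343 c4367 c2813 (k8 c1092 c946 c966 c1227 c423 c1653 c309 c4632 (k4 c4794 c4293 c2109 c6715 k0))) (by decide +kernel)
def c7071 : PP 8 4 T 0x1000002000000000400000008101100000000000008000000000000200000000 := rS 0xd143bc157094486d16193c1a0d6333bc653401228c55e7b4e9d4f8b50b90576bd32170c65f02964aa10069c6288f1308da6b91299c1f0d2d984922b010292e510994c2b11 (k8 c4414 c4283 c4290 c4401 c4405 c7060 c799 c798 (k8 c2244 c1662 c880 c38 c4384 c6403 c2926 c313 (k8 c1395 c7069 c2775 c4467 c2778 c4486 c4387 c568 (k8 c4463 c346 c37 c311 c542 c1611 c343 c1340 (k8 c4354 c4390 c7062 c573 c4389 c1339 c1690 c7070 (k8 c1226 c3715 c2245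 c2406 c830 c7068 c4448 c1889 (k8 c863 c1969 c804 c805 c309 c4632 c422 c556 (k4 c4437 c3866 c4465 c5694 (k2 c4298 c2109 k0))))))))) (by decide +kernel)
def c7072 : PP 8 4 T 0x100000000002000000000000040000200000000000024009000000000000200400000 := rS 0xd144bc1161956c250e1b351d8d259338c4040a0a94c2651 (k8 c4405 c4401 c4290 c4283 c799 c798 c2245 c2926 (k8 c37 c1881 c1071 c1072 c423 c1653 c4438 c3958 (k4 c1918 c565 c4465 c4794 (k2 c4298 c2109 k0)))) (by decide +kernel)
def c7073 : PP 8 4 T 0x1000000000000000000000000000060000000000000000000000000000000045000000000000000000 := rS 0x9af1 (k2 c4298 c380 (k1 c4474 k0)) (by decide +kernel)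
def c7074 : PP 8 4 T 0x800000001000120000000024008000000000000000000000 := rS 0x89a6cd469 (k4 c2041 c556 c804 c4442 (k1 c5760 k0)) (by decide +kernel)
def c7075 : PP 8 4 T 0x1000000000000000001000000000000400000000000000009100000000000000000000000000000000 := rS 0x10709 (k2 c4440 c2004 (k1 c4484 k0)) (by decide +kernel)
def c7076 : PP 8 4 T 0x1000002000000000000000008001100000000000008000000000000200000000 := rS 0x21bc4348744b4516194092e8b195f264f69d3ab2d5e17321f10a6320970be55278401abb5a9c57b1447899a6052c99c462522c44922b012e41f0d0516cc253099452e15 (k8 c4283 c7060 c4405 c4401 c4290 c880 c38 c799 (k8 c4384 c6403 c1395 c798 c2244 c1662 c4414 c2406 (k8 c313 c2775 c2926 c37 c311 c7069 c4467 c2778 (k8 c4486 c4354 c4387 c4389 c4390 c568 c4463 c2413 (k8 c346 c542 c343 c7062 c1611 c3474 c1339 c1340 (k8 c573 c3715 c3590 c1690 c7070 c1226 c7072 c7071 (k8 c4369 c4399 c1324 c1364 c349 c1773 c7073 c7074 (k4 c7075 c2109 c4291 c2290 (k1 c4472 k0))))))))) (by decide +kernel)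
def c7077 : PP 8 4 T 0x2000000000000000008001100000000000008000000000000200000000 := rS 0xd491c62863479f4bafc4bacc2ab186c44922b0102972953f99d8e25 (k8 c313 c1391 c2926 c1394 c1699 c1395 c799 c798 (k8 c2244 c1662 c4414 c4384 c1147 c4283 c662 c7060 (k8 c7076 c4377 c4379 c800 c1610 c4486 c4387 c7058 (k2 c568 c7059 k0)))) (by decide +kernel)
def c7078 : PP 8 4 T 0x100100000001000000000000000000050000000000000008000001000000200100000 := rS 0x154260a (k4 c799 c7061 c306 c4464 k0) (by decide +kernel)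
def c7079 : PP 8 4 T 0x100000001000000000000000000000000000100000000000001000000000100800 := rS 0xaa13 (k2 c570 c306 (k1 c4464 k0)) (by decide +kernel)
def c7080 : PP 8 4 T 0x2000002000001000000000000000008040000000000000008000000000000000100000 := rS 0xaa13018ec3c1d0402c423d8281cc8723aa48fe6788ac4b25b4aaccc67d5ca34de71 (k8 c4387 c4378 c1067 c1395 c4379 c1610 c1188 c802 (k8 c38 c37 c4303 c4414 c920 c1394 c7058 c1657 (k8 c1069 c1070 c2996 c4408 c3585 c7078 c7079 c4462 (k4 c3050 c4466 c3062 c223 (k2 c1560 c1647 (k1 c4464 k0)))))) (by decide +kernel)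
def c7081 : PP 8 4 T 0x6000200000000000000100014000000000000000104000000000000000000000000000 := rS 0x5aacce67d (k4 c4409 c4408 c4311 c4389 (k1 c4073 k0)) (by decide +kernel)
def c7082 : PP 8 4 T 0x28000008 := rS 0x6468 (k2 c423 c422 (k1 c2810 k0)) (by decide +kernel)
def c7083 : PP 8 4 T 0x10000000014000000000000000204000500000004550000000010 := rS 0x15e31 (k2 c1879 c828 (k1 c2112 k0)) (by decide +kernel)
def c7084 : PP 8 4 T 0x80000000000000001200000000000000001000000000000040000100000001100144400000005400000 := rS 0x1047af009055128768b14a6c3 (k8 c4459 c4456 c4429 c4426 c4410 c4314 c4307 c2109 (k4 c4465 c1678 c4433 c2115 k0)) (by decide +kernel)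
def c7085 : PP 8 4 T 0x80000000000000000000001000000000001000000000554000000000000000100020004000000000000 := rS 0x2a862af62ab5869d (k8 c1052 c4459 c4458 c4429 c4428 c1912 c2127 c5962 k0) (by decide +kernel)
def c7086 : PP 8 4 T 0x1000000000001001001000000000000000400100000000000500010000000000000000000000000000 := rS 0x1086e (k2 c4480 c4484 (k1 c1499 k0)) (by decide +kernel)
def c7087 : PP 8 4 T 0x2000000000000800000044044000000050002054500000000000000000000000 := rS 0x2a61aa053b24c313 (k8 c4341 c4301 c4305 c904 c2118 c4329 c980 c5517 k0) (by decide +kernel)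
def c7088 : PP 8 4 T 0x81000000000000400000000000000000400000005544000000000000000000000000000000000000000 := rS 0x43140cf (k4 c4430 c4855 c4490 c4329 k0) (by decide +kernel)
def c7089 : PP 8 4 T 0x400000000000000000000000000000000000000000100080000000000000022000040 := rS 0x40 (k2 c5907 c1873 k0) (by decide +kernel)
def c7090 : PP 8 4 T 0x10014000012000000054000000180081000000000000020540000 := rS 0x22a375a9c2867e3e8d5f8b73a45d7ec9248452d183093932ab60a748a0d07a0c5c433cbc43493699448e3b63b903e7b4d8640e2159828004b19a04ba3948c152a5388abe262d (k8 c2920 c4345 c985 c4333 c4179 c2727 c4309 c2982 (k8 c1139 c2721 c1361 c2958 c1322 c758 c759 c2642 (k8 c11 c495 c7089 c2731 c705 c10 c4464 c4289 (k8 c4403 c4404 c4405 c6832 c1029 c2109 c4291 c2581 (k8 c335 c687 c2620 c427 c691 c439 c969 c6869 (k8 c1844 c1841 c787 c2758 c4488 c2127 c447 c452 (k8 c632 c4369 c4359 c929 c1165 c4463 c1491 c4379 (k4 c2107 c4392 c594 c1434 (k2 c4989 c4387 (k1 c4470 k0)))))))))) (by decide +kernel)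
def c7091 : PP 8 4 T 0x400000000000000000000001000000040000000054000000000000000000001400000155000000000 := rS 0x44d2 (k2 c4473 c2110 (k1 c4372 k0)) (by decide +kernel)
def c7092 : PP 8 4 T 0x100000000000000402004000000044000080000805411800 := rS 0x2149abf (k4 c3486 c325 c603 c4682 k0) (by decide +kernel)
def c7093 : PP 8 4 T 0x100000000000000000001400054055100000100000000000000400000100002900 := rS 0xb747ae4686f (k4 c1290 c569 c4548 c1306 (k2 c1037 c2125 k0)) (by decide +kernel)
def c7094 : PP 8 4 T 0x40000008000000000000000000000000000000540000000000000 := rS 0x6b15 (k2 c4353 c1037 (k1 c4470 k0)) (by decide +kernel)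
def c7095 : PP 8 4 T 0x40000000000000000000000020000000000000140000000001000 := rS 0x6b15 (k2 c4387 c1303 (k1 c4470 k0)) (by decide +kernel)
def c7096 : PP 8 4 T 0x20400000000000080014000000000000000000000000000 := rS 0xeb05 (k2 c4313 c594 (k1 c4548 k0)) (by decide +kernel)
def c7097 : PP 8 4 T 0x100020000054054000010014001510000000000000000000000 := rS 0x7582988feb3339962117 (k8 c4361 c5821 c7044 c4333 c5025 c7096 c2118 c4407 (k2 c1688 c4548 k0)) (by decide +kernel)
def c7098 : PP 8 4 T 0x40000001000054054000002004000000044000000000825411800 := rS 0x1121529b359448689450e8b099557c346791d82751ec556cb95dd14988538a3c6e7d2eb257afc41a041e5910a343e61488e4bf19 (k8 c4447 c1295 c358 c769 c767 c10 c1298 c11 (k8 c535 c305 c1963 c4570 c4463 c2016 c4305 c4377 (k8 c4379 c7092 c761 c7095 c602 c2108 c4451 c1975 (k8 c7097 c2125 c4353 c1743 c1744 c1749 c1587 c1797 (k8 c4470 c4493 c306 c570 c604 c1964 c1997 c381 (k4 c1038 c1247 c1485 c373 (k2 c366 c2024 (k1 c2109 k0)))))))) (by decide +kernel)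
def c7099 : PP 8 4 T 0x40000000000000000000000008000000000000000000800011800 := rS 0x386efd (k4 c4378 c3328 c4463 c304 k0) (by decide +kernel)
def c7100 : PP 8 4 T 0x40000000000054054000002000000000044000000000825411800 := rS 0x82854c43c729fc26b32a8d076673999620c98bc5572b42c88562612f974fafc388dd7a83079bc72c7 (k8 c1449 c358 c7099 c305 c4570 c2016 c7092 c7095 (k8 c4463 c4379 c4377 c1295 c767 c622 c11 c535 (k8 c7098 c107 c4389 c4419 c1705 c4487 c7044 c1618 (k8 c4333 c1579 c4470 c307 c5025 c571 c1433 c4907 (k4 c1308 c2118 c327 c4407 (k1 c4464 k0)))))) (by decide +kernel)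
def c7101 : PP 8 4 T 0x1000011140000000000000044010000000001100400000000005555000 := rS 0x48291fd1304 (k4 c4464 c7030 c4313 c2109 (k2 c2107 c373 k0)) (by decide +kernel)
def c7102 : PP 8 4 T 0x8000000000000010000000000180040200000 := rS 0x2b96cca04 (k4 c286 c551 c575 c1070 (k1 c4476 k0)) (by decide +kernel)
def c7103 : PP 8 4 T 0x1000000100000000044000000050000045500000800000104000040000 := rS 0x2988991422b (k4 c1642 c1585 c2118 c4412 (k2 c1566 c4468 k0)) (by decide +kernel)
def c7104 : PP 8 4 T 0x10000000000000000000000000000000000000000000000000202110000000000000000 := rS 0x2112994f1 (k4 c4435 c1724 c1725 c4472 (k1 c3859 k0)) (by decide +kernel)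
def c7105 : PP 8 4 T 0x40400000000000000000000000000004400000002040000000000000000000000000000000000000000 := rS 0x19b45 (k2 c4398 c1483 (k1 c4495 k0)) (by decide +kernel)
def c7106 : PP 8 4 T 0x2000200000000000000000108000020 := rS 0x268b677 (k4 c47 c845 c1960 c6867 k0) (by decide +kernel)
def c7107 : PP 8 4 T 0x11800002000000000000000500001100000001100001500480000000000000000000000 := rS 0xa2aed4c5d (k4 c4377 c4130 c6983 c4453 (k1 c4493 k0)) (by decide +kernel)
def c7108 : PP 8 4 T 0x102000000000000000000000000000000040000000001001000000000000155000 := rS 0x4763b91927d (k4 c4379 c4305 c4464 c4289 (k2 c4404 c2107 k0)) (by decide +kernel)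
def c7109 : PP 8 4 T 0x1000000000000000000000000000000008080000001400000000000800 := rS 0x1171fa50ea57 (k4 c38 c1689 c842 c399 (k2 c4418 c4471 k0)) (by decide +kernel)
def c7110 : PP 8 4 T 0x1100000000210000000028000800 := rS 0x358b93833 (k4 c953 c1219 c1220 c559 (k1 c6247 k0)) (by decide +kernel)
def c7111 : PP 8 4 T 0x1000000800000024000000000000000000000410000000004008100020 := rS 0x2569920470d682854c29a5c45e2cd (k8 c138 c4291 c4338 c4458 c781 c2026 c901 c4917 (k4 c4330 c773 c1750 c4281 (k2 c283 c4467 k0))) (by decide +kernel)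
def c7112 : PP 8 4 T 0x1000000800000000000000040000001100091410004400004088140020 := rS 0x1ec5d2a74322b50e63822bd571235c251267 (k8 c654 c678 c4315 c2559 c4479 c4445 c4346 c4464 (k8 c4407 c4410 c7111 c2120 c578 c1697 c4417 c275 (k1 c4471 k0))) (by decide +kernel)
def c7113 : PP 8 4 T 0x40840000020000000000000000000000000000000004400000000 := rS 0x868954ca2 (k4 c2027 c2026 c1463 c4330 (k1 c4467 k0)) (by decide +kernel)
def c7114 : PP 8 4 T 0x400000000004000000000002000000000015000000000000000000000000001001110000000000000 := rS 0x371fb1c7647 (k4 c4404 c4403 c4289 c4287 (k2 c4989 c2113 k0)) (by decide +kernel)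
def c7115 : PP 8 4 T 0x1000000000000000000000000000000000000000500000000020000000080000020 := rS 0x11336a60621d (k4 c10 c1913 c1103 c695 (k2 c4443 c4479 k0)) (by decide +kernel)
def c7116 : PP 8 4 T 0x400000000000100000000000000000000000040004000002000000810000000000000000000000000 := rS 0xa386a84bca8 (k4 c563 c562 c980 c4382 (k2 c1466 c4489 k0)) (by decide +kernel)
def c7117 : PP 8 4 T 0x1400000000000100000001000000010000000000054000000000000000000014000000155400000000 := rS 0x13da6488631c8ee4 (k8 c4468 c4404 c4289 c4489 c2110 c5243 c452 c4474 k0) (by decide +kernel)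
def c7118 : PP 8 4 T 0x1000000000000001000000000000000000000000080000001100000008000000000000000008000000 := rS 0x7ea0cb87e (k4 c819 c818 c2657 c4377 (k1 c4484 k0)) (by decide +kernel)
def c7119 : PP 8 4 T 0x100000000000000010800000000054000000000000000000010000008150000000000 := rS 0x9c4b0c52bc687451192ca2e4 (k8 c4468 c4405 c1860 c955 c4455 c4425 c4293 c1941 (k4 c4489 c435 c4323 c7117 k0)) (by decide +kernel)
def c7120 : PP 8 4 T 0x10800000040000010008004400810020010000008140008000000 := rS 0xb07e1bd068f2e9f61aa051a153e81a2d0cc2a7888a462c9551897ebb8c424f29b (k8 c3877 c541 c4440 c4482 c4449 c4369 c1925 c1924 (k8 c3657 c62 c1573 c4415 c3912 c2603 c4425 c4455 (k8 c1901 c3554 c7116 c7118 c7119 c4329 c1625 c811 (k4 c850 c2005 c1108 c4484 (k2 c6353 c4304 k0))))) (by decide +kernel)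
def c7121 : PP 8 4 T 0x1400000000000100000000000000010400000000054000009105410000000010000108150000000000 := rS 0x8c96bc7e3c631094189c4b0c (k8 c4489 c4381 c4323 c2004 c4440 c4482 c4293 c7075 (k4 c6225 c1859 c955 c7117 k0)) (by decide +kernel)
def c7122 : PP 8 4 T 0x400000000000000000000000000000400000040045000008004400810021010000108140000000800 := rS 0x3e9fc90fd5808d7aa9a2204e2a54697c4f0c42c1626d1649898e477244452315dc6212794da0d42aa (k8 c1924 c1740 c2004 c3877 c541 c4440 c4482 c4449 (k8 c62 c1573 c4415 c4468 c4404 c4289 c1925 c3657 (k8 c1630 c4339 c4410 c7116 c4489 c4323 c4382 c4383 (k8 c4385 c536 c1922 c7121 c4398 c4454 c954 c6745 (k4 c6225 c4200 c2655 c1622 (k1 c4483 k0)))))) (by decide +kernel)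
def c7123 : PP 8 4 T 0x100000000000004000440000408000000405000950024000000000000000000800 := rS 0x1026f58a3d0a5e3e2a61a77 (k8 c1112 c4384 c1509 c6237 c6233 c563 c3402 c2508 (k2 c1378 c1382 (k1 c6353 k0))) (by decide +kernel)
def c7124 : PP 8 4 T 0x400000000000000000000000000000400000040005000008004400810025010000108140000000800 := rS 0x1787146bf562812e1f94485899899ab30ab922229550c57718849e53683 (k8 c2004 c3877 c541 c4440 c4482 c4449 c62 c1924 (k8 c1573 c4415 c4468 c4283 c662 c3837 c1925 c4339 (k8 c7116 c7122 c819 c818 c1461 c674 c4377 c3430 (k2 c1418 c6745 (k1 c4507 k0))))) (by decide +kernel)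
def c7125 : PP 8 4 T 0x1001000000000005455454000054001001400401000000001400108150000004000 := rS 0x358a899682511af49ea9 (k8 c5323 c6655 c4507 c954 c434 c2129 c2110 c4389 (k2 c1307 c4538 k0)) (by decide +kernel)
def c7126 : PP 8 4 T 0x102000000000000000000000000000000040000000001001000000000000145000 := rS 0x11 (k2 c4299 c7108 k0) (by decide +kernel)
def c7127 : PP 8 4 T 0x1001000000000015455454000054000001400401000000511400108150200004000 := rS 0x1b129204f (k4 c6655 c7125 c2116 c887 (k1 c1413 k0)) (by decide +kernel)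
def c7128 : PP 8 4 T 0x8000000000000000000008000000000020 := rS 0x3e84508fd5b92572a33fd093ea141b2d76bf4ac6182773c9448ec70a9153a571c961c82064b3c5311628ac5aaf66b0c1a1d3129d549b339eda213329b42e6a2187c1455078689a5334bc4622f45c161203 (k8 c29 c4440 c4410 c53 c17 c62 c4293 c822 (k8 c2385 c2339 c430 c2403 c2404 c6309 c2405 c2293 (k8 c431 c533 c695 c1653 c692 c1630 c703 c2641 (k8 c3877 c1924 c3912 c1925 c6682 c2529 c3836 c3837 (k8 c1633 c391 c4904 c1635 c4415 c1573 c3557 c3657 (k8 c4466 c4468 c311 c2322 c798 c967 c2408 c4283 (k8 c4289 c4404 c4405 c541 c1112 c6869 c4482 c1700 (k8 c4369 c4449 c7120 c2004 c1740 c7123 c7124 c4392 (k8 c4393 c4394 c4421 c4424 c7126 c7127 c2532 c1501 (k1 c2107 k0)))))))))) (by decide +kernel)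
def c7129 : PP 8 4 T 0x10000000054000000000000000000000420400005150400000000 := rS 0xa22f (k2 c1993 c1997 (k1 c2112 k0)) (by decide +kernel)
def c7130 : PP 8 4 T 0x800000000000000000015000014001044000001100000008000000000000000000000 := rS 0x12a9b (k2 c805 c803 (k1 c4553 k0)) (by decide +kernel)
def c7131 : PP 8 4 T 0x20000000001004000000000000000200000004000000000000 := rS 0x7c883a (k4 c1594 c1595 c1101 c6169 k0) (by decide +kernel)
def c7132 : PP 8 4 T 0x1000000000000200000000000400100 := rS 0xe0b (k2 c439 c1218 (k1 c4462 k0)) (by decide +kernel)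
def c7133 : PP 8 4 T 0x400000024000000000010000000001000000040200120 := rS 0x843b1709c140203 (k8 c29 c2 c4307 c7 c4418 c763 c6198 c4466 k0) (by decide +kernel)
def c7134 : PP 8 4 T 0x400000000000000000020000000000000000020200000 := rS 0x738b9d52c3a09c14ce2c (k8 c551 c68 c4307 c7 c913 c912 c1574 c4359 (k2 c1084 c4481 k0)) (by decide +kernel)
def c7135 : PP 8 4 T 0x1000000000000000000000000000000800000000000000001000240000020 := rS 0x669835960ae03 (k4 c29 c798 c311 c1921 (k2 c1111 c431 (k1 c6171 k0))) (by decide +kernel)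
def c7136 : PP 8 4 T 0x2000000040000000000000008000920 := rS 0x690e08488410b9b462f1 (k8 c4291 c6533 c695 c9 c1846 c599 c2408 c6846 (k2 c7106 c7110 k0)) (by decide +kernel)
def c7137 : PP 8 4 T 0x1000000000000400000000000000000000000000500000000000000400800000000000000000000000 := rS 0x1530d (k2 c4382 c1506 (k1 c4490 k0)) (by decide +kernel)
def c7138 : PP 8 4 T 0x540001501101100000000000000000040000000420000000 := rS 0x11e9b (k2 c765 c760 (k1 c2126 k0)) (by decide +kernel)
def c7139 : PP 8 4 T 0x200000000000000000088000820 := rS 0x2d08432f1 (k4 c4291 c36 c57 c271 (k1 c6834 k0)) (by decide +kernel)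
def c7140 : PP 8 4 T 0x20002000000000000000000040000000080000000040100000000004000000800008 := rS 0x195471016b9456293fb40245531985425f4f865927d (k8 c4379 c4305 c8 c4384 c4382 c4329 c4325 c1768 (k8 c1767 c524 c525 c2482 c794 c226 c4401 c456 (k4 c4468 c4337 c4412 c2118 k0))) (by decide +kernel)
def c7141 : PP 8 4 T 0x11000444001514010000040008000000000000000000000000 := rS 0x185163aa5d5b05 (k4 c4407 c821 c817 c1688 (k2 c4481 c2127 (k1 c4362 k0))) (by decide +kernel)
def c7142 : PP 8 4 T 0x1000000000000000000000000000000208000000000000050020800000 := rS 0x726122566ad4bc405aab4cabcce952c814d6932b31583183b81833093d9153a2e011e53643 (k8 c3855 c765 c1960 c1831 c1830 c2772 c1219 c521 (k8 c4437 c8 c791 c1024 c4482 c4450 c4370 c790 (k8 c2996 c43 c532 c1026 c2764 c2925 c2774 c3743 (k8 c3745 c2798 c4468 c4335 c4338 c5025 c2040 c2127 (k2 c7141 c1087 k0))))) (by decide +kernel)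
def c7143 : PP 8 4 T 0x1001000000000000008200101014000040550000055500000000000000000000000 := rS 0x33e86cb512e592cd382129745 (k8 c4454 c4459 c4484 c6133 c1482 c716 c1473 c2118 (k4 c2029 c4393 c1523 c4495 k0)) (by decide +kernel)
def c7144 : PP 8 4 T 0x2010000001000000040000400000000000000505004000000000000000000425000001 := rS 0x25138312209 (k4 c1058 c4351 c7055 c872 (k2 c1368 c4467 k0)) (by decide +kernel)
def c7145 : PP 8 4 T 0x10001001000000040000400100000000000505004000000000000000000425000481 := rS 0x4a27060d4e115 (k4 c7144 c4480 c1304 c496 (k2 c873 c1368 (k1 c4467 k0))) (by decide +kernel)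
def c7146 : PP 8 4 T 0x10001001000000000000400000000000000505000000908000000000000105000419 := rS 0x4501ad237a3412060e2c43e23 (k8 c792 c1066 c1148 c4466 c791 c1058 c2995 c1377 (k4 c7145 c4371 c5772 c7055 k0)) (by decide +kernel)
def c7147 : PP 8 4 T 0x1001000000000080000000000000000000500400000000000150040000000800000 := rS 0x9ebda22141af1 (k4 c4431 c4371 c522 c4484 (k2 c4507 c4396 (k1 c6022 k0))) (by decide +kernel)
def c7148 : PP 8 4 T 0x11001000000000040000000100000000000505404001820000000000000000811000 := rS 0x2394e0e42afd7718 (k8 c4482 c4449 c4369 c522 c4463 c5558 c6353 c3401 k0) (by decide +kernel)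
def c7149 : PP 8 4 T 0x11001000000000000000000000000100000505000000800000040000800510810019 := rS 0x429c54c4a478984a0c6991630b13ba44de412c0dc10570f06de261 (k8 c2884 c4431 c9 c4466 c1066 c222 c2130 c223 (k8 c1103 c1378 c3167 c1111 c545 c4482 c4363 c7147 (k8 c7148 c1368 c4467 c846 c877 c876 c537 c1320 (k1 c5989 k0)))) (by decide +kernel)
def c7150 : PP 8 4 T 0x1000000000000000000000000000800000005000000000000000000000000800000 := rS 0xef19 (k2 c4448 c3746 (k1 c4482 k0)) (by decide +kernel)
def c7151 : PP 8 4 T 0x10001000000000000000000000000000000005000200100000000000000000800000 := rS 0x464eebe0315838810897906230dbc4860535a9532010c984040b10a6e122e (k8 c1830 c4437 c7150 c836 c572 c1831 c2884 c8 (k8 c757 c3743 c3744 c43 c532 c3855 c4431 c9 (k8 c792 c2001 c4477 c343 c1381 c7149 c790 c791 (k4 c7146 c1024 c4369 c4482 k0)))) (by decide +kernel)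
def c7152 : PP 8 4 T 0x40000000000000000000001000000080000000000040000000000000014200540000000104400000018 := rS 0x1a0c672a8452252491c569f (k8 c1340 c227 c4374 c4281 c1336 c794 c810 c6444 (k2 c2110 c4475 (k1 c460 k0))) (by decide +kernel)
def c7153 : PP 8 4 T 0x4000000000000000000000000400000010000000040008000000000000000000000000 := rS 0xeb05 (k2 c4407 c1688 (k1 c4481 k0)) (by decide +kernel)
def c7154 : PP 8 4 T 0x10000000000000004408540400000000000500040200208040000000000000800000 := rS 0x1364b3455424fa5a227d32284528931924fed20694546b0118e47e90168191e950e2343e590dbc54a010caa53a028bd2d0e3b29a4d32214d9ecf3092f8940a6b138b94eb7 (k8 c1167 c813 c1830 c2789 c43 c532 c1336 c39 (k8 c4437 c3968 c1211 c7150 c836 c3743 c1127 c3934 (k8 c1048 c3752 c4459 c4362 c1831 c2772 c2773 c8 (k8 c757 c3744 c4431 c9 c37 c1066 c1068 c4466 (k8 c2764 c2763 c791 c913 c2126 c3188 c3151 c769 (k8 c809 c939 c1867 c1287 c4467 c675 c4281 c7153 (k8 c2041 c794 c810 c7152 c4634 c4412 c7044 c1339 (k4 c4489 c4584 c4395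 c4422 (k2 c1639 c6549 k0))))))))) (by decide +kernel)
def c7155 : PP 8 4 T 0x10001000000000000008540400000000000500040200200000100000000000800000 := rS 0x8a1bd1c0c468886ad3208203c912c074aef152a64b6614e885367b3c97c4a053589d968727b3e8885548b80509 (k8 c4437 c1831 c1830 c2773 c1497 c4484 c4400 c4396 (k8 c3752 c5740 c2789 c43 c532 c1336 c39 c3968 (k8 c1211 c7150 c836 c2772 c2884 c2835 c3743 c3744 (k8 c4431 c7154 c790 c4476 c808 c4466 c222 c1103 (k8 c6426 c3111 c4467 c1297 c793 c6331 c1107 c6999 (k1 c4388 k0)))))) (by decide +kernel)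
def c7156 : PP 8 4 T 0x20000000000000000048010000000140000000000020000001001000104400008010 := rS 0x518ac8e943e8a6229f (k8 c4384 c4412 c1567 c1650 c4958 c1331 c1694 c859 (k1 c4200 k0)) (by decide +kernel)
def c7157 : PP 8 4 T 0x1000000000000008540400000000000500040200200000100000000000800000 := rS 0x9588a888e293e98e087515994920e5cb1d603811a5ce2d3208f4b03716820ae1e0e8d4df154727d1a918613e881978814d6a52da762f4b43a4d32214d9ecf3092f89d0aa9170094eb7 (k8 c1167 c813 c1831 c1830 c2773 c1497 c2789 c39 (k8 c4437 c3968 c1211 c7150 c836 c3743 c1127 c3752 (k8 c4459 c4362 c2772 c2835 c3744 c43 c532 c4431 (k8 c8 c4484 c4396 c7155 c4327 c4383 c4384 c2126 (k8 c4388 c1346 c1306 c2763 c4466 c1066 c222 c393 (k8 c2130 c223 c2131 c1103 c6426 c1418 c3206 c4547 (k8 c4470 c4480 c411 c3213 c1146 c4527 c7156 c227 (k8 c538 c4481 c4407 c4409 c794 c1331 c4200 c4337 (k2 c859 c4958 k0))))))))) (by decide +kernel)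
def c7158 : PP 8 4 T 0x1000000000000008000400000000000400400200200000000000000000800000 := rS 0x4ac454447149f4c7043a8accac75ca5c70b01e9605a081a9be2a1e470753e8d48c306ed32488c940e38a016ebd5386de24352804325b4ec5e968749a64e6214d9157ebb8c1ee127912814d62742aa45c02 (k8 c1831 c1830 c2773 c1497 c2789 c43 c532 c1336 (k8 c3968 c4437 c1211 c4482 c4449 c4369 c4363 c7150 (k8 c836 c1087 c3743 c1127 c3752 c4459 c4362 c2772 (k8 c2835 c8 c757 c3744 c3855 c4431 c9 c813 (k8 c4507 c1167 c7157 c1421 c1835 c6395 c1328 c4527 (k8 c4375 c1413 c4467 c4327 c4383 c4384 c7138 c2126 (k8 c4466 c4388 c1346 c1306 c222 c393 c223 c2131 (k8 c4480 c4470 c3206 c3213 c411 c7156 c227 c538 (k8 c4481 c4407 c4409 c794 c1331 c4200 c4337 c859 (k1 c4958 k0)))))))))) (by decide +kernel)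
def c7159 : PP 8 4 T 0x1000000081008000400040000000000040010220500000000104400000018 := rS 0x3418ce5508a4c7044f9d45717a58949247 (k8 c4374 c4281 c1336 c4459 c4362 c227 c538 c1340 (k8 c4481 c4407 c794 c810 c6444 c2110 c4475 c461 k0)) (by decide +kernel)
def c7160 : PP 8 4 T 0x10000001000000001008000400040100000000040001200400000000004480000018 := rS 0x390fa2b4a0a622642fbf5a42516a4c7a9704160a241 (k8 c1103 c1866 c223 c222 c3206 c2131 c1127 c393 (k8 c1336 c4467 c4377 c39 c7159 c4412 c1567 c4958 (k4 c1694 c3629 c4468 c6458 k0))) (by decide +kernel)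
def c7161 : PP 8 4 T 0x10000001000000001008000400000100400000040001200400000000004480000018 := rS 0x12b115125cb008 (k4 c222 c223 c3206 c7160 (k2 c4337 c858 (k1 c4958 k0))) (by decide +kernel)
def c7162 : PP 8 4 T 0x10000000000000000008004000880000500000000000000000000000000000000000 := rS 0x5e4519491 (k4 c939 c941 c4486 c2028 (k1 c4354 k0)) (by decide +kernel)
def c7163 : PP 8 4 T 0x11000000002000080008000000040000010000000005200000000000040000800018 := rS 0x1043e22cc813a5a1cbefd (k8 c4377 c39 c3752 c4459 c4401 c6444 c524 c6458 (k2 c4485 c4409 k0)) (by decide +kernel)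
def c7164 : PP 8 4 T 0x11000000000000001008000000040000010000000005200500000000144400800018 := rS 0x9f63c41a0e578d2c92476909452a1 (k8 c810 c794 c1336 c4467 c4374 c4281 c4459 c4431 (k4 c7163 c4475 c4468 c461 (k2 c4414 c2110 k0))) (by decide +kernel)
def c7165 : PP 8 4 T 0x10000000000000000008000400000000000800040200200000000000000400800000 := rS 0x3d82952222a51945123f31a345a062b254381f5ba3d9aa678a6402193398405171d94c4a053589c429b3d9e6122e (k8 c1830 c4437 c3968 c1211 c7150 c836 c2789 c43 (k8 c532 c1336 c3934 c1048 c4362 c1831 c2884 c2925 (k8 c8 c757 c3743 c4431 c2000 c3976 c852 c1168 (k8 c7161 c4466 c2764 c790 c791 c913 c1028 c7153 (k8 c3188 c2041 c1867 c7162 c7164 c4411 c226 c4406 (k2 c5191 c5159 k0)))))) (by decide +kernel)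
def c7166 : PP 8 4 T 0x10000000000000000008000400000000000000040200200000000000000400800000 := rS 0xbd5dafc8b443b20d024b6942436fd12814d62742aa45c02 (k8 c1831 c1830 c2773 c1497 c2789 c43 c532 c1336 (k8 c4377 c9 c4437 c4467 c4375 c1834 c7165 c7158 (k4 c4484 c1090 c1094 c3747 (k2 c4454 c7157 k0)))) (by decide +kernel)
def c7167 : PP 8 4 T 0x100000000800000000000000000000100800001 := rS 0xf8748008 (k4 c1833 c1832 c1058 c1103 (k1 c4466 k0)) (by decide +kernel)
def c7168 : PP 8 4 T 0x8000400000000000000000200200000000000000400800000 := rS 0x29a1882399dc429b3dc245c9900864f2fd (k8 c4377 c3968 c8 c757 c3743 c1830 c4437 c1211 (k8 c7150 c836 c7167 c1087 c7158 c7166 c2000 c4330 k0)) (by decide +kernel)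
def c7169 : PP 8 4 T 0x20800000200200000000000000000800000 := rS 0x92a31192d4d45789344a050889d969f50b1c8ee488ab05a51170a4265315994d602 (k8 c1831 c43 c556 c227 c3934 c517 c795 c1830 (k8 c3773 c917 c2040 c4338 c4468 c4404 c4289 c2794 (k8 c1340 c3927 c2789 c342 c532 c1336 c3894 c4431 (k4 c4452 c2000 c1855 c2768 (k2 c941 c4599 (k1 c2110 k0)))))) (by decide +kernel)
def c7170 : PP 8 4 T 0x8000800000000000000000200200000000000000000800000 := rS 0x90d251ac0470d482f54e831c8196e1c2b07cb28f46a592b114f8ac522d5dafc42ac3119426518c26d107b459de0b0929a95329da59e50efd12814d62742aa45c02 (k8 c1831 c1830 c2773 c1497 c2789 c43 c532 c1336 (k8 c4377 c3752 c3968 c4459 c2772 c3743 c3744 c3934 (k8 c4437 c4311 c1192 c2481 c1212 c4485 c7150 c4482 (k8 c3773 c517 c556 c2041 c2040 c836 c4369 c4449 (k8 c917 c795 c227 c1340 c4338 c860 c4958 c1198 (k8 c2802 c1196 c1194 c816 c4466 c3174 c791 c3151 (k8 c7169 c813 c4507 c2126 c4327 c769 c809 c939 (k2 c4467 c4584 (k1 c4281 k0))))))))) (by decide +kernel)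
def c7171 : PP 8 4 T 0x8000000000000000000000200200000000000000000800000 := rS 0x3ba0c42a74d888f6b37ec249a2e4c8043279 (k8 c3968 c8 c757 c3743 c1830 c3894 c4437 c4377 (k8 c7170 c1211 c7168 c7150 c773 c836 c2000 c7167 (k1 c7158 k0))) (by decide +kernel)
def c7172 : PP 8 4 T 0x4000000000000000000000000400000000020001040000000000000000000000000000 := rS 0xeb05 (k2 c4314 c596 (k1 c4481 k0)) (by decide +kernel)
def c7173 : PP 8 4 T 0x4001001000000000000000440041551101180400400041500000140404040100800008 := rS 0x21578c80e1943f101e0fc5acb3eb94527f68048c623 (k8 c792 c1768 c524 c525 c2482 c794 c4401 c3692 (k8 c3680 c456 c458 c4471 c4468 c274 c4412 c4466 (k4 c5857 c7138 c717 c4507 k0))) (by decide +kernel)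
def c7174 : PP 8 4 T 0x1001000000000000008440001555101140450400045500000040000141120800018 := rS 0xb74b0d99a643821102b15e1640c568ba4c4629 (k8 c794 c792 c1127 c4362 c790 c791 c1026 c7138 (k8 c1148 c3749 c4507 c6133 c7143 c1482 c497 c7044 (k2 c1168 c4597 k0))) (by decide +kernel)
def c7175 : PP 8 4 T 0x1001000000000000000200000000000000404410000000000000000000000000000 := rS 0x16084 (k2 c4507 c6133 (k1 c714 k0)) (by decide +kernel)
def c7176 : PP 8 4 T 0x21001000000000000008440001541500040454400045100000040000144100800018 := rS 0x31c8e491c0396115472dd7a6f38960101e0e866968711a4542252fa353e29 (k8 c794 c4384 c4383 c4382 c4381 c4329 c4327 c792 (k8 c3752 c4459 c8 c7174 c4466 c222 c223 c536 (k8 c1108 c7175 c1167 c2126 c4388 c4480 c1146 c1145 (k4 c4527 c1331 c411 c4200 k0)))) (by decide +kernel)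
def c7177 : PP 8 4 T 0x4000000000000000000000400200100000000 := rS 0x3a1f (k2 c393 c913 (k1 c4466 k0)) (by decide +kernel)
def c7178 : PP 8 4 T 0x21001000000000000008440041541500010404400041100000140404044100800018 := rS 0xfa633fc111717a5a1c5a9348a84be8d (k8 c4383 c4382 c4329 c4327 c1127 c7177 c3752 c4459 (k4 c4362 c7173 c4485 c4313 (k2 c4407 c4409 (k1 c7176 k0)))) (by decide +kernel)
def c7179 : PP 8 4 T 0x40000000000000001000000000000000000000000000000014000000000002000000000000001000000 := rS 0x11705 (k2 c4406 c1767 (k1 c4485 k0)) (by decide +kernel)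
def c7180 : PP 8 4 T 0x1000000000000008000400080100000000000000500000000000040080000008 := rS 0x22ab1472e1286f38a5cb111 (k8 c4337 c223 c1194 c536 c1108 c4958 c859 c858 (k2 c1203 c4388 (k1 c4480 k0))) (by decide +kernel)
def c7181 : PP 8 4 T 0x1000000000000008000400400000000000000200000000000000000000800000 := rS 0x5c1c22a965e254381f3fc1116b5098fdc829a1c45448d2fa461843029ad4a330dabccea930a7446832e89c8abf5dc605a931d94c5655449ccee214d9ec5c014c9e62e87a58661202 (k8 c1831 c4437 c8 c4459 c3752 c4362 c3968 c3743 (k8 c757 c1830 c1211 c7150 c836 c7167 c1087 c7172 (k8 c7179 c226 c3934 c1048 c1127 c7177 c4482 c4449 (k8 c4369 c4363 c876 c7171 c2001 c792 c2772 c2884 (k8 c2773 c2925 c2774 c9 c823 c3744 c43 c532 (k8 c3855 c7151 c4327 c4382 c4383 c7178 c4337 c4393 (k8 c778 c4468 c4287 c4401 c5129 c524 c4485 c4313 (k8 c7180 c4466 c2764 c7138 c4958 c4354 c7175 c4793 (k1 c1473 k0))))))))) (by decide +kernel)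
def c7182 : PP 8 4 T 0x400000000020100000000000000040048001001501101100000000000000010040000000420000008 := rS 0xd96e358aa5978394ac5d7ebb (k8 c4449 c4369 c4362 c2764 c1139 c7138 c4958 c4354 (k4 c1040 c1165 c4470 c4989 k0)) (by decide +kernel)
def c7183 : PP 8 4 T 0x20001002000000000000008000001581100010000000000000010040000104500800008 := rS 0x8a8e51cb84a25c6a370f075230c69c1116b509b1c7ee4468a68711498acaa87a58644a0f (k8 c4376 c224 c8 c4459 c3752 c7179 c226 c1127 (k8 c4337 c4393 c778 c1468 c4468 c4287 c4289 c4401 (k8 c5129 c524 c4485 c4961 c4467 c4327 c7182 c4466 (k8 c2130 c1099 c1194 c4958 c859 c858 c1201 c4388 (k1 c4470 k0))))) (by decide +kernel)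
def c7184 : PP 8 4 T 0x20100000000000000040008000044451501100000000000000002004000040080000008 := rS 0x1c2e22a8f892dd5a945aa5c6a3d1bc5e9743 (k8 c4421 c4459 c4362 c2130 c2131 c1099 c1194 c1702 (k8 c4958 c860 c1746 c4491 c4521 c4539 c4492 c4470 (k1 c1201 k0))) (by decide +kernel)
def c7185 : PP 8 4 T 0x20021002000000000000008000045501500010000000041100010040004104100800008 := rS 0x5a0e4381fa1921a647638fdc911320a4c67f8222d3e8d2fa85222b2aa1e9619649f54623 (k8 c792 c7183 c4379 c4305 c8 c4459 c3752 c7179 (k8 c226 c4327 c4329 c4382 c4383 c4384 c7140 c4485 (k8 c4313 c4407 c794 c2118 c4412 c4468 c4287 c4289 (k8 c4404 c5243 c4200 c4421 c7184 c4466 c1139 c7182 (k1 c1703 k0))))) (by decide +kernel)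
def c7186 : PP 8 4 T 0x1001000000008440500440000001501404000000401400000145420001008 := rS 0xcfa1a818e9f66d156ed0882f07851149c47e63031592b17a58ecf673 (k8 c1087 c1211 c1048 c4459 c4362 c2764 c790 c791 (k8 c7153 c3188 c496 c794 c1867 c4471 c2122 c4468 (k8 c4475 c1742 c4454 c2069 c4414 c461 c2110 c4423 (k2 c1795 c5846 k0)))) (by decide +kernel)
def c7187 : PP 8 4 T 0x8000400400000000000000200000000000000000000800000 := rS 0xd1288f8823d0f075ca7f4291c1a49694354625409f4de0f58bf0565516a2576bf22c60e67710a6cf7097893486ab5280432330dabccea930a762f4b3ca1c765349a644602419744e2e (k8 c1830 c876 c7171 c2001 c1831 c792 c3743 c1127 (k8 c3934 c1048 c3752 c3968 c4459 c4362 c2772 c2884 (k8 c2773 c2925 c2774 c9 c823 c8 c757 c3744 (k8 c3745 c3855 c3894 c4431 c4437 c1211 c7150 c836 (k8 c7167 c1087 c4482 c4363 c4369 c4449 c7172 c7177 (k8 c7179 c226 c7181 c4303 c4376 c4378 c4379 c4380 (k8 c224 c7183 c7185 c4467 c4281 c4371 c4374 c522 (k8 c4235 c6684 c7186 c4466 c2131 c1103 c4471 c1866 (k2 c458 c4475 k0)))))))))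 (by decide +kernel)
def c7188 : PP 8 4 T 0x20100102000000000000008000001551100100000000050000010040000114420000008 := rS 0x24218b5a1b4c909f129f41ec723b905639 (k8 c1140 c227 c4468 c4404 c4289 c4376 c4379 c224 (k8 c6237 c2110 c4281 c4421 c1703 c4467 c7182 c4328 k0)) (by decide +kernel)
def c7189 : PP 8 4 T 0x8000000400000000000000200000000000000000000800000 := rS 0x701baf13e2548c31fa064687012b72b07c7e96722852b11518ac522d5dafc42ac3119426518c26d107b459de0ab2139ae124d2194d4a9933aa53a2ea5a1c167911809065d (k8 c7171 c2001 c1831 c792 c3968 c572 c3752 c4459 (k8 c1830 c2772 c2773 c2925 c3743 c3744 c3934 c3855 (k8 c3894 c4437 c43 c876 c7187 c4311 c1192 c2481 (k8 c1212 c4485 c7150 c4482 c3773 c517 c556 c2041 (k8 c2040 c836 c4369 c4449 c917 c795 c227 c818 (k8 c4338 c860 c900 c4468 c4958 c4287 c1194 c816 (k8 c1166 c1185 c4466 c3201 c4462 c7188 c7151 c4327 (k4 c4381 c4384 c7138 c4597 (k2 c7175 c497 k0))))))))) (by decide +kernel)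
def c7190 : PP 8 4 T 0x8000000000000000008000000000000000000000000800000 := rS 0x8806 (k2 c520 c521 (k1 c3220 k0)) (by decide +kernel)
def c7191 : PP 8 4 T 0x40000000000004011002000000000000000040040040010014505400000000500004400145400800080 := rS 0x5ad0d40c74fae620b7658a478d072af0fe718aa148e0d24b4836f1589bcfabf8c024aa19 (k8 c8 c7179 c3 c4482 c4369 c4379 c4378 c4303 (k8 c4431 c9 c4467 c4281 c4371 c4374 c522 c7055 (k8 c496 c4235 c2122 c6684 c4475 c4471 c1760 c1750 (k8 c1742 c4468 c1208 c4414 c331 c2110 c4423 c1706 (k1 c4492 k0))))) (by decide +kernel)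
def c7192 : PP 8 4 T 0x440100000000000505404000000000000000808104000080 := rS 0x17a85389286e39 (k4 c1137 c320 c877 c497 (k2 c1320 c1859 (k1 c2122 k0))) (by decide +kernel)
def c7193 : PP 8 4 T 0x8000000040000000000400200000000000000040000800080 := rS 0xc750b912cb914a7d5862659942705441ad5e678bd2d0e7d16a4d323b29a54a23f2b0703e010c9248ebc38a141ad213afe306f5888537095da04c2831706c4a0f7e1ee1aa63c88cba02 (k8 c1831 c7171 c792 c3968 c7189 c4330 c7190 c7151 (k8 c4376 c224 c9 c1830 c2001 c2884 c1897 c3972 (k8 c4437 c7150 c836 c4303 c4378 c4482 c4369 c7192 (k8 c4467 c4371 c522 c496 c2122 c4374 c4281 c8 (k8 c757 c1098 c4466 c790 c3188 c1867 c2764 c3934 (k8 c1048 c3743 c1127 c7177 c4379 c3752 c4459 c4362 (k8 c2925 c2774 c43 c7191 c4314 c517 c556 c3927 (k8 c2041 c2040 c6237 c795 c1208 c4809 c7142 c899 (k2 c4289 c2110 k0))))))))) (by decide +kernel)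
def c7194 : PP 8 4 T 0x4000000000000000000000000000000000000000040000000000000000080020000019 := rS 0x414c654 (k4 c226 c1607 c4406 c5134 k0) (by decide +kernel)
def c7195 : PP 8 4 T 0x8000000000000000000400200000000000000000000800080 := rS 0xb965285442b484541ad213a34381f0486de20535804331711a0d02615d8845c8f4dac4de2507bf0bb0d53008e6bf8c1ee1279 (k8 c3968 c4437 c7190 c4482 c4369 c1087 c1831 c7189 (k8 c4330 c7171 c7151 c4376 c224 c4378 c4303 c7150 (k8 c852 c1830 c836 c3972 c2884 c1897 c2001 c792 (k8 c4362 c8 c757 c43 c532 c4431 c9 c3 (k8 c1098 c4466 c1028 c7192 c4467 c4371 c7055 c4486 (k4 c7194 c7193 c132 c941 (k2 c1206 c2029 k0))))))) (by decide +kernel)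
def c7196 : PP 8 4 T 0x10000000000000000000000000000000002000000000000000000004001400800000 := rS 0x6989c184e (k4 c523 c522 c448 c4371 (k1 c4467 k0)) (by decide +kernel)
def c7197 : PP 8 4 T 0x8000000000000000000000200000000000000000000800000 := rS 0x71489603c450ec600e7742894de0f58a3c42fc4d9ed030d5320c465d3cc25e2434c80432330d9845c02 (k8 c1831 c1830 c2884 c9 c823 c8 c757 c3743 (k8 c3855 c4431 c4437 c3968 c7171 c792 c2001 c7189 (k8 c4330 c1897 c7190 c7150 c7151 c836 c852 c4303 (k8 c4376 c4378 c224 c7196 c7167 c7195 c4482 c791 (k4 c4363 c4466 c223 c1154 (k2 c537 c5989 k0)))))) (by decide +kernel)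
def c7198 : PP 8 4 T 0x1000001000000000000000000800501001505400001020000040000000080000000 := rS 0x589c4defc479748b18 (k8 c4482 c4363 c813 c852 c5558 c1108 c537 c4303 (k1 c5989 k0)) (by decide +kernel)
def c7199 : PP 8 4 T 0x200000480000000000400200100001000000000080800000 := rS 0x32c150cb34922ceaad689cd12956798e871155a655e6754a745c972c020049b62b06307b0380433093c95c0a6ba2b3572c3 (k8 c7197 c1207 c2068 c4454 c43 c532 c1066 c1961 (k8 c4437 c8 c757 c1098 c520 c4482 c4450 c4370 (k8 c7150 c1831 c222 c223 c3206 c1830 c2772 c2773 (k8 c2925 c2774 c3743 c3745 c4337 c4393 c818 c1523 (k8 c859 c2041 c1110 c5846 c6601 c539 c525 c2127 (k4 c1124 c2123 c4410 c1652 (k1 c4478 k0))))))) (by decide +kernel)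
def c7200 : PP 8 4 T 0x100000000000000015000144041500808000400044400001400000005480804008 := rS 0x164b64a281269f880ad8e2d56994ea544b9601029 (k8 c794 c222 c223 c3206 c1837 c1693 c1652 c1905 (k8 c2165 c250 c227 c4478 c6233 c4413 c2110 c2127 (k2 c851 c5073 (k1 c1163 k0)))) (by decide +kernel)
def c7201 : PP 8 4 T 0x400000000004001100000000000000005000905544000814000000000000000000000000000000000 := rS 0x3299ea15a5296e8b (k8 c723 c1163 c4485 c4521 c851 c4430 c4855 c1708 k0) (by decide +kernel)
def c7202 : PP 8 4 T 0x1102000000000080005000105540021814000040000020000001050011500000000 := rS 0xe588990e8b3a1a7c5a2b8b8e51b15 (k8 c4388 c71 c4279 c4418 c1694 c854 c1699 c4563 (k4 c7201 c4481 c538 c4412 (k2 c6062 c4468 k0))) (by decide +kernel)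
def c7203 : PP 8 4 T 0x100000000000001015000400050000814005540000000001400000015480800008 := rS 0x31c569f16b40aab51fa2a2c19 (k8 c8 c4481 c2123 c4355 c4419 c1767 c525 c392 (k4 c1427 c226 c461 c2110 k0)) (by decide +kernel)
def c7204 : PP 8 4 T 0x1102000000000081004000045541100810005440044400000000000005480800008 := rS 0x1586549ac942754aa1c42371ea5c6a912c26d8ac18c1248eb11c8201e29 (k8 c794 c4376 c222 c4279 c1145 c4374 c4281 c4482 (k8 c4450 c4370 c7150 c223 c3167 c3111 c3206 c2131 (k8 c2130 c57 c7200 c7202 c539 c850 c7203 c1124 (k2 c553 c2127 (k1 c4903 k0))))) (by decide +kernel)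
def c7205 : PP 8 4 T 0x1000001015000400040010814005440000020001400004055400800000 := rS 0x4f4418e2d682294275 (k8 c539 c850 c2123 c525 c456 c461 c4468 c2110 (k1 c4414 k0)) (by decide +kernel)
def c7206 : PP 8 4 T 0x2000000000081000000000440000800000440204400000000000001480800000 := rS 0x509956f101f27c5b174a0adca872a9fd670414a2556a54c8cc36af33aa4c29d618847a3b0416004c560c60f6070086612792b814d627170e4924764974fa8d (k8 c71 c4379 c4377 c4305 c4374 c4281 c4279 c1830 (k8 c876 c43 c532 c1066 c1961 c4437 c8 c757 (k8 c1098 c520 c4482 c4450 c4370 c1831 c223 c222 (k8 c3112 c2131 c57 c7197 c2772 c2884 c2773 c2925 (k8 c2774 c9 c823 c3743 c3744 c3745 c2041 c794 (k8 c7204 c4311 c4313 c4406 c4410 c4961 c226 c7205 (k8 c4418 c854 c1699 c4471 c4468 c1161 c4412 c851 (k1 c2118 k0)))))))) (by decide +kernel)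
def c7207 : PP 8 4 T 0x102000000000080001000100440421804000140200020000001050001500800040 := rS 0x2809a2564ad8bc2556a5548b804c3 (k8 c7197 c1831 c1830 c2773 c3744 c3745 c4437 c4418 (k4 c860 c4481 c2040 c512 (k2 c7202 c795 k0))) (by decide +kernel)
def c7208 : PP 8 4 T 0x10000000000000000015000044045555800000000000000000000150141400000008 := rS 0x2842988ab14315 (k4 c4388 c850 c2127 c4338 (k2 c2771 c4489 (k1 c4563 k0))) (by decide +kernel)
def c7209 : PP 8 4 T 0x10002000000000001000000000440000800000440200400000000000001480800000 := rS 0x50b1c52b72a2c90d174a27cea93158b60a6255a655e9d618846e3d4b8d522584db1583183d81c0219849e4ae05359248eb11cb484e2e040081e7d (k8 c4379 c4376 c1831 c222 c1830 c876 c4467 c4279 (k8 c1145 c4374 c4281 c43 c532 c1066 c1961 c4437 (k8 c8 c757 c1098 c520 c4482 c4450 c4370 c7150 (k8 c223 c3167 c3111 c3206 c2131 c2130 c57 c7197 (k8 c2772 c2774 c3743 c3745 c7206 c4407 c2800 c1607 (k8 c1608 c1689 c1610 c7208 c4418 c7207 c7043 c1837 (k4 c1163 c1599 c250 c851 (k1 c2110 k0))))))))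 (by decide +kernel)
def c7210 : PP 8 4 T 0x10000000000000000000000000000000000500410200000000000000001480800000 := rS 0x2869f15c454229169892495098fce4a366af0be5b61854763524974fb15471bdf8451b90576b11cb484ea74da44c29921bc45c082c0090a330dafe307b0380433093c95c0a6b (k8 c43 c532 c1066 c1961 c4437 c8 c757 c1098 (k8 c520 c4482 c4369 c9 c823 c7196 c1831 c223 (k8 c222 c1830 c4431 c3855 c3743 c2884 c3167 c7150 (k8 c7198 c876 c4467 c4279 c1145 c4449 c1103 c2130 (k8 c4363 c7147 c4378 c6353 c4388 c4379 c4377 c4281 (k8 c3111 c3112 c2346 c7197 c2835 c1425 c2122 c2068 (k8 c7199 c7209 c1082 c1560 c1617 c1109 c1110 c392 (k4 c795 c850 c4413 c1607 (k2 c1610 c4563 (k1 c4489 k0)))))))))) (by decide +kernel)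
def c7211 : PP 8 4 T 0x10000000000000000015000044045551800000000000000000000550141400000008 := rS 0x2842988a494315 (k4 c4388 c850 c7208 c4413 (k2 c1568 c4489 (k1 c4563 k0))) (by decide +kernel)
def c7212 : PP 8 4 T 0x10002000000000000011000100440041800000000208024000001450001500800040 := rS 0x142c714adca8b2431ce2e944f9d4562d82aac0a6b4c80432af2da7404c34d9ecf3091c9248ed2138b81e7d (k8 c4379 c4376 c1830 c876 c4467 c4374 c4281 c4279 (k8 c4437 c1961 c520 c7150 c7197 c1831 c2772 c2835 (k8 c2774 c8 c757 c3743 c43 c532 c3745 c4407 (k8 c2800 c1607 c1689 c1610 c7211 c4418 c1617 c7207 (k4 c4481 c1837 c1163 c1599 (k2 c250 c851 (k1 c2110 k0))))))) (by decide +kernel)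
def c7213 : PP 8 4 T 0x400000000000000000000000000000000000000050020800000000000000001400040155400000000 := rS 0x168c65bc5d3e8d (k4 c71 c1699 c4418 c1746 (k2 c2110 c4521 (k1 c1431 k0))) (by decide +kernel)
def c7214 : PP 8 4 T 0x2000000000080000000000040021800000060000020000001450015500000000 := rS 0x724107eb33aad96a655050d3e2d15c5c724923b251b15 (k8 c4388 c71 c4305 c4374 c4281 c4279 c4418 c1694 (k8 c854 c1699 c4563 c7213 c1736 c1707 c851 c538 (k4 c667 c1161 c4481 c4471 (k1 c4961 k0)))) (by decide +kernel)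
def c7215 : PP 8 4 T 0x10002000000000080015000044041551800000160040000000001450151500000008 := rS 0x1058bacdc8b73fc453c39 (k8 c4279 c7211 c4414 c1394 c5142 c4468 c666 c5381 (k2 c4961 c4481 k0)) (by decide +kernel)
def c7216 : PP 8 4 T 0x15000000000000010005540000000000000000a00080800200 := rS 0x116b343940aa1b (k4 c9 c2165 c917 c1837 (k2 c1186 c1591 (k1 c2123 k0))) (by decide +kernel)
def c7217 : PP 8 4 T 0x10002000000000000000000000440000800000420200000000000000001480800000 := rS 0x45a1d6654320fc542d3aa54e6294498d56995799d3ac3108dc7a3b4b8d522584db1583183d81c0219849e4ae0535ac472d2138b81002 (k8 c1831 c222 c1830 c876 c4467 c4279 c1145 c43 (k8 c532 c1066 c1961 c4437 c8 c757 c1098 c520 (k8 c4482 c4450 c4370 c7150 c223 c3167 c3111 c3206 (k8 c3112 c2131 c2130 c57 c7197 c2772 c2925 c2774 (k8 c3743 c3745 c7212 c2041 c794 c1110 c7214 c539 (k8 c7216 c7215 c2136 c227 c226 c1185 c1652 c1767 (k1 c2123 k0))))))) (by decide +kernel)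
def c7218 : PP 8 4 T 0x10000000000000000000000000000000000500400200000000000000001480800000 := rS 0x8b439d56673449f8c8955a98d44b92f1c11c6f2eac5f8396909d4ef121aacc22e618dc82994ba44b0080126c8abf62aed83183d81c0219849e4ae0535a14661b (k8 c9 c823 c7196 c43 c532 c1066 c1961 c4437 (k8 c8 c757 c1098 c520 c4482 c4450 c4449 c4370 (k8 c4369 c4363 c7150 c1831 c222 c223 c3167 c3206 (k8 c3743 c1103 c2130 c7197 c1830 c2884 c3745 c3855 (k8 c4431 c7198 c876 c4467 c4279 c7147 c1145 c4377 (k8 c4378 c6353 c7210 c536 c3450 c7217 c818 c1436 (k8 c859 c1466 c1465 c2041 c1110 c667 c539 c1652 (k2 c724 c2123 k0)))))))) (by decide +kernel)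
def c7219 : PP 8 4 T 0x10000000000000000000000000000000000200000000000000110000801480800008 := rS 0x6989d7a4f5386de261 (k8 c2884 c4431 c9 c1897 c1360 c3749 c876 c6426 (k1 c4467 k0)) (by decide +kernel)
def c7220 : PP 8 4 T 0x1000000000000000004000000880000011805400040020000000000000000000000 := rS 0x2ca088ba59ccea87652b0c6953eb158318 (k8 c4482 c4450 c4370 c1354 c2860 c2806 c940 c941 (k8 c2005 c539 c1110 c4458 c1753 c4485 c2123 c4312 k0)) (by decide +kernel)
def c7221 : PP 8 4 T 0x15000844001550010000000040000000000000000000000000 := rS 0x561952705 (k4 c4311 c1124 c553 c2127 (k1 c4903 k0)) (by decide +kernel)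
def c7222 : PP 8 4 T 0x110000000001000000000011000050000000000000000000001404100110080000008 := rS 0x18c2a5b8846e3d1d8d4b008 (k8 c222 c223 c3111 c3112 c2131 c2130 c57 c5964 (k2 c4468 c2113 (k1 c2137 k0))) (by decide +kernel)
def c7223 : PP 8 4 T 0x200000000000000000015000044001550000000000000000000000000000000000000 := rS 0x126ad (k2 c4338 c4413 (k1 c2127 k0)) (by decide +kernel)
def c7224 : PP 8 4 T 0x110000000000000080000010000050008400000000000000000000000110080000008 := rS 0x72ad47e3d2491d6e391d820b021 (k8 c57 c223 c222 c3112 c4279 c5964 c4374 c4281 (k4 c2131 c1122 c1659 c5350 (k1 c7222 k0))) (by decide +kernel)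
def c7225 : PP 8 4 T 0x10000000000000080015000004050510410005440000000000000000810080800008 := rS 0x1cab51fc5926b95bc445a7557a74423d1da5d2258040e49247 (k8 c4374 c4281 c4279 c222 c223 c3167 c3206 c3112 (k8 c2131 c57 c2772 c2774 c539 c7216 c7223 c5964 (k4 c5821 c7224 c4487 c4355 (k2 c4419 c5245 (k1 c7222 k0))))) (by decide +kernel)
def c7226 : PP 8 4 T 0x95000000000000010805440000020400000000150000800200 := rS 0xe86545acd0f1067955ca7f (k8 c676 c4289 c251 c1520 c4468 c1837 c1186 c645 (k2 c4412 c2123 (k1 c538 k0))) (by decide +kernel)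
def c7227 : PP 8 4 T 0x10000000000000000015000004040500410805400004200400000000801480800008 := rS 0x1688c4f31c5a2b4a284e62910820b03d2491da427 (k8 c2789 c4467 c4374 c4281 c2131 c223 c222 c57 (k8 c794 c1110 c810 c7225 c1694 c854 c7226 c2110 (k2 c1699 c1698 (k1 c3323 k0)))) (by decide +kernel)
def c7228 : PP 8 4 T 0x100000000000000080000000000000000040000000000000000000000000140000 := rS 0xaae5 (k2 c4289 c251 (k1 c4464 k0)) (by decide +kernel)
def c7229 : PP 8 4 T 0x15000100020000050805500009220000000000000000000000 := rS 0xe4b349a1d907d (k4 c1625 c811 c2005 c3656 (k2 c634 c2123 (k1 c1109 k0))) (by decide +kernel)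
def c7230 : PP 8 4 T 0x54000000040000008000001400000155400100000 := rS 0x3182705 (k4 c4407 c1558 c2110 c7228 k0) (by decide +kernel)
def c7231 : PP 8 4 T 0x10000000000000000000000000000000000000400200000000000000001480800000 := rS 0x9459a4c242850ab53e7515a2c5a6251ac48e491cb48fe2747a24be5c5320902855594c661b5799cc29d1730c2a414c8ed2e5804009364562b06307b0380433093c95c0a6b (k8 c43 c532 c1066 c1961 c4437 c8 c757 c1098 (k8 c520 c4482 c4450 c4370 c4363 c7150 c1831 c222 (k8 c223 c3206 c3112 c3743 c1103 c2346 c7197 c1830 (k8 c2772 c2884 c2925 c2774 c9 c823 c3934 c3745 (k8 c7196 c7219 c7218 c2000 c2001 c548 c7169 c852 (k8 c2789 c676 c4467 c4279 c4281 c4374 c1145 c7220 (k8 c7227 c2800 c1768 c1607 c1689 c1611 c821 c7229 (k4 c7230 c795 c1568 c512 (k2 c2127 c6877 k0))))))))) (by decide +kernel)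
def c7232 : PP 8 4 T 0x10000000000000000000000000000000000000400200000000000000000480800000 := rS 0x3f10681071784909218b94a990e88422023c95c0a6b3d81c0219 (k8 c8 c757 c1098 c520 c43 c532 c1066 c1961 (k8 c1831 c2302 c57 c10 c3743 c3744 c1830 c3855 (k8 c4437 c7231 c225 c224 c1381 c548 c7149 c4376 k0))) (by decide +kernel)
def c7233 : PP 8 4 T 0x400200000000000000000880800000 := rS 0x2f0e2fd429bd6281419709e0c53935522e1a96010025faee307b0380433093c95c0a6b (k8 c43 c532 c1066 c1961 c4437 c8 c757 c1098 (k8 c520 c4482 c4449 c4369 c1831 c222 c223 c3111 (k8 c1830 c2773 c3894 c773 c793 c1489 c792 c2000 (k8 c1294 c504 c1289 c523 c4377 c1418 c2122 c4507 k0)))) (by decide +kernel)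
def c7234 : PP 8 4 T 0x20000001000000004400000045140000000000000000000404000000020000000008 := rS 0x50663455ae5a5a7d4ea1 (k8 c4329 c4330 c4384 c4855 c4402 c2771 c1760 c2128 (k2 c4475 c1868 k0)) (by decide +kernel)
def c7235 : PP 8 4 T 0x1000000000000000000010040000000140400200000000000000000080800000 := rS 0x63340568a2a925667d23a1e86cc16a2586c56089c4ab9278e06ad3229048637a5a7d422965b3e8885258396115472f5069d4ca6d22a75faee307b0380433093c95c0a6b3897cde8d2c022182354abc5ca52980956f1 (k8 c4431 c3745 c1831 c3934 c3744 c1830 c2774 c2773 (k8 c7233 c7232 c222 c223 c4383 c1107 c4382 c536 (k8 c43 c532 c1066 c1961 c4437 c8 c757 c1098 (k8 c520 c4482 c4449 c4369 c4330 c3167 c7150 c3743 (k8 c2772 c2000 c7175 c2126 c4388 c4480 c1146 c1333 (k8 c715 c4484 c4400 c4455 c7234 c4329 c4384 c4855 (k8 c2130 c3855 c1103 c4363 c7147 c3111 c4470 c451 (k8 c3213 c4381 c4323 c4450 c4370 c7197 c2040 c916 (k8 c2128 c4395 c3753 c1318 c1358 c4531 c4527 c7179 (k4 c4774 c226 c525 c2110 (k1 c460 k0))))))))))) (by decide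 +kernel)
def c7236 : PP 8 4 T 0x40000000000000101001000000000002004010000000000004545504000000004000000810000800008 := rS 0x72048568a2a8b56673449f4a3430cb158318 (k8 c4482 c4450 c4370 c8 c4395 c1868 c1357 c4529 (k8 c4956 c4531 c917 c7179 c2123 c226 c524 c4468 (k1 c4401 k0))) (by decide +kernel)
def c7237 : PP 8 4 T 0x40000000000000001000000000000005004000044041150814005400040020001000004015400808008 := rS 0x49c847450ad667d39954329b62b063075 (k8 c539 c4482 c4450 c4370 c7150 c8 c7179 c4683 (k8 c4634 c7221 c226 c2123 c1331 c7205 c524 c4401 k0)) (by decide +kernel)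
def c7238 : PP 8 4 T 0x400000000000101001000000000000004000620000000000415500000000000000000810080800008 := rS 0x72048568a16955127f0c8218ac18c1ce9687 (k8 c3751 c4458 c1150 c4482 c4450 c4370 c222 c8 (k8 c674 c4529 c7179 c7216 c2123 c226 c524 c4468 (k1 c4401 k0))) (by decide +kernel)
def c7239 : PP 8 4 T 0x100000000000000000000000800000050000000000040000000000000000000000000 := rS 0x12717 (k2 c4357 c1124 (k1 c4487 k0)) (by decide +kernel)
def c7240 : PP 8 4 T 0x400000000000001000000000000040044000400000000014405540000000000400000000000808000 := rS 0xe52484a968a0cb158318 (k8 c4482 c4450 c4370 c8 c2123 c4427 c524 c4527 (k2 c4401 c4473 k0)) (by decide +kernel)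
def c7241 : PP 8 4 T 0x1001000000000044404000204594100000505400000000000000200800480800008 := rS 0x642198e3f490b512ad3faccea734aad4fa2923d0e22af33aa53a972c26d8ac18c2e41c08 (k8 c222 c1146 c3213 c4482 c4450 c4370 c7150 c223 (k8 c3206 c2772 c2773 c2925 c2774 c4337 c4393 c1313 (k8 c778 c1354 c1436 c859 c1150 c627 c7239 c674 (k8 c7238 c4529 c916 c2127 c1122 c410 c7240 c4948 (k1 c1733 k0))))) (by decide +kernel)
def c7242 : PP 8 4 T 0x100001000000000000000000000000000000140500200000000000000000080800000 := rS 0x564716988ca1328a219a494aa1d58330d99c2a9713895734b14a8c7035699146e4121a7d42c365b3e8885258396115472f5069d4ca6d22a75faee307b0380433093c95c0a6b3897cde8d2c022182354abc5ca52980956f1 (k8 c4431 c3745 c1831 c3934 c3744 c1830 c2774 c2773 (k8 c7233 c7232 c222 c223 c4383 c1107 c4382 c536 (k8 c43 c532 c1066 c1961 c4437 c8 c757 c1098 (k8 c520 c4482 c4449 c4369 c4330 c3167 c7150 c3743 (k8 c2772 c2000 c7175 c2126 c4388 c4480 c1146 c1333 (k8 c715 c4484 c4400 c4455 c7197 c4329 c4384 c3855 (k8 c1103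 c2130 c4363 c7147 c3111 c4470 c7241 c7234 (k8 c4855 c3213 c4381 c4323 c3206 c2346 c2925 c9 (k8 c823 c7235 c3751 c860 c4527 c7236 c7237 c3773 (k4 c517 c556 c2041 c917 (k2 c1332 c227 (k1 c7230 k0)))))))))))) (by decide +kernel)
def c7243 : PP 8 4 T 0x200000000000080000000000000000000000000000200 := rS 0x16cb2 (k2 c674 c675 (k1 c3173 k0)) (by decide +kernel)
def c7244 : PP 8 4 T 0x1000000000000000000000000000000100400200000000000000000080800000 := rS 0x1d12b11561fd46cb67d110a38584551cbd6990d56a554a745cc31b90532354882136455faee307b0380433093c95c0a6b50a7d06a73897cde8d8608cb002 (k8 c1831 c223 c7233 c7232 c4383 c1107 c4382 c536 (k8 c4330 c2000 c4384 c4329 c43 c532 c1066 c1961 (k8 c4437 c8 c757 c1098 c520 c4482 c4449 c4369 (k8 c4363 c7150 c222 c3167 c3111 c3743 c1103 c2130 (k8 c7197 c1830 c2772 c2773 c3744 c3745 c3855 c7147 (k8 c7175 c2126 c4388 c4480 c4470 c715 c4484 c4400 (k8 c4455 c7241 c7243 c7235 c4338 c860 c7242 c539 k0))))))) (by decide +kernel)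
def c7245 : PP 8 4 T 0x20040440100014020000505414000000010514200155400800000 := rS 0x9745242f146cb42ae49ef1 (k8 c4431 c450 c1201 c523 c1751 c859 c2122 c2110 (k2 c4454 c1858 (k1 c4599 k0))) (by decide +kernel)
def c7246 : PP 8 4 T 0x20000002000000000000004000000415401100505610000060410051450005480800010 := rS 0x47c5073126834ca24709b1c7ee415ab45311169fcaa943224c36f122afd8abb609bd627d (k8 c4379 c4303 c1107 c4450 c4449 c4370 c4369 c4363 (k8 c4431 c9 c1657 c538 c539 c1686 c594 c393 (k8 c4412 c1567 c860 c1694 c4468 c4287 c4289 c4401 (k8 c4404 c4405 c6684 c2115 c6715 c7245 c4470 c4388 (k1 c4539 k0))))) (by decide +kernel)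
def c7247 : PP 8 4 T 0x2000000000000000000000440001501501100000000000000000000000000000000000 := rS 0x11ebd (k2 c4354 c4388 (k1 c2126 k0)) (by decide +kernel)
def c7248 : PP 8 4 T 0x1000000000001000000001000000040000000000000000000000000000000014100050000000000000 := rS 0x9c38 (k2 c4470 c4474 (k1 c450 k0)) (by decide +kernel)
def c7249 : PP 8 4 T 0x5000000000000000000000014000054001000000000000000001400150155400000000 := rS 0x2d18d43 (k4 c4563 c2110 c4492 c1431 k0) (by decide +kernel)
def c7250 : PP 8 4 T 0x1000000000000000000000010000014021400000000000004001401150005500000048 := rS 0x5904850a35b8b45717 (k8 c4418 c1694 c854 c1747 c858 c7249 c795 c6877 (k1 c512 k0)) (by decide +kernel)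
def c7251 : PP 8 4 T 0x15000044001550000000000000000000000400020000000008 := rS 0x126ad (k2 c2771 c1568 (k1 c2127 k0)) (by decide +kernel)
def c7252 : PP 8 4 T 0x1015000444055554040005500400020401551400105400800008 := rS 0x2b63995a0881f9450f16561ce2229 (k8 c7251 c7223 c1109 c2127 c4487 c3751 c1865 c4355 (k4 c2123 c2115 c556 c461 (k2 c227 c2110 k0))) (by decide +kernel)
def c7253 : PP 8 4 T 0x1010000020054408000000000200000001510400115500800000 := rS 0x892a19054c7681450f4b35c2432430114d863f (k8 c1122 c7197 c3934 c1831 c3855 c8 c4437 c43 (k8 c4458 c3751 c1865 c4188 c461 c2110 c227 c226 (k2 c556 c7179 k0))) (by decide +kernel)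
def c7254 : PP 8 4 T 0x15000404000000050005500020004000000000000000000000 := rS 0x10e73 (k2 c1649 c1652 (k1 c2123 k0)) (by decide +kernel)
def c7255 : PP 8 4 T 0x400100400200000000000000100080800000 := rS 0x394566544ab5248b1986cea712fa0cb65321b35465d7e2ce226714a548e491cb489641a29149af15caf22a8d53aed7ea952a7c4aa113c3046911a8f46e2160b16309b3d81c02193c95c0a6b84a5c76082c30d3aaf1726404ab (k8 c3745 c1831 c3743 c1830 c2774 c2772 c7197 c223 (k8 c222 c3112 c3206 c4437 c43 c532 c1066 c1961 (k8 c8 c757 c1098 c520 c7150 c4482 c4370 c4450 (k8 c57 c2130 c2131 c3111 c3167 c7233 c7232 c4323 (k8 c4329 c4381 c4384 c3744 c2773 c4369 c4449 c4330 (k8 c4383 c7247 c2126 c1207 c4431 c3894 c4363 c4454 (k8 c1103 c1858 c7248 c4279 c4281 c4374 c7250 c7251 (k8 c2925 c7223 c7239 c7244 c4377 c7199 c2068 c3855 (k8 c3934 c2835 c2000 c4382 c536 c7246 c9 c823 (k8 c7140 c7252 c7253 c2040 c7254 c227 c5243 c4468 k0)))))))))) (by decide +kernel)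
def c7256 : PP 8 4 T 0x400100400200000000000000000080800000 := rS 0x39a250e632a8b167114a91c9239692e497455e3c556214b9158ac18aaed7ea952a2d5e672e8cc36757e1c4be834fa344aa75089e18238c26e12911a8ec107b0380432792b905323d2c0dd869d2d8085c053594c864d (k8 c3894 c3855 c3934 c43 c532 c1830 c1831 c2835 (k8 c2772 c7197 c2130 c223 c2131 c3743 c1103 c1066 (k8 c1961 c8 c757 c1098 c520 c222 c3112 c3111 (k8 c3167 c4437 c7150 c4482 c7233 c7232 c4323 c4329 (k8 c4330 c4381 c4383 c4384 c2000 c4382 c536 c7244 (k8 c7246 c9 c823 c4377 c2925 c2774 c7140 c3744 (k8 c2773 c4369 c4449 c7247 c4450 c4370 c4363 c3206 (k8 c57 c3745 c4431 c2126 c4454 c1858 c1207 c7248 (k8 c4279 c4281 c4374 c7250 c7223 c7239 c7255 c2165 (k4 c2800 c1837 c2041 c1110 (k1 c2123 k0))))))))))) (by decide +kernel)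
def c7257 : PP 8 4 T 0x15000000000000010005500000020000000000a00080800200 := rS 0xe463 (k2 c2800 c7216 (k1 c1110 k0)) (by decide +kernel)
def c7258 : PP 8 4 T 0x101000000000000000004000404000000050005500000004400050000810080800008 := rS 0x296726821ca23f720b456651e8ec105822b158318 (k8 c4482 c4450 c4370 c4363 c223 c222 c3112 c2131 (k8 c7254 c227 c7257 c4468 c4287 c4405 c1836 c2115 (k2 c2123 c4426 (k1 c4683 k0)))) (by decide +kernel)
def c7259 : PP 8 4 T 0x10000100400200000000000000000080800000 := rS 0x66d15788567d0c9e481c11d8ed37228c562d3132cca51a5a2052b388aad2e4562b04df155dafd52a558a2d5e672e8cc36757e1c4be834fa344aa75089e18238c26e12911a8ec107b0380432792b905323d2c0dd869d2d8085c053594c864d (k8 c3894 c3855 c3934 c43 c532 c1830 c1831 c2835 (k8 c2772 c7197 c2130 c223 c2131 c3743 c1103 c1066 (k8 c1961 c8 c757 c1098 c520 c222 c3112 c3111 (k8 c3167 c4437 c7150 c4482 c7233 c7232 c4323 c4329 (k8 c4330 c4381 c4383 c4384 c2000 c4382 c536 c7244 (k8 c7246 c9 c823 c4377 c2925 c2774 c7140 c4303 (k8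 c3744 c2773 c4369 c4449 c7247 c1107 c4450 c4370 (k8 c4363 c3206 c3745 c7223 c7239 c7251 c7258 c4457 (k8 c3773 c556 c3927 c2041 c917 c227 c818 c4468 (k8 c5243 c4289 c4404 c4470 c2110 c450 c4421 c1791 (k4 c523 c2122 c4454 c2068 (k1 c4495 k0)))))))))))) (by decide +kernel)
def c7260 : PP 8 4 T 0x101000000000000000004000004000000050005500000004400050000950080800008 := rS 0x1f3916408 (k4 c222 c7258 c4468 c1185 (k1 c4288 k0)) (by decide +kernel)
def c7261 : PP 8 4 T 0x20000000000000004000000000020000000048 := rS 0x16412 (k2 c795 c6877 (k1 c512 k0)) (by decide +kernel)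
def c7262 : PP 8 4 T 0x10800054000000010000000000000000000155400004200 := rS 0xc723924a83e (k4 c1185 c1186 c371 c1602 (k2 c250 c2110 k0)) (by decide +kernel)
def c7263 : PP 8 4 T 0x100400200000000000000000080800000 := rS 0x21d66b951c405289398b456ad8ba511c75459f4ba0f7e13486ab298cc36af2d99d3a2e618846e3d20a6476354882136c560c60f6070086612792b814d627508951a9f41a9ce25f8608cb002 (k8 c1831 c223 c7233 c7232 c4382 c536 c4330 c2000 (k8 c4384 c4383 c4381 c4329 c4323 c43 c532 c1066 (k8 c1961 c4437 c8 c757 c1098 c520 c4482 c4450 (k8 c4370 c7150 c222 c3167 c3111 c3112 c3743 c1103 (k8 c2131 c2130 c57 c7197 c1830 c2772 c2925 c2835 (k8 c2774 c9 c823 c3934 c3745 c3855 c3894 c7244 (k8 c4376 c4377 c4379 c7140 c7246 c7256 c7259 c4418 (k8 c860 c1694 c854 c1617 c2040 c7261 c7260 c4337 (k4 c1475 c7262 c7043 c2123 k0))))))))) (by decide +kernel)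
def c7264 : PP 8 4 T 0x200000000000000004415040045515540800000000000000000000000000000000000 := rS 0x16f17662515aa3 (k4 c4337 c4338 c7223 c2128 (k2 c4418 c1746 (k1 c4533 k0))) (by decide +kernel)
def c7265 : PP 8 4 T 0x4400050045514420800000000000000000000000000000000000 := rS 0xcc51add5b17 (k4 c4418 c860 c1746 c859 (k2 c2128 c4533 k0)) (by decide +kernel)
def c7266 : PP 8 4 T 0x10040000000000400200000000000000000080800000 := rS 0xc73991d0f431f9f5989216a24a6836993c82451c1d566955cac1fb153897cdf116792836f1072397a915fa3596804fa9d430c11b0576c58c26cf60700864f257029ae12c34eaa55e9952aad2e580419c042e (k8 c1830 c1831 c2925 c222 c223 c3206 c3745 c3744 (k8 c3743 c2774 c2773 c2772 c7197 c4437 c43 c532 (k8 c1066 c1961 c8 c757 c1098 c520 c7150 c4482 (k8 c4370 c4449 c4450 c7233 c7232 c4329 c4330 c4384 (k8 c7263 c3750 c4383 c4369 c3167 c3749 c2126 c1835 (k8 c4431 c9 c6395 c3318 c7264 c1107 c4382 c536 (k8 c7247 c4380 c4480 c3213 c7265 c7239 c539 c1145 (k8 c4363 c1103 c1360 c6426 c2000 c3934 c2040 c916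 (k8 c2127 c2128 c1358 c1122 c4395 c3753 c1318 c1150 (k2 c410 c7240 k0)))))))))) (by decide +kernel)
def c7267 : PP 8 4 T 0x2000000000040000000000400200000000000000000080800000 := rS 0x2d15989c8654431cf847a194c2a2712b4c9e41229fceab38899c52955cac1fb153897cde8e5ea457e8d5db058b184d9ec0e013c95c0a6b4b8ec105861a755e9924a1d5909a5b3c941b788641c9f52aad522e01285968041a9e1823 (k8 c7233 c7232 c4330 c2000 c7263 c3750 c4329 c1831 (k8 c1830 c2773 c3745 c3744 c4384 c1835 c8 c4431 (k8 c9 c6395 c3318 c4855 c4437 c7266 c3751 c4527 (k8 c3743 c2774 c2772 c7197 c223 c222 c3112 c3206 (k8 c43 c532 c1066 c1961 c757 c1098 c520 c7150 (k8 c4482 c4370 c4450 c4449 c4383 c4369 c3167 c3749 (k8 c2126 c1107 c4382 c536 c7247 c4380 c4480 c3213 (k8 c7265 c7251 c2925 c7264 c7239 c539 c3428 c4363 (k8 c1103 c1360 c6426 c4381 c4323 c2346 c3934 c4395 (k8 c1318 c7238 c3336 c4634 c1650 c4473 c2041 c227 (k2 c4285 c7230 k0))))))))))) (by decide +kernel)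
def c7268 : PP 8 4 T 0x40000000000400200000000000000000080800000 := rS 0x44b3492875652c66671389506294aae560fd8a9c4be6f6792836f1072397a915fa3596804fa9d430c11aed52a560b16309b3d81c02193c95c0a6b84a5c76082c30d3aaf1726404ab (k8 c3745 c1831 c3743 c1830 c2774 c2772 c7197 c223 (k8 c222 c3112 c3206 c4437 c43 c532 c1066 c1961 (k8 c8 c757 c1098 c520 c7150 c4482 c4370 c4450 (k8 c3744 c2773 c4449 c7233 c7232 c4329 c4330 c4384 (k8 c7263 c3750 c4383 c4369 c3167 c3749 c2126 c1835 (k8 c4431 c9 c6395 c3318 c1107 c4382 c536 c7247 (k8 c4380 c4480 c3213 c7265 c7251 c2000 c4381 c4323 (k8 c2925 c823 c4855 c7266 c3751 c4527 c7267 c2044 (k1 c7237 k0))))))))) (by decide +kernel)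
def c7269 : PP 8 4 T 0x400200000000000000000080800000 := rS 0x319a08745224e67d23d0d4429599d52b115c9fd9ed3472c1964a5e8389efd40454de7141a7d1a5f53a86182360aed8abf22c6136914b8ecf6792096010072bc2436f121aaca60535a9532010cabccea94e8b804c3 (k8 c7197 c1831 c1830 c2772 c2773 c2925 c2774 c8 (k8 c757 c3743 c3744 c43 c532 c3934 c3745 c3855 (k8 c4431 c9 c4437 c1066 c1098 c222 c223 c1103 (k8 c1961 c520 c3112 c3206 c3167 c7150 c4482 c4363 (k8 c4369 c4370 c4449 c4450 c7233 c7232 c4329 c4330 (k8 c4382 c4383 c4384 c2000 c536 c1107 c7247 c7263 (k8 c4380 c1360 c1835 c3749 c6395 c3750 c4480 c2126 (k8 c6426 c3318 c3428 c3213 c7264 c7265 c539 c7239 (k8 c7251 c7268 c4393 c1313 c1354 c4956 c2045 c7258 (k4 c53 c525 c7240 c460 k0)))))))))) (by decide +kernel)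
def c7270 : PP 8 4 T 0x100000000000000000000000000000000080000000000000000000004050000800000 := rS 0x16b95a012 (k4 c524 c525 c4401 c456 (k1 c4468 k0)) (by decide +kernel)
def c7271 : PP 8 4 T 0x100000000000000000000000000000000000000200000000000000000050020000480 := rS 0x728b4243b (k4 c1575 c498 c913 c4401 (k1 c4468 k0)) (by decide +kernel)
def c7272 : PP 8 4 T 0x80000080000000000000000000004000000800008 := rS 0x2a2a8662229 (k4 c2770 c4337 c8 c1767 (k2 c7270 c226 k0)) (by decide +kernel)
def c7273 : PP 8 4 T 0x100000000000000000010000444001514010000080040000000000000000000000000 := rS 0x2b4cb05 (k4 c4408 c1648 c4903 c6342 k0) (by decide +kernel)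
def c7274 : PP 8 4 T 0x100000000000000000015000444001500054005400040000000000000010020000419 := rS 0x1545ce8734aa4c0c56 (k8 c790 c791 c2996 c2764 c7273 c2123 c4417 c7271 (k1 c7194 k0)) (by decide +kernel)
def c7275 : PP 8 4 T 0x800080000000001400200000000000000000000800000 := rS 0x2f106fd48a9cb8713129532a95faee308d2b0196a8f0e085367b228cc369d848b83e02 (k8 c1831 c7269 c1830 c4437 c2772 c9 c823 c6169 (k8 c521 c7150 c836 c4466 c2763 c1435 c791 c790 (k8 c2995 c4482 c4449 c4369 c2773 c3743 c3744 c1188 (k8 c667 c818 c2806 c2805 c4377 c2000 c2126 c7175 k0)))) (by decide +kernel)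
def c7276 : PP 8 4 T 0x100000000000000000010000444001514008000000040000000000000000000000000 := rS 0x2b4cb05 (k4 c4410 c1652 c1905 c6342 k0) (by decide +kernel)
def c7277 : PP 8 4 T 0x80000000001400200000000000000000000800000 := rS 0x178717ea0d225c53989968843acd268d0323cac950e30576c55f886309b05c25560535a9532010cabccea9619ec8a1f4e8ba2229458cc3602 (k8 c1831 c9 c823 c7272 c2770 c4337 c1830 c2772 (k8 c7269 c6169 c521 c7197 c2773 c2925 c2774 c8 (k8 c757 c3743 c3744 c43 c532 c3745 c4437 c572 (k8 c7150 c4482 c836 c4369 c4370 c4449 c4450 c4466 (k8 c2764 c790 c2763 c791 c2995 c2996 c7275 c7276 (k8 c7274 c3927 c2041 c941 c818 c2805 c2000 c4377 (k2 c1417 c2126 (k1 c7175 k0)))))))) (by decide +kernel)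
def c7278 : PP 8 4 T 0x2000200000000100000000000800000 := rS 0x20c65e243 (k4 c3855 c4431 c4447 c3761 (k1 c4472 k0)) (by decide +kernel)
def c7279 : PP 8 4 T 0x814000020400400200000000000000000000800000 := rS 0x4e253783d62fc2eafd77182b0185a516391dc8621484ca61c10a6cf70915994d62340984934286a8cf2450f8cc369d1700a22ac (k8 c2040 c4338 c1831 c1830 c2772 c9 c823 c7269 (k8 c6169 c7278 c7277 c4330 c4489 c4421 c2884 c1897 (k8 c2768 c43 c556 c227 c4437 c521 c7150 c836 (k8 c4466 c3934 c517 c795 c2041 c7142 c4404 c4289 (k8 c3773 c917 c791 c790 c4482 c4449 c4369 c813 (k4 c7151 c1148 c4376 c4378 (k2 c224 c7192 (k1 c2110 k0)))))))) (by decide +kernel)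
def c7280 : PP 8 4 T 0x20800000200000000000000000000800000 := rS 0x5c (k2 c2001 c7169 k0) (by decide +kernel)
def c7281 : PP 8 4 T 0x101000000000000000040440001555500500400400000200000400100154000000010 := rS 0x48a108e1a905ea144afd (k8 c4377 c1336 c1497 c4507 c2126 c4327 c769 c4489 (k2 c2110 c4421 k0)) (by decide +kernel)
def c7282 : PP 8 4 T 0x40000000000000000000000000000000404440001501500500000000000000012000000004400000008 := rS 0xcda2af1230c6789686d3 (k8 c4281 c4421 c2134 c1791 c4467 c4327 c2126 c4454 (k2 c2068 c4495 k0)) (by decide +kernel)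
def c7283 : PP 8 4 T 0x14000020000400200000000000000000000800000 := rS 0x1cfc1243492232e89d4e8323b1e22e4158a45aac3132cca1328d2c9a53029ad4a9954b0d46bf5dc611e8d1c818ac1c10a6cf27b228cc369d848b83e02 (k8 c1831 c7269 c1830 c4437 c2772 c9 c823 c6169 (k8 c521 c7278 c7150 c836 c4466 c790 c791 c3151 (k8 c2995 c2763 c4482 c4449 c4369 c7277 c7197 c2773 (k8 c3743 c3744 c43 c532 c3934 c3894 c4457 c3773 (k8 c517 c556 c3927 c2041 c2040 c917 c795 c227 (k8 c7142 c4338 c4289 c4404 c7280 c7279 c876 c7281 (k4 c792 c7282 c4200 c2110 (k2 c7151 c224 (k1 c4376 k0))))))))) (by decide +kernel)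
def c7284 : PP 8 4 T 0x41000000000000000000000000000001480000000000000000000000000000400000000000000000000 := rS 0x19f43 (k2 c4391 c1520 (k1 c4495 k0)) (by decide +kernel)
def c7285 : PP 8 4 T 0x15000044001514000000000000000000000000020000000008 := rS 0x15a97 (k2 c2769 c2771 (k1 c2127 k0)) (by decide +kernel)
def c7286 : PP 8 4 T 0x15000000000000010005400040008000000004250020800080 := rS 0x7343accea8b2a98e220b (k8 c572 c4331 c2798 c247 c7270 c7271 c1188 c1837 (k2 c1022 c2123 k0)) (by decide +kernel)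
def c7287 : PP 8 4 T 0x200000000000000000015000044001510000000000000000000000000000000000000 := rS 0x97 (k2 c4335 c7223 k0) (by decide +kernel)
def c7288 : PP 8 4 T 0x10000020000400200000000000000000000800000 := rS 0x1f8812e9f0bccd86a79066232bc40a6b52804320b5fc60ac1c10a6cf27b228cc369d848b83e02 (k8 c1831 c7269 c1830 c4437 c2772 c9 c823 c6169 (k8 c521 c7278 c7150 c836 c4466 c790 c4482 c4369 (k8 c572 c8 c757 c3744 c43 c532 c4431 c556 (k8 c2041 c7280 c7283 c4384 c1397 c1611 c1610 c1340 (k2 c2044 c7146 (k1 c4379 k0)))))) (by decide +kernel)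
def c7289 : PP 8 4 T 0x1000000000000400000108000000005000418008000000000000105000419 := rS 0x3f106812e9f0bd0d (k8 c4384 c1611 c1610 c1340 c1381 c548 c7146 c4379 k0) (by decide +kernel)
def c7290 : PP 8 4 T 0x10000000000000000000000000010000000400400200000000000000140000800000 := rS 0x1203c4efc589750223531bd96495cd09526151aed8e474b33e950521a7cca59312c91275459cc768728b905293034452ac162b0d5e995595838bf8c0853709059e4f6450f8cd3a2e00a940a027886c326b (k8 c43 c8 c9 c4431 c1831 c532 c3744 c757 (k8 c1830 c2772 c823 c7269 c6169 c521 c7278 c572 (k8 c4437 c7150 c836 c4482 c4369 c4466 c790 c3745 (k8 c3743 c2774 c7197 c4370 c4450 c2764 c7287 c791 (k8 c2996 c7285 c4468 c4405 c1836 c4403 c1021 c7270 (k8 c7271 c7288 c2123 c1188 c1026 c552 c7289 c3855 (k8 c5806 c4485 c4430 c1187 c4404 c4289 c4449 c7277 (k8 c2884 c2773 c4489 c4394 c4421 c4425 c1189 c4855 (k8 c2768 c1897 c813 c4584 c7151 c7192 c4376 c2110 (k1 c224 k0)))))))))) (by decide +kernel)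
def c7291 : PP 8 4 T 0x4020000000000000005005444055155500500000000000000000000000000000000000 := rS 0x5ad0d72ca8aaf14e91 (k8 c4327 c4330 c2126 c7247 c2128 c1207 c4425 c1708 (k1 c4492 k0)) (by decide +kernel)
def c7292 : PP 8 4 T 0x10000000000400200000000000000140000800000 := rS 0x9c4a232e2989282a14353ecd56b3ccab73145e94b282a1ce651238ed8ee47890d4a010caa546bf5da3cb20535a35128b3a82c52930315a22950e08582c58c26cf27b2287c661b84b0d3aaf010b932ab (k8 c3745 c3743 c1830 c1831 c2774 c2772 c7197 c4437 (k8 c9 c823 c7269 c6169 c521 c7278 c7150 c4482 (k8 c4370 c4450 c836 c4466 c2764 c7287 c790 c791 (k8 c2996 c7285 c572 c7271 c7270 c7288 c2995 c43 (k8 c532 c1026 c2763 c4449 c4369 c7277 c2773 c8 (k8 c757 c3744 c3855 c4431 c4468 c4289 c4403 c4404 (k8 c4405 c1021 c1836 c5806 c2123 c4485 c4357 c1188 (k8 c3174 c552 c4430 c4458 c4460 c7289 c7291 c4489 (k8 c7290 c4421 c2000 c2001 c2768 c1336 c2789 c2110 k0))))))))) (by decide +kernel)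
def c7293 : PP 8 4 T 0x10000000000400200000000000000040000800000 := rS 0x1619c5293031592a1c10b058b184d9e4f6450f8cc370961a755e2e4c8095689 (k8 c7288 c3745 c1831 c3743 c1830 c2774 c2772 c7197 (k8 c4437 c9 c823 c7269 c6169 c521 c7278 c7150 (k8 c4482 c4370 c4450 c836 c4466 c2764 c790 c791 (k4 c2996 c7285 c2925 c7292 (k1 c7286 k0))))) (by decide +kernel)
def c7294 : PP 8 4 T 0x10000000000400200000000000000000000800000 := rS 0x45a1d6654320a912010c99c1659029ac52930315a22950e08582c58c26cf27b2287c661b84b0d3aaf010b932ab (k8 c3745 c3743 c1830 c1831 c2774 c2772 c7197 c4437 (k8 c9 c823 c7269 c6169 c521 c7278 c7150 c4482 (k8 c4370 c4450 c836 c4466 c2764 c7287 c790 c791 (k8 c2996 c7285 c43 c532 c1026 c572 c2925 c8 (k8 c757 c7288 c7293 c227 c226 c552 c1652 c1767 (k1 c7274 k0)))))) (by decide +kernel)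
def c7295 : PP 8 4 T 0x20000000000000000000000000000080000000008 := rS 0x4848 (k2 c1734 c1735 (k1 c2134 k0)) (by decide +kernel)
def c7296 : PP 8 4 T 0x400200000000000000008000800000 := rS 0x1628337a04ba4a079857ebb8c1580c1c10a6cf27b228cc369d848b83e02 (k8 c1831 c7269 c1830 c4437 c2772 c9 c823 c6169 (k8 c521 c7278 c7150 c836 c4466 c791 c790 c4482 (k8 c4449 c4369 c2884 c239 c877 c2787 c1835 c1020 (k2 c3772 c1148 (k1 c7192 k0))))) (by decide +kernel)
def c7297 : PP 8 4 T 0x15200044021514000000000000000000000000000000000000 := rS 0x4bab572cd (k4 c2068 c1207 c901 c899 (k1 c2127 k0)) (by decide +kernel)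
def c7298 : PP 8 4 T 0x15000044021514000000000000200000000000000000000000 := rS 0x12ead (k2 c2794 c2793 (k1 c2127 k0)) (by decide +kernel)
def c7299 : PP 8 4 T 0x400200000000000000000000800000 := rS 0x34e0d2428941efc419757a2711c35402949818ac950e3058a218c26cf27b2287e12ab4c8cc36af4e8b804c3 (k8 c7197 c1831 c1830 c2772 c2774 c9 c823 c3743 (k8 c3745 c4437 c7269 c6169 c521 c7278 c7150 c4482 (k8 c836 c4370 c4450 c4466 c2764 c790 c791 c2996 (k8 c7285 c7294 c4329 c770 c7296 c7297 c7298 c2001 (k8 c7151 c4376 c224 c7196 c4467 c6225 c4371 c496 k0))))) (by decide +kernel)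
def c7300 : PP 8 4 T 0x200000000000000000000800000 := rS 0x20041d8b6014c8b80419 (k8 c8 c1831 c1830 c3743 c757 c2835 c7299 c1833 (k2 c7167 c231 k0)) (by decide +kernel)
def c7301 : PP 8 4 T 0x100000000000000000000000400000000000000000044000000000000000020200000 := rS 0xcb05 (k2 c4307 c7134 (k1 c4478 k0)) (by decide +kernel)
def c7302 : PP 8 4 T 0x1000020080000000000000000000000100084000000000 := rS 0xd62a375ba422f4363a8da648 (k8 c1734 c4281 c132 c291 c4423 c4359 c898 c1166 (k4 c4989 c4351 c1036 c4470 k0)) (by decide +kernel)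
def c7303 : PP 8 4 T 0x2000000000000100020000000000000021101000000000000020015000 := rS 0xfd69b21470d (k4 c4329 c132 c1736 c6871 (k2 c4305 c4463 k0)) (by decide +kernel)
def c7304 : PP 8 4 T 0x400000020000000000000018000000000000020000020 := rS 0x15099887865 (k4 c1697 c763 c802 c530 (k2 c327 c7045 k0)) (by decide +kernel)
def c7305 : PP 8 4 T 0x80000000010000000200000000000000800000000001 := rS 0x20ae50a84caa53310a0a28732d2d5a6b36c2466f10c8100617 (k8 c7300 c797 c4461 c1871 c4432 c17 c4437 c44 (k8 c43 c163 c4428 c1777 c1633 c1593 c788 c828 (k4 c2032 c7179 c530 c4934 (k2 c4402 c4407 (k1 c4464 k0))))) (by decide +kernel)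
def c7306 : PP 8 4 T 0x400000000000000000000000000004008000100000000082440000000000000000000000000000000 := rS 0xc9653368b4b (k4 c4459 c4397 c1481 c4495 (k2 c6634 c1752 k0)) (by decide +kernel)
def c7307 : PP 8 4 T 0x10000000000000000000000000000000000000000000000002000000044400000000 := rS 0x4ad3 (k2 c4281 c282 (k1 c4467 k0)) (by decide +kernel)
def c7308 : PP 8 4 T 0x10000000000000000200000000000000000000000011100000000000000000000000 := rS 0xbefd (k2 c4305 c546 (k1 c4477 k0)) (by decide +kernel)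
def c7309 : PP 8 4 T 0x200000000001008000000000000020001000 := rS 0x446824 (k4 c1028 c1027 c279 c4116 k0) (by decide +kernel)
def c7310 : PP 8 4 T 0x2108000000100004000000020 := rS 0x1ac54dc90 (k4 c880 c881 c4351 c1036 (k1 c4102 k0)) (by decide +kernel)
def c7311 : PP 8 4 T 0x80000000000000000200000000000000800000000001 := rS 0x110ad (k2 c163 c7305 (k1 c2040 k0)) (by decide +kernel)
def c7312 : PP 8 4 T 0x10000000000000000000000000000000000000000001000000000000004400020000 := rS 0x4ad3 (k2 c4275 c279 (k1 c4467 k0)) (by decide +kernel)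
def c7313 : PP 8 4 T 0x1000000000000000000000008000000000001000000000000001100000 := rS 0x2705 (k2 c4410 c1565 (k1 c4464 k0)) (by decide +kernel)
def c7314 : PP 8 4 T 0x1000000000000000000000020000000000001400000000000000100000 := rS 0x2705 (k2 c4314 c517 (k1 c4464 k0)) (by decide +kernel)
def c7315 : PP 8 4 T 0x20002000000000000000000000040000000050000055000000000000000000000000 := rS 0x5d64a84be9f (k4 c4384 c4382 c4329 c4305 (k2 c4377 c2118 k0)) (by decide +kernel)
def c7316 : PP 8 4 T 0x200001000000000000000000000010000400050120005400000000000000000000000 := rS 0xc92e99d4665 (k4 c4412 c4337 c4333 c1417 (k2 c586 c5857 k0)) (by decide +kernel)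
def c7317 : PP 8 4 T 0x101000000000000080000000000000000050000000000000000000000000050000 := rS 0xc80a3968655 (k4 c251 c4391 c4289 c4464 (k2 c4483 c630 k0)) (by decide +kernel)
def c7318 : PP 8 4 T 0x2220000000000000000080000000000000000000000000000000000010000020000000 := rS 0xee2eb84a8f46eb772a4d3e9150a351e2351ad47e97 (k8 c4335 c1179 c1432 c4337 c1449 c760 c4383 c4329 (k8 c4327 c4414 c4413 c4289 c4353 c4386 c330 c763 (k4 c2125 c4361 c1045 c4471 k0))) (by decide +kernel)
def c7319 : PP 8 4 T 0x20000000000000000000140000000000000000000000000000140010800420000000 := rS 0x17e9153a354af154a643e9d (k8 c785 c10 c1841 c786 c4432 c4385 c4383 c4330 (k2 c4327 c6330 (k1 c7138 k0))) (by decide +kernel)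
def c7320 : PP 8 4 T 0x10020000001000000000000140000001500400000000000000000140000000800000000 := rS 0xbe27aa4811248a9d1aa5 (k8 c4385 c4383 c4330 c4327 c4488 c4472 c4345 c1489 (k2 c2126 c1054 k0)) (by decide +kernel)
def c7321 : PP 8 4 T 0x100000000001000000000000450000080050000001100008000000000960020000000 := rS 0x6b32a1c00152a820c63e18aacce19 (k8 c1870 c2743 c1845 c16 c777 c817 c4604 c249 (k4 c7301 c1058 c7313 c491 (k2 c493 c2120 k0))) (by decide +kernel)
def c7322 : PP 8 4 T 0x2000000000000200000000200000000020000000 := rS 0x8009e42e9b (k4 c105 c7300 c1960 c2718 (k2 c7132 c1058 k0)) (by decide +kernel)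
def c7323 : PP 8 4 T 0x40000200000000020000045 := rS 0x790d0280809 (k4 c1058 c4461 c4462 c438 (k2 c7136 c439 k0)) (by decide +kernel)
def c7324 : PP 8 4 T 0x500000000000000000080000450040010000010009510008000000000920020010004 := rS 0x3f84e0ab93125d12e57ea2d0f0815aac6267 (k8 c2743 c16 c1573 c14 c4479 c4440 c4322 c4378 (k8 c4289 c5289 c7321 c2120 c5821 c4407 c1559 c1459 (k1 c7317 k0))) (by decide +kernel)
def c7325 : PP 8 4 T 0x1000000000000080000000000000000000000000540000000000080000000000 := rS 0x30c354424 (k4 c290 c291 c4381 c6594 (k1 c4477 k0)) (by decide +kernel)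
def c7326 : PP 8 4 T 0x100000000000000000080000000002000001000009000000000000000800420000000 := rS 0x1066144c3208a53f939981325ae54ed028a5d5c7d67854a66756a8c50e519bc5522d4a84566082b1651681841ac626989994565d2fa35fa0003910065b (k8 c2755 c2772 c785 c3231 c7323 c4378 c3234 c1377 (k8 c752 c7325 c491 c4343 c7322 c16 c493 c4479 (k8 c4439 c4322 c3007 c4476 c751 c3197 c607 c2757 (k8 c2923 c786 c4432 c17 c4289 c4468 c778 c2751 (k8 c2743 c2032 c646 c1520 c1352 c7324 c4631 c1593 (k8 c789 c909 c5821 c1454 c1758 c461 c460 c1459 (k4 c5936 c7317 c4646 c4314 (k2 c4325 c2064 (k1 c2119 k0))))))))) (by decide +kernel)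
def c7327 : PP 8 4 T 0x80800080000000000000000000000000204000800000000000 := rS 0xb88b33076d028b94663d (k8 c2412 c17 c4289 c1593 c789 c1223 c461 c4471 (k2 c1485 c4361 k0)) (by decide +kernel)
def c7328 : PP 8 4 T 0x1000000000020000000000000000000000000000205000000000000000 := rS 0x7717 (k2 c4361 c3239 (k1 c4471 k0)) (by decide +kernel)
def c7329 : PP 8 4 T 0x20000000000000000080000000002000000000008000000000000000800400000000 := rS 0x105392d95ebea2a0a2aa553a8522618ca551e9f16af5268b43ad4be8d5da06106b188d41a085497546655598d12553fae47e971e854cee529ab620850001c066d2b164b677899a4881c (k8 c784 c785 c7322 c4343 c3089 c2755 c3233 c4476 (k8 c961 c2772 c1018 c7323 c5976 c7326 c4338 c2032 (k8 c4289 c4333 c646 c2412 c4335 c1179 c7328 c1459 (k8 c251 c7314 c755 c4415 c4412 c4337 c752 c786 (k8 c751 c3417 c1060 c16 c493 c4479 c4439 c1349 (k8 c3234 c1377 c3333 c4440 c4322 c3235 c3180 c2923 (k8 c1392 c2756 c2757 c4367 c4325 c4327 c4329 c4330 (k8 c4385 c7318 c2119 c4452 c4493 c7327 c2125 c1077 (k2 c4408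 c6907 k0))))))))) (by decide +kernel)
def c7330 : PP 8 4 T 0x80000000002000000000008000000000000000800400000000 := rS 0x9ca7682ba1a8931954feb96794c7e15559955a9733c4152e5198f50a8b43c20d6000380c6269899b4ac592d9dc881c (k8 c784 c785 c3089 c2755 c3233 c4476 c961 c4343 (k8 c7322 c16 c2772 c1018 c7323 c493 c4479 c4440 (k8 c4322 c5976 c2412 c17 c4289 c786 c7326 c4333 (k8 c4335 c4338 c4412 c4415 c646 c1179 c2032 c1520 (k8 c7328 c1459 c251 c755 c7314 c7329 c2120 c789 (k2 c909 c460 (k1 c4646 k0))))))) (by decide +kernel)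
def c7331 : PP 8 4 T 0x80000000002000000000000000000000000000800800000000 := rS 0x4498d5f113299d5aab510a00a8b43c20d6000380c6269899b4ac592d9dc881c (k8 c784 c785 c3089 c2755 c3233 c4476 c961 c4343 (k8 c7322 c16 c2772 c1018 c7323 c493 c4479 c4440 (k8 c4322 c2 c1450 c1449 c1573 c2751 c2743 c1567 (k4 c4337 c2762 c2716 c5289 (k1 c2120 k0))))) (by decide +kernel)
def c7332 : PP 8 4 T 0x100000000001000000000000044002000010000001554000000001000000020000200 := rS 0x8b8fc7696149cd590445a1e1113 (k8 c4343 c4479 c4440 c4322 c4478 c2120 c4408 c2751 (k4 c946 c1061 c1180 c4359 (k1 c4471 k0))) (by decide +kernel)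
def c7333 : PP 8 4 T 0x100000000000000000080000040002000010000000008000000000000800000000000 := rS 0x53a95065f7e92cfc0e669515aa319bc50a81841ac6269899b4eea92e8000e03309bc46562c910385b (k8 c2755 c784 c785 c3233 c4476 c7331 c7330 c881 (k8 c2772 c1018 c7323 c752 c786 c3089 c961 c4343 (k8 c7322 c16 c493 c4479 c4439 c5976 c4432 c17 (k8 c2716 c820 c755 c5446 c250 c251 c1453 c4376 (k4 c1376 c676 c5936 c4532 (k1 c2119 k0)))))) (by decide +kernel)
def c7334 : PP 8 4 T 0x100000000000000000080000040002000010000000050000000000000800000000000 := rS 0x1050d5297c484b068a94ecd569fd5504728cde29f168f4108545a050f08358c4d313369dd525d0001c06613788cac5922070b663 (k8 c7333 c2755 c784 c785 c3233 c4476 c7331 c7330 (k8 c881 c2772 c1018 c7323 c752 c786 c3089 c961 (k8 c4343 c7322 c16 c493 c4479 c4440 c4439 c4322 (k8 c5976 c751 c2412 c2923 c1392 c4432 c17 c4289 (k8 c4478 c7332 c4313 c81 c3760 c2013 c1845 c1447 (k4 c1453 c290 c488 c5936 (k2 c4381 c2119 (k1 c5830 k0)))))))) (by decide +kernel)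
def c7335 : PP 8 4 T 0x1000000000000000000000000000000080048000001000100020000200 := rS 0x3f1d8a62e13 (k4 c511 c5282 c2743 c1062 (k2 c1180 c4471 k0)) (by decide +kernel)
def c7336 : PP 8 4 T 0x80000000002000000000000020000000000000800000000000 := rS 0x20d4afc5392cbea212034547f19bc50a81841ac6269899b4eea92e8000e03309bc46562c910385b (k8 c2755 c784 c785 c3233 c4476 c7331 c7330 c881 (k8 c2772 c1018 c7323 c752 c786 c3089 c961 c4343 (k8 c7322 c16 c493 c4479 c4439 c5976 c4432 c17 (k8 c2438 c491 c1447 c290 c291 c488 c3437 c2946 (k4 c7325 c5936 c4306 c2119 k0))))) (by decide +kernel)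
def c7337 : PP 8 4 T 0x100000000000000000080000040002000000000000000000000000000800000000000 := rS 0xac82a222669358c4ce080001c06562c8f4881c1696dca65 (k8 c7336 c4289 c2755 c2923 c784 c785 c2412 c3233 (k8 c4476 c2772 c1018 c7323 c751 c7335 c16 c493 (k4 c7322 c4343 c7334 c4314 (k2 c5289 c6230 k0)))) (by decide +kernel)
def c7338 : PP 8 4 T 0x80000010002000020000000000000000000000800000000000 := rS 0x14e832fb3196a53f035a04b099469705248cde28540c20d63134c4cda7754974c26f11854ce081e8b5ca0003958b2440196c3853 (k8 c2032 c784 c2755 c2772 c785 c3233 c4476 c1018 (k8 c7323 c4289 c2923 c2412 c751 c7335 c646 c7331 (k8 c7330 c881 c752 c786 c3089 c961 c4343 c7322 (k8 c16 c493 c4479 c4439 c5976 c4432 c17 c119 (k8 c4314 c4457 c1863 c517 c1454 c4475 c1448 c7228 (k4 c5936 c1750 c461 c488 (k2 c677 c2066 (k1 c2119 k0)))))))) (by decide +kernel)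
def c7339 : PP 8 4 T 0x80000040002000000000000000000000000000800000000000 := rS 0x14aa74192cbefd3f038a86244aad5b1019bc50a8b40a1e106b189a6266d3baa4ba613788cce080001c06562c8f4881c1696dca65 (k8 c7336 c4289 c2755 c2923 c784 c785 c2412 c3233 (k8 c4476 c2772 c1018 c7323 c751 c7335 c7331 c7330 (k8 c881 c752 c786 c3089 c961 c4343 c7322 c16 (k8 c493 c4479 c4440 c4439 c4322 c5976 c4432 c17 (k8 c7337 c4338 c4415 c7338 c2120 c755 c250 c251 (k4 c4376 c1376 c3428 c676 (k2 c4532 c5936 (k1 c2119 k0)))))))) (by decide +kernel)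
def c7340 : PP 8 4 T 0x80000000002000000000000000000000000000800000000000 := rS 0xbf4541a949ccc25a254ecf681455aae309bcbaa911a061085358000e6d2b1a4ee5922070065b898c466f1 (k8 c4432 c17 c16 c4343 c2755 c2772 c784 c785 (k8 c3233 c3089 c7322 c4476 c961 c1018 c7323 c493 (k8 c5976 c4479 c4439 c7331 c786 c752 c7330 c881 (k8 c7339 c163 c1593 c789 c4089 c909 c7338 c1454 (k4 c461 c460 c5936 c2064 (k2 c4396 c7137 (k1 c2119 k0))))))) (by decide +kernel)
def c7341 : PP 8 4 T 0x1001000000000004080000000000000081000000000000000000000000004800000 := rS 0x81a293906d0 (k4 c525 c645 c460 c4396 (k2 c1360 c4484 k0)) (by decide +kernel)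
def c7342 : PP 8 4 T 0x80000000000000000000000082000000000000100000100000 := rS 0x284fc2a09c1492e5 (k8 c4289 c119 c4309 c511 c4555 c7228 c1734 c673 k0) (by decide +kernel)
def c7343 : PP 8 4 T 0x100000000000000000080000000000000000000000042000000000000010000000002 := rS 0x158b546e5 (k4 c4289 c936 c910 c291 (k1 c4468 k0)) (by decide +kernel)
def c7344 : PP 8 4 T 0x100000000000000000000400000010000000000010000000008000200000100000 := rS 0xe892398862e3b (k4 c21 c4355 c401 c1082 (k2 c7177 c4481 (k1 c1656 k0))) (by decide +kernel)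
def c7345 : PP 8 4 T 0x10000000020000000054000000080000000004000a00000000002 := rS 0xc4399e41240609d440976187c06503d9de1105a587416b32d15cb212 (k8 c911 c2462 c2917 c4476 c2464 c2544 c759 c4458 (k8 c4309 c4485 c4438 c4319 c917 c1 c392 c1867 (k8 c6579 c4466 c593 c1987 c837 c230 c1847 c1561 (k2 c2123 c1056 k0)))) (by decide +kernel)
def c7346 : PP 8 4 T 0x200000000080000020000000402000000000000205000000002 := rS 0x14e4f17a9462a919b3d9652559b51629091fd424d25b4a1a23 (k8 c2922 c4325 c4467 c4375 c4282 c2900 c673 c911 (k8 c15 c157 c2470 c1944 c517 c2025 c1792 c950 (k4 c976 c397 c1470 c2033 (k2 c421 c941 (k1 c2111 k0))))) (by decide +kernel)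
def c7347 : PP 8 4 T 0x5000441081000050004140000000814000004405600100080 := rS 0x14a3155a6588773ca9c824f0bb2d0ecf (k8 c1523 c1903 c2022 c2030 c421 c2034 c941 c500 (k4 c1023 c2123 c1136 c1675 (k2 c317 c1470 (k1 c2111 k0)))) (by decide +kernel)
def c7348 : PP 8 4 T 0x1000000000080205000400291000041044011500000000000004000000000080 := rS 0x2c1027743b14f3086632d54175fa0e264b (k8 c4375 c4444 c1936 c1404 c6908 c1470 c1941 c1469 (k8 c4479 c500 c1675 c1732 c4438 c4439 c6396 c4774 k0)) (by decide +kernel)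
def c7349 : PP 8 4 T 0x400000000000010000000000000014005000401000001051004100000000080100010001004080180 := rS 0x14b65b110ebf3c9dd9a1921d15e273 (k8 c1561 c4297 c4396 c5807 c259 c1480 c6033 c501 (k4 c6330 c1565 c2123 c1757 (k2 c4429 c4495 k0))) (by decide +kernel)
def c7350 : PP 8 4 T 0x80000000000001082000000000000600000000002 := rS 0x8a2d97ac43c85ceef0841469687652b102a6278c4a6a5258d49a896933c4ac84689e86fd868adcaaf3488cfea10d9ad3a913881986c18b1cc12033aa5d5285459eda245198803e3f599952b050a8a43a5a2b9641612 (k8 c911 c2544 c2462 c2917 c4476 c759 c15 c647 (k8 c4309 c2854 c68 c2464 c7344 c392 c4466 c950 (k8 c440 c456 c704 c720 c712 c976 c6579 c593 (k8 c1 c230 c1561 c4481 c4420 c4362 c831 c2446 (k8 c2892 c2968 c2463 c2677 c2900 c673 c2922 c2919 (k8 c2986 c4285 c60 c4325 c4301 c4393 c2938 c6576 (k8 c937 c1464 c1523 c4467 c7346 c4282 c4373 c4375 (k8 c7348 c7347 c396 c7349 c2111 c1896 c940 c941 (k8 c1733 c4458 c1864 c4485 c4475 c4438 c4431 c500 (k4 c2123 c1176 c1756 c4500 (k1 c4353 k0)))))))))))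 (by decide +kernel)
def c7351 : PP 8 4 T 0x101000000000000900000000000000000040000000000000000000000000080000 := rS 0xfb43 (k2 c4425 c3510 (k1 c4483 k0)) (by decide +kernel)
def c7352 : PP 8 4 T 0x800000000020000000000000000000401000080004 := rS 0x6989c8c0e (k4 c1563 c1562 c238 c4374 (k1 c4558 k0)) (by decide +kernel)
def c7353 : PP 8 4 T 0x100000000000080100004000800001044154150000090000100000400000080080 := rS 0x59e08820c658a434d2f0ee8e469e62ab0378d49ac360c5966bb (k8 c1979 c2464 c4481 c4420 c4362 c4282 c4373 c1019 (k8 c5124 c4349 c629 c1115 c625 c1152 c4500 c852 (k8 c2014 c1175 c4448 c1848 c2123 c4472 c516 c4431 k0))) (by decide +kernel)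
def c7354 : PP 8 4 T 0x101000000000000100000000800001044144150000090000100000401000080082 := rS 0x2c4de0c07899a6b7a11f406b3 (k8 c2464 c1 c7352 c4483 c4424 c7353 c4558 c238 (k4 c871 c1020 c2456 c5124 k0)) (by decide +kernel)
def c7355 : PP 8 4 T 0x101000000000000100000000000000000040000000000000000000202000080000 := rS 0x1433eb188e29 (k4 c15 c1372 c394 c1562 (k2 c4391 c4483 k0)) (by decide +kernel)
def c7356 : PP 8 4 T 0x10000000000000000000000000000000000020000000000000000000001400080004 := rS 0x6989c8c0e (k4 c1563 c1562 c238 c4374 (k1 c4467 k0)) (by decide +kernel)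
def c7357 : PP 8 4 T 0x101000000000000100000400000000000050150000080000800000000000010080 := rS 0x2c4de0c07b4d6f42 (k8 c4483 c4424 c4374 c1331 c4463 c1020 c2456 c5124 k0) (by decide +kernel)
def c7358 : PP 8 4 T 0x100000000000000100004400000000000050150000080000000000008000000082 := rS 0xb1378301e03 (k4 c1 c238 c871 c1020 (k2 c2456 c5124 k0)) (by decide +kernel)
def c7359 : PP 8 4 T 0x44000000400000820000001402000004000000200050000002 := rS 0x2949e4118858a4ab7e84866a9 (k8 c976 c950 c911 c4301 c1944 c517 c516 c397 (k4 c2034 c420 c6908 c6990 k0)) (by decide +kernel)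
def c7360 : PP 8 4 T 0x201000001100002000402080000000004000200000400 := rS 0x4f528c482ba4cbf48a8e (k8 c625 c440 c4301 c1928 c629 c1847 c317 c1430 (k2 c1440 c6991 k0)) (by decide +kernel)
def c7361 : PP 8 4 T 0x100000000000000400000201454000854000811500000000000000000000000000 := rS 0x55a959f4a892ed0109 (k8 c4438 c1152 c1891 c4479 c4485 c1366 c1429 c4445 (k1 c4855 k0)) (by decide +kernel)
def c7362 : PP 8 4 T 0x1000010060000041400000800000000002000000000004000050000002 := rS 0x29bc49ca518904a299a5bf48a20 (k8 c4466 c440 c4301 c4429 c1136 c1595 c1056 c317 (k4 c1430 c6990 c4297 c420 (k1 c4475 k0))) (by decide +kernel)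
def c7363 : PP 8 4 T 0x100000000000000410000601450000854005151500000000000000000000000000 := rS 0xeec360a7d6b16 (k4 c4481 c4419 c1427 c4420 (k2 c4362 c7361 (k1 c2123 k0))) (by decide +kernel)
def c7364 : PP 8 4 T 0x101000000000000100000000800001041044150100090000100000401000080082 := rS 0x432068acb (k4 c7351 c4453 c1896 c7354 (k1 c7075 k0)) (by decide +kernel)
def c7365 : PP 8 4 T 0x1082000000000000600000000002 := rS 0x14a3127c48a01884a198a89539e51c8d581bc963526b484eb763d08fa2565b2546fd86b955e69119fd426b489c40cc38b1cc12033aa5d5285459eda245198803e3f599952b050a8a43a5a2b9641612 (k8 c911 c2544 c2462 c2917 c4476 c759 c15 c647 (k8 c4309 c2854 c68 c2464 c7344 c392 c4466 c950 (k8 c440 c456 c704 c720 c712 c976 c6579 c593 (k8 c1 c230 c1561 c4481 c4362 c831 c2446 c2892 (k8 c2463 c2900 c673 c2922 c2919 c2986 c4285 c4325 (k8 c4301 c7350 c633 c7351 c7355 c7356 c4483 c4391 (k8 c4424 c7358 c4467 c4282 c4373 c4375 c1019 c5124 (k8 c1115 c625 c7360 c7364 c7359 c7362 c7363 c4440 (k4 c1565 c1564 c4479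 c259 (k2 c1917 c4444 (k1 c2111 k0))))))))))) (by decide +kernel)
def c7366 : PP 8 4 T 0x1082000000000000200000000002 := rS 0x43a255850173451633348fd665a2b96424654ac142a29 (k8 c15 c647 c4309 c2854 c68 c911 c2462 c2917 (k8 c4476 c2464 c7344 c2919 c950 c720 c456 c7365 (k4 c917 c916 c1863 c1904 (k1 c7345 k0)))) (by decide +kernel)
def c7367 : PP 8 4 T 0x201000800000000002002090040010005000050000002 := rS 0x14aa7472350afd (k4 c4301 c2696 c1115 c625 (k2 c905 c1971 (k1 c6990 k0))) (by decide +kernel)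
def c7368 : PP 8 4 T 0x80000000000000410000000000000000005111001400801500000000000000000000000000000000000 := rS 0x2fa88bb5ba9628c567b3596ab (k8 c1972 c5517 c4460 c4430 c4429 c4486 c1971 c4353 (k4 c4390 c4490 c2129 c4399 k0)) (by decide +kernel)
def c7369 : PP 8 4 T 0x80000000000000400000000000000000000100000400801454440140082080144000000200000080084 := rS 0x18e47a1200fa2564a8d18cb42bf61a5511845727161ad5a2cf29b3552ab60c596705 (k8 c4309 c2464 c4481 c4420 c1972 c977 c4460 c4456 (k8 c4430 c1758 c4419 c4362 c2446 c5280 c2596 c2922 (k8 c246 c4325 c4301 c713 c5517 c7368 c1467 c633 (k4 c7355 c7356 c2124 c4483 (k2 c7357 c4391 (k1 c4196 k0)))))) (by decide +kernel)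
def c7370 : PP 8 4 T 0x44000000082000000000004200000000002 := rS 0x5b9f5928451a054c8f5eac5529a419e8ee51259049ef07e9a436915c9fd42710330d6ac18b1cc12033aa5e26313ca74401f1faccca950a8a43a5a2b964161256b16948957c24d905 (k8 c4309 c7366 c4317 c2986 c681 c4485 c4429 c945 (k8 c911 c2544 c2462 c2917 c4476 c759 c15 c647 (k8 c2854 c68 c2464 c7344 c392 c4466 c2968 c601 (k8 c5699 c4341 c6579 c593 c1 c230 c1561 c4481 (k8 c4420 c4419 c4362 c831 c2446 c2900 c673 c5280 (k8 c2892 c2677 c2919 c4301 c5814 c4297 c4433 c4434 (k8 c4435 c1023 c2123 c2626 c705 c977 c7367 c6133 (k8 c849 c7369 c1896 c940 c905 c633 c1502 c5279 (k1 c4032 k0))))))))) (by decide +kernel)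
def c7371 : PP 8 4 T 0x44000000082000000000000200000000002 := rS 0xf6774d865e23262d2836c360c58e609019d52f093ca74401f1faccca9582854521d2d15cb20b09224d8af (k8 c2986 c7366 c681 c911 c2544 c2462 c2917 c4476 (k8 c759 c15 c647 c4309 c2854 c68 c2464 c7344 (k8 c392 c4466 c2968 c601 c4317 c6579 c593 c1 (k8 c230 c1561 c4481 c4420 c4362 c2677 c4485 c4429 (k4 c7370 c4293 c254 c2863 (k2 c6033 c705 (k1 c2123 k0))))))) (by decide +kernel)
def c7372 : PP 8 4 T 0x8000002000001000000001000004080002 := rS 0x788cca017 (k4 c1837 c1564 c951 c4435 (k1 c5814 k0)) (by decide +kernel)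
def c7373 : PP 8 4 T 0x100000000000000100000120400000000000140002080054000005600000000082 := rS 0xa46689e847d5b89406fd8688cfea159848e2a9 (k8 c2955 c2446 c911 c2464 c2900 c673 c2922 c4325 (k8 c4301 c1 c7355 c5279 c7356 c4483 c7358 c4395 (k2 c2111 c2052 k0))) (by decide +kernel)
def c7374 : PP 8 4 T 0x100400000000000000082000000000000200000000002 := rS 0x2944a274f835904d42bf446113aa5c0c73048bd06a9562be27112792de0330ba290e550186c6309360803e3f599952b050a8a43a5a2b9641612 (k8 c911 c2544 c2462 c2917 c4476 c759 c15 c647 (k8 c4309 c2854 c68 c2464 c7344 c392 c4466 c7366 (k8 c4317 c5699 c2677 c1 c246 c7372 c7371 c2480 (k8 c951 c5814 c4434 c4297 c4333 c4341 c2986 c5443 (k8 c2955 c2628 c2830 c230 c1561 c831 c6579 c593 (k8 c2596 c2922 c4301 c713 c4248 c7373 c2457 c1664 (k4 c871 c395 c2053 c2111 k0))))))) (by decide +kernel)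
def c7375 : PP 8 4 T 0x201000100000000002002080040010005000050000002 := rS 0xa553a390afd (k4 c4301 c2696 c625 c905 (k2 c1430 c6990 k0)) (by decide +kernel)
def c7376 : PP 8 4 T 0x82000000000000200000000002 := rS 0xb637b24fa8440a9962772093de099548cd58174521c6313849b16ac38b1c4e6b903024ea204b87c7eb30e968b21b059fc2a572a9a424af50a5452037e9960b11 (k8 c4333 c4309 c68 c4301 c1 c15 c2854 c2900 (k8 c2986 c911 c2919 c246 c2917 c647 c673 c2544 (k8 c2677 c2462 c4476 c759 c2464 c7344 c392 c6579 (k8 c4466 c593 c230 c831 c5280 c1561 c2446 c4481 (k8 c4362 c4419 c7366 c4317 c4341 c5699 c7372 c7371 (k8 c2480 c5443 c951 c2955 c2050 c5814 c4297 c4433 (k8 c1023 c7375 c7374 c1896 c905 c1773 c2698 c1500 (k2 c2121 c5279 k0)))))))) (by decide +kernel)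
def c7377 : PP 8 4 T 0x100000000000000100000500000000000050100002001000000000000200002002 := rS 0x389ccde060480d6efd (k8 c4301 c5279 c1 c230 c831 c1290 c1022 c2446 (k1 c5124 k0)) (by decide +kernel)
def c7378 : PP 8 4 T 0x1000002000000000000000121001000002000000082080000000000000000004002 := rS 0x5f9b9361e03884ea970e89818471fb90aad12f84c228989d2d668a63854522d24d08fa8734a05fac9829fd426c (k8 c712 c2906 c673 c4309 c2698 c4301 c51 c885 (k8 c1904 c1502 c4483 c4421 c7376 c2750 c647 c7342 (k8 c945 c2705 c4458 c4341 c2667 c2691 c511 c66 (k8 c4298 c4151 c4464 c4287 c4404 c2107 c503 c2877 (k8 c6579 c593 c7377 c495 c4466 c5506 c4557 c4566 (k1 c1499 k0)))))) (by decide +kernel)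
def c7379 : PP 8 4 T 0x1000000000000000000000120800000002000000082000040000001000000000002 := rS 0x259541a27268685cf124d098e7d3f94c2a5143a84534b7ec16221316aa466c9449a5022308c4d3a5a2b9b0b20f (k8 c1495 c616 c712 c2911 c4476 c2913 c4341 c2691 (k8 c767 c51 c885 c2667 c2698 c2908 c134 c7376 (k8 c511 c4333 c4309 c4301 c4458 c2750 c2906 c1904 (k8 c1865 c647 c4712 c673 c1502 c7342 c4483 c4421 (k8 c7378 c4469 c5814 c1993 c2882 c2675 c429 c1857 (k1 c4939 k0)))))) (by decide +kernel)
def c7380 : PP 8 4 T 0x100000054000000000050002082001000000005100000114000 := rS 0xbc5626061448ee41494d8e1324d09fb0568d2a2313 (k8 c4341 c4333 c4491 c4426 c4309 c4301 c4483 c4421 (k8 c511 c7317 c4179 c775 c4464 c4404 c4405 c2107 (k4 c503 c354 c2882 c2112 k0))) (by decide +kernel)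
def c7381 : PP 8 4 T 0x1000000000000040000010800000002040002180080440000001000000200002 := rS 0xc08c25526990e26c141a789408e4d4bb489628158340a3308a741ecd24b458ac3a52ad974264c14facf54abe2313 (k8 c4341 c4333 c2915 c134 c5286 c1501 c4309 c2698 (k8 c4483 c4425 c2012 c4491 c4459 c4429 c4426 c4421 (k8 c2066 c1495 c2913 c2691 c2908 c2 c650 c286 (k8 c647 c1319 c4463 c2745 c4282 c4374 c2116 c4435 (k8 c5814 c5871 c5870 c567 c1032 c1030 c2727 c4149 (k2 c2127 c4450 k0)))))) (by decide +kernel)
def c7382 : PP 8 4 T 0x10800000002040000082080040000001000000000002 := rS 0x4e25698a8982f2594436472a0a42ad1a52ad9649a131dfb0d8284c66c90b9a502230883ca62d669f59f13362be22a9 (k8 c134 c4333 c2915 c712 c4341 c5286 c1501 c2066 (k8 c7376 c4179 c1495 c2691 c767 c51 c885 c2477 (k8 c2698 c2908 c511 c4309 c4325 c4301 c7317 c4483 (k8 c4421 c4425 c2012 c4491 c4426 c7381 c775 c7380 (k8 c1602 c428 c1605 c1320 c783 c2116 c2112 c4282 (k2 c284 c354 (k1 c4467 k0))))))) (by decide +kernel)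
def c7383 : PP 8 4 T 0x20000000000000002000000000000080000014000 := rS 0x1ad312120befd (k4 c4301 c66 c1734 c1735 (k2 c4281 c1367 (k1 c4463 k0))) (by decide +kernel)
def c7384 : PP 8 4 T 0x14800040000001002180080000000001150000000002 := rS 0x60a55269921914389b05069e22e28b90669d29b458ac3a52be2313 (k8 c4341 c4333 c2915 c4491 c4459 c4429 c4426 c4179 (k8 c2913 c2908 c4468 c4405 c2112 c4432 c783 c5871 (k8 c5870 c567 c439 c1952 c1032 c1030 c2727 c6869 (k1 c2127 k0)))) (by decide +kernel)
def c7385 : PP 8 4 T 0x400000000000000000000000054001440000000000080000000000001040020000000 := rS 0xc08c255269962b0e9511 (k8 c4333 c4491 c4459 c4429 c1032 c1030 c2727 c4488 (k2 c2127 c4450 k0)) (by decide +kernel)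
def c7386 : PP 8 4 T 0x2000000080000000114800040002000000082000000000001040100000000 := rS 0xe2bc488dc3c1d5f90d36fd47aa55e8389a740e5a2b9b0b239 (k8 c4279 c616 c712 c2911 c4476 c495 c2913 c4341 (k8 c128 c2915 c134 c849 c4301 c5506 c4567 c4566 (k4 c7385 c4466 c273 c1153 (k2 c5504 c585 (k1 c6133 k0))))) (by decide +kernel)
def c7387 : PP 8 4 T 0x1000000000000000000000100800000002000000082000040000001000000000002 := rS 0x1c4d82834f1690344e21140ad2eab5027cfcad0797dfa2d19abc227934a06269d2d15cd859 (k8 c616 c712 c2911 c4476 c2913 c4341 c51 c885 (k8 c2587 c2691 c2915 c2908 c7376 c4301 c66 c1495 (k8 c7379 c7382 c1393 c673 c2013 c2905 c7383 c7384 (k8 c2827 c2880 c503 c4463 c7386 c5814 c5871 c5870 (k2 c567 c7385 k0))))) (by decide +kernel)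
def c7388 : PP 8 4 T 0x400000000000000080100000054001400000000000082081000000001140020000000 := rS 0x1ca294b4360b11 (k4 c4333 c4309 c4325 c7385 (k2 c2745 c5270 (k1 c4468 k0))) (by decide +kernel)
def c7389 : PP 8 4 T 0x400000000000000080100000054001400000000000082080000000001000028000002 := rS 0xab94545568d280b058884c5aa3 (k8 c937 c7376 c511 c4333 c4309 c2 c4491 c4426 (k4 c428 c7388 c5927 c286 (k1 c4464 k0))) (by decide +kernel)
def c7390 : PP 8 4 T 0x100000000000000000000008000000000000000000000000000005800008040002 := rS 0x1ca550a941a229 (k4 c1573 c1671 c1844 c647 (k2 c428 c4405 (k1 c4464 k0))) (by decide +kernel)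
def c7391 : PP 8 4 T 0x1000000000000000000000100800000002000000082000000000001000000000002 := rS 0xe50a9550e29a5ab156d20e03d360a0c8685c0d78939fb05098b466af08b242e8934a06269d2d15cd859 (k8 c616 c712 c2911 c4476 c2913 c4341 c51 c885 (k8 c2667 c2477 c2698 c2691 c2915 c2908 c7376 c511 (k8 c4309 c4301 c7387 c4297 c1488 c4469 c5814 c1870 (k8 c5871 c5870 c427 c567 c4463 c7390 c7389 c4458 (k4 c2750 c1904 c7179 c647 (k2 c6832 c4464 k0)))))) (by decide +kernel)
def c7392 : PP 8 4 T 0x1000000000000000000000100800000002000000082000000000000000000000002 := rS 0x1ed3069304e3008a0dfaa5 (k8 c79 c4301 c128 c2691 c7391 c357 c2006 c503 (k2 c4282 c245 (k1 c4463 k0))) (by decide +kernel)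
def c7393 : PP 8 4 T 0x1000000000000000000000000000000000000001400000000000002000000000010 := rS 0xd313 (k2 c4441 c1879 (k1 c4479 k0)) (by decide +kernel)
def c7394 : PP 8 4 T 0x800000001000000282000000000001000000000002 := rS 0x8ec724b4a96cd2985596cf27b44a24b26bc5588614a004618138ba221316d15166d (k8 c905 c720 c4453 c7376 c511 c4333 c756 c2876 (k8 c757 c2735 c885 c2744 c925 c924 c4432 c1993 (k8 c1857 c1877 c261 c259 c1366 c3810 c647 c4712 (k4 c3815 c4458 c4474 c4573 (k2 c7342 c4374 (k1 c2116 k0)))))) (by decide +kernel)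
def c7395 : PP 8 4 T 0x80092000000000010020000002 := rS 0x921e0284311 (k4 c4333 c11 c759 c306 (k2 c5241 c1655 k0)) (by decide +kernel)
def c7396 : PP 8 4 T 0x80040014000000008400000000000000000000440100100000000 := rS 0x2d47e3d1c9246a47 (k8 c4374 c4373 c4281 c4279 c1655 c1122 c1659 c2113 k0) (by decide +kernel)
def c7397 : PP 8 4 T 0x100000000000000080040014000000004000000000000082000001440080000000000 := rS 0x2d22c3f4baccea951c9246a47 (k8 c4374 c4373 c4281 c4279 c1694 c1686 c665 c929 (k4 c249 c4487 c2113 c4419 k0)) (by decide +kernel)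
def c7398 : PP 8 4 T 0x80040014000000000400000000080092000000000190000000002 := rS 0x941f8f126370f084760b0e9960b11 (k8 c4333 c4309 c68 c7395 c567 c1641 c5902 c4466 (k4 c273 c7396 c7397 c90 (k2 c275 c5290 k0))) (by decide +kernel)
def c7399 : PP 8 4 T 0x1000000000000000000000000000000080050000000000100000000002 := rS 0x3c04070ac75 (k4 c592 c4476 c750 c751 (k2 c7335 c235 k0)) (by decide +kernel)
def c7400 : PP 8 4 T 0x1000001000000080000000120800000000000000082000000000000000000000002 := rS 0x12c754f1f286b55c2dcfea350b2d922a638a5a0540a94c2d0d8884d1e1b248649a8240bf68a514452d17052d3950e69189b4d65f02a14b22d (k8 c7376 c616 c7392 c2 c66 c2009 c905 c7393 (k8 c7394 c1904 c6832 c7399 c4309 c720 c4458 c4485 (k8 c1865 c4453 c4301 c1896 c4484 c4282 c1998 c4281 (k8 c686 c849 c511 c4333 c4325 c4465 c2031 c653 (k8 c7314 c4475 c781 c7342 c4555 c1726 c1750 c1734 (k8 c937 c677 c5279 c7398 c107 c4394 c4483 c4489 (k2 c1690 c1396 (k1 c929 k0)))))))) (by decide +kernel)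
def c7401 : PP 8 4 T 0x1000000000000080000000120800000000000000082000000000000000000000002 := rS 0x3a9e0f8778cd0d6ac25f2e19ccb5bb259a7f2a31d42530a8a8522f6893de05a72a20a287a5c162213169651e8b3da090269189b4d65f02a15fb45249348e4b (k8 c4375 c4374 c4282 c4281 c4453 c4301 c7392 c2 (k8 c66 c2009 c905 c7393 c7394 c1896 c4484 c642 (k8 c720 c849 c616 c7376 c511 c4333 c4309 c4458 (k8 c1904 c1865 c4485 c6832 c7399 c7400 c4297 c4298 (k8 c4432 c780 c4554 c647 c4712 c1734 c7342 c4464 (k8 c673 c2067 c1726 c5279 c2025 c2116 c7398 c1525 (k8 c1526 c107 c4394 c4369 c1094 c4483 c4482 c1690 (k1 c2057 k0)))))))) (by decide +kernel)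
def c7402 : PP 8 4 T 0x20000050000000000000082000000000000000000000000 := rS 0x963aa78f85aa1ad5fb0d82c45927f (k8 c673 c633 c4333 c4309 c4325 c4301 c107 c4394 (k4 c5825 c4483 c4489 c1690 (k2 c1396 c929 k0))) (by decide +kernel)
def c7403 : PP 8 4 T 0x80040000100040000000000000082080000000000080000000002 := rS 0x557284c5a59478a42a055b9fdfb0564ae54249 (k8 c4281 c1734 c7402 c633 c4309 c4301 c673 c5279 (k8 c2 c286 c14 c849 c616 c7376 c511 c5927 (k2 c7398 c4464 k0))) (by decide +kernel)
def c7404 : PP 8 4 T 0x80000000000040000000000000082050000000000000000000002 := rS 0x1ca2d (k2 c7376 c6019 (k1 c7399 k0)) (by decide +kernel)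
def c7405 : PP 8 4 T 0x100000000000000000000000000000050000000000000000000000000020000240200 := rS 0x8ba4c7c3b (k4 c1062 c384 c1568 c4355 (k1 c4487 k0)) (by decide +kernel)
def c7406 : PP 8 4 T 0x110000000000000000000014000054051400000000000000000000010060000240042 := rS 0x93468701409 (k4 c7405 c4462 c567 c1027 (k2 c1030 c5931 k0)) (by decide +kernel)
def c7407 : PP 8 4 T 0x20000000000080001000000000000000000042 := rS 0x482d641d (k4 c2727 c857 c567 c1186 (k1 c4462 k0)) (by decide +kernel)
def c7408 : PP 8 4 T 0x910000000000000000000054010054010400800000000080000000010060000240002 := rS 0x180c55e24d36704832e849d4caad2e07 (k8 c2632 c2745 c4445 c4443 c4343 c4489 c4425 c7406 (k4 c889 c893 c1158 c589 (k2 c1175 c6031 (k1 c2020 k0)))) (by decide +kernel)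
def c7409 : PP 8 4 T 0x801000000000000000000054010044000400804000482080000000010060000200002 := rS 0x20c6534c53bb29107e503f61b054eaad922161a658316498701409098b6229503954c697 (k8 c2745 c42 c1598 c2632 c7407 c4333 c7376 c511 (k8 c7405 c4462 c567 c1030 c4487 c4420 c4443 c4958 (k8 c2827 c633 c4445 c4343 c4309 c4325 c4301 c7408 (k8 c5930 c676 c677 c2042 c1756 c6031 c4448 c1849 (k1 c6924 k0))))) (by decide +kernel)
def c7410 : PP 8 4 T 0x800000000000000000100008110000054100800000082000000000000000000000000 := rS 0x18abf4db29207e8abf61b0547a7532ab5db062d11 (k8 c4333 c4487 c4420 c1977 c4445 c4443 c4343 c849 (k8 c4309 c4325 c4301 c4353 c5279 c4486 c677 c893 (k2 c1244 c1757 (k1 c6031 k0)))) (by decide +kernel)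
def c7411 : PP 8 4 T 0x1000000001000080000000100800000000000000082000000000000040000000002 := rS 0x5cadd268d0e028129503a7d2e550a0a0c711098b51f125d9ed0481348c4da6b2f8150afda28d48ec92d28d5a59 (k8 c616 c7401 c940 c7404 c633 c4374 c4373 c4453 (k8 c4301 c7392 c2 c66 c2009 c905 c7393 c7394 (k8 c1896 c4484 c642 c1977 c4479 c849 c7376 c511 (k8 c4333 c42 c4468 c4555 c1598 c2745 c1570 c2632 (k8 c7407 c7405 c4462 c567 c1027 c1030 c7410 c5821 (k1 c7409 k0)))))) (by decide +kernel)
def c7412 : PP 8 4 T 0x2000080000000004041100000800000082080000000005000000000002 := rS 0x3905 (k2 c4309 c6048 (k1 c6052 k0)) (by decide +kernel)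
def c7413 : PP 8 4 T 0x1000000000000080000000100800000000000000082000000000000000000000002 := rS 0x31c54e52d28d5a5919a0902fda2a7532ab891a4620536a14d65f (k8 c66 c2009 c7392 c905 c2 c7393 c7394 c4479 (k8 c4445 c4443 c4343 c4453 c4301 c1896 c4484 c2908 (k8 c616 c7401 c940 c7404 c7412 c7411 c291 c7403 k0))) (by decide +kernel)
def c7414 : PP 8 4 T 0x1000000000040040000000000000000080000000000000000000000000001002 := rS 0x1e11 (k2 c2651 c1455 (k1 c4463 k0)) (by decide +kernel)
def c7415 : PP 8 4 T 0x40000015000044000000000000082082000005440080000000202 := rS 0x700e0892684a13f8d41a2723bf61b11638540a2d (k8 c7376 c2 c286 c7342 c4333 c4325 c4301 c1642 (k8 c355 c503 c1060 c7414 c897 c4489 c4421 c346 (k2 c4463 c2113 (k1 c4528 k0)))) (by decide +kernel)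
def c7416 : PP 8 4 T 0x40040015000008000000000000002082000005440004000000200 := rS 0x70e02235239241afd (k8 c4301 c503 c1663 c1603 c1060 c346 c2113 c4463 (k1 c4528 k0)) (by decide +kernel)
def c7417 : PP 8 4 T 0x400000000000008080000002 := rS 0x88e0dc23 (k4 c13 c4557 c352 c607 (k1 c1074 k0)) (by decide +kernel)
def c7418 : PP 8 4 T 0x1000040000004000040040000000000082080000000440084000000402 := rS 0x4f2d573164a8f47e7588b1ca813168540a0803884cb05 (k8 c4309 c68 c5902 c495 c4462 c2 c286 c7376 (k8 c511 c4464 c7342 c4333 c593 c289 c235 c5290 (k4 c4471 c5821 c4419 c7415 (k1 c7416 k0)))) (by decide +kernel)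
def c7419 : PP 8 4 T 0x1000040000000100040000000000000082080000000000080000000002 := rS 0x598f92a965b9fc1a271b878423b05874a85f7e9960a132ca3c52c70a8145ac9 (k8 c633 c7376 c2 c286 c7342 c14 c849 c616 (k8 c511 c4309 c68 c4301 c66 c4464 c7395 c567 (k8 c1641 c5902 c4466 c273 c7417 c503 c7414 c5279 (k4 c7418 c103 c6579 c665 (k1 c249 k0))))) (by decide +kernel)
def c7420 : PP 8 4 T 0x100000000000000000000002000000050400000000000000000000000000000000000 := rS 0x12717 (k2 c4419 c1659 (k1 c4487 k0)) (by decide +kernel)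
def c7421 : PP 8 4 T 0x40000005000040000000000000082082000005440084000000202 := rS 0x13eb9509fc1ac70a8145afd (k8 c4301 c7376 c2 c286 c7342 c503 c7414 c897 (k2 c7402 c7416 (k1 c7415 k0))) (by decide +kernel)
def c7422 : PP 8 4 T 0x40000000000000000400000000002080000000200004000000002 := rS 0x70082401e8d8abf61a0d (k8 c503 c4325 c4301 c4347 c1114 c4528 c4486 c4463 (k2 c889 c2562 k0)) (by decide +kernel)
def c7423 : PP 8 4 T 0x40000004000040000400000000082080000404400084010000002 := rS 0x12022555a8d47a37042543c9705c440e2132c1572a13f8358e15028b5fa39 (k8 c7422 c4301 c7376 c2 c286 c7342 c503 c7414 (k8 c897 c7402 c4309 c68 c5902 c495 c4333 c567 (k8 c6579 c4466 c5290 c4462 c273 c275 c1060 c7420 (k4 c7421 c344 c2113 c4199 k0)))) (by decide +kernel)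
def c7424 : PP 8 4 T 0x1001000000000040000000000800000000800000000000004000000000004005002 := rS 0x1e02e0b8882019 (k4 c1999 c4463 c607 c613 (k2 c772 c4465 (k1 c4432 k0))) (by decide +kernel)
def c7425 : PP 8 4 T 0x1000000000000000000000100840000000000000082080000000000084000000002 := rS 0x483511838141c5b9fc960d2ec351e1b41204d231369acbe857ed158e15028b5923f2381c423b7234ccb05 (k8 c4309 c68 c7413 c7419 c4403 c5902 c495 c4404 (k8 c4287 c633 c7376 c2 c286 c7342 c4453 c4301 (k8 c7392 c66 c2009 c905 c7393 c7394 c1896 c4484 (k8 c686 c849 c4325 c40 c503 c1857 c7414 c5279 (k4 c7423 c759 c7424 c1327 (k2 c1330 c4467 (k1 c5648 k0))))))) (by decide +kernel)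
def c7426 : PP 8 4 T 0x1000000000000000000000100840000000000000082080000000000080000000002 := rS 0x3e1d1308476e42f9960ad3 (k8 c7413 c4309 c68 c66 c7419 c4403 c5902 c7425 (k2 c2877 c7417 (k1 c4466 k0))) (by decide +kernel)
def c7427 : PP 8 4 T 0x1100000000000000000000000880000040800000002000000000000000000000000 := rS 0x89a5a1cfeca561f5425d (k8 c40 c132 c1353 c940 c941 c673 c2005 c4458 (k2 c2025 c4485 k0)) (by decide +kernel)
def c7428 : PP 8 4 T 0x40000000000000000000000000002050000000000000000000002 := rS 0x8a8d46e390688d20080e09ce256 (k8 c4476 c584 c2874 c750 c751 c880 c2733 c503 (k4 c1140 c233 c1060 c4351 (k1 c4470 k0))) (by decide +kernel)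
def c7429 : PP 8 4 T 0x10000000000000000000000000000000000000000000080000000000002020008002 := rS 0x34038284205 (k4 c2 c11 c759 c495 (k2 c5648 c1330 k0)) (by decide +kernel)
def c7430 : PP 8 4 T 0x2000000000015000000000000000000000000001401550000000000000 := rS 0x18e3f (k2 c4287 c4289 (k1 c2113 k0)) (by decide +kernel)
def c7431 : PP 8 4 T 0x1000000000000000000040000000000080000000000000140000000242 := rS 0x250aa141418e2213 (k8 c511 c4333 c42 c4468 c4555 c1598 c7405 c7407 k0) (by decide +kernel)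
def c7432 : PP 8 4 T 0x40000000000040000400000000080080001400110140110000002 := rS 0x955c0fdc8b58a2dc76971b8f4101e03c44260b (k8 c567 c511 c4333 c495 c4466 c4462 c274 c273 (k8 c1194 c1062 c7094 c4470 c4389 c7431 c4287 c7430 (k2 c5290 c5821 k0))) (by decide +kernel)
def c7433 : PP 8 4 T 0x1000000000000000000000100800000000000000082000000000000004000000002 := rS 0x454de711b01812201a87448492388c1c3925834065d8684c5a8f0db24565a699654682409a4626b2f815fb45459b50b05 (k8 c4309 c7392 c905 c720 c4453 c4301 c2 c66 (k8 c2009 c7393 c7394 c1896 c4484 c7427 c616 c7413 (k8 c7428 c7426 c633 c686 c849 c7376 c511 c4325 (k8 c40 c1 c503 c1857 c7422 c7424 c1327 c1332 (k8 c243 c4467 c7429 c1370 c7432 c230 c831 c312 (k4 c1416 c1019 c4386 c4480 k0)))))) (by decide +kernel)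
def c7434 : PP 8 4 T 0x1100000000000000100004020040040000814150000080000000000008000000082 := rS 0x9a3ca51647f60b2c2c0c (k8 c871 c508 c2027 c1987 c677 c7358 c665 c669 (k2 c860 c7150 k0)) (by decide +kernel)
def c7435 : PP 8 4 T 0x1000000000000000000000100800000000000000082000000000000000000000002 := rS 0x1433f9219cd056adc6e713a9f4e639488192e51238ec5e207214c981f148303a23130acb4c951b4cf6ab41449026918a2cda85579ac67450297dfb05888b4b28f (k8 c849 c616 c7376 c4333 c4309 c4301 c66 c2 (k8 c4453 c2908 c2009 c2915 c7392 c905 c720 c7393 (k8 c7394 c1896 c4479 c4484 c4445 c642 c7413 c7427 (k8 c633 c7428 c7426 c7433 c13 c2877 c871 c2880 (k8 c7417 c509 c4712 c4468 c4466 c1993 c4403 c4404 (k8 c4405 c926 c831 c2892 c361 c1021 c1291 c593 (k8 c2446 c321 c7094 c7434 c2112 c381 c380 c1521 (k2 c4421 c4483 k0)))))))) (by decide +kernel)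
def c7436 : PP 8 4 T 0x1000000000000000000004100040000000810000082080000000000048200000002 := rS 0x2867f24339a0ab56abc663189130f66d52d15fb0d82a15926b3aa5ce253289cc76e4148b62206548305ea7 (k8 c7435 c876 c871 c2976 c831 c4333 c7376 c2827 (k8 c4468 c4403 c1021 c4405 c4290 c2446 c926 c593 (k8 c5752 c633 c713 c4309 c4325 c4301 c4452 c1936 (k8 c2460 c642 c509 c4490 c357 c950 c984 c7434 (k4 c4445 c2112 c381 c380 (k2 c1521 c4421 (k1 c4483 k0))))))) (by decide +kernel)
def c7437 : PP 8 4 T 0x1000000000000000400000001454000040210000180000000000001550000006002 := rS 0x43d2d4aac55c49a23357bc4301744b3c950529945c911 (k8 c4333 c4468 c4405 c4290 c4309 c1293 c1366 c2045 (k8 c1835 c1294 c4434 c985 c951 c261 c4469 c5962 (k4 c2112 c4444 c4855 c1904 (k1 c4485 k0)))) (by decide +kernel)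
def c7438 : PP 8 4 T 0x2000000000000000000000400820000040001500014100080000000000000000000000 := rS 0x3c9eceec136a1d768b (k8 c2705 c4390 c1904 c945 c1987 c1192 c704 c669 (k1 c7040 k0)) (by decide +kernel)
def c7439 : PP 8 4 T 0x2000000000002000005500400810000000005550014080080000000001040200000002 := rS 0xaf19b00da783daad107735a75768b (k8 c2705 c4390 c2968 c5752 c1192 c2124 c1944 c2665 (k4 c7040 c601 c669 c950 (k2 c984 c5957 k0))) (by decide +kernel)
def c7440 : PP 8 4 T 0x2001001000000000000040004000440000001440010180080000400000148200000002 := rS 0x78aa8943368abc2e8656b3d7f4440a7d288b659259ab2a1284c705649d52e1b29944e63b720a622a9278bcde0f019f418b5189342206 (k8 c831 c2594 c4248 c356 c4389 c871 c1291 c1 (k8 c238 c1020 c876 c449 c2976 c4333 c2827 c4468 (k8 c4403 c1021 c4405 c4290 c2672 c926 c593 c633 (k8 c4309 c42 c897 c4483 c7358 c4395 c4421 c4425 (k8 c2705 c665 c1698 c7437 c4484 c4399 c4400 c7438 (k8 c7439 c1836 c1632 c1631 c951 c2116 c2112 c4434 (k1 c5962 k0))))))) (by decide +kernel)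
def c7441 : PP 8 4 T 0x14000000008000000004000500000001550004000002 := rS 0x19b455e17 (k4 c1836 c1632 c1631 c951 (k1 c2112 k0)) (by decide +kernel)
def c7442 : PP 8 4 T 0x2000000000540954000004001500414000080000000005140204000000 := rS 0x1e8da7978b04a63b (k8 c4403 c4290 c5957 c4542 c669 c5814 c2122 c704 k0) (by decide +kernel)
def c7443 : PP 8 4 T 0x540980001000001500414080080000000000000000000000 := rS 0x3d9e536c1 (k4 c1715 c2872 c669 c705 (k1 c2122 k0)) (by decide +kernel)
def c7444 : PP 8 4 T 0x2000000000000000000000500914000004005500014080080000000001140200000002 := rS 0xf27b3626c64af3ba743606720a622bb (k8 c4390 c4333 c2827 c4468 c831 c2672 c2968 c1192 (k4 c7443 c7442 c2863 c950 (k2 c705 c601 (k1 c7040 k0)))) (by decide +kernel)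
def c7445 : PP 8 4 T 0x2000000000000000000000400000001000001500014000080000000008000004000102 := rS 0x793d9dcd89b0cbc406bb (k8 c4390 c1 c4293 c254 c2863 c950 c6033 c705 (k2 c601 c7040 k0)) (by decide +kernel)
def c7446 : PP 8 4 T 0x4000014000000040000800080000000000005550000000080 := rS 0x57b45121829945c911 (k8 c4333 c4468 c4405 c4290 c1024 c2042 c261 c985 (k1 c2112 k0)) (by decide +kernel)
def c7447 : PP 8 4 T 0x14001000000002000080000000001005550000000080 := rS 0x68abc846d29945c911 (k8 c4333 c4468 c4405 c4290 c601 c501 c984 c340 (k1 c2112 k0)) (by decide +kernel)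
def c7448 : PP 8 4 T 0x2000000000000000000000500114000004041500014080080000000001540200000002 := rS 0x1e0af36224f4793b8cc7ac38b2ce0a9d0480cea97398ed76872894dc9110d8185263 (k8 c42 c2827 c831 c2672 c4333 c4468 c4290 c4405 (k8 c7441 c4390 c4403 c1021 c926 c593 c1 c230 (k8 c2968 c4309 c7444 c4481 c4362 c4416 c7445 c7446 (k4 c7447 c2122 c682 c704 (k2 c985 c5814 (k1 c4542 k0)))))) (by decide +kernel)
def c7449 : PP 8 4 T 0x2000000000002000000000000000000000100110020004041480014080080000000001540200000002 := rS 0x8043aad96bf3186c0c5328b905311 (k8 c4333 c2827 c4468 c4405 c4290 c831 c2672 c42 (k4 c4399 c4455 c1740 c7441 (k2 c7448 c1462 k0))) (by decide +kernel)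
def c7450 : PP 8 4 T 0x1000000000000040000000100040000000000000082080000400140040200000002 := rS 0x2a996864051526ad45a80fc3126a0e287d378bc180f132dc06fd319a50ac911894361138af5228f86a9d8e150314c7651720a45b11 (k8 c4333 c7376 c2827 c4468 c4405 c4403 c4290 c831 (k8 c2632 c7342 c7435 c4325 c849 c2892 c6223 c2446 (k8 c2594 c2672 c312 c2824 c633 c713 c884 c42 (k8 c4301 c1 c7094 c4467 c238 c871 c876 c1020 (k8 c1291 c4480 c7436 c4248 c356 c7440 c673 c2707 (k8 c900 c1738 c7449 c4484 c1462 c1901 c7441 c1740 k0)))))) (by decide +kernel)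
def c7451 : PP 8 4 T 0x1000000000000000000000100040000000000000082080000400140040200000002 := rS 0x6c180bc66185685d409f78a189227691458ee40a86c1625118a40c6b0e815fb05888b4d2a7 (k8 c7435 c884 c7376 c4333 c4309 c4301 c2 c11 (k8 c5752 c831 c2827 c2824 c312 c567 c2672 c2632 (k8 c4468 c7342 c4405 c7450 c4277 c4281 c6832 c5695 (k8 c5656 c2110 c1836 c1904 c4465 c951 c1870 c6231 (k2 c7393 c5699 k0))))) (by decide +kernel)
def c7452 : PP 8 4 T 0x1000002002000000000000010000000000000002080000000000000040110000002 := rS 0xea3d4b878163f (k4 c4287 c567 c4466 c6579 (k2 c274 c593 (k1 c5123 k0))) (by decide +kernel)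
def c7453 : PP 8 4 T 0x10500000002002000000000000000000114048000002100081000000000000000000802 := rS 0x25e2e75601dcae89 (k8 c52 c38 c4679 c4987 c1693 c4420 c929 c4487 k0) (by decide +kernel)
def c7454 : PP 8 4 T 0x10001000000000040000014000050054400000000000080000000140040040001802 := rS 0x27d1a2248840e20f (k8 c304 c7095 c4463 c889 c607 c1298 c1300 c5931 k0) (by decide +kernel)
def c7455 : PP 8 4 T 0x120000000002000000000000000050051000000000000000000000100044420000000 := rS 0x1ac5490b64fa344a2d638a476471ead62c93 (k8 c1030 c4487 c4419 c4416 c4404 c4403 c4402 c4289 (k8 c4285 c4381 c4383 c4384 c5153 c2110 c4353 c1037 (k1 c4209 k0))) (by decide +kernel)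
def c7456 : PP 8 4 T 0x2000000000000090000000000000000080000000000002040010000000 := rS 0x1e0218882c008731a22126c (k8 c984 c4317 c985 c42 c1632 c5084 c567 c4333 (k2 c5699 c6808 (k1 c7452 k0))) (by decide +kernel)
def c7457 : PP 8 4 T 0x400000002002000000000000410000410020004002080000000000001040010000000 := rS 0x79163990cf2064e88076754b8fc0109 (k8 c4317 c5084 c4287 c6579 c593 c4403 c7452 c2968 (k4 c831 c601 c4567 c1021 (k2 c7172 c5016 (k1 c4416 k0)))) (by decide +kernel)
def c7458 : PP 8 4 T 0x40000000000000400000000002000000000000014080010000000000081080000000000040010000000 := rS 0xee795d9c4129d1a080441f250c9e2315f9bd72fc469349e850ca0e127b6986d03455eb31965d441b1368717aa15c63889a58e531480c5a0b4b8fc00b358a8686cf (k8 c1524 c4393 c896 c624 c665 c5084 c4287 c6579 (k8 c567 c4285 c918 c4402 c4290 c4289 c924 c4333 (k8 c42 c4491 c4526 c2762 c1632 c2873 c984 c985 (k8 c2989 c1754 c989 c5748 c4398 c1361 c687 c6832 (k8 c705 c4317 c640 c2038 c685 c6220 c2062 c3459 (k8 c4484 c6781 c4378 c1485 c7456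 c7457 c5815 c4474 (k8 c5697 c1321 c4466 c833 c2968 c230 c1304 c3300 (k2 c601 c6033 (k1 c2122 k0))))))))) (by decide +kernel)
def c7459 : PP 8 4 T 0x40044000800080040000004402000080000000000000200800002 := rS 0x2109efc1a2f4e26f8aa0d62391badd70b5471844f435097630794ec262e94 (k8 c665 c4357 c4317 c2968 c601 c4482 c2821 c132 (k8 c4393 c2938 c2859 c858 c1436 c859 c1746 c4989 (k8 c360 c624 c640 c4388 c1345 c667 c1207 c4470 (k4 c4480 c3467 c6225 c523 k0)))) (by decide +kernel)
def c7460 : PP 8 4 T 0x1000000040000200000000000000000000000000050000100000000000000 := rS 0x9745 (k2 c4454 c1859 (k1 c4474 k0)) (by decide +kernel)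
def c7461 : PP 8 4 T 0x2001002000040000440900050020000405400000400040000008044200800400 := rS 0x929f11ad11a35382f50a2516b1c52471c934de81 (k8 c4380 c4378 c376 c360 c4404 c4402 c4289 c4285 (k8 c434 c523 c7460 c2122 c1304 c1385 c667 c833 (k2 c1699 c1703 (k1 c2110 k0)))) (by decide +kernel)
def c7462 : PP 8 4 T 0x2000000000000001000001000001 := rS 0xa03 (k2 c959 c695 (k1 c4461 k0)) (by decide +kernel)
def c7463 : PP 8 4 T 0x20000000000000000000000000000000000001500000000000044000080000005015800 := rS 0xb934f243 (k4 c4446 c4447 c324 c572 (k1 c2108 k0)) (by decide +kernel)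
def c7464 : PP 8 4 T 0x10000000001000000000005000014000554000000000000000000140400000200000000 := rS 0x4498a9d (k4 c967 c4530 c4488 c4553 k0) (by decide +kernel)
def c7465 : PP 8 4 T 0x100000000000000000000000000000050000000000000000000002000040000000000 := rS 0x12717 (k2 c4416 c1654 (k1 c4487 k0)) (by decide +kernel)
def c7466 : PP 8 4 T 0x1000000000000800010000080001000000000000 := rS 0x13713 (k2 c4442 c1969 (k1 c4567 k0)) (by decide +kernel)
def c7467 : PP 8 4 T 0x120000041020800000210018000000000000000000000 := rS 0xb764a35429f47a8e1a7f669714cfd8298996b98b4452a93 (k8 c1070 c2783 c4338 c4487 c4361 c3927 c2041 c4314 (k8 c4306 c2000 c2001 c3976 c677 c4330 c2806 c2780 (k4 c1340 c2794 c1338 c637 (k2 c5279 c5931 k0)))) (by decide +kernel)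
def c7468 : PP 8 4 T 0x1000000000000000000000015000040055500000000000000000000000000000000000 := rS 0x27a18a1 (k4 c4551 c4486 c2125 c4384 k0) (by decide +kernel)
def c7469 : PP 8 4 T 0x2001000000000000000000400001101501101405400001000000000000000000000000 := rS 0x1faa638af57718 (k4 c4482 c4449 c4354 c4387 (k2 c7247 c6225 (k1 c5558 k0))) (by decide +kernel)
def c7470 : PP 8 4 T 0x1000000000000000000000000001500000000000000000008040000055005200000000 := rS 0x34c722f (k4 c2777 c360 c6996 c4470 k0) (by decide +kernel)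
def c7471 : PP 8 4 T 0x1000000000000000000000010100080000400000000008000000000000000000000000 := rS 0x1b8fc5c (k4 c818 c819 c4628 c1459 k0) (by decide +kernel)
def c7472 : PP 8 4 T 0x200000000001008000000000000020000000 := rS 0xc2d88cbc6e (k4 c1067 c1068 c3282 c38 (k2 c7309 c4113 k0)) (by decide +kernel)
def c7473 : PP 8 4 T 0x20000000000000000000000000008000008 := rS 0x1a014 (k2 c678 c679 (k1 c2422 k0)) (by decide +kernel)
def c7474 : PP 8 4 T 0x20000000000000000000000000002000800 := rS 0xa852 (k2 c2038 c2039 (k1 c2251 k0)) (by decide +kernel)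
def c7475 : PP 8 4 T 0x20200000000800000000000000000000000 := rS 0xd0a4 (k2 c1381 c1382 (k1 c3950 k0)) (by decide +kernel)
def c7476 : PP 8 4 T 0x200800000001008000000000000200000000 := rS 0x1194cc4d369d78298d46952af4ba59178c414026909e1a23128dcdc5e (k8 c1068 c1067 c3359 c312 c3282 c4383 c7053 c4467 (k8 c798 c799 c2245 c2777 c37 c1338 c3066 c1937 (k8 c2001 c548 c549 c6467 c1237 c804 c4442 c2010 (k2 c5090 c4488 k0)))) (by decide +kernel)
def c7477 : PP 8 4 T 0x1000000002000000000000000000800000000000004000000001000800 := rS 0x2a55431d0e679 (k4 c47 c1621 c1893 c1892 (k2 c307 c591 (k1 c7313 k0))) (by decide +kernel)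
def c7478 : PP 8 4 T 0x11000444001514010000080040000000000000000000000000 := rS 0x220c3 (k2 c1088 c7273 (k1 c7287 k0)) (by decide +kernel)
def c7479 : PP 8 4 T 0x10000000000000081015000044041554002050000000001000000000001000144000 := rS 0x4fd0d8cc950b2d5911089241a47 (k8 c4374 c4371 c4281 c4275 c7287 c2127 c2027 c901 (k4 c717 c2107 c4391 c1391 (k1 c4489 k0))) (by decide +kernel)
def c7480 : PP 8 4 T 0x10000000000000080015000044041554002050000000009000000000001200104000 := rS 0x4e22cd (k4 c1481 c7287 c7061 c7479 k0) (by decide +kernel)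
def c7481 : PP 8 4 T 0x80015000000040014000000008000008000000000000002000800 := rS 0x18e13648f142963ea10bc7f1bbf422490691e12072ea0c1f0d5309466275293c9aa917984aa6339a242a878899c4002028c402b357aae249935a74db192126cec5b (k8 c38 c309 c1889 c308 c4446 c4674 c1092 c3829 (k8 c1072 c4488 c4445 c4346 c1191 c566 c4441 c268 (k8 c4461 c302 c2926 c7287 c7276 c389 c7474 c7478 (k8 c7141 c307 c5402 c1871 c4345 c4282 c2253 c4444 (k8 c4277 c2252 c2243 c4839 c4330 c6403 c1998 c813 (k8 c4 c4436 c4374 c4371 c4281 c4275 c4378 c1343 (k8 c1460 c4477 c5558 c1380 c7480 c2904 c927 c547 (k2 c1679 c330 (k1 c2107 k0))))))))) (by decide +kernel)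
def c7482 : PP 8 4 T 0x10000000000000000090015500000841590100000000000008140000000000200100000 := rS 0xcb6394e84cd678f13ea18b9249a47258dd6b1486a3d2227 (k8 c4277 c886 c2780 c4330 c4486 c4389 c4386 c4375 (k8 c4374 c4282 c4281 c4359 c2904 c7060 c927 c4541 (k4 c2067 c7057 c333 c330 (k2 c4425 c2116 k0)))) (by decide +kernel)
def c7483 : PP 8 4 T 0x80015000000040014000000000000008000000000000002000800 := rS 0xfa847e9fe08e509c59729738c517e8d37854c655439ce22b384a0d621168a24a2bd57aacce911023c1f0d5309404051989d4a4f26aa45e3189264d69d36c64849b3b184025b (k8 c38 c566 c5402 c309 c1889 c308 c4446 c4674 (k8 c1092 c3829 c1072 c4488 c4441 c1871 c4345 c4282 (k8 c2253 c4444 c4277 c2252 c268 c4461 c2243 c4839 (k8 c4330 c6403 c2780 c302 c886 c2926 c4445 c4346 (k8 c2014 c3798 c7474 c2254 c4275 c622 c1998 c4436 (k8 c1191 c7287 c7478 c7276 c307 c7141 c389 c7481 (k8 c1067 c1093 c4486 c4387 c7482 c5821 c4487 c7061 (k4 c4963 c4464 c4313 c7058 (k2 c5558 c4409 (k1 c7480 k0)))))))))) (by decide +kernel)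
def c7484 : PP 8 4 T 0x1000000000000000600000000800000000400000001000000000000000000000000 := rS 0x10afd (k2 c4305 c717 (k1 c5558 k0)) (by decide +kernel)
def c7485 : PP 8 4 T 0x90008040000800000010000000001000040080000000002004048 := rS 0x8aafc6ccf63324fa7f8204c2ae52aa1d963c2952c22490691e12838caf49b45 (k8 c4453 c4282 c2014 c4446 c1998 c4436 c4374 c4371 (k8 c4281 c4275 c4459 c2054 c2055 c3932 c3812 c4151 (k8 c4290 c2279 c1679 c4464 c4313 c4409 c7484 c2107 (k4 c1519 c330 c1216 c4386 (k1 c4493 k0))))) (by decide +kernel)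
def c7486 : PP 8 4 T 0x80011000000040010000000000000008000000000000002000800 := rS 0x4f3f58ee43fa860a550a84cc8721e98d729749444b24906abd562b33a45860f86a984a2f5d88152a5139349633208080a3189264d69d36c65367630804b6892113da207 (k8 c4 c2254 c2253 c308 c7474 c38 c566 c5402 (k8 c309 c1889 c4446 c4674 c1092 c3829 c1072 c4488 (k8 c4441 c268 c4461 c1873 c2252 c4375 c4282 c4277 (k8 c4444 c4345 c302 c6959 c1871 c2243 c4839 c4330 (k8 c6403 c7485 c886 c2926 c2244 c4445 c4346 c4371 (k8 c4281 c37 c7287 c7483 c74 c3068 c1609 c1654 (k8 c1069 c1070 c7061 c383 c306 c4408 c3664 c555 (k4 c7078 c7228 c7059 c6499 (k1 c7069 k0))))))))) (by decide +kernel)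
def c7487 : PP 8 4 T 0x80010000000040010000000000000008000000000000002000800 := rS 0x880b10c935694d805157aac562933acd860f86a984a2f5d88152a5139349633208080a3189264d69d36c6536610096d124227b440e76 (k8 c309 c4 c2254 c2253 c308 c7474 c38 c566 (k8 c5402 c1889 c4446 c4674 c1092 c3829 c1072 c4488 (k8 c4441 c268 c4461 c1873 c2252 c4375 c4282 c4277 (k8 c4444 c4345 c302 c6959 c1871 c2243 c4839 c4330 (k8 c6403 c7485 c1191 c2926 c2776 c2244 c4445 c4346 (k8 c3798 c7486 c3805 c1986 c1661 c1892 c2112 c7276 (k1 c4332 k0))))))) (by decide +kernel)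
def c7488 : PP 8 4 T 0x10000000044000020000000000000008100000005400000000808 := rS 0x3960a1329054c43b2aab45a592d8ac5220 (k8 c302 c2776 c2244 c38 c37 c2781 c2783 c7046 (k8 c1576 c802 c382 c2112 c571 c4407 c4290 c4464 k0)) (by decide +kernel)
def c7489 : PP 8 4 T 0x80010000000000000000000000000008000000000000002000800 := rS 0x7e24cbe733fc11ca718a234ea3d5ca5e2cc1a5855586388a89621133a44ba8347acd860f86a984abb102a54a272692c82614493c0e9501015563157c49326b4e9b6329b28908ec2f0096da233 (k8 c2252 c2254 c38 c566 c1871 c309 c308 c3798 (k8 c1889 c4446 c4674 c1092 c3829 c1072 c4488 c4346 (k8 c4441 c4445 c268 c4461 c7488 c4 c2253 c7474 (k8 c5402 c1873 c4375 c4282 c4277 c4444 c4345 c302 (k8 c6959 c2243 c4839 c4330 c6403 c7485 c1191 c2780 (k8 c1998 c813 c886 c2926 c4275 c622 c7487 c4337 (k8 c2806 c940 c383 c4458 c1986 c4494 c4359 c4361 (k8 c4416 c4417 c1467 c4486 c4387 c4963 c7079 c4313 (k4 c4408 c1465 c1069 c4477 (k1 c7058 k0)))))))))) (by decide +kernel)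
def c7490 : PP 8 4 T 0x80000000000000000000000000000008000000000000002000800 := rS 0x32ab0fc53638b592a37232c27053e854aa751e9c91487a5b101e8186a98ce29128ac400202aad4a3157aa624994e9acda518ca6c5e613c9ed1242279d9a23300824b611139241a470dc25064d (k8 c4282 c1998 c4436 c36 c4374 c4371 c4281 c4277 (k8 c4275 c38 c31 c566 c2252 c2254 c309 c2253 (k8 c308 c7474 c702 c1959 c5402 c1871 c1889 c4446 (k8 c3798 c4674 c3829 c1092 c1072 c4488 c4345 c4346 (k8 c4441 c4444 c4445 c268 c4461 c302 c2244 c2243 (k8 c2776 c2926 c4839 c4330 c1897 c6403 c7489 c4429 (k8 c1635 c1096 c1095 c1782 c1785 c4151 c389 c1773 (k8 c4408 c1561 c3685 c7079 c941 c7484 c4285 c4289 (k4 c4290 c2107 c2112 c555 (k1 c4903 k0)))))))))) (by decide +kernel)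
def c7491 : PP 8 4 T 0x1000000000020000000000000000000000000008000000005000022000008 := rS 0xf49d3b9e624061785e1319 (k8 c4370 c4436 c8 c797 c791 c4469 c500 c3006 (k2 c4343 c4482 (k1 c1226 k0))) (by decide +kernel)
def c7492 : PP 8 4 T 0x2000080020000020040000000000000000008000000000000002000000 := rS 0x2f341090e453da6c1000018703e05208c5e23b29a0c9a2105c64666d (k8 c2950 c255 c4370 c7490 c799 c4282 c1998 c4290 (k8 c4403 c5695 c2046 c1055 c268 c1066 c4466 c7491 (k8 c4461 c751 c2711 c3240 c257 c1635 c4472 c6027 (k2 c1952 c756 k0)))) (by decide +kernel)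
def c7493 : PP 8 4 T 0x1001000000020000000000000000000000000000500110000000000000200 := rS 0x21342334b (k4 c4429 c4370 c4475 c4472 (k1 c2153 k0)) (by decide +kernel)
def c7494 : PP 8 4 T 0x101000002000000080060000101050514500000001500440000004400000100000200 := rS 0xfd30afc1c701b2de1a3d8b2d5729752a762439248d48e4f (k8 c4297 c4374 c4373 c4281 c4279 c4479 c4343 c4444 (k8 c1252 c5821 c7420 c4487 c4416 c5204 c5964 c2113 (k4 c233 c232 c1511 c584 (k2 c4376 c6348 k0)))) (by decide +kernel)
def c7495 : PP 8 4 T 0x80020000020040000000000000000008400100000000002000002 := rS 0xbcd0f0508ed8e2a20a4d622d4d97c105b2485e1299889b52a6b28aa5ca291fa3c720d468703e05188841635 (k8 c4373 c7490 c799 c2046 c268 c1066 c4466 c1027 (k8 c4371 c4279 c4656 c1249 c781 c7492 c948 c3781 (k8 c3957 c2783 c2950 c4338 c3072 c4436 c8 c4281 (k8 c38 c751 c488 c2711 c2917 c3160 c3050 c1064 (k8 c4468 c291 c1640 c1734 c7493 c7494 c4432 c756 k0))))) (by decide +kernel)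
def c7496 : PP 8 4 T 0x80020000020040000000004000000008400000000000002000000 := rS 0x1dcf20604808024584c64381f028c4420b (k8 c7490 c799 c2046 c268 c1066 c4466 c4370 c4436 (k8 c257 c7495 c4461 c1058 c791 c1959 c3006 c4482 k0)) (by decide +kernel)
def c7497 : PP 8 4 T 0x110000000000000000200000000050000000000000001000000000000000000000000 := rS 0x13f43 (k2 c4422 c1665 (k1 c4489 k0)) (by decide +kernel)
def c7498 : PP 8 4 T 0x80020000020040000000000000000008400000000000002000000 := rS 0x2452a9d0a5c5fac192b95a8e8fa7f1ec121ad127adce717781bce26150a585f1303114d09c3a8257a793d0703e051f8c44e4d0688c6a472585c420b60ace226b548ccdae5 (k8 c7492 c2950 c255 c948 c3957 c4338 c3267 c111 (k8 c7490 c799 c8 c4375 c4374 c4373 c4372 c4371 (k8 c4282 c4277 c2046 c1249 c268 c1066 c4466 c7496 (k8 c99 c3182 c3240 c709 c1226 c1227 c7132 c4462 (k8 c4343 c785 c946 c2907 c2890 c496 c1019 c4469 (k8 c4359 c3246 c1166 c4297 c4298 c5264 c4481 c1782 (k8 c4313 c4409 c4471 c1578 c1045 c7497 c2121 c3258 (k4 c1148 c715 c907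 c1342 (k2 c4524 c1336 k0))))))))) (by decide +kernel)
def c7499 : PP 8 4 T 0x2000000080000000201000000000000000600008000000004000002000000 := rS 0x4a05032154ea504970b2271c88c96832682c9e2f (k8 c4432 c4297 c7490 c4282 c1998 c4375 c4372 c4279 (k8 c4277 c37 c1148 c1145 c1342 c813 c1497 c4462 (k2 c526 c1336 (k1 c4524 k0)))) (by decide +kernel)
def c7500 : PP 8 4 T 0x2000000080020000020040000004000000200008000000000000002000100 := rS 0x3e9fe08b78bae56ac94b0e94273868b0f4313a9dcde7102a4c38790307cb20d1a91e122105c6567111e9498629308045eb1199b5526b (k8 c3957 c948 c2950 c255 c7499 c4432 c756 c5402 (k8 c780 c167 c7498 c333 c4338 c3267 c4370 c7490 (k8 c799 c4436 c4374 c4373 c4371 c37 c1065 c4462 (k8 c1959 c4466 c2996 c526 c496 c1019 c3006 c499 (k8 c1879 c4482 c4712 c5264 c1231 c2901 c7177 c912 (k8 c7497 c1578 c1045 c4359 c1166 c4481 c4313 c4409 (k1 c2121 k0))))))) (by decide +kernel)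
def c7501 : PP 8 4 T 0x2000000080020000020040000004000000200008000000000000002000000 := rS 0x224303b010861e3d87410012d88417194c9b48a2f (k8 c4432 c4295 c2950 c3072 c4370 c7490 c799 c38 (k8 c756 c7500 c1058 c1224 c4466 c4717 c1066 c4540 (k2 c268 c4703 (k1 c4441 k0)))) (by decide +kernel)
def c7502 : PP 8 4 T 0x2000000080020000020040000004000000000008000000000000002000000 := rS 0x12e2c0e274621f89014d22917c24420b889b4d652 (k8 c7498 c3957 c2950 c4338 c7490 c799 c4436 c4432 (k8 c780 c7501 c269 c4479 c1066 c7393 c4343 c4466 (k2 c4712 c1252 (k1 c912 k0)))) (by decide +kernel)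
def c7503 : PP 8 4 T 0x20000020000000000000000100008800000000000102000000 := rS 0x12e2c0e274621f14c480a2f84c44da6b (k8 c3957 c2950 c4338 c4436 c1870 c269 c4479 c780 (k4 c1066 c7393 c4343 c4466 (k2 c4712 c1252 (k1 c912 k0)))) (by decide +kernel)
def c7504 : PP 8 4 T 0x1000000000020000000000000000000000200008800000004000102000010 := rS 0x2e4d9080045018fc38310fc6482c3 (k8 c167 c2034 c4370 c1066 c1879 c4466 c3265 c7491 (k4 c418 c4461 c4472 c2711 (k2 c756 c1952 k0))) (by decide +kernel)
def c7505 : PP 8 4 T 0x1000000000020000000000000000000000200008800000004000002000400 := rS 0x21020f245038c0085910c6482c3 (k8 c167 c2034 c4370 c799 c37 c7504 c268 c526 (k4 c2196 c3864 c4462 c4472 (k1 c237 k0))) (by decide +kernel)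
def c7506 : PP 8 4 T 0x2000000080020000020040000000000000000008000000000000002000000 := rS 0x963d1c8cc86 (k4 c7502 c1905 c1634 c1635 (k2 c920 c3246 k0)) (by decide +kernel)
def c7507 : PP 8 4 T 0x80020000020040000000000000000008000000000000002000000 := rS 0x3c0d052199b4420b (k8 c7490 c799 c2950 c255 c7498 c7503 c7505 c7506 k0) (by decide +kernel)
def c7508 : PP 8 4 T 0x400000000000000000000000000004000000000200400 := rS 0xe09 (k2 c384 c648 (k1 c4462 k0)) (by decide +kernel)
def c7509 : PP 8 4 T 0x10411000002000000080400008100000000000000001000008000000000000020000180 := rS 0xfc5fc54b25b (k4 c38 c37 c4353 c1247 (k2 c5772 c5051 k0)) (by decide +kernel)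
def c7510 : PP 8 4 T 0x10400000002000000080600000080000000000000000200000000000000000002000010 := rS 0x14aa742894b8271192e1283268cc9e6b308045e62 (k8 c828 c4432 c756 c5402 c43 c4297 c4293 c4282 (k8 c1998 c4436 c4375 c4372 c4277 c1729 c5569 c717 (k2 c7484 c1342 (k1 c4524 k0)))) (by decide +kernel)
def c7511 : PP 8 4 T 0x401000002000000080520011100000000000050040200008000000000000020000180 := rS 0x94bb0c8aada32b336814b271378d4ea3d68a3c720d (k8 c4371 c4279 c4656 c4298 c1782 c499 c4373 c1019 (k8 c496 c37 c526 c44 c3267 c4370 c2121 c4353 (k4 c7509 c4628 c4381 c5130 k0))) (by decide +kernel)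
def c7512 : PP 8 4 T 0x2000000080000100200000000000000000200008000000000000002000000 := rS 0x85543f61283268ccd66d (k8 c44 c43 c4293 c4282 c1998 c4436 c4303 c7499 (k2 c715 c5323 k0)) (by decide +kernel)
def c7513 : PP 8 4 T 0x1000000000002000000000000000000000000000405000000000000000 := rS 0x7717 (k2 c4419 c1578 (k1 c4471 k0)) (by decide +kernel)
def c7514 : PP 8 4 T 0x1000000000020000000000000000000000000000005010000000000000 := rS 0x7717 (k2 c4361 c1045 (k1 c4471 k0)) (by decide +kernel)
def c7515 : PP 8 4 T 0x10400000002000000080200000010000000000000000200000800000000100002000018 := rS 0x12a94be65882bd4e851388c9709418cc9e61008bd964d (k8 c4282 c2022 c4432 c756 c5402 c4297 c4293 c1998 (k8 c4436 c4375 c4372 c4277 c717 c7484 c7510 c4179 (k4 c4412 c546 c1883 c225 (k1 c4524 k0)))) (by decide +kernel)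
def c7516 : PP 8 4 T 0x1000000000000000000000000020000000001000400000000000100000 := rS 0x2705 (k2 c4409 c1562 (k1 c4464 k0)) (by decide +kernel)
def c7517 : PP 8 4 T 0x1000000000000000000000000080000000001000000000000000101000 := rS 0x2705 (k2 c4313 c514 (k1 c4464 k0)) (by decide +kernel)
def c7518 : PP 8 4 T 0x2000000080020000010000000000000000200008800000000000002000080 := rS 0x1931358a717a7a169ccee790e0080a092c85e13194bad5723d688d5964d3e91cfe55448547e455982dca0d (k8 c4371 c5695 c7490 c3267 c4295 c1248 c7508 c2040 (k8 c253 c7517 c4374 c7516 c4282 c2022 c4373 c4298 (k8 c1782 c7514 c7513 c1253 c4370 c4436 c8 c37 (k8 c3 c526 c1018 c1017 c500 c3006 c1022 c912 (k4 c4482 c3182 c1226 c7512 (k2 c4343 c7515 (k1 c7511 k0))))))) (by decide +kernel)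
def c7519 : PP 8 4 T 0x20000000000000000000000200008000100000000102000201 := rS 0x890c0ec0421878f61d2dc65326d (k8 c44 c3072 c4370 c38 c1058 c1224 c4466 c4717 (k4 c1066 c4540 c268 c4703 (k1 c4441 k0))) (by decide +kernel)
def c7520 : PP 8 4 T 0x2000000000000000014000004000000480200000400000001100000000080 := rS 0x2bc522b45950743368944022f (k8 c4432 c756 c4435 c4298 c4293 c1021 c1022 c1771 (k4 c1640 c1599 c829 c2112 k0)) (by decide +kernel)
def c7521 : PP 8 4 T 0x40000000000000001000002000000000000000054000000014000000000000400000001100000000008 := rS 0x11705310a0662f288acaad1 (k8 c4298 c4151 c226 c4435 c4432 c4293 c2112 c794 (k2 c4407 c1768 (k1 c4485 k0))) (by decide +kernel)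
def c7522 : PP 8 4 T 0x2000000080020000010000000000000000200008000000000000002000000 := rS 0x190cb312295c7f3e9550e7389ac538bd3d0c5562d299dc040549870f2060f82402892c83612218cd2d2e2f0aacc16b523ae47ad11f915ca35 (k8 c4373 c5695 c4295 c1248 c4298 c1782 c7514 c4374 (k8 c7513 c7490 c3267 c7508 c4432 c1253 c4429 c4370 (k8 c799 c4436 c4371 c37 c2040 c756 c7519 c1065 (k8 c4462 c1959 c4466 c2996 c526 c1018 c3006 c7518 (k8 c912 c1674 c1879 c4482 c3182 c1226 c7512 c4343 (k8 c7520 c1634 c4151 c7516 c7517 c7521 c829 c828 (k2 c3684 c7511 (k1 c7510 k0)))))))) (by decide +kernel)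
def c7523 : PP 8 4 T 0x20000000000000000004000000000000000000000002000080 := rS 0x773c85e1319 (k4 c4370 c4436 c8 c500 (k2 c3006 c4482 k0)) (by decide +kernel)
def c7524 : PP 8 4 T 0x1000002000000080020000100040504500000001520040000000400000100000202 := rS 0x31d422a888fc8a952f8355312 (k8 c4479 c4345 c4371 c488 c1787 c4295 c1248 c4412 (k4 c491 c1737 c291 c7494 k0)) (by decide +kernel)
def c7525 : PP 8 4 T 0x40000000000000001000000000000010000000014000000054000001550000000000000000000000002 := rS 0x311555f12 (k4 c4479 c4346 c4151 c2120 (k1 c755 k0)) (by decide +kernel)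
def c7526 : PP 8 4 T 0x10000000000000000080000000000000000000000008502000000000000000100000 := rS 0x7e9841c7d (k4 c1352 c250 c883 c4376 (k1 c4477 k0)) (by decide +kernel)
def c7527 : PP 8 4 T 0x40000000000000000000000000000000000000051120000020500001501500000000000000000000000 := rS 0x3368aa642b3e86cb (k8 c2024 c4423 c1794 c685 c2119 c4453 c2066 c4495 k0) (by decide +kernel)
def c7528 : PP 8 4 T 0x10000000000000080060111051100000020402440500008000005000000000000202 := rS 0x19b45532159ebfa1ad9423707bf102613796c72491a91e334b3d97c1a5d119b476cb (k8 c2024 c1061 c961 c4372 c752 c4371 c488 c1227 (k8 c4429 c4370 c4374 c4373 c4281 c4279 c38 c5468 (k8 c881 c7000 c4477 c4376 c232 c7527 c2113 c4424 (k4 c1247 c1797 c603 c2119 (k2 c4453 c2067 (k1 c4495 k0)))))) (by decide +kernel)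
def c7529 : PP 8 4 T 0x2000000080020000000040000000000440000008000000000000002000000 := rS 0x298c2fd42a04fc0e679f58c544419516758b0ecb68326d2d32674b93c2ab35a91d723d688fc8ae54da1d1e39468d5625f06974002355a4c10bd3c46552af52c36246d849ac06073d8703e0534ab4420b (k8 c7490 c799 c7507 c7522 c269 c1066 c4466 c1227 (k8 c7523 c791 c1919 c4436 c961 c4479 c5204 c4444 (k8 c4346 c4345 c4370 c4482 c3917 c4462 c3050 c1674 (k8 c4372 c1058 c752 c4371 c488 c3160 c4373 c1027 (k8 c4279 c4656 c1635 c804 c5695 c4295 c1248 c4298 (k8 c1782 c7514 c4374 c7513 c3267 c7508 c4297 c1253 (k8 c920 c3072 c4429 c4282 c1998 c38 c1061 c4471 (k8 c4417 c4632 c7524 c7525 c2039 c7528 c1352 c1519 (k8 c250 c251 c2045 c685 c4376 c672 c2119 c4532 k0))))))))) (by decide +kernel)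
def c7530 : PP 8 4 T 0x40000000000000010000000000000080000111051100000020402001501502000005400000000000200 := rS 0x3368aa642b3d7f435b2858e374083df839248d48ecb (k8 c2024 c4374 c4373 c4281 c4279 c4477 c4376 c4380 (k8 c232 c250 c7527 c2113 c4424 c1247 c1797 c603 (k4 c2119 c4453 c2067 c4495 k0))) (by decide +kernel)
def c7531 : PP 8 4 T 0x2000000080020000000040000000000400000008000000000000002000000 := rS 0x1bb1d6e6e3fbf4c03b2a04d9288829ca1aa557aa57b123c1b472490bc25064d8cd2cce975a91d723d688fc8ae51aa1d626b0197c1a5d000200e7b0e07c0a69568841623 (k8 c4372 c7490 c799 c7507 c7522 c269 c1066 c4466 (k8 c1227 c7523 c4462 c1058 c752 c4371 c488 c791 (k8 c1919 c3160 c1635 c4373 c5695 c4295 c1248 c4298 (k8 c1782 c7514 c4374 c7513 c1253 c920 c4429 c4370 (k8 c4282 c1998 c4436 c8 c4281 c4279 c961 c4482 (k8 c4479 c3917 c4345 c4346 c4444 c5204 c7529 c4408 (k8 c4683 c636 c516 c2039 c1062 c7530 c4301 c672 (k4 c881 c5279 c251 c1344 (k1 c2113 k0))))))))) (by decide +kernel)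
def c7532 : PP 8 4 T 0x80000000100000000000000800002008040110000000002000000 := rS 0x375dafd7a7137241fa5b1c8d49683269e4860b (k8 c7490 c1887 c47 c4282 c1998 c4375 c4373 c4279 (k8 c38 c4301 c880 c881 c584 c6133 c3094 c1350 (k2 c1344 c2114 k0))) (by decide +kernel)
def c7533 : PP 8 4 T 0x200001000000000080400011100044054500450100005000040150000000000000202 := rS 0xbd1bafce2b65da85230c1c9346a4b2f834ba23 (k8 c4372 c752 c4371 c488 c4375 c4373 c4282 c4279 (k8 c4477 c4327 c4329 c4847 c2125 c7316 c1247 c233 (k2 c6133 c2114 k0))) (by decide +kernel)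
def c7534 : PP 8 4 T 0x2000000080020000000040000000000000000008000000000000002000000 := rS 0xae893393abc54aed7e3750204de0f64bf0c29f3f9f6206565c14aa633a9c914433c9d8ba5f49ac4000803a351e1c0fa540a7b4d9a572b50a8f47ee520b449e451c83446352392d064d1082e32b34c99d2ead (k8 c7507 c1253 c920 c3072 c3267 c4370 c7490 c799 (k8 c4282 c1998 c4375 c4374 c4373 c4372 c4371 c4279 (k8 c4295 c4297 c4298 c4433 c5695 c1248 c1782 c7508 (k8 c7513 c7514 c7522 c804 c1227 c269 c1787 c1066 (k8 c4466 c4656 c1027 c7523 c4462 c1058 c3160 c3050 (k8 c488 c752 c7531 c47 c1887 c1096 c1095 c1785 (k8 c1769 c1766 c4408 c3685 c1648 c4478 c7516 c7517 (k8 c6233 c7532 c7533 c4305 c4376 c4378 c4380 c2118 (k8 c232 c1093 c1890 c981 c2114 c1174 c1176 c4488 (k2 c1794 c4346 k0)))))))))) (by decide +kernel)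
def c7535 : PP 8 4 T 0x1000000000020000000000000000000800000000000000000000002000400 := rS 0x8007219143719 (k4 c4370 c36 c1090 c1887 (k2 c3006 c4472 (k1 c1873 k0))) (by decide +kernel)
def c7536 : PP 8 4 T 0x800002000001000000420510010040414500002000400508000000000000000100000 := rS 0x67d0d409f5ba4628cd5dd161aa642c66969734abd4a81 (k8 c4380 c4444 c4346 c1960 c1253 c4429 c4370 c603 (k8 c4130 c4330 c4453 c1978 c2066 c4493 c4351 c4353 (k4 c7080 c5931 c4423 c1794 (k1 c4495 k0)))) (by decide +kernel)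
def c7537 : PP 8 4 T 0x800002000001000000420111010040414500002000400508000000000000000100000 := rS 0x19f435027e28b766a468abea5a5d3aaf (k8 c4346 c4343 c1253 c4429 c7536 c4399 c1244 c1485 (k4 c1247 c7468 c7080 c2125 (k2 c4423 c1794 (k1 c4495 k0)))) (by decide +kernel)
def c7538 : PP 8 4 T 0x80020000000040000000000000001008000100000000002000040 := rS 0x9218a77eb2d4aa95cad4a43189394ba5f359a5260001a55368d478705e1f1ea1cf0056893cf608138e41a231a91c970910ab4666d288547eb35e90a32413bbc4164d (k8 c4282 c7490 c7534 c7535 c1872 c4370 c4472 c2014 (k8 c3267 c1248 c7508 c1595 c961 c255 c7507 c799 (k8 c4436 c4375 c4374 c4373 c4372 c4371 c4279 c4277 (k8 c4462 c1224 c2152 c2153 c2189 c237 c1635 c1782 (k8 c1066 c3862 c4466 c4656 c1027 c764 c763 c791 (k8 c1058 c3050 c1960 c1919 c488 c752 c6060 c4479 (k8 c7393 c7493 c7513 c7514 c4345 c4444 c2022 c7537 (k4 c4532 c4477 c2111 c4381 k0)))))))) (by decide +kernel)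
def c7539 : PP 8 4 T 0x1000000000020000000000000000000000000008000000004000002000080 := rS 0x1a0607a0e0080a59 (k8 c37 c526 c1018 c1017 c7523 c7491 c1227 c1879 k0) (by decide +kernel)
def c7540 : PP 8 4 T 0x8000000008000000000000100000200 := rS 0x3e1d (k2 c3240 c3243 (k1 c4466 k0)) (by decide +kernel)
def c7541 : PP 8 4 T 0x80000015000000000020040000000000000005040000000500200 := rS 0x638ec27051c9246a47 (k8 c4374 c4373 c4281 c4279 c4314 c516 c1062 c7228 (k1 c2113 k0)) (by decide +kernel)
def c7542 : PP 8 4 T 0x80020000000040000000000000000008000000000000002000000 := rS 0x8b1d0768a39a24ca2b5a94956e51badd26b9348f4d66e481fc00fd688bc2a601f944847843914f6b10401c6641369dde2674bab472470bc25064d1082e334b (k8 c4429 c4370 c7490 c799 c4282 c1998 c4436 c8 (k8 c4374 c4279 c7507 c1253 c920 c7534 c7535 c961 (k8 c1872 c255 c7539 c4462 c1145 c7540 c257 c1635 (k8 c4482 c4540 c1595 c1248 c7538 c389 c3862 c2153 (k8 c4301 c5402 c672 c880 c881 c620 c1782 c756 (k8 c3272 c3075 c4711 c1344 c6060 c1674 c7493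 c7513 (k8 c293 c491 c7541 c4683 c7525 c1061 c604 c4471 (k1 c4417 k0)))))))) (by decide +kernel)
def c7543 : PP 8 4 T 0x80020000400080014500000001545500000110000100002100200 := rS 0x7f38c51f85586b457291782252e534e8c6240d84d2e222911945623902b950e7b (k8 c1224 c1635 c6832 c269 c4279 c1145 c1595 c4372 (k8 c778 c4337 c4429 c4436 c4371 c4479 c7393 c4343 (k8 c4712 c1252 c2038 c7493 c938 c6781 c4298 c5204 (k4 c4151 c4477 c4486 c4135 (k2 c7517 c7058 k0))))) (by decide +kernel)
def c7544 : PP 8 4 T 0x80020000000000000000000000100008000100000000002000040 := rS 0x68ab9e0ad899b0546755974c62d2f9ad260001a351e1c0fb940a591c8346a21a5c44c25b4a8a544230a8fd6641439ec100b (k8 c7490 c4462 c1224 c1635 c1873 c3267 c1248 c7508 (k8 c4372 c7542 c778 c2782 c38 c6594 c4337 c4429 (k8 c799 c4373 c4371 c4279 c37 c269 c6832 c1066 (k8 c4466 c4656 c1027 c791 c1058 c3050 c1919 c488 (k8 c2917 c2716 c752 c1674 c7399 c4468 c7543 c4341 (k4 c944 c6017 c4491 c4298 (k1 c1774 k0))))))) (by decide +kernel)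
def c7545 : PP 8 4 T 0x80020000000000000000000000000008000100000000002000040 := rS 0x5e004e9a0f608208841719 (k8 c4370 c7490 c799 c1873 c4462 c1224 c7544 c825 (k2 c7519 c4826 (k1 c756 k0))) (by decide +kernel)
def c7546 : PP 8 4 T 0x80020000000000000000000000000008000100000000002000000 := rS 0x8464094fe2b2a9cd72871eb2d58e56893d62a7899f5e0a53427112bd338cc5eab3d0700405498240cb50a8fcb2272683446352585e122105d2d66a2 (k8 c7542 c3267 c4429 c7490 c799 c4436 c8 c4375 (k8 c4373 c4372 c4371 c4282 c4277 c37 c1248 c7508 (k8 c5129 c7545 c3 c2996 c526 c1018 c1017 c7523 (k8 c1674 c797 c6288 c2924 c3182 c682 c1226 c1227 (k8 c1470 c7539 c1354 c4343 c2946 c7512 c4297 c4298 (k8 c5695 c7522 c2026 c1782 c1905 c7514 c1231 c4151 (k4 c226 c7517 c1464 c7511 (k2 c4524 c717 k0)))))))) (by decide +kernel)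
def c7547 : PP 8 4 T 0x8000200000000102000000 := rS 0xf408 (k2 c256 c257 (k1 c7540 k0)) (by decide +kernel)
def c7548 : PP 8 4 T 0x40000000000000400000000000000080000200004480001000450000200009040000000000000100020 := rS 0xe12b258ece5604d9aaf14a568711089241a2323a64b345 (k8 c4454 c37 c1881 c4374 c4372 c4371 c4281 c4275 (k8 c4337 c4393 c2782 c778 c2820 c6588 c531 c4491 (k4 c6601 c1519 c1793 c3499 (k2 c2107 c264 k0)))) (by decide +kernel)
def c7549 : PP 8 4 T 0x1000000000000000000000000000080000000020140000000150000000001000000000400002100020 := rS 0x10afd6403c4ac709c30542954b2c22490691e128389a9c604d (k8 c4282 c268 c2006 c4441 c1998 c4436 c4374 c4371 (k8 c4281 c4275 c2027 c948 c780 c2047 c4490 c531 (k4 c291 c4381 c264 c2107 (k2 c4305 c717 (k1 c4484 k0))))) (by decide +kernel)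
def c7550 : PP 8 4 T 0x1000000000001000000200000100000000000000004000000000001500000000000000 := rS 0x7f175b1d0e0fd (k4 c4305 c4480 c586 c587 (k2 c4417 c1161 (k1 c4471 k0))) (by decide +kernel)
def c7551 : PP 8 4 T 0x41000000000000000000000000000001410008000000000000000000000000000000000000000000000 := rS 0x19f43 (k2 c4424 c1796 (k1 c4495 k0)) (by decide +kernel)
def c7552 : PP 8 4 T 0x41000000000000000000000001000091011010000000000000000000000000140155440000000000000 := rS 0x19f43632dd965261ad62c39249346a47 (k8 c4374 c4373 c4282 c4281 c4279 c4471 c7513 c4362 (k4 c2115 c2022 c7551 c2113 (k2 c4391 c1519 (k1 c4495 k0)))) (by decide +kernel)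
def c7553 : PP 8 4 T 0x41000000000001000001000001000080001000000000040000100004000009100040400000002104220 := rS 0x5ad0d8c1332add27171f335728438164224984a0c9ac52288416410b93da237648f562393e91cfe0d (k8 c4371 c7517 c4374 c7516 c4279 c1145 c2188 c7550 (k8 c2187 c2198 c2197 c8 c1064 c7490 c799 c7547 (k8 c7546 c4282 c1998 c4436 c4281 c4275 c37 c4480 (k8 c4484 c1473 c1481 c7552 c4355 c3067 c1161 c7044 (k4 c530 c2107 c4391 c1431 (k1 c4492 k0)))))) (by decide +kernel)
def c7554 : PP 8 4 T 0x20002000001000000000000000040000000050000011001000000000000000100020 := rS 0x821882667 (k4 c654 c530 c7315 c4464 (k1 c4407 k0)) (by decide +kernel)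
def c7555 : PP 8 4 T 0x40000000000000400000000000000000000000014000000000000000420000000000000000000000000 := rS 0x15f11 (k2 c4412 c1777 (k1 c4491 k0)) (by decide +kernel)
def c7556 : PP 8 4 T 0x40000000000000000000000001000080000000000000000004000000200008000000000400002100200 := rS 0xe383f4b89f882855e9531c1026654bab5467f3e9541a478498522d144945828d4097e8aa5539ad926f41c5578bb5fc6226304e9ed36794c9646a4d2196c96410b8dc9e451e8ed6239338103c1d0088416ab (k8 c1884 c7490 c799 c756 c1058 c4466 c1066 c654 (k8 c4279 c1145 c3062 c2188 c7547 c2197 c2187 c8 (k8 c1064 c4375 c38 c4717 c4282 c4373 c37 c1881 (k8 c1958 c805 c1224 c825 c268 c4441 c4488 c4369 (k8 c4449 c2114 c4354 c1998 c1080 c7550 c43 c2006 (k8 c3791 c4454 c7137 c1899 c1120 c4450 c3786 c3948 (k8 c2198 c1153 c5402 c4436 c4374 c4371 c4151 c7516 (k8 c7517 c7548 c7549 c4785 c7555 c530 c4464 c4407 (k8 c802 c828 c4551 c4491 c4414 c2118 c4377 c4480 (k2 c7553 c1415 k0)))))))))) (by decide +kernel)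
def c7557 : PP 8 4 T 0x5000000000000000000080014000000000000000000000000000000040000000000000 := rS 0x16b43 (k2 c4391 c1431 (k1 c4492 k0)) (by decide +kernel)
def c7558 : PP 8 4 T 0x80000000000000000000000000000090011200000000000000000000000000140151440000000000000 := rS 0x16b436531d6f175c8f99ac329b3c72492691c9715 (k8 c4354 c4375 c4374 c4282 c4281 c4279 c4430 c4456 (k8 c4459 c4460 c2115 c1207 c4355 c1161 c7557 c2116 (k2 c4425 c1708 (k1 c4492 k0)))) (by decide +kernel)
def c7559 : PP 8 4 T 0x1000080000000000000000000000000200008000000000400002100200 := rS 0x1f151865309c150cb3a5af176bf1a934963960c62269d3da6cf2992c944603d1bb449e041d878861d0096c821762914420b (k8 c7490 c799 c7547 c7546 c8 c1064 c38 c756 (k8 c1058 c4717 c4466 c3062 c1066 c2197 c2198 c2187 (k8 c2188 c268 c3786 c37 c1881 c1958 c805 c1224 (k8 c825 c4441 c4488 c4450 c4279 c4375 c4282 c4373 (k8 c4369 c4449 c2114 c7558 c3200 c7556 c4410 c1564 (k4 c1903 c1907 c4464 c2115 (k1 c2193 k0))))))) (by decide +kernel)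
def c7560 : PP 8 4 T 0x10000000000000000000000200008000000000000012200600 := rS 0x12a6755a4d5e723a8acca8b0dacc5a8960c622630020793a7b2288536792196d3259 (k8 c37 c1881 c38 c4717 c1958 c805 c799 c7547 (k8 c1224 c825 c4466 c1066 c268 c4441 c4488 c4450 (k8 c3948 c2358 c3200 c36 c718 c551 c2222 c590 (k4 c385 c829 c1070 c1885 (k2 c655 c803 (k1 c7478 k0)))))) (by decide +kernel)
def c7561 : PP 8 4 T 0x1000000000000600000000002000080000000000500000000000000200000040000000100000000000 := rS 0x542821a9f15a8c4e491191d8e29 (k8 c4402 c4289 c4374 c4372 c4281 c4277 c4337 c4411 (k4 c4414 c4962 c4576 c4490 (k1 c2817 k0))) (by decide +kernel)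
def c7562 : PP 8 4 T 0x80000000000000000000000000200008000000000400002000200 := rS 0x19acb67c353e62450ad46ae88aad5ac2788a4a6c71fb902b4b52d1578c15dafe30a728c4d363d1b8b5a24f181e47604218783a012d8e4924d118d48e4b629042e992c8cc369d3d914420b (k8 c7490 c799 c7547 c1224 c825 c36 c823 c37 (k8 c1881 c8 c1064 c7546 c4375 c4374 c4373 c4372 (k8 c4282 c4281 c4279 c38 c756 c1058 c4466 c4717 (k8 c1066 c3062 c1958 c268 c2197 c2198 c2358 c2187 (k8 c2188 c805 c4441 c3786 c2006 c4488 c4369 c4449 (k8 c4450 c2114 c4454 c3791 c7558 c7560 c7559 c4287 (k8 c4289 c4290 c4402 c5695 c6159 c2046 c3794 c7561 (k8 c4491 c2820 c1774 c829 c828 c1781 c5243 c4579 (k2 c3684 c5541 (k1 c2116 k0)))))))))) (by decide +kernel)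
def c7563 : PP 8 4 T 0x41000000000000411000000002000080011000454141516010000000215500000000000000000000000 := rS 0xcfa1b414054451fce8878bae4e6cd6125cce49649f60afc (k8 c4477 c4961 c4379 c7308 c4281 c924 c4785 c2127 (k8 c5541 c7478 c1205 c4362 c1907 c4481 c595 c4485 (k4 c6684 c4560 c1766 c4423 (k2 c1794 c5846 k0)))) (by decide +kernel)
def c7564 : PP 8 4 T 0x40000000000000400000000002000080000200000040000000000000200008000000000040002000200 := rS 0x16ab73a9c92c66560de0a7d07bf1210d2d9248ec54c96512a525aacbe0d4da3d2a5d11abd1a3549acc38c18c1053a7b22884163f638ecca13318a4002e8485c3715a29bd064d30a056239 (k8 c4279 c1145 c1899 c885 c4282 c1998 c1080 c4454 (k8 c4354 c36 c8 c4436 c7562 c4819 c4402 c754 (k8 c4401 c490 c4403 c4289 c4287 c7490 c799 c7547 (k8 c1224 c825 c1064 c4826 c4450 c750 c3197 c3050 (k8 c4373 c1027 c2720 c4372 c752 c2710 c2709 c2711 (k8 c4371 c488 c3778 c4375 c1842 c3945 c37 c1881 (k8 c7546 c4374 c4281 c38 c5243 c4486 c4477 c4376 (k8 c4379 c4961 c232 c7563 c4903 c920 c921 c592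 (k2 c1166 c1618 (k1 c4559 k0)))))))))) (by decide +kernel)
def c7565 : PP 8 4 T 0x1000000000001410000001002000080001000001180000500000000001000000150000000100000002 := rS 0x186d11e8dd94b95b3f14c902497c1a5d118fca63b28a844ac7 (k8 c4289 c1463 c132 c4405 c4403 c4290 c4287 c4372 (k8 c752 c4371 c488 c4281 c4486 c4490 c4477 c939 (k4 c1206 c941 c5002 c1743 (k2 c1750 c2029 (k1 c6159 k0))))) (by decide +kernel)
def c7566 : PP 8 4 T 0x40000000000000400000000002000080000200000000000000000000200008000000000040002000200 := rS 0x3354e918633d594388a89325978aa446a525aad1e95219e51a1c1ab0630008486c82174e9ec8a21058ba2b4530a056239 (k8 c4279 c1145 c1899 c885 c4454 c4354 c7562 c7490 (k8 c799 c7547 c1224 c825 c8 c1064 c36 c4436 (k8 c4819 c4826 c4450 c4373 c750 c1027 c3862 c237 (k8 c2710 c2709 c3778 c4375 c1842 c4372 c786 c4432 (k8 c37 c1881 c7564 c4337 c4393 c4526 c1523 c7565 (k4 c4327 c4330 c6588 c6601 k0)))))) (by decide +kernel)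
def c7567 : PP 8 4 T 0x400000000000920000000002000084011201544001514000000004210000000000000000000000000 := rS 0x705c3f4fe968219d5acd53a462b45 (k8 c4454 c4354 c4327 c4330 c6588 c6601 c924 c6342 (k4 c6031 c4313 c4961 c4793 (k2 c4480 c1473 k0))) (by decide +kernel)
def c7568 : PP 8 4 T 0x800000000002000080011200405080514510000000200000000140000000102000202 := rS 0x68b0d16723345cea3d1bc152cb664bf1210d67ad44b43889042e6d4e9ecbe0d2e88d5e3f6394c76513284cc6298a9bd064d30a056239 (k8 c4279 c1145 c1899 c885 c4282 c1998 c1080 c4354 (k8 c4402 c754 c4401 c490 c4405 c4403 c4290 c4289 (k8 c4287 c2720 c4372 c752 c4371 c488 c1224 c825 (k8 c44 c8 c1064 c4337 c4393 c1463 c5129 c1523 (k8 c7567 c4486 c4477 c7308 c939 c938 c4961 c5002 (k8 c1743 c1744 c4359 c4478 c4481 c720 c1088 c261 (k1 c2115 k0))))))) (by decide +kernel)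
def c7569 : PP 8 4 T 0x400000000001000000000000000000000000000040002000010000081008000000000000000000000 := rS 0x5aae56f17392852c5b (k8 c38 c920 c896 c921 c5282 c1166 c1206 c1618 (k1 c4492 k0)) (by decide +kernel)
def c7570 : PP 8 4 T 0x40400000000000000100000002000004111200444041106010010000001008000000000000000000002 := rS 0x2dd987465c5d72c24bc40e6674da562b45 (k8 c4454 c4354 c2710 c2711 c7569 c7478 c5056 c4335 (k8 c7287 c1205 c4362 c2029 c4481 c4495 c1744 c2069 k0)) (by decide +kernel)
def c7571 : PP 8 4 T 0x40000000000000000100000002000084101200444041106010010001001008040000000000002000002 := rS 0x22da06665a859a7fa11249a4725b148a210597c1a5d11b1ca6513284cc629 (k8 c4402 c754 c4401 c490 c4405 c4290 c4289 c4372 (k8 c752 c4371 c488 c7490 c799 c7547 c7546 c4375 (k8 c4374 c4282 c4281 c7570 c4392 c4395 c4423 c4425 (k4 c4560 c2116 c720 c261 k0)))) (by decide +kernel)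
def c7572 : PP 8 4 T 0x100000000000008100000040040000010010000215500000000000000000000000 := rS 0x33a84fe87 (k4 c1636 c1522 c1794 c925 (k1 c4560 k0)) (by decide +kernel)
def c7573 : PP 8 4 T 0x40000000000000000000000002000080000200000000000000000000200008000000000040002000200 := rS 0x13d9f053e83d92fc48435471230a062ac5588e4da992caa512ab2f835368f4a97446af219e51a3549acc38c18c1053a7b2288416650998c5200174242e1b (k8 c36 c8 c4436 c7562 c4819 c4402 c754 c4401 (k8 c490 c7490 c799 c7547 c1224 c825 c1064 c4826 (k8 c4450 c750 c3197 c3050 c4373 c1027 c3862 c237 (k8 c2720 c4372 c752 c2710 c2709 c2711 c4371 c488 (k8 c3778 c3945 c786 c37 c1881 c44 c4279 c1145 (k8 c7546 c4354 c1899 c885 c7566 c7568 c5243 c4486 (k8 c4477 c7308 c4376 c4379 c4961 c7572 c4501 c7571 k0))))))) (by decide +kernel)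
def c7574 : PP 8 4 T 0x1000001000000080000100000000000000000000000000000140000000004404200 := rS 0xdc9e41 (k4 c1064 c4501 c232 c6022 k0) (by decide +kernel)
def c7575 : PP 8 4 T 0x80000100000000000000000000200008000000000000002000200 := rS 0x13c6e8537181fa0e868d4daf10e17c1a5d1190cf2bb8c002121b2085d3a7b22884162e (k8 c7562 c7490 c799 c7547 c1224 c825 c8 c1064 (k8 c36 c4436 c4819 c4826 c4449 c3862 c237 c4372 (k8 c752 c4371 c488 c750 c4432 c44 c4373 c7319 (k8 c7574 c4376 c4477 c881 c712 c1344 c259 c6022 k0)))) (by decide +kernel)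
def c7576 : PP 8 4 T 0x2000000011000000000000010000001080008000050000000002000400 := rS 0x345863d459c88a211f94c7651 (k8 c4405 c4403 c4290 c4287 c799 c7547 c921 c720 (k4 c1615 c1088 c261 c2115 k0)) (by decide +kernel)
def c7577 : PP 8 4 T 0x1001002000080001200001000000000000040055500000140000000002100200 := rS 0x14a2733e860e5132596c21eb4572553f9f609114fa85090c38044920d23c25064d2085e8a81588e47ec72984c7651 (k8 c4405 c4403 c4401 c4290 c4289 c4287 c4279 c1145 (k8 c1899 c4454 c8 c1064 c4282 c1998 c4436 c4374 (k8 c4371 c4281 c4275 c6133 c4477 c4484 c4329 c4384 (k8 c4962 c4478 c1420 c4313 c4406 c1473 c260 c234 (k8 c6159 c2029 c717 c2118 c2107 c4393 c1523 c1495 (k2 c6220 c4459 k0)))))) (by decide +kernel)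
def c7578 : PP 8 4 T 0x2000080000000000000000000000000200008000000000000002100200 := rS 0x6152a202b82bf0e667319945213629b5325978aa512ab028c4be0d4da54ba235790cf2935987183180042436410ba74f6451082c5c6140af16239 (k8 c4279 c1145 c7575 c1899 c885 c7562 c7490 c799 (k8 c7547 c1224 c825 c8 c1064 c36 c4436 c4819 (k8 c4826 c4450 c750 c3197 c3050 c3862 c237 c2720 (k8 c4372 c752 c2710 c2711 c4371 c488 c16 c268 (k8 c3778 c3945 c786 c4432 c37 c1881 c44 c7546 (k8 c4401 c4402 c490 c754 c7576 c7478 c7577 c4961 (k4 c4191 c5056 c7573 c7287 (k1 c4459 k0)))))))) (by decide +kernel)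
def c7579 : PP 8 4 T 0x100000001000000011200000001510000000004251500001000000800022000200 := rS 0x284ff4267b35927d5b95114d03a0f10e51a5c5c7ec251a5ca7104fab5e3451d98ce6ab44acd26af004242e1b (k8 c36 c8 c4436 c4819 c2720 c3050 c3197 c3945 (k8 c3778 c7478 c7141 c1061 c4454 c4432 c4903 c6233 (k8 c4478 c2032 c4335 c4337 c7287 c1179 c4362 c4459 (k8 c3782 c1907 c4471 c4481 c4475 c4485 c234 c1742 (k8 c1691 c1726 c2069 c7572 c5846 c725 c4423 c2118 k0))))) (by decide +kernel)
def c7580 : PP 8 4 T 0x1000090108200000000000000050000055500100001400800020000000 := rS 0x140cd4fa8d58b7141487d4b8b88c8ef1 (k8 c4432 c4374 c4372 c4362 c4459 c4471 c4475 c1180 (k4 c3172 c2032 c778 c1570 (k2 c2069 c2118 (k1 c901 k0)))) (by decide +kernel)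
def c7581 : PP 8 4 T 0x80100000000010000000050000055500000000000020000000000 := rS 0x4fa8c4647 (k4 c4374 c4372 c778 c1570 (k1 c2118 k0)) (by decide +kernel)
def c7582 : PP 8 4 T 0x1000080011200000000510000000000250000000100000800022000200 := rS 0x3f298a542c3649447ad1439f4aa7f8212482f12f834ba23219e62a6f41934c281588e4766339aad12b349a74f6af004242e1b (k8 c36 c8 c4436 c4819 c2720 c1224 c825 c3050 (k8 c3197 c3945 c3778 c7478 c7141 c1061 c4279 c1145 (k8 c1899 c885 c4282 c1998 c1080 c4354 c3862 c237 (k8 c4372 c752 c4371 c488 c4432 c1064 c4281 c7579 (k8 c4313 c4406 c4409 c4410 c260 c234 c1876 c7550 (k4 c7580 c7297 c7581 c2033 (k2 c1180 c6159 k0))))))) (by decide +kernel)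
def c7583 : PP 8 4 T 0x1000080000000000000000000000000200008000000000000002000200 := rS 0x30a94d11e8fca651090a50e641d9ccce5b6281d325978a25560518a6d2a2d5790cf2935987183180042436410ba74f6451082c5cbc (k8 c7575 c7562 c7490 c799 c7547 c1224 c825 c8 (k8 c1064 c36 c4436 c4819 c4826 c4450 c750 c3197 (k8 c3050 c3862 c237 c2720 c2917 c2710 c2711 c16 (k8 c268 c3778 c3945 c4432 c37 c1881 c3 c7546 (k8 c38 c7399 c7478 c1061 c7582 c1652 c1567 c490 (k8 c1876 c2033 c1180 c1679 c1759 c4475 c2115 c4459 k0)))))) (by decide +kernel)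
def c7584 : PP 8 4 T 0x80000000000000000000000000200008000000000000002000200 := rS 0x2ae4 (k2 c7583 c4283 (k1 c7578 k0)) (by decide +kernel)
def c7585 : PP 8 4 T 0x2000000011000000000000008000001080008000000000000002000600 := rS 0xf2422085d1253 (k4 c4290 c2038 c8 c1064 (k2 c7576 c1964 (k1 c237 k0))) (by decide +kernel)
def c7586 : PP 8 4 T 0x400000000004800000000002000084100001400000080000052101101000000001005080002000002 := rS 0x10aa712afd44b67e2e472491a85e12832697c1ac778c155ad10da959a86 (k8 c6832 c3871 c4444 c36 c1631 c1904 c4410 c5695 (k8 c4289 c4371 c488 c4282 c1998 c4436 c8 c4373 (k8 c4281 c4279 c5280 c4483 c7114 c6001 c3263 c1463 (k2 c940 c603 (k1 c5945 k0))))) (by decide +kernel)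
def c7587 : PP 8 4 T 0x80040000011180000000000000000000040000005400000000000 := rS 0x538944e4d (k4 c4282 c4277 c1463 c940 (k1 c4839 k0)) (by decide +kernel)
def c7588 : PP 8 4 T 0x400000000000800000000002000084100001400040080000012400101040000001005080002000202 := rS 0x6e420dc1e7e1c9246a47419347ec71d9b5e3173a99a0a860299426b7 (k8 c1166 c4401 c490 c269 c6832 c4410 c4191 c592 (k8 c5282 c5695 c6017 c4403 c4289 c4287 c4282 c1998 (k8 c4374 c4373 c4281 c4279 c7586 c1455 c232 c5994 (k2 c4559 c1500 k0)))) (by decide +kernel)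
def c7589 : PP 8 4 T 0x2000080000000000000000000000000000008000000000000002000200 := rS 0xc0a33ead686ca27b357acf64908ee78600f4ea724b19854ab52aa4631268ab60a6d319950cf1288a4265363964b6492392c3709419358a45178cc8217599ac060716800381f029a4420b (k8 c7490 c799 c7584 c269 c1066 c4466 c1058 c2917 (k8 c3 c791 c1919 c3197 c8 c1064 c953 c1870 (k8 c7547 c7546 c4282 c1998 c4436 c36 c4375 c4374 (k8 c4281 c38 c37 c4289 c4290 c4401 c4402 c4405 (k8 c5695 c6832 c490 c754 c6017 c4410 c1904 c1631 (k8 c4479 c7393 c4345 c4444 c4445 c7441 c4191 c920 (k8 c921 c592 c1615 c7585 c1621 c1893 c6869 c3660 (k8 c3565 c3919 c3871 c2152 c2116 c4425 c1709 c1629 (k2 c7587 c7588 (k1 c7404 k0)))))))))) (by decide +kernel)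
def c7590 : PP 8 4 T 0x1000000002000000000000008002000000000000004000000002000400 := rS 0x3b1e944e517 (k4 c4420 c1965 c3863 c1615 (k2 c1580 c4471 k0)) (by decide +kernel)
def c7591 : PP 8 4 T 0x1000000010000000000410008000001140000000100000100022000600 := rS 0x140f0a23b7810cf3198b8fd8097882ad3aaf18c4a122f4ca4c66410b9ac06072985400ad6886d86b315c140a65 (k8 c1653 c269 c4410 c4191 c3197 c1907 c36 c1631 (k8 c1904 c1058 c646 c1903 c3 c791 c1919 c8 (k8 c1064 c953 c3050 c1031 c1870 c4436 c4479 c7393 (k8 c1633 c4343 c4445 c6342 c4335 c7287 c1179 c4420 (k8 c4450 c7590 c237 c4472 c1581 c4435 c4471 c2112 (k1 c1680 k0)))))) (by decide +kernel)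
def c7592 : PP 8 4 T 0x1000090002000000404010008000802050002540004000140000000200 := rS 0x54c3540a5a2aad46ca8831c52cf318f19a7457c5c4e492688c8e4b82c4c7613 (k8 c1564 c1062 c4341 c4410 c4375 c4374 c4372 c4282 (k8 c4281 c4277 c4420 c1714 c1893 c3807 c4471 c964 (k8 c3624 c3616 c2149 c4478 c2116 c4241 c4415 c4455 (k4 c1940 c4576 c4200 c980 (k1 c4490 k0))))) (by decide +kernel)
def c7593 : PP 8 4 T 0x80000000000000000008000000000008000000000000002000200 := rS 0x1e1d5823f2a0ec265127bc08676539b13e2b61b44a6658286d8a452085d36b32f8352a1533b94b25b16800381f029a4420b (k8 c7490 c799 c7584 c269 c1066 c4466 c1058 c2917 (k8 c38 c37 c7589 c7399 c646 c2710 c4371 c488 (k8 c3197 c804 c8 c1064 c7547 c7546 c36 c4410 (k8 c1653 c1903 c1631 c1907 c4191 c6233 c7591 c2911 (k8 c961 c4674 c6017 c4297 c4435 c1564 c1062 c4464 (k4 c249 c7592 c1692 c2115 (k1 c235 k0))))))) (by decide +kernel)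
def c7594 : PP 8 4 T 0x80001000000000000000000002000008000002000000002000200 := rS 0x6eb5a1a04de0f653f19acf30d29a24f61c65e09c3b29e264d25b148ab11c8cc82172e9450e534bc40c6738bace1aa324a7cbe0d118ae0a5433b94b25b16994260714a54001c0f814d22105b1c4e47 (k8 c4374 c4277 c2149 c7490 c799 c7584 c269 c1066 (k8 c4466 c1058 c2710 c1680 c3 c1679 c490 c2917 (k8 c38 c37 c7589 c7399 c234 c4406 c4191 c4372 (k8 c4371 c488 c6233 c4281 c4241 c4200 c3197 c4416 (k8 c1615 c7153 c4478 c4335 c2150 c7593 c1876 c752 (k8 c8 c1064 c953 c4279 c1145 c7547 c7546 c4375 (k8 c4282 c4341 c2911 c961 c960 c6017 c4367 c1213 (k8 c4297 c4298 c4494 c7532 c4579 c4460 c4477 c2116 (k4 c4376 c4378 c4380 c4425 (k2 c1708 c232 (k1 c5175 k0))))))))))) (by decide +kernel)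
def c7595 : PP 8 4 T 0x40000000000000011100001000000080500004040040000080000000055500000140000000004400200 := rS 0x19f43501fd9b455e1f41efc (k8 c4477 c4376 c4379 c7574 c4454 c2069 c725 c4560 (k2 c4423 c1794 (k1 c4495 k0))) (by decide +kernel)
def c7596 : PP 8 4 T 0x80001000000000000000000000000008000002000000002000200 := rS 0x9c375ea14dc6065bc4874b4534184af4e8c6246d86aad2ea38827c56ad4498d930532adca6c7149cca8138b89c92470dc25064d62915362f4ca4c66410baccd6030397c1a952e88ccee52c96c5a000e07c0a691082ca287 (k8 c7593 c1876 c7490 c799 c7584 c269 c1066 c4466 (k8 c1058 c2917 c38 c37 c7589 c7399 c4372 c752 (k8 c2710 c4371 c488 c3 c791 c1919 c3197 c8 (k8 c1064 c953 c3050 c1031 c1870 c804 c7547 c7546 (k8 c4282 c1998 c4436 c36 c4374 c4281 c4277 c4416 (k8 c1679 c234 c1615 c1680 c2149 c2150 c1742 c490 (k8 c4406 c1726 c7153 c2038 c4903 c4191 c6233 c4478 (k8 c4241 c4335 c4415 c4200 c7594 c4479 c7393 c4343 (k8 c4346 c2127 c2112 c6907 c4459 c2054 c4298 c1750 (k4 c7595 c881 c712 c1080 (k2 c1344 c6022 (k1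 c259 k0)))))))))))) (by decide +kernel)
def c7597 : PP 8 4 T 0x800000000001000020011000000000510000000000000000000101400140000000000 := rS 0x6145a203f14a755eab (k8 c4445 c4346 c4343 c1760 c458 c4468 c4471 c7287 (k1 c4362 k0)) (by decide +kernel)
def c7598 : PP 8 4 T 0x80008040000000000000000000002008040050040000002000000 := rS 0x5eafcdc901c8d4968326914420b (k8 c7490 c799 c7547 c4282 c1998 c4375 c4373 c4279 (k4 c880 c881 c3229 c1080 (k1 c2114 k0))) (by decide +kernel)
def c7599 : PP 8 4 T 0x10000000000000080008040000000080080050000014008040000040020002000200 := rS 0x196bc5fae120a064984724d1a92c82172f834ba2333b94b25b16800381f029a4867962914420b (k8 c7490 c799 c7547 c7546 c605 c237 c7584 c269 (k8 c1066 c4466 c1058 c2917 c38 c37 c7589 c7399 (k8 c4372 c752 c4371 c488 c8 c1064 c4375 c4373 (k8 c4282 c4279 c7598 c7308 c7581 c898 c899 c3229 (k2 c2114 c1752 (k1 c1208 k0)))))) (by decide +kernel)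
def c7600 : PP 8 4 T 0x10000000000000080009000000000000080050000014008040000400020002000200 := rS 0xa16498568701b2ee22b74b0fa2e5f06a54ba6772964b62d000703e0534884163d5188d3e47 (k8 c4374 c1570 c4372 c778 c7596 c7490 c799 c7584 (k8 c269 c1066 c4466 c1058 c2917 c38 c37 c7589 (k8 c7399 c752 c2710 c4371 c488 c4362 c4471 c1179 (k8 c3172 c4335 c4591 c7599 c233 c403 c584 c587 (k2 c1706 c4629 k0))))) (by decide +kernel)
def c7601 : PP 8 4 T 0x20800000002000000080015000000000514000050000055500000000000020000000200 := rS 0x17a375003d92fc4eabd570d (k8 c5204 c4445 c4346 c4343 c4477 c7308 c4376 c7581 (k2 c232 c7297 (k1 c5090 k0))) (by decide +kernel)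
def c7602 : PP 8 4 T 0x80001000000000000000000001000008400000000040002000200 := rS 0xdd7a6e304622e9661c349e7f3ebc0505568d2d14631d9cd1247419358a454da6526332085d665f06a54ba230a99cb25b28a1c7a314eabd5712849ac060756b945e2d32800381f029a4420b (k8 c7490 c799 c7584 c269 c1066 c4466 c1058 c491 (k8 c2917 c1870 c7589 c4554 c3 c791 c1919 c4436 (k8 c4479 c4445 c4346 c4343 c7393 c7596 c7593 c1876 (k8 c38 c37 c7399 c646 c4372 c752 c2710 c4371 (k8 c488 c3197 c8 c1064 c953 c3050 c1031 c804 (k8 c7547 c7546 c4282 c1998 c4374 c2038 c7478 c1061 (k8 c7141 c2120 c4427 c7597 c4151 c2112 c4475 c7516 (k8 c7517 c4297 c5204 c7600 c6848 c4359 c4494 c7601 (k4 c881 c1080 c1344 c5090 k0))))))))) (by decide +kernel)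
def c7603 : PP 8 4 T 0x40000000000000800000002000000080005000000000000000000000000008000000000040002000200 := rS 0x6ebd37182307d3f98e2f041425a228326b148a9b4c9042e935997c1a952e88cce592da755eab56b945e2d32800381f029a4420b (k8 c7490 c799 c7584 c269 c1066 c4466 c1058 c491 (k8 c2917 c1870 c7589 c4554 c4445 c4346 c4343 c38 (k8 c37 c7399 c4372 c752 c2710 c4371 c488 c3197 (k8 c3050 c8 c1064 c1031 c804 c7547 c7546 c4282 (k8 c1998 c7287 c4553 c4468 c6335 c4359 c817 c4313 (k4 c4409 c4494 c7601 c881 (k2 c1080 c1344 (k1 c5090 k0)))))))) (by decide +kernel)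
def c7604 : PP 8 4 T 0x2000000080001000000000000000000001000008000000000040002000200 := rS 0x1147f3ea24c655398a12c3e1d9e62ec28693c1a4759854ce592da1c7aaf55c4a126b0181d5ae5178b4ca000e07c0a691082e9652 (k8 c7602 c4456 c7490 c799 c7584 c269 c1066 c4466 (k8 c1058 c491 c2917 c1870 c7589 c4554 c3 c791 (k8 c1919 c4436 c4479 c4445 c4346 c7596 c7593 c38 (k8 c37 c7399 c646 c3197 c4374 c4371 c4297 c5204 (k8 c7603 c4362 c3967 c3057 c4471 c1179 c1180 c3082 (k4 c249 c817 c7172 c7516 (k2 c7517 c2120 (k1 c7600 k0)))))))) (by decide +kernel)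
def c7605 : PP 8 4 T 0x80009000000000000080000001010008040000000000002000200 := rS 0x2553c304e4d1192c5e332085c62a952c4a126b0181c50634b1f48e7f2a8fa2e3b1eacc2a672c96c5a000e07c0a691082dca0d (k8 c4371 c7589 c7490 c799 c7584 c269 c1066 c4466 (k8 c1058 c2917 c38 c37 c7399 c646 c3197 c7596 (k8 c3057 c4362 c4471 c249 c7517 c4374 c7516 c1179 (k8 c817 c1180 c3 c791 c1919 c4436 c4479 c4444 (k8 c4345 c7393 c8 c1064 c953 c1870 c4375 c4372 (k4 c4282 c4277 c7600 c4330 (k2 c4381 c2111 k0))))))) (by decide +kernel)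
def c7606 : PP 8 4 T 0x80009000000000000000000001000008000000000040002000200 := rS 0x50b24c2fd672101c4e451fcfa895198caa73142587c3b3cc5c8eb32f834ba230a99cb25b438f55eab89424d60303ab5ca2f16994001c0f814d22105b2ca44d (k8 c4282 c7602 c2022 c7490 c799 c7584 c269 c1066 (k8 c4466 c1058 c491 c2917 c1870 c7589 c4554 c3 (k8 c791 c1919 c4436 c4479 c4445 c4346 c7596 c7593 (k8 c38 c37 c7399 c646 c4372 c752 c4371 c488 (k8 c3197 c4374 c4362 c3967 c3057 c4471 c1179 c1180 (k8 c3082 c249 c817 c778 c7172 c7516 c7517 c2120 (k8 c7605 c258 c259 c421 c4376 c712 c717 c1794 (k1 c5857 k0)))))))) (by decide +kernel)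
def c7607 : PP 8 4 T 0x400000040040000000050001054500880000000000002000000 := rS 0x28592617eb39080e (k8 c258 c259 c421 c4376 c712 c717 c1794 c5857 k0) (by decide +kernel)
def c7608 : PP 8 4 T 0x800000001000000080015000000020514000000000000000040118000000000000000 := rS 0xd96abd4eabd5643 (k8 c405 c4445 c4346 c4343 c7297 c1706 c6022 c403 k0) (by decide +kernel)
def c7609 : PP 8 4 T 0x1000000080400000000010000000050000155000000000001020002000002 := rS 0x42a9dfac884a0c9a2f2f834ba23 (k8 c4372 c752 c4371 c488 c1870 c4282 c1998 c4436 (k4 c7581 c4305 c7484 c717 (k1 c5722 k0))) (by decide +kernel)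
def c7610 : PP 8 4 T 0x80001000000000000000000001000008000000000040002000200 := rS 0xdd7a6e302849e433e9fd463e31c10509688b0de2cb291955a8326b148a9b17a64821749accbe0d4a974466772964b62d000c53aaf55c4a126b018703e05348841607 (k8 c3 c7490 c799 c7584 c269 c1066 c4466 c791 (k8 c1919 c4436 c4479 c4445 c4346 c4343 c7393 c1058 (k8 c2917 c38 c37 c7589 c7399 c4372 c752 c2710 (k8 c4371 c488 c3197 c3050 c8 c1064 c1031 c1870 (k8 c804 c7547 c7546 c4282 c1998 c4554 c491 c7602 (k8 c2022 c7604 c7606 c7287 c4553 c4468 c6335 c817 (k8 c777 c778 c4313 c4409 c405 c7607 c7608 c7609 (k4 c881 c1080 c1344 c6022 k0)))))))) (by decide +kernel)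
def c7611 : PP 8 4 T 0x100000000000000080000011000000000000000040042008000005000010000000002 := rS 0x31cdc5b1c9246a47 (k8 c4374 c4373 c4281 c4279 c38 c881 c7343 c5468 k0) (by decide +kernel)
def c7612 : PP 8 4 T 0x40000000000000800000000001000080000010500000054500000000051500500000000080002100010 := rS 0xe31448a898c0f64bf21af0689f4aa7f09c1022490691e2263 (k8 c1607 c4411 c4374 c4371 c4281 c4275 c4191 c1638 (k8 c4313 c4406 c4409 c260 c4475 c5204 c4477 c7308 (k4 c4376 c2107 c291 c938 (k2 c4486 c4135 (k1 c7058 k0))))) (by decide +kernel)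
def c7613 : PP 8 4 T 0x110002000000000000000010500000055500040000044400000000000000000000000 := rS 0xe314 (k2 c4486 c4135 (k1 c7058 k0)) (by decide +kernel)
def c7614 : PP 8 4 T 0x80001000000000000000000001000008000000000000002000200 := rS 0x2dd8ea3480dc1efc86bc1a2123f990c34b561cd2e898b2e56a531da847e63888a454ab57a7463122491e12c522ac5368f1ca346a992085d26b33580c0e5f06a54ba230a99dca592d8b4001c0f814d221059450e3d (k8 c7596 c7593 c1876 c7490 c799 c7584 c269 c1066 (k8 c4466 c1058 c2917 c38 c37 c7589 c7399 c646 (k8 c4372 c752 c2710 c4371 c488 c3 c791 c1919 (k8 c3197 c3050 c8 c1064 c1031 c4373 c1027 c4279 (k8 c4656 c804 c1145 c7547 c7546 c4436 c4374 c4281 (k8 c4479 c7393 c4343 c4346 c4445 c7610 c14 c4411 (k8 c1607 c288 c1734 c1640 c292 c7513 c7514 c4471 (k8 c2038 c4359 c7478 c6031 c4458 c7611 c7612 c554 (k8 c490 c1759 c4475 c5204 c4477 c4376 c232 c7613 (k4 c938 c291 c5964 c2113 k0)))))))))) (by decide +kernel)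
def c7615 : PP 8 4 T 0x10011000010002004000000000000000100151000080040000000 := rS 0xc329abc763f (k4 c288 c1640 c1774 c293 (k2 c1214 c2115 k0)) (by decide +kernel)
def c7616 : PP 8 4 T 0x102000000000080000000040002000000050802055500040150000000000000200 := rS 0x2f152bb5f8dd40cb409bc1ec91c9346a4b4fa8d5710 (k8 c4478 c4415 c4337 c6233 c4375 c4373 c4282 c4279 (k8 c4305 c4376 c4378 c4380 c7087 c4560 c232 c1093 (k4 c1890 c981 c2114 c1174 k0))) (by decide +kernel)
def c7617 : PP 8 4 T 0x1000000000000090011011040002014504400802051000540155000000000000602 := rS 0xc842329faa38827cfa7f45c14ea123925c74c323ac4725f069744663 (k8 c965 c4372 c752 c4371 c488 c4279 c1145 c4374 (k8 c1214 c2115 c3055 c1061 c1062 c1575 c4408 c1770 (k8 c514 c1562 c6233 c4478 c4337 c7616 c7533 c5740 (k2 c7351 c716 k0)))) (by decide +kernel)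
def c7618 : PP 8 4 T 0x1000000000000090011011000002014504400802051000540155000000000000602 := rS 0x8b829c874c34bd2d5c89 (k8 c680 c7617 c4428 c4631 c1213 c2115 c1061 c4408 (k2 c1770 c4485 k0)) (by decide +kernel)
def c7619 : PP 8 4 T 0x40000000000000001000000000000000010000000000000014000080000000000000000000000000000 := rS 0x11705 (k2 c4408 c1770 (k1 c4485 k0)) (by decide +kernel)
def c7620 : PP 8 4 T 0x100000000000080400011000002054500450900055000040150000000000000202 := rS 0x2f152bb5f8dd40813783d92fc51c413e4d1a92d62392f834ba23 (k8 c4372 c752 c4371 c488 c4279 c1145 c4375 c4373 (k8 c4282 c6233 c4478 c4337 c7533 c4305 c4376 c4378 (k8 c4380 c4560 c232 c1093 c1890 c981 c2114 c1174 k0))) (by decide +kernel)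
def c7621 : PP 8 4 T 0x40000000000000000002000001000090015000000000000000000800000000140155400000000000200 := rS 0x19b455e2ed7e37409bc1e392692d7235 (k8 c4373 c7514 c4375 c4282 c4279 c4376 c4378 c4380 (k4 c232 c1093 c1890 c2114 (k2 c4454 c2068 (k1 c7552 k0)))) (by decide +kernel)
def c7622 : PP 8 4 T 0x1000000000000000011100040054500050140055500000000000000000000000 := rS 0x7137c5590b648a853f0c (k8 c4477 c4384 c4329 c4327 c2125 c5857 c4353 c1077 (k2 c586 c4480 k0)) (by decide +kernel)
def c7623 : PP 8 4 T 0x1000000001000090011000000002014504400802051000140155000100000000602 := rS 0x88abd44fd1d9cceb16619fcfa972aaae96525cad46a47588e4be0d2e88c2b1356a24c719 (k8 c4367 c965 c680 c944 c4341 c646 c4372 c752 (k8 c4371 c488 c4279 c1145 c4374 c4373 c7513 c7514 (k8 c7618 c4456 c1943 c253 c4785 c7516 c7517 c1213 (k8 c4494 c4417 c7619 c1061 c7621 c7622 c5449 c4337 (k1 c4179 k0))))) (by decide +kernel)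
def c7624 : PP 8 4 T 0x80200004100000000040400800011000040158000000000000002 := rS 0x2fd7abb1ba14e30c5abf4724d1a92cba23 (k8 c4372 c752 c4375 c4373 c4282 c4279 c4305 c1705 (k8 c7308 c587 c716 c403 c4847 c6133 c1094 c2114 k0)) (by decide +kernel)
def c7625 : PP 8 4 T 0x80001000000000000000000000000008000000000000002000200 := rS 0x176bf5eae120b554a81928b3f9f53ea357c44aab7142587c6515985a24f7827086633b2b6266c1e91e128326b148a410bac51e39468d526b32f8352a5d11854cee52c96c5a000e07c0a691082ca287 (k8 c7593 c1876 c7490 c799 c7584 c269 c1066 c4466 (k8 c1058 c2917 c38 c37 c7589 c7399 c646 c4372 (k8 c752 c2710 c4371 c488 c3197 c3050 c4373 c1027 (k8 c4279 c4656 c1145 c8 c1064 c7547 c7546 c4282 (k8 c1998 c4436 c4374 c7596 c7614 c4341 c944 c961 (k8 c965 c4674 c960 c6017 c4297 c4298 c7532 c7615 (k8 c491 c7623 c1179 c1180 c3172 c249 c4335 c4631 (k8 c778 c1570 c7516 c7517 c5443 c7624 c2118 c2985 (k4 c1706 c898 c899 c1174 (k2 c3094 c1478 (k1 c4593 k0))))))))))) (by decide +kernel)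
def c7626 : PP 8 4 T 0x80000000000000000000000000000008000000000000002000200 := rS 0xf0243f3214d571231908da3b579cceead44a2e3317601450e67728b52a6b59800061c0f81536693d81cb25b84914420b (k8 c7490 c799 c7547 c4436 c38 c37 c3 c1224 (k8 c7584 c804 c269 c1066 c4466 c791 c1058 c3197 (k8 c1919 c2710 c2917 c7589 c7399 c7593 c1876 c7625 (k8 c4420 c4450 c1713 c1985 c1986 c1892 c1620 c1714 (k8 c1580 c961 c4540 c7153 c4479 c4445 c7031 c2120 (k4 c404 c490 c4471 c1679 k0)))))) (by decide +kernel)
def c7627 : PP 8 4 T 0x1000010004000014000000000000040200008100002004400120000019 := rS 0x16497314405653148b62e95 (k8 c2764 c4416 c328 c1680 c333 c7194 c4468 c7083 (k2 c4335 c7153 (k1 c1187 k0))) (by decide +kernel)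
def c7628 : PP 8 4 T 0x1000000000000800000000000000000000008000005000000000000000 := rS 0x7717 (k2 c4357 c3026 (k1 c4471 k0)) (by decide +kernel)
def c7629 : PP 8 4 T 0x1000010000000014000000000000000208000500000005550000100000 := rS 0x8a2a2b82705 (k4 c4407 c1558 c2112 c4464 (k2 c829 c1766 k0)) (by decide +kernel)
def c7630 : PP 8 4 T 0x10400000002000000080000011580000000000000140208008000000000000002080000 := rS 0x1297619155b325968a84814b271378d51e39368080c1c0f824420b3f834fa47 (k8 c4374 c1562 c4371 c514 c7490 c799 c7626 c1065 (k8 c4466 c4462 c1018 c2963 c4279 c4656 c4373 c1019 (k8 c496 c37 c526 c4436 c829 c3684 c7510 c2121 (k4 c4353 c7509 c4628 c4381 (k1 c5130 k0))))) (by decide +kernel)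
def c7631 : PP 8 4 T 0x10400000000000000080000011500000000000000140208108000000001000002080000 := rS 0x3f17eb686b2552592dc258a45389bc6a6d0e07de03301018420b1780413053f834fa47 (k8 c4374 c1562 c4371 c514 c4407 c7626 c751 c1871 (k8 c7490 c799 c4462 c1018 c6288 c4469 c1065 c4466 (k8 c2963 c4373 c1019 c496 c7547 c7546 c4436 c38 (k8 c37 c826 c1729 c5264 c2121 c1246 c5279 c5051 k0)))) (by decide +kernel)
def c7632 : PP 8 4 T 0x10400000000000000080000011500000000000000140608008000000000000002080000 := rS 0x642116e258a29d4a5c45abcfa7f1388c8e4b419340a59389bc6a8f0e07c720d27bc06621188080c0b178041305 (k8 c4407 c7626 c751 c1871 c7490 c4462 c1018 c229 (k8 c799 c6288 c4469 c4297 c4371 c4279 c1065 c4466 (k8 c4656 c4373 c1019 c496 c37 c526 c4282 c1998 (k8 c4375 c4374 c4372 c4277 c514 c1562 c7630 c1768 (k8 c7631 c1342 c813 c4628 c1336 c4353 c4524 c5124 (k1 c716 k0)))))) (by decide +kernel)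
def c7633 : PP 8 4 T 0x80000000000000000004000000008008000080000100002000000 := rS 0x29150521315c142a8958af49a755a91d7235598f556ad341cd86d162914a2050e07dcaf089a70f477198c4d641109e63259848085e011f818120b (k8 c7490 c7626 c4462 c3188 c751 c1871 c1018 c4436 (k8 c37 c4446 c1959 c799 c22 c5310 c229 c6288 (k8 c1887 c4482 c1226 c4343 c4469 c5695 c1065 c4466 (k8 c526 c1876 c7547 c7546 c341 c3223 c1230 c1227 (k8 c947 c1884 c7627 c7628 c4373 c7514 c4374 c7513 (k8 c499 c4282 c2014 c7512 c683 c389 c4407 c1607 (k4 c7632 c795 c4464 c7629 (k1 c253 k0)))))))) (by decide +kernel)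
def c7634 : PP 8 4 T 0x1000000000010000000000000000000010148000000000000000000000000000000000000000000000 := rS 0x17f15 (k2 c4353 c1246 (k1 c4493 k0)) (by decide +kernel)
def c7635 : PP 8 4 T 0x10001100002000000090010100510000000014000154244000100000005500000140018 := rS 0x1445d3f2dcfa815dd15946463c459acf155299253609522c492691c96ab27b955e29 (k8 c794 c828 c5695 c4297 c1884 c4375 c4374 c4282 (k8 c4281 c4481 c4464 c4420 c253 c1726 c4151 c2112 (k8 c4430 c4460 c4411 c2137 c227 c2116 c4455 c1980 (k4 c1900 c3590 c7634 c5124 (k2 c1458 c555 (k1 c5132 k0)))))) (by decide +kernel)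
def c7636 : PP 8 4 T 0x10400200002000000090000011514000000000000140204008100000000100002000000 := rS 0x4a5d864556cc965948567d2a9fc9b09178040a59389bc6a8f1c834666d0e07c422901018120b (k8 c7490 c7626 c4462 c1018 c794 c799 c1065 c4466 (k8 c2963 c6288 c4371 c4279 c4656 c4373 c1019 c496 (k8 c37 c526 c751 c1871 c4436 c4282 c4313 c4406 (k8 c4409 c226 c7083 c2022 c7515 c2121 c4353 c7509 (k2 c4628 c4381 (k1 c5130 k0)))))) (by decide +kernel)
def c7637 : PP 8 4 T 0x80000000000000000004000000000008000080000100002000000 := rS 0x1297619155b32596523e9fc5612828a4c67137a3c720d339b42a8958af49a755a91d7235598f556ad341cd86d162914a2050e07dcaf089a70f477198c4d641109e63259848085e011f818120b (k8 c7490 c7626 c4462 c3188 c751 c1871 c1018 c4436 (k8 c37 c4446 c1959 c799 c22 c5310 c229 c6288 (k8 c1887 c4482 c1226 c4343 c4469 c5695 c1065 c4466 (k8 c526 c1876 c7547 c7546 c341 c3223 c1230 c1227 (k8 c947 c1884 c7627 c7628 c4373 c7514 c4374 c7513 (k8 c499 c4282 c2014 c7512 c683 c389 c2963 c2924 (k8 c4371 c4279 c4656 c1019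 c496 c7633 c794 c7636 (k8 c7635 c1639 c514 c1562 c7083 c2022 c7515 c5124 (k4 c4353 c7509 c4628 c4381 (k1 c5130 k0)))))))))) (by decide +kernel)
def c7638 : PP 8 4 T 0x10400000002000000080000008100000080000000000000008000000000000002000000 := rS 0x86bf17e908a964b709368080c1c0f824420b (k8 c7490 c799 c7626 c1065 c4466 c4462 c1018 c2963 (k8 c4436 c38 c37 c4353 c1165 c3263 c5772 c4327 (k1 c5051 k0))) (by decide +kernel)
def c7639 : PP 8 4 T 0x80000000000000000004000000000008000080000000002000000 := rS 0x14a2553a14be9f7eb216e8b3f9f694554b2855f11162cd72b53a8f562e527bc156ad899a13873618c4f46b68af4ef192089c464725c25064d62914f261178040a591f9c41a6f1a8ccce02030703e091082c2a51 (k8 c1876 c389 c7490 c799 c7626 c1065 c4466 c4462 (k8 c1018 c2924 c6288 c4373 c1019 c4371 c496 c3188 (k8 c37 c526 c751 c1871 c5402 c1959 c7547 c7546 (k8 c4282 c1998 c4436 c4375 c4374 c4372 c4277 c22 (k8 c4446 c1887 c2014 c341 c5310 c4482 c229 c3223 (k8 c1230 c1226 c1227 c4343 c947 c1884 c4469 c4297 (k8 c5695 c7512 c7627 c499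 c7513 c7514 c7628 c7637 (k8 c4331 c2987 c2901 c912 c247 c4491 c7516 c7517 (k8 c4427 c7638 c2121 c4305 c1665 c547 c716 c5558 (k2 c395 c1883 (k1 c4524 k0))))))))))) (by decide +kernel)
def c7640 : PP 8 4 T 0x80000000500000000000020140000000000004000000000100080 := rS 0x1ead46e3b8b4518eb75c84e0afd1c9246a47 (k8 c4374 c4373 c4281 c4279 c4379 c4409 c1562 c1356 (k8 c1626 c1352 c5772 c4481 c4158 c4386 c4389 c4416 (k1 c2113 k0))) (by decide +kernel)
def c7641 : PP 8 4 T 0x8800000000000000000010000014000414000000000000000000000000000000000000 := rS 0x4ea5d86c1 (k4 c4420 c4362 c4359 c4343 (k1 c4553 k0)) (by decide +kernel)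
def c7642 : PP 8 4 T 0x800000000000000080000000000000000000000000000200000000004401002000000 := rS 0x272154a3154a9d064d (k8 c4282 c1998 c813 c4345 c4441 c4444 c1497 c6996 (k1 c259 k0)) (by decide +kernel)
def c7643 : PP 8 4 T 0x80000000000400000001000000200400040000004401000000010 := rS 0xa513934464b (k4 c4375 c4372 c4282 c4277 (k2 c1883 c4524 k0)) (by decide +kernel)
def c7644 : PP 8 4 T 0x20000001000000000080000000100000000000400000000000040150000000000000080 := rS 0xdd7b141c9346a4b388357ebb (k8 c4449 c4369 c4371 c496 c4375 c4373 c4282 c4279 (k4 c5772 c6133 c4386 c2114 k0)) (by decide +kernel)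
def c7645 : PP 8 4 T 0x20000000000000000080000100100000000500501414800000040150000000000000000 := rS 0x435225e5445508361c9346a4b3da757ebb (k8 c4449 c4369 c4367 c4365 c4375 c4373 c4282 c4279 (k8 c2114 c2122 c4386 c563 c562 c978 c4382 c4486 k0)) (by decide +kernel)
def c7646 : PP 8 4 T 0x200000401000402000000800000000000000000000000000 := rS 0x86a44bca8 (k4 c563 c562 c978 c4382 (k1 c6223 k0)) (by decide +kernel)
def c7647 : PP 8 4 T 0x1000000000000400000000000000000000000000500000001000000000800000000000000000000000 := rS 0x1530d (k2 c4382 c1505 (k1 c4490 k0)) (by decide +kernel)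
def c7648 : PP 8 4 T 0x1001000010011000400000000004005540000000400000000000002000000 := rS 0xc345d291251 (k4 c1876 c2038 c4475 c4427 (k2 c4459 c2123 k0)) (by decide +kernel)
def c7649 : PP 8 4 T 0x41000000000000001002000000000001410011500000000005400154000000000000000000000000000 := rS 0x33d11433f2dd927d (k8 c4379 c4305 c7551 c2121 c4392 c4235 c1521 c6175 k0) (by decide +kernel)
def c7650 : PP 8 4 T 0x1002000001000080010200500000000005400154000000800054000000000000000 := rS 0x1dc5d84cc5aae47acba59348f45 (k8 c4454 c4374 c4282 c4456 c2022 c332 c1208 c7513 (k4 c7649 c2068 c4362 c1047 (k1 c4471 k0))) (by decide +kernel)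
def c7651 : PP 8 4 T 0x421002000000000000008000411000114015000040041010000000000000000000000 := rS 0x6451a5cfe6355d2e2e7d (k8 c4379 c4362 c4459 c1946 c7153 c4235 c4785 c4526 (k2 c7315 c7044 k0)) (by decide +kernel)
def c7652 : PP 8 4 T 0x420002000001000080011200501000114405005555841010000054000000002000000 := rS 0x2d2229765991574b4533572c34494e128326b255b45 (k8 c4454 c3957 c4305 c4282 c1998 c4436 c7650 c2038 (k8 c7651 c1207 c2068 c2123 c4427 c1673 c564 c1752 (k4 c4785 c4412 c7649 c7420 k0))) (by decide +kernel)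
def c7653 : PP 8 4 T 0x400002000001000080011200501400104405005040800010040054000000022000489 := rS 0x18ea35cc4052c3168ac78891dc5ce89f50c304e491191e1261029c41a6f1a99cda953bab68aa5 (k8 c1938 c4454 c3957 c1023 c2764 c2963 c2924 c4373 (k8 c1019 c4371 c496 c526 c5402 c4436 c4374 c4372 (k8 c4281 c4277 c4490 c4329 c4384 c7652 c4417 c1575 (k8 c2451 c499 c7194 c913 c7651 c1680 c7271 c1207 (k2 c4337 c331 (k1 c4576 k0)))))) (by decide +kernel)
def c7654 : PP 8 4 T 0x20000000001000080000010000000000000000240000000000000000000020000499 := rS 0x146c7148b4563c1dc5c4e491191d2a9f (k8 c4384 c2764 c4374 c4372 c4281 c4277 c4417 c1575 (k4 c499 c7194 c913 c1680 (k2 c331 c4241 (k1 c4200 k0)))) (by decide +kernel)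
def c7655 : PP 8 4 T 0x1000000000000401002000000000001010010510000010485400155800000000000000000000000000 := rS 0x5a4452ecb322ae96c9 (k8 c4305 c4427 c1673 c564 c1752 c4785 c4412 c7649 (k1 c7420 k0)) (by decide +kernel)
def c7656 : PP 8 4 T 0x420002000001000080015200500000000405005040800000000054000000022000499 := rS 0x1128b299d59ab984a0c9a71069bc6a6d4a9dd5b45 (k8 c4454 c3957 c1023 c2764 c2963 c4373 c1019 c4371 (k8 c496 c4282 c1998 c4436 c1207 c2068 c7654 c7650 (k2 c7655 c2038 (k1 c2123 k0)))) (by decide +kernel)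
def c7657 : PP 8 4 T 0x20400000000000000080010000500000104504001040000110040154002000022000489 := rS 0x1451032a5cfe8931aae97176127d430c48aa0be8552d162abc40ab5caa7351a61261029c41a6f1a99d2a7b4eb04eec93ebf1064d (k8 c4282 c1998 c7644 c4379 c4305 c1023 c4450 c4367 (k8 c4365 c2764 c2924 c4373 c1019 c4371 c496 c526 (k8 c5402 c4436 c1879 c229 c2006 c6832 c3957 c1923 (k8 c7645 c4354 c4454 c1938 c7646 c7647 c7653 c978 (k8 c6223 c4551 c4384 c7656 c4362 c4459 c1946 c7153 (k4 c7172 c4235 c4785 c7044 (k2 c4487 c2118 (k1 c4337 k0)))))))) (by decide +kernel)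
def c7658 : PP 8 4 T 0x40000000000000001000000000000000000000800000000014004000000000000000000000000000000 := rS 0x11705 (k2 c4311 c722 (k1 c4485 k0)) (by decide +kernel)
def c7659 : PP 8 4 T 0x8000000000000008000000000000000004000000001100000 := rS 0x70482cecb2 (k4 c1907 c1906 c662 c1185 (k2 c1024 c4462 k0)) (by decide +kernel)
def c7660 : PP 8 4 T 0x4000000000000000000000000400000000000000040000000000004000000000200000 := rS 0xeb05 (k2 c4307 c591 (k1 c4481 k0)) (by decide +kernel)
def c7661 : PP 8 4 T 0x800000010000000000000008000000000040000200800 := rS 0x888b452034b18878e5 (k8 c4283 c663 c1188 c1187 c2279 c1680 c814 c4335 (k1 c4468 k0)) (by decide +kernel)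
def c7662 : PP 8 4 T 0x1000000000005000014001554000000000000000000140405010000000000 := rS 0x15ec5 (k2 c4530 c5815 (k1 c2127 k0)) (by decide +kernel)
def c7663 : PP 8 4 T 0x1000000000000200000000000000001015008000011554000000000000000000000000000000000000 := rS 0xcba5ab95aab (k4 c4415 c4338 c2127 c4428 (k2 c1754 c7551 k0)) (by decide +kernel)
def c7664 : PP 8 4 T 0x200000000001000008000000000000021000100 := rS 0xf10d900ec30 (k4 c1032 c1071 c1031 c295 (k2 c4433 c6033 k0)) (by decide +kernel)
def c7665 : PP 8 4 T 0x1000000000001200000000000000001015008000001554100000000000000000000000000000000000 := rS 0x5424194a0a5ab956ad (k8 c4338 c4415 c2127 c4428 c7663 c7551 c4551 c1755 (k1 c978 k0)) (by decide +kernel)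
def c7666 : PP 8 4 T 0x1600000000000000000005211000401154500000000000000000000000000000000000 := rS 0x2a61a905bb1630a3a2a6d9aa5 (k8 c1938 c2068 c2019 c4454 c4337 c4488 c4370 c7665 (k4 c7468 c4327 c978 c4490 k0)) (by decide +kernel)
def c7667 : PP 8 4 T 0x1000000000000412000002000000080000000000500000000000000001100000000000000000000000 := rS 0x17dfa85 (k4 c4321 c5101 c7647 c4477 k0) (by decide +kernel)
def c7668 : PP 8 4 T 0x2000000000001100000000000000800001800 := rS 0x107e0e0bf0d (k4 c4327 c1295 c769 c4477 (k2 c358 c4300 k0)) (by decide +kernel)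
def c7669 : PP 8 4 T 0x4000000000000000009400020000020 := rS 0x849a83417 (k4 c533 c430 c431 c4315 (k1 c6682 k0)) (by decide +kernel)
def c7670 : PP 8 4 T 0x2400000000001008000000010004800000100 := rS 0x1741ab10501c070d (k8 c4327 c2766 c1018 c4462 c4640 c569 c809 c7668 k0) (by decide +kernel)
def c7671 : PP 8 4 T 0x40000000000000000000002000000010010000000002000004000102140004400000000000020000000 := rS 0x4d1619051e0b4554496613130d85c8251 (k8 c4435 c4433 c4431 c4291 c4343 c4317 c4993 c680 (k8 c4151 c4476 c969 c759 c5907 c605 c570 c4758 k0)) (by decide +kernel)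
def c7672 : PP 8 4 T 0x40000000000000200000002000000010010000000002000004000000100020400000000000020000000 := rS 0x116898484caa19351e8082b3286c2e51 (k8 c4435 c4431 c4291 c4412 c4411 c1026 c1234 c1235 (k4 c269 c266 c530 c4319 (k2 c683 c564 (k1 c4758 k0)))) (by decide +kernel)
def c7673 : PP 8 4 T 0x40000000000000200000002000000010010000000002000004000000100004400000000000020000000 := rS 0x22ec13a2251619051b0007859968b3138c99d86970d85c8251 (k8 c4435 c4433 c4431 c4291 c4335 c1213 c4333 c4367 (k8 c4343 c7672 c4476 c5025 c969 c758 c968 c759 (k4 c5907 c605 c680 c7671 (k2 c4688 c4417 (k1 c4494 k0))))) (by decide +kernel)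
def c7674 : PP 8 4 T 0x80002000008000440000000000000000000000000000 := rS 0xb67a361e61319 (k4 c4367 c4440 c1965 c1633 (k2 c4482 c969 (k1 c4270 k0))) (by decide +kernel)
def c7675 : PP 8 4 T 0x20000002020400100000000000000000000000000000000000 := rS 0x8aa452ab65eb3d4eca (k8 c981 c134 c1795 c1176 c1756 c1787 c979 c4353 (k1 c4551 k0)) (by decide +kernel)
def c7676 : PP 8 4 T 0x84002000008000000000004000000000000000000000 := rS 0x2d964c46b (k4 c1924 c1632 c1235 c2973 (k1 c4476 k0)) (by decide +kernel)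
def c7677 : PP 8 4 T 0x200000002000000000000000002022000000000000000004000000000000020000000 := rS 0x1a62326124a4256893c4ecd51c35946962a35329ba5a1d5cab (k8 c4415 c980 c7676 c4428 c105 c76 c1508 c7675 (k8 c2817 c981 c4329 c4337 c1483 c2977 c4297 c4298 (k4 c1503 c7673 c373 c2022 (k2 c771 c4282 (k1 c4467 k0))))) (by decide +kernel)
def c7678 : PP 8 4 T 0x1000000002020000000000000000000800000000004000000000 := rS 0x1a625119309e4986b3d4eca (k8 c981 c134 c1795 c4329 c373 c421 c2022 c771 (k2 c1503 c4282 (k1 c4467 k0))) (by decide +kernel)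
def c7679 : PP 8 4 T 0x20000000000000001400002000000000000200000 := rS 0xbafd3f041470d (k4 c4329 c132 c366 c367 (k2 c4299 c1457 (k1 c4477 k0))) (by decide +kernel)
def c7680 : PP 8 4 T 0x40000000000000100000002000000010011000000002040004000000150004500000000040020000000 := rS 0x22d121509954326a3d02c08582d9b4eab38b254423f0d85e32c3 (k8 c1213 c4367 c4431 c4291 c1179 c11 c973 c4494 (k8 c7239 c4417 c7671 c968 c4476 c1026 c535 c1234 (k8 c1235 c269 c266 c530 c7508 c683 c564 c2109 k0))) (by decide +kernel)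
def c7681 : PP 8 4 T 0x10010000000002000004000000110020500002000040024400000 := rS 0x22d121509954326a3d02c0821 (k8 c11 c1026 c535 c1234 c1235 c269 c266 c530 (k4 c326 c683 c564 c2109 k0)) (by decide +kernel)
def c7682 : PP 8 4 T 0x4000000000000000010000000000000040054000040040000500004400000105400800 := rS 0x145984caa59 (k4 c535 c307 c571 c5025 (k2 c2109 c7660 k0)) (by decide +kernel)
def c7683 : PP 8 4 T 0x10000000000000040054000040050004500002400040025400000 := rS 0x2655021602a5b058847f17 (k8 c4416 c1179 c11 c7682 c759 c326 c4476 c1026 (k2 c266 c530 (k1 c2109 k0))) (by decide +kernel)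
def c7684 : PP 8 4 T 0x2020000080000000000000000000000000000000000 := rS 0x3097506c831c359ea7349955cca (k8 c981 c980 c3687 c2817 c134 c1795 c4329 c1769 (k4 c1752 c645 c810 c977 (k1 c7308 k0))) (by decide +kernel)
def c7685 : PP 8 4 T 0x2000000010000000002020000014400000004008004002000000025400400 := rS 0xbd21a76306a3b9c4046d03004126f3c955090906935a40f129049ea589d14d221479145e81651651ab12eafd834b5745d9ea76284446294ac344e61 (k8 c2980 c2977 c4329 c802 c1680 c770 c7312 c1782 (k8 c134 c1795 c4416 c980 c4428 c1714 c4572 c810 (k8 c1148 c7472 c37 c981 c1900 c2760 c1220 c2725 (k8 c11 c2817 c4398 c4345 c80 c4297 c4433 c1503 (k8 c4046 c4467 c4282 c4371 c7667 c2108 c4151 c603 (k8 c1499 c234 c751 c4462 c5028 c1018 c496 c1024 (k4 c4479 c5310 c4367 c4446 (k2 c7646 c7645 k0)))))))) (by decide +kernel)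
def c7686 : PP 8 4 T 0x10000000002020000014400000004008100002000000025400400 := rS 0x8208270c0000582a64be242a1dd0ad309c21c8f152a9e27458699d2f4b32ab9161f10a3c8a2f2989d9aa325b28b67b348551a612e88c5295 (k8 c802 c1680 c770 c810 c2980 c7472 c326 c2817 (k8 c1227 c38 c981 c1860 c132 c1483 c2977 c7678 (k8 c2760 c1220 c2725 c11 c10 c7684 c980 c3687 (k8 c4428 c2985 c2984 c4329 c4398 c4345 c134 c80 (k8 c7685 c4475 c4465 c4401 c6489 c4321 c4438 c2109 (k8 c4467 c7647 c1071 c4406 c267 c5184 c1504 c1503 (k2 c751 c5810 (k1 c6012 k0)))))))) (by decide +kernel)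
def c7687 : PP 8 4 T 0x10000000002020000014000000004008100002000000025400400 := rS 0x17dfa822ea9e1a61 (k8 c2980 c4329 c134 c810 c7686 c4306 c549 c4477 k0) (by decide +kernel)
def c7688 : PP 8 4 T 0x10000000002020000014000040000000100002400000025400000 := rS 0x1281331055665905958ce2b32ab9948b108fd2e5313b354717 (k8 c4416 c132 c1483 c2977 c7678 c2985 c1179 c11 (k8 c7684 c981 c980 c3687 c3686 c2984 c7683 c7682 (k4 c37 c1187 c326 c7687 (k2 c3606 c7153 (k1 c7045 k0))))) (by decide +kernel)
def c7689 : PP 8 4 T 0x10000000002020000014000000000000100002400000025400000 := rS 0x1c57a837e24466492f984f29d2eb1c0005119dd0a6d8c324145414c20f6c360c14e4c58ba954f13a2a7d470d33a5c5b4b238ad5cca0f8844e8f (k8 c2725 c2977 c11 c10 c981 c980 c3686 c3531 (k8 c4428 c2983 c2985 c2984 c4329 c132 c77 c4398 (k8 c4345 c134 c80 c4416 c1782 c7688 c4408 c1620 (k8 c1088 c1231 c7619 c3558 c1614 c1615 c3658 c4494 (k8 c4317 c4321 c4438 c770 c266 c5184 c2250 c811 (k8 c4367 c4447 c976 c7647 c7307 c950 c978 c4477 (k4 c4582 c6223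 c4135 c6225 k0))))))) (by decide +kernel)
def c7690 : PP 8 4 T 0x2000000000000000000000002020000010000000000000100000000004000200000 := rS 0x17192d208894464f24bc21b4b5714d9aa3309b4be8552d154f13 (k8 c4345 c134 c4398 c80 c4321 c7647 c4317 c976 (k8 c132 c1483 c7678 c980 c4428 c4329 c4934 c7679 (k8 c4297 c771 c1503 c7312 c4467 c630 c7667 c811 k0))) (by decide +kernel)
def c7691 : PP 8 4 T 0x10000000002020000014000080000000100000400000025400000 := rS 0x1888d21904105b0002c0a540a80e100709b0e0a9ba58ad948b228bc7e972989d9aa360a547aae (k8 c980 c7689 c763 c1714 c132 c1483 c2977 c7678 (k8 c2985 c1179 c2760 c1220 c7684 c981 c3686 c4428 (k8 c2870 c4408 c1088 c1560 c1021 c4485 c791 c7690 (k8 c2109 c266 c306 c4461 c759 c4462 c5777 c236 (k2 c3049 c2115 (k1 c7675 k0)))))) (by decide +kernel)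
def c7692 : PP 8 4 T 0x2020000014000040000002000001400000021400000 := rS 0x41080e418c9e18ac346c58ac615996cee7b36964ea0b840160a674dd2c56ca459145e3f4b94c4ecd51b052aae (k8 c980 c763 c1714 c132 c1483 c2977 c7678 c2985 (k8 c1179 c2760 c1220 c7684 c981 c3686 c4428 c2870 (k8 c2984 c4406 c266 c7179 c306 c1686 c1026 c4317 (k8 c4319 c4438 c759 c5025 c976 c4476 c4481 c7472 (k8 c4362 c7675 c2123 c4447 c1847 c500 c4759 c4462 (k1 c236 k0)))))) (by decide +kernel)
def c7693 : PP 8 4 T 0x10000000002020000014004400000000100000400000025480000 := rS 0x3824f0423ab0d83164a82ce63d459145eb31fa5c82c5468949ef072d2d5c5313b35469b (k8 c2870 c132 c1483 c2977 c7678 c980 c4428 c4401 (k8 c4475 c4297 c1503 c1028 c7675 c4433 c2985 c1179 (k8 c513 c2760 c1220 c7684 c7689 c7691 c571 c763 (k8 c4471 c1714 c4362 c4417 c2115 c2123 c236 c500 (k1 c4462 k0))))) (by decide +kernel)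
def c7694 : PP 8 4 T 0x15000400000000054004440000000000000800000000400400 := rS 0x3c018ea09 (k4 c1061 c1575 c4462 c2123 (k1 c500 k0)) (by decide +kernel)
def c7695 : PP 8 4 T 0x2000002000000000000000002020010000000080000001000000000000020080000 := rS 0xd22e88cc64903a954f13a2c343e27309b44a4f (k8 c4297 c1503 c4317 c976 c2977 c10 c4329 c4398 (k8 c4345 c134 c80 c1022 c3646 c4562 c771 c810 (k2 c4467 c7667 k0))) (by decide +kernel)
def c7696 : PP 8 4 T 0x2000000000000010000000002020000014000000000001100000000000025400000 := rS 0x6988cba49319d00e0a39b0586951d3151a252093de0b372848c2153b9ecdaa553c4e8b0d4dd2d5c8b0f8847e972989d9aa3 (k8 c132 c1483 c2977 c7678 c2985 c1179 c11 c10 (k8 c7684 c980 c4428 c2870 c4329 c4398 c4345 c134 (k8 c80 c4317 c4319 c4438 c7690 c976 c2109 c4401 (k8 c513 c4475 c4297 c4433 c1503 c1028 c7675 c7693 (k8 c1577 c1047 c1580 c7695 c7694 c4 c570 c4562 (k4 c3650 c810 c771 c7667 (k1 c4467 k0))))))) (by decide +kernel)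
def c7697 : PP 8 4 T 0x2000000000001000002020000000000000000000000000800000020080900 := rS 0x1b4517ad221a453a238c2fe205a2b9262e003a00e270d4bb3d4e93a589d1e0532ab994c5468949e9b4a8858641 (k8 c4433 c1047 c11 c1577 c2870 c4297 c1503 c1028 (k8 c7675 c981 c980 c3687 c530 c2725 c2977 c4428 (k8 c3688 c134 c1795 c2985 c4329 c4345 c302 c570 (k8 c4461 c4417 c3650 c751 c566 c4487 c4572 c4494 (k8 c771 c7677 c2982 c4446 c4467 c6223 c4486 c5504 (k1 c4386 k0)))))) (by decide +kernel)
def c7698 : PP 8 4 T 0x2000000000000000402020000014000040000000100000800000021480000 := rS 0x3d9dcf256031d4b60b04b05866945904b20532ab994c5468949e9b (k8 c2870 c4297 c1503 c1028 c7675 c981 c980 c3687 (k8 c530 c1026 c4433 c7684 c2817 c1047 c1580 c1061 (k8 c7697 c759 c1575 c4462 c4476 c500 c1024 c1227 (k1 c2123 k0)))) (by decide +kernel)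
def c7699 : PP 8 4 T 0x1000000000000010000000002020000014000000000000100000000000025400000 := rS 0x773d908acc36096e2c95058f476c5469644a05729cd66412784a08f02aa6cd34b32ab9948b228bc7e972989d9aa3 (k8 c132 c1483 c2977 c7678 c2985 c1179 c2760 c1220 (k8 c7684 c981 c980 c3687 c4428 c2817 c2870 c4151 (k8 c4465 c4485 c4758 c4297 c4433 c4311 c4408 c5546 (k8 c530 c1503 c1026 c1028 c7675 c7698 c7689 c571 (k8 c763 c4471 c759 c1714 c4362 c4476 c2115 c1227 (k2 c1886 c7693 k0)))))) (by decide +kernel)
def c7700 : PP 8 4 T 0x10000000002020000014000000000000100000400000025400000 := rS 0x398f4a908 (k4 c7699 c7696 c7689 c7691 (k1 c7692 k0)) (by decide +kernel)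
def c7701 : PP 8 4 T 0x10000000002020000014000000000000100000000000025400000 := rS 0x211094acd327974b6f064819ca3a2c814c25436c214aa789d161b4b15ab994212989d9aa3 (k8 c132 c1483 c2977 c7678 c11 c981 c980 c3686 (k8 c4428 c4329 c4398 c4345 c134 c80 c7699 c4317 (k8 c7696 c976 c266 c1026 c7700 c4403 c1601 c3653 (k8 c4475 c495 c811 c4297 c7667 c4476 c1503 c4467 (k2 c1018 c2767 k0))))) (by decide +kernel)
def c7702 : PP 8 4 T 0x10000000002020000004000000000000100000000000028000000 := rS 0x4a2318b4c52042db90060178c345e69a59955cca2989d9aa3 (k8 c132 c1483 c2977 c7678 c981 c980 c3687 c4428 (k8 c2817 c2760 c4329 c4291 c687 c423 c4475 c758 (k4 c4461 c4402 c6489 c6533 (k2 c770 c1504 (k1 c4467 k0))))) (by decide +kernel)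
def c7703 : PP 8 4 T 0x10000000002020000014000000000000100000000000021000000 := rS 0x24ac8382904b60b31984be7735000da8d42938605d198d41a2424b044695698ec521363965c87b088540af10b06c96a553c4e8a9f8699c5a69a591c566557328428f228bc7e972989d9aa3 (k8 c132 c1483 c2977 c7678 c2985 c1179 c2760 c1220 (k8 c2725 c11 c981 c980 c3687 c3686 c3531 c4428 (k8 c2817 c2983 c2984 c4329 c77 c4398 c4345 c134 (k8 c80 c1860 c7702 c7701 c4431 c533 c652 c613 (k8 c521 c4475 c1026 c4289 c4401 c4402 c4403 c6489 (k8 c762 c770 c1714 c7307 c4467 c3476 c3477 c435 (k8 c1336 c1504 c1503 c6224 c1027 c5889 c1911 c1910 (k8 c3816 c7647 c976 c754 c2540 c5723 c5762 c4519 (k4 c4582 c4476 c6012 c751 k0))))))))) (by decide +kernel)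
def c7704 : PP 8 4 T 0x10000000002020000014000000000000000000000000021000000 := rS 0x399e40c0b01014ea77009ed67162b16582098ca64b6404e0c58ac31e8c8aa5033aad4a69a5ab91621228bc7e97 (k8 c2985 c1179 c2760 c1220 c11 c7684 c980 c4428 (k8 c2817 c80 c1741 c2984 c7703 c3545 c1593 c3614 (k8 c1867 c1595 c1916 c952 c953 c2958 c1032 c4367 (k8 c3058 c1853 c3040 c4476 c4494 c5025 c1227 c751 (k8 c4675 c4417 c7669 c4461 c302 c791 c1847 c1022 (k1 c2123 k0)))))) (by decide +kernel)
def c7705 : PP 8 4 T 0x2020000020000000000000000000000000000000000 := rS 0x1fa5d2f98504c9429b54b13a2c36866767a9d9aa3 (k8 c132 c1483 c134 c1795 c2984 c4423 c4329 c4398 (k8 c4345 c80 c680 c685 c637 c6175 c976 c7647 (k2 c811 c4306 (k1 c4477 k0)))) (by decide +kernel)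
def c7706 : PP 8 4 T 0x20800000000020000000000000000000000000000044000000000 := rS 0x11920530d (k4 c4329 c3681 c1750 c770 (k1 c7307 k0)) (by decide +kernel)
def c7707 : PP 8 4 T 0x2020000004000000801000000000000000420000000 := rS 0x86d28c2c51a25629e5325627818163020804047b89c352621479145e3f4b85cb20534acce65d31c1212186889c56caa5ab9128b (k8 c7684 c7705 c980 c4428 c981 c3686 c2977 c7706 (k8 c7704 c4436 c4485 c4407 c810 c4408 c4311 c2817 (k8 c269 c1026 c8 c2985 c1179 c2760 c1220 c2725 (k8 c11 c3688 c4329 c4345 c560 c1919 c492 c3826 (k8 c1918 c302 c791 c2140 c790 c1031 c500 c7523 (k4 c1503 c7472 c1148 c5310 (k2 c4467 c4446 (k1 c7657 k0)))))))) (by decide +kernel)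
def c7708 : PP 8 4 T 0x2020000004000000001000000000000000420000000 := rS 0x82b16c82f072b484a4f0003c06fc3617cd6a553c4e8b0d29b3546512c814d25d31c1212186889c56caa5ab9128b (k8 c7684 c7705 c980 c4428 c981 c3686 c2977 c7706 (k8 c7704 c4436 c4485 c4407 c810 c2817 c269 c1026 (k8 c1876 c132 c1483 c7678 c4329 c4398 c4345 c134 (k8 c80 c7707 c7137 c4479 c4477 c2963 c4376 c4461 (k8 c258 c1503 c4467 c6832 c4475 c4433 c5907 c4476 (k2 c751 c7626 k0)))))) (by decide +kernel)
def c7709 : PP 8 4 T 0x2000000000000000102000000000000000022000000 := rS 0x104b4822bc4cb205 (k8 c269 c1026 c4345 c2980 c977 c4476 c3900 c5907 k0) (by decide +kernel)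
def c7710 : PP 8 4 T 0x2020000004000000000000000000000000020000000 := rS 0xc31d8f5829c218212a562d905e06c72b14d600142340622309ccc65982014a3090c44d3669a5a2d121f228bc7e9729b3546d1138ad5cca (k8 c981 c980 c3686 c2977 c7706 c132 c1483 c7678 (k8 c2985 c1179 c2760 c1220 c10 c7705 c7684 c4428 (k8 c2817 c2870 c4345 c7704 c4436 c1876 c269 c4485 (k8 c1026 c4407 c4408 c7709 c7708 c2767 c1298 c770 (k8 c4461 c1919 c7675 c4402 c4479 c4475 c4433 c5907 (k8 c4476 c802 c751 c4674 c960 c1714 c1680 c1061 (k2 c1213 c4503 k0))))))) (by decide +kernel)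
def c7711 : PP 8 4 T 0x2020000000000000000000000000000000020000000 := rS 0x4bc0751920b058a9c219d932c33d959665b2c988ea13361ad0c531f9144e6717a5d56a566a8e96ae (k8 c980 c4428 c132 c1483 c80 c1741 c2985 c2760 (k8 c2984 c2977 c1220 c1179 c7678 c7710 c1924 c1633 (k8 c3511 c3623 c1632 c4993 c2722 c5025 c4476 c4270 (k8 c1907 c1072 c961 c4674 c960 c1635 c1893 c4675 (k4 c4367 c4759 c4472 c1062 (k2 c5028 c751 k0)))))) (by decide +kernel)
def c7712 : PP 8 4 T 0x2000008000000000000010000000 := rS 0xf8853876 (k4 c961 c960 c2964 c3090 (k1 c4466 k0)) (by decide +kernel)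
def c7713 : PP 8 4 T 0x15000000000000048000002008000000140000100050040000 := rS 0x1d94ca2d1208f452150c01c043f188040a204a168ae59 (k8 c4993 c7712 c4476 c842 c4466 c575 c2822 c316 (k8 c400 c4461 c494 c7462 c382 c795 c7047 c1873 (k4 c261 c1877 c1903 c1576 (k1 c2115 k0)))) (by decide +kernel)
def c7714 : PP 8 4 T 0x2020000008000000000000000000000000000000000 := rS 0xbc028e51f344a6511e89c764119878864546c617f1762b04e4943da74b45761accb262099b0ce9b17a5d56a567a9c5acd51a4e962b57329161d (k8 c7711 c7684 c981 c980 c3686 c4428 c3688 c132 (k8 c1483 c2983 c134 c1795 c80 c1741 c2985 c2760 (k8 c2870 c2984 c1633 c3511 c1632 c4993 c5025 c1907 (k8 c7712 c4476 c7676 c705 c842 c843 c1715 c1635 (k8 c4418 c4572 c4494 c1507 c4363 c4446 c7713 c432 (k8 c1104 c1101 c353 c274 c1593 c7678 c7706 c2115 (k4 c4287 c1082 c4475 c646 (k1 c5028 k0)))))))) (by decide +kernel)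
def c7715 : PP 8 4 T 0x2020000000000002000000000000000000080000001 := rS 0x20fc72184a2d129a0c4e0d1806808170cbc53ea38699d562d15995945f52974b4570e856090943d2d5c89458840659 (k8 c4993 c223 c57 c7684 c7705 c980 c4428 c7714 (k8 c4317 c4485 c4307 c7711 c7712 c4476 c2967 c80 (k8 c699 c981 c3687 c3686 c2983 c1741 c2984 c4329 (k8 c132 c77 c5028 c5066 c518 c4461 c4465 c7462 (k8 c2550 c351 c2622 c415 c300 c1916 c977 c4475 (k2 c4477 c4520 (k1 c4300 k0))))))) (by decide +kernel)
def c7716 : PP 8 4 T 0x1000000000000000002020000000000002000000100000000000000000002 := rS 0x1061830134660d0889046d314b914e9f8699cd2652fa94ba15824250f4b44a2c362f29b3546d1138ad5cca (k8 c981 c980 c3686 c2976 c7706 c132 c1483 c7678 (k8 c2760 c687 c7684 c7705 c4428 c7714 c4317 c4485 (k8 c4307 c2967 c80 c699 c3687 c2817 c2984 c4329 (k8 c77 c134 c4475 c4402 c6489 c770 c4467 c607 (k4 c3476 c435 c285 c4519 (k2 c5889 c1998 (k1 c977 k0))))))) (by decide +kernel)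
def c7717 : PP 8 4 T 0x2002000000000000000020000000000000000000000000000005000000000 := rS 0x11b4c530d (k4 c4329 c4402 c5695 c770 (k1 c4467 k0)) (by decide +kernel)
def c7718 : PP 8 4 T 0x400000000000000000020000000001404000000000000000000000000000000000000 := rS 0x13319 (k2 c4370 c1135 (k1 c4488 k0)) (by decide +kernel)
def c7719 : PP 8 4 T 0x41000000000000000000000001000091011000000000000000000000000000140155440000000000000 := rS 0x17235 (k2 c4373 c7514 (k1 c7552 k0)) (by decide +kernel)
def c7720 : PP 8 4 T 0x1000090000000002021001000000000000000140151440000000000000 := rS 0xbc47afd6f171f0d49a39a2c359ea766a8e96c15db1526ae4dc4c96ca (k8 c981 c1860 c4345 c2870 c980 c3688 c7718 c1444 (k8 c1715 c4428 c132 c1483 c134 c1795 c4329 c4398 (k8 c4279 c4282 c4373 c7719 c4355 c1161 c4572 c851 (k2 c2114 c6223 k0)))) (by decide +kernel)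
def c7721 : PP 8 4 T 0x20001000000000000000002008000004000000000 := rS 0x2362a8f1c2e1470d (k8 c4329 c132 c371 c370 c1475 c4347 c1114 c4486 k0) (by decide +kernel)
def c7722 : PP 8 4 T 0x2021000000000002000000100000000000080000000 := rS 0xc28b0fc902269b946e2527915e10d48968ae1d2cb058b13208bc869b1da4c7a5366a8da227000ad5cca (k8 c981 c980 c3686 c7715 c2976 c7706 c132 c1483 (k8 c7678 c274 c3688 c1101 c2870 c277 c2760 c1104 (k8 c4345 c7718 c1715 c4993 c7711 c7712 c4476 c2982 (k8 c4329 c7716 c4295 c4297 c1503 c272 c7717 c7720 (k4 c4467 c771 c7721 c4471 (k2 c2115 c4362 k0)))))) (by decide +kernel)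
def c7723 : PP 8 4 T 0x2021000000000002000000000000000000080000000 := rS 0x188c8a01b000bd56a557424f65a2b874b29b (k8 c2870 c4993 c7711 c7712 c4476 c705 c4317 c980 (k8 c80 c1741 c2760 c7715 c687 c7722 c1593 c1916 (k1 c5697 k0))) (by decide +kernel)
def c7724 : PP 8 4 T 0x11000480000000054005040000000200004000000004000180 := rS 0xea77618f432f1 (k4 c4435 c1876 c3614 c1867 (k2 c6033 c499 (k1 c2123 k0))) (by decide +kernel)
def c7725 : PP 8 4 T 0x1000000811000400000000054005440000000000005010000000000080 := rS 0x3097275 (k4 c499 c7514 c2123 c2029 k0) (by decide +kernel)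
def c7726 : PP 8 4 T 0x2021000000000002000000000000000000000000002 := rS 0x1b4517a8f5b8f11abf8c1dc82f028b946ad22189492310486c4e0b0300d4f0d179a456b34b99ce70484a1e9689459ed225a2b965827962a4d94ae4dc4c7e2d118803e1d (k8 c7711 c7723 c4466 c2825 c2983 c400 c4345 c2870 (k8 c980 c981 c3688 c7718 c601 c1715 c4993 c7712 (k8 c4476 c2982 c705 c7684 c7705 c4428 c7714 c4317 (k8 c4485 c4408 c2984 c2985 c5025 c3686 c2817 c2760 (k8 c4329 c134 c1 c831 c567 c2976 c687 c230 (k8 c5699 c7307 c1504 c4567 c4467 c4373 c6832 c7724 (k8 c7716 c4433 c1023 c4482 c4369 c1507 c7725 c1742 (k4 c851 c6223 c4486 c5504 (k1 c4386 k0))))))))) (by decide +kernel)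
def c7727 : PP 8 4 T 0x10000000000000000808000000440001000000000000000000000000000000000000 := rS 0x23970bc (k4 c2028 c2029 c6223 c1475 k0) (by decide +kernel)
def c7728 : PP 8 4 T 0x1000002020000000000002000000000055000000002000000 := rS 0x7653040c8463103bc440010fa74f20b689448a2d39c121287a5ab9128b3da6d86912d15c3a596543546a7 (k8 c134 c132 c4329 c981 c4993 c7711 c7712 c4476 (k8 c2982 c7727 c2870 c705 c7684 c7705 c980 c4428 (k8 c7714 c4317 c4485 c4408 c2983 c257 c1876 c261 (k8 c308 c1958 c969 c7723 c7726 c4466 c5028 c494 (k4 c6147 c2825 c6029 c4462 (k2 c416 c1061 (k1 c6159 k0))))))) (by decide +kernel)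
def c7729 : PP 8 4 T 0x2021000000000002000000000000000000000000004 := rS 0x14021f2d15c3a59 (k8 c4993 c7711 c7712 c4476 c7723 c7726 c575 c4461 k0) (by decide +kernel)
def c7730 : PP 8 4 T 0x1000002020000000000002000000000055000000000000000 := rS 0xd02c3c05109dcf0994e00c329b2d15c3a59 (k8 c4993 c7711 c7712 c4476 c2870 c7728 c959 c7729 (k8 c76 c969 c1091 c967 c2583 c4466 c270 c4123 (k1 c4698 k0))) (by decide +kernel)
def c7731 : PP 8 4 T 0x2020000000000002000000000080000000000000004 := rS 0x2700a1b3d968ae591007d361d (k8 c7711 c2870 c277 c4466 c4993 c7712 c4476 c705 (k4 c335 c694 c7729 c4461 (k1 c2968 k0))) (by decide +kernel)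
def c7732 : PP 8 4 T 0x2020000000000002000000000080000000000000000 := rS 0x4e8c404200fc4d36692d15c3a59 (k8 c4993 c7711 c7712 c4476 c2817 c2870 c4345 c277 (k4 c4466 c7731 c6830 c2971 (k1 c4567 k0))) (by decide +kernel)
def c7733 : PP 8 4 T 0x2020000000000002000000000020000000000000000 := rS 0x1803804629d2d15c3a59 (k8 c4993 c7711 c7712 c4476 c1051 c1913 c7726 c494 (k2 c7462 c1873 k0)) (by decide +kernel)
def c7734 : PP 8 4 T 0x11000002020000000000002000000000004000000000000000 := rS 0x4e80e300929914763c2ac121287a5ab9128b61a44b4570e965950d51a9c8641 (k8 c7733 c7732 c134 c132 c4329 c981 c4993 c7711 (k8 c7712 c4476 c2982 c7727 c7684 c7705 c980 c4428 (k8 c7714 c4317 c4485 c4406 c7730 c20 c445 c333 (k4 c234 c4759 c839 c4367 (k1 c7729 k0))))) (by decide +kernel)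
def c7735 : PP 8 4 T 0x2000084000400004000002000000000040000400010000000 := rS 0xd87800051080cf09c3ba6633093d968ae59 (k8 c4993 c7712 c4476 c705 c4317 c4450 c1932 c1892 (k8 c1715 c4482 c2971 c967 c2583 c4461 c4466 c687 (k1 c4123 k0))) (by decide +kernel)
def c7736 : PP 8 4 T 0x1000002020000000000002000000000054000000000000000 := rS 0x1883c (k2 c7730 c7734 (k1 c1783 k0)) (by decide +kernel)
def c7737 : PP 8 4 T 0x2020000000000002000000000000000000000000000 := rS 0xf0990da70001e108f9824121968ae594d8bd56a516ab83a87 (k8 c7714 c7711 c980 c2983 c80 c1741 c2760 c2870 (k8 c4993 c7712 c4476 c7732 c7733 c7735 c7736 c400 (k4 c4466 c7715 c7723 c687 (k2 c76 c969 (k1 c4123 k0))))) (by decide +kernel)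
def c7738 : PP 8 4 T 0x4000000000000000000001000002022000000000000000000000000000000000000000 := rS 0xc461a3632a54da5e96ae (k8 c980 c4428 c2985 c2870 c80 c4367 c1237 c1213 (k2 c4494 c7675 k0)) (by decide +kernel)
def c7739 : PP 8 4 T 0x1000002020000000000000000000000008000000000000000 := rS 0x34c4a4f7808ca249298cc4e4546b4630bf61b15229d89c359ea766a8d274b1d8f5cb171bad594ae208bc861e108b43a9b (k8 c2870 c7711 c2983 c400 c4466 c277 c2760 c1104 (k8 c980 c981 c3641 c403 c4355 c4287 c90 c21 (k8 c4428 c3688 c132 c1483 c134 c1795 c4329 c4345 (k8 c7738 c978 c7718 c7727 c4572 c4494 c459 c1507 (k8 c4363 c353 c432 c7678 c7721 c1593 c771 c4475 (k4 c4297 c1503 c7720 c4467 k0)))))) (by decide +kernel)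
def c7740 : PP 8 4 T 0x2020000000000000000000000008000000000000000 := rS 0xf12891066d14e14d32c02187842e51ea6d56a516d2d5c1d (k8 c7711 c980 c4428 c2983 c80 c1741 c2870 c90 (k8 c4287 c400 c4466 c277 c7739 c1932 c1982 c1715 (k4 c1710 c433 c1232 c1593 (k2 c4295 c4475 k0)))) (by decide +kernel)
def c7741 : PP 8 4 T 0x2000080000100054000001100000000004000040080000001 := rS 0x154320409854361701945a2e4220c0663d8b94c769c (k8 c1715 c3528 c1983 c4420 c274 c433 c1233 c1232 (k8 c4471 c1710 c1593 c2139 c1911 c295 c4283 c4401 (k4 c4461 c269 c266 c2109 k0))) (by decide +kernel)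
def c7742 : PP 8 4 T 0x2000084000400054000001100000000004000040010000000 := rS 0x834170a814141978945a23221114401f00904b69c1d94d334b (k8 c4428 c1932 c1983 c3528 c1715 c968 c1051 c4733 (k8 c7741 c4466 c441 c967 c966 c1711 c1957 c4293 (k8 c255 c6257 c2293 c4934 c573 c4687 c4461 c423 k0))) (by decide +kernel)
def c7743 : PP 8 4 T 0x40000000000000000000000000000000011000000002000054000101100000000011000100200000001 := rS 0xd00826172a8540a0a29865e2d1288c8845b (k8 c968 c967 c966 c1956 c341 c4293 c255 c416 (k8 c6257 c2293 c4934 c306 c573 c570 c4461 c2109 (k1 c423 k0))) (by decide +kernel)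
def c7744 : PP 8 4 T 0x2022000000000000000000000000000000000000000 := rS 0x995432040a94da21b0b80ca20b220c0661e109d47ab362c5802412da35322da5995823f36a1c3a89458ad9469572ad4a9b (k8 c2870 c80 c1741 c980 c2817 c981 c3686 c7684 (k8 c7705 c7711 c7714 c7737 c7740 c7742 c3687 c4428 (k8 c2983 c76 c1237 c968 c1051 c4733 c7738 c7675 (k8 c4357 c4416 c4417 c7743 c4466 c433 c1233 c1232 (k8 c271 c1593 c2139 c1911 c295 c300 c419 c7508 (k4 c4461 c269 c266 c530 (k1 c2109 k0))))))) (by decide +kernel)
def c7745 : PP 8 4 T 0x2020000000000000000000400000004000080000000 := rS 0x62f122344a227608fcda870ea25166955a958b1361a453b0d51a9c822f21a6c76931e8ad5cca (k8 c981 c980 c3686 c274 c3688 c1101 c2870 c277 (k8 c2760 c1104 c134 c132 c4329 c7744 c978 c7727 (k8 c4345 c7718 c80 c1741 c2817 c7684 c7705 c7711 (k8 c7714 c7737 c7740 c7742 c974 c1593 c7706 c2115 (k2 c4295 c297 (k1 c4469 k0)))))) (by decide +kernel)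
def c7746 : PP 8 4 T 0x40000000000000000000000000000000015000000000404054004001000000000000008000080000000 := rS 0xe6793ba5566588b00a320500911300b (k8 c2405 c433 c432 c950 c6309 c4363 c4461 c4494 (k4 c223 c4357 c4418 c3120 (k2 c541 c1109 (k1 c6803 k0)))) (by decide +kernel)
def c7747 : PP 8 4 T 0x2020000000000000000000000000000000080000000 := rS 0x52138cd9b4b608fd0e1d44a2c56ab529ecd26d62a4d5c9b89b0d229d6543546a7 (k8 c134 c132 c4329 c981 c7744 c978 c7727 c4345 (k8 c2870 c980 c3688 c7718 c7737 c2817 c4055 c80 (k8 c1741 c3686 c7684 c7705 c7711 c7714 c7740 c7742 (k4 c4428 c1483 c7746 c974 (k2 c7745 c7678 k0))))) (by decide +kernel)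
def c7748 : PP 8 4 T 0x2020000000000000000000800000000000000000000 := rS 0x4cc616b299aa3 (k4 c132 c1483 c981 c2983 (k2 c2023 c7678 (k1 c408 k0))) (by decide +kernel)
def c7749 : PP 8 4 T 0x8000000000000000010015000000420001000000000000000520144400000000000000 := rS 0x1788f202547b0d (k4 c4329 c4416 c4418 c2115 (k2 c850 c1994 (k1 c6223 k0))) (by decide +kernel)
def c7750 : PP 8 4 T 0x14000400000210054005040100020000000000000000000000 := rS 0x77 (k2 c1112 c6803 k0) (by decide +kernel)
def c7751 : PP 8 4 T 0x400000000000000000000000000000000000000801100004000000000000000000000 := rS 0xd709 (k2 c4438 c1921 (k1 c4479 k0)) (by decide +kernel)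
def c7752 : PP 8 4 T 0x2020000000000200000004000000000008000000000 := rS 0x23cde831cbf0785f35974825a31820cead5a995020202804c21346afe2e3b723c464431894452d127930a6451007d870d51a4696c11fa1c3a89458ad56a567a9d8a9d49b295c9b3b9b4d313 (k8 c4345 c2817 c7737 c7751 c2870 c980 c981 c3688 (k8 c7744 c7718 c134 c1795 c80 c1741 c3686 c7684 (k8 c7705 c7711 c7714 c7740 c7742 c4428 c978 c132 (k8 c4329 c7727 c7747 c4466 c441 c7748 c975 c449 (k8 c1751 c2978 c1592 c357 c4567 c974 c4293 c4475 (k8 c4403 c7749 c4572 c1507 c4401 c976 c870 c2339 (k8 c4461 c1900 c3687 c3641 c900 c2984 c5096 c1689 (k8 c231 c1063 c810 c6117 c577 c2115 c4477 c363 (k4 c4306 c4378 c847 c6116 k0))))))))) (by decide +kernel)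
def c7753 : PP 8 4 T 0x10015000000000000000000480000000500144400000000000400 := rS 0x200207a07 (k4 c1021 c1615 c4462 c2115 (k1 c1063 k0)) (by decide +kernel)
def c7754 : PP 8 4 T 0x10000000000000000000000000400001000000000000000020020000000400000000 := rS 0x23d7834 (k4 c1995 c1994 c1305 c6223 k0) (by decide +kernel)
def c7755 : PP 8 4 T 0x2020000000000000000000000000000008000000400 := rS 0x5d7eb25045f429bce308591ccea772bd14fa8130aecf6798c2c6288f1c8f082235aa357f171db91e232218c4a2296893c9853228803ec386a8d234b608fcda870ea25162b34aad4acf53b153a93652b93713 (k8 c4345 c2870 c980 c981 c3688 c7744 c7718 c134 (k8 c1795 c80 c1741 c2817 c3686 c7684 c7705 c7711 (k8 c7714 c7737 c7740 c7742 c4428 c978 c132 c4329 (k8 c7727 c7747 c4466 c441 c7748 c975 c449 c1751 (k8 c2978 c1592 c357 c4567 c974 c4293 c4475 c4403 (k8 c7749 c4572 c1507 c3641 c2825 c7754 c2115 c363 (k8 c847 c4486 c4349 c4494 c4447 c4055 c1980 c976 (k8 c1900 c3569 c4398 c799 c7751 c7752 c7753 c2123 (k8 c7658 c667 c1190 c4321 c7647 c7040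 c634 c4306 (k2 c811 c4477 k0)))))))))) (by decide +kernel)
def c7756 : PP 8 4 T 0x2020000000000000000000000000000008000000000 := rS 0x7e20c22852a1dc1a17049c415145ea3c723c209e51b185fc5c363b09809c81502865e24328b449832188a49e0f00b4d9eb53ed2cc2c11fa1d128b15aad4a7b349b58a935744d86914eb2a1aa35391536231007c3a53 (k8 c7748 c7711 c7747 c4466 c2825 c2870 c441 c134 (k8 c132 c4329 c981 c7744 c978 c7727 c4345 c980 (k8 c3688 c7718 c7737 c2817 c4055 c80 c1741 c3686 (k8 c7684 c7705 c7714 c7740 c7742 c976 c4428 c3569 (k8 c3641 c1795 c4277 c870 c239 c449 c2978 c357 (k8 c974 c975 c1751 c1592 c4567 c4293 c255 c2339 (k8 c4934 c4475 c4461 c4401 c4403 c423 c7749 c4572 (k8 c4494 c1507 c4447 c7754 c2115 c363 c847 c6223 (k8 c4486 c7755 c4387 c31 c573 c568 c6033 c2109 (k4 c6224 c347 c4570 c4463 (k1 c6225 k0))))))))))) (by decide +kernel)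
def c7757 : PP 8 4 T 0x2020000000000000000000100040400000000000000 := rS 0xda28bd47a356ebf1e461823f36a2516ab52b15271361a453aa353915364920bc1cad2128c61a231007c3a8734d2da22715ab99453 (k8 c7748 c981 c980 c3686 c7756 c7706 c4428 c2817 (k8 c7714 c7711 c7747 c4466 c2825 c4329 c316 c1504 (k8 c4467 c6832 c4475 c4433 c7307 c2870 c441 c134 (k8 c132 c7744 c978 c7727 c4345 c3688 c7718 c80 (k8 c1741 c7684 c7705 c7737 c7740 c7742 c4759 c2115 (k8 c4369 c1742 c1507 c851 c6223 c4486 c5090 c4386 k0)))))) (by decide +kernel)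
def c7758 : PP 8 4 T 0x10000000000000000000000000002020000000001400000001100000000000004000800 := rS 0x4c2a758445a96c11fa1c3a8945aad4a7b349b58a934dc4d86914ec3546a729b444e2b573283217 (k8 c572 c309 c981 c980 c3686 c7756 c7706 c7748 (k8 c134 c132 c4329 c7744 c978 c7727 c4345 c2870 (k8 c3688 c7718 c7737 c2817 c4055 c80 c1741 c7684 (k8 c7705 c7711 c7714 c7740 c7742 c4428 c4494 c4482 (k4 c4417 c7690 c570 c2109 k0))))) (by decide +kernel)
def c7759 : PP 8 4 T 0x1000000000000000010000000400020005154000000010001500001000000045400801 := rS 0x150981006574a23a1a09 (k8 c31 c4329 c4486 c4551 c2779 c303 c4461 c530 (k2 c7133 c2109 k0)) (by decide +kernel)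
def c7760 : PP 8 4 T 0x2020000000001400000000100040000000000000800 := rS 0xde288d5fc6166551e8e836f049d2cca8b44a453a53688ad5cca72b484a318688c401f13a1cd2070c8043a17 (k8 c572 c7711 c567 c309 c4 c2817 c7714 c7756 (k8 c7747 c4466 c2825 c4329 c316 c1504 c4467 c6832 (k8 c981 c980 c3686 c7706 c7748 c7744 c978 c7705 (k8 c7684 c3687 c4428 c3688 c4475 c4291 c7757 c20 (k8 c1601 c1041 c7758 c4369 c1507 c7759 c4386 c5037 k0))))) (by decide +kernel)
def c7761 : PP 8 4 T 0x2020000000001400000000000040000000000000800 := rS 0x3a9ccb05b0200d2857598a07a5032b047e8744a2c56ab529ecd26d62a4d5c9b89b0d229d6543546a71007c021d (k8 c7711 c567 c7747 c4466 c134 c132 c4329 c981 (k8 c7744 c978 c7727 c4345 c2870 c980 c3688 c7718 (k8 c7737 c2817 c4055 c80 c1741 c3686 c7684 c7705 (k8 c7714 c7740 c7742 c3687 c7760 c3614 c1592 c663 (k8 c2776 c834 c6877 c4461 c575 c311 c1617 c538 (k1 c2123 k0)))))) (by decide +kernel)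
def c7762 : PP 8 4 T 0x2020000000000400000000000040000000000000800 := rS 0x45702a60b3193c006269b4e8803e1d (k8 c7711 c7747 c4466 c7744 c2870 c4345 c567 c7761 (k4 c4447 c541 c4488 c311 (k2 c1071 c4461 (k1 c303 k0)))) (by decide +kernel)
def c7763 : PP 8 4 T 0x2020000000002000000000000040000000000000400 := rS 0x424e45d040e9e05a03904b319a2d2cc2c11f9b50e89458acd2ab52b1526ae89b0d229d6528d4e454d94da42518c3446272b8803e1d (k8 c7711 c7747 c4466 c799 c7756 c2825 c4329 c316 (k8 c1504 c4467 c7748 c2870 c441 c134 c132 c981 (k8 c7744 c978 c7727 c4345 c980 c3688 c7718 c80 (k8 c1741 c2817 c3686 c7684 c7705 c7714 c7737 c7740 (k8 c7742 c976 c4428 c4398 c4447 c541 c1847 c501 (k8 c4476 c4472 c4759 c4462 c2837 c1061 c7667 c7619 k0)))))) (by decide +kernel)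
def c7764 : PP 8 4 T 0x2020000000001000000014000000001000000000010 := rS 0x94010a0025041bc50afc8417cd65d2d2cd4aa789d14ce97a5a04c26d29b4456ae65395a4258688c401f0e89d0e69 (k8 c2817 c7714 c7756 c7711 c7747 c4466 c2825 c4329 (k8 c1504 c4467 c6832 c981 c980 c3686 c7706 c7748 (k8 c7737 c976 c1900 c4428 c2985 c2984 c4398 c4345 (k8 c134 c80 c5025 c4476 c2837 c580 c7137 c4479 (k8 c4477 c4321 c7667 c4306 c4475 c5947 c1592 c4461 (k2 c834 c6877 k0)))))) (by decide +kernel)
def c7765 : PP 8 4 T 0x2020000000000400000000000040000000000000000 := rS 0x140523b59054e67501004b0790295c163116995823f43a25162b55a94f66936b1526ae4dc4d86914eb2a1aa3538803e1d (k8 c7711 c7747 c4466 c134 c132 c4329 c981 c7744 (k8 c978 c7727 c4345 c2870 c980 c3688 c7718 c7737 (k8 c2817 c4055 c80 c1741 c3686 c7684 c7705 c7714 (k8 c7740 c7742 c3687 c2983 c316 c7762 c799 c310 (k8 c7763 c7764 c487 c4726 c538 c1109 c382 c2123 (k4 c1042 c835 c7757 c1592 k0)))))) (by decide +kernel)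
def c7766 : PP 8 4 T 0x2020000000000400000000000000000000000000400 := rS 0x420ba79000180aa7a2984f6030485d311978395a425278c2269d8688c401f28909823f36a1c3a89459a556a54dd2da22715ab99453 (k8 c7748 c981 c980 c3686 c7756 c7706 c4428 c2870 (k8 c80 c1741 c2817 c7684 c7705 c7711 c7714 c7737 (k8 c7740 c7742 c7765 c1956 c7747 c4466 c2825 c4329 (k8 c7744 c4345 c4567 c2265 c1503 c4467 c6832 c4475 (k8 c4446 c4488 c3838 c2144 c6830 c4055 c976 c4398 (k8 c134 c310 c4462 c4461 c500 c2821 c4482 c7667 k0)))))) (by decide +kernel)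
def c7767 : PP 8 4 T 0x2020000000000400000000000000000000000000000 := rS 0x3c16caa01050f531160d8c0a3192152d823f43a25162b55a94f66936b1526ae4dc4d86914eb2a1aa3538803e1d (k8 c7711 c7747 c4466 c134 c132 c4329 c981 c7744 (k8 c978 c7727 c4345 c2870 c980 c3688 c7718 c7737 (k8 c2817 c4055 c80 c1741 c3686 c7684 c7705 c7714 (k8 c7740 c7742 c4428 c7765 c4446 c1956 c4567 c335 (k8 c4494 c4488 c4416 c7766 c567 c306 c6147 c7758 (k1 c1929 k0)))))) (by decide +kernel)
def c7768 : PP 8 4 T 0x2020000000000000000000000000000000000000000 := rS 0x8a0d91a3d692fde0122885c32255e83c86980d854520a0101c028f2d814aa6a821596659849e4ecd11394c46200fa453a6136a1c3a8945994574b499a55cca4dc354f13 (k8 c4345 c134 c4329 c2870 c981 c980 c2817 c3688 (k8 c4428 c3686 c3687 c7684 c7705 c7711 c7714 c7737 (k8 c976 c7744 c978 c7747 c4466 c2825 c7748 c7756 (k8 c7706 c7767 c47 c4438 c1112 c1192 c7751 c4485 (k8 c4479 c4151 c311 c38 c2779 c750 c1017 c798 (k8 c799 c2776 c4307 c558 c1920 c3829 c6403 c6223 (k8 c224 c308 c572 c1592 c2109 c4465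 c3071 c4467 (k4 c1679 c1507 c5504 c7759 (k1 c4386 k0))))))))) (by decide +kernel)
def c7769 : PP 8 4 T 0x200000002000000000000000050000000000000000000000500000001450000000000 := rS 0x558b466d1 (k4 c4298 c4293 c4331 c4415 (k1 c2112 k0)) (by decide +kernel)
def c7770 : PP 8 4 T 0x40000000000000001000000000000000000000000000000014000000108000000000000000000000000 := rS 0x11705 (k2 c4407 c1769 (k1 c4485 k0)) (by decide +kernel)
def c7771 : PP 8 4 T 0x20000000002000000040000000040000000000000000000001000000054400000000 := rS 0x11c5a9f (k4 c4384 c4285 c4404 c4200 k0) (by decide +kernel)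
def c7772 : PP 8 4 T 0x200000000800000000000000001000208000801 := rS 0xd2022c815e21f (k4 c57 c4291 c7135 c534 (k2 c4461 c1881 (k1 c423 k0))) (by decide +kernel)
def c7773 : PP 8 4 T 0x40000000000004400000000000000000000000010000004080000001800010000000000000000000000 := rS 0x25cc8ab (k4 c1673 c564 c4785 c7044 k0) (by decide +kernel)
def c7774 : PP 8 4 T 0x40000000000000400000002000000000040000082044000000000000000000000400000150400000000 := rS 0x32c90cd13a868aa7528cc9ed1 (k8 c4298 c4297 c4293 c80 c134 c4398 c7768 c974 (k4 c1483 c4576 c1754 c4573 k0)) (by decide +kernel)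
def c7775 : PP 8 4 T 0x2000000000000000001400000000000000000000012000001045400000000 := rS 0x218a41993c5e4b (k4 c4434 c4432 c4297 c4293 (k2 c2111 c7307 (k1 c4385 k0))) (by decide +kernel)
def c7776 : PP 8 4 T 0x100001400044054500000000000002000002000000200020008 := rS 0x2e542b7489f0b837 (k8 c2268 c343 c347 c887 c1743 c811 c1356 c2125 k0) (by decide +kernel)
def c7777 : PP 8 4 T 0x1000000000001056000000000005415000 := rS 0x403f106d3 (k4 c4281 c4570 c4199 c2108 (k1 c4380 k0)) (by decide +kernel)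
def c7778 : PP 8 4 T 0x400000000000000000000000000000000001000000000000040000000000000002000000000002800 := rS 0x2dd73151a1c07717 (k8 c4416 c20 c568 c569 c4387 c1473 c1037 c4492 k0) (by decide +kernel)
def c7779 : PP 8 4 T 0x1000000000000000000000000000000000000000000000000000000040008000011800 := rS 0x11a912b0800401478161a39 (k8 c358 c4323 c350 c847 c871 c4461 c302 c303 (k2 c887 c7053 (k1 c4486 k0))) (by decide +kernel)
def c7780 : PP 8 4 T 0x401000000000000000000140000501501500000001400100000000000000000000000 := rS 0x2a0d0bf (k4 c5760 c4479 c2126 c826 k0) (by decide +kernel)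
def c7781 : PP 8 4 T 0x400000000000000000000000000005000000044400000000000000000000520000005550000000000 := rS 0x2b5a345 (k4 c4451 c381 c6601 c2112 k0) (by decide +kernel)
def c7782 : PP 8 4 T 0x1000000000000000000800000000000000005004000000000000000000000000000 := rS 0xef19 (k2 c4369 c1093 (k1 c4482 k0)) (by decide +kernel)
def c7783 : PP 8 4 T 0x1000000000000000000000000002100000005000400000000100000000000000001 := rS 0x2090de21c361d8d3138c958b659 (k8 c1235 c969 c4476 c4367 c4343 c825 c4482 c4479 (k4 c7712 c5028 c4674 c4675 (k1 c4472 k0))) (by decide +kernel)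
def c7784 : PP 8 4 T 0x1000000000000000000000000002100000001000400000000000000000000000800 := rS 0x3a19209b434773d15802592dc4c1245 (k8 c439 c31 c4343 c969 c1235 c566 c4476 c7783 (k4 c48 c702 c4270 c3037 (k2 c309 c4818 (k1 c4780 k0)))) (by decide +kernel)
def c7785 : PP 8 4 T 0x40000000000000001000000000000000000000000000000014000000000000000000000000004200000 := rS 0x11705 (k2 c4307 c718 (k1 c4485 k0)) (by decide +kernel)
def c7786 : PP 8 4 T 0x80000000000000000000000000000000000020000080000000 := rS 0x74b8 (k2 c1451 c1452 (k1 c3106 k0)) (by decide +kernel)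
def c7787 : PP 8 4 T 0x8000002000000000000000005400000000000040050000000000000000000000000000 := rS 0xeab958b24de7d (k4 c4379 c4378 c4305 c4303 (k2 c4361 c4417 (k1 c2121 k0))) (by decide +kernel)
def c7788 : PP 8 4 T 0x2000000001000000000014400000002020000000000802 := rS 0x1f4ce9f30c12181546a3cbab30e0841e138aa8d92b1039fc4ae550954e646 (k8 c1307 c3559 c307 c3612 c4404 c3349 c3296 c4 (k8 c1033 c1705 c3297 c4389 c1679 c1330 c831 c567 (k8 c2642 c753 c1306 c1028 c327 c4486 c4464 c4325 (k4 c4384 c4309 c4409 c2118 k0)))) (by decide +kernel)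
def c7789 : PP 8 4 T 0x2000000000000000000000000000000020000080000000 := rS 0x448c (k2 c1099 c1100 (k1 c3286 k0)) (by decide +kernel)
def c7790 : PP 8 4 T 0x2000000000000000010000080000002020000000000800 := rS 0x814c6652fa440609499cc8c1f (k8 c7789 c1307 c3559 c3593 c31 c839 c889 c576 (k4 c579 c843 c575 c7788 (k1 c4461 k0))) (by decide +kernel)
def c7791 : PP 8 4 T 0x442001000400100000800000000014040021400600000801 := rS 0xdbc530325e93c4a2753a961915488dd1e194ec242e09 (k8 c31 c1833 c4438 c967 c308 c1305 c18 c887 (k8 c4389 c4486 c4385 c4330 c4323 c3349 c3468 c1040 (k4 c2111 c2126 c4293 c7772 (k1 c4465 k0)))) (by decide +kernel)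
def c7792 : PP 8 4 T 0x42001000480100000801000000404040021400600110801 := rS 0x4caf55641453c0364c68a254ea586455228f0ca76121704afcde7d28b050f04098ec6e5539b948c3c (k8 c1308 c1307 c4404 c3559 c307 c18 c1579 c571 (k8 c4464 c4410 c1892 c1684 c4409 c1347 c1093 c31 (k8 c1833 c4438 c967 c308 c1305 c887 c4389 c4486 (k8 c4385 c4330 c4314 c1765 c7791 c374 c4465 c2109 (k4 c4433 c1673 c1039 c1200 (k1 c2126 k0)))))) (by decide +kernel)
def c7793 : PP 8 4 T 0x42001000480100000801000000400040021400600110801 := rS 0x980d2f5e24a1ca9d4b0c8aa451e194ec242e095f9bcfb04098ec6e55398f1ca46 (k8 c1307 c4404 c1308 c3559 c307 c18 c1579 c571 (k8 c4464 c4409 c1347 c1093 c31 c1833 c4438 c967 (k8 c308 c1305 c887 c4389 c4486 c4385 c4330 c19 (k4 c7792 c4434 c1859 c4465 (k2 c2126 c7772 k0))))) (by decide +kernel)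
def c7794 : PP 8 4 T 0x42000000080100000801000040400040020400400000808 := rS 0x228d41b6892cd34589aa0a29b6085e12d3248e49e0900880628943844ba6f3ec102a131d954e63c7291a2ab11ba3d5e19 (k8 c308 c4631 c1305 c18 c623 c4389 c1307 c4404 (k8 c1308 c3559 c307 c1579 c571 c2279 c4464 c4409 (k8 c1347 c4628 c343 c4410 c4314 c2245 c302 c566 (k8 c31 c3468 c19 c1703 c4373 c4438 c1833 c1892 (k8 c1889 c1684 c7793 c4345 c4398 c826 c1321 c7073 (k4 c423 c4479 c2109 c565 k0)))))) (by decide +kernel)
def c7795 : PP 8 4 T 0x40000000042001100014000000000101441002000000001040808 := rS 0x35c2514510bb04f21b68c61364b34d162615119b44056 (k8 c303 c302 c2964 c2775 c2279 c4345 c4398 c826 (k8 c1321 c2785 c4488 c7073 c423 c4447 c4450 c572 (k4 c1684 c2109 c4322 c565 (k1 c4479 k0)))) (by decide +kernel)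
def c7796 : PP 8 4 T 0x1000000000000010000042000001500000004000000000400000020000005400808 := rS 0x60af914bd28905e0a752aa55e963227d46a13f99d925f862352a91319841f17499640a5d379f62ab14788c405643a26081572954e646098ec6e3c2792472d3 (k8 c4373 c19 c1703 c3468 c1308 c18 c1579 c571 (k8 c1307 c3559 c307 c4404 c2279 c4464 c4314 c4410 (k8 c303 c302 c2775 c1305 c623 c4389 c4409 c1347 (k8 c4628 c29 c534 c3593 c4419 c3314 c879 c4407 (k8 c887 c802 c1388 c4486 c4382 c3611 c919 c3296 (k8 c3612 c3297 c4384 c2118 c7044 c4631 c7795 c4385 (k8 c4330 c4465 c4433 c4435 c1039 c2109 c2126 c1713 (k1 c1518 k0)))))))) (by decide +kernel)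
def c7797 : PP 8 4 T 0x1000000000000010000042000001500000004000000000400000020000005000808 := rS 0xbc26900f0166993d4ea5862352a6382054263b2a9cc78e52345522374788c4056 (k8 c303 c302 c2775 c1305 c18 c887 c4389 c1307 (k8 c4404 c1308 c3559 c307 c1579 c571 c2279 c4464 (k8 c4407 c802 c1388 c4486 c4385 c4330 c3468 c4373 (k4 c7796 c572 c573 c3897 (k2 c7048 c1040 k0))))) (by decide +kernel)
def c7798 : PP 8 4 T 0x1000000000000010000042000001100000004000000000400000020000005000808 := rS 0xa21745904f09a628bcac2044a1e0815098ec6e55398f1ca46 (k8 c1307 c4404 c1308 c3559 c307 c18 c1579 c571 (k8 c2279 c4464 c4410 c4314 c302 c303 c2777 c3724 (k4 c7797 c805 c1848 c605 (k2 c573 c1685 (k1 c2109 k0))))) (by decide +kernel)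
def c7799 : PP 8 4 T 0x1000000000000010000042000001100000004000000000400000020000001000808 := rS 0x224bd4d8c8d64d3c8680a4536844ba6f3eac54ea5862352a6382054263b2a9cc78e52345522374788c4056 (k8 c303 c302 c2775 c1305 c18 c887 c4389 c1307 (k8 c4404 c1308 c3559 c307 c1579 c571 c2279 c4464 (k8 c4407 c802 c1388 c4486 c4385 c4330 c623 c4409 (k8 c1347 c4628 c343 c2964 c2406 c29 c7798 c599 (k4 c374 c558 c422 c805 (k2 c1040 c7780 (k1 c4340 k0))))))) (by decide +kernel)
def c7800 : PP 8 4 T 0x51500000000000000055150000000001440000000000005554000 := rS 0x338a083 (k4 c4570 c2109 c2124 c1597 k0) (by decide +kernel)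
def c7801 : PP 8 4 T 0x10000002000000000000000000000000000040020000000000808 := rS 0x2f09a403c059368134a2d0a1b8434c9ecd65a250e1153a94327b4ea64ee535da58c89f51a84fe6764974deb13e97e191548a3cc20f8ba4cb20546a54c7040a84c76372a9cc78e5231b4462f1016c1256 (k8 c303 c31 c839 c302 c2777 c2775 c2964 c1307 (k8 c4404 c1308 c3559 c307 c18 c1579 c571 c2279 (k8 c4464 c4407 c802 c1388 c29 c534 c3593 c4419 (k8 c3314 c879 c1305 c887 c4389 c4486 c4382 c4409 (k8 c623 c1347 c4628 c3611 c919 c3296 c3612 c3297 (k8 c4384 c2118 c7044 c1310 c332 c7794 c1071 c967 (k8 c703 c308 c4385 c4330 c343 c4410 c4314 c3613 (k8 c3298 c3468 c4373 c7799 c4315 c4321 c4322 c4437 (k8 c4439 c804 c7800 c572 c573 c3897 c7048 c1040 k0))))))))) (by decide +kernel)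
def c7802 : PP 8 4 T 0x2000000000000000000000000000040020000000000808 := rS 0x26d7ebd609289ad054a64ee9d29aec32d3248e49e452d824da2f44a1d4ea557a58c89f51a84fe6764974deb13e97e188d4ac55228f11880ac6382054263b1b954e6e53083e2e93230f0b205 (k8 c29 c534 c1308 c1307 c3593 c4419 c3314 c879 (k8 c4404 c3559 c307 c18 c1579 c571 c2279 c4464 (k8 c4407 c303 c302 c2775 c1305 c887 c4389 c802 (k8 c1388 c4486 c4382 c4409 c623 c1347 c4628 c3611 (k8 c919 c3296 c3612 c3297 c4384 c2118 c7044 c4631 (k8 c4385 c4330 c4410 c4314 c2777 c2964 c31 c839 (k8 c2406 c3468 c19 c1703 c4373 c308 c1310 c332 (k8 c967 c7794 c1071 c7795 c7801 c380 c1765 c1711 (k4 c1040 c1324 c933 c2126 k0))))))))) (by decide +kernel)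
def c7803 : PP 8 4 T 0x20000000000000040000000100000000000000000000000008080000000000014000 := rS 0x200eeba (k4 c1954 c3797 c4945 c6942 k0) (by decide +kernel)
def c7804 : PP 8 4 T 0x10000000000000000000010000000000000080004400000000000000000000000000000 := rS 0xf309 (k2 c4322 c605 (k1 c4482 k0)) (by decide +kernel)
def c7805 : PP 8 4 T 0x10000000000000000010010142000000181514000400000001100002000000004540800 := rS 0x545113a9b5fb098252458654ea5864555e7b (k8 c702 c4631 c4389 c4486 c4385 c4330 c309 c7804 (k8 c2109 c4687 c333 c1518 c933 c1214 c4493 c2126 (k1 c4398 k0))) (by decide +kernel)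
def c7806 : PP 8 4 T 0x2000000000000000000000000000000020000000000808 := rS 0x2a2249d4dafcecbb25a64a2d10daf42f1921258c8a54f97d4e11861751a6f4aa1cfa6344a3e08913688cb26730854b656188800ad38ac5c1ea33fb9542c962a4c0e095884c76372a9cc8c3c (k8 c1308 c1307 c3559 c307 c18 c1579 c571 c623 (k8 c31 c4 c3593 c3724 c3611 c3612 c4404 c3296 (k8 c3297 c3314 c4419 c4389 c4373 c29 c302 c2245 (k8 c303 c839 c2279 c879 c919 c534 c2775 c2964 (k8 c887 c4464 c1305 c4314 c4407 c4409 c4410 c802 (k8 c1347 c1388 c4628 c4486 c343 c4330 c4382 c4384 (k8 c4385 c2118 c7044 c7802 c4446 c1951 c2015 c2290 (k8 c341 c1957 c1926 c7803 c1309 c7805 c1093 c1889 (k4 c1092 c4703 c2126 c4345 k0))))))))) (by decide +kernel)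
def c7807 : PP 8 4 T 0x20200000000000000000000000040000000040000000100000802000000000040004 := rS 0xa01161913e5f3089dcaa16499cc67d (k8 c4409 c4407 c4309 c3611 c3612 c4404 c4323 c4325 (k4 c4382 c4384 c2118 c7103 (k2 c490 c2282 (k1 c4461 k0)))) (by decide +kernel)
def c7808 : PP 8 4 T 0x2000000000000000000000020000000010804 := rS 0x2d8144c1c (k4 c1035 c1036 c350 c2877 (k2 c4461 c566 k0)) (by decide +kernel)
def c7809 : PP 8 4 T 0x1000000000002000000000200000000000000000006000001040000000 := rS 0x444522d15a783a94 (k8 c1388 c1028 c1387 c1695 c855 c1681 c4414 c4468 k0) (by decide +kernel)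
def c7810 : PP 8 4 T 0x1000200000000000000000000100040001500040004000000000802000000000040004 := rS 0x2185d (k2 c4628 c4486 (k1 c7807 k0)) (by decide +kernel)
def c7811 : PP 8 4 T 0x2000000000000000800000000000080020000000000800 := rS 0x5008803a8e488449b445f9bcfb045d85496188aa8cfe8d728fd721f12ac4263b2a9cc8c3c01c657a37 (k8 c18 c2015 c4446 c7806 c1308 c1307 c3559 c307 (k8 c1579 c571 c623 c3349 c7789 c107 c1181 c4404 (k8 c7809 c3296 c3297 c4389 c1886 c3797 c2281 c1309 (k8 c4464 c4409 c1347 c1093 c4493 c4451 c348 c7808 (k4 c7810 c761 c1306 c567 (k2 c2257 c4461 k0)))))) (by decide +kernel)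
def c7812 : PP 8 4 T 0x2000000000000000000000001000010400000014554000040500000000000154000000000001415000 := rS 0x14de34b0d33d5285 (k8 c4397 c4398 c4400 c2108 c4545 c4291 c415 c4475 k0) (by decide +kernel)
def c7813 : PP 8 4 T 0x10000802014001000100000000000000100004004550200000000 := rS 0xaf298c58099 (k4 c1133 c1518 c317 c1983 (k2 c1715 c2112 k0)) (by decide +kernel)
def c7814 : PP 8 4 T 0x1000000000001000010400540014554000040500000000000150080000000001415000 := rS 0x5109719 (k4 c4446 c1954 c4493 c7812 k0) (by decide +kernel)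
def c7815 : PP 8 4 T 0x82000000000800000000000000000080020000000000000 := rS 0x3c696532533d52c366a8596d16294476a553af53a20568bd571016889462b4fa4c521d1b8f1ca46 (k8 c1307 c4404 c1308 c18 c761 c1681 c3593 c1428 (k8 c1642 c3297 c1305 c914 c4468 c4415 c1953 c4554 (k8 c1306 c2969 c2015 c853 c3295 c1579 c1957 c3724 (k8 c341 c3613 c3612 c3298 c2060 c1444 c3301 c1309 (k4 c333 c4545 c4434 c4475 k0))))) (by decide +kernel)
def c7816 : PP 8 4 T 0x2000000000800000000000000000080020000000000800 := rS 0x4ca22ed7e8b59414c4813e97506117e1d4e26f55994b00d2d8ce20ad338113a2d158bc520130880449f53a943a5f48c562e0f5193cfea165a4ce68d728fd721f12ac407190b81d7ad16291878511d8dc3277 (k8 c7811 c309 c18 c1579 c1957 c1308 c1307 c3724 (k8 c341 c2015 c4 c1951 c4446 c7806 c623 c3349 (k8 c7789 c107 c1181 c4404 c7809 c3559 c3593 c3613 (k8 c3612 c3296 c3468 c3297 c3314 c4419 c4389 c101 (k8 c3294 c761 c3295 c853 c1428 c1305 c1306 c849 (k8 c567 c1681 c1953 c1642 c914 c2969 c4461 c655 (k8 c4554 c4468 c337 c575 c528 c311 c4412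 c4415 (k8 c1346 c1303 c538 c4480 c4299 c4306 c4377 c4379 (k8 c4380 c4254 c4407 c4481 c2704 c7813 c7815 c4493 (k2 c7814 c4451 k0)))))))))) (by decide +kernel)
def c7817 : PP 8 4 T 0x2000000000000000000000000000000010140180001000500000400000000000080000000000000800 := rS 0x1006f38960f65b0d804ae204c0c1371303c650a83 (k8 c4452 c4397 c4446 c4 c4346 c869 c4567 c4488 (k8 c1927 c1071 c831 c2264 c6147 c702 c4476 c537 (k2 c1107 c6745 (k1 c7000 k0)))) (by decide +kernel)
def c7818 : PP 8 4 T 0x2000000000001000000000000000001410140114055000500000400000000000080000000000000800 := rS 0x261209b89c3548af8caa59ea7 (k8 c4453 c4400 c4398 c4446 c7817 c2128 c4385 c4444 (k4 c1971 c4486 c4488 c1159 k0)) (by decide +kernel)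
def c7819 : PP 8 4 T 0x2000000000005000000000001000001410140114154000500000440000000000086400000000000800 := rS 0x59a20b28b109ecce330da51e0c029b0d0e9757272321703b44a219a5a9d52cf (k8 c4400 c4398 c4453 c4855 c309 c1957 c341 c4 (k8 c1951 c4446 c7818 c2128 c4631 c7674 c1213 c333 (k8 c4494 c4475 c1714 c4291 c4293 c2975 c702 c966 (k4 c7804 c1234 c7682 c5025 (k1 c1985 k0))))) (by decide +kernel)
def c7820 : PP 8 4 T 0x1000000000000020000000000000000000000000002000040140000000 := rS 0x284a8b43911 (k4 c4338 c4466 c328 c2729 (k2 c4468 c1680 k0)) (by decide +kernel)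
def c7821 : PP 8 4 T 0x1000000000000020000000000000000000000000002400040040000044 := rS 0x5804148044111 (k4 c4338 c7820 c831 c835 (k2 c4461 c4468 (k1 c2282 k0))) (by decide +kernel)
def c7822 : PP 8 4 T 0x2000200000040004 := rS 0x205 (k2 c2282 c911 (k1 c4461 k0)) (by decide +kernel)
def c7823 : PP 8 4 T 0x1000000000000000000000000000000000500000000000000000800100080000000000 := rS 0x48c34449e (k4 c1642 c1643 c4384 c769 (k1 c4486 k0)) (by decide +kernel)
def c7824 : PP 8 4 T 0x1000010002000400000000040000000000001100002000000005400800 := rS 0x21d1215 (k4 c327 c1985 c7313 c4687 k0) (by decide +kernel)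
def c7825 : PP 8 4 T 0x200000000000000010000802810000000100004000000000100004404540000000800 := rS 0xa53a202c2ad2e67 (k8 c4333 c4335 c4415 c5025 c535 c1234 c835 c7813 k0) (by decide +kernel)
def c7826 : PP 8 4 T 0x10000000000001000010010802010000000100000400000001100006400040000400804 := rS 0xb0971099c500488805648b3d8bc661b7852ca6ce600b42619 (k8 c309 c571 c7822 c1518 c1517 c1983 c4430 c4475 (k8 c4291 c4293 c4432 c702 c7804 c7824 c2642 c7825 (k4 c4461 c4468 c655 c835 (k2 c777 c5025 (k1 c535 k0))))) (by decide +kernel)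
def c7827 : PP 8 4 T 0x5000000000001000001410500110050000500000440000020000086400140000000800 := rS 0x51576ab40a953f107e430526f38a444119 (k8 c4446 c535 c1155 c537 c1107 c835 c4486 c4480 (k8 c4468 c4384 c4385 c4380 c4415 c4945 c7819 c4493 k0)) (by decide +kernel)
def c7828 : PP 8 4 T 0x200000000000000000002000000000400000000000000000000020000000000800 := rS 0x1c5fa10481bcfa398aa8cfe8d729187eb90f89478b1098ec6e03 (k8 c7806 c18 c1579 c571 c623 c1308 c3349 c7789 (k8 c107 c1181 c1307 c4404 c7809 c3296 c3297 c4389 (k8 c19 c4409 c1347 c7810 c7808 c4299 c583 c4480 k0))) (by decide +kernel)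
def c7829 : PP 8 4 T 0x2000000000000000000000000000080020000000000800 := rS 0x942b16ce275590520a595fab4568f3b945a2bd0bc6473158ba8d9a7f50b2d8a8d728fd721f1281d6255399185a03098ec6e3c (k8 c1308 c18 c1579 c571 c7806 c7822 c1307 c3559 (k8 c307 c623 c4 c3349 c7789 c107 c1181 c4404 (k8 c7809 c3724 c3613 c3612 c3296 c3298 c3297 c4419 (k8 c4389 c19 c4446 c1951 c2015 c341 c1957 c7811 (k8 c7816 c7823 c7821 c7826 c7827 c7828 c4464 c327 (k4 c591 c666 c7790 c4476 (k2 c7661 c803 k0))))))) (by decide +kernel)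
def c7830 : PP 8 4 T 0x800000000000000100000008000000000040000200800 := rS 0x94 (k2 c7661 c803 k0) (by decide +kernel)
def c7831 : PP 8 4 T 0x2000000000000220000000001000010400000010054000040500000000000540000000000001415000 := rS 0xf02552c9acf54a9d4aab (k8 c4415 c4385 c4330 c4398 c4400 c4451 c4690 c7812 (k2 c4475 c4434 k0)) (by decide +kernel)
def c7832 : PP 8 4 T 0x200000500000000400001001400000000021000400414020 := rS 0x352a436337893080d3 (k8 c4373 c1039 c1040 c4433 c2339 c374 c6029 c6940 (k1 c6097 k0)) (by decide +kernel)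
def c7833 : PP 8 4 T 0x2000000000000220000000000000001000000010044000040500000000000440802000000001415000 := rS 0x1415cd167aa5caa165a9d4aab (k8 c4415 c4385 c4330 c3613 c3612 c4404 c4398 c4400 (k4 c1764 c2128 c7831 c3614 k0)) (by decide +kernel)
def c7834 : PP 8 4 T 0x40000000000000000100000000000000000540900000000044545004000000000000000000000000000 := rS 0x8984a10ee71 (k4 c666 c1192 c2122 c4321 (k2 c684 c4485 k0)) (by decide +kernel)
def c7835 : PP 8 4 T 0x402001000000400000000000000000000020000000000800 := rS 0xcf57c251286a5c4d30c750b2cba274e9ed56794dc628b1014a7cce65169f5028b06ab40e530cb349ea35e88c622036960ae75158e4b6a52fa9e1891468fc3e8308bf0e27f589bd72611281002030bac82905098ec6e5539b948c3c07aec8715 (k8 c4389 c7829 c1310 c3314 c1308 c1307 c4404 c3559 (k8 c307 c18 c1579 c571 c7828 c4464 c327 c2644 (k8 c7806 c2642 c4461 c3349 c615 c107 c1189 c623 (k8 c3296 c666 c4480 c4299 c4306 c7789 c1181 c7809 (k8 c7808 c4486 c4330 c4382 c4385 c7790 c19 c7823 (k8 c591 c7830 c4476 c4993 c535 c316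 c832 c7832 (k8 c3297 c3468 c3298 c308 c332 c4 c7821 c650 (k8 c719 c4380 c4379 c7822 c551 c655 c6237 c835 (k8 c4468 c7833 c4493 c4448 c4447 c4415 c703 c1234 (k8 c7779 c4628 c3613 c3612 c1431 c2126 c4443 c7088 (k4 c7834 c52 c4440 c1633 (k2 c1636 c4916 k0)))))))))))) (by decide +kernel)
def c7836 : PP 8 4 T 0x402000000000400000000000000000000020000000000800 := rS 0x6b84a10ee6989aa0f3183daecbabd118c4daa52fa9cc345880a440582b9d4b70c48a7cce04009945a7d40a0c22fc38ac4de175922c1a148284caa733fab4568d1fae44b151c80c0ee50f8ec6e530c90d9a3c2313d460f (k8 c3314 c3297 c3468 c1307 c1308 c3298 c7829 c308 (k8 c332 c18 c1579 c7789 c4404 c4 c7806 c19 (k8 c4389 c3349 c107 c1181 c7809 c7823 c7821 c3296 (k8 c3559 c307 c571 c7828 c4464 c650 c719 c327 (k8 c2644 c1189 c623 c666 c4480 c4299 c4306 c4380 (k8 c4379 c7822 c551 c2642 c4461 c655 c6237 c7808 (k8 c4486 c7790 c591 c7830 c4476 c535 c835 c4468 (k8 c7833 c615 c4330 c4382 c4385 c4993 c316 c832 (k8 c7832 c4628 c1310 c703 c4493 c4447 c7835 c4345 (k4 c826 c1112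 c2122 c4321 (k2 c562 c4479 k0))))))))))) (by decide +kernel)
def c7837 : PP 8 4 T 0x2000000000400000000000000000000020000000000800 := rS 0x141a2ce3b92e32be2c15cb6710b9d48ab20a2b60a2b1cc549e7f62a35ca3f5c87c4a07098ec6e55399187803 (k8 c7806 c1308 c1307 c3559 c307 c18 c1579 c571 (k8 c4 c3349 c7789 c107 c1181 c4404 c7809 c3724 (k8 c3296 c3468 c4389 c19 c7823 c7828 c7821 c4464 (k8 c327 c2411 c591 c2644 c666 c7790 c7830 c4476 (k8 c7836 c4369 c1324 c3121 c1517 c1765 c7826 c1597 k0))))) (by decide +kernel)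
def c7838 : PP 8 4 T 0x802010000000900000000000020040806400000000400804 := rS 0x5068b38ee4b8cb958a55398ad3e93 (k8 c3593 c1428 c1642 c3559 c307 c3724 c4404 c4369 (k4 c3309 c3121 c1517 c1765 (k2 c7826 c1597 k0))) (by decide +kernel)
def c7839 : PP 8 4 T 0x10000000000000000008000002000000000000000000000000000000020000000000800 := rS 0x345e24c202f0a34ba2c5492395d94c86bf2c05c08010e8815a2b4fa4c0e8e01a35ca1f128fd723b1b8f08c4f (k8 c3468 c1307 c1308 c18 c1579 c107 c1181 c3349 (k8 c7789 c4404 c7809 c7806 c7837 c4 c3593 c1428 (k8 c1642 c7821 c1306 c761 c567 c4461 c6610 c311 (k8 c7838 c7829 c332 c1310 c19 c1703 c4389 c4400 (k8 c4430 c1597 c4493 c1039 c1040 c4433 c380 c4475 k0))))) (by decide +kernel)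
def c7840 : PP 8 4 T 0x10000200014400000000000000000000500000021150200000020 := rS 0x2bc662f789313640 (k8 c1039 c2018 c1040 c4433 c836 c2339 c5815 c2112 k0) (by decide +kernel)
def c7841 : PP 8 4 T 0x11000000000000000005410540114554000000004414000020000000000000000000000 := rS 0x9a571e15285a220d02fc (k8 c4480 c4380 c4306 c4493 c4397 c4398 c2122 c2128 (k2 c541 c869 k0)) (by decide +kernel)
def c7842 : PP 8 4 T 0x10400200014400000000000000000000400000021150200000020 := rS 0xa04c (k2 c1040 c7840 (k1 c1996 k0)) (by decide +kernel)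
def c7843 : PP 8 4 T 0x10000000000000000000000002000000000000000000000000000000020000000000800 := rS 0x2b90ca93b5117ad167b3542cb629ed765352a9c446d1886486ab59414c45d309fccec9138e5467d7e1c41a5f58c54de5b32c40522d0484e2ebf2c05c08010e8815a2b4fa4c0e8e01a35ca1f128fd723b1b8f08c4f (k8 c3468 c1307 c1308 c18 c1579 c107 c1181 c3349 (k8 c7789 c4404 c7809 c7806 c7837 c4 c3593 c1428 (k8 c1642 c7821 c1306 c761 c567 c4461 c6610 c311 (k8 c7838 c4419 c571 c31 c7822 c1681 c4468 c4412 (k8 c575 c1346 c4389 c623 c3294 c528 c1303 c4480 (k8 c4379 c3297 c19 c847 c3611 c655 c3296 c849 (k8 c4377 c7103 c4407 c6198 c4415 c7829 c308 c316 (k8 c7462 c1305 c2826 c3295 c332 c1310 c703 c3724 (k8 c3613 c3612 c3298 c7839 c1764 c7842 c4493 c7841 (k4 c4398 c1192 c2128 c1633 k0)))))))))) (by decide +kernel)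
def c7844 : PP 8 4 T 0x814000004000000801000000400000401100240000020 := rS 0x2bde086 (k4 c1192 c7135 c1633 c4542 k0) (by decide +kernel)
def c7845 : PP 8 4 T 0x10400440114000000040505405000400500000021550a00000020 := rS 0x34c4d5c333592e12845ea9ce20d (k8 c528 c1303 c2826 c7842 c2122 c4321 c1319 c562 (k4 c955 c2112 c4346 c829 (k1 c4479 k0))) (by decide +kernel)
def c7846 : PP 8 4 T 0x2000000000000000000000000000000020000000000800 := rS 0x5e1350f4b681dca22f60a6cf3185fa2d641482989027d2ea0df87137aacca58338342e5b36ab62004188ac52013088044274f874be8e29aecf619218b4065509ac412071cc562ea3279fc763765b25267346b948c3f5c87c4a3c (k8 c1308 c3349 c7789 c107 c1181 c1307 c4404 c7809 (k8 c3559 c3593 c3611 c3613 c18 c1579 c3296 c3468 (k8 c3297 c4419 c4389 c19 c4 c31 c623 c571 (k8 c307 c7806 c7822 c7829 c308 c703 c1310 c332 (k8 c7837 c3294 c761 c1428 c847 c1305 c1306 c849 (k8 c567 c1681 c1642 c316 c4461 c4468 c7821 c7462 (k8 c575 c6610 c528 c655 c311 c4412 c4415 c1346 (k8 c1303 c4480 c4306 c4377 c4379 c4380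 c7103 c4407 (k8 c4464 c6198 c719 c7838 c7843 c4447 c4448 c4450 (k8 c836 c1684 c7844 c7845 c4426 c3571 c2343 c7834 (k1 c1040 k0))))))))))) (by decide +kernel)
def c7847 : PP 8 4 T 0x20000002000000100000000000000000000040020000000000020 := rS 0x27230a95fd157a4a671349239199154ea586244b00604c551e8d729187eb9128f1769b0e084161f (k8 c7789 c7846 c310 c4466 c765 c1310 c1308 c3349 (k8 c107 c1181 c1307 c4404 c7809 c1306 c4389 c262 (k8 c4462 c526 c3019 c4486 c4385 c4330 c3233 c6309 (k8 c19 c1703 c380 c1764 c1765 c1040 c4400 c1324 (k4 c1322 c4493 c2126 c4368 k0))))) (by decide +kernel)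
def c7848 : PP 8 4 T 0x200000010000000000101005400005005015150000000000014400020000000011000a0 := rS 0x107094505c5e515406d829d3d9b42675 (k8 c2484 c1678 c2679 c4365 c4367 c4450 c688 c2126 (k4 c1684 c787 c533 c2109 (k2 c4322 c644 (k1 c5323 k0)))) (by decide +kernel)
def c7849 : PP 8 4 T 0x12000010000000000115105400140504015140000000040014400020050000201200a0 := rS 0x353c4d2174e2ba968367aa689192c29d3ea5862143299 (k8 c1032 c268 c2692 c4486 c4385 c4384 c4330 c526 (k8 c7848 c4493 c4398 c4400 c4452 c4545 c2128 c2126 (k4 c612 c828 c7672 c1235 (k1 c6097 k0)))) (by decide +kernel)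
def c7850 : PP 8 4 T 0x10000802200000000014000100000001400102000000001120080 := rS 0x4585c36516012c8213 (k8 c1678 c3043 c1324 c1518 c1685 c689 c613 c1712 (k1 c2109 k0)) (by decide +kernel)
def c7851 : PP 8 4 T 0x10000202000000000000000000000001400000020000001041080 := rS 0x8b0b94436f1261ec80cb44a1e0815058f1ca46 (k8 c1307 c4404 c1308 c7846 c326 c4464 c4410 c7314 (k8 c3613 c1039 c3023 c1040 c4433 c688 c1996 c1991 (k2 c5853 c2109 k0))) (by decide +kernel)
def c7852 : PP 8 4 T 0x2014000000000000000000000400040021040000000020 := rS 0x6882692885d38ae41b3d5265a20a233115eafda29b5d93d9aa165b258a3316a248aa74fa94c6870697e18fd4284161040a9551e912c00c26753783d1ae51fae44a7f1e11947150302432990e084161f (k8 c7789 c7846 c310 c4466 c1032 c268 c262 c4462 (k8 c4389 c3297 c1307 c1308 c3296 c3349 c107 c1181 (k8 c4404 c7809 c3314 c1020 c2484 c1678 c29 c526 (k8 c3019 c1306 c266 c326 c4464 c7810 c1034 c2692 (k8 c4303 c4486 c4382 c528 c4410 c4407 c4385 c4384 (k8 c4330 c3233 c7314 c2282 c6309 c3724 c3611 c3613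 (k8 c3612 c3298 c3468 c1310 c765 c7847 c7850 c7851 (k8 c7849 c7848 c4468 c4493 c1566 c4398 c4400 c4452 (k8 c2128 c2126 c612 c3614 c828 c1052 c7681 c689 k0))))))))) (by decide +kernel)
def c7853 : PP 8 4 T 0x2014000000000000000000000400000021040000000020 := rS 0x1834b4505d861b28b4632420cc5c763762a24f2878204cea060487c2a0b1e155ca46 (k8 c1307 c4404 c266 c1308 c7846 c326 c7789 c262 (k8 c4462 c2484 c1678 c4464 c4410 c2485 c7314 c3724 (k8 c18 c1579 c4419 c268 c7852 c4446 c341 c1957 (k4 c334 c2054 c1950 c2109 (k2 c4427 c1712 (k1 c4494 k0)))))) (by decide +kernel)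
def c7854 : PP 8 4 T 0x1000000000000000000000000000000020000000000000140000040000 := rS 0x5311 (k2 c4412 c1566 (k1 c4468 k0)) (by decide +kernel)
def c7855 : PP 8 4 T 0x10010000000002000004000000010024500002000040024400000 := rS 0x69 (k2 c824 c7681 k0) (by decide +kernel)
def c7856 : PP 8 4 T 0x400000000000000010000000000000000014000001110001500000000000004540020 := rS 0x35c251419 (k4 c269 c2109 c4322 c564 (k1 c4479 k0)) (by decide +kernel)
def c7857 : PP 8 4 T 0x2014000000000000000000000400000020040000000020 := rS 0xbd54a0d3309342fcf69d5d86c2e514db462630629c402892b9b4ee1c53a9618877ea1420b082054aa8f10a44b0033783d1a3f5c894fea38a9942675030243e0b168f1ca46 (k8 c1307 c4404 c1308 c2282 c7846 c7789 c262 c4462 (k8 c2484 c1678 c7854 c4389 c3297 c3296 c3349 c107 (k8 c1181 c7809 c3314 c1020 c29 c526 c3019 c310 (k8 c1306 c266 c326 c4464 c7810 c1034 c2692 c4303 (k8 c4410 c4486 c4385 c4330 c4466 c3009 c2679 c1018 (k8 c7314 c2 c1304 c3724 c7853 c4441 c300 c1967 (k8 c1916 c1911 c295 c4825 c7855 c7035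 c5760 c7856 (k4 c4437 c1880 c2000 c827 (k2 c7175 c2126 k0))))))))) (by decide +kernel)
def c7858 : PP 8 4 T 0x2010000000000000000000000400000020040000000020 := rS 0xa622aa168f1ca46 (k8 c1307 c4404 c1308 c2282 c7857 c4415 c3610 c4468 k0) (by decide +kernel)
def c7859 : PP 8 4 T 0x1000000000000000000004000000000000000000006400200000000400 := rS 0x10509955647533960b6060095c121d4b0812a15 (k8 c326 c855 c328 c329 c913 c2148 c799 c6579 (k8 c4462 c494 c4476 c657 c539 c1195 c247 c1678 (k2 c4311 c4464 k0))) (by decide +kernel)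
def c7860 : PP 8 4 T 0x2000020000000410 := rS 0xac032d965281c (k8 c1681 c1680 c1026 c759 c2764 c4476 c4461 c2710 k0) (by decide +kernel)
def c7861 : PP 8 4 T 0x802000000000000200 := rS 0xa874 (k2 c235 c234 (k1 c3617 k0)) (by decide +kernel)
def c7862 : PP 8 4 T 0x2000004000000000000050000000000020010000000002 := rS 0xfa617e2c4225a2b98cba5f2cc55467f1287d42c9389bc0c091e118160f (k8 c3314 c7846 c1307 c1308 c7861 c4462 c1020 c1304 (k8 c3611 c3612 c7789 c3349 c3296 c3297 c4389 c487 (k8 c489 c753 c754 c751 c4476 c2594 c1034 c4480 (k2 c4301 c4379 (k1 c2118 k0))))) (by decide +kernel)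
def c7863 : PP 8 4 T 0x2000000000000000002000000001000000000050000000000020000000040008 := rS 0x18e190447954467d2ec55467f46b948c3f5c87c4a15058f0c20f (k8 c3314 c879 c1308 c7846 c326 c3349 c7789 c107 (k8 c1181 c1307 c4404 c7809 c3296 c3297 c4389 c4377 (k8 c4379 c792 c1602 c1305 c4464 c4486 c4407 c7315 k0))) (by decide +kernel)
def c7864 : PP 8 4 T 0x2000000000000000000050044000000020000000000008 := rS 0x23e1a26082c1fa133aa44b01d1cc551ae51fae43e25389bc0c091e118160f (k8 c3314 c7846 c1307 c1308 c7861 c4462 c1020 c1304 (k8 c3349 c7789 c107 c1181 c4404 c7809 c4389 c19 (k8 c790 c4476 c1035 c538 c1678 c7863 c4480 c1034 (k4 c342 c4323 c847 c4486 k0)))) (by decide +kernel)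
def c7865 : PP 8 4 T 0x10000000000000000014000000810001500000001000004540000 := rS 0x11619 (k2 c1918 c564 (k1 c2109 k0)) (by decide +kernel)
def c7866 : PP 8 4 T 0x1000000000000010000000014000100000005001500000500100001550020000001 := rS 0x578ce249d (k4 c7783 c4479 c952 c4346 (k1 c2112 k0)) (by decide +kernel)
def c7867 : PP 8 4 T 0x2000000000000051500000000000000014150000000001440000000000004554000 := rS 0x651685 (k4 c4321 c4322 c4436 c7800 k0) (by decide +kernel)
def c7868 : PP 8 4 T 0x1000000000000010000000014000100014005001110001500100001550024540001 := rS 0x6b (k2 c7865 c7866 k0) (by decide +kernel)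
def c7869 : PP 8 4 T 0x10000002010000000000000100100000500000020040000400000 := rS 0x21576415212c60bf3daad324536a0c4d0d31a554661119751e25179e61287821ce2eb34b84d1255409f5f86f8a9c422b10d870ac5b0302404014f9962029338b5263f5c8ec6ee50285416c965918787f6693c1ed3 (k8 c4373 c3314 c3468 c3298 c3296 c1308 c1307 c3613 (k8 c3611 c7846 c326 c7858 c4404 c18 c1579 c107 (k8 c1181 c3593 c7859 c4555 c7860 c4468 c4412 c4414 (k8 c7862 c4461 c7861 c4462 c494 c7864 c1017 c7082 (k8 c3018 c608 c1304 c4389 c1020 c4480 c4379 c4380 (k8 c1602 c7314 c1678 c4335 c1187 c4419 c3559 c4481 (k8 c4410 c7867 c500 c797 c3349 c801 c4628 c792 (k8 c879 c3297 c762 c7153 c7315 c4467 c4306 c2963 (k8 c3230 c2997 c4415 c1227 c7782 c7868 c1915 c357 (k4 c1912 c1309 c1402 c7037 k0)))))))))) (by decide +kernel)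
def c7870 : PP 8 4 T 0x10000002010000000000000100000000500000020040000400000 := rS 0xccd0ab0d98d2a1c8baccac5b030252e7317808029f32c40526716a4c7eb91d8ddca460a82c7805 (k8 c7858 c1308 c7846 c326 c1307 c4404 c18 c1579 (k8 c107 c1181 c3593 c7859 c4555 c7860 c4468 c4412 (k8 c4414 c7862 c4461 c797 c3559 c4335 c7861 c4462 (k8 c494 c7864 c1187 c4419 c1017 c762 c7153 c7082 (k4 c4415 c7869 c823 c7083 k0))))) (by decide +kernel)
def c7871 : PP 8 4 T 0x10000002010000000000000100000000400000020040000400000 := rS 0x197894212d327b34fecb6486c381140a24aa7d7e2c4de0f8a9c42687821ce2eb32b008b606048053e65338552f10148145a0b498fd723b1b8f1ca46 (k8 c1307 c4404 c1308 c18 c1579 c107 c1181 c3593 (k8 c7846 c7859 c7858 c7860 c4468 c4335 c326 c4555 (k8 c4412 c4414 c7862 c7861 c4462 c494 c4461 c7864 (k8 c1187 c4419 c3559 c4481 c4410 c1678 c1304 c4389 (k8 c3314 c1020 c3018 c4480 c4379 c1602 c7314 c4380 (k8 c608 c1017 c7082 c3611 c3613 c3296 c3298 c3468 (k4 c4373 c7867 c7870 c4435 (k2 c1876 c4465 k0)))))))) (by decide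 +kernel)
def c7872 : PP 8 4 T 0x10000002010000000000000100000000400000020040000000000 := rS 0x9745671350a8b78859a64f669fd96c941a0512553ebf1626f07c54e287821ce2eb32b008b606048053e65338552f10148145a0b498fd723b1b8f1ca46 (k8 c1307 c4404 c1308 c18 c1579 c107 c1181 c3593 (k8 c7846 c7859 c7858 c7860 c4468 c4335 c326 c4555 (k8 c4412 c4414 c7862 c7861 c4462 c494 c4461 c7864 (k8 c1187 c4419 c3559 c4481 c4410 c1304 c4389 c3314 (k8 c1020 c3018 c4480 c4379 c1602 c7314 c4380 c4306 (k8 c3611 c3613 c3296 c3298 c3468 c4373 c7871 c4431 (k4 c525 c523 c1990 c2124 (k2 c4400 c1326 (k1 c4474 k0))))))))) (by decide +kernel)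
def c7873 : PP 8 4 T 0x20000002100000000000000000000000000100020000004000000 := rS 0x8c1e8f2855faee8abd3b90c94ce26865e2491cb1506812a9f5f86f03024780f8a9c41646 (k8 c1307 c7846 c1304 c4389 c3314 c1308 c7861 c4462 (k8 c1020 c4480 c4379 c1602 c4380 c4306 c3724 c19 (k8 c1703 c4298 c260 c380 c1764 c1765 c341 c6033 (k8 c1040 c4400 c3301 c1324 c1320 c501 c2122 c4493 (k1 c4366 k0))))) (by decide +kernel)
def c7874 : PP 8 4 T 0x1001000010000000000000000080000000000000400000000000004000000 := rS 0xa34b (k2 c4427 c1591 (k1 c4475 k0)) (by decide +kernel)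
def c7875 : PP 8 4 T 0x1001000018000000000000000000000000000000440000000000000000000 := rS 0xa34b (k2 c4430 c1597 (k1 c4475 k0)) (by decide +kernel)
def c7876 : PP 8 4 T 0x1001000051500000010000100014550200004000440100000158020000091 := rS 0x1a06651189305e6b5285c9679a2c2508cf3da2d57100d9b404a9 (k8 c2977 c4461 c2963 c7082 c4468 c4415 c7874 c708 (k8 c7875 c2124 c4321 c4397 c2453 c1320 c523 c1402 (k8 c563 c4819 c4474 c357 c1996 c377 c7866 c7083 k0))) (by decide +kernel)
def c7877 : PP 8 4 T 0x10000000014000100002005001100000500100000558020000001 := rS 0x3135a9612a9 (k4 c2977 c4321 c1402 c563 (k2 c357 c7866 k0)) (by decide +kernel)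
def c7878 : PP 8 4 T 0x2010000000000000000000000400000020040000000000 := rS 0xaf18b014abe429ed76793494496411785c66f043848e8d144898ab0d409f5062331bf0ba6d0da548a9959a3d621c2b184045b00aad3e654bc40526702b4e2b175193d9a7f12b2d92730a9c45a93728fd723b1b9bc0c091e118160f (k8 c3314 c7846 c1307 c1308 c7861 c4462 c1020 c18 (k8 c1579 c107 c1181 c4404 c3593 c7859 c1304 c326 (k8 c3559 c3611 c3613 c3349 c3296 c3298 c3468 c3297 (k8 c4419 c4389 c4373 c7858 c4555 c7860 c4468 c4335 (k8 c4412 c4414 c4415 c7862 c494 c4461 c879 c7864 (k8 c1017 c3018 c801 c1187 c2997 c3230 c762 c7082 (k8 c2963 c4628 c4480 c7153 c792 c4306 c4379 c4380 (k8 c7315 c1602 c4467 c7314 c7873 c7872 c498 c3608 (k8 c7876 c4293 c4431 c4432 c4433 c4434 c4435 c7083 (k8 c500 c1309 c1227 c7877 c7037 c3379 c1518 c357 (k2 c1714 c7769 k0))))))))))) (by decide +kernel)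
def c7879 : PP 8 4 T 0x2000000000000000000000000000000020080000000000 := rS 0x8e108e62a9346b948c3f5c87c4a3c (k8 c1308 c3349 c7789 c107 c1181 c1307 c4404 c7809 (k4 c3593 c4389 c19 c315 (k2 c7823 c1306 k0))) (by decide +kernel)
def c7880 : PP 8 4 T 0x2000000000000000000000000400000020000000000000 := rS 0x5311560b41693729187eb91d8dc782b (k8 c7879 c1308 c18 c1579 c107 c1181 c1307 c4404 (k4 c3593 c7846 c7859 c7878 (k2 c4338 c781 (k1 c4468 k0)))) (by decide +kernel)
def c7881 : PP 8 4 T 0x2000000000000000000000000000000020010010000000 := rS 0x8ae052d8053e658819c5a931fae47637728ac2a06048f08c0b (k8 c7846 c1307 c1308 c7861 c4462 c326 c7879 c4404 (k8 c18 c1579 c107 c1181 c3593 c7859 c4555 c4468 (k8 c4412 c4414 c7862 c494 c527 c1017 c4461 c7864 k0))) (by decide +kernel)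
def c7882 : PP 8 4 T 0x2000000000000000000000000000000020010000000000 := rS 0x14aaf89264389f8828d42cb55a752e9b568bc562d05a4dca4654b3d4f448c9097ec11fae57a411d8dd76c2290f19b15 (k8 c4389 c3298 c1308 c7880 c333 c2060 c18 c1579 (k8 c2035 c1039 c107 c1181 c1983 c1518 c332 c4446 (k8 c4493 c4453 c4400 c4398 c1307 c4404 c3593 c7846 (k8 c7859 c7879 c3965 c4554 c2058 c4620 c1213 c1943 (k8 c3613 c3612 c3297 c4468 c4414 c7881 c1031 c4488 (k2 c4346 c4444 (k1 c2128 k0))))))) (by decide +kernel)
def c7883 : PP 8 4 T 0x2000000000000000000000000000000020000000000000 := rS 0x1491248a651e27108a14ea94dd115b194ea5c5ebb5eafc84c220b04a42b1682d1a9350b947e1f1d8959a3c234557237 (k8 c18 c107 c4389 c1307 c1308 c3298 c3349 c1579 (k8 c7789 c1181 c4404 c3612 c3593 c7809 c7846 c7859 (k8 c7879 c7880 c1983 c2035 c333 c332 c1518 c1039 (k8 c2060 c3965 c4620 c1213 c4446 c4554 c4493 c2058 (k8 c4398 c4453 c7882 c835 c874 c1306 c1927 c1036 (k2 c4488 c2126 (k1 c4444 k0))))))) (by decide +kernel)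
def c7884 : PP 8 4 T 0x10000000000000000000000000000201100000000000000000000000020000000000000 := rS 0x178744a4a210cd18ba22a697f13 (k8 c4444 c1404 c4488 c1221 c1970 c1971 c863 c1310 (k4 c1309 c3350 c1028 c1953 (k1 c6906 k0))) (by decide +kernel)
def c7885 : PP 8 4 T 0x202000200000000000000000000020000100000400 := rS 0x2041e8342864086f309b4d2582b83422062d8e522b10488c361778515a64d1229c96be228703e4f (k8 c3377 c3248 c4466 c3234 c1236 c1324 c79 c1028 (k8 c285 c4373 c4399 c4474 c4431 c4291 c1298 c3049 (k8 c3253 c72 c19 c759 c4462 c4115 c4113 c2995 (k8 c4476 c824 c4993 c4213 c3007 c1026 c269 c1402 (k4 c1937 c1329 c1363 c2108 k0))))) (by decide +kernel)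
def c7886 : PP 8 4 T 0x200100000100010000080044000000002045405000 := rS 0x418450a6b0297c9aa7 (k8 c79 c285 c576 c575 c581 c1401 c278 c1936 (k1 c2108 k0)) (by decide +kernel)
def c7887 : PP 8 4 T 0x202100200000000000000000000020000100000000 := rS 0x560896d027b06964320f0505c36f025d14e24d5f114487758a446ed35393c381f (k8 c3248 c4466 c3377 c79 c4373 c18 c72 c3253 (k8 c3091 c1028 c3234 c1236 c285 c3348 c4399 c1324 (k8 c4474 c4291 c4431 c7885 c304 c309 c535 c568 (k4 c702 c1364 c7886 c4115 (k2 c4476 c4116 k0))))) (by decide +kernel)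
def c7888 : PP 8 4 T 0x10000000000000000000000000000200000500000000000000000010020000000010824 := rS 0x437892976228a09d22d3868948abf (k8 c1403 c1221 c1369 c4385 c4373 c7808 c350 c4486 (k4 c4467 c4390 c1301 c4434 (k2 c1954 c4472 k0))) (by decide +kernel)
def c7889 : PP 8 4 T 0x10400000000000000000000000000000000100400000000040008110024400000020020 := rS 0x122ba0d8888430789346e39 (k8 c19 c18 c25 c4434 c4469 c4472 c1915 c6533 (k2 c1954 c769 (k1 c6939 k0))) (by decide +kernel)
def c7890 : PP 8 4 T 0x10000000000000000000000000000200000500000000000008000010020000020000804 := rS 0xdf1548098464b38bf4208330810025b1cb4e1b13198bc4a455f8256237 (k8 c18 c623 c31 c1403 c1221 c1369 c1843 c953 (k8 c4444 c4385 c4373 c19 c38 c751 c4461 c615 (k8 c1937 c7888 c4299 c583 c7889 c1301 c4467 c872 (k2 c4351 c1076 (k1 c4480 k0))))) (by decide +kernel)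
def c7891 : PP 8 4 T 0x10000000000000000000000000000200100000000000000000000010020000100000800 := rS 0x94f0111b03619139a4b45701965a70d89a3c661c0f8951a9c (k8 c7884 c7887 c1369 c3248 c4466 c953 c1430 c4444 (k8 c4385 c4373 c535 c302 c7890 c4476 c824 c2877 (k4 c5907 c4149 c968 c4467 (k2 c5889 c1301 (k1 c4434 k0))))) (by decide +kernel)
def c7892 : PP 8 4 T 0x10410000000000000000000000000000000500000000000000008110104400000000000 := rS 0x45522ba1110860f1 (k8 c4434 c4469 c4472 c1915 c1954 c769 c4390 c4486 k0) (by decide +kernel)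
def c7893 : PP 8 4 T 0x10000000000000000000000000000200100000000000000000000010020020000000000 := rS 0x1fa7f379cc2ab1032ccad165c8fc12598a95686b74b99d20a0231244c232596ce20b228bd7e25468cc38210fa7072d35ac36268f (k8 c1430 c4444 c4385 c7883 c4373 c19 c7884 c3248 (k8 c2970 c4466 c953 c7887 c1369 c1403 c1843 c1221 (k8 c7891 c1304 c759 c7892 c1301 c4467 c1721 c875 (k8 c874 c872 c2880 c2881 c1038 c4423 c3542 c4351 (k8 c3019 c3052 c3194 c1205 c4492 c4476 c5025 c4462 (k4 c3018 c7508 c1022 c2998 (k2 c1312 c7787 (k1 c4480 k0)))))))) (by decide +kernel)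
def c7894 : PP 8 4 T 0x400000000020000000000000000005400105000000042000000000000000000000000000000000000 := rS 0x6145973155fb1576c1 (k8 c4450 c4449 c4370 c4369 c4351 c1205 c4492 c2129 (k1 c4362 k0)) (by decide +kernel)
def c7895 : PP 8 4 T 0x20000000000000000001000100000200000100000000000000000010020020400000000 := rS 0x5cb0c74200ea45974355add2ec750118922669ad45b0d5fb1576c10fb3d3e25 (k8 c1369 c1571 c1405 c1099 c4450 c4449 c4370 c4369 (k8 c4385 c15 c7883 c4373 c4467 c1721 c875 c874 (k8 c408 c2881 c1038 c3530 c4423 c1940 c7894 c872 (k4 c4466 c835 c1047 c1046 (k1 c2129 k0))))) (by decide +kernel)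
def c7896 : PP 8 4 T 0x1000000000000000000000000000000000000000000000002000048000000 := rS 0xb604 (k2 c294 c575 (k1 c6533 k0)) (by decide +kernel)
def c7897 : PP 8 4 T 0x1001000055440000000000000001440000000001400000000000005541000 := rS 0x2332093433e942088b44a050f08 (k8 c4465 c4440 c4439 c4742 c7874 c4464 c2109 c4409 (k4 c4806 c1724 c6549 c4473 (k1 c1582 k0))) (by decide +kernel)
def c7898 : PP 8 4 T 0x20000000000000000001000100000200040500000000000000000010420020000000800 := rS 0x2e542953ab260a142a9fcb4b331800c05d40bf4bf083b84c1a190b8246ed315b94f6433ca4d9e9f688bc4a8563a8ca6cb41adce314488e61a1b78928603f0e084441f (k8 c1099 c7895 c832 c4466 c1179 c1302 c1301 c4434 (k8 c7896 c4385 c19 c769 c4486 c4387 c4353 c3822 (k8 c3823 c2036 c1469 c1449 c3288 c1369 c1843 c1761 (k8 c1571 c1405 c1569 c4447 c4446 c4365 c4402 c14 (k8 c4373 c18 c31 c573 c308 c568 c571 c6033 (k8 c4465 c1295 c6225 c4439 c1341 c4477 c766 c2734 (k8 c2642 c566 c7414 c1598 c7897 c4307 c2609 c591 (k4 c5073 c5930 c5280 c7454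 k0)))))))) (by decide +kernel)
def c7899 : PP 8 4 T 0x20002000000000000000000100100200000100000010000040000000000000800000000 := rS 0x612f958dc592ebf5027786c4cf69d5f9e536bb42a0c604a (k8 c1301 c1302 c3822 c3288 c4449 c4448 c4447 c4369 (k8 c4367 c4365 c4444 c4385 c4438 c4439 c6225 c1341 (k4 c6745 c2122 c4476 c1377 (k2 c2733 c4477 k0)))) (by decide +kernel)
def c7900 : PP 8 4 T 0x20001000000000000000000100000200000000000010000000000000000400805000000 := rS 0x1fa5d2f984ee81029a82c6d86c4cf679428cd52f134a0c604a (k8 c1301 c1302 c3822 c3785 c4434 c80 c954 c3288 (k8 c4447 c4365 c4444 c4385 c5889 c4465 c4479 c533 (k4 c3817 c3816 c620 c1296 (k2 c1341 c6225 (k1 c4477 k0))))) (by decide +kernel)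
def c7901 : PP 8 4 T 0x200000000000000000000000000000000802000000 := rS 0x612e97dfa0c404344e4a (k8 c1301 c13 c4385 c1874 c1875 c4380 c3284 c3275 (k2 c503 c4477 k0)) (by decide +kernel)
def c7902 : PP 8 4 T 0x5451545000000000000000000000000000010800000000000000 := rS 0x172c3 (k2 c1047 c1046 (k1 c2129 k0)) (by decide +kernel)
def c7903 : PP 8 4 T 0x20000000000000000001000100000200000500000000000000000010020020000000000 := rS 0x971d828b5080c86ce2b758b2e281c788c122216392844cf17a7c4a1f1cad61aa35fb1576c1 (k8 c4450 c4449 c4370 c4369 c1469 c4385 c7883 c19 (k8 c1099 c1369 c1571 c1843 c1405 c7895 c1301 c1449 (k8 c832 c769 c1302 c4434 c4466 c4486 c3823 c4349 (k8 c4353 c4387 c7896 c7901 c7900 c7899 c759 c7902 (k2 c2745 c7898 k0))))) (by decide +kernel)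
def c7904 : PP 8 4 T 0x20000000000001000005400114000000000000000000000000000001420000000000000 := rS 0x8b3087eb55fb1576c1 (k8 c4450 c4449 c4370 c4369 c7883 c1181 c2129 c4471 (k1 c4362 k0)) (by decide +kernel)
def c7905 : PP 8 4 T 0x10000000000000000000020000040000600000000000000000000420020800000800 := rS 0x3f845f86f31994be6133975665a06804b2274f884e21d12a4c7d17728f43c2b (k8 c14 c1298 c274 c4402 c4361 c4471 c1568 c12 (k8 c1028 c3285 c832 c1300 c13 c535 c567 c568 (k8 c271 c663 c1338 c774 c766 c1295 c579 c7109 (k4 c4037 c4477 c4299 c7096 (k1 c4259 k0))))) (by decide +kernel)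
def c7906 : PP 8 4 T 0x4400000001000000000001000054000100050000040150080000000004000001000400 := rS 0x10e6d5998c366b (k4 c581 c5871 c843 c664 (k2 c5889 c7043 (k1 c2120 k0))) (by decide +kernel)
def c7907 : PP 8 4 T 0x1000000010200100000000000000000000010020020800000000 := rS 0x7e974be7700184b05b44abd174a28aacca6788284e646058fa87175c0ec0683659a5a2b11eadcae53788743233678c0e20f4fb1c3c852509c4ab515b95530d89a8cf6bf629e576c1464611ebd (k8 c1938 c1430 c7893 c7903 c4450 c4449 c4447 c4370 (k8 c4369 c4365 c1469 c4444 c4385 c80 c4402 c14 (k8 c7883 c12 c13 c1301 c3288 c1298 c1449 c1300 (k8 c3312 c3285 c1302 c3290 c954 c7901 c1028 c4434 (k8 c2036 c3061 c3103 c274 c3102 c300 c3785 c3823 (k8 c3822 c228 c7902 c7904 c4361 c4394 c4471 c7905 (k8 c1182 c3083 c1585 c4489 c4333 c4412 c4415 c1916 (k8 c4475 c4427 c4428 c4457 c7906 c4476 c616 c4726 (k4 c1111 c489 c753 c6225 (k1 c4477 k0)))))))))) (by decide +kernel)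
def c7908 : PP 8 4 T 0x1000040040020000000000000000000000000001000000002000000000 := rS 0x8f43 (k2 c4394 c3352 (k1 c4473 k0)) (by decide +kernel)
def c7909 : PP 8 4 T 0x8000000000000000000000004000000000200040000000001000000020000420000400 := rS 0x1c6f7e960e657068440c5b69ad52209589c448b3 (k8 c4357 c1028 c3348 c3010 c3049 c72 c7883 c4373 (k8 c759 c4462 c4115 c4113 c2995 c1022 c4476 c7787 (k2 c3007 c4463 (k1 c1329 k0)))) (by decide +kernel)
def c7910 : PP 8 4 T 0x200000000000050000000020000020001000 := rS 0x5608a4448b1 (k4 c3010 c1028 c72 c4115 (k2 c4476 c4116 k0)) (by decide +kernel)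
def c7911 : PP 8 4 T 0x20000000000000000001000000000200100200000000000000000800420020400000000 := rS 0x1f880001681a192c83c14170dbc097452ab3a2c954f0f4fe371cad4570d5ea3c9ea321a4d6e4d38a5c7ecb5089d22b912070421f63925cad3 (k8 c4373 c4402 c1721 c1452 c1100 c835 c4466 c1028 (k8 c7908 c72 c872 c4212 c1941 c3192 c777 c3348 (k8 c1935 c1038 c1569 c4446 c1469 c3377 c1430 c1938 (k8 c4385 c14 c7883 c19 c18 c3351 c1682 c1371 (k8 c763 c4471 c7904 c3538 c4400 c3355 c4474 c4291 (k8 c4431 c7909 c304 c535 c308 c568 c7910 c758 (k2 c7886 c7454 (k1 c4380 k0)))))))) (by decide +kernel)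
def c7912 : PP 8 4 T 0x1000000000000000000040200000040040000001402420000140000800 := rS 0x89f40a152d2ccaa13069641e3738890387f64d098ed3 (k8 c4373 c1452 c4473 c4422 c4392 c4466 c1028 c3348 (k8 c18 c304 c535 c568 c571 c307 c5025 c7910 (k4 c327 c575 c7516 c278 (k1 c2107 k0)))) (by decide +kernel)
def c7913 : PP 8 4 T 0x20000000000000000001000000000200100200000000000000000000420020400000000 := rS 0x7c099541e0d088102a5b0599d2873328f1927f67d093e475cb2d2e5d50ac47e241387042c7698adcabd4887d6e49 (k8 c1721 c1038 c1100 c72 c1938 c4402 c14 c4373 (k8 c1452 c835 c4466 c872 c1028 c3192 c3010 c4212 (k8 c3319 c777 c1941 c7908 c7911 c1570 c4473 c1405 (k8 c4392 c4422 c7904 c3609 c3558 c1680 c2727 c7912 (k8 c759 c326 c7860 c4115 c4113 c265 c266 c530 (k2 c2107 c7516 k0)))))) (by decide +kernel)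
def c7914 : PP 8 4 T 0x20000000000000000000000100000200000200000000000000000010020000420000400 := rS 0xfd07a0d0a6f309b4b077068440c5b699ecf29104ac4e224 (k8 c1028 c3348 c3010 c3049 c72 c4447 c4365 c4373 (k8 c759 c4462 c4115 c4113 c1023 c7910 c4993 c616 (k4 c3007 c1402 c1937 c1329 (k2 c6225 c4463 k0)))) (by decide +kernel)
def c7915 : PP 8 4 T 0x1000005015550000000000000000000000000001400020000000000000 := rS 0x284ca63b4d6ab7 (k4 c1038 c7883 c4373 c1451 (k2 c2129 c4473 (k1 c4425 k0))) (by decide +kernel)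
def c7916 : PP 8 4 T 0x200100000100010000080044000000002041405002 := rS 0x342f (k2 c1842 c7886 (k1 c687 k0)) (by decide +kernel)
def c7917 : PP 8 4 T 0x20000000000000000001000000000200100200000000000000001010820000420000000 := rS 0x32d8ecf25205f81100014b40d0c9642e0f051c448211bb4d6abd27afd8a435db043eb7 (k8 c1038 c1100 c4450 c4449 c4446 c4370 c4369 c3377 (k8 c1938 c7883 c4373 c18 c11 c1028 c3348 c7914 (k8 c304 c573 c535 c308 c568 c7910 c575 c758 (k8 c278 c4463 c4380 c7916 c3355 c1453 c1861 c7902 k0)))) (by decide +kernel)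
def c7918 : PP 8 4 T 0x1000000010200100000000000000000000010020020000000000 := rS 0x659358e46678c44c9f100943a3a5b9243e234630576c55fc61a6b516c357a8f (k8 c1430 c1938 c4385 c15 c7883 c4373 c7893 c4369 (k8 c4370 c4449 c4450 c7903 c7907 c1100 c1721 c1038 (k8 c7913 c7917 c1370 c4466 c1571 c4467 c317 c1405 (k4 c875 c408 c1934 c1589 (k1 c7902 k0))))) (by decide +kernel)
def c7919 : PP 8 4 T 0x1000000001011555000200000000000000000000000004001021000000000 := rS 0x50610c99e2f4fc4d96ab (k8 c1573 c1940 c4444 c1571 c1843 c1405 c4469 c2129 (k2 c957 c1867 k0)) (by decide +kernel)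
def c7920 : PP 8 4 T 0x1040000010200100200000000000000000000020020000000000 := rS 0x30d5e534a8b84233122e52ed11f8e982c58c2756a2d89af5e2bb1ba6d7e4f4987d56b72488c6240 (k8 c7918 c1912 c1302 c1721 c1038 c1573 c1103 c1569 (k8 c3377 c1054 c3765 c18 c1851 c4433 c1938 c4444 (k8 c15 c7883 c1236 c4488 c7718 c4450 c7913 c21 (k8 c1762 c1044 c1046 c7919 c434 c312 c4469 c1577 (k4 c3939 c789 c1048 c2127 k0))))) (by decide +kernel)
def c7921 : PP 8 4 T 0x1000000001051545000200000000000000000000000000001021200000000 := rS 0x5c8fc742d (k4 c15 c835 c400 c1046 (k1 c7919 k0)) (by decide +kernel)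
def c7922 : PP 8 4 T 0x1040000010200100000000000000000000000020020000000000 := rS 0x1723f4807042c11eb152e46688985e2546b4d6b0d5ebc576370fafc9eb72488c6240 (k8 c7918 c1912 c1302 c1721 c1038 c3377 c1054 c1103 (k8 c18 c1851 c4433 c1938 c4385 c7883 c4373 c7920 (k8 c1369 c1843 c4467 c1761 c875 c2881 c1056 c1682 (k4 c1853 c7921 c4466 c872 (k2 c1179 c1205 (k1 c7919 k0)))))) (by decide +kernel)
def c7923 : PP 8 4 T 0x1000000010200100000000000000000000000020020000000000 := rS 0x241909c96c6118c5e240698b61a4f (k8 c3377 c4385 c15 c4373 c7918 c4433 c1912 c1302 (k4 c7922 c1453 c408 c5936 (k2 c4467 c434 k0))) (by decide +kernel)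
def c7924 : PP 8 4 T 0x200000000000000010011000004201510000000000000000000000800800000000000 := rS 0x30d5e53 (k4 c3939 c789 c1048 c7287 k0) (by decide +kernel)
def c7925 : PP 8 4 T 0x20000000002000000000000000000200100000000010000000004000020002440000000 := rS 0xfd08a000a5a06864b20f051042e1b69af49e211b8711843 (k8 c4446 c1369 c1370 c18 c312 c3377 c1938 c4373 (k8 c4291 c4431 c4433 c7914 c304 c535 c308 c568 (k4 c7910 c575 c7886 c278 (k2 c4380 c4463 k0)))) (by decide +kernel)
def c7926 : PP 8 4 T 0x2080000000200100000000000000000000000020020000000000 := rS 0xb48106864b217078283641183c4962f21b1631104ea55568c0e08466a360a6d2e931208d763a5c07da271138dda62d86c4d7a4f (k8 c3377 c1938 c4444 c4385 c15 c4373 c18 c408 (k8 c3422 c460 c7786 c1451 c1452 c3424 c3421 c4467 (k8 c1569 c1044 c1970 c1988 c778 c434 c312 c1370 (k8 c1369 c1949 c1577 c7887 c5821 c4488 c7718 c4446 (k8 c7924 c1374 c7925 c4469 c1912 c7896 c7914 c304 (k4 c573 c535 c308 c568 (k2 c6395 c7910 (k1 c7886 k0)))))))) (by decide +kernel)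
def c7927 : PP 8 4 T 0x42040000000000000000000000000000000000000022000000000 := rS 0x47248adcb43 (k4 c4395 c4402 c14 c282 (k2 c3353 c4473 k0)) (by decide +kernel)
def c7928 : PP 8 4 T 0x10000000001000000000000000054000200000000050000000801400000910000800 := rS 0x1f1f8c9319fcbe612e84cb40d009643c71 (k8 c3285 c4466 c535 c567 c568 c271 c571 c1338 (k8 c766 c1295 c1311 c7109 c1582 c4477 c2118 c4379 k0)) (by decide +kernel)
def c7929 : PP 8 4 T 0x600000000000080000000020000110000400 := rS 0xc26e08820be071c9c4441e (k8 c4466 c1100 c3285 c19 c495 c576 c4462 c344 (k2 c1059 c767 (k1 c4037 k0))) (by decide +kernel)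
def c7930 : PP 8 4 T 0x400000000020000000000001000000000000000244100200000000000000800000022001000000000 := rS 0x7e974be7700184b05b058ed266533c4142034191892193883d0a4a26ac44457138783a3986af51e213d9e47a43 (k8 c4446 c332 c4447 c4365 c317 c1430 c1938 c4385 (k8 c19 c1028 c4466 c352 c3061 c1100 c3102 c1935 (k8 c1301 c3288 c3312 c3285 c7901 c372 c2037 c3822 (k8 c228 c771 c4489 c4333 c4412 c4413 c1101 c7928 (k8 c7929 c4476 c616 c4726 c1111 c489 c753 c6225 (k1 c4477 k0)))))) (by decide +kernel)
def c7931 : PP 8 4 T 0x10000000000000002000000000044054500000000000000000804102000000000000 := rS 0x28522225c9296e49 (k8 c24 c1587 c1317 c1316 c1915 c769 c771 c5931 k0) (by decide +kernel)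
def c7932 : PP 8 4 T 0x2000000000204140000000000000000800000022020000000000 := rS 0x269204e471fa5438930fa347a3972c351f43518958ed31090e3041 (k8 c1912 c7893 c4446 c317 c4373 c7926 c7927 c779 (k8 c4395 c1430 c4385 c4402 c19 c332 c7930 c1099 (k8 c1569 c4466 c763 c1179 c7931 c875 c4473 c1935 (k1 c372 k0)))) (by decide +kernel)
def c7933 : PP 8 4 T 0x2000000000204140000000000000000000000022020000000000 := rS 0x88962778134a6d115b961b4b288958ed3 (k8 c4373 c7926 c7927 c1869 c4460 c4385 c4402 c14 (k8 c300 c7932 c2062 c4475 c356 c4434 c4467 c1301 k0)) (by decide +kernel)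
def c7934 : PP 8 4 T 0x10200100000000000000000000000020020000000000 := rS 0x4625925e023178c44a9719aaca2a363a7e97436644da6e5 (k8 c4402 c4373 c4444 c7923 c4395 c4460 c1398 c7926 (k8 c779 c1869 c1949 c957 c4785 c7927 c7933 c1843 (k4 c1302 c4469 c1721 c4434 (k2 c4473 c1317 k0)))) (by decide +kernel)
def c7935 : PP 8 4 T 0x2000000002000000000500000000000000000000040000001021400000000 := rS 0x4d5492546331789c8e4b (k8 c4434 c1317 c875 c4432 c4293 c778 c1721 c1483 (k2 c2063 c2111 k0)) (by decide +kernel)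
def c7936 : PP 8 4 T 0x2000000000020000400002000000000000010020400000001020060100000 := rS 0x8909a1caa6a3d010e6010db442e51 (k8 c4435 c4431 c4298 c4291 c487 c3251 c1026 c1234 (k4 c1235 c1599 c1634 c530 (k2 c682 c7865 k0))) (by decide +kernel)
def c7937 : PP 8 4 T 0x2000000000020000400022000000000000010000400004021021840000400 := rS 0x3097dfa5d3700010072b1642a5b8680c3821 (k8 c2825 c4466 c2767 c4329 c759 c7508 c7936 c4476 (k8 c1018 c4462 c1058 c1059 c2713 c4378 c489 c2733 (k1 c4477 k0))) (by decide +kernel)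
def c7938 : PP 8 4 T 0x2001000000000000000002000004000100040001400000000000001040802 := rS 0x8b449e02a5a0db442e51 (k8 c4435 c4431 c4298 c4291 c566 c646 c969 c7314 (k2 c604 c2109 k0)) (by decide +kernel)
def c7939 : PP 8 4 T 0x400000002000000000005000000002000000000010000000402044421021840000000 := rS 0x44054da61020050e692f9ec26550686414c40d915a21720944ca6701a8166758b0f52ae5 (k8 c4402 c973 c1680 c4471 c4417 c4357 c1720 c2767 (k8 c2738 c3648 c4435 c4433 c4431 c4298 c4295 c4291 (k8 c2115 c7937 c308 c568 c306 c571 c703 c1295 (k8 c825 c1635 c7938 c4461 c766 c5028 c7679 c7856 (k1 c7314 k0))))) (by decide +kernel)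
def c7940 : PP 8 4 T 0x1000010000000000022000000004100000401502000001000824440001 := rS 0x11287458543277308100719 (k8 c4367 c2767 c4461 c766 c4596 c268 c7679 c4632 (k2 c7313 c7314 (k1 c2109 k0))) (by decide +kernel)
def c7941 : PP 8 4 T 0x400000002001000000000000000022000000000110000000402001401000820000800 := rS 0x870c854b4003497cf6132a83436d10b904a267 (k8 c2738 c4435 c4433 c4431 c4298 c4291 c568 c306 (k8 c571 c702 c1295 c825 c7940 c566 c646 c5907 (k2 c7313 c7938 k0))) (by decide +kernel)
def c7942 : PP 8 4 T 0x400000000000000000000000000002000000000400000040000080001400060000002 := rS 0x5634860b319 (k4 c4367 c487 c5782 c756 (k2 c4476 c4654 k0)) (by decide +kernel)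
def c7943 : PP 8 4 T 0x40000000000000000000002000000010011000000002040004000000150004500000000040020000000 := rS 0x110 (k2 c7680 c7673 k0) (by decide +kernel)
def c7944 : PP 8 4 T 0x40000000000000400000002000000000001000001500141100000000000000002004021021800000000 := rS 0x1a50e570c818085504804eec50a96c16423aace2c3d4ab0d383b4d9c56e1c8a07c56e5688bca2bb25994ce03478857e5326d121aa0 (k8 c1720 c4329 c4490 c4451 c372 c4399 c2825 c1306 (k8 c2767 c2738 c3648 c4434 c1309 c4435 c4432 c4298 (k8 c4402 c14 c1099 c4486 c4466 c4353 c4387 c764 (k8 c1722 c7247 c1213 c973 c1680 c4471 c4357 c4417 (k8 c7939 c7941 c759 c7508 c7937 c1887 c7942 c1058 (k8 c1599 c4461 c4462 c268 c1018 c7313 c824 c7943 k0)))))) (by decide +kernel)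
def c7945 : PP 8 4 T 0x10400000000000000000000440000001800201400400100000000010020400910000404 := rS 0x1000637824f27b00160da5b4795d621e (k8 c1298 c3102 c3061 c1306 c7929 c864 c4476 c5613 (k4 c4055 c2433 c1106 c4036 (k2 c486 c7037 (k1 c7000 k0)))) (by decide +kernel)
def c7946 : PP 8 4 T 0x10000000000000000000000000000000201000000000000056040000000914400800 := rS 0xfc0817cc25d2a83402192c878e20f (k8 c3310 c3285 c1298 c535 c308 c567 c568 c2200 (k4 c1338 c766 c1295 c7777 (k2 c4477 c4300 k0))) (by decide +kernel)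
def c7947 : PP 8 4 T 0x400000002000000002000000000540140000000000000000000000021021000000000 := rS 0xd0003b960b60b4d46588c38b0ec86571e8783a9d4614d064d5fa151f441080e1a93501218ea969b96874b0d915a21717904a2c15d8fd22272392c444f (k8 c3454 c7935 c4434 c1317 c875 c1036 c1182 c1309 (k8 c1988 c4435 c4433 c4432 c4431 c4298 c4295 c4291 (k8 c4460 c4395 c4402 c4373 c1483 c1449 c4473 c1720 (k8 c3649 c4329 c2767 c2825 c4490 c1306 c4397 c4399 (k8 c4451 c4452 c372 c7944 c1237 c1028 c1298 c1681 (k8 c3061 c276 c1101 c4471 c4362 c2115 c4370 c7718 (k4 c7946 c7929 c4476 c1889 (k2 c4726 c7945 (k1 c4701 k0))))))))) (by decide +kernel)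
def c7948 : PP 8 4 T 0x400000002000000002000000000500140000000000000000000000021021000000000 := rS 0x9446a3d70c688a88444f (k8 c3454 c7935 c7947 c4337 c779 c1451 c3423 c3420 (k2 c6781 c858 k0)) (by decide +kernel)
def c7949 : PP 8 4 T 0x80000000000044000000000000000000000020000800000000 := rS 0x222958ba891eb8 (k4 c1451 c3423 c1449 c4361 (k2 c858 c4337 (k1 c4487 k0))) (by decide +kernel)
def c7950 : PP 8 4 T 0x400000001000000002000000010000100100000000000000000000021020800000000 := rS 0x11538bb5fa6e29440e23e1a21502b890d02394c5c335494546c74987da6e552d0d4e97a5aad2239 (k8 c19 c769 c1573 c4460 c4785 c2066 c4395 c7934 (k8 c4402 c4373 c1099 c1569 c7949 c779 c1869 c1483 (k8 c957 c4469 c2032 c1318 c4475 c4473 c1760 c1720 (k8 c2832 c4329 c1306 c4466 c4490 c4486 c2732 c4399 (k4 c4390 c7247 c1221 c785 k0))))) (by decide +kernel)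
def c7951 : PP 8 4 T 0x20000000000000000000000000100020100201400010000004000000020001100000404 := rS 0x1fa5d2f9dc00612c16d1f0d5e874f679 (k8 c4447 c4365 c1028 c1119 c4383 c71 c7929 c4476 (k4 c616 c4726 c1111 c489 (k2 c2713 c6225 (k1 c4477 k0)))) (by decide +kernel)
def c7952 : PP 8 4 T 0x400000000000000000000000001500000001400000501500000000001800000000001 := rS 0x84200da19 (k4 c1870 c7462 c2119 c4479 (k1 c4439 k0)) (by decide +kernel)
def c7953 : PP 8 4 T 0x400000000000000002000000010000100000000000000000000000021021800000000 := rS 0x1a0be612e9ac1a012c85c1403502b890d023c60a6451720d7e8528905625719d104271638783aa986a3d18d372d0de297a5aad4ea5 (k8 c7934 c2066 c1573 c4460 c4785 c7948 c4395 c4402 (k8 c4373 c7950 c71 c4383 c3459 c1028 c1298 c3420 (k8 c3285 c832 c4490 c954 c3061 c3102 c1103 c1869 (k8 c4397 c4399 c4452 c4469 c1221 c2032 c6988 c1318 (k8 c4475 c4473 c1760 c1720 c2774 c7951 c573 c535 (k8 c567 c568 c6097 c1338 c766 c1295 c7952 c7311 k0)))))) (by decide +kernel)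
def c7954 : PP 8 4 T 0x400000001000000002000000000400000000000000000000000000001028000000000 := rS 0x32290bc8c2d (k4 c15 c875 c876 c1318 (k2 c4469 c416 k0)) (by decide +kernel)
def c7955 : PP 8 4 T 0x2000140001500101500000000000000000000028020000000000 := rS 0x8cb0d8b174e0e970bf631293653280b696c1 (k8 c1988 c4460 c15 c957 c416 c2864 c1868 c1869 (k8 c3425 c1451 c1452 c2126 c4361 c1254 c1048 c4367 (k1 c4494 k0))) (by decide +kernel)
def c7956 : PP 8 4 T 0x400000000000000002000000010000100000000000000000000000021021000000000 := rS 0x9b5fc618ac38b9413a3a5c3458c47298b866c15da36189113af56ea949925468f0f88de29769b954aaba1d2c9ea7 (k8 c2066 c3454 c4460 c4395 c1573 c7934 c4402 c4373 (k8 c4785 c7948 c7953 c1100 c1305 c778 c1721 c1569 (k8 c1483 c1038 c2069 c7954 c1036 c4467 c4383 c4825 (k8 c1988 c7955 c4469 c2032 c1318 c4473 c460 c1451 (k8 c1452 c7340 c4475 c4361 c1048 c7131 c4494 c1486 (k2 c4448 c2126 k0)))))) (by decide +kernel)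
def c7957 : PP 8 4 T 0x1001000012000000011101104000000000000000001000024801400000000 := rS 0x8c26a2ebf60aec74b862b0c9443630fd1a5023c31225313b4e874b53a3d7ab7 (k8 c1038 c2069 c1305 c2066 c4460 c4395 c4373 c876 (k8 c2032 c1036 c4467 c1318 c4475 c4383 c1182 c4473 (k8 c3861 c1868 c1867 c7131 c1451 c1452 c3424 c1581 (k4 c3425 c4361 c2126 c4494 (k1 c4448 k0))))) (by decide +kernel)
def c7958 : PP 8 4 T 0x1001000012000400001501105500000000000000401000024000000000000 := rS 0x461351760aec74b862b0c86c61f9408ed3a1d2d7ab7 (k8 c1038 c2069 c4460 c4395 c4373 c1318 c4475 c1182 (k8 c4473 c3861 c1867 c7131 c1451 c1452 c3424 c1581 (k4 c4361 c2126 c4494 c4448 k0))) (by decide +kernel)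
def c7959 : PP 8 4 T 0x20000000000000000000000500001501101500000000000000000000000000000000000 := rS 0x1769b (k2 c4448 c4449 (k1 c2126 k0)) (by decide +kernel)
def c7960 : PP 8 4 T 0x1000000000000140001501101500000000000000808100000000000000000 := rS 0x404d10e32bf (k4 c1324 c7959 c1954 c2126 (k2 c4472 c3941 k0)) (by decide +kernel)
def c7961 : PP 8 4 T 0x20000001001000012000000001541104000000000000000001000025401400000000 := rS 0x128978b2e62aba609497e4a46a444eb5a193d1e450f9357ab7 (k8 c1038 c2069 c2063 c1100 c6169 c1305 c3454 c4395 (k8 c7883 c4323 c4327 c4383 c2111 c1324 c7958 c3890 (k4 c7960 c4390 c1478 c4492 (k2 c4793 c7468 (k1 c4418 k0))))) (by decide +kernel)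
def c7962 : PP 8 4 T 0x1000000000000000000000000100000000000000004000000000000100000000020000 := rS 0xe2fd (k2 c4299 c583 (k1 c4480 k0)) (by decide +kernel)
def c7963 : PP 8 4 T 0x400000000000010000000000000000001084000000000500000000000000000000020029000000000 := rS 0x3f9cce2120302c040508b24fa6f3080562562d88438593aacd21165cc546e395a9758e2d329554046 (k8 c875 c874 c3542 c3529 c15 c408 c2788 c7883 (k8 c19 c18 c4390 c1478 c4492 c4486 c4357 c4417 (k8 c3019 c1035 c887 c2877 c4476 c3018 c2874 c4095 (k8 c1076 c1625 c7308 c7962 c350 c4461 c302 c791 (k4 c795 c1304 c1022 c515 (k1 c2121 k0)))))) (by decide +kernel)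
def c7964 : PP 8 4 T 0x400000000000810000001000000000000104014400104500000000000000808100020029000000000 := rS 0x10632c48b26d72958aa4086bb5aa953aa968abd2ec1 (k8 c3890 c2881 c4346 c1760 c4345 c4343 c7934 c7883 (k8 c7963 c1954 c7960 c4351 c891 c1205 c893 c4492 (k4 c7641 c4370 c1056 c4472 k0))) (by decide +kernel)
def c7965 : PP 8 4 T 0x16000000000000000002010054000000000000000000000000000800800000000000400 := rS 0x401dd6505649bc2273031d59ebd07a1506b138824f6c2a5b04a44a (k8 c1317 c1318 c3890 c4460 c4494 c3034 c3057 c4387 (k8 c4349 c3943 c3306 c3317 c2069 c169 c1575 c4462 (k8 c3003 c608 c1020 c1583 c7081 c4481 c3028 c5956 (k1 c7000 k0)))) (by decide +kernel)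
def c7966 : PP 8 4 T 0x16010000001000000002010054000500000400000000000104000900801008050000000 := rS 0x200de772f160080300828f6796110296855fb0506522192840b1 (k8 c4349 c4466 c1317 c1954 c1318 c3943 c3890 c3307 (k8 c3306 c4460 c4472 c4494 c3940 c3034 c7965 c567 (k8 c303 c4461 c311 c351 c7135 c1108 c6353 c1381 k0))) (by decide +kernel)
def c7967 : PP 8 4 T 0x10000001000000000000440100500000401405000000100000000001008240000020 := rS 0x80379dcbc58 (k4 c311 c351 c7135 c1108 (k2 c6353 c1381 k0)) (by decide +kernel)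
def c7968 : PP 8 4 T 0x6010000000000000000000014000120000000200004000100000800800008410004010 := rS 0x82324ea630882c0003301fcbefd (k8 c4380 c1381 c3303 c4477 c879 c4461 c567 c607 (k4 c2875 c1575 c1583 c5930 (k1 c7081 k0))) (by decide +kernel)
def c7969 : PP 8 4 T 0x2010000000000000000000544000100000005405004000000008000000028610004010 := rS 0x40607599d832812e91940575c8e98e2d8ba516271 (k8 c4387 c4349 c834 c4418 c15 c408 c835 c1046 (k8 c2776 c874 c875 c2788 c7968 c1874 c2122 c1192 (k4 c1024 c6877 c831 c4461 k0))) (by decide +kernel)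
def c7970 : PP 8 4 T 0x2000000010000100000000000000000000000021021400000000 := rS 0x30081cdc053c9ee30b18a3162eb94a0e8ae200eaed188343928a4bf4283d8e462e89a1a2f5eadc8a9378925468f0fb4d6a2d72a95574327a9c669d54b455f12 (k8 c7956 c4346 c1760 c4345 c4343 c4339 c2066 c3454 (k8 c4395 c1573 c7934 c4402 c15 c7883 c4373 c1100 (k8 c1305 c778 c1721 c7935 c1569 c6169 c1038 c2069 (k8 c7957 c7961 c4467 c2788 c875 c408 c3317 c3306 (k8 c3307 c1318 c1317 c3811 c3943 c7964 c1389 c1028 (k8 c4466 c2776 c835 c834 c1046 c4418 c1786 c4492 (k8 c4349 c7966 c4365 c4447 c7967 c7969 c1020 c831 (k2 c7261 c4461 k0)))))))) (by decide +kernel)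
def c7971 : PP 8 4 T 0x2000000000001000002000040000444100200000000000000001041020000810000000 := rS 0x2f975fa80379dc12612c16cf27b05c6076f141915266533928a4bf42c408ca169d0d62bd388851f0d6395c821e (k8 c1298 c1103 c3061 c3420 c4383 c4388 c832 c4387 (k8 c4354 c4349 c4395 c4373 c771 c4473 c4489 c3306 (k8 c3307 c1318 c1317 c4333 c4412 c4413 c1221 c3943 (k8 c4434 c1101 c4472 c7928 c4365 c4447 c7929 c4476 (k8 c616 c3111 c1111 c4036 c6353 c6225 c1337 c3284 (k1 c4477 k0)))))) (by decide +kernel)
def c7972 : PP 8 4 T 0x20800000000000000000005000014000154000000000000000000000000000000000000 := rS 0x4db153aaf (k4 c4346 c4343 c4370 c4448 (k1 c2127 k0)) (by decide +kernel)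
def c7973 : PP 8 4 T 0x10010000000000000000000000000400800000204004000100000000000000800000000 := rS 0x68301d8befd (k4 c4380 c3284 c7000 c4477 (k2 c1888 c884 k0)) (by decide +kernel)
def c7974 : PP 8 4 T 0x1a010000000000000012010041054001144001405004000100102155000000800000000 := rS 0x7f39bf113093b2050f4526268a54b53b0562bd388ed6eb361a557eb9 (k8 c4361 c1485 c4418 c4362 c4357 c4353 c1722 c4387 (k8 c4354 c4349 c1988 c2066 c4460 c2115 c2127 c372 (k8 c4451 c3814 c7973 c2122 c4438 c3951 c4484 c7619 (k2 c4235 c7787 k0)))) (by decide +kernel)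
def c7975 : PP 8 4 T 0x2000000000001000000020440000000000001505104000000000011020000004000000 := rS 0x560a0a451c80e7658af4e209 (k8 c1059 c4387 c4354 c4349 c2122 c7037 c1095 c1096 (k4 c4462 c4408 c718 c7079 k0)) (by decide +kernel)
def c7976 : PP 8 4 T 0x12010000000001000012000040054001144001415004000100102051020000800000000 := rS 0x1ccec7f7ea010ec45ad0cea1b781157eb961b052b161f8e476b7 (k8 c4353 c1722 c19 c370 c4471 c4418 c1988 c4362 (k8 c4361 c1485 c1221 c6161 c4291 c4417 c4395 c7883 (k8 c7974 c1635 c7975 c4380 c1462 c7000 c4956 c1095 k0))) (by decide +kernel)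
def c7977 : PP 8 4 T 0x40001500000001402011400104000040000000810000100 := rS 0x612f804b40a409640e69 (k8 c1961 c501 c540 c1962 c4462 c4476 c567 c576 (k2 c766 c2119 k0)) (by decide +kernel)
def c7978 : PP 8 4 T 0x12010000000001000012000040055101144001410005400100102041020000890000000 := rS 0x201f8692f98400052c018b60b3d1e54eb1388851e570d8bde0455fae586c14ac587e39208ed6e09 (k8 c1059 c4353 c1722 c1103 c19 c370 c4471 c4418 (k8 c1988 c4362 c4361 c1485 c1221 c6161 c4432 c4291 (k8 c3061 c4388 c832 c4387 c4349 c2066 c7977 c7976 (k8 c702 c704 c4462 c4476 c6846 c1098 c616 c1296 (k4 c756 c4477 c2119 c4380 k0))))) (by decide +kernel)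
def c7979 : PP 8 4 T 0x1000012040000000000000002000000000000002000000000004000000 := rS 0x1542a1382a28227e (k8 c1481 c710 c1482 c4313 c515 c366 c1766 c4464 k0) (by decide +kernel)
def c7980 : PP 8 4 T 0x1000002000000000000000000800000000000002000000000000404000 := rS 0xaa1564220fecb (k4 c138 c677 c2064 c2065 (k2 c367 c1727 (k1 c7030 k0))) (by decide +kernel)
def c7981 : PP 8 4 T 0x12000000000001000012000040055101144200010005400000002041020000810000000 := rS 0x1761a514286d8e830bbc08abf5cb0d82958b0fc72410f0ed6e0f (k8 c3310 c4353 c1722 c1298 c1103 c19 c370 c4471 (k8 c4418 c1988 c4362 c4361 c1485 c1221 c6161 c4431 (k8 c7980 c3420 c4291 c7979 c1869 c4383 c1337 c7978 k0))) (by decide +kernel)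
def c7982 : PP 8 4 T 0x2000000000000000002000040010000100200000000000000000000021021000000000 := rS 0x2d02cb2003017cdd194ab0e2c3b499f47e485190cae3d638783a971cb4dcaa54faad4e6d4eaa4d6d157c4982b15b8851e22 (k8 c7970 c4388 c832 c4353 c4349 c1988 c7956 c4346 (k8 c1760 c4442 c4345 c4343 c4341 c2066 c1573 c1571 (k8 c7934 c4402 c4373 c19 c1198 c1028 c1298 c3420 (k8 c1681 c3061 c276 c779 c7971 c370 c3566 c3649 (k8 c1722 c4471 c4362 c4418 c7972 c7981 c1378 c4037 (k4 c766 c616 c567 c7428 (k1 c7929 k0))))))) (by decide +kernel)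
def c7983 : PP 8 4 T 0x1000012000800000000000000000000000000000004400000000000000 := rS 0x8b8f570c4 (k4 c1486 c1485 c1782 c4361 (k1 c4471 k0)) (by decide +kernel)
def c7984 : PP 8 4 T 0x40000000000000000000000001000010000000010000000000000000000000100000000800000000000 := rS 0xa6f1 (k2 c4432 c2032 (k1 c4475 k0)) (by decide +kernel)
def c7985 : PP 8 4 T 0x1000012000140011101144500000000000000000000020000800000000 := rS 0xe970be4d8bca23f63d2d4e911c8703e21 (k8 c832 c1099 c4466 c19 c769 c2066 c4460 c7949 (k8 c1179 c1869 c7984 c764 c2126 c1485 c7983 c1046 k0)) (by decide +kernel)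
def c7986 : PP 8 4 T 0x2000000000000000002000040010000100000000000000000000000021021000000000 := rS 0x5f31536964987d1a8f5eb954aa74eaa5a2af892444439 (k8 c19 c7970 c769 c7956 c4346 c1760 c4345 c4343 (k8 c2066 c7934 c4402 c4354 c4388 c7982 c1099 c1569 (k4 c7985 c2747 c1252 c2126 (k1 c1486 k0)))) (by decide +kernel)
def c7987 : PP 8 4 T 0x2000040001505581000000000000000000000000020000000000 := rS 0x2fd7a8d62a3e2295 (k8 c103 c4335 c2746 c1252 c1198 c6588 c1486 c2126 k0) (by decide +kernel)
def c7988 : PP 8 4 T 0x2000200000000000000000000000000000000020000000000000 := rS 0x9840 (k2 c1039 c1040 (k1 c3974 k0)) (by decide +kernel)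
def c7989 : PP 8 4 T 0x2000040055005500100000000000000000000020020800000000 := rS 0x28528205ca8d1cc74987dcacb67b457a97488e54ea5 (k8 c7934 c2066 c19 c769 c7987 c7988 c1760 c169 (k8 c138 c4402 c1099 c1569 c7949 c7985 c779 c1475 (k4 c1306 c834 c2825 c7265 k0))) (by decide +kernel)
def c7990 : PP 8 4 T 0x1000000000000000002000000040000520200000000000000000040420020810000000 := rS 0x1fa7b379e4ee098c161e2832d928a4852282c8cbf5c0f98b175ab9686bd869c4428f1e95d6eb12087946c7 (k8 c3420 c779 c1298 c1103 c3102 c3103 c3061 c1681 (k8 c71 c832 c3285 c4383 c7988 c4395 c4402 c7883 (k8 c4418 c1786 c4471 c4492 c1486 c1182 c7905 c1221 (k8 c3306 c1318 c1317 c7929 c3943 c4434 c4476 c4472 (k4 c3111 c1111 c541 c4036 (k2 c4365 c6225 (k1 c4480 k0))))))) (by decide +kernel)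
def c7991 : PP 8 4 T 0x1000000000000000002000020000000500200000000000000000040420020810000000 := rS 0x7b8c3f1e283229bcf27704928a4bf429608c5b1f02e2ee55ec34e221478f4aeb12087946c7 (k8 c3420 c779 c1298 c1103 c3102 c3061 c1681 c71 (k8 c832 c3285 c4383 c7988 c4402 c4361 c7905 c4471 (k8 c7929 c1182 c4476 c3306 c3307 c1318 c1317 c3111 (k8 c1111 c541 c4036 c1221 c3943 c4434 c4480 c4472 (k2 c4365 c6225 k0))))) (by decide +kernel)
def c7992 : PP 8 4 T 0x1800000000000000002000040014000504000000000000000000040020021800000000 := rS 0x102692fbf0ba0037824c2582d80c16a02411d064d4292c2e1ba23c232c322c597eb94a8eda6b5a193cda6b5eb052e911ca9d4b0d0e9c4428f2badd62410f0bca2c7462a53a9f68abe96e5 (k8 c4402 c4460 c4346 c1760 c1571 c4343 c4345 c7989 (k8 c3420 c1869 c7984 c1298 c1103 c3102 c3103 c3061 (k8 c71 c832 c3285 c1028 c4383 c7934 c2066 c19 (k8 c769 c7987 c1988 c7988 c4442 c4341 c3454 c4395 (k8 c7883 c4373 c1101 c7990 c7991 c1485 c4492 c1221 (k8 c4362 c7972 c6161 c4493 c4291 c4431 c4434 c4397 (k8 c4451 c4452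 c1317 c4473 c1720 c7946 c2767 c7929 (k8 c4476 c616 c3111 c4036 c4726 c1337 c4480 c489 (k2 c756 c4380 (k1 c2119 k0)))))))))) (by decide +kernel)
def c7993 : PP 8 4 T 0x2000040010000500000000000000000000000021021000000000 := rS 0x286229251adc86c70f435189f55d0d3aa957c484515 (k8 c7986 c7970 c7956 c4346 c4345 c4343 c4395 c1573 (k8 c1571 c7989 c4383 c1298 c3420 c276 c3103 c779 (k4 c7992 c4413 c1738 c4489 k0))) (by decide +kernel)
def c7994 : PP 8 4 T 0x400000000000010000000000000000000004000044008000000000000000000000000000000000000 := rS 0x14311 (k2 c4413 c1738 (k1 c4489 k0)) (by decide +kernel)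
def c7995 : PP 8 4 T 0x10000000000000000002000000000000000000000000000000000850020000000000000 := rS 0x7891494bf (k4 c3307 c1317 c1221 c4434 (k1 c4472 k0)) (by decide +kernel)
def c7996 : PP 8 4 T 0x2000040010000100200000000000000000000021021000000000 := rS 0x204d25f7e174006f04984b05b0592c2e1b419350af001d108aa05f9207e471da4c5e515190562b72195c4271638783b0d47b4dcaa54fd0e964f539b5526b68abe24225ec56329a (k8 c7993 c4448 c7986 c7988 c7970 c7956 c4346 c1760 (k8 c4442 c4345 c4341 c2066 c3454 c4460 c4395 c1571 (k8 c7934 c4402 c4373 c71 c4383 c1028 c1298 c3420 (k8 c3285 c832 c3061 c276 c3103 c3102 c1103 c779 (k8 c1869 c7984 c7994 c1101 c7995 c1182 c4473 c7983 (k8 c1720 c1221 c4493 c2767 c4472 c4397 c4451 c4452 (k8 c4291 c4431 c4434 c7946 c7929 c4476 c616 c3111 (k8 c4036 c4726 c1337 c4480 c489 c756 c4380 c2119 k0)))))))) (by decide +kernel)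
def c7997 : PP 8 4 T 0x2000040010000100000000000000000000000021021000000000 := rS 0x16f1750a5040b951a398e930fa352e9a8aad5caa5a1a7552d157c4844bd (k8 c7988 c7970 c7956 c4346 c1760 c4345 c4343 c4395 (k8 c7934 c4402 c7883 c7986 c7993 c932 c7996 c1099 (k8 c1569 c7949 c7985 c779 c1475 c1306 c834 c2825 (k2 c4418 c1746 (k1 c4492 k0))))) (by decide +kernel)
def c7998 : PP 8 4 T 0x2000000010000100000000000000000000000021021000000000 := rS 0x470852b164badd72496094926f128a8c3e4a639351b155d24444d157c4a97431cad5caa5 (k8 c7934 c4402 c7883 c19 c4395 c4460 c7956 c4346 (k8 c1760 c7970 c769 c7997 c4390 c1389 c1975 c3424 (k8 c1309 c1099 c779 c1869 c4434 c1569 c4475 c3890 (k8 c372 c1478 c1038 c4793 c4492 c4418 c834 c7468 (k1 c1306 k0))))) (by decide +kernel)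
def c7999 : PP 8 4 T 0x400000000001000000000000000000040014000000004500000000000000000000020021120000000 := rS 0x7f399c42406058080a113e9bcc20158958aa5b50118ba262cc3520953aacd2f161f8e56aa3 (k8 c779 c7883 c19 c1181 c4492 c777 c4357 c4417 (k8 c4418 c7468 c4327 c3019 c1036 c2788 c875 c874 (k8 c2877 c3542 c4476 c3018 c2874 c4095 c1076 c1625 (k8 c7962 c350 c4461 c302 c791 c795 c1304 c1022 (k2 c515 c4088 k0))))) (by decide +kernel)
def c8000 : PP 8 4 T 0x1000000000000000000000020000040000500000000000000000008020020020000000 := rS 0x1fdfac932974fa633704400b30419cbe612b4301ea12da448c594b0e4562d (k8 c15 c14 c19 c1179 c3191 c1182 c3194 c2745 (k8 c898 c3316 c4486 c4476 c4325 c4382 c2743 c4604 (k8 c3197 c1058 c344 c1059 c817 c1356 c753 c491 (k4 c1583 c4378 c3302 c5857 k0)))) (by decide +kernel)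
def c8001 : PP 8 4 T 0x400000000001000000000000000000040004000000000500000000000000000000020021140000000 := rS 0xa08612122474b8fd701c69b9526a3 (k8 c779 c1569 c4402 c4373 c4466 c7999 c8000 c777 (k4 c1316 c1205 c4473 c4486 (k2 c1720 c4329 k0))) (by decide +kernel)
def c8002 : PP 8 4 T 0x400000000001000000000000000000040005000000000000000000000000000000000020200000000 := rS 0x8bae5283a (k4 c835 c834 c1046 c4418 (k1 c4492 k0)) (by decide +kernel)
def c8003 : PP 8 4 T 0x400000000001000000000000000000040004000000000100000000000000000000020021040000000 := rS 0x23c42b5 (k4 c7883 c8002 c1306 c8001 k0) (by decide +kernel)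
def c8004 : PP 8 4 T 0x1000000040014000044045500000000000000000000820004100000000 := rS 0xa024a55a6b5 (k4 c7883 c4373 c1577 c1722 (k2 c2125 c4212 k0)) (by decide +kernel)
def c8005 : PP 8 4 T 0x140001101101501004002000000000000000000000000000 := rS 0x5fa9d3713 (k4 c4341 c865 c905 c5760 (k1 c2126 k0)) (by decide +kernel)
def c8006 : PP 8 4 T 0x1000010002000480000000040000000000001400002000000005000800 := rS 0xb3c0a34b (k4 c4428 c3614 c4475 c7824 (k1 c4431 k0)) (by decide +kernel)
def c8007 : PP 8 4 T 0x2000000000120000000000004000000000000020020000002 := rS 0xf309362755e193ba1d16690dc11127b3584cb4b30a94c143b2c99c782172814ca2b2b95556c38cab52ed1 (k8 c3642 c103 c1987 c4450 c110 c1701 c1598 c2710 (k8 c14 c491 c2 c4402 c11 c763 c2727 c1026 (k8 c1577 c7860 c333 c646 c5025 c4476 c571 c2540 (k8 c2686 c7314 c4464 c4149 c2723 c1713 c4410 c1892 (k4 c309 c8006 c972 c2120 (k2 c4317 c601 (k1 c4482 k0))))))) (by decide +kernel)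
def c8008 : PP 8 4 T 0x2000014001000014004000554000000000000000000000000 := rS 0x1e6126c57c651677 (k8 c1892 c1713 c4450 c1715 c2120 c4317 c601 c4482 k0) (by decide +kernel)
def c8009 : PP 8 4 T 0x2000014000100014004000154080000000000020010000400 := rS 0x1f109b0f09b4e06cee6b (k8 c581 c1892 c4698 c8008 c105 c969 c968 c2970 (k2 c4123 c4466 k0)) (by decide +kernel)
def c8010 : PP 8 4 T 0x10000000000001000000000000000000000008004000400081000010000000010100002 := rS 0xf121940ec45090620a0b (k8 c567 c4410 c7313 c4464 c257 c4152 c1564 c1887 (k2 c4435 c4472 k0)) (by decide +kernel)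
def c8011 : PP 8 4 T 0x2000400000120000004000004080000000000020000000002 := rS 0x1a0ee870aa24cee5328acaaab8cab52e0b208f43a6b (k8 c581 c8007 c1681 c1853 c567 c103 c1987 c4450 (k8 c1701 c1598 c14 c491 c4402 c857 c1985 c646 (k4 c8010 c1892 c8009 c845 k0))) (by decide +kernel)
def c8012 : PP 8 4 T 0x2000000000120000004000004080000000000020000000002 := rS 0x7c210304ccc0959154161d (k8 c8007 c567 c1598 c8011 c1186 c664 c2464 c4462 (k2 c2827 c5290 (k1 c1178 k0))) (by decide +kernel)
def c8013 : PP 8 4 T 0x2000000000120000004000004000000000000020000000002 := rS 0x9b899a90e6944c20f2774e960ce5b328acaeab8cab52e1d (k8 c8007 c103 c1987 c4450 c1701 c2710 c14 c491 (k8 c8012 c856 c4476 c4733 c1111 c2433 c4482 c1984 (k4 c4437 c4440 c8008 c4442 (k2 c1968 c4488 k0)))) (by decide +kernel)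
def c8014 : PP 8 4 T 0x10000000000001000000000000000001000008000001000001000050000000000180002 := rS 0x78914a018 (k4 c7313 c1564 c5733 c4435 (k1 c4472 k0)) (by decide +kernel)
def c8015 : PP 8 4 T 0x10000000000000000000000000000000000000000000200000000010000000010000082 := rS 0x1145c17 (k4 c7300 c756 c1218 c6988 k0) (by decide +kernel)
def c8016 : PP 8 4 T 0x4a00000002000000000000000000000000008000000000000000001400100000000080 := rS 0x1f04dca51 (k4 c4435 c4498 c1564 c4471 (k1 c1178 k0)) (by decide +kernel)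
def c8017 : PP 8 4 T 0x2000000000120000008000004040000000000000000000002 := rS 0x3947e50098583244788f6202b82a1a246921a2ccaaf189d40c094e8743c3b209b4b06710c5c06051695d571956a5cee79849ad12c5 (k8 c111 c683 c2440 c4319 c99 c48 c103 c1987 (k8 c4450 c1701 c2710 c2854 c2 c1 c4418 c830 (k8 c856 c4476 c4270 c5810 c1577 c487 c1026 c1235 (k8 c1106 c486 c2432 c7393 c1715 c1696 c1712 c276 (k8 c8015 c4055 c2120 c4410 c4191 c4478 c274 c8016 (k8 c4472 c256 c7132 c1565 c1836 c1178 c4405 c4471 k0)))))) (by decide +kernel)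
def c8018 : PP 8 4 T 0x2000000000120000008000004000000000000000000000002 := rS 0x1d144a6f01f8c4401f030255e2f898cc369a3605cb25a059dd262d55b155a97 (k8 c103 c1987 c111 c1701 c2854 c73 c48 c2686 (k8 c8017 c64 c2474 c704 c705 c4698 c951 c4341 (k8 c783 c869 c4153 c4462 c1097 c495 c1967 c400 (k4 c5814 c1983 c4435 c4542 (k1 c1580 k0))))) (by decide +kernel)
def c8019 : PP 8 4 T 0x4000000002000000000000000054000004000000000000000000044401100200000000 := rS 0xf5ca52 (k4 c4542 c4290 c332 c4471 k0) (by decide +kernel)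
def c8020 : PP 8 4 T 0x26000000002000000000000010400000000000000144000000001140010000001010000 := rS 0x1e0d7e93190d35a8dd7ab71c93c824b5faecfb04 (k8 c4481 c4409 c4449 c4369 c4434 c4433 c4297 c4347 (k8 c4353 c4354 c4386 c4389 c5037 c4073 c2114 c4305 (k2 c507 c244 (k1 c4463 k0)))) (by decide +kernel)
def c8021 : PP 8 4 T 0x1020000000000000000000000000000020000000004044180000000800000000000080 := rS 0xe0c858bf5426132874be9f518a0407f3ec10ea0b598562e73 (k8 c1616 c4418 c2632 c1042 c4 c1575 c4481 c4409 (k8 c4313 c495 c1576 c2828 c3524 c2443 c759 c2444 (k4 c4325 c4329 c7315 c624 (k2 c4060 c4480 (k1 c2447 k0))))) (by decide +kernel)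
def c8022 : PP 8 4 T 0x1000000000000000040000015100000020000000150000480000000800001000000102 := rS 0x861804e2350b241a8fa11b8ca9f0e8f5465d3f9f608b3338a04117 (k8 c4418 c1577 c1576 c2827 c664 c4481 c4409 c4313 (k8 c2821 c2828 c20 c763 c3524 c3523 c4088 c4492 (k8 c1345 c1290 c4422 c4423 c832 c871 c4060 c4467 (k1 c4326 k0)))) (by decide +kernel)
def c8023 : PP 8 4 T 0x2000000040000020000040000084050000054000000000801101401010000 := rS 0x5432c9a85073f54a618629d060d13b3d8d431993c5e4b61906134b (k8 c4427 c4322 c4433 c1047 c4434 c4432 c4297 c4293 (k8 c4394 c1046 c1526 c408 c1447 c645 c4558 c4467 (k8 c4325 c4385 c7315 c4463 c1496 c244 c5740 c2111 (k1 c7105 k0)))) (by decide +kernel)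
def c8024 : PP 8 4 T 0x1000040240000000000000000000000000000001000000000000010000 := rS 0x8f43 (k2 c4422 c1583 (k1 c4473 k0)) (by decide +kernel)
def c8025 : PP 8 4 T 0x10000000020000000150000480000000820000000010102 := rS 0x30a861827069b9922347c518ee532a7d465d3f9f608b3338a0411769ad44a1d1eac56e49 (k8 c3651 c1038 c1034 c20 c763 c1370 c7883 c4373 (k8 c4418 c1577 c1576 c2827 c664 c4481 c4409 c4313 (k8 c2821 c2828 c3524 c3523 c4403 c1451 c8022 c4388 (k8 c832 c8024 c2121 c1290 c871 c4467 c4212 c4325 (k1 c4060 k0))))) (by decide +kernel)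
def c8026 : PP 8 4 T 0x2000000040010020000040000014051540050080000000801101001010000 := rS 0x1367a5422c9ab347a9d4a0e7e98cc30c1388c1ac61993c5e4b619058251 (k8 c4435 c1580 c4433 c1047 c4434 c4432 c4297 c4293 (k8 c1046 c1447 c1449 c408 c4467 c4325 c843 c7315 (k8 c4463 c4385 c4330 c1475 c664 c244 c8023 c2111 (k2 c2123 c866 (k1 c705 k0))))) (by decide +kernel)
def c8027 : PP 8 4 T 0x4001001000000000004015000004554000405008000000080000000000000000000000 := rS 0x152cba52690719 (k4 c4365 c2626 c705 c4494 (k2 c5740 c866 (k1 c4855 k0))) (by decide +kernel)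
def c8028 : PP 8 4 T 0x4000000002000000044000020004044000001001540050080000000801121000010000 := rS 0x54935974b451ee121862b351287a1a3d42a752bf4fa633fc1166618609c46c61993c5e4b619058251 (k8 c4435 c1580 c4433 c1047 c4434 c4432 c4297 c4293 (k8 c1046 c1449 c408 c4467 c4325 c664 c4481 c4313 (k8 c843 c4409 c7315 c4385 c4330 c4329 c1475 c4394 (k8 c4410 c4314 c7935 c1255 c8026 c4436 c8027 c2123 (k4 c4427 c1753 c413 c7105 (k1 c2111 k0)))))) (by decide +kernel)
def c8029 : PP 8 4 T 0x4000000002000000044000020004004000001000040010080000000800121200000080 := rS 0x45464f6c52126060c1619dcf2512085d465908a250f045999cea0b (k8 c4 c1575 c2827 c664 c4481 c4410 c4314 c2594 (k8 c64 c2828 c4431 c4433 c4435 c500 c1023 c1047 (k8 c1580 c8028 c317 c316 c3150 c1131 c4446 c2123 (k1 c7804 k0)))) (by decide +kernel)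
def c8030 : PP 8 4 T 0x15000400000000014004440400000000000802000200000400 := rS 0x119451082e75 (k4 c1575 c1910 c316 c7694 (k2 c4446 c4632 k0)) (by decide +kernel)
def c8031 : PP 8 4 T 0x400000000000000000000000000004080000000540000081000000000000040000001425004000000 := rS 0x549349633659469623 (k8 c1449 c4427 c1591 c1753 c957 c1454 c413 c7105 (k1 c2111 k0)) (by decide +kernel)
def c8032 : PP 8 4 T 0x400000000004000000000000000000094000004000000000004040010080000010820025200000080 := rS 0x57528db193c22c624f179dc36cf53a950a0e7e9f4c30c11a8da611069fd829d449acd20056a1e08b3339d41663 (k8 c843 c4 c1575 c2827 c664 c4481 c4410 c2829 (k8 c494 c2823 c2445 c4314 c2970 c8008 c4313 c1447 (k8 c2594 c4373 c2828 c1449 c4467 c4325 c4409 c7315 (k8 c4463 c3470 c4385 c4330 c3495 c2672 c1023 c837 (k8 c1492 c8030 c8031 c2123 c4447 c601 c4494 c2120 (k1 c4428 k0)))))) (by decide +kernel)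
def c8033 : PP 8 4 T 0x400000000004000000001000000010094100004000000400004040010080000000820024250000080 := rS 0x2609e334d8602e76459e4625320025ca910daed4e8d52a141cfd3e986182351895a611069fd829d449acd20056a1e08b3339d41663 (k8 c843 c4 c1575 c2827 c664 c4481 c4410 c2829 (k8 c494 c2823 c2445 c4314 c2970 c8008 c4313 c1447 (k8 c2594 c4373 c1370 c2828 c1449 c4467 c4325 c4409 (k8 c7315 c4463 c3470 c4385 c4383 c4330 c3424 c2672 (k8 c2893 c4403 c3 c8032 c2034 c1913 c1847 c7874 (k8 c2123 c1833 c1024 c1888 c951 c259 c7048 c6171 k0)))))) (by decide +kernel)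
def c8034 : PP 8 4 T 0x1000000004008140000500000500000000000000000000820020640000000 := rS 0x260624f1990136435f9447a3f56a453ad3 (k8 c4373 c2970 c2893 c2829 c21 c20 c1867 c1216 (k8 c2055 c2058 c1047 c957 c1491 c316 c7048 c6171 k0)) (by decide +kernel)
def c8035 : PP 8 4 T 0x20020000000004000000000000000000000020021200000000 := rS 0x18b3132ad (k4 c2829 c1135 c1255 c317 (k1 c7998 k0)) (by decide +kernel)
def c8036 : PP 8 4 T 0x20000000000000080000000820000000000080 := rS 0x30533093d31586f142839faa546a9d42618603446bb6789d7a8f6350d707112b4c121f49aaccad14f8747a2d1fa8cb2000897cc67f3ea1e08b3338a0407505c5ce655 (k8 c3539 c1022 c4418 c4 c1575 c1577 c1576 c2827 (k8 c664 c4481 c4410 c4409 c4313 c843 c2443 c2594 (k8 c494 c64 c2828 c21 c855 c20 c763 c3524 (k8 c3697 c3523 c3525 c73 c1101 c3 c4373 c1370 (k8 c1304 c8025 c4394 c1046 c1475 c3033 c408 c3495 (k8 c3424 c1449 c1447 c4467 c4325 c4329 c4330 c4383 (k8 c4385 c7315 c4463 c3470 c8029 c8034 c8035 c8033 (k4 c4319 c1131 c8018 c8027 k0)))))))) (by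 decide +kernel)
def c8037 : PP 8 4 T 0x400000000000000000000000000000000011400000820440000156000080050000005405400000000 := rS 0x29d4a855db2228a958adcfe7d8245c9713 (k8 c4341 c6906 c4418 c4481 c4409 c4313 c1747 c625 (k8 c866 c4492 c2121 c4390 c716 c1970 c905 c2111 k0)) (by decide +kernel)
def c8038 : PP 8 4 T 0x400000000000000000000000000000000011400040920040000156000080050000005405400000000 := rS 0xa0542d94ea54745c9713 (k8 c4341 c6906 c4418 c8037 c1430 c2852 c4521 c2111 (k2 c1746 c7768 k0)) (by decide +kernel)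
def c8039 : PP 8 4 T 0x80000000000000000000000000000000080000000000020000008000000080000000800000000000080 := rS 0x4556e3647890e24d0689d6b430fa4c5aa33fc116667141d417173995446b9728fc7a6f1aa685e4f780cc2e0018a64b2200d9b11653 (k8 c4456 c4427 c704 c2672 c1577 c64 c1131 c317 (k8 c494 c2474 c951 c5814 c4297 c783 c705 c8036 (k8 c1019 c20 c21 c4403 c7514 c833 c3539 c1022 (k8 c4418 c4 c1575 c1576 c2827 c664 c4481 c4313 (k8 c2828 c855 c73 c1101 c4391 c1432 c408 c1447 (k8 c412 c496 c8038 c1424 c312 c1747 c4386 c4492 k0)))))) (by decide +kernel)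
def c8040 : PP 8 4 T 0x10400004021000000144000480000000000002240000000 := rS 0xb58a9c562b7460d91f0d3f9f60917 (k8 c4418 c4481 c4409 c4313 c4381 c1424 c312 c313 (k4 c1747 c625 c4135 c4386 (k2 c1387 c4088 k0))) (by decide +kernel)
def c8041 : PP 8 4 T 0x1000000001000015240000000000000044400000000000545000000000000010000 := rS 0x9acb42b488efd (k4 c4305 c1583 c8024 c716 (k2 c5740 c4282 (k1 c2116 k0))) (by decide +kernel)
def c8042 : PP 8 4 T 0x100000000000020400000000000080000000800000000000080 := rS 0x16a7123c344f1558adc729f4897cc65d001fcfb045999c507505c5ce6551188172e51f8f4de35 (k8 c8036 c1019 c20 c21 c4403 c7514 c1577 c833 (k8 c3539 c1022 c4418 c4 c1575 c1576 c2827 c664 (k8 c4481 c4409 c4313 c494 c2821 c843 c2443 c2893 (k8 c3524 c361 c1747 c625 c7081 c4538 c8021 c6900 (k2 c4135 c7513 (k1 c2121 k0)))))) (by decide +kernel)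
def c8043 : PP 8 4 T 0x80000000000000000000000000000000000000000000020000008000000080000000800000000000080 := rS 0x14338b281a4d5ab488f0d13c551cc963b34a6cf45925a2a30898cba878245c462537ae46ae51f8f566672f9ccaa91141d4169f0fa4e128325a6a262f27945e0330b80062992c880366c (k8 c704 c2672 c1577 c64 c1131 c317 c494 c2474 (k8 c951 c5814 c4435 c4297 c783 c4341 c705 c6906 (k8 c2626 c4319 c73 c1101 c3524 c4 c1575 c1576 (k8 c2893 c3539 c1022 c2443 c2827 c664 c20 c21 (k8 c4403 c8036 c7514 c1019 c8040 c833 c4418 c4481 (k8 c4410 c2821 c843 c2594 c2828 c3697 c3651 c4427 (k8 c4430 c4456 c4460 c8039 c8041 c8042 c4388 c2846 (k8 c8021 c6900 c4467 c7513 c4282 c4371 c2116 c496 (k2 c4425 c8038 k0))))))))) (by decide +kernel)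
def c8044 : PP 8 4 T 0x40000000100020400008000000080000000800000000000080 := rS 0x5333da4c854924222537ae46ae51f8f4be913a82d3e1f49a0d342f27bc066171886cd8ae6252e2f1961accce28103053259319ccaa00 (k8 c494 c3539 c1022 c843 c64 c1131 c8018 c1577 (k8 c1576 c2827 c664 c1211 c4365 c4418 c8043 c4494 (k8 c1786 c704 c2672 c317 c2474 c951 c5814 c4297 (k8 c783 c705 c2626 c73 c1101 c3524 c4 c1575 (k8 c2893 c2443 c20 c21 c4403 c8036 c7514 c1019 (k8 c8040 c2594 c3651 c866 c8042 c8024 c1793 c6996 (k1 c909 k0))))))) (by decide +kernel)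
def c8045 : PP 8 4 T 0x100020800008000000080000000800000000000080 := rS 0x1906150aa1a50d5389e2a650ea8cc65d3fc122e23129bd7235728fc7ab33397ce655488a0ea0b4f87d269a1793de0330b80062992c880366c (k8 c704 c2672 c1577 c64 c1131 c317 c494 c2474 (k8 c951 c5814 c4297 c783 c705 c73 c1101 c3524 (k8 c4 c1575 c1576 c2893 c3539 c1022 c2443 c2827 (k8 c664 c20 c21 c4403 c8036 c7514 c1019 c8040 (k8 c833 c4418 c4481 c4313 c2821 c843 c2828 c763 (k8 c3523 c4388 c2846 c2852 c8021 c4467 c6996 c7768 (k2 c2869 c4060 (k1 c7308 k0)))))))) (by decide +kernel)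
def c8046 : PP 8 4 T 0x1000000020000008010000080000000800000000000080 := rS 0xa7451344e8567d0d8cc847a95762d56a8d3a878208c4a6f5c8d5ca3f1e97d227505a7c3e9341a685e4f780cc2e310d9b196ae6252e2f1961accce28103053259319ccaa00 (k8 c494 c3539 c1022 c843 c64 c1131 c8018 c1577 (k8 c1576 c2827 c664 c1211 c4365 c4418 c8043 c4494 (k8 c1786 c3691 c704 c2672 c317 c2474 c951 c5814 (k8 c4297 c783 c705 c2626 c73 c1101 c3524 c4 (k8 c1575 c2893 c2443 c20 c21 c4403 c8036 c7514 (k8 c1019 c8040 c833 c4481 c4410 c2970 c2828 c2829 (k8 c855 c6875 c1970 c8045 c8042 c8044 c4422 c1793 (k4 c717 c408 c413 c8038 (k2 c909 c8031 k0))))))))) (by decide +kernel)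
def c8047 : PP 8 4 T 0x2000000020000000000000080000000800000000000080 := rS 0x21a271c91a2ab71e8fdca9f4899c506339954ba0011880de35 (k8 c8036 c1019 c1577 c833 c494 c2821 c3539 c1022 (k8 c843 c1576 c2827 c2893 c3524 c4403 c21 c20 (k4 c106 c4389 c7513 c1141 (k2 c4538 c8021 (k1 c6900 k0))))) (by decide +kernel)
def c8048 : PP 8 4 T 0x20000008000000080000000800000000000080 := rS 0xe0bb57312962f198c5346c0bb0586998ca4d5a9d2c800366343c11666714080ea0b8b9ccaab5 (k8 c8047 c3539 c1022 c4418 c4 c1575 c1577 c1576 (k8 c2827 c664 c4481 c4410 c843 c2672 c494 c64 (k8 c2970 c2829 c73 c4365 c1131 c1211 c8018 c2474 (k8 c704 c705 c317 c951 c783 c8043 c4494 c1786 (k2 c6875 c8046 (k1 c707 k0)))))) (by decide +kernel)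
def c8049 : PP 8 4 T 0x20000000020000080000000800000000000080 := rS 0x34e1a271c8322ab1319740023129bd7235728fc7ab33397ce655488a0ea0b4f8803e93 (k8 c73 c1101 c1577 c3524 c4 c1575 c1576 c2893 (k8 c3539 c1022 c2443 c2827 c664 c20 c21 c4403 (k8 c8036 c7514 c1019 c8040 c833 c494 c2821 c843 (k8 c95 c4387 c496 c1137 c4538 c8021 c4371 c4467 k0)))) (by decide +kernel)
def c8050 : PP 8 4 T 0x10000000000000010000000015000800914004100554000000000004005440000000 := rS 0x9ea717c4d5c8b528c4da778c93496d2 (k8 c4467 c4375 c4282 c4448 c1888 c865 c1967 c1971 (k4 c4632 c2120 c4346 c789 (k2 c2853 c4646 (k1 c2111 k0)))) (by decide +kernel)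
def c8051 : PP 8 4 T 0x400002000000000080000000000000000000000001500000000000005400000000000 := rS 0x210f0 (k2 c4469 c4479 (k1 c5101 k0)) (by decide +kernel)
def c8052 : PP 8 4 T 0x800002000000000080000000000400000000000000100400000000004005404000000 := rS 0x529341a4b (k4 c4375 c4371 c4282 c4444 (k1 c4502 k0)) (by decide +kernel)
def c8053 : PP 8 4 T 0x400002000000000080000000001001400800004000000000040000005405000000080 := rS 0x2ea3077521e6124121bc09aa7 (k8 c852 c4282 c4469 c4567 c4433 c5101 c501 c4839 (k4 c1023 c4482 c1429 c4449 k0)) (by decide +kernel)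
def c8054 : PP 8 4 T 0x10002000000000000000000001000020900000000000080000000804004000000080 := rS 0xc33b904604f89a9d8a2f4db443a1b609ed3a89359a400ad43c122eab31995a423129bd7235728fc7ab33397ce655488a0ea0b4f8803e93 (k8 c73 c1101 c1577 c3524 c4 c1575 c1576 c2893 (k8 c3539 c1022 c2443 c2827 c664 c20 c21 c4403 (k8 c8036 c7514 c1019 c8040 c833 c4467 c3523 c843 (k8 c3525 c4418 c4481 c4410 c2829 c494 c2823 c2445 (k8 c4314 c2970 c8048 c8008 c2672 c763 c3697 c8050 (k8 c836 c1787 c852 c8052 c4646 c8053 c1913 c1023 (k2 c1047 c8030 k0))))))) (by decide +kernel)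
def c8055 : PP 8 4 T 0x1000000000000000000000000100000020000000000000080000000800004000000080 := rS 0x66a2d96850c9414f13788c9528141b259ea047235f8b65580c121b3fa24fa878245d6a710692da50d2e800c623129bd7235728fc7ab33397ce655488a0ea0b4f8803e93 (k8 c73 c1101 c1577 c3524 c4 c1575 c1576 c2893 (k8 c3539 c1022 c2443 c2827 c664 c20 c21 c4403 (k8 c8036 c7514 c1019 c8040 c833 c843 c494 c2821 (k8 c8021 c4467 c4375 c4371 c8049 c8047 c4418 c4481 (k8 c4410 c4409 c4314 c4313 c2672 c3 c839 c3525 (k8 c4088 c4480 c1117 c1747 c1746 c3742 c4305 c4306 (k8 c4380 c7768 c8054 c4293 c4339 c2908 c957 c254 (k4 c6224 c5517 c1591 c1868 (k1 c2124 k0))))))))) (by decide +kernel)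
def c8056 : PP 8 4 T 0x1000400001000014004140000000000004008020004000082 := rS 0xee7945b158616219401245 (k8 c1217 c3 c957 c337 c951 c1867 c1595 c1591 (k2 c501 c1833 (k1 c2123 k0))) (by decide +kernel)
def c8057 : PP 8 4 T 0x14000000054000000554000200000004000004000000 := rS 0x36abc62f1 (k4 c4435 c1916 c1593 c5814 (k1 c2120 k0)) (by decide +kernel)
def c8058 : PP 8 4 T 0x1000000010000000014000000054000000554000000000005000004000000 := rS 0x17c4d5c6d (k4 c5814 c2120 c4346 c789 (k1 c4469 k0)) (by decide +kernel)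
def c8059 : PP 8 4 T 0x1000400000004054004040400000000000802000210000080 := rS 0x619dcf2c520a60ea0b (k8 c4 c1575 c317 c1913 c1135 c1928 c1023 c1047 (k1 c2123 k0)) (by decide +kernel)
def c8060 : PP 8 4 T 0x10000000000000010000000014000800914004100556000000000004005440000000 := rS 0xa8 (k2 c8050 c2869 k0) (by decide +kernel)
def c8061 : PP 8 4 T 0x1000000000000000080011011602000020000004140002100000000804000000000000 := rS 0x1868b20b25e1423b85cf3095ba09026c50a74502044a1e0917 (k8 c4418 c4481 c4410 c4314 c1577 c1576 c2970 c7768 (k8 c976 c1361 c977 c1746 c4317 c601 c519 c1152 (k4 c4492 c6833 c4422 c4433 (k2 c644 c1047 (k1 c2123 k0))))) (by decide +kernel)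
def c8062 : PP 8 4 T 0x10011000414000004054005040554000000000804000214000080 := rS 0x30cee41780c4ea0b (k8 c4 c1575 c8059 c8058 c4433 c1023 c1047 c2123 k0) (by decide +kernel)
def c8063 : PP 8 4 T 0x2000000080011000401400000894004040400000000000804401200000080 := rS 0x148bb18c6186772093cea0b (k8 c4 c1575 c4297 c4433 c1023 c1047 c4632 c8030 (k2 c4449 c6996 (k1 c1429 k0))) (by decide +kernel)
def c8064 : PP 8 4 T 0x20000000000000000080000000001400000800000000000000040000004401200000000 := rS 0x528c57643 (k4 c4446 c4449 c316 c1429 (k1 c6996 k0)) (by decide +kernel)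
def c8065 : PP 8 4 T 0x1000000000000000000000000000000020000000000000080000000800004000000080 := rS 0x528c576433b4649e187885e128a3caa54ec517a6cc08e46a1560d286b443a592e88c4a6f5c8d5ca3d2fa453e1f49ad4e233609acd2ad5598cca7b43a2609175999c36004e880e655141d4163f (k8 c21 c4 c1575 c1576 c3539 c1022 c1577 c2970 (k8 c494 c2672 c2827 c664 c4418 c4481 c4314 c4410 (k8 c8048 c3523 c843 c3525 c2829 c2823 c2445 c8008 (k8 c8056 c8049 c8047 c73 c1101 c3524 c2893 c2443 (k8 c20 c4403 c8036 c7514 c1019 c8040 c833 c2821 (k8 c64 c763 c3697 c8021 c4467 c8055 c2696 c1115 (k8 c625 c624 c8060 c836 c1787 c852 c8061 c7360 (k8 c8062 c4322 c525 c8063 c4465 c259 c8064 c4152 (k4 c1887 c1891 c316 c1429 (k1 c6996 k0)))))))))) (by decide +kernel)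
def c8066 : PP 8 4 T 0x1000090200100001000000080000800102000000000004401204000080 := rS 0x103455313d0a52529b59ef118a0c804305bf49709 (k8 c4322 c4375 c4305 c4 c1887 c1023 c2002 c316 (k8 c4433 c1793 c5814 c5936 c7874 c712 c421 c6996 (k2 c4453 c1896 (k1 c4484 k0)))) (by decide +kernel)
def c8067 : PP 8 4 T 0x2000000000001000090200000001000000080004100102000000000114401204000080 := rS 0x4f20b3ca41841bc487183bafc2e79849bc8abd1baec9a4b (k8 c4375 c4282 c4390 c4386 c4354 c1217 c1019 c4322 (k8 c2454 c525 c7782 c8066 c4632 c4446 c5037 c6833 (k4 c4465 c7874 c1793 c1872 (k2 c421 c2114 k0)))) (by decide +kernel)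
def c8068 : PP 8 4 T 0x10011000414000004054004040554000000000804000214000080 := rS 0xb3c0f031 (k4 c8059 c8062 c8058 c500 (k1 c4431 k0)) (by decide +kernel)
def c8069 : PP 8 4 T 0x2000000000001000010200000001000000080004100102000000000014405204000080 := rS 0x69c344639 (k4 c360 c833 c4325 c8067 (k1 c4467 k0)) (by decide +kernel)
def c8070 : PP 8 4 T 0x400000000000000000002000000000091000400500000094004040400000000000800425204008080 := rS 0x30619dd9e852093c16a3 (k8 c2828 c4 c4297 c4433 c1495 c1519 c1023 c1047 (k2 c8031 c8030 k0)) (by decide +kernel)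
def c8071 : PP 8 4 T 0x1000000000000000000000000000000000000000400000000000002000200000402 := rS 0xda05 (k2 c310 c5699 (k1 c7393 k0)) (by decide +kernel)
def c8072 : PP 8 4 T 0x40000000000006800000000000000000011400011501001100000000000000000000000000000000000 := rS 0x30935194caf51ebb (k8 c4390 c4388 c4354 c4443 c4539 c2126 c4494 c2058 k0) (by decide +kernel)
def c8073 : PP 8 4 T 0x6000000000001000010211000011001001080004100510500000000015005204011080 := rS 0x3898d327a0c96f03644d4a8d53c30c2237e8be96515f9e6126f (k8 c1019 c4322 c2454 c7782 c1591 c4427 c7984 c4305 (k8 c833 c8069 c7308 c4532 c4383 c4385 c8072 c4479 (k8 c4469 c4799 c640 c4297 c5264 c2111 c4463 c245 k0))) (by decide +kernel)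
def c8074 : PP 8 4 T 0x10000000000020000000000000080000000800004000000080 := rS 0xc60734c869b89a9d4af0540c57e2f3c9469709453443a112e88c4a5f48a7c3e9319b04d66956aacc6653da1d121b002757a3747bf6860d642de08b3338a040732ac5e28b9728fc7a6f1a9d41649 (k8 c3651 c4 c1575 c8036 c1019 c20 c21 c4403 (k8 c7514 c8065 c4418 c3539 c1022 c1577 c1576 c2827 (k8 c664 c4481 c4353 c7081 c507 c4422 c4305 c4388 (k8 c4386 c4354 c2970 c494 c2672 c4314 c4410 c8048 (k8 c3523 c843 c3525 c2829 c2823 c2445 c8008 c8056 (k8 c73 c1101 c3524 c2893 c2443 c8040 c833 c2821 (k8 c2594 c763 c3697 c8068 c4322 c4427 c1591 c2454 (k8 c7984 c7782 c8071 c8073 c6029 c80 c134 c4345 (k4 c866 c4567 c5504 c4463 (k2 c8024 c8070 k0)))))))))) (by decide +kernel)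
def c8075 : PP 8 4 T 0x20000000000000080000000800004000000080 := rS 0xc62634d4e4f6792de08b89a955231179dd5ccb4d264a34b8cb1190bb47ade284968844462537ae46ae51e97d229f0fa4c8a33609acd2ad5598cca7b43a2609175999c36004e880e655141d4163f (k8 c21 c4 c1575 c1576 c3539 c1022 c1577 c2970 (k8 c494 c2672 c2827 c664 c4418 c4481 c4314 c4410 (k8 c8048 c3523 c843 c3525 c2829 c2823 c2445 c8008 (k8 c8056 c1217 c73 c1101 c3524 c2893 c2443 c20 (k8 c4403 c8036 c7514 c1019 c8040 c833 c2594 c3697 (k8 c3651 c8065 c4353 c4388 c4390 c7081 c8074 c4370 (k8 c4429 c1595 c1135 c1787 c3691 c1786 c3006 c7984 (k8 c317 c866 c1970 c4346 c4632 c8058 c4799 c1792 (k4 c4297 c909 c6996 c2111 (k2 c8024 c413 k0)))))))))) (by decide +kernel)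
def c8076 : PP 8 4 T 0x20000000000000080000000800000000000080 := rS 0x3251e46130440028 (k8 c1576 c494 c2594 c8075 c875 c2845 c1583 c8042 k0) (by decide +kernel)
def c8077 : PP 8 4 T 0x20000000000000000000000800000000000080 := rS 0x2c824020096c0a57140807e0b (k8 c4 c21 c1577 c1576 c2776 c310 c8076 c830 (k4 c4461 c795 c6877 c513 k0)) (by decide +kernel)
def c8078 : PP 8 4 T 0x802000000000000000 := rS 0x68b4 (k2 c1682 c1683 (k1 c7883 k0)) (by decide +kernel)
def c8079 : PP 8 4 T 0x140114001000154405415554000000000000000020000000 := rS 0x2050b085fa6e26ae (k8 c2120 c4346 c2732 c5760 c4479 c4321 c4439 c2122 k0) (by decide +kernel)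
def c8080 : PP 8 4 T 0x140115001000554405415454000000000020025020400081 := rS 0x2994a2f5fc6133093406da691 (k8 c1036 c4373 c688 c8079 c4437 c1880 c4482 c7782 (k4 c4819 c7934 c7959 c4558 k0)) (by decide +kernel)
def c8081 : PP 8 4 T 0x1000000000000000000000000800000000000000000000000000000000800410001 := rS 0x68982e (k4 c772 c773 c4819 c374 k0) (by decide +kernel)
def c8082 : PP 8 4 T 0x1000000000000000000000000000800000000000000040000000000000120400021 := rS 0x362e (k2 c764 c6867 (k1 c4819 k0)) (by decide +kernel)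
def c8083 : PP 8 4 T 0x100000004400000004400600020020200241001100a1 := rS 0x341e01b28864824b18afa249b5394d4ac34cc66127a41a742eab3c9b4e27722acd126343c1026652ab95a6b1079bc38251593d52bd5dc511a220fc354091 (k8 c1036 c1720 c4329 c1098 c1721 c1298 c4486 c4390 (k8 c4354 c7768 c1489 c14 c282 c4466 c3007 c1329 (k8 c1034 c4373 c4402 c1599 c3609 c530 c4464 c4410 (k8 c4407 c4314 c4311 c3233 c3009 c2483 c2679 c2485 (k8 c3610 c532 c1235 c4570 c8080 c4319 c4365 c3015 (k8 c1211 c7884 c333 c8081 c8082 c7035 c2126 c4441 (k8 c1324 c1054 c268 c1725 c689 c4465 c2109 c4298 k0))))))) (by decide +kernel)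
def c8084 : PP 8 4 T 0x10000400000000004008000810024000002000040025000020 := rS 0xd12894de0414e30c2f09 (k8 c4319 c2492 c1211 c561 c1050 c4465 c333 c1685 (k2 c4298 c7855 k0)) (by decide +kernel)
def c8085 : PP 8 4 T 0x800000000001002000000000000010020 := rS 0x1afd (k2 c4306 c2488 (k1 c4199 k0)) (by decide +kernel)
def c8086 : PP 8 4 T 0x10000000000000000000000000000000000200000001100000000000000800000000 := rS 0xbefd (k2 c4380 c3284 (k1 c4477 k0)) (by decide +kernel)
def c8087 : PP 8 4 T 0x8000100000004000040000400600020020200241001100a1 := rS 0x9b899a917193c9d4ee1c468883e9d (k8 c1234 c1098 c1721 c1298 c4466 c3009 c2484 c2485 (k4 c4369 c4632 c8083 c4442 (k2 c1968 c5760 k0))) (by decide +kernel)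
def c8088 : PP 8 4 T 0x100000004000040000400600020020200241001100a1 := rS 0x226a78c2942f4584a117e9d3c9b4e27737871624f54af577144687d228340974c70409994aae586a804461 (k8 c2598 c1721 c1720 c4329 c4402 c1599 c3609 c530 (k8 c4464 c4407 c810 c8086 c8085 c1036 c1098 c1298 (k8 c4486 c4390 c4354 c7768 c1489 c1034 c4466 c3007 (k8 c3009 c2483 c2679 c2485 c1234 c8087 c2122 c4321 (k4 c4397 c523 c1402 c4482 (k2 c8081 c4539 (k1 c4490 k0))))))) (by decide +kernel)
def c8089 : PP 8 4 T 0x20400000000400040002000020020000010081 := rS 0x1834b5f2293b17629d59ea95eaee288d86a8122a71126e121752a64f4582b81006271e19c2aad0e07c423b (k8 c8077 c835 c1098 c4466 c2729 c649 c856 c763 (k8 c2878 c2764 c4461 c1018 c4476 c8088 c3015 c7934 (k8 c2492 c4319 c8082 c1721 c8081 c1036 c1720 c4329 (k8 c1298 c4486 c4390 c4354 c7768 c3733 c2484 c3723 (k4 c4418 c1235 c8083 c2126 (k2 c4427 c1712 (k1 c4572 k0))))))) (by decide +kernel)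
def c8090 : PP 8 4 T 0x100000000000020400000000000040000000020020000010081 := rS 0x1b0c9a8f448a1ae162c75ab4ce66715ab44ec55b9d4e26f2c15d667f3ea1e08130200cca152ab948e3c0e07c423b (k8 c8077 c835 c1098 c4466 c763 c8078 c4402 c1599 (k8 c649 c3609 c2764 c4461 c530 c4464 c4410 c4409 (k8 c4313 c4311 c1018 c4476 c3007 c2483 c2484 c3671 (k8 c3723 c2878 c2729 c14 c856 c1021 c4373 c7883 (k8 c1452 c1034 c2121 c4394 c4473 c8088 c8089 c1919 (k2 c2528 c8084 k0)))))) (by decide +kernel)
def c8091 : PP 8 4 T 0x101405010000001045000008100200000020000400200000a4 := rS 0x274f69b4286c33132b9e4e277 (k8 c3009 c2483 c2485 c1018 c4442 c1919 c2528 c563 (k4 c1968 c8084 c1234 c6745 k0)) (by decide +kernel)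
def c8092 : PP 8 4 T 0x940114001000114405515454000000000000000020000000 := rS 0x34a2e1119 (k4 c4369 c7782 c4632 c4437 (k1 c8079 k0)) (by decide +kernel)
def c8093 : PP 8 4 T 0x2010000000000000000000000015001001514505515454000000000000000820410001 := rS 0x44d4f1852d1612845fac57abb (k8 c4390 c4354 c4349 c8092 c2122 c4321 c4397 c1402 (k4 c4482 c8081 c4539 c4490 k0)) (by decide +kernel)
def c8094 : PP 8 4 T 0x20400000000000040002000010020000010081 := rS 0xc1a5a2836512092d7c1968a9462af8914d36a761a6633093d2742e6b5daf562818a175530d48a0c6ecf112816ad38b99c56ad62add5679369d4c2713b8e48a6f2c15d668931a1e08130200cca3c0a955ca8d0e07c423b (k8 c8077 c835 c1098 c4466 c1027 c4402 c1599 c649 (k8 c763 c3609 c2764 c4461 c530 c4464 c4410 c4407 (k8 c4314 c4311 c1018 c4476 c3007 c3233 c3153 c3009 (k8 c2483 c2598 c2484 c2679 c2485 c3610 c3671 c3723 (k8 c2729 c14 c856 c4418 c4281 c1703 c1720 c1721 (k8 c3733 c323 c8085 c891 c4329 c7768 c810 c4470 (k8 c8086 c4349 c4354 c4390 c8091 c532 c1235 c8093 (k8 c4319 c4365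 c3015 c1211 c8081 c8082 c333 c4488 (k8 c4346 c4441 c4444 c1760 c268 c2126 c1324 c1053 (k4 c1725 c689 c2109 c4427 (k2 c1712 c4572 k0))))))))))) (by decide +kernel)
def c8095 : PP 8 4 T 0x14000000000000000000014000000000000080000100000000000000000000000000000 := rS 0x1834b (k2 c4427 c1712 (k1 c4494 k0)) (by decide +kernel)
def c8096 : PP 8 4 T 0x10000000000000040054008040050004400002400040025400000 := rS 0xa041 (k2 c1050 c7683 (k1 c1685 k0)) (by decide +kernel)
def c8097 : PP 8 4 T 0x100100000800001100450000000001001002000004008150020 := rS 0x7b1c6e0d8a12cba47 (k8 c8078 c813 c1857 c4500 c691 c4386 c330 c265 (k1 c2107 k0)) (by decide +kernel)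
def c8098 : PP 8 4 T 0x100400100041500500058014055021001002000004008110020 := rS 0xfc8645574a75ea0d221354a962519 (k8 c4365 c4488 c4444 c4345 c530 c1155 c642 c1171 (k4 c8097 c2126 c4390 c4486 (k2 c4480 c7315 k0))) (by decide +kernel)
def c8099 : PP 8 4 T 0x100000000000020400008000400040000000000020000010081 := rS 0x10d2e0901cc75c83506b05f90c80f10d22c32d1528c55ea98914d36c34cc66120b4bc5ce66715a8c4ec53a984e24537accfe89319f50f04099942a557291c788d248d42e044e960ae030e07c423b (k8 c8077 c835 c1098 c4466 c2764 c1018 c4476 c1235 (k8 c4461 c532 c8090 c8094 c1027 c763 c8078 c4402 (k8 c1599 c649 c3609 c530 c4464 c4410 c4409 c4407 (k8 c4314 c4313 c4311 c3007 c3233 c2483 c2598 c2484 (k8 c3723 c2878 c2728 c14 c856 c1021 c4418 c103 (k8 c4 c4319 c4365 c3015 c1211 c8082 c333 c4488 (k8 c4345 c4346 c4441 c4444 c1760 c268 c8095 c8096 (k8 c4291 c689 c334 c1053 c8098 c638 c2486 c1203 (k4 c331 c2107 c264 c265 (k2 c4381 c6413 k0)))))))))) (by decide +kernel)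
def c8100 : PP 8 4 T 0x14000000054000000454000200000004000005400000 := rS 0x420d0f1 (k4 c4435 c8057 c4465 c4437 k0) (by decide +kernel)
def c8101 : PP 8 4 T 0x14001000054005401454000800002400000020000000 := rS 0xd2af8444a32994d908822f (k8 c2032 c2035 c332 c764 c1031 c4446 c4488 c4482 (k2 c4346 c4437 (k1 c2120 k0))) (by decide +kernel)
def c8102 : PP 8 4 T 0x100000600000000500050000000021001002000000000150024 := rS 0x21a911217c1cc75c8362a47 (k8 c8078 c4349 c2486 c1203 c331 c2107 c1376 c264 (k2 c1156 c4381 (k1 c4486 k0))) (by decide +kernel)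
def c8103 : PP 8 4 T 0x40000000000006000200000000000000500444000000000001105514000000000000000000000000000 := rS 0x3368acfa1a097089 (k8 c4314 c7081 c7040 c4394 c1525 c4452 c2064 c4495 k0) (by decide +kernel)
def c8104 : PP 8 4 T 0x1000000000001000000000000100040001500000014011001000000000000000100020 := rS 0x218fc3f9f60813 (k4 c530 c4464 c4409 c4313 (k2 c4480 c4486 (k1 c7554 k0))) (by decide +kernel)
def c8105 : PP 8 4 T 0x840000014000040015000040454004001002404040025400000 := rS 0x28b44a68b (k4 c1753 c2023 c1750 c8100 (k1 c7683 k0)) (by decide +kernel)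
def c8106 : PP 8 4 T 0x2000000000000000080000000000000000000204404000000000000000000005000000 := rS 0x784606e4b (k4 c4375 c4386 c7000 c6395 (k1 c5037 k0)) (by decide +kernel)
def c8107 : PP 8 4 T 0x80000000000000000000000000000000000000014000040014000040454004000002404040025400000 := rS 0x2894d16d1 (k4 c4426 c4427 c4456 c8100 (k1 c7683 k0)) (by decide +kernel)
def c8108 : PP 8 4 T 0x6000200000000000080110004014001040100005555450004001002404040025408000 := rS 0x1134dab984696722e10cd4cd1632bea5a0596854498d0ebb638de86b8 (k8 c7081 c4394 c4386 c330 c4390 c4410 c4407 c4314 (k8 c1496 c8105 c8106 c8107 c8103 c4369 c4399 c1133 (k8 c1486 c7782 c4632 c4495 c4437 c1526 c2120 c2058 (k2 c4346 c4488 k0)))) (by decide +kernel)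
def c8109 : PP 8 4 T 0x100000000000020400000000400040000000000020000010081 := rS 0x1331853afd526884a0c30a50d9ed3a174b9ccce2b568cd8aab3c9b4ee8931a1d7abb26bf50a5c120381ad2a1ae22eb73a91d8e378a245627f59a34de582b9c4c2a3248d4fb040999478152ab9408030e07c423b (k8 c8077 c835 c1098 c4466 c2764 c4461 c4402 c1599 (k8 c649 c763 c3609 c530 c4464 c4409 c8090 c8094 (k8 c2728 c2598 c2483 c1018 c4476 c3007 c1027 c4311 (k8 c4313 c8102 c1155 c8104 c4386 c330 c8078 c2484 (k8 c3671 c4418 c7081 c4394 c4473 c4371 c2107 c264 (k8 c265 c3472 c4376 c4282 c4390 c4354 c4410 c4407 (k8 c4314 c3009 c2679 c2485 c3610 c3723 c2959 c2729 (k8 c14 c856 c1021 c103 c532 c1235 c8099 c688 (k8 c1342 c8108 c1998 c4436 c269 c5323 c8092 c813 (k2 c4482 c1880 (k1 c7959 k0))))))))))) (by decide +kernel)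
def c8110 : PP 8 4 T 0x100000000000020400000000000040000000000020000010081 := rS 0x144a6f1180bc9ca8a2a9504bf40a74f69b4586c331334a9cd48586970485f0708c1ad2a1b1d70bb1bc5122b124a346b1715a8d8ab7559e4ea61389dcde582baccfe893ea1e08130200cca152ab948e3c0e07c423b (k8 c8077 c835 c1098 c4466 c763 c8078 c4402 c1599 (k8 c649 c3609 c2764 c4461 c530 c4464 c4410 c4409 (k8 c4314 c4313 c4311 c1018 c4476 c3007 c3009 c2483 (k8 c2598 c2484 c2485 c3610 c3671 c3723 c2728 c14 (k8 c4418 c8090 c1027 c8094 c8102 c1155 c8104 c4386 (k8 c4390 c7081 c330 c4394 c4473 c4371 c4372 c2107 (k8 c1376 c264 c265 c4381 c3472 c8109 c2009 c43 (k8 c4442 c1919 c2528 c564 c1968 c8084 c1234 c8106 (k8 c5760 c6353 c1341 c4452 c4490 c1503 c786 c1504 (k4 c4297 c2289 c1916 c7042 k0)))))))))) (by decide +kernel)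
def c8111 : PP 8 4 T 0x100000000000020000000000000040000000000020000010081 := rS 0x1ec70692444364728d6e713f9f608130200cca152ab948e3c0e07c423b (k8 c8077 c835 c1098 c4466 c763 c8078 c4402 c1599 (k8 c649 c3609 c2764 c4461 c530 c4464 c4409 c4313 (k8 c2483 c3671 c2728 c8110 c761 c760 c323 c1407 (k2 c1449 c1328 (k1 c2107 k0))))) (by decide +kernel)
def c8112 : PP 8 4 T 0x4000000000000000800000200000004000000400000 := rS 0x62f1 (k2 c4435 c1916 (k1 c6097 k0)) (by decide +kernel)
def c8113 : PP 8 4 T 0x40000000800001500000000020005540000 := rS 0x1a02f44a1e08e5 (k4 c4402 c4464 c4410 c4314 (k2 c1838 c2109 (k1 c1761 k0))) (by decide +kernel)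
def c8114 : PP 8 4 T 0x440000501401500000000000000040000104000040820021 := rS 0x2f55299189285cf1 (k8 c4431 c533 c613 c1911 c6171 c787 c1859 c2126 k0) (by decide +kernel)
def c8115 : PP 8 4 T 0x440000501001500001000800000000002504020044120005 := rS 0x465324220948a2174da2c33132a87042ab09810ca4f (k8 c446 c3609 c4461 c530 c3610 c835 c4466 c1599 (k8 c4442 c1919 c564 c1968 c8114 c8112 c8113 c2035 (k4 c332 c1031 c4446 c4488 k0))) (by decide +kernel)
def c8116 : PP 8 4 T 0x20000440000501001500000000000000041000024020060000000 := rS 0x1529b5ea645cae268c5e22b (k8 c14 c4298 c300 c380 c1760 c1761 c6171 c1040 (k2 c2732 c787 (k1 c2126 k0))) (by decide +kernel)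
def c8117 : PP 8 4 T 0x10000000014001000054005401454001000002404000025540000 := rS 0xa253 (k2 c8101 c8100 (k1 c2109 k0)) (by decide +kernel)
def c8118 : PP 8 4 T 0x1000000000010100440014501001515005411454041000002404000125100021 := rS 0x26082bd54a6de08384a282617 (k8 c532 c530 c8117 c4322 c644 c5853 c8082 c5323 (k4 c7175 c4433 c2126 c1031 k0)) (by decide +kernel)
def c8119 : PP 8 4 T 0x100440010501001501005411040040001002524020044120005 := rS 0x132bd54a6cd08384861a2173587042ab4498d0f0409810ca557283dfa4f (k8 c446 c4299 c33 c4402 c1599 c3609 c4461 c530 (k8 c4464 c4410 c4407 c4314 c3610 c835 c4466 c8115 (k8 c532 c8116 c8118 c4436 c1999 c269 c8082 c5323 (k2 c7175 c1880 (k1 c2126 k0))))) (by decide +kernel)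
def c8120 : PP 8 4 T 0x100000010000000000004000040040001002404020000020085 := rS 0x101195d2fd3a1b0a9e4da71021dc726f1a2154ea5864551ab04897d1e1c0f884b057 (k8 c1018 c4476 c835 c1098 c4466 c7008 c2507 c1156 (k8 c608 c3010 c4349 c4486 c4385 c4330 c2692 c609 (k8 c3007 c3153 c3009 c4461 c2483 c2679 c2485 c649 (k4 c688 c1234 c1242 c8119 (k2 c4449 c4945 (k1 c7000 k0)))))) (by decide +kernel)
def c8121 : PP 8 4 T 0x400040008000000024000002000020024100021 := rS 0x890c13a18689445e4115b15128784c65321729b0d670409994aae5 (k8 c4402 c1599 c3609 c530 c4464 c4311 c1211 c333 (k8 c2492 c3015 c4365 c4319 c4410 c4314 c3723 c14 (k8 c1050 c4819 c1685 c1761 c2109 c7855 c268 c4488 (k1 c4441 k0)))) (by decide +kernel)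
def c8122 : PP 8 4 T 0x100000000000020000000000000040000000000020000000081 := rS 0x5408d3abf1890c80f10d22d769b5eb0c2e998cc24f4a55392619425ca362a91638dd1e251a2c0be1005a4e2e67568cd8ab7369d4c2452c15d67040981006651e0703e210a8ecaae5 (k8 c4402 c1599 c8077 c649 c835 c1098 c4466 c763 (k8 c3609 c2764 c4461 c530 c4464 c4311 c1018 c4476 (k8 c3233 c2598 c2484 c2679 c3671 c3723 c2959 c2729 (k8 c856 c4418 c73 c4 c8111 c2507 c608 c609 (k8 c279 c7008 c318 c2284 c1156 c4349 c3010 c1203 (k8 c7999 c4486 c4421 c4330 c4385 c8120 c4319 c4365 (k8 c3015 c2492 c1211 c3023 c8082 c4894 c8095 c8121 (k8 c4291 c689 c334 c295 c3043 c1052 c7320 c7138 (k1 c6029 k0))))))))) (by decide +kernel)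
def c8123 : PP 8 4 T 0x400000000000000000000000000000000000000000000000000000001000000002000020060020080 := rS 0x2362ac7128d160b7 (k8 c3671 c608 c609 c279 c2284 c4349 c3010 c8003 k0) (by decide +kernel)
def c8124 : PP 8 4 T 0x1000000000000000000000000000000000004000000000000020000000011000 := rS 0x1ed3 (k2 c4373 c1329 (k1 c4463 k0)) (by decide +kernel)
def c8125 : PP 8 4 T 0x40000000000000000002100044000000014000000000000400000000140001480000a0 := rS 0x5c1286d155d2fd7aa752aa50b1245a7587194ca0d3631201ea12f136985fb435a9d51a1c (k8 c4466 c1027 c2484 c1704 c4422 c4305 c2598 c2679 (k8 c4291 c4315 c688 c689 c295 c6867 c2621 c6171 (k8 c4365 c1211 c1052 c8095 c4488 c716 c4345 c4444 (k8 c5558 c1172 c1053 c2126 c4390 c1851 c1850 c4492 (k1 c3445 k0))))) (by decide +kernel)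
def c8126 : PP 8 4 T 0x400000000005000000000001000000000005000040001100000014011001000000000000000100020 := rS 0x170b059c10268f (k4 c4521 c530 c4464 c4311 (k2 c8104 c4492 (k1 c1203 k0))) (by decide +kernel)
def c8127 : PP 8 4 T 0x4000000000000000000000000000000000000008100000044000002000020124100021 := rS 0x1169b6185e330962961670409994aae5 (k8 c4402 c1599 c3609 c530 c4464 c4311 c4476 c3723 (k4 c4319 c4365 c2492 c1211 (k2 c8082 c8095 (k1 c8121 k0)))) (by decide +kernel)
def c8128 : PP 8 4 T 0x10000000000000000000002000014001400014004000154000000000000000000000000 := rS 0x448d499 (k4 c1932 c8008 c4488 c4442 k0) (by decide +kernel)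
def c8129 : PP 8 4 T 0x400000000000000000000000000004008140100000000011105414000000000000000000000000000 := rS 0x19b45412fd974b (k4 c4459 c2028 c1216 c2122 (k2 c4452 c2064 (k1 c4495 k0))) (by decide +kernel)
def c8130 : PP 8 4 T 0x10000000000000000000210140514001000014005554054000000000000000000000000 := rS 0x268d4c061b3cd28545c210343 (k8 c4422 c7000 c4482 c4632 c4321 c4437 c1792 c8129 (k4 c2123 c8008 c8128 c1968 k0)) (by decide +kernel)
def c8131 : PP 8 4 T 0x400000000000002000000000000004011140500000000014005554000000000000000000000000000 := rS 0x61a051685 (k4 c4321 c4322 c4439 c8129 (k1 c2123 k0)) (by decide +kernel)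
def c8132 : PP 8 4 T 0x1000000004211140500000020054005554000000404000000000024000020 := rS 0x1818a0296c242d0ca23c (k8 c763 c1684 c4422 c716 c2123 c4459 c8129 c7041 (k2 c6395 c268 k0)) (by decide +kernel)
def c8133 : PP 8 4 T 0x1001000000000000000000000080000000000001400000000000004040000 := rS 0x1a018 (k2 c5853 c7874 (k1 c260 k0)) (by decide +kernel)
def c8134 : PP 8 4 T 0x20000000000000040000000000020000000081 := rS 0x33d165378b0487184e9ec96d263aec6ebd58c50368d1a924228f488356b437eb210e6344ace086f3b9c426613a9e4b0ab5bb14ca042b8f1463301ab438550fc5c2a7333b94423b (k8 c8077 c835 c4402 c856 c1021 c649 c4418 c1098 (k8 c1599 c4466 c2729 c2764 c2959 c2728 c763 c1018 (k8 c4461 c3609 c3723 c3671 c3610 c4476 c2485 c2484 (k8 c2598 c530 c2483 c3009 c3007 c4464 c4311 c4314 (k8 c4407 c4410 c8122 c4305 c4422 c1704 c506 c891 (k8 c4521 c8123 c4199 c8124 c1027 c8125 c8126 c4349 (k8 c4354 c4386 c4390 c330 c8024 c4375 c8127 c1234 (k8 c8130 c4446 c4450 c5037 c332 c8133 c1792 c8132 k0)))))))) (by decide +kernel)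
def c8135 : PP 8 4 T 0x20000001001000000090000100214001001454000400055400000100004000114000002 := rS 0x4c1a1526b18a944aa7862357e9b5dc54ba23 (k8 c4372 c752 c4349 c4449 c4448 c4369 c1116 c4477 (k8 c4500 c4381 c4385 c6820 c493 c6029 c8058 c2126 (k1 c1880 k0))) (by decide +kernel)
def c8136 : PP 8 4 T 0x20000000000000000000000100000000000001000400202140004100000000100000082 := rS 0x13c82830c26422582b824869b (k8 c4448 c4446 c3 c751 c4476 c2592 c1880 c757 (k4 c2001 c5810 c259 c4230 k0)) (by decide +kernel)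
def c8137 : PP 8 4 T 0x1000000010000000014000000054000000154000000000005000004000002 := rS 0x6b (k2 c493 c8058 k0) (by decide +kernel)
def c8138 : PP 8 4 T 0x20000001000000000010000100214000000455000400054440000100150000110000082 := rS 0x4f208c0d2a9303c4369d199b5221e2c15c12bf21aec9a4b2e88da515 (k8 c4349 c4470 c4372 c752 c4375 c4282 c4449 c4446 (k8 c4369 c3 c751 c4476 c487 c3165 c4993 c950 (k8 c4733 c5876 c5090 c8135 c976 c8136 c8137 c1913 (k2 c299 c2114 k0)))) (by decide +kernel)
def c8139 : PP 8 4 T 0x40000000000000000000001001000010000000014000000054000000154000400000004000004000002 := rS 0x6050 (k2 c4475 c8137 (k1 c1916 k0)) (by decide +kernel)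
def c8140 : PP 8 4 T 0x800000080000000000000000000000000000000000000000000 := rS 0x150a0 (k2 c1754 c1755 (k1 c7768 k0)) (by decide +kernel)
def c8141 : PP 8 4 T 0x20000000000001000010200000814040000054000404054040000101000000110000082 := rS 0x571ac2ef034c22965361329784d6923c6f151a8e570855817c1afd0d844666d2c15c1305 (k8 c4311 c3 c751 c4476 c4993 c950 c2592 c5876 (k8 c4305 c2458 c2511 c634 c2699 c635 c1138 c8124 (k8 c4349 c1472 c1475 c4470 c4282 c8138 c1208 c1207 (k8 c2022 c4459 c4485 c4437 c8139 c4431 c492 c2120 (k1 c8140 k0))))) (by decide +kernel)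
def c8142 : PP 8 4 T 0x2000000000000000054000000054000001054000000000000000000000002 := rS 0x349ac5e17 (k4 c4431 c4432 c492 c756 (k1 c2120 k0)) (by decide +kernel)
def c8143 : PP 8 4 T 0x400000000004000000000000000000004205000000000000000000000000000000000000000000000 := rS 0x17315 (k2 c4354 c1207 (k1 c4492 k0)) (by decide +kernel)
def c8144 : PP 8 4 T 0x400000000000000100000000000000100000000000000010810000000000000000000000000000000 := rS 0xfefd (k2 c4306 c676 (k1 c4483 k0)) (by decide +kernel)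
def c8145 : PP 8 4 T 0x24000100000001000010900004014000000054005415154000000000000000004000002 := rS 0x1f960fd5eb0e945328a142c30350cd7ebb5ab0502f157a0cfb43 (k8 c4425 c1628 c8144 c8140 c8142 c1900 c4450 c1708 (k8 c4449 c4369 c950 c2120 c8137 c492 c2441 c1916 (k8 c2030 c4475 c4459 c8143 c6225 c2122 c4483 c675 k0))) (by decide +kernel)
def c8146 : PP 8 4 T 0x20001000000000000000800100000000000005405410000000000000000000000000000 := rS 0xfc (k2 c5740 c6225 k0) (by decide +kernel)
def c8147 : PP 8 4 T 0x400000000020000000001001000000000100000000000000000000000000445510150000000000000 := rS 0x18c4c69afc86bb (k4 c4449 c4446 c4369 c6022 (k2 c2114 c4473 (k1 c412 k0))) (by decide +kernel)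
def c8148 : PP 8 4 T 0x24000000000001000000900000014000000014004000050040000008000000000000082 := rS 0x1fa7f070349c3958a106abd23b0ca25320d28302e4c85e126841bc46eaf259f56b430d9b4e2792c15cdeb73b98caa0982a2d64d122b049212 (k8 c1178 c1718 c4450 c1217 c458 c1177 c722 c4311 (k8 c3 c248 c755 c3190 c3171 c3189 c751 c4476 (k8 c2433 c2431 c4993 c5876 c4425 c1708 c1628 c1861 (k8 c8140 c403 c8142 c8144 c8145 c4437 c7300 c1880 (k8 c756 c757 c4485 c5810 c2032 c1876 c4459 c1588 (k8 c8143 c1182 c8146 c714 c1137 c8147 c1488 c258 (k2 c514 c4376 (k1 c7351 k0)))))))) (by decide +kernel)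
def c8149 : PP 8 4 T 0x400000000000000100000000000000100000000000000000010000000000080000000000002480000 := rS 0x7e9fc1c0d (k4 c1488 c258 c514 c4376 (k1 c4483 k0)) (by decide +kernel)
def c8150 : PP 8 4 T 0x400000000020000000001001000000000120000000000000000000000000541110150000000000000 := rS 0xc62511da643 (k4 c4446 c6022 c1315 c8147 (k2 c4473 c1454 k0)) (by decide +kernel)
def c8151 : PP 8 4 T 0x400000000020001100001001000000100120000040000004000004055000400110540000094480002 := rS 0x2e97d427f460958e346993ca21821924fa27 (k8 c352 c1355 c1718 c4446 c4465 c1876 c8149 c6022 (k8 c8150 c1452 c1370 c1099 c515 c4212 c489 c1337 (k1 c4560 k0))) (by decide +kernel)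
def c8152 : PP 8 4 T 0x400000000020001100000001000010514105014040000054004404054020000010440000014080082 := rS 0x2050a30351a42c83309f562395c3c59a5367abe941e389e4666d22afd76c1 (k8 c4450 c4449 c4369 c1217 c4993 c950 c2433 c2431 (k8 c487 c4485 c4428 c4430 c4456 c4460 c8142 c2129 (k8 c3211 c1204 c1355 c616 c8144 c8151 c7300 c2120 (k4 c8137 c2441 c3817 c2122 k0)))) (by decide +kernel)
def c8153 : PP 8 4 T 0x400000000020002100000000000000100120000000000010005414000000000000000000000000000 := rS 0x208fab15faed0a81 (k8 c4439 c4321 c4449 c4369 c1204 c1355 c2122 c8144 k0) (by decide +kernel)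
def c8154 : PP 8 4 T 0x1000000000000000000001000000010000000014000000054000000154000014800004000004000002 := rS 0x2794460d3 (k4 c4374 c8137 c1916 c1494 (k1 c4474 k0)) (by decide +kernel)
def c8155 : PP 8 4 T 0x400000000020000000000001000000504101000000020014004000050020000008000000014000082 := rS 0x273c09a0e231f09745410e628355ca04d21942c206f171d9c4f21137adc24c53b8ccda632ac1546ad55c412e0945ac9a2455f90d7641 (k8 c1183 c4449 c4446 c4369 c1217 c458 c1177 c722 (k8 c3 c103 c4499 c4415 c4338 c4337 c4311 c248 (k8 c755 c4993 c950 c3190 c3264 c1178 c3171 c3189 (k8 c2592 c2433 c2431 c8077 c4418 c403 c8152 c4321 (k8 c4436 c4437 c4439 c8153 c1181 c4492 c4347 c7040 (k8 c4452 c1855 c8144 c1562 c1563 c244 c8154 c2114 (k1 c4297 k0))))))) (by decide +kernel)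
def c8156 : PP 8 4 T 0x1000000000000000000000000000000000000020000000000000008410000000000080 := rS 0x1bb4c7246069541212 (k8 c1178 c3 c248 c1292 c1562 c1138 c4374 c1412 (k1 c4470 k0)) (by decide +kernel)
def c8157 : PP 8 4 T 0x400000000000000000000000000000100002000044001000000010054020000009400000000000080 := rS 0x11c5e86975f87d309fd1a358a9d60ab2 (k8 c1177 c4311 c538 c4389 c1308 c1387 c1433 c617 (k4 c8156 c4483 c4377 c7315 (k2 c4254 c4486 (k1 c1425 k0)))) (by decide +kernel)
def c8158 : PP 8 4 T 0x400000000020000000000001000000504001000000020014004000050020000008000000014000082 := rS 0x2f62eb7 (k4 c3171 c4418 c8143 c8155 k0) (by decide +kernel)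
def c8159 : PP 8 4 T 0x400000000024002100000000000000100105014000000054005414054000000108004000004090002 := rS 0x1049ef0268388c7c25d1504398a0d572d15f90d763742864d281 (k8 c4439 c4437 c4436 c4321 c403 c4449 c4446 c4369 (k8 c458 c8153 c1181 c4492 c4347 c7040 c4452 c1855 (k8 c8144 c1562 c1563 c244 c8154 c4297 c4433 c2114 k0))) (by decide +kernel)
def c8160 : PP 8 4 T 0x400000000020000000000001000000500000000000020014004000050020000001000000004000082 := rS 0x2e62abc8452d84b50e9c4f21137adc2477199b5221e319560aa356a7d57104b8248a8b590f87717 (k8 c4418 c8077 c4471 c1177 c722 c1217 c3 c103 (k8 c4499 c4415 c4414 c4338 c4337 c4311 c248 c755 (k8 c487 c3165 c4993 c950 c3190 c1178 c3171 c3189 (k8 c2592 c2433 c2431 c763 c8157 c8158 c4459 c4485 (k4 c8159 c4354 c1208 c4492 k0))))) (by decide +kernel)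
def c8161 : PP 8 4 T 0x1000100000000000000100000000054000000050000054020000800010004000000002 := rS 0xc00c2e97c4ad3 (k4 c4374 c1371 c489 c4833 (k2 c4522 c4560 (k1 c503 k0))) (by decide +kernel)
def c8162 : PP 8 4 T 0x200014010001054000001156040000000000000000000000 := rS 0x15ca635a3e1aa5 (k4 c1939 c4325 c848 c621 (k2 c6223 c2120 (k1 c908 k0))) (by decide +kernel)
def c8163 : PP 8 4 T 0x100000000000000100000014850000054050001155000000000000000000000002 := rS 0x83351795e5d (k4 c2714 c908 c4560 c2120 (k2 c2436 c2008 k0)) (by decide +kernel)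
def c8164 : PP 8 4 T 0x1020000000000000000100000000054000000050000055020000000010000000000002 := rS 0x174be25 (k4 c4381 c4382 c4833 c2118 k0) (by decide +kernel)
def c8165 : PP 8 4 T 0x100000000000000100200014054001054050000154060000000050000000000002 := rS 0xba5f12a3a1aa7309b4e315 (k8 c4354 c2431 c4993 c8162 c8163 c8164 c6223 c1423 (k2 c1425 c4833 (k1 c2118 k0))) (by decide +kernel)
def c8166 : PP 8 4 T 0x500200014054400054040000050040000008450000000000082 := rS 0xa64733e1a8da51855299849a0fa8152c54ee910f160ae632a8260ab2 (k8 c1177 c4311 c3 c248 c755 c751 c4476 c487 (k8 c3165 c3190 c4354 c1939 c1898 c8156 c8165 c4437 (k8 c1880 c2719 c885 c4485 c1119 c8164 c4430 c4486 (k2 c4855 c852 k0)))) (by decide +kernel)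
def c8167 : PP 8 4 T 0x80000000000020000000000000000001410115000000000000000000000000000000000000000000000 := rS 0xc367afd76c1 (k4 c4450 c4449 c4369 c4430 (k2 c4459 c2129 k0)) (by decide +kernel)
def c8168 : PP 8 4 T 0x100000000054000800040000051020000008450000000000082 := rS 0x5d3e97c4b153898caa09 (k8 c3 c248 c755 c2431 c4388 c1423 c1425 c8156 (k2 c4833 c2118 k0)) (by decide +kernel)
def c8169 : PP 8 4 T 0x10000000014000000054000000154000000020004000014000002 := rS 0x62f1 (k2 c4433 c1913 (k1 c8137 k0)) (by decide +kernel)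
def c8170 : PP 8 4 T 0x40000000000000000000000001000010040000014000000054000000154000080000004000004000002 := rS 0xa6f1 (k2 c4297 c420 (k1 c8139 k0)) (by decide +kernel)
def c8171 : PP 8 4 T 0x20002000000000000000100000000054000000045414055000020000150000000080002 := rS 0x2f208fa5d8a03da6bf5da143281 (k8 c4439 c4436 c4321 c4449 c4369 c4282 c244 c4470 (k4 c753 c1563 c7040 c2118 (k1 c2436 k0))) (by decide +kernel)
def c8172 : PP 8 4 T 0x40000000000000000000000001000011000000014000000054000000154000008000004000004000002 := rS 0xa6f1 (k2 c4434 c2036 (k1 c8139 k0)) (by decide +kernel)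
def c8173 : PP 8 4 T 0x20002000000000000000100100000054000000045414055000044110150000000080002 := rS 0x26afc86bb (k4 c4449 c4446 c4369 c8171 (k1 c2114 k0)) (by decide +kernel)
def c8174 : PP 8 4 T 0x20002000000000000000100100000054000000044000051020044018450004000000082 := rS 0x10c3ea362a38479c4f26f091dd221e319541245 (k8 c1217 c3 c248 c755 c487 c3165 c3190 c1178 (k8 c3189 c2433 c2431 c8168 c8173 c4347 c1114 c8156 (k2 c4486 c8164 k0))) (by decide +kernel)
def c8175 : PP 8 4 T 0x40000000000020000000000001000001140100014054000014044000050040000008410004110000082 := rS 0x1cac11e0d7e97cc04b27904d2858406cee3336960ae632a8260a8b593448a37 (k8 c402 c1217 c458 c1177 c722 c4311 c3 c248 (k8 c755 c751 c4476 c4993 c950 c3190 c5876 c4485 (k8 c4321 c4437 c8169 c8170 c8172 c8174 c66 c4301 (k4 c503 c848 c616 c1138 (k1 c8138 k0))))) (by decide +kernel)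
def c8176 : PP 8 4 T 0x800000000020000000000000000005004110000044000000000000050020000008450000000000082 := rS 0x11f0d309f51b155a32d427f5bb15221e3195412bf5db0592b2 (k8 c1177 c635 c4450 c4449 c4369 c3 c248 c755 (k8 c487 c3165 c3264 c3171 c4392 c4423 c4425 c2129 (k4 c4389 c1387 c8156 c617 (k2 c8164 c8168 (k1 c4486 k0))))) (by decide +kernel)
def c8177 : PP 8 4 T 0x400000000000000100000000000000000000000000000008010000000000080000000000006480000 := rS 0x19081 (k2 c1360 c8149 (k1 c1733 k0)) (by decide +kernel)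
def c8178 : PP 8 4 T 0x1000000000000000004200000000021000404110050000000008050000000000082 := rS 0x50940b52f835a4393f975626164b1cfafc5cc562e3b5b848ee632ac1564a34fc412e09 (k8 c3 c103 c4499 c4414 c4337 c1177 c4311 c248 (k8 c755 c3190 c1178 c3171 c8077 c4418 c4354 c1207 (k8 c7175 c8156 c7557 c635 c4301 c4303 c4377 c515 (k8 c1137 c4470 c4371 c488 c4254 c4560 c4492 c4423 k0)))) (by decide +kernel)
def c8179 : PP 8 4 T 0x20000000000001000000000010000000020008004000050020000001050000004000082 := rS 0x2f9fd42252e918980f27a10c227409f496b11cb2a28b5a1b24f26f5bb14c7055928d3e455f90d76c12985c92cf189ad57104b814da4178b357a832804830152a825867784a443c711f0ee2e75 (k8 c538 c4418 c8077 c4471 c2431 c487 c3165 c4440 (k8 c3190 c1906 c3 c248 c649 c7313 c1178 c1564 (k8 c3901 c8178 c3783 c4435 c1183 c4993 c2 c103 (k8 c4499 c4415 c1924 c7393 c3513 c3647 c1837 c1903 (k8 c4450 c4449 c4446 c4369 c1217 c4414 c4337 c1177 (k8 c4311 c755 c3264 c3171 c3189 c2433 c635 c8176 (k8 c8157 c4492 c2129 c4347 c4349 c1861 c3510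 c1901 (k8 c352 c616 c2122 c8177 c1495 c2114 c8147 c753 (k4 c284 c1585 c1312 c489 (k1 c2118 k0)))))))))) (by decide +kernel)
def c8180 : PP 8 4 T 0x20000000000001000000000000000000020008004000050020000001050000004000082 := rS 0x18c4a6993c8e7d1cd0d70bd3a9c4de910f415644521c24a61724905867778a0d9a180a9541250090f87717 (k8 c4418 c8077 c4471 c1178 c1564 c3 c248 c649 (k8 c7313 c3783 c3901 c4435 c3190 c1906 c1183 c3647 (k8 c1837 c1903 c4440 c4446 c1217 c1177 c4311 c487 (k8 c3165 c3189 c2431 c538 c8178 c8179 c4394 c3211 (k4 c1355 c1315 c8177 c6022 (k2 c8147 c4473 (k1 c1453 k0))))))) (by decide +kernel)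
def c8181 : PP 8 4 T 0x44000000000004054020000008420000110080002 := rS 0x2e97cfe6113a304ac7698e43c11 (k8 c2592 c487 c19 c4373 c1452 c1370 c1099 c352 (k4 c4213 c515 c489 c1337 (k1 c4259 k0))) (by decide +kernel)
def c8182 : PP 8 4 T 0x1000040040440000044000001145414055501041150150004000810000 := rS 0x4c0692cf8825ea859314 (k8 c4470 c8024 c4212 c4354 c7040 c2118 c1855 c1292 (k2 c2114 c1991 k0)) (by decide +kernel)
def c8183 : PP 8 4 T 0x1000000080400420000000000000000000000000800150040000000000000 := rS 0x13d7acf (k4 c1525 c1208 c421 c6022 k0) (by decide +kernel)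
def c8184 : PP 8 4 T 0x400000000004000000000000000000000455800000000001155414000000000000000000000000000 := rS 0x20e28fc (k4 c4531 c4492 c4306 c7040 k0) (by decide +kernel)
def c8185 : PP 8 4 T 0x440000000000000100000000220000150010400111000082 := rS 0x5e93c964d1cc504a37110381205 (k8 c2 c3 c753 c752 c6960 c1336 c4833 c240 (k4 c244 c1333 c1490 c4354 (k1 c2114 k0))) (by decide +kernel)
def c8186 : PP 8 4 T 0x22000000000001000000000000800044000001140404055501101010110004000980000 := rS 0x27b4d8e463e285fac9410dd62453dafc86795dc14e211 (k8 c2597 c2465 c4311 c4449 c4447 c4446 c4369 c4365 (k8 c4363 c4349 c4386 c7040 c634 c4306 c5930 c2118 (k4 c1562 c1352 c4374 c1494 (k1 c8182 k0)))) (by decide +kernel)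
def c8187 : PP 8 4 T 0x20000000000000000000000000000000020020040000001400000008100000000000082 := rS 0x5050992b9690dd6a7d8a9262e7b3cb956e773a8f60a71288550af165a443c5d1aa7d4710319bcca6717ab536810b064aa095d90d7e4520948761d4b960ae212d8496427 (k8 c870 c1177 c1178 c2464 c830 c3188 c4476 c103 (k8 c1179 c8077 c517 c2035 c4363 c4369 c4446 c4449 (k8 c3 c248 c2039 c516 c3936 c4448 c860 c2032 (k8 c856 c553 c3189 c755 c4499 c4337 c4414 c8181 (k8 c8185 c487 c3165 c3923 c4431 c2472 c649 c1863 (k8 c2465 c4311 c90 c499 c3190 c3171 c4287 c4447 (k8 c4365 c4418 c370 c8186 c8156 c4254 c403 c4470 (k4 c8183 c635 c8184 c4560 (k1 c4423 k0))))))))) (by decide +kernel)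
def c8188 : PP 8 4 T 0x20000000000000000000000000000000020020040000001400000008000000000000082 := rS 0xa164924fac75cc55a63872ade0a5d1aa7d4710319bcca6717ab536810b064aa095d90d7e4520948761d4b960ae212d8496427 (k8 c870 c1177 c1178 c2464 c830 c3188 c4476 c103 (k8 c1179 c8077 c517 c2035 c4363 c4369 c4446 c4449 (k8 c3 c248 c2039 c516 c3936 c4448 c860 c2032 (k8 c856 c553 c3189 c755 c4499 c4337 c4414 c8181 (k8 c8185 c4311 c3171 c4287 c8187 c4279 c4347 c3211 (k4 c411 c8156 c371 c635 (k2 c4212 c4560 k0))))))) (by decide +kernel)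
def c8189 : PP 8 4 T 0x20000000000000000000000000000000000020000000000800000008010000000000082 := rS 0x8a8dda63941831627b5f9e5766f3b9c5648540858a412 (k8 c1178 c517 c516 c3936 c2472 c1177 c2465 c3190 (k8 c3189 c4449 c4447 c4369 c4365 c2434 c488 c2436 (k4 c1137 c4371 c1407 c7040 (k1 c4470 k0)))) (by decide +kernel)
def c8190 : PP 8 4 T 0x24000000000000000000000000000000000000000000002000800018004404180800080 := rS 0x44c6298532f09ec75cb4a2a37268e5608c478361a455f90d6e112c15cb612593c59691 (k8 c3165 c3923 c4431 c1177 c1178 c2464 c3188 c4476 (k8 c2597 c3171 c4446 c4369 c4363 c4325 c503 c848 (k8 c617 c616 c1138 c1991 c273 c4349 c4213 c8183 (k8 c7557 c420 c6022 c6223 c1119 c2006 c4443 c4469 k0)))) (by decide +kernel)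
def c8191 : PP 8 4 T 0x24000000000001000000000004800000000020080404000001000000000000000180000 := rS 0xd3278e5784d0633d62c6419ed8abb609c6968578a042c52 (k8 c517 c516 c3936 c4431 c2472 c4457 c2465 c4450 (k8 c4449 c4370 c4365 c2469 c515 c2468 c1521 c7517 (k4 c1990 c5956 c411 c421 (k2 c4371 c7460 k0)))) (by decide +kernel)
def c8192 : PP 8 4 T 0x20000000000000000000000000000000000020000000000000000008100000000000082 := rS 0x1414264ae5a4375a9f62a493d9e4ea3d389450a7f3baddca1578b2d225d4086576435f914c2272f8d53ea38818caa09378740a333687842411d8bd5a658299cb0572dac92669290582517 (k8 c4355 c1178 c516 c517 c7300 c3131 c1177 c2464 (k8 c3188 c4476 c657 c4311 c2437 c6230 c2032 c21 (k8 c2035 c830 c487 c4993 c950 c2489 c1026 c3189 (k8 c3 c248 c755 c4478 c4337 c4414 c8181 c8189 (k8 c7417 c8190 c4363 c4369 c4446 c4449 c2039 c3936 (k8 c8185 c3165 c3923 c4431 c649 c4287 c3171 c3190 (k8 c8191 c2472 c1863 c2465 c90 c499 c4447 c4365 (k8 c370 c8186 c8156 c4254 c403 c4470 c8183 c635 (k2 c8184 c4560 (k1 c4423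 k0)))))))))) (by decide +kernel)
def c8193 : PP 8 4 T 0x20000000000000000000000000000000000020000000000000000008000000000000082 := rS 0x325427d5ca362a384a9844e5f2e8d45e9f51ab52310328cc3c63109157e435dc14da6749874b0572d814327f3badcdeb22a825ca158b9a5021620948243b (k8 c21 c1178 c517 c2035 c516 c3936 c7300 c4355 (k8 c649 c4287 c3 c248 c1177 c3189 c3171 c3190 (k8 c8191 c2039 c2489 c2464 c3188 c4476 c1026 c3131 (k8 c657 c4993 c4311 c4449 c4446 c4369 c4363 c830 (k8 c755 c487 c950 c2437 c4478 c3165 c6230 c4337 (k8 c4414 c2032 c8181 c8185 c8189 c7417 c8190 c8188 (k8 c8192 c4347 c1114 c3211 c8156 c4551 c635 c2118 k0))))))) (by decide +kernel)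
def c8194 : PP 8 4 T 0x8000000200000080 := rS 0x222634a0b0523b1e99cb0572d8496493 (k8 c3131 c1177 c1178 c2464 c3188 c4476 c657 c90 (k4 c21 c835 c400 c401 (k2 c1558 c4331 (k1 c4535 k0)))) (by decide +kernel)
def c8195 : PP 8 4 T 0x40000001400000008200000000000080 := rS 0x142c924974fa2563ae62ad372ade0a911aa7d47104b98caa0937994ce931d89c001e10874b0572d81424b2 (k8 c1177 c1178 c2489 c2464 c3188 c4476 c1026 c8194 (k8 c4466 c1098 c870 c21 c3131 c657 c2437 c3189 (k8 c3 c248 c755 c3204 c4499 c4337 c4414 c8181 (k8 c3165 c4311 c3171 c4287 c4279 c4347 c3211 c411 (k4 c281 c8156 c4833 c371 (k2 c635 c4212 (k1 c4560 k0))))))) (by decide +kernel)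
def c8196 : PP 8 4 T 0x5000100000000000000100014000044001000050100055500000000000000000000000 := rS 0x50940b5 (k4 c4254 c4560 c4492 c4423 k0) (by decide +kernel)
def c8197 : PP 8 4 T 0x1000000000000000000000000000000000000000000000220000000010000000000012 := rS 0x25 (k2 c1336 c4833 k0) (by decide +kernel)
def c8198 : PP 8 4 T 0x21000000000000000000000000000000020000040000001400000008000000000000080 := rS 0xa12e196c9438dd6a5d3e86dcb175b9dda2453a8f5167b48ab51305558d53ea38825cc655049bcca000f0740a2133960ae5b092c9263b (k8 c21 c3131 c1177 c1178 c2464 c3188 c4476 c657 (k8 c8194 c2489 c1026 c4466 c1098 c2437 c3189 c3 (k8 c248 c755 c3204 c4499 c4337 c4414 c8181 c4415 (k8 c4311 c8193 c4903 c3165 c4365 c722 c90 c499 (k8 c4363 c458 c3190 c3171 c4355 c4287 c688 c8156 (k8 c8197 c4254 c403 c8180 c8141 c8148 c8196 c8160 (k1 c4394 k0))))))) (by decide +kernel)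
def c8199 : PP 8 4 T 0x22000000000000000000000000000000020000040000000000000008000004000000080 := rS 0x52d42cd5cb1e84cb43b256a375eac58a1b3d8f5cb175bab51305558d53ea38825cc655049bcca000f0740a2133960ae5b092c9263b (k8 c21 c3131 c1177 c1178 c2464 c3188 c4476 c657 (k8 c8194 c2489 c1026 c4466 c1098 c2437 c3189 c3 (k8 c248 c755 c3204 c4499 c4337 c4414 c8181 c4415 (k8 c4311 c8193 c4903 c3171 c4355 c4287 c90 c4365 (k8 c688 c4370 c4349 c4354 c4386 c4389 c634 c8180 (k8 c8148 c8160 c4391 c4394 c4395 c4423 c8167 c8175 k0)))))) (by decide +kernel)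
def c8200 : PP 8 4 T 0x20000000000000000000000000000000020000040000001000000008000000000000080 := rS 0x1bb4c720c5897a2a27388d53ea38825cc655049bcca000f0740a2133960ae5b092c9263b (k8 c21 c3131 c1177 c1178 c2464 c3188 c4476 c657 (k8 c8194 c2489 c1026 c4466 c1098 c2437 c3189 c3 (k8 c248 c755 c3204 c4499 c4337 c4414 c8181 c2465 (k8 c870 c8199 c8198 c2434 c488 c1137 c4371 c1407 (k1 c4470 k0))))) (by decide +kernel)
def c8201 : PP 8 4 T 0x20000000000000000000000000000000020000040000000000000008000000000000080 := rS 0x50af196c9438e46e2742ac1188f7e97cc09b0d8f5cb173bb448a8b3dab51305558d53ea38825cc655049bcca000f0740a2133960ae5b092c9263b (k8 c21 c3131 c1177 c1178 c2464 c3188 c4476 c657 (k8 c8194 c2489 c1026 c4466 c1098 c2437 c3189 c3 (k8 c248 c755 c3204 c4499 c4337 c4414 c8181 c4415 (k8 c4311 c8193 c4903 c4365 c722 c4363 c458 c3190 (k8 c4355 c4287 c90 c688 c4448 c8200 c66 c4301 (k8 c848 c617 c616 c2694 c7417 c273 c1114 c8180 (k4 c8141 c8148 c8138 c5930 (k1 c8166 k0)))))))) (by decide +kernel)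
def c8202 : PP 8 4 T 0x20000000000000000000000000000000020000000000000000000008000000000000080 := rS 0x65a1c6eb5a1b24fc1b3d8f5cb1738ab51305558d53ea38825cc655049bcca000f0740a2133960ae5b092c9263b (k8 c21 c3131 c1177 c1178 c2464 c3188 c4476 c657 (k8 c8194 c2489 c1026 c4466 c1098 c2437 c3189 c3 (k8 c248 c755 c3204 c4499 c4337 c4414 c8181 c4415 (k8 c4311 c8193 c4903 c2465 c4355 c4287 c90 c4365 (k8 c688 c8201 c126 c4392 c1433 c403 c8180 c8148 (k1 c8160 k0)))))) (by decide +kernel)
def c8203 : PP 8 4 T 0x80000000000020200000000000000000000000010000054002000401000000000000000000000000002 := rS 0xd3134c30d5e9d62a6d82ab (k8 c4415 c4450 c4448 c4370 c4367 c4428 c4459 c7287 (k2 c4553 c1880 (k1 c5976 k0))) (by decide +kernel)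
def c8204 : PP 8 4 T 0x20200100000000000000000004010000054050080415000001000008010000004180002 := rS 0x4f2093430c329a1a964b84a117b1440b4c6e390603d6ac641914f6bf219e576e5 (k8 c4287 c4449 c4447 c4446 c4369 c4365 c4363 c2469 (k8 c515 c1433 c1456 c7517 c411 c403 c4371 c3418 (k8 c4470 c4354 c7040 c4321 c1320 c8203 c4485 c1903 (k4 c1906 c7313 c412 c1183 (k2 c258 c2114 k0))))) (by decide +kernel)
def c8205 : PP 8 4 T 0x20200100000000000000000000010000054052000401004000000000000000000000002 := rS 0x6989a6186af4352e129d62a6d82ab (k8 c4415 c4450 c4448 c4370 c4367 c4321 c8203 c4485 (k4 c1632 c1906 c7287 c4553 (k2 c1880 c5976 k0))) (by decide +kernel)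
def c8206 : PP 8 4 T 0x20600000000000000000004000000000010008000401004000000000000000000000000 := rS 0x13068579ae129d62a6d82ab (k8 c4415 c4450 c4448 c4370 c4367 c4440 c1924 c1632 (k2 c4479 c7287 (k1 c1880 k0))) (by decide +kernel)
def c8207 : PP 8 4 T 0x40000000000000000000000001000010000000054000000054000001154000000000004000004000002 := rS 0x29059e26a (k4 c2120 c8142 c492 c8139 (k1 c2030 k0)) (by decide +kernel)
def c8208 : PP 8 4 T 0x40000000000000000000000001000010000000014000000054000000154000000000004000004800002 := rS 0xa6f1 (k2 c4431 c2030 (k1 c8139 k0)) (by decide +kernel)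
def c8209 : PP 8 4 T 0x22002000002000000000000000000000000004000000000000000018000000000000080 := rS 0x142501844eb51baf562393cc5c22333fa546a9f369c42a3b5b86d92d1459ec8aab56a260aa38825cc655049dcde3d328003c1d02885ca672c15d265b092c89e4b (k8 c4434 c4297 c1177 c1178 c2464 c3131 c3188 c4476 (k8 c657 c4287 c8194 c2489 c1026 c4466 c1098 c2437 (k8 c90 c3189 c3190 c3 c248 c755 c3204 c4499 (k8 c4337 c4311 c8193 c4903 c4415 c4363 c4365 c722 (k8 c458 c8141 c688 c3171 c21 c649 c2465 c4993 (k8 c4414 c8181 c8202 c8204 c432 c2597 c4355 c4447 (k8 c4347 c4349 c4354 c4386 c4389 c352 c616 c8174 (k2 c8159 c4423 k0)))))))) (by decide +kernel)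
def c8210 : PP 8 4 T 0x20002000002000000080000000000000000004000000000000000008040000000000080 := rS 0x503f5789b3fa546a9f369c42a3b5b86d96c968a2c8aa331954ee6f1e9ed57104b8255a8982994001e108740ae533960ae932d8496517 (k8 c4355 c1177 c1178 c2464 c3131 c3188 c4476 c657 (k8 c4287 c2489 c1026 c8194 c4466 c1098 c2437 c4311 (k8 c8193 c4903 c3 c3204 c4499 c4415 c4365 c90 (k8 c3189 c3190 c248 c755 c4337 c4363 c722 c458 (k8 c8141 c8148 c688 c3171 c21 c649 c2465 c4993 (k8 c4414 c8181 c8202 c8204 c4448 c5090 c5101 c8166 (k1 c5930 k0))))))) (by decide +kernel)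
def c8211 : PP 8 4 T 0x40000000000000008200000000000080 := rS 0xbe6158234001e10874b0572d81424b2 (k8 c1177 c1178 c2489 c2464 c3188 c4476 c1026 c8194 (k4 c4466 c1098 c3123 c1137 (k2 c617 c2434 (k1 c8195 k0)))) (by decide +kernel)
def c8212 : PP 8 4 T 0x21002000002000000000000000000000000004000000000000000008040000000000080 := rS 0x1a6393fa546a9f5198d5a658819d129700078421d029b4b0572d9c51705590547677092dcde5504a4c367b (k8 c4365 c688 c3131 c3 c248 c3189 c3171 c1178 (k8 c3190 c21 c649 c1177 c4311 c722 c2465 c2464 (k8 c3188 c4476 c4993 c2489 c1026 c8194 c4466 c1098 (k8 c3204 c8193 c657 c4499 c2437 c4903 c755 c4337 (k4 c4414 c8181 c8202 c8204 (k2 c8211 c8210 (k1 c4470 k0))))))) (by decide +kernel)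
def c8213 : PP 8 4 T 0x20002000002000000000000000000000000004000000000100000018000000000000080 := rS 0xc25f5a2386c7d8a9d47a913fa546a9f5198d5a658819d129700078421d029b4b0572d9c51705590547677092dcde5504a4c367b (k8 c4365 c688 c3131 c3 c248 c3189 c3171 c1178 (k8 c3190 c21 c649 c1177 c4311 c722 c2465 c2464 (k8 c3188 c4476 c4993 c2489 c1026 c8194 c4466 c1098 (k8 c3204 c8193 c657 c4499 c2437 c4903 c755 c4337 (k8 c4414 c8181 c8202 c8204 c3165 c90 c499 c8209 (k4 c8156 c8212 c273 c403 (k2 c1425 c848 (k1 c4254 k0)))))))) (by decide +kernel)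
def c8214 : PP 8 4 T 0x44001000050110054140000008080000080000000 := rS 0x3097d688e (k4 c273 c403 c1425 c848 (k1 c4254 k0)) (by decide +kernel)
def c8215 : PP 8 4 T 0x40000000000021000000000000000000004000000000000000000000000100000008000000000000080 := rS 0x1788f8693cc0c72fa9d720d26b486e7d5f90cea911c9fc6a9f3885476b765b25466f1ec5c606b0b949e24134c210f134ea6d8ac14a9b4eed145aae209756a260a632a82466453286cf6000f0843a057299cb0572d8496493 (k8 c3131 c1177 c1178 c2464 c3188 c4476 c657 c4287 (k8 c2489 c1026 c8194 c4466 c1098 c4365 c688 c2437 (k8 c4363 c432 c3 c248 c755 c4311 c8193 c4903 (k8 c3204 c4499 c4415 c722 c458 c3190 c4993 c8202 (k8 c4450 c4370 c4448 c4367 c4553 c8206 c4485 c4437 (k8 c1183 c8213 c8139 c8208 c492 c8058 c4355 c90 (k8 c3189 c4337 c8141 c8148 c3171 c21 c649 c2465 (k8 c4414 c8181 c8204 c8211 c3165 c499 c4446 c4369 (k8 c8156 c8214 c4470 c4282 c4371 c8183 c2006 c488 (k4 c7557 c8196 c8170 c4325 (k2 c848 c6022 (k1 c6223 k0)))))))))))) (by decide +kernel)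
def c8216 : PP 8 4 T 0x40000000000022000000000000000000000000000000000004000000000000000008000000000000080 := rS 0x50b1d9b42412d57abf3caee2e1119a144e393fa546a9f369c42a3b5b86d92d122aad5aa38825cc655049dcde3d32b94ce9340c21167b448003c210e960ae5b0284a0ab2 (k8 c1177 c4311 c1178 c2489 c2464 c3188 c4476 c1026 (k8 c8194 c4466 c1098 c8193 c4365 c722 c4485 c4439 (k8 c3131 c657 c4287 c2437 c90 c3189 c3190 c3 (k8 c248 c755 c3204 c4499 c4337 c4903 c4415 c4363 (k8 c458 c8141 c688 c3171 c21 c649 c2465 c4993 (k8 c4414 c8181 c8202 c8204 c8211 c352 c8205 c432 (k8 c2597 c4355 c4449 c4447 c4369 c4354 c4389 c7040 (k4 c8159 c2064 c4391 c4423 (k1 c8175 k0))))))))) (by decide +kernel)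
def c8217 : PP 8 4 T 0x40000000000020000000000000000000004000000000000000000000000000000008000000000000080 := rS 0xbb1543c4d3ac54db04ee6d56a260aab1aa7d47104b98caa0937994001e0e81442672c15cb6125924c7695 (k8 c8202 c21 c3131 c1177 c1178 c2464 c3188 c4476 (k8 c657 c8194 c2489 c1026 c4466 c1098 c2437 c3189 (k8 c3 c248 c755 c3204 c4499 c4337 c4414 c8181 (k8 c4415 c4311 c8193 c4903 c4993 c3190 c4450 c4448 (k4 c4370 c4367 c4553 c8206 (k2 c8216 c8197 (k1 c8215 k0))))))) (by decide +kernel)
def c8218 : PP 8 4 T 0x40000000000020000000000000000000000000000000000000000000000000000008000000000000080 := rS 0x5e23e1a4f3031cbea75c8349a5218348d6f11b85c825d3e9a62b0865b250ec25f90dcb17689d47a911991556393fa546a9f5198d5a658819d129700078421d029b4b0572d9c51705590547677092dcde5504a4c367b (k8 c4365 c688 c3131 c3 c248 c3189 c3171 c1178 (k8 c3190 c21 c649 c1177 c4311 c722 c2465 c2464 (k8 c3188 c4476 c4993 c2489 c1026 c8194 c4466 c1098 (k8 c3204 c8193 c657 c4499 c2437 c4903 c755 c4337 (k8 c4414 c8181 c8202 c8204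 c8211 c4415 c4363 c432 (k8 c3165 c90 c499 c458 c4355 c4287 c4446 c4369 (k8 c8217 c1906 c8141 c8148 c4485 c8216 c4437 c8156 (k8 c8197 c8169 c8208 c8214 c8213 c492 c4470 c8058 (k8 c8139 c4282 c4371 c8183 c2006 c488 c7557 c8196 (k4 c8170 c4325 c848 c6022 (k1 c6223 k0))))))))))) (by decide +kernel)
def c8219 : PP 8 4 T 0x20000000000000000000000000000000000000010000000000000008000000000000080 := rS 0x2f572a1a13f504373aa44fe710aadc368567b3596c9688f5cb172ea04601617864d4694c2bd167b43c4d3a9b62aad8295369dd5a898280c82c3a52ec86bf228d53ea38825cc655049bcca67498ec001e0e960ae5b028496421 (k8 c8194 c1177 c1178 c2489 c2464 c3188 c4476 c1026 (k8 c4466 c1098 c21 c3131 c657 c2437 c3189 c3 (k8 c248 c755 c3204 c4499 c4337 c4414 c8181 c4363 (k8 c4369 c4446 c4449 c8218 c4459 c1183 c222 c4311 (k8 c8193 c4903 c3190 c4993 c8202 c4450 c4415 c4370 (k8 c4448 c4367 c4553 c8206 c4365 c722 c4428 c7287 (k8 c1880 c2120 c1919 c1840 c492 c493 c3817 c8185 (k8 c4355 c4287 c90 c458 c8141 c8148 c4460 c4430 (k8 c8205 c688 c3171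 c649 c2465 c8204 c3165 c499 (k8 c8214 c2124 c4306 c8144 c5930 c4394 c8166 c8176 k0)))))))))) (by decide +kernel)
def c8220 : PP 8 4 T 0x20000000000000000000000000000000000000000000000000000008000000000000080 := rS 0xb45e8de28b950918f8cb64a1e26cd61d28fe951aaad3ea356c41126531a5c001e10874ce6d2c014b67145c142ad13b95c24b737ac8aa938bb947a3b049153ac54db04367b (k8 c4365 c688 c4450 c4448 c4370 c4367 c4363 c3 (k8 c21 c90 c4287 c4355 c3131 c248 c1177 c3189 (k8 c3171 c1178 c3188 c3190 c458 c649 c4311 c722 (k8 c2465 c2464 c2489 c4476 c4993 c657 c1026 c8194 (k8 c4466 c1098 c3204 c755 c2437 c8193 c4499 c4903 (k8 c4337 c4414 c4415 c8181 c8202 c8204 c8218 c4459 (k8 c4460 c4553 c8206 c8141 c8148 c8219 c1562 c1624 (k4 c1355 c8156 c1412 c8166 (k2 c8167 c4389 k0))))))))) (by decide +kernel)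
def c8221 : PP 8 4 T 0x40005000000000000020004000000000405550000000010000 := rS 0x17249 (k2 c1623 c1355 (k1 c2113 k0)) (by decide +kernel)
def c8222 : PP 8 4 T 0x100000000000000100000000000000000050000055000002000000014000000002 := rS 0x44a086974befc0789686d3158154710 (k8 c4478 c4337 c2 c4191 c4281 c4421 c282 c243 (k4 c4483 c489 c753 c7315 (k2 c4560 c4467 (k1 c770 k0)))) (by decide +kernel)
def c8223 : PP 8 4 T 0x2000100000000000000015440814000000054055405045000000144410000080000002 := rS 0x13240342bda26ba521102837e50d70495baf46e715a89c72c958b1ca62923945c83d159940b17 (k8 c4357 c2 c2437 c4191 c274 c4471 c4405 c4404 (k8 c4402 c4290 c4289 c4349 c634 c4347 c352 c4389 (k8 c4387 c4386 c4354 c4353 c8222 c2113 c4394 c4483 (k8 c8144 c4380 c2122 c7834 c2441 c4426 c4428 c2120 (k2 c2115 c1880 (k1 c1103 k0)))))) (by decide +kernel)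
def c8224 : PP 8 4 T 0x22000100000000000000004000814000000054000405045000000004410000084010002 := rS 0x4c900d0d118d28d70942205067e3ebc4a24729b1dc83d15914f6bf6290cf2bb6081472b15baf46e715a8ce2e65 (k8 c2437 c4357 c950 c4389 c4387 c4386 c4354 c4353 (k8 c4349 c4347 c2 c4450 c4449 c4447 c4446 c4370 (k8 c4369 c4365 c4363 c4191 c274 c4471 c4289 c4290 (k8 c4404 c4405 c5577 c8221 c8223 c676 c1462 c2122 (k8 c4321 c2441 c4485 c7393 c4426 c8137 c2115 c1880 (k1 c1103 k0)))))) (by decide +kernel)
def c8225 : PP 8 4 T 0x100100001000000000000000000000010056000401100040500144400000110000002 := rS 0x82d14cd2a2509 (k4 c4321 c5976 c4485 c4443 (k2 c4426 c5810 (k1 c6784 k0))) (by decide +kernel)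
def c8226 : PP 8 4 T 0x800000000002000000000002000000000000000000000000000000000000000001410000000000000 := rS 0x12572395b8dd6a47 (k8 c4404 c4389 c4386 c4353 c4347 c4394 c4421 c7430 k0) (by decide +kernel)
def c8227 : PP 8 4 T 0x22000100000000000000004000014000000054000545005040000004010000194110002 := rS 0xfefd4020e86853ebc4a24729b1dc83d34a562266648ee2eb2229ed7ec5219e576c11cac56ebd1b9c56a97 (k8 c6579 c4389 c4387 c4386 c4354 c4353 c4349 c4347 (k8 c4450 c4449 c4447 c4446 c4370 c4369 c4365 c4363 (k8 c2123 c4357 c1042 c634 c8224 c4333 c856 c924 (k8 c275 c4471 c4289 c4290 c4404 c4405 c4986 c8221 (k4 c8225 c8226 c8144 c2122 (k2 c6225 c1462 (k1 c4483 k0))))))) (by decide +kernel)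
def c8228 : PP 8 4 T 0x28000100000002000000004000014000010080000000040000000000005000004000002 := rS 0x44c5e98498615f10788a4269d62a6d823d (k8 c4416 c4450 c4448 c4370 c4367 c4401 c4402 c5577 (k8 c5056 c5815 c5853 c4413 c7287 c3776 c7641 c4469 k0)) (by decide +kernel)
def c8229 : PP 8 4 T 0x28001000000000000000004000014000054000000401404000000000000000000000000 := rS 0x57a64d1134eb1536c1 (k8 c4450 c4448 c4370 c4367 c7641 c4479 c1880 c828 (k1 c2127 k0)) (by decide +kernel)
def c8230 : PP 8 4 T 0x2000001000000000020204440000000000094405544000001000400000000004080000 := rS 0x1cd363a010a190b2c57a7184ace86cf (k8 c1793 c4422 c722 c4322 c4387 c4354 c4349 c1759 (k4 c260 c2479 c2122 c7341 (k2 c8106 c1835 (k1 c7240 k0)))) (by decide +kernel)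
def c8231 : PP 8 4 T 0x2000100000001000000015440000000008094045544000001000154411100004080000 := rS 0x49638359a826811d907d1514c5239588dca2b91ec45fab55bc596671 (k8 c4387 c722 c4481 c4353 c4389 c7787 c4413 c4416 (k8 c4548 c1591 c4386 c4349 c4347 c1568 c4712 c4468 (k8 c3576 c5124 c3580 c2115 c8230 c2064 c2461 c461 (k2 c1719 c2113 k0)))) (by decide +kernel)
def c8232 : PP 8 4 T 0x22000100000000000000004000014000000014000545005040000004010000194110002 := rS 0xa474414c9fcaa12891915f11493952b16189ad6667a5c2514453dafd8a433caed8203028cd2e2d (k8 c392 c6579 c950 c2 c1 c4450 c4449 c4447 (k8 c4446 c4370 c4369 c4365 c4363 c8227 c4322 c4427 (k8 c720 c722 c2442 c7393 c4481 c5073 c8228 c8229 (k8 c4413 c1778 c4478 c4491 c490 c1647 c2438 c4443 (k4 c5810 c8231 c1567 c1102 k0))))) (by decide +kernel)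
def c8233 : PP 8 4 T 0x2000001000000000000215450010000000094005544000001000555010080014080000 := rS 0x49638359a826814c76395b8dd6a51 (k8 c1591 c4389 c4386 c4353 c4347 c1641 c293 c2115 (k4 c8230 c2064 c2461 c461 (k2 c1719 c2113 k0))) (by decide +kernel)
def c8234 : PP 8 4 T 0x40000000000022900001000001000000200000050000000000000004001000100000000140000000002 := rS 0x5d86a314e6917b4450654ea451e5f (k8 c2435 c4388 c4351 c4367 c491 c4468 c1760 c7984 (k4 c756 c4532 c4539 c4383 (k2 c1337 c7308 k0))) (by decide +kernel)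
def c8235 : PP 8 4 T 0x22900001000001000000204010050000000094000544001001000415010100014000002 := rS 0x7834026531d8a88a7b5fb1486795db069651 (k8 c1591 c4427 c4450 c4449 c4447 c4446 c4370 c4369 (k8 c4365 c4363 c8234 c1641 c293 c8233 c2115 c8133 (k1 c4298 k0))) (by decide +kernel)
def c8236 : PP 8 4 T 0x2a000200000000000000004000014000000014000545005040000004010100014010002 := rS 0x2e19788ec265372105331257c448e92643f52a3d5c91486b15b9c56a973f954fb09a59ad14b3609e4f6c5 (k8 c4370 c4365 c4447 c4450 c4311 c2123 c2442 c4427 (k8 c4322 c4409 c4406 c4313 c6579 c4389 c4387 c4353 (k8 c4349 c4446 c4363 c4361 c4416 c4418 c7787 c2121 (k8 c8229 c1583 c4413 c1778 c4491 c4443 c5810 c8235 (k4 c4290 c4401 c4403 c5577 (k2 c4503 c524 (k1 c4465 k0))))))) (by decide +kernel)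
def c8237 : PP 8 4 T 0x22820000000000000000000000000000000000000000000000000000000000000000000 := rS 0x8d53a75228f (k4 c4388 c4351 c4367 c4330 (k2 c4383 c4539 k0)) (by decide +kernel)
def c8238 : PP 8 4 T 0x1000000000000000000000000000000000000400000000000020000000004400000 := rS 0x32f1 (k2 c4433 c1872 (k1 c4465 k0)) (by decide +kernel)
def c8239 : PP 8 4 T 0x28400000000000000000001000010001000080000401010000000000000000000000002 := rS 0x4455e9934424d6ab62a6d8695 (k8 c4418 c4362 c4448 c4370 c1673 c2442 c4322 c4479 (k4 c1880 c2720 c7287 c5443 k0)) (by decide +kernel)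
def c8240 : PP 8 4 T 0x2a000000000000000000000000014000000014000545005040000004010100084110002 := rS 0x8287442c3 (k4 c4362 c57 c10 c8236 (k1 c8232 k0)) (by decide +kernel)
def c8241 : PP 8 4 T 0x2a000000000000000000000000010001000080000555051040000004000000084110002 := rS 0x7e974be7f4609608348898e1a9957c492ac343a243aab608b58a9b599ed6eb5 (k8 c4389 c4353 c4365 c722 c4448 c4370 c910 c1712 (k8 c1673 c10 c157 c53 c4362 c4418 c8239 c4346 (k8 c4443 c8237 c1768 c7287 c8240 c4478 c1370 c1099 (k4 c4313 c489 c1337 c7787 (k1 c4477 k0))))) (by decide +kernel)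
def c8242 : PP 8 4 T 0x40000000000020000002000000000000400020000000000000041410000000000000000000000000000 := rS 0xcda2a117acfa19ed7e83 (k8 c4306 c4369 c4365 c4394 c1525 c1208 c6225 c4397 (k2 c1481 c4495 k0)) (by decide +kernel)
def c8243 : PP 8 4 T 0x2000000000020000000000000000000000000100000000000501414000000000000000000000000000 := rS 0xbd429ed7ebb (k4 c4449 c4369 c4365 c4397 (k2 c4454 c2122 k0)) (by decide +kernel)
def c8244 : PP 8 4 T 0x1000002000000000000000200000000000200000401400000000010115000100000000 := rS 0x5e6989b493037 (k4 c1384 c1119 c4470 c4443 (k2 c1880 c1840 (k1 c8051 k0))) (by decide +kernel)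
def c8245 : PP 8 4 T 0x1000202000000000000011202004000441001000511451000000154511000100000002 := rS 0x26184530c0a47a684aa4953114f29cbe8e468cc5a832ea061aa33e98cfea5 (k8 c1939 c4313 c4407 c4409 c1436 c7315 c4380 c4377 (k8 c4306 c910 c950 c8244 c4486 c1425 c852 c4254 (k8 c4414 c1510 c1428 c1699 c2119 c1655 c3516 c757 (k4 c4712 c4503 c4958 c1880 k0)))) (by decide +kernel)
def c8246 : PP 8 4 T 0x1000000000000000000000000000200000000401400000000000000000000000000 := rS 0xd313 (k2 c4443 c1880 (k1 c4479 k0)) (by decide +kernel)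
def c8247 : PP 8 4 T 0x2000000000000011202504000441001050555441000000114101000080000002 := rS 0x196083b8badc3a2121c546ac9 (k8 c4305 c3104 c4354 c276 c57 c10 c106 c4419 (k4 c6954 c5124 c4165 c8245 k0)) (by decide +kernel)
def c8248 : PP 8 4 T 0x4000000000000000000000000000000000000000100000000000004400000000080000 := rS 0x7ae5 (k2 c4401 c1678 (k1 c4471 k0)) (by decide +kernel)
def c8249 : PP 8 4 T 0x5000002000000000000000000000000000000050010000001000405510000000150000 := rS 0x1b031a6c724b91920f (k8 c4376 c4305 c4471 c4209 c4289 c6684 c2107 c4470 (k1 c1407 k0)) (by decide +kernel)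
def c8250 : PP 8 4 T 0x200100000041081404555041000000114101000080110002 := rS 0x94150f02655820ee2ec223b316cb5649f5f8b9408d68b1543c26966b55b0566c54dc61967f (k8 c724 c1753 c4632 c4448 c4370 c722 c1712 c1673 (k8 c2442 c4427 c4322 c53 c4354 c4454 c3104 c1898 (k8 c1208 c7175 c1773 c4305 c8247 c2121 c7649 c1587 (k8 c2068 c4362 c1047 c4481 c4406 c8248 c8249 c274 (k2 c275 c3676 k0))))) (by decide +kernel)
def c8251 : PP 8 4 T 0x800000000000000000000000100001041081405555041000000114101000080110002 := rS 0xb90d4617d4f14403f57a9935aa54abf84a6d7718 (k8 c4632 c4449 c4448 c4322 c7782 c4444 c4345 c2442 (k8 c8246 c8250 c6225 c2122 c4480 c5558 c1381 c7247 (k2 c8237 c4477 (k1 c1337 k0)))) (by decide +kernel)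
def c8252 : PP 8 4 T 0x20800001000000000000000500500000000080010154001100004114101000084000016 := rS 0x5c0f5ca7f0933432f1271346ac91208c1e0c2f4356a375bc5086bb (k8 c4449 c276 c4480 c4353 c4386 c4389 c8237 c4477 (k8 c488 c1376 c1296 c489 c2435 c1100 c284 c2114 (k8 c4297 c258 c3453 c5853 c725 c4401 c1678 c2121 (k1 c7514 k0)))) (by decide +kernel)
def c8253 : PP 8 4 T 0x40000000000022000002000000000000400000500000000000051554000000000000000000000000000 := rS 0x5c3256eb5 (k4 c4389 c4353 c4305 c2121 (k1 c8242 k0)) (by decide +kernel)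
def c8254 : PP 8 4 T 0x22000002000000000000000000500001000080011555041040000004000000084110002 := rS 0xad8b1960a7e44d2d96c9 (k8 c4305 c1752 c4427 c157 c8253 c4313 c2438 c4481 (k2 c4903 c8241 k0)) (by decide +kernel)
def c8255 : PP 8 4 T 0x11000444001540000080140044000000000000000000000002 := rS 0x187104ac58cb05 (k4 c4313 c2438 c4481 c5073 (k2 c4478 c4362 (k1 c7223 k0))) (by decide +kernel)
def c8256 : PP 8 4 T 0x5000002000000000000000000000000000000050010000001000005510000000150000 := rS 0x8ce4 (k2 c4471 c8249 (k1 c4404 k0)) (by decide +kernel)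
def c8257 : PP 8 4 T 0x20000002000000000000000000500001000082041555041040000004100000084110002 := rS 0x6ed30611c78132a8ed8e3524c5e08b45bae62acb07b2696c5a29f50ecd (k8 c1481 c53 c1502 c4397 c4370 c4427 c4305 c4376 (k8 c1752 c8254 c8242 c7551 c2121 c5124 c4419 c1703 (k8 c7789 c1432 c6954 c4406 c8248 c8256 c8078 c2107 (k2 c4371 c1407 (k1 c4470 k0))))) (by decide +kernel)
def c8258 : PP 8 4 T 0x100001041080405555141040000104100000084110016 := rS 0x2f5fa5d3e92d0887189057e7f4db1630b357c48c69935c2582ab (k8 c1673 c1712 c4322 c2442 c8246 c1769 c4479 c4346 (k8 c722 c4632 c4370 c4448 c8255 c7782 c5810 c7393 (k8 c53 c8251 c1320 c1502 c1498 c8257 c7175 c8252 k0))) (by decide +kernel)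
def c8259 : PP 8 4 T 0x100000000080004000100000000000000000080000080 := rS 0x171188f5ea9e287d2f92dfa81410fd7f18599142a794e9cd226f4b80c12710d844ea67188143a414c9dcb621891b4d600848e4c258 (k8 c1097 c616 c1137 c4322 c1098 c2442 c4993 c4479 (k8 c57 c495 c3101 c8246 c5810 c10 c527 c7393 (k8 c2703 c2432 c2592 c2669 c2431 c3 c222 c3204 (k8 c3099 c3165 c3100 c3247 c2454 c2701 c1217 c722 (k8 c4632 c7782 c1177 c8258 c50 c4306 c1855 c2515 (k8 c1773 c4480 c4532 c4354 c4388 c4539 c8252 c1337 k0)))))) (by decide +kernel)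
def c8260 : PP 8 4 T 0x2000000000000000000000500000000000000400004000000044150100000000008000 := rS 0x268d46ebb (k4 c4390 c4386 c1329 c245 (k1 c2114 k0)) (by decide +kernel)
def c8261 : PP 8 4 T 0x2000000000000000000020400500000000002050154000000000000000000000000000 := rS 0x190cb5cadd6acd (k4 c1481 c4389 c4353 c1255 (k2 c1757 c2121 (k1 c717 k0))) (by decide +kernel)
def c8262 : PP 8 4 T 0x12000000000000000000004400500000000082050154000000100154010000000002000 := rS 0xeca648653207ab98b3158ec15bad5a2f0 (k8 c4472 c4298 c4389 c4353 c1712 c1447 c8261 c8095 (k8 c4361 c4416 c2121 c717 c507 c2023 c1723 c2115 k0)) (by decide +kernel)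
def c8263 : PP 8 4 T 0x10800001000000000000004500500000000080400154044000000154110000004010002 := rS 0x3958e488832d986582b24fc7d0621102d326424a22d1baeda20f2593de114 (k8 c4480 c4472 c4297 c4434 c8260 c4298 c4390 c4386 (k8 c910 c1591 c4322 c2114 c4282 c1895 c4248 c4463 (k8 c1773 c8262 c126 c4313 c2438 c725 c1752 c4478 (k4 c2063 c4246 c4498 c7979 k0)))) (by decide +kernel)
def c8264 : PP 8 4 T 0x10800001000000000000004500500000000080400154045000000154100000084010002 := rS 0x8697d18251a1741e1d8a13c96f0 (k8 c4472 c4434 c4297 c4480 c10 c8260 c753 c8263 (k4 c1370 c1099 c489 c4383 (k1 c4477 k0))) (by decide +kernel)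
def c8265 : PP 8 4 T 0x1000000000000000000000000000000000000001100000000020000080000002 := rS 0x10d2fa304a1d (k4 c10 c1370 c1099 c489 (k2 c4383 c4477 k0)) (by decide +kernel)
def c8266 : PP 8 4 T 0x800400000000080080014000000000000000000000000000 := rS 0x172cc (k2 c725 c7096 (k1 c1485 k0)) (by decide +kernel)
def c8267 : PP 8 4 T 0x10245004000000000002000100000000100154010000000002000 := rS 0xeca6c51e9219412 (k8 c506 c717 c507 c1678 c1756 c2023 c1723 c2115 k0) (by decide +kernel)
def c8268 : PP 8 4 T 0x40000000000010000000000000000001005020000000000000000000000000000000000000000000000 := rS 0x18b17 (k2 c4361 c1255 (k1 c4494 k0)) (by decide +kernel)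
def c8269 : PP 8 4 T 0x10800001000000000000004100500000000080400154141000000154100000084010002 := rS 0x63831a70c2fb2172cd3f8d41e5d421f503455f3449ef084d2ca2c131add6b14 (k8 c4480 c4389 c4353 c1769 c1712 c1591 c4427 c4322 (k8 c4472 c4297 c4298 c8264 c4399 c1363 c1773 c4484 (k8 c1498 c1495 c8265 c8266 c1481 c8268 c2121 c2435 (k4 c4477 c5204 c4463 c1447 (k1 c8267 k0))))) (by decide +kernel)
def c8270 : PP 8 4 T 0x1001000000240000001500000001500001501001000000001000000010002 := rS 0x480734cb85f (k4 c2435 c2119 c5947 c753 (k2 c8024 c242 k0)) (by decide +kernel)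
def c8271 : PP 8 4 T 0x10000001000000000000004100500000000080401155141000000014101000084010102 := rS 0x923506afd00c753a159e47642e4facb72c58fed00915476160c8f5e2445a8dd6f1428b0486a952c48d709 (k8 c4322 c2442 c4479 c4444 c4345 c276 c1712 c1591 (k8 c4480 c4353 c4386 c4389 c8269 c4295 c445 c256 (k8 c7132 c1223 c1767 c5853 c525 c2482 c8248 c4401 (k8 c3680 c3692 c4361 c2121 c1583 c1793 c2479 c7484 (k4 c7341 c8270 c1363 c1294 (k2 c1221 c4199 (k1 c2113 k0))))))) (by decide +kernel)
def c8272 : PP 8 4 T 0x11000000000000000000000500000800001000000000000000000000000000000000000 := rS 0x17745 (k2 c4453 c1979 (k1 c4493 k0)) (by decide +kernel)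
def c8273 : PP 8 4 T 0x10800002000000000000400108000000001001000010500000000000100000080000002 := rS 0x34c6e0c2f29d7e358aa94ba81 (k8 c4380 c4377 c4444 c4353 c3103 c1247 c8272 c4130 (k4 c488 c1407 c4371 c4470 k0)) (by decide +kernel)
def c8274 : PP 8 4 T 0x40000000000010000002000000000000005014500000000000040154000000000044100000080110000 := rS 0x1e84d883b1ac5e2a555a411927d (k8 c4379 c4305 c5124 c2121 c4406 c4389 c4419 c7789 (k4 c6954 c4494 c8248 c1783 (k1 c8256 k0))) (by decide +kernel)
def c8275 : PP 8 4 T 0x10800002000000000000400108000000001000000010500000000000100000080000002 := rS 0xbba2a117f15 (k4 c4353 c1247 c8273 c4397 (k2 c1441 c4493 k0)) (by decide +kernel)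
def c8276 : PP 8 4 T 0x500000000080040000100000000000000000080000080 := rS 0x2fa9d451178115c8174a8f50a1362195983b8bae296154bb045a4357a94ba815bb2d92fc618fd066120a64ee5b108c40a1d339d4221b379ccf2095ec64f439891b6126b389612200 (k8 c1098 c3165 c1097 c2431 c2442 c4322 c4993 c4479 (k8 c1137 c8259 c4365 c1171 c3 c2454 c3100 c3099 (k8 c2669 c2592 c2432 c2703 c10 c527 c7393 c57 (k8 c495 c3101 c8246 c5810 c616 c642 c1177 c1211 (k8 c8271 c4305 c1752 c8275 c4380 c4377 c4444 c4346 (k8 c276 c910 c1712 c3204 c2701 c4427 c8274 c4361 (k8 c3106 c8268 c4165 c4494 c8248 c1481 c1783 c1786 (k8 c524 c4471 c1218 c4472 c4498 c5821 c941 c1466 (k1 c4130 k0))))))))) (by decide +kernel)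
def c8277 : PP 8 4 T 0x500000000080000000100000000000000000080000080 := rS 0xd58c122a8ddcad18a3c096bba293c8b105fa102e65829f9960f64bf1863f04a1d134b0a9e4e66f3886c22751699c86310287482993b96c4263891b4d600848e4c2588ca0d7a7a (k8 c8259 c1171 c642 c4365 c1097 c616 c1137 c4322 (k8 c1098 c2442 c4993 c4479 c1769 c57 c495 c3101 (k8 c8246 c5810 c10 c527 c7393 c276 c2703 c910 (k8 c2432 c2592 c2669 c2431 c3099 c3100 c2454 c2701 (k8 c4427 c157 c53 c3 c1177 c1211 c8271 c4305 (k8 c4376 c1752 c8276 c4313 c2438 c2482 c724 c8266 (k8 c4478 c1218 c4501 c4397 c1441 c1320 c4472 c4493 (k8 c4298 c4498 c4386 c4151 c4464 c515 c7786 c4246 k0)))))))) (by decide +kernel)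
def c8278 : PP 8 4 T 0x10140000000000080080010000000045158110000000000000 := rS 0x4d5f8dd98b5 (k4 c1433 c725 c403 c1486 (k2 c2063 c2114 k0)) (by decide +kernel)
def c8279 : PP 8 4 T 0x100000001000000500000000000000000050000055100021000001004000000002 := rS 0x284bec712b4d4710 (k8 c4478 c4337 c4282 c284 c413 c489 c4212 c4560 k0) (by decide +kernel)
def c8280 : PP 8 4 T 0x100000001000000118100040000001082000110151040045118111000080000002 := rS 0x6979a4c75091e86ce5c2f89a373f974fabb4390c4ecb51a7e2063 (k8 c1769 c4478 c4414 c4337 c1752 c352 c276 c53 (k8 c1441 c1502 c1498 c8278 c8214 c8279 c2114 c1215 (k8 c1216 c4394 c1315 c1794 c1519 c4473 c4560 c4371 (k1 c488 k0)))) (by decide +kernel)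
def c8281 : PP 8 4 T 0x1100000001000000108800040000000001440004055000041000010000000000002 := rS 0x6979a45d63a848e7da1bf19c815c5154710 (k8 c4478 c4337 c4399 c1215 c1363 c1216 c4484 c4394 (k8 c1355 c1315 c1794 c1519 c4377 c4473 c4560 c4371 (k1 c488 k0))) (by decide +kernel)
def c8282 : PP 8 4 T 0x100000001000000500500000000000000040000055900045150151004000000002 := rS 0x1751426b4cfa0c (k4 c488 c1380 c4371 c8279 (k2 c4470 c2114 (k1 c4390 k0))) (by decide +kernel)
def c8283 : PP 8 4 T 0x100000001000000508500000000001000050100055100045150151004000000002 := rS 0x2e96a4d51a7e205f (k8 c8282 c4478 c4414 c4337 c8279 c4254 c2114 c2061 k0) (by decide +kernel)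
def c8284 : PP 8 4 T 0x500000000000000420004000000044158510000000080080 := rS 0x2280e (k2 c1563 c8156 (k1 c8260 k0)) (by decide +kernel)
def c8285 : PP 8 4 T 0x40000000000004800000000000000000011400010001001000000004000220000000010000000000012 := rS 0x11446a9d52a5 (k4 c4444 c4345 c2714 c1337 (k2 c8197 c8072 k0)) (by decide +kernel)
def c8286 : PP 8 4 T 0x100000000080000000100000000000000000080000080 := rS 0x1b974fabf3fa146a491f048aae525b449ef01ea7d464565ab4571061324ca3b62c5e0ab25ea0e327a13984728744d2c2a9d489bce2c13a8b4ce43188143a414c9dcb62131abe246d2c1ac0109 (k8 c4322 c1098 c2442 c1097 c4993 c4479 c4346 c1769 (k8 c57 c495 c3101 c8246 c5810 c10 c527 c7393 (k8 c276 c2703 c910 c2432 c1712 c2431 c3099 c3165 (k8 c3247 c2701 c4427 c157 c53 c1137 c616 c352 (k8 c8259 c4365 c642 c1171 c8277 c4311 c4357 c1251 (k8 c1042 c2437 c634 c723 c4478 c4191 c4903 c1752 (k8 c3220 c4337 c4414 c274 c4472 c4297 c4298 c4434 (k8 c4498 c4151 c4464 c4471 c1718 c8181 c8280 c724 (k4 c8281 c8284 c8285 c8214 (k1 c8283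 k0)))))))))) (by decide +kernel)
def c8287 : PP 8 4 T 0x800000000081000000100000000000000000080000080 := rS 0x6b4c4a8086184964f53bc17e9b22af632ad41b08ca7a82a252267218c482993b96c42a952c48da6b84bf4be5d8a8d56011001600a1d (k8 c10 c527 c1097 c1098 c2592 c8286 c1034 c4349 (k8 c8197 c2434 c4303 c4322 c2442 c4993 c4479 c4444 (k8 c4345 c57 c495 c3101 c8246 c5810 c7393 c276 (k8 c2703 c3165 c157 c4311 c722 c2437 c723 c2629 (k8 c4903 c4365 c1172 c3220 c2058 c3228 c4472 c8272 (k8 c4297 c4434 c4230 c4477 c2119 c4381 c5204 c1293 (k1 c4522 k0))))))) (by decide +kernel)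
def c8288 : PP 8 4 T 0x1001000000000000000540000000000001400001501500044150050000000010080 := rS 0x68e1004d54a9624a7 (k8 c4532 c4479 c4444 c4345 c4248 c2119 c2114 c1293 (k1 c1138 k0)) (by decide +kernel)
def c8289 : PP 8 4 T 0x500000000000081000000101000044100000000080000080 := rS 0x98d21c83504375d896184318905326b36c24ee5b10bf4be5d8a8d56011001600a1d (k8 c10 c527 c1097 c1098 c2592 c8286 c1034 c4349 (k8 c8197 c2434 c4303 c57 c495 c3101 c4322 c4993 (k8 c2442 c8246 c5810 c7393 c276 c4477 c4381 c4847 (k4 c272 c8288 c2461 c1138 (k2 c4522 c2114 (k1 c4282 k0)))))) (by decide +kernel)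
def c8290 : PP 8 4 T 0x500000000000081000000100000044100000000080000080 := rS 0x98d25d8e46e8c4798086310287482993b96c42a5891b4d7098a8d422581397d6000 (k8 c1098 c8286 c2434 c7417 c1097 c2592 c1034 c4349 (k8 c4322 c2442 c4993 c4479 c4444 c57 c495 c3101 (k8 c8246 c5810 c10 c527 c7393 c276 c8289 c848 (k4 c617 c273 c1114 c1389 (k2 c4470 c2114 (k1 c4282 k0)))))) (by decide +kernel)
def c8291 : PP 8 4 T 0x100000001000000010005000000000008000000000000000100155401100000000000 := rS 0x5252 (k2 c6159 c1568 (k1 c4712 k0)) (by decide +kernel)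
def c8292 : PP 8 4 T 0x40000000014000000050000055500000000810000080002000 := rS 0x64a8c9228 (k4 c1102 c1723 c779 c507 (k1 c2118 k0)) (by decide +kernel)
def c8293 : PP 8 4 T 0x800000001000000010005000004001150000000000000000100155401500000000000 := rS 0xac1424ca51157b153718 (k8 c4472 c4448 c4370 c4346 c7287 c6159 c8291 c4712 (k2 c7972 c780 k0)) (by decide +kernel)
def c8294 : PP 8 4 T 0x8000000014150000050100055500000004400000000002000 := rS 0xc95184e2117 (k4 c4362 c4958 c8248 c4337 (k2 c506 c2118 k0)) (by decide +kernel)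
def c8295 : PP 8 4 T 0x500000000000081000000110000008100000000080000080 := rS 0x15208d088b0c763d3e8bd2acf0c27d4280861851cbb4db151a0c8c0e04ac71ba0d4ef169a75226f4baaca21b609d45a67218c482993b96c426354abd4b12369ae12fd3f9762a35089600a1d1397c00cb1fae566b0 (k8 c8286 c8287 c1203 c1177 c1753 c1098 c2434 c7417 (k8 c10 c527 c1097 c2592 c1034 c4349 c8197 c2708 (k8 c4303 c4322 c2442 c4993 c4479 c4444 c4346 c4345 (k8 c1769 c57 c495 c3101 c8246 c5810 c7393 c276 (k8 c2703 c910 c2432 c1712 c2669 c1591 c1673 c3204 (k8 c3099 c3165 c3247 c4375 c4434 c1857 c1855 c1414 (k8 c1454 c1373 c4470 c4472 c4522 c3123 c4370 c4448 (k8 c4449 c7959 c503 c6999 c2119 c4329 c4384 c1294 (k8 c3281 c7265 c1870 c1772 c275 c8292 c8294 c7287 (k4 c8293 c4478 c260 c4406 k0)))))))))) (by decide +kernel)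
def c8296 : PP 8 4 T 0x1800001000000000000000010000000100081000100010000080150000100004000000 := rS 0x2522c3b5ad0d6ed0158f5cac866a6d8a160920a301940d15e28984d2d82cb (k8 c1753 c1712 c4427 c4322 c157 c4297 c4396 c1360 (k8 c259 c4472 c4484 c5853 c4465 c4370 c4448 c2064 (k8 c644 c4401 c1678 c1638 c525 c7551 c4422 c1704 (k4 c1763 c4492 c7597 c4418 k0)))) (by decide +kernel)
def c8297 : PP 8 4 T 0x500000000000081000000110000000100000000080000080 := rS 0x964f5cace2afd58448825b10a64ee43189ac0a1d36c245a673a86cb000 (k8 c1098 c1097 c2669 c2432 c2703 c910 c4322 c4993 (k8 c10 c527 c2442 c7393 c276 c3101 c8246 c57 (k8 c495 c5810 c4479 c8286 c4303 c4349 c8287 c1203 (k2 c8296 c8295 (k1 c8290 k0))))) (by decide +kernel)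
def c8298 : PP 8 4 T 0x401810201000000080000000010000040104001000080010000 := rS 0x1d8f5262b869258ea34f91e86d16933990f05a8dd04b71c90e2a35 (k8 c1034 c4349 c276 c1240 c1247 c1243 c1512 c1518 (k8 c6330 c644 c645 c4470 c4298 c4422 c1583 c1664 (k8 c1523 c1519 c1790 c5264 c5588 c7994 c274 c1101 (k1 c2113 k0)))) (by decide +kernel)
def c8299 : PP 8 4 T 0x81000000110000000100000000080000080 := rS 0x59a2f11d3486e3d129262d0c639556a47a18e56ec530b39900d66c611a823dd1578bf27a2696710db04ea2d3390c62414c9dcb62154c48da6b84bf4be5d8a8d422002c0143acb1fae566b0 (k8 c8286 c8287 c1203 c1177 c1753 c10 c527 c1097 (k8 c1098 c2592 c1034 c4349 c8197 c2434 c4303 c4322 (k8 c2442 c4993 c4479 c4345 c57 c495 c3101 c8246 (k8 c5810 c7393 c276 c2703 c910 c2432 c1712 c2669 (k8 c2431 c4427 c157 c8296 c8298 c8297 c4454 c1172 (k8 c7175 c1119 c4632 c2064 c2461 c644 c645 c617 (k8 c4370 c7551 c1138 c4422 c1583 c1704 c3735 c1519 (k8 c4477 c4492 c4199 c4381 c4416 c272 c4522 c2113 (k4 c5264 c1762 c6833 c525 k0))))))))) (by decide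 +kernel)
def c8300 : PP 8 4 T 0x1000000000000000000000000000000000000000540000000080000080000000 := rS 0x86984488e (k4 c273 c272 c848 c4381 (k1 c4477 k0)) (by decide +kernel)
def c8301 : PP 8 4 T 0x40015000000000000000000022020000005450084000090000 := rS 0x724923a313c23 (k4 c767 c619 c617 c1643 (k2 c3600 c1114 (k1 c2113 k0))) (by decide +kernel)
def c8302 : PP 8 4 T 0x1000000000000000000040015000000000000000000000000000405550000000000000 := rS 0x49 (k2 c4209 c2113 k0) (by decide +kernel)
def c8303 : PP 8 4 T 0x4000000000081000000100000000100000000080000080 := rS 0x345e218252017a8327afc183823a7d770c53a34c2910d90c82993baa54b12138dd725501825ca3d090eca631359b612c7151762a3508815fa5f5816c42b58b1907eb30e9d4b000 (k8 c1098 c1097 c2432 c10 c8287 c1177 c8299 c4165 (k8 c4419 c57 c495 c8286 c2434 c4303 c527 c2592 (k8 c1034 c4349 c8197 c491 c7325 c4322 c4993 c2442 (k8 c7393 c292 c1641 c490 c1678 c4401 c3 c222 (k8 c1647 c1203 c8300 c7417 c4479 c4444 c4345 c3101 (k8 c8246 c5810 c276 c2669 c3165 c8301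 c1116 c4532 (k8 c4477 c6963 c4384 c1642 c8302 c1138 c3255 c450 (k8 c2461 c4507 c2119 c8288 c1294 c4434 c260 c7874 k0)))))))) (by decide +kernel)
def c8304 : PP 8 4 T 0x81000000100000000100200000080000080 := rS 0xd17886094805ea0c9e0c0d90c82993baa54b122a80c12e50914c5431359b612bf65aed1aa11b9762a35089600a1d2d8854e614fad922642f801fab0 (k8 c8286 c4303 c1098 c2434 c8299 c3165 c8303 c1667 (k8 c619 c4532 c57 c495 c10 c527 c1097 c2592 (k8 c1034 c4349 c8197 c8300 c1737 c1118 c6963 c1753 (k8 c1247 c4322 c4993 c2442 c7393 c491 c292 c490 (k8 c4401 c3 c222 c1647 c4479 c4444 c4345 c3101 (k8 c8246 c5810 c276 c2669 c1138 c450 c2461 c4507 (k4 c2119 c8288 c1294 c4434 (k2 c260 c7874 k0)))))))) (by decide +kernel)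
def c8305 : PP 8 4 T 0x81000000100000000100000000080000080 := rS 0xce62a09e2d21c89618a730a7d6c3b15191224318aa6246d35c246e5d8a8d4225802874be007eac0b621 (k8 c57 c495 c8286 c4303 c1098 c2434 c10 c527 (k8 c1097 c2592 c1034 c4349 c8197 c8300 c4322 c2442 (k8 c4993 c4479 c4345 c7393 c276 c3165 c8299 c491 (k8 c1641 c8303 c1667 c619 c4532 c4477 c4381 c8304 (k4 c4470 c5264 c5945 c4530 (k2 c645 c1796 k0)))))) (by decide +kernel)
def c8306 : PP 8 4 T 0x400011000000000080808000000000401405550000000000000 := rS 0x2dd8ebe66d15134b (k8 c4427 c157 c4452 c2064 c643 c7284 c1247 c2113 k0) (by decide +kernel)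
def c8307 : PP 8 4 T 0x10000000001000000000000111200000001081008000500520400005554000005800000 := rS 0x2b88a7e86925b231470d639809ea7a22fd06812591da44933aa54afd8ab2c52d057c48db09 (k8 c4322 c4993 c4479 c4346 c525 c1760 c1753 c4349 (k8 c4303 c4444 c4345 c2703 c4209 c4470 c4374 c4375 (k8 c6395 c8306 c1243 c4484 c8272 c4396 c6517 c460 (k8 c4325 c936 c617 c2113 c1117 c4424 c1667 c4413 (k2 c5588 c7270 k0))))) (by decide +kernel)
def c8308 : PP 8 4 T 0x81000000100000000000000000080000080 := rS 0x41a054e610603d1a385ac58243b5e85832533d0f632f1222e47eb3049e522332886d827554a96246d35c246e5d8a8d4225802874be007eac0b621 (k8 c57 c495 c8286 c4303 c1098 c2434 c10 c527 (k8 c1097 c2592 c1034 c4349 c8197 c8300 c4322 c2442 (k8 c4993 c4479 c4444 c4345 c2432 c1712 c2669 c1591 (k8 c950 c3165 c2454 c3 c8287 c1177 c1203 c8305 (k8 c4295 c4363 c445 c1217 c418 c256 c7132 c3179 (k8 c1223 c5853 c8248 c4419 c8307 c3123 c240 c1138 (k4 c617 c4500 c1835 c2461 (k1 c2119 k0)))))))) (by decide +kernel)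
def c8309 : PP 8 4 T 0x1020000000000000050060200001000000000450000045020000000410000000000002 := rS 0x9390c847a192546c95b339429f (k8 c4384 c4329 c1176 c1175 c1793 c1523 c1790 c4424 (k4 c1586 c8164 c4473 c490 (k1 c4401 k0))) (by decide +kernel)
def c8310 : PP 8 4 T 0x1000000000000008010000000000002058100045500000004000000010000002 := rS 0x145056499564cb8ba853f0c (k8 c4477 c4384 c4329 c4362 c2029 c1211 c4165 c717 (k2 c4312 c2118 (k1 c5380 k0))) (by decide +kernel)
def c8311 : PP 8 4 T 0x1020000000000000001000000000000000000050000044020800000011000000002002 := rS 0x28ccac915925ca6150a7d8e2d (k8 c910 c1447 c4384 c4329 c2455 c4290 c373 c292 (k4 c507 c491 c4241 c8164 k0)) (by decide +kernel)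
def c8312 : PP 8 4 T 0x40000000000011020000000000000040045200001000000000450000045020400154410000000000002 := rS 0x315a2f0 (k4 c4472 c4298 c8309 c4759 k0) (by decide +kernel)
def c8313 : PP 8 4 T 0x80000000100000000100210000080000080 := rS 0x14190745361c6552bc3d1f59b124218da6b921aec6e8d50a7e185f12a44c2fd2ec550f4b609d4ce83638307e7f580c40a1d20a64d60036960ef09 (k8 c4322 c3101 c1097 c4993 c1098 c2442 c8246 c1103 (k8 c56 c527 c7393 c1137 c2708 c8211 c1138 c1447 (k8 c2461 c720 c2432 c1712 c4427 c186 c4348 c8197 (k8 c4304 c2455 c3165 c281 c489 c4477 c4384 c4329 (k8 c3123 c117 c6963 c365 c3211 c4280 c1769 c8308 (k8 c4479 c1481 c1502 c714 c715 c4345 c4366 c8310 (k4 c8311 c8312 c8292 c1102 (k1 c1567 k0)))))))) (by decide +kernel)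
def c8314 : PP 8 4 T 0x1000000000000000000000100000000000020000500144400000082000080 := rS 0x681552b110e88406093a9600041 (k8 c1103 c1098 c1097 c2432 c30 c222 c86 c56 (k4 c4412 c1696 c1647 c6784 (k1 c260 k0))) (by decide +kernel)
def c8315 : PP 8 4 T 0x1020001000000000020000000000000000000050000054020000000010000002402002 := rS 0x51415925409985429f (k8 c4384 c4329 c2455 c1759 c260 c506 c4406 c8164 (k1 c5380 k0)) (by decide +kernel)
def c8316 : PP 8 4 T 0x4000000000000080010000000000400100210000080000080 := rS 0x51ad1283c68ae53f0c2f894c20c7e9762a050eb04ea672085cc6af328ed6ef117060d099359b4ef091f9fca21b21aec6eb02c244008d (k8 c3123 c1098 c3165 c1097 c1137 c117 c6963 c365 (k8 c2669 c1591 c2708 c8211 c4322 c3101 c4993 c2442 (k8 c8246 c8313 c757 c756 c4432 c4518 c1141 c8314 (k8 c2720 c1768 c7300 c1103 c720 c2432 c1712 c56 (k8 c527 c4348 c8197 c4304 c1138 c2455 c281 c489 (k8 c4477 c4384 c3211 c8315 c6159 c275 c363 c859 (k1 c4254 k0))))))) (by decide +kernel)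
def c8317 : PP 8 4 T 0x80020000000000000000000000000002000 := rS 0x8c54 (k2 c1292 c1291 (k1 c3703 k0)) (by decide +kernel)
def c8318 : PP 8 4 T 0x80000000000000400100210000080000080 := rS 0x64a8c269472309a2654b9d572435d8dd1aa14fc30be2548985fa5d8a8143b4b33944363f3fac1326b36960ef090bbc4c6af1dadc302e34000fa0c (k8 c1138 c8317 c1098 c8313 c756 c757 c4518 c1141 (k8 c2720 c1768 c4432 c7300 c4322 c3101 c1097 c4993 (k8 c2442 c8246 c1137 c2708 c8211 c2669 c1591 c720 (k8 c4427 c56 c527 c4348 c8197 c4304 c2455 c3165 (k8 c281 c489 c4477 c4384 c4329 c3123 c117 c6963 (k8 c365 c3211 c2432 c3204 c8314 c8315 c8316 c4475 (k4 c8294 c4401 c859 c506 (k1 c2118 k0)))))))) (by decide +kernel)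
def c8319 : PP 8 4 T 0x80000000000000000100210000080000080 := rS 0xc9519949228291f4c64d578b8d0c7339fcdaa153a7e185f12a44c20c7eac0bb15001600a1d (k8 c56 c527 c1097 c1098 c4348 c8197 c1137 c4304 (k8 c1138 c2455 c3165 c281 c489 c4477 c4384 c4330 (k8 c4329 c4993 c2708 c720 c1447 c8313 c756 c2720 (k8 c1992 c1768 c8317 c8318 c2033 c372 c1567 c779 (k2 c507 c2118 k0))))) (by decide +kernel)
def c8320 : PP 8 4 T 0x40000001200040000040050001055500800000010000000012102 := rS 0x1a0d68317a042ecc14aa496892433d0a47a1b2142a74fa9618fd72d2d96c7 (k8 c1447 c2023 c4456 c4290 c4304 c4477 c4385 c4384 (k8 c4330 c4329 c2118 c4422 c4638 c716 c1792 c8024 (k8 c2459 c2037 c7105 c1720 c373 c2030 c1293 c2033 (k4 c2064 c492 c2119 c756 k0)))) (by decide +kernel)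
def c8321 : PP 8 4 T 0x40040000000580000000000001011500800000000100000002012 := rS 0x2a10a8367a04d6698985c904b560c026471550da2e5 (k8 c4290 c179 c4393 c4241 c1314 c1638 c292 c293 (k8 c2037 c4473 c2031 c4441 c1879 c2049 c1293 c1790 (k4 c508 c5976 c2119 c949 k0))) (by decide +kernel)
def c8322 : PP 8 4 T 0x40000000200040001040050101055500800000010000000012102 := rS 0x5aa7e18fd (k4 c4304 c4477 c4384 c4254 (k1 c8320 k0)) (by decide +kernel)
def c8323 : PP 8 4 T 0x1000000000000000000000000000000050001009500800000000000000002006 := rS 0x54c24d285409ad06184405d5a5409a9d4b0c (k8 c4477 c4385 c4330 c1559 c755 c2717 c2031 c253 (k8 c252 c508 c492 c2045 c684 c2040 c4436 c5323 (k1 c2119 k0))) (by decide +kernel)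
def c8324 : PP 8 4 T 0x1000000000000000000000000000000080040000005000100010100000 := rS 0xee2e2a (k4 c4555 c5282 c1641 c4471 k0) (by decide +kernel)
def c8325 : PP 8 4 T 0x40000000200000001040050101055500800000010100000012112 := rS 0x146a752c31fac7 (k4 c1447 c4304 c4477 c4385 (k2 c4330 c8321 (k1 c8322 k0))) (by decide +kernel)
def c8326 : PP 8 4 T 0x40050000000000800000210000080000080 := rS 0x629ee30994dc4cd2ac180bd86b3448a8531688990ce63168fd3a773996c4203049b422793ab4cbb1502874c20c2f895fae51eb0486bb1bac1228d43854b000 (k8 c1098 c1097 c2630 c1903 c3123 c3165 c1137 c117 (k8 c6963 c365 c1982 c2326 c4290 c4304 c281 c489 (k8 c1138 c2455 c56 c527 c4348 c8197 c4280 c2432 (k8 c2433 c2592 c4993 c30 c222 c86 c495 c3100 (k8 c3101 c3247 c8211 c392 c8323 c8324 c8325 c4412 (k8 c4165 c1567 c491 c2439 c2437 c4362 c2033 c4712 (k8 c293 c756 c4441 c1966 c2050 c4488 c4055 c4370 (k1 c2123 k0)))))))) (by decide +kernel)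
def c8327 : PP 8 4 T 0x1000000000000200000000000080040000000000001000000000100080 := rS 0x45c763f5904d6d05 (k8 c4313 c675 c2468 c674 c3171 c4158 c4358 c4471 k0) (by decide +kernel)
def c8328 : PP 8 4 T 0x40000000000000800000210000080000080 := rS 0x34aa45f09409ad06184405d0acd2a04cf87f438f5ca73368541e0953a96185f12a44c20c7eac0bb15001600a1d (k8 c56 c527 c1097 c1098 c4348 c8197 c1137 c4304 (k8 c1138 c2455 c3165 c281 c489 c4477 c4385 c4330 (k8 c30 c240 c2630 c4993 c3100 c4290 c2326 c1903 (k8 c8327 c8326 c1563 c1292 c3280 c1502 c2031 c253 (k8 c252 c508 c492 c2044 c4436 c3945 c5323 c756 (k1 c2119 k0)))))) (by decide +kernel)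
def c8329 : PP 8 4 T 0x1000000000000000040005444002000000000000000000000541155404000000000000 := rS 0x17b19623449745 (k4 c4398 c1322 c7073 c2115 (k2 c4370 c1175 (k1 c4493 k0))) (by decide +kernel)
def c8330 : PP 8 4 T 0x40000000000000000000000001000040000000000000000000800000000000541000000000000014000 := rS 0xf16892c2d45 (k4 c4452 c4570 c1855 c7073 (k2 c4431 c4475 k0)) (by decide +kernel)
def c8331 : PP 8 4 T 0x1000000000000000040005444000500000001500001101500541155400040000000002 := rS 0x345e2300b1a95233 (k8 c950 c8329 c2119 c492 c493 c4431 c300 c6159 k0) (by decide +kernel)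
def c8332 : PP 8 4 T 0x1000000000001000041000444000500000020040000101500441145400040080004080 := rS 0x2a4d62e18901065140a16961d3685422580030d8316 (k8 c4471 c4420 c4362 c1098 c1097 c2592 c2630 c4993 (k8 c56 c4457 c684 c2044 c1863 c8330 c8331 c1913 (k4 c1104 c493 c787 c2119 k0))) (by decide +kernel)
def c8333 : PP 8 4 T 0x5000000001050040200401500002000145400100004006010 := rS 0xab788bda24128c493231250602f09 (k8 c4439 c1835 c1294 c1293 c7393 c8246 c4479 c1605 (k4 c8238 c261 c1870 c4434 (k2 c4445 c8293 k0))) (by decide +kernel)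
def c8334 : PP 8 4 T 0x1000001000000000040405444002000000001100000000002441145404000080000000 := rS 0x5120a1c5f45 (k4 c4398 c787 c7075 c1104 (k2 c1604 c8329 k0)) (by decide +kernel)
def c8335 : PP 8 4 T 0x40405400400000000050801540000000000140400000000014000 := rS 0xc478a1cf616 (k4 c4570 c643 c2004 c4431 (k2 c2123 c4530 k0)) (by decide +kernel)
def c8336 : PP 8 4 T 0x1000001000000000040405444000000000001500000501502441145400000080000080 := rS 0x548ccda580029d4b0c (k8 c4477 c4385 c4330 c1098 c1097 c4993 c950 c8334 (k1 c2119 k0)) (by decide +kernel)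
def c8337 : PP 8 4 T 0x1000200000000002020040000000000140000000004000080 := rS 0x338f486 (k4 c1502 c714 c1501 c4161 k0) (by decide +kernel)
def c8338 : PP 8 4 T 0x1000001000000000040405444000000010041400000500502441145400100080006080 := rS 0x2052e9d3b8143a6d0d800c258 (k8 c1097 c2455 c1098 c2669 c4993 c56 c527 c3101 (k4 c3247 c3204 c8333 c8336 k0)) (by decide +kernel)
def c8339 : PP 8 4 T 0x1000001000001000041400444000000000041040000100502441145400140080006080 := rS 0xc443bc4f6300b1a906893b9cc22793a8014ea586184b0c359a558316 (k8 c4471 c4420 c4418 c4358 c4362 c1097 c2455 c4477 (k8 c4385 c4330 c1098 c2432 c2433 c2592 c3100 c3101 (k8 c8332 c8335 c8338 c492 c493 c2440 c4431 c3818 (k2 c2123 c4530 k0)))) (by decide +kernel)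
def c8340 : PP 8 4 T 0x40000000000040020000000100400100200000080000080 := rS 0xd178904a2181705e126842b058716658adca2d1e8ec7ecd2315026495b9fcee730d845a715078257e434fc30be2548800c20c2c3f5604f (k8 c450 c1137 c4304 c1097 c1138 c2455 c1098 c3165 (k8 c281 c489 c4477 c4384 c365 c3255 c30 c240 (k8 c4348 c4280 c2592 c2669 c3100 c3101 c154 c1626 (k8 c1623 c1563 c1292 c1291 c3280 c8211 c1141 c362 (k8 c911 c4404 c1642 c3544 c4471 c4362 c4420 c8337 (k8 c8339 c4437 c7300 c756 c757 c1605 c8238 c4432 (k2 c261 c6159 k0))))))) (by decide +kernel)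
def c8341 : PP 8 4 T 0x1000000000010115000045514000000050000000000440155400100002000000 := rS 0x32d0cad67d08a105 (k8 c4503 c2115 c4483 c1597 c1865 c1876 c4425 c4948 k0) (by decide +kernel)
def c8342 : PP 8 4 T 0x1000000000000000010000000040040050500201500401154600000010002002 := rS 0x289286333c10ca87a5c5d843d64a854e9f52c309f094caa55e2d55a25a21862b06302e (k8 c756 c6988 c4450 c4370 c757 c261 c3945 c3778 (k8 c2919 c2720 c826 c1880 c4437 c450 c4477 c4385 (k8 c4384 c4330 c4329 c507 c362 c8341 c4362 c4459 (k8 c1906 c4165 c4485 c925 c4407 c8294 c2118 c859 k0)))) (by decide +kernel)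
def c8343 : PP 8 4 T 0x1000000000000000000011014444001540050005500044004402155400000002000000 := rS 0x889960a9561c596b43 (k8 c4421 c1702 c4492 c4362 c4418 c4503 c7254 c7223 (k1 c4478 k0)) (by decide +kernel)
def c8344 : PP 8 4 T 0x40000000000040000000200100400100200000080000080 := rS 0x32968941e19cc6b3678a68648472f4767f1fb058a9b3db4512b755c608218578b952834c85e12974e9dcae1d0d9e4ea718aa357eb921a854e9f52c30be2548800c20c2c3f5607d (k8 c8340 c1137 c4304 c1097 c1138 c2455 c1098 c3165 (k8 c281 c489 c4477 c4385 c4384 c4330 c4329 c365 (k8 c3211 c3255 c3123 c4348 c2431 c2432 c2433 c2669 (k8 c56 c1017 c3101 c3247 c3204 c4437 c7300 c1880 (k8 c2001 c826 c756 c2720 c757 c8238 c6988 c3778 (k8 c4518 c3945 c261 c4366 c4448 c4370 c4450 c8220 (k8 c675 c1141 c7175 c2126 c8342 c4421 c1720 c1790 (k8 c4531 c754 c656 c8343 c275 c363 c7265 c1708 k0)))))))) (by decide +kernel)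
def c8345 : PP 8 4 T 0x10000000100002002200000080000080 := rS 0xa3339fccab44a24d6f170e884ea374f8fd726314a86185f12a44c20c2c3f56000 (k8 c1098 c1137 c4304 c1097 c1138 c2455 c3165 c281 (k8 c489 c4477 c4329 c1720 c754 c3211 c371 c4384 (k8 c117 c2432 c86 c56 c4416 c1743 c1655 c275 (k4 c363 c4165 c675 c657 (k2 c859 c4254 k0))))) (by decide +kernel)
def c8346 : PP 8 4 T 0x200000000000000015000400000000040001540000000402155400000004000000 := rS 0xa34a0bc6612193d21d1255 (k8 c4406 c4314 c4410 c2123 c4503 c4320 c4366 c521 (k2 c4759 c7104 (k1 c7084 k0))) (by decide +kernel)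
def c8347 : PP 8 4 T 0x1000000000000000040025444600000000050001541101500000140400000000016002 := rS 0x541ad0283a22142e4b65af5e11953a9618fd (k8 c4304 c4477 c4385 c4330 c4370 c4530 c1175 c1756 (k8 c4434 c4431 c715 c4493 c8335 c1293 c492 c2119 (k1 c4398 k0))) (by decide +kernel)
def c8348 : PP 8 4 T 0x200000000000000005444600000000040001541101500402105600000004016002 := rS 0x201e98a8943b4e2a43 (k8 c365 c4348 c4280 c4410 c4314 c8347 c2123 c8346 (k1 c3158 k0)) (by decide +kernel)
def c8349 : PP 8 4 T 0x454200000000040011541101500402101600000004016002 := rS 0x14483193d3150ed144849910560b0d67163fb4e2afd21d0c7eb5 (k8 c1702 c371 c4421 c365 c4304 c4348 c4280 c675 (k8 c4492 c4531 c4362 c4420 c8348 c4483 c506 c2459 (k8 c1758 c3647 c8347 c2123 c4366 c3158 c7104 c2115 k0))) (by decide +kernel)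
def c8350 : PP 8 4 T 0x1000000000000015000400000000040051540000000402155400000004002000 := rS 0x2307a2821da289093220b43 (k8 c4421 c8346 c4483 c506 c2459 c1758 c3647 c2115 (k2 c2123 c7104 (k1 c4366 k0))) (by decide +kernel)
def c8351 : PP 8 4 T 0x1000000000000000000020440200000000000000001101500002140400000000002002 := rS 0xa8a22157acf35a0d02d10b92de11953a9618fd (k8 c4304 c4477 c4385 c4330 c4370 c4530 c4434 c4431 (k8 c4298 c1293 c508 c492 c1790 c1176 c715 c4493 (k2 c2119 c4398 k0))) (by decide +kernel)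
def c8352 : PP 8 4 T 0x120210000080000080 := rS 0x20d02a9429ac9a19171ec627736a9d4b0c2f894c20c7e93cd253459762a050eaec6eb02c244008d (k8 c3123 c1098 c3165 c1097 c1137 c117 c6963 c56 (k8 c527 c4348 c8197 c8319 c8328 c8344 c450 c4304 (k8 c1138 c2455 c281 c489 c4477 c4385 c4330 c4993 (k8 c3101 c1913 c3108 c1104 c1872 c1995 c493 c714 (k4 c787 c1294 c509 c2119 k0))))) (by decide +kernel)
def c8353 : PP 8 4 T 0x1000000000000015010000000000040051540000000402151400000004002000 := rS 0x2ce863f (k4 c371 c4421 c4531 c8350 k0) (by decide +kernel)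
def c8354 : PP 8 4 T 0x1000000000400000002000000000000000000000012000004000000000000 := rS 0x9745 (k2 c4398 c1322 (k1 c4599 k0)) (by decide +kernel)
def c8355 : PP 8 4 T 0x4015010200000000040011541101500442151400000004102092 := rS 0xa8ce30352a50a7b40a0e30ab658649af168145c865829f866a752c31fa3f (k8 c371 c4304 c4477 c4385 c4330 c950 c8353 c4313 (k8 c2523 c8327 c4405 c2115 c4298 c381 c261 c1751 (k8 c1671 c4472 c509 c1294 c4366 c714 c8354 c2119 (k4 c493 c661 c300 c4191 k0)))) (by decide +kernel)
def c8356 : PP 8 4 T 0x2100210000080000080 := rS 0x222ae512a0d61741bc09a4b40d150acb662f0f74b6133d8ac15b0f477433b9ccda1b0a844f2756983c12bf5c90d42a752c30be2530831fa4f3e9a4a68b2ec540a1d5d8dd6058488011a41 (k8 c8352 c3123 c1098 c3165 c1097 c1137 c117 c6963 (k8 c56 c527 c4348 c8197 c8319 c8328 c8344 c8340 (k8 c450 c4304 c1138 c2455 c281 c489 c4477 c4385 (k8 c4330 c4329 c365 c3211 c3255 c30 c240 c4280 (k8 c2432 c2433 c2592 c2630 c2669 c4993 c3100 c3101 (k8 c4421 c1723 c8345 c8349 c1749 c8351 c1796 c8355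 (k8 c4459 c1212 c1167 c1168 c2029 c714 c4454 c1898 (k8 c1858 c2062 c7248 c509 c4431 c492 c2119 c7105 (k2 c1484 c4337 (k1 c5748 k0)))))))))) (by decide +kernel)
def c8357 : PP 8 4 T 0x4408008002010040000000000000000000000000000000000000 := rS 0x882892b438bd2d26ad (k8 c949 c1128 c4459 c4362 c4424 c1746 c7105 c4487 (k1 c4337 k0)) (by decide +kernel)
def c8358 : PP 8 4 T 0x2000000004508000002000040044010000400520000001600000001000082 := rS 0x14663828a5c83f3fadcce6549aae971750c30c20c7eac226ad (k8 c949 c4345 c1137 c4304 c1138 c2455 c4477 c4329 (k8 c4362 c4459 c1947 c1128 c7555 c657 c8357 c675 (k4 c8211 c4471 c4402 c5546 (k2 c754 c5380 (k1 c4560 k0))))) (by decide +kernel)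
def c8359 : PP 8 4 T 0x40000000000009200000000100080 := rS 0x1f9cab0 (k4 c1137 c4288 c8211 c8327 k0) (by decide +kernel)
def c8360 : PP 8 4 T 0x1000000000001000000000000000004020440000000000000000000000000000000000000000000000 := rS 0x17b19 (k2 c4370 c1176 (k1 c4493 k0)) (by decide +kernel)
def c8361 : PP 8 4 T 0x1000000000001000000000000000000402440000000000000000000000000000000000000000000000 := rS 0x17b19 (k2 c4450 c2020 (k1 c4493 k0)) (by decide +kernel)
def c8362 : PP 8 4 T 0x10015000000000000044005540000000500155000000000100000 := rS 0x882aacdca3a (k4 c2115 c4403 c1042 c1600 (k2 c2123 c7314 k0)) (by decide +kernel)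
def c8363 : PP 8 4 T 0x2000000014500040002000040044014440400520400111200000001000082 := rS 0x3b61304f275218fc2a5162d157f15 (k8 c4348 c3255 c4398 c8360 c4435 c2630 c8359 c365 (k4 c2432 c2433 c8361 c8362 (k2 c3157 c8358 k0))) (by decide +kernel)
def c8364 : PP 8 4 T 0x2000000004000040002000040044014440400520401110200000001000082 := rS 0x3fc156ee46011d874365314f2758aafd72fd5810d920c638fc7a156892c666d6993e8a51 (k8 c4435 c4398 c450 c4280 c4993 c950 c1322 c7073 (k8 c2630 c362 c8359 c410 c1138 c507 c365 c1137 (k8 c4304 c3211 c3255 c4348 c2432 c2433 c8360 c8363 (k8 c4425 c2029 c1588 c8362 c4473 c1749 c5546 c675 (k1 c4483 k0))))) (by decide +kernel)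
def c8365 : PP 8 4 T 0x400000000000000018105000000015400044054440001520500155000000010000002 := rS 0xa256994c6674c249671962054f275 (k8 c2432 c2433 c2630 c8362 c4370 c1250 c7718 c4488 (k4 c656 c1608 c4172 c2050 (k2 c2118 c1524 k0))) (by decide +kernel)
def c8366 : PP 8 4 T 0x2000000000000040002001041045014440400120401110200000011000082 := rS 0x124ad3328e8463828a5c8655b8ee2ec2609fd9ace289d62ab921a853f0c2f894c2fd58324183f1e856269b5fb44963336b4c9f45 (k8 c4398 c450 c4280 c4993 c950 c1322 c7073 c3255 (k8 c867 c4345 c2630 c362 c8359 c1138 c507 c1137 (k8 c4304 c2455 c281 c489 c4477 c4384 c4329 c365 (k8 c3211 c4348 c2432 c4435 c8364 c197 c1521 c1717 (k8 c8365 c4362 c3157 c1168 c4165 c4471 c4402 c5546 (k4 c754 c4483 c4393 c8196 (k2 c948 c657 (k1 c1128 k0)))))))) (by decide +kernel)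
def c8367 : PP 8 4 T 0x1108010210000040000010000001520000005200000010000002 := rS 0x12b115118c52673fb90ca935b8ee2e7550a7e18fd (k8 c4304 c4477 c4384 c4329 c2432 c4362 c3157 c1168 (k8 c1128 c4165 c4471 c675 c657 c4402 c754 c2118 (k2 c4337 c859 (k1 c4487 k0)))) (by decide +kernel)
def c8368 : PP 8 4 T 0x2001041040010440500060401110210100010000082 := rS 0x31a8cca673faa850e52830d5acd60b14604c8c3c50e1968c210a7b258be27453c9d4666d69ae486bb1ba35429f8617c4a617eac0bb150293d920c638fc7a15 (k8 c2630 c362 c8359 c410 c1138 c507 c450 c527 (k8 c4348 c8197 c1137 c4304 c2455 c281 c489 c4477 (k8 c4384 c4329 c3123 c117 c6963 c365 c3211 c4280 (k8 c4993 c950 c2432 c2433 c4398 c4345 c787 c1322 (k8 c4055 c5976 c4479 c7073 c4436 c4440 c8366 c4472 (k8 c4474 c4469 c4370 c4450 c2062 c2046 c8367 c8362 (k8 c4405 c1917 c1916 c8327 c8324 c1567 c779 c1613 (k1 c8164 k0)))))))) (by decide +kernel)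
def c8369 : PP 8 4 T 0x1000000000000000040004440200000000040050000508500441145000000080006080 := rS 0x136c5892f1829559a2509165bb2d9ae51dd095693568a0565409c152e9d3b9cc0a1d01824da15089e4ea0053a9618612c3f5922d (k8 c392 c507 c4304 c1097 c2455 c4477 c4385 c4330 (k8 c1098 c2432 c2433 c2592 c2630 c4993 c30 c222 (k8 c56 c527 c3100 c3101 c3247 c3204 c4407 c1559 (k8 c755 c1607 c754 c2717 c1608 c1613 c4483 c4158 (k8 c4402 c4395 c4425 c4424 c4471 c8339 c8332 c4358 (k4 c4418 c4420 c715 c5976 (k2 c8347 c2018 (k1 c4553 k0)))))))) (by decide +kernel)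
def c8370 : PP 8 4 T 0x1000000000000000040044440200000000040000000120500401155000000080006080 := rS 0x119789e8a0c55bd088e3b68b95828759a24542909458ee7302874da113c9d4009f86184b0fd (k8 c4304 c1097 c2455 c4477 c4384 c1098 c2432 c2433 (k8 c2592 c4993 c56 c527 c3100 c3101 c4165 c490 (k8 c1567 c491 c2439 c2437 c1653 c4420 c4401 c1758 (k8 c1102 c1642 c4473 c4424 c8347 c2115 c2123 c4435 (k2 c4366 c4472 k0))))) (by decide +kernel)
def c8371 : PP 8 4 T 0x20000000201000000040000001501500001150000000000002000 := rS 0x421ed06818c13432f153a9618fd (k8 c4304 c4477 c4385 c4330 c4298 c261 c380 c4472 (k4 c1294 c509 c4366 c2119 (k1 c714 k0))) (by decide +kernel)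
def c8372 : PP 8 4 T 0x1000000000001000040044440200000000040010000510500441145000000080006080 := rS 0x23d0d4463339fc3a732d8842a0050a7e18612c3f5922d (k8 c392 c507 c4304 c1097 c2455 c4477 c4384 c4329 (k8 c1098 c2630 c86 c495 c3100 c56 c8327 c8324 (k4 c8369 c2118 c4393 c1314 (k1 c4473 k0)))) (by decide +kernel)
def c8373 : PP 8 4 T 0x1000000000000000050045440201000000000010000504520500155410000000002002 := rS 0x331fd66ce5e2268a8441a042e4b78310daa752c30c2fd (k8 c4304 c2455 c4477 c4385 c4330 c4993 c2115 c6159 (k8 c4434 c4431 c1293 c508 c2119 c4397 c2668 c715 (k4 c8360 c1251 c1522 c8309 (k1 c656 k0)))) (by decide +kernel)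
def c8374 : PP 8 4 T 0x4000000000000000000000400000000100210000080000080 := rS 0x9388ad12a99892f0f5094220d021725bc22ec0318a4a23b72195a60f04afd4e9f52c31fa4f63b45522d1f8f42a7d2d884e6774ea5c92413494d16435d8dd1a5f12a44c25d8a8000a1d58030da58 (k8 c1097 c4993 c1138 c1137 c56 c527 c1098 c4348 (k8 c8197 c2455 c3165 c281 c489 c3123 c117 c6963 (k8 c365 c8319 c8328 c8344 c8352 c8356 c3204 c3247 (k8 c3101 c3100 c86 c495 c8340 c2630 c362 c8359 (k8 c392 c8368 c8371 c410 c450 c4304 c4477 c4385 (k8 c4384 c4330 c3255 c30 c240 c4280 c8370 c8372 (k8 c4403 c4405 c4402 c754 c8373 c4420 c6869 c4434 (k8 c4431 c1293 c508 c2119 c4321 c714 c715 c5976 (k4 c8246 c8018 c2021 c4498 (k2 c1658 c4487 k0)))))))))) (by decide +kernel)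
def c8375 : PP 8 4 T 0x2000000000000000001500000001000001501500000000000000000002000 := rS 0x41a042e4b (k4 c4434 c4431 c1293 c508 (k1 c2119 k0)) (by decide +kernel)
def c8376 : PP 8 4 T 0x20000000001000000000008450001515041100214500414520000004404010000002010 := rS 0x254ceaf472cd3231449fd9ebd849b4c34b65aad0e9b (k8 c4448 c1906 c1947 c2029 c4459 c2455 c4993 c4439 (k8 c1898 c3281 c1462 c2045 c7393 c8246 c7658 c7959 (k4 c5815 c656 c7265 c8294 k0))) (by decide +kernel)
def c8377 : PP 8 4 T 0x400000000100210000080000080 := rS 0x994ac46242f560c498cd0b209029b8c3c4c62942b90ca3b3dc5d84a94ba74ee5b10844ea3336b4c1e095fae486a153a7d4b0c2f894c2fd3e9a4a68b2ec540a1d5d8dd609146905920c168fc7a490a9600073 (k8 c3100 c1098 c1097 c2630 c8356 c362 c8359 c392 (k8 c1138 c507 c8352 c3123 c3165 c1137 c117 c6963 (k8 c56 c527 c4348 c8197 c8319 c8328 c8344 c8340 (k8 c4304 c2455 c281 c489 c4477 c4385 c4384 c4330 (k8 c4329 c365 c3211 c3255 c30 c240 c4280 c4993 (k8 c950 c2432 c2592 c86 c495 c3101 c3247 c3204 (k8 c8368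 c8374 c4362 c1212 c3157 c4165 c4471 c714 (k8 c4402 c754 c8375 c4472 c4448 c8376 c2119 c4570 (k8 c2065 c509 c1910 c8367 c1992 c4469 c4338 c860 (k2 c4443 c4958 k0)))))))))) (by decide +kernel)
def c8378 : PP 8 4 T 0x11040000000000044804000000100405110202400080000080 := rS 0xc6a3339fd542b72940cac368b368a1d4b9dcb6213c9d5a715078257eb921a853f0c2f89522617eac09e7d34b24182d638fc7a152c000e6ad (k8 c2046 c3100 c1098 c1097 c2630 c362 c8359 c410 (k8 c392 c1138 c507 c8344 c8340 c450 c1137 c4304 (k8 c2455 c3165 c281 c489 c4477 c4384 c4329 c365 (k8 c3211 c3255 c30 c240 c4348 c4280 c2432 c2433 (k8 c86 c495 c3101 c3204 c56 c4452 c2065 c7073 (k8 c8367 c8370 c8362 c4405 c1645 c1916 c8327 c8324 (k2 c4241 c1612 (k1 c2118 k0)))))))) (by decide +kernel)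
def c8379 : PP 8 4 T 0x1000000004000000000000000000000004000000100210000080000080 := rS 0x2083b5119cfe772d9d5429f86185fa7d648b4f68760c60609b3c8853af10b1a8cac71f854e63d24904d2534590cbe252e8143abb1b961220046afc1e09580322ad3 (k8 c4280 c4348 c1138 c1137 c30 c240 c3255 c3123 (k8 c1098 c3165 c1097 c117 c6963 c56 c527 c8197 (k8 c281 c489 c365 c8319 c8328 c8344 c8352 c8356 (k8 c362 c3100 c2630 c8359 c410 c8370 c8377 c492 (k8 c4431 c3247 c86 c2433 c1968 c493 c5755 c4450 (k8 c3818 c2440 c392 c507 c8340 c4304 c2455 c4477 (k8 c4384 c4329 c2432 c495 c3101 c8327 c8324 c2118 (k2 c8292 c5380 (k1 c5806 k0))))))))) (by decide +kernel)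
def c8380 : PP 8 4 T 0x1002000000005000000000000044004500810000400155006000000000090 := rS 0x19c54ab68414a23b (k8 c4403 c4405 c5806 c6159 c1671 c300 c661 c4191 k0) (by decide +kernel)
def c8381 : PP 8 4 T 0x4000000000000000000000000000000100210000080000080 := rS 0xb6288ee842b2a04e0a623fb94ca77019d5a60f04afc86a7279f4d2c9638fc7a1539a050a8360b16309b3c8853af143858971352c30be2530831fa33369ec602f351248253459762a050eaec6eb02c244008d (k8 c3123 c1098 c3165 c1097 c1137 c117 c6963 c56 (k8 c527 c4348 c8197 c8319 c8328 c8352 c8356 c8377 (k8 c1839 c493 c2440 c4993 c950 c4304 c1138 c2455 (k8 c281 c489 c4477 c4385 c4442 c4799 c492 c3818 (k8 c4431 c3247 c86 c2433 c1968 c5755 c4370 c4450 (k8 c8378 c562 c1923 c3100 c2630 c362 c8359 c410 (k8 c507 c8344 c8340 c450 c4330 c365 c3255 c30 (k8 c240 c4280 c2432 c222 c3101 c8370 c8380 c8327 (k8 c8379 c4407 c1559 c755 c1607 c4483 c4158 c1604 (k2 c8331 c4424 k0)))))))))) (by decide +kernel)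
def c8382 : PP 8 4 T 0x100210000080000080 := rS 0x5ad0d6ecc8bb097b4426a0d82c58c2b50ef1259ec602f0b26e266a1f8f59249209f4a68b10a5d3a730a9e4666d69ae5763746a96185f12a44c20c7eac0bb15001600a1d (k8 c56 c527 c1097 c1098 c4348 c8197 c1137 c4304 (k8 c1138 c2455 c3165 c281 c489 c4477 c4385 c3123 (k8 c117 c6963 c3211 c4280 c4993 c950 c2433 c2630 (k8 c3100 c3247 c3204 c86 c8319 c8328 c8340 c8352 (k8 c8356 c507 c362 c8359 c8377 c4442 c1968 c492 (k8 c1839 c493 c2440 c4799 c4431 c3818 c2046 c5755 (k8 c4370 c4450 c8378 c1990 c7248 c4454 c8381 c4362 (k4 c8367 c1167 c4395 c1437 (k1 c4492 k0))))))))) (by decide +kernel)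
def c8383 : PP 8 4 T 0x210000080000080 := rS 0x549ad074442a04d27a26af42d19209114aa7863f4be612eaed7e0f46ac04a0c8a8dc12004ea440a1d2d884da58 (k8 c1097 c4993 c86 c495 c56 c527 c3165 c3247 (k8 c1098 c30 c117 c4348 c1138 c281 c1137 c3123 (k8 c240 c3255 c6963 c8197 c2455 c489 c4304 c4477 (k8 c4330 c4385 c8382 c174 c4364 c1218 c3179 c379 (k8 c5776 c8015 c1835 c2478 c4493 c509 c561 c4398 (k1 c2119 k0)))))) (by decide +kernel)
def c8384 : PP 8 4 T 0x15200000000000000000020500000005010000080000080 := rS 0x31c762a148000a1d23b486efd2d8847315 (k8 c4350 c8383 c86 c495 c4304 c8300 c4470 c4374 (k8 c56 c527 c1098 c1567 c491 c1102 c7325 c8302 k0)) (by decide +kernel)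
def c8385 : PP 8 4 T 0x1400000000000000000000000000001100000045414000054050001555500000000000000000000000 := rS 0x33d58a2 (k4 c2118 c2120 c1523 c6601 k0) (by decide +kernel)
def c8386 : PP 8 4 T 0x1000000000800200000000000000000020500000205010000080000080 := rS 0x14a62145a2b615049e2ab891e8da584ea2d0a1634c64821d0014d72b523b486efd2d8847315 (k8 c4350 c8383 c86 c495 c4304 c8300 c4470 c4374 (k8 c7513 c7328 c418 c1098 c56 c174 c4364 c8015 (k8 c1218 c2478 c8308 c3247 c1097 c4993 c5776 c4055 (k8 c4445 c4296 c490 c491 c8384 c1758 c1644 c1246 (k2 c4475 c4429 k0))))) (by decide +kernel)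
def c8387 : PP 8 4 T 0x1000000000000000001000001000001100908044400000044058001150000001000000000004000002 := rS 0x18d12ad68d2e08b367b128633 (k8 c950 c4424 c1246 c1797 c1164 c4483 c4429 c5846 (k4 c6601 c682 c4407 c8207 k0)) (by decide +kernel)
def c8388 : PP 8 4 T 0x1000000000000000001000000000001100000045000000044050001555500000000000000000000000 := rS 0x4441286a253a853f0c (k8 c4477 c4384 c4329 c4532 c2118 c4393 c5380 c8385 (k1 c4314 k0)) (by decide +kernel)
def c8389 : PP 8 4 T 0x1000000000001000001000001000000100910045000000044058041551500000005150000004100006 := rS 0x638ec2705312dc92a75a91da4cd (k8 c1485 c4470 c4374 c7513 c4532 c4281 c8387 c8388 (k4 c4407 c1559 c4158 c7228 (k1 c8302 k0))) (by decide +kernel)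
def c8390 : PP 8 4 T 0x1000000000000000000000000000001200000044400000044008001550100000000000000000000000 := rS 0xad44b3cc743 (k4 c4422 c1729 c1792 c2619 (k2 c6601 c2120 k0)) (by decide +kernel)
def c8391 : PP 8 4 T 0x44000040040008000500020000008000000001000086 := rS 0x20a6544a1cce63590ac246d (k8 c4993 c1178 c289 c1177 c1559 c2462 c1565 c2471 (k2 c491 c4312 (k1 c6907 k0))) (by decide +kernel)
def c8392 : PP 8 4 T 0x100000008000000000000202000000080000002 := rS 0x63600a5281d (k4 c56 c275 c1681 c445 (k2 c754 c8018 k0)) (by decide +kernel)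
def c8393 : PP 8 4 T 0x20000000000000080002000004000140000008000004000000005400000000000002 := rS 0x1107224d2b17 (k4 c4420 c8018 c1660 c4471 (k2 c4487 c4962 k0)) (by decide +kernel)
def c8394 : PP 8 4 T 0x2000080000000000000000000000000100000000000001000000800000 := rS 0x10c51 (k2 c4405 c6806 (k1 c1836 k0)) (by decide +kernel)
def c8395 : PP 8 4 T 0x10000000000000000000000141000000000008840044000000000405550000001110000 := rS 0x2dd8e7c6284e0b45 (k8 c4452 c4410 c1565 c1634 c2005 c7228 c7634 c8221 k0) (by decide +kernel)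
def c8396 : PP 8 4 T 0x11000001000001000000000150045000140040808045555500000005550000005110006 := rS 0x7d64c110e8959c596ac123b494f0ca29fd9abe (k8 c643 c1485 c2659 c4452 c4477 c4532 c4470 c4374 (k8 c8393 c1518 c4471 c4358 c682 c8395 c6907 c8390 (k2 c4409 c8389 k0))) (by decide +kernel)
def c8397 : PP 8 4 T 0x200000000000000000005500000200010000080000080 := rS 0x10ead44b44aa28598e8e66f0d8457aa929ae4ce2d0aaee1865728fd16ab57c48d6192b80c12971ea6466be413c4da5842a0496d21b8e62a1653bf462698c9043a7a2d884009d (k8 c3247 c1098 c86 c495 c5776 c56 c174 c4364 (k8 c8015 c297 c4304 c4532 c1218 c4350 c8383 c8300 (k8 c4470 c4375 c1834 c2478 c1097 c4993 c4296 c5947 (k8 c643 c950 c1130 c8392 c3204 c30 c222 c1017 (k8 c4828 c561 c4055 c4346 c4445 c8308 c8391 c8394 (k8 c8386 c4477 c4921 c2630 c392 c8324 c7328 c418 (k8 c4345 c3179 c2592 c2669 c3099 c3100 c8396 c1042 (k4 c1102 c1600 c1763 c682 (k2 c781 c7313 (k1 c8137 k0)))))))))) (by decide +kernel)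
def c8398 : PP 8 4 T 0x200000000000000000001500000200010000080000080 := rS 0x1f50eb61db1d9213829899a653fafa8abb414314e733786c22f15e925024b5c99c5a155ab946247690ddfa398a8f532331fa2d0a1655abe246b34c6482192b874da7a2d8853a0304a5cb000 (k8 c1098 c1097 c3204 c30 c222 c3247 c86 c495 (k8 c5776 c4993 c56 c1017 c4828 c174 c4364 c8015 (k8 c561 c4055 c4346 c4445 c1218 c2478 c8308 c8391 (k8 c950 c1130 c8392 c4350 c8383 c4304 c8300 c4470 (k8 c4374 c297 c8394 c7513 c2630 c392 c8324 c7328 (k8 c4375 c1834 c4209 c3179 c4296 c2592 c2669 c3099 (k8 c3100 c4532 c4477 c5947 c4921 c4452 c643 c2659 (k8 c8386 c1485 c8397 c4407 c1559 c1729 c7228 c4158 (k4 c2113 c8395 c1626 c8387 k0))))))))) (by decide +kernel)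
def c8399 : PP 8 4 T 0x100000000020004004400a000000405550000000110004 := rS 0x16ec73e24c2705 (k4 c4407 c1559 c1608 c883 (k2 c7228 c1117 (k1 c8221 k0))) (by decide +kernel)
def c8400 : PP 8 4 T 0x800200000000004000000000500000200410000080000080 := rS 0x16ec714945971156194924b29ae5466716a25671631a30fe605ab946247694547e8b4285956af891acd31920864ae1d4b8ddfa3d4c8ccda7a2d8853a3908854b00001824de73 (k8 c3100 c3099 c30 c222 c1098 c1097 c2630 c2592 (k8 c8383 c3247 c86 c495 c5776 c4993 c950 c1130 (k8 c8392 c4304 c8300 c3204 c56 c1017 c4828 c174 (k8 c4364 c8015 c561 c4055 c4346 c4445 c1218 c2478 (k8 c8308 c8391 c4350 c4470 c4374 c297 c8394 c7513 (k8 c8398 c8327 c617 c8399 c4471 c4358 c682 c392 (k8 c8324 c936 c7328 c418 c4375 c4209 c8386 c2120 (k4 c4338 c2027 c1865 c781 (k2 c7343 c1247 (k1 c4034 k0)))))))))) (by decide +kernel)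
def c8401 : PP 8 4 T 0x4200000000004000000000500000200410000080000080 := rS 0x286229fa1ab18c655cc35466716a25671631a30fe605ab946247690fd16850b2ad5f12359a482192b8752e377e8f53233369e8b6214e8e422152c0000609379cd4ebf8aaf63291 (k8 c3165 c4364 c3179 c4350 c8400 c8272 c3100 c3099 (k8 c30 c222 c1098 c1097 c2630 c2592 c8383 c3247 (k8 c86 c495 c5776 c4993 c950 c1130 c8392 c4304 (k8 c8300 c3204 c56 c1017 c4828 c174 c8015 c561 (k8 c4055 c4346 c4445 c1218 c2478 c8308 c8391 c4470 (k8 c4374 c297 c8394 c7513 c8398 c8327 c617 c8399 (k8 c4471 c4358 c682 c392 c8324 c936 c4326 c7328 (k8 c8384 c8302 c2120 c4391 c1392 c4338 c900 c4489 k0)))))))) (by decide +kernel)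
def c8402 : PP 8 4 T 0x200000000004000000000500000200410000080000080 := rS 0x29888ad249fa1ad8930d4628cc06772b486efd1cc54622d1fa2d0a1655abe246b34c6482192b80c12971ea64666d3d2742a580016c421d (k8 c56 c86 c495 c1098 c1097 c2630 c3247 c5776 (k8 c4993 c950 c1130 c8392 c3204 c30 c222 c1017 (k8 c4828 c174 c4364 c8015 c561 c4055 c4346 c4445 (k8 c1218 c2478 c8308 c8391 c392 c297 c4350 c8383 (k8 c4304 c8300 c4470 c8394 c8324 c8398 c936 c617 (k8 c4326 c4209 c8401 c4424 c5142 c1117 c5588 c4413 (k2 c1568 c4468 k0))))))) (by decide +kernel)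
def c8403 : PP 8 4 T 0x200000000004000000000500000200010000080000080 := rS 0x2b4c66544b44509215acc74730dbc4a66772b486efd1cc54622d1fa2d0a1655abe246b34c6482192b80c12971ea64666d3d2742a580016c421d (k8 c56 c86 c495 c1098 c1097 c2630 c3247 c5776 (k8 c4993 c950 c1130 c8392 c3204 c30 c222 c1017 (k8 c4828 c174 c4364 c8015 c561 c4055 c4346 c4445 (k8 c1218 c2478 c8308 c8391 c392 c297 c4350 c8383 (k8 c4304 c8300 c4470 c8394 c8324 c418 c4296 c2669 (k8 c3100 c8402 c1042 c1641 c1101 c1102 c1763 c682 (k4 c491 c1608 c781 c8058 k0))))))) (by decide +kernel)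
def c8404 : PP 8 4 T 0x200000000000000000000500000200010000080000080 := rS 0xa031ad876c76484ca90543230fe605aae5ca812392c7ed2459246e858abf52e733785422390b0c4325701824d6af55c48d319208747a99199b4b07a2d8853a00 (k8 c1098 c3247 c86 c495 c5776 c1097 c4993 c950 (k8 c1130 c8392 c56 c174 c4364 c8015 c4055 c4445 (k8 c4346 c561 c30 c222 c1017 c4828 c297 c1218 (k8 c8383 c2592 c2630 c3099 c3100 c3204 c4304 c4350 (k8 c2478 c8300 c4209 c8308 c4470 c8391 c4375 c4374 (k8 c1834 c8394 c7328 c7513 c8398 c8327 c617 c8403 (k8 c4410 c1837 c1565 c1733 c7228 c1600 c2113 c8399 (k2 c1118 c5930 k0)))))))) (by decide +kernel)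
def c8405 : PP 8 4 T 0x10000000001001000000010108101100001000400015501502000001110000005000000 := rS 0x18ed307a9df84923afe8715 (k8 c4353 c4424 c1246 c1587 c4209 c4480 c8272 c4376 (k2 c6517 c250 (k1 c4473 k0))) (by decide +kernel)
def c8406 : PP 8 4 T 0x500000200080000080000080 := rS 0x8540a9c1afc46c5522710b2f4d6a5891e8b621369613a698c9043a00 (k8 c1098 c56 c174 c4364 c8015 c3247 c1097 c4993 (k8 c86 c495 c5776 c4055 c4444 c561 c3179 c1218 (k8 c2431 c3165 c4386 c1384 c8300 c1407 c4500 c4380 (k2 c522 c4130 k0)))) (by decide +kernel)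
def c8407 : PP 8 4 T 0x1100000000000001080000001100000000400001501502000000000000000940000 := rS 0x299fa85408381a7e (k8 c7228 c1448 c250 c1461 c522 c4376 c2119 c5558 k0) (by decide +kernel)
def c8408 : PP 8 4 T 0x10100000001100000000400001501500202000000004000800000 := rS 0x14e85409289e0f (k4 c243 c452 c1725 c1835 (k2 c523 c1857 (k1 c2119 k0))) (by decide +kernel)
def c8409 : PP 8 4 T 0x1000000000000000000100145100001008400055501540000205550104015900000 := rS 0xa67ea1596a13f93c8ca324b1d6eb559a7e2c675c8ad9ec972b14ca1368ab59a502a415e319 (k8 c4364 c4296 c4410 c1837 c1836 c3753 c3751 c1631 (k8 c1565 c1653 c1634 c4405 c3654 c3546 c1644 c7328 (k8 c8324 c4471 c6233 c4358 c4419 c8405 c8407 c8408 (k8 c4241 c2113 c1493 c1312 c1585 c3544 c523 c7787 (k2 c2128 c5558 k0))))) (by decide +kernel)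
def c8410 : PP 8 4 T 0x4145100000044400155501540410805550104010110000 := rS 0xcf56a7d008532c1618a73e3f566b58b19e28cb50b24fea35cb35cad3 (k8 c4374 c4404 c1318 c1315 c1314 c1312 c1583 c1585 (k8 c1589 c4470 c8324 c4471 c4389 c4358 c7787 c2121 (k8 c4532 c4477 c4409 c1651 c1502 c2119 c4384 c6230 (k2 c1366 c2128 k0)))) (by decide +kernel)
def c8411 : PP 8 4 T 0x80000004000000054200000540540000000004100004800002 := rS 0xad31994a05515928fefd (k8 c4380 c1462 c1834 c7325 c251 c1454 c491 c755 (k2 c1865 c8057 k0)) (by decide +kernel)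
def c8412 : PP 8 4 T 0x1000000000000014045500000044408001501540001405550100015900002 := rS 0x1960a633f154180f4220512b38b19d8ce519ad628d3 (k8 c6517 c4470 c4389 c950 c7430 c2113 c8324 c4471 (k8 c4358 c682 c8411 c2119 c1496 c6224 c250 c1447 (k4 c755 c4313 c554 c6907 k0))) (by decide +kernel)
def c8413 : PP 8 4 T 0x1000000044000020005400040046000000514440001000005004005800000 := rS 0x2352b118619846d112ab5124e668328b43 (k8 c4394 c4397 c6224 c1482 c523 c685 c6601 c1367 (k8 c5846 c1489 c8058 c4467 c4334 c856 c4383 c6781 k0)) (by decide +kernel)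
def c8414 : PP 8 4 T 0x4004045500040044408004501560001605551104011800002 := rS 0x12b115619d268d86225fa804298c5265679f5c9175c34c36153a8ccdaf1 (k8 c4296 c4993 c950 c2432 c2630 c2669 c6517 c8412 (k8 c4361 c7328 c1355 c1526 c4165 c4402 c754 c8413 (k8 c2119 c4380 c2045 c4477 c4383 c1125 c657 c2120 (k2 c4338 c861 (k1 c4487 k0))))) (by decide +kernel)
def c8415 : PP 8 4 T 0x1000000000000010000000000000000004020044000040044400000501520015205001004410000002 := rS 0x105338ad2689518359a242718da6c7149953ecf7250e2e6d0a844eaf1 (k8 c4296 c2432 c2592 c2630 c4993 c4361 c4394 c7328 (k8 c1526 c1396 c4165 c4402 c4289 c6806 c754 c4474 (k8 c4467 c1479 c1367 c1463 c6175 c1126 c5588 c657 (k2 c4519 c6907 k0)))) (by decide +kernel)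
def c8416 : PP 8 4 T 0x2000000000000000014100000000014000000054000000200100000080000080 := rS 0x60d2d667f56410e66f0a844ea7121b0c7e8b55abe246b34c6482192b874da7a2d8853a0304a5cb000 (k8 c1098 c1097 c3204 c30 c222 c3247 c86 c495 (k8 c5776 c4993 c56 c1017 c4828 c174 c4364 c8015 (k8 c561 c4055 c4346 c4445 c8286 c8391 c3220 c175 (k8 c2431 c2432 c2592 c2630 c3099 c3100 c6907 c2120 (k4 c4313 c4312 c4458 c1987 (k1 c8274 k0)))))) (by decide +kernel)
def c8417 : PP 8 4 T 0x54000000000020008000000000001405550000000000000 := rS 0xe45ac5d88b2 (k4 c682 c683 c4358 c1789 (k2 c4471 c7430 k0)) (by decide +kernel)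
def c8418 : PP 8 4 T 0x14000000000004000000008000005605140000000004002 := rS 0x168e5639445054 (k4 c755 c754 c1604 c250 (k2 c4402 c4034 (k1 c7513 k0))) (by decide +kernel)
def c8419 : PP 8 4 T 0x14000000040400000000080040001405550100010100000 := rS 0x5ab912b11 (k4 c4334 c856 c8324 c7420 (k1 c7430 k0)) (by decide +kernel)
def c8420 : PP 8 4 T 0x4000000000000000000000500001200410000080000080 := rS 0x5aaccfe9588990ce6344ae4fa0f6488c968f5dbf28b0d5330c624743c257a160da446e53168fc3257018252e8330a2d623d4c8cd56a557aa6246b3d274d319209344e39389d42215001b4b05b109bce61d (k8 c56 c3100 c3099 c86 c495 c1097 c4993 c1098 (k8 c2630 c2592 c2432 c2431 c8383 c352 c378 c174 (k8 c4364 c8015 c3247 c5776 c561 c4055 c4345 c4346 (k8 c4444 c4445 c950 c1130 c8392 c8404 c8286 c616 (k8 c642 c3204 c30 c222 c1017 c4828 c8391 c392 (k8 c418 c8406 c3165 c2669 c1218 c3179 c4320 c8409 (k8 c8410 c297 c3220 c8414 c4330 c4453 c4532 c1979 (k8 c853 c1857 c773 c4305 c4376 c4379 c8415 c8417 (k8 c8418 c8419 c8416 c4412 c1696 c554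 c2437 c7420 (k1 c2121 k0)))))))))) (by decide +kernel)
def c8421 : PP 8 4 T 0x1000000000010800002001000000000000148000000001000000010400000400001550000080800002 := rS 0x344a34b7292594c469454d231 (k8 c1910 c7300 c4353 c7094 c7634 c8275 c4209 c8394 (k4 c4429 c1594 c1750 c4475 k0)) (by decide +kernel)
def c8422 : PP 8 4 T 0x800000000000000400500000200410000000000080 := rS 0x82994cea04498d5a24098a4a2ca1531da6485ba1cdef18caf4e61b20854e21d028c552a51b8f532831694c7e8b55abc320304a5e1b455da4496270008c9a3964bf0c2b10f0ce250936a74b05b3d15cd216 (k8 c1218 c7300 c3230 c1217 c2474 c4476 c1235 c4270 (k8 c4320 c4479 c4340 c6169 c8404 c616 c4532 c4305 (k8 c8383 c378 c773 c1098 c7417 c1857 c1156 c1979 (k8 c4453 c4330 c3204 c30 c222 c256 c4346 c4445 (k8 c8286 c8391 c418 c392 c642 c3140 c8392 c8406 (k8 c4444 c4345 c1910 c2492 c1026 c2475 c2634 c174 (k8 c689 c3232 c3179 c4364 c4296 c1019 c8409 c8421 (k8 c8420 c4281 c147 c7307 c4599 c1725 c1721 c1718 (k8 c4467 c7113 c1607 c2024 c283 c896 c490 c5842 (k1 c6907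 k0)))))))))) (by decide +kernel)
def c8423 : PP 8 4 T 0x1000000000000000004000000040008040100040400015805000095100002 := rS 0x10ead31995126768954509215acdca2d (k8 c392 c4403 c1042 c1641 c1101 c1102 c1600 c1763 (k4 c8324 c682 c491 c1608 (k2 c781 c7313 (k1 c8137 k0)))) (by decide +kernel)
def c8424 : PP 8 4 T 0x45500000054400001455500002000000000000800000 := rS 0x854093c1ecb2aab20869 (k8 c7300 c6907 c2120 c4406 c2026 c242 c453 c1835 (k2 c523 c2119 k0)) (by decide +kernel)
def c8425 : PP 8 4 T 0x4000000001500000020410001501500000000000000000000000 := rS 0x10a81 (k2 c2045 c685 (k1 c2119 k0)) (by decide +kernel)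
def c8426 : PP 8 4 T 0x1500000000400001409500002000000000000800002 := rS 0x42a049e0f113245069 (k8 c7300 c754 c1729 c1721 c243 c1489 c1835 c523 (k1 c2119 k0)) (by decide +kernel)
def c8427 : PP 8 4 T 0x1000000000000000000000000400000054400001481500002000000000000800000 := rS 0x4213d02d107d29930554a962469 (k8 c7300 c4479 c4444 c4345 c4310 c632 c4485 c243 (k4 c4426 c1835 c452 c2119 (k1 c523 k0))) (by decide +kernel)
def c8428 : PP 8 4 T 0x400500000200010000000000080 := rS 0x21102c87283c24553219cc689679f58e485bb4d4e871d94c5a3f41985164d1e8dd62271c80d2e000f2ad4aaf548ce24314e9bc22f15ea64e6190486c826984854e26d0e81522582d9e82c57 (k8 c3230 c1218 c1217 c2474 c4476 c1156 c2492 c1026 (k8 c4270 c2475 c2634 c4320 c7300 c174 c689 c30 (k8 c256 c3232 c3140 c3179 c4296 c609 c1019 c1235 (k8 c1910 c4479 c4340 c4345 c4346 c4444 c4445 c6169 (k8 c1098 c3204 c222 c8383 c7417 c8404 c8406 c8392 (k8 c378 c8286 c616 c642 c8391 c392 c418 c8423 (k8 c8409 c8422 c6517 c7094 c8420 c147 c1623 c1791 (k8 c8425 c8426 c8427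 c8424 c1647 c490 c242 c4401 (k4 c1718 c1835 c8270 c716 k0))))))))) (by decide +kernel)
def c8429 : PP 8 4 T 0x8000900000000000000000004000410 := rS 0x313 (k2 c4442 c2440 (k1 c5481 k0)) (by decide +kernel)
def c8430 : PP 8 4 T 0x100005100000000004118110020000000004000000010000002 := rS 0x5caccff16 (k4 c4165 c2438 c2437 c4361 (k1 c4032 k0)) (by decide +kernel)
def c8431 : PP 8 4 T 0x100015500000000044118111550000000205140002000004012 := rS 0x49310ac8f053f2bd564b52c4a1289 (k8 c682 c4320 c4479 c4444 c1373 c4445 c4346 c4032 (k4 c4313 c3351 c4191 c6907 (k2 c282 c8418 k0))) (by decide +kernel)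
def c8432 : PP 8 4 T 0x10000000000000000100005500440040044118115500020000205141002000004012 := rS 0x143115618c52518227dc9435c19de23389424ca1d (k8 c1026 c8430 c4320 c4479 c4340 c4296 c656 c8431 (k8 c4394 c7328 c1396 c4548 c4405 c4402 c4407 c5842 (k2 c4338 c900 (k1 c4489 k0)))) (by decide +kernel)
def c8433 : PP 8 4 T 0x400000000000000100001000000040044020000000040044008001514800014000000000000000000 := rS 0x5117c4f6232e968833a7d9eaf55c4a1283 (k8 c2514 c4320 c4479 c4445 c4346 c1526 c1396 c659 (k8 c6907 c4457 c2024 c683 c6220 c1254 c4474 c4399 k0)) (by decide +kernel)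
def c8434 : PP 8 4 T 0x4000000400040044008115500820010205511000000004012 := rS 0x338a93e485c98e862963b90271782ac8caf10ec3502c95889cc2a33e92c48a55bad628d3060dd1e1e19c4a129d (k8 c1235 c4320 c4479 c4340 c6169 c1425 c273 c488 (k8 c4371 c4470 c4389 c4353 c4444 c489 c1373 c3346 (k8 c3435 c122 c870 c2434 c2435 c1382 c4382 c1026 (k8 c4296 c8430 c8432 c4312 c4358 c513 c4471 c1448 (k8 c4402 c8226 c754 c8433 c7114 c1663 c282 c659 (k1 c4191 k0)))))) (by decide +kernel)
def c8435 : PP 8 4 T 0x5000000000008010000000000004205550000000804000 := rS 0x2e492e56391ca054 (k8 c1837 c1836 c1602 c250 c4405 c1725 c7328 c2113 k0) (by decide +kernel)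
def c8436 : PP 8 4 T 0x1000000100015100000000044118110500040000205540102010104012 := rS 0xb28b19cda65 (k4 c8430 c4270 c8324 c4471 (k2 c8431 c4358 k0)) (by decide +kernel)
def c8437 : PP 8 4 T 0x1000010000000000046008110500840010205550100010104012 := rS 0xad4499d40cf4f98c902923b915eab89424da27309956ab78a34cfa24062c59281 (k8 c1382 c2435 c2434 c488 c489 c3346 c4371 c4470 (k8 c4353 c4389 c8430 c122 c870 c4270 c4320 c4479 (k8 c4445 c4346 c8436 c4404 c4402 c7430 c754 c1663 (k4 c1791 c283 c659 c685 (k2 c901 c2120 k0))))) (by decide +kernel)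
def c8438 : PP 8 4 T 0x800000200010000000000080 := rS 0x28622ac3199d12294fb3dc9435c2119a4ea2a98ca871d94c5ab55b8fe288b259f546d307ac59224061346e8141a3e1a6f78b0ce6190a9d4e21d18abd4aab4b80c12391e801321e19c4a126d4e9ac0a690d90416582d9e82c57 (k8 c3230 c1218 c1217 c2474 c4476 c83 c174 c689 (k8 c7300 c2492 c8429 c1235 c4270 c4320 c4479 c4340 (k8 c6169 c3140 c1098 c8392 c8383 c30 c222 c3204 (k8 c4445 c4444 c4346 c1910 c1026 c2475 c2476 c2634 (k8 c256 c3232 c3220 c4296 c1019 c4382 c1425 c2514 (k8 c1382 c273 c1990 c488 c489 c2435 c2434 c1376 (k8 c4371 c3435 c3346 c1373 c8286 c4470 c8391 c4353 (k8 c4389 c392 c418 c8423 c8435 c8430 c8434 c4453 (k8 c4474 c3453 c1487 c8437 c4394 c7328 c1526 c1396 (k8 c4402 c685 c659 c754 c2120 c4338 c901 c4489 k0)))))))))) (by decide +kernel)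
def c8439 : PP 8 4 T 0x1000000000000004020044000040144450101540000000205000000010000002 := rS 0x12b115618c528932b928717 (k8 c4361 c4394 c7328 c4165 c4529 c4402 c754 c2120 (k2 c4338 c861 (k1 c6781 k0))) (by decide +kernel)
def c8440 : PP 8 4 T 0x2000001000002000000000010044000000044450001540000000401550000000011002 := rS 0x410a8893199491431484d6eb5 (k8 c4389 c4353 c4401 c4402 c8226 c7430 c490 c754 (k4 c4529 c4199 c6907 c4406 k0)) (by decide +kernel)
def c8441 : PP 8 4 T 0x1000000000000000000015020000000004400000000000400405550000801008000 := rS 0x63924534b (k4 c4458 c781 c4527 c1450 (k1 c2113 k0)) (by decide +kernel)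
def c8442 : PP 8 4 T 0x2000000000000000000004000000000040044018155500200000205550000011010016 := rS 0x31c92292a9915a6364225671672ae48e6757aae25097e835428d3f83844b75aa0d6253 (k8 c418 c4350 c642 c4389 c4353 c752 c753 c3426 (k8 c1337 c2713 c1288 c4377 c4320 c4479 c4445 c4346 (k8 c923 c1331 c8439 c8440 c4471 c4358 c682 c2121 (k8 c1728 c8441 c2120 c1647 c1567 c242 c1450 c2113 k0)))) (by decide +kernel)
def c8443 : PP 8 4 T 0x2000000000000000000004000000000040044008154500240000205550000011110016 := rS 0x224c6672ab948cc732c14f8af55c4a126d068b53e0e112dd6a53 (k8 c418 c4389 c4353 c752 c753 c3311 c2918 c1288 (k8 c4270 c4320 c4479 c4445 c4346 c8442 c4409 c1650 (k8 c1352 c8221 c4404 c1603 c8324 c755 c7314 c6907 k0))) (by decide +kernel)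
def c8444 : PP 8 4 T 0x200010000000000080 := rS 0x24ae592e523b1c26502a4150c3b298fd16b55b9fd0b14110dc1c0d2e17c7a3901a5c001e10aad5e33890c53a6b0e960da713a814b615849a436570c9cd327a61859e2410482cde11 (k8 c609 c1019 c83 c30 c174 c4296 c1218 c3220 (k8 c1217 c3140 c3232 c256 c3230 c689 c7300 c4320 (k8 c2634 c2474 c2492 c2476 c2475 c4270 c4476 c1026 (k8 c8429 c1235 c1910 c4479 c4340 c4346 c4445 c440 (k8 c6169 c1098 c3204 c222 c8383 c8392 c8438 c8428 (k8 c1288 c753 c6960 c752 c8197 c1498 c3426 c4353 (k8 c4389 c8308 c8391 c418 c8423 c8443 c4410 c1837 (k8 c1836 c1565 c7228 c1603 c4405 c3654 c7328 c243 (k1 c2113 k0))))))))) (by decide +kernel)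
def c8445 : PP 8 4 T 0x800000002000000000014000004000000008000000000020000151400000000000082 := rS 0x19e22e449c5d81056886ca6151f8b42651 (k8 c4435 c1564 c911 c1178 c2630 c1903 c2669 c1631 (k8 c4410 c2115 c4420 c1660 c4471 c8016 c657 c5056 k0)) (by decide +kernel)
def c8446 : PP 8 4 T 0x4000000008008000500000000100000000080000082 := rS 0xce2a498f0761328bc0863162c482a6d209cd3a5810c263205829958677 (k8 c182 c1906 c1653 c4410 c54 c4366 c4320 c86 (k8 c1097 c3247 c3100 c3108 c4993 c2630 c4055 c1634 (k8 c7393 c276 c4472 c4435 c1564 c4158 c8445 c1655 (k2 c274 c657 (k1 c4191 k0))))) (by decide +kernel)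
def c8447 : PP 8 4 T 0x100000000000010000000054000000000000000010000500002005500210000002 := rS 0xac523b (k4 c89 c1681 c5902 c2112 k0) (by decide +kernel)
def c8448 : PP 8 4 T 0x100000000000000000000000000000000000000004000000000000020000140000 := rS 0xaae5 (k2 c4402 c1598 (k1 c4464 k0)) (by decide +kernel)
def c8449 : PP 8 4 T 0x4000000008008000500000000100000000000000082 := rS 0x3d152bc522d099445ef029b44626336054361d10264b4590f82cae330bc155a65 (k8 c1653 c1904 c4410 c521 c951 c1227 c83 c8446 (k8 c487 c4476 c1131 c495 c759 c2672 c2632 c704 (k8 c2822 c317 c1631 c1903 c5814 c783 c4435 c1564 (k4 c911 c8448 c1632 c2112 (k2 c8447 c314 k0))))) (by decide +kernel)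
def c8450 : PP 8 4 T 0x8008000500000000100000000000000082 := rS 0x738bacd80954d264b4593644d5475829dcf309 (k8 c4320 c183 c182 c4410 c1693 c8449 c4445 c4479 (k8 c4993 c4270 c1131 c705 c1701 c1972 c665 c4420 (k2 c1621 c4481 k0))) (by decide +kernel)
def c8451 : PP 8 4 T 0x6101200000000000000000004001500050001400104000000044000005405400010000 := rS 0x32572fc4693218d3 (k8 c6996 c4467 c2111 c4383 c4248 c6781 c4305 c7081 k0) (by decide +kernel)
def c8452 : PP 8 4 T 0x5500000040000050154000000000000000088000040002 := rS 0x5cb253c0c (k4 c871 c355 c506 c1396 (k1 c2121 k0)) (by decide +kernel)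
def c8453 : PP 8 4 T 0x6101200000000000000000004001100050001400106000000044000005405400010000 := rS 0xa7 (k2 c905 c8451 k0) (by decide +kernel)
def c8454 : PP 8 4 T 0x2001000000000000000000005408000850040400156000000040000005481400050002 := rS 0x4354e8c4fae193454209d52a547ac577114912e267f3ec122ec0 (k8 c1972 c4420 c4481 c4409 c4313 c4445 c6906 c1973 (k8 c4415 c4390 c4350 c4388 c1970 c866 c8452 c8453 (k8 c4397 c716 c2121 c1396 c1125 c2013 c4383 c4490 k0))) (by decide +kernel)
def c8455 : PP 8 4 T 0x1000000001000095040000000000000044450000000001544400000000000150000 := rS 0x10afda283992ca069349281 (k8 c4196 c4281 c4282 c4371 c2116 c8041 c2107 c4455 (k2 c4376 c1495 (k1 c4484 k0))) (by decide +kernel)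
def c8456 : PP 8 4 T 0x1000000000000040000005408000810040400142000000040000055080200040082 := rS 0x114129c4de114b88c5e39 (k8 c2323 c2830 c833 c2930 c609 c1019 c497 c312 (k2 c4470 c8454 k0)) (by decide +kernel)
def c8457 : PP 8 4 T 0x2008001010100000000000000000054010004004200000000 := rS 0x29194ba (k4 c1749 c1748 c6959 c1941 k0) (by decide +kernel)
def c8458 : PP 8 4 T 0x1000055042100000010901000000000000000544410084000200000000 := rS 0x6550892b754afc9a27 (k8 c321 c325 c1511 c867 c8457 c323 c4473 c2116 (k1 c4425 k0)) (by decide +kernel)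
def c8459 : PP 8 4 T 0x1000000001000000000000408000900044400142000000140010014080200100082 := rS 0xb48a2dc6ed308b452a911892e262f29af59acf50a48263b1f9fcfa558245d803c638e48e23 (k8 c833 c1643 c2323 c2262 c314 c1972 c4420 c4481 (k8 c4406 c4409 c4313 c8194 c1580 c8248 c1973 c3668 (k8 c3599 c3882 c3922 c3880 c2830 c4445 c6906 c317 (k8 c2892 c1701 c1671 c609 c8455 c8458 c1743 c4470 (k2 c8456 c4389 k0))))) (by decide +kernel)
def c8460 : PP 8 4 T 0x1000000000000040000000408000810040400142000000040000055080200040082 := rS 0xb48a2dc7839 (k4 c2323 c314 c1743 c4470 (k2 c8456 c4389 k0)) (by decide +kernel)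
def c8461 : PP 8 4 T 0x8000000004008002000000000000010080000000082 := rS 0x5dd1594495baa57e4d13c546cd37211d8f098c9cda21541a44464125c4c5e535eb35669527b3d429209c5c76c04d145e01b18a64b2330b9147e203aa2cca5a (k8 c4270 c2444 c1672 c708 c495 c8194 c8444 c521 (k8 c951 c4993 c1131 c317 c2672 c5814 c4435 c705 (k8 c1972 c1580 c4420 c8248 c1973 c3668 c3599 c4297 (k8 c1701 c665 c3882 c3922 c3880 c2830 c4445 c6906 (k8 c1050 c833 c2892 c2626 c2632 c1671 c1231 c4366 (k8 c4320 c2262 c1643 c8459 c5669 c8460 c4386 c321 (k8 c325 c1511 c867 c8457 c323 c2116 c4455 c1981 (k1 c4493 k0)))))))) (by decide +kernel)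
def c8462 : PP 8 4 T 0x15042100000010901000000000000000544411084000200000000 := rS 0x5bad686a9652fc9ab92489e2b17 (k8 c4420 c4386 c321 c322 c1472 c325 c1511 c2116 (k4 c867 c4425 c1709 c8457 (k1 c4492 k0))) (by decide +kernel)
def c8463 : PP 8 4 T 0x80000000200000000000080 := rS 0x1600c (k2 c1138 c1137 (k1 c2456 k0)) (by decide +kernel)
def c8464 : PP 8 4 T 0x100000000000000040000020000000058000000000000000000000000101400000000 := rS 0x13c35448c (k4 c1125 c5821 c4383 c934 (k1 c4467 k0)) (by decide +kernel)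
def c8465 : PP 8 4 T 0x4000200000000000040040014000000000000000104000000000405550000000010000 := rS 0xd7e83d9048099556b14 (k8 c4470 c4389 c4406 c8248 c2113 c7081 c242 c4305 (k2 c506 c4463 k0)) (by decide +kernel)
def c8466 : PP 8 4 T 0x4000200000000000040040010000000000000000104000000000405550000000010000 := rS 0xb6 (k2 c8465 c7094 k0) (by decide +kernel)
def c8467 : PP 8 4 T 0x8000000000008000500000000000010000000000082 := rS 0x17239128dda6c723b907a2b16c10263b8ba859e752893d662966af5805325a4916f0208bc622348a5c7e954d20cca1b10264b4593634623133784612330b9cd0e45 (k8 c8444 c8450 c1231 c521 c951 c4320 c609 c1019 (k8 c4445 c4415 c1671 c4479 c4993 c4270 c1131 c495 (k8 c2672 c2444 c2626 c705 c1701 c8194 c2930 c2892 (k8 c833 c317 c2830 c1050 c5814 c1672 c1973 c6906 (k8 c3880 c1972 c3922 c3882 c834 c665 c4297 c4435 (k8 c708 c3599 c3668 c4420 c1580 c8248 c4481 c911 (k8 c8461 c7465 c4468 c4404 c4289 c5669 c8462 c312 (k2 c8463 c8464 (k1 c8466 k0))))))))) (by decide +kernel)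
def c8468 : PP 8 4 T 0x804000000000008000400000400000404100200000082 := rS 0x56bc15e8b4d1b03666498c52e5a2c82e1203 (k8 c28 c4320 c83 c7039 c830 c2930 c8071 c1123 (k8 c5025 c2672 c704 c705 c2705 c2872 c5814 c945 (k1 c4542 k0))) (by decide +kernel)
def c8469 : PP 8 4 T 0x4000000000000000040040010000000000000008100500000000405550000000000082 := rS 0x8853b104ac12fa85246667c45a2f061a7c86a5548bd162718c4882610f074da1b2c16c425d07b256451298b60a483eb90266f08c263257028cc2e734391556b75aa0d6314 (k8 c4470 c4350 c642 c4389 c4353 c8467 c8444 c8450 (k8 c1231 c521 c951 c54 c1227 c4366 c4320 c609 (k8 c1019 c8248 c4471 c8221 c2113 c8466 c911 c4290 (k8 c4405 c4481 c634 c243 c753 c8468 c495 c4476 (k8 c5876 c4270 c1026 c487 c616 c1050 c4479 c7393 (k8 c352 c8286 c6988 c4345 c4444 c276 c1663 c1212 (k8 c4472 c4298 c4498 c1790 c5056 c657 c896 c659 (k4 c1660 c283 c2115 c4558 (k2 c1251 c8425 k0))))))))) (by decide +kernel)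
def c8470 : PP 8 4 T 0x4000000000000000040040010000000000000008100500000000401550000000000082 := rS 0x57a2d5b120f19cda581696ccb054498c4293590487d090b95c068722aad6314 (k8 c4470 c4350 c8467 c8444 c8450 c28 c1227 c521 (k8 c4320 c8469 c1178 c1177 c3131 c8194 c1559 c516 (k8 c4312 c2437 c2464 c7177 c4476 c4270 c511 c487 (k4 c4479 c6230 c8286 c4346 (k1 c2120 k0))))) (by decide +kernel)
def c8471 : PP 8 4 T 0x6000000000000000040040010000000000000000140000004000000810000000000082 := rS 0x2c96c28b282b249295729bc22b7 (k8 c4353 c609 c1019 c4403 c8077 c1723 c8024 c7081 (k4 c4481 c1042 c665 c2630 (k1 c4476 k0))) (by decide +kernel)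
def c8472 : PP 8 4 T 0x100000000000000000000000000000000000000010044000002000000000000002 := rS 0x19c54930f084b005 (k8 c54 c4476 c830 c487 c1655 c274 c657 c4191 k0) (by decide +kernel)
def c8473 : PP 8 4 T 0x4000100000000000000000000004000000004008100400004000002404000000000082 := rS 0x14a2922d12202d2ca12731680cca13 (k8 c1678 c490 c28 c7822 c1231 c4320 c4481 c8472 (k4 c495 c2665 c2705 c8468 (k2 c4485 c4456 k0))) (by decide +kernel)
def c8474 : PP 8 4 T 0x2000000000000000040000000000000000000008000400080014000050004000000082 := rS 0x27a9d52a517bc04a3111a68d81b1002e12330b915768f (k8 c4388 c4390 c8444 c521 c951 c4320 c83 c495 (k8 c2672 c704 c705 c833 c8071 c312 c5814 c783 (k4 c1970 c866 c4558 c4297 (k1 c2111 k0)))) (by decide +kernel)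
def c8475 : PP 8 4 T 0x4000000000000000040040010000000000000008100500000000400150000000000082 := rS 0x2b55e9445c483c6d2c16c964d0709c1afd61b2112b333c10c6651484c783b059bc23092b814661739a1c8aab5ba0d6314 (k8 c4470 c4350 c642 c4353 c8467 c8444 c8450 c1231 (k8 c521 c951 c54 c1227 c4320 c609 c1019 c83 (k8 c8471 c8470 c1678 c7860 c490 c754 c8473 c4310 (k8 c4312 c4314 c7081 c1211 c4305 c506 c871 c4463 (k8 c245 c1334 c8474 c4476 c4270 c487 c4479 c8286 (k4 c275 c4346 c861 c2120 k0)))))) (by decide +kernel)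
def c8476 : PP 8 4 T 0x2001000000000000000000000000000000000400004000000044150100000000008000 := rS 0x1034542af9fabd (k4 c4354 c4376 c8260 c1495 (k2 c4399 c1363 (k1 c4484 k0))) (by decide +kernel)
def c8477 : PP 8 4 T 0x2000000000080000044000000054000001104020000000000000000002002 := rS 0x15a658299cfc12 (k4 c1448 c1447 c2462 c4313 (k2 c2438 c6230 (k1 c8142 k0))) (by decide +kernel)
def c8478 : PP 8 4 T 0x6000000000000000040080010000000000000008100500040000000110000000000082 := rS 0x3399424b282b24fefc06a24c6550793c96f021abd167d18c48821e0a9b436583784613190b95c0a734391556b75aa0d62e5 (k8 c4289 c4350 c642 c4389 c4353 c8467 c8444 c8450 (k8 c1231 c54 c1227 c521 c4366 c4320 c609 c1019 (k8 c4476 c5876 c4270 c2630 c487 c1050 c4479 c7393 (k8 c1352 c8286 c4346 c276 c4472 c4434 c4297 c8476 (k8 c250 c755 c7030 c8477 c4463 c7517 c4305 c7081 (k4 c4073 c7228 c2437 c2462 (k1 c6907 k0))))))) (by decide +kernel)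
def c8479 : PP 8 4 T 0x4000000000000000040080010000000000000008100500000000000150000000000082 := rS 0x980e13835fac8598e897133e8bc7e9a3605436202d0f5ca4937844661739a1c8ab75aa0d6314 (k8 c4470 c4350 c642 c4389 c4353 c8444 c8450 c1231 (k8 c521 c951 c609 c1019 c147 c4289 c331 c8478 (k8 c495 c2672 c2632 c704 c705 c8194 c783 c1352 (k8 c4342 c6906 c4471 c1042 c4073 c4305 c507 c871 (k2 c4463 c8474 (k1 c245 k0)))))) (by decide +kernel)
def c8480 : PP 8 4 T 0x4000000000000000040000010000000000000008100500000000000150000000000082 := rS 0x15e8b56c483c67369605a5b32a24c62149ac825051f325ca3d230ed8eb758c50de118485cae0339a1c8aab (k8 c8467 c8444 c8450 c1231 c28 c1227 c521 c4320 (k8 c609 c1019 c4470 c4350 c4353 c8479 c8471 c8475 (k8 c8078 c4404 c1583 c4471 c7081 c1178 c1177 c3131 (k8 c8194 c1559 c516 c2437 c2464 c7177 c4476 c4270 (k4 c511 c487 c4479 c6230 (k2 c8286 c4346 (k1 c2120 k0))))))) (by decide +kernel)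
def c8481 : PP 8 4 T 0x4000000210000000000082 := rS 0x164b61f (k4 c8383 c8463 c487 c4476 k0) (by decide +kernel)
def c8482 : PP 8 4 T 0x1100000000000010005000004000000054000041550000100155000000000100004 := rS 0x1d04ca6c5315295f12 (k8 c4479 c4346 c4485 c6907 c4429 c4456 c1559 c2115 (k1 c4158 k0)) (by decide +kernel)
def c8483 : PP 8 4 T 0x800000002000000000000000000000000080000000100060000000110000000000082 := rS 0x694306e5f8abf4c25d582103ca9 (k8 c4345 c487 c8308 c8286 c1497 c2694 c4304 c4350 (k4 c2434 c8300 c4477 c4470 (k1 c5204 k0))) (by decide +kernel)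
def c8484 : PP 8 4 T 0x1100000000000010005000004000000054000041540000100115000000080100014 := rS 0x1d0a4a6c5325288631 (k8 c7393 c276 c4485 c8482 c4429 c4456 c1567 c2115 (k1 c1102 k0)) (by decide +kernel)
def c8485 : PP 8 4 T 0x10000000000000000000011200010000000000000020520000005010000080000080 := rS 0x469816cfd (k4 c4304 c8384 c4477 c1118 (k1 c617 k0)) (by decide +kernel)
def c8486 : PP 8 4 T 0x1810200000000000000020111100010001000000154500000000000100000080000002 := rS 0x2397c8d652d9f87f599f55319 (k8 c4370 c4345 c4409 c4312 c4313 c4480 c4088 c8275 (k4 c1118 c1757 c4486 c1515 k0)) (by decide +kernel)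
def c8487 : PP 8 4 T 0x800200002000000080020000000000000000008000520020000000010000000000082 := rS 0x5bbf228615eac4ba5f8688c1a6f1c95c1271489cc3c7f1eae56b163a8740a3f59a845412 (k8 c490 c491 c3661 c4312 c1177 c54 c1026 c2432 (k8 c4165 c4419 c4361 c4416 c4313 c487 c3100 c3165 (k8 c2431 c30 c751 c8481 c1019 c4371 c4372 c5204 (k8 c488 c752 c8485 c1171 c616 c8486 c4477 c4353 (k1 c7787 k0))))) (by decide +kernel)
def c8488 : PP 8 4 T 0x8910002002000000040020000400010001000040050000000000000500000180000002 := rS 0x2f596cf5f89144365b2d49e69179ac2f19 (k8 c4370 c4431 c492 c4432 c756 c4297 c4419 c7787 (k8 c7094 c5964 c272 c1511 c3499 c1757 c1176 c8275 k0)) (by decide +kernel)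
def c8489 : PP 8 4 T 0x10001000000000000000011500000000000050154001001000005510080000010002 := rS 0xc7248941a5c2397d90b71bc500a03 (k8 c28 c54 c4480 c4386 c4353 c2121 c2435 c3580 (k4 c4477 c1288 c1336 c4199 (k2 c290 c2113 k0))) (by decide +kernel)
def c8490 : PP 8 4 T 0x810000002000000040000000000000000000000000020000000000010000000000082 := rS 0xb85f8aac1fa6f39954067f509f4e2915cad5885314c445a672090c621e22b0ca2d11e8ed83161faccea95150483a05308e4b05704884b611 (k8 c609 c2444 c830 c30 c751 c4476 c8481 c4213 (k8 c54 c1026 c490 c491 c3625 c539 c2437 c1177 (k8 c4165 c4420 c1641 c1678 c4298 c4435 c4362 c8444 (k8 c487 c4441 c276 c4433 c151 c910 c4412 c1567 (k8 c4712 c2115 c4419 c4361 c3165 c2431 c3576 c3661 (k8 c2438 c28 c1647 c1649 c1019 c8488 c8489 c4350 (k2 c2434 c8485 (k1 c8197 k0)))))))) (by decide +kernel)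
def c8491 : PP 8 4 T 0x800000002000000040000000000000000000000000020000000000010000000000082 := rS 0x10a5d640301efd242dc8ec71ba7cbe2553c30c211228e4e655019fc426d388f476b961ad583161faccea95150483a0520b44a269179ac2ea95290c621e2c16cae09 (k8 c30 c751 c2444 c4476 c487 c4441 c276 c4444 (k8 c4345 c4431 c492 c4432 c756 c4435 c4298 c4433 (k8 c54 c1026 c490 c491 c3625 c539 c2437 c1177 (k8 c4165 c4420 c4419 c4362 c4361 c1641 c1678 c2431 (k8 c4993 c830 c2438 c28 c1647 c1649 c8481 c8444 (k8 c609 c4213 c8490 c4330 c4381 c4382 c4384 c272 (k8 c290 c1642 c7094 c2113 c7787 c242 c4199 c1718 (k2 c753 c8267 (k1 c8375 k0))))))))) (by decide +kernel)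
def c8492 : PP 8 4 T 0x800000002000000000000000000000000000000000020000000000010000000000082 := rS 0x1ea09097e185625d2fc34460d69465885321a2d5631378448a39889ccaa0314855127f1699d42873e9b4f2711e8ecee1e5cb0d6ac18b0fd66754a8a8241d2c16cae0902905a251348bcd617 (k8 c4431 c492 c4432 c756 c4435 c4298 c4433 c54 (k8 c30 c751 c2444 c4476 c1026 c490 c491 c3625 (k8 c539 c2437 c1177 c4165 c4420 c4419 c4362 c4361 (k8 c487 c3101 c1641 c1678 c2431 c2433 c4993 c3576 (k8 c3577 c3661 c151 c910 c2438 c2439 c550 c1567 (k8 c28 c1647 c1649 c4412 c8481 c8444 c609 c1019 (k8 c4441 c4445 c8483 c276 c4712 c2115 c4370 c8491 (k8 c4371 c4372 c5204 c488 c752 c8485 c616 c8489 (k4 c5101 c8484 c4482 c8487 k0))))))))) (by decide +kernel)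
def c8493 : PP 8 4 T 0x10002000002000000080000000020000801001004004020060000004110000000000002 := rS 0xa2af504a953afd76a530ac11a9f8aad86ec72e97dfa471183492a1109b4e21e1e8ed72b58b1d52a2a090740a69179ac2e81 (k8 c4439 c4431 c492 c4432 c756 c54 c1026 c490 (k8 c491 c3625 c539 c4165 c4419 c4361 c1641 c1678 (k8 c487 c2431 c4993 c830 c3661 c4281 c4371 c4372 (k8 c4374 c5101 c488 c752 c7325 c8300 c2113 c4353 (k8 c5142 c1118 c4480 c619 c2053 c6963 c1242 c4532 (k4 c867 c2119 c2018 c4452 (k1 c4493 k0))))))) (by decide +kernel)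
def c8494 : PP 8 4 T 0x1002000000040000011000000800001000001501541000005510080080010000 := rS 0xa90623c90478a2dd4a9f1ba9e18c7 (k8 c7325 c4477 c4532 c8300 c4384 c4385 c7094 c4470 (k4 c1642 c2113 c4388 c4199 (k2 c866 c8375 k0))) (by decide +kernel)
def c8495 : PP 8 4 T 0x1000000000000000011400000000000050154001801000005510080000010002 := rS 0x1630d (k2 c4382 c2434 (k1 c8489 k0)) (by decide +kernel)
def c8496 : PP 8 4 T 0x1002000000000000000000000000000000000020000000000010000000000082 := rS 0x31d6e47248946e0e06970be55019fcfa711e8ed72b530b4d594b88aad349957c6588773cb0d83163aa551687150491273429ed3a1d02c22266b0b9b4d22f488787eb3378e4b05704884b611 (k8 c609 c2444 c830 c30 c751 c4476 c8481 c1019 (k8 c2437 c1177 c487 c3165 c4432 c756 c4993 c4431 (k8 c492 c8492 c4479 c54 c1026 c4733 c4055 c5976 (k8 c1649 c2439 c490 c491 c3577 c4322 c3625 c539 (k8 c4165 c4420 c4362 c2433 c3101 c2123 c4370 c3712 (k8 c1136 c4488 c1675 c4412 c4429 c4491 c8493 c4213 (k8 c4419 c4361 c1641 c1678 c2431 c3576 c2438 c28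 (k8 c1647 c8495 c8494 c1288 c753 c6960 c1336 c4199 (k4 c1331 c7094 c290 c2113 k0))))))))) (by decide +kernel)
def c8497 : PP 8 4 T 0x2000000000000000000000000000000000020000000000010000000000082 := rS 0x1a4d1b2d81e837e34d589a4caae9719620651681429ee1113359a49e171792cde111cc44e61b449fd5e87369e4e29d1da44ee1e61ad583161faccea95150483a582d95c1205 (k8 c54 c30 c751 c2444 c4476 c1026 c490 c491 (k8 c3625 c539 c2437 c1177 c4165 c4420 c4419 c4362 (k8 c487 c3101 c3165 c1641 c4733 c2431 c2433 c4993 (k8 c3577 c3712 c2438 c2439 c2671 c1649 c4412 c8481 (k8 c609 c1019 c4434 c4432 c4431 c4297 c756 c492 (k8 c8492 c4479 c4055 c5976 c4439 c4322 c4436 c2123 (k8 c4370 c4429 c1675 c1136 c4488 c4491 c8493 c8496 (k4 c4306 c4376 c7787 c7094 (k2 c2204 c1407 (k1 c2108 k0)))))))))) (by decide +kernel)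
def c8498 : PP 8 4 T 0x1000000000000400000000800901500001501500010100000000100000000 := rS 0x2f54c4254a948319 (k8 c4448 c1849 c1971 c867 c4472 c2119 c2014 c853 k0) (by decide +kernel)
def c8499 : PP 8 4 T 0x2001000000000005400400001000955001541501400014100400000180000000 := rS 0x4494a7a5db154e434d9750283 (k8 c4306 c4380 c4377 c8498 c277 c852 c4530 c6870 (k4 c2123 c1429 c4055 c4130 k0)) (by decide +kernel)
def c8500 : PP 8 4 T 0x1000000040000000000000000002000000000000014000000000004005000 := rS 0x2705e1345 (k4 c4397 c4321 c522 c4474 (k1 c4501 k0)) (by decide +kernel)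
def c8501 : PP 8 4 T 0x2001000000000005400400001000915001141501400014100400000180000080 := rS 0x22ceeb1 (k4 c4304 c3101 c8286 c8499 k0) (by decide +kernel)
def c8502 : PP 8 4 T 0x8000000000000000000200000000100000000080000002 := rS 0x302e (k2 c756 c757 (k1 c4518 k0)) (by decide +kernel)
def c8503 : PP 8 4 T 0x8000002001000000040000000400011000014041151001000000100500000184000082 := rS 0x6210cf69b3522cd2855f92cbe0d268911c8d1b2d81eb13bb0d6ac1 (k8 c4420 c4419 c4362 c3101 c4304 c4376 c7787 c7094 (k8 c1118 c273 c272 c2204 c1407 c1425 c3400 c3490 (k8 c8500 c8502 c8286 c8501 c1968 c2440 c277 c2123 (k1 c4530 k0)))) (by decide +kernel)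
def c8504 : PP 8 4 T 0x1000000000005000400000000014001540800000000100400000080000002 := rS 0xc421a2cf69b (k4 c1968 c2440 c2442 c277 (k2 c2123 c4530 k0)) (by decide +kernel)
def c8505 : PP 8 4 T 0x1000000000005000400000000054001540000000000140400000004000000 := rS 0x20c64f4c5 (k4 c4530 c2123 c4366 c1050 (k1 c4472 k0)) (by decide +kernel)
def c8506 : PP 8 4 T 0x2000000000000000000000000000000000040000500000001104404501420000000010000000000002 := rS 0x5c8aa0d7ea9029b4f271 (k8 c2431 c2433 c4993 c54 c4398 c4399 c4452 c7040 (k2 c2119 c8197 k0)) (by decide +kernel)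
def c8507 : PP 8 4 T 0x40000000000000000040000000020000000000010000000000082 := rS 0x2a11e832ec501e37265154abb2952d881940a14f6a75ec2226692893c60174d12e324121345ca9735b0586772fbf5e29d0f1e4da8750a243645308856ab98b0ec3a051e9c4ea952c16c7e7d092ccfe2a2a80ce6392b824226f (k8 c1019 c609 c30 c751 c8481 c1649 c28 c1647 (k8 c491 c2438 c2437 c490 c3576 c1177 c2444 c4476 (k8 c3625 c539 c2431 c1678 c54 c1026 c1641 c4165 (k8 c4361 c4419 c830 c4213 c8444 c2671 c2439 c3661 (k8 c3577 c4993 c2433 c487 c4733 c8497 c8503 c8495 (k8 c3101 c4362 c4420 c8504 c1195 c4401 c1758 c8505 (k8 c91 c4446 c1955 c277 c1950 c276 c2209 c1957 (k8 c8015 c4441 c7393 c3920 c4532 c4055 c5976 c4439 (k8 c4436 c2123 c4429 c4475 c7032 c1970 c8506 c4474 (k8 c325 c244 c4470 c753 c4570 c4388 c2119 c866 k0)))))))))) (by decide +kernel)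
def c8508 : PP 8 4 T 0x1000000000000000000000000080000000020000000100000000000000082 := rS 0x2116016349ec33182990c82314c94613111486c5a67369ad82c38b0fcee3b0e8143c793aa54b05b438a824b3449ccae09 (k8 c30 c751 c1649 c2439 c2437 c490 c491 c3577 (k8 c2444 c4476 c3625 c539 c2433 c487 c54 c1026 (k8 c1641 c3101 c1177 c4165 c4362 c4420 c8504 c4993 (k8 c151 c910 c2671 c1567 c4412 c4322 c1591 c8246 (k8 c7393 c1103 c276 c4712 c4472 c8314 c4366 c757 (k4 c4465 c8259 c8308 c2478 k0)))))) (by decide +kernel)
def c8509 : PP 8 4 T 0x200000000000000000020000000000010000000000082 := rS 0x18688bf86454dea11eae56abd53934be0d2e88da48540c20d6a55d94a96e568945887b898c0da9d3490632974d10916f160b0e2c3f3b8ec3a053c9d52a871504966890d9cc8a1e2c16cae09 (k8 c30 c751 c2444 c4476 c487 c8444 c1649 c2671 (k8 c2439 c2437 c490 c491 c3577 c3625 c539 c2433 (k8 c54 c1026 c1641 c3101 c1177 c4165 c4362 c4420 (k8 c8497 c8508 c8505 c277 c1195 c4446 c91 c8015 (k8 c4733 c4993 c276 c4441 c4055 c2123 c1957 c1758 (k8 c4401 c4429 c4475 c7032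 c1970 c8504 c7393 c4439 (k8 c5976 c8507 c4372 c752 c4371 c488 c4282 c2006 (k8 c3920 c4419 c4361 c1678 c3661 c1019 c4350 c8485 (k4 c1242 c4493 c4326 c8506 k0))))))))) (by decide +kernel)
def c8510 : PP 8 4 T 0x2000000000080000000000000000001000001500000040000002000004000000 := rS 0x83 (k2 c4306 c5968 k0) (by decide +kernel)
def c8511 : PP 8 4 T 0x20000000000010000000000082 := rS 0x2da283763bf562852e97e26692388c1a49278c2324169109166b78b056ac35c9dc763d8b078e2790e9b4ea3f2c2550eb34486cb62a091ccde45028e4ae09 (k8 c30 c751 c8481 c54 c8444 c1019 c1649 c490 (k8 c491 c2444 c2671 c2439 c2437 c3577 c3625 c4476 (k8 c1177 c539 c4993 c1026 c2433 c2431 c487 c4165 (k8 c1678 c1641 c3101 c4361 c4362 c4419 c4420 c8497 (k8 c8504 c8508 c8505 c8507 c91 c4446 c276 c2209 (k8 c4281 c4371 c4372 c4374 c8015 c4441 c488 c752 (k8 c5976 c8509 c8510 c7325 c8300 c4480 c2113 c4353 k0))))))) (by decide +kernel)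
def c8512 : PP 8 4 T 0x1000000000002000000000000000000005000500000000054815554000000000000000000000000000 := rS 0x33e86c865ae696c43fb356eb5 (k8 c4389 c4353 c2064 c676 c2123 c4429 c1255 c1756 (k4 c2121 c4422 c1792 c4495 k0)) (by decide +kernel)
def c8513 : PP 8 4 T 0x1001000010000000000000000020000000000000000000000000001500000 := rS 0xa454 (k2 c7030 c4742 (k1 c252 k0)) (by decide +kernel)
def c8514 : PP 8 4 T 0x1000000040000000000000000000800000000000044000000000001410000 := rS 0x1301d45 (k4 c4452 c4570 c4474 c244 k0) (by decide +kernel)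
def c8515 : PP 8 4 T 0x100000000000000000000040000800054000000510020000008000000000000084 := rS 0x1566731a4c246d (k4 c4993 c1178 c3131 c1559 (k2 c2462 c1973 (k1 c6907 k0))) (by decide +kernel)
def c8516 : PP 8 4 T 0x2000000000002000000000000000810008000000000000000000001512000000000000 := rS 0x17249518906eb75a91d5a53 (k8 c4290 c2046 c4404 c4389 c4353 c4386 c2007 c940 (k2 c283 c1126 (k1 c7430 k0))) (by decide +kernel)
def c8517 : PP 8 4 T 0x1000000000000400000000000000000000000001500000001500001501100000000000000000000000 := rS 0x5f (k2 c7647 c2119 k0) (by decide +kernel)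
def c8518 : PP 8 4 T 0x2000000000002000000000000000800008000000000000000000001512000000000000 := rS 0x142b7 (k2 c4353 c1738 (k1 c8516 k0)) (by decide +kernel)
def c8519 : PP 8 4 T 0x6000100000000000000000000040800800050000000500020000001412000000000082 := rS 0xceab4998d5a2929b907e031c95c126543c20da05 (k8 c54 c4993 c7393 c4440 c8511 c30 c751 c8481 (k8 c28 c8515 c4471 c4290 c4402 c2046 c754 c8518 (k2 c1973 c657 (k1 c2120 k0)))) (by decide +kernel)
def c8520 : PP 8 4 T 0x12000000000000000000000000800800800040000000500000000000412000080000082 := rS 0x60d2d10af1eb162f052b824ca5b109e5867b899b4b09d (k8 c3247 c1097 c4993 c4441 c4055 c3970 c2433 c86 (k8 c495 c8511 c30 c751 c4312 c4358 c1250 c8472 (k4 c869 c8519 c4457 c1984 (k1 c4494 k0)))) (by decide +kernel)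
def c8521 : PP 8 4 T 0x4000000000000000010000000400000000044001140000000100005400000005500000 := rS 0xa6557204d1304 (k4 c4481 c7172 c8248 c4471 (k2 c4406 c4290 (k1 c2109 k0))) (by decide +kernel)
def c8522 : PP 8 4 T 0x2000200000000000000100010500000000000000154000000000000000000000000000 := rS 0x3e9fd6eb5 (k4 c4389 c4353 c4313 c4409 (k1 c2121 k0)) (by decide +kernel)
def c8523 : PP 8 4 T 0x1000000000002000000000000000001005010400000000045485540000000021005510002000000000 := rS 0x194c4632259e47a18dd6eb5 (k8 c4389 c4353 c4386 c4392 c3351 c1521 c6175 c2113 (k2 c2123 c413 (k1 c1756 k0))) (by decide +kernel)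
def c8524 : PP 8 4 T 0x1000000000002010000000000000051104000500000000045405554050000120005510006405510010 := rS 0xc3e3f4fe4915c1582b98b2dd6a0f (k8 c244 c4389 c4353 c8521 c4361 c4420 c8522 c4191 (k4 c7307 c8523 c7787 c2121 (k2 c4463 c3346 k0))) (by decide +kernel)
def c8525 : PP 8 4 T 0x6000101000000000000140000000000000000040004000000000005510000000010000 := rS 0x1f68647720dd6eb5 (k8 c4389 c4353 c4386 c4471 c4404 c8226 c8221 c4483 k0) (by decide +kernel)
def c8526 : PP 8 4 T 0x2000000000000000000008000000000000000020004000000044150110000001080000 := rS 0x1357e0e5caec6ebd (k8 c4354 c4386 c4390 c1355 c1563 c1215 c244 c2114 k0) (by decide +kernel)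
def c8527 : PP 8 4 T 0x40000000000006000100000000000000100000000001000004800000040020400018010000001000082 := rS 0xbe5c972847d613049eae44b1c866f1c95c121b72b15a22151aad3ead88194666d17915766145ac43c690e81633454092c225f66b2d427f3184806fd (k8 c4306 c28 c1178 c1559 c2469 c5930 c7351 c2065 (k8 c2436 c609 c1855 c127 c4452 c8220 c54 c1026 (k8 c8015 c487 c4350 c8286 c616 c4390 c8444 c6988 (k8 c4993 c950 c8511 c4478 c4338 c4414 c4415 c4337 (k8 c8194 c458 c1248 c4288 c689 c30 c751 c8481 (k8 c1019 c404 c7284 c517 c8207 c8170 c1715 c4494 (k4 c8526 c8144 c2118 c4394 (k2 c8185 c1215 k0)))))))) (by decide +kernel)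
def c8528 : PP 8 4 T 0x2000101000000000000108000000000000000140000040420044011010400101080082 := rS 0x2f9725ca11f4866f228e4ae090e815469f88195766158a84c603 (k8 c28 c1559 c5930 c4350 c616 c4390 c8511 c4478 (k8 c4414 c4337 c54 c1026 c30 c751 c8481 c8444 (k8 c1019 c2055 c8526 c4483 c2118 c4394 c8185 c1215 k0))) (by decide +kernel)
def c8529 : PP 8 4 T 0x2000014001000004005000154000800000000000000000002 := rS 0x1a91217 (k4 c3888 c1984 c8008 c492 k0) (by decide +kernel)
def c8530 : PP 8 4 T 0x40000000000006000100000000000000100000000001000000801000040020000019010000000000082 := rS 0x4e7830886c12931442ab56c40ca63019a45e1d0291502fd25844be7f090650f083dac4ef19 (k8 c8220 c1023 c4350 c642 c4482 c4440 c4436 c1178 (k8 c2469 c2436 c609 c1855 c4306 c127 c8444 c54 (k8 c1026 c6988 c8015 c28 c1559 c8511 c4478 c4338 (k8 c4415 c8194 c1248 c8527 c8529 c405 c4494 c4472 (k2 c8528 c4297 k0))))) (by decide +kernel)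
def c8531 : PP 8 4 T 0x6000100000000000000100000000001000000801000040020000019010000000000082 := rS 0x86f129a255f4a43c20f6453b9b556ad88194c61201a2d621e348740b19 (k8 c8220 c54 c1026 c8015 c487 c4350 c8286 c28 (k8 c1178 c1559 c8511 c4478 c4338 c4415 c4993 c1023 (k8 c8444 c642 c4482 c4440 c8530 c4428 c4457 c4456 (k2 c8142 c404 (k1 c4472 k0))))) (by decide +kernel)
def c8532 : PP 8 4 T 0x12000000000000000000000000814044000040400404150021400118110000000180002 := rS 0x2f975427f52d1518ce5f1f54e1940b0930853dc2136c1a5c4cd6ae2785c968778224871772b14c6033c9c4da9d0e814b6bb5e98592b1 (k8 c4350 c634 c616 c4354 c4390 c2464 c54 c1026 (k8 c4733 c4993 c2465 c2466 c28 c1559 c1248 c4288 (k8 c4356 c404 c517 c4472 c8014 c4434 c4431 c4297 (k8 c8142 c492 c4346 c4428 c1715 c869 c4479 c4055 (k8 c5976 c4488 c4494 c4439 c4436 c2010 c8526 c2122 (k8 c5956 c6745 c4399 c1404 c1521 c1795 c1337 c7647 (k1 c2118 k0))))))) (by decide +kernel)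
def c8533 : PP 8 4 T 0x10000100000000000000000140900001000004405414154000801108010000000000002 := rS 0x1a4fc6391cfb43279fd70f06110d9cbe42b0503088bb958aab56c41934b (k8 c4456 c634 c4478 c4338 c4415 c1248 c4288 c4356 (k8 c4482 c7000 c8529 c4321 c2122 c5956 c405 c4494 (k8 c6330 c1215 c1521 c4297 c4394 c1355 c1315 c1519 (k2 c4483 c4473 (k1 c5101 k0))))) (by decide +kernel)
def c8534 : PP 8 4 T 0x2000100000000000000000000000000000000000000000000000018010000000000082 := rS 0x113093d21e965241b2516bd58aecde453b8f62e491c954f2710f28d569f56c40ce2b0ab945a93108ecca6301a74d21d2c16c24b22b8240b19 (k8 c8220 c54 c30 c751 c1177 c1178 c2464 c4476 (k8 c1026 c8015 c4733 c28 c1559 c8511 c144 c8194 (k8 c3131 c7177 c4288 c649 c1638 c4555 c4478 c4338 (k8 c4414 c4415 c4337 c487 c2465 c2466 c248 c8481 (k8 c370 c4356 c145 c1023 c8444 c1019 c4390 c4350 (k8 c4354 c8286 c634 c8531 c8532 c4456 c1903 c8533 (k2 c4320 c2471 (k1 c4485 k0)))))))) (by decide +kernel)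
def c8535 : PP 8 4 T 0x40000000000000000100000000000000000000000000000044008000000000000000000000000080000 := rS 0x11309 (k2 c4320 c2471 (k1 c4485 k0)) (by decide +kernel)
def c8536 : PP 8 4 T 0x100000000000000000000100000000000400000000000800018010000000000082 := rS 0x349a366993c2e4b7810c328560c20f60f40bf1166f0891472770d9e4e21e55ab6206715b945a9310994c6034e9a43a582d8496457048163315a5a1c2a3b (k8 c144 c649 c1903 c4456 c8534 c8220 c54 c30 (k8 c751 c1177 c1178 c2464 c4476 c1026 c8015 c4733 (k8 c28 c1559 c8511 c8194 c3131 c7177 c4288 c1638 (k8 c4555 c4478 c4338 c4415 c487 c2465 c2466 c689 (k8 c1023 c8481 c8444 c609 c1019 c8286 c4480 c4380 (k8 c4376 c8535 c4482 c8529 c4321 c4436 c405 c4472 (k8 c4434 c4431 c4297 c5101 c4470 c2204 c1407 c2108 k0))))))) (by decide +kernel)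
def c8537 : PP 8 4 T 0x100000000000000100000000000000000400000000000800018010000000000082 := rS 0x895e05d36f06110d827b45a14964f3011d8ea11b9fd725f7eac10f4b08c5d6ec5229ccea3d3c9b546ab4fab6206715855ca2d49884ca6301a74d21d8ca444e1e1c974b05b092c8ae09029f62a3b (k8 c144 c8534 c8156 c54 c30 c751 c1177 c1178 (k8 c2464 c4476 c8197 c8481 c487 c352 c3165 c8220 (k8 c1026 c8015 c4733 c28 c1559 c8511 c8194 c3131 (k8 c7177 c4288 c649 c1638 c4555 c4478 c4338 c4414 (k8 c4415 c4337 c4993 c2466 c145 c499 c1081 c8444 (k8 c1248 c3171 c4356 c609 c4456 c1903 c8536 c4304 (k8 c2434 c1204 c8327 c8300 c5930 c7557 c8161 c8196 (k8 c420 c2037 c712 c8308 c8535 c8529 c405 c4494 (k4 c4472 c2058 c4431 c4218 (k2 c516 c8162 k0)))))))))) (by decide +kernel)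
def c8538 : PP 8 4 T 0x4000100000000000000100004214044401054450100154160040150150000100010002 := rS 0xbd3028572fd2f92da515 (k8 c4350 c4470 c4375 c2434 c4304 c1204 c5930 c8196 (k2 c8165 c4218 k0)) (by decide +kernel)
def c8539 : PP 8 4 T 0x4400000002000000080600404800041400000000100000000000040040000000000000 := rS 0xbd47ae16b43 (k4 c4422 c1704 c635 c4521 (k2 c1208 c5504 k0)) (by decide +kernel)
def c8540 : PP 8 4 T 0x40000000000014000100000001000010010004a14045001014055500044160400140150000114010002 := rS 0x2ee8abd41285929b65c4c9eae20bc0d2bf8422cca3336bf5a515 (k8 c4350 c4470 c4304 c4993 c950 c2437 c4632 c4482 (k8 c1242 c4437 c8139 c8169 c8207 c4297 c4346 c8140 (k8 c869 c8539 c5930 c8538 c8165 c4452 c1976 c4493 k0))) (by decide +kernel)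
def c8541 : PP 8 4 T 0x40000000000000000100000000000000000000200000000004000000000000400008000000000000080 := rS 0x44de06945104f5175b9de32c53c844363936a7556ad6891486891b9fdca1539974fb151aa7cde653195522713a8f547104b8003c1d2c16cae055919c5a93108ec2409 (k8 c30 c1178 c144 c8194 c3131 c7177 c511 c1177 (k8 c2489 c3188 c2464 c4476 c1026 c4466 c1098 c3204 (k8 c4499 c4337 c145 c499 c2465 c3165 c248 c755 (k8 c2437 c3189 c4414 c8181 c4350 c8156 c8197 c1081 (k8 c649 c4288 c8327 c8214 c517 c404 c8444 c458 (k8 c4338 c4415 c3247 c4993 c8359 c2678 c2597 c2466 (k8 c3264 c8220 c3190 c3171 c4356 c8540 c1050 c8535 (k4 c8015 c4472 c8483 c4055 k0)))))))) (by decide +kernel)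
def c8542 : PP 8 4 T 0x10000000000001000000000000000001000008000401000001000040000000004180002 := rS 0x1002f09 (k4 c4440 c1837 c8014 c8238 k0) (by decide +kernel)
def c8543 : PP 8 4 T 0x80000000000010000000000000000000000000014000000014000001054000000148000000000000002 := rS 0xf120abd16c3 (k4 c4459 c4427 c4428 c1183 (k2 c8142 c4472 k0)) (by decide +kernel)
def c8544 : PP 8 4 T 0x100000000000000000000000000000000000000000000400018000000000000080 := rS 0x349a3669a1433083d83d06812785c968b7e3c0d31538844723d39ac69689228d53e6f51ab557104b98cca6716a4d0e434e8003c1d02884da582d95c36b20a8ee3255049dc24e5 (k8 c4288 c1178 c3190 c30 c248 c8220 c144 c649 (k8 c1177 c2678 c3188 c2464 c4476 c4993 c8194 c2489 (k8 c1026 c4466 c1098 c3247 c404 c8542 c3131 c7177 (k8 c511 c2437 c755 c3204 c4499 c4415 c4338 c4337 (k8 c3189 c4414 c8181 c8444 c517 c8543 c8541 c1081 (k8 c145 c8359 c2597 c2465 c8534 c8015 c4472 c4480 (k8 c8286 c4434 c4431 c4297 c4380 c4306 c4376 c8535 (k8 c4485 c4540 c4321 c5101 c4470 c2204 c1407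 c2108 k0)))))))) (by decide +kernel)
def c8545 : PP 8 4 T 0x100000000000000000000000000000000000000000000400008000000000000080 := rS 0x6845a6062f12021d1243729de32150da74666d55ab5a2451aa7cc65537a8e209704994001e0e960b65702ac8ce2d49884243b (k8 c144 c1178 c8194 c3131 c7177 c511 c1177 c2489 (k8 c3188 c2464 c4476 c1026 c4466 c1098 c2437 c30 (k8 c3204 c4499 c4337 c3189 c248 c755 c4414 c8181 (k8 c8444 c458 c4338 c4415 c4993 c950 c3247 c2678 (k8 c649 c8220 c3190 c4288 c404 c517 c8542 c8544 (k4 c4433 c1913 c1103 c7874 (k2 c8137 c1880 k0))))))) (by decide +kernel)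
def c8546 : PP 8 4 T 0x100000000000000000000100000000000000000000000000008000000000000080 := rS 0x1f88238c5482521aa7cc65537a8e209704994001e0e960b65702ac8ce2d49884243b (k8 c144 c1178 c8194 c3131 c7177 c511 c1177 c2489 (k8 c3188 c2464 c4476 c1026 c4466 c1098 c2437 c30 (k8 c3204 c4499 c4337 c3189 c248 c755 c4414 c8181 (k4 c8545 c2035 c8534 c2465 (k2 c8536 c4480 (k1 c4306 k0)))))) (by decide +kernel)
def c8547 : PP 8 4 T 0x100000000000000000000000000000040000000000000000048000000000000080 := rS 0x2f5774550a0992cb89ab96e753c86d3a91199b556d1439a45e7d3fb95a4377e974bf151c8547a734dab51217781048a354f98caa6f51c412e09328003c1d2c16cae055919c5a93108ec24bf58309831762d2ca519 (k8 c8220 c8545 c4456 c3264 c4356 c1982 c4494 c8546 (k8 c3228 c1178 c144 c8194 c3131 c7177 c511 c1177 (k8 c2489 c3188 c2464 c4476 c1026 c4466 c1098 c2437 (k8 c30 c3204 c4499 c4337 c3189 c248 c755 c4414 (k8 c8181 c8444 c2035 c4472 c4431 c516 c4338 c2058 (k8 c1081 c145 c649 c8359 c8534 c2434 c8197 c4304 (k8 c8300 c4470 c4288 c8327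 c8156 c2032 c756 c1903 (k8 c458 c4415 c4993 c950 c3165 c3247 c2678 c2466 (k8 c499 c3171 c8207 c4346 c8140 c8539 c8537 c5930 (k4 c4452 c1976 c8165 c4493 k0)))))))))) (by decide +kernel)
def c8548 : PP 8 4 T 0x100000000000000000000000000000000000000000000000048000000000000080 := rS 0x22709451ac2ef08c8e42a3d399b48a354f98caa6f519948269179495b104b99c5a931d824001e0e960b65702ac82421 (k8 c8194 c1178 c1177 c2489 c3188 c2464 c4476 c1026 (k8 c4466 c1098 c30 c144 c3131 c7177 c511 c3204 (k8 c4499 c4338 c8545 c2032 c756 c2035 c2437 c4337 (k8 c3189 c248 c755 c4414 c8181 c8444 c4993 c1081 (k8 c145 c649 c8359 c8220 c4472 c4431 c492 c8547 (k2 c4322 c8483 (k1 c4479 k0))))))) (by decide +kernel)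
def c8549 : PP 8 4 T 0x100000000000000000000000000000000000000000000000008000000000000080 := rS 0x45a255e6b6185d3442348bd0e5256c40ca034b8003c1d339605a052d9e42ac52b88526b2090ec7a09 (k8 c30 c145 c144 c1178 c1177 c3131 c8194 c3188 (k8 c3264 c649 c2466 c2464 c2489 c7177 c4476 c511 (k8 c1026 c4466 c1098 c3204 c222 c2437 c4499 c4338 (k8 c8545 c1903 c2032 c756 c8548 c277 c1950 c2055 (k4 c1968 c869 c516 c723 (k1 c8515 k0)))))) (by decide +kernel)
def c8550 : PP 8 4 T 0x100000000000000000000000000000040000000100020800080000000000000082 := rS 0x51c34c2c858a31a6b73ea84687f1d8aa2239322b176af622e52ab34498c2467559547ac1729dc2a113a9c4420305a5c5e73378b47ec34d1ee269d0e96c3287840c03c6d029ac2e79 (k8 c2433 c1950 c492 c54 c4993 c487 c276 c7393 (k8 c4440 c4436 c93 c1026 c4733 c4441 c4055 c277 (k8 c3970 c8549 c392 c3099 c3100 c1953 c6579 c83 (k8 c28 c7039 c2431 c2432 c2592 c2630 c1887 c4290 (k8 c1983 c333 c252 c3880 c8324 c4464 c755 c7030 (k8 c513 c5073 c4548 c2123 c868 c7032 c7031 c6907 (k8 c365 c4338 c2047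 c6892 c2438 c8511 c3661 c3576 (k8 c1037 c4373 c1099 c1034 c5124 c4213 c4383 c1467 (k1 c7497 k0))))))))) (by decide +kernel)
def c8551 : PP 8 4 T 0x100000000000000000000000000000000000000020020000000000000000000082 := rS 0x28e1a61642dd628c1cb4d727d508d1667f1504a22113a9c44203059ccde1e (k8 c487 c3099 c3100 c83 c28 c7039 c2431 c2432 (k8 c2592 c4412 c490 c491 c2438 c2437 c8511 c3661 (k8 c3576 c4548 c4373 c116 c1099 c1034 c3103 c5124 (k4 c4213 c4383 c1467 c7497 k0)))) (by decide +kernel)
def c8552 : PP 8 4 T 0x10000900001100004100020000000020424100400002 := rS 0x29cbe832eaa4c22507a311ea51cb4cda1d028443c6b (k8 c492 c487 c2592 c54 c1026 c4993 c4373 c116 (k8 c7934 c1306 c1099 c1329 c1370 c4213 c866 c1337 (k4 c4570 c489 c4558 c2119 k0))) (by decide +kernel)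
def c8553 : PP 8 4 T 0x11000004004200000004008002000005510044100100004 := rS 0xbc0e6311c92b71b88cbb0d (k8 c4383 c1337 c1297 c1384 c1117 c7307 c6900 c2113 (k2 c250 c7526 (k1 c1376 k0))) (by decide +kernel)
def c8554 : PP 8 4 T 0x1000000000040000011000044055100000000001540000000510000080000000 := rS 0x11ea18a2de1837 (k4 c8300 c4477 c7094 c4470 (k2 c4329 c4388 (k1 c2125 k0))) (by decide +kernel)
def c8555 : PP 8 4 T 0x40100011000044014100000000001040000005410000190048082 := rS 0x3196e221b9708e492fbf40697488e4ae09 (k8 c30 c751 c8481 c3165 c6579 c28 c4376 c1376 (k8 c243 c1332 c8554 c6960 c752 c7094 c2113 c1449 k0)) (by decide +kernel)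
def c8556 : PP 8 4 T 0x8000002000001000040060004400140000001500051501500000400002040000000000 := rS 0x4aa6242a59f433f32d6b4b (k8 c4429 c4419 c1756 c7787 c4392 c1521 c7105 c4473 (k2 c2119 c282 (k1 c2007 k0))) (by decide +kernel)
def c8557 : PP 8 4 T 0x8000000000001000040060010400144045101500051501542000001512040080000000 := rS 0x49a1c556c473ebf16a95 (k8 c4418 c4419 c8554 c4379 c1602 c8556 c4353 c4424 (k2 c4209 c4473 k0)) (by decide +kernel)
def c8558 : PP 8 4 T 0x8000000000000000040020010400140004100000000100022000005412064000440082 := rS 0x2dc92471b88d1f0d2f31d065d07984b61138884060b4b87522730f2162681841b40a6b5aa55cac94f8e4ae09 (k8 c30 c751 c8481 c3538 c3652 c4402 c4418 c4419 (k8 c492 c54 c4993 c7393 c4439 c4441 c5976 c487 (k8 c3100 c3165 c1026 c6579 c83 c28 c7039 c2431 (k8 c2592 c93 c4213 c8555 c753 c4570 c250 c8557 (k8 c4382 c1425 c1296 c273 c6900 c1721 c7094 c2113 k0))))) (by decide +kernel)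
def c8559 : PP 8 4 T 0x100000000000000100011000000000011100040000002055405550000005415000 := rS 0x7da1ad904c7 (k4 c250 c2108 c2113 c4424 (k2 c1626 c8144 k0)) (by decide +kernel)
def c8560 : PP 8 4 T 0x101000000000000100008400000000000000054000000000000000000000000000 := rS 0x7e581f68715 (k4 c4353 c4424 c1626 c4480 (k2 c4483 c674 k0)) (by decide +kernel)
def c8561 : PP 8 4 T 0x100000000000000000000400000000050000000140020000080000000000000082 := rS 0xb03f4558c8e5ba8618372e97dfa47118349261692951a391aa7d923b49a8c50540998988ab57b052ab55cc58ee1b0a9d4e2971f8bd32210182d22733793c4ec34d1ed3a1d42c4d0287841b4d6173cab4a6300f0f4b657048acca05 (k8 c54 c8551 c4191 c30 c751 c93 c8472 c487 (k8 c276 c8550 c2046 c2433 c1950 c492 c4993 c7393 (k8 c4440 c4439 c4441 c5976 c1026 c4733 c4055 c277 (k8 c3970 c2314 c2209 c3099 c3100 c3165 c83 c28 (k8 c7039 c1927 c1953 c8549 c6579 c2431 c2432 c2630 (k8 c334 c1887 c4481 c4548 c4419 c4418 c4420 c868 (k8 c1972 c2123 c6907 c1559 c755 c754 c2716 c1608 (k8 c4158 c3652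 c3538 c8552 c8481 c8553 c1971 c8558 (k8 c617 c4281 c4371 c4372 c4374 c8510 c488 c752 (k8 c8300 c4477 c4329 c8560 c2125 c2113 c4388 c251 (k2 c4480 c675 k0))))))))))) (by decide +kernel)
def c8562 : PP 8 4 T 0x100000000000000000000000000000050000000140020000080000000000000082 := rS 0x18852ab57b9126c51dc5d643f0aa68f7134e8750f0818078da053585cf23d3296cae09 (k8 c30 c751 c93 c8551 c8472 c2433 c1950 c492 (k8 c54 c4993 c487 c276 c7393 c4440 c1026 c4733 (k8 c4441 c4055 c277 c2630 c8549 c8561 c4358 c1042 (k8 c1250 c1124 c4471 c869 c1973 c4402 c6907 c754 k0)))) (by decide +kernel)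
def c8563 : PP 8 4 T 0x1000001000000000040000000000000000000000000000020000000000000000000082 := rS 0x6c5d1c97c6ab00295c125b089c4de1e (k8 c487 c3099 c2431 c2592 c93 c30 c751 c54 (k4 c4480 c1034 c2434 c8481 (k2 c8197 c4470 (k1 c8300 k0)))) (by decide +kernel)
def c8564 : PP 8 4 T 0x101000000000000000000000000000050000000100020000080010000000000082 := rS 0xbea220cba7e53c64ee0b089c4de7b4ea16268131b262e3b5931c72a55d98562a947c51a6e4330547a652b8245a3f2d8750f08181b40a6b0b9e5341e (k8 c487 c277 c2433 c1950 c492 c54 c4993 c276 (k8 c7393 c4440 c1026 c93 c8549 c392 c30 c751 (k8 c8551 c8472 c2630 c8562 c8324 c6832 c8563 c4388 (k8 c866 c4350 c616 c4390 c1970 c4348 c4289 c656 (k8 c1042 c5282 c2612 c150 c4439 c4441 c5976 c4733 (k8 c4055 c3099 c2431 c2592 c83 c1887 c4446 c8520 (k4 c8525 c1458 c676 c8517 (k2 c7040 c4399 k0)))))))) (by decide +kernel)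
def c8565 : PP 8 4 T 0x101000000000000000000000000000050000000100020000080000000000000082 := rS 0x2e230686158c50ded3721982a3d3295c122d1f96c3a87840c03c6d029ac2e79 (k8 c2433 c1950 c492 c54 c4993 c487 c276 c7393 (k8 c4440 c1026 c93 c8549 c392 c30 c751 c8551 (k8 c8472 c2630 c8562 c8324 c6832 c3099 c8563 c4350 (k4 c616 c8564 c1099 c8265 (k1 c1337 k0))))) (by decide +kernel)
def c8566 : PP 8 4 T 0x2000000000000000000000000800000000040400000101120000080000000000000082 := rS 0x1a0914d4554a957c8f5dc64ee0b389bd347b4e874b68589a0610300f1b40a6b0b9e47615 (k8 c2630 c1042 c2433 c1950 c492 c54 c4993 c487 (k8 c276 c7393 c4439 c4441 c5976 c93 c1026 c4733 (k8 c4055 c277 c3099 c2431 c83 c1887 c4446 c4390 (k8 c4388 c7040 c1970 c866 c4399 c8517 c2007 c8520 (k1 c1370 k0))))) (by decide +kernel)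
def c8567 : PP 8 4 T 0x40000000100001000001505000000000000080020000190000080 := rS 0xa2a9e1aa95f2ec4a8c47a94831917a64de2725a6a2630 (k8 c276 c4441 c277 c3873 c2314 c3099 c1927 c1953 (k8 c4446 c91 c7884 c1306 c1099 c1370 c1309 c7037 (k4 c866 c4383 c4558 c4399 (k1 c4490 k0)))) (by decide +kernel)
def c8568 : PP 8 4 T 0x100000000000000000000000000000050000000100020000080000000000000082 := rS 0xd268d86b151c9841e8358975f8d3722c8cc1b0a844e2210182c5a3f2792d347b4e8750b13408650f0818078da053585cf23d3296cae09 (k8 c30 c751 c93 c8551 c8472 c2433 c1950 c492 (k8 c54 c4993 c487 c276 c7393 c4440 c4436 c4439 (k8 c4441 c5976 c1026 c4733 c4055 c277 c3873 c2209 (k8 c8549 c392 c83 c28 c7039 c2431 c2592 c2630 (k8 c334 c8562 c656 c8324 c6832 c8565 c4377 c4304 (k8 c4306 c4376 c4302 c1137 c8566 c8567 c4470 c2204 (k2 c1407 c2108 k0))))))) (by decide +kernel)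
def c8569 : PP 8 4 T 0x2000000000000000000000000000001100010000000044000080000085410000 := rS 0x6935060f (k4 c4376 c4306 c2204 c1407 (k1 c2108 k0)) (by decide +kernel)
def c8570 : PP 8 4 T 0x102000000000000000000000000000040000000100020000080000000000000082 := rS 0x50d9ecd3f2e68ab35f2ee28b71b8d472d33e98506c958974ee1b089d4e2210182cde4f25a68f69d0e96d0b1340866103036814d6173c8ec268829854e61e (k8 c487 c3100 c2630 c8550 c8568 c517 c4158 c2433 (k8 c1950 c492 c54 c4993 c276 c7393 c4436 c4439 (k8 c4441 c5976 c93 c1026 c4733 c4055 c277 c3873 (k8 c2209 c3099 c83 c28 c7039 c2431 c2432 c2592 (k8 c334 c1887 c4377 c4304 c4305 c4306 c4302 c4379 (k8 c8510 c1137 c8567 c8569 c7094 c4470 c4390 c7040 (k8 c8566 c4399 c4548 c5124 c1485 c1521 c4392 c6175 k0))))))) (by decide +kernel)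
def c8571 : PP 8 4 T 0x2000000000000000040100000000000000040400000110120000085410000000000082 := rS 0x2366930490d33a99661b0a9d45e736889ca2c30ca1cc2392b824420308ac54aa947a6a8abe5d9bcf69d0e96d0b1338a0610300f1b40a6b0b9e4ee0b (k8 c83 c1887 c2433 c1950 c492 c54 c4993 c487 (k8 c276 c7393 c4439 c2431 c4441 c5976 c93 c1026 (k8 c4733 c4055 c3099 c4390 c7040 c4399 c277 c4388 (k8 c866 c1970 c4350 c2592 c28 c7039 c30 c751 (k8 c8481 c4213 c4440 c4436 c3970 c3874 c2314 c2210 (k8 c3100 c1953 c2432 c2630 c334 c8566 c8517 c656 (k4 c4330 c2007 c2006 c3978 (k2 c772 c8524 k0)))))))) (by decide +kernel)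
def c8572 : PP 8 4 T 0x100000000000040000000000000000040400000100020000080010000000000082 := rS 0x2e22cc723924fe220717146a95aadc6e8f8a0fc226f4d44d5a301e994b74b559ac2e791d84ca61539879fa392b8259288 (k8 c8568 c636 c30 c751 c8481 c8570 c487 c3100 (k8 c2630 c8550 c517 c4158 c2433 c1950 c492 c1944 (k8 c4457 c93 c8551 c8472 c276 c2046 c4441 c277 (k8 c3099 c2592 c8549 c8563 c4388 c4386 c4353 c4389 (k8 c866 c4526 c8571 c753 c752 c1457 c243 c1332 (k4 c1449 c8525 c2113 c4361 k0)))))) (by decide +kernel)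
def c8573 : PP 8 4 T 0x100000000000000000000000000000040400000100020000080010000000000082 := rS 0x431486154a8cfccfa1c418caf5ba5566375c9522cb52e97d4ee52388c1a4d24b4996c91f9c4de9a27a16268143c20da053585cf2ad180f4ca5ba58ec268829854e61e7e8e4ae09 (k8 c30 c751 c8481 c8570 c487 c3100 c2630 c8550 (k8 c8568 c517 c4158 c4457 c93 c8551 c8472 c276 (k8 c2046 c2433 c1950 c492 c54 c4993 c7393 c4440 (k8 c4439 c4441 c5976 c2209 c277 c3099 c2431 c8549 (k8 c636 c2024 c8572 c4281 c4282 c4371 c4372 c4374 (k8 c6832 c2006 c488 c752 c7513 c4471 c7030 c7514 (k8 c8300 c4358 c4418 c8560 c868 c2113 c5289 c4391 (k8 c1519 c251 c4337 c7105 c2654 c2119 c4477 c4385 k0)))))))) (by decide +kernel)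
def c8574 : PP 8 4 T 0x400101000000000080000000010000801024000044110420000005510000000400002 := rS 0x11aa147c32286158a4d467e883195eb764a55669f1bae4a91633ad4bae52388c925b0a9c52e1d028b43c6b (k8 c492 c487 c392 c54 c1026 c6579 c2431 c2630 (k8 c93 c4281 c4372 c4374 c6832 c752 c7513 c8324 (k8 c4471 c7030 c7514 c8300 c6233 c4358 c4418 c1726 (k8 c8560 c868 c2113 c5289 c251 c4337 c4413 c675 (k4 c2654 c4480 c4477 c4388 (k2 c4329 c4383 (k1 c2125 k0))))))) (by decide +kernel)
def c8575 : PP 8 4 T 0x10400001000000000040105005010044041120800000401540400005550000080008000 := rS 0x44124af4ab2a2cc672ae492cda5d148e13 (k8 c517 c1332 c4452 c4457 c2065 c243 c8268 c7430 (k8 c2113 c4471 c7284 c4418 c8140 c8554 c5289 c4413 k0)) (by decide +kernel)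
def c8576 : PP 8 4 T 0x10400101000000000040005005110044041120800104411540400005550000080008000 := rS 0x492e620955999cc6c8 (k8 c8575 c1729 c633 c634 c5073 c4478 c4548 c8554 (k1 c4413 k0)) (by decide +kernel)
def c8577 : PP 8 4 T 0x100000000000000200005100054041500000104050000000000000000000000000 := rS 0x124b9882556663 (k4 c1728 c634 c5073 c4478 (k2 c4548 c2125 (k1 c4413 k0))) (by decide +kernel)
def c8578 : PP 8 4 T 0x100000000000000000000000000000040000000100020000080010000000000082 := rS 0xb924b3592c733888b89f46a8618a35491d4eb55b8dd1eb10718628d32fa968a821cc6422751080c16970e8fd226f89b0d3487841b40aad180f4ca5b2b82696c1559ac2e791d84d10530a9cc3cfd (k8 c8570 c487 c3100 c2630 c8550 c8568 c517 c4158 (k8 c2433 c1950 c492 c1944 c1984 c4457 c30 c751 (k8 c93 c8551 c8472 c276 c2046 c54 c4993 c7393 (k8 c4440 c277 c3970 c4441 c3099 c3165 c8549 c1026 (k8 c6579 c83 c28 c7039 c2432 c2592 c4446 c8481 (k8 c8573 c4452 c1936 c2436 c8574 c8563 c4213 c4570 (k8 c4350 c4388 c4386 c4353 c4389 c4532 c1332 c866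 (k8 c4526 c4490 c4329 c4383 c4384 c8576 c752 c922 (k4 c1449 c8577 c2065 c243 (k2 c8268 c2113 k0)))))))))) (by decide +kernel)
def c8579 : PP 8 4 T 0x100000000000000000000000000000040000000100020000080000000000000082 := rS 0x825883da63440a14f708899ac606f0ba743c213c8443a6d2d82c0a03 (k8 c28 c54 c83 c93 c4993 c1026 c2592 c2433 (k8 c7039 c487 c4733 c1950 c3099 c276 c492 c4441 (k8 c7393 c4055 c5976 c4439 c8578 c4373 c1329 c1034 (k2 c8567 c4570 k0)))) (by decide +kernel)
def c8580 : PP 8 4 T 0x400000000000000000000000000000000000000000400000000000004400000800000 := rS 0x62f1 (k2 c4431 c1910 (k1 c4469 k0)) (by decide +kernel)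
def c8581 : PP 8 4 T 0x1000000000000000100000000000001100000004054000045410001555500000000000000000000000 := rS 0x8867d0d5e7e (k4 c2118 c5972 c4392 c1521 (k2 c6907 c6175 k0)) (by decide +kernel)
def c8582 : PP 8 4 T 0x41000000000000400100000000000001100000014054000045410001515500000000000000000000000 := rS 0x2be2266 (k4 c8581 c4334 c984 c4491 k0) (by decide +kernel)
def c8583 : PP 8 4 T 0x100000000000000000000008000800000001000010010000000000000000000000 := rS 0x1667539c5d24c0 (k4 c1972 c1973 c4420 c1621 (k2 c1656 c1123 (k1 c4481 k0))) (by decide +kernel)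
def c8584 : PP 8 4 T 0x1000000000000400100000000000000100000104154800045500015511400000000025400210000002 := rS 0x2a1e94c52afa5198fa2d7e08a2acd56a3950a71398cbad312b44a2f0 (k8 c4469 c4435 c4298 c1370 c4373 c2821 c2822 c870 (k8 c4558 c8517 c866 c948 c1483 c4388 c1305 c4480 (k8 c914 c4379 c8581 c8582 c984 c2827 c4456 c8447 (k2 c2112 c314 k0)))) (by decide +kernel)
def c8585 : PP 8 4 T 0x80000000000000002000000000000001500000000000000040450000000000000000000000000000000 := rS 0x8967a050a87 (k4 c4440 c4321 c4439 c4430 (k2 c4457 c2124 k0)) (by decide +kernel)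
def c8586 : PP 8 4 T 0x40000000000000402100002000000000104000154000000040050000512080000000001450200002002 := rS 0x3a15510b32919e2063289b43287 (k8 c4440 c4436 c4318 c4435 c2822 c4491 c4334 c7769 (k4 c664 c6907 c252 c7377 (k1 c597 k0))) (by decide +kernel)
def c8587 : PP 8 4 T 0x402100002000000001100800144000000040450010102080000000001458000002082 := rS 0x3b393905a75599992aaca5b0d96b9a1054d6654b8816efd (k8 c4302 c5279 c495 c2930 c2444 c2445 c2632 c4483 (k8 c4394 c4425 c1215 c8585 c8586 c861 c6230 c665 (k4 c593 c7376 c4555 c7358 (k2 c4403 c1021 k0)))) (by decide +kernel)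
def c8588 : PP 8 4 T 0x402100000000000000100800104154800040000004100080000000025400000000082 := rS 0x2b1ca5316918a87c158a55ecd132981823549fdfb0d3000c40652f9c44a1d05a0c2e6b698441ed128bc1026d428650f45 (k8 c4399 c4440 c4436 c4321 c4318 c4439 c4469 c4435 (k8 c4298 c1329 c2594 c4373 c2445 c8580 c4570 c83 (k8 c759 c1370 c1304 c2443 c2444 c495 c28 c8584 (k8 c4326 c4302 c673 c977 c767 c8124 c4490 c4467 (k8 c2067 c908 c874 c355 c8587 c1292 c1291 c246 (k4 c252 c4404 c2112 c4554 k0)))))) (by decide +kernel)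
def c8589 : PP 8 4 T 0x100000000000050100800004060000001000001000000100000005401200000002 := rS 0xb9662555853618a55f1167998fcfd30098462b16c352e63 (k8 c2822 c2930 c4329 c2900 c1735 c2825 c4467 c870 (k8 c4302 c5930 c672 c1521 c4334 c984 c2827 c1216 (k4 c4712 c2112 c861 c901 (k2 c5821 c1485 k0)))) (by decide +kernel)
def c8590 : PP 8 4 T 0x100000000000000000000015000000050000000000080000001000150140000100000 := rS 0x1d91dc83d (k4 c7465 c4555 c4404 c4403 (k1 c7430 k0)) (by decide +kernel)
def c8591 : PP 8 4 T 0x100000000000000000000000000000000000000080000000000000080210000002 := rS 0x7403 (k2 c28 c5660 (k1 c1641 k0)) (by decide +kernel)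
def c8592 : PP 8 4 T 0x100000000000000000000000008000000000000000080000000020000000000082 := rS 0x1ccfa3b23b905a6f3003166264aac44a715ab4c121508c356e91649fcea97118accc5f328741620 (k8 c495 c83 c759 c2444 c2443 c6233 c8591 c1300 (k8 c2930 c593 c1393 c1664 c2892 c1667 c4384 c2594 (k8 c2632 c30 c4373 c7883 c1304 c1370 c1034 c1698 (k8 c4467 c665 c871 c870 c1290 c7376 c4555 c4404 (k4 c4403 c1291 c1021 c5124 k0))))) (by decide +kernel)
def c8593 : PP 8 4 T 0x100000000000000000000015100000050000000014082000001000110040000100002 := rS 0x1b4505afd (k4 c4302 c7376 c4480 c8590 (k1 c4386 k0)) (by decide +kernel)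
def c8594 : PP 8 4 T 0x80080000000000000040000100082 := rS 0xe5168e82609 (k4 c30 c1561 c1021 c911 (k2 c4403 c4555 k0)) (by decide +kernel)
def c8595 : PP 8 4 T 0x1000000000000000000000808000000000000000000080000000010000000000082 := rS 0x8c9dcf2c0619ed126b4b9a44094 (k8 c665 c495 c2823 c2930 c2445 c1944 c8467 c1947 (k4 c1700 c668 c1191 c4450 (k1 c4482 k0))) (by decide +kernel)
def c8596 : PP 8 4 T 0x1000000000000000002000004000020000001400004000000000000000000000002 := rS 0x1ed3319 (k4 c4450 c1932 c8018 c4482 k0) (by decide +kernel)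
def c8597 : PP 8 4 T 0x804000000000008000000080400100000100000000082 := rS 0x6417101ac7615 (k4 c2632 c1042 c2445 c495 (k2 c521 c8468 (k1 c951 k0))) (by decide +kernel)
def c8598 : PP 8 4 T 0x20400000001000000005540000100450000054551414000400000400000050405840002 := rS 0x24a7c4e2525a94c20c425145a4d (k8 c1990 c911 c8243 c2124 c6549 c2477 c1401 c1320 (k4 c1367 c870 c4168 c4599 (k1 c2110 k0))) (by decide +kernel)
def c8599 : PP 8 4 T 0x140000000050020000200014000010000400008150404800004 := rS 0x9492274f93c1cfd (k8 c4380 c1835 c1360 c5295 c238 c243 c434 c2110 k0) (by decide +kernel)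
def c8600 : PP 8 4 T 0x1000000002000000540000904000000010054414400480000000401040604040006 := rS 0x922712a7e840d52bf5048151864d8a70b44c64d161b3d9ad3a53c50ead17a6e30af3c9a4c70549a51162916a84cc594b94c8e51 (k8 c4405 c4404 c4290 c2930 c93 c5025 c897 c911 (k8 c835 c2705 c665 c1123 c4312 c2822 c2823 c668 (k8 c985 c4482 c4448 c836 c860 c7441 c4542 c7658 (k8 c6832 c4460 c4430 c4459 c4426 c2112 c4340 c951 (k8 c2908 c950 c254 c7459 c8599 c8598 c4306 c1936 (k4 c2460 c8144 c5295 c435 (k2 c871 c4421 (k1 c2110 k0)))))))) (by decide +kernel)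
def c8601 : PP 8 4 T 0x100000000000040140000104000020001850014480010400500010150200010002 := rS 0x232434d309584178b455e33260589e6d188304c2524a8c6f428a27c96a57ed154223 (k8 c833 c897 c4452 c4306 c1936 c1855 c5295 c4480 (k8 c4483 c4386 c4393 c4421 c312 c2110 c871 c357 (k8 c2460 c1487 c508 c509 c950 c984 c7073 c4431 (k4 c1995 c7129 c861 c860 (k2 c2054 c4448 (k1 c4472 k0)))))) (by decide +kernel)
def c8602 : PP 8 4 T 0x2000000000000000000000010820000040001500014100080000000000000000000000 := rS 0x2f98494 (k4 c665 c861 c7438 c1215 k0) (by decide +kernel)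
def c8603 : PP 8 4 T 0x40000000000000000000000002000000010000944010000001500414000080000000115148204000002 := rS 0x46186c15f2b572bd5d98228a3489a62e664ba4cb294 (k8 c665 c93 c1123 c2930 c5025 c4358 c2823 c2892 (k8 c2858 c4538 c870 c4390 c4354 c7402 c8602 c7442 (k4 c5957 c1215 c4494 c4369 k0))) (by decide +kernel)
def c8604 : PP 8 4 T 0x2000000000002000000140000914041000020454014580080000000000154600000000 := rS 0x3cc257c6c5744df94352a9c910c4f8956abd1baecba5f82a5222a123d2d027739a15a687 (k8 c156 c6832 c684 c152 c2043 c2045 c4457 c4404 (k8 c897 c4334 c665 c4312 c576 c841 c4390 c4386 (k8 c4354 c4389 c312 c1698 c4467 c2110 c4330 c4385 (k8 c4421 c4483 c4130 c4491 c6815 c7443 c4318 c2649 (k1 c7782 k0))))) (by decide +kernel)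
def c8605 : PP 8 4 T 0x40000000000004000000000002000000014800015001000000000000000000000000000042200000000 := rS 0x2bc6233602654b19 (k8 c4369 c1404 c1134 c4494 c435 c317 c1715 c5957 k0) (by decide +kernel)
def c8606 : PP 8 4 T 0x2000000000000000400955000000221504014000080000000000000200000002 := rS 0x1e576bd60a95323119c48da5f35c45c82d098fc2a063325c560901964ee73 (k8 c152 c2043 c93 c28 c230 c4991 c2930 c5025 (k8 c831 c2632 c8194 c513 c911 c4555 c4334 c5752 (k8 c576 c681 c5289 c950 c4441 c4443 c4444 c5957 (k4 c1119 c6983 c669 c2122 k0)))) (by decide +kernel)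
def c8607 : PP 8 4 T 0x104000914040000020050014000080000000010004200000002 := rS 0xbb5e9e536a7362b97ea947a30490d248d9f91502a443e9d1cc5d6e8b11b14f74b40a0da68734a148a4729b918e2d098fc523b0aa505609019992f05358440c59 (k8 c93 c831 c2594 c5752 c4312 c2930 c5025 c28 (k8 c230 c4991 c665 c2632 c1042 c835 c8194 c513 (k8 c911 c7228 c4555 c4290 c4404 c8444 c684 c2823 (k8 c156 c6832 c8601 c2045 c4457 c8597 c1250 c833 (k8 c2705 c1163 c4358 c8463 c2968 c86 c889 c54 (k8 c8604 c4480 c4470 c323 c7771 c4467 c5022 c1424 (k8 c3481 c8605 c8606 c984 c2915 c2872 c2649 c6223 (k2 c1390 c7834 k0)))))))) (by decide +kernel)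
def c8608 : PP 8 4 T 0x4000000000000000040040004000080020000010100080010000000110000000000000 := rS 0x1151ba396b43 (k4 c4393 c5116 c858 c4989 (k2 c4388 c4470 k0)) (by decide +kernel)
def c8609 : PP 8 4 T 0x100000914000000020050014000080000000010004200000002 := rS 0x14ebc572ed528c124357e3124a6c86791b3f1851502a453a233da04ee7341a148a47298a4766b08a8da687720b45609019a58e131fc142a943325d6f173a8e40c59 (k8 c93 c831 c8463 c153 c4358 c1163 c2930 c5025 (k8 c665 c2632 c4312 c8194 c513 c7228 c2823 c28 (k8 c230 c4991 c911 c4555 c156 c6832 c8608 c2594 (k8 c5752 c1042 c835 c4290 c4404 c8444 c684 c8601 (k8 c152 c2043 c2045 c8597 c833 c2968 c889 c54 (k8 c8604 c8607 c4480 c4470 c2057 c2054 c2058 c323 (k8 c316 c1512 c7771 c4467 c5022 c1504 c1390 c8606 (k2 c2122 c2915 (k1 c1120 k0))))))))) (by decide +kernel)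
def c8610 : PP 8 4 T 0x2000040000400900100101001105404000480000000080050400000110 := rS 0x413f176bd38a30490d24ade2a2751ae58e94 (k8 c665 c4289 c1471 c859 c321 c4386 c1163 c323 (k8 c7771 c4467 c5022 c1385 c1119 c1389 c4480 c2122 (k1 c4306 k0))) (by decide +kernel)
def c8611 : PP 8 4 T 0x2000040000000800100101001105400000490000040080050200000510 := rS 0x21a253023560bf119bc4e1d (k8 c85 c321 c1344 c1410 c1512 c8610 c1115 c624 (k2 c313 c4326 (k1 c4467 k0))) (by decide +kernel)
def c8612 : PP 8 4 T 0x40000000200000000000000000000000000000140000000010000 := rS 0x6b15 (k2 c4350 c1034 (k1 c4470 k0)) (by decide +kernel)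
def c8613 : PP 8 4 T 0x2000000000040000000001100000001100001500500000000000001200000002 := rS 0x470d5309cc283 (k4 c4306 c4302 c870 c2119 (k2 c4330 c2826 (k1 c4467 k0))) (by decide +kernel)
def c8614 : PP 8 4 T 0x2000000000000800004000000000008000080000000000001000000000 := rS 0x28546491189cf88f070348e2d14b1d9263398acb200030247e0b0a9752866 (k8 c664 c665 c2856 c4284 c662 c4288 c1185 c4462 (k8 c494 c93 c4991 c152 c843 c2615 c4289 c4402 (k8 c4286 c4404 c1290 c1020 c1345 c1190 c871 c1327 (k4 c243 c858 c1624 c2110 k0)))) (by decide +kernel)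
def c8615 : PP 8 4 T 0x5000000000002000040400044100101120001105414500500000000020045400000000 := rS 0x6d54d1534be8caf57143899214ea38623c52c75aa0cc2fc (k8 c4480 c4302 c4306 c7883 c4289 c4402 c1305 c4467 (k8 c858 c4330 c7771 c4130 c4421 c4492 c1208 c6225 (k4 c2122 c4488 c4399 c866 (k2 c865 c8517 k0)))) (by decide +kernel)
def c8616 : PP 8 4 T 0x2000000000000000040901000000001000004000080000000000001a00000000 := rS 0x55264f441780c4f3095f8ccd8592f9acba691d82c3a1b0314dc82d09854520001814cc2b4a07d028369a951c34 (k8 c833 c832 c3295 c4372 c4306 c4380 c86 c665 (k8 c1695 c664 c575 c2855 c4461 c2827 c647 c2464 (k8 c911 c4555 c4290 c831 c2672 c85 c567 c1576 (k8 c2857 c2856 c2647 c2646 c93 c8613 c954 c1515 (k8 c4318 c2649 c5699 c5814 c4433 c7037 c1131 c8468 (k1 c1701 k0)))))) (by decide +kernel)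
def c8617 : PP 8 4 T 0x800000000000008000000080000000000000200000000 := rS 0x335585d3259358ec0c53720b42615148000605330ad281f (k8 c86 c665 c1695 c664 c575 c2855 c4461 c2827 (k8 c647 c2464 c911 c4555 c4290 c831 c1576 c2647 (k4 c93 c1131 c2474 c1701 (k2 c951 c8468 k0)))) (by decide +kernel)
def c8618 : PP 8 4 T 0x1000000000001000002000000000000000040910040000001000006000080000000000400a00000000 := rS 0x2c771921de2ab203057e313cc24c67305874360629945c82d09854522b3da0c4e00018143ea130b4c9ecba12de2eb589a9cbe8135974d2664a2951c34 (k8 c833 c832 c3295 c665 c664 c2857 c2856 c2647 (k8 c4380 c2646 c2826 c4130 c7883 c4358 c1163 c4521 (k8 c4425 c3467 c4372 c4302 c896 c86 c575 c2855 (k8 c4461 c870 c4306 c8617 c1695 c2827 c647 c2464 (k8 c911 c4555 c4405 c4290 c831 c2672 c85 c567 (k8 c152 c843 c4318 c2649 c5699 c7782 c8361 c7037 (k4 c1700 c4433 c7441 c4469 (k2 c1192 c951 (k1 c7461 k0))))))))) (by decide +kernel)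
def c8619 : PP 8 4 T 0x1000002000000000000000040900040000001000004000080000000000001a00000000 := rS 0x5526696873cc21123336ab45f4554414b2c94598ce6653ac440c7b419f542614f91dc82d09854520001814561f27b34fecba12de2eb589a9cbe8135974d2664a2951c34 (k8 c833 c832 c3295 c665 c664 c2857 c2856 c2647 (k8 c4380 c2646 c2826 c4130 c7883 c4358 c1163 c4521 (k8 c4425 c4392 c4395 c3467 c86 c1695 c575 c2855 (k8 c4461 c2827 c647 c2464 c911 c4555 c4404 c1299 (k8 c4302 c896 c4379 c4306 c8617 c831 c4334 c153 (k8 c578 c152 c843 c2705 c2615 c93 c4312 c8616 (k8 c4398 c787 c948 c8618 c950 c6815 c4479 c668 (k4 c4440 c8585 c7038 c8582 (k1 c1701 k0))))))))) (by decide +kernel)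
def c8620 : PP 8 4 T 0x1000002000000000000000000900040000001000004000080000000000001a00000000 := rS 0x33178c5e242252ea261d2f9acba9d34999288153a951c34 (k8 c833 c832 c3295 c2826 c4380 c665 c664 c2857 (k8 c2975 c2856 c2647 c2646 c85 c4130 c8619 c1309 (k4 c1310 c4434 c1914 c1953 (k2 c337 c4469 k0)))) (by decide +kernel)
def c8621 : PP 8 4 T 0x900000000802500006000080000000024000200000000 := rS 0x2847e51d2d0eae55b0630bd3bb4482f0568be0b17319cc360629945c82d09854522b5bad59a8b5d9c4626b0580006664a0143e1d5fc24f27b (k8 c8617 c2650 c4321 c7782 c85 c86 c575 c665 (k8 c664 c2855 c4461 c567 c2647 c8071 c1304 c1441 (k8 c2705 c1482 c7883 c1163 c1695 c2827 c647 c2464 (k8 c911 c4555 c4405 c4290 c831 c2672 c152 c843 (k8 c4358 c4312 c2830 c945 c5814 c4433 c4298 c1023 (k8 c1039 c4482 c4450 c1700 c2112 c7441 c4428 c989 (k2 c7834 c4521 (k1 c4392 k0)))))))) (by decide +kernel)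
def c8622 : PP 8 4 T 0x1100000000000000000000020000000050000000100000000000000000000000000 := rS 0x10f4b (k2 c4458 c1904 (k1 c4485 k0)) (by decide +kernel)
def c8623 : PP 8 4 T 0x800000000000000100000000000000000000044000004042000000100000504000405150a00000000 := rS 0x135e22e56b4512493fb4d4e4f470d28b09 (k8 c4321 c4397 c833 c832 c3467 c2826 c4372 c4392 (k8 c4421 c684 c7073 c8622 c2112 c4542 c1992 c4474 k0)) (by decide +kernel)
def c8624 : PP 8 4 T 0x900000000002500004000080000000004000a00000000 := rS 0x5e4c78ab59ea2a1aad5312579b4624b66c268b058ba2cd6932c9a4760b0e86c0c5328b905a130a8a400030299856940fadda6a75a93d1c34 (k8 c833 c832 c3467 c7883 c2826 c4372 c1163 c86 (k8 c665 c1695 c664 c575 c2855 c4461 c2827 c647 (k8 c2464 c911 c4555 c4405 c4290 c831 c2672 c85 (k8 c567 c1576 c2857 c93 c1123 c2647 c2705 c4358 (k8 c4312 c4397 c4321 c1482 c1320 c8071 c8621 c984 (k8 c4479 c4345 c4445 c8623 c4521 c1523 c6601 c4542 (k2 c4474 c1992 (k1 c7781 k0)))))))) (by decide +kernel)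
def c8625 : PP 8 4 T 0x40801000000001000000000080000004000000800000000 := rS 0xfc37c54e2b1470d0c2252e88022060482c0003028752866 (k8 c664 c665 c2727 c2645 c2855 c4461 c567 c1185 (k8 c4462 c2594 c5290 c2856 c58 c767 c833 c832 (k4 c624 c1304 c4388 c1345 (k2 c4480 c8616 k0)))) (by decide +kernel)
def c8626 : PP 8 4 T 0x40000040801100500801001400000080000040005450000000000 := rS 0x4e25a009a36538d44a278a964be910d87cf6201c818120b0e88c7ee41680006940284e2266 (k8 c664 c4334 c2464 c2645 c665 c2855 c4461 c911 (k8 c4468 c4288 c8625 c2727 c567 c1185 c4462 c8463 (k8 c5290 c8617 c86 c687 c2896 c2646 c93 c4388 (k8 c847 c1424 c1305 c852 c4470 c324 c8611 c1413 (k2 c2111 c1360 k0))))) (by decide +kernel)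
def c8627 : PP 8 4 T 0x40000040800100100001001400000080000040080050000800000 := rS 0x25a00b25f48824f6201fb905a138882c000302874cc94 (k8 c665 c664 c2727 c2645 c2855 c4461 c567 c4334 (k8 c2464 c911 c4468 c4288 c5290 c8617 c1185 c2896 (k4 c2646 c93 c8611 c1413 (k1 c1834 k0)))) (by decide +kernel)
def c8628 : PP 8 4 T 0x1000000000000000000000854000000001000000000080400000005450000000000 := rS 0x102fc37af22a9f46c314e27309c44a3751ac51e235faed371852aa42c794cc48324360bc5a08b2f9ad26592ea453a3b239dda6872898ce61b3487c720604b14f6201fb905a138882c000302874cc94 (k8 c665 c664 c2727 c2645 c2855 c4461 c567 c4334 (k8 c2464 c911 c4468 c4288 c5290 c8617 c1250 c1185 (k8 c4462 c8463 c86 c2857 c687 c152 c843 c4405 (k8 c7441 c6832 c1192 c4404 c1576 c2975 c2896 c2856 (k8 c93 c1123 c2647 c2646 c2705 c2112 c4542 c5957 (k8 c341 c261 c4469 c6171 c669 c4465 c4345 c4444 (k8 c4482 c7150 c4449 c4369 c8625 c8626 c625 c858 (k8 c8627 c312 c497 c7451 c870 c4558 c4467 c4383 (k4 c4384 c8237 c7959 c8614 (k2 c4480 c1898 (k1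 c4130 k0))))))))))) (by decide +kernel)
def c8629 : PP 8 4 T 0x1000001000000000000000000000000000000000010000010000000000002200000400 := rS 0x589bd1836 (k4 c312 c313 c1344 c1115 (k1 c4480 k0)) (by decide +kernel)
def c8630 : PP 8 4 T 0x2000040000004000000021000000000000000000000080051400000000 := rS 0x1470c24ae44ec7 (k4 c4289 c321 c1471 c323 (k2 c4467 c859 (k1 c7771 k0))) (by decide +kernel)
def c8631 : PP 8 4 T 0x1000001000002000040000000800000000000000000000080000000040001000000082 := rS 0x4f9b868b1088e4e305 (k8 c4312 c497 c8463 c2594 c8612 c4470 c4480 c8592 (k1 c8614 k0)) (by decide +kernel)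
def c8632 : PP 8 4 T 0x1000001000002000080000000400000000000000000000080000000000041200000002 := rS 0x9e2f53a955218418cd4431429815a1782c2560f14308c9a27259a4d60b0e86c0c51 (k8 c4405 c831 c2672 c85 c567 c5752 c2823 c4375 (k8 c4278 c4282 c4372 c6832 c5695 c5772 c4440 c4410 (k8 c1836 c1904 c624 c2696 c8071 c5916 c951 c6833 (k4 c4465 c977 c5936 c940 (k2 c1870 c259 (k1 c2111 k0)))))) (by decide +kernel)
def c8633 : PP 8 4 T 0x101000000000000000000000080000000040000015100000000000000000000000 := rS 0xc8331f68711 (k4 c4337 c4393 c1353 c4478 (k2 c4483 c632 k0)) (by decide +kernel)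
def c8634 : PP 8 4 T 0x1500000001000000000000010000005405402001000 := rS 0x9e4b (k2 c1875 c259 (k1 c2111 k0)) (by decide +kernel)
def c8635 : PP 8 4 T 0x20000000000000000000000001000000001400000500100080000005000004000000 := rS 0x1b502f130a9cbea5 (k8 c4385 c4382 c4330 c4326 c4297 c1360 c5814 c2119 k0) (by decide +kernel)
def c8636 : PP 8 4 T 0x20000000000000000000040001001000001400008500100000000005400444009080 := rS 0x466127b3ca6500bf21bc4944f3b8649a8f13a454e2546a948abd (k8 c3000 c3231 c4385 c4383 c4381 c4330 c4328 c4324 (k8 c1345 c245 c8634 c1024 c8635 c2111 c4434 c1954 (k8 c1324 c1333 c6171 c501 c1228 c4439 c7959 c4482 k0))) (by decide +kernel)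
def c8637 : PP 8 4 T 0x20000000000000000000100001001000400004401400080000000000000012000002 := rS 0x5fa66310948a9d1aa5 (k8 c4385 c4383 c4330 c4328 c4436 c4152 c8246 c4369 (k1 c7959 k0)) (by decide +kernel)
def c8638 : PP 8 4 T 0x1000000000000020201000000000001000000045000000044040001514100000000000000000000000 := rS 0x67d0d974b642b1127d339854e5f (k8 c4382 c4330 c4326 c4310 c4409 c4314 c2120 c8388 (k4 c4458 c2026 c4422 c1792 (k1 c4495 k0))) (by decide +kernel)
def c8639 : PP 8 4 T 0x20100000000000000000005044040040444040001144080000000000000000000080 := rS 0xb94a9d52688882cd22a146a7cca6b (k8 c2445 c2444 c4384 c4383 c4329 c4328 c664 c4478 (k4 c6907 c4413 c2451 c5073 (k2 c5280 c2125 k0))) (by decide +kernel)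
def c8640 : PP 8 4 T 0x20100000000000040000000800000000000040008000080001000000000000108000 := rS 0xa1b1c8ee55c04c4a9f (k8 c4384 c4381 c2464 c1189 c8614 c1332 c7228 c4394 (k1 c4473 k0)) (by decide +kernel)
def c8641 : PP 8 4 T 0x10005000400000000055004140000000080000020000000000400 := rS 0x77629e57c40 (k4 c1492 c1491 c1847 c1056 (k2 c1094 c2123 k0)) (by decide +kernel)
def c8642 : PP 8 4 T 0x1000011405155000000000000000000000000040020000000000000000 := rS 0xcf6294d7ef1 (k4 c4433 c1054 c2034 c1056 (k2 c7875 c2129 k0)) (by decide +kernel)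
def c8643 : PP 8 4 T 0x20000000001000011405010001000000000000001000180040000021000200008002 := rS 0x259350419179dc8227538954abb118743e9d349ac367b19ad51e855eadcdc1130835fa06 (k8 c831 c4376 c32 c4326 c606 c8124 c2999 c3000 (k8 c3470 c3313 c7883 c950 c704 c2672 c5752 c2823 (k8 c2968 c86 c85 c1327 c4847 c4385 c4381 c4330 (k8 c4324 c8642 c1023 c837 c8637 c8636 c244 c1855 (k1 c2111 k0))))) (by decide +kernel)
def c8644 : PP 8 4 T 0x10045000400000000045004140000000080000020000000080400 := rS 0x11053 (k2 c420 c8641 (k1 c517 k0)) (by decide +kernel)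
def c8645 : PP 8 4 T 0x1000042040000000000000000000000000000001000000000000008000 := rS 0x8f43 (k2 c4395 c3317 (k1 c4473 k0)) (by decide +kernel)
def c8646 : PP 8 4 T 0x100000000000000001405155041000000000000000000000000000002040200000000 := rS 0x17ec567ab53113 (k4 c4441 c317 c2047 c5286 (k2 c1136 c1134 (k1 c2129 k0))) (by decide +kernel)
def c8647 : PP 8 4 T 0x20100000000000000000000001000000000000001080180000000020000200008002 := rS 0x860c93862cd65b44242c72b0586c78b2e5664957a2ce62b14b24eb1113aec4697058742a7b19b4d6a855eadcdc1106a8cc27f7e9940c63 (k8 c2822 c831 c2444 c4376 c3427 c4326 c8633 c32 (k8 c606 c8124 c2999 c3000 c3470 c7883 c4373 c950 (k8 c704 c2632 c85 c567 c2930 c1327 c4847 c4324 (k8 c4334 c593 c632 c2827 c8591 c8594 c720 c984 (k8 c243 c8640 c5280 c4481 c1451 c4362 c4420 c7771 (k8 c4555 c911 c456 c7351 c8645 c8646 c8643 c259 (k2 c8644 c1565 k0))))))) (by decide +kernel)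
def c8648 : PP 8 4 T 0x20100000000000000100014000000000000000000010000080000020000000008002 := rS 0x943aa4cf91033a8cc2915097d3eb57e9fd669731881523336c20f2431b9ecdc7703464622511974b45704af880590fa351ef1 (k8 c4297 c3467 c4383 c1099 c487 c1492 c1491 c3059 (k8 c751 c4476 c840 c1327 c4381 c298 c4369 c1330 (k8 c3005 c1329 c3038 c87 c338 c501 c4482 c4318 (k8 c950 c6029 c495 c2822 c2930 c1189 c3427 c4376 (k8 c7883 c4384 c4382 c4329 c4328 c4326 c8633 c8647 (k4 c4478 c2118 c4413 c1690 (k2 c2125 c5073 k0))))))) (by decide +kernel)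
def c8649 : PP 8 4 T 0x20000000001000000100014000000000000000000000000080000020040000008002 := rS 0xa2169f4cf0431880fe067e985425f2e968ae095f100b21f46a3ccac7 (k8 c1451 c491 c3467 c4383 c1099 c487 c1492 c1491 (k8 c3059 c751 c4476 c840 c4382 c4329 c4326 c4376 (k8 c1330 c3427 c495 c2822 c8648 c4310 c4409 c910 (k2 c5857 c4241 k0)))) (by decide +kernel)
def c8650 : PP 8 4 T 0x20000000000000040000800000000000400100000000080080060000000200004002 := rS 0xfc54834668536c20f6793b86c46062fa94226178c64d63112974d219 (k8 c258 c757 c840 c4381 c298 c493 c4369 c4297 (k8 c4326 c606 c4385 c4382 c831 c832 c2672 c3005 (k8 c501 c1050 c4482 c4318 c4321 c950 c1487 c6029 (k2 c4463 c8613 k0)))) (by decide +kernel)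
def c8651 : PP 8 4 T 0x20000000000000000000000000000000000000000000000080000020000000004002 := rS 0x89215f89d068cc360a4d8700e21348654e5f52b4c22617890c6e8138c65326b18894ba5a2b8257c402c87d1a8f (k8 c3467 c4383 c1099 c487 c1492 c1491 c3059 c751 (k8 c4476 c840 c4381 c298 c493 c1133 c4369 c3466 (k8 c3340 c87 c338 c4297 c4326 c606 c4373 c4385 (k8 c4382 c4330 c258 c757 c8650 c495 c4466 c1849 (k8 c4462 c4149 c2958 c568 c1052 c4463 c6224 c5760 (k1 c4130 k0)))))) (by decide +kernel)
def c8652 : PP 8 4 T 0x20000000001000000000010000000000000000000000000080000020040000000002 := rS 0xeac16284ca23b24224e6c869844c24b66adc1a8b43c20f2431b9ec8077034658ec35f2ccdc0e (k8 c8651 c1329 c1189 c1491 c1215 c1451 c4369 c1330 (k8 c3005 c1492 c3038 c87 c338 c501 c4482 c4440 (k8 c4322 c32 c3045 c3454 c176 c4326 c606 c4373 (k8 c8649 c1730 c637 c8024 c1722 c1725 c1719 c1055 (k2 c1852 c498 (k1 c2123 k0)))))) (by decide +kernel)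
def c8653 : PP 8 4 T 0x20000000000000000000010000000000000000000000000080000020040000000002 := rS 0x321110560b14e675288ec26e459b0de2cd2292d6e652d15c12590fa351687841e486373d9b880770303a32be (k8 c1491 c4369 c8651 c1330 c3005 c1492 c1329 c3038 (k8 c87 c338 c501 c4482 c4440 c4322 c4383 c1099 (k8 c487 c3059 c751 c4476 c2444 c3045 c176 c1222 (k8 c3454 c4297 c1215 c1189 c8652 c4401 c4403 c4405 (k8 c498 c1021 c1055 c1852 c5806 c2123 c8648 c637 k0))))) (by decide +kernel)
def c8654 : PP 8 4 T 0x1000000000000020001001002000001000020001000000044040009504180000000005000000000080 := rS 0x4115eab3aacc5251098953e65 (k8 c2444 c4384 c4381 c4401 c4405 c4402 c8614 c498 (k4 c5962 c5815 c5280 c8638 k0)) (by decide +kernel)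
def c8655 : PP 8 4 T 0x1000001000000000020400000000055044100000000080400020000000011400 := rS 0x30d82d11d31892558234d9abe218de8673 (k8 c1086 c4394 c87 c338 c1491 c3454 c4373 c5280 (k8 c4406 c4199 c4473 c1452 c461 c1581 c3036 c8641 k0)) (by decide +kernel)
def c8656 : PP 8 4 T 0x400000000000000001000001000000000000000000000000000200000000000400020000000011500 := rS 0xc7248ecaad3 (k4 c4373 c1687 c1575 c4199 (k2 c1452 c4473 k0)) (by decide +kernel)
def c8657 : PP 8 4 T 0x1000001000000000020400000000045045000000000080400020000000011400 := rS 0x44c5ce675a18257c40 (k8 c1492 c1491 c3059 c4394 c8656 c1086 c4361 c7172 (k1 c8655 k0)) (by decide +kernel)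
def c8658 : PP 8 4 T 0x20000000000000000000000800000000000000000000000080000020000000000002 := rS 0xcd05102a4666d841e486373d9b8ee068c8c44a232e968ae095f100b21f46a3c1cf1 (k8 c4297 c8651 c3467 c4383 c1099 c487 c1492 c1491 (k8 c3059 c751 c4476 c840 c1327 c4381 c298 c4369 (k8 c1330 c3005 c1329 c3038 c87 c338 c501 c4482 (k4 c4318 c950 c6029 c495 (k2 c4312 c664 (k1 c8647 k0)))))) (by decide +kernel)
def c8659 : PP 8 4 T 0x20000000000000000000020400000000000000000404080080000024000000018000 := rS 0x3948f4566835fa853f82cd26d45a1e1079218dcf66e201dc0d195f2a46225119751ef1 (k8 c4297 c3467 c840 c1327 c4381 c298 c6029 c1491 (k8 c4369 c1330 c3005 c1492 c1329 c3038 c87 c338 (k8 c501 c4482 c4440 c4322 c4318 c845 c304 c3427 (k8 c3470 c4376 c32 c3454 c4396 c3316 c8654 c8657 k0)))) (by decide +kernel)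
def c8660 : PP 8 4 T 0x20000000000000000000000000000000000000000000000080000020000000000002 := rS 0x300a3043aa48783b098a986b9598ccc687459b43a6510420b4793b9ecae0b031b8d6098c9141c3121af880f1258946e11309643e8d (k8 c4383 c1099 c487 c4326 c606 c87 c4381 c176 (k8 c4297 c1492 c1491 c338 c298 c8651 c1222 c4369 (k8 c3059 c493 c1329 c1330 c304 c751 c3038 c3005 (k8 c501 c4476 c4482 c495 c2444 c759 c4318 c4322 (k8 c4440 c2822 c950 c8658 c8659 c1215 c8653 c1638 (k8 c1641 c314 c315 c498 c5902 c3594 c5806 c1852 k0)))))) (by decide +kernel)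
def c8661 : PP 8 4 T 0x20000000000000040000140001001100401005001500100040020000000000008000 := rS 0x1444112d0308171de329a5f98522a72fa354a23 (k8 c1327 c4385 c4383 c4382 c4330 c4328 c4326 c1054 (k8 c7048 c7959 c1888 c1848 c4482 c4439 c1333 c2119 (k2 c6927 c4452 k0))) (by decide +kernel)
def c8662 : PP 8 4 T 0x20000001000000000000000000000000000001001000000000000021000000008002 := rS 0x964d410645e7720aa53227538954ad35d844c20d4286c9ebd3707416373588cba8f4e9a4407b2d15c0c032c87d1a33 (k8 c950 c4383 c1099 c487 c28 c1330 c1018 c4476 (k8 c704 c495 c2823 c2968 c3313 c840 c1327 c2445 (k8 c87 c304 c759 c1329 c3000 c8660 c426 c3470 (k8 c32 c4326 c606 c4847 c4373 c4385 c4381 c4330 (k8 c4324 c6171 c6029 c8661 c1023 c837 c8637 c8636 (k2 c244 c1855 (k1 c2111 k0))))))) (by decide +kernel)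
def c8663 : PP 8 4 T 0x20000001000000000000000000000000000001001000000000000020000000008002 := rS 0x1445413506194092c2f081829cbea569844c24f4282c6e6b119751e6910168ae032c87d1a06 (k8 c1330 c4383 c1099 c487 c28 c1018 c4476 c495 (k8 c2823 c3313 c840 c1327 c2445 c87 c304 c3470 (k8 c8660 c4326 c606 c4373 c4385 c4382 c4330 c8662 (k8 c8071 c1910 c1915 c4439 c4436 c8514 c244 c2119 (k2 c4474 c4398 k0))))) (by decide +kernel)
def c8664 : PP 8 4 T 0x20200000000000040040000000000000044040000014100000000002000205018000 := rS 0x28d93422491dca553e99cc2a12fa7c1afd (k8 c4376 c32 c4384 c4382 c4329 c4326 c4310 c4409 (k8 c4406 c5845 c1331 c4199 c4473 c8024 c4393 c2118 k0)) (by decide +kernel)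
def c8665 : PP 8 4 T 0x400100000000000000000000410000200044005401480000000000000000210100082 := rS 0x61b058b1644a555e73159d62297 (k8 c2930 c4334 c593 c8591 c8594 c984 c857 c5289 (k4 c4481 c1136 c1933 c4362 (k1 c2123 k0))) (by decide +kernel)
def c8666 : PP 8 4 T 0x11000400000000044005400000000000880000000000408180 := rS 0x11273619d4243d (k4 c8078 c1332 c499 c2055 (k2 c1561 c516 (k1 c2123 k0))) (by decide +kernel)
def c8667 : PP 8 4 T 0x20000000000000000000010000000000044001001000000000000022000000008002 := rS 0x4914954767423a518ac149aae202b1699d470556865369821422262748a844a9f69ad40a1130bf4fe1b278558e0906add666e3287416373588cba8f4ea5cc6203d968ae032c87d1a173b905e006 (k8 c1330 c8663 c4433 c1023 c4431 c4383 c1099 c487 (k8 c28 c1018 c4476 c704 c495 c2822 c2930 c2968 (k8 c3313 c840 c1327 c2445 c87 c304 c759 c2444 (k8 c1329 c1189 c2999 c32 c1060 c1451 c386 c8660 (k8 c426 c3427 c4376 c4326 c606 c54 c7883 c4373 (k8 c4384 c4381 c4329 c4328 c4324 c4441 c8071 c316 (k8 c317 c1967 c4436 c3960 c8664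 c8633 c8665 c910 (k8 c4191 c4478 c4415 c4413 c1932 c7718 c2125 c8666 (k4 c5073 c8077 c1687 c835 (k2 c4199 c2110 k0)))))))))) (by decide +kernel)
def c8668 : PP 8 4 T 0x20101000000000000040015400040000400000000050000000400000000600001182 := rS 0x491495476744a24e202b1689d22a112a353e05089852e63 (k8 c2822 c2930 c4326 c606 c54 c4384 c4383 c4381 (k8 c4329 c4328 c4324 c910 c4191 c4478 c4413 c2125 (k4 c5073 c8077 c1687 c835 (k2 c4199 c2110 k0)))) (by decide +kernel)
def c8669 : PP 8 4 T 0x20100000000000000000000400000000044001001080000000000020000000108002 := rS 0x230c444a6582c356a6e2716542bce62b3ac443a0b1b9ad3a973d9dc82f051984fefd329751e6310168ae032c87d1a06 (k8 c1330 c4383 c1099 c487 c28 c1018 c4476 c495 (k8 c2822 c3313 c840 c2444 c4376 c3427 c4326 c8633 (k8 c8663 c4433 c1023 c704 c2930 c2968 c2445 c87 (k8 c304 c759 c4334 c593 c8591 c8594 c984 c8647 (k8 c4481 c4345 c866 c948 c4362 c4420 c8665 c5289 (k2 c2123 c4488 (k1 c4370 k0))))))) (by decide +kernel)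
def c8670 : PP 8 4 T 0x20100000000000000000010000000000044001001000000000000020000000008002 := rS 0x3aa507a9323440cea330a45429f5abf4fe15638241ab7599b8ca232ea3d2e6310168ae032c87d1a06 (k8 c1330 c4383 c1099 c487 c28 c1018 c4476 c495 (k8 c2822 c2930 c3313 c840 c1327 c2444 c1329 c1189 (k8 c2999 c32 c1060 c1451 c386 c3427 c4376 c7883 (k8 c4384 c4329 c4328 c4326 c8633 c8669 c4478 c8668 (k4 c4413 c8078 c2125 c499 (k1 c5073 k0)))))) (by decide +kernel)
def c8671 : PP 8 4 T 0x20200002002000000000100000000000440000001000080000000000000010000082 := rS 0x151123b862124135a74d22043a24aa7b (k8 c704 c4406 c4314 c4410 c495 c2823 c2968 c2445 (k4 c4433 c5422 c5546 c1023 (k2 c4479 c8637 (k1 c4345 k0)))) (by decide +kernel)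
def c8672 : PP 8 4 T 0x20200000002000000000000000000000040000001000000000000020000000008002 := rS 0xa9258bc9a312110432993c3c46627538954abb278241abd370803a0b1b9ac465d2d15c0c032c87d1a8f (k8 c3313 c4383 c1099 c487 c28 c1330 c1018 c4476 (k8 c840 c1327 c2445 c87 c304 c759 c495 c1329 (k8 c3000 c32 c1060 c8660 c4847 c4385 c4381 c4330 (k8 c4324 c950 c8671 c8663 c1928 c1959 c1847 c501 (k4 c317 c244 c837 c1954 (k2 c6029 c2111 k0)))))) (by decide +kernel)
def c8673 : PP 8 4 T 0x400000000000001200000000000040044000400000000000401100000000000100000000000808100 := rS 0x1dcf68739a248e7d (k8 c4409 c1331 c4314 c4408 c4410 c521 c1833 c7240 k0) (by decide +kernel)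
def c8674 : PP 8 4 T 0x20200000000000000040000400040000040000000000000000000020000000008002 := rS 0x683c096330bb2c9ac366a0c62ad3cc26266c67a1416370d93c1245372750e47a194ca27509c455e921e0a9c8c8509fcc67d69924aafd2ea3cbe2d0a99c4e65089841a9f10168ae032c87d1a06 (k8 c1330 c4383 c1099 c487 c28 c1018 c4476 c495 (k8 c4384 c32 c4326 c606 c2444 c4324 c4310 c386 (k8 c910 c4382 c3313 c840 c4376 c4406 c4199 c4373 (k8 c4409 c2822 c3427 c4329 c5857 c8024 c4520 c314 (k8 c315 c3716 c4411 c4401 c498 c4405 c4290 c4422 (k8 c1331 c4410 c2968 c1329 c3231 c1060 c8660 c426 (k8 c87 c304 c3470 c1792 c8672 c4342 c4318 c601 (k8 c944 c5699 c640 c5446 c1128 c245 c5740 c8673 (k4 c951 c1334 c5814 c2116 (k1 c4298 k0)))))))))) (by decide +kernel)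
def c8675 : PP 8 4 T 0x1001000000000000000000002000000001400000000100000000000000000000000 := rS 0x10345 (k2 c4398 c1361 (k1 c4484 k0)) (by decide +kernel)
def c8676 : PP 8 4 T 0x200000000000000240000000000000000000002000000000000020000000008002 := rS 0xaba5a89848b3a84dc943049152eb32495423133cab4ce16192a5fa83308bc6309059a53a6b0da141abb8609440376989c465d2d1643e570300d1e6e (k8 c1329 c3313 c28 c1330 c1018 c3099 c487 c4476 (k8 c840 c1327 c238 c4373 c87 c495 c312 c4467 (k8 c3315 c32 c3470 c2672 c2445 c2968 c2823 c304 (k8 c4318 c5699 c2830 c4326 c640 c4376 c8675 c8636 (k8 c951 c4310 c944 c601 c4342 c113 c4406 c4199 (k8 c4312 c2930 c3231 c1060 c4422 c8024 c4401 c498 (k4 c524 c8673 c8674 c4459 (k2 c1947 c4526 k0)))))))) (by decide +kernel)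
def c8677 : PP 8 4 T 0x200000000000000040000000000000000000002000000000000020000000008002 := rS 0x24e2ec23a8ec26e445abd2b4388a8982c98c1dcf6430b3c464a9418c55a2f3cc26265f5da14fe0b04914ca6b0da752e6931985429f8609440376989c465d2d1643e6e2b818068f33acd0e734491cfa492abf4220d (k8 c32 c113 c4376 c4406 c4199 c4409 c1331 c4314 (k8 c4408 c4410 c4312 c4310 c3313 c28 c1330 c1018 (k8 c1329 c3099 c487 c4476 c840 c1327 c238 c4373 (k8 c87 c495 c312 c4467 c4384 c4329 c4326 c2822 (k8 c2823 c2930 c2968 c2672 c2445 c2444 c3231 c1060 (k8 c304 c3427 c3470 c3315 c1376 c4342 c4318 c601 (k8 c2830 c944 c5699 c640 c8675 c8636 c4294 c951 (k8 c337 c521 c1833 c4482 c8676 c4450 c2118 c4337 (k8 c4393 c858 c988 c5443 c4473 c4401 c4403 c498 (k4 c8505 c4362 c1128 c4487 k0)))))))))) (by decide +kernel)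
def c8678 : PP 8 4 T 0x1000000000000000000000000000000000400001000000000000020000000008002 := rS 0x3cbc5002e0697d76850da74c2a752c304ad31388cba8f198c4163754c48d66910168b21f3715c0606 (k8 c1330 c28 c1018 c1329 c3099 c487 c4476 c495 (k8 c2823 c2445 c4479 c4345 c87 c304 c8071 c950 (k8 c3313 c840 c1327 c238 c4373 c312 c4467 c4385 (k8 c4330 c4326 c2968 c2672 c3470 c3315 c1376 c32 (k4 c8636 c2119 c4432 c1962 (k1 c8663 k0)))))) (by decide +kernel)
def c8679 : PP 8 4 T 0x1000000000000000000000000000000000000001000000000000020000000008002 := rS 0x9a2f0c92cef45412a6243108af43a0b35a74d2a75293e1825100dda627119751e7b2d1643e6e2b8180633 (k8 c950 c28 c1330 c1018 c1329 c3099 c487 c4476 (k8 c704 c3313 c840 c1327 c238 c4373 c87 c495 (k8 c312 c4467 c8660 c4385 c4330 c2823 c2968 c2445 (k8 c304 c759 c3000 c113 c8071 c4479 c4345 c8678 (k4 c4452 c2002 c1855 c8637 (k2 c6927 c244 (k1 c2111 k0))))))) (by decide +kernel)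
def c8680 : PP 8 4 T 0x200000000000000040000000000000000000000000000000000020000000008002 := rS 0x284a272a2e106d8609440376989c465d2d1643e6e2b818068f5991cfa492abf4220d (k8 c32 c113 c4376 c4406 c4199 c4409 c1331 c4312 (k8 c3313 c28 c1330 c1018 c1329 c3099 c487 c4476 (k8 c840 c1327 c238 c4373 c87 c495 c312 c4467 (k4 c8677 c8679 c4322 c8672 (k2 c8674 c4473 (k1 c4393 k0)))))) (by decide +kernel)
def c8681 : PP 8 4 T 0x200000000000000000000000000000000000001000000000000020000000008002 := rS 0x13713622b916c1840ccf6650e82cd61b4e9a4c66759a1ce6896893d26ab56c412a3a4bae18c8d8609440376989c465d2d1643e6e2b818068f (k8 c3313 c28 c1330 c1018 c1329 c3099 c487 c4476 (k8 c840 c1327 c238 c4373 c87 c495 c312 c4467 (k8 c4383 c8680 c1451 c2930 c1452 c8036 c6781 c4338 (k8 c4415 c1125 c8660 c460 c4314 c4408 c4410 c4312 (k8 c4310 c2822 c2823 c2968 c2672 c2445 c304 c759 (k8 c2444 c704 c950 c8679 c8008 c4322 c2120 c8068 (k2 c4346 c868 (k1 c7718 k0)))))))) (by decide +kernel)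
def c8682 : PP 8 4 T 0x200000000000000000000000000000000000000000000000000020000000008002 := rS 0x3058ac33b9ed16434d94c2cf1192a50631179e613133624cead15c0e9cb436311c5a893e9cd0eb333845fabb4282c120d229ac369d349851a4f8609440376989c465d2d1643e6e2b818068f (k8 c3313 c28 c1330 c1018 c1329 c3099 c487 c4476 (k8 c840 c1327 c238 c4373 c87 c495 c312 c4467 (k8 c8660 c4383 c4326 c2823 c2968 c2672 c2445 c3231 (k8 c32 c1060 c304 c3470 c3315 c4376 c113 c4310 (k8 c4312 c4410 c4408 c4409 c4314 c910 c1331 c8680 (k8 c4391 c4289 c1452 c1451 c460 c8656 c1125 c8681 (k8 c4342 c4318 c601 c2830 c5699 c640 c8675 c8636 (k8 c4294 c951 c416 c863 c337 c7874 c521 c1833 (k4 c1048 c7718 c1581 c2123 k0))))))))) (by decide +kernel)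
def c8683 : PP 8 4 T 0x100000000000000400000001554000044000002054000000000000000000000000 := rS 0x19f4a55a262109 (k4 c4318 c4478 c680 c4415 (k2 c4485 c4430 (k1 c4855 k0))) (by decide +kernel)
def c8684 : PP 8 4 T 0x101000000000000000005411554001545444402010000000000000000210100082 := rS 0x22586af398ad24b94a9d4cccb4b98d8ac18c424f29d (k8 c2968 c601 c4318 c4482 c4450 c4370 c2822 c2930 (k8 c5740 c8683 c593 c857 c5280 c2125 c8591 c8594 (k4 c1778 c1128 c681 c2123 k0))) (by decide +kernel)
def c8685 : PP 8 4 T 0x20100000000000000000005400040000408040000010000000000000400601908182 := rS 0x676391c5ab915b94267528035fa77 (k8 c1833 c4376 c32 c1836 c1693 c1565 c4405 c1645 (k4 c5280 c911 c1332 c7228 (k2 c4555 c8668 k0))) (by decide +kernel)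
def c8686 : PP 8 4 T 0x20100000000000000000005401040001401044002010000040000008000614108182 := rS 0x1198e7d148ac5a4968048a267a5a290e057e89d42a746a7d4b0917a0cc2ad0c80cee16 (k8 c951 c1833 c28 c254 c2947 c4326 c640 c2830 (k8 c4318 c4385 c4384 c4383 c4330 c4329 c238 c4376 (k8 c54 c8685 c8684 c4427 c2480 c1591 c524 c525 (k8 c4527 c910 c4191 c957 c3692 c460 c4200 c1331 k0)))) (by decide +kernel)
def c8687 : PP 8 4 T 0x20100000000000040000000800000000000040008000080000000000000000108000 := rS 0x90c9 (k2 c2615 c8640 (k1 c243 k0)) (by decide +kernel)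
def c8688 : PP 8 4 T 0x2010000000000000000004140000000140104000a000000040000000000000008582 := rS 0xf416192a5063117c241a455b8543a6b0d88d3a6951985fa652e98c405a2c87cae03 (k8 c28 c1018 c3099 c487 c4476 c495 c2822 c840 (k8 c2444 c4376 c4326 c8633 c2823 c2968 c1327 c2672 (k8 c2445 c759 c2632 c2999 c3231 c32 c4318 c2830 (k4 c5699 c640 c8675 c8636 (k2 c951 c8686 (k1 c521 k0)))))) (by decide +kernel)
def c8689 : PP 8 4 T 0x1000000000000000000000000000020000000008002 := rS 0x662259e73a1c5d70bf3ca6296cb0b8c15cf017aae8b104119cbeb735a5cd2a746a9546617e994c63345a1c968126866106d598560a4f8609440d311974b4590f95d2227018241a0b1b9fd0a8f031b976b5 (k8 c7883 c3315 c1329 c1330 c3313 c3470 c3427 c87 (k8 c304 c32 c1060 c28 c238 c1036 c1018 c3099 (k8 c487 c4476 c840 c1327 c4373 c495 c312 c4467 (k8 c8660 c8682 c2632 c8687 c8688 c8679 c4436 c244 (k8 c4439 c1333 c4440 c4322 c950 c2822 c2444 c4376 (k8 c4326 c8633 c4385 c4383 c4330 c2823 c2930 c2445 (k8 c2999 c1376 c8647 c2119 c4478 c4452 c4415 c6927 (k8 c4474 c8639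 c2111 c4431 c8140 c4428 c317 c500 (k8 c1133 c8667 c4361 c4394 c1086 c1525 c7172 c4495 (k1 c2064 k0)))))))))) (by decide +kernel)
def c8690 : PP 8 4 T 0x20000000008002 := rS 0x721551274239ce87175c1e42ef017c4e8aa82692d0e1945a06103336ace0a4f86094466b0a880ba5a2c87cae910482cfe8547818dcbb13bf41a11698dd6a03 (k8 c28 c7883 c87 c4373 c113 c32 c4376 c238 (k8 c3315 c1329 c1330 c3313 c3470 c3427 c304 c1060 (k8 c1036 c1018 c3099 c487 c4476 c840 c495 c2632 (k8 c2445 c1327 c312 c4467 c8660 c8682 c8687 c8688 (k8 c950 c8679 c4439 c4322 c4436 c4440 c1333 c244 (k8 c8689 c4398 c4345 c787 c4474 c8580 c500 c8670 (k8 c4361 c4394 c1086 c3316 c5280 c7172 c1687 c8656 (k1 c5422 k0)))))))) (by decide +kernel)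
def c8691 : PP 8 4 T 0x400000000000000000000000000000000000000000000000000020004400010000000 := rS 0x62f1 (k2 c4433 c1913 (k1 c4469 k0)) (by decide +kernel)
def c8692 : PP 8 4 T 0x100000000000000100008000000000000000040000000000000020000000100000 := rS 0x48903a (k4 c1037 c1038 c4158 c1718 k0) (by decide +kernel)
def c8693 : PP 8 4 T 0x100000002000000000000000846000000000000000000000000000001010200000002 := rS 0x292b45a3b49a5026590f854b406 (k8 c831 c830 c2632 c86 c487 c2464 c665 c1123 (k4 c1042 c911 c2862 c4542 (k1 c4712 k0))) (by decide +kernel)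
def c8694 : PP 8 4 T 0x20100000000000000000000002000000000000001000000000000020000200000002 := rS 0xa4ad16b3c8e7e59adce62b3a9995e2988a88fac97e145a2cd6388a2af0472ac629a4caf882833ca1d1617842145e8189d15a65d198753a97349acc6590f854ca7b2f9bc1e711ba7d621103168c2a146a95764f (k8 c8660 c4847 c4385 c4383 c4329 c4326 c830 c831 (k8 c2594 c1034 c8592 c87 c497 c8690 c1020 c2443 (k8 c704 c2444 c2632 c86 c487 c2822 c5752 c2823 (k8 c2930 c2968 c85 c950 c753 c4373 c4398 c4345 (k8 c1361 c787 c5976 c4479 c8580 c4322 c4440 c500 (k8 c4570 c8691 c7037 c1133 c5760 c317 c8583 c866 (k8 c4469 c4388 c1305 c3423 c3461 c4298 c4435 c4480 (k8 c4305 c4379 c8584 c4337 c779 c989 c4478 c593 (k8 c8591 c8594 c8692 c8693 c5124 c1312 c1521 c915 (k2 c949 c2112 (k1 c4712 k0))))))))))) (by decide +kernel)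
def c8695 : PP 8 4 T 0x400000000000000000000000001500000000400001001100000000000000200000002 := rS 0x404210a693597c0c5a (k8 c830 c831 c2443 c5752 c2823 c5976 c4479 c2119 (k1 c4439 k0)) (by decide +kernel)
def c8696 : PP 8 4 T 0x2000000040000000001500000001000001501500000000000000000014000 := rS 0xfc400350617 (k4 c4431 c4570 c8375 c2119 (k2 c4463 c4380 k0)) (by decide +kernel)
def c8697 : PP 8 4 T 0x8000000002000000040000000001500010000001001001000000000000140200004002 := rS 0x88b958a9b8c42508ab4cabe2477419042e5d4e9a4d67b0897c0c5a148f586c1 (k8 c4420 c4362 c4416 c834 c830 c831 c2443 c2594 (k8 c704 c5752 c2823 c2968 c753 c4431 c4433 c4570 (k8 c1023 c8695 c4346 c4443 c4445 c8696 c4321 c4482 (k4 c4448 c4370 c4982 c7287 (k1 c4468 k0))))) (by decide +kernel)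
def c8698 : PP 8 4 T 0x44400000000080000000000520000005550002000000 := rS 0x672259b43 (k4 c4392 c2062 c2038 c7781 (k1 c1522 k0)) (by decide +kernel)
def c8699 : PP 8 4 T 0x1000000040040000000400000002080001000000040000000450200000002 := rS 0xcc24395a25228aad5e1818932241725c268a1b199a4d60b0ed0c8e152d0185a13 (k8 c515 c911 c831 c830 c2632 c1312 c4392 c85 (k8 c567 c5752 c2823 c950 c686 c4397 c4321 c1320 (k8 c523 c5976 c4474 c8071 c4465 c4346 c4445 c1997 (k4 c8698 c179 c4290 c4473 (k2 c373 c7979 k0))))) (by decide +kernel)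
def c8700 : PP 8 4 T 0x800100000000000000040000001500000001480001501500000000004550004100000 := rS 0x144a6d156b310d0944a00fa8b67abc62ab (k8 c4445 c4441 c4346 c1521 c724 c154 c2119 c8425 (k8 c4439 c1462 c1461 c8622 c1631 c1903 c1869 c2112 k0)) (by decide +kernel)
def c8701 : PP 8 4 T 0x800100001000000040040000001500000001080001501500040000004550004110000 := rS 0x2894c98cd443289745412ac62af649f686cf (k8 c1521 c4392 c154 c155 c4346 c4441 c4445 c8700 (k8 c4452 c1855 c677 c8144 c2065 c4474 c2023 c1863 (k1 c7781 k0))) (by decide +kernel)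
def c8702 : PP 8 4 T 0x400000000000000040000000001500000000000001001000000000000400200004002 := rS 0x4105cba33358440c5a (k8 c830 c831 c2594 c5752 c950 c753 c8580 c8695 (k1 c4570 k0)) (by decide +kernel)
def c8703 : PP 8 4 T 0x800100001000000040040000001500000000080001001100040000000450200000002 := rS 0x4286c666935854225f031685a13 (k8 c515 c911 c830 c831 c2443 c2594 c2632 c5752 (k4 c2823 c950 c686 c8699 (k1 c8701 k0))) (by decide +kernel)
def c8704 : PP 8 4 T 0x8000000002000000040000000001500010000000001001000000000000140200004002 := rS 0x1e02e06 (k4 c831 c4431 c8697 c500 k0) (by decide +kernel)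
def c8705 : PP 8 4 T 0x40000000001500000000000001001000000000000801200004002 := rS 0x3104fd42a0610778c9e49a9a20174d26b05874f6112f968de06 (k8 c831 c1020 c830 c2443 c2594 c704 c85 c567 (k8 c5752 c2823 c753 c837 c836 c1992 c1847 c4448 (k8 c1888 c4482 c7000 c4321 c8613 c2119 c4463 c509 k0))) (by decide +kernel)
def c8706 : PP 8 4 T 0x100000000000040040000401500000000080141001000040000000400200004002 := rS 0x3c4563b8b1742a652d01a24294a98c5a13 (k8 c515 c911 c2822 c5073 c834 c8702 c831 c830 (k8 c2444 c2632 c753 c4481 c4158 c5902 c8704 c8703 k0)) (by decide +kernel)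
def c8707 : PP 8 4 T 0x20100000000000000000000400000000000080001000000000000020000200000002 := rS 0xa4cd42145a2ad88121e0e5158e87a721684d8e295ca54ba1b349acc60b0e844be6f27abc63121789552a5539841ed3a19d4e23723854b406 (k8 c831 c830 c2632 c1312 c87 c497 c594 c4392 (k8 c4373 c8690 c4326 c4330 c4385 c8694 c312 c8705 (k8 c8702 c4441 c4346 c8660 c1020 c2443 c2594 c85 (k8 c567 c2822 c5752 c2823 c686 c753 c5073 c4548 (k8 c834 c1451 c515 c911 c8706 c1615 c1021 c314 (k8 c4403 c8703 c4473 c4468 c4554 c4298 c4435 c8696 (k2 c7979 c7769 (k1 c373 k0)))))))) (by decide +kernel)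
def c8708 : PP 8 4 T 0x20100000000000000000000000000000000080001000000000000020000200000002 := rS 0x233093b9e534842085d58f029b1e2229168ec56933325026b22e9a4d6630480cb21f0a9ec225f031689eaf18aae242f128dd52a5539841ed3 (k8 c4373 c8690 c4326 c4330 c4385 c8694 c87 c312 (k8 c8705 c8702 c4445 c4441 c4346 c8660 c830 c831 (k8 c2443 c2594 c704 c2632 c86 c487 c28 c230 (k8 c2822 c5752 c2823 c753 c8707 c2464 c665 c664 (k8 c1123 c4991 c1042 c911 c8448 c4334 c1452 c4712 (k8 c8703 c4542 c4431 c4433 c8696 c860 c500 c1023 (k2 c4321 c4448 (k1 c4482 k0)))))))) (by decide +kernel)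
def c8709 : PP 8 4 T 0x102002000000000000000544000040000040004110000000040421100200000080 := rS 0xac33a4e2e745b9cd6a3f388dd927d (k8 c4379 c4305 c87 c497 c8194 c7883 c1021 c1037 (k4 c5124 c7787 c1656 c593 (k2 c8019 c6230 k0))) (by decide +kernel)
def c8710 : PP 8 4 T 0x102002000000000011000444001540000040004100080000040021150200000080 := rS 0x11061a55ca3a32ac42241 (k8 c4433 c2594 c1034 c2444 c8709 c4403 c8036 c1047 (k2 c4468 c7287 k0)) (by decide +kernel)
def c8711 : PP 8 4 T 0x11000400000100010001401000000100000000200200000002 := rS 0x8b619d50e73332547a1288a5c12031f818f65a (k8 c830 c704 c831 c8194 c28 c230 c2930 c4332 (k8 c911 c329 c855 c910 c1561 c1564 c499 c4958 (k2 c720 c2123 k0))) (by decide +kernel)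
def c8712 : PP 8 4 T 0x20100002000000000000000000000000000000001000000000000020000200000002 := rS 0x2915a54742d59bf04515473058a9b21c617e8984a068abd3ba0cf284289042e5d198753a97489a4d6653d97cde71588440c5a46abc629955c485e251baa54aa73083da67f (k8 c8708 c4373 c8690 c4326 c4330 c4385 c8694 c87 (k8 c312 c8705 c8702 c4445 c4443 c4441 c4346 c4383 (k8 c830 c831 c2594 c1034 c497 c1020 c2443 c704 (k8 c2444 c5752 c2823 c2892 c2930 c2968 c85 c950 (k8 c753 c4431 c4433 c4435 c8696 c500 c4570 c1023 (k8 c1039 c4397 c184 c4321 c684 c7782 c4482 c4446 (k8 c4448 c4370 c4450 c7959 c8237 c1305 c7086 c8624 (k4 c8711 c8709 c8036 c1641 (k2 c834 c8710 k0))))))))) (by decide +kernel)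
def c8713 : PP 8 4 T 0x20800000000000000000010000000001050000000000000000000010800150000000000 := rS 0x8830dcaaf4caad36c1 (k8 c4450 c4448 c4445 c4443 c4346 c4403 c1047 c4468 (k1 c7223 k0)) (by decide +kernel)
def c8714 : PP 8 4 T 0x1000102000000000000000010500014040000040004015500000000420000000000080 := rS 0x51508cf173a2dce6b5388dd927d (k8 c4379 c4305 c87 c497 c7883 c1021 c1037 c5124 (k4 c7787 c593 c4492 c2118 (k1 c4393 k0))) (by decide +kernel)
def c8715 : PP 8 4 T 0x2000001000000040000000014000000040000015500000000000140000100000 := rS 0x5199d927d (k4 c4379 c4305 c4555 c4241 (k1 c2118 k0)) (by decide +kernel)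
def c8716 : PP 8 4 T 0x1000102000002000000000000500014040000040004015500000000020000000000080 := rS 0x5c1d47613 (k4 c4401 c4403 c498 c8714 (k1 c4548 k0)) (by decide +kernel)
def c8717 : PP 8 4 T 0x100000000000000000000000000000000000000000000000000000080200000002 := rS 0x3b0e994b406 (k4 c831 c830 c2444 c85 (k2 c1641 c5902 k0)) (by decide +kernel)
def c8718 : PP 8 4 T 0x100000000000000080000400000000000000004000000000000020000000000400 := rS 0x1d5703a (k4 c1452 c1451 c1575 c4548 k0) (by decide +kernel)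
def c8719 : PP 8 4 T 0x100000000000000040000000014041100040004005180000000820140000000080 := rS 0x24d6e8f8845146677eae52ae55a854ca5f388dd6211 (k8 c2594 c1034 c87 c497 c2443 c2444 c2632 c7883 (k8 c4403 c8036 c1046 c8715 c4555 c4241 c4480 c4478 (k4 c4388 c4353 c4413 c2125 k0))) (by decide +kernel)
def c8720 : PP 8 4 T 0x20001000000000000000400101001101000400015500080000000000000012000002 := rS 0xec9a47af6287b53a354abb (k8 c4847 c4385 c4383 c4330 c704 c4480 c6133 c4388 (k2 c7247 c8637 (k1 c1888 k0))) (by decide +kernel)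
def c8721 : PP 8 4 T 0x102000000000000040004500014000000040054015500000000000140000100080 := rS 0x133a390fac9 (k4 c4305 c4379 c8715 c5124 (k2 c4401 c498 k0)) (by decide +kernel)
def c8722 : PP 8 4 T 0x1000000000000000001500000000500001501500020000000000005000000 := rS 0x4242e84 (k4 c2119 c1990 c4321 c4465 k0) (by decide +kernel)
def c8723 : PP 8 4 T 0x20100000000000000040004500040040000040054080000000000000150400110000 := rS 0x120f8e4649d44e61 (k8 c4326 c4324 c593 c632 c4555 c5124 c7771 c1623 k0) (by decide +kernel)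
def c8724 : PP 8 4 T 0x2820100000000000000200005101045041000040005544080000000000000000002080 := rS 0x5f9e6970962b05143c8ba1ce84809224f6a153a354aaf55a3d5a65 (k8 c2444 c6230 c4388 c4445 c4346 c4385 c4383 c4330 (k8 c4329 c704 c2459 c506 c507 c8577 c3647 c4417 (k8 c499 c8639 c8008 c3722 c4322 c4427 c2454 c7782 (k1 c8072 k0)))) (by decide +kernel)
def c8725 : PP 8 4 T 0x20100000000000000000000400000000000000001000000000000020100200000002 := rS 0x955c9d4f8c949c40ce2347a8e280c7eadc52731db1d6a5d4ea5d22693598c161d0a994be6f38a7d62110316856a146c485e251baa54aa73083da67f (k8 c8708 c4373 c8690 c4326 c4330 c4385 c8694 c87 (k8 c312 c8705 c8702 c4383 c4329 c8717 c830 c831 (k8 c2594 c1034 c8592 c497 c1020 c2443 c2444 c2632 (k8 c85 c567 c2822 c5752 c2823 c2892 c2930 c2968 (k8 c753 c7883 c8718 c8719 c1021 c835 c1037 c8721 (k8 c4463 c4480 c8633 c4388 c832 c8723 c4478 c4413 (k4 c8724 c5857 c1690 c3279 (k2 c5073 c2125 k0)))))))) (by decide +kernel)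
def c8726 : PP 8 4 T 0x100001000000000000000044000000042040000100000540000005550004000000 := rS 0x1a2ad0c2242f09 (k4 c4321 c523 c684 c4465 (k2 c8622 c261 (k1 c2112 k0))) (by decide +kernel)
def c8727 : PP 8 4 T 0x20100000000000000000000000000000000000001000000000000020100200000002 := rS 0x102fc3ed0c90a34788d0a512394dc911638a516664a32426b22e86c66693598c7e150897d3e062d0ac4ebb27abc62ab890bc4a3754a954e6107b4cfef1 (k8 c8712 c8708 c4373 c8690 c4326 c4330 c4385 c8694 (k8 c87 c312 c8705 c8702 c4445 c4441 c4346 c8660 (k8 c4847 c4324 c8717 c830 c831 c8592 c2443 c2594 (k8 c2632 c8194 c2822 c5752 c2823 c950 c686 c753 (k8 c8725 c2464 c2615 c665 c664 c2705 c8448 c7228 (k8 c4334 c4555 c4712 c4404 c4405 c8726 c8625 c1305 (k4 c858 c4200 c4421 c1623 (k2 c4483 c4380 (k1 c4130 k0))))))))) (by decide +kernel)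
def c8728 : PP 8 4 T 0x20100000000000000000000000000000000000001000000000000020000200000002 := rS 0x324eab73eacce6b9332547a4909444587f469844eb54b824063f3783ce237588440c5a (k8 c830 c831 c2594 c1034 c87 c497 c8690 c1020 (k8 c8194 c28 c230 c2930 c7883 c4324 c4326 c4383 (k8 c8708 c8727 c4332 c911 c368 c329 c855 c910 (k8 c6781 c1561 c513 c1563 c1038 c499 c632 c2121 k0)))) (by decide +kernel)
def c8729 : PP 8 4 T 0x10100000000000000000000000000040000040000010400000004020200000100182 := rS 0x5b325f916309d56673330f424b52e83ce237 (k8 c87 c497 c8690 c753 c7883 c911 c329 c910 (k8 c1561 c513 c499 c7376 c4481 c4477 c7308 c7787 (k1 c8692 k0))) (by decide +kernel)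
def c8730 : PP 8 4 T 0x1001000000000008000000000000000001410000000000000000000000000000000 := rS 0x10345 (k2 c4400 c1365 (k1 c4484 k0)) (by decide +kernel)
def c8731 : PP 8 4 T 0x800101000000000001500000001054000015010001554000000000000000000000000 := rS 0x40d154ccf41c2514a557ab55710 (k8 c4478 c4415 c6230 c4346 c4444 c6907 c4322 c644 (k4 c8730 c2128 c4453 c1896 (k1 c4484 k0))) (by decide +kernel)
def c8732 : PP 8 4 T 0x100000000000000100000400000000000040001000000000000020000200080002 := rS 0x20d9e1753d2d5cd145a06111342aa5fa6050b2d9b424391d123c3a2dc92d32e86c666b388dd3eb1089ccfaa372b1cde0f0587456ad34aae206716c34be151f8240697329680c63 (k8 c2822 c831 c830 c2444 c2930 c28 c230 c8194 (k8 c2632 c2443 c8728 c8729 c511 c4478 c4415 c2823 (k8 c6230 c8717 c85 c567 c8690 c1020 c8718 c4401 (k8 c4241 c1563 c1561 c2594 c1034 c8592 c87 c497 (k8 c5752 c950 c686 c753 c4373 c1718 c8692 c5124 (k8 c499 c2451 c8078 c3608 c4473 c4395 c4425 c4423 (k8 c4560 c4302 c976 c712 c8731 c4479 c4439 c4322 (k8 c1758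 c6907 c4428 c908 c8208 c6873 c4570 c2124 k0)))))))) (by decide +kernel)
def c8733 : PP 8 4 T 0x2000000000000000044000000080001000001004011500004000000004018000014080 := rS 0x14b455f20cf2810b9de10a717c4cdebb (k8 c4390 c1020 c4346 c788 c909 c4479 c7751 c8580 (k4 c4439 c500 c4570 c7040 (k2 c4399 c1404 (k1 c4568 k0)))) (by decide +kernel)
def c8734 : PP 8 4 T 0x100000000000000000000400000000000040001000000000000020000200080002 := rS 0x204ee16683c4a64d5f8c5067984a295e3b5baed122614b3d0e8511c501848303f5909355ab6206772b4cba1b19a74d26b3195cf6711bac4222b16c34be650a9687e0901a5d8e6f0303c161d (k8 c85 c567 c8690 c831 c1020 c8718 c2930 c28 (k8 c230 c8194 c830 c2632 c2444 c2443 c8728 c8729 (k8 c8717 c2594 c1034 c87 c497 c704 c798 c2822 (k8 c5752 c2823 c2968 c950 c686 c753 c4373 c4401 (k8 c511 c4478 c6230 c4415 c4413 c8732 c4305 c7308 (k8 c8024 c4463 c4480 c2824 c712 c3647 c3732 c1721 (k8 c7307 c2459 c4390 c4353 c1722 c8733 c6907 c4322 (k8 c2454 c2461 c8071 c7782 c4248 c372 c4542 c7874 (k4 c1759 c1833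 c1835 c7040 k0))))))))) (by decide +kernel)
def c8735 : PP 8 4 T 0x101000000000000100000000000000000040000000000002000000000000010000 := rS 0xfb43 (k2 c4421 c1623 (k1 c4483 k0)) (by decide +kernel)
def c8736 : PP 8 4 T 0x2000000000000800101000000000000100001541054000000050114110000000000000040000100082 := rS 0xad6699e84725cade28a555b3d4ecb (k8 c4455 c4453 c4400 c4445 c4444 c4480 c4353 c4548 (k4 c2121 c4483 c8594 c4395 (k2 c6230 c2128 k0))) (by decide +kernel)
def c8737 : PP 8 4 T 0x2000000000000800101000000000000100001541014000000040114110000000000000148000102082 := rS 0x72ab08ccd3e0bd96a767a8d4aab (k8 c4445 c4444 c934 c4400 c4453 c4455 c876 c8736 (k4 c3280 c1291 c2128 c4404 (k1 c4554 k0))) (by decide +kernel)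
def c8738 : PP 8 4 T 0x10000000044000000004020000000000400000005550000002000 := rS 0xac729448c54 (k4 c1292 c1291 c1604 c4404 (k2 c2112 c4554 k0)) (by decide +kernel)
def c8739 : PP 8 4 T 0x1100000000000000000000440000000000140001002000000000020000200000002 := rS 0xad2399ca87d29a1da22f260589682a2aae24315a8ccd26b058753e2b3a8a5524f42ade286f38ac54626118946e2d8697cca151f82406975098c92c90603da6137e8440c5a (k8 c830 c831 c2594 c4302 c8734 c4373 c8690 c4463 (k8 c506 c8735 c2822 c5930 c2930 c28 c230 c8194 (k8 c2632 c2444 c2443 c8728 c8729 c87 c312 c2824 (k8 c4467 c934 c1034 c497 c1020 c4480 c4353 c712 (k8 c1487 c976 c8448 c498 c8717 c8592 c85 c567 (k8 c5752 c2823 c950 c7883 c8071 c4479 c4445 c8737 (k8 c4484 c1855 c4570 c509 c877 c7073 c3895 c2031 (k4 c8738 c7377 c7436 c1602 (k2 c6230 c7129 k0))))))))) (by decide +kernel)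
def c8740 : PP 8 4 T 0x1000000000000000000000000000060000140100000000001504414000000041100800000000000400 := rS 0x3cafc804a (k4 c7073 c1763 c1324 c1847 (k1 c2122 k0)) (by decide +kernel)
def c8741 : PP 8 4 T 0x40000000000000800101000000000000100000555014000001544500110000501100824158000102482 := rS 0xbda34518b4d6a4f5daf6286f079c46ee5 (k8 c4403 c87 c497 c8690 c1020 c4480 c4354 c4390 (k8 c1487 c7883 c4373 c4441 c8737 c8740 c7984 c2112 k0)) (by decide +kernel)
def c8742 : PP 8 4 T 0x40000000000000400000000001000010000140155000000001504414400000500000004150200000080 := rS 0x17c983c8c02e2f (k4 c7984 c8580 c2112 c500 (k2 c317 c2122 (k1 c1134 k0))) (by decide +kernel)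
def c8743 : PP 8 4 T 0x100000000000000000000440000000000150001002000000000020000200000002 := rS 0xa71751062f16844d074b442ad5b1072944a6671d150e4b5349ac8a3305874f69f158b4be651f82406971485572755489846258693d0abb5baf6286f388dd62a131925920c07b4c26fd08818b48b0c9dd0f08 (k8 c8739 c4440 c4438 c4436 c4322 c830 c831 c2594 (k8 c4302 c8734 c4373 c8690 c4463 c506 c8735 c2822 (k8 c5930 c1034 c87 c497 c1020 c4480 c4354 c4353 (k8 c4390 c712 c1487 c8728 c312 c2824 c4467 c976 (k8 c498 c4548 c2632 c8448 c2930 c28 c230 c8194 (k8 c2444 c2443 c8729 c8717 c8592 c704 c85 c567 (k8 c950 c440 c5752 c2823 c7883 c2121 c7377 c1021 (k8 c8594 c252 c1604 c4403 c4478 c6230 c4415 c2120 (k8 c4457 c8330 c8741 c8742 c4298 c2318 c8740 c4469 (k2 c4453 c876 k0)))))))))) (by decide +kernel)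
def c8744 : PP 8 4 T 0x20000140100000000001504414000000000900000000000000080 := rS 0x795f90c943d (k4 c8078 c1765 c340 c1324 (k2 c501 c2122 k0)) (by decide +kernel)
def c8745 : PP 8 4 T 0x100000000000000000000440000000000140001002000000000020000200000002 := rS 0xc2242f68a0e968855ab6206772944a6462a1f10e770ca2e106935914667b158b61a5f328fc12034b8a4c6155493d0abb5ec50de711bac492c90603da6137e8440c5a (k8 c830 c831 c2594 c4302 c8734 c4373 c8690 c4463 (k8 c506 c8735 c1034 c87 c497 c1020 c4480 c4354 (k8 c4390 c712 c1487 c976 c2632 c2822 c8448 c2930 (k8 c28 c230 c8194 c2444 c2443 c8728 c8729 c8717 (k8 c704 c950 c440 c5752 c2823 c8739 c4322 c4436 (k8 c4438 c4440 c8743 c1292 c1291 c252 c1604 c4404 (k8 c4555 c4468 c6230 c4415 c2120 c4457 c8330 c8744 (k4 c7984 c8742 c2112 c4441 k0)))))))) (by decide +kernel)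
def c8746 : PP 8 4 T 0x40000000000000001100000000000004110004400000000014040110000080000000000008000000082 := rS 0xfa73 (k2 c7619 c4634 (k1 c7358 k0)) (by decide +kernel)
def c8747 : PP 8 4 T 0x100000000000000000000440000000000040001002000000000020000200000002 := rS 0x56a1a96ab52b1513126786094cb53c25005d349acf69f3aaa56f14379c562a31308c4a3716c34be650a8fc12034ba85920c078440c5a6984cc6fd (k8 c4302 c2822 c8734 c4373 c830 c831 c2594 c8690 (k8 c4463 c506 c5930 c2930 c28 c230 c8194 c2632 (k8 c2444 c2443 c8728 c8729 c87 c312 c2824 c4467 (k8 c934 c1034 c497 c1020 c4480 c4353 c976 c498 (k8 c8592 c704 c5752 c2823 c753 c8745 c4439 c1896 (k8 c1901 c1293 c1294 c3281 c4479 c3947 c7523 c4444 (k4 c4445 c4855 c8746 c1904 (k1 c4954 k0)))))))) (by decide +kernel)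
def c8748 : PP 8 4 T 0x100000000000000000000400000000000040001002000000000020000200000002 := rS 0x53b3a26ae50b244d140621552237eb4c669d349acae03129ecde0f388dd3eb108c34521331854b406 (k8 c831 c830 c2632 c2822 c8734 c8448 c8728 c2594 (k8 c1034 c8592 c87 c497 c8690 c1020 c704 c312 (k8 c28 c798 c5752 c2823 c2968 c950 c4373 c4302 (k8 c2824 c976 c712 c4463 c4480 c4467 c506 c5930 (k4 c8747 c4346 c8733 c908 (k1 c6873 k0)))))) (by decide +kernel)
def c8749 : PP 8 4 T 0x100000000000000000000400000000000040001000000000000020000200000002 := rS 0xe48aa851c227e09cc2c769974c6251b82c3a6f07a7d6211158b61a5f32854b43f0480c0c97 (k8 c2930 c831 c28 c230 c8194 c830 c2632 c2444 (k8 c2443 c8728 c8729 c8717 c2594 c1034 c8592 c8690 (k8 c1020 c85 c567 c87 c312 c2822 c753 c4373 (k8 c8718 c8748 c870 c4477 c4467 c832 c2825 c4388 (k2 c8715 c8716 k0))))) (by decide +kernel)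
def c8750 : PP 8 4 T 0x10002000000000000000000800000000000040001000000000000020150200000002 := rS 0xab18b4532ca3ca1d9e89842b59abb17c4d44a85293e2a8553a3844273e985068169974669d349ac4a372c87cf65f3783d621164a5117115794ca2e433054b406 (k8 c831 c830 c2632 c664 c4555 c4405 c4290 c984 (k8 c4334 c2705 c665 c2615 c2594 c1034 c8690 c1020 (k8 c2443 c704 c86 c487 c87 c312 c5752 c2823 (k8 c2968 c950 c753 c4373 c4380 c4306 c4302 c4379 (k8 c870 c4467 c832 c2826 c8624 c4388 c3467 c3295 (k8 c2119 c8620 c4130 c787 c1444 c1484 c2862 c4479 (k8 c6815 c1524 c4440 c668 c2124 c7038 c1751 c317 (k2 c1701 c2112 k0)))))))) (by decide +kernel)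
def c8751 : PP 8 4 T 0x2400000000000000045400010840000040005150014500080000000004400000014000 := rS 0x442b5061764a2e2266 (k8 c664 c4334 c2705 c2615 c8580 c4570 c8602 c2124 (k1 c5289 k0)) (by decide +kernel)
def c8752 : PP 8 4 T 0x2000000000000000040000010820000040001100014100080400100000400000014000 := rS 0xf00b10c8319413093494 (k8 c665 c860 c861 c8602 c4448 c1848 c2054 c4570 (k2 c4472 c4431 k0)) (by decide +kernel)
def c8753 : PP 8 4 T 0x2010000000000000045400010851444040005150014500080000000004400000014000 := rS 0x156a5894454266 (k4 c664 c897 c4334 c8751 (k2 c4444 c4445 (k1 c6890 k0))) (by decide +kernel)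
def c8754 : PP 8 4 T 0x2010000000000000041400010841444040005150014500080501500004158000014000 := rS 0x1a23125aad4b45672b45e4f (k8 c448 c876 c8752 c8753 c4400 c1406 c1676 c1325 (k2 c357 c7073 (k1 c2112 k0))) (by decide +kernel)
def c8755 : PP 8 4 T 0x1000000000002000000000000000040000010844000040001100014100080505100005158000014000 := rS 0x56b445e4f (k4 c448 c877 c7073 c8752 (k1 c2112 k0)) (by decide +kernel)
def c8756 : PP 8 4 T 0x100000000000000000000000000000000040001000000000000020000200000002 := rS 0xf2835f90c94ab18d154c873ba0596cd84509728554a8d7abb3e89892608a031fa512394dc8af508a4cc946484d642d698e4ba97349acc609018947e4519854ca7b2f9bc1e711ba7d621103168570d (k8 c8728 c8717 c830 c831 c2594 c1034 c8592 c87 (k8 c497 c8690 c1020 c2443 c704 c2444 c2632 c950 (k8 c440 c8194 c312 c28 c230 c2822 c5752 c2823 (k8 c2930 c753 c116 c4373 c8729 c8749 c2464 c2615 (k8 c665 c664 c8448 c897 c984 c4555 c4290 c4404 (k8 c4405 c8750 c4463 c4480 c4477 c8735 c503 c1291 (k8 c4390 c4354 c2859 c976 c712 c7402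 c4483 c7451 (k8 c4395 c4425 c4439 c4438 c4440 c8754 c4453 c2007 (k4 c2012 c8755 c1954 c1324 (k2 c1855 c501 (k1 c2122 k0))))))))))) (by decide +kernel)
def c8757 : PP 8 4 T 0x2000000000000000004000000954000000005504414000000000000005058200000002 := rS 0xbda24ba52f982458ba4cb21f6294ca2e4330540c2d0996976bd (k8 c4354 c4390 c830 c2464 c911 c831 c2632 c664 (k8 c4555 c4405 c4290 c1250 c86 c487 c1123 c4358 (k8 c440 c5957 c7444 c5956 c1324 c4426 c877 c2112 k0))) (by decide +kernel)
def c8758 : PP 8 4 T 0x2000000000000000004000000944000000005504414000000000000005058200000002 := rS 0x60d2d58978bb1576bd (k8 c4354 c4390 c1250 c4358 c2930 c8757 c4458 c1987 (k1 c5956 k0)) (by decide +kernel)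
def c8759 : PP 8 4 T 0x2000000000000000004000000940844000005184414000000000000004059600002002 := rS 0xad689319482558c48e53721982a061684cb44f (k8 c448 c830 c2464 c911 c831 c2632 c664 c4555 (k8 c4290 c1312 c2007 c2013 c8758 c677 c509 c1751 (k2 c2027 c7129 k0))) (by decide +kernel)
def c8760 : PP 8 4 T 0x10000000000000010800000055400000000000000000000500000004550000000000 := rS 0x6112 (k2 c5517 c2112 (k1 c4441 k0)) (by decide +kernel)
def c8761 : PP 8 4 T 0x40909001004001184004400000000000024400010000080 := rS 0x2fcf28320a6d1313 (k8 c4445 c1944 c1973 c8691 c676 c668 c4566 c7037 k0) (by decide +kernel)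
def c8762 : PP 8 4 T 0x10000000000000000800000055400000000000000000000540000004550000000000 := rS 0xd1 (k2 c1751 c8760 k0) (by decide +kernel)
def c8763 : PP 8 4 T 0x10001000000000000000000800004000000080001000000000000020050200000002 := rS 0x17e794c0c106cb55ab45ea7439dd03086793d0aa95188d40bd5d898c1140634c725d198753a6b129ecbe6f079c46eb10891d28932c87d5e5328b90cc15030b4265a (k8 c830 c2464 c911 c831 c2632 c664 c4555 c4405 (k8 c4290 c984 c86 c487 c1123 c665 c1312 c2594 (k8 c1034 c87 c497 c8690 c1020 c2443 c704 c312 (k8 c5752 c2968 c85 c950 c753 c116 c4373 c4463 (k8 c4480 c4477 c503 c4390 c4354 c673 c2824 c2859 (k8 c976 c712 c448 c1794 c7451 c4439 c4438 c4440 (k8 c8759 c876 c900 c8761 c8762 c677 c8758 c317 (k2 c1928 c1134 (k1 c2122 k0))))))))) (by decide +kernel)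
def c8764 : PP 8 4 T 0x100000000000000000000800000000000000001000000000000020000200000002 := rS 0x78aac62993c85c5ead5dc4d50cf27ae14a8553a3944225089cc28340bf0a6e457c44522d1da4ccc9409b4cba33349acc6251b9643e153d97cde0f4fac422062d0ae1a7e (k8 c8756 c8728 c8717 c830 c831 c2594 c1034 c8592 (k8 c8690 c1020 c2443 c704 c2632 c86 c487 c87 (k8 c312 c2822 c5752 c2823 c950 c753 c4373 c2464 (k8 c665 c664 c1123 c1042 c911 c8448 c4334 c984 (k8 c4555 c4290 c8763 c4380 c4306 c4302 c870 c896 (k8 c4467 c5121 c832 c2826 c8624 c5479 c859 c3467 (k8 c1521 c8613 c4130 c3452 c949 c787 c8580 c500 (k4 c7038 c317 c1701 c4542 (k1 c4469 k0))))))))) (by decide +kernel)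

end Pool.Agent.H551.GP.E84
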