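import Pool.Agent.H551.GP.E84x2

/-! Certificate data. -/

set_option linter.all false
set_option maxRecDepth 100000

namespace Pool.Agent.H551.GP.E84

def c8765 : PP 8 4 T 0x100000000000000000000040000000001000001000000000000020000a00000002 := rS 0x529c85251198a2d155bc134315f46532bd3ca1d12410b9de10cd5d8be8aad89aa19e8b698cd3a693595c06252c87c2a653da7d622b64d0c52953a9c46e631684d8eb33782c3a7e50a9d024f52a3906fc30844ba0f8697c0c5a (k8 c830 c831 c2443 c8728 c8690 c753 c2594 c767 (k8 c4477 c4306 c832 c3295 c3467 c8086 c2826 c2825 (k8 c8756 c85 c567 c1020 c8764 c8718 c515 c911 (k8 c2822 c87 c497 c594 c5073 c834 c4392 c155 (k8 c8717 c1034 c8592 c704 c2444 c2632 c86 c487 (k8 c312 c28 c798 c5752 c2823 c2968 c950 c4373 (k8 c724 c1521 c8613 c4130 c949 c4398 c787 c1444 (k8 c1484 c4479 c7751 c8580 c8691 c6175 c4440 c500 (k8 c1039 c7038 c6225 c2122 c317 c4488 c4469 c8583 (k8 c4298 c4435 c8142 c8588 c2112 c4555 c7458 c4456 k0)))))))))) (by decide +kernel)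
def c8766 : PP 8 4 T 0x100000000000000000000040000000000000001000000000000020000a00000002 := rS 0xcd241495a8b72945a2671d151e07217aad52318942508d3199a4d625328ae86470a8a52a75388dcc62d09b1d666f0782c3a7e308440c5a5393d4a8e (k8 c832 c3295 c3467 c2826 c830 c831 c2594 c767 (k8 c8756 c85 c567 c8690 c1020 c8764 c8718 c515 (k8 c911 c2822 c87 c497 c594 c5073 c834 c2632 (k8 c1312 c4392 c8717 c2444 c312 c5752 c2823 c950 (k8 c4373 c8765 c4321 c5976 c8071 c4345 c4445 c8705 (k8 c8706 c8699 c1022 c1021 c8594 c4298 c4435 c4403 (k4 c3702 c6230 c2112 c4473 (k2 c1482 c373 k0)))))))) (by decide +kernel)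
def c8767 : PP 8 4 T 0x100000000000000000000000000000000000001000000000000020000a00000002 := rS 0xf2bb5f9042ea842a6c5f135720d4afc40a9d1c6169974661d4e9a4d67b2f9bc1eb10896a1a294aaccea7e388186e63 (k8 c2822 c87 c831 c497 c8756 c594 c8764 c5073 (k8 c834 c8728 c830 c2594 c1034 c8690 c1020 c2443 (k8 c704 c5752 c2823 c2968 c85 c950 c753 c4373 (k8 c767 c832 c2826 c8086 c4477 c3295 c4306 c8766 (k8 c4346 c788 c868 c5976 c8702 c8580 c8691 c1516 (k2 c1444 c500 (k1 c7037 k0))))))) (by decide +kernel)
def c8768 : PP 8 4 T 0x410000000000000000000040001401000001104000400000000000024400010014080 := rS 0x14b455f20cf2410bb4cdeb1 (k8 c1034 c1020 c4373 c8580 c8691 c500 c4570 c7037 (k2 c4399 c1404 (k1 c4490 k0))) (by decide +kernel)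
def c8769 : PP 8 4 T 0x10000000000000000005000040400014001084000000000000000424148200000002 := rS 0x5f101064365b41e2ab4c8c624ad178753a6b228a5524f5022d03085191c72bb5ec51fa6f079c46eb1088f6229729945c86630054b406 (k8 c831 c830 c2632 c870 c672 c4555 c4405 c4290 (k8 c2930 c4334 c7465 c2594 c1034 c87 c497 c8690 (k8 c1020 c4302 c4480 c4354 c4390 c116 c1312 c934 (k8 c7451 c4439 c2707 c673 c448 c2976 c834 c440 (k8 c5752 c2968 c85 c876 c900 c8768 c4441 c4443 (k8 c4445 c4542 c2112 c8762 c340 c677 c6161 c7448 (k1 c1054 k0))))))) (by decide +kernel)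
def c8770 : PP 8 4 T 0x1400000000000000100000000000044100810404060000045400501080000000000401501200000002 := rS 0x1e486f144ab5a0cd0da748a33148f622974a98ca2e461b062c7315854b406 (k8 c831 c830 c2632 c8717 c8594 c4481 c4420 c4362 (k8 c4555 c4405 c2822 c5073 c2930 c4334 c7465 c834 (k8 c950 c440 c2968 c686 c1485 c8589 c901 c6175 (k4 c4298 c340 c7447 c8505 k0)))) (by decide +kernel)
def c8771 : PP 8 4 T 0x1400000000000000100000000000044100150504060000045500515080000044000401501200000002 := rS 0x26bc42c785f818f65a (k8 c830 c704 c831 c8770 c2122 c500 c4431 c1990 (k1 c4474 k0)) (by decide +kernel)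
def c8772 : PP 8 4 T 0x44040000000880000000000440400005150400002000 := rS 0x56b4498ca (k4 c677 c509 c1751 c2027 (k1 c7129 k0)) (by decide +kernel)
def c8773 : PP 8 4 T 0x400000000000000100000000000044100150504860000045500515080000040000400501200000002 := rS 0x12e8a31 (k4 c2007 c4453 c1856 c8771 k0) (by decide +kernel)
def c8774 : PP 8 4 T 0x100000000000000000000000000000000000001000000000000020000200000002 := rS 0x795f9005c83558c54cc161a4ca7161daf56ebb439dd02e4579cd9f14841990a8b503f49ea3300304c23168a4269563ae566473ad0d927e868ad629f389bc227b0a82c4a06319683ad31c8dc1e33 (k8 c950 c8690 c87 c116 c4373 c85 c830 c2822 (k8 c831 c312 c567 c2632 c704 c2594 c1020 c497 (k8 c8592 c1034 c8717 c8728 c8756 c155 c4392 c594 (k8 c1312 c8764 c7096 c8718 c5073 c515 c834 c911 (k8 c8767 c4467 c871 c870 c934 c448 c4302 c673 (k8 c2707 c712 c672 c7451 c4480 c1521 c8594 c984 (k8 c4555 c4439 c4438 c4440 c4390 c4353 c4354 c4158 (k8 c4481 c4290 c7994 c4362 c4420 c8769 c2007 c2013 (k4 c8772 c8773 c837 c1054 (k2 c1847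 c2122 k0)))))))))) (by decide +kernel)
def c8775 : PP 8 4 T 0x20008100000002 := rS 0x5a05870b2600f831a639 (k8 c116 c4373 c871 c352 c870 c2455 c4466 c2541 (k2 c7428 c759 k0)) (by decide +kernel)
def c8776 : PP 8 4 T 0x100000000000010014000012000000054000000080080000000000000020540002 := rS 0x52542c814c669 (k4 c2723 c2722 c54 c1026 (k2 c7090 c8448 (k1 c7395 k0))) (by decide +kernel)
def c8777 : PP 8 4 T 0x400000000001000000000000000000040000000000000100000000000000000000020001040210002 := rS 0x2dc5049 (k4 c366 c647 c1038 c8003 k0) (by decide +kernel)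
def c8778 : PP 8 4 T 0x100000000000000010000016000000000000001080080000000000000020540002 := rS 0xd161d2912af88a2d0f08899ac1469 (k8 c2723 c759 c2540 c4345 c4479 c4440 c4322 c4334 (k4 c984 c5289 c4491 c4459 (k2 c4426 c8776 k0))) (by decide +kernel)
def c8779 : PP 8 4 T 0x100000000000000110000006014000001490001001180000000000000020500002 := rS 0xcc5199cc6652fd1516878444cd669098295acf (k8 c1521 c949 c759 c2545 c2723 c2540 c4345 c4479 (k8 c4440 c4322 c4398 c2538 c2539 c2722 c8778 c6696 (k2 c8581 c1483 k0))) (by decide +kernel)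
def c8780 : PP 8 4 T 0x100000000000000000000000000000001080001000080000000020000020002002 := rS 0x512ab08ccd129a2622aa148fc2ac556b3c27430d8443e59028b4c6c912c551a7d5ab1d763750a7d7f450c81c2e331793d16878444d50a530a0cba0f40a9e18704889d1e212f9ac1469 (k8 c2723 c759 c2540 c2538 c8774 c1306 c8775 c1036 (k8 c568 c4135 c4330 c3293 c8690 c753 c2543 c503 (k8 c4385 c2119 c4345 c4479 c4440 c4322 c3466 c787 (k8 c950 c8580 c495 c7089 c4398 c1513 c4384 c4329 (k8 c87 c4897 c3422 c7883 c1419 c1385 c4387 c1367 (k8 c2542 c2722 c2920 c54 c1026 c56 c112 c686 (k8 c4392 c2545 c1521 c949 c8360 c8777 c398 c8448 (k8 c8779 c4415 c1944 c1943 c1671 c6629 c8776 c7395 (k2 c1867 c2109 k0))))))))) (by decide +kernel)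
def c8781 : PP 8 4 T 0x100000000000000000000012000000000000001080080000000000000021500002 := rS 0x34154890d8cd1687841acd3115794ca2c5498edc855149640a130526d3b13 (k8 c4345 c968 c2731 c759 c2544 c54 c1026 c775 (k8 c7395 c4464 c4403 c1029 c7718 c4405 c4290 c984 (k8 c4334 c2723 c2540 c4479 c4440 c4322 c950 c686 (k4 c5289 c8778 c2109 c1671 k0)))) (by decide +kernel)
def c8782 : PP 8 4 T 0x100000000000000000000000000000001000001080080000000020000020002002 := rS 0x4587b187850d3231512b126b71d94dc8551484d6a5902a762a9b0c81c2f13198bd50a534985065d07a054f0c4889d1e212f93cd6155c9fce00a (k8 c759 c568 c8780 c1473 c650 c2540 c3466 c2538 (k8 c8774 c1306 c8775 c1036 c4135 c4330 c3293 c8690 (k8 c753 c2543 c503 c2723 c4385 c2119 c787 c950 (k8 c4345 c8580 c495 c7089 c2731 c4387 c968 c54 (k8 c1026 c7883 c2544 c775 c7395 c4464 c4290 c4403 (k8 c1037 c1029 c8781 c948 c2046 c2051 c4393 c4469 (k4 c4488 c7778 c4492 c4982 k0))))))) (by decide +kernel)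
def c8783 : PP 8 4 T 0x100000000000000000000000000000001000001000080000000020000020002002 := rS 0xa28819cfe5d07984c665649f56aa1861c1222747884be0a (k8 c759 c2538 c8774 c1306 c8775 c1036 c568 c4135 (k8 c4329 c7883 c1419 c2542 c2539 c2722 c503 c8690 (k4 c753 c8780 c8782 c4478 (k2 c4560 c4337 k0)))) (by decide +kernel)
def c8784 : PP 8 4 T 0x100000000000000100000000010000000050000055500000000000000000000000 := rS 0x14510 (k2 c4478 c4560 (k1 c4337 k0)) (by decide +kernel)
def c8785 : PP 8 4 T 0x801000000000000000005000010001054050004000000001500000000000025540000 := rS 0x3110c9b688bde0ab (k8 c4445 c4465 c4432 c4298 c764 c2109 c4553 c1635 k0) (by decide +kernel)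
def c8786 : PP 8 4 T 0x1400000000001901000000000000000000054010001015050004004000001500000020000024540840 := rS 0xbf5e9d882188cb0587164bad532ab (k8 c4445 c4443 c7883 c4793 c4492 c4958 c4420 c7972 (k4 c8785 c1873 c309 c1039 (k2 c1093 c4493 k0))) (by decide +kernel)
def c8787 : PP 8 4 T 0x100000000000000000000000000000000040001000080000000020000020002002 := rS 0x10f4b6732d474249adca23b721555a5314a5516138899912cd5c854ba0f0d984b2073da745a6332b24de092bc54fab55da0d023750a9d3ea5861c1222747884bf450b8c612053582952af55c490869 (k8 c2723 c8783 c5976 c4445 c4346 c4345 c759 c2540 (k8 c54 c4321 c7393 c2548 c4397 c2538 c8774 c1306 (k8 c8775 c1036 c568 c4135 c4385 c4384 c4330 c4329 (k8 c87 c3293 c2543 c4897 c7883 c1419 c4387 c92 (k8 c1057 c1290 c2542 c2539 c2722 c2920 c968 c704 (k8 c495 c1026 c503 c686 c8690 c753 c650 c1473 (k8 c1481 c684 c8784 c4334 c2544 c720 c2727 c775 (k8 c4712 c8622 c7395 c4464 c4403 c4405 c1037 c1029 (k4 c8786 c4393 c4425 c2128 (k2 c4430 c1636 (k1 c4485 k0))))))))))) (by decide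 +kernel)
def c8788 : PP 8 4 T 0x400000000001900000000000000000000054010015015542004004000001500000020000024140840 := rS 0xce512212eb5a2c242ea9 (k8 c4345 c2548 c4321 c4397 c7883 c4793 c8786 c2125 (k2 c685 c1523 k0)) (by decide +kernel)
def c8789 : PP 8 4 T 0x400000000004001100000000000000000045001501501554000020000001400000000000004540100 := rS 0x795f0617ad161d28a2e4 (k8 c4464 c4405 c4485 c4459 c4426 c8143 c2109 c2126 (k2 c1959 c1514 k0)) (by decide +kernel)
def c8790 : PP 8 4 T 0x400000000000900100000000000000000040010515011542004024000001400000020000024140940 := rS 0x17abf601d90c9b44a58e9175c2d62b090baa532515ba4c76e4 (k8 c4464 c4403 c1029 c1037 c4405 c4443 c4345 c2548 (k8 c4321 c4387 c7883 c8788 c4361 c1474 c6781 c2580 (k4 c932 c8789 c1693 c1692 (k2 c1093 c2021 (k1 c2126 k0))))) (by decide +kernel)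
def c8791 : PP 8 4 T 0x400000000000000100000000000000000040000000000002000025080080000000020000020140002 := rS 0x25d46b9672b126b71db919a532aa2e22b50d9640e7b4e8b412578aa3542a74fa96189113a3c425fa28c6120535829531234a545263 (k8 c2722 c8448 c762 c2723 c5976 c4345 c759 c2540 (k8 c54 c4321 c7393 c4397 c2538 c8774 c1306 c8775 (k8 c1036 c4135 c4385 c4384 c4330 c4329 c1385 c4387 (k8 c92 c1057 c2920 c968 c704 c495 c1026 c686 (k8 c7883 c4334 c720 c7395 c4712 c1482 c4464 c4403 (k8 c1037 c1029 c8790 c6601 c3502 c1523 c4793 c7468 k0)))))) (by decide +kernel)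
def c8792 : PP 8 4 T 0x1000000000000a01000000002000040000000000400000000080000000000044000005150004400000 := rS 0x1786098f12894d5eab (k8 c4445 c4346 c4290 c4405 c4498 c4474 c4465 c1992 (k1 c8698 k0)) (by decide +kernel)
def c8793 : PP 8 4 T 0x100000000000000000000000000000000000001000080000000020000020002002 := rS 0x3a8eca8e549a8e20971599d2a290a84e867e18c482e4b84d15089f53a8576c74093e188d8a894de833817cca6b59824d263168280e57698dd6a050d8cd1e9113884221f (k8 c56 c112 c8774 c8775 c1036 c1306 c950 c686 (k8 c54 c7883 c87 c4373 c92 c495 c759 c2920 (k8 c2722 c2723 c1057 c2642 c2540 c2539 c2538 c568 (k8 c2543 c1290 c1367 c4387 c1385 c4135 c3466 c3293 (k8 c3422 c4897 c4329 c4330 c4384 c8783 c4397 c4321 (k8 c1320 c2548 c5976 c7393 c8787 c4392 c2545 c8777 (k8 c8448 c762 c8791 c4191 c928 c6629 c6696 c1030 (k4 c8792 c4464 c1601 c1687 (k1 c7093 k0))))))))) (by decide +kernel)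
def c8794 : PP 8 4 T 0x200000000002000040000000000400400102080009000000040000004140004000010 := rS 0x892746217259ad7c7684d14be29 (k8 c4402 c1377 c4397 c4321 c1500 c1499 c562 c1320 (k4 c523 c7393 c1092 c5760 (k1 c8792 k0))) (by decide +kernel)
def c8795 : PP 8 4 T 0xa00000000002000004000140000500451500000000000000000000404140020000200 := rS 0x60b0c82435f115e23157aa53a994994556ad (k8 c4338 c4415 c4405 c3050 c3051 c4344 c4345 c4346 (k8 c4441 c4498 c1219 c2126 c6023 c3059 c1216 c6869 (k1 c6161 k0))) (by decide +kernel)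
def c8796 : PP 8 4 T 0x400000000002000000000140014501555500000081400100000001405000020000000 := rS 0x1e0c3609dc86c58c4208a29 (k8 c4402 c1219 c7780 c4488 c7718 c4567 c4438 c4450 (k2 c1087 c7662 (k1 c5577 k0))) (by decide +kernel)
def c8797 : PP 8 4 T 0x100002000000040100000000510000001010001555500500000001050000014000 := rS 0x66d155ca817a8d5b10 (k8 c4478 c4338 c4337 c4432 c8696 c7769 c4398 c1483 (k1 c5972 k0)) (by decide +kernel)
def c8798 : PP 8 4 T 0x400100000002000044100140000510515541014081051400040001401000020006002 := rS 0x8254935102e57bc50f0834a70d65d19844a651158152eab56c40c629 (k8 c4402 c754 c4478 c4338 c4415 c1084 c54 c4191 (k8 c4405 c4290 c112 c950 c753 c493 c8796 c825 (k8 c4479 c4440 c8797 c5815 c4469 c2120 c1992 c787 (k2 c8425 c509 k0)))) (by decide +kernel)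
def c8799 : PP 8 4 T 0x400100000000000040100000000516000041010001055408000000002000020014002 := rS 0x66d150e83544202ef03590c32778c97546ab8810532082287cd205 (k8 c54 c1879 c56 c296 c751 c3051 c1912 c4478 (k8 c4415 c4337 c753 c4368 c1092 c4654 c236 c4651 (k8 c4472 c1910 c7393 c8696 c4570 c4440 c4398 c1483 (k1 c8581 k0)))) (by decide +kernel)
def c8800 : PP 8 4 T 0x100000000000040000100000000001400080009041008000001000000020006002 := rS 0x32e96c26090d50c58c2fd3ad122904611345a154697880ac0a1b198443e9516a6cf6994993d76a153a7d4b0c7e974be8d649f686656794ca26314b9076081f9ca2eb8 (k8 c1459 c4361 c1460 c3082 c751 c3056 c4471 c4402 (k8 c754 c4405 c4290 c3498 c2438 c4392 c154 c155 (k8 c7472 c1377 c753 c4378 c4477 c4385 c4384 c4330 (k8 c4329 c3277 c3462 c3050 c3051 c3240 c2711 c2917 (k8 c2710 c56 c112 c950 c686 c54 c4191 c4478 (k8 c1084 c4337 c8794 c724 c8795 c8798 c1912 c296 (k8 c300 c8799 c5760 c4488 c7718 c2126 c4446 c4450 (k4 c2115 c4459 c2028 c7105 k0)))))))) (by decide +kernel)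
def c8801 : PP 8 4 T 0x400000000000000000008000010000180000000000000000000000000000000000000 := rS 0x1574b (k2 c4459 c1946 (k1 c4785 k0)) (by decide +kernel)
def c8802 : PP 8 4 T 0x10014000000000000000000081000000500051402000020000002 := rS 0x10935a1a32c0028fc8a1f (k8 c56 c296 c3082 c54 c2115 c4450 c1620 c4651 (k2 c4440 c7393 k0)) (by decide +kernel)
def c8803 : PP 8 4 T 0x40000080000000081000008500000402000020000402 := rS 0x9c0c1de324261b15a2ad3490626054da64103d (k8 c1615 c751 c3051 c2711 c54 c4441 c1912 c1879 (k8 c2046 c301 c1253 c8801 c8802 c4446 c1887 c236 (k2 c4488 c4654 k0))) (by decide +kernel)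
def c8804 : PP 8 4 T 0x400000000000000000000000000000000000000000000040000080001000020000002 := rS 0x2f4e1dc3e0b4d958b205 (k8 c54 c1026 c4476 c2711 c566 c56 c1887 c4567 (k2 c1952 c7942 k0)) (by decide +kernel)
def c8805 : PP 8 4 T 0x400000000000000040004020040500000001000481501500000040405400020014400 := rS 0x33588a868bc08a5328b907a3f8bb050f08 (k8 c4479 c4440 c1620 c4361 c3082 c1615 c4471 c4405 (k8 c4290 c1220 c4469 c4298 c8696 c7753 c1484 c1255 k0)) (by decide +kernel)
def c8806 : PP 8 4 T 0x400000000000000040000020000502000000000081081408040040000000020006402 := rS 0x106a9268b902850c9dcd2c38c9746611358c55e962894dc83d1fc5c7608 (k8 c751 c3056 c4361 c3082 c1615 c4471 c4290 c4405 (k8 c920 c2988 c8803 c493 c112 c950 c753 c4368 (k8 c3087 c2929 c1092 c4654 c5976 c1294 c8805 c1992 (k2 c787 c509 (k1 c2119 k0))))) (by decide +kernel)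
def c8807 : PP 8 4 T 0x400000000000000040000120000000001400000089081040000000000000020006002 := rS 0x30c5e7734aa10b085fa74863308a6d324f5da9d4b0c7e974be8d358c55e962894dc83d1fc5c76082b1640a0b (k8 c566 c54 c1026 c4476 c751 c3056 c4361 c3082 (k8 c1615 c4471 c4290 c4405 c920 c2988 c8803 c493 (k8 c7472 c1377 c753 c4378 c4477 c4385 c4330 c3277 (k8 c3462 c3051 c2711 c112 c950 c8804 c8806 c5760 (k8 c7780 c1499 c2126 c4437 c4438 c787 c1087 c8805 k0))))) (by decide +kernel)
def c8808 : PP 8 4 T 0x10000000000000000040014000001000000000000109501500500155400000000014000 := rS 0x7660211a2f053a9618fd (k8 c4378 c4477 c4385 c4330 c4472 c4298 c8696 c2115 (k2 c1500 c1893 k0)) (by decide +kernel)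
def c8809 : PP 8 4 T 0x100000000000040000100000000001400080019001040000000000000020006002 := rS 0x20d0a173b908d2ad66b0c82818cd157cc522aa53b12358c55e9633144a6e41dc5c7e3d679d57072a1844160701a6cf699042ed4ea5863f4ba5f46958b205 (k8 c54 c1026 c4476 c7472 c1377 c753 c4378 c4477 (k8 c4385 c4330 c3277 c751 c3051 c3240 c2711 c28 (k8 c1018 c566 c112 c4392 c1460 c1459 c594 c3498 (k8 c1615 c3082 c4361 c3056 c4471 c4290 c4405 c8800 (k8 c920 c2988 c8803 c493 c8807 c4344 c4345 c1219 (k8 c1252 c2126 c4399 c4369 c1364 c3059 c1216 c1486 (k8 c6601 c924 c8808 c1887 c1951 c1500 c4570 c2119 k0))))))) (by decide +kernel)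
def c8810 : PP 8 4 T 0x40000000001000000000100009501500000080000000000014440 := rS 0x41a142e7753a9618fd (k8 c4378 c4477 c4385 c4330 c1887 c1951 c1500 c4570 (k1 c2119 k0)) (by decide +kernel)
def c8811 : PP 8 4 T 0x10000000000000000040004000001001000000000109581508000155401100000014000 := rS 0x314a6294b444a2f0 (k8 c4472 c4435 c4334 c920 c2743 c4712 c1252 c8808 k0) (by decide +kernel)
def c8812 : PP 8 4 T 0x800100000000000000000000000000000000000081000000000000421000020002002 := rS 0x12ea333b0d92b91f8f4eab54a8b526b750a7cfe712290cd22f8c90502be5daf54ea5863f53a9947a6d227b549acbe8d370200e562c814060b2d9844e21089741ed3 (k8 c4373 c8690 c753 c112 c8774 c8775 c503 c8793 (k8 c566 c28 c54 c1026 c4476 c1018 c751 c1059 (k8 c7472 c1377 c493 c4345 c3240 c1036 c2711 c1306 (k8 c3051 c4344 c4378 c4477 c4385 c4330 c3054 c3277 (k8 c2126 c1364 c3059 c4369 c4826 c756 c8810 c1219 (k8 c1304 c8809 c4384 c4329 c3053 c3050 c2917 c2710 (k8 c7883 c96 c1615 c3082 c1086 c1730 c3088 c8811 (k2 c5380 c1084 (k1 c2125 k0)))))))))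 (by decide +kernel)
def c8813 : PP 8 4 T 0x800100000000000000004000000000040000000101000000000001421000020002002 := rS 0xadcaa2292e56a9516acd26b763a853e7f389458a733b211e043409ec0e0305914226b348be32415f2a576bd53a9618fd2fa75328f4da451a6113884ba0f699b810562d9640a3f (k8 c1179 c54 c1026 c8793 c4476 c751 c1059 c4373 (k8 c8690 c753 c8774 c8775 c503 c7472 c1036 c2711 (k8 c1306 c3051 c4344 c1377 c4378 c4477 c4385 c4330 (k8 c3054 c3277 c4345 c2126 c3059 c4369 c4826 c756 (k8 c493 c112 c1219 c566 c28 c1018 c3240 c1364 (k8 c8810 c4472 c8696 c1500 c8812 c1095 c4435 c1304 (k8 c8809 c4384 c4329 c3417 c3053 c3050 c3197 c2917 (k8 c2710 c7883 c5280 c8808 c2125 c4290 c292 c4241 k0)))))))) (by decide +kernel)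
def c8814 : PP 8 4 T 0x800100000000000000004000000000040000000001000000000001421000020002002 := rS 0x1107245ce83f4a8b526f0219a45e813d9ac0e0305845a71920af952bb5ea9d4b0c7e9741e5f372651e9b48a34c22710820ac5b2c8148a9d (k8 c4344 c1219 c54 c1026 c8793 c4476 c751 c8774 (k8 c8775 c503 c7472 c1036 c2711 c1306 c3051 c1059 (k8 c1377 c8690 c753 c4378 c4477 c4385 c4330 c3054 (k8 c3277 c4345 c2126 c3059 c4369 c4373 c112 c566 (k8 c28 c1018 c493 c3240 c1364 c4826 c756 c8810 (k8 c4472 c3050 c2917 c2710 c1179 c8813 c4417 c4471 (k2 c4487 c4498 k0))))))) (by decide +kernel)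
def c8815 : PP 8 4 T 0x800100000000000000004000000000000000000001000000000001421000020002002 := rS 0x2a1f191ca638bc452c1f59820ce732b16cb205 (k8 c54 c1026 c8793 c4476 c8812 c921 c751 c3197 (k8 c56 c8814 c4336 c4360 c817 c5056 c4478 c4471 (k2 c491 c288 k0))) (by decide +kernel)
def c8816 : PP 8 4 T 0x100000000000000000000400010010000040040041500000002000000000002042 := rS 0x324ca7d3184c8f17 (k8 c4416 c8078 c1679 c7153 c1291 c490 c506 c8784 k0) (by decide +kernel)
def c8817 : PP 8 4 T 0x101000000000000008800400000000002440000000000000000000000000000000 := rS 0x286c93eae19c87 (k4 c1907 c1216 c1215 c1502 (k2 c1793 c4394 (k1 c4483 k0))) (by decide +kernel)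
def c8818 : PP 8 4 T 0x800100000000000000000000000000000000000001000000000000421000020002002 := rS 0x671e1cd2aa161a0c2e847810d027b0380c8a11359a45f1920af952bb53a96185d2fa75329b469fd7a71059852227478841ed37e9b966082b16cb205 (k8 c54 c1026 c8793 c4476 c751 c3197 c1059 c4378 (k8 c4373 c8690 c8774 c1306 c8775 c1036 c503 c566 (k8 c1304 c3054 c8809 c7472 c2711 c3051 c4344 c1377 (k8 c753 c4477 c4385 c4330 c3277 c4345 c2126 c3059 (k8 c4369 c4826 c756 c493 c112 c1219 c28 c1018 (k8 c3240 c1364 c8810 c4472 c8696 c4431 c4570 c8817 (k4 c4329 c2710 c8812 c8815 (k2 c921 c8816 k0)))))))) (by decide +kernel)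
def c8819 : PP 8 4 T 0x40000000004004100000000000000000000820104100000200 := rS 0x510ad2eb972a3d22b7 (k8 c3053 c1036 c1306 c4403 c3056 c3055 c1640 c8004 (k1 c4241 k0)) (by decide +kernel)
def c8820 : PP 8 4 T 0x500000000000000000020000040000444000000000000000000000000000000000000 := rS 0x56271574b (k4 c4429 c1674 c7718 c4491 (k1 c946 k0)) (by decide +kernel)
def c8821 : PP 8 4 T 0x10000000000000000010015000000000000000000000000000402155400000000000000 := rS 0x51 (k2 c7104 c2115 k0) (by decide +kernel)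
def c8822 : PP 8 4 T 0x400000000000000000015000000002000000000101401008402045420000020082002 := rS 0x41aa68a4a5f111a28145a1432413b9a63233089ed4ea5863f4ba0f2fa34dc08 (k8 c751 c1059 c7472 c1377 c8690 c753 c4378 c4477 (k8 c4385 c4330 c3240 c112 c950 c4368 c825 c1092 (k8 c1052 c4654 c5976 c4632 c1294 c1758 c8821 c1221 (k4 c1222 c4399 c1322 c1855 (k1 c8517 k0))))) (by decide +kernel)
def c8823 : PP 8 4 T 0x100000000000000000010000000040000000001000000000000021000020002002 := rS 0x1dd1679844613ac543b04ea3d57a249012398a8a6c38b394c8c81498e22a233ad422954d9ed66995baed42a7529fd7a7105a451ed33590e263b4fc31fa5d0797d8e6e49a34c22d04158b20513884b63f (k8 c1181 c8793 c8774 c8775 c54 c1026 c4476 c751 (k8 c2917 c503 c7472 c3050 c1059 c3417 c1377 c8690 (k8 c753 c4378 c4477 c4384 c8819 c8818 c8804 c493 (k8 c4373 c1306 c1036 c566 c1304 c3054 c8809 c4385 (k8 c4330 c4329 c3277 c3053 c3051 c3197 c3240 c2711 (k8 c2710 c112 c7883 c920 c2125 c4337 c819 c779 (k8 c5380 c8633 c5056 c4487 c4958 c4712 c4468 c1730 (k8 c506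 c8024 c2459 c1777 c4416 c4417 c4420 c3577 (k8 c8820 c8822 c4488 c7780 c4447 c4322 c4438 c2123 k0))))))))) (by decide +kernel)
def c8824 : PP 8 4 T 0x400000000002000000004140000501505500000000000000040001005000000000000 := rS 0x5ef15431630bf (k4 c5760 c4488 c7718 c2126 (k2 c5577 c787 (k1 c4469 k0))) (by decide +kernel)
def c8825 : PP 8 4 T 0x14002000000000000001515000000000000040050000000000400055420000000010000 := rS 0x12c888268d28a2e4 (k8 c4471 c4405 c4494 c4426 c8585 c2115 c1855 c1222 k0) (by decide +kernel)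
def c8826 : PP 8 4 T 0x100000000000000004010000000000000000001000000000001021000020002002 := rS 0x4c17209e2a956311828740c210a19209dcd3194e32d9aa3a122ce4c9329f4cc1323b9066114da649ebb53a94febd3882d228f699ac87131da7e18fd2e83cbec73724d1a61138862e6359820a6291fc452c2d2b16cb205 (k8 c54 c1026 c8793 c4476 c2917 c8823 c4336 c1181 (k8 c777 c4712 c751 c3197 c817 c4360 c8774 c8775 (k8 c503 c7472 c3050 c1059 c3417 c1377 c8690 c753 (k8 c4378 c4477 c4384 c8819 c8818 c8804 c493 c4373 (k8 c1306 c1036 c566 c1304 c3054 c8809 c4385 c4330 (k8 c3277 c3462 c3051 c2711 c112 c950 c4471 c4404 (k8 c4401 c5056 c1291 c490 c506 c921 c720 c4483 (k8 c8633 c4395 c4425 c8824 c4368 c2929 c1092 c1052 (k8 c4654 c5976 c4479 c1294 c4440 c1620 c8825 c1253 (k4 c948 c8696 c2119 c4469 (k2 c509 c1992 k0))))))))))) (by decide +kernel)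
def c8827 : PP 8 4 T 0x100000000000000000000400010000000040000001508000002000000000002402 := rS 0x673981c0695 (k4 c2710 c28 c1018 c1615 (k2 c921 c8816 k0)) (by decide +kernel)
def c8828 : PP 8 4 T 0x101000000000000000020000000000000040000000000000001420000000002000 := rS 0xe51f8488ec83ed0e2e11 (k8 c112 c4361 c4394 c3279 c4483 c1583 c506 c1182 (k2 c4401 c4471 k0)) (by decide +kernel)
def c8829 : PP 8 4 T 0x100000000000000000000000000000000000001000000000000021000020002002 := rS 0xe47733421c89d8bc455ec24b44cd69b4caed4ea51fae47aa1598ed3f0c2e97d8e93468b4febd3882cc29113a3c420f69bf4dc082b16cb205 (k8 c54 c1026 c8793 c4476 c751 c1059 c4378 c4373 (k8 c8690 c8774 c1306 c8775 c1036 c503 c566 c1304 (k8 c3054 c8809 c2917 c7472 c3050 c3417 c1377 c753 (k8 c4477 c4384 c8819 c3197 c4329 c8827 c8828 c1181 (k8 c4385 c4330 c3277 c3051 c2711 c493 c8818 c8823 (k8 c8826 c4631 c4336 c4360 c1214 c4471 c7780 c5056 (k2 c4438 c921 (k1 c1087 k0)))))))) (by decide +kernel)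
def c8830 : PP 8 4 T 0x100000000000000008000000010100000040000001508000005402000000002002 := rS 0xcc9731b24ca7d568a4264729b922f13 (k8 c4441 c4362 c4471 c4290 c4404 c4401 c4402 c2046 (k4 c1291 c490 c506 c754 (k2 c8801 c8784 (k1 c920 k0)))) (by decide +kernel)
def c8831 : PP 8 4 T 0x101000002000000000015000000001400040001001508000000402000020002402 := rS 0xaf39258cca331b24ca7d14944264729a551a93042853f0c (k8 c4477 c4384 c4329 c751 c3050 c7472 c2710 c4290 (k8 c4404 c4401 c4405 c4402 c1291 c490 c506 c754 (k4 c8633 c8784 c2125 c921 (k2 c2988 c8803 k0)))) (by decide +kernel)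
def c8832 : PP 8 4 T 0x400000000000000000000000000000400000000000100008000080000000020000600 := rS 0x9c0c1de3299 (k4 c3051 c4446 c1887 c236 (k2 c4488 c4654 k0)) (by decide +kernel)
def c8833 : PP 8 4 T 0x100000000000000000000000000000000000001000000000000020000020002002 := rS 0xa9419ad58172910da2c567abd1212289205447640a68711513052f1633b9586814292cd24520c4c603f5c8f4767f52a7d4ea18631dfa5f5baf4dc934cacd1a9b16a5410712b02cb6590fb4d6a052e83d1e91089844e21 (k8 c8774 c8775 c503 c112 c1036 c1306 c8690 c753 (k8 c54 c7883 c4373 c56 c1026 c8793 c566 c4476 (k8 c1304 c751 c2710 c2917 c2711 c7472 c3197 c3051 (k8 c3050 c1059 c3054 c3053 c1377 c4378 c3417 c4477 (k8 c4329 c4330 c4384 c4385 c8809 c8819 c8827 c8828 (k8 c1181 c8829 c4441 c1912 c296 c1879 c1914 c5976 (k8 c1293 c8830 c8831 c7335 c4471 c4360 c4420 c2125 (k8 c4337 c4393 c779 c5380 c1314 c4241 c4473 c1917 (k8 c506 c2459 c3712 c3732 c8820 c301 c8832 c2115 (k4 c2030 c293 c492 c4570 (k2 c949 c2119 k0))))))))))) (by decide +kernel)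
def c8834 : PP 8 4 T 0x1000000000000000100000000000041140000002500000045410001511540800004000100011002002 := rS 0x624f99caaa355b940a152c0f4aea1 (k8 c7768 c750 c8472 c4476 c2630 c54 c4290 c1943 (k4 c8321 c252 c8324 c1510 (k2 c8581 c755 k0))) (by decide +kernel)
def c8835 : PP 8 4 T 0x100000001000000000000000000000000000001000000000000422000000002002 := rS 0x476228cfcc159b0c571633ad56e153a9cc7a4517b44a2533585de04166a1e10a84da968abe5d88a1a810c90e32713caf4ee7b4ea2d623942c4d4e69028b47e652c15c0c093796d188f059f506c97e17c4ac70f074c227109741ed3 (k8 c4373 c8690 c753 c8774 c8775 c503 c8833 c4466 (k8 c7786 c1370 c489 c8265 c4305 c4306 c4379 c567 (k8 c1306 c1099 c7929 c4378 c1059 c4462 c750 c4476 (k8 c8551 c8549 c392 c54 c1879 c2007 c4441 c5976 (k8 c116 c505 c8286 c3248 c4055 c3101 c3104 c2433 (k8 c1304 c6225 c8579 c4540 c4380 c4383 c1100 c3287 (k8 c6353 c4399 c1404 c1966 c4566 c7782 c4440 c3459 (k8 c1913 c5755 c4431 c492 c8834 c4435 c4298 c61 (k8 c5793 c8472 c3100 c2432 c2630 c3103 c7883 c8324 (k8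 c4471 c4191 c4362 c4358 c4420 c7787 c4241 c8362 (k2 c1312 c8556 k0))))))))))) (by decide +kernel)
def c8836 : PP 8 4 T 0x1000000000000000100000002000001100000000014000045410001551500000000000000000000002 := rS 0xab51c40c629 (k4 c4402 c754 c5056 c4337 (k2 c4415 c8581 k0)) (by decide +kernel)
def c8837 : PP 8 4 T 0x1000000000000000100000002000011100000010010000044414001411520000150002000900000002 := rS 0x31186b2491993e47429a40b13 (k8 c4441 c54 c1879 c5976 c4404 c1299 c8836 c657 (k4 c656 c1128 c5995 c1250 k0)) (by decide +kernel)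
def c8838 : PP 8 4 T 0x100000000000000140005100000000000010154000000000000800000080100000 := rS 0x3f04966b9 (k4 c3106 c1042 c4158 c2121 (k1 c515 k0)) (by decide +kernel)
def c8839 : PP 8 4 T 0x100000000000000000000000000000000000001000000000000022000000002002 := rS 0x6b6885d9a87782855aa88451537191494d7c4345a14f6e4539a48a41898bc0a9d5e97c4a8141c3576223c994ee3b3981812750a960b68c4795cfa6f64bf0ba0f3089d6ec73882c3c1d10ac472b5 (k8 c7883 c116 c505 c8774 c8833 c4466 c567 c1304 (k8 c7786 c3103 c8775 c503 c8690 c753 c8265 c4305 (k8 c4378 c4379 c750 c1306 c1099 c7929 c4476 c2630 (k8 c2432 c1059 c4462 c3100 c8838 c3101 c8551 c2433 (k8 c1100 c3287 c4383 c4306 c4380 c1370 c489 c3104 (k8 c3248 c54 c61 c4441 c1913 c5793 c1879 c2007 (k8 c8835 c4055 c5976 c8286 c8579 c6353 c4290 c4402 (k8 c6225 c1966 c4399 c7782 c4566 c2046 c770 c5755 (k4 c4440 c3459 c4431 c4298 (k2 c492 c8837 k0)))))))))) (by decide +kernel)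
def c8840 : PP 8 4 T 0x102000002000040000140100114000205004011500140000040400005090002082 := rS 0x62b0d82b249254cccd4c2a1a2a7780bc83455f4648a612fb250283379f4f23f3b8f4ca582b94ca28b (k8 c8286 c4405 c4290 c750 c4476 c8551 c8472 c3101 (k8 c8549 c2433 c4379 c4378 c4306 c4380 c4305 c489 (k8 c503 c1217 c6225 c2122 c4399 c3109 c6988 c4472 (k8 c4558 c4298 c8375 c1508 c3459 c8836 c856 c657 (k4 c656 c1933 c3139 c1250 (k1 c2115 k0)))))) (by decide +kernel)
def c8841 : PP 8 4 T 0x2000000000000000000000101000001008001500500000000020004014000000 := rS 0x8a2e25a9a24418cb4c4a81 (k8 c4380 c1370 c4373 c4366 c1050 c4055 c4130 c1857 (k2 c4558 c1222 (k1 c6988 k0))) (by decide +kernel)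
def c8842 : PP 8 4 T 0x100000002000000000000000000000001000001100000000000020000000002002 := rS 0x8421a327b6986d3abd2f89506bb3c9dc767303024ea152c16d188f2b9f4dec97e1741e6113add8e7105ac472b535a9486314f91d4229110783a21 (k8 c8774 c8833 c4466 c1100 c4402 c770 c4404 c1299 (k8 c8839 c276 c1302 c493 c7883 c116 c505 c567 (k8 c1304 c7786 c3103 c8775 c503 c8690 c753 c8265 (k8 c4305 c4378 c4379 c750 c1306 c1099 c7929 c4476 (k8 c2630 c2432 c1059 c4462 c3100 c8838 c3101 c2433 (k8 c3287 c4306 c1370 c489 c3104 c3248 c686 c4373 (k4 c8841 c6225 c8840 c4482 (k1 c4440 k0)))))))) (by decide +kernel)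
def c8843 : PP 8 4 T 0x1000000002000000000000000000000008001400500000000155400000004000082 := rS 0x604618ac33db44a651 (k8 c4405 c4290 c1631 c8450 c1906 c1635 c4482 c2115 (k1 c4450 k0)) (by decide +kernel)
def c8844 : PP 8 4 T 0x801100000002000000008000000000100044000000000020000000000100004400002 := rS 0x7844032674424e9653 (k8 c4290 c4459 c1127 c4485 c657 c2038 c5056 c4465 (k1 c4498 k0)) (by decide +kernel)
def c8845 : PP 8 4 T 0x1000000002000000004000000000000044005540000000000145000000004500000 := rS 0x18683c582c58c14ca241 (k8 c8238 c4405 c4290 c4482 c4370 c4450 c5577 c8362 (k2 c4465 c261 k0)) (by decide +kernel)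
def c8846 : PP 8 4 T 0x100000002000000000000000000000000000001100000000000020000000002002 := rS 0x1f946885cb1182b24919a22d178464f4c343aac82454cc499a1725c25088b0d97c4b0d279e4ee3d328b47e3b3981812750a960b68c4795cfa6f64bf0ba0f3089d6ec73882d62395a9ac8631299454229110783a21 (k8 c8774 c8833 c4466 c1100 c4402 c770 c4405 c4290 (k8 c8839 c276 c493 c7883 c116 c505 c567 c1304 (k8 c7786 c3103 c8775 c503 c8690 c753 c8265 c4305 (k8 c4378 c4379 c750 c1306 c1099 c7929 c4476 c2630 (k8 c2432 c1059 c4462 c3100 c8838 c8549 c392 c8551 (k8 c8472 c3101 c2433 c3465 c4383 c1370 c489 c686 (k8 c8286 c8842 c4321 c1320 c523 c1482 c5976 c8246 (k8 c1222 c8238 c4445 c8843 c8844 c8845 c4366 c4472 (k8 c4298 c4498 c5056 c657 c656 c1660 c2115 c1255 (k4 c1251 c1467 c684 c5121 k0)))))))))) (by decide +kernel)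
def c8847 : PP 8 4 T 0x100000002000000100000000011540004014140211500000155400000000000002 := rS 0x14a612c9267e56c40ce5384abc30ab4498c52c128b15e22e (k8 c756 c4432 c4530 c4405 c6869 c4402 c754 c2041 (k8 c1885 c757 c2720 c4437 c4290 c925 c5056 c4903 (k4 c8784 c4413 c8255 c4511 (k2 c7658 c4459 k0)))) (by decide +kernel)
def c8848 : PP 8 4 T 0x100000002000000000000000000000000000001000000000000020000000002002 := rS 0xc368a19367b60c61e241228b93217849a142292894c36224ea5cbe253c8fcee3d328ece606049d42a582da311e573e9bd92fc2e83cc2275bb1ce20b588e56a43188783a21 (k8 c8774 c8833 c4466 c8839 c276 c7883 c116 c505 (k8 c567 c1304 c7786 c3103 c8775 c503 c8690 c753 (k8 c8265 c4305 c4378 c4379 c750 c1306 c1099 c7929 (k8 c4476 c2630 c2432 c1059 c4462 c3100 c8838 c8551 (k8 c8472 c3101 c8549 c2433 c1370 c489 c3205 c3248 (k8 c1100 c686 c4290 c4405 c4402 c770 c8846 c4437 (k8 c7300 c1880 c756 c7132 c8238 c4432 c6988 c6869 (k4 c4366 c4448 c8847 c1631 (k2 c1906 c6159 k0))))))))) (by decide +kernel)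
def c8849 : PP 8 4 T 0x100000000000000005000000001054000001400250000000040400000004000102 := rS 0x56225e24122aac30af172642f09 (k8 c4437 c7300 c1880 c756 c2720 c757 c1885 c7132 (k4 c8238 c4432 c3945 c6161 (k1 c4903 k0))) (by decide +kernel)
def c8850 : PP 8 4 T 0x1100000000000000000000000000000000000001000000000000020000000002002 := rS 0x1a287781448a4b44a10f51920aad5e998900cd6a5111208ed345ab4d293a19f9669f2f8961aa315815829561c5886311d9ccea7d64add8e71588e56a773ca5d3a1b33b942a3d32960ae2d1f818126f7e1741e611396d181e47884161d (k8 c8833 c567 c8774 c1306 c4466 c1099 c7929 c8775 (k8 c503 c8690 c753 c8265 c4378 c1059 c4462 c8549 (k8 c392 c750 c4476 c8551 c8472 c2630 c8848 c8324 (k8 c686 c3248 c3205 c2433 c3101 c7883 c116 c505 (k8 c1304 c7786 c3103 c4305 c4379 c2432 c3100 c8838 (k8 c8839 c276 c4471 c4362 c4418 c4420 c54 c4191 (k8 c4241 c4383 c1370 c489 c6233 c4358 c7787 c4392 (k8 c7994 c8849 c6230 c8286 c4373 c1312 c4473 c1100 (k8 c1302 c493 c28 c4479 c8246 c4346 c4445 c1103 (k8 c7972 c4482 c8841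 c682 c1320 c1222 c1725 c6161 (k2 c8450 c4298 (k1 c8484 k0)))))))))))) (by decide +kernel)
def c8851 : PP 8 4 T 0x100000000000000000000000000000000000001000000000000020000000002002 := rS 0x68b2e96f0622259a41a2b3e32be22a1d0a7b841208f433f30566b98b39486311d8f4e6771f994ea790a818b0092daecfa6f41a0592b75eb1c448c7e1c43c0b2b874c2b1698e56a5d07a3c4e21 (k8 c8774 c8775 c1306 c8690 c753 c7883 c116 c4373 (k8 c505 c503 c8833 c750 c567 c4466 c1304 c8265 (k8 c1099 c1100 c7786 c3104 c3103 c4305 c4380 c4306 (k8 c4378 c4379 c3287 c7929 c1059 c4476 c4462 c2630 (k8 c2433 c2432 c8551 c8549 c3101 c3100 c8472 c8838 (k8 c8839 c276 c8848 c4471 c4361 c4358 c4420 c7787 (k8 c4392 c1312 c4473 c8850 c4320 c4321 c4440 c1217 (k8 c2122 c6225 c1521 c4399 c3109 c1485 c6175 c8131 (k4 c4472 c4429 c1756 c4298 (k1 c4573 k0)))))))))) (by decide +kernel)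
def c8852 : PP 8 4 T 0x2100000000000000100804500000200210011554010420000000000000000000000 := rS 0x24d8895a1b0d469f8b1f972673da2d0f0d (k8 c4383 c4440 c4322 c4320 c656 c4548 c5124 c4481 (k8 c6233 c1467 c1215 c4392 c4418 c6803 c7994 c1135 k0)) (by decide +kernel)
def c8853 : PP 8 4 T 0x1000000000000002100002000000001101800800010000000410001011520000155400000800000002 := rS 0xcc934fb088e53723162e7b42a2cd28768944d617 (k8 c4431 c492 c4435 c4298 c4440 c4437 c4322 c4321 (k8 c4320 c4358 c1250 c4471 c4290 c4404 c2115 c1299 (k2 c3139 c8836 (k1 c657 k0)))) (by decide +kernel)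
def c8854 : PP 8 4 T 0x2100002000000000001000000000000000001441000000000155420000010000002 := rS 0x33e86883f2ccfacd4c2f943456499506fc54294c30d3a960226f53ac4448c030943c0b699741e271097ce20906add0a69258bcd617 (k8 c4431 c492 c4432 c4434 c4437 c4321 c1037 c8851 (k8 c1060 c1303 c488 c8774 c8775 c8690 c753 c4373 (k8 c567 c4466 c1370 c4462 c1099 c1100 c3102 c4558 (k8 c1020 c608 c1097 c499 c4383 c767 c1301 c8696 (k8 c8124 c4570 c8551 c7308 c4398 c7768 c1507 c1508 (k8 c3459 c4379 c8853 c5124 c8852 c4392 c1521 c6175 k0)))))) (by decide +kernel)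
def c8855 : PP 8 4 T 0x2002000000000000000145500000000020001450000000000000000000000000000 := rS 0x3368acfa1b2d7c7e37a0cf68142d2d7316 (k8 c7172 c4361 c4457 c4321 c4439 c4320 c4306 c4378 (k8 c7787 c2122 c2024 c4392 c1521 c4399 c1485 c4495 k0)) (by decide +kernel)
def c8856 : PP 8 4 T 0x2100000000000000000140000000510020001441000000004000420400020000002 := rS 0x72118cc2a4f28d42c966af94aa746aa61a2212980fe107eae52f163ab4c72375a83d22272f9c58eb70f99526b3318293ab12d1640a57048351e21 (k8 c8774 c1306 c8851 c1060 c751 c54 c1026 c4476 (k8 c625 c968 c759 c842 c665 c1029 c579 c56 (k8 c1037 c1452 c1303 c488 c8775 c1036 c8690 c7883 (k8 c87 c116 c4373 c596 c7172 c929 c4361 c8855 (k8 c4463 c7414 c606 c278 c607 c4326 c976 c1028 (k8 c4558 c1301 c2126 c1485 c637 c5930 c937 c5931 (k4 c7454 c6233 c1299 c7419 (k1 c4404 k0)))))))) (by decide +kernel)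
def c8857 : PP 8 4 T 0x101000000000040140014000040055400000000004000000000000020020005002 := rS 0x9f46c354225301fc2005 (k8 c54 c4463 c7414 c606 c278 c5930 c4326 c1028 (k2 c1571 c5931 k0)) (by decide +kernel)
def c8858 : PP 8 4 T 0x2100002000000000001000000000000000001441000000000155420000000000002 := rS 0x484c5320c22fc18c494aad51b10502b64a5ceac35c8522ce544954269d0518d665a4aa65362d49964386b0b8bc96d3029741e1b47a444e212f95c120d63add767b40a15161934a1c9ebd (k8 c1039 c1492 c4440 c4437 c4436 c4322 c4321 c4439 (k8 c4320 c1310 c1037 c1452 c8851 c1060 c751 c488 (k8 c8774 c8775 c1036 c1306 c686 c8690 c753 c54 (k8 c4373 c4434 c4432 c4431 c492 c8854 c1026 c1029 (k8 c913 c765 c1031 c763 c4476 c665 c842 c759 (k8 c968 c571 c306 c8856 c5422 c4471 c4464 c4361 (k8 c4362 c4417 c4360 c2609 c286 c647 c2123 c4241 (k8 c4554 c7934 c7718 c4441 c8857 c4300 c4306 c4130 (k2 c2108 c4558 (k1 c284 k0)))))))))) (by decide +kernel)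
def c8859 : PP 8 4 T 0x8002002000000000000000145000000000000001450000000000000000000000000000 := rS 0x32e96c467d0d12cd3f304eab361ae51687a2af9066f58a14f681 (k8 c4439 c4320 c4321 c4304 c4378 c4306 c2122 c4399 (k8 c4440 c4322 c4361 c4362 c4358 c4417 c4420 c7787 (k8 c1485 c8855 c4392 c1521 c2123 c4429 c1756 c4495 k0))) (by decide +kernel)
def c8860 : PP 8 4 T 0x4000002000000000000000015400000000000000150000000000000000000000000000 := rS 0xfd0458b24de7d (k4 c4379 c4378 c4305 c4304 (k2 c4481 c2121 (k1 c4313 k0))) (by decide +kernel)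
def c8861 : PP 8 4 T 0x4000000000000000000000000800000000000000040000022000000000000020000081 := rS 0x220971519d2a62024145257 (k8 c63 c1599 c4312 c1026 c5134 c762 c2635 c266 (k2 c816 c7239 (k1 c4411 k0))) (by decide +kernel)
def c8862 : PP 8 4 T 0x20002002000000000000000100000000000000001410000000000000000000000000000 := rS 0x20cf685 (k4 c4321 c4320 c4306 c6225 k0) (by decide +kernel)
def c8863 : PP 8 4 T 0x101000000000000900000000000000004040000000000000000000000000000000 := rS 0xfb43 (k2 c4425 c1628 (k1 c4483 k0)) (by decide +kernel)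
def c8864 : PP 8 4 T 0x80000000000020000000000000000000410115000000000000000000000000000000000000000000000 := rS 0xcd (k2 c4460 c8167 k0) (by decide +kernel)
def c8865 : PP 8 4 T 0x40000000050000000000000000002021408000104000008001 := rS 0x9e880945623010a5ca05 (k8 c2193 c4288 c1599 c4461 c1328 c2136 c2135 c4468 (k2 c2110 c4414 k0)) (by decide +kernel)
def c8866 : PP 8 4 T 0x800000000000000000000004000000000100000000242 := rS 0x159992e5a2c9d5ca3e (k8 c1185 c4288 c153 c486 c4476 c929 c664 c289 (k1 c7431 k0)) (by decide +kernel)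
def c8867 : PP 8 4 T 0x200000000000000000000000000010000000800000000902010000000054000000008 := rS 0xf028abc5e3129a1d4c690cab4fa9f (k8 c4414 c1379 c4338 c1998 c2001 c549 c2005 c252 (k4 c228 c796 c908 c1604 (k2 c6467 c7769 k0))) (by decide +kernel)
def c8868 : PP 8 4 T 0x6000000002000000001450010000000000000400004000002015050150000000008000 := rS 0x29b3c32c38cc217c51689149e4709aed7ab5 (k8 c4389 c4354 c4390 c34 c1332 c4297 c4296 c4298 (k8 c4435 c2114 c8476 c4369 c1215 c4436 c4541 c252 (k1 c2116 k0))) (by decide +kernel)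
def c8869 : PP 8 4 T 0x1001001000001500810000000000041550000000000500008000000000000000 := rS 0x14b68c218745 (k4 c4399 c1215 c4484 c459 (k2 c8585 c4475 k0)) (by decide +kernel)
def c8870 : PP 8 4 T 0x80000000000000000000000000000001510115800000000040454000000000000000000000000000000 := rS 0xf27784c6512c3 (k4 c4459 c4457 c8167 c8585 (k2 c1191 c668 (k1 c4482 k0))) (by decide +kernel)
def c8871 : PP 8 4 T 0x1000000000000000100000000000450004000002504008000000001008000 := rS 0x7943b09a14b5fa0516853d84dca1b3a8f56ec5042c97abb5ac50e23766ae5974282b2492fd (k8 c4376 c2160 c1726 c4406 c4483 c4425 c4394 c4395 (k8 c2168 c1415 c4480 c4389 c4390 c6133 c249 c248 (k8 c3266 c3173 c145 c1686 c2401 c4288 c34 c1225 (k8 c1496 c5853 c6395 c8869 c8870 c4475 c459 c1631 (k2 c2057 c7834 k0))))) (by decide +kernel)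
def c8872 : PP 8 4 T 0x40000000010000000000000000002500008000000000008000 := rS 0x181395ecfa5344662f0c2ad5af165a0d72cda11f60a7f64c51629138bf4965e37974b0391208d3e4d51c405602728a402570281c8e13138783a2d10a4c7649629046a08590dc8717 (k8 c4356 c2169 c2168 c249 c248 c3198 c3199 c3266 (k8 c2160 c144 c3133 c2167 c7177 c3197 c4466 c2154 (k8 c34 c1332 c1178 c2193 c1066 c8866 c1599 c4288 (k8 c4461 c2136 c4468 c4337 c8865 c4414 c1328 c2110 (k8 c2133 c223 c1336 c1108 c225 c3358 c4376 c1415 (k8 c3167 c545 c4480 c1726 c1455 c4406 c1379 c4483 (k8 c4395 c4394 c8867 c4425 c8868 c4338 c4415 c8871 (k8 c1871 c2175 c2185 c4475 c4430 c4428 c2116 c2112 (k1 c2140 k0))))))))) (by decide +kernel)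
def c8873 : PP 8 4 T 0x2000000001000000000000100000000000000400004000002804008100000000008000 := rS 0xbf27914863520b1410b2 (k8 c249 c248 c3266 c3199 c3198 c2169 c419 c2174 (k2 c6330 c8260 k0)) (by decide +kernel)
def c8874 : PP 8 4 T 0x40000000010000000000000000002000008000000000008000 := rS 0x17c81429ee12793b8590c8961940a6f165ae59abb5ed0a2883259f5626f1c978ba24268560b17218d482c548961469f880ac04e514835fa711b9fc8e230095c0a2d498ec0e1313878421d042c99249 (k8 c2160 c1726 c249 c248 c3197 c2167 c4466 c2154 (k8 c34 c1178 c144 c3133 c7177 c2193 c1066 c8866 (k8 c1328 c1332 c1455 c2168 c1415 c4376 c32 c1599 (k8 c4288 c4461 c2136 c4468 c4414 c4337 c223 c3167 (k8 c3266 c3199 c3198 c2169 c4356 c4406 c141 c8865 (k8 c2110 c1336 c225 c2133 c1108 c545 c1379 c3358 (k8 c8867 c4480 c4483 c6133 c4390 c4395 c4394 c4425 (k8 c8868 c8873 c8872 c1866 c1863 c1604 c1605 c1191 (k4 c668 c4440 c520 c522 (k2 c1834 c2122 (k1 c7782 k0))))))))))) (by decide +kernel)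
def c8875 : PP 8 4 T 0x40000000000000000000000000002000008000000000008000 := rS 0x3ed0d40616489c927f7ec1404012b8783a2d10a4c76080384d6405 (k8 c2193 c249 c34 c1178 c248 c144 c3133 c2167 (k8 c7177 c3197 c4466 c1066 c8866 c4461 c4406 c4376 (k8 c1455 c2160 c2154 c1726 c878 c8874 c4423 c1625 (k1 c4483 k0)))) (by decide +kernel)
def c8876 : PP 8 4 T 0x40140000000000000480014000002200008000000000001000 := rS 0x5f214f709409e4ee164333512c30a81c2641592c41e08 (k8 c248 c8875 c1146 c249 c3199 c34 c1178 c141 (k8 c1866 c1863 c1869 c1604 c1605 c1191 c668 c1461 (k4 c4440 c520 c522 c2122 (k1 c7782 k0)))) (by decide +kernel)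
def c8877 : PP 8 4 T 0x800000000008 := rS 0x2c68 (k2 c796 c797 (k1 c7300 k0)) (by decide +kernel)
def c8878 : PP 8 4 T 0x1000000005000800014020000000000000000000501000001550080000000 := rS 0x2b866d14cd1686a9 (k8 c7768 c4423 c4399 c1134 c5846 c433 c2112 c5815 k0) (by decide +kernel)
def c8879 : PP 8 4 T 0x1000000001000140114020000000480014000040101010000150080841449 := rS 0x2246a4d1e17ecf189dca6853d9605e81 (k8 c1461 c8877 c223 c520 c522 c2031 c1832 c1911 (k4 c1521 c8878 c2122 c541 (k2 c540 c4728 (k1 c4442 k0)))) (by decide +kernel)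
def c8880 : PP 8 4 T 0x1000000000000000000000000000006000000060000000000000000000408 := rS 0x891a9342f (k4 c8877 c541 c540 c4728 (k1 c4442 k0)) (by decide +kernel)
def c8881 : PP 8 4 T 0x1000000080000100000000000000000800000000000040000000004404200 := rS 0x8b09 (k2 c4438 c1090 (k1 c7574 k0)) (by decide +kernel)
def c8882 : PP 8 4 T 0x2000000001000000000000400100000000001504414000060000000000000000000408 := rS 0x1e576bd (k4 c4354 c4390 c8880 c2122 k0) (by decide +kernel)
def c8883 : PP 8 4 T 0x1001000000001050400000000000001480414000060115408000000004404608 := rS 0x5365b46884f22062127a67c516281 (k8 c1461 c1146 c4480 c1521 c8882 c4320 c1225 c1224 (k4 c4501 c4484 c2185 c4455 (k2 c419 c2116 k0))) (by decide +kernel)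
def c8884 : PP 8 4 T 0x1000000080010100001000000002000000000000100048000110084404208 := rS 0x5714c62d119910d61884aad5b1015b945e0d (k8 c4371 c8877 c4288 c2136 c4468 c4338 c4415 c4321 (k8 c6224 c563 c7574 c2175 c2185 c229 c419 c2112 (k1 c5815 k0))) (by decide +kernel)
def c8885 : PP 8 4 T 0x1001000000001050000000020000000480014000040101058010110084044609 := rS 0x1894c88be67a14ee1703a74b0ab56c40562f5492c9a0d6950c8ee55daf628b1 (k8 c1146 c4480 c4354 c4390 c4288 c1584 c4423 c4473 (k8 c4371 c4282 c4375 c7768 c8877 c2136 c4468 c4338 (k8 c4415 c223 c3249 c1178 c8879 c8881 c8884 c1521 (k4 c8883 c6330 c419 c297 (k1 c8878 k0))))) (by decide +kernel)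
def c8886 : PP 8 4 T 0x1001000000000040000800020000000480004000040101048040110084044609 := rS 0x42a04327b68308ee538c9109ec1a5b3d99171a9058a0d6950c8ee55daf628715aa44b0b1 (k8 c1146 c223 c3167 c1707 c667 c4480 c4354 c4390 (k8 c4288 c1584 c4423 c4473 c4371 c3266 c3199 c3198 (k8 c4356 c8885 c197 c4460 c1988 c1479 c6022 c4364 (k8 c419 c1090 c4494 c4475 c3222 c2185 c7000 c6224 (k1 c5956 k0))))) (by decide +kernel)
def c8887 : PP 8 4 T 0x1000000000000040000000020000000400000000002001008000000000000000 := rS 0xce532b862530ca94eebe3dc648a3327bc0a20b0a90c6e1b1a904b66d4eab6202b1789552232589c724d06b488e29729fa0b433e98576bd8a1bcbac938ad5225801004ae2d498ec0e1302878421d592c41e08 (k8 c248 c8875 c1146 c249 c3197 c2167 c4466 c2193 (k8 c34 c1178 c144 c3133 c7177 c1066 c8866 c4461 (k8 c223 c3167 c1707 c667 c1727 c811 c1108 c4480 (k8 c4354 c4390 c879 c1625 c4423 c4406 c4483 c4288 (k8 c1599 c1584 c4473 c4371 c4282 c4280 c4278 c4375 (k8 c2767 c7768 c224 c8877 c2136 c4468 c4338 c3249 (k8 c4993 c838 c3199 c3198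 c2401 c2168 c2169 c141 (k8 c398 c8876 c8886 c4297 c4294 c4296 c5037 c1224 (k8 c2114 c3121 c1404 c4540 c252 c228 c7769 c2111 (k2 c909 c4098 k0)))))))))) (by decide +kernel)
def c8888 : PP 8 4 T 0x1000000000000040000000020000000000000000002001008000000000000000 := rS 0x3c15e511894d94870ca08fc5e82ab6202b17c34bac93e9841e0213935a543238a402570f0740a2d10a4c76080384d64e5 (k8 c4288 c249 c34 c1178 c248 c144 c3133 c2167 (k8 c7177 c2193 c3197 c4466 c1066 c8866 c1599 c1584 (k8 c4423 c4473 c4282 c4278 c4461 c8875 c879 c1625 (k8 c1727 c811 c4329 c8877 c2136 c4468 c4338 c4406 (k8 c4477 c4483 c8887 c1998 c2005 c677 c252 c228 (k4 c1604 c8140 c6467 c7769 k0)))))) (by decide +kernel)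
def c8889 : PP 8 4 T 0x200002002000000080000000001000000040000001000000400000000050005014008 := rS 0x69899ad5c8418ab45e4b2683502830b93c6651 (k8 c4435 c4294 c4297 c4431 c4306 c4380 c4371 c4282 (k8 c4375 c8877 c4338 c228 c2108 c7769 c563 c4346 (k2 c829 c8051 k0))) (by decide +kernel)
def c8890 : PP 8 4 T 0x200002002000000080000000000000000040000001000000400000001450002000000 := rS 0x1a6266b572b46651 (k8 c4435 c4294 c4338 c7769 c1918 c4346 c829 c8051 k0) (by decide +kernel)
def c8891 : PP 8 4 T 0x210002002000000080000000001001001440004005000000400040040050004014008 := rS 0x2f536a7898c17e790c0bc4b09 (k8 c5101 c224 c8877 c8889 c1958 c7782 c8890 c4441 (k4 c2007 c1966 c6223 c5504 k0)) (by decide +kernel)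
def c8892 : PP 8 4 T 0x400000000000010002002000000080040001001000000400000004000002000008000000000000000 := rS 0x2e62abc8c1dc30cb43949167b689142b17218dc221b5b9b5229d2c4405602728a402570f0740a07098b44293042c8760f (k8 c8875 c144 c249 c248 c3133 c2167 c7177 c34 (k8 c1178 c2193 c3197 c4466 c1066 c8866 c1599 c4288 (k8 c4461 c2136 c4468 c223 c3249 c3167 c4993 c3173 (k8 c2401 c2306 c2168 c2169 c4356 c141 c4296 c4298 (k8 c1224 c1766 c8891 c1903 c2023 c252 c1192 c4540 (k4 c5090 c5037 c1208 c4492 k0)))))) (by decide +kernel)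
def c8893 : PP 8 4 T 0x400000000000000000001000000080040001000000000000000000000002800008000000000000000 := rS 0x8aae578bf6593c8b17218dd6e3520b1410b2 (k8 c249 c248 c3266 c3199 c3198 c3173 c2168 c2169 (k8 c4356 c419 c2174 c2023 c6330 c6022 c8183 c4354 (k1 c4492 k0))) (by decide +kernel)
def c8894 : PP 8 4 T 0x400000000000010000001000000000000205000000001400000000000000400018100551080000000 := rS 0xae288c466d1612988b1755ab620e5 (k8 c4288 c4468 c4338 c4415 c4356 c1169 c6223 c8143 (k4 c458 c432 c2007 c1866 (k2 c2112 c5815 k0))) (by decide +kernel)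
def c8895 : PP 8 4 T 0x1000000080000100000000000000500014000040000150010000084004608 := rS 0x993b4490a310c9e49cbb5f8ccf65817ac4960d (k8 c4371 c4375 c1146 c8877 c223 c1224 c432 c6330 (k8 c6870 c6426 c8880 c258 c2140 c6224 c4469 c2122 (k2 c4443 c1111 k0))) (by decide +kernel)
def c8896 : PP 8 4 T 0x10000000001000000000000500000000000000501414000000080000040000004005200 := rS 0x10a7b8a0657745 (k4 c4396 c1439 c258 c4493 (k2 c1225 c6224 (k1 c7040 k0))) (by decide +kernel)
def c8897 : PP 8 4 T 0x400000000000000000001000000004000000000800100000500400001002401008005000000001000 := rS 0x136853dc242c86283459b4521a4556ad880adcaaf149e4d7121796004012b8b5263b0384c0a1e1087410b2 (k8 c249 c248 c3197 c2167 c4466 c2193 c34 c1178 (k8 c144 c3133 c7177 c1066 c8866 c4461 c223 c8877 (k8 c4469 c4442 c540 c1599 c5815 c4288 c2136 c4468 (k8 c4338 c4415 c3167 c2169 c4453 c2066 c5846 c2112 (k4 c1604 c1605 c4440 c520 (k2 c522 c7150 (k1 c7198 k0))))))) (by decide +kernel)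
def c8898 : PP 8 4 T 0x40000000020000000000000000002001008004000000000000 := rS 0x43942107b5f0659a4e539e4d6cf892bd4a991baad5b103092c1b1918a74ee445e94c7225178ade28f5baa61a8340bf0de5d649c56a912c34a864714b941e5b01004ae2d498ec0e1302878421d208d5644305854101b (k8 c2401 c248 c141 c398 c2169 c249 c3198 c3199 (k8 c3197 c2167 c4466 c2193 c34 c1178 c144 c3133 (k8 c7177 c1066 c8866 c4461 c838 c8875 c4288 c1599 (k8 c1584 c4423 c4473 c223 c3167 c1707 c667 c1727 (k8 c811 c1108 c8888 c4380 c4306 c4329 c7768 c3173 (k8 c851 c8892 c2136 c8877 c224 c4280 c8893 c8894 (k8 c8895 c1090 c3249 c297 c4364 c4371 c4375 c879 (k8 c4468 c4338 c4415 c2168 c1130 c5936 c5815 c4469 (k8 c1794 c4442 c540 c8897 c6996 c1479 c258 c8896 (k4 c1225 c7782 c8878 c4440 (k1 c1604 k0))))))))))) (by decide +kernel)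
def c8899 : PP 8 4 T 0x40000000020000000000000000002001008000000000000000 := rS 0x17e79429ed4e984d864d313191dc88bd29bc506817e0347227379c5a447479756aa9a1c35ca0b0a90c36b71a904525b159b5229d2c0bd922501004ae1e0e8b442931d81c26b202ac41e08 (k8 c248 c8875 c1146 c2193 c249 c34 c1178 c144 (k8 c3133 c2167 c7177 c3197 c4466 c1066 c8866 c4461 (k8 c224 c1727 c8877 c223 c3249 c3167 c4993 c2136 (k8 c838 c1599 c3199 c3198 c3173 c2401 c2169 c141 (k8 c398 c4288 c4329 c4423 c7768 c1707 c811 c851 (k8 c1584 c4473 c667 c1108 c4278 c4280 c4371 c8888 (k8 c4380 c4306 c8892 c8893 c8894 c8895 c1090 c8898 (k8 c4340 c823 c255 c862 c433 c902 c4055 c6224 (k2 c541 c4566 (k1 c6274 k0)))))))))) (by decide +kernel)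
def c8900 : PP 8 4 T 0x400000000000000000000001000080040000000010000000000000000000001000000151000000000 := rS 0x4713a8d3f10 (k4 c4468 c4414 c4337 c4278 (k2 c4374 c7091 k0)) (by decide +kernel)
def c8901 : PP 8 4 T 0x1000000040000800000000000000000000000000050000010000000000000 := rS 0x9745 (k2 c4399 c1323 (k1 c4474 k0)) (by decide +kernel)
def c8902 : PP 8 4 T 0x12000000001000000000000400000000000000404414000060000000000000000000408 := rS 0x8440c20f2bb (k4 c4390 c8880 c4482 c7000 (k2 c7040 c4321 k0)) (by decide +kernel)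
def c8903 : PP 8 4 T 0x2000000001000000040000000000000000000000014000040440208010110084042608 := rS 0xaf28b4466183d2fd067718936329d2c2ad5b1015b945e39 (k8 c4348 c8877 c4288 c2136 c4468 c4338 c4415 c223 (k8 c3249 c4364 c378 c297 c1090 c509 c8901 c8902 (k4 c1225 c2175 c2185 c1877 (k2 c5815 c2112 k0)))) (by decide +kernel)
def c8904 : PP 8 4 T 0x400000000000000000001000000000040000000000000000000000000002401008000000000000000 := rS 0x141854b60b3d7f18689156abd5dc509efd389bd960c3e334feb92334dca0b0a90c36b71a9058a292d8ac4a020095c3c1d16885263b0384d64055883c10a1 (k8 c8899 c248 c8875 c1146 c2193 c249 c34 c1178 (k8 c144 c3133 c2167 c7177 c3197 c4466 c1066 c8866 (k8 c4461 c224 c2136 c838 c1599 c3266 c3199 c3198 (k8 c3173 c2401 c2169 c141 c398 c4288 c8900 c4473 (k8 c1315 c1312 c1318 c1602 c1603 c3544 c1189 c666 (k8 c4379 c3463 c4480 c4390 c4354 c4389 c8903 c458 (k8 c4472 c6330 c7875 c4450 c8167 c2129 c4475 c1866 k0))))))) (by decide +kernel)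
def c8905 : PP 8 4 T 0x22000000001001000015410414000000000000000000000000400010000000000000000 := rS 0x141854b5aaf576c1 (k8 c4450 c4449 c4354 c4389 c8864 c2129 c4475 c1866 k0) (by decide +kernel)
def c8906 : PP 8 4 T 0x800000000000000000001000000004011445004000000200000000000000200010004400000000000 := rS 0x4c449783161b3572cb (k8 c4425 c4394 c4395 c1866 c1916 c2129 c4469 c1119 (k1 c4443 k0)) (by decide +kernel)
def c8907 : PP 8 4 T 0x800000000020000000001001000014000400800010000000000000000000400000004150100004208 := rS 0x29860bc57d28a2b54623e1a26119f4bafc8aadc82c5489603c1d51aad3ead880bc4ab166b2cdeb9389fd76c1 (k8 c4450 c4449 c4392 c666 c4394 c1189 c4425 c4395 (k8 c1146 c224 c8877 c4468 c4338 c4414 c4415 c4337 (k8 c3197 c4466 c223 c3167 c3266 c3199 c3173 c8905 (k8 c4480 c4377 c4379 c792 c7262 c4324 c846 c353 (k8 c1387 c8906 c4475 c4428 c8167 c2112 c6223 c2007 k0))))) (by decide +kernel)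
def c8908 : PP 8 4 T 0x800000000000000000001000000000000000000010000000000000000002400108000000000004000 := rS 0x14696ce5fc6066d17290c6a41148ac04012b8783a2d10a4c76080384d6405 (k8 c2193 c249 c34 c1178 c248 c144 c3133 c2167 (k8 c7177 c3197 c4466 c1066 c8866 c4461 c2136 c1599 (k8 c3199 c3198 c2169 c4288 c458 c432 c4472 c6330 (k4 c8907 c4430 c3546 c4475 k0)))) (by decide +kernel)
def c8909 : PP 8 4 T 0x40000000054000000000000000000181000000551080000000 := rS 0x11c4627 (k4 c2416 c1490 c1494 c2110 k0) (by decide +kernel)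
def c8910 : PP 8 4 T 0x1000000040040000000000000000000000000002441008000004400000000 := rS 0x8a031fa463e02c2a1b1a96d469f880adca291280802570f0745a21498ec0e1302ac4106f5c9c4feb222509420f (k8 c8875 c8899 c8904 c8908 c249 c4392 c666 c4394 (k8 c1189 c248 c1146 c2193 c34 c1178 c144 c3133 (k8 c2167 c7177 c3197 c4466 c1066 c8866 c4461 c224 (k8 c1599 c4288 c2136 c4468 c4414 c4337 c838 c3198 (k8 c2401 c141 c398 c7262 c2110 c4379 c1603 c4480 (k1 c8903 k0)))))) (by decide +kernel)
def c8911 : PP 8 4 T 0x1000000040000000000000000000000014000040440208010110884040618 := rS 0x8a97c1858 (k4 c223 c793 c1296 c8903 (k1 c4547 k0)) (by decide +kernel)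
def c8912 : PP 8 4 T 0x10010000001001000011400400901011001400000404001020540000001550084000000 := rS 0x1488253a1503083da60d3133c8c912af67d28daa355a7d5b10 (k8 c4468 c4338 c4414 c4415 c4337 c4993 c4475 c4430 (k8 c4428 c4457 c2112 c668 c4340 c823 c433 c4055 (k4 c4482 c7000 c4321 c903 (k2 c6274 c2128 (k1 c1937 k0))))) (by decide +kernel)
def c8913 : PP 8 4 T 0x1000000040040400000000000000000000000002501008000000000000000 := rS 0x459e5767b41a050e196152df8d05ac55528c478e21a2611af49f0505854ea3d1a96d22a34fc4056e5148bc4ab130b35966f5c9c4ff1918a74b0020095c5a931d81c26050f0843ab2041dc364d22509420f (k8 c8875 c8899 c8904 c8908 c379 c2401 c1090 c248 (k8 c249 c3197 c2167 c4466 c2193 c34 c1178 c144 (k8 c3133 c7177 c1066 c8866 c4461 c223 c3249 c297 (k8 c4364 c4392 c666 c4394 c1189 c4425 c4395 c879 (k8 c1146 c224 c8877 c1599 c4288 c2136 c4468 c4414 (k8 c4337 c3167 c838 c3198 c145 c1686 c141 c398 (k8 c4406 c8909 c1170 c8911 c8910 c4324 c352 c846 (k8 c353 c975 c4348 c1387 c8912 c4480 c4426 c459 (k8 c2185 c1631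 c4380 c4306 c3222 c2061 c2057 c5853 (k1 c7834 k0)))))))))) (by decide +kernel)
def c8914 : PP 8 4 T 0x2200208000000000000000 := rS 0x7b849e42c86448540e1359464ee1b (k8 c2401 c1090 c4364 c249 c34 c1178 c141 c1863 (k4 c1604 c1605 c668 c4440 (k2 c520 c4482 k0))) (by decide +kernel)
def c8915 : PP 8 4 T 0x1000000040040000000000000000000000000002401008000000000000000 := rS 0xaf19b44984ba2af86aab568c53a58279448942508941e2f4fa8e20e51580852012b8140e130f0745a2149821643b (k8 c144 c249 c248 c3133 c2167 c7177 c3197 c4466 (k8 c34 c1178 c2193 c1066 c8866 c1599 c4461 c2136 (k8 c4288 c4468 c4337 c4414 c8877 c8875 c224 c8899 (k8 c8904 c8908 c8914 c8909 c223 c3249 c297 c4338 (k8 c4415 c3198 c8913 c4399 c1323 c8901 c7073 c2340 (k2 c5815 c2112 k0)))))) (by decide +kernel)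
def c8916 : PP 8 4 T 0x80040000000054000000000000000000001000000151000000000 := rS 0x11c4627 (k4 c4278 c4372 c4374 c2110 k0) (by decide +kernel)
def c8917 : PP 8 4 T 0x40000000000000001000000000000000000440100000000064405000000002004808000000000000000 := rS 0x2f102fd429bc187c3fae42b051a820eeb2 (k8 c249 c1192 c248 c3198 c4406 c141 c1315 c1312 (k8 c1602 c1603 c1189 c684 c4379 c1293 c7834 c4507 k0)) (by decide +kernel)
def c8918 : PP 8 4 T 0x1000000000000400100000000000404400100064004000010000800000618 := rS 0x8a204de853897c185c (k8 c792 c793 c1296 c1418 c1498 c1289 c1293 c4547 (k1 c8882 k0)) (by decide +kernel)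
def c8919 : PP 8 4 T 0x1000000000040000000000000000000000000002001008000000000000000 := rS 0x9835a990a7137a051f0d3fae59a26a108c8ebb3492e1279419dd7f183da2d10186085d0e45a5b44a40b0a90c223520b14b66d489615ab169a844a0f4fa8e20e51580852012b8783a050384c5a2149821643b (k8 c144 c249 c248 c3133 c2167 c7177 c34 c1178 (k8 c2193 c3197 c4466 c1066 c8866 c1599 c4461 c2136 (k8 c4288 c4468 c4337 c4414 c8875 c224 c8899 c8916 (k8 c1146 c4338 c223 c3167 c4993 c838 c3266 c3199 (k8 c3198 c2306 c2169 c141 c398 c8915 c179 c4456 (k8 c419 c1903 c2031 c1982 c252 c253 c1766 c1224 (k8 c4472 c6330 c1192 c4570 c669 c4436 c3947 c2040 (k8 c4449 c8917 c8918 c4473 c2110 c4395 c4394 c4392 (k8 c4324 c846 c2044 c1189 c666 c684 c6353 c2008 (k2 c5989 c8246 k0)))))))))) (by decide +kernel)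
def c8920 : PP 8 4 T 0x10002000000000000000000000000001601404411000000000040000000002000000 := rS 0x1ad30a65e460f309 (k8 c4436 c1958 c4540 c6225 c6223 c1119 c2008 c8246 k0) (by decide +kernel)
def c8921 : PP 8 4 T 0x10002000000000010000400100010000601404404000002100008004000000000000 := rS 0x174794da9d82ae1894c3243629b5229d55ab6202b728a45e712c008025716a4c7607098143c210e8216481 (k8 c4380 c249 c248 c3197 c2167 c4466 c2193 c34 (k8 c1178 c144 c3133 c7177 c1066 c8866 c4461 c223 (k8 c537 c8877 c1599 c4288 c2136 c4468 c4338 c4415 (k8 c3249 c3167 c4993 c3266 c2169 c8920 c252 c228 (k4 c2112 c1715 c908 c869 (k2 c669 c6353 (k1 c1390 k0))))))) (by decide +kernel)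
def c8922 : PP 8 4 T 0x2000000000000000000000000000000800000002000008000000000000000 := rS 0x29abc6289341ace6152c2b6202b728a45e020095c3c1d16885263b0401c26b20294516d1 (k8 c4298 c1766 c4435 c2193 c249 c34 c1178 c248 (k8 c144 c3133 c2167 c7177 c3197 c4466 c1066 c8866 (k8 c4461 c8877 c1599 c4288 c2136 c4468 c4338 c223 (k8 c141 c1082 c1921 c1112 c2043 c229 c829 c253 (k1 c7769 k0))))) (by decide +kernel)
def c8923 : PP 8 4 T 0x10002000000000000040000000000000401000004000002001008000000000000000 := rS 0x2fd18381311c467d2eac466d128a0c2e1169a844a9f51c41ca2b010a402570f0740a07098b44293590ec1e7b22820eef0 (k8 c8919 c8922 c248 c4296 c1224 c8875 c144 c249 (k8 c3133 c2167 c7177 c34 c1178 c2193 c3197 c4466 (k8 c1066 c8866 c1599 c4461 c2136 c4288 c4468 c4337 (k8 c4414 c224 c8899 c8916 c2306 c4431 c4570 c4435 (k8 c4298 c4294 c1146 c4377 c4379 c792 c1602 c2110 (k4 c352 c353 c1240 c8921 k0)))))) (by decide +kernel)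
def c8924 : PP 8 4 T 0x20000000000000000000000800054000800000004000020000000000151000004200 := rS 0x7c7e08d73155889ce25f (k8 c4382 c536 c4324 c1146 c4388 c1475 c4547 c4480 (k2 c7262 c4379 k0)) (by decide +kernel)
def c8925 : PP 8 4 T 0x200000002000000000010800000001000100004400000000400040000050000000008 := rS 0x9b89ab862198cab45e51 (k8 c4435 c8877 c4338 c4369 c4540 c228 c7769 c4346 (k2 c869 c5760 k0)) (by decide +kernel)
def c8926 : PP 8 4 T 0x201000002000000000000000000000000040000001400000400000000050000000008 := rS 0x1a626ae18ab45e51 (k8 c4435 c8877 c4338 c229 c7769 c4346 c829 c4479 k0) (by decide +kernel)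
def c8927 : PP 8 4 T 0x200000002000000040000000000000000042400001000000400000000051000000018 := rS 0x8e1a272f29e266a52c268a33 (k8 c4294 c4397 c4321 c1402 c8926 c4442 c2008 c562 (k4 c4568 c4382 c1296 c4467 k0)) (by decide +kernel)
def c8928 : PP 8 4 T 0x40000000000000000000000008000000000000010000000014000 := rS 0x1afd (k2 c4378 c1289 (k1 c4463 k0)) (by decide +kernel)
def c8929 : PP 8 4 T 0x400001000000000040000000100001400001504414000020000000010001080000000 := rS 0x11c344e8c1caed7b14 (k8 c4480 c6133 c4390 c4348 c6745 c352 c4383 c1297 (k1 c4467 k0)) (by decide +kernel)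
def c8930 : PP 8 4 T 0x40000000800054000000000024000060000000000151000004610 := rS 0x8e1a272f2391a91 (k8 c3167 c1386 c537 c536 c7014 c8924 c1296 c4467 k0) (by decide +kernel)
def c8931 : PP 8 4 T 0x2000000000000000000000800000000000000002000008000000000000000 := rS 0x14832af18c6486c556c4056e5148bc04012b8783a2d10a4c760709ac80a513d9141077 (k8 c8922 c248 c4296 c1224 c4435 c2193 c249 c34 (k8 c1178 c144 c3133 c2167 c7177 c3197 c4466 c1066 (k8 c8866 c4461 c8877 c1599 c4288 c2136 c4468 c4338 (k8 c3266 c2169 c4448 c1966 c869 c4540 c7769 c252 k0)))) (by decide +kernel)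
def c8932 : PP 8 4 T 0x1002000000040000000000000000001000010000002000008000000000004000 := rS 0x2906462af8cc497cbb40c5018434eab6202b728a45e255892ca2830b9ec8a77378d422794d96004012b8b5263b0384c0a1e1087410b2 (k8 c249 c248 c3197 c2167 c4466 c2193 c34 c1178 (k8 c144 c3133 c7177 c1066 c8866 c4461 c223 c8931 (k8 c541 c2306 c3198 c8928 c8922 c4296 c1224 c4431 (k8 c4570 c4435 c4434 c1146 c224 c8877 c1599 c4288 (k8 c2136 c4468 c4338 c3249 c2169 c4463 c4480 c1293 (k8 c4390 c7040 c8929 c4369 c4346 c4441 c4540 c7769 (k1 c252 k0))))))) (by decide +kernel)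
def c8933 : PP 8 4 T 0x40000000000000001000000000002001008000000000000000 := rS 0x8f868988e233e975f8f0389bc6a1169a844a0f4fa8e20e515960b60214804ae1e0e81c262d10a4c76050585410b2 (k8 c249 c248 c141 c398 c2193 c144 c3133 c2167 (k8 c7177 c34 c1178 c3197 c4466 c1066 c8866 c1599 (k8 c4461 c838 c223 c2136 c4288 c4468 c4337 c4414 (k8 c8875 c224 c8899 c8916 c2306 c3198 c8928 c8930 (k8 c8919 c8932 c4377 c4379 c792 c1602 c2110 c4324 (k2 c846 c8923 k0)))))) (by decide +kernel)
def c8934 : PP 8 4 T 0x40000000000000000000000000002001008000000000000000 := rS 0x50c8e7e4421e96bf2942576843ca6ce26f459ed06d12285c96f069a841615088d4b66d2c28d3f1015b94522501004ae1e0e8b442931d81c26b202ac41e08 (k8 c248 c8875 c1146 c2193 c249 c34 c1178 c144 (k8 c3133 c2167 c7177 c3197 c4466 c1066 c8866 c4461 (k8 c224 c1599 c4288 c2136 c4468 c4414 c4337 c223 (k8 c4993 c838 c3198 c2306 c141 c398 c8899 c8916 (k8 c8919 c4434 c4431 c4296 c4298 c4570 c1224 c1766 (k8 c8928 c8930 c8931 c541 c8933 c1441 c4321 c8927 (k8 c7782 c4456 c1903 c253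 c684 c8917 c4392 c4473 k0))))))) (by decide +kernel)
def c8935 : PP 8 4 T 0x2000000000040000000000000002000000000002000008000000000000000 := rS 0x5266a2da21b36962202b728a44a020095c3c1d16885263b0384c0a837e454706f698d5641138ae090751eac41e08 (k8 c248 c8875 c1146 c145 c1686 c8934 c371 c1474 (k8 c2306 c249 c3198 c4281 c8928 c370 c4348 c4480 (k8 c4306 c2193 c34 c1178 c144 c3133 c2167 c7177 (k8 c3197 c4466 c1066 c8866 c4461 c224 c1599 c4288 (k8 c2136 c4468 c223 c4993 c2401 c4298 c1766 c7979 (k2 c8927 c373 k0)))))) (by decide +kernel)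
def c8936 : PP 8 4 T 0x40000000000000002000000000002000008000000000000000 := rS 0x10c2f09cd43057d28a6cd688cc98f12892d4b450d9b4b0ab568bc4a4f119762a3837b4c6a1147ae090a3880adca295883c04012b8783a2d10a4c76080384d6405 (k8 c2193 c249 c34 c1178 c248 c144 c3133 c2167 (k8 c7177 c3197 c4466 c1066 c8866 c4461 c8875 c1146 (k8 c1599 c4288 c2136 c4468 c4337 c8934 c371 c1475 (k8 c2306 c3198 c4281 c8928 c370 c4348 c4628 c792 (k8 c2421 c224 c8877 c4338 c4415 c223 c4993 c2401 (k8 c4397 c1402 c1320 c1725 c8935 c4474 c2340 c2345 (k8 c7979 c373 c4475 c4428 c2112 c229 c357 c562 (k2 c4467 c4382 k0)))))))) (by decide +kernel)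
def c8937 : PP 8 4 T 0x140100001000101500410000020000040002000000000008 := rS 0x3da6cd513 (k4 c4441 c229 c1966 c561 (k1 c6745 k0)) (by decide +kernel)
def c8938 : PP 8 4 T 0x10000140154001000101500410000020500040000150104000008 := rS 0x3da6cd313190c4da2f (k8 c8877 c4993 c8937 c2112 c4340 c823 c862 c4055 (k1 c6745 k0)) (by decide +kernel)
def c8939 : PP 8 4 T 0x10002001000000040000000000001001401001400000020040000018000084000000 := rS 0x7b5fa9d306926c4cda83 (k8 c4306 c4993 c4340 c2340 c823 c433 c903 c8901 (k2 c4055 c6238 k0)) (by decide +kernel)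
def c8940 : PP 8 4 T 0x2001001000050000060900001001001000010000000540040010150184000008 := rS 0x3d1a8303019c3518795e9dd12af61d28da5855ab45e8f51c410283 (k8 c4306 c4380 c4468 c4337 c1475 c8877 c4338 c4415 (k8 c223 c4993 c4475 c4459 c4428 c4457 c1191 c1207 (k8 c668 c8938 c4383 c8939 c2112 c228 c229 c8920 (k1 c561 k0)))) (by decide +kernel)
def c8941 : PP 8 4 T 0x1000000010040040000000000000000000000002400008000000000000000 := rS 0x7b5f9e57a770b13512c328055ca430d904522b48a74b0020095c5a931d81c26050f0843a4727a0506fc8a8e0ded31aac822715c120ea3d5883c1085 (k8 c8936 c248 c8875 c1146 c145 c1686 c8934 c371 (k8 c1474 c2306 c249 c3198 c4281 c8928 c370 c4348 (k8 c4480 c4306 c4380 c2421 c118 c3197 c2167 c4466 (k8 c2193 c34 c1178 c144 c3133 c7177 c1066 c8866 (k8 c4461 c223 c3249 c3167 c2136 c1599 c3199 c2401 (k8 c2169 c4288 c141 c8940 c1866 c1863 c1997 c1605 (k4 c1191 c1207 c668 c8901 (k2 c520 c2122 k0)))))))) (by decide +kernel)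
def c8942 : PP 8 4 T 0x1000000010040000000000000000000000000002400008000000000000000 := rS 0xc55e511991180cc4cc65744320a74b0ab568bd1eb82428e202b0139452012b8783a050384c5a2149821643b (k8 c144 c249 c248 c3133 c2167 c7177 c34 c1178 (k8 c2193 c3197 c4466 c1066 c8866 c1599 c4288 c4461 (k8 c2136 c4468 c4337 c8934 c371 c1475 c8877 c4338 (k8 c4415 c223 c3249 c3199 c2169 c8941 c4449 c1931 (k8 c1477 c1478 c4472 c433 c1869 c1715 c297 c2112 k0))))) (by decide +kernel)
def c8943 : PP 8 4 T 0x20000000900000000001000014000000002008000000004000200 := rS 0x67aecf6bd3bb049ac22252e2ec55c2d47a8141bf22a38 (k8 c370 c4348 c4480 c4306 c4380 c145 c1702 c371 (k8 c3266 c4356 c4426 c458 c459 c2345 c1710 c1090 (k4 c3217 c3222 c2061 c1791 (k1 c5956 k0)))) (by decide +kernel)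
def c8944 : PP 8 4 T 0x4000000000000000004040020900000000001500014000000802040000000000100200 := rS 0x176bd3b9ed82cb4391696c5 (k8 c3266 c4456 c2336 c1903 c2023 c1982 c1224 c1192 (k2 c1208 c1478 (k1 c5956 k0))) (by decide +kernel)
def c8945 : PP 8 4 T 0x400000000004200100002000000004000225000000000040400400000000400000000050000000008 := rS 0x31081821e96af44b0994cda2ab45e51 (k8 c4435 c8877 c4338 c4454 c2069 c1208 c8143 c6175 (k4 c8140 c4459 c1906 c7769 (k2 c4485 c228 (k1 c4436 k0)))) (by decide +kernel)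
def c8946 : PP 8 4 T 0x40000000000000000000000000002000008000000000000000 := rS 0x2361aba5e9e57e7b4d9dc8af029b3d16d142a0d02fc479c62a6f5aae0714369921620f0ac162e431b84436751eadc6a912c28e202b0139452012b8783a050384c5a2149821643b (k8 c144 c249 c248 c3133 c2167 c7177 c34 c1178 (k8 c2193 c3197 c4466 c1066 c8866 c1599 c4288 c4461 (k8 c2136 c4468 c4337 c223 c3167 c3198 c3173 c145 (k8 c1686 c2401 c2306 c2168 c2169 c4356 c4406 c141 (k8 c8875 c1146 c8934 c4281 c4421 c370 c371 c1702 (k8 c8928 c4348 c1474 c1475 c4480 c4380 c4306 c8936 (k8 c8943 c1766 c1790 c8944 c8942 c4296 c8922 c8931 (k8 c1224 c1240 c541 c8945 c2122 c4897 c1390 c4486 k0)))))))) (by decide +kernel)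
def c8947 : PP 8 4 T 0x2000000000000000000000000000000000000002400008000000000000000 := rS 0x4495ca9120c61a1946464f6be4d9dca2452790c6a4162a74b0ad17934c22725974fca3880ac04e514804ae1e0e8140e1316885263b5daf628fd071bcfa1538ad46eb2588e58c08 (k8 c248 c8946 c2171 c1145 c249 c2168 c1431 c667 (k8 c141 c1352 c1190 c250 c4376 c4480 c4354 c4390 (k8 c144 c3133 c2167 c7177 c34 c1178 c2193 c3197 (k8 c4466 c1066 c8866 c1599 c4288 c4461 c2136 c4468 (k8 c4337 c251 c1457 c3428 c408 c878 c2172 c8877 (k8 c4338 c223 c3249 c3266 c3199 c3198 c2169 c4297 (k8 c4296 c4435 c8922 c8931 c2114 c1224 c4369 c8925 (k8 c4540 c4383 c228 c4046 c1504 c7769 c4566 c4346 k0)))))))) (by decide +kernel)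
def c8948 : PP 8 4 T 0x10000800000000000000004400000002400008000000000000000 := rS 0x862304a83192255f4a4294463085291102430d8d53aab568bcc2272e9f9471015b9452bb5ec51fa0e379f4e2b51bac472c63cbc4b05b01004ae1e0e8b442931d8200e13590141615 (k8 c141 c398 c2193 c249 c34 c1178 c248 c144 (k8 c3133 c2167 c7177 c3197 c4466 c1066 c8866 c4461 (k8 c838 c223 c8947 c8880 c8946 c2171 c1145 c2168 (k8 c1431 c667 c1352 c1190 c250 c4376 c4480 c4354 (k8 c4390 c1599 c4288 c2136 c4468 c4337 c251 c1457 (k8 c408 c878 c8877 c4338 c4415 c3249 c3198 c2401 (k8 c2169 c1363 c6330 c1404 c7782 c297 c8914 c4321 (k8 c4475 c4428 c4457 c2112 c676 c435 c8938 c4046 (k1 c4383 k0))))))))) (by decide +kernel)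
def c8949 : PP 8 4 T 0x10000000000000000000004400000002400208000000000000000 := rS 0x88a5208a31982b94165b2c008025716a4c7607098143c210ed0d92498a3f41c6f3e854e2b51bac9623963021e2bf (k8 c8948 c8947 c248 c8946 c2171 c1145 c249 c2168 (k8 c1431 c667 c141 c1352 c1190 c250 c4376 c4480 (k8 c147 c1726 c4391 c3197 c2167 c4466 c2193 c34 (k8 c1178 c144 c3133 c7177 c1066 c8866 c4461 c223 (k8 c838 c398 c4288 c4406 c4364 c8914 c8902 c4475 (k2 c8144 c4457 k0)))))) (by decide +kernel)
def c8950 : PP 8 4 T 0x10000000000000000000004400000002400008000000000000000 := rS 0x21506162f1421aaf890c5024e8c0cc8abf2186c6a4155ab45e4d069844e4b2e9f9471015b9452bb5ec51fa0e379f4e2b51bac472c63cbc4b05b01004ae1e0e8b442931d8200e13590141615 (k8 c141 c398 c2193 c249 c34 c1178 c248 c144 (k8 c3133 c2167 c7177 c3197 c4466 c1066 c8866 c4461 (k8 c838 c223 c8947 c8880 c8946 c2171 c1145 c2168 (k8 c1431 c667 c1352 c1190 c250 c4376 c4480 c4354 (k8 c4390 c1599 c4288 c2136 c4468 c4337 c251 c1457 (k8 c3428 c408 c878 c1448 c2172 c8877 c4338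 c4415 (k8 c3199 c3198 c2401 c2169 c8948 c8949 c432 c4472 (k8 c2114 c1360 c2140 c4469 c5815 c8237 c2112 c4477 (k4 c1605 c6467 c522 c2122 k0))))))))) (by decide +kernel)
def c8951 : PP 8 4 T 0x1000000000000000000000000000000800000004000000000000084000008 := rS 0x898c4669835914b02f (k8 c8877 c223 c1090 c1921 c1111 c432 c229 c4443 (k1 c4469 k0)) (by decide +kernel)
def c8952 : PP 8 4 T 0x10000000000000000000000000000002400008000000000000000 := rS 0xae1894466440c1e93a5855ab6202b728a45e7778808022d498ec0e132b8143c210e821641b (k8 c2401 c249 c248 c3197 c2167 c4466 c2193 c1066 (k8 c34 c1178 c144 c3133 c7177 c8866 c4461 c8947 (k8 c8951 c8877 c1599 c4288 c2136 c4468 c4338 c4415 (k8 c223 c3249 c8950 c1225 c1224 c2175 c1877 c297 (k2 c2112 c5815 k0))))) (by decide +kernel)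
def c8953 : PP 8 4 T 0x2400008000000000000000 := rS 0x20cf2bf40a14f6cc61065a0777886cea3d01004ae1e0e8b442931d81c26056492496cf3f2ee28fd071bcfa1538ad46eb2588e58c08 (k8 c248 c8946 c2171 c1145 c249 c2168 c1431 c667 (k8 c141 c1352 c1190 c250 c4376 c4480 c4390 c251 (k8 c3496 c3428 c147 c1726 c2193 c34 c1178 c144 (k8 c3133 c2167 c7177 c3197 c4466 c1066 c8866 c4461 (k8 c145 c1686 c2401 c8947 c8951 c8952 c2186 c459 (k8 c461 c1225 c1496 c6395 c1216 c2057 c2065 c7040 k0)))))) (by decide +kernel)
def c8954 : PP 8 4 T 0x2000008000000000000000 := rS 0x2f9824f22d2ca4bd5dc519e4b37bf4e2b1269f8fa0e5a8e58cc5208d46e43042ca2e15 (k8 c141 c4356 c249 c248 c2169 c2168 c3198 c3199 (k8 c3266 c8946 c2171 c1431 c250 c1352 c251 c2172 (k8 c1145 c667 c4376 c1190 c3428 c3496 c4480 c4390 (k8 c4354 c8953 c4456 c419 c2174 c1982 c2114 c4572 k0)))) (by decide +kernel)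
def c8955 : PP 8 4 T 0x800000000000001000004000002800000000000000008200 := rS 0xfec64111dfb05849d56b451ca04f6451b93d6ecb4406092cd5cc587ae51d84c7e35 (k8 c1059 c8954 c34 c1062 c4290 c2150 c4471 c4361 (k8 c1485 c373 c252 c253 c3926 c1247 c2174 c1511 (k8 c418 c1224 c1364 c1240 c4399 c4419 c1686 c4436 (k4 c4406 c4376 c1332 c4484 (k2 c4559 c677 (k1 c251 k0)))))) (by decide +kernel)
def c8956 : PP 8 4 T 0x800000000000001000004000002800000000000000000200 := rS 0x1f1f84641b1c1e3582c24eab5a28e5027b228dc9eb765a20304966ae62c3d728ec263f (k8 c8954 c34 c1062 c4290 c2150 c4471 c4361 c1485 (k8 c373 c252 c253 c3926 c1247 c2174 c1511 c418 (k8 c1224 c1364 c1240 c4399 c4419 c1686 c4436 c4406 (k8 c1059 c8955 c250 c1999 c4559 c4484 c1602 c4379 k0)))) (by decide +kernel)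
def c8957 : PP 8 4 T 0x800000000000001000000000002800000000000000000200 := rS 0x11c6a0e63a08fefd374240eb5a28e5027b228dc9eb765a20304966ae62c3d728ec263f (k8 c8954 c34 c1062 c4290 c2150 c4471 c4361 c1485 (k8 c373 c252 c253 c3926 c1247 c2174 c1511 c418 (k8 c1224 c1364 c1240 c4399 c4419 c30 c4436 c8956 (k8 c4378 c1459 c4484 c251 c1999 c1330 c1332 c2113 k0)))) (by decide +kernel)
def c8958 : PP 8 4 T 0x800000000000000000000000002800000000000000000200 := rS 0x47638d4fa0f37a1092cd5b8dc7245438549ecb0c2e56a7761c587ae51d84c7e88 (k8 c253 c8954 c34 c1062 c4290 c2150 c4471 c4362 (k8 c2042 c4419 c4361 c252 c3926 c2174 c141 c1903 (k8 c418 c1240 c1511 c1247 c1485 c373 c8957 c1500 (k4 c1495 c1502 c1059 c250 (k2 c1602 c2113 k0))))) (by decide +kernel)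
def c8959 : PP 8 4 T 0x2000000000002800000000000000004200 := rS 0x3498b432392630433f1f59ace3cd14a34b60a1c2a4f45b4612410c1ec8ab93bb0e2c3d728ec263f442fd8e37 (k8 c232 c250 c8958 c253 c8954 c34 c1062 c4290 (k8 c2150 c4471 c4362 c2042 c4361 c418 c1224 c252 (k8 c3946 c4436 c179 c1766 c2174 c141 c1903 c1983 (k8 c4456 c148 c4397 c603 c685 c1482 c1502 c684 (k8 c237 c4482 c1790 c1602 c4392 c4370 c4473 c7552 k0))))) (by decide +kernel)
def c8960 : PP 8 4 T 0x40000000000000001000000001000091001400000000000000001400000000144115550000000000200 := rS 0x288bc62aee30433dae62c4d (k8 c4282 c4471 c4361 c1224 c237 c4482 c4449 c4370 (k2 c2114 c7552 (k1 c4454 k0))) (by decide +kernel)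
def c8961 : PP 8 4 T 0x2000000000000100000000082000010 := rS 0x1acda3001a761242 (k8 c1958 c4436 c1232 c2132 c276 c601 c1919 c7393 k0) (by decide +kernel)
def c8962 : PP 8 4 T 0x40000000000000000000000001000011401408000000000000000400000000144115554400002000210 := rS 0x224a4369ac4a3101004b4202c87d4ea9a233cd2bd4c9e21207a1874aed2 (k8 c7094 c7626 c1057 c4424 c30 c4436 c8960 c3841 (k8 c3917 c1961 c1797 c4495 c4398 c4453 c8961 c1105 (k8 c4466 c4476 c831 c230 c6147 c312 c581 c958 (k2 c6996 c4479 (k1 c4444 k0))))) (by decide +kernel)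
def c8963 : PP 8 4 T 0x1000000000000000000000500000000000000002000000004054100044404402000210 := rS 0xa554c494e6d35a444a3101004b4202c87cd2998cc240e1d (k8 c1057 c30 c4436 c4447 c3841 c1961 c8961 c1105 (k8 c4466 c4476 c831 c230 c6147 c312 c887 c581 (k4 c958 c8272 c4479 c4345 (k2 c4444 c2111 k0)))) (by decide +kernel)
def c8964 : PP 8 4 T 0x4000002801400100000000004200 := rS 0xba8c10cf2bd6615c464d13b4a87155b414a2d1a5b04664f02c24964117b2c307b229d56a7761c587ae51d84c7e885f8d58e37 (k8 c232 c250 c1059 c8958 c253 c8954 c34 c1062 (k8 c4290 c2150 c4471 c4362 c2042 c4419 c1686 c418 (k8 c1224 c252 c3926 c3945 c3946 c3947 c4436 c2195 (k8 c2174 c2173 c1983 c4456 c179 c148 c4406 c4559 (k8 c4353 c4424 c7094 c4278 c4282 c4372 c7626 c8962 (k4 c2068 c8963 c237 c4482 (k2 c4247 c4449 k0))))))) (by decide +kernel)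
def c8965 : PP 8 4 T 0x1000000000000000000001400100001502014000004000000004000040002200 := rS 0x292186d30808025f35974405a348740e59 (k8 c1105 c30 c1057 c1961 c4476 c4466 c841 c581 (k8 c576 c831 c230 c502 c958 c4477 c2119 c4385 k0)) (by decide +kernel)
def c8966 : PP 8 4 T 0x4000002800800100000000004200 := rS 0x8e1a2715a78389333a3442560fa654ea93c511228f5da044aa338bf6286550830f8b769c14660b02c2496b33d914eab54b9dd87161eb9476131fa217e35418606e85 (k8 c8959 c232 c252 c1999 c1059 c8958 c253 c8954 (k8 c34 c1062 c4290 c2150 c4471 c4362 c2042 c4360 (k8 c4419 c1686 c418 c1224 c1185 c3947 c4436 c2195 (k8 c2251 c2173 c4406 c4374 c1587 c1602 c1603 c3542 (k8 c3584 c4470 c4379 c1419 c3278 c3346 c1293 c4390 (k8 c4388 c4352 c4484 c7040 c4398 c4453 c3841 c8961 (k8 c8965 c799 c1067 c920 c1070 c4466 c7050 c4191 (k4 c873 c4384 c1300 c4467 k0)))))))) (by decide +kernel)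
def c8967 : PP 8 4 T 0x2000000000040000000000000000001102000000008020000010401042000600 := rS 0x448be6b34a954e0001a6c4e1c1081cba42 (k8 c1958 c4377 c30 c799 c4466 c873 c764 c791 (k8 c1058 c4558 c1935 c1960 c1919 c489 c8832 c4130 k0)) (by decide +kernel)
def c8968 : PP 8 4 T 0x4000002800000100000000004200 := rS 0xb558a0534494a6d188ac04012f9ac405a34874ae590fa64ba787e1c57681263304b143eb4c9047088cc1605848bc0e7b229dd87161eb9476131fa217e3563a0c3085 (k8 c8959 c252 c1999 c250 c1059 c8958 c253 c8954 (k8 c34 c1062 c4290 c2150 c4471 c4362 c2042 c418 (k8 c1224 c30 c3945 c4436 c2195 c2251 c2173 c2307 (k8 c8966 c8964 c4281 c1623 c4209 c2217 c373 c372 (k8 c2045 c4390 c4387 c4248 c7040 c4377 c3841 c8961 (k8 c1105 c8967 c1057 c1961 c4476 c4466 c581 c576 (k8 c831 c230 c314 c6147 c958 c1934 c4479 c4130 (k4 c2067 c2066 c895 c4554 k0)))))))) (by decide +kernel)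
def c8969 : PP 8 4 T 0x1402004000000000100244400002010610 := rS 0x549b54a9d01238be6b10244b41d2bbf21a8d2c9304aba0f9093281848d5a715 (k8 c4348 c4280 c1059 c4436 c1963 c3841 c1958 c8961 (k8 c365 c2215 c364 c1105 c1113 c4921 c4248 c8967 (k8 c1057 c4476 c4550 c4466 c581 c577 c4486 c230 (k4 c966 c1430 c958 c1444 (k1 c6983 k0))))) (by decide +kernel)
def c8970 : PP 8 4 T 0x40000000400001401404000004000000204000040000200 := rS 0x807e2a61aa5539b4c25f2e9acd22647008b420469662a1d (k8 c1057 c4348 c1105 c1113 c4466 c4476 c230 c361 (k8 c360 c845 c580 c841 c577 c6989 c958 c852 (k4 c1429 c4324 c974 c4477 (k2 c2119 c4380 k0)))) (by decide +kernel)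
def c8971 : PP 8 4 T 0x40044440100004000001505404000020800400000155400000000 := rS 0x5e330e2482fc3146e5 (k8 c4290 c4241 c4467 c4382 c4200 c536 c373 c2122 (k1 c2068 k0)) (by decide +kernel)
def c8972 : PP 8 4 T 0x110004000102800000000001080004208 := rS 0x23e1a26539aa266949a7d5a658819c466d158a4b10555a557ec758b4d769b62c60f238428dd062f0282c66113d914eec38b0f5ca3b09a221218108b47e47 (k8 c1602 c8954 c392 c86 c252 c4436 c253 c34 (k8 c1062 c4290 c2150 c4471 c4362 c2042 c418 c1224 (k8 c2307 c2173 c2251 c2195 c3945 c1999 c232 c8959 (k8 c8968 c8969 c4482 c4370 c4448 c4449 c4280 c1146 (k8 c250 c8958 c4418 c3852 c4406 c223 c795 c2138 (k8 c958 c792 c918 c4468 c1646 c4554 c6237 c4413 (k8 c2040 c7641 c4479 c2008 c8971 c4324 c846 c6353 k0))))))) (by decide +kernel)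
def c8973 : PP 8 4 T 0x40060000002000000800000000100000000202 := rS 0x2b332b5ca07 (k4 c30 c4290 c945 c680 (k2 c293 c7431 k0)) (by decide +kernel)
def c8974 : PP 8 4 T 0x20000000000000000000000000000000000000000000000006800000000100000000204 := rS 0xae884493231368a4c65a349acb2000ac15820545b46122f558612e953bb0e2c3d728ec263f4426d3ac5 (k8 c4370 c4368 c4448 c253 c8954 c34 c1062 c4290 (k8 c2150 c4471 c4362 c2042 c4418 c4360 c252 c3852 (k8 c3945 c4436 c179 c1766 c2195 c1983 c4406 c141 (k8 c4461 c1106 c1919 c756 c4476 c842 c8448 c8973 (k4 c7393 c8246 c4479 c4712 (k2 c7223 c4346 k0)))))) (by decide +kernel)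
def c8975 : PP 8 4 T 0x1000000000000000000000001100000000000020004000000000000000000000000000 := rS 0xe2fd (k2 c4379 c1419 (k1 c4480 k0)) (by decide +kernel)
def c8976 : PP 8 4 T 0x4000006800000000000000004200 := rS 0xe2fd2e094042d0f2ed37183ca146e83178141633089ec8a7761c2430813ec5470b15ac587ae51d84c7e88 (k8 c253 c8954 c34 c1062 c4290 c2150 c4471 c4419 (k8 c1146 c8968 c4348 c8975 c2045 c252 c4436 c4362 (k8 c2042 c418 c1224 c2307 c2173 c2251 c2195 c3945 (k8 c1999 c232 c8959 c8969 c4482 c4448 c4449 c8970 (k4 c392 c8974 c224 c8972 (k2 c4377 c1418 (k1 c4480 k0))))))) (by decide +kernel)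
def c8977 : PP 8 4 T 0x4000002800000000000000004200 := rS 0xd26b54a94baa70000cbe901123c4e1c129b4c21f10959027d4ec60f315698e10a3741ac4223305816124b178600e7b22ad4eec38b0f5ca3b098fd1035 (k8 c1059 c253 c8954 c34 c1062 c4290 c2150 c4471 (k8 c4362 c2042 c4419 c418 c1224 c30 c252 c3945 (k8 c3947 c4436 c2195 c2251 c2173 c2307 c1146 c1999 (k8 c232 c8959 c8968 c4280 c4348 c8969 c4482 c4368 (k8 c8975 c2045 c8976 c799 c1066 c881 c961 c280 (k8 c4466 c873 c761 c1140 c1139 c4647 c791 c1058 (k4 c4558 c4628 c1301 c978 (k2 c1919 c756 (k1 c2119 k0))))))))) (by decide +kernel)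
def c8978 : PP 8 4 T 0x4000002800000000000040000204 := rS 0x785e46618a756a3cc2a554a7456b12b26d268d89264621c369a4d65f108005ac102a2da30917aac307b22a5d2a7761c587ae51d84c7e885f8d5fa0e (k8 c8977 c4376 c1059 c8958 c253 c8954 c34 c1062 (k8 c4290 c2150 c4471 c4362 c2042 c4418 c4360 c418 (k8 c1224 c252 c3852 c3945 c4436 c179 c1766 c2195 (k8 c1983 c246 c4461 c230 c1376 c1919 c756 c8973 (k8 c4466 c7393 c8246 c4479 c1027 c1029 c764 c1057 (k8 c3160 c292 c4344 c4345 c4444 c881 c2709 c4554 (k4 c4532 c6348 c7972 c5724 (k2 c4482 c3917 k0)))))))) (by decide +kernel)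
def c8979 : PP 8 4 T 0x400000000002004001002800000000000040000200 := rS 0x5bb1c6ecd262084f0528b4696c122814964117b2ceab55f8d48e8527b249223068e4ba5f1283952a5891ac6309368ccd25a1007404073bb0e2c3d728ec263f442057a18 (k8 c252 c3917 c1963 c253 c8954 c34 c1062 c4290 (k8 c2150 c4471 c4362 c2042 c30 c8978 c791 c4466 (k8 c231 c845 c2173 c958 c4436 c2144 c1918 c4479 (k8 c4444 c4345 c8977 c2142 c1375 c841 c2157 c32 (k8 c793 c2161 c1726 c2174 c1495 c1332 c1059 c8958 (k8 c4419 c1686 c3926 c3945 c3946 c3947 c2195 c418 (k8 c1983 c4456 c179 c148 c4406 c239 c2119 c8634 (k4 c2065 c325 c2172 c8962 (k1 c4559 k0))))))))) (by decide +kernel)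
def c8980 : PP 8 4 T 0x400000000002004000002800000000000040000200 := rS 0x16cc71b898c0d38293c5e755a8d48e49128e41c9154a96246b18c24306d199a4b4200e8080e7761c587ae51d84c7e88 (k8 c253 c8954 c34 c1062 c4290 c2150 c4471 c4362 (k8 c2042 c30 c8978 c791 c4466 c231 c845 c2173 (k8 c958 c252 c4436 c2144 c1918 c4479 c4444 c4345 (k8 c2894 c8977 c2157 c2142 c2161 c1332 c1059 c4419 (k8 c1686 c3945 c2174 c4406 c6996 c8979 c878 c321 (k2 c2170 c4559 (k1 c7094 k0))))))) (by decide +kernel)
def c8981 : PP 8 4 T 0x2004000002800000000000040000200 := rS 0xc6132dc6e608a2997b190c2e56abf1abf48e491c9a4eec38b0f5ca3b098fd10912d17c4a200e8080e0e (k8 c8977 c30 c8978 c791 c4466 c2142 c1375 c231 (k8 c2894 c253 c8954 c34 c1062 c4290 c2150 c4471 (k8 c4362 c2042 c845 c2157 c2161 c1332 c4376 c1059 (k8 c8958 c4419 c4361 c252 c4447 c3917 c8980 c8272 (k4 c4532 c4386 c4353 c878 (k2 c2113 c2170 k0)))))) (by decide +kernel)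
def c8982 : PP 8 4 T 0x800000000000004000002800000000000040000200 := rS 0x31c6eb73f9c59aa347d161b4b65ae56a352392472912f8941ca1334458a9955a6e30793d9155f12358c61218369a4eec3443053a338298cb4200e81d2b161eb9476131f9945602 (k8 c8978 c2138 c1646 c8954 c34 c1062 c4290 c2150 (k8 c4471 c4418 c30 c791 c4466 c231 c842 c4406 (k8 c2173 c966 c1983 c253 c4362 c2042 c845 c958 (k8 c252 c4436 c2144 c1918 c4479 c4346 c418 c1224 (k8 c8981 c4482 c4448 c3852 c8246 c4370 c7287 c4478 (k8 c2902 c8977 c2142 c1375 c2894 c2157 c2161 c1332 (k8 c1059 c4419 c4361 c3926 c4456 c4330 c4453 c852 (k8 c941 c2067 c4135 c5121 c7551 c233 c251 c2113 k0)))))))) (by decide +kernel)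
def c8983 : PP 8 4 T 0x40400451000000000000000000000000045555550000000000000 := rS 0x5eb1a28b7 (k4 c7094 c4470 c2113 c4354 (k1 c4246 k0)) (by decide +kernel)
def c8984 : PP 8 4 T 0x4000002800000000000040000200 := rS 0x4d138d9a6a75dc60867952aa6246b489a472311296840233687404338492c822f658600e7b22ae56a7761c587ae51d8fd10bf1a8348e1324a141c4f (k8 c2174 c8977 c1495 c2161 c34 c1332 c32 c1059 (k8 c8958 c253 c8954 c1062 c4290 c2150 c4471 c4362 (k8 c2042 c4419 c4361 c418 c1224 c30 c252 c3926 (k8 c3945 c3946 c3947 c4436 c2173 c8978 c791 c958 (k8 c793 c4466 c231 c2142 c2144 c2157 c845 c2894 (k8 c1918 c4479 c4345 c4444 c8981 c237 c4482 c4449 (k4 c8982 c6996 c8983 c321 (k2 c2147 c8634 k0)))))))) (by decide +kernel)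
def c8985 : PP 8 4 T 0x1000000000000400455000000000000000014000000045555540000000000200 := rS 0xbc8a3196235 (k4 c1059 c1145 c2113 c4480 (k2 c4246 c4354 k0)) (by decide +kernel)
def c8986 : PP 8 4 T 0x4000002800000000000000000200 := rS 0x4304ac7698e16e7349a7d47103888c56291b96004bb8c10cf2271695c3cc92491dfa0d074149e058492c82cb0c2ccf6455cad4eec38b0f5ca3b098fd10bf (k8 c8958 c253 c8954 c34 c1062 c4290 c2150 c4471 (k8 c4362 c2042 c4419 c4361 c418 c1224 c1185 c252 (k8 c3926 c3946 c3947 c4436 c2195 c2174 c4406 c8977 (k8 c32 c4376 c1332 c2161 c1726 c8984 c1066 c392 (k8 c2154 c8961 c237 c4482 c4449 c8974 c223 c2130 (k8 c795 c2138 c793 c1415 c4468 c4337 c4414 c4413 (k8 c1109 c8560 c8985 c4280 c411 c2133 c4467 c4200 k0))))))) (by decide +kernel)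
def c8987 : PP 8 4 T 0x40000000001000100400102008000000000080004000040014608 := rS 0x1acba692f968ae20309b43a07 (k8 c30 c791 c958 c879 c4466 c799 c231 c1378 (k4 c1961 c840 c581 c8810 k0)) (by decide +kernel)
def c8988 : PP 8 4 T 0x2801400000000000000200 := rS 0x360005a030fa6484788caa59ecda21f51e81a120c180f698d16ec90ac1466050ba2da30925b2c30073d9156a977e8e4223705a157a7761a218e7f372e62c3d728ec263f (k8 c8954 c34 c1062 c4290 c2150 c4471 c4361 c8986 (k8 c1459 c251 c253 c4362 c2042 c1079 c1500 c2251 (k8 c1344 c2307 c1074 c4378 c4360 c4419 c418 c1224 (k8 c30 c252 c3926 c3947 c4436 c179 c1766 c2031 (k8 c2195 c2173 c4406 c141 c1726 c1078 c2113 c7541 (k8 c1330 c1060 c4570 c4473 c1293 c3276 c1291 c4484 (k8 c4395 c8730 c4398 c7904 c4482 c4540 c3841 c8961 (k4 c8987 c246 c4461 c8851 (k1 c8973 k0))))))))) (by decide +kernel)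
def c8989 : PP 8 4 T 0x1000000000000000000000000000020040000000000802000000000000410000 := rS 0x83079f686d3 (k4 c4281 c4421 c1623 c2161 (k2 c4570 c4529 k0)) (by decide +kernel)
def c8990 : PP 8 4 T 0x2800000000000000000200 := rS 0xd8001680c3e99211e232cf54d111e811a20d9a0c07b4d6e4664924febd42bf4dc774bb0d73163d8f47705728448a3f1982c0a1709a2da30925b2d1018 (k8 c252 c253 c3926 c3947 c4436 c179 c1766 c34 (k8 c2031 c2195 c2251 c2173 c8954 c418 c2307 c4290 (k8 c4406 c1062 c2150 c1224 c4471 c4361 c4362 c4360 (k8 c2042 c8986 c4378 c1500 c1079 c1459 c8989 c1726 (k8 c8988 c1078 c4374 c1332 c1603 c1317 c4570 c8928 (k8 c1293 c3276 c4484 c4398 c4400 c7904 c4482 c4540 (k4 c3841 c8961 c8987 c246 (k2 c4461 c8851 (k1 c8973 k0))))))))) (by decide +kernel)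
def c8991 : PP 8 4 T 0x20000000000001000005451155000000000000000000000000000011020000000000000 := rS 0x76bf (k2 c4369 c7902 (k1 c7904 k0)) (by decide +kernel)
def c8992 : PP 8 4 T 0x8000000000000000000000000000000000000000008000002800000000000000000000 := rS 0xd713301a5262656c413e2d33a552ec3828bd565b1488cda331297d46a1328ac040102a6d3aa5415159c3d21c618a7b5cd088e0d5d9e56a755baf596c11fa059ac73fb4c68e52483a12853b818120b20a21fa18 (k8 c252 c4378 c253 c3946 c2251 c8990 c4462 c1023 (k8 c1500 c4436 c1020 c2161 c4290 c1019 c4373 c3427 (k8 c251 c8645 c2044 c8954 c1983 c3926 c3000 c2999 (k8 c1687 c1348 c1959 c1350 c1290 c1603 c4473 c4394 (k8 c1229 c7523 c4482 c4446 c332 c8991 c4400 c4484 (k8 c3847 c4368 c4448 c2195 c8690 c4461 c2138 c1646 (k8 c4423 c4393 c3356 c225 c2173 c958 c1328 c1599 (k8 c494 c3852 c3945 c4406 c4362 c4360 c4418 c5282 (k8 c247 c6233 c4468 c4554 c2110 c4413 c2040 c239 (k2 c4553 c621 (k1 c4479 k0))))))))))) (by decide +kernel)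
def c8993 : PP 8 4 T 0x20000100000001000008050000000040050020000000010400041400804150402000008 := rS 0x531a8d29f89ab4cf09208bcda9d (k8 c4368 c958 c3945 c3946 c4436 c918 c4554 c8713 (k4 c6233 c2040 c4479 c4579 (k1 c3910 k0))) (by decide +kernel)
def c8994 : PP 8 4 T 0x8000002800000000000000000000 := rS 0x2c95ccc1d1625d2a3a3945d9c3d21c618ab33d99572a3408ae84cd11808525b63924025f3f91da6bb5a8381ab75e8d20ae5608fc664f02c2596753c9dc0c09059051018 (k8 c252 c253 c3946 c2251 c8990 c4462 c1023 c1959 (k8 c1687 c3926 c4436 c2195 c2174 c2173 c8954 c1983 (k8 c4290 c4406 c1019 c3000 c2999 c1290 c1020 c1348 (k8 c1350 c4373 c1603 c3427 c3356 c8690 c2161 c251 (k8 c494 c1599 c4461 c1328 c8645 c4473 c2138 c2044 (k8 c4393 c4394 c1646 c1229 c1189 c7523 c4482 c4446 (k8 c332 c8991 c8992 c7172 c4471 c1617 c3001 c8993 (k4 c912 c247 c1017 c656 (k1 c4476 k0))))))))) (by decide +kernel)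
def c8995 : PP 8 4 T 0x2000000800200000000080 := rS 0x2c95cb6660e8056697390542705 (k8 c4406 c34 c141 c4158 c3001 c1042 c911 c912 (k4 c247 c494 c1017 c656 (k1 c4476 k0))) (by decide +kernel)
def c8996 : PP 8 4 T 0x400000040000000000080040000000000000000000000 := rS 0xb257 (k2 c920 c656 (k1 c4476 k0)) (by decide +kernel)
def c8997 : PP 8 4 T 0x1000000000000000000000000000080000022000000000140040000000 := rS 0x888a52401 (k4 c487 c1109 c1599 c4413 (k1 c4468 k0)) (by decide +kernel)
def c8998 : PP 8 4 T 0x1000000000000140000000044000000000000001400001400000154400000008 := rS 0x501704b0d (k4 c4200 c225 c4477 c2110 (k1 c811 k0)) (by decide +kernel)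
def c8999 : PP 8 4 T 0x40000000000000000000000000042800000800000000008000 := rS 0x8a20d02b12f27d4f103508c522789a4cc2020e158b26956a8c566d33b95823f028bd567506bf46a7123a149ec924995861f4b9c8270562afcdebb4ec60f6b30a9e4ee4144424302d03024167f (k8 c1455 c2251 c8990 c4462 c8995 c252 c4436 c253 (k8 c3946 c1023 c1959 c141 c1042 c682 c4482 c4368 (k8 c4449 c8994 c7782 c7523 c4406 c34 c4158 c3001 (k8 c3100 c1047 c3583 c2161 c1726 c2174 c1495 c1332 (k8 c1416 c1329 c4376 c32 c1687 c3852 c3945 c2195 (k8 c8954 c1983 c4290 c8996 c680 c4191 c5380 c4554 (k8 c2040 c8997 c4476 c1017 c1018 c881 c2996 c7130 (k8 c873 c795 c793 c4479 c4468 c3910 c4414 c8998 (k4 c544 c1382 c549 c4480 (k1 c7040 k0)))))))))) (by decide +kernel)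
def c9000 : PP 8 4 T 0x82800000800000000000000 := rS 0x1b62667158a4d6000e98cd2954b9c8270562a76307b59854f27720a22121816818120b (k8 c2251 c8990 c4462 c8995 c252 c4436 c253 c3946 (k8 c1023 c1959 c141 c1042 c682 c4482 c4368 c7523 (k8 c4406 c34 c4158 c3001 c8077 c845 c842 c759 (k8 c494 c2445 c8448 c1641 c8594 c8713 c680 c4479 k0)))) (by decide +kernel)
def c9001 : PP 8 4 T 0x2800000800000000008000 := rS 0x8a20d02b13f1f58c5b5dafe307b392cc261582c2596793b818164144060defd388250a4f (k8 c2174 c1495 c8990 c1416 c4376 c8994 c252 c253 (k8 c3946 c2251 c4462 c1023 c1959 c3926 c4436 c4406 (k8 c141 c34 c1042 c4158 c682 c4482 c7782 c4449 (k8 c9000 c8999 c1352 c251 c1150 c2045 c677 c4480 (k1 c7040 k0))))) (by decide +kernel)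
def c9002 : PP 8 4 T 0x80000400000000000000000000002800000000000000008000 := rS 0x8aa0d62813f1f42acb4293d6e71398ed92497ec157e6f5dc60f6793b818120b20a221218 (k8 c252 c4436 c253 c3946 c2251 c8990 c4462 c1023 (k8 c1959 c682 c4482 c4449 c8994 c7782 c4406 c4376 (k8 c2161 c1726 c9001 c1021 c1416 c8560 c2174 c1495 (k8 c3926 c141 c1352 c251 c2045 c675 c677 c7040 (k1 c4480 k0))))) (by decide +kernel)
def c9003 : PP 8 4 T 0x1001000000000000415415600000000045545400000000000000000000000000000 := rS 0x19d4466aee30bd (k4 c4507 c4482 c4449 c4774 (k2 c4484 c2129 (k1 c4400 k0))) (by decide +kernel)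
def c9004 : PP 8 4 T 0x1000001000000155000014045450000400001100400001400000154402000000 := rS 0x184046a89a4e2109 (k8 c4436 c4468 c4413 c4553 c4479 c1919 c620 c8998 k0) (by decide +kernel)
def c9005 : PP 8 4 T 0x40002800001000040000008000 := rS 0x2266b4980050694fab4ca1717aad2e954da74be2711b499880419348718584546c395fb156e71399ed86b52384d723537a149e770302c827904b2e121845b450e15609b5102d51c1592497e9fd8eb38b0edca3f (k8 c8954 c4290 c9001 c4471 c4358 c9002 c1455 c4376 (k8 c2161 c1726 c4406 c5380 c247 c253 c680 c1983 (k8 c141 c1903 c179 c1766 c252 c4436 c3926 c8990 (k8 c1959 c3946 c2251 c4462 c1023 c2174 c1495 c8994 (k8 c1329 c7514 c34 c1332 c7513 c4362 c682 c1021 (k8 c1416 c8560 c7523 c7782 c240 c2113 c4386 c4480 (k8 c4482 c4446 c324 c1998 c9003 c2044 c8645 c4372 (k8 c4278 c7475 c4368 c4448 c4418 c4360 c3852 c3945 (k8 c2031 c1646 c4554 c6233 c2040 c9004 c1599 c3537 (k2 c492 c4553 (k1 c4479 k0))))))))))) (by decide +kernel)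
def c9006 : PP 8 4 T 0x40002800001000000000008000 := rS 0x64018aa0a05 (k4 c2195 c4406 c9005 c2138 (k2 c4191 c1647 k0)) (by decide +kernel)
def c9007 : PP 8 4 T 0x2800001000000000008000 := rS 0x1483147080006b2d199a4a9661f14e8041ac09b151b1fd8e435dafe30c55b9ed66c38b2d5730572b047e870a8cd16d184aad96793b90510187e8d4de393891c268527b2492731d818120b (k8 c2251 c8990 c4462 c9001 c1021 c2161 c1726 c2174 (k8 c1495 c34 c1332 c1416 c240 c8994 c1329 c4376 (k8 c252 c253 c3946 c1023 c1959 c3926 c3852 c4436 (k8 c179 c1766 c2173 c141 c1903 c8954 c1983 c4290 (k8 c4406 c7514 c7513 c4471 c4362 c4358 c682 c8560 (k8 c7523 c4482 c7782 c4449 c4446 c9002 c1455 c2113 (k8 c4386 c324 c4480 c1998 c9003 c3953 c2045 c2044 (k8 c3338 c8645 c9006 c5282 c661 c494 c495 c625 (k2 c8071 c5804 (k1 c1429 k0)))))))))) (by decide +kernel)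
def c9008 : PP 8 4 T 0x1000000000000000000000000000000040001400000000800002000000000000000 := rS 0x3dc658442 (k4 c332 c333 c4446 c1212 (k1 c4482 k0)) (by decide +kernel)
def c9009 : PP 8 4 T 0x1000000008000000000000000000000000000000015000000000000000 := rS 0x7717 (k2 c4362 c1047 (k1 c4471 k0)) (by decide +kernel)
def c9010 : PP 8 4 T 0x20000001000001000080155000014004050000400001100010041510000154002000080 := rS 0x179602321a6d3aa3 (k8 c4241 c4368 c4448 c4446 c4372 c7644 c9004 c544 k0) (by decide +kernel)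
def c9011 : PP 8 4 T 0x20000101000001000000155001414004050000400105100018041510000155002000080 := rS 0x480896ea1a134d468d49a3c3802 (k8 c1018 c1017 c2763 c2996 c1067 c4241 c9010 c4473 (k4 c4212 c4424 c2110 c7050 (k1 c2766 k0))) (by decide +kernel)
def c9012 : PP 8 4 T 0x20400101000001000000155411414004050000400105100018041510004151002000080 := rS 0x198bd67aa4983486899761c1829cd509 (k8 c4436 c4479 c3910 c1918 c1017 c4449 c9011 c4324 (k4 c873 c356 c974 c6873 (k2 c1039 c7915 (k1 c2063 k0)))) (by decide +kernel)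
def c9013 : PP 8 4 T 0x1001000000000000000000000000000020400000000000802000800000000010000 := rS 0x21498cf (k4 c3734 c372 c685 c4248 k0) (by decide +kernel)
def c9014 : PP 8 4 T 0x4000001000000000000000000000000000000000000000002800000000000000000000 := rS 0x5ea050ab138830fe37699189211228cc9e4b64a0d72c75a8e57e6f36aecd3133aab45e9d8c2ad82c53db0c52250103d3f1049958b22b33accca051687cb6954b9c874e51e9dc82883cc24308b688fc2a1382818120b (k8 c2251 c8990 c4462 c4406 c34 c141 c8954 c179 (k8 c1766 c252 c4436 c1959 c253 c3946 c1023 c9008 (k8 c4290 c4471 c4158 c3001 c8077 c9000 c3100 c8995 (k8 c2195 c3583 c1042 c8996 c4191 c8997 c4476 c2996 (k8 c4487 c4414 c9007 c1018 c224 c795 c9009 c682 (k8 c7523 c1983 c3852 c4482 c4368 c3945 c4554 c1687 (k8 c7130 c2040 c4449 c680 c8994 c7782 c3152 c3540 (k8 c250 c1046 c1999 c1727 c3947 c2174 c2173 c418 (k8 c2307 c9013 c9012 c4374 c1411 c1312 c1603 c497 (k4 c8612 c684 c1293 c6133 (k1 c2122 k0))))))))))) (by decide +kernel)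
def c9015 : PP 8 4 T 0x20600002000001000000045411000400154520405004000000041410004151420000080 := rS 0x1155e1c41ad25009c6a85679dd769d51a7d6281 (k8 c4380 c4304 c4414 c4241 c4368 c4449 c1023 c4579 (k8 c685 c7037 c873 c2110 c4212 c4371 c496 c6225 (k2 c7040 c7666 k0))) (by decide +kernel)
def c9016 : PP 8 4 T 0x4000000000000000000000000000000000000000000000002800000000000000000000 := rS 0x4233c68482388cfa8158975f8a7354404a2947c4d268d4c8083856349655a9d5d8acdabf8c314ce970f9ecb62d5a9c972b332a5474130ac158233278145eab3a9bd8e8307b0c7a770302cf20984a2da24144061ca3f (k8 c8954 c4290 c252 c253 c3946 c179 c1766 c4436 (k8 c8990 c1959 c2251 c4462 c1023 c9008 c9009 c9007 (k8 c1999 c250 c8994 c1687 c3852 c3945 c2195 c2174 (k8 c2173 c1983 c4406 c141 c34 c4471 c8077 c3583 (k8 c1042 c1046 c4158 c3540 c8995 c9000 c682 c3100 (k8 c3001 c8996 c7523 c4482 c7782 c680 c4191 c4449 (k8 c4368 c4554 c8997 c2040 c4476 c1017 c1018 c1071 (k8 c1067 c2996 c7130 c2763 c795 c224 c4487 c4479 (k8 c3910 c9014 c4377 c4304 c4380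 c4379 c792 c1602 (k4 c9015 c1723 c3734 c7037 (k1 c685 k0))))))))))) (by decide +kernel)
def c9017 : PP 8 4 T 0x2000000000000000000000000000000000000000002800000800000000000000 := rS 0x2119e342411c467d40ac4ba3327b1d06b95aa557ebb4ca34de8f0e0941f10148094e6a899d526562c87ce41509a7630ab60b14f6c31e9dcf28b689047f09369a55a2b3396d2eb38b1960a0517b945a060482d1018 (k8 c252 c253 c2251 c8990 c4462 c8995 c4290 c3945 (k8 c2195 c4406 c3583 c9016 c4358 c4360 c9000 c8996 (k8 c4191 c4554 c2040 c680 c4436 c8954 c3946 c179 (k8 c1766 c1959 c1023 c9008 c9009 c682 c7523 c1983 (k8 c3852 c4482 c4368 c34 c141 c4158 c3100 c8997 (k8 c4476 c2996 c1687 c7130 c4479 c3910 c1018 c795 (k8 c4468 c9007 c224 c1017 c2763 c8994 c1067 c1071 (k8 c4449 c7782 c4418 c4419 c4361 c1999 c250 c2174 (k8 c2173 c4377 c4304 c4380 c4379 c792 c1602 c9015 (k4 c1723 c3734 c7037 c685 k0)))))))))) (by decide +kernel)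
def c9018 : PP 8 4 T 0x2800000800000000000000 := rS 0xbd40a156271061fc6ed323125fa9f88094531349808ac692cab4566d338e43e5b169c8ca130ac1422c1228cc9e05258bd567564b1d060f618f516d1728fd72b54ba558abf37aed3b183dace2c793b818120b20a221218 (k8 c252 c4436 c253 c3946 c2251 c8990 c4462 c1023 (k8 c1959 c9016 c4358 c682 c4482 c4368 c4449 c8994 (k8 c7782 c7523 c4418 c4360 c4419 c4361 c8954 c4290 (k8 c179 c1766 c9008 c9009 c9007 c1999 c250 c1727 (k8 c1687 c3852 c3945 c3947 c2195 c2174 c2173 c418 (k8 c1983 c2307 c4406 c141 c34 c3583 c4158 c8995 (k8 c9000 c3100 c3152 c8996 c680 c4191 c4554 c8997 (k8 c2040 c4476 c1018 c2996 c7130 c795 c224 c4468 (k8 c4414 c9017 c9013 c9012 c4374 c1411 c1312 c1603 (k4 c497 c8612 c684 c1293 (k2 c6133 c2122 k0))))))))))) (by decide +kernel)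
def c9019 : PP 8 4 T 0x1000000000000000000000000000000000000000002800800000000000000000 := rS 0xb15ea050a71062dcfe3760a1c2a4b65a0c1ec31ea2da2e51fae56ac55f9bd77183dace2c793b818120b20a221218 (k8 c252 c4436 c253 c3946 c2251 c8990 c4462 c1023 (k8 c1959 c9016 c4358 c682 c4482 c4449 c8994 c7782 (k8 c7523 c4419 c4361 c8954 c4290 c179 c1766 c9008 (k8 c9009 c9007 c1999 c3926 c3947 c141 c1903 c1983 (k8 c1411 c1312 c3543 c1603 c497 c684 c1293 c7175 (k2 c9003 c2122 k0)))))) (by decide +kernel)
def c9020 : PP 8 4 T 0x1001000001000040455551000000000001400000000000001400000000000014000 := rS 0x19c7d5bb341942 (k4 c4473 c4463 c4395 c4424 (k2 c1291 c2129 (k1 c8730 k0))) (by decide +kernel)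
def c9021 : PP 8 4 T 0x1000000000000000000000000000001000000000002800000000140000000000 := rS 0x2266b4980050694f9b55a675185c262f55a5d2a9b4e89c465f402dce20d649cc77053fac1a44926af48ebb5f9bd8ac70890e3083079149e7b59b0c7ae55aae62c770302c827904b2e121845b450e15608fd1065 (k8 c1646 c253 c8954 c1983 c141 c1903 c179 c1766 (k8 c252 c4436 c3926 c8990 c1959 c3946 c2251 c4462 (k8 c1023 c9016 c4361 c4419 c4290 c9008 c9009 c4358 (k8 c682 c2174 c418 c9007 c1999 c4482 c4446 c2307 (k8 c250 c7523 c8994 c7782 c4449 c9019 c4507 c4248 (k8 c372 c9020 c7644 c674 c4406 c9018 c1021 c1727 (k8 c4371 c496 c8560 c9003 c7475 c4372 c4278 c4368 (k8 c4448 c4418 c4360 c3852 c3945 c34 c2031 c4241 (k8 c4555 c4554 c680 c6233 c2040 c9004 c1599 c3537 (k2 c492 c4553 (k1 c4479 k0))))))))))) (by decide +kernel)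
def c9022 : PP 8 4 T 0x2800000000200000000000 := rS 0x2d9980213030241716 (k8 c9016 c2251 c8990 c4462 c34 c911 c247 c494 (k1 c5282 k0)) (by decide +kernel)
def c9023 : PP 8 4 T 0x20000000000000800000000080002000010 := rS 0x1b4d6af1800da309 (k8 c4436 c179 c2138 c292 c1774 c1919 c681 c7393 k0) (by decide +kernel)
def c9024 : PP 8 4 T 0x1000000000000000000000000000000000000000002800000000000000000000 := rS 0x50c92d33f339628423b948a3f27b1d060f1ea2da2438c1ed67163c9dc0c0905906122d15a203005 (k8 c2195 c252 c253 c9023 c9022 c4436 c3946 c2251 (k8 c8990 c4462 c1023 c1959 c9016 c4358 c682 c4482 (k8 c4446 c179 c1766 c9008 c9007 c1999 c250 c2174 (k8 c8954 c418 c4290 c9019 c9021 c2668 c685 c684 (k4 c7644 c1790 c4392 c4473 k0))))) (by decide +kernel)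
def c9025 : PP 8 4 T 0x400000000008001000000000000090015004014045400000000401500000100155400500000000010 := rS 0x10d492a5e1124c8c52e95 (k8 c4418 c4360 c7393 c8246 c4479 c8293 c4345 c7641 (k2 c5264 c7994 k0)) (by decide +kernel)
def c9026 : PP 8 4 T 0x2000000000002800000000000000000000 := rS 0x295380a266a11b4a86495b9f99acea284ca34b60914664f55b2d863f6290d369d8c1ed67161da8d8e0f1e9dc0c0b209e4130945b44da69568bc8e9f3ebf0cee50a8b4ca2b440600b05 (k8 c4406 c2195 c252 c253 c9023 c1646 c9022 c141 (k8 c4290 c4555 c9024 c4379 c6237 c1602 c3945 c4554 (k8 c2040 c680 c179 c1766 c4436 c8990 c1959 c3946 (k8 c2251 c4462 c1023 c9008 c9007 c250 c4241 c9018 (k8 c9016 c4358 c682 c4482 c4368 c4448 c4446 c7523 (k8 c8954 c9009 c3926 c3852 c2174 c2173 c418 c1983 (k8 c4456 c148 c34 c4397 c685 c1482 c684 c7551 (k8 c1790 c4392 c4473 c4372 c9025 c4442 c1919 c3910 (k2 c795 c4579 k0))))))))) (by decide +kernel)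
def c9027 : PP 8 4 T 0x1002000000000080010000400000000005405144000000800014000000000000080 := rS 0x5e1c41ae521c60eeb1 (k8 c4304 c1023 c4482 c4446 c4290 c4371 c496 c6225 (k1 c7650 k0)) (by decide +kernel)
def c9028 : PP 8 4 T 0x8001000000000000000015000014001400020000440440000000000000000000000000 := rS 0x6388a495f124ca54da69 (k8 c2040 c680 c4418 c8246 c4479 c4346 c7641 c7287 (k2 c1608 c4794 k0)) (by decide +kernel)
def c9029 : PP 8 4 T 0x2800000000000000000000 := rS 0xa952a4628cfa1c30902747a65268d880704223128a43ea71800a266a1aa148e393e98502b12ebf15a67518ac5a731da7536435dafe30c53da552eb559ae62cc341b1c1e3d379dcf20604b2d562f20c2516880c014164f19b0696e56884c2a3f (k8 c8954 c141 c34 c179 c4290 c4456 c1983 c2173 (k8 c2174 c2251 c2195 c252 c253 c1766 c4436 c3946 (k8 c3945 c3852 c3926 c8990 c4462 c1959 c1023 c8994 (k8 c9008 c9007 c250 c1999 c9009 c9016 c4361 c4358 (k8 c4419 c4360 c4418 c682 c7523 c4482 c7782 c4449 (k8 c4446 c4448 c4368 c9018 c1021 c9022 c9023 c4241 (k8 c4555 c4554 c9024 c4377 c4304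 c4380 c4302 c4379 (k8 c1137 c1602 c9026 c7037 c9028 c4442 c1919 c1918 (k8 c3910 c222 c795 c224 c792 c316 c4466 c4468 (k8 c1027 c1029 c1031 c2763 c873 c9015 c7307 c4421 (k4 c1790 c4209 c4328 c4385 (k2 c7105 c7469 k0)))))))))))) (by decide +kernel)
def c9030 : PP 8 4 T 0x20000002001000000040000000000000000000004410000000040000000000000800080 := rS 0x13472bc41ac4f285 (k8 c523 c4447 c4304 c4306 c6225 c1137 c1990 c7460 k0) (by decide +kernel)
def c9031 : PP 8 4 T 0x10000000000000000000000000000000000000006000800000000000000400000000480 := rS 0x4e88536564c964b713 (k8 c4442 c2445 c7034 c1929 c4476 c1969 c799 c4645 (k1 c4488 k0)) (by decide +kernel)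
def c9032 : PP 8 4 T 0x10000000000000000000000000000000000000000000800000000050000000020000210 := rS 0x0 (k2 c1058 c4651 k0) (by decide +kernel)
def c9033 : PP 8 4 T 0x40400000000000000000000000000004400810000000000000000000000000000000000000000000000 := rS 0x19b45 (k2 c4399 c1485 (k1 c4495 k0)) (by decide +kernel)
def c9034 : PP 8 4 T 0x40000080000000000000000000000000004000140000000000000 := rS 0x6b15 (k2 c4390 c1309 (k1 c4470 k0)) (by decide +kernel)
def c9035 : PP 8 4 T 0x40000500100000000001505404000000004000040000000000080 := rS 0x2e87271 (k4 c497 c1137 c2122 c9034 k0) (by decide +kernel)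
def c9036 : PP 8 4 T 0x100000000000000100000600000000000000000000000002000000000000010000 := rS 0xfefd (k2 c4304 c674 (k1 c8735 k0)) (by decide +kernel)
def c9037 : PP 8 4 T 0x40000440100000000001505404000000000010040000000000080 := rS 0x1ac54e239 (k4 c1137 c497 c7040 c7037 (k1 c4470 k0)) (by decide +kernel)
def c9038 : PP 8 4 T 0x40000000000000000000800000000000010000000000000014000 := rS 0x1afd (k2 c4306 c509 (k1 c4463 k0)) (by decide +kernel)
def c9039 : PP 8 4 T 0x40000000000000001000000020000060000000050000400010000 := rS 0x861791b15 (k4 c4387 c1386 c536 c7017 (k1 c4382 k0)) (by decide +kernel)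
def c9040 : PP 8 4 T 0x800100000000000000000020010 := rS 0x601 (k2 c2593 c343 (k1 c4461 k0)) (by decide +kernel)
def c9041 : PP 8 4 T 0x40000000000000000000000001000000000000000000000000000000800000500000000040000000002 := rS 0x68bc46016 (k4 c492 c493 c4431 c300 (k1 c4475 k0)) (by decide +kernel)
def c9042 : PP 8 4 T 0x1000000000000000000000000022000000000000002000000000004800000 := rS 0x4d6592d0745 (k4 c4397 c185 c1320 c2024 (k2 c1990 c4599 k0)) (by decide +kernel)
def c9043 : PP 8 4 T 0x1000000040000440100000000001505414000000050000000000000000080 := rS 0x17839 (k2 c1137 c2122 (k1 c7460 k0)) (by decide +kernel)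
def c9044 : PP 8 4 T 0x1000000040000440100400000001505404000000040000048000400000080 := rS 0x9186a3d1a9d5409868bc26454e239 (k8 c1137 c497 c7040 c9043 c2122 c4470 c376 c377 (k4 c3024 c1120 c1305 c4324 (k2 c978 c4486 k0))) (by decide +kernel)
def c9045 : PP 8 4 T 0x10000000000000000000000000000001000000000000200000000000000400024080 := rS 0x11f15468d1606f (k4 c1020 c608 c609 c1337 (k2 c4350 c1305 (k1 c4486 k0))) (by decide +kernel)
def c9046 : PP 8 4 T 0x44044000000100000202002002000000200004008 := rS 0xb94aa351eb32b0e414078688d6e26069f020913fa85fa1582b268609 (k8 c235 c4421 c1727 c4406 c141 c4377 c811 c1457 (k8 c2790 c8735 c4483 c112 c342 c3568 c793 c4324 (k8 c9045 c4462 c2319 c303 c662 c847 c7053 c803 (k2 c5280 c5931 k0)))) (by decide +kernel)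
def c9047 : PP 8 4 T 0x40000000000000000000002000000000400000000000000001100000000000402000000000005415000 := rS 0x66d1498d125a0da64f (k8 c453 c4281 c4570 c4434 c4298 c2108 c4451 c2062 (k1 c4573 k0)) (by decide +kernel)
def c9048 : PP 8 4 T 0x2000800000000000000400000000080 := rS 0x2cf719 (k4 c4447 c183 c83 c9031 k0) (by decide +kernel)
def c9049 : PP 8 4 T 0x1000000000000000400000000020000000000002000002000000000000440 := rS 0x433a020e7051f864a717 (k8 c4416 c9029 c2038 c8954 c4314 c1615 c4462 c4481 (k2 c236 c6057 k0)) (by decide +kernel)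
def c9050 : PP 8 4 T 0x2000002000080000000008 := rS 0x6700c145b11 (k4 c4411 c143 c4406 c28 (k2 c918 c5433 k0)) (by decide +kernel)
def c9051 : PP 8 4 T 0x100000000000000000000000000000000000000010040000002000000000000102 := rS 0x56 (k2 c8472 c751 k0) (by decide +kernel)
def c9052 : PP 8 4 T 0x100000042000002000080000000000 := rS 0x6602004ca03048560b11 (k8 c4411 c4406 c141 c235 c9050 c1647 c9051 c4461 (k2 c5433 c654 k0)) (by decide +kernel)
def c9053 : PP 8 4 T 0x80000000000000000000000000002041100000000000000 := rS 0x6b15 (k2 c4390 c1310 (k1 c4209 k0)) (by decide +kernel)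
def c9054 : PP 8 4 T 0x1110000005400000000004000a000000000004080020600 := rS 0x4551eb751a451a38389f04a5f (k8 c543 c2211 c347 c582 c344 c1068 c1154 c1354 (k4 c1627 c801 c4348 c7468 k0)) (by decide +kernel)
def c9055 : PP 8 4 T 0x400000001500000000108040000040402015010001 := rS 0x960d (k2 c1368 c1374 (k1 c4119 k0)) (by decide +kernel)
def c9056 : PP 8 4 T 0x40000000000000000800000000000018000000000000000014020 := rS 0x7e834b85f (k4 c1426 c800 c528 c4377 (k1 c4463 k0)) (by decide +kernel)
def c9057 : PP 8 4 T 0x4000000000000000000011140900000000020104414000000012000000000000014000 := rS 0x8541b3da74b (k4 c4457 c4281 c1791 c9038 (k2 c685 c5956 k0)) (by decide +kernel)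
def c9058 : PP 8 4 T 0x1000000000000000000000000000001000000001000024000008000000002000 := rS 0xbf0d2eaa04c23 (k4 c955 c376 c377 c1287 (k2 c4324 c1505 (k1 c4477 k0))) (by decide +kernel)
def c9059 : PP 8 4 T 0x21000000000000000000000500001401101500000000000000000000000000000000000 := rS 0x1490c (k2 c4486 c7959 (k1 c4385 k0)) (by decide +kernel)
def c9060 : PP 8 4 T 0x2000200000000000000000000000000080015000000000000000 := rS 0x3918cc2 (k4 c2068 c1479 c9009 c4289 k0) (by decide +kernel)
def c9061 : PP 8 4 T 0x100000000000000100004500000000000010104020404000000000000000000000 := rS 0x702c1ccfe5b (k4 c578 c554 c1649 c4476 (k2 c5124 c536 k0)) (by decide +kernel)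
def c9062 : PP 8 4 T 0x20000200000000000000004000400000000044000500000000000000000000000000000 := rS 0x112733d9e58ac1 (k4 c4450 c4370 c4447 c4366 (k2 c4408 c4314 (k1 c2123 k0))) (by decide +kernel)
def c9063 : PP 8 4 T 0x400000000000000000000000000004020054100000000001505414000000000000000000000000000 := rS 0x5fb2d7b4b (k4 c4429 c1176 c1756 c9033 (k1 c2122 k0)) (by decide +kernel)
def c9064 : PP 8 4 T 0x45580000000000000000000544000005550400000000 := rS 0x19a4ca189c4acf (k4 c1523 c1464 c934 c4393 (k2 c2111 c4525 (k1 c7781 k0))) (by decide +kernel)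
def c9065 : PP 8 4 T 0x2000000000010000000000800000000020005000000000000a00000800 := rS 0x1f8e25f58834de580796c08730180426c70e87e2a34 (k8 c833 c4388 c86 c85 c4289 c4401 c2539 c303 (k8 c1649 c4461 c575 c2255 c311 c1346 c2495 c7007 (k4 c1295 c1303 c4907 c554 k0))) (by decide +kernel)
def c9066 : PP 8 4 T 0x2000000000010000000000800000000020001000000000000a00000800 := rS 0x56 (k2 c9065 c2775 k0) (by decide +kernel)
def c9067 : PP 8 4 T 0x2000000000000000000010000000000020001000000000000a00000800 := rS 0x1708e (k2 c832 c9066 (k1 c1476 k0)) (by decide +kernel)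
def c9068 : PP 8 4 T 0x1000000000040000000002000000000000000200000000000000000404004000 := rS 0x8835085c (k4 c826 c827 c1287 c710 (k1 c4463 k0)) (by decide +kernel)
def c9069 : PP 8 4 T 0x20001000000000040000000002000000000000801100000000000000000200404000 := rS 0x1041142808d4568489cbf13 (k8 c4345 c4382 c4324 c4438 c7751 c4479 c798 c562 (k2 c342 c5323 (k1 c4570 k0))) (by decide +kernel)
def c9070 : PP 8 4 T 0x400000000000000001002002000000000000046000000004050000800000000000001450001000000 := rS 0x10564b3916ac66d154e3368944a62d (k8 c4286 c4290 c4435 c4298 c4294 c191 c4398 c1484 (k4 c2112 c565 c6601 c1792 (k2 c5546 c4483 k0))) (by decide +kernel)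
def c9071 : PP 8 4 T 0x80080000000800000020000000000000000000000000 := rS 0x33d14ad (k4 c193 c1776 c1524 c645 k0) (by decide +kernel)
def c9072 : PP 8 4 T 0x1002002000000000000006080000004850000820001000000000440001440000 := rS 0x2b5103045abe866333c4436d1288a4a615 (k8 c4284 c4290 c1566 c4435 c4298 c4292 c4412 c151 (k8 c67 c4393 c9071 c565 c9070 c2109 c2046 c4794 k0)) (by decide +kernel)
def c9073 : PP 8 4 T 0x1002002000000000000006004000004840000820001000000000041401440000 := rS 0x45a259ead2428d422f0db44a227199f45253238b42ac7 (k8 c4289 c4284 c4286 c4404 c4290 c1566 c1650 c4294 (k8 c974 c4435 c4298 c4292 c786 c7768 c9072 c2110 (k4 c948 c1790 c557 c645 (k1 c2109 k0)))) (by decide +kernel)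
def c9074 : PP 8 4 T 0x500000002001000000000000040000000004000000800001000000000100001140000 := rS 0x56949121b0bb44a28b (k8 c565 c4435 c4298 c4431 c4292 c7030 c2109 c2048 (k1 c4179 k0)) (by decide +kernel)
def c9075 : PP 8 4 T 0x1000000000000000000000000000000000004000800000000080000400001000400 := rS 0x63c1dc1319 (k4 c4446 c236 c3829 c4482 (k2 c4462 c9048 k0)) (by decide +kernel)
def c9076 : PP 8 4 T 0x8000008000000000000000000000000010000040100000000 := rS 0xe87d3096 (k4 c1947 c1946 c1194 c1031 (k1 c4466 k0)) (by decide +kernel)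
def c9077 : PP 8 4 T 0x40000000000000000002000000800000000000000005000000008 := rS 0x10d11978ba69 (k4 c69 c1498 c562 c792 (k2 c4382 c4467 k0)) (by decide +kernel)
def c9078 : PP 8 4 T 0x40000000000020001000000000000000004000000000000054004540000000000000000000000000000 := rS 0x599e58ac1 (k4 c4450 c4370 c4447 c7658 (k1 c2123 k0)) (by decide +kernel)
def c9079 : PP 8 4 T 0x40000000000000001000000002000000000000000000000014000200800040000012000000000000008 := rS 0x20af04585cb20a0c82462200e87c3605899a4db175681c2693 (k8 c1657 c4401 c498 c2048 c4416 c181 c69 c4442 (k8 c55 c423 c2131 c791 c4466 c6830 c231 c1918 (k4 c4462 c534 c573 c7773 (k2 c4465 c5546 (k1 c4485 k0))))) (by decide +kernel)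
def c9080 : PP 8 4 T 0x4020000000002000040000004000000044000000000000000000000080040400000000 := rS 0xa2881252a296389d2225 (k8 c4381 c4328 c4324 c4289 c4402 c8630 c323 c4487 (k2 c7771 c4337 k0)) (by decide +kernel)
def c9081 : PP 8 4 T 0x400000000000000040000440100400000001505404000000000000140400410000080 := rS 0x138683278c548071 (k8 c497 c9037 c7040 c4433 c8691 c4470 c9044 c1491 k0) (by decide +kernel)
def c9082 : PP 8 4 T 0x400000000000000000000000010080000020800000040000000000000000000000000 := rS 0x111 (k2 c4337 c5335 k0) (by decide +kernel)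
def c9083 : PP 8 4 T 0x20100000002000040000505000000040400801144000000001100140040400000008 := rS 0x2090de2d12605982c32783e2c34598f5729588a88a6471d9447e2963a34ce2da292c2227 (k8 c4324 c342 c1855 c4452 c4286 c918 c4383 c4289 (k8 c4402 c4288 c4405 c4403 c4404 c4290 c7771 c4337 (k8 c858 c6781 c7465 c7239 c2113 c4481 c1329 c1491 (k8 c4362 c4420 c4570 c9038 c7073 c4431 c1950 c1994 (k1 c6159 k0))))) (by decide +kernel)
def c9084 : PP 8 4 T 0x400000000000000040000000000000000000800000000000000000001004000004008 := rS 0x66f1260585e11 (k4 c342 c8877 c4570 c9038 (k2 c4431 c376 (k1 c4469 k0))) (by decide +kernel)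
def c9085 : PP 8 4 T 0x20100000002000040000400100000040000801004000000000000040040400008088 := rS 0x28a206531951904848a851a9f338b51e395baf56b1438bf4ea13398ec8a7b (k8 c642 c1217 c4403 c1021 c4401 c498 c4306 c588 (k8 c4480 c4389 c4354 c4353 c4348 c4388 c4286 c918 (k8 c4384 c4383 c4329 c4328 c9083 c243 c242 c1728 (k4 c1646 c4478 c8577 c4337 k0)))) (by decide +kernel)
def c9086 : PP 8 4 T 0x20000000002000040000400100000040000801004000000000000040040400008088 := rS 0x3d5ca5622a22495608471d8fc52c7468444e8f1cadd6b1438bf41a35 (k8 c1329 c32 c4306 c588 c4480 c4389 c4353 c4348 (k8 c4388 c4324 c342 c4383 c4289 c4402 c4288 c4403 (k8 c4404 c9085 c4406 c4199 c7771 c4337 c858 c6781 (k2 c7465 c2113 k0)))) (by decide +kernel)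
def c9087 : PP 8 4 T 0x420000000002000040000400100000000000801004100000000000040000600000088 := rS 0x1e150540e18a5c5a273a84cb601 (k8 c28 c494 c4401 c498 c4324 c4286 c926 c6830 (k4 c9084 c9086 c226 c314 (k1 c9052 k0))) (by decide +kernel)
def c9088 : PP 8 4 T 0x2420000000002000000000004100000000000841154000000000000001080020000008 := rS 0x9d1993d58ab6622116cf51320fa8782b052ec35c8f566642a458c69150a353ea502d14d2a75db1cce013b9592a931da6c5e8f4c9ed7ab5 (k8 c4389 c4354 c642 c1032 c2763 c8877 c764 c4403 (k8 c1029 c2764 c790 c2003 c28 c5084 c4289 c4898 (k8 c4330 c2000 c4452 c55 c4385 c4384 c4383 c4329 (k8 c4328 c1607 c7194 c226 c227 c1188 c4416 c4361 (k8 c4362 c4360 c4420 c4406 c1653 c1650 c5124 c2125 (k8 c3735 c645 c8512 c637 c1945 c9082 c1479 c437 (k2 c946 c8824 k0))))))) (by decide +kernel)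
def c9089 : PP 8 4 T 0x4020001000002000000000000000000000000040040000002000000000040420000008 := rS 0x12546c93141542010889c52c7 (k8 c4289 c4402 c4324 c342 c28 c4329 c4406 c5134 (k4 c1728 c819 c8735 c7771 k0)) (by decide +kernel)
def c9090 : PP 8 4 T 0x400000001002000000000000440000000014000001100000000000001000104000088 := rS 0x420c8c85e5b0584ca2731d8703e01 (k8 c28 c1098 c4466 c4403 c1021 c4405 c4401 c302 (k4 c838 c8877 c4469 c255 (k2 c6802 c6257 k0))) (by decide +kernel)
def c9091 : PP 8 4 T 0x420200000002000000000000000000000000800000000000000000001040100008088 := rS 0x1161935425e0af511259a5544a1d66fd0d8444e6d309a54e0d1180452c7 (k8 c4289 c4402 c28 c1328 c32 c4330 c2000 c4326 (k8 c640 c4324 c342 c638 c4306 c4312 c4410 c4314 (k8 c4406 c2064 c4199 c7771 c989 c9090 c5422 c4479 (k2 c1918 c565 (k1 c5546 k0))))) (by decide +kernel)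
def c9092 : PP 8 4 T 0x400100000002000000000000100080000010801004000000000000001000100000088 := rS 0x8cbc114c534b052ec31ea9e2cd359abd90cda29dc1275099cc36931da6c5e6d3d89d23147e9c4381f88d0c4ac7439f4ce01 (k8 c28 c5084 c1354 c2005 c4289 c1463 c4393 c4337 (k8 c1098 c4466 c588 c4306 c4480 c4352 c872 c642 (k8 c2963 c8877 c764 c4403 c1029 c2621 c1021 c4401 (k8 c498 c30 c2003 c4452 c2064 c8144 c989 c634 (k8 c6712 c4481 c4558 c4416 c4362 c4360 c4420 c2000 (k4 c8820 c8512 c9090 c5577 (k1 c4632 k0))))))) (by decide +kernel)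
def c9093 : PP 8 4 T 0x400100000002000000000000100080000000801004000000000000001000100000088 := rS 0xcc543209a7f2f88d4e0e06b4c9e17780cd5eac0ca204a2f298b58e6752984961113a4628fd388703e01 (k8 c28 c1098 c4466 c588 c4306 c4480 c4352 c872 (k8 c608 c1855 c2883 c1937 c5084 c4289 c4286 c4290 (k8 c8877 c1463 c9092 c2038 c9082 c193 c942 c4469 (k8 c4431 c4297 c5695 c508 c4570 c4558 c793 c3438 (k4 c1455 c244 c5380 c4639 (k2 c637 c1484 k0)))))) (by decide +kernel)
def c9094 : PP 8 4 T 0x100000002000002000000000040001020800000000000004000001000100000088 := rS 0xcc462553bc01ad32faa4d24d6413c5f457e94d8e093a84d4a61138703e01 (k8 c28 c1098 c4466 c872 c2883 c1937 c4401 c498 (k8 c30 c4289 c4290 c4306 c4452 c8877 c1479 c2065 (k8 c2062 c3976 c1483 c2512 c6712 c506 c4474 c4532 (k4 c225 c793 c4294 c2111 k0)))) (by decide +kernel)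
def c9095 : PP 8 4 T 0x420000000002000000000000100040000000841144000000001000001000420000008 := rS 0x2b14b1d6e2748c51fa71 (k8 c588 c4306 c4480 c4352 c872 c4353 c4289 c4402 (k2 c9088 c7771 k0)) (by decide +kernel)
def c9096 : PP 8 4 T 0x400000002002000000100000100040000100801144000000000000101000021010008 := rS 0x10d7e9d53178490d24934fe35118381ad32093c2ec75da6c8a2f258dd7a2748c51fa71 (k8 c588 c4306 c4480 c4352 c872 c4354 c4386 c1855 (k8 c8877 c1220 c764 c1976 c4289 c4431 c4297 c4433 (k8 c5695 c508 c4570 c793 c8124 c1455 c244 c243 (k8 c9095 c4467 c225 c549 c906 c5760 c4567 c2114 k0)))) (by decide +kernel)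
def c9097 : PP 8 4 T 0x400100000002000000000000100000000020801004000000000000001000100000088 := rS 0x4986039a623158949a69193c592cd558650e2f298a58e673a84ce63b468e4aca53092c222748c51fa710e07c02a3 (k8 c9093 c28 c1098 c4466 c588 c4306 c4480 c4352 (k8 c872 c608 c1855 c2883 c1937 c790 c3151 c2995 (k8 c4403 c1021 c4401 c498 c5084 c4289 c4402 c4290 (k8 c8877 c156 c2038 c1945 c9094 c637 c9096 c4469 (k8 c2810 c376 c435 c437 c955 c6832 c9038 c4467 (k2 c243 c7771 k0)))))) (by decide +kernel)
def c9098 : PP 8 4 T 0x400100000002000040100000100040000100841144000000000000101000020010008 := rS 0xcbc09a5e12434922f118384e918a3f4e201 (k8 c28 c588 c4306 c4480 c4352 c872 c9084 c1328 (k8 c8877 c8735 c9095 c4467 c225 c2135 c6467 c1998 (k1 c9096 k0))) (by decide +kernel)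
def c9099 : PP 8 4 T 0x400100000002000040000000100040000100841144000000000000101000020010008 := rS 0x4344aa02425c7ab98b2cd3ec81a88c1c01238fd8e56498ecc28f1badd6a2748c51fa71 (k8 c588 c4306 c4480 c4352 c872 c4389 c4353 c4386 (k8 c2763 c2883 c4403 c1029 c790 c4289 c4288 c4404 (k8 c28 c9084 c1328 c1329 c9098 c1665 c634 c4481 (k8 c5280 c4416 c4360 c2113 c7050 c2134 c4329 c4467 k0)))) (by decide +kernel)
def c9100 : PP 8 4 T 0x400100000002000000000000100000000000801004000000000000001000100000088 := rS 0x13c651597e1b1764bc44649691fd12a3028bc8e2d14b1cce75099cc7661468e4ac1113a4628fd388703e01 (k8 c28 c1098 c4466 c588 c4306 c4480 c4352 c872 (k8 c608 c790 c3151 c2995 c2883 c4403 c1021 c4401 (k8 c498 c5084 c4289 c4402 c4286 c4404 c8877 c55 (k8 c9093 c9097 c676 c9099 c4281 c4372 c5695 c6281 (k4 c4963 c9095 c6467 c7194 (k2 c6291 c8998 (k1 c6233 k0))))))) (by decide +kernel)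
def c9101 : PP 8 4 T 0x400000000002000080000000000000000004000000000000000000001400004000000 := rS 0xc8d0f1 (k4 c5695 c6832 c4469 c823 k0) (by decide +kernel)
def c9102 : PP 8 4 T 0x400000000002000000000000100000000000801004000000000000001000100000088 := rS 0xca2de04d2f0921a230734c565543c104e918a0bdfa710d8703e01 (k8 c28 c1098 c4466 c2621 c588 c4306 c8877 c4480 (k8 c4352 c872 c9100 c4410 c4406 c226 c9101 c9084 (k8 c1328 c9091 c4467 c225 c2135 c6467 c2515 c1998 (k1 c5546 k0)))) (by decide +kernel)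
def c9103 : PP 8 4 T 0x400000000002000000000000000000000000801004000000000000001000100000088 := rS 0x400bc24648678b48470d1289d205c1aac072560e06c3e05008bca277 (k8 c2003 c4405 c8877 c28 c55 c1098 c2621 c4466 (k8 c790 c3151 c9102 c3018 c1148 c1147 c873 c1336 (k8 c4328 c769 c4467 c5695 c9101 c4469 c4440 c1836 (k2 c953 c8238 k0)))) (by decide +kernel)
def c9104 : PP 8 4 T 0x800000000000000000008000002000000 := rS 0x1c4c (k2 c1998 c1999 (k1 c2162 k0)) (by decide +kernel)
def c9105 : PP 8 4 T 0x800000000000000000000000008000008 := rS 0x9c10 (k2 c638 c639 (k1 c2413 k0)) (by decide +kernel)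
def c9106 : PP 8 4 T 0x2000000000000000014000008800000900000000000000004402000008 := rS 0x15925466232b260a817e8544a4c238b45267009fd8e0e (k8 c1999 c4289 c1455 c28 c5084 c4402 c4286 c4404 (k8 c1998 c2135 c2353 c4306 c127 c4410 c1733 c1653 (k4 c1925 c5380 c243 c227 (k1 c7230 k0)))) (by decide +kernel)
def c9107 : PP 8 4 T 0x1000001002000010004000000000400000004000800040100110000000180000018 := rS 0x3d2b94c763f (k4 c4288 c4403 c4290 c1066 (k2 c2131 c6562 k0)) (by decide +kernel)
def c9108 : PP 8 4 T 0x21100001002000050000000000040400014004000800040100110000044500008018 := rS 0x5cadd66373a8e51e064a9647a1c0fa4d2ec388528ca635a951904848a851a9f238ec5a2933804fec7 (k8 c4289 c1455 c28 c5084 c4402 c4286 c4403 c4404 (k8 c4384 c4383 c4329 c4328 c4200 c243 c242 c3635 (k8 c1728 c1646 c4151 c4478 c4459 c4336 c4413 c9107 (k8 c4466 c5184 c1026 c2764 c791 c2763 c1140 c499 (k4 c322 c5025 c7094 c5280 (k1 c2125 k0)))))) (by decide +kernel)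
def c9109 : PP 8 4 T 0x1100001002000011000000000080400014044000800040100110000000100400018 := rS 0x60458f2773a9cd660649964381f61b1694644598d5f11098ecce01 (k8 c28 c5084 c4403 c4401 c4337 c989 c819 c565 (k8 c4478 c4485 c4429 c4459 c9107 c4466 c1026 c1029 (k8 c791 c552 c1648 c498 c1023 c500 c4481 c2123 (k1 c4420 k0)))) (by decide +kernel)
def c9110 : PP 8 4 T 0x1000000000000000000000000004000000040040500004402080000000018 := rS 0x324440269 (k4 c1879 c28 c4411 c227 (k1 c6563 k0)) (by decide +kernel)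
def c9111 : PP 8 4 T 0x21100001002000051000000000000400014004000800040100110000044500408018 := rS 0x28cfec7 (k4 c4289 c1455 c9109 c9108 k0) (by decide +kernel)
def c9112 : PP 8 4 T 0x501200000000000000000000050000000044004000000040000010000000000440080 := rS 0x230c33c9dceab3 (k4 c4312 c498 c1023 c500 (k2 c5849 c4482 (k1 c9062 k0))) (by decide +kernel)
def c9113 : PP 8 4 T 0x1000001002000000000000000000000000800000000000000000002000002000008 := rS 0x308ee570f0740e8b57c4544492aace082b44a1ccec7148fc761329bf4a2416684502d122c4cb6013d82c369b569a8426902a853f0c13839a6252608c1a17 (k8 c35 c508 c793 c1998 c2135 c6833 c1999 c2156 (k8 c4467 c4384 c4329 c2192 c1879 c6830 c229 c3957 (k8 c3875 c171 c2248 c8429 c28 c5527 c4441 c2163 (k8 c2164 c127 c349 c3975 c3900 c3901 c4306 c4290 (k8 c4401 c4403 c4288 c4402 c4289 c5084 c9106 c2038 (k8 c9110 c9111 c4312 c4406 c4199 c7771 c4337 c989 (k8 c565 c9112 c791 c4466 c1066 c8951 c9107 c5849 k0))))))) (by decide +kernel)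
def c9114 : PP 8 4 T 0x8000000044000000000000000000021400050154400000008 := rS 0x228bc1cb298d0c5b8959ad3 (k8 c4282 c2063 c2135 c1168 c4467 c4200 c413 c411 (k2 c2028 c4470 (k1 c4354 k0))) (by decide +kernel)
def c9115 : PP 8 4 T 0x1000000000000000002008000024000000000 := rS 0xa0 (k2 c1720 c7721 k0) (by decide +kernel)
def c9116 : PP 8 4 T 0x2000001000000040000000014000000040000014500000000000140000100000 := rS 0x61 (k2 c4302 c8715 k0) (by decide +kernel)
def c9117 : PP 8 4 T 0x40000000100000000000000000000080000000000004000020202 := rS 0x23c7060 (k4 c606 c344 c849 c7422 k0) (by decide +kernel)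
def c9118 : PP 8 4 T 0x8080000002 := rS 0xbc25 (k2 c115 c7417 (k1 c489 k0)) (by decide +kernel)
def c9119 : PP 8 4 T 0x880000000040004000000202 := rS 0xd31cc546a0c461c0de57 (k8 c92 c1378 c576 c577 c488 c1059 c4387 c1114 (k2 c4371 c4470 k0)) (by decide +kernel)
def c9120 : PP 8 4 T 0x40000000000000000200000000000000000000010005000000000 := rS 0x470d (k2 c4383 c1297 (k1 c4467 k0)) (by decide +kernel)
def c9121 : PP 8 4 T 0x1000040040000000044000000050000055500001000000004000010000 := rS 0x142c9 (k2 c8024 c4212 (k1 c2118 k0)) (by decide +kernel)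
def c9122 : PP 8 4 T 0x80004000000000400020000100000 := rS 0x2705 (k2 c4408 c1560 (k1 c8448 k0)) (by decide +kernel)
def c9123 : PP 8 4 T 0x400000002000000000000140000000400100000000000000010000150000080000000 := rS 0x2757c452093c9643 (k8 c277 c4434 c4297 c4433 c4296 c2114 c1232 c5760 k0) (by decide +kernel)
def c9124 : PP 8 4 T 0x1000000000000000000000000000000800000000000010000000005000000 := rS 0x2f09 (k2 c4438 c1832 (k1 c4465 k0)) (by decide +kernel)
def c9125 : PP 8 4 T 0x1000000000000000000008000000000000000000000400140000000000 := rS 0x5311 (k2 c4413 c1568 (k1 c4468 k0)) (by decide +kernel)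
def c9126 : PP 8 4 T 0x8000000000000000000040000000000004200050054000000001001510000100010000 := rS 0x2c592d3232dc6eb9599d56a3f (k8 c4356 c4419 c4417 c4358 c4361 c1384 c1117 c2113 (k4 c4374 c1583 c8612 c2121 k0)) (by decide +kernel)
def c9127 : PP 8 4 T 0x8000200000000000000000004000000000000000054000000000800100000000010000 := rS 0x162c91bb4d72b33aad4fe7d (k8 c4409 c4313 c4419 c4417 c4358 c4361 c4374 c1411 (k2 c1583 c8612 (k1 c2121 k0))) (by decide +kernel)
def c9128 : PP 8 4 T 0x8000200000000000000040004000000000000000040000100001001410000080000080 := rS 0x69786c477eae566b51f96c42392b874de1138960007f (k8 c4313 c1098 c1097 c2431 c609 c3099 c56 c1017 (k8 c8481 c86 c495 c4356 c4419 c4358 c4361 c7787 (k4 c9127 c2113 c8300 c1407 (k1 c488 k0)))) (by decide +kernel)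
def c9129 : PP 8 4 T 0x8000000001000000000000000000000000054001441554000000100400020084000000 := rS 0xaf55ab53451179083ac3599d52ac1 (k8 c4420 c4418 c4417 c4358 c4362 c56 c8505 c1953 (k4 c1957 c277 c780 c1572 (k2 c868 c2120 k0))) (by decide +kernel)
def c9130 : PP 8 4 T 0x8000000001001000000200000000000000000000040110001010100400020080040080 := rS 0x32d0852451ad86b33ab04ee630d99cb621369e4b00043a260815 (k8 c649 c4464 c4314 c4410 c1098 c1097 c2433 c4993 (k8 c86 c495 c5282 c5876 c755 c3101 c4420 c4417 (k8 c4358 c4362 c8504 c9129 c8133 c8308 c2022 c717 k0))) (by decide +kernel)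
def c9131 : PP 8 4 T 0x8000000000001000000040000000000000000000040000001001000410040080044080 := rS 0x188cfa2a2d02bf42c20f66b8985de0bb142954eb0863f5905f118349ad2509a53e47a1c556c6146a4d127d439fe08a3108f586b33aa55822d1f854ee392b875229d378448a273298cda7938960ba00 (k8 c1098 c753 c1097 c2431 c2433 c4993 c755 c8511 (k8 c9118 c8444 c609 c3099 c3247 c3165 c56 c1017 (k8 c8481 c3101 c649 c4356 c392 c4420 c4418 c4417 (k8 c4358 c4362 c274 c86 c4241 c4464 c4313 c4410 (k8 c4409 c4314 c9125 c9126 c617 c9128 c4353 c4424 (k8 c1587 c1667 c8502 c4551 c4473 c4282 c4371 c4372 (k8 c488 c2107 c9116 c4477 c7550 c4532 c4385 c4200 (k8 c4847 c9130 c4431 c5204 c492 c4055 c4479 c5976 (k4 c1242 c4439 c4322 c8506 (k2 c1792 c2123 (k1 c8360 k0))))))))))) (by decide +kernel)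
def c9132 : PP 8 4 T 0x10000002002000000000008000040011010000001500001000000110100100000000 := rS 0x1431146c486d0969c56869f (k8 c1667 c4424 c4353 c5695 c5422 c4470 c4479 c1384 (k2 c4498 c4551 (k1 c4489 k0))) (by decide +kernel)
def c9133 : PP 8 4 T 0x8000000002000000000040008000040000010000040000001000000410050480040080 := rS 0x612fbf51a7f0724e08e5868852a2d1f855666f0880c1227369c4d22f3585c8e9f489f4923d1c95cbb152c0000a1d (k8 c56 c527 c1098 c1097 c4353 c8197 c1017 c8481 (k8 c4416 c4209 c1626 c3165 c1667 c1587 c4431 c492 (k8 c4432 c756 c2431 c4993 c9118 c30 c222 c609 (k8 c3099 c4358 c648 c4356 c392 c4418 c86 c4200 (k8 c9132 c4464 c9125 c9131 c4313 c9126 c4376 c1376 (k2 c617 c4477 k0)))))) (by decide +kernel)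
def c9134 : PP 8 4 T 0x2000000000040008000080000000000000000000000000500140080000000 := rS 0x698ddc825 (k4 c1463 c4241 c272 c5695 (k1 c7094 k0)) (by decide +kernel)
def c9135 : PP 8 4 T 0x1000000000000000000000000000000000000000000000000000000110000810000000 := rS 0x6ed3 (k2 c4372 c1410 (k1 c4470 k0)) (by decide +kernel)
def c9136 : PP 8 4 T 0x8000000002000000000040008000000000010000000000001000000010050080000080 := rS 0x3f4bea1308351ad2499fdcb0d0928c76214a8b47e15599bc2227329c4c74323a7d227d399247a5d2c01447151c95c001d (k8 c56 c1098 c1017 c8481 c4353 c9135 c527 c1097 (k8 c8197 c4416 c4209 c3100 c1626 c3165 c1667 c1587 (k8 c4424 c755 c2431 c8511 c9118 c609 c3099 c4358 (k8 c648 c4356 c392 c4418 c86 c1102 c9134 c9133 (k8 c4200 c4401 c515 c9125 c4473 c9126 c4371 c617 (k4 c4551 c488 c9116 c4477 k0)))))) (by decide +kernel)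
def c9137 : PP 8 4 T 0x8000000002000000000040008000000000114040000004000000000010060080000080 := rS 0x188cfa2a2d02bf42c20f71352aee183753ac190fd5098586754ab045a3f0aaccee9d37994ce5b109b4f271348bcd6174fa44fa732e9600a5f06b49cb4324c547a471c95c3a00 (k8 c1098 c56 c1017 c8481 c1587 c4416 c4353 c4209 (k8 c4424 c4402 c4473 c4371 c488 c527 c1097 c8197 (k8 c3100 c1626 c3165 c1667 c4431 c492 c4432 c756 (k8 c2431 c2433 c4993 c86 c495 c5282 c8511 c3099 (k8 c3247 c3101 c4358 c648 c4356 c392 c4420 c4418 (k8 c4417 c4362 c617 c4551 c8715 c7581 c4480 c4532 (k8 c8300 c4477 c6963 c4385 c5204 c4055 c4479 c5976 (k4 c1242 c4439 c4322 c8506 (k2 c1792 c2123 (k1 c8360 k0)))))))))) (by decide +kernel)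
def c9138 : PP 8 4 T 0x2000000080000008080001010200000000000000000000000000080000000 := rS 0x2f086bf6226d9713478dc4292 (k8 c1117 c86 c1384 c100 c4346 c8140 c868 c1778 (k4 c1247 c277 c5504 c3130 k0)) (by decide +kernel)
def c9139 : PP 8 4 T 0x8000000002000000000040008000000000014040000004000000000010060080000080 := rS 0x2268a57c45248c4aa74ca672d884da5834ab45eab28b49cb4324c547a471c95c3a00 (k8 c1098 c56 c1017 c8481 c1587 c4416 c4353 c4209 (k8 c4424 c4402 c4473 c4435 c1572 c4432 c780 c756 (k8 c1097 c4993 c86 c495 c5282 c8511 c3247 c4418 (k4 c9137 c1117 c4413 c9138 (k2 c8142 c8483 (k1 c5443 k0)))))) (by decide +kernel)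
def c9140 : PP 8 4 T 0x8000000002000000000040008000000000010000000000001000000010040080000080 := rS 0x1382a18fe0d6939450155998ca343239262a3d1c95c3a00 (k8 c1098 c56 c1017 c8481 c4416 c4353 c4209 c1587 (k8 c4424 c4435 c755 c4358 c648 c9136 c4402 c4473 (k4 c4371 c7517 c9139 c4410 (k2 c1564 c4464 k0)))) (by decide +kernel)
def c9141 : PP 8 4 T 0x1000000000000000000000008000000000001100000000000000100000 := rS 0x2705 (k2 c4410 c1564 (k1 c4464 k0)) (by decide +kernel)
def c9142 : PP 8 4 T 0x2000000080000008014000010214000000044000000000010000080000080 := rS 0x113454455e922d88472570ea74ca6d2c1a45e00 (k8 c1098 c4432 c756 c1097 c4993 c8511 c3247 c56 (k8 c1017 c8481 c86 c495 c1117 c9138 c4413 c8142 (k2 c8483 c5443 k0))) (by decide +kernel)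
def c9143 : PP 8 4 T 0x8000000002000000080080008010000000010040000000000000000010020080000080 := rS 0x1894545a057e85841ee26bb52a9d610c7eb21426146a1cc655619d52ac10aaccee914e9bcca672d884da79389a45e6b0b9f4e65d8a9600a1d72b3c9eab2897c1a00 (k8 c1098 c4371 c488 c4435 c1572 c4297 c1519 c4289 (k8 c56 c527 c1097 c4353 c8197 c3100 c1626 c4431 (k8 c492 c4432 c756 c2431 c2433 c4993 c86 c495 (k8 c5282 c8511 c3099 c3247 c3165 c3101 c4358 c648 (k8 c4420 c4418 c4417 c4362 c251 c755 c9141 c9142 (k8 c617 c4551 c7581 c4305 c7308 c4480 c4532 c4385 (k8 c4847 c5204 c4055 c4479 c5976 c1242 c4439 c4322 (k2 c8506 c2123 (k1 c8360 k0))))))))) (by decide +kernel)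
def c9144 : PP 8 4 T 0x8000000002000000080080008010000000010000000000000000000010020080000080 := rS 0x39f85482b24fc0d0aacce66f3896000e5 (k8 c4289 c1098 c1097 c2431 c3099 c3100 c4358 c648 (k8 c4371 c9143 c155 c4313 c7517 c8560 c250 c4376 k0)) (by decide +kernel)
def c9145 : PP 8 4 T 0x8000000002000000000080008010000000010000000000000000000010020080000080 := rS 0xfe632a97d420f648351c8d7e1846cd351a542ab308994ce5b109c53e913e9ccba580288e2a392b8003ae5 (k8 c4289 c56 c1098 c1017 c8481 c4353 c9135 c527 (k8 c1097 c8197 c3100 c1626 c3165 c1667 c2431 c86 (k8 c495 c5282 c8511 c609 c4358 c648 c4418 c778 (k8 c9144 c4470 c4213 c8563 c1384 c273 c1407 c4305 (k4 c4376 c4551 c1425 c250 (k2 c755 c7517 (k1 c2118 k0))))))) (by decide +kernel)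
def c9146 : PP 8 4 T 0x1000040000008000050000000000000041001000000010000080100080 := rS 0x7f2fb241a8e7e0d8c6711c9953e913e9ccbb152c0000a1d (k8 c56 c527 c1098 c1097 c4353 c8197 c1022 c1626 (k8 c3165 c1667 c8511 c8383 c2431 c755 c4470 c8563 (k4 c273 c1407 c4305 c1425 (k2 c7517 c2118 k0)))) (by decide +kernel)
def c9147 : PP 8 4 T 0x8000000002001000000000008000000000000000000000001000000010040080100080 := rS 0xc4a2a2d02bf42c20f7135da954eb0863f5907f2f835a4a130a354693880ed9e29632b49e793b9050e5144a74de69179ac2e63369d472651eb0d66956099cb621168fd3e913e9ccbb152c0000a1d (k8 c56 c527 c1098 c1097 c4353 c8197 c1022 c1626 (k8 c3165 c1667 c4356 c392 c86 c495 c5282 c4420 (k8 c4418 c4358 c4362 c4416 c8511 c8383 c2432 c4993 (k8 c755 c4431 c492 c4432 c756 c3099 c3247 c7030 (k8 c4435 c9141 c4433 c1023 c500 c4297 c4554 c9140 (k8 c9145 c1519 c1102 c4468 c9125 c4337 c1117 c617 (k8 c4551 c9146 c4371 c488 c7517 c2118 c4305 c7308 (k8 c7550 c4532 c4385 c4847 c5204 c4055 c4479 c5976 (k4 c1242 c4439 c4322 c8506 (k2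 c2123 c8360 k0)))))))))) (by decide +kernel)
def c9148 : PP 8 4 T 0x9000201002000000080000000040001001114001444000160000000010000080000002 := rS 0x4da6579196251516815fa16107b89a9576a7860dd6069179ac2e6d3a9c586b360984be0d (k8 c4371 c488 c617 c4420 c4358 c4362 c2431 c2432 (k8 c4993 c4431 c492 c4432 c756 c4480 c8300 c4477 (k8 c4532 c6963 c4385 c5204 c4055 c4479 c5976 c1242 (k8 c4439 c4322 c8506 c2123 c9062 c4493 c1136 c2018 (k1 c4488 k0))))) (by decide +kernel)
def c9149 : PP 8 4 T 0x9100200002000000080000000040010000114000040000000000000410010080000080 := rS 0xbd621e8a64386c64631245c2562fc22b44a2793b905229d3796c4269179ac2e6d3a9c4723d5cb0d66b5608b47e5d2c0000a1d (k8 c56 c527 c1098 c1097 c8197 c4356 c392 c4420 (k8 c4419 c4358 c4362 c4361 c4416 c8383 c2431 c2432 (k8 c4993 c4431 c492 c4432 c756 c86 c495 c3099 (k8 c3247 c3165 c4433 c1023 c500 c4435 c4298 c4296 (k8 c9148 c4304 c5101 c8286 c4479 c7393 c9062 c5204 (k4 c276 c4712 c4482 c2115 (k2 c1171 c8486 k0))))))) (by decide +kernel)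
def c9150 : PP 8 4 T 0x8910002002000000040000000000010001000040050000000000000500010080000002 := rS 0x14c86c5189048ad1288847ac359b045a3f (k8 c4356 c392 c4420 c4358 c4362 c4416 c86 c4435 (k8 c4298 c4296 c4433 c4441 c8488 c276 c4712 c2115 k0)) (by decide +kernel)
def c9151 : PP 8 4 T 0x8000000002001000000000008000000000000000000000001000000010000080100080 := rS 0x32858444e1a81123f06cd33fa3476af822862229151262a4b0d93da27343945121d489a45e6b0b9b422712c0e4ca001e99cb621 (k8 c86 c495 c5282 c4416 c1098 c8511 c8383 c1097 (k8 c2431 c2592 c4993 c4431 c492 c4432 c756 c3165 (k8 c56 c7030 c4435 c9141 c1022 c4298 c4297 c4292 (k8 c4434 c4353 c4209 c9147 c59 c4411 c1734 c4904 (k8 c1774 c1641 c1118 c4313 c9149 c4470 c8563 c272 (k4 c4380 c4381 c9150 c4479 (k2 c5976 c4436 (k1 c8569 k0)))))))) (by decide +kernel)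
def c9152 : PP 8 4 T 0x100002000000000005000400001010054000040054020000005000000000000086 := rS 0x629ed3713842b926ab8810d5a4568944f277209a45e6b0b9b4ea15 (k8 c2630 c2432 c4993 c4431 c492 c4432 c756 c4433 (k8 c1023 c500 c4435 c4298 c4296 c6230 c8579 c4478 (k8 c4415 c4413 c8142 c8482 c4346 c868 c4320 c7718 (k1 c2123 k0)))) (by decide +kernel)
def c9153 : PP 8 4 T 0x200000002000000000005000400001010054001541054000000000000000000000002 := rS 0x18a7b4dc4d5c9356aacd22f (k8 c4432 c756 c4415 c4338 c4413 c8142 c4346 c868 (k2 c4055 c7718 (k1 c2123 k0))) (by decide +kernel)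
def c9154 : PP 8 4 T 0x40000000001a000000000000000004000000000000000055015554000000000000000000000000000 := rS 0x5150481622e586b360aed62b7 (k8 c4353 c4350 c4390 c4420 c4358 c4362 c4361 c2123 (k4 c7000 c9063 c4452 c8512 k0)) (by decide +kernel)
def c9155 : PP 8 4 T 0xa000001002000000000000000000000000014000040004000000000010000080000080 := rS 0x2ad5b4a5f10d5e4d658c62483849e90acfa1c65907d8212c9e453c9dc829d3780c12050e9ac2e6d3a844e2581c9947ab961acc7e956099cb6215d8dd7a8b589a4002f (k8 c4432 c1098 c756 c4350 c8286 c4354 c4386 c4390 (k8 c86 c495 c5282 c4420 c4418 c4356 c4358 c4362 (k8 c4361 c4416 c8511 c8383 c1097 c2431 c2592 c2432 (k8 c4993 c4431 c492 c56 c527 c30 c222 c3099 (k8 c3247 c4433 c1023 c500 c4296 c4297 c4434 c9152 (k8 c4409 c8522 c9062 c4422 c1792 c716 c9154 c4320 (k8 c642 c4055 c7393 c5740 c4248 c4346 c276 c2114 (k4 c9033 c4458 c8467 c8142 k0)))))))) (by decide +kernel)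
def c9156 : PP 8 4 T 0x2000000000000000000000000008000001454000000000000000000100010 := rS 0x14c40563157ab4265382c245e51 (k8 c4435 c4432 c4440 c4410 c1903 c1564 c1905 c1633 (k4 c7393 c4191 c4478 c8448 (k1 c7769 k0))) (by decide +kernel)
def c9157 : PP 8 4 T 0x8000001002000000040000000000000000000000000000001000000010000080000080 := rS 0x8242b3c1e816244c91438c91ca63b8810dc87b09c15108b5b8dd62bb8a115a2513c9dc8273379a45e11388e47ab961acd6ac1168fd0e672d884ca1536960c66b0005c0a1d (k8 c56 c527 c4431 c1098 c492 c755 c1097 c4993 (k8 c2630 c8511 c86 c495 c5282 c9156 c4356 c392 (k8 c4420 c4419 c4358 c4362 c4361 c4416 c8383 c2431 (k8 c2592 c4432 c756 c3099 c1022 c4433 c1023 c500 (k8 c4435 c4298 c4296 c8563 c4390 c4350 c4386 c4353 (k8 c8286 c9155 c4314 c516 c682 c7030 c8579 c4478 (k8 c4158 c4290 c4404 c4982 c8226 c7430 c4498 c2115 (k4 c7000 c242 c1790 c5976 (k2 c9063 c4570 k0))))))))) (by decide +kernel)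
def c9158 : PP 8 4 T 0x8000000000000000000000000014000044002005401004000000000000000000000002 := rS 0x11835c258695 (k4 c4418 c4362 c4321 c2441 (k2 c4482 c8229 k0)) (by decide +kernel)
def c9159 : PP 8 4 T 0x28000002000000000000000000000000000021001454000000000000000000000000000 := rS 0xcfa19f96ecda2af18ac35ad2cf6b358a059683 (k8 c4306 c2024 c4380 c4304 c4358 c682 c4457 c4419 (k8 c4362 c4370 c6225 c8243 c2068 c7551 c7787 c4392 (k2 c1521 c6175 k0))) (by decide +kernel)
def c9160 : PP 8 4 T 0x400000000000000000000000000004004200000000000020400000000000000000000000000000000 := rS 0x19b45 (k2 c4454 c2068 (k1 c6175 k0)) (by decide +kernel)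
def c9161 : PP 8 4 T 0x200000000000000000000000020004000210000000 := rS 0x26c5d13 (k4 c4444 c8691 c3765 c836 k0) (by decide +kernel)
def c9162 : PP 8 4 T 0x2000000000000000080000101000001000001400480000000000000000000000 := rS 0xa9 (k2 c1444 c6983 k0) (by decide +kernel)
def c9163 : PP 8 4 T 0x40000000000010400000000000000000404200004081000000000000000000000000000000000000000 := rS 0x261589b57a9e22cd (k8 c2068 c4337 c941 c989 c2018 c4491 c4488 c2050 k0) (by decide +kernel)
def c9164 : PP 8 4 T 0x200100000000001500000000080000000014002001400080 := rS 0x18bc5304e26a30161b0f964462037c549639 (k8 c8463 c1859 c4354 c1019 c495 c833 c93 c1097 (k8 c2672 c83 c313 c2260 c6976 c1119 c4297 c2265 (k1 c6171 k0))) (by decide +kernel)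
def c9165 : PP 8 4 T 0x9000000000000000000000000100008001000010054000400000000000000000000000 := rS 0xfeb75cacceab5 (k4 c4419 c4417 c4358 c4361 (k2 c1667 c1393 (k1 c4088 k0))) (by decide +kernel)
def c9166 : PP 8 4 T 0x2002000001000000440000004080000001000001100000001000000040400000002 := rS 0x1e2316929c5847a1a050661 (k8 c4302 c4306 c4380 c4393 c1313 c4241 c941 c4473 (k2 c397 c5101 (k1 c5947 k0))) (by decide +kernel)
def c9167 : PP 8 4 T 0x400002000001000081000200000144000021000001514400000000004040600100000 := rS 0xa05699c5aaf548b8624378934bac940a0cc27da2a2d0f0882d2ca2ab (k8 c1944 c1863 c4457 c4314 c4479 c4440 c4322 c4454 (k8 c4379 c4302 c4306 c4380 c4305 c4377 c4282 c5101 (k8 c2014 c316 c8051 c6029 c2832 c917 c4555 c6230 (k2 c8581 c7527 k0)))) (by decide +kernel)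
def c9168 : PP 8 4 T 0x400002000001000001040200000104000020000001410400001000000000200100002 := rS 0x482c5499958a16997592813e89cc345318cd1687a5a8c463515c15968355c210a69 (k8 c2823 c5976 c4479 c1944 c4306 c2024 c4314 c8717 (k8 c8774 c833 c9166 c4457 c4440 c4322 c950 c2822 (k8 c4454 c4302 c870 c4379 c4380 c4305 c4377 c9167 (k4 c4212 c8582 c8581 c948 (k2 c4555 c8613 (k1 c394 k0)))))) (by decide +kernel)
def c9169 : PP 8 4 T 0x2000200100000000020001400000000000000000000000000000 := rS 0xb339c5d6cc2 (k4 c2068 c2069 c4362 c1087 (k2 c1163 c7172 k0)) (by decide +kernel)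
def c9170 : PP 8 4 T 0x400000000000000000000000000000000020000000400000100000004200000000002 := rS 0x585e12 (k4 c911 c917 c516 c8580 k0) (by decide +kernel)
def c9171 : PP 8 4 T 0x400002000001000000040200000000000020001001400000001000000000200000002 := rS 0xcd52ac522772b80cd25f4f99c5a5119854b40615c14fa65 (k8 c2439 c4379 c4314 c8717 c831 c830 c2632 c950 (k8 c1863 c9170 c4555 c6237 c2443 c2823 c28 c798 (k4 c7751 c2892 c4304 c1939 (k2 c9169 c9168 k0)))) (by decide +kernel)
def c9172 : PP 8 4 T 0x1000040040000000044000000010000055500001400000004000010000 := rS 0xfd42 (k2 c4473 c9121 (k1 c4392 k0)) (by decide +kernel)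
def c9173 : PP 8 4 T 0x400002000001000000040000000040000020000001554400001000004444000100000 := rS 0x34060f16911ca8172e844c2198427e0a7d (k8 c4379 c4314 c6237 c4479 c4436 c4302 c4300 c4377 (k8 c8580 c7030 c1602 c9172 c5101 c8051 c8513 c300 k0)) (by decide +kernel)
def c9174 : PP 8 4 T 0x400002000001000000040000000000000020000001400000001000000000200000002 := rS 0x450e0bd532ee32a55f9e5529a200b8cea32eac5026f13984cacb41aacc6911582c3a772b80cbe7b42c20d2231ac145a510a9680c33 (k8 c950 c831 c830 c2632 c1863 c9170 c4314 c8774 (k8 c833 c2823 c4479 c5976 c704 c2443 c28 c798 (k8 c7751 c85 c567 c8717 c2892 c2822 c1944 c4306 (k8 c2024 c2439 c4302 c870 c4378 c4380 c4304 c4377 (k8 c9166 c4555 c9173 c837 c836 c2831 c1847 c1053 (k8 c9161 c4448 c6983 c2119 c9171 c2122 c8272 c4387 k0)))))) (by decide +kernel)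
def c9175 : PP 8 4 T 0x1000002000000000040044010001000001021084011500400014000004000005001080 := rS 0x29d4b19788589ebf5eb3cba114083cc34b65a0cef43 (k8 c4392 c1024 c4306 c2024 c4457 c4302 c4376 c4380 (k8 c4300 c4377 c1521 c9160 c9033 c6220 c2108 c4431 (k4 c9030 c6908 c8272 c2119 k0))) (by decide +kernel)
def c9176 : PP 8 4 T 0x2000002000000000000000000000020000001040000001000000000200000002 := rS 0x79421f96e7125aa62a0d26a306c245ab0e1b165ca4d46b356c40de27308cc36656398c52d334a1d2e9115aacd65f3d968ea731d9dc0c192988c6b05 (k8 c4314 c8774 c833 c4290 c2038 c831 c1024 c4403 (k8 c1021 c2451 c830 c704 c2443 c5752 c1944 c8717 (k8 c2892 c2930 c156 c757 c6832 c4402 c754 c4289 (k8 c2439 c686 c950 c4302 c870 c4378 c4478 c6230 (k8 c664 c4337 c4413 c4548 c4481 c7771 c4362 c4419 (k8 c4467 c312 c313 c2260 c1367 c4386 c3481 c3368 (k4 c1385 c1117 c7787 c9175 (k2 c2453 c9158 k0)))))))) (by decide +kernel)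
def c9177 : PP 8 4 T 0x100000000002000000000000000010000022000001000400001000000044400000002 := rS 0x10d51aa53f43891f99c29639a43253 (k8 c4290 c2038 c757 c4289 c4402 c685 c684 c5976 (k4 c4392 c1393 c4345 c1523 (k2 c7771 c4489 k0))) (by decide +kernel)
def c9178 : PP 8 4 T 0x2000040000000000040000000080000080400001000000044400010000 := rS 0x1fa0d30091410d1483d8f11 (k8 c4334 c4289 c1455 c4402 c7771 c5121 c4467 c896 (k2 c1367 c4302 (k1 c4463 k0))) (by decide +kernel)
def c9179 : PP 8 4 T 0x100000002000000000005500000040000000114082000001000110040000000002 := rS 0x172950a98c5311 (k4 c4334 c4402 c754 c4284 (k2 c5073 c4548 (k1 c8593 k0))) (by decide +kernel)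
def c9180 : PP 8 4 T 0x2000000000000041040000021084000080000001000014000200000002 := rS 0x1063165c485ead53ac96ab738a822837279811e0c12c344c3b1694452d334a5d222b82aacd6111c9d4ee192988cdeb140a1d3e5f2d0199f11 (k8 c4334 c1521 c831 c830 c2443 c1393 c156 c1462 (k8 c2656 c1019 c833 c4290 c2038 c1024 c2451 c8463 (k8 c2594 c5752 c1944 c4314 c8717 c2892 c2930 c757 (k8 c6832 c4402 c4405 c4286 c4403 c9178 c4324 c115 (k8 c871 c2845 c870 c448 c321 c4538 c5121 c4135 (k8 c7094 c4389 c9179 c8759 c900 c876 c5289 c8762 (k2 c4441 c677 (k1 c8758 k0)))))))) (by decide +kernel)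
def c9181 : PP 8 4 T 0x2000000000000001080000021080001000000000000000000200000002 := rS 0x4482c4f17bc5040c53bf618a5308944e33168a5a6690c94cba2b559ac225f2d018463582b24fa0f63a050ecf (k8 c1521 c156 c1462 c4289 c1455 c154 c155 c4314 (k8 c8774 c833 c831 c830 c2443 c2594 c5752 c1944 (k8 c8717 c2821 c4290 c2038 c757 c6832 c4402 c4286 (k8 c950 c934 c1463 c937 c1470 c4467 c8613 c4330 (k8 c7414 c8425 c8696 c8705 c1487 c508 c8580 c8703 k0))))) (by decide +kernel)
def c9182 : PP 8 4 T 0x120100000002000000000000041081040000000002010090004000005440410000080 := rS 0x25478c18c1ed8ac34daa8ee4f20bc0a62d288a436a752c4e1279 (k8 c2452 c4318 c4342 c4385 c4330 c2672 c4402 c4405 (k8 c4286 c4290 c5814 c8691 c4297 c1023 c9064 c8583 (k8 c1947 c1675 c705 c4482 c4450 c5577 c1700 c7465 k0))) (by decide +kernel)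
def c9183 : PP 8 4 T 0x100000002000000000000000080000010000002000000000000008000200000002 := rS 0x34d64c3a53058a87459ec8a7721858329b789458e0901a5d3a690d968ea13398ecf20618c24161d (k8 c85 c567 c4318 c5699 c831 c2452 c4403 c1021 (k8 c4401 c498 c830 c2672 c2823 c2968 c2930 c28 (k8 c230 c4289 c4405 c4294 c2863 c254 c951 c337 (k8 c6033 c441 c705 c5853 c1836 c4530 c6869 c4485 (k4 c4459 c2123 c8394 c7459 k0))))) (by decide +kernel)
def c9184 : PP 8 4 T 0x101100002002000000000000008001040000001400010090000000000040000000000 := rS 0x4a8f183183db15869b (k8 c8583 c1947 c1675 c705 c4482 c4450 c5577 c1700 (k1 c7465 k0)) (by decide +kernel)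
def c9185 : PP 8 4 T 0x40000000000010001000000000000000000151501000000014000150000100000000400000a00000000 := rS 0x10a7ea21f57e6f8aadd1c34 (k8 c833 c832 c1037 c4388 c1345 c1515 c8975 c4493 (k2 c4088 c4397 (k1 c4235 k0))) (by decide +kernel)
def c9186 : PP 8 4 T 0x10021000000002000010000151544040000014000150000100044000005440200000000 := rS 0x3359f432612046a91db1e96ac149445a5313a9c4aa5 (k8 c4385 c4381 c4330 c4324 c4290 c4286 c4405 c4402 (k8 c2112 c4458 c4289 c4403 c948 c9185 c7771 c2111 (k4 c4421 c1790 c2062 c7781 k0))) (by decide +kernel)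
def c9187 : PP 8 4 T 0x100111562000000080018150000100000000000000000000000 := rS 0x16e7f37b399a81 (k4 c1361 c1484 c949 c1229 (k2 c725 c1797 (k1 c2121 k0))) (by decide +kernel)
def c9188 : PP 8 4 T 0x120100000002000000000000040000000000000002000000000000004000200000002 := rS 0x22549f544715eb2562bb53984ba4b27a24cd4b439a572b53d26932c38cc59668a3a9cc763d4aab156793b904b21f4e9942629288b45e53688ad2ef00d9680c318482c3b13 (k8 c4342 c85 c567 c4318 c5699 c831 c830 c2672 (k8 c5814 c2930 c8717 c4298 c4290 c2830 c4286 c4405 (k8 c4402 c4401 c490 c2968 c86 c487 c8691 c1023 (k8 c2452 c9184 c2112 c2861 c7465 c4403 c1021 c498 (k8 c945 c2705 c4481 c4982 c4362 c2050 c4488 c4632 (k8 c4419 c4361 c2823 c1904 c4458 c5056 c681 c4297 (k8 c4434 c2821 c4326 c4330 c4847 c624 c632 c2018 (k4 c707 c9186 c1353 c9187 (k2 c9182 c9185 k0))))))))) (by decide +kernel)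
def c9189 : PP 8 4 T 0x10010000000002000040000000460080800004008142000100004000000000200010400 := rS 0xa964aed6271308d17a22539f44a271d8b58f0944d2d14b95ac5a0a66 (k8 c944 c4310 c4481 c4419 c4361 c945 c4458 c681 (k8 c4318 c4289 c4286 c4403 c934 c1463 c1353 c2945 (k8 c4467 c2018 c833 c2824 c1304 c1034 c1309 c632 (k2 c9187 c9185 k0)))) (by decide +kernel)
def c9190 : PP 8 4 T 0x10100000000000000040000400010000000040000014500000400400140a00110480 := rS 0x1f86f5bac4e29f30a386873 (k8 c1021 c833 c832 c2824 c1299 c1304 c1034 c1037 (k2 c1345 c4477 (k1 c8721 k0))) (by decide +kernel)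
def c9191 : PP 8 4 T 0x10000000002000040100000000000000000040000001001000000000040600000002 := rS 0x61f41e2424bf04e47098558e5d0897cb406 (k8 c831 c830 c2443 c2594 c2821 c4289 c4284 c4401 (k8 c4404 c870 c4477 c7307 c4467 c4376 c4379 c2107 (k1 c1367 k0))) (by decide +kernel)
def c9192 : PP 8 4 T 0x10000000000002000000000000060000000000000002000000000000000000200000002 := rS 0x1bc6a3624add62717e980467f54b25469a3d2d4ee4f25c362c41780ae0ad32ab4566a1199990e8a8891c5a1563994c6292ea5d22692c87c225f1c86cb475099cc77133c8185e318482c3a89 (k8 c681 c85 c567 c4318 c5699 c2830 c831 c2452 (k8 c4342 c4403 c1021 c4401 c498 c830 c2672 c8463 (k8 c2443 c2594 c86 c487 c2823 c2892 c2930 c2821 (k8 c4402 c754 c490 c4289 c4284 c4286 c4404 c4338 (k8 c945 c1904 c944 c942 c2906 c2705 c4552 c1766 (k8 c6832 c4310 c8591 c5814 c8691 c4481 c9188 c4434 (k8 c4297 c1023 c4419 c4482 c705 c9189 c633 c948 (k8 c5121 c9190 c9191 c4302 c585 c7367 c5279 c8735 (k4 c7451 c87 c1344 c9179 k0))))))))) (by decide +kernel)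
def c9193 : PP 8 4 T 0x100000002000000000000040000000080000002000000000000000000200000002 := rS 0x8c8f559161594c5a51149d4e63b17acd566568bc066170986cb40618c24161d (k8 c85 c567 c4318 c5699 c831 c830 c2672 c4401 (k8 c524 c951 c5814 c4298 c490 c1672 c2705 c2830 (k8 c4403 c1021 c498 c4402 c4405 c4286 c4290 c8717 (k4 c4481 c2112 c4416 c4982 (k1 c9192 k0))))) (by decide +kernel)
def c9194 : PP 8 4 T 0x2000000000000040000000080000002000000000000000000200000002 := rS 0x125105699e08f019aac2e531d8b4ca130d9680d1318c24161d (k8 c85 c567 c4318 c5699 c4342 c831 c830 c2672 (k8 c4401 c490 c4286 c4403 c4290 c524 c1672 c951 (k4 c5814 c9193 c4310 c944 (k2 c5443 c4542 (k1 c4413 k0))))) (by decide +kernel)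
def c9195 : PP 8 4 T 0x10000000000000040000000400000800000450046002000000000004080600040002 := rS 0x9c4ab55b8de28b1549c5fa97489643e7520c4c5e4f7806cb40618c24161d (k8 c85 c567 c4318 c5699 c831 c830 c2672 c5814 (k8 c4297 c2830 c4342 c8691 c498 c86 c487 c2892 (k8 c2930 c4302 c585 c977 c7367 c4480 c4386 c4353 (k4 c4389 c312 c8452 c4467 k0)))) (by decide +kernel)
def c9196 : PP 8 4 T 0x10200000002000000000000044040000000000002000000000000004000600000002 := rS 0x1a49078913cc97e09cc29a419bcf48167a8632cda50f1871115248a647169442ac73298c525d0897cea13398ecf2ad459fcceb33e955a6694392c9ed17806cb4318482cee410ec4c5e06 (k8 c831 c2830 c4342 c85 c8691 c1023 c567 c4318 (k8 c5699 c830 c2672 c5814 c4298 c4297 c4434 c4410 (k8 c2823 c5891 c4406 c4409 c4312 c4310 c4313 c9194 (k8 c945 c2452 c4403 c1021 c4401 c498 c2443 c2594 (k8 c2821 c4402 c754 c490 c4289 c4284 c4405 c4286 (k8 c4404 c4290 c4542 c2112 c4413 c1128 c314 c4491 (k8 c5446 c9062 c3666 c4430 c4196 c4482 c1229 c2626 (k8 c705 c9195 c870 c4477 c7308 c2118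 c4467 c4376 (k2 c1663 c1367 (k1 c2107 k0)))))))))) (by decide +kernel)
def c9197 : PP 8 4 T 0x10200000002000000000000040040000000000002000000000000004000600000002 := rS 0x64030deb9132492a0f12add62715aa6932343d4658711551dc822d35a5c161d2c87c225a3a84ce63b89c24f20617a2cfeb33eb4cd287 (k8 c4410 c2823 c5891 c4409 c4312 c4313 c9194 c2830 (k8 c831 c2452 c4318 c4342 c4403 c1021 c4401 c498 (k8 c830 c2594 c86 c487 c85 c567 c2930 c5752 (k8 c4286 c8691 c1023 c9196 c4415 c1947 c9062 c4482 (k8 c8467 c1131 c705 c7883 c1304 c1034 c1037 c1370 (k8 c8690 c1701 c1973 c4467 c8464 c1020 c871 c2121 (k1 c506 k0))))))) (by decide +kernel)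
def c9198 : PP 8 4 T 0x40000000000000000000000006000000000000008008600000002 := rS 0x10a8141ac46e4f30031223953aed7f183da6e12793bbc432090186cb406 (k8 c831 c830 c2672 c28 c230 c254 c4294 c6033 (k8 c2452 c4318 c2863 c705 c4482 c4369 c4449 c2908 (k8 c8463 c2892 c871 c870 c449 c321 c505 c2460 (k2 c1294 c713 (k1 c9044 k0))))) (by decide +kernel)
def c9199 : PP 8 4 T 0x8000000000000000000000000082 := rS 0x1c34 (k2 c1019 c1020 (k1 c8690 k0)) (by decide +kernel)
def c9200 : PP 8 4 T 0x20000000000000000000000000000400000000005400400410000000008002205000400 := rS 0x3f106855e9c62aa406a306cf1 (k8 c4294 c312 c313 c1367 c435 c4386 c1385 c1120 (k4 c6224 c1936 c8629 c6225 k0)) (by decide +kernel)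
def c9201 : PP 8 4 T 0x10000000000000040000000000000000000000002000000000000008000600000002 := rS 0x9cde258c424f69b3bbc4121901a9cf21b2f9680c590f82c3a6b (k8 c5752 c85 c567 c86 c487 c831 c830 c2443 (k8 c2672 c2452 c2908 c28 c254 c230 c4294 c6033 (k8 c2863 c705 c4318 c4482 c9200 c9199 c9198 c4467 k0))) (by decide +kernel)
def c9202 : PP 8 4 T 0x1000000108000402000000000050140001000000000008000200000002 := rS 0x888b544674f8ac5304559462e632ea5c7e5f329680ca1 (k8 c7768 c831 c830 c2444 c2443 c8194 c2930 c2821 (k8 c2822 c4362 c1867 c1947 c4481 c957 c437 c1510 (k4 c4310 c2118 c910 c4337 (k1 c4468 k0)))) (by decide +kernel)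
def c9203 : PP 8 4 T 0x20400200000000000001104000410014000000050500015500000000000000000000000 := rS 0x15f11452890e67 (k4 c4310 c4410 c2118 c9062 (k2 c4337 c989 (k1 c5443 k0))) (by decide +kernel)
def c9204 : PP 8 4 T 0x102000000000080004000400010000000040140000000000000008000200000002 := rS 0x554322c58893345856632e854be6537ab58ac18c1ed37093c9b0ee09729a4621638a141a1b2d018320378b24c27d (k8 c4379 c4302 c4305 c4294 c28 c254 c831 c830 (k8 c2672 c4371 c6224 c496 c951 c173 c2823 c8394 (k8 c230 c6033 c950 c2452 c4318 c2863 c705 c4482 (k8 c4450 c4370 c2947 c9199 c2444 c2443 c2632 c2821 (k8 c2822 c8717 c4481 c8784 c9159 c4555 c721 c2123 (k2 c246 c1837 k0)))))) (by decide +kernel)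
def c9205 : PP 8 4 T 0x2000000000080000000402000000000040140000000000000008000200000002 := rS 0x552293c878233586632e97ccb1356b94d2310b324c27d5e4621277049ed36793620d0a1b2d06406f1388340ca1 (k8 c7768 c831 c4371 c496 c4294 c28 c254 c830 (k8 c2672 c6224 c4306 c950 c2452 c2863 c705 c230 (k8 c6033 c4318 c4482 c6225 c4379 c4302 c4305 c951 (k8 c173 c2823 c8394 c2947 c4340 c2444 c2443 c2821 (k8 c2822 c9202 c2068 c9204 c4410 c9203 c9062 c1510 (k1 c1672 k0)))))) (by decide +kernel)
def c9206 : PP 8 4 T 0x1000080000000000010000000080000000000000000000001200004002 := rS 0x522d638aca9438280cc6152d018920d (k8 c4371 c4281 c831 c830 c2632 c2822 c28 c4313 (k4 c4392 c7517 c8717 c250 (k2 c246 c1598 (k1 c8900 k0)))) (by decide +kernel)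
def c9207 : PP 8 4 T 0x1000000004000410000000000005542080000000000000040001100002 := rS 0x8943849162c62b063109 (k8 c4318 c4482 c4450 c4370 c4555 c721 c911 c1565 (k2 c2470 c2123 k0)) (by decide +kernel)
def c9208 : PP 8 4 T 0x102000001000000000000400000000000040140000000000000008000200000002 := rS 0x420357a716923c470d5019d87164a8acc65d48854be6553ab6307b4dc24f26c3bbc432090186cb40664a0cc27d (k8 c4379 c4302 c4306 c4305 c831 c830 c2672 c28 (k8 c230 c254 c4294 c6033 c950 c2452 c4318 c2863 (k8 c705 c4482 c2947 c2908 c2444 c2443 c2632 c2892 (k8 c2821 c2822 c8717 c5073 c4481 c4362 c9207 c8784 (k8 c4329 c2825 c850 c9201 c4135 c6223 c4371 c6225 (k1 c6224 k0)))))) (by decide +kernel)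
def c9209 : PP 8 4 T 0x2000000000000000000000020000000000000000000000000008000200000002 := rS 0x2917945429c41ad211aa61a9137c4d4f183da6e1279361dde2190480c365a032c50283 (k8 c4306 c4380 c4304 c831 c830 c2672 c28 c230 (k8 c254 c4294 c6033 c950 c2452 c4318 c2863 c705 (k8 c4482 c2908 c4340 c9199 c2892 c4329 c7768 c2825 (k8 c9201 c4371 c496 c6224 c8243 c6225 c4490 c1939 k0)))) (by decide +kernel)
def c9210 : PP 8 4 T 0x1000000100000000010040800050200015500000000000000200000480 := rS 0x28a209f168ac5293338f0243b (k8 c1575 c498 c499 c593 c1656 c835 c1638 c329 (k4 c1428 c4468 c2118 c4337 k0)) (by decide +kernel)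
def c9211 : PP 8 4 T 0x1000000000000800000000000000000000000000000000000200000002 := rS 0x168accc130480c7e590f854b406 (k8 c831 c830 c2632 c86 c487 c8194 c28 c230 (k4 c513 c664 c4991 c911 (k1 c4555 k0))) (by decide +kernel)
def c9212 : PP 8 4 T 0x2000001000000000200000410041000040200014500000000000000200000480 := rS 0x14510860b456294799c78121db24c27d (k8 c4379 c4302 c4305 c1575 c498 c499 c593 c9210 (k4 c835 c1638 c329 c6223 (k2 c4468 c7315 (k1 c4337 k0)))) (by decide +kernel)
def c9213 : PP 8 4 T 0x100000000010000000050080001000000000000000200000002 := rS 0xcc2b8298cba152f994b406 (k8 c831 c830 c2444 c2443 c2632 c2821 c2822 c4408 (k2 c8717 c8784 (k1 c8594 k0))) (by decide +kernel)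
def c9214 : PP 8 4 T 0x2000000000080000000000000000000000000000000000000008000200000002 := rS 0x31c262a888a45aa22a99e1904549cceab352af28a7f429c5ca4706924c65d4ba44d21508994df13188584b18849ed3677788243203539e4d81b2f9680c590f82c3a6b58b25028307984faa1 (k8 c9209 c4379 c4302 c4376 c4306 c4380 c4305 c4304 (k8 c5752 c85 c567 c86 c487 c831 c830 c2443 (k8 c2672 c950 c2452 c2908 c28 c254 c230 c4294 (k8 c6033 c2863 c705 c4318 c4482 c9200 c951 c173 (k8 c4340 c9199 c2444 c2594 c2632 c2823 c2892 c2930 (k8 c2821 c2822 c4281 c4371 c4374 c8394 c496 c6224 (k8 c9206 c8243 c6225 c1939 c9211 c9212 c9213 c9205 (k8 c9208 c4490 c4310 c4406 c7315 c910 c7581 c4337 (k4 c4468 c1638 c2262 c2107 k0))))))))) (by decide +kernel)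
def c9215 : PP 8 4 T 0x2000001000000000000401000000000040140000000000000008000200000002 := rS 0x309248b152be2229510b5128733c10c69d1f99626ad60c60f69b849e4eef10c824061b2d018c27d8608da66c (k8 c950 c9214 c954 c9201 c4379 c4302 c831 c830 (k8 c2672 c28 c230 c254 c4294 c6033 c2452 c4318 (k8 c2863 c705 c4482 c4450 c2947 c4340 c2444 c8194 (k8 c2968 c2822 c9208 c4310 c4410 c4314 c910 c7315 (k8 c8056 c4337 c988 c4468 c5443 c315 c9062 c1128 k0))))) (by decide +kernel)
def c9216 : PP 8 4 T 0x2000000000000400000000000000100000000000000008080200000002 := rS 0x30e089256c60f69b849e4d87704a2c261901bc4365a0321ca216 (k8 c951 c4405 c1836 c831 c830 c2672 c4294 c28 (k8 c254 c4401 c5853 c230 c6033 c950 c2452 c4318 (k8 c2863 c705 c4482 c2947 c315 c8717 c1128 c9062 k0))) (by decide +kernel)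
def c9217 : PP 8 4 T 0x20420202000000000000000000411000040044040500014000000000000000000000000 := rS 0xaf88aae96a26119cc27d (k8 c4379 c4302 c4310 c9062 c7315 c4459 c1947 c4337 (k2 c988 c4491 k0)) (by decide +kernel)
def c9218 : PP 8 4 T 0x2000000000000000000401000000000040140000000000000008000200000002 := rS 0x903651a15574b4430c7a668b2560a2b43a2d8e29288b4761323b90c65d4b8e4ca2f898595a434e9157e6f5db044b18849ed3677788243203539e4365f2d018b21f05874d6b164a05067d13985429f8608da66c (k8 c950 c9214 c954 c9201 c4384 c9209 c4302 c870 (k8 c4379 c4306 c4380 c4305 c4304 c5752 c85 c567 (k8 c86 c487 c831 c830 c2443 c2672 c2452 c2908 (k8 c28 c254 c230 c4294 c6033 c2863 c705 c4318 (k8 c4482 c9200 c4450 c4449 c9199 c7782 c441 c2968 (k8 c337 c2947 c951 c4340 c172 c2444 c8463 c2930 (k8 c2821 c2822 c9215 c4404 c4401 c4403 c4286 c4405 (k8 c4402 c4289 c5853 c1836 c9216 c9217 c5073 c4481 (k8 c8784 c4416 c4362 c8505 c4457 c1944 c684 c7458 (k2 c9081 c2110 (k1 c322 k0))))))))))) (by decide +kernel)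
def c9219 : PP 8 4 T 0x2000000000000004000400000000004080100080000000000008000600000002 := rS 0x85278dc90a365aae96881eb90e7110e9ad2e150897e26a756afcdebb62b06307b4dc24f26c3bbc432090186cb40658a05062730b4d161615a560a63 (k8 c2822 c4313 c5073 c8717 c951 c2482 c9214 c4302 (k8 c870 c4306 c4380 c4304 c831 c830 c2672 c28 (k8 c230 c254 c4294 c6033 c950 c2452 c4318 c2863 (k8 c705 c4482 c4450 c4370 c4449 c9199 c7782 c2947 (k8 c2908 c4340 c2443 c2594 c2632 c2930 c5752 c85 (k8 c4334 c8594 c9207 c7465 c2123 c4457 c1944 c2024 (k4 c7458 c9178 c322 c453 (k2 c9042 c9044 k0)))))))) (by decide +kernel)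
def c9220 : PP 8 4 T 0x2000000000000004000401000000004080100000000000000008000200000002 := rS 0x13c964828b1dcb456895074caa51c946891699ccac56089631093da6ceef10486406a73c86cbe590f82c3a6b07935062730a853ea58608da66ca191c2a5a0322c2c2b14a560a63 (k8 c2822 c4313 c5073 c834 c8717 c951 c2482 c831 (k8 c830 c2632 c1312 c4392 c950 c9214 c954 c9201 (k8 c4385 c4384 c9209 c4302 c870 c4306 c1990 c4376 (k8 c5752 c85 c567 c86 c487 c2443 c2672 c2452 (k8 c2908 c28 c254 c230 c4294 c6033 c2863 c705 (k8 c4318 c4482 c9200 c4450 c4370 c2444 c9219 c910 (k8 c680 c6696 c2123 c4485 c8683 c1021 c1022 c4426 (k8 c4455 c4403 c250 c1604 c7091 c1860 c452 c4474 k0)))))))) (by decide +kernel)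
def c9221 : PP 8 4 T 0x400000000000400000000000000040001440100400000008505404000000000400100400414804080 := rS 0x1084f1b9218e3d72b44a850 (k8 c1836 c1837 c1631 c4405 c1684 c250 c4473 c322 (k2 c452 c9081 (k1 c523 k0))) (by decide +kernel)
def c9222 : PP 8 4 T 0x2000000000000000000401000000000080100000000000000008000200000002 := rS 0xe7176121c8f43828742a3917c4d4e165f9bd76c18c1ed37093c9b0eef10c824061b2d01962814183da623 (k8 c954 c9214 c4376 c4306 c4380 c4304 c831 c830 (k8 c2672 c28 c230 c254 c4294 c6033 c950 c2452 (k8 c4318 c2863 c705 c4482 c4450 c4449 c9199 c7782 (k8 c951 c2908 c4340 c172 c8463 c2632 c85 c4313 (k4 c4392 c1312 c9221 c9220 (k2 c4362 c1087 (k1 c4481 k0))))))) (by decide +kernel)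
def c9223 : PP 8 4 T 0x2000000000000000000401000000000000100000000000000008000200000002 := rS 0xe67f64984faa1 (k4 c9209 c4379 c4302 c4305 (k2 c9222 c9213 (k1 c9218 k0))) (by decide +kernel)
def c9224 : PP 8 4 T 0x20002000000000000000000000000040000000200014000000000000000200000480 := rS 0x110510b456e51499c78123f8ecc27d (k8 c4379 c4302 c1575 c2450 c498 c499 c593 c835 (k4 c4401 c1638 c329 c7315 (k2 c4468 c4337 k0))) (by decide +kernel)
def c9225 : PP 8 4 T 0x2000000000000000000001000000000000000000000000000008000200000002 := rS 0x294d0449217aa38a0d4964ea2a1d0871639446e2972250568b5b998771782ac8eb0c1198d2e910a844726517c4c8abf37aed8ac112c62127b4d9dde2090c80d4e793606cbe5a031643e0b0e9ad6281079f49a830b09cc2d3 (k8 c9214 c4302 c870 c951 c4306 c1990 c4379 c4376 (k8 c4380 c4304 c5752 c85 c567 c86 c487 c831 (k8 c830 c2443 c2672 c950 c2452 c2908 c28 c254 (k8 c230 c4294 c6033 c2863 c705 c4318 c4482 c9200 (k8 c4450 c4370 c4449 c9199 c7782 c441 c4340 c172 (k8 c2444 c8463 c2594 c2632 c2892 c2930 c2822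 c954 (k8 c9201 c9224 c9223 c4312 c4358 c1042 c664 c1163 (k8 c722 c4991 c665 c9211 c835 c8630 c4405 c4289 (k8 c497 c9081 c1836 c8243 c9030 c1320 c8660 c7248 (k4 c8608 c4354 c7771 c9057 (k2 c452 c4485 (k1 c4426 k0)))))))))))) (by decide +kernel)
def c9226 : PP 8 4 T 0x2000000000000000000800000000000000000000000000000008000600000002 := rS 0x294d0449217aa38a0d4e24e1b92e1891088e4de455db1582258c424eef10ca9cf26c0d97c161d35a041e7d26a0c4e6169d15507582c5cccb758a2cf69b1582406590fa50523b0a9680cc743945c816 (k8 c951 c9211 c4405 c1836 c4289 c831 c830 c2632 (k8 c1042 c835 c665 c86 c487 c28 c230 c4991 (k8 c2863 c705 c722 c4304 c1163 c664 c4358 c4312 (k8 c153 c9225 c4398 c9214 c4302 c870 c4306 c1990 (k8 c4379 c4376 c4380 c5752 c85 c567 c2443 c2672 (k8 c950 c2452 c2908 c254 c4294 c6033 c4318 c4482 (k8 c9200 c4450 c4370 c4449 c441 c9199 c8463 c2594 (k8 c2892 c9201 c1321 c8630 c4474 c497 c8660 c7248 (k4 c8608 c4354 c7771 c9057 (k2 c452 c4485 (k1 c4426 k0))))))))))) (by decide +kernel)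
def c9227 : PP 8 4 T 0x20000002001000000040000000000000000000004400000000000000000400a00800480 := rS 0x1c49e34 (k4 c833 c1490 c1304 c9030 k0) (by decide +kernel)
def c9228 : PP 8 4 T 0x2000002000000000000000000000000000010080000000000008000200000002 := rS 0x215107f61c5a0a6f21a748ac1599d618238c424f27b4d9dc122f699b0ca0b0ea5cc68b0986406f10d968e63b0321ca216 (k8 c951 c4405 c1836 c831 c4403 c1021 c830 c2672 (k8 c4294 c28 c254 c4401 c5853 c2822 c2930 c85 (k8 c567 c2444 c950 c9214 c172 c230 c6033 c2863 (k8 c705 c2452 c4318 c4482 c9227 c9201 c9224 c9226 (k8 c4450 c441 c2968 c337 c9199 c4310 c4481 c4362 (k4 c9219 c8505 c684 c9159 k0)))))) (by decide +kernel)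
def c9229 : PP 8 4 T 0x2000002000000000000000000000000000010000000000000008000200000002 := rS 0x194bd8a1fc6f045ba4e971761224cecd439cd162b63944761337ab48ac560ac4fab33a9952e631a938964d41d15510c11c6212793da6cee190480c365a0b3c45e0b0e819a66c (k8 c950 c9214 c831 c85 c567 c172 c4294 c951 (k8 c830 c2672 c28 c230 c254 c6033 c2863 c705 (k8 c2452 c4318 c4482 c9227 c9201 c9225 c4398 c4306 (k8 c1990 c1321 c4474 c8660 c2822 c2930 c2444 c9224 (k8 c9226 c4379 c4304 c4450 c4370 c441 c2947 c9199 (k8 c4401 c4403 c4405 c4289 c9216 c5853 c1021 c1836 (k8 c1479 c9228 c680 c2123 c4362 c4459 c1128 c1168 (k4 c4481 c9080 c4313 c7248 (k2 c4354 c8253 (k1 c2028 k0)))))))))) (by decide +kernel)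
def c9230 : PP 8 4 T 0x202000001000000000000000000000004000000040000000000008000200000002 := rS 0xa95711660a544c3399fcba9d1f97e26ad60b24c27d50a9550b34f9d618238c424f27b4d9dc32090186c2cf117b4cca5a058752e06318b5126c (k8 c950 c680 c910 c2822 c831 c2930 c85 c567 (k8 c830 c2444 c9214 c172 c4294 c951 c2672 c28 (k8 c230 c254 c6033 c2863 c705 c2452 c4318 c4482 (k8 c9227 c9201 c9224 c4384 c9226 c9225 c190 c9209 (k8 c4379 c4302 c4305 c4450 c2947 c4340 c2443 c8194 (k8 c2968 c2821 c4313 c4408 c9202 c7315 c8056 c9203 (k4 c4337 c1948 c4468 c437 k0))))))) (by decide +kernel)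
def c9231 : PP 8 4 T 0x2000001000000000000000000000004000000040000000000008000200000002 := rS 0x318a84939345874a4591e867e829742a5f62b05920f309f542b33ac30ca973193896238c424f27b4d9dc32090186cb42f058740cf126a0c2d455434d126c (k8 c950 c680 c9214 c9225 c4398 c951 c4306 c1990 (k8 c4294 c831 c85 c567 c172 c830 c2672 c28 (k8 c230 c254 c6033 c2863 c705 c2452 c4318 c4482 (k8 c9227 c1321 c4474 c2822 c2930 c2444 c9201 c9224 (k8 c9226 c9209 c4379 c4302 c4376 c4305 c4450 c4370 (k8 c2443 c2632 c2821 c9230 c8784 c4392 c1312 c2482 (k8 c4485 c4459 c4426 c2123 c452 c1022 c4473 c250 k0))))))) (by decide +kernel)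
def c9232 : PP 8 4 T 0x2000001000000000000000000000000000000040000000000008000200000002 := rS 0xa191d8e493f150a1054318cba5f32b241e613ea84962369c621279361ed36770c824061b2d059e22f058740ca8 (k8 c9225 c831 c85 c567 c172 c4294 c951 c830 (k8 c2672 c28 c230 c254 c6033 c2863 c705 c950 (k8 c2452 c4318 c4482 c9214 c9227 c1321 c9209 c4379 (k8 c4302 c4376 c4305 c2444 c2443 c2821 c2822 c9231 (k8 c4410 c1836 c1837 c8784 c1725 c250 c1602 c4392 (k1 c4473 k0)))))) (by decide +kernel)
def c9233 : PP 8 4 T 0x2000001000000000000000000000000000000000000000000008000200000002 := rS 0x22cc2398ae0a660aab566758608e31093c9ed36770c824061b0b3c45ed336194b40b0ea5c0c63 (k8 c2822 c831 c2930 c85 c567 c830 c2444 c950 (k8 c9214 c172 c4294 c951 c2672 c28 c230 c254 (k8 c6033 c2863 c705 c2452 c4318 c4482 c9227 c9201 (k8 c9224 c9226 c2947 c2632 c9232 c4310 c8717 c8594 (k2 c9207 c4481 (k1 c4362 k0)))))) (by decide +kernel)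
def c9234 : PP 8 4 T 0x2000000000000000000000000000000000000080000000000008000200000002 := rS 0x883fb0e2d0562b056675861952e634584ce63b43945080c383909c4b11c621279361ed36770c824061b2d0bc161d033c49a830b51550d3 (k8 c9214 c9225 c4398 c951 c4306 c1990 c4294 c831 (k8 c85 c567 c172 c830 c2672 c28 c230 c254 (k8 c6033 c2863 c705 c950 c2452 c4318 c4482 c9227 (k8 c1321 c4474 c9233 c9229 c496 c1487 c4405 c1836 (k8 c4403 c1021 c4401 c5853 c2822 c2930 c2444 c9201 (k8 c9224 c9226 c4450 c4370 c4310 c4481 c4362 c9219 (k2 c2123 c684 k0))))))) (by decide +kernel)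
def c9235 : PP 8 4 T 0x2000000000000000000000000000000000000000000000000008000200000002 := rS 0xb749c5d8489338d99a8739a2ce02b63944761372138eab325c3047455434c9a8331a5c161d328bc2cad62b06307b4dc24f26c3bbc432090186cb406 (k8 c831 c830 c2672 c28 c230 c254 c4294 c6033 (k8 c950 c2452 c4318 c2863 c705 c4482 c4450 c4370 (k8 c2947 c951 c172 c2444 c85 c567 c2930 c2822 (k8 c4306 c1990 c9214 c9225 c4398 c9227 c9201 c1321 (k8 c9226 c9224 c4474 c9233 c4401 c4403 c4405 c4289 (k8 c9216 c9229 c5853 c1021 c1836 c1479 c497 c9234 (k4 c680 c2123 c4362 c1128 (k2 c1168 c9080 k0)))))))) (by decide +kernel)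
def c9236 : PP 8 4 T 0x40000000000000401001000000000000000000014000001000051124054500000000000000000000480 := rS 0xaf88a893ea186234c235063250715 (k8 c4387 c588 c586 c496 c1304 c2446 c1385 c6999 (k4 c4329 c4384 c2118 c4337 (k2 c5449 c4491 k0))) (by decide +kernel)
def c9237 : PP 8 4 T 0x2000200000000000000100000500014040100000154055500000000000000000000000 := rS 0x25622b8511fcfa8f (k8 c4388 c4409 c4313 c2118 c8522 c4337 c858 c6781 k0) (by decide +kernel)
def c9238 : PP 8 4 T 0x40000000000000420201001000000000000000014000040000005556054581100000000151005150000 := rS 0x3958ea325125528006a148f43642f6288358a7d1aa13089d7ebb8c425668b (k8 c5853 c664 c4318 c4482 c4449 c7782 c4324 c4326 (k8 c4329 c4383 c4384 c624 c640 c4480 c6133 c9237 (k8 c4422 c1582 c716 c506 c2122 c8675 c4199 c6395 (k4 c4526 c1454 c4520 c7091 k0)))) (by decide +kernel)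
def c9239 : PP 8 4 T 0x488040400000000011105414000000400002000000000000000 := rS 0xbd58b3d7143 (k4 c4391 c331 c1520 c1203 (k2 c1208 c8129 k0)) (by decide +kernel)
def c9240 : PP 8 4 T 0x10000000000000000008000000000000000000010040000000000008000600000002 := rS 0x58a0d1ea95031d3eb7880f102e5239244e4b691a462165f9bd76258c424f69b3bbc41219019e436590f82c3a6b449b167171d94c5a29288fc56ab4ba1596a3303f4be5a0317522a7 (k8 c2908 c2892 c2821 c831 c830 c2443 c9235 c4477 (k8 c936 c7727 c713 c2930 c1947 c437 c8194 c1867 (k8 c957 c910 c416 c1048 c4362 c664 c950 c680 (k8 c5752 c85 c567 c86 c487 c2672 c2452 c28 (k8 c254 c230 c4294 c6033 c2863 c705 c4318 c4482 (k8 c9200 c4449 c9199 c7782 c951 c173 c2823 c9201 (k8 c4375 c4278 c4281 c4374 c8394 c6395 c4471 c4468 (k8 c1742 c4414 c9239 c2110 c7768 c851 c641 c625 (k1 c6396 k0))))))))) (by decide +kernel)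
def c9241 : PP 8 4 T 0x8000000000000000000140040000000000008000200000002 := rS 0x88c10d389f4fe13158a4ab041daad0e51a5c5cc65d4ba447e1508994df135689631093da6ceef10486406a73c86cbe062c87c161d35bf5126c59968a62d (k8 c910 c416 c830 c664 c950 c680 c9235 c5752 (k8 c85 c567 c86 c487 c831 c2443 c2672 c2452 (k8 c2908 c28 c254 c230 c4294 c6033 c2863 c705 (k8 c4318 c4482 c9200 c2947 c4340 c9199 c2444 c2594 (k8 c2632 c8194 c2892 c2930 c2821 c2822 c4362 c4459 (k8 c1867 c7659 c1947 c1048 c4481 c7179 c957 c437 (k8 c8248 c4313 c4409 c9236 c9238 c4477 c9240 c2824 k0))))))) (by decide +kernel)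
def c9242 : PP 8 4 T 0x4000000000000000000015000400000000010005540000000000004000000000800000 := rS 0x3a680491487 (k4 c7043 c2123 c524 c525 (k2 c8248 c1762 k0)) (by decide +kernel)
def c9243 : PP 8 4 T 0x15000400000000010005540000000000000800000000800000 := rS 0x45a1da255 (k4 c1600 c1762 c1837 c525 (k1 c2123 k0)) (by decide +kernel)
def c9244 : PP 8 4 T 0x1000000000080000400000020010001104412000080000000000000000000080 := rS 0xb141a3d5279 (k4 c2452 c7768 c850 c641 (k2 c625 c6396 k0)) (by decide +kernel)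
def c9245 : PP 8 4 T 0x1001000000000000084000400000000011045540000000400000000000004800000 := rS 0x21d165567b158318 (k8 c4482 c4450 c4370 c1520 c251 c7341 c1837 c2123 k0) (by decide +kernel)
def c9246 : PP 8 4 T 0x10000000000000000000000000000000000000150040000000000008000200000002 := rS 0x13d1063a8502e5239244e4b691fd0aa311980ba6918afcde255397cb21f05874d6fd298b45295158f62cc359a2582c58c424f69b3c9b0eef10c824061b2d0587e06 (k8 c831 c8194 c951 c830 c2672 c28 c230 c254 (k8 c4294 c6033 c950 c2452 c2863 c705 c4318 c4482 (k8 c4370 c4450 c680 c664 c9241 c9242 c4416 c314 (k8 c4418 c834 c910 c416 c9235 c5752 c85 c567 (k8 c86 c487 c2443 c2908 c9200 c9199 c7782 c173 (k8 c2823 c2821 c4477 c2824 c936 c713 c672 c9201 (k8 c4375 c4278 c4281 c4374 c8394 c6395 c9244 c9245 (k2 c4468 c2110 (k1 c4414 k0))))))))) (by decide +kernel)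
def c9247 : PP 8 4 T 0x1000150040000000000008000200000002 := rS 0x8723d0d98c7679fc1c4a65a01a669178c54ebf5d94c5ab95ac5986b344b058b18849ed36793bbc432090186c2c3f5ea0cd8b78a2c4c30c2d1bc0cfd (k8 c9235 c831 c9199 c830 c9246 c4326 c624 c4480 (k8 c4353 c950 c640 c6133 c8194 c951 c2672 c28 (k8 c230 c254 c4294 c6033 c2452 c2863 c705 c4318 (k8 c4482 c4370 c4450 c680 c664 c9241 c9242 c4419 (k8 c4361 c910 c416 c4449 c7782 c2908 c173 c172 (k8 c2823 c5722 c7040 c3750 c6395 c1835 c3428 c3318 (k4 c9245 c2129 c4395 c3317 (k2 c1909 c7240 k0)))))))) (by decide +kernel)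
def c9248 : PP 8 4 T 0x150040000000000008000200000002 := rS 0x126a38841592845ba3e28b14fa3542618618d2e91329bdfab95aa562cc359a2582c58c424f69b3c9b0eef10c824061b2d0587e06 (k8 c831 c8194 c951 c830 c2672 c28 c230 c254 (k8 c4294 c6033 c950 c2452 c2863 c705 c4318 c4482 (k8 c4370 c4450 c680 c664 c9241 c9242 c4418 c4419 (k8 c4361 c9235 c9199 c2444 c2892 c2930 c2822 c9246 (k8 c4326 c4329 c4383 c4384 c624 c4480 c4388 c4353 (k4 c9247 c2479 c8522 c4478 (k2 c4337 c4413 (k1 c2125 k0)))))))) (by decide +kernel)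
def c9249 : PP 8 4 T 0x400000000000000040015440500400000010585544000000000400100400414804080 := rS 0x21d1743 (k4 c4392 c2482 c9221 c2123 k0) (by decide +kernel)
def c9250 : PP 8 4 T 0x140040000000000008000200000002 := rS 0x4521d5f1182288fea12388da68d409f46c611a83d92838aac4e03b4aad62cc331975223f05874be39328be26a70b2b57e6f5db1583183da6e12793bbc432090186c0cfd449b1665a (k8 c830 c664 c950 c680 c9235 c831 c2672 c28 (k8 c230 c254 c4294 c6033 c2452 c4318 c2863 c705 (k8 c4482 c4450 c4370 c4449 c9199 c7782 c2947 c951 (k8 c2908 c4340 c172 c2444 c8463 c2443 c85 c567 (k8 c8194 c2892 c2821 c2822 c9241 c9242 c4419 c4418 (k8 c9243 c9248 c124 c4387 c588 c586 c1416 c1304 (k8 c2446 c497 c1419 c1422 c1385 c5772 c833 c1412 (k8 c4551 c9249 c5857 c8784 c4337 c5449 c4410 c9062 (k1 c5443 k0))))))))) (by decide +kernel)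
def c9251 : PP 8 4 T 0x20000000000000000000001000044000000000020000002000001100154200000580 := rS 0x2388d8e491b0d41f15 (k8 c4387 c1416 c1304 c497 c4209 c250 c833 c1411 (k1 c4200 k0)) (by decide +kernel)
def c9252 : PP 8 4 T 0x1000000000000000011000044014000000000001002000001000150200000002 := rS 0xb747c50e28d50c304eb10480cba974882c3a5f1c968de06 (k8 c831 c9199 c830 c8463 c2443 c85 c567 c2892 (k8 c2930 c2821 c28 c230 c624 c870 c4477 c4329 (k4 c4383 c9251 c4480 c4388 (k2 c4353 c2125 k0)))) (by decide +kernel)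
def c9253 : PP 8 4 T 0x80040000000000008000200000002 := rS 0x63a8492d23f88e1a6049a8d6a298827c56544ab25723a1e84e0a630a844ca6f12c62127b4d9dde2090c80d4e793606cbe5a031643e0b0e9adfa2d (k8 c910 c9235 c5752 c85 c567 c86 c487 c831 (k8 c830 c2443 c2672 c950 c2452 c2908 c28 c254 (k8 c230 c4294 c6033 c2863 c705 c4318 c4482 c9200 (k8 c9199 c2444 c2594 c2632 c2822 c4408 c1561 c1615 (k8 c1021 c3002 c1731 c1616 c1022 c8717 c6233 c4478 (k8 c8448 c3540 c4337 c4413 c9252 c4326 c2824 c672 (k4 c9201 c8735 c5930 c7228 (k1 c8916 k0)))))))) (by decide +kernel)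
def c9254 : PP 8 4 T 0x1000000000080000000100044000001104416000000000002000151000000080 := rS 0x142c7540dd05145f9e61249 (k8 c4281 c4318 c2452 c7782 c4480 c6396 c4386 c641 (k2 c330 c7768 (k1 c8916 k0))) (by decide +kernel)
def c9255 : PP 8 4 T 0x42000000000008000200000002 := rS 0xa163d0d68c858204924b69214e22386a447e6f12c62127b4d9dde2090c80d4e793606cbe590f9adfa3c51a7e20e5168a4760b0e8ac247439994b406 (k8 c831 c830 c2444 c9253 c9250 c498 c1638 c85 (k8 c567 c1575 c835 c910 c4401 c4468 c4414 c4337 (k8 c499 c9235 c5752 c86 c487 c2443 c2672 c950 (k8 c2452 c2908 c28 c254 c230 c4294 c6033 c2863 (k8 c705 c4318 c4482 c9200 c9199 c8194 c2892 c4326 (k8 c2824 c585 c713 c9201 c4375 c4281 c6395 c9254 (k4 c626 c627 c4422 c1432 (k2 c1707 c8900 k0)))))))) (by decide +kernel)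
def c9256 : PP 8 4 T 0x40000000000008000200000002 := rS 0x240358e801bb4e288538b2142838609d62614fa8e202b728a478123f8ecfa74398b4c65d3482c3a112f9945e31538597e6f5dc60f69b849e4d8777886412030d9680cfd (k8 c9235 c831 c830 c2672 c28 c230 c254 c4294 (k8 c6033 c950 c2452 c4318 c2863 c705 c4482 c4449 (k8 c9199 c7782 c951 c2908 c173 c172 c2444 c2443 (k8 c2594 c85 c567 c2823 c2821 c2822 c910 c9253 (k8 c9250 c1691 c1575 c2450 c498 c499 c835 c4401 (k8 c1638 c4468 c4337 c4414 c9255 c624 c870 c4477 (k8 c640 c4329 c5857 c2447 c2479 c4480 c5722 c4386 (k4 c7040 c330 c1294 c9121 (k1 c1719 k0))))))))) (by decide +kernel)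
def c9257 : PP 8 4 T 0x40000000000000001000002002008100200000002 := rS 0x294d025a268a845e88d031438a3c1e375ad0c223956afcdebb628954e590f82c3a6b58a0d924d13a7e18fd2f975a66918a1ca2e41485926b28b9d4e61555b06307b4dc24f26c3bbc432090186cb4065ba52229715c154266 (k8 c9256 c896 c4310 c8717 c2930 c4334 c7465 c1746 (k8 c831 c830 c2672 c28 c230 c254 c4294 c6033 (k8 c950 c2452 c4318 c2863 c705 c4482 c4450 c1700 (k8 c2632 c8594 c2449 c4416 c4481 c1654 c951 c2962 (k8 c4468 c4405 c1836 c173 c2823 c8394 c2821 c2443 (k8 c9235 c4477 c4384 c870 c376 c632 c640 c624 (k8 c5752 c85 c567 c86 c487 c2908 c9200 c4370 (k8 c4449 c9199 c7782 c2947 c8463 c2594 c4421 c1703 (k8 c323 c243 c4521 c667 c8631 c1835 c832 c6133 (k4 c7444 c8243 c9057 c1320 (k2 c7117 c7658 (k1 c4426 k0)))))))))))) (by decide +kernel)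
def c9258 : PP 8 4 T 0x40000000000000001000000002008100200000002 := rS 0x1151ba3844495945c4b18849ed3677788243203539e4d81b2c87c161d359d4e61513a7e18fd2f9680c5d23b1da6e4888a45705331a46216 (k8 c951 c173 c2823 c9256 c4310 c8717 c2962 c4334 (k8 c4468 c8394 c4289 c4404 c2821 c831 c830 c2443 (k8 c9235 c4477 c4384 c870 c2632 c8594 c2449 c5752 (k8 c85 c567 c86 c487 c2672 c950 c2452 c2908 (k8 c28 c254 c230 c4294 c6033 c2863 c705 c4318 (k8 c4482 c9200 c4416 c4481 c9257 c4200 c832 c1410 (k2 c4388 c8631 k0))))))) (by decide +kernel)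
def c9259 : PP 8 4 T 0x1000000040000440100000000000405404000100010000000400a00800480 := rS 0x10a813893c1e34 (k4 c833 c1327 c1490 c1304 (k2 c1835 c523 (k1 c9043 k0))) (by decide +kernel)
def c9260 : PP 8 4 T 0x40000000000000001000000000008100200000002 := rS 0x529a08925a128a813883c6f432408c7a8769b1ca2e4348e45f13188597e6f5d89631093da6ceef10486406a73c86cb21f05874d71114a2d5a2b82ac5066c64a84cc4d13a7e18fd2f9680c5d (k8 c2821 c831 c830 c2443 c9235 c4477 c4384 c870 (k8 c376 c9256 c896 c632 c950 c640 c624 c4310 (k8 c8717 c2947 c721 c2962 c4334 c5752 c85 c567 (k8 c86 c487 c2672 c2452 c2908 c28 c254 c230 (k8 c4294 c6033 c2863 c705 c4318 c4482 c9200 c4449 (k8 c9199 c7782 c951 c173 c4340 c172 c8463 c2823 (k8 c4468 c4405 c4289 c8394 c1836 c9258 c9259 c7771 (k8 c4421 c322 c243 c497 c1835 c8243 c9081 c1320 (k4 c9042 c7117 c4485 c4426 k0))))))))) (by decide +kernel)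
def c9261 : PP 8 4 T 0x1000000000000000000000000000000000000000000008000200000002 := rS 0x22cc259ab4eef10c824061b3c9b0f69b3a9cc570533054b406 (k8 c831 c830 c2632 c9256 c4310 c8717 c8594 c2449 (k8 c2863 c705 c950 c2452 c2672 c28 c230 c254 (k4 c4294 c6033 c2947 c9211 (k2 c9207 c4481 (k1 c4362 k0))))) (by decide +kernel)
def c9262 : PP 8 4 T 0x1000000000008000200000002 := rS 0x2a10aaba5b3d10a2419acbb1356c24d8fd829985ae4 (k8 c9261 c4286 c9256 c4310 c9235 c950 c4318 c2947 (k8 c4340 c2821 c5752 c640 c9260 c9183 c1524 c4457 (k4 c1944 c685 c4526 c8675 k0))) (by decide +kernel)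
def c9263 : PP 8 4 T 0x8000200000002 := rS 0x2386981a6e40b1b06269 (k8 c2823 c173 c950 c951 c9261 c8394 c9262 c4326 (k2 c2824 c9201 k0)) (by decide +kernel)
def c9264 : PP 8 4 T 0x10000000002000040000000000080000000000000000000000000000000400000000 := rS 0x1289c5ac7 (k4 c4289 c4286 c934 c1463 (k1 c4467 k0)) (by decide +kernel)
def c9265 : PP 8 4 T 0x1000000000000000000000000000000000010000010000000000002200000400 := rS 0x22836 (k2 c312 c8629 (k1 c4386 k0)) (by decide +kernel)
def c9266 : PP 8 4 T 0x1100000002000000100004100040000000010000002000000000040000200000002 := rS 0x1fd6667158e4b46f239d426731d818e291 (k8 c2892 c585 c831 c4403 c1021 c4401 c498 c4404 (k8 c9199 c830 c8463 c8717 c7451 c664 c672 c5124 k0)) (by decide +kernel)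
def c9267 : PP 8 4 T 0x1001000000000040000120180000000001501404000080004000040000000000080 := rS 0x9a629e97f44 (k4 c4484 c4399 c9035 c1254 (k2 c705 c869 k0)) (by decide +kernel)
def c9268 : PP 8 4 T 0x2000000000000000000000000000002002000000000000000200000002 := rS 0x9b5f3159ccd5321170ae599fe08bd8a2dcfa8164a0d6237548304c25519c446fd86a7522590f8e4de473a84ce63b3c9dc83131792da6f018c24161d0d9680c33 (k8 c9263 c831 c830 c2672 c85 c567 c4318 c5699 (k8 c5814 c5695 c4434 c2830 c4342 c8691 c1023 c2452 (k8 c4403 c1021 c4401 c498 c4404 c9199 c8463 c86 (k8 c487 c2892 c2968 c4326 c4302 c2824 c585 c9264 (k8 c9265 c4467 c871 c2976 c321 c505 c2460 c506 (k8 c1293 c1291 c7094 c4480 c6133 c9266 c4313 c4312 (k8 c9197 c8522 c9267 c713 c1481 c909 c1255 c1525 (k2 c869 c4566 k0)))))))) (by decide +kernel)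
def c9269 : PP 8 4 T 0x200000002000000100000000000000000010000000000001000000000000115000 := rS 0x553f91c26c7 (k4 c4289 c4401 c4404 c4313 (k2 c4406 c2107 k0)) (by decide +kernel)
def c9270 : PP 8 4 T 0x100000002000000000008000000000200000000001000000000000000000000002 := rS 0x33c454092 (k4 c1117 c1118 c4413 c896 (k1 c5056 k0)) (by decide +kernel)
def c9271 : PP 8 4 T 0x10000000002000000000000000000000000040002000000000000000000600000002 := rS 0x19489559ed64ad45950066b37b1cea13398ecee41898bda2b1538d5527115ade0a0d249f41efc2fb24ba6508855182413b4de0318482c3a1b2d0186661 (k8 c9268 c9263 c831 c830 c2672 c85 c567 c4318 (k8 c5699 c5814 c5695 c870 c4467 c313 c2632 c2594 (k8 c2444 c2821 c7308 c2443 c4477 c4376 c4379 c2259 (k8 c1367 c9269 c9270 c8717 c1385 c1504 c1370 c904 (k8 c624 c4298 c2830 c4342 c8691 c1023 c4403 c1021 (k8 c4401 c498 c4289 c9199 c5752 c28 c9191 c1766 (k4 c945 c5124 c8617 c8595 (k2 c8609 c8600 (k1 c5517 k0))))))))) (by decide +kernel)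
def c9272 : PP 8 4 T 0x10000000002000000000000000000000000000002000000000000000000600000002 := rS 0x9b3d2ba331056c592a3d33ad6867e5b8ae0ab98a834928c1b1f41ea312325f81f31974d2150897cca53288a58e793b906262f69bc0630905874365a030cc4e61 (k8 c9268 c870 c9263 c831 c830 c2672 c85 c567 (k8 c4318 c5699 c5814 c5695 c2830 c4342 c8691 c1023 (k8 c2452 c4289 c4402 c4405 c4290 c2444 c2443 c2594 (k8 c2632 c2823 c2821 c2822 c86 c4477 c7308 c4467 (k8 c9264 c4376 c4379 c312 c313 c2259 c1367 c4386 (k8 c1471 c9269 c8717 c9270 c9271 c4392 c3371 c9178 (k8 c5531 c6194 c4492 c6230 c4478 c4982 c7769 c4482 (k2 c868 c705 k0)))))))) (by decide +kernel)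
def c9273 : PP 8 4 T 0x100000002000000000000000000000000008002000000000000000000200000002 := rS 0x158af4aaad669a8c98cb21f3294c5a51149d4267917b45e0318482c3a1b2d018662b (k8 c8717 c9263 c831 c830 c2672 c85 c567 c4318 (k8 c5699 c5814 c4298 c2830 c2452 c4401 c498 c4402 (k8 c4405 c4286 c4290 c2444 c86 c487 c2822 c4366 (k4 c705 c8617 c8583 c5073 (k2 c868 c2112 (k1 c9192 k0)))))) (by decide +kernel)
def c9274 : PP 8 4 T 0x2000000000000020000000000000002000000000000000000200000002 := rS 0x114af (k2 c193 c945 (k1 c9194 k0)) (by decide +kernel)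
def c9275 : PP 8 4 T 0x20100000002000000000000040000000000000002000000000000000000200000002 := rS 0x8814ca22917bc0630905874365a030cd5a2b (k8 c8717 c9274 c9263 c831 c830 c2672 c85 c567 (k8 c4318 c5699 c5814 c2830 c4402 c4405 c4290 c9188 (k1 c7769 k0))) (by decide +kernel)
def c9276 : PP 8 4 T 0x40000444180000000020505004000000002010005000400000080 := rS 0x4233c6e77 (k4 c1023 c323 c4097 c9037 (k1 c685 k0)) (by decide +kernel)
def c9277 : PP 8 4 T 0x420000000002000040000444090400001000505004081080000000005444410000080 := rS 0x1ba1528cf511247229639dc82b112aae9688 (k8 c985 c4428 c192 c4381 c624 c8691 c1023 c4289 (k8 c4402 c8463 c9276 c7771 c1524 c7458 c685 c8630 (k1 c9081 k0))) (by decide +kernel)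
def c9278 : PP 8 4 T 0x2002000000000008110010000020004002080000000000001040010000000 := rS 0x4aace269b (k4 c865 c4342 c1163 c1746 (k1 c7457 k0)) (by decide +kernel)
def c9279 : PP 8 4 T 0x500000000200000000100044000005405400010000 := rS 0x1524d (k2 c1895 c1361 (k1 c2111 k0)) (by decide +kernel)
def c9280 : PP 8 4 T 0x20000000002000000000040090000001000104006081080000000005444410000080 := rS 0xb64444da6f00dac54e8350afcf309 (k8 c4318 c2452 c7782 c4329 c640 c904 c624 c2672 (k4 c5814 c5695 c4342 c985 (k2 c9277 c9278 k0))) (by decide +kernel)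
def c9281 : PP 8 4 T 0x28000100000002000000000000014000010080000000040000000000005000004000002 := rS 0xc2 (k2 c8228 c4362 k0) (by decide +kernel)
def c9282 : PP 8 4 T 0x100000002000000000000000000000000000002000000000000000000600000002 := rS 0x4592a8a59a24ce87a5aad5d183d8acc691379d426731d9e4ee4189ab576815289618a7139849e4b7806c6309058745e33089680c5d (k8 c2821 c831 c830 c2594 c9263 c2830 c85 c567 (k8 c4318 c5699 c2672 c5814 c4434 c4297 c9268 c870 (k8 c904 c9272 c4381 c4385 c9279 c4847 c9274 c4342 (k8 c8691 c1023 c2452 c4403 c1021 c4401 c498 c9199 (k8 c2892 c2822 c8717 c9273 c4482 c9275 c192 c4428 (k8 c1632 c9280 c680 c664 c4485 c5073 c4481 c9281 k0)))))) (by decide +kernel)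
def c9283 : PP 8 4 T 0x28000000002002000000000000000000000000000000000000000000000000000000000 := rS 0x3d (k2 c4416 c4982 k0) (by decide +kernel)
def c9284 : PP 8 4 T 0x1200002002000000000000080014050000001400015580000000000004000110000 := rS 0xc6428e211749b16307b4d8ac262d689fcce7d (k8 c4409 c4310 c4313 c4298 c4286 c4401 c1774 c868 (k8 c705 c4482 c4370 c1778 c9283 c4487 c4337 c2118 (k2 c4520 c506 k0))) (by decide +kernel)
def c9285 : PP 8 4 T 0x4000000000000000040200010100000000000008010000000000000000000200040002 := rS 0x371ac501afd359a422392d1bcea06 (k8 c831 c498 c9199 c830 c8463 c2594 c2823 c5752 (k4 c4305 c506 c4480 c8124 (k2 c4386 c8480 k0))) (by decide +kernel)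
def c9286 : PP 8 4 T 0x2000000000000004000010000000002000000000000000000600000002 := rS 0x1524d5f8d96cc938af5347a62c5d6ab960b0c7911490a8726f298b4a2293a84ce63b2593da2d358a9d5a2552aecfeb3439f5128b57c113ea18609cc27720c4c5ef01882c3a1b199e612652f8442a064b974b463 (k8 c2822 c830 c2821 c2930 c831 c2632 c2594 c2443 (k8 c2444 c4318 c2452 c9263 c2672 c85 c567 c5699 (k8 c5814 c2830 c4342 c8691 c1023 c9268 c870 c9272 (k8 c4329 c4384 c9282 c9284 c9194 c4314 c4409 c4410 (k8 c4312 c4313 c4847 c4385 c4381 c9274 c904 c624 (k8 c5695 c4298 c4297 c4434 c4403 c1021 c4401 c498 (k8 c4402 c4405 c4286 c4290 c9199 c8463 c2112 c4542 (k8 c4411 c314 c1128 c1660 c8464 c1658 c4416 c1782 (k8 c2123 c705 c1171 c707 c9285 c2121 c7094 c1246 (k2 c325 c867 (k1 c2111 k0))))))))))) (by decide +kernel)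
def c9287 : PP 8 4 T 0x2000000000000000000010000000002000000000000000000600000002 := rS 0x191175bad5803438a68f5195cb0e22aa45abcc66b2ea5cd2150897cca6f3a84ce63b3c9dc831317b4de0318482c3a1b030cd625a13985428d4faee187f59a1cfb04 (k8 c9282 c4409 c4410 c4312 c4313 c9272 c4847 c4384 (k8 c4383 c4329 c9268 c870 c830 c624 c9263 c831 (k8 c2672 c85 c567 c4318 c5699 c5814 c5695 c2830 (k8 c4342 c8691 c1023 c2452 c4403 c1021 c4401 c498 (k8 c9199 c2444 c2443 c2594 c2632 c2823 c2930 c2821 (k8 c5752 c2822 c9284 c9194 c9286 c4415 c1947 c6781 (k8 c9062 c4482 c705 c707 c8467 c1972 c7883 c1037 (k2 c4420 c2121 (k1 c9285 k0))))))))) (by decide +kernel)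
def c9288 : PP 8 4 T 0x200000002000000000000000054000000000000015500000000000044000110000 := rS 0x319013169fcce7d (k8 c4409 c4310 c4313 c4286 c4401 c2118 c4520 c506 k0) (by decide +kernel)
def c9289 : PP 8 4 T 0x2000000000000000000000000000002000000000000000000600000002 := rS 0xd62a8e510dd6e2b4a4113e2550c303e632ea442a112f8e4ca2969bc0630905874365a030cc4e61 (k8 c9268 c870 c9263 c831 c830 c2672 c85 c567 (k8 c4318 c5699 c5814 c5695 c4402 c2444 c8463 c2443 (k8 c2594 c2632 c2892 c2821 c2822 c86 c9272 c4329 (k8 c4381 c4384 c9282 c9287 c1695 c1746 c8630 c9288 (k4 c858 c4388 c1305 c4470 k0))))) (by decide +kernel)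
def c9290 : PP 8 4 T 0x1002000000000000000020080080000000041410000080000000000000000000000 := rS 0x7b8ca6e96cb (k4 c8140 c4428 c2873 c8242 (k2 c705 c4482 k0)) (by decide +kernel)
def c9291 : PP 8 4 T 0x200000002000000000000000000020000000002000000000000000000200000002 := rS 0xf7194c30d548b57ae14487599fcc65d4b9642a112f994a62d288a4ea13399e4ee41898bda2f018c24363313ab5429f23adc767d5abf22a8e58984b46f031c4682205874561f (k8 c86 c1695 c85 c567 c9289 c833 c1304 c831 (k8 c9199 c830 c9268 c624 c832 c4388 c4480 c7883 (k8 c8975 c4403 c1037 c4404 c1299 c2825 c9274 c870 (k8 c9263 c2672 c4318 c5699 c5814 c4298 c2830 c4342 (k8 c8691 c1023 c2452 c1021 c4401 c498 c4402 c4405 (k8 c4286 c4290 c2444 c2443 c2594 c2632 c487 c2930 (k8 c2821 c2822 c4313 c4312 c4410 c9288 c4088 c9290 (k4 c9194 c2112 c1947 c1701 (k2 c9062 c1131 (k1 c4482 k0)))))))))) (by decide +kernel)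
def c9292 : PP 8 4 T 0x2000000000000000000020000000002000000000000000000200000002 := rS 0x108bf591ee0a633a84cf241898bd06bb25bc063090d8cd02fc8aa3962612d1bc0c711a088161d (k8 c85 c567 c9289 c833 c1304 c831 c9199 c830 (k8 c9268 c624 c832 c4388 c4480 c4380 c9263 c2672 (k8 c4318 c5699 c5814 c4434 c1309 c640 c2830 c4342 (k8 c8691 c2452 c4401 c498 c2822 c9291 c9273 c5073 (k2 c7782 c7037 (k1 c8624 k0)))))) (by decide +kernel)
def c9293 : PP 8 4 T 0x2000000000000000000000000000002000000000000000000200000002 := rS 0xf71982c58fcb959a55f87d8aadce2b5470d044b1309dde041188bcf3098982c3a1b2d1bc6675099cc7606 (k8 c831 c4403 c1021 c4401 c498 c9263 c9199 c830 (k8 c2672 c85 c567 c4342 c4318 c2452 c2830 c5699 (k8 c8691 c5814 c1023 c9268 c624 c9289 c833 c832 (k8 c7883 c1304 c1037 c4388 c8975 c4480 c9292 c665 (k4 c1476 c4088 c8860 c4313 (k2 c9283 c9273 (k1 c4482 k0))))))) (by decide +kernel)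
def c9294 : PP 8 4 T 0x800000000002000000000000000000000021080000080000001000010000200000002 := rS 0x28c667b3696952af (k8 c4346 c4345 c830 c9293 c704 c9263 c9181 c9180 k0) (by decide +kernel)
def c9295 : PP 8 4 T 0x1900100000002000040000004500000000020001000001000000000000400200000002 := rS 0x954c0c419c0fe8540924fa6b2e9a4be392d0ac463536ae4de3d5ac58ea13398ec0ca95289d4266 (k8 c5056 c896 c870 c4444 c4345 c831 c4403 c1021 (k8 c4401 c498 c4481 c4419 c4416 c9199 c4548 c9293 (k8 c8774 c833 c8717 c830 c8463 c2443 c2823 c2821 (k8 c5752 c8975 c4209 c2045 c9177 c9294 c4088 c588 (k4 c496 c2119 c1367 c4558 k0))))) (by decide +kernel)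
def c9296 : PP 8 4 T 0x22800000000000000040000000000000000000000000000000000000000004600000000 := rS 0x961a37 (k4 c4386 c8237 c312 c4467 k0) (by decide +kernel)
def c9297 : PP 8 4 T 0x20800100000002000040000000500000000020001000001000000000000400200000002 := rS 0x12bf0fe8da1a1502b6249f62aa16489cd65d3497c725a378ac4635368f56aa95299a229b62b0556974ea54c6c38b1d426731d8195e99 (k8 c4443 c4346 c831 c4403 c1021 c4401 c498 c4481 (k8 c4362 c2822 c5073 c2968 c2930 c4445 c4420 c4370 (k8 c4448 c7223 c5056 c4444 c4345 c4419 c4416 c9293 (k8 c8774 c833 c8717 c9199 c830 c8463 c2443 c2823 (k8 c2821 c5752 c870 c632 c896 c9296 c8975 c4209 (k8 c9295 c2045 c9177 c4424 c1118 c9294 c4483 c313 (k1 c8613 k0))))))) (by decide +kernel)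
def c9298 : PP 8 4 T 0x1100000002000000000000500000000000001000000000000010000000200000002 := rS 0xd9191412a8d4e717ec34c08845d2cccd3684450ec54d90d7718179dd2e9d488fc161d2c87c721b228cca647288ac46354a98c7ac360c58ea13398ed7e7b2d1bc0ca957a654aab891acda69 (k8 c2823 c9293 c5752 c4479 c4445 c4444 c4443 c4346 (k8 c4345 c831 c9199 c830 c704 c7782 c4403 c1021 (k8 c4401 c498 c4481 c4420 c4362 c4416 c2822 c5073 (k8 c8774 c833 c8717 c4405 c4404 c4290 c9263 c440 (k8 c2672 c8463 c86 c487 c85 c567 c8194 c2892 (k8 c2968 c2930 c1023 c837 c4482 c4449 c4446 c4448 (k8 c4370 c8843 c7223 c2115 c6832 c5056 c4426 c720 (k8 c9078 c9297 c4326 c4302 c585 c7435 c9264 c9265 (k4 c4480 c7247 c7451 c1383 k0))))))))) (by decide +kernel)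
def c9299 : PP 8 4 T 0x2001100000002000000000000500000000000001400000000000000000000200000002 := rS 0x3318147111343537180b25d3a390d91cf65a1588c6a9531b0d82af4caae246b369a58a401bb4e2c75099cc7606 (k8 c831 c4403 c1021 c4401 c498 c4481 c4963 c4386 (k8 c9298 c1055 c2823 c9293 c5752 c4479 c4445 c4443 (k8 c4346 c4420 c4362 c2822 c5073 c8774 c833 c8717 (k8 c830 c704 c4404 c2672 c8463 c2968 c2930 c8238 (k8 c4482 c7150 c8237 c9296 c7223 c9264 c870 c5056 (k1 c7451 k0)))))) (by decide +kernel)
def c9300 : PP 8 4 T 0x1100000002000000010000400000000000000800000000000000000000200000002 := rS 0x1588b334445e894d8612e9d198b4522b4a98d86c18b1d426731d818620b0eabd32ab891acda69 (k8 c2823 c9293 c5752 c4479 c4445 c4443 c4346 c85 (k8 c567 c8071 c831 c4403 c1021 c4401 c498 c4481 (k8 c4420 c4362 c2822 c5073 c8717 c4402 c4286 c9263 (k8 c2968 c2930 c1024 c1888 c2042 c1870 c7223 c5056 (k2 c720 c7446 (k1 c8622 k0)))))) (by decide +kernel)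
def c9301 : PP 8 4 T 0x1100000002000000000000500000000000001000000000000000000000200000002 := rS 0x38bf4c08817a1d16d34dc5630163bb148112189ad226905874366f289ecda5a61b062c75099cc7606 (k8 c831 c4403 c1021 c4401 c498 c4481 c4420 c4362 (k8 c830 c9293 c704 c4405 c9199 c2672 c85 c567 (k8 c2823 c2892 c5752 c8071 c4479 c9298 c1055 c9300 (k8 c8238 c4482 c9299 c7150 c8394 c524 c1836 c836 (k4 c2123 c9297 c4302 c585 (k1 c4480 k0)))))) (by decide +kernel)
def c9302 : PP 8 4 T 0x1000000000000000000000000100000001000000004002000000000000000000000000 := rS 0xe2fd (k2 c4302 c585 (k1 c4480 k0)) (by decide +kernel)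
def c9303 : PP 8 4 T 0x1000100000002000000000000500000000000001000000000000020000400200000002 := rS 0x257e23542c93fad8cd114dc48d65d4ba74be9531a050ad3349247a39309bd22a562a2086c343914eec18b1d4261b2d22e10731d81952231a9b55651578a532f10f8cc621d (k8 c85 c1913 c9263 c86 c4433 c6171 c4402 c5815 (k8 c4405 c5962 c9293 c8774 c833 c6029 c831 c4403 (k8 c1021 c9301 c4322 c830 c2672 c4401 c498 c4481 (k8 c4420 c4438 c440 c4440 c4362 c91 c8505 c1055 (k8 c9161 c2892 c9199 c9302 c8463 c4416 c4209 c2823 (k8 c6832 c4321 c4439 c2822 c5073 c2443 c2968 c2930 (k8 c2821 c5752 c4469 c1848 c7223 c5056 c9295 c9294 (k4 c632 c896 c1118 c5279 (k2 c313 c8613 k0))))))))) (by decide +kernel)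
def c9304 : PP 8 4 T 0x1002001000000000000000000101100000000001005501500000000000000000000000 := rS 0x823829d0285 (k4 c4321 c4439 c4532 c4480 (k2 c2119 c588 k0)) (by decide +kernel)
def c9305 : PP 8 4 T 0x1000100000002000000000000500000000000001000000000000020000000200000002 := rS 0x2f118a61220df9194d0b932a952afc62f10e87cd65d2f96866231a9b5028569a1e1069309bc0c91 (k8 c2892 c831 c9199 c9302 c2823 c9301 c4440 c6832 (k8 c4321 c4439 c9293 c8774 c833 c9263 c830 c2443 (k8 c2821 c5752 c86 c85 c4433 c1913 c1053 c9161 (k8 c6029 c6171 c9303 c836 c4448 c9304 c4306 c8613 (k4 c2119 c313 c8272 c1119 k0))))) (by decide +kernel)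
def c9306 : PP 8 4 T 0x8002102000002000000000000001100100000001000001000000000000000200000002 := rS 0x16ebd38a3048bb359753a5f2d1cc760636ad502853bb4d0e69 (k8 c2823 c4440 c6832 c4438 c4321 c4439 c4419 c9293 (k8 c831 c4403 c1021 c830 c2443 c2968 c2821 c5752 (k4 c9162 c8613 c313 c1385 (k2 c1119 c9270 (k1 c8859 k0))))) (by decide +kernel)
def c9307 : PP 8 4 T 0x2000000000000000000000100200800000400000400000004000004000004010100 := rS 0xba309e4d5d2050a19 (k8 c4436 c4321 c4439 c1970 c3878 c1400 c1971 c6908 (k1 c7027 k0)) (by decide +kernel)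
def c9308 : PP 8 4 T 0x1000102000002000000000000500000800000001000000000000000000000200000002 := rS 0x27af9e0a8528c5321f0480cd6110d8cc47163a84ce63b309bd224b208d86a6d69a1e10691c9680c83 (k8 c4306 c831 c830 c8463 c2823 c9301 c4440 c6832 (k8 c9293 c8774 c4470 c9305 c1414 c2892 c9199 c9302 (k8 c4403 c1021 c4401 c498 c4481 c833 c9263 c2672 (k8 c2594 c5752 c28 c230 c86 c104 c1967 c9307 (k4 c9306 c6029 c867 c4297 (k1 c1511 k0)))))) (by decide +kernel)
def c9309 : PP 8 4 T 0x8000000000002000000000000002001500000000000000000000000004000600000000 := rS 0x784606313 (k4 c4345 c317 c4488 c6029 (k1 c9283 k0)) (by decide +kernel)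
def c9310 : PP 8 4 T 0x1000100000002000000000000402000400044001400000000000000000000200000002 := rS 0xad4c19a22a2860951b130e9ad3a15198a58e7b1588d8636699a44e91248f62c75099cc7635368e4b406 (k8 c831 c830 c8463 c9293 c8774 c4403 c1021 c4401 (k8 c498 c4481 c4416 c4209 c2892 c4538 c2823 c6832 (k8 c4470 c4362 c833 c8717 c704 c4289 c4402 c9263 (k8 c2632 c2968 c5752 c85 c4345 c3481 c313 c4467 (k4 c7771 c4337 c5056 c9309 (k2 c2050 c8665 k0)))))) (by decide +kernel)
def c9311 : PP 8 4 T 0x102000002000000000000400000600044001400000000001000000000200000002 := rS 0x6224d131033ab6261d319ad3a15329ecda5a61b062c75099cc7606 (k8 c831 c4403 c1021 c4401 c498 c4481 c4420 c4362 (k8 c830 c9293 c704 c2444 c2632 c2968 c5752 c2822 (k8 c85 c4443 c2050 c8665 c4478 c9176 c4413 c2123 (k1 c7718 k0)))) (by decide +kernel)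
def c9312 : PP 8 4 T 0x1000102000002000000000000500000000000001000000000000000000000200000002 := rS 0x230f089a90629954a6d3a33459dc923d8b1d426731d984de91259046c3536b4d0f08348e4b406 (k8 c831 c830 c8463 c2823 c9301 c4440 c6832 c9293 (k8 c8774 c4470 c9305 c1414 c2892 c9199 c9302 c4403 (k8 c1021 c4401 c498 c4481 c4416 c4209 c4438 c4322 (k8 c9263 c2968 c9308 c9310 c9311 c317 c9306 c4444 (k2 c5936 c4488 (k1 c9283 k0)))))) (by decide +kernel)
def c9313 : PP 8 4 T 0x1000100000002000000000000500000000000001000000000000000000000200000002 := rS 0x9b542fd06a5384314efd309acba913497cb46f031b50285459dd0f08 (k8 c9301 c4440 c4438 c4322 c4321 c4439 c9293 c831 (k8 c9199 c830 c2443 c2823 c2892 c2821 c5752 c9302 (k8 c9312 c4532 c4477 c4480 c4385 c588 c1513 c2119 (k2 c867 c9310 k0)))) (by decide +kernel)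
def c9314 : PP 8 4 T 0x100000002000000000000502000400000001000000000000000000000200000002 := rS 0x28c1b104119d7ead46c302e982589e261d31824066b4e854ca333d8ac46c340a1516d3439a51e25240dc7a47638d4da3f1c969726f7e9c57abb5bc50ef085ac58ea13398ec0c2f (k8 c836 c831 c4403 c1021 c4401 c498 c4481 c4419 (k8 c9301 c4438 c9313 c4353 c4390 c4354 c4387 c8859 (k8 c9199 c4548 c830 c8463 c8194 c9293 c8774 c4289 (k8 c4404 c4416 c4386 c2113 c312 c4388 c2823 c4440 (k8 c6832 c4322 c4321 c4439 c4362 c833 c8717 c704 (k8 c9263 c2444 c2632 c2968 c5752 c28 c230 c2822 (k8 c85 c4345 c974 c1322 c9309 c8580 c7307 c9120 (k8 c2050 c5760 c8665 c9035 c4478 c508 c4337 c8668 k0)))))))) (by decide +kernel)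
def c9315 : PP 8 4 T 0x20100000002000000000000500000600000001000000000000000000000200000002 := rS 0x6419d460e56c4c3a9748854cad347a7c90b9158bd428da5aad108b439ece27d1b8fc6ac70891c7ab71cad582778a1bd87163a84ce63ba2a094aa72f9680ca934984ba8142c20da6b (k8 c5752 c9293 c9301 c4321 c4439 c2821 c4326 c2823 (k8 c9314 c831 c830 c2443 c4330 c4385 c2119 c4452 (k8 c4403 c1021 c4401 c498 c4481 c4362 c9199 c9313 (k8 c4438 c4420 c4419 c8463 c4353 c4416 c4404 c2594 (k8 c4289 c8774 c8194 c4386 c8221 c4387 c704 c4440 (k8 c4322 c8512 c1944 c4457 c4383 c4329 c836 c8717 (k8 c4548 c2113 c1662 c4388 c6832 c2444 c2632 c2892 (k8 c2930 c85 c4443 c2050 c8702 c4526 c8665 c243 (k1 c8577 k0))))))))) (by decide +kernel)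
def c9316 : PP 8 4 T 0x20100000002000000000000500000400000001000000000000000000000200000002 := rS 0x1319e0f3f2bd931266af8629955a228a8252a354e61359753a912f8cca62d288a4f62b61b05028545b4d0e69a1921727d1b9bc7e3536b1c22471e8e4b4fd38af576b78a1de10b58b1d426731d8185ea9 (k8 c9314 c836 c831 c4403 c1021 c4401 c498 c4481 (k8 c4419 c9301 c4438 c9313 c4353 c4390 c4354 c4387 (k8 c8859 c830 c8463 c4416 c4404 c2594 c4289 c9293 (k8 c8774 c8194 c9199 c4386 c8221 c4548 c2113 c8226 (k8 c2823 c4440 c6832 c4322 c4321 c4439 c4420 c4362 (k8 c8717 c704 c4402 c4405 c4286 c4290 c9263 c2443 (k8 c2892 c2968 c2821 c5752 c4326 c4330 c4383 c4385 (k8 c2119 c4452 c8512 c1944 c9315 c317 c7247 c1485 (k8 c4566 c637 c4346 c8735 c243 c1521 c9038 c7781 k0))))))))) (by decide +kernel)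
def c9317 : PP 8 4 T 0x40000000000a000000000000000000000810040061000045095544000000400400004158400002000 := rS 0x2095631443354b19a29c49ecf (k8 c1521 c448 c4387 c4399 c4369 c1404 c1485 c9154 (k4 c357 c1741 c6175 c8772 k0)) (by decide +kernel)
def c9318 : PP 8 4 T 0xa010101000002000000000010000000000045101400000000000000000000200000002 := rS 0x563455631669314a825fabd9e66501f9920c30099466b2ea74be33298b45275099ccf62b11b4cd2bb38d0c4a483e8dcde3b1f8d4dac70891c7ab71c9680cb5 (k8 c4419 c831 c830 c8463 c4353 c4416 c4404 c2594 (k8 c4289 c9293 c8774 c8194 c4403 c9199 c4386 c8221 (k8 c2113 c312 c8226 c4387 c4390 c2823 c6832 c833 (k8 c8717 c704 c1021 c4401 c498 c4402 c4286 c4290 (k8 c9263 c2443 c2968 c2821 c5752 c9264 c4467 c4477 (k8 c871 c506 c8735 c673 c672 c1521 c984 c9317 (k8 c7040 c1936 c509 c2065 c357 c1741 c381 c7129 (k1 c901 k0)))))))) (by decide +kernel)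
def c9319 : PP 8 4 T 0x400000000000000101000002000040100000045500000001800000001000002000001001200000002 := rS 0x260bd9ecd079f8225a030cca62d288a4da2b (k8 c8717 c9293 c4402 c4405 c4286 c4290 c9263 c831 (k8 c830 c2594 c8735 c243 c2065 c1521 c8705 c9038 (k1 c7781 k0))) (by decide +kernel)
def c9320 : PP 8 4 T 0x100000002000000000000500000000000001000000000000000000000200000002 := rS 0x5199cfec8412a55e3155a694a8d53a84c30c4fbf49025a19c57ab71ba3d771469a1cee8b42a0610b51ec597295319acba97489a47e590f97c72652d1bc8ec73a84ce63b030ac6a6d (k8 c9293 c8774 c8717 c831 c4403 c1021 c4401 c498 (k8 c4289 c4404 c9199 c830 c2444 c8463 c2443 c86 (k8 c487 c8194 c2823 c2892 c2930 c2821 c5752 c2822 (k8 c5073 c4548 c4481 c4416 c4419 c9301 c4439 c4321 (k8 c4322 c4438 c4440 c6832 c9313 c4390 c4388 c4386 (k8 c4353 c4354 c4387 c8226 c312 c2113 c8859 c1662 (k8 c9318 c4326 c4329 c4330 c4383 c4385 c9316 c8583 (k8 c1967 c868 c866 c2119 c9319 c155 c632 c8633 (k1 c8577 k0))))))))) (by decide +kernel)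
def c9321 : PP 8 4 T 0x400000000000000000000002000040100000044400000000880000400000000000004040400014000 := rS 0xd118ab59e4c0b3350b452991c5a29 (k8 c4402 c4286 c4404 c4290 c4452 c185 c2065 c4570 (k4 c9038 c1521 c6601 c1910 (k2 c381 c7129 k0))) (by decide +kernel)
def c9322 : PP 8 4 T 0x2000000000000000000000040000501000101505415501500000000000000000000000 := rS 0x26e26998caa17c8f (k8 c4388 c7040 c2119 c4369 c1133 c4345 c866 c4488 k0) (by decide +kernel)
def c9323 : PP 8 4 T 0x2020000000000000000000000000000000002005401100000000000000000000000002 := rS 0x4622509 (k4 c4321 c5976 c4482 c8237 k0) (by decide +kernel)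
def c9324 : PP 8 4 T 0x100000000000000100000000000000004200000000000002000000000000010000 := rS 0xfefd (k2 c4380 c1462 (k1 c8735 k0)) (by decide +kernel)
def c9325 : PP 8 4 T 0x400000000000000100000002000040000000904400000001810010000000000000000000200004002 := rS 0x1f8d6590f844de06228cca647168a58e2b118d5929457998b46d (k8 c9293 c830 c664 c984 c665 c634 c8774 c833 (k8 c8717 c4289 c4402 c4286 c4404 c4290 c9263 c440 (k8 c831 c9199 c2594 c86 c487 c5752 c8601 c9321 k0))) (by decide +kernel)
def c9326 : PP 8 4 T 0x20100000002000000000000100000000004001400000000000000000000200000002 := rS 0x15488412050a0f3ed0c90a347c50e2375da953e8d539844e6b2ea5d3a112f8e4de06238b452c73d8ac463536c5d92b74a16926b22c87da669 (k8 c2823 c6832 c86 c487 c9320 c1123 c830 c665 (k8 c1163 c634 c4358 c9293 c8774 c833 c8717 c704 (k8 c4289 c4402 c4286 c4404 c831 c9199 c8463 c2443 (k8 c2594 c2968 c2930 c2821 c5752 c4324 c4326 c4330 (k8 c4383 c4384 c4385 c4847 c9080 c497 c4470 c4388 (k8 c858 c4200 c4421 c1623 c243 c9323 c9324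 c9322 (k2 c8144 c9325 (k1 c1944 k0)))))))) (by decide +kernel)
def c9327 : PP 8 4 T 0x10100000002000040000000900000000000800000000000000000000000200000002 := rS 0x7e55c482c7d178c49e0c1309496a538bf50a6b05874b21f089bc0c451994c8e2d14b1c56c94a2bccc5a5188c6a6d (k8 c9293 c8774 c833 c9264 c830 c664 c984 c665 (k8 c634 c8717 c4289 c4402 c4286 c4404 c4290 c9263 (k8 c440 c831 c9199 c2594 c86 c487 c85 c567 (k8 c5752 c185 c4306 c2448 c1936 c1855 c9265 c4467 (k8 c871 c448 c357 c877 c1291 c508 c8580 c4445 (k2 c8601 c8772 k0)))))) (by decide +kernel)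
def c9328 : PP 8 4 T 0x100000002000000000000904140000005410410000000000000000008200000002 := rS 0x28696ce40c2063141b98122390d9bc0c33168a4563564add8a7b57998b46d (k8 c9293 c830 c664 c984 c704 c1250 c1163 c634 (k8 c8774 c8717 c4402 c4286 c9263 c831 c9199 c2672 (k8 c8463 c2892 c870 c321 c4538 c357 c9266 c4439 (k4 c8758 c4430 c1794 c8603 k0)))) (by decide +kernel)
def c9329 : PP 8 4 T 0x2000040000000900100001001405414400090000040014042201000590 := rS 0x2c2f89af130bf0f97c52365da3102fc (k8 c9265 c4380 c313 c1389 c312 c4402 c2443 c86 (k4 c1512 c8611 c2122 c4443 (k2 c1841 c9164 (k1 c8580 k0)))) (by decide +kernel)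
def c9330 : PP 8 4 T 0x2000000010000044000020000000000000000000080005040010000000 := rS 0x56b45862f298b4a229 (k8 c4402 c4405 c4286 c4290 c1953 c2054 c341 c861 (k1 c2112 k0)) (by decide +kernel)
def c9331 : PP 8 4 T 0x10000000002000040000000904100001001401415500190000000014042200000590 := rS 0xc90c62a630a0552fc4793518360e87cbe94629ed5e66 (k8 c664 c984 c704 c1250 c665 c2443 c86 c85 (k8 c312 c313 c2260 c1424 c9265 c3481 c4380 c4302 (k4 c2119 c2006 c9330 c8920 (k1 c9329 k0)))) (by decide +kernel)
def c9332 : PP 8 4 T 0x100000002000000000000104100000005001410000000000000000000200000002 := rS 0x7c060984a050480cd65a2ea44161d2c87cde061991c56a3118d4da8386b4cd2b2 (k8 c9320 c2823 c6832 c9326 c9327 c9293 c8774 c833 (k8 c9264 c8717 c4404 c9263 c831 c9199 c86 c487 (k8 c85 c567 c2892 c2821 c830 c5752 c28 c230 (k4 c54 c9331 c4467 c871 (k2 c9328 c1291 k0))))) (by decide +kernel)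
def c9333 : PP 8 4 T 0x100000002000040000000108100000001401400000000000000000001200000002 := rS 0x26a2c357c87409054f0817c4c3a6f19944f6bb4fad628371488d6e2b488d4da3903251645a (k8 c830 c9320 c665 c831 c8463 c9293 c8774 c2892 (k8 c8717 c1163 c833 c4402 c8630 c4470 c4389 c1698 (k8 c4390 c704 c4405 c9263 c9199 c85 c4445 c1844 (k8 c8595 c2013 c8691 c4439 c4440 c9037 c9326 c4399 (k2 c4467 c4568 k0))))) (by decide +kernel)
def c9334 : PP 8 4 T 0x100000002000040000000100100000001401410000000000000000001200000002 := rS 0x13186311284a1956a347c506e6b489a47206238a4f62b118d4da665ba51645a (k8 c830 c9320 c665 c1163 c664 c9293 c8774 c833 (k8 c8717 c704 c4402 c4404 c831 c8463 c2823 c2892 (k8 c5752 c8630 c4470 c4388 c858 c9333 c9332 c4440 (k4 c4479 c4482 c7451 c9296 (k1 c870 k0))))) (by decide +kernel)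
def c9335 : PP 8 4 T 0x100000002000040000000100100000001401410000000000000000000200000002 := rS 0x29930c017c4cc20f54aa9f88c1b43448050480cd65d489a4161d2c87cde0619944563536a51645a (k8 c830 c9320 c665 c9293 c8774 c8717 c4405 c9263 (k8 c831 c9199 c86 c487 c85 c567 c2823 c2892 (k8 c2821 c5752 c28 c230 c54 c9334 c4381 c312 (k8 c313 c9265 c9331 c3481 c4376 c4302 c4445 c1844 (k4 c1700 c1701 c8702 c3914 k0))))) (by decide +kernel)
def c9336 : PP 8 4 T 0x100000002000040000000100100000001001410000000000000000000200000002 := rS 0x125467c47a184f144fc31fa822c87c226f0311c5a29638ac463536a51645a (k8 c830 c9320 c665 c9293 c8774 c833 c8717 c4289 (k8 c4402 c4286 c4404 c831 c9199 c2594 c86 c487 (k8 c9335 c4306 c9327 c5295 c4480 c4324 c9326 c4388 (k4 c2005 c858 c1623 c4200 k0)))) (by decide +kernel)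
def c9337 : PP 8 4 T 0x100000002000000000000800000000009000400000000000000000000200000002 := rS 0x1045cab18ab42f09359a4161d0d8186653288a4563557998b46d (k8 c9293 c830 c664 c984 c8774 c8717 c4402 c4405 (k8 c4290 c9263 c831 c2672 c85 c567 c2823 c5752 (k8 c4440 c1836 c1904 c8071 c8595 c8628 c8238 c837 k0))) (by decide +kernel)
def c9338 : PP 8 4 T 0x2000040000004000000021000000020000400000000000040400000080 := rS 0x128d81829 (k4 c4402 c496 c497 c1367 (k1 c8630 k0)) (by decide +kernel)
def c9339 : PP 8 4 T 0x100000002000000000000100000000001001400000000000000000000200000002 := rS 0x792c1afc1b1362aba0b865022f841049ebd5fc4d487141c35a6870e9ad3a913497c721b37818667b1588c6a6d5ba51645a (k8 c830 c9320 c665 c1163 c9293 c8774 c833 c8717 (k8 c704 c9263 c831 c9199 c2672 c8463 c2443 c2823 (k8 c2892 c2968 c5752 c85 c9337 c6832 c9326 c9327 (k8 c9338 c9336 c4444 c1404 c1939 c1400 c9161 c4479 (k8 c837 c4439 c4436 c8580 c2122 c4390 c1975 c4470 (k4 c4480 c1407 c1414 c4376 (k1 c4802 k0))))))) (by decide +kernel)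
def c9340 : PP 8 4 T 0x100000002000000000000100000000000001400000000000000000000200000002 := rS 0x480c0cc35a6f16821d5a2f4d89e30ab189861284319acd20b0e97c36061994c762d288a456231aa2cf694499643eaf332c8b46d (k8 c9293 c830 c9320 c664 c984 c86 c487 c1123 (k8 c665 c704 c722 c8774 c833 c8717 c4402 c4405 (k8 c4286 c4403 c4290 c9263 c831 c2672 c2443 c85 (k8 c567 c2823 c5752 c2822 c9339 c4321 c712 c8071 (k8 c8595 c4482 c870 c4448 c836 c860 c7441 c2112 (k4 c4542 c6832 c9326 c261 (k2 c6224 c4467 (k1 c1367 k0)))))))) (by decide +kernel)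
def c9341 : PP 8 4 T 0x100000002000000000000100000000000001000000000000000000000200000002 := rS 0x15a2f558c50c9b0c424ec945918cd66905874365a0314c5a51148ac6a6d (k8 c9293 c8774 c8717 c4402 c4405 c4286 c4290 c831 (k8 c830 c2672 c85 c567 c2823 c5752 c2822 c9320 (k8 c665 c9340 c4438 c1024 c1888 c1192 c8071 c8595 (k2 c1870 c860 (k1 c7441 k0))))) (by decide +kernel)
def c9342 : PP 8 4 T 0x2000000000000844000000000004000000080000080005040010000000 := rS 0x18a94 (k2 c665 c1250 (k1 c9330 k0)) (by decide +kernel)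
def c9343 : PP 8 4 T 0x20100000002000000000000100000000000000000000000000000000000200001002 := rS 0x28cfeb77eb254e61319752e150897d8e23409bd0ad343c494a4b1a99958d11ec59667b369d426731d9085a2b298bc820b0eabc52ab189aca2f10b1e0666932968e206 (k8 c831 c496 c830 c2444 c2823 c9263 c9341 c500 (k8 c4431 c4405 c5752 c1910 c5962 c4402 c5815 c85 (k8 c567 c1847 c837 c4290 c8717 c4286 c501 c4403 (k8 c1021 c4401 c498 c9293 c704 c9342 c4481 c4416 (k8 c340 c2112 c6230 c8774 c1955 c6908 c8580 c1965 (k8 c6832 c2453 c9199 c1963 c833 c4289 c2443 c2594 (k8 c2632 c2930 c2821 c2822 c4326 c4330 c632 c4130 (k4 c8560 c7414 c8633 c8723 k0)))))))) (by decide +kernel)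
def c9344 : PP 8 4 T 0x100000002000000000000100000000000000000000000000000000000200001002 := rS 0x16c613fbf118491228e1a71139643e112f88c6ad343ad4ccac688f62cb33d9b4ea13398ec842d1594c5e41058755e29558c4d65178858f03334994b406 (k8 c831 c830 c2444 c2823 c9263 c9341 c500 c4431 (k8 c4405 c5752 c1910 c5962 c4402 c5815 c85 c567 (k8 c1847 c837 c4290 c8717 c4286 c501 c4403 c1021 (k8 c4401 c498 c9293 c704 c9342 c4481 c4416 c340 (k8 c2112 c6230 c4419 c1965 c6832 c8774 c833 c2443 (k8 c2594 c86 c487 c871 c496 c9343 c9264 c4467 (k4 c7307 c313 c9265 c9178 (k2 c4302 c7787 (k1 c9270 k0))))))))) (by decide +kernel)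
def c9345 : PP 8 4 T 0x10100000002000000000000100000000000000000000000000000000000200000002 := rS 0x53a0d40cf3f50c90bb5b9c62837659804ca3488e4ee8b5eae56a66563447b16599ecea2d1594c5e41058755e2955944cac9099f48e4f7e89418a525909a687398ed026f34974be5a548c4d6231a9b5e21619a14f006 (k8 c831 c9341 c2453 c9263 c500 c4431 c9293 c8774 (k8 c833 c5752 c1910 c6029 c830 c2443 c2821 c2823 (k8 c9199 c1963 c4403 c1021 c1965 c6832 c501 c1955 (k8 c6908 c9344 c1367 c8613 c1487 c4404 c1291 c4401 (k8 c506 c2444 c4405 c5962 c4402 c5815 c85 c567 (k8 c1847 c837 c4290 c8717 c4286 c498 c704 c9342 (k8 c4481 c4416 c340 c2112 c6230 c4419 c4548 c3915 (k8 c604 c98 c8463 c2892 c9264 c4467 c4477 c2027 (k8 c321 c4538 c585 c7094 c9034 c7430 c8226 c2121 (k4 c1790 c673 c677 c8773 (k1 c900 k0))))))))))) (by decide +kernel)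
def c9346 : PP 8 4 T 0x100000002000000000000100000000000000000000000000000000000200000002 := rS 0xb7389fd04a730c31fa4f3e895920c5ac5972b354aad5ea5890c5e24b17b4d0a16211050e813c1acba69058742a112f86cde33238b4a229639d426731d818f65a1588c6a6d (k8 c9293 c8774 c833 c8717 c830 c704 c831 c4403 (k8 c1021 c4401 c498 c4289 c4402 c4405 c4286 c4404 (k8 c9263 c9199 c2672 c2443 c2594 c2632 c85 c567 (k8 c2823 c2821 c5752 c9341 c1963 c1965 c1847 c501 (k8 c500 c2453 c6832 c837 c1955 c4431 c1910 c8580 (k8 c6908 c5815 c5962 c6029 c9342 c4548 c4481 c4419 (k8 c9344 c506 c1367 c1291 c1487 c8613 c9345 c4326 (k4 c4330 c2119 c8701 c2448 (k2 c5279 c2121 k0))))))))) (by decide +kernel)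
def c9347 : PP 8 4 T 0x100000002000000000000000000000000000000000000000000000000200000002 := rS 0x14494332c9a50d138951c608abf4e2b0118d4569105874b21f1c9680c6d (k8 c9293 c831 c830 c8463 c86 c487 c85 c567 (k8 c2892 c8717 c8774 c833 c9346 c124 c4304 c4350 (k8 c624 c625 c9265 c4538 c4326 c4467 c8632 c664 (k2 c665 c5896 (k1 c2859 k0))))) (by decide +kernel)
def c9348 : PP 8 4 T 0x40000000200000001000000000000090000000100000200010400 := rS 0x238689c4a3530455fa71 (k8 c124 c4304 c4350 c624 c1034 c9265 c4538 c4326 (k2 c2824 c4467 k0)) (by decide +kernel)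
def c9349 : PP 8 4 T 0x10000000002000000000000000000000000200000002000000000000000200000002 := rS 0x28622ac55b45e2af178c4304a67a9e125735a74665316944527b2aa14daa33383c062ba1a7d70c9060984afd11adce2b58a1bce63b3a84d62d3439a47211031643e0b0ea44b47f599f60897 (k8 c2930 c9347 c4409 c4312 c4313 c830 c2892 c85 (k8 c567 c86 c487 c831 c2594 c8463 c2823 c4410 (k8 c6832 c9348 c4401 c498 c4403 c1021 c9199 c9302 (k8 c4389 c585 c4353 c2824 c4302 c9265 c4467 c871 (k8 c506 c2121 c1396 c4394 c8452 c28 c238 c4310 (k8 c936 c9293 c712 c4406 c704 c4402 c4405 c4286 (k8 c4290 c9263 c2968 c5752 c798 c4439 c1896 c1365 (k8 c1293 c1294 c8071 c876 c8733 c4434 c260 c5962 (k4 c2112 c4338 c900 c4489 k0))))))))) (by decide +kernel)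
def c9350 : PP 8 4 T 0x2000000000000000000000000000000000001104014000000008100010000000010080 := rS 0x1dcf21941afc86bb (k8 c4390 c1955 c1324 c1855 c1874 c501 c1024 c7040 k0) (by decide +kernel)
def c9351 : PP 8 4 T 0x200000000000000000000000000020000002101514000100000004010000000080 := rS 0xc5e2ad458598687 (k8 c4410 c2057 c500 c604 c861 c4431 c1910 c5842 k0) (by decide +kernel)
def c9352 : PP 8 4 T 0x2000200000002000000000000010001000001505515514000000000004008000000000 := rS 0x3c4628b8429632be288a50ebb (k8 c4390 c4410 c4402 c4405 c7040 c4369 c1404 c7782 (k4 c4632 c357 c4076 c5842 k0)) (by decide +kernel)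
def c9353 : PP 8 4 T 0x200000000000000000000010000000000002101514000100000004010000000080 := rS 0x3178a2c2c87 (k4 c4410 c500 c604 c4431 (k2 c1910 c5842 k0)) (by decide +kernel)
def c9354 : PP 8 4 T 0x2000200000002000000000000010001000001104415514000000000005008000006080 := rS 0x1e21945a08f251149d42687 (k8 c4410 c4401 c498 c4402 c4405 c9353 c9352 c2461 (k2 c1999 c5546 (k1 c5842 k0))) (by decide +kernel)
def c9355 : PP 8 4 T 0x400000000004010200000000000000000140120044044001104515514000100000004010000000080 := rS 0x67b08f2a04a4455e89 (k8 c4314 c193 c4338 c4487 c4489 c9351 c861 c1794 (k1 c8129 k0)) (by decide +kernel)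
def c9356 : PP 8 4 T 0x2010200000002000000000000100041040001104415514000000000004008000006080 := rS 0x5220860795694452bb5ec5e869f49ae192b75a9cc7675099fd667d (k8 c4409 c4312 c4313 c4401 c498 c4403 c1021 c4389 (k8 c4353 c506 c2121 c1126 c1396 c4394 c4361 c4354 (k8 c4390 c4402 c4405 c9355 c9353 c9354 c9352 c357 (k1 c1936 k0)))) (by decide +kernel)
def c9357 : PP 8 4 T 0x10000000002000000000000000000000000000000002000000000000000200000002 := rS 0x44542ac53aad5ed117d10631241862127640a7e86b8648ac1e0c132d56e2551c510a7111bf4c657019ad2e9d329bc6653169445275099cc767b369fcceb33e95562d343c10d23908818b21f05875225a (k8 c830 c2892 c85 c567 c86 c487 c831 c2594 (k8 c8463 c2823 c9347 c4410 c6832 c9348 c4406 c4409 (k8 c4312 c4310 c4313 c9293 c704 c4403 c1021 c4401 (k8 c498 c4402 c4405 c4286 c4290 c9263 c9199 c2444 (k8 c2968 c2930 c5752 c28 c798 c2822 c4302 c2824 (k8 c585 c712 c9302 c936 c9265 c4353 c4389 c4467 (k8 c871 c238 c8452 c506 c2121 c4394 c1396 c9349 (k8 c9356 c4438 c1024 c2003 c7751 c8071 c4484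 c1870 (k8 c260 c4346 c4445 c4453 c2112 c900 c4338 c4489 k0))))))))) (by decide +kernel)
def c9358 : PP 8 4 T 0x2110200000002000040100000100000050000000154000000000000000000200000000 := rS 0xa211ae11eb3 (k4 c4312 c4388 c8522 c832 (k2 c5821 c9264 k0)) (by decide +kernel)
def c9359 : PP 8 4 T 0x10000000002000000000000000000000001000800000000000000000000200000002 := rS 0x1368a24531ada6878220de2a5200cc3a4b4093c300f7e184be5a031755312349b4ae03 (k8 c28 c798 c9293 c2823 c7751 c4345 c2821 c831 (k8 c830 c2443 c9357 c4477 c4376 c1024 c258 c4380 (k8 c1874 c85 c9263 c1023 c9161 c4433 c4306 c9347 (k8 c4410 c6832 c5752 c2119 c8613 c4453 c2260 c4474 k0)))) (by decide +kernel)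
def c9360 : PP 8 4 T 0x10000000002000000000000000000000000000810000000000000000000200000002 := rS 0x54cf49d0d708e53add6a8d8a89468bc263368a8455a655e4f258bde2318906081092b80cd66f1994c5a51149d426731d9b4feb33eac5a687821a472112c87c161d4889d92654083df8612f9680c5d (k8 c2821 c831 c830 c2443 c9357 c4477 c4376 c4380 (k8 c2444 c7308 c870 c2892 c85 c567 c86 c487 (k8 c2594 c8463 c2823 c9347 c4410 c6832 c9348 c4409 (k8 c4312 c4313 c9293 c4403 c1021 c4401 c498 c4402 (k8 c4405 c4286 c4290 c9263 c9199 c5752 c28 c798 (k8 c4438 c1023 c1024 c7751 c8071 c4433 c1870 c1874 (k8 c258 c4346 c4443 c4445 c9359 c4397 c1481 c4474 (k8 c1994 c1995 c284 c4354 c1119 c7883 c1037 c4558 (k4 c4486 c2121 c4394 c3136 (k2 c3503 c7781 (k1 c315 k0))))))))))) (by decide +kernel)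
def c9361 : PP 8 4 T 0x100010500000000000050154000000000000420000000000000 := rS 0x16eb5 (k2 c7883 c1037 (k1 c2121 k0)) (by decide +kernel)
def c9362 : PP 8 4 T 0x10200000002000040100010100000000000000154000000000000100004200114000 := rS 0x1241a241b08c6b151d9fd667d (k8 c4409 c4312 c4313 c4403 c8522 c9361 c833 c4470 (k4 c4467 c1407 c2259 c9269 k0)) (by decide +kernel)
def c9363 : PP 8 4 T 0x2000000000000110020000000000080045410000000000000000000000000000 := rS 0x461974b (k4 c4427 c1752 c7804 c8242 k0) (by decide +kernel)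
def c9364 : PP 8 4 T 0x1000000000000010000000002000001000000000000000000000010000000000000000000200000002 := rS 0x10a9889aa916ad57b15767b3f99d1281419de86a75133cf294470884a3763ae01efc2fb24ba2730ac4b21f0587522d3439cc766f1c8442b04369d42629288ccca5a34818d663 (k8 c2822 c5752 c831 c2823 c830 c2444 c9263 c4405 (k8 c4402 c4401 c498 c9293 c9347 c2632 c2594 c8463 (k8 c9199 c4403 c1021 c4410 c6832 c2892 c85 c567 (k8 c86 c487 c9348 c9357 c870 c2821 c7308 c2443 (k8 c4477 c4376 c9362 c4289 c1471 c312 c4467 c832 (k8 c1476 c9351 c3503 c1475 c2826 c4394 c9360 c4306 (k8 c4380 c4314 c4310 c4313 c704 c1477 c1255 c989 (k4 c6601 c9363 c2120 c4445 (k2 c1701 c5976 (k1 c7038 k0)))))))))) (by decide +kernel)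
def c9365 : PP 8 4 T 0x2000000000002000004100101000800041415400480000000000000000000000 := rS 0x2ed7abf429ed0283 (k8 c4306 c4380 c704 c1481 c3461 c2069 c9162 c2122 k0) (by decide +kernel)
def c9366 : PP 8 4 T 0x10000000002000000000000000000000000000010000000000000000000200000002 := rS 0x65a15174462b34f2cf4a2951c34110946eb75c1dcc66b4e854de33288a58e75099cc767b369fcfa8958b4d0f04348e422590f82c3a9113b24ca814183df8612f9680c5d (k8 c2821 c831 c830 c2443 c9357 c4477 c4376 c4306 (k8 c4380 c2444 c7308 c870 c2892 c85 c567 c86 (k8 c487 c2594 c8463 c2823 c9347 c4410 c6832 c9348 (k8 c4314 c4409 c4313 c9293 c704 c4403 c1021 c4401 (k8 c498 c4289 c4402 c4405 c9263 c9199 c2632 c2968 (k8 c5752 c2822 c9360 c9362 c165 c1471 c312 c4467 (k8 c833 c832 c3295 c1476 c3503 c9351 c9365 c1255 (k4 c9364 c9363 c4397 c4455 (k1 c2124 k0))))))))) (by decide +kernel)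
def c9367 : PP 8 4 T 0x10000000002000000000000000000000000000000000000000000000000200000002 := rS 0x118946a0c3809cc20b0e97cb40669a1e0869 (k8 c2823 c9347 c4410 c6832 c831 c830 c2443 c85 (k8 c567 c9357 c870 c9366 c496 c1304 c1367 c833 (k1 c4467 k0))) (by decide +kernel)
def c9368 : PP 8 4 T 0x2000000000000000000000000000000000000000500000000500001501500000000000000000000000 := rS 0x15285 (k2 c4397 c4398 (k1 c2119 k0)) (by decide +kernel)
def c9369 : PP 8 4 T 0x202000002000000000000000500000001500001501500000000004000204000000 := rS 0x62f10ca2e102f89aa0a287 (k8 c4410 c4405 c2119 c4130 c2831 c4479 c4322 c4436 (k2 c4076 c5845 (k1 c4469 k0))) (by decide +kernel)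
def c9370 : PP 8 4 T 0x200000002000000000000000500000001500001501500000000004000204000000 := rS 0xc5e21945c205f137eaa0a287 (k8 c4410 c4405 c2119 c9369 c4345 c2831 c5323 c4322 (k4 c4436 c4076 c5845 c4469 k0)) (by decide +kernel)
def c9371 : PP 8 4 T 0x2000000000000000000000000000020000000000000000000200000002 := rS 0x1974b4533d56af54b362484a2d0d448141b24c66b2e9a4be650d968667509818da7f33a1cfa898218542a74fa95770c (k8 c9367 c4847 c4385 c4384 c4330 c4329 c4326 c9347 (k8 c4314 c4409 c4410 c4310 c4313 c9293 c831 c4401 (k8 c498 c9263 c830 c2672 c2444 c2443 c2823 c2821 (k8 c5752 c2822 c586 c2448 c1421 c2118 c4393 c9368 (k8 c9370 c5976 c1481 c4345 c4346 c4445 c1523 c8385 (k2 c4427 c1752 (k1 c4495 k0))))))) (by decide +kernel)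
def c9372 : PP 8 4 T 0x1000000000000000000000000000001100000001014000080050000055500000000000000000000000 := rS 0xcfa1b2d454b (k4 c4427 c2118 c1752 c4393 (k2 c1523 c4495 k0)) (by decide +kernel)
def c9373 : PP 8 4 T 0x1000002000000000000000000000002000000000000000000000000200000002 := rS 0x760cc50d69d58b4d0f041c844b21f05875230c38d1502835fc24f65a3c9bc0ca94cc48d26d (k8 c9293 c2823 c5976 c4443 c4345 c831 c9199 c2453 (k8 c830 c704 c4321 c7782 c185 c184 c4397 c9371 (k8 c9367 c2892 c85 c567 c86 c487 c2594 c8463 (k8 c9347 c4410 c6832 c9348 c2968 c5752 c7086 c8720 (k2 c9323 c1024 k0))))) (by decide +kernel)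
def c9374 : PP 8 4 T 0x2000000000000000000000002000000000000000000000000200000002 := rS 0x50d16a264bf156af54b362545319acba692f994b406369fcce873ea26086150a9d3f0c (k8 c9367 c4384 c4330 c4329 c4326 c9347 c4314 c4409 (k8 c4410 c4310 c4313 c9293 c831 c830 c2444 c2443 (k8 c2823 c2821 c5752 c2822 c4397 c5976 c1481 c4345 (k8 c4346 c4445 c9373 c4305 c7315 c9372 c4393 c8385 k0)))) (by decide +kernel)
def c9375 : PP 8 4 T 0x2000002000000000000001000000000000000000000000000000000200000002 := rS 0x204d65d2f9680c6d69a1e086912a961885 (k8 c9374 c9367 c4385 c4381 c2823 c9347 c4410 c6832 (k8 c9293 c831 c830 c2443 c2821 c5752 c4380 c8613 k0)) (by decide +kernel)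
def c9376 : PP 8 4 T 0x1000000000002000000000002000001000000000000000040000000000000000000000000201000002 := rS 0x2b462cf789ac3633288a4daa747af686c858b4d0e691c844b21f0587522b333c10c28d4f9cc7675099c5430c37994be5a0325cba63 (k8 c2822 c2821 c2930 c831 c830 c2443 c2444 c9199 (k8 c9367 c4329 c9371 c4401 c498 c4403 c1021 c4384 (k8 c4383 c4326 c9347 c4310 c4312 c2892 c85 c567 (k8 c86 c487 c2594 c8463 c2823 c4410 c6832 c9348 (k8 c9237 c4422 c4354 c4388 c4330 c9293 c4402 c4405 (k8 c9263 c2672 c5752 c8671 c1792 c5845 c6601 c5842 k0)))))) (by decide +kernel)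
def c9377 : PP 8 4 T 0x1000000000000000000000002000000000000001000000000800000000000000000000000200000002 := rS 0x44a3109450659a7735a74ea133d9b5130c47af628fd58b4d0f04348e422590f82c3a912d1bc0c71 (k8 c9371 c831 c9199 c830 c2892 c85 c567 c86 (k8 c487 c2594 c8463 c2823 c9347 c4410 c6832 c9348 (k8 c9375 c4480 c4354 c4388 c9367 c4314 c9293 c704 (k8 c4401 c498 c2968 c5752 c2002 c2064 c8637 c9376 (k4 c4322 c4632 c4479 c8237 k0))))) (by decide +kernel)
def c9378 : PP 8 4 T 0x2000000000000001000000000400000000000000000000000200000002 := rS 0xec9a8ca657e7984c49006b2ea74be1b199ecda6153a354abb8621628fd58b4d0f04348e422590f82c3a912d1bc0c71 (k8 c9371 c831 c9199 c830 c2892 c85 c567 c86 (k8 c487 c2594 c8463 c2823 c9347 c4410 c6832 c9348 (k8 c9375 c4480 c9374 c9367 c4847 c4385 c4383 c4330 (k8 c4326 c9293 c704 c9263 c2672 c2443 c2968 c2821 (k8 c5752 c9370 c8695 c4439 c1962 c1364 c4443 c8237 (k2 c7247 c4482 (k1 c1888 k0))))))) (by decide +kernel)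
def c9379 : PP 8 4 T 0x2000000000000001000000000000000000000000000000000200000002 := rS 0x28a82 (k2 c9378 c4452 (k1 c9377 k0)) (by decide +kernel)
def c9380 : PP 8 4 T 0x2000000000000000000000000000000000000000000000000200000002 := rS 0x62f10ca2e102f89aa10f0436944d6690d9680c33 (k8 c9263 c831 c830 c2672 c2823 c5752 c4405 c9293 (k8 c9347 c4410 c9379 c4345 c2831 c4479 c4322 c4436 (k2 c4076 c5845 (k1 c4469 k0)))) (by decide +kernel)
def c9381 : PP 8 4 T 0x2000000000000000102001000000800004001500004110101000001410080 := rS 0x3898d35f90d36bd1ba3d1a358a4301a717ec4d764f (k8 c4297 c1444 c4345 c4306 c2448 c508 c4477 c4480 (k8 c8124 c4383 c4388 c4386 c4354 c866 c4567 c5760 (k4 c5504 c2114 c4570 c244 k0))) (by decide +kernel)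
def c9382 : PP 8 4 T 0x1000000000002400000002000000000000040000501000001505405501500000000000005200000000 := rS 0x34e1a23461c51f08 (k8 c4479 c4388 c4387 c9322 c832 c4383 c7667 c4467 k0) (by decide +kernel)
def c9383 : PP 8 4 T 0x2200000000000010000000000000000000000000010000100000001080004500000 := rS 0x14c268b0ca1d1255 (k8 c4406 c4314 c4440 c4436 c4322 c1638 c292 c2109 k0) (by decide +kernel)
def c9384 : PP 8 4 T 0x1000000000000000080000000000000000000000000000140200000000 := rS 0x5311 (k2 c4337 c2828 (k1 c4468 k0)) (by decide +kernel)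
def c9385 : PP 8 4 T 0x400202000000000000000000000050000000000001515500000000005445000000000 := rS 0x11c353cd3649fcce7d (k8 c4409 c4310 c4313 c4305 c8051 c2118 c7315 c1300 (k1 c4467 k0)) (by decide +kernel)
def c9386 : PP 8 4 T 0x200000001000000000000102001000001004005514500000000105100204110080 := rS 0x70643f5462b8aa0ca2d112bc08b4552a9d42275d92d027720874f217179843308899fcce7d (k8 c4409 c4310 c4313 c4345 c4479 c4436 c976 c2831 (k8 c8580 c500 c85 c8691 c1023 c1361 c1322 c1444 (k8 c974 c7768 c191 c190 c4398 c440 c4469 c1504 (k8 c4298 c4435 c9381 c9382 c9383 c9384 c9385 c5857 (k2 c4480 c2447 k0))))) (by decide +kernel)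
def c9387 : PP 8 4 T 0x1400000000012000000000001000004004000500000000055815454000000100005000000000000080 := rS 0x1d3022e75 (k4 c499 c9154 c8512 c4471 (k1 c1580 k0)) (by decide +kernel)
def c9388 : PP 8 4 T 0x10000000000001000000200000502001000011014045510501100000004140200010490 := rS 0x18e291e1241ac311a097a3747a3628cf861c48e9fa1bf47f4552a9d76813b9043a790b8bcc28b43c2226a3 (k8 c9384 c4345 c4479 c4440 c4322 c976 c2831 c8580 (k8 c500 c85 c8691 c1023 c1361 c1444 c191 c190 (k8 c4398 c8194 c4305 c4422 c1665 c1583 c2447 c7308 (k8 c1792 c4480 c4383 c4388 c4386 c4354 c9322 c832 (k4 c8129 c508 c4199 c9387 (k2 c7860 c330 (k1 c4582 k0))))))) (by decide +kernel)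
def c9389 : PP 8 4 T 0x1000000000000502001000011054045554501000000006140204010490 := rS 0x11c35a69e7e32546a1139844a4f8c9453042 (k8 c316 c317 c3840 c4446 c2265 c1503 c976 c974 (k8 c7768 c9384 c9388 c5857 c2118 c8510 c7315 c1300 (k1 c4467 k0))) (by decide +kernel)
def c9390 : PP 8 4 T 0x200000000000000000000002000000000000001000000000000000000200000002 := rS 0xa613151453042688c05a55449f4e6673f814c65d4e82c3a150897c72650d9bc0cb37285c662f3da1562612d22c3287841ae2669 (k8 c2823 c4345 c5752 c4479 c4440 c4436 c4322 c830 (k8 c976 c624 c5976 c704 c2831 c9263 c8580 c9380 (k8 c9211 c831 c9199 c2672 c2444 c8463 c2443 c2594 (k8 c2632 c85 c567 c2968 c2821 c2822 c54 c4313 (k8 c4310 c4408 c4409 c4314 c4406 c910 c9386 c2266 (k4 c316 c317 c3840 c9389 (k2 c1638 c2263 (k1 c2109 k0)))))))) (by decide +kernel)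
def c9391 : PP 8 4 T 0x100000001000000000000002000000011010001514500000000000140200100000 := rS 0x19f436452d96ae55b3620a333d15426145a1e1113 (k8 c4345 c4479 c4440 c4322 c976 c7768 c4398 c4555 (k8 c9384 c4478 c1483 c4415 c6907 c8140 c4428 c5972 (k2 c4422 c1792 (k1 c7105 k0)))) (by decide +kernel)
def c9392 : PP 8 4 T 0x100100000000000000004010542001000055015544000000000000000000000000000 := rS 0x3fadce31565b397c8e5626932aba5c6588c15ac5a26a7 (k8 c191 c4345 c4481 c4419 c4420 c2123 c4370 c4429 (k8 c1675 c1136 c4488 c4491 c866 c867 c949 c2026 (k4 c4388 c1514 c1247 c1521 (k1 c4088 k0)))) (by decide +kernel)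
def c9393 : PP 8 4 T 0x2000000010010001000000000000000000200000002 := rS 0x392e58675578f425111618c12032ea5d3a3f0a97cca6f59b94ee410e9e42e3317818f68558984b48b43c20d713348ac6b05 (k8 c9390 c8774 c8717 c2823 c4345 c5752 c4479 c4440 (k8 c4322 c830 c976 c624 c5976 c704 c831 c2831 (k8 c9263 c8580 c500 c85 c8691 c1023 c9380 c9211 (k8 c9199 c2444 c2443 c2632 c8194 c2968 c2930 c2821 (k8 c28 c230 c2822 c9391 c4332 c911 c329 c982 (k4 c499 c9009 c7514 c9392 (k1 c1561 k0))))))) (by decide +kernel)
def c9394 : PP 8 4 T 0x2000000000010001000000100000000000200000002 := rS 0x39c5c78fd5aa08fcc949b36202951ab4ceb94aa7ca813169d5574b4418cba0b0e854be652d1bc0cb372d154217198bcc28545a1e106b899a45705 (k8 c9390 c8717 c2823 c4345 c5752 c4479 c4440 c4322 (k8 c5976 c976 c2831 c9263 c8580 c7768 c4398 c9380 (k8 c9211 c831 c9199 c830 c2444 c2443 c2632 c85 (k8 c567 c2821 c2822 c9393 c4457 c1944 c2451 c9170 (k8 c516 c7030 c1510 c5073 c4548 c4555 c4554 c9384 (k8 c8448 c4478 c1483 c4413 c637 c8784 c8582 c1434 (k4 c4306 c9252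 c4416 c1615 (k1 c4481 k0)))))))) (by decide +kernel)
def c9395 : PP 8 4 T 0x2000000020000001000000100000000000200000002 := rS 0x2fc6e835a24da20c078f620d323150262d558fc72a75089d769d25a04ee410e9e42e33358bcf68534c4d622b118d58e152484572ad518951a9f863f4c25f2d17452953a9f0de0659b94c705 (k8 c9390 c2822 c9380 c9211 c831 c9199 c9394 c1691 (k8 c5073 c834 c2821 c830 c2443 c976 c4379 c4477 (k8 c4384 c4383 c4381 c1353 c948 c1356 c2594 c1623 (k8 c2632 c1352 c8774 c833 c8717 c624 c4345 c2823 (k8 c5976 c704 c2831 c5752 c9263 c8580 c500 c85 (k8 c8691 c1023 c1361 c1322 c2968 c1444 c974 c7768 (k8 c191 c8463 c8194 c1944 c9170 c516 c7030 c2110 (k8 c8916 c4468 c8078 c1332 c1603 c1765 c4413 c9252 (k4 c4570 c3383 c7813 c9081 k0))))))))) (by decide +kernel)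
def c9396 : PP 8 4 T 0x2000000000000001000000100000000100200000002 := rS 0x2d4a83a3931536ae60b0d26ab1ec408c674e8fccaa1139dc821d3c85c662f3da2d0f0835c4cd22b118d58e152484572ad518953f0c7e984be5a2e8a52a753e1bc0cb37298e0a89 (k8 c9395 c9390 c2822 c9380 c9211 c831 c9199 c9394 (k8 c1691 c5073 c834 c2821 c830 c2443 c976 c4379 (k8 c4477 c4384 c4381 c1353 c948 c1356 c2594 c1623 (k8 c2632 c1352 c8774 c833 c8717 c2823 c4345 c5752 (k8 c4479 c4440 c4322 c704 c2831 c9263 c8580 c500 (k8 c85 c8691 c1023 c974 c7768 c2444 c8194 c2968 (k8 c4555 c2110 c4468 c8078 c4415 c4413 c9009 c8008 (k8 c2120 c868 c7718 c2123 c1021 c1022 c3540 c9252 k0)))))))) (by decide +kernel)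
def c9397 : PP 8 4 T 0x2000000000000001000000100000000000200000002 := rS 0x104f08a0c49a4f38b4d320e231cccc12162355b0c3aa8dfa7c0480c7e150897c726f22acdcb4552a9d769d25a04ba7720874f217198bc0c7b42ac4c25a458650f0835c4cd305 (k8 c9390 c2823 c4345 c5752 c4479 c4440 c4436 c4322 (k8 c830 c976 c624 c5976 c704 c831 c2831 c9263 (k8 c8580 c500 c85 c8691 c1023 c2821 c1361 c1322 (k8 c2968 c1444 c191 c190 c4398 c9380 c9211 c440 (k8 c9199 c8463 c2443 c2594 c2632 c8194 c28 c230 (k8 c9394 c4379 c1353 c1691 c4477 c948 c4383 c9396 (k8 c911 c910 c1561 c1562 c1563 c8665 c7640 c1420 (k4 c1494 c244 c317 c4480 (k2 c4474 c9322 (k1 c9381 k0)))))))))) (by decide +kernel)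
def c9398 : PP 8 4 T 0x2000000000000000000000200000004000200000000 := rS 0x13042183c6262f (k4 c2831 c4345 c4435 c4469 (k2 c316 c317 (k1 c3840 k0))) (by decide +kernel)
def c9399 : PP 8 4 T 0x1002001000000000000010050000002000000015500100800001500000110000 := rS 0x14abca71009a1a0a7c338ad927f4fc301e4f (k8 c4297 c1495 c4477 c4384 c1312 c1583 c1642 c4555 (k8 c5857 c4409 c1502 c1563 c4478 c1903 c1632 c8448 (k1 c7769 k0))) (by decide +kernel)
def c9400 : PP 8 4 T 0x12000000008000000000000000000000100200000002 := rS 0x2202915abc26538298c2ae517bc0630905874365a031b0a233 (k8 c9263 c9398 c9397 c831 c830 c2672 c85 c567 (k8 c4318 c5699 c5814 c2831 c9380 c2632 c2822 c4410 (k4 c1903 c1564 c1632 c8717 (k2 c8448 c4468 (k1 c7769 k0))))) (by decide +kernel)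
def c9401 : PP 8 4 T 0x100000000000000000000012000000000000000000000000000000100200040002 := rS 0x5295c894594e20672a0a456630ab945ed1780c6120b0e86cb406361446687 (k8 c9400 c9263 c9398 c9397 c831 c830 c2672 c85 (k8 c567 c4318 c5699 c5814 c4298 c2831 c9380 c2632 (k8 c2822 c8717 c8448 c4464 c4555 c4468 c9029 c1766 (k4 c680 c7769 c4485 c4428 k0)))) (by decide +kernel)
def c9402 : PP 8 4 T 0x1000000000000000000012040000000000000001000000000000100200042002 := rS 0x339fe08c93e91d08837806c63093602c3a51198bd42e53297c22152d018ba63 (k8 c2822 c2821 c831 c830 c2632 c2594 c2443 c2444 (k8 c9380 c7768 c2831 c9263 c9398 c85 c567 c9397 (k8 c4318 c5699 c2672 c5814 c640 c8675 c9399 c1291 (k4 c506 c9401 c4313 c4310 (k1 c5857 k0))))) (by decide +kernel)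
def c9403 : PP 8 4 T 0x1002001000041000000010050000002050000055500100000001544000010000 := rS 0x1105794c52ca243218e9f860301e4f (k8 c4297 c1495 c4463 c4477 c4384 c1447 c5857 c9121 (k4 c717 c1720 c373 c8140 (k2 c4468 c7769 k0))) (by decide +kernel)
def c9404 : PP 8 4 T 0x1000000000000000000012040200000000000001000000000000100200000002 := rS 0x610f516753f224ce2b39848fa470603da68431824065d1f854225f3291566e55089c9ef00d90c620b62b06307b2c87cee410e9e42f13358bc0d0958969066c288cd0ecd (k8 c1483 c9400 c9263 c9398 c9397 c640 c830 c624 (k8 c4318 c831 c2831 c5752 c4345 c8580 c500 c85 (k8 c8691 c1023 c86 c487 c1131 c4482 c4450 c4370 (k8 c567 c5699 c1926 c2672 c5814 c4297 c974 c7768 (k8 c9380 c9211 c440 c2444 c2443 c2594 c2632 c8194 (k8 c2821 c28 c230 c2822 c8675 c7644 c1495 c4463 (k8 c9399 c1291 c9402 c1561 c1638 c511 c516 c9403 (k4 c2450 c725 c1678 c2123 (k1 c9009 k0))))))))) (by decide +kernel)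
def c9405 : PP 8 4 T 0x1000001011000400000000014085040000000000014000000000080080 := rS 0xc21ea2cea77 (k4 c1023 c2450 c725 c1678 (k2 c2123 c9009 k0)) (by decide +kernel)
def c9406 : PP 8 4 T 0x1000001111000400050000004014000015500000014000101000480180 := rS 0x2988a78fe89338ace679 (k8 c500 c1561 c1638 c511 c516 c9405 c2118 c4414 (k2 c1571 c4468 k0)) (by decide +kernel)
def c9407 : PP 8 4 T 0x12040200000000000001000000000000100200000002 := rS 0x61a2d549e339fe0875099f592fc6698c12032ea5c7e5f3296966e550894620b62b06307b2c87cee410e9e42f13358bc0d09361446687 (k8 c9400 c9263 c9398 c9397 c4318 c831 c2831 c5752 (k8 c4345 c8580 c500 c85 c8691 c1023 c86 c487 (k8 c1131 c4482 c4450 c4370 c567 c5699 c1504 c7768 (k8 c9380 c9211 c830 c2444 c2443 c8194 c2930 c2821 (k8 c28 c230 c2822 c1483 c9404 c4305 c4379 c9406 (k8 c498 c9401 c4313 c4310 c2118 c1510 c1672 c1947 (k1 c9062 k0))))))) (by decide +kernel)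
def c9408 : PP 8 4 T 0x12000200000000000001000000000000100200000002 := rS 0x116c33aabe0892098aa22a243994b4b3728c417183d9643e7720874f217899ac5e06849b0a233 (k8 c9263 c9398 c9397 c4318 c831 c2831 c5752 c4345 (k8 c8580 c500 c85 c8691 c1023 c86 c487 c1131 (k8 c4482 c567 c5699 c9380 c9211 c830 c2444 c9400 (k8 c9407 c4337 c9384 c1638 c315 c8717 c1775 c498 (k2 c1128 c5443 (k1 c9062 k0)))))) (by decide +kernel)
def c9409 : PP 8 4 T 0x22000000000000000000000000000000100200000002 := rS 0x828a8cce5179b0a233 (k8 c9263 c9398 c9397 c2831 c9380 c944 c4554 c4310 (k1 c8717 k0)) (by decide +kernel)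
def c9410 : PP 8 4 T 0x20200000080 := rS 0x1283a (k2 c835 c834 (k1 c8077 k0)) (by decide +kernel)
def c9411 : PP 8 4 T 0x1000000000080080000400044000001104416000000000002000151000000080 := rS 0x160b8 (k2 c331 c9254 (k1 c1203 k0)) (by decide +kernel)
def c9412 : PP 8 4 T 0x1000000000000400001000001000080000000400510000005945016000000040010000145600100080 := rS 0x30cea3d459cd9e7da1b193e898828cce3f14b1583183bc249247 (k8 c4374 c4281 c4318 c1023 c4482 c4450 c4370 c9410 (k8 c8194 c4555 c9384 c4468 c680 c4414 c4576 c4391 (k8 c1352 c1519 c4956 c645 c9411 c499 c9009 c2123 k0))) (by decide +kernel)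
def c9413 : PP 8 4 T 0x2000200000000000000000000000000100200000002 := rS 0x1145544abca70409c44541926b48fe85411c446fd869810ead48854ca6f59b968aa553a844e812e904f217899ac5e2527b45e0318482c3a1b2d018d851199ecb21f (k8 c86 c487 c1131 c9263 c9398 c9397 c831 c830 (k8 c2672 c85 c567 c4318 c5699 c5814 c4298 c4297 (k8 c1504 c2831 c5752 c4345 c8580 c500 c8691 c2821 (k8 c1361 c974 c7768 c191 c190 c4398 c9380 c9211 (k8 c9199 c2444 c2632 c2892 c9409 c9400 c9408 c4326 (k8 c4302 c2824 c585 c977 c713 c673 c4467 c4282 (k8 c1998 c9412 c4411 c1638 c8717 c292 c1775 c4314 (k2 c4406 c2109 (k1 c5443 k0))))))))) (by decide +kernel)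
def c9414 : PP 8 4 T 0x2000200000000000000000000000000000200000002 := rS 0x452b58675439cd12661e84858c162c60f60901a5c7e590facdca7720874f217899ac5e06849b0a233 (k8 c9263 c9398 c9397 c4318 c831 c2831 c5752 c4345 (k8 c8580 c500 c85 c8691 c1023 c9380 c9211 c86 (k8 c487 c8194 c2930 c28 c230 c1131 c4482 c4370 (k8 c4450 c9413 c911 c329 c910 c9170 c1561 c1564 (k4 c499 c9009 c2050 c2123 (k1 c721 k0)))))) (by decide +kernel)
def c9415 : PP 8 4 T 0x1000000001000001104000502000000014105144080000041014000000000080080 := rS 0x23b4c6c0c3831e86b767289967d5652cfe8a62c628a775ab062d05 (k8 c4310 c4481 c4420 c4419 c1023 c4398 c4482 c4370 (k8 c2123 c9405 c4427 c721 c1773 c1752 c948 c949 (k8 c7551 c4393 c1519 c5124 c496 c497 c4371 c1411 (k1 c4473 k0)))) (by decide +kernel)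
def c9416 : PP 8 4 T 0x100011562000000000018152000100000000000000000000000 := rS 0x114bd (k2 c1171 c945 (k1 c9187 k0)) (by decide +kernel)
def c9417 : PP 8 4 T 0x2000000000000000000000000000000200200000002 := rS 0x1ab4d8c7e5bb1694ad079f5f8378aaf91cab38af535193d2d62cb166b260ab9619d50e7344924c2af332547a128882406971f9643e39329bd66e5a2a844ebb4ea04ba413c85e266b178949ef018c24161d0d9680c6c288cd1a99 (k8 c9414 c1508 c9263 c9398 c9397 c831 c830 c2672 (k8 c85 c567 c4318 c5699 c5814 c4297 c1504 c2831 (k8 c5752 c4345 c8580 c500 c8691 c2821 c1361 c2968 (k8 c1444 c974 c7768 c4398 c9380 c9211 c9199 c2444 (k8 c8463 c86 c487 c8194 c2930 c28 c230 c4332 (k8 c911 c329 c2854 c910 c982 c7376 c368 c9170 (k8 c1561 c1564 c499 c9009 c6781 c4310 c632 c1484 (k8 c624 c4481 c4419 c9415 c4366 c705 c1171 c707 (k8 c8583 c866 c867 c4388 c1511 c4480 c8975 c4376 (k8 c9416 c4491 c4429 c7634 c5124 c515 c9206 c8718 (k1 c4470 k0))))))))))) (by decide +kernel)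
def c9418 : PP 8 4 T 0x2000000000008000000000000000000000200080002 := rS 0xd5a6c6829f946671598cba5f1c99566e5508945a9f1baf89ef018c24161d0d9b0a2336483cfafc8aa3934b130a0cb46f031c5769d (k8 c2968 c1444 c707 c831 c9199 c830 c2626 c977 (k8 c624 c705 c866 c4388 c4480 c4379 c4376 c4305 (k8 c9263 c9398 c9397 c2672 c85 c567 c4318 c5699 (k8 c5814 c4297 c867 c1511 c3492 c9417 c1504 c7768 (k8 c9380 c9211 c2444 c8463 c2443 c2821 c2822 c1638 (k8 c511 c9384 c2118 c4313 c515 c9206 c8718 c4470 k0)))))) (by decide +kernel)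
def c9419 : PP 8 4 T 0x2000000000008000000000000000000000200000002 := rS 0x16eb91e24854b55119cff043a84cfac97e0dd3f1558af91c61389cd3483319752e5f329bd66e550aed3a4f780c6120b0e86cb40636144668d4ca1d5a2d (k8 c9417 c9409 c9400 c9414 c1508 c9263 c9398 c9397 (k8 c831 c830 c2672 c85 c567 c4318 c5699 c5814 (k8 c4297 c2968 c1444 c7768 c9380 c9211 c9199 c2444 (k8 c2443 c2930 c2821 c2822 c2626 c705 c1231 c707 (k8 c977 c866 c867 c624 c4388 c3492 c1511 c4480 (k8 c4305 c4379 c9418 c498 c9401 c4313 c4310 c2118 (k4 c1436 c9384 c315 c314 (k2 c1125 c1743 (k1 c2121 k0))))))))) (by decide +kernel)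
def c9420 : PP 8 4 T 0x20400200000001000000000000410080000004000500010000000000001100200000000 := rS 0x116c357a485511 (k4 c4337 c9384 c315 c1775 (k2 c1128 c5443 (k1 c9062 k0))) (by decide +kernel)
def c9421 : PP 8 4 T 0x20000200000000000000000000408000040004000500010000000000000000000000000 := rS 0x1868b (k2 c1672 c1947 (k1 c9062 k0)) (by decide +kernel)
def c9422 : PP 8 4 T 0x20000000000000000000000000002044000000050002045180040150000000000040080 := rS 0xf69a101afd6420d62112f9954309 (k8 c4318 c7768 c2444 c2443 c2594 c624 c640 c2118 (k4 c4305 c506 c8675 c7644 (k2 c1495 c4463 k0))) (by decide +kernel)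
def c9423 : PP 8 4 T 0x2000000000000000000000000000000000200040002 := rS 0x114af29c44322a26b490a823888dfb0d3027d56a32aa24fa673fc10ea634ba442a653791566e5a2a954ea113a04ba2527b45e01b2d21d5a2d8c1dc82790b9ac5e0621a6cf69d898c6126c288cc161d (k8 c85 c567 c9263 c9398 c9397 c4318 c5699 c4345 (k8 c2968 c9419 c865 c4567 c831 c2831 c5752 c8580 (k8 c500 c8691 c1023 c4482 c9417 c9409 c9400 c830 (k8 c2672 c5814 c4298 c4297 c1504 c2821 c1361 c974 (k8 c7768 c191 c190 c4398 c9380 c9211 c440 c9199 (k8 c2444 c2632 c2892 c2930 c2822 c498 c9401 c4313 (k8 c4310 c4409 c4314 c4406 c9420 c9421 c1510 c9422 (k8 c4326 c4302 c2824 c585 c977 c713 c4467 c4282 (k4 c9412 c1998 c4411 c292 (k2 c1775 c2109 (k1 c5443 k0))))))))))) (by decide +kernel)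
def c9424 : PP 8 4 T 0x1000000000000402000001004145006002000040010000145200100080 := rS 0x69215047111bf61b4589a954ea1 (k8 c7768 c191 c190 c4345 c4398 c4326 c4302 c2824 (k4 c585 c977 c713 c4467 (k1 c9412 k0))) (by decide +kernel)
def c9425 : PP 8 4 T 0x20001000002001000000000000112044000000450000055500100150001544000010080 := rS 0x34d08fd642849ecd (k8 c1483 c4297 c7768 c2118 c4305 c8675 c7644 c9403 k0) (by decide +kernel)
def c9426 : PP 8 4 T 0x2000000000000000000000000000000000200000002 := rS 0x215fa7c41ac4c27f4fb3620a34499c5673093058a438c26cf687568b49e25780c6126c289e4ee1720a045e278998c1203359753a911f82c3a150897cca1b2d1bc8a3359b945206 (k8 c831 c9410 c9380 c9211 c9263 c440 c9199 c830 (k8 c2672 c2444 c2443 c2594 c2632 c85 c567 c8194 (k8 c2892 c2968 c2821 c5752 c28 c230 c2822 c4345 (k8 c974 c2831 c1361 c8691 c8580 c1023 c500 c9398 (k8 c9397 c4318 c5699 c5814 c1504 c4297 c9417 c9409 (k8 c9400 c9419 c865 c4482 c4567 c4370 c4450 c9423 (k8 c1561 c1638 c511 c516 c9384 c4468 c1483 c4414 (k8 c9405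 c9424 c624 c640 c9425 c4379 c1502 c8675 k0)))))))) (by decide +kernel)
def c9427 : PP 8 4 T 0x1000000000000000000100000000000000004000000000000000000a00000400 := rS 0x8a9c51c34 (k4 c833 c832 c1304 c4388 (k1 c4480 k0)) (by decide +kernel)
def c9428 : PP 8 4 T 0x20001001002001000000000000101400000000440004015500000050005104200090480 := rS 0x19a7d4203c98235289542d386114cea356c4056291792c9e51 (k8 c4435 c4297 c4434 c837 c9410 c1638 c4468 c4338 (k8 c9384 c511 c440 c4477 c7644 c4329 c4381 c4385 (k4 c9427 c2111 c245 c4248 (k2 c1563 c1481 (k1 c9403 k0))))) (by decide +kernel)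
def c9429 : PP 8 4 T 0x410002000000000000000440101401401000405404000400040000005405400000080 := rS 0x42af4e2a447835a481 (k8 c4380 c4467 c4371 c8053 c6996 c496 c6223 c1401 (k1 c2122 k0)) (by decide +kernel)
def c9430 : PP 8 4 T 0x401000002001000000000000101401401000445004015500000010005104200090480 := rS 0x29109455e9c5182411a821a7d40b25f86751a7e202b148bd7e435dc60ee4f (k8 c4297 c1023 c4482 c4449 c4567 c7782 c837 c9410 (k8 c1638 c4468 c4414 c9384 c511 c9428 c4305 c4380 (k8 c4379 c7315 c2118 c2825 c9429 c313 c1385 c1120 (k4 c8243 c6225 c4490 c1401 k0)))) (by decide +kernel)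
def c9431 : PP 8 4 T 0x4005002001000000010000100200080002 := rS 0x524309a2312b4c92cc63031927e5389d625d488fc2a112f9bd66553982406a317a0d52c54da4e26c144a74c66b34ab4ceab880adca293292c9ef018c24161d0d9680c33 (k8 c9263 c831 c830 c2672 c85 c567 c4318 c5699 (k8 c5814 c4297 c4434 c2444 c9410 c9380 c1638 c4468 (k8 c4415 c511 c4338 c2823 c5752 c2822 c2968 c2470 (k8 c8008 c4342 c4413 c865 c7718 c9426 c641 c837 (k8 c9384 c28 c230 c1561 c34 c9211 c9199 c2443 (k8 c2594 c2632 c8194 c2892 c2821 c624 c870 c904 (k8 c9430 c155 c7517 c515 c9405 c1718 c4371 c1367 (k4 c1449 c2063 c4467 c2111 (k1 c4385 k0))))))))) (by decide +kernel)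
def c9432 : PP 8 4 T 0x20000001000000000080000000001000000000000002000080040050004001200000080 := rS 0x29d1c85581145e83 (k8 c641 c837 c440 c7644 c2696 c625 c905 c8064 k0) (by decide +kernel)
def c9433 : PP 8 4 T 0x200000002000000000140005540000000000050054000000000040001540200000080 := rS 0x1dc5d70751e9487e2955ab52651 (k8 c4435 c4413 c4338 c4415 c9410 c8194 c7769 c332 (k4 c499 c2121 c4361 c1046 (k1 c8019 k0))) (by decide +kernel)
def c9434 : PP 8 4 T 0x2001000040140005500800000000050054000000000040001540200080080 := rS 0x11e86a0571262029 (k8 c9410 c4468 c1718 c9433 c908 c4423 c1584 c4473 k0) (by decide +kernel)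
def c9435 : PP 8 4 T 0x4005002000000000010000100200080002 := rS 0x53579219ec866a9908815aadd8e37064504cb1699f44a7f3888dfb0d301449e4b5d90de1185fa6d063184c4d3a9105874b21f088e4366f19acd52730480d5b1015994b4e5149dc0c2f (k8 c837 c831 c1023 c9410 c9380 c830 c2444 c1638 (k8 c4468 c4338 c28 c230 c1561 c9426 c9211 c9263 (k8 c9199 c2672 c8463 c2594 c86 c487 c85 c567 (k8 c2892 c2968 c4342 c4318 c5699 c641 c865 c7782 (k8 c4482 c5814 c4567 c4449 c4434 c4297 c4435 c9431 (k8 c4326 c4302 c2824 c585 c2467 c9265 c7356 c9432 (k8 c9348 c4467 c9302 c871 c321 c408 c4353 c4389 (k8 c1293 c9037 c713 c1481 c9434 c1793 c8024 c909 (k2 c373 c7769 k0))))))))) (by decide +kernel)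
def c9436 : PP 8 4 T 0x400000000000000000000000014000000004105001042000000010001008200080002 := rS 0x188ce4d2b97c8b41a25e1080b98cae6b4e9a4ca3314aa4ee2f38a14180f01aed7b1458b4c72112c87c161d2d1bc0c91 (k8 c2892 c831 c9199 c830 c85 c567 c86 c487 (k8 c2594 c8463 c4278 c9348 c9302 c4354 c4390 c28 (k8 c238 c871 c712 c585 c837 c1023 c9426 c9410 (k8 c9263 c2444 c2823 c2968 c5752 c798 c2822 c8580 (k8 c4479 c4469 c516 c508 c4322 c2122 c8142 c4566 (k2 c8733 c869 (k1 c4124 k0))))))) (by decide +kernel)
def c9437 : PP 8 4 T 0x1000000000145500000000081055454000000000004000000004096080 := rS 0x3aae5923d23149e2d12505c86808c2fd0709 (k8 c4322 c2461 c7782 c4482 c2122 c4446 c1835 c1293 (k8 c1759 c4434 c7874 c2037 c332 c1583 c1316 c499 (k1 c2121 k0))) (by decide +kernel)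
def c9438 : PP 8 4 T 0x4500000000020050054000000000000000000000002080 := rS 0x324eb05 (k4 c4314 c2451 c2459 c5124 k0) (by decide +kernel)
def c9439 : PP 8 4 T 0x14000000004005001042000000010001008200080002 := rS 0x40c4c96ae78225a28b5aaf56ebb8a2c41e0c6998cd6691f84472650d968de3359b94e6093b8190a7f3e894e2917e9643e0b0ec344603 (k8 c28 c2824 c4326 c85 c567 c86 c487 c4302 (k8 c2892 c585 c9265 c7356 c2467 c712 c831 c1023 (k8 c230 c1561 c9380 c9211 c9263 c9199 c830 c2672 (k8 c2444 c8463 c2594 c8194 c2823 c5752 c2822 c4278 (k8 c871 c238 c9348 c9302 c4390 c4353 c4354 c4389 (k8 c9437 c1758 c9438 c8058 c2120 c4434 c4346 c1293 (k1 c9436 k0))))))) (by decide +kernel)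
def c9440 : PP 8 4 T 0x12010000000000000000000000591001000054815454400000000000000000000000000 := rS 0x1d188c34d2654ca5a2c4d82bd (k8 c4354 c1715 c4346 c4452 c1936 c4490 c2010 c4488 (k4 c2058 c869 c8512 c1785 k0)) (by decide +kernel)
def c9441 : PP 8 4 T 0x10000000000000000000800081001000000000000000000000000000000000000000 := rS 0x33988a64d2968b13 (k8 c4346 c4399 c1404 c4566 c4490 c869 c909 c4124 k0) (by decide +kernel)
def c9442 : PP 8 4 T 0x2000000080000000591001001055115444402000000000000000000000080 := rS 0x8c0dd05147e9c57f0d (k8 c4326 c9441 c585 c4302 c9302 c6396 c4386 c9440 (k1 c5037 k0)) (by decide +kernel)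
def c9443 : PP 8 4 T 0x40000000000010000000000000000000015000400000000054005440000000000000000000000000000 := rS 0x22c74 (k2 c2123 c4494 (k1 c4417 k0)) (by decide +kernel)
def c9444 : PP 8 4 T 0x80000000004005000002000000010001100200080002 := rS 0x142c75b8f184c54c2f632a453ae51cb045a05124f8405de0c1a5c4cd69d348fcde3359aa4e60951a7d267717a14fa0324b484e6d56aae202b32969ca290319c462538a45fa590f82c3b0d (k8 c4326 c85 c567 c86 c487 c4302 c2892 c585 (k8 c9265 c2824 c511 c831 c9410 c9380 c830 c2444 (k8 c1638 c4468 c4415 c4338 c9435 c9439 c4467 c7307 (k8 c28 c7356 c712 c837 c1023 c4413 c4414 c9384 (k8 c230 c1561 c9426 c9211 c9263 c9199 c8194 c2823 (k8 c2968 c5752 c4346 c4428 c1715 c5815 c8580 c4479 (k8 c4297 c516 c4439 c4322 c9442 c625 c1203 c2853 (k8 c5804 c8064 c1939 c1430 c1135 c9443 c9009 c1167 (k2 c331 c851 (k1 c8916 k0)))))))))) (by decide +kernel)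
def c9445 : PP 8 4 T 0x414000044020001040404000000110005400040080080 := rS 0x8c265871221bc52b160b304eb05 (k8 c4314 c2451 c1984 c516 c7172 c5073 c4431 c1950 (k4 c8580 c4362 c6171 c4472 (k1 c7972 k0))) (by decide +kernel)
def c9446 : PP 8 4 T 0x1000000000080000400040020001081105610000000000000000000000000080 := rS 0x41ac59eb5 (k4 c1707 c1794 c627 c645 (k1 c6396 k0)) (by decide +kernel)
def c9447 : PP 8 4 T 0x1000001000080000400040000021081005410000000001400001145604080080 := rS 0x19ec650a042cd029bc478741dc5c7ea355a7d5a93880a4974b2890e3109 (k8 c4322 c4482 c4446 c1591 c4427 c4375 c9410 c4468 (k8 c4413 c4338 c4414 c4415 c9384 c8194 c4418 c8077 (k8 c8248 c4471 c8019 c332 c4475 c1759 c1834 c9446 (k2 c2110 c1520 (k1 c7341 k0))))) (by decide +kernel)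
def c9448 : PP 8 4 T 0x4005000002000000010001100200080002 := rS 0x31d42810b340a6741e3c62ec21da558a9b21aee30bf4cc499651a5c2514af25b488e49138950a7111bf61a911f82c3a590d9bd469f3b9b5828917a4ce60901acc8a334b87d3a63359a55a6755c4056e514994b406 (k8 c831 c830 c2444 c9410 c9380 c1638 c4468 c4415 (k8 c511 c4338 c2823 c5752 c2822 c2968 c86 c2930 (k8 c9263 c440 c9211 c28 c230 c1561 c4413 c837 (k8 c9445 c8008 c9435 c1023 c4414 c9384 c9199 c2672 (k8 c487 c85 c567 c8194 c2892 c4326 c4302 c2824 (k8 c585 c712 c9265 c9439 c7307 c6900 c4467 c4375 (k8 c9444 c2120 c4322 c4427 c1591 c1753 c4479 c8246 (k8 c7782 c4482 c4449 c4446 c4448 c4370 c9447 c8713 (k8 c7972 c7641 c8019 c9009 c8248 c332 c4475 c1759 (k4 c1834 c9446 c9239 c2110 k0)))))))))) (by decide +kernel)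
def c9449 : PP 8 4 T 0x20800001000000000080000000100000000000000000001500000000000000000000080 := rS 0x2290c (k2 c4477 c5772 (k1 c8237 k0)) (by decide +kernel)
def c9450 : PP 8 4 T 0x40000000000020800000000000000080400000110044000000051404555500000000000000000800080 := rS 0x67d0d9b455029906c97e214e2810692d5ea5 (k8 c4444 c4346 c4375 c4371 c1834 c496 c522 c9449 (k8 c4305 c4306 c4130 c2118 c8243 c2066 c4423 c1794 (k1 c4495 k0))) (by decide +kernel)
def c9451 : PP 8 4 T 0x60080000001040000010040000500100000000005005004800000 := rS 0x2090b0c661381a23 (k8 c1449 c1447 c460 c461 c4467 c522 c8635 c2064 k0) (by decide +kernel)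
def c9452 : PP 8 4 T 0x40000000000044000090000001041000000000001401200880002 := rS 0x21502836403090c75398cba112f994365a030cdcaa92a89d4b12849acd219789fcfad0 (k8 c525 c3692 c2482 c4431 c35 c2823 c5752 c4322 (k8 c4479 c4444 c870 c34 c9426 c9380 c9263 c831 (k8 c830 c2672 c2444 c2443 c2594 c2821 c2822 c4558 (k8 c9451 c9121 c1719 c1718 c2461 c1294 c2479 c8270 k0)))) (by decide +kernel)
def c9453 : PP 8 4 T 0x10044000090005001041000000010001000200880002 := rS 0x20d0abd38bf01a8c86891a6cb3e9fda0632e97cca6f17ac4b54b891a5326b8c424ee06 (k8 c831 c1023 c4322 c4482 c5752 c8246 c2823 c4479 (k8 c4427 c830 c624 c837 c9199 c2444 c2443 c2821 (k8 c2822 c525 c2482 c3692 c3680 c9450 c9452 c4381 (k8 c313 c1367 c4477 c1385 c1119 c522 c4306 c6225 k0)))) (by decide +kernel)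
def c9454 : PP 8 4 T 0x1000000000000080005001001000000010001100200080002 := rS 0x3b8ba5186751e949a21721abe30998914612691f86ccea34f9dd122f49ab5571015994b4293982406b3729146697031acc61f (k8 c86 c2822 c5752 c831 c2930 c9263 c440 c9380 (k8 c9211 c28 c230 c1561 c9410 c830 c2444 c1638 (k8 c4468 c4415 c4338 c4413 c837 c9445 c1023 c4414 (k8 c9384 c511 c2672 c8194 c2823 c4322 c1591 c4479 (k8 c8246 c4482 c4346 c4446 c9453 c1759 c2112 c332 (k4 c499 c9009 c7972 c4418 (k2 c8077 c8248 k0))))))) (by decide +kernel)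
def c9455 : PP 8 4 T 0x24000000000001000040004004101045101001555004055500044010000004205410480 := rS 0xbd47a9d6b4312b191a492688e2a351b0747e7717aec86bf (k8 c4369 c4446 c4449 c837 c1023 c8194 c85 c9037 (k8 c7037 c4386 c1410 c324 c323 c6976 c9121 c313 (k4 c4391 c1432 c4558 c4521 (k2 c8143 c9059 k0)))) (by decide +kernel)
def c9456 : PP 8 4 T 0x40000000000024000000000001000050404004101045101011155004055500444010000004205410480 := rS 0xc724b368a82 (k4 c9455 c4452 c2064 c4573 (k2 c7284 c9121 k0)) (by decide +kernel)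
def c9457 : PP 8 4 T 0x2000002000000080000000001000000000000000001500000000001000000000000 := rS 0x21afd (k2 c5101 c5264 (k1 c4477 k0)) (by decide +kernel)
def c9458 : PP 8 4 T 0x10000000001000040408040400044001011155404055500400002000004000090000 := rS 0x1c11ec65012592b7 (k8 c3670 c7308 c1718 c2118 c9121 c851 c9239 c4135 k0) (by decide +kernel)
def c9459 : PP 8 4 T 0x40000000000024002000000001000050400000501045141011005005555500044010400004204490480 := rS 0x1157ea951aa7863096e533f9f478741f9dd02195d90d36bf (k8 c4369 c4448 c4446 c4449 c4436 c4439 c1023 c8194 (k8 c8248 c4471 c1691 c2450 c332 c3670 c9456 c9458 (k4 c4330 c4383 c4385 c9224 (k2 c7247 c9304 k0)))) (by decide +kernel)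
def c9460 : PP 8 4 T 0x8000000000000000000011000400000000054005440000000000000000000000000000 := rS 0xeac3 (k2 c4362 c4417 (k1 c2123 k0)) (by decide +kernel)
def c9461 : PP 8 4 T 0x20000002000000040000000101000040001000205515500000000005404201010480 := rS 0x4d11839faa512a9c964f (k8 c4297 c4434 c4330 c4381 c4385 c9224 c8696 c9427 (k2 c244 c2111 k0)) (by decide +kernel)
def c9462 : PP 8 4 T 0x20000000000001000000000000515045045045005045555510000010105004204090480 := rS 0x8d26c551e231a8d9408364bf21ab73f9f5303c3a45c76c55f90d761d1f9dd82cba592c2e4f40865a70889ab9e0d1448bc8a1f (k8 c86 c440 c837 c9445 c1758 c8058 c2120 c4346 (k8 c4479 c9457 c4436 c4439 c4297 c4431 c4434 c4428 (k8 c8140 c8008 c1023 c8194 c85 c4449 c4446 c4369 (k8 c4370 c8068 c9460 c8248 c4471 c9459 c1691 c2450 (k8 c3670 c9461 c4477 c7308 c4306 c2118 c9037 c7037 (k4 c7038 c851 c4386 c324 (k2 c6910 c4486 k0))))))) (by decide +kernel)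
def c9463 : PP 8 4 T 0x10000000002001000000001000581045041055005245555500000010005004200090480 := rS 0x174b529a8086c96126e1ac51e1fcfa7717b2e96810cb4e1113 (k8 c4346 c4479 c9457 c4436 c4439 c4428 c8140 c837 (k8 c1023 c1691 c2450 c499 c1785 c9461 c869 c9443 (k4 c7308 c4567 c2118 c332 (k2 c1707 c9458 (k1 c2061 k0))))) (by decide +kernel)
def c9464 : PP 8 4 T 0x4005000000000000010001100200080002 := rS 0x77174a30c7a758ca1626f0573451627589858289319acba974ea44d23f05874b21f0897c721b3791466b3549cc120333a8d569f56a4e202b32969ca293b8185e6d (k8 c9435 c837 c831 c1023 c9410 c9380 c830 c2444 (k8 c1638 c4468 c4413 c4338 c4414 c4415 c9384 c511 (k8 c28 c230 c1561 c9426 c9211 c9263 c440 c9199 (k8 c2672 c8463 c2443 c2594 c86 c487 c85 c567 (k8 c8194 c2823 c2892 c2968 c2930 c2821 c5752 c2822 (k8 c9445 c8008 c9448 c624 c870 c9454 c1758 c2120 (k8 c8058 c4346 c5976 c9462 c9463 c1678 c9009 c9153 (k2 c4418 c8077 (k1 c8248 k0))))))))) (by decide +kernel)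
def c9465 : PP 8 4 T 0x410000000001000040400000001444000045150000055500044000000004005490000 := rS 0x349ac6661241e8367b25f889 (k8 c516 c4477 c7308 c6873 c4306 c4376 c1718 c2124 (k4 c9121 c2063 c1447 c2108 k0)) (by decide +kernel)
def c9466 : PP 8 4 T 0x22000000000000000008000000044000011005601041000000000000000200000002 := rS 0x5eb3ce3438a321fabb52a84c66b2ea5cd20b0e97ccaa940a2cfa6f3f819625a (k8 c830 c624 c831 c2450 c9199 c1691 c4322 c4439 (k8 c9426 c2444 c2443 c85 c567 c2823 c2930 c2821 (k8 c5752 c2822 c4329 c4385 c4847 c9224 c2118 c9304 (k4 c4422 c2447 c1792 c4354 (k1 c8129 k0))))) (by decide +kernel)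
def c9467 : PP 8 4 T 0x408000000044000004005601041000000000002000200080002 := rS 0xd27e4344e632e844be650d969ca4f54a1626694485d028b0cc20d60525a9d30423e9bcfe06 (k8 c831 c2450 c9199 c1691 c316 c317 c3913 c3839 (k8 c54 c5752 c7393 c4436 c4322 c4439 c1910 c516 (k8 c2823 c4441 c5976 c9426 c299 c9380 c830 c2672 (k8 c2444 c2443 c2594 c2821 c2822 c870 c9466 c4477 (k2 c9465 c8510 k0))))) (by decide +kernel)
def c9468 : PP 8 4 T 0x10000000000000000080000400591001001055115444402000000000000000000000080 := rS 0x828a435fa71 (k4 c585 c4302 c4326 c9302 (k2 c6396 c9440 k0)) (by decide +kernel)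
def c9469 : PP 8 4 T 0x10000000000000000000000404491045001055115444402080000002000155400000080 := rS 0x63a85728e58348930d (k8 c4326 c7307 c4467 c9468 c625 c1203 c851 c331 (k1 c8916 k0)) (by decide +kernel)
def c9470 : PP 8 4 T 0x4005000000000000010000100200080002 := rS 0x5da0d623747831a626129c446fd302dcfac21e1d296cb8b8ed5cc18cb157e8b40a250a982126e1017898c0da05319ad3a91348fc161d2c87c223937acd52730480ccea355a7d5a93880acca5a728a4ee06 (k8 c831 c1023 c9410 c9380 c830 c2444 c1638 c4468 (k8 c4413 c4338 c4414 c4415 c9384 c511 c28 c230 (k8 c1561 c9426 c9211 c9199 c8463 c2594 c86 c487 (k8 c85 c567 c8194 c2823 c2892 c2968 c5752 c2822 (k8 c54 c9435 c9464 c4441 c1910 c7393 c1967 c316 (k8 c317 c5976 c516 c4439 c4322 c4566 c7718 c4446 (k8 c1932 c2120 c8059 c9460 c8140 c4428 c8248 c4471 (k8 c9443 c1691 c3670 c9467 c4302 c2824 c585 c9265 (k8 c9469 c4278 c871 c2845 c321 c9348 c508 c1931 (k1 c9037 k0)))))))))) (by decide +kernel)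
def c9471 : PP 8 4 T 0x20050050000000000000010008200000002 := rS 0xb758c5018d34882c3a590f844725a3781966e5 (k8 c9380 c9211 c831 c9199 c830 c8463 c2594 c86 (k8 c487 c85 c567 c2892 c4278 c871 c4538 c9348 (k2 c4353 c9438 k0))) (by decide +kernel)
def c9472 : PP 8 4 T 0x10100000061004100002000000090011000200080002 := rS 0xc866a99a427279f44a7f38bf61a5a03244d20b0e9643e4519aa4e609018be0a23 (k8 c833 c4314 c837 c28 c230 c1561 c9426 c9263 (k8 c440 c86 c487 c85 c567 c2823 c2892 c831 (k8 c830 c4326 c4302 c585 c2467 c9265 c7356 c5807 (k4 c9471 c4467 c5804 c2066 (k2 c7364 c637 k0))))) (by decide +kernel)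
def c9473 : PP 8 4 T 0x10000000000000000000000051144000020150001555500000000000000000000000 := rS 0xa041b25f94b (k4 c4457 c4477 c7308 c4306 (k2 c2118 c7527 k0)) (by decide +kernel)
def c9474 : PP 8 4 T 0x90000000551144000020100141555500000004005400000180080 := rS 0x4a4f663214ea1861fcfa0d (k8 c4371 c7640 c514 c9473 c4329 c4330 c2118 c637 (k2 c1480 c4381 (k1 c6996 k0))) (by decide +kernel)
def c9475 : PP 8 4 T 0x820000000000000000000011101040054001110145555500000000000000000080080 := rS 0x8e8a1fce2827ea354ea5 (k8 c4444 c4330 c4383 c4130 c2119 c2448 c2469 c4480 (k2 c7622 c4388 k0)) (by decide +kernel)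
def c9476 : PP 8 4 T 0x800000000001000040000011151044054021110145555500000000000004400180080 := rS 0x18243f434aaa5 (k4 c4444 c34 c9475 c9473 (k2 c4467 c7517 (k1 c1367 k0))) (by decide +kernel)
def c9477 : PP 8 4 T 0x4004000000000000010000100200080002 := rS 0x4743228b73fbf4f8d313ac4c2b511a5573161ac14eaa5442bda2c3890c5e28b42858846d409e05e63359752e691f854be1b378cd66a939824066751aad3ead49c4056652d3945206 (k8 c831 c9410 c9380 c830 c2444 c1638 c4468 c4413 (k8 c4338 c4414 c4415 c9384 c511 c28 c230 c1561 (k8 c9426 c9211 c9263 c9199 c2672 c2443 c2632 c8194 (k8 c2823 c2930 c2821 c5752 c2822 c837 c9470 c1963 (k8 c2452 c501 c500 c2453 c2454 c4431 c1910 c8580 (k8 c3964 c1758 c5815 c8058 c4444 c597 c4314 c8774 (k8 c4481 c4548 c5073 c833 c4419 c9472 c624 c870 (k8 c9474 c9476 c4379 c154 c1627 c8975 c4477 c8639 (k1 c4388 k0))))))))) (by decide +kernel)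
def c9478 : PP 8 4 T 0x1000000000000400000000020001040000001000020000000000100000 := rS 0x30a2c52 (k4 c7314 c7172 c2034 c4362 k0) (by decide +kernel)
def c9479 : PP 8 4 T 0x20000000000000000000400000044100000450001041000000000000000202000002 := rS 0xe0c87ea843a63359753a913497cca6f032a5625a (k8 c830 c624 c9426 c831 c9199 c2444 c2443 c2823 (k8 c2892 c2968 c2821 c5752 c2822 c85 c4329 c7315 (k2 c2118 c8720 (k1 c2447 k0)))) (by decide +kernel)
def c9480 : PP 8 4 T 0x9400014044000090000040041000800020000000200000002 := rS 0xcda2a990acfa1a8102c97e434fa7f8220cea183b32c7417319acba974e9a4165f329bd66e554a955e294c87cda310e86c0c3378c2696b12d3162e9b (k8 c2058 c4362 c196 c830 c624 c4427 c4322 c4433 (k8 c9263 c831 c2672 c85 c1913 c5814 c86 c6171 (k8 c9410 c5815 c9161 c9426 c9380 c9211 c9199 c2444 (k8 c2443 c567 c2823 c2968 c2930 c2821 c5752 c2822 (k8 c2030 c2035 c3925 c8238 c4465 c1575 c2003 c4481 (k8 c8255 c4409 c9479 c4477 c7308 c4380 c2118 c4423 (k4 c1794 c7306 c2119 c4453 (k2 c2066 c4495 k0))))))))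 (by decide +kernel)
def c9481 : PP 8 4 T 0x9000014044000080004000041000000020000000200080002 := rS 0x8342af4e2fc06a321a2469c60fe770b32cfad0298bd36632e97cca990fa24e6090195566e50ad2ca312359b4621b19bc4d2bf849e4161d37819625a (k8 c830 c624 c831 c9199 c85 c567 c1847 c4322 (k8 c7782 c2823 c4433 c9263 c2672 c1913 c5814 c5752 (k8 c4479 c1591 c4427 c2632 c9380 c9211 c34 c28 (k8 c230 c1561 c9478 c86 c6171 c2444 c2443 c2821 (k8 c2822 c2058 c836 c9480 c4475 c3692 c3680 c1759 (k8 c1833 c2482 c4482 c9450 c9452 c4381 c313 c1367 (k4 c4477 c1385 c1119 c522 (k2 c4306 c6225 k0)))))))) (by decide +kernel)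
def c9482 : PP 8 4 T 0x1000014044000080004000041000000020000000200080002 := rS 0x8342af4e2fc06a321a24698be309b3f9dc2ccb3eb40a6c35898cba5f329bd321f449e416730480caab372856965189424d66d18874365a030cde269 (k8 c2823 c4433 c9263 c831 c830 c2672 c85 c1913 (k8 c5814 c5752 c4322 c4479 c1591 c4427 c2632 c9380 (k8 c9211 c34 c28 c230 c1561 c567 c1847 c9478 (k8 c86 c6171 c9199 c2444 c2443 c2821 c2822 c624 (k8 c9481 c2034 c4475 c3692 c3680 c1759 c1833 c2482 (k8 c7150 c4482 c836 c9450 c9452 c4381 c313 c1367 (k4 c4477 c1385 c1119 c522 (k2 c4306 c6225 k0)))))))) (by decide +kernel)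
def c9483 : PP 8 4 T 0x2010000000000000000000000000000000000204404000000000000000001404800004 := rS 0x13039a619 (k4 c35 c8106 c1835 c4467 (k1 c238 k0)) (by decide +kernel)
def c9484 : PP 8 4 T 0x2010000001000000000000000140000000091005010000000010000000141600800002 := rS 0x2858e27239259ccd0692e8a8240b40ee0901844365a51a7e20e514afe126f0332d76bd (k8 c4354 c4390 c1753 c831 c9199 c4322 c7782 c9410 (k8 c9380 c4468 c4414 c9384 c830 c2672 c2594 c28 (k8 c230 c1833 c525 c9483 c2122 c4452 c1855 c2461 (k8 c2064 c645 c4599 c1765 c871 c461 c1794 c2110 k0)))) (by decide +kernel)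
def c9485 : PP 8 4 T 0x6000000000000000000000000000000000000010040000000001000800108200000002 := rS 0xb964b1c186f032cdcab75a9d4161d (k8 c85 c567 c1575 c4389 c4353 c9380 c9211 c831 (k4 c9199 c871 c408 c507 (k2 c1046 c4073 k0))) (by decide +kernel)
def c9486 : PP 8 4 T 0x100000000004004000000000000000000100200080002 := rS 0x5cb246ad20689ceb17248f474c2290bda2760b9356abd5bc507e1137aa48709a59450a7d129c522fd2c87e1a2330228da1b57bc4623360a24f20b0e9cc1255598553a63359a480ad4faae2029518acca5a03394ce03 (k8 c28 c511 c9380 c831 c830 c2444 c1638 c9384 (k8 c9410 c4468 c4415 c4414 c4338 c9477 c2823 c5752 (k8 c2822 c2968 c2632 c9211 c34 c230 c1561 c85 (k8 c567 c1847 c9478 c8008 c9263 c1913 c4433 c5815 (k8 c2672 c5814 c2120 c9482 c2824 c4326 c86 c487 (k8 c4302 c2892 c585 c9265 c7356 c712 c1591 c4427 (k8 c4322 c91 c9426 c9199 c2594 c8194 c9302 c4353 (k8 c4354 c4389 c1994 c9484 c8238 c1759 c7984 c7874 (k8 c2034 c2035 c332 c372 c4362 c1575 c9485 c503 (k4 c4467 c8124 c8066 c7514 (k1 c4073 k0))))))))))) (by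 decide +kernel)
def c9487 : PP 8 4 T 0x1000001001001000080000400001100401991005010000000011000005145604081080 := rS 0x50d8ea164335a09541058ee81a28649ca717a8d3f10578a61247 (k8 c4374 c4322 c9410 c5815 c4468 c4414 c9384 c836 (k8 c852 c6996 c8634 c4396 c1360 c1024 c4465 c4484 (k8 c9447 c525 c2064 c644 c4551 c461 c4422 c7091 k0))) (by decide +kernel)
def c9488 : PP 8 4 T 0x4004000000000000000000100200080002 := rS 0x3bc65344d2489da435472341b15580950a7111bf4c0bf84a29828936abd4a313cbc4806335a75226905874b21f0a844721b378cd66a92a9cc120333a8d569f56c4056652d3945206 (k8 c831 c9410 c9380 c830 c2444 c1638 c4468 c4338 (k8 c4414 c4415 c9384 c511 c28 c230 c1561 c34 (k8 c9426 c9211 c9263 c9199 c2672 c8463 c2594 c2632 (k8 c86 c487 c85 c567 c2823 c2892 c2968 c5752 (k8 c2822 c9477 c4433 c1847 c1913 c9161 c5815 c5814 (k8 c9478 c8008 c2120 c4322 c7782 c9482 c4302 c2824 (k8 c585 c712 c9265 c9486 c4350 c2456 c1115 c625 (k8 c1034 c9348 c4538 c4199 c1995 c9487 c4448 c1888 (k1 c4482 k0))))))))) (by decide +kernel)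
def c9489 : PP 8 4 T 0x4000000000000000000100200080002 := rS 0x1d9351960a562d124c9d45ef1188f4307957b0d8a5082c250c9356aae202b399543e630480cd6974e9a4161d0a994b43359b945206 (k8 c831 c9410 c9380 c9211 c9263 c830 c2444 c2632 (k8 c85 c567 c2823 c2968 c2930 c5752 c28 c230 (k8 c2822 c86 c34 c1561 c1638 c4468 c4415 c4338 (k8 c4413 c9488 c4440 c4410 c1564 c3512 c1907 c1632 (k8 c1965 c7313 c3608 c8071 c4435 c1870 c499 c6171 (k8 c4469 c4481 c5073 c4420 c7972 c2127 c4482 c1888 k0)))))) (by decide +kernel)
def c9490 : PP 8 4 T 0x4000000008000000000000100000001540200000002 := rS 0x5331854365a148195ae5 (k8 c9380 c4554 c831 c9410 c830 c2672 c2632 c2822 (k2 c1903 c7441 k0)) (by decide +kernel)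
def c9491 : PP 8 4 T 0x800100000000000000010000414000404000000140004000000000000000000000000 := rS 0x12b16 (k2 c4481 c5073 (k1 c7641 k0)) (by decide +kernel)
def c9492 : PP 8 4 T 0x201100401000000000000090040000105401200010400 := rS 0x29da48e (k4 c625 c9348 c852 c6996 k0) (by decide +kernel)
def c9493 : PP 8 4 T 0x840000000000000000140200040002 := rS 0x2e59235690344eb55baf628b1249344a853888dfb0d279822ecb1e8e9845268954fb044521d269f3fab620a33398cba974ea447e590a844be3932acdcaa921b157e9b609d5066f44a94da1b2d2bc52ab28a643f1217860d2f12001863093582c3a33 (k8 c9263 c85 c567 c5752 c4438 c8071 c831 c1023 (k8 c4433 c2823 c1024 c1870 c4469 c86 c6171 c1877 (k8 c5962 c9410 c5815 c830 c2672 c5814 c9161 c2043 (k8 c9199 c2003 c498 c1893 c1888 c3005 c3006 c1887 (k8 c9426 c9380 c9211 c2444 c8463 c2443 c2594 c2632 (k8 c487 c8194 c2892 c2968 c2930 c2821 c2822 c4555 (k8 c9384 c4468 c4554 c8255 c4414 c4413 c9490 c2120 (k8 c9491 c4409 c4406 c260 c8133 c2034 c2035 c332 (k8 c3925 c4362 c9480 c7607 c4326 c4302 c2824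 c585 (k8 c712 c9265 c4248 c372 c9492 c9302 c6133 c4353 (k8 c4389 c9485 c503 c4467 c8124 c8066 c7514 c4073 k0))))))))))) (by decide +kernel)
def c9494 : PP 8 4 T 0x840000000000000000100200040002 := rS 0xaca522da2554399ca704152aca2f118a2430408498cd66905874ca1b2d01866e5 (k8 c9380 c9263 c831 c830 c2672 c2444 c85 c567 (k8 c2823 c5752 c2822 c4438 c1023 c1024 c2043 c8071 (k8 c4433 c1877 c5962 c9493 c8717 c292 c4310 c4410 (k4 c4406 c260 c8133 c4475 (k2 c8169 c4458 k0))))) (by decide +kernel)
def c9495 : PP 8 4 T 0x20000200001001000000000000400000000000005540000000400000000000002000000 := rS 0xd02aa1d8ac1 (k4 c4450 c4370 c4410 c4406 (k2 c7648 c260 k0)) (by decide +kernel)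
def c9496 : PP 8 4 T 0x20000000001000000000000000000000000000005040040000400000001100202000002 := rS 0x24876ad15c1624ab319a42a652d0cd66e53a818eec517a6ca213 (k8 c9489 c1877 c4448 c836 c4370 c9494 c831 c498 (k8 c9380 c9211 c9263 c830 c2444 c2632 c2823 c2822 (k8 c5962 c4469 c9495 c8717 c6230 c4158 c9491 c9125 k0))) (by decide +kernel)
def c9497 : PP 8 4 T 0x40000000000000401001000000000000400000515000001000055446044180044010004001200040480 := rS 0x3359f43a2a117081648316ab707c517ad338844be3932914eabf5d90e3083 (k8 c641 c4482 c4446 c4449 c7782 c498 c440 c2444 (k8 c8463 c2443 c2594 c9236 c9432 c6133 c4480 c8260 (k8 c4353 c4389 c4463 c506 c1293 c2121 c2122 c8243 (k4 c4394 c1525 c1481 c4495 k0)))) (by decide +kernel)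
def c9498 : PP 8 4 T 0x40000000000000401000000000000000400000114044000000055440040000044010001001200040002 := rS 0x112814e278698592fc319753a9105874be652d0cd66e55f9bc0cbb17a6e3083361acd2a9 (k8 c9426 c2823 c5752 c4479 c641 c4482 c4448 c836 (k8 c4449 c831 c9199 c7782 c9380 c9211 c9263 c830 (k8 c2444 c2443 c85 c567 c2892 c2968 c2821 c2822 (k8 c9497 c4305 c4302 c7315 c870 c904 c2118 c9429 (k1 c2825 k0))))) (by decide +kernel)
def c9499 : PP 8 4 T 0x40000000000020000000000000000000400000400004004000041540000410000000000002200000400 := rS 0x1175cbf16eb538c551836 (k8 c312 c313 c4386 c1385 c1387 c1117 c8629 c8242 (k2 c7787 c8860 k0)) (by decide +kernel)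
def c9500 : PP 8 4 T 0x1000000000000000000000000000000000005040040000400000001140202000002 := rS 0x693f560253e9fe08553652d971343ab9269f55ab620a335a44d20b0e9643e150897c725a19acdca29549d40c4317a6ca2414492c9ed178460ee13 (k8 c9489 c9494 c4482 c9496 c4298 c4297 c4434 c2038 (k8 c1872 c1877 c4448 c836 c4446 c831 c498 c9426 (k8 c9410 c9380 c9211 c9263 c830 c8463 c2443 c2594 (k8 c2632 c86 c487 c85 c567 c2823 c2892 c5752 (k8 c9384 c4468 c4554 c4415 c4414 c4413 c7769 c9490 (k8 c4346 c8140 c4428 c4479 c4151 c4464 c4313 c4409 (k4 c9499 c9498 c4304 c9348 (k1 c9432 k0)))))))) (by decide +kernel)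
def c9501 : PP 8 4 T 0x201100401000000000000090040000105000200010400 := rS 0x123f4e22f (k4 c836 c124 c4304 c9492 (k1 c9265 k0)) (by decide +kernel)
def c9502 : PP 8 4 T 0x400000000000000140000410000000000082200000400 := rS 0x3f16eb538ae62a8c1b31d2a1f8ba847892 (k8 c315 c314 c3666 c4416 c86 c1695 c2262 c312 (k8 c313 c4386 c1471 c1385 c1388 c1118 c8629 c8860 k0)) (by decide +kernel)
def c9503 : PP 8 4 T 0x41000000000000000000000000000000510008011110000000050000055500444002004405400000000 := rS 0x53a89989f (k4 c3601 c7551 c2118 c2066 (k1 c4525 k0)) (by decide +kernel)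
def c9504 : PP 8 4 T 0x40000000000020100002000000000000400000511110050000051554054500444002404005200000000 := rS 0x435a6a751a3968b7118d68ab9628bd371764a050661 (k8 c4302 c4306 c4380 c4305 c4416 c4448 c836 c4370 (k8 c8242 c8243 c9361 c833 c9503 c8860 c7420 c1436 (k4 c852 c8064 c7315 c4467 k0))) (by decide +kernel)
def c9505 : PP 8 4 T 0x20100002000000000000000000010110010080011540040000444002401001200000002 := rS 0xa72688da6361a830e02765985925d4b97cca6f59b94862f3f98e96b14daa4663908818b21f05875225a (k8 c830 c2892 c85 c567 c86 c487 c831 c2594 (k8 c8463 c9263 c9426 c4448 c9501 c4427 c2822 c6629 (k8 c836 c4446 c9380 c9211 c9199 c2444 c2443 c2930 (k8 c2821 c4305 c4302 c1752 c870 c9504 c496 c1304 (k4 c497 c4371 c833 c324 (k2 c4558 c2111 k0)))))) (by decide +kernel)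
def c9506 : PP 8 4 T 0x1000000000000000000001100001000000020100400044040105401400000480 := rS 0x1354e271b1846b15 (k8 c4387 c1304 c2446 c497 c4538 c4532 c324 c2111 k0) (by decide +kernel)
def c9507 : PP 8 4 T 0x20000000002000000000000000010000000010005440040000400000001080200040002 := rS 0x4ed386ad56e378a1c446fd58a96248a61a5d2269088e4ca6f19aa486c5608bd364b278ed2aaf3fc44c6873ec11423c49094eab37297cb4062c87c161d (k8 c85 c567 c86 c487 c831 c830 c2443 c9380 (k8 c9211 c498 c9502 c315 c314 c3666 c8717 c4409 (k8 c4410 c2822 c4411 c6629 c1775 c1695 c1641 c4297 (k8 c4434 c4448 c836 c4450 c4370 c4446 c9426 c9263 (k8 c9199 c2444 c8463 c2594 c2823 c2892 c2930 c1128 (k8 c2123 c5443 c4444 c9501 c9505 c9427 c9506 c4480 (k4 c4386 c4353 c4389 c8237 (k2 c5037 c8452 (k1 c4467 k0))))))))) (by decide +kernel)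
def c9508 : PP 8 4 T 0x20800001002000000000000000000000000000040040000000000000001080200040002 := rS 0x2769c356ab71bc50e2234b9a4de431792cfb04129d566e52fac54a4f4daa4663908818b21f05875225a (k8 c830 c2892 c85 c567 c86 c487 c831 c2594 (k8 c8463 c9263 c9426 c4448 c4297 c4444 c9501 c2443 (k8 c9380 c9211 c498 c9502 c8717 c4409 c4434 c836 (k8 c4446 c9199 c2823 c2930 c9427 c9506 c4480 c4386 (k4 c4353 c4389 c8237 c5037 (k2 c8452 c4467 k0)))))) (by decide +kernel)
def c9509 : PP 8 4 T 0x80140000000000000000050000000001000400000000000154000 := rS 0x1a49 (k2 c4281 c4371 (k1 c2107 k0)) (by decide +kernel)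
def c9510 : PP 8 4 T 0x40000000000020000002000000000040400000501100000000051554000000044000505005200000000 := rS 0x1306c231aae62a4364a9c5e9b (k8 c4448 c836 c4558 c4305 c4446 c8253 c8242 c9361 (k4 c833 c4470 c2111 c324 k0)) (by decide +kernel)
def c9511 : PP 8 4 T 0x1000000000000000000000000000000000005040040000400000001100202000002 := rS 0x470d4f5159a846989cc20f40b25f88a61a95331236ab04aa123954fa873f8f2089263c4454f0319acba6905874b21f0a844be652d2cdcaa93a8198ac18c1dc2689 (k8 c2038 c9489 c9494 c4482 c4450 c4370 c831 c498 (k8 c9426 c9380 c9211 c830 c2444 c2443 c2594 c2632 (k8 c86 c487 c85 c567 c2823 c2821 c5752 c2822 (k8 c9496 c9500 c4411 c2262 c315 c8717 c314 c6629 (k8 c4410 c4409 c4406 c8078 c3666 c9502 c9507 c944 (k8 c4479 c8246 c4444 c1127 c2123 c9508 c4305 c4380 (k8 c4376 c4302 c870 c9509 c8613 c1481 c4397 c9372 (k2 c4384 c1299 (k1 c4467 k0))))))))) (by decide +kernel)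
def c9512 : PP 8 4 T 0x80000000000000100200000002 := rS 0x55050a9680ce5 (k4 c9380 c831 c830 c2632 (k2 c4310 c4555 (k1 c8717 k0))) (by decide +kernel)
def c9513 : PP 8 4 T 0x1002000000000000000000010044004000005440040000800000001000202040002 := rS 0x8467b495e238909540272792d970d3083d068164ac4c65d05874b21f2f994366f0bd2d567f3ec1114c31e90c823f62acdca7544955831843854b406 (k8 c831 c830 c2632 c1903 c4482 c4450 c9029 c2039 (k8 c498 c9380 c9211 c4370 c8194 c1872 c4446 c332 (k8 c9009 c2123 c4464 c4409 c4313 c1942 c4456 c35 (k8 c9199 c2672 c2444 c2443 c86 c487 c85 c567 (k8 c2821 c2822 c4304 c4305 c4380 c4306 c4376 c4302 (k8 c7315 c1752 c1874 c4501 c870 c2118 c9499 c9498 (k4 c2825 c4346 c4467 c1794 (k2 c9027 c4184 k0)))))))) (by decide +kernel)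
def c9514 : PP 8 4 T 0x20001001000000000080000000001000001000400400400090040010005001200000480 := rS 0x132a4471b560111c914869b (k8 c4448 c4446 c440 c8463 c2594 c7644 c9432 c625 (k2 c9501 c8246 (k1 c1430 k0))) (by decide +kernel)
def c9515 : PP 8 4 T 0x20001001000000000080000000000004000080050400040000800000001000202000002 := rS 0xc950984daaf6733508f1a293906cb12934c66b2ea44161d2c87cbe650d9686629032a482d1 (k8 c179 c1872 c9426 c831 c9410 c9263 c830 c2672 (k8 c2444 c2443 c86 c487 c85 c567 c2892 c2821 (k8 c5752 c2822 c4282 c5708 c2022 c1998 c9514 c4396 (k8 c4297 c259 c1480 c421 c5815 c5814 c712 c1794 (k2 c717 c9372 k0))))) (by decide +kernel)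
def c9516 : PP 8 4 T 0x40000000001004000080050000054500880000005401006000000 := rS 0x140c930a9cdacb673350827789368ad1 (k8 c179 c4396 c177 c4297 c2391 c259 c1480 c421 (k4 c2022 c5814 c4558 c712 (k2 c717 c9372 (k1 c1795 k0)))) (by decide +kernel)
def c9517 : PP 8 4 T 0x1000000000000000000020000000000000000000005000000000000080 := rS 0x7717 (k2 c4418 c8077 (k1 c4471 k0)) (by decide +kernel)
def c9518 : PP 8 4 T 0x401001000000000000000000010044000000005440040000800000001001202040002 := rS 0x63181eca2786c8a83361acd2a925bc05e9b19c50e2aba5994be5d31ac5a68a618f486411fb15667544b050e7d3fc10aa1572c6072112c87c161d48968de06 (k8 c831 c9199 c830 c2892 c85 c567 c86 c487 (k8 c2594 c8463 c4482 c9380 c2632 c9029 c4464 c4313 (k8 c4409 c1903 c4450 c2039 c498 c9211 c4370 c8194 (k8 c1872 c4446 c332 c9009 c2123 c9515 c9348 c2822 (k8 c2821 c2443 c2444 c4456 c1942 c9236 c4480 c9263 (k8 c4448 c836 c4469 c4434 c9426 c2823 c5752 c4479 (k8 c641 c440 c2672 c9516 c9498 c8476 c2023 c4463 (k1 c1447 k0)))))))) (by decide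 +kernel)
def c9519 : PP 8 4 T 0x1000000000000000000000000000000000005040000000000000001100202000002 := rS 0x2438c4d2afd3e9fd86934fab547041ec41562b2ad2ca441319752e9d488fc161d2c87c2a5f32968dee51499cea0621b15822f4dc60ee13 (k8 c9489 c9494 c4482 c4448 c836 c4450 c4370 c4446 (k8 c831 c498 c9512 c9410 c9380 c9199 c830 c2444 (k8 c2443 c2632 c86 c487 c85 c567 c8194 c2892 (k8 c2968 c2930 c2821 c2822 c1872 c9511 c4456 c9029 (k8 c292 c1942 c4712 c332 c4464 c9384 c4554 c4414 (k8 c4413 c9009 c4313 c4409 c9513 c9517 c4553 c9236 (k2 c9518 c9265 k0))))))) (by decide +kernel)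
def c9520 : PP 8 4 T 0x401001000000000000000000010044000000005440040000844000001000200040002 := rS 0x683d8d14652c5a6253898cba9105874b21f0897c726537914667521c6296ab2085c367f3ec10aa152d019ca83361acd2a9 (k8 c9426 c2823 c5752 c4479 c641 c9380 c831 c830 (k8 c2632 c9029 c4464 c4409 c4313 c2672 c2031 c8238 (k8 c1942 c4456 c4482 c4446 c498 c9263 c440 c9199 (k8 c2444 c8463 c2443 c2594 c86 c487 c85 c567 (k8 c2892 c2821 c2822 c9236 c9265 c9432 c9348 c9498 (k4 c4480 c2023 c8476 c1447 (k1 c4463 k0))))))) (by decide +kernel)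
def c9521 : PP 8 4 T 0x1000000000000000000000000000000000005040000000800000001100200000002 := rS 0x9596c958bf2268a2792cfa7f4ab0c82f049a7d5aa344c107a17882ac56872ad2d2e9d1f82c3a590f854be1b2d2cdca29339d40c4362b045e9b8c1dc2619 (k8 c9519 c9489 c9494 c4482 c4448 c836 c4450 c4370 (k8 c4446 c831 c498 c9512 c9410 c9380 c9211 c830 (k8 c2672 c2443 c2632 c86 c487 c85 c567 c8194 (k8 c2968 c2930 c4456 c9029 c1903 c292 c1942 c4712 (k8 c2031 c332 c4464 c7030 c9384 c4554 c4414 c4413 (k8 c4465 c8238 c9009 c9517 c4313 c4409 c4434 c4297 (k8 c2123 c4553 c9520 c4304 c4305 c1752 c9499 c9498 k0))))))) (by decide +kernel)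
def c9522 : PP 8 4 T 0x401000000000000000000000010000004000005040000000000000001100200000002 := rS 0x693f560253e9fe0855a5b2d0eae2893c9689781b0826b489a4161d2c87c2a112f8e4b43359aa4ce75218bd37183b84c325351aad3f1015b945206 (k8 c831 c9410 c9380 c315 c4468 c4414 c4415 c9384 (k8 c9521 c9519 c9489 c9494 c4482 c4448 c836 c4446 (k8 c498 c9512 c9426 c9211 c9263 c830 c8463 c2443 (k8 c2594 c2632 c86 c487 c85 c567 c2823 c2892 (k8 c5752 c8691 c4479 c4469 c680 c4434 c4297 c4435 (k8 c7769 c9490 c8140 c4428 c7179 c4464 c4313 c4409 (k4 c9499 c9498 c4304 c9348 (k1 c9432 k0)))))))) (by decide +kernel)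
def c9523 : PP 8 4 T 0x1000000000000000004000010000004000005040000000000000001100200000002 := rS 0x1e28a1da250e94822be24ab880acc6974e86cb4b3728a4ea064db1583183b84c3253 (k8 c9521 c9519 c9489 c9494 c4482 c4450 c4370 c4448 (k8 c831 c498 c9410 c9380 c9211 c830 c2672 c2968 (k8 c2930 c2822 c315 c4468 c4415 c9522 c4346 c9491 (k4 c4553 c4410 c4314 c8077 (k2 c2123 c4542 (k1 c5853 k0)))))) (by decide +kernel)
def c9524 : PP 8 4 T 0x1000000000000000004000010000000000005040000000000000001100200000002 := rS 0x8a789550e8915412229231994365a59b9452673a8198ac18c1dc2653 (k8 c9521 c9489 c9494 c4482 c4450 c4370 c831 c498 (k8 c9512 c9410 c9380 c9211 c830 c2672 c2444 c2822 (k8 c9523 c4413 c4478 c4468 c4794 c4410 c4406 c9507 (k2 c2123 c8133 k0)))) (by decide +kernel)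
def c9525 : PP 8 4 T 0x1000000000000000004000000000000000005040000000000000001100200000002 := rS 0x10d11a786acda29c1082769b2cc20f40b25624f25a848efc52bc04a3b1e2498e553ec49147f15410da87a5c45586335974d20b0e9643e150897c72650d968de3359b9552673a8185e9b8c1dc2619 (k8 c9519 c9489 c9494 c4482 c4448 c836 c831 c498 (k8 c9512 c9426 c9380 c9211 c9263 c9199 c830 c2672 (k8 c2444 c8463 c2443 c2594 c2632 c86 c487 c85 (k8 c567 c2823 c2821 c5752 c2822 c9524 c4338 c4458 (k8 c1904 c944 c6230 c4554 c6629 c9062 c4479 c4409 (k8 c4406 c2262 c315 c314 c1641 c9502 c5853 c4444 (k8 c9508 c8078 c3666 c4434 c4297 c4304 c4305 c4380 (k8 c4376 c4302 c1752 c9509 c870 c8613 c9510 c4397 (k4 c1481 c1304 c9372 c833 (k2 c4384 c4467 k0)))))))))) (by decide +kernel)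
def c9526 : PP 8 4 T 0x1000000000000000000000000000008000001441000000000000001100200000002 := rS 0x99611acf65a (k4 c830 c704 c5752 c9525 (k2 c8246 c1127 k0)) (by decide +kernel)
def c9527 : PP 8 4 T 0x2200000000000000008000000000008000000000410000100000005080204100000 := rS 0xd10bbc2262f4c26c3e95 (k8 c102 c86 c2059 c1127 c836 c4443 c6171 c8580 (k2 c4298 c9383 k0)) (by decide +kernel)
def c9528 : PP 8 4 T 0x2000000000000040000000100000001150001000001000400000001200040002 := rS 0x6903d926b2e9a42a112f9680ca9 (k8 c9426 c831 c830 c2443 c2594 c2632 c2823 c2821 (k4 c5752 c4305 c4376 c8613 (k1 c9509 k0))) (by decide +kernel)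
def c9529 : PP 8 4 T 0x1000001000040240000000000000000000000000001000000000000000050000 := rS 0x900d (k2 c506 c8024 (k1 c4199 k0)) (by decide +kernel)
def c9530 : PP 8 4 T 0x40000000001100000001500001500500000000000405000002000 := rS 0x14e61 (k2 c503 c4558 (k1 c2119 k0)) (by decide +kernel)
def c9531 : PP 8 4 T 0x2000200000000000000100010500000000000000104000000000000000000000000000 := rS 0xe273 (k2 c4408 c4387 (k1 c8522 k0)) (by decide +kernel)
def c9532 : PP 8 4 T 0x102201000001000040040000401100049000001105500590000000100101200050400 := rS 0x30c55722364ac52a55 (k8 c4406 c102 c9348 c9529 c9427 c8464 c9531 c9302 (k1 c9304 k0)) (by decide +kernel)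
def c9533 : PP 8 4 T 0x2201000000000000100000401110040000041115555580000000000001000008000 := rS 0x46a7e290c512c4e67d (k8 c4409 c4408 c624 c5857 c4046 c9304 c160 c4383 (k1 c9237 k0)) (by decide +kernel)
def c9534 : PP 8 4 T 0x4002201000000000080140004401110049000041015554580000480005401000150000 := rS 0x2c11f15532e49ea3869801c753e9557a4d (k8 c4282 c2014 c4406 c4409 c1656 c9509 c9533 c4326 (k8 c936 c5807 c1126 c6996 c7081 c853 c9302 c625 k0)) (by decide +kernel)
def c9535 : PP 8 4 T 0x20000008000001000000000000000000100200000002 := rS 0x28e1aa627b3d3f43641c56e0d24b49faa5890bde24265905a0c461a2d0a81841acba910a844721b378cd534b43b052e513f98d8e3b3d9b4fa892ac5c8ea11e0c4a67709894e704339a45511149d4cab37297cb4062c87c161d (k8 c85 c567 c86 c487 c831 c830 c2443 c9380 (k8 c9211 c2444 c1656 c9410 c4338 c4468 c2823 c9512 (k8 c6230 c4408 c9502 c1638 c9494 c2263 c2046 c314 (k8 c3666 c8078 c4416 c4406 c4314 c4409 c944 c704 (k8 c1641 c2262 c2822 c6629 c1865 c2930 c1987 c1904 (k8 c4458 c9426 c9263 c9199 c2672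 c8463 c2594 c2632 (k8 c2892 c2821 c5752 c9526 c4439 c4321 c4322 c9527 (k8 c2123 c1782 c1055 c3689 c1783 c4298 c837 c4469 (k8 c4444 c9528 c9532 c4281 c4371 c1742 c496 c9534 (k8 c4422 c1664 c1792 c6220 c6996 c4330 c941 c5588 k0)))))))))) (by decide +kernel)
def c9536 : PP 8 4 T 0x40000000000000000000000000000080640000001100000040000000010000000000005481000000000 := rS 0x51c354c4f67a7e8649 (k8 c4281 c4422 c1664 c1792 c6220 c6996 c4330 c941 (k1 c5588 k0)) (by decide +kernel)
def c9537 : PP 8 4 T 0x10001000000000000120004401100109000052154040500014090004005200000000 := rS 0x2d562b95da8c9e60 (k8 c4477 c5807 c936 c6959 c1126 c629 c1789 c2121 k0) (by decide +kernel)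
def c9538 : PP 8 4 T 0x40000000000000000201000000000080020000401100149000042004044180000010005081200000080 := rS 0x22ab14fa34c30c649c56e0d269244e4b2f9d4cac7399f54242458bd963c (k8 c314 c3689 c837 c2454 c501 c3666 c4409 c4408 (k8 c2262 c2444 c1656 c2443 c4375 c4278 c4281 c4282 (k8 c4371 c1742 c496 c9536 c9537 c4326 c4383 c4384 (k2 c624 c9237 (k1 c5772 k0))))) (by decide +kernel)
def c9539 : PP 8 4 T 0x20000008000000000000000000000000100200000002 := rS 0x104a7381862ab911b2562d37ea95891217b0d32850b10503193c09462478b954fa73298f18e133fc10da2a3398cd65d489a4161d2c87c225f1c9bc66b3728a55311a5b052e953a994b406 (k8 c831 c830 c2444 c1656 c102 c2930 c1987 c4458 (k8 c4338 c9426 c9410 c9380 c9211 c9263 c9199 c8463 (k8 c2443 c2594 c86 c487 c85 c567 c2823 c2892 (k8 c2821 c5752 c2822 c9512 c4468 c944 c6230 c6629 (k8 c1638 c2262 c314 c2263 c4408 c4409 c4406 c4416 (k8 c8078 c2046 c9502 c9535 c4447 c1963 c1847 c500 (k8 c2453 c1928 c2057 c837 c8580 c4494 c4444 c9528 (k8 c9538 c9348 c9529 c9427 c8464 c9531 c9302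 c4480 (k2 c4532 c2119 (k1 c2448 k0)))))))))) (by decide +kernel)
def c9540 : PP 8 4 T 0x40040000020100008000002000000000000000000001200000002 := rS 0x3cf84c3893d04b72929c96237ebc45e3528a14321621104da818c9acba6905874be4554d2da23318aad622764985726f5ac5a0a663982406b3729d4ca5a031fc242c (k8 c9539 c911 c515 c831 c830 c2444 c1656 c9380 (k8 c9211 c28 c230 c1561 c910 c4310 c4481 c4419 (k8 c9199 c4548 c7376 c632 c870 c624 c162 c397 (k8 c9263 c456 c4458 c9426 c440 c2443 c85 c567 (k8 c2823 c2821 c5752 c4447 c1963 c2452 c1847 c501 (k8 c500 c1959 c2453 c4937 c8774 c837 c4431 c8613 (k8 c833 c1955 c4558 c4475 c5279 c2119 c420 c2448 (k4 c2111 c2121 c244 c1563 k0)))))))) (by decide +kernel)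
def c9541 : PP 8 4 T 0x20001000000000000100015100500000000840501000000100000001405600080002 := rS 0x9e4d0c9181cbd479f2284b38874d69d089bc0c3359b9552730480cf65a (k8 c830 c704 c28 c230 c1561 c9426 c9380 c9211 (k8 c9263 c831 c9199 c2594 c2968 c5752 c85 c2448 (k8 c1855 c4480 c2121 c4388 c4354 c1563 c1562 c8637 (k2 c244 c1494 (k1 c2111 k0))))) (by decide +kernel)
def c9542 : PP 8 4 T 0x800001000000000040000040100000000000204404000000000000000004600000000 := rS 0x4523071 (k4 c1421 c7000 c4480 c9296 k0) (by decide +kernel)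
def c9543 : PP 8 4 T 0x100000000000000000000020000000042000000100000000000000000000080000 := rS 0x11309 (k2 c4321 c2472 (k1 c8622 k0)) (by decide +kernel)
def c9544 : PP 8 4 T 0x100000000000040100000000100000001140501001000100000001401200080002 := rS 0xb67ea08d65d3497d52b12d2e4de065ac58e60901acdcaa78608c6a27 (k8 c870 c8774 c833 c4467 c4558 c9380 c9211 c28 (k8 c230 c1561 c4481 c4419 c831 c9199 c4548 c830 (k8 c624 c9426 c2443 c2823 c2821 c5752 c2119 c8613 (k2 c9541 c5279 k0)))) (by decide +kernel)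
def c9545 : PP 8 4 T 0x40000000020100008000040401000000000000000401200000002 := rS 0x44dfa8340215770c118d5167b2e9a4dea93a9940c1218aae0ab12d324a2a713984cc2c (k8 c9539 c910 c7376 c870 c4558 c1864 c632 c830 (k8 c624 c4310 c162 c397 c911 c831 c2444 c1656 (k8 c9426 c9199 c2823 c2821 c704 c720 c8774 c833 (k8 c4467 c4847 c9543 c9544 c127 c4380 c9542 c8695 k0)))) (by decide +kernel)
def c9546 : PP 8 4 T 0x100500000000200004000100044000005405200010400 := rS 0x44fd (k2 c4380 c9279 (k1 c9427 k0)) (by decide +kernel)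
def c9547 : PP 8 4 T 0x1001000000000000000000101500000001400004000000044000005405200010400 := rS 0x9a23 (k2 c9427 c4248 (k1 c2111 k0)) (by decide +kernel)
def c9548 : PP 8 4 T 0x11500000000000050144000000001000000000a00000400 := rS 0x1155b9c51c34 (k4 c833 c832 c1304 c1038 (k2 c4388 c4088 k0)) (by decide +kernel)
def c9549 : PP 8 4 T 0x1000000000000000000040000000000000001420000000020000000000000000080 := rS 0x8c108f636 (k4 c497 c707 c324 c4482 (k1 c4446 k0)) (by decide +kernel)
def c9550 : PP 8 4 T 0x1000040040008000000000000000000000000001000100000000000000 := rS 0x8f43 (k2 c4424 c1587 (k1 c4473 k0)) (by decide +kernel)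
def c9551 : PP 8 4 T 0x40040000020100008000000010000000000000000401200000002 := rS 0x968384c4cd87720af5764f66c508c0e42bf4f80b0e845528734b052ed1198c556b164ae4dec35ac5a0a730480d6675329fc24b724b94725a0314596a713984cc2c (k8 c9539 c910 c7376 c870 c4558 c2026 c1864 c831 (k8 c830 c8463 c9380 c368 c9550 c911 c515 c2444 (k8 c1656 c9211 c28 c230 c1561 c4310 c4481 c4419 (k8 c4362 c9199 c4548 c632 c624 c162 c397 c9263 (k8 c456 c2930 c1987 c2823 c1904 c9426 c2594 c85 (k8 c567 c2121 c7787 c1502 c1563 c1562 c8975 c8645 (k8 c1494 c4390 c4354 c8642 c1023 c9545 c4342 c4318 (k2 c641 c4799 (k1 c9547 k0))))))))) (by decide +kernel)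
def c9552 : PP 8 4 T 0x40000000000000000000000000000000005004400000000004405140000000020000090000000080080 := rS 0x8b62c6512775e1082e41 (k8 c1995 c1990 c324 c325 c1023 c516 c4446 c1175 (k2 c4632 c9443 k0)) (by decide +kernel)
def c9553 : PP 8 4 T 0x40040000020100008000000000000000000000000401200000002 := rS 0x29bc49c4d259ed770c118d906353829ca20b0eaa6968734b052ed1198c556c38b414e6120480d6675329e56e4913984cc2c728e4b406 (k8 c831 c830 c8463 c9380 c9539 c910 c7376 c870 (k8 c368 c9550 c9540 c2444 c1656 c9211 c28 c230 (k8 c911 c1561 c4310 c4481 c4362 c162 c397 c9263 (k8 c456 c2930 c1987 c2823 c1904 c4458 c9426 c85 (k8 c567 c1864 c4558 c9551 c1304 c2448 c497 c833 (k8 c4467 c4847 c707 c1413 c9552 c2111 c4297 c420 (k1 c4475 k0))))))) (by decide +kernel)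
def c9554 : PP 8 4 T 0x40040000020100008000000000000000000000000001200000002 := rS 0x1128b29901e22e3c8fc2a1b2d2cdca290321cd266688ccaa73090b01203 (k8 c28 c230 c9539 c911 c1561 c246 c9263 c456 (k8 c910 c2823 c1904 c831 c9410 c9380 c9211 c830 (k8 c2672 c2632 c8194 c9540 c9553 c4432 c837 c2033 (k2 c7874 c9478 (k1 c7345 k0))))) (by decide +kernel)
def c9555 : PP 8 4 T 0x20000000000000000000000000000000a00200000002 := rS 0x112794594c80f11f82c3a150d96966e5148190e69333446655398481203 (k8 c28 c230 c911 c1561 c246 c9263 c456 c910 (k8 c2823 c1904 c831 c9410 c9380 c9211 c830 c2672 (k8 c2632 c85 c567 c8194 c4432 c837 c2033 c7874 (k2 c1847 c9478 (k1 c7345 k0))))) (by decide +kernel)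
def c9556 : PP 8 4 T 0x40000000020100008000000000000000000000000001200000002 := rS 0x1fcee850690516ce291b59a8178d149c4b26b2d4f0c11d0d8c690d8a5534b688cc62ab13b24c2c38b414cc730902406b3729d4ca5a031445e2c (k8 c9539 c9555 c1864 c831 c830 c2444 c1656 c9380 (k8 c9211 c28 c230 c911 c1561 c910 c4310 c4481 (k8 c4362 c7376 c632 c870 c162 c397 c9263 c456 (k8 c4458 c9426 c9410 c2672 c2823 c9554 c4391 c1450 (k8 c4467 c4330 c2026 c413 c1454 c2111 c4396 c4297 (k8 c1360 c1480 c5814 c4475 c4495 c720 c2034 c3493 (k4 c9543 c1023 c514 c9544 k0))))))) (by decide +kernel)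
def c9557 : PP 8 4 T 0x400000000000000002001001000010000000020114000000000000100400014000005405404001000 := rS 0xa386b2d4c52894469651 (k8 c1864 c4458 c4338 c4469 c4475 c4502 c2022 c4330 (k2 c941 c4489 k0)) (by decide +kernel)
def c9558 : PP 8 4 T 0x20100008000000000000000000000000001200000002 := rS 0xa2532261b092785de0fc4fd0d6c7f389f4460d2692da45d488fc2a5f0daa6228734b4466a118aad622764985726f5ac5a0a6639848120359b94ea652d0185e2c (k8 c9539 c9555 c831 c830 c2444 c1656 c9380 c9211 (k8 c28 c230 c911 c1561 c910 c4310 c4481 c4419 (k8 c9199 c4548 c7376 c632 c870 c624 c162 c397 (k8 c2900 c9263 c456 c2823 c1904 c4338 c9426 c2672 (k8 c2443 c2632 c8194 c2892 c2821 c9556 c4375 c4282 (k8 c4371 c4372 c7640 c496 c514 c2121 c4424 c1667 (k8 c5279 c9557 c4431 c4297 c9457 c5264 c516 c6996 (k2 c4489 c6667 k0)))))))) (by decide +kernel)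
def c9559 : PP 8 4 T 0x8000000000000000000000000420210001000000040001500000000000000000000000 := rS 0xb738bf0fea34f23e1aab88ad532c3 (k8 c4362 c2050 c4419 c4338 c162 c4385 c1430 c2053 (k4 c1470 c5121 c4477 c4135 (k2 c1667 c7787 k0))) (by decide +kernel)
def c9560 : PP 8 4 T 0x20000008000000000000000000000000000200000002 := rS 0x1f4e3154f3191836122962cb1829ccc2a13304858750480cba910a97cca5a3781966e5 (k8 c9380 c9211 c831 c9199 c830 c2444 c2443 c2632 (k8 c2892 c2821 c28 c230 c1656 c9539 c911 c910 (k8 c2900 c7376 c1561 c4310 c624 c4481 c9559 c9558 (k8 c312 c313 c394 c395 c4386 c1385 c1352 c9165 k0)))) (by decide +kernel)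
def c9561 : PP 8 4 T 0x8000000000000000000000000100000001000000044000400000000000202200100000 := rS 0x1f4e3154f3191836 (k8 c312 c313 c394 c395 c4386 c1385 c1352 c9165 k0) (by decide +kernel)
def c9562 : PP 8 4 T 0x8000000000000000000000000400008005000000040001500000000000000000000000 := rS 0x1c5f88f3fade1ab5 (k8 c4419 c4384 c1667 c1393 c1428 c4477 c4135 c7787 k0) (by decide +kernel)
def c9563 : PP 8 4 T 0x8010100000001000010100000521114000000040154101501001000005405204000400 := rS 0x14d0927a25e0cf0693496a26950c46b688a1d72b507a0cfafc (k8 c4477 c4379 c4306 c4046 c4419 c4361 c1904 c4338 (k8 c7787 c9548 c4424 c4467 c4489 c4375 c4282 c4371 (k4 c1523 c9557 c5230 c4297 (k2 c9457 c6996 (k1 c6667 k0))))) (by decide +kernel)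
def c9564 : PP 8 4 T 0x10000000000000000000000020000000000000010000000000000000000200000002 := rS 0x236991cfc0f3482c3a1b548c5a2332a8bcea3d82b254aa12489c4ab1378553f164aa5ce6120480cc266160ae222949acdca5f2d019225d (k8 c2821 c2892 c831 c830 c2443 c9380 c9211 c9560 (k8 c9410 c4338 c315 c4468 c910 c7376 c28 c230 (k8 c911 c1561 c2930 c2854 c4487 c9562 c2632 c9199 (k8 c624 c9561 c870 c368 c2900 c9559 c632 c4310 (k8 c329 c499 c9555 c246 c9263 c456 c2047 c9426 (k8 c2672 c85 c567 c2823 c4046 c9563 c1312 c9206 (k2 c915 c4467 k0))))))) (by decide +kernel)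
def c9565 : PP 8 4 T 0x40000000000000000000000001000000400000001500000000080000000001100000005605000180000 := rS 0x29b368a4e2692d9e23630308ed1 (k8 c456 c1312 c7517 c515 c915 c3493 c1454 c413 (k4 c2111 c4396 c1480 c421 (k1 c7284 k0))) (by decide +kernel)
def c9566 : PP 8 4 T 0x20000000000000000000000021000000000400000580100080000005000004080000 := rS 0x8a36a11e305 (k4 c4310 c4297 c8635 c5814 (k2 c9543 c720 k0)) (by decide +kernel)
def c9567 : PP 8 4 T 0x20000000001000000100000521100000000040154580100001400005405404080000 := rS 0x964d6334c9e837e50d6c7d8294596a7 (k8 c4330 c2026 c1864 c4310 c1562 c5124 c4424 c5279 (k4 c4306 c9566 c6996 c4473 (k2 c413 c1454 (k1 c2111 k0)))) (by decide +kernel)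
def c9568 : PP 8 4 T 0x20000000001000000100000521114055000040154580100001000105405404080000 := rS 0x454f88e5ba8c8cb95ac5a228d (k8 c4383 c4338 c4487 c4419 c4361 c9567 c1313 c1587 (k4 c2125 c2121 c4388 c8975 k0)) (by decide +kernel)
def c9569 : PP 8 4 T 0x20000000000000010000000000000000000200000002 := rS 0x1f01e223fb2d4f0c359a4161d1c86c66a9a58c4aa751eb24a22f5cad54aa12489c4ab1378553f164aa5ce6120480cc266160ae222949acdca5f2d019225d (k8 c2821 c2892 c831 c830 c2443 c9380 c9211 c9560 (k8 c9410 c4338 c315 c4468 c910 c7376 c28 c230 (k8 c911 c1561 c2930 c2854 c4487 c9562 c2632 c9199 (k8 c624 c9561 c870 c368 c2900 c9559 c4419 c4361 (k8 c9555 c1864 c632 c329 c499 c246 c2047 c4458 (k8 c9426 c9263 c2672 c8463 c85 c567 c2823 c5752 (k8 c9564 c4330 c2026 c9565 c9568 c1327 c9548 c1563 k0))))))) (by decide +kernel)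
def c9570 : PP 8 4 T 0x20000000000000000000000000000000000200000002 := rS 0x3c05d6e4c6392cf67f27aed970c5388da636418d41870129254a5113ac587163a9cc5e6150954cc951e848622c4c8ad26c143d2e2209019acba97489a4161d0a97c721b2d1bc66b3728a40ca9 (k8 c9426 c831 c9410 c9380 c9211 c9263 c9199 c830 (k8 c2672 c8463 c2443 c2632 c85 c567 c2823 c2892 (k8 c2930 c2821 c5752 c28 c230 c4338 c4458 c1904 (k8 c1987 c9560 c315 c2051 c4468 c2047 c911 c329 (k8 c2854 c910 c246 c2900 c7376 c9555 c1561 c499 (k8 c4487 c4958 c624 c870 c1864 c9559 c368 c9561 (k8 c9569 c496 c1304 c2448 c497 c4371 c833 c4558 (k8 c4467 c2026 c4847 c9566 c9565 c707 c1413 c1447 (k4 c2111 c9550 c1990 c9552 (k1 c500 k0)))))))))) (by decide +kernel)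
def c9571 : PP 8 4 T 0x40000000000000000000000000000000005004400000000004404140000000020000090000000080080 := rS 0xf017 (k2 c1990 c9552 (k1 c500 k0)) (by decide +kernel)
def c9572 : PP 8 4 T 0x40000000000000020000000001000010045004401000000000404140000000104000095405400080080 := rS 0x14de24e26a1d4ea5 (k8 c4385 c4330 c1564 c9571 c2111 c4297 c420 c4475 k0) (by decide +kernel)
def c9573 : PP 8 4 T 0x800000000000020000000000000000000000051010000000000000000000200400005400000000000 := rS 0x1551267bc54e9f52a8d9acb (k8 c4425 c4395 c4393 c4385 c4384 c4330 c4435 c1596 (k2 c4469 c2128 (k1 c4445 k0))) (by decide +kernel)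
def c9574 : PP 8 4 T 0x20000000001000050045451451010000040404140000000001000195405410080080 := rS 0xec413cc4d78aa44b3d8b4a4394596cd51d096ea74fa948e4b (k8 c1413 c1411 c4385 c4384 c4330 c9550 c4473 c4393 (k8 c4395 c4425 c9573 c1564 c9572 c4429 c4430 c4457 (k4 c4545 c2129 c4445 c2016 (k2 c8691 c2123 (k1 c1023 k0))))) (by decide +kernel)
def c9575 : PP 8 4 T 0x80000000000000020000000000000000085000401000000040404140500100004000005405404084080 := rS 0x439dcf219421389a5344b154ea5 (k8 c4385 c4330 c4429 c4457 c4456 c412 c2111 c8635 (k4 c258 c2453 c1024 c1565 (k1 c2123 k0))) (by decide +kernel)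
def c9576 : PP 8 4 T 0x22000000000000000000000001000000000500000501500000000000000000000000 := rS 0x429b54ea5 (k4 c4385 c4330 c4318 c4321 (k1 c2119 k0)) (by decide +kernel)
def c9577 : PP 8 4 T 0x20000000000000004000000041000000020410000501500000000000000000000000 := rS 0x1b54ea5 (k4 c4385 c4330 c681 c8425 k0) (by decide +kernel)
def c9578 : PP 8 4 T 0x20100000001000010000050451010000040000120501501001000105405414180580 := rS 0x279342e5343226134b67b1896bf69a04f67d1b20c6a0c07b0d6ac18b1cd4ea5 (k8 c4385 c4330 c1561 c4481 c4420 c4419 c4362 c1416 (k8 c496 c1304 c2448 c497 c1420 c707 c1421 c4371 (k8 c3485 c1413 c9574 c3493 c9575 c9576 c9577 c4485 (k4 c1903 c1837 c412 c1488 (k1 c2111 k0))))) (by decide +kernel)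
def c9579 : PP 8 4 T 0x20000000000000000000000000000000008400000000000000000001200600000002 := rS 0x1143b8dc824c2792da68407a05f899890d57e43789b430793d85ca1090fa748ac153a94e2bb24895631639a45726f13a2e0a751ea5c5e6133284aad1578495aa959b94661b1c97c2a5a059a4ba0635824061d (k8 c85 c28 c230 c5752 c831 c2821 c2823 c567 (k8 c830 c2632 c2443 c8463 c2672 c9263 c9380 c9211 (k8 c9426 c9570 c911 c982 c456 c246 c2900 c910 (k8 c7376 c916 c2930 c329 c499 c4310 c721 c870 (k8 c9199 c4548 c2892 c1561 c4481 c624 c9561 c368 (k8 c4847 c9578 c4385 c4330 c4420 c440 c2968 c86 (k8 c4440 c1564 c1837 c8450 c1965 c7313 c7372 c4435 (k8 c1956 c7782 c8774 c8695 c6171 c8720 c4380 c4376 (k8 c4130 c8052 c1874 c4501 c2111 c1995 c324 c1023 (k2 c4470 c9323 k0)))))))))) (by decide +kernel)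
def c9580 : PP 8 4 T 0x20000000001000000000000041000000020400000501501000000000000000180000 := rS 0x200a416429b54ea5 (k8 c4385 c4330 c681 c2472 c516 c7314 c2119 c3936 k0) (by decide +kernel)
def c9581 : PP 8 4 T 0x40000000000000020000000000000000000000000000000000400000000000000000001200600000002 := rS 0x2061089439acba690a97cb40672aa424af19954066182a2cccad (k8 c9570 c910 c721 c4310 c7376 c28 c246 c9263 (k8 c982 c911 c9426 c9380 c831 c830 c2443 c2632 (k8 c2823 c2821 c5752 c9579 c9580 c4485 c4439 c9576 k0))) (by decide +kernel)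
def c9582 : PP 8 4 T 0x20000000000000000000000000000000000800000000000000000001200600000002 := rS 0x3c10d12c5439416ecb3f9dcda7b7e91466a917a2d5a2764ae44ab1309bcbe152d24586b560c5a0a6639848120359b94ea3d4b8194ea5 (k8 c4385 c4330 c831 c2930 c329 c499 c9380 c9211 (k8 c28 c230 c911 c1561 c910 c4310 c4481 c4420 (k8 c4419 c4362 c2892 c830 c2632 c2443 c9199 c7376 (k8 c624 c9561 c4548 c632 c870 c9570 c721 c916 (k8 c9426 c9263 c440 c4306 c2626 c641 c2003 c2469 (k8 c7351 c5279 c9541 c2004 c1595 c1863 c1956 c2123 (k1 c501 k0))))))) (by decide +kernel)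
def c9583 : PP 8 4 T 0x20000000000000000000000001000000000402005501500000000000000000000080 := rS 0x42a054ea5 (k4 c4385 c4330 c1963 c2453 (k1 c2119 k0)) (by decide +kernel)
def c9584 : PP 8 4 T 0x20000000000000000000000000000000000000001000000000000001200600000002 := rS 0x31896366983d03157e26c30bf3b1e533121a9ed3ac35ab054e8d529c5764912ac62c7348ae4de2745c14ea3d4b8bd42d156acc3639058243a8744984cc5501abc661254b94be152d018d25d35b169483 (k8 c9582 c9581 c4429 c5752 c2821 c2823 c831 c830 (k8 c2632 c2443 c9380 c9426 c911 c9263 c982 c28 (k8 c246 c910 c7376 c9580 c9579 c85 c230 c567 (k8 c8463 c2672 c9211 c9570 c456 c2900 c916 c2930 (k8 c329 c499 c4310 c721 c870 c9199 c4548 c2892 (k8 c1561 c4481 c624 c9561 c368 c4847 c9578 c4385 (k8 c4383 c4330 c4420 c4419 c4362 c2968 c704 c8774 (k8 c8695 c4443 c9583 c2123 c3005 c1024 c1888 c8720 (k8 c7247 c4380 c4376 c8052 c4470 c1874 c9574 c9575 k0))))))))) (by decide +kernel)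
def c9585 : PP 8 4 T 0x20000000000000000000000000000000000000000000000000000001200600000002 := rS 0x5b9fcfac707931a64f25bc2266c29d29067135974d20b0e8e436a957b446655508bd16ad64ae44ab18b41566e53a8f52e7309024066f2f854b406489244e613329d4abb (k8 c4847 c4385 c4330 c910 c7376 c870 c368 c2892 (k8 c831 c830 c2632 c2443 c9199 c28 c230 c911 (k8 c1561 c2930 c329 c499 c9380 c9211 c4310 c4481 (k8 c624 c9561 c4548 c632 c9570 c721 c916 c2900 (k8 c246 c9263 c456 c982 c9426 c2672 c8463 c85 (k8 c567 c2823 c2821 c5752 c9578 c9582 c9581 c4456 (k8 c9584 c4342 c5814 c4799 c4297 c5264 c2111 c245 (k4 c412 c1563 c515 c9550 (k1 c5124 k0))))))))) (by decide +kernel)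
def c9586 : PP 8 4 T 0x8000000000000000000000000500000000000000044000000001000000200a00100400 := rS 0x1fd6e717e11868b5 (k8 c4419 c833 c915 c9427 c1304 c1038 c1312 c7787 k0) (by decide +kernel)
def c9587 : PP 8 4 T 0x2200200000002 := rS 0x2968762c64f6773ca24a25284260849b2085e261f35968161d14abc668b56b0d831682998e6120480d66e53a8f52e06 (k8 c831 c2930 c329 c499 c9380 c9211 c28 c230 (k8 c911 c1561 c910 c4310 c4481 c4420 c4362 c9570 (k8 c721 c9263 c982 c9410 c85 c567 c830 c5752 (k8 c86 c4441 c1910 c1913 c1967 c316 c317 c8071 (k8 c396 c1917 c9170 c500 c1023 c705 c4446 c1136 (k2 c4440 c4456 (k1 c9443 k0))))))) (by decide +kernel)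
def c9588 : PP 8 4 T 0x200200000002 := rS 0x665290ea4849b1124f7844d4ea24fd0d6c713f834fad207bf21a31119244b166489d628b829d4e62f30a84aaaf330f425110480cd65d4ba44d20b0e854be1b2d1bc0c3359b9552ad (k8 c9570 c9426 c9380 c9211 c9263 c831 c9199 c830 (k8 c2672 c2443 c2632 c85 c567 c2823 c2892 c2930 (k8 c2821 c5752 c28 c230 c4332 c911 c329 c910 (k8 c982 c246 c2900 c7376 c916 c1561 c499 c4310 (k8 c721 c624 c870 c632 c4481 c9561 c368 c9586 (k8 c9587 c9585 c4477 c4046 c4467 c7356 c4371 c9206 (k8 c496 c5124 c4424 c1667 c4489 c940 c8052 c4469 (k8 c4646 c5289 c8051 c9457 c6996 c7372 c4485 c1469 (k1 c4460 k0))))))))) (by decide +kernel)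
def c9589 : PP 8 4 T 0x80000000000000000100000000000000000000000000800000001000000000100000001400200000002 := rS 0x1562b2c87cca5a198a40cad16abca6d1 (k8 c4426 c4456 c4428 c9588 c9570 c831 c9410 c9263 (k4 c830 c2444 c86 c487 (k2 c8717 c8583 (k1 c2112 k0)))) (by decide +kernel)
def c9590 : PP 8 4 T 0x80000000000000011000000001000000000000400000000004450140010411144000000084600110400 := rS 0x1a62523b1c26cd67a2ca6d1 (k8 c4426 c4456 c4427 c4430 c4460 c1638 c2262 c1643 (k2 c9502 c8455 (k1 c4467 k0))) (by decide +kernel)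
def c9591 : PP 8 4 T 0x80000000000000000000002001000000000000010000000000000000000000000000001550000000000 := rS 0x882bca651 (k4 c4435 c4456 c4428 c4468 (k1 c7769 k0)) (by decide +kernel)
def c9592 : PP 8 4 T 0x80000000000000411000000000000000000000000000000004000040000000000000001000600000002 := rS 0x61698988ec7099f454553fc10ea9a2893c967a7820c5e79361acd20b0e9643e150897cca1b2d1bc66b3728a40ca9568b59acf61a2ca6d1 (k8 c4426 c4456 c4427 c4459 c4430 c4460 c9588 c9570 (k8 c9426 c831 c9410 c9380 c9211 c9263 c9199 c830 (k8 c2672 c2444 c2443 c2594 c2632 c86 c487 c85 (k8 c567 c2823 c5752 c4479 c2452 c2830 c641 c5814 (k8 c9525 c4434 c4297 c4435 c705 c708 c9589 c4313 (k8 c4406 c9591 c4409 c1638 c2262 c1643 c9590 c8455 (k2 c9195 c870 k0))))))) (by decide +kernel)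
def c9593 : PP 8 4 T 0x80000000000000410000000000000000000000000000000004000040000000000000001000600000002 := rS 0x1e016289547892820aa22aa09864da7b8418cd6690a994365a19b9452065699c5a8b57a24a6d1 (k8 c4426 c4456 c4457 c4428 c4427 c9588 c9512 c9570 (k8 c831 c9410 c9380 c9263 c830 c2672 c2444 c2632 (k8 c2823 c5752 c2822 c9592 c4320 c4318 c4436 c9489 (k8 c2120 c4415 c4468 c4478 c315 c314 c4406 c3594 (k2 c2109 c5962 (k1 c4431 k0)))))) (by decide +kernel)
def c9594 : PP 8 4 T 0x4000000000000008000040000000000000001000200000002 := rS 0x793dc24d60634914662d (k8 c9588 c9263 c440 c2823 c831 c5752 c4440 c8450 (k2 c1965 c9525 k0)) (by decide +kernel)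
def c9595 : PP 8 4 T 0x80000000000000010000000000000000000000000000000000000040000000000000001000600000002 := rS 0xab36c490e8957a2d8663359a4ca5a032b4ce2d (k8 c9588 c9512 c9570 c831 c830 c2444 c2823 c5752 (k8 c2822 c4459 c4427 c4428 c4457 c9594 c9593 c4342 (k2 c4445 c2120 k0))) (by decide +kernel)
def c9596 : PP 8 4 T 0x10000000000000000000000000000000001104000000000000000010808200000002 := rS 0x71254511e910897c725a378188a33 (k8 c9263 c440 c831 c9199 c830 c8463 c2443 c2594 (k4 c2892 c2845 c4538 c877 (k2 c4135 c9350 k0))) (by decide +kernel)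
def c9597 : PP 8 4 T 0x10000000000000000000000000100000000000000000000008000000004400000000 := rS 0x4ad3 (k2 c4375 c1373 (k1 c4467 k0)) (by decide +kernel)
def c9598 : PP 8 4 T 0x10800000000000000000000400001000000001100000500490000000000002200000400 := rS 0xfc5e9c62a8c1b1b532a5 (k8 c4444 c4443 c4342 c312 c313 c4386 c1385 c1119 (k2 c8629 c7107 k0)) (by decide +kernel)
def c9599 : PP 8 4 T 0x40000000000000800002000000000080000000011044000020100000500502001000000151000000000 := rS 0x50b1cc20f419b55ea5 (k8 c4444 c4346 c4342 c4306 c4376 c4302 c250 c7527 (k1 c8916 k0)) (by decide +kernel)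
def c9600 : PP 8 4 T 0x810000000000000000004000000000000020000040000000000000001000600000002 := rS 0xa1639fcc0fd690959249138b90a9a202fcf24368205e3191e94d26a34ac5876541aa7c5710609460a63359752e6905874b21f0a97cca6f228cd66e514aa55a67a5abd32ab3a818ee133d9b4b42d (k8 c9588 c830 c4342 c704 c9489 c9494 c831 c498 (k8 c4445 c4443 c4346 c9595 c9512 c9570 c9426 c9410 (k8 c9380 c9211 c9263 c440 c9199 c2444 c2443 c2632 (k8 c86 c487 c85 c567 c2823 c2930 c2821 c5752 (k8 c2822 c4314 c1863 c1985 c4794 c8717 c6233 c8774 (k8 c4464 c4158 c4481 c5073 c4337 c4413 c9029 c4416 (k8 c7972 c4542 c7000 c4475 c340 c501 c6330 c4472 (k8 c7464 c9158 c1848 c9596 c7307 c1726 c9598 c4467 (k4 c9599 c4477 c672 c7228 (k2 c5930 c8916 k0)))))))))) (by decide +kernel)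
def c9601 : PP 8 4 T 0x810000000000000000004000000000000004000040000000000000001000600000002 := rS 0x7984a291263359a4ca065699c5aaf559ecda5a (k8 c830 c4342 c704 c4445 c4346 c9588 c9512 c9570 (k8 c831 c2444 c2823 c5752 c2822 c9600 c2120 c4322 (k2 c2454 c9525 k0))) (by decide +kernel)
def c9602 : PP 8 4 T 0x810000000000000000000000000000000004000040000000000000001000600000002 := rS 0xf00c94c2f0988228568917a4cf29b28c5d8475099ed5699579b4c66b348fcca1b2d2cdca29032b4ce2d (k8 c9588 c9512 c9570 c831 c9410 c9380 c9211 c830 (k8 c2672 c2444 c8194 c2823 c5752 c2822 c4342 c4346 (k8 c4443 c4445 c704 c9489 c498 c9601 c4362 c1867 (k8 c2058 c2057 c1127 c836 c7172 c315 c2120 c4468 (k4 c4322 c524 c9521 c9519 (k2 c4465 c7769 k0)))))) (by decide +kernel)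
def c9603 : PP 8 4 T 0x10101000000000080100000000044000000000000044500001000000151000140000 := rS 0x50b1cfe60 (k4 c4477 c672 c7228 c5930 (k1 c8916 k0)) (by decide +kernel)
def c9604 : PP 8 4 T 0x400002000000000000000000000000000020000001000002001000000000200000002 := rS 0x6303cd6e5 (k4 c9380 c5752 c4376 c9174 (k1 c250 k0)) (by decide +kernel)
def c9605 : PP 8 4 T 0x10101000000000080000000000044000000000000000000001000000040200040002 := rS 0x2531974be29338b592540a9680ce5 (k8 c9380 c831 c830 c2632 c4464 c1726 c9588 c9512 (k4 c9410 c2443 c2821 c2822 (k2 c5708 c9603 k0))) (by decide +kernel)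
def c9606 : PP 8 4 T 0x10000000000000000000000044000000004004041000000000000001000600000002 := rS 0x90e2d3303f49227173c4a63b2a0d60a9315a7d111031975220b0e9643e152f994b40619b94ce1316a15028b841acd2a354c4e96ad (k8 c9570 c9595 c9602 c9426 c4526 c2823 c5752 c4479 (k8 c4322 c4439 c5976 c9588 c9489 c9512 c9380 c9263 (k8 c831 c830 c2444 c2443 c2632 c86 c487 c85 (k8 c567 c2892 c2821 c2822 c4491 c2120 c4414 c4411 (k8 c4413 c4314 c8774 c4464 c4158 c9029 c4542 c4469 (k8 c9596 c7307 c9604 c4477 c9605 c585 c4467 c9265 k0)))))) (by decide +kernel)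
def c9607 : PP 8 4 T 0x400000000001000010000000480001004064005540004000100114001000000500000 := rS 0x314869b618f4a6958b1520ac1 (k8 c1715 c4314 c7030 c7172 c5073 c9029 c4416 c4362 (k4 c868 c4567 c7718 c8362 k0)) (by decide +kernel)
def c9608 : PP 8 4 T 0x200100002000000000001000000000000054001041000000000000000000200040002 := rS 0x186958b18d3a652d2cdca673a818ee2d (k8 c9588 c9494 c831 c498 c9512 c9380 c9211 c830 (k4 c2444 c2968 c2822 c4481 (k2 c5073 c4362 (k1 c9153 k0)))) (by decide +kernel)
def c9609 : PP 8 4 T 0x200000002000000000005000000000000054001041000000800000000000200040002 := rS 0x7a9431a747e652d2cdca673a818ee2d (k8 c9588 c9494 c831 c498 c9512 c9380 c9211 c830 (k4 c2444 c8194 c2968 c2822 (k2 c9153 c333 (k1 c9517 k0)))) (by decide +kernel)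
def c9610 : PP 8 4 T 0x400000000000000000000000080000000004004041000000000000001000200000002 := rS 0x863c4db08a45582225267968c402e41780aca2c117874c69d1f854365a228cd66e514ab4ea063b84c5a8b0cc20d669 (k8 c2823 c5752 c4479 c4436 c4322 c9588 c9489 c9494 (k8 c831 c498 c9570 c9410 c9380 c9211 c9263 c440 (k8 c830 c2672 c2632 c8194 c2968 c2822 c85 c2832 (k8 c1715 c1593 c1775 c5815 c8691 c8580 c4468 c4298 (k8 c500 c4413 c9607 c9608 c4406 c2109 c9609 c2058 (k2 c9009 c4567 (k1 c332 k0))))))) (by decide +kernel)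
def c9611 : PP 8 4 T 0x10000000000000000000000000000000004004041000000000000001000600000002 := rS 0x78058a2551e24a082a6894d1311552bc328b8418cd6690a994365a19b94520633c4c262d (k8 c9588 c9489 c9602 c9512 c831 c9410 c9380 c9263 (k8 c830 c2672 c2444 c2632 c2823 c5752 c2822 c4479 (k8 c4322 c4436 c9610 c9606 c4415 c1944 c1943 c1671 (k8 c4468 c4478 c315 c314 c4406 c3594 c2109 c5962 (k1 c4431 k0))))) (by decide +kernel)
def c9612 : PP 8 4 T 0x10000000000000000000000000000000004004040000000000000001000600000002 := rS 0x92611e6126c032b45b13 (k8 c9602 c9588 c9570 c831 c9611 c4318 c2452 c9525 (k2 c9522 c1128 k0)) (by decide +kernel)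
def c9613 : PP 8 4 T 0x10000000000000000000000000000008004000040000000000000001000600000002 := rS 0x265bac4e2b569b34687d1291c76c709a2d9eaa299fe082a579d6226335a5cd20b0e854225f329bd66e514aa55a6716a64b21f4192d3513179049e512ab45e06c0d8186709a5a24f45a (k8 c830 c9612 c2665 c9595 c4320 c9263 c831 c2672 (k8 c704 c5814 c4298 c4151 c4435 c4297 c1050 c837 (k8 c9602 c705 c6906 c2626 c86 c487 c1131 c9588 (k8 c9512 c9570 c9426 c9410 c9380 c9211 c9199 c2444 (k8 c2443 c2594 c2632 c85 c567 c2823 c2930 c5752 (k8 c2822 c4413 c1656 c1779 c4468 c4478 c6629 c4712 (k8 c4491 c5286 c5443 c1638 c2262 c1641 c1643 c9502 (k8 c4409 c8467 c3882 c8455 c7883 c1304 c1034 c1037 (k2 c4467 c8452 k0))))))))) (by decide +kernel)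
def c9614 : PP 8 4 T 0x10200000000000000000000000000000000000040000000000001000008200040002 := rS 0x1dc5d711438b2562c73023c18d3488fc161d2c87c225f1c968deb3728b4ea06 (k8 c831 c498 c9588 c9380 c9211 c9199 c830 c8463 (k8 c2443 c2594 c86 c487 c85 c567 c8194 c2892 (k8 c4278 c871 c2845 c870 c408 c9348 c506 c4135 (k4 c9302 c8522 c4361 c1046 (k1 c4471 k0))))) (by decide +kernel)
def c9615 : PP 8 4 T 0x10000000000000040000001400000005000050144000490000001100004600010400 := rS 0x5b9c57315460d848b1 (k8 c9348 c4467 c312 c313 c4386 c1472 c1385 c1117 (k1 c4088 k0)) (by decide +kernel)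
def c9616 : PP 8 4 T 0x1000000000000000000000011500044015000050154054500000000000000000000000 := rS 0x11aa064ad8c2fc (k4 c4480 c9302 c4088 c4305 (k2 c2118 c1117 (k1 c4551 k0))) (by decide +kernel)
def c9617 : PP 8 4 T 0x200000000000008000000000000000001000200000002 := rS 0xc01d5490532590f93de06c0d9680c33 (k8 c9263 c831 c830 c2672 c704 c5814 c4297 c86 (k4 c487 c1131 c1050 c9426 (k2 c85 c624 (k1 c7375 k0)))) (by decide +kernel)
def c9618 : PP 8 4 T 0x10000000000000000000011000000010004000040000000000000001000600040002 := rS 0xa642bf54ac85dc50e2cb06935a4271e9495e632ea44161d2c87c225f1c994dea95699d86b3179049e5155a69469f880ad262d14ac4ea7f3ec10aad1781b0363384d2d127a0a9680ce5 (k8 c9380 c831 c830 c2632 c9612 c2665 c9595 c4320 (k8 c9263 c2672 c704 c5814 c4298 c4151 c4464 c4409 (k8 c4313 c498 c9617 c9410 c9588 c9613 c315 c4468 (k8 c4414 c9384 c705 c1973 c4435 c4297 c1050 c837 (k8 c9211 c1211 c9512 c9570 c9426 c9199 c2444 c8463 (k8 c2443 c2594 c86 c487 c85 c567 c2892 c2821 (k8 c2822 c868 c2112 c333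 c9614 c9615 c4282 c4371 (k8 c2022 c496 c9616 c4390 c8522 c1970 c4305 c717 (k2 c5804 c905 k0))))))))) (by decide +kernel)
def c9619 : PP 8 4 T 0x40000000000010001000000000000010004000004000020000001400000000000000000000200000002 := rS 0x620f18317318fc0ce5 (k8 c9380 c831 c8194 c2822 c4418 c8596 c9517 c4494 (k1 c1782 k0)) (by decide +kernel)
def c9620 : PP 8 4 T 0x2100044001000050104054500000000000000000000000 := rS 0xc115 (k2 c4389 c4254 (k1 c9302 k0)) (by decide +kernel)
def c9621 : PP 8 4 T 0x10000000000000000000000000000000004000040000000000000001000600040002 := rS 0x1a34970275a9f4ff043a98cba911f82c3a590f854225f1c994de672aa25469f882c47a5257a5633093c9de962f20aad342d56944522b49b45e06c0d9680c33619e966e5 (k8 c9380 c9211 c9612 c1211 c9263 c831 c830 c2672 (k8 c704 c5814 c4298 c9613 c315 c9410 c4435 c9570 (k8 c9588 c705 c1973 c1050 c837 c9595 c182 c183 (k8 c4320 c4366 c9619 c868 c2112 c333 c9617 c4468 (k8 c4414 c9384 c2665 c4151 c9512 c9199 c2444 c8463 (k8 c2443 c2594 c2632 c86 c487 c85 c567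 c8194 (k8 c2892 c2821 c2822 c498 c4464 c4313 c4409 c9620 (k4 c9614 c9618 c9615 c7514 (k1 c4373 k0))))))))) (by decide +kernel)
def c9622 : PP 8 4 T 0x10000000001000000000020000000000000000100000000000005000100600080000 := rS 0x13319a6251d0d06f17 (k8 c4361 c1472 c7514 c8248 c312 c4373 c1046 c4467 (k1 c408 k0)) (by decide +kernel)
def c9623 : PP 8 4 T 0x10000000000000000000000100044000004008000000000804000000008600080002 := rS 0x269210ac85bad597143fbf4e2813eb1cc08f0609406632ea44225f329bccf09419697275608f586b316b947e06 (k8 c831 c8194 c9380 c9588 c9211 c1211 c333 c1983 (k8 c709 c9622 c830 c2626 c4320 c9512 c9199 c2444 (k8 c2443 c2594 c2892 c2821 c2822 c28 c115 c871 (k8 c2845 c870 c408 c7356 c1293 c4135 c4302 c2467 (k8 c9302 c2023 c9620 c4353 c4032 c717 c507 c4248 (k1 c372 k0)))))) (by decide +kernel)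
def c9624 : PP 8 4 T 0x10000000000000040000001400000005000010144000490000001100004600090400 := rS 0x1f81a24 (k4 c4467 c1367 c9615 c514 k0) (by decide +kernel)
def c9625 : PP 8 4 T 0x10000000000000000000000000000000004000040000000000000001000600000002 := rS 0x2154cc812a956e375dc50fe71658349ad25a9f48e275c9d4243d609495e9558a7d4710558ad26516893c96f017b0d346c20c6612793b9ea26632ea447e0b0e9643e112f8e4ca1b2d1bc66b3728a40ca95699c5b4b (k8 c9595 c9588 c9512 c9570 c9426 c831 c9410 c9380 (k8 c9211 c9263 c9199 c830 c2672 c2444 c8463 c2443 (k8 c2594 c86 c487 c85 c567 c8194 c2892 c2821 (k8 c2822 c9602 c9612 c182 c183 c4320 c4366 c1050 (k8 c704 c705 c1211 c837 c5814 c6906 c4297 c4298 (k8 c4435 c9613 c315 c1973 c4468 c9384 c4414 c9617 (k8 c9619 c868 c2112 c1983 c333 c9621 c709 c9622 (k8 c9623 c6900 c1562 c7513 c9624 c4282 c4371 c2022 (k8 c496 c514 c9616 c4390 c4386 c4353 c1970 c312 (k4 c2121 c2111 c717 c905 k0)))))))))) (by decide +kernel)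
def c9626 : PP 8 4 T 0x10000000000000000000000000000000000000040000000000000001000600000002 := rS 0x61a1966e5 (k4 c9380 c9211 c9625 c1907 (k1 c9594 k0)) (by decide +kernel)
def c9627 : PP 8 4 T 0x801000000000000000015000014001054000005000100000000000000000000000000 := rS 0x3b26a3299 (k4 c4443 c7972 c4553 c4482 (k1 c1888 k0)) (by decide +kernel)
def c9628 : PP 8 4 T 0x8000080000000000000001000200000002 := rS 0x1402e2f3644cf2c53dc24d6974e9a43645198a55ac34a8ad823a29951569388414ca5a0319c5a63 (k8 c2822 c9588 c9512 c831 c830 c2444 c4408 c4478 (k8 c4413 c4415 c1022 c9029 c1021 c3541 c8717 c1616 (k8 c3003 c9570 c9410 c9263 c440 c2672 c2823 c2968 (k8 c2930 c5752 c4440 c8450 c1635 c1964 c9627 c4479 (k4 c2830 c519 c7441 c1605 k0))))) (by decide +kernel)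
def c9629 : PP 8 4 T 0x1100000001000000000000010000000044000002040000000000005150204000000 := rS 0xa53c1122f (k4 c2830 c680 c5814 c4485 (k1 c9591 k0)) (by decide +kernel)
def c9630 : PP 8 4 T 0x1100000001000000005000010000050044004000554000500000805150204000400 := rS 0x1a22f209e0ee888ca655f1236aad2710 (k8 c4478 c4413 c4415 c9629 c4479 c4346 c4443 c7972 (k4 c2120 c2042 c4482 c1847 (k2 c837 c1763 (k1 c2112 k0)))) (by decide +kernel)
def c9631 : PP 8 4 T 0x810100000000000080000000000000000020100000000002001000000001200040002 := rS 0x1f86b2e9a452a956a7cbe67329680ca3158b5cb4b (k8 c4457 c9380 c9588 c8717 c9384 c831 c830 c2444 (k8 c9512 c2443 c6233 c9570 c9426 c9410 c2823 c2821 (k2 c5752 c9605 (k1 c9599 k0)))) (by decide +kernel)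
def c9632 : PP 8 4 T 0x810000000000000000000000000000000000000000000000000000001400600000002 := rS 0x2ed06718a0dc1860133f5a6255f9e49a4021bc5a05d489643e5f1c9bc8aa909824063d40a14ee491aa96329949a215eab881b610513da1d1653609505695618ea0a72338b55a29728cc36652d018161d34a5cd663 (k8 c2822 c5752 c2930 c2823 c85 c567 c831 c830 (k8 c2444 c2672 c9263 c9380 c9410 c9570 c9588 c9512 (k8 c9626 c4408 c1021 c3003 c1616 c8717 c1022 c3541 (k8 c9029 c3702 c9628 c1231 c1604 c9630 c4318 c4478 (k8 c4415 c4346 c2120 c4413 c4443 c7972 c4444 c8774 (k8 c1723 c4438 c4321 c4439 c1615 c28 c230 c1561 (k8 c9426 c440 c9199 c8463 c2443 c86 c487 c2892 (k8 c2821 c2112 c7769 c340 c1763 c380 c501 c6330 (k8 c9598 c9631 c8613 c4467 c4477 c871 c321 c4538 (k4 c585 c509 c1851 c7040 k0)))))))))) (by decide +kernel)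
def c9633 : PP 8 4 T 0x810000000000000000000000000000000000000000000000000000001000600000002 := rS 0x34c4abf139005c888ca655e590f97d52130480d5693882050a491a9b610513da1d16536095056956199c5aad14b94661b32968161d34a5cd663828e8e406 (k8 c831 c9626 c1021 c4408 c2822 c5752 c2930 c2823 (k8 c85 c567 c830 c2444 c2672 c9263 c9380 c9410 (k8 c9570 c9588 c9512 c3003 c1616 c8717 c1022 c3541 (k8 c9029 c3702 c9628 c1231 c1604 c9630 c4318 c8774 (k8 c1723 c4321 c4439 c4478 c4413 c4415 c28 c230 (k8 c1561 c9426 c2443 c86 c487 c4346 c4443 c7972 (k8 c2120 c9632 c837 c9596 c1053 c9598 c9631 c4467 k0))))))) (by decide +kernel)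
def c9634 : PP 8 4 T 0x10000000000000000000000000000000020000000000000000000001000600000002 := rS 0x17cae3cbc02e831783c9e2625aec4b14589c5a6607ed2cba9d489643e111c9bc8aa909824069f2fc414681429dc923536c20a27b43a2ca6c12a0ad2ac3338b55a29728cc36652d02c3a694b9acc7051d1c80d13 (k8 c9633 c831 c9626 c1021 c4408 c2822 c5752 c2930 (k8 c2823 c85 c567 c830 c2444 c2672 c9263 c9380 (k8 c9410 c9570 c9588 c9512 c3003 c1616 c8717 c1022 (k8 c3541 c9029 c3702 c9628 c1231 c1604 c9630 c4318 (k8 c8774 c1723 c4438 c4321 c4439 c9384 c4478 c2443 (k8 c6233 c28 c230 c1561 c9426 c440 c9199 c8463 (k8 c2594 c86 c487 c2892 c2968 c2821 c4457 c9604 (k8 c4477 c9605 c585 c9348 c4480 c9265 c4390 c9350 (k8 c4467 c448 c238 c877 c8330 c8580 c4469 c500 (k2 c7769 c7040 (k1 c9441 k0))))))))))) (by decide +kernel)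
def c9635 : PP 8 4 T 0x10000000000000000000400000000000001104400000000004000010008200400002 := rS 0x2ece2838a0dd1e0c69a44be392d1bcf206 (k8 c831 c500 c9199 c830 c8463 c2443 c2892 c4278 (k8 c871 c2845 c321 c4538 c508 c4135 c9034 c7040 k0)) (by decide +kernel)
def c9636 : PP 8 4 T 0x10000000000000040000000000000001001100004000090044000010004601400480 := rS 0x827e1c62a4d460d848b10897c721b (k8 c2672 c8463 c2443 c2594 c9348 c4467 c312 c313 (k4 c2260 c4386 c1385 c8629 (k2 c6976 c4306 k0))) (by decide +kernel)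
def c9637 : PP 8 4 T 0x10000000000000000000000000000000000000000000000000000001000600000002 := rS 0x3f5a4272792c2ebf780bd5c89899246a770ca14da8184144f68755a8d165360c413e2b2a255863a09c14e4630480cd6974ea44d20b0e9643e5f3286cb46f19b94520654ab4ce2d (k8 c9588 c9512 c9570 c9426 c831 c9410 c9380 c9263 (k8 c9199 c830 c2672 c2444 c2443 c86 c487 c85 (k8 c567 c2823 c2892 c2968 c2930 c5752 c28 c230 (k8 c2822 c9626 c4408 c1561 c1021 c3003 c1616 c1022 (k8 c8717 c6233 c4478 c3541 c9029 c3702 c9384 c4415 (k8 c9628 c1231 c1604 c9630 c4439 c4318 c4321 c4436 (k8 c4438 c8774 c1723 c9633 c9634 c2120 c2832 c5815 (k8 c9441 c8580 c4434 c4297 c9635 c9636 c5101 c9605 k0)))))))) (by decide +kernel)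
def c9638 : PP 8 4 T 0x1100000000000000100000000010800015011000001000100000001400200000002 := rS 0x2967e31974be652d018ce2d (k8 c9588 c9512 c831 c830 c2444 c2443 c2821 c2822 (k2 c8784 c9589 (k1 c4235 k0))) (by decide +kernel)
def c9639 : PP 8 4 T 0x410000000000000000000000000000000000000000000000000000001000200000002 := rS 0x5ca5477113a8a9447f821cd0e9a3d1457685782245e7984d10d86335a5d3a690a86c8a3359b95526716a854e8d07a058e29529c53ec9329f62a8e37ac5a639089643e0b0ea456a3441bf0c2222f9680c5d (k8 c2821 c831 c830 c2443 c9637 c2824 c4477 c4306 (k8 c833 c7883 c2892 c85 c567 c86 c487 c2594 (k8 c8463 c4372 c9348 c9199 c832 c4388 c8975 c2444 (k8 c7308 c1427 c1304 c1302 c9410 c1450 c8086 c1327 (k8 c1298 c2826 c2825 c9588 c9512 c9426 c9380 c9211 (k8 c9263 c440 c2672 c2632 c2823 c2968 c2930 c5752 (k8 c2822 c8695 c4490 c4318 c2452 c2830 c680 c5814 (k8 c4397 c6874 c4435 c8768 c705 c8450 c1231 c9638 (k8 c4313 c2118 c8715 c9210 c4337 c1641 c1695 c6781 (k1 c9361 k0)))))))))) (by decide +kernel)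
def c9640 : PP 8 4 T 0x10000000000000000000000000000000000000000000000000000001000200000002 := rS 0x93151dce67f099e613043da10db127e27d6aa563a04c2a750a386822319acba690a97cca5a728a40c2d (k8 c9588 c831 c9410 c9380 c830 c2444 c2443 c2632 (k8 c2823 c2821 c5752 c2822 c9637 c833 c832 c2825 (k8 c2826 c2824 c8086 c1450 c1302 c7883 c1427 c4477 (k8 c9639 c4342 c4130 c704 c8774 c4321 c2453 c9489 (k4 c4313 c4408 c9494 c8715 (k2 c9526 c315 k0)))))) (by decide +kernel)
def c9641 : PP 8 4 T 0x10200000000000000000000000000000000000000001000000000000000200000002 := rS 0x6a235da81a60f5ab25f8273197522692c844be65378ccce2f2792d4e9821204da853f9f5474b54aad5a9f61315271015a76267720acdca75399e582522a84c5a5114a2c2ed10da1c2a19841ac161d1f819127b4d8c03e5a (k8 c830 c86 c9640 c1967 c705 c4314 c831 c8194 (k8 c85 c567 c5752 c8071 c4436 c2632 c4440 c2672 (k8 c2266 c1910 c4322 c9410 c1917 c9588 c9489 c4406 (k8 c2109 c1983 c500 c4408 c498 c9380 c9211 c1913 (k8 c1023 c4441 c2968 c2263 c4468 c4413 c7718 c2123 (k8 c4414 c9570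 c1943 c9426 c4456 c4526 c4409 c4313 (k8 c4321 c4318 c4439 c316 c317 c3913 c3839 c299 (k8 c61 c9512 c9263 c9199 c2444 c2443 c2594 c487 (k8 c2823 c2892 c2821 c2822 c870 c4477 c7308 c4254 (k4 c4376 c8510 c2118 c2061 (k2 c2825 c8768 (k1 c9636 k0)))))))))))) (by decide +kernel)
def c9642 : PP 8 4 T 0x10010000000000000000000400491045001055115444402080000002000155400000080 := rS 0x16c49 (k2 c7307 c9469 (k1 c1742 k0)) (by decide +kernel)
def c9643 : PP 8 4 T 0x10000000000000000000000000000000000000000000000000000000008200000002 := rS 0x5ea0d623747831a6912c844726f3c85cee41031ecb4bf4d87d53134e92d4e98212050b08181ac161d (k8 c85 c567 c5752 c9640 c8071 c4321 c4439 c316 (k8 c317 c3913 c3839 c2968 c4441 c9426 c86 c1967 (k8 c4566 c830 c705 c831 c1913 c1023 c1910 c500 (k8 c9199 c8463 c2594 c487 c2892 c4278 c871 c2845 (k4 c321 c9348 c508 c6223 (k1 c9035 k0)))))) (by decide +kernel)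
def c9644 : PP 8 4 T 0x10000000000000000000000000004000000010040002000000000000040200000002 := rS 0x1843d62ab9828949aae0910319a4ca6f59b9452ad4c1e42e7720afd53134ec64848136a151687841acea133da6c605a0328cce2d24b484a7148bf4b21f058744627 (k8 c9643 c2824 c85 c567 c86 c487 c4302 c2892 (k8 c585 c9265 c4467 c4281 c9588 c9512 c936 c831 (k8 c830 c9640 c1967 c705 c9489 c498 c5752 c8071 (k8 c4440 c4322 c4321 c4318 c4439 c316 c4446 c2968 (k8 c4441 c9426 c4566 c1913 c1023 c1910 c500 c317 (k8 c9570 c9410 c9380 c9211 c9199 c2444 c2823 c2822 (k8 c4468 c9605 c4415 c4413 c4314 c1932 c2120 c7718 (k2 c9642 c2123 (k1 c2055 k0))))))))) (by decide +kernel)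
def c9645 : PP 8 4 T 0x2080200000002 := rS 0x2aa24a7048898c2a1b5699c2ed1288a40c8b0ca1e106b05874267b4d87cb42d (k8 c9588 c830 c86 c1967 c705 c9489 c85 c567 (k8 c5752 c8071 c4440 c4436 c4322 c831 c9410 c1917 (k8 c2266 c1910 c9512 c9570 c2672 c2632 c2822 c4411 (k4 c8717 c2263 c4794 c4406 (k1 c2109 k0))))) (by decide +kernel)
def c9646 : PP 8 4 T 0x10000000000000000000000000000000000000000002000000000000000200000002 := rS 0x7d39c1092d212a8ce2237ea44161d2c99c267b4d87cb4274fc405630728b45206 (k8 c831 c9410 c9588 c9380 c9640 c9645 c4468 c4414 (k8 c9643 c830 c86 c1967 c705 c9489 c9512 c487 (k8 c85 c567 c2892 c4302 c2824 c585 c936 c9265 (k4 c4467 c4281 c9605 c4408 (k2 c4409 c9644 k0))))) (by decide +kernel)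
def c9647 : PP 8 4 T 0x10000000000000000000000000000000000000000000000000000000000200000002 := rS 0x118d5a7057e1844e19429b5024b84260844f0b8c0d65d489a4161d2c87cbe1b2d1bc0ca9 (k8 c9426 c831 c9199 c830 c2672 c2443 c86 c487 (k8 c85 c567 c2823 c2892 c2821 c5752 c9640 c1910 (k8 c299 c316 c317 c8071 c3839 c4439 c4318 c4321 (k8 c4436 c9643 c9646 c4477 c9641 c8510 c8774 c833 (k1 c9636 k0))))) (by decide +kernel)
def c9648 : PP 8 4 T 0x40000000000000000002000000000040000000000000000005080000000000000000000000200000002 := rS 0x1106c338b44aa584a0d0261862a4be5a031a4ba6b (k8 c5752 c2821 c2823 c831 c830 c2443 c9426 c9647 (k8 c4326 c4380 c4306 c9576 c4385 c4381 c9588 c9512 (k2 c8613 c4235 (k1 c680 k0)))) (by decide +kernel)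
def c9649 : PP 8 4 T 0x1000010100000000000000082080000000000020000000000004000000 := rS 0x24b1d98cb (k4 c1752 c725 c413 c7979 (k1 c2063 k0)) (by decide +kernel)
def c9650 : PP 8 4 T 0x102002000000040000000000000000000000000000000000000000000600400002 := rS 0x14d5e5489220da8b4221c994b28b445e4b0a8cc52ad13a9c4aa555c40fcc94f9f4ca6333a85462b16b94620b0e93c1f0941a04c30c5497cd25d3586cb406 (k8 c831 c830 c2672 c5752 c2821 c2823 c2443 c9426 (k8 c9647 c4326 c4380 c4306 c9576 c4376 c4501 c85 (k8 c567 c8071 c9380 c9588 c8717 c9384 c4329 c9512 (k8 c2822 c2444 c4379 c4384 c4305 c2118 c4478 c4415 (k8 c4385 c4381 c4330 c4324 c9570 c9410 c9263 c2632 (k8 c4434 c4432 c4298 c4435 c9591 c2111 c9490 c9648 (k8 c9649 c9629 c7525 c4479 c7030 c4346 c9029 c7769 k0))))))) (by decide +kernel)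
def c9651 : PP 8 4 T 0x102000000000040000000000000000000000000000000000000000000600400002 := rS 0x54631c85f123d860daf1279e4363314a9c4aa5079f9929f3e994c66750a8c562d728c612834098618a92f9680c692e9ac161d (k8 c85 c567 c5752 c2821 c2823 c831 c830 c2443 (k8 c9426 c9647 c4326 c4380 c4306 c9576 c8071 c9380 (k8 c9588 c8717 c9384 c4329 c9512 c2822 c2444 c4379 (k8 c4384 c4305 c2118 c4376 c4385 c4381 c4330 c9410 (k8 c9263 c2672 c500 c4501 c9650 c5814 c4465 c704 (k4 c4479 c8705 c9519 c8703 (k2 c1022 c250 k0))))))) (by decide +kernel)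
def c9652 : PP 8 4 T 0x102000000000040000000000000000000000000000000000000000000600000002 := rS 0x72613062f183ca1224993b9b4f6f10b0c52b093aa0d021f0480cd65d4b9a4161d2f9bc66b372aa55a6153a9618ab49c40ca5a0319c5a63 (k8 c2822 c9588 c9512 c831 c830 c2444 c4478 c4413 (k8 c4415 c9647 c4385 c4330 c4326 c9570 c9426 c9380 (k8 c9211 c9263 c9199 c2443 c85 c567 c2823 c2930 (k8 c2821 c5752 c28 c230 c86 c4380 c4306 c9224 (k8 c9576 c5073 c8071 c9651 c4431 c2474 c519 c1833 (k8 c6171 c4479 c2119 c9583 c4482 c9158 c4450 c7972 (k2 c4481 c1087 k0))))))) (by decide +kernel)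
def c9653 : PP 8 4 T 0x101000000000000000000000000000000000080000000000000000000200040002 := rS 0x2d0743d0587452614fc31462b49c40ca67169502a5a4a98d72753781966e5 (k8 c9380 c9211 c831 c9199 c498 c4548 c2822 c5073 (k8 c830 c2632 c4464 c9588 c9512 c2444 c4478 c4413 (k8 c8717 c9384 c9647 c4384 c4326 c9410 c85 c567 (k4 c1615 c1021 c9252 c3540 k0)))) (by decide +kernel)
def c9654 : PP 8 4 T 0x101000000000000000000000000000000000000000000000000000000200040002 := rS 0x16a3d8b1cd72952a1d42a6f598a4c29f8628c56e549c40ca5a0319c5a63 (k8 c2822 c9588 c9512 c831 c830 c2444 c4478 c4413 (k8 c9380 c8717 c9384 c9647 c4384 c4326 c9410 c9211 (k8 c9199 c2632 c498 c4464 c5073 c4548 c9653 c4481 (k2 c4416 c4419 (k1 c9252 k0))))) (by decide +kernel)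
def c9655 : PP 8 4 T 0x100000000000040000000000000000000000000000000000000001000600000002 := rS 0x334fe7d5c2550881a59449e8a781752e9105874225f14aa55a2750a9c4a8d4fa95462b55a4e20653398cee7984c650687359a48ac359b95a21725a686713360bc821b47add6b14389e8242d5dac4c30c2d1bc0cfd (k8 c9652 c831 c9199 c830 c9647 c4326 c624 c4847 (k8 c9588 c9654 c9489 c707 c4480 c4389 c4353 c4388 (k8 c2672 c1050 c837 c704 c4342 c9263 c705 c6906 (k8 c2474 c1759 c9380 c9211 c1211 c440 c2823 c5752 (k8 c8450 c2626 c4366 c4320 c183 c182 c2822 c9512 (k8 c2444 c4478 c4413 c4415 c8717 c9384 c4385 c4384 (k8 c4383 c4381 c4330 c4329 c4324 c9570 c9426 c9410 (k8 c2443 c2594 c85 c567 c2892 c2930 c2821 c5814 (k8 c9629 c4297 c4435 c9591 c9279 c9547 c9619 c2125 (k4 c1773 c7096 c1481 c9403 k0)))))))))) (by decide +kernel)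
def c9656 : PP 8 4 T 0x100000000000040000000000000000000000000000000000000000000600000002 := rS 0x30849e824fd3582c3a2d (k8 c9588 c85 c567 c5752 c9652 c9654 c9489 c4320 (k2 c9655 c8071 k0)) (by decide +kernel)
def c9657 : PP 8 4 T 0x101000000000000000000000000000000000000000000000000000000600000002 := rS 0x3a0f590b71ba3cff140918cba974897cca6f33a851ab130834fa152d2d58c4914a7c8ed213c31462b16b947e06 (k8 c831 c8194 c9380 c9588 c8717 c9384 c9647 c4324 (k8 c9656 c4374 c4384 c9410 c4281 c4200 c1432 c830 (k8 c2632 c1352 c4371 c4326 c624 c4383 c4329 c9512 (k8 c9199 c2444 c2443 c2892 c2930 c2821 c2822 c9654 (k8 c5772 c514 c4388 c4386 c4353 c2118 c330 c8577 (k1 c499 k0)))))) (by decide +kernel)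
def c9658 : PP 8 4 T 0x100000000000000000000000000000000000000000000000000000000600000002 := rS 0x7e07bf0fac623925a4630a994b4290319c4e61508953f0c518ac5ae5 (k8 c9380 c9588 c8717 c9384 c9647 c4384 c4381 c4329 (k8 c4326 c4324 c9512 c831 c9410 c830 c2444 c2632 (k8 c2822 c9656 c4281 c4374 c4200 c1352 c9657 c4376 (k2 c7315 c9206 k0)))) (by decide +kernel)
def c9659 : PP 8 4 T 0x100000000000000000000000000000000000000000000000000000000200000002 := rS 0x43a2e965168951e03109a245f09899f8d8fc638d044ab880acc66b2e82c3a152f994de33728a40cad338b5429f58986185a (k8 c830 c9647 c4326 c624 c4384 c4329 c9588 c9512 (k8 c9570 c831 c9410 c9380 c9263 c9199 c2444 c2443 (k8 c2632 c85 c567 c2821 c5752 c2822 c8717 c4478 (k8 c4415 c9658 c833 c1450 c9427 c8774 c8715 c4342 (k8 c4318 c2830 c680 c515 c8071 c4469 c4464 c4298 (k4 c4435 c9591 c1766 c9490 (k1 c4485 k0))))))) (by decide +kernel)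
def c9660 : PP 8 4 T 0x2000000000000000000000000000000000002000000000000000000200000002 := rS 0x1317a4f3d05c5e790d8cc4ea712a94e60f18c2506815497cd25d35b0d5a231a8ec96365b45d6b438aae5248d64ac4ea0b0ea5d666f1e0a9447f3ec10ca5a0319cc66116b95770c (k8 c9647 c4847 c9380 c9588 c4326 c2822 c9512 c831 (k8 c830 c2444 c9659 c4409 c4313 c7315 c9384 c314 (k8 c9199 c9211 c2930 c85 c567 c9224 c624 c4305 (k8 c4383 c315 c1125 c9531 c4393 c1436 c4416 c4492 (k8 c1743 c1413 c1641 c1037 c833 c9570 c1128 c5752 (k8 c2821 c2823 c2443 c9426 c4380 c4306 c9576 c8071 (k8 c4376 c4408 c4385 c4381 c4330 c4324 c9263 c2672 (k8 c2452 c2830 c519 c9525 c4501 c1171 c2111 c325 k0)))))))) (by decide +kernel)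
def c9661 : PP 8 4 T 0x2000000000000000000000000000000000000000000000000000000200000002 := rS 0x3c9b4ee92098c455095120d026335974d20b0e97cca5a37819caa9338b4c30c3f9ccfb04 (k8 c9659 c4409 c4408 c4313 c9647 c4326 c9588 c9512 (k8 c9426 c9380 c831 c9199 c830 c2444 c2443 c85 (k8 c567 c2823 c2821 c5752 c2822 c4380 c4306 c7315 (k8 c9576 c9384 c8071 c1638 c315 c9494 c9660 c9583 (k1 c9526 k0))))) (by decide +kernel)
def c9662 : PP 8 4 T 0x1000000000000000000000000000000000000001000000000000001000200000002 := rS 0x1e03b8b90c82196124e30173ca28ee7555abc27123d98cd6691f994365a032b4ce2d439cd1304 (k8 c9659 c4314 c4408 c4410 c9588 c9512 c9570 c831 (k8 c830 c2672 c2444 c8194 c2823 c5752 c2822 c704 (k8 c4479 c9489 c4346 c4445 c498 c9494 c2120 c2454 (k8 c524 c4632 c9526 c9525 c9519 c8238 c4446 c4362 (k2 c1047 c4465 (k1 c8019 k0)))))) (by decide +kernel)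
def c9663 : PP 8 4 T 0x2000200000000000000000000500014040100000014055500000000000000000042080 := rS 0x324ea73 (k4 c4408 c498 c506 c9237 k0) (by decide +kernel)
def c9664 : PP 8 4 T 0x1000000000000000000000000000000000000000000000000000001000200000002 := rS 0xa31584a280c38b341e4c421dda6512792c82f0418bcf3133618cba970897cca1b19acdcaa95699c5a2750a9c4a8d4fa95767f3ec1046fd58986185a37818161d (k8 c85 c567 c831 c9199 c830 c9647 c4326 c624 (k8 c9661 c9427 c9659 c4409 c4313 c4847 c4385 c4384 (k8 c4383 c4381 c4330 c4329 c4324 c9588 c9512 c9570 (k8 c9426 c9380 c9211 c9263 c2672 c2444 c2443 c2594 (k8 c2930 c2821 c2822 c9662 c4342 c2452 c2830 c641 (k8 c5814 c8691 c4799 c4297 c4435 c5264 c1023 c9547 (k8 c2111 c1495 c1481 c9549 c4463 c4480 c9663 c1638 (k2 c9384 c9403 k0)))))))) (by decide +kernel)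
def c9665 : PP 8 4 T 0x2000000000000000000000000000000000001000200000002 := rS 0x3c4a29a690f124c71544554534e8fcb21f0a844362956a1d125536a2c32c83a84cf6a159b94ce2d46a7ce7048a1c50481842a4d26b58bf4c30c37994be5a0325cba63 (k8 c2822 c2821 c2930 c831 c830 c2443 c2444 c9199 (k8 c9647 c4326 c9661 c624 c5752 c2823 c9426 c9664 (k8 c4439 c9576 c2448 c4480 c9659 c4408 c4384 c4383 (k8 c9588 c9512 c9380 c9211 c4329 c4320 c9489 c498 (k8 c9237 c4436 c4322 c4318 c4406 c4314 c4410 c9570 (k8 c9410 c2672 c2594 c2632 c86 c487 c8194 c2968 (k8 c1983 c8008 c4415 c4468 c2262 c315 c314 c9529 (k4 c1661 c3594 c5264 c5843 k0)))))))) (by decide +kernel)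
def c9666 : PP 8 4 T 0x400000000002000000000000000004001040500000000055915554000000000000000000000000000 := rS 0x30e8abd (k4 c4354 c4452 c8129 c8512 k0) (by decide +kernel)
def c9667 : PP 8 4 T 0x1000200000002 := rS 0xa0423c3059f4364450ea7109a08ee8b429b5027b8418cd65d4b9a4be65378cd66e51481952ad338b5428d4faed6261861690e733ea2608fd (k8 c9661 c9659 c4314 c4409 c4408 c4410 c830 c9647 (k8 c4326 c624 c4847 c4384 c4383 c4329 c9588 c9512 (k8 c9570 c9426 c831 c9410 c9380 c9211 c9263 c9199 (k8 c2444 c2443 c2823 c2930 c2821 c5752 c2822 c9664 (k8 c4320 c4439 c4318 c4321 c4322 c4438 c9576 c9489 (k8 c2448 c498 c4480 c9237 c4422 c1792 c9665 c9666 (k2 c501 c9353 (k1 c1956 k0)))))))) (by decide +kernel)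
def c9668 : PP 8 4 T 0x200000002 := rS 0x621d57ac849aace2138a28e208236a06327b3b9e457082126c8217898c1fa893e9cd0e7f822c576a54fa84c30c338b55aa914acdca6f3297c16694e9740c5a3598c3e1d (k8 c85 c86 c2822 c5752 c830 c831 c2821 c2968 (k8 c2823 c567 c2443 c2444 c9199 c9380 c9211 c9410 (k8 c9426 c9570 c9588 c9512 c9647 c4326 c4329 c4384 (k8 c4385 c4847 c624 c9659 c4313 c4410 c4408 c4409 (k8 c4314 c9661 c9667 c4441 c1910 c1913 c1967 c316 (k8 c8071 c9645 c500 c1023 c705 c4446 c4439 c4318 (k8 c9576 c4468 c9384 c9304 c9489 c2448 c4415 c4413 (k4 c2118 c4354 c498 c8130 (k1 c7718 k0))))))))) (by decide +kernel)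
def c9669 : PP 8 4 T 0x200000000000010002000000000000040004000000000000000002000001440082 := rS 0x26de2504e94cb03f2d95c062143a24aa150d8163241 (k8 c3821 c4450 c54 c294 c4308 c4406 c4314 c4410 (k8 c9668 c28 c1018 c495 c1178 c4476 c1983 c1234 (k4 c2109 c4435 c3874 c5755 k0))) (by decide +kernel)
def c9670 : PP 8 4 T 0x10000000001000000000000000000000000000001000000000000050002000000000002 := rS 0xb49c2226c422f (k4 c61 c9668 c1966 c4472 (k2 c5755 c5793 (k1 c969 k0))) (by decide +kernel)
def c9671 : PP 8 4 T 0x1000000000000002000002000002 := rS 0x35c240a03 (k4 c28 c54 c4436 c1919 (k1 c7393 k0)) (by decide +kernel)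
def c9672 : PP 8 4 T 0x2000000001000000080000000000001000000000000000000040010002000001000042 := rS 0x74149a04c648445108dd7a2f (k8 c61 c4354 c4386 c9668 c297 c6022 c4446 c236 (k4 c5755 c4462 c764 c567 k0)) (by decide +kernel)
def c9673 : PP 8 4 T 0x2000000002000000040000400000000000000800000000000000050000000001000200 := rS 0x4d1a8381a4b0b93c8abb1baf42239 (k8 c4348 c344 c4354 c4386 c4390 c4296 c4297 c4431 (k4 c4434 c508 c4570 c1060 (k2 c244 c2114 k0))) (by decide +kernel)
def c9674 : PP 8 4 T 0x2000001002000000040000400000000000000400000000000000050000000000001200 := rS 0x1301c352593c8abb1baf42239 (k8 c4348 c344 c4354 c4386 c4390 c4296 c4297 c4434 (k4 c1060 c4463 c2114 c245 k0)) (by decide +kernel)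
def c9675 : PP 8 4 T 0x2000000000001000000040000000116000000050000054500000001400104000082000 := rS 0x305729755c5a203f14921462b5d8e522b75a845a661 (k8 c503 c4371 c112 c4389 c4353 c4352 c4348 c4390 (k8 c1638 c4241 c9121 c1720 c370 c4468 c4471 c4415 (k4 c4336 c4361 c4420 c4031 k0))) (by decide +kernel)
def c9676 : PP 8 4 T 0x1000000000000000000000000000000020001000000000100000000011 := rS 0x158a40511 (k4 c4412 c4461 c1567 c226 (k1 c4468 k0)) (by decide +kernel)
def c9677 : PP 8 4 T 0x8000000000000000000000002020 := rS 0x445e (k2 c528 c529 (k1 c3282 k0)) (by decide +kernel)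
def c9678 : PP 8 4 T 0x2000002000000000000000000000000000000000420000000000000140000000011 := rS 0xaae5 (k2 c5620 c1646 (k1 c9676 k0)) (by decide +kernel)
def c9679 : PP 8 4 T 0x2000000000000000000000200000000000000002000051000200000000040 := rS 0xc161a5476531f915a25172b155e33 (k8 c4294 c982 c1136 c4286 c4435 c4298 c4296 c8954 (k4 c9029 c1601 c855 c9009 (k2 c1933 c2115 k0))) (by decide +kernel)
def c9680 : PP 8 4 T 0x100000000000000000000000000000000000000000044080000000800000000000600 := rS 0x82994e475 (k4 c1575 c1061 c578 c4408 (k1 c4478 k0)) (by decide +kernel)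
def c9681 : PP 8 4 T 0x2000000000000000000000200000000000000000400055400200000000000 := rS 0x182c34a915a25172b155e33 (k8 c4294 c982 c1136 c4286 c4435 c4298 c4296 c855 (k2 c9009 c1933 (k1 c2115 k0))) (by decide +kernel)
def c9682 : PP 8 4 T 0x100000000014040400050000045510000008020000200000000 := rS 0xa332a4d2917 (k4 c4356 c401 c3132 c7044 (k2 c858 c2118 k0)) (by decide +kernel)
def c9683 : PP 8 4 T 0x400000000000080000000020000110000400 := rS 0x3c8d (k2 c7929 c4466 (k1 c1099 k0)) (by decide +kernel)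
def c9684 : PP 8 4 T 0x400000000000080000000020000100000400 := rS 0x1d (k2 c759 c9683 k0) (by decide +kernel)
def c9685 : PP 8 4 T 0x1040000008020000020002200 := rS 0x653f9f4c6a3338a056732ab947a116387c0a8d16958b2a1861741efd2f8004a6e (k8 c1059 c3345 c1058 c489 c4378 c32 c753 c4477 (k8 c4329 c3111 c4476 c2917 c3049 c9677 c1066 c3417 (k8 c112 c145 c4288 c8954 c3083 c288 c1180 c7335 (k4 c4241 c755 c1292 c1460 (k2 c491 c4610 k0))))) (by decide +kernel)
def c9686 : PP 8 4 T 0x2001000002000000000000040000000000000005004000000010040040000000000200 := rS 0x5f8d4964f2091472bd (k8 c4354 c4348 c4296 c4433 c4297 c4434 c1059 c7782 (k1 c2114 k0)) (by decide +kernel)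
def c9687 : PP 8 4 T 0x2000000000000000000000010500008054100000100055100000000000000000000000 := rS 0x5e373f6087f64c461a71 (k8 c4387 c4384 c4414 c1664 c1394 c4478 c7058 c9531 (k2 c4477 c1377 k0)) (by decide +kernel)
def c9688 : PP 8 4 T 0x10000000000000000000000000000000100000008001100000000000000000000000 := rS 0xbefd (k2 c4378 c1377 (k1 c4477 k0)) (by decide +kernel)
def c9689 : PP 8 4 T 0x2411000002000000000000000001400000100005000001100000040000004000000200 := rS 0x14b45261bd7637 (k4 c4386 c4390 c9688 c9686 (k2 c4451 c1935 (k1 c4490 k0))) (by decide +kernel)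
def c9690 : PP 8 4 T 0x2020000000000000000100000000050000000040006054108000000000000000000000 := rS 0x96881d60a7c47a4d1ab33b270c2912fa7d6eb5 (k8 c4389 c4353 c4384 c4382 c4328 c881 c960 c961 (k8 c3203 c3091 c3092 c2965 c2118 c4409 c1691 c4478 (k2 c7050 c4336 k0))) (by decide +kernel)
def c9691 : PP 8 4 T 0x2020001000000000000100000001010000000040006054008000001400000000000000 := rS 0x31582871f94d8673820a55e7da1c454513568b5a2512eb1c18836993176001bafcf608059e4b70903bc232451790c82764c9ac389c (k8 c960 c7712 c181 c1072 c961 c4675 c4674 c2753 (k8 c1220 c4368 c4472 c3004 c4318 c92 c600 c7784 (k8 c4462 c4270 c7782 c4386 c7783 c4847 c9686 c4282 (k8 c641 c9674 c1447 c962 c4435 c4298 c2917 c2950 (k8 c4342 c9690 c4337 c4393 c1353 c988 c779 c5380 (k8 c4956 c1214 c4179 c1180 c4410 c1892 c1095 c2115 k0)))))) (by decide +kernel)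
def c9692 : PP 8 4 T 0x2020001000000000000000000001010000000040006054008000001400000000000000 := rS 0xe5091f590c71689cba5f4fa9418836993176001bafcf608059e4b70903bc232451790c82764c9ac389c (k8 c960 c7712 c181 c1072 c961 c4675 c4674 c2753 (k8 c1220 c4368 c4472 c3004 c4318 c92 c600 c7784 (k8 c4462 c4270 c7782 c4386 c7783 c4847 c9686 c4282 (k8 c641 c9674 c4385 c4384 c4382 c962 c2874 c2917 (k4 c1447 c9691 c125 c506 (k2 c4401 c9675 k0)))))) (by decide +kernel)
def c9693 : PP 8 4 T 0x2020001000000000000000000001010000000000006054008000001400000000000000 := rS 0x9751c40eb053f23d268d599d938914fadce2b5 (k8 c4389 c4387 c4353 c4384 c4328 c960 c961 c3203 (k8 c3091 c3092 c2965 c9692 c4313 c594 c4478 c4337 (k2 c4336 c7050 k0))) (by decide +kernel)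
def c9694 : PP 8 4 T 0x2020001000000000000000000001010000000000006044008000001400000000000000 := rS 0x62305542a43990d2ad0fa4c00793d96e12d128bc232413b264d69c228705e43 (k8 c4674 c2753 c7712 c1220 c960 c181 c1072 c961 (k8 c4675 c4368 c4472 c4435 c4298 c4318 c92 c4270 (k8 c600 c7783 c3092 c56 c2950 c180 c9693 c1653 (k4 c491 c701 c1892 c7615 (k1 c1674 k0))))) (by decide +kernel)
def c9695 : PP 8 4 T 0x2020001000000000000000000001010000000000006044008000000400000000000000 := rS 0x20a7f2a1d0e63c4aaccba612f9c418836993176001bafcf608059e4b70903bc232451790c82764c9ac389c (k8 c960 c7712 c181 c1072 c961 c4675 c4674 c2753 (k8 c1220 c4368 c4472 c3004 c4318 c92 c600 c7784 (k8 c4462 c4270 c7782 c4386 c7783 c4847 c9686 c4282 (k8 c641 c9674 c4387 c4382 c881 c962 c3203 c2966 (k4 c9694 c1615 c235 c234 (k2 c594 c4406 (k1 c8816 k0))))))) (by decide +kernel)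
def c9696 : PP 8 4 T 0x2020001000000000000000000001010000000000006004008000000400000000000000 := rS 0x5361b147ec11eb912c293a998b31356acc100b038b400793d96e12d128bc232413b264d69c228705e43 (k8 c4674 c2753 c7712 c1220 c960 c181 c1072 c961 (k8 c4675 c4368 c4472 c4435 c4298 c4318 c92 c4270 (k8 c600 c7783 c2917 c3004 c7784 c4462 c3203 c2950 (k8 c4342 c63 c9695 c592 c2743 c8996 c7399 c235 (k4 c1893 c1180 c1253 c8801 (k2 c4290 c2115 k0)))))) (by decide +kernel)
def c9697 : PP 8 4 T 0x2020001000000000000000000001010000000000006004008000000000000000000000 := rS 0x88c14caa2339c856975cb947a3a4aa3d268d0402c0e7616801329c3c914382f3d96e126b48a7d6eb5 (k8 c4389 c4353 c4384 c4328 c181 c4318 c92 c4270 (k8 c2753 c7712 c1220 c600 c960 c1072 c7783 c2917 (k8 c961 c3004 c7784 c4462 c3091 c3092 c2965 c2966 (k8 c9696 c89 c4403 c3056 c3055 c1640 c1061 c7335 (k4 c2125 c491 c4408 c4337 (k1 c4478 k0)))))) (by decide +kernel)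
def c9698 : PP 8 4 T 0x2020000000000000000000000000010000000000006008108000000000000000000000 := rS 0xa33aa5e0a9547a4d1ab33b001329c3c914382f3d96e126b48a7d6eb5 (k8 c4389 c4353 c4384 c4328 c181 c4318 c92 c4270 (k8 c2753 c7712 c1220 c600 c960 c1072 c7783 c961 (k8 c3203 c3091 c3092 c2965 c2966 c4407 c2715 c1688 (k2 c818 c7050 k0)))) (by decide +kernel)
def c9699 : PP 8 4 T 0x20102000000000000000005000050040000000016004008000000000000000000000 := rS 0x653fc5ce85947a4d1a6148a7cfa672daccec9c (k8 c960 c961 c3203 c92 c8996 c4379 c4384 c4328 (k8 c881 c3091 c3092 c2965 c63 c7050 c4417 c594 (k2 c7044 c7315 k0))) (by decide +kernel)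
def c9700 : PP 8 4 T 0x20102000000000000000005000010040000000016004008000000000000000000000 := rS 0xe67f8b19222a24aa4cbe672daccec9c (k8 c960 c961 c3203 c92 c8996 c4382 c3092 c2966 (k4 c9699 c4337 c4478 c4487 (k2 c554 c1648 (k1 c7787 k0)))) (by decide +kernel)
def c9701 : PP 8 4 T 0x20002000000000000000005000010040000000016004008000000000000000000000 := rS 0xa54a1ec5d8a3b60954e6873fc107ec35982016792dc240ed128bc232413b264d69c228705e43 (k8 c4674 c2753 c7712 c1220 c960 c181 c1072 c961 (k8 c4675 c4368 c4472 c4435 c4298 c3004 c4318 c92 (k8 c600 c7784 c4462 c3203 c1213 c1179 c9700 c4313 (k8 c4410 c4408 c4406 c1892 c1061 c1095 c7787 c234 (k2 c4494 c2115 (k1 c4456 k0)))))) (by decide +kernel)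
def c9702 : PP 8 4 T 0x20202000000000000054000010012000000000800005100400150400100040000202 := rS 0xe4328f8563d60854aa873fa4da25178464be9f (k8 c4384 c4382 c4368 c4472 c4435 c4298 c3092 c4313 (k8 c4410 c4406 c4308 c1892 c234 c7615 c2115 c491 (k2 c8715 c4288 k0))) (by decide +kernel)
def c9703 : PP 8 4 T 0x100100000000000000015000000000000000000002004008400001400000000000000 := rS 0x33394ca3e159655a1f498b400793d96e12d128bc232413b264d69c228705e43 (k8 c4674 c2753 c7712 c1220 c960 c181 c1072 c961 (k8 c4675 c4368 c4472 c4435 c4298 c4318 c92 c4270 (k8 c600 c7783 c2917 c3092 c56 c2950 c63 c7615 (k4 c2115 c491 c4288 c4478 (k1 c7399 k0))))) (by decide +kernel)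
def c9704 : PP 8 4 T 0x100100000000000000002000000000000000000802004040000000000000000000000 := rS 0x67329d1167b (k4 c4270 c1713 c1893 c700 (k2 c592 c4478 k0)) (by decide +kernel)
def c9705 : PP 8 4 T 0x2020000000000000000000000001010000000000006000008000000000000000000000 := rS 0xce6539a2c794a60c158e5361b14771788abd2cfc319316a715b8de26ad0fbc232412182016073b0b4ba615d801329c3c914382f3d96e126b (k8 c181 c4318 c92 c4270 c2753 c7712 c1220 c600 (k8 c960 c1072 c7783 c4847 c881 c962 c2917 c961 (k8 c3004 c7784 c4462 c4674 c4675 c4368 c4472 c56 (k8 c2950 c4342 c4386 c4353 c4387 c4389 c9686 c9698 (k8 c9697 c9701 c4631 c4336 c4360 c1044 c1253 c8801 (k8 c4179 c412 c9702 c9704 c4494 c9703 c4427 c1615 (k2 c700 c921 (k1 c4478 k0)))))))) (by decide +kernel)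
def c9706 : PP 8 4 T 0x40000000000010000000000000000000015000000000000000000000000002000154000000000000040 := rS 0x7653 (k2 c9029 c1601 (k1 c4759 k0)) (by decide +kernel)
def c9707 : PP 8 4 T 0x10000001000000000000015001100040054500050140055500000154000000000000200 := rS 0x14b8b949703d68945e03b (k8 c1061 c4472 c4435 c4298 c235 c7622 c2115 c4361 (k2 c4456 c4494 k0)) (by decide +kernel)
def c9708 : PP 8 4 T 0x10020001000000000004404000111040054500050840055500000154000000000000200 := rS 0x52a21173a3056a87642853ec5 (k8 c1095 c4384 c4329 c2118 c1732 c1705 c1892 c9707 (k4 c4417 c4487 c4494 c4690 k0)) (by decide +kernel)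
def c9709 : PP 8 4 T 0x10420001000000000004404000111000054500050840055500000154000100000000200 := rS 0x608f4a71657c4544c51db44a2f0 (k8 c4472 c4435 c4298 c1061 c1095 c9708 c4337 c988 (k4 c4487 c4179 c4416 c4420 (k1 c2115 k0))) (by decide +kernel)
def c9710 : PP 8 4 T 0x420001000000000004400000011002050400450800055500000154100100000000402 := rS 0x371ac54dcb669a8d90b55cc14ea7258a4d1a080393de11961a45429f (k8 c4384 c4329 c4328 c1213 c4368 c4472 c4297 c3004 (k8 c4462 c3091 c3092 c3164 c9709 c96 c4408 c1086 (k8 c1618 c8784 c8633 c7620 c2125 c1731 c4353 c3053 (k2 c1344 c4470 k0)))) (by decide +kernel)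
def c9711 : PP 8 4 T 0x400000000000000000000000010002440000000800520000000150000000040000002 := rS 0x18a3d60abc541243c45260768945e119 (k8 c4368 c4472 c4435 c4298 c3004 c3092 c4412 c1653 (k4 c490 c491 c1777 c1892 (k2 c1679 c8820 (k1 c7615 k0)))) (by decide +kernel)
def c9712 : PP 8 4 T 0x500000000000000010015000050000054000000000054000100154000100000000200 := rS 0x74731e94e0916 (k4 c4487 c4478 c4179 c4416 (k2 c4408 c2115 (k1 c1061 k0))) (by decide +kernel)
def c9713 : PP 8 4 T 0x10401001000000000000815140410000054500450000055500000154000100000000200 := rS 0x1088b43d2a2e735c32147105bb44a2f048a853f0ca2b355eb5 (k8 c1709 c8140 c168 c4455 c4477 c4384 c4329 c4328 (k8 c4472 c4435 c4298 c7634 c9712 c4337 c2118 c2125 (k4 c1730 c4361 c8268 c7043 (k2 c4427 c5740 (k1 c716 k0))))) (by decide +kernel)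
def c9714 : PP 8 4 T 0x820000000000000000000800000000000000000000000000000 := rS 0x11472 (k2 c1095 c1096 (k1 c3685 k0)) (by decide +kernel)
def c9715 : PP 8 4 T 0x10401001000000000000804140410000054500454800055500000154100100000110200 := rS 0x4d5f8dc6a855c31c1ac85184e0b104322e2ec05bb156b452593ca2f048a853f0c (k8 c4477 c4384 c4329 c4328 c4472 c4435 c4297 c4434 (k8 c4455 c1709 c9714 c7634 c9713 c4420 c1713 c1892 (k8 c4487 c4410 c1564 c4337 c8784 c506 c7228 c2125 (k4 c716 c1060 c1471 c1094 (k2 c4248 c2114 k0))))) (by decide +kernel)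
def c9716 : PP 8 4 T 0x401001000000000000000000011002050400454800055500000150000100020000402 := rS 0x51b259ccb1caed429186465268d0401d86151facc22bd (k8 c1174 c606 c3203 c1179 c7508 c1213 c3004 c4462 (k8 c3091 c3092 c4368 c4477 c4328 c4329 c4847 c1139 (k4 c9715 c9710 c1793 c1523 (k1 c5857 k0)))) (by decide +kernel)
def c9717 : PP 8 4 T 0x1000000000000000000001000040000050002005108000000000000000000000 := rS 0xa2aed7f1542030df0d2f2f54e9547a35e1190402c0e2d1399d6665001e4f65b8490532451787c86764e26c38ad359a62683 (k8 c640 c4342 c180 c181 c2950 c7712 c2730 c960 (k8 c961 c4674 c56 c2753 c1220 c1072 c4675 c4318 (k8 c92 c4270 c600 c7783 c9711 c3203 c8996 c2874 (k8 c2917 c3004 c7784 c4462 c4368 c4472 c3091 c2965 (k8 c2966 c2911 c1174 c9716 c4382 c1377 c488 c698 (k4 c9689 c7782 c4658 c4397 (k1 c4493 k0))))))) (by decide +kernel)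
def c9718 : PP 8 4 T 0x1000000000000000000000000040000050002005108000000000000000000000 := rS 0xc062a1d5f118228992cb5e8e5230c4217d76a15420c229547a4d1a08038b5a2517846586670a8fd660b32800f27b2dc248299228bc3e433b271361c569acd313 (k8 c4342 c180 c181 c2950 c7712 c2730 c960 c961 (k8 c4674 c56 c2753 c1220 c1072 c4675 c4318 c92 (k8 c4270 c600 c7783 c9711 c7784 c3203 c1179 c7508 (k8 c8996 c1213 c4368 c4472 c4435 c4298 c2917 c3004 (k8 c4462 c3091 c3092 c2965 c2966 c606 c640 c9717 (k8 c7768 c1443 c1506 c8675 c4477 c4328 c1139 c1173 (k8 c9715 c717 c5857 c8784 c4337 c5449 c4410 c8820 (k2 c9712 c1892 k0)))))))) (by decide +kernel)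
def c9719 : PP 8 4 T 0x2002008000000000000000000000 := rS 0x17a83692a61a5953801329c3c914382f3d96e126b (k8 c181 c4318 c92 c4270 c2753 c7712 c1220 c600 (k8 c960 c1072 c7783 c2911 c63 c4326 c2980 c7428 (k2 c5832 c5809 (k1 c5887 k0)))) (by decide +kernel)
def c9720 : PP 8 4 T 0x100002000400404002000200000150000000000000002 := rS 0x5faed7a371c9346a8054244440e2593de119 (k8 c4368 c4472 c4297 c4434 c753 c752 c2712 c962 (k8 c963 c8690 c245 c241 c1409 c1173 c1443 c1364 (k1 c2114 k0))) (by decide +kernel)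
def c9721 : PP 8 4 T 0x2000000000000004000012002000000050800455100000154000100040100200 := rS 0x1cc558c754fb4d731655d2dca52158f58a3b60954e6878217d42b149acc9ed128bc232c91b83c6a6f (k8 c4378 c1059 c4376 c232 c4305 c4368 c4472 c4435 (k8 c4298 c4297 c3203 c3092 c3164 c7768 c1506 c8784 (k8 c4410 c4408 c4406 c1892 c1061 c1095 c234 c7615 (k8 c2115 c4290 c4456 c1943 c4471 c7514 c7621 c1510 (k4 c4417 c8715 c9531 c410 (k1 c4470 k0)))))) (by decide +kernel)
def c9722 : PP 8 4 T 0x40001000000000000006000008020000000000000000000 := rS 0x1430c8a2968b1353c644e004c914382f35afcf6792dc257a9c (k8 c960 c1174 c4318 c92 c600 c4270 c7782 c181 (k8 c2753 c7712 c1220 c1072 c7783 c2874 c4368 c2911 (k4 c4342 c4451 c1935 c4493 (k2 c4490 c4329 (k1 c9705 k0))))) (by decide +kernel)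
def c9723 : PP 8 4 T 0x2000000000000044000010012000000050800055500000154000100840100200 := rS 0x1ca9f290ac7ac51db04aa7343c1126d128bc232c9 (k8 c4305 c4368 c4472 c4435 c4298 c3092 c8784 c4410 (k8 c4408 c4406 c1892 c1061 c1095 c234 c7615 c2115 (k2 c1300 c4290 (k1 c8715 k0)))) (by decide +kernel)
def c9724 : PP 8 4 T 0x2000000000000004500010002010000050800055500010154000104840100200 := rS 0xc5609ce2c3b298f450487291d6b4350345a625638e06a6f1b83c9e4b784657681 (k8 c4380 c1890 c4368 c4472 c4434 c4297 c4376 c232 (k8 c4378 c1059 c2114 c410 c280 c4280 c4298 c9723 (k8 c4423 c1706 c1585 c7717 c4212 c770 c363 c4247 (k4 c1142 c4471 c9122 c4420 (k2 c1095 c8821 k0))))) (by decide +kernel)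
def c9725 : PP 8 4 T 0x400000000000000000008000010002100000000000000000000000000000000000000 := rS 0x96 (k2 c1213 c8801 k0) (by decide +kernel)
def c9726 : PP 8 4 T 0x2000000000000000000000000000000050002054008000004000000000000000 := rS 0x88be3826af552950f8b44e4b27bc2325d4198482b14790d86ad89aed0237078d4100b039d97e6f0a801329c3c914382f3d96e126b (k8 c181 c4318 c92 c4270 c2753 c7712 c1220 c600 (k8 c960 c1072 c7783 c646 c4378 c7782 c961 c3004 (k8 c7784 c4462 c1059 c4376 c232 c4380 c1890 c4342 (k8 c2950 c9725 c4674 c2965 c3164 c4675 c9719 c640 (k8 c9720 c4368 c4472 c4297 c4434 c2874 c2917 c56 (k8 c2966 c9721 c1174 c9722 c2114 c4647 c1140 c9724 k0)))))) (by decide +kernel)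
def c9727 : PP 8 4 T 0x4000002000001000000004444000000080400050000055500444150050140800100000 := rS 0x17a3926ad686c6512853ec9 (k8 c4305 c1300 c2739 c2118 c8715 c4393 c1435 c412 (k2 c411 c8143 (k1 c2114 k0))) (by decide +kernel)
def c9728 : PP 8 4 T 0x10000000000000000000000000400000000000000000000020000000004400000000 := rS 0x4ad3 (k2 c4282 c285 (k1 c4467 k0)) (by decide +kernel)
def c9729 : PP 8 4 T 0x80000000000000001002002000000000011040000400000000055000055000000151400024420000200 := rS 0x69c55784d86a8c724b27b44a237078d57e6f (k8 c4378 c7782 c1059 c4376 c232 c4435 c4298 c4297 (k8 c4434 c1140 c778 c7315 c9728 c2114 c9686 c7558 (k1 c4470 k0))) (by decide +kernel)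
def c9730 : PP 8 4 T 0x2000000000000000000000000000000050002054008000000000000000000000 := rS 0x17c4453a530622af55a1d2c2815b156e55728ee2e3d1f0554e1f028b44e4b27945e1192ea0cc20020ac48a1c17a3c86c356c4d76811b83c6a0805a64d6073b2717e6f3d9e4b709 (k8 c4318 c92 c600 c4270 c4378 c7782 c960 c961 (k8 c3004 c181 c1072 c7784 c4462 c1059 c4376 c232 (k8 c4380 c1890 c4342 c2950 c9725 c4674 c2965 c2753 (k8 c7712 c1220 c3164 c4675 c7783 c9719 c640 c9720 (k8 c4368 c4472 c4435 c4297 c4434 c2874 c2917 c54 (k8 c56 c2911 c646 c9726 c145 c4356 c144 c4288 (k8 c8954 c3172 c1248 c288 c1180 c1179 c9141 c1572 (k8 c4631 c4336 c1892 c4785 c4179 c9729 c1296 c9727 k0)))))))) (by decide +kernel)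
def c9731 : PP 8 4 T 0x2084008000000000000000000000 := rS 0x18a3b1f8f5825357a58527588c1566080581c5a003c9ecb70968945e119209d88a1c1790d869935a715b13 (k8 c4342 c2950 c960 c181 c1072 c9725 c4674 c2753 (k8 c7712 c1220 c961 c4675 c4368 c4472 c4435 c4298 (k8 c4318 c92 c4270 c600 c7783 c2917 c3004 c7784 (k8 c4462 c3203 c4310 c4334 c592 c2743 c8996 c2988 (k4 c4179 c9704 c235 c1180 (k2 c1044 c1253 (k1 c2115 k0))))))) (by decide +kernel)
def c9732 : PP 8 4 T 0x10004000010000004000000802020000100150000100040000042 := rS 0x3147e3b1eb04a6aa578a8248788c4cd26b (k8 c181 c180 c4342 c4412 c1653 c490 c491 c1777 (k8 c701 c4179 c1892 c1679 c1640 c288 c1674 c2115 k0)) (by decide +kernel)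
def c9733 : PP 8 4 T 0x1000001000000000000000000000000050000055500001000000144800010000 := rS 0x28d8e0c07b4d3f0c (k8 c4477 c4384 c4372 c1327 c4463 c1447 c4241 c9121 k0) (by decide +kernel)
def c9734 : PP 8 4 T 0x2000808000000000000000000000 := rS 0x17abb1bafc6a4d52030722337c354eb14682016070289c00793d96e124b27bc232413b264d69c228705e43 (k8 c4674 c2753 c7712 c1220 c960 c181 c1072 c961 (k8 c4675 c4368 c4472 c4297 c4434 c4318 c92 c4270 (k8 c600 c7783 c2874 c54 c3004 c7784 c4462 c3091 (k8 c3164 c2911 c4382 c1377 c1296 c4647 c488 c699 (k4 c9728 c1059 c7782 c1408 (k2 c4658 c1938 (k1 c2114 k0))))))) (by decide +kernel)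
def c9735 : PP 8 4 T 0x50002004008000000000000000000000 := rS 0x9abf1bb190ab5640d5462367b349228728ae943e1eb04aa875baf4728b29c114291628ee2f1157c312cfd4682016272593c225d41985628f32b0e265168bc2322d001e4f65b84905326b03a4d38451787c38433b2b4be67 (k8 c9731 c9734 c2950 c961 c4674 c7712 c56 c2753 (k8 c1220 c960 c3092 c3004 c181 c1072 c4675 c4318 (k8 c92 c4270 c600 c7783 c2917 c4368 c4472 c4298 (k8 c4435 c4342 c9725 c9732 c2965 c3164 c9719 c640 (k8 c9720 c606 c4297 c4434 c2874 c7784 c4462 c3091 (k8 c9730 c9718 c4477 c4631 c4336 c4360 c1044 c1253 (k8 c4328 c4329 c4478 c4179 c5443 c1139 c1173 c1165 (k8 c4410 c4406 c1892 c234 c2115 c4494 c7615 c4288 (k8 c1180 c370 c4460 c4430 c9733 c778 c4610 c5857 (k4 c1705 c716 c8041 c403 (k2 c1094 c4248 (k1 c4252 k0)))))))))))) (by decide +kernel)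
def c9736 : PP 8 4 T 0x100000000000000000002400000000000000000004000000004000020000100410 := rS 0xe83a2a8f5cb17 (k4 c4419 c4402 c7860 c1598 (k2 c4471 c6888 (k1 c1575 k0))) (by decide +kernel)
def c9737 : PP 8 4 T 0x500000014500020000055500000000000104020110610 := rS 0x1181c70118d9a6291ac55683f1ca5c4a91880ad3f0c5cadd424951b1e0afd (k8 c4379 c4409 c1352 c1353 c1623 c1625 c1627 c1356 (k8 c4477 c6233 c4191 c4478 c4328 c4381 c4336 c1139 (k8 c1179 c2125 c4389 c7883 c9736 c8916 c4470 c1409 (k4 c233 c232 c4200 c3393 k0)))) (by decide +kernel)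
def c9738 : PP 8 4 T 0x20000000000000000000000000000000080000000000200 := rS 0x1c70 (k2 c233 c232 (k1 c3446 k0)) (by decide +kernel)
def c9739 : PP 8 4 T 0x140000000000000400800000000044150140000000008002 := rS 0x5f9350a35 (k4 c8690 c1495 c245 c1094 (k1 c2114 k0)) (by decide +kernel)
def c9740 : PP 8 4 T 0x10000000000000000000000560400000000000080000000000000150150000000014000 := rS 0x7137c51a7452612c9ef0 (k8 c4472 c4297 c4434 c2114 c4451 c4282 c4493 c8928 (k2 c4387 c7096 k0)) (by decide +kernel)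
def c9741 : PP 8 4 T 0x10000000000000000000000160400000000000080800000000000154150000000014400 := rS 0xf5ca72691b97cf0 (k8 c4472 c9740 c1093 c8928 c1460 c5695 c1615 c7514 k0) (by decide +kernel)
def c9742 : PP 8 4 T 0x10004020000000000000000900000000100154000000000000200 := rS 0x149c8c11ec5c76c5 (k8 c3098 c3056 c4361 c235 c1893 c4471 c2115 c4290 k0) (by decide +kernel)
def c9743 : PP 8 4 T 0x10000000000000000000004120400000001400080800000400000154100000000010602 := rS 0x1750c078d4e0741bb44a2f0 (k8 c4472 c4435 c4298 c9738 c9742 c594 c1304 c1415 (k2 c4135 c9741 (k1 c4847 k0))) (by decide +kernel)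
def c9744 : PP 8 4 T 0x1000000000000000004004000442051400085800000400000150000014020010402 := rS 0x23869306ebb50450deb95e8e5268d7846410074fad5663f (k8 c1179 c3203 c1434 c1393 c3004 c4462 c4368 c4472 (k8 c3091 c3092 c1139 c1173 c9743 c1459 c7468 c2125 (k4 c4390 c4386 c9686 c4329 (k2 c770 c9728 k0)))) (by decide +kernel)
def c9745 : PP 8 4 T 0x20002000000002000008000000000010000000000 := rS 0x724d5e88d524b27bc232bf538d4debb408dc1efc8697cba833080082b1228705e8f219ec100b3c96d326b8481cec9c (k8 c960 c961 c3004 c4318 c181 c1072 c92 c600 (k8 c7784 c4462 c4270 c4674 c2965 c2753 c7712 c1220 (k8 c3164 c4675 c7783 c9719 c640 c9720 c9734 c4328 (k8 c4477 c4376 c232 c4380 c1890 c1076 c3052 c2911 (k8 c1245 c4368 c4472 c4297 c4434 c7768 c770 c1174 (k2 c9722 c1140 (k1 c2114 k0))))))) (by decide +kernel)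
def c9746 : PP 8 4 T 0x400000002000000000000040000454102000080000000000000151150154000104000 := rS 0xc752d14a8bc728349a496908c964f23c362abf (k8 c1245 c4352 c4328 c1312 c4297 c4434 c769 c4470 (k8 c4209 c9728 c4371 c5695 c2114 c7517 c4454 c1938 (k2 c250 c4576 k0))) (by decide +kernel)
def c9747 : PP 8 4 T 0x100000000000000000000000000000000000000000000800000000000000140000 := rS 0xaae5 (k2 c4290 c9029 (k1 c4464 k0)) (by decide +kernel)
def c9748 : PP 8 4 T 0x4000000000000000002004008000000000010000000000 := rS 0x1094443d2d8853098ed8e38508dd760f40b047afc8b0d57f1586a414e9f67a2456a31fa5e21053f1f42a5f2ea0c22611381410b305a35628f4a99ccac389945a2f08c8b400793d96e12414c9ac0e934e1145e1f219d95a1c (k8 c7712 c2950 c961 c4674 c56 c2753 c1220 c960 (k8 c3092 c3004 c181 c1072 c4675 c4318 c92 c4270 (k8 c600 c7783 c2917 c4368 c4472 c4298 c4435 c4342 (k8 c9725 c9732 c9731 c2966 c2965 c3164 c3091 c7784 (k8 c3203 c4462 c54 c2874 c9719 c606 c640 c9720 (k8 c9734 c646 c9737 c9735 c4313 c4478 c4336 c1179 (k8 c4337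 c4191 c2042 c1522 c1393 c2911 c9744 c4328 (k8 c4352 c1245 c3052 c5095 c4477 c4416 c4420 c4380 (k8 c4376 c1890 c232 c9745 c9746 c410 c1141 c515 (k4 c9747 c2115 c4429 c1635 (k2 c8360 c4235 (k1 c4397 k0)))))))))))) (by decide +kernel)
def c9749 : PP 8 4 T 0x11001000000000000000020400000000000010084000000000000000000000000000000 := rS 0x2ee8a845ea1e96cf (k8 c1522 c4429 c1635 c1176 c4235 c4397 c1442 c4493 k0) (by decide +kernel)
def c9750 : PP 8 4 T 0x1000000000000000000011000000002010400080802051000800155010100000000402 := rS 0x70376334c181243955cb0949a34100727b44a2f08ca0c2b05 (k8 c4313 c646 c640 c4368 c4472 c4435 c4298 c4297 (k8 c3004 c4462 c3091 c3092 c4318 c4290 c9029 c1903 (k4 c9747 c7517 c7623 c515 (k2 c1408 c4470 (k1 c410 k0))))) (by decide +kernel)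
def c9751 : PP 8 4 T 0x4008000002010400084802051000000154000100000000402 := rS 0x6ed3060e4aae51d14d8ac11eafc6a758ac24100768945e11944b248e15 (k8 c646 c1312 c155 c2042 c4368 c4472 c4435 c4298 (k8 c3004 c4462 c4318 c4353 c1744 c3053 c3095 c235 (k8 c1893 c9749 c9750 c2115 c4403 c1601 c1142 c7517 (k2 c4371 c1408 (k1 c4470 k0))))) (by decide +kernel)
def c9752 : PP 8 4 T 0x2004008000000000000000000000 := rS 0x10c8a08c6a39378946ed3630302455728a16e3f4ba8e21053f1f42a674aa356608058144e112ea0cc2b147995871328b45e11916800f27b2dc2482993581d269c228bc3e1c219d95a5f (k8 c9734 c2950 c961 c4674 c7712 c56 c2753 c1220 (k8 c960 c3092 c3004 c181 c1072 c4675 c4318 c92 (k8 c4270 c600 c7783 c2917 c4368 c4472 c4298 c4435 (k8 c4342 c9725 c9732 c2965 c3164 c9719 c640 c9720 (k8 c606 c2874 c54 c7784 c4462 c3203 c3091 c2966 (k8 c9731 c646 c9737 c9735 c4313 c4478 c4337 c4336 (k8 c1179 c9751 c9748 c4402 c1598 c8448 c7517 c515 (k8 c4371 c1408 c1367 c3417 c410 c8718 c1449 c4470 (k2 c4467 c7318 k0))))))))) (by decide +kernel)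
def c9753 : PP 8 4 T 0x2000008000000000000000000000 := rS 0x5298ac11fab8a88b3aa5cc4c3001040f1922a652a433b1e4f69c0e0bd5a6b34c26265b (k8 c92 c4342 c4318 c180 c181 c2950 c2753 c7712 (k8 c960 c4270 c600 c961 c4674 c2966 c1072 c1220 (k8 c4368 c3004 c4675 c7783 c9725 c9752 c2715 c1688 (k8 c1769 c755 c964 c1179 c1893 c1096 c9706 c4428 k0)))) (by decide +kernel)
def c9754 : PP 8 4 T 0x4000000000000000000800008008000000000000000400002 := rS 0x685744d8ac1459d556992a0a12a6b849e5365b4e9b55a89499652eb3 (k8 c1191 c817 c63 c1609 c2042 c821 c9753 c1092 (k8 c92 c1889 c98 c4438 c492 c2710 c754 c755 (k8 c1072 c1613 c1688 c3701 c1893 c1096 c7130 c2127 (k2 c4479 c829 k0)))) (by decide +kernel)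
def c9755 : PP 8 4 T 0x1400000000011000000080000800a000000000010000000000 := rS 0x188cde22b0c3411487a59a15d13559ae12794d96d3a6d56a2526594bacd8275 (k8 c1688 c1893 c1191 c817 c63 c1609 c2042 c821 (k8 c9753 c1092 c92 c1889 c98 c4438 c1920 c1613 (k8 c7130 c2127 c4479 c4428 c1633 c829 c4151 c7179 (k4 c3704 c4298 c255 c300 (k1 c5815 k0))))) (by decide +kernel)
def c9756 : PP 8 4 T 0x1100000000000000000000080000000050000001000000000000000000000000000 := rS 0x10f4b (k2 c4428 c1633 (k1 c4485 k0)) (by decide +kernel)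
def c9757 : PP 8 4 T 0x15000008000054000000000008000500154400000000000000 := rS 0x1e459a311 (k4 c4415 c3555 c4487 c2115 (k1 c4416 k0)) (by decide +kernel)
def c9758 : PP 8 4 T 0x1400000000001000000080000800a000154000000000000000 := rS 0x3c46219100283e091e344374a43aad5e8b0e9a8d29836c260aad44a4cb29759b04ea53288ec0e290085c5a67 (k8 c150 c247 c1832 c9754 c1599 c1023 c1601 c1605 (k8 c9029 c1688 c1893 c1191 c817 c63 c1609 c2042 (k8 c821 c4407 c4438 c9753 c9755 c1881 c1072 c1031 (k8 c1769 c9756 c9757 c1924 c7770 c429 c4426 c2115 (k8 c235 c275 c4462 c4466 c308 c316 c4542 c6033 k0))))) (by decide +kernel)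
def c9759 : PP 8 4 T 0x400000000001000000080000800a000154000000000000000 := rS 0x1a0f043d2d883b3dc240e89 (k8 c2042 c1023 c4438 c182 c1601 c9758 c4429 c1635 (k2 c4530 c4151 (k1 c4298 k0))) (by decide +kernel)
def c9760 : PP 8 4 T 0x20000000001404000000800008000000000000000000000000 := rS 0x2ba248a (k4 c1096 c7718 c1768 c4346 k0) (by decide +kernel)
def c9761 : PP 8 4 T 0x400000000000000000004000090040000084080840400008000000000000000000000 := rS 0x242188d5ea968aa7479bd9884679761289a5aee30994d96d3a6d (k8 c9753 c1092 c92 c1889 c1072 c4488 c4449 c4427 (k8 c2042 c4438 c1457 c1522 c4235 c725 c1460 c800 (k8 c909 c4397 c1402 c2068 c1067 c5541 c7780 c4328 k0))) (by decide +kernel)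
def c9762 : PP 8 4 T 0x20000000002000000000011000044054500000000000000000001500150400000000 := rS 0x375b34c90a14889c8ec7 (k8 c4289 c4404 c4324 c4328 c4329 c4200 c5243 c2125 (k2 c322 c7094 k0)) (by decide +kernel)
def c9763 : PP 8 4 T 0x8010000001002000000000440400045555500040040001000010000000400001004818 := rS 0x81082a41afd5034ce2bd5bc5172b5 (k8 c4419 c4361 c4486 c4353 c4354 c4387 c4963 c2125 (k4 c7787 c568 c7768 c4463 (k2 c7051 c7052 k0))) (by decide +kernel)
def c9764 : PP 8 4 T 0x8000100001000000000000440400045554500040040001041010000400550601140858 := rS 0x3f5a649088344c364803e1a3d5cad5c839 (k8 c2319 c4464 c4419 c4361 c4416 c9762 c6403 c9763 (k8 c887 c886 c1408 c2267 c322 c4278 c7108 c4463 k0)) (by decide +kernel)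
def c9765 : PP 8 4 T 0x4000200040000009009000000000000600140908 := rS 0x1a493eb24220f3709cbc5d86964b62b23b1dc905 (k8 c4407 c4464 c4289 c4404 c1606 c92 c63 c4383 (k8 c1338 c1068 c7053 c1067 c6403 c343 c1729 c1379 (k2 c7307 c1290 (k1 c2107 k0)))) (by decide +kernel)
def c9766 : PP 8 4 T 0x20004000004044010000040840609009000150000500000000000 := rS 0x1206a2750c551c8d101344a390508c3e050107412c7238c834e41885432131d8a5e2070bc14563d8b2ed7f184cc4d8a9b2dab512932ca5d6679609d53a6d (k8 c9753 c1092 c1688 c1893 c98 c1191 c817 c63 (k8 c1609 c2042 c821 c92 c1889 c9760 c7130 c1072 (k8 c4488 c4369 c4449 c7153 c4416 c1606 c4407 c1832 (k8 c1023 c4298 c1761 c1763 c1759 c260 c455 c300 (k8 c4464 c9124 c7662 c4404 c4289 c424 c2810 c822 (k8 c431 c432 c2811 c4462 c2319 c2243 c2337 c4466 (k8 c9765 c9764 c4388 c2779 c2778 c1305 c2110 c4209 k0))))))) (by decide +kernel)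
def c9767 : PP 8 4 T 0x80000001008000800000000010000000000 := rS 0x62f10d0502705198b4d0ae (k8 c1768 c1769 c2818 c416 c4407 c1558 c9747 c718 (k2 c4292 c295 (k1 c5815 k0))) (by decide +kernel)
def c9768 : PP 8 4 T 0x400000000000000000000000000000000000000001000000000000004400008000000 := rS 0x62f1 (k2 c4292 c295 (k1 c4469 k0)) (by decide +kernel)
def c9769 : PP 8 4 T 0x10000000000008008000000000000000080040 := rS 0x143c65 (k4 c67 c4562 c530 c1066 k0) (by decide +kernel)
def c9770 : PP 8 4 T 0x100000000000010015000000000000000000040000000100155000000000140000 := rS 0xa63b (k2 c4158 c9747 (k1 c2115 k0)) (by decide +kernel)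
def c9771 : PP 8 4 T 0x4000000000010084000800008008000154000000000000000 := rS 0x330d14828d13f8f45a61518be2c9f571a0d673289960a010b954260789b15365b56a253a6d499652eb33cb04eaab (k8 c1612 c1688 c1893 c98 c1191 c817 c63 c1609 (k8 c9753 c1092 c2042 c821 c92 c1889 c9760 c7130 (k8 c1023 c9769 c9759 c1832 c9754 c4407 c67 c3532 (k8 c1770 c564 c1769 c1768 c3706 c7153 c7311 c2820 (k8 c2891 c2818 c4416 c9761 c9766 c9770 c719 c718 (k2 c416 c9768 k0)))))) (by decide +kernel)
def c9772 : PP 8 4 T 0x200800000800000008044000100000005401800 := rS 0x9a8142bf41e83089c0b86f8a96e12692cac5766a (k8 c1072 c3830 c3162 c63 c1881 c4438 c92 c4388 (k8 c1346 c800 c801 c7962 c2003 c305 c4377 c1498 (k2 c1421 c4248 (k1 c2108 k0)))) (by decide +kernel)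
def c9773 : PP 8 4 T 0x100000000000000100000100044054400040000000210000000000200200000000 := rS 0xb746a4542fd5cad62d11 (k8 c4332 c4487 c4419 c4361 c4377 c2792 c2790 c1338 (k2 c5279 c2125 k0)) (by decide +kernel)
def c9774 : PP 8 4 T 0x1000101000000000005115451100440054404040000000000000000000000200015000 := rS 0x2451a275e34996b7 (k8 c5279 c8863 c4463 c2129 c4278 c1120 c886 c7468 k0) (by decide +kernel)
def c9775 : PP 8 4 T 0x100000000000000005015451040405000402000000810000000000000000000000000 := rS 0x5bb2d7b42 (k4 c7116 c7646 c4425 c4424 (k1 c2129 k0)) (by decide +kernel)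
def c9776 : PP 8 4 T 0x1000005015555000000000001100800000000545000000000005415000 := rS 0x31da647a19319483 (k8 c2002 c2129 c2108 c4425 c1588 c4282 c412 c4473 k0) (by decide +kernel)
def c9777 : PP 8 4 T 0x400100000001000000115455104440054445140800000000145000000000205415000 := rS 0x652a61a7d41a41f88d8aaf19acf29d2a1289 (k8 c2042 c4438 c4485 c4456 c4430 c4460 c9776 c4354 (k8 c1120 c9774 c7468 c4306 c4379 c4328 c2981 c2124 (k1 c5517 k0))) (by decide +kernel)
def c9778 : PP 8 4 T 0x400100000000000000015455104440054445140800000000145000000001204610800 := rS 0x11b15488d84e0e728641ac9 (k8 c630 c650 c389 c4284 c9777 c2352 c304 c886 (k2 c4386 c1383 (k1 c7468 k0))) (by decide +kernel)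
def c9779 : PP 8 4 T 0x400100000000000000015400104044054445040800800010145000100201200610800 := rS 0x18ed32603d067da1ad9025d6494e950944a9d76e50c86c0ab95ac5a220d (k8 c650 c4332 c4487 c4419 c4361 c311 c558 c389 (k8 c4284 c3830 c3911 c2042 c4438 c4485 c4456 c630 (k8 c9773 c1923 c9778 c4424 c1627 c8144 c387 c2108 (k2 c4282 c412 (k1 c9550 k0))))) (by decide +kernel)
def c9780 : PP 8 4 T 0x4000000044010044040800008008144000000000200600800 := rS 0x6431cb81042a3c1a65899e59acfa52fd62a75d8643605352615f0584b04eac54e9b5569b2dab512391292572b58b4445802499652eb3 (k8 c1191 c817 c63 c1609 c798 c382 c4332 c4487 (k8 c4419 c4361 c2328 c2243 c2319 c2042 c821 c92 (k8 c1889 c1612 c9753 c1092 c9760 c1688 c1893 c4438 (k8 c4407 c9756 c2127 c1072 c311 c558 c389 c3830 (k8 c3911 c3162 c3071 c4485 c4430 c4460 c98 c7130 (k8 c67 c650 c9772 c9775 c9779 c9040 c2373 c9773 (k1 c631 k0))))))) (by decide +kernel)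
def c9781 : PP 8 4 T 0x1000000000000000000000001580000000000445000000000005405000 := rS 0x18ed32611e8611 (k4 c671 c4392 c1311 c2108 (k2 c4282 c412 (k1 c4473 k0))) (by decide +kernel)
def c9782 : PP 8 4 T 0x4000000044010044000800008009144000000000200600840 := rS 0xb748c558e373834c188d47a141e6f40a0cbb433f1942653a5394321b029a930af82c25827562a74daab4d96d5a891c92572b58b4445802499652eb3 (k8 c1191 c817 c63 c1609 c798 c382 c4332 c4487 (k8 c4419 c4361 c2328 c2319 c2042 c821 c92 c1889 (k8 c1612 c9753 c1092 c9760 c1688 c1893 c4438 c4407 (k8 c9756 c2127 c1072 c311 c558 c389 c4284 c4485 (k8 c4456 c9769 c67 c9780 c4392 c1457 c676 c1462 (k8 c1459 c1456 c7116 c800 c1067 c9781 c4371 c568 (k4 c1408 c1448 c4387 c887 (k2 c9550 c7468 k0)))))))) (by decide +kernel)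
def c9783 : PP 8 4 T 0x8001000000000000005015440000408000004000000808000000000000000000000000 := rS 0x106857eaf0bcb73e32d72b5 (k8 c4419 c4361 c3554 c1610 c3553 c1611 c2129 c4379 (k2 c1502 c549 (k1 c5529 k0))) (by decide +kernel)
def c9784 : PP 8 4 T 0x4000000000010044000800008009000004000000010600040 := rS 0x341e8142a0d927d2e1fa86a15127e2c512792e22f0248b0360211814401f0c82812e53299d9acf29d297ea75d9a930af82c25827562a4cb29d36aad365b4bacd5a89 (k8 c2042 c821 c1191 c817 c92 c1889 c1612 c9753 (k8 c1092 c63 c1609 c9760 c1688 c1893 c4438 c4407 (k8 c9756 c2127 c1072 c3830 c3911 c3071 c4485 c4456 (k8 c4430 c4460 c150 c67 c4284 c384 c7508 c389 (k8 c1065 c4466 c311 c2775 c798 c558 c382 c2328 (k8 c6033 c4332 c4434 c4297 c4435 c4487 c9783 c9782 (k8 c161 c4393 c819 c818 c1354 c1728 c8144 c7116 (k4 c1462 c1456 c1287 c9781 k0)))))))) (by decide +kernel)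
def c9785 : PP 8 4 T 0x400000010000000000008001000002000000000000000 := rS 0xe717 (k2 c4416 c1614 (k1 c7153 k0)) (by decide +kernel)
def c9786 : PP 8 4 T 0x4000000000000000000004000000000010000000800008008100154000000000000000 := rS 0xeda2e429d282a870e9a930af45aace5108485e0aad44a5d8a932ca74da9b2db04ea13038f4aab3 (k8 c1191 c9759 c9785 c1023 c9769 c1688 c1893 c92 (k8 c1889 c9753 c1092 c63 c1609 c9760 c817 c2042 (k8 c821 c4407 c1832 c4438 c4487 c7153 c4415 c1770 (k8 c9756 c2127 c1072 c1031 c1924 c9784 c7619 c9747 (k4 c4464 c4426 c4403 c2115 k0))))) (by decide +kernel)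
def c9787 : PP 8 4 T 0x1000001000000000000000001480000000000445000000000005405000 := rS 0x81 (k2 c1461 c9781 k0) (by decide +kernel)
def c9788 : PP 8 4 T 0x1000001100001000044050001400800808008445040000200201405800 := rS 0x230beb7509c522fc52b1c6ed3a293102112e9fd1f0982a4e26a758a60621b029647202 (k8 c798 c2319 c63 c311 c558 c316 c1920 c3162 (k8 c3911 c4442 c1609 c4407 c4438 c9772 c9787 c9773 (k8 c343 c1923 c2108 c4451 c4282 c324 c412 c1934 (k8 c4248 c887 c7095 c895 c9550 c7647 c7056 c1068 k0)))) (by decide +kernel)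
def c9789 : PP 8 4 T 0x8000000000000000000000000000040054000000000000040001000900000600042040 := rS 0x23d6e9146c5468c71b9c1a6b95ab941409 (k8 c1062 c4462 c4403 c4419 c4361 c4371 c568 c1408 (k8 c1448 c569 c4387 c1386 c887 c9550 c1305 c7468 k0)) (by decide +kernel)
def c9790 : PP 8 4 T 0x8000100000000000000100000100040054400000000000001000000000001200208800 := rS 0x11b1548adcfe3613bf572b5 (k8 c4419 c4361 c4376 c2352 c304 c1456 c5279 c886 (k2 c4386 c1383 (k1 c7468 k0))) (by decide +kernel)
def c9791 : PP 8 4 T 0x8000000000000000000000000000044050019000800808009400040800000200400040 := rS 0xa148add1a7f529b9fa8207a3c1a5b49ae56ab14c334466164aa87225050b092022593de01b02964321472c141213 (k8 c9769 c1062 c4407 c4403 c4464 c388 c63 c311 (k8 c558 c6033 c4297 c4434 c798 c2328 c382 c4462 (k8 c2243 c2319 c1924 c3657 c2885 c2775 c3837 c1920 (k8 c3162 c4419 c4361 c1609 c92 c9789 c9772 c9790 (k8 c9788 c4306 c2003 c3849 c676 c7476 c5279 c1076 (k2 c1741 c2125 k0)))))) (by decide +kernel)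
def c9792 : PP 8 4 T 0x8000000000000000000000000000004050019000800808009400040800000200400040 := rS 0x26035fa0f40845067d2e1f84f4351424cecd1180992aa2593de01b02964321472c141213 (k8 c9769 c1062 c4407 c4403 c4464 c388 c63 c311 (k8 c558 c6033 c4297 c4434 c1924 c3657 c798 c2775 (k8 c3837 c150 c4438 c9791 c4393 c2804 c819 c818 (k8 c1354 c8144 c342 c1461 c1456 c4377 c1287 c2108 (k1 c4248 k0))))) (by decide +kernel)
def c9793 : PP 8 4 T 0x8000000000000000000004000000004010008000800808009400040800000200400040 := rS 0x11c5d421952eb362a4cb29d4d96d82755cad55e8b0a394270544c24da6953aed7e9866c459eaa (k8 c1924 c3557 c4415 c3837 c1920 c3071 c3830 c3911 (k8 c69 c9753 c4438 c2042 c4407 c9769 c4403 c4464 (k8 c719 c9756 c4419 c4361 c1688 c1893 c92 c1889 (k8 c1092 c63 c1609 c9760 c1191 c817 c67 c9792 (k2 c1498 c9775 (k1 c800 k0)))))) (by decide +kernel)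
def c9794 : PP 8 4 T 0x8000000000000000000004000000000010000000800808009400054800000000000000 := rS 0x857eaf106b73e32d3ccf5533440860eafd76988485d8a9d36a6cb6c13aae56a1f49965161472c142607 (k8 c1023 c9769 c4407 c4403 c4464 c719 c63 c1609 (k8 c1101 c4419 c4361 c1688 c1893 c92 c1889 c9753 (k8 c1092 c9760 c1832 c4438 c1920 c3830 c3071 c1031 (k8 c9784 c4466 c3837 c1924 c3557 c9793 c3554 c1610 (k4 c3553 c2004 c2129 c4379 (k2 c1501 c5529 k0)))))) (by decide +kernel)
def c9795 : PP 8 4 T 0x8000000000000000000004000000000010000000800008009400054800000000000000 := rS 0x55a64d6af45851cb0982ab5129759b1526594e9b5365b609d42607 (k8 c1023 c9769 c1688 c1893 c92 c1889 c9753 c1092 (k8 c63 c1609 c9760 c1191 c817 c2042 c821 c4407 (k8 c4438 c4403 c4464 c719 c9756 c9794 c1072 c1613 (k1 c2127 k0)))) (by decide +kernel)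
def c9796 : PP 8 4 T 0x20004000000000010000000800008008000154000000000000000 := rS 0x22d0f4b84a260a55 (k8 c9759 c4407 c2042 c4438 c4426 c1630 c9771 c4485 k0) (by decide +kernel)
def c9797 : PP 8 4 T 0x4000000000010000000800008008500154000000000000000 := rS 0xe87b16689558a932ca74da9b3cb04eab3 (k8 c1191 c1688 c1893 c98 c805 c9753 c1092 c63 (k8 c1609 c9760 c9759 c9796 c9786 c9785 c2115 c9795 k0)) (by decide +kernel)
def c9798 : PP 8 4 T 0x800000000000000000015000010001044000001100000008000000000000000000000 := rS 0xab (k2 c4445 c7130 k0) (by decide +kernel)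
def c9799 : PP 8 4 T 0x4000000000110000000800008008500050000000000000000 := rS 0x738ba1e963e57115571835c2626ad44a5d66c13ab1536932ca74da79 (k8 c98 c9753 c1092 c63 c1609 c805 c9760 c1688 (k8 c1893 c1191 c817 c2042 c821 c9798 c4438 c1920 (k8 c4488 c1613 c4364 c2127 c9797 c4428 c1633 c4356 (k2 c7619 c7153 k0)))) (by decide +kernel)
def c9800 : PP 8 4 T 0x8000000000001500000000000444008000000004614000 := rS 0x9a0d6311c7619 (k4 c388 c144 c1586 c1162 (k2 c651 c412 (k1 c2108 k0))) (by decide +kernel)
def c9801 : PP 8 4 T 0x1000000000020000000000015000080000001445000010000004600000 := rS 0x301e814191cfc19 (k8 c388 c1086 c1315 c676 c1462 c1456 c9781 c651 k0) (by decide +kernel)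
def c9802 : PP 8 4 T 0x8000000000001400000000000444008000000004614000 := rS 0x3f41ad34011c703b (k8 c144 c1161 c1586 c9800 c4280 c651 c4380 c4463 k0) (by decide +kernel)
def c9803 : PP 8 4 T 0x400000002000000000000440100001400000200000000008000040040000000014000 := rS 0x23da40d5e9c5fa4b (k8 c4434 c4380 c1421 c1899 c1293 c4463 c801 c5504 k0) (by decide +kernel)
def c9804 : PP 8 4 T 0x100002000000000015000000000000000000080000000000151400000000100000 := rS 0x52098fda251 (k4 c4435 c4298 c1082 c1560 (k2 c2115 c9747 k0)) (by decide +kernel)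
def c9805 : PP 8 4 T 0x100002000000000115005500000000000010114000000000151400000000100020 := rS 0x98fcfd1639ae5a251 (k8 c4435 c4298 c4548 c9804 c4481 c2121 c4356 c2490 (k1 c9770 k0)) (by decide +kernel)
def c9806 : PP 8 4 T 0x2000002002000000000015015500000000000000104000000000151400000000100020 := rS 0x829f59271 (k4 c4387 c4305 c4379 c9531 (k1 c9805 k0)) (by decide +kernel)
def c9807 : PP 8 4 T 0x10000000000000000000004000000000210000000800000009400014001100001140010 := rS 0xe9c94b322290e6344b1582010b86da25178114866a (k8 c1072 c3829 c3070 c4472 c4435 c4298 c4292 c1832 (k8 c492 c3831 c3072 c2042 c9797 c1925 c2109 c7865 (k4 c4427 c9676 c4759 c4403 k0))) (by decide +kernel)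
def c9808 : PP 8 4 T 0x12000001000000000000004000000000211100010800000008000014041110000044818 := rS 0xa15ca4cc7168821e96524fa8cb855130401ad35a9c57ab747c2536794e9b51313349658abf4bb05e0450c90cd415 (k8 c382 c1072 c3829 c308 c3070 c4472 c3831 c1199 (k8 c3071 c3072 c63 c1881 c4443 c2042 c9753 c1092 (k8 c98 c805 c4438 c4388 c4353 c4354 c4387 c4389 (k8 c5504 c568 c4463 c342 c347 c9040 c934 c1339 (k8 c9807 c4456 c3835 c4712 c4494 c7770 c4413 c4361 (k2 c810 c2125 k0)))))) (by decide +kernel)
def c9809 : PP 8 4 T 0x11001001000000000000115540000000000054550020000000800150140000000014000 := rS 0x31da647248d198cb26b3d0b442593de0e55cad62d4b (k8 c4456 c4494 c4419 c4361 c4290 c4472 c4297 c4434 (k8 c4493 c4397 c4400 c4451 c4455 c2124 c2114 c372 (k4 c1317 c4373 c3422 c9020 k0))) (by decide +kernel)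
def c9810 : PP 8 4 T 0x10000001000000000000004000000000200000010904000008800010040100000010008 := rS 0x8e06a106abc649c22a8962a9d824b0d93c72311f8a43295439fe08130aa2ccae502954021746a0d22204083c14692c96cf7097811486bb352c57f134e9b53679 (k8 c98 c805 c9753 c1092 c4443 c3071 c3162 c1072 (k8 c3830 c3829 c3070 c4472 c4438 c182 c92 c63 (k8 c1881 c5528 c305 c9803 c5310 c887 c2003 c1067 (k8 c1832 c492 c9029 c55 c4290 c9676 c564 c382 (k8 c570 c9747 c4313 c3835 c803 c308 c2776 c2364 (k8 c2245 c2319 c4297 c4292 c4434 c3831 c3911 c3072 (k8 c2042 c9808 c4480 c586 c9809 c1039 c5529 c569 (k2 c7646 c9772 k0)))))))) (by decide +kernel)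
def c9811 : PP 8 4 T 0x10000000000000000000004000000000200000010904000008800010040100000010008 := rS 0x11547c35925d7e24566b133984ca052a8042ea3728ac406344a1cff0409828d2598996cf7094d9e53a6d0aae62d4b62b04d48d (k8 c1067 c1072 c3831 c3072 c4456 c4494 c4361 c382 (k8 c9753 c1092 c98 c805 c4438 c182 c92 c4443 (k8 c63 c1881 c5528 c570 c9747 c4313 c3835 c2042 (k8 c7770 c5310 c2244 c4290 c9384 c1832 c492 c9029 (k8 c55 c9676 c2885 c660 c3162 c1191 c887 c9810 (k4 c4377 c4305 c7315 c800 (k2 c9531 c4486 k0))))))) (by decide +kernel)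
def c9812 : PP 8 4 T 0x10000000000000000000004000000000200000010904000008800010000100000010008 := rS 0x17b4542204ba8f268362a3607a0c0e175fac54ebb2586c9ef0228e4320a34966265b3dc2536794e9b4866a (k8 c1072 c3829 c9753 c1092 c98 c805 c4438 c182 (k8 c92 c4443 c63 c1881 c5528 c308 c2319 c3070 (k8 c4472 c4297 c4292 c4434 c3830 c3911 c3162 c3071 (k8 c1832 c1023 c2003 c305 c9811 c4386 c1408 c324 (k4 c9772 c4628 c1923 c2108 (k2 c4397 c7646 (k1 c4493 k0))))))) (by decide +kernel)
def c9813 : PP 8 4 T 0x15000040055400000000000000000000080001000000000 := rS 0x11b15 (k2 c4386 c1383 (k1 c7468 k0)) (by decide +kernel)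
def c9814 : PP 8 4 T 0x10000000000000000000004000000000200000010900000008800010000100000010008 := rS 0x11b155e3481e3748add1e0d7e9b97e9753bc08a43128252aa3728ace68943a4e2031051a6265b3da6d3a6d1488212792cae56b16a5b15826a (k8 c1072 c3831 c3072 c4456 c4494 c4419 c4361 c63 (k8 c98 c4438 c5310 c2776 c9753 c1092 c805 c182 (k8 c92 c4443 c1881 c5528 c2245 c4712 c4413 c3835 (k8 c2042 c7619 c2244 c4290 c9384 c803 c231 c2243 (k8 c3829 c3070 c4472 c3911 c1199 c3071 c9812 c4378 (k8 c1290 c1346 c1077 c3076 c9813 c304 c4463 c5504 (k2 c4354 c1120 (k1 c7468 k0)))))))) (by decide +kernel)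
def c9815 : PP 8 4 T 0x10000000000000000000004000000000200000010900000008000010000100000020008 := rS 0x451228d86a3c6e5c133f41e0d0b92c364f781140a39188fc52200c90d2a13051a4b3132d9a8f7094d9e53a6d (k8 c9753 c1092 c98 c805 c4438 c182 c1072 c92 (k8 c4443 c63 c1881 c5528 c570 c803 c3829 c308 (k8 c5310 c2776 c2364 c2245 c2319 c55 c3070 c4472 (k8 c4297 c4292 c4434 c1832 c112 c113 c4300 c342 (k8 c9040 c2267 c9772 c4324 c7053 c2790 c4486 c9808 k0))))) (by decide +kernel)
def c9816 : PP 8 4 T 0x10000000000000000000004000000000200000010900000008000010000100000000008 := rS 0x4415e3ca5150a6110a81d8a97568bd8251781140a311f8ac52200c90d2a13051a4b3132d9a8f7094d9e53a6d (k8 c9753 c1092 c98 c805 c4438 c182 c1072 c92 (k8 c4443 c63 c1881 c5528 c570 c803 c3829 c308 (k8 c5310 c2776 c2244 c2364 c2245 c55 c3070 c4472 (k8 c4435 c3831 c1840 c2050 c1199 c3072 c1023 c382 (k8 c9815 c9814 c9807 c9706 c306 c4428 c7465 c7769 k0))))) (by decide +kernel)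
def c9817 : PP 8 4 T 0x2000000000004000000000210040000800000009400014000000001040008 := rS 0x550e634485c8a433506da251 (k8 c4435 c4298 c4292 c1072 c3829 c3070 c1832 c2042 (k4 c9797 c1925 c383 c2109 k0)) (by decide +kernel)
def c9818 : PP 8 4 T 0x10000000000000000000004000000000200000010900000008000010000000000000008 := rS 0x1574b2922caaaf888b02695568cde045188fc320a34966265b3dc2536794e9b4866a (k8 c1072 c3829 c9753 c1092 c98 c805 c4438 c182 (k8 c92 c4443 c63 c1881 c5528 c308 c2364 c2245 (k8 c3070 c4472 c4294 c2050 c803 c570 c9816 c4332 (k4 c982 c2249 c565 c9817 (k2 c4456 c1942 (k1 c4491 k0)))))) (by decide +kernel)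
def c9819 : PP 8 4 T 0x10000000000000000000004000000000200000010800000008000010000000000000008 := rS 0x941d44424535799694870aa4cab173a0a4122b1f8c414203dc24b69b3ca74da890bc4cd25962a5d5a2f6086da25178114866a (k8 c1072 c3829 c3070 c4472 c4435 c4298 c4292 c3831 (k8 c1840 c2050 c1199 c3072 c63 c1881 c4443 c1832 (k8 c2042 c9753 c1092 c98 c805 c92 c4438 c182 (k8 c5310 c5528 c2245 c2364 c2244 c231 c2776 c9818 (k8 c4417 c1687 c1657 c591 c1692 c4494 c7044 c4428 (k4 c4456 c7865 c7769 c571 (k2 c7061 c1576 k0))))))) (by decide +kernel)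
def c9820 : PP 8 4 T 0x1000000000000000000000000000000000000000000000008000000000004080012021 := rS 0x21a8d48a3cbc2507b4cb235 (k8 c3061 c63 c4371 c32 c1368 c528 c9056 c1154 (k2 c9120 c4382 (k1 c4486 k0))) (by decide +kernel)
def c9821 : PP 8 4 T 0x1010000000000000040000000000000001000000000000008000000010005000010020 := rS 0x46a3cb20f (k4 c264 c63 c9056 c9120 (k1 c4486 k0)) (by decide +kernel)
def c9822 : PP 8 4 T 0x20010000002000000080000000000400000400000000000000000000040000080000000 := rS 0x2457839 (k4 c4280 c5090 c1153 c6223 k0) (by decide +kernel)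
def c9823 : PP 8 4 T 0x20020000000000000000000000100000100400000000200000000000000000006020000 := rS 0x5eaa500855da6d3abf48a9d1aa5 (k8 c4385 c4383 c4330 c4328 c4369 c4368 c4448 c4449 (k4 c710 c349 c827 c1899 (k1 c2126 k0))) (by decide +kernel)
def c9824 : PP 8 4 T 0x4000000000000000000004204000080000400000000000000000000000000000000000 := rS 0x16b43 (k2 c4393 c1435 (k1 c8143 k0)) (by decide +kernel)
def c9825 : PP 8 4 T 0x20001000000001000000004000014001554000000001400001000000000000000100020 := rS 0x1043104cd06589ab98ac1 (k8 c4450 c4370 c2127 c4553 c1777 c4479 c530 c828 (k2 c4464 c4407 k0)) (by decide +kernel)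
def c9826 : PP 8 4 T 0x20021000000000000000004000000001540410000001400008800004400500000000220 := rS 0x19a485e324bafc08b4c30683ec4c8ec7098c0542988ab12695399fe2c875595696e553a353ea55db1436450aac5223d078941a5f (k8 c4382 c528 c4381 c264 c2188 c4328 c1147 c384 (k8 c4364 c424 c4370 c4449 c4385 c4384 c4383 c4330 (k8 c4290 c4456 c9029 c1943 c1903 c4471 c7517 c7619 (k8 c4418 c1069 c9825 c4338 c780 c4554 c4712 c531 (k8 c290 c1642 c4441 c7516 c4479 c1878 c7584 c9823 (k4 c4463 c4377 c4305 c7780 (k2 c2107 c2068 (k1 c373 k0)))))))) (by decide +kernel)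
def c9827 : PP 8 4 T 0x20000000000000000000004000000000000000000800000008400055400480004000020 := rS 0x32f12ab40c6514a9158ac1 (k8 c4450 c4370 c4364 c1694 c1645 c9797 c2115 c267 (k2 c4298 c260 (k1 c9124 k0))) (by decide +kernel)
def c9828 : PP 8 4 T 0x20000000002000000000004000000000000000000000000000400055400000000000000 := rS 0x51689158ac1 (k4 c4450 c4370 c4364 c4298 (k2 c4435 c2115 k0)) (by decide +kernel)
def c9829 : PP 8 4 T 0x20000000000000000000004000000000000000000800000008400055400400004000020 := rS 0x140606868861e255159158ac1 (k8 c4450 c4370 c4364 c9827 c266 c9828 c9124 c260 (k4 c269 c268 c2115 c3786 k0)) (by decide +kernel)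
def c9830 : PP 8 4 T 0x20021000000000000000004000000001540010000001400018800004400500000000220 := rS 0x206f07a384a5b69860d1131844452ac499cd0ec5a5a562c3d55955ca15 (k8 c384 c4290 c9029 c1943 c2188 c4471 c4418 c4456 (k8 c4370 c1903 c7619 c1069 c9825 c780 c4338 c4712 (k8 c4441 c4479 c1878 c7584 c92 c4381 c9826 c264 (k2 c1346 c9056 (k1 c345 k0))))) (by decide +kernel)
def c9831 : PP 8 4 T 0x10000000000000040000000000000000800000000000008000000010000000000220 := rS 0x8094df154896c4e37 (k8 c2187 c2309 c92 c130 c4388 c1346 c1423 c9821 (k1 c345 k0)) (by decide +kernel)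
def c9832 : PP 8 4 T 0x10000000000000040000000000000000400000000000000000000010004082020200 := rS 0x11546a447025 (k4 c2213 c344 c1154 c9120 (k2 c4348 c4486 k0)) (by decide +kernel)
def c9833 : PP 8 4 T 0x20010200000000000040000010420001500400400100000008004000000405080010000 := rS 0xce642a14a6f8a2f4448d07a9d22bb5f8106ab1 (k8 c3161 c3061 c1066 c4369 c4449 c1154 c4558 c264 (k8 c9120 c4467 c6223 c9821 c8928 c1301 c2126 c9531 (k2 c949 c1793 k0))) (by decide +kernel)
def c9834 : PP 8 4 T 0x20000000000000000000004000000000500000000801400008000004000000080000200 := rS 0x192c7078e08e4906890228f86b4c30833e9fcd1046592e264f098c0542988ab126955a9d4e7165ca1d5655a5b94a42f1b89c7a011a8ec09092ca743a430b905668916a5d76bf6286c8a15 (k8 c384 c4364 c424 c4370 c4369 c4449 c1193 c392 (k8 c2042 c1191 c1103 c1832 c277 c56 c1092 c1111 (k8 c4438 c1066 c3062 c3061 c750 c2188 c2309 c2187 (k8 c4819 c9829 c4290 c4456 c9029 c1943 c1903 c7514 (k8 c4471 c7619 c4417 c4419 c4418 c1069 c9825 c4338 (k8 c780 c4554 c4712 c531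 c2231 c4441 c3956 c3929 (k8 c9747 c4479 c4313 c4409 c3902 c1878 c7584 c9830 (k8 c9831 c9832 c9833 c1368 c2217 c1372 c8983 c2190 (k2 c410 c8024 (k1 c2107 k0)))))))))) (by decide +kernel)
def c9835 : PP 8 4 T 0x20001000002000000040000000000000000000000000000020000040040002000000218 := rS 0x115378e49a5d5d9ecf235 (k8 c3111 c4447 c4366 c4449 c1336 c2135 c2133 c1108 (k2 c9686 c4470 k0)) (by decide +kernel)
def c9836 : PP 8 4 T 0x1000000000015000000055500000000000000000000000140800000008 := rS 0x18ea24f97018a1 (k4 c2767 c793 c792 c1300 (k2 c2125 c3416 (k1 c4241 k0))) (by decide +kernel)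
def c9837 : PP 8 4 T 0x18000000001002000040004945000000000000001450000000012000010000004010200 := rS 0x381a7e7ea15110843d2cf68b62b4032ca2712e8a1363acc7ec1 (k8 c4420 c4288 c1185 c4289 c4401 c4399 c1323 c8901 (k8 c4599 c2183 c452 c1756 c5853 c1225 c4426 c1631 (k8 c4482 c9443 c4321 c8859 c2025 c1487 c4463 c1455 k0))) (by decide +kernel)
def c9838 : PP 8 4 T 0x1000000000012000000001002000040015400000000000000001444000020016000000000004010200 := rS 0x3f039108243d2cf68b680649cca0596c047109b1d663f (k8 c4288 c1185 c4289 c4401 c4387 c1106 c93 c84 (k8 c4599 c4474 c2183 c452 c5853 c1225 c4426 c1631 (k4 c8902 c9443 c9038 c2025 (k1 c1455 k0)))) (by decide +kernel)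
def c9839 : PP 8 4 T 0x1280000000100000000000041450000000000001050400002050a000001110004050200 := rS 0x1a2ad430accb052fb25000c44860f4830596c0a57179c4ce0219abd4aab (k8 c4445 c4444 c4346 c4340 c1106 c918 c4387 c8877 (k8 c63 c263 c93 c84 c1855 c8902 c1225 c682 (k8 c1875 c1874 c506 c1381 c9531 c9061 c4191 c9324 (k2 c4903 c1631 (k1 c2112 k0))))) (by decide +kernel)
def c9840 : PP 8 4 T 0x1000000000000000000000000000002000000020000000000000000000408 := rS 0xf65b (k2 c93 c183 (k1 c8880 k0)) (by decide +kernel)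
def c9841 : PP 8 4 T 0x1200000000100200000000041410000000000000050400002000a000001000004010200 := rS 0x340c8f5134182cb66d4e8bc04712984c5a5114acc7e7d (k8 c1623 c4288 c1185 c4402 c4405 c4286 c4401 c4290 (k8 c4387 c1106 c8877 c3249 c4993 c93 c84 c1855 (k4 c9839 c8902 c4469 c4055 (k1 c823 k0)))) (by decide +kernel)
def c9842 : PP 8 4 T 0x1000000000012000000001002000040005400000000000000000444000020016000000000004010200 := rS 0xc4651e4040b (k4 c84 c1106 c9840 c4599 (k2 c9838 c1757 k0)) (by decide +kernel)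
def c9843 : PP 8 4 T 0x1a000000001002000040004004100000000000000440000020012000001004004010200 := rS 0x68ab5162b329fa0ac92f83044a555abc66890c1e906a94293e884b5f96cda052baed7a715a94c262d288a4ce0103acc7e7905ae4eac13ea9c5e6f468940435 (k8 c3111 c1106 c2134 c9120 c1107 c8877 c4558 c1623 (k8 c4420 c4417 c4361 c84 c9840 c4288 c1185 c30 (k8 c486 c5084 c4402 c4405 c4286 c4401 c4290 c4389 (k8 c4387 c4354 c4390 c63 c263 c4993 c93 c9837 (k8 c9841 c9842 c4396 c4397 c4398 c4452 c8902 c1225 (k8 c682 c255 c5815 c5962 c5936 c2111 c793 c1296 (k8 c506 c9531 c2121 c9061 c4191 c724 c4903 c261 (k1 c2112 k0)))))))) (by decide +kernel)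
def c9844 : PP 8 4 T 0x100000002000000000000000000008040008000018020000000001000000000200 := rS 0xad55abda233449ad321836a745e02298b4a229598fc56052b99c0207 (k8 c30 c486 c5084 c63 c263 c4191 c4288 c1185 (k8 c4402 c4405 c4286 c4290 c1106 c8877 c3249 c4993 (k8 c1225 c3142 c561 c682 c255 c261 c1779 c1613 (k2 c4903 c2112 k0)))) (by decide +kernel)
def c9845 : PP 8 4 T 0x12000000001002000040000000000000000000000080000020000000000000000000200 := rS 0x170d6fc54c32240d118ccd2852726610be3da35066f1283c90c945ae4c49232c14b6351d8bc223d1b91d6e715a89cee1b2b9e416314e9348841218083c39 (k8 c4348 c1105 c1106 c2132 c3113 c4472 c378 c3249 (k8 c297 c84 c9840 c63 c2393 c8951 c352 c4389 (k8 c4387 c4353 c4404 c2130 c2131 c2302 c8877 c3112 (k8 c3111 c93 c4408 c1649 c1109 c1110 c3118 c1771 (k8 c1730 c7430 c243 c2134 c8928 c9038 c9120 c9844 (k8 c8902 c4482 c1133 c8901 c4321 c4437 c433 c1490 (k8 c1487 c4469 c4467 c6029 c4463 c4442 c8635 c4377 k0))))))) (by decide +kernel)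
def c9846 : PP 8 4 T 0x12000100001002000040000800000000000000000104000020000000000000000000200 := rS 0x488b0d476111b91d8eb35dadd7a715a9dc36573c82d863f269108243010787273 (k8 c9845 c4348 c1105 c1106 c2132 c3113 c4472 c378 (k8 c4288 c1209 c84 c9840 c63 c2393 c8951 c4389 (k8 c4387 c4354 c4353 c4390 c1185 c4289 c4404 c2130 (k4 c2302 c3112 c3111 c4481 (k2 c4559 c9837 k0))))) (by decide +kernel)
def c9847 : PP 8 4 T 0x10000000000002000000005000044000000000001200000020000001005400000000000 := rS 0x34456ada53152917298b4a229 (k8 c4402 c4405 c4286 c4290 c4417 c539 c1785 c4494 (k4 c861 c1694 c4426 c2112 k0)) (by decide +kernel)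
def c9848 : PP 8 4 T 0x12000000001002000040001800000000000000404104000020000000000000000000200 := rS 0x190ce5cb11127f822cd76b138d0d867340b349c4d3e8dd6e471a8fc223b5ab1c7a394586488412184d0a87841dc361e2b9e4040b (k8 c84 c1106 c9840 c63 c1105 c2393 c8951 c4482 (k8 c4440 c4321 c4401 c2132 c3113 c4472 c257 c5853 (k8 c4348 c2131 c4289 c4389 c3112 c2302 c4288 c3111 (k8 c4404 c4353 c2130 c8221 c378 c8901 c1479 c1360 (k8 c9845 c1209 c8226 c4387 c4350 c4390 c1185 c9846 (k4 c4313 c4314 c2123 c1255 (k2 c9063 c2121 (k1 c1793 k0)))))))) (by decide +kernel)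
def c9849 : PP 8 4 T 0x12000000001002000040001800000000000000404004000020000000000000000000200 := rS 0x12a3064d1558ad5aafa531528648b9d0425b178f4a62d288a576b15e9c44e31618fd4a9d409386a4d1ca2c32442090c2685841dc361e2b9e4040b (k8 c84 c1106 c9840 c63 c1105 c2393 c8951 c4482 (k8 c4321 c4401 c2132 c3113 c4472 c257 c5853 c4348 (k8 c378 c3111 c8901 c1360 c3249 c1404 c4288 c1209 (k8 c297 c352 c4387 c4354 c4350 c4390 c4402 c4405 (k8 c4286 c4290 c2131 c8877 c93 c231 c9848 c4417 (k8 c538 c539 c1785 c4494 c1776 c861 c1694 c1700 (k4 c4426 c9847 c8938 c435 (k1 c9120 k0)))))))) (by decide +kernel)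
def c9850 : PP 8 4 T 0x12000000001002000040001800000000000000004004000020000000000000000000200 := rS 0x111043aaad5e334ca344a5f4121d17080c8bc265114acd6271139dc36573c82c629d61910824339d14fa375b91c6a3f088ed6ac71e8083c39 (k8 c4348 c1105 c1106 c2131 c4289 c4389 c3112 c2302 (k8 c4288 c3111 c4404 c4353 c2130 c8221 c4399 c9845 (k8 c2132 c3113 c4472 c1209 c3249 c297 c84 c9840 (k8 c63 c2393 c8951 c352 c4387 c4350 c1185 c4402 (k8 c4405 c4401 c8877 c257 c4482 c5853 c4440 c9849 (k8 c6467 c225 c9120 c1133 c433 c5815 c5962 c9847 (k2 c9846 c8512 (k1 c4314 k0)))))))) (by decide +kernel)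
def c9851 : PP 8 4 T 0x12000000001002000040001800000000000000000004000020000000000000000000200 := rS 0xad688ae94555c2ad5f04248ccea183d1b45e3d1b94c8e2d288a56eb518a75863f25b349c352691082430107872c7 (k8 c4289 c4348 c1105 c1106 c2132 c3113 c4472 c378 (k8 c3111 c8901 c1479 c1323 c4288 c1209 c3249 c297 (k8 c4389 c4353 c4402 c4405 c4286 c4404 c4290 c2130 (k8 c2131 c8877 c4993 c9850 c1225 c709 c255 c2183 (k8 c9846 c5815 c5962 c4034 c4406 c8268 c226 c260 (k2 c4458 c2112 k0)))))) (by decide +kernel)
def c9852 : PP 8 4 T 0x40000000000000000000000008000020000000010004000000010 := rS 0x90b88c (k4 c1107 c1108 c9120 c1336 k0) (by decide +kernel)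
def c9853 : PP 8 4 T 0x400000000000000000001002000010000000050104000000000000000000001000001402000000000 := rS 0x1562b518ce1a531694452c7 (k8 c4289 c4402 c4405 c4286 c4290 c4381 c435 c1463 (k2 c5588 c5962 (k1 c2112 k0))) (by decide +kernel)
def c9854 : PP 8 4 T 0x12000000001002000040000800000000000000000004000020000000000000000000200 := rS 0x4ac4454ab19a651a254fae092af68ab5804e4b8bc6e53238b4a23f14b1d6eb5a18ec7a27189348841218083c3952a749635 (k8 c3111 c1323 c3249 c1404 c4348 c1105 c1106 c2132 (k8 c3113 c4472 c378 c297 c352 c2131 c3112 c8226 (k8 c4389 c4353 c4289 c4402 c4288 c4405 c4286 c4404 (k8 c4290 c2130 c8877 c3206 c8901 c9851 c1987 c1710 (k8 c1715 c452 c4034 c1396 c9853 c9120 c1133 c433 (k4 c5962 c2112 c4411 c1694 (k1 c6781 k0))))))) (by decide +kernel)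
def c9855 : PP 8 4 T 0x4000000001002000000002000040000040000000000000000000001005400000000000 := rS 0x256222a49aaca62d288a55ad1 (k8 c1710 c1987 c4402 c4405 c4286 c4290 c5962 c1660 (k4 c2112 c4411 c1694 c4487 k0)) (by decide +kernel)
def c9856 : PP 8 4 T 0x10000000000002000080000000000001000000001401000000000000009400004000000 := rS 0x1093da18d313 (k4 c4340 c823 c9101 c4055 (k2 c4440 c4482 k0)) (by decide +kernel)
def c9857 : PP 8 4 T 0x12000000001002000000000800000000000000000004000020000000000000000000200 := rS 0x294ac66b450818418ac2f097e98caa688221ceac155abc667f39ae22e4969204da97028bc7a372991c5a5114b1d66395b9c56a770d95cf20b18a7586442090c041e1fd149635 (k8 c3111 c1323 c4399 c4288 c1105 c1106 c2132 c3113 (k8 c4472 c1209 c3249 c297 c84 c9840 c63 c2393 (k8 c8951 c4389 c4387 c4353 c4348 c1185 c4289 c4402 (k8 c4405 c4286 c4404 c4290 c2130 c2131 c8877 c263 (k8 c3206 c4993 c1363 c9854 c4281 c4963 c4034 c3118 (k8 c7096 c9856 c5815 c5962 c9855 c9847 c7043 c4481 (k8 c6832 c4406 c4407 c4961 c4437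 c7300 c226 c6833 (k4 c4465 c4484 c260 c1481 (k2 c7083 c8268 (k1 c4458 k0)))))))))) (by decide +kernel)
def c9858 : PP 8 4 T 0x12000000001002000000000800000000000000000000000020000000000000000000200 := rS 0x1a210873db04327357c4970338b9244ad22e1b8966d1aa5c0a2f1e8dc8e5114b1d663f5bad44e393b86cae79058c48841218083c9d (k8 c3249 c1105 c1106 c2132 c3113 c4472 c297 c84 (k8 c9840 c63 c2393 c8951 c4348 c352 c4389 c4353 (k8 c4288 c1185 c4289 c4402 c4405 c4404 c2130 c2131 (k8 c8877 c263 c3206 c3111 c4993 c1323 c9857 c1108 (k8 c9852 c1336 c4281 c4963 c9856 c4034 c4469 c5815 (k8 c3118 c7642 c9855 c1225 c7043 c4482 c6832 c4437 k0)))))) (by decide +kernel)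
def c9859 : PP 8 4 T 0x2000000000002000080001400404000000000000100000020000201004400000000018 := rS 0x15ab5a2632a9a2950443b14e6b88b9249653238b4a229638e46eb75ac65863f (k8 c4288 c1209 c4364 c4389 c4353 c4386 c4348 c4289 (k8 c4402 c4405 c4286 c4404 c4290 c4375 c4281 c4963 (k8 c4034 c3118 c1254 c7043 c4481 c4494 c6832 c4406 (k4 c4407 c4426 c4458 c226 (k1 c7083 k0))))) (by decide +kernel)
def c9860 : PP 8 4 T 0x6000000000002000040001400044000000000000144000000000201015400000000208 := rS 0x15ad1a531456b82ac10a6471d8b4a229638de32c3598fc2239 (k8 c4348 c344 c4288 c1185 c1209 c4364 c4386 c4289 (k8 c4402 c4405 c4286 c4403 c4404 c4290 c4481 c4406 (k4 c8466 c226 c1254 c4494 (k2 c4426 c4458 (k1 c2112 k0))))) (by decide +kernel)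
def c9861 : PP 8 4 T 0x2000000001002000000001000000000000000000000000020000201005400000000200 := rS 0x92b98b1ccded33a86c0abf3b9e404352b91c76b11badd6aaf14aaca26b4cc65864d138793b12598fc2239 (k8 c4348 c344 c4288 c1185 c4469 c4344 c6169 c352 (k8 c378 c1209 c4364 c4443 c4442 c4405 c5962 c4402 (k8 c5815 c4389 c4353 c4386 c4350 c4403 c4404 c63 (k8 c3111 c1106 c540 c1111 c9858 c263 c2393 c9847 (k4 c9859 c9852 c9845 c9860 (k2 c4361 c9843 (k1 c7430 k0))))))) (by decide +kernel)
def c9862 : PP 8 4 T 0x8000000000000000000801400400000000044045440000000000000000000000000000 := rS 0x112c5 (k2 c1757 c2025 (k1 c9460 k0)) (by decide +kernel)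
def c9863 : PP 8 4 T 0x2000000000000800000000000000040000000000000000001500001100500000000000004000014000 := rS 0x1afd3029cd6a5 (k4 c4444 c4442 c4453 c9368 (k2 c4130 c503 (k1 c4463 k0))) (by decide +kernel)
def c9864 : PP 8 4 T 0x1000000000000000000000000000002000000000000040009000080000010 := rS 0xc026a2d1b5309d (k8 c1233 c433 c601 c1929 c1928 c950 c6117 c4461 k0) (by decide +kernel)
def c9865 : PP 8 4 T 0x1000000000000400000000000000040000000001400800001500001500100000000010005000000008 := rS 0x294c28d (k4 c9120 c878 c1971 c8517 k0) (by decide +kernel)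
def c9866 : PP 8 4 T 0x40000000000200900000000000000000000000050000200000000 := rS 0x8a8e5748f (k4 c1430 c1970 c361 c4390 (k1 c4470 k0)) (by decide +kernel)
def c9867 : PP 8 4 T 0x40000000000000000000000000000880000000050000040000000 := rS 0x1cc551870 (k4 c576 c577 c4387 c1113 (k1 c4470 k0)) (by decide +kernel)
def c9868 : PP 8 4 T 0x4000800002000000000040000200 := rS 0x75822e62c654ba46226750450549f64890c63913acd26004a8711a291095846b12d814b20b1ab4c6f0d (k8 c4382 c2146 c4281 c1059 c84 c1105 c262 c9867 (k8 c544 c1296 c4476 c231 c1721 c1067 c4466 c762 (k8 c1058 c3050 c3197 c873 c4647 c754 c489 c2435 (k8 c1663 c7307 c4470 c283 c659 c4411 c4352 c898 (k4 c1736 c4487 c6781 c4478 (k2 c4417 c9531 k0)))))) (by decide +kernel)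
def c9869 : PP 8 4 T 0x840002000000004080000210 := rS 0xcb0242b88da70d (k8 c4382 c4281 c1296 c1066 c4467 c4476 c2134 c1106 k0) (by decide +kernel)
def c9870 : PP 8 4 T 0x100000000000000000000000020000000000000000000000000000001800140020 := rS 0x72954502b (k4 c1735 c770 c266 c4402 (k1 c4464 k0)) (by decide +kernel)
def c9871 : PP 8 4 T 0x10000810000000000040000204000001500000000000005540000 := rS 0x44a1d8677 (k4 c1093 c1215 c1693 c597 (k1 c2109 k0)) (by decide +kernel)
def c9872 : PP 8 4 T 0x4002420040000201100000000004000040080000000 := rS 0x21d12ae601dd861d (k8 c56 c3224 c1092 c973 c972 c597 c1693 c7742 k0) (by decide +kernel)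
def c9873 : PP 8 4 T 0x400000000002010000000000000040000005401504000100000005508118000045510101080140020 := rS 0x13088f1892f93ae44a0ae2f103a28546ab45a4e0a915da3d2e994d93c4427 (k8 c352 c4467 c1489 c804 c1072 c1193 c4388 c4390 (k8 c1153 c4407 c1609 c1769 c1613 c818 c9870 c7050 (k8 c4489 c4417 c3619 c1688 c4471 c9872 c7247 c4566 (k4 c4498 c6330 c8901 c378 k0)))) (by decide +kernel)
def c9874 : PP 8 4 T 0x10800400000000020000200000000002000000000000000000 := rS 0x105e23f26340863967309834b8baf4a6cd (k8 c1486 c373 c194 c4417 c4457 c1985 c597 c4572 (k8 c3227 c2054 c1790 c1791 c370 c4298 c1994 c5917 k0)) (by decide +kernel)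
def c9875 : PP 8 4 T 0x1000000000000800000000000000000000000000020040100000000000000 := rS 0x2091632bd (k4 c194 c4369 c378 c1994 (k1 c4472 k0)) (by decide +kernel)
def c9876 : PP 8 4 T 0x2000000000000000000000000054000200000008400000000080001100100 := rS 0x4caa010d85da251 (k8 c4435 c4298 c4431 c4292 c751 c1687 c1639 c2109 k0) (by decide +kernel)
def c9877 : PP 8 4 T 0x2000000000000000054000000054000200020008400002001110041100000 := rS 0x19500e080e0a8422f19b44a2962cc5d265b (k8 c92 c1657 c4417 c63 c7044 c4435 c4298 c4294 (k8 c4432 c926 c2112 c4466 c9876 c30 c234 c791 (k1 c1647 k0))) (by decide +kernel)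
def c9878 : PP 8 4 T 0x2000000000000000054000000054000200020008400006401010041000000 := rS 0x1205155ca2c0d85da25133a4cb615 (k8 c591 c92 c1657 c592 c4435 c4298 c4431 c4292 (k4 c9877 c4286 c247 c7859 (k2 c2109 c571 k0))) (by decide +kernel)
def c9879 : PP 8 4 T 0x10000000000000000000000000000000000000004000020008000052000000042000000 := rS 0x7026081081c1676 (k8 c4540 c308 c1023 c799 c4462 c1679 c4466 c1058 (k1 c490 k0)) (by decide +kernel)
def c9880 : PP 8 4 T 0x2000000004001800004000000044000200504008400044400000000000000 := rS 0x26550380c6019320a43ead578f295190d85c824568944da953dc5cce5b0aa2586c5 (k8 c1784 c1216 c597 c591 c92 c592 c4417 c1227 (k8 c802 c9753 c4435 c4298 c4296 c4433 c4431 c4292 (k8 c4369 c4572 c2115 c4428 c4458 c275 c1680 c2120 (k4 c9879 c9878 c228 c1018 (k2 c1647 c1679 (k1 c2109 k0)))))) (by decide +kernel)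
def c9881 : PP 8 4 T 0x2000000000000000054000000054000200404008400004002000001000000 := rS 0x1e04876554b394c9080d85da2512c9b62e674996c2b13169a40e03 (k8 c228 c1018 c1878 c396 c4441 c591 c92 c1657 (k8 c592 c4417 c9753 c63 c4435 c4298 c4431 c4292 (k8 c4479 c2120 c5681 c7044 c1647 c1044 c2109 c4471 (k1 c1679 k0)))) (by decide +kernel)
def c9882 : PP 8 4 T 0x2000000000000000054000000054000200004008400004002010001000000 := rS 0x4caa04009a83617689442a03 (k8 c228 c591 c4435 c4298 c4431 c4292 c9881 c492 (k4 c4461 c267 c531 c2109 k0)) (by decide +kernel)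
def c9883 : PP 8 4 T 0x2000000000000000054000000054000200000008400004002010001000000 := rS 0x2150560109988061b0bb44a215 (k8 c591 c4435 c4298 c4431 c4292 c228 c9882 c1559 (k4 c754 c3619 c2109 c4461 (k1 c266 k0))) (by decide +kernel)
def c9884 : PP 8 4 T 0x2000000000000000054000000054000200008008400004001000001000000 := rS 0xf0105503b94160114085282b1d8b52e1b1785c66d128acce71733a4cb615 (k8 c591 c92 c1657 c592 c4417 c96 c153 c4435 (k8 c4298 c4294 c4431 c4432 c4292 c817 c815 c3520 (k8 c3619 c1688 c4542 c2112 c2710 c7682 c4402 c8134 (k4 c1599 c4462 c4471 c234 k0)))) (by decide +kernel)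
def c9885 : PP 8 4 T 0x2000000000000000054000000054000200004008000004000020000080000 := rS 0x1402654b80cb26d8b99d265b (k8 c92 c1657 c592 c4417 c9753 c63 c794 c777 (k4 c7044 c8142 c530 c4461 k0)) (by decide +kernel)
def c9886 : PP 8 4 T 0x80000000200000000000001000000040000008 := rS 0x700e21 (k4 c927 c499 c4466 c791 k0) (by decide +kernel)
def c9887 : PP 8 4 T 0x2000000000000000054000014000000200000000400004001010040080001 := rS 0x2c763c4b4445802158bc66d128c5dca05 (k8 c531 c4401 c4417 c4435 c4298 c4294 c4432 c1639 (k8 c4461 c2112 c7769 c4487 c9886 c89 c571 c7859 k0)) (by decide +kernel)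
def c9888 : PP 8 4 T 0x2000000000000000054000000054000200000008400004001000001080000 := rS 0xec7a64040b4001f028a5ca6d39c5cce932d8552a63 (k8 c9884 c802 c591 c92 c1657 c592 c4417 c96 (k8 c9753 c4401 c9885 c531 c1066 c9887 c2917 c751 (k4 c8142 c9877 c1061 c4471 k0))) (by decide +kernel)
def c9889 : PP 8 4 T 0x2000000000000000054000000054000200000008400004001000001000000 := rS 0x651507c782d148160a541d84cc61b1785c66d12899cb615 (k8 c591 c92 c592 c4435 c4298 c4294 c4431 c4432 (k8 c4292 c9884 c9888 c1574 c2109 c4406 c267 c1598 (k4 c247 c1686 c1066 c2112 (k2 c9878 c4191 k0)))) (by decide +kernel)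
def c9890 : PP 8 4 T 0x2000000000000000054000000054000200000008400004000000001000000 := rS 0x18c24551400c601b0bb44a215 (k8 c591 c4435 c4298 c4431 c4292 c9889 c228 c9883 (k4 c3616 c2109 c1559 c9885 k0)) (by decide +kernel)
def c9891 : PP 8 4 T 0x2000000040000440000000000000000000000000010040150000000000000 := rS 0x228bc2593c8245 (k4 c4296 c4433 c4297 c4434 (k2 c2114 c4470 (k1 c4354 k0))) (by decide +kernel)
def c9892 : PP 8 4 T 0x200002002000000000440000044000000000000254009010040042140082140020 := rS 0x88905e86b24bafc47834de0f8a8e0c21153964026d23b1da6273f9f46ab1 (k8 c3161 c3061 c4409 c4313 c2311 c5695 c4289 c4404 (k8 c9753 c9671 c63 c2006 c348 c884 c9891 c4348 (k8 c2190 c1074 c9820 c9056 c4463 c4628 c4305 c7315 (k4 c4520 c2107 c7307 c1295 k0)))) (by decide +kernel)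
def c9893 : PP 8 4 T 0x1000200000002000040000000000044000000000004011408000000000040080004020 := rS 0x1711e112c8b4ce155889c100d (k8 c528 c1065 c2309 c3161 c4284 c654 c4286 c63 (k4 c345 c9056 c4520 c4628 k0)) (by decide +kernel)
def c9894 : PP 8 4 T 0x20400200002002000000000000000444000000000000600008020000200040080000020 := rS 0x2d51e6e50a44be253096da665499652f17a283d4a275bb35843d1d94c8243044551ab91f9f52a63 (k8 c4407 c802 c4409 c4288 c1201 c3064 c4348 c1065 (k8 c2189 c4433 c4290 c4403 c2188 c9828 c2062 c1168 (k8 c2309 c1935 c2192 c4451 c9283 c1193 c63 c3069 (k8 c7044 c5695 c92 c884 c285 c7137 c1154 c7717 (k4 c9893 c1346 c1347 c2125 k0))))) (by decide +kernel)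
def c9895 : PP 8 4 T 0x20000000002002000000000000000000000040000200000008020000200000080000020 := rS 0xc830834228f408921aa615a7d471056c4d5e7d419ac60688206036172891c261563b4c02031a89d368759aad2e0f24b2da34b610ec8243a2b34a67f5c8fe12551e8211279 (k8 c4447 c596 c1065 c2188 c1686 c5422 c4288 c1201 (k8 c595 c4290 c2062 c4451 c2189 c4433 c4403 c9828 (k8 c4459 c4298 c2029 c4573 c2192 c1193 c1947 c3200 (k8 c1907 c4448 c2309 c3061 c55 c54 c5695 c4289 (k8 c4284 c4401 c4404 c4435 c4431 c4292 c2109 c4485 (k8 c269 c268 c1919 c1999 c4409 c829 c4441 c2046 (k8 c4491 c4337 c4414 c4411 c9894 c4330 c2007 c3808 (k4 c852 c9832 c1368 c885 (k2 c2107 c7484 k0))))))))) (by decide +kernel)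
def c9896 : PP 8 4 T 0x200200002002000000000000000000000080000000000008020000200040080000020 := rS 0xc830834224947a04490d65a9984c58c20d3618182bd326835c4d5a9f32a8c362f0b8cca247098b42a2963b4c02212c8d52e9d2289c8608a283d723f84a1d134b559b5827b2ab44fecd299f52a63 (k8 c4407 c802 c4409 c4290 c2062 c725 c4298 c1766 (k8 c3243 c1713 c9753 c1673 c4427 c187 c186 c4322 (k8 c4288 c1201 c2192 c4451 c1065 c2189 c2309 c4296 (k8 c1232 c1193 c3061 c63 c311 c54 c5695 c4289 (k8 c4402 c4284 c4286 c4401 c4404 c4435 c4294 c4431 (k8 c4432 c4292 c4337 c4412 c4414 c4338 c4498 c564 (k8 c7856 c1072 c828 c2112 c1878 c1966 c3902 c5554 (k8 c7519 c7223 c9894 c2029 c4330 c2007 c3808 c852 (k4 c4573 c9832 c1368 c885 (k2 c2107 c7484 k0)))))))))) (by decide +kernel)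
def c9897 : PP 8 4 T 0x200002002000000000000000000000080000000000008020000200040080000020 := rS 0x3b312327561c5a22954998ce64122b44a2531da5c7e3d21821827b (k8 c3243 c1713 c1065 c2189 c2188 c4288 c1193 c4403 (k8 c4290 c4435 c4298 c4296 c4433 c4408 c4407 c1069 (k8 c802 c9896 c4487 c4362 c4417 c4982 c2115 c4632 (k1 c1095 k0)))) (by decide +kernel)
def c9898 : PP 8 4 T 0x2002000000020200000000000080000000000008020000200000080000020 := rS 0x3201a8308924dece0b91c261563b4c0227a2aec860807c557e452ab44fecd299f502b1 (k8 c3161 c1899 c1773 c4290 c2062 c725 c4298 c1766 (k8 c4296 c1240 c4348 c2192 c1065 c2189 c1974 c4451 (k8 c2309 c54 c5695 c4289 c4284 c4401 c4404 c4431 (k8 c8360 c3081 c1790 c345 c4570 c9820 c2107 c1793 k0)))) (by decide +kernel)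
def c9899 : PP 8 4 T 0x10100000002002000000000000000000000080000000000008020000200000080000020 := rS 0x22699571acc4654a45d26c2399d98abc20b44a2592d9b4a63b4b8fc7b455d90c11155f915827b (k8 c3243 c1713 c4296 c1240 c4348 c1065 c2189 c1974 (k8 c4451 c2188 c4288 c1193 c4403 c4290 c9753 c92 (k8 c63 c4435 c4298 c4433 c4493 c9898 c7804 c1770 (k8 c2115 c1069 c4362 c4487 c7044 c802 c564 c1768 (k2 c1072 c4346 (k1 c4703 k0)))))) (by decide +kernel)
def c9900 : PP 8 4 T 0x1000100000000000040000000000000000000040000000009001000000000080154020 := rS 0xfc068044e08 (k4 c1065 c2309 c54 c9820 (k2 c4463 c7126 k0)) (by decide +kernel)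
def c9901 : PP 8 4 T 0x1000000002002000000000000000000000080100000008008021000000000080000020 := rS 0x29d042542bf420688286c5e130ab4c4e08a283e1255689fd9a53 (k8 c4290 c2062 c725 c4298 c1766 c4322 c2192 c4451 (k8 c1065 c2309 c5695 c4284 c4401 c4432 c4292 c4407 (k8 c1769 c9900 c4300 c710 c2211 c4484 c4558 c2000 k0))) (by decide +kernel)
def c9902 : PP 8 4 T 0x20000000002002000000000000000000000080100000000008020000200000080000020 := rS 0x601957840d105898ad5b104a98c362f0b8cca2131685452d307c550e89559b4aa7f32a4cb2978b92596c21e8ec8243042e47ed1a5d159a53 (k8 c4290 c2062 c4451 c4427 c4298 c4288 c1201 c1065 (k8 c2189 c4433 c4403 c2188 c9828 c2029 c4573 c9283 (k8 c1193 c63 c3069 c7044 c725 c1766 c9753 c1673 (k8 c187 c186 c4348 c2192 c5695 c4402 c4284 c4286 (k8 c4401 c4435 c4294 c4431 c4432 c4292 c9901 c802 (k8 c4487 c4338 c4411 c4498 c9897 c7856 c9900 c828 (k2 c349 c2112 (k1 c1878 k0)))))))) (by decide +kernel)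
def c9903 : PP 8 4 T 0x20000000002002000000000000000000000080000000000008020000200000080000020 := rS 0x861a11e18081c500993599526c28b86c8259298eda63558a5c7e3d13aec8608 (k8 c1065 c2189 c1974 c2309 c2188 c4288 c1193 c3161 (k8 c3061 c5695 c4403 c4290 c63 c4433 c4292 c9283 (k8 c9828 c3069 c7044 c564 c1072 c9902 c1421 c1895 (k4 c1894 c801 c269 c9832 (k1 c9823 k0))))) (by decide +kernel)
def c9904 : PP 8 4 T 0x2002000000000000000000000080000000000008020000200000080000020 := rS 0x4c1aced1332b1620bc8c96cda2d3dd157643044557e45 (k8 c4296 c1240 c4348 c1065 c2189 c1974 c4451 c3243 (k8 c4286 c9753 c92 c9903 c4493 c9899 c9898 c4412 (k4 c4498 c7804 c564 c4703 (k1 c1072 k0)))) (by decide +kernel)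
def c9905 : PP 8 4 T 0x200000000800000000000000008000000000000000000000 := rS 0xf068 (k2 c804 c805 (k1 c3918 k0)) (by decide +kernel)
def c9906 : PP 8 4 T 0x10000100002002000000000200000001544044004000208040000041000000000000000 := rS 0x39a21294b613058a763cc24824568944a63b1fc46242d (k8 c4286 c4488 c4498 c4288 c4403 c4290 c4435 c4298 (k8 c4296 c4433 c4437 c3918 c4482 c9760 c1892 c2115 (k4 c4459 c4958 c4485 c1617 (k1 c2043 k0)))) (by decide +kernel)
def c9907 : PP 8 4 T 0x10000000002002000000000000000000000000000000410008020000200000080000020 := rS 0x8417cf25d8620d1e1137ad4eec461c58a895152b4d262489860a871286622ab18abd53124c8bc2e4119b44a259298b452d30099c2a35599ec165b4ba747a2707ae47e8b40ac536bc5f9168abb218222a93 (k8 c1070 c4348 c1065 c2189 c1974 c4451 c4296 c1240 (k8 c4493 c9905 c3161 c1899 c9904 c4288 c1201 c2192 (k8 c2309 c2188 c1232 c1193 c92 c271 c3243 c3200 (k8 c3061 c4284 c654 c54 c5695 c4402 c4286 c4290 (k8 c63 c4435 c4298 c4294 c4433 c4431 c4432 c1072 (k8 c4488 c4345 c4346 c4441 c4445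 c4498 c268 c284 (k8 c5694 c5546 c615 c1154 c4478 c9906 c6230 c2112 (k8 c1694 c1606 c4487 c4958 c6342 c9759 c4419 c3081 (k8 c9054 c9056 c4570 c9821 c4628 c2016 c4382 c4482 (k1 c9576 k0)))))))))) (by decide +kernel)
def c9908 : PP 8 4 T 0x1000100000000000040000014000040055100000000000009001000000000080154020 := rS 0xb43f23cb2b3 (k4 c3200 c63 c9056 c9900 (k2 c7468 c1434 k0)) (by decide +kernel)
def c9909 : PP 8 4 T 0x10000000002002000000000000000000000000000000010008020000200000080000020 := rS 0xb5479c4205515a8e209539220930565add0f4b8bb098309489d98a980cc4cd49320b44a2131d855a6035982cb6974e8f59a5307a944e8d5c8fd169b5e2fc8b455d90c1115 (k8 c4348 c1065 c2189 c1974 c4451 c4296 c1240 c4493 (k8 c9905 c9904 c4288 c1201 c3064 c2309 c1935 c2192 (k8 c4290 c2062 c2188 c1232 c1193 c92 c271 c3200 (k8 c55 c5695 c4284 c4403 c4401 c4435 c4298 c4433 (k8 c1070 c9907 c4442 c1919 c4488 c7718 c1071 c1160 (k8 c4438 c3831 c2115 c4362 c4459 c1907 c1168 c2029 (k8 c5546 c4573 c4485 c2043 c1617 c4487 c4337 c4411 (k4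 c266 c9908 c582 c801 (k2 c1619 c7468 k0))))))))) (by decide +kernel)
def c9910 : PP 8 4 T 0x2002000000000000000000200040000000020008000000000000000000020 := rS 0x8856a1c326a3b1a4361768944b25309854aa03 (k8 c55 c1647 c4284 c4401 c4290 c63 c4435 c4298 (k8 c4431 c4292 c1881 c1071 c1072 c269 c1653 c3958 (k2 c2109 c557 k0))) (by decide +kernel)
def c9911 : PP 8 4 T 0x10000000002002000000000000000000000000000000000008020000200000080000020 := rS 0x44a1c32ab358c624992aabe22644daf0361768944a6130a804069da2aec86088aafc8a8b (k8 c9904 c4296 c1240 c4348 c1065 c2189 c1974 c4451 (k8 c1232 c55 c54 c4284 c4401 c4290 c4435 c4298 (k8 c4431 c4292 c4493 c9905 c9909 c4412 c1776 c1647 (k8 c9910 c4488 c4441 c4442 c4445 c268 c5694 c556 (k1 c2109 k0))))) (by decide +kernel)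
def c9912 : PP 8 4 T 0x4400000002002000000008000410000100040001101000001000001000000001000000 := rS 0x35c24d276441c8361768944a6131d8547e87 (k8 c1907 c4288 c4284 c4403 c4401 c4290 c4435 c4298 (k8 c4431 c4292 c8521 c2109 c1087 c2040 c4438 c1920 (k1 c4479 k0))) (by decide +kernel)
def c9913 : PP 8 4 T 0x2002000000000000000000100000000000000008020000200000080000020 := rS 0x19061068450224531f60883358c0d08984860ab1315ab53ea3881252acb49a1e96756145cf31845ae4da41688ec5a150080d66971f8f48608a2b34a60f (k8 c2192 c4290 c2062 c4451 c1065 c2189 c2188 c4288 (k8 c1193 c3200 c55 c54 c4284 c4286 c4403 c4298 (k8 c4433 c9753 c1201 c9904 c9911 c4447 c9283 c9828 (k8 c9895 c4459 c1907 c3069 c2029 c803 c4573 c4487 (k8 c4337 c4414 c4338 c4411 c4498 c266 c9912 c4436 (k8 c2038 c269 c268 c1919 c1999 c4485 c4409 c9894 (k4 c2007 c3808 c2213 c1368 (k2 c885 c9269 (k1 c7484 k0))))))))) (by decide +kernel)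
def c9914 : PP 8 4 T 0x1000000000000000000002002000001000000000001000000004004000000000041150000002000020 := rS 0x170ce24b2e96c25fc622679181a212416894c8e3f63add7ab5a1c51a63b (k8 c4403 c5695 c4470 c8226 c4389 c4354 c7094 c4289 (k8 c4288 c4404 c4290 c4298 c4433 c4436 c269 c268 (k8 c1958 c4441 c5554 c7782 c9828 c4459 c2028 c4573 (k2 c4495 c2113 (k1 c1525 k0))))) (by decide +kernel)
def c9915 : PP 8 4 T 0x1000000000020000000002002000001000000000000000000000000000000000041150000000000000 := rS 0x5c33892cba5b097e416894c8e3f63add7ab5a1c51a63b (k8 c4403 c5695 c4470 c8226 c4389 c4354 c7094 c4289 (k8 c4288 c4404 c4290 c4298 c4433 c4369 c9828 c4459 (k4 c2028 c4573 c4495 c2113 (k1 c1525 k0)))) (by decide +kernel)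
def c9916 : PP 8 4 T 0x1000000000000000000002002000001008000000100000000000000000008000000100000080004020 := rS 0x44224a386a854e852f095100c2abf0e905459dcfe734faf992b867124cacb49a1e971762964362f68944a6131685402b34b89d06175e9c6867d5ac516e471f8ed8e1937845a69d229ee32431b8f41035 (k8 c3061 c1065 c2188 c2187 c2189 c9915 c3243 c4296 (k8 c1232 c5695 c344 c8928 c9914 c4289 c4403 c4288 (k8 c4404 c7094 c4470 c4389 c8221 c8226 c4387 c4354 (k8 c4431 c4570 c2309 c1193 c3200 c54 c4284 c4286 (k8 c4401 c4290 c4435 c4298 c4432 c4292 c63 c196 (k8 c4362 c4459 c1907 c3069 c2028 c7044 c4573 c4495 (k8 c2113 c1793 c1525 c1396 c1085 c7096 c1093 c7804 (k8 c5546 c4481 c4483 c1686 c7126 c2109 c1368 c528 (k8 c2580 c4558 c7717 c4382 c1466 c7647 c4489 c4498 k0))))))))) (by decide +kernel)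
def c9917 : PP 8 4 T 0x800000002002000000000020050000040100000000000000000001000000000000000 := rS 0x4a0aa22ab188bc66d12894c5a29 (k8 c4402 c4286 c4290 c4435 c4298 c4294 c4432 c4441 (k4 c4445 c4498 c2112 c6781 (k1 c1694 k0))) (by decide +kernel)
def c9918 : PP 8 4 T 0x40000000000000001000000000000010000000000000000054000000000000500000000000005440000 := rS 0x54 (k2 c4758 c7179 k0) (by decide +kernel)
def c9919 : PP 8 4 T 0x2002000000002000000000000054000000000000000001000000001000020 := rS 0x5603258129588ac8547531150161b0bb44a253098fc06670ac5e0a73 (k8 c1620 c5546 c4420 c4284 c654 c55 c4288 c4401 (k8 c4290 c4435 c4298 c4431 c4292 c4687 c2109 c267 (k8 c1686 c266 c4481 c4411 c1694 c1185 c7239 c4462 (k2 c816 c1018 k0)))) (by decide +kernel)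
def c9920 : PP 8 4 T 0x2000000002000000000000020000000000000000000000000000400000 := rS 0x1c120b3c2c82a3f (k8 c4288 c4284 c1985 c1984 c662 c1185 c500 c4462 k0) (by decide +kernel)
def c9921 : PP 8 4 T 0x2000000000000000000800000020000000000000000000000 := rS 0xd098 (k2 c1111 c1112 (k1 c3789 k0)) (by decide +kernel)
def c9922 : PP 8 4 T 0x2002000000002000000000000000000000000000000000000000201000020 := rS 0x1346a3c1dd0c8b849ecaa0a2c06da2510ac651217 (k8 c4431 c9920 c4450 c4284 c4435 c4298 c4292 c311 (k8 c310 c2256 c702 c5422 c1713 c4687 c9921 c4482 (k2 c540 c541 (k1 c3877 k0)))) (by decide +kernel)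
def c9923 : PP 8 4 T 0x2000000000000080000000000000000000000000005040000 := rS 0x705824e87a (k4 c1713 c1712 c1225 c702 (k2 c498 c4462 k0)) (by decide +kernel)
def c9924 : PP 8 4 T 0x400000000000000000002000000001400008000001000000000010000000100000005 := rS 0x3b1a8f2694c1ee3309 (k8 c4440 c4450 c7035 c4488 c5568 c3843 c4479 c4482 (k1 c3831 k0)) (by decide +kernel)
def c9925 : PP 8 4 T 0x800000002002000000000000040001000008000000000000000000000000000000001 := rS 0x3088aad322d (k4 c4286 c4443 c4445 c4498 (k2 c5694 c4441 k0)) (by decide +kernel)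
def c9926 : PP 8 4 T 0x2002000000000000044000000008000000040001000000001000000000000 := rS 0xa8ca2f19b44a253168a60aad (k8 c1905 c4410 c4402 c4286 c4290 c4435 c4298 c4294 (k4 c4432 c1652 c2112 c4904 k0)) (by decide +kernel)
def c9927 : PP 8 4 T 0x2000008000800008000000240000000000000000000000000 := rS 0x3a9cd6695491e6231782a652ead (k8 c1905 c932 c104 c4410 c4420 c4415 c3866 c1973 (k4 c1701 c7239 c1621 c3597 (k1 c4481 k0))) (by decide +kernel)
def c9928 : PP 8 4 T 0x2002000000002000000001000000000000000000000001000000001000020 := rS 0x880a95631341ad329a56c4e1286458845e4119b44a253098b45201019b436670aabd1217 (k8 c4431 c9920 c1715 c4284 c654 c4292 c694 c55 (k8 c54 c4402 c4286 c4401 c4290 c4435 c4298 c4294 (k8 c4433 c4432 c9922 c9923 c9919 c4440 c9925 c1905 (k8 c9924 c104 c3877 c4479 c1878 c9927 c2112 c5694 (k1 c4411 k0))))) (by decide +kernel)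
def c9929 : PP 8 4 T 0x2002000000002000000001000000000000000000000001000000000000020 := rS 0x113181a03119 (k4 c4450 c9928 c269 c268 (k2 c4441 c5554 k0)) (by decide +kernel)
def c9930 : PP 8 4 T 0x2000000000000040000400000600000000005404000020004000100001000000820 := rS 0x2c5768f1b8984683869850285 (k8 c4321 c4439 c2599 c4385 c1937 c1301 c4467 c2270 (k4 c847 c9034 c623 c6353 k0)) (by decide +kernel)
def c9931 : PP 8 4 T 0x400000020020001000000040000000000000000000000 := rS 0xe717 (k2 c4418 c1617 (k1 c7172 k0)) (by decide +kernel)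
def c9932 : PP 8 4 T 0x100002002000000011000080000000000000000010000000041000000200000020 := rS 0x11749b08824568944a6131d8fc020901acc1415 (k8 c4284 c310 c662 c55 c230 c54 c4288 c4403 (k8 c4401 c4290 c4435 c4298 c4296 c4433 c2115 c1778 (k2 c4362 c6198 k0))) (by decide +kernel)
def c9933 : PP 8 4 T 0x2000000000000000054000800000000000000000001100041400000000 := rS 0x1a9208e2d14b1e2a27 (k8 c847 c4388 c4289 c4402 c4286 c4404 c2110 c1305 (k1 c4209 k0)) (by decide +kernel)
def c9934 : PP 8 4 T 0x2002000000000440014054000840101404000000000001001001200000020 := rS 0x104112fac468228a85da601019b43a3907834b07b0506d96ae199445653148b45ed1 (k8 c4298 c4432 c4286 c4402 c4290 c314 c4435 c4294 (k8 c2112 c8140 c4292 c310 c702 c311 c2495 c2255 (k8 c2322 c85 c694 c55 c54 c5695 c4431 c4388 (k4 c9933 c833 c7007 c1295 (k2 c7962 c7845 (k1 c4570 k0)))))) (by decide +kernel)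
def c9935 : PP 8 4 T 0x2000002002000000000440001540001520405414000000000000001041400000000 := rS 0x3368acfa1930902786454962f278cda25314b1d0285 (k8 c4321 c4439 c4289 c4402 c4290 c4298 c4294 c4297 (k8 c4432 c4434 c7040 c4486 c4324 c7771 c2111 c4421 (k4 c1790 c4451 c2062 c6175 k0))) (by decide +kernel)
def c9936 : PP 8 4 T 0x402000002002000000100400011000209160001404000000000001001000200000020 := rS 0x2409d9b454108ce28f4faed4aa153894964f23b1da6581c9ec141b40b2d5c33288aca629168bda2a35599c2b4b (k8 c4457 c4284 c654 c1945 c4526 c4298 c4432 c4286 (k8 c4402 c4290 c314 c4435 c4294 c2112 c8140 c4439 (k8 c4292 c310 c702 c2322 c311 c5695 c4289 c4404 (k8 c4297 c4434 c313 c2011 c1739 c9930 c1930 c1781 (k8 c9934 c537 c832 c9935 c4452 c2065 c4568 c4576 (k1 c4573 k0)))))) (by decide +kernel)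
def c9937 : PP 8 4 T 0x402000002002000000120000011001600060000404000000000001001000200000020 := rS 0x2968a8253af576b138c3518bf2d87cf61b30828f25840a152491 (k8 c3170 c1135 c4321 c4439 c311 c541 c310 c2599 (k8 c4292 c702 c86 c575 c4566 c9936 c4383 c1386 (k8 c1116 c1390 c3130 c2010 c2122 c4452 c1937 c4490 k0))) (by decide +kernel)
def c9938 : PP 8 4 T 0x40000000000000400000002002000000000440016040000040101404000000000001001000200000020 := rS 0x8f1111d8eae199445653148b45ed1508949e9f (k8 c1510 c4297 c1503 c7768 c4298 c4432 c4286 c4402 (k8 c4290 c314 c4435 c4294 c2112 c4289 c4404 c7774 (k2 c9934 c832 k0))) (by decide +kernel)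
def c9939 : PP 8 4 T 0x10402000002002000000004400012001000060001484000000000001001000200000020 := rS 0x58a0d7a7d511ec141ba5a0596ae1994456535599c2a29168bda2bb3897d0a58 (k8 c311 c4321 c1505 c536 c1444 c4298 c4432 c4286 (k8 c4402 c4284 c654 c1945 c4290 c314 c4435 c4294 (k8 c2112 c8140 c4439 c4457 c4292 c310 c702 c9938 (k4 c1354 c9163 c9082 c1150 (k1 c2122 k0))))) (by decide +kernel)
def c9940 : PP 8 4 T 0x402100002002000000000000010001600064000404000000000001001000200000020 := rS 0x28c468c47af93ea8649c8c5114930e32c4571945e3368944a647168a58ec1159e696ab33ae4ea58598282a43 (k8 c4567 c4284 c310 c662 c311 c2503 c4548 c654 (k8 c1945 c4457 c541 c314 c9929 c4289 c4402 c4286 (k8 c4404 c4290 c4435 c4298 c4294 c4432 c557 c2112 (k8 c9932 c4370 c196 c1135 c4413 c4574 c1608 c3656 (k8 c9937 c1510 c9939 c1516 c5760 c832 c1467 c7774 k0))))) (by decide +kernel)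
def c9941 : PP 8 4 T 0x402100002002000000000000000001600064000004100000000001001000200000020 := rS 0x45ce6c231ab1660a0a9d4ee58 (k8 c311 c1112 c2503 c4284 c310 c662 c9940 c820 (k4 c2050 c1110 c4362 c4481 k0)) (by decide +kernel)
def c9942 : PP 8 4 T 0x20000000002002000000000000400000000020001000000020000041000000000000000 := rS 0x1c985172094c763f (k8 c4288 c4403 c4290 c4433 c9283 c9828 c7172 c3119 k0) (by decide +kernel)
def c9943 : PP 8 4 T 0x400100002002000000000000000001400064000004100000000001001000200000020 := rS 0x4c42232433d86d660a0a9e4ee58 (k8 c311 c1112 c541 c4284 c310 c662 c4292 c702 (k4 c4567 c9942 c4482 c4488 (k1 c9941 k0))) (by decide +kernel)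
def c9944 : PP 8 4 T 0x2000000002000000000041000054000820001444000000000011000001200000020 := rS 0x3f0e2b75eac468228a8ec02030e8e4560d2c2cc1415 (k8 c4284 c310 c662 c311 c2495 c314 c2322 c85 (k8 c55 c54 c4403 c4388 c9933 c833 c7007 c1039 (k4 c1037 c1303 c4480 c8855 k0))) (by decide +kernel)
def c9945 : PP 8 4 T 0x2000000002000040010051080150000120001404000000000011000004200000020 := rS 0x8688d1e734fa4c762d14960722b4ba55660a0a96c3e25 (k8 c313 c86 c575 c4284 c310 c662 c9931 c927 (k8 c314 c2322 c311 c4402 c4286 c4403 c1778 c1781 (k4 c1109 c9944 c832 c9762 (k1 c4467 k0)))) (by decide +kernel)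
def c9946 : PP 8 4 T 0x10402000000002000040015050010150000120001404000000000011000004200000020 := rS 0x434468f39a4d3f1057ad62c3b168a4b03915a5e96ab33a55660a0a96c3e25 (k8 c313 c86 c575 c4284 c310 c662 c9931 c654 (k8 c1945 c4457 c927 c314 c2322 c311 c4402 c4286 (k8 c4403 c4494 c4419 c9945 c4491 c4414 c4413 c1109 (k4 c9944 c832 c9762 c4467 k0)))) (by decide +kernel)
def c9947 : PP 8 4 T 0x2000000000440000054000801105404000000000011000001200000020 := rS 0x413f0e2bd588d045150080c3a3915834b00a (k8 c310 c311 c2495 c314 c2322 c85 c55 c54 (k8 c4388 c9933 c833 c7007 c1039 c1303 c4480 c2122 (k1 c4306 k0))) (by decide +kernel)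
def c9948 : PP 8 4 T 0x400000002002000000001400000040000144001404000000000001002000201000020 := rS 0x1fdfa103ed0c902347b24c5114fa495ccb622844ebb528949641238b452c76999c720f1583696b93aa2026552885da25882acc2aad6194d4e9840a161119211ec141b (k8 c4292 c310 c702 c316 c4446 c4482 c4321 c7000 (k8 c317 c3913 c4290 c2054 c2046 c4284 c662 c5546 (k8 c311 c4298 c4431 c4435 c2256 c4401 c2109 c2503 (k8 c4548 c4457 c2495 c314 c2255 c2322 c654 c5695 (k8 c4289 c4402 c4286 c4404 c4433 c4434 c313 c9930 (k8 c1930 c357 c7717 c9946 c1757 c1136 c1135 c1781 (k8 c4413 c4574 c3656 c9947 c832 c2110 c4421 c1622 (k4 c9047 c4300 c670 c4483 k0)))))))) (by decide +kernel)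
def c9949 : PP 8 4 T 0x400000002002000000000000001001400044000004100000000001000000201000020 := rS 0x2968a8258a451f0d4628d7ec130d2d566756a9d308142c2232421841510530a84caa510bb44f2772c1ec141b (k8 c4292 c310 c702 c311 c1112 c541 c4298 c4431 (k8 c4435 c2256 c4401 c4284 c4290 c2109 c5546 c9943 (k8 c316 c4446 c4482 c4321 c7000 c317 c3913 c2046 (k8 c654 c1945 c4457 c2599 c9929 c4566 c4526 c9948 (k8 c4383 c100 c129 c1116 c6274 c4452 c1937 c4490 k0))))) (by decide +kernel)
def c9950 : PP 8 4 T 0x1000000000000400000002002000000001040000010000144001414000000000001002000201000020 := rS 0x22abd5720d9f4388a897f4b55a2026552885da2670aab4a69840a161119211ec141b (k8 c4292 c310 c702 c316 c4446 c4482 c4321 c7000 (k8 c317 c4290 c2046 c4284 c654 c4298 c4431 c4435 (k8 c2256 c4401 c2109 c1945 c4457 c1133 c9948 c4337 (k4 c4393 c1524 c9082 c4491 (k2 c5748 c7040 (k1 c4493 k0)))))) (by decide +kernel)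
def c9951 : PP 8 4 T 0x400000002002000000000000000001400044000004100000000001000000201000020 := rS 0x11c3518712f895762750d1550858446484303b93c66d36087cf60a3c96110530a84caa510b86da305 (k8 c5546 c4298 c4292 c4431 c4435 c2256 c4401 c4284 (k8 c4290 c2109 c311 c541 c310 c702 c86 c9929 (k8 c5695 c4294 c4297 c1112 c9943 c316 c4446 c4482 (k8 c4321 c9949 c4398 c7768 c974 c1444 c1503 c1505 (k4 c536 c9950 c4383 c1298 (k1 c4467 k0)))))) (by decide +kernel)
def c9952 : PP 8 4 T 0x400000002002000000000000000001400044000004000000000001000000201000020 := rS 0x871818a64d0b3051e4b0882985426552885c36d1 (k8 c4298 c4292 c4431 c4435 c2256 c4401 c4284 c4290 (k8 c2109 c311 c541 c310 c662 c9951 c3949 c3948 (k2 c4488 c4567 (k1 c9942 k0)))) (by decide +kernel)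
def c9953 : PP 8 4 T 0x2002000000000000000001400044000004000000000001000000201000020 := rS 0x10e31093430cee6556445326b18abe249555c15102f0b90466d12894c263b168fc52672a8ad2e5b0f9ec36b305054f258 (k8 c311 c541 c4284 c310 c662 c4292 c702 c86 (k8 c575 c927 c314 c2256 c654 c4402 c4288 c4286 (k8 c4403 c4401 c4290 c4435 c4298 c4294 c4433 c4431 (k8 c4432 c2109 c5546 c1945 c9931 c9952 c4346 c4441 (k8 c4442 c4443 c4498 c2112 c556 c1111 c4958 c6230 (k4 c4437 c4482 c4446 c9828 k0)))))) (by decide +kernel)
def c9954 : PP 8 4 T 0x2000000000004000044000800000000020001000001100001200000800 := rS 0x112e5422b (k4 c314 c851 c1475 c9933 (k1 c9066 k0)) (by decide +kernel)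
def c9955 : PP 8 4 T 0x40000400000600200401005404800000000000000001200000020 := rS 0x8158a44ba371320e1a0330828b023 (k8 c832 c311 c310 c2599 c55 c4385 c1937 c4467 (k4 c2270 c806 c887 c623 (k2 c1923 c6274 k0))) (by decide +kernel)
def c9956 : PP 8 4 T 0x8040100420001411105414020000000000000000000000000 := rS 0x5eb3e870d (k4 c4329 c4423 c3739 c6223 (k1 c8129 k0)) (by decide +kernel)
def c9957 : PP 8 4 T 0x410000000000000000000440101500000401105404000020000000000000000000000 := rS 0x10544 (k2 c4490 c6353 (k1 c4452 k0)) (by decide +kernel)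
def c9958 : PP 8 4 T 0x400000000002000050008440081040220110005404820000000001000000200000020 := rS 0x5eb3e864813c3142b11ba4502a5119c51e9f5389452c72c028725515c456e85 (k8 c563 c3677 c4412 c314 c2256 c2322 c310 c311 (k8 c4289 c4402 c313 c2011 c1699 c9954 c537 c832 (k8 c9955 c1922 c1160 c8630 c623 c9956 c9957 c4324 (k4 c7771 c4421 c1790 c5748 (k1 c8129 k0))))) (by decide +kernel)
def c9959 : PP 8 4 T 0x10000000000000000000440100200000401105404001020000000000000000000000 := rS 0x106a7 (k2 c133 c1937 (k1 c6353 k0)) (by decide +kernel)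
def c9960 : PP 8 4 T 0x800000080000000800000000000000000000000000 := rS 0xbc82 (k2 c2008 c2009 (k1 c2515 k0)) (by decide +kernel)
def c9961 : PP 8 4 T 0x40000000000000400000000002000050008440085400220010005404820000000001000000200000020 := rS 0xa540975628f86a31468530828b0ad (k8 c2048 c311 c310 c2599 c563 c4526 c9958 c4383 (k4 c100 c1116 c1337 c1923 (k2 c9959 c9957 k0))) (by decide +kernel)
def c9962 : PP 8 4 T 0x8000090090060080145404020000000000000000000000000 := rS 0x214e2b15ea0d9eb85ad0d13115dc621274 (k8 c1696 c4322 c4482 c4449 c4412 c187 c4393 c1436 (k8 c859 c1524 c9071 c5748 c627 c1473 c7306 c8129 k0)) (by decide +kernel)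
def c9963 : PP 8 4 T 0x400000002002000000008000092000000080041405020001000001100000200000800 := rS 0x23c44a34fa044aa12791c5a29638ae96ab5ba5231093d86d2f11 (k8 c4412 c927 c4292 c702 c4322 c4482 c5015 c3677 (k8 c1673 c4427 c314 c4289 c4402 c4286 c4404 c4297 (k8 c7768 c1503 c1362 c1510 c9962 c7774 c9954 c832 k0))) (by decide +kernel)
def c9964 : PP 8 4 T 0x2000000000004000040004800000000020001000001100000200000800 := rS 0x953e1f (k4 c86 c1428 c1424 c9954 k0) (by decide +kernel)
def c9965 : PP 8 4 T 0x40000440000200000401005404800020000000000001400000820 := rS 0x40ac4ba37134340661 (k8 c2599 c55 c4385 c4467 c2270 c806 c623 c1923 (k1 c9959 k0)) (by decide +kernel)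
def c9966 : PP 8 4 T 0x2000040000004200000020000000200000020000000000041400000800 := rS 0x4817c6c29 (k4 c4402 c623 c2509 c8630 (k1 c1156 k0)) (by decide +kernel)
def c9967 : PP 8 4 T 0x20000000002002000000000404015401520500000604800000000000001040200000020 := rS 0xd62a375e24562a512b44a253168a5a6393d82836792c2ed0a23 (k8 c832 c563 c4449 c311 c541 c4292 c310 c702 (k8 c2322 c5695 c4402 c4286 c4290 c4435 c4298 c313 (k8 c9965 c9966 c1155 c7959 c8630 c7247 c7840 c4470 k0))) (by decide +kernel)
def c9968 : PP 8 4 T 0x400000002002000000000000000001400084000004100000000001001000200000020 := rS 0x14a812eac61a8c47a65468554a9d6e7449a5184c55dab4feae8c444d4773205c82d12894c263b0a8fda6392a8ad2e6144d2d566d5fc24f60a0d9e4b043 (k8 c4567 c311 c541 c4292 c310 c702 c4322 c7782 (k8 c694 c1673 c4427 c187 c2599 c927 c314 c2256 (k8 c2322 c5695 c4288 c4284 c4403 c4401 c4290 c4435 (k8 c4298 c4433 c4431 c7856 c1112 c4479 c4412 c4482 (k8 c565 c2537 c2048 c4449 c4370 c9828 c5015 c1778 (k8 c1696 c3677 c9960 c9963 c563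 c4526 c9961 c9964 (k4 c9967 c4383 c1116 c1337 (k2 c1923 c9959 (k1 c9957 k0))))))))) (by decide +kernel)
def c9969 : PP 8 4 T 0x400000002002000000011000010000000080000000200000000041001000200000020 := rS 0x104311955c2f19b44a253168a4574b559b4366b (k8 c69 c4292 c694 c1673 c4427 c314 c4402 c4286 (k8 c4290 c4435 c4298 c4294 c4432 c2112 c7555 c828 (k2 c9932 c4407 k0))) (by decide +kernel)
def c9970 : PP 8 4 T 0x400000002002000000001000000000400080000400200000000041001000200000020 := rS 0x12b11563098a998c104a63b1fa5cf60a0d9e4b109 (k8 c4322 c311 c541 c4292 c310 c702 c927 c4288 (k8 c4403 c4290 c4433 c4482 c1880 c4370 c9828 c9969 (k2 c4338 c860 (k1 c4958 k0)))) (by decide +kernel)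
def c9971 : PP 8 4 T 0x2000000000000000201500000000000000000000000040001005200000020 := rS 0x2688c6c4b1793c660101874b00a (k8 c310 c311 c85 c55 c54 c4294 c4297 c4432 (k4 c4434 c623 c7007 c324 (k1 c2111 k0))) (by decide +kernel)
def c9972 : PP 8 4 T 0x200002002000000408040001000400880400004000000000040001000201000020 := rS 0x8467d0c908164bf022b112a954e278a86c2ed129855a61f1c83c1a580552cfe7d (k8 c4409 c4313 c4427 c310 c311 c2495 c2255 c2322 (k8 c86 c5695 c4284 c4290 c4298 c4431 c4292 c4388 (k8 c847 c852 c1429 c1424 c9971 c7962 c4463 c4305 (k4 c4380 c9269 c4421 c1790 (k2 c9047 c7306 k0))))) (by decide +kernel)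
def c9973 : PP 8 4 T 0x8011420200001000000144200000000000000000000000000 := rS 0x192b750c50bcbd539f60917 (k8 c4362 c4481 c4409 c133 c3791 c1883 c6899 c900 (k2 c1167 c547 (k1 c4073 k0))) (by decide +kernel)
def c9974 : PP 8 4 T 0x2000000000000000201500000000000000000000000040001001200000020 := rS 0x986c0a (k4 c310 c623 c9971 c2270 k0) (by decide +kernel)
def c9975 : PP 8 4 T 0x4001000002000000000000015501500000001500154010000000000001001400000020 := rS 0x272697e88c87e92c5e4f199fcfb04 (k8 c4481 c4409 c4313 c4294 c4297 c4432 c4434 c8860 (k4 c2121 c4484 c546 c4451 (k2 c351 c2111 k0))) (by decide +kernel)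
def c9976 : PP 8 4 T 0x4000000000002000000000008100000000000050014000001000001100000000000000 := rS 0x7e0446b15098ec2a3f (k8 c4288 c4284 c4403 c4401 c4353 c1037 c7962 c4480 (k1 c8256 k0)) (by decide +kernel)
def c9977 : PP 8 4 T 0x4001000002000000000000015501500000001400154010000000000001001401000020 := rS 0x262004e5f258bc9e33641fcfb04 (k8 c4481 c4409 c4313 c2121 c4294 c4297 c4432 c4434 (k4 c546 c351 c9975 c2111 (k1 c1894 k0))) (by decide +kernel)
def c9978 : PP 8 4 T 0x4100000002002000000000011045550000000400154000000000041001001600000020 := rS 0x669304f0c67d0d90b75892c5e4f19944a62d148e4aa2b30960fe7d822cc1415 (k8 c4284 c310 c662 c4481 c4409 c4313 c311 c2599 (k8 c314 c2256 c2322 c4402 c4286 c4290 c4435 c4294 (k8 c4297 c4432 c4434 c9974 c9976 c2121 c4422 c1793 (k4 c7497 c4324 c2111 c2062 (k1 c7781 k0))))) (by decide +kernel)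
def c9979 : PP 8 4 T 0x4000000002002000000000011025540000400400144000000000041001000200000020 := rS 0x58b2422278689142d31c83cc2af88c11660a0a9c4b023 (k8 c832 c311 c537 c4284 c310 c662 c4481 c4338 (k8 c193 c2599 c2255 c2322 c5695 c900 c9978 c4381 (k4 c115 c2258 c7497 c4640 (k1 c9362 k0)))) (by decide +kernel)
def c9980 : PP 8 4 T 0x2002000000008001021040000480000804200000000041001000200000020 := rS 0x2dd62c9462994ab930c25566d0da0d22cb3f9f6087549260b61f39b15660a0ac5ce258 (k8 c311 c537 c4362 c4284 c310 c662 c3122 c1770 (k8 c86 c575 c1111 c2051 c1657 c4481 c4409 c4313 (k8 c3931 c3168 c2003 c4292 c694 c1673 c4322 c2599 (k8 c1126 c9973 c9979 c2011 c7484 c3126 c3128 c2121 k0)))) (by decide +kernel)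
def c9981 : PP 8 4 T 0x2002000000008000021000400080000804200000000041001000201000020 := rS 0x14ea5512d4468f258bc9e332894c5a2915a5d566d0da0d76af88a5597043aa49305b0f9cd8a58598282b17 (k8 c4362 c4284 c310 c662 c311 c3122 c1770 c86 (k8 c575 c1111 c2051 c1657 c4481 c3931 c860 c4338 (k8 c193 c3788 c2003 c4292 c694 c1673 c927 c314 (k8 c4402 c4286 c4290 c4435 c4294 c4297 c4432 c4434 (k4 c9972 c832 c7420 c9980 (k2 c1470 c941 (k1 c9064 k0))))))) (by decide +kernel)
def c9982 : PP 8 4 T 0x400000002002000000000000000001400004000004000000000001001000201000020 := rS 0x1fa112e21150ac61314ec682186c824568944a63b1fb4d820f06960148a (k8 c9953 c310 c311 c2495 c2255 c9929 c5695 c4288 (k8 c4403 c4290 c4435 c4298 c4296 c4433 c4292 c4567 (k8 c9968 c9970 c3122 c2115 c9969 c9981 c827 c826 (k2 c710 c4377 (k1 c4463 k0))))) (by decide +kernel)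
def c9983 : PP 8 4 T 0x1000000000000000000000000000000000005000000020000000002000201000000 := rS 0x8c9dc8469 (k4 c1878 c316 c1112 c4446 (k1 c4482 k0)) (by decide +kernel)
def c9984 : PP 8 4 T 0x2002000000000000000001400004000004000000000001000000201000020 := rS 0x21b0e30953bab2229957c4862ab84a28f22f208cda251298ec5a3f149b4b02b4b9ec141b (k8 c4292 c310 c702 c927 c314 c311 c694 c4402 (k8 c4288 c4286 c4403 c4290 c4435 c4298 c4294 c4433 (k8 c4432 c541 c9953 c4322 c1673 c9983 c9982 c4346 (k8 c4443 c4498 c2112 c1111 c860 c4482 c4958 c4446 (k1 c9828 k0))))) (by decide +kernel)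
def c9985 : PP 8 4 T 0x100002002000000000000014000800020000000000000000000000040200000020 := rS 0x22e934a2b8ca2f19b44a253098b452010480d660a0aa64621f (k8 c86 c1967 c104 c4284 c310 c662 c55 c230 (k8 c54 c4402 c4286 c4401 c4290 c4435 c4298 c4294 (k4 c4432 c557 c2112 c868 (k2 c1779 c4418 (k1 c6198 k0))))) (by decide +kernel)
def c9986 : PP 8 4 T 0x2002000000000101045000110800000000000000000001101040440000000 := rS 0x24a8d3e3512a9d4aa113c54962f278cca253238b452c7 (k8 c4289 c4402 c4286 c4404 c4290 c4435 c4294 c4297 (k8 c4432 c4434 c4388 c847 c850 c1430 c853 c1424 (k4 c1305 c1427 c9064 c4209 (k1 c2110 k0)))) (by decide +kernel)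
def c9987 : PP 8 4 T 0x2000000040000000000201800001002004000000000000000000201001800 := rS 0x162101b0d49a832586c2e4f4cc64621f (k8 c86 c1967 c4448 c104 c4297 c4431 c4292 c4434 (k4 c3879 c1934 c7884 c9866 (k2 c4682 c628 (k1 c319 k0)))) (by decide +kernel)
def c9988 : PP 8 4 T 0x2000000000000000201500000000000000000000000040001000200000020 := rS 0x122362a070e9841458 (k8 c311 c310 c2599 c85 c527 c4350 c1116 c9974 (k1 c7033 k0)) (by decide +kernel)
def c9989 : PP 8 4 T 0x2000000000008000050005000000000000000000001100041400000000 := rS 0x92274f8d62a471d8b452c7 (k8 c4289 c4402 c4286 c4403 c4404 c4353 c1037 c1666 (k2 c4538 c4209 (k1 c2110 k0))) (by decide +kernel)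
def c9990 : PP 8 4 T 0x40000000000000000000020000024000000000000001400000020 := rS 0x8689d3c5f (k4 c1380 c1650 c351 c4384 (k1 c4467 k0)) (by decide +kernel)
def c9991 : PP 8 4 T 0x100000002000000100000500050001000050154000000000001100041400000000 := rS 0x139253f151aad88e3b168a58eb9 (k8 c4548 c4289 c4402 c4286 c4403 c4404 c5124 c9361 (k4 c4353 c1667 c4209 c4538 (k1 c2110 k0))) (by decide +kernel)
def c9992 : PP 8 4 T 0x100002002000000000000101550001020000014024000000001001001200000020 := rS 0x2689d985f641f4962f278cca6d31c8ace6234aacc2a752c154147f (k8 c555 c310 c2256 c311 c2503 c4284 c662 c5073 (k8 c9067 c1110 c314 c2322 c5695 c4290 c4294 c4297 (k8 c4432 c4434 c9990 c9991 c2512 c637 c351 c2062 (k1 c2111 k0)))) (by decide +kernel)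
def c9993 : PP 8 4 T 0x2000000040000000000000000001002004000000000000000002201005800 := rS 0x208224d2586c2e4f (k8 c4297 c4431 c4292 c4434 c2260 c2258 c4682 c4570 k0) (by decide +kernel)
def c9994 : PP 8 4 T 0x100000000000000400000422001800041012104020004000000000000000000000 := rS 0x3256eb12fb397cbb (k8 c1444 c867 c949 c1505 c629 c1247 c1792 c9061 k0) (by decide +kernel)
def c9995 : PP 8 4 T 0x2000000000000100201100000000002000000000000000001000200000020 := rS 0x4d13ae86c4b1793c660a (k8 c310 c4294 c4297 c4432 c4434 c623 c629 c2270 (k2 c325 c6882 k0)) (by decide +kernel)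
def c9996 : PP 8 4 T 0x100002002000000000000125500000020000014024000000001001001200000020 := rS 0xa35092c5e4f19944a62d148ad5e234aacc2a752a8292258 (k8 c311 c1155 c310 c2256 c2503 c4284 c662 c5073 (k8 c9067 c193 c314 c4402 c4286 c4290 c4435 c4294 (k4 c4297 c4432 c4434 c900 (k2 c9064 c9992 k0)))) (by decide +kernel)
def c9997 : PP 8 4 T 0x2002000000000000000001000044000004100000000001000000201000020 := rS 0xa1649fd46cd4129922b138a3d527d12a956acb5e9e22c23429a92a733218d5eac3ac15101b0bb44a25309b4cce392a83cae0315834b0b30505532ab608c5341f (k8 c86 c9984 c1967 c9929 c1972 c104 c4284 c310 (k8 c662 c311 c2495 c314 c55 c798 c2255 c2256 (k8 c2322 c654 c5695 c4401 c4290 c4435 c4298 c4431 (k8 c4292 c2109 c5546 c2503 c9985 c193 c820 c6230 (k8 c1110 c5073 c556 c2527 c9067 c4481 c1968 c3921 (k8 c3930 c4419 c9987 c9993 c9990 c9994 c9986 c537 (k8 c9995 c1155 c9996 c2008 c3979 c941 c2524 c637 (k2 c901 c9991 k0)))))))) (by decide +kernel)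
def c9998 : PP 8 4 T 0x10000000000000000000000000000000000080004400000020000000000000000000000 := rS 0xf309 (k2 c4322 c2506 (k1 c4482 k0)) (by decide +kernel)
def c9999 : PP 8 4 T 0x2002000000000000000001000004000004000000000001000000201000020 := rS 0x1e61268459de329a2c15c065b0f9ec141b (k8 c4292 c310 c702 c86 c575 c55 c798 c311 (k8 c9984 c4448 c1889 c9998 c9997 c4437 c1961 c4482 k0)) (by decide +kernel)
def c10000 : PP 8 4 T 0x2002000000000000000001000000000004000000000001000000201000020 := rS 0x768c908f2c561c250cb33d828364122b44a2531d8547ec1 (k8 c9929 c4288 c4284 c4403 c4290 c4435 c4298 c4296 (k8 c4433 c4292 c310 c702 c662 c9999 c4440 c1907 (k4 c1635 c1964 c2115 c5577 (k2 c4482 c1886 k0)))) (by decide +kernel)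
def c10001 : PP 8 4 T 0x20001000002000000040000000000200000000001004100000000000000000200000020 := rS 0x802e8446c243523d0a2341c4c964f368641e0d30afcf60a0d9dcb0bb (k8 c4449 c311 c1112 c4292 c310 c702 c7782 c2599 (k8 c2495 c2255 c2257 c694 c4297 c4434 c4444 c1937 (k8 c1301 c1402 c1429 c4479 c9965 c312 c2258 c1335 (k2 c7463 c1923 k0)))) (by decide +kernel)
def c10002 : PP 8 4 T 0x2000000000000000201100000000000000100000000040001000200000020 := rS 0x14c5f7e9841458 (k4 c311 c310 c2599 c4304 (k2 c2508 c9988 (k1 c4532 k0))) (by decide +kernel)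
def c10003 : PP 8 4 T 0x2000000040000000001500000800000000000000000040101001400000000 := rS 0x36260d44f15258bc9e33 (k8 c4294 c4297 c4432 c4434 c4388 c847 c1305 c2111 (k2 c4470 c324 k0)) (by decide +kernel)
def c10004 : PP 8 4 T 0x2000000000000008100000000001000004000001000042100000001005000 := rS 0x4d088d891152586c2e4f (k8 c4297 c4431 c4292 c4434 c4353 c1742 c1743 c7962 (k2 c324 c7777 k0)) (by decide +kernel)
def c10005 : PP 8 4 T 0x20801000002000000040000011501500000001000004010000000002001001600000020 := rS 0x262fc5104b70c83c1a0a38a3c86393f9f608752c45ce655 (k8 c2256 c1614 c4416 c311 c538 c4481 c4409 c4313 (k8 c2322 c4446 c10003 c537 c310 c2495 c2255 c2257 (k4 c10004 c9977 c4088 c549 (k2 c9296 c351 k0)))) (by decide +kernel)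
def c10006 : PP 8 4 T 0x2002000000000000011400000000001004110000000000000001600000020 := rS 0xca64bf04e11422d57295490a8fa7f88abe09123a92c5e4f1d8fc521f07a5c5a0da5aacdab138a3d4a438c1dd1453099442e8760b446309449ce2e3c4e8cd66152a9ec141b0c8e5a658 (k8 c311 c5695 c2322 c2257 c4292 c310 c702 c2256 (k8 c4284 c662 c4294 c966 c10000 c4416 c1614 c7172 (k8 c5422 c9983 c4298 c9922 c7043 c4431 c4435 c4401 (k8 c4290 c2109 c1112 c9998 c4446 c10001 c10003 c537 (k8 c10002 c694 c1673 c4427 c2495 c4286 c926 c2255 (k8 c86 c4402 c4288 c4403 c4297 c4432 c4434 c538 (k8 c7856 c4481 c4346 c4498 c4313 c4409 c2112 c8019 (k8 c1695 c8464 c1659 c10005 c710 c350 c4463 c4305 (k2 c9510 c1752 k0))))))))) (by decide +kernel)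
def c10007 : PP 8 4 T 0x40000000000000000000002002000000400440115500020401005404020020000000001001600000000 := rS 0x19b4567d0c984813c31026a89ab9462b4992c5e4f19b44a63b168a58e1f (k8 c86 c4289 c4402 c4286 c4403 c4290 c4298 c4294 (k8 c4297 c4432 c4434 c102 c1695 c858 c4542 c4346 (k8 c1777 c1922 c9957 c4324 c7771 c2111 c4421 c1790 (k2 c4451 c2062 (k1 c4495 k0))))) (by decide +kernel)
def c10008 : PP 8 4 T 0x2002000000000000011400000001001004100000000000000001600000020 := rS 0x262fc4990a157c516ab9491d52ab7659fc1e97168357eab36aed627147a9487183b8c4f6392c444fa6431c26968a2984ca21743b0436d1449ccab171e2746619598282ad3 (k8 c5695 c4284 c310 c662 c2257 c4294 c966 c10000 (k8 c4416 c2256 c1614 c7172 c4298 c4292 c9922 c7043 (k8 c4431 c4435 c4401 c4290 c2109 c4427 c5422 c7770 (k8 c10006 c9990 c4412 c311 c2322 c702 c9983 c1112 (k8 c9998 c4446 c10001 c10003 c537 c10002 c4449 c694 (k8 c1673 c7782 c2495 c4286 c926 c2255 c4235 c1753 (k8 c10004 c10007 c539 c4487 c8464 c7420 c4088 c3716 (k4 c3666 c2121 c4491 c547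 (k2 c9296 c351 k0))))))))) (by decide +kernel)
def c10009 : PP 8 4 T 0x2002000000000000011400000000001004100000000000000001600000020 := rS 0xfe7565b3524c9262bdf82735845087d321c51e4b1793c762d1f8e41e5b0f835566d31d2d62a56990e30774514c26510ba1d82d118c2512738b8f13a3359854aa7b0506cb019 (k8 c2257 c311 c4292 c310 c702 c2256 c4284 c662 (k8 c4294 c966 c10000 c4416 c1614 c7172 c5422 c9983 (k8 c4298 c9922 c7043 c4431 c4435 c4401 c4290 c2109 (k8 c1112 c9998 c4446 c5695 c10001 c10002 c4427 c7770 (k8 c694 c1673 c2495 c86 c575 c2255 c2322 c4288 (k8 c4286 c4403 c4297 c4432 c4434 c10003 c537 c10006 (k8 c9990 c10008 c710 c563 c350 c4463 c1777 c2111 (k4 c4305 c8019 c2062 c1752 (k2 c1657 c725 (k1 c9510 k0)))))))))) (by decide +kernel)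
def c10010 : PP 8 4 T 0x1000002000000040000000000800000080000000001000000000000001000000020 := rS 0x42bf506102f098362f (k8 c4432 c4292 c4558 c351 c350 c2515 c4300 c710 (k1 c5558 k0)) (by decide +kernel)
def c10011 : PP 8 4 T 0x24001000002002000000000000515000000000005445100040000000101000a00005000 := rS 0x17275492be246b4220df8118a9c56ebd5aa351c340b904762d1fb4c3e43 (k8 c4446 c86 c5695 c4288 c4286 c4403 c4433 c4431 (k8 c833 c832 c1298 c7883 c1039 c1037 c1303 c4388 (k8 c7962 c4480 c4570 c6225 c563 c4479 c4346 c8019 (k2 c1657 c1125 (k1 c8860 k0))))) (by decide +kernel)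
def c10012 : PP 8 4 T 0x2002000000000000011000000000001004100000000000000001200000020 := rS 0x5398446b152b4c87183baad1453099442e8760b446309449ccab171e274661959854f60d2c028b61f078e4da1b (k8 c4292 c694 c2322 c2255 c86 c575 c310 c311 (k8 c2495 c702 c4284 c662 c2257 c4294 c966 c10000 (k8 c4416 c2256 c1614 c7172 c5422 c9983 c4298 c9922 (k8 c7043 c4431 c4435 c4401 c4290 c2109 c1673 c1112 (k8 c9998 c4446 c5695 c10001 c10002 c10011 c2599 c10010 (k1 c10009 k0)))))) (by decide +kernel)
def c10013 : PP 8 4 T 0x2000040000000400000000000000000000021000002000002200005000 := rS 0xeb053f1f592fc089248e130ab1e2e73 (k8 c1614 c4416 c4289 c4284 c4401 c4404 c2259 c2258 (k4 c4463 c4305 c4379 c2107 (k2 c9269 c2502 (k1 c4481 k0)))) (by decide +kernel)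
def c10014 : PP 8 4 T 0x20800000000000000040000015500010000000050154000000000000000000600000020 := rS 0x1317e28c8 (k4 c2121 c4088 c547 c9296 (k1 c351 k0)) (by decide +kernel)
def c10015 : PP 8 4 T 0x2002000000000000001000010000001004100000000000000000600000020 := rS 0x13bf13f155b2d4e2b94792c9e3b1cd2d62a521c60ee313da8596a74514c26510ba1d82d130c48d709449b436921544558250683da697169fcfb043a9622eb305054e63c4e8cc3255 (k8 c2256 c2257 c4294 c966 c10000 c1614 c4284 c310 (k8 c662 c4416 c311 c539 c4481 c4409 c4313 c4286 (k8 c926 c5695 c2255 c2495 c10013 c10012 c4338 c7465 (k8 c4487 c4292 c694 c7172 c5422 c2048 c4479 c2599 (k8 c4298 c9922 c7043 c4431 c4435 c4401 c4290 c2109 (k8 c10010 c2026 c900 c702 c9983 c1112 c9998 c4446 (k8 c10001 c10002 c4427 c2322 c4403 c4297 c4434 c10003 (k8 c8464 c537 c7420 c10014 c4353 c3601 c4480 c355 (k1 c9510 k0))))))))) (by decide +kernel)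
def c10016 : PP 8 4 T 0x2002000000000000001000400000000004100000000000000000200000020 := rS 0xb98a9c56eb5470d0447d3fc10ea95562c476250683c624352c60ee8a2984ca21743b05a27b0dc2512738b8f13a330cacc14152a9e4b0d3 (k8 c5695 c311 c541 c2256 c4284 c310 c662 c2257 (k8 c4294 c966 c10000 c4416 c1614 c7172 c5422 c4292 (k8 c702 c4298 c9922 c7043 c4431 c4435 c4401 c4290 (k8 c2109 c1112 c9998 c10001 c4446 c9983 c2255 c2495 (k8 c10013 c4403 c10002 c10012 c860 c539 c4481 c4313 (k8 c4409 c10015 c833 c832 c7883 c1037 c1303 c4388 (k2 c1476 c4088 k0))))))) (by decide +kernel)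
def c10017 : PP 8 4 T 0x4000000002002000000000000012005460180100404820020000000100041400000800 := rS 0x10abd38b0d065f5ad0d62375111c5a2963b4c1a79a5aee307b0dc4d4291571fce8b7 (k8 c3677 c1696 c2537 c565 c978 c7768 c4345 c4292 (k8 c702 c9998 c4449 c4427 c541 c2495 c5695 c4289 (k8 c4402 c4286 c4404 c7774 c8630 c9966 c4393 c1436 (k4 c1465 c9071 c9962 c7095 (k2 c8143 c562 (k1 c6745 k0)))))) (by decide +kernel)
def c10018 : PP 8 4 T 0x2002000000000000000000400000000004100000000000000000200000020 := rS 0x1fb1538ae1628e1a08928cb888ad5a7f57190d48d4fa0626a88c1dc02030e8e52e2d128341ed35fc24f74b55a2912792c14c26510ba1ce6558b8f13a3360865660a0ab44da1b (k8 c4292 c694 c4298 c4284 c310 c662 c2257 c9922 (k8 c4294 c966 c10000 c4416 c2256 c1614 c7043 c4431 (k8 c4435 c4401 c4290 c311 c541 c7172 c2109 c1673 (k8 c4427 c702 c5422 c7782 c5695 c2255 c2495 c10013 (k8 c4286 c926 c2322 c85 c55 c54 c1112 c9998 (k8 c10016 c4345 c1362 c1510 c1507 c4479 c7856 c565 (k8 c2537 c2048 c5424 c4412 c8140 c7465 c10017 c833 (k4 c832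 c7007 c9066 c1303 (k2 c4388 c8242 (k1 c4480 k0)))))))))) (by decide +kernel)
def c10019 : PP 8 4 T 0x1000002000000000000000201400000000000000200000000000001001600000020 := rS 0x40d1498a513a14be367e92c5e4f198283283 (k8 c2000 c2257 c310 c4294 c4297 c4432 c4434 c4304 (k8 c623 c2508 c2695 c2270 c1883 c2111 c4451 c1894 (k1 c4484 k0))) (by decide +kernel)
def c10020 : PP 8 4 T 0x2002000000000000110200400000000004000000000000000000600000020 := rS 0x2bd26635c41068bb389f592751ba3cfecf3290c4ca32f2009b138692c762d1c8941a0f69afc63093dd2d568a449e4b053099442e87399562e3c4e8cd8219598282ad13686cd668 (k8 c10018 c69 c4292 c694 c4298 c4284 c310 c662 (k8 c2257 c9922 c4294 c966 c10000 c4416 c2256 c1614 (k8 c7043 c4431 c4435 c4401 c4290 c311 c541 c7172 (k8 c2109 c1673 c4427 c702 c5422 c9983 c7782 c5695 (k8 c2255 c2495 c10013 c2322 c4286 c4403 c4434 c4385 (k8 c4444 c3790 c1882 c1883 c1470 c4467 c4567 c7555 (k8 c3365 c1462 c3403 c2270 c538 c546 c1772 c537 (k8 c9034 c9891 c4481 c9361 c4407 c1126 c828 c4542 k0))))))))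 (by decide +kernel)
def c10021 : PP 8 4 T 0x10000000000000080004000000000000080000000001000000 := rS 0xef19 (k2 c4446 c1886 (k1 c7804 k0)) (by decide +kernel)
def c10022 : PP 8 4 T 0x2002000000000000014000000000000200200044000000001000200000000 := rS 0x15e933194c762d (k4 c4286 c4403 c4290 c1689 (k2 c1657 c828 (k1 c4542 k0))) (by decide +kernel)
def c10023 : PP 8 4 T 0x2000000000000008001500000000000000000000000042001081400000000 := rS 0x2689c6c9f258bc9e33 (k8 c4294 c4297 c4432 c4434 c3601 c1743 c355 c324 (k1 c2111 k0)) (by decide +kernel)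
def c10024 : PP 8 4 T 0x2002000000000000011000400000000004000000000000000000600000020 := rS 0x1185bae624b561a852b11490a95e633e9fe087538a3d4a2f1d8fc52392b80d2e2d2d87e96ab3690d8ab13429d1453099442e8760b44c2313d86e12893c9ce2e251e2746619598541a0a07954b0d3 (k8 c5695 c311 c2256 c2255 c310 c2495 c4284 c662 (k8 c2257 c4294 c966 c10000 c10013 c4416 c1614 c541 (k8 c7172 c5422 c4292 c702 c9983 c2599 c4298 c9922 (k8 c7043 c4431 c4435 c4401 c4290 c2109 c10010 c10018 (k8 c10019 c1782 c10021 c694 c1673 c4427 c86 c575 (k8 c4286 c926 c55 c798 c2322 c4402 c4288 c4403 (k8 c4432 c10020 c10003 c537 c10022 c4481 c4313 c4409 (k8 c4407 c828 c2112 c8019 c4411 c1695 c1735 c1128 (k4 c1659 c4491 c8464 c10023 (k2 c8095 c10014 k0)))))))))) (by decide +kernel)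
def c10025 : PP 8 4 T 0x10520210050000000044200020000002000000000000000 := rS 0x16a715bb251e9e2f202227f3ec10eb17 (k8 c4416 c539 c4481 c4409 c4313 c4338 c1882 c1883 (k4 c2053 c3403 c547 c3601 (k2 c537 c7420 (k1 c2121 k0)))) (by decide +kernel)
def c10026 : PP 8 4 T 0x2002000000000000001000400000000004000000000000000000600000020 := rS 0x2068a4c13a14bec87ead4e2b747a94fa7f822e454923ab2d429588ab1624b1793c7297168c50668538941a0f84985a64345224f2582984ca217439ccab1760acc2ac51e27466d13d8283619 (k8 c2257 c4292 c310 c702 c4298 c4294 c966 c10000 (k8 c1782 c4284 c662 c9922 c4416 c2256 c1614 c7043 (k8 c4431 c4435 c4401 c4290 c311 c541 c7172 c2109 (k8 c10021 c5695 c2599 c5422 c2255 c2495 c10013 c10010 (k8 c10018 c2000 c9983 c4286 c926 c2322 c4297 c4432 (k8 c4434 c10019 c10024 c4338 c860 c900 c2026 c539 (k8 c4487 c7465 c8464 c4481 c4313 c4409 c10025 c10003 (k8 c10023 c537 c7420 c8860 c2121 c547 c717 c351 (k4 c2111 c4451 c1894 c4484 k0))))))))) (by decide +kernel)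
def c10027 : PP 8 4 T 0x4000002002002000000000005414000000100000050200044000000001000200000000 := rS 0xaf4998d71043a94c762d (k8 c4286 c4403 c4290 c10022 c4481 c8860 c4407 c1125 (k2 c828 c4542 k0)) (by decide +kernel)
def c10028 : PP 8 4 T 0x2002000000000000000000400000000004000000000000000000a00000020 := rS 0xb93aa5558fc8a9c56eb558a351c341d8043a570196c3e0d18c24f6ab45224f2582984ca217439ccab171e27466c10cacc1415689b43668 (k8 c10018 c4292 c694 c4298 c4284 c310 c662 c2257 (k8 c9922 c4294 c966 c10000 c4416 c2256 c1614 c7043 (k8 c4431 c4435 c4401 c4290 c311 c541 c7172 c2109 (k8 c1673 c702 c5422 c9983 c2495 c86 c575 c55 (k8 c798 c85 c54 c4403 c833 c832 c1298 c7007 (k8 c7883 c1037 c1303 c4388 c4480 c10027 c860 c539 (k2 c1476 c8860 k0))))))) (by decide +kernel)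
def c10029 : PP 8 4 T 0x2002000000000000000000400000000004000000000000000000200000020 := rS 0x7e17150233406da60f (k8 c2255 c5695 c4292 c10018 c10028 c10026 c826 c9068 (k1 c4377 k0)) (by decide +kernel)
def c10030 : PP 8 4 T 0x2002000000000000000000000000000004000000000000000000200000020 := rS 0x7582a2116778ca690e738b8f02ed12894c26582aa74665b0f9ec36b3050558219 (k8 c2257 c9922 c4284 c310 c662 c4292 c702 c86 (k8 c575 c4294 c966 c2256 c311 c4401 c4290 c4435 (k8 c4298 c4431 c10000 c4416 c1614 c7043 c10029 c4448 (k4 c1889 c9998 c2109 c5546 (k2 c2503 c4481 k0))))) (by decide +kernel)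
def c10031 : PP 8 4 T 0x2002000000000000000000000000000000000000000000000000200000020 := rS 0x4f0d11840b88c47bf4dc610696c1e0a2c07da603 (k8 c55 c5695 c86 c311 c310 c2255 c575 c2495 (k8 c2599 c10030 c4378 c1346 c1107 c1108 c4463 c832 (k2 c4383 c806 (k1 c7312 k0)))) (by decide +kernel)
def c10032 : PP 8 4 T 0x200000000000000004000010000000000000000000020 := rS 0xb04c351e1f481844e562f96ce207 (k8 c526 c124 c2607 c544 c4476 c351 c881 c1147 (k4 c3161 c801 c4328 c262 (k2 c4640 c4462 k0))) (by decide +kernel)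
def c10033 : PP 8 4 T 0x2002000000000000010000000040000000000010000002000000011000020 := rS 0x4341112630516a227332824549449c5c361768944a63b0099c2a074b878423f (k8 c4288 c10031 c4466 c1193 c526 c4284 c654 c54 (k8 c4403 c4290 c4435 c4298 c4431 c4292 c4416 c1655 (k8 c275 c274 c2188 c7044 c3561 c4411 c6846 c4462 (k4 c843 c4794 c6109 c7682 (k1 c4410 k0))))) (by decide +kernel)
def c10034 : PP 8 4 T 0x40000000000000000800000004000010000000000000000000420 := rS 0x71c022372b020b607 (k8 c526 c574 c4462 c4476 c2187 c345 c801 c9056 (k1 c1415 k0)) (by decide +kernel)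
def c10035 : PP 8 4 T 0x1000000002002000000000000101400000000000014004000000001010000081001820 := rS 0x44a20a5a2c34fc84121246c7d40b2422397e12c2e4f2384c5ac7699b436670a83caa5a (k8 c271 c2200 c2199 c4284 c654 c4292 c694 c5695 (k8 c4289 c4286 c4401 c4404 c4297 c4431 c4434 c4480 (k8 c359 c4300 c4305 c4380 c4379 c4470 c4209 c272 (k8 c8569 c2107 c4381 c4397 c1402 c6629 c4490 c4498 k0)))) (by decide +kernel)
def c10036 : PP 8 4 T 0x2002000000000000010010000044050020045501000000000000001000000 := rS 0x324cb054406c2ed12894c2615 (k8 c4284 c4401 c4290 c4435 c4298 c4431 c4292 c2109 (k4 c5546 c557 c2566 c8784 k0)) (by decide +kernel)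
def c10037 : PP 8 4 T 0x1000000002002000000000000011400000040010020045500000000011005481000800 := rS 0x20e128640d150a7f7e93020a51c43142372586c5e4f19855a655 (k8 c2200 c5695 c4284 c4294 c4297 c4432 c4292 c4434 (k8 c272 c7717 c4467 c4470 c4385 c358 c2111 c4300 (k8 c670 c710 c4451 c1894 c10036 c4440 c2005 c4484 k0))) (by decide +kernel)
def c10038 : PP 8 4 T 0x1000000002002000000000000111400001140000044001400000001011004481000820 := rS 0x89a968b10421f902c941925f84d088e61a243e9c0c64b0b93c8e1316b1da66d0d99c2a0d07954ba5a (k8 c271 c841 c2200 c2199 c529 c4284 c654 c4292 (k8 c694 c5695 c4289 c4286 c4401 c4404 c4297 c4431 (k8 c4434 c843 c10035 c1420 c10037 c4381 c2214 c6936 (k8 c285 c4477 c4209 c4570 c4305 c4380 c2107 c2108 (k4 c6629 c4397 c1402 c4498 (k1 c4490 k0)))))) (by decide +kernel)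
def c10039 : PP 8 4 T 0x1000000000002000040000000000000000000000084040000000000010005480000800 := rS 0x3ed0c90a33fbf42038860dc2a2963b2456652b8260a55 (k8 c2200 c4408 c84 c1065 c1649 c4904 c1731 c4289 (k8 c4402 c4284 c272 c4467 c4470 c358 c4300 c670 (k4 c5380 c7771 c4421 c1622 (k1 c4956 k0)))) (by decide +kernel)
def c10040 : PP 8 4 T 0x1000000002002000000000000111400001140000004001400000001011004481000820 := rS 0x2ad5f1252d15088141bf09a11868905665829c8962f0b93c66d12894c5a29699b436670a8341e552b824ba5a (k8 c271 c841 c84 c1065 c2200 c2199 c529 c4284 (k8 c654 c4292 c694 c5695 c4402 c4286 c4290 c4435 (k8 c4298 c4294 c4297 c4431 c4432 c4434 c10038 c4408 (k8 c1649 c4904 c10039 c4381 c6936 c285 c4477 c4570 (k8 c4380 c2108 c4397 c1402 c4490 c4346 c4445 c2112 k0))))) (by decide +kernel)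
def c10041 : PP 8 4 T 0x400000000000000000000000000000000008000001104000000000000000000000000 := rS 0xd709 (k2 c4440 c1925 (k1 c4479 k0)) (by decide +kernel)
def c10042 : PP 8 4 T 0x400000002002000000000000511000400840000044100400000001000000080001820 := rS 0xa05b9fce91761315729351b2620aba5c1510873e9c0c61720915a2512984c763f3686cce150cc54c2a71a88486552e969829d (k8 c970 c9929 c271 c841 c2200 c277 c10031 c1306 (k8 c852 c849 c4388 c269 c4284 c654 c4292 c694 (k8 c4288 c4403 c4401 c4290 c4435 c4298 c4296 c4433 (k8 c4431 c843 c10035 c1420 c10041 c2109 c5546 c4457 (k8 c1945 c4794 c2566 c4526 c4413 c1475 c7718 c2115 (k4 c4362 c4481 c595 c1744 (k2 c10036 c851 k0))))))) (by decide +kernel)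
def c10043 : PP 8 4 T 0x2002000000000000011000400840000004100010000000000000400000020 := rS 0x222633f2492afc621261a2b61890cb05391de2630608f4824568944a6131d9b4361906a3523154e97cc2b15389c6a4359a5c7e670a83caa5704974b40a698783a21 (k8 c10031 c760 c4466 c5695 c10034 c271 c841 c84 (k8 c1065 c2200 c2199 c4284 c654 c4288 c1193 c5025 (k8 c277 c1306 c846 c852 c10032 c849 c1426 c970 (k8 c4388 c130 c100 c529 c269 c4292 c694 c4403 (k8 c4401 c4290 c4435 c4298 c4296 c4433 c10033 c9929 (k8 c10040 c4441 c7751 c10042 c4408 c1649 c10039 c1087 (k8 c4904 c4381 c282 c2115 c4477 c1787 c7718 c7126 (k2 c842 c4413 (k1 c6629 k0))))))))) (by decide +kernel)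
def c10044 : PP 8 4 T 0x2002000000000000045114420880000000000000000042001005400000000 := rS 0x65b3d76b95a1209838258bc9e33688fda6a7 (k8 c852 c5695 c4288 c4298 c4294 c4297 c4432 c4434 (k8 c10003 c2111 c362 c363 c1201 c1974 c1790 c3640 (k1 c7265 k0))) (by decide +kernel)
def c10045 : PP 8 4 T 0x2002000000000000041100400880040000001111000002001080400004020 := rS 0x1924908c34487d50c116e654fa5127172384d8e670a8351a918a89c6a971f90c3c1d10aacda1b (k8 c4292 c694 c1673 c10031 c760 c4466 c277 c4288 (k8 c1193 c1306 c846 c4388 c130 c100 c529 c4284 (k8 c654 c4289 c4401 c4404 c4416 c1655 c275 c1428 (k8 c7044 c3676 c4904 c851 c4409 c10044 c4381 c6936 (k2 c283 c7308 (k1 c2107 k0)))))) (by decide +kernel)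
def c10046 : PP 8 4 T 0x1000002000000040000000001500000800400000000000000040001005401000800 := rS 0x42bf5034508130704b0d8bc9e33 (k8 c4294 c4297 c4432 c4292 c4434 c10003 c2111 c358 (k4 c4451 c1894 c4300 c710 (k1 c4484 k0))) (by decide +kernel)
def c10047 : PP 8 4 T 0x2002000000000000011000400800000004100010000000000000400000020 := rS 0x3e325f849518461a2450a0d2a701e9fc5511528c55f1231aae126b45174b45507828861e0e8d44ea73097e2a91468bc66d12894c8e13168a58ed33686cce1510ac4320d (k8 c529 c269 c10032 c10031 c4284 c654 c4292 c694 (k8 c5695 c4289 c4402 c4286 c4401 c4404 c4290 c4435 (k8 c4298 c4294 c4432 c100 c130 c4388 c1426 c849 (k8 c852 c846 c1306 c760 c4466 c277 c10034 c2199 (k8 c2200 c271 c841 c10043 c2561 c4322 c1673 c1769 (k8 c4479 c4346 c4441 c4444 c4498 c2112 c6629 c10045 (k8 c10035 c1694 c2569 c4551 c10046 c4381 c6936 c1463 (k4 c283 c4477 c7497 c2107 (k1 c4379 k0))))))))) (by decide +kernel)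
def c10048 : PP 8 4 T 0x1000000000000000000002002000001100000000010000040050000145501000000000000001015000 := rS 0xcb05432259f432406da2512991c261563a0da617 (k8 c4431 c5695 c4570 c4289 c4284 c4401 c4404 c4290 (k8 c4435 c4298 c4292 c2107 c4421 c1790 c6175 c2109 (k2 c4410 c1653 (k1 c8784 k0)))) (by decide +kernel)
def c10049 : PP 8 4 T 0x4000000000000000000000000400000000000080050000000000000000000000000000 := rS 0xeb05 (k2 c4313 c594 (k1 c4481 k0)) (by decide +kernel)
def c10050 : PP 8 4 T 0x1000000000000000000002002000001000000000010000040050000145401000000000000001015000 := rS 0x64975f8d3 (k4 c5695 c4463 c4377 c4305 (k1 c10048 k0)) (by decide +kernel)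
def c10051 : PP 8 4 T 0x200002002000000000000000000000040000000000000000000000000001000000 := rS 0x87 (k2 c4410 c5546 k0) (by decide +kernel)
def c10052 : PP 8 4 T 0x2002000000200000000000000040000000000001020000000000001000000 := rS 0x2250e1b0bb44a2130ab34a681 (k8 c1894 c4290 c2062 c4284 c4401 c4435 c4298 c4431 (k4 c4292 c1733 c637 c2109 k0)) (by decide +kernel)
def c10053 : PP 8 4 T 0x100000000000000004000000000000100008020000020 := rS 0x4512010 (k4 c350 c872 c7962 c4352 k0) (by decide +kernel)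
def c10054 : PP 8 4 T 0x100000000000000000000000000000000000000040002000000000000000000820 := rS 0x5401 (k2 c54 c266 (k1 c6212 k0)) (by decide +kernel)
def c10055 : PP 8 4 T 0x4400000002002000000000000410000500040000040104001000000000000000000020 := rS 0x9d8ca5d847855d2d10870bb44a253099b436670a9d20a19 (k8 c269 c10051 c4481 c4284 c654 c4292 c694 c4401 (k8 c4290 c4435 c4298 c4431 c10041 c2109 c4457 c1945 (k4 c7172 c597 c4785 c4447 (k2 c1213 c4488 k0)))) (by decide +kernel)
def c10056 : PP 8 4 T 0x2002000000000000010000400040000000100010000002000000000000020 := rS 0x2250f1157a7624633995566954c82838098b86c2e4168944a613168a402670a81e0a19 (k8 c269 c10051 c526 c4284 c654 c54 c4402 c4286 (k8 c4401 c4290 c4435 c4298 c4433 c4431 c4292 c4416 (k8 c2188 c10033 c4462 c1031 c762 c662 c10054 c1614 (k8 c9785 c10055 c4344 c4346 c4498 c9925 c4794 c2109 k0)))) (by decide +kernel)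
def c10057 : PP 8 4 T 0x1000000000000000000002002000001001000010000420400000000000000000041001005400000000 := rS 0x1974b242b984ab518ad8a2f208cc8ad12894c8e3b168fc52c750a7e18d3 (k8 c5695 c4467 c4384 c7717 c4289 c4402 c4288 c4286 (k8 c4403 c4404 c4290 c4435 c4298 c4296 c4294 c4433 (k8 c4432 c1787 c1694 c858 c1700 c2115 c2112 c2110 (k2 c4459 c8140 (k1 c4573 k0))))) (by decide +kernel)
def c10058 : PP 8 4 T 0x1000000000000000000002002000001000000010000000040000000145001000000001005401015000 := rS 0x14b659215ca3880acca7e17b44a253238b452c782a84be9f861f5f8d3 (k8 c5695 c4463 c4379 c4467 c4384 c4382 c7717 c10051 (k8 c4289 c4402 c4286 c4404 c4290 c4435 c4298 c4432 (k8 c10050 c554 c4904 c4478 c4337 c7769 c2110 c8140 (k2 c4428 c4573 k0)))) (by decide +kernel)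
def c10059 : PP 8 4 T 0x2002000000000000011000400440000000101011000000001001400010420 := rS 0x220af4342512cfa1921462b312559b452612c9e3368944a647098b452c73686cce158286486c14e8788a3d50a9c5e830ba7d4b0c138200e5d7e03da60d (k8 c529 c5695 c264 c4463 c4377 c526 c4462 c2309 (k8 c4467 c4385 c4384 c4431 c4570 c4432 c4558 c7717 (k8 c10056 c4296 c262 c1232 c9929 c2189 c269 c10051 (k8 c4284 c654 c4292 c694 c4289 c4402 c4286 c4401 (k8 c4404 c4290 c4435 c4298 c4294 c4297 c4434 c2111 (k8 c4451 c2062 c10057 c10058 c1606 c818 c2110 c4421 (k4 c1790 c6175 c5422 c2109 (k2 c9756 c5693 (k1 c7769 k0))))))))) (by decide +kernel)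
def c10060 : PP 8 4 T 0x400100002002000000000000011000000020000000040001000000000005401015000 := rS 0x4233c902b51b2ccaaba586da253238b452c750a0c2e9f86205f8d3 (k8 c5695 c4463 c4380 c4467 c4384 c4431 c4570 c7717 (k8 c4289 c4402 c4286 c4404 c4290 c4298 c4292 c4457 (k8 c1945 c557 c2024 c4526 c4904 c2110 c1790 c9047 (k1 c685 k0)))) (by decide +kernel)
def c10061 : PP 8 4 T 0x2002000000001000400000000008004000000000000041000000000000000 := rS 0xc5619048ad12894c763f (k8 c4288 c4403 c4290 c4435 c4298 c4296 c4433 c1907 (k2 c1635 c2115 k0)) (by decide +kernel)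
def c10062 : PP 8 4 T 0x2002000000000000011000400440000000101011000000000001400010420 := rS 0x448600f338360a274421d829d0f11486b31f9ec10072b16c423d2985426510b86436d1 (k8 c4298 c4292 c269 c4431 c4435 c4401 c4284 c4290 (k8 c10056 c10031 c574 c4476 c526 c4462 c7540 c4288 (k8 c1185 c2189 c4296 c262 c1232 c9929 c10061 c2109 (k8 c2309 c10051 c529 c654 c264 c10059 c10060 c4441 k0)))) (by decide +kernel)
def c10063 : PP 8 4 T 0x2000000040000400000000000000000000000000010040150000000000000 := rS 0x1764b (k2 c4434 c9034 (k1 c9891 k0)) (by decide +kernel)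
def c10064 : PP 8 4 T 0x2002000000000000111000400044000000000009000041051002081011020 := rS 0x33108b640a0cfc9007c547117613157f1326ab8962f27904663b168a5a6971fb053a4555a4e1a49159951053099442e1b6899c2b05 (k8 c10051 c4284 c654 c4298 c4292 c4431 c4435 c4401 (k8 c4290 c2109 c557 c4904 c282 c4381 c1070 c1945 (k8 c4296 c1232 c9929 c4288 c1193 c5695 c4402 c4286 (k8 c4403 c4294 c4433 c4297 c4432 c4434 c2112 c284 (k8 c4346 c9441 c7718 c2115 c4362 c10063 c4348 c2190 (k8 c281 c9900 c4570 c1462 c5095 c2108 c1168 c1482 k0)))))) (by decide +kernel)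
def c10065 : PP 8 4 T 0x2000000040000400000000000000000000000000000040050000000008020 := rS 0x724d (k2 c2192 c2190 (k1 c10063 k0)) (by decide +kernel)
def c10066 : PP 8 4 T 0x40040000400000000000080004000000001405550000000001000 := rS 0x5c2dce2b5 (k4 c1434 c7095 c7094 c2113 (k1 c7096 k0)) (by decide +kernel)
def c10067 : PP 8 4 T 0x2002000000000000011000400040000004100011000000000000400000420 := rS 0x42a9d98b65cc5470b5a19f9025d7e20c1f17613157f1318124482b49995108760a74c23508878861d1baccf6560416c362f0b93c824568944a647098ec7ec769804ce151081d620d47c14323d (k8 c10056 c269 c10051 c10047 c529 c10032 c526 c10031 (k8 c4284 c654 c54 c5695 c4289 c4288 c4403 c4401 (k8 c4404 c4290 c4435 c4298 c4296 c4433 c4297 c4431 (k8 c4432 c4292 c574 c4462 c4476 c7540 c1185 c2187 (k8 c1058 c2189 c262 c345 c1059 c881 c1232 c9929 (k8 c10061 c2109 c557 c1070 c4904 c10062 c282 c10064 (k8 c4441 c4566 c7718 c2115 c4362 c10065 c4570 c4463 (k8 c1335 c4380 c7126 c4392 c1434 c10066 c4348 c1201 (k4 c4492 c1168 c2066 c1482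 (k1 c9055 k0)))))))))) (by decide +kernel)
def c10068 : PP 8 4 T 0x1000000000000000000002002000001000000010000000440000004100011000001001005400010820 := rS 0x1ccb4942bae4eaaa57c2512b567d0d6e484ba8c56932e989f8831c8bc2e3368944a6471d8b452c73686cce0d82865661507985429146a7e18d3 (k8 c5695 c4467 c4384 c4383 c4328 c7717 c615 c305 (k8 c4284 c662 c269 c10051 c529 c654 c4292 c694 (k8 c4289 c4402 c4286 c4403 c4404 c4290 c4435 c4298 (k8 c4294 c4431 c4432 c358 c4570 c4463 c10058 c4377 (k8 c1609 c1606 c818 c817 c4200 c9989 c4421 c1790 (k8 c1702 c6175 c5422 c9756 c2112 c3621 c4548 c7050 (k4 c9762 c4476 c3563 c843 k0))))))) (by decide +kernel)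
def c10069 : PP 8 4 T 0x2000101000002000000100004400000000000040000000001000001150000000000000 := rS 0x495c9f286471d8fd8eb5 (k8 c4389 c4289 c4288 c4403 c4404 c8226 c4483 c1356 (k2 c1622 c2113 k0)) (by decide +kernel)
def c10070 : PP 8 4 T 0x100000002000000000000000054000000020000040001000000000005400000000 := rS 0xa8ca49238b452c7 (k8 c4289 c4402 c4286 c4404 c1622 c1650 c2110 c4904 k0) (by decide +kernel)
def c10071 : PP 8 4 T 0x2000000000000000054000000040000008001001000000005400000000 := rS 0x2b238b42a29 (k4 c4402 c4284 c4286 c4404 (k2 c1606 c7230 k0)) (by decide +kernel)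
def c10072 : PP 8 4 T 0x2002000000000000011000000440000004100011000001001005400000820 := rS 0xc8881521c92cba11f546853fbf420c940b368a4c52a7e18a75092c362f0b93c66d12894c8e13168a58ed3338560a19 (k8 c269 c10051 c4284 c654 c5695 c4289 c4402 c4286 (k8 c4401 c4404 c4290 c4435 c4298 c4294 c4297 c4431 (k8 c4432 c4292 c4434 c7717 c4558 c4467 c4384 c4385 (k8 c2111 c4451 c2062 c1894 c10052 c10068 c4300 c670 (k8 c710 c5380 c10070 c4483 c4425 c4421 c7075 c2110 (k2 c2109 c4904 (k1 c557 k0))))))) (by decide +kernel)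
def c10073 : PP 8 4 T 0x100000000000000004000000000000000008500000820 := rS 0xe4381f (k4 c2312 c4466 c1140 c10053 k0) (by decide +kernel)
def c10074 : PP 8 4 T 0x2002000000000000011000000440000004100011000001000001400010820 := rS 0x3996928575cad56e752425d4693550acc46a43424ba897e0e42ed12894c8e131d8b452c73686cce0d82865661507a85228d4fc31a7131809d6221 (k8 c10031 c10032 c10073 c10072 c4441 c5695 c4467 c4384 (k8 c4383 c4328 c7717 c305 c4284 c662 c269 c10051 (k8 c529 c654 c4292 c694 c4289 c4402 c4286 c4403 (k8 c4401 c4404 c4290 c4435 c4298 c4431 c358 c4463 (k8 c10060 c4377 c5422 c2109 c4479 c10041 c5424 c1924 (k8 c1609 c818 c817 c4200 c3621 c9989 c1702 c4548 (k4 c7050 c9762 c4476 c3563 (k1 c843 k0)))))))) (by decide +kernel)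
def c10075 : PP 8 4 T 0x400001002002000000000001511000400440040004104001010000140045400000020 := rS 0x7c3a3421a617ec262c5ce8736450c907d51a5ccaaba5a210e1720b44a2532384c5a29639b436670a8860a1950a451a9f862dc76d3 (k8 c5695 c4403 c7094 c4467 c4384 c4383 c4328 c7717 (k8 c269 c10051 c10031 c4284 c654 c4292 c694 c4289 (k8 c4402 c4286 c4401 c4404 c4290 c4435 c4298 c4433 (k8 c4431 c10041 c2109 c4457 c1945 c557 c4785 c4526 (k8 c10070 c4200 c4421 c4483 c4956 c8577 c4417 c1784 (k8 c597 c9874 c10055 c2054 c10063 c1031 c1099 c4466 k0)))))) (by decide +kernel)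
def c10076 : PP 8 4 T 0x101000002000000000000000014000000040000048001000000000005400000000 := rS 0x1433e92146c9 (k4 c1728 c819 c10071 c10070 (k2 c4421 c4483 k0)) (by decide +kernel)
def c10077 : PP 8 4 T 0x2002000000000000011000400040000004100011000000000001400000020 := rS 0x1c934e2b56450c907d15a8ccaaba5a210e631b9fdfa1089a7c610c5085da2512991c262d14b1da66d0d99d1f050c8f56615138296221 (k8 c10031 c10032 c10067 c10073 c4284 c662 c10056 c269 (k8 c10051 c10047 c654 c4292 c694 c5695 c4289 c4402 (k8 c4286 c4401 c4404 c4290 c4435 c4298 c4431 c7717 (k8 c4467 c10072 c4384 c4441 c10074 c4300 c670 c319 (k8 c10076 c10041 c2109 c4457 c1945 c557 c4526 c4904 (k8 c10070 c4200 c4421 c4483 c1702 c2566 c10052 c359 (k1 c10075 k0))))))) (by decide +kernel)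
def c10078 : PP 8 4 T 0x800000002002000000000000010000000040000000000001000000001000001000020 := rS 0x64440a90eab57a74362f0b8cda2512984c5a290099c2b05 (k8 c10051 c4284 c654 c54 c4402 c4286 c4401 c4290 (k8 c4435 c4298 c4294 c4431 c4432 c4292 c4344 c4346 (k4 c4445 c9925 c2112 c2109 (k2 c4904 c557 k0)))) (by decide +kernel)
def c10079 : PP 8 4 T 0x400000000000000000000000001000000002000001100000000000000000000000000 := rS 0xd709 (k2 c4321 c563 (k1 c4479 k0)) (by decide +kernel)
def c10080 : PP 8 4 T 0x2000000040000000000000000001000000000000010000000000001015000 := rS 0x201f8832586c2e4f (k8 c4297 c4431 c4292 c4434 c4570 c4463 c2108 c4380 k0) (by decide +kernel)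
def c10081 : PP 8 4 T 0x2002000000000000011000400040000004100011000000001000400000020 := rS 0xbf1a90d3a1e2d15d76601b8410b132692da66d0dac4320d078e4480a (k8 c10067 c10077 c2214 c305 c529 c269 c10032 c4292 (k8 c694 c5695 c4434 c284 c10078 c10079 c10080 c319 (k8 c279 c9034 c881 c4476 c575 c968 c277 c1100 (k2 c4566 c9891 k0)))) (by decide +kernel)
def c10082 : PP 8 4 T 0x400100002002000000000000000000000001000001100001000000000002001015000 := rS 0xcfa19f892cba5a22106b533368a4c7e20c2ed12984c2ad3 (k8 c5695 c4284 c4401 c4290 c4298 c4431 c4570 c4463 (k8 c10080 c4451 c2062 c285 c2008 c4479 c5422 c4457 (k4 c2024 c4573 c7126 c4392 (k2 c1521 c6175 k0)))) (by decide +kernel)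
def c10083 : PP 8 4 T 0x2002000000000000011000400040000004100011000000000000400000020 := rS 0x263217e3521a743c5a2badd7714300dcfefd0821626301c8901eb30512c7615699b436b106c14323d (k8 c10056 c269 c10051 c529 c10032 c4292 c694 c5695 (k8 c4284 c4403 c4434 c10067 c662 c305 c10077 c2214 (k8 c10081 c4441 c10079 c10082 c4300 c670 c319 c279 (k8 c7962 c9034 c7094 c881 c4476 c575 c968 c277 (k4 c1100 c4566 c10069 c9891 (k1 c10052 k0)))))) (by decide +kernel)
def c10084 : PP 8 4 T 0x10000100002002000000000001401100004400000104008008000000041085480010020 := rS 0xa35b974729f7e131230c53a841e4b1793c663b698351a97 (k8 c817 c1067 c529 c5695 c4403 c4294 c4297 c4432 (k8 c4434 c264 c1735 c4558 c4467 c1154 c2111 c4463 (k4 c4384 c9911 c4377 c7094 (k2 c818 c7050 k0)))) (by decide +kernel)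
def c10085 : PP 8 4 T 0x100000002000000100001100000000000000104000000000000000000000008220 := rS 0x2dcfe3924bf48e3b1fb1c6e35 (k8 c1059 c2187 c4289 c4288 c4403 c4404 c4376 c2191 (k4 c2190 c1455 c5279 c4559 k0)) (by decide +kernel)
def c10086 : PP 8 4 T 0x2002000000000000011000400040000004100010000000000000400000020 := rS 0x1c2f8e07884a101e4d122946312621dd86c18b2d6329d4b8443c431baccf6560416d2b1164a4c4e0b151d4c4541ec14824568944a63b1fb4c4207588641a8f (k8 c10047 c529 c269 c10032 c526 c10031 c5695 c4288 (k8 c4403 c4290 c4435 c4298 c4296 c4433 c10051 c10056 (k8 c10083 c267 c1686 c266 c306 c2310 c1609 c3655 (k8 c4411 c1694 c574 c4462 c4476 c7540 c1185 c2187 (k8 c2189 c262 c345 c817 c1232 c5015 c7420 c4487 (k8 c9929 c4362 c9759 c2115 c7718 c4441 c4444 c10084 (k8 c284 c10085 c10080 c4321 c4482 c602 c603 c7095 (k1 c1240 k0)))))))) (by decide +kernel)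
def c10087 : PP 8 4 T 0x2000010100000000000000080010000000000020000000000000015000 := rS 0x249fd9b452991c261563d2caacb (k8 c1752 c1766 c4427 c4289 c4284 c4401 c4404 c4290 (k4 c4451 c2062 c725 c4573 (k1 c2107 k0))) (by decide +kernel)
def c10088 : PP 8 4 T 0x2002000000000000001000000080000004100000000000000001400000220 := rS 0x44d084d3eb254a5f7e4302227258cda26d0d8641a0f53c24c2d3 (k8 c5695 c615 c4322 c10010 c264 c529 c269 c4292 (k8 c694 c4298 c4294 c4434 c2309 c345 c4467 c4463 (k8 c4382 c4385 c4305 c4379 c10087 c10080 c4502 c10079 k0))) (by decide +kernel)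
def c10089 : PP 8 4 T 0x2002000000000000001400000080000001100000000000000005401015000 := rS 0x22684269f592fc2586c66d12fa9618d3 (k8 c5695 c4467 c4385 c4382 c4298 c4294 c4292 c4434 (k4 c4463 c4305 c4379 c10087 (k2 c10080 c4502 (k1 c10079 k0)))) (by decide +kernel)
def c10090 : PP 8 4 T 0x1000000000050040000114010000081004004000000420404440115501000800 := rS 0x3c340e8f572954bb12331257c4454b75aa8e283964338e27724a0902cda2c26969146a7e18cb (k8 c1753 c4467 c4384 c4383 c4328 c4427 c4322 c4451 (k8 c2062 c1894 c4484 c4573 c2003 c2569 c645 c644 (k8 c359 c4480 c1524 c1705 c7094 c2110 c4411 c1774 (k8 c4491 c8237 c7804 c1253 c3728 c1255 c1782 c5153 (k2 c2113 c4466 (k1 c1099 k0)))))) (by decide +kernel)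
def c10091 : PP 8 4 T 0x2002000000000000011000000080000004100010000000000001400000020 := rS 0x721c1596d2b114b9a94664898c09a3742bf420a548c3142273d82812a707984962f0b93c66512991c263b168547e2963b4c4207588641b0943a2696ab3686caad1 (k8 c4298 c1766 c4292 c694 c1673 c4427 c187 c186 (k8 c4322 c529 c269 c10032 c526 c10031 c5695 c4289 (k8 c4402 c4288 c4284 c4286 c4403 c4401 c4404 c4290 (k8 c4435 c4294 c4297 c4431 c4432 c4434 c615 c264 (k8 c10010 c10088 c4462 c702 c10073 c7717 c4467 c4328 (k8 c4385 c10089 c4300 c710 c319 c10090 c2111 c4441 (k8 c7856 c4526 c4479 c4785 c4412 c1697 c2561 c5424 (k2 c6846 c1140 (k1 c7455 k0))))))))) (by decide +kernel)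
def c10092 : PP 8 4 T 0x10000002002000000001000011001440100000000000000000041050000000008020 := rS 0xb857c496ab75f0e492471d8fd8ed3 (k8 c5695 c4289 c4288 c4403 c4404 c2191 c2190 c10065 (k4 c7094 c1518 c5760 c9441 (k2 c2113 c9917 k0))) (by decide +kernel)
def c10093 : PP 8 4 T 0x1000002000000040000000000000000002004004000000010040140000000001200 := rS 0x798a1c46abb (k4 c1442 c1059 c7095 c4470 (k2 c602 c9686 k0)) (by decide +kernel)
def c10094 : PP 8 4 T 0x1000002002000000001000011000050010004005100009010041040000001015200 := rS 0x249fd9cbf8a8e188c38cc45331235aee8a8420915a2512991c263b168547ec7649f5f8d3 (k8 c5695 c4463 c4379 c4305 c4289 c4288 c4284 c4286 (k8 c4403 c4401 c4404 c4290 c4435 c4298 c4296 c4433 (k8 c10080 c4397 c1442 c563 c10079 c1072 c4498 c5015 (k8 c4958 c2115 c10093 c4348 c1241 c8360 c9749 c1790 (k1 c2107 k0))))) (by decide +kernel)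
def c10095 : PP 8 4 T 0x10000002002000000000000011000400080000004100010000000000000000011420 := rS 0x4c3eb25f80f4ea5d2a8d1a87886371e9ecac082d9147ed3368840f0944955a2c10c84c3663 (k8 c1769 c4292 c4401 c269 c9923 c4298 c1766 c187 (k8 c4322 c526 c10031 c694 c5695 c4288 c4296 c574 (k8 c4462 c4476 c7540 c2188 c2187 c2189 c262 c1059 (k8 c1067 c802 c1193 c1232 c10092 c4463 c4305 c4379 (k2 c10094 c10087 k0))))) (by decide +kernel)
def c10096 : PP 8 4 T 0x10000000020002000001001 := rS 0x168388c (k4 c1369 c1370 c7910 c758 k0) (by decide +kernel)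
def c10097 : PP 8 4 T 0x10000000002000000100000010040000080010000000001001000000080000015000 := rS 0x19a7e2384c2ac7 (k4 c4289 c4284 c4401 c4404 (k2 c2107 c5716 (k1 c725 k0))) (by decide +kernel)
def c10098 : PP 8 4 T 0x2002000000000000011000400080000004100010000000000002000011020 := rS 0x2087e32b314048150c55f12a2a109acb3eb25f80f050bc6651298b452d333854334b559b4365568c3546c7 (k8 c4289 c1463 c4381 c4298 c1766 c4292 c694 c1673 (k8 c4427 c269 c4284 c654 c5695 c4402 c4286 c4290 (k8 c4435 c4294 c4432 c10095 c305 c4463 c4305 c4379 (k8 c1752 c10087 c10080 c4397 c10079 c4346 c4441 c2112 (k4 c10097 c283 c4573 c1736 (k2 c1481 c4904 (k1 c4313 k0))))))) (by decide +kernel)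
def c10099 : PP 8 4 T 0x2002000000000000011000400000000004100010000000000000400000020 := rS 0x248f572cd67311047740c668abe2690d6abd188796ebb8a448b4393d9c4d657051806e0942bf4203512226128a2593c82456891c763f63b4c026d0d81d620d (k8 c529 c10032 c526 c4292 c694 c54 c5695 c4289 (k8 c4288 c4403 c4404 c4298 c4296 c4433 c4297 c4434 (k8 c10086 c4322 c187 c10091 c10096 c10098 c4300 c710 (k8 c345 c319 c279 c4462 c881 c2604 c2563 c702 (k8 c2214 c4476 c4479 c4480 c9034 c7094 c575 c4441 (k8 c4354 c4389 c277 c284 c2114 c4399 c4369 c1364 (k8 c1093 c4484 c7804 c645 c2064 c1255 c1782 c1790 (k1 c2113 k0)))))))) (by decide +kernel)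
def c10100 : PP 8 4 T 0x40000000000000400100002002000000400000000000000001100000020001000000000001001011020 := rS 0x5f3f2968aa77e12498270d8bc2e5309855a60f (k8 c264 c5695 c4284 c4401 c4290 c4431 c4432 c4292 (k8 c350 c10080 c9047 c4463 c4558 c4451 c1935 c7126 (k2 c7647 c554 k0))) (by decide +kernel)
def c10101 : PP 8 4 T 0x400000002002000000400000021000400041100004024050000000000001401000020 := rS 0x9d5fb157274a132498a548add7714389ce18a71ca4c4e1c050dc127f7e840fa4b0d8bc2e4f19b44a2131d855a62103ac41b4b1894cab0559a353256 (k8 c4476 c9910 c1067 c552 c10051 c267 c4290 c2046 (k8 c4458 c529 c10032 c526 c10031 c5695 c4284 c4403 (k8 c4401 c4435 c4298 c4294 c4297 c4431 c4432 c4292 (k8 c4434 c9990 c10100 c4300 c670 c345 c319 c4462 (k8 c6846 c10073 c1029 c1140 c4558 c4467 c1648 c583 (k8 c7962 c9034 c7094 c4328 c4385 c2111 c10052 c4483 (k4 c5124 c4394 c1784 c9871 (k2 c947 c7247 k0)))))))) (by decide +kernel)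
def c10102 : PP 8 4 T 0x2002000000000000001000400040000004100010000000000000400000020 := rS 0x1b8f56ec98a23c10a12e02cbe397e838fe11268d5470d12205971330a14d4b32d99111050d85da251098ed8ed30080cce151081d621906c450e3129954c6ac (k8 c10099 c820 c267 c4290 c2046 c1904 c4338 c529 (k8 c269 c10032 c526 c10031 c4284 c654 c55 c54 (k8 c5695 c4289 c4403 c4401 c4435 c4298 c4431 c4292 (k8 c10051 c2109 c6230 c2558 c552 c556 c2527 c2602 (k8 c4442 c3930 c3959 c10101 c4381 c1463 c10096 c284 (k8 c279 c555 c10080 c4376 c2190 c1376 c305 c265 (k8 c1737 c4462 c10034 c4628 c7497 c5964 c2188 c2187 (k1 c10069 k0)))))))) (by decide +kernel)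
def c10103 : PP 8 4 T 0x2002000000000000021000010080000004100010000000000001400000020 := rS 0xf0d03b171eae52e74624651eb75ad0d47141cb219c713b925043742bf502cda2a7d1a910813218273d82996a104a9c1e61258bc9e33688eda62103ac4320d88d2c62534ea96246b57c24da1b (k8 c4292 c694 c4322 c193 c565 c4479 c4444 c4344 (k8 c4290 c2046 c4458 c4338 c529 c269 c10032 c526 (k8 c10031 c5695 c4403 c4298 c4294 c4297 c4432 c4434 (k8 c615 c264 c10010 c10088 c900 c2026 c4462 c702 (k8 c10073 c4467 c2111 c10089 c4328 c4383 c4384 c4451 (k8 c2062 c1894 c4300 c710 c319 c4484 c4573 c2003 (k8 c2569 c645 c644 c359 c4480 c1523 c4422 c1705 (k8 c7094 c4388 c4539 c7804 c4632 c1252 c1255 c1782 (k4 c4417 c5153 c7114 c4466 (k1 c1099 k0)))))))))) (by decide +kernel)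
def c10104 : PP 8 4 T 0x40040011000000000000000000000000000405450000000008020 := rS 0x2d87249 (k4 c2191 c2190 c2113 c7094 k0) (by decide +kernel)
def c10105 : PP 8 4 T 0x101000002002000000401000000000110014000004000011010000010000001011420 := rS 0x927f672fe2a38649f577454203d891961ae56a974687886371e9ecac8f0416c824568944a647098ec2a3f63b4c4207 (k8 c526 c10031 c5695 c4289 c4288 c4284 c4403 c4401 (k8 c4404 c4290 c4435 c4298 c4296 c4433 c574 c4462 (k8 c10034 c4476 c7540 c2188 c2187 c2189 c262 c1067 (k8 c1193 c7420 c6781 c4958 c9828 c2115 c10104 c10080 (k8 c4397 c1442 c1502 c717 c10093 c4348 c1241 c8360 (k2 c9749 c1790 (k1 c2107 k0))))))) (by decide +kernel)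
def c10106 : PP 8 4 T 0x1000002000000040000000000000000002004004000000010000150000001001000 := rS 0xef19212fcf271 (k4 c7095 c602 c7782 c10063 (k2 c4446 c1886 (k1 c4482 k0))) (by decide +kernel)
def c10107 : PP 8 4 T 0x2000000100000020040000000010000140001001000000000000015000 := rS 0x1960a7e2384c2ac7 (k8 c4289 c4284 c4401 c4404 c2107 c9269 c555 c6230 k0) (by decide +kernel)
def c10108 : PP 8 4 T 0x1000002002000000401000020000110010000004100010000000000002000011020 := rS 0x8ba5d263c5aa80544846c546cc93ea10720f3d82836d333854421988a1caa6313a8d8e35009346253 (k8 c4290 c2046 c284 c54 c10096 c4289 c1463 c115 (k8 c820 c267 c1904 c4338 c269 c10031 c4284 c654 (k8 c5695 c4292 c10105 c702 c305 c2214 c10080 c1502 (k8 c717 c10106 c4386 c1384 c10107 c282 c283 c1703 (k4 c4209 c1739 c7302 c4416 (k1 c4487 k0)))))) (by decide +kernel)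
def c10109 : PP 8 4 T 0x2002000000000000001000400000000004100010000000000000400000020 := rS 0x6712286be5c8f486b54b8796f142d0e4e257051806e097e841964d1aa8c4e244cc48d68984a292a3160d2e22af56344a6471d8fd8ed3009b436670a81d620d (k8 c529 c10032 c526 c4284 c654 c4292 c694 c54 (k8 c5695 c4289 c4288 c4403 c4404 c4290 c4298 c10099 (k8 c193 c4338 c4458 c1986 c2046 c860 c10102 c4322 (k8 c187 c565 c4479 c4443 c10103 c115 c1463 c10096 (k8 c284 c7113 c10108 c4300 c345 c319 c279 c4462 (k8 c881 c2563 c2214 c4476 c4480 c7094 c575 c928 (k8 c4389 c277 c275 c5821 c10063 c8226 c2113 c9033 (k1 c1790 k0)))))))) (by decide +kernel)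
def c10110 : PP 8 4 T 0x400000000000000000000000000000000002000001100400000000000000000000000 := rS 0xd709 (k2 c4321 c562 (k1 c4479 k0)) (by decide +kernel)
def c10111 : PP 8 4 T 0x2002000001000000002000400000000000000008000041150000080000020 := rS 0x261891961905a251298ec7f4589a941e2527b053a45 (k8 c4296 c1232 c9929 c4297 c1503 c264 c190 c4345 (k8 c4398 c4288 c4403 c4290 c4435 c4298 c4433 c9916 (k4 c9915 c2115 c4488 c3072 k0))) (by decide +kernel)
def c10112 : PP 8 4 T 0x100002002000000000000012004401140010004000010020001000000000000420 := rS 0x28d6b10392556e933ab0a2e6562c6130b91c3053a971a8788637599591e082d9147ed303a859a53 (k8 c4290 c2062 c7768 c526 c5695 c4288 c4296 c574 (k8 c4462 c10034 c4476 c1185 c2187 c2189 c262 c1059 (k8 c1193 c1232 c9929 c10111 c1201 c9913 c9911 c3072 (k8 c9910 c9283 c5577 c9895 c1070 c1168 c803 c4481 (k4 c4986 c1618 c4337 c2125 k0))))) (by decide +kernel)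
def c10113 : PP 8 4 T 0x40040000400000000000000004000001001405550000000155000 := rS 0x3fb24fafc (k4 c4463 c4379 c4305 c10066 (k1 c2107 k0)) (by decide +kernel)
def c10114 : PP 8 4 T 0x1000000000000420000002002000000000000400010000040000005100011000001150000401015000 := rS 0x3996928575c9d54697498ad54623521a12896792286b547c5036d12891c262d0a8fc52c748a353f054185cbafc669310a5f29adc76d3 (k8 c5695 c4403 c7094 c4290 c4382 c10110 c10080 c2062 (k8 c4463 c4377 c4431 c4570 c10051 c4384 c4383 c4328 (k8 c4289 c4402 c4288 c4284 c4286 c4401 c4404 c4435 (k8 c4298 c4292 c4470 c4388 c4389 c8226 c10113 c1790 (k8 c6175 c5422 c2109 c4479 c10041 c1924 c5424 c1609 (k8 c817 c818 c3621 c4548 c7050 c9762 c4476 c3563 (k1 c843 k0))))))) (by decide +kernel)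
def c10115 : PP 8 4 T 0x1000000000000420000002002000000000000000000000040000000100001001000000004400014020 := rS 0x312890c2b449959f433f344a247098b452c7338553f054185cbac93ebf19a4c4297cda1b06865a653 (k8 c4290 c5695 c269 c529 c4292 c694 c4382 c10110 (k8 c10080 c2062 c4463 c4379 c4305 c4377 c4431 c4570 (k8 c10051 c4384 c4284 c654 c4289 c4402 c4286 c4401 (k8 c4404 c4435 c4298 c2107 c4392 c1521 c554 c6175 (k4 c4904 c2109 c4200 c10041 (k1 c818 k0)))))) (by decide +kernel)
def c10116 : PP 8 4 T 0x120000000002000000000000000050040000000000000000000000100044420000000 := rS 0x2545291 (k4 c4328 c4402 c762 c7455 k0) (by decide +kernel)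
def c10117 : PP 8 4 T 0x2002000000000000010000400040000004100010000000000000400010020 := rS 0x1a0786e1d88a8d2e2b55188d48684a259f43240e4aab305334fa5d263f1061768944a6130a8841b455083d228d4fa14bf0c138cda62527c4d506d0dc14323d (k8 c10056 c269 c10051 c4292 c694 c10109 c4345 c4297 (k8 c1503 c5695 c4294 c974 c4467 c4382 c10110 c4384 (k8 c4383 c4328 c264 c7768 c4398 c529 c10031 c4284 (k8 c4401 c4290 c4435 c4298 c4431 c4570 c4463 c10080 (k8 c4377 c4379 c2062 c10112 c662 c306 c358 c10115 (k8 c4421 c1790 c6175 c5422 c2109 c4479 c10041 c1924 (k8 c5424 c817 c818 c4415 c10116 c322 c4466 c10114 (k1 c1100 k0)))))))) (by decide +kernel)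
def c10118 : PP 8 4 T 0x2002000000000000010000400040000004100010000000000000400000020 := rS 0x4866a8c56cb8819696884398caa0a049fdfa101e85da2512991c262d14b1cda1b338540f4589a853f0c138cda6255413e0a19 (k8 c269 c10051 c4297 c10109 c1503 c5695 c4294 c974 (k8 c4467 c4384 c7768 c4345 c4398 c526 c4284 c654 (k8 c4292 c694 c4289 c4402 c4286 c4401 c4404 c4290 (k8 c4435 c4298 c4431 c10056 c10117 c4300 c670 c345 (k8 c4462 c306 c10076 c10041 c2109 c4457 c557 c4794 (k4 c2025 c4904 c4337 c1483 (k2 c2110 c4573 k0))))))) (by decide +kernel)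
def c10119 : PP 8 4 T 0x2002000000000000000000400040000004100010000000000000400000020 := rS 0x3f0fec9249f6865567288c6ac82b4426670a8641a0f4297e182719b4c4a4f89aa0da1b (k8 c4292 c694 c10109 c4345 c4297 c1503 c5695 c4294 (k8 c974 c4467 c4382 c10110 c264 c529 c269 c4284 (k8 c654 c4401 c4298 c10051 c10118 c820 c948 c949 (k8 c267 c4393 c1354 c1790 c1792 c1521 c4483 c7126 k0)))) (by decide +kernel)
def c10120 : PP 8 4 T 0x2002000000000000000000400000000004100010000000000000400000020 := rS 0x8935f8cc41a8856ae321a8ab4b44a1e128a42a7cbe0f862044a2789aa01a4b0b93c66d12894c8e131685452c7699b43619 (k8 c269 c4292 c694 c5695 c4289 c4402 c4284 c4286 (k8 c4401 c4404 c4290 c4435 c4298 c4294 c4297 c4431 (k8 c4434 c529 c10109 c4345 c974 c1503 c1362 c4467 (k8 c264 c4382 c4384 c10110 c10119 c4322 c186 c187 (k8 c4427 c1766 c4479 c7856 c565 c5424 c7774 c9071 (k4 c989 c5323 c2062 c4300 (k1 c2108 k0))))))) (by decide +kernel)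
def c10121 : PP 8 4 T 0x2002000000000000011000040040004004100008010041050000000015020 := rS 0x1de32c34a9e4c42a5f95222ab18abd3238891ae1284258bc9e4119915a251298b47e293686c32830ba05f8d3 (k8 c5695 c4463 c4380 c4431 c4570 c269 c4292 c694 (k8 c4402 c4288 c4286 c4290 c4435 c4298 c4296 c4294 (k8 c4433 c4297 c4432 c4434 c2108 c4321 c563 c10079 (k8 c10106 c1072 c4346 c4441 c4445 c4498 c10078 c1241 (k8 c2112 c267 c603 c1694 c4958 c5015 c9759 c4482 k0))))) (by decide +kernel)
def c10122 : PP 8 4 T 0x1000000000000000000002002000001000000000000000045000000000001000000000000001015000 := rS 0x19f433f125974b4406da2512991c261563a0c2ec9409f5f8d3 (k8 c5695 c4463 c4379 c4380 c4305 c4431 c4570 c4289 (k8 c4284 c4401 c4404 c4290 c4435 c4298 c4292 c2109 (k4 c4457 c2024 c9047 c2107 (k2 c4392 c1521 (k1 c6175 k0))))) (by decide +kernel)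
def c10123 : PP 8 4 T 0x1000000000000400000002002000001000000001001440044000000100018000041000000000015020 := rS 0x1851662c452a93151d4c454429048ad12894c763f3686c32c1 (k8 c9929 c269 c4292 c694 c4288 c4403 c4290 c4435 (k8 c4298 c4296 c4433 c10079 c10122 c267 c1686 c266 (k4 c1609 c803 c4411 c7718 (k2 c4487 c2115 (k1 c4362 k0))))) (by decide +kernel)
def c10124 : PP 8 4 T 0x2002000000000000011000400040000004100010000000000000000011420 := rS 0x5aa8d26b74a9d4c4391515222ab4c8c55f1266d14988760a752e91468d43c430e8dd667b2b23c105b178cc8ad12894c762d1f8840e9f23a8453050c8f4bafc0788802d3 (k8 c5695 c54 c10120 c1328 c4463 c4377 c10056 c269 (k8 c10051 c4402 c770 c4404 c1299 c526 c10031 c4288 (k8 c4286 c4403 c4290 c4435 c4298 c4296 c4294 c4432 (k8 c574 c4462 c10034 c4476 c7540 c1185 c2187 c1058 (k8 c2189 c262 c1059 c1067 c768 c1193 c1232 c9929 (k8 c10061 c10121 c4451 c2062 c10123 c4346 c4441 c4443 (k8 c4445 c4498 c10078 c2112 c9913 c267 c1686 c1694 (k4 c7094 c1609 c818 c7420 (k1 c7050 k0))))))))) (by decide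 +kernel)
def c10125 : PP 8 4 T 0x800000002002000000000000010000000040000000000001000000000000001000020 := rS 0x31 (k2 c4441 c10078 k0) (by decide +kernel)
def c10126 : PP 8 4 T 0x100000000000000000000408000020000000100000000000000000000000000000 := rS 0xe717 (k2 c4418 c3563 (k1 c4481 k0)) (by decide +kernel)
def c10127 : PP 8 4 T 0x2002000000000000011000400040000004100010000000000000000011020 := rS 0x773ca64385b4a9d5469749c65546262b0e128666d14986a42c4caab33d82414812ebf0be4f2094c2a6d0d884c2a717a7c8ea525a8453050ca0da61707888023d (k8 c10056 c54 c10120 c1328 c4431 c5695 c4570 c269 (k8 c10051 c4402 c770 c4434 c1301 c4404 c1299 c4432 (k8 c772 c766 c10031 c4292 c694 c4284 c4290 c4433 (k8 c4297 c1295 c4463 c4377 c4380 c10124 c84 c702 (k8 c662 c306 c10125 c10079 c2119 c10080 c4451 c2062 (k8 c10122 c4440 c1907 c1635 c10041 c1924 c5577 c1609 (k8 c817 c818 c3621 c10126 c842 c6846 c1031 c7100 (k2 c1920 c4482 k0)))))))) (by decide +kernel)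
def c10128 : PP 8 4 T 0x410000002000000000000140001000400100000000000000000000150000880000000 := rS 0x9944538bd4a4b (k4 c4434 c1301 c4432 c772 (k2 c4490 c9123 (k1 c4451 k0))) (by decide +kernel)
def c10129 : PP 8 4 T 0x2002000000000000011000400040000004100010000000000000000010220 := rS 0x31950d712a1ad56e395daf628911a878861d5984c762d0a8fda6013686c322712a9c5e9f23a94444b1e8dc0e5d01c351e5e46958b60c (k8 c10127 c2550 c4476 c1067 c528 c1426 c4382 c55 (k8 c1288 c526 c1408 c10056 c4434 c10120 c1301 c4404 (k8 c1299 c4432 c772 c58 c114 c269 c4292 c694 (k8 c54 c5695 c4288 c4284 c4286 c4403 c4401 c1185 (k8 c1058 c2189 c262 c1059 c768 c9820 c6223 c4390 (k8 c4348 c4353 c4389 c8226 c10128 c4442 c10125 c9873 (k1 c267 k0))))))) (by decide +kernel)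
def c10130 : PP 8 4 T 0x2002000000000000011000400040000004100010000000000000000010020 := rS 0x45522701a028128d2b23e1a5b2f0300607 (k8 c526 c55 c10127 c528 c2550 c4382 c1426 c4476 (k8 c1067 c10129 c4462 c569 c568 c7808 c4387 c4486 k0)) (by decide +kernel)
def c10131 : PP 8 4 T 0x400000000000000000000500001500500500000000000000000100000000800000220 := rS 0x2309d488783a01 (k4 c54 c1058 c262 c768 (k2 c1232 c4488 (k1 c7959 k0))) (by decide +kernel)
def c10132 : PP 8 4 T 0x2002000000000000001000400040000004100010000000000000000010020 := rS 0x22a91380d014095eafe890d2f031328f46c4cac6a2da1502883e954c8cb31a1e96ac0d85c8ad12894c26d30199c2a0712a9c5e9f23a94960f110060a19 (k8 c269 c10051 c54 c10120 c1328 c4434 c1301 c4404 (k8 c1299 c4432 c772 c58 c526 c4284 c654 c55 (k8 c5695 c4401 c4290 c4435 c4298 c4296 c4431 c4292 (k8 c10130 c4458 c1904 c820 c2026 c6230 c267 c1650 (k8 c2109 c2045 c2527 c2558 c556 c4476 c4442 c1067 (k8 c9056 c9910 c10100 c528 c4382 c7647 c4399 c4454 (k4 c10131 c4462 c569 c568 (k2 c7808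 c4387 (k1 c4486 k0))))))))) (by decide +kernel)
def c10133 : PP 8 4 T 0x400100002002000000101000000011400000040420055500000041000000000000000 := rS 0x186c53924cf910209147615 (k8 c4284 c4403 c4296 c4433 c4478 c8784 c4413 c1420 (k2 c7718 c1087 (k1 c9804 k0))) (by decide +kernel)
def c10134 : PP 8 4 T 0x2002000000000000011000400040000004100014010000010000000000020 := rS 0xc3629c9266232b251070438e17ec1219753a1e3b9682e4122b44a253098eda66d3080542293f8dd625f13888f61b598f626550502420078299c2a19 (k8 c269 c4284 c654 c10051 c526 c10132 c345 c4462 (k8 c10054 c10125 c10056 c662 c4292 c702 c10120 c114 (k8 c543 c10032 c319 c670 c4402 c770 c54 c766 (k8 c694 c5695 c4403 c4401 c4290 c4435 c4298 c4296 (k8 c4433 c4431 c4476 c7751 c575 c968 c841 c277 (k8 c9929 c4566 c10063 c10061 c359 c2109 c2566 c557 (k4 c10133 c1609 c843 c7718 (k2 c1087 c9804 k0)))))))) (by decide +kernel)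
def c10135 : PP 8 4 T 0x2002000000000000510014401140000004100009000001010000000020020 := rS 0x44144884b9d50f16319cd90b55bc50721768944a613699b4366782bf4fe15898653241478dd261c2d884123b (k8 c4403 c345 c10031 c92 c6846 c1029 c319 c761 (k8 c4433 c1031 c269 c10125 c4284 c670 c4300 c10051 (k8 c654 c4292 c694 c5695 c4401 c4290 c4435 c4298 (k8 c4431 c1139 c7962 c7094 c4389 c10069 c1730 c1728 (k8 c10055 c10041 c4417 c4360 c2109 c7050 c4794 c4337 k0))))) (by decide +kernel)
def c10136 : PP 8 4 T 0x2002000000000000011000400040000004100010010000010000000000020 := rS 0x4823c385b2b2344227308053e4750888523758accaa0a048400f050c99c2a3d (k8 c10056 c4284 c654 c269 c10051 c526 c10132 c345 (k8 c4462 c10054 c662 c10032 c319 c4402 c10120 c770 (k8 c4404 c1299 c54 c766 c114 c10031 c1297 c10134 (k4 c92 c6846 c761 c10135 (k1 c7670 k0))))) (by decide +kernel)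
def c10137 : PP 8 4 T 0x1000000000000000000000000000000000004001480000000020000000000020 := rS 0x86230ba1e (k4 c575 c841 c1099 c4477 (k1 c4383 k0)) (by decide +kernel)
def c10138 : PP 8 4 T 0x2002000000000005411014505540000004104009000000000000000000020 := rS 0x117399d12ea355d2d10870bb44a253099b436670ac162619 (k8 c269 c10125 c10051 c4284 c654 c4292 c694 c4401 (k8 c4290 c4435 c4298 c4431 c10041 c2109 c4457 c1945 (k4 c4526 c4785 c7050 c96 (k2 c4417 c10055 k0)))) (by decide +kernel)
def c10139 : PP 8 4 T 0x2002000000000000011000400040000004100010000000020000000000020 := rS 0x3aa8d2e6249a55328d0e158b6b748a3d6a411d884c2014f91d422906bf4fe5f13889665505024200782864ce15 (k8 c4284 c654 c269 c10051 c526 c10132 c345 c4462 (k8 c10054 c662 c10120 c114 c543 c670 c4300 c112 (k8 c4402 c770 c4404 c1299 c54 c766 c10031 c4403 (k8 c4433 c7883 c1306 c1036 c1037 c10137 c4476 c6846 (k8 c7910 c1031 c762 c1029 c10138 c817 c819 c1688 (k1 c7050 k0)))))) (by decide +kernel)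
def c10140 : PP 8 4 T 0x101000002000000100000100000000000040014000001000001050000000000800 := rS 0x1141cacc2ab7 (k4 c5279 c4284 c662 c359 (k2 c4480 c10069 k0)) (by decide +kernel)
def c10141 : PP 8 4 T 0x2002000000000000011000400040000004100010000000000000000000020 := rS 0x61b14e493311c0ca8843b04865d4e878ee5a2ba4618c9a29311a35898f42e4122b44a253098ecda6100a9c5e9f23a9496a114bf4fe375897c4e223d86d665505024200782864ce15 (k8 c4284 c654 c269 c10051 c526 c10132 c345 c4462 (k8 c10054 c662 c4292 c702 c10120 c114 c543 c10032 (k8 c319 c670 c4300 c4402 c770 c4434 c1301 c4404 (k8 c1299 c4432 c772 c54 c766 c694 c4403 c4401 (k8 c4290 c4435 c4298 c4296 c4433 c4431 c10056 c10125 (k8 c10139 c1297 c10136 c4451 c10052 c4490 c4328 c10135 (k8 c4476 c7751 c575 c968 c841 c277 c9929 c10061 (k8 c2109 c557 c10140 c10133 c1609 c843 c7718 c1087 (k1 c9804 k0))))))))) (by decide +kernel)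
def c10142 : PP 8 4 T 0x400000000000000010000000420000500020000040000000000002000000000000000 := rS 0x1194e9e18b17 (k4 c4416 c1782 c7172 c947 (k2 c4447 c4488 k0)) (by decide +kernel)
def c10143 : PP 8 4 T 0x4400100000000000000000000420000500060000040000000000000000000000000000 := rS 0x9d8cb14f074 (k4 c4481 c7172 c1784 c4447 (k2 c947 c4488 k0)) (by decide +kernel)
def c10144 : PP 8 4 T 0x2002000000000000001000400040000004100010000000000000000000020 := rS 0x27632978b0f4e6934cc4c38563516d106443ab0aab30502421050d85da2512984c76670a8840e19 (k8 c269 c526 c10031 c4284 c654 c4403 c4401 c4290 (k8 c4435 c4298 c4431 c4292 c10051 c10132 c345 c4462 (k8 c662 c10054 c10141 c1904 c6230 c2109 c2558 c556 (k8 c4476 c6846 c4442 c9910 c1029 c1648 c10142 c10143 (k4 c4360 c4982 c946 c4488 k0))))) (by decide +kernel)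
def c10145 : PP 8 4 T 0x400000002002000000000000010000400080000000100010000000000000000000420 := rS 0x30d8b16499cd5c643505c8251298ec2a3f36c250e89a5955a2c10c84c36562d8f4869d0f0200e45 (k8 c4296 c526 c4462 c262 c1232 c2189 c2188 c574 (k8 c4476 c4292 c4401 c269 c9923 c4298 c1766 c4427 (k8 c187 c186 c4322 c694 c4288 c4284 c4403 c4290 (k8 c4435 c4433 c4431 c4479 c7856 c565 c3714 c1069 (k4 c7773 c7718 c4362 c2115 k0))))) (by decide +kernel)
def c10146 : PP 8 4 T 0x2000010000011001501501180000000000008000001050004080012020 := rS 0x671217d435b8e576cb8a3248e3b1fb1c034b (k8 c4427 c54 c4289 c4288 c4403 c4404 c2487 c9820 (k8 c1752 c4390 c4348 c4353 c8226 c7247 c2113 c9033 (k1 c1790 k0))) (by decide +kernel)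
def c10147 : PP 8 4 T 0x2002000000000000011000400000000004100010000000000000000000420 := rS 0x7d64931f80d5aae6229957c493a9748a551a3508878861d1b8f4f65647820b645168fda66d1081c4ea717a94960f1100612892ab4582190986cc68a (k8 c10144 c1769 c4292 c4401 c269 c9923 c4298 c1766 (k8 c187 c4322 c54 c10120 c1328 c4434 c1301 c4432 (k8 c772 c114 c526 c10031 c694 c5695 c4288 c4286 (k8 c4296 c574 c4462 c10034 c4476 c7540 c2188 c2187 (k8 c1058 c2189 c262 c345 c1059 c1067 c802 c768 (k8 c1193 c1232 c10145 c4346 c4443 c4498 c9917 c7420 (k4 c10146 c4463 c10094 c4305 (k2 c4379 c10087 k0)))))))) (by decide +kernel)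
def c10148 : PP 8 4 T 0x400000002002000000000000010000000080004000100010000000000000000000120 := rS 0xe9163ba4d33191e8712b111596d2e643505c8251298ec2a2184a1d134b559b4aad160864261b (k8 c4292 c4401 c269 c9923 c4298 c1766 c694 c1673 (k8 c4427 c187 c186 c4322 c10031 c4284 c4403 c4290 (k8 c4435 c4433 c4431 c4479 c7856 c4785 c2561 c5424 (k8 c4412 c1697 c6846 c7465 c4986 c1031 c1029 c4703 (k2 c7773 c4632 (k1 c4417 k0)))))) (by decide +kernel)
def c10149 : PP 8 4 T 0x800000002002000000000000001000000080000004100080000000000000800010020 := rS 0x90cba29f592cd423f0be7f2e8348e1363b4cda1b33854c2a717a94960f00d2caad1319ae222d (k8 c4286 c4498 c4442 c1769 c4298 c1766 c4427 c54 (k8 c1328 c4434 c1301 c4432 c772 c766 c4284 c654 (k8 c4292 c694 c5695 c4289 c4401 c4404 c2550 c841 (k8 c6629 c1295 c4463 c8696 c1481 c4305 c4379 c4397 (k2 c1752 c2107 (k1 c4573 k0)))))) (by decide +kernel)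
def c10150 : PP 8 4 T 0x800000002000000040001000011000400580004004000000000002100000800000000 := rS 0x1a2f22abf3cb162e4168a9c5ea584d2d3a9948aec6e4b (k8 c4434 c1409 c9034 c769 c4443 c4344 c4427 c4322 (k8 c1301 c4432 c772 c4298 c4433 c4416 c1782 c605 (k4 c7782 c8072 c2126 c4470 (k1 c1039 k0)))) (by decide +kernel)
def c10151 : PP 8 4 T 0x801000000000000040000040001500400100004004100000000000050000800014800 := rS 0x1e108812eaf8e2fc2fc501a9d35a652239 (k8 c358 c769 c4443 c4442 c4344 c569 c4470 c1295 (k8 c4463 c7095 c7247 c4377 c4380 c4130 c7782 c602 k0)) (by decide +kernel)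
def c10152 : PP 8 4 T 0x2002000000000000011000400000000004100010000000000000000010020 := rS 0x45d2e74621de32be5e8d1763749a3d2a8d0e158b6911c90476d310a9c5ea52583c44018498d3a9988c48f61b04829142d (k8 c4286 c10144 c10147 c84 c4292 c702 c10148 c4498 (k8 c4443 c4344 c1769 c4322 c54 c10120 c1328 c4434 (k8 c1301 c4432 c772 c10031 c5695 c4403 c4433 c358 (k8 c769 c10149 c4476 c6846 c1067 c802 c9056 c1029 (k8 c1409 c9034 c10151 c1039 c2126 c4369 c1093 c7804 (k4 c4632 c1253 c4417 c4487 k0)))))) (by decide +kernel)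
def c10153 : PP 8 4 T 0x800000000000000010001000111510041180044004045510000002000080100020000 := rS 0xa364ad0e0388a9f57f043c9956ec549c5e134b2aa75fa37 (k8 c319 c4300 c4344 c1766 c4427 c4322 c4416 c1655 (k8 c1782 c1743 c7044 c605 c4904 c7782 c4409 c8072 (k4 c7962 c4480 c363 c587 (k2 c1436 c5857 k0)))) (by decide +kernel)
def c10154 : PP 8 4 T 0x40001500000081000021501500000000000000000000000 := rS 0x10283 (k2 c2569 c1421 (k1 c2119 k0)) (by decide +kernel)
def c10155 : PP 8 4 T 0x2002000000000000011000400000000004100090000000000000000000020 := rS 0xcf5f50c90b78a0e4e2b55db1186b94a8f51b0c218d52e912e8788245238ec7ec76980cce21308054ea525a8696c10c84cc69d35a66222a18aacda332894d5f123d8241429168bda2fd3f8546eb12f89c44cb42840368a (k8 c10144 c4292 c10152 c710 c1753 c10120 c114 c543 (k8 c10032 c319 c4284 c670 c4300 c4298 c4432 c4286 (k8 c4402 c10147 c84 c702 c10148 c4346 c4290 c4435 (k8 c4294 c694 c1673 c4441 c2112 c4498 c4443 c4442 (k8 c4344 c1769 c4401 c269 c9923 c4427 c770 c4434 (k8 c1301 c772 c54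 c766 c10031 c654 c55 c5695 (k8 c4289 c4288 c4403 c4404 c4296 c4433 c575 c841 (k8 c888 c928 c10137 c277 c4477 c1297 c10153 c1694 (k8 c9917 c4958 c2115 c6984 c1789 c10154 c359 c4480 (k4 c7094 c2113 c8226 c7247 (k2 c1790 c9033 k0))))))))))) (by decide +kernel)
def c10156 : PP 8 4 T 0x900000000000000040000000111500415180004004000000004000000000020020000 := rS 0x22e973a310ef195f2ee28394ea651e37 (k8 c319 c761 c4443 c4344 c1139 c7962 c9034 c7247 (k4 c4539 c1093 c7804 c4632 (k2 c1253 c4417 (k1 c4487 k0)))) (by decide +kernel)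
def c10157 : PP 8 4 T 0x2400000000001008000000000004800000100 := rS 0x34 (k2 c7670 c1036 k0) (by decide +kernel)
def c10158 : PP 8 4 T 0x2002000000000000011000400000000004100010000000000000000000020 := rS 0x2411e934aa3438562d8dc2111891ec120a0d8ec5ad310ac44e6100a9c5ea51112cc68a (k8 c10144 c1769 c4434 c10120 c1301 c4432 c772 c54 (k8 c766 c114 c10032 c10031 c5695 c4286 c4403 c4292 (k8 c10147 c84 c702 c10148 c4498 c10152 c319 c10155 (k8 c4476 c6846 c1067 c802 c1029 c761 c10156 c10157 k0)))) (by decide +kernel)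
def c10159 : PP 8 4 T 0x2002000000000000001000400000000004100010000000000000000000420 := rS 0xfac9263f01ab55ca5d228d1a8443c1d1b8f4ac8f0416c7ed30389d4a4b078050e5568b04321388a5596a7110bd3a99891ad588984a28da1b (k8 c4292 c694 c10144 c4322 c187 c10158 c2048 c4479 (k8 c4443 c4344 c4432 c10120 c772 c2026 c860 c4338 (k8 c4401 c269 c9923 c4298 c1766 c186 c54 c1328 (k8 c4434 c1301 c114 c526 c5695 c4288 c574 c4462 (k8 c10034 c4476 c2188 c2187 c1058 c262 c345 c1059 (k8 c1067 c768 c1193 c6781 c7420 c10146 c4463 c10105 (k2 c4305 c4379 (k1 c10087 k0)))))))) (by decide +kernel)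
def c10160 : PP 8 4 T 0x2002000000000000001000400000000004100010000000000000000010020 := rS 0x45d2e74621de32be5e8d1763749a3d1a1c2b244b639208eda621538bd4a4b07888029d4cc48d6ac44c25146d049ec141b (k8 c4292 c10159 c702 c84 c694 c10144 c4322 c187 (k8 c10158 c2048 c4479 c4443 c4344 c54 c10120 c1328 (k8 c4434 c1301 c4432 c772 c10031 c5695 c4403 c4433 (k8 c358 c10149 c769 c4476 c6846 c1067 c9056 c1029 (k8 c1409 c9034 c10151 c1039 c2126 c4369 c1093 c7804 (k4 c4632 c1252 c4417 c4809 k0)))))) (by decide +kernel)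
def c10161 : PP 8 4 T 0x100001002002000000400000101000410081000004500480000000041000800000820 := rS 0x67afa86485bc5072b538aed72c446b0e183d218d52e912e878824568944a6471d8fd8ed30199c2a6100a9c5ea525d2d821909a753312849b4f61b (k8 c4292 c702 c694 c4322 c4479 c4443 c4344 c4401 (k8 c269 c9923 c4427 c4434 c1301 c4432 c772 c54 (k8 c766 c4284 c654 c55 c5695 c4289 c4288 c4403 (k8 c4404 c4290 c4435 c4298 c4296 c4433 c575 c841 (k8 c888 c928 c10137 c277 c275 c4477 c4958 c1297 (k8 c2115 c6781 c6984 c10154 c1789 c359 c4480 c7094 (k4 c2113 c8226 c7247 c1790 (k1 c9033 k0)))))))) (by decide +kernel)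
def c10162 : PP 8 4 T 0x2002000000000000001000400000000004100010000000000000000000020 := rS 0x8ba5ce8c43bc657cbb8a0e5228f49a3438562d97c6e857e840f609052653b1235b2d2a3188ab113094514c76d33686c42b11398402a717a94444b (k8 c4434 c10120 c1301 c4432 c772 c54 c766 c114 (k8 c10032 c10031 c4292 c694 c5695 c4403 c4290 c10144 (k8 c4322 c187 c10158 c4338 c2046 c860 c2026 c2048 (k8 c4479 c4344 c4443 c10159 c84 c702 c10160 c4300 (k8 c710 c319 c543 c10161 c4476 c6846 c1067 c1029 (k8 c761 c10157 c1139 c7962 c9034 c7247 c4539 c1093 (k4 c7804 c4632 c1252 c4417 (k1 c4809 k0)))))))) (by decide +kernel)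
def c10163 : PP 8 4 T 0x100002002000000000000402000601044000004000048000041050000080014020 := rS 0x8a9256e382ab3456a3882e52acb39222971749c2584653b1e58a4168944a6131d8568a8d4b8fd06d30bb053a45 (k8 c4296 c1232 c9929 c4431 c5695 c4570 c4288 c1193 (k8 c1067 c4398 c4284 c4403 c4401 c4290 c4435 c4298 (k8 c4433 c3072 c1929 c1071 c9910 c2115 c4438 c1070 (k8 c4362 c4459 c4485 c7172 c2024 c9931 c1085 c4487 (k8 c4337 c4411 c1483 c266 c10111 c1168 c4573 c4348 (k1 c9908 k0)))))) (by decide +kernel)
def c10164 : PP 8 4 T 0x2002000000000440002000400000000000000008000041150000080000020 := rS 0x26330a6d3 (k4 c5695 c4290 c10111 c9891 (k1 c2062 k0)) (by decide +kernel)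
def c10165 : PP 8 4 T 0x2002000000000000000000400040000004100010000001000000000000420 := rS 0x17d080d861362a384ca1d7ec141a75228d5d8d4221e218746eb33d9591e082d92c2e4f228fda6210389c1e2200c4d02a83686e0a19 (k8 c269 c10051 c4292 c694 c10162 c1362 c4345 c54 (k8 c10120 c1328 c114 c526 c10031 c5695 c4288 c4296 (k8 c4297 c4431 c4434 c574 c4462 c10034 c4476 c7540 (k8 c1185 c2187 c1058 c2189 c262 c345 c1059 c1443 (k8 c1067 c768 c1232 c4570 c9929 c5760 c10061 c10163 (k8 c10164 c4348 c9913 c4486 c9820 c2108 c4382 c10110 k0)))))) (by decide +kernel)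
def c10166 : PP 8 4 T 0x1000000000000000000002002000000000000000000000045000000000001000000000000001015000 := rS 0x26330a6d3 (k4 c5695 c4290 c10122 c10080 (k1 c2062 k0)) (by decide +kernel)
def c10167 : PP 8 4 T 0x400100002002000000001000000001400000000400008090000041000000000000000 := rS 0x61b14e493209147615 (k8 c4284 c4403 c4296 c4433 c1609 c843 c7718 c1087 (k1 c9804 k0)) (by decide +kernel)
def c10168 : PP 8 4 T 0x2002000000000000010000400040000004100014000000000000000000020 := rS 0xe2c966a8cc6353fbf42065442150e5f608dc865d06a743c772d05da2512984cdab112985422907888034589aa0f61b59954143d82864ce15 (k8 c4284 c654 c269 c10051 c10056 c10165 c10054 c662 (k8 c4292 c702 c10162 c4345 c4398 c54 c10120 c1328 (k8 c4402 c770 c766 c58 c10032 c694 c4401 c4290 (k8 c4435 c4298 c4431 c4476 c7751 c575 c968 c2550 (k8 c841 c277 c272 c9929 c1295 c10061 c10110 c2109 (k8 c557 c10166 c4300 c670 c10137 c10167 c8633 c1483 (k2 c637 c10133 (k1 c10140 k0)))))))) (by decide +kernel)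
def c10169 : PP 8 4 T 0x1000000000000400000002002000000000000000000014440000005100009000000010000801014800 := rS 0x146754b9890c5d42ad5f85f8a0353e47508a60ab30aa3522b71b8eda639 (k8 c358 c5695 c4403 c1409 c7094 c769 c1067 c4284 (k8 c662 c10051 c4402 c770 c4404 c1299 c569 c4470 (k8 c1295 c4463 c4389 c10110 c4377 c10166 c10041 c817 (k2 c1688 c818 (k1 c7050 k0))))) (by decide +kernel)
def c10170 : PP 8 4 T 0x400000002002000000000000410001504040004000000001000001000000001000020 := rS 0x1107443b0a2e7921b1630c10bb44a25309854da1b (k8 c4292 c694 c4284 c4401 c4290 c4435 c4298 c4431 (k8 c9929 c4488 c7718 c4446 c4447 c9283 c5577 c10061 (k2 c9912 c2109 (k1 c596 k0)))) (by decide +kernel)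
def c10171 : PP 8 4 T 0x10000000000000000000001000000000000008004400000000000000000000000000000 := rS 0xf309 (k2 c4440 c1964 (k1 c4482 k0)) (by decide +kernel)
def c10172 : PP 8 4 T 0x1000000000000400000002002000000004005410014005444000004000009000000000000001014020 := rS 0xd4297d9ea24b9d4caaba5a20361768944a613338560a8d (k8 c1067 c10051 c4284 c654 c4401 c4290 c4435 c4298 (k8 c4431 c4292 c2109 c4457 c1945 c557 c597 c4785 (k4 c7050 c1524 c1466 c685 (k2 c528 c10166 k0)))) (by decide +kernel)
def c10173 : PP 8 4 T 0x1000000000010400000002002000000004000010000000040000404100018000000000000800010820 := rS 0x4462ea24bb00ea62432d468b71ba451e39699b53e475083c027b0daccab050c99c2a8d4a8a5261c2d884123b (k8 c4403 c84 c10031 c92 c6846 c1029 c4402 c762 (k8 c1067 c4284 c654 c269 c10051 c10054 c662 c4292 (k8 c702 c54 c1328 c770 c4404 c1299 c694 c5695 (k8 c358 c9056 c769 c1409 c7094 c10169 c7883 c10172 (k8 c10041 c1693 c10171 c817 c7050 c4420 c4337 c4487 k0))))) (by decide +kernel)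
def c10174 : PP 8 4 T 0x400100000000000000004005410014005420040004040008000000000000000000000 := rS 0x6388a892e7532aae968d (k8 c1067 c4457 c1945 c557 c597 c4785 c7050 c4337 (k2 c819 c4478 k0)) (by decide +kernel)
def c10175 : PP 8 4 T 0x2002000000000000010000400040000004100010000000000000000000020 := rS 0x25d4675313250c895bad46891478dcfefd0830cef194e24d321c4696cac55599ec120a1e85c82d12894c263b3385442b113984029f23a844429a2c4d02a83686e0a19 (k8 c269 c10051 c4292 c694 c10162 c1362 c4345 c4398 (k8 c4402 c10120 c770 c4404 c1299 c54 c766 c114 (k8 c10032 c10031 c4284 c654 c4403 c4401 c4290 c4435 (k8 c4298 c4433 c4431 c10056 c10165 c84 c702 c662 (k8 c10054 c10168 c92 c1067 c6846 c1031 c1029 c10170 (k8 c4368 c1092 c9725 c10173 c4300 c670 c319 c761 (k8 c10157 c10135 c7883 c1037 c10174 c2109 c1733 c10041 (k4 c1693 c5380 c817 c7050 k0)))))))) (by decide +kernel)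
def c10176 : PP 8 4 T 0x2002000000000000000000400040000004100010000000000000000000020 := rS 0x6bf0fe5f64924fb432a9919ca231ab20ad10999c2a190788802a8 (k8 c10162 c54 c10120 c1328 c269 c4284 c654 c4401 (k8 c4298 c10051 c10175 c820 c948 c949 c6230 c267 (k8 c4393 c1354 c1790 c1792 c3500 c554 c4483 c528 (k1 c7126 k0)))) (by decide +kernel)
def c10177 : PP 8 4 T 0x2002000000000000000000400000000004100010000000000000000000020 := rS 0x50215a7b35226128a89aa0da1b (k8 c4292 c694 c10162 c4345 c10176 c4322 c187 c4479 (k4 c560 c2048 c10148 c10145 (k1 c84 k0))) (by decide +kernel)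
def c10178 : PP 8 4 T 0x400000002002000000000400111001400044000000200008000041040000080014020 := rS 0xe59b452618c602b4f99430558244146a5a5a0584bb8c06c5e1768944a6131d8b47e2933856126b4c884820300abd12ab (k8 c1884 c2040 c829 c54 c55 c4433 c10031 c5568 (k8 c69 c4437 c4284 c654 c4402 c4288 c4286 c4403 (k8 c4401 c4290 c4435 c4298 c4431 c4432 c4292 c4488 (k8 c4449 c9828 c9803 c4459 c1882 c4526 c4491 c4485 (k8 c4151 c9918 c7555 c4414 c4411 c7769 c4407 c9892 (k4 c4451 c2062 c9913 c9916 k0)))))) (by decide +kernel)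
def c10179 : PP 8 4 T 0x2002000000000000011000400040000004000010000000000000000000220 := rS 0x124c362988eb4a2a064631255a1c1ec14bafd3a350887886371eaccf61b0bb44a253098fda62158c24f2562dabd1268 (k8 c10177 c2040 c829 c844 c4476 c1960 c4437 c10032 (k8 c10031 c5695 c4288 c4401 c4290 c4435 c4298 c4431 (k8 c4292 c7540 c1185 c2188 c2187 c2189 c262 c345 (k8 c1059 c825 c7782 c1193 c9929 c10065 c10061 c1884 (k8 c10178 c4441 c268 c10125 c9918 c9890 c267 c4429 (k2 c4459 c9798 (k1 c1609 k0))))))) (by decide +kernel)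
def c10180 : PP 8 4 T 0x400000002002000000000000010001504050000000000000000000000000000000820 := rS 0x390f10c55828662ec121c602ed12894c26673d86d6615 (k8 c4284 c662 c4292 c702 c654 c4401 c4290 c4435 (k8 c4298 c4431 c4488 c4446 c4450 c9283 c308 c10051 (k4 c10054 c2109 c10170 c7043 (k1 c1614 k0)))) (by decide +kernel)
def c10181 : PP 8 4 T 0x2002000000000000011000400040000004000010000000000000000000020 := rS 0x414a82a0ca1d56318924d3a1c05025121b1785c66d12894c263b168a4ce1503c24d6991090406013c96d5e68 (k8 c10177 c829 c844 c1960 c54 c55 c4433 c10031 (k8 c5568 c69 c4437 c526 c4284 c654 c4402 c4286 (k8 c4403 c4401 c4290 c4435 c4298 c4294 c4431 c4432 (k8 c4292 c2040 c10179 c4462 c6846 c7784 c1029 c10180 (k8 c4441 c4445 c9925 c268 c2112 c2109 c10051 c6212 k0))))) (by decide +kernel)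
def c10182 : PP 8 4 T 0x2000000000000800000000000000000000000000000000000000000040 := rS 0x482c2a3f (k4 c4288 c4284 c662 c1185 (k1 c4462 k0)) (by decide +kernel)
def c10183 : PP 8 4 T 0x2000000040000000002000000000000000200000000000000000000000004 := rS 0x6bf41e112e210364f (k8 c4297 c4292 c827 c826 c710 c1495 c4377 c1288 (k1 c4463 k0)) (by decide +kernel)
def c10184 : PP 8 4 T 0x2002000000000000000000400040000004000010000000000000000000020 := rS 0x778c8f587164ba4cf66232a20329518a1e97115606c2ed12894c26670aacc0f0935a644241009e4ac5b549a006d3 (k8 c5695 c55 c10177 c10183 c844 c4476 c1960 c54 (k8 c4433 c10031 c5568 c69 c4437 c526 c10182 c4284 (k8 c654 c4401 c4290 c4435 c4298 c4431 c4292 c10181 (k8 c4338 c4458 c1905 c2046 c860 c268 c9918 c556 (k8 c2041 c682 c1070 c817 c4487 c4958 c4416 c4982 (k2 c2042 c4482 k0)))))) (by decide +kernel)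
def c10185 : PP 8 4 T 0x40000000000000000200000002000010500000000000000002010000000000000000000000000015000 := rS 0xcd241fc2b45 (k4 c4397 c4284 c4313 c9269 (k2 c1481 c4573 k0)) (by decide +kernel)
def c10186 : PP 8 4 T 0x4000000002002000000000400400000000080100040000000000040050000001015000 := rS 0x66920fe7482ae68a384213596c97e12c364f2384c2a3f63d2caad141b4c2e7d (k8 c1773 c4431 c5695 c4570 c4298 c1766 c4427 c4289 (k8 c4288 c4284 c4401 c4404 c4297 c4292 c4434 c4463 (k8 c4305 c1752 c10087 c2108 c10063 c4397 c1201 c10185 (k4 c4481 c595 c2107 c1481 (k1 c4573 k0))))) (by decide +kernel)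
def c10187 : PP 8 4 T 0x401000002000000040000400001100500580000000001008000000000000000012220 := rS 0xbc53c504425228044e1e (k8 c262 c2309 c54 c4296 c1368 c529 c9820 c10010 (k2 c10131 c4354 k0)) (by decide +kernel)
def c10188 : PP 8 4 T 0x40000000000000400202000002000000000000014040000000010000241000000000000004400015000 := rS 0x44054af86920c67f0a994d6c9 (k8 c4305 c69 c7555 c4284 c4313 c4407 c9269 c7315 (k4 c828 c7307 c4491 c4411 k0)) (by decide +kernel)
def c10189 : PP 8 4 T 0x5000000000002000000100010000000000000010200000001000001000000000015000 := rS 0xb5a1920feb72384c2ac7 (k8 c4289 c4284 c4401 c4404 c1744 c595 c2107 c4421 (k2 c1702 c4492 k0)) (by decide +kernel)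
def c10190 : PP 8 4 T 0x400000002002000000000000010000400000000004000010000000000000000000420 := rS 0x2b4f98e21044a9d573151c13460c90c3f01a7d529cd031762aee30655184c5a670aac5666b4c904028d30aa4074b559b43655453451e3d08a741e371aafcf6562d884f3093410da6970f0200e3f (k8 c4288 c526 c4462 c262 c1193 c5695 c2189 c10177 (k8 c4437 c1960 c10031 c844 c4476 c7540 c7782 c1059 (k8 c2187 c10065 c825 c345 c2188 c10034 c4298 c10184 (k8 c1766 c4292 c694 c1673 c4427 c55 c10183 c881 (k8 c1067 c54 c4433 c5568 c69 c10182 c10032 c4284 (k8 c654 c4286 c4401 c4526 c7555 c4488 c4449 c4370 (k8 c9283 c9803 c1770 c1882 c1773 c10187 c4463 c10186 (k8 c4305 c268 c10087 c10063 c9686 c1201 c10189 c803 (k4 c4481 c5015 c7153 c4414 (k2 c4411 c9892 k0)))))))))) (by decide +kernel)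
def c10191 : PP 8 4 T 0x100000002002000000500000000000410000000004000010000000000000001001420 := rS 0x7d263f13241018050e892ab4422c14503c6e355f9ecac5b109e61268218200ed3 (k8 c5695 c526 c4462 c2189 c10177 c4437 c1960 c10031 (k8 c844 c4476 c7540 c7782 c1059 c2187 c10065 c10184 (k8 c1713 c345 c4298 c1766 c187 c186 c54 c55 (k4 c4433 c5568 c4463 c10105 (k2 c4379 c10087 k0))))) (by decide +kernel)
def c10192 : PP 8 4 T 0x2002000000000000010000400000000004000010000000000000000000420 := rS 0x5da454f144089418c9659c9887661c652a1931c454a3157c492ebf4eb04221e2189c7a7b0412c8a531d8b47e0784a644241009e51a612b16d526801b4e968a (k8 c10184 c4427 c5695 c55 c10177 c10183 c844 c4476 (k8 c881 c1067 c1960 c54 c4433 c10031 c5568 c4437 (k8 c526 c4288 c4286 c4403 c4290 c4296 c4434 c4462 (k8 c7540 c2188 c2309 c2189 c262 c345 c1713 c825 (k8 c7782 c1193 c10190 c4346 c4441 c4444 c4498 c1768 (k8 c268 c802 c5015 c4958 c4482 c4759 c1095 c9714 (k8 c1731 c10191 c1368 c1293 c9820 c10010 c1154 c1890 (k1 c7247 k0)))))))) (by decide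 +kernel)
def c10193 : PP 8 4 T 0x400000002002000000000000414000514080000000200000000000000000000000800 := rS 0xae158c4c7100c9ce2e4362c612e2f2894c534b4ec24d679 (k8 c1960 c69 c4437 c7784 c4427 c4402 c4290 c4435 (k8 c4432 c4785 c4488 c7718 c4446 c9283 c1770 c308 (k4 c4487 c7153 c1878 c4411 (k2 c7769 c828 k0)))) (by decide +kernel)
def c10194 : PP 8 4 T 0x2000000100000000000000000010200000001000000080000000015000 := rS 0x249fd6e470985572c7 (k8 c4289 c1471 c4284 c4401 c4404 c1744 c595 c323 (k1 c2107 k0)) (by decide +kernel)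
def c10195 : PP 8 4 T 0x801000002002000000000000414000404080001004040000000000010000001010800 := rS 0x3bc647ac48b1d4e6641b415084d659f502c97e034964fa5954f61b318a95e3119944a629168bda2836985c1e39 (k8 c358 c305 c4431 c5695 c4570 c4298 c4432 c4286 (k8 c4402 c4290 c4435 c4294 c4441 c4346 c2112 c1768 (k8 c4292 c702 c1766 c4427 c4297 c4434 c569 c4463 (k8 c4305 c4380 c4379 c1752 c10087 c2108 c10185 c10106 (k8 c4904 c1648 c10194 c4481 c9491 c4416 c4982 c1095 (k1 c4482 k0)))))) (by decide +kernel)
def c10196 : PP 8 4 T 0x2002000000000000010000400000000004000010000000000000000010020 := rS 0x14c255eaed22344792cce1546984aca96983d3a6b5f9ecf309528646312498ed2a1c0496c520a559b4368a4c8848203009a16607 (k8 c526 c10182 c10177 c54 c55 c4433 c10031 c5568 (k8 c10184 c4292 c694 c1673 c10192 c4402 c844 c84 (k8 c6846 c762 c4403 c1029 c10193 c4441 c268 c4444 (k8 c4437 c1960 c702 c7782 c69 c7784 c305 c5695 (k8 c10183 c4476 c881 c1067 c4284 c654 c4434 c9056 (k4 c10195 c7808 c1309 c1039 (k2 c1369 c2126 (k1 c10010 k0))))))))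 (by decide +kernel)
def c10197 : PP 8 4 T 0x2002000000000000010000400000000004000010000000000000000000020 := rS 0x46382ec5520a712834211152c4926950e1ec120a258ec5a2958acc0f094c884820146984ac5b549a006d355a28da1b (k8 c4292 c694 c10184 c1673 c5695 c55 c10177 c10183 (k8 c844 c4476 c881 c1067 c54 c4433 c10031 c5568 (k8 c4437 c526 c10182 c10032 c4402 c4286 c4403 c4434 (k8 c10192 c84 c702 c6846 c762 c1029 c10193 c4444 (k8 c4498 c10196 c112 c279 c10010 c10156 c4352 c809 (k2 c7962 c7668 (k1 c1140 k0))))))) (by decide +kernel)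
def c10198 : PP 8 4 T 0x2002000000000000000000400000000004000010000000000000000000420 := rS 0x2ed22a78a2044a0c649c94acb3b449891961a5d7e9d0887886271e9ec104b22b44a23b1f81e129910904027946984ac5b549a006d34544582950c8c55853 (k8 c4290 c10197 c2046 c268 c860 c1986 c4338 c10184 (k8 c5695 c55 c10177 c10183 c844 c4476 c881 c1067 (k8 c1960 c54 c4433 c10031 c5568 c4437 c526 c4288 (k8 c4403 c4435 c4298 c4296 c4434 c4462 c7540 c2188 (k8 c2309 c2189 c262 c345 c825 c7782 c1193 c4958 (k8 c9828 c2115 c4488 c4482 c1757 c4444 c1095 c1731 (k8 c10191 c1368 c1293 c9820 c10010 c1154 c1890 c7247 k0))))))) (by decide +kernel)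
def c10199 : PP 8 4 T 0x4000000002002000000000440400000400580000040201000000040000000001015820 := rS 0x2984abd488d06e7482a109aa5659f502c97e12c364f54d2caad14ec24d6991090406013ca0da617 (k8 c4431 c5695 c4570 c1960 c54 c55 c4433 c10031 (k8 c5568 c69 c4437 c7784 c4298 c1766 c4427 c10183 (k8 c4297 c4292 c4434 c4463 c4305 c4380 c4379 c1752 (k8 c1882 c10087 c2108 c10185 c4481 c10194 c10186 c7808 (k4 c1039 c1369 c2126 c10010 k0))))) (by decide +kernel)
def c10200 : PP 8 4 T 0x400000002002000000000400000000400180000000201010000040000000001014820 := rS 0xbd48a954e3411094ba0c4789c96d33686d66072b2ee2f1839b15261c0496c769d849ad32212080c0279 (k8 c1960 c54 c55 c4433 c10031 c5568 c69 c4437 (k8 c7784 c4403 c844 c84 c6846 c1029 c7718 c1770 (k8 c4488 c9283 c4449 c4476 c526 c10182 c4292 c694 (k8 c5695 c4434 c350 c9056 c10199 c1288 c1368 c529 (k4 c569 c10010 c1301 c10157 (k2 c1039 c7780 k0)))))) (by decide +kernel)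
def c10201 : PP 8 4 T 0x440101501500100000004001000000000000004420020000 := rS 0x48c521839 (k4 c1140 c7312 c7962 c4328 (k1 c7247 k0)) (by decide +kernel)
def c10202 : PP 8 4 T 0x440101401500000000004200008000000000004020020100 := rS 0x22a39488894a5f469851e37 (k8 c319 c761 c881 c1067 c543 c1883 c10201 c10157 (k2 c1139 c7247 (k1 c7962 k0))) (by decide +kernel)
def c10203 : PP 8 4 T 0x100000000000000004000000000000000008100000820 := rS 0x23 (k2 c114 c10073 k0) (by decide +kernel)
def c10204 : PP 8 4 T 0x400000002002000000000000000000400000000004000010000000000000000000020 := rS 0x5309420bb21c611a612b2a5a68a0c8c5585307a74d6992080c021c0496d7e7b0d9e61268138296221 (k8 c10031 c10032 c10198 c10203 c10177 c4437 c1960 c4292 (k8 c702 c7782 c844 c84 c6846 c54 c55 c4433 (k8 c5568 c69 c7784 c305 c4290 c10197 c2046 c268 (k8 c10184 c5695 c10183 c4476 c881 c1067 c4488 c4567 (k4 c4449 c10200 c279 c10202 (k1 c10010 k0)))))) (by decide +kernel)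
def c10205 : PP 8 4 T 0x2002000000000400420000400580000000201000000040010000000014820 := rS 0x1f988498cb0c7b16399922b051b211764d659f502c97e034964f20914a2131f99c2b0944d2caad16086462533d86d261c04884b63b41b4c2e39 (k8 c358 c4431 c5695 c4570 c4403 c844 c10031 c84 (k8 c6846 c1029 c4292 c702 c4290 c2046 c268 c1986 (k8 c4298 c1766 c4427 c187 c4437 c4284 c654 c4288 (k8 c4401 c4435 c4296 c4433 c4297 c4434 c569 c4463 (k8 c4305 c4380 c4379 c1752 c10087 c4735 c2108 c10063 (k8 c10185 c4386 c4903 c1648 c10199 c4416 c4362 c4982 (k4 c322 c2115 c7126 c9749 k0))))))) (by decide +kernel)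
def c10206 : PP 8 4 T 0x1000002000000040000400001101500580000000001000000000020000000010820 := rS 0x530957abb4892c8203 (k8 c55 c4433 c4434 c7808 c1309 c1039 c1369 c2126 (k1 c10010 k0)) (by decide +kernel)
def c10207 : PP 8 4 T 0x1000000000000000000000000000000000005000000000000080000000001000000 := rS 0xef19 (k2 c4446 c1886 (k1 c4482 k0)) (by decide +kernel)
def c10208 : PP 8 4 T 0x2002000000000400020100400180000000201010000000000000000014820 := rS 0xd51eb303958b6a969a74d699109040601219ec36191894cf309 (k8 c4437 c1960 c4290 c2046 c268 c4292 c702 c10207 (k8 c54 c55 c4433 c10031 c5568 c69 c7784 c5695 (k8 c10183 c844 c4476 c526 c10182 c9056 c10206 c10205 k0))) (by decide +kernel)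
def c10209 : PP 8 4 T 0x2002000000000000000000400000000004000010000000000000000000020 := rS 0x240443826ae94e8f128dc204352c484ebf0e2741e7b04828323156229526146958b6794c9ae12682586c5e4f208cca6d30080c42b1 (k8 c10032 c10031 c55 c54 c5695 c4290 c4294 c4433 (k8 c4297 c4432 c4292 c4434 c10177 c4437 c69 c5568 (k8 c1960 c844 c4476 c1067 c881 c10183 c10184 c10197 (k8 c2046 c268 c10198 c84 c702 c305 c7784 c6846 (k8 c7782 c10203 c10204 c4444 c10207 c10208 c319 c279 (k8 c761 c10010 c10202 c1974 c9034 c2111 c1139 c10157 k0)))))) (by decide +kernel)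
def c10210 : PP 8 4 T 0x2000002002000000000000000000000040000000000001000000000000001015000 := rS 0x4ca221d0ad3 (k4 c5695 c4321 c4440 c10166 (k2 c10080 c4451 k0)) (by decide +kernel)
def c10211 : PP 8 4 T 0x800000002002000000000000000001000040000000100081000000000000000000020 := rS 0x3222158875786c2ed12894c2601338560a19 (k8 c269 c10051 c4284 c654 c54 c4401 c4290 c4435 (k8 c4298 c4431 c4292 c4346 c9925 c10125 c2109 c6230 (k1 c2558 k0))) (by decide +kernel)
def c10212 : PP 8 4 T 0x400101002002000000000000001000000100040004100410000041040000000000020 := rS 0x14441a9d7a618aadce0c93124528ae620c4823322b44a2531d8b47e2958975027b2d464ee8560acd562b3ab0d5a6501a22106d0d9acaa0a0495c0e670aa946a1e0ea685e21 (k8 c10031 c4432 c10209 c764 c4466 c1099 c1971 c4284 (k8 c654 c526 c804 c263 c4462 c10054 c1969 c4292 (k8 c694 c4479 c5422 c55 c5681 c6230 c2058 c597 (k8 c4904 c1945 c10182 c1985 c4321 c1888 c4448 c4476 (k8 c2688 c7000 c841 c10032 c4402 c4288 c4286 c4403 (k8 c4290 c4435 c4298 c4296 c4294 c4433 c1966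 c2115 (k8 c2112 c868 c2899 c5073 c1729 c10140 c5279 c4387 (k4 c2563 c1175 c4500 c589 (k2 c8517 c9368 k0))))))))) (by decide +kernel)
def c10213 : PP 8 4 T 0x2000000000010000000000100000000002080000001050044000000820 := rS 0xb55b8e493141208e1a471d8fd8e01 (k8 c54 c4289 c4288 c4403 c4404 c4326 c766 c615 (k4 c6986 c7307 c2214 c4353 (k2 c4389 c2113 k0))) (by decide +kernel)
def c10214 : PP 8 4 T 0x400100002002000000000000001000000100000004100010000001000000000020020 := rS 0xb547add91141c9c5768250c314e25489857a421aa9476d34b8783a2f1f9744e21409ee3277428adfa7f1bac53e5f2d2e4eac359a8d574b4415414092b81d5a65841b4360335a68ce15 (k8 c4284 c654 c10209 c1969 c55 c4292 c694 c4479 (k8 c5681 c6230 c526 c804 c263 c4462 c10054 c5422 (k8 c4457 c1945 c4526 c10182 c2058 c597 c4548 c4476 (k8 c2553 c6233 c10032 c319 c670 c4300 c4904 c4321 (k8 c1888 c4448 c2688 c7000 c10031 c10203 c841 c4288 (k8 c4432 c764 c4466 c1193 c5695 c4403 c1971 c1099 (k8 c10212 c2015 c10213 c888 c279 c4532 c4477 c7717 (k8 c2119 c4825 c589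 c365 c4480 c10140 c7094 c4388 (k2 c4389 c8577 k0))))))))) (by decide +kernel)
def c10215 : PP 8 4 T 0x1000002000040000010000004000200000000000500000001040044080000001 := rS 0x923511adcc0b51cc348e3b (k8 c4403 c4404 c4383 c1114 c1387 c4477 c7094 c766 (k2 c1100 c7307 (k1 c7430 k0))) (by decide +kernel)
def c10216 : PP 8 4 T 0x2002000000000000000000000040000004100010000000000000000000020 := rS 0x73155f239508d5c9d53e3d6197c6efd15ab420654442226272a83cba0d0516813052b8648ad30080cda1b3385562b303a74d61e0ea685e21 (k8 c10031 c4432 c10209 c764 c4466 c1969 c189 c526 (k8 c10182 c10032 c4284 c654 c4292 c694 c55 c54 (k8 c5695 c4296 c269 c804 c10051 c263 c4476 c4462 (k8 c2550 c841 c305 c10054 c10203 c10211 c4479 c5422 (k8 c5681 c10210 c6230 c4904 c4300 c319 c2553 c2058 (k8 c10033 c6233 c597 c4548 c10215 c10214 c866 c867 (k2 c4388 c1240 (k1 c7962 k0)))))))) (by decide +kernel)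
def c10217 : PP 8 4 T 0x2002000000000000000000000045000000000001000000000000001015000 := rS 0x13288d3 (k4 c5695 c10166 c10080 c4451 k0) (by decide +kernel)
def c10218 : PP 8 4 T 0x40000000000000000002002000000000000100040000000001000 := rS 0xe17c70 (k4 c602 c603 c7095 c1240 k0) (by decide +kernel)
def c10219 : PP 8 4 T 0x40000000000000000000002002000000400011000000800000100000000008000001050000001011020 := rS 0xb61c92498850d85c8a534c8783a2f109e01ed3638fc7647 (k8 c4404 c4403 c4288 c4289 c5695 c10104 c805 c10031 (k8 c4432 c764 c4466 c104 c4290 c4296 c4431 c4292 (k4 c10218 c10080 c9047 c9913 (k2 c2113 c7094 k0)))) (by decide +kernel)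
def c10220 : PP 8 4 T 0x2002000000000000000000000040000004000010000000000000000000420 := rS 0x16ea148a7d4714129f4ba0c5ac4526cb56188cab944254eb4b6230e0a8760a04f08d0c8d422431b89c7a7b3b9591e310416c361720915a2512991c263b6980406670aacc0e9d8c9ad2e1e0ea685e211fc255e68 (k8 c10216 c829 c4437 c4288 c10031 c4432 c10209 c764 (k8 c4466 c1193 c1969 c4448 c189 c526 c10182 c4284 (k8 c654 c55 c54 c5695 c4403 c4401 c4404 c4290 (k8 c4435 c4298 c4296 c4433 c4431 c4292 c574 c4462 (k8 c4719 c10034 c4476 c1889 c7540 c2188 c2309 c2187 (k8 c2189 c345 c1059 c268 c1067 c805 c7000 c9929 (k8 c10061 c10051 c3968 c2115 c4429 c1784 c1786 c9918 (k8 c4548 c556 c2041 c2040 c3927 c1070 c4338 c7420 (k8 c10219 c1288 c1291 c1368 c9820 c818 c6237 c1154 (k2 c7717 c4353 (k1 c7050 k0))))))))))) (by decide +kernel)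
def c10221 : PP 8 4 T 0x2002000000000000000000000040000004000010000000000000000000020 := rS 0x43a2556313b154325a052bcd01b0bb44a2530999c2a1e0ea685e21 (k8 c10031 c4432 c10209 c764 c4466 c4284 c654 c4401 (k8 c4290 c4435 c4298 c4431 c4292 c10216 c829 c10220 (k8 c271 c2201 c2200 c845 c1878 c3801 c3951 c9926 (k1 c2109 k0)))) (by decide +kernel)
def c10222 : PP 8 4 T 0x2002000000400000000000000080152200000000000000000000001015000 := rS 0x841b92192fc0d85c8a532384c2ac769d2caad1 (k8 c4298 c1766 c4427 c5695 c4289 c4284 c4401 c4404 (k8 c4290 c4296 c4431 c4292 c4463 c4305 c2107 c10194 (k2 c9047 c10218 k0))) (by decide +kernel)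
def c10223 : PP 8 4 T 0x100000000002000000000010100000050000000200002000000001050000000000820 := rS 0x16eb5248e4e28f1211c763f63a852517 (k8 c4417 c4487 c3667 c4289 c4288 c4403 c4404 c615 (k4 c849 c2563 c2214 c283 (k2 c7420 c1745 (k1 c2113 k0)))) (by decide +kernel)
def c10224 : PP 8 4 T 0x100001000002000010000010100000050081100201500500000001050000000000820 := rS 0x50c92b71cad590ce38a7d050c5398552a5894252517 (k8 c4417 c4487 c4322 c4479 c4444 c4345 c10223 c4532 (k8 c4477 c2119 c4384 c2569 c645 c644 c1658 c359 (k4 c1745 c1790 c4422 c7114 k0))) (by decide +kernel)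
def c10225 : PP 8 4 T 0x1000000000000000000000000000000000004000480000000020000010000020 := rS 0xc025 (k2 c1370 c10137 (k1 c615 k0)) (by decide +kernel)
def c10226 : PP 8 4 T 0x2002000000000000000000000000000004100010000000000000000000020 := rS 0x254628970352f8dd0afd08249967d8ba547a78409d18827079fcba0d3d82a22af2d02624632b9dc32d116b1da66d0d99c2a0758c64d6970f075342f108fe128a (k8 c10221 c4322 c4288 c10031 c4432 c10209 c764 c4466 (k8 c1193 c1969 c4448 c10032 c526 c4284 c654 c4292 (k8 c694 c5695 c4289 c4286 c4298 c269 c1888 c804 (k8 c1769 c4479 c263 c4476 c4346 c4498 c4462 c2688 (k8 c2550 c841 c6629 c305 c10203 c7804 c4632 c7000 (k8 c4482 c1782 c1786 c4417 c1691 c3690 c4487 c10222 (k8 c4300 c710 c319 c2553 c10225 c10224 c1126 c1125 (k2 c1463 c9120 k0)))))))) (by decide +kernel)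
def c10227 : PP 8 4 T 0x2002000000000000000000800080000000200010000000000000000000420 := rS 0x15ab621174aa4ce8c439abcf6772b0c4105b2894c520103c652e1e0e8bc423f (k8 c4288 c10031 c4432 c764 c4466 c1193 c4448 c526 (k8 c54 c4402 c4290 c4435 c574 c4462 c4719 c4476 (k8 c1889 c7540 c2786 c1771 c7804 c4632 c1069 c1786 (k4 c4417 c4487 c4338 c4411 (k1 c7769 k0))))) (by decide +kernel)
def c10228 : PP 8 4 T 0x1000000000000000102000002000000000440000000800080000000000001000000080000080005000 := rS 0x669f978498a84c2b19 (k8 c4448 c4284 c4401 c4386 c2203 c4493 c7126 c3982 (k1 c725 k0)) (by decide +kernel)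
def c10229 : PP 8 4 T 0x2002000000000400001000800080400800004000000000000000000014820 := rS 0x334907f88c4a1aa746094683782d1508bb26b2cfa8164bf072612586c2e4f2384c5ac76999c2b09a5955a20d2d10c321e0e8bc42a5 (k8 c3800 c10031 c4432 c764 c4466 c2201 c1886 c271 (k8 c2550 c4298 c1766 c4427 c4322 c4284 c654 c5695 (k8 c4289 c4286 c4401 c4404 c4297 c4431 c4292 c4434 (k8 c614 c358 c4463 c4305 c4380 c4379 c1752 c10087 (k8 c1890 c2108 c4397 c10185 c10228 c10063 c1370 c1099 (k8 c10010 c4383 c4490 c4498 c6629 c2107 c1481 c4573 k0)))))) (by decide +kernel)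
def c10230 : PP 8 4 T 0x40000000000000400000002002000000000000054000000000000000000000000000001000000000000 := rS 0x2a880bc66d12894c5a29 (k8 c4402 c4286 c4290 c4435 c4298 c4294 c4432 c4491 (k2 c2112 c4411 k0)) (by decide +kernel)
def c10231 : PP 8 4 T 0x1000002002000000000404000000020000510000254500000040050004000020800 := rS 0xa364ae4e038509344b44308fda6fd3f8550a1b (k8 c4292 c710 c4284 c670 c4300 c5695 c4288 c885 (k8 c4484 c279 c4451 c7717 c10063 c359 c1201 c587 (k2 c859 c5857 k0))) (by decide +kernel)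
def c10232 : PP 8 4 T 0x400001002000000040000400000000000000200004000480000040050000001000820 := rS 0x862e8c2708a8e09a5d (k8 c841 c1894 c10063 c4348 c359 c6980 c1421 c4477 (k1 c4825 k0)) (by decide +kernel)
def c10233 : PP 8 4 T 0x40000000000000001000002002000000001400000000800000501204244510000040050004000020800 := rS 0xb632a5184c53ec5e32bda221436fd (k8 c4300 c4292 c710 c4484 c4454 c4448 c4417 c1691 (k4 c1785 c4494 c2059 c1697 (k2 c10231 c1167 k0))) (by decide +kernel)
def c10234 : PP 8 4 T 0x400000002002000000000000000000000000000004000010000000000000000000020 := rS 0x1849562a88e6c9822e4e0651c284fa7526896886140c4558412294c763f33c66134b559b44ec13d97462792b82486193f8550a1b1bac46a5f7e840c6af41afcec0f5480da65a051a1141e10875342f (k8 c4432 c10209 c764 c10031 c4466 c10221 c10226 c10227 (k8 c271 c5695 c55 c10183 c305 c845 c1093 c2003 (k8 c2844 c1768 c10229 c4300 c2553 c10225 c10032 c319 (k8 c4292 c710 c4284 c670 c2201 c1886 c84 c1065 (k8 c1961 c1878 c841 c702 c1713 c10203 c694 c1673 (k8 c4427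 c4322 c4448 c654 c4288 c4403 c4290 c4296 (k8 c4433 c10230 c4338 c10232 c885 c4484 c279 c4451 (k8 c10233 c1773 c7717 c10063 c578 c359 c1201 c4478 (k4 c586 c4408 c5857 c1095 (k2 c859 c4759 (k1 c2059 k0))))))))))) (by decide +kernel)
def c10235 : PP 8 4 T 0x1002000000040000400000000000000200004000484000040050000001000820 := rS 0x431746138454704d259ec365d (k8 c841 c4292 c702 c4434 c1894 c10063 c4348 c359 (k4 c6980 c1421 c4477 c4959 k0)) (by decide +kernel)
def c10236 : PP 8 4 T 0x2002000000000000000000000000000004000010000000000000000000020 := rS 0x4ab0944c5649cd7270820e1426526894eb443e9850311890d4be37429fdfa1031a0c86bf3c9755e766095c32272d03cf609052a4d14b84a283c1d8ca69621b179048a531d8b47ed30199c2a21 (k8 c10031 c4284 c654 c55 c5695 c4288 c4286 c4403 (k8 c4290 c4296 c4433 c4432 c4292 c10032 c10209 c4448 (k8 c764 c4466 c10221 c4322 c4427 c10226 c10183 c10227 (k8 c84 c702 c305 c271 c10203 c2201 c1065 c1713 (k8 c845 c2844 c841 c1961 c1093 c1886 c2003 c1768 (k8 c10229 c4300 c670 c710 c319 c2553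 c10225 c10234 (k8 c4498 c10235 c885 c1773 c4484 c10233 c279 c4451 (k8 c578 c7717 c10063 c4478 c359 c1201 c4408 c586 (k4 c1095 c5857 c4759 c859 (k1 c2059 k0)))))))))) (by decide +kernel)
def c10237 : PP 8 4 T 0x2100002002000000000000000000000100000000100020000000000000000008020 := rS 0x1402a4fa5d5a6588aacd63157c497ca54ea04f63368944a63b1699c2a9b17a64829514924b8a927a8d8ebd539840c097eaed6eb58a43448912fa3c461c058840601 (k8 c54 c55 c10031 c535 c4726 c1328 c760 c1376 (k8 c1156 c264 c4381 c4486 c4389 c4353 c4390 c4376 (k8 c1106 c4462 c2598 c4532 c6223 c4289 c1463 c4297 (k8 c1503 c265 c2191 c4402 c762 c4433 c1031 c4432 (k8 c764 c4284 c654 c4286 c4403 c4290 c4435 c4298 (k8 c4294 c4320 c4439 c1234 c1341 c2126 c5760 c9441 (k8 c4441 c4442 c4445 c4498 c5681 c6230 c1196 c6233 (k2 c2112 c5153 (k1 c1734 k0))))))))) (by decide +kernel)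
def c10238 : PP 8 4 T 0x411001002002000000000000001400000040140000000200011000000000001000000 := rS 0x89439f697436632d06cfa2294961b0b93da2512991c26c7 (k8 c4289 c4401 c4404 c4290 c4435 c4298 c4297 c4431 (k8 c4292 c4434 c1341 c4490 c4400 c4452 c4455 c2116 (k4 c4395 c4460 c1357 c1908 (k2 c4529 c9918 k0)))) (by decide +kernel)
def c10239 : PP 8 4 T 0x2411000002002000000000000001400000040000005100200011000110000001018400 := rS 0xf1887c4421e97433d33084cf65a0d006a2586c5e17279048ad12894c8e131d8fdfa7f638dd6eb5 (k8 c4389 c4353 c4386 c4289 c1455 c4376 c4288 c4403 (k8 c4401 c4404 c4290 c4435 c4298 c4296 c4433 c4297 (k8 c4431 c4432 c4292 c4434 c4479 c10238 c127 c3834 (k8 c1366 c8476 c2116 c9075 c4395 c4460 c1909 c9918 (k4 c4529 c683 c8221 c1782 k0))))) (by decide +kernel)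
def c10240 : PP 8 4 T 0x2002000000000000000000000040000004100000000000010000000018020 := rS 0x10681a29e97d1952a76250958aed7b1454c354e914797048852f88c924d7e93cda1b3ba6c5e394c904f2173081813050ca34380b1080cb001 (k8 c54 c10236 c55 c10031 c535 c4726 c1027 c269 (k8 c10051 c1106 c4462 c2598 c4431 c500 c4433 c1031 (k8 c3153 c4432 c764 c3009 c4292 c694 c4297 c4376 (k8 c2192 c2191 c1328 c1376 c1495 c264 c265 c760 (k8 c1156 c4532 c4381 c1503 c4486 c6223 c4390 c4350 (k8 c10237 c10239 c4344 c4444 c4539 c2126 c4482 c4399 (k2 c1363 c642 (k1 c4484 k0)))))))) (by decide +kernel)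
def c10241 : PP 8 4 T 0x402000002002000000000000000000000040000014000020000000010000021014081 := rS 0x69546cb28ac5d76bf8c1ccee9b178e532413a84cf30546a0da61740a153a7b (k8 c4320 c1234 c4321 c4439 c4431 c5695 c4570 c1027 (k8 c10051 c500 c4401 c498 c4433 c1031 c3153 c4432 (k8 c764 c3009 c3008 c4488 c5760 c4449 c9283 c7040 (k4 c4481 c4470 c8861 c1407 (k1 c10210 k0))))) (by decide +kernel)
def c10242 : PP 8 4 T 0x2002000000020011000000000001504404000000000001150000000010080 := rS 0x19f435f32c911458add764b20b448e3b699e42f4b (k8 c4429 c4431 c500 c5695 c4403 c4404 c4298 c4433 (k8 c4434 c9034 c7094 c8612 c4470 c7430 c1756 c9037 (k2 c8226 c1790 (k1 c9033 k0)))) (by decide +kernel)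
def c10243 : PP 8 4 T 0x2000002002000000000000000000000040000004100000000000010000000010020 := rS 0x2185e5b29d46bc12975424c7e1241a365ab107b165cacc54544b9895a6588aad4a6b18abd53124ea15027b19b44a253169b436670a96cee9b178e532414a8a5263b3a84ce261030260a1913a34380b1080cb0014183da617 (k8 c4431 c5695 c10240 c4570 c54 c10236 c55 c10031 (k8 c535 c4726 c1027 c350 c269 c10051 c1106 c4462 (k8 c2598 c2483 c4401 c498 c4403 c1029 c4402 c762 (k8 c4433 c1031 c3153 c4432 c764 c3009 c93 c4284 (k8 c654 c4292 c694 c4286 c4290 c4435 c4298 c4294 (k8 c4320 c4439 c4321 c1234 c10241 c4345 c4346 c4441 (k8 c4442 c4444 c4445 c4498 c5681 c6230 c4478 c1196 (k8 c10125 c2112 c7239 c6781 c4487 c9052 c6342 c4419 (k8 c10242 c1407 c322 c4463 c10080 c1734 c4377 c284 (k4 c325 c818 c4558 c1175 (k2 c8696 c5964 (k1 c4382 k0)))))))))))) (by decide +kernel)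
def c10244 : PP 8 4 T 0x1100000000000000000405080014015542000001000000000000000000000000000 := rS 0x170ce51a212ecd (k4 c1482 c4631 c9756 c989 (k2 c685 c2125 (k1 c1525 k0))) (by decide +kernel)
def c10245 : PP 8 4 T 0x200000002002000000000405000004001542000040840004000002000000021000000 := rS 0x67a210eb815a5d56655186c2ed12894d2a29498ed42a8 (k8 c563 c7768 c4403 c1029 c4402 c762 c4290 c4435 (k8 c4298 c4431 c4292 c4337 c4412 c4415 c4336 c4411 (k4 c2125 c1924 c7683 c1525 (k1 c685 k0)))) (by decide +kernel)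
def c10246 : PP 8 4 T 0x401000002002000000000000100000000040504004100000000000050004000000020 := rS 0x2250e644b4453e222ac347825591799a4ca2c5d08435fc613ad12894c8e670a95ce6774d8bd2a29499d426790b9c40c09828651aa7351b4368f5d92d6e3b48af56b141c870162101804b0d3 (k8 c5695 c10236 c54 c55 c10031 c535 c4726 c3153 (k8 c4470 c4389 c4354 c1155 c4403 c7094 c4434 c9034 (k8 c761 c4292 c694 c4479 c2008 c1027 c269 c10051 (k8 c1106 c4462 c2483 c4431 c500 c4401 c498 c1029 (k8 c4402 c762 c4432 c764 c3009 c3008 c63 c4284 (k8 c654 c4404 c4290 c4435 c4298 c1234 c4482 c7782 (k8 c10207 c6745 c9283 c8243 c10063 c1482 c10110 c4481 (k8 c285 c9915 c4382 c8861 c4467 c1299 c10245 c4487 (k4 c1196 c1653 c2527 c2109 k0))))))))) (by decide +kernel)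
def c10247 : PP 8 4 T 0x2002000000000000000000000040008000900020000002000000000000020 := rS 0x4452eaa32a18aa89593162e1b0bb44a25333854e6950e004527503024060b1084e0a19 (k8 c269 c10051 c4401 c10031 c535 c55 c1106 c4462 (k8 c498 c4402 c54 c4726 c762 c3008 c4284 c654 (k8 c4290 c4435 c4298 c4431 c4292 c4416 c1782 c4481 (k8 c683 c8861 c2109 c1653 c1924 c1196 c4415 c7239 k0)))) (by decide +kernel)
def c10248 : PP 8 4 T 0x200000002002000000000405000010001540008000800000000000000000021000020 := rS 0x88629550eb815a7d2eab5186c2ed12894c26154a8a5263b (k8 c4403 c1029 c4402 c762 c4284 c4401 c4290 c4435 (k8 c4298 c4431 c4292 c4337 c4415 c4336 c4414 c4411 (k4 c2125 c1924 c266 c1254 (k2 c2109 c683 k0)))) (by decide +kernel)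
def c10249 : PP 8 4 T 0x100100000000000040000004500080000000010104040404000000000000000014020 := rS 0xca6364975f80d (k4 c528 c4463 c4377 c4305 (k2 c818 c9061 (k1 c4478 k0))) (by decide +kernel)
def c10250 : PP 8 4 T 0x100000002002000000000000000010040040008004100000000001050000000010020 := rS 0x872a990bca24f92112b95986c2ed12894cce152ba5452933a8181213828644e8d07a3d22b13eadc8e3f1db1d6b14698e4380b1080c0258 (k8 c10236 c54 c55 c10031 c535 c4726 c3153 c5695 (k8 c4470 c4389 c4289 c4403 c4288 c4404 c7094 c8221 (k8 c8612 c1155 c761 c10240 c1027 c350 c269 c10051 (k8 c4401 c1106 c4462 c498 c1029 c4402 c762 c63 (k8 c4284 c654 c4290 c4435 c4298 c4431 c4292 c7239 (k8 c6781 c682 c7430 c1663 c2125 c10249 c1466 c1647 (k2 c1653 c2109 k0))))))) (by decide +kernel)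
def c10251 : PP 8 4 T 0x2002000000000000000000080040008000100020000000000000001000004 := rS 0x4395512646286c2ed12894c2615 (k8 c4284 c4401 c4290 c4435 c4298 c4431 c4292 c3269 (k4 c1196 c683 c1647 c1653 (k1 c2109 k0))) (by decide +kernel)
def c10252 : PP 8 4 T 0x600000002002000000000405000000001540008000900000000000000000020014020 := rS 0x1a851208d5255500ac526d0dc143227 (k8 c350 c269 c10051 c4292 c694 c4402 c4411 c10248 (k4 c266 c7768 c770 c7717 (k2 c10079 c529 (k1 c10082 k0)))) (by decide +kernel)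
def c10253 : PP 8 4 T 0x400000002002000000000000000420000000000000100000000000000000000014020 := rS 0x268350a2354c3452d33686c3227 (k8 c350 c269 c4292 c694 c5695 c4402 c4329 c7768 (k4 c770 c10079 c529 c9728 (k1 c10080 k0))) (by decide +kernel)
def c10254 : PP 8 4 T 0x400000002002000000000000000000000040100004100000000000050000000010020 := rS 0x2f8310acf442968a555c21d7c2b4faaccaa38825c7ac33d2d5231458add1ed12894c26151ca5452931d8644e8d0e02c42032c00542a7351b4370941b4c2e0f (k8 c10240 c4431 c5695 c4570 c10243 c4292 c694 c4479 (k8 c2008 c10253 c54 c10236 c55 c10031 c535 c4726 (k8 c1027 c350 c269 c4403 c1029 c4402 c762 c3153 (k8 c4284 c4401 c4290 c4435 c4298 c761 c7094 c8612 (k8 c4470 c1155 c4389 c10246 c1212 c10247 c10251 c10250 (k8 c4337 c4412 c4415 c4414 c4411 c10248 c1924 c2125 (k8 c266 c4399 c1403 c7856 c1526 c685 c10217 c7647 (k1 c528 k0)))))))) (by decide +kernel)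
def c10255 : PP 8 4 T 0x400000000000000040000000000000000002000001900000040000080004000000000 := rS 0x2386894bca8 (k4 c563 c10110 c1503 c4382 (k2 c3385 c4467 k0)) (by decide +kernel)
def c10256 : PP 8 4 T 0x401000002000000040000000000000000000000011100000000000080004001014400 := rS 0x1e978422621562fc068bc9e6a (k8 c4479 c4297 c4432 c1407 c4463 c4304 c10255 c10080 (k4 c324 c325 c9075 c1171 k0)) (by decide +kernel)
def c10257 : PP 8 4 T 0x400000002002000000000000000000000040000004100000000000010000000010020 := rS 0xd26a1500373512da66d0d9c40c090182cb0210c89c1f09 (k8 c10243 c10240 c350 c269 c10031 c10236 c535 c55 (k8 c1106 c4462 c2483 c4292 c694 c5695 c4434 c4479 (k4 c10256 c10254 c184 c3832 (k2 c1293 c10080 k0)))) (by decide +kernel)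
def c10258 : PP 8 4 T 0x801000002002000000000000000000000040008000100020000000000000000000020 := rS 0xc4a52b512c159c592e1b0bb44a2530999c2a9b17a64829514a4c380b1080c77050caae222d43abd3a01 (k8 c54 c4344 c4346 c9925 c4286 c4498 c4445 c269 (k8 c10051 c4403 c55 c10031 c535 c4726 c1029 c4402 (k8 c762 c4433 c1031 c4432 c764 c4284 c654 c4401 (k8 c4290 c4435 c4298 c4431 c4292 c10251 c4487 c7239 (k4 c4420 c682 c8622 c9918 (k2 c6031 c4429 k0)))))) (by decide +kernel)
def c10259 : PP 8 4 T 0x2002000000000000000000000040000004100000000000010000000010020 := rS 0x88321552cb28bc60f687889ad5e9d8942436d12894c5a15399dd2a2949870023b3a84cf2060480c16581085e0a19 (k8 c269 c10051 c4431 c10031 c10236 c535 c55 c1106 (k8 c4462 c500 c4401 c498 c4403 c54 c4726 c1029 (k8 c4402 c762 c3009 c3008 c4284 c4286 c4290 c4435 (k8 c4298 c4292 c10243 c10257 c4344 c4346 c4442 c4498 (k8 c9925 c10258 c4482 c9283 c4481 c4487 c8861 c1196 (k2 c2109 c556 k0)))))) (by decide +kernel)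
def c10260 : PP 8 4 T 0x402000000000000040000040100000500000401404000020000010040000000000080 := rS 0x230be4ea15027b (k4 c4320 c4439 c4321 c1234 (k2 c9037 c4488 (k1 c4369 k0))) (by decide +kernel)
def c10261 : PP 8 4 T 0x1000000000000210000000000000001011504040015515500000000000000000000000000000000000 := rS 0xcfa1b2e96b86125d56a3 (k8 c4337 c4415 c4336 c7223 c5931 c4459 c2028 c4394 (k2 c1525 c4495 k0)) (by decide +kernel)
def c10262 : PP 8 4 T 0x400000002002000000000000100010514440504415100021000000020004001000080 := rS 0x89439912d1157a7c450d46894bccd542128a1b27b44a2532384c2b055aa457ab71d9a97ec54eb062f1884aec96373c85da641 (k8 c4433 c5695 c4431 c500 c87 c4434 c1309 c10260 (k8 c4482 c9283 c4450 c1234 c7718 c7782 c4479 c4403 (k8 c1037 c1039 c1036 c7883 c10051 c4284 c4401 c4404 (k8 c4290 c4435 c4298 c4297 c4292 c8243 c7037 c563 (k8 c1482 c10110 c1503 c1508 c4382 c4467 c1299 c10244 (k4 c10261 c4487 c1196 c1653 (k2 c2527 c2109 k0))))))) (by decide +kernel)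
def c10263 : PP 8 4 T 0x200004000000004000020000000010000 := rS 0x1afd (k2 c4380 c1293 (k1 c8124 k0)) (by decide +kernel)
def c10264 : PP 8 4 T 0x400000002002000000000000000000000040004004100000000000000000000010020 := rS 0x167172a460e69514a4c7675099c60a1913a3d02a1539aa12bb25ac46e794ca6c5e770e0040c090182c4258209b436836985c1e34 (k8 c10259 c1329 c4431 c5695 c4570 c4292 c694 c4433 (k8 c10236 c10031 c535 c55 c1106 c4462 c54 c4726 (k8 c3009 c4432 c764 c1031 c500 c87 c1034 c4434 (k8 c1309 c10260 c4479 c2008 c10253 c10263 c1306 c350 (k8 c269 c10051 c2483 c4401 c498 c4403 c1029 c4402 (k4 c762 c3008 c4482 c10262 (k2 c9283 c8861 (k1 c4481 k0)))))))) (by decide +kernel)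
def c10265 : PP 8 4 T 0x500100000000000040014545100010055509400105940004000000000000000014020 := rS 0x17d44a54f9f68aca67b34c4a759ae58316 (k8 c4487 c4420 c6781 c7239 c2008 c10041 c3837 c1637 (k8 c2129 c4455 c1629 c3554 c1941 c2125 c7647 c10249 k0)) (by decide +kernel)
def c10266 : PP 8 4 T 0x101000002002000000014545100010041554000004800000000000000000001014020 := rS 0x5e3ea89949f67b34ca62a515036d12894cae7503024270553a0da6175999c2ab960c592a2949870162101960023b (k8 c4403 c54 c10236 c55 c10031 c535 c4726 c1029 (k8 c4402 c762 c4487 c4420 c6781 c4284 c654 c7239 (k8 c4431 c5695 c4570 c2008 c10051 c4401 c1106 c4462 (k8 c498 c63 c4290 c4435 c4298 c4292 c2109 c9918 (k8 c267 c1647 c4460 c4430 c9783 c2129 c2125 c1628 (k2 c10249 c1466 k0)))))) (by decide +kernel)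
def c10267 : PP 8 4 T 0x400000002002000000000400000000000140000004100000000000000000000010020 := rS 0xa34f9754b4567a115462433155e895cace22670a95d2a29499d427055aa3d22275eadc76a1539aa12bb25ac46e794ca6c5e770e0040c0905884826d0da0da617078d186973d064b003 (k8 c55 c10236 c269 c10264 c10251 c1212 c10259 c1329 (k8 c4431 c5695 c4570 c4292 c694 c4433 c10031 c535 (k8 c1106 c4462 c54 c4726 c3009 c4432 c764 c1031 (k8 c500 c87 c1034 c4434 c1309 c10260 c4479 c2008 (k8 c10253 c4403 c1037 c1039 c350 c1036 c1306 c7883 (k8 c10051 c4401 c498 c1029 c4402 c762 c63 c4284 (k8 c654 c10252 c7239 c6781 c682 c9756 c8820 c10266 (k8 c10041 c1924 c10265 c3557 c4397 c1402 c1498 c4168 (k2 c818 c2125 k0))))))))) (by decide +kernel)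
def c10268 : PP 8 4 T 0x1000000000000600000002002000000004005000110041540000000800000000000000000021014020 := rS 0x185f42a219e555c21c569f55a8c36d12894c26154a8a5263b53a0da617 (k8 c4431 c5695 c4570 c2008 c4403 c1029 c4402 c762 (k8 c4284 c4401 c4290 c4435 c4298 c4292 c4337 c4415 (k8 c4414 c4411 c1924 c2125 c266 c1526 c2109 c685 (k2 c7647 c10217 (k1 c528 k0))))) (by decide +kernel)
def c10269 : PP 8 4 T 0x1000000000000501100000000000040000005100510055501500144041004000000000000000014020 := rS 0xa34f9f4ba5f7e45966b9 (k8 c6781 c7239 c4487 c4484 c7647 c4377 c4379 c9562 (k2 c10249 c2125 k0)) (by decide +kernel)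
def c10270 : PP 8 4 T 0x400000002002000000000000000000000140000004100000000000000000000010020 := rS 0x872a992869f3f088fb0d2f325508457a25671152d157c2568944a64733854ae734a8a52675099c4c3055aa3d22275b8ed02a1539aa12bb25ac46e794ca6c5e770e0040c0905884826d0da0da617078d186973d064b003 (k8 c55 c10236 c269 c10264 c10251 c1212 c10259 c1329 (k8 c4431 c5695 c4570 c4292 c694 c4433 c10031 c535 (k8 c1106 c4462 c54 c4726 c3009 c4432 c764 c1031 (k8 c500 c87 c1034 c4434 c1309 c10260 c4479 c2008 (k8 c10253 c10263 c4403 c1037 c350 c1036 c1306 c7883 (k8 c10051 c2598 c2483 c4401 c498 c1029 c4402 c762 (k8 c3008 c63 c4284 c654 c4404 c4290 c4435 c4298 (k8 c1369 c10267 c4399 c1403 c10268 c7239 c682 c9756 (k8 c10269 c563 c716 c10110 c4382 c3480 c4467 c5124 (k4 c1299 c4392 c7116 c1647 (k2 c1653 c2109 k0))))))))))) (by decide +kernel)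
def c10271 : PP 8 4 T 0x400000002002000000000000000000000040000004100000000000000000000010020 := rS 0x291189c3d1aa126d0d9dd362f4c87002413c818120305960423758aec9683078d1a617 (k8 c4431 c5695 c10259 c1329 c4570 c4434 c1309 c1034 (k8 c87 c10031 c10236 c535 c55 c1106 c4462 c500 (k8 c4433 c54 c4726 c1031 c4432 c764 c3009 c4292 (k8 c694 c10260 c4479 c10264 c561 c10270 c1237 c7885 k0)))) (by decide +kernel)
def c10272 : PP 8 4 T 0x102100002002000000000000000000000000000004400000000000020000000010020 := rS 0x10d46a853ea32f094fa5d063f573164b988ca4733854e6774a8a5261c009e42e7103024060b2c2d51e214889d764b5e9056e3b (k8 c4403 c1037 c4433 c1039 c4434 c1309 c350 c1036 (k8 c10031 c1306 c7883 c10236 c535 c55 c1106 c4462 (k8 c2483 c4431 c500 c54 c4726 c1029 c4402 c762 (k8 c3009 c3008 c4284 c654 c4404 c5681 c4478 c1196 (k8 c4487 c4361 c8859 c8124 c1288 c1291 c1368 c528 (k4 c818 c6237 c7717 c1028 (k2 c4382 c5931 k0))))))) (by decide +kernel)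
def c10273 : PP 8 4 T 0x2002000000000000000000000040000004100000000000000000000010020 := rS 0x110642aa5965178c1ee1287889ad5e9d890d036d12894c5a15399dd2a2949870023b3a84cf2060480c16581085e0a19 (k8 c269 c10051 c4431 c10031 c10236 c535 c55 c1106 (k8 c4462 c500 c4401 c498 c4403 c54 c4726 c1029 (k8 c4402 c762 c3009 c3008 c4284 c4286 c4290 c4435 (k8 c4298 c4292 c10259 c10271 c4344 c4346 c4442 c4498 (k8 c9925 c10272 c10258 c4482 c9283 c4481 c4487 c8861 (k2 c1196 c2109 (k1 c556 k0))))))) (by decide +kernel)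
def c10274 : PP 8 4 T 0x4000000000000000000000005202000055520000000000000000000000000000000000 := rS 0x190cd5c28e2115 (k4 c4350 c4487 c4337 c7468 (k2 c1483 c1204 (k1 c637 k0))) (by decide +kernel)
def c10275 : PP 8 4 T 0x402101002002000000000145200400001400040000000020000000000000000000020 := rS 0xc95133558af4b2ae96882aaca2ea88c2fd3a7b33854e69b17a64829514a4c76750302426a5864551a1c058840601 (k8 c54 c55 c10031 c535 c4726 c3010 c4350 c4486 (k8 c4385 c4401 c1106 c4462 c498 c4403 c1029 c4402 (k8 c762 c4433 c1031 c4432 c764 c3008 c4284 c654 (k8 c4320 c1234 c1242 c4488 c2126 c9283 c4481 c8861 (k8 c5422 c4457 c1945 c10274 c4631 c4785 c1484 c948 (k2 c637 c5380 k0)))))) (by decide +kernel)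
def c10276 : PP 8 4 T 0x4000000002002000000000005202000041440000000800001000000000000021000000 := rS 0x432ad13100d85da2512984c2a9514a4c768d (k8 c3010 c4403 c1029 c4402 c762 c4284 c4401 c4290 (k8 c4435 c4298 c4431 c4292 c4487 c10274 c4415 c2109 (k1 c1924 k0))) (by decide +kernel)
def c10277 : PP 8 4 T 0x400000002002000000000000000000000040004004100000000000000000000000020 := rS 0x28992ac4421d9a6457a58aab25445d7f184eb44a253339ccee993a84cf21752c322a8d354254e5f30adc76bd20aec96915a8d11e1c00ac00c090182c427f0abf421050c960da1b (k8 c4292 c694 c10236 c269 c10051 c10273 c4300 c4284 (k8 c670 c10031 c535 c55 c1106 c4462 c608 c54 (k8 c4726 c7008 c609 c7883 c3019 c4434 c1309 c4433 (k8 c1039 c4403 c1037 c2598 c2507 c4532 c10275 c4479 (k8 c3010 c4350 c4486 c4385 c4431 c500 c4401 c498 (k8 c1031 c3009 c3008 c654 c4290 c4435 c4298 c1234 (k8 c4482 c7782 c9283 c7959 c4481 c8861 c10276 c4631 (k8 c1196 c1484 c1653 c2109 c557 c637 c948 c5380 k0)))))))) (by decide +kernel)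
def c10278 : PP 8 4 T 0x1100000002002000000000005000000041540108000040000000000000000021020000 := rS 0x10e55641f544895cacc361768944a6134a8a5263b82bf4fe15 (k8 c4284 c670 c4300 c10051 c4403 c1029 c4402 c762 (k8 c4401 c4290 c4435 c4298 c4431 c4292 c7239 c6781 (k4 c682 c7468 c1354 c5380 (k2 c347 c1733 (k1 c2109 k0))))) (by decide +kernel)
def c10279 : PP 8 4 T 0x400000002002000000000000000000000040000004100000000000000000000000020 := rS 0x88629550eb815aad47104b9e9026a8485da2512984cda1b33a54529382864fe155aaec96bd20adc76a72f985faa5864551ab0488d00c0947840380b1080c0258 (k8 c10236 c54 c55 c10031 c535 c4726 c10273 c7008 (k8 c1106 c4462 c609 c3019 c608 c3010 c4350 c4486 (k8 c4385 c4300 c2598 c2507 c4532 c4403 c1037 c4433 (k8 c1039 c4434 c1309 c7883 c4284 c670 c269 c10051 (k8 c1029 c4402 c762 c654 c4292 c694 c4401 c4290 (k8 c4435 c4298 c4431 c10275 c4479 c1922 c10277 c10251 (k8 c10278 c4337 c4415 c4411 c7468 c1924 c266 c3271 (k2 c2109 c683 k0)))))))) (by decide +kernel)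
def c10280 : PP 8 4 T 0x2002000000000000000000000040000004100000000000000000000000020 := rS 0x2127a5f2a53b1252c314e8d8aaf576914797d60347e840969b17a643801209840c090182cb021 (k8 c10031 c10236 c535 c55 c1106 c4462 c2598 c4433 (k8 c54 c4726 c1031 c4432 c764 c4434 c10273 c4300 (k8 c609 c608 c2507 c7008 c3019 c1309 c1039 c4350 (k8 c3010 c4532 c4486 c4385 c10279 c4344 c4345 c2126 (k2 c1242 c4320 (k1 c10258 k0)))))) (by decide +kernel)
def c10281 : PP 8 4 T 0x40000000200000000100000000000020000000000000020010020 := rS 0x86a451e242f88c1c0d8abf40203 (k8 c55 c54 c4304 c4350 c2486 c4463 c1328 c1376 (k4 c264 c760 c1156 c4381 (k1 c4486 k0))) (by decide +kernel)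
def c10282 : PP 8 4 T 0x4000100000002000000000004100000000800000014000001000000000000020000001 := rS 0xb5a19f8920d07bf06c228a84c2ac7 (k8 c4289 c4284 c4401 c4388 c760 c761 c4480 c1328 (k4 c1407 c323 c7126 c4392 (k2 c1433 c4989 k0))) (by decide +kernel)
def c10283 : PP 8 4 T 0x4000000002002000000000000040000040000000000000000000000001000020000000 := rS 0x5710568bca2534a8a5263b (k8 c4403 c1029 c4402 c762 c4290 c4435 c4432 c4809 (k2 c4487 c4411 (k1 c7769 k0))) (by decide +kernel)
def c10284 : PP 8 4 T 0x1000002000000000000000100000000000400014000000000040100000000008000 := rS 0x22afd2593c8245 (k4 c4296 c4433 c4297 c4434 (k2 c4376 c8476 (k1 c4480 k0))) (by decide +kernel)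
def c10285 : PP 8 4 T 0x400001002000000040000000101001501100000014000000000000000000000014020 := rS 0xa5538884a0c8a12c5e015faee3027 (k8 c350 c4488 c4449 c4566 c54 c4432 c4434 c4480 (k4 c4463 c1368 c529 c4558 (k2 c1301 c7247 k0))) (by decide +kernel)
def c10286 : PP 8 4 T 0x1000000000000400102000000000040000004001501501100000000420001000000110000000144020 := rS 0x493f8346c5f8aafd7718 (k8 c4488 c4449 c4566 c7247 c7137 c4470 c528 c554 (k2 c323 c7126 k0)) (by decide +kernel)
def c10287 : PP 8 4 T 0x400000002002000000000000000000000040000004000000000000010000001010020 := rS 0xfe4906a8c4823535154a817e03d06aa56a1912a1322596e5559414621b68944a6670a9ccee393a84cf21738818130935aa55e438bc613a682ba64829b1789d22b146870162101805a658 (k8 c10236 c5695 c54 c55 c10031 c535 c4726 c1027 (k8 c10281 c1155 c350 c4432 c764 c4433 c1031 c63 (k8 c10280 c824 c4488 c9283 c4446 c829 c10183 c69 (k8 c4437 c1106 c4462 c2483 c4431 c500 c4401 c498 (k8 c3153 c3009 c3008 c4284 c654 c4290 c4435 c4298 (k8 c4292 c1878 c10051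 c4481 c8861 c1163 c10283 c1196 (k8 c898 c556 c2109 c1905 c1652 c3904 c10284 c10285 (k8 c4380 c1882 c8243 c10286 c772 c4558 c940 c529 (k2 c283 c555 (k1 c7126 k0)))))))))) (by decide +kernel)
def c10288 : PP 8 4 T 0x1000000000004400002000002000000000000001001554050004550201000000000002400000014020 := rS 0x1a231229a1a633fc116687a5b09566551c4002670ac255ec560c604ead299f54a81 (k8 c4380 c1882 c4379 c4290 c2046 c350 c4488 c4450 (k8 c7718 c829 c4437 c4284 c654 c54 c4487 c4337 (k8 c4412 c4415 c7287 c4459 c1906 c7658 c4485 c10049 (k4 c7153 c9217 c4490 c2007 (k2 c772 c1368 (k1 c10188 k0)))))) (by decide +kernel)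
def c10289 : PP 8 4 T 0x400000002002000000000000000000000040000004000000000000010000000010020 := rS 0xfe4906a8c48a68295542b25b9912d4552a05f80f41ab460890c245628d29854e6771ca5452931d9d426790b9c4c20604c24d6a9699ecda1b21c5e309d3415d32414d870162101960022f (k8 c4432 c54 c10236 c55 c10031 c535 c4726 c764 (k8 c4433 c1031 c63 c10280 c824 c4488 c9283 c4446 (k8 c4292 c694 c7035 c5695 c10183 c69 c4437 c1106 (k8 c4462 c2598 c2483 c4431 c500 c4401 c498 c4403 (k8 c1029 c4402 c762 c3153 c3009 c3008 c4284 c4290 (k8 c1027 c10281 c1155 c10287 c2038 c268 c2046 c3902 (k8 c10284 c10285 c4380 c1882 c8243 c10288 c1196 c3176 (k8 c1195 c898 c1647 c4312 c10286 c2007 c940 c1368 (k2 c283 c555 (k1 c7126 k0)))))))))) (by decide +kernel)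
def c10290 : PP 8 4 T 0x20000000000000000040000500001101101500000000000000000000020404000000000 := rS 0x14c25 (k2 c1369 c7959 (k1 c4558 k0)) (by decide +kernel)
def c10291 : PP 8 4 T 0x4000002002002000000000000000040001040000000200020000000000002021005081 := rS 0x927f2aa84c8b24b4146215399d426af (k8 c829 c4401 c498 c3008 c4284 c1878 c10051 c10283 (k4 c4481 c1196 c898 c8861 (k2 c555 c283 (k1 c7126 k0)))) (by decide +kernel)
def c10292 : PP 8 4 T 0x400000002002000000000000000000000040000004000000000000000000000010020 := rS 0x24c14fe5550ac8c8961822430fc518344823465154a8340af41e9147ac468272594c2a5b0f9ccee9514a4c7675099e42e713081812bf54b4cf66d0dc5e309d3415d32414d870162101960022f (k8 c4432 c54 c10236 c55 c10031 c535 c4726 c764 (k8 c4433 c1031 c63 c10280 c824 c4488 c9283 c4292 (k8 c694 c7035 c5695 c10183 c4566 c1106 c4462 c2598 (k8 c2483 c4431 c500 c4401 c498 c4403 c1029 c4402 (k8 c762 c3009 c3008 c56 c93 c4284 c4290 c4434 (k8 c350 c10289 c1034 c1306 c3019 c1329 c1039 c10263 (k8 c4570 c1882 c8243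 c10290 c1298 c1028 c4113 c1468 (k8 c4463 c10291 c2038 c268 c10288 c1196 c1195 c898 (k4 c1647 c555 c4312 c283 (k1 c7126 k0)))))))))) (by decide +kernel)
def c10293 : PP 8 4 T 0x400000002002000000000000000000000040000004000000000000000000000000020 := rS 0x5389d1b155ea444a8f2fac068108c2fd362f4c870024130818120b10aa406d34e9a0ae58 (k8 c10236 c63 c10280 c824 c5695 c55 c10183 c10031 (k8 c535 c1106 c4462 c2598 c4433 c54 c4726 c1031 (k8 c4432 c764 c4566 c4488 c10292 c609 c608 c2507 (k8 c7008 c279 c3019 c1039 c4350 c3010 c351 c4558 (k1 c9059 k0))))) (by decide +kernel)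
def c10294 : PP 8 4 T 0x101000002002000000000000044001040044008000000020000000000000001000020 := rS 0x18a62a515112c159c58361768944a61333854e69b17a64829514a4c380b1080c023b (k8 c4403 c54 c55 c10031 c535 c4726 c1029 c4402 (k8 c762 c4433 c1031 c4432 c764 c3008 c4284 c654 (k8 c4401 c4290 c4435 c4298 c4431 c4292 c4487 c7239 (k4 c4420 c682 c2109 c9918 (k2 c267 c4429 (k1 c7141 k0)))))) (by decide +kernel)
def c10295 : PP 8 4 T 0x101000002002000000000000044001000044008000000020000000000000001000020 := rS 0x55449918a960d85da2512984c2a03 (k8 c55 c4284 c4401 c4290 c4435 c4298 c4431 c4292 (k4 c10294 c3269 c1196 c683 (k2 c1647 c2109 k0))) (by decide +kernel)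
def c10296 : PP 8 4 T 0x2002000000000000000000000040000004000000000000000000000000020 := rS 0x892a99164968bc60f7050ca1e22ab18c493aaf35c24d01b68944a62d0a95ce6770e004ea133c8181203059604217 (k8 c4431 c10031 c10236 c535 c55 c1106 c4462 c500 (k8 c4401 c498 c54 c4726 c3009 c3008 c63 c4284 (k8 c4286 c4290 c4435 c4298 c4292 c10280 c4437 c69 (k8 c829 c824 c10293 c4441 c4445 c4498 c9925 c268 (k8 c10051 c10295 c4482 c9283 c10283 c4481 c1196 c8861 (k2 c556 c2109 k0)))))) (by decide +kernel)
def c10297 : PP 8 4 T 0x40040011100000000000000014000000000405410000000008020 := rS 0x4506cfd (k4 c4376 c10104 c4480 c4386 k0) (by decide +kernel)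
def c10298 : PP 8 4 T 0x400000002002000000000000000000000000000004100000000000010000000010020 := rS 0xc643f490b71b83d628d238fd8ed3398e4ea7103024327f599f47a2b5cad62c97571aa13113204c2e1529955a26d4486d0e8a28a5452930e02c42032c0047627 (k8 c350 c4403 c54 c10236 c55 c10031 c535 c4726 (k8 c1029 c4402 c762 c4435 c10296 c186 c4292 c187 (k8 c694 c4298 c1766 c4290 c4284 c4431 c4401 c7856 (k8 c4412 c4322 c4479 c565 c4631 c4487 c4419 c4361 (k8 c5424 c7465 c3715 c2536 c2537 c269 c1106 c4462 (k8 c2483 c498 c3153 c3008 c5695 c4289 c4288 c4404 (k8 c1027 c10281 c10297 c10256 c7094 c7430 c7787 c2121 (k2 c4199 c2487 k0)))))))) (by decide +kernel)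
def c10299 : PP 8 4 T 0x400000002002000000000000000000000000000004100000000000000000000010020 := rS 0xd7eb216eb11a1ccea7103024feb33eae56b164bab8d5098899026170a94caad136a243687451452a2949870162101960023b (k8 c4403 c54 c10236 c55 c10031 c535 c4726 c1029 (k8 c4402 c762 c4435 c10296 c186 c4292 c187 c694 (k8 c4298 c1766 c4290 c4284 c4431 c4401 c7856 c4412 (k8 c4322 c4479 c565 c4631 c4487 c4419 c4361 c3715 (k8 c2536 c2537 c1106 c4462 c2483 c498 c3008 c10298 (k4 c1034 c1037 c9361 c7787 (k2 c2487 c8124 k0))))))) (by decide +kernel)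
def c10300 : PP 8 4 T 0x400000002002000000000000000000000000000004100000000000000000000000020 := rS 0x106a8512362ab748a3d603442bf420b55cc592eae889a8c8172894c26153686c0c094a8a5261c058840658008ee12874495514d1 (k8 c4298 c10296 c1766 c187 c186 c4322 c4403 c54 (k8 c10236 c55 c10031 c535 c4726 c1029 c4402 c762 (k8 c1106 c4462 c4292 c694 c4284 c4401 c4290 c4435 (k8 c4431 c7856 c4479 c4412 c565 c4631 c4487 c4361 (k8 c4419 c10299 c4300 c710 c609 c608 c7008 c3019 (k4 c1037 c4350 c3010 c7468 (k2 c988 c9071 (k1 c5323 k0)))))))) (by decide +kernel)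
def c10301 : PP 8 4 T 0x400200002000000040010000000040000180441114255020000000000000020010020 := rS 0x5323a8aa58aae61a8164bf01e91589ccee3984aa406b33d9b436438c274ae9920a6c5e7d (k8 c4409 c4432 c764 c4433 c1031 c63 c824 c4488 (k8 c4446 c4292 c694 c7035 c722 c55 c10183 c4322 (k8 c3153 c3009 c3008 c10281 c1155 c10284 c10285 c4305 (k8 c4380 c7315 c9363 c8522 c1882 c8243 c4486 c4490 (k1 c852 k0))))) (by decide +kernel)
def c10302 : PP 8 4 T 0x400000002002000000000000000000000000000004000000000000000000000010020 := rS 0x3241e492e8d01a2386a30ce152d87cf21730b14fe713ec10ea060484cca6b51aa5a62b8820c4e18182bcc6734a8a696ab56c5e309920a4c7697599ed3a574d8701621018045e6d0da28b068 (k8 c10300 c10236 c10296 c4292 c694 c4432 c54 c55 (k8 c10031 c535 c4726 c764 c63 c824 c7035 c722 (k8 c1195 c4403 c1029 c4433 c1031 c4488 c9283 c4809 (k8 c1673 c4427 c4402 c762 c3008 c7153 c828 c10230 (k8 c1878 c2311 c3902 c4487 c4411 c5695 c10183 c4526 (k8 c69 c7555 c4401 c1106 c4462 c498 c4481 c4409 (k8 c2483 c10049 c7718 c2598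 c4431 c500 c56 c93 (k8 c4284 c654 c10301 c4383 c1298 c4113 c1027 c1337 (k4 c7307 c1329 c7308 c9269 k0))))))))) (by decide +kernel)
def c10303 : PP 8 4 T 0x400000002002000000000000000000000000000004000000000000000000000000020 := rS 0x14a8d48a9d7a8f2fac068857e841063057ab4c6978bace307b5fa7552686995ce6774d8bd32414a8a5261c008ece26103024060b2c086134b55a28da1b (k8 c4292 c694 c10296 c1673 c4427 c4322 c10031 c10236 (k8 c535 c55 c1106 c4462 c2598 c2483 c4403 c54 (k8 c4726 c1029 c4402 c762 c4433 c1031 c4432 c764 (k8 c3009 c3008 c63 c5695 c10300 c10183 c824 c4566 (k8 c7035 c4488 c722 c9283 c1195 c7153 c4809 c828 (k8 c10230 c3902 c10302 c4300 c710 c609 c608 c2507 (k4 c7008 c7175 c5558 c3019 (k2 c3010 c1883 (k1 c7959 k0))))))))) (by decide +kernel)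
def c10304 : PP 8 4 T 0x101002000000040118100101101501580000014001000000000000000000014020 := rS 0x1433fae19abe53894fabb064500309 (k8 c4322 c54 c4480 c4463 c4390 c8317 c1368 c10010 (k4 c2126 c1486 c1215 c725 (k2 c4394 c4483 k0))) (by decide +kernel)
def c10305 : PP 8 4 T 0x2000000000000080000000001500008000000000000040100000000000080 := rS 0x10d26c54964f (k4 c4297 c4434 c4390 c1974 (k2 c4868 c4486 k0)) (by decide +kernel)
def c10306 : PP 8 4 T 0x4100102000002000010419800001010000180000000000000000000000000000004020 := rS 0x2f430189fa1a8c927f5c3399b45098569655 (k8 c1766 c4427 c4284 c4401 c4399 c1486 c4572 c1215 (k8 c725 c4573 c1523 c4394 c1395 c7126 c4489 c528 (k1 c4382 k0))) (by decide +kernel)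
def c10307 : PP 8 4 T 0x4000000002002000000000000000000000100000004000000000000000000000010020 := rS 0x7f248359a2411a997ebb7e32c1e435ea3d9283611ea0aa1592dd8a9629855362f1ca64827130c24aad160a28ea060484d3aa9578c54b11890b44e9158870162101805a658 (k8 c10236 c5695 c54 c55 c10031 c535 c4726 c10281 (k8 c1155 c350 c4286 c10303 c4498 c4444 c4441 c4346 (k8 c4345 c4344 c4401 c1106 c4462 c498 c10296 c1712 (k8 c4298 c1766 c4322 c2598 c2483 c4433 c1031 c3153 (k8 c4432 c764 c4284 c4290 c10283 c3269 c3176 c1195 (k8 c898 c4312 c722 c723 c2629 c634 c10282 c1171 (k8 c2054 c10284 c1752 c10304 c10305 c10306 c2126 c772 (k4 c4558 c2067 c529 c283 (k2 c725 c7126 k0))))))))) (by decide +kernel)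
def c10308 : PP 8 4 T 0x1002000000040000111501101501180000154001000000000000000000014020 := rS 0xbf539f992253eadd1ebb064500309 (k8 c4322 c54 c4480 c4463 c4390 c4388 c4353 c8317 (k4 c1368 c2487 c2121 c10010 (k2 c8266 c2126 k0))) (by decide +kernel)
def c10309 : PP 8 4 T 0x10800002000000000000000100000000400800400011101000000000000000000000000 := rS 0x5dd15085f53afe2aa935a94ba81 (k8 c4380 c4377 c4444 c4442 c4345 c4388 c1515 c852 (k4 c1425 c4130 c9368 c1441 (k1 c4493 k0))) (by decide +kernel)
def c10310 : PP 8 4 T 0x80000000001500100000000000000000000000000000000 := rS 0x21b15 (k2 c4390 c4945 (k1 c4486 k0)) (by decide +kernel)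
def c10311 : PP 8 4 T 0x8000002000000000000000800000000000080000054000000000000000000000000000 := rS 0xfeb759ad596c9 (k4 c4305 c1752 c4419 c4358 (k2 c1247 c8266 (k1 c7787 k0))) (by decide +kernel)
def c10312 : PP 8 4 T 0x2002000000000000000000000000000004100000000000010000000010020 := rS 0x1960a7e8a28d4cbf5da3d968164bf17a833d03e32975aacd723d8b245628d0b91c7ec7699b436670a9ccee9b17a64829514a4c38011d9d4267130818120305960429d54a96222d31abe248a (k8 c10296 c10303 c4346 c1768 c4286 c4498 c4444 c4345 (k8 c4344 c10031 c10236 c535 c55 c1106 c4462 c2598 (k8 c2483 c4401 c498 c4403 c54 c4726 c1029 c4402 (k8 c762 c4433 c1031 c4432 c764 c3009 c3008 c4284 (k8 c654 c4292 c694 c5695 c4289 c4288 c4404 c4431 (k8 c1027 c10281 c1155 c10307 c4416 c4361 c4358 c4419 (k8 c4360 c4982 c10297 c9998 c4570 c1171 c10308 c4305 (k8 c4380 c1752 c10309 c10310 c10311 c2126 c941 c8272 (k4 c7058 c8522 c555 c4478 k0))))))))) (by decide +kernel)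
def c10313 : PP 8 4 T 0x2002000000000000000000000100000004000000000000020000000010020 := rS 0x3f17cb35ca9e2c25699cd362f4c8700275099c4c2060480c17094527552a5892d5628f10a44b00f5d92d7a41 (k8 c4433 c1039 c4434 c1309 c1329 c10236 c3019 c10031 (k8 c1306 c1034 c7883 c10303 c4444 c4345 c4344 c10296 (k8 c4322 c535 c55 c1106 c4462 c2598 c2483 c4401 (k8 c498 c54 c4726 c1031 c4432 c764 c3008 c5695 (k8 c1369 c10307 c10010 c4361 c4358 c2126 c10308 c10311 k0))))) (by decide +kernel)
def c10314 : PP 8 4 T 0x2002000000000000000000000000000004100000000000000000000010020 := rS 0x249fd426482b2d92847e135465d06890468c3ea0d020f588d0961b0b93c8e1363b4cce152d87d261c008ecc2060480c165810d2caad1888b4c6af450646312 (k8 c10303 c4441 c268 c10296 c4346 c1768 c4286 c4498 (k8 c4298 c1766 c4427 c10031 c10236 c535 c55 c1106 (k8 c4462 c2598 c4403 c54 c4726 c1029 c56 c93 (k8 c4284 c654 c5695 c4289 c4401 c4404 c4297 c4431 (k8 c4292 c4434 c10312 c1034 c1329 c10263 c4570 c1773 (k8 c10313 c1298 c1028 c4113 c1337 c1468 c284 c8124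 (k8 c2108 c4305 c1752 c10185 c4478 c7303 c555 c283 (k1 c2107 k0)))))))) (by decide +kernel)
def c10315 : PP 8 4 T 0x2002000000000000000000000000000004100000000000000000000000020 := rS 0xa35ca5d9cb34127d7d0c50a9c4e8d8aadd7abb48ad44a8f2fac068fd0812d362f4c9052a2949870023b30818120305960428a4eaa54b12 (k8 c10303 c4444 c4345 c4344 c10296 c10031 c10236 c535 (k8 c55 c1106 c4462 c2598 c4403 c54 c4726 c1029 (k8 c4402 c762 c4433 c1031 c4432 c764 c4434 c10314 (k8 c4300 c609 c608 c2507 c7008 c279 c7883 c3019 (k8 c1309 c1039 c1037 c4350 c3010 c351 c4532 c7717 (k8 c4486 c2126 c4384 c1243 c2629 c645 c1195 c1203 (k2 c1523 c2125 k0))))))) (by decide +kernel)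
def c10316 : PP 8 4 T 0x100000000002000000100000000000000800010010044001000001110000020014000 := rS 0x321fa0a0d2497c6d152384c2ac7 (k8 c4289 c4284 c4401 c4404 c4388 c761 c1425 c4209 (k4 c1407 c9269 c2107 c4478 (k1 c554 k0))) (by decide +kernel)
def c10317 : PP 8 4 T 0x2002000000000000000000000000000004000000000000010000000000020 := rS 0x32c14fd1451a99768f65afcfa8164bf17a7a07c652eb559ae47a918b2c4228d238fd8ed333854e6774d8bc729920a5452930e0047675099c4c2060480c165810955a29d54a96222d31abe248a (k8 c10296 c10303 c4346 c1768 c4286 c4498 c4444 c4345 (k8 c4344 c4298 c1766 c10031 c10236 c535 c55 c1106 (k8 c4462 c2598 c2483 c4401 c498 c4403 c54 c4726 (k8 c1029 c4402 c762 c4433 c1031 c3153 c4432 c764 (k8 c3009 c3008 c4284 c654 c5695 c4289 c4288 c4404 (k8 c1027 c609 c10281 c10307 c1155 c4416 c4361 c4358 (k8 c4419 c4360 c4982 c10297 c9998 c1171 c10308 c4305 (k8 c4380 c4379 c10311 c1752 c10316 c10310 c2126 c941 (k4 c8272 c7058 c8522 c555 (k1 c4478 k0)))))))))) (by decide +kernel)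
def c10318 : PP 8 4 T 0x2002000000000000000000000000000004000000000000000000000010020 := rS 0x249fd426482b2d92847e135465d06890467d41a3102b12586c2e4f2384d8ed333854b61f49870023b30818120305960434b2ab46222d31abd141918c481e34 (k8 c10317 c1329 c10303 c4441 c268 c10296 c4346 c1768 (k8 c4286 c4498 c4298 c1766 c4427 c10031 c10236 c535 (k8 c55 c1106 c4462 c2598 c4403 c54 c4726 c1029 (k8 c56 c93 c4284 c654 c5695 c4289 c4401 c4404 (k8 c4297 c4431 c4292 c4434 c1034 c10263 c10313 c4570 (k8 c1773 c1298 c1028 c4113 c1337 c1468 c284 c8124 (k8 c2108 c4305 c1752 c10185 c4478 c7303 c555 c283 (k1 c2107 k0)))))))) (by decide +kernel)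
def c10319 : PP 8 4 T 0x2002000000000000000000000000000004000000000000000000000000020 := rS 0x17c8353a344ab0082f57691478d0d0a554a76250945185329b03070120b2c12c5e41698040621 (k8 c10031 c55 c54 c5695 c4433 c4432 c4434 c10236 (k8 c535 c1106 c4726 c4462 c764 c1031 c2598 c10296 (k8 c4322 c10303 c4344 c4345 c4444 c10315 c10317 c1306 (k8 c3019 c1309 c1039 c10318 c608 c279 c3010 c10010 (k2 c2000 c2126 (k1 c1243 k0)))))) (by decide +kernel)
def c10320 : PP 8 4 T 0x2002000000000000000000000040000000000000000000010000010010020 := rS 0x6133ce8c844414aa19159de327d39a7e2e875f2e183435aaf4863d3dc51765651c3410372c96c487f4282c924d1c838961b0b93c82d12894c8e131d8558ed30080dfa6e4b8fd3a1e109156607 (k8 c527 c10182 c4296 c10031 c4466 c1232 c4288 c1193 (k8 c10319 c4378 c55 c54 c5695 c4289 c4284 c4403 (k8 c4401 c4404 c4290 c4435 c4298 c4433 c4297 c4431 (k8 c4292 c4434 c8928 c1074 c2192 c2191 c2199 c1495 (k8 c1455 c264 c574 c4726 c1344 c4462 c4381 c1463 (k8 c4476 c9034 c4470 c7540 c2188 c2189 c4354 c4389 (k8 c8226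 c9929 c10104 c2114 c10061 c4361 c1396 c1086 (k8 c1356 c4369 c1094 c5588 c4540 c266 c10051 c2109 (k4 c4483 c4481 c1792 c597 (k1 c1216 k0)))))))))) (by decide +kernel)
def c10321 : PP 8 4 T 0x40000000000000000800000008000000000000050000000000020 := rS 0x91c15e2a71 (k4 c94 c4388 c801 c4470 (k2 c263 c1073 k0)) (by decide +kernel)
def c10322 : PP 8 4 T 0x2000000000000440000400001400000000002000000040050004000000020 := rS 0xe49abd1208e1a4b279048a01 (k8 c54 c4296 c4433 c4297 c4434 c4326 c766 c615 (k4 c6223 c9728 c281 c2114 k0)) (by decide +kernel)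
def c10323 : PP 8 4 T 0x200000000000000001000004000000004000020000 := rS 0x470d (k2 c4385 c1301 (k1 c7312 k0)) (by decide +kernel)
def c10324 : PP 8 4 T 0x2002000000000000000000200040000200000000000000000000010000220 := rS 0x883b1550ec12b0f42ed12894c26154e8788ab3039ecda1b21864d2212080c0273 (k8 c96 c54 c55 c4433 c10031 c5568 c269 c1927 (k8 c4292 c694 c1132 c527 c10182 c4296 c4466 c1232 (k8 c4284 c4401 c4290 c4435 c4298 c4431 c2188 c263 (k4 c9929 c10061 c1686 c1071 (k2 c2109 c2043 k0))))) (by decide +kernel)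
def c10325 : PP 8 4 T 0x4400000002002000000000100000000200140000200000000000000010000010000020 := rS 0x3228cfa8864ad50e4c8a18cba551c96814093985da251298ecda1b33bf40e971f9fc2a5f4dc1432692080c02a11298576bf5390d1ed31bac5226e0809c3c21 (k8 c10031 c4466 c353 c10320 c10319 c3074 c123 c319 (k8 c5695 c10321 c1927 c2011 c1133 c1931 c10322 c279 (k8 c7717 c54 c55 c4433 c5568 c269 c10051 c104 (k8 c1377 c4284 c670 c4288 c1193 c527 c4378 c654 (k8 c4292 c694 c4403 c4290 c4435 c4298 c4431 c96 (k8 c10324 c4462 c6846 c1073 c1687 c840 c843 c4470 (k8 c9123 c10041 c4389 c10052 c7682 c1690 c5380 c5857 (k1 c2558 k0)))))))) (by decide +kernel)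
def c10326 : PP 8 4 T 0x1400000002002000000000010001010200140000180000000000000050000080000020 := rS 0x146b755d2d26ad61254ca6a3b31582564f8f4110c1c0ec2a971fa748a9147b4c87050c9a44241018056a6e (k8 c10319 c1348 c54 c55 c4433 c10031 c5568 c269 (k8 c10051 c1927 c5695 c10321 c3074 c4296 c1232 c4288 (k8 c1193 c4284 c4403 c4470 c4486 c1073 c363 c4384 (k8 c263 c9929 c3072 c1071 c1072 c9910 c803 c9804 (k4 c3958 c1070 c4459 c1947 (k2 c3078 c4526 (k1 c2125 k0))))))) (by decide +kernel)
def c10327 : PP 8 4 T 0x2000101000002000000000000000000000000000080000000000000050000080020040 := rS 0x7a550532412b71caccfe15 (k8 c4284 c670 c10182 c4348 c4353 c344 c1730 c4462 (k2 c2200 c1614 (k1 c10069 k0))) (by decide +kernel)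
def c10328 : PP 8 4 T 0x4400000002002000000000100000000200140000000000000000000010000010000020 := rS 0x41c24ec5640d1410a81c454e4b93a9b5fab3039fc2a850dc1432692080c02a11298576bf5390d1ed31bac5226e0809c3c21 (k8 c10031 c4466 c353 c10320 c10319 c3074 c123 c319 (k8 c5695 c10321 c1927 c2011 c1133 c1931 c10322 c279 (k8 c7717 c54 c55 c4433 c5568 c269 c10051 c4292 (k8 c710 c4284 c670 c527 c10182 c4378 c694 c10325 (k8 c5280 c4481 c10327 c4470 c10326 c1073 c4398 c1362 (k4 c263 c1071 c4438 c2002 (k1 c4484 k0))))))) (by decide +kernel)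
def c10329 : PP 8 4 T 0x4400000002002000000000000000000200140000000000000000000010000010000020 := rS 0xa35ba212a725ab0926ad3a8f4ca6a5c820acc1848e0ecc541455784568944a63b3686cce154b8fd221e5981d1e37082c4dcd321c143269109040601 (k8 c54 c55 c4433 c10031 c5568 c269 c10051 c1927 (k8 c5695 c10319 c123 c10320 c319 c10321 c527 c10182 (k8 c4466 c3074 c4288 c1193 c4284 c654 c4292 c694 (k8 c4403 c4290 c4435 c4298 c4296 c10328 c4354 c1080 (k8 c3081 c1079 c4470 c4438 c3907 c7751 c1073 c1201 (k8 c4479 c9910 c2188 c10324 c3958 c1070 c2115 c1348 (k4 c4481 c803 c1088 c3078 (k2 c9082 c7468 k0)))))))) (by decide +kernel)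
def c10330 : PP 8 4 T 0x400000002002000000000000000000200140000000000010000000010000010000020 := rS 0xc71144248aac415ab50ec1618f62c19219a4f69b0b905a2512984c763f0080cda1b338553a1e109156607 (k8 c527 c10182 c4296 c10031 c4466 c1232 c4284 c654 (k8 c4292 c694 c55 c54 c4288 c4403 c4401 c4290 (k8 c4435 c4298 c4433 c4431 c104 c1132 c5568 c1927 (k8 c269 c10329 c4416 c4362 c4420 c10061 c2050 c4166 (k4 c2115 c266 c7718 c2109 (k2 c4413 c1609 (k1 c4794 k0))))))) (by decide +kernel)
def c10331 : PP 8 4 T 0x400000002002000000000000000000100040000200000000000000200000010020020 := rS 0x134698c9e1101926b08aa8760958863d0406c2e4168944a6131d8547e6e4e87842455981d8a7b (k8 c708 c1784 c527 c10182 c4296 c10031 c4466 c1232 (k8 c10319 c4288 c4284 c4403 c4401 c4290 c4435 c4298 (k8 c4433 c4431 c4292 c1073 c2188 c2189 c263 c9929 (k8 c10061 c1686 c2115 c9913 c348 c2109 c596 c4447 (k2 c3968 c4488 (k1 c804 k0)))))) (by decide +kernel)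
def c10332 : PP 8 4 T 0x4400000002002000000000000000000100040000200504001000000000000010000820 := rS 0x136ad6119511084385da251298ec066d0d99c2a971facc0e73828643c21 (k8 c10031 c4466 c2201 c10051 c96 c527 c10182 c4288 (k8 c1193 c4284 c654 c4292 c694 c55 c4403 c4290 (k8 c4435 c4298 c4431 c10041 c4479 c7682 c5681 c597 (k2 c6230 c2058 (k1 c10055 k0))))) (by decide +kernel)
def c10333 : PP 8 4 T 0x4400000002002000000000000000000100040000200000000000000000000010020020 := rS 0x55a18ec8918abd34683598c32552d02812393986c2ed12894c26670a8784207 (k8 c527 c10031 c4466 c4284 c654 c4401 c4290 c4435 (k8 c4298 c4431 c4292 c96 c10331 c344 c4462 c6846 (k8 c1687 c2201 c843 c581 c10332 c844 c829 c1878 (k4 c2041 c845 c2109 c3801 (k1 c9926 k0))))) (by decide +kernel)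
def c10334 : PP 8 4 T 0x4400000002002000000000000000000100140000000100000000000010000010000020 := rS 0x514416e93614612a9b2d958869f508f41608860947115392e60a1917904a63b0080dfa714b8fd3a4548acc0e7f0aa3c6eb16989c3c215a9d4206e (k8 c10319 c10320 c10333 c1348 c10031 c4466 c353 c5695 (k8 c123 c319 c10321 c4284 c670 c527 c10182 c3074 (k8 c4296 c1232 c4288 c1193 c94 c4378 c55 c54 (k8 c4403 c4290 c4433 c4432 c269 c10051 c5280 c4481 (k8 c10327 c4470 c6936 c4486 c1073 c359 c363 c7717 (k8 c4384 c2189 c263 c574 c5613 c803 c4488 c9828 (k4 c3069 c3078 c4958 c2125 (k1 c4337 k0)))))))) (by decide +kernel)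
def c10335 : PP 8 4 T 0x400000002000000000000000001000100500000008200000000000000000082020020 := rS 0xbf53af63080418c13a454883d4a5f (k8 c1377 c1883 c113 c3074 c4296 c1232 c268 c1999 (k4 c349 c5554 c1080 c3808 (k2 c4369 c7959 k0))) (by decide +kernel)
def c10336 : PP 8 4 T 0x4400000002002000000000000000000000140000000000010000000010000010000020 := rS 0x24e22655622296c461a6956bd43a5506c12b2ed4e3d5f82218251c4548672189ee0a1952abd526b849a16a7517905a251298ec066d0dbf52e3f4e91522b303a3c6e1058b4c4e1e1097cdc99 (k8 c10330 c10319 c1377 c10031 c4466 c353 c5695 c123 (k8 c10320 c319 c10321 c527 c10182 c3074 c4296 c1232 (k8 c4288 c1193 c4378 c4292 c694 c55 c4403 c4290 (k8 c4435 c4298 c4433 c4432 c10333 c1348 c10334 c4437 (k8 c69 c10183 c829 c1883 c10335 c10051 c4780 c1878 (k8 c4481 c276 c10327 c4470 c6936 c4486 c1073 c1240 (k8 c363 c4558 c4825 c263 c9929 c2000 c803 c10061 (k8 c1080 c1884 c2126 c2059 c2115 c4429 c4485 c10230 (k4 c556 c4338 c1070 c4487 k0))))))))) (by decide +kernel)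
def c10337 : PP 8 4 T 0x400000002002000000000000000000000140000000100010000000010000010000020 := rS 0x301f4e69315a8c91145b95620632e8e414652d0260b082b8648e3b019b436677e81d2e3f3f8551e37082c5a6272f9b972755aa54d69a8c8f62c9d0f0848a99 (k8 c10330 c4296 c10031 c4466 c1232 c10336 c4416 c4982 (k8 c4488 c1969 c4418 c4419 c4417 c4361 c10319 c1377 (k8 c353 c5695 c123 c10320 c319 c10321 c4284 c670 (k8 c4288 c1193 c527 c4378 c654 c4292 c694 c55 (k8 c4403 c4404 c269 c804 c4479 c10051 c263 c4476 (k8 c5681 c4462 c1073 c840 c842 c4478 c2200 c7094 (k8 c4470 c7430 c4337 c4411 c4413 c10327 c1622 c7622 (k1 c10213 k0)))))))) (by decide +kernel)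
def c10338 : PP 8 4 T 0x400000002002000000000000000000000140000000000010000000010000010000020 := rS 0x2856e2541a8d3e9304158c4652dab11077a5a1d887b8290c3231849a15eab549ad351960a556ac35c8f62c9920b44a2531d9b436677ea5c7e9d22a4566073f8551e37082c5a6270f084be6e (k8 c10319 c1377 c10031 c4466 c353 c5695 c123 c10320 (k8 c319 c10321 c4284 c670 c527 c10182 c3074 c4296 (k8 c1232 c4288 c1193 c4378 c654 c4292 c694 c4403 (k8 c4290 c4435 c4298 c4433 c10330 c10336 c4416 c4361 (k8 c4362 c4419 c4418 c4420 c4982 c4488 c1969 c866 (k8 c1972 c868 c10337 c4437 c5554 c10335 c276 c10051 (k8 c4780 c2115 c10061 c4429 c1096 c4485 c10230 c845 (k8 c556 c2041 c4476 c6846 c1070 c6233 c819 c7467 (k4 c2211 c4711 c7717 c2125 k0))))))))) (by decide +kernel)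
def c10339 : PP 8 4 T 0x800000002002000000000000000000000040000200100000000000000000010000120 := rS 0xaa5a4e8784245 (k4 c4296 c10031 c4466 c1232 (k2 c6846 c1687 (k1 c10211 k0))) (by decide +kernel)
def c10340 : PP 8 4 T 0x800000002002000000000000000000000040000200100000000000000000010000020 := rS 0x26928ac61155825b1e82c10c517905a251298ec02034b8fd3a454cc445a19218c43c21 (k8 c10031 c4466 c4441 c276 c268 c4286 c4498 c4443 (k8 c4296 c1232 c4288 c1193 c55 c54 c4403 c4290 (k8 c4435 c4298 c4433 c4432 c1784 c10339 c84 c2188 (k8 c574 c9929 c1686 c2115 c10125 c4958 c860 c5613 k0)))) (by decide +kernel)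
def c10341 : PP 8 4 T 0x4800000002002000000000000000000000040000100000000000000010000010000020 := rS 0x425134b3231124c34a9587a081c3062a7220b44a2531db4c06fd4b8fd66071b841626b4cc445a8757a748a012187843050c8c56a6e (k8 c10319 c1348 c4441 c268 c10051 c10031 c4466 c276 (k8 c54 c4296 c1232 c4346 c9925 c4286 c4498 c4443 (k8 c4442 c123 c10320 c319 c527 c10182 c4288 c1193 (k8 c4378 c55 c5695 c4403 c4290 c4435 c4298 c4433 (k8 c4481 c10327 c1620 c4470 c1073 c363 c263 c803 (k8 c4958 c4487 c2115 c1070 c4429 c556 c5681 c4485 k0)))))) (by decide +kernel)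
def c10342 : PP 8 4 T 0x800000002002000000000000000000000040000000100000000000000000010000120 := rS 0x2a96814074e8784245 (k8 c4296 c10031 c4466 c1232 c527 c4462 c6846 c2200 (k1 c10211 k0)) (by decide +kernel)
def c10343 : PP 8 4 T 0x800000002002000000000000000000000140000000100000000000010000010000020 := rS 0x2dd11094020d3eba8608942a75fc549a9b128e0ac085e9de96c460a55863d8b2e56a75258bc9e4119b44a253238edfa971fa4566073f8551e37082c4dcd313aa4d69952a1d5e9d22804861e10c143231 (k8 c4441 c268 c10051 c10031 c4466 c276 c54 c4296 (k8 c1232 c4346 c9925 c4444 c4443 c4442 c4345 c353 (k8 c5695 c10319 c123 c10320 c319 c10321 c4284 c670 (k8 c527 c10182 c3074 c4288 c1193 c4378 c4403 c4404 (k8 c4290 c4435 c4298 c4294 c4433 c4297 c4432 c4434 (k8 c10340 c1348 c5280 c10341 c4416 c4362 c4418 c4420 (k8 c2115 c4429 c1096 c3081 c10342 c263 c344 c2211 (k8 c804 c9913 c4348 c1240 c4558 c7717 c2111 c4486 (k8 c2126 c1299 c4898 c1349 c4439 c4485 c4711 c4960 k0))))))))) (by decide +kernel)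
def c10344 : PP 8 4 T 0x2002000000000000000000000044000200200000000000000000011000120 := rS 0x1e510570506c2ed12894c76670a81d2e1e108fce717 (k8 c4417 c96 c4288 c10031 c4466 c1193 c527 c4284 (k8 c654 c4403 c4290 c4435 c4298 c4431 c4292 c4462 (k4 c1065 c7682 c1961 c596 k0))) (by decide +kernel)
def c10345 : PP 8 4 T 0x2002000000000000000000000044000200200000000040000000011000020 := rS 0xf28861155823d04314361720b44a253098ec2a3f4e8784245 (k8 c4296 c10031 c4466 c1232 c4288 c4284 c4403 c4401 (k8 c4290 c4435 c4298 c4433 c4431 c4292 c1784 c10344 (k4 c2188 c9929 c1686 c2115 (k2 c2109 c3968 (k1 c596 k0))))) (by decide +kernel)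
def c10346 : PP 8 4 T 0x2002000000000000000000000140000000000010000000010000010000020 := rS 0x142b712a0d469f49820acac31194b6883bd2d88c14ab0c7b165cad4eb09344148619439ac62af8917c4e4168944a63b0099dfa971fa748a910f08566073f8551e37082c4dcd3 (k8 c5695 c10319 c123 c10320 c319 c10321 c4284 c670 (k8 c527 c10182 c10031 c4466 c3074 c4296 c1232 c4288 (k8 c1193 c4378 c654 c54 c4403 c4290 c4435 c4298 (k8 c4433 c353 c1377 c10338 c4346 c4441 c4442 c9925 (k8 c268 c276 c10051 c10343 c4437 c10345 c1348 c5280 (k8 c10341 c4416 c4362 c4418 c4420 c2115 c4429 c1096 (k8 c4485 c845 c556 c2041 c2040 c4476 c6846 c1070 (k4 c6233 c819 c7467 c2211 (k2 c4711 c7717 (k1 c2125 k0)))))))))) (by decide +kernel)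
def c10347 : PP 8 4 T 0x400000002002000000000000000000000240000200100000000000010000010000020 := rS 0x17ea754af4c0243b89cae0a04aec86988b93cda1b03a443c21478dc20b13734e1a23 (k8 c1297 c4383 c5695 c10319 c123 c10320 c319 c10321 (k8 c10031 c4466 c3074 c527 c4292 c694 c4297 c4417 (k8 c10333 c1927 c1931 c10324 c4462 c1065 c2312 c7751 (k4 c9120 c7312 c1079 c1503 (k2 c2010 c1134 (k1 c10322 k0)))))) (by decide +kernel)
def c10348 : PP 8 4 T 0x2002000000000010000000000240000100100010000000040000010000120 := rS 0xf456ad4f994be551396814d30099c2afd389b83c21039760a19 (k8 c269 c10051 c1338 c527 c10031 c4466 c10319 c94 (k8 c4378 c4284 c654 c54 c5695 c4462 c6846 c2312 (k8 c2200 c576 c578 c6233 c6230 c4904 c10033 c10215 k0))) (by decide +kernel)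
def c10349 : PP 8 4 T 0x200000000000000000000000000000020220 := rS 0x7027 (k2 c2309 c344 (k1 c1114 k0)) (by decide +kernel)
def c10350 : PP 8 4 T 0x400000002002000000000000000000000040000000100010000000010000010000020 := rS 0xb93aaccfe151bac4dd050c828128c0801c3c21 (k8 c10031 c4466 c527 c10320 c10346 c10349 c4462 c2201 (k8 c10051 c10319 c123 c319 c4284 c670 c10182 c10347 (k2 c5280 c10348 k0))) (by decide +kernel)
def c10351 : PP 8 4 T 0x2000000000000100000000001001000000202080000000110002081000000 := rS 0x9a435fa9862762593c8245 (k8 c4296 c4433 c4297 c4434 c845 c1878 c884 c1094 (k2 c1886 c284 (k1 c4496 k0))) (by decide +kernel)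
def c10352 : PP 8 4 T 0x2002000000000000000000000040000000000010000000010000010000020 := rS 0x11334af4c0248a1544e191c968140911c3518d303a748a910f0850a1b1b841626e (k8 c10319 c123 c10320 c319 c4292 c710 c10031 c4466 (k8 c3074 c4296 c1232 c527 c5695 c10346 c4383 c1297 (k8 c10349 c4462 c6846 c1073 c2201 c2312 c2200 c4470 (k4 c9120 c7312 c4354 c10351 (k2 c10211 c10350 k0))))) (by decide +kernel)
def c10353 : PP 8 4 T 0x20000000000000110000005 := rS 0xb (k2 c535 c4726 k0) (by decide +kernel)
def c10354 : PP 8 4 T 0x1000000000000000000000000000000000000000010000000020000090001020 := rS 0x1761a5f30a304425 (k8 c1370 c1100 c1099 c615 c1295 c4383 c1338 c4477 k0) (by decide +kernel)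
def c10355 : PP 8 4 T 0x400000002002000000000000000000000000000000100000000000000000010000020 := rS 0x2d5a9b2d9a8da1b84a2514350f035fa6e2c8840601 (k8 c54 c55 c10031 c10353 c10319 c4378 c9677 c4466 (k8 c10354 c10352 c187 c4322 c4292 c694 c4479 c2561 (k4 c1969 c2048 c271 c10145 k0))) (by decide +kernel)
def c10356 : PP 8 4 T 0x140001501101501000800100000000000000000000000000 := rS 0x17e9b (k2 c1888 c1094 (k1 c2126 k0)) (by decide +kernel)
def c10357 : PP 8 4 T 0x2900001000002000010000040100401041581004201100500000000050000000000820 := rS 0x2e502951e9e188778cc2552af35a654abd (k8 c4354 c4444 c4443 c4442 c4346 c4345 c4322 c4539 (k8 c10356 c7804 c4482 c1782 c1786 c1962 c6781 c10224 k0)) (by decide +kernel)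
def c10358 : PP 8 4 T 0x100001002002000000000000040800040081004000100000000040151004000000000 := rS 0xf572c44f46686a124af990ce3b93504a3122068b0d1793c82456891e12bb25adc76bd5ac51a6cb (k8 c1753 c5695 c4470 c4389 c4354 c4403 c7094 c4434 (k8 c9034 c4322 c4404 c4298 c4296 c4433 c4297 c4432 (k8 c4330 c4453 c1896 c4558 c941 c4484 c284 c2002 (k8 c645 c644 c2114 c1790 c1794 c4422 c4369 c4489 (k4 c7804 c1396 c1782 c7430 k0))))) (by decide +kernel)
def c10359 : PP 8 4 T 0x2002000000000000000000000100000000100000000000000000010000120 := rS 0xea778ca9d7a5d42c51768f080dc1e7b1c968144b68b4cda1b5881d2e3f4e915228a1a835fa59018044e5f372a55e9952c445a4318c483c21 (k8 c10031 c4466 c10355 c4441 c276 c4286 c4498 c4444 (k8 c4443 c4346 c4345 c10319 c1377 c353 c54 c55 (k8 c10353 c4378 c9677 c10354 c10352 c3074 c4296 c1232 (k8 c4288 c1193 c527 c123 c4292 c694 c5695 c4298 (k8 c4434 c4462 c6846 c1073 c702 c2199 c1343 c4463 (k8 c10321 c9034 c4470 c710 c840 c4354 c10358 c4539 (k2 c10356 c10357 (k1 c4632 k0)))))))) (by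 decide +kernel)
def c10360 : PP 8 4 T 0x2002000000000000000000000100000000100000000000000000010000020 := rS 0x127173a1e174bf1c2f420c407ad586b953a5536614796cac371e82c104388a95323154c4982630c86c82d12894c8e131d8b58ed34b8fd3a4548a286a1e06bf4b22101804be6e (k8 c10319 c1377 c54 c55 c10031 c10353 c4378 c9677 (k8 c4466 c10354 c10352 c3074 c4296 c1232 c4288 c1193 (k8 c5695 c4289 c4286 c4403 c4401 c4404 c4290 c4435 (k8 c4298 c4433 c4292 c269 c1769 c9923 c10355 c4345 (k8 c4441 c4443 c4444 c4498 c276 c10359 c84 c2188 (k8 c2187 c263 c574 c10321 c880 c804 c802 c4532 (k8 c6781 c4958 c7420 c10104 c2115 c4463 c3081 c344 (k4 c1240 c2126 c1350 c604 (k2 c4417 c1657 (k1 c4487 k0)))))))))) (by decide +kernel)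
def c10361 : PP 8 4 T 0x1000002000000040000000000000000000000008200000000000000000110000120 := rS 0x2068a4c5fa157683218406e764d03c32392d0283671038d4b203008781afd (k8 c4378 c9677 c4466 c54 c55 c10353 c10354 c527 (k8 c94 c4292 c4462 c6846 c1073 c2201 c2199 c844 (k8 c845 c1343 c4463 c1886 c3906 c1891 c710 c1094 (k4 c9891 c4451 c1894 c4484 k0)))) (by decide +kernel)
def c10362 : PP 8 4 T 0x400000002000000040000000000001501180000008200000000000010000000000220 := rS 0x41af14f15128e0200f8c2fdfa0d84aa40643478dcc256 (k8 c263 c880 c2187 c10321 c2189 c55 c10183 c4322 (k8 c9677 c4378 c5760 c4488 c10065 c4463 c344 c2211 (k4 c4348 c10010 c9059 c2000 (k1 c1080 k0)))) (by decide +kernel)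
def c10363 : PP 8 4 T 0x2002000000000000000000000100000000000000000000000000010000020 := rS 0x14ebf12a157a7608312320f5ab0d729531c455f125d9e4c28f60a6cac431b8f4f60b0429552993417c364168944a6471d8b58ed34b8fd3a4548c2514350f035fa6e2c8840601 (k8 c54 c55 c10031 c10353 c10319 c4378 c9677 c4466 (k8 c10354 c10352 c4322 c3074 c4296 c1232 c4288 c1193 (k8 c5695 c4289 c4286 c4403 c4404 c4290 c4435 c4298 (k8 c4433 c4292 c1377 c10360 c5568 c10183 c1883 c10361 (k8 c84 c1224 c2188 c2187 c2189 c263 c10227 c1713 (k8 c10321 c880 c1960 c1350 c10362 c4346 c4498 c1768 (k8 c802 c6781 c4958 c7420 c10104 c9828 c2115 c4463 (k4 c4482 c3081 c710 c2211 (k2 c1094 c10010 (k1 c2126 k0)))))))))) (by decide +kernel)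
def c10364 : PP 8 4 T 0x2002000000000000000000000000000000000000000000000000010000020 := rS 0x2e59c951eb0ce882621dd0319a2af8864d888c55ebd1244a28bb2f9ac4e7b348e4b40a04a14200f1b9751909450d4b29703878964f20915a22d1fb4c02033686c42b17e9c41a6e (k8 c10319 c9677 c94 c4378 c123 c10031 c4292 c694 (k8 c55 c54 c5695 c4288 c4286 c4298 c4296 c4433 (k8 c4297 c4434 c4466 c527 c1193 c10353 c10354 c10352 (k8 c4322 c10363 c1338 c1384 c265 c4463 c710 c10349 (k8 c4462 c6846 c1073 c10361 c702 c2312 c2561 c576 (k8 c9034 c4470 c10355 c9120 c4354 c4346 c4441 c4498 (k8 c284 c276 c2114 c4399 c4369 c1364 c1094 c7804 (k8 c4484 c4632 c196 c1782 c1786 c645 c1526 c10224 k0)))))))) (by decide +kernel)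
def c10365 : PP 8 4 T 0x40000000000000000000000008000040000000010000000010820 := rS 0x860901c61 (k4 c614 c8928 c264 c6403 (k1 c4381 k0)) (by decide +kernel)
def c10366 : PP 8 4 T 0x400000002002000000000000000000000040000200100000000000000000000000020 := rS 0x44a1d58638b9cc2ed12894c266d0da6c5e9920a5452b32ac14320a048040e590e1b8ce15 (k8 c4284 c654 c10319 c10364 c3007 c526 c54 c1058 (k8 c4462 c269 c10051 c10054 c10182 c4402 c762 c4433 (k8 c1031 c4432 c764 c4292 c694 c4401 c4290 c4435 (k8 c4298 c4431 c96 c4417 c1688 c10055 c10041 c10143 (k1 c2109 k0))))) (by decide +kernel)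
def c10367 : PP 8 4 T 0x400100002002000000000000000001000000000100000000000000010000000000020 := rS 0x3d669c899458b90d51185f94d369920a3d668d5daf54e2517a94c2918a0dd62392b09c205b6992caa0a048040e590e1b8ce15 (k8 c4284 c654 c10319 c10364 c3007 c526 c54 c1058 (k8 c4462 c10054 c4434 c5695 c758 c10365 c873 c4476 (k8 c3073 c123 c319 c4470 c4352 c880 c10323 c4432 (k8 c4115 c4558 c4354 c9034 c1027 c10182 c1346 c4433 (k8 c1031 c764 c4290 c5760 c4488 c2126 c4446 c9283 (k4 c4398 c9891 c4481 c2062 (k2 c1614 c9915 k0))))))) (by decide +kernel)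
def c10368 : PP 8 4 T 0x100000000000000000000400000000000000100000001000002000000000000000 := rS 0xe717 (k2 c4416 c1614 (k1 c4481 k0)) (by decide +kernel)
def c10369 : PP 8 4 T 0x400000002002000000000000000000000040000000100000000000010000000000020 := rS 0x220a256a212e878b18ce69f640f538b93a85da2512984cda1b7ea54529347acd1a7f5b8ed6a612b2844a918a0dc72106996d62272ac14320a048040e590e1b8ce15 (k8 c4284 c654 c10319 c10364 c3007 c526 c54 c1058 (k8 c4462 c269 c10051 c10054 c873 c123 c758 c5695 (k8 c10365 c3073 c319 c4470 c4352 c4115 c7717 c4476 (k8 c880 c4389 c4403 c7094 c670 c1027 c10182 c1346 (k8 c1029 c4402 c762 c4378 c4292 c694 c4401 c4290 (k8 c4435 c4298 c4431 c10366 c5280 c10367 c10368 c10069 (k8 c1665 c1730 c1728 c4481 c10041 c4360 c2109 c946 (k2 c2125 c4794 (k1 c4337 k0))))))))) (by decide +kernel)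
def c10370 : PP 8 4 T 0x2002000000000000000000000040000000100000000000010000000000020 := rS 0x190c6885f2b10eaf54a76245582864361768944a61333855369920a3d1abb5ea9c4a2f5298523141bac4725613840140903964b61c009b9a64b (k8 c4434 c5695 c10319 c54 c10364 c758 c3007 c526 (k8 c1058 c4462 c10365 c873 c4476 c3073 c123 c319 (k8 c4470 c4352 c880 c10323 c4432 c4115 c4558 c4354 (k8 c9034 c1027 c1346 c4433 c1031 c764 c4284 c654 (k8 c4401 c4290 c4435 c4298 c4431 c4292 c269 c10051 (k8 c10054 c10369 c4344 c4345 c4346 c9925 c10125 c2126 (k4 c2109 c820 c6230 c7074 k0))))))) (by decide +kernel)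
def c10371 : PP 8 4 T 0x2002000000000000000000000040000000000000000000010000000000020 := rS 0x2068abe4eaa61283342954e6112af523145d8dd0a104689c96d301ac5fa9b17a6482392b23cb67b0502402072c870dc1b (k8 c4292 c10319 c10364 c3007 c526 c54 c1058 c4462 (k8 c702 c758 c1346 c4476 c3073 c4433 c1031 c4432 (k8 c764 c4378 c123 c55 c5695 c4434 c873 c1027 (k8 c10365 c710 c319 c9034 c4470 c4352 c4354 c4115 (k8 c880 c4558 c10323 c10370 c2000 c4437 c10183 c825 (k4 c2126 c4399 c1364 c4484 k0)))))) (by decide +kernel)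
def c10372 : PP 8 4 T 0x400000002002000000000000000001000040000000100000000000000000000000020 := rS 0x391922eac8c26c5e9920a4c767b0d8f4ea550502402670ac1432b303964386e (k8 c10319 c10364 c3007 c526 c10182 c269 c10051 c4284 (k8 c654 c54 c1058 c4462 c10054 c10366 c10368 c4292 (k8 c702 c4403 c1029 c4433 c1031 c4432 c764 c4488 (k4 c10170 c9283 c6230 c4481 (k1 c1648 k0))))) (by decide +kernel)
def c10373 : PP 8 4 T 0x101000000000000000015000010015500040080040400000000000000000000000 := rS 0x9f519959297 (k4 c1084 c1730 c1648 c5380 (k2 c6233 c2125 k0)) (by decide +kernel)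
def c10374 : PP 8 4 T 0x400000002002000000000000000000000040000000100000000000000000000000020 := rS 0x31c45449f32aad108756b052f16399de329c5c9d42ed12894c266d4a8a5268f599ec36b55dadc767f48a854a272fa34b661128401e3406b4dfa4b2ac14320a048040e590e1b8ce15 (k8 c4284 c654 c10319 c10364 c3007 c526 c54 c1058 (k8 c4462 c269 c10051 c10054 c4434 c4378 c5695 c9677 (k8 c10371 c1330 c4463 c10096 c615 c758 c7910 c1377 (k8 c351 c10323 c7717 c1076 c670 c4403 c1037 c1309 (k8 c7883 c4292 c702 c10182 c1346 c1029 c4402 c762 (k8 c694 c4401 c4290 c4435 c4298 c4431 c10366 c5280 (k8 c10372 c4368 c1092 c10373 c4481 c4360 c4420 c946 (k8 c10171 c2109 c1945 c557 c6233 c4031 c4337 c819 (k1 c4794 k0))))))))) (by decide +kernel)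
def c10375 : PP 8 4 T 0x2002000000000000000000000040000000100000000000000000000000020 := rS 0x3218d10be5621d5ea94ec48ab050c86c2ed12894c26670aa6d32564782812bb5e90522a717a944e5f4696cc225008401e3403964380d69bf4dc4b (k8 c4434 c10319 c4378 c5695 c9677 c10364 c3007 c526 (k8 c10371 c1330 c4463 c54 c10096 c615 c758 c7910 (k8 c1377 c351 c10323 c4432 c4558 c1076 c4433 c1039 (k8 c1309 c1058 c4462 c1346 c4476 c1031 c764 c4284 (k8 c654 c4401 c4290 c4435 c4298 c4431 c4292 c269 (k8 c10051 c10054 c10374 c4344 c4345 c4346 c9925 c10125 (k4 c2126 c2109 c820 c6230 (k1 c7074 k0)))))))) (by decide +kernel)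
def c10376 : PP 8 4 T 0x2002000000000000000000000040000000000000000000000000000000020 := rS 0x103455f20d3aa9849a14aa713a450a5f308411a2507af5763425b4c06fd06a6c5e9920a3cb67b0502402072c870dc1b (k8 c4292 c10319 c10364 c3007 c526 c54 c1058 c4462 (k8 c702 c758 c1346 c4433 c1031 c4432 c764 c9677 (k8 c4378 c55 c5695 c4434 c10371 c1309 c1039 c1330 (k8 c10096 c7910 c4463 c615 c1377 c710 c1076 c351 (k8 c4558 c10323 c10375 c4437 c10183 c825 c2000 c2126 (k2 c4399 c1364 (k1 c4484 k0))))))) (by decide +kernel)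
def c10377 : PP 8 4 T 0x400000002002000000000000000000000000000000100000000000000000000000020 := rS 0x1a9586d3d828120103964386e0dc25128a (k8 c10376 c187 c4322 c4292 c10319 c10364 c3007 c526 (k8 c54 c1058 c4462 c702 c694 c10148 c4479 c2048 k0)) (by decide +kernel)
def c10378 : PP 8 4 T 0x2002000000000000000000000100000000100000000000010000000000020 := rS 0x12f17621d0ef19539844abd48c5176374284096d358a6482392b23cb67b0502402072c870dc1b84a293aa9578c54b12 (k8 c10377 c4444 c4441 c4346 c4345 c4344 c10376 c4322 (k8 c4292 c10319 c10364 c3007 c526 c54 c1058 c4462 (k8 c702 c758 c1346 c4476 c3073 c4433 c1031 c123 (k8 c5695 c4434 c10365 c710 c319 c9034 c4470 c4352 (k8 c4354 c4115 c880 c10010 c4539 c10356 c4632 c7804 (k2 c4417 c1252 (k1 c10283 k0))))))) (by decide +kernel)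
def c10379 : PP 8 4 T 0x2002000000000000000000000100000000100000000000000000000000020 := rS 0x12f17621d232be3ba154e61082444a0f5eaec68272f92da6fd06a6c5e9920a3cb67b0502402072c870dc1b84a293aa9578c54b12 (k8 c10377 c4444 c4441 c4346 c4345 c4344 c10376 c4322 (k8 c4292 c10319 c10364 c3007 c526 c54 c1058 c4462 (k8 c702 c758 c1346 c4433 c1031 c4432 c764 c9677 (k8 c4378 c5695 c4434 c1377 c351 c10378 c1309 c1039 (k8 c1330 c10096 c1036 c4463 c615 c10010 c710 c10356 (k4 c2126 c4369 c4632 c7804 (k2 c4417 c1252 (k1 c10283 k0)))))))) (by decide +kernel)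
def c10380 : PP 8 4 T 0x200000000000050000000000000020001000 := rS 0x35 (k2 c7910 c1027 k0) (by decide +kernel)
def c10381 : PP 8 4 T 0x2000000040000000000000000080000008200000000000010000020000020 := rS 0x40d1506be539844abd48c506e85082c5fa99208e4ac8f84aa406a52fa341a5b4e9ec14090081cb21b5d9e5362f (k8 c4432 c764 c1960 c1350 c4292 c3007 c526 c54 (k8 c1058 c4462 c702 c825 c758 c9677 c10380 c1377 (k8 c1883 c55 c10183 c4322 c1346 c4476 c3073 c4433 (k8 c1031 c4378 c123 c10365 c710 c319 c4470 c4352 (k8 c4354 c4115 c880 c10010 c2126 c2000 c4399 c1364 (k1 c4484 k0)))))) (by decide +kernel)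
def c10382 : PP 8 4 T 0x2002000000000000000000000000000000000000000000000000000000020 := rS 0x2068a835f2154e61082444a0f5e8d1769d3ca9552273417d1b09451ec148f03825329b2d964380d7e9b806010d8bc82d3 (k8 c5695 c4433 c4432 c4292 c54 c55 c10319 c4378 (k8 c9677 c10364 c3007 c758 c764 c1031 c1058 c526 (k8 c1346 c4462 c702 c10376 c4322 c10380 c1377 c10379 (k8 c351 c10183 c1883 c1960 c825 c1350 c10381 c1039 (k8 c1330 c10096 c1036 c4463 c615 c10010 c710 c2126 (k4 c2000 c4399 c1364 c4484 k0)))))) (by decide +kernel)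
def c10383 : PP 8 4 T 0x10001000000000000000000100200000800000004000400000000000000000000000 := rS 0x2e1c0c315 (k4 c4388 c849 c4480 c4477 (k1 c3397 k0)) (by decide +kernel)
def c10384 : PP 8 4 T 0x400001000000000040000080000000201900000004000010004000000000000010010 := rS 0x4890722701838c00d2d15d6023524362a5f (k8 c1426 c4388 c4825 c1930 c1301 c10383 c1147 c4476 (k8 c2456 c624 c4463 c2848 c238 c4528 c4467 c1145 (k1 c5022 k0))) (by decide +kernel)
def c10385 : PP 8 4 T 0x1000000000040000000000000000800000000002000000000000000000010010 := rS 0x20720707084160d002c0b403 (k8 c2848 c848 c849 c4461 c2456 c2605 c9668 c4463 (k4 c495 c4528 c4462 c1145 k0)) (by decide +kernel)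
def c10386 : PP 8 4 T 0x2000002002000000000000000000200000000200000000000000000000010000002 := rS 0x7a5415a24ce790f1952e6b1085c263f02c14a287 (k8 c4440 c4435 c4076 c10382 c4288 c4401 c4431 c9668 (k8 c492 c6579 c490 c4466 c1928 c593 c596 c4191 (k2 c5422 c274 (k1 c1686 k0)))) (by decide +kernel)
def c10387 : PP 8 4 T 0x1002001002002000000000000000014200000400200000080000000010005010000200 := rS 0x192a23f9241c361c8ac46200119c0305439448e2d14b1da605 (k8 c10382 c5695 c4289 c4402 c4286 c4404 c4435 c4440 (k8 c4076 c10386 c5084 c4461 c838 c2833 c2143 c360 (k4 c4470 c232 c2146 c1455 (k2 c2110 c5522 (k1 c5380 k0))))) (by decide +kernel)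
def c10388 : PP 8 4 T 0x1000001000000000040000000000000000000010220005500000004010000010050002 := rS 0x9588a89927f062e41e381ba4cce1e32a5c42a112a7e1917 (k8 c4417 c4477 c4384 c4381 c4329 c9668 c6579 c490 (k8 c4466 c593 c1656 c272 c4470 c1415 c1201 c4463 (k4 c595 c506 c2118 c4337 (k2 c859 c4487 k0)))) (by decide +kernel)
def c10389 : PP 8 4 T 0x1000001002002000000000000100514200001400204000080000000010005210010400 := rS 0xc553090412c5e4f199740e13 (k8 c4401 c498 c841 c4294 c4297 c4432 c4434 c4462 (k4 c10387 c8675 c2144 c9547 k0)) (by decide +kernel)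
def c10390 : PP 8 4 T 0x1400001002002000000000000000500200000400204101480000000010000010010000 := rS 0xa10214046d0098cfa131fb4c0a57382c44ea112a7e185d (k8 c841 c4477 c4384 c4381 c4329 c4324 c624 c4480 (k8 c92 c10382 c5695 c4288 c4401 c1691 c1689 c10388 (k4 c5028 c4461 c10110 c838 (k2 c10389 c303 k0)))) (by decide +kernel)
def c10391 : PP 8 4 T 0x1002000002002000000000540400500000000500100501500000041000000000000000 := rS 0xe4c28bc628b05439dcda412894c763f (k8 c4288 c4403 c4290 c4435 c4433 c4318 c4438 c4440 (k4 c4076 c9368 c4493 c9283 (k2 c9828 c4481 (k1 c1087 k0)))) (by decide +kernel)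
def c10392 : PP 8 4 T 0x1201002002000000100010010000240040410000015500000041000000000000000 := rS 0x49c5d84c560abd2b11510610e673f9048a531d8fd430c (k8 c4477 c4329 c4288 c4403 c4290 c4296 c4433 c4313 (k8 c4310 c4410 c5546 c5857 c4337 c859 c5449 c1933 (k4 c1136 c4503 c4362 c1128 (k1 c4487 k0)))) (by decide +kernel)
def c10393 : PP 8 4 T 0x1400001002002000000000540000500200040004120101580000000000000010010002 := rS 0x61b16949344c410e6760a560aad36424fa0c078f56637041e40e430f18c166b1085c824568944a6471d8fc52d312c31028332a5d92b9 (k8 c1474 c586 c929 c578 c589 c1421 c4477 c4381 (k8 c5695 c4402 c4288 c4403 c4404 c4290 c4435 c4298 (k8 c4296 c4433 c4431 c9668 c492 c567 c754 c4466 (k8 c1927 c495 c1928 c4462 c272 c10182 c235 c1415 (k8 c4463 c1291 c10391 c4479 c945 c10392 c5073 c1933 (k8 c5016 c10061 c4478 c680 c4413 c4485 c1135 c4459 (k1 c2115 k0))))))) (by decide +kernel)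
def c10394 : PP 8 4 T 0x400001002002000000000540000401200840004004100480000000010000010010000 := rS 0x10f048418e22a821a8872311e8ac462004214046736804ca7541a7c4aa1139c218b12e9462a9b529840ad3 (k8 c5695 c10382 c10385 c1429 c104 c4388 c4435 c841 (k8 c624 c4477 c4480 c4324 c4329 c4381 c4384 c589 (k8 c10390 c578 c10393 c5028 c5084 c4461 c10110 c839 (k8 c838 c2833 c227 c235 c2144 c360 c9933 c4567 (k4 c10003 c4337 c2840 c5323 (k2 c4478 c10041 (k1 c4076 k0))))))) (by decide +kernel)
def c10395 : PP 8 4 T 0x400001002002000000000100000001201940000004100010000000010000010010000 := rS 0x1b8c552021288212854189c021f3b1c16207369e4ac5b52aec964f19b4c0b152f9ed4ebf (k8 c1133 c2011 c1131 c1426 c4388 c10382 c5695 c4294 (k8 c4297 c4434 c10384 c1429 c10394 c4476 c1929 c9753 (k8 c2997 c1147 c801 c1071 c1066 c750 c2778 c588 (k8 c10110 c4438 c4466 c1424 c4461 c5323 c6830 c4887 (k1 c7470 k0))))) (by decide +kernel)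
def c10396 : PP 8 4 T 0x2000000000000000010000010040800000200014400000000000000000000000 := rS 0x4ac45449f4999cff172eb24c27d (k8 c4379 c4302 c4305 c4377 c4417 c595 c593 c1656 (k4 c1428 c2118 c4337 c859 (k1 c4487 k0))) (by decide +kernel)
def c10397 : PP 8 4 T 0x400000000000000040000080000000200000000000000000004000000005000000000 := rS 0x89490d (k4 c4825 c1930 c4467 c1301 k0) (by decide +kernel)
def c10398 : PP 8 4 T 0x2000000000040000000000050000000040000054400000400000005000000000 := rS 0x893d0d2eb24c27d (k8 c4379 c4302 c4305 c4377 c7315 c2118 c4467 c1299 k0) (by decide +kernel)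
def c10399 : PP 8 4 T 0x1000002002000000000000010000040000005100080000000041000000100000400 := rS 0x12a3f (k2 c4288 c5290 (k1 c5016 k0)) (by decide +kernel)
def c10400 : PP 8 4 T 0x1400202002002000000000550010100040050000000054400000001000005000000000 := rS 0x1574b662bd96a942d1232cf4ac4544873f91da6c940a0cfaa1 (k8 c7717 c4379 c4306 c4380 c4305 c5695 c4404 c4313 (k8 c4410 c10398 c4337 c859 c1524 c5015 c4493 c4397 (k4 c4398 c4455 c988 c2124 (k2 c4460 c1948 (k1 c4491 k0))))) (by decide +kernel)
def c10401 : PP 8 4 T 0x400002002002000000000500000400200840004000100480000000010000010000002 := rS 0xc2a53150e9360c412b054499d5a6c84a95763d3aa8572251c0dd66083c81c86651398d2e0b35884961720915a2512984c763f14b4e2a5d40a0c1e61 (k8 c4302 c4376 c4306 c4380 c4377 c4388 c5695 c4402 (k8 c4288 c4403 c4401 c4290 c4435 c4298 c4296 c4433 (k8 c4431 c4434 c9668 c492 c567 c6579 c754 c870 (k8 c490 c1927 c495 c1928 c4462 c10182 c232 c4470 (k8 c1423 c1201 c7717 c10396 c235 c10397 c1429 c10391 (k8 c4479 c945 c10399 c680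 c10400 c5073 c4478 c1933 (k4 c4413 c10061 c1135 c4485 (k2 c2115 c4459 k0)))))))) (by decide +kernel)
def c10402 : PP 8 4 T 0x400002002002000000000010000000040840000201100480000000001040000000000 := rS 0x6b848611255322850eb73186c2ed12894c2615649dcae5d (k8 c4377 c800 c7751 c4305 c4284 c4401 c4290 c4435 (k8 c4298 c4431 c4292 c1689 c1744 c1693 c851 c10396 (k4 c1646 c2558 c2109 c5422 (k2 c1918 c4479 k0)))) (by decide +kernel)
def c10403 : PP 8 4 T 0x100002002000000100080400040200800010100055500000041000000000000000 := rS 0x612d58a7e49a8583104a9048ad12894c763f (k8 c4288 c4403 c4290 c4435 c4298 c4296 c4433 c5073 (k8 c4478 c1933 c850 c4413 c4560 c1135 c1434 c2115 (k1 c2061 k0))) (by decide +kernel)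
def c10404 : PP 8 4 T 0x400000002002000000100080000041200840010500041110000001001040200000000 := rS 0x2bd56c039250c5050cab632332f9ed66434d994b457 (k8 c800 c4476 c578 c104 c4567 c664 c1131 c1426 (k8 c4294 c4449 c3962 c4540 c10051 c10403 c842 c843 (k4 c10167 c3563 c1715 c5957 k0))) (by decide +kernel)
def c10405 : PP 8 4 T 0x100002002000000004000400000200000000100054000000041000000000000000 := rS 0x6224d83104a9048ad12894c763f (k8 c4288 c4403 c4290 c4435 c4298 c4296 c4433 c5073 (k4 c4478 c1933 c4413 c2115 (k1 c1135 k0))) (by decide +kernel)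
def c10406 : PP 8 4 T 0x400000002002000000000100000001201940000004100010000000010000010010000 := rS 0x300e46282b0d0e193c2ec7a653aa8d72261c10c563718880101f4baccee850119cda012d15cfa6107a0d925d7e0cc5a3f698162a5f4d9ed4ebf (k8 c1133 c2011 c1131 c104 c1426 c4388 c10382 c5695 (k8 c4288 c4286 c4294 c10395 c4377 c4305 c4306 c4376 (k8 c4302 c4379 c800 c4476 c10401 c5028 c5084 c4461 (k8 c10110 c7751 c664 c928 c223 c839 c838 c2144 (k8 c232 c2143 c4567 c4470 c360 c1201 c934 c10402 (k8 c578 c235 c10404 c8970 c1958 c3843 c2057 c10051 (k4 c10405 c843 c10167 c1620 k0))))))) (by decide +kernel)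
def c10407 : PP 8 4 T 0x400201002002000000100010000000240040410000515500000041000000000000000 := rS 0xac364250e51 (k4 c4435 c4410 c4076 c4479 (k2 c10392 c945 k0)) (by decide +kernel)
def c10408 : PP 8 4 T 0x400100002002000000000000400000200000000100154004000041000000000000000 := rS 0xd8883b1ca2ec2 (k4 c10405 c4362 c4481 c1087 (k2 c1088 c7751 (k1 c680 k0))) (by decide +kernel)
def c10409 : PP 8 4 T 0x400100002002000000001000400000200000000101180004000041000000000000000 := rS 0x738bb098aaf3b9048ad12894c763f (k8 c4288 c4403 c4290 c4435 c4298 c4296 c4433 c7751 (k4 c984 c1136 c2115 c4362 (k2 c1087 c4481 k0))) (by decide +kernel)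
def c10410 : PP 8 4 T 0x1400001002002000000000000000500200040000004101410000000010000010010002 := rS 0x15b0936304cc95829f4183d5cb241e751ba0c4a708602166b12e81cb47921878ca634b82cae6b1085c8e131f8a5a67b (k8 c1131 c5695 c4402 c4288 c4401 c4404 c4431 c9668 (k8 c492 c750 c567 c6579 c754 c490 c4466 c1927 (k8 c1928 c4476 c1097 c841 c624 c10182 c4462 c4477 (k8 c4480 c4381 c588 c272 c10390 c1415 c586 c1474 (k8 c235 c4463 c1291 c10407 c5073 c10408 c1933 c10409 (k2 c4318 c945 (k1 c5016 k0))))))) (by decide +kernel)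
def c10411 : PP 8 4 T 0x1400001002002000000000000000500200040000204101410000040010004010010000 := rS 0x61305243d56c152b113c0654482249c0565a0415c160e06b140f17399048ad12891c26151f8a5429716a7e182312ae58e4d1b0e4401f010040ad3 (k8 c5695 c10382 c10410 c4461 c223 c4466 c360 c4470 (k8 c324 c4289 c1471 c225 c833 c4467 c4384 c4286 (k8 c926 c7717 c4402 c4288 c4284 c4401 c4404 c4435 (k8 c4298 c4296 c4433 c96 c4417 c498 c1784 c1408 (k8 c4463 c305 c799 c4462 c4476 c2143 c233 c2146 (k8 c10390 c2110 c1998 c588 c4337 c859 c10051 c3961 (k4 c7465 c4487 c1933 c9770 (k1 c1128 k0)))))))) (by decide +kernel)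
def c10412 : PP 8 4 T 0x20001000000000040000000002000200800000001100010000000000000200400108 := rS 0xf3b1c0ac5b (k4 c839 c4476 c801 c1071 (k2 c1416 c9069 k0)) (by decide +kernel)
def c10413 : PP 8 4 T 0x400001002002000000000000000501200840000004100010000000010004010010000 := rS 0xd7092aa250f04511fd926524838e02b2d020ea9f540da18431c88c62a1100943e02339b402610d85da2512991c262d0a8a58ed302c54be9b (k8 c104 c1426 c4388 c10382 c5695 c4289 c4402 c4284 (k8 c4286 c4401 c4404 c4290 c4435 c4298 c4431 c4292 (k8 c10385 c10410 c5028 c5084 c4461 c223 c225 c4466 (k8 c7717 c6830 c833 c360 c4567 c4467 c4470 c10003 (k8 c4384 c10411 c10412 c231 c2143 c233 c232 c2146 (k8 c578 c586 c1455 c2110 c5380 c4410 c4314 c4406 (k2 c4076 c7865 (k1 c4479 k0)))))))) (by decide +kernel)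
def c10414 : PP 8 4 T 0x400202002002000000000210000000240040000000514400000041000005000000000 := rS 0x938bb098acf60ab52b113628a1287339fc824568944a6471d8fda6a1 (k8 c7717 c5695 c4288 c4403 c4404 c4290 c4435 c4298 (k8 c4296 c4433 c4313 c4310 c4410 c4076 c10398 c4479 (k8 c4337 c859 c945 c1933 c1524 c1176 c2115 c4362 (k2 c1128 c4487 k0)))) (by decide +kernel)
def c10415 : PP 8 4 T 0x400002002002000000000200000000200840004000100480000000010004010000002 := rS 0x15b0936304cc95828f4eaa15c8947037042cc0e433298d2e0b1084c7e2969c541e572e9acf283 (k8 c4306 c2016 c580 c4377 c800 c4376 c4388 c5695 (k8 c4402 c4288 c4401 c9668 c567 c6579 c754 c490 (k8 c1927 c495 c10182 c4462 c232 c4470 c1423 c1201 (k8 c7717 c10396 c235 c10414 c5073 c10408 c1933 c10409 (k2 c4318 c945 (k1 c5016 k0)))))) (by decide +kernel)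
def c10416 : PP 8 4 T 0x400000002002000000000000000001201940000004100010000000010000010010000 := rS 0x371c8203e7742808da012d1e4ae0f41975f82752d1576bc539ed3633698162a5f (k8 c1426 c4388 c10382 c5695 c4294 c104 c1131 c2011 (k8 c10406 c136 c4454 c1939 c4568 c10413 c4377 c4306 (k8 c4376 c800 c2016 c4476 c10415 c5028 c4461 c10110 (k4 c7751 c223 c839 c8970 (k2 c232 c4470 k0))))) (by decide +kernel)
def c10417 : PP 8 4 T 0x401001002002000000000010000001140040000100515500000040000000100002440 := rS 0x128a23fc10e6c28ba2630673ca6d5a6c2094c763f599ec8aa14fc30fa476484c7a08 (k8 c4462 c235 c4401 c506 c4404 c1291 c4477 c4384 (k8 c4329 c4296 c1224 c10182 c4288 c4403 c4290 c4433 (k8 c4479 c945 c5506 c601 c10399 c4488 c680 c9283 (k4 c9828 c1088 c4481 c4313 (k2 c5857 c8294 (k1 c859 k0)))))) (by decide +kernel)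
def c10418 : PP 8 4 T 0x1400001002002000000000000000101100140000004101410000000010000010010002 := rS 0x726145e30794daf150873b866103d3a9f5060c21ae57e0f1c0dd02253843010b3589740ebb2d078ca634b82cae6b1086c2e4122b44a2532384c76151f8a5a6a7 (k8 c4532 c5695 c4402 c4288 c4284 c4403 c4401 c4404 (k8 c4290 c4435 c4298 c4296 c4433 c4431 c4292 c9668 (k8 c492 c750 c567 c6579 c754 c490 c4466 c4476 (k8 c6994 c1097 c841 c624 c10182 c4462 c4477 c4480 (k8 c4381 c1421 c272 c4470 c1415 c1240 c1201 c365 (k8 c4463 c4570 c1291 c10388 c235 c10417 c4436 c4438 (k8 c4440 c9576 c10391 c867 c2016 c4488 c9283 c9828 (k2 c8521 c1087 k0)))))))) (by decide +kernel)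
def c10419 : PP 8 4 T 0x1000000000040000000000000000800000000000010000000000000400010108 := rS 0x1a0f2e1c0ac5b (k4 c839 c4476 c801 c800 (k2 c1416 c1287 (k1 c4463 k0))) (by decide +kernel)
def c10420 : PP 8 4 T 0x400001002002000000000000000001100940000004100010000000010000010010000 := rS 0xc6a23f9241c361c9960a874fa844f08861acba2b2d02046201287c046d00984a247168a58ed302c54bea5 (k8 c1430 c1426 c4388 c10382 c5695 c4289 c4402 c4286 (k8 c4404 c4435 c10385 c10418 c5028 c4461 c223 c225 (k8 c4466 c833 c10419 c231 c2143 c841 c581 c4477 (k8 c4479 c4324 c4329 c4384 c4440 c4076 c9678 c360 (k4 c4470 c232 c2146 c1455 (k2 c2110 c2840 (k1 c8633 k0))))))) (by decide +kernel)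
def c10421 : PP 8 4 T 0x1400002002002000000000100400501000000000101500480000001200000000000000 := rS 0x86bb84214ba81419857e45 (k8 c4296 c1240 c4302 c4306 c4380 c4377 c10110 c4479 (k2 c9162 c365 (k1 c10391 k0))) (by decide +kernel)
def c10422 : PP 8 4 T 0x1400002002002000000000100000101140040000100114480000000200005180000400 := rS 0x415134b4399d84c15d90e30794dab6126c2094c766b599ed7e455c8fd4e2f698f41007 (k8 c495 c4462 c235 c5695 c4432 c4558 c4288 c1201 (k8 c4296 c1240 c1224 c10182 c581 c4403 c4290 c4433 (k8 c10421 c4318 c945 c5506 c601 c4488 c277 c4449 (k8 c4450 c9828 c10399 c10061 c4459 c680 c10400 c4485 k0)))) (by decide +kernel)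
def c10423 : PP 8 4 T 0x4400000002002000000008000400000000004000101500004000000000000000000000 := rS 0x10539c20ee51 (k4 c4435 c7751 c4479 c1087 (k2 c4076 c4481 k0)) (by decide +kernel)
def c10424 : PP 8 4 T 0x400002002002000000000000000001100840000000100480000000010000010000002 := rS 0x9588a88ff044499d5b093652d0ec28bb06307921a6d783d3aa854eb9128e06e7b042cc0e1e3289cc697058845e412294c8e131d8fc52d38aa95060f3095cba6b (k8 c581 c4377 c800 c4302 c4376 c4306 c1430 c4388 (k8 c5695 c4402 c4288 c4403 c4401 c4404 c4290 c4296 (k8 c4433 c4432 c9668 c567 c6579 c754 c870 c490 (k8 c4466 c495 c10182 c4462 c1224 c232 c4470 c1423 (k8 c1201 c4558 c7717 c10396 c235 c10422 c2018 c2015 (k8 c2016 c4488 c4450 c9283 c9828 c10061 c4459 c10423 (k8 c4318 c945 c10399 c680 c4485 c4313 c10398 c4337 (k2 c859 c4958 k0)))))))) (by decide +kernel)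
def c10425 : PP 8 4 T 0x400000002002000000000000000001001940000004100010000000010000010010000 := rS 0x156af532a44cad4f8e0ca3715c150e311002210850119cda0135968ae6107975f8a54c8bc66d12894c5a29698162a5f (k8 c1426 c4388 c10382 c5695 c4402 c4286 c4290 c4435 (k8 c4298 c4294 c4432 c10416 c1430 c10420 c4377 c4376 (k8 c4302 c800 c4476 c581 c10424 c5028 c5084 c4461 (k8 c10110 c4479 c839 c838 c229 c4440 c4076 c2143 (k8 c232 c9678 c4470 c6233 c6230 c360 c974 c8696 (k2 c2853 c2013 (k1 c2112 k0))))))) (by decide +kernel)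
def c10426 : PP 8 4 T 0x800000004000000000000010000010020010 := rS 0x98ac02008281207 (k8 c609 c345 c4462 c567 c4461 c303 c342 c2778 k0) (by decide +kernel)
def c10427 : PP 8 4 T 0x1400000002000000040000000000000000000000000100020000000010000000010002 := rS 0x1b06502fc1cc210a710f018d64b0d85c9e6d (k8 c4993 c4297 c4431 c4292 c4434 c492 c486 c487 (k8 c2431 c5976 c4479 c8383 c8563 c4439 c4436 c4470 (k1 c8569 k0))) (by decide +kernel)
def c10428 : PP 8 4 T 0x4020000000002000040000000800000040000040000040000000000080040400000000 := rS 0x16e93 (k2 c1124 c1164 (k1 c9080 k0)) (by decide +kernel)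
def c10429 : PP 8 4 T 0x20420000002002000000000000000000040000041141150000000000081000400000008 := rS 0xd7092aa250f04598ac361768944a6130ab4d8317 (k8 c9283 c4450 c5695 c4284 c4401 c4290 c4435 c4298 (k8 c4431 c4292 c227 c10428 c4481 c7043 c7172 c4406 (k2 c4076 c7865 (k1 c4479 k0)))) (by decide +kernel)
def c10430 : PP 8 4 T 0x20420000002002000000000000000000040040041141140000000000081000400000008 := rS 0x6a0c42608b3439922e51 (k8 c4435 c9283 c10429 c1653 c553 c4481 c4076 c5546 (k2 c4479 c1918 k0)) (by decide +kernel)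
def c10431 : PP 8 4 T 0x400100002002000000000000400014200800040140150004000040100041400000000 := rS 0x312887b16 (k4 c4481 c4416 c9933 c10408 (k1 c819 k0)) (by decide +kernel)
def c10432 : PP 8 4 T 0x420100002002000000000000000010240800040140150004000040180001400000008 := rS 0x117590ada69f (k4 c4384 c5695 c227 c10431 (k2 c4358 c10428 k0)) (by decide +kernel)
def c10433 : PP 8 4 T 0x400001002002000000000000200400201840005541140004000000110001200010008 := rS 0x56a31eb25111660b358ab34aabcc88782c2033193faa13ea50713618a15d8346c27258bc9e3363b4e2a971688c8631 (k8 c6830 c1926 c833 c4286 c926 c4388 c5695 c4289 (k8 c4294 c4297 c4432 c4434 c4538 c4470 c505 c10397 (k8 c7717 c4467 c324 c4463 c1429 c4384 c2111 c1455 (k8 c10430 c4540 c4482 c10051 c4440 c10432 c1776 c1696 (k8 c553 c1136 c1484 c1933 c4481 c9460 c637 c4416 (k2 c5380 c314 (k1 c9933 k0))))))) (by decide +kernel)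
def c10434 : PP 8 4 T 0x400001002002000000000000000000201940004004100420000000010001200010080 := rS 0x4304c0c1c2c0e257369dcc267010062ad302a9cf25b3a84ce63b (k8 c4403 c1021 c4401 c498 c93 c1929 c2011 c10382 (k8 c5695 c4388 c10427 c4461 c5084 c617 c1112 c4993 (k8 c63 c536 c4480 c10433 c1138 c360 c6999 c4324 k0))) (by decide +kernel)
def c10435 : PP 8 4 T 0x400001002002000000000000000000201940004004100020000000010000010000100 := rS 0x131761a5e11894401f0302c040108c55a605 (k8 c10382 c5695 c4388 c10426 c10427 c4461 c534 c4462 (k8 c222 c4466 c1424 c833 c10434 c4382 c65 c4467 (k1 c7036 k0))) (by decide +kernel)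
def c10436 : PP 8 4 T 0x400000002002000000000000400000400040004600000020000041000000000000000 := rS 0x230c30c2b55f112aa1d28644486c2e4168944a6131d8547e5b (k8 c93 c4288 c4284 c4403 c4401 c4290 c4435 c4298 (k8 c4433 c4431 c4292 c2503 c538 c539 c1693 c1686 (k4 c4412 c1776 c860 c2109 (k2 c5849 c4540 (k1 c9828 k0))))) (by decide +kernel)
def c10437 : PP 8 4 T 0x400201002002000000000010000000040040005501100000000041000045400011000 := rS 0x9588a4e2ea256b0a306a24862125539a1c3617229448e2d0a8fc52c750a7e18d3 (k8 c5695 c4467 c4384 c7717 c4289 c4402 c4288 c4284 (k8 c4286 c4404 c4435 c4296 c4431 c4292 c4410 c4408 (k8 c4406 c4076 c5546 c4199 c4479 c4482 c8845 c3957 (k4 c2110 c9283 c1128 c4337 (k2 c859 c4487 k0))))) (by decide +kernel)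
def c10438 : PP 8 4 T 0x1400001002002000000000010000000200040004004150420000001000045000010200 := rS 0x90c95198a0a9f3f83618b0119c48e2d0a8a5a6573681d2ea13a90cf25b598fd3677 (k8 c1112 c104 c4288 c1185 c93 c1929 c237 c10436 (k8 c7717 c3206 c30 c4993 c63 c5695 c4402 c4284 (k8 c4286 c4404 c536 c4547 c4480 c4467 c504 c7243 (k4 c4384 c10437 c10408 c819 (k2 c1728 c7230 (k1 c9036 k0)))))) (by decide +kernel)
def c10439 : PP 8 4 T 0x40000000000000000000000000000800000000000005000000010 := rS 0x470d (k2 c4382 c1296 (k1 c4467 k0)) (by decide +kernel)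
def c10440 : PP 8 4 T 0x1400001002002000000000010000000200040004004150020000000000005000010208 := rS 0x563d0f17c0ad3 (k4 c5695 c10382 c10439 c1105 (k2 c2131 c227 (k1 c10438 k0))) (by decide +kernel)
def c10441 : PP 8 4 T 0x400001002002000000000000000000201940004004100020000000010000010000000 := rS 0xc1a95917613058a734aa1d5f11321d572381b8f44e25218796607041e5361b0b9048ad12894c76151f95cb66d3b99c040108c55a605 (k8 c10382 c5695 c4388 c10426 c10427 c4461 c5084 c1112 (k8 c4993 c93 c63 c4288 c4284 c4403 c4290 c4435 (k8 c4298 c4296 c4433 c4431 c4292 c104 c1929 c10435 (k8 c30 c1185 c1105 c237 c7033 c353 c2131 c2130 (k8 c4470 c1201 c10436 c10440 c4412 c1776 c1653 c1696 (k8 c1649 c1136 c1933 c2115 c4362 c5849 c10423 c8521 (k1 c3957 k0))))))) (by decide +kernel)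
def c10442 : PP 8 4 T 0x1400001002002000000000000000101100040001140100020000000010005200010000 := rS 0x98bd54a6a327f070357e711b4314e5f1c92c5e4f19b1cda674b8b4620200b4c0a23 (k8 c833 c10382 c5695 c10427 c4461 c6830 c4286 c926 (k8 c5084 c4993 c4289 c4294 c4297 c4432 c4434 c360 (k8 c10439 c4558 c4467 c4470 c536 c1511 c1407 c4463 (k4 c1455 c10430 c4488 c867 (k2 c2018 c2111 (k1 c325 k0)))))) (by decide +kernel)
def c10443 : PP 8 4 T 0x400001002002000000000000000001101940000000100020000000010000010010100 := rS 0x2ec344c25101ccf2750f8182e131d82c04018ab4c0aa5 (k8 c1430 c10382 c5695 c4388 c10427 c4461 c534 c4403 (k8 c4401 c4431 c4462 c222 c498 c500 c1021 c4466 (k4 c1424 c10442 c4324 c807 (k1 c7036 k0)))) (by decide +kernel)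
def c10444 : PP 8 4 T 0x1000002000000000010000014000000000200000020000001000005400011000 := rS 0x49518acaa94238b452c7 (k8 c4289 c4402 c4286 c4404 c539 c1686 c1694 c859 (k2 c4199 c2110 k0)) (by decide +kernel)
def c10445 : PP 8 4 T 0x400100002002000000000000410001100000000140000000000041000000000000000 := rS 0x15e3155d2d34c48cb052ac38b1048ad12884c2a3f (k8 c4288 c4284 c4401 c4435 c4298 c4296 c4433 c4481 (k8 c4362 c4418 c4420 c4982 c9770 c4488 c4429 c1675 (k2 c1966 c868 (k1 c10230 k0)))) (by decide +kernel)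
def c10446 : PP 8 4 T 0x400001002002000000000010600001140040040004150020000041000005400011008 := rS 0x90a364988e4ad828ac8e2d0a8a4ee7b369e576754fc31a6a1 (k8 c7717 c5695 c4467 c4384 c10444 c4825 c629 c4993 (k8 c4055 c1112 c4402 c4284 c4286 c4404 c227 c10437 (k4 c6230 c10445 c1110 c1731 (k2 c819 c7230 (k1 c9036 k0))))) (by decide +kernel)
def c10447 : PP 8 4 T 0x400001002002000000000000000001001940000004100000000000010000010000000 := rS 0x2a49a314d0663308619cd2a8788990ea795da7c1c7f06c3160b95f88ce2385397d42371e90c4e254b879660704295324b0d8bc2e4f208cc8a531d8547e57059dcf66d33808025808c55a605 (k8 c10382 c5695 c4388 c10426 c10425 c10427 c4461 c5084 (k8 c4993 c4055 c1112 c534 c63 c4288 c4284 c4403 (k8 c4290 c4296 c4294 c4433 c4297 c4431 c4432 c4292 (k8 c4434 c10441 c1430 c10443 c30 c1185 c1105 c3206 (k8 c7033 c353 c2132 c2131 c2130 c7717 c10439 c4558 (k8 c4470 c536 c4547 c1240 c1201 c4480 c4467 c504 (k8 c7243 c1146 c4384 c4825 c629 c10444 c10446 c4412 (k8 c1653 c1696 c1649 c4958 c8845 c9828 c4436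 c4488 (k4 c228 c244 c867 c4871 k0))))))))) (by decide +kernel)
def c10448 : PP 8 4 T 0x1400000002002000000000000100001001000500004100020000000010000410014100 := rS 0x6b848609a434daf01abb429c57f0c5397c62361388072790f818961b1785c9e0b3b9ecda2501005a605 (k8 c10382 c5695 c10427 c4461 c224 c4993 c4055 c1112 (k8 c534 c4297 c4431 c4432 c4292 c4434 c4462 c222 (k8 c500 c1137 c4466 c4538 c4470 c6830 c10439 c4558 (k8 c4467 c1511 c536 c10110 c4825 c1407 c2122 c2018 (k4 c4567 c324 c2108 c4436 (k2 c1918 c4479 k0)))))) (by decide +kernel)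
def c10449 : PP 8 4 T 0x100002002000000000000400000200000000140008000000041000000000000000 := rS 0x62b0586938b1048ad12894c763f (k8 c4288 c4403 c4290 c4435 c4298 c4296 c4433 c4481 (k4 c1608 c4362 c4420 c1135 (k1 c2115 k0))) (by decide +kernel)
def c10450 : PP 8 4 T 0x400100002002000000000200400000200000000100150120000041000045400000000 := rS 0x62b0586cf39121466220915a2471d8b42a296395d429f8634cf25b (k8 c93 c1929 c5695 c4467 c4384 c7717 c63 c4289 (k8 c4402 c4284 c4286 c4403 c4404 c4298 c4296 c4433 (k8 c10408 c818 c2110 c10449 c1790 c3119 c1621 c1176 (k1 c9804 k0)))) (by decide +kernel)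
def c10451 : PP 8 4 T 0x400002002002000000000210400000240040004000151020000041000004000010008 := rS 0x56a5623183528a126343c1056510aa84be054fc31a6232e8941e792d9d53677 (k8 c1112 c104 c10436 c93 c1929 c4376 c224 c4377 (k8 c792 c5695 c4467 c4384 c10382 c10439 c7717 c4284 (k8 c4435 c227 c10450 c4410 c4407 c4076 c9288 c10414 (k4 c4482 c4337 c859 c2049 (k1 c5015 k0))))) (by decide +kernel)
def c10452 : PP 8 4 T 0x400002002002000000000010400001240140000010140020000041000004000010008 := rS 0x306a5645d84c1629cd2a8757c44c8bc3a9e5361b0b9048ad12894c76151f95cb677309ed628141a14be0536aee18d3119744a0f (k8 c4376 c224 c4377 c792 c5695 c4467 c4825 c4993 (k8 c10382 c10439 c10110 c4306 c4380 c4304 c4055 c617 (k8 c1112 c93 c63 c4288 c4284 c4403 c4290 c4435 (k8 c4298 c4296 c4433 c4431 c4292 c104 c1929 c10436 (k8 c6745 c10451 c4412 c1776 c1653 c1696 c1649 c1136 (k4 c1933 c2115 c4362 c5849 (k2 c10423 c8521 (k1 c3957 k0)))))))) (by decide +kernel)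
def c10453 : PP 8 4 T 0x400000002002000000000000400000000040004600000020000041000000000000000 := rS 0x1190c268aa874486c2ed12894c2615 (k8 c4284 c4401 c4290 c4435 c4298 c4431 c4292 c2503 (k4 c1693 c1686 c10436 c2109 (k2 c4448 c4540 k0))) (by decide +kernel)
def c10454 : PP 8 4 T 0x20000000002002000000000010400014140000000100011520000041000044000010000 := rS 0x9588a88c70439b0a2e41298ec2a3f (k8 c4288 c4284 c4403 c4290 c4433 c9283 c9828 c3119 (k4 c4481 c4407 c9288 c4337 (k2 c859 c4958 k0))) (by decide +kernel)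
def c10455 : PP 8 4 T 0x11400000002000000000000440000501100000000000000000000040000005400000000 := rS 0x2884c18af5529a258bc9e33 (k8 c4294 c4297 c4432 c4434 c4488 c867 c2018 c1966 (k2 c2111 c4493 (k1 c4451 k0))) (by decide +kernel)
def c10456 : PP 8 4 T 0x400000002002000000000000000001001940000004100000000000010000010000000 := rS 0x12b11320acab0439b0a2f183aa6576a54fae57f0c5397d42711c0f486271ba5c3cb304094460f41a05625d7e008ce013d984ee6d2d9602315179048a531d8fda605 (k8 c10382 c5695 c4288 c4403 c4290 c4296 c4433 c4432 (k8 c4388 c10426 c10425 c93 c4993 c1112 c617 c4055 (k8 c10427 c5084 c4461 c10447 c4377 c4304 c4380 c4306 (k8 c4376 c792 c224 c10448 c1185 c1105 c3206 c232 (k8 c353 c2132 c2131 c4470 c9039 c7717 c10439 c4558 (k8 c4467 c1240 c1201 c4384 c4385 c4825 c10452 c10453 (k8 c10455 c9283 c9828 c3119 c4481 c4406 c226 c10454 (k2 c4412 c1696 (k1 c4958 k0))))))))) (by decide +kernel)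
def c10457 : PP 8 4 T 0x1000000000040000000000000000000000004000000000000010000000010800 := rS 0x1a0f (k2 c305 c569 (k1 c4463 k0)) (by decide +kernel)
def c10458 : PP 8 4 T 0x2000000000000000000000000000000000010000000000000010000080 := rS 0x101683e57 (k4 c1017 c1097 c4476 c4466 (k2 c494 c9380 k0)) (by decide +kernel)
def c10459 : PP 8 4 T 0x2002000000001000000000000040001200000000000000000000001000100 := rS 0x10e554486c2ed12894c2615 (k8 c4284 c4401 c4290 c4435 c4298 c4431 c4292 c596 (k2 c1687 c1692 (k1 c2109 k0))) (by decide +kernel)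
def c10460 : PP 8 4 T 0x100000000000000000005400014041500000104050108000000000000000000000 := rS 0x31c454493 (k4 c1070 c7050 c4337 c818 (k1 c4478 k0)) (by decide +kernel)
def c10461 : PP 8 4 T 0x1000000000000000000002002000001000005400004241540000004141148000000001045401015100 := rS 0x154c6643aab58279351da0aa1 (k8 c7717 c10051 c1071 c1072 c1929 c3831 c3958 c10459 (k4 c10460 c67 c1646 c10058 k0)) (by decide +kernel)
def c10462 : PP 8 4 T 0x400000002002000000000000400005041540000005141148000000111045401015100 := rS 0xc8723a8f22ec13cc6132b55bc506ecda29310a5f5094c76d30290d3705 (k8 c10051 c804 c4567 c10382 c5695 c4403 c4290 c7717 (k8 c10439 c10110 c10080 c4451 c2062 c324 c4470 c7094 (k8 c4389 c10461 c4488 c4447 c4450 c9283 c9915 c10459 (k2 c4481 c10460 (k1 c3585 k0))))) (by decide +kernel)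
def c10463 : PP 8 4 T 0x400000002002000000000000000001001140000004100000000000010000010010140 := rS 0x3c9de31084c9ad4ca5a2af50a712645152371306486bf4fa6d2e2b2b0c4b65d119844a8310008ce6d7e0e41a0f0f804f60a0d85c662d698151eb3 (k8 c10182 c10456 c10382 c5695 c4286 c4294 c4431 c4292 (k8 c4462 c702 c567 c270 c305 c569 c358 c10457 (k8 c5028 c5084 c4461 c4466 c4570 c224 c879 c793 (k8 c4377 c839 c6830 c303 c2244 c926 c804 c7077 (k8 c5760 c4567 c308 c10462 c321 c974 c4538 c10063 (k8 c7095 c10079 c4354 c4451 c1934 c4568 c2008 c2010 (k4 c4479 c4488 c4438 c4447 (k1 c6225 k0)))))))) (by decide +kernel)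
def c10464 : PP 8 4 T 0x2400000002000000040000440000000000001101405100080000040000000000000200 := rS 0x84060d682209ec8a71 (k8 c4387 c4296 c1224 c4433 c7040 c580 c9673 c4479 (k1 c4436 k0)) (by decide +kernel)
def c10465 : PP 8 4 T 0x400001002002000000000440000504200040100604100490000040110044410010208 := rS 0x24a8d920c8283c33193c1fc98715e8de2847098a58ed33d914ce2d429b46661 (k8 c878 c4294 c958 c10110 c4286 c918 c4296 c1224 (k8 c5695 c4289 c4402 c4401 c4404 c10411 c4386 c4354 (k8 c4387 c10063 c594 c10464 c4447 c1958 c4569 c10051 (k4 c4463 c506 c5380 c8735 (k1 c8998 k0))))) (by decide +kernel)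
def c10466 : PP 8 4 T 0x1400001002002000000000000000000000000000001111180000001111045400000200 := rS 0x1ae125544a1e08633fa881c491b06c2ed12894c8e131685452c750a7e18d3 (k8 c5695 c4467 c4384 c7717 c4289 c4402 c4284 c4286 (k8 c4401 c4404 c4290 c4435 c4298 c4431 c4292 c4470 (k8 c4209 c232 c2110 c1455 c2840 c8633 c10041 c4314 (k4 c4406 c4076 c7865 c4479 k0)))) (by decide +kernel)
def c10467 : PP 8 4 T 0x400001002002000000000440000401200040000004100410000000110004210010200 := rS 0xc03918a0ac343864f114328f4ea8152a7cc30c258bc9ed35981c4a231599c5ab12e968ee5705a14da0219a6c8631 (k8 c2144 c1926 c104 c4294 c230 c958 c10110 c84 (k8 c799 c7751 c231 c841 c1145 c4286 c918 c2143 (k8 c833 c2142 c10458 c10182 c5695 c4297 c4432 c4434 (k8 c4467 c878 c4384 c4385 c9546 c10465 c235 c578 (k8 c10466 c10464 c1958 c3843 c2057 c10051 c10405 c843 (k2 c10167 c1620 k0)))))) (by decide +kernel)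
def c10468 : PP 8 4 T 0x400001002002000000000000000001200540000004100010000000010000210010200 := rS 0x2968a4c1b89886bb5fa9c66d31c8c4be5a (k8 c231 c577 c2144 c361 c5695 c4294 c2011 c1133 (k8 c1931 c1926 c10467 c2145 c10063 c4451 c1934 c4568 k0)) (by decide +kernel)
def c10469 : PP 8 4 T 0x400100002002000000000040010005101140000600010004000040111045400000208 := rS 0x4546ea94dd2c90ae5fa8e206362944a64714b1cf645338b542a717a9618d3 (k8 c5695 c4467 c4385 c4432 c4558 c7717 c4286 c918 (k8 c4296 c1224 c4289 c4402 c4404 c4290 c4435 c1784 (k8 c1689 c4478 c4337 c8925 c7769 c2110 c4428 c869 (k4 c7774 c2146 c7247 c4470 k0)))) (by decide +kernel)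
def c10470 : PP 8 4 T 0x400001002002000000000000400001101540000004110084000000111045400010208 := rS 0xa907a6891195aadc6ec364c50e43d3aa94c30c538bc8253238ec7ec769974ee855da0486194f97d5b0528a1e106b368ccce2d (k8 c4286 c918 c4294 c958 c581 c4479 c4440 c4435 (k8 c4076 c6230 c577 c6233 c4436 c236 c4439 c10310 (k8 c10110 c7751 c841 c5695 c4289 c4288 c4403 c4404 (k8 c4290 c4433 c4432 c4558 c4467 c878 c4385 c10469 (k8 c235 c10445 c10466 c1731 c1087 c4386 c4353 c4389 (k4 c9828 c4559 c4488 c243 (k2 c866 c8696 k0))))))) (by decide +kernel)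
def c10471 : PP 8 4 T 0x400001002002000000000000000001001140000004100010000000010000210010000 := rS 0x552995ea5a2af89a0e302a46f0d132b53e435d9960a870ca06106b4c97cba67368ac62572d08c7225008085e3368944a62d14b4c0a8f5982c1007 (k8 c10458 c10463 c84 c10182 c10456 c10382 c5695 c4402 (k8 c4286 c4290 c4435 c4298 c4294 c4432 c230 c9380 (k8 c2142 c361 c833 c231 c799 c2144 c2143 c958 (k8 c918 c841 c577 c10468 c581 c4479 c4439 c4436 (k8 c4440 c4076 c9678 c10310 c236 c6233 c6230 c10470 (k8 c4324 c2145 c974 c4477 c879 c244 c9891 c4399 (k4 c1404 c9441 c4490 c2112 (k1 c2013 k0)))))))) (by decide +kernel)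
def c10472 : PP 8 4 T 0x50000000002000000080000210 := rS 0x4145454 (k4 c234 c274 c4406 c4191 k0) (by decide +kernel)
def c10473 : PP 8 4 T 0x400001002002000000000000000000200540000204100500000040110000090010202 := rS 0xb84ac4608a2649841883079da33431e9fccf093e8ec0a7b22a5c7e631499426793585d7a718a5159a535089498bf1bb4d4e27 (k8 c353 c2011 c5695 c273 c1133 c10063 c285 c7717 (k8 c4290 c2062 c4451 c4470 c4387 c4354 c4431 c492 (k8 c1928 c4401 c490 c4402 c754 c4288 c1193 c4296 (k8 c1224 c10382 c4403 c1691 c10386 c593 c594 c10472 (k8 c8226 c9915 c4482 c4569 c2003 c4463 c503 c506 (k4 c5857 c4483 c4337 c858 (k2 c10407 c6781 k0))))))) (by decide +kernel)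
def c10474 : PP 8 4 T 0x12000000000000000000000440000000000000505404000000000000000000000000000 := rS 0x2121071 (k4 c4387 c4482 c7040 c4321 k0) (by decide +kernel)
def c10475 : PP 8 4 T 0x400001002002000000000000500000200540000004100500000000110000110010202 := rS 0x7382224cec256b04d8c5849d93f0c64985060c07c647a755089502cda29c57a4c8a105a251298eda60b3d914ae054b8fc4e370f18c526509a9d7ebb219e4d617 (k8 c4431 c492 c1928 c1927 c1931 c1133 c2011 c4401 (k8 c490 c4402 c754 c4466 c273 c353 c4288 c1193 (k8 c10382 c1066 c4296 c1224 c84 c5695 c4403 c4290 (k8 c4435 c4298 c4433 c4470 c10063 c4354 c4387 c4451 (k8 c2062 c1895 c285 c7717 c10473 c235 c9915 c4569 (k8 c4463 c4570 c503 c506 c4477 c4384 c10474 c4438 (k8 c1096 c7751 c1893 c945 c2115 c10399 c680 c10408 (k2 c1088 c9237 k0)))))))) (by decide +kernel)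
def c10476 : PP 8 4 T 0x400001002002000000000000000000201540000004100010000000010000110010200 := rS 0x29218618a8e14ed35981c4e0001974beb12d15c3c05 (k8 c10382 c4466 c1066 c4476 c625 c577 c841 c223 (k8 c4461 c353 c10458 c10182 c5695 c2011 c10475 c4348 (k4 c7422 c4486 c10410 c4385 k0))) (by decide +kernel)
def c10477 : PP 8 4 T 0x200002002000000000000000000000044000404000000000041150000080000200 := rS 0x66d1499183c862125129814f6458a2eda64b (k8 c4434 c5695 c9034 c4470 c4296 c1224 c10382 c4290 (k8 c4435 c4076 c5546 c8961 c4540 c9686 c4451 c2062 (k1 c9915 k0))) (by decide +kernel)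
def c10478 : PP 8 4 T 0x2002000000000000000044000000000000000000001000000045400000000 := rS 0xa1238b452c7 (k4 c4289 c4402 c4286 c4404 (k2 c7717 c2110 k0)) (by decide +kernel)
def c10479 : PP 8 4 T 0x2401000002000000000000000001000000000000004500000000040100000000008000 := rS 0x1046c2593c8245 (k4 c4296 c4433 c4297 c4434 (k2 c4479 c8476 (k1 c641 k0))) (by decide +kernel)
def c10480 : PP 8 4 T 0x400000000006400101002002000000010000400000000040050004140501000040100004000010202 := rS 0x2f9834b412203308548904649070359ea3640ad3f1027905a6053585cca13 (k8 c4401 c490 c4431 c492 c10382 c5695 c4433 c4297 (k8 c5056 c6233 c4191 c4483 c4337 c1792 c506 c4463 (k8 c4199 c1327 c10478 c1503 c10479 c4436 c5422 c5522 (k4 c4457 c1985 c9673 c4572 k0)))) (by decide +kernel)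
def c10481 : PP 8 4 T 0x400001002002000000000000400000100040000204100500000040150004080010202 := rS 0x19b4526460f2760c4250f04a19547a7f339f58b172894c767b2295c0a971f99426bb259c628d3 (k8 c5695 c4470 c4387 c4434 c9034 c4401 c490 c4288 (k8 c1193 c10382 c1066 c4296 c1224 c4403 c4290 c4435 (k8 c4417 c1784 c1691 c593 c594 c10472 c1686 c8226 (k8 c10480 c4410 c4076 c5546 c10477 c8961 c4679 c9686 (k2 c4451 c2062 (k1 c9915 k0)))))) (by decide +kernel)
def c10482 : PP 8 4 T 0x200002002000000000000000000000040000404000000000041150000080000200 := rS 0x87 (k2 c4410 c10477 k0) (by decide +kernel)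
def c10483 : PP 8 4 T 0x100002002000000000015000000051500000000040400002000000004000000002 := rS 0x4aa049a8c569f88014ca13 (k8 c4401 c490 c10382 c5056 c6233 c4191 c4337 c4413 (k2 c2125 c282 (k1 c7717 k0))) (by decide +kernel)
def c10484 : PP 8 4 T 0x10000000002000000000000100001500000000004000000100000040001005000008000 := rS 0x9a23258bc9e33 (k4 c4294 c4297 c4432 c4434 (k2 c1327 c4569 (k1 c2111 k0))) (by decide +kernel)
def c10485 : PP 8 4 T 0x10000001002000000040000100001100000001004001500500000040001005000010000 := rS 0x600603d4e2f (k4 c4432 c4558 c10484 c4463 (k2 c8696 c503 k0)) (by decide +kernel)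
def c10486 : PP 8 4 T 0x400101002002000000000000000001141500000104100500000040150004000010242 := rS 0x3fa801a24428c552a536a6a32c3889992a485c904a6471fb1d667b229ac2e6314adc76bd5ac51a63d (k8 c235 c5695 c4470 c4389 c4354 c4403 c7094 c4402 (k8 c754 c4431 c492 c4296 c1224 c10182 c4289 c4288 (k8 c4404 c4290 c4433 c4548 c4559 c5073 c10483 c4334 (k8 c4958 c9828 c4488 c5506 c1971 c866 c1966 c5976 (k4 c10485 c1367 c283 c7414 (k1 c897 k0)))))) (by decide +kernel)
def c10487 : PP 8 4 T 0x400001002002000000000000000001101540000004100500000040110000080010242 := rS 0x3368a4c8c1e4ec1884a1e083d3a944a6b33d914ae054b8fc4f145db4c6e4b (k8 c4434 c273 c5695 c9034 c4470 c353 c4288 c1193 (k8 c10382 c1066 c4296 c1224 c10182 c4290 c4435 c10481 (k8 c235 c10486 c4410 c4076 c5546 c10482 c8961 c4679 (k4 c9686 c4451 c2062 c9915 k0)))) (by decide +kernel)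
def c10488 : PP 8 4 T 0x4000400080000080000000010000202 := rS 0x3b862320b (k4 c84 c4446 c236 c1887 (k1 c4152 k0)) (by decide +kernel)
def c10489 : PP 8 4 T 0x400001002002000000000000000001001140000004100010000000010000010010000 := rS 0xa4861862a3821a64d65f2e800b4270195c3c210bb4c0a8f3d8200e45 (k8 c4296 c10458 c10463 c1224 c10456 c10382 c5695 c4431 (k8 c10471 c4466 c1066 c223 c353 c4476 c4461 c841 (k8 c577 c492 c10476 c10488 c10487 c4348 c7422 c4486 (k2 c10418 c4385 k0)))) (by decide +kernel)
def c10490 : PP 8 4 T 0x2002000000000000000000000044000000020080000000000040001000000 := rS 0x554486c2ed12894c2615 (k8 c4284 c4401 c4290 c4435 c4298 c4431 c4292 c2558 (k2 c1646 c2109 k0)) (by decide +kernel)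
def c10491 : PP 8 4 T 0x102000000000000000000000010000000000210050404000000000000000000000 := rS 0xfe632eb24c27d (k4 c4379 c4302 c4305 c4377 (k2 c1689 c594 (k1 c8784 k0))) (by decide +kernel)
def c10492 : PP 8 4 T 0x400002002002000000000040400001200140000004100010000040110000200000200 := rS 0xc0391887a7532a860a27438654b453c1317ea74d9ec8a81419c6283707b4c4a311599c5a772b82d0a6d010ccbe5a (k8 c231 c577 c4294 c230 c958 c10110 c84 c799 (k8 c7751 c4286 c918 c2143 c2144 c2142 c5695 c4376 (k8 c232 c4470 c4387 c4306 c4380 c4296 c1224 c104 (k8 c2011 c1133 c10063 c7040 c4451 c1934 c1958 c3843 (k8 c4568 c10051 c7717 c10490 c10491 c235 c10408 c843 (k2 c10167 c1620 k0)))))) (by decide +kernel)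
def c10493 : PP 8 4 T 0x400000002002000000100000400001101540510000101110000040110004200014200 := rS 0xc14d988e43d54294eb0c53a845e5314b4d7625118c4ee5705a155a9f328ac0205829450f08359b46667010b4be5a (k8 c231 c577 c4286 c230 c918 c4294 c958 c581 (k8 c4479 c4440 c4435 c4076 c10382 c9380 c2143 c9678 (k8 c6233 c6230 c10110 c84 c799 c7751 c2144 c833 (k8 c2142 c10310 c5695 c4402 c4290 c4432 c7717 c4558 (k8 c4467 c10469 c4385 c9576 c235 c10445 c8797 c866 (k2 c1620 c10167 k0)))))) (by decide +kernel)
def c10494 : PP 8 4 T 0x2400100002002000000000040010001100141504604010004000040001040000000008 := rS 0x4653678572fe2063628bca253149c4ce2d (k8 c4286 c918 c4387 c4402 c4290 c4435 c4432 c1784 (k8 c1689 c4478 c8925 c7769 c7040 c869 c4447 c4488 k0)) (by decide +kernel)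
def c10495 : PP 8 4 T 0x400002002002000000000000400001001540000004100010000040110000200010200 := rS 0x14cae52aad34c48ca4d9ec161d0c90721e9d546a9868993ead32c150f0835a6482d12894c8e3f63814f6452eb2506613eaed02b71dad6283707b4c02311599c5a772b82d0a6d010ccbe5a (k8 c231 c577 c4294 c230 c958 c10110 c84 c799 (k8 c7751 c4286 c918 c2143 c2144 c9380 c5695 c4376 (k8 c232 c4470 c4389 c4403 c7094 c4380 c10310 c4379 (k8 c4302 c4306 c4305 c4377 c4296 c1224 c10382 c4289 (k8 c4288 c4404 c4290 c4435 c4298 c4433 c10492 c581 (k8 c4479 c4440 c4076 c9678 c6230 c6233 c10493 c4324 (k8 c974 c934 c10494 c235 c10445 c4559 c8226 c1087 (k8 c1620 c1790 c7994 c9828 c7753 c4488 c1675 c1971 (k2 c4542 c8696 (k1 c909 k0)))))))))) (by decide +kernel)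
def c10496 : PP 8 4 T 0x400002002002000000000000400001001540000004100010000000110000200010200 := rS 0x849ac3042368c40433 (k8 c4294 c230 c2144 c958 c10495 c236 c7466 c4436 (k1 c4479 k0)) (by decide +kernel)
def c10497 : PP 8 4 T 0x2000002000000000040000000400010040500000200014400000400000005000000000 := rS 0xb94ac4544933f99d6271 (k8 c4387 c4304 c593 c594 c1656 c10398 c4337 c858 (k2 c6781 c7058 k0)) (by decide +kernel)
def c10498 : PP 8 4 T 0x400002002002000000000040400000200540000004514400000040110000180000200 := rS 0x4f1cd71048b99d84ad609b18b093b4647a7550b368a25261e57ea74d905a2512991c167b2297562c940a0cc2b71daf4e3141b83da65702a5c7e27 (k8 c353 c4288 c1193 c10382 c1066 c5695 c4376 c232 (k8 c4470 c4387 c4354 c4403 c7094 c4302 c4306 c4380 (k8 c4305 c4304 c4377 c4296 c1224 c84 c4404 c4290 (k8 c4435 c4298 c4433 c104 c2011 c1133 c1928 c9123 (k8 c285 c4451 c2062 c7717 c10497 c235 c9915 c10474 (k8 c4438 c1096 c7751 c1893 c945 c2115 c10399 c4362 (k4 c10408 c7081 c4408 c9237 (k1 c1396 k0))))))))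 (by decide +kernel)
def c10499 : PP 8 4 T 0x102002002000000000000000000000000000210040405000000000004000010002 := rS 0x609092a0238558ec907984fa6314994267f (k8 c594 c4401 c490 c4402 c754 c4379 c4302 c4376 (k8 c4305 c4289 c4284 c4404 c10491 c8222 c7717 c2107 (k1 c1367 k0))) (by decide +kernel)
def c10500 : PP 8 4 T 0x2400002002002000000000040400000000540000204100400000040000000080010202 := rS 0xa1129314e79360621287821547a672891da67b229846e0f3895c0a971f89cd617318a4ca13 (k8 c4401 c490 c4402 c754 c4431 c492 c353 c4288 (k8 c1193 c10382 c1066 c4387 c4376 c232 c4302 c4296 (k8 c1224 c5695 c4404 c4435 c593 c10472 c1686 c10499 (k8 c4410 c4076 c5546 c4479 c8961 c904 c9686 c285 (k2 c7717 c10497 k0))))) (by decide +kernel)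
def c10501 : PP 8 4 T 0x2400200002002000000100040500000000140000104515500000040040000080000200 := rS 0x25501314e9f3c9b17018849cd0e6728814f64538a5c7e27 (k8 c353 c4288 c1193 c4387 c4296 c1224 c10382 c4435 (k8 c4310 c4410 c4408 c4076 c5546 c8522 c4479 c8961 (k4 c1396 c904 c9686 c9237 (k2 c285 c7717 k0)))) (by decide +kernel)
def c10502 : PP 8 4 T 0x400000002002000000000000000001001140000004100010000000110000010010000 := rS 0x10aa9529b534a78c89586a1889992a485cc147a754c90cca633597c005a13a5c06570f0856ab78a0bc2e412991c263b1f8a58ed302accf6452eac592615da051e3707bf01007 (k8 c10458 c10463 c10489 c4376 c232 c10456 c4380 c10310 (k8 c4302 c4305 c4304 c4377 c4296 c1224 c10182 c10382 (k8 c5695 c4289 c4402 c4288 c4403 c4401 c4404 c4290 (k8 c4433 c4431 c4432 c4470 c7094 c4389 c10496 c4466 (k8 c1066 c223 c1193 c353 c4476 c4461 c577 c492 (k8 c754 c490 c10488 c10498 c10500 c235 c10501 c4548 (k8 c4559 c5073 c10483 c4334 c896 c4958 c283 c9828 (k4 c4558 c4488 c5506 c1971 (k2 c866 c5976 (k1 c8696 k0))))))))))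 (by decide +kernel)
def c10503 : PP 8 4 T 0x2000000000040000010000010040400000200014400000400000005000000000 := rS 0x25622a2499fccf17 (k8 c4417 c593 c595 c1656 c10398 c4337 c858 c4487 k0) (by decide +kernel)
def c10504 : PP 8 4 T 0x400002002002000000000040400501240040000100554484000001200005000000000 := rS 0x2b0d8895ec122abf22ae47e43 (k8 c365 c4288 c1201 c4296 c1240 c4348 c10408 c10414 (k4 c4314 c10421 c10400 c945 k0)) (by decide +kernel)
def c10505 : PP 8 4 T 0x400002002002000000000040400511000440004000554480000001200005080000400 := rS 0x4ac45447f82226126c49d2d0ec28bb06309b5e26482531dc5442432b814ea975c8fda647 (k8 c4404 c5695 c4288 c1201 c1193 c10503 c10382 c1066 (k8 c365 c361 c4348 c4403 c4290 c4433 c10504 c10422 (k8 c2018 c4488 c4450 c9283 c9828 c10061 c4459 c1127 (k8 c10423 c4318 c680 c4485 c4313 c10398 c4337 c858 (k1 c4487 k0))))) (by decide +kernel)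
def c10506 : PP 8 4 T 0x400000002002000000000000400000240040004100580004000041000000100000400 := rS 0x56c24d8c13cc152a3f (k8 c4288 c5290 c4310 c1928 c1933 c10409 c4318 c945 (k1 c10399 k0)) (by decide +kernel)
def c10507 : PP 8 4 T 0x400000002002000000000000000001001140000004100010000000010000010010000 := rS 0x46536c35e2652b11330f4ea65319ac005a4b80caea52fa9d42270f43086255c8862a385da05f87b0582166070b9048a532384c763f14b4c0a8f (k8 c10456 c10382 c5695 c4402 c4288 c4403 c4401 c4404 (k8 c4290 c4296 c4433 c4431 c10458 c10182 c10463 c84 (k8 c1224 c10489 c4380 c10310 c10502 c4348 c361 c1201 (k8 c281 c365 c4486 c4466 c4324 c4329 c4330 c4382 (k8 c4385 c1066 c223 c1193 c4476 c4461 c492 c754 (k8 c490 c10503 c235 c10505 c4334 c5290 c10506 c10422 (k4 c4958 c2018 c9828 c4488 k0))))))) (by decide +kernel)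
def c10508 : PP 8 4 T 0x400100002002000000000000400000200000000140150004000040000000000000000 := rS 0x18c7b16 (k4 c4481 c4416 c10449 c10408 k0) (by decide +kernel)
def c10509 : PP 8 4 T 0x420100002002000000000000000000240000040140150004000040080000400000008 := rS 0x8bac856d3 (k4 c5695 c227 c10508 c4358 (k1 c10428 k0)) (by decide +kernel)
def c10510 : PP 8 4 T 0x1400001002002000000000000000001000040001150140020000040110005200010000 := rS 0x30c7b1660b156695579920a198c9fc1c0d4c0d8824568944a63b1fb1cae773d9b52e2d18808160552c31a623 (k8 c833 c5695 c4467 c4385 c10382 c534 c7039 c6830 (k8 c4286 c926 c4993 c4055 c1112 c63 c4289 c4288 (k8 c4403 c4290 c4435 c4298 c4296 c4433 c4470 c10442 (k8 c1407 c4463 c1455 c10430 c4540 c10051 c10509 c1776 (k8 c1696 c553 c1136 c1933 c4481 c4416 c4362 c2115 k0))))) (by decide +kernel)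
def c10511 : PP 8 4 T 0x420000002002000000000100100001200101000014100020000040150000200010080 := rS 0x40a0c98bf4db4cee7b368081605119e42ebb (k8 c4825 c4431 c500 c833 c10382 c534 c7039 c4993 (k8 c4055 c1112 c5695 c104 c1133 c10063 c9087 c1895 (k1 c6745 k0))) (by decide +kernel)
def c10512 : PP 8 4 T 0x400200002002000000000000000000000000000001110000000000001000000000000 := rS 0x35c24aa894386c2ed12894c2615 (k8 c4284 c4401 c4290 c4435 c4298 c4431 c4292 c4410 (k4 c4314 c4406 c4076 c7865 (k1 c4479 k0))) (by decide +kernel)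
def c10513 : PP 8 4 T 0x400100002002000000000000410001100000000000000000000040000000000000080 := rS 0x79163a84ce63b (k4 c4403 c1021 c4401 c498 (k2 c4481 c10445 (k1 c4416 k0))) (by decide +kernel)
def c10514 : PP 8 4 T 0x400001002002000000110100100001000100000014154020000040040004600010080 := rS 0x40a6d0648572fd4710438bca253238b452c73b984f6790ba14be9f5dc31a62515ab60a310102c0a6d (k8 c4993 c10382 c534 c7039 c6830 c10512 c6230 c227 (k8 c313 c5695 c4467 c4825 c4384 c10439 c10110 c4431 (k8 c500 c4055 c617 c1112 c4289 c4402 c4286 c4404 (k8 c4290 c4435 c4432 c10041 c4478 c4337 c8925 c7769 (k4 c8998 c9087 c869 c9324 (k1 c6745 k0)))))) (by decide +kernel)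
def c10515 : PP 8 4 T 0x420000002002000000010000110001104100000004508020000000040000600000080 := rS 0x412fd36ae55c2082531d8b5a66d3b9e42e310102c0abb (k8 c4825 c10382 c534 c7039 c6830 c4431 c500 c1112 (k8 c4993 c5695 c4286 c4403 c4290 c4433 c4479 c1613 (k4 c4542 c869 c5760 c10260 (k1 c9087 k0)))) (by decide +kernel)
def c10516 : PP 8 4 T 0x420000000002000040000100100001000101001014900020000000040000600000088 := rS 0x825fa6d02773d9b54abb (k8 c4825 c4385 c4993 c4055 c1112 c1922 c1968 c5760 (k2 c6745 c9087 k0)) (by decide +kernel)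
def c10517 : PP 8 4 T 0x400001002002000000000100100001100100000014150020000040040004600010080 := rS 0x18d92c549ac95a7b829450f0835a14bf0c129e42e0205815a66d (k8 c4993 c5695 c10382 c534 c7039 c4431 c500 c313 (k8 c4467 c10439 c10110 c10516 c4479 c4440 c4435 c4076 (k8 c4055 c6230 c10513 c1124 c1250 c634 c10515 c10514 k0))) (by decide +kernel)
def c10518 : PP 8 4 T 0x80200000008 := rS 0xa83c (k2 c314 c226 (k1 c9050 k0)) (by decide +kernel)
def c10519 : PP 8 4 T 0x400001002002000000000000000001000140000014100020000040110004200010081 := rS 0x420c86b4caf46eb142c52185f16b4cda251199cea133c85ce63b158081605 (k8 c10382 c534 c7039 c10518 c4403 c1021 c4431 c500 (k8 c4401 c498 c5084 c833 c313 c4993 c5695 c4286 (k8 c10439 c4467 c10510 c10110 c4350 c4386 c4354 c10511 (k4 c10516 c10517 c4479 c9678 k0)))) (by decide +kernel)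
def c10520 : PP 8 4 T 0x400001002002000000000000000001001100001014100020000000111048000010001 := rS 0x1549f56c150e65532be114535a957c9a3ea05060c5ea1576b12f03e28a91b9761a4b1785c66d12894c8e2d14b4c0a77309ecda67 (k8 c5084 c4993 c4055 c617 c1112 c10382 c5695 c4402 (k8 c4286 c4404 c4290 c4435 c4298 c4294 c4431 c4432 (k8 c4434 c4324 c807 c321 c974 c4538 c239 c4477 (k8 c8612 c9034 c10079 c4354 c4463 c4570 c1382 c1291 (k8 c6745 c2122 c1971 c1968 c4399 c7782 c9441 c7137 (k4 c9678 c4440 c4076 c6230 (k2 c6237 c2112 (k1 c2013 k0)))))))) (by decide +kernel)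
def c10521 : PP 8 4 T 0x400001002002000000000000000001001140000004100000000000110000050010000 := rS 0xb80c07930326b54c21351952a14850c5397c4e2b189e446250101802200492c5e17278cda60b029dcc271479ecda58 (k8 c10507 c4993 c4055 c10456 c537 c617 c1112 c10382 (k8 c534 c5695 c4294 c4297 c4431 c4432 c4434 c1105 (k8 c4466 c487 c10463 c7039 c313 c833 c500 c6830 (k8 c10518 c10520 c10439 c4558 c4467 c10519 c10110 c4385 (k8 c4446 c4567 c4482 c866 c1968 c4436 c2111 c244 (k2 c4463 c8696 (k1 c1287 k0))))))) (by decide +kernel)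
def c10522 : PP 8 4 T 0x2000001000000000040040040000001000101185415505400000000000000000410000 := rS 0x14a838603cbaa7 (k4 c4532 c1458 c1455 c4477 (k2 c4570 c4385 (k1 c9322 k0))) (by decide +kernel)
def c10523 : PP 8 4 T 0x400100002002000000000000400001000000000000150004000040000000000000080 := rS 0x13275099cc76ad (k4 c6230 c4403 c1021 c4401 (k2 c498 c10508 (k1 c10513 k0))) (by decide +kernel)
def c10524 : PP 8 4 T 0x2400101002002000000000040100001000101100014154020000041110000000010080 := rS 0x578c53483079f992c58bac95a2b880bc2e51298ec7e2963b4c0a573b9ecdabd (k8 c4354 c4993 c4055 c1112 c63 c10382 c5695 c4289 (k8 c4402 c4288 c4403 c4290 c4435 c4431 c4432 c4478 (k8 c4191 c6230 c10523 c4358 c1250 c634 c8525 c1455 (k4 c4570 c6745 c1966 c869 (k1 c7769 k0))))) (by decide +kernel)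
def c10525 : PP 8 4 T 0x400001002002000000000000000001000500000004100020000040110000090010080 := rS 0x5e4f9f890b94ab24cc7da18f60a8143c210a65319ac00793a85ca247098b42a296395cb677309c4f66d4b8fc4eb15d92d6e3b5ac506ed3 (k8 c5695 c273 c4470 c4389 c4403 c7094 c4434 c9034 (k8 c8612 c353 c4288 c1193 c4993 c4055 c537 c617 (k8 c1112 c93 c63 c4289 c4402 c4284 c4286 c4401 (k8 c4404 c4435 c4431 c498 c500 c1098 c492 c754 (k8 c490 c5976 c4479 c10041 c4439 c4076 c8472 c8226 (k8 c8221 c10524 c2612 c856 c4964 c8419 c4483 c1663 (k2 c10522 c659 k0))))))) (by decide +kernel)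
def c10526 : PP 8 4 T 0x2402000002000000040000040100001200101004410000020000040000000000000200 := rS 0x2097e9b20af50219 (k8 c4436 c4439 c4354 c4433 c104 c1133 c6745 c9673 k0) (by decide +kernel)
def c10527 : PP 8 4 T 0x2400100002002000000000040510001000101000110500020000041000000000000208 := rS 0x55abcc492392661031178cda2d3029dcf66d (k8 c4993 c4055 c1112 c10382 c5695 c4298 c4294 c4432 (k8 c229 c4479 c10526 c10445 c1109 c1110 c1779 c1613 (k1 c5654 k0))) (by decide +kernel)
def c10528 : PP 8 4 T 0x2400100002002000000000040500001200101000110110020000041000000000000208 := rS 0x8c30e12724d904a63b1fb4cae5b05814ee7b369a95a67 (k8 c656 c6230 c10527 c4993 c4055 c1112 c10382 c534 (k8 c93 c63 c5695 c4288 c4403 c4290 c4433 c104 (k4 c10508 c10526 c3119 c5528 (k1 c9828 k0)))) (by decide +kernel)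
def c10529 : PP 8 4 T 0x2400100002002000000000040500001000101000114110020002041000000100010208 := rS 0x412ad029a07abd83196498924c3392655a2b0d85c82d12894c762d1f8a5a6773d9b57a67 (k8 c656 c4354 c4993 c4055 c1112 c5695 c4402 c4288 (k8 c4286 c4403 c4290 c4435 c4298 c4433 c4431 c4292 (k8 c227 c6230 c10528 c10445 c3119 c1109 c1110 c1731 (k8 c9828 c3552 c1779 c243 c4488 c7000 c1972 c8938 (k1 c4570 k0))))) (by decide +kernel)
def c10530 : PP 8 4 T 0x400001002002000000000000000001000540000004100020000040110000090010000 := rS 0x17ccba5935880e8cb05860d8b320e6644297d9eb924414fb433a8f4040800acc0e4122b44a2532384c7ec72b96c16053b9c4f66d1089d62bb25adc76bd5ac506ed3 (k8 c5695 c273 c4470 c4389 c4354 c4403 c7094 c4434 (k8 c9034 c8612 c353 c86 c4993 c4055 c537 c1112 (k8 c10382 c534 c93 c63 c4289 c4288 c4401 c4404 (k8 c4290 c4435 c4298 c4296 c4433 c10525 c10182 c486 (k8 c4462 c4461 c2131 c10453 c8226 c8221 c10482 c4559 (k8 c4548 c1790 c9869 c10110 c10529 c1649 c9061 c4481 (k8 c506 c4362 c4420 c4982 c4463 c2115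 c4569 c4429 (k2 c1756 c9891 (k1 c9033 k0))))))))) (by decide +kernel)
def c10531 : PP 8 4 T 0x400001002002000000000000000001001140000004100000000000110000010010000 := rS 0x8201832001800c841e02a3cda58 (k8 c10507 c4993 c10456 c10382 c10521 c10530 c2132 c276 (k4 c4461 c9671 c486 c8579 (k1 c10051 k0))) (by decide +kernel)
def c10532 : PP 8 4 T 0x1400001002002000000000010600001040040000004150020000041000005000011208 := rS 0x4c9ecda233f839a6c7 (k8 c4289 c5695 c4463 c1455 c793 c4993 c4055 c10440 (k1 c10446 k0)) (by decide +kernel)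
def c10533 : PP 8 4 T 0x400201002002000000000010000000040040005501100000000041000005000011008 := rS 0xa8aa23 (k4 c793 c4406 c10437 c226 k0) (by decide +kernel)
def c10534 : PP 8 4 T 0x400001002002000000000000000001001140000004100000000000010000010010000 := rS 0x986246582c38b414e6af321d5663d0408c86794b81c046706aed4a5f5389c3c01584304ab95f8862a3820915a251298ec7ed30295cee71479ecda58 (k8 c10507 c4993 c4055 c10456 c537 c1112 c63 c10382 (k8 c5695 c4288 c4403 c4290 c4435 c4298 c4296 c4433 (k8 c10531 c4348 c361 c1240 c1201 c281 c4486 c4480 (k8 c10427 c4466 c4324 c4330 c4382 c4385 c4825 c4865 (k8 c5084 c4461 c1098 c1193 c629 c365 c793 c222 (k8 c2131 c10182 c10453 c10532 c1776 c1649 c10533 c4481 (k4 c4362 c4420 c4982 c2115 (k2 c10455 c1136 k0)))))))) (by decide +kernel)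
def c10535 : PP 8 4 T 0x2400000000002000040000040100001000100501014100120000000000404600000090 := rS 0x1ad4a858629cbe77309ecda02058946ebd (k8 c4354 c4386 c313 c534 c7039 c4993 c4055 c617 (k8 c1112 c10439 c4558 c4467 c10110 c4385 c10516 c9322 k0)) (by decide +kernel)
def c10536 : PP 8 4 T 0x400000002002000000000000000001001140000004100000000000010000050010000 := rS 0xaa4fab4cb0543a98d6af842968a9a5f215530d132f46f14158c4f267118080c01100245e17208cda251298b452d305814ee713d9b4b05d58a0c1e7d5da05f88f (k8 c10456 c10534 c4380 c10310 c4379 c4376 c4306 c4304 (k8 c4377 c10507 c4993 c4055 c537 c1112 c10382 c534 (k8 c5695 c4402 c4286 c4290 c4435 c4298 c4294 c4433 (k8 c4431 c4432 c1105 c4466 c487 c10463 c7039 c833 (k8 c5084 c500 c6830 c10518 c10448 c4386 c4354 c10535 (k8 c4324 c974 c10079 c9037 c6745 c4399 c1404 c7782 (k8 c9441 c1968 c4490 c4440 c4076 c9678 c6230 c6237 (k2 c2112 c2013 k0)))))))) (by decide +kernel)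
def c10537 : PP 8 4 T 0x100002002000000000000040000000000000000154000000000001000000000000 := rS 0x15ab6202f2894c5205 (k8 c10382 c4402 c4290 c4435 c4432 c4478 c6230 c4191 (k1 c7769 k0)) (by decide +kernel)
def c10538 : PP 8 4 T 0x400002002002000000000040000001000540000004100020000000010000090010080 := rS 0x9e242e52a662f0315e4d1231462a6590f486a952d162f050ca697cb55ea1e10b742c50ca63358e400733c9d4961b1785c9e412891c263b1685452d32b96cee61389ecda5d58a05060f4b8fc4e37 (k8 c273 c353 c4288 c1193 c4376 c4306 c4380 c4304 (k8 c4377 c4993 c4055 c537 c617 c1112 c93 c63 (k8 c5695 c4402 c4284 c4286 c4403 c4401 c4404 c4435 (k8 c4433 c4297 c4431 c4432 c4292 c4434 c498 c500 (k8 c1021 c1098 c8383 c492 c754 c490 c10427 c5976 (k8 c7094 c4479 c10041 c4354 c4389 c9037 c6745 c4436 (k8 c4076 c8859 c4399 c1404 c866 c8579 c8472 c4481 (k8 c8517 c1966 c1250 c4558 c284 c869 c2108 c1367 (k4 c10537 c856 c4964 c8419 (k2 c659 c1663 k0)))))))))) (by decide +kernel)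
def c10539 : PP 8 4 T 0x400000002002000000100040500001000140010014100420000000150000080010208 := rS 0x329216b055bc508e3b1fb1da657109d47a433d9dd0a6d (k8 c4993 c10110 c1112 c4055 c2132 c2131 c10453 c86 (k8 c63 c5695 c4289 c4288 c4403 c4404 c4470 c7094 (k4 c10482 c4389 c4559 c9061 (k1 c10529 k0)))) (by decide +kernel)
def c10540 : PP 8 4 T 0x400000002002000000000000000001001140000004100000000000010000010010000 := rS 0x57c44c82b2aab6086a39a1d12c28bb04f3184cae57f151c2953ea72fa8618751288c7a430119c10015981c6e274b879767d07a0592b12ebf0f671309dc166d2d95cb02f20914a63b1fb4c0a8f (k8 c10456 c10382 c5695 c4288 c4403 c4290 c4296 c4433 (k8 c4432 c10507 c63 c93 c4993 c534 c1112 c617 (k8 c537 c4055 c10534 c4377 c4304 c4305 c4380 c4376 (k8 c4379 c10310 c10536 c1193 c353 c273 c10538 c10182 (k8 c486 c4462 c656 c4461 c2132 c2131 c792 c224 (k8 c10453 c4467 c7717 c10439 c4558 c4384 c4385 c10539 (k8 c4348 c1240 c1201 c10452 c10455 c4447 c4450 c9283 (k8 c9828 c9942 c10061 c3119 c10423 c4481 c2048 c4406 (k4 c226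 c10454 c4412 c1776 (k1 c5849 k0)))))))))) (by decide +kernel)
def c10541 : PP 8 4 T 0x400000002002000000000000000001001140000004100000000000010000010000000 := rS 0x2968a4c21afd7a9b5da9e28a98695872372e09862020082812070812c9e4119915a605 (k8 c10382 c5695 c4296 c4294 c4433 c4297 c4434 c10540 (k8 c609 c345 c4462 c567 c4461 c2304 c342 c343 (k8 c2267 c2319 c303 c4324 c974 c4538 c812 c9034 (k8 c804 c4354 c5760 c4567 c2114 c4451 c1934 c4490 k0)))) (by decide +kernel)
def c10542 : PP 8 4 T 0x2000000000000000000002100000000000000000000010000010000080 := rS 0x16c405d2c0443e57 (k8 c1017 c3165 c609 c10458 c808 c4466 c93 c7022 k0) (by decide +kernel)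
def c10543 : PP 8 4 T 0x400000002002000000000000000001002000000004100010000000000000200010040 := rS 0x26864869b07958145b428c4120d011b44c3600b4c0aa9 (k8 c978 c10382 c5695 c2892 c887 c886 c5028 c4461 (k8 c1408 c2145 c2272 c10079 c839 c4462 c4476 c305 (k4 c804 c4567 c308 c324 (k1 c10080 k0)))) (by decide +kernel)
def c10544 : PP 8 4 T 0x400000002002000000000000000001002100000004100010000000000000010010040 := rS 0x30800b4381380cae1e10b4c0a8f (k8 c130 c10382 c5695 c10543 c4466 c1066 c223 c353 (k4 c1153 c4476 c4461 c7422 (k1 c888 k0))) (by decide +kernel)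
def c10545 : PP 8 4 T 0x2000000000000020000000000000000000050 := rS 0x120b (k2 c534 c3167 (k1 c4462 k0)) (by decide +kernel)
def c10546 : PP 8 4 T 0x400000002002000000000000000001000140000004100000000000010000010000000 := rS 0x1b880041f0089420590388d2005 (k8 c10382 c10541 c768 c10542 c10545 c10544 c278 c607 (k4 c1154 c4461 c4466 c2267 (k1 c887 k0))) (by decide +kernel)
def c10547 : PP 8 4 T 0x2000000000000000000002000000000000000000000000000000010000000 := rS 0xf8846645 (k4 c4296 c4294 c966 c1232 (k1 c4466 k0)) (by decide +kernel)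
def c10548 : PP 8 4 T 0x400001002002000000000000000001001140040200110004000040150004200000200 := rS 0x19b452652d96485fab9469831b44a647168a58e2b30a7d770c1288cee5d2d23e28d356c146202029b4ce01 (k8 c9380 c5084 c5028 c10382 c4461 c6830 c10512 c6230 (k8 c5695 c4470 c4388 c231 c840 c7751 c833 c313 (k8 c4467 c4825 c4384 c878 c10518 c4289 c4402 c4286 (k8 c4404 c4290 c4298 c1689 c10469 c8633 c10537 c1133 (k4 c4200 c8140 c4428 c10063 (k2 c4451 c2062 (k1 c4573 k0))))))) (by decide +kernel)
def c10549 : PP 8 4 T 0x400001002002000000000000400001001140000000110000000040150004200008200 := rS 0x1307364121723d3aab60a471f9fd8e6d338c4040102adc765705ad628d3 (k8 c5695 c4470 c4389 c304 c799 c4403 c7094 c10382 (k8 c9380 c4461 c6830 c5084 c5028 c4289 c1455 c4288 (k8 c4404 c10512 c6230 c10548 c235 c5280 c2113 c243 (k2 c1730 c10445 (k1 c10508 k0))))) (by decide +kernel)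
def c10550 : PP 8 4 T 0x400001002002000000000000000001001140000000100010000040150004200008040 := rS 0x248f572554ac44c8b5042de280b238ec7ec769acd2e2d158080205 (k8 c10382 c9380 c4461 c10518 c4286 c926 c10182 c5695 (k8 c4289 c4288 c4403 c4404 c304 c4470 c7094 c4462 (k8 c4389 c10549 c4412 c1697 c1646 c6781 c7465 c242 (k1 c2113 k0)))) (by decide +kernel)
def c10551 : PP 8 4 T 0x400000002002000000000000000001001140000008100000000040010004200010000 := rS 0x110ad2ab3d0e646418e2305512a11e192493412b9054546c4b0d85c9e3368944a647098b42a2958bf4e2592f81c727f0731cda67158080205538bd3ea58634c4a23 (k8 c833 c313 c5695 c4467 c4385 c4384 c4432 c4558 (k8 c10382 c9380 c4461 c10518 c5084 c5028 c4289 c8928 (k8 c1455 c1074 c1019 c1377 c1107 c94 c4378 c123 (k8 c4402 c4284 c4286 c4401 c4404 c4290 c4435 c4298 (k8 c4294 c4297 c4431 c4292 c4434 c10550 c4386 c1344 (k8 c1471 c233 c324 c2247 c308 c10419 c4639 c4200 (k8 c10051 c4337 c7471 c5380 c4478 c10041 c1792 c1726 (k2 c949 c2109 (k1 c557 k0))))))))) (by decide +kernel)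
def c10552 : PP 8 4 T 0x400000000000000000000000000001000000000001100010000080001000000000008 := rS 0x24b4192bc21346b (k8 c7466 c4567 c4479 c804 c4436 c4476 c236 c839 k0) (by decide +kernel)
def c10553 : PP 8 4 T 0x400000000000000000000000000000000000000001102000020000001000000008000 := rS 0x849ac30a5 (k4 c1934 c244 c621 c4436 (k1 c4479 k0)) (by decide +kernel)
def c10554 : PP 8 4 T 0x400000002002000000000000040800000000000001150400000000001040000000000 := rS 0x2a93ead828bc66d12894c5a29 (k8 c4402 c4286 c4290 c4435 c4298 c4294 c4432 c10512 (k4 c6230 c6233 c2112 c2013 k0)) (by decide +kernel)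
def c10555 : PP 8 4 T 0x400000002002000000000000000001001140000008100000000000010000200010000 := rS 0x19210a635abd4b455f1357660548de1a26218ac6202339b4024b198b40a592f839a639 (k8 c1074 c5695 c8928 c1377 c1107 c10382 c4286 c4294 (k8 c4434 c9380 c5028 c5084 c4461 c6830 c10518 c10552 (k8 c10551 c4324 c321 c974 c239 c9034 c10553 c9891 (k8 c4399 c1404 c9441 c621 c4568 c4479 c10554 c9678 k0)))) (by decide +kernel)
def c10556 : PP 8 4 T 0x400001002002000000000000000001000100004001514500000040150000180018000 := rS 0x495c8f54295889995f0d122a462a58caf9344d828650f082891d0a4f3fb1d2e3f058144ebb25adc768f5ead628d3 (k8 c5695 c4470 c4389 c4354 c4388 c4403 c7094 c4434 (k8 c9034 c353 c10382 c270 c4288 c1193 c4289 c1455 (k8 c4297 c1495 c4404 c4435 c4479 c10041 c4436 c4076 (k8 c244 c9123 c9891 c4448 c1971 c1966 c866 c10485 (k8 c4381 c9441 c10537 c4334 c5290 c897 c275 c6781 (k2 c283 c7430 k0)))))) (by decide +kernel)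
def c10557 : PP 8 4 T 0x400000002002000000000000000000000100000008100000000000010000110010000 := rS 0xc10c411317ea74d9b0465d21af51e7b8a2ecca63358206e002d09c16032b878961720914262902a75fa0d2c97c0e3942839a64f (k8 c4297 c5695 c8928 c1495 c1074 c1019 c1377 c1107 (k8 c1289 c4378 c10547 c10382 c4402 c4401 c4296 c4433 (k8 c4431 c4434 c4466 c1066 c223 c270 c353 c4476 (k8 c4461 c1344 c4462 c492 c754 c490 c9034 c4470 (k8 c1224 c4388 c4354 c10488 c840 c1327 c10556 c5506 (k4 c905 c5760 c9123 c9674 (k2 c9728 c640 (k1 c4326 k0)))))))) (by decide +kernel)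
def c10558 : PP 8 4 T 0x400000002002000000000000000001000140000008100000000000010000200010000 := rS 0x158c090 (k4 c10555 c1076 c1075 c2885 k0) (by decide +kernel)
def c10559 : PP 8 4 T 0x400000002002000000000000000000000140000000100000000000010000010010000 := rS 0x80dc9d (k4 c10547 c10546 c10557 c10558 k0) (by decide +kernel)
def c10560 : PP 8 4 T 0x400000002002000000000000000001000100000008100000000000010000200020000 := rS 0x52d1498bf4da9c86562e098620a1c808da09008cda6052c81c6eb1 (k8 c123 c319 c1019 c1107 c10382 c5695 c4294 c9380 (k8 c2305 c5028 c4461 c1073 c4462 c2304 c342 c343 (k8 c303 c10552 c812 c804 c5760 c10063 c4451 c1934 (k1 c4568 k0)))) (by decide +kernel)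
def c10561 : PP 8 4 T 0x400000002002000000000000000000000140000000100000000000010000010000000 := rS 0x8001684e0b0195c3c210801cb2b13734c0a9d (k8 c10547 c10382 c5695 c10546 c123 c1107 c1019 c10559 (k8 c10560 c4466 c1066 c223 c270 c353 c4476 c4461 (k2 c4462 c9117 k0))) (by decide +kernel)
def c10562 : PP 8 4 T 0x800000002002000000000000000000000000000000000000000000000045400000000 := rS 0x24b368a9f51b2c990c5392c9e4763b4d52a5a5ab1563328abca631148b45ed1 (k8 c4298 c4432 c4286 c4402 c4441 c4290 c4346 c4435 (k8 c4294 c4445 c2112 c4458 c4444 c4345 c5695 c4289 (k8 c4404 c4297 c4434 c4558 c4467 c2111 c7113 c9064 (k4 c4384 c4451 c2062 c4573 (k1 c4200 k0))))) (by decide +kernel)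
def c10563 : PP 8 4 T 0x100000002002000000000000044000040044000000444000000040001040000000808 := rS 0x892a9907b054a864ac1b1785c66d12894c2615 (k8 c4284 c4401 c4290 c4435 c4298 c4294 c4431 c4432 (k8 c4292 c303 c308 c7488 c10051 c7465 c4478 c306 (k2 c556 c2109 k0))) (by decide +kernel)
def c10564 : PP 8 4 T 0x40000000000002000200002002000000400000000000000044000004000000000040150000000000200 := rS 0x2e492ce66d157e4ca19e47a18849549e4168944a6471d8fcf6455db4c96b5 (k8 c4389 c4434 c5695 c9034 c4296 c1224 c4288 c4403 (k8 c4404 c4290 c4435 c4298 c4433 c4297 c4406 c4076 (k8 c5546 c234 c1958 c8226 c9686 c7782 c4451 c2062 (k4 c4495 c4573 c1525 c8983 k0)))) (by decide +kernel)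
def c10565 : PP 8 4 T 0x40000000000000100100002002000000000000000000000044000000404080000000000040000000001 := rS 0x21289320b40a67 (k4 c5084 c10382 c4286 c4478 (k2 c2558 c9678 (k1 c4485 k0))) (by decide +kernel)
def c10566 : PP 8 4 T 0x40000000000000000200002002000000400000000000001044000004000000000040110008000000200 := rS 0x22837 (k2 c321 c4538 (k1 c10564 k0)) (by decide +kernel)
def c10567 : PP 8 4 T 0x100202002002000000001010000010140944004000055080000041000008000000000 := rS 0xecc461a553c750d85c8245298ec2a3f518b4be7384944f218 (k8 c5546 c1958 c4435 c4076 c4408 c577 c4286 c934 (k8 c4288 c4284 c4403 c4290 c4296 c4433 c4431 c4292 (k4 c10396 c4536 c1699 c4958 (k2 c4503 c8845 (k1 c1096 k0))))) (by decide +kernel)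
def c10568 : PP 8 4 T 0x100000002002000000000000044000101144000004404110000040011008200000040 := rS 0x62b0ce895323f142615ca3a2a381e860ab042f968f608059048a3b1f99e96c14bc3596a3560ac0401028cca253148b45ed1 (k8 c4298 c4432 c4286 c4402 c4290 c4435 c4294 c10382 (k8 c9380 c4461 c10518 c2112 c934 c2027 c4324 c926 (k8 c1987 c4458 c5084 c4288 c4403 c4296 c4433 c10563 (k8 c4462 c1224 c231 c577 c10565 c4406 c5546 c234 (k8 c10566 c4348 c361 c1201 c6989 c2851 c4477 c10567 (k4 c1697 c578 c4958 c1784 (k1 c4503 k0))))))) (by decide +kernel)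
def c10569 : PP 8 4 T 0x100000000002000040000000400000011100000004004000000000010008200010808 := rS 0x414ca7e5024d3f4364adce2568a3f0720d588ecce0186a8c6eb91e8ad2e2d (k8 c4286 c926 c10518 c7465 c6781 c321 c934 c4324 (k8 c9380 c5084 c4403 c622 c569 c358 c10457 c7779 (k8 c303 c7095 c7094 c4305 c8226 c7077 c7994 c4489 (k4 c7058 c1736 c4313 c4478 k0)))) (by decide +kernel)
def c10570 : PP 8 4 T 0x100000000002000040000010400000051000040000044401000000110048000010008 := rS 0xfd30a4c1e9f2450d6a715bac6288f238ee1a5d518b46e3d (k8 c7465 c321 c4286 c934 c807 c4324 c4403 c4404 (k8 c847 c4538 c8612 c7094 c4135 c7420 c8226 c7430 (k4 c1662 c242 c7994 c879 (k2 c7058 c4477 k0)))) (by decide +kernel)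
def c10571 : PP 8 4 T 0x2002000000000000000000001140000004100010000000010000210010000 := rS 0x10aa730afc1f151c156087f2f9e0b40805ae52abd61c6484b303915a66d549ad32a58898d2e6743a7696ac558cca2af298c4522d17b44ba37130ac04010288c4b12 (k8 c10561 c313 c833 c10382 c9380 c4461 c10518 c10562 (k8 c321 c807 c4298 c4432 c4286 c4402 c4441 c4290 (k8 c4346 c4435 c4294 c4445 c2112 c4458 c10547 c9925 (k8 c5084 c926 c5654 c4498 c4444 c4443 c4442 c4345 (k8 c4342 c5695 c4296 c10458 c5025 c10568 c4446 c2054 (k8 c2015 c861 c6781 c10569 c4462 c231 c237 c577 (k8 c6629 c10565 c4406 c10570 c4348 c4528 c1240 c6989 (k2 c8272 c603 (k1 c8696 k0))))))))) (by decide +kernel)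
def c10572 : PP 8 4 T 0x1000000000000000000000020000020040001400000000000000000000000000000 := rS 0x3dc65849a (k4 c860 c861 c4448 c1212 (k1 c4482 k0)) (by decide +kernel)
def c10573 : PP 8 4 T 0x40200000000000000000000000000000000000000000000054000 := rS 0x1afd (k2 c4305 c506 (k1 c4463 k0)) (by decide +kernel)
def c10574 : PP 8 4 T 0x2110200002002000000100000120000000044001554000000000000000000200000000 := rS 0x1290928b4d2e2d (k4 c4286 c926 c5695 c4435 (k2 c4076 c9358 (k1 c10572 k0))) (by decide +kernel)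
def c10575 : PP 8 4 T 0x2002000000000000000000001140000004100000000000010000210010000 := rS 0x3eaccfe6482b256eb18a0e51e750303ce209399e4c277059606e131db4cd7113187d2e6743a7558ab199455e53188a45ed186975462615808020511896242d (k8 c4286 c10561 c313 c833 c10382 c9380 c4461 c10518 (k8 c10562 c934 c807 c4324 c4298 c4432 c4402 c4441 (k8 c4290 c4346 c4435 c4294 c4445 c2112 c10547 c9925 (k8 c5084 c926 c86 c5654 c4498 c4442 c5695 c4403 (k8 c4401 c321 c10571 c534 c1112 c617 c540 c1110 (k8 c1105 c7014 c4046 c4462 c498 c7036 c361 c4486 (k8 c8612 c7094 c10573 c10574 c4478 c555 c553 c1651 (k1 c5124 k0)))))))) (by decide +kernel)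
def c10576 : PP 8 4 T 0x2002000000000000000000000140000004100000000000010000210010000 := rS 0x19255079f492b1052d47a5604834b2952d8d80f1547a41465d132b056023388c4a97008bc66d12894c2629698155e3155c46242d (k8 c4286 c10561 c4498 c4445 c4441 c4346 c10382 c5695 (k8 c4402 c4401 c4290 c4435 c4298 c4294 c4432 c9380 (k8 c926 c313 c833 c5084 c4461 c10518 c2112 c10562 (k8 c807 c934 c10575 c130 c4352 c10542 c887 c2894 (k8 c2897 c10545 c1408 c2145 c4476 c7465 c7420 c4462 (k4 c1148 c322 c8975 c305 (k2 c306 c10573 (k1 c10107 k0)))))))) (by decide +kernel)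
def c10577 : PP 8 4 T 0x800200002002000000000000000000000140000014100000000000050000080010080 := rS 0x7ec59723d4aab2128943accce7f2891d8e6d35c445a63558c45ed102abc66971f9d4ee413c85ce6650004d6e3b5ac5072d3 (k8 c5695 c8383 c4470 c4389 c4403 c7094 c4401 c1098 (k8 c490 c1021 c4431 c500 c4433 c1023 c498 c4288 (k8 c1193 c4294 c4346 c10382 c4298 c4432 c4441 c4445 (k8 c5654 c4286 c4498 c4442 c4342 c4289 c4404 c4435 (k8 c4313 c4310 c4312 c4410 c4314 c4076 c2120 c10572 (k4 c275 c6781 c8466 c7787 (k1 c9155 k0))))))) (by decide +kernel)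
def c10578 : PP 8 4 T 0x800000002002000000000000000000000140000004100060000000050000080010080 := rS 0xc1629ed86b9492ca2e951e99a0a4122b44a2531db4cd69955c445a5702a5c7e4318824ea393284ce200 (k8 c1098 c2431 c4401 c490 c8383 c498 c30 c4441 (k8 c276 c4288 c1193 c10382 c1066 c4286 c4498 c4445 (k8 c4443 c4442 c5695 c4403 c4290 c4435 c4298 c4296 (k8 c4433 c10577 c5056 c9051 c856 c5282 c8996 c657 (k4 c4964 c4958 c8480 c1250 (k2 c1660 c2115 k0)))))) (by decide +kernel)
def c10579 : PP 8 4 T 0x2002000000000000000000000140000004100000000000010000010010080 := rS 0x10a1944310fec161a8524b24a8f4cd053e83d02c92fa8e1afc069751c49124546c7132984005b2c1cc124b0d85c9e4122b44a253098ec2ac769a65571116a5c7e430f0846312 (k8 c10561 c4441 c10576 c4466 c276 c4288 c1193 c4286 (k8 c4498 c4445 c4443 c5695 c4289 c4284 c4403 c4401 (k8 c4290 c4435 c4298 c4296 c4433 c4297 c4431 c4292 (k8 c4434 c30 c1021 c10458 c495 c1098 c617 c490 (k8 c2431 c10578 c4386 c272 c2203 c273 c6960 c1407 (k8 c8563 c4381 c1463 c1425 c7308 c4380 c4376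 c4379 (k8 c9269 c5056 c9051 c856 c8996 c657 c2850 c4958 (k4 c1660 c5121 c9770 c1251 (k2 c2038 c684 (k1 c8569 k0)))))))))) (by decide +kernel)
def c10580 : PP 8 4 T 0x800200002002000000000000000000000040000004110000000000150000080000200 := rS 0x613298ac1a59d9583d44a1cce4122944a63b369acc6ab17b440aaf19a5c7e4318af628d3 (k8 c5695 c4470 c4354 c4441 c276 c4288 c1193 c4294 (k8 c4346 c10382 c4298 c4432 c4445 c5654 c4442 c4342 (k8 c4403 c4290 c4435 c4296 c4433 c4310 c4410 c4314 (k8 c10472 c2120 c10482 c4458 c1987 c1096 c10564 c2115 (k1 c2028 k0))))) (by decide +kernel)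
def c10581 : PP 8 4 T 0x2002000000000000010000040002004010080000000041000000100000400 := rS 0x1e61275 (k4 c593 c4321 c602 c10399 k0) (by decide +kernel)
def c10582 : PP 8 4 T 0x10800000002000000040000100000000000001004000100500000040000005000010000 := rS 0x1f86007a9c5e6d548c4d6a5 (k8 c4444 c4442 c4441 c4345 c4342 c4432 c4558 c10484 (k2 c8696 c10485 (k1 c4302 k0))) (by decide +kernel)
def c10583 : PP 8 4 T 0x800000002002000000000100010000040000004010180500002041000004100010400 := rS 0x798192a0518910a2a178cda25114b1da6af18aae32c34ac445a991d8fca641 (k8 c4433 c4290 c4288 c4403 c4443 c4286 c4498 c5290 (k8 c4958 c9828 c4445 c4441 c4346 c5695 c4289 c4402 (k8 c4435 c4298 c4294 c4432 c2112 c10581 c10582 c1463 (k4 c283 c633 c896 c243 (k1 c7383 k0))))) (by decide +kernel)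
def c10584 : PP 8 4 T 0x800000002002000000000000000000000140000004100010000000150000180010200 := rS 0x3368a4c5fb2d88c1a5ab19f19a1921863d5c9d52a6682ad4e2bd5bc51764b27905a253238ed8ed34cc445a971f82c4e43189ec8a5d2f968ae650000c0a13 (k8 c4401 c10382 c223 c4461 c490 c1066 c4476 c577 (k8 c841 c4296 c1224 c4441 c276 c353 c270 c4288 (k8 c1193 c4286 c4498 c4443 c5695 c4289 c4403 c4404 (k8 c4290 c4298 c4433 c4297 c4434 c9034 c4470 c7094 (k8 c4354 c4387 c4389 c10580 c5056 c5290 c593 c4964 (k8 c275 c4958 c4559 c8226 c9828 c1790 c10583 c4458 (k8 c1987 c4759 c1756 c9033 c2114 c4451 c2062 c4495 k0))))))) (by decide +kernel)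
def c10585 : PP 8 4 T 0x1000000000000000200000000000041100000045410000040000001515500000400000005000000000 := rS 0x67d0d974b512b1f8893ea1cce7f (k8 c4313 c4310 c4410 c4409 c4314 c8388 c2120 c10398 (k4 c4458 c2026 c4393 c1523 (k1 c4495 k0))) (by decide +kernel)
def c10586 : PP 8 4 T 0x800000002002000000000000000000001040000004100480000000200004180010202 := rS 0x764446558c31e9d52a66829e59b09a2a10c2a750b2562255f83e2a412991c76d336aa4d69952c445a63558bda2af19a5c7e0b0290c627b22974ca13 (k8 c4401 c490 c841 c4296 c1224 c4441 c276 c10382 (k8 c270 c4288 c1193 c4294 c4346 c4298 c4432 c4445 (k8 c5654 c4286 c4498 c4444 c4443 c4442 c4345 c4342 (k8 c5695 c4403 c4404 c4290 c4433 c4348 c4528 c1240 (k8 c281 c1146 c10573 c7717 c4558 c9302 c8696 c4397 (k8 c4321 c1482 c603 c10585 c5056 c5290 c593 c275 (k4 c4958 c10399 c9828 c8622 (k2 c4482 c2042 k0)))))))) (by decide +kernel)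
def c10587 : PP 8 4 T 0x800000002002000000000000000000001140000004100010000000010000180010200 := rS 0xfd869841c248a8d962392f974005a0195c0a27 (k8 c353 c10382 c1066 c223 c4476 c4461 c841 c577 (k8 c10586 c1145 c10584 c4386 c272 c232 c9302 c4381 (k2 c4376 c4477 k0))) (by decide +kernel)
def c10588 : PP 8 4 T 0x1800000002002000000000000000000040144000004100020000041050004000010440 := rS 0x3f1925c07ad99c850caf188c1844662cc33ac1512952a19054bba288ce24c2fa9d7e251c12c361727904a63b0a8fda66d54a654b1116accf6453b9840279359ccc6ab188bda205578cc0408 (k8 c4462 c1106 c4294 c4346 c10382 c4298 c4432 c4441 (k8 c4445 c5654 c1110 c4442 c540 c486 c617 c1112 (k8 c4296 c1224 c10182 c4286 c4498 c4444 c4443 c4345 (k8 c4342 c5695 c4288 c4284 c4403 c4290 c4433 c4297 (k8 c4431 c4292 c4434 c4470 c7033 c1240 c4558 c10439 (k8 c4871 c536 c4547 c4451 c1974 c10562 c227 c226 (k8 c1694 c556 c4406 c1686 c4958 c4481 c9828 c8845 (k8 c4420 c9460 c4493 c4540 c4321 c8360 c1175 c244 (k4 c8696 c1792 c8560 c4377 k0))))))))) (by decide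 +kernel)
def c10589 : PP 8 4 T 0x2802100002002000000000000400000040044011444020000000041050000000000201 := rS 0x19d192445986754a950548520b44a6471fb1c0a99888b4f6451cadce2b5a18ed126b (k8 c4442 c556 c4403 c8226 c4389 c4387 c4353 c4348 (k8 c4296 c1224 c4286 c4498 c4443 c10382 c4289 c4288 (k8 c4404 c4290 c4298 c4433 c4321 c9678 c5422 c1694 (k4 c1686 c4958 c4481 c4559 (k2 c9828 c9154 (k1 c1790 k0)))))) (by decide +kernel)
def c10590 : PP 8 4 T 0x2002000000000000000000000140000004100020000000010000010010000 := rS 0x30a951884a24c87d82ad56e398a0dc7a870119ce679009dc8253238ed8e9d35c445a63558bda2af19a5c7e27218c624b33d8200e0b0f0840a45 (k8 c4296 c10382 c10576 c4466 c270 c10579 c4462 c1224 (k8 c10182 c10561 c4441 c276 c353 c4288 c1193 c4294 (k8 c4346 c4298 c4432 c4445 c5654 c4286 c4498 c4442 (k8 c10547 c4289 c4403 c4404 c4290 c4433 c1112 c486 (k8 c540 c1110 c656 c1106 c9925 c2131 c2130 c10588 (k8 c4348 c4353 c4389 c10482 c8221 c4478 c556 c10589 (k4 c4482 c4485 c9828 c4459 k0))))))) (by decide +kernel)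
def c10591 : PP 8 4 T 0x2002000000000000000000000140000004100000000000010000010010000 := rS 0x708f30001205a0196410071382cae1e10b4c0b12 (k8 c10561 c10382 c5695 c10576 c4466 c1066 c270 c353 (k8 c10579 c4462 c10590 c223 c4476 c10587 c4461 c888 (k2 c130 c1153 (k1 c7422 k0)))) (by decide +kernel)
def c10592 : PP 8 4 T 0x2002000000000000000000000140000004100000000000010000010000000 := rS 0x7b428a2553eb150a45470d4b8e4ac372e09856200107c020a0481c20511dc445a63558c45ed102abe2433 (k8 c4294 c10561 c4346 c10382 c4298 c4432 c4441 c4445 (k8 c5654 c4286 c4498 c4403 c4435 c10591 c609 c345 (k8 c4462 c567 c270 c4461 c4466 c2303 c342 c343 (k8 c2267 c303 c2319 c926 c4324 c934 c2790 c810 (k4 c623 c7077 c7488 c7962 (k2 c4489 c7465 (k1 c8226 k0))))))) (by decide +kernel)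
def c10593 : PP 8 4 T 0x2002000000000000000000000140000000100000000000010000210010000 := rS 0x3c9de32c24d25170491ec24aa89822d4f65a5bc5010571b82d474b132b056870108c4a9700914a253238ec7e2963a74d7111698d563117b440aaf890ccb2070734c726e (k8 c10592 c1074 c5695 c8928 c1019 c1107 c4294 c10561 (k8 c4346 c10382 c4298 c4432 c4441 c4445 c5654 c4286 (k8 c4498 c4442 c10547 c4289 c4402 c4288 c4403 c4404 (k8 c4290 c4435 c4296 c9380 c926 c313 c833 c4461 (k8 c9925 c10518 c2112 c10562 c4458 c934 c2246 c1344 (k8 c799 c4462 c4470 c7094 c4476 c1224 c4389 c10565 (k8 c4314 c4406 c4076 c234 c242 c2113 c5821 c860 (k4 c861 c4448 c1888 c2056 (k1 c4482 k0))))))))) (by decide +kernel)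
def c10594 : PP 8 4 T 0x800200002002000000000000000000000140000000110000000000150000080008200 := rS 0x764d251707924ab07a1884955128733914a247639b4d7111698d563117b440aaf19a5c7eb71dad628d3 (k8 c5695 c4470 c4389 c4403 c7094 c4288 c1193 c4294 (k8 c4346 c10382 c4298 c4432 c4441 c4445 c5654 c4286 (k8 c4498 c4442 c4342 c4289 c4404 c4435 c4296 c4310 (k8 c4410 c4314 c4406 c4076 c5546 c10472 c2120 c242 (k4 c8961 c2113 c6781 c860 (k2 c10572 c1888 k0)))))) (by decide +kernel)
def c10595 : PP 8 4 T 0x2002000000000000000000000140000000100000000000010000010010000 := rS 0x4b192430d723d50a54cd052ead57a8f32ade287b000206e5a0190c4e0b4b95c3c213fa14720e27904a647098ec7ec769814da314cc46242d2c97c0e6e (k8 c10592 c1019 c1377 c1107 c4286 c10561 c4498 c4443 (k8 c4441 c4342 c10382 c5695 c4289 c4288 c4403 c4401 (k8 c4404 c4290 c4433 c4297 c8928 c1074 c1495 c1455 (k8 c10593 c4466 c1066 c1193 c270 c353 c276 c223 (k8 c4476 c1344 c4462 c4461 c704 c4470 c7094 c490 (k8 c4388 c4354 c4389 c840 c10594 c5056 c5290 c897 (k4 c275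 c6781 c4958 c7430 (k2 c9828 c283 (k1 c10582 k0))))))))) (by decide +kernel)
def c10596 : PP 8 4 T 0x100000002002000000000000044000000100000008004000000000011000200020000 := rS 0x7b424aa7d42a38695a285c130ac1439012452e09008bc66d1288ec5ad30281c6eb1 (k8 c123 c319 c1019 c10382 c5695 c4286 c4403 c4435 (k8 c4298 c4294 c4432 c9380 c2305 c926 c887 c4461 (k8 c1073 c4462 c2303 c342 c343 c4470 c303 c4324 (k4 c934 c810 c7077 c7488 (k2 c4489 c7465 (k1 c8226 k0)))))) (by decide +kernel)
def c10597 : PP 8 4 T 0x2002000000000000000000000140000000100000000000010000010000000 := rS 0x2082d00c4e0b2b878421003965626e31c45563157c485e33688b5a605 (k8 c10382 c5695 c4286 c4298 c4294 c4432 c10561 c4346 (k8 c4441 c4445 c4498 c5654 c10592 c123 c1107 c1019 (k8 c10595 c10596 c4466 c1066 c270 c353 c2302 c4476 (k2 c4462 c9117 (k1 c4461 k0))))) (by decide +kernel)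
def c10598 : PP 8 4 T 0x10000000000000100000084 := rS 0xae5b (k2 c495 c1018 (k1 c4476 k0)) (by decide +kernel)
def c10599 : PP 8 4 T 0x600002002002000000010000080000000140000004100000000000150000000000102 := rS 0x1de106d18298482386a817275261e487185fa758287a5b44a69b17a652a93139ac2e6314accc2912bc14325a20a3ce20d0501c06590288438b71daf56b1469a8d2e9f (k8 c4414 c4336 c4337 c5695 c4470 c4389 c4354 c4403 (k8 c7094 c10597 c85 c10382 c1026 c28 c10598 c4462 (k8 c569 c7095 c761 c4433 c566 c5907 c10051 c751 (k8 c4550 c4302 c10182 c4402 c754 c4431 c492 c873 (k8 c1029 c762 c1031 c4432 c764 c4290 c4298 c4428 (k8 c1632 c1714 c7673 c5760 c4488 c4446 c4447 c10063 (k8 c10459 c4548 c2125 c4329 c770 c7717 c9728 c284 (k4 c904 c7393 c7751 c8862 k0)))))))) (by decide +kernel)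
def c10600 : PP 8 4 T 0x2200102002002000000000004400000015500000004014400000000000005000000000 := rS 0xb83aa848ed35aa8d2e9f (k8 c4414 c4336 c4337 c4389 c5695 c4404 c7717 c10497 (k2 c2125 c4548 k0)) (by decide +kernel)
def c10601 : PP 8 4 T 0x102002002000000000000000000000000000210040400000000000004000010102 := rS 0xaa57 (k2 c751 c1687 (k1 c10499 k0)) (by decide +kernel)
def c10602 : PP 8 4 T 0x2002000004011000054002040004000000150084000000000042020000000 := rS 0x32c9acd53d28962f19b44a253238b452c786aa49e49 (k8 c282 c4297 c1503 c4381 c4289 c4402 c4286 c4404 (k8 c4290 c4435 c4298 c4294 c4432 c4434 c7943 c2913 (k4 c4460 c285 c8760 c2116 k0))) (by decide +kernel)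
def c10603 : PP 8 4 T 0x4400000002002000004010100054100041504000180141084000000000042020000002 := rS 0x1b14cc28c2fd3ac14d8bd32414a8a5263b3585cca135981c065902885524f (k8 c4297 c1503 c85 c10382 c1026 c28 c10598 c10182 (k8 c4401 c490 c4431 c492 c4403 c1029 c4402 c762 (k8 c4433 c1031 c4432 c764 c1620 c10602 c5760 c4488 (k4 c2127 c7959 c10423 c904 k0)))) (by decide +kernel)
def c10604 : PP 8 4 T 0x600002002002000000100000000000000140000104100000000002150000000000102 := rS 0xcb26a9d9a6c4333ce4af62c5c5e3368944a64716b1cc27d5e99d56ad86aa54a4b0ba0532710687c1e4f24890be650998c4e2b502e60a192d02882b30380cb20510a7d46b74bad628d3498ed2a294895d1e1c (k8 c10597 c761 c751 c4550 c4402 c762 c4403 c1029 (k8 c5695 c4470 c4389 c4336 c7094 c4337 c4414 c85 (k8 c10382 c1026 c28 c10598 c10182 c4433 c4462 c566 (k8 c5907 c10051 c4548 c2125 c4411 c873 c754 c4401 (k8 c490 c2538 c10600 c282 c4297 c305 c56 c569 (k8 c7095 c1031 c4380 c4431 c4434 c7916 c1503 c4381 (k8 c4338 c4415 c4334 c4354 c4379 c4302 c4289 c4286 (k8 c4404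 c4290 c4435 c4298 c4294 c4432 c4416 c1782 (k8 c10599 c4073 c1794 c10603 c10041 c1908 c904 c285 (k2 c8760 c2116 k0)))))))))) (by decide +kernel)
def c10605 : PP 8 4 T 0x600000002002000000000000000000000140000004100000000000050000000010102 := rS 0x1eae4ea49120acce471fb1d2a931398c52655997d920f09a45f85782864b441479c41ab71dad628390501c06590288438d3 (k8 c5695 c10597 c85 c10382 c1026 c28 c10598 c4462 (k8 c358 c4470 c4389 c4403 c7094 c569 c7095 c761 (k8 c4433 c566 c5907 c10051 c751 c10457 c4550 c4401 (k8 c305 c10573 c2538 c10182 c490 c4402 c754 c873 (k8 c1029 c762 c4289 c4288 c4404 c4334 c4411 c10600 (k4 c282 c10601 c4548 c10604 (k1 c2113 k0))))))) (by decide +kernel)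
def c10606 : PP 8 4 T 0x10500000002002000000000000000000000040000000100004000000040000020015802 := rS 0x85439e0ee4569a652a931d9ec366c84954cd05149640a192d104d617 (k8 c4431 c492 c4433 c566 c5907 c10382 c1026 c4402 (k8 c10051 c5056 c7395 c10210 c4479 c4292 c702 c4403 (k8 c1029 c762 c1031 c5695 c4296 c4679 c4482 c7453 (k2 c10218 c10217 k0)))) (by decide +kernel)
def c10607 : PP 8 4 T 0x400000002002000000000000000000000140000004100000000000050000000010102 := rS 0x4b1d62ec13cc62229514a4c765707834325a0501c065902884821c (k8 c10597 c4433 c85 c10382 c1026 c28 c10598 c4462 (k8 c566 c5907 c569 c305 c751 c4403 c1029 c4402 (k8 c762 c10605 c10606 c4447 c4450 c9283 c10459 c4487 (k1 c929 k0)))) (by decide +kernel)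
def c10608 : PP 8 4 T 0x2000000000000000080000000040100000000000402000000000001015000 := rS 0x66d15094b6586c2ed1 (k8 c4298 c4431 c4292 c8140 c4428 c9047 c4397 c1482 (k1 c4573 k0)) (by decide +kernel)
def c10609 : PP 8 4 T 0x2000000000000000000002001000500000000080000000080000001015000 := rS 0x8426af4f04b0d85d7e4f (k8 c4297 c1511 c4431 c4292 c4434 c969 c1173 c325 (k2 c2108 c603 k0)) (by decide +kernel)
def c10610 : PP 8 4 T 0x1000000000000200000000000000001011008000011554000000000000000000000000000000000000 := rS 0xc2 (k2 c7663 c1168 k0) (by decide +kernel)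
def c10611 : PP 8 4 T 0x1000000000005200100000000000001111010400011514000010000015500000000000000000000000 := rS 0x2d96b433f25ccea3 (k8 c4337 c4334 c4336 c4560 c4392 c1434 c4492 c10610 k0) (by decide +kernel)
def c10612 : PP 8 4 T 0x400000002002000000000000000000000140000004100000000000010000000010102 := rS 0x4b1d622cda2a122ec13cb16309d50ae62a3682865227d30a04bac941969f80d0797cae0a2586c2e4f63b4d362f4c9052a931d98c526509acc0e032c814421c (k8 c10597 c85 c10382 c1026 c28 c10598 c10182 c4401 (k8 c490 c4402 c754 c4403 c1029 c762 c4433 c1031 (k8 c4432 c764 c5695 c4289 c4297 c4431 c4292 c4434 (k8 c4462 c751 c2538 c305 c569 c10457 c566 c4570 (k8 c10573 c753 c4380 c4302 c4379 c4550 c5907 c10051 (k8 c10607 c4386 c1471 c4551 c10609 c4488 c7718 c4447 (k8 c4450 c9283 c7463 c4397 c1482 c10611 c10459 c4487 (k1 c929 k0)))))))) (by decide +kernel)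
def c10613 : PP 8 4 T 0x1600000002002000000000000000000000140000004100000000000050000000010002 := rS 0x4e0c150c950a954e7d07a40445f2e8e0962f298b42ad34aa4c76273284d6607019640a2105ac4c28f42c16106b0b9450e6d2b02038631499d3e2b (k8 c4411 c4414 c4334 c4402 c754 c10597 c10612 c1057 (k8 c9753 c10041 c4435 c4431 c492 c4479 c4076 c5976 (k8 c2709 c881 c3160 c84 c85 c10382 c1026 c28 (k8 c10598 c10182 c4401 c490 c873 c4403 c1029 c762 (k8 c5695 c4284 c4286 c4290 c4432 c4434 c4470 c4628 (k8 c4647 c1140 c1139 c241 c9737 c772 c1301 c770 (k4 c10573 c8696 c8797 c978 (k1 c8799 k0)))))))) (by decide +kernel)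
def c10614 : PP 8 4 T 0x2002000000004801014000010044000000504008000042000000001000200 := rS 0x5730112cf3a3162ed1298ec7f19 (k8 c4369 c4288 c4403 c4290 c4298 c4416 c1782 c235 (k4 c4541 c597 c9880 c9890 (k1 c1714 k0))) (by decide +kernel)
def c10615 : PP 8 4 T 0x400000000000000100002002000004000800484000010044000004504008000040000000000000000 := rS 0x3aae1834b6594c763f (k8 c4288 c4403 c4290 c8140 c4428 c1714 c9033 c9880 (k1 c4548 k0)) (by decide +kernel)
def c10616 : PP 8 4 T 0x600000002002000000000000000000000140000004100000000000050000000018002 := rS 0xb83ab2e968857b3d907da18f5869c5f134fefd238ec7ec769a54ca135981c065902884869b1782c3305841ac2e51439b4ac080e18c526755a5d5abb1cadd6b14 (k8 c10613 c4389 c4353 c4348 c4390 c4338 c4336 c4415 (k8 c4334 c4402 c754 c10597 c10612 c1057 c9753 c10041 (k8 c4435 c4431 c492 c4479 c4076 c4436 c84 c4432 (k8 c764 c8832 c85 c10382 c1026 c28 c10598 c10182 (k8 c4401 c490 c762 c5695 c4289 c4288 c4403 c4404 (k8 c4376 c1455 c244 c9891 c5760 c1213 c10614 c8226 (k8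 c8221 c4483 c1792 c10615 c2120 c4457 c2025 c597 (k2 c9033 c4548 k0)))))))) (by decide +kernel)
def c10617 : PP 8 4 T 0x101000000000000100005000044055500050000004000000000000000000000000 := rS 0x2e284a1 (k4 c5930 c4483 c2125 c4394 k0) (by decide +kernel)
def c10618 : PP 8 4 T 0x2400000000000000000000000000001500101504404000000000000000000000000000 := rS 0x788c2fd7671 (k4 c4387 c4390 c5760 c4488 (k2 c7040 c4447 k0)) (by decide +kernel)
def c10619 : PP 8 4 T 0x10000000002002000000104001414000010045500014504008000042150000001000200 := rS 0x196cd5713112cf5f9f4fe7439b162ed1298fda60b (k8 c84 c5695 c4288 c4290 c4298 c4416 c1782 c1615 (k8 c235 c10049 c1691 c10614 c4541 c597 c10063 c9890 (k2 c2062 c8140 (k1 c2124 k0)))) (by decide +kernel)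
def c10620 : PP 8 4 T 0x2000002002000000004000000000000000000200000000000001000000000000000 := rS 0x11255 (k2 c1686 c597 (k1 c5422 k0)) (by decide +kernel)
def c10621 : PP 8 4 T 0x600000002002000000000000000000000140000004100000000000050000000010002 := rS 0x5f242e4ea3d61c6538c94183d6a715ba44731456a5d56672384c763f63b4c3e9920a544eb30380cb205109ec8a8f21a6c5e0b42a04327782c20d61728a1cda5604070c629 (k8 c4402 c754 c10597 c10612 c1057 c9753 c10041 c4435 (k8 c4431 c492 c4479 c4076 c4438 c4436 c4439 c5976 (k8 c84 c4432 c764 c8832 c2709 c4296 c1224 c85 (k8 c10382 c1026 c28 c10598 c10182 c873 c762 c4433 (k8 c1031 c56 c5695 c4289 c4288 c4403 c4401 c4404 (k8 c4334 c4415 c4336 c4338 c10613 c4348 c4352 c4353 (k8 c4387 c4389 c10616 c4570 c10573 c10618 c4368 c1213 (k4 c10619 c10620 c4548 c4559 (k2 c9868 c10483 k0))))))))) (by decide +kernel)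
def c10622 : PP 8 4 T 0x1000000002000000040000000120000000401000005501000000000050000020010400 := rS 0x2a54aa707a40445f2e8e0962f (k8 c4432 c4434 c4470 c4628 c4647 c1140 c1139 c241 (k4 c772 c1301 c2956 c8696 k0)) (by decide +kernel)
def c10623 : PP 8 4 T 0x400000002002000000000000000000000140000004100000000000050000000010002 := rS 0xa554974180f2fa7d9ecb3ea9c90b55ba4473145627296c461b047ac939258ea668886c82456894c8e3b0a8fd8ed30f89d6607019640a215896cc28f21a6c5e0b42a04327782c20d61728a1cda5604070c629 (k8 c4402 c754 c10597 c10612 c1057 c9753 c10041 c4435 (k8 c4431 c492 c4479 c4076 c4438 c4436 c4439 c5976 (k8 c84 c4432 c764 c8832 c2709 c881 c759 c3160 (k8 c85 c10382 c1026 c28 c10598 c10182 c873 c56 (k8 c5695 c4289 c4288 c4284 c4403 c4404 c4290 c4298 (k8 c4296 c4433 c4292 c10621 c5056 c592 c8996 c921 (k8 c632 c235 c1620 c1087 c9804 c4429 c1252 c1253 (k8 c10622 c4348 c4352 c4353 c4389 c4559 c906 c8221 (k8 c1756 c1790 c1663 c9868 c243 c9047 c923 c949 (k2 c2053 c8375 k0)))))))))) (by decide +kernel)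
def c10624 : PP 8 4 T 0x400000002002000000000000000000000140000004100000000000010000000010002 := rS 0x152c3608c56e3d39258ea66578a976a54f89618a7519fdfa5f2e88c920e268357f151b414ee878410d1e613696cacb10582166073298cd6032585c9e4119915a2512991c263b168fc52c769884b2054d8bc4e1c (k8 c10597 c873 c4432 c764 c10382 c1026 c85 c5695 (k8 c4289 c4402 c4288 c4286 c4403 c4401 c4404 c4290 (k8 c4435 c4298 c4296 c4294 c4433 c4297 c4431 c4434 (k8 c28 c492 c754 c490 c10598 c10182 c10612 c84 (k8 c3160 c1057 c759 c9753 c881 c2709 c8832 c4479 (k8 c10041 c4438 c4076 c10623 c4386 c1511 c1408 c2147 (k8 c232 c2146 c1409 c4628 c488 c4376 c1455 c8633 (k8 c4532 c4477 c4381 c4384 c4385 c4847 c4200 c1774 (k8 c4191 c592 c8996 c921 c235 c1166 c8803 c1620 (k2 c1087 c8329 (k1 c2111 k0))))))))))) (by decide +kernel)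
def c10625 : PP 8 4 T 0x4400000002002000000000000400044010000005545100000000000150044400008008 := rS 0x4c218917f1824c24aa878218ca2d3 (k8 c5695 c4435 c7153 c4481 c10041 c4406 c4076 c242 (k4 c4482 c7782 c10478 c4446 (k2 c10063 c2135 k0))) (by decide +kernel)
def c10626 : PP 8 4 T 0x400000002002000000000000400044054500005544100000000000150044000008001 := rS 0x43490b91ec584647168fc52c7368080ab71dad628d3 (k8 c5695 c4470 c4389 c4403 c7094 c10382 c4461 c5028 (k8 c4289 c4402 c4288 c4286 c4404 c1328 c10625 c4416 (k4 c4361 c2113 c9762 c7307 k0))) (by decide +kernel)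
def c10627 : PP 8 4 T 0x600000002002000000000000000000000140000004100000000000050000000010000 := rS 0x219357f187ec24c6873fc1170855097c4a8307acc569f4b99546512991cb29514a4c4e6d33a3cea133b904f217399ece2b71da456b141c9580c020081438d3 (k8 c5695 c10597 c10382 c10624 c4461 c791 c790 c3151 (k8 c4470 c4389 c4352 c4403 c7094 c497 c1227 c1021 (k8 c4431 c500 c4433 c1023 c4401 c498 c2763 c5084 (k8 c5028 c873 c1029 c4402 c762 c1026 c4404 c4290 (k8 c4435 c4337 c4412 c4336 c4414 c4411 c5025 c10626 (k8 c4570 c224 c10439 c7717 c8927 c2125 c7050 c7096 (k8 c4410 c4407 c4076 c10398 c4482 c7782 c4248 c4446 (k1 c10063 k0)))))))) (by decide +kernel)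
def c10628 : PP 8 4 T 0x500000002002000000000000000000554140005554040000000000150004000018008 := rS 0x31a8510ad640959e874e1f686488cb047ab98b3448e3f63adc76b58a34d0a4f (k8 c4297 c1495 c5695 c4470 c4389 c4403 c7094 c4289 (k8 c4288 c4404 c4298 c4487 c6781 c4416 c4420 c4982 (k8 c2113 c8226 c8221 c4488 c10171 c1790 c2134 c243 (k4 c946 c9154 c7717 c1728 (k1 c4794 k0))))) (by decide +kernel)
def c10629 : PP 8 4 T 0x500000002002000000000000400000080040004001100040000000000000000000080 := rS 0xac354250e898218c82513a84cf217398ed5f17 (k8 c4360 c4631 c4403 c1021 c4431 c500 c4401 c498 (k8 c4435 c4433 c817 c4481 c7172 c10041 c4076 c4479 (k2 c9112 c2048 k0))) (by decide +kernel)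
def c10630 : PP 8 4 T 0x400000002002000000000000000000000140000004100000000000050000000018000 := rS 0x9fa1b299ea9268921acd24a8d5ac9311960ab215a862eaf4b08cfefd2593da2512991d8e594d8bd329514a4c4e6d3396cea133b904f217398ecf67158a4628392b018040102871a711 (k8 c10627 c5695 c10597 c10382 c10624 c4461 c791 c790 (k8 c3151 c4470 c4352 c8612 c497 c1227 c4403 c1021 (k8 c4431 c500 c4433 c1023 c4401 c498 c758 c5084 (k8 c5028 c873 c1029 c4402 c762 c1031 c4432 c764 (k8 c1026 c4289 c4404 c4290 c4435 c4298 c4297 c4434 (k8 c4376 c1455 c1328 c10628 c4631 c4360 c898 c7194 (k8 c10629 c4312 c552 c1188 c634 c6230 c5380 c8735 (k8 c5446 c7771 c4467 c2135 c1503 c5286 c2116 c4425 (k2 c3554 c4489 k0))))))))) (by decide +kernel)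
def c10631 : PP 8 4 T 0x100000002002000000000000000000054141404004000000000000150000000010080 := rS 0x3368a885f3159e81439f686488cb047ab98b3448e3f639d42677209e42e7338aec96b71dad628d3 (k8 c5695 c4470 c4389 c4403 c7094 c4434 c9034 c497 (k8 c1021 c4431 c500 c4433 c1023 c4401 c498 c4289 (k8 c4288 c4404 c4298 c4487 c6781 c4416 c4420 c4982 (k8 c2113 c8226 c8221 c10171 c7000 c1790 c10242 c10474 (k4 c9154 c4399 c1486 c6175 k0))))) (by decide +kernel)
def c10632 : PP 8 4 T 0x2400000002000000000000040100000500101405404000018000000042000100014008 := rS 0x43402fe309d849a83041 (k8 c4433 c228 c229 c4436 c5530 c5310 c7782 c10618 (k2 c4446 c9803 k0)) (by decide +kernel)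
def c10633 : PP 8 4 T 0x400000002002000000000000000000000140000004100000000000050000000010000 := rS 0x401317e43848650c6a550c55a6232c1456b28babd2c852f895060f88af628bb589c4963368944a62d69965362f4ca545293139b4ce5b05884ee413c85ce63b3d8e4ac06010040a1c (k8 c10597 c10382 c10624 c4461 c791 c790 c3151 c1227 (k8 c4403 c1021 c4431 c500 c4433 c1023 c85 c302 (k8 c758 c5084 c5028 c873 c1029 c4402 c762 c1031 (k8 c4432 c764 c1026 c5695 c4286 c4290 c4435 c4298 (k8 c4294 c4434 c497 c8612 c9034 c4470 c4354 c10627 (k8 c10630 c4570 c224 c10439 c10110 c10631 c4631 c4360 (k8 c10629 c7194 c4312 c552 c1188 c6230 c10632 c2112 (k8 c1613 c1612 c1918 c4440 c9075 c7782 c9891 c2122 (k1 c1895 k0))))))))) (by decide +kernel)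
def c10634 : PP 8 4 T 0x40000000200000000000000000000018000000000004400000008 := rS 0x86895205f (k4 c544 c1147 c225 c4328 (k1 c4467 k0)) (by decide +kernel)
def c10635 : PP 8 4 T 0x1000000000000000000000000100000000000000004000000000000000000000008100 := rS 0xe2fd (k2 c4376 c1416 (k1 c4480 k0)) (by decide +kernel)
def c10636 : PP 8 4 T 0x220000000002000000000000400010010000000140001500000000080004400010000 := rS 0x8218e2e3c240accaa30a8a58e9f (k8 c4384 c4289 c4402 c4284 c4337 c4412 c4411 c7771 (k4 c322 c4416 c7153 c4481 (k1 c9288 k0))) (by decide +kernel)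
def c10637 : PP 8 4 T 0x10400000002000000000000040000500001000000000100000000000080005020000008 := rS 0xa8a213462bd0ca7096334d8bd32563b81883155f93c468f (k8 c2763 c1409 c4297 c1511 c4386 c4433 c791 c1023 (k8 c790 c1031 c4432 c764 c4294 c4434 c4488 c4654 (k4 c1173 c228 c325 c4493 (k2 c2111 c4398 k0)))) (by decide +kernel)
def c10638 : PP 8 4 T 0x4020000000002000000000000000010054000000140041510000000080004400010000 := rS 0x220b3 (k2 c5025 c4487 (k1 c10636 k0)) (by decide +kernel)
def c10639 : PP 8 4 T 0x400000002002000000000000000000000140000004100000000000010000000010000 := rS 0x3128964b788a5857178c2ed4a9f48c314ea12f8941e5d5888d73151b1ece67530a3cac060496c0467368045e1316b1da6212c8152a29498ec4e1c (k8 c10597 c873 c4403 c1029 c4402 c762 c10382 c1026 (k8 c85 c5695 c4289 c4286 c4401 c4432 c10624 c5028 (k8 c5084 c4461 c758 c1058 c791 c790 c2763 c2883 (k8 c498 c1021 c1227 c10633 c4386 c1471 c1409 c10634 (k8 c4628 c10635 c224 c10439 c7717 c4558 c4467 c4328 (k8 c4384 c4385 c4825 c10637 c9283 c7194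 c10638 c4336 (k4 c1165 c10629 c4597 c1188 (k1 c7471 k0)))))))) (by decide +kernel)
def c10640 : PP 8 4 T 0x2800002000000000040000040000400501100004004100500000100040000000001000 := rS 0x7984af9089d549ad4a81 (k8 c4380 c4444 c4442 c4345 c4344 c4130 c7247 c4321 (k2 c10218 c7782 k0)) (by decide +kernel)
def c10641 : PP 8 4 T 0x2100000000002000000100004500000054100000004001000000000150002000000002 := rS 0x665041490751ec5972471d8fd8eb5 (k8 c4389 c4289 c4288 c4403 c4404 c6781 c4487 c4416 (k4 c4417 c2113 c9531 c283 (k2 c5056 c896 k0))) (by decide +kernel)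
def c10642 : PP 8 4 T 0x800000002002000000000000000000000100000004100004000000050000020010002 := rS 0x154927f3999943174b0914c913e9856f145d9c592fc1c8341eb13d97cba0a2d02496452384c2ac769a6c5e9920a5452931d89cdb1116acc0e032c814428f (k8 c761 c85 c10382 c1026 c28 c10598 c10182 c4286 (k8 c4498 c4342 c873 c4403 c1029 c4402 c762 c4433 (k8 c1031 c4432 c764 c5695 c4289 c4284 c4401 c4404 (k8 c4296 c4434 c1057 c4476 c4462 c841 c577 c704 (k8 c625 c305 c569 c358 c10457 c10573 c7095 c9034 (k8 c4470 c7094 c4302 c4379 c4550 c10640 c4558 c10641 (k8 c4360 c2905 c928 c1083 c10049 c283 c7395 c2107 k0))))))) (by decide +kernel)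
def c10643 : PP 8 4 T 0x100000000002000000000005000000054100000000000008000000150000000008002 := rS 0x120aa3d82458ceb9238ec7ec7 (k8 c4289 c4288 c4403 c4404 c6781 c920 c4487 c5056 (k4 c4416 c4406 c2113 c242 k0)) (by decide +kernel)
def c10644 : PP 8 4 T 0x14100000002002000000010000044000400040004401444000000000000000000000002 := rS 0x30d834b3c2b0310944a1e08510a814ca13 (k8 c4401 c490 c10382 c4284 c4435 c5056 c9156 c4314 (k8 c4076 c5546 c8142 c4482 c4458 c1986 c3967 c4494 k0)) (by decide +kernel)
def c10645 : PP 8 4 T 0x800000002002000000000000000000000140000004100008000000050000000008002 := rS 0x48649d60a6662c5d2c778cad57a915bc5176a71ca14befd2593c8e3f63b4d369920a5452931d9b53aa935a96222d31aac622f688155e3301a3cb6613dac4101c (k8 c10597 c751 c3160 c1227 c881 c92 c761 c28 (k8 c4294 c4346 c10382 c4298 c4432 c4441 c4445 c5654 (k8 c4286 c4498 c4444 c4442 c4345 c4344 c4342 c4403 (k8 c1029 c4402 c762 c4433 c1031 c764 c5695 c4289 (k8 c4288 c4404 c4297 c4434 c4376 c1376 c1495 c241 (k8 c4532 c9034 c4470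 c7094 c4352 c4354 c4389 c4539 (k8 c10356 c10643 c4360 c1252 c10644 c4310 c592 c632 (k2 c4559 c243 k0)))))))) (by decide +kernel)
def c10646 : PP 8 4 T 0x100000002002000000000000045101000040000001505008000000200004020014002 := rS 0x7e51a216ec260b147a724b1d4cc43829e59b454243542a712a417e222f8bc8245238ec2a290f9956607019640a210596d620864b4c265d (k8 c753 c4401 c5695 c10573 c751 c3160 c92 c566 (k8 c85 c10382 c1026 c28 c10598 c10182 c490 c56 (k8 c4402 c4284 c4403 c4404 c4296 c4433 c4432 c4647 (k8 c1140 c3256 c1139 c280 c772 c770 c4328 c8696 (k8 c4397 c1482 c603 c10585 c237 c5056 c592 c8996 (k8 c921 c235 c1252 c1621 c9804 c1168 c1088 c939 (k2 c684 c5121 k0))))))) (by decide +kernel)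
def c10647 : PP 8 4 T 0x2100000000002000000100000400000040100000004000008000000000000020000002 := rS 0x1d6091633ae52a29498ed6208 (k8 c751 c3160 c4403 c1029 c4402 c762 c6781 c920 (k4 c4487 c5056 c4417 c9531 k0)) (by decide +kernel)
def c10648 : PP 8 4 T 0x2001000002000000040000040001501000100004005501500000000000000020014000 := rS 0x795f211362f4c9052271 (k8 c4387 c4352 c4433 c1031 c4432 c764 c8696 c7247 (k2 c602 c7782 k0)) (by decide +kernel)
def c10649 : PP 8 4 T 0x2001200002002000000000040001111000100004005501500000000000004020014000 := rS 0x920d122985e1564b4c267d (k8 c4409 c4401 c5695 c10573 c4284 c4432 c10648 c4558 (k2 c1367 c283 (k1 c9269 k0))) (by decide +kernel)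
def c10650 : PP 8 4 T 0x100000002002000000000000001111000100004005545000000000150000020014202 := rS 0x4f2e146498697a863d849550f042891c2a050f89cca132eaec96b71dad628d3 (k8 c5695 c4470 c4389 c4403 c7094 c4434 c9034 c753 (k8 c4401 c490 c873 c56 c10382 c4284 c4404 c4435 (k8 c5056 c9156 c4406 c4076 c234 c8226 c10649 c4382 (k4 c9868 c1466 c7430 c4489 (k1 c1395 k0))))) (by decide +kernel)
def c10651 : PP 8 4 T 0x2002000000000000000000000140000004100000000000050000000010002 := rS 0x842114e252f920eb05332852cb548ade28bb1c975920f041ecc25b2b12c8e131d8fd8ed30f89cda9d549ad4b111698d563117b455f1219acc0e032c814421c (k8 c10597 c85 c10382 c1026 c28 c10598 c10182 c4294 (k8 c10639 c4346 c4298 c4432 c4441 c4445 c5654 c4286 (k8 c4498 c4444 c4442 c4345 c4344 c4342 c873 c56 (k8 c5695 c4289 c4288 c4403 c4401 c4404 c4434 c10642 (k8 c92 c881 c1227 c751 c10645 c10573 c753 c10646 (k8 c9034 c4470 c7094 c4352 c4389 c10647 c898 c10650 (k8 c4310 c592 c4559 c9868 c283 c4558 c8696 c10648 (k1 c4321 k0)))))))) (by decide +kernel)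
def c10652 : PP 8 4 T 0x18800100000000000000004400000000414042004000100000000000000000000000000 := rS 0x2b112c53b1e612ab (k8 c4445 c4321 c603 c4482 c1096 c2042 c7641 c8622 k0) (by decide +kernel)
def c10653 : PP 8 4 T 0x1000000000000000040000000000800001100000000000080000000000404000000110 := rS 0x490d (k2 c4330 c4558 (k1 c5022 k0)) (by decide +kernel)
def c10654 : PP 8 4 T 0x800000002002000000000000000000040042014000100000000000080000020015000 := rS 0x208498c8f587160aa6c5e9920a5452931dc445abf27b25a613 (k8 c4401 c5695 c10573 c4297 c1511 c4286 c4498 c4403 (k8 c1029 c4402 c762 c4433 c1031 c4432 c764 c4284 (k4 c4487 c4958 c4416 c4982 (k2 c322 c10652 (k1 c9269 k0))))) (by decide +kernel)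
def c10655 : PP 8 4 T 0x2002000000000000000000000140000004100004000000010000000010002 := rS 0x553a1992c8453a44fa6164bf01e7b2e828b4091784c52d3139b5526b52c4a2a5f068d80e032c814421c (k8 c10597 c85 c10382 c1026 c28 c10598 c10651 c1408 (k8 c488 c4386 c10639 c4444 c4442 c4345 c4342 c873 (k8 c5695 c4402 c4401 c4432 c1057 c4476 c4462 c841 (k8 c704 c305 c10457 c10573 c4302 c4379 c4550 c10653 (k4 c8696 c10654 c928 c929 (k2 c7395 c10194 k0)))))) (by decide +kernel)
def c10656 : PP 8 4 T 0x2002000000000000000000000140000004100000000000010000000010002 := rS 0x490c53bf4ba0e2688c108f30958be0d1b01c064b1793c66212c8144e1c548c54b12 (k8 c10639 c4444 c4441 c4345 c10597 c873 c10382 c1026 (k8 c85 c4294 c4297 c4432 c4434 c28 c10598 c10651 (k8 c1408 c488 c10655 c881 c2709 c751 c1409 c2147 (k4 c232 c752 c4376 c4532 (k2 c4477 c2111 (k1 c4381 k0)))))) (by decide +kernel)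
def c10657 : PP 8 4 T 0x2002000000000000000000040140000004100000000000050000000018000 := rS 0x324c8429c4b191e97e2c82258bc669514a4c7627548c4d6a588c485a613b904f2173d8e4ac060101438fd4293c4601 (k8 c10656 c1328 c4297 c1495 c4376 c10597 c10382 c4461 (k8 c791 c790 c3151 c1227 c4431 c500 c4433 c1023 (k8 c2883 c4286 c10639 c4498 c4444 c4442 c4441 c4345 (k8 c873 c4403 c1029 c4402 c762 c4294 c4432 c4434 (k8 c10631 c4487 c548 c4416 c4982 c225 c4532 c4482 (k2 c2111 c4436 (k1 c244 k0))))))) (by decide +kernel)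
def c10658 : PP 8 4 T 0x2002000000000000000000000140000004100000000000050000000018000 := rS 0x425fc609b091241057174b08ca2d313a1d3a75099dc82790b9cc767b1c8196656010043863558c45ed102abe2433 (k8 c4294 c10639 c4346 c10382 c4298 c4432 c4441 c4445 (k8 c5654 c10597 c10656 c4461 c790 c1188 c791 c3151 (k8 c1227 c4403 c1021 c4431 c500 c4433 c1023 c4401 (k8 c498 c4344 c9925 c873 c5695 c4435 c1328 c10657 (k8 c4360 c7194 c4481 c10562 c4076 c2135 c4482 c7782 (k2 c10063 c4446 k0)))))) (by decide +kernel)
def c10659 : PP 8 4 T 0x2002000000000000000000000140000004100000000000050000000010000 := rS 0x8b25a0a85844654e254183d231428b4d2a294989e222d43a751e75099dc82790b9cc767b1c8196656010043863558c45ed102abe2433 (k8 c4294 c10639 c4346 c10382 c4298 c4432 c4441 c4445 (k8 c5654 c10597 c10656 c4461 c790 c1188 c791 c3151 (k8 c1227 c4403 c1021 c4431 c500 c4433 c1023 c4401 (k8 c498 c2763 c4344 c9925 c4286 c4498 c873 c1029 (k8 c4402 c762 c5695 c4435 c4470 c4352 c10658 c4570 (k8 c224 c4558 c4539 c4482 c4321 c4076 c10631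 c4481 (k1 c4360 k0))))))) (by decide +kernel)
def c10660 : PP 8 4 T 0x2002000000000000000000000140000004100000000000010000000010000 := rS 0x233091ec58a90c15204be254183cbab111c546c7b399e4ee7530a3cac060496c040135aa6244b1785c9e411984c76d32c8144e1c (k8 c10597 c873 c10382 c1026 c5695 c4403 c4401 c4294 (k8 c4433 c4297 c4431 c4432 c4434 c10639 c4345 c4442 (k8 c10656 c4461 c758 c1058 c791 c790 c2763 c2883 (k8 c498 c1023 c500 c1021 c1227 c10659 c4386 c1409 (k8 c10634 c4628 c10635 c4570 c224 c10439 c4556 c10562 (k4 c4467 c226 c7194 c9052 (k2 c9576 c4982 (k1 c4482 k0)))))))) (by decide +kernel)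
def c10661 : PP 8 4 T 0x2400000000000000000000040000500501100000001002080000000000000000000000 := rS 0x2fd529d (k4 c968 c976 c5760 c7247 k0) (by decide +kernel)
def c10662 : PP 8 4 T 0x600000002002000000000005400014041540000006100004000000000000021000800 := rS 0x1193b3010c7439c5d12b833a8c361768944a63f10a64829514a4c7705 (k8 c10051 c4403 c1029 c4402 c762 c4433 c1031 c85 (k8 c4288 c4290 c4435 c4298 c4431 c4292 c4337 c4334 (k8 c2125 c680 c4361 c1085 c4548 c7682 c1692 c1693 (k2 c4450 c4679 k0)))) (by decide +kernel)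
def c10663 : PP 8 4 T 0x400000002002000000000005400014041140000006102004000000000000020000802 := rS 0x2219119608f544558b2e4cd112c8152a29498ee1a8f82864b441 (k8 c4433 c566 c5907 c10051 c2724 c4326 c4403 c1029 (k8 c4402 c762 c10382 c1026 c10662 c5056 c6781 c4487 (k8 c7395 c5931 c4416 c4420 c4982 c937 c4987 c2618 k0))) (by decide +kernel)
def c10664 : PP 8 4 T 0x2400000002002000000000044400514001140000004102004000000000000020000802 := rS 0x8c3010c55449d0cd1161a595a6c0c86c2ed12894c26152c815362f4c9052a29498ecb4b5 (k8 c4389 c566 c4403 c1029 c4402 c762 c4433 c1031 (k8 c4432 c764 c10382 c1026 c4284 c4401 c4290 c4435 (k8 c4298 c4431 c4292 c5907 c10661 c945 c10663 c8801 (k8 c4336 c928 c929 c597 c7395 c2109 c1692 c7453 (k1 c4450 k0))))) (by decide +kernel)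
def c10665 : PP 8 4 T 0x12100001002002000000000800440000040140044400000001000000151000021000000 := rS 0x8943b219ac11eae62c1b0bb44a253098552a295b8eda705 (k8 c10051 c5695 c4403 c7094 c4402 c762 c4284 c4401 (k8 c4290 c4435 c4298 c4431 c4292 c10283 c6781 c4416 (k4 c4420 c1485 c10069 c10171 (k2 c637 c2109 k0)))) (by decide +kernel)
def c10666 : PP 8 4 T 0x2002000000000000000000000140000004100000000000010000000000000 := rS 0xc84450d9a875c1f58a744b154cd050c9dd7d19888c55ea94ec497ab75dc5122a54f8e51f0d1b95ce22230194c65a589ec000a59a9d42030481d0a7f12bf4204b0d85da2512991c263b1685452d32c815362f4c9044e1c (k8 c10597 c873 c4433 c1031 c4432 c764 c10382 c1026 (k8 c5695 c4402 c4284 c4286 c4403 c4401 c4404 c4290 (k8 c4435 c4298 c4431 c4292 c4434 c10660 c4300 c278 (k8 c670 c710 c609 c345 c342 c7717 c4558 c10182 (k8 c4462 c4461 c702 c2605 c566 c754 c490 c606 (k8 c607 c2562 c751 c319 c4326 c2724 c7422 c1299 (k8 c1301 c769 c4480 c9034 c7094 c6223 c10664 c4344 (k8 c4345 c4346 c4441 c4498 c4539 c7247 c10356 c309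 (k8 c10051 c10537 c7395 c10665 c929 c1252 c1691 c9871 (k4 c1693 c1486 c4394 c2109 (k2 c4483 c637 k0))))))))))) (by decide +kernel)
def c10667 : PP 8 4 T 0x400000002002000000000000000000040140000000100000000000050000000008000 := rS 0x12572751eaad5ac38819c8e3f4aa4c4e5f599fdfac706a3d6e3b48ad6290528a1cc6294e2f89a19841ac00030285cdabb258e486560402c0e6e69a6c382f (k8 c4432 c10597 c764 c5695 c10666 c1019 c304 c4462 (k8 c1057 c8832 c3073 c4434 c9034 c9753 c4431 c10382 (k8 c791 c4461 c492 c4479 c4436 c244 c9891 c5760 (k8 c4402 c754 c10041 c4435 c4076 c4470 c4389 c4352 (k8 c4403 c7094 c761 c1289 c4289 c4378 c7414 c10182 (k8 c1377 c873 c1029 c762 c4288 c4404 c920 c10643 (k8 c1213 c946 c4415 c10614 c10620 c5280 c10483 c2113 k0))))))) (by decide +kernel)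
def c10668 : PP 8 4 T 0x400000002002000000000000000000000140000000100000000000050000000008000 := rS 0x286495c8f592753345e229682a1e1051599ac2e63149fdfac706adc76b58a0e4c25b699640003029b4ac080581cdc1c (k8 c10597 c10666 c1019 c304 c4462 c1057 c9753 c10382 (k8 c791 c4461 c1026 c5695 c759 c7428 c3073 c4470 (k8 c4389 c4403 c7094 c1289 c4289 c4378 c7414 c4402 (k8 c754 c4431 c492 c10182 c4435 c4479 c10041 c4076 (k8 c10667 c4336 c4360 c5056 c592 c632 c235 c5280 (k2 c243 c8226 (k1 c7114 k0))))))) (by decide +kernel)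
def c10669 : PP 8 4 T 0x2002000000000000000000000140000000100000000000050000000008000 := rS 0x286495c8f59275829998b174b1de331155a955ea94ec494e6d30958f65b0402d0a4f228b4b29b17a6482954997d666b0b98c527f0000c0e057eb1c1a8f5d92d6e3b48af56b141c9b838d3 (k8 c5695 c10597 c10666 c3073 c4470 c4389 c4354 c4352 (k8 c4403 c7094 c4434 c9034 c761 c1289 c4289 c4378 (k8 c10382 c1019 c791 c4461 c7414 c4402 c754 c4431 (k8 c492 c10182 c1377 c1029 c762 c4433 c1031 c4432 (k8 c764 c1026 c4286 c4296 c4297 c1495 c304 c4462 (k8 c759 c1224 c1057 c7428 c9753 c4532 c10668 c4344 (k8 c4345 c4346 c4444 c4445 c4498 c4539 c10356 c10643 (k8 c4360 c1252 c10644 c4310 c592 c632 c235 c5280 (k2 c243 c8226 (k1 c7114 k0)))))))))) (by decide +kernel)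
def c10670 : PP 8 4 T 0x600000002002000000000000000000040140000000100000000000050000000000000 := rS 0x1193b3010c7439c5d12b833a8c361768944a63f10a545293599fdfac706a3d6e3b5aa84145704a7c8e6c5da4628395288896a71289d329b17c14325a300401ed32c800060737014821c (k8 c10597 c4433 c10382 c10666 c1019 c791 c4461 c1026 (k8 c5695 c10669 c8928 c606 c7428 c5907 c10051 c4432 (k8 c764 c1031 c873 c278 c4558 c4434 c607 c1301 (k8 c3073 c4470 c4352 c9034 c10661 c4404 c1299 c344 (k8 c751 c4462 c7717 c4389 c4403 c7094 c761 c1289 (k8 c4289 c4378 c7414 c10182 c1029 c4402 c762 c85 (k8 c4288 c4290 c4435 c4298 c4431 c4292 c4337 c4334 (k8 c2125 c680 c4361 c1086 c5280 c7682 c1692 c1693 (k2 c4450 c4679 k0))))))))) (by decide +kernel)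
def c10671 : PP 8 4 T 0x400000002002000000000000000000040140000000100000000000050000000000000 := rS 0x2219119608f4ab16334452a2949accfefd638356e3b0515c126c5da4628395288896a71289d329b17c14325a300401ed32c800060737014821c (k8 c10597 c4433 c10382 c10666 c1019 c791 c4461 c1026 (k8 c5695 c10669 c8928 c606 c7428 c5907 c10051 c4432 (k8 c764 c1031 c873 c278 c4558 c4434 c607 c1301 (k8 c3073 c4470 c4352 c9034 c10661 c344 c751 c4462 (k8 c4403 c7094 c1289 c4289 c4378 c7414 c10182 c1029 (k8 c4402 c762 c10670 c5056 c4487 c7395 c4416 c4420 (k4 c4982 c10069 c4987 c2618 k0))))))) (by decide +kernel)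
def c10672 : PP 8 4 T 0x400000002002000000000000000000000140000000100000000000050000000000000 := rS 0x46180862aa24e86688abd2c6c0c86c2ed12894c26154da64829514a4c76bb48c514e251789c14091c968c05952888200f698000607370700a4b (k8 c4434 c10382 c10597 c10666 c1019 c791 c4461 c5695 (k8 c10669 c8928 c607 c1301 c1026 c606 c7428 c3073 (k8 c344 c4462 c873 c4432 c278 c4558 c4470 c4352 (k8 c9034 c4403 c1029 c4402 c762 c4433 c1031 c764 (k8 c4284 c4401 c4290 c4435 c4298 c4431 c4292 c5907 (k8 c10661 c10671 c4631 c4336 c928 c929 c681 c7395 (k4 c2109 c1692 c7453 c4450 k0))))))) (by decide +kernel)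
def c10673 : PP 8 4 T 0x2002000000000000000000000140000000100000000000050000000000000 := rS 0x1425c325848866a1cfac53a258aa6682864eebe8cc4462af54a76247b5296814a7111801285128401eb55ea4628bb4792c361768944a62d0a965362f4c9044e395998c5265099fc0003038700afd69b1c1a6e (k8 c10666 c1289 c4289 c5695 c4378 c10382 c10597 c1019 (k8 c791 c4461 c7414 c4401 c490 c4402 c754 c10182 (k8 c3073 c873 c4433 c1031 c4432 c764 c1026 c4284 (k8 c4286 c4290 c4435 c4298 c4431 c4292 c4434 c761 (k8 c9034 c4470 c4352 c4354 c4389 c10669 c8928 c278 (k8 c710 c344 c606 c607 c4558 c4462 c7428 c1301 (k8 c702 c10672 c4344 c4345 c4346 c4441 c4498 c4539 (k8 c7247 c10356 c309 c10051 c10537 c7395 c10665 c929 (k8 c1252 c1690 c1693 c1486 c2109 c597 c637 c1215 (k2 c4483 c4394 k0)))))))))) (by decide +kernel)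
def c10674 : PP 8 4 T 0x1100000000000000000000014000040055500000000000000000000000000000000000 := rS 0xb5 (k2 c7420 c7468 k0) (by decide +kernel)
def c10675 : PP 8 4 T 0x10400000002002000000000000040000500040000200100085000000000000001000000 := rS 0x44a1cd8774e06c2ed12894c2615 (k8 c4284 c4401 c4290 c4435 c4298 c4431 c4292 c4488 (k4 c4679 c968 c1693 c681 (k1 c2109 k0))) (by decide +kernel)
def c10676 : PP 8 4 T 0x400000002002000000000000000000000140000000100000000000010000000000000 := rS 0x182798c1d12cb764954ccaf888a947050cb44b29b17a648295498ec4e6314994267f7eb4c1ab9639241c5d2b824c2254fc31225a050000607029c62a8f118d8dc1c (k8 c10597 c10666 c10673 c3328 c760 c4386 c94 c10382 (k8 c1019 c791 c4461 c1344 c566 c889 c4486 c4384 (k8 c4381 c4326 c233 c751 c752 c1343 c2247 c4289 (k8 c1471 c1289 c5695 c4378 c7414 c4401 c490 c4402 (k8 c754 c873 c4403 c1029 c762 c4433 c1031 c4432 (k8 c764 c1026 c4298 c5907 c10051 c8633 c10478 c4411 (k8 c1774 c4191 c7395 c632 c1078 c10674 c929 c10675 (k2 c4447 c4450 (k1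 c10459 k0))))))))) (by decide +kernel)
def c10677 : PP 8 4 T 0x2002000000000000000000000140000000100000000000010000000000000 := rS 0x62a9892944b0c53a451e5a268241c23054546c000181ce26e13870962f278cda605 (k8 c10382 c5695 c4294 c4297 c4432 c4434 c10597 c873 (k8 c10666 c94 c1019 c791 c4461 c10673 c4386 c1344 (k8 c3328 c1343 c233 c2248 c566 c760 c889 c10653 (k4 c4486 c4381 c4385 c10676 (k2 c4345 c4441 (k1 c2111 k0)))))) (by decide +kernel)
def c10678 : PP 8 4 T 0x1600000002002000000000000000000040140000004100000000000000000000000002 := rS 0x38034fcb83699d46b731994bea112975669514a4c765782864b40a04904387d5a98592111cac40e032c87c1ed309a7e189113a3c4234 (k8 c10677 c9668 c1306 c8775 c1036 c4486 c4384 c4401 (k8 c5695 c8690 c1099 c487 c28 c10598 c1033 c116 (k8 c7962 c10573 c9302 c7883 c8975 c4466 c4433 c1059 (k8 c4462 c566 c5907 c10051 c751 c4403 c1029 c4402 (k8 c762 c10182 c753 c1369 c7717 c489 c490 c754 (k8 c1037 c4337 c4334 c10662 c7468 c2118 c8851 c7096 (k1 c1303 k0))))))) (by decide +kernel)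
def c10679 : PP 8 4 T 0x1400000002002000000000000000000040140000004100000000000000000000000002 := rS 0x28abf5432d574b67a215a6c4e50e32c11ea88ab165c99a22b55d92d7ab735a3d22274d8bd329514a4c765782864b40a049043883088e56207019643e216985c1e34 (k8 c10677 c8690 c4431 c5695 c9668 c1099 c487 c28 (k8 c10598 c1033 c116 c7962 c4570 c4466 c4433 c1059 (k8 c4462 c566 c5907 c10051 c751 c4403 c1029 c4402 (k8 c762 c1031 c4432 c764 c8775 c1036 c1306 c492 (k8 c1037 c1039 c4434 c1309 c7883 c10678 c5056 c6781 (k8 c4487 c7395 c7468 c4416 c4420 c4982 c4393 c4488 (k8 c968 c2953 c4987 c1524 c4457 c1944 c2024 c4526 (k2 c9033 c4398 (k1 c4493 k0))))))))) (by decide +kernel)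
def c10680 : PP 8 4 T 0x400000002002000000000000000000080040000000100010000000000000020000102 := rS 0x304f3182a9d0ccaf14a6c5e992b864b40a0380c4241 (k8 c4433 c9668 c28 c10598 c4462 c566 c5907 c751 (k8 c1031 c4432 c764 c4402 c4631 c928 c929 c7395 (k4 c10675 c4447 c4450 c10459 k0))) (by decide +kernel)
def c10681 : PP 8 4 T 0x600000002002000000000000000000000140000004100000000000000000000000002 := rS 0xa5302090210429de109d7e9b53eb55d92d6e6b0b98cca132fa3d22a15389da62559a6c5e994a8a5263b2b9ec37050c968820d38c512e1c050240e032c87c6821 (k8 c9668 c10677 c1099 c487 c28 c10598 c1059 c4462 (k8 c4466 c10680 c10679 c4387 c568 c4433 c566 c5907 (k8 c10051 c4292 c702 c751 c4403 c1029 c4402 c762 (k8 c1031 c4432 c764 c10182 c1369 c5695 c8775 c4558 (k8 c7717 c1036 c1306 c489 c4401 c490 c754 c4431 (k8 c492 c1037 c4434 c1309 c7883 c4414 c10662 c10600 (k8 c968 c4479 c7751 c5976 c8124 c4439 c10618 c606 (k2 c1936 c10664 k0)))))))) (by decide +kernel)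
def c10682 : PP 8 4 T 0x400000002002000000000000000000000140000004100000000000000000000000002 := rS 0x27844603604139191ec5a220d38c512e5a2b82812471bad56e0f48a844e255981c06594d8bd32414a8a5261c1087c683b (k8 c4403 c10677 c1099 c9668 c4466 c1029 c4402 c762 (k8 c4433 c1031 c4432 c764 c487 c28 c10598 c10182 (k8 c1369 c8775 c7717 c1036 c8690 c1037 c7883 c87 (k8 c4404 c1059 c4462 c751 c566 c10680 c10679 c4387 (k8 c568 c10681 c4487 c4416 c4982 c4488 c10606 c968 (k4 c606 c607 c10663 c1299 k0)))))) (by decide +kernel)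
def c10683 : PP 8 4 T 0x400000002002000000000000000000000000000008100000000000020000020002002 := rS 0x4110f083695810513585cc629 (k8 c4402 c754 c4431 c492 c4435 c1290 c1057 c9753 (k4 c4479 c10041 c8851 c4076 k0)) (by decide +kernel)
def c10684 : PP 8 4 T 0x600000002002000000000000000000000140000000100000000000000000000000002 := rS 0x8c3015e862a9d0e71744ae0cea30d85da251298fd6ab731a85669514a4c767f6395d2e9f239b14a225d92e290d47a44c01007bf54e2769895329b17c14325a050241a6e0380cb2410e0843e34 (k8 c10677 c1099 c9668 c4466 c4433 c487 c28 c10598 (k8 c10682 c10683 c1060 c4462 c566 c5907 c10051 c4432 (k8 c764 c1031 c1369 c5695 c8775 c4558 c4378 c8690 (k8 c4463 c606 c1036 c1306 c4326 c4486 c4434 c1309 (k8 c607 c1301 c10661 c4404 c1299 c10680 c751 c4289 (k8 c7414 c4403 c1029 c4402 c762 c10182 c7717 c754 (k8 c1037 c7883 c4288 c4290 c4435 c4298 c4431 c4292 (k8 c4337 c4334 c2125 c680 c4361 c1086 c5280 c307 (k4 c7682 c1632 c1692 c10675 (k1 c4450 k0)))))))))) (by decide +kernel)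
def c10685 : PP 8 4 T 0x400000002002000000000000000000000140000000100000000000000000000000002 := rS 0x8864465823d511562cb9334460a6c8a0654a9f8696844604b95c141004835fa6e49a55329b53a85228f0e01c1e272c884062f2091c52d35aaec96b71d87c4a34 (k8 c10677 c1369 c1099 c4403 c1037 c4434 c1309 c7883 (k8 c5695 c4402 c4404 c4433 c4432 c28 c9668 c487 (k8 c8775 c8690 c10598 c4466 c1306 c1036 c7717 c4558 (k8 c764 c1031 c762 c1029 c10682 c4378 c10683 c1060 (k8 c4463 c4462 c751 c10680 c606 c607 c566 c4326 (k8 c1299 c1301 c5907 c4486 c10661 c10051 c10684 c5056 (k8 c6781 c4487 c7395 c2125 c4416 c4420 c4982 c937 (k2 c4987 c2618 k0)))))))) (by decide +kernel)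
def c10686 : PP 8 4 T 0x200000002002000000000400000000000040005414000000000000020041000010001 := rS 0x4220d02b10b94c52d35d92d7a41368080a0f (k8 c1329 c10382 c4461 c5028 c4433 c1039 c4434 c1309 (k8 c5695 c4402 c4290 c4431 c1034 c10263 c4570 c2122 (k1 c8927 k0))) (by decide +kernel)
def c10687 : PP 8 4 T 0x1000000000000000000000000000000024088 := rS 0x10d119704c0d (k4 c112 c342 c343 c793 (k2 c4324 c9045 k0)) (by decide +kernel)
def c10688 : PP 8 4 T 0x1600000002002000000000000000000000140000004100004000000000000010000000 := rS 0x238ba50d6272f976109a52a668a857e2f9068158844f27338818ee580585c66d35aaec96b71d8941e5b049ed3a6d53a457a4149b2d5c2929ab45e31158803e34010040a51 (k8 c4435 c10382 c10685 c4461 c10677 c1099 c4466 c10518 (k8 c6830 c4432 c4338 c4290 c4402 c7769 c8140 c4413 (k8 c4433 c1039 c1035 c4500 c5028 c10547 c4055 c1059 (k8 c839 c1329 c1369 c4403 c1037 c4434 c1309 c7883 (k8 c5695 c4294 c4431 c303 c4476 c7751 c4462 c1304 (k8 c1109 c500 c10687 c1034 c10263 c4570 c10686 c4480 (k8 c8927 c4399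 c1133 c1403 c5760 c7782 c4377 c7647 (k4 c4568 c1968 c868 c8859 (k2 c792 c8615 k0))))))))) (by decide +kernel)
def c10689 : PP 8 4 T 0x1600000002002000000000000000000000140000004100000000000000000010000000 := rS 0x1e1307452a86181954a3d7e435988c149b2c959834b82ab926ad4f995462f2894c8e2963ad5764b5b8ecda5b04a752e2d188ac401f010040aa748af46841 (k8 c4433 c10677 c1039 c1035 c4500 c10382 c10685 c4461 (k8 c1099 c4466 c10518 c6830 c4286 c926 c10547 c1059 (k8 c839 c5028 c4403 c1037 c4434 c1309 c7883 c4289 (k8 c4402 c4404 c4290 c4435 c4432 c4337 c4412 c4414 (k8 c4338 c4413 c7769 c10512 c4428 c1715 c10688 c63 (k8 c804 c799 c2775 c1187 c10552 c5760 c1305 c7774 (k8 c308 c4486 c4329 c4385 c7050 c2126 c10459 c1929 k0))))))) (by decide +kernel)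
def c10690 : PP 8 4 T 0x1400000002002000000000000000000000100000005100004000000020000010000008 := rS 0x1526b4d2154a5f8623c465d7e20d02b1089e4e2063b9601617698dd764b2d824c20f1007cf69d53a457a41 (k8 c4433 c1039 c1035 c4500 c10547 c4055 c1099 c4466 (k8 c1329 c879 c1059 c839 c4434 c1309 c87 c5695 (k8 c4431 c303 c4476 c7751 c4462 c1304 c500 c10687 (k8 c1034 c10263 c4570 c4480 c4377 c792 c1305 c4486 (k4 c4382 c4385 c10110 c6745 (k2 c10516 c866 (k1 c8696 k0))))))) (by decide +kernel)
def c10691 : PP 8 4 T 0x400000002002000000000000000500020140000000100008000000000000010000100 := rS 0x1307854b0696ae55a8cc474178cda247168a58ebb25af4825b15a7d22bf4da3c461921964da9d188080205050803e34 (k8 c10677 c1099 c4466 c799 c10382 c10685 c4461 c6830 (k8 c10547 c5028 c63 c10552 c308 c2775 c1305 c804 (k8 c5760 c1035 c7077 c10518 c839 c4433 c1039 c4434 (k8 c1309 c4289 c4402 c4286 c4404 c4298 c4294 c4432 (k8 c803 c802 c2782 c3621 c5654 c4428 c1715 c7774 (k2 c10459 c2126 (k1 c1929 k0))))))) (by decide +kernel)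
def c10692 : PP 8 4 T 0x500000002002000000000000000001454000000000000000000041000000000000000 := rS 0x3058716629048ad12894c763f (k8 c4288 c4403 c4290 c4435 c4298 c4296 c4433 c7718 (k4 c4487 c4362 c4420 c2115 k0)) (by decide +kernel)
def c10693 : PP 8 4 T 0x1400000002002000000000000000000000140000004100000000000000000010000000 := rS 0x26632c460b0ce4921ea554b05860651e431182936592b4454e45298ec2a3f5e904da094ea452e2d188ac401f1a0080205 (k8 c10382 c10685 c4461 c10677 c1099 c4466 c10518 c6830 (k8 c4286 c926 c1035 c10547 c1059 c5028 c4433 c1039 (k8 c4288 c4284 c4403 c4290 c4296 c4500 c10689 c10690 (k8 c63 c804 c799 c2775 c10552 c1305 c308 c4486 (k8 c10051 c4385 c10691 c7465 c10692 c1069 c3069 c1661 (k4 c9804 c9828 c3072 c4488 k0)))))) (by decide +kernel)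
def c10694 : PP 8 4 T 0x600000002002000000000000000000000140000004100004000000000000010000000 := rS 0xc2e1214e270c9ae19084d2968aa9a5a157cae56a7d462f2894c8e2d14b1c4a613da74622b3888d1f141007cee6d3ca0496830881816094880802056985c1e34 (k8 c10677 c1329 c4431 c5695 c10382 c10685 c4461 c1035 (k8 c1059 c303 c4462 c10687 c4570 c4434 c10263 c500 (k8 c5028 c7751 c1099 c4466 c10693 c4388 c832 c4387 (k8 c10518 c6830 c10547 c4055 c879 c1369 c4289 c4402 (k8 c4286 c4404 c4290 c4435 c4432 c4337 c4414 c4338 (k8 c7769 c10686 c8927 c4428 c7774 c4399 c1403 c5760 (k8 c7782 c9441 c1968 c4436 c4324 c4330 c4200 c8517 (k2 c10608 c1287 k0)))))))) (by decide +kernel)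
def c10695 : PP 8 4 T 0x2400000002002000000000040000001000102500005100020000000000000200000080 := rS 0x26541745e3369815627111a3cf217 (k8 c4431 c500 c4388 c832 c4387 c4350 c10382 c5695 (k4 c4294 c4432 c1498 c10079 (k2 c10535 c974 k0))) (by decide +kernel)
def c10696 : PP 8 4 T 0x400000002002000000000000000000000140000004100004000000000000010000000 := rS 0x22eb34a3115cab311960a8735c2134be42c450681089ccf275031dcb00b1785c66d12884c762d69aec96bd2099c1e5b04a44f69d368c456200f8d0040102ac4e314 (k8 c10693 c4387 c4350 c10382 c10685 c4461 c10677 c1099 (k8 c4466 c10518 c6830 c5028 c10547 c4055 c1035 c1059 (k8 c839 c1329 c5084 c4433 c1039 c4434 c1309 c5695 (k8 c4286 c4403 c4401 c4435 c4298 c4294 c4431 c4432 (k8 c303 c4476 c7751 c4462 c498 c500 c1021 c10687 (k8 c10263 c4570 c10694 c10695 c7037 c6745 c7782 c1968 (k8 c4440 c4076 c9678 c4478 c1612 c5654 c869 c868 (k2 c1250 c4418 (k1 c4481 k0))))))))) (by decide +kernel)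
def c10697 : PP 8 4 T 0x600000002002000000000000000000000140000004100000000000000000010010000 := rS 0x7684264d6a652d144c4c24a0d024b0b8cda6bd208941e7b4d834e219219653a0a42aa53e5648d2d5c53568bc625111a3e2847638ac401f1a0080a2916a8cda01 (k8 c10685 c5028 c4337 c4286 c4402 c10382 c4461 c10677 (k8 c1099 c4466 c10518 c4289 c4404 c10693 c4388 c832 (k8 c4435 c6830 c4432 c4338 c4290 c7769 c4428 c1035 (k8 c10696 c7077 c7774 c10079 c799 c10547 c63 c10552 (k8 c308 c4387 c568 c804 c4055 c1329 c1369 c4433 (k8 c1039 c5695 c4294 c4431 c4434 c10263 c4570 c10608 (k8 c10080 c10478 c4451 c1934 c4568 c2008 c2010 c4479 (k2 c10618 c4438 k0)))))))) (by decide +kernel)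
def c10698 : PP 8 4 T 0x2002000000001045080044045540200005001008000000000000001000100 := rS 0x501f0ea883cc256705 (k8 c10051 c1187 c4439 c1962 c9756 c10459 c2045 c7050 (k1 c1625 k0)) (by decide +kernel)
def c10699 : PP 8 4 T 0x600000002002000000000000000000000140000004100000000000000000010000000 := rS 0x32540883ac2506793b51130a540a9cb8262fbf420a960d2d5c9356a8c5e332894c8e2963ad5764b5b8ecb6093083c562347c513e9159a5c5abf4dc1432432c9b53a31010040a0a2b0803e34 (k8 c10677 c1099 c4466 c10696 c799 c10382 c10685 c4461 (k8 c6830 c10547 c5028 c63 c10552 c308 c10051 c804 (k8 c5760 c4286 c926 c1187 c1035 c7077 c10693 c4388 (k8 c832 c10518 c1329 c879 c1059 c839 c4403 c1037 (k8 c4434 c1309 c7883 c4289 c4402 c4404 c4290 c4435 (k8 c4294 c4432 c4337 c4338 c4413 c7769 c4428 c1715 (k8 c7774 c10697 c4300 c542 c342 c343 c4532 c10698 (k8 c1341 c7247 c4568 c1071 c1929 c4452 c4438 c10459 (k4 c9756 c7050 c636 c811 k0))))))))) (by decide +kernel)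
def c10700 : PP 8 4 T 0x2000000040000000000200000000000001000000000000001000001015000 := rS 0x9a85 (k2 c1402 c1934 (k1 c10080 k0)) (by decide +kernel)
def c10701 : PP 8 4 T 0x500100002002000000000000000001450000000000000008000040000040000000000 := rS 0x13319623058672490f48245298ec2a3f (k8 c4288 c4284 c4403 c4290 c4296 c4433 c7465 c10692 (k4 c1069 c3069 c1661 c9804 (k2 c9828 c3072 (k1 c4488 k0)))) (by decide +kernel)
def c10702 : PP 8 4 T 0x400000002002000000000000000000000140000004100000000000000000010010000 := rS 0x1ae12a652a0c2ed307834e3142aa5223050c828866d18a6c569716a74b2562d8240401028803e34 (k8 c10677 c1099 c4466 c10382 c10685 c4461 c1059 c839 (k8 c10696 c63 c10547 c4286 c926 c10518 c804 c6830 (k8 c5028 c10552 c799 c308 c10051 c10699 c10701 c7046 (k8 c10693 c4387 c568 c1329 c5695 c4431 c4570 c10700 (k4 c10691 c10210 c2008 c4479 k0))))) (by decide +kernel)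
def c10703 : PP 8 4 T 0x400000002002000000000000000000000140000004100000000000000000010000000 := rS 0x1488153b04b85f7eab820ab51988e8934a4460a1921a7c149b2c9591f14158c52e2048a745e33688b56abb25adc761f36824c20f1a0080205 (k8 c10382 c10685 c4461 c10677 c1329 c879 c1059 c5028 (k8 c1099 c4403 c1037 c4434 c1309 c7883 c4286 c4298 (k8 c4294 c4432 c10547 c1035 c4466 c926 c6830 c10518 (k8 c10693 c4388 c10696 c63 c804 c799 c7077 c10552 (k8 c308 c10051 c10699 c10701 c102 c803 c802 c2782 (k8 c3621 c10702 c5654 c4300 c542 c343 c1715 c4532 (k2 c10698 c10691 (k1 c1341 k0)))))))) (by decide +kernel)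
def c10704 : PP 8 4 T 0x600000002002000000000000000000000140000004100000000000000000000000000 := rS 0x911345140fd57459723182a1c33084e4657cb315ab52ea32894d6abb25af56e2533965362f4a8a5268f3a84cee413c85ce63b388dcf6115895868060e0080205 (k8 c10382 c10685 c4461 c10703 c791 c10677 c790 c3018 (k8 c608 c1227 c87 c497 c4403 c1021 c4431 c500 (k8 c4433 c1023 c4401 c498 c761 c1029 c4402 c762 (k8 c4432 c764 c1026 c5084 c1369 c1037 c1039 c4434 (k8 c1309 c7883 c4290 c4435 c4337 c4336 c4338 c4411 (k8 c5025 c10686 c4369 c5760 c7782 c4654 c4440 c4076 (k8 c228 c4548 c4481 c7769 c8859 c4112 c4480 c7717 (k2 c4352 c872 k0)))))))) (by decide +kernel)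
def c10705 : PP 8 4 T 0x400000000000000040000000000000000002000001100000000000004001000000010 := rS 0x9cbca8 (k4 c10079 c10110 c974 c10439 k0) (by decide +kernel)
def c10706 : PP 8 4 T 0x4100100002002000000000000000000014004000140100008000000001000000000000 := rS 0xab312bd6496178cda205 (k8 c10382 c4298 c4294 c4432 c4487 c4481 c4631 c1188 (k2 c1612 c5654 k0)) (by decide +kernel)
def c10707 : PP 8 4 T 0x400000002002000000000000000000000140000004100000000000000000000000000 := rS 0x2259f433f1f4191466bf566b98b0c60a870cc213919a2afa22c941a0422b13d9c4e6793b9d4ac0649a55361c078bc2e512384c52375aaec96bd20adc7602429b402251a015a633 (k8 c4294 c5695 c10382 c10677 c1369 c10685 c5028 c10705 (k8 c4461 c4403 c1037 c4433 c1039 c4434 c1309 c7883 (k8 c87 c4402 c4401 c4404 c4435 c4431 c4432 c1329 (k8 c10703 c764 c762 c1029 c791 c790 c498 c1023 (k8 c500 c1021 c497 c1227 c3018 c608 c10263 c4570 (k8 c10573 c10704 c7037 c4399 c4369 c5760 c7782 c4654 (k8 c4440 c4076 c228 c10706 c4361 c4358 c8859 c1485 (k8 c4480 c8124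 c1291 c9361 c4392 c1521 c6175 c9154 k0)))))))) (by decide +kernel)
def c10708 : PP 8 4 T 0x620000002002000000000000000400000000000000000000000000001041400000000 := rS 0x19b452633e86a9a5b2c90ae56a8c5ed12894c8e2d14b1c4e9f (k8 c4384 c4324 c4289 c4402 c4286 c4404 c4290 c4435 (k8 c4298 c4432 c4337 c4338 c7769 c7771 c8140 c4428 (k4 c7774 c4421 c1790 c7775 (k2 c4451 c2062 (k1 c4495 k0))))) (by decide +kernel)
def c10709 : PP 8 4 T 0x500100002002000000000000400001420000000400040014000040001000200000008 := rS 0x2bd56c03a8f4c4ad328cc565a (k8 c4476 c10518 c4294 c1697 c860 c4478 c7047 c1689 (k4 c10167 c10126 c1715 c5957 k0)) (by decide +kernel)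
def c10710 : PP 8 4 T 0x500000002002000000000000400001400040000001140014000000000000201000008 := rS 0xc88731a560a2b218c4b477 (k8 c7751 c4476 c6830 c10552 c10518 c10051 c10709 c842 (k2 c10041 c4478 (k1 c10490 k0))) (by decide +kernel)
def c10711 : PP 8 4 T 0x400000000000000000000000000000000000000001100000000000001000002000000 := rS 0xd709 (k2 c4436 c1918 (k1 c4479 k0)) (by decide +kernel)
def c10712 : PP 8 4 T 0x400000002002000000000000000000000140000000100004000000000000010000000 := rS 0x1526b8ca6a22a513c30ba8f0883046082d02c72bd2099d0a25698ccf62b5990d3aa73083c0e592fbf4dc19188803e3401014da01 (k8 c10685 c5028 c10382 c4461 c10677 c1099 c4466 c6830 (k8 c10711 c10707 c4378 c1377 c1107 c10458 c1330 c879 (k8 c4532 c10547 c10552 c10182 c10518 c4055 c4294 c5695 (k8 c1369 c10705 c5084 c4433 c1039 c116 c303 c4476 (k8 c4462 c2833 c1060 c344 c1305 c1287 c9688 c4324 (k4 c4385 c10708 c10710 c4448 (k2 c1969 c866 (k1 c10485 k0)))))))) (by decide +kernel)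
def c10713 : PP 8 4 T 0x400000002002000000000000000000020144000000100000000000000000010000000 := rS 0x401f510a43a154361768944a6130aad54e612f864626d0496cb81006828ac200f9c41e072c8d1a6fd370080205 (k8 c10382 c10685 c4461 c10707 c4378 c5695 c10677 c1107 (k8 c10458 c1330 c94 c1099 c4466 c10712 c799 c568 (k8 c4463 c343 c92 c231 c5028 c6830 c10711 c1377 (k8 c879 c4532 c7883 c4284 c4401 c4290 c4435 c4298 (k8 c4431 c4292 c7046 c803 c10691 c2109 c1690 c1341 (k1 c2045 k0)))))) (by decide +kernel)
def c10714 : PP 8 4 T 0x2002000000001045480044055540240001001000000000000000001000100 := rS 0x50ae4f875441e61305 (k8 c10051 c4439 c1962 c9756 c10459 c2045 c5280 c1625 (k1 c2125 k0)) (by decide +kernel)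
def c10715 : PP 8 4 T 0x600000002002000000000000000000000140000000100000000000000000010000000 := rS 0xa064ae5107584a0cf276a22614a814aa1d82ae49ab45e51298a56abb25adc76b14b8ad66a73097e0a19189b51e9f48824b6bf4da74fe152e435523351898200d05158401f3883c0e591a34dfa6e010040a2d (k8 c4286 c10382 c10685 c4461 c10707 c4378 c5695 c10677 (k8 c1107 c10458 c1330 c94 c1099 c4466 c10712 c799 (k8 c568 c4463 c342 c934 c4294 c974 c4324 c343 (k8 c4284 c670 c10547 c804 c5760 c92 c231 c1035 (k8 c7077 c801 c5028 c6830 c10711 c10051 c1377 c879 (k8 c4532 c10182 c10518 c926 c123 c4403 c1037 c4434 (k8 c1309 c7883 c4402 c4290 c4435 c4432 c4338 c4413 (k8 c7769 c1715 c1633 c10713 c10714 c1341 c6348 c4568 (k8 c1071 c1929 c4452 c4438 c10459 c9756 c5280 c636 (k2 c2125 c811 k0)))))))))) (by decide +kernel)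
def c10716 : PP 8 4 T 0x400000002002000000000000000000000140000000100000000000000000010000000 := rS 0x6a55a1948623a252225c08034120a4d96cad050ca9cc243078ac6297038813a2d6987c686d010040afd38964be6e (k8 c10707 c1377 c1107 c94 c4378 c10382 c10685 c4461 (k8 c5028 c10677 c1099 c5695 c4286 c10547 c4466 c10458 (k8 c926 c6830 c10518 c1330 c10552 c879 c4532 c10711 (k8 c10051 c10712 c92 c804 c799 c231 c568 c4463 (k8 c343 c10715 c10701 c803 c802 c10691 c10713 c3621 (k2 c1342 c1924 k0)))))) (by decide +kernel)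
def c10717 : PP 8 4 T 0x220000000002000000000005000010015500040100040010000000000004400008000 := rS 0x410a8b8599205697518a58e9f (k8 c4384 c4289 c4402 c4337 c4336 c4411 c7771 c5025 (k4 c2125 c242 c5280 c4406 k0)) (by decide +kernel)
def c10718 : PP 8 4 T 0x4500001002002000000000000000000000040040000100000000000000005420000001 := rS 0x18a0ab22aa58566d33a5452932d9cc0c3b3d958040550a7e18d3 (k8 c5695 c4467 c4384 c7717 c10382 c4461 c790 c1227 (k8 c4403 c791 c1021 c758 c1029 c4402 c762 c5084 (k8 c5028 c7194 c4487 c9089 c10629 c4312 c1188 c10076 k0))) (by decide +kernel)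
def c10719 : PP 8 4 T 0x400000002002000000000000000000000140000000100000000000000000000000000 := rS 0xc544abd5a63842710ea28cb052eb35c8f62d114fc31427f1189cf691071ccf2773a834c256030251e934aa65361c2cbf4dc02338045e17209442629698146eb55b8ec4a34 (k8 c10677 c1369 c4403 c1037 c7883 c87 c10382 c5695 (k8 c4402 c4401 c4435 c4433 c4431 c4432 c10685 c5084 (k8 c4461 c10707 c4378 c1107 c10716 c764 c1031 c762 (k8 c1029 c761 c1058 c791 c790 c2883 c1290 c498 (k8 c1023 c500 c1021 c1020 c2998 c1227 c239 c793 (k8 c1460 c7717 c4467 c4384 c10717 c10718 c4416 c4361 (k8 c4358 c4360 c4420 c4982 c2125 c10171 c4488 c4482 (k4 c819 c946 c4574 c4794 (k2 c8820 c9460 k0))))))))) (by decide +kernel)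
def c10720 : PP 8 4 T 0x100000002002000000000000020000020044000000044000000000000000000000080 := rS 0x2090832944ea133b904f217 (k8 c4431 c500 c4433 c1023 c4401 c498 c4435 c1696 (k2 c10572 c4478 (k1 c4076 k0))) (by decide +kernel)
def c10721 : PP 8 4 T 0x800100002002000000000000000000000040000000100000000000000000200000000 := rS 0x21289321ae226333ab0560200815563328abca631148b45ed1 (k8 c4298 c4432 c4286 c4402 c4441 c4290 c4346 c4435 (k8 c4294 c4445 c10382 c9380 c4461 c10518 c2112 c5084 (k4 c5654 c4498 c4442 c4478 (k2 c556 c9678 (k1 c8622 k0))))) (by decide +kernel)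
def c10722 : PP 8 4 T 0x100000002002000000000000420000041144050044044000000000020000000000408 := rS 0x2e592b14a844ea060782426d35aadc7671 (k8 c1304 c4403 c1037 c7883 c5695 c4401 c1059 c1329 (k8 c4462 c498 c10687 c10720 c1034 c10573 c6781 c2121 k0)) (by decide +kernel)
def c10723 : PP 8 4 T 0x800000002002000000000000400000000140050040004004000000020000010000000 := rS 0x10c131741861118201e5a03964dc0b12c45229733a1d3aac1580802051007d563328abca631148b45ed1 (k8 c4298 c4432 c4286 c4402 c4441 c4290 c4346 c4435 (k8 c4294 c4445 c1099 c4466 c10382 c9380 c4461 c10518 (k8 c2112 c4344 c9925 c5084 c926 c1035 c4498 c1369 (k8 c303 c10722 c1107 c10458 c4476 c1330 c4462 c2833 (k4 c879 c1060 c1287 c10562 (k2 c9688 c4324 k0)))))) (by decide +kernel)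
def c10724 : PP 8 4 T 0x2002000000000000000000000140000000100000000000000000010000000 := rS 0x21198a67e9c5411451c3506b91323c1e954f88d620730a4cac18849f4e6b33fc11582b43808ce97008812251298a56ab71d87c4a344ec445a63558c45ed102abe2433 (k8 c4294 c10719 c4346 c10382 c4298 c4432 c4441 c4445 (k8 c5654 c4286 c4498 c4344 c10677 c1369 c1099 c4403 (k8 c1037 c7883 c4402 c4290 c4435 c1035 c4466 c9380 (k8 c926 c5084 c4461 c9925 c10518 c2112 c10721 c4313 (k8 c4312 c4408 c4409 c4076 c5546 c10723 c1069 c2885 (k8 c1017 c3018 c2775 c7077 c802 c1330 c1305 c10562 (k8 c6781 c1999 c4324 c934 c4486 c2125 c4387 c7058 (k4 c900 c901 c5558 c1482 k0)))))))) (by decide +kernel)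
def c10725 : PP 8 4 T 0x40000000000000100000000000000000400805001014055500000000000000000000000000000000000 := rS 0x19f4366a897345 (k4 c4399 c6781 c2125 c1485 (k2 c4393 c1523 (k1 c4495 k0))) (by decide +kernel)
def c10726 : PP 8 4 T 0x2002000000000800000000000044004014000001000000000000001015000 := rS 0x3c2121345 (k4 c4399 c10210 c10166 c7782 (k1 c602 k0)) (by decide +kernel)
def c10727 : PP 8 4 T 0x100000002002000000000805041010041540004014000001000000001000021005002 := rS 0x9f65888fefd08326968843b3582b98b06c2ed12894c8e130aa5452931dc64ef05 (k8 c10051 c1093 c4369 c4403 c1029 c4402 c762 c4284 (k8 c4401 c4404 c4290 c4435 c4298 c4431 c4292 c10283 (k8 c6781 c4420 c1485 c10171 c2109 c4457 c637 c10726 (k4 c4300 c670 c607 c8863 (k2 c1299 c10725 k0))))) (by decide +kernel)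
def c10728 : PP 8 4 T 0x100000002002000000000800041001000140000005000004000000021000020000000 := rS 0xfd64841114366a1d707d3fb14e8738ba58aa71330360a193b86c2ed12894c26155aadc768f1b828f6b34a8a41e0001a4542272d1640a25 (k8 c1369 c10382 c1026 c4476 c2877 c7717 c1036 c790 (k8 c4461 c8690 c4402 c762 c665 c704 c759 c87 (k8 c761 c4403 c1037 c7883 c4284 c4401 c4290 c4435 (k8 c4298 c4431 c4292 c1093 c309 c10051 c8851 c5056 (k8 c1303 c7395 c10727 c4360 c1083 c929 c1252 c10049 (k8 c1691 c9871 c1693 c1486 c4394 c2109 c10726 c637 (k2 c4300 c4483 k0))))))) (by decide +kernel)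
def c10729 : PP 8 4 T 0x100000000000000000000805021415415500000000082000000000000000000000000 := rS 0x2e146c2673162e9665b069719 (k8 c4369 c4458 c1986 c2026 c10725 c4360 c1252 c4572 (k4 c4494 c1523 c1215 c7402 k0)) (by decide +kernel)
def c10730 : PP 8 4 T 0x810000002002000000000804010014041500000000000000000000000000020000000 := rS 0x65d2d9f4362289731654abc62ab888b5362f4a8a5263b (k8 c4403 c1029 c4402 c762 c4432 c764 c4286 c4498 (k8 c4445 c4441 c4346 c4345 c10283 c6781 c5931 c7641 (k4 c4393 c1523 c4429 c1756 (k1 c9033 k0)))) (by decide +kernel)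
def c10731 : PP 8 4 T 0x800000002002000000000000000000000140000000000004000000020000020000000 := rS 0x2e284c264a219a873eb14e89656954cd054fc34ee19111810a7f08035fa6e40af94ea14883cf6270016812030d85da2512991c261563b4d6abb25af482b7129b53aa9578c532a5888b4b2054d8bd2a29498ed1e37 (k8 c87 c761 c4403 c1029 c4402 c762 c4432 c764 (k8 c10382 c1026 c4286 c4498 c4444 c4443 c4441 c4346 (k8 c4345 c4344 c4342 c1369 c1037 c4433 c1039 c4434 (k8 c1309 c7883 c5695 c4289 c4284 c4401 c4404 c4290 (k8 c4435 c4298 c4431 c4292 c790 c1057 c4476 c4461 (k8 c2877 c704 c8690 c1036 c7717 c4558 c2126 c1364 (k8 c10728 c4378 c1290 c4463 c7414 c710 c606 c607 (k8 c349 c1094 c4326 c1299 c10051 c5056 c7395 c10729 (k8 c10730 c929 c1252 c5258 c1693 c1486 c2109 c637 (k4 c597 c4483 c1215 c4394 k0)))))))))) (by decide +kernel)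
def c10732 : PP 8 4 T 0x200002002000000000000444000000040004004000008000000021000020000000 := rS 0x33e86cd65ae108c2a2d2d92818c2b022713b9d456065f80906790083c122f19b44a6131d8b452d3028dd764b5e905627f399f51255849443087 (k8 c4410 c5546 c4435 c4076 c4406 c4314 c4409 c4408 (k8 c4313 c3018 c4433 c1039 c4434 c1309 c87 c10382 (k8 c5695 c4402 c4286 c4403 c4401 c4290 c4298 c4294 (k8 c4432 c1059 c1329 c751 c1959 c1999 c4461 c7782 (k8 c791 c226 c498 c1023 c497 c608 c2112 c4482 (k8 c10263 c10573 c4458 c8243 c9078 c7037 c9361 c2028 (k4 c1482 c4394 c1525 c4495 k0))))))) (by decide +kernel)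
def c10733 : PP 8 4 T 0x200002002000000000000000000000140000000100000000000000000000000002 := rS 0xcda2b2508be08830baa750a44c2080789cca4709b4c72bb25af4822536a75526b4ca9442594da3c6e5b2f9b9666317b440a333d95838ab18abe2434 (k8 c10677 c10719 c4346 c4441 c4445 c10724 c10731 c1227 (k8 c4294 c10382 c4298 c4432 c5654 c1188 c10732 c1377 (k8 c92 c87 c761 c764 c1026 c85 c4444 c4443 (k8 c4442 c4345 c4344 c4342 c1369 c4433 c1039 c4434 (k8 c1309 c116 c5695 c4401 c4404 c490 c8775 c8690 (k8 c751 c7428 c1036 c7717 c4558 c753 c1060 c344 (k4 c2126 c8696 c506 c4399 (k2 c3457 c10585 k0)))))))) (by decide +kernel)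
def c10734 : PP 8 4 T 0x200002002000000000000000000000140000000100000000000000000000000000 := rS 0x9c460e068acc20604808026e2a894f6b32b0706863558c45ed102abe2433 (k8 c4294 c10719 c4346 c10382 c4298 c4432 c4441 c4445 (k8 c5654 c10677 c10724 c10731 c1188 c1227 c1369 c4406 (k8 c10732 c10733 c4461 c1058 c791 c2883 c226 c1290 (k4 c1020 c793 c239 c10562 k0)))) (by decide +kernel)
def c10735 : PP 8 4 T 0x2002000000000000000000000140000004100000000000000000000000000 := rS 0xfc9e3ea4418be7ea15974b84311431960a5d863d64a0d0316089c4f2773aa24e60b031910e02338041e090b91c26d35aaec96bd20add3aa935a66222d10a6d2a29498ed1e373dac566560e0d0c6ab188bda20557c486705 (k8 c10734 c4294 c10719 c4346 c10382 c4298 c4432 c4441 (k8 c4445 c5654 c10677 c10724 c10731 c1188 c3018 c1227 (k8 c87 c761 c4403 c1029 c4402 c762 c764 c85 (k8 c4286 c4498 c4443 c4442 c4345 c4344 c1037 c4433 (k8 c1039 c4434 c1309 c7883 c5695 c4401 c4404 c4431 (k8 c1059 c1329 c751 c5084 c4461 c9925 c4478 c791 (k8 c302 c1648 c556 c498 c1023 c500 c497 c608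 (k8 c10706 c10263 c4570 c10573 c4416 c4362 c4360 c4420 (k8 c4982 c1736 c7274 c4482 c4429 c1756 c4321 c8859 (k4 c7037 c8124 c1244 c1291 (k2 c10725 c5124 (k1 c1394 k0)))))))))))) (by decide +kernel)
def c10736 : PP 8 4 T 0x100000000000000000000000000000000000001000008000000020000000000002 := rS 0x1a08 (k2 c751 c8851 (k1 c1060 k0)) (by decide +kernel)
def c10737 : PP 8 4 T 0x2002000000000000000000000140000000100000000000000000000000000 := rS 0x84062323d2609e2c2353838f2773a9cc1a610319012870119c025f7e9ba0a7b2b24d2a1c31c4556a518abd529d36c484a34258bc2e4f208cda2131d8b45205 (k8 c10382 c4402 c4286 c4403 c4401 c4298 c4294 c4433 (k8 c4297 c4431 c4432 c4434 c10677 c1369 c10719 c4342 (k8 c4344 c4345 c4346 c4441 c4444 c4445 c4498 c5654 (k8 c10724 c762 c1029 c10731 c1227 c10734 c10735 c4378 (k8 c1377 c10736 c5084 c4461 c9925 c1058 c4478 c791 (k8 c2883 c1290 c1648 c498 c1023 c500 c1020 c4532 (k8 c793 c10706 c239 c2111 c4416 c4982 c244 c4482 (k1 c4436 k0)))))))) (by decide +kernel)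
def c10738 : PP 8 4 T 0x401000002002000000000000000000000200000000100004000000010000012000002 := rS 0x1854cfc260357e434197d360854c50b407120e4b279139b06e1e059ac4217279048ad302c353a23 (k8 c1297 c10547 c4383 c10382 c5695 c4296 c4433 c4297 (k8 c4431 c9668 c492 c567 c4466 c1384 c4479 c9118 (k8 c8961 c4993 c1114 c9120 c1097 c4476 c4470 c1503 (k8 c4462 c5506 c9119 c641 c237 c4566 c1367 c10063 (k4 c9674 c9728 c4302 c904 k0))))) (by decide +kernel)
def c10739 : PP 8 4 T 0x400200002002000000000000000000000040000000100004000000010000010000000 := rS 0x200de5d5203c4c614289562a9042fc86791b87a30585d844425b4d82c606a3b9ec046d00862128720945a60586a3d189d (k8 c10547 c10737 c100 c4383 c10382 c5695 c4435 c4433 (k8 c4410 c4076 c5546 c10738 c5028 c4461 c4055 c7751 (k8 c4479 c10711 c303 c3875 c5527 c6830 c2304 c1390 (k8 c4476 c5528 c4466 c1384 c541 c4446 c4369 c222 (k8 c1507 c3125 c9835 c10079 c616 c9120 c2154 c357 (k4 c807 c8928 c9959 c1923 k0)))))) (by decide +kernel)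
def c10740 : PP 8 4 T 0x210000002002000000000000000001000000000000000000000000151002080000000 := rS 0xbf2690d5c2f2894c52d35493d5a2b (k8 c4411 c4338 c4297 c1503 c5695 c4402 c4290 c4435 (k4 c4432 c7769 c276 c284 (k2 c9441 c10063 k0))) (by decide +kernel)
def c10741 : PP 8 4 T 0x10000002000000040000020081001000000000000000000000000150004480000000 := rS 0x4326a6d4ec567afd764b (k8 c4434 c9034 c9441 c1525 c1254 c909 c869 c9728 (k2 c277 c9891 k0)) (by decide +kernel)
def c10742 : PP 8 4 T 0x410000002002000000000000001001400000000000000000000001150004480000000 := rS 0x4cc654ccda29317e4329af628d3 (k8 c5695 c4470 c4354 c4290 c277 c4566 c10063 c4451 (k4 c2062 c9728 c9915 c2010 (k1 c4488 k0))) (by decide +kernel)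
def c10743 : PP 8 4 T 0x14000000000000000002014040000000000000000000000000000000000000000000000 := rS 0x1834b (k2 c4460 c1988 (k1 c4494 k0)) (by decide +kernel)
def c10744 : PP 8 4 T 0x100000002000000000000000000000040000000100000000080000000010000082 := rS 0x58 (k2 c10458 c8579 k0) (by decide +kernel)
def c10745 : PP 8 4 T 0x600100002002000000000000000000000040000000100000000000010000010000002 := rS 0x60da080390934301e8ae1a9d1182c6e39548904e1e10a31a64f (k8 c4297 c5695 c10737 c9668 c4466 c9118 c9120 c1503 (k8 c1114 c1384 c567 c1297 c10547 c4383 c4411 c274 (k8 c10740 c10742 c1966 c10744 c4462 c5506 c236 c9671 k0))) (by decide +kernel)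
def c10746 : PP 8 4 T 0x400100002002000000000000000000000040000000100000000000010000010000002 := rS 0x300a9400f242e47ac94a99a22b55bc504839138dc3c114b82c42471d8fd8ea311b4e1a8c (k8 c10737 c4383 c5695 c1297 c9264 c4289 c4288 c4403 (k8 c4404 c9668 c567 c6579 c607 c4466 c1384 c9118 (k8 c1114 c9120 c4470 c7094 c4389 c10745 c5056 c5290 (k8 c633 c275 c5821 c2113 c243 c283 c282 c896 (k1 c7383 k0))))) (by decide +kernel)
def c10747 : PP 8 4 T 0x400100002002000000000000000000000240004400000004000000010004010000001 := rS 0xe8b31e90c10072c2d56e370f450e2217e9bd620e2f124c2241c91c763f63b4c0405 (k8 c10382 c4461 c5695 c4289 c4288 c4403 c4404 c1114 (k8 c9120 c878 c2134 c225 c224 c1116 c1378 c4376 (k8 c5471 c3369 c4480 c4466 c1384 c4353 c4389 c223 (k4 c1098 c222 c2132 c2131 (k2 c10182 c4559 (k1 c10453 k0)))))) (by decide +kernel)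
def c10748 : PP 8 4 T 0x2000000040000440000000000201004400000004000040010008000000108 := rS 0x8340af41e4c58c50c211379e472712c0183e5b0b82c6e91 (k8 c129 c321 c303 c4431 c839 c222 c4462 c4476 (k8 c1386 c1113 c500 c1019 c609 c4565 c4538 c8612 (k4 c10063 c239 c4354 c1895 (k2 c4570 c2122 k0)))) (by decide +kernel)
def c10749 : PP 8 4 T 0x400000002000000040000000000001400201004404000000000000111008001000200 := rS 0x26632a63c2950345419c57a4c8a1061a3748aed7ea91990d6211 (k8 c345 c3125 c4567 c4294 c974 c4566 c1390 c129 (k8 c321 c4383 c4433 c4538 c10063 c4354 c4387 c9673 (k8 c4451 c1895 c1934 c2122 c4490 c4447 c2010 c4488 k0))) (by decide +kernel)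
def c10750 : PP 8 4 T 0x200000002002000000011000400000400244000000000000000040200000001000008 := rS 0x22e79399d584581e878361720915a251298ec2a3f32a4d6a9f (k8 c4414 c1387 c4413 c4412 c4288 c4284 c4403 c4290 (k8 c4435 c4298 c4296 c4433 c4431 c4292 c1113 c363 (k4 c223 c2115 c538 c1109 (k2 c541 c4362 (k1 c8521 k0))))) (by decide +kernel)
def c10751 : PP 8 4 T 0x600000002002000000000000000001400040000001100004000000011008000000008 := rS 0x1e6e0893072b30421d82430cab85e51298fc527b3b8dd228512815a6ad15aed18bf548cd8a93 (k8 c4413 c7718 c4294 c974 c4566 c10737 c1390 c4411 (k8 c4338 c5695 c10382 c115 c10705 c129 c321 c7751 (k8 c4055 c4402 c4288 c4290 c4435 c4432 c7769 c10711 (k8 c4567 c1715 c1633 c10748 c1185 c10750 c10063 c344 (k2 c10749 c244 (k1 c8928 k0)))))) (by decide +kernel)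
def c10752 : PP 8 4 T 0x600000002002000000000000000000400040000000100004000000010000010000000 := rS 0xf2717e2068abd8c16d07092603d4e11109a830302082c048512898ee7b4ea30da0182815a633 (k8 c4294 c5695 c10382 c10739 c10746 c5028 c10737 c10547 (k8 c4055 c7751 c10747 c115 c10705 c4461 c303 c4433 (k8 c10751 c228 c229 c6830 c2304 c2007 c2156 c356 (k8 c4436 c1999 c5066 c5528 c1120 c4451 c1895 c4484 (k2 c1386 c4447 (k1 c6225 k0)))))) (by decide +kernel)
def c10753 : PP 8 4 T 0x600100002002000000000000001001800040000001100000000000051000000000008 := rS 0xcda292098390f90cb2725c8f566758bb1128bfa5b2d5c2f68944a6471d8a5a70d3dab456b54fadd268c (k8 c10737 c4413 c1117 c4414 c1387 c4411 c4338 c4055 (k8 c4383 c5695 c4402 c4403 c4404 c4290 c4435 c4298 (k8 c4432 c7769 c8140 c4428 c9441 c868 c869 c4418 (k8 c1784 c1250 c1782 c1254 c4481 c1109 c10552 c223 (k4 c1113 c10063 c7430 c4451 (k2 c2062 c4573 k0)))))) (by decide +kernel)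
def c10754 : PP 8 4 T 0x600100002002000000000000001001800040000001100000000000050000000000008 := rS 0x1a83030 (k4 c10753 c228 c229 c3875 k0) (by decide +kernel)
def c10755 : PP 8 4 T 0x600000002002000000000000000000000040000000100004000000010000010000000 := rS 0x2680405548cc6e263b9ecda9d00c15228c (k8 c10737 c129 c10739 c10746 c10547 c5028 c4055 c7751 (k8 c10747 c321 c4294 c974 c10382 c4461 c10752 c10754 k0)) (by decide +kernel)
def c10756 : PP 8 4 T 0x500000002002000000000000000000400040000001140004000000000000051000208 := rS 0x5910275663f (k4 c4288 c1185 c10547 c4466 (k2 c1105 c10710 k0)) (by decide +kernel)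
def c10757 : PP 8 4 T 0x400000002002000000000000000000400040000000100004000000011000010000000 := rS 0x45d848760c2130c535af14c817e45506753c9bce25d1c03c7a580887962b30410c321720915a251298ec7f0d4799c048512815a7115dafd52263b9ecda9d00c151833 (k8 c4294 c10737 c10739 c10746 c10547 c5028 c4055 c7751 (k8 c10747 c974 c4566 c1390 c10755 c5695 c10382 c115 (k8 c10705 c4461 c5084 c100 c4383 c4288 c4403 c4290 (k8 c4435 c4298 c4296 c4433 c4431 c10711 c4567 c10748 (k8 c1185 c3125 c10756 c2302 c223 c2131 c2154 c352 (k8 c807 c537 c1108 c541 c10453 c4570 c4348 c4480 (k8 c4380 c6353 c2122 c2008 c3130 c1119 c4479 c3914 (k4 c4440 c2115 c4362 c10423 k0)))))))) (by decide +kernel)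
def c10758 : PP 8 4 T 0x400000002002000000000000000000400040000000100004000000010000010000000 := rS 0xf2717e2068abd8c16d07092603d4e11109a830302082c048512898ee7b4ea30da0182815a633 (k8 c4294 c5695 c10382 c10739 c10746 c5028 c10737 c10547 (k8 c4055 c7751 c10747 c115 c10705 c4461 c303 c4433 (k8 c10757 c228 c229 c6830 c2304 c2007 c2156 c356 (k8 c4436 c1999 c5066 c5528 c1120 c4451 c1895 c4484 (k2 c1386 c4447 (k1 c6225 k0)))))) (by decide +kernel)
def c10759 : PP 8 4 T 0x10000000002000000040000400000000000200004400000004000000010008000000108 := rS 0x2081e815dc50c211379e472580307cb64b0b82c6e91 (k8 c129 c321 c303 c4431 c4434 c839 c222 c4462 (k8 c4476 c1113 c500 c1019 c609 c4565 c4538 c9034 (k4 c7000 c239 c10474 c4570 k0))) (by decide +kernel)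
def c10760 : PP 8 4 T 0x500100002002000000000400000000800200000000100004000000011008050000001 := rS 0x12296cb3aab8c46537a9a105f07b368ab535a94b42b260456f142c88072d12991c762d1fb1e1a67548cc6e914c90c11193b9ed3a0202b4c326d (k8 c5028 c10711 c5695 c10382 c4461 c10547 c4055 c7751 (k8 c4448 c10759 c236 c104 c129 c321 c4294 c974 (k8 c5084 c4383 c4289 c4288 c4286 c4403 c4404 c4290 (k8 c4298 c1113 c4466 c1105 c4538 c7094 c344 c10063 (k8 c10518 c231 c9866 c1969 c4389 c4451 c2062 c244 (k8 c9867 c4479 c4490 c8928 c9678 c4478 c10554 c1689 (k4 c8140 c4428 c4559 c4573 k0))))))) (by decide +kernel)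
def c10761 : PP 8 4 T 0x400100002002000000000000480001100000000100000020000041000000000000000 := rS 0x1c926ad (k4 c193 c1779 c10445 c1109 k0) (by decide +kernel)
def c10762 : PP 8 4 T 0x100100002002000000000000040000800000005400100000000000001040000000001 := rS 0x55188cb08358bc66d116814cf19 (k8 c4448 c5084 c10382 c4286 c4298 c4294 c4432 c1968 (k4 c4482 c9678 c4478 c5654 (k1 c1613 k0))) (by decide +kernel)
def c10763 : PP 8 4 T 0x400100002002000000000000410001100004000100000020000041001040000000000 := rS 0x1895472178cda251298b452af (k8 c10761 c4402 c4286 c4290 c4435 c4298 c4294 c4432 (k4 c10445 c2112 c1110 c1612 k0)) (by decide +kernel)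
def c10764 : PP 8 4 T 0x1000000000000000000000010500040000200000104000020000001000080000000018 := rS 0x5bad4fe7350a54c8633ebf0e28f (k8 c100 c537 c4480 c4379 c1607 c227 c1694 c7295 (k4 c1110 c555 c1388 c1118 (k1 c4088 k0))) (by decide +kernel)
def c10765 : PP 8 4 T 0x400000002002000000000400000000000040000000100004000000011000010000000 := rS 0x2dd6a7f39a852a6431ab10e6a3c0ad5e7d7e29d73153a9bce25d1c0f4b0110f10d62b3040fd22a311b4e1a0202898ee7b4ec4533195ea691e8c0c9b40305 (k8 c10739 c10746 c5028 c10711 c10737 c100 c10758 c2019 (k8 c4448 c104 c10755 c10547 c4055 c7751 c10747 c10382 (k8 c4461 c4383 c5695 c1297 c9264 c129 c4288 c10759 (k8 c1185 c3125 c236 c10760 c2302 c223 c2131 c352 (k8 c807 c537 c1108 c10453 c4348 c1201 c8272 c4480 (k8 c4379 c10761 c10764 c10762 c540 c3877 c10763 c820 (k8 c2049 c5367 c900 c1110 c555 c1388 c1118 c4088 k0))))))) (by decide +kernel)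
def c10766 : PP 8 4 T 0x400000002002000000000000000000000040000000100004000000011000010000000 := rS 0x648417cd65a2c8200e78158814c1f57a9473455f05c8a2d69c34ce0b0101552331b898ee7b36a74030548a32229a (k8 c10758 c10755 c10737 c129 c10739 c10746 c10547 c5028 (k8 c4055 c7751 c10747 c321 c4294 c974 c10382 c4461 (k8 c303 c5084 c4383 c5695 c4286 c4296 c4431 c10765 (k8 c4399 c1240 c1404 c9441 c352 c4490 c4466 c10518 (k8 c10762 c500 c4462 c1105 c231 c1969 c9867 c4479 (k2 c10554 c9678 k0)))))) (by decide +kernel)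
def c10767 : PP 8 4 T 0x400000002002000000000000000000000040000000100004000000010000010000000 := rS 0x35060609a010060a05 (k8 c10382 c10739 c10746 c4461 c10758 c10766 c228 c229 (k1 c3875 k0)) (by decide +kernel)
def c10768 : PP 8 4 T 0x400000002002000000000000000000000040000000100000000000010000010000000 := rS 0x3c220210035fa5e0087cdc5669815228c (k8 c10737 c129 c10382 c5695 c10767 c1067 c1066 c750 (k8 c1068 c4378 c1289 c4466 c4461 c542 c5407 c4463 k0)) (by decide +kernel)
def c10769 : PP 8 4 T 0x400000002002000000000000000000000040000000100004000000000000010000002 := rS 0x4a199803d3eb353043a2c15f8a840b25068784214f673309bcf2063b844da5852a7d625b2e8894ea10f17c160f13994c66b1092c5e1720914a247098ec7e2969c351e8c4e8e44a34 (k8 c10768 c1370 c116 c10547 c10737 c100 c4383 c5695 (k8 c4402 c4288 c4403 c4401 c4404 c4435 c4296 c4433 (k8 c4431 c4432 c4434 c9668 c492 c754 c490 c8775 (k8 c8690 c567 c489 c4466 c7717 c4558 c4467 c753 (k8 c9684 c3102 c1299 c1301 c4476 c4993 c2592 c1112 (k8 c486 c2433 c1108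 c4213 c1110 c4055 c5976 c4479 (k8 c10041 c4570 c10573 c10263 c8696 c4477 c4076 c9368 (k8 c8567 c1508 c3459 c4379 c8472 c8858 c8836 c1933 (k1 c5290 k0))))))))) (by decide +kernel)
def c10770 : PP 8 4 T 0x40000000000000000200000000000000000000020004010000018 := rS 0x2e1bc44612fc351e25 (k8 c1370 c100 c4383 c10439 c878 c4467 c4037 c792 (k1 c1337 k0)) (by decide +kernel)
def c10771 : PP 8 4 T 0x2000000000000000000000200000000000014000000020000010000008 := rS 0xdc612f8201e5a03a3ce20b (k8 c303 c1304 c100 c10458 c4476 c1330 c4462 c576 (k2 c879 c1059 (k1 c4037 k0))) (by decide +kernel)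
def c10772 : PP 8 4 T 0x200000008000024000000020000010000000 := rS 0x3017d628f (k4 c100 c123 c1378 c4037 (k1 c616 k0)) (by decide +kernel)
def c10773 : PP 8 4 T 0x400000000000000040000040101001400001504404000020000010040000000000080 := rS 0xf2bf (k2 c4566 c541 (k1 c9037 k0)) (by decide +kernel)
def c10774 : PP 8 4 T 0x400000002002000000000000000000000040000000100004000000000000010000000 := rS 0x2b620af5f1e5348340ac42261079bc0c092c414322b188803ea91302d0a773d808da011785c6651298a5a60586a45189d1c8dd764b5e9044a34 (k8 c10768 c1370 c4433 c1039 c4434 c1309 c87 c116 (k8 c10547 c10737 c129 c4383 c10382 c5695 c4402 c4290 (k8 c4435 c4294 c4431 c4432 c10769 c5028 c4461 c4055 (k8 c7751 c10705 c303 c10770 c974 c352 c4466 c6830 (k8 c10518 c10711 c10051 c10771 c1105 c4462 c10772 c1329 (k8 c879 c10687 c1116 c10263 c4570 c10773 c500 c9035 (k4 c9441 c10762 c4338 c7769 k0))))))) (by decide +kernel)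
def c10775 : PP 8 4 T 0x400000002002000000000000000000000040000000100000000000000000010000000 := rS 0x4c202f07cac251a34c0a8c (k8 c10737 c10382 c5695 c10768 c1370 c10774 c3061 c1068 (k2 c4466 c10439 (k1 c7053 k0))) (by decide +kernel)
def c10776 : PP 8 4 T 0x20410002000000000000000100101100000000404410100000000000000000000000002 := rS 0x531b28a8440984de79 (k8 c4447 c4378 c4302 c4380 c6225 c8243 c5976 c4490 (k1 c904 k0)) (by decide +kernel)
def c10777 : PP 8 4 T 0x400000002002000000000000000000000200000000100004000000000000020000000 := rS 0x425109aa7361da309d5298502fc418341e193d828005a0192c361727b4e1a594d8bd7ab113a44461f54a648211029c44834 (k8 c1027 c1028 c3348 c10382 c278 c4433 c1031 c1508 (k8 c56 c1298 c129 c872 c3010 c3012 c4432 c764 (k8 c1026 c4383 c5695 c4297 c4431 c4292 c4434 c790 (k8 c4476 c4461 c759 c705 c5907 c8690 c568 c4570 (k8 c4463 c4380 c4302 c7886 c1237 c4488 c10776 c7751 (k4 c904 c9728 c4490 c2108 (k1 c4397 k0))))))) (by decide +kernel)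
def c10778 : PP 8 4 T 0x400000002002000000000000000000000040000000100000000000000000000000000 := rS 0x602b071228c (k4 c10737 c129 c10775 c10777 (k2 c7472 c880 k0)) (by decide +kernel)
def c10779 : PP 8 4 T 0x100000000002000000000005000040040000000000080000000000150002180010400 := rS 0x300a9400f242e47ac94a91c763f (k8 c4288 c4403 c4404 c5290 c633 c275 c5821 c7430 (k4 c243 c283 c282 c896 (k1 c7383 k0))) (by decide +kernel)
def c10780 : PP 8 4 T 0x40000000000002100000000002000010400804000040050000000000000000000000150000080000000 := rS 0x6712286b91e91c76b5 (k8 c4389 c4403 c4404 c275 c5821 c8226 c7430 c9033 (k1 c1790 k0)) (by decide +kernel)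
def c10781 : PP 8 4 T 0x2002000000000000000000000040000000100000000000010000010000002 := rS 0x3b26928cba59e5581884a250f0433af96a4d8a2dc48392189c6e1e08a5c166510914a2131d8547ec7369ae222d5da94c6ab188bda20557c4866a311b4e1a8c (k8 c10737 c4383 c5695 c1297 c9264 c4294 c10778 c4346 (k8 c10382 c4298 c4432 c4441 c4445 c5654 c4444 c1389 (k8 c4286 c4498 c4442 c4342 c4289 c4288 c4284 c4403 (k8 c4401 c4435 c4296 c9668 c490 c567 c6579 c607 (k8 c4466 c1384 c9118 c276 c1114 c9120 c7094 c4470 (k8 c284 c4389 c9891 c10779 c5056 c9156 c4314 c4076 (k8 c5546 c2120 c8961 c4458 c7113 c10780 c860 c10572 (k1 c1888 k0)))))))) (by decide +kernel)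
def c10782 : PP 8 4 T 0x2002000000000000000000000040000000100004000000010004010000000 := rS 0x19305a1c20ee3d21820b0370f450fe7110bf4fa8337ac41c5e2498448392593c82451db1da68c3598d563117b455f12198080205 (k8 c10382 c10781 c4461 c4294 c10778 c4346 c4298 c4432 (k8 c4441 c4445 c5654 c4442 c10737 c5695 c4289 c4403 (k8 c4296 c4433 c4297 c4434 c1114 c9120 c878 c2134 (k8 c225 c224 c1116 c1378 c548 c1380 c4376 c5471 (k8 c3369 c1455 c4480 c4466 c1384 c223 c222 c2132 (k4 c2131 c1112 c8476 c8226 (k2 c10482 c5522 (k1 c4483 k0)))))))) (by decide +kernel)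
def c10783 : PP 8 4 T 0x2111000000002000000000004420040050040040000044001000000150040002000008 := rS 0x215faa66620cc2935003d3f43240f572471dac4e2b5 (k8 c4389 c4387 c4350 c4403 c4404 c5821 c7465 c7430 (k8 c8226 c1662 c242 c4489 c7994 c879 c1999 c901 (k4 c900 c7058 c1482 c5558 k0))) (by decide +kernel)
def c10784 : PP 8 4 T 0x2002000000000000000000000040000000100000000000010008050000000 := rS 0x3c9ecef196126928ac0c424aa89599fc57044bade28201c944a63b14c445a63558c45ed119a8c46d38699c0405438055e9d890dd228c (k8 c10737 c129 c321 c10778 c4344 c4346 c10781 c9925 (k8 c10382 c4461 c5084 c4383 c5695 c1297 c9264 c4294 (k8 c4298 c4432 c4441 c4445 c5654 c4286 c4498 c4402 (k8 c4403 c4290 c4435 c1113 c4466 c4538 c7094 c926 (k8 c10721 c10518 c4313 c4312 c4314 c4406 c4076 c5546 (k8 c2112 c10783 c860 c861 c4448 c1888 c1212 c2056 (k1 c4482 k0))))))) (by decide +kernel)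
def c10785 : PP 8 4 T 0x2002000000000000000000000040000000100004000000010000010000000 := rS 0x15894a5b09129b8c4268a8440bf17f15589ed6679389dd066f1c03c7a430401cb0114b8784c87010042e412294c763f698151e9d578c4d6ab888b57a995da96248c (k8 c10737 c10778 c4444 c1389 c4443 c1119 c4286 c4498 (k8 c4445 c4442 c4441 c4346 c4344 c100 c10382 c5695 (k8 c4288 c4403 c4290 c4296 c4433 c4431 c10781 c4461 (k8 c9925 c10782 c10784 c1193 c2302 c223 c1098 c222 (k8 c2132 c2131 c2154 c352 c8928 c4570 c1112 c537 (k8 c540 c10182 c1224 c3125 c4348 c1240 c4480 c4380 (k8 c2122 c4397 c4321 c4493 c4448 c9942 c9828 c4459 (k2 c4958 c7521 (k1 c860 k0))))))))) (by decide +kernel)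
def c10786 : PP 8 4 T 0x2002000000000000000000000040000000100004000000000000010000002 := rS 0x519f97288623058692592547a6682b368a8441b2502113096086b12d97444a750878be970583c4e651085c82452894c8e131d8fda70d47a30daa935a654b111698d563117b440aaf890cc4a34 (k8 c10785 c1370 c4294 c10778 c4346 c10382 c4298 c4432 (k8 c4441 c4445 c5654 c4286 c4498 c4444 c4443 c4442 (k8 c4345 c4342 c10737 c100 c4383 c5695 c4288 c4403 (k8 c4401 c4404 c4290 c4435 c4296 c4433 c4431 c9668 (k8 c490 c8775 c8690 c567 c6579 c489 c4466 c7717 (k8 c4558 c4467 c753 c9684 c3102 c276 c4476 c616 (k8 c2592 c8086 c7308 c4570 c8696 c9368 c1482 c10585 (k8 c10537 c8472 c5290 c8996 c657 c4958 c1660 c2115 (k4 c1251 c1255 c684 c1467 (k1 c5121 k0)))))))))) (by decide +kernel)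
def c10787 : PP 8 4 T 0x2002000000000000000000000040000000100004000000000000010000000 := rS 0x12ab864ac559093eaccfe113a8ae08970781840733c9bc12770fa8ce2581302d0e02008e468512984c762969a45189d35c445a63558c45ed102abe2433 (k8 c4294 c10778 c4346 c10382 c4298 c4432 c4441 c4445 (k8 c5654 c4286 c4498 c4442 c4344 c10737 c129 c5695 (k8 c4402 c4403 c4401 c4290 c4435 c10785 c116 c10786 (k8 c4461 c9925 c303 c10770 c10771 c1304 c934 c352 (k8 c1112 c1105 c10772 c540 c1110 c4466 c4462 c1329 (k8 c926 c10721 c10518 c498 c10687 c4313 c4312 c4409 (k4 c4076 c2112 c1034 c10573 (k2 c9361 c10572 (k1 c5821 k0))))))))) (by decide +kernel)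
def c10788 : PP 8 4 T 0x2002000000000000000000000040000000100000000000000000010000000 := rS 0x90603c2202103f4bc010f9b8b65669815228c (k8 c10737 c129 c10382 c5695 c10787 c92 c1067 c1066 (k8 c750 c1068 c4378 c4466 c4461 c542 c5407 c4463 (k2 c231 c1290 k0))) (by decide +kernel)
def c10789 : PP 8 4 T 0x110000000002000000100000000040000000010000081490000000000002020011002 := rS 0xfe49509548e130a8a58e0f (k8 c7429 c4289 c4402 c4284 c4401 c4404 c7395 c896 (k2 c283 c5121 (k1 c2107 k0))) (by decide +kernel)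
def c10790 : PP 8 4 T 0x110000002002000000000005040040000000000010004004000000001002020000000 := rS 0x11739a5cff04339f4c2fc648341e5f59828005a0184da6594a8a42205 (k8 c10382 c278 c4402 c762 c1026 c5695 c4401 c790 (k8 c4476 c4461 c759 c665 c576 c7429 c568 c10573 (k8 c4463 c4302 c4379 c10789 c5056 c6629 c928 c4408 (k2 c7787 c10283 k0)))) (by decide +kernel)
def c10791 : PP 8 4 T 0x2002000000000000000000000040000000100000000000000000000000000 := rS 0x180ac7151ad56e341224d2a1c31c45563157c49230d460bc66d11d8b45205 (k8 c10382 c4402 c4286 c4403 c4298 c4294 c4432 c10737 (k8 c4383 c129 c10778 c4346 c4441 c4445 c4498 c5654 (k8 c10788 c762 c1029 c1028 c1027 c3011 c1388 c1468 (k4 c3348 c10790 c7472 c880 k0)))) (by decide +kernel)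
def c10792 : PP 8 4 T 0x200000002002000000000000000000000040000000000000000000000000000000000 := rS 0xaca629849acda02009a05e05 (k8 c10382 c4432 c10791 c756 c4461 c180 c69 c4437 (k4 c4402 c4290 c4411 c8926 k0)) (by decide +kernel)
def c10793 : PP 8 4 T 0x2000000000000000000500000000000000200000000000000005400008010 := rS 0x1350a4b1793c6683 (k8 c2000 c4294 c4297 c4432 c4434 c1495 c245 c4524 k0) (by decide +kernel)
def c10794 : PP 8 4 T 0x40000000000000000200002002000000400000000000000040001004000000000000110000000004200 := rS 0x115218dda687 (k4 c4410 c5695 c232 c237 (k2 c10564 c4470 k0)) (by decide +kernel)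
def c10795 : PP 8 4 T 0x200000000000040100010000000000000000114000000002001110000000010000 := rS 0xb18a0dd6673 (k4 c4408 c4312 c322 c4209 (k2 c8612 c8522 k0)) (by decide +kernel)
def c10796 : PP 8 4 T 0x200002002000000000000000000000140000000000004000000010004200000000 := rS 0x5d5403144491eae4e2953a9600c5b04b2e96ac5598cfa872593c66d12894c2a29638c55e67889e41697168ac730c37b241ea52fa9c462508808026817815a613 (k8 c4401 c5695 c10382 c4432 c10791 c756 c4461 c342 (k8 c313 c833 c4558 c10439 c1883 c10793 c10573 c8928 (k8 c4467 c360 c10518 c4286 c926 c303 c1961 c10792 (k8 c5084 c829 c1879 c4289 c4402 c4284 c4290 c4435 (k8 c4298 c4294 c4297 c4434 c4410 c4409 c4407 c1884 (k8 c7083 c4458 c7113 c10794 c839 c4462 c4476 c498 (k8 c10720 c536 c6781 c7465 c10795 c7771 c9269 c9064 (k2 c1287 c826 k0)))))))) (by decide +kernel)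
def c10797 : PP 8 4 T 0x100002002000000000000000001000040000000000014000000000040000000000 := rS 0x14a43ab112ab3b268b499848045e3102abcd111 (k8 c10792 c10791 c829 c10382 c1879 c4432 c756 c4437 (k8 c1881 c4476 c844 c845 c3801 c3951 c5169 c5694 (k2 c4485 c4458 k0))) (by decide +kernel)
def c10798 : PP 8 4 T 0x400100002002000000000000000001100040000140004000000000000000200000000 := rS 0x29687562ad3519608f62c5559991130918abccf114b8b45602009a05e05 (k8 c10382 c4432 c10791 c756 c4461 c10518 c4286 c926 (k8 c10792 c5084 c829 c1879 c4437 c2041 c4478 c553 (k8 c1646 c4481 c10368 c4420 c4982 c4488 c1972 c5169 (k2 c5694 c4458 (k1 c4485 k0))))) (by decide +kernel)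
def c10799 : PP 8 4 T 0x400000002002000000000000000001000140000000000004000000010004240000000 := rS 0x243368aa32632d534b562acc499399dcea06049620aa58629cbe4b2790466d12894c263b168a58ed3358c55e0b1288c5602009a05e05 (k8 c10382 c4432 c10791 c756 c4461 c10518 c833 c313 (k8 c303 c829 c1879 c69 c5695 c4289 c4402 c4286 (k8 c4403 c4401 c4290 c4435 c4298 c4294 c4433 c4297 (k8 c4434 c10439 c4558 c4467 c1883 c10796 c10797 c1105 (k8 c4462 c498 c1023 c1021 c1880 c10798 c1613 c5169 (k8 c4458 c2809 c7113 c2111 c9064 c4451 c2062 c7771 (k1 c4573 k0))))))) (by decide +kernel)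
def c10800 : PP 8 4 T 0x200002002000000000000000000000140000000000014000000010008210000000 := rS 0x5f216280e068e5fa6e4190c225d3b26922082d2640e4f20b4cd63157c44f20b010045e0531aad0e68 (k8 c10791 c4410 c1884 c4407 c10382 c4432 c756 c4461 (k8 c303 c1961 c10792 c829 c1879 c69 c5695 c4433 (k8 c4297 c10458 c1881 c4476 c4462 c2894 c844 c845 (k8 c2836 c2305 c237 c3906 c10568 c4378 c1074 c1289 (k4 c8928 c4538 c1495 c9674 (k1 c1094 k0)))))) (by decide +kernel)
def c10801 : PP 8 4 T 0x200002002000000000000000000000140000000000004000000010008050000000 := rS 0x58add6a3947ae4e237649752a91089d40c0f04984de58562acc67d39a1d667f098eda6678882d2e2d158800401340bc0b0d (k8 c4324 c10382 c4432 c10791 c756 c4461 c4466 c10518 (k8 c4286 c926 c303 c10792 c5084 c5695 c4403 c4401 (k8 c4313 c4312 c4410 c4408 c4409 c4407 c1884 c5169 (k8 c10800 c1107 c617 c1105 c239 c4462 c498 c609 (k8 c10542 c10720 c807 c10573 c321 c7014 c6781 c7036 (k4 c361 c7420 c7094 c8612 (k1 c2121 k0))))))) (by decide +kernel)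
def c10802 : PP 8 4 T 0x400000002002000000000000000000000140000000000004000000010000050000000 := rS 0x2327b8b0f56695442b156624c9ccee7503024b105130ad2e202084c762d849accf114e9e41602009a05e05 (k8 c10382 c4432 c10791 c756 c4461 c303 c1961 c10547 (k8 c10792 c5084 c69 c4437 c4286 c4403 c4401 c4433 (k8 c4466 c926 c10518 c10799 c10801 c10797 c1105 c4462 (k8 c498 c1023 c1021 c1880 c10798 c1613 c5169 c821 (k4 c10572 c7239 c7465 c7153 (k2 c682 c4982 (k1 c4482 k0))))))) (by decide +kernel)
def c10803 : PP 8 4 T 0x400200002002000000000000400000040040005400000020000041000000000000000 := rS 0x184953aa643617228547f09889cd58ab438acaa02009a05e05 (k8 c10382 c4432 c10791 c756 c4461 c4406 c226 c4410 (k8 c1884 c5169 c4408 c10792 c4437 c4288 c4284 c4296 (k4 c4431 c4292 c1880 c10453 (k2 c10572 c8845 (k1 c4958 k0))))) (by decide +kernel)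
def c10804 : PP 8 4 T 0x2002000000000400000000000100000800200020000040000004000008240 := rS 0x5217c4b1511bf41a4169814022f419bd4e98 (k8 c1111 c2011 c1107 c2003 c4432 c756 c10382 c5695 (k8 c4433 c32 c4376 c1328 c9674 c7033 c10439 c10793 (k1 c1883 k0))) (by decide +kernel)
def c10805 : PP 8 4 T 0x400200002002000000000000000000040140000000000064000041050004000010240 := rS 0x19b455b1316aa94f97618fc119c54a5f8aac44a386583e2eb93ab0924a762a60ed4b560ad56553e9cd0e7f2585c9e332991c763f63b4c620b010045e0559afcf64537c24f268 (k8 c10791 c1961 c4437 c1107 c4296 c1224 c7782 c10182 (k8 c10382 c4432 c756 c4461 c303 c1879 c5695 c4289 (k8 c4288 c4403 c4404 c4290 c4294 c4297 c4431 c4434 (k8 c4313 c4410 c4408 c4409 c4406 c1884 c226 c5169 (k8 c4458 c10803 c1111 c3122 c2011 c2051 c2050 c1657 (k8 c1125 c4362 c10804 c3931 c8466 c224 c1146 c4348 (k8 c10439 c1883 c536 c4547 c4480 c4467 c4377 c4384 (k4 c826 c1658 c4871 c4088 (k2 c4451 c2062 (k1 c7551 k0)))))))))) (by decide +kernel)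
def c10806 : PP 8 4 T 0x400100002002000000000000400000000040005400000020000041000000000000000 := rS 0x1c985178c1d482531d8fe1268 (k8 c10791 c4437 c4288 c4403 c4290 c4433 c10453 c4482 (k4 c9283 c9828 c4481 c3119 k0)) (by decide +kernel)
def c10807 : PP 8 4 T 0x400000002002000000000000000000000140000000000004000000010000010000000 := rS 0x14b43b0912c162a60ed053daccb6371e90c10072c0444e9710878824568944a63b1fc24040117814f268 (k8 c10791 c1961 c10382 c4432 c756 c4461 c4437 c4288 (k8 c4403 c4290 c4435 c4298 c4296 c4433 c10802 c86 (k8 c1193 c353 c2302 c223 c1098 c222 c2132 c2131 (k8 c2130 c838 c10182 c1224 c10805 c10806 c1111 c3122 (k4 c9921 c3949 c2115 c10061 (k2 c4459 c4485 k0)))))) (by decide +kernel)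
def c10808 : PP 8 4 T 0x800000002002000000000000000000000100000000000000000000010004200000008 := rS 0xac4625 (k4 c313 c833 c10518 c10562 k0) (by decide +kernel)
def c10809 : PP 8 4 T 0x2002000000000000004000100044001000000000000000000000080000000 := rS 0x2b1294b44b0937183daccee3d218200e584b9048a531d8b47f0918abc0401340bc0b11 (k8 c10792 c10382 c4432 c10791 c756 c4461 c829 c1879 (k8 c4437 c4288 c4286 c4403 c4290 c4296 c4433 c1193 (k8 c223 c1098 c222 c2132 c2131 c1111 c10182 c1224 (k8 c4482 c4448 c9828 c9942 c4459 c4958 c7521 c860 k0)))) (by decide +kernel)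
def c10810 : PP 8 4 T 0x2002000000000000000000000140000000000004000000010000010000000 := rS 0x847b1eb0d66734a818ea193b8251058a5c15582615a5c401f43aad3312059e436172294c762d0a8fe12af33808026817816229d (k8 c10547 c10792 c10382 c4432 c10791 c756 c4461 c5084 (k8 c829 c4437 c4288 c4284 c4286 c4403 c4290 c4296 (k8 c4431 c4292 c1961 c303 c10807 c4443 c4445 c9925 (k8 c10809 c4466 c926 c10518 c10808 c5169 c10801 c4458 (k8 c10797 c4485 c1105 c1111 c2038 c2503 c4462 c10572 (k4 c1021 c7239 c4958 c7465 (k2 c682 c8845 (k1 c10207 k0)))))))) (by decide +kernel)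
def c10811 : PP 8 4 T 0x1000000000000020000002002000001000000005500000040000000000000000000000044400000000 := rS 0x2432e96a35612c5e4f19b44a253168a58ed3188155e68 (k8 c10791 c829 c10382 c1879 c5695 c4289 c4402 c4286 (k8 c4290 c4435 c4298 c4294 c4297 c4432 c4434 c5169 (k4 c9064 c4458 c7113 c7771 (k1 c4573 k0)))) (by decide +kernel)
def c10812 : PP 8 4 T 0x2002000000000000000001000140000000000008000000010004200000000 := rS 0x1191ea6d2a7956aa99b45262a4bafc07a9618a72fc4c224b278cca6d318c45326b4b8b44a23158080268178141a0a (k8 c799 c569 c10382 c4432 c10791 c756 c4461 c10518 (k8 c833 c313 c4286 c926 c69 c1072 c10792 c1879 (k8 c5695 c4290 c4294 c4297 c4434 c342 c10808 c10439 (k8 c4558 c4467 c1883 c10793 c4463 c4377 c826 c2111 (k8 c4451 c2062 c10811 c162 c3866 c1701 c805 c7465 (k2 c5015 c4488 k0)))))) (by decide +kernel)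
def c10813 : PP 8 4 T 0x400200002002000000000000000001040040000000000008000000000040000000900 := rS 0x9a3c909561831a1cd6315799c0401340bc0b11 (k8 c10792 c10382 c4432 c10791 c756 c4461 c5084 c829 (k8 c1879 c69 c4410 c4407 c5546 c1884 c10563 c1959 (k2 c4567 c805 k0))) (by decide +kernel)
def c10814 : PP 8 4 T 0x2000000040000000000000000002002000000000000000000000000001000 := rS 0x5f0d89e45 (k4 c4296 c4297 c10218 c603 (k1 c1511 k0)) (by decide +kernel)
def c10815 : PP 8 4 T 0x10100002002000000000000004041000540000000000008000000000000200005000 := rS 0x2dd42914f8dcb85f08214f1198b24cee6531064aa881eb0d734b4aab10e3368944a63b69c2462af33c44b27b4c9ad2e2d158e41402009a05e05 (k8 c10382 c4432 c10791 c756 c4461 c799 c2319 c10518 (k8 c4286 c926 c69 c1072 c1226 c63 c10792 c5084 (k8 c829 c1879 c4437 c5695 c4403 c4290 c4435 c4298 (k8 c4294 c5694 c5169 c7488 c4458 c6781 c4958 c7465 (k8 c4485 c306 c2038 c2041 c556 c2042 c1609 c4487 (k8 c4982 c4482 c10814 c10217 c542 c343 c2267 c6233 (k4 c2790 c2794 c7094 c5931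 k0))))))) (by decide +kernel)
def c10816 : PP 8 4 T 0x410000002002000000000000000041000540000000000008000000000000200005000 := rS 0x2323d4da54f2ad55416229935a5c5a2b01004d02f02828125b (k8 c92 c231 c799 c10382 c4432 c10791 c756 c4461 (k8 c10518 c4286 c926 c69 c1072 c10792 c10813 c10815 (k4 c162 c3866 c1701 c805 (k2 c7465 c5015 (k1 c4488 k0))))) (by decide +kernel)
def c10817 : PP 8 4 T 0x100200000002000040000000400000010100000000000000000000010008200010808 := rS 0xd89090649bc26150683c7a97168acfa63 (k8 c4407 c4409 c10518 c4286 c926 c7465 c2246 c569 (k8 c4284 c4401 c8928 c10573 c10569 c9269 c887 c322 k0)) (by decide +kernel)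
def c10818 : PP 8 4 T 0x2002000000000000000000000140000000000000000000010000010000000 := rS 0x228b71b84030632a9fe08955621d57124783d470d130e41a0a15a5c40b30f81cac3368944762d69c2462af33808026817816229d (k8 c10547 c10792 c10382 c4432 c10791 c756 c4461 c5084 (k8 c829 c1879 c4437 c5695 c4286 c4403 c4435 c4298 (k8 c4294 c10810 c1017 c1066 c10182 c4466 c926 c10518 (k8 c799 c569 c2319 c10812 c4324 c934 c2246 c2778 (k8 c10816 c4445 c9925 c5169 c7488 c10815 c4313 c4406 (k4 c4407 c5546 c10817 c2269 (k2 c7094 c4470 (k1 c10783 k0)))))))) (by decide +kernel)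
def c10819 : PP 8 4 T 0x2002000000000000004000000040000000000080000000000045000000000 := rS 0x66d14990c5488c964f1994c620200a9c5ea52f815a668 (k8 c10791 c5695 c10382 c10439 c1883 c4432 c4558 c756 (k8 c4461 c1879 c4290 c4294 c4297 c4434 c2833 c2843 (k4 c4467 c2111 c4451 c2062 (k1 c10811 k0)))) (by decide +kernel)
def c10820 : PP 8 4 T 0x200002002000000000000420000041140000044000000000000020000000000400 := rS 0x18cfa7f01016228733804d02f (k8 c4432 c10791 c756 c5084 c1905 c10792 c10382 c4461 (k4 c4313 c4409 c4407 c10722 k0)) (by decide +kernel)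
def c10821 : PP 8 4 T 0x2002000000000000004000001140000000000004000000020004200000000 := rS 0x8c9ee2c88828f56695399dcea0637824b05b43d2d5841098ee1267888952e2d159e41602009a05e05 (k8 c10382 c4432 c10791 c756 c4461 c303 c1961 c10518 (k8 c4286 c926 c1369 c10792 c5084 c4437 c4403 c4401 (k8 c4433 c5169 c4458 c1905 c10819 c4476 c231 c1107 (k8 c4462 c498 c1023 c1021 c10572 c7239 c7465 c10820 (k4 c4485 c4481 c682 c4982 (k1 c4482 k0)))))) (by decide +kernel)
def c10822 : PP 8 4 T 0x2002000000000000008001000040000000000004000000000000240000000 := rS 0x131133b81812752c1cd2b05319910c41358ac1602009a05e05 (k8 c10382 c4432 c10791 c756 c4461 c303 c10518 c69 (k8 c4433 c1884 c1885 c1613 c4410 c3630 c1649 c10797 (k4 c539 c1105 c4462 c1023 (k2 c4445 c10798 (k1 c1880 k0))))) (by decide +kernel)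
def c10823 : PP 8 4 T 0x2000000000000000000000100000008000004000000020008010000008 := rS 0x184ba0f2d01cb30d (k8 c4324 c1107 c10458 c4476 c1330 c2836 c879 c9688 k0) (by decide +kernel)
def c10824 : PP 8 4 T 0x2002000000000000000000000140000000000004000000000000010000000 := rS 0x2327b8b2220a3d59b252a11399dcea0607824deb18a23e1a87a589958ab3882cf241098eda70933c453a3948a5c5a2b1007c6802009a05e05 (k8 c10382 c4432 c10791 c756 c4461 c10818 c1099 c4466 (k8 c10518 c4286 c926 c1035 c116 c10547 c10792 c5084 (k8 c4437 c5695 c4403 c4401 c4433 c1961 c303 c1304 (k8 c10822 c5169 c10821 c4458 c1905 c4324 c847 c4486 (k8 c4350 c10823 c1059 c1329 c4462 c498 c1023 c1021 (k8 c10687 c10572 c10573 c7239 c7465 c9358 c4485 c4481 (k2 c682 c4982 (k1 c4482 k0)))))))) (by decide +kernel)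
def c10825 : PP 8 4 T 0x20100002002000000000001004505040540000000000008000000100040400000800 := rS 0x512a52662440f5734b43a55584b278cda251298ec5a29848c55e02008bc0b112ca64d668 (k8 c10791 c69 c1072 c63 c10792 c10382 c4432 c756 (k8 c4461 c829 c1879 c4437 c4402 c4286 c4403 c4290 (k8 c4435 c4298 c4294 c4297 c4434 c5169 c7488 c5694 (k8 c4458 c6781 c7465 c4485 c2041 c1609 c2809 c9762 (k1 c9064 k0))))) (by decide +kernel)
def c10826 : PP 8 4 T 0x2002000000000001000005040540000000000008000000100045400000900 := rS 0x8c8f536953cab5550552c3226a72f8bda60588a64d668 (k8 c10791 c69 c1072 c10792 c10382 c5695 c4432 c10439 (k8 c4558 c10562 c4467 c1883 c10813 c10825 c162 c3866 (k4 c1701 c805 c7465 c5015 (k1 c4488 k0)))) (by decide +kernel)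
def c10827 : PP 8 4 T 0x2002000000000000000000000140000000000000000000000000010000000 := rS 0x102ebf54093319ccfeb98225558ab89034e31451c344c8f0782566230527d62072d9585697102444a1f5bad4723419b44a23b16b4c62af33808026817816229d (k8 c10547 c10792 c10382 c4432 c10791 c756 c4461 c5084 (k8 c829 c1879 c5695 c4286 c4403 c4435 c4298 c4294 (k8 c10818 c116 c7883 c1037 c1099 c1369 c1035 c4466 (k8 c926 c10518 c10824 c92 c1017 c3018 c7077 c799 (k8 c2775 c1187 c231 c1330 c1305 c10826 c4324 c934 (k8 c4486 c4387 c568 c10816 c4445 c5169 c7488 c10815 (k8 c6781 c4313 c4408 c4407 c1069 c2125 c7058 c2794 (k2 c4463 c343 k0)))))))) (by decide +kernel)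
def c10828 : PP 8 4 T 0x2002000000000000000000000200000000200004000000010004010000000 := rS 0xf108e2217e9bd06b107178ba61120e5a709010045e05 (k8 c10382 c4432 c756 c4461 c4437 c5695 c1114 c9120 (k8 c878 c1336 c225 c224 c1116 c2001 c1378 c4376 (k4 c5471 c3369 c10284 c4466 (k1 c2132 k0)))) (by decide +kernel)
def c10829 : PP 8 4 T 0x200002002000000000000000000000040000000000004000000010000210000000 := rS 0x10abe07035fa11419b810762181d8a9a4a060c655599fc9e4119c2462af889e4169716c516e39478ec6e2648d2d0e6765ab1561f4e8ac0401340bc0aa311b4e1a8c (k8 c10827 c4383 c5695 c1297 c9264 c10382 c4432 c10791 (k8 c756 c4461 c10518 c10547 c86 c10822 c5169 c2027 (k8 c5084 c1905 c4458 c129 c10828 c321 c4403 c100 (k8 c361 c7094 c4538 c4286 c926 c303 c1961 c10792 (k8 c829 c1879 c4437 c4294 c4433 c4297 c4313 c4312 (k8 c4406 c4407 c5546 c10783 c860 c1786 c10720 c9330 (k8 c10572 c4462 c10564 c3906 c2305 c4378 c1289 c8928 (k2 c9674 c1495 (k1 c1094 k0))))))))) (by decide +kernel)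
def c10830 : PP 8 4 T 0x2002000000000000000000000040000000000004000000010000210000000 := rS 0x847b1eb0d6695399dc0c993a86412882c4150f4b562ac56970f86c2e45298ec5a151fc24cf114e9e41602009a05e05 (k8 c10382 c4432 c10791 c756 c4461 c303 c1961 c10547 (k8 c10792 c5084 c4437 c4288 c4284 c4286 c4403 c4290 (k8 c4296 c4431 c4292 c86 c926 c10518 c10822 c5169 (k8 c4458 c1905 c10829 c10797 c4485 c1105 c2038 c2503 (k8 c3949 c4462 c1024 c1021 c10572 c7239 c4958 c7465 (k2 c682 c8845 (k1 c10207 k0))))))) (by decide +kernel)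
def c10831 : PP 8 4 T 0x1000200002002000000000010004000000240001004000040000000000000080000000 := rS 0x5bad4eac2492b0569831954e6873f8cda251298b4528f5981cfafc38ac41002009a05e05 (k8 c10382 c4432 c10791 c756 c4461 c222 c3125 c1386 (k8 c4480 c4379 c1098 c10182 c100 c4402 c4286 c4290 (k8 c4435 c4298 c4294 c4313 c4410 c4408 c4406 c4407 (k8 c10809 c226 c7083 c2051 c2050 c1657 c1659 c3128 (k1 c4088 k0))))) (by decide +kernel)
def c10832 : PP 8 4 T 0x100002002000000000000024000000040001000000000000000000000080000000 := rS 0x984421e970933804d02f (k8 c4432 c10791 c756 c5084 c4437 c4458 c1905 c4485 (k2 c10809 c3949 k0)) (by decide +kernel)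
def c10833 : PP 8 4 T 0x1000000000000000000000010500040000200000004000020000001000080000000018 := rS 0xe854 (k2 c226 c10764 (k1 c1686 k0)) (by decide +kernel)
def c10834 : PP 8 4 T 0x1000000002002000000000010004000000240001004000040000000000040080000000 := rS 0x564140a68 (k4 c10791 c10382 c10831 c5169 (k1 c10832 k0)) (by decide +kernel)
def c10835 : PP 8 4 T 0x2002000000000000000000000040000000000004000000010000010000000 := rS 0xecc082a1a26aa15ae62a6f589ed6638078f4860803960225b0f0844c79228fc0401340bc0aa311b4e1a8c (k8 c10827 c4383 c5695 c1297 c9264 c10382 c4432 c10791 (k8 c756 c4461 c4288 c4296 c1961 c10828 c10830 c4466 (k8 c838 c2302 c223 c1098 c222 c2132 c2131 c2154 (k8 c352 c10182 c1224 c3125 c8928 c4348 c1201 c10833 (k4 c10834 c4445 c1884 c4410 (k2 c10061 c10806 (k1 c9921 k0))))))) (by decide +kernel)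
def c10836 : PP 8 4 T 0x2002000000000000000000000040000000000000000000010000010000000 := rS 0xf088801afd2f07cdc5669808026817815228c (k8 c10827 c129 c10382 c4432 c10791 c756 c4461 c5695 (k8 c10835 c1067 c1066 c1068 c4378 c1289 c4466 c542 (k2 c5407 c4463 k0))) (by decide +kernel)
def c10837 : PP 8 4 T 0x200000000000000100015500000000000000154000000000000000000000000000 := rS 0xfa7f (k2 c4313 c4409 (k1 c2121 k0)) (by decide +kernel)
def c10838 : PP 8 4 T 0x2002000000000000000000000040000000000000000000000000010000000 := rS 0x867b0ca220a3d5cb0d66c958a553211399dcea0f0321e966f049c55858059e5565715a5c40a30f8996eb51c8d1228c4e86c2e412294c263b168547ed38499c0401340bc0b11 (k8 c10792 c10382 c4432 c10791 c756 c4461 c5084 c4437 (k8 c5695 c4288 c4284 c4286 c4403 c4401 c4290 c4296 (k8 c4433 c4431 c4292 c10547 c10827 c129 c10836 c116 (k8 c7883 c1037 c10770 c352 c934 c4466 c926 c10518 (k8 c7053 c10822 c1961 c303 c10771 c5169 c1304 c1105 (k8 c10772 c4458 c1905 c4462 c1329 c498 c1023 c1021 (k8 c10687 c1880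 c10572 c1034 c10573 c7239 c4958 c5821 (k4 c7465 c10837 c4485 c2038 (k2 c682 c10207 (k1 c8845 k0)))))))))) (by decide +kernel)
def c10839 : PP 8 4 T 0x100000000002000000000005000000050100000000000000001000150040000000000 := rS 0x7ab9238ec7ec7 (k4 c4289 c4288 c4403 c4404 (k2 c6781 c7465 (k1 c2113 k0))) (by decide +kernel)
def c10840 : PP 8 4 T 0x200002002000000010000000000000040000000000000000000010000000008000 := rS 0x25891310443612fcf69d2593c8b0918884f275099dc82731d8e5668960ab0c65129b44662b2aaad0e2916a6c6ebd8a2c4465613965a609378183802009a05e05 (k8 c10382 c4432 c10791 c756 c4461 c10838 c791 c1019 (k8 c1058 c5695 c1026 c873 c790 c1328 c10634 c10635 (k8 c4354 c4386 c764 c4286 c4402 c4410 c1884 c4406 (k8 c226 c4294 c4298 c4290 c4435 c4407 c7083 c1986 (k8 c4314 c4312 c3151 c4403 c1021 c4433 c1023 c4401 (k8 c498 c1960 c85 c1879 c4437 c4296 c4297 c4434 (k8 c947 c1226 c7782 c2123 c2054 c8260 c10063 c9103 (k2 c2135 c10562 k0)))))))) (by decide +kernel)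
def c10841 : PP 8 4 T 0x200002002000000000000000000000040000000000000000000010000000008000 := rS 0x2068abe5c20c7a7a6245d2cb55b8de28b12488d0afd27b448e3b1fb1da709889652a29049d42639469584e6f088183818438acaa02009a05e05 (k8 c10382 c4432 c10791 c756 c4461 c4406 c226 c4410 (k8 c5546 c10838 c791 c609 c1019 c873 c790 c2995 (k8 c3151 c4401 c498 c1058 c4402 c762 c1026 c10792 (k8 c4437 c5695 c4289 c4288 c4403 c4404 c4298 c4297 (k8 c4376 c1495 c1328 c242 c10634 c10635 c4386 c4353 (k8 c4389 c10839 c4360 c10840 c7523 c1782 c642 c8466 (k4 c1254 c4399 c1363 c4484 k0))))))) (by decide +kernel)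
def c10842 : PP 8 4 T 0x1000000002000000040000000000100000400000004200018000040111005000000008 := rS 0x17550b12688c6c4b278cd4e2f (k8 c4432 c4558 c4294 c4297 c4434 c4470 c1409 c324 (k4 c10634 c2111 c4628 c826 k0)) (by decide +kernel)
def c10843 : PP 8 4 T 0x200002002000000010000000000000040000000000000000000010000000000000 := rS 0xcf542e122b18a2ec8718612fcf69d848c4b299479e4ea77209cc763946958deb344b0558632894da233159555687148b536c90881826a75297c4a0f010045e270e015a668 (k8 c10791 c5695 c10382 c10838 c873 c4432 c756 c4461 (k8 c10841 c224 c10439 c1883 c4558 c4401 c791 c609 (k8 c10573 c764 c4286 c4402 c4410 c1884 c4406 c226 (k8 c4294 c4298 c4290 c4435 c4407 c7083 c1986 c4314 (k8 c4312 c1019 c790 c2995 c3151 c4403 c1021 c4433 (k8 c1023 c498 c1960 c2763 c1031 c1026 c1879 c4437 (k8 c947 c1226 c7782 c2123 c4482 c2054 c4449 c10842 (k4 c4350 c4352 c9531 c7247 (k2 c1525 c949 k0))))))))) (by decide +kernel)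
def c10844 : PP 8 4 T 0x1000200002002000000000000000000000040000000000000000000010000000000000 := rS 0x2eaa0184d119246c4b278cc2a31478e4fac90884d4ea52f8941e27698f5a2bd3d3100c18439583802009a05e05 (k8 c10382 c4432 c10791 c756 c4461 c10838 c790 c4410 (k8 c5546 c791 c10843 c7523 c3182 c4298 c1782 c5695 (k8 c873 c10841 c224 c10439 c1883 c4558 c4401 c609 (k8 c10573 c4409 c3151 c2763 c1879 c4284 c4294 c4297 (k8 c4434 c4470 c4209 c1409 c325 c9269 c2111 c3382 (k1 c826 k0)))))) (by decide +kernel)
def c10845 : PP 8 4 T 0x200002002000000000000000000000040000000000000000000010000000000000 := rS 0xba227e2149aa940d1598be5c2c628c38cb114aa72fb25062507b0696ac15aacc65543acc9617278cda251298b452d3848c55e9b3a84c4e6f088183802009a05e05 (k8 c10382 c4432 c10791 c756 c4461 c10838 c791 c609 (k8 c1019 c873 c4401 c498 c764 c829 c1879 c4437 (k8 c5695 c4402 c4286 c4290 c4435 c4298 c4294 c4297 (k8 c4431 c4434 c4312 c4410 c4406 c4407 c1884 c226 (k8 c7083 c4458 c1986 c10841 c224 c4570 c10573 c10439 (k8 c4558 c1883 c10843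 c4370 c196 c10844 c4350 c9531 (k8 c1254 c8268 c4399 c1363 c1484 c2062 c1482 c4484 (k2 c2111 c4377 (k1 c792 k0))))))))) (by decide +kernel)
def c10846 : PP 8 4 T 0x100000002000000000005000000000000000104020010000000150040000008000 := rS 0x2e47a49599548e3b (k8 c4403 c4404 c1646 c552 c242 c10368 c4548 c7430 k0) (by decide +kernel)
def c10847 : PP 8 4 T 0x2002000000000000000000000040000000000000000000010040000008000 := rS 0x10d7e4d3d8653a8856189566529c24cf113ca6cea131cc1576375bad6287104ac4465613965a6fd378183802009a05e05 (k8 c10382 c4432 c10791 c756 c4461 c10838 c791 c1019 (k8 c4376 c5695 c1026 c873 c790 c1328 c10634 c1058 (k8 c1416 c4480 c4389 c4353 c4386 c4390 c10845 c3151 (k8 c4401 c498 c764 c1960 c10792 c5084 c4437 c4290 (k8 c10846 c1885 c4478 c5169 c821 c2808 c2038 c1226 (k4 c244 c7782 c10207 c9891 k0)))))) (by decide +kernel)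
def c10848 : PP 8 4 T 0x2002000000000000000000000040000000000000000000010000000008000 := rS 0xa752894be48642e4fab38b0f54254318a96ab71bc516271119fdfa471fb1da667889641275099cc76392b09cde11030700401340bc0b05 (k8 c10845 c10382 c4432 c10791 c756 c4461 c10838 c791 (k8 c609 c1019 c873 c790 c3151 c4403 c1021 c4401 (k8 c498 c1058 c1026 c10792 c5084 c5695 c4289 c4288 (k8 c4404 c4376 c1455 c1328 c1416 c10634 c4480 c4386 (k8 c4353 c4389 c10847 c1607 c226 c7295 c5191 c7194 (k8 c1188 c8221 c4361 c5124 c2113 c547 c2134 c1883 (k2 c4558 c10793 k0))))))) (by decide +kernel)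
def c10849 : PP 8 4 T 0x1000000002000000040000100000100000400000004200018000000111005000000008 := rS 0x17550b12688c6c4b278cd4e2f (k8 c4432 c4558 c4294 c4297 c4434 c4470 c1409 c325 (k4 c10634 c2111 c4628 c826 k0)) (by decide +kernel)
def c10850 : PP 8 4 T 0x2002000000000000008000000040000000000000000000010040000000000 := rS 0xf8715b8dd63145e9e96b198b2e47a7f599558a646191c7ec7848c4b293479e536753b904e63b1c958df05648440c135297c4a0f010045e270e015a668 (k8 c10791 c5695 c10382 c10838 c873 c4432 c756 c4461 (k8 c10848 c224 c10439 c1883 c4401 c791 c609 c10573 (k8 c10845 c1019 c790 c3151 c4403 c1021 c4433 c1023 (k8 c498 c764 c1960 c2763 c1029 c1026 c1879 c4437 (k8 c4289 c4288 c4404 c3794 c1885 c1674 c1646 c552 (k8 c554 c10368 c4548 c4481 c5577 c4419 c4482 c3182 (k4 c10849 c4350 c4386 c4353 (k2 c4387 c2121 (k1 c8221 k0))))))))) (by decide +kernel)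
def c10851 : PP 8 4 T 0x2000000000000000000000440001501500100000000000000000000000000000000000 := rS 0x90 (k2 c7247 c4352 k0) (by decide +kernel)
def c10852 : PP 8 4 T 0x2002000000000000020000000040000000000000000000010000000000000 := rS 0x45176438c2fcf69d54988328843d2ca7091899cb299479e53677208e51a563781a0aa75297c4a0f010045e270e015a668 (k8 c10791 c5695 c10382 c10838 c873 c4432 c756 c4461 (k8 c10848 c224 c10439 c1883 c4558 c10845 c791 c1019 (k8 c790 c2995 c3151 c4433 c1023 c764 c1960 c2763 (k8 c1031 c1026 c5084 c1879 c4437 c4290 c4458 c1905 (k8 c4485 c2038 c2041 c2809 c2808 c1226 c7782 c4482 (k4 c10207 c4449 c10842 c10851 k0)))))) (by decide +kernel)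
def c10853 : PP 8 4 T 0x2002000000000000000000000040000000000000000000010040000000000 := rS 0xab178cda251298b4523102abcd0ad (k8 c10852 c10791 c829 c10382 c1879 c4402 c4286 c4290 (k4 c4435 c4298 c4294 c4432 (k2 c10850 c2112 k0))) (by decide +kernel)
def c10854 : PP 8 4 T 0x2002000000000000000000000040000000000000000000010000000000000 := rS 0x1f0e2b71bac628bd3d4656ab93face2c3d2a190c62a5297d922507c14226f1391c7ec769c246267889651e794d9d42677209cc76392b0183802009a05e05 (k8 c10382 c4432 c10791 c756 c4461 c10838 c791 c790 (k8 c3151 c4403 c1021 c4433 c1023 c4401 c498 c764 (k8 c1960 c2763 c1026 c10792 c5084 c1879 c4437 c5695 (k8 c4289 c4288 c4404 c873 c1019 c609 c10845 c10848 (k8 c224 c10573 c10439 c1883 c10853 c1607 c227 c226 (k8 c5191 c7194 c1188 c554 c4361 c4419 c4982 c4482 (k8 c3182 c10849 c4350 c4386 c4353 c4387 c2121 c8221 k0))))))) (by decide +kernel)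
def c10855 : PP 8 4 T 0x200002002000000000000000000000040000004000000000000000004000000000 := rS 0x7e1728a225f2149aa96233187198bae1927a4b2041e4b27c2462af33c44ea1339ad56e3b3882c4211589fd667da5b0558ab43944a6d1198acaa63148b536915297d06a769894688d2b0183802008bc0a68 (k8 c10791 c10382 c4432 c756 c4461 c10838 c791 c790 (k8 c2995 c10854 c1369 c5695 c4558 c2000 c10439 c1883 (k8 c1036 c764 c4286 c4402 c4407 c4406 c226 c4294 (k8 c4298 c4290 c4435 c4410 c1884 c7083 c1986 c4458 (k8 c4409 c4312 c4313 c3018 c608 c85 c302 c1304 (k8 c4403 c1037 c7883 c1021 c4401 c498 c10792 c5084 (k8 c829 c1879 c4437 c4297 c4434 c1329 c10263 c10722 (k8 c10732 c10573 c4032 c4360 c4366 c3223 c8268 c4494 (k8 c1484 c2062 c1482 c1254 c2111 c4399 c792 c4484 (k1 c4377 k0)))))))))) (by decide +kernel)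
def c10856 : PP 8 4 T 0x200002002000000000000000000000040000000000000000000000004000000000 := rS 0x118381a6e52a9cbed304894688d2b0183802009a05e05 (k8 c10382 c4432 c10791 c756 c4461 c10838 c791 c790 (k8 c2995 c10854 c1369 c1058 c5695 c10439 c4558 c1883 (k4 c10855 c1290 c1020 c793 (k1 c10793 k0)))) (by decide +kernel)
def c10857 : PP 8 4 T 0x200002002000000000000000000000040000000000000000000000000000000000 := rS 0x18b1761c6570fc3d454de902ec344cc1a5ab056ab31954fa87599fc66d12894c5a2918abd36613a84ce68d032d56e3b58958e234058843802009a05e05 (k8 c10382 c4432 c10791 c756 c4461 c10838 c85 c302 (k8 c10854 c1304 c790 c3018 c4403 c1037 c7883 c791 (k8 c2995 c1021 c4401 c498 c2883 c764 c829 c1879 (k8 c4402 c4286 c4290 c4435 c4298 c4294 c4313 c4312 (k8 c4410 c4409 c4406 c4407 c1884 c226 c7083 c4458 (k8 c1986 c10856 c4324 c2787 c872 c9688 c4352 c10732 (k4 c4480 c4088 c4366 c3223 (k2 c7787 c3272 (k1 c4494 k0))))))))) (by decide +kernel)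
def c10858 : PP 8 4 T 0x100000000000040100005100000000000000154020410000000000040000014000 := rS 0x35fa7c8b1fd6655 (k8 c1646 c552 c554 c4481 c5124 c7787 c1292 c4463 k0) (by decide +kernel)
def c10859 : PP 8 4 T 0x2002000000000000000000000040000004000000000000000044000000000 := rS 0x17c7b4eaa558625599466d12894c5a29848c55e6788965328f3ca6cea735aaec96bd20adc7671058860a9153a94be2546b241e11588d0ac060e008026817815a613 (k8 c4401 c5695 c10382 c4432 c10791 c756 c4461 c10838 (k8 c791 c790 c10854 c3018 c608 c1329 c10573 c2995 (k8 c1369 c10439 c1883 c4558 c1036 c10857 c85 c302 (k8 c1304 c4403 c1037 c4433 c1039 c4434 c1309 c7883 (k8 c1021 c498 c764 c1960 c2763 c1031 c1026 c10792 (k8 c5084 c829 c1879 c4437 c4402 c4286 c4290 c4435 (k8 c4298 c4294 c10858 c1885 c4478 c2112 c2809 c2808 (k2 c1226 c2126 (k1 c7782 k0))))))))) (by decide +kernel)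
def c10860 : PP 8 4 T 0x2002000000000000000000000040000004000000000000000004000000000 := rS 0xc3e3f4feb38b190c62a6483c8e75099cd6ab71d9c4162108ac60a5f128d11a56030700401340bc0ad3 (k8 c5695 c10382 c4432 c10791 c756 c4461 c10838 c791 (k8 c790 c2995 c10854 c1369 c10439 c10857 c3018 c608 (k8 c85 c302 c1304 c4403 c1037 c7883 c1021 c4401 (k8 c498 c4404 c1329 c10573 c10859 c1607 c227 c7194 (k4 c1188 c554 c7787 c5124 (k2 c4463 c1291 k0)))))) (by decide +kernel)
def c10861 : PP 8 4 T 0x2002000000000000000000000040000000000000000000000004000000000 := rS 0x118381a6e52a9cbed304894688d2b0183802009a05e05 (k8 c10382 c4432 c10791 c756 c4461 c10838 c791 c790 (k8 c2995 c10854 c1369 c1058 c5695 c10439 c4558 c1883 (k4 c10860 c1290 c1020 c793 (k1 c10793 k0)))) (by decide +kernel)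
def c10862 : PP 8 4 T 0x100000000000000100004100040000000010154020010000000000000000000000 := rS 0xfeb3 (k2 c552 c555 (k1 c5124 k0)) (by decide +kernel)
def c10863 : PP 8 4 T 0x110000000000000000000040020044002040501004008008000010020000000000080 := rS 0x286a13f33508bf3da7510b1 (k8 c3018 c821 c2808 c1226 c1244 c7037 c1482 c684 (k2 c901 c4392 (k1 c4489 k0))) (by decide +kernel)
def c10864 : PP 8 4 T 0x2002000000000000000000000040000000000000000000000000000000000 := rS 0x56ad4f98956653ea05931537a0c1e90519761a2682844e2b15baed6a34469ccea7905984ac064d964421c88808ceaf18804d04b1790466d12894c263b168a5a605 (k8 c10382 c5695 c4402 c4286 c4403 c4401 c4290 c4435 (k8 c4298 c4294 c4433 c4432 c4434 c10791 c756 c1879 (k8 c829 c5084 c4461 c10792 c10838 c85 c1026 c764 (k8 c791 c790 c2883 c302 c1960 c498 c1021 c2995 (k8 c10854 c7883 c1309 c1037 c3018 c1304 c608 c10857 (k8 c10861 c4324 c2787 c934 c872 c239 c2001 c9688 (k8 c4352 c10573 c10263 c8975 c10862 c1885 c4478 c6237 (k2 c10863 c227 (k1 c2112 k0)))))))))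 (by decide +kernel)
def c10865 : PP 8 4 T 0x1000001000000000040000000100000001000010204004500000004010000010050002 := rS 0xe061 (k2 c9302 c4480 (k1 c10388 k0)) (by decide +kernel)
def c10866 : PP 8 4 T 0x2000000002002000000000000000000000000004004000000000041110000000008000 := rS 0x624659a77a2ae104b55b8dc964f209148e3b1fb1e12892495514d1 (k8 c4298 c10864 c1766 c242 c187 c4322 c4289 c4288 (k8 c4403 c4404 c4296 c4433 c4297 c4434 c4386 c4353 (k8 c4389 c8476 c2113 c4452 c2003 c2064 c9915 c7804 (k1 c1255 k0)))) (by decide +kernel)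
def c10867 : PP 8 4 T 0x4000000000000020000410 := rS 0xb659 (k2 c1026 c759 (k1 c4476 k0)) (by decide +kernel)
def c10868 : PP 8 4 T 0x2002000000000000000000000000000004040004000000010000000008004 := rS 0x43048611b45562911c974863d3d9681059038783a850597dfa4f22b4d14213585cd22f328000a13 (k8 c4401 c10382 c4461 c490 c4432 c756 c4431 c492 (k8 c9668 c10864 c5695 c4296 c4297 c4376 c1376 c305 (k8 c1495 c10867 c4466 c8308 c486 c4462 c4476 c1224 (k8 c10472 c10488 c841 c4528 c1153 c1145 c10866 c4470 (k4 c9302 c272 c4477 c4381 k0))))) (by decide +kernel)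
def c10869 : PP 8 4 T 0x2000040000000200000000000000000000000000000000000010004002 := rS 0xb00604c55fa0b (k4 c567 c4304 c4350 c1146 (k2 c4462 c10458 (k1 c8563 k0))) (by decide +kernel)
def c10870 : PP 8 4 T 0x2000000000040000010000010040000000200014400000400000005000000000 := rS 0x8e (k2 c10503 c10396 k0) (by decide +kernel)
def c10871 : PP 8 4 T 0x1000000002002000000000000000000000000010204000080000001010004010004002 := rS 0xfc50a444a610645c8e556898c52652ea5cbec90884d72381b8200eb10f084d22f4502da63f (k8 c4288 c5695 c567 c10864 c4432 c756 c9668 c4466 (k8 c10869 c8286 c4462 c232 c4470 c1201 c4401 c345 (k8 c10573 c9119 c6579 c753 c490 c4402 c754 c4298 (k8 c1766 c4404 c4417 c10189 c503 c1367 c888 c7717 (k2 c10865 c10870 k0))))) (by decide +kernel)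
def c10872 : PP 8 4 T 0x100000002002000000000000054000000000000000000000000000000040000000000 := rS 0xc2242f19b44a253168a6968a (k8 c10864 c4427 c4402 c4286 c4290 c4435 c4298 c4294 (k4 c4432 c4491 c2112 c4441 k0)) (by decide +kernel)
def c10873 : PP 8 4 T 0x201002002000000000000000410000000000000001400000000000040000014002 := rS 0x1988454d16246d562be22a54fa05450c0612e126b348bcc62955995147f339f4ba830bb25a613 (k8 c4401 c5695 c10573 c4431 c4570 c753 c4409 c4310 (k8 c4313 c10864 c490 c1672 c4402 c754 c4432 c756 (k8 c492 c4322 c4434 c4463 c4477 c5857 c1293 c4384 (k8 c4385 c4337 c5449 c10872 c944 c4479 c9368 c4345 (k2 c4484 c9372 (k1 c1481 k0)))))) (by decide +kernel)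
def c10874 : PP 8 4 T 0x1000000002002000000000400014090050000105000000000000001000040000000000 := rS 0x1445daa17a765733e330960a2a2343 (k8 c4393 c4337 c10864 c1713 c4322 c4986 c1524 c10872 (k4 c4482 c5748 c988 c1890 (k2 c4493 c4398 k0))) (by decide +kernel)
def c10875 : PP 8 4 T 0x1000200002002000000000410100000040000005004000400000000000045080014002 := rS 0xcc422a68b1236ab14a954fa8902fc30a9d429123c24d6691798c52ab32a28fe673e975061764b4c263d (k8 c274 c4401 c5695 c10573 c4431 c4570 c753 c4409 (k8 c4310 c4313 c10864 c490 c1672 c4402 c754 c4432 (k8 c756 c492 c4322 c4404 c1154 c7717 c4558 c9302 (k8 c10873 c4380 c10398 c160 c859 c1470 c10874 c944 (k4 c4479 c9368 c4345 c4130 (k2 c9372 c1481 k0)))))) (by decide +kernel)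
def c10876 : PP 8 4 T 0x1000200002002000000000000000000000000000004000080000000010044010004002 := rS 0x3023d20243c9d572bf1c1f52e3f3d914225f1b8200eb1699a45e8a058f43c21 (k8 c9668 c4466 c274 c567 c10864 c4432 c756 c5695 (k8 c10869 c8286 c4462 c232 c9119 c345 c4296 c1224 (k8 c4288 c6579 c4409 c4470 c1240 c1201 c10871 c604 (k4 c10875 c281 c1423 c888 (k1 c7422 k0))))) (by decide +kernel)
def c10877 : PP 8 4 T 0x2000200002002000000000000000000040000000200000400000000010045000014002 := rS 0x18018fd53a851a2f23b4cc6293284d668f (k8 c4388 c4312 c4401 c490 c4402 c754 c5695 c4404 (k8 c4432 c9120 c7717 c4558 c10497 c4463 c10873 c503 k0)) (by decide +kernel)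
def c10878 : PP 8 4 T 0x200000002000000100000000000000000000000000400000000000042000014000 := rS 0x69242a7d (k4 c4409 c4284 c282 c1367 (k1 c9269 k0)) (by decide +kernel)
def c10879 : PP 8 4 T 0x200002002000000000000000000000000000004000080000000010044010004002 := rS 0x3368acf262fd70793a89686715dc507a531dc2696b339a5c7e5f1b90cd6173d91596c9088200eb10f084d22f05b4c268a (k8 c10864 c4401 c5695 c567 c4432 c756 c9668 c4466 (k8 c10869 c8286 c4462 c345 c10573 c1752 c4296 c1224 (k8 c4431 c492 c10488 c232 c9119 c4288 c6579 c4408 (k8 c4312 c4427 c4322 c4403 c4290 c274 c10876 c4390 (k8 c4387 c8226 c10878 c10877 c604 c8522 c7782 c9686 (k4 c1525 c4451 c2062 c4495 k0)))))) (by decide +kernel)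
def c10880 : PP 8 4 T 0x100000002002000000000000054000050000005040000000000041000000000000000 := rS 0xc362a64ed128c9048ad12894c763f84d2d828a (k8 c10864 c1713 c4427 c4322 c4288 c4403 c4290 c4435 (k8 c4298 c4296 c4433 c4986 c4491 c4482 c4443 c1095 (k2 c4958 c2115 k0))) (by decide +kernel)
def c10881 : PP 8 4 T 0x100200002002000000000000040000050000005000000000000041000000000000002 := rS 0x1d9891961a66246d561048ad12894c763f849ac2e6917aacca13339cd828a (k8 c10864 c1713 c4408 c4310 c4401 c490 c1672 c4432 (k8 c756 c4431 c492 c4322 c4288 c4403 c4290 c4435 (k8 c4298 c4296 c4433 c10880 c944 c4479 c4443 c4958 (k4 c9828 c2115 c4482 c1095 k0)))) (by decide +kernel)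
def c10882 : PP 8 4 T 0x200002002000000000000000000000000000004000004000000010004010004002 := rS 0x938b9d0f09557c447a2a219ecb4082c81d621e4b82c8ad11fb4c0a8a109ac2e69179942667 (k8 c4310 c4401 c490 c4432 c756 c4431 c492 c9668 (k8 c10864 c10382 c5695 c4288 c4298 c4296 c567 c6579 (k8 c4466 c10869 c8286 c486 c4462 c4476 c1224 c10488 (k8 c10879 c10472 c4411 c1774 c1694 c10881 c604 c4417 (k2 c1656 c4487 k0))))) (by decide +kernel)
def c10883 : PP 8 4 T 0x1000000000002000040000000000000000000010200000001000000010000000014800 := rS 0x36648e4260d (k4 c569 c4401 c358 c10573 (k2 c4470 c10194 k0)) (by decide +kernel)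
def c10884 : PP 8 4 T 0x1000000000000000000000000100000000000000004000000000000000000000020002 := rS 0xe2fd (k2 c4300 c2562 (k1 c4480 k0)) (by decide +kernel)
def c10885 : PP 8 4 T 0x1000200002002000000000000000000050000000004000400000000010044000004802 := rS 0x220a2508f04a487e3247211238558ed32aa29a26314994267f339f5620d (k8 c569 c2605 c4409 c4310 c4313 c4401 c490 c4402 (k8 c754 c4298 c10864 c1766 c5695 c4289 c4284 c4404 (k8 c10884 c358 c10573 c10457 c2107 c10878 c4209 c7717 (k2 c10398 c7465 (k1 c4337 k0))))) (by decide +kernel)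
def c10886 : PP 8 4 T 0x2000200002002000000000000000000040000000200000400000000010044000014002 := rS 0x1232426d3 (k4 c5695 c4401 c10573 c10877 (k1 c10878 k0)) (by decide +kernel)
def c10887 : PP 8 4 T 0x2002000000010160000140001501000006040004000000000040020000002 := rS 0x67aa17e9d3cb44a25384a1e966917994269920a5cb459609ec14050db2d1543 (k8 c4394 c10864 c1753 c4292 c10382 c10867 c702 c1713 (k8 c1026 c4476 c928 c4433 c1031 c4401 c490 c4432 (k8 c756 c4427 c186 c4322 c4290 c4435 c4298 c605 (k4 c7943 c7782 c8005 c1525 (k1 c7105 k0))))) (by decide +kernel)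
def c10888 : PP 8 4 T 0x200002002000000000000000000000000000204000004000000010044000004002 := rS 0x145662f988b852c354222302144a103644d3ea3882b62e4b0d8b6128a3585cd22f498ed768f48add7ab58a25cce5f46968b20a02a543829 (k8 c4402 c10882 c762 c10382 c10867 c1026 c4476 c1027 (k8 c577 c4310 c928 c10885 c4389 c4354 c4353 c4352 (k8 c4388 c4390 c4403 c1029 c4432 c756 c4431 c492 (k8 c10864 c4322 c4286 c4292 c4434 c4417 c4809 c4487 (k8 c4337 c4414 c4498 c4479 c10886 c278 c710 c606 (k8 c607 c7717 c4326 c1301 c2125 c10887 c1254 c1255 (k2 c4399 c5541 k0))))))) (by decide +kernel)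
def c10889 : PP 8 4 T 0x200002002000000000000000000000000000004000004000000050000020014002 := rS 0x65028565c4c90fc6486c2e412991c261563b4e965545344d22f3f9f51a5a2c8341405 (k8 c10382 c10867 c569 c1026 c4476 c1027 c4409 c4313 (k8 c4432 c756 c4298 c10864 c1766 c4427 c5695 c4289 (k8 c4284 c4401 c4404 c4290 c4433 c4431 c4292 c10573 (k8 c10457 c2107 c10642 c1752 c10185 c4380 c5907 c9047 k0)))) (by decide +kernel)
def c10890 : PP 8 4 T 0x200002002000000000000000000000000000004000004000000010044000004002 := rS 0x67d0d50b852a7d46cb53a8444604289420bf4e9e4eab55eadd223747aee284b23b4e134b4526c5e9920a5452931d97d1a7b0506d2e5a2c8700a67 (k8 c4310 c10382 c10882 c1026 c4476 c928 c4292 c10867 (k8 c702 c1027 c577 c4403 c1029 c4402 c762 c4433 (k8 c1031 c4432 c764 c10864 c4427 c4322 c5695 c4404 (k8 c4434 c10885 c4390 c4388 c4386 c4352 c4353 c4354 (k8 c4389 c10888 c604 c969 c7782 c10889 c278 c710 (k8 c606 c607 c7717 c4558 c1753 c936 c1299 c1301 (k4 c2125 c2126 c4394 c1525 (k1 c7105 k0)))))))) (by decide +kernel)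
def c10891 : PP 8 4 T 0x1000200000000000040040000100000000000000004000001000401110000000145002 := rS 0xc924844fe7d (k4 c4409 c4313 c10884 c4209 (k2 c10573 c2107 k0)) (by decide +kernel)
def c10892 : PP 8 4 T 0x200002002000000000000000000000000000004000004000000010004000000004 := rS 0x9020a61baee283952aa43112212fd3a763cc64ea3d8b2be222a4b835627b2d0291a934aa6536590e03c36412384c761514b1da7092aa29a269000145e67 (k8 c4310 c4432 c10382 c4461 c756 c4298 c10864 c1766 (k8 c4322 c5695 c4289 c4402 c4284 c4403 c4401 c4404 (k8 c4433 c4292 c10868 c10882 c1026 c764 c1031 c762 (k8 c1029 c1027 c10867 c4476 c702 c2605 c569 c928 (k8 c10890 c4411 c1774 c4487 c4416 c4417 c4982 c604 (k8 c4482 c969 c7782 c10881 c4679 c1886 c4345 c4444 (k8 c2321 c10891 c4390 c4386 c10851 c10889 c4558 c278 k0))))))) (by decide +kernel)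
def c10893 : PP 8 4 T 0x2002000000000000000000000000000008000000000000010045410010002 := rS 0x2268d69884d22f (k4 c4432 c756 c9668 c5695 (k2 c9120 c10562 (k1 c10557 k0))) (by decide +kernel)
def c10894 : PP 8 4 T 0x200000002002000000000000000001000000000000000000000041150006480000000 := rS 0x268611316c35524f (k8 c4297 c1503 c4381 c4286 c4498 c10740 c10742 c1966 k0) (by decide +kernel)
def c10895 : PP 8 4 T 0x2002000000000020000000040000000008000000000041010044410008002 := rS 0x62a65628222af51aa61a2429b1cd22f55994268a7e8450a4f4e878427b0401c8b438a0dc163958b4c769f (k8 c1396 c4403 c5695 c123 c241 c567 c1344 c4470 (k8 c8226 c4296 c1019 c4462 c1224 c9668 c4466 c10547 (k8 c4297 c1495 c113 c4378 c10864 c4401 c490 c1672 (k8 c4432 c756 c4289 c4290 c10893 c4381 c1503 c1463 (k4 c10741 c10894 c4489 c10872 (k2 c900 c2046 (k1 c10358 k0))))))) (by decide +kernel)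
def c10896 : PP 8 4 T 0x200002002000000000000000000000000000008000080000000010004010008002 := rS 0x74491e12aaf888a847172eae11e431e9ee28081b8781645238ec7ec769814426b0b99426075b9cd6a7d4b99c92554534472b1 (k8 c123 c241 c4298 c10864 c1766 c242 c4310 c928 (k8 c4409 c1347 c4408 c1077 c1019 c4401 c490 c4431 (k8 c492 c9668 c10382 c5695 c4289 c4288 c4403 c4404 (k8 c4296 c567 c4466 c1344 c4462 c4470 c1224 c10472 (k8 c10488 c4388 c2113 c840 c4361 c1327 c10895 c4411 (k4 c1774 c1694 c10881 c4487 (k2 c604 c1656 k0))))))) (by decide +kernel)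
def c10897 : PP 8 4 T 0x200002002000000000000000000000000000008000004000000010004000008002 := rS 0x5eaa4851262a74ec798c9d47b1661d0e22bb52a894f0c5cafe2ac1479346c7b2e828128d49a55329b0e1249e4122944a63b1f8a58f092aa29a26917a456e735a9f52e5a2cb4c0a67 (k8 c4310 c10382 c5695 c9852 c4476 c928 c4409 c1347 (k8 c4408 c1077 c1075 c4432 c756 c4298 c10864 c1766 (k8 c4322 c4289 c4402 c4288 c4403 c4290 c4435 c4296 (k8 c4433 c4297 c242 c10896 c764 c1031 c762 c1029 (k8 c1027 c1057 c10867 c2721 c705 c304 c2248 c1345 (k8 c1713 c4386 c1511 c1471 c4486 c10653 c7468 c4385 (k8 c4847 c4337 c4393 c4958 c4487 c5531 c4417 c4982 (k8 c604 c4482 c969 c1095 c4679 c2115 c4345 c2014 (k1 c2126 k0))))))))) (by decide +kernel)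
def c10898 : PP 8 4 T 0x40000000000000400000000000000000400160000141501501004002000000000000000000000000000 := rS 0x672fd5143 (k4 c4394 c8005 c5760 c7105 (k1 c1525 k0)) (by decide +kernel)
def c10899 : PP 8 4 T 0x200002002000000000000000000000000000000000004000000010004000000004 := rS 0x5117ccc6230e329c3644c56ad882e126954ca6d821c3daed7a0a52a7d463986b2d4ea1468244460428951e37081741e972d1656e9103ac4dc733392c364168944a6471d8b452d384a1e968a3585cd22f328000a13 (k8 c4401 c10382 c4461 c490 c4432 c756 c4431 c492 (k8 c10864 c4427 c186 c4322 c5695 c4402 c4286 c4403 (k8 c4404 c4290 c4435 c4298 c4433 c4292 c4434 c4310 (k8 c4408 c10892 c123 c1019 c1075 c1077 c9852 c4476 (k8 c928 c10897 c753 c8928 c1343 c1345 c278 c710 (k8 c606 c607 c9117 c9120 c7717 c4558 c1753 c4326 (k8 c7422 c936 c1299 c1301 c4462 c6223 c9034 c702 (k8 c567 c1713 c764 c1031 c762 c1029 c5931 c5821 (k8 c4338 c4411 c4498 c4479 c10898 c4368 c1213 c7943 (k4 c8268 c1254 c5541 c4399 k0)))))))))) (by decide +kernel)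
def c10900 : PP 8 4 T 0x2002000000000000000000000000000004000004000000010000000008004 := rS 0x43048611b2c52315218e410a9898c4ba5a03879066c561643a664282cbefd2794da70945084d617348000a2f (k8 c4432 c10382 c4461 c756 c4431 c492 c9668 c10864 (k8 c4322 c5695 c4290 c4297 c4376 c1376 c305 c1495 (k8 c10868 c10867 c2703 c721 c720 c2628 c4466 c1097 (k8 c4476 c2951 c2046 c4342 c8675 c4462 c4528 c276 (k8 c10479 c1153 c1145 c4470 c9302 c272 c4477 c4381 k0))))) (by decide +kernel)
def c10901 : PP 8 4 T 0x100002002000000000000000000000000000004040004000000010004010004002 := rS 0x1fdfb4338c50fa748bb08e6c54d9b2269388104a23b168547f094eacc7a556890cd6172f968b237609ec8ac9088200eb10f084d22f4502da613 (k8 c4401 c5695 c567 c10864 c4432 c756 c9668 c4466 (k8 c10869 c8286 c4462 c345 c10573 c4296 c1224 c1713 (k8 c232 c486 c4476 c9119 c4431 c492 c10488 c4298 (k8 c1766 c234 c10182 c10547 c4322 c4288 c4284 c4286 (k8 c4403 c4435 c4433 c5056 c4413 c4498 c4479 c5506 (k8 c7718 c1770 c9770 c4362 c4481 c1691 c10871 c4387 (k4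 c8226 c10499 c10049 c4483 k0))))))) (by decide +kernel)
def c10902 : PP 8 4 T 0x20000002002000000400000045410000000000000000000000000001045400000000 := rS 0x66d14904c5192c5e4f19b44a253238b452c7a5a293ea5 (k8 c4385 c4384 c10864 c4427 c4289 c4402 c4286 c4404 (k8 c4290 c4435 c4298 c4294 c4297 c4432 c4434 c9064 (k4 c2111 c2110 c4451 c2062 (k1 c4573 k0)))) (by decide +kernel)
def c10903 : PP 8 4 T 0x8400000002002000000000000020001400000000000000000000001000000000000000 := rS 0x26632c3 (k4 c4362 c4982 c2050 c4488 k0) (by decide +kernel)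
def c10904 : PP 8 4 T 0x100002002000000000000000000000000000004000004000000010004010004002 := rS 0x13319621ca2e9b899d55e6c561987a085981d621e4b82d3a3f69a24aa8a68884d22f (k8 c4432 c756 c9668 c4298 c10864 c1766 c187 c5695 (k8 c4288 c10547 c567 c6579 c4466 c10869 c8286 c10182 (k8 c4462 c234 c10901 c721 c720 c985 c593 c4342 (k4 c5506 c10903 c4481 c1770 (k2 c4370 c1136 (k1 c4488 k0)))))) (by decide +kernel)
def c10905 : PP 8 4 T 0x400100002002000000000000010000504000000004000080000000010000001014800 := rS 0x390f58a7521a746c7942134fafc648e426d38495514d13dacc2a0d (k8 c569 c4284 c662 c705 c4298 c10864 c1766 c4322 (k8 c5695 c4401 c358 c10573 c10457 c4379 c10087 c10080 (k8 c10814 c10106 c969 c10207 c10194 c7718 c10368 c10445 (k1 c1770 k0)))) (by decide +kernel)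
def c10906 : PP 8 4 T 0x100002002000000000000000000000000000004040004000000010004000004002 := rS 0x145662f988b85eaed6e3948a951f0d50c506e71111810a257e840326c89a8d2ead15c40961b16b4e125545344d61734994261f4d8bd32414a8a5263b46968b2b1068283805 (k8 c10382 c10904 c10867 c569 c2605 c1026 c4476 c1027 (k8 c4403 c1029 c4402 c762 c4433 c1031 c4432 c764 (k8 c56 c4401 c490 c756 c4431 c492 c4298 c10864 (k8 c1766 c4322 c5695 c4286 c4292 c4434 c5056 c4904 (k8 c6230 c928 c4337 c4498 c4479 c5907 c10905 c4300 (k8 c278 c710 c606 c607 c2562 c319 c10884 c7717 (k8 c4326 c2724 c1301 c2736 c359 c7094 c9034 c4354 (k4 c7454 c10887 c1254 c1255 (k2 c4399 c5541 k0))))))))) (by decide +kernel)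
def c10907 : PP 8 4 T 0x2002000000000440000000000000010200000000000040010000000014800 := rS 0x5e8dc9b14648e4964f2091426d32aa29a20d (k8 c569 c4298 c10864 c1766 c5695 c4401 c4296 c4433 (k8 c4297 c4434 c358 c10573 c10883 c10087 c10194 c4354 (k1 c2114 k0))) (by decide +kernel)
def c10908 : PP 8 4 T 0x2002000000000000000000000000000004000004000000010004000000004 := rS 0x52aa54f14112144afd081f4e8738baed8b1821afe269d18a0cf26c5619962b33d968148d49a6536590e1741e4b0d8bc82531d855a709450000b05 (k8 c10899 c10382 c4461 c10864 c4322 c5695 c4284 c4403 (k8 c4290 c4433 c4432 c4292 c4434 c10900 c753 c10904 (k8 c1026 c764 c1031 c1029 c1027 c10867 c4476 c705 (k8 c662 c2605 c10906 c721 c720 c2590 c2628 c2046 (k8 c2953 c4342 c7782 c4567 c4488 c7718 c4449 c9283 (k8 c1770 c4481 c1691 c10907 c4300 c278 c710 c607 (k4 c10884 c4558 c8675 c1301 (k1 c10851 k0)))))))) (by decide +kernel)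
def c10909 : PP 8 4 T 0x100002002000000000000000000000000000008000080000000010004010008002 := rS 0x5467119d0bab85aa3c863d3dc516e081ba5c1645238ec7e6b0b994267f7eb4d8e0d5981c92554534472b1 (k8 c123 c241 c4298 c10864 c1766 c242 c1019 c10182 (k8 c1289 c4289 c5695 c4378 c7414 c4401 c490 c4431 (k8 c492 c4288 c4403 c4404 c4296 c567 c6579 c1344 (k8 c4462 c7094 c4470 c1224 c234 c10488 c4388 c4389 (k4 c7430 c840 c5280 c1327 (k2 c593 c10895 (k1 c4904 k0))))))) (by decide +kernel)
def c10910 : PP 8 4 T 0x100002002000000000000000000000000000008000004000000010004000008002 := rS 0x548c558661528d4a2530a9e19154788c9a362e828128d0e124224b1793c66532aa29a2631499426913fbf58e0d2d165a605 (k8 c10382 c5695 c9852 c4476 c1289 c4289 c4378 c7414 (k8 c1075 c4401 c490 c4402 c754 c4298 c10864 c1766 (k8 c4290 c4294 c4297 c4432 c4434 c113 c242 c10909 (k8 c1027 c1057 c10867 c2721 c304 c2248 c7099 c1345 (k8 c4386 c4486 c10653 c4326 c4381 c4385 c8633 c7771 (k4 c4191 c721 c2046 c948 (k1 c2111 k0))))))) (by decide +kernel)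
def c10911 : PP 8 4 T 0x101002002000000000100000110001501000000042084000000140000000001802 := rS 0x1445f33188c38ca70d8b889a8d2ead15c40a25316c250f4b2ab44d6173499426cb86add76d32587c0ac13d86d149b17a64829514a4c383b (k8 c4403 c567 c1029 c4402 c762 c4433 c1031 c4432 (k8 c764 c10864 c4292 c702 c1713 c10382 c270 c4434 (k8 c5695 c9034 c7094 c4326 c1753 c4401 c490 c756 (k8 c4431 c492 c4298 c1766 c4427 c186 c4322 c4286 (k8 c4290 c4435 c5056 c4904 c6230 c928 c936 c4498 (k8 c7454 c4479 c10898 c4368 c1213 c7943 c8268 c1254 (k2 c5541 c4399 k0))))))) (by decide +kernel)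
def c10912 : PP 8 4 T 0x2002000000000000000000000000000000000004000000010004000000004 := rS 0x54a74d8ac33264387b5eaec14a586a9d428d1c8244460428951e37081741e5a0696522077eac4dd052586c5e4169a280005 (k8 c10382 c4461 c10864 c5695 c4433 c4432 c4292 c4434 (k8 c10899 c10908 c123 c4378 c1019 c1075 c9852 c1289 (k8 c4476 c10910 c753 c8928 c1343 c1345 c278 c710 (k8 c606 c607 c9117 c7422 c9120 c7717 c4558 c4326 (k8 c1301 c4462 c9034 c6223 c702 c567 c1031 c10911 (k4 c721 c720 c2953 c2955 (k1 c8005 k0))))))) (by decide +kernel)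
def c10913 : PP 8 4 T 0x900000000002000040000000000400100081000000100008004000050000000008002 := rS 0xc44b1de32b55ea4577145b8ecf68f4aa4cca1346a7552a51cac4101c (k8 c750 c751 c3160 c241 c4444 c4345 c4344 c1027 (k8 c4401 c490 c1070 c2710 c2709 c1227 c4403 c7094 (k8 c4470 c9034 c4352 c4354 c4389 c4539 c10356 c10643 (k2 c7804 c1252 k0)))) (by decide +kernel)
def c10914 : PP 8 4 T 0x2002000000000000000000000000000000000000000000010004000008004 := rS 0x248608c9abf1b29d0a5f7e92c9e334da3d32612db4cb23146ac4101c4eaa54b11891b4ac69179ac00050bc25142d (k8 c4286 c10864 c4322 c4431 c10382 c4461 c492 c4432 (k8 c756 c10912 c9753 c4479 c4498 c4444 c4345 c4344 (k8 c750 c751 c3160 c1027 c7393 c63 c5695 c92 (k8 c7428 c1072 c2709 c804 c4294 c4297 c4434 c4376 (k8 c1376 c1495 c4532 c10913 c1511 c2147 c1409 c6348 (k2 c2111 c4381 k0)))))) (by decide +kernel)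
def c10915 : PP 8 4 T 0x2002000000000000100000000000000001001000000000200000020004402 := rS 0xcda2a11429f53888be4754a94fe7d822be2463149946309029ac2e67451a45e5d64845a613 (k8 c4401 c5695 c606 c10573 c753 c4432 c756 c10864 (k8 c720 c4431 c492 c10382 c4322 c7393 c490 c4402 (k8 c754 c4479 c4346 c10537 c4409 c4313 c4444 c4345 (k8 c4404 c4647 c1140 c772 c1299 c770 c8696 c4397 (k2 c1481 c9372 k0))))) (by decide +kernel)
def c10916 : PP 8 4 T 0x2002000000000000000000000000000004000008000000010000000004002 := rS 0x4b280f6b3318a4ce8d4eaa54b11891a45e6b0bc25142d6484426918a0e5620b3096cb21c368dc10d3 (k8 c5695 c751 c232 c9753 c750 c63 c92 c7428 (k8 c566 c3160 c10915 c4470 c4352 c4401 c606 c10573 (k8 c4286 c10864 c4322 c4431 c492 c4432 c756 c4479 (k8 c4498 c4444 c4345 c4344 c1027 c720 c4402 c754 (k4 c1188 c1227 c10650 c10647 (k1 c898 k0)))))) (by decide +kernel)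
def c10917 : PP 8 4 T 0x2002000000000000000000000000000000000000000000010004000000004 := rS 0xdc0f08984b6592b34c0005 (k8 c10382 c4461 c5695 c10912 c63 c92 c7428 c606 (k2 c10914 c10916 (k1 c8928 k0))) (by decide +kernel)
def c10918 : PP 8 4 T 0x2002000000000000000000000000000000000000000000010000000000004 := rS 0x3a1f130840005 (k4 c10382 c4461 c9668 c10917 (k2 c9118 c873 (k1 c4466 k0))) (by decide +kernel)
def c10919 : PP 8 4 T 0x2002000000000000000000000000000004000080000000000004000008008 := rS 0x1a54b1353c304a5d10020d62f69816126d198acaa8a689844601 (k8 c28 c1328 c878 c4298 c10864 c1766 c226 c4294 (k8 c958 c4322 c10382 c5695 c4432 c2561 c839 c838 (k8 c841 c2142 c4046 c4558 c10562 c4385 c10793 c4479 k0))) (by decide +kernel)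
def c10920 : PP 8 4 T 0x2002000000000000000000000000000004000004000000050004000008100 := rS 0xd46952c4e18a746af44b145888072060f8bda605849b4662b2ab4422852788c020b4e874f2582d8091471 (k8 c1415 c10864 c10918 c10919 c4476 c2506 c790 c10547 (k8 c303 c28 c1328 c4297 c1495 c342 c4298 c1766 (k8 c226 c4294 c958 c4322 c10382 c5695 c4432 c222 (k8 c4462 c240 c4466 c8612 c4470 c312 c4354 c9120 (k4 c4558 c4467 c10562 c4385 (k2 c10793 c4479 (k1 c10516 k0))))))) (by decide +kernel)
def c10921 : PP 8 4 T 0x2002000000000000000000040000000004100020000000040004000008208 := rS 0x25502ad57192226a51296270c5089584c58c1dc52d302c25126d198acfec711804923d2ab448679609ec8a8a (k8 c10864 c4296 c1224 c1713 c2506 c237 c4298 c1766 (k8 c234 c242 c28 c1328 c4289 c1455 c226 c4294 (k8 c958 c187 c4322 c10382 c5695 c4402 c1112 c9998 (k8 c4370 c5577 c9835 c7717 c4467 c10562 c4385 c7771 (k8 c4479 c4337 c564 c565 c2048 c1922 c9962 c4986 k0))))) (by decide +kernel)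
def c10922 : PP 8 4 T 0x200002002000000000000000000000000000004000004000000050004000008000 := rS 0x4a3098a9b4cc60ef1146ab0d0bf218f4f607040bc8a51298b45205848acaad1559b4661d3ca28c69759960b602 (k8 c10918 c10919 c4476 c4312 c1195 c4407 c10864 c2506 (k8 c790 c4294 c958 c1673 c4298 c1766 c226 c4322 (k8 c10382 c4402 c4286 c4290 c4435 c4296 c4432 c10920 (k8 c30 c1224 c234 c237 c7782 c10921 c7083 c10828 (k8 c4338 c10804 c9998 c1880 c4448 c4370 c5577 c4958 (k1 c860 k0)))))) (by decide +kernel)
def c10923 : PP 8 4 T 0x200002002000000000000000000000000000004000004000000010004000008000 := rS 0x2b6303d351ed2b1134a894ac189c314e773a8940c5f04881721f1b25d662f2084c52c7698161289368cc56fd11804925545344169d0e960b602 (k8 c10918 c10919 c4476 c790 c10547 c303 c4298 c10864 (k8 c1766 c242 c28 c1328 c4376 c226 c4294 c958 (k8 c187 c4322 c10382 c5695 c4289 c4402 c4401 c4433 (k8 c4432 c4312 c1195 c10922 c2130 c1471 c4466 c1105 (k8 c5471 c4462 c225 c498 c1023 c4558 c4467 c10562 (k8 c1712 c4385 c7771 c10793 c4337 c859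 c4055 c4479 (k4 c7465 c9998 c2048 c4986 k0))))))) (by decide +kernel)
def c10924 : PP 8 4 T 0x2002000000000000000000000000000004000004000000050004000008000 := rS 0x2954e5f12c60ee8d5f9a086973d81c102f22b4c0b09118043a792c16c048a (k8 c10864 c10918 c10919 c4476 c2506 c790 c28 c1328 (k8 c4322 c10382 c5695 c4296 c4432 c10920 c30 c1224 (k8 c3206 c237 c10921 c7782 c10828 c10804 c9998 c9835 (k4 c10439 c4558 c1883 c10793 k0)))) (by decide +kernel)
def c10925 : PP 8 4 T 0x2002000000000000000000000000000004000004000000010004000008000 := rS 0x45a30b33da56226951296270c539ccee7512818be9704881721f1b414b05b17904263b14b1da605368ccce2d15bf446012495514d105a743a02 (k8 c10918 c790 c10547 c303 c4298 c10864 c1766 c242 (k8 c28 c1328 c4376 c226 c4286 c918 c4294 c958 (k8 c10382 c5695 c4289 c4402 c4403 c4401 c4433 c4432 (k8 c10919 c4476 c10923 c10924 c2130 c1471 c4466 c1105 (k8 c926 c5471 c4462 c225 c498 c1023 c1021 c4558 (k8 c4467 c10562 c4385 c7771 c10793 c4337 c859 c4055 (k4 c7239 c9998 c4481 c9283 k0))))))) (by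 decide +kernel)
def c10926 : PP 8 4 T 0x2002000000000000000000000000000000000004000000010004000008000 := rS 0x34294d7138629cb4252c97cdc2f69816126d198acaa8a6888c0202 (k8 c10918 c28 c1328 c4298 c10864 c1766 c226 c4294 (k8 c958 c4322 c10382 c5695 c4432 c10925 c1378 c9852 (k8 c225 c4476 c4558 c4467 c10562 c2561 c4385 c4479 (k1 c10793 k0)))) (by decide +kernel)
def c10927 : PP 8 4 T 0x2002000000000000000000000000000004100000000000010004000008000 := rS 0xad510c2269f0c09590ce2620a2e435fc61667b3192c9e4529c24da331595514d1308e52a293a84cee413c85ce6061daec6ebd8a024382105845fa1f02ac4b2561180404d3 (k8 c5695 c10918 c28 c1328 c10926 c63 c10634 c10382 (k8 c1066 c4376 c342 c10457 c799 c4466 c1058 c10635 (k8 c4354 c4386 c4390 c4403 c791 c1021 c4431 c500 (k8 c4433 c1023 c4401 c498 c4402 c762 c241 c878 (k8 c4298 c10864 c1766 c226 c4294 c958 c4322 c4290 (k8 c4296 c4297 c4434 c1769 c1227 c1188 c4632 c7782 (k8 c4446 c9283 c8260 c9891 c645 c644 c2135 c244 (k4 c1665 c10562 c10711 c10625 (k2 c2046 c1524 k0)))))))))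 (by decide +kernel)
def c10928 : PP 8 4 T 0x2002000000000000000000000000000000200000000000000005400008000 := rS 0x14aa72f8bda605 (k4 c10382 c5695 c4432 c10439 (k2 c4558 c1883 (k1 c10793 k0))) (by decide +kernel)
def c10929 : PP 8 4 T 0x10200002002000000000405500442000000000154201000000000000000000000008 := rS 0x5cb2588a188ab0c62f2894c5a29028acaad1559b4668a (k8 c10864 c4294 c958 c1673 c4298 c1766 c226 c10382 (k8 c4402 c4286 c4290 c4435 c4432 c4407 c7083 c4338 (k4 c900 c947 c7497 c1254 (k1 c10837 k0)))) (by decide +kernel)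
def c10930 : PP 8 4 T 0x2002000000000000000200000000000004000000000000010004000008000 := rS 0x6564416867d6633d00bf259448e8715955a27f469d426731d8dd6eb58a43546c72f29cc28527acd86534e1ea32424197448683882472b12c88c02790b9dc0c1c1082c22fd6987c0a0220c251456 (k8 c10926 c10864 c4322 c4433 c10918 c10382 c1066 c5695 (k8 c4376 c342 c10457 c799 c4466 c791 c1023 c4431 (k8 c500 c28 c1328 c63 c10634 c241 c1058 c1416 (k8 c10927 c10928 c1336 c2001 c10284 c4446 c4482 c1226 (k8 c4290 c2054 c723 c4297 c1495 c878 c5558 c225 (k8 c4289 c1463 c4381 c10635 c4389 c4353 c4386 c4403 (k8 c1021 c4401 c498 c1067 c1455 c4298 c1766 c226 (k8 c186 c4404 c4435 c4434 c1403 c1882 c3365 c4196 (k4 c1772 c4395 c10929 c4483 (k2 c10846 c546 k0)))))))))) (by decide +kernel)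
def c10931 : PP 8 4 T 0x2002000000000000000000000000000004000000000000010004000008000 := rS 0x7ab982afe88a589a71667a61c654e4241979465d86890d0b55b8dce6793b9d628710302438210585c82532384c76c784844c2fd4293c9255453443e051cac4b2561180404d3 (k8 c5695 c10918 c28 c1328 c10926 c63 c10634 c241 (k8 c10382 c1066 c4298 c10864 c1766 c242 c4297 c1495 (k8 c4376 c878 c342 c4322 c4289 c4403 c4401 c4404 (k8 c4290 c4433 c4431 c10457 c799 c4466 c1058 c791 (k8 c1416 c10635 c498 c1023 c500 c1021 c4386 c4353 (k8 c4389 c10927 c10928 c4381 c1336 c1463 c225 c2001 (k8 c10284 c5558 c4446 c2054 c4482 c723 c1226 c4344 (k4 c10930 c7647 c4399 c10929 (k2 c4548 c10368 (k1 c7430 k0)))))))))) (by decide +kernel)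
def c10932 : PP 8 4 T 0x2002000000000000000000000000000000000000000000010004000008000 := rS 0xc8820c9a950a54f9a626a726c304a31050803a073707cb656119fd0afd258bc2e4f09b1da60584a1c022b2ab45566d19a28c202 (k8 c10918 c878 c10864 c4294 c958 c1673 c4298 c1766 (k8 c226 c28 c186 c4322 c10382 c5695 c4289 c4401 (k8 c4297 c4431 c4432 c4434 c4376 c1495 c1455 c1328 (k8 c10926 c92 c1066 c10931 c1019 c791 c4466 c799 (k8 c2245 c2243 c6403 c2248 c4558 c10562 c10928 c4384 (k4 c4385 c2111 c4479 c10711 (k2 c5323 c564 (k1 c9073 k0)))))))) (by decide +kernel)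
def c10933 : PP 8 4 T 0x40000000000200000000000000000000004000000005000000000 := rS 0x470d (k2 c4385 c1301 (k1 c4467 k0)) (by decide +kernel)
def c10934 : PP 8 4 T 0x2002000000100000000000000100400004100004000000000005400000008 := rS 0x2433547455e309623d3a2dd28938bb153718389e52f112c2055aae3216cfe77351ed0abb89c30822963c250e89a59b4662b2ab44be0550b2d14a56992d3a1d (k8 c790 c10547 c4434 c5695 c10933 c10864 c1752 c7717 (k8 c10382 c10439 c4298 c1766 c226 c4294 c958 c4427 (k8 c187 c186 c4322 c4289 c4402 c4433 c4467 c10562 (k8 c4825 c10110 c4055 c4479 c7751 c724 c2561 c564 (k8 c565 c2048 c1922 c4476 c4412 c4631 c2506 c536 (k8 c9998 c1968 c4370 c9283 c1778 c4487 c1746 c1696 (k8 c9079 c626 c5577 c6745 c8243 c9962 c2069 c7771 (k1 c4573 k0)))))))) (by decide +kernel)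
def c10935 : PP 8 4 T 0x2002000000000000000000000000000000100004000000010004000000000 := rS 0x2ed7e7b3bc50f20840a14e2580f030b85b10888964584a28de830bb2422134697c4a0f02b4c3a02 (k8 c10918 c790 c5695 c10382 c10932 c224 c10439 c9120 (k8 c4401 c342 c10573 c4431 c4570 c8928 c10864 c4322 (k8 c4296 c4434 c10934 c833 c2833 c792 c793 c4466 (k8 c4476 c1418 c1498 c1293 c222 c2506 c4547 c1112 (k4 c1224 c7782 c4390 c7040 k0))))) (by decide +kernel)
def c10936 : PP 8 4 T 0x40000000002000000000000000200000000000000000404004000 := rS 0x1f85c (k2 c826 c9068 (k1 c4377 k0)) (by decide +kernel)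
def c10937 : PP 8 4 T 0x2002000000000000000000000000000000200000000000000004400004008 := rS 0x90cda2a8d5c4c54c30364f298a58f4b15955a2ab368cd42a717b2d921109a294a256992c6205 (k8 c10382 c1879 c4434 c5695 c224 c10933 c10864 c4401 (k8 c342 c10573 c1752 c4432 c4558 c7717 c4294 c958 (k8 c1673 c4298 c1766 c226 c4427 c4289 c4402 c4290 (k8 c4297 c4292 c4467 c10936 c2111 c10902 c988 c4451 (k2 c2062 c7771 (k1 c4573 k0)))))) (by decide +kernel)
def c10938 : PP 8 4 T 0x2002000000000000000000000000000000000004000000010004000000000 := rS 0x5c33892cda2afe864c5a8e5767b8a0f486082c0786e5b10888f2680e92c9e4122b44a6471d8fe134b3797c4a0565b241e110134c268a (k8 c10864 c4401 c5695 c10918 c342 c10932 c10573 c1752 (k8 c10382 c224 c10439 c8928 c4427 c4322 c4288 c4403 (k8 c4404 c4290 c4298 c4296 c4433 c4297 c4434 c790 (k8 c10935 c1961 c10937 c833 c2833 c1410 c4466 c4476 (k8 c222 c2132 c2131 c4547 c1224 c4390 c4348 c4389 (k8 c9686 c8226 c7782 c4451 c2062 c4573 c4495 c8983 (k1 c1525 k0))))))) (by decide +kernel)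
def c10939 : PP 8 4 T 0x2002000000000000000000000000000000100008000000000005400000008 := rS 0x260ec7561c5a32931ea5cfa7388ab55c643527e270c20b4e1289a59b4662b2ab44b29531b04f68a (k8 c10864 c1227 c1713 c1769 c802 c63 c4298 c1766 (k8 c226 c4294 c958 c4427 c187 c4322 c5695 c4433 (k8 c4467 c10562 c4384 c4479 c564 c565 c2048 c4412 (k8 c3714 c1650 c4631 c7465 c1069 c4986 c7773 c4362 (k4 c4417 c4632 c1920 c9819 k0))))) (by decide +kernel)
def c10940 : PP 8 4 T 0x2002000000000000000000000000000000100000000000010004000000000 := rS 0x2fcf2775dd100c8f408dd0afd58870185c48884447b25906128a37a0c2e11468941e026987cac05 (k8 c10382 c10938 c1066 c5695 c10918 c10932 c224 c9120 (k8 c342 c4431 c4570 c8928 c10864 c4322 c4433 c4434 (k8 c1227 c10939 c833 c2766 c792 c793 c4466 c1147 (k8 c4377 c1498 c3382 c1293 c2763 c791 c4484 c10310 (k4 c1023 c500 c4399 c9037 k0))))) (by decide +kernel)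
def c10941 : PP 8 4 T 0x2000000002002000000100044100000000000515014000200000000040000000000080 := rS 0x19f435c3368b17424617eb369c2696cb451d42677209cc76b5 (k8 c4389 c4403 c1021 c4433 c1023 c4401 c498 c10864 (k8 c1752 c4427 c4322 c5695 c722 c7782 c4482 c9037 (k4 c9283 c8243 c3456 c4073 (k2 c4394 c1525 (k1 c4495 k0))))) (by decide +kernel)
def c10942 : PP 8 4 T 0x10000000000000000000004420000000000080000100000000000000000000000000000 := rS 0x18b17 (k2 c4361 c1254 (k1 c8095 k0)) (by decide +kernel)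
def c10943 : PP 8 4 T 0x80080000000200000000000000000000000 := rS 0x19884 (k2 c724 c725 (k1 c3456 k0)) (by decide +kernel)
def c10944 : PP 8 4 T 0x2002000000000000000000000000000000000000000000010004000000000 := rS 0x5150abe662e0feb361c64f4c15aadce67538aee28791c8191e9b409f46efd58870185c4888444680f9591ac9419bc4a0f0892c5e17098eda60584d2d1402 (k8 c10918 c10864 c4427 c4322 c10382 c5695 c4403 c4401 (k8 c4431 c4432 c4434 c342 c10932 c224 c8928 c4570 (k8 c10573 c9120 c10938 c1066 c10940 c10937 c833 c2766 (k8 c792 c793 c4466 c1147 c4377 c3382 c8317 c1293 (k8 c764 c2763 c791 c1139 c1960 c4628 c10310 c1417 (k8 c498 c1021 c7094 c4389 c1712 c10941 c4366 c3223 (k8 c723 c10943 c2121 c8268 c10942 c1481 c4399 c4484 k0))))))) (by decide +kernel)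
def c10945 : PP 8 4 T 0x4000000002002000000000000000000044000004000500000000000001000000000008 := rS 0xef1962a6928ac88abe242f2894c5a29848acaad1559b4668a (k8 c10864 c4294 c958 c1673 c4298 c1766 c226 c4322 (k8 c4402 c4286 c4290 c4435 c4432 c4479 c4346 c4498 (k4 c2112 c4487 c860 c1786 (k2 c4448 c1888 (k1 c7804 k0))))) (by decide +kernel)
def c10946 : PP 8 4 T 0x2002000000000000000000000000000000000000000000010000000008000 := rS 0x17e4341a00f26849c5d70b55b8f628373d821225a2c95d2e39101ad1e5d2482c3e31303f41a112091c763f63b4caa8a689b40433518b43a26 (k8 c10944 c873 c4286 c934 c4294 c10918 c958 c4298 (k8 c10864 c1766 c5695 c4289 c4288 c4403 c4404 c4433 (k8 c113 c32 c4376 c239 c2156 c2154 c2246 c242 (k8 c807 c2848 c2604 c4466 c361 c926 c799 c4565 (k8 c4476 c2894 c839 c704 c321 c4538 c234 c7094 (k8 c4389 c2113 c4361 c1126 c10945 c1961 c885 c2001 (k2 c237 c1364 (k1 c9674 k0)))))))) (by decide +kernel)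
def c10947 : PP 8 4 T 0x40400000000000000000000000000010440405000000000000000000000000420405550000000000000 := rS 0xb8671259b45 (k4 c4451 c2062 c4573 c4495 (k2 c2113 c1525 k0)) (by decide +kernel)
def c10948 : PP 8 4 T 0x2002000000000400400000000000000000100080000000150000000010000 := rS 0x17295619089a7f5650e22af1ec48be08358bc9e4122944a6471f8a58f09a599c565568aacda335198d6e3b5d92d22bd5ac512e2d188803e1d1300996c907b4c268a (k8 c10864 c4401 c5695 c10946 c10573 c1752 c10918 c10944 (k8 c873 c352 c4466 c6830 c4286 c926 c4470 c4389 (k8 c4354 c4352 c4434 c9034 c4403 c7094 c1769 c934 (k8 c4294 c958 c1673 c4298 c1766 c226 c918 c4427 (k8 c4322 c4289 c4402 c4288 c4404 c4290 c4435 c4296 (k8 c4433 c4297 c4432 c2561 c839 c9867 c4479 c234 (k8 c4346 c4498 c8226 c2112 c6629 c10947 c2114 c2054 (k2 c861 c5821 (k1 c10570 k0))))))))) (by decide +kernel)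
def c10949 : PP 8 4 T 0x10000000000000000000000000000000000080004000100020000000000000000000000 := rS 0x77 (k2 c1112 c9998 k0) (by decide +kernel)
def c10950 : PP 8 4 T 0x2002000000000400400000000000000000100080000000150000000000000 := rS 0x4010021007c3a26 (k8 c10944 c873 c352 c4466 c10918 c839 c10948 c2305 k0) (by decide +kernel)
def c10951 : PP 8 4 T 0x2002000000000400000000000000004004100004000000150000000000000 := rS 0x19f4365ae19b4564c1098113ac5c86068c1cc12582d94c274b0782c046359a2a28b71daeda64b1007c3a26 (k8 c10944 c873 c352 c4466 c4434 c5695 c9034 c4403 (k8 c7094 c4470 c10864 c722 c1769 c10918 c303 c10946 (k8 c4427 c4401 c4290 c10950 c4476 c231 c1110 c10949 (k8 c4462 c4446 c9283 c498 c609 c9891 c4481 c10573 (k4 c4451 c2062 c7081 c1752 (k2 c4394 c1525 (k1 c4495 k0))))))) (by decide +kernel)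
def c10952 : PP 8 4 T 0x2002000000000000000000000000004004100004000000150000000000000 := rS 0x2e4225f88a4810958b969586b03b10e859579e0ee7f8caf8629738a4441140f8bc2e51298a5a709338b4565568aacdb0d1189552334e8744c0b0118d668a (k8 c10864 c722 c1769 c10918 c303 c10944 c873 c10547 (k8 c4294 c974 c115 c114 c4324 c958 c1673 c4298 (k8 c1766 c226 c4286 c918 c4322 c5695 c4402 c4290 (k8 c4435 c4431 c4432 c352 c4470 c4466 c4352 c4387 (k8 c926 c6830 c10951 c4369 c8266 c1093 c7782 c9441 (k8 c10949 c4632 c7804 c500 c565 c2112 c4476 c4417 (k8 c1786 c4462 c10945 c4338 c9867 c2305 c8464 c10570 k0))))))) (by decide +kernel)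
def c10953 : PP 8 4 T 0x11000002002002000000000404000000000000004200100480000000010000000000000 := rS 0x855e9e188c34945e96a9133052e311000532a5891acda0219c251481 (k8 c4380 c10864 c4322 c4294 c10918 c958 c2561 c4479 (k8 c4444 c4443 c28 c838 c6147 c2933 c1713 c10944 (k8 c974 c4427 c4417 c10945 c1127 c4494 c1785 c1175 (k2 c603 c7107 k0)))) (by decide +kernel)
def c10954 : PP 8 4 T 0x10100000000000000000100000000050140980114100045580000000000000000000000 := rS 0x62c5d86b44aaed3c7632d2d827f (k8 c6629 c1713 c4427 c578 c4632 c2118 c1890 c1699 (k4 c1427 c4958 c4419 c1789 (k1 c4494 k0))) (by decide +kernel)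
def c10955 : PP 8 4 T 0x11000000002002000000000400000000000900004000100480000000010000000010000 := rS 0xb73a19d466364b4c26974cc45027d7e1841e5d8689942ac57c48d70915954a23110004a6ab36808668a148b45ed1 (k8 c4298 c4432 c4286 c4402 c10864 c4294 c10918 c958 (k8 c1673 c4290 c28 c838 c6147 c4435 c1766 c226 (k8 c4322 c2561 c4479 c4346 c2112 c2851 c10944 c4324 (k8 c807 c10946 c879 c4477 c4379 c4380 c4498 c4443 (k8 c2933 c4401 c5695 c10573 c1769 c934 c918 c10954 (k2 c1744 c10953 k0)))))) (by decide +kernel)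
def c10956 : PP 8 4 T 0x2002000000000000000000000000004000100080000000250000000010000 := rS 0x4ab098a9b8c2b222995797d1a8e1ec483e314b880106b2c8bca253168a5a709008acaad1559b40433454557e45 (k8 c4296 c1240 c4348 c10864 c4294 c10918 c958 c1673 (k8 c4298 c1766 c226 c28 c4322 c5695 c4402 c4286 (k8 c4290 c4435 c4432 c93 c2561 c839 c838 c2933 (k8 c6147 c223 c4479 c234 c361 c1113 c9867 c4346 (k8 c4443 c4498 c2112 c10955 c4448 c4370 c5577 c860 (k1 c4958 k0)))))) (by decide +kernel)
def c10957 : PP 8 4 T 0x120000000240008050000400 := rS 0x191c9104a34410d (k8 c4324 c4466 c1113 c1105 c887 c361 c4462 c7036 k0) (by decide +kernel)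
def c10958 : PP 8 4 T 0x2002000000100400100000000400504204100020000000010000000000000 := rS 0x2154f13572b543114a191a60515955a2ab36808670d12898f2775da6e308a (k8 c10864 c10949 c4448 c4449 c1112 c2506 c10944 c115 (k8 c4324 c4294 c10918 c958 c1673 c4298 c1766 c226 (k8 c10382 c5695 c538 c539 c4412 c1736 c860 c10872 (k4 c4346 c908 c10705 c6353 k0)))) (by decide +kernel)
def c10959 : PP 8 4 T 0x2002000000000000000000000000004004100004000000050000000010000 := rS 0x899ad5d1132ab53c945a1d502b77e3096271478f4108c1087a2ec54dc60e6582db25065d0b84da70915955a2ab368cc3a260782c046359a2a2abf22ae4703f (k8 c4288 c10952 c1201 c4296 c1240 c4348 c10864 c722 (k8 c1769 c10918 c303 c10946 c10944 c873 c4294 c958 (k8 c1673 c4298 c1766 c226 c4322 c5695 c4401 c4431 (k8 c807 c4570 c10573 c10956 c4476 c1110 c10949 c4448 (k8 c4370 c9283 c10957 c86 c353 c222 c2131 c846 (k8 c1386 c3125 c5577 c4480 c3128 c4380 c10958 c8860 (k8 c1388 c1387 c860 c1696 c4414 c10872 c564 c4346 (k1 c4479 k0)))))))) (by decide +kernel)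
def c10960 : PP 8 4 T 0x4000000000000010000000020400 := rS 0x1207 (k2 c609 c345 (k1 c4462 k0)) (by decide +kernel)
def c10961 : PP 8 4 T 0x2000000000000000000100014520040000010010154040000000000000000000000000 := rS 0x32c14fcb5 (k4 c4389 c2121 c9531 c555 (k1 c4903 k0)) (by decide +kernel)
def c10962 : PP 8 4 T 0x820000040010000000040000000000000000000000000 := rS 0xcb05 (k2 c4312 c553 (k1 c4903 k0)) (by decide +kernel)
def c10963 : PP 8 4 T 0x2002000000000000000000000000000004100004000000050000000000000 := rS 0x1f8fa641ec152ac359ad562b78a25d5839389d441115796062060fc48e65b35824f42f22944a6471d8fc52c743a24ce2b2ab45566d19a2a1aa316a743a5d13324220b0103da613 (k8 c4401 c5695 c10946 c10918 c303 c10960 c10573 c10944 (k8 c807 c873 c10547 c4286 c934 c4324 c10864 c4294 (k8 c958 c1673 c4298 c1766 c226 c918 c187 c186 (k8 c4289 c4402 c4288 c4403 c4404 c4290 c4435 c4296 (k8 c4432 c10959 c1224 c561 c704 c1231 c4055 c222 (k8 c4462 c229 c4476 c4346 c4498 c4466 c498 c497 (k8 c10957 c2112 c926 c4470 c7094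 c8612 c4389 c10962 (k8 c1211 c861 c9358 c7465 c4903 c8221 c5124 c555 k0)))))))) (by decide +kernel)
def c10964 : PP 8 4 T 0x2002000000000000000000000000000004100004000000010000000000000 := rS 0x16d1a90100d8ba11128981602 (k8 c10918 c303 c10944 c115 c10960 c807 c10963 c320 (k4 c321 c1383 c2894 c7022 k0)) (by decide +kernel)
def c10965 : PP 8 4 T 0x40000000000000000000000008000000000000010000010004408 := rS 0x210f8202007 (k4 c1019 c8928 c4462 c2302 (k2 c2305 c4466 k0)) (by decide +kernel)
def c10966 : PP 8 4 T 0x2002000000000400000000000000000000000004000000150000000000200 := rS 0x13286431e94c8e3f63d2caad13c9a196c9089bc3a26058081e13452dc76bb25ad628d3 (k8 c5695 c4470 c4389 c4434 c9034 c4403 c7094 c10864 (k8 c4401 c10946 c10918 c303 c10944 c873 c10965 c10960 (k8 c10573 c1752 c10964 c1961 c4298 c1766 c4427 c4289 (k8 c4288 c4404 c4290 c234 c237 c8226 c9891 c10947 k0)))) (by decide +kernel)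
def c10967 : PP 8 4 T 0x2002000000000000000000000000004000000004000000150000000000000 := rS 0x286229fa1ab1706366c10991721c60e6773a9600c5b04a5c40bb5bc503e4b17904a2531d8a40a2b2ab45566d19c35462d6484426b35fc251479341bc160f0e89804d3 (k8 c5695 c10918 c10944 c873 c10946 c303 c10965 c10964 (k8 c1961 c10864 c4322 c7782 c722 c4401 c10960 c10573 (k8 c4286 c934 c4324 c4294 c958 c1673 c4298 c1766 (k8 c226 c10382 c4402 c4403 c4290 c4435 c4433 c4432 (k8 c4434 c352 c4470 c7094 c9034 c4466 c926 c10966 (k8 c839 c4462 c4476 c498 c1023 c1021 c9998 c4446 (k8 c9283 c9891 c4481 c2062 c4407 c7081 c7083 c4394 (k4 c1396 c4338 c901 c4489 k0)))))))) (by decide +kernel)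
def c10968 : PP 8 4 T 0x2002000000000000000000000000004000000084000000050000000000000 := rS 0x612558a643a1f502fc50c44be8d8cab0c68e21a643e9a57a5c40082c8bc82452894c7629a599c565568aacda3386a8c5a612eb24221318814f2683782c1e1d13009a6c1452e4703f (k8 c4288 c10967 c1201 c10864 c1713 c5695 c10918 c10944 (k8 c873 c10946 c303 c10965 c10964 c1961 c10382 c1879 (k8 c4401 c10960 c10573 c807 c879 c4286 c934 c4324 (k8 c4294 c958 c1673 c4298 c1766 c226 c918 c4427 (k8 c4402 c4403 c4290 c4435 c4296 c4433 c4432 c93 (k8 c839 c838 c2933 c2844 c844 c223 c1881 c237 (k8 c361 c1768 c2112 c4448 c1113 c9867 c4338 c2851 (k8 c4477 c4380 c4379 c10954 c10396 c1785 c1697 c4759 (k1 c4958 k0))))))))) (by decide +kernel)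
def c10969 : PP 8 4 T 0x2002000000000000000000000000004200200044000000000000000000008 := rS 0x8c9dd34995624cc69417944a62d14816122b2ab45566d19a28f258 (k8 c4476 c1961 c10864 c4294 c958 c1673 c4298 c1766 (k8 c226 c4322 c10382 c4402 c4286 c4290 c4435 c4432 (k8 c539 c1689 c1657 c7083 c2051 c860 c1111 c4448 (k1 c4482 k0)))) (by decide +kernel)
def c10970 : PP 8 4 T 0x2002002000000001010400000000200000900200060000041000000000000008 := rS 0xac4a18d69045bc5d84734db145e4122944a63b168fc520515955a2ab368cd1471 (k8 c1386 c10864 c4294 c958 c1673 c4298 c1766 c226 (k8 c10382 c4402 c4288 c4286 c4403 c4290 c4435 c4296 (k8 c4433 c4432 c3122 c1889 c1770 c2115 c4362 c3128 (k4 c4481 c8860 c4407 c1388 (k2 c7083 c860 k0))))) (by decide +kernel)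
def c10971 : PP 8 4 T 0x2002000000000000000000000000004000000004000000050000000000000 := rS 0xac4a18d69045bb0a2ec54daf63099399dceafc589c47a43042303c582dae62a3860acc5e51298b47e2902c24565568aacda33451742279341bc160f0e89804d3 (k8 c5695 c10918 c10944 c873 c10946 c303 c10965 c10964 (k8 c1961 c10960 c807 c10864 c4294 c958 c1673 c4298 (k8 c1766 c226 c4322 c10382 c4402 c4288 c4286 c4290 (k8 c4435 c4432 c722 c1713 c10967 c4348 c1201 c10968 (k8 c4476 c10957 c353 c222 c2132 c2131 c1386 c3125 (k8 c4480 c10969 c10970 c1771 c1880 c4482 c1119 c4448 (k8 c4370 c9283 c5577 c1167 c4481 c8860 c4407 c1388 (k2 c7083 c860 k0)))))))) (by decide +kernel)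
def c10972 : PP 8 4 T 0x2002000000000000010000000000008100200000000000010000000000000 := rS 0x8b251669a89c155c6217944a62d148acaad1559b404334e8744c31029cd0e8a (k8 c10864 c186 c1231 c10382 c1879 c10944 c873 c10547 (k8 c4294 c10918 c958 c1673 c4298 c1766 c226 c4402 (k8 c4286 c4290 c4435 c4432 c7083 c2112 c4407 c4346 (k4 c7035 c5038 c868 c4481 (k1 c4418 k0))))) (by decide +kernel)
def c10973 : PP 8 4 T 0x2002000000000000000000000000000000000004000000050000000000000 := rS 0x3eae47a9561ace22ac5aac56f144b8e4e275101600c1f3996c127a2291c763f63a1d126d1999c565545345462d341759211378744c0b0103da613 (k8 c4401 c5695 c10946 c10918 c303 c10944 c873 c10965 (k8 c10960 c10573 c807 c10964 c4286 c934 c4298 c10864 (k8 c1766 c226 c918 c4294 c958 c187 c186 c4289 (k8 c4288 c4403 c4404 c4296 c10971 c1224 c704 c1231 (k8 c222 c4462 c4476 c4466 c498 c497 c10957 c926 (k8 c4470 c7094 c8612 c4389 c10972 c4338 c10962 c1211 (k4 c861 c7465 c5821 c8221 (k1 c10961 k0)))))))) (by decide +kernel)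
def c10974 : PP 8 4 T 0x2002000000000000000000000000000000000004000000010000000000000 := rS 0x2da3520201b174d0113782da602128744c0f (k8 c10946 c10944 c873 c115 c10918 c5695 c303 c10965 (k8 c10960 c10964 c807 c10973 c320 c321 c1383 c2895 (k1 c7022 k0))) (by decide +kernel)
def c10975 : PP 8 4 T 0x200000002002000000000000000000000000000001100000000000000000000000000 := rS 0xd713328b6128a (k4 c10864 c4322 c4286 c4412 (k2 c4498 c564 (k1 c4479 k0))) (by decide +kernel)
def c10976 : PP 8 4 T 0x100000000002000040000000000000000000000000005008000001050008200000008 := rS 0x37844baa0a1a7e28911dc35462d5981c3a0a1ca3d1a95 (k8 c802 c7053 c2778 c361 c799 c873 c1017 c10182 (k8 c4286 c934 c4324 c4403 c887 c4470 c7077 c8226 (k4 c4489 c810 c343 c9688 (k1 c10569 k0)))) (by decide +kernel)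
def c10977 : PP 8 4 T 0x2002000000000000000000000000000000100000000000010000000000000 := rS 0xfc6482bf022491b0f622953184c2ad3368ccce2b2aa29a2a33083c04b303a5c5a8d06828401f028744c56 (k8 c10974 c10944 c873 c10382 c1066 c4466 c799 c569 (k8 c7053 c4286 c926 c1017 c10182 c10918 c10946 c879 (k8 c934 c4298 c10864 c1766 c226 c918 c4294 c958 (k8 c5695 c4284 c4401 c1769 c802 c10975 c7465 c10976 (k4 c322 c2267 c4463 c10817 (k2 c4478 c7126 (k1 c555 k0))))))) (by decide +kernel)
def c10978 : PP 8 4 T 0x1000000000000004000140080101101500000001400108000000000000000000000 := rS 0x29d3713 (k4 c4346 c2786 c909 c7780 k0) (by decide +kernel)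
def c10979 : PP 8 4 T 0x10000000000000000000140081101101500000000000208000000000000000000000 := rS 0x29d7e9b (k4 c2786 c9441 c2797 c2126 k0) (by decide +kernel)
def c10980 : PP 8 4 T 0x2002000000000000040000000000000000000000000000050000000000000 := rS 0x7b114aab0c62f2894c52d315955a2ab368cd146107a5c5a31050803e050e898ac02 (k8 c10918 c10974 c10944 c873 c10382 c1066 c4466 c799 (k8 c2245 c4286 c926 c10946 c879 c10864 c4294 c958 (k8 c1673 c4298 c1766 c226 c5695 c4402 c4290 c4435 (k4 c4432 c1768 c2112 c7488 (k2 c4338 c7465 (k1 c10976 k0)))))) (by decide +kernel)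
def c10981 : PP 8 4 T 0x2002000000000000000000000000000000000000000000050000000000000 := rS 0x205d40a9498198b9cc871862afd269b89ab97abb8a24496d34543552334e83d66071ca3d1a0d18828401f028744c024c9a0b256 (k8 c10974 c63 c10977 c1881 c10918 c10944 c873 c10382 (k8 c1066 c4466 c799 c2245 c569 c7053 c2778 c361 (k8 c1017 c10182 c10946 c10547 c4294 c974 c4324 c10864 (k8 c5695 c4434 c887 c4470 c9034 c4354 c10980 c4346 (k8 c2786 c1779 c9441 c7718 c4488 c4567 c1770 c9283 (k4 c308 c9891 c3790 c1894 (k2 c10979 c10186 (k1 c343 k0)))))))) (by decide +kernel)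
def c10982 : PP 8 4 T 0x2002000000000000080000000000000000000000000000010000000000000 := rS 0x126ad89aacda335981d32682ca5536793a9f5f80d0880814200f8143a2607c546c5568b4d1456 (k8 c10974 c10864 c5695 c4298 c1766 c10981 c4386 c10946 (k8 c10944 c873 c10382 c1066 c4466 c799 c10918 c2267 (k8 c569 c4463 c4379 c10883 c604 c805 c803 c63 (k8 c10977 c1881 c1017 c10182 c4294 c958 c1673 c4346 (k2 c193 c1779 (k1 c10193 k0)))))) (by decide +kernel)
def c10983 : PP 8 4 T 0x2002000000000000000000000000000000000000000000010000000000000 := rS 0x1f8c849828f622ac31abd2a753ebf192118a8d8620d468292eb31001c3e56078754626558acce6d010bc66512991c262d0a8a58ed30295514d1 (k8 c4298 c10864 c1766 c10382 c5695 c4289 c4402 c4284 (k8 c4286 c4401 c4404 c4290 c4435 c4294 c4432 c10918 (k8 c958 c918 c226 c1673 c10944 c934 c873 c10946 (k8 c10974 c1066 c1017 c4466 c10182 c926 c799 c7053 (k8 c569 c2245 c10981 c4386 c2267 c10573 c4463 c4379 (k8 c10883 c803 c10982 c1768 c2112 c4338 c7465 c10817 (k4 c322 c4478 c2107 c555 k0))))))) (by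 decide +kernel)
def c10984 : PP 8 4 T 0x2000040000000000000000080000000100004000000020000000000412 := rS 0x60f2c4b01d2d83d1e21 (k8 c9668 c1306 c8690 c9684 c10867 c4476 c10869 c4466 (k2 c486 c8286 k0)) (by decide +kernel)
def c10985 : PP 8 4 T 0x100140000554501580014004055580000000000000000000000 := rS 0x2fd3aa93cb30fd09 (k8 c4322 c2118 c725 c2591 c1483 c969 c7782 c2126 k0) (by decide +kernel)
def c10986 : PP 8 4 T 0x2002000000000000080414000100010004001004000000000000000010002 := rS 0x763ac65723d7e1fe22a21599d2ead89b448f0944aed7a6332a3d225d2f969827b0da6d32414a870146917a280a294185d920f09a944a27108d1a64b (k8 c4434 c5695 c10983 c9668 c8775 c1369 c10933 c4401 (k8 c8690 c10573 c4431 c4570 c4402 c10382 c10864 c4432 (k8 c756 c10984 c567 c762 c4433 c1031 c764 c4292 (k8 c702 c1713 c566 c2538 c753 c1036 c1306 c490 (k8 c754 c1039 c1309 c187 c4322 c4404 c4298 c4346 (k8 c193 c4631 c985 c1774 c10985 c4337 c6696 c5449 (k4 c7465 c6781 c4986 c10870 (k2 c4632 c4679 k0)))))))) (by decide +kernel)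
def c10987 : PP 8 4 T 0x2002000000100000050414000100010004001000000000000040000000802 := rS 0x28a20675daf4c62947aacca1345244ba0f3d86cbe5a4d8bd321c20a944a27108d1a64b (k8 c4434 c5695 c10983 c9668 c8775 c1369 c10933 c4433 (k8 c567 c1031 c4432 c764 c566 c2538 c4292 c702 (k8 c8690 c753 c1036 c10864 c4401 c490 c1672 c1306 (k8 c4402 c754 c1039 c1309 c721 c10872 c10985 c4337 k0)))) (by decide +kernel)
def c10988 : PP 8 4 T 0x400145020514515580000001500080000000000000000000000 := rS 0xbe54a5e246784d2e229d (k8 c2953 c4338 c4427 c4322 c720 c4479 c928 c4345 (k2 c2126 c10725 k0)) (by decide +kernel)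
def c10989 : PP 8 4 T 0x1000000002002000000400000060000000100000000000000000000000000000000802 := rS 0x1435ca5944ce8baa230bf899b13a3129a296abb5b9ac2e692d26c5e99498ed42950e0a54ebd20a944ad325a7e189113a3c4234 (k8 c10983 c9668 c1306 c8775 c1036 c4486 c4384 c4434 (k8 c5695 c1369 c10933 c4433 c1039 c4500 c4402 c567 (k8 c762 c4551 c4403 c1029 c1031 c4432 c764 c566 (k8 c756 c4431 c492 c1037 c1309 c7883 c10864 c4290 (k8 c2046 c2953 c10988 c4342 c5760 c4488 c2126 c9283 (k4 c949 c948 c10283 c1525 (k2 c4393 c4793 k0))))))) (by decide +kernel)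
def c10990 : PP 8 4 T 0x1000000002002000000000000000000000100000004000004000000000000000010002 := rS 0xa94eafe24cfa1ae622a24b8a8cead57a7d4aa750c304b4b5d92d7a6347aacca5d3d86cbe5a4da6482950e0a596c90784cc29113884fab558828d22f1a2280ad3 (k8 c5695 c10382 c10864 c10983 c4432 c756 c10984 c2605 (k8 c7883 c8975 c9668 c8775 c1036 c9302 c4401 c8690 (k8 c10573 c1752 c4402 c567 c762 c4433 c1031 c764 (k8 c566 c2538 c4292 c702 c753 c490 c1672 c1306 (k8 c754 c1039 c4434 c1309 c4427 c1369 c4486 c4551 (k8 c4500 c10933 c4384 c10986 c10989 c721 c10987 c928 (k8 c10985 c4411 c6781 c4393 c1524 c4491 c9033 c4344 (k2 c4345 c2126 k0)))))))) (by decide +kernel)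
def c10991 : PP 8 4 T 0x2002000000000000000000000200000000000004000000000000000000002 := rS 0x888c55f1238a8c490d16ad56e631497d261c051a45e3445015a63b (k8 c4403 c5695 c10382 c10864 c10983 c4432 c756 c10984 (k8 c567 c1029 c2538 c4402 c754 c1037 c7883 c4286 (k8 c4383 c1028 c1468 c1385 c10777 c4346 c4441 c4498 (k1 c10790 k0)))) (by decide +kernel)
def c10992 : PP 8 4 T 0x40000000000000000000000008000000000000000000000014100 := rS 0x1afd (k2 c4378 c1290 (k1 c4463 k0)) (by decide +kernel)
def c10993 : PP 8 4 T 0x2002000000000000000000000000000000000004000000000000000010002 := rS 0x124fecd8b9cd5ea88c314ccbf4ec44f305a2a10331326bf01a713ec51026f65b248b0944d2caad11baed7ab731994268f489741e093d86d66152f969369920a5452930e028d28a028ed4e2f528951a27108d1a64b (k8 c4434 c5695 c10983 c9668 c8775 c10991 c1369 c10933 (k8 c4432 c4558 c4403 c10382 c10864 c756 c10984 c567 (k8 c1029 c4402 c762 c4433 c1031 c764 c566 c2538 (k8 c4284 c662 c4292 c702 c84 c8690 c753 c1036 (k8 c1306 c4401 c490 c754 c1037 c1039 c1309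 c87 (k8 c4298 c1766 c4427 c187 c4322 c4296 c10573 c1752 (k8 c10992 c10263 c10990 c1773 c4387 c568 c8124 c10087 (k8 c10640 c5907 c10080 c4397 c10185 c10814 c10600 c969 (k8 c7782 c5056 c7718 c4488 c2126 c985 c1770 c9283 (k4 c1484 c10049 c4573 c7126 k0)))))))))) (by decide +kernel)
def c10994 : PP 8 4 T 0x400000002002000000000000010000000000000000000004000000000040000000002 := rS 0x5117ccc6230e329c5c28d2e6768944a687a58e46ebd5baacca130fb04f69514a4c76a106bf596850d9b136bb8a435228f53980205a4c870146917a280a41528944e211a34c968d (k8 c10991 c4434 c5695 c10983 c9668 c8775 c1369 c10933 (k8 c4433 c10382 c10864 c4432 c756 c10984 c567 c1031 (k8 c566 c10993 c606 c4558 c1306 c1036 c4326 c4486 (k8 c1309 c764 c10661 c4292 c710 c1753 c4300 c112 (k8 c7717 c4403 c1029 c4402 c762 c702 c1713 c270 (k8 c4401 c490 c1672 c1037 c1039 c87 c116 c4427 (k8 c186 c4290 c4435 c4298 c721 c4785 c936 c7454 (k8 c10898 c4368 c1213 c7943 c8268 c1254 c5541 c4399 k0)))))))) (by decide +kernel)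
def c10995 : PP 8 4 T 0x400000002002000000000000000000000000000000000004000000000040000000002 := rS 0x1529d561b176bd3d96936990e028d28a029054e2f52895a64b4286e290d300411a9113a3c4234 (k8 c10983 c9668 c1306 c8775 c1036 c10991 c10993 c606 (k8 c4326 c4486 c4292 c710 c4434 c5695 c1369 c10933 (k8 c4432 c4558 c4433 c10382 c10864 c756 c10984 c567 (k8 c1031 c764 c566 c702 c1039 c1309 c10661 c10994 (k2 c2953 c2955 (k1 c8005 k0)))))) (by decide +kernel)
def c10996 : PP 8 4 T 0x2002000000000000000000000000000000000004000000000040000000002 := rS 0x568c55e6d890cda251298b56abb5eadcd61747aacca1348969369920a5452930e028d2051da854e2f528951a27108d1a64b65a14368a4f8882047 (k8 c4404 c10993 c607 c1299 c10864 c4292 c710 c1753 (k8 c4434 c5695 c10983 c9668 c8775 c10991 c1369 c10933 (k8 c4432 c4558 c7717 c4403 c10382 c756 c10984 c567 (k8 c1029 c4402 c762 c4433 c1031 c764 c566 c1036 (k8 c4401 c490 c1672 c1306 c4431 c492 c1037 c1039 (k8 c1309 c7883 c4286 c4290 c4435 c4298 c4294 c10995 (k4 c4342 c4346 c4441 c10988 (k1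 c2112 k0)))))))) (by decide +kernel)
def c10997 : PP 8 4 T 0x40000000000000500000000000000000000140044500501501004000002080000000000000000000000 := rS 0x1529d561b2290d (k4 c4326 c4486 c10661 c4491 (k2 c2953 c2955 (k1 c8005 k0))) (by decide +kernel)
def c10998 : PP 8 4 T 0x2002000000000000000000000000000000000004000000000000000000002 := rS 0x12ebe5699d529d36c495f111527e1acb111810a1052a9d422546a4d2a994d968387b0506da24714b4c0b4b5aaec96bd20adc766b0b9a45e8f55994268a4889c4234 (k8 c10983 c9668 c8775 c1036 c10864 c4401 c490 c1672 (k8 c1306 c4432 c756 c4431 c492 c4403 c1037 c4433 (k8 c1039 c4434 c1309 c7883 c4427 c10382 c5695 c4402 (k8 c4404 c4298 c4292 c10984 c702 c567 c566 c764 (k8 c1031 c762 c1029 c10991 c1369 c7717 c4558 c10933 (k8 c10993 c710 c606 c607 c1753 c4326 c1299 c10996 (k8 c4411 c1774 c10997 c4342 c4344 c4345 c720 c10988 (k2 c2126 c928 (k1 c10730 k0))))))))) (by decide +kernel)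
def c10999 : PP 8 4 T 0x2002000000000000000000000000000000000000000000000000000000002 := rS 0x1454fa9d42cd4232506818617c4aa5549f4fe0c37236246730c10101c36958ba910789cca63349ac424b1785c262969c251434 (k8 c10983 c10864 c4322 c5695 c4402 c4401 c4431 c4432 (k8 c4434 c9668 c492 c756 c754 c490 c8775 c8690 (k8 c1036 c753 c10998 c9753 c750 c751 c10736 c880 (k8 c720 c4479 c7472 c1059 c1060 c4313 c4409 c4345 (k8 c4444 c1369 c1377 c9688 c1293 c508 c506 c9530 (k4 c1481 c7717 c4558 c4384 (k2 c9368 c9372 k0))))))) (by decide +kernel)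
def c11000 : PP 8 4 T 0x400000002002000000000000000000000100000000000084000000000000000000000 := rS 0x1383cdc681181c106b84a28686d0e8080205 (k8 c10382 c10999 c4461 c790 c5028 c10983 c10864 c4322 (k8 c2561 c839 c494 c2833 c4479 c1059 c1330 c10823 (k1 c10937 k0))) (by decide +kernel)
def c11001 : PP 8 4 T 0x400000002002000000000000000000000100000000100004000000000000000000000 := rS 0x5f214f71419c25766d4e894e279451dc82836985d021103024401f05a443a0f010040a3437960b64b (k8 c4434 c11000 c4476 c1107 c10983 c10382 c10999 c4461 (k8 c1329 c790 c1035 c303 c1099 c4466 c231 c4462 (k8 c10687 c10263 c4431 c5695 c4570 c4433 c1023 c10864 (k8 c2506 c1304 c1370 c10547 c5028 c1309 c4322 c4294 (k4 c10690 c4055 c10705 c7040 (k1 c7782 k0)))))) (by decide +kernel)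
def c11002 : PP 8 4 T 0x100000000800000014000000000000020000000000008 := rS 0x2e3f04515 (k4 c4388 c1305 c4480 c792 (k1 c4377 k0)) (by decide +kernel)
def c11003 : PP 8 4 T 0x400100002002000000000000010001500000000000000000000000001000000000080 := rS 0x166433da28da01 (k4 c10999 c5028 c10864 c7035 (k2 c4567 c722 (k1 c10513 k0))) (by decide +kernel)
def c11004 : PP 8 4 T 0x400000002002000000000000010001000000000000200000000000000000000000080 := rS 0x22c9459a6a0aae310bc6651298b4530943a2696ab368ac04012aa29a275099cc763102a64ee41 (k8 c4433 c1023 c1880 c10382 c1879 c4403 c1021 c4401 (k8 c498 c4298 c10864 c1766 c10999 c4461 c226 c5028 (k8 c1673 c4427 c187 c186 c4322 c4402 c4286 c4290 (k8 c4435 c4294 c4432 c7083 c7521 c4407 c11003 c5038 (k2 c868 c4481 (k1 c4418 k0)))))) (by decide +kernel)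
def c11005 : PP 8 4 T 0x400000002002000000000000000000000100000000000004000000000000000000000 := rS 0x10a7b67b09407f4a27e86b859c455eac8a28e1a2611a3cd07d40b2506b1089ccee7507818de7904960b61709b4d128a5d92d7a415b8ecce9d489c416971007c681d010040a2d (k8 c4286 c10382 c10999 c4461 c790 c10983 c1099 c4466 (k8 c926 c303 c1304 c1035 c10547 c5084 c4403 c1037 (k8 c4433 c1039 c4434 c1309 c10864 c187 c5695 c4401 (k8 c4431 c11000 c4476 c231 c2506 c1107 c4462 c1329 (k8 c498 c1023 c1021 c10687 c1034 c4570 c10573 c10263 (k8 c1773 c11001 c11002 c832 c10937 c4324 c934 c4486 (k8 c11004 c193 c4338 c10962 c10961 c4394 c1396 c5821 (k4 c7096 c4489 c861 c1794 (k2 c1211 c7306 (k1 c8129 k0)))))))))) (by decide +kernel)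
def c11006 : PP 8 4 T 0x2002000000000000000000000100000000000084000000000000000000000 := rS 0x98dc23040acaa8a688943a02008146912 (k8 c11005 c10983 c10382 c10999 c4461 c790 c1370 c4298 (k8 c10864 c1766 c226 c839 c2833 c1059 c10562 c10823 k0)) (by decide +kernel)
def c11007 : PP 8 4 T 0x2002000000000000000000000100000000000004000000000000000000000 := rS 0x853db3d84a03fa513f435c451470d1308cfa8f40b2506b1089d41e06399dcde7904960b6b35618e229957c492e200f85c262d69a25764b5e9056e3b33aacda2b2aa29a22548874e20b010040a34 (k8 c10983 c10382 c10999 c4461 c303 c1304 c790 c1035 (k8 c1370 c4298 c10864 c1766 c226 c5028 c1673 c5084 (k8 c4403 c1037 c4433 c1039 c4434 c1309 c187 c5695 (k8 c4286 c4401 c4431 c1099 c4466 c926 c11005 c4346 (k8 c4443 c4498 c1768 c10872 c10962 c11006 c4476 c231 (k8 c2506 c1107 c1111 c1110 c4462 c1329 c498 c10687 (k8 c1034 c4570 c10573 c10263 c11002 c1773 c832 c10562 (k8 c4324 c934 c4486 c10961 c4394 c1396 c5821 c7096 (k4 c4489 c861 c1794 c1211 (k2 c7306 c8129 k0)))))))))) (by decide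 +kernel)
def c11008 : PP 8 4 T 0x400000002002000000000000000000000000000000100004000000000000000000000 := rS 0x17e853d8ce12375e9b53a253ca28ee4158a0da617408440c0905a441e6f2c0d03a0200815184b (k8 c4434 c11007 c10382 c10999 c4461 c790 c10983 c10771 (k8 c10772 c1329 c1035 c303 c3111 c4462 c10687 c10263 (k8 c4431 c5695 c4570 c1034 c4433 c1023 c10864 c2506 (k8 c1370 c10547 c5028 c1039 c87 c4322 c4294 c4055 (k2 c10705 c7782 (k1 c9035 k0)))))) (by decide +kernel)
def c11009 : PP 8 4 T 0x20000000002002000000000000020000000000000000000004000000000000000000000 := rS 0xb9822562e9b5aadce2a33a9cc76b1648440c0905a441e6f2c04e22b34b8803e264634c72340e8080a2d33805128a (k8 c10864 c187 c10999 c5084 c4286 c10382 c4461 c790 (k8 c10983 c116 c5695 c11007 c10770 c352 c4466 c926 (k8 c10962 c4338 c4401 c10771 c10772 c1329 c1035 c303 (k8 c3111 c4462 c10687 c10573 c1034 c4403 c1021 c498 (k8 c934 c1304 c1037 c7883 c4448 c9283 c860 c4481 (k2 c5821 c10837 k0)))))) (by decide +kernel)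
def c11010 : PP 8 4 T 0x2002000000000000020000000000000000000004000000000000000000000 := rS 0xcb053f2e52ac33d465666388a256ab7339c546971007c4c39169d4ee41398ed62c96984cfa8108818120b4883cde581a074040102a30968a (k8 c10864 c4434 c11007 c10382 c10999 c4461 c790 c10983 (k8 c10771 c10772 c1329 c1035 c303 c3111 c4462 c10687 (k8 c10263 c1773 c4401 c5695 c10573 c1034 c4403 c1021 (k8 c4433 c1023 c498 c4286 c116 c10770 c352 c4466 (k8 c926 c934 c1304 c5084 c1037 c7883 c187 c4338 (k8 c821 c10962 c11009 c9998 c1211 c861 c5821 c9361 (k2 c10837 c555 (k1 c4478 k0)))))))) (by decide +kernel)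
def c11011 : PP 8 4 T 0x400000002002000000000000000000000000000000000004000000000000000000000 := rS 0x684e818125846074680b010040aad (k8 c11010 c10382 c10999 c4461 c303 c10983 c790 c11007 (k4 c10771 c3111 c4462 c10547 (k2 c11008 c11004 k0))) (by decide +kernel)
def c11012 : PP 8 4 T 0x2002000000000000000000000000000000000004000000000000000000000 := rS 0x222af892b45aab368ac04010295514d1 (k8 c4298 c10864 c1766 c10382 c10999 c4461 c226 c5028 (k4 c1673 c4286 c11010 c11011 (k2 c4346 c4498 (k1 c10872 k0)))) (by decide +kernel)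
def c11013 : PP 8 4 T 0x400000002002000000000000000000000000000000100000000000000000000000000 := rS 0x264ec7561c662c3d49a5cfa7356ab8c8953d9aa226320c25126d1580802052aa29a256 (k8 c11012 c4298 c10864 c1766 c10382 c10999 c4461 c226 (k8 c5028 c187 c4322 c4433 c1769 c10975 c4479 c1227 (k8 c802 c564 c565 c2048 c3714 c3715 c4631 c1069 (k8 c7465 c4487 c5015 c4362 c4417 c4632 c9819 c1920 k0)))) (by decide +kernel)
def c11014 : PP 8 4 T 0x2002000000000000080001001500050000200000000000000008001015000 := rS 0x33890a52eb248e130ab1da7092aa29a2bb25af4684136804d63102a64b256 (k8 c11012 c63 c1881 c10382 c1879 c69 c10999 c5028 (k8 c4433 c10983 c1039 c4434 c1309 c4298 c10864 c1766 (k8 c4322 c5695 c4289 c4284 c4401 c4404 c10573 c807 (k4 c10700 c2107 c10978 c1790 k0)))) (by decide +kernel)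
def c11015 : PP 8 4 T 0x400000002002000000000000010000000100000004000000000000000000010000000 := rS 0x14a5c2f8401a713fc50fb0d3a099528f4a0662e73118288718628800e914e86da6b55d92d7a412d87d32b34bc152662288cc5e2b2ab4452594daba96ab368c4d02d84808020529a1d128a2b0241e34 (k8 c10983 c1329 c1059 c11012 c10864 c187 c186 c4290 (k8 c10382 c10999 c4461 c4322 c4286 c11013 c1879 c5028 (k8 c1673 c4427 c7521 c2786 c63 c4402 c4298 c1766 (k8 c226 c4432 c4294 c4435 c7083 c1609 c4407 c4785 (k8 c1187 c1881 c1066 c92 c4433 c1039 c4434 c1309 (k8 c7883 c5695 c4292 c10547 c1035 c1017 c4466 c7718 (k8 c4488 c4567 c4462 c2775 c1770 c9283 c308 c10193 (k8 c1305 c10936 c10937 c4481 c4324 c1690 c4486 c6307 (k4 c4387 c568 c11014 c542 (k2 c343 c1883 (k1 c10979 k0))))))))))) (by decide +kernel)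
def c11016 : PP 8 4 T 0x400000002002000000000000010000000100000004000000000000000000000000000 := rS 0x4e23549354f452eb31087e529f502c95c9c422733a8192a1c0792c9e13698dd6ab71dac44a3459a5cad0531144662f15955a22951aba96ab368c45b09010040a5343a251468 (k8 c11013 c10864 c187 c186 c4290 c10382 c10999 c4461 (k8 c4322 c4286 c1879 c5028 c1673 c4427 c7521 c2820 (k8 c4402 c4298 c1766 c226 c4432 c4294 c4435 c7083 (k8 c4407 c11012 c4785 c1187 c10983 c1369 c3018 c4403 (k8 c1037 c7883 c87 c5695 c4401 c4297 c4434 c1329 (k8 c11015 c762 c791 c1688 c1021 c608 c497 c4548 (k8 c10573 c10263 c1773 c1882 c2121 c724 c725 c1457 (k4 c4397 c2066 c2062 c1483 (k2 c792 c4568 (k1 c2111 k0)))))))))) (by decide +kernel)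
def c11017 : PP 8 4 T 0x400000002002000000000000010000000100000000000000000000000000010000000 := rS 0x5c5304152091183d7e2003a7436d35d92d7a342087d32594da44c2aea5aacda3116c2404010294d0e894523cb6565297cdc68 (k8 c11013 c11016 c1377 c1883 c11012 c92 c1346 c10864 (k8 c187 c186 c4290 c10382 c10999 c4461 c4322 c4286 (k8 c1879 c5028 c1673 c4427 c7521 c2891 c1076 c2786 (k8 c63 c1881 c1066 c4433 c10983 c1039 c4434 c1309 (k8 c5695 c4292 c10547 c1017 c4466 c5760 c1330 c2775 (k4 c231 c10936 c10992 c2126 (k2 c343 c2797 k0))))))) (by decide +kernel)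
def c11018 : PP 8 4 T 0x400000002002000000000000010000000100000000000000000000000000000000000 := rS 0x8c1c0d13818121c489b8c2ae298b6128744d2c04ab368051431340144a34 (k8 c10983 c1369 c10382 c11013 c1879 c10864 c10999 c5028 (k8 c1673 c4461 c4427 c187 c186 c4322 c4286 c4290 (k8 c7521 c2891 c11016 c1076 c11017 c1058 c791 c872 (k4 c1290 c1020 c793 c10928 k0)))) (by decide +kernel)
def c11019 : PP 8 4 T 0x20000000002002000000004000000000000000000000000000000001000000000000000 := rS 0xc5 (k2 c4370 c5577 k0) (by decide +kernel)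
def c11020 : PP 8 4 T 0x400000002002000000000000020000000000000000000000000000000000010000000 := rS 0x117499d0e6778c8f586973d8813a2d368ac04012aa29a25b0f81532682cc452a56 (k8 c11012 c2783 c4338 c63 c11013 c1881 c10382 c1066 (k8 c92 c4298 c10864 c1766 c10999 c4461 c226 c5028 (k8 c4286 c10547 c4466 c1226 c926 c4958 c7465 c11019 (k4 c4703 c1771 c4632 c1069 (k2 c4417 c4487 k0))))) (by decide +kernel)
def c11021 : PP 8 4 T 0x400000002002000000000000000001000100000004000000000000000000000000000 := rS 0xcfa1b35707f825162e848c2fcf74b5aaed6e992caccc6893a9dc82731d9c46e833ca6c5e3134085024b65b2422060e2b0040102ac4ac0f1a34c268a (k8 c10864 c4401 c5695 c10983 c1329 c11012 c3018 c10382 (k8 c10999 c4461 c11018 c11020 c791 c608 c10573 c1752 (k8 c4434 c10263 c85 c11013 c1879 c4432 c764 c1960 (k8 c9103 c87 c497 c4403 c1021 c4433 c1023 c498 (k8 c187 c821 c1188 c63 c1881 c1037 c1309 c7883 (k8 c4427 c1226 c5760 c4488 c9037 c9283 c8243 c4481 (k4 c10049 c10837 c1481 c4394 (k2 c1525 c4495 k0)))))))) (by decide +kernel)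
def c11022 : PP 8 4 T 0x400000002002000000000000000000000100000004000000000000000000000000000 := rS 0x2e3f04485a289d98be48ae0ff048bb112cc38ca7102c94183c96d384d2d6ab718abd666344a28427934305362f3a84ce63b08ac4ac71030715802008146e34 (k8 c10983 c87 c10382 c10999 c4461 c11018 c11020 c791 (k8 c497 c11012 c3018 c608 c4403 c1021 c4401 c498 (k8 c4432 c764 c1986 c11013 c1960 c85 c10864 c187 (k8 c821 c1188 c193 c1879 c1037 c7883 c4427 c4322 (k8 c5695 c4434 c1329 c9103 c10573 c10263 c11021 c4368 (k8 c1214 c946 c947 c4360 c4481 c10049 c10837 c3272 (k8 c10942 c8268 c872 c4399 c1481 c10937 c4484 c792 (k1 c4377 k0)))))))) (by decide +kernel)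
def c11023 : PP 8 4 T 0x400000002002000000000000000000000100000000000000000000000000000000000 := rS 0x4e2307184dc060e2b04a34010040a68 (k8 c11013 c10382 c10999 c4461 c10983 c1369 c11018 c11020 (k4 c791 c11022 c2883 c1020 (k2 c1328 c239 (k1 c10928 k0)))) (by decide +kernel)
def c11024 : PP 8 4 T 0x400000002002000000000000000000000000000000000000000000000000000000000 := rS 0x4026078744607461a068020087cac05 (k8 c10382 c11012 c1066 c10999 c4461 c10983 c11013 c11023 (k4 c2995 c1298 c791 c1330 (k2 c10937 c4466 (k1 c7053 k0)))) (by decide +kernel)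
def c11025 : PP 8 4 T 0x100000000000000000000000000000050000000200000040000000000000000000000 := rS 0x12717 (k2 c4417 c1657 (k1 c4487 k0)) (by decide +kernel)
def c11026 : PP 8 4 T 0x2002000000000000000000000000000004000000000000000000000000080 := rS 0xcfa1b3570cba2a1192834083da74b5aaec96b73c85c22b15fc10ff178c1dc8275099cc76711b8d1667b4ec48ac8a (k8 c10864 c11012 c11024 c4344 c1226 c722 c10983 c87 (k8 c497 c4403 c1021 c4401 c498 c4433 c1023 c4632 (k8 c9283 c10049 c4481 c4369 c3018 c608 c4431 c500 (k8 c1037 c4434 c1309 c7883 c4427 c5695 c1329 c10263 (k8 c4570 c10573 c9037 c8243 c1752 c10837 c1481 c4394 (k2 c1525 c4495 k0)))))) (by decide +kernel)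
def c11027 : PP 8 4 T 0x2002000000000000000000000100000000000000000000000000020000000 := rS 0x9d226e5fc60ee75308191e2f09b4d14bd1a104040102aa532a53da762456 (k8 c11012 c11024 c4344 c1226 c4444 c4443 c4345 c10382 (k8 c10999 c4461 c4433 c10983 c1039 c10864 c5695 c4401 (k8 c4432 c2763 c791 c2883 c498 c1023 c4632 c4369 (k4 c11026 c1076 c872 c10290 k0)))) (by decide +kernel)
def c11028 : PP 8 4 T 0x110000000000000000440150101145501580404104045001000400000000000145008 := rS 0x14224284fe6482844fac92ea054cbf84accf314 (k8 c4486 c604 c722 c4322 c7782 c2126 c1897 c813 (k8 c7484 c1773 c343 c9531 c4478 c555 c1736 c2107 (k2 c4489 c4421 k0))) (by decide +kernel)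
def c11029 : PP 8 4 T 0x2002000000000000000000000100000000000000000000000000000000000 := rS 0x17ea742970206e069c506cb8a26ceca3869e63226479d47ab9618253e230525c1e611001d221d1286c8e130ab1da6bb25af4826715955a25b0fac468a94ca96227b4eab296ab368c45b09010040a5343a252a6357c491456 (k8 c11012 c10864 c11024 c4346 c1768 c802 c187 c186 (k8 c4290 c10382 c10999 c4461 c4322 c4286 c4441 c5028 (k8 c1673 c4427 c7521 c4344 c1226 c4498 c4444 c4443 (k8 c4345 c10983 c3018 c1066 c92 c4298 c1766 c226 (k8 c5084 c4433 c1039 c4434 c1309 c5695 c4289 c4284 (k8 c4401 c4404 c4292 c1369 c11027 c1035 c1017 c4466 (k8 c880 c1330 c926 c799 c2775 c7077 c231 c4958 (k8 c6781 c7465 c11025 c1305 c10562 c11019 c604 c4324 (k8 c934 c4632 c805 c4486 c2027 c2002 c4387 c568 (k4 c11028 c10992 c9688 c710 (k2 c813 c1094 (k1 c10851 k0)))))))))))) (by decide +kernel)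
def c11030 : PP 8 4 T 0x2002000000000000000000000000000000000000000000000000000000000 := rS 0x130803a074607cac02008d00ad3 (k8 c5695 c10382 c10983 c10999 c4461 c11012 c1066 c11029 (k4 c2995 c791 c4466 c10770 (k1 c7053 k0))) (by decide +kernel)
def c11031 : PP 8 4 T 0x8000000000000080 := rS 0x208b2 (k2 c1177 c8549 (k1 c4312 k0)) (by decide +kernel)
def c11032 : PP 8 4 T 0x2000000000000000000000020044000100010000000000000000081100082 := rS 0x11255820a8a6131e0ee2e1b0bb44a2e50496c423f (k8 c11031 c9668 c495 c30 c11030 c4435 c4298 c4431 (k8 c4292 c4418 c8077 c9517 c8248 c2207 c274 c9051 (k2 c9052 c4314 (k1 c2109 k0)))) (by decide +kernel)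
def c11033 : PP 8 4 T 0x200002000000080004200000011210044045440051420000000000140000000002 := rS 0xc91433a22c431a24fab3729a45e753697446c1 (k8 c1933 c4372 c752 c4993 c538 c4432 c756 c11030 (k8 c4312 c4409 c4314 c4407 c7750 c9153 c1176 c4468 (k2 c1792 c7581 k0))) (by decide +kernel)
def c11034 : PP 8 4 T 0x1000000000000400000002000000080001210000001404000000000000000000045040000080000000 := rS 0x52876c527915a25166b0c82e5 (k8 c11030 c4433 c9009 c2068 c4435 c4298 c4296 c4297 (k4 c7718 c1101 c7552 c7558 k0)) (by decide +kernel)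
def c11035 : PP 8 4 T 0x400000002000000080000000010000200100000000000420000000110000010008082 := rS 0xa63b15410c711491fd61155e304869b22b44a2093c9cd86b9338f52a87459d4ca1516b947e4d0c8dc3c5b10a868abb37a0610a752c30ba237e9ac2e7b4e9850a6d348bcee41 (k8 c4433 c1023 c4432 c756 c4993 c5976 c617 c10547 (k8 c4055 c4431 c492 c4376 c4372 c752 c4477 c4385 (k8 c4532 c4479 c4439 c1019 c4847 c8506 c4329 c9668 (k8 c495 c4466 c8300 c4436 c244 c11031 c11030 c392 (k8 c2630 c8511 c538 c4322 c4440 c11032 c275 c8324 (k8 c7514 c9009 c3100 c500 c30 c4435 c4298 c4296 (k8 c104 c1927 c1933 c9123 c4354 c10635 c8327 c11034 (k4 c4413 c1608 c4478 c11033 (k2 c1641 c293 (k1 c4166 k0)))))))))) (by decide +kernel)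
def c11036 : PP 8 4 T 0x1000000000000400000002000000080000040010001500144005540000000010005150000080100000 := rS 0x111292bd24c162af2304322b44a22d6190572e5 (k8 c11030 c7514 c4433 c9009 c392 c4435 c4298 c4296 (k8 c277 c4488 c9123 c4370 c4450 c11034 c1778 c8362 (k2 c4413 c4179 k0))) (by decide +kernel)
def c11037 : PP 8 4 T 0x200200002000000000005000400001010044001541050000000000000000000000002 := rS 0xc689 (k2 c4314 c4407 (k1 c9153 k0)) (by decide +kernel)
def c11038 : PP 8 4 T 0x2000000080000040000500800000004004000000010040150005000008100 := rS 0x8e8a2a162315f12c5e4f208cc8abd (k8 c2018 c4296 c4294 c4433 c4297 c4432 c4434 c2114 (k4 c1966 c1242 c4839 c10635 (k2 c866 c4388 k0))) (by decide +kernel)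
def c11039 : PP 8 4 T 0x400000002000000080000000010000000100000000000420000000110000010008082 := rS 0x22e3b0930052535518caa89821095e9a4cd1576a512c306e5d1186da251049dc82793789ce6853da7502671ea550e8b3a9942a2d0f394b6211f9343308369ac2ea7348bdfa61 (k8 c617 c4376 c4432 c756 c4532 c4431 c492 c4993 (k8 c4479 c4436 c244 c11031 c9668 c495 c11030 c4466 (k8 c392 c2630 c8511 c538 c4322 c4440 c11032 c275 (k8 c8324 c4439 c10547 c4055 c5976 c3100 c353 c1019 (k8 c500 c4433 c1023 c30 c4435 c4298 c4292 c4372 (k8 c752 c8300 c4477 c4381 c4385 c4847 c8506 c11035 (k8 c11036 c868 c11038 c8579 c4314 c4406 c4407 c8142 (k4 c1943 c1572 c1972 c2109 (k2 c1102 c4420 (k1 c8248 k0)))))))))) (by decide +kernel)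
def c11040 : PP 8 4 T 0x200000000000000000000015000014051500000000000000000000000000000000000 := rS 0x126a3 (k2 c4337 c4413 (k1 c2125 k0)) (by decide +kernel)
def c11041 : PP 8 4 T 0x201002000000040000000410000800054000101040000000000010000081100082 := rS 0xc01d2aa2e632a86da2513c85ce63f1eabd2a65 (k8 c8511 c11032 c868 c275 c11031 c3100 c4431 c500 (k8 c4435 c4298 c4292 c4406 c4407 c9157 c8142 c8521 (k2 c1972 c1580 k0))) (by decide +kernel)
def c11042 : PP 8 4 T 0x400000002000000000000000010000000100000000000000000000110000010008084 := rS 0x51a4cc50544ace229f50c328aa952abd34b55eadc6e8f5dc51a6a72697dfa77209bc2297489ccc2853da7502b9338f52a870ca2e106d348bcd6173a9942a5816879ca5b108000a3f (k8 c11031 c527 c4461 c9668 c495 c11030 c4466 c392 (k8 c10598 c2630 c8511 c538 c4431 c492 c4432 c756 (k8 c4993 c4479 c4322 c4436 c4440 c11032 c275 c8324 (k8 c7514 c4439 c10547 c4055 c5976 c617 c3100 c1153 (k8 c1196 c609 c1019 c4433 c1023 c4376 c1376 c244 (k8 c4532 c11039 c10427 c4390 c4388 c4386 c4353 c4354 (k8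 c4389 c9123 c868 c1970 c866 c8506 c4490 c4329 (k8 c4384 c11040 c7239 c5289 c11041 c4478 c1608 c2716 (k1 c2125 k0))))))))) (by decide +kernel)
def c11043 : PP 8 4 T 0x1000000000000400000002000000080000040000001404100000000000000000045150000080000000 := rS 0x2f1724d60c5876e5 (k8 c11030 c1101 c4471 c4420 c4282 c7514 c9123 c11034 k0) (by decide +kernel)
def c11044 : PP 8 4 T 0x600000002000000080000000000001000100800000040120000000110000080000082 := rS 0x58aa17c315ea68870560ace2c3b4992c9e33229dcde11139ccf6c31ea550e1945854ea65208fdca4da2aecf2a5538dcb62112c30be0d30bf6106d348bcd617 (k8 c4431 c492 c4432 c756 c4993 c4479 c5101 c617 (k8 c4371 c488 c4477 c4381 c9668 c495 c8300 c4532 (k8 c1937 c500 c1976 c4452 c4282 c11030 c11031 c4433 (k8 c8511 c538 c2630 c4322 c4436 c4440 c11032 c275 (k8 c9009 c4055 c3100 c353 c609 c1019 c1023 c4296 (k8 c4294 c4297 c4434 c4413 c1101 c4471 c4358 c4420 (k8 c11037 c8579 c11043 c2018 c1966 c2114 c4839 c1242 (k1 c9381 k0)))))))) (by decide +kernel)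
def c11045 : PP 8 4 T 0x1000000000000500000002000000080000040010011400100000000040020000000150000080000082 := rS 0x15c2a621fd13045818e2a924c2f086d13b9e4de7338984f62d618f4823f72935fa5f06acd2a870ca2e106d348bcd6170a9d52e65 (k8 c8511 c1196 c538 c2630 c4431 c492 c4432 c756 (k8 c4993 c4479 c4322 c4436 c4440 c11032 c7239 c4371 (k8 c488 c5101 c4282 c11030 c11031 c4433 c275 c9009 (k8 c392 c4055 c617 c2431 c3100 c1019 c500 c1023 (k8 c4298 c277 c9123 c11036 c11043 c4354 c1608 c4480 (k4 c4478 c4794 c8327 c6803 (k2 c11033 c1136 (k1 c1774 k0)))))))) (by decide +kernel)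
def c11046 : PP 8 4 T 0x100200002000000000000000050000000054000001050000400000000100001100002 := rS 0xa456aa0918caa1b0bb44a2e5 (k8 c11030 c4435 c4298 c4431 c4292 c4406 c4407 c2109 (k4 c8142 c1638 c1572 c4468 k0)) (by decide +kernel)
def c11047 : PP 8 4 T 0x400000002000000080000000010001000100000000040000000000110000080004086 := rS 0xed92540998a0a5344abd351150c306ebba2ad4be827e91c1a4d2492c364f3c844b67330a15022d5c8f52a870ca2e106d348bcd6170a9d4b02132b947e5d (k8 c753 c11031 c11030 c8511 c9668 c10598 c538 c2630 (k8 c4431 c492 c4432 c756 c4993 c4479 c4322 c4436 (k8 c4440 c11032 c275 c7514 c392 c4439 c5976 c617 (k8 c3100 c495 c609 c500 c4297 c4292 c4434 c4281 (k8 c4282 c4371 c4374 c5101 c2108 c488 c7513 c4452 (k8 c1976 c8300 c4477 c4329 c11044 c11045 c868 c5289 (k8 c4179 c11046 c4478 c1559 c755 c1728 c4158 c8559 k0))))))) (by decide +kernel)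
def c11048 : PP 8 4 T 0x1000000000012200000000001000001000010040000051145405554001000000004000000080000000 := rS 0x888b33cfb431da81269f1ea3d6eb5 (k8 c4389 c4353 c4388 c275 c4414 c4413 c11040 c1101 (k4 c4423 c1625 c1794 c4471 (k2 c9154 c6175 k0))) (by decide +kernel)
def c11049 : PP 8 4 T 0x400000002000000000000000010000000100000000000000000000110000010000084 := rS 0x294c460aac27163110e0ab388b261aa666d155f1954a957c9a5ea3d62bb41c51a65d0792c363322b44a2093b9e4de114ba44e67130a14f69d40b0c82b9338f52a870ca2e106d348bcd6173a9942a5816879ca5b108000a3f (k8 c11031 c527 c4461 c9668 c495 c11030 c4466 c392 (k8 c10598 c2630 c8511 c538 c4431 c492 c4432 c756 (k8 c4993 c4479 c4322 c4436 c4440 c11032 c275 c8324 (k8 c7514 c4433 c9009 c4439 c10547 c4055 c5976 c617 (k8 c2431 c3100 c1153 c1196 c609 c1019 c500 c1023 (k8 c30 c4435 c4298 c4296 c4294 c4292 c4434 c11042 (k8 c753 c11047 c10427 c4570 c4390 c4350 c4388 c4354 (k8 c6745 c7040 c9307 c866 c4448 c868 c4399 c1485 (k8 c8517 c4330 c7308 c11048 c7239 c8522 c8579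 c4478 (k4 c4481 c1559 c1613 c4420 (k2 c9770 c4491 (k1 c4429 k0)))))))))))) (by decide +kernel)
def c11050 : PP 8 4 T 0x400000002000000000000000000000000100000000000004000000010000010000084 := rS 0xbad28abf56eb58b0ecaa89599fc526357c1158671ea545a3f43865170838854da73489d4b05b0f0e4ca6935884006f029e4ee2f0b905ca9d (k8 c10547 c11030 c4433 c4431 c4432 c1023 c500 c527 (k8 c1019 c4461 c9668 c492 c756 c8511 c8481 c4466 (k8 c495 c10598 c538 c1153 c3100 c4993 c2630 c2431 (k8 c4479 c4322 c4436 c4440 c11031 c392 c11032 c275 (k8 c8324 c11049 c6230 c193 c2717 c780 c4313 c4312 (k8 c4314 c4406 c1102 c4471 c4419 c9151 c7787 c9155 (k2 c9157 c8197 (k1 c9148 k0)))))))) (by decide +kernel)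
def c11051 : PP 8 4 T 0x400001000000000000000080100000001100000000000080000000000000000000402 := rS 0x471821b15 (k4 c4390 c4825 c6994 c4486 (k1 c849 k0)) (by decide +kernel)
def c11052 : PP 8 4 T 0x400000002000000080000400100001400000000004002000000040000000080000000 := rS 0x17a378a23d2239 (k4 c4280 c1153 c849 c9302 (k2 c273 c4354 (k1 c5504 k0))) (by decide +kernel)
def c11053 : PP 8 4 T 0x400001002000000080000040100045400100050004054500000041410000080000000 := rS 0x5e4506ec812a861861728e49abf (k8 c5760 c4282 c4280 c11030 c11052 c4477 c4329 c4381 (k4 c2118 c272 c7550 c9123 (k1 c4354 k0))) (by decide +kernel)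
def c11054 : PP 8 4 T 0x400001002000000080000040100045400100050000154504000041410000080000400 := rS 0x6136430ec828aaf11e37371352239 (k8 c4280 c1153 c4282 c11053 c1344 c1345 c9123 c4354 (k4 c1080 c1079 c4486 c7751 (k2 c4326 c640 k0))) (by decide +kernel)
def c11055 : PP 8 4 T 0x600001002000000080010000000001020114054000044004000040010000080000442 := rS 0xa59b587194d30556a322a7cd6173497c1a5d118fa2e3b10ab4563d32815ca2d17aed6208488e4b459 (k8 c486 c4476 c4280 c1153 c4462 c1145 c11051 c4432 (k8 c2854 c11030 c54 c1697 c10472 c1694 c4554 c9668 (k8 c1577 c4418 c4471 c4372 c752 c4371 c488 c756 (k8 c4431 c492 c1699 c4296 c4337 c4415 c8008 c11054 (k4 c4448 c2058 c5506 c8543 (k1 c4494 k0)))))) (by decide +kernel)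
def c11056 : PP 8 4 T 0x400001002000000080010000000001020114054000044004000040010000080000442 := rS 0x52cdac38ca6982a3558a222bb229453e6b0b9a4be0d2e88cb491588e47d171d8855a2b1e820ca5902b945a2f (k8 c4432 c2854 c11030 c54 c486 c1697 c4462 c10472 (k8 c1694 c4554 c9668 c1577 c4418 c4471 c4280 c1145 (k8 c1153 c4476 c4372 c752 c4371 c488 c756 c4431 (k8 c492 c1699 c4435 c4296 c11051 c11055 c4468 c1572 (k8 c778 c8008 c11054 c4448 c2058 c5506 c8543 c4494 k0))))) (by decide +kernel)
def c11057 : PP 8 4 T 0x1000000000000000000080000000000000105000000000000000000000000000000 := rS 0xef19 (k2 c4449 c1890 (k1 c4482 k0)) (by decide +kernel)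
def c11058 : PP 8 4 T 0x1000000000000400002000000000000000000000544000000050000054500000000000000000000000 := rS 0xa8504359261 (k4 c4302 c4305 c7315 c2118 (k2 c4490 c7768 k0)) (by decide +kernel)
def c11059 : PP 8 4 T 0x400000002000000080010000000000020100004200000004000000010000010000042 := rS 0x5311512968abc5d9e54e9b360de126107a05f87d3fa1d1255158f4869132968101e0a974be2d2c82cd26b108145e1728b953a9f1c9341a232399d2e63 (k8 c1689 c159 c593 c4374 c4372 c4371 c4282 c4280 (k8 c1699 c10547 c11030 c4435 c4431 c4432 c54 c9668 (k8 c492 c756 c567 c486 c2854 c488 c752 c2570 (k8 c4466 c4462 c4476 c1697 c1153 c10488 c10472 c1694 (k8 c1686 c7030 c9141 c7517 c7516 c11056 c4380 c4376 (k8 c4302 c5101 c232 c4479 c5506 c904 c601 c11057 (k4 c9123 c4454 c1939 c11058 (k2 c4337 c778 (k1 c4468 k0))))))))) (by decide +kernel)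
def c11060 : PP 8 4 T 0x1000000000000000000020000000200000004000000000000050000820 := rS 0x16990263f2c0ac405b (k8 c575 c4466 c1695 c4476 c2367 c2496 c538 c855 (k1 c7854 k0)) (by decide +kernel)
def c11061 : PP 8 4 T 0x400000002000000080000080000000001100000001001084000000000000001000800 := rS 0x359a54a783717212fd40239070d8a92c361726ac4225f (k8 c577 c4276 c622 c4282 c4431 c4292 c4434 c4390 (k8 c4825 c1977 c4486 c4735 c4380 c4439 c4477 c841 (k4 c1350 c3332 c1961 c1922 (k1 c4479 k0)))) (by decide +kernel)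
def c11062 : PP 8 4 T 0x400000002000000080000040000000400100000408000000000000010000080004000 := rS 0x5e8dc724d (k4 c4282 c4280 c1343 c1079 (k1 c9123 k0)) (by decide +kernel)
def c11063 : PP 8 4 T 0x2000000080000000000000000005080200000000000000000000001004000 := rS 0x814192c3617278449a0d (k8 c4371 c4282 c4276 c4297 c4431 c4292 c4434 c2577 (k2 c1462 c2108 k0)) (by decide +kernel)
def c11064 : PP 8 4 T 0x400001002000000080000040100000420100050004055500000000010000080000000 := rS 0x146c95c9c22abc1badc4aa18627c724d (k8 c4282 c4280 c1699 c4477 c4329 c4381 c1746 c272 (k4 c9123 c4354 c4480 c1473 (k2 c587 c859 (k1 c2118 k0)))) (by decide +kernel)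
def c11065 : PP 8 4 T 0x2002000000080000000000000000001000000000000000000000000001004000 := rS 0x834092c3617278449a0d (k8 c4371 c4282 c4276 c4297 c4431 c4292 c4434 c4380 (k2 c4306 c2108 k0)) (by decide +kernel)
def c11066 : PP 8 4 T 0x400001002000000080000040100000420100040600005080000000010000080004000 := rS 0x2e9f4de674b97cca93 (k8 c102 c579 c577 c159 c593 c11062 c1691 c841 (k1 c11064 k0)) (by decide +kernel)
def c11067 : PP 8 4 T 0x4000044000020044000201514000000000000000000000000 := rS 0x44ab4ce97 (k4 c159 c593 c861 c597 (k1 c2120 k0)) (by decide +kernel)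
def c11068 : PP 8 4 T 0x400000002000000080000040100000020140000201101094000000010000081004000 := rS 0x2b04150c558c2842ad5e6b4d3f4fe85439dc362f0bb44a2e56299d2e631697cca93 (k8 c102 c579 c577 c393 c1689 c159 c593 c1784 (k8 c11030 c4435 c4298 c4431 c4432 c4292 c7751 c10041 (k8 c10110 c11063 c11065 c11066 c1969 c869 c1973 c4479 (k4 c11067 c2058 c3970 c4554 (k2 c6230 c287 (k1 c9383 k0)))))) (by decide +kernel)
def c11069 : PP 8 4 T 0x2000000080000000001100000000000000000280000000001000000004000 := rS 0x954e2f278cc4e4d (k8 c4282 c4278 c4294 c4297 c4432 c2838 c1335 c4839 k0) (by decide +kernel)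
def c11070 : PP 8 4 T 0x400000002000000080000000000000020140000200000004000000010000010000004 := rS 0x142b94728d78a6a2afd6e8437b25f85d8690d4a314d2a4f309342ecca5f2ca44320f2d0843cb105024c20436804c67b6292c9e4122b940e9749844724d (k8 c4282 c4280 c4276 c102 c159 c11050 c11030 c4296 (k8 c4433 c4297 c4434 c1784 c708 c1689 c11059 c5028 (k8 c4461 c5402 c263 c4462 c622 c11060 c86 c271 (k8 c2199 c2201 c1153 c10353 c577 c579 c11061 c11068 (k8 c4437 c1961 c2843 c844 c1878 c1883 c10207 c5264 (k8 c11069 c4477 c7308 c9688 c11065 c1744 c7782 c4397 (k4 c4490 c4496 c2860 c2019 (k2 c1475 c851 (k1 c10396 k0))))))))) (by decide +kernel)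
def c11071 : PP 8 4 T 0x2000000080000080100000000000004404000000000000000000001004000 := rS 0x20506858c92c3617278449a0d (k8 c4371 c4282 c4276 c4297 c4431 c4292 c4434 c4449 (k4 c1442 c1977 c7000 c2108 k0)) (by decide +kernel)
def c11072 : PP 8 4 T 0x80000000000054000000000000000000000002040141010000000 := rS 0x18e29139244647 (k4 c4374 c4372 c4281 c4278 (k2 c1681 c330 (k1 c2110 k0))) (by decide +kernel)
def c11073 : PP 8 4 T 0x2000000000010000000000020044001500000040000005000000000000800 := rS 0x44b0566c31d104a2e58b9ec3673 (k8 c1617 c4292 c702 c4418 c11030 c4435 c4433 c4471 (k4 c9009 c663 c1580 c9931 (k1 c2123 k0))) (by decide +kernel)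
def c11074 : PP 8 4 T 0x400001002000000080000000100044000000004005105420000002000141011004000 := rS 0x2e2818ea5412046f1453a14e24b0d85c9e33089249a0d1191cee29 (k8 c1681 c1112 c4374 c4372 c4371 c4282 c4281 c4276 (k8 c4294 c4297 c4431 c4292 c4434 c536 c10110 c4532 (k8 c4480 c4386 c8106 c2108 c1937 c330 c11072 c4582 (k1 c810 k0)))) (by decide +kernel)
def c11075 : PP 8 4 T 0x400001002000000080000000100001400100800000000820000000000000000000000 := rS 0x4646e998a298e26f (k8 c1107 c2500 c549 c4480 c2011 c4386 c5037 c4488 k0) (by decide +kernel)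
def c11076 : PP 8 4 T 0x400001002000000080000000000000420140000100104060000004000140211044800 := rS 0xc66722296a1298c551094220d025e148f10e4b0b93da2514ea7c4e49268344647129b4c2013d86d621151ab5ca2f379dcf2c5 (k8 c1787 c541 c1112 c1107 c4432 c11030 c4554 c9384 (k8 c4276 c622 c4292 c702 c9668 c5402 c5028 c313 (k8 c4374 c4372 c4371 c4282 c4281 c4278 c1699 c10547 (k8 c4435 c4298 c4297 c4431 c4434 c10041 c11073 c1681 (k8 c11074 c1382 c11075 c2108 c4321 c10079 c9983 c9008 (k4 c7768 c9591 c9918 c685 (k2 c2110 c1519 k0))))))) (by decide +kernel)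
def c11077 : PP 8 4 T 0x400001002000000080100440100044000000005005101420000002000141011000000 := rS 0x2105d86a968b195031d04811bc514e853886c4e491191cee29 (k8 c1681 c1112 c4374 c4372 c4281 c4278 c4292 c536 (k8 c10110 c4532 c4480 c4386 c8106 c7040 c330 c11072 (k4 c5037 c4452 c1937 c4200 (k2 c811 c4482 (k1 c7667 k0))))) (by decide +kernel)
def c11078 : PP 8 4 T 0x400001002000000080000000000000420140000100100060000004000140211044840 := rS 0x65b195d4b5094c86315433613454220d025e55c4052c91d8f16505312fcf24b0b93d3b1749a7c4e49268344647129b4c20151ab5ca2f39aecee6f58844f61b (k8 c4292 c702 c4276 c622 c1107 c1112 c11071 c1617 (k8 c4432 c11030 c4554 c9384 c9668 c5402 c5028 c313 (k8 c4374 c4372 c4371 c4282 c4281 c4278 c1699 c102 (k8 c4418 c10547 c4297 c4431 c4434 c541 c5760 c11076 (k8 c4407 c4481 c663 c1041 c2614 c1681 c4468 c4415 (k8 c11077 c1382 c11075 c2108 c4397 c4321 c1482 c10079 (k8 c9983 c10207 c9008 c7768 c9591 c8019 c2110 c8140 (k1 c7284 k0)))))))) (by decide +kernel)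
def c11079 : PP 8 4 T 0x1002000000080000000100100800000000004101420000000001001000000000 := rS 0x11ea88a29ce22f278cc4e4d (k8 c4282 c4278 c4294 c4297 c4432 c536 c4532 c4480 (k2 c4839 c4388 (k1 c866 k0))) (by decide +kernel)
def c11080 : PP 8 4 T 0x2000000000000000004000800000000000000000000002001140010000000 := rS 0x2bca629628cda25161ab5ca2f (k8 c4432 c11030 c4554 c2058 c4435 c4298 c4294 c1782 (k4 c1681 c333 c869 c2112 k0)) (by decide +kernel)
def c11081 : PP 8 4 T 0x400001002000000080000000000000020140000100100060000004010100051044840 := rS 0x5421106bf3823a2b0459ae47ac98697902ab528c6329a2585c9ee58ba4c9a0d328ad2227129b4c201101ec36b1089ccde77 (k8 c1112 c1107 c1617 c4276 c622 c4292 c702 c4466 (k8 c9668 c5402 c5028 c313 c4278 c886 c1695 c1696 (k8 c4371 c4282 c102 c4418 c11030 c4297 c4431 c4434 (k8 c11078 c4448 c1967 c1971 c1973 c7000 c11079 c4382 (k8 c546 c11080 c7514 c663 c4481 c9531 c4486 c4480 (k4 c3491 c2500 c2108 c10079 (k1 c867 k0))))))) (by decide +kernel)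
def c11082 : PP 8 4 T 0x400000002000000080000000000000020140000100100060000004010100051044840 := rS 0x65b1a96ae298a4763c43aad82c55090c63184daa19a79a29a909097e1de2e934f89c922323894da013d86d462056b94562f (k8 c4432 c1695 c11030 c4554 c4466 c9384 c4292 c702 (k8 c9668 c5028 c313 c4374 c4372 c4281 c4278 c1699 (k8 c102 c4418 c1112 c11081 c5101 c11065 c4479 c4397 (k8 c2505 c1482 c10079 c1968 c4482 c9983 c10207 c7768 (k8 c1787 c4450 c1700 c1924 c11073 c89 c1681 c9008 (k4 c8019 c9591 c2110 c8140 (k1 c7284 k0))))))) (by decide +kernel)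
def c11083 : PP 8 4 T 0x20000000002000000080000000000400000000000020400020000000000001200000000 := rS 0x1505e470bc9e33 (k4 c4294 c4297 c4432 c537 (k2 c536 c8064 (k1 c1506 k0))) (by decide +kernel)
def c11084 : PP 8 4 T 0x400000002000000080000000000000020140000000000004000000010000050000004 := rS 0x2a0ba8e7e1c62aa78c26296762921c2ab959b05863d1d10d8a89558c4f2af35c24d06f39ab546b13d864aa581f96c5a1307828c20412a44120115880362f0b93c823322b44a2e503c5d261113924ca75 (k8 c11070 c1696 c4281 c4278 c4276 c102 c4418 c11050 (k8 c11030 c4435 c4298 c4296 c4294 c4433 c4297 c4431 (k8 c4432 c4292 c4466 c1695 c9668 c230 c886 c313 (k8 c4461 c5402 c4462 c264 c530 c391 c575 c2367 (k8 c311 c2256 c2257 c702 c622 c9384 c4554 c1617 (k8 c1107 c11082 c4437 c69 c829 c1961 c1878 c1885 (k8 c2040 c1786 c10207 c8019 c89 c1047 c1580 c1041 (k8 c1045 c7660 c7043 c2109 c11073 c4456 c1111 c4494 (k8 c2011 c8020 c11083 c4480 c8104 c4377 c8064 c826 k0))))))))) (by decide +kernel)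
def c11085 : PP 8 4 T 0x400000002000000080000000000000020100000100100004000000010000090000042 := rS 0x14c4544a5a2af176bf3ca9d366c1bc24c20f40bf0fa7f43a24c61562954ce3e15acc7a433d968105d2f964166b2585c9e4122945ca9d8ba7c9a0d1191cca911c8b47693 (k8 c102 c1101 c393 c4280 c1153 c1696 c4374 c4372 (k8 c4371 c4282 c1699 c4418 c10547 c11030 c4435 c4296 (k8 c4433 c4297 c4431 c4434 c492 c567 c486 c488 (k8 c752 c4462 c4476 c1224 c10488 c235 c8866 c1694 (k8 c4471 c857 c8954 c1248 c646 c755 c7030 c9141 (k8 c7517 c7516 c11056 c4380 c4376 c4302 c5101 c232 (k8 c4479 c5506 c904 c601 c5760 c11057 c2114 c4454 (k4 c1939 c11058 c4337 c778 (k1 c4468 k0))))))))) (by decide +kernel)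
def c11086 : PP 8 4 T 0x400000002000000080000000000000020100000100100004000000010000090000004 := rS 0x21d12530a8f0aa3f0504c120436804361768945ca078b9947693 (k8 c102 c1101 c1696 c4418 c11050 c11030 c4435 c4298 (k8 c4431 c4292 c11085 c5028 c4461 c263 c530 c4462 (k8 c399 c2200 c4471 c2205 c2207 c7030 c9141 c7856 k0))) (by decide +kernel)
def c11087 : PP 8 4 T 0x400000002000000080000000000000020140000000000004000000010000010000004 := rS 0x4394c2a3c449547e764d064145a09824b204009a076210f194ea1b1785da2517281e2e93 (k8 c102 c4418 c11050 c11030 c4435 c4298 c4431 c4432 (k8 c4292 c11070 c1696 c11084 c86 c1101 c11086 c756 (k8 c4461 c10353 c263 c530 c4476 c4462 c5066 c844 (k8 c845 c399 c2200 c3951 c4471 c2205 c2207 c9141 (k1 c2109 k0))))) (by decide +kernel)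
def c11088 : PP 8 4 T 0x1000000000000000000020000000200000004000000000000050000044 := rS 0xa020240220 (k4 c4466 c9668 c230 c4461 (k2 c4462 c11060 k0)) (by decide +kernel)
def c11089 : PP 8 4 T 0x1000000000000000000100000001000000000000480000000080000080000400 := rS 0x21a5d30890df15 (k4 c4386 c1344 c272 c9302 (k2 c841 c4381 (k1 c4477 k0))) (by decide +kernel)
def c11090 : PP 8 4 T 0x400000002000000040000400000000000000000000500000000040150004400008200 := rS 0x21aa7301b2121841130820d7ea149f14 (k8 c4470 c4297 c1495 c4376 c32 c4433 c10063 c9674 (k4 c244 c4436 c4479 c640 (k2 c905 c4326 (k1 c9728 k0)))) (by decide +kernel)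
def c11091 : PP 8 4 T 0x400000002000000000010800010001020154000000044000000000000000000000042 := rS 0x2bcdaab4d264ca59 (k8 c486 c1697 c1133 c5760 c1701 c5506 c869 c8142 k0) (by decide +kernel)
def c11092 : PP 8 4 T 0x400000002000000040000400000000000000000000500480000040010004080008600 := rS 0x5c4788a283758a4472fd (k8 c4376 c4528 c1153 c1145 c11089 c4470 c11090 c4388 (k2 c1327 c840 k0)) (by decide +kernel)
def c11093 : PP 8 4 T 0x1000001000001000040000004100000000000010004055501000000050140000100000 := rS 0x27053f28d92c7380e1430c (k8 c4477 c4329 c4470 c4480 c411 c587 c4241 c5857 (k2 c4313 c515 (k1 c4464 k0))) (by decide +kernel)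
def c11094 : PP 8 4 T 0x1000001000040000000100004020000000200014501000008050144000114000 := rS 0xc73f92546711ca3e28b750c30c20c33a5cfa6f (k8 c8928 c1691 c159 c593 c4463 c503 c4477 c4329 (k8 c1746 c11093 c4388 c4348 c4387 c858 c370 c594 (k2 c1447 c9121 k0))) (by decide +kernel)
def c11095 : PP 8 4 T 0x400002002000000040000004000004001000410001554501000000200144000100000 := rS 0x27053f5154aa7518958e4b17b950261 (k8 c4302 c4380 c11030 c4432 c4434 c411 c281 c4241 (k4 c4558 c10933 c9368 c11058 (k2 c4313 c515 (k1 c4464 k0)))) (by decide +kernel)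
def c11096 : PP 8 4 T 0x400002002000000040000404000005400100414005054185000040050144000100202 := rS 0x260f0bb8a0e4ee85259ac2e691797d0291 (k8 c4550 c4380 c577 c4432 c756 c4431 c492 c4434 (k8 c5976 c7751 c11095 c4470 c9034 c10464 c10618 c1928 k0)) (by decide +kernel)
def c11097 : PP 8 4 T 0x1000040140000000044000000010000055500000000000004000090000 := rS 0xfe49 (k2 c1718 c515 (k1 c9121 k0)) (by decide +kernel)
def c11098 : PP 8 4 T 0x2000001000040040000000004001000010000054501000008000144000110000 := rS 0x24280ff0409a8d9261 (k8 c4302 c4305 c4241 c11097 c4464 c4313 c8715 c9121 (k1 c7721 k0)) (by decide +kernel)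
def c11099 : PP 8 4 T 0x400000002000000040000000000000020140000200000004000000010000090000042 := rS 0x1b55eaba5a98fea3651494b4538a3c99141cb196e9130b25f87d378446eb12e83d7e8744ab4aa3e1597c7a433296810152c82cd26b0286c5e1719b44a2e54ec5d3ec53d99d2e63138b47693 (k8 c102 c1101 c393 c353 c1689 c159 c593 c708 (k8 c1784 c1699 c4418 c10547 c11030 c4435 c4298 c4294 (k8 c4431 c4432 c4292 c54 c492 c756 c567 c486 (k8 c2570 c4462 c4476 c1697 c10488 c10472 c577 c1694 (k8 c4471 c1686 c4554 c7030 c9141 c11091 c11092 c753 (k8 c1146 c232 c9117 c8928 c1691 c11094 c4305 c4302 (k8 c4550 c1744 c11098 c411 c4470 c10063 c4388 c4387 (k8 c4451 c1935 c412 c413 c858 c594 c11058 c4456 (k4 c1943 c8140 c904 c8207 k0))))))))) (by decide +kernel)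
def c11100 : PP 8 4 T 0x2000000000000000000000000044000000000001000002000000081040000 := rS 0x4494c2a1b0bb44a2e5 (k8 c11030 c4435 c4298 c4431 c4292 c2205 c2207 c7030 (k1 c2109 k0)) (by decide +kernel)
def c11101 : PP 8 4 T 0x400100002000000040000140000001401540000201156400001000150000080000020 := rS 0x18ea065ab912798c1ad32a6262fc86e513a1d5710 (k8 c4478 c4415 c10041 c353 c11030 c277 c5760 c9123 (k8 c10322 c2011 c2009 c4488 c4447 c596 c6907 c8140 (k2 c908 c413 (k1 c4212 k0)))) (by decide +kernel)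
def c11102 : PP 8 4 T 0x14000820044000201104010000000000000000000000 := rS 0xc3579ad8a65 (k4 c1697 c1784 c1969 c869 (k2 c2058 c11067 k0)) (by decide +kernel)
def c11103 : PP 8 4 T 0x400100002000000040000000000001400140000201156080001000050000080000820 := rS 0x17abb488e6287147891625f (k8 c577 c2607 c615 c849 c2563 c6986 c2214 c889 (k2 c4390 c4354 (k1 c11101 k0))) (by decide +kernel)
def c11104 : PP 8 4 T 0x1000000000000000004000040000000040200055500000000200000000000900 := rS 0x1927d381bd430c (k4 c4477 c4329 c1073 c359 (k2 c1691 c587 (k1 c5857 k0))) (by decide +kernel)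
def c11105 : PP 8 4 T 0x1002000000040000400010000020044040201115580001040050000000200900 := rS 0xf1183530d5ec1a5b28a48963320facd5aaf499141cadd430c8bb1546ab88414ce97 (k8 c159 c593 c4308 c4478 c4415 c4337 c1784 c4418 (k8 c4477 c4329 c1746 c11104 c4470 c10063 c4354 c4389 (k8 c2063 c1690 c5857 c631 c637 c412 c413 c4456 (k4 c1982 c8140 c2028 c2120 (k2 c4494 c580 (k1 c4447 k0)))))) (by decide +kernel)
def c11106 : PP 8 4 T 0x40000000000000000000000000000280000000050000000000020 := rS 0x11c6e (k2 c841 c840 (k1 c10321 k0)) (by decide +kernel)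
def c11107 : PP 8 4 T 0x400001002000000040000000000001020140000201104090000000010000081000920 := rS 0x30afc869b55c420a1424ab47c2b1ea1c5ee58b99d2e2d1da4caa650997cfe5d1b8401a0f (k8 c2199 c2550 c4463 c2202 c11106 c2575 c577 c2551 (k8 c1697 c267 c102 c1101 c393 c159 c593 c4418 (k8 c11030 c4432 c10041 c11100 c1694 c4471 c4554 c2332 (k8 c398 c4308 c4478 c4415 c11102 c277 c5760 c11103 (k1 c11105 k0))))) (by decide +kernel)
def c11108 : PP 8 4 T 0x400001002000000040000000000000020140000201000014000000010000091000820 := rS 0x144b95b9c1423886134c3445da0486bf419d8de79849a0ba373fa14201b4e9ecce973188412650697cb40f (k8 c2199 c4476 c577 c2550 c1697 c263 c86 c1689 (k8 c159 c593 c708 c10547 c4292 c4463 c710 c2575 (k8 c2202 c11106 c11107 c4437 c1961 c10361 c845 c2001 (k8 c7782 c10207 c10232 c1890 c4484 c885 c4451 c4477 (k4 c9891 c4329 c359 c1746 (k2 c1473 c11104 (k1 c859 k0))))))) (by decide +kernel)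
def c11109 : PP 8 4 T 0x400002002000000040000000000001020140000201100015000000010000081041800 := rS 0x1329b532ad46a03fa3e0a718a0515aa51bd147c2b260f50a77438bdcb174f9ecce973189c5a3b49994be5a079750283379f47211 (k8 c4300 c358 c4379 c4378 c4306 c4380 c4377 c2199 (k8 c4476 c577 c1697 c102 c1101 c393 c353 c1689 (k8 c159 c593 c708 c1699 c4418 c11030 c4432 c10041 (k8 c7751 c10110 c11100 c10080 c1694 c4471 c4451 c2370 (k8 c1935 c4554 c398 c4470 c7095 c4308 c4388 c594 (k4 c10491 c858 c1741 c11058 (k2 c11102 c2011 (k1 c10618 k0)))))))) (by decide +kernel)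
def c11110 : PP 8 4 T 0x400002002000000040000440000104020000000200014400000040151004000001000 := rS 0x14ea312d14fe8f261c6282f33a5cba7d (k8 c4379 c4377 c159 c593 c4432 c4470 c7095 c9891 (k4 c4388 c594 c4451 c284 (k2 c858 c4558 (k1 c11058 k0)))) (by decide +kernel)
def c11111 : PP 8 4 T 0x400000002000000000000000000000020140000200000004000000010000010000004 := rS 0x5ca84488e1b2ec86bf528c4f309342dc726f40b2422fc2f8641a1305194b45504964086d0089c421e319edca9d03a5d3ed3 (k8 c11087 c1699 c159 c11050 c10547 c11030 c708 c1689 (k8 c11088 c86 c353 c11099 c5028 c4461 c10353 c263 (k8 c267 c4476 c1697 c4462 c2551 c2550 c5066 c577 (k8 c11108 c4300 c4305 c4380 c4378 c358 c1744 c11109 (k8 c4437 c1961 c1878 c1883 c7782 c10207 c11057 c11110 (k4 c273 c272 c851 c3449 (k1 c10396 k0))))))) (by decide +kernel)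
def c11112 : PP 8 4 T 0x6400000002000000040000040110015040144000540055521000004010000001160800 := rS 0x26984831e205983b261208f436431ca50444acc2ed128b94f66f4286ce2bd (k8 c4354 c2498 c4292 c710 c1107 c702 c11030 c4435 (k8 c4298 c4431 c662 c7030 c4464 c2109 c406 c9237 (k8 c4422 c1582 c4473 c372 c1723 c373 c1894 c4471 (k4 c2064 c333 c6745 c2058 k0)))) (by decide +kernel)
def c11113 : PP 8 4 T 0x4400100002000000000110140100011400100194400055520002000000150200024000 := rS 0x10a303061b06965357b2910cda2a08f21719b44a2a356b945e850d9c55710 (k8 c4478 c4415 c2498 c4292 c710 c4432 c11030 c4554 (k8 c9384 c4435 c4298 c4294 c4431 c541 c6745 c4452 (k8 c7980 c676 c677 c5972 c373 c4457 c1984 c2028 (k4 c2112 c4494 c316 c4446 k0)))) (by decide +kernel)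
def c11114 : PP 8 4 T 0x6400000002000000040000004100004040144000540055521000004010144051064800 := rS 0xc534813f1f4902923b1d56c51e32620b2828513a7b0d9bd46ad728bd22a15dc304a231023d7ab5 (k8 c4389 c4354 c4388 c4466 c833 c313 c4467 c4825 (k8 c4329 c1156 c4432 c11030 c4554 c9384 c1107 c4292 (k8 c702 c10547 c11112 c4308 c7660 c4478 c8577 c663 (k8 c1250 c4415 c407 c8078 c1681 c2110 c1622 c367 (k4 c1462 c11113 c1967 c11080 k0))))) (by decide +kernel)
def c11115 : PP 8 4 T 0x2420200002000000000400000514001420154000500044060800004000000000020800 := rS 0x191194090a103c62afcf317329ece66f4286ce2bb5ba857b4b (k8 c4456 c4354 c4329 c1746 c4825 c2498 c4292 c710 (k8 c1107 c1617 c702 c1696 c4418 c541 c5760 c1787 (k4 c11073 c9008 c332 c4439 (k2 c4446 c8103 (k1 c8130 k0))))) (by decide +kernel)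
def c11116 : PP 8 4 T 0x2420000002000000000000000100500020144000500044061000004010104051160800 := rS 0x33e86cd640a1723aa28f498a918a6996aba5b1ca50444acc961b0b93c66d128a762e2312880dead728ac5e8f (k8 c4388 c4432 c1695 c11030 c4554 c1107 c4466 c313 (k8 c833 c4418 c10547 c4435 c4298 c4294 c4297 c4431 (k8 c4292 c4434 c662 c7030 c4464 c2109 c406 c4456 (k8 c1943 c2023 c11115 c1967 c866 c2111 c11080 c4451 (k8 c4471 c7514 c1576 c9531 c7935 c4422 c1792 c4495 k0))))) (by decide +kernel)
def c11117 : PP 8 4 T 0x400000002000000040000000000400020144000500045461000004150104051064800 := rS 0x2923b1c78c924aca0a143f9716a8f8a2c52f174f994e66f51b9456915292d6ea1860944620 (k8 c4466 c833 c313 c4467 c4329 c1746 c4434 c10933 (k8 c1156 c1695 c11030 c9384 c1107 c1617 c1696 c1699 (k8 c4418 c159 c623 c4470 c4388 c4389 c11114 c1458 (k8 c11116 c4308 c7660 c367 c8577 c663 c407 c8078 (k2 c1681 c4200 k0))))) (by decide +kernel)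
def c11118 : PP 8 4 T 0x40000000054000000000000000000001002000145410000000 := rS 0x5247 (k2 c8078 c1681 (k1 c2110 k0)) (by decide +kernel)
def c11119 : PP 8 4 T 0x400000002000000000020004000501004000000000000000000000080005600000000 := rS 0x13552315ea69324b178cd7e4f (k8 c4297 c1511 c4294 c4432 c4434 c1135 c7718 c1175 (k4 c317 c867 c325 c2111 k0)) (by decide +kernel)
def c11120 : PP 8 4 T 0x400000002000000040000000000400020140000500145461000004110104051064800 := rS 0xc71e314f249580d90e9d49a7cda0151b9456a525aed6ea1860944620 (k8 c4466 c833 c313 c4467 c4329 c1746 c4825 c4434 (k8 c10933 c1695 c11030 c9384 c9668 c5028 c1699 c102 (k8 c10547 c10041 c11117 c319 c323 c629 c11119 c11073 (k2 c2284 c11118 k0)))) (by decide +kernel)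
def c11121 : PP 8 4 T 0x4400000002000000000010140100001400100184400000020002000000150200024000 := rS 0x428c0c186af60d2ca6ca4433504790b8cda251568bd0a1b38aae20e5 (k8 c11030 c4468 c4415 c2498 c4292 c710 c4432 c4554 (k8 c4435 c4298 c4294 c4431 c541 c6745 c7980 c676 (k8 c677 c373 c4457 c1984 c8140 c2028 c2112 c4494 (k2 c316 c4446 k0)))) (by decide +kernel)
def c11122 : PP 8 4 T 0x2000000000000000000000800000000000000000000002000140050000000 := rS 0x3155c4052e5 (k4 c11030 c1681 c4468 c4415 (k2 c1967 c11080 k0)) (by decide +kernel)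
def c11123 : PP 8 4 T 0x400001002000000040000000000000020140000500100400000000010000050000820 := rS 0xd7094026d7a5d8a2c4fc37240a58a3c6385164c9829896ebb50c314e274ec5d3e6d009847e582a8647213339ec36732da8c5a65728ac200d1183c4a20 (k8 c4466 c313 c264 c833 c529 c4463 c1695 c11030 (k8 c1696 c391 c9384 c575 c1617 c4292 c702 c655 (k8 c530 c2322 c2257 c2256 c311 c2367 c615 c9668 (k8 c5028 c1699 c4418 c10547 c351 c4532 c4467 c4329 (k8 c4825 c1746 c11120 c4407 c1728 c4481 c4464 c407 (k8 c663 c1250 c1681 c11118 c323 c367 c623 c4470 (k4 c1457 c4354 c11122 c11121 (k2 c4439 c1923 (k1 c4479 k0))))))))) (by decide +kernel)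
def c11124 : PP 8 4 T 0x6400001002000000000100004100000004101104510005820000006000148050000000 := rS 0x1053fa8196aea590c62a652aad04bf3cc4136291da74406f56b945f0d5da3d22bd (k8 c4354 c1155 c1425 c10310 c4382 c4432 c11030 c4554 (k8 c1107 c4466 c10547 c89 c1681 c11122 c4468 c541 (k8 c5760 c6745 c4415 c9959 c549 c357 c4567 c9591 (k4 c8019 c8140 c908 c677 (k2 c8103 c5930 k0))))) (by decide +kernel)
def c11125 : PP 8 4 T 0x2000000000001000000100000100000020000000104000000000005010000040000920 := rS 0x2081559ae52665 (k4 c1696 c102 c7514 c663 (k2 c7133 c7079 (k1 c9531 k0))) (by decide +kernel)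
def c11126 : PP 8 4 T 0x400001002000000040000000000000020140000500100000000000010000050000920 := rS 0x2867f5032d5c4318a994aab82a097e798818936291d8f17abb5bc51228f64a04fa2658c34bc71428413b1749a7c1a233083c4a3f1c9ec366f2c0815a2d32b94562f (k8 c4432 c1695 c11030 c1696 c391 c4554 c4466 c311 (k8 c1107 c4292 c702 c2322 c2367 c313 c264 c615 (k8 c833 c529 c1699 c102 c4418 c10547 c4463 c710 (k8 c2498 c11123 c4382 c2508 c543 c1379 c1382 c546 (k8 c1425 c1155 c7962 c1747 c10310 c4354 c11125 c89 (k8 c1681 c11122 c11124 c4468 c541 c5760 c6745 c4407 (k8 c4415 c9959 c549 c357 c4567 c8019 c8140 c908 (k2 c677 c4423 (k1 c4483 k0))))))))) (by decide +kernel)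
def c11127 : PP 8 4 T 0x4400002000001000040000000000544000000000050055401020000000004000001800 := rS 0xf18c495911c287e2e844fb45 (k8 c4451 c4379 c4300 c4377 c11058 c7517 c1311 c10049 (k4 c366 c9172 c663 c2286 k0)) (by decide +kernel)
def c11128 : PP 8 4 T 0x400000002000000040000000000000020140000100100004000000010000050000920 := rS 0x31c923c0a2ca0a6226214e25f50c314aa713845f877258be2e9f368041a233083c4a582a86426673996d462d32b945620 (k8 c4466 c1695 c11030 c1696 c391 c9384 c575 c1617 (k8 c655 c530 c2257 c2256 c311 c313 c264 c615 (k8 c833 c529 c9668 c5028 c1699 c4418 c4432 c4434 (k8 c7751 c11126 c4300 c350 c4558 c10933 c4467 c4329 (k8 c4382 c536 c10110 c10080 c11127 c4407 c4481 c4464 (k4 c663 c366 c2286 c11118 k0)))))) (by decide +kernel)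
def c11129 : PP 8 4 T 0x1001002000000040010440100000000004410000000020001040910000000105000 := rS 0x3316a4c5baf59ecb1bb1ce2850806dcac320b04a2b9 (k8 c1045 c4435 c1580 c4433 c1047 c11030 c4292 c4463 (k8 c710 c2498 c406 c319 c5740 c8730 c6133 c9550 (k4 c10063 c1579 c2129 c2063 k0))) (by decide +kernel)
def c11130 : PP 8 4 T 0x400000002000000000000000000000020140000000000004000000010000050000004 := rS 0x9e1a117e2c54ebb41a60ec7d3fa1e081559b04923d1d2fd8a4318aacf2a957c24d0ad519bce67b168e432552c0fcb60f308281a0412824460115880362f28b940f1749b4cca75 (k8 c11111 c1696 c11087 c102 c4418 c11050 c11030 c4435 (k8 c4432 c4292 c4466 c1695 c9668 c833 c230 c313 (k8 c4461 c529 c4462 c615 c264 c575 c2367 c311 (k8 c2256 c2257 c2322 c391 c702 c1617 c1107 c9384 (k8 c4554 c11128 c4437 c829 c10183 c1961 c1885 c1878 (k8 c10207 c1786 c7782 c8019 c89 c3651 c1580 c1041 (k8 c7133 c7079 c7043 c7517 c4409 c11073 c1111 c2003 (k8 c3788 c2011 c10019 c11129 c4300 c7554 c350 c4467 k0)))))))) (by decide +kernel)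
def c11131 : PP 8 4 T 0x1000001000040000000100004000000050000054500000008050144000114000 := rS 0x72488a28d6ec730830aa6f (k8 c8928 c8954 c4463 c503 c1447 c1162 c4241 c11093 (k2 c9121 c4348 (k1 c370 k0))) (by decide +kernel)
def c11132 : PP 8 4 T 0x400000002000000040080000010000000054000001044000000000000100000015002 := rS 0x572ad94522606610853585cd22f (k8 c4432 c756 c4431 c492 c5976 c4479 c4436 c10080 (k4 c412 c413 c1943 c7031 (k1 c8140 k0))) (by decide +kernel)
def c11133 : PP 8 4 T 0x400002002000000040000400000404020000050000054500000040150004000000000 := rS 0x146a5a2a3c9914 (k4 c4470 c10063 c4388 c4451 (k2 c1935 c858 (k1 c11058 k0))) (by decide +kernel)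
def c11134 : PP 8 4 T 0x400000002000000000000000000000020140000000000004000000010000010000404 := rS 0x8e1aa012ad870a73603492c648985f8111bac4ba0f3e9fd7f0443a24c615629555a672facc8669358f8565a000f4b2053d8205e1722945ca9d03a5e2e9f69994ea27168ec3c93 (k8 c102 c11130 c1101 c393 c353 c11111 c1696 c11087 (k8 c1699 c4418 c159 c11050 c10547 c11030 c4435 c4296 (k8 c4431 c4432 c4462 c1224 c263 c1106 c235 c4461 (k8 c4476 c1694 c4471 c492 c756 c10488 c8866 c577 (k8 c7431 c4554 c8954 c1248 c646 c755 c7030 c9141 (k8 c5073 c11091 c4313 c4409 c11092 c753 c1146 c232 (k8 c9117 c11131 c4302 c4550 c11098 c147 c1447 c11132 (k8 c904 c11133 c411 c281 c1746 c4329 c771 c4467 k0)))))))) (by decide +kernel)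
def c11135 : PP 8 4 T 0x400000002000000000000000000000020140000000000004000000010000010000004 := rS 0x2182a3c0c84caa3f050ec3c7549c5ca2e5 (k8 c11030 c4435 c4418 c102 c11111 c11130 c1101 c11134 (k8 c399 c2200 c570 c2201 c4471 c2205 c11100 c9141 k0)) (by decide +kernel)
def c11136 : PP 8 4 T 0x400001002000000080000400100044010000005045101420000002000141011004000 := rS 0x164c8312ecef17 (k4 c4416 c1112 c11071 c11074 (k2 c11077 c7153 (k1 c634 k0))) (by decide +kernel)
def c11137 : PP 8 4 T 0x400001002000000080000000100000010140004000101020000002000140451005000 := rS 0x65b195d4b5094c86315433613454220d025e5f9e537171d92c361727a747e2536804de11139249a473bab45ea355a7ce693880a440e5 (k8 c11030 c4466 c834 c4468 c4413 c1109 c4414 c4415 (k8 c9384 c4432 c4554 c1112 c4374 c4282 c4281 c4278 (k8 c4276 c1107 c9668 c5028 c313 c401 c10547 c4297 (k8 c4431 c4292 c4434 c89 c4416 c11122 c541 c5760 (k8 c11136 c1382 c11075 c2108 c4397 c4321 c1482 c10079 (k8 c9983 c10207 c9008 c7768 c9591 c8019 c2110 c8140 (k1 c7284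 k0))))))) (by decide +kernel)
def c11138 : PP 8 4 T 0x400001002000000080000011100044055100004001101420000000000000001005000 := rS 0xa5a2aa61a82502056e8f8a29d0a712586c2e4f378449a77 (k8 c1112 c4282 c4276 c1107 c4297 c4431 c4292 c4434 (k8 c536 c10110 c4532 c4480 c4388 c4353 c8106 c2125 (k4 c2108 c4329 c7768 c4452 (k2 c1937 c4490 k0)))) (by decide +kernel)
def c11139 : PP 8 4 T 0x4400001002000000080100010500040004044110104110000000004000000200045004 := rS 0x8454a0d974b3833e86528ab18fe8982054961b0b93da25172824da550c8449a47399600801 (k8 c9668 c4461 c311 c1109 c4374 c4282 c4276 c2257 (k8 c2256 c5028 c230 c11030 c4435 c4298 c4297 c4431 (k8 c4292 c4434 c7660 c6198 c7030 c7517 c9509 c9531 (k8 c2109 c4391 c1519 c4480 c4456 c2022 c2500 c7105 (k2 c2108 c10079 k0))))) (by decide +kernel)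
def c11140 : PP 8 4 T 0x400001002000000080100010000040000044110105100021000001000000001145800 := rS 0x10a83549c1974b67d0e2a52631fe08892586c2e4f68945ca4d23ac422b3 (k8 c663 c4276 c622 c4374 c4282 c11030 c4435 c4298 (k8 c4297 c4431 c4292 c4434 c7030 c7079 c7517 c9509 (k8 c2109 c9531 c4391 c1519 c4456 c2022 c4480 c7105 (k2 c2500 c10079 (k1 c2108 k0))))) (by decide +kernel)
def c11141 : PP 8 4 T 0x400101002000000080140000000040000000000001104800000000000151001000000 := rS 0x3129abd4cca41214fca9500cda25124ab45eab4fc41ca87 (k8 c10041 c11030 c4468 c4414 c4415 c4432 c4554 c4281 (k8 c4435 c4298 c4294 c8916 c7768 c5930 c10079 c5339 (k4 c677 c549 c8140 c2023 (k2 c2007 c2112 k0)))) (by decide +kernel)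
def c11142 : PP 8 4 T 0x1000001002000000084005000500000001144114540000821000000000000001005000 := rS 0x18a79a2a2508bf41a38e04b0d85c9e1126aecdf0d (k8 c4382 c1107 c11071 c4282 c4276 c4297 c4431 c4292 (k8 c4434 c4480 c4486 c2500 c3491 c2108 c5230 c4397 (k2 c2505 c8360 (k1 c2123 k0)))) (by decide +kernel)
def c11143 : PP 8 4 T 0x400001002000000080000010000000010140000000114000000001000040200001804 := rS 0x29abc62ca532090aa9502dd1f143f33d8d050a3062c872585c9e33689442655379d49a77568bd567361905667d40b24bcb5238fd269f880a546e516a5d222758844f61b0c9601e6112810da01 (k8 c9668 c5028 c4461 c313 c615 c264 c311 c2257 (k8 c4292 c702 c4276 c622 c4278 c886 c1196 c391 (k8 c11030 c9384 c834 c4468 c4414 c4413 c401 c4374 (k8 c7513 c11138 c546 c1382 c1379 c663 c4433 c9009 (k8 c1109 c4415 c4432 c4554 c1112 c4282 c539 c1107 (k8 c2256 c531 c4435 c4298 c4294 c4297 c4431 c4434 (k8 c10041 c11139 c4420 c11140 c4308 c11141 c1519 c7317 (k8 c11142 c4388 c4353 c2125 c7768 c10079 c2108 c549 (k4 c677 c2007 c909 c2022 (k1 c2112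 k0)))))))))) (by decide +kernel)
def c11144 : PP 8 4 T 0x400101002000000080140000000040000004000001100800000000000151001000000 := rS 0x14d5e31652999e82429f95343500cda25124ab45eab3ea7e20e5 (k8 c11030 c4468 c4414 c1379 c4415 c4432 c4554 c4281 (k8 c4435 c4298 c4294 c8916 c4423 c7768 c4483 c10079 (k8 c5339 c1521 c549 c677 c2007 c909 c2023 c2112 k0))) (by decide +kernel)
def c11145 : PP 8 4 T 0x400101002000000080105011500040051144004001100821000000000151001045000 := rS 0x29abc62ca532090aa9502dd1f143f33d8c4b0d85c9e3368944ea11269dd5a2f559cd267d4fc41ca81 (k8 c1382 c11030 c4468 c4414 c1379 c4413 c1109 c4415 (k8 c4432 c4554 c1112 c4282 c4276 c539 c4435 c4298 (k8 c4294 c4297 c4431 c4292 c4434 c11144 c1519 c7317 (k8 c11142 c4388 c4353 c2125 c7768 c10079 c2108 c549 (k4 c677 c2007 c909 c2022 (k1 c2112 k0)))))) (by decide +kernel)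
def c11146 : PP 8 4 T 0x400001002000000080000000000000010140000000110000000000010040050000804 := rS 0xd709433062d0531324bcb559ae5863d39a4d3eab51c4082e51f9b426290688cc20f12954327b0d91d62114889d2e58168100220 (k8 c4466 c9668 c4461 c391 c311 c1196 c4278 c886 (k8 c4276 c622 c4374 c4292 c702 c2257 c2256 c313 (k8 c264 c615 c833 c529 c834 c531 c5028 c401 (k8 c11030 c4433 c4468 c9384 c4415 c4414 c4413 c1109 (k8 c11137 c9009 c7514 c663 c7513 c11138 c546 c11143 (k4 c4407 c7153 c4420 c11145 (k2 c4440 c1924 (k1 c4479 k0)))))))) (by decide +kernel)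
def c11147 : PP 8 4 T 0x2000000000000000000000000040000000040001000000000080201040000 := rS 0x874494c2a1b0bb44a2e5 (k8 c11030 c4435 c4298 c4431 c4292 c287 c2263 c7030 (k2 c9141 c2109 k0)) (by decide +kernel)
def c11148 : PP 8 4 T 0x2000000002000000000000400000000000000000000000000010040110000000000000 := rS 0x2f46ebb2593c8245 (k8 c4296 c4433 c4297 c4434 c4390 c4386 c4354 c2114 k0) (by decide +kernel)
def c11149 : PP 8 4 T 0x400001002000000080000000000000000140000000010004000000010000050000004 := rS 0x136a63b2955281679791cc6382862a7d61acc2a3d43b04e74b5f94886934fa2462ab3cabcd70951c415a68168bc9e4119b44a2e51f834460f1296c727b0d9bcea2b339603255098a52a04009249a4758844140903a444e20 (k8 c4466 c4278 c886 c11050 c230 c4462 c4276 c622 (k8 c4374 c4282 c4281 c9668 c4461 c11135 c834 c531 (k8 c2256 c2257 c311 c2638 c11147 c539 c1107 c4292 (k8 c702 c2322 c575 c313 c264 c833 c529 c401 (k8 c11030 c4435 c4298 c4294 c4433 c4297 c4432 c391 (k8 c11146 c4554 c4468 c9384 c4437 c69 c829 c1961 (k8 c1885 c1878 c2040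 c4414 c4413 c10207 c2112 c7782 (k8 c9591 c1109 c1983 c1902 c332 c7785 c7658 c9009 (k8 c7516 c11148 c4551 c4480 c2110 c537 c536 c1519 (k4 c3403 c1506 c1882 c11142 (k2 c4839 c1889 (k1 c852 k0)))))))))))) (by decide +kernel)
def c11150 : PP 8 4 T 0x400101002000000080105011500001000040004145161420000000000000001005000 := rS 0x3cb15129b5552d50ce86a968a9e41464f8811ba3d6f1453a14fe712586c2e4f08934ee87 (k8 c1653 c1112 c4282 c4276 c4297 c4431 c4292 c4434 (k8 c536 c554 c10110 c4532 c4480 c8560 c4388 c4386 (k8 c8106 c2121 c5037 c2108 c1650 c4452 c1937 c4384 (k8 c4168 c4490 c4430 c1510 c866 c1945 c1675 c541 (k1 c9443 k0))))) (by decide +kernel)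
def c11151 : PP 8 4 T 0x400101002000000080005000500004001140004160120821000000000000001005000 := rS 0x1588984aae96846720e2a4b0d85c9e1126c455e7743a04fa63 (k8 c67 c1380 c1382 c1653 c1112 c1776 c4412 c4282 (k8 c4276 c4297 c4431 c4292 c4434 c4387 c2500 c11142 (k4 c2108 c4430 c1676 c4321 (k2 c2527 c4491 (k1 c8622 k0))))) (by decide +kernel)
def c11152 : PP 8 4 T 0x400000002000000000000000400000000000184000120000010000000000200015004 := rS 0xd48984a11064b0d85c9e6d0c8100287 (k8 c1653 c9668 c4461 c2257 c5028 c4297 c4431 c4292 (k4 c4434 c2524 c2108 c4321 (k2 c2527 c4479 (k1 c6681 k0)))) (by decide +kernel)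
def c11153 : PP 8 4 T 0x400101002000000080105011500001000140004140160000000000000000200001004 := rS 0x2791c705b9fcfa812f1b4c20f12954326f2c010021126a444e63 (k8 c67 c4278 c886 c4282 c4276 c9668 c4461 c311 (k8 c1107 c2257 c2256 c313 c264 c615 c5028 c11150 (k8 c1382 c1380 c11152 c5279 c2121 c537 c11151 c1427 k0))) (by decide +kernel)
def c11154 : PP 8 4 T 0x400001002000000080000000000000000140000000000004000000010000050000004 := rS 0xef194d2994aa9409791c708aafc86313c9ae126860b262d055aae586141e9cd662c322c48e4d138445e4f208cdca9d1f8941a232d8e4f61b379d456672c02812070c95426294a8100220 (k8 c4466 c9668 c4461 c11135 c834 c531 c2256 c2257 (k8 c11050 c230 c4462 c311 c2638 c11147 c539 c1107 (k8 c4292 c702 c2322 c575 c833 c529 c313 c401 (k8 c10547 c11030 c4294 c4433 c4297 c4432 c4276 c4278 (k8 c4282 c4374 c622 c11149 c7854 c2519 c1649 c2282 (k8 c390 c9009 c7514 c7513 c4308 c7660 c630 c4420 (k8 c11153 c4437 c69 c1961 c1878 c10207 c7782 c11148 (k8 c4480 c537 c536 c3403 c1506 c1882 c4839 c852 (k2 c4448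 c1889 (k1 c4482 k0)))))))))) (by decide +kernel)
def c11155 : PP 8 4 T 0x2000000000000000000000000040000000000001002000080000001040000 := rS 0x874494c2a1b0bb44a2e5 (k8 c11030 c4435 c4298 c4431 c4292 c2273 c2275 c7030 (k2 c9141 c2109 k0)) (by decide +kernel)
def c11156 : PP 8 4 T 0x400000000000000200002000000004000140100000000044001554000001000002000000001040800 := rS 0x5284b042a895985ca2e53d86d8ad1 (k8 c4298 c1782 c4292 c702 c11030 c4435 c4431 c4312 (k4 c4314 c4308 c7824 c8131 (k2 c2109 c9008 k0))) (by decide +kernel)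
def c11157 : PP 8 4 T 0x400000002000000000000140000001400144000500000021002002000110201064800 := rS 0x1027e0a414f61b379c4e693880accee58bb14f34367b456237 (k8 c11155 c623 c4298 c1790 c4421 c541 c1782 c4416 (k8 c11030 c2638 c11147 c4468 c4413 c1109 c2498 c1107 (k4 c4292 c702 c11156 c4464 (k2 c367 c1462 (k1 c11121 k0))))) (by decide +kernel)
def c11158 : PP 8 4 T 0x400000000000000000000000004000000008000001100000000000000000000000000 := rS 0xd709 (k2 c4440 c1924 (k1 c4479 k0)) (by decide +kernel)
def c11159 : PP 8 4 T 0x400000002000000040000000000000000144000500000021000002110114051064800 := rS 0x45178372426d8e474ea8d3f101599dcabb8608c4a20 (k8 c4466 c313 c833 c4467 c4825 c11030 c2638 c11147 (k8 c4468 c4414 c9384 c10547 c8078 c2284 c11122 c4200 (k4 c11155 c11157 c4470 c4354 k0))) (by decide +kernel)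
def c11160 : PP 8 4 T 0x400000000001000000002000000004604440000540000020000000000000010000000005600000000 := rS 0x428c0c17b4554b31054b258bc9e33 (k8 c4294 c4297 c4432 c4434 c4457 c636 c637 c7105 (k4 c4452 c2068 c2111 c4493 (k2 c316 c4446 k0))) (by decide +kernel)
def c11161 : PP 8 4 T 0x1000000002000000000084440400540004044045440000000000004000005600020000 := rS 0x62a94cd2d888926b2d831667b202943258bc9e33 (k8 c4294 c4297 c4432 c4434 c4391 c406 c407 c1519 (k8 c7660 c4420 c9862 c413 c11160 c9460 c4429 c1135 (k2 c7105 c317 (k1 c2111 k0)))) (by decide +kernel)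
def c11162 : PP 8 4 T 0x400000002000000040000000200401000044000540000000000005110155200020800 := rS 0x2218317628e968b72331c92bf3f9e46d15289ec36a34fa4e20a525aee182361905cab3 (k8 c663 c11030 c4433 c9009 c833 c4467 c4825 c4434 (k8 c10933 c4468 c4413 c4414 c9384 c4292 c702 c4435 (k8 c4350 c623 c629 c2655 c1242 c4209 c11161 c4200 (k8 c9550 c1411 c1412 c11119 c4419 c1580 c2123 c7172 k0)))) (by decide +kernel)
def c11163 : PP 8 4 T 0x400001002000000040000000000000010140000000110400000000010000050000820 := rS 0x2d56e8f8a2c5723d50c314e9113a747e611c9bcea100688c1e253ba5d3e7349a1d5710168acce580c9542629729b40220 (k8 c4466 c9668 c5028 c11030 c834 c531 c2256 c2257 (k8 c311 c2638 c11147 c391 c4468 c4415 c11158 c4413 (k8 c1109 c4414 c1196 c1112 c313 c264 c833 c529 (k8 c4463 c539 c1107 c2322 c615 c401 c10547 c351 (k8 c1156 c4532 c4467 c4329 c11159 c7514 c11162 c7962 (k4 c4388 c4353 c4389 c11040 k0)))))) (by decide +kernel)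
def c11164 : PP 8 4 T 0x800000000000010000000000000000000004000044055500000000000000000000000000000000000 := rS 0x142b9 (k2 c4394 c4423 (k1 c5931 k0)) (by decide +kernel)
def c11165 : PP 8 4 T 0x400000000000400000002000000040040140000000000144000500000021000002000110051064800 := rS 0x2426c8ee54e8acce20 (k8 c4466 c2638 c11147 c10547 c11030 c8078 c11122 c4473 (k1 c11157 k0)) (by decide +kernel)
def c11166 : PP 8 4 T 0x410000000000000004005000115001454501104400001020000000000000000000000 := rS 0x15e99532958abf3c9bd7691 (k8 c1155 c10310 c1107 c541 c5760 c7718 c9959 c9957 (k2 c2011 c909 (k1 c2127 k0))) (by decide +kernel)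
def c11167 : PP 8 4 T 0x400001002000000040000000000000010140000000110000000000010000050000820 := rS 0xa2b30985218abd4a994d3059e488b1f966b9618f686b55eadd76c78a0dd227d47aa59281132c61a5e439cd269f55a8e20ad16a5c5e4128b953a3f36804c2393d9bcea2b33864aa1314a14367108034460f129dcb020 (k8 c4466 c311 c1112 c313 c264 c833 c529 c4463 (k8 c2498 c4292 c710 c834 c531 c2256 c2257 c2638 (k8 c11147 c539 c1107 c702 c2322 c615 c9668 c5028 (k8 c401 c10547 c11030 c4435 c4433 c4432 c1196 c391 (k8 c4554 c4468 c9384 c4415 c4414 c4413 c1109 c11158 (k8 c11163 c4382 c2508 c543 c1382 c546 c1505 c1425 (k8 c1379 c1155 c319 c7962 c2375 c10310 c4353 c4354 (k8 c4389 c11164 c11165 c9009 c7514 c663 c2121 c4073 (k8 c671 c1521 c4420 c11166 c104 c9866 c868 c1967 (k4 c7769 c372 c373 c4451 (k1 c5541 k0))))))))))) (by decide +kernel)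
def c11168 : PP 8 4 T 0x400000002000000000000000200141000020001000160000000000000200200000020 := rS 0x10d36a9189a958ab (k8 c1945 c557 c556 c397 c948 c1968 c4567 c10002 k0) (by decide +kernel)
def c11169 : PP 8 4 T 0x8400001002000000040040000600001000040004040160400000000080201600000020 := rS 0x1524d18d117aab8cb1112a364adc5e4f19b9472772c1fc200d07a1c93050a3054e615292e2a795dc304ebf (k8 c1242 c351 c4467 c4825 c629 c4350 c4434 c10933 (k8 c615 c4532 c4420 c390 c4308 c2330 c1653 c264 (k8 c529 c4463 c2522 c311 c1112 c2322 c11030 c4294 (k8 c4297 c4432 c9550 c631 c5380 c11168 c9460 c4370 (k4 c1675 c1175 c4493 c397 (k2 c325 c4398 (k1 c2111 k0))))))) (by decide +kernel)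
def c11170 : PP 8 4 T 0x9000000000000000004000440402000000044005440020000000000000000000000000 := rS 0x8962ab68ac1 (k4 c4420 c4398 c949 c8360 (k2 c557 c9460 k0)) (by decide +kernel)
def c11171 : PP 8 4 T 0x400001002000000040000000200001010040000040120400000000000001600000820 := rS 0xc544a615430549359ec665afcf2368a8bc9e333d86cee7f080341e87618f482c18b05058e51599cb0192a84c52b31fa9cc2a525aee1827 (k8 c351 c4467 c4825 c4434 c10933 c615 c4532 c401 (k8 c2519 c834 c531 c2256 c2257 c311 c2638 c11147 (k8 c11030 c7854 c390 c7660 c4420 c4433 c2282 c9009 (k8 c1653 c264 c529 c4463 c2522 c1112 c4292 c702 (k8 c4294 c4297 c4432 c4350 c623 c629 c1242 c9862 (k8 c11169 c1519 c413 c11170 c2111 c397 c317 c1945 (k2 c1675 c7750 k0))))))) (by decide +kernel)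
def c11172 : PP 8 4 T 0x100000000000004004010502001000045015544020000000000000000000000000 := rS 0x442b622af (k4 c1776 c4412 c949 c9392 (k1 c557 k0)) (by decide +kernel)
def c11173 : PP 8 4 T 0x400000000000500000000000000004080000044400000000000000000000021000000000000000000 := rS 0x14b569499b45 (k4 c4451 c2063 c412 c6601 (k2 c4456 c4491 k0)) (by decide +kernel)
def c11174 : PP 8 4 T 0x100000000000004004010502001000445014544020020000000000000000000000 := rS 0xf09b (k2 c866 c11172 (k1 c541 k0)) (by decide +kernel)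
def c11175 : PP 8 4 T 0x400000000000500000002000000004080000045500000000000000000000001000000205400000000 := rS 0x9a31258bc9e33 (k4 c4294 c4297 c4432 c4434 (k2 c397 c11173 (k1 c2111 k0))) (by decide +kernel)
def c11176 : PP 8 4 T 0x8000000000000000000000000408001000044004440040020000000000000000000000 := rS 0x784db1512c1 (k4 c4420 c1945 c1675 c1972 (k2 c9460 c541 k0)) (by decide +kernel)
def c11177 : PP 8 4 T 0x400001002000000040000000200001010040000040120000000000000001600000820 := rS 0x5f (k2 c2508 c11171 k0) (by decide +kernel)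
def c11178 : PP 8 4 T 0x400001002000000040000000000000010140000000100004000000010000050000820 := rS 0x29552a713b3d8c5fa1b216e8f8a2c556b58b41572c30a0f492873f9f4e6b3162be2263321dc964172a747e611c9ecde751599c3255098a50a1b388401a2307894b020 (k8 c4466 c311 c313 c264 c833 c529 c4463 c2498 (k8 c4292 c710 c834 c531 c2256 c2257 c2638 c11147 (k8 c539 c1107 c702 c2322 c615 c401 c10547 c11030 (k8 c4433 c4434 c1112 c11167 c67 c4412 c1776 c7854 (k8 c2519 c1649 c9990 c2522 c1653 c2330 c2282 c390 (k8 c9009 c7514 c4308 c7660 c4419 c11176 c11177 c7962 (k8 c4388 c4353 c2121 c4422 c2510 c631 c1792 c351 (k4 c4532 c11174 c10933 c11175 k0)))))))) (by decide +kernel)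
def c11179 : PP 8 4 T 0x2000000040000000201000000000000000200000000000000001600000820 := rS 0x9d4c3617c246219 (k8 c2257 c1878 c4437 c4432 c623 c10019 c2270 c4558 k0) (by decide +kernel)
def c11180 : PP 8 4 T 0x400001002000000000000000000000000140000000000004000000010000050000004 := rS 0x4ea62e2090345262ec6eb15f90cf2a9849a10a106992c5e950688c1e250c8e4f60a0481c366f2c0100220 (k8 c4466 c9668 c4461 c311 c1107 c4292 c11050 c230 (k8 c4462 c702 c2322 c2257 c313 c264 c833 c529 (k8 c11135 c4432 c4434 c11154 c4463 c710 c11178 c4437 (k8 c10183 c1961 c10207 c7782 c11179 c319 c9034 c9891 (k4 c4451 c1894 c4484 c2001 (k2 c2000 c806 (k1 c4558 k0))))))) (by decide +kernel)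
def c11181 : PP 8 4 T 0x1000000000000400000002000000001011010000510000040405121110820001404000054400000020 := rS 0x61a25663d67ad686736321d269f55c41462d27905ca77 (k8 c1112 c11030 c4433 c4297 c391 c1466 c4468 c4415 (k8 c4414 c4413 c11158 c4576 c1109 c4391 c1432 c1519 (k4 c331 c667 c6175 c9009 (k1 c2123 k0)))) (by decide +kernel)
def c11182 : PP 8 4 T 0x1401000002000000000000000000000011142400001100024001404000054400000820 := rS 0x1843d44a1ce6b3161917270473058b0d53c60bca83b905ca133d86ceb453cb354aa1 (k8 c4551 c1402 c1482 c2505 c4397 c539 c4292 c702 (k8 c531 c11030 c4433 c1112 c10079 c10110 c4482 c191 (k8 c4382 c4370 c4450 c4486 c1425 c1476 c11181 c7854 (k4 c2519 c1649 c1653 c2527 (k2 c2282 c2123 (k1 c9009 k0)))))) (by decide +kernel)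
def c11183 : PP 8 4 T 0x400002002000000080000000000000010140000000000004000000010000200000820 := rS 0x1184d1dd1c9986a9952688aafc8631529e6128423934922f278cc7e23368041e251c9ec366f1599cb0192a84c525d41a444e11 (k8 c4300 c350 c4550 c4306 c4377 c834 c531 c2256 (k8 c2257 c311 c2638 c11147 c1107 c4292 c702 c2322 (k8 c313 c264 c9668 c5028 c833 c401 c4294 c4297 (k8 c4432 c4281 c4282 c4374 c11065 c5101 c2505 c1402 (k8 c9983 c10207 c7782 c11148 c11182 c826 c4839 c5264 (k4 c2011 c4486 c1111 c852 (k2 c4482 c4448 k0))))))) (by decide +kernel)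
def c11184 : PP 8 4 T 0x20000000001000040140000500040000000010154051100001000100154400011000 := rS 0x410c47f5b918be9f (k8 c4384 c4382 c4200 c9550 c1311 c9121 c5124 c4407 k0) (by decide +kernel)
def c11185 : PP 8 4 T 0x420000002000000040100000500441010045510554051101000004180154401055800 := rS 0x8961b3c7b436330530c53ca6d9abc8c924964f209ec37452624e20e5 (k8 c11030 c4468 c4413 c10080 c4451 c4292 c702 c4433 (k8 c4297 c4434 c11155 c7463 c325 c2063 c2018 c2017 (k8 c7718 c4488 c1933 c11184 c4391 c2286 c1519 c9009 (k2 c6175 c2123 k0)))) (by decide +kernel)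
def c11186 : PP 8 4 T 0x2400000002000000000000040100014051101504410000020000000010140050000000 := rS 0xc4789a5c2d57ab747a747eab880a440e5 (k8 c11030 c4466 c834 c4468 c4415 c401 c10547 c4388 (k8 c4353 c4354 c4389 c11040 c6745 c7514 c1967 c11080 k0)) (by decide +kernel)
def c11187 : PP 8 4 T 0x400000002000000040100000100000011140510000110100000000010000050010820 := rS 0xc71e2c892368a9cd0e9355a8e202d4bb953a3f308e4f61b379d456672a84c52a717a853ebb389dcb04c4297e182736804320d1183c4a20 (k8 c4466 c313 c264 c833 c529 c2257 c9668 c5028 (k8 c350 c4467 c4382 c10110 c10080 c311 c1112 c536 (k8 c4825 c4384 c4329 c4432 c4558 c834 c531 c2256 (k8 c2638 c11147 c539 c1107 c4292 c702 c2322 c615 (k8 c401 c10547 c11030 c1196 c391 c4468 c9384 c4415 (k8 c4413 c11158 c1109 c11186 c4470 c11155 c11185 c663 (k2 c2286 c11118 k0))))))) (by decide +kernel)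
def c11188 : PP 8 4 T 0x400000002000000040100000100000011140510000100104000000010000050010820 := rS 0x3398d4355ada2d050a1250e73598b15f11321310a7727b953a3f368041a0f1c9ec366f3a8acce580c9542629538bcbf0c1189c4a20 (k8 c4466 c313 c350 c833 c4467 c4382 c4432 c4558 (k8 c834 c531 c2256 c2257 c311 c2638 c11147 c539 (k8 c1107 c4292 c702 c2322 c264 c529 c9668 c5028 (k8 c401 c10547 c11030 c4297 c1112 c10110 c10080 c11187 (k8 c4412 c1776 c7854 c2519 c1649 c1653 c2330 c390 (k8 c4308 c7660 c9061 c11176 c4424 c9550 c11173 c1519 k0)))))) (by decide +kernel)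
def c11189 : PP 8 4 T 0x2000000000000005040014011500000000210020000044011050000000020 := rS 0x3d5c14a20ad558b52e2f19b44a2e5 (k8 c11030 c4435 c4298 c4294 c4432 c1196 c391 c1885 (k4 c4554 c4468 c2112 c11040 (k2 c332 c7514 k0))) (by decide +kernel)
def c11190 : PP 8 4 T 0x400000002000000000000000000000000140000000000004000000010000050000004 := rS 0x2904598b0c8b55bc506e8f21930627954abe12684f97d430c52a9da627489f5068164845625d7e0acea67379ec72192a9601413020941223148fc02202586c5e4f19b940e95 (k8 c11135 c11050 c11030 c4294 c4297 c4432 c4292 c4434 (k8 c4466 c9668 c401 c834 c833 c230 c313 c4461 (k8 c531 c4462 c311 c2256 c2257 c2322 c702 c1107 (k8 c2638 c539 c11147 c11180 c4377 c4304 c4300 c4305 (k8 c4380 c4306 c4379 c4550 c350 c11183 c4558 c10933 (k8 c4467 c4329 c4382 c4384 c11188 c4437 c829 c10183 (k8 c1961 c1878 c2111 c10207 c10003 c324 c4470 c4353 (k4 c4389 c11189 c7854 c2519 (k2 c9061 c390 (k1 c4308 k0)))))))))) (by decide +kernel)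
def c11191 : PP 8 4 T 0x1400000002000000080000040000400000100000408000100000040050001080000000 := rS 0x18aa54a9a862f51e4b1793c66272688d2239 (k8 c4280 c1153 c4372 c4282 c353 c4294 c4297 c4432 (k8 c4434 c1345 c1079 c4486 c9123 c4385 c866 c1966 (k1 c2111 k0))) (by decide +kernel)
def c11192 : PP 8 4 T 0x1000001000001000080100000000014001000010000055500000000050151000104000 := rS 0xaa7e6328e87101c9241a23 (k8 c4372 c4371 c4281 c4280 c4468 c4563 c4337 c8900 (k2 c5857 c250 (k1 c7517 k0))) (by decide +kernel)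
def c11193 : PP 8 4 T 0x1000001000001000080000000400010001000000044054500000005050141000100200 := rS 0x7e2a8a13ec98b24c760d309f56a47079c16239 (k8 c4280 c1145 c4480 c1415 c4374 c7513 c8975 c9302 (k8 c4371 c1061 c9125 c4471 c7550 c9562 c11192 c1598 (k2 c7581 c7517 k0))) (by decide +kernel)
def c11194 : PP 8 4 T 0x1400001002000000080000040400400010100000400054500000044050141080100200 := rS 0xaa7e143260a9f3903e187d38184dea106a4562395ab947a47 (k8 c4374 c275 c11030 c7513 c4280 c1145 c1153 c4371 (k8 c4551 c11191 c9302 c4480 c8975 c4477 c1415 c11193 (k4 c4384 c4408 c1731 c11192 (k2 c8784 c1598 (k1 c7517 k0))))) (by decide +kernel)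
def c11195 : PP 8 4 T 0x2400000002000000080000040000401000100000000000000000040050001080000000 := rS 0x3154a9534be5ea3c5e4f1989c724d (k8 c4282 c4280 c353 c4294 c4297 c4432 c4388 c4354 (k4 c11148 c9123 c1404 c866 (k2 c1966 c4839 k0))) (by decide +kernel)
def c11196 : PP 8 4 T 0x1400001002000000080000040400400010100000400054500000040050141080100200 := rS 0xa2881f4fec930a4caa3b8b9bc7ce51e8348eb150a447297 (k8 c1194 c4280 c1153 c4551 c1145 c4374 c4371 c275 (k8 c11030 c11194 c11191 c4356 c144 c8954 c1122 c9302 (k4 c7550 c7517 c7516 c4487 (k2 c5857 c4337 k0)))) (by decide +kernel)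
def c11197 : PP 8 4 T 0x1000000000000000000008000000000044080000000000140000000600 := rS 0x7511 (k2 c4413 c9125 (k1 c9680 k0)) (by decide +kernel)
def c11198 : PP 8 4 T 0x400001002000000080000000000401010100000000010004000040010141080000442 := rS 0x13ea33e9fe20558b8f87693a2af136760a99d2ee51e9348e691797446b331c546e5f06aecb459588212239 (k8 c4280 c1153 c4462 c1145 c486 c4476 c11051 c4371 (k8 c488 c11089 c11195 c842 c665 c4372 c752 c4432 (k8 c756 c4374 c4282 c275 c11030 c1194 c7431 c646 (k8 c11196 c1888 c9123 c4454 c11197 c1101 c11043 c4356 (k4 c8954 c4487 c7517 c7516 (k2 c4337 c4414 (k1 c11054 k0))))))) (by decide +kernel)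
def c11199 : PP 8 4 T 0x80140000000000000000010000054080000000000080000104010 := rS 0x154ff040891e2213 (k8 c1638 c4411 c4374 c4276 c4191 c6629 c4406 c9509 k0) (by decide +kernel)
def c11200 : PP 8 4 T 0x1400000002000000080000040100501000000000004014080000045450085000104010 := rS 0x652b17caba5a65891929c14ccc13eada2cb55cb0c82452892446478884d5ed163b2472e5 (k8 c11030 c4280 c7550 c290 c4298 c1774 c1638 c4411 (k8 c4374 c4372 c4281 c4435 c4296 c4433 c9009 c7514 (k8 c7513 c4471 c2113 c8975 c4420 c11199 c4310 c9747 (k8 c9828 c2115 c4166 c4429 c1675 c10455 c4491 c1247 (k1 c2026 k0))))) (by decide +kernel)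
def c11201 : PP 8 4 T 0x1400001002000000080000040100401001000000004014580000041450085000100010 := rS 0xfa7f2a8f94a0f86324e0617284472490691c26c7 (k8 c290 c1638 c4374 c4371 c4281 c4280 c4276 c11030 (k8 c9302 c4480 c7550 c4477 c1415 c4385 c11200 c8954 (k2 c7517 c7516 (k1 c2107 k0)))) (by decide +kernel)
def c11202 : PP 8 4 T 0x400001002000000080000000000400010100000000010004000000010101090000052 := rS 0x106bc309b1370c3b23cdc3b0a8aa2a9d138f49a691797446433585cf64531aec6e5a2cac4105f06a44720b (k8 c270 c4280 c1153 c4371 c488 c4462 c1145 c486 (k8 c4476 c11089 c11051 c842 c4296 c1224 c4431 c492 (k8 c10488 c4372 c752 c4432 c756 c4282 c275 c353 (k8 c10547 c11195 c11198 c2220 c1641 c11201 c1345 c11191 (k4 c4486 c1888 c7751 c4326 (k2 c9123 c640 (k1 c1080 k0))))))) (by decide +kernel)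
def c11203 : PP 8 4 T 0x1002000000080000000040800800044000001014080000000000141080000442 := rS 0x529f6484e0a8855a4c2acd5199d5a9772924d617348bcbe0d2e88c110d (k8 c4330 c4462 c4372 c752 c4371 c488 c4432 c756 (k8 c4431 c492 c4281 c11030 c1194 c4554 c7431 c940 (k8 c2066 c646 c11197 c1973 c2120 c4314 c516 c637 (k2 c6233 c8448 (k1 c9603 k0))))) (by decide +kernel)
def c11204 : PP 8 4 T 0x400001002000000080000000000000010140000000010004000000010101090000052 := rS 0xc951150cd056384c2a2a43c20daaf4d2f97b144798062a986a9836d128b953a49269a45e433585cf64531aec6e5a2cac4105f06a44720b (k8 c270 c4280 c1153 c4371 c488 c4462 c1145 c486 (k8 c4476 c11089 c11051 c842 c4296 c1224 c4431 c492 (k8 c10488 c4432 c756 c4282 c4281 c10547 c11030 c4435 (k8 c4298 c4292 c11202 c4330 c191 c2007 c4532 c849 (k8 c4486 c4354 c11148 c9123 c9441 c5506 c4479 c10041 (k8 c11203 c2220 c1638 c290 c9383 c4191 c4464 c7403 (k2 c1726 c937 k0))))))) (by decide +kernel)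
def c11205 : PP 8 4 T 0x2000000000000000040000800044000001014080000000001140080000442 := rS 0xa4a71009c1510ab49854cead4b945ca6b0b9a45e08 (k8 c4462 c4432 c756 c4431 c492 c11030 c4435 c1194 (k8 c4554 c7431 c646 c11197 c1973 c2120 c4314 c516 (k4 c4794 c9747 c8448 c7769 k0))) (by decide +kernel)
def c11206 : PP 8 4 T 0x400001002000000080000000000000010140000000010004000000010100090000052 := rS 0x2898e663fc1542130a8a90f08189b55e9a5f2f6286047aa61a240d93da2514e9249a691797446433585cf64531aec6e5a2cac4105f06a44720b (k8 c270 c4280 c1153 c4371 c488 c4462 c1145 c486 (k8 c4476 c11089 c11051 c842 c4296 c1224 c4431 c492 (k8 c10488 c4372 c752 c4432 c756 c4282 c4281 c10547 (k8 c4435 c4298 c4297 c4292 c11204 c4381 c1503 c1423 (k8 c4477 c4486 c4354 c11148 c9123 c9441 c5506 c1966 (k8 c4479 c10041 c11205 c2220 c1638 c1734 c9383 c673 (k4 c4191 c7228 c7403 c1463 k0))))))) (by decide +kernel)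
def c11207 : PP 8 4 T 0x400001002000000080000000000000010140000000010004000000010000090000052 := rS 0x1050a8f8cc29162ccb459 (k8 c486 c4476 c665 c11206 c142 c910 c392 c647 (k2 c4310 c7344 k0)) (by decide +kernel)
def c11208 : PP 8 4 T 0x400001002000000080000000000000000140000000000004000000010000010000014 := rS 0x8b8fc762d3a24a22673218cb4082c82c00e5038f43c95 (k8 c11135 c11190 c275 c11050 c11030 c4461 c270 c486 (k8 c4462 c4476 c842 c11207 c151 c4412 c579 c578 (k4 c910 c9680 c1122 c4417 (k1 c4471 k0)))) (by decide +kernel)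
def c11209 : PP 8 4 T 0x40000000000001400001002000000080400040104411000101050400055500000045010001081004000 := rS 0x32546758ca493678a2af104bf409c0de4b0d85c9e45088e49a0d1bb0c82e5 (k8 c11030 c4433 c9009 c272 c4371 c4282 c4280 c4276 (k8 c4296 c4297 c4431 c4292 c4434 c11191 c4480 c1421 (k8 c1513 c2108 c2114 c4452 c588 c2018 c11043 c4447 (k4 c1656 c9163 c586 c5857 k0)))) (by decide +kernel)
def c11210 : PP 8 4 T 0x14000810054000001154010000000000000000000000 := rS 0xd6af (k2 c868 c1969 (k1 c2120 k0)) (by decide +kernel)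
def c11211 : PP 8 4 T 0x40000000000001400001002000000080400040014401010154050001151094000004010001081004000 := rS 0x5c3790d36853b8f5625f31a852239 (k8 c4280 c1153 c4551 c842 c577 c624 c275 c7751 (k4 c10110 c11210 c277 c11062 (k2 c11209 c841 k0))) (by decide +kernel)
def c11212 : PP 8 4 T 0x2000000080000000000400000000000000200480000000000005001000000 := rS 0x29462a91793c664d (k8 c4282 c4294 c4297 c4432 c2843 c1878 c1883 c4839 k0) (by decide +kernel)
def c11213 : PP 8 4 T 0x1400001002000000080000000010401010140000001051094000000010001080140800 := rS 0x65aae96523e9fd123f0d85da251729341a472a83c5abb488e50e692f8644e63 (k8 c842 c353 c2201 c577 c11212 c10041 c4280 c1153 (k8 c11061 c2359 c2199 c2200 c4374 c4371 c4282 c11030 (k8 c4435 c4298 c4431 c4292 c398 c7030 c7517 c7516 (k4 c2109 c4456 c1943 c2022 (k1 c11211 k0))))) (by decide +kernel)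
def c11214 : PP 8 4 T 0x1400001002000000080000040100401004101000400000100000045010001081004000 := rS 0x26e8abc412fd02703792c3617279048a111c9341a37 (k8 c272 c4371 c4282 c4280 c4276 c4296 c4433 c4297 (k8 c4431 c4292 c4434 c11191 c4480 c1421 c1513 c2108 (k4 c2114 c4452 c2018 c11043 k0))) (by decide +kernel)
def c11215 : PP 8 4 T 0x1600001002000000080100040100405050100000401000180000004010001081004000 := rS 0xb7479b8e28240c20d6bd4c908961b0b93c4211268346ea1488e50a691397d26b95ab947a47 (k8 c4374 c275 c11030 c7513 c7514 c4413 c577 c353 (k8 c11212 c10110 c4280 c1153 c4551 c272 c4371 c4282 (k8 c4276 c86 c4297 c4431 c4292 c4434 c11214 c1927 (k8 c2015 c581 c4479 c4439 c2108 c589 c4480 c1345 (k2 c1078 c11040 k0))))) (by decide +kernel)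
def c11216 : PP 8 4 T 0x1600101002000000080100040100405050100000401000080000004010001081044000 := rS 0xfac65b9fcdc5c5aae5ca3d088e49247318dc7693 (k8 c4413 c1101 c272 c842 c4374 c4281 c4280 c4276 (k8 c275 c11030 c7514 c7513 c11215 c841 c1458 c1078 (k2 c2113 c1351 (k1 c7317 k0)))) (by decide +kernel)
def c11217 : PP 8 4 T 0x1400100002000000080100040410400010140040601155510000008010001080004000 := rS 0x110c04d108dc7c1ba85223943a8d5710 (k8 c4478 c4415 c4337 c10041 c4280 c1153 c4551 c272 (k4 c4560 c1691 c11191 c11062 (k2 c405 c11210 (k1 c1985 k0)))) (by decide +kernel)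
def c11218 : PP 8 4 T 0x1400001002000000080000000010401050140000001051094000000010001080040800 := rS 0x110c34d1b8b87f3a0f9569f883260a1443a14ee6913845620f598f4be635da447219 (k8 c2201 c4280 c1153 c11061 c842 c577 c275 c663 (k8 c2199 c624 c4276 c353 c11212 c7751 c10110 c10041 (k8 c11213 c4308 c630 c4478 c6233 c4415 c11216 c399 (k4 c11063 c11217 c841 c11062 (k2 c2059 c11210 (k1 c597 k0)))))) (by decide +kernel)
def c11219 : PP 8 4 T 0x1000000000000000000000800000000000000001480000000000000000000000 := rS 0xbb0d (k2 c4330 c2838 (k1 c4477 k0)) (by decide +kernel)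
def c11220 : PP 8 4 T 0x2000000000000000010000810044000001154011000000000000001100800 := rS 0x55305121b0bb44a2e5 (k8 c11030 c4435 c4298 c4431 c4292 c7030 c4687 c11210 (k1 c1972 k0)) (by decide +kernel)
def c11221 : PP 8 4 T 0x400001002000000080000000010001010140000001051094000000010001080040800 := rS 0x3a8f910b855c420a144fa8618c34d17484b55eadd1e878a1a46ee5138f49a5531aed22390ca9cbe97 (k8 c928 c577 c11219 c2201 c4280 c1153 c11061 c842 (k8 c2200 c4282 c275 c353 c11030 c272 c11212 c11218 (k8 c10041 c4388 c4353 c4354 c4389 c11195 c840 c9123 (k8 c2055 c4477 c4329 c4384 c11220 c4308 c4478 c4415 (k4 c11040 c11210 c7514 c597 (k1 c399 k0)))))) (by decide +kernel)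
def c11222 : PP 8 4 T 0x1000000000000000000000000000000000000001400000000000002000004000 := rS 0xbb0d (k2 c4381 c1335 (k1 c4477 k0)) (by decide +kernel)
def c11223 : PP 8 4 T 0x400001002000000080000000000001010140000001051094000000010000080040800 := rS 0x1be2ab6642d4fa73638547e3b5c9fe082a14c45589717b947a111c9241a47589545a631b9a44a0f5397c3227 (k8 c353 c2201 c577 c11219 c2199 c11222 c11212 c272 (k8 c842 c2359 c2200 c624 c4374 c4371 c4281 c4280 (k8 c4276 c275 c11030 c4432 c928 c11221 c4338 c780 (k8 c4554 c6230 c6629 c6781 c1102 c2223 c287 c290 (k8 c4408 c4409 c7513 c2107 c2113 c4353 c1077 c7550 k0))))) (by decide +kernel)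
def c11224 : PP 8 4 T 0x1002000000080000040100000000005000000080000000001050001011000820 := rS 0x5321b1594bca2afd04cf381f8df1560ad96ab961c598e3f1db24550520915a251728e49247 (k8 c4374 c4281 c4280 c11030 c4435 c4298 c4296 c4433 (k8 c4310 c655 c2611 c1641 c2223 c290 c4471 c9009 (k8 c7514 c7513 c2113 c4420 c4353 c1078 c5279 c4480 (k8 c1521 c5339 c1513 c4452 c589 c677 c8360 c2015 (k2 c2023 c2115 k0))))) (by decide +kernel)
def c11225 : PP 8 4 T 0x400001002000000080000000000000000140000000000004000000010000010000004 := rS 0x22e3b1f9d054153219d0e85348dc4aa75d98cbe13168641eb12d028b261049b402040db953a071089c7a9508a44721e (k8 c11190 c4280 c1153 c4276 c11135 c275 c353 c86 (k8 c11050 c10547 c11030 c4292 c11208 c54 c694 c263 (k8 c614 c10353 c4462 c6846 c624 c2199 c2201 c2359 (k8 c2551 c577 c842 c11061 c11219 c11222 c272 c11212 (k8 c10110 c10041 c11224 c11223 c2556 c7854 c578 c398 (k2 c1641 c4417 (k1 c4471 k0))))))) (by decide +kernel)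
def c11226 : PP 8 4 T 0x400002002000000080000040000401454100000000054400000040050000080100000 := rS 0x27d467f881562e3e728f41a5d3ed154abc5f93c824d2292d2239 (k8 c4280 c1153 c4434 c4296 c4282 c4433 c4297 c5760 (k8 c2114 c1939 c4454 c4379 c4377 c4371 c275 c11030 (k8 c11043 c4356 c8954 c4487 c7517 c4337 c4414 c11058 k0))) (by decide +kernel)
def c11227 : PP 8 4 T 0x400002002000000080000000010001410100000000050080000040010000080000602 := rS 0x26632531db0c543f88a492e2d0a905a251728f4be0d1b83d4e6131aecf26c348bcd61740c24f645 (k8 c4296 c1224 c5101 c4380 c4431 c492 c4432 c756 (k8 c4479 c601 c11057 c842 c4302 c904 c4376 c232 (k8 c4371 c488 c275 c11030 c4435 c4298 c4433 c646 (k8 c910 c928 c11226 c4413 c1122 c11197 c1128 c9680 (k4 c293 c9828 c4166 c4488 k0))))) (by decide +kernel)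
def c11228 : PP 8 4 T 0x100000000000000000000400000010000000000010000000000000200080000002 := rS 0x507c29 (k4 c142 c392 c7344 c647 k0) (by decide +kernel)
def c11229 : PP 8 4 T 0x1000000000000000000000000000000080000000000000140080000242 := rS 0x97 (k2 c1194 c7431 k0) (by decide +kernel)
def c11230 : PP 8 4 T 0x400000002000000080000000000000000140000000000004000000010000010000014 := rS 0x998cb0c7e5429854543b098b60a6659a6ccaad219ecb46c04164d26b058005e1720915a25172a740e3d0f25612fc (k8 c11225 c5101 c11135 c11190 c275 c11050 c10547 c11030 (k8 c4435 c4298 c4296 c4433 c4431 c4432 c4461 c270 (k8 c492 c756 c486 c4462 c4479 c4476 c1224 c10488 (k8 c945 c700 c5506 c665 c11227 c4310 c11228 c511 (k8 c1062 c11229 c2220 c293 c4464 c8954 c9009 c9828 (k2 c4166 c4488 k0)))))) (by decide +kernel)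
def c11231 : PP 8 4 T 0x1000002000000000015000000000000050080000044080000045000000081000000 := rS 0x21e96521da4e210520915a251 (k8 c4435 c4298 c4296 c4433 c4313 c6629 c4413 c1101 (k4 c2115 c4456 c1902 c4485 k0)) (by decide +kernel)
def c11232 : PP 8 4 T 0x1000002000000080115000000014000050010000055581000045001100081040000 := rS 0x294442a87510a6087f0d85da251 (k8 c4435 c4298 c4431 c4292 c11231 c8784 c7581 c2118 (k4 c4410 c4308 c4337 c2109 (k1 c4712 k0))) (by decide +kernel)
def c11233 : PP 8 4 T 0x2002000000080004010000010000840000000214480000041000000090000820 := rS 0x2963b298a5582a889993eb5608fcea4122b948e5d64984fb09009545a13188652e898ca698a76 (k8 c845 c1096 c844 c4448 c2041 c2934 c2201 c1878 (k8 c2551 c2359 c2200 c54 c5101 c4379 c4302 c4305 (k8 c4377 c4374 c11030 c4296 c4433 c10396 c399 c1893 (k8 c7513 c1427 c11232 c4334 c655 c924 c774 c4712 (k2 c1641 c4458 (k1 c4759 k0)))))) (by decide +kernel)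
def c11234 : PP 8 4 T 0x400000002000000080000000000000000140000000000004000000010000010000004 := rS 0x29a1c521588991428e5caf22b0d55b0e32bf21a2462764d2a4f268a2a1176632f84c5a192a9ecb40a049b40909379841efc48934721b0bb44a207108f43c95 (k8 c11135 c11190 c275 c86 c11050 c4435 c4298 c4431 (k8 c4292 c4280 c4282 c1153 c11225 c4376 c4302 c4378 (k8 c5101 c11230 c694 c263 c4462 c6846 c702 c2200 (k8 c2201 c2359 c2551 c577 c842 c11061 c11065 c4397 (k8 c10110 c1961 c2843 c844 c845 c1878 c2041 c10207 (k8 c7782 c4448 c2059 c3801 c5264 c11148 c4493 c1207 (k8 c4486 c4551 c11233 c4412 c2556 c1566 c1652 c4712 (k1 c2109 k0)))))))) (by decide +kernel)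
def c11235 : PP 8 4 T 0x1000000000040000000000000000000000000000080000000000004000005202 := rS 0x20b1 (k2 c1146 c4463 (k1 c9117 k0)) (by decide +kernel)
def c11236 : PP 8 4 T 0x400001002000000040000000000001000140000001016080000040010140080000442 := rS 0x18abd34be072a41b0d13820d6172fa1cd22f (k8 c4432 c756 c10041 c577 c4431 c492 c4462 c353 (k8 c4326 c503 c976 c11235 c11092 c5760 c9441 c1966 (k1 c11205 k0))) (by decide +kernel)
def c11237 : PP 8 4 T 0x40000000000001000001000001000040410000102000000000010004055501000004050140000100000 := rS 0x146cfa1b1d6c38 (k4 c4470 c11093 c410 c4424 (k2 c1796 c4241 (k1 c7105 k0))) (by decide +kernel)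
def c11238 : PP 8 4 T 0x400001002000000040000000000001400140000401055080000045010040080000602 := rS 0x3c260e31465ab912a8529f55655a59bd062506174a40f62afc96d12889cf6450aab50a8740c20d617348bc22bb1bac4be916190583161da4c5ae5 (k8 c11030 c910 c11197 c1101 c4471 c4420 c4433 c9009 (k8 c888 c577 c624 c11089 c6994 c606 c4432 c756 (k8 c4431 c492 c4479 c4439 c10041 c5976 c4554 c646 (k8 c4296 c1224 c353 c4435 c4298 c4434 c5760 c7718 (k8 c11092 c2115 c753 c4463 c11222 c4570 c8928 c4456 (k8 c9029 c1943 c1292 c10933 c9530 c7030 c7031 c8140 (k4 c11237 c4387 c10618 c7040 (k1 c1928 k0)))))))) (by decide +kernel)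
def c11239 : PP 8 4 T 0x2000000000000000000000810044000001010080000040000140080000442 := rS 0xc55e63 (k4 c842 c868 c1966 c11205 k0) (by decide +kernel)
def c11240 : PP 8 4 T 0x400001002000000040000000000001010140000001050084000040010040080000442 := rS 0x19f43a5b2cfcae4faad46a8529f5131041894185d2ac5c1e3e5fa6c6eb148844c281439de10852589c7a6b0b9a4be154bab45e931698c10e5 (k8 c11030 c4462 c842 c910 c11197 c4432 c4554 c928 (k8 c646 c577 c756 c4431 c492 c275 c353 c4434 (k8 c5976 c4479 c7751 c10041 c4439 c11236 c606 c888 (k8 c624 c11089 c11239 c5760 c11238 c11092 c4356 c8954 (k8 c753 c4463 c11222 c4570 c4487 c7030 c1292 c10933 (k8 c9530 c4337 c4415 c4414 c8142 c11131 c8140 c4428 (k2 c4392 c1521 (k1 c7105 k0)))))))) (by decide +kernel)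
def c11241 : PP 8 4 T 0x1001000001000040000000000000000050400000054500800000000144000112000 := rS 0x2621490c851b1cff043ea1cab4b50a7e1861 (k8 c503 c4477 c4384 c4329 c4456 c9029 c1903 c1292 (k8 c4485 c4313 c1447 c4241 c5857 c9121 c716 c372 (k1 c4248 k0))) (by decide +kernel)
def c11242 : PP 8 4 T 0x2000000000010000000000000000000000000000400045400000000000000 := rS 0x60459864122b44a2e5 (k8 c11030 c4435 c4298 c4296 c4433 c9009 c4471 c2115 (k1 c4420 k0)) (by decide +kernel)
def c11243 : PP 8 4 T 0x400001002000000040000000000001010140000000050084000040010040080000442 := rS 0xb78a9d0e105649f8fa732ac5c7c534fc31066f308441837589741ec55fa253709360ed26e5138f4106b0b9a45eb32f98c2a2d (k8 c910 c646 c842 c577 c665 c4432 c756 c4431 (k8 c492 c4462 c275 c353 c11030 c11197 c1101 c11240 (k8 c4318 c5506 c680 c5760 c7718 c11092 c753 c1146 (k8 c232 c11235 c9117 c503 c1289 c508 c4477 c4384 (k8 c11241 c11242 c4356 c8954 c1082 c1292 c11131 c155 (k4 c4313 c10049 c4481 c4387 (k2 c1744 c11093 k0))))))) (by decide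 +kernel)
def c11244 : PP 8 4 T 0x400200002000000000004000400001000040000101510004000040000080000100000 := rS 0xac4c26ca51918064ef080d85da25109a1d1255 (k8 c4406 c4314 c4410 c1638 c4435 c4298 c4431 c4292 (k8 c4479 c7751 c4436 c9383 c9062 c2109 c1966 c4488 (k2 c293 c2050 k0))) (by decide +kernel)
def c11245 : PP 8 4 T 0x400001002000000040000000000000010140000000050084000000010000090000442 := rS 0x778c8618853569b0eb166195512871fc10263b1525c2a1b20b44a2e54e8f40a691790cd6173d8208ab3 (k8 c665 c4296 c4462 c1224 c4431 c492 c10488 c4432 (k8 c756 c263 c275 c10547 c11030 c4435 c4298 c4433 (k8 c4292 c646 c928 c11243 c1641 c1638 c4191 c289 (k8 c4410 c4314 c4406 c9009 c4471 c4417 c11244 c945 (k4 c293 c11242 c2109 c9828 (k2 c1096 c4152 k0)))))) (by decide +kernel)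
def c11246 : PP 8 4 T 0x1000000000040000011000000800100000000082082000001010104010100202 := rS 0x12448b71ba844639389fc8e0e48b1c1a5d868ec263f (k8 c8954 c511 c1062 c4326 c121 c503 c7342 c6992 (k8 c11235 c1603 c7414 c585 c4528 c1327 c897 c233 (k4 c7094 c4467 c283 c2113 k0))) (by decide +kernel)
def c11247 : PP 8 4 T 0x400000002000000040500000000000000000000000500480400045050004080048600 := rS 0x3199b455b9248ebe1cae56b1672d2d883b (k8 c1062 c11242 c4429 c11030 c4471 c4419 c7514 c4528 (k8 c11092 c1332 c243 c7094 c4399 c1485 c2113 c7284 k0)) (by decide +kernel)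
def c11248 : PP 8 4 T 0x400001002000000040000000000000010140000000010084000000010000090000442 := rS 0xfcce512a0ba0f658dd92a758a44226142a94daac4d2ae96b54cc6589165cb0c7e5429abc2a3b1504c5b118299882d128b953a271e9a45e433585cf60822accbe63 (k8 c842 c577 c665 c4296 c4462 c1224 c4431 c492 (k8 c10488 c4432 c756 c275 c353 c10547 c11030 c4435 (k8 c4298 c4433 c11245 c4310 c4334 c11228 c511 c11229 (k8 c1062 c2220 c1774 c9747 c4464 c8954 c9009 c7514 (k8 c4471 c11242 c9828 c4166 c4419 c4429 c1675 c4488 (k8 c4491 c5506 c1971 c5976 c11246 c606 c888 c624 (k8 c4532 c632 c11089 c2026 c11247 c753 c8696 c948 (k2 c949 c8633 (k1 c1521 k0))))))))) (by decide +kernel)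
def c11249 : PP 8 4 T 0x400001002000000000000000000000000140000000000004000000010000010000404 := rS 0x1171f8ec5a7449444ce6431968005902821ca071e8792ad3 (k8 c11234 c11135 c11190 c275 c11050 c11030 c4462 c263 (k8 c1106 c4461 c4476 c842 c11248 c151 c4412 c579 (k4 c578 c910 c9680 c1122 (k2 c4417 c4471 k0)))) (by decide +kernel)
def c11250 : PP 8 4 T 0x2000000040040400014000000154000001156080800040050004000000020 := rS 0x15e6b50a99769124a3e287112395625f (k8 c577 c2607 c11030 c615 c2563 c6986 c849 c2217 (k4 c889 c4390 c10322 c4212 (k2 c2009 c908 (k1 c2120 k0)))) (by decide +kernel)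
def c11251 : PP 8 4 T 0x400001002000000040000000000001010140000401150091000045010144001120820 := rS 0x4511d193ad157a938b131983b242d48f43642ed430c30aad46bf291f4e6c74da24ff040d85da25106acc265f2e8dd62976190572ad728bd0e63 (k8 c842 c10041 c4432 c11030 c4554 c7514 c4433 c9009 (k8 c928 c2607 c319 c11106 c577 c2551 c663 c569 (k8 c4435 c4298 c4431 c4292 c4464 c7517 c7030 c11220 (k8 c406 c4408 c4409 c2109 c5760 c4241 c1943 c11250 (k8 c4477 c4329 c4825 c5857 c4422 c1582 c1705 c4473 (k8 c1723 c373 c372 c4471 c9125 c2068 c4451 c4417 (k4 c9062 c7622 c4493 c4388 k0))))))) (by decide +kernel)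
def c11252 : PP 8 4 T 0x600000002000000000085140000001411500000000002000000044050004000000020 := rS 0x4cabd4cca62afc964f209155693 (k8 c4413 c4415 c4296 c4433 c4297 c4434 c5760 c7718 (k4 c4246 c10322 c8140 c2011 (k1 c7287 k0))) (by decide +kernel)
def c11253 : PP 8 4 T 0x400000002000000040000000010001010140000001152090000045450004000200820 := rS 0x17ccba593510314d33e86c65eadd7691238e4928f8a1c4487f8693d62976190572874f97d46ab49c420a635ab062ce5 (k8 c11030 c4471 c4420 c4419 c842 c4308 c4478 c4413 (k8 c4415 c4337 c577 c6233 c10041 c7514 c4433 c9009 (k8 c928 c2607 c4297 c4326 c2653 c615 c2563 c6986 (k8 c849 c367 c2214 c1371 c889 c4390 c4353 c4354 (k8 c2113 c11164 c1519 c11252 c1966 c11210 c284 c4457 (k2 c2025 c9891 (k1 c9033 k0))))))) (by decide +kernel)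
def c11254 : PP 8 4 T 0x1000000000000000040000001100510000001100001555500800000050000000200800 := rS 0xa941b3e867e65b24fac7381bc700951c420b4b (k8 c4456 c4308 c4478 c4337 c84 c4470 c1073 c359 (k8 c2377 c8975 c2564 c2023 c4560 c4392 c1521 c677 (k2 c7105 c2119 k0))) (by decide +kernel)
def c11255 : PP 8 4 T 0x2200000000000000000000011000014051100000000000000000000000000000000000 := rS 0x16e8f (k2 c4388 c4353 (k1 c11040 k0)) (by decide +kernel)
def c11256 : PP 8 4 T 0x1400001002000000040000000000101400101000001155080002045450000001200820 := rS 0x2884c5ec6506783532d025262afd26a75db1cfcc93828e210550c30be7d378e012b15ac59ca5d (k8 c11106 c11030 c4471 c4419 c2607 c84 c4470 c1073 (k8 c8975 c577 c4477 c4329 c4308 c4478 c4337 c359 (k8 c2564 c4560 c2377 c4825 c4532 c4413 c5760 c7718 (k8 c11242 c10232 c2023 c11254 c580 c677 c4447 c2016 (k2 c372 c4493 (k1 c4451 k0)))))) (by decide +kernel)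
def c11257 : PP 8 4 T 0x400001002000000040000000000001010140000001150004000044010040080000800 := rS 0x14c626b57a057e9a14920fcc93e9c0de388aa8618a553a44c2b58b0ed26ab51a7e21050a1dc963322b44a2270495432591097cc6850d9746eb10803c1a044b969723d56b945a2f (k8 c4432 c2359 c11030 c4554 c275 c7514 c271 c928 (k8 c270 c569 c2199 c4463 c2607 c319 c11106 c4292 (k8 c710 c842 c577 c86 c535 c2201 c2200 c84 (k8 c353 c4435 c4298 c4296 c4294 c4434 c7751 c11251 (k8 c4308 c4478 c6233 c4337 c4415 c4413 c1101 c4471 (k8 c4419 c11253 c888 c4532 c10323 c4477 c4329 c11255 (k8 c4470 c1073 c359 c8975 c2564 c4560 c671 c1720 (k8 c11256 c1240 c10232 c868 c1969 c1966 c11254 c2112 k0)))))))) (by decide +kernel)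
def c11258 : PP 8 4 T 0x400001002000000000000000000000000140000000050004000044010040010000004 := rS 0x2965351b1d0e9f50b2d7a4d67c314f44309fd82bb62a057eab41a254a313b1bcf2a957c24d0ad258bc2e4f22b44a29d10824f619169b402132f98d0a1b2e8dd621007834b4040534d86411e8792ae5 (k8 c11030 c11135 c11190 c275 c4433 c9009 c11234 c11249 (k8 c270 c271 c569 c2199 c4463 c2607 c319 c11106 (k8 c4292 c710 c842 c577 c2551 c567 c5028 c2359 (k8 c2201 c702 c84 c86 c10547 c4435 c4298 c4296 (k8 c4297 c4431 c4432 c4434 c4554 c11257 c4437 c829 (k8 c10183 c1961 c10361 c845 c1878 c1883 c2041 c2001 (k8 c1885 c7782 c10232 c1096 c1890 c7477 c11231 c885 (k8 c4484 c11219 c4477 c4400 c4451 c4454 c4455 c4329 (k4 c4384 c4954 c4246 c4241 (k2 c4765 c4545 (k1 c9918 k0))))))))))) (by decide +kernel)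
def c11259 : PP 8 4 T 0x400001002000000000000000000000000140000000050004000044010000010000004 := rS 0x1a0606b3a94912878b4102aaf1dc44541b0bb44a29d2a8645ab336804265a0202986411e8792ae5 (k8 c11030 c11135 c11190 c275 c4433 c9009 c11249 c270 (k8 c271 c2551 c567 c5028 c663 c2359 c2201 c2200 (k8 c10547 c4435 c4298 c4431 c4292 c11258 c4411 c1641 (k8 c1774 c287 c4904 c4471 c9141 c7030 c2109 c4417 (k4 c9074 c292 c11244 c1878 k0))))) (by decide +kernel)
def c11260 : PP 8 4 T 0x600101000000000000000011010104050120000000002080000000000000000000020 := rS 0x28acc41320fb43502dd228f8a1c4ff0d5898d4693 (k8 c4413 c4337 c842 c2607 c4326 c2653 c2563 c6986 (k8 c849 c889 c4353 c11255 c11164 c1624 c5930 c4529 (k2 c637 c4452 (k1 c5541 k0)))) (by decide +kernel)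
def c11261 : PP 8 4 T 0x400001002000000040000000010000010140000001050000000084010000080000800 := rS 0x1cc5576a186244c2b58b0ed109355a7e21050a154b2212f9746eb10803c1a044bae5ca3d52a690e6918064c65a (k8 c271 c842 c2201 c276 c1878 c10041 c277 c1971 (k8 c275 c11030 c7514 c928 c270 c569 c2199 c4463 (k8 c2607 c319 c11106 c577 c86 c535 c2200 c11220 (k8 c4308 c4478 c6233 c4415 c4413 c11210 c1101 c4471 (k8 c4419 c11260 c888 c4477 c4329 c4825 c11255 c365 (k1 c4470 k0)))))) (by decide +kernel)
def c11262 : PP 8 4 T 0x40011000000000100000000002080800005450010000000820 := rS 0x16e47248e62824 (k4 c615 c6986 c2214 c2217 (k2 c1372 c4353 (k1 c2113 k0))) (by decide +kernel)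
def c11263 : PP 8 4 T 0x400001002000000000000000000000000140000000050004000004010000010000004 := rS 0x41331524847ade283923aed3f0c30ad62cc7290ec542956206106b34a693230212e45e17728847a950c8b4da012f9746eb10803c1a5a020283cd3 (k8 c11234 c11190 c11249 c270 c271 c569 c2199 c4463 (k8 c2607 c319 c11106 c577 c567 c5028 c2359 c2201 (k8 c11135 c275 c86 c11030 c4431 c4432 c7514 c11259 (k8 c276 c1927 c277 c1878 c581 c4479 c4439 c11261 (k8 c780 c4554 c6892 c2046 c2226 c4471 c4419 c11262 (k8 c4477 c4384 c4825 c1642 c365 c4470 c7094 c4388 (k4 c2113 c866 c373 c9576 (k1 c7980 k0)))))))) (by decide +kernel)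
def c11264 : PP 8 4 T 0x400100002000000040000000014001010141000201052000001000050000080000800 := rS 0xc3442690e695ea4473143889008192c884c65a (k8 c271 c842 c86 c535 c2201 c270 c615 c2563 (k8 c6986 c2214 c889 c4354 c10351 c10041 c11103 c11210 (k2 c2059 c597 k0))) (by decide +kernel)
def c11265 : PP 8 4 T 0x1000000000000000000000040000000040000055500000008200000000000800 := rS 0x5b31c1274 (k4 c399 c84 c2377 c11104 (k1 c1162 k0)) (by decide +kernel)
def c11266 : PP 8 4 T 0x4000100000000000000090100004000000044040001154080020040000000000000000 := rS 0xf11835306968961abca4ca (k8 c413 c412 c8140 c2028 c2025 c4456 c1982 c6907 (k2 c4494 c580 (k1 c4447 k0))) (by decide +kernel)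
def c11267 : PP 8 4 T 0x4400100002000000040290040014000010140040001150090000040150000080000000 := rS 0x8866a697c4d4398d7b14 (k8 c4470 c4354 c842 c10041 c11266 c9891 c9123 c1486 (k2 c11210 c637 k0)) (by decide +kernel)
def c11268 : PP 8 4 T 0x400001002000000000000000000000000140000000050004000040010000010000004 := rS 0x144262057e83189bcf2a9849a09e33049ec325910b148a2553a944e4b5db20fa236350c8eb848ad628393f98d430c30aae0a14568adca2f3a1250a1b368053a5f2e8dd621007834089f69a8e209316a562e3e4b968141e (k8 c11190 c11249 c271 c928 c11263 c4356 c11135 c2359 (k8 c1122 c4487 c4337 c11234 c4414 c270 c569 c2199 (k8 c4463 c2607 c319 c11106 c577 c10547 c567 c5028 (k8 c4292 c710 c2332 c399 c4432 c11030 c289 c4554 (k8 c398 c4308 c4415 c11264 c4477 c4329 c842 c671 (k8 c11265 c4470 c4389 c888 c11255 c1315 c4394 c4473 (k8 c1449 c1690 c8784 c4825 c4434 c353 c10323 c11219 (k8 c279 c4296 c1248 c86 c535 c2201 c702 c84 (k8 c4294 c4297 c11267 c4437 c10183 c1961 c10361 c1878 (k4 c2001 c7782 c10232 c2111 (k2 c4484 c4451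 k0))))))))))) (by decide +kernel)
def c11269 : PP 8 4 T 0x400001002000000000000000000000000140000000050004000000010000010000004 := rS 0x89439acd2c0619dd3230212ad5b103a0ad27171f25c5ee54e8847a7b0d8645a632d0283c95 (k8 c11135 c11190 c11249 c271 c842 c2359 c2201 c4292 (k8 c702 c275 c86 c10547 c11030 c4432 c928 c11263 (k8 c4356 c1122 c289 c399 c4487 c4554 c4415 c11268 (k8 c276 c1927 c1886 c2055 c405 c1878 c581 c1693 (k2 c597 c8008 k0))))) (by decide +kernel)
def c11270 : PP 8 4 T 0x101000000000000140011100000000000000000002000000005450010000200820 := rS 0x8e395b924487f (k4 c2653 c615 c367 c5279 (k2 c2214 c1372 (k1 c2113 k0))) (by decide +kernel)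
def c11271 : PP 8 4 T 0x500000002000000000000000050001000000000000000000000045400080000000000 := rS 0x55d2d8853 (k4 c293 c11242 c4429 c1675 (k1 c4491 k0)) (by decide +kernel)
def c11272 : PP 8 4 T 0x101000000000000000000022000000001000000015100000000000000000000000 := rS 0x1f99ca2 (k4 c948 c949 c8633 c1521 k0) (by decide +kernel)
def c11273 : PP 8 4 T 0x40000000000000400101000000000010540011101501100000000001501500000405450000000000800 := rS 0x137195e1e0e06f8a8e16e493fb368a8240c20130c (k8 c4477 c84 c4479 c4439 c9576 c4452 c2065 c677 (k8 c4573 c5279 c2113 c4348 c1073 c359 c9304 c589 (k2 c4447 c2018 (k1 c4488 k0)))) (by decide +kernel)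
def c11274 : PP 8 4 T 0x500101002000000000140000140101000041000001015580000041450080001000800 := rS 0x14d8a313b1a152cb4c9ae96ac68b0c82b95ac59ca3f5391d3f0c (k8 c4477 c4384 c1642 c11219 c2223 c11030 c4471 c4419 (k8 c7514 c4433 c9009 c4298 c11271 c4458 c2049 c2050 (k8 c2026 c11272 c11273 c845 c1878 c1096 c292 c11242 k0))) (by decide +kernel)
def c11275 : PP 8 4 T 0x400001002000000000000000000000000140000000010004000000010000010000004 := rS 0xad443368a82409f99f4354c20908f359a56f144d26460392111d769f862954e615aae62cc71f8ed5e290a32455118299896d172a7442271e864da012f98d2a850d9746eb10803c1a5a020283cd3 (k8 c11234 c11190 c11249 c270 c271 c569 c2199 c4463 (k8 c2607 c319 c11106 c4292 c710 c11135 c842 c577 (k8 c567 c5028 c2201 c275 c353 c86 c10547 c11030 (k8 c4298 c4434 c11269 c4310 c4334 c655 c2611 c654 (k8 c774 c984 c1641 c2223 c2226 c4471 c7514 c4419 (k8 c11270 c11219 c10323 c4477 c4384 c4825 c1642 c11274 (k8 c365 c276 c1927 c277 c4470 c7094 c1878 c581 (k8 c4388 c2113 c4479 c866 c4421 c1790 c367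 c4439 (k4 c9576 c4452 c2065 c676 (k2 c6601 c5289 k0)))))))))) (by decide +kernel)
def c11276 : PP 8 4 T 0x400001002000000000000000000000000140000000000004000000010000010000004 := rS 0x8b8ec7e7415054c81316968080a728f43c95 (k8 c11135 c11190 c275 c11030 c11249 c270 c271 c2359 (k8 c2551 c11275 c2556 c7854 c578 c398 c1641 c4417 (k1 c4471 k0))) (by decide +kernel)
def c11277 : PP 8 4 T 0x8400200000000000000014000400001400054004400400000000000000000000000000 := rS 0x130788c9cceac1 (k4 c4420 c4417 c4408 c9062 (k2 c9460 c4488 (k1 c1928 k0))) (by decide +kernel)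
def c11278 : PP 8 4 T 0x400002002000000040000000000001010140000001050084000044010040080000442 := rS 0x38632d946124fc420a892a9498abf4da1cee272e8459283309bcfa7b228dc1e6b0b9a45eb32f85586418b0ed262d31821ca3d (k8 c275 c11030 c4462 c842 c392 c11197 c1101 c4471 (k8 c4433 c9009 c384 c577 c665 c4432 c756 c4431 (k8 c492 c4376 c232 c4296 c1224 c4379 c4378 c4302 (k8 c4306 c4305 c4300 c4377 c353 c7751 c10041 c11239 (k8 c5760 c7718 c11242 c9029 c7030 c11277 c4478 c6233 (k4 c4464 c4337 c11096 c11097 (k2 c7094 c410 k0))))))) (by decide +kernel)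
def c11279 : PP 8 4 T 0x400002002000000040000000000001010140000000050084000044010040080000442 := rS 0xc7508e13f153f9ce0887a59498a894dc24d8758b0ed265d58b24c26f488dc1eb32f98c5a15042e5ca3d (k8 c275 c11030 c7514 c4462 c384 c392 c842 c577 (k8 c665 c4376 c232 c4550 c4378 c4302 c4305 c4304 (k8 c4377 c11197 c1101 c4471 c4417 c11278 c4318 c5506 (k8 c680 c7718 c11242 c4456 c1903 c4485 c7619 c4313 (k4 c9531 c9562 c4470 c4551 (k2 c410 c8715 k0)))))) (by decide +kernel)
def c11280 : PP 8 4 T 0x400002002000000040000000000000010140000000050084000004010000090000442 := rS 0xda755645a08af1dc4454d14e814d22f219ac2e7b22acc2a08619047ae5 (k8 c11030 c275 c4433 c9009 c4462 c384 c665 c4296 (k8 c1224 c4431 c492 c10488 c4432 c756 c263 c10547 (k8 c4298 c11279 c4411 c1641 c1774 c4191 c4471 c11271 (k2 c4417 c945 (k1 c11244 k0))))) (by decide +kernel)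
def c11281 : PP 8 4 T 0x40000000000000000100002000000040060001000110800001100105501500400404510004001014200 := rS 0xa7062a44acb479216f140d8bc2e37 (k8 c232 c4431 c4432 c4292 c4470 c7094 c4559 c4388 (k4 c1756 c283 c866 c9047 (k2 c4558 c8375 k0))) (by decide +kernel)
def c11282 : PP 8 4 T 0x400002002000000040000000000000010140000000010084000004010000090000442 := rS 0x29d52255f8e14a850ca68db4b5a8c533196211d8eac8b14ca8af1d84ceaa1154460a66618545a9720b44a2e54e89c7a5d08a041e61379f522691790cd6173d8208a5f (k8 c577 c4296 c4462 c1224 c4431 c492 c10488 c4432 (k8 c756 c4550 c4379 c4378 c4302 c4376 c4380 c4300 (k8 c4377 c275 c353 c10547 c11030 c4435 c4298 c4433 (k8 c6579 c392 c384 c9009 c11280 c4310 c4334 c11229 (k8 c896 c593 c511 c1641 c1774 c4464 c9747 c4471 (k8 c11271 c250 c1602 c11242 c9828 c4166 c2046 c4419 (k8 c4458 c945 c4488 c10711 c5976 c1971 c11281 c1240 (k4 c281 c867 c4558 c8696 k0)))))))) (by decide +kernel)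
def c11283 : PP 8 4 T 0x400000002000000040080000014040000054000001055500000000000004000014002 := rS 0x14aa912a9e96cb062b90a4b3585cd22f16d0d9e4f (k8 c4297 c1519 c4391 c910 c4432 c756 c4431 c492 (k8 c4434 c5976 c8142 c11132 c8140 c4428 c909 c1367 (k2 c7105 c10933 (k1 c8375 k0)))) (by decide +kernel)
def c11284 : PP 8 4 T 0x401002002000000000000000000444011100041000054400000040000004000000200 := rS 0x228a986a80bac9309f4f645 (k8 c4296 c1224 c4379 c4302 c4305 c4377 c2118 c7315 (k2 c7768 c4551 (k1 c9689 k0))) (by decide +kernel)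
def c11285 : PP 8 4 T 0x400002002000000040000000000001011140000000050080000048010004000000202 := rS 0x385c454e870829f94e79849b092c64faad46ad880ad2689439cd2e2d0a8bc2e517297422613e8dc1eb32f98e2e55 (k8 c8954 c4356 c842 c577 c665 c4376 c232 c4379 (k8 c4302 c4300 c4377 c11030 c4435 c4431 c4432 c646 (k8 c910 c928 c1082 c9141 c7030 c1122 c289 c4487 (k8 c4554 c4337 c4415 c4414 c11098 c147 c11283 c4318 (k8 c601 c904 c11284 c4313 c10049 c4481 c4387 c595 (k2 c4470 c1202 k0)))))) (by decide +kernel)
def c11286 : PP 8 4 T 0x400002002000000040000000000000010140000000010084000000010000090000442 := rS 0x54262a16c14cc551f3953a274890cd6173d8208ab3 (k8 c665 c4296 c4462 c1224 c4431 c492 c10488 c4550 (k8 c353 c10547 c11030 c11282 c8954 c11285 c4310 c11228 (k4 c11229 c511 c2220 c4464 k0))) (by decide +kernel)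
def c11287 : PP 8 4 T 0x400000002000000000000000000000000140000000000004000000010000010000404 := rS 0x7f171d8b4e8928899cc8632d000b205043940e3d0f255a6fc (k8 c11276 c11234 c11135 c11190 c275 c11050 c11030 c4462 (k8 c263 c1106 c4461 c4476 c842 c11286 c151 c4412 (k4 c579 c578 c910 c9680 (k2 c4417 c1122 (k1 c4471 k0))))) (by decide +kernel)
def c11288 : PP 8 4 T 0x200000000000040100010500000000100050004055500000000910000090040000 := rS 0x27d468e118d94315142d52475 (k8 c1574 c1101 c6954 c1102 c9531 c1739 c4470 c9135 (k4 c273 c778 c1427 c2118 k0)) (by decide +kernel)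
def c11289 : PP 8 4 T 0x1000040100000500000011100010004055501000004110140090141000 := rS 0x28848a11b4553e7549c5876733fc11723d (k8 c275 c7514 c4464 c7517 c4408 c11288 c4471 c9125 (k8 c4417 c9562 c9531 c4470 c4551 c272 c2118 c1464 k0)) (by decide +kernel)
def c11290 : PP 8 4 T 0x400000000000400000002000000004000000014000000040500001554400001000000002001015000 := rS 0x57a259aa6a29310e852586c2e4f (k8 c4297 c4431 c4292 c4434 c10110 c10041 c2108 c4451 (k4 c285 c2063 c6175 c909 (k1 c2120 k0))) (by decide +kernel)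
def c11291 : PP 8 4 T 0x2000000000000140000000000000004004200004000040150002001000000 := rS 0x4d5f8c4f3092593c8245 (k8 c4296 c4433 c4297 c4434 c4437 c1961 c1878 c7782 (k2 c284 c2114 k0)) (by decide +kernel)
def c11292 : PP 8 4 T 0x600000002000000040000011010004051140504005054404001040150004001015000 := rS 0xa7261a90a696789046c6a1c3540bd5dc50961b0b93dcaab (k8 c4415 c11030 c4297 c4431 c4292 c4434 c4470 c9034 (k8 c4354 c11255 c4329 c4423 c4212 c771 c4467 c1519 (k4 c11291 c10110 c11290 c2108 (k2 c2008 c285 k0)))) (by decide +kernel)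
def c11293 : PP 8 4 T 0x400100002000000040100000010000011140510005051104001044010000080014800 := rS 0x31512cfa1b3613453f31976845091d7e4d8a8d896172789cf61b06864729761905729f2fa8d6ac18b0ed271031969ca3d (k8 c275 c11030 c271 c842 c4478 c4413 c1101 c4471 (k8 c4420 c4419 c4337 c577 c6233 c7514 c4433 c9009 (k8 c928 c358 c2201 c569 c4292 c702 c353 c4297 (k8 c4431 c4434 c11292 c4386 c2204 c1511 c1412 c4551 (k8 c10080 c4735 c9172 c8784 c4397 c4321 c1482 c4391 (k4 c1519 c6175 c8360 c11231 k0)))))) (by decide +kernel)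
def c11294 : PP 8 4 T 0x400000002000000040100000100000011140510004051104000004010040090014800 := rS 0x140c766d15974b262210a87579acd2774d2646119213062c3b49aad469f881260a145692c5e1727b9442273d86caa0d0c8b5663d1c9b402130217cc65a (k8 c271 c842 c577 c270 c2551 c567 c5028 c358 (k8 c275 c663 c2359 c2201 c569 c2200 c4292 c702 (k8 c353 c86 c11030 c4297 c4431 c4432 c4434 c4554 (k8 c11289 c4308 c366 c4478 c6233 c4337 c4415 c4413 (k8 c1101 c4471 c4420 c11293 c4446 c276 c1927 c277 (k8 c1886 c1878 c581 c868 c10171 c10110 c2120 c2108 (k4 c4457 c2024 c4451 c2063 (k2 c413 c8582 (k1 c4212 k0))))))))) (by decide +kernel)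
def c11295 : PP 8 4 T 0x400000002000000040100000100000011140510004051104000004010000090014800 := rS 0x85269a46c308a948ea8943c5a08151d8a9721b0bb44a2e52a83432b31e8e4da0109810be5a (k8 c271 c577 c270 c2551 c567 c5028 c358 c275 (k8 c663 c2201 c569 c2200 c11030 c4435 c4298 c4431 (k8 c4292 c7514 c11294 c1641 c287 c4904 c4471 c9141 (k8 c7030 c4417 c2109 c9531 c292 c4470 c1878 c2204 (k2 c10110 c10080 k0))))) (by decide +kernel)
def c11296 : PP 8 4 T 0x400100002000000040000000004040000040510201155580001048110004001015000 := rS 0x18cbd3fc50e2372621d0a4b0d85c9ee58bb148a9f (k8 c6233 c4296 c1248 c4356 c11030 c4297 c4431 c4292 (k8 c4434 c10110 c10041 c2108 c2370 c7095 c4470 c594 (k2 c4354 c9121 (k1 c11266 k0)))) (by decide +kernel)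
def c11297 : PP 8 4 T 0x2000000000000000000000000051100000200014400000000080000080000000 := rS 0xa15ca3a2a3d (k4 c275 c4386 c273 c1472 (k2 c4551 c10396 k0)) (by decide +kernel)
def c11298 : PP 8 4 T 0x400100002000000040000000004040000040514205055584001048150006001015000 := rS 0x685d92d7b14 (k4 c4470 c4354 c4434 c9034 (k2 c11296 c11291 k0)) (by decide +kernel)
def c11299 : PP 8 4 T 0x400002002000000040000000000000010140000000050004000000010000090000800 := rS 0x11287359a580c33ba6460421208e1aa03f9c46eab51c420aad499d0282b24c5c7c9717b953a21138f4bab164a05060f309bcfa913d86c1a19168e4226d0097cc65a (k8 c271 c842 c577 c567 c5028 c4300 c358 c2359 (k8 c2201 c569 c4292 c702 c4550 c4379 c4378 c4302 (k8 c4376 c4306 c4380 c4305 c4304 c4377 c275 c353 (k8 c86 c10547 c11030 c4432 c928 c11295 c4356 c2332 (k8 c2223 c398 c399 c1122 c4554 c4308 c4487 c4337 (k8 c4415 c11297 c7095 c594 c10491 c7315 c771 c4467 (k8 c11298 c276 c1927 c1886 c2055 c405 c1878 c581 (k2 c1693 c597 (k1 c8008 k0))))))))) (by decide +kernel)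
def c11300 : PP 8 4 T 0x400000002000000040000010000001100100504005501504001005510080081015000 := rS 0x29d52224d23c8cb78a31c6ea526214ee4b0d8bc2e4f13ad62ce5 (k8 c11030 c4471 c4419 c353 c4297 c4431 c4432 c4292 (k8 c4434 c7751 c10110 c2108 c1935 c2204 c2228 c4470 (k8 c7094 c2113 c4388 c10618 c1643 c866 c772 c2119 k0))) (by decide +kernel)
def c11301 : PP 8 4 T 0x500000002000000040000010040001000140504005011184001045510080081015000 := rS 0x29b14627634264d6ac2fb0c82e5 (k8 c11030 c4433 c9009 c577 c11271 c2049 c2050 c11300 (k4 c845 c1878 c1096 c292 (k1 c11242 k0))) (by decide +kernel)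
def c11302 : PP 8 4 T 0x400002002000000040000000000000010140000000010004000000010000090000800 := rS 0x6b34a64604224ae47e3b57850ea2a88c14cc9d10975028307984de7b0d8101a19598f4721136804be5a (k8 c271 c577 c567 c5028 c4300 c358 c275 c663 (k8 c2201 c569 c270 c4292 c702 c4378 c4302 c4376 (k8 c4306 c4380 c4377 c86 c10547 c11299 c4310 c4334 (k8 c655 c2573 c654 c984 c1641 c2223 c4548 c366 (k4 c11301 c276 c1927 c1878 (k2 c581 c11300 k0)))))) (by decide +kernel)
def c11303 : PP 8 4 T 0x400000002000000000000000000000000140000000000004000000010000010000004 := rS 0x22e3b1f9d054153204c5a5a02029f8d31e8792ae5 (k8 c11030 c11135 c11190 c275 c11234 c11276 c11287 c270 (k8 c271 c2359 c2551 c11302 c2556 c7854 c578 c398 (k2 c1641 c4417 (k1 c4471 k0)))) (by decide +kernel)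
def c11304 : PP 8 4 T 0x1002000000080000000000000000080000004000020000000110000001005800 := rS 0x66d1508cfa1a058ccb2f239928338455624726844961727d2cfe435f9e6127b3ec1026150d955a2e5 (k8 c11030 c4298 c1766 c4292 c718 c2496 c4464 c4409 (k8 c702 c4322 c2506 c7782 c10207 c7517 c4427 c4297 (k8 c4431 c4434 c4276 c4282 c4374 c622 c11148 c4480 (k8 c2500 c2499 c537 c536 c1752 c9509 c3403 c4391 (k4 c1519 c2108 c4397 c1481 (k1 c4495 k0)))))) (by decide +kernel)
def c11305 : PP 8 4 T 0x1001002000000040000400000400000000000004200000000040011001200000004 := rS 0x81a2932288358aa43239428401e0d11810021b (k8 c4292 c9668 c4461 c833 c529 c264 c4463 c710 (k8 c2322 c2257 c10183 c10019 c2000 c7962 c11148 c4451 (k2 c1894 c4484 k0))) (by decide +kernel)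
def c11306 : PP 8 4 T 0x2000000000000000000000000080000000800000000000000100000040000 := rS 0x2a57191a2e5 (k4 c11030 c4298 c564 c565 (k2 c7854 c1774 k0)) (by decide +kernel)
def c11307 : PP 8 4 T 0x1002000000000000000000000000080000004200000000000010001200000804 := rS 0x14ed30688cc20f1c8c486195f9e4b00400c24f61b (k8 c4292 c702 c4322 c9668 c4461 c311 c2506 c7782 (k8 c2257 c10207 c9983 c2322 c264 c615 c833 c529 (k2 c11304 c10010 (k1 c11305 k0)))) (by decide +kernel)
def c11308 : PP 8 4 T 0x2002000000080000000000000000080000000000000000000000000001045000 := rS 0xcfa1b368ac64211c924fa59fcfb040a86caad17284596c9 (k8 c4305 c1752 c4300 c11030 c4298 c1766 c4292 c718 (k8 c4464 c4409 c7517 c4427 c4297 c4281 c4374 c11065 (k4 c2107 c4397 c1481 c4391 (k2 c1519 c4495 k0)))) (by decide +kernel)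
def c11309 : PP 8 4 T 0x2000200000000000000100000500014040100000010051520000000000000000000000 := rS 0x3a9bce663 (k4 c4407 c4408 c1107 c538 (k1 c9237 k0)) (by decide +kernel)
def c11310 : PP 8 4 T 0x400000002000000000000000000000000180000000000000000000010000200000044 := rS 0x1219a47298a45511324518e37a29c53e5f509311f0c53b4d4acb13aa5068164845625d7e1a0d67d21c106297379e426b33d9fc5a390c960ce0f308281a043689412230092c5e4f19b96134b2ab442a1b (k8 c4292 c718 c4298 c1766 c4427 c4322 c11030 c4294 (k8 c4297 c4432 c4434 c9668 c833 c230 c313 c5028 (k8 c4461 c529 c4462 c615 c264 c720 c311 c2257 (k8 c2322 c390 c7517 c702 c2704 c2496 c2506 c1107 (k8 c926 c9983 c4464 c10207 c4409 c11306 c4479 c11307 (k8 c4377 c4304 c4300 c4305 c4380 c4306 c826 c350 (k8 c1752 c1882 c11308 c10010 c4467 c10046 c2111 c4329 (k8 c4382 c4384 c537 c4451 c324 c413 c4470 c11309 (k8 c4412 c7854 c1566 c4712 c1643 c2062 c2107 c4573 k0))))))))) (by decide +kernel)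
def c11311 : PP 8 4 T 0x400001002000000080000040100000400100050004055404000000010000090000052 := rS 0x9516a9cd22f12c30ba23 (k8 c4372 c752 c4477 c4381 c4432 c756 c4532 c910 (k2 c11064 c11202 k0)) (by decide +kernel)
def c11312 : PP 8 4 T 0x400001002000000080000040500000400100050004014404000040010000090000052 := rS 0x5a95829984b0c53984d22f5fa74ba23 (k8 c4372 c752 c10547 c5760 c4432 c756 c11052 c4532 (k4 c4477 c4381 c11311 c4310 (k2 c857 c11228 (k1 c11202 k0)))) (by decide +kernel)
def c11313 : PP 8 4 T 0x100000000000000000000020000000000110000000a000100000000000000000000000 := rS 0x30431048f (k4 c1345 c1080 c4486 c640 (k1 c4326 k0)) (by decide +kernel)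
def c11314 : PP 8 4 T 0x400000002000000000000000000001000000000002024080000041000000000000602 := rS 0x7e3b56a5d5e2a8899cd617 (k8 c4431 c492 c151 c4412 c491 c1777 c928 c944 (k2 c9680 c289 (k1 c11271 k0))) (by decide +kernel)
def c11315 : PP 8 4 T 0x400001002000000080000000000000000100000002000085000000010000090100442 := rS 0x1786e1baecfa5d3fc5562912388c1a4d1c92c9e4172815665f5fa6cca63219ac2e7b228f4109d (k8 c10547 c4462 c234 c4296 c1224 c4431 c492 c10488 (k8 c755 c11314 c5506 c5760 c577 c1186 c263 c11030 (k8 c4433 c4297 c4434 c4280 c4282 c4371 c4372 c4374 (k8 c1153 c1145 c11148 c7517 c752 c7516 c11051 c11089 (k2 c11312 c2114 (k1 c11313 k0)))))) (by decide +kernel)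
def c11316 : PP 8 4 T 0x1000001000040000000500004020080010010054500000001050104100114000 := rS 0x7c7f158ece717 (k4 c4418 c3708 c1577 c1694 (k2 c10049 c4471 (k1 c11131 k0))) (by decide +kernel)
def c11317 : PP 8 4 T 0x500001000000000000000000010000000082410000055580000000000000000000000 := rS 0xc951b2cfeae84a853f0c (k8 c4477 c4384 c4329 c4322 c5443 c6629 c8140 c5449 (k2 c717 c2118 k0)) (by decide +kernel)
def c11318 : PP 8 4 T 0x2400001000001000040000000500000000182410006055080000001050004100114002 := rS 0x7f1f2e057104aab52e2d48a853f0c2e97ce2b5 (k8 c4389 c4387 c577 c753 c4477 c4384 c4329 c888 (k8 c910 c928 c944 c11316 c11317 c4411 c11255 c7514 (k2 c7096 c11131 k0))) (by decide +kernel)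
def c11319 : PP 8 4 T 0x1000000000000400000000000000000090001000000000000080100002 := rS 0x90b52b05 (k4 c4310 c857 c11228 c4464 (k1 c511 k0)) (by decide +kernel)
def c11320 : PP 8 4 T 0x400001002000000040000400500000000180410004051080000041150004100014002 := rS 0x21499147285436632ab44d86917c24d617 (k8 c4431 c492 c4322 c4432 c756 c4479 c4298 c1766 (k8 c755 c4292 c718 c11030 c4470 c10063 c11318 c4248 k0)) (by decide +kernel)
def c11321 : PP 8 4 T 0x1401001002000000040040000100001400000410004055581000044050140080110600 := rS 0x211984c241488f43628ed6c930db45ca3d (k8 c234 c11030 c4298 c4292 c11197 c11093 c1101 c7718 (k8 c4424 c1586 c11242 c4473 c372 c373 c4248 c7979 k0)) (by decide +kernel)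
def c11322 : PP 8 4 T 0x400000000000000010000000010000000080000000010000000000000080000000000 := rS 0x15f11 (k2 c4411 c1774 (k1 c5443 k0)) (by decide +kernel)
def c11323 : PP 8 4 T 0x401001002000000040000000100001400000410004055581000044250140080110600 := rS 0x18f15 (k2 c4348 c410 (k1 c11321 k0)) (by decide +kernel)
def c11324 : PP 8 4 T 0x400001002000000000000000000000000100000000000004000000010000010000404 := rS 0x75829fa2e3e39ae58ab6498ae2a38568b4ce9f8620cde7d308441837589741ed332afd366c2f98c86693596800b31e9640a7b040bc2e4572a7612556885436270f0851407 (k8 c11050 c11303 c11310 c4466 c353 c4292 c718 c4298 (k8 c1766 c4322 c10547 c11030 c4296 c4431 c4432 c4462 (k8 c1224 c263 c1106 c234 c1186 c4461 c4476 c492 (k8 c756 c10488 c755 c577 c4479 c5506 c5760 c11314 (k8 c11315 c11092 c753 c1146 c232 c11235 c9117 c503 (k8 c8317 c1289 c508 c4477 c4384 c11319 c910 c944 (k8 c11320 c4348 c11322 c11197 c11093 c7718 c165 c1770 (k4 c11323 c4356 c11131 c4313 (k2 c595 c4481 k0))))))))) (by decide +kernel)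
def c11325 : PP 8 4 T 0x1002000000080000000001100000000000000000480000000001000000004001 := rS 0x434ba61 (k4 c5402 c11069 c5264 c4477 k0) (by decide +kernel)
def c11326 : PP 8 4 T 0x1000000000000000010000000001000050004055400000002240000080000800 := rS 0x3aa8d68b74a02562044fc30ba5a (k8 c271 c841 c4477 c4384 c270 c2607 c84 c275 (k4 c1743 c363 c859 c11104 (k1 c9620 k0))) (by decide +kernel)
def c11327 : PP 8 4 T 0x40000000000000400000002000000000000000044000800000000000000000000000800100080000000 := rS 0x11156a485ee5 (k4 c11030 c4432 c1101 c6892 (k2 c4413 c4491 k0)) (by decide +kernel)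
def c11328 : PP 8 4 T 0x400001002000000000000000000000000100000000000004000000010000010000004 := rS 0x3224e2e3c1dae4a63826c32886140b3d96bf2eb1c6e8537841a6c54190cc67d398c4ec9a54a455e7952c10d0ab4b97cd6133f99cda3f16964320f2d03408013d824144b17b96134b2ab442a1b0f0851407 (k8 c11050 c11303 c11310 c4466 c4292 c718 c4298 c1766 (k8 c4427 c4322 c11030 c4432 c4434 c11324 c84 c702 (k8 c567 c270 c569 c271 c2199 c2201 c535 c2359 (k8 c398 c5028 c2702 c7517 c2551 c2561 c577 c1193 (k8 c1673 c4479 c4464 c1883 c1961 c2844 c2895 c2843 (k8 c844 c845 c1878 c4408 c4409 c4407 c10207 c3906 (k8 c1095 c11325 c4463 c10361 c710 c2202 c406 c841 (k8 c7782 c1753 c8730 c10232 c885 c4484 c4477 c4451 (k8 c10063 c4765 c1201 c11327 c11242 c4416 c1655 c11326 (k1 c7044 k0)))))))))) (by decide +kernel)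
def c11329 : PP 8 4 T 0x400002002000000080010000010000400100000000050084000000010000090000442 := rS 0x1d1289d348bc866b0b9ec1045 (k8 c4296 c4462 c1224 c4431 c492 c10488 c4432 c756 (k4 c10547 c11227 c11085 c11059 k0)) (by decide +kernel)
def c11330 : PP 8 4 T 0x1000000000000400002000000000000000005400540044100040050054400000000000000000000000 := rS 0x12b118ba78ba7d (k4 c4379 c4377 c11058 c7787 (k2 c4414 c1699 (k1 c4487 k0))) (by decide +kernel)
def c11331 : PP 8 4 T 0x400002002000000040000400400400044180000040054400000040550144000000000 := rS 0x421f946c752d156a715b932281b68b9596c9 (k8 c4305 c1752 c11030 c4298 c4292 c4470 c10063 c7094 (k8 c4387 c4389 c4451 c1935 c413 c4241 c11330 c724 (k1 c9649 k0))) (by decide +kernel)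
def c11332 : PP 8 4 T 0x401002002000000000000000400400005100041040054400000045600144000000200 := rS 0x51a7d2ac78b394ba61 (k8 c4302 c4377 c11030 c4471 c410 c4418 c9562 c4241 (k1 c11284 k0)) (by decide +kernel)
def c11333 : PP 8 4 T 0x2000001000040000000000000021100000000054401000008200144000100000 := rS 0x8e1aa05b1258c9f2e844fa25 (k8 c281 c4379 c4300 c4377 c1699 c11098 c147 c411 (k4 c1746 c4329 c771 c4467 k0)) (by decide +kernel)
def c11334 : PP 8 4 T 0x401002002000000040000000000400045100041040054401000040600144000100200 := rS 0x27d471050a562e3e7297592613e8f56715 (k8 c4348 c1186 c234 c4379 c4302 c4305 c4377 c11030 (k8 c11332 c4356 c11333 c4551 c4487 c4337 c4414 c2118 k0)) (by decide +kernel)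
def c11335 : PP 8 4 T 0x400000002000000000000000000000000100000000000004000000010000010000404 := rS 0x1173a8f972c624849469f829f870d339b14769315ab52e2d33afd4e653ca6cd85f3190cd26b2d0006eb31e9640a7b040bc2e4572a7612556885436270f08514072e845920f309f522fc (k8 c11328 c4550 c4379 c4302 c4376 c4305 c4300 c4377 (k8 c11050 c11303 c11310 c4466 c353 c4292 c718 c4298 (k8 c1766 c4322 c10547 c11030 c4296 c4431 c4432 c4462 (k8 c1224 c263 c1106 c234 c1186 c232 c4461 c4476 (k8 c492 c756 c10488 c755 c577 c4479 c5506 c601 (k8 c11314 c904 c5760 c11319 c910 c928 c944 c11322 (k8 c11197 c1101 c7718 c1770 c11329 c11331 c11334 c4313 (k8 c1394 c6696 c4464 c1718 c11097 c1202 c410 c595 (k2 c4356 c4481 k0))))))))) (by decide +kernel)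
def c11336 : PP 8 4 T 0x10000000002000000000111000100000000080510000000000000002000000081055000 := rS 0x108cfa192184536391e2e17a5b2cfe5568b942a1b (k8 c4292 c718 c11030 c4298 c1766 c7517 c1752 c4427 (k8 c4431 c4416 c8078 c2206 c2207 c4494 c2107 c4421 (k2 c1790 c9047 (k1 c7306 k0)))) (by decide +kernel)
def c11337 : PP 8 4 T 0x1000040100000500000011100010004045501000004110140090141000 := rS 0x64 (k2 c11289 c7854 k0) (by decide +kernel)
def c11338 : PP 8 4 T 0x400000002000000000000000000000000100000000000004000000010000010000004 := rS 0x4a8ae2c521eb1477192198ce6313b2695e7969c10d0ab2f9ac266736b04723f16864b40d59810027b05244fa6f3083d068164845625d7e07842152ad2e128a0386da2e5 (k8 c11030 c4298 c4292 c11050 c11303 c4322 c4427 c1766 (k8 c718 c11310 c4466 c11328 c4377 c4304 c4300 c4305 (k8 c4380 c4306 c4376 c4302 c4378 c4379 c4550 c11335 (k8 c702 c567 c270 c2704 c569 c271 c2201 c2359 (k8 c398 c358 c1713 c5028 c2702 c2551 c2561 c577 (k8 c1673 c4479 c4464 c11308 c1961 c2844 c844 c845 (k8 c1878 c4408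 c4407 c10207 c4448 c11327 c1095 c11336 (k4 c11242 c4471 c292 c4418 (k1 c11337 k0))))))))) (by decide +kernel)
def c11339 : PP 8 4 T 0x2000000000000000000005000500000000054815554000000000000000000000000000 := rS 0x145 (k2 c4452 c8512 k0) (by decide +kernel)
def c11340 : PP 8 4 T 0x2020000000001000000000001000000041100000000000000002005000140000000000 := rS 0x955cc5a203b14add429f (k8 c4384 c4329 c4353 c1720 c1722 c4468 c4471 c4361 (k2 c4418 c11255 k0)) (by decide +kernel)
def c11341 : PP 8 4 T 0x1000040240000000000000000000000000000001000000000000040000 := rS 0x8f43 (k2 c4422 c1582 (k1 c4473 k0)) (by decide +kernel)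
def c11342 : PP 8 4 T 0x1000000040020000000000000000000000000000005000000000000000 := rS 0x7717 (k2 c4361 c1046 (k1 c4471 k0)) (by decide +kernel)
def c11343 : PP 8 4 T 0x2000000000001000040040001500000041100050154000000000005000140400040020 := rS 0x8609c905f642e56e65 (k8 c7854 c4353 c11342 c2121 c546 c11341 c351 c7307 (k1 c11340 k0)) (by decide +kernel)
def c11344 : PP 8 4 T 0x2400000002000000040040141100000001141000010000000000000000000050100020 := rS 0x102c93bc657e792126d8b171e1d596aba59955a52158bda29d1f864de673d86d6e2347a1ca2890baccfe0d4b8b4e67d31c1026580515440e5 (k8 c11030 c4466 c2256 c310 c311 c2496 c4464 c4407 (k8 c4409 c4408 c390 c926 c2495 c7517 c662 c4431 (k8 c7030 c4435 c9141 c4388 c832 c4353 c4292 c702 (k8 c2638 c1107 c2257 c2367 c10547 c4298 c4432 c11147 (k8 c2109 c4554 c7854 c4456 c1943 c2023 c538 c11343 (k8 c4416 c1782 c11122 c332 c541 c5760 c4446 c1886 (k2 c8130 c7000 (k1 c8103 k0)))))))) (by decide +kernel)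
def c11345 : PP 8 4 T 0x2000000000000000044000000000000000000000400000001150000000000 := rS 0x15a2f19b44a2e5 (k4 c11030 c4435 c4298 c4294 (k2 c4432 c4554 (k1 c2112 k0))) (by decide +kernel)
def c11346 : PP 8 4 T 0x400000002000000000000005541400000181000050010000000002000101450000020 := rS 0x29572a156255242a298a62ed137a5d5643189e4327b0da0cd1093584c146d009d4b020 (k8 c4466 c311 c538 c9668 c5028 c310 c2496 c11306 (k8 c4322 c4479 c2000 c4292 c702 c2257 c2506 c9983 (k8 c10207 c1673 c926 c1107 c4298 c4416 c1681 c332 (k8 c11345 c315 c1695 c11322 c1735 c1125 c10025 c9977 k0)))) (by decide +kernel)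
def c11347 : PP 8 4 T 0x2400000002000000040040001541000001181050050010000000000000101050000020 := rS 0x2b1e9d5ca3f09828de585b88d1e971029e1261 (k8 c615 c4322 c10010 c4466 c926 c4388 c832 c4353 (k8 c311 c1107 c310 c2496 c2367 c11030 c538 c11346 (k2 c314 c11343 k0))) (by decide +kernel)
def c11348 : PP 8 4 T 0x400001002000000040000141100000001100000010000000000000000001050120004 := rS 0x103452609d3ea5642e4eaa14a8f124ac1519106a9578c4d06b3caad4f4b84a28c67d39a5d8e7f822cc5a4b1793c66e53696caa193084c1a7b0521436b711a3e286f2c0100220 (k8 c4466 c9668 c4461 c311 c1107 c4480 c4388 c832 (k8 c4353 c4292 c710 c310 c702 c2495 c2496 c615 (k8 c2257 c2256 c575 c5028 c11030 c4294 c4297 c4432 (k8 c4434 c390 c662 c4464 c7517 c406 c926 c4408 (k8 c4409 c4407 c11344 c4322 c4427 c10010 c1673 c2506 (k8 c11306 c4479 c9983 c828 c10183 c2000 c11347 c7854 (k8 c7555 c315 c314 c1695 c1735 c1657 c1125 c2121 (k4 c10025 c1665 c355 c2111 (k2 c4451 c1894 (k1 c4484 k0)))))))))) (by decide +kernel)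
def c11349 : PP 8 4 T 0x400000002000000040000140900000000140000110000000000042000141450020020 := rS 0x10681679794e26509268487609a4ef4b5714c624f19a74da011f954320f099bcb07b0521436ad17a8c403b8b91d8ad163a4d36ab4fc4052e5 (k8 c11030 c1681 c4468 c4414 c4415 c11122 c1654 c2284 (k8 c4298 c1782 c8078 c4416 c89 c4466 c9384 c4432 (k8 c4554 c4292 c710 c310 c702 c311 c1107 c2496 (k8 c2255 c2257 c2256 c2367 c9668 c5028 c10547 c4294 (k8 c4297 c316 c332 c8019 c9591 c7844 c829 c1715 (k8 c1633 c11165 c11157 c4423 c11118 c908 c351 c4579 (k2 c1382 c549 (k1 c5956 k0)))))))) (by decide +kernel)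
def c11350 : PP 8 4 T 0x400000002000000040000140100000000100000010000000000002100101450220020 := rS 0x132854a49a129d0e30841dc849f5f9e6209b5931c524b4e954320f099bcf60a4586cea5851b945620 (k8 c4466 c2261 c11030 c9384 c311 c2501 c4292 c718 (k8 c310 c702 c1107 c2496 c2255 c2257 c2256 c10547 (k8 c4434 c1681 c2284 c327 c11122 c4468 c541 c5760 (k8 c4414 c11349 c1886 c10207 c4567 c4440 c2007 c11165 (k4 c11157 c9930 c4423 c11118 (k1 c357 k0)))))) (by decide +kernel)
def c11351 : PP 8 4 T 0x1000000000000000000008000000000000000000000000140040000000 := rS 0x5311 (k2 c4413 c1569 (k1 c4468 k0)) (by decide +kernel)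
def c11352 : PP 8 4 T 0x410000002000000000000000000040810100000000000000002000001150000000000 := rS 0x515984c292955ead17aae20e5 (k8 c11030 c4468 c4415 c4432 c4554 c868 c1971 c11345 (k4 c372 c373 c4451 c5541 k0)) (by decide +kernel)
def c11353 : PP 8 4 T 0x410000002000000000000000000001014100000000000000002045400140200000000 := rS 0xa5a2b30985262a6c62ad17a8dca29 (k8 c834 c11030 c9384 c4432 c4554 c316 c11352 c7718 (k4 c11242 c372 c373 c4451 (k2 c1934 c5541 k0))) (by decide +kernel)
def c11354 : PP 8 4 T 0x400001002000000000000000000000000100000000010000000000020000010000004 := rS 0x18a6902778c90876cf2411d534386a813eab880a582958b24d8eb959b0c7aa3568b52e2f68b953a39048fc3261099ed0a1b5b88d1f14829d45614081bce20d2c02962070200522255e905764b5ab4c401f (k8 c1099 c4466 c4373 c7883 c4434 c1309 c4433 c1039 (k8 c1369 c1035 c9668 c4461 c527 c1033 c310 c311 (k8 c2495 c1303 c1107 c8124 c11348 c2261 c2501 c4308 (k8 c4480 c4388 c832 c4353 c4292 c710 c702 c2496 (k8 c615 c2257 c2367 c230 c116 c10547 c11030 c4298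 (k8 c4432 c1196 c391 c4554 c9384 c11350 c9009 c663 (k8 c4548 c1451 c11351 c6198 c7133 c4420 c834 c4468 (k8 c4415 c4414 c11255 c4329 c4423 c7768 c1584 c4473 (k8 c1790 c1722 c11353 c4446 c1886 c7000 c11166 c1967 (k1 c11352 k0)))))))))) (by decide +kernel)
def c11355 : PP 8 4 T 0x400001002000000000000000000000000100000000000004000000000000010000004 := rS 0xc7642e4fa7f39accc6643ac1428235ba3e281069ad5764b5e9044a915881cde71069601404008803e34 (k8 c11338 c1099 c4466 c9668 c4461 c310 c311 c2495 (k8 c1303 c1107 c527 c1033 c1035 c1369 c4433 c1039 (k8 c4434 c1309 c7883 c4373 c8124 c4480 c4388 c4353 (k8 c832 c11348 c4308 c2501 c11354 c67 c2519 c1649 (k4 c2522 c9990 c4548 c5124 (k2 c1451 c631 k0)))))) (by decide +kernel)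
def c11356 : PP 8 4 T 0x2000001000000000000500000000100040154055000000002020104200000000 := rS 0x2247c35462b49d0d70b78b8eda6375a895927d (k8 c4379 c4305 c1369 c7883 c87 c4373 c89 c4416 (k8 c1743 c9361 c4394 c1125 c315 c9384 c7315 c4521 (k2 c4467 c832 k0))) (by decide +kernel)
def c11357 : PP 8 4 T 0x2000001000000000000500000000100040040055020000000020104200101000 := rS 0x27cbec75088a1a93518ac7a756987c4a6f38974fa97 (k8 c926 c4379 c4377 c1303 c1107 c1369 c1099 c4373 (k8 c538 c11356 c314 c9384 c11351 c7315 c4467 c2825 (k4 c7949 c1295 c1300 c8715 k0))) (by decide +kernel)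
def c11358 : PP 8 4 T 0x2000001000000000000000000000100000000000000000000020000010100020 := rS 0x2e4ea3b490a8c863399fe08b31696caa6112ac40e133799ce20d2c028401f649f44e11 (k8 c4300 c350 c4379 c4305 c1099 c4466 c310 c311 (k8 c2495 c1303 c2638 c1107 c2496 c527 c1033 c1369 (k8 c615 c2256 c575 c390 c662 c4464 c7517 c4408 (k8 c4407 c11357 c7854 c315 c1641 c1657 c1125 c9361 k0)))) (by decide +kernel)
def c11359 : PP 8 4 T 0x100000001000000100000500000000000010144000000001000020000000001000 := rS 0x23d0d8e7e5cb4ce2b7 (k8 c1038 c1303 c4373 c4548 c5124 c1451 c4392 c1311 (k1 c4473 k0)) (by decide +kernel)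
def c11360 : PP 8 4 T 0x400100002000000000100000100000000140510100000020001000020140011000800 := rS 0x62af29c250d4b55b2cfeb966afcf310a126d8e2923b1478b239a4dca9d698dd6abb25af4826d008803e0d379ec36b7 (k8 c1038 c4292 c702 c1107 c2495 c1099 c4466 c9668 (k8 c5028 c4433 c1039 c4434 c1309 c7883 c87 c4373 (k8 c10547 c11030 c11351 c1109 c11359 c663 c1250 c8078 (k8 c1681 c330 c11122 c4473 c4468 c541 c5760 c4395 (k8 c4394 c4392 c4425 c4415 c8870 c7834 c4440 c1902 (k2 c1633 c9983 (k1 c11345 k0))))))) (by decide +kernel)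
def c11361 : PP 8 4 T 0x400000002000000000000000000000000100000000000004000000000000010000004 := rS 0x1cd66641e8b0922b3aa2e0a143ea0d02c908bf0de0d5886414580381002200f8d036e5 (k8 c11030 c4292 c11338 c1099 c4466 c9668 c4461 c527 (k8 c311 c310 c2257 c1033 c2495 c1107 c11355 c4300 (k8 c4305 c4380 c4306 c4379 c11358 c4308 c718 c2501 (k8 c2261 c366 c11360 c2282 c391 c663 c1649 c11359 k0)))) (by decide +kernel)
def c11362 : PP 8 4 T 0x600000000500010100000021001002000000000150024 := rS 0x5ad0d6ec88bc54feb9 (k8 c1203 c674 c4350 c4416 c8102 c1742 c4422 c1704 (k1 c4492 k0)) (by decide +kernel)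
def c11363 : PP 8 4 T 0x1000000000000000000000000000000000500000000000020000000000000000008024 := rS 0x86a44485f (k4 c1376 c264 c1156 c4381 (k1 c4486 k0)) (by decide +kernel)
def c11364 : PP 8 4 T 0x400000002000000000244008400100000040000500010025010000000000020115020 := rS 0x5fa09968129064f46a34a710b192593da29b17a64826d0da1ca2890bc1026e5 (k8 c11030 c530 c4464 c4431 c7030 c4435 c9141 c4292 (k8 c694 c4433 c1031 c4432 c764 c4298 c4297 c4434 (k8 c9062 c716 c4488 c824 c1235 c1234 c269 c7856 (k4 c1922 c2023 c2108 c1247 (k1 c643 k0))))) (by decide +kernel)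
def c11365 : PP 8 4 T 0x1400000002000000080044011400000010100040500011024000000000044020115020 := rS 0x4613a6b84a29562852ada18914f97d90a328a6d32413686c924d4788d2e1349ab45a2f3e9548ee5 (k8 c11030 c4374 c266 c7516 c4432 c390 c4554 c1030 (k8 c530 c1196 c4372 c760 c4282 c4281 c4292 c694 (k8 c4433 c1031 c764 c4435 c4241 c9509 c546 c1665 (k8 c1156 c4486 c7468 c4385 c4200 c1572 c11364 c4322 (k4 c11306 c1235 c4488 c9825 k0))))) (by decide +kernel)
def c11366 : PP 8 4 T 0x400000000000400000002000000004000010200002000500000000010025010000000000000114020 := rS 0x86a45485f4020d7ecba5a14a4193d1a8d24b27b44da1b8a834268728a242ee5 (k8 c11030 c4431 c7030 c4435 c9141 c530 c2486 c4350 (k8 c4292 c694 c4298 c4297 c4434 c824 c1235 c1234 (k8 c269 c7856 c2533 c4456 c2022 c9033 c643 c2108 (k4 c1382 c1922 c1156 c4385 (k1 c4486 k0))))) (by decide +kernel)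
def c11367 : PP 8 4 T 0x4000000020000000000000006000000001000000000100040000000000440001100a4 := rS 0x35c25568a8c2759f43632d586951ec10fa8756a4caa4f28b95362f4c9b4362d1f9dc827530834924d2383d1e23690722a972c04cfeb9 (k8 c1203 c674 c530 c526 c1196 c4350 c11361 c10281 (k8 c4372 c760 c11363 c4374 c4282 c4281 c2486 c2598 (k8 c2484 c4433 c1023 c11031 c390 c4292 c694 c1031 (k8 c4432 c764 c11030 c4435 c4297 c266 c1030 c4554 (k8 c9141 c7516 c4464 c11362 c9517 c9009 c7513 c11365 (k8 c4391 c1519 c11366 c4488 c9062 c9421 c4322 c11306 (k1 c9825 k0))))))) (by decide +kernel)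
def c11368 : PP 8 4 T 0x100000000000000000000000000000050000000000000000000002000000100000000 := rS 0x12717 (k2 c4416 c1655 (k1 c4487 k0)) (by decide +kernel)
def c11369 : PP 8 4 T 0x400000002000000000204000600000000140000500010025000000000000020114020 := rS 0x138cf8ca6c5e99209351e23692e50e518204dcb43 (k8 c4422 c11030 c530 c4464 c4435 c9141 c1203 c10281 (k8 c4372 c760 c4282 c4433 c1031 c4432 c764 c9062 (k2 c1792 c4488 (k1 c11366 k0)))) (by decide +kernel)
def c11370 : PP 8 4 T 0x400001002000000000040000600000000100010500010025000000000080020114020 := rS 0x2a57a858c2fd06cb4e9a1586b84a294aa786244bec868a6c5e6d0d8b62a474788da4133fb0e22974a87d3241 (k8 c4433 c1031 c56 c1695 c1196 c4411 c4958 c674 (k8 c530 c10281 c4372 c760 c4374 c4350 c390 c4292 (k8 c694 c4432 c764 c4298 c9509 c546 c1156 c4486 (k8 c4330 c4385 c11369 c4322 c11306 c11322 c4479 c1235 (k8 c2026 c2000 c5760 c4488 c717 c4507 c5323 c7959 k0))))) (by decide +kernel)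
def c11371 : PP 8 4 T 0x400001002000000000040000600000000100010000010004000000010080020104400 := rS 0xbba2af632bf671086cc565b3582b749d0a2cc91d988a7052a12c9e4528a6c5e3f3b9d4e26f398e62a492691cfeb957b45869920ad51e23690447a950fc452e58020181221 (k8 c85 c1057 c4462 c10867 c526 c1196 c4411 c56 (k8 c1695 c11368 c609 c10281 c4372 c760 c7420 c4433 (k8 c1031 c4958 c4298 c1774 c1203 c674 c4374 c4282 (k8 c4281 c4350 c3153 c3008 c1019 c2483 c2484 c1023 (k8 c11031 c4432 c764 c4435 c4296 c4297 c4434 c11370 (k8 c4406 c9029 c267 c1600 c1726 c4481 c4483 c1608 (k8 c8560 c4420 c4395 c4425 c8820 c8302 c2115 c2116 (k4 c1511 c4446 c2014 c4400 (k2 c1445 c4493 k0))))))))) (by decide +kernel)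
def c11372 : PP 8 4 T 0x400001002000000000040000600000000100000000010004000000010080020104400 := rS 0x19cad65a7152cd4f464bc4248315829331458765351ade0a7c2593c8a514d8bcce3f3a9ce2a492691c26b957b45869920ad51e23690447a950fc452e58020181221 (k8 c85 c1057 c4462 c10867 c526 c1196 c4411 c56 (k8 c1695 c11368 c609 c10281 c4372 c760 c7420 c4433 (k8 c1031 c4958 c4298 c1774 c1203 c530 c4374 c4282 (k8 c4281 c4350 c3008 c2484 c11031 c654 c4432 c764 (k8 c4435 c4296 c4297 c4434 c11371 c4409 c1626 c1354 (k8 c9747 c4158 c4481 c4478 c1029 c4420 c8820 c7468 (k8 c2115 c1156 c4446 c1379 c3363 c3480 c4488 c3554 (k2 c946 c2116 (k1 c5286 k0))))))))) (by decide +kernel)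
def c11373 : PP 8 4 T 0x400001002000000000000000600000000100000000010004000000010000000100404 := rS 0xbca21231854273083d1e23690462a5803024081c (k8 c11361 c10867 c1057 c4462 c526 c4350 c609 c10281 (k8 c4372 c760 c11363 c2598 c873 c11367 c11372 c290 (k2 c291 c11222 (k1 c1466 k0)))) (by decide +kernel)
def c11374 : PP 8 4 T 0x400001002000000000000000200000000100000000010004000000010000000100404 := rS 0x558bc15641372804e65802018121c (k8 c11361 c1057 c4462 c10867 c526 c3008 c54 c11030 (k4 c530 c11373 c4312 c4358 (k2 c8861 c4464 k0))) (by decide +kernel)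
def c11375 : PP 8 4 T 0x40000000000001101000002000000000400010000040055511001400800000010000000000001015000 := rS 0x46188cd3dd1504815fa956d0c2586c2e4f (k8 c4297 c4431 c4292 c4434 c4486 c10674 c4385 c1247 (k8 c1922 c2108 c4452 c643 c2064 c7551 c4482 c4370 k0)) (by decide +kernel)
def c11376 : PP 8 4 T 0x400000002000000000000000614040014590001400020024010000000000000015004 := rS 0x41a04bc5d4821432cb352ba97092586c2e4f8ac452eb9 (k8 c1203 c1195 c4412 c4350 c4297 c4431 c4292 c4434 (k8 c4322 c4427 c4491 c7555 c8140 c1919 c2533 c11375 (k4 c808 c1156 c1923 c2515 (k1 c2108 k0)))) (by decide +kernel)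
def c11377 : PP 8 4 T 0x11000000000000000000811111000040054500000000000020000000000000000000000 := rS 0x905f2dd7745 (k4 c4455 c1980 c7634 c4493 (k2 c7468 c3260 k0)) (by decide +kernel)
def c11378 : PP 8 4 T 0x80000000000011500000000000000000410110014046055500000000000000000000000000000000000 := rS 0x144542ed4aa75b28618cf (k8 c4430 c4486 c4551 c10674 c906 c4385 c4825 c4545 (k2 c7634 c4398 k0)) (by decide +kernel)
def c11379 : PP 8 4 T 0x400000002000000000000000600000000114001500020024000000000140000010024 := rS 0x40a0cbabf4832d0a195e9a8d3194e1ea94c557a2d829f51aae2c2856a4c961b0b93ca2e54d8bce60d2691c1f155cb0d32415aa5d1e23690722295 (k8 c1696 c4412 c11361 c10281 c4372 c760 c1195 c7420 (k8 c4433 c1031 c4958 c1203 c4350 c11363 c4374 c4282 (k8 c2486 c3008 c4432 c764 c11030 c4435 c4297 c4431 (k8 c4292 c4434 c1030 c4554 c4468 c4487 c1572 c778 (k8 c1570 c4420 c11376 c1776 c8820 c4491 c2123 c2127 (k8 c4366 c824 c1235 c3184 c269 c2533 c11377 c11378 (k4 c3260 c808 c643 c1923 (k1 c2108 k0)))))))) (by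 decide +kernel)
def c11380 : PP 8 4 T 0x500000002000000000000000000002000000000000000025000000000080000100020 := rS 0x64d46916a1ca2e557b442601 (k8 c54 c1639 c4298 c1774 c11030 c4435 c9141 c390 (k4 c824 c1235 c269 c9074 k0)) (by decide +kernel)
def c11381 : PP 8 4 T 0x1401001000000000000000000000001501501000400200000000000000000000000000 := rS 0x5ea0d76a553c317ea9 (k8 c827 c5760 c4486 c4330 c4385 c4825 c2000 c4507 (k1 c2126 k0)) (by decide +kernel)
def c11382 : PP 8 4 T 0x400001002000000000000000600000000100001500020024000000000000000110024 := rS 0xc764a8cbc90341ae128a42c60f69d82284262a61a5d362f4c904026d0d8b4920f4788e2b113fa550e514485cfa5523b4838e5 (k8 c11030 c11361 c10281 c4374 c1647 c7516 c4431 c7030 (k8 c4435 c9141 c1696 c2523 c4412 c4350 c4372 c760 (k8 c11363 c4281 c390 c4292 c694 c54 c4433 c1031 (k8 c4432 c764 c1195 c4958 c11379 c1639 c1734 c4464 (k8 c11380 c7035 c4488 c714 c9062 c4322 c11306 c4479 (k4 c11381 c1156 c938 c547 (k2 c291 c9509 k0))))))) (by decide +kernel)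
def c11383 : PP 8 4 T 0x400001002000000000000000200000000100000000000004000000010000000100404 := rS 0x270559154c8e52c0fcee413c85cea0408818121c (k8 c11361 c1057 c4462 c609 c10867 c2484 c4431 c500 (k8 c4433 c1023 c11031 c526 c11030 c11374 c1647 c11382 (k2 c4312 c513 (k1 c4464 k0)))) (by decide +kernel)
def c11384 : PP 8 4 T 0x400001002000000000000000510002104100000154011025000004010000000100020 := rS 0xb8a051aa50a9f2fb2172951eaad834b41c24a47a3530cd2d13686c5a6748a3d6eb58a25d0e514485cfe7d31c1026e5 (k8 c11030 c530 c4464 c4407 c4409 c4313 c4431 c7030 (k8 c4435 c9141 c1196 c4480 c4389 c4353 c4388 c1155 (k8 c654 c390 c4292 c694 c4298 c824 c9725 c1235 (k8 c1234 c7856 c4320 c642 c4456 c1983 c1943 c333 (k8 c973 c7514 c8522 c546 c1665 c2534 c5323 c4526 (k2 c2125 c7622 (k1 c810 k0))))))) (by decide +kernel)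
def c11385 : PP 8 4 T 0x400001002000000000000000400000000100000000010004000000010040000100404 := rS 0x290f0d2b8543241ed321c617e9d822250ead499542ed128b95362f4c904da1b168fcea61089cd22581badd6b14589bce2060484c081c (k8 c11361 c10867 c530 c1057 c4462 c2483 c1019 c11383 (k8 c4480 c4389 c4353 c4386 c526 c1155 c3008 c609 (k8 c2598 c2484 c11031 c390 c4292 c694 c4433 c1031 (k8 c4432 c764 c11030 c4435 c4298 c4431 c266 c1030 (k8 c4554 c9141 c7030 c4464 c11384 c5760 c4488 c4446 (k8 c5037 c10065 c10573 c10285 c10837 c10183 c7514 c7856 (k1 c332 k0))))))) (by decide +kernel)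
def c11386 : PP 8 4 T 0x400001002000000000000010500000000100000114000025000000010080020150020 := rS 0x1cd32183630bf6427608e54d8bd3241398de2911 (k8 c4411 c4480 c4386 c3008 c4433 c1031 c4432 c764 (k8 c11030 c4464 c11380 c8522 c5760 c4488 c2487 c4446 (k2 c5037 c4463 (k1 c10065 k0)))) (by decide +kernel)
def c11387 : PP 8 4 T 0x400001002000000000000000400000000100000000010004000000010000000100404 := rS 0x28546252e8301ed34f920fa4749b1c7662829507ab94ac44541f10804ce3f3a844e63948a3c6eb75ac51626f38a5cb0060484c081c (k8 c11361 c10867 c530 c1057 c4462 c526 c1196 c2483 (k8 c1019 c11383 c4480 c4389 c4353 c4386 c4388 c1155 (k8 c3153 c3008 c609 c2484 c11031 c654 c54 c85 (k8 c56 c11385 c4411 c1695 c6781 c11368 c11386 c4406 (k8 c267 c1600 c2194 c1608 c3548 c8221 c2113 c6237 (k8 c4281 c2191 c4463 c1288 c1368 c818 c1735 c2125 k0)))))) (by decide +kernel)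
def c11388 : PP 8 4 T 0x400001002000000000000000000000000100000000010004000000010000000100404 := rS 0x558bc15641372804e65802018121c (k8 c11361 c1057 c4462 c10867 c526 c3008 c54 c11030 (k4 c530 c11387 c4312 c4358 (k2 c8861 c4464 k0))) (by decide +kernel)
def c11389 : PP 8 4 T 0x2400000002000000080200000100004054100000000020024000000000020000010024 := rS 0x4083d06850c978f46a34a8138a38c88c9a4b0d85c9e9b17a64384148a3c6eb75aae6220d (k8 c2487 c4412 c6781 c4389 c4353 c4386 c4388 c1155 (k8 c4433 c11361 c1031 c4432 c764 c4297 c4431 c4292 (k8 c4434 c4282 c4372 c5037 c778 c4488 c2125 c824 (k8 c1235 c1234 c1737 c269 c2534 c642 c1376 c1382 (k1 c2108 k0))))) (by decide +kernel)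
def c11390 : PP 8 4 T 0x400001002000000000000000500000000100000114021024000000000140000010024 := rS 0x28e1aa11217c1cd34f835907d3f8a02493729cc389147add6b145ca5d2b11 (k8 c4412 c1696 c1195 c6781 c4480 c4389 c4353 c4388 (k8 c1155 c11361 c3008 c11030 c1030 c7854 c4468 c2490 (k8 c3514 c2121 c2487 c1665 c11389 c4463 c1376 c264 (k4 c1737 c4381 c1464 c5931 k0)))) (by decide +kernel)
def c11391 : PP 8 4 T 0x400001002000000000000000400000000100000000000004000000010000000100404 := rS 0x13152e52e012c0b4e2613784563112aa54c87503024081c (k8 c11361 c10867 c1057 c4462 c2484 c11388 c1696 c1647 (k8 c4412 c11383 c609 c1019 c2598 c2483 c390 c526 (k4 c54 c1195 c6781 c11390 (k2 c1639 c11386 k0)))) (by decide +kernel)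
def c11392 : PP 8 4 T 0x400001002000000000000000000000000100000000000004000000010000000100404 := rS 0x270559154c83f03394121c (k8 c11361 c1057 c11030 c4462 c11031 c11388 c1647 c11391 (k2 c4312 c513 (k1 c4464 k0))) (by decide +kernel)
def c11393 : PP 8 4 T 0x1600000000000000004005011010001555500000000000000000000000000000000000 := rS 0x52d96a85eab98b185faae86b651a9d4b0c (k8 c4486 c4385 c4330 c4337 c7468 c4424 c4415 c5760 (k8 c4488 c7718 c2127 c7666 c7959 c8140 c4428 c7105 k0)) (by decide +kernel)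
def c11394 : PP 8 4 T 0x1400000002000000000005011010000055500000200000080010000000000020011800 := rS 0x4220cf06c4e33ce0c837ad8961b0b93d362f4c864826939a8e2117 (k8 c4417 c4487 c4337 c96 c2723 c4433 c5907 c1031 (k8 c4432 c764 c4297 c4431 c4292 c4434 c7468 c1077 (k8 c1744 c1745 c3741 c11393 c968 c969 c2568 c4682 (k1 c2588 k0)))) (by decide +kernel)
def c11395 : PP 8 4 T 0x5400000002000000000005011010001054000040020002000010000000000021015000 := rS 0x284a05bb354d454220d034b659e576ae62c60961b0b93d362f4c9055710 (k8 c4487 c4415 c4433 c1031 c4432 c764 c4297 c4431 (k8 c4292 c4434 c4488 c7718 c2127 c4449 c4447 c8140 (k8 c4428 c1421 c588 c2108 c4397 c713 c1481 c7551 (k2 c908 c4492 (k1 c4423 k0))))) (by decide +kernel)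
def c11396 : PP 8 4 T 0x1400000002000000080005011010000054100040200000004000000000000020011800 := rS 0x2150678539b1380f301c0df0d4812c361727800324134968b2218b9351e23 (k8 c4372 c760 c4282 c4417 c85 c535 c4476 c2723 (k8 c4433 c5907 c758 c4297 c4431 c4292 c4434 c11394 (k8 c4328 c1075 c889 c888 c5657 c11395 c968 c2913 (k4 c969 c2568 c713 c4682 k0)))) (by decide +kernel)
def c11397 : PP 8 4 T 0x400001002000000080001010010000044100040200000004000005000000020011800 := rS 0x8142a0cf0a73618138a98683e32a0488dd77145a91c9a4b0d85c9e9b17a64be1934974b45910b0c82e54fc412b17 (k8 c4417 c763 c4487 c4414 c11030 c4433 c9009 c85 (k8 c535 c4476 c2721 c2723 c5907 c577 c1031 c4432 (k8 c764 c4297 c4431 c4292 c4434 c4282 c4374 c7513 (k8 c11396 c4390 c4386 c4352 c11255 c5037 c304 c4329 (k8 c7768 c4488 c4477 c968 c2913 c969 c641 c713 (k2 c1962 c2108 k0)))))) (by decide +kernel)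
def c11398 : PP 8 4 T 0x400001002000000000000000010000044100040200000004000004010000020090800 := rS 0x4556eb547a446c6e0734d47103eb052ab91d0f4a2e503834ba5a2c884e717 (k8 c4417 c96 c85 c535 c4476 c2721 c569 c83 (k8 c11030 c4435 c1679 c571 c7514 c763 c1580 c3521 (k8 c4487 c4337 c11397 c4463 c10457 c304 c1075 c1345 (k4 c1347 c1077 c4386 c7468 k0)))) (by decide +kernel)
def c11399 : PP 8 4 T 0x5000000000000000000200014100000000000000000000000000000000000000000000 := rS 0x16b43 (k2 c4422 c1705 (k1 c4492 k0)) (by decide +kernel)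
def c11400 : PP 8 4 T 0x5000001000001000080000010000000000000000000004501000002000140000151802 := rS 0x50986180e64a8d8eb13299cfe7d8211d6e49 (k8 c4199 c1742 c8078 c4464 c4409 c7517 c4555 c2539 (k8 c2605 c331 c4241 c11399 c2107 c5657 c4326 c4329 (k1 c5857 k0))) (by decide +kernel)
def c11401 : PP 8 4 T 0x400001002000000000000060110100060500004218554004000002000040021140002 := rS 0x2f4d8cb41c25145321a159f185fa7696c155a8c501b19b45362f4c904e68728a24aa090bb947691 (k8 c1205 c1574 c11030 c4431 c1057 c1687 c7030 c4435 (k8 c9141 c96 c4433 c1031 c4432 c764 c4298 c4294 (k8 c4292 c762 c2728 c1701 c8013 c8107 c973 c5760 (k8 c4488 c1525 c1499 c4446 c332 c2109 c4322 c645 (k4 c1753 c4479 c6133 c10898 k0))))) (by decide +kernel)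
def c11402 : PP 8 4 T 0x40000000000000400001002000000004000060100141001501004010500001000002000000021140000 := rS 0x5e9b1968384a28a6438c06da29b17a64828728a242ee5 (k8 c11030 c4431 c7030 c4435 c9141 c4433 c1031 c4432 (k8 c764 c4298 c4292 c4488 c4446 c332 c2109 c4322 (k4 c645 c1753 c4479 c6133 (k1 c10898 k0)))) (by decide +kernel)
def c11403 : PP 8 4 T 0x1400001002000000080000000000000000100000200000004000000000040020151800 := rS 0x2930d38851b33e96c655a8c53104aaed4a25509ba18714fa45704f199ec36632f864d25d35a6482b1328015a2f4b99c5a5a2c884e68728a242e7f2495412c51e0edcb171fb451e23 (k8 c4372 c760 c4298 c398 c4417 c11030 c1574 c4471 (k8 c1782 c1057 c1687 c4199 c7517 c4431 c7030 c4435 (k8 c9141 c96 c85 c535 c4476 c2920 c4555 c928 (k8 c4432 c4554 c758 c2539 c2605 c4433 c1031 c581 (k8 c2721 c2723 c5907 c577 c2722 c4292 c702 c4294 (k8 c4297 c11400 c1205 c1396 c1473 c4486 c4480 c4329 (k8 c4381 c4385 c4847 c11401 c6781 c1680 c4337 c4415 (k8 c8916 c8107 c1519 c330 c3475 c11402 c9725 c7673 (k1 c333 k0)))))))))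 (by decide +kernel)
def c11404 : PP 8 4 T 0x10400000002000000000000000000000000014000040040004000002400040020000800 := rS 0xa4c345a70ee1728a6d327b0d8648269328015ae5168bd2e5a2c8858ad1 (k8 c4298 c1782 c85 c535 c4476 c928 c4432 c2920 (k8 c11030 c4554 c758 c2539 c2723 c4433 c5907 c4292 (k8 c702 c1031 c764 c4435 c4431 c4679 c4488 c7804 (k2 c9725 c7683 (k1 c333 k0))))) (by decide +kernel)
def c11405 : PP 8 4 T 0x1400001002000000000000000000000000100000200000004000000010040020110800 := rS 0x8230aa218a75ea3d228537039a64f2ea757e6c84a28a6438c1cc783b8ba250e510b864267f2a8241a9733ab5ca2d17a4c7e1b689a4d65a2c8853241 (k8 c4433 c1031 c85 c535 c4476 c581 c2723 c4298 (k8 c4292 c398 c1030 c4432 c2920 c11030 c4554 c4555 (k8 c928 c569 c1057 c1687 c7517 c11398 c5907 c4431 (k8 c4435 c9141 c7030 c4417 c1574 c4471 c96 c11404 (k8 c4446 c332 c2109 c4322 c4479 c4369 c4368 c2721 (k8 c4297 c11403 c4463 c10457 c1495 c1075 c1345 c11313 (k4 c905 c4486 c9059 c4326 (k2 c8675 c640 k0)))))))) (by decide +kernel)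
def c11406 : PP 8 4 T 0x400001002000000000000000000000000100000200000004000000010040020110800 := rS 0xf698de29181e0ec263f49ab45e97338b4b459109ce2e8728a242e7f2a8241ae5 (k8 c11030 c569 c1057 c1687 c7517 c4431 c7030 c4435 (k8 c9141 c4417 c96 c85 c535 c4476 c2920 c4555 (k8 c928 c4432 c4554 c1030 c398 c11398 c1574 c4471 (k4 c11404 c11405 c4386 c5037 (k2 c304 c4463 k0))))) (by decide +kernel)
def c11407 : PP 8 4 T 0x1000000000005000044045500000000000000000004010000820081040 := rS 0xa14aae4923d (k4 c1679 c1719 c7514 c763 (k2 c771 c2125 k0)) (by decide +kernel)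
def c11408 : PP 8 4 T 0x400001002000000000000000000000000100000200000004000000010040020100800 := rS 0x496432e968266d1514a82614d7e9d21c60783b09ad57b145dadc729f48a8d1f0d52a9d8e3738888c08512b4c2089439562e732586c2ed128a6c5e990489c0e0d1f8143e19209a5620049a5cce2d72968b221 (k8 c85 c535 c4476 c11030 c2920 c4555 c928 c1030 (k8 c758 c2605 c2723 c4433 c5907 c56 c575 c398 (k8 c569 c83 c873 c1057 c1031 c4432 c764 c4435 (k8 c4298 c4431 c4292 c4434 c96 c4417 c1687 c9141 (k8 c7030 c11406 c4276 c278 c710 c606 c607 c2562 (k8 c319 c406 c4558 c10933 c4326 c2724 c936 c2736 (k8 c1300 c359 c1745 c9034 c4470 c6223 c4389 c11407 (k8 c1574 c4471 c11404 c4446 c4368 c4369 c332 c10063 (k8 c2126 c2109 c4451 c2062 c977 c4427 c1753 c644 (k2 c4573 c11341 k0)))))))))) (by decide +kernel)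
def c11409 : PP 8 4 T 0x1400001002000000080000000000000000100000000000005000002000040020151800 := rS 0x2a5448355d2e128552a28dd0c29b3ce2915fa7486bb5c4622e3b689ec36632f864d25d35a6482b1328015a2f4b99c5a5a2c8851e234394512173f9ce08e5 (k8 c11030 c4464 c4408 c7517 c4431 c7030 c4435 c9141 (k8 c4372 c760 c85 c535 c4476 c2920 c4555 c928 (k8 c4432 c4554 c758 c2539 c2605 c4433 c1031 c581 (k8 c2721 c2723 c5907 c577 c2722 c4292 c702 c4298 (k8 c89 c4416 c11404 c11400 c4449 c4446 c4368 c4369 (k8 c1205 c1473 c1525 c332 c4486 c4480 c2109 c4385 (k8 c1499 c4322 c4427 c1672 c645 c11402 c8675 c4526 k0))))))) (by decide +kernel)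
def c11410 : PP 8 4 T 0x1000000000000000080000000000000000000000000000140400000000 := rS 0x5311 (k2 c4337 c778 (k1 c4468 k0)) (by decide +kernel)
def c11411 : PP 8 4 T 0x400000002000000004004000010005054000000020002000010000000000021015000 := rS 0x2ad5ea64220d02c13caed8b182586c2e4f4d8bd3241 (k8 c4433 c1031 c4432 c764 c4297 c4431 c4292 c4434 (k8 c4488 c7718 c4449 c4447 c4450 c1421 c588 c2108 (k4 c713 c909 c2013 c2127 k0))) (by decide +kernel)
def c11412 : PP 8 4 T 0x1400001002000000080000000000000000100000000000005000000010040020110800 := rS 0x10a833c29cd89c67a7d8cc9381bd200f869816a955cb0c7a733ec10fe4b0d85c9e0d1f98cbe19209a4bab13280126ad17a5cce133a9249a4747a8c462d2d16442e5 (k8 c11030 c85 c535 c4476 c2920 c4372 c11410 c760 (k8 c4374 c4282 c4281 c11408 c570 c4555 c928 c4432 (k8 c4554 c1030 c758 c2539 c2605 c2721 c2723 c4433 (k8 c5907 c577 c2722 c398 c569 c4297 c4431 c4292 (k8 c4434 c7517 c4464 c7516 c4408 c11409 c9009 c7514 (k8 c763 c7513 c7622 c4326 c5657 c4486 c1075 c889 (k8 c586 c2107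 c1392 c1519 c11411 c968 c2913 c969 (k2 c2568 c713 (k1 c4682 k0))))))))) (by decide +kernel)
def c11413 : PP 8 4 T 0x4000000020000000000100004040110140000000a0042000010000000000021015000 := rS 0x15ca644a110681609e577182586c2e4f4d8bd3241 (k8 c4433 c1031 c4432 c764 c4297 c4431 c4292 c4434 (k8 c4488 c4449 c4447 c4450 c1421 c588 c2108 c2667 (k2 c713 c7478 (k1 c908 k0)))) (by decide +kernel)
def c11414 : PP 8 4 T 0x1400001002000000080000000000000000100000000000004000000010040020110800 := rS 0x42a0cf0a7362714270379fd206007aae1ac54fa5620c9639c8782982951468f2388c9a492586c2e4f6889c1ab33197c324134974ca00338b4b45910b952675 (k8 c11408 c1030 c11030 c85 c535 c4476 c2920 c4555 (k8 c758 c2539 c2721 c2723 c4433 c5907 c577 c2722 (k8 c662 c569 c873 c4298 c4297 c4431 c4292 c4434 (k8 c4281 c4282 c4372 c4374 c760 c11410 c11412 c4406 (k8 c1598 c306 c307 c2250 c1726 c4478 c5073 c6233 (k8 c1782 c4200 c4415 c5657 c4477 c4486 c672 c1075 (k8 c889 c5930 c11413 c968 c2913 c969 c2568 c713 (k1 c4682 k0)))))))) (by decide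 +kernel)
def c11415 : PP 8 4 T 0x400001002000000000080040000140001501000010000005000002000040020140800 := rS 0x45528a69d21c61703b689ec3619349ad324158800ce2d2d164428728a242e73823959e4f (k8 c4297 c1519 c11030 c4464 c4408 c4431 c7030 c4435 (k8 c9141 c85 c535 c4476 c2920 c4555 c758 c2605 (k8 c4433 c1031 c581 c2723 c5907 c4292 c702 c4298 (k8 c89 c331 c11404 c4446 c4368 c332 c11402 c2109 (k1 c4427 k0))))) (by decide +kernel)
def c11416 : PP 8 4 T 0x1400001002000000000000000000000000100000000000005000000010040020110800 := rS 0x4aae47ac6399f608271f98cbeb132a4d2e674293ce2092491c267f1b0e56a755188c1c0d16b94c29f52aee1891479b9a65d00168b221 (k8 c85 c535 c4476 c758 c2721 c11414 c10457 c1345 (k8 c1075 c4486 c4847 c4385 c4384 c4326 c11030 c2920 (k8 c569 c4463 c1327 c11410 c11408 c1348 c358 c4470 (k8 c3432 c570 c1332 c2247 c1057 c1416 c4297 c1495 (k8 c4555 c928 c1030 c2539 c2605 c577 c2722 c398 (k8 c873 c4464 c7516 c4408 c9121 c11415 c7514 c763 (k1 c7622 k0))))))) (by decide +kernel)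
def c11417 : PP 8 4 T 0x1400001002000000000000000000000000100000000000004000000010040020110800 := rS 0xc7149513f0c51a3d222323924dc0e69b944e0d1698cba5a2c8842675 (k8 c11408 c570 c85 c535 c4476 c2721 c2722 c2920 (k8 c569 c873 c11030 c11414 c4463 c10457 c2247 c1332 (k8 c1327 c1075 c1345 c11410 c4486 c4384 c11416 c1598 (k2 c2250 c4200 k0)))) (by decide +kernel)
def c11418 : PP 8 4 T 0x10000000002000000001004005002042045550000000000001000000000100001140802 := rS 0x27d729555d2d82524386c2ed128b9566a1 (k8 c7768 c662 c11030 c4435 c4298 c4431 c4292 c9141 (k8 c2109 c4688 c4456 c1943 c973 c8268 c1510 c2125 k0)) (by decide +kernel)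
def c11419 : PP 8 4 T 0x400001002000000000000000000000000100000000000004000000010040020110800 := rS 0x27d9229829504b0d66aa0c08242a0512c33c1b1169c3ba8e322326925a40f5a9c56e911ba3d77142585c9e9b4c9ec360d3197c324134974ca0049ab45e97338b5ca5a2c8842675 (k8 c11408 c570 c85 c535 c4476 c11030 c2920 c4555 (k8 c928 c4432 c4554 c1030 c758 c2539 c2721 c2723 (k8 c4433 c5907 c577 c2722 c569 c4292 c702 c1031 (k8 c764 c4297 c4431 c4434 c11417 c4390 c4388 c4386 (k8 c4352 c4353 c4387 c4389 c304 c4463 c4281 c4282 (k8 c4372 c5037 c11410 c4679 c4488 c4632 c968 c969 (k8 c9725 c680 c1962 c602 c2108 c640 c641 c2064 (k8 c4326 c1503 c11418 c4406 c1598 c1726 c6233 c9603 k0)))))))) (by decide +kernel)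
def c11420 : PP 8 4 T 0x400000002000000040040000000500001101000000002005000002150040020140800 := rS 0x12590cba5a099b45452a098535fa7487181d86c2ed10c9a57a8f86a24d8bb25c51362f4c904ce2d2d1644287289ce08e5 (k8 c11030 c4464 c4408 c4435 c9141 c85 c535 c4476 (k8 c2920 c4555 c4433 c1031 c4432 c764 c4470 c4434 (k8 c9034 c10661 c680 c4326 c2724 c6223 c2723 c5907 (k8 c4298 c4431 c4292 c89 c11404 c4446 c4368 c4369 (k8 c332 c10063 c2126 c2109 c4451 c2062 c977 c4427 (k4 c1753 c644 c4573 c11341 k0)))))) (by decide +kernel)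
def c11421 : PP 8 4 T 0x400000002000000040040000000500000101000100002005000000150040820100800 := rS 0x134a5444e12152a04aae47a87289ec363f00064d2934b84d466716b953e6c5d92d362f4c9057a912d164428f86add6b14 (k8 c4470 c4389 c4353 c4326 c2724 c85 c535 c4476 (k8 c2736 c6223 c4433 c1031 c4432 c764 c4434 c9034 (k8 c10661 c1300 c11030 c2920 c4555 c936 c570 c928 (k8 c1030 c2723 c5907 c758 c398 c4292 c702 c4435 (k8 c9141 c11420 c7514 c763 c2125 c7768 c771 c8005 (k4 c4490 c7938 c4451 c372 k0)))))) (by decide +kernel)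
def c11422 : PP 8 4 T 0x400001002000000000000000000000000100000000000004000000010040020100800 := rS 0x50ae52a7214c14a8b55bc50729147a954ec71b9c44460429fc4ad3081d526672586c5ee513acc0a1f1698cbeb100168b221 (k8 c85 c535 c4476 c758 c2605 c577 c2722 c2920 (k8 c56 c575 c662 c873 c11030 c4432 c4292 c4434 (k8 c4555 c1030 c11408 c11419 c4276 c278 c2651 c710 (k8 c606 c607 c2562 c319 c406 c4558 c10933 c2724 (k8 c2736 c359 c4470 c4353 c4389 c11421 c4406 c1598 (k4 c307 c5073 c5280 c770 (k1 c10373 k0))))))) (by decide +kernel)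
def c11423 : PP 8 4 T 0x100000000001000000000000000000010000000200010080000000000000000140100 := rS 0xcd044b1552717 (k4 c4417 c1656 c1687 c4487 (k2 c4464 c928 (k1 c4310 k0))) (by decide +kernel)
def c11424 : PP 8 4 T 0x2000000000000000000002000004000100040081000000000080001000802 := rS 0x5256b942665 (k4 c2539 c1638 c11030 c2953 (k2 c7938 c293 k0)) (by decide +kernel)
def c11425 : PP 8 4 T 0x400000002000000000000000010000000014000000010001000000000080001100000 := rS 0x14d161b0bb44a213 (k8 c1638 c4435 c4298 c4431 c4292 c11322 c293 c2109 k0) (by decide +kernel)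
def c11426 : PP 8 4 T 0x400001002000000000000000000000000100000000000004000000010000000100004 := rS 0x1150836ab087184ea250e672ac107ac34b9d52a13888a8ca6b0c9a4005a5996414e50f885362f4c904121c (k8 c11361 c1057 c4433 c1031 c4432 c764 c85 c56 (k8 c11030 c11392 c535 c662 c4476 c758 c2723 c5907 (k8 c581 c2539 c11422 c4411 c1638 c1695 c11423 c929 (k8 c4958 c11368 c7079 c306 c4310 c4410 c4314 c11424 (k4 c4488 c4446 c11425 c944 (k2 c4479 c11244 (k1 c4322 k0))))))) (by decide +kernel)
def c11427 : PP 8 4 T 0x1501000002000000000004010014041555500001400000001010000000000000115024 := rS 0x850cd2d966a57316306d0da242ee560c58bf0c (k8 c4486 c4382 c4487 c4420 c11030 c4431 c7030 c4292 (k8 c694 c4488 c7718 c2127 c9825 c8140 c4428 c1919 (k2 c562 c11375 k0))) (by decide +kernel)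
def c11428 : PP 8 4 T 0x1500002002000000080004010004000050100000000000004000000000040000100404 := rS 0x850c9a5385f8628d1f09118349a9b4c8441e913686cee413c81812172aa4d5ae516810382f (k8 c4432 c11361 c10867 c390 c11030 c4554 c1030 c266 (k8 c4431 c1057 c4462 c500 c4433 c1023 c4292 c694 (k8 c4550 c4376 c4300 c1031 c764 c4282 c4371 c4372 (k8 c5101 c760 c11410 c4486 c4382 c11427 c824 c269 (k2 c10110 c11065 k0))))) (by decide +kernel)
def c11429 : PP 8 4 T 0x400000000000400000000000000044004000114011554100500411024020040000080004000000000 := rS 0x42af4d4695dab98b183db062d11 (k8 c4412 c4487 c4420 c7035 c4488 c7718 c2127 c4449 (k4 c828 c1777 c5748 c10255 (k1 c6745 k0))) (by decide +kernel)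
def c11430 : PP 8 4 T 0x400000002000000000000000000000000100000000000004000000010040000180404 := rS 0x9a850caf4d4694e33c1ac61b34e86b65ac5a2aa188aad72c34aa5c927f320a07a635992c2e4f28a6d32275884592814183c72917e1b436671f9dc8275389ccb00604a4d5ae516810382f (k8 c4432 c11361 c10867 c390 c11030 c4554 c1030 c1057 (k8 c4462 c526 c3008 c2483 c2484 c4433 c1023 c11031 (k8 c654 c4292 c694 c11426 c4550 c1139 c4376 c4306 (k8 c4380 c4305 c4300 c4304 c873 c1031 c764 c4435 (k8 c4297 c4431 c4434 c513 c1559 c1678 c531 c530 (k8 c2490 c1718 c1195 c9517 c9009 c7514 c1572 c4412 (k8 c1736 c7058 c4487 c4419 c7787 c4424 c11428 c4470 (k8 c9550 c1407 c1519 c11429 c824 c1235 c3184 c269 (k2 c10255 c325 (k1 c2108 k0)))))))))) (by decide +kernel)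
def c11431 : PP 8 4 T 0x1000080100000100000001100010114001000000004010040020154020 := rS 0xf570378a28d1ec62388cca2d3face0855 (k8 c266 c4464 c4312 c4313 c390 c7854 c4372 c4374 (k8 c9509 c760 c11410 c8104 c4386 c9531 c330 c7514 k0)) (by decide +kernel)
def c11432 : PP 8 4 T 0x20000000000000040000000000000020000081 := rS 0x28 (k2 c762 c8134 k0) (by decide +kernel)
def c11433 : PP 8 4 T 0x1200000000001000000100000100000011100050014015101000000000000000100020 := rS 0xbc8e5099d469f (k4 c4414 c4337 c654 c4551 (k2 c8104 c2118 (k1 c1425 k0))) (by decide +kernel)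
def c11434 : PP 8 4 T 0x401002002000000000000160000501001500001410010001000002000000020140020 := rS 0xa669459a8f69b17a64825d649b4368728a242e7f823958ad1 (k8 c4298 c1782 c11030 c4464 c4313 c4431 c7030 c4435 (k8 c9141 c4292 c694 c4305 c4377 c4433 c1031 c4432 (k4 c764 c7035 c7780 c9363 (k2 c69 c9008 (k1 c7856 k0))))) (by decide +kernel)
def c11435 : PP 8 4 T 0x400002002000000040000000000000000100000000000004000002000044020140400 := rS 0x5261a714aa71292286c784ae17ab71ba3d771486a7d47106291c961b6888536992eac59283309bcfa91339dc82790b9d4e2950096d26ad17a1ca297328b4b006049fd66638215408e5 (k8 c11030 c10867 c266 c4464 c4407 c4312 c4313 c1057 (k8 c4462 c526 c390 c7854 c1196 c4435 c9141 c4432 (k8 c4554 c1030 c759 c54 c11432 c2483 c2484 c4431 (k8 c500 c4433 c1023 c654 c4550 c4379 c4378 c4302 (k8 c4306 c4305 c4304 c4377 c1031 c764 c85 c4298 (k8 c4292 c4434 c8078 c1782 c11368 c4337 c4414 c7315 (k8 c11433 c4390 c4388 c4386 c4353 c4354 c9531 c10260 (k8 c330 c11164 c4473 c282 c4558 c10933 c11434 c9725 (k2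 c7855 c333 k0))))))))) (by decide +kernel)
def c11436 : PP 8 4 T 0x8400000002000000000004000414001054014001441004000000000000100020040000 := rS 0x35c24d28a57314f69b17a6482c1 (k8 c4420 c4433 c1031 c4432 c764 c7035 c7718 c2127 (k4 c9460 c828 c4322 c11306 (k1 c4479 k0))) (by decide +kernel)
def c11437 : PP 8 4 T 0x400000002000000000000000000000000100000000000004000000010040000100404 := rS 0x26a1432bd351a538ab8b0a01b111b45572c31eb4cc6b33fa5e086509a250ead49954962f27945ca272eac422c940a0c1e61379f472917e1b4362d1f9dc82790b9d4e2732c254020403024b61c (k8 c11361 c759 c1057 c4462 c10867 c54 c11432 c526 (k8 c3008 c2483 c2484 c4431 c500 c4433 c1023 c11031 (k8 c390 c4292 c694 c11426 c4550 c1139 c4379 c4378 (k8 c4302 c4376 c4306 c4380 c4305 c4300 c4304 c4377 (k8 c873 c11030 c4435 c4297 c4432 c4434 c266 c1030 (k8 c4554 c9141 c7030 c11430 c7854 c4464 c1196 c4313 (k8 c4312 c4407 c11431 c11435 c9009 c7514 c8522 c4470 (k8 c11433 c1407 c4468 c4487 c1572 c11436 c824 c1235 (k4 c3184 c269 c10255 c325 (k1 c2108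 k0)))))))))) (by decide +kernel)
def c11438 : PP 8 4 T 0x1000000000000000080100000000000001100050000000001000000000080020154000 := rS 0x2182447b188e23 (k4 c4372 c4374 c9509 c760 (k2 c290 c4486 (k1 c4381 k0))) (by decide +kernel)
def c11439 : PP 8 4 T 0x1000000000000400000000001000040400000001180000000000000000000001000000180000000000 := rS 0x490c6329c8f43 (k4 c4393 c1314 c941 c4473 (k2 c4490 c290 (k1 c4381 k0))) (by decide +kernel)
def c11440 : PP 8 4 T 0x400000002000000000100000100000011100511514000125000000010080020114020 := rS 0x1d2d08cb763a8c1a3669a95526824b2cd7098aa29723d61a5e8ab33fc62089d43945ca214d8bd32411c9b4362d39c442601 (k8 c54 c1639 c4411 c3008 c390 c4292 c694 c1139 (k8 c4433 c1031 c4432 c764 c85 c11030 c4435 c9141 (k8 c11380 c4464 c4488 c4313 c4312 c8243 c1195 c4958 (k8 c11368 c6781 c9062 c8522 c4322 c11306 c1752 c4209 (k8 c4479 c826 c1882 c11438 c4470 c1407 c11439 c291 (k4 c9550 c2107 c2121 c1412 (k1 c3579 k0))))))) (by decide +kernel)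
def c11441 : PP 8 4 T 0x2002000000080000001000044051100000000810000000000400080021000000 := rS 0x284b650a10464907c455ed1 (k8 c4298 c1774 c4411 c4376 c4281 c4372 c11065 c1734 (k2 c5153 c7116 (k1 c4424 k0))) (by decide +kernel)
def c11442 : PP 8 4 T 0x400000002000000000000000000000000100000000000004000000010000000100404 := rS 0x268350a24a1a8090b7478dda7090ca9cf46a34a72324262ad572a349a5d3e471e9958e3b3114e0a5457c445495399c4ea793b8fcce58368040c5b0206c2ed172a6c5e99208244e5d5884592814183cde7d1ca45f81c (k8 c11361 c11426 c4550 c1139 c4379 c4378 c4376 c4306 (k8 c4380 c4305 c4300 c4304 c4377 c873 c1057 c4433 (k8 c1031 c4432 c764 c11030 c4298 c4431 c4292 c10867 (k8 c759 c4462 c54 c694 c526 c654 c11031 c1023 (k8 c500 c2484 c2483 c3008 c11432 c11437 c4411 c1774 (k8 c11440 c4406 c9029 c267 c1600 c2194 c1647 c9052 (k8 c1602 c6237 c816 c1608 c818 c7514 c7513 c8820 (k8 c11242 c4446 c4488 c824 c1235 c1234 c906 c269 (k8 c4320 c11441 c10256 c761 c7094 c2113 c2125 c4421 (k4 c1735 c7116 c1368 c285 (k1 c10080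 k0))))))))))) (by decide +kernel)
def c11443 : PP 8 4 T 0x400002002000000080000004400000041100040040554400000000000140021000000 := rS 0x1691438a9e1aa5a29b1468f4242446e507984fa93 (k8 c1030 c4379 c4302 c4376 c11030 c4372 c5101 c11065 (k8 c760 c11410 c4479 c4397 c1401 c7315 c904 c4135 (k2 c4486 c11330 (k1 c4389 k0)))) (by decide +kernel)
def c11444 : PP 8 4 T 0x600000000000000004005140001101515500000000000000000000000000000000000 := rS 0xa6573157eab (k4 c4415 c5760 c7718 c7287 (k2 c2126 c909 k0)) (by decide +kernel)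
def c11445 : PP 8 4 T 0x4400002002000000040000004000000005100040040040081000004000004020081800 := rS 0x42934f0a74e294e2bb122f51ea911b3d6b435031a1a9f51c41829561924743d2586c2e4f28b943e9b17a64ba1164a05060f309bcfa073197c3241349940097 (k8 c928 c758 c2539 c2723 c4433 c5907 c577 c2722 (k8 c83 c4379 c4378 c4302 c4376 c4306 c4380 c4305 (k8 c4300 c4377 c1031 c4432 c764 c56 c11030 c4435 (k8 c4297 c4431 c4292 c4434 c1679 c571 c1718 c9009 (k8 c763 c1580 c4487 c4337 c4414 c7315 c9121 c2118 (k8 c4391 c1432 c1519 c1449 c7768 c850 c8143 c4467 (k8 c10310 c4135 c7886 c11444 c2913 c969 c11127 c602 (k1 c4682 k0)))))))) (by decide +kernel)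
def c11446 : PP 8 4 T 0x400002002000000000000000000000000100000200000004000000010040020100800 := rS 0xcda2b1908491b29cd8cba5c2514535f90c8f181e0ec26d33fa250eb72ac5ce64b0d85c9ed1288244e1164a05060f309f47291068fd66632f864d26b4c904ca0049a5cce2d72968b221 (k8 c85 c535 c4476 c11030 c2920 c4555 c928 c1030 (k8 c758 c2539 c4433 c1031 c581 c2723 c5907 c577 (k8 c2722 c662 c398 c569 c4550 c1139 c4379 c4302 (k8 c4376 c4306 c4380 c4305 c4300 c873 c1057 c4435 (k8 c4298 c4297 c4431 c4292 c4434 c96 c4417 c1687 (k8 c1744 c9141 c7030 c7517 c11443 c11445 c1574 c4471 (k8 c11404 c8078 c4446 c4369 c332 c7682 c4322 c4427 (k8 c1752 c4479 c904 c11331 c323 c7463 c2107 c4397 (k2 c1481 c7284 k0))))))))) (by decide +kernel)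
def c11447 : PP 8 4 T 0x1000000000000400002000001000080000000000540000000000000054401000000000100000141000 := rS 0x9e631fcba116483cfa47 (k8 c4374 c4379 c4376 c4305 c4300 c4377 c7517 c9509 (k2 c11058 c1392 k0)) (by decide +kernel)
def c11448 : PP 8 4 T 0x1000000000000400000000000000000040000000544000000000000000000041400000154400000000 := rS 0x2a61aa0 (k4 c4576 c4200 c7768 c4490 k0) (by decide +kernel)
def c11449 : PP 8 4 T 0x400002002000000080000000000000000000000000514400000000000144001141800 := rS 0x9f638a60a5453a968a6c51a121247119249e0f309f4cee5 (k8 c11030 c4555 c4379 c4302 c4376 c4297 c4281 c4372 (k8 c4374 c5101 c11065 c11410 c4479 c4397 c1401 c904 (k4 c11447 c4406 c1598 c2250 (k2 c6237 c11448 k0)))) (by decide +kernel)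
def c11450 : PP 8 4 T 0x400002002000000000000000000000000100000000000005000002010040020100800 := rS 0x31c92cda2a106ca73632e97094514d7e438c11e2e3b2586c9ed108b25028307984fa39488fd66934b99da665001ad32192097cc66916968b22113a1ca2890b9fc1a738204ceae5 (k8 c11030 c11446 c570 c4464 c4408 c569 c7517 c4431 (k8 c7030 c4435 c9141 c873 c85 c535 c4476 c2920 (k8 c2723 c2722 c577 c4433 c5907 c1031 c581 c758 (k8 c2539 c11449 c4555 c928 c1030 c662 c398 c4550 (k8 c1139 c4379 c4302 c4376 c4306 c4380 c4305 c4300 (k8 c4298 c4297 c4292 c4434 c89 c4416 c8078 c11404 (k8 c4446 c4369 c332 c7682 c4322 c4427 c1752 c4479 (k8 c904 c11331 c7463 c4397 c1481 c4573 c7284 c2107 k0)))))))) (by decide +kernel)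
def c11451 : PP 8 4 T 0x2000001000000040010400010055100040000014400000000000140000100000 := rS 0x11f1186a79465d58984fa67 (k8 c4555 c4379 c4302 c4304 c4377 c4241 c8715 c7315 (k2 c4414 c1428 (k1 c7613 k0))) (by decide +kernel)
def c11452 : PP 8 4 T 0x400002002000000000000000000000000100000000000005000000010040020100800 := rS 0xaa142be22a24fb199a8460b16309d1b2862a955cb0c7b043f92c364f28a6cbab108b25028307984de7d1ca447eb349ab45e9733b95a6133a994006b4c864825f319a45a5a2c8841a27 (k8 c873 c569 c85 c535 c4476 c2920 c2723 c2722 (k8 c577 c4433 c5907 c1031 c581 c758 c2539 c11446 (k8 c570 c11449 c11030 c4555 c928 c4432 c4554 c1030 (k8 c662 c398 c4550 c1139 c4379 c4378 c4302 c4376 (k8 c4306 c4380 c4305 c4300 c4304 c4377 c764 c4435 (k8 c4297 c4292 c4434 c7517 c4464 c11450 c9009 c7514 (k8 c763 c9531 c4551 c4470 c10609 c4488 c7718 c4450 (k8 c7463 c1481 c11451 c1392 c2118 c4337 c989 c4468 (k2 c2127 c1572 k0))))))))) (by decide +kernel)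
def c11453 : PP 8 4 T 0x20000000000000000000002000000054000000000 := rS 0x470d (k2 c4329 c770 (k1 c7307 k0)) (by decide +kernel)
def c11454 : PP 8 4 T 0x400002002000000000000000000000000100000000000004000000010040020100800 := rS 0x22108c18c2746d1550abd9e4855a8d6ac55ca7d2b1023b1ce43c458a4a7052a34c26754ba4cce4b0d93da2e54d8bc4e5d08a05060f309bcfa3948835662d3197c326935a64826500168b221 (k8 c85 c535 c4476 c758 c2539 c4433 c1031 c581 (k8 c2723 c5907 c577 c2722 c2920 c662 c569 c4550 (k8 c1139 c4379 c4378 c4302 c4376 c4306 c4380 c4300 (k8 c4377 c873 c4432 c764 c11030 c4298 c4297 c4292 (k8 c4434 c4555 c1030 c928 c11446 c570 c11449 c11452 (k8 c4406 c9029 c1598 c1766 c306 c307 c2250 c1602 (k8 c4478 c5073 c6237 c4548 c1782 c1618 c4241 c4415 (k8 c9172 c1790 c10608 c11453 c11255 c4470 c10609 c4488 (k4 c4450 c7463 c7478 c685 k0))))))))) (by decide +kernel)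
def c11455 : PP 8 4 T 0x400000002000000000000000000000000100000000000004000000010000000100004 := rS 0x1086d8c0d9a6ac4ec551287339fcab041eae52e7509a56222a32864d2002d2ccb20d050e5227d3783d06816484562fc2586c9ee50f885362f4c904121c (k8 c11361 c1057 c4433 c1031 c4432 c764 c85 c56 (k8 c11030 c4297 c4292 c4434 c11426 c4304 c4300 c4305 (k8 c4380 c4306 c4376 c4378 c4379 c4550 c1139 c11442 (k8 c569 c535 c662 c4476 c758 c2723 c5907 c2539 (k8 c11454 c4411 c1695 c1638 c11423 c929 c6781 c11368 (k8 c7079 c306 c4313 c4310 c4410 c4314 c9531 c11424 (k4 c11425 c11438 c4470 c4488 (k2 c944 c7463 (k1 c5976 k0))))))))) (by decide +kernel)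
def c11456 : PP 8 4 T 0x401000002000000000000000000000000000001400110001000002000000000100020 := rS 0x451a8a4d13686d0e514485dca13 (k8 c530 c11030 c4431 c7030 c4435 c9141 c4292 c694 (k4 c4298 c7856 c4479 c9008 (k1 c564 k0))) (by decide +kernel)
def c11457 : PP 8 4 T 0x4000010020000000000000000000000001000000000100050000020000000001100a4 := rS 0x13a6b34176120c41ac536991baed7a8f109b4360f3b904f21737a9c5ea513a44b01c69894684b (k8 c4434 c11455 c1369 c4373 c11361 c526 c3019 c872 (k8 c10933 c4432 c4558 c3007 c4431 c500 c4433 c1023 (k8 c264 c4292 c694 c85 c1306 c1039 c1309 c87 (k8 c1031 c764 c1034 c4570 c8124 c10260 c1288 c11456 (k2 c69 c824 (k1 c7780 k0)))))) (by decide +kernel)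
def c11458 : PP 8 4 T 0x4000010020000000000000000000000141000000000100050000020000000001000a4 := rS 0x5cc55601051ade20375aa3c421c488d12e5859c1026e5 (k8 c11030 c530 c4464 c4312 c526 c1196 c11455 c3019 (k8 c11361 c85 c1306 c7883 c87 c11368 c1743 c4337 (k4 c11457 c608 c4350 c1203 (k1 c7468 k0)))) (by decide +kernel)
def c11459 : PP 8 4 T 0x201000001000000000000000000000000000114000000000005020000000054000 := rS 0x5c31e280c64ac5a6b3 (k8 c4312 c4373 c1034 c10573 c8124 c4480 c1448 c9531 (k1 c11342 k0)) (by decide +kernel)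
def c11460 : PP 8 4 T 0x400001002000000000000000000000000100000000010004000000000040000100404 := rS 0x5157ecb2652ca4698ca72202960b3c91435b28546b98ab1d6010618f5670409a5da29b4cad5764b5e9051e21499c4da1b078947e754a804b66f489600c091a2b45a2f439451255020702ee5 (k8 c11030 c4431 c11361 c10867 c266 c7030 c4435 c9141 (k8 c4432 c390 c4554 c11455 c1057 c4462 c526 c3019 (k8 c3007 c759 c54 c11432 c2484 c11031 c1369 c264 (k8 c4292 c694 c1304 c1030 c85 c1306 c4433 c1039 (k8 c4434 c1309 c7883 c1031 c764 c4298 c1196 c530 (k8 c4464 c4312 c11458 c9009 c11459 c608 c406 c4350 (k8 c1203 c4241 c4551 c7468 c4424 c1038 c1797 c1749 (k8 c1720 c4468 c11393 c4368 c824 c7856 c4456 c372 (k4 c2023 c9033 c4451 c4493 k0))))))))) (by decide +kernel)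
def c11461 : PP 8 4 T 0x1000000000000000000015500000000020000000004020144000000000 := rS 0xa151b1d6eb94f9252e2888b4d6a25 (k8 c1369 c7883 c4373 c4412 c4468 c777 c3648 c1571 (k4 c6781 c1038 c1451 c4241 (k2 c4212 c2125 k0))) (by decide +kernel)
def c11462 : PP 8 4 T 0x1000000140000100000001500000114011000000005000040000100020 := rS 0x8a2e5462d59c102655 (k8 c266 c530 c4464 c4312 c390 c4241 c11342 c8104 (k1 c9531 k0)) (by decide +kernel)
def c11463 : PP 8 4 T 0x400000002000000000000000000000000100000000000004000000000040000100404 := rS 0x218a311b18fe7d64ac6083d7e04d2e6513a44de953a8fcaa611696002063896c08e504b4c4a8f1a085261c (k8 c11361 c1030 c85 c11455 c1306 c1369 c4373 c1057 (k8 c11030 c10867 c759 c1304 c4462 c54 c526 c390 (k8 c615 c266 c11031 c2484 c11432 c3007 c3019 c872 (k8 c11461 c1196 c530 c11460 c11435 c4464 c4304 c4305 (k4 c4379 c4313 c11462 c7949 (k2 c11410 c4467 (k1 c7554 k0))))))) (by decide +kernel)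
def c11464 : PP 8 4 T 0x1000000000000100000002040000080050000054500000000000000000000000 := rS 0x18106a1 (k4 c7768 c644 c5857 c977 k0) (by decide +kernel)
def c11465 : PP 8 4 T 0x400001002000000040000100000500001500000000000005000002040040020100800 := rS 0x856504090c8a5b368a8a5414cfebf4e90d47043ec618e730991e2e3b0db4532071f98cbe19209a4ba6549a5cce2d2d164428728a242ee5 (k8 c11030 c4431 c7030 c4435 c9141 c85 c535 c4476 (k8 c2920 c4555 c928 c1030 c579 c2721 c2723 c4433 (k8 c5907 c577 c2722 c398 c83 c1031 c4298 c4292 (k8 c89 c4416 c8078 c1679 c1614 c330 c11404 c7516 (k8 c4464 c4241 c4446 c4368 c4369 c4313 c332 c7959 (k8 c7682 c4398 c1483 c4427 c11464 c11341 c9529 c4573 (k2 c710 c1753 k0))))))) (by decide +kernel)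
def c11466 : PP 8 4 T 0x1000000040004000044044100000000000000000005820004100000000 := rS 0x2e51e91 (k4 c1036 c1306 c11342 c8004 k0) (by decide +kernel)
def c11467 : PP 8 4 T 0x1000001000000000000000000054100000000000000000001020004100180900 := rS 0x6f068458c9f51ade20498b9fc7474698fc1e37 (k8 c87 c304 c398 c4373 c570 c571 c2545 c4417 (k8 c3650 c4487 c1038 c4337 c4414 c11466 c406 c1447 (k2 c10992 c8124 k0))) (by decide +kernel)
def c11468 : PP 8 4 T 0x1000000000000000000000000000200000000000005000000000040000 := rS 0x7717 (k2 c4417 c1574 (k1 c4471 k0)) (by decide +kernel)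
def c11469 : PP 8 4 T 0x400001002000000000040000000000000104050040040081000005020040020040800 := rS 0x9a52a227090a95027cd8b7114510b0d302e5469b4cad576bd47884f61b588dc5a003197c324134974ca9348a9c5ea513b4c4a4b4ba54eae5 (k8 c11030 c11468 c763 c928 c4434 c1369 c4373 c2877 (k8 c10933 c4432 c4558 c1036 c1030 c579 c2721 c2723 (k8 c4433 c5907 c577 c2722 c758 c2920 c87 c623 (k8 c4292 c702 c85 c1306 c1039 c1309 c7883 c1031 (k8 c764 c4241 c11342 c7622 c4326 c713 c4486 c4467 (k8 c4353 c10661 c1300 c5931 c7768 c771 c8005 c4490 (k2 c7938 c4451 (k1 c372 k0)))))))) (by decide +kernel)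
def c11470 : PP 8 4 T 0x400001002000000000000000000000000100000000000005000000020040020100800 := rS 0x3783422c63e9ccff0409a547a87288257a4147a4c7e0f1ba454e2f5289da62525a5cce2d72968b221 (k8 c85 c535 c4476 c11030 c2920 c4555 c928 c4434 (k8 c1369 c4373 c2877 c10933 c4432 c4558 c1036 c87 (k8 c304 c398 c1030 c1306 c4433 c1039 c1057 c4435 (k8 c9141 c11465 c763 c11467 c4464 c4313 c4408 c4409 (k4 c11469 c406 c1447 c10992 (k1 c8124 k0)))))) (by decide +kernel)
def c11471 : PP 8 4 T 0x101000000000040000005400040055500000100000000000000000000000014900 := rS 0x114382e4186f (k4 c10992 c4463 c4548 c568 (k2 c7468 c4387 k0)) (by decide +kernel)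
def c11472 : PP 8 4 T 0x400001002000000000000000000000000100000000000004000000020040020100800 := rS 0xa15c9fc20a35ba7d2b10649d58e3b8295012d35aa3c0eb3078dc00632f995269113a5cce2d72968b221 (k8 c85 c535 c4476 c11030 c2920 c4555 c928 c2877 (k8 c1036 c1030 c579 c577 c2722 c758 c87 c304 (k8 c662 c83 c1306 c7883 c4373 c1057 c11470 c4406 (k8 c1601 c2250 c1687 c1727 c4478 c5073 c6233 c1037 (k4 c4241 c11471 c2651 c5280 (k2 c5930 c11040 k0)))))) (by decide +kernel)
def c11473 : PP 8 4 T 0x400002002000000040000100000000001500000000000005000002040041020100800 := rS 0x2a1407f5fa7547048c31ce613238ed32410398cbe654999c5aa717a944e5a2c884968728a242ee5 (k8 c11030 c4431 c7030 c4435 c9141 c4434 c85 c535 (k8 c4476 c2877 c10933 c4432 c4558 c2920 c4555 c1030 (k8 c579 c577 c2722 c83 c4433 c1031 c89 c8078 (k8 c1679 c1614 c330 c11404 c4464 c4241 c4368 c4369 (k4 c4313 c10398 c7959 c7768 k0))))) (by decide +kernel)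
def c11474 : PP 8 4 T 0x2000001000040040010000000055100000000014500000000000144000180800 := rS 0x1409e3faccce1164984faa3 (k8 c4241 c4379 c4302 c4305 c4300 c4555 c662 c2545 (k2 c11097 c11451 (k1 c131 k0))) (by decide +kernel)
def c11475 : PP 8 4 T 0x2000001000040040000100000055100000000014501000001000144000100800 := rS 0x2822a7f3ac1026b91facd926f (k8 c4378 c4305 c662 c398 c11342 c11474 c4464 c11468 (k4 c4313 c9531 c11451 c4551 k0)) (by decide +kernel)
def c11476 : PP 8 4 T 0x2000001000000080000400000044000000000054000000000020145000000000 := rS 0x218a33f88ce2b869984de7d (k8 c4379 c4378 c4302 c4373 c1451 c3422 c7949 c7096 (k2 c11410 c4467 (k1 c7315 k0))) (by decide +kernel)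
def c11477 : PP 8 4 T 0x400002002000000040040100000000001500000000000005000000040041020100800 := rS 0x4a8f562631397cba6549a5cce2d72968b221 (k8 c85 c535 c4476 c11030 c2920 c4555 c928 c1030 (k8 c579 c2721 c577 c2877 c2722 c623 c11473 c763 (k1 c11475 k0))) (by decide +kernel)
def c11478 : PP 8 4 T 0x400000002000000000000000000000000100000000000004000000000040000100004 := rS 0x2428172b74fa5620473a9c876298295146c73e9bcc2117e25d226732974be27318b4b4b32c81c149372825a6375aaf48225478d0421c (k8 c11361 c85 c11455 c1306 c1369 c4433 c1039 c7883 (k8 c87 c4373 c1057 c11030 c1030 c11463 c83 c535 (k8 c662 c4476 c2920 c2722 c2877 c577 c2721 c579 (k8 c4555 c1036 c928 c11472 c4300 c4302 c4378 c4379 (k8 c11476 c4241 c11477 c4406 c1598 c1601 c307 c1687 (k8 c1602 c4478 c5073 c6233 c1037 c1085 c11040 c9172 (k1 c11453 k0))))))) (by decide +kernel)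
def c11479 : PP 8 4 T 0x400000002000000000000000000000000100000000000005000000000000000100404 := rS 0x84228d6c30ca5cd2c162acd51183dafe089d44a1ca2e54da657a8f108b622af68a543e6d0d84c522a3b904f2173a9cd4e2f5289d225802018121c69894684b (k8 c4434 c11455 c1369 c4373 c11361 c1057 c4462 c10867 (k8 c526 c3019 c872 c10933 c4432 c4558 c3008 c2484 (k8 c4431 c500 c4433 c1023 c11478 c59 c531 c4292 (k8 c694 c56 c1695 c4298 c1774 c4411 c143 c85 (k8 c1306 c1039 c1031 c764 c11030 c4435 c9141 c7030 (k8 c11380 c4464 c5760 c7035 c4488 c7959 c4312 c4370 (k8 c4450 c10183 c1195 c269 c4958 c9074 c2123 c4479 (k1 c4322 k0)))))))) (by decide +kernel)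
def c11480 : PP 8 4 T 0x40000000000008000000000000000000000400000005000000000 := rS 0x470d (k2 c4384 c1299 (k1 c4467 k0)) (by decide +kernel)
def c11481 : PP 8 4 T 0x400000002000000000000000000000000100000000000004000000000000000100404 := rS 0x7e034225c2f9f5449f5c91d26975bb247a6531414a827489ccea0f339600c5b0239412d35aa3c423f4a87c38c7508a84a34 (k8 c11455 c1369 c11478 c1735 c290 c11361 c56 c1695 (k8 c288 c85 c1306 c7883 c4373 c1057 c11030 c10867 (k8 c759 c4462 c526 c654 c264 c2484 c3008 c3019 (k8 c872 c11479 c4406 c267 c1647 c9052 c1727 c8692 (k8 c816 c1608 c3548 c11342 c11480 c2125 c1354 c1466 (k4 c818 c347 c528 c4463 (k1 c4377 k0))))))) (by decide +kernel)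
def c11482 : PP 8 4 T 0x400000002000000000000000000000000100000000000004000000000000000100004 := rS 0x115083bb14f2c136c61589d3999d1287821547ac34b9d4266535864d2002d2ccb27b05256222a0d85ca2e50f885362f4c904121c (k8 c11361 c1057 c4433 c1031 c4432 c764 c85 c56 (k8 c11030 c4435 c4431 c4292 c11478 c4411 c1695 c11481 (k8 c702 c535 c662 c4476 c758 c2723 c5907 c581 (k8 c2539 c1638 c11423 c929 c4958 c11368 c306 c7079 (k8 c9141 c7030 c4310 c4408 c11424 c11425 c4488 c944 (k4 c1987 c4447 c4370 c7751 (k2 c4479 c2123 (k1 c4322 k0)))))))) (by decide +kernel)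
def c11483 : PP 8 4 T 0x1000000000000100000000020000000000000001400000000000000000000000 := rS 0xbb0d (k2 c4329 c811 (k1 c4477 k0)) (by decide +kernel)
def c11484 : PP 8 4 T 0x400000002000000080040000004002000000080000000424000000000000000000020 := rS 0x41a150e193d1a4da1b (k8 c4292 c694 c824 c1234 c269 c11158 c10110 c2659 (k1 c5339 k0)) (by decide +kernel)
def c11485 : PP 8 4 T 0x600001002000000080145011800000055100000000001424000000000000020000020 := rS 0xce62a74fd155b285362f4c9055b1755a7d1e23 (k8 c4372 c760 c4414 c4415 c4358 c4809 c4433 c1031 (k8 c4432 c764 c11483 c11040 c11255 c1164 c11484 c7718 (k2 c11393 c1796 k0))) (by decide +kernel)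
def c11486 : PP 8 4 T 0x600001002000000080145011800000055100000000001024000000000000020000020 := rS 0x1068543864f4693f2a53943504646eb78a1f5630d2f26c5e99209b436a355a7d1e23 (k8 c4372 c760 c4414 c4415 c4337 c4292 c694 c4433 (k8 c1031 c4432 c764 c11485 c4382 c545 c1379 c4486 (k8 c1163 c4386 c5037 c11255 c11164 c4488 c7768 c4531 (k4 c824 c1234 c269 c11158 (k2 c10079 c2659 (k1 c5339 k0)))))) (by decide +kernel)
def c11487 : PP 8 4 T 0x400001002000000080080000000020001100000000000004000000000000000010404 := rS 0x41a1502193d1a539191b9f81e5e8a1f5524b0b93d362f4c90427053686cb061023252a3d0a3947e06048709a0d (k8 c4371 c4282 c11361 c1057 c4462 c11031 c11030 c11482 (k8 c326 c9517 c2610 c10867 c2598 c526 c4292 c694 (k8 c4308 c140 c4433 c1031 c4432 c764 c4297 c4431 (k8 c4434 c7768 c1625 c4551 c11483 c387 c7317 c4386 (k8 c5037 c4488 c824 c1234 c269 c1382 c10079 c2659 (k1 c2108 k0)))))) (by decide +kernel)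
def c11488 : PP 8 4 T 0x600001002000000080000000000000005100000000000004000000010000000000404 := rS 0x8340a14327a351a4ba5f4e03cfcb08aad942cf6312c2e4f4d8bd326d0d985929561905825156c5d64971d16008a34f845724d06a3c46b523b947a141f818121c (k8 c11361 c1057 c4462 c11031 c11482 c326 c11030 c4374 (k8 c7513 c4372 c760 c4371 c4282 c7514 c609 c4414 (k8 c4337 c10867 c526 c649 c3029 c648 c4358 c4809 (k8 c4435 c1580 c4433 c9009 c9517 c2610 c2598 c4292 (k8 c694 c1031 c4432 c764 c4297 c4431 c4434 c11486 (k8 c1519 c11487 c11040 c11255 c1163 c1164 c11363 c11393 (k8 c545 c1457 c824 c1235 c1234 c269 c10110 c1923 (k2 c2659 c2108 k0)))))))) (by decide +kernel)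
def c11489 : PP 8 4 T 0x600000002000000080000000000000005100000000000004000000010000000000404 := rS 0x21432694e2a63237504516e0f58bf1362f4c904da1b592552e3a2c011469f5ca3c46b523b947a141f818121c (k8 c11361 c1057 c4462 c11031 c11482 c326 c11030 c4374 (k8 c7513 c4372 c760 c7514 c4414 c4337 c10867 c526 (k8 c649 c3029 c9517 c648 c4292 c694 c4433 c1031 (k8 c4432 c764 c11488 c4304 c4376 c1163 c7468 c2125 (k8 c4386 c5037 c7768 c4488 c824 c269 c10079 c11065 k0))))) (by decide +kernel)
def c11490 : PP 8 4 T 0x2000000000000400200002000000000000000824010000000000000015020 := rS 0x20d0a810c9e8d4692586c2e4f (k8 c4297 c4431 c4292 c4434 c824 c1235 c1234 c269 (k4 c1382 c2533 c643 c2108 k0)) (by decide +kernel)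
def c11491 : PP 8 4 T 0x600000002000000080000000000000004100000000000004000000010000000000404 := rS 0xa1280fea641204326965ab90ac53da74fa0f58179fabf8aa411e2306934961727a6c5e9982a2cda1b64a55863d208fdcac128a5c74142c011569f08818121c (k8 c11361 c1057 c4462 c609 c4414 c4415 c10867 c526 (k8 c11482 c649 c3029 c4435 c1580 c11030 c11031 c4433 (k8 c326 c9009 c9517 c2610 c4292 c694 c718 c4308 (k8 c1031 c4432 c764 c4297 c4431 c4434 c4282 c4371 (k8 c4372 c760 c11489 c4352 c3260 c4550 c1156 c1155 (k8 c11363 c1379 c11490 c7035 c7718 c714 c7223 c8140 (k8 c829 c269 c1382 c2108 c549 c677 c908 c4483 (k1 c4423 k0)))))))) (by decide +kernel)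
def c11492 : PP 8 4 T 0x200001000000000040000010100000051100000014001000001000000000000210020 := rS 0x683c467d502d6289f (k8 c4414 c4480 c4389 c11255 c1625 c771 c387 c529 (k1 c4463 k0)) (by decide +kernel)
def c11493 : PP 8 4 T 0x610000000000000004005100111001554500100401001020000000000000000000000 := rS 0x148843daad7691 (k4 c1155 c10310 c4415 c7035 (k2 c11166 c11444 (k1 c1402 k0))) (by decide +kernel)
def c11494 : PP 8 4 T 0x4600000002000000040005004000020054100500400001024001000000004020014020 := rS 0x4d428654e694e33c1abd6308d1eb554d0e1a4b0b93dca9b17a64826d0dab522b1 (k8 c10281 c1155 c4809 c4292 c694 c4433 c1031 c4432 (k8 c764 c11030 c4297 c4431 c4434 c4329 c4423 c7768 (k8 c1706 c850 c771 c4212 c8143 c529 c1519 c11493 (k4 c824 c906 c269 c10079 (k2 c9728 c2108 k0))))) (by decide +kernel)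
def c11495 : PP 8 4 T 0x600000002000000000005000000001554040500000000400000000080000000015020 := rS 0x10a19349355c4362c609617279b436ab (k8 c4415 c4292 c694 c4297 c4431 c4434 c4488 c7718 (k4 c4446 c7223 c324 c829 (k2 c269 c10110 (k1 c2108 k0)))) (by decide +kernel)
def c11496 : PP 8 4 T 0x6000000020000000000050000000000548405000000000040000000000000200140a0 := rS 0x4d4286574bd34a701a5f1b12c2e4f4d8bd32413686cb071 (k8 c2483 c526 c4292 c694 c4433 c1031 c4432 c764 (k8 c4297 c4431 c4434 c761 c1425 c1407 c11495 c824 (k4 c3184 c971 c269 c10110 (k2 c325 c4802 k0)))) (by decide +kernel)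
def c11497 : PP 8 4 T 0x600000002000000000000000000000004100000000000004000000010000000000404 := rS 0x67aa695445ec65380d5297d4ebf628d9967f8ac3176b447a841e8340bf16e9158b4c92b90889d362f4ca2c3677389852ac31e9047ee537b04a2971d160091759018121c0a28d569f (k8 c4414 c4415 c4337 c11482 c11361 c1057 c4462 c648 (k8 c4358 c10867 c526 c649 c3029 c4435 c1580 c3007 (k8 c11030 c11031 c4433 c326 c9009 c9517 c2598 c2483 (k8 c1023 c4292 c718 c1031 c4432 c764 c873 c609 (k8 c7514 c1723 c11491 c10281 c1155 c1163 c11492 c4380 (k8 c4306 c4376 c11494 c11496 c2125 c10310 c5931 c4389 (k8 c1433 c3527 c1579 c1789 c1518 c4330 c4382 c4385 (k8 c650 c11495 c4368 c3184 c4493 c4494 c4398 c4400 (k1 c4855 k0))))))))) (by decide +kernel)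
def c11498 : PP 8 4 T 0x601100000000000000005145100011555540500411000020000000000000000000000 := rS 0x2115cc53dafd569f (k8 c4414 c4415 c5760 c7035 c7718 c7223 c6745 c10244 k0) (by decide +kernel)
def c11499 : PP 8 4 T 0x400000002000000000000000000000000100000000000004000000000040000000404 := rS 0x528a4cd2621432698ca70bea184c3106815883446b808b18922707add228f12af576b51bb4c689f51c422e97609bd8695590e99261389e4ee3f33960da3d03010961727945ca214d8bd32410484e0a8b0a06d261c (k8 c11361 c1030 c4292 c11482 c718 c4308 c140 c1057 (k8 c4433 c1031 c4432 c764 c85 c11030 c4435 c4297 (k8 c4431 c4434 c10867 c4462 c326 c694 c526 c655 (k8 c11031 c1023 c500 c2483 c2598 c2610 c649 c648 (k8 c9517 c9009 c3007 c1580 c3029 c4358 c7239 c4337 (k8 c4414 c11497 c4373 c87 c7883 c1309 c1039 c1369 (k8 c1306 c3019 c3020 c1329 c872 c1722 c11466 c407 (k8 c1451 c7949 c1448 c1034 c10263 c4570 c4467 c10260 (k8 c11494 c4382 c11498 c4368 c824 c269 c10110 c2108 (k4 c2063 c412 c8268 c4456 k0)))))))))) (by decide +kernel)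
def c11500 : PP 8 4 T 0x400000002000000080004000114041555500000000080000000000000000000200000 := rS 0x7a0d9e7d30ada19153622086ae62c617e555cad58316888e49a35 (k8 c4373 c4282 c4280 c4334 c4487 c4420 c4419 c6781 (k8 c141 c5760 c4488 c7718 c2127 c4446 c985 c984 (k8 c11148 c4486 c7468 c4326 c1627 c1796 c640 c387 (k1 c5230 k0)))) (by decide +kernel)
def c11501 : PP 8 4 T 0x2000000080000000000420000004000002080000000000000000001000802 := rS 0x2050a83079f8c0a98692c3617278449a0d (k8 c4371 c4282 c4276 c4297 c4431 c4292 c4434 c4329 (k8 c7768 c896 c897 c5657 c641 c713 c1462 c2108 k0)) (by decide +kernel)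
def c11502 : PP 8 4 T 0x10001000002000000080000148000000000004412004000000000000000000001200800 := rS 0x312954544a10961b0b93caa11268359e0f (k8 c387 c1797 c4371 c4282 c4276 c141 c4297 c4431 (k8 c4292 c4434 c4682 c5230 c4397 c7785 c7634 c4429 k0)) (by decide +kernel)
def c11503 : PP 8 4 T 0x400000002000000080000000000000001100000000000004000000000040000000004 := rS 0xc2825dc30de7d8aad9430943af4f0a7361de329c4da64f61b0c9a55a2f58b255651618f4823f5cad583168899926974a98e0a7559a3d462316b953e4714000b459050843814 (k8 c11482 c11361 c85 c11499 c535 c4476 c758 c647 (k8 c4374 c1570 c11030 c2920 c4372 c11410 c760 c2642 (k8 c2570 c4308 c2722 c5073 c929 c1030 c646 c4334 (k8 c4487 c4420 c4419 c6781 c399 c4433 c327 c9009 (k8 c4435 c1572 c2609 c2605 c4432 c4554 c2723 c5907 (k8 c4292 c702 c1031 c764 c11500 c4368 c1091 c968 (k8 c2913 c969 c1173 c10171 c4318 c11501 c2125 c4353 (k4 c1627 c1078 c4486 c4847 (k2 c11502 c9302 (k1 c640 k0)))))))))) (by decide +kernel)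
def c11504 : PP 8 4 T 0x410000002000000000004000015005054000000020082000010000000000021015000 := rS 0x29d9cae62a6c5e9920b062d11 (k8 c4334 c4487 c4420 c4433 c1031 c4432 c764 c7718 (k4 c2127 c11411 c2915 c6873 k0)) (by decide +kernel)
def c11505 : PP 8 4 T 0x400000002000000080000000000000000100000000000004000000000040000000004 := rS 0x8541a054e6c3bc65380f54980e06f86a413e4706934224b0b93d267b0d864d2ad168bccc9531c152eab14145863d599047e7500168b2210e05014e5 (k8 c11030 c11499 c11482 c11361 c85 c535 c4476 c758 (k8 c2570 c399 c4433 c2642 c327 c9009 c4435 c647 (k8 c1572 c929 c4308 c2722 c5073 c646 c4432 c2920 (k8 c4554 c2723 c5907 c4292 c702 c1030 c4297 c4431 (k8 c4434 c4276 c4282 c4371 c4374 c1570 c11503 c4328 (k8 c1075 c889 c888 c2982 c5657 c11504 c4368 c1091 (k4 c968 c2913 c7000 c2568 (k2 c713 c2108 k0)))))))) (by decide +kernel)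
def c11506 : PP 8 4 T 0x2000000040000001100000000820000000000100000041100000021000800 := rS 0x50d8e7e672109a47078349211378d844358a93dca21 (k8 c85 c11030 c4297 c4388 c1306 c760 c761 c1345 (k8 c7962 c4209 c569 c1327 c1411 c324 c10080 c685 (k4 c684 c1519 c4392 c4473 k0))) (by decide +kernel)
def c11507 : PP 8 4 T 0x2000000000000411100000055500000000000100000040110000000208000 := rS 0x11551adc9a7c (k4 c387 c2353 c1627 c1353 (k2 c11148 c7468 k0)) (by decide +kernel)
def c11508 : PP 8 4 T 0x400000002000000040000000000001000101000404000000000000110000021014800 := rS 0x8a8dc964f3d86e309920a6c5e0d4185d02fc (k8 c10457 c4380 c4431 c4570 c569 c4432 c764 c4433 (k8 c1031 c4488 c4292 c702 c4297 c4434 c7463 c10618 (k1 c4470 k0))) (by decide +kernel)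
def c11509 : PP 8 4 T 0x400000002000000040000000080001055540000400080400000000010000021014900 := rS 0x9e51add9aa5a2a1142617e1bd72b58b44472c54d8bd974b (k8 c4428 c8140 c4432 c764 c7718 c1139 c4334 c4487 (k8 c4419 c6781 c10992 c10457 c4302 c896 c11508 c4397 (k4 c1401 c1482 c7551 c989 (k2 c2125 c1781 k0)))) (by decide +kernel)
def c11510 : PP 8 4 T 0x400000002000000040000000000001001100000000000080000000010040020200900 := rS 0x51c3542b71b980fefd0803c1a1f4586cbec95cafcee8f442b9562828b15863f568b5cac121c61329b178e56b168899926974a98e0a751eacd62002e8648269 (k8 c2723 c4433 c5907 c2721 c758 c2605 c2642 c327 (k8 c2570 c4308 c2722 c5073 c929 c1030 c646 c4334 (k8 c4487 c4419 c1139 c4432 c764 c1031 c4488 c4446 (k8 c4420 c11030 c2920 c4554 c399 c9009 c7718 c4435 (k8 c647 c1572 c2127 c985 c11506 c2042 c5760 c6781 (k8 c2609 c577 c4292 c718 c56 c569 c11507 c11509 (k8 c4300 c2651 c606 c319 c5279 c5930 c4326 c937 (k1 c7454 k0)))))))) (by decide +kernel)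
def c11511 : PP 8 4 T 0x400000002000000040000000000001001100000000000080000000000040020200900 := rS 0x16ccd50d15469f5431d4a255e8d11e88a5b2c86ae62c617e9b4c89c32692eab45a2f58aac5051618f4823f72ae56ac18b444cc934ba54c7053aacc0039 (k8 c1139 c758 c2642 c2570 c4308 c2722 c5073 c929 (k8 c1030 c646 c4334 c4487 c4420 c4419 c6781 c11030 (k8 c399 c4433 c327 c9009 c4435 c647 c1572 c2605 (k8 c4432 c2920 c4554 c2721 c2723 c5907 c2877 c1031 (k8 c764 c5760 c4488 c7718 c2127 c4446 c8140 c4428 (k8 c985 c11506 c11510 c1039 c1369 c7934 c1451 c10290 (k4 c1571 c4241 c4398 c7768 (k2 c1483 c2125 (k1 c7551 k0))))))))) (by decide +kernel)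
def c11512 : PP 8 4 T 0x2000000000000100100002000800002002000100000000000000021000800 := rS 0x10a83268441aa85d2fcc2361a92c361727885362f (k8 c4432 c764 c85 c4297 c4431 c4292 c4434 c1306 (k8 c761 c2724 c1516 c971 c970 c569 c319 c325 (k2 c640 c603 (k1 c4681 k0)))) (by decide +kernel)
def c11513 : PP 8 4 T 0x11100000055500000000004100000000000100000208000 := rS 0x146a15ba7cf8c6 (k4 c386 c387 c1392 c1627 (k2 c1624 c1353 (k1 c2125 k0))) (by decide +kernel)
def c11514 : PP 8 4 T 0x400000002000000040000100010400055501000000080000000000110020001215000 := rS 0x15ecf6350d44b78a27d423712b34c24c7e12556515cad62d11 (k8 c4334 c4487 c4419 c6781 c4435 c1572 c366 c4463 (k8 c10080 c4302 c2063 c285 c325 c896 c1571 c4470 (k4 c4353 c2125 c4393 c779 (k2 c1524 c989 (k1 c11173 k0))))) (by decide +kernel)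
def c11515 : PP 8 4 T 0x400000002000000040000100010400005500002000004080000000110040041204802 := rS 0x1470d50adc6e603fbf4208506ac592285ca5e22664ac14eab3 (k8 c2642 c2570 c4308 c5073 c646 c4334 c929 c6781 (k8 c647 c2609 c2605 c569 c10814 c11514 c4300 c2651 (k4 c606 c319 c5279 c5930 (k2 c4326 c937 (k1 c7454 k0))))) (by decide +kernel)
def c11516 : PP 8 4 T 0x1000040000011000044055500000000000000001000020004000000000 := rS 0x2856ec7 (k4 c1451 c1038 c4212 c2125 k0) (by decide +kernel)
def c11517 : PP 8 4 T 0x2000000000000200002 := rS 0xfc10 (k2 c366 c367 (k1 c2651 k0)) (by decide +kernel)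
def c11518 : PP 8 4 T 0x400000002000000040000000000000001100000000000080000000000040020200900 := rS 0xa151a7d6ec7128d01e8f5e9e14e6c4e0e43e270c904d25d568b5ca2f588a172b58b444cc934ba54c7053aacc9200 (k8 c758 c11517 c2642 c2570 c4308 c2722 c5073 c929 (k8 c1030 c646 c4334 c4487 c4419 c6781 c647 c2605 (k8 c4432 c11030 c2920 c4554 c2721 c2723 c4433 c5907 (k8 c2877 c56 c1139 c11511 c968 c2913 c969 c1173 (k8 c11512 c11513 c11515 c1369 c1451 c1038 c1571 c4241 (k2 c4212 c2125 k0)))))) (by decide +kernel)
def c11519 : PP 8 4 T 0x400000002000000000000000000000000100000000000004000000000040000000004 := rS 0x88e4c0fd1a9be2a8f4834d622700168b20a108243814 (k8 c11482 c11361 c1057 c85 c11499 c535 c4476 c758 (k8 c2877 c2605 c11505 c11518 c130 c4352 c1075 c1036 (k4 c4550 c888 c7422 c7962 (k1 c10457 k0)))) (by decide +kernel)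
def c11520 : PP 8 4 T 0x400000002000000000000000000000000100000000000004000000000000000000004 := rS 0x580396ccc04150503e1c (k8 c11361 c56 c11482 c11519 c286 c287 c575 c2635 (k2 c4476 c1025 k0)) (by decide +kernel)
def c11521 : PP 8 4 T 0x1000080000000200004021800000000000000000000000040010000408 := rS 0x632e542a35b8b4783f12818be09138e49223 (k8 c4372 c4281 c4280 c4278 c1145 c545 c4462 c225 (k8 c11031 c9517 c855 c1742 c11410 c851 c1475 c11118 (k1 c331 k0))) (by decide +kernel)
def c11522 : PP 8 4 T 0x1000000100002000054020000000000041480000400000200200100000 := rS 0x6f2e1f4c65532a4cfeb3 (k8 c664 c1434 c102 c579 c247 c4534 c7516 c2118 (k2 c1347 c841 k0)) (by decide +kernel)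
def c11523 : PP 8 4 T 0x1000001000080000002100044021000000000000480000000000040000100008 := rS 0x18c3f16a8592272488c8e610099c5220 (k8 c838 c2834 c2855 c28 c5402 c4374 c4372 c4281 (k4 c4278 c1705 c1707 c11522 (k2 c400 c8998 (k1 c1432 k0)))) (by decide +kernel)
def c11524 : PP 8 4 T 0x1000000000000000000000020000000000000001480000000000000000000000 := rS 0xbb0d (k2 c4329 c2837 (k1 c4477 k0)) (by decide +kernel)
def c11525 : PP 8 4 T 0x400000002000000080000010000004021800000000000484000000000040001108008 := rS 0x2acd69a5f22d5abba2c6550bd529b8b8373ea250ec5318f8aaaf1631cff4264add42b53b9a54e857e92c5e17279440a27249344647308062e678aac4161d72a8cb2293d9b46665498941020 (k8 c838 c839 c2142 c102 c579 c4294 c958 c704 (k8 c2834 c93 c859 c11030 c790 c303 c11521 c4388 (k8 c2855 c4418 c28 c5402 c4374 c4372 c4282 c4281 (k8 c4278 c55 c4435 c4297 c4431 c4432 c4434 c4376 (k8 c1495 c11219 c7643 c7751 c11523 c11524 c1746 c11399 (k8 c4492 c4392 c4391 c2110 c982 c247 c855 c4534 (k8 c1786 c9141 c7030 c7516 c402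 c2118 c841 c3332 (k8 c1079 c4639 c5090 c4398 c3334 c2862 c7804 c4493 (k4 c1516 c1969 c1973 c2120 k0))))))))) (by decide +kernel)
def c11526 : PP 8 4 T 0x4000000000001000000000000000020000800000000000000000000440004200000000 := rS 0x1e8fd6c2d (k4 c894 c851 c400 c1743 (k1 c4471 k0)) (by decide +kernel)
def c11527 : PP 8 4 T 0x400000002000000080000010000004021800000000000484000000000040001100008 := rS 0xab35a697c8b5eab57677541a54aa7373f4b87d44a1cfe632aabe22c9162dd42370790c9617279048a51368cc4e39249344635239862e678aac4161d72a8cb23100995263b148941020 (k8 c838 c839 c2142 c2834 c1576 c102 c579 c28 (k8 c6147 c93 c859 c11030 c790 c303 c11521 c4388 (k8 c2855 c4418 c5402 c4374 c4373 c4372 c4282 c4281 (k8 c4280 c4278 c4294 c958 c4435 c4296 c4433 c4297 (k8 c4431 c4434 c236 c11525 c232 c11526 c1746 c7249 (k8 c11399 c4332 c982 c247 c4534 c6629 c9141 c7030 (k8 c7516 c2118 c4377 c841 c2838 c3332 c11212 c11325 (k8 c7751 c3334 c2862 c1079 c5443 c2114 c1516 c1969 (k2 c1973 c2120 k0))))))))) (by decide +kernel)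
def c11528 : PP 8 4 T 0x400000002000000080000010000000021900000000000084000000000040000100000 := rS 0x3f98e222c5ba846e7d6483df85d534354aa9340604a3b3297c6220040a4962f27b94da33138e4924d118d48e6100c5d26670127e2aa3 (k8 c859 c4388 c1699 c11520 c2855 c102 c4418 c28 (k8 c5402 c4374 c4373 c4372 c4282 c4281 c4280 c4278 (k8 c4294 c958 c11030 c4297 c4432 c4434 c2834 c839 (k8 c838 c6147 c577 c579 c1576 c2142 c11527 c10711 (k8 c2843 c1883 c5264 c2111 c2838 c11219 c4046 c7308 (k8 c4379 c232 c11526 c1746 c7249 c4332 c4534 c6629 (k1 c2118 k0))))))) (by decide +kernel)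
def c11529 : PP 8 4 T 0x1000080000008100000020000000000000004000000000000000000008 := rS 0x1d0a47ab31f8e49317 (k8 c4418 c4281 c4280 c1161 c1163 c1742 c6877 c4471 (k1 c1576 k0)) (by decide +kernel)
def c11530 : PP 8 4 T 0x100000000800000004000020000000000000000008000 := rS 0x3817dfb15 (k4 c4388 c4376 c3401 c4480 (k1 c536 k0)) (by decide +kernel)
def c11531 : PP 8 4 T 0x1000000000000000080000014000014021000000000000024000000000040000004048 := rS 0x168dc3c290402c4e392488c6a478ba4d4625 (k8 c224 c859 c102 c4418 c4374 c4373 c4372 c4281 (k8 c4280 c4278 c303 c4462 c7261 c1105 c232 c393 (k1 c7249 k0))) (by decide +kernel)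
def c11532 : PP 8 4 T 0x400000002000000080000010000000021900000000000004000000000040000100000 := rS 0x31c5a3c1f8184a0f37960b6a313924471550add629f0587404e5 (k8 c11030 c11520 c790 c303 c1699 c11521 c11529 c851 (k8 c4388 c4372 c4281 c4278 c859 c11528 c4476 c1346 (k8 c11530 c224 c11531 c11031 c9517 c855 c331 c11118 k0))) (by decide +kernel)
def c11533 : PP 8 4 T 0x50000804054000001154010000000000000000000000 := rS 0x1566b (k2 c1969 c1973 (k1 c2120 k0)) (by decide +kernel)
def c11534 : PP 8 4 T 0x400000002000000080000000000000021900000000000004000000000040000100000 := rS 0x3f0d66f3caf17e9b459dc866556aecd25a2caa010711b8c40e7f44a1c3e631f15440af1629e22a212a956ab858c54962f0b93c824528b94da3305a743a392683446354999c049f (k8 c1699 c11520 c2855 c102 c4373 c4372 c4371 c4282 (k8 c4280 c790 c10547 c303 c4294 c958 c11030 c4435 (k8 c4296 c4433 c4297 c4431 c4432 c4434 c4388 c11521 (k8 c11532 c164 c3451 c3449 c1475 c4337 c2860 c11410 (k8 c982 c854 c247 c855 c4534 c393 c9141 c7030 (k8 c7517 c11031 c2368 c403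 c1473 c4462 c6996 c1105 (k8 c231 c2843 c3452 c2862 c1697 c10552 c7751 c5443 (k8 c11533 c5760 c2114 c2017 c1079 c580 c4480 c8051 k0)))))))) (by decide +kernel)
def c11535 : PP 8 4 T 0x4400000002000000080000000000020001500000000000000000000401040250000000 := rS 0x435fa6c78bd1b8fe282d86b953a27 (k8 c4278 c10547 c11030 c4329 c894 c4486 c400 c4386 (k4 c4354 c4471 c11122 c5760 (k2 c4567 c5504 k0))) (by decide +kernel)
def c11536 : PP 8 4 T 0x4000000000001000080000000000054000000000000000000000000400151200000200 := rS 0xf47ec6139244647 (k8 c4374 c4372 c4281 c4278 c2110 c400 c2149 c4471 k0) (by decide +kernel)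
def c11537 : PP 8 4 T 0x400000002000000080000000000000061100000000000084000000000040000100000 := rS 0x6e5e4557e9b3b90d50691bc316ac83e9fc7a631f156222c50894761f58994ba5f1888010292cb940a6d19a743a39268d48e6100c5d26670127d468f (k8 c11534 c858 c1699 c11520 c2855 c102 c4418 c28 (k8 c5402 c4374 c4373 c4282 c4280 c790 c10547 c4294 (k8 c958 c55 c11030 c93 c2834 c839 c838 c6147 (k8 c577 c840 c579 c624 c223 c1576 c313 c11535 (k8 c11536 c4332 c247 c855 c4534 c329 c6629 c7516 (k8 c2118 c1705 c7497 c403 c5130 c5264 c10552 c7751 (k4 c866 c5760 c11148 c5504 (k2 c7550 c1079 k0)))))))) (by decide +kernel)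
def c11538 : PP 8 4 T 0x4000000000000000000000000100020000100000040001020000000000004200008000 := rS 0x415667531320ca5c2f8961afd (k8 c4376 c4329 c313 c5471 c4046 c1737 c11483 c810 (k4 c538 c634 c4407 c4481 k0)) (by decide +kernel)
def c11539 : PP 8 4 T 0x2410000002000000080000000001000020100000000000004000000000140100000000 := rS 0xa4c062abe96c3558c47cbe14a687a43038ec3c4500a743a021c9346b1749ab5ca2f5daf63237 (k8 c4386 c5037 c4354 c4390 c4432 c11030 c4554 c102 (k8 c4418 c4373 c4282 c4280 c11520 c790 c10547 c28 (k8 c4296 c4466 c1577 c1098 c2132 c2131 c9123 c7261 (k8 c11148 c4471 c1966 c1973 c2058 c9591 c9441 c1248 (k2 c4494 c11345 (k1 c1982 k0)))))) (by decide +kernel)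
def c11540 : PP 8 4 T 0x400000002000000080000000000020021500000000000044000000000040000000000 := rS 0x1a4603b030243e208c8de282d54c34169d0e8084f17 (k8 c4418 c4278 c11520 c790 c10547 c303 c4329 c7768 (k8 c894 c4486 c4386 c5037 c11539 c86 c231 c4462 (k4 c8077 c11535 c5554 c6830 k0))) (by decide +kernel)
def c11541 : PP 8 4 T 0x1000080000004200054021000000000000060000000000040010100408 := rS 0x41426b23a9557065634405a3c148fc4a063f97c1201138e49223 (k8 c4372 c4281 c4280 c4278 c28 c1145 c545 c675 (k8 c4462 c225 c11031 c8134 c9517 c855 c4468 c11118 (k8 c4412 c331 c251 c538 c1203 c1678 c4312 c4464 k0))) (by decide +kernel)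
def c11542 : PP 8 4 T 0x400000002000000080000000000000021100000000000044000000000140200100000 := rS 0xa82198cfe1918c60d5042a9a612832f84c1e5d7e430eb153d9f4ca364db1a203c149e4ee061f8244a1f0b9048a51029b4669d0889c920d1191cc201339bce2b1509616ea347a7c161d012b5ca2f (k8 c4432 c11030 c4554 c11520 c790 c303 c1699 c11534 (k8 c858 c1747 c4476 c11540 c11541 c537 c1107 c2855 (k8 c28 c5402 c4374 c4372 c4371 c4281 c4278 c4276 (k8 c10547 c4294 c958 c55 c4435 c4296 c4433 c4431 (k8 c86 c313 c231 c400 c4462 c1023 c500 c8134 (k8 c9517 c4468 c2110 c11122 c11072 c4412 c1352 c7035 (k8 c4386 c538 c4486 c4480 c4628 c10635 c1678 c4382 (k8 c4306 c5101 c5130 c250 c4464 c4479 c4482 c6830 (k4 c10711 c7517 c4407 c9075 (k2 c5264 c9425 k0)))))))))) (by decide +kernel)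
def c11543 : PP 8 4 T 0x2400000002000000080000000000000020500000000000004000000000140100000000 := rS 0x21aa918a697abb1c9346a431b8783a02 (k8 c11520 c790 c4466 c2130 c2132 c4373 c4282 c4280 (k4 c4390 c4354 c9123 c1966 (k2 c866 c5264 (k1 c11539 k0)))) (by decide +kernel)
def c11544 : PP 8 4 T 0x400000002000000080000000000000021100000000000044000000000140000100000 := rS 0x7e4322a63821d5667d3f994ab101f0a47a08038ec3c210691cc2018b99ce66f38ac542585ba8d1e9f0587404e5 (k8 c11030 c11520 c790 c303 c1699 c11534 c858 c1747 (k8 c4476 c11540 c11541 c537 c1107 c1617 c2855 c4418 (k8 c28 c5402 c4374 c4371 c11542 c4466 c1577 c1098 (k8 c222 c2131 c7261 c4471 c4468 c8954 c4412 c7517 (k8 c7516 c1186 c538 c4481 c4407 c11543 c4486 c4480 (k1 c7315 k0)))))) (by decide +kernel)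
def c11545 : PP 8 4 T 0x400000002000000080000000000000061100000000000004000000000040000100000 := rS 0x38247c201616c1602 (k8 c11520 c303 c11537 c11544 c854 c855 c231 c11031 (k1 c4462 k0)) (by decide +kernel)
def c11546 : PP 8 4 T 0x2000000000800000000000000000000000000000010000001150000000000 := rS 0x5357aae20e5 (k4 c11030 c4468 c4415 c8140 (k2 c2022 c11345 k0)) (by decide +kernel)
def c11547 : PP 8 4 T 0x400000002000000080000000001000000800000000000480000000000001000008008 := rS 0xdea40c9a54e857e92c5e4f029b466272688d6261868c44001 (k8 c28 c838 c6147 c5264 c5402 c624 c4372 c4282 (k8 c4278 c4294 c958 c55 c4297 c4432 c4434 c4376 (k4 c1495 c11219 c7643 c10711 (k2 c4639 c3332 (k1 c10383 k0))))) (by decide +kernel)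
def c11548 : PP 8 4 T 0x1002000000080000000001000000800000000000480000000001000000004001 := rS 0x6f522c4c30d (k4 c5264 c5402 c624 c11325 (k2 c3332 c10383 k0)) (by decide +kernel)
def c11549 : PP 8 4 T 0x400000002000000080000000000010000800000000004480000000000141000100008 := rS 0x324bafc3f9541ea965b3cfb436327ccb4b51a4d5a671793dca27249341a23239845231100043e59 (k8 c93 c223 c28 c838 c6147 c2834 c5402 c4374 (k8 c4372 c4371 c4282 c4281 c4278 c11030 c4297 c4432 (k8 c4555 c4554 c11351 c11410 c9591 c579 c1428 c2110 (k8 c4391 c1352 c1519 c11546 c7105 c11547 c250 c7517 (k4 c11548 c4377 c4305 c2118 k0))))) (by decide +kernel)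
def c11550 : PP 8 4 T 0x1100001000001000000000000000050000000050004045480000005100000000000600 := rS 0x190eac98b0ed625d (k8 c841 c624 c9680 c4471 c7550 c4417 c5857 c578 k0) (by decide +kernel)
def c11551 : PP 8 4 T 0x1400000002000000080000000002051000000040004004480000045000200000108408 := rS 0x1194c8eca65409c14cc9b5f9f4e0390401d626100c4586415ab948efd (k8 c4376 c4374 c11030 c7513 c4433 c9009 c4332 c28 (k8 c5402 c624 c494 c839 c4280 c4480 c8975 c3487 (k8 c867 c11550 c4310 c510 c919 c9747 c1062 c9679 (k2 c9828 c4488 k0)))) (by decide +kernel)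
def c11552 : PP 8 4 T 0x400000002000000080040010002051000800000000004480000045000200000108408 := rS 0x82994e4755b45876672e0dcdc7f1c8d4111588ad5ca47 (k8 c4374 c11030 c7513 c4332 c4388 c839 c4373 c4280 (k8 c1455 c11551 c1344 c1345 c922 c9680 c4471 c8302 (k4 c4417 c1077 c578 c4408 (k1 c4478 k0)))) (by decide +kernel)
def c11553 : PP 8 4 T 0x1400000002000000084000000002051000000000004004480000045000200000108408 := rS 0x76536284ca9055f9f8e0e50681d626100bf68abb (k8 c1444 c4398 c4376 c28 c5402 c624 c494 c4371 (k8 c11030 c4480 c11551 c3487 c4313 c7517 c514 c8360 (k2 c9747 c1601 (k1 c11242 k0)))) (by decide +kernel)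
def c11554 : PP 8 4 T 0x400000002000000080000010000050000800000000004484000005000201000108008 := rS 0x1568b32b04ea6b8b269123b5f464cebd2e0dcdccf6310d0e7756aecd2a754215fa4b1793c824572814169d0e8e49a3530964107b368c440018ac455e33 (k8 c4294 c982 c4332 c4388 c28 c838 c6147 c958 (k8 c704 c839 c93 c5402 c4373 c4282 c4280 c790 (k8 c10547 c303 c55 c11030 c4296 c4433 c4297 c4432 (k8 c4434 c4376 c1495 c11547 c11219 c7643 c1444 c948 (k8 c7751 c10041 c10552 c11552 c1519 c11553 c1344 c1345 (k8 c1079 c922 c5090 c2114 c9680 c4794 c1516 c4471 (k4 c1969 c4417 c4420 c578 (k2 c4632 c1972 (k1 c2120 k0))))))))) (by decide +kernel)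
def c11555 : PP 8 4 T 0x400001002000000080000000000051000800000004004480000005000201000104408 := rS 0x7f3395531193c2097e430ca1502bb34a94e0a85392c361727904da330889c724d0688cb208038c441113ead5ca47589840315 (k8 c4388 c28 c5402 c624 c4374 c11030 c7513 c8975 (k8 c4332 c838 c6147 c494 c839 c93 c4372 c4371 (k8 c4282 c4280 c4278 c4276 c4294 c958 c4433 c4297 (k8 c4431 c4292 c4434 c11219 c11548 c4480 c190 c2843 (k8 c1444 c1362 c10110 c10711 c10552 c1513 c2108 c588 (k4 c4447 c10455 c9679 c919 (k2 c7517 c11550 k0))))))) (by decide +kernel)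
def c11556 : PP 8 4 T 0x100000000000000000000000000000000000000000004080000000800000000000408 := rS 0x662a8200e01 (k4 c28 c494 c839 c1601 (k2 c9680 c919 k0)) (by decide +kernel)
def c11557 : PP 8 4 T 0x400000002000000080000008000051000800000000004480000005000201000104408 := rS 0x20a6739170dcfd0ca14d2a88650cda3318880029f5a91cca758b0ee22e5 (k8 c11030 c4332 c11556 c4471 c4417 c578 c4374 c7513 (k8 c1427 c28 c838 c6147 c4294 c958 c4424 c4489 (k8 c5264 c2843 c10110 c10711 c11065 c11555 c1345 c1077 (k2 c922 c4408 (k1 c4478 k0))))) (by decide +kernel)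
def c11558 : PP 8 4 T 0x400000002000000080000000000040010800000000000484000001000201000100008 := rS 0x2ad34be5ea2c8677569a4dcfd542ecfe6744a1e18553ed0d8cb71b83c9617279048a5136a743a39249341a3530964103100c5542b9578cd3eb523b04ca758b0ee226305b947e20 (k8 c838 c401 c11030 c303 c842 c4332 c11556 c4471 (k8 c4417 c578 c4420 c4374 c7513 c1427 c4294 c982 (k8 c1476 c850 c4388 c28 c6147 c839 c93 c5402 (k8 c4373 c4371 c4282 c4281 c4280 c790 c10547 c958 (k8 c4435 c4296 c4433 c4297 c4431 c4434 c11554 c232 (k8 c11557 c2113 c4391 c1352 c250 c4489 c9141 c7030 (k8 c919 c7517 c4825 c5264 c7315 c11550 c2843 c948 (k8 c7751 c10552 c5443 c1079 c2114 c1516 c1972 c11210 k0)))))))) (by decide +kernel)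
def c11559 : PP 8 4 T 0x1000000000001500000002000000000000440050080000000000000000000000045401000000000000 := rS 0xaba59498acf (k4 c1524 c8360 c11242 c4456 (k2 c1942 c4491 k0)) (by decide +kernel)
def c11560 : PP 8 4 T 0x1500000002000000000000000442081000000040405105080000045401000000008000 := rS 0x1171884264d6ac4dafe08702eac58641329d62ce57ed157687 (k8 c10041 c1444 c4398 c4376 c11030 c4471 c4417 c578 (k8 c4433 c9009 c624 c841 c4480 c8633 c3487 c867 (k4 c11559 c2049 c2050 c4479 (k2 c4488 c4322 (k1 c9062 k0))))) (by decide +kernel)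
def c11561 : PP 8 4 T 0x500000002000000080040010442081000800000401105080000045401000000008400 := rS 0x35224ceab56a6916c83eb119ebe8cad97a5c1b9b8fe4b279048a39268d4b27b58c556a47329d62ce5a2aed9a87 (k8 c10041 c1484 c1444 c4398 c11030 c4471 c4417 c578 (k8 c4374 c7513 c4388 c624 c704 c93 c4373 c4282 (k8 c4280 c4296 c4433 c4297 c4434 c1455 c11560 c1344 (k8 c1345 c1079 c8302 c5090 c2114 c1797 c7634 c1627 (k8 c1078 c4632 c1516 c949 c1675 c923 c637 c2120 (k1 c1969 k0)))))) (by decide +kernel)
def c11562 : PP 8 4 T 0x500000002000000080000010440080000800000000004484000005000001000108008 := rS 0x5c33224dcab359c534be45ab59e7d6310d0e775dd14d2a754215fa2f27814da334e874b231102c4c2018ab04ca758b0ec16e5 (k8 c11030 c303 c11556 c4471 c4417 c578 c4420 c4388 (k8 c28 c5402 c624 c838 c6147 c93 c790 c10547 (k8 c4294 c958 c55 c4297 c4432 c4376 c1495 c11547 (k8 c11219 c7643 c4398 c1444 c7751 c10041 c10552 c11561 (k8 c1352 c1519 c949 c5443 c11559 c1516 c1513 c1969 (k4 c1972 c4480 c5289 c2120 (k2 c1345 c923 k0)))))))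 (by decide +kernel)
def c11563 : PP 8 4 T 0x500001002000000080000000040081000800000004000480000005400000000004008 := rS 0x465974b559e158bc412fc861942a057669a29c150a72586c2e4f229b466111c9341a352c8c440b1308062ac320b946e08 (k8 c839 c232 c11030 c4433 c9009 c4388 c28 c5402 (k8 c624 c838 c6147 c93 c4373 c4371 c4282 c4280 (k8 c4276 c4294 c958 c4296 c4297 c4431 c4292 c4434 (k8 c11219 c11548 c4480 c4398 c2843 c1444 c1362 c10110 (k8 c10711 c10552 c1513 c2108 c2114 c11559 c588 c162 (k4 c4458 c2026 c4447 c9163 k0)))))) (by decide +kernel)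
def c11564 : PP 8 4 T 0x400002002000000080000000000000000000000001100400000000001000000004000 := rS 0x3285 (k2 c10110 c10711 (k1 c11065 k0)) (by decide +kernel)
def c11565 : PP 8 4 T 0x2000000080000040001180000800000000000000000045441001000000000 := rS 0x5362b2978a667afc962f279046645138e49a35 (k8 c4373 c4282 c4280 c4278 c4296 c4294 c4433 c4297 (k8 c4432 c4434 c1515 c1523 c4839 c2114 c941 c1176 (k2 c2022 c11242 k0))) (by decide +kernel)
def c11566 : PP 8 4 T 0x400002002000000080000000000080000800000001000484000005401001000004200 := rS 0x150bb21a94f26884a04f637 (k8 c232 c704 c4380 c5101 c11564 c1961 c1883 c237 (k2 c11057 c11565 (k1 c2843 k0))) (by decide +kernel)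
def c11567 : PP 8 4 T 0x100000000000000000000008100000000000000008014200000000000000000000000 := rS 0x8299ce47d (k4 c1627 c1077 c923 c4408 (k1 c4478 k0)) (by decide +kernel)
def c11568 : PP 8 4 T 0x400000002000000080000000000000050800000000000484000000000041000100008 := rS 0x15a67679f512c65baacd69a45afa32bd21a1cee7f2e2ecd26e543f46e0f5119582758b0ed6a3d57c4458b95092c2e4f20915ca0b4e8747249268d48e59041ecda331898d626100acc7e20 (k8 c838 c401 c665 c28 c5402 c624 c842 c6147 (k8 c4294 c958 c704 c839 c93 c4374 c4373 c4282 (k8 c4281 c4280 c790 c10547 c303 c11030 c4296 c4433 (k8 c4297 c4431 c4434 c850 c1476 c11549 c4332 c982 (k8 c329 c7513 c11556 c4471 c4417 c4420 c578 c11558 (k8 c11562 c232 c11566 c11548 c11563 c2843 c1444 c1345 (k8 c3433 c7751 c10041 c10552 c1079 c5090 c2114 c4632 (k8 c1516 c1969 c1972 c11567 c2113 c7541 c1352 c1519 (k2 c923 c949 (k1 c2120 k0)))))))))) (by decide +kernel)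
def c11569 : PP 8 4 T 0x20000002000000080000000000000000000000000000000000000001150000000000 := rS 0x19f43543189e272491d4623a5ab45ecb26a7e20e5 (k8 c11030 c4468 c4414 c4282 c11546 c4432 c4554 c9591 (k8 c4372 c11410 c4374 c4281 c4278 c4297 c4200 c5264 (k2 c4391 c1519 (k1 c7105 k0)))) (by decide +kernel)
def c11570 : PP 8 4 T 0x410000002000000080000000000000001500004000000504000000001001000000200 := rS 0x219e4d1091baecdefc07c50da33269840202 (k8 c11520 c28 c5402 c4282 c4294 c958 c4486 c4046 (k8 c4477 c9688 c4390 c4386 c5101 c11564 c1961 c237 (k1 c9686 k0))) (by decide +kernel)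
def c11571 : PP 8 4 T 0x1400000002000000080000000002051000000000004004480000045000200000108408 := rS 0x19c7e (k2 c11551 c11553 (k1 c3496 k0)) (by decide +kernel)
def c11572 : PP 8 4 T 0x400000002000000080000400000001400400000408000000000040000000000000400 := rS 0x17a37 (k2 c1344 c1079 (k1 c5504 k0)) (by decide +kernel)
def c11573 : PP 8 4 T 0x400000002000000080000440402011000000000404104580000005000200000108408 := rS 0x20aac3f289fa61a2a155f151a93472432c9b4663110004ca758b0ee22e5 (k8 c11030 c4332 c11556 c4471 c4417 c578 c28 c838 (k8 c6147 c4294 c958 c93 c10552 c4280 c4282 c4373 (k8 c11148 c982 c10110 c4398 c5402 c4376 c11571 c11560 (k2 c11559 c4313 (k1 c11272 k0))))) (by decide +kernel)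
def c11574 : PP 8 4 T 0x400000002000000080000000000000041100000000000084000000000040000100000 := rS 0x14a62a623278382f104fd1b83cdec18b4559a3b5f8f55f11218650a774dd15022c34aa176a553a86185d478fc4ab35898cbe313d88010292c92c362f0b93c824568945ca05368cc169d0e8444e39268344635308040495 (k8 c11545 c11520 c28 c5402 c4373 c4372 c4371 c4282 (k8 c4280 c4278 c4276 c790 c10547 c303 c4294 c958 (k8 c55 c11030 c4435 c4298 c4296 c4433 c4297 c4431 (k8 c4432 c4292 c4434 c93 c2834 c839 c838 c704 (k8 c6147 c577 c842 c624 c665 c313 c401 c11568 (k8 c840 c11570 c4329 c4330 c4385 c4825 c5264 c5130 (k8 c11569 c9279 c4398 c866 c7751 c10110 c10711 c10552 (k8 c4332 c982 c329 c5760 c11556 c1484 c11148 c4471 (k8 c4420 c11572 c11573 c232 c11564 c2108 c5504 c4480 (k4 c588 c4447 c4488 c1136 (k2 c7719 c7558 k0))))))))))) (by decide +kernel)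
def c11575 : PP 8 4 T 0x400000002000000080000000001001000800000405100200000000001001200000000 := rS 0x40a92327b5392c5e4f1989c9a23 (k8 c4372 c4282 c4278 c4294 c4297 c4432 c4434 c812 (k4 c4055 c8064 c2111 c7000 (k1 c1341 k0))) (by decide +kernel)
def c11576 : PP 8 4 T 0x400000000000400000002000000084000000000001000800000405001400000000001151200008010 := rS 0x19b45531a0b8a986b2e963326ab45ea311b950a4f (k8 c4297 c1495 c11030 c4372 c11410 c4432 c4554 c4282 (k8 c4294 c9591 c11546 c11569 c7105 c4046 c11575 c7643 (k2 c4453 c2066 (k1 c4495 k0)))) (by decide +kernel)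
def c11577 : PP 8 4 T 0x2000200000008 := rS 0xd205 (k2 c55 c1879 (k1 c6830 k0)) (by decide +kernel)
def c11578 : PP 8 4 T 0x410000002000000080000000001001000800000405101400000000001001200004000 := rS 0x1fa5d (k2 c11575 c11564 (k1 c4477 k0)) (by decide +kernel)
def c11579 : PP 8 4 T 0x400000002000000080000000000000010900000000000044000000000140200000000 := rS 0x66d154ca5342a41f0d65d2c62cfa197d8c713ba7c0c93148244a1f279040a6d1982d3a1d139249a0d2398402023796142ad17a8c46e5 (k8 c11030 c4372 c11410 c4432 c4554 c850 c4476 c1107 (k8 c11520 c28 c5402 c4374 c4371 c4282 c4281 c4278 (k8 c790 c10547 c303 c4294 c958 c55 c4433 c4297 (k8 c86 c313 c231 c834 c11351 c4462 c1428 c1023 (k8 c496 c2110 c1425 c4391 c1519 c11577 c9591 c11546 (k8 c11569 c11576 c7105 c11578 c1883 c4839 c4453 c2066 (k1 c4495 k0))))))) (by decide +kernel)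
def c11580 : PP 8 4 T 0x400000002000000080000000000000000900000000000424000000001000080000000 := rS 0x1193ba6932a652aa4f26884975f8712585c9e6d1982c4e4d1281c03153d9141eb104008726f (k8 c1107 c4280 c11520 c222 c1145 c11530 c4296 c1224 (k8 c4388 c28 c1098 c7033 c4282 c4278 c303 c4294 (k8 c958 c4297 c4431 c4434 c536 c4480 c4377 c5101 (k8 c11564 c1961 c826 c1883 c4871 c2011 c852 c1111 (k2 c4448 c4482 k0))))) (by decide +kernel)
def c11581 : PP 8 4 T 0x1400000002000000080000410000014001100500000100024000000001140080104000 := rS 0xc62844a1d6e558bd2c7cc162a6e30a83cc268abc422ec32772586c2e4f20b44a26d19a743a11139249a0d1a91cdea31190c7a371281c027b22ac472931d82004e5 (k8 c11030 c11520 c222 c3112 c9125 c4280 c1145 c4296 (k8 c1224 c28 c1098 c7033 c2130 c2131 c2132 c4372 (k8 c11410 c1107 c4374 c4373 c4371 c4282 c4281 c4278 (k8 c4276 c790 c10547 c4294 c958 c4435 c4298 c4433 (k8 c4297 c4431 c4292 c4434 c1112 c10711 c11071 c2108 (k8 c2114 c4397 c4321 c2505 c10079 c4482 c867 c4370 (k8 c4450 c11043 c7558 c4356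 c8954 c1161 c9141 c7030 (k2 c7249 c7770 (k1 c794 k0))))))))) (by decide +kernel)
def c11582 : PP 8 4 T 0x400000002000000080000010000010001900000000000024000000001140080100000 := rS 0x1193ba6932a652aa4f3093420d02bf38174bc2f278cc4e4d1281c03153d9141eb11c9bd3e931d82004e5 (k8 c11030 c11520 c222 c3112 c9125 c1428 c1107 c4280 (k8 c1145 c11530 c4296 c1224 c4388 c28 c1098 c7033 (k8 c4282 c4278 c4294 c4297 c4432 c11580 c65 c1425 (k8 c3491 c3403 c2500 c11581 c4437 c1961 c826 c1882 (k4 c4839 c2011 c852 c1111 (k2 c4448 c4482 k0)))))) (by decide +kernel)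
def c11583 : PP 8 4 T 0x400000002000000080000000000000041900000000000004000000000140000100000 := rS 0x18c508943adcab171f52e8abc60aee30c584a6cd4690c0c13e931d9ec4a371e90c10070f0854617279048ad128b940a0105a743a02138e492231a91cb05b8aa857295 (k8 c11545 c1476 c850 c4388 c11574 c4476 c4374 c4373 (k8 c4372 c4281 c4280 c4278 c11520 c790 c10547 c303 (k8 c28 c55 c11030 c4435 c4298 c4296 c4433 c4297 (k8 c4431 c11410 c11579 c4466 c1098 c222 c2132 c2131 (k8 c2130 c7033 c1224 c3112 c9125 c1428 c11582 c228 (k8 c1879 c229 c1966 c4436 c7718 c5528 c4449 c4450 (k8 c5090 c4454 c7558 c11043 c4356 c8954 c1161 c9141 (k4 c7030 c7249 c7770 c794 k0)))))))) (by decide +kernel)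
def c11584 : PP 8 4 T 0x400000002000000080000000001001000800000405101000000000001001200008000 := rS 0xbb0d (k2 c5264 c11575 (k1 c4046 k0)) (by decide +kernel)
def c11585 : PP 8 4 T 0x19400000002000000080000440040501000014005440100020000040000001000000000 := rS 0x311308b1388d66c1 (k8 c4420 c4358 c4372 c4278 c10949 c10455 c9460 c1136 k0) (by decide +kernel)
def c11586 : PP 8 4 T 0x1500000002000000080000440050501000004005500104060000045401001000000000 := rS 0x6435aae968a29316308933b05671639b0c82e5 (k8 c11030 c4433 c9009 c1110 c4471 c4358 c4420 c5282 (k8 c4794 c11585 c4370 c9828 c2123 c4456 c1942 c565 (k2 c5443 c7555 k0))) (by decide +kernel)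
def c11587 : PP 8 4 T 0x11400000002000000080005440440501000014005540100020000040000001000000000 := rS 0xc44c22c4e23 (k4 c4372 c4278 c10949 c10455 (k2 c2123 c1136 k0)) (by decide +kernel)
def c11588 : PP 8 4 T 0x400000000000000000000000040000000080000001100000000000000000000000000 := rS 0xd709 (k2 c4322 c565 (k1 c4479 k0)) (by decide +kernel)
def c11589 : PP 8 4 T 0x1400000002000000080004440040501000044005540100020000040800001000100000 := rS 0xc48c22566c12a85ca2e5 (k8 c11030 c4435 c4431 c1600 c1580 c1042 c7030 c11587 (k2 c2123 c4370 k0)) (by decide +kernel)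
def c11590 : PP 8 4 T 0x500000002000000080000000040001000800041505105460000005001001200108000 := rS 0x10564d0e307d67289326759ab22c3b4590d36bb52aa17ea7439ec4e2339b0c82e57eac22a09 (k8 c231 c4388 c10635 c4376 c11030 c4433 c9009 c1110 (k8 c4372 c4278 c4055 c10041 c4532 c1242 c11584 c190 (k8 c1444 c867 c4567 c11588 c11589 c4471 c11586 c4358 (k8 c5282 c2050 c948 c949 c1354 c10455 c4393 c1792 (k2 c9062 c4483 k0))))) (by decide +kernel)
def c11591 : PP 8 4 T 0x500000002000000080000000040000001900000100004044000005000000200108000 := rS 0x1193da6978a6849a0feb0428bc9ee5029b4669d0e984026f8a9ccb025189dc82790b97ce2060482c040d (k8 c4371 c11520 c303 c231 c4462 c496 c1425 c4431 (k8 c500 c4433 c1023 c11577 c313 c4476 c1110 c4388 (k8 c1107 c28 c5402 c790 c10547 c4294 c958 c55 (k8 c11030 c4297 c4432 c1495 c10635 c8327 c11590 c4437 (k4 c7643 c4500 c852 c1172 (k2 c4448 c4482 k0)))))) (by decide +kernel)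
def c11592 : PP 8 4 T 0x400000002000000080000000001001000800000405101400000000001001200004000 := rS 0x10d (k2 c5264 c11578 k0) (by decide +kernel)
def c11593 : PP 8 4 T 0x400000002000000080000000000001000800000105101060000005001201200104080 := rS 0x10544b2687183e9559ca24c99d66ac8b0ec86824da0576a5542fd608b53bf50a870c9ec961b278444e4d11c5622af199ccc6c3729dc82790b97ce20d (k8 c4371 c496 c1425 c4431 c500 c4433 c1023 c11030 (k8 c9009 c815 c1110 c4294 c982 c4332 c4388 c4372 (k8 c4282 c4278 c4276 c4297 c4292 c4434 c4055 c10711 (k8 c10041 c10110 c11564 c4532 c11588 c5772 c1242 c11592 (k8 c190 c1444 c1362 c867 c2108 c4567 c11589 c4471 (k8 c11586 c4358 c5282 c2050 c948 c949 c247 c1354 (k4 c10455 c4393 c1792 c7030 (k2 c9062 c8144 k0)))))))) (by decide +kernel)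
def c11594 : PP 8 4 T 0x1000002000000080000000001100001900001400001400000000001001000000000 := rS 0xbafd422c0f5194d2f14d0d258bc9e33139344715 (k8 c4388 c4372 c4282 c4278 c4294 c4297 c4432 c4434 (k8 c5264 c2111 c4500 c852 c4448 c4482 c1171 c1172 (k2 c4304 c1497 (k1 c4477 k0)))) (by decide +kernel)
def c11595 : PP 8 4 T 0x400000002000000080000000000000011900000000000044000001000200200100000 := rS 0x4d2f0f4b07ea10b8a75429612680797ce2793b818623f048942e413682d3a1d069840202379d4b11588abc6663 (k8 c815 c4294 c982 c4332 c4388 c4476 c539 c1107 (k8 c11520 c28 c5402 c4371 c790 c10547 c303 c958 (k8 c4433 c4431 c313 c231 c401 c11577 c4462 c1023 (k8 c500 c496 c1425 c11591 c11593 c4437 c1883 c11594 (k8 c191 c826 c827 c4377 c5772 c714 c715 c7035 (k1 c2018 k0)))))) (by decide +kernel)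
def c11596 : PP 8 4 T 0x500200002000000080000000440040000004504101100060000000001000000004000 := rS 0xc256c61507984a1116193b92c3617278449a0d (k8 c4371 c4282 c4276 c4297 c4431 c4292 c4434 c1112 (k8 c10711 c11588 c2108 c4321 c2505 c10079 c4482 c948 (k2 c9062 c5849 k0))) (by decide +kernel)
def c11597 : PP 8 4 T 0x500200002000000080000000440000000904040100000044000000001000080000000 := rS 0x1193ba6932a654a94f3093420d02a338174bc4b1793cda33139344625038062a7b2283d6208010e4de58 (k8 c4476 c1107 c4280 c11520 c222 c1145 c11530 c4296 (k8 c1224 c4388 c28 c1098 c7033 c4372 c4282 c4278 (k8 c4294 c958 c4297 c4432 c4434 c11580 c65 c1425 (k8 c1465 c3403 c2500 c11596 c4437 c1961 c1882 c826 (k4 c2111 c2011 c852 c1111 (k2 c4448 c4482 k0)))))) (by decide +kernel)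
def c11598 : PP 8 4 T 0x400000002000000080000000000000041900000000000004000000000040000100000 := rS 0xeec345b04f269551483030821fd128762c5d667b2a8f924430407842731e98d5f111605c824528b940a6d19874040d3a960b695 (k8 c11545 c11574 c4476 c539 c4371 c11520 c790 c4294 (k8 c958 c55 c11030 c4435 c4296 c4433 c4431 c11583 (k8 c4332 c982 c815 c329 c1110 c11595 c4466 c222 (k8 c2132 c393 c392 c2165 c1224 c3133 c4356 c1248 (k8 c9141 c7030 c7517 c4481 c11597 c228 c396 c397 (k4 c1879 c8961 c1982 c1673 (k2 c9076 c1112 (k1 c2123 k0)))))))) (by decide +kernel)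
def c11599 : PP 8 4 T 0x2400000002000000080000000000001400500000000000000000000001000000000000 := rS 0x21afc6ebd (k4 c4354 c4386 c5760 c4567 (k1 c5504 k0)) (by decide +kernel)
def c11600 : PP 8 4 T 0x400000002000000080000000000000011500000000100044000000001140200000000 := rS 0x7a0cbc6b52a69fa8584206323758c50f30d030a412252586c2e4f058449a0d30804de772c1ed3a1d0c9b40433 (k8 c4294 c11520 c958 c10711 c790 c10547 c4055 c4476 (k8 c1112 c1107 c28 c5402 c4371 c4282 c4276 c303 (k8 c4297 c4431 c4292 c4434 c313 c231 c834 c4462 (k8 c11569 c500 c4486 c4350 c4386 c5037 c8106 c4482 (k8 c4321 c5101 c11599 c1971 c1968 c11079 c548 c5407 (k1 c2108 k0)))))) (by decide +kernel)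
def c11601 : PP 8 4 T 0x1000000000000000000002000000001080000000000000000000000000000010000001150000000000 := rS 0x65d2d5ae517d0d9e4f (k8 c4297 c1519 c4391 c4432 c11030 c4554 c9591 c11546 (k1 c4495 k0)) (by decide +kernel)
def c11602 : PP 8 4 T 0x1000000000000000000002000000081000005000000000000000154000100000005441140000100208 := rS 0xfec982848c4283eb1972b3729249a0d1a91d6239 (k8 c4280 c1145 c4374 c4373 c4371 c4282 c4281 c11030 (k8 c1185 c7514 c2113 c1352 c11601 c794 c795 c4407 (k2 c1729 c514 (k1 c5124 k0)))) (by decide +kernel)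
def c11603 : PP 8 4 T 0x2400000002000000080000000000000041100000000100004000000001140000100000 := rS 0x1974b14d0cc69f59b3e20c52ac5c7c5d66a9a1b4561aa54abe4d4656ab722a74724d1a9bcea71568bd4623218f46e73498ec101e10a3d2a1d01394b05b (k8 c11574 c4476 c11030 c11520 c790 c11545 c11598 c11600 (k8 c4466 c222 c3112 c9125 c1109 c2130 c2131 c2132 (k8 c4372 c11410 c4432 c4554 c537 c539 c1107 c4373 (k8 c4282 c4280 c10547 c4296 c4353 c4389 c5037 c11599 (k8 c11148 c1971 c866 c2059 c4399 c5264 c4490 c5541 (k8 c812 c11602 c4356 c8954 c1248 c4487 c4541 c1186 (k4 c4414 c7153 c11164 c794 (k2 c9591 c11546 (k1 c4495 k0))))))))) (by decide +kernel)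
def c11604 : PP 8 4 T 0x400000002000000080000000000000041100000000100004000000001140000100000 := rS 0x797df90c8aac4101e109b4661d010e52a6f38a3cb05b (k8 c11574 c4476 c11598 c537 c1107 c11545 c4280 c11520 (k8 c790 c4294 c958 c11600 c4466 c222 c1145 c11603 (k4 c4486 c4480 c4382 c4376 (k1 c11564 k0)))) (by decide +kernel)
def c11605 : PP 8 4 T 0x400000002000000080000000000000051500000000000000000000001140210000000 := rS 0x19ca066d1572a61eaa54aafa1a696ab78a27d570d65d2e2093148fc4a1f2593c669d139346aad17a8c46e5 (k8 c11030 c4372 c11410 c4432 c4554 c4373 c4282 c4278 (k8 c10547 c4294 c4297 c4434 c86 c313 c401 c834 (k8 c11351 c4468 c9591 c11546 c11569 c4415 c4414 c4486 (k8 c4353 c4389 c11599 c11164 c868 c1971 c866 c11080 (k4 c2111 c7514 c4453 c2066 (k2 c11255 c4495 (k1 c1794 k0))))))) (by decide +kernel)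
def c11606 : PP 8 4 T 0x400000002000000080000000000000041100000000000004000000001140000100000 := rS 0x1297619155fac4f6430401c3c213cc24d045028043a021c9346a9537960b68f (k8 c11598 c11574 c4476 c1107 c11545 c4373 c4282 c4280 (k8 c11520 c790 c28 c55 c4296 c11604 c4437 c1961 (k8 c11605 c4466 c1098 c222 c2132 c1224 c1145 c7782 (k4 c11148 c4486 c4628 c7033 (k1 c5130 k0))))) (by decide +kernel)
def c11607 : PP 8 4 T 0x400000002000000080000000000000041100000000000004000000000140000100000 := rS 0xc67f32a250e551f1f5274552a7cbefc2ed2c76b15e4322ac162aec6e3d0410e301e4d9ee1221539a8d2181828cce17279048ad128b940a01368cc169d0e808724d0688c6a6f38a3cb05b (k8 c11574 c4476 c11598 c537 c1107 c4373 c4372 c4371 (k8 c4282 c4280 c11520 c790 c10547 c303 c4294 c958 (k8 c28 c55 c11030 c4435 c4298 c4296 c4433 c4297 (k8 c4431 c4555 c11410 c11606 c228 c1879 c229 c2006 (k8 c11577 c4436 c4055 c3875 c4466 c5528 c277 c222 (k8 c2131 c2130 c4449 c4370 c4450 c5037 c9822 c5090 (k8 c1145 c3112 c7558 c4628 c4480 c4382 c4384 c4385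 (k8 c4454 c9125 c4379 c11043 c8954 c9141 c7030 c9676 (k2 c7517 c7770 (k1 c11058 k0)))))))))) (by decide +kernel)
def c11608 : PP 8 4 T 0x1400000002000000080000000000001001544005100100060000005001201000100000 := rS 0xc544c60aa9933b0566ac8b0ec86bf4daa176a553c302f11578cce6633bb0c82e5 (k8 c11030 c4433 c9009 c1112 c815 c1110 c4294 c982 (k8 c4332 c4431 c4486 c4330 c4385 c4825 c5264 c866 (k8 c5760 c4567 c11589 c4471 c11586 c4358 c4420 c5282 (k4 c2050 c247 c4488 c7030 (k2 c4370 c9460 k0))))) (by decide +kernel)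
def c11609 : PP 8 4 T 0x400000002000000080000000000000011500000000100044000001001200200100000 := rS 0x4183cbcfd429ad4b0840a6a323758c50f2061f8244a4b0d85c9e0b089341a61009bcea772c1ed3a1d0ca2d5e87319b40433 (k8 c4294 c11520 c958 c815 c10041 c982 c11588 c10711 (k8 c790 c10547 c4055 c4476 c1112 c539 c1107 c28 (k8 c5402 c4371 c4282 c4276 c303 c4297 c4431 c4292 (k8 c4434 c313 c231 c401 c4462 c500 c11608 c4350 (k8 c4386 c5037 c11599 c8106 c4482 c1971 c1968 c4321 (k4 c5101 c11079 c5407 c548 (k1 c2108 k0))))))) (by decide +kernel)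
def c11610 : PP 8 4 T 0x400000002000000080000011000000011500000000100044000001001200000100000 := rS 0x53895765f4fc5190fd3e9fd6f1759ac4aa3e490dc86080f085ca9d0e8e41a35239840202379d4e2a1139ccc658 (k8 c4476 c815 c1110 c4278 c894 c537 c539 c1107 (k8 c11520 c28 c5402 c4374 c4373 c4371 c4280 c790 (k8 c10547 c11030 c11609 c4466 c222 c2132 c2130 c393 (k8 c392 c2165 c1145 c3133 c4356 c1161 c7517 c7516 (k8 c8860 c2121 c4088 c1665 c547 c4390 c395 c4532 (k1 c11195 k0)))))) (by decide +kernel)
def c11611 : PP 8 4 T 0x1400000002000000080000000000000001500000004200004000000001001000000000 := rS 0x7b5826d085c5417d4f0c1793c0a6d19a743a02 (k8 c11520 c790 c10547 c4294 c958 c55 c4297 c4432 (k8 c4486 c4330 c4382 c5264 c5130 c7643 c866 c4628 (k2 c7035 c714 k0))) (by decide +kernel)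
def c11612 : PP 8 4 T 0x1000000000000800000000000000000000000000005000000000100000 := rS 0x7717 (k2 c4358 c1042 (k1 c4471 k0)) (by decide +kernel)
def c11613 : PP 8 4 T 0x2110000000000000000000010400000000000000104045504000000000000000000000 := rS 0x1960a7d64bf162b7 (k8 c4353 c4350 c4477 c4305 c4379 c9531 c9061 c4478 k0) (by decide +kernel)
def c11614 : PP 8 4 T 0x400000002000000080000011000000011500000000000044000001001200200100000 := rS 0x324fe873e978aa6759a04baa686a0d52a53d26a32b71bac62877030fc1225258bc9e4119945ca0b4e8749a0d119840202379d4e3115089ce6632c424f268 (k8 c11610 c1961 c4437 c4476 c815 c1110 c4278 c894 (k8 c4332 c537 c539 c1107 c11520 c28 c5402 c4372 (k8 c4371 c4282 c790 c10547 c303 c11030 c4435 c4294 (k8 c4433 c4297 c4432 c4434 c313 c231 c401 c4462 (k8 c1023 c11611 c4350 c4386 c4353 c5037 c11599 c4482 (k8 c1971 c866 c642 c5264 c2111 c813 c1897 c11612 (k8 c656 c247 c11613 c7640 c9141 c7517 c547 c4032 k0))))))) (by decide +kernel)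
def c11615 : PP 8 4 T 0x400000002000000080000011000000011500000000000044000001001200000100000 := rS 0x1145f9f4feb759ac4f6551f24886080f084f30934115ca1d010e49a0d1a91cde75389ccc658 (k8 c4476 c815 c1110 c537 c539 c1107 c4374 c4373 (k8 c4371 c4282 c4280 c11520 c790 c11030 c4296 c11610 (k8 c4437 c1961 c11614 c4466 c222 c2132 c393 c392 (k8 c2165 c1224 c1145 c3133 c1161 c7517 c7516 c7782 (k2 c4088 c11148 k0))))) (by decide +kernel)
def c11616 : PP 8 4 T 0x400000002000000080000000000000041100000000000004000000000040000100000 := rS 0x1183d9dd36c345a250f4b84884d46955148303039ad5723d31c44588f3a960b69520814da3305a743a02 (k8 c11520 c790 c10547 c303 c4294 c958 c55 c4433 (k8 c11545 c11574 c4476 c539 c11598 c11607 c4332 c815 (k8 c329 c6781 c7420 c1110 c11615 c228 c396 c397 (k8 c1879 c229 c11577 c4436 c4456 c1903 c3852 c1673 (k4 c9076 c3880 c1112 c4055 (k2 c5528 c9078 k0)))))) (by decide +kernel)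
def c11617 : PP 8 4 T 0x1000000000000000000080000000000000000000000000040010000408 := rS 0x783f100b0761f14c452a93 (k8 c158 c159 c4336 c2769 c1194 c1043 c4468 c4466 (k2 c401 c927 (k1 c7859 k0))) (by decide +kernel)
def c11618 : PP 8 4 T 0x4000000000000000040000000000044000900000000050080000002000000200000008 := rS 0x1f592a137adcfe5d1a950e81131ac4be2304454c2b9 (k8 c1475 c2848 c4388 c839 c2833 c577 c624 c7047 (k8 c2305 c235 c234 c1305 c4523 c595 c3673 c1345 (k4 c851 c11399 c1691 c2118 k0))) (by decide +kernel)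
def c11619 : PP 8 4 T 0x400000002000000000000000400000020004001141110040400000001000000140000 := rS 0x849ad145544c103617689462e19 (k8 c10711 c4418 c4435 c4298 c4431 c4292 c4481 c9931 (k4 c4406 c2109 c7865 c4322 (k1 c4479 k0))) (by decide +kernel)
def c11620 : PP 8 4 T 0x10000000000000040000000000000000000000000001000000000000001000008001 := rS 0x4e23 (k2 c1328 c239 (k1 c4467 k0)) (by decide +kernel)
def c11621 : PP 8 4 T 0x10000000000000040000000200000001900000004000000000000000001000000088 := rS 0xc1a8441e018a985fa5f (k8 c545 c4304 c2848 c4388 c28 c11620 c10687 c1034 (k2 c4463 c6999 k0)) (by decide +kernel)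
def c11622 : PP 8 4 T 0x100000000000040140000200044021900000004000020000400000151000000088 := rS 0x23248342227861fd6ea12fbf40261 (k8 c2848 c28 c4304 c545 c11483 c1746 c675 c11621 (k4 c4324 c342 c4865 c8735 (k2 c793 c4200 k0))) (by decide +kernel)
def c11623 : PP 8 4 T 0x400000002000000000000000000000021900000000100004000002000140200100000 := rS 0x2a446353897d4a271cac593055904c0c753c824de582dab90e535599486a7a5c418e9b398a48e3b25814da334eb4d2e0b0e99d5a2f8a8947e31012e5469f4987dcb17 (k8 c4418 c11030 c86 c11351 c1428 c9384 c1475 c11520 (k8 c11577 c400 c313 c4388 c4432 c4554 c4555 c790 (k8 c303 c11617 c11616 c10547 c4294 c958 c55 c4434 (k8 c89 c8078 c7860 c1615 c11122 c331 c4468 c9591 (k8 c852 c4567 c4412 c4415 c332 c11158 c8019 c11618 (k8 c4476 c1346 c231 c541 c538 c4462 c1678 c11619 (k8 c4312 c635 c11622 c1137 c847 c10933 c10439 c536 (k4 c11002 c9135 c7774 c10003 k0)))))))) (by decide +kernel)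
def c11624 : PP 8 4 T 0x1000000000000000000020000000000000004000005000000000000008 := rS 0x148e80f17 (k4 c4418 c9517 c4471 c7261 (k1 c1576 k0)) (by decide +kernel)
def c11625 : PP 8 4 T 0x400000002000000000000000000000021900000000000004000000000140200100000 := rS 0x414eab32a988b08a29aacca5b35c24867b881a136291e344a205368cc169d0eab5ca2f0f8fc6202 (k8 c11520 c11577 c400 c86 c4432 c11030 c4554 c790 (k8 c10547 c303 c4294 c958 c55 c4435 c4298 c11624 (k8 c7860 c11122 c11623 c4468 c7035 c4567 c4437 c69 (k8 c844 c4412 c4415 c332 c8926 c4476 c7083 c1766 (k4 c722 c538 c4407 c10368 k0))))) (by decide +kernel)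
def c11626 : PP 8 4 T 0x40000000000044000900000000050080000002000000200000008 := rS 0x117 (k2 c4416 c11618 k0) (by decide +kernel)
def c11627 : PP 8 4 T 0x1000000000000000000000000000200000000000005000000000000400 := rS 0x7717 (k2 c4417 c1575 (k1 c4471 k0)) (by decide +kernel)
def c11628 : PP 8 4 T 0x410000002000000040000000000001010900000000005500000041000140600100000 := rS 0xec9047a19f870c73eb244cfc338947ea34fa4c3ea132c4052e5 (k8 c11030 c834 c4468 c4412 c850 c86 c11351 c1428 (k8 c9384 c400 c313 c4555 c4477 c4467 c7308 c4379 (k8 c408 c847 c2118 c4392 c1312 c4473 c1142 c11353 k0))) (by decide +kernel)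
def c11629 : PP 8 4 T 0x400000002000000040000000000000010900000000000084000040000140200100000 := rS 0x6491dfac7269c01ccda29246ca81ca954e27862743a61128c4be632e84411151a88cea3d32c40529f4987d46671f82c04e5 (k8 c11030 c11520 c303 c400 c4555 c9384 c86 c11351 (k8 c1428 c834 c4468 c4412 c11626 c11627 c2833 c1305 (k8 c4388 c839 c2305 c4523 c842 c577 c11577 c313 (k8 c2848 c790 c10547 c11628 c4324 c4330 c4385 c360 (k8 c10003 c4470 c4209 c4398 c1483 c232 c233 c2147 (k4 c11601 c4376 c3393 c586 (k1 c8998 k0))))))) (by decide +kernel)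
def c11630 : PP 8 4 T 0x400000002000000040000000000000010900000000000084000000000140200100000 := rS 0x1a0ee422c9b4660b4e8746202 (k8 c11520 c11577 c790 c10547 c303 c4294 c958 c93 (k4 c11629 c1887 c10552 c845 k0)) (by decide +kernel)
def c11631 : PP 8 4 T 0x10000000000000040000000000000001900000014000000000000000001010000088 := rS 0x46271a8e56315 (k4 c4388 c11621 c1137 c11002 (k2 c847 c9135 (k1 c4467 k0))) (by decide +kernel)
def c11632 : PP 8 4 T 0x400000002000000040040000080544000800000000000000000440101151400000000 := rS 0xa9a5ab5ca2f (k4 c4432 c11030 c4554 c9591 (k2 c7774 c10003 k0)) (by decide +kernel)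
def c11633 : PP 8 4 T 0x400000002000000040000000000000001900000014000004000002000150200000080 := rS 0x580d0443908a944f0c12a7c8ec75ca8d4eae21a6d3a1d1d8c404930fab45eab883947f17 (k8 c4416 c400 c11030 c4468 c4415 c4432 c4554 c86 (k8 c11351 c11520 c11577 c89 c790 c10547 c11122 c4567 (k8 c8019 c852 c9384 c1475 c331 c8078 c1428 c313 (k8 c11631 c4324 c4385 c342 c360 c11632 c833 c11002 (k1 c1034 k0))))) (by decide +kernel)
def c11634 : PP 8 4 T 0x40000000000000001100000020000020000000000001000000410 := rS 0xbc27 (k2 c7014 c536 (k1 c10439 k0)) (by decide +kernel)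
def c11635 : PP 8 4 T 0x1000000002000000040000000600554000000000100000420000001101155001100008 := rS 0x1048b9f168552331d9b4554134920e118d86a0d7e92c5e4f19b940211 (k8 c342 c28 c11030 c4294 c4297 c4432 c4434 c4304 (k8 c4865 c1034 c8612 c793 c4463 c4209 c244 c4639 (k8 c4398 c1483 c11601 c2110 c1603 c1411 c1331 c4419 (k2 c6888 c4409 k0)))) (by decide +kernel)
def c11636 : PP 8 4 T 0x420000002000000040000000000054000800001554100020000005101151010100408 := rS 0x18a8960b3d6b4345af18d0806afcfa8164974923611a0df83507ac50e850c9ec2e4f029b4669d33c54c26555c40bea752aed864159b942227 (k8 c4324 c342 c11030 c11612 c4433 c9009 c4825 c4385 (k8 c4330 c1425 c4468 c4415 c4412 c2848 c4388 c4555 (k8 c10547 c4294 c958 c55 c4297 c4431 c4055 c10711 (k8 c10705 c11158 c11635 c11530 c11002 c4480 c4570 c9135 (k8 c4470 c4209 c4377 c4305 c4380 c4379 c1511 c1407 (k8 c10256 c11184 c2122 c4322 c4391 c1432 c1519 c2021 (k2 c9160 c1176 (k1 c2123 k0)))))))) (by decide +kernel)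
def c11637 : PP 8 4 T 0x2000000040000000200500000000000000200420000000000005000000008 := rS 0x38460d7e8140211 (k8 c342 c28 c55 c4304 c4865 c793 c4463 c10793 k0) (by decide +kernel)
def c11638 : PP 8 4 T 0x400000002000000000000000000000001900000000000004000000000140200100000 := rS 0x134bc211315236118d41eb1340e54aa7138f6185f389e4ee06399d4126f2c16c52a14aa7d26a3188fc4a1f2586c5e172790466054eb4d2e0b0e809cb15 (k8 c4388 c11030 c11520 c790 c303 c11617 c11616 c10547 (k8 c55 c4294 c4433 c4297 c4431 c4432 c4292 c4434 (k8 c86 c313 c400 c11577 c9384 c11351 c1428 c11625 (k8 c850 c834 c11630 c4476 c1346 c231 c539 c1109 (k8 c4462 c1023 c500 c11634 c1425 c11631 c11633 c4324 (k8 c4330 c4385 c360 c11636 c11637 c11530 c11002 c9135 (k4 c4470 c10936 c2111 c10003 (k2 c325 c4567 (k1 c2018 k0))))))))) (by decide +kernel)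
def c11639 : PP 8 4 T 0x1000040000010000004020000000010041024000001200145400010248 := rS 0x63f4b80f319f4ff043a919666563924aab7148fa2e012f814e6931da8d430c (k8 c4467 c4329 c11410 c3112 c9125 c1109 c55 c10439 (k8 c28 c4418 c11624 c7261 c1746 c8954 c371 c411 (k8 c9676 c1186 c2110 c538 c4481 c10049 c4409 c4407 (k4 c1331 c9121 c7315 c4463 (k1 c1287 k0))))) (by decide +kernel)
def c11640 : PP 8 4 T 0x8400000002000000000040440600505004004000440000400000000001154401100248 := rS 0x22d127c2ab148c494db3503455432c9a7907034961727b44da333d91546c1a5ab5ca2f (k8 c4432 c11030 c4554 c9591 c4420 c11410 c4296 c1224 (k8 c4294 c958 c4298 c4297 c4431 c4434 c504 c1146 (k8 c629 c244 c11546 c4639 c4398 c1362 c1483 c867 (k8 c4573 c11448 c7718 c1603 c1331 c7030 c1773 c9460 k0)))) (by decide +kernel)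
def c11641 : PP 8 4 T 0x1000000000001000000000000000000000440000000000000402000000000000000000000000000000 := rS 0x17b19 (k2 c4447 c2016 (k1 c4493 k0)) (by decide +kernel)
def c11642 : PP 8 4 T 0x40000000000000400002002000000000040450500401004005405554000000000045400000000100000 := rS 0x22a108965954a4c54db368abc0bb0c82b560c59ca81 (k8 c4380 c11030 c4471 c4420 c4419 c4433 c9009 c4431 (k8 c2122 c4454 c2068 c2018 c7718 c11242 c9029 c2023 (k4 c7030 c7649 c9460 c4322 k0))) (by decide +kernel)
def c11643 : PP 8 4 T 0x1400000002000000000000440000501000000002000000040000040000005400000000 := rS 0x13319 (k2 c4447 c1929 (k1 c10455 k0)) (by decide +kernel)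
def c11644 : PP 8 4 T 0x400000002000000000040440200505000000001440100400000045401144400100248 := rS 0xc48a142250e552931536a826838962f0b93cf64549864da3359b062ce5 (k8 c11030 c4471 c4420 c1185 c4294 c958 c10711 c9125 (k8 c4296 c1224 c4297 c4431 c4432 c4434 c1146 c244 (k8 c4639 c867 c7718 c11242 c9029 c1903 c7030 c11640 (k2 c9460 c794 (k1 c1769 k0))))) (by decide +kernel)
def c11645 : PP 8 4 T 0x400000002000000040000040000501000801001514100420000045201144000110248 := rS 0x10f4b2931536bc40a0df80f58b1d66173dafc8a9f39a4c76b95188e2ae5 (k8 c11030 c4388 c4547 c11410 c1475 c3112 c9125 c1109 (k8 c1428 c4296 c1240 c1224 c4431 c1185 c410 c11644 (k8 c11530 c4480 c4570 c4380 c2122 c2018 c7718 c11242 (k2 c4456 c1903 (k1 c11642 k0))))) (by decide +kernel)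
def c11646 : PP 8 4 T 0x400000002000000040000000000000000800001014100024000041201145000110248 := rS 0x5bb368ac665aa08e4d072c296fd3e8a4ff0431accca49629562e3e42864ee4f22804da334e8755aa717a9496735dc30ea955ca8d3e931d88cbe058a984cee5 (k8 c11030 c4555 c2848 c4388 c55 c10439 c4547 c3112 (k8 c9125 c1428 c11410 c1475 c11639 c539 c4467 c4825 (k8 c1109 c4434 c10933 c4432 c4558 c4554 c790 c10547 (k8 c4294 c958 c28 c4296 c4297 c7751 c10711 c10705 (k8 c11645 c4356 c8954 c1248 c371 c9676 c1186 c7153 (k8 c4481 c10049 c794 c4409 c7315 c9591 c4480 c1146 (k8 c244 c1331 c4639 c11546 c4200 c4398 c1483 c7551 (k1 c411 k0)))))))) (by decide +kernel)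
def c11647 : PP 8 4 T 0x200000002000000000000000010001054000005401200000000045400010000000000 := rS 0x45ab8c45262a6e3099849ad864160c59caab (k8 c4415 c11030 c4471 c4420 c4433 c9009 c69 c4437 (k8 c1880 c4482 c4448 c4370 c9828 c8229 c7287 c9767 (k1 c829 k0))) (by decide +kernel)
def c11648 : PP 8 4 T 0x1000000000000000000000000000000008001000000000010000100000 := rS 0x2705 (k2 c4407 c1558 (k1 c4464 k0)) (by decide +kernel)
def c11649 : PP 8 4 T 0x400000002000000000000000000000001900000000200004000004000150000100000 := rS 0x105099f8c65529314ec6588344a26d19ab4f6734aae5469f49844c2673caee18235f914869d84975927d7e2c54a4b538bcbe27388940e01029bd8641638e06ed34b82e2a3560c59ca3b04160b63d0f0843a02 (k8 c11520 c790 c11638 c4466 c2131 c838 c4476 c222 (k8 c3112 c11030 c4471 c4420 c1306 c4388 c303 c11617 (k8 c11616 c2130 c4470 c410 c4433 c9009 c1346 c55 (k8 c28 c1098 c7033 c11634 c846 c10439 c4432 c4558 (k8 c4434 c10933 c11637 c4480 c4379 c4305 c4377 c4437 (k8 c10547 c2132 c4296 c1240 c4547 c4467 c4825 c11643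 (k8 c4555 c2848 c2302 c9125 c1428 c11410 c1475 c11639 (k8 c1109 c1224 c4554 c4294 c958 c4435 c4298 c4468 (k8 c4412 c11647 c3122 c11242 c9029 c11648 c11334 c11097 (k2 c4313 c9770 k0)))))))))) (by decide +kernel)
def c11650 : PP 8 4 T 0x400000002000000000000000000000001900000000200004000004000140000100000 := rS 0x11e86b63fc149212310a18eb3399d52ab951a7d263b118e06e351e820226133b24fafc58a9496a71797c4e711281c3c012c34d2e1d7282c0a6f2d8840515 (k8 c4388 c11520 c11638 c838 c1346 c55 c303 c11030 (k8 c790 c11617 c11616 c4476 c28 c4466 c1098 c7033 (k8 c11634 c846 c10439 c4432 c4558 c4434 c10933 c11637 (k8 c4480 c4379 c4305 c4555 c2848 c2302 c222 c2131 (k8 c1306 c2130 c4470 c4547 c3112 c9125 c1428 c11410 (k8 c1475 c11639 c539 c1109 c1185 c410 c11649 c794 (k8 c795 c1721 c4407 c515 c5124 c4424 c1586 c4473 k0))))))) (by decide +kernel)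
def c11651 : PP 8 4 T 0x400000002000000000000000000000001900000000200004000000000140000100000 := rS 0x3f98d66652ac5c7cfc58c24e6955ca8d3e931d9c47a113099cf2bb8608cbe05378217e381b8d48aa525a9c5ed34b82dca2503804b0430f09cb6218aa743a02 (k8 c11520 c790 c10547 c4388 c11638 c838 c846 c4466 (k8 c2132 c4476 c28 c1098 c7033 c11030 c303 c11617 (k8 c11616 c4432 c4558 c4434 c10933 c4296 c1306 c2130 (k8 c4470 c1240 c222 c1346 c55 c10439 c4547 c4467 (k8 c4825 c11643 c4555 c2848 c2302 c2131 c11634 c3112 (k8 c9125 c1428 c11410 c1475 c11639 c1109 c4437 c11637 (k8 c4480 c11650 c4356 c8954 c9676 c1186 c7153 c10049 (k1 c11334 k0)))))))) (by decide +kernel)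
def c11652 : PP 8 4 T 0x2000000000011000000000000000001440800000000045400100000100208 := rS 0x1146544a1caa528b2cc2ee502804f645 (k8 c4296 c1224 c28 c55 c11030 c4431 c1185 c4471 (k4 c11242 c9029 c1903 c7030 (k2 c9676 c9460 (k1 c564 k0)))) (by decide +kernel)
def c11653 : PP 8 4 T 0x400000002000000000000000000000001900000000000004000000000140000100000 := rS 0x178835b1358c47072c1fa7d14b08ff0431a2d666544a1c92558b8f982c58c425366a0c0c0ee693c9d52abb5cc3146734f88d7e933897d4aa71c0ecf6251b8f4860803844de58138d43c5b109862a4b1785c8a5102804da334eb4d2e0b0e808cee5 (k8 c11030 c4555 c11520 c790 c303 c11617 c11616 c10547 (k8 c4294 c958 c28 c55 c4435 c4296 c4431 c4432 (k8 c4434 c4388 c2848 c11638 c838 c4466 c1306 c846 (k8 c4476 c1346 c2302 c1098 c222 c2132 c2131 c2130 (k8 c7033 c1224 c3112 c4470 c4558 c10933 c10439 c11634 (k8 c9125 c1240 c4547 c1428 c1109 c11410 c4467 c1475 (k8 c4825 c11639 c539 c11643 c11651 c7751 c11646 c228 (k8 c229 c1966 c4436 c4540 c7718 c4450 c11652 c4356 (k8 c8954 c371 c9141 c7030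 c9676 c1186 c564 c7153 (k8 c4481 c10049 c2123 c794 c4409 c7315 c4480 c1146 (k4 c1331 c4200 c9114 c411 (k2 c1998 c1167 (k1 c7175 k0))))))))))))) (by decide +kernel)
def c11654 : PP 8 4 T 0x40000000000000000000002000000040440000001044000000010000054500400400001005400010008 := rS 0x3368acfa193090a553984962f278cda2e5 (k8 c11030 c4298 c4294 c4297 c4432 c4434 c878 c4558 (k8 c10933 c9172 c2111 c4421 c1790 c4451 c2062 c4495 k0)) (by decide +kernel)
def c11655 : PP 8 4 T 0x40000000000000400000002000000040440000001044401101000604054504400400101001401010200 := rS 0x98532054b45419322837131f46a415f9ecda3321a743a02 (k8 c11520 c790 c10547 c4567 c4294 c958 c7035 c5760 (k8 c4433 c1059 c1691 c11654 c321 c4538 c10063 c9673 (k4 c4451 c1934 c1895 c4568 (k2 c10618 c2011 k0)))) (by decide +kernel)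
def c11656 : PP 8 4 T 0x2000000040440000001040000000000200044500400400001155400010008 := rS 0x907c861953f10a5ab5ca2f (k8 c4432 c11030 c4554 c9591 c4468 c4414 c4412 c4467 (k2 c11654 c4200 (k1 c3622 k0))) (by decide +kernel)
def c11657 : PP 8 4 T 0x400000002000000040000000000000001500000000040084000002000140000000000 := rS 0x6a0cc11486899fa6e548650a77639d022692e98cbe0820804da3323afc4aa31c88cca9fa594d96ae55c405205058ed26ad728be2e3f218c4409b0fa743a02 (k8 c11520 c790 c10547 c2131 c11122 c4466 c11577 c4567 (k8 c145 c4416 c4432 c11030 c4554 c1654 c89 c303 (k8 c55 c7860 c4468 c4415 c8019 c8140 c332 c9591 (k8 c4414 c4412 c832 c361 c9384 c313 c5760 c8078 (k8 c4294 c958 c28 c4433 c839 c577 c7047 c840 (k8 c844 c2305 c235 c2149 c7751 c10705 c10711 c7774 (k8 c11655 c4378 c11656 c4324 c4486 c9688 c9673 c502 (k1 c9674 k0)))))))) (by decide +kernel)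
def c11658 : PP 8 4 T 0x420000002000000000040000080540000000000000000000400400001155400000000 := rS 0x19b4567d0c98485492c9e3368a7e214b56b945ecb (k8 c8140 c4432 c11030 c4554 c9591 c4468 c4414 c4298 (k8 c4294 c4297 c4434 c7774 c4200 c2111 c4421 c1790 (k2 c4451 c2062 (k1 c4495 k0)))) (by decide +kernel)
def c11659 : PP 8 4 T 0x400000002000000040000000080040000000000000000000400002001155400000000 := rS 0xa96793686c6862954e4b278cc8f4b56b945ecb (k8 c8140 c4432 c11030 c4554 c9591 c8078 c4294 c4297 (k8 c4434 c4558 c10933 c4467 c11658 c4391 c2286 c1519 (k2 c7105 c2111 k0))) (by decide +kernel)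
def c11660 : PP 8 4 T 0x600000002000000040000000080000000002400000000000400000000051000100008 := rS 0x5531228d0d172814da33 (k8 c4294 c958 c55 c11030 c4298 c10705 c8927 c828 (k2 c1766 c11648 k0)) (by decide +kernel)
def c11661 : PP 8 4 T 0x400000002000000000000000000000001100000000000004000002000140000100000 := rS 0xd7ea010abd58a0c2314078de1a263b818f26137824b05b29ab886ab11a8c62253dafe20204da4c521f8b8fc764b0b9040a6d19a75a69705874046756b945e8f (k8 c11653 c4432 c11030 c4554 c4555 c11520 c790 c303 (k8 c11617 c11616 c10547 c4294 c958 c55 c4433 c4431 (k8 c4434 c89 c145 c4416 c2131 c7860 c1654 c11122 (k8 c4466 c4468 c5760 c7035 c313 c11577 c9384 c832 (k8 c4415 c4567 c8019 c332 c11657 c4476 c231 c1107 (k8 c617 c541 c4462 c1023 c11659 c4324 c321 c239 (k8 c4486 c10687 c4570 c4350 c4354 c11660 c9035 c4380 (k2 c1293 c4463 k0)))))))) (by decide +kernel)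
def c11662 : PP 8 4 T 0x2000000040000000100000051500000004045500000005401145200000200 := rS 0x67b2d507e2683992363ed0e2ab65ac589e3353a9496a31ca4c3f4b568bd429f8608ccb1014ae46ae5 (k8 c11030 c1059 c7514 c834 c4468 c4412 c832 c4467 (k8 c4384 c4329 c4432 c4554 c9591 c86 c11351 c361 (k8 c9384 c4434 c10933 c4558 c4294 c4297 c4471 c4419 (k8 c2125 c11255 c4424 c1627 c7094 c7550 c232 c2147 (k4 c2118 c2111 c11546 c3496 (k1 c7105 k0)))))) (by decide +kernel)
def c11663 : PP 8 4 T 0x2000000040000000000000001500000004040014000005001145200000008 := rS 0x1c7e1b1f62ab65ab260a720915474b91a98cba07042c4b4014b82c3a113097c0aa31ca4c3ea14fc304665880a52ae5 (k8 c11030 c11624 c834 c4468 c4412 c832 c4467 c4384 (k8 c4329 c86 c11351 c361 c9384 c55 c10439 c878 (k8 c342 c790 c303 c11617 c28 c4476 c9348 c839 (k8 c494 c840 c842 c1059 c7514 c11662 c1601 c1062 (k8 c1061 c4408 c1731 c3507 c2125 c11255 c1627 c4470 (k2 c8784 c232 (k1 c1456 k0))))))) (by decide +kernel)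
def c11664 : PP 8 4 T 0x2000000040000000000000051500000000000000000045401145200000000 := rS 0x196a8679358c491b11c6b438aad96ab98b13c66a75292d46394987e214b14ab5ca2f50a7e1823 (k8 c832 c4467 c4384 c4329 c4432 c11030 c4554 c834 (k8 c9591 c4468 c86 c11351 c361 c9384 c4434 c10933 (k8 c4558 c4294 c4297 c4471 c4361 c4419 c2125 c11255 (k8 c4424 c1037 c1587 c7094 c4209 c4473 c324 c1519 (k2 c2111 c11546 (k1 c7105 k0)))))) (by decide +kernel)
def c11665 : PP 8 4 T 0x1400000002000000040000000600054000000000100000020000001101155000100008 := rS 0xd218368cd4e2f5292cbe05 (k8 c55 c10439 c4434 c10933 c4432 c4558 c4294 c958 (k2 c11635 c11637 (k1 c10711 k0))) (by decide +kernel)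
def c11666 : PP 8 4 T 0x1400000002000000040000000400000051500000104000021000001001145200100008 := rS 0x351bad818b95ac14fc7d64bf1626730a8c72a14fc304665881c4e6930f98c52e5 (k8 c11030 c834 c11648 c86 c11351 c1109 c537 c4468 (k8 c4412 c832 c4467 c4384 c4329 c361 c9384 c878 (k8 c4555 c11665 c4480 c4305 c4379 c7315 c4313 c1434 (k4 c7096 c7517 c2125 c1407 (k2 c8692 c4470 k0))))) (by decide +kernel)
def c11667 : PP 8 4 T 0x400000002000000000000000000000001100000004000004000004801145200100000 := rS 0x1afd079fd8c345c2d56f1431954e6712c19c22b33aa8d261f50a7e182347b4d2e0b0e99620294a8f404e5 (k8 c11030 c11520 c11661 c11624 c834 c4468 c4412 c790 (k8 c303 c11617 c11616 c11653 c832 c4467 c4384 c4329 (k8 c86 c11351 c9384 c11627 c11612 c342 c4555 c11663 (k8 c537 c1109 c1600 c11648 c11666 c4353 c4389 c2125 (k4 c1045 c1046 c7096 c1329 (k2 c11476 c1447 (k1 c4463 k0))))))) (by decide +kernel)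
def c11668 : PP 8 4 T 0x400000002000000000000000000000001100000000000004000004801145200100000 := rS 0x355b45492b939048105a5a9646e6e3aa8c72930fc4052951ea853f0c11a3da6970587404e5 (k8 c11030 c11520 c790 c303 c11617 c11616 c11653 c832 (k8 c4467 c4384 c4329 c11661 c11624 c834 c4468 c86 (k8 c11351 c361 c9384 c11627 c11667 c1344 c1107 c1348 (k8 c4476 c839 c1062 c1061 c3056 c3646 c11255 c7468 (k2 c1038 c4470 k0))))) (by decide +kernel)
def c11669 : PP 8 4 T 0x400000002000000000000000000000001100000000000004000004001145200100000 := rS 0x98365eaa56d154d2d572428b0ed3ea1884312629118e5461f278cd3a8f538bd4ad34b82c3a4b4a8f404e5 (k8 c11030 c11520 c11661 c11624 c4434 c790 c303 c11617 (k8 c11616 c10933 c4432 c4558 c11653 c10547 c4294 c4297 (k8 c86 c9384 c361 c832 c834 c11351 c4467 c4468 (k8 c4329 c4384 c11668 c4471 c11664 c4361 c4419 c4567 (k4 c11255 c7468 c866 c2019 (k2 c7094 c2111 (k1 c325 k0))))))) (by decide +kernel)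
def c11670 : PP 8 4 T 0x400000002000000040040440200004000000001000000024000045001145400100248 := rS 0x3b1a4da334e8754e2f5292cbe0539a4c76e5 (k8 c11030 c3112 c9125 c1109 c55 c10439 c4434 c10933 (k8 c4432 c4558 c790 c10547 c4294 c958 c11637 c11644 (k1 c7751 k0))) (by decide +kernel)
def c11671 : PP 8 4 T 0x420000002000000000040000000500000000000000000000400400001155400000000 := rS 0xae51aae20e5 (k4 c11030 c4468 c4415 c11410 (k2 c11345 c11658 k0)) (by decide +kernel)
def c11672 : PP 8 4 T 0x1400000002000000000000000000000001100000000000004000004001145000100000 := rS 0xfd043184caac9293f0bab132c4052483e91e86b63ca8d8ebf5da7c463850c308a9d33a9c5ea52597c0ad34bacd2a750581c02431b9bce28f5c8d4e6935ac5876080f074b05b10809ca3d (k8 c11661 c11030 c11520 c11669 c838 c4476 c790 c4466 (k8 c222 c3112 c4471 c4419 c9125 c1109 c1099 c7514 (k8 c11653 c537 c1107 c2130 c2132 c28 c1098 c303 (k8 c11627 c11624 c11612 c11617 c11616 c55 c10439 c4434 (k8 c10933 c4432 c4558 c4555 c10547 c4296 c4486 c4551 (k8 c4470 c4547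 c4384 c4825 c1240 c410 c11410 c11643 (k8 c7468 c4424 c1586 c1626 c4473 c1720 c4468 c4412 (k8 c11670 c4628 c4480 c11671 c4305 c9029 c1718 c11648 (k2 c9747 c9616 (k1 c4313 k0)))))))))) (by decide +kernel)
def c11673 : PP 8 4 T 0x400000002000000000000000000000001100000000000004000004001145000100000 := rS 0x27d430c5188d6f145ac59263b5c8206a580f16c429569a5c161d013951e3d (k8 c11661 c11653 c11030 c11520 c790 c303 c11617 c11616 (k8 c11624 c11669 c838 c4466 c4476 c1099 c222 c7514 (k8 c3112 c9125 c4471 c4419 c11672 c4353 c9836 c11410 (k4 c4467 c4329 c4384 c2125 k0)))) (by decide +kernel)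
def c11674 : PP 8 4 T 0x1400000002000000040010000000000001500050000044021000000051145000000248 := rS 0xb666d158ccb5411c9a1924838d20d583f542231c4309e6d19844c2a75292cbe6500814de71a5ab45ea34fc4052e5 (k8 c11030 c794 c4468 c4414 c4337 c4432 c4554 c9591 (k8 c537 c1107 c55 c28 c9676 c10439 c4434 c10933 (k8 c4558 c878 c342 c4294 c958 c4297 c4486 c4470 (k8 c4547 c4329 c7315 c4480 c504 c11637 c1146 c4199 (k8 c10711 c244 c1331 c2111 c11546 c2110 c4398 c1483 (k2 c411 c7551 k0)))))) (by decide +kernel)
def c11675 : PP 8 4 T 0x2020200000001000040040000400000000000000104000000001000010154400010000 := rS 0x2e5924651a7e20b1 (k8 c4350 c4468 c4414 c4337 c4200 c8024 c1315 c9531 k0) (by decide +kernel)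
def c11676 : PP 8 4 T 0x2400200002000000040000000400000000500040104050000001000001145480000008 := rS 0x269504d0c9a41c0d633f6184f029b4661130a9c5ea5258d46e7d51c40526372aec72bd (k8 c4354 c4348 c4390 c11030 c4407 c794 c4468 c4337 (k8 c4409 c2130 c1099 c4434 c10933 c4432 c4558 c878 (k8 c342 c4294 c958 c55 c4297 c4467 c7315 c11675 (k8 c1447 c4463 c10793 c10711 c244 c2111 c9123 c866 k0)))) (by decide +kernel)
def c11677 : PP 8 4 T 0x400000002000000000000000000000001100000000000004000000001145000100000 := rS 0x47a1ae192c706088923958c5052633ec10fe75389bc6e352c2cc3c5b04194e6216281cab171f1140a0169a5c161d0119dca8f (k8 c11653 c11030 c4555 c11520 c790 c303 c11617 c11616 (k8 c28 c55 c4296 c11673 c4356 c8954 c11031 c1248 (k8 c400 c1082 c9676 c4462 c838 c4466 c1186 c4476 (k8 c1099 c2130 c1107 c537 c538 c10049 c4481 c4409 (k8 c4407 c794 c11674 c4350 c4348 c370 c11676 c793 (k4 c1450 c507 c9531 c4394 (k2 c1315 c4473 k0))))))) (by decide +kernel)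
def c11678 : PP 8 4 T 0x1000000000000000040008000000044001500054400054021000000050145002000248 := rS 0x2f56c83631348e490703560fd5088c710c08984be05849bce229 (k8 c794 c537 c1107 c4436 c55 c10439 c878 c342 (k8 c4486 c4470 c4547 c4329 c7315 c4480 c504 c1146 (k8 c4199 c1331 c9114 c2110 c1998 c411 c7175 c1167 k0))) (by decide +kernel)
def c11679 : PP 8 4 T 0x400000002000000000000000000000001100000000000004000000000145000100000 := rS 0x190c76592498bd5b8e6289f51c4052633ed2e08c23f9d516b332a250e558b8f8e6931db058a71378dc10071aaee30795f90cb01e40a6d0a7b3b96e1221351a43030528449617209440a01368cd3ad34b82c3a0233b951e3d (k8 c11661 c11653 c11030 c4555 c11520 c790 c303 c11617 (k8 c11616 c10547 c4294 c958 c28 c55 c4435 c4433 (k8 c4431 c4434 c342 c10933 c11677 c228 c1879 c229 (k8 c11577 c4436 c5066 c7751 c4055 c10705 c3875 c1922 (k8 c4466 c4476 c277 c5760 c541 c5528 c10310 c1099 (k8 c1098 c222 c2130 c1107 c537 c4370 c4450 c3112 (k8 c9125 c1109 c11652 c4356 c8954 c9141 c7030 c9676 (k8 c1186 c564 c538 c10049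 c2123 c4481 c4459 c4409 (k8 c4407 c794 c4468 c4337 c4414 c11678 c4348 c4353 (k4 c4354 c11148 c370 c2028 (k2 c413 c8103 (k1 c8024 k0)))))))))))) (by decide +kernel)
def c11680 : PP 8 4 T 0x400000002000000040000000000000001500000000000004000001000148000000000 := rS 0x431da6c9047a1a813f1014ae52a311fad56e93104503ea363c353a970587404e5 (k8 c11030 c11520 c790 c303 c11617 c10547 c4324 c408 (k8 c934 c353 c4486 c4466 c11351 c4353 c4389 c400 (k8 c11577 c11624 c11342 c834 c4468 c4414 c11255 c11164 (k4 c1584 c4473 c11352 c1722 (k2 c4567 c11353 k0))))) (by decide +kernel)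
def c11681 : PP 8 4 T 0x1000000000000000001002000000001080000000000000000000000000100010000001140000101008 := rS 0x3fb260a12310a0fb43 (k8 c4391 c1352 c11601 c794 c795 c4407 c1729 c514 (k1 c4483 k0)) (by decide +kernel)
def c11682 : PP 8 4 T 0x400000002000000000000000000000001100000000000004000000000140000100000 := rS 0x1d4fab3329547c7f64ae58e7366a4c62a5a28ed34be21820b0b538af56e375d91dfab10f16cdf1451838bc49069346a39109761a24308444e3d47ab45e0500a75a6970587404e5 (k8 c11030 c11520 c790 c303 c11617 c11616 c10547 c28 (k8 c55 c4432 c4554 c11653 c11661 c11680 c342 c878 (k8 c11679 c4381 c1336 c313 c2133 c1369 c2135 c1368 (k8 c2134 c225 c224 c1464 c4486 c9688 c838 c4466 (k8 c545 c4376 c3357 c4390 c4386 c4353 c4354 c4387 (k8 c4389 c4476 c222 c2132 c9891 c9123 c3112 c4399 (k8 c1404 c1966 c9125 c5541 c1109 c11681 c7908 c8024 (k8 c1455 c2113 c8954 c9676 c1186 c7516 c538 c2121 k0)))))))) (by decide +kernel)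
def c11683 : PP 8 4 T 0x2000000040040440002044000800010000014500001445500004000000008 := rS 0x2a148ccb7278cc8a51619062a6108b062ce5 (k8 c11030 c4471 c4420 c342 c2848 c4388 c4433 c9009 (k8 c4435 c4296 c4294 c4297 c9550 c9172 c8329 c919 (k1 c9029 k0))) (by decide +kernel)
def c11684 : PP 8 4 T 0x500000002000000040000440042044000800010000014500001445501004000000008 := rS 0x1574b293159ec65693e2b45 (k8 c4398 c4388 c4297 c948 c11683 c1519 c8360 c11242 (k2 c4456 c1942 (k1 c4491 k0))) (by decide +kernel)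
def c11685 : PP 8 4 T 0x500000002000000040000000440000001800000000004014001005001005200000008 := rS 0x33d587e515148677541a4fa47268397e6f5aaed3e5d1b45a18351d9944608589689e6d19a743a7505b962a6108a9c5ea52597c0a39 (k8 c360 c55 c10439 c4434 c10933 c4432 c4558 c342 (k8 c2848 c4388 c11030 c303 c11627 c790 c10547 c4294 (k8 c958 c4297 c4476 c9348 c839 c2833 c578 c11556 (k8 c1305 c4467 c4471 c4470 c4523 c4384 c4825 c4419 (k8 c1344 c1511 c232 c2147 c1412 c8975 c10793 c2111 (k8 c7751 c10552 c4398 c11684 c11560 c11559 c3496 c949 k0)))))) (by decide +kernel)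
def c11686 : PP 8 4 T 0x500000000000000000000000050000000000000000000000800000001000000000000 := rS 0x1574b (k2 c4456 c1942 (k1 c4491 k0)) (by decide +kernel)
def c11687 : PP 8 4 T 0x400000002000000040000040000041000800000000000000000045501205000000000 := rS 0x1194c94d5aa888abc66c320b954e2f5292d7e361a88e2a4f (k8 c4297 c4388 c914 c1305 c4470 c1511 c4434 c10933 (k8 c4432 c4558 c11030 c4433 c9009 c4294 c982 c4332 (k4 c10003 c948 c11686 c9681 (k2 c9828 c10455 k0)))) (by decide +kernel)
def c11688 : PP 8 4 T 0x2000000000000000000500800000000000000000000000081005400000000 := rS 0x26aa57a4b178cd7e4f (k8 c4297 c1511 c4294 c4432 c4434 c2018 c867 c325 (k1 c2111 k0)) (by decide +kernel)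
def c11689 : PP 8 4 T 0x5500000002000000040105454440005050014005554000020000040000005400000008 := rS 0x998cb111669582d60892368cd4e2f5292cbe05 (k8 c55 c10439 c4434 c10933 c4432 c4558 c4294 c958 (k8 c4487 c4481 c1658 c10837 c11637 c11588 c2123 c9062 (k2 c1136 c10455 k0))) (by decide +kernel)
def c11690 : PP 8 4 T 0x1500000002000000041045050450005050014045554000020401040180005400000008 := rS 0x296ab6722d9669a12c08efd5ac5992b768945ca6d198454e2f5292cbe0533afc9e4d (k8 c324 c4297 c1511 c656 c55 c10439 c4434 c10933 (k8 c4432 c4558 c342 c4294 c958 c11030 c4435 c4298 (k8 c9550 c8024 c11689 c4419 c7787 c1411 c4480 c4473 (k4 c11637 c4425 c11588 c2116 (k2 c11176 c4430 (k1 c4491 k0)))))) (by decide +kernel)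
def c11691 : PP 8 4 T 0x400000002000000040000050000045040800001514000020000004101205000100008 := rS 0xaba5a298acf6314d82ad66d1474a8219ed367f06afc6c351193c8ad136c455e334ab0c831524a9c5ea5259ccc68728a24aa67598f42ee5 (k8 c11030 c4431 c329 c11612 c656 c247 c7030 c4435 (k8 c9141 c815 c1110 c4434 c10933 c4432 c4558 c368 (k8 c4388 c4433 c9009 c855 c4294 c982 c4332 c958 (k8 c4298 c4296 c4297 c914 c1305 c4470 c1511 c1407 (k8 c7517 c11688 c7035 c4567 c10003 c11687 c4398 c1484 (k8 c948 c1580 c11686 c11690 c1519 c8360 c8362 c4427 (k2 c1673 c4491 k0))))))) (by decide +kernel)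
def c11692 : PP 8 4 T 0x500000002000000040000040040580000800000000000000001045501001400000000 := rS 0xac67afe8ac61b2a08e3527b962b43 (k8 c4393 c4388 c11030 c4297 c1305 c1313 c10003 c4470 (k4 c4473 c4398 c1511 c1519 (k2 c11559 c949 k0))) (by decide +kernel)
def c11693 : PP 8 4 T 0x8000000000000000000000000400000000000000044000000001000000200a00110400 := rS 0x16034 (k2 c833 c9586 (k1 c1034 k0)) (by decide +kernel)
def c11694 : PP 8 4 T 0x400000002000000040000040000081000800000044000000000005401205200110400 := rS 0x13436210d4471688abc66b372c5492a717a949639 (k8 c360 c4434 c10933 c4432 c4558 c368 c4388 c11030 (k8 c11612 c4294 c982 c4332 c4471 c11693 c1305 c11692 (k2 c4470 c4567 (k1 c11688 k0)))) (by decide +kernel)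
def c11695 : PP 8 4 T 0x500000002000000040001040040081000804001541000000001045101005400100000 := rS 0xaba5a28a6c5569ed9e9b5fd158c365411c6a4f22b44a2c320b962aa717a949743 (k8 c4393 c4434 c10933 c4432 c4558 c4388 c11030 c4433 (k8 c9009 c4435 c4298 c4296 c4297 c1305 c1313 c10003 (k8 c4470 c4473 c4398 c1511 c11688 c1519 c7035 c949 (k4 c8360 c11686 c8362 c4427 (k2 c1673 c4491 k0))))) (by decide +kernel)
def c11696 : PP 8 4 T 0x800000014000000000000020000000010008 := rS 0xb0 (k2 c11002 c1034 k0) (by decide +kernel)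
def c11697 : PP 8 4 T 0x400000002000000040000000000000041900000000000004000004001205000100000 := rS 0x26c8436118d5823a5121d769f3c9dcab0c0319ce671049bcb03952a9c9211258bc2e4128814da9d578ccc6b33a8f416e51007c3a025ca562315 (k8 c4388 c4332 c855 c6781 c11520 c790 c392 c4466 (k8 c11030 c303 c329 c11627 c11612 c815 c4294 c982 (k8 c10547 c958 c55 c4435 c4433 c4431 c4432 c4434 (k8 c342 c368 c4558 c10933 c360 c11685 c1107 c1105 (k8 c11634 c1110 c656 c4462 c11631 c247 c1023 c500 (k8 c4384 c4825 c9141 c11691 c11694 c1580 c11696 c833 (k4 c4470 c11695 c11688 c4567 k0))))))) (by decide +kernel)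
def c11698 : PP 8 4 T 0x400000002000000040000004001000000800000000080580400045400201000014008 := rS 0x10aa734af50e6b52b113241029840e013d9b46654 (k8 c919 c4294 c958 c704 c28 c494 c2848 c55 (k8 c4433 c9679 c11242 c1430 c581 c1635 c1175 c925 (k2 c853 c10705 (k1 c8696 k0)))) (by decide +kernel)
def c11699 : PP 8 4 T 0x400000000000000000000000000001000000000001000090000080001000000000408 := rS 0xd077 (k2 c1887 c10552 (k1 c845 k0)) (by decide +kernel)
def c11700 : PP 8 4 T 0x400000002000000040000000000040000800000000010480000045400209000110008 := rS 0x2904e0ab733508031131a861aa91983cc25d4fad62ce5 (k8 c11030 c4471 c4419 c1427 c807 c2848 c239 c4294 (k8 c974 c4324 c2849 c815 c4332 c28 c4489 c4536 (k4 c4424 c4310 c510 c11698 (k1 c9747 k0)))) (by decide +kernel)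
def c11701 : PP 8 4 T 0x2000000000000000000280000800000000000000000045401200000000000 := rS 0x29a615441 (k4 c4433 c1470 c1430 c1942 (k1 c9681 k0)) (by decide +kernel)
def c11702 : PP 8 4 T 0x400000002000000040000000000501000000000001015480002045400208000010000 := rS 0x1043919d1276561a15687a59ad8899299350b4420c455ea91983cba7b (k8 c704 c807 c239 c4294 c974 c982 c4332 c4433 (k8 c4568 c4397 c4451 c372 c9681 c11242 c581 c4429 (k8 c1635 c1675 c8696 c4491 c845 c2041 c925 c1095 (k2 c4903 c4408 k0)))) (by decide +kernel)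
def c11703 : PP 8 4 T 0x400000002000000040000000000000041900000000000004000004001201000100000 := rS 0x14d8acd5dd154ca56792144431d994be5a2c974226f5f8d41e371c2a44626509862a05368cd3a1d8898c3e751e82c04e5 (k8 c11030 c11520 c303 c329 c11627 c392 c815 c4332 (k8 c790 c10547 c4294 c958 c55 c4388 c2848 c2849 (k8 c11697 c114 c974 c847 c321 c239 c1305 c1515 (k8 c10965 c10426 c807 c10957 c4476 c1426 c578 c11556 (k8 c11699 c11700 c935 c1523 c11701 c11702 c4453 c1979 (k4 c2067 c8360 c373 c11242 k0)))))) (by decide +kernel)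
def c11704 : PP 8 4 T 0x2400000002000000040000010501001000000100104004180420045401205000000008 := rS 0x10a693320e0a8707a68d6c96246532c70b81622c320b942249538bd4a4b3d9b466651a8217b45 (k8 c4451 c4354 c839 c1059 c578 c4294 c958 c704 (k8 c4434 c10933 c4432 c4558 c368 c342 c11030 c4433 (k8 c9009 c4332 c55 c4431 c412 c9681 c9828 c11242 (k8 c8024 c581 c4488 c10484 c1635 c9531 c4570 c4478 (k2 c925 c10705 (k1 c9865 k0)))))) (by decide +kernel)
def c11705 : PP 8 4 T 0x2400000002000000040000010501041000000000104004180000045401205400000008 := rS 0x3e31e087f6599d585529131cb1157984925f02a7e18654093c22a5258cd4e2f (k8 c4432 c4558 c4294 c4434 c10933 c342 c4297 c9279 (k8 c578 c4467 c4384 c55 c10439 c368 c878 c982 (k8 c4332 c11030 c2111 c11704 c9029 c11686 c919 c2026 (k4 c6629 c4478 c413 c9121 (k1 c4409 k0))))) (by decide +kernel)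
def c11706 : PP 8 4 T 0x2400000002000000040000010500040000500000004004084000045401205000000000 := rS 0x4ca0ca6bf0ca14eead4d9a5504102a7622af3a82dca083d9b5025d278454a4b19a9c5e231007c3a02 (k8 c11520 c790 c392 c4466 c832 c4432 c4558 c4294 (k8 c4434 c10933 c342 c4297 c840 c9279 c958 c704 (k8 c839 c11030 c303 c11627 c982 c4332 c10547 c55 (k8 c4433 c11705 c2843 c866 c948 c7751 c10705 c10711 (k4 c5760 c11686 c9673 c9681 (k1 c10618 k0)))))) (by decide +kernel)
def c11707 : PP 8 4 T 0x400000002000000000000000000541000000000000000000000045481205400000200 := rS 0x8ca64a6ad5426c9a4b1793e22af19b0c82e5 (k8 c11030 c4433 c9009 c4294 c982 c4332 c4297 c4432 (k8 c4434 c2147 c11688 c2111 c948 c11686 c9681 c9828 (k1 c4488 k0))) (by decide +kernel)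
def c11708 : PP 8 4 T 0x400000002000000040000010500040000500000004004084000045401205000000000 := rS 0x4546a391b8214a4b538bc46200fa743a02 (k8 c11520 c790 c10547 c392 c4466 c832 c4432 c4558 (k8 c4434 c10933 c839 c11707 c361 c1059 c11706 c4470 k0)) (by decide +kernel)
def c11709 : PP 8 4 T 0x400000002000000040000000000000000500000008000004000040151005400000000 := rS 0x9b5f2a09a19348389e05368cd3a1d088094e2f5292d770c (k8 c4467 c4825 c4434 c10933 c4432 c4558 c11520 c342 (k8 c790 c10547 c4294 c958 c55 c4297 c8928 c10793 (k4 c10711 c244 c2111 c9891 (k2 c866 c5760 k0)))) (by decide +kernel)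
def c11710 : PP 8 4 T 0x1000000000000100000000050000000040000055500000000000200000002000 := rS 0xf855 (k2 c247 c5857 (k1 c1292 k0)) (by decide +kernel)
def c11711 : PP 8 4 T 0x400000002000000040000010000040001500000000000014000045401205000100000 := rS 0x10a69549dd0e9a35b12329929a2ca81382999920c638d0fefd370dcca5d3d81c10b12d004da334e98d8641599d416e51c88c401f0e844c24950a9c5ea52597c0a02 (k8 c11520 c55 c10439 c4434 c10933 c4432 c4558 c894 (k8 c368 c878 c342 c790 c392 c4466 c832 c361 (k8 c11030 c303 c11627 c11612 c4433 c9009 c815 c10547 (k8 c4294 c958 c28 c4476 c9348 c839 c494 c704 (k8 c840 c578 c11707 c11708 c4378 c1459 c11709 c1451 (k8 c1060 c8024 c11710 c4310 c510 c919 c720 c9747 (k8 c9679 c9828 c11242 c581 c4488 c1635 c1096 c866 (k2 c925 c1500 (k1 c8375 k0))))))))) (by decide +kernel)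
def c11712 : PP 8 4 T 0x100000000001000040040011000004000000000154044000001005550000000110000 := rS 0x7c321fe0a4664acd6eb1 (k8 c8612 c7094 c11612 c8024 c2113 c10837 c1312 c4478 (k2 c5124 c1650 k0)) (by decide +kernel)
def c11713 : PP 8 4 T 0x400000002000000000080000001500000000000000000000000000001205400000000 := rS 0x55148984b17c455e3324d0d9e4f (k8 c4297 c1519 c4391 c368 c4294 c982 c4332 c4432 (k4 c4434 c2111 c412 c11175 (k1 c1942 k0))) (by decide +kernel)
def c11714 : PP 8 4 T 0x400000002000000040000011000001000500000154040000000045551205400110000 := rS 0x9abf29a6d5aa867b1a284f72c455e33319254e2f5292d3f0c (k8 c4467 c4384 c4434 c10933 c4432 c4558 c368 c815 (k8 c4294 c982 c4332 c11030 c4297 c4470 c11712 c1519 (k4 c11713 c949 c866 c11686 (k2 c5760 c412 (k1 c11148 k0))))) (by decide +kernel)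
def c11715 : PP 8 4 T 0x400000002000000000000000000541000000000000000000000045481205400000000 := rS 0x8ca64a6ad54135364b1793e22af19b0c82e5 (k8 c11030 c4433 c9009 c4294 c982 c4332 c4297 c4432 (k8 c4434 c11688 c324 c2111 c948 c11686 c9681 c9828 (k1 c4488 k0))) (by decide +kernel)
def c11716 : PP 8 4 T 0x400000002000000040000011000040001500000000000004000045401205000100000 := rS 0x7d3241592c71a2c56e37339cce26f2c2762263599d416e51c84492a717a94965f02a7e18231007c3a02 (k8 c11520 c790 c392 c4466 c832 c4467 c4384 c55 (k8 c10439 c4434 c10933 c4432 c4558 c368 c342 c361 (k8 c11030 c303 c11627 c11612 c815 c4332 c10547 c11711 (k8 c1107 c537 c1110 c656 c11715 c7094 c8612 c11714 (k4 c1451 c8024 c10837 c4478 (k2 c1650 c9061 k0)))))) (by decide +kernel)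
def c11717 : PP 8 4 T 0x100000000000000000100015500004000000000154044404000000000000000000000 := rS 0x1f4c905 (k4 c10837 c4478 c1650 c9061 k0) (by decide +kernel)
def c11718 : PP 8 4 T 0x400000002000000040001011400000000514001554044004000000151205400000000 := rS 0x412fd167b40a6cd2855433c1cc606d0dfa7d642de28b127b94da9d0ec455e33089254e2f5292cbe050127d770c (k8 c4467 c4825 c4384 c11520 c55 c10439 c4434 c10933 (k8 c4432 c4558 c368 c342 c4294 c982 c4332 c790 (k8 c10547 c958 c11030 c4297 c8612 c4470 c4353 c11717 (k8 c125 c4305 c4422 c507 c8024 c4463 c1519 c11713 (k8 c1495 c10793 c866 c1362 c4055 c11588 c5760 c7040 (k1 c9666 k0)))))) (by decide +kernel)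
def c11719 : PP 8 4 T 0x500000002000000040001010040041050000001554000021001045181005400100008 := rS 0x1574b453159ec629ab59b45541ecfe4d4d8357f1527915a26d19b0c82b3538bd4a4b4faee188728a242ee5 (k8 c11030 c4431 c7030 c4435 c9141 c4467 c4825 c4384 (k8 c4434 c10933 c4432 c4558 c11612 c4433 c9009 c4294 (k8 c958 c4298 c4296 c4297 c4386 c1511 c1407 c11688 (k8 c324 c7517 c7035 c2111 c4398 c1484 c948 c11686 (k4 c11690 c1519 c8360 c8362 (k2 c4427 c1673 (k1 c4491 k0))))))) (by decide +kernel)
def c11720 : PP 8 4 T 0x400000002000000040000000000040041100000000000004000044001205000100000 := rS 0x192b7638d1623744a1cf2772a818e6713799c12582db047417209453aaf1998d66751e82dcab95ac452a3908924be054fc30468f1007c3a02 (k8 c11520 c790 c392 c4466 c11703 c832 c4467 c4384 (k8 c55 c10439 c368 c342 c361 c855 c4332 c7420 (k8 c6781 c11030 c303 c329 c11627 c11612 c815 c4294 (k8 c982 c10547 c4435 c4433 c4431 c11716 c1580 c11556 (k8 c4476 c231 c8996 c1107 c537 c1110 c4462 c247 (k8 c1023 c500 c9141 c7030 c11719 c8612 c11718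 c1451 (k2 c1038 c8024 (k1 c11717 k0)))))))) (by decide +kernel)
def c11721 : PP 8 4 T 0x400000000000000000000000000001000000000001000014000080001000000000008 := rS 0xb40b (k2 c303 c4476 (k1 c11699 k0)) (by decide +kernel)
def c11722 : PP 8 4 T 0x400000002000000040000011400000000500000100004004000080101205400000000 := rS 0x6f3899ce65864add62c71baa534e5368cd3a1d8884492a717a94965f028093f0c (k8 c4467 c4384 c11520 c55 c10439 c4434 c10933 c4432 (k8 c4558 c368 c342 c4332 c790 c10547 c4294 c958 (k8 c11030 c4567 c866 c11688 c11713 c8612 c9550 c8024 (k4 c11721 c1110 c656 c537 (k2 c1107 c11717 k0))))) (by decide +kernel)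
def c11723 : PP 8 4 T 0x400000002000000040000000000000041100000000000004000004001205000100000 := rS 0x1574b4521cee55031ccf26704960b6c1628ea2a4d3dafca69ba2ab550cf1ab188f435110d770c52a9c924b1793c8ad1289b53aaf1998d8641599d47a0b72ae56b114a8e4468f1007c3a02 (k8 c11520 c790 c392 c4466 c11703 c832 c361 c855 (k8 c4332 c7420 c6781 c11030 c303 c329 c11627 c11612 (k8 c4433 c9009 c815 c4294 c982 c10547 c958 c4435 (k8 c4298 c4296 c4297 c4432 c4434 c368 c4558 c10933 (k8 c4467 c4825 c11722 c11720 c4393 c1313 c4473 c1451 (k8 c1519 c11713 c949 c4398 c866 c11686 c5760 c7035 (k8 c412 c11148 c11559 c8360 c1580 c11556 c4476 c231 (k8 c8996 c11643 c1110 c4462 c247 c1023 c9141 c8362 (k2 c4427 c1673 (k1 c4491 k0)))))))))) (by decide +kernel)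
def c11724 : PP 8 4 T 0x2000000040000000000201000000000000000000000040151000000000000 := rS 0x9abf (k2 c1404 c1934 (k1 c10063 k0)) (by decide +kernel)
def c11725 : PP 8 4 T 0x2000000000000000000002000000040000000000000000000000000000000000040150000000000000 := rS 0x9abf (k2 c4399 c4451 (k1 c10063 k0)) (by decide +kernel)
def c11726 : PP 8 4 T 0x400000002000000000000800004020010114000104046014000004400000000000000 := rS 0x15a6945b34ee9a40c65a2e54e874f66d010ccca5a (k8 c4476 c578 c4294 c11520 c958 c704 c790 c10547 (k8 c11030 c4298 c4369 c1364 c5760 c1093 c7983 c4632 (k2 c885 c901 (k1 c11210 k0)))) (by decide +kernel)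
def c11727 : PP 8 4 T 0x2400000002000000040000011000000000100000004040114001005141208000100000 := rS 0xd082262fd56a04fb199047398341cfd44a1e08602a85c820500a55670d58adce2653a844401f8b0ecc71105b94d6a6a2a946a08219b4669d0e808be5a (k8 c4476 c577 c11520 c790 c10547 c4294 c958 c11721 (k8 c839 c1059 c11724 c11725 c4568 c2009 c11030 c303 (k8 c4332 c815 c11556 c4471 c392 c4466 c2305 c11627 (k8 c578 c4387 c4353 c4350 c4324 c11612 c855 c28 (k8 c55 c4433 c4431 c247 c11613 c4478 c9156 c7030 (k8 c4302 c879 c502 c4408 c9127 c9531 c2113 c1664 (k4 c409 c2013 c11726 c10063 (k2 c9674 c10553 (k1 c2001 k0))))))))) (by decide +kernel)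
def c11728 : PP 8 4 T 0x2400000002000000040000011000000000100000004000114001005141208000100000 := rS 0x1fa61349f01e87233118e532a04e0a66535154a3500adc869d0e820f66d1997c765a31c441602 (k8 c11520 c303 c4332 c815 c4476 c11556 c577 c4294 (k8 c958 c704 c839 c790 c10547 c11721 c4353 c28 (k8 c1059 c11724 c11725 c4568 c11727 c4310 c510 c919 (k8 c9747 c2170 c11242 c2113 c1635 c1332 c1602 c925 (k2 c879 c4379 (k1 c4532 k0)))))) (by decide +kernel)
def c11729 : PP 8 4 T 0x2400001002000000040000400000000000000000001002100000040151000000009200 := rS 0x342089841 (k4 c4433 c10063 c9674 c10553 (k1 c2001 k0)) (by decide +kernel)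
def c11730 : PP 8 4 T 0x2000000001000015004000000044000001550000001005550208000108000 := rS 0x18ca123ab0fa89821542ee588abc6663 (k8 c815 c4294 c982 c4332 c11030 c4431 c247 c4478 (k4 c7030 c4409 c2120 c1331 (k2 c901 c2113 (k1 c409 k0)))) (by decide +kernel)
def c11731 : PP 8 4 T 0x2400000002000000040000011000000000100000000000114001005141208000100000 := rS 0x23b1c27053321d5669459dd9a9a40c657c6b528d41a0e429fcc0fd373461ab721a743a0803804f66d19994eac18b0ecb4638882c04e5 (k8 c11030 c11520 c303 c4332 c815 c4476 c11556 c4471 (k8 c4420 c11627 c578 c4294 c958 c704 c28 c494 (k8 c839 c790 c10547 c11721 c4353 c4324 c4298 c11728 (k8 c4378 c9688 c1459 c4564 c879 c502 c1330 c11724 (k8 c621 c11729 c4369 c1364 c5760 c7983 c1094 c4632 (k8 c885 c1972 c10171 c11730 c4310 c510 c7228 c1332 (k1 c2113 k0))))))) (by decide +kernel)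
def c11732 : PP 8 4 T 0x2400000002000000040000011000000000500000000000014000005041208000100000 := rS 0x194c45314d4a13828d5926f30a8890111d994ba5f0410cb46d19a762263599d416e51c8803e1d0143562b7 (k8 c4353 c4350 c4324 c11520 c790 c392 c4466 c361 (k8 c11030 c303 c11627 c11612 c815 c4332 c10547 c4294 (k8 c958 c4476 c11721 c839 c577 c840 c578 c11556 (k8 c2305 c11731 c369 c2940 c9688 c7308 c1059 c9531 (k4 c1718 c11724 c9747 c11702 (k2 c11242 c941 (k1 c1756 k0))))))) (by decide +kernel)
def c11733 : PP 8 4 T 0x1000040040015100000000000010154000000001005550000000110000 := rS 0x3f11992b3 (k4 c11612 c8024 c2113 c2121 (k1 c1312 k0)) (by decide +kernel)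
def c11734 : PP 8 4 T 0x2100000000000000000100011400040000000010144044000000000000000000000000 := rS 0xc87e82ac56e71 (k4 c4387 c4353 c4350 c9531 (k2 c2121 c4478 (k1 c555 k0))) (by decide +kernel)
def c11735 : PP 8 4 T 0x2000000000000000040000011400040000000010144044000000000000200000014000 := rS 0xd7eb209311 (k4 c4332 c369 c11734 c4305 (k2 c507 c4463 k0)) (by decide +kernel)
def c11736 : PP 8 4 T 0x400000002000000040000000000000041100000000000004000004001201000100000 := rS 0x10409b1cfca1511f4bc5d089540c0f339cc12613796163141bc344cb547ae4eab34a87dca0b01444c63d (k8 c329 c815 c4332 c11520 c303 c11030 c392 c855 (k8 c11612 c11627 c6781 c11703 c7420 c11723 c4324 c321 (k8 c4486 c4350 c11732 c1107 c617 c1105 c1110 c656 (k8 c239 c4462 c247 c608 c807 c11613 c1380 c11735 (k4 c161 c1465 c409 c515 (k2 c4464 c4313 k0)))))) (by decide +kernel)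
def c11737 : PP 8 4 T 0x1000040000000000000000800000004000414000009000204000100008 := rS 0xa323ad1723664a7c729458a4c405a0f87476672a98543151a8200e0b (k8 c303 c11031 c4462 c1059 c4388 c894 c878 c8954 (k8 c919 c144 c790 c223 c4476 c4466 c1121 c624 (k8 c401 c360 c1428 c7550 c4470 c9738 c403 c1412 (k2 c859 c11522 k0)))) (by decide +kernel)
def c11738 : PP 8 4 T 0x1500000002000000040040011040040050014000154004024001008001005000000008 := rS 0xc360ab68aa826864eecb071a684b05bb249ee5368ce2e673daccaa114f9e57e381b8d48aa525a9c5e5b5dc30465f0290c3c080382d3a1d (k8 c790 c10547 c303 c11031 c4462 c1105 c2132 c55 (k8 c10439 c4547 c4467 c4825 c93 c4432 c4558 c4434 (k8 c10933 c4296 c1059 c2130 c4470 c1240 c11643 c4384 (k8 c342 c8954 c1186 c1224 c919 c4356 c4294 c958 (k8 c11030 c4297 c8024 c1162 c11717 c4492 c11637 c1146 (k8 c4425 c7751 c10711 c244 c2111 c4398 c948 c8361 (k2 c5849 c11689 k0))))))) (by decide +kernel)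
def c11739 : PP 8 4 T 0x400000002000000040015000640000000014105140000020000000000005000000008 := rS 0x22cee69368cd4e2f5292cbe05 (k8 c55 c10439 c4434 c10933 c4432 c4558 c4294 c958 (k4 c11637 c1152 c11588 c2123 k0)) (by decide +kernel)
def c11740 : PP 8 4 T 0x400000002000000040090000400000008814005044000024000000201205400000008 := rS 0x8b3b9a41eb161a0582ad542d99e1b279b55e33538bd4a4b3a96d770c (k8 c4467 c4825 c93 c1657 c4434 c10933 c4432 c4558 (k8 c4294 c982 c958 c4297 c4292 c1519 c411 c11713 (k8 c949 c1749 c1362 c1128 c11739 c11530 c10936 c7751 (k2 c11588 c2123 k0)))) (by decide +kernel)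
def c11741 : PP 8 4 T 0x400000002000000040000000000000041900000004000004000000001205000100000 := rS 0xa12896ec73cad57ebb4fae4ea384ac3124372188446710f16cb0354e87622af1998c7b17629cd0e514485dca7b22acc1007059547c49538bd4a4b2f8140515 (k8 c4388 c11520 c55 c10439 c4434 c10933 c4432 c4558 (k8 c368 c11736 c8954 c303 c11031 c4462 c1186 c4296 (k8 c1224 c11030 c4431 c7030 c4435 c9141 c1082 c1248 (k8 c4356 c329 c815 c4294 c982 c4332 c790 c10547 (k8 c1059 c11737 c93 c1105 c11634 c4547 c231 c2132 (k8 c2130 c393 c4467 c854 c4470 c1657 c1125 c4384 (k8 c4825 c1240 c1658 c11643 c11740 c1162 c11738 c4492 (k1 c4393 k0)))))))) (by decide +kernel)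
def c11742 : PP 8 4 T 0x400000002000000040000000000000041900000000000004000000001205000100000 := rS 0x1a034b85a3745410071f02c2202 (k8 c11520 c342 c303 c11736 c11031 c4462 c4388 c11741 (k4 c1346 c1345 c3276 c4523 (k1 c1060 k0))) (by decide +kernel)
def c11743 : PP 8 4 T 0x400000002000000040000000000000000500000004004014000009001205000000000 := rS 0x262fca6cd4dab57a375433e28b563320fb0451add3e651ca50fe5d5888d2620219683e4f20915ca6d4e87622af19c5c76672a844c24950a9c5ea52597c0a350401c1602 (k8 c11520 c303 c11031 c4462 c1059 c55 c10439 c4434 (k8 c10933 c4432 c4558 c894 c368 c878 c342 c8954 (k8 c919 c144 c4356 c4294 c982 c4332 c790 c10547 (k8 c958 c11030 c4296 c4433 c4297 c223 c4476 c11721 (k8 c4466 c1121 c2833 c625 c840 c6629 c401 c360 (k8 c579 c1699 c1746 c858 c4478 c4409 c2118 c9121 (k8 c1705 c7550 c1519 c11713 c403 c4354 c949 c866 (k4 c1484 c11686 c5760 c4252 (k1 c412 k0))))))))) (by decide +kernel)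
def c11744 : PP 8 4 T 0x400000002000000040090040400000008014005040000024000000201205400000008 := rS 0x22cee6907ac5868160ab550b66786c9e6d578cd4e2f5292cea5b (k8 c93 c1657 c4434 c10933 c4432 c4558 c4294 c982 (k8 c958 c4297 c4292 c1519 c411 c11713 c949 c1749 (k8 c1362 c1128 c11739 c241 c10936 c7751 c11588 c2123 k0))) (by decide +kernel)
def c11745 : PP 8 4 T 0x1400000002000000040000000000000041514000044004004000008001205000000000 := rS 0x284a25bb1cf2bf5d88c710c4e87622af19c5d8a7b22accaa49538bd4a4b2f8146a71218dd2a213a96d72b549078b03d0401c1602 (k8 c11520 c303 c11031 c4462 c329 c11743 c1105 c393 (k8 c1659 c1125 c93 c1657 c231 c854 c2130 c2132 (k8 c537 c1059 c55 c10439 c4434 c10933 c4432 c4558 (k8 c368 c8954 c1186 c4296 c1224 c1248 c4356 c4294 (k8 c982 c4332 c790 c10547 c4486 c4470 c4547 c4825 (k4 c1240 c11643 c11744 c1162 (k2 c11738 c4492 (k1 c4393 k0)))))))) (by decide +kernel)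
def c11746 : PP 8 4 T 0x400000002000000040000000000000041514000044004004000008001205000000000 := rS 0x182793ba6cd2a8118398c0d23bf590b71cc5208b55c9d5243738878b6581ab940a6d198f62e67598200e0b2a8440449538bd4a4b (k8 c4434 c10933 c4432 c4558 c368 c11520 c342 c8954 (k8 c303 c11031 c4462 c1186 c919 c4356 c329 c4294 (k8 c958 c55 c11030 c1059 c11743 c93 c1105 c537 (k8 c2130 c393 c1657 c1125 c1659 c4481 c11745 c4348 (k8 c4353 c7081 c8860 c1583 c507 c8024 c4463 c915 (k4 c11713 c10793 c866 c7751 (k2 c541 c1661 (k1 c11718 k0)))))))) (by decide +kernel)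
def c11747 : PP 8 4 T 0x400000002000000040000000000000041100000000000004000000001205000100000 := rS 0x64831463432a50ba2349880865a0f9fc72591bbf4dc8f2fa84926108814da334e874c6734394512177299caa08038f81602 (k8 c11520 c303 c11736 c11031 c4462 c8954 c919 c11030 (k8 c4431 c7030 c4435 c9141 c1082 c815 c790 c10547 (k8 c4294 c958 c55 c342 c878 c368 c894 c10439 (k8 c11742 c11746 c4378 c1344 c1107 c1074 c1460 c223 (k8 c4476 c11721 c4466 c1121 c2833 c840 c401 c579 (k4 c11709 c858 c1060 c507 (k1 c11710 k0))))))) (by decide +kernel)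
def c11748 : PP 8 4 T 0x44000800000000054480000000000208000000008 := rS 0x284c311 (k4 c4332 c2848 c2849 c4536 k0) (by decide +kernel)
def c11749 : PP 8 4 T 0x2400000002000000040010010044000020004000204416100000040141000000000208 := rS 0x34a2d867740c657c0d073f4026d199ec8a35 (k8 c1059 c4296 c1224 c4294 c958 c28 c4302 c879 (k8 c502 c11729 c4369 c1364 c1093 c1215 c7804 c885 (k1 c11067 k0))) (by decide +kernel)
def c11750 : PP 8 4 T 0x500000000000000000080000040020000000000000000000021000001000000000000 := rS 0x2b4a4cd (k4 c2063 c412 c901 c11686 k0) (by decide +kernel)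
def c11751 : PP 8 4 T 0x400000002000000040000040000004000000004015055480001040151208000010000 := rS 0x193ba1632be268358ca007abc670d51974ff11 (k8 c4332 c6629 c807 c935 c4324 c4294 c982 c239 (k8 c4536 c895 c1447 c11750 c9891 c4369 c4136 c1093 (k2 c4540 c10080 k0))) (by decide +kernel)
def c11752 : PP 8 4 T 0x6400000002000000040010010044000020014000004456100000040141000000000208 := rS 0xad45b0ceb1934a057c0d008d41cfd368ccf645 (k8 c4296 c1224 c4294 c958 c4302 c879 c1059 c28 (k8 c502 c11729 c1364 c885 c4369 c11749 c1215 c8095 (k2 c861 c2120 k0))) (by decide +kernel)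
def c11753 : PP 8 4 T 0x6400000002000000040010000000000024114000014044004001000041208000000200 := rS 0x28686ac45b3570693ba6903195f0341cfd302acd6a6a2a946a0188abcf6458690cb29d368ccba111ca3cbe9f51994b4200f87404bb (k8 c4390 c11520 c790 c353 c4466 c231 c579 c935 (k8 c1699 c577 c11748 c361 c2305 c807 c4294 c958 (k8 c10547 c1105 c11721 c4324 c4296 c1224 c982 c4332 (k8 c28 c1059 c11724 c11725 c4568 c2009 c2013 c11751 (k8 c4302 c879 c502 c11729 c4369 c1364 c5760 c1093 (k8 c885 c11752 c1486 c7804 c11533 c4394 c901 c4489 k0)))))) (by decide +kernel)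
def c11754 : PP 8 4 T 0x400000002000000040000000000000041100000000000004000000001201000100000 := rS 0xa12e142c2562acd28b35b34ee9940c654abe1a8341c85303f4dc711cc511e5f2ea7d46433296822942496526201b87e1a263d820ce8943b140e558b8f82e4528b94026d05a743a0288abc6663 (k8 c815 c4294 c982 c4332 c11520 c790 c10547 c303 (k8 c958 c28 c11030 c4435 c4296 c4431 c11736 c4356 (k8 c8954 c11031 c1248 c9141 c7030 c919 c4462 c1224 (k8 c11747 c4324 c353 c321 c4466 c1121 c1105 c2333 (k8 c401 c2305 c231 c579 c11721 c935 c1699 c807 (k8 c577 c11748 c4486 c361 c4135 c11753 c4378 c9688 (k8 c4564 c879 c502 c1330 c11729 c11724 c4369 c1364 (k8 c1133 c1094 c1486 c621 c7804 c885 c1701 c2120 (k4 c861 c901 c1215 c4489 (k1 c4394 k0)))))))))) (by decide +kernel)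
def c11755 : PP 8 4 T 0x400000000000000000000000000001000000000001000004000010002240000100008 := rS 0xea5839c612a7b3ba6d8ac345a250f4b2dc24426a34aa8a418028043a0b (k8 c303 c790 c28 c55 c228 c396 c397 c1879 (k8 c229 c11577 c4436 c5066 c4456 c1903 c3852 c1673 (k8 c9076 c1675 c3880 c7751 c4055 c854 c5528 c7619 (k2 c4476 c539 (k1 c9078 k0))))) (by decide +kernel)
def c11756 : PP 8 4 T 0x400000002000000000000000000000001100000000000004000000000040000100000 := rS 0xe2735ac1166752c3f5626f33adcfe8f64ae4fb434a96cc20e2f1553cc61089c4831888b1a641368cd3a970587404e5 (k8 c11030 c11520 c790 c303 c11617 c10547 c4294 c958 (k8 c4433 c11616 c11682 c4332 c11755 c11754 c115 c313 (k8 c394 c395 c2166 c225 c224 c878 c838 c854 (k8 c4391 c1352 c1396 c1665 c3404 c3375 c1667 c919 (k8 c1378 c545 c4376 c4476 c539 c7239 c4483 c7420 (k2 c4956 c537 (k1 c10837 k0))))))) (by decide +kernel)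
def c11757 : PP 8 4 T 0x2100000000000004000000000000000000008 := rS 0x1e03084b0112e96cde35028043a0b (k8 c303 c790 c28 c55 c1035 c1075 c2894 c808 (k4 c10960 c4476 c7022 c10545 (k2 c4466 c1098 k0))) (by decide +kernel)
def c11758 : PP 8 4 T 0x400000002000000000000000000000000100000000000004000000000040000000000 := rS 0x2cc0c9504880b7113387c58622a8512ee50e82d2202 (k8 c11520 c11757 c303 c790 c11030 c11617 c11756 c141 (k8 c383 c382 c2346 c919 c4332 c2839 c4466 c231 (k4 c4534 c4462 c7239 c648 k0))) (by decide +kernel)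
def c11759 : PP 8 4 T 0x400000002000000080000000000000000900000000000004000000000000000000000 := rS 0x152a25dafe1a0f2f064f67718ab222af52a6a329d4cb0c82d121914a65158d0d3e258aad872b5729bc6e473231c6a0824c14ea3d2a0fc76070f07402582d8845402 (k8 c11520 c11758 c10518 c838 c4476 c28 c790 c4466 (k8 c1098 c1641 c2136 c226 c9050 c1686 c4406 c4281 (k8 c222 c1099 c2137 c227 c3584 c2130 c1107 c11030 (k8 c7513 c4280 c4559 c4353 c7033 c5142 c4424 c1145 (k8 c4435 c2138 c4296 c2132 c4298 c4433 c9009 c4166 (k8 c10547 c9828 c4488 c1971 c1774 c4411 c11271 c2046 (k8 c1111 c1224 c4540 c11580 c11530 c4382 c3491 c11071 (k2 c5588 c867 (k1 c11565 k0))))))))) (by decide +kernel)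
def c11760 : PP 8 4 T 0x400000002000000080000000000000000100000000000004000000000000000000000 := rS 0xa98623e2ab6248e522c7829d56a47320d4103737960b69a8ca6586e520914a2315610c3c21888fd5ed11da743a3d2a14c5402 (k8 c11520 c11758 c2138 c226 c9050 c790 c10547 c1641 (k8 c4298 c1774 c2136 c4411 c10518 c4466 c2132 c11271 (k8 c2046 c4435 c4296 c4433 c11030 c9009 c4166 c9828 (k8 c4488 c838 c4476 c1107 c2130 c222 c1099 c227 (k8 c3584 c7513 c1686 c4406 c2137 c11757 c4280 c4281 (k4 c4559 c4353 c11759 c4486 (k2 c866 c5264 k0))))))) (by decide +kernel)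
def c11761 : PP 8 4 T 0x10400000002000000040000000000101100800000004000020000040050004000000210 := rS 0x2ea18235f97d4e3812c545e45 (k8 c4296 c4432 c4388 c1423 c4470 c4558 c10439 c1240 (k4 c4547 c4467 c10455 c4825 k0)) (by decide +kernel)
def c11762 : PP 8 4 T 0x40000000000000100000002000000040440000000004000000000154044000400445550000000110000 := rS 0x1357ecfa192228b768ae56ae5 (k8 c11030 c7513 c11342 c4298 c7094 c4470 c11712 c4421 (k4 c1790 c9033 c10947 c11148 k0)) (by decide +kernel)
def c11763 : PP 8 4 T 0x500000002000000040040040020101100000000144044020400445450005000110210 := rS 0x225fc5470cb2fa9d3e2f22d2ce28f8cb0dca41 (k8 c4433 c11030 c9009 c9828 c11761 c537 c4458 c4296 (k8 c4432 c11480 c4558 c10439 c2026 c11762 c4348 c1240 (k2 c10455 c4547 k0))) (by decide +kernel)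
def c11764 : PP 8 4 T 0x400000002000000000000000000000000100000000000004000000000000000000000 := rS 0x5b92472245da3da6a540a68eeac3d9be32991b90c1035139616ab961878b6473a8f4e667318842254578ecc8c71f94c2b11168a9229d0e814044122b44a2e5 (k8 c11030 c4435 c4298 c4296 c4433 c11520 c55 c790 (k8 c10547 c11757 c11758 c143 c4411 c286 c2138 c2136 (k8 c2137 c227 c1641 c1774 c226 c2303 c10518 c1607 (k8 c918 c1649 c9050 c1686 c3584 c838 c4466 c9009 (k8 c11342 c7513 c4476 c353 c1099 c222 c2132 c2130 (k8 c4166 c9828 c1107 c1224 c11271 c1111 c4488 c7000 (k8 c1971 c11760 c11761 c10310 c11763 c2133 c2134 c7094 (k1 c2113 k0)))))))) (by decide +kernel)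
def c11765 : PP 8 4 T 0x400000002000000080000000002001004100000000000000000045040000080000000 := rS 0x1769ba29587235 (k4 c4373 c4280 c11764 c4398 (k2 c2785 c1444 (k1 c11043 k0))) (by decide +kernel)
def c11766 : PP 8 4 T 0x400000000000000000000080000101400000000000000000000000000000000000000 := rS 0x13319 (k2 c4449 c1930 (k1 c4488 k0)) (by decide +kernel)
def c11767 : PP 8 4 T 0x1400000002000000080000000001401000000000020000240000040000000001004000 := rS 0x823ca05769b428c0961b1785c9e330889c9a0d118954abf (k8 c3488 c3397 c3395 c4372 c4371 c4282 c4278 c4276 (k8 c4294 c4297 c4431 c4432 c4292 c4434 c6996 c1497 (k4 c1966 c11766 c1421 c11643 (k2 c2108 c588 k0)))) (by decide +kernel)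
def c11768 : PP 8 4 T 0x1000080140000000000000000040000000001000000000000000144000 := rS 0x1f42247 (k4 c4374 c4276 c7516 c9509 k0) (by decide +kernel)
def c11769 : PP 8 4 T 0x400000002000000080000000000000000900000004000000000000000040000000004 := rS 0x3052a99579c8ea8b82a24d1090a2ac2684638a0ca835bc5cf2c51f205769b541fd26a3648645a552183c16374b8f566081d8117eb9528953e1e4eac4cea750804b8700ec55224b0d85c9e4128b94b25b368444e39249341a231a91c4256 (k8 c11764 c798 c4374 c4373 c4372 c4371 c4282 c4281 (k8 c4280 c4278 c4276 c9753 c92 c63 c11030 c4435 (k8 c4433 c4297 c4431 c4292 c4434 c130 c4388 c760 (k8 c801 c800 c2709 c2779 c2780 c2927 c1147 c10547 (k8 c4466 c3396 c3395 c3397 c3447 c3488 c4461 c3062 (k8 c1065 c3200 c274 c1194 c272 c271 c264 c2189 (k8 c266 c2356 c7626 c7550 c11410 c9125 c1457 c11767 (k8 c2785 c1444 c1362 c11765 c7718 c11643 c4356 c1161 (k8 c588 c7044 c7249 c7557 c2108 c530 c1572 c11768 (k8 c4321 c1498 c684 c4308 c718 c590 c385 c9756 (k4 c5568 c803 c1621 c7478 k0))))))))))) (by decide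 +kernel)
def c11770 : PP 8 4 T 0x1400000002000000080000000100500000000101005000500000000001001001004000 := rS 0x1c104fd429a5504b0d8bc2e4f198449a0d (k8 c4371 c4282 c4276 c4294 c4297 c4431 c4432 c4292 (k8 c4434 c6996 c826 c10110 c11564 c2108 c4480 c588 k0)) (by decide +kernel)
def c11771 : PP 8 4 T 0x400000002000000080000000000001001500000004000000000040040001020000800 := rS 0x1c104fd429a4605f53a054a5d861e579158c2fc961b0b93cda111c9341a354d8bd324158864ac0f (k8 c305 c11764 c7490 c1147 c4433 c1031 c4432 c764 (k8 c4373 c4371 c4282 c4280 c4276 c9753 c4297 c4431 (k8 c4292 c4434 c5760 c4488 c11148 c5504 c4447 c4486 (k8 c4628 c1939 c1899 c4330 c4382 c11770 c1878 c10110 (k4 c11065 c2108 c4480 c588 k0))))) (by decide +kernel)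
def c11772 : PP 8 4 T 0x1400000002000000080000800000000001500000004100000000000001000000004000 := rS 0x38bf50a5f861b56256 (k8 c11764 c1147 c9753 c4486 c4382 c10110 c11564 c1513 (k1 c4480 k0)) (by decide +kernel)
def c11773 : PP 8 4 T 0x400000002000000000000000000000000000000001100000000042000140000100060 := rS 0x194a6130db450e51449542ee5 (k8 c11030 c4431 c266 c7030 c4435 c9141 c4298 c4292 (k4 c1679 c332 c7854 c7856 k0)) (by decide +kernel)
def c11774 : PP 8 4 T 0x1000000000000000000080000000000040008000000000140000000100 := rS 0x5311 (k2 c4336 c4604 (k1 c4468 k0)) (by decide +kernel)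
def c11775 : PP 8 4 T 0x1400000002000000000000811000040055500000000100001010000000000001100800 := rS 0x4d16533aa1594c42fada181b689b4ac8728a242ee5 (k8 c11030 c4431 c7030 c4435 c9141 c11764 c9753 c4298 (k8 c4292 c4486 c7468 c4382 c1246 c1247 c10110 c3690 (k4 c2022 c1753 c570 c2109 k0))) (by decide +kernel)
def c11776 : PP 8 4 T 0x1000000000000000008000000000000000000000400000140000000000 := rS 0x5311 (k2 c4414 c1570 (k1 c4468 k0)) (by decide +kernel)
def c11777 : PP 8 4 T 0x1400000002000000080000000000000045500000004000000000044040141020100860 := rS 0xb55caf87abd34a70964f20914da39268d48ea311b94f61b0c9552ab32c959770c (k8 c4486 c4825 c11764 c63 c662 c7304 c266 c7490 (k8 c4292 c702 c11030 c4372 c11410 c4374 c4373 c4282 (k8 c4280 c9753 c4296 c4433 c4297 c4434 c11771 c825 (k4 c1173 c11773 c2114 c7514 (k2 c7513 c11775 k0))))) (by decide +kernel)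
def c11778 : PP 8 4 T 0x1400000002000000080000000000000045500000004000000000004040141020100860 := rS 0xe0827ea14d2814e2f4ef192117e184b0b93cda1126835362f4c905627b0d864ac0f (k8 c305 c11764 c7490 c4292 c702 c1147 c4433 c1031 (k8 c4432 c764 c4371 c4282 c4276 c9753 c4297 c4431 (k8 c4434 c4486 c4382 c11777 c4446 c1886 c2015 c4488 (k4 c7000 c825 c10110 c11065 (k2 c2108 c4480 (k1 c589 k0)))))) (by decide +kernel)
def c11779 : PP 8 4 T 0x10000000002000000000004000000000040014000400040001000006000000101000800 := rS 0x22ca67362c5c761768944f61b (k8 c4292 c702 c4435 c4298 c4431 c89 c4416 c1782 (k4 c1614 c333 c7804 c7682 k0)) (by decide +kernel)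
def c11780 : PP 8 4 T 0x400000002000000080000000000000001100000004000000000004040141040100104 := rS 0xa5a2a090aa986a81723d40a9d86693ba7232b55bc5112874a9541eb30c9ec089705004961b0b93ca2592d9b4224d068d40e6147ab546234f91cce9372a6c5e990e084ac41 (k8 c4433 c11764 c798 c4466 c1031 c4432 c764 c11030 (k8 c11351 c4555 c4374 c11776 c4372 c11410 c4554 c11769 (k8 c881 c1018 c4373 c4371 c4282 c4276 c9753 c92 (k8 c63 c4435 c4297 c4431 c4292 c4434 c751 c4462 (k8 c11774 c4461 c702 c7490 c662 c305 c266 c7304 (k8 c9141 c7030 c11778 c4353 c4389 c5037 c4488 c4703 (k8 c825 c9725 c906 c8106 c11779 c7514 c2125 c4329 (k4 c7768 c10079 c2108 c4452 (k2 c1937 c4490 k0))))))))) (by decide +kernel)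
def c11781 : PP 8 4 T 0x1400001002000000080000040100500001001100004000040000040040001001000000 := rS 0x4e9e178825f83ce04b0d85c9e41228444e39268344635 (k8 c4373 c4372 c4371 c4282 c4280 c4278 c4276 c4296 (k8 c4433 c4297 c4431 c4292 c4434 c4480 c1415 c1513 (k4 c2108 c2114 c588 c1173 (k1 c11643 k0)))) (by decide +kernel)
def c11782 : PP 8 4 T 0x20000000000000080000000000044000000000000000000000002040140000000410 := rS 0x18e29139244647 (k4 c4374 c4372 c4281 c4278 (k2 c7860 c330 (k1 c4200 k0))) (by decide +kernel)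
def c11783 : PP 8 4 T 0x1000000000000000000080000000000000000000004000140000000000 := rS 0x5311 (k2 c4336 c777 (k1 c4468 k0)) (by decide +kernel)
def c11784 : PP 8 4 T 0x400000002000000080000000000000001100000004000000000004040141040100004 := rS 0x2dd6ab98a0f54aa18629d76fd40c20865d42a54be69358640a0005821622f0b96cda3530a3d46234f91d2e1c1095926e5 (k8 c11030 c11351 c11764 c798 c4466 c11783 c4374 c11776 (k8 c4372 c11410 c11769 c881 c4373 c9753 c92 c4431 (k8 c4432 c1147 c11780 c84 c1058 c262 c7626 c492 (k8 c756 c489 c2710 c5976 c752 c236 c4479 c4439 (k8 c5101 c10310 c4532 c4477 c4329 c4385 c11782 c11781 (k4 c7514 c7513 c4353 c2125 k0)))))) (by decide +kernel)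
def c11785 : PP 8 4 T 0x1000000000000000080000010100000000000050000000001000002040000000104040 := rS 0xc96384d6f17089241a47 (k8 c4374 c4371 c4281 c4276 c4416 c1742 c1679 c330 (k2 c11399 c2107 k0)) (by decide +kernel)
def c11786 : PP 8 4 T 0x400000002000000080004000010005556000000000001101000000040000000104020 := rS 0xc9099958ea0672b956a652d1578c154c618a33089261a7f069f48ee5 (k8 c11030 c4374 c7516 c4371 c7517 c4328 c4281 c4276 (k8 c4294 c7718 c4488 c978 c4450 c5090 c4454 c1938 (k8 c4490 c2013 c2127 c909 c908 c4103 c3739 c530 (k2 c7308 c2107 k0)))) (by decide +kernel)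
def c11787 : PP 8 4 T 0x2000000080000040000200100100000000000000000040040000000000000 := rS 0xbd5f92c9e41228e49a35 (k8 c4373 c4282 c4280 c4296 c4433 c4297 c4434 c1403 (k2 c1938 c2114 k0)) (by decide +kernel)
def c11788 : PP 8 4 T 0x410000002000000080000440000102000000004400001100000040040000000000000 := rS 0x2fbf5047884d1578a72593c82451c9346b19 (k8 c4368 c4373 c4282 c4280 c4296 c4433 c4297 c4434 (k8 c907 c2114 c4454 c7667 c4482 c2016 c4306 c549 (k1 c4477 k0))) (by decide +kernel)
def c11789 : PP 8 4 T 0x400000002000000080000800100000002000000005100000000000000000001004000 := rS 0xe2fd42aa57b15 (k4 c4352 c194 c979 c10079 (k2 c11065 c1513 (k1 c4480 k0))) (by decide +kernel)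
def c11790 : PP 8 4 T 0x410000002000000080000440000002100100004000001100000040040000000000000 := rS 0x529dcda56 (k4 c11764 c9753 c1092 c11787 (k1 c11788 k0)) (by decide +kernel)
def c11791 : PP 8 4 T 0x400000002000000080000000000000006100000004000000000004040140020100104 := rS 0x41a1688a95e9097e815d9dcd3194e30c7a7d3f9752a5507ac4327b02028024b0d85c9e59368449a0d039855a9f23accac9b17a64830d8aae52ee5 (k8 c11030 c11783 c1205 c4352 c4328 c4433 c1031 c4432 (k8 c764 c11764 c1187 c4374 c11776 c4554 c881 c1018 (k8 c4371 c4282 c4276 c9753 c63 c4297 c4431 c4292 (k8 c4434 c751 c4462 c4461 c702 c7490 c622 c305 (k8 c266 c7304 c809 c7517 c7516 c11785 c9009 c11786 (k8 c4368 c825 c1092 c11071 c7000 c11789 c11790 c2015 (k4 c979 c4493 c10079 c4452 (k1 c2108 k0)))))))) (by decide +kernel)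
def c11792 : PP 8 4 T 0x400000002000000080000000000000000100000004000000000004040141040100004 := rS 0x7e420ba5f349ac000886a41261c1785dca6d11884c256 (k8 c11764 c881 c798 c4372 c9753 c11030 c4431 c4432 (k8 c4466 c11351 c11784 c4328 c11791 c1058 c492 c756 (k4 c489 c752 c4479 c4477 (k1 c5101 k0)))) (by decide +kernel)
def c11793 : PP 8 4 T 0x420000002000000080000000000000004100000000000000000005040000080000000 := rS 0x2f2889b182ec724d1aaa48604041593a45 (k8 c4296 c1232 c11764 c1065 c1066 c2189 c11765 c4373 (k8 c4282 c4280 c4825 c5264 c1966 c11043 c9123 c4454 k0)) (by decide +kernel)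
def c11794 : PP 8 4 T 0x400000002000000080000000000000000100000004000000000004040141000100004 := rS 0x4e0a622e2090a783420534a05f1c57ab75dc521a955aae433164983caa43488f4f6081d8103c4b0d85c9e56088e49a0d1aa3d46234f91d2ee5 (k8 c11030 c11783 c4374 c11776 c4372 c11410 c11769 c4373 (k8 c4371 c4282 c4280 c4276 c11764 c4297 c4431 c4292 (k8 c4434 c11792 c1066 c3062 c1065 c3243 c274 c1153 (k8 c2189 c266 c264 c9125 c4471 c7626 c7514 c7513 (k8 c4418 c11793 c4486 c4390 c4353 c4354 c4387 c11148 (k8 c2125 c9123 c1364 c804 c805 c602 c2108 c2001 (k4 c810 c4407 c1559 c4464 k0))))))) (by decide +kernel)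
def c11795 : PP 8 4 T 0x1400000002000000080000000000000001500000004000000000040040001020000800 := rS 0xfd40a14ee698ca70b66d3d86c3256588441ea72fa95770c (k8 c4486 c4825 c4385 c4382 c4330 c305 c4276 c622 (k8 c11764 c7490 c4292 c702 c9753 c92 c11771 c4368 (k4 c825 c1092 c10110 c7000 (k2 c11065 c11781 k0)))) (by decide +kernel)
def c11796 : PP 8 4 T 0x1400000002000000080000000000000001500000004000000000000040001020000800 := rS 0xe0827ea14d2814e2f4ef192117e184b0b93cda4d069ec36192b2c4220f4d8bd3241 (k8 c4433 c1031 c4432 c764 c305 c4276 c622 c11764 (k8 c7490 c4292 c702 c4371 c4282 c9753 c4297 c4431 (k8 c4434 c4486 c4382 c11795 c4446 c1886 c2015 c4488 (k4 c7000 c825 c10110 c11065 (k2 c2108 c4480 (k1 c589 k0)))))) (by decide +kernel)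
def c11797 : PP 8 4 T 0x400000002000000080100011000044055500000004000000000000040001020000800 := rS 0x2f209fa8540a9cd2a93ba7141195bc5096172796cda1126834c27b0d864ac0f4d8bd3241 (k8 c4433 c1031 c4432 c764 c305 c11764 c7490 c4292 (k8 c702 c881 c4371 c4282 c4276 c9753 c92 c4297 (k8 c4431 c4434 c11796 c4353 c5037 c2125 c4488 c4703 (k8 c7768 c825 c906 c8106 c10079 c11065 c2108 c11483 (k1 c549 k0))))) (by decide +kernel)
def c11798 : PP 8 4 T 0x400100002000000080104000010005556140010000000000000000040000001004000 := rS 0x1f885a19fcd2a0672b956a6a2a9578c121aee30c5549b4ad0d (k8 c4328 c11764 c9753 c978 c7718 c4488 c4449 c4446 (k8 c4450 c5090 c11787 c4454 c4490 c2013 c2127 c909 (k4 c908 c829 c4098 c4423 (k2 c10079 c4483 (k1 c11065 k0))))) (by decide +kernel)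
def c11799 : PP 8 4 T 0x400000002000000080000000000000000100000004000000000004040141000000004 := rS 0x20d0b4454af484815dafcee698ca70fa5d8ac3520994d8712a9307ac4327b0fb0d6ab93a994140964a2e0a3d0a12c361727904da11268346a2130a3d5a2f5188d3e4759a5dca56 (k8 c11764 c11030 c11783 c1187 c4374 c11776 c4372 c11410 (k8 c4432 c4554 c11769 c881 c798 c4373 c4371 c4282 (k8 c4276 c9753 c4433 c4297 c4431 c4292 c4434 c11794 (k8 c327 c4308 c718 c630 c384 c7508 c551 c591 (k8 c7514 c7513 c9009 c1065 c702 c7490 c622 c305 (k8 c1070 c803 c4466 c764 c1031 c11797 c4328 c4352 (k8 c809 c8975 c11798 c4368 c825 c1092 c11789 c11071 (k8 c7000 c11790 c2015 c979 c4493 c10079 c4452 c2108 k0)))))))) (by decide +kernel)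
def c11800 : PP 8 4 T 0x20000000000000080000000000044000000000000000000000002000140000000610 := rS 0x18e29139244647 (k4 c4374 c4372 c4281 c4278 (k2 c7860 c2149 (k1 c4200 k0))) (by decide +kernel)
def c11801 : PP 8 4 T 0x420000002000000080000000000001001400000004000008000004080141020100440 := rS 0xece454449f99f4382b256c7561ad47acd439dd17455442106817ea54d26b380397205000202e453698546234f91d66972eac62aa72fa95767b62a4c3ee5219e583184c905362f (k8 c4432 c764 c4433 c1031 c4488 c4450 c4447 c4446 (k8 c11030 c273 c11351 c7718 c1226 c4825 c4385 c4382 (k8 c4330 c4386 c1147 c4628 c11783 c1187 c4374 c11776 (k8 c4372 c11410 c881 c9753 c4296 c4431 c4462 c1058 (k8 c262 c9738 c232 c233 c492 c756 c2710 c4376 (k8 c1421 c588 c4479 c9304 c9368 c4322 c4438 c4440 (k8 c1483 c11800 c7513 c9009 c11627 c9813 c586 c9062 (k8 c4424 c1796 c5279 c6175 c1456 c2123 c1601 c9804 k0)))))))) (by decide +kernel)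
def c11802 : PP 8 4 T 0x420000002000000080000000000000010000000001000000000042000140001100060 := rS 0xc0d029 (k4 c1680 c11773 c11569 c1878 k0) (by decide +kernel)
def c11803 : PP 8 4 T 0x400000002000000080000000000001001100000004000000000004000141000100004 := rS 0xfd319cccb04099d622cf5b30d6ab91e9f4fe952a810021905304871862964b66d068d48e0730ab546235999d2e9372a6c5e990e07c42412eac4ac5f864546c8f (k8 c11769 c11799 c4386 c4486 c4382 c11764 c1147 c4628 (k8 c4433 c798 c273 c4466 c1031 c4432 c764 c11030 (k8 c11351 c11783 c920 c1187 c4372 c11410 c4554 c881 (k8 c1018 c4374 c4373 c4371 c9753 c92 c63 c7718 (k8 c4488 c4446 c4450 c11801 c7490 c566 c4461 c266 (k8 c7304 c7517 c7516 c11802 c7514 c7513 c9009 c9813 (k8 c1796 c11393 c11025 c570 c7079 c7854 c4408 c4407 (k2 c7554 c7622 k0)))))))) (by decide +kernel)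
def c11804 : PP 8 4 T 0x2000000000000000001502000001400005001500000000000000020000200 := rS 0x6b409a4007b0b9163277 (k8 c1092 c4368 c4296 c4431 c1224 c1058 c825 c7000 (k2 c492 c2119 k0)) (by decide +kernel)
def c11805 : PP 8 4 T 0x1000000002000000080000440000502001000000004000508000000000000020000040 := rS 0x204327b07828128354a1688bd3bc64961b0b93cda1126834c2b1 (k8 c1147 c881 c4371 c4282 c4276 c9753 c4297 c4431 (k8 c4292 c4434 c4368 c1092 c1173 c4493 c4397 c4398 (k8 c4452 c11804 c4462 c10635 c702 c7490 c7000 c2108 k0))) (by decide +kernel)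
def c11806 : PP 8 4 T 0x400000002000000080000000000000001100000004000000000004000141000000004 := rS 0x152bda5b2d5cab144459f435b30d6a955c8f4eb056085230c54eaed4a5f53a84bb0c589448e0756a8c46b34bc557e4f49b95362f4c8703e3647884ac41 (k8 c4433 c11764 c798 c11769 c11799 c273 c4466 c1031 (k8 c4432 c764 c11030 c11351 c4297 c1511 c4386 c11783 (k8 c1187 c4372 c11410 c4554 c1018 c4374 c4435 c1147 (k8 c4486 c4628 c4329 c4330 c4382 c4385 c4825 c11805 (k8 c7718 c4488 c11803 c4450 c4308 c591 c327 c4548 (k8 c803 c7513 c9009 c9813 c4424 c1796 c11393 c4468 (k4 c1572 c2127 c8140 c4428 (k2 c5748 c7105 (k1 c7959 k0))))))))) (by decide +kernel)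
def c11807 : PP 8 4 T 0x10000000000000000000000000000000000000000001000000000080001420000200 := rS 0x1741c00 (k4 c1058 c232 c752 c4046 k0) (by decide +kernel)
def c11808 : PP 8 4 T 0x1000000000001000080000010100000000000000000000001000002000000000104040 := rS 0x64b1c26b78b924fe0d (k8 c4371 c7517 c4281 c4416 c1742 c1679 c331 c11399 (k1 c11768 k0)) (by decide +kernel)
def c11809 : PP 8 4 T 0x20000000002000000080000000000000000001000004000000000000080000001000800 := rS 0x10681383f4961b278362ab10883d7679 (k8 c4447 c4449 c305 c4276 c622 c4386 c4371 c4297 (k4 c4292 c4434 c11065 c4480 (k2 c1421 c588 (k1 c7463 k0)))) (by decide +kernel)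
def c11810 : PP 8 4 T 0x400000002000000080004000010001556000000005000001000000080000001100820 := rS 0x1566b34425091854a1ca2e5 (k8 c11030 c4435 c9141 c978 c4488 c11809 c4321 c10079 (k2 c563 c1884 (k1 c9825 k0))) (by decide +kernel)
def c11811 : PP 8 4 T 0x1400000002000000080000440001002000000100001100000000000000000001004000 := rS 0x415110abd2586c2e4f089341b19 (k8 c4368 c4371 c4282 c4276 c4297 c4431 c4292 c4434 (k4 c1174 c10079 c4493 c2108 (k1 c4452 k0))) (by decide +kernel)
def c11812 : PP 8 4 T 0x1400000002000000080000400100002002000004005001100000000000000001004000 := rS 0x2fbf5047884af14b45542057669539de330d (k8 c4328 c4368 c1092 c907 c825 c11071 c7000 c11811 (k8 c4398 c190 c979 c7667 c4482 c2016 c4306 c549 (k1 c4477 k0))) (by decide +kernel)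
def c11813 : PP 8 4 T 0x400000002000000080000000010001556000000005000001000004080000001100860 := rS 0xc21e905cb155cac4220f (k8 c305 c4276 c622 c1205 c4386 c11030 c4433 c11808 (k2 c11810 c9009 k0)) (by decide +kernel)
def c11814 : PP 8 4 T 0x400000002000000080000000000000000100000004000000000004000141000000004 := rS 0x30d5e3d45c1428ab44a98d0a584d1508c18c315529d2ea54aa0f58864f60405004130d4826536930e07d7f151b2cd2e9f5686c5e4f20b94b26d0888c8e2103984ac8f (k8 c11769 c11764 c881 c1018 c798 c4374 c4372 c4276 (k8 c9753 c63 c11030 c4433 c4297 c4432 c4292 c4554 (k8 c11776 c11783 c1187 c11799 c4386 c1511 c273 c4466 (k8 c11351 c764 c1031 c11806 c4328 c11807 c751 c4462 (k8 c4461 c702 c7490 c622 c305 c266 c7304 c4628 (k8 c11812 c978 c7718 c4488 c4450 c11809 c4397 c4321 (k8 c1402 c10079 c4490 c2040 c2013 c11813 c4308 c718 (k4 c327 c9756 c9009 c2127 k0)))))))) (by decide +kernel)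
def c11815 : PP 8 4 T 0x8000004000240000000004 := rS 0x28670e2cc081f318062221 (k8 c798 c4332 c2917 c814 c392 c4461 c1188 c4466 (k2 c655 c390 (k1 c7301 k0))) (by decide +kernel)
def c11816 : PP 8 4 T 0x410000002000000080000000000002000000000001001000000000000000020000200 := rS 0x7e420ba5f359a4007b0b9141a23 (k8 c4372 c4371 c4296 c4431 c1224 c1058 c825 c492 (k4 c488 c752 c4479 c4477 (k1 c5101 k0))) (by decide +kernel)
def c11817 : PP 8 4 T 0x2400000002000000080000000000000001000000004000008000000000002020000040 := rS 0x5e413f50a81349741e193d82812a73ba71329b2586c5e172096cda1126834c30d5493e3237 (k8 c4386 c5037 c4297 c1503 c4381 c881 c4371 c4282 (k8 c4276 c9753 c92 c4433 c4431 c4432 c4292 c4434 (k8 c764 c1031 c4488 c4703 c906 c11816 c4462 c702 (k8 c7490 c305 c5618 c825 c8106 c10079 c11065 c2108 (k2 c4477 c549 k0))))) (by decide +kernel)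
def c11818 : PP 8 4 T 0x1000000000000000020000000000000000001000000000000000108024 := rS 0x20a1331194b85f (k4 c1376 c265 c1737 c810 (k2 c530 c4407 (k1 c4464 k0))) (by decide +kernel)
def c11819 : PP 8 4 T 0x2000000080000000000000000001100000200000000000000002001004000 := rS 0x822e92c3617278449a0d (k8 c4371 c4282 c4276 c4297 c4431 c4292 c4434 c1335 (k2 c2108 c2001 k0)) (by decide +kernel)
def c11820 : PP 8 4 T 0x400000002000000080000000000000001100000004000000000004000040000000004 := rS 0x541c8540a812a78342e4331649955343d040ec081e00874e2bd5b8dd77141c9346a2103a3d46234f91d2ee5868905a56 (k8 c11764 c11815 c11814 c4381 c11030 c11783 c4374 c11776 (k8 c4372 c11410 c11769 c1018 c798 c4373 c4282 c4280 (k8 c4486 c4390 c4386 c4353 c4354 c4387 c11817 c750 (k8 c4466 c4461 c3062 c1065 c274 c9123 c266 c9125 (k8 c4471 c7626 c7514 c804 c805 c4418 c5931 c1963 (k4 c602 c11819 c384 c11818 k0)))))) (by decide +kernel)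
def c11821 : PP 8 4 T 0x410000002000000080000000000000000000000001001000000000000000000000002 := rS 0x1f9082e97cd26b1785c1a23 (k8 c4372 c4371 c4431 c4432 c492 c756 c488 c752 (k2 c4479 c4477 (k1 c5101 k0))) (by decide +kernel)
def c11822 : PP 8 4 T 0x400000002000000080000000000000000100000004000000000004000040000100004 := rS 0x13abf1b13d5a934f91d362f4c904aa9559a5dca0f2eac4085947c54f61b0c8281201868905a61368703e901c8840e56 (k8 c11764 c1018 c798 c4280 c11820 c1153 c4466 c9753 (k8 c881 c11815 c11814 c4381 c11821 c1058 c4462 c7490 (k8 c4292 c702 c4352 c11769 c63 c4461 c10032 c4628 (k8 c10635 c11030 c11783 c1187 c7304 c266 c4433 c1031 (k8 c4432 c764 c4374 c11776 c1158 c4554 c4297 c11791 (k2 c1511 c11812 (k1 c11813 k0))))))) (by decide +kernel)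
def c11823 : PP 8 4 T 0x1400000002000000080000000100002002000004005001100000000000000001004000 := rS 0xd2be (k2 c11812 c825 (k1 c11789 k0)) (by decide +kernel)
def c11824 : PP 8 4 T 0x400000002000000080000000000000000100000004000000000004000040000000004 := rS 0x156af3421182368c3153a7d61ad47a6564a2e0a140c9ecba0f05255620902005329b0e24c3f15482a61ab31225d3ead1686c5e4f20b94b26d088e48e2103984ac8f (k8 c11769 c11764 c881 c1018 c798 c4374 c4280 c4276 (k8 c9753 c63 c11030 c4433 c4297 c4432 c4292 c11815 (k8 c4554 c11776 c11783 c11814 c1187 c4381 c1503 c11820 (k8 c4352 c1153 c1158 c4466 c764 c1031 c11821 c4461 (k8 c1058 c10032 c7304 c4462 c10635 c4628 c702 c7490 (k8 c11822 c4308 c718 c630 c551 c327 c7513 c9009 (k8 c8975 c11823 c7718 c4488 c11798 c4450 c11809 c10079 (k2 c829 c1885 (k1 c2127 k0))))))))) (by decide +kernel)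
def c11825 : PP 8 4 T 0x1000080100000000054000000000000051501000000000000000140000 := rS 0xc5043e9fc1a47 (k4 c4374 c4371 c7517 c7516 (k2 c4464 c2118 (k1 c4407 k0))) (by decide +kernel)
def c11826 : PP 8 4 T 0x1400000002000000080000004400045041500000004050001000001440000000000620 := rS 0x181a0f28440afdfa703e2d0ea72828501ebb5297c4aa750975930c7296cda271c88cc2b121864ac13 (k8 c530 c11764 c7626 c2189 c1147 c881 c4372 c4280 (k8 c4278 c9753 c92 c11030 c4486 c7550 c4628 c4329 (k8 c4330 c4381 c4382 c4385 c4825 c265 c11825 c4308 (k8 c385 c590 c10460 c1618 c1619 c4379 c3489 c1421 (k4 c11781 c11643 c10110 c11770 (k1 c1878 k0)))))) (by decide +kernel)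
def c11827 : PP 8 4 T 0x14000000000000000000014000000000000000000000000000800040000000000000000 := rS 0x1834b (k2 c4456 c1982 (k1 c4494 k0)) (by decide +kernel)
def c11828 : PP 8 4 T 0x2000000000000000000000000050000000000001400000000000001140000 := rS 0x10e1b0bb44a2e5 (k4 c11030 c4435 c4298 c4431 (k2 c4292 c9141 (k1 c2109 k0))) (by decide +kernel)
def c11829 : PP 8 4 T 0x400000002000000080000000000000001100000004000000000000000040010000004 := rS 0x1060f3ed0d40953a9c993050a14e1a8544a2d8631549e0d07740a697d195a9c57abb8a04cca193390c16374bacc10043d878029d2586c2e4f2c96c224d068d4c28f1ec5caac522adc72ad17a8c469f16a4c763e109588ee5 (k8 c11030 c4374 c11764 c798 c11824 c144 c3067 c7177 (k8 c11776 c4372 c11410 c4432 c4554 c4280 c1161 c4296 (k8 c1248 c8954 c4356 c145 c11769 c881 c4373 c4371 (k8 c4282 c4276 c92 c63 c4297 c4431 c4292 c4434 (k8 c10547 c750 c4466 c1226 c4461 c1065 c3200 c1194 (k8 c273 c271 c2189 c655 c7626 c7044 c530 c11826 (k8 c4390 c4354 c4387 c4389 c5037 c11148 c9123 c1364 (k8 c1093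 c804 c805 c2785 c1966 c2058 c7804 c2040 (k8 c602 c5264 c11827 c11828 c4308 c630 c385 c590 (k4 c1617 c7050 c11164 c1625 (k2 c387 c8144 (k1 c2108 k0)))))))))))) (by decide +kernel)
def c11830 : PP 8 4 T 0x400000002000000000000000000000000000000000000008000008000140020000000 := rS 0x31994d26b45a250e00a505410af5599ce6961405ca26d2aab5ca2f (k8 c4432 c11030 c4554 c8954 c9753 c4435 c4431 c1180 (k8 c1179 c3082 c2743 c1572 c4631 c4604 c385 c4785 (k8 c1058 c9141 c7030 c4427 c492 c756 c491 c755 (k1 c2120 k0)))) (by decide +kernel)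
def c11831 : PP 8 4 T 0x400000002000000080000000000000000100000004000000000000000040000000004 := rS 0x1201e0e8b5263b1f0e44256 (k8 c11764 c798 c4280 c11824 c144 c3067 c7177 c11830 (k2 c4466 c11829 (k1 c1153 k0))) (by decide +kernel)
def c11832 : PP 8 4 T 0x420000002000000080000000000000000500000000000000000004000140080000000 := rS 0x126371e8edca56 (k4 c11764 c11030 c3062 c274 (k2 c273 c9125 (k1 c11793 k0))) (by decide +kernel)
def c11833 : PP 8 4 T 0x400000000000000000000000000000100000000801100000000000000000000000000 := rS 0xd709 (k2 c4438 c1920 (k1 c4479 k0)) (by decide +kernel)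
def c11834 : PP 8 4 T 0x1000000000001000000000001000040055500000008000000000005010000000100800 := rS 0x20a75392d97271 (k4 c94 c7514 c7468 c1077 (k2 c1745 c4408 (k1 c7079 k0))) (by decide +kernel)
def c11835 : PP 8 4 T 0x1000000000001000080000000000000005100000008000008000004040040020100104 := rS 0x31c523c5a9f52a55020280259139246a075188d3e4759a5c5aa112c311e5b (k8 c92 c1346 c4486 c4381 c4329 c11815 c11783 c1187 (k8 c4374 c11776 c4372 c11410 c1018 c4373 c4281 c4278 (k8 c63 c751 c4462 c4461 c266 c7304 c7516 c1347 (k4 c11834 c1680 c330 c2110 k0)))) (by decide +kernel)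
def c11836 : PP 8 4 T 0x1400000002000000080000000000000001100000000000000000004040040000100004 := rS 0x2bd568931b3594c4642f96cbd43a2d6ab93bc20863d4a994d26b0c814000b0412c2e4f229b4724d1aab45ea311a7c8e674ba85769372a64381f860b51e6e2d884ac41 (k8 c4433 c11764 c798 c92 c11831 c1346 c11815 c4486 (k8 c11832 c4466 c1031 c11030 c11351 c4825 c4329 c11783 (k8 c920 c4374 c11776 c4372 c11410 c4432 c4554 c4373 (k8 c4282 c4280 c9753 c4296 c4297 c4431 c4434 c11835 (k8 c84 c1058 c262 c7626 c492 c756 c491 c2710 (k8 c11782 c236 c4479 c11833 c7514 c7513 c4322 c4440 (k8 c1079 c7468 c2114 c1078 c1246 c1247 c1485 c1728 (k4 c637 c1674 c8140 c8142 k0)))))))) (by decide +kernel)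
def c11837 : PP 8 4 T 0x1400000002000000080000000000000001100000000000000000004000040000100004 := rS 0x14020e050d84b0c479b8b656 (k8 c11764 c92 c11831 c1346 c4486 c4381 c11836 c1344 (k4 c1343 c566 c264 c4461 k0)) (by decide +kernel)
def c11838 : PP 8 4 T 0x400000002000000080000000000000001100000000000000000004000040010100004 := rS 0x2705312812a5c5cc592655868f476040f0046a217e97d1e6e2da8c469f23a5c5ae5309596f14 (k8 c11837 c4353 c11764 c880 c11030 c11815 c11783 c4374 (k8 c11776 c4372 c11410 c92 c11831 c1346 c1377 c4378 (k8 c798 c4373 c750 c4466 c4461 c3062 c274 c11832 (k8 c266 c9125 c4471 c7514 c4477 c4418 c5931 c810 (k2 c4407 c1559 (k1 c4464 k0)))))) (by decide +kernel)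
def c11839 : PP 8 4 T 0x400000002000000080000000000000001100000000000000000004000040000100014 := rS 0x2e07aa1862541600368d51e6e2da8c469f23a5c5ae5309586eb75ac51261c (k8 c11838 c1030 c11837 c4389 c4353 c4386 c11764 c880 (k8 c11030 c11815 c11783 c4374 c11776 c4372 c11410 c92 (k8 c11831 c1346 c4373 c9753 c4461 c566 c2710 c11821 (k4 c4329 c11782 c2125 c7514 k0)))) (by decide +kernel)
def c11840 : PP 8 4 T 0x400000002000000080000000000000001100000000000000000004000040000100004 := rS 0x82188265c32c3540b91e865128705254aa090230cee9c49a65361f0e4656ab71bc502e4128964da351081dfa5f479b8b6ad17a8c469f2399d669716b94c256 (k8 c11764 c880 c11030 c11815 c11783 c1187 c920 c4374 (k8 c11776 c4372 c11410 c4432 c4554 c92 c11831 c1346 (k8 c1377 c4378 c1018 c798 c4373 c9753 c63 c4435 (k8 c4433 c4431 c11837 c4386 c4353 c4389 c5037 c11838 (k8 c56 c764 c1031 c1030 c4488 c4703 c9725 c11839 (k8 c262 c266 c7304 c4462 c9141 c7030 c7490 c11779 (k8 c7514 c2125 c4329 c1737 c4477 c530 c810 c4464 (k1 c4407 k0)))))))) (by decide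 +kernel)
def c11841 : PP 8 4 T 0x400000002000000080000000000000001100000000000000000004000040000000004 := rS 0x5cad52a9350adc7a7532b242861088d5fa5f479b8b6a311a7c8eb34b8b5ca56 (k8 c11764 c11030 c11815 c11783 c1187 c4374 c11776 c4372 (k8 c11410 c92 c11831 c1346 c1377 c4378 c4373 c4276 (k8 c880 c11840 c630 c551 c591 c327 c1078 c11483 (k4 c1070 c803 c1348 c7514 (k1 c2125 k0))))) (by decide +kernel)
def c11842 : PP 8 4 T 0x10000000002000000000004000004000010044000000000008000006001140001000610 := rS 0xc05722696533a0a58b1768ab5ca2f (k8 c4432 c11030 c4554 c4298 c4416 c1782 c7860 c235 (k4 c2150 c9591 c597 c9890 (k2 c4494 c1714 k0))) (by decide +kernel)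
def c11843 : PP 8 4 T 0x1002000000080000810014800000044040001050001000005040000000000202 := rS 0x731d41192c75ba819ccb5718d1217198e492350aad5ca47 (k8 c4374 c11030 c7513 c646 c4373 c4281 c4280 c4294 (k8 c4431 c7030 c755 c8142 c8140 c909 c908 c1247 (k4 c4103 c1792 c5930 c2113 (k2 c4408 c1061 k0)))) (by decide +kernel)
def c11844 : PP 8 4 T 0x400000002000000080000000000000000100000000000000000004000040000000004 := rS 0x16ec9638ee0a545a8f5563161a997d195ea1d16191baecee43840201669359952a9b001fc38052ea64c0b90fc5520674ba7d5a2d258bc2e4f20915ca5b368e4924d1a91c42072b2c5fa6e (k8 c11831 c4378 c123 c11764 c1018 c798 c4374 c4373 (k8 c4282 c4281 c4280 c9753 c92 c11030 c4296 c4433 (k8 c4297 c4431 c4432 c4434 c11815 c4554 c11776 c11783 (k8 c920 c11841 c4352 c3074 c1205 c1076 c3076 c809 (k8 c4102 c4466 c1459 c5402 c2887 c2886 c619 c492 (k8 c756 c566 c751 c4479 c8832 c11833 c4642 c1344 (k8 c7626 c4322 c4440 c1079 c5090 c2114 c1245 c3229 (k8 c2006 c2013 c11842 c7513 c11843 c4406 c1601 c251 (k2 c1726 c5279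 (k1 c8302 k0)))))))))) (by decide +kernel)
def c11845 : PP 8 4 T 0x400000002000000080000060000000000100000000110001000000040000080100020 := rS 0xcb5e149361b689b4ac39268d4268728a242ee5 (k8 c11030 c4431 c7030 c4435 c9141 c530 c4373 c4282 (k8 c4280 c11764 c9753 c4298 c4292 c804 c7856 c9123 (k2 c2022 c1208 k0))) (by decide +kernel)
def c11846 : PP 8 4 T 0x1400000002000000080000004000040044100000008010001000000000000080100020 := rS 0x4daf55083189a176a75c4309a351ba3cb6911c86410b53e91d2a638204dca56 (k8 c11764 c11030 c530 c4464 c4407 c802 c4374 c7516 (k8 c1347 c1065 c7626 c4280 c1153 c92 c1346 c273 (k8 c4373 c4282 c4486 c7468 c4330 c4825 c11845 c1878 (k4 c2000 c5264 c1080 c2785 (k1 c9123 k0))))) (by decide +kernel)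
def c11847 : PP 8 4 T 0x4400000002000000080010004010040044100000008000001000000000000080100020 := rS 0x5345b0cf09a8caf5771444a1c361768945ca39268d46e8f2d90c320809994b256 (k8 c11764 c63 c7044 c530 c1065 c7626 c2189 c92 (k8 c1346 c273 c4373 c4282 c4280 c11030 c4435 c4298 (k8 c4431 c4292 c9141 c7030 c11846 c4390 c4354 c5037 (k4 c9123 c805 c2058 c605 (k2 c11827 c2109 k0))))) (by decide +kernel)
def c11848 : PP 8 4 T 0x400000002000000080000000000000000100000000000000000000000040000000004 := rS 0xa618aa54b0c12a697c5d5d83d7a7e3eae16a95509d4e4c982850860b488dd2eb304184081e00a743a9f51ab45ab749b14aa3b8b8f91e5f38bf4dc21258bc9e4119915ca5b2b0444e392688c6a47 (k8 c4374 c4373 c4372 c4282 c4280 c4278 c4276 c11764 (k8 c92 c11030 c4296 c4294 c4433 c4297 c4432 c4434 (k8 c798 c11831 c4378 c94 c1377 c1346 c11844 c4356 (k8 c144 c8954 c1248 c3067 c1161 c7177 c4554 c11410 (k8 c11776 c11830 c10547 c750 c4466 c4461 c5402 c1065 (k8 c3200 c1194 c273 c1153 c271 c2189 c11847 c4308 (k8 c630 c385 c590 c11483 c1617 c1619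 c2125 c1356 (k8 c5280 c3086 c387 c3434 c1457 c2114 c9123 c11222 (k4 c9688 c1404 c2785 c1966 (k2 c4839 c4330 k0)))))))))) (by decide +kernel)
def c11849 : PP 8 4 T 0x1000000002000000080000000000000001100000000000008000000041151000000000 := rS 0x33d50a56329d425c3850d1c4f1989c72491aa8c469f23d2d5ae517b2c9b0d (k8 c11569 c4282 c11546 c4432 c11030 c4554 c9591 c4374 (k8 c11776 c4372 c11410 c4373 c4281 c4280 c4278 c4294 (k8 c4297 c4486 c4563 c801 c800 c2779 c2780 c7091 (k4 c3397 c6996 c1519 c7105 k0)))) (by decide +kernel)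
def c11850 : PP 8 4 T 0x400000002000000080000000000000041100000000000000000000040140010000000 := rS 0x15e944d23e28ab880c44a0a148813a2f19b44a2e50f808b256 (k8 c11764 c63 c11848 c223 c11030 c4435 c4298 c4294 (k8 c4432 c10547 c4466 c2776 c799 c313 c11577 c4468 (k4 c4415 c11849 c4388 c11599 (k2 c11605 c2786 (k1 c7488 k0))))) (by decide +kernel)
def c11851 : PP 8 4 T 0x1400000002000000080000000000000001100000004000000000004040140000000000 := rS 0xab578a222cf66d1583434eb1579185b0617e6a429ed86b55c8c21283409a47abb2f8941efc509761845289b46a0558a8c469f23a4c3e592b26c5e994aa3c120105884ee413c85ce2060e25dca02 (k8 c11848 c11030 c11783 c11850 c791 c497 c4431 c500 (k8 c4433 c1023 c85 c302 c28 c1058 c2763 c2764 (k8 c1031 c4432 c764 c11764 c63 c223 c11351 c4374 (k8 c11776 c4372 c11410 c1147 c55 c4373 c9753 c4435 (k8 c4296 c4486 c4628 c4551 c5772 c10635 c4381 c4382 (k8 c4825 c11782 c5130 c4380 c4306 c5101 c11564 c7514 (k8 c7513 c9009 c1227 c10110 c4479 c7782 c228 c7468 (k8 c4482 c2122 c7546 c5530 c4424 c1749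 c8243 c2068 (k4 c1796 c10610 c4468 c5748 (k2 c1572 c7285 k0)))))))))) (by decide +kernel)
def c11852 : PP 8 4 T 0x10400000002000000000004041000400050000000000000000011402040144500000410 := rS 0x2968aab6533d9a538831c52c58b92c9ed128a8d3ee5 (k8 c11030 c11776 c11410 c4435 c4298 c4297 c4434 c4416 (k8 c1782 c7860 c330 c11368 c333 c10743 c4541 c2116 (k4 c4415 c4455 c1940 c11448 k0))) (by decide +kernel)
def c11853 : PP 8 4 T 0x400000000012010000002000000080000010500420010000000114000009000000000100000000088 := rS 0x22cf6698b214c4252e17d90733fa250e651793c6651728340a010a9dc82790badd6aa93e9844ecf (k8 c1795 c4278 c878 c1625 c7768 c4389 c4353 c4431 (k8 c500 c4433 c1023 c382 c28 c55 c4371 c11030 (k8 c4435 c4294 c4297 c4432 c9676 c9141 c7030 c7517 (k8 c1022 c2121 c546 c7308 c225 c810 c1497 c7153 (k4 c7643 c1227 c1769 c9154 k0))))) (by decide +kernel)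
def c11854 : PP 8 4 T 0x400000000012400000002000000084400010101400000000000014100108000000000150020000008 := rS 0x20d7e5ea58c6108142864f61b369844ead729dcf2060baed7a9c4d8bd3241 (k8 c4433 c1031 c4432 c764 c4488 c4354 c4390 c4431 (k8 c791 c500 c1023 c11030 c4554 c4278 c878 c9753 (k8 c4292 c1227 c4654 c10079 c8106 c4482 c228 c9591 (k4 c9457 c9033 c549 c2122 k0)))) (by decide +kernel)
def c11855 : PP 8 4 T 0x12410000002000000080000010000000041100000114000000000000000140020000000 := rS 0xd7093432d565d883251629299519ea95050da26d2480562a311a7c8e930f965cab32b2551e06012dd4e9c4d8bd3241 (k8 c4433 c1031 c4432 c764 c4488 c906 c4353 c11848 (k8 c791 c2763 c2764 c11764 c1187 c11030 c63 c223 (k8 c11351 c4374 c11776 c4372 c11410 c1147 c28 c4281 (k8 c9753 c4298 c11164 c5931 c7768 c1795 c11853 c9029 (k8 c1599 c1766 c1726 c4468 c811 c4415 c5517 c11854 (k2 c4437 c69 (k1 c8926 k0))))))) (by decide +kernel)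
def c11856 : PP 8 4 T 0x400000002000000080000000000000001100000004000000000004040140000000000 := rS 0xa0861d5723d53b0d39195aadd77143882c0c8f4aa6536210e1044e49268d40aad17a8c469f23a5d261f01164ace5 (k8 c11030 c11764 c63 c11848 c223 c11351 c11783 c4374 (k8 c11776 c4372 c11410 c4432 c4554 c55 c4373 c4282 (k8 c4281 c4278 c4433 c11850 c85 c764 c1031 c2764 (k8 c2763 c791 c302 c497 c11851 c4390 c4353 c4389 (k8 c5037 c4488 c9725 c906 c11852 c7514 c499 c11855 (k2 c2125 c4329 k0)))))) (by decide +kernel)
def c11857 : PP 8 4 T 0x1000000002000000080000000000000001100000000000008000000000140200000008 := rS 0xcfa1aa18ca52fa9d425c38239974b868646225050a4964f199644e4926ab45ea311a7c8ee5 (k8 c11030 c4374 c11776 c4372 c11410 c4432 c4554 c4282 (k8 c4281 c4278 c63 c4294 c4297 c4434 c2776 c799 (k8 c313 c11577 c7490 c11569 c9591 c11546 c4486 c801 (k8 c800 c2779 c2780 c1426 c3397 c8916 c4639 c4391 (k2 c1519 c7105 k0))))) (by decide +kernel)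
def c11858 : PP 8 4 T 0x100000400054054000010010041510000002000000000000400 := rS 0x7f31994e717 (k4 c4416 c1615 c7044 c7153 (k2 c10049 c2118 k0)) (by decide +kernel)
def c11859 : PP 8 4 T 0x400000002000000080000000000000001100000004000000000004000140000000000 := rS 0x2ad5e2867d0e22b661ad5723d60b153abc42c60f67d41a0592695da94be2553bf0e2793b97618a10323d2a994d87016215fc546cb349a5d3ea3338bc2e4f20945ca6d0688c6a470287cb2610109d6256 (k8 c11764 c1147 c4278 c11848 c878 c63 c223 c55 (k8 c4374 c4373 c4372 c4371 c9753 c11030 c4435 c4433 (k8 c4297 c4431 c4432 c918 c11410 c11776 c11783 c11351 (k8 c1187 c11856 c4386 c1511 c11857 c302 c4466 c764 (k8 c1031 c2764 c2763 c791 c4551 c4486 c4628 c1023 (k8 c500 c496 c5772 c4330 c4381 c4382 c4385 c4825 (k8 c5130 c4305 c4380 c4306 c4379 c1227 c10637 c10110 (k8 c2122 c4368 c4370 c4450 c11858 c7514 c7513 c9009 (k8 c9813 c7666 c4424 c1796 c4468 c5748 c1572 c7285 k0))))))))) (by decide +kernel)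
def c11860 : PP 8 4 T 0x500000000000000008000000050004000000000000000000000000000000000000000 := rS 0x1574b (k2 c4430 c1676 (k1 c4491 k0)) (by decide +kernel)
def c11861 : PP 8 4 T 0x800000000000000000002000000085000000000000000000000000000000400000000000000000000 := rS 0xc76592c9ed1289249a47 (k8 c4374 c4282 c4281 c4435 c4298 c4297 c4434 c4425 (k2 c4391 c2116 k0)) (by decide +kernel)
def c11862 : PP 8 4 T 0x400000002000000080105000002045040000010004200208000000001200000000000 := rS 0xaa43a4e0873a1b3ca67f56c452afd66abc66c58c264b29b (k8 c2785 c63 c1881 c4488 c4370 c4294 c982 c1484 (k8 c4377 c2781 c4332 c948 c1457 c11686 c11860 c11861 (k4 c4956 c4483 c1069 c4410 (k2 c2127 c1884 k0)))) (by decide +kernel)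
def c11863 : PP 8 4 T 0x2000000000000000008000000000000000200001000000000000000000010 := rS 0x1432218a2e5 (k4 c11030 c4435 c1884 c1885 (k2 c9141 c550 k0)) (by decide +kernel)
def c11864 : PP 8 4 T 0x2000000080100000022000000000000000000201000000000000000044008 := rS 0x31cfe156718c9ee5 (k8 c11030 c4297 c2809 c949 c383 c1458 c1519 c11768 k0) (by decide +kernel)
def c11865 : PP 8 4 T 0x1400000002000000080004001000001041800000004000008000000040201200000008 := rS 0x63392495aaba1a898b184c9a182845e10d02bb4daa17ea57eb253ea72e1c0964f20914b26d138e49a3502abc66312a99c320f051d4b6134ac44fab1 (k8 c1147 c8975 c4332 c2781 c7061 c92 c11025 c799 (k8 c305 c7490 c2926 c247 c11577 c4294 c982 c55 (k8 c4373 c4282 c4280 c4278 c9753 c63 c4296 c4433 (k8 c4297 c4434 c801 c800 c2780 c1427 c586 c4377 (k8 c3397 c3488 c7470 c2785 c1444 c1362 c4567 c2114 (k8 c11781 c2021 c1498 c1881 c4488 c4370 c11862 c4393 (k4 c11863 c11864 c2127 c1069 (k2 c1609 c6849 k0)))))))) (by decide +kernel)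
def c11866 : PP 8 4 T 0x1400000002000000080000000000000001500000004000000000000000000010000008 := rS 0x5f90cf08134aed4a5f53976184b1793c665b368444e2302ac53a25188641e0a1007cb256 (k8 c11764 c63 c223 c4466 c799 c305 c7490 c11577 (k8 c313 c10547 c1147 c55 c4372 c4278 c4276 c9753 (k8 c92 c4294 c4297 c4432 c4434 c4486 c4628 c4330 (k8 c4382 c4385 c4825 c5130 c9279 c11770 c10552 c11772 (k1 c11643 k0))))) (by decide +kernel)
def c11867 : PP 8 4 T 0x1400000002000000080000000000001041800000004000008000004040201200000008 := rS 0x2d5863d7291e22954c9a108434dbf5026d5daa14a70538d46627278c562190516cb859 (k8 c63 c800 c92 c799 c7490 c1147 c11577 c4297 (k8 c4278 c4294 c4373 c2780 c801 c3397 c7470 c1444 (k8 c9753 c1362 c4377 c2785 c4567 c11781 c1498 c1881 (k8 c2781 c4332 c4374 c11030 c329 c4958 c7513 c11865 k0)))) (by decide +kernel)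
def c11868 : PP 8 4 T 0x1400000002000000080000000000000001100000004000000000004040200010000008 := rS 0xa8f0c6965ca381e5512828ce2003a75ca1f2cac52a56 (k8 c11764 c2781 c1147 c63 c223 c11030 c10547 c1017 (k8 c4466 c2926 c799 c313 c247 c305 c11866 c1476 (k4 c11867 c2801 c927 c383 (k1 c11808 k0)))) (by decide +kernel)
def c11869 : PP 8 4 T 0x1400000002000000080000000000000001100000004000000000004040040000000000 := rS 0x2dce7175aae566757e1c416961d18c0c210e0d404b12b0a6222c (k8 c11859 c4332 c142 c11764 c1147 c11848 c4373 c11868 (k8 c85 c791 c2798 c913 c912 c302 c497 c5772 (k8 c7271 c1188 c1045 c1579 c4360 c3001 c1165 c8860 k0))) (by decide +kernel)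
def c11870 : PP 8 4 T 0x1400000002000000080000000102001440800000004200008000004000200200000008 := rS 0x18ce543492895a7d64ad586133a8f5ca5b23c455e334a8c41e0a4f9c0b8ab2a99c0ac560c613259 (k8 c63 c1881 c4488 c4450 c4370 c55 c2926 c247 (k8 c11863 c800 c801 c3396 c799 c305 c11577 c2781 (k8 c4294 c982 c4332 c4374 c92 c11030 c329 c11025 (k8 c7061 c4958 c7513 c586 c8975 c11864 c11862 c2127 (k4 c4393 c1069 c1609 c6849 k0))))) (by decide +kernel)
def c11871 : PP 8 4 T 0x1400000002000000080000000000000001100000004000000000004080200010000008 := rS 0x151e18d2c684220cf24340aed36a85283c32555ca9cb870188941467470800e9d2586c5e1719b94b66d0889c9a0d1187cb2b14a9597e4f (k8 c4297 c1511 c11764 c2781 c1147 c63 c223 c4372 (k8 c4371 c4282 c4278 c4276 c9753 c92 c11030 c4294 (k8 c4431 c4432 c4292 c4434 c10547 c1017 c4466 c11866 (k8 c2926 c799 c313 c11577 c801 c800 c2780 c1476 (k8 c247 c7490 c305 c3397 c4839 c11688 c11766 c1362 (k8 c4567 c11643 c588 c2108 c1498 c11870 c2801 c927 (k2 c383 c11808 k0))))))) (by decide +kernel)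
def c11872 : PP 8 4 T 0x1400000002000000080000000000000001100000004000000000004000040000000000 := rS 0x16e738bad572b33abf0e20b4b0e8c606108706c0d1a91c04b12b0a6222c (k8 c11859 c4332 c142 c11764 c1147 c11848 c4374 c4373 (k8 c4371 c11869 c11871 c85 c791 c2798 c913 c912 (k8 c302 c496 c5772 c7271 c1188 c1045 c1578 c4360 (k2 c3001 c1165 (k1 c8860 k0))))) (by decide +kernel)
def c11873 : PP 8 4 T 0x2110000000001000000000000500050051100000104001410000001000000000000808 := rS 0x13e93310520ac947add6ab9 (k8 c6781 c4389 c4353 c4388 c7497 c9531 c7079 c383 (k2 c1609 c1611 (k1 c2125 k0))) (by decide +kernel)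
def c11874 : PP 8 4 T 0x12010000002000000000000000000810041100004404201408010000000200201000008 := rS 0x29a242aca31a8916133a8f566e52c96d63114a828aa67 (k8 c2926 c247 c799 c2781 c4332 c1147 c92 c63 (k8 c11030 c1187 c329 c11025 c7061 c4632 c11873 c2806 (k4 c941 c383 c2041 c2022 (k1 c11828 k0)))) (by decide +kernel)
def c11875 : PP 8 4 T 0x2400000002000000080000000000000001100000004000000000000000200010000008 := rS 0x22d66c0628f0c6962fa9a1a82429ad4a77549e0d09a0c95462250519cf6204e92c362f0b93c66d128b94b611268343e592b1854227479c63237 (k8 c4386 c5037 c4387 c4388 c4278 c894 c878 c11764 (k8 c63 c223 c4371 c4282 c4276 c92 c11030 c4435 (k8 c4298 c4294 c4297 c4431 c4432 c4292 c4434 c10547 (k8 c4466 c1226 c2926 c799 c313 c11577 c247 c7490 (k8 c11599 c804 c805 c2785 c1889 c1971 c1969 c602 (k8 c4682 c5264 c4839 c548 c11874 c2801 c927 c1252 (k4 c933 c1188 c7804 c7824 k0))))))) (by decide +kernel)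
def c11876 : PP 8 4 T 0x12400000000000000080205010540002000014011544100408000000000000024000000 := rS 0xcf41b11028b42864f66d5dadce343 (k8 c4422 c4387 c4353 c4390 c9753 c1227 c4654 c10110 (k4 c11588 c8106 c2123 c11339 (k2 c1792 c9063 k0))) (by decide +kernel)
def c11877 : PP 8 4 T 0x14000000000000000000204004000000000002000100000000000000000000000000000 := rS 0x31514ca (k4 c717 c716 c1756 c8095 k0) (by decide +kernel)
def c11878 : PP 8 4 T 0x400000002000000080000000000000001100000004000000000004000040000000000 := rS 0x214d0252fa7d9089439f54e738bae582c30aaccaa753c9dd380b4b0e8c6670326536210e4656ab71bc5142af888a458b10d8bc2e4f208cca2e52d9b4ac35029840427 (k8 c4278 c11848 c878 c55 c4373 c11764 c9753 c92 (k8 c11030 c4435 c4294 c4433 c4297 c4431 c4432 c4292 (k8 c1147 c11859 c142 c4332 c982 c894 c11872 c4386 (k8 c4353 c4389 c5037 c11875 c85 c764 c1031 c791 (k8 c2924 c2798 c913 c912 c302 c4488 c4703 c500 (k8 c7271 c247 c1188 c383 c1047 c1580 c1045 c4360 (k8 c3001 c906 c7640 c7043 c7030 c4073 c1665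 c547 (k4 c395 c11876 c11877 c7643 k0)))))))) (by decide +kernel)
def c11879 : PP 8 4 T 0x1000000000000000000000000000000000000000004000010000000000002000000108 := rS 0x2c41c5e (k4 c225 c224 c544 c10635 k0) (by decide +kernel)
def c11880 : PP 8 4 T 0x1000080000002000000010000000000000000000004040141000000410 := rS 0x281e31d42495188d3e47 (k8 c4374 c11776 c4372 c11410 c4281 c1706 c1431 c7513 (k2 c8916 c7860 k0)) (by decide +kernel)
def c11881 : PP 8 4 T 0x1000000000000000080000011000044000000000000000000000002040141000000410 := rS 0x28284c75b8a62e49 (k8 c4281 c4416 c7860 c1742 c330 c4492 c8916 c4423 k0) (by decide +kernel)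
def c11882 : PP 8 4 T 0x400000002000000080004000010005556100000000000200000000040000000000000 := rS 0xab57a9a8aa55e30486bb62aa6310d (k8 c4328 c4488 c978 c7718 c4449 c4446 c4450 c5090 (k4 c11787 c4454 c4490 c2797 (k2 c2013 c2127 k0))) (by decide +kernel)
def c11883 : PP 8 4 T 0x400000002000000080000000001002000000000004000608000000000001020000008 := rS 0x29102193d9a50a4b1793c66272688c0a770310632a7 (k8 c2796 c4368 c4433 c791 c1023 c55 c4372 c4282 (k8 c4278 c4294 c4297 c4432 c4434 c1497 c7643 c1227 (k4 c4654 c7000 c4639 c1341 k0))) (by decide +kernel)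
def c11884 : PP 8 4 T 0x1000000000001400001002000000000005640400400000044004114000001001400000140400000088 := rS 0x3141050c963ad99cc4449cc9e333b904f2170aa8d3ee5 (k8 c11030 c11776 c11410 c382 c4431 c500 c4433 c1023 (k8 c4294 c4297 c1022 c7030 c2123 c8360 c1175 c1519 (k4 c1792 c4579 c8560 c794 (k1 c4407 k0)))) (by decide +kernel)
def c11885 : PP 8 4 T 0x400000002000000080004001200000042100000004000000000000040140000000000 := rS 0xc7648a4a88745b04f6bb5e1a68aa853c65385f3fafcb8fd249851e9b4ca552677209c41aad17accea3d5ca7c8ea311b944a090082e2a050307042270f964ac02 (k8 c11848 c11764 c63 c223 c4278 c886 c4466 c791 (k8 c55 c4352 c302 c28 c1058 c11879 c11030 c4372 (k8 c11410 c4374 c11776 c1205 c11881 c499 c1187 c4432 (k8 c4554 c4371 c496 c4433 c1023 c1030 c2764 c1031 (k8 c764 c130 c878 c4281 c4304 c1148 c3258 c674 (k8 c544 c11882 c4368 c2796 c11883 c4398 c2816 c979 (k8 c1443 c1227 c2021 c4632 c10171 c11884 c1599 c1726 (k2 c251 c8998 k0)))))))) (by decide +kernel)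
def c11886 : PP 8 4 T 0x400002002000000080004001110005556100001414000000000000040000000000000 := rS 0x1163fadce6626721e96cb44ab8d06b558c54ccd52d1578c121aed8aa98c1ec5e33369361ab32b2050709 (k8 c5101 c4306 c4380 c11764 c1187 c4328 c4282 c9753 (k8 c4294 c4432 c1226 c4488 c978 c7718 c11057 c4446 (k8 c4450 c5090 c8243 c11787 c2068 c4490 c2006 c2013 (k8 c2008 c8051 c2127 c2040 c8140 c4428 c1633 c909 (k4 c828 c7619 c7551 c4098 (k2 c7153 c7787 k0)))))) (by decide +kernel)
def c11887 : PP 8 4 T 0x8000002000001000000000005400000000000000000000001000000000000000101080 := rS 0x1fce671 (k4 c496 c1022 c7517 c7787 k0) (by decide +kernel)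
def c11888 : PP 8 4 T 0x1000002000000000000000000000000000000001400002000000000140000000008 := rS 0x445162929b45ca01 (k8 c28 c11030 c4298 c9029 c1599 c1766 c8926 c4468 k0) (by decide +kernel)
def c11889 : PP 8 4 T 0x400000002000000080000000000000000100000004000000000004040140000000000 := rS 0xa74b57b2988cf5b1fd0e732aaad7ca652aa512bd340c4f46b8ca7212813ebf16275618f56a4f19944da4d0282d36994aa4cee413c85ce20606894121c1089c3e018a9655a2f0a80946234f91d66565ca5dca90 (k8 c11878 c11030 c11783 c1205 c11764 c1187 c4374 c11776 (k8 c4372 c11410 c11848 c382 c4432 c4554 c63 c4352 (k8 c28 c223 c4278 c886 c4466 c1058 c11879 c4371 (k8 c791 c496 c4431 c500 c4433 c1023 c1030 c2764 (k8 c1031 c764 c302 c55 c4282 c9753 c4435 c4294 (k8 c4297 c11880 c11881 c9009 c499 c11885 c5772 c8975 (k8 c4380 c5101 c11886 c4368 c5310 c4482 c229 c4479 (k8 c3182 c682 c2816 c1882 c4839 c907 c2013 c11888 (k8 c1022 c9141 c7517 c4088 c1797 c1246 c1247 c909 (k2 c4429 c2022 (k1 c7521 k0))))))))))) (by decide +kernel)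
def c11890 : PP 8 4 T 0x1000080000002000000010000000000000000000004000141000000410 := rS 0x281e31d42495188d3e47 (k8 c4374 c11776 c4372 c11410 c4281 c1706 c1432 c7513 (k2 c8916 c7860 k0)) (by decide +kernel)
def c11891 : PP 8 4 T 0x1000000000000000080000011000044000000000000000000000002000141000000410 := rS 0x28284c75b8a62e49 (k8 c4281 c4416 c7860 c1742 c331 c4492 c8916 c4423 k0) (by decide +kernel)
def c11892 : PP 8 4 T 0x400000002000000000015000400000000000004141100001000000000100000000088 := rS 0x1ae128a44a1cca51728140277209e42e15 (k8 c382 c4431 c500 c4433 c1023 c28 c55 c11030 (k8 c4435 c9676 c9141 c7030 c2123 c4322 c564 c4479 k0)) (by decide +kernel)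
def c11893 : PP 8 4 T 0x2000000000011000000000000000000040000002000045000000000100000 := rS 0x8284c8ad128b0c82e5 (k8 c11030 c4433 c9009 c4435 c4298 c4296 c34 c4406 (k1 c9770 k0)) (by decide +kernel)
def c11894 : PP 8 4 T 0x400000002000000080000000410001554001004041000600000005000101000000088 := rS 0x572995668329545e4f19814021561905ca756290d8318 (k8 c4488 c4450 c4446 c7718 c499 c11030 c4433 c9009 (k8 c382 c28 c55 c4294 c4297 c4432 c11893 c9676 (k4 c11892 c1885 c7643 c2127 (k1 c2797 k0)))) (by decide +kernel)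
def c11895 : PP 8 4 T 0x1000000000000000000000044000000040084000400001400000144400000188 := rS 0x2963b24265482804c215 (k8 c382 c878 c28 c4408 c1022 c1561 c1731 c7228 (k2 c1599 c8998 k0)) (by decide +kernel)
def c11896 : PP 8 4 T 0x400000002000000080000000210001554000000040000008000005000101000000088 := rS 0x214f66d59970be59 (k8 c63 c544 c1148 c1187 c9753 c1226 c714 c11894 k0) (by decide +kernel)
def c11897 : PP 8 4 T 0x400000002000000080000400200000002000000004000008000004000140000000008 := rS 0x18ec9149510e8b609ed76bc34d1550a78ca70e65f3f971fa4930a3d3699499dce20d568bd66c3209d47ab54aae52e9f23a8c46e512824020b8a8140c1c1089c3e59 (k8 c63 c223 c4278 c886 c4466 c791 c55 c4352 (k8 c302 c28 c1058 c11879 c11030 c4372 c11410 c4374 (k8 c11776 c11783 c1205 c2764 c11890 c11891 c499 c4433 (k8 c9009 c1187 c4432 c4554 c4371 c496 c1023 c1030 (k8 c1031 c764 c130 c878 c4281 c4304 c1148 c674 (k8 c544 c11895 c11896 c4368 c2796 c11883 c4398 c2816 (k8 c979 c1443 c1227 c2021 c4632 c10171 c11884 c1599 (k2 c1726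 c251 (k1 c8998 k0))))))))) (by decide +kernel)
def c11898 : PP 8 4 T 0x1400000002000000080004011511001554000004105000001000000000101000000088 := rS 0x5333d5ca518ad956683fa1ce62f278cca2e5139340a7106854fa817e3158318 (k8 c4488 c4450 c7718 c5772 c4380 c8975 c382 c4371 (k8 c496 c55 c4282 c4278 c11030 c4435 c4294 c4297 (k8 c4432 c1022 c9141 c7517 c11892 c1884 c4088 c1879 (k4 c1882 c2127 c1796 c4839 (k1 c909 k0))))) (by decide +kernel)
def c11899 : PP 8 4 T 0x400000002000000080004401100001042100000004000000000000000140000000000 := rS 0xbd42a9e206a1495182bb54c60f66d47a6d3295499dc82790b9c41aad17accea3d5ca7c8ea311b944a090082c0a8141c25f9150307042270f964ac02 (k8 c11848 c11764 c63 c223 c4278 c886 c4466 c791 (k8 c4352 c5772 c5101 c4306 c4380 c55 c302 c28 (k8 c1058 c11879 c11030 c4372 c11410 c4374 c11776 c1205 (k8 c11891 c499 c1187 c4432 c4554 c4371 c496 c4431 (k8 c500 c4433 c1023 c1030 c2764 c1031 c764 c130 (k8 c9753 c1226 c4488 c978 c11057 c4450 c11898 c1599 (k4 c11888 c4468 c2008 c563 (k2 c7666 c2122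 k0)))))))) (by decide +kernel)
def c11900 : PP 8 4 T 0x400000002000000080000000000000000100000004000000000004000140000000000 := rS 0x2955268189ad4f194e42502fc58b0c7ab55f8d972974fa8c5e4f208cdca6d1191c0a0b4a9e40c171282438211387c031548008b256 (k8 c11764 c63 c11848 c11878 c4352 c28 c223 c4278 (k8 c886 c4466 c1058 c11879 c4431 c791 c500 c2764 (k8 c302 c55 c4374 c4372 c9753 c11030 c4294 c4433 (k8 c4297 c4432 c11410 c11776 c11783 c1205 c11889 c1511 (k8 c11890 c11891 c9009 c11897 c5772 c4380 c5101 c11899 (k8 c4368 c907 c5310 c229 c4479 c2816 c1882 c6996 k0)))))) (by decide +kernel)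
def c11901 : PP 8 4 T 0x510000002000000080005000640011404014001540001008000000000001000000010 := rS 0xc851a094c6865a290ac53d8bc9e3336970be59 (k8 c63 c544 c1148 c9753 c4294 c4297 c4432 c1226 (k8 c7718 c714 c2123 c1753 c11588 c7643 c813 c941 (k2 c644 c7497 k0))) (by decide +kernel)
def c11902 : PP 8 4 T 0x400000000000000000005000442000082014001540000008000000000000000000000 := rS 0x18a8b3daf0d26d (k4 c9753 c2816 c979 c1227 (k2 c11588 c3187 (k1 c2123 k0))) (by decide +kernel)
def c11903 : PP 8 4 T 0x510000002000000080005000641010004014000144000008000000000001020000008 := rS 0x1385f2e1640a6113a6c5e77209e40c17 (k8 c4431 c791 c500 c4433 c1023 c4432 c764 c4278 (k4 c878 c55 c63 c1148 (k2 c544 c11901 (k1 c11883 k0)))) (by decide +kernel)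
def c11904 : PP 8 4 T 0x2000000080100000001080000080000001000000000000000201000000000 := rS 0x53a9462cb558bc9e33 (k8 c4294 c4297 c4432 c1673 c1752 c397 c1470 c941 (k1 c6996 k0)) (by decide +kernel)
def c11905 : PP 8 4 T 0x400000002000000080000000000000000100000004000000000004000040000000000 := rS 0xa4340c54e6b4e465165f512fe12c95b3f162a9821f4fe89439ce2ec10ab0d6ab35c9d4aa961d18c7aa157c44522c129c4f27704a4cce064ca6c380b10c561a901785c9e4119945ca6d138348e010f808b256 (k8 c11764 c63 c11848 c223 c28 c4374 c4371 c4278 (k8 c9753 c11030 c4435 c4294 c4433 c4297 c4431 c4432 (k8 c11878 c4328 c4352 c886 c302 c4466 c764 c1031 (k8 c791 c2924 c1030 c1058 c1023 c500 c496 c11879 (k8 c11900 c142 c4332 c982 c894 c328 c2798 c913 (k8 c912 c247 c7271 c1206 c7628 c7513 c9009 c383 (k8 c1580 c4360 c3001 c9141 c7030 c7517 c7516 c4481 (k8 c11902 c11903 c5772 c4088 c4305 c5101 c3263 c1166 (k8 c1465 c11904 c9062 c4488 c5310 c907 c229 c4479 (k2 c6996 c1883 k0)))))))))) (by decide +kernel)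
def c11906 : PP 8 4 T 0x400000002000000080000000000000000100000000000000000004000140000000000 := rS 0x1b4512ee5489844e200e81cdc350f808b256 (k8 c11764 c63 c11848 c223 c4373 c11905 c1019 c791 (k8 c4466 c4278 c878 c1076 c11030 c11783 c11857 c11850 (k1 c4386 k0))) (by decide +kernel)
def c11907 : PP 8 4 T 0x1000000000001000080000011000040055500000008000000000005000000000000800 := rS 0xc80a2d82235 (k4 c4373 c4276 c7468 c11834 (k2 c1078 c630 k0)) (by decide +kernel)
def c11908 : PP 8 4 T 0x1000000000000000000008000000100000008000001000000000000810 := rS 0xac14c872 (k4 c1069 c1070 c4408 c550 (k1 c7079 k0)) (by decide +kernel)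
def c11909 : PP 8 4 T 0x1400000002000000080000000000000040100000008000000000004000200000000008 := rS 0x13276561cca50444a1c2a6360a8a2cc549b0c26b53aae47ab30b905ca05589ec320a88a54aa673c90d4a2353894bebb459a50abf4da75510c489844e8f2d8c4401d038d43e59578ccda56 (k8 c11764 c9753 c4294 c982 c63 c223 c4373 c1019 (k8 c791 c4466 c11577 c92 c1346 c4278 c878 c1076 (k8 c4486 c5264 c10547 c2785 c5760 c1499 c827 c11588 (k8 c4825 c1377 c225 c4330 c4372 c4385 c4567 c11643 (k8 c2926 c247 c2781 c4332 c799 c7490 c1226 c123 (k8 c55 c11030 c4433 c4431 c1187 c329 c6781 c11025 (k8 c7420 c7061 c9009 c11908 c7718 c4487 c11907 c4420 (k8 c7471 c383 c10041 c7030 c7079 c11828 c4408 c11686 (k2 c2123 c2050 (k1 c11833 k0)))))))))) (by decide +kernel)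
def c11910 : PP 8 4 T 0x1400000002000000080000000000000000100000008000000000004000200000000008 := rS 0x224a6130aacc783b3998e2e96459a4f28521afd36a85da954f0c3688d1e5b489844e252fa746219052bc6655338803a071a87cb256 (k8 c11764 c63 c223 c4373 c1019 c791 c4466 c2926 (k8 c247 c4294 c982 c799 c7490 c11577 c10547 c1377 (k8 c225 c4278 c878 c1076 c92 c1346 c4372 c9753 (k8 c4486 c4330 c4385 c4825 c5264 c2785 c5760 c4567 (k8 c1499 c11643 c827 c11588 c11909 c4360 c2801 c1084 (k8 c1043 c927 c1188 c383 c571 c332 c7172 c11828 k0)))))) (by decide +kernel)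
def c11911 : PP 8 4 T 0x110000000001000080000005000050055500040000000401000000000000000044008 := rS 0x1431b1d3cc93089c4ab9 (k8 c6781 c225 c4278 c878 c7497 c2125 c1391 c1611 (k2 c11768 c383 k0)) (by decide +kernel)
def c11912 : PP 8 4 T 0x10000002000000080000005000800040100002008200008000000000200000004008 := rS 0x14d12156518d4493459fc26755c8f5ca4d0297d1e5b48984320a88a5542272a99c401d038d43e59 (k8 c63 c223 c4373 c1019 c791 c4466 c2926 c247 (k8 c4278 c894 c2781 c4332 c799 c7490 c878 c1076 (k8 c92 c1346 c1377 c55 c4282 c11030 c329 c6781 (k8 c11025 c7061 c1459 c604 c11908 c11911 c2806 c941 (k4 c383 c2041 c2022 c11828 k0))))) (by decide +kernel)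
def c11913 : PP 8 4 T 0x400000002000000080000000000000000100000000000000000004000040000000000 := rS 0x1141359b00783b31a594d0d52aa4f06807a696ab71bc50aa2c0c8c41467102743a2503a3cbe6e0d8bc2e4f19b44a2e52d89c9a350f808b256 (k8 c11764 c63 c11848 c223 c4373 c4282 c4278 c92 (k8 c11030 c4435 c4298 c4294 c4297 c4431 c4432 c4292 (k8 c11905 c1377 c1346 c1019 c225 c791 c10547 c4466 (k8 c2926 c799 c11577 c7490 c11906 c247 c11910 c4386 (k8 c4353 c4389 c11599 c304 c804 c805 c2785 c1971 (k8 c5264 c4839 c11912 c2801 c1043 c927 c933 c1188 (k2 c571 c7824 (k1 c9923 k0)))))))) (by decide +kernel)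
def c11914 : PP 8 4 T 0x400000002000000080000000000000000100000000000000000000000040000000000 := rS 0x210e82c0e3e0f808b256 (k8 c11764 c63 c11848 c223 c11913 c11031 c2364 c791 (k2 c799 c4466 k0)) (by decide +kernel)
def c11915 : PP 8 4 T 0x1000000000001000040000000000000001100000004000008000006000040000000404 := rS 0x925f1b176183913a3d467d0e18c009f32b1ce8930f8a40a478b96442674b8b4c2111a8200eb1 (k8 c1147 c1018 c4462 c1059 c345 c881 c11815 c11783 (k8 c920 c798 c63 c4416 c8078 c2188 c7860 c274 (k8 c1654 c235 c2149 c7044 c11776 c4461 c754 c4466 (k8 c1691 c4241 c2709 c2874 c1139 c4486 c4628 c4470 (k2 c4382 c2146 (k1 c9172 k0)))))) (by decide +kernel)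
def c11916 : PP 8 4 T 0x1000000000001000040000000000000001100000004000008000004000040010000404 := rS 0x901223d0cc8b651bf0fac707ad6187f1c459268f2a8dc1a271d8103c012c8842ab34b8b4c21158ae46a0803a54ea3d (k8 c11915 c11627 c803 c1018 c4462 c1059 c7514 c1147 (k8 c345 c881 c11815 c11783 c1187 c7508 c798 c63 (k8 c750 c4466 c4461 c3062 c353 c9820 c2187 c266 (k8 c10034 c9125 c4471 c4470 c7517 c4486 c4419 c2190 (k8 c410 c8975 c4463 c4241 c7468 c7554 c4424 c1586 (k2 c7854 c4473 (k1 c1719 k0))))))) (by decide +kernel)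
def c11917 : PP 8 4 T 0x1000001000000100000000050000000010000051501000000000000000101002 := rS 0xc67f (k2 c7517 c755 (k1 c5857 k0)) (by decide +kernel)
def c11918 : PP 8 4 T 0x1400000002000000000000000000000001100000004000000000004000040000000404 := rS 0x20e88c41d94ca8cf632d8fab57eb248ea35da94be2553a041c700688d7e5d8610e10491b23cca69358e400934d87142953aae47ab11785c9e6d6999c2ab34b8b5ca611a8200e56 (k8 c11764 c1018 c4462 c1059 c881 c11030 c11815 c11783 (k8 c1187 c7508 c920 c11914 c9753 c4297 c4431 c4432 (k8 c1147 c11915 c7514 c11627 c803 c4551 c11916 c764 (k8 c1030 c1058 c1139 c492 c756 c491 c2709 c4470 (k8 c4209 c4479 c8832 c4486 c4628 c1511 c1409 c1408 (k8 c233 c232 c4439 c4330 c4381 c4382 c4385 c4825 (k8 c11410 c3393 c586 c4376 c7513 c8975 c9813 c9550 (k8 c1519 c11917 c9029 c1601 c11242 c8360 c4452 c9368 k0)))))))) (by decide +kernel)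
def c11919 : PP 8 4 T 0x1000000000001000040000000000000002000000004000008000006000040000000404 := rS 0x306c5e1c92592b12e89d6f053f9f438630027ccac72a1d1261f148148f172c884ce61088d410075ca8d2e2d (k8 c11815 c11783 c938 c1205 c1018 c4462 c1059 c345 (k8 c881 c920 c798 c63 c4416 c8078 c2188 c7860 (k8 c274 c1654 c235 c234 c2149 c7044 c11776 c4461 (k8 c754 c4466 c1691 c595 c4406 c3673 c2874 c2712 (k8 c3160 c11399 c8222 c362 c9172 c4470 c488 c1408 k0))))) (by decide +kernel)
def c11920 : PP 8 4 T 0x2000000000000000001000000000500000800108000000040002010010004 := rS 0x2154e190d8bc9e01 (k8 c750 c4297 c4432 c4292 c1919 c2008 c563 c9055 k0) (by decide +kernel)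
def c11921 : PP 8 4 T 0x400000002000000000000000010010454000500000400109000045440102010111020 := rS 0x1942a9e10ae8c2aca4c52586c5e4f36b0c829d60c59ca99 (k8 c1072 c11030 c4471 c4420 c10547 c4433 c9009 c9753 (k8 c4297 c4432 c4292 c4434 c7718 c11242 c1943 c4488 (k4 c2127 c9825 c908 c4321 (k2 c4436 c4119 k0)))) (by decide +kernel)
def c11922 : PP 8 4 T 0x400000002000000000000000000000002100000000000000000005000040010010404 := rS 0x4d4286462773c465346b40bf106a16383cba932a90c920d1b8907027588ec08a911878029d0b96da621568bc2ab34b8b4f608039161a8f4a9d5ca56 (k8 c11764 c11030 c11627 c803 c130 c4328 c4296 c1018 (k8 c4462 c1224 c11815 c11783 c1187 c7508 c4432 c4554 (k8 c798 c11914 c92 c4431 c10547 c750 c4466 c768 (k8 c978 c4461 c3062 c3161 c353 c1153 c1154 c273 (k8 c529 c7307 c2189 c266 c9125 c809 c2190 c410 (k8 c4212 c4570 c4463 c4380 c11920 c11921 c4448 c805 (k4 c1889 c1966 c4540 c10814 (k2 c284 c10080 k0)))))))) (by decide +kernel)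
def c11923 : PP 8 4 T 0x10000002000000040000000400040010501000001041101000000000145020110600 := rS 0x414267e50b1d3e7d5403c445f52a9c96e549ac40a1f3585cd22f64994c600 (k8 c1058 c755 c491 c7308 c4432 c756 c4431 c492 (k8 c56 c262 c3160 c1030 c11030 c4434 c4558 c10933 (k8 c10439 c4467 c4046 c8696 c9737 c1300 c1449 c7768 (k4 c2118 c11097 c4313 c4464 k0)))) (by decide +kernel)
def c11924 : PP 8 4 T 0x10000000000000000000000000000000000000000001100000000080000000000242 := rS 0x7e97c1c0d (k4 c1408 c232 c488 c4376 (k1 c4477 k0)) (by decide +kernel)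
def c11925 : PP 8 4 T 0x1400000002000000000000000000000000100000004000000000004000040000000404 := rS 0x14324b2d6d4b623357847a28eca6a83ea0ca8a553bf01ec712afc445f1c0dd0308219750a693589d62004d87c38953a8f5468f86a406a113092c5e17689b5a6670401c2ab34b8b5ca56 (k8 c11764 c11030 c11815 c11783 c1187 c7508 c1018 c4462 (k8 c920 c11914 c9753 c4298 c4431 c4432 c4434 c881 (k8 c345 c1059 c11918 c4328 c130 c938 c11919 c11627 (k8 c803 c11922 c56 c764 c1058 c3160 c873 c492 (k8 c756 c5976 c2712 c8832 c4479 c4439 c11924 c4470 (k8 c4647 c1140 c3256 c280 c410 c241 c4477 c772 (k8 c1301 c11923 c4570 c4379 c8696 c9029 c1601 c9368 (k8 c1602 c979 c1483 c11242 c4429 c1175 c1757 c4573 (k2 c4424 c4473 k0))))))))) (by decide +kernel)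
def c11926 : PP 8 4 T 0x1000000000001000040000000000000001100000008000008000004040040010100004 := rS 0x105099c88eb651b1d2ab5082e471164983c1a551e8d476040f004429716bf542254fc311e5b (k8 c92 c1346 c4486 c4384 c4381 c4329 c4378 c11815 (k8 c11783 c798 c750 c4466 c4461 c3062 c1099 c274 (k8 c266 c9677 c264 c9125 c4471 c4470 c7514 c4463 (k8 c4419 c4418 c410 c4241 c2125 c1586 c1077 c611 (k2 c4408 c4464 k0))))) (by decide +kernel)
def c11927 : PP 8 4 T 0x1000000000001000040000000000000001100000008000008000004040040000100204 := rS 0x2e07aa32ab1e08b7062d468951c801261c4fa86186d4b8b51e5b (k8 c92 c1346 c11815 c11783 c9753 c4486 c4329 c4384 (k8 c11926 c1030 c1058 c1139 c2710 c4470 c7883 c1060 (k8 c3053 c10736 c3417 c4406 c4241 c234 c2125 c11342 k0))) (by decide +kernel)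
def c11928 : PP 8 4 T 0x1400000002000000000000000000000000100000000000000000004000040000000404 := rS 0x8c38383007c6a901b9b82a08698840eb34b8b5ca56 (k8 c11764 c11030 c11815 c11783 c1187 c1018 c798 c11914 (k8 c4462 c7508 c11925 c1344 c11927 c3052 c3074 c1076 (k4 c4470 c4466 c2733 c1140 k0))) (by decide +kernel)
def c11929 : PP 8 4 T 0x1000000100000400014054000010000041511000002000000100001000 := rS 0x288fe658818c2b17 (k8 c4416 c327 c9785 c11368 c7044 c7517 c2118 c4337 k0) (by decide +kernel)
def c11930 : PP 8 4 T 0x1000000000000000000050000000000020040000000000140000000800 := rS 0x1d42511 (k4 c4412 c7854 c11025 c570 k0) (by decide +kernel)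
def c11931 : PP 8 4 T 0x1000000000001000040000000000080044400000000000000000000100140000000000 := rS 0x1a8dd8c22 (k4 c11410 c4241 c1409 c7949 (k1 c4470 k0)) (by decide +kernel)
def c11932 : PP 8 4 T 0x20002000001000000000000000040000000000000011001000000000000000100020 := rS 0x3f834be7d (k4 c4379 c4382 c528 c7517 (k1 c7554 k0)) (by decide +kernel)
def c11933 : PP 8 4 T 0x1000040000010000044055500000000000000001000020004000000000 := rS 0xb5 (k2 c7883 c11516 k0) (by decide +kernel)
def c11934 : PP 8 4 T 0x2400000000000010000000000000004000000000200000 := rS 0xe717 (k2 c4419 c1618 (k1 c7660 k0)) (by decide +kernel)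
def c11935 : PP 8 4 T 0x400000000000400100002000000004005040001511555140000000010400000000080140000014020 := rS 0x2ad5e285e4458a5156b945e6759a3cb2564185d02fc06b4d7e4f (k8 c4297 c1511 c11914 c528 c4463 c4380 c4431 c4570 (k8 c11764 c63 c9056 c1187 c920 c4432 c11030 c4554 (k8 c4435 c7718 c11495 c2126 c4468 c5748 c1572 c6342 k0))) (by decide +kernel)
def c11936 : PP 8 4 T 0x400000002000000040000000000002001000004000000408000000080000020015000 := rS 0x4293432695e9de326d (k8 c9753 c4368 c1092 c1173 c825 c4654 c325 c10110 (k1 c10080 k0)) (by decide +kernel)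
def c11937 : PP 8 4 T 0x1400000002000000000000000000000001100000004000000000004000040000000004 := rS 0x3ba14326921aa2309d67b1983435b2d46c355c92517050a28ceac31e9f5f80d5da953e5f53c30bac9478454239279b5a6673d86d269b17a648255099952a1c0facd2e2d729841e2758964420400828b656 (k8 c11764 c92 c11928 c566 c4461 c798 c63 c10032 (k8 c10203 c305 c881 c11030 c11815 c11783 c1187 c271 (k8 c4466 c7304 c11930 c530 c266 c4433 c1031 c4432 (k8 c764 c11351 c4292 c702 c920 c11914 c9753 c4297 (k8 c1139 c4551 c7962 c9056 c10573 c4628 c4486 c4330 (k8 c4382 c4384 c4385 c4825 c528 c4463 c4379 c11929 (k8 c9009 c11468 c11931 c11932 c4308 c718 c366 c4548 (k8 c11933 c4470 c11934 c10460 c4424 c1749 c9550 c1519 (k8 c11936 c4488 c11935 c4446 c10183 c308 c10110 c11833 (k1 c11508 k0)))))))))) (by decide +kernel)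
def c11938 : PP 8 4 T 0x100010000000000000050000000001001002000000000155000 := rS 0x18e47 (k2 c8078 c331 (k1 c2107 k0)) (by decide +kernel)
def c11939 : PP 8 4 T 0x50400000000000000000800080002000000000 := rS 0x4413cb4 (k4 c1411 c1371 c7420 c4414 k0) (by decide +kernel)
def c11940 : PP 8 4 T 0x410000000000000000000000001400000002000001000000000000000000000000000 := rS 0x14b45 (k2 c4397 c1402 (k1 c4490 k0)) (by decide +kernel)
def c11941 : PP 8 4 T 0x400000002000000000000000000000000000000000000000000000000000002000820 := rS 0x4613a42181a0f61b (k8 c4292 c702 c269 c268 c308 c825 c5554 c4446 k0) (by decide +kernel)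
def c11942 : PP 8 4 T 0x410000002000000040000000000400000000000001000000000000000002001015000 := rS 0x42935524f (k4 c4297 c1503 c285 c11940 (k1 c10080 k0)) (by decide +kernel)
def c11943 : PP 8 4 T 0x20001000002000000000100010014001554000010001400001001004000000000155020 := rS 0x3d611fc82e5 (k4 c11030 c4433 c7517 c9825 (k2 c11938 c9009 k0)) (by decide +kernel)
def c11944 : PP 8 4 T 0x1400000002000000000000000000000000100000004000000000004000040000000004 := rS 0x186af1ea2e0a14449a2128462b06306b55a754c9f239f502bf41aa592fc1b04492241c834bab91a88d1f0d4809d620f3092c3617279b5a6ad04a4d362f4c904aa1332a54381f10accb29716b9432040096cac0a (k8 c11928 c11764 c92 c566 c4461 c11941 c11030 c11815 (k8 c11783 c63 c1187 c798 c271 c4466 c7304 c11930 (k8 c530 c266 c4433 c1031 c4432 c764 c11351 c84 (k8 c4554 c11914 c9753 c4297 c4431 c4292 c4434 c881 (k8 c305 c10032 c10203 c11937 c4328 c130 c10157 c1036 (k8 c1205 c809 c529 c1140 c4467 c7307 c7312 c4470 (k8 c10457 c7308 c1503 c4570 c1511 c4380 c4379 c11939 (k8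 c11776 c11942 c907 c2013 c2008 c4488 c4450 c7718 (k8 c7463 c4321 c10079 c2040 c11943 c4308 c718 c327 (k2 c9756 c9009 (k1 c2127 k0))))))))))) (by decide +kernel)
def c11945 : PP 8 4 T 0x400000000000000000000140001501501500000000000000000000000000000000000 := rS 0xbf (k2 c5760 c2126 k0) (by decide +kernel)
def c11946 : PP 8 4 T 0x400000002000000000000000010002140014000001040001000006000000101000800 := rS 0x30cef19 (k4 c4368 c1092 c9725 c11779 k0) (by decide +kernel)
def c11947 : PP 8 4 T 0x1400000002000000000000000000000001100000000000000000004000040000100004 := rS 0x1a486a88c27478b85b9cd8f0444a1c2e513681d5a674d8bd3255099952a1c10accb21951a4c3e9716b954ea55d8416abd1a0dc1e258623c08012d958726e04829a641 (k8 c4433 c11914 c11928 c84 c11944 c1073 c11764 c92 (k8 c566 c4461 c1346 c4486 c4381 c264 c1343 c4470 (k8 c1039 c7883 c10992 c4825 c4385 c4330 c11030 c11815 (k8 c11783 c271 c11351 c11931 c11941 c63 c1187 c798 (k8 c4466 c7304 c11930 c530 c266 c1031 c4432 c764 (k8 c920 c4554 c1018 c9753 c4435 c4431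 c9141 c7030 (k8 c4464 c406 c4408 c1077 c7468 c11342 c11946 c4488 (k4 c11945 c4446 c10183 c11773 k0)))))))) (by decide +kernel)
def c11948 : PP 8 4 T 0x1000040000010000044055500000008000000000000020004000200000 := rS 0x907f (k2 c1459 c11933 (k1 c367 k0)) (by decide +kernel)
def c11949 : PP 8 4 T 0x1400000002000000000000000000000001100000000000000000004000040000000004 := rS 0x90c63f2e07a758285068370803d3e25862543821599644e5f02005468f1c9b812930f828b69716959a6e5 (k8 c11030 c11914 c11764 c11815 c11783 c92 c11928 c271 (k8 c11351 c84 c11944 c1073 c1346 c11931 c566 c4461 (k8 c1377 c351 c63 c1187 c798 c4466 c7304 c4486 (k8 c4381 c4384 c264 c10992 c1343 c4470 c11947 c4308 (k4 c591 c327 c11948 c5280 (k2 c11342 c671 (k1 c147 k0))))))) (by decide +kernel)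
def c11950 : PP 8 4 T 0x1400000002000000000000000000000000100000000000000000004000040000000004 := rS 0x174c10d480e5626e0e0043e090516c4256 (k8 c11764 c798 c92 c11928 c84 c271 c566 c4466 (k8 c11944 c123 c1073 c11949 c4328 c1076 c809 c4105 k0)) (by decide +kernel)
def c11951 : PP 8 4 T 0x2000000000004801000000040044000000010008000046000000100000612 := rS 0x5730157054498d9f102a14ce82962c5c76d13699cd617348bd2b19 (k8 c4369 c2710 c4432 c756 c4431 c492 c920 c9753 (k8 c4298 c89 c4416 c1782 c7860 c235 c2150 c234 (k8 c11368 c4541 c754 c597 c4406 c4415 c9880 c6907 (k1 c1714 k0)))) (by decide +kernel)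
def c11952 : PP 8 4 T 0x410000002000000000000000000000000100000000000000000004010040000008414 := rS 0x44aad5e631433545115c8f5869c4fa857c5c2697dfa51698855a674ba3c72375bad4c2918a1952a930f8b5ca9921a6c380803a2c3287841ac2e69000bcda56 (k8 c11764 c9753 c4432 c4461 c756 c4431 c492 c4479 (k8 c4440 c4436 c4322 c1018 c4462 c750 c2711 c8832 (k8 c1072 c11030 c11815 c1066 c11351 c2710 c491 c11950 (k8 c4352 c880 c4389 c4353 c4386 c4348 c4388 c11783 (k8 c920 c4554 c798 c11914 c4435 c4376 c1376 c244 (k8 c4477 c10063 c2713 c1340 c5760 c9725 c11951 c7514 (k8 c11255 c2125 c1485 c4468 c2716 c989 c1572 c4794 (k1 c8142 k0)))))))) (by decide +kernel)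
def c11953 : PP 8 4 T 0x10000000002000000000104041410000050045500015050000000002000000100000612 := rS 0x5732956893e9fcc6cd67c40e87314b162ed1 (k8 c4298 c4416 c1782 c7860 c1615 c235 c11368 c4541 (k8 c10743 c754 c10049 c1691 c597 c4415 c2124 c8142 (k1 c8140 k0))) (by decide +kernel)
def c11954 : PP 8 4 T 0x2410000002000000040000000000400000100000000000000000040010002000000000 := rS 0x5f2909aa927d146e39 (k8 c4348 c4386 c11725 c4297 c1503 c285 c4490 c10063 (k1 c1403 k0)) (by decide +kernel)
def c11955 : PP 8 4 T 0x410000002000000000000000000000000100000004000000000004000040000000414 := rS 0xa14faa0bea512c1572751ea9d87194e325065d07d150e8b409dc87084ca144e9b4a870ca6935800961736b4c42ad1799d669716b9576b1478dd6e715a985227b2284473141a8200e56 (k8 c11764 c1018 c4462 c1059 c11950 c4348 c344 c4296 (k8 c1224 c4352 c880 c4389 c4387 c4353 c4386 c4388 (k8 c4350 c4390 c11030 c11815 c11783 c1187 c920 c4432 (k8 c4554 c798 c11914 c9753 c4431 c4434 c4461 c492 (k8 c756 c491 c750 c2710 c2711 c2874 c5976 c1072 (k8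 c4479 c8832 c11833 c4439 c4322 c4440 c11725 c11952 (k8 c753 c4570 c7308 c10618 c4368 c9725 c906 c11953 (k8 c11627 c7514 c9531 c11954 c10933 c10439 c4490 c6233 (k2 c7768 c10460 k0))))))))) (by decide +kernel)
def c11956 : PP 8 4 T 0x1000000000015000000055500000000000000000000000140000108024 := rS 0x2788ea3509704855 (k8 c266 c264 c265 c11818 c1464 c3320 c2125 c11776 k0) (by decide +kernel)
def c11957 : PP 8 4 T 0x2410000002000000040000000410040404100000104000001000045010004080114020 := rS 0x20a7d6483092cd7e9494ac5262ed62b75e9c56a9d22b0c82b9a28dc72c18b0ecace5 (k8 c11030 c11764 c3062 c4471 c4420 c4348 c4386 c11725 (k8 c7514 c4433 c9009 c4296 c1232 c4389 c4387 c4354 (k8 c4353 c4350 c4390 c9123 c7718 c1935 c11242 c9806 (k4 c5541 c373 c4463 c507 (k2 c1292 c9531 (k1 c9805 k0)))))) (by decide +kernel)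
def c11958 : PP 8 4 T 0x1000000000000410000002000000040000000000000800100004010000000000040000004000014020 := rS 0x268344823532143231529dd52788c8bcb656 (k8 c11764 c92 c4432 c4448 c805 c2785 c1889 c1971 (k8 c1966 c4540 c602 c4490 c772 c4558 c529 c284 (k1 c10080 k0))) (by decide +kernel)
def c11959 : PP 8 4 T 0x410000002000000000000000000000000100000004000000000004000040000000404 := rS 0xbe0c63089faa262a6c1ec14ac5927455c9d5869d1d89caa431e878084169ab45eb1478dd22b738ad42ab34b8b5ca7b2284473141a8200e56 (k8 c11764 c1018 c4462 c1059 c11950 c4348 c344 c4296 (k8 c1224 c11030 c11815 c11783 c1187 c7508 c4389 c4387 (k8 c4353 c4352 c4386 c4388 c4350 c4432 c4554 c11914 (k8 c4433 c11955 c262 c2188 c2189 c266 c2309 c3062 (k8 c1232 c9009 c11627 c7514 c11725 c9125 c4471 c803 (k8 c4420 c11956 c11958 c7718 c11957 c9806 c11410 c4241 (k2 c4463 c3419 (k1 c528 k0)))))))) (by decide +kernel)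
def c11960 : PP 8 4 T 0x400000002000000000000805000014001500000000000000000004010140100000612 := rS 0x112ab5798c50cd51445723d61a70a2ad33a5cca954987dca9921a6c388b43c20d617348bcda56 (k8 c11764 c9753 c4432 c756 c4431 c492 c4479 c4440 (k8 c4322 c750 c2711 c8832 c1072 c11030 c1066 c11351 (k8 c2710 c491 c11783 c920 c4554 c4435 c5760 c9725 (k8 c11951 c7514 c11040 c2125 c1485 c4468 c2716 c989 (k2 c1572 c4794 (k1 c8142 k0)))))) (by decide +kernel)
def c11961 : PP 8 4 T 0x10000000002000000040004041410000050045500015050000000002000000100014452 := rS 0x3202608 (k4 c4462 c1679 c11953 c10573 k0) (by decide +kernel)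
def c11962 : PP 8 4 T 0x400000002000000000000000000000000100000004000000000004000040000000414 := rS 0x7e88a2c633e9ccfea288c1172493a8f5865d8ca701e78419317e870ca2d027721c21329342a6d2a1c329a4d61f0005c826d698855a2f33acd2e2d72aed628f5baf4e2b530a44f645088e628350401cac275097d3f0c (k8 c11959 c4384 c4382 c4329 c4324 c11764 c1018 c4462 (k8 c1059 c11950 c4348 c344 c4296 c1224 c4352 c880 (k8 c4389 c4387 c4354 c4353 c4388 c4350 c4390 c11030 (k8 c11815 c11783 c1187 c920 c4432 c4554 c798 c11914 (k8 c9753 c4433 c4431 c4461 c1066 c492 c756 c491 (k8 c750 c2710 c2711 c5976 c11351 c1072 c4479 c8832 (k8 c11833 c4439 c4322 c4436 c4440 c11960 c11148 c9673 (k8 c2122 c244 c10618 c4447 c753 c9725 c11961 c11627 (k8 c11340 c7514 c10460 c11040 c2125 c4313 c4408 c4409 (k4 c4407 c4487 c11410 c7787 (k1 c9733 k0))))))))))) (by decide +kernel)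
def c11963 : PP 8 4 T 0x400000002000000000000000000000000100000004000000000004000040000000404 := rS 0x63514452a937e1fd72751d8341e551e878089f2f895430c1a8442a086981cceb34b8b5ca5658a3c72915b9c56b14 (k8 c11950 c4389 c4387 c4353 c4352 c4348 c4388 c4350 (k8 c11764 c11030 c11815 c11783 c1187 c920 c1018 c11914 (k8 c4462 c7508 c344 c1059 c11959 c4329 c4381 c4382 (k8 c4384 c11962 c262 c2188 c266 c264 c528 c3062 (k8 c11627 c7514 c7517 c4463 c9125 c803 c11040 c2125 (k2 c819 c7058 k0)))))) (by decide +kernel)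
def c11964 : PP 8 4 T 0x400000002000000000000000400000510000000001040000000006000140100000860 := rS 0x15e31299a087184eaad12878818c52150b9455a2f4bb94aa19 (k8 c11941 c266 c11030 c11783 c4432 c4554 c4435 c4431 (k8 c327 c1680 c9785 c11368 c9141 c7030 c4415 c11946 (k4 c4488 c4446 c11773 c332 (k2 c1878 c828 (k1 c11345 k0))))) (by decide +kernel)
def c11965 : PP 8 4 T 0x2410000002000000040004010010000554100000104010000000001000004001050800 := rS 0x30230c557aad3aa6678918c2324a80289f829f4bac97e13dca6d33accacb147a456eb5078dc1a71 (k8 c4387 c568 c4386 c304 c4389 c4353 c4352 c4388 (k8 c4350 c11764 c1187 c920 c9753 c11030 c4297 c4463 (k8 c10573 c4377 c4379 c9531 c6237 c7079 c10460 c366 (k8 c771 c4212 c4467 c1519 c11942 c906 c2013 c909 (k4 c7718 c4488 c2127 c4450 k0))))) (by decide +kernel)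
def c11966 : PP 8 4 T 0x10000000001000000000014000004055500000000000201000000000140000160000 := rS 0xa031a8e08c7 (k4 c406 c4464 c4241 c4407 (k2 c5931 c810 k0)) (by decide +kernel)
def c11967 : PP 8 4 T 0x20000000000000001400000000000000800200000 := rS 0x48 (k2 c771 c7679 k0) (by decide +kernel)
def c11968 : PP 8 4 T 0x2410000002000000000004010000000050100000104000001000001000140021040800 := rS 0xc9631894511508513e5c1117dfa1069ab4ceb347add6a614987d362f4c9044e913296cace5 (k8 c11030 c11764 c92 c11930 c4352 c872 c4433 c1031 (k8 c4432 c764 c271 c11351 c880 c4389 c4353 c4388 (k8 c1187 c920 c4554 c11914 c11965 c4300 c543 c7312 (k8 c4477 c1300 c11966 c11967 c11255 c2125 c7301 c4241 (k2 c1728 c407 k0))))) (by decide +kernel)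
def c11969 : PP 8 4 T 0x2410000002000000000000000000000010100000004000001000005000140021040800 := rS 0x2312b1868b869a5d261f2d9584e9161904eae5 (k8 c11030 c11468 c4433 c9009 c4352 c872 c11764 c92 (k8 c271 c11351 c11783 c11914 c11968 c7514 c11342 c1369 (k2 c7949 c4467 k0))) (by decide +kernel)
def c11970 : PP 8 4 T 0x2000000000000000040000010000014040100000104010008000000000000000055000 := rS 0x414bac97e19d66b147a456eb5 (k8 c4389 c4353 c4352 c4388 c4350 c1187 c920 c4463 (k4 c10573 c4377 c9531 c10460 k0)) (by decide +kernel)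
def c11971 : PP 8 4 T 0x2000000000001000040000010000014054100000104010008000000000140020045000 := rS 0x626405020c651444ceb347a456eb5 (k8 c4389 c4353 c4352 c4388 c1187 c920 c11255 c2125 (k4 c4241 c11970 c406 c407 (k2 c7301 c1728 k0))) (by decide +kernel)
def c11972 : PP 8 4 T 0x400000002000000000000000000000000100000004000000000004000040000000004 := rS 0x8bf42aa3631ce21175c27d430c3a8f426650c9552a994d811261c0683c021f050bc82592d9b5a6210399d669716b946e7130a462856 (k8 c11764 c11950 c4352 c880 c4387 c4386 c11030 c11815 (k8 c11783 c1187 c920 c1018 c798 c11914 c9753 c92 (k8 c63 c4433 c4432 c11963 c271 c566 c304 c568 (k8 c4466 c11351 c4461 c764 c1031 c7304 c266 c11941 (k8 c11930 c530 c11964 c11468 c11969 c4329 c4384 c11971 (k8 c4361 c6781 c1085 c11342 c4337 c7660 c11932 c406 (k1 c4463 k0))))))) (by decide +kernel)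
def c11973 : PP 8 4 T 0x410000002000000000000000000000000100000000000000000004000040000000414 := rS 0x3507170c2918a158dc00 (k8 c4461 c11972 c11764 c11950 c4352 c880 c9688 c753 (k2 c8690 c11952 k0)) (by decide +kernel)
def c11974 : PP 8 4 T 0x400000002000000000000000000000000100000000000000000006000040000000414 := rS 0x835f8346ac851c14fa7f31b1ca874099cc5241698852e8f48add6b147e9b92a930f8b5ca434d87010070cc20d22f358002e6d2b2853f0c (k8 c11973 c4384 c4329 c11764 c9753 c4431 c4461 c492 (k8 c4432 c756 c4479 c4436 c1018 c4462 c750 c2711 (k8 c8832 c11030 c11815 c1066 c11351 c2710 c11972 c4378 (k8 c11950 c4389 c4353 c4352 c4388 c11783 c798 c11914 (k8 c4433 c7860 c1615 c1679 c235 c234 c2149 c754 (k8 c1460 c1690 c4406 c4241 c10617 c10736 c506 c11960 (k2 c9673 c9674 k0))))))) (by decide +kernel)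
def c11975 : PP 8 4 T 0x2400000002000000000000000000014000100000008000000000004010140100000612 := rS 0x835f83482d347a456eb57e90d361c0cc20d22f3585cda56 (k8 c11764 c9753 c4431 c492 c4432 c756 c4479 c4436 (k8 c750 c2711 c8832 c4378 c4389 c4353 c4352 c4388 (k4 c11914 c4433 c1289 c11960 (k2 c9673 c9674 k0)))) (by decide +kernel)
def c11976 : PP 8 4 T 0x400000002000000000000000000000000100000000000000000004000040000000414 := rS 0x144633e9fd92c72ec10180f1a1247a9f50c30ca0036884ce9716b956a6148c51fa5f370200e56 (k8 c11764 c1018 c4462 c11972 c1377 c4378 c11950 c4352 (k8 c880 c4389 c11030 c11815 c11783 c920 c798 c9753 (k8 c4461 c491 c11973 c4329 c4384 c11974 c11340 c11975 (k8 c1330 c1060 c10736 c753 c3417 c507 c4313 c4409 (k2 c4407 c5857 (k1 c4241 k0)))))) (by decide +kernel)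
def c11977 : PP 8 4 T 0x400000002000000000000000000000000100000000000000000004000040000000404 := rS 0x12ab949838ea351d8347a1e020442a086981d669716b94ac8f1ca456eb58a3f4be6e (k8 c11972 c1377 c4378 c11950 c4389 c4353 c4352 c4348 (k8 c4388 c11764 c11030 c11815 c11783 c1187 c1018 c11914 (k8 c4462 c7508 c344 c11976 c262 c2188 c528 c3062 (k4 c1099 c11627 c4463 c9125 (k2 c7514 c803 (k1 c11956 k0)))))) (by decide +kernel)
def c11978 : PP 8 4 T 0x2010000000001000000000010400004054100000008041001000000000140020060000 := rS 0xc4a288a84287f47add6a5f2e0884e91 (k8 c4352 c872 c7312 c9688 c1377 c4389 c4353 c4388 (k4 c1459 c11966 c11967 c11255 (k2 c2125 c7301 (k1 c819 k0)))) (by decide +kernel)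
def c11979 : PP 8 4 T 0x2010000000001000000000000400000014100000008051001000005000140020060000 := rS 0xc61a2e13e222e25c4e91 (k8 c4352 c872 c11783 c9688 c7312 c1340 c11978 c7514 (k2 c11342 c7949 k0)) (by decide +kernel)
def c11980 : PP 8 4 T 0x2000000000001000000000010400014054100040000040000000000000140020020000 := rS 0x1431b19451147a456eb5 (k8 c4389 c4353 c4352 c4388 c11255 c2125 c4241 c819 (k2 c406 c7301 k0)) (by decide +kernel)
def c11981 : PP 8 4 T 0x400000002000000000000000000000000100000000000000000004000040000000004 := rS 0x2904632e0fe494fa861875098f4ca554aa6536100224c380f0087c120a371856a911bc5166674b8b45e4172964b66d698840e56 (k8 c11764 c1018 c798 c11914 c9753 c92 c63 c11030 (k8 c4433 c4432 c11815 c11783 c920 c1187 c11950 c4386 (k8 c4352 c4389 c880 c11972 c11977 c84 c271 c566 (k8 c304 c4466 c11351 c4461 c10992 c764 c1031 c7304 (k8 c266 c11930 c11964 c530 c11468 c11979 c4329 c4384 (k4 c11340 c671 c11980 c11342 (k2 c5280 c406 (k1 c4308 k0)))))))) (by decide +kernel)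
def c11982 : PP 8 4 T 0x20002000001000000000000000000020000000000011009000000000000000000420 := rS 0x554674 (k4 c803 c2782 c590 c11932 k0) (by decide +kernel)
def c11983 : PP 8 4 T 0x400000002000000000000008004000200000500000000408000008000000000215005 := rS 0x89a5b368a52264250e850c9d8d24b0d85c9e41368840849a1b3d8a45 (k8 c4296 c1248 c1796 c4424 c366 c4461 c798 c9753 (k8 c4433 c4297 c4431 c4292 c4434 c5568 c1071 c269 (k8 c10110 c11158 c4438 c2108 c9802 c4451 c2063 c4456 (k2 c6175 c7785 k0)))) (by decide +kernel)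
def c11984 : PP 8 4 T 0x1400002002000000000000000410001041500400004040100000008200004000011605 := rS 0x34220ecc24ca6cf22367b058cb65aae4ea728285156a3882554a9f2fa9d42bb12c31ca5b369558a43329652717309581e045f915027d (k8 c4379 c4380 c4296 c1240 c4461 c2190 c11764 c881 (k8 c4356 c3067 c63 c7044 c2189 c1248 c8954 c9753 (k8 c92 c11030 c4486 c281 c10310 c4329 c4330 c4382 (k8 c4384 c4385 c11982 c4487 c4337 c4415 c11932 c4308 (k8 c385 c590 c4548 c1618 c10460 c1162 c1749 c1796 (k8 c1449 c11643 c805 c11983 c11393 c1087 c1088 c11833 (k1 c2040 k0))))))) (by decide +kernel)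
def c11985 : PP 8 4 T 0x1000040000000000000022000000000000000001000040004000000000 := rS 0x31d40b4 (k4 c891 c890 c1431 c4212 k0) (by decide +kernel)
def c11986 : PP 8 4 T 0x100002400000000000010000000001001400040000000055200 := rS 0xa1cd8e7f (k4 c1434 c1431 c1618 c2107 (k1 c385 k0)) (by decide +kernel)
def c11987 : PP 8 4 T 0x4011008014801554000000000000000000000000000000000000 := rS 0x30d5ecd (k4 c2066 c909 c1168 c2127 k0) (by decide +kernel)
def c11988 : PP 8 4 T 0x410000002000000044010008015001554000000001400001000000000002000115020 := rS 0x1445e2958468848614ec18c39502fc (k8 c4463 c4380 c11030 c4488 c4450 c11987 c11942 c4436 (k4 c269 c9825 c1882 c1167 (k2 c4490 c4454 k0))) (by decide +kernel)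
def c11989 : PP 8 4 T 0x4410000002000000040010000011001154000004001400041001440200002000151020 := rS 0x534586586778ca696ccf631fd121727b95927d7e03d5710 (k8 c4487 c4415 c2190 c4463 c4379 c10573 c11030 c4297 (k8 c4431 c7030 c7517 c2107 c1519 c411 c11988 c4448 (k4 c1889 c2059 c4540 c7804 (k2 c11827 c11828 k0)))) (by decide +kernel)
def c11990 : PP 8 4 T 0x400000000000000000010000454001554000000081040000000000000000000000000 := rS 0xd276443098318 (k4 c4488 c4450 c2127 c7478 (k2 c1087 c2040 (k1 c11833 k0))) (by decide +kernel)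
def c11991 : PP 8 4 T 0x410000002000000040000000080000000000000001000000001000000006000215000 := rS 0x6333940a60ca1c66e5 (k8 c11030 c4294 c1633 c389 c11942 c908 c909 c4212 (k1 c4103 k0)) (by decide +kernel)
def c11992 : PP 8 4 T 0x1400000002000000040000000010000040100000004040000000008000000010000004 := rS 0x9a850c8c4ee788ca695e720a11d3eab88255326b2489152235cc3520817e20d7e0f2e8e01a17729b4aac5229ed3ab113acc6e430404cca938ba3cb20400844165b1a8784256 (k8 c11764 c798 c4466 c1099 c92 c271 c10960 c750 (k8 c4461 c63 c10034 c4356 c3067 c7044 c530 c1065 (k8 c2189 c2187 c3200 c353 c3161 c10547 c1226 c4296 (k8 c1248 c8954 c9753 c11030 c4431 c9820 c4470 c4628 (k8 c2190 c1240 c4570 c4463 c4380 c11984 c4328 c1205 (k8 c768 c978 c1154 c371 c11920 c1072 c11985 c4487 (k8 c4415 c4414 c6900 c11989 c385 c11991 c11990 c4448 (k4 c805 c1889 c1966 c4540 (k2 c603 c284 (k1 c10080 k0)))))))))) (by decide +kernel)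
def c11993 : PP 8 4 T 0x400000002000000000000000000000000100000004000000000000000040000008004 := rS 0xa13ab260a1429a251619619a0ef194fa8d34be2e0909a5562914f69d598dc8608099962e8f2c844165b1aaec72915baf56b143381002970f0755a2d49884ac3b728bc7cd3 (k8 c11914 c11981 c4432 c11030 c144 c11764 c798 c3067 (k8 c7177 c4554 c11830 c4466 c1194 c750 c4461 c655 (k8 c11992 c4389 c4354 c4353 c4352 c4348 c4390 c1099 (k8 c92 c271 c10960 c63 c10034 c4356 c7044 c530 (k8 c1065 c2189 c2187 c3200 c10547 c1226 c4296 c1248 (k8 c8954 c2192 c264 c265 c10065 c9123 c1464 c1340 (k8 c4369 c1093 c804 c2058 c4540 c7804 c2040 c11827 (k4 c11828 c4308 c630 c590 (k2 c811 c7050 k0))))))))) (by decide +kernel)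
def c11994 : PP 8 4 T 0x1000000000000000000020000000000000009000000000000000040400 := rS 0x82854c474 (k4 c803 c802 c590 c4407 (k1 c4464 k0)) (by decide +kernel)
def c11995 : PP 8 4 T 0x400000000000610000002000000040000140000801415500000000000000021000000004000000000 := rS 0x30994cf60b1a30474c88d522f27b953ea5 (k8 c1935 c4414 c11030 c4297 c4432 c191 c772 c2011 (k8 c6900 c4488 c4473 c4450 c1519 c413 c11444 c2028 k0)) (by decide +kernel)
def c11996 : PP 8 4 T 0x610000002000000040000144000001055500000010000000001000100000080014020 := rS 0x5c11942c71129c99434db94f62751a7e8a351b90c1056 (k8 c11764 c1065 c2189 c2187 c1099 c11725 c4414 c4337 (k8 c353 c1226 c11030 c11958 c11164 c9123 c11995 c9728 (k4 c1449 c771 c4473 c5931 (k1 c1315 k0)))) (by decide +kernel)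
def c11997 : PP 8 4 T 0x400000002000000000000000000000000100000004000000000000000040000000004 := rS 0x28fc399fcfa0d5c17d430c079256a715eadd22395dc50228f30b4d5a2f4e8d410b333a8d3f104a84cca5902004165b2ab952e1e0e8b5263b1095a2e3e (k8 c11981 c4356 c11764 c798 c144 c3067 c7177 c11830 (k8 c4466 c1194 c11030 c8954 c92 c271 c750 c4461 (k8 c63 c7044 c530 c11994 c4487 c4414 c4337 c655 (k8 c3200 c1065 c1099 c10547 c4432 c4554 c11914 c881 (k8 c10034 c10960 c11992 c4390 c4348 c4352 c4353 c4354 (k8 c4387 c4389 c370 c11993 c11996 c4329 c4382 c11040 (k4 c528 c1356 c7096 c1085 (k2 c4463 c7554 (k1 c385 k0))))))))) (by decide +kernel)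
def c11998 : PP 8 4 T 0x1400001002000000000000400100100200000000010010009002000000000000104005 := rS 0x10745661310309291a8ec690d905a26d1084c088728a242ee5 (k8 c11030 c4431 c7030 c4435 c9141 c4461 c530 c798 (k8 c9753 c4298 c4433 c4292 c5568 c1071 c1072 c7856 (k4 c4438 c1922 c372 c373 (k2 c4451 c7980 (k1 c7086 k0))))) (by decide +kernel)
def c11999 : PP 8 4 T 0x400000002000000040000000002040000000000001010001002000000000000100024 := rS 0x1499a690db44268728a242ee5 (k8 c11030 c4431 c7030 c4435 c9141 c530 c4298 c4292 (k4 c10183 c1483 c7856 c373 k0)) (by decide +kernel)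
def c12000 : PP 8 4 T 0x400000000000000000000200000400100000000009000000000000000000000000000 := rS 0x1a10476 (k4 c1079 c1080 c11833 c2000 k0) (by decide +kernel)
def c12001 : PP 8 4 T 0x1400000002000000040010004104041055100000008010001000040200100000100005 := rS 0x1964d2906462afa222cee9a8caf552996792170b53ec11124b1785dca6d3d84dfa71078117e4563a9d4abb8623cb656 (k8 c11764 c92 c1346 c4486 c4825 c4385 c4330 c411 (k8 c4296 c1240 c4461 c2190 c94 c4378 c530 c1226 (k8 c9753 c11030 c4431 c4432 c4434 c7030 c4464 c4409 (k8 c1347 c7468 c1202 c1525 c11998 c11999 c12000 c7959 (k8 c2126 c4703 c7804 c4493 c2786 c1966 c4540 c11828 (k2 c4451 c4455 (k1 c4765 k0))))))) (by decide +kernel)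
def c12002 : PP 8 4 T 0x1400000002000000040010004104041055100000008010001000000010100000000205 := rS 0x5aae4e4141c0dc860438a3cb656 (k8 c11764 c92 c1346 c94 c4461 c2189 c2187 c4470 (k4 c12001 c385 c3085 c1619 (k1 c7468 k0))) (by decide +kernel)
def c12003 : PP 8 4 T 0x400000002000000000000000000000000100000000000000000000000040000000004 := rS 0x172a13932428534486516c3341de330d4d1fd7c24429341c115e8e5771430a456e8f2fbf4dc9f55a8e209509994863705a5c103558810f61e00a743aad16a4d8a551dc5c7c211793c8ae52c96cacd3 (k8 c11914 c11764 c92 c63 c11030 c4296 c4297 c4432 (k8 c798 c11981 c4356 c144 c8954 c1248 c3067 c7177 (k8 c4554 c11830 c10547 c750 c4466 c1226 c4461 c3161 (k8 c1099 c1065 c1194 c271 c2187 c2189 c7044 c530 (k8 c11994 c4487 c4337 c4415 c4414 c11997 c4378 c1377 (k8 c1346 c3077 c3074 c880 c12002 c4390 c4348 c4354 (k8 c344 c8928 c2192 c1495 c264 c10065 c1456 c9123 (k8 c4381 c4369 c1094 c804 c2058 c7804 c4540 c2040 (k4 c11827 c11828 c630 c385 (k2 c11483 c1086 (k1 c5931 k0))))))))))) (by decide +kernel)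
def c12004 : PP 8 4 T 0x20000000001000040000020400040010000010040051001000000080000000114000 := rS 0xfc3f98c1b17 (k4 c4361 c3444 c7153 c7517 (k2 c4463 c7315 k0)) (by decide +kernel)
def c12005 : PP 8 4 T 0x4000000000000000040000011500050054500010140051500000400000005000000000 := rS 0x7e9fe0863 (k4 c7153 c4481 c4313 c10398 (k1 c7622 k0)) (by decide +kernel)
def c12006 : PP 8 4 T 0x1400000002000000040000040000502001000000004000008000000010000020000008 := rS 0x31342f632054789c4a09009646c39 (k8 c1139 c4470 c63 c28 c1058 c11879 c872 c2763 (k4 c55 c4368 c1173 c10637 (k2 c1879 c10849 k0))) (by decide +kernel)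
def c12007 : PP 8 4 T 0x1000000002000000040000000000100000400000004200008000040110005000000008 := rS 0xc4b205 (k4 c55 c63 c1879 c10842 k0) (by decide +kernel)
def c12008 : PP 8 4 T 0x400000002000000000011000400000000000004001100001000005000100000000088 := rS 0x7561905ca73 (k4 c1022 c11030 c4433 c9009 (k2 c499 c11892 k0)) (by decide +kernel)
def c12009 : PP 8 4 T 0x1400000002000000000000000000000041100000004000001000004010040000000400 := rS 0x26745b2d490c75c9f4c6478b8f1826921c618a7b4e8d8da6133855669b17a64822750a54ba1107ac44a09518e526d35397d3ea55dc311e7303194022d0e0843e592b01404e5 (k8 c11030 c12003 c55 c11764 c63 c223 c799 c4466 (k8 c912 c28 c9676 c791 c1022 c2763 c4486 c4825 (k8 c4385 c4384 c4382 c4330 c11914 c1030 c1139 c11931 (k8 c1058 c11879 c1147 c10635 c608 c4628 c2764 c4551 (k8 c872 c4433 c1031 c4432 c764 c1187 c7508 c920 (k8 c881 c9753 c4470 c12006 c1226 c7718 c4488 c4446 (k8 c12007 c4450 c12008 c4416 c8078 c9785 c7516 c12004 (k4 c331 c9172 c1703 c323 (k2 c12005 c3670 (k1 c498 k0))))))))))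 (by decide +kernel)
def c12010 : PP 8 4 T 0x2000001000040000000000054055500000104010008001005020145000000000 := rS 0x31b1a08b85b99d66b5 (k8 c7883 c1187 c920 c1038 c11933 c7050 c11342 c4407 (k1 c11476 k0)) (by decide +kernel)
def c12011 : PP 8 4 T 0x1400000002000000000000000000000041100000004000001000004000040000000400 := rS 0x3f410c6b9098a58e483a8f592fc3e9c56a34329cc0a6133855660613a852a5d588941201518e5262d69b94be9f8623c38210f964ac02 (k8 c12003 c11764 c63 c223 c799 c4466 c2763 c4486 (k8 c4384 c4382 c11030 c11914 c912 c1030 c1139 c11931 (k8 c28 c1058 c11879 c1147 c4628 c2764 c4551 c872 (k8 c791 c1187 c7508 c920 c881 c55 c1022 c9676 (k8 c12009 c7883 c1304 c8975 c4480 c4305 c11858 c499 (k8 c12010 c147 c1720 c1718 c11342 c11648 c4464 c9616 (k1 c4313 k0))))))) (by decide +kernel)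
def c12012 : PP 8 4 T 0x1000000000001000040040010000000055500000000000002000001110154400000000 := rS 0x3a5a1196e491b28d3f0c (k8 c4486 c4384 c11931 c4470 c4209 c9550 c4200 c7468 (k2 c1412 c3540 k0)) (by decide +kernel)
def c12013 : PP 8 4 T 0x1400000002000000000000000000000041100000004000000000004000040000000400 := rS 0x232690c27060c16791d6c485a8d187105c8f58e75328a4a7052a2ed4a9f5388d46ad1283cef0c2ea84722d13825260647a55329b0e0845e4168b95a6050087c045933acd6256 (k8 c11764 c1147 c1187 c920 c63 c12003 c223 c28 (k8 c55 c11914 c11030 c4298 c4433 c4432 c799 c4466 (k8 c764 c1031 c2764 c2763 c791 c1030 c1058 c872 (k8 c912 c1139 c4551 c4628 c4486 c1023 c10635 c11879 (k8 c4554 c11931 c792 c4330 c4384 c4385 c4825 c12011 (k8 c4406 c9029 c1599 c1646 c1687 c250 c5184 c4548 (k8 c4468 c9009 c12012 c7883 c11933 c10460 c118 c1790 (k4 c1749 c11671 c11393 c228 (k2 c1879 c4368 (k1 c4654 k0)))))))))) (by decide +kernel)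
def c12014 : PP 8 4 T 0x40000000000000000800000000000008000000000000400010108 := rS 0x3f0b859 (k4 c63 c800 c10419 c4377 k0) (by decide +kernel)
def c12015 : PP 8 4 T 0x1000000000000000000020000000000000009000000000010000000008 := rS 0x54c42d (k4 c2781 c802 c382 c11648 k0) (by decide +kernel)
def c12016 : PP 8 4 T 0x1400000002000000040000000000500000000000004000008000000010004000010808 := rS 0x421a49a1921a6c6c0d3681462251c83d3a334788c4009 (k8 c84 c302 c2775 c12014 c4294 c966 c305 c2319 (k8 c2243 c2245 c55 c9753 c569 c4470 c11688 c4567 (k4 c308 c324 c12007 c10080 (k1 c10705 k0)))) (by decide +kernel)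
def c12017 : PP 8 4 T 0x1200000000001000040000010100040055500000004015001000000020140000100800 := rS 0x1fce1047e9d47a3a5b1218e5d13a84be9f860dcfab5 (k8 c7883 c8975 c87 c4486 c4384 c4382 c4329 c4324 (k8 c4628 c1451 c11933 c7468 c1037 c1743 c3650 c11475 (k4 c7079 c4480 c4313 c7316 k0))) (by decide +kernel)
def c12018 : PP 8 4 T 0x1000000000000000040000020100050000000040004054400000400000005000000000 := rS 0xe2fd (k2 c10398 c1473 (k1 c4480 k0)) (by decide +kernel)
def c12019 : PP 8 4 T 0x1000000000001000040000000100000055500000004041001000004020150000000808 := rS 0x27053f11d706332c41461502804402513a84bf0c (k8 c4486 c4382 c4329 c4324 c2243 c302 c28 c55 (k8 c382 c9384 c4468 c9676 c11648 c12017 c1316 c12018 (k2 c4313 c2545 (k1 c4464 k0)))) (by decide +kernel)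
def c12020 : PP 8 4 T 0x1000000000001000040000000100000055500000004041001000004020050400000808 := rS 0x11e86a263ae493111609d3f0c (k8 c4486 c4384 c4324 c12019 c4332 c368 c6781 c1451 (k4 c11933 c4393 c1313 c4473 k0)) (by decide +kernel)
def c12021 : PP 8 4 T 0x1000000000000000000008000000000000008000000000040000000810 := rS 0xf4ea5b (k4 c92 c1657 c1654 c11908 k0) (by decide +kernel)
def c12022 : PP 8 4 T 0x1000000000001000040000000000000041100000004000009000004020040000000808 := rS 0x953099c528f088e56223100252605 (k8 c55 c12021 c84 c302 c2775 c1147 c2319 c7962 (k4 c12014 c2776 c920 c881 (k2 c12015 c12020 k0))) (by decide +kernel)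
def c12023 : PP 8 4 T 0x1400000002000000000000000000000041100000004000000000004000040000000000 := rS 0x23b1c5a532a1f56a3452a9c4f0c4784446291c89462200482962e569808ce56 (k8 c11764 c920 c12003 c11914 c11030 c1147 c12013 c84 (k8 c302 c2245 c2243 c2319 c2776 c2775 c7962 c12014 (k8 c4486 c4324 c4330 c4385 c12016 c7883 c8975 c12022 (k4 c9029 c247 c2250 c1602 (k1 c11671 k0))))) (by decide +kernel)
def c12024 : PP 8 4 T 0x140100200000100501414000008000000000000000000000 := rS 0x7a34a157e6d (k4 c9753 c1403 c1402 c1882 (k2 c2122 c1227 k0)) (by decide +kernel)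
def c12025 : PP 8 4 T 0x2000000000004000004000010000000200200000000000000140000000490 := rS 0xa629318f066d128ab5ca2f (k8 c4432 c11030 c4554 c4435 c4298 c4294 c499 c1688 (k2 c7860 c333 (k1 c7083 k0))) (by decide +kernel)
def c12026 : PP 8 4 T 0x1000000000000000000040010500000000000000154000000000000020000000080000 := rS 0x2d8927f3ead592fc (k8 c4480 c4305 c7883 c8975 c515 c1718 c4088 c1038 k0) (by decide +kernel)
def c12027 : PP 8 4 T 0x1400000002000000000040010401500002000500004000009000000020140000100408 := rS 0x241496c63820a42675559a1867a26a1688bf19b44a26d02c352a773c85d5ae517ad5764b5e90592fc38ac4e6060e0843e59 (k8 c63 c223 c799 c4466 c791 c1022 c3018 c1304 (k8 c4480 c4305 c4433 c1039 c4434 c1309 c7883 c4432 (k8 c11030 c4554 c4431 c500 c1023 c2764 c4328 c55 (k8 c9753 c4435 c4298 c4294 c1245 c4490 c11940 c4451 (k8 c2122 c3223 c1227 c11863 c12025 c12026 c795 c4464 (k4 c11648 c10837 c7083 c1038 (k1 c372 k0))))))) (by decide +kernel)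
def c12028 : PP 8 4 T 0x1400000002000000000040010500800450000000044000040000000021140000080490 := rS 0x27484c2292bd42ab14d0a203c8badce8495ab25f871 (k8 c1304 c4480 c4305 c7883 c1718 c12026 c1038 c4417 (k8 c499 c11025 c4492 c7860 c4415 c4423 c908 c11345 (k4 c333 c332 c1213 c4567 k0))) (by decide +kernel)
def c12029 : PP 8 4 T 0x1400000002000000000040000001100042000500004000009000000021040000100408 := rS 0x5794d9e4855ada21043a8a426cd531ccb60559ae53695032b45a1c1087cb2e517ad57a4164bf0e2b1 (k8 c3018 c1304 c4480 c4305 c4433 c1039 c7883 c4432 (k8 c11030 c63 c223 c799 c4466 c912 c4554 c791 (k8 c2764 c764 c1205 c1187 c55 c92 c1022 c12027 (k8 c2066 c12028 c795 c498 c4464 c4468 c10837 c4415 (k4 c1038 c1797 c373 c909 (k1 c11345 k0)))))) (by decide +kernel)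
def c12030 : PP 8 4 T 0x1400000002000000000000000000000040100000004000000000004000040000000400 := rS 0x142501259aa6a2af8f66965ab90b4b8811d16292995062a540a0cfa11589c57abb5a8dcba3463aa44c0f56894f277168240c1c0a884962f0b90466d128b94dad3028043e5930accad0d118097290 (k8 c12023 c1205 c12003 c2766 c4328 c11764 c1187 c881 (k8 c63 c223 c28 c55 c11914 c9753 c11030 c4435 (k8 c4298 c4294 c4433 c4431 c4432 c4434 c799 c7508 (k8 c4466 c791 c1058 c912 c1023 c500 c11879 c4554 (k8 c11620 c4467 c974 c408 c873 c2787 c320 c7883 (k8 c1309 c1039 c1304 c3018 c343 c8975 c4570 c10263 (k8 c12024 c357 c12029 c9029 c1599 c1766 c1602 c4468 (k8 c9591 c8927 c7769 c8140 c829 c1227 c9037 c4399 (k4 c1245 c1485 c4573 c908 (k2 c4473 c4423 k0)))))))))) (by decide +kernel)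
def c12031 : PP 8 4 T 0x400000002000000040000000000200000000100001000000000000001000000015000 := rS 0x3069 (k2 c1882 c10700 (k1 c10711 k0)) (by decide +kernel)
def c12032 : PP 8 4 T 0x400000002000000000000000001401102000500001000000000000081000000014800 := rS 0x66304342a6c961b27c341a07 (k8 c83 c1408 c4328 c4297 c4292 c4434 c892 c11940 (k4 c4567 c4488 c308 c7463 k0)) (by decide +kernel)
def c12033 : PP 8 4 T 0x400000000000000000000000054000000014000001554000000000000000000000000 := rS 0x8b (k2 c11588 c2120 k0) (by decide +kernel)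
def c12034 : PP 8 4 T 0x40000000000004000000000000000000005080000800040000000000000000800000000000000000000 := rS 0x3153519 (k4 c4449 c1978 c7032 c4494 k0) (by decide +kernel)
def c12035 : PP 8 4 T 0x40000000000000200000000000000000005002000801152000000000000000800000000000000000000 := rS 0x31536bb55c5d5ea1 (k8 c1706 c908 c4419 c4415 c12034 c893 c1789 c7287 k0) (by decide +kernel)
def c12036 : PP 8 4 T 0x400000002000000000000002000800156000000000000000000004001150200000000 := rS 0x849b1db09825257a862e414e8ce96ad17aae20e5 (k8 c11030 c4468 c4415 c4432 c4554 c9591 c4294 c966 (k8 c4433 c4419 c1706 c908 c11345 c1983 c12035 c1047 (k2 c2058 c8019 (k1 c4567 k0)))) (by decide +kernel)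
def c12037 : PP 8 4 T 0x400000002000000040140000000801156000000000000000000404001150000080800 := rS 0x31536bb292bd434260b0e2e491d0f4e8412881e96ad17aae20e5 (k8 c11030 c4468 c4415 c4432 c4554 c9591 c83 c4435 (k8 c4433 c570 c1679 c571 c1718 c4417 c9009 c1580 (k8 c4473 c4423 c908 c11345 c12034 c893 c7718 c7287 k0))) (by decide +kernel)
def c12038 : PP 8 4 T 0x400000002000000040100000000800156000010000000001000004000150000004808 := rS 0x578eca6cf2404c8eb5559fd8f100aab45ed1728c53a33130d43a11068d84007 (k8 c83 c302 c887 c1408 c2267 c791 c1035 c886 (k8 c4294 c966 c2245 c11030 c4298 c4432 c4554 c382 (k8 c4468 c408 c7517 c4415 c12036 c1411 c12037 c2107 (k4 c1790 c2275 c1723 c909 (k1 c4542 k0))))) (by decide +kernel)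
def c12039 : PP 8 4 T 0x500100002000000000000000444001514000540000058000000000081000000014800 := rS 0x4222032ac8c10d8a4b0d93c1a07 (k8 c83 c1408 c4297 c4292 c4434 c7718 c4567 c4488 (k4 c6342 c308 c821 c7463 (k1 c684 k0))) (by decide +kernel)
def c12040 : PP 8 4 T 0x2000000000000400000000800000400004000008000000080000000010800 := rS 0x2621432bd3c12c3617278241a07 (k8 c83 c1408 c84 c4297 c4431 c4292 c4434 c805 (k4 c9905 c1959 c603 c4682 (k1 c325 k0))) (by decide +kernel)
def c12041 : PP 8 4 T 0x1000000100000020000000002010000000001001400000008000155000 := rS 0x503358c7f (k4 c7517 c2107 c1481 c409 (k1 c901 k0)) (by decide +kernel)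
def c12042 : PP 8 4 T 0x400000002000000040100000000000442000110000000009000004000040000004808 := rS 0x286a13f3353e653122e0a14562ad82476184e2cb524abe222c4a99d670d47a8c5226532a58a93729a1081921c613a99528340e310da0c22171b080964f12814da33 (k8 c4294 c9753 c55 c2243 c4297 c4434 c302 c887 (k8 c4431 c2267 c4570 c4292 c2245 c83 c1408 c12031 (k8 c1160 c966 c4488 c4567 c308 c7463 c10705 c11030 (k8 c12021 c7718 c2981 c12032 c886 c2776 c938 c130 (k8 c4328 c1187 c920 c12015 c12038 c4332 c982 c2274 (k8 c7420 c4487 c7061 c4958 c1411 c4420 c11863 c2127 (k8 c12041 c4308 c718 c383 c550 c6237 c1482 c12039 (k2 c901 c4392 (k1 c4489 k0))))))))) (by decide +kernel)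
def c12043 : PP 8 4 T 0x1400000002000000000000000000000040100000004000000000004000040000000000 := rS 0x2c2a42508198c10d366b532654a7d40b2506fc068457e35548d93a1d078c4400705240961b0b93c666d69808ce56 (k8 c11764 c920 c12003 c11914 c9753 c4294 c4297 c4431 (k8 c4292 c4434 c12023 c12030 c83 c302 c2245 c305 (k8 c791 c966 c887 c2981 c1035 c1244 c2267 c1408 (k8 c10457 c4570 c4305 c4380 c4379 c12031 c1160 c12032 (k8 c2008 c12040 c4567 c4488 c308 c7463 c4321 c12042 (k2 c11888 c247 k0)))))) (by decide +kernel)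
def c12044 : PP 8 4 T 0x400000002000000000000000000200040100000004000001000004000040000008400 := rS 0x5cc10ea3da1b0d567d4fa70d04764c65005e2120c484d5fa9e1a4b6998576b1478e46eb75e9c56a1559a6d32954989d23143b904f2060bab45e6502bf46a493fa8c460116870421f01164ace5 (k8 c11030 c11764 c63 c12003 c223 c799 c4466 c912 (k8 c28 c1328 c11410 c1456 c242 c1329 c4376 c55 (k8 c9676 c4432 c4554 c4431 c791 c500 c4433 c1023 (k8 c12043 c4352 c872 c1030 c2764 c1031 c764 c1187 (k8 c7508 c4389 c4387 c4354 c4353 c4386 c4348 c4388 (k8 c4350 c4390 c881 c11914 c4434 c4385 c133 c1403 (k8 c1935 c10933 c1937 c10063 c225 c12024 c4446 c546 (k8 c3357 c1382 c4488 c11776 c7516 c11863 c9725 c11164 (k4 c11852 c12025 c4483 c7514 (k1 c9531 k0)))))))))) (by decide +kernel)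
def c12045 : PP 8 4 T 0x2400000000000000000000000000001500101500404000008000000000000000000000 := rS 0x7b (k2 c1226 c10618 k0) (by decide +kernel)
def c12046 : PP 8 4 T 0x10410000002000000000004000000404040100000004000001010004000040000008400 := rS 0x17275823247a7d2f11e862469aed628f1badd6a1559a540c9313a46286502bf46a493fa8c460116870421f01164ace5 (k8 c11030 c11764 c63 c12003 c223 c799 c4466 c912 (k8 c28 c1328 c11410 c1456 c242 c1329 c4376 c55 (k8 c9676 c12043 c4352 c872 c1030 c791 c2764 c1187 (k8 c7508 c4389 c4353 c4386 c4388 c4350 c4390 c11914 (k8 c4467 c11164 c6900 c225 c7516 c11852 c546 c4483 (k2 c499 c7514 (k1 c9531 k0))))))) (by decide +kernel)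
def c12047 : PP 8 4 T 0x10400000002000000000004000000400040100000004000001010004000050000008400 := rS 0x78b82331d430c4fc416a9513a46283524a8c460116870421f01164ace5 (k8 c11030 c11764 c63 c12003 c223 c799 c4466 c912 (k8 c28 c1328 c11410 c242 c1329 c12043 c4352 c872 (k8 c2764 c4389 c4468 c4414 c12046 c4329 c7318 c4200 (k2 c11255 c11342 (k1 c8078 k0))))) (by decide +kernel)
def c12048 : PP 8 4 T 0x400000002000000000000000000400040100500004000001000004000040000008400 := rS 0x862813e7582848c42861c65384d59a3d22b75ac5136994aa4cee0620ab45e8527a8c460116870421f01164ace5 (k8 c11030 c11764 c63 c12003 c223 c799 c4466 c912 (k8 c28 c1328 c11410 c4297 c1495 c4432 c4554 c4433 (k8 c791 c1023 c1030 c2764 c1031 c764 c12043 c4389 (k8 c4353 c4352 c4388 c1187 c245 c12045 c4368 c9725 (k8 c12047 c794 c795 c4407 c1688 c3505 c7050 c12046 (k1 c4329 k0)))))) (by decide +kernel)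
def c12049 : PP 8 4 T 0x2020000000001000040000000000040054100000000000000001004010000020000000 := rS 0x31a2047a1ae13ea147a456eb5 (k8 c4389 c4353 c4352 c4388 c4329 c4384 c2125 c4394 (k4 c1316 c6781 c4473 c7318 k0)) (by decide +kernel)
def c12050 : PP 8 4 T 0x400000002000000000000000000400040100000004000001000004000040000008400 := rS 0x8340978490d518b4923549a55ca2300b4c4e1c1087cb25648c5004a5 (k8 c12044 c12003 c12043 c4352 c11764 c63 c223 c799 (k8 c4466 c872 c11914 c28 c1328 c11030 c2764 c1030 (k8 c1329 c242 c912 c11410 c12049 c4467 c225 c1381 (k2 c549 c12048 k0)))) (by decide +kernel)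
def c12051 : PP 8 4 T 0x400000002000000000000000000000040100000004000001000004000040000008400 := rS 0xc6668c68b4326a993e472e978490d5192446357e835a60500a3d6e1559a55262748c515a2d0e0843e022c959ca2f (k8 c4432 c11030 c11764 c63 c12003 c223 c799 c4466 (k8 c912 c4554 c12043 c4352 c872 c1030 c2764 c1187 (k8 c7508 c4353 c4388 c28 c55 c11914 c32 c4376 (k8 c1329 c1328 c242 c11410 c12049 c4467 c225 c1336 (k8 c3357 c11776 c12050 c2135 c11164 c4453 c2006 c2066 (k2 c4473 c11681 k0)))))) (by decide +kernel)
def c12052 : PP 8 4 T 0x400000002000000000000000000001040100100004000001000004010040000000400 := rS 0x298a4c63c8bae156223410d09185406c66d1289b40ab35da3d6ebd5aa6d3295499dc82ad16b94e683088196217538bd4a2507b4c4e1c1087c04592b246284b (k8 c4434 c12043 c4352 c11764 c63 c12003 c223 c799 (k8 c4466 c872 c11914 c12051 c224 c10933 c4432 c4558 (k8 c4431 c4350 c791 c608 c4570 c1022 c11030 c912 (k8 c4554 c4433 c1023 c1030 c2764 c1031 c764 c4389 (k8 c4354 c4353 c4388 c4390 c1187 c55 c9753 c4435 (k8 c4298 c4294 c4292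 c11945 c4488 c12045 c4446 c10705 (k8 c10936 c11863 c9836 c4361 c7514 c7153 c7860 c332 (k1 c7083 k0)))))))) (by decide +kernel)
def c12053 : PP 8 4 T 0x10410000002000000000004000000000040100100004004000000004010050100004000 := rS 0x194aea5d1462be429ecd2cd29b14903c23c5d8eb8a188866d1289b40abb478dd6ebd38ad536994aa4c4e913b904f2ad178950611032c6281769a8d569f880b4381f01164ace5 (k8 c11030 c11764 c63 c12003 c223 c4466 c912 c4468 (k8 c4414 c4415 c4337 c11914 c4431 c12043 c4350 c791 (k8 c608 c4570 c224 c4432 c4554 c500 c4433 c1023 (k8 c4352 c872 c1030 c2764 c1031 c764 c4389 c4387 (k8 c4354 c4353 c4386 c4388 c4390 c55 c9753 c4435 (k8 c4298 c4294 c4467 c11164 c9836 c1450 c4361 c1316 (k8 c7514 c4473 c1782 c333 c10743 c7083 c1227 c10705 (k4 c2122 c10632 c4399 c9591 (k2 c7769 c4573 (k1 c8140 k0)))))))))) (by decide +kernel)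
def c12054 : PP 8 4 T 0x400000002000000000000000000000040100100004000001000004010050000000400 := rS 0xca5752e8a315f214f6696694d8b171e2e090a18627d56a331c4066d1289b40abb1ba457a715a855669b4aa4cee7912a0c1e11032c6281769c65869c4c9055a2d0e0843e022c959ca2f (k8 c4432 c11030 c11764 c63 c12003 c223 c799 c4466 (k8 c912 c4554 c4433 c1031 c12052 c9725 c4368 c11914 (k8 c4431 c12043 c4350 c791 c608 c12051 c4570 c224 (k8 c500 c1023 c1030 c2764 c764 c1187 c7508 c4389 (k8 c4387 c4354 c4352 c4386 c4390 c55 c9753 c4435 (k8 c4298 c4294 c4468 c11648 c4337 c4415 c4414 c12053 (k8 c4329 c12049 c11255 c11340 c4361 c1782 c333 c10743 (k8 c7083 c1227 c10705 c2122 c10632 c4399 c9591 c7769 (k2 c4573 c8140 k0))))))))) (by decide +kernel)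
def c12055 : PP 8 4 T 0x2000000000001000040000000000000040100000000000000000004010061020000008 := rS 0x11c3572491e849466247add6a954989d222d (k8 c912 c4352 c872 c1030 c2764 c4389 c4353 c4388 (k8 c794 c2770 c795 c1680 c3645 c7514 c12049 c9836 (k1 c4467 k0))) (by decide +kernel)
def c12056 : PP 8 4 T 0x40000000000000000000200000000000004000000000000014000 := rS 0x1afd (k2 c4380 c1293 (k1 c4463 k0)) (by decide +kernel)
def c12057 : PP 8 4 T 0x400000002000000000000000000000040100000004000001000004010040000000400 := rS 0x2972895020f0881838210f964ac0258c51a64b (k8 c4434 c11914 c12043 c4350 c12003 c11764 c63 c223 (k8 c799 c4466 c791 c608 c12051 c12056 c224 c11030 (k2 c12055 c12054 k0))) (by decide +kernel)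
def c12058 : PP 8 4 T 0x2400000002000000000000000000501500100500404004000002000000151000000000 := rS 0x14cd0cd422a066d1289b4acd302809768f48af55a2f51aae20e5 (k8 c11030 c4468 c4415 c4337 c4432 c4554 c4354 c4352 (k8 c4388 c4390 c12003 c55 c11914 c11764 c9753 c4435 (k8 c4298 c4294 c11945 c12045 c1483 c10705 c373 c7083 k0))) (by decide +kernel)
def c12059 : PP 8 4 T 0x410000002000000000000000000000040100000004004000000004020050100004000 := rS 0x194aea5d1462be429ecd2cd29b0e329c67b14903c23c5d8eb8a188866d1289b40abb478dd6ebd38ad536994aa4cee413cab50617538bd4a2513a450211032c628d325a8d569f880b4381f01164ace5 (k8 c11030 c11764 c63 c12003 c223 c4466 c912 c4468 (k8 c4414 c4415 c4337 c4434 c11914 c12043 c4350 c791 (k8 c608 c12056 c4352 c872 c224 c10933 c4432 c4558 (k8 c4431 c4570 c4554 c500 c4433 c1023 c1030 c2764 (k8 c1031 c764 c4389 c4387 c4354 c4353 c4386 c4388 (k8 c4390 c55 c9753 c4435 c4298 c4294 c4467 c11164 (k8 c9836 c7949 c4361 c1316 c11342 c4473 c1782 c1790 (k8 c12058 c4368 c9725 c333 c10743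 c7083 c1227 c10705 (k4 c2122 c10632 c4399 c9591 (k2 c7769 c4495 (k1 c8140 k0))))))))))) (by decide +kernel)
def c12060 : PP 8 4 T 0x400000002000000000000000000000040100000004000001000004000050000000400 := rS 0xca5752e8a315f214f6696694d87194e33d8a481e31c18fd3f91e87175c286189f55a8cc71019b44a26d33aec6ebd38ad42ab34da652a77209e55a65008b5ca830ba9c5ea52f8944e9102a041e1103070421f2c95804b18a34c9634 (k8 c12057 c4434 c11914 c12043 c4350 c12003 c11764 c63 (k8 c223 c799 c4466 c791 c608 c12051 c12056 c55 (k8 c4352 c872 c224 c10439 c10933 c4432 c4558 c4431 (k8 c4570 c11030 c912 c28 c9676 c4554 c500 c4433 (k8 c1023 c2764 c1031 c764 c1187 c7508 c4389 c4387 (k8 c4354 c4386 c4390 c920 c9753 c4435 c4298 c4294 (k8 c4468 c11648 c4337 c4415 c4414 c12059 c4329 c11255 (k8 c4361 c4394 c1316 c7096 c10398 c4463 c1447 c11342 (k8 c4473 c1782 c1790 c12058 c4368 c9725 c333 c10743 (k8 c7083 c1227 c10705 c2122 c10632 c4399 c9591 c7769 (k2 c4495 c8140 k0))))))))))) (by decide +kernel)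
def c12061 : PP 8 4 T 0x400000002000000000000000000000040100000004000001000004000040000000400 := rS 0x2e4927582a7c24a3310a0682507b95a6b347a5526270e0843e022c9592314 (k8 c12043 c4352 c11764 c63 c12003 c223 c799 c4466 (k8 c872 c1030 c2764 c4388 c1187 c11914 c11030 c12051 (k8 c224 c12057 c12060 c794 c2770 c795 c1571 c4407 (k4 c1688 c3645 c4548 c11933 k0)))) (by decide +kernel)
def c12062 : PP 8 4 T 0x200000000000000000000000000000800000000a000000000140000000008 := rS 0x35c24b26d (k4 c9753 c63 c4320 c560 (k1 c11888 k0)) (by decide +kernel)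
def c12063 : PP 8 4 T 0x2400000000000000000000000000000500101505404000808000000000000000000000 := rS 0x28aa75f2714abb58a457a71 (k8 c4387 c4354 c4352 c4350 c4390 c12024 c12045 c2122 (k2 c906 c4399 (k1 c7647 k0))) (by decide +kernel)
def c12064 : PP 8 4 T 0x1002000000000180000000000000000800000000900010000000140000101008 := rS 0x18b354d45 (k4 c4452 c549 c2065 c2006 (k1 c11681 k0)) (by decide +kernel)
def c12065 : PP 8 4 T 0x400000002000000000000000000000040100000004000000000004000040000000400 := rS 0x1ae1280419ed0afd2e9781a4d0732448c624c3446a04fae6207514c1426543c9dc5a2704a4c0c954ca6c3815108bc2e4f20b94dad3028043e022caccac8f48add6b14 (k8 c12043 c4389 c4353 c4352 c4388 c11764 c1187 c63 (k8 c12003 c223 c28 c55 c11914 c9753 c11030 c4433 (k8 c4297 c4431 c4432 c799 c7508 c4466 c764 c1031 (k8 c2764 c791 c1030 c1058 c872 c912 c1023 c500 (k8 c12061 c34 c4406 c1599 c1687 c4468 c4548 c4414 (k8 c11255 c9836 c4329 c11453 c4212 c4467 c1726 c250 (k8 c2172 c1448 c225 c1336 c4376 c1495 c12062 c12064 (k4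 c12063 c4439 c1923 c11888 k0)))))))) (by decide +kernel)
def c12066 : PP 8 4 T 0x40000000000040000000040000055000000000000005400005008 := rS 0x3ebf21811 (k4 c342 c4467 c4463 c4379 (k1 c7315 k0)) (by decide +kernel)
def c12067 : PP 8 4 T 0x400000002000000040000000000001200100000000000000000000151008000000000 := rS 0xa5a290d4e33 (k4 c4294 c2011 c1926 c11725 (k2 c11724 c4568 k0)) (by decide +kernel)
def c12068 : PP 8 4 T 0x400000002000000040000140001401501500000000000000000000151000000000000 := rS 0x14843 (k2 c4567 c11945 (k1 c11724 k0)) (by decide +kernel)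
def c12069 : PP 8 4 T 0x2200000000000000000000000000000050100000000000000000804000010000000000 := rS 0xa15ca456a9f (k4 c4414 c4389 c4352 c1316 (k2 c1584 c11255 k0)) (by decide +kernel)
def c12070 : PP 8 4 T 0x2400000002000000000000000000000040100000000001001000004000140000004800 := rS 0x421146b3494c323c2184c769b2411e86c7868993eab319fd12878819546155686c5e1768944b66d6999d1e915b8c44a9302834e29d1988d2a2910008ace5 (k8 c11030 c11764 c12003 c302 c2776 c12015 c2775 c4294 (k8 c966 c4387 c568 c55 c12021 c2243 c2245 c4353 (k8 c4352 c4388 c920 c11914 c9753 c92 c4435 c4298 (k8 c4431 c4432 c4292 c4554 c382 c9384 c11930 c4468 (k8 c9141 c7030 c7517 c11648 c4415 c4414 c12066 c4324 (k8 c408 c11164 c12069 c4473 c11352 c1722 c1719 c4567 (k8 c11353 c308 c332 c7083 c7865 c2109 c4479 c4322 k0))))))) (by decide +kernel)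
def c12071 : PP 8 4 T 0x2000000000001000040000010000000040100000104000009000000000205400045008 := rS 0x50c9054fb25430c0881566b1 (k8 c4350 c1187 c55 c342 c4467 c894 c10573 c4384 (k4 c9531 c11970 c4464 c550 k0)) (by decide +kernel)
def c12072 : PP 8 4 T 0x2100000000001000040000010400000054000000104040001001001000010000140808 := rS 0x6304190737ec10c67f5883c1a71 (k8 c4387 c568 c305 c4350 c7517 c11648 c7079 c7058 (k4 c4408 c8522 c4463 c11341 (k1 c2373 k0))) (by decide +kernel)
def c12073 : PP 8 4 T 0x2010000000001000040040000000040050100000004008008000000000200000000808 := rS 0x117e97942590298566b148add6a2007834e23d3ac44b649 (k8 c369 c92 c4332 c11025 c329 c4387 c568 c305 (k8 c302 c4389 c4353 c4352 c4350 c1187 c881 c55 (k4 c63 c895 c11873 c7056 (k2 c542 c4463 k0)))) (by decide +kernel)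
def c12074 : PP 8 4 T 0x400000002000000040000000000001400100000000000000010000151000000000000 := rS 0x17e43 (k2 c4567 c5760 (k1 c10063 k0)) (by decide +kernel)
def c12075 : PP 8 4 T 0x2400000002000000000000000000040040100000004000001000000010240000000800 := rS 0x42864f09a4193540116318828492586c2e4f2299d66391b824629302a755e331ec344c133a96d73114a8a44620069c41e250134cace5 (k8 c11030 c11764 c11914 c12003 c2243 c305 c4387 c568 (k8 c302 c2775 c2776 c12015 c4332 c6781 c92 c11025 (k8 c7061 c12071 c4324 c329 c4294 c982 c966 c55 (k8 c12021 c2245 c84 c4386 c4348 c1187 c920 c4296 (k8 c4297 c4431 c4292 c4434 c369 c12072 c383 c12073 (k8 c2373 c409 c11750 c4570 c12074 c805 c1959 c10218 (k1 c4682 k0))))))) (by decide +kernel)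
def c12076 : PP 8 4 T 0x400000002000000040000140001011505500000000000000002005551000000000000 := rS 0xcd292998a43 (k4 c4567 c7718 c12068 c11242 (k2 c2067 c373 k0)) (by decide +kernel)
def c12077 : PP 8 4 T 0x400000002000000000000000000000040100100004000001000004010040000000000 := rS 0x53d15984c2922cf09a0ca94205c7e97cfe891d854906350a89321733acd76b1478e46e915baf4629302a747b0d5489826752dae62295148b0c22310034e20f1282a280269959ca33 (k8 c4294 c11030 c11764 c11914 c12003 c12043 c12065 c2243 (k8 c305 c4387 c568 c302 c2775 c881 c12070 c2776 (k8 c12015 c4332 c6781 c92 c11025 c7061 c12071 c974 (k8 c4324 c329 c966 c55 c12021 c2245 c4354 c4353 (k8 c4352 c4386 c4348 c4388 c4350 c4390 c1187 c920 (k8 c4431 c12067 c12075 c161 c2804 c935 c383 c1722 (k8 c7030 c7517 c1465 c7058 c4477 c4463 c1341 c349 (k8 c12076 c805 c604 c11828 c372 c373 c4451 c2067 (k1 c4568 k0))))))))) (by decide +kernel)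
def c12078 : PP 8 4 T 0x2000000000001000040040000000040044100000004000009000000000200000000808 := rS 0x1431924ceb31ec344c133a96d73114a8a44620069c41e25 (k8 c2243 c305 c4387 c568 c302 c2775 c2776 c12015 (k8 c4332 c6781 c92 c11025 c7061 c12071 c4324 c329 (k4 c1187 c920 c369 c12073 (k2 c12072 c383 k0)))) (by decide +kernel)
def c12079 : PP 8 4 T 0x400000000000000000000000000110000000000000000000802000004008000000000 := rS 0x53d15984c (k4 c372 c373 c4451 c2067 (k1 c4568 k0)) (by decide +kernel)
def c12080 : PP 8 4 T 0x400000002000000000000000000000040100100004000001000004000040000000000 := rS 0xc521a6cf3094514c32a508171fa5f3fa250e3b0a920c6a250b1c681768944ceb358adcf61b498153a331ec344c133a96d73114a8a45861118801a710789415140134cace5 (k8 c11030 c11764 c11914 c12003 c12043 c12065 c2243 c305 (k8 c4387 c568 c302 c2775 c881 c12070 c2776 c12015 (k8 c4332 c6781 c92 c11025 c7061 c12071 c4324 c329 (k8 c4294 c966 c55 c12021 c4292 c702 c4353 c4350 (k8 c1187 c920 c4435 c4298 c4431 c12077 c1451 c895 (k8 c12078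 c2804 c935 c383 c1722 c9141 c7030 c7517 (k8 c1465 c7058 c4477 c4463 c1341 c349 c12079 c2109 (k4 c4322 c604 c805 c10207 (k2 c7718 c11242 k0))))))))) (by decide +kernel)
def c12081 : PP 8 4 T 0x400000002000000000000000000000040100000004000001000004000040000000000 := rS 0x298ec9a480ca898a4363a6c20794009826755c8f6222c4a92cb6d330aed6e311283d260572834e3144e8cc5223100280456 (k8 c11764 c12003 c12065 c302 c2775 c2776 c4294 c966 (k8 c12043 c4387 c568 c11030 c55 c12021 c305 c2243 (k8 c2245 c4353 c4390 c881 c11914 c92 c4434 c12015 (k8 c12070 c4332 c329 c6781 c11025 c7061 c12071 c12080 (k8 c1962 c12056 c805 c2373 c4567 c7718 c12078 c308 (k4 c935 c1894 c1722 c372 (k1 c11242 k0))))))) (by decide +kernel)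
def c12082 : PP 8 4 T 0x400000002000000000000000000000040100000004000000000004000040000000000 := rS 0x49a1a043211502fc86ae4fae5371051ab48ec94ab1ce43c458b4a65414a743a0d4983c6220038296a71488dd1eb15dc516667178cda2517296da6050f808b256 (k8 c11764 c63 c12003 c223 c55 c11914 c92 c11030 (k8 c4435 c4298 c4294 c4432 c920 c1187 c12043 c4390 (k8 c4350 c4388 c4386 c4352 c4387 c4389 c12065 c83 (k8 c302 c2245 c305 c12021 c568 c791 c966 c2776 (k8 c12081 c9029 c247 c1766 c306 c307 c2250 c7046 (k8 c1727 c1603 c4554 c9384 c4468 c11122 c1085 c11776 (k8 c7769 c4567 c5760 c11255 c7776 c308 c9803 c4423 (k2 c10608 c4473 k0)))))))) (by decide +kernel)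
def c12083 : PP 8 4 T 0x1000000000000000040000000000000000000000004000008000000000000000008108 := rS 0x16027119640261 (k4 c881 c28 c63 c1328 (k2 c239 c10635 (k1 c10634 k0))) (by decide +kernel)
def c12084 : PP 8 4 T 0x1400000002000000000005000400001580514001544000000000000100045400000000 := rS 0x17834359a21243454618a7b209b55ea717a94965d58964ac0248aee18d3 (k8 c11914 c4467 c4825 c4328 c12003 c11764 c63 c10634 (k8 c4628 c4434 c10933 c4432 c4558 c4631 c9753 c4433 (k8 c1226 c1252 c4488 c2123 c4446 c4322 c11588 c565 (k2 c12007 c7780 (k1 c1039 k0))))) (by decide +kernel)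
def c12085 : PP 8 4 T 0x400000000000000040005000402040080014001540000008000000000000404004000 := rS 0x22cf6c534ab4daaf (k8 c4631 c9753 c948 c10936 c1253 c1227 c11588 c2123 k0) (by decide +kernel)
def c12086 : PP 8 4 T 0x1400000002000000000000000000040000100000004000000000004000044000000400 := rS 0xd218182a58cb838ad469194e2ed230c58adc461b028f5369947b0d82393b904f28728a242a172a9fcfb0439818eab31d085262c8b83d4e2f52b4c4a090e259ca0101164ac4b (k8 c4434 c11764 c63 c12003 c28 c11030 c12082 c11617 (k8 c1058 c11879 c11914 c10933 c4432 c4558 c12083 c4360 (k8 c11783 c158 c799 c7177 c3026 c1575 c791 c3001 (k8 c4481 c4409 c4313 c8995 c4431 c648 c7030 c4435 (k8 c9141 c500 c4433 c1023 c3156 c1580 c1047 c2763 (k8 c1031 c764 c328 c55 c4292 c914 c1166 c10634 (k8 c4467 c4328 c4825 c12084 c4368 c12006 c7883 c1304 (k4 c4088 c11342 c12085 c11713 (k2 c228 c1879 (k1 c4654 k0)))))))))) (by decide +kernel)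
def c12087 : PP 8 4 T 0x40000000000000002000000000000000000000000005000000008 := rS 0x470d (k2 c4328 c2766 (k1 c4467 k0)) (by decide +kernel)
def c12088 : PP 8 4 T 0x400000000000000040005020442000000014001540000008000000000000404004000 := rS 0x18a8b3db34d26d (k4 c9753 c10936 c1484 c1227 (k2 c11588 c1255 (k1 c2123 k0))) (by decide +kernel)
def c12089 : PP 8 4 T 0x1400000002000000000000000000000000100000004000000000004000044000000400 := rS 0x690c0c153194e08d8c5d5c2c522b5a1a894aa72586c0aaf1ea6c5e99479d586c11c9dc827939a1ca2890aacc2e551d085260616094b20f048712ce500809a656 (k8 c11764 c11914 c12003 c28 c11030 c12082 c11617 c1058 (k8 c12083 c63 c11879 c11783 c791 c158 c799 c7177 (k8 c8995 c4431 c3026 c648 c7030 c4435 c9141 c3001 (k8 c500 c4433 c1023 c3156 c1580 c1047 c1575 c2763 (k8 c1031 c4432 c764 c328 c4631 c55 c4292 c4434 (k8 c4558 c10933 c12086 c4393 c1435 c12087 c1147 c4793 (k8 c4628 c11342 c792 c12084 c4368 c12088 c11713 c228 (k2 c1879 c4654 k0)))))))) (by decide +kernel)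
def c12090 : PP 8 4 T 0x10080000000044000008000000800008020000400 := rS 0x172b138ad56ec9480d1470d30c44fe7d821d56717 (k8 c4360 c3026 c1575 c4481 c4409 c4313 c4336 c881 (k8 c4324 c2939 c873 c872 c7497 c1166 c7883 c1304 (k2 c3018 c3032 (k1 c2121 k0)))) (by decide +kernel)
def c12091 : PP 8 4 T 0x6500000002000000040000000040050000014001544000008000000800204000018010 := rS 0x404658883459ecd2a553b3c4b0c6327e86c85ca146a4f729b4c2c320b04a27d822cc92bb58adce223 (k8 c914 c4387 c4353 c4350 c4390 c368 c3026 c4481 (k8 c4409 c4435 c1580 c4433 c1047 c881 c9753 c11030 (k8 c4297 c1329 c1495 c1045 c7081 c4422 c1665 c8024 (k8 c7497 c395 c1519 c4330 c4385 c10793 c1227 c11588 (k4 c11339 c2123 c9062 c9063 (k1 c7000 k0)))))) (by decide +kernel)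
def c12092 : PP 8 4 T 0x400000002000000000000000000040000100000004000000000004000040000000400 := rS 0x119348613830632954ea95c0941e232586da60557c447a9b17a651e6731b0d8277209e50e51448542e553ec10eab38b84576915ead6282739819423a10a4c581c013952c56 (k8 c11764 c12082 c11030 c12003 c11617 c11783 c158 c799 (k8 c7177 c2901 c791 c3001 c12090 c12089 c4389 c4354 (k8 c4352 c4390 c342 c4360 c3026 c1575 c4481 c4409 (k8 c8995 c4431 c648 c7030 c4435 c9141 c500 c4433 (k8 c1023 c1580 c1047 c2798 c2924 c2763 c1031 c4432 (k8 c764 c328 c4336 c4631 c55 c11914 c4292 c4434 (k8 c914 c12091 c224 c11735 c12085 c4558 c10933 c11342 (k4 c11713 c11945 c228 c1879 (k2 c4368 c4654 k0))))))))) (by decide +kernel)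
def c12093 : PP 8 4 T 0x400000000002400200002000000040000000040000000014001544000008001000800005000008011 := rS 0x20232c441b3d167b632e4d24711a146a4f729b5864160945667d5dac56e71538bd4a4b (k8 c4434 c10933 c4432 c4558 c4387 c4353 c4350 c4390 (k8 c4409 c3026 c4435 c1580 c4433 c1047 c9753 c11030 (k8 c4297 c1329 c1495 c1328 c1331 c10793 c1045 c4473 (k8 c1227 c11588 c1519 c11339 c2123 c9062 c9063 c7000 k0)))) (by decide +kernel)
def c12094 : PP 8 4 T 0x6000000000000000040000010400000000000000144000000001000000000000014000 := rS 0x35fac8822dce2b5 (k8 c4389 c4387 c4353 c4481 c7081 c8860 c507 c4463 k0) (by decide +kernel)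
def c12095 : PP 8 4 T 0x400000002000000000000000000000000100000004000000000004000040000000400 := rS 0x1193486138305488d8c475c03d4aa712d0d44bd48aee28490889e0889439cc2a793b95566c1619d5420647a65363d1d070424b0d8bc2e4128959a605008095e938b8b12ce5 (k8 c11030 c12082 c11783 c4360 c158 c4631 c12003 c28 (k8 c55 c11914 c11764 c4435 c4433 c4431 c4432 c4292 (k8 c4434 c799 c11617 c7177 c328 c764 c1031 c2763 (k8 c791 c2901 c1575 c1047 c1580 c3026 c8995 c1023 (k8 c500 c648 c3001 c9141 c7030 c4481 c12090 c342 (k8 c368 c12089 c4390 c4352 c4354 c12092 c4393 c1464 (k8 c4558 c10933 c12093 c12094 c1316 c11342 c915 c12088 (k4 c11713 c11945 c228 c1879 (k2 c4368 c4654 k0))))))))) (by decide +kernel)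
def c12096 : PP 8 4 T 0x2000000000010000400000880000000000000009000002000000000000800 := rS 0x11619601e0361768945ca09 (k8 c84 c11030 c4435 c4298 c4431 c4292 c805 c933 (k2 c1959 c605 (k1 c7824 k0))) (by decide +kernel)
def c12097 : PP 8 4 T 0x1400000002000000000000000000000000100000004000000000004000044000000000 := rS 0x345e23d4aa748844962f208244aa9342bc1e236986d77184caad14190981d12170a94c863136a6d666362a74663c10008aa2c728292c56 (k8 c11764 c12082 c12095 c11030 c11783 c2249 c12003 c302 (k8 c927 c4294 c966 c1252 c2801 c1188 c12096 c9753 (k8 c2245 c4567 c332 c2279 c4431 c7030 c83 c1679 (k8 c308 c11828 c1673 c1200 c4488 c4449 c4292 c11914 (k8 c2775 c305 c4631 c11588 c10936 c2243 c84 c4433 (k8 c4432 c4434 c342 c886 c4558 c10933 c12014 c11945 (k2 c12016 c1039 k0))))))) (by decide +kernel)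
def c12098 : PP 8 4 T 0x1400000002000000000000000000000000100000004000000000004000040000000000 := rS 0x324920d08a8c6c9063a3e1a263095a220f509f48e7f8204c0e551605478200525804e5 (k8 c11030 c12003 c12082 c12095 c302 c927 c2279 c11783 (k8 c2249 c83 c1679 c4464 c4313 c8078 c7516 c2904 (k8 c305 c4336 c11764 c881 c12097 c4324 c2778 c409 (k8 c4486 c887 c2942 c2267 c1408 c2274 c7497 c2107 k0)))) (by decide +kernel)
def c12099 : PP 8 4 T 0x40040000000000000000050000000001000400000204000145008 := rS 0x3249211 (k4 c342 c368 c10573 c2107 k0) (by decide +kernel)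
def c12100 : PP 8 4 T 0x100000000001000040040540021051501580000000001001000400000200000145008 := rS 0x14aa72e3350610a1324930d131fe087d (k8 c7516 c4464 c4313 c12099 c4324 c369 c7497 c4473 (k4 c2107 c644 c4395 c343 (k2 c813 c2052 (k1 c2126 k0)))) (by decide +kernel)
def c12101 : PP 8 4 T 0x400000002000000000000000000000000100000004000000000004000040000000000 := rS 0x3f1905d6520d4ccf5297d450d130358e715ea446e8f8a2ee30a956264d0aba5a28a6195f90d367f82224fab3098548ec55098c78234e9541e311001c142c88abd2c1b0b8cdca6d69808c256 (k8 c11764 c881 c12003 c11914 c9753 c11030 c4294 c4431 (k8 c4292 c12082 c4631 c4336 c11783 c12095 c83 c302 (k8 c2245 c305 c2249 c966 c2775 c927 c2801 c2904 (k8 c1252 c8078 c2279 c1679 c1188 c7516 c7030 c4464 (k8 c4313 c12096 c4567 c5760 c308 c332 c11828 c4427 (k8 c1673 c11588 c1200 c4785 c10936 c4488 c4449 c12098 (k8 c4388 c4386 c4352 c4354 c4387 c330 c568 c12099 (k8 c4324 c12100 c1465 c1470 c1523 c2126 c645 c941 (k4 c813 c1752 c4477 c4305 k0))))))))) (by decide +kernel)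
def c12102 : PP 8 4 T 0x8000008000000000000008 := rS 0x421d0581c3e59 (k4 c63 c223 c11031 c2364 (k2 c791 c799 (k1 c4466 k0))) (by decide +kernel)
def c12103 : PP 8 4 T 0x1400000002000000000000000000000040100000000000000000000000040000000400 := rS 0x26aa596196652d88c1618e87acf63124aa298218cea7323d0e2eb8518b5662f279046651729b5fa8f2d8dd26395b845620d04ad468a14aa7e187b34a95a64b13984460e00a9d7a9103070421f2c894be6e1f8140456 (k8 c11764 c12003 c55 c12102 c12101 c1377 c225 c63 (k8 c223 c799 c4466 c791 c2998 c3000 c4500 c28 (k8 c1020 c1328 c2883 c239 c4434 c11914 c10933 c10793 (k8 c1227 c11620 c4384 c2764 c4551 c1019 c7883 c1058 (k8 c1290 c123 c608 c2999 c3073 c1030 c1344 c92 (k8 c1346 c4378 c9753 c11030 c4435 c4294 c4433 c4297 (k8 c4432 c1187 c912 c11931 c2125 c4361 c4394 c1316 (k8 c3002 c8656 c7153 c4481 c794 c4406 c242 c2110 (k8 c1519 c330 c1452 c9009 c1580 c11892 c4429 c1255 (k4 c7523 c1756 c7105 c2063 (k1 c4639 k0))))))))))) (by decide +kernel)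
def c12104 : PP 8 4 T 0x1400000002000000000000000000000000100000000000000000000000040000000400 := rS 0x2e686cd512a09a310cab156c444a1c2ac161accaa631d1d51673160a622af4b1ecd2a51388d4eb5488397a343c9dd2667308183821258bc2e4f208cca2e536b4c0a010f9644a5f370fcac02 (k8 c12003 c11764 c12102 c12101 c1377 c225 c63 c223 (k8 c28 c55 c11914 c9753 c11030 c4435 c4294 c4433 (k8 c4297 c4431 c4432 c4434 c799 c4466 c791 c2883 (k8 c2924 c1030 c1023 c500 c1019 c3000 c1020 c2998 (k8 c7883 c4500 c1328 c239 c10933 c10793 c1227 c12103 (k8 c4631 c4336 c2769 c11783 c1084 c11588 c7271 c913 (k8 c2798 c247 c3027 c1047 c1580 c383 c10041 c7030 (k8 c2123 c1674 c1253 c7523 c397 c244 c2111 c948 (k4 c1484 c4393 c1255 c4793 k0))))))))) (by decide +kernel)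
def c12105 : PP 8 4 T 0x2000000000000000002014000000000000000000011400001155600000000 := rS 0xcd6328dcb45 (k4 c4398 c11030 c9384 c2110 (k2 c1483 c11601 k0)) (by decide +kernel)
def c12106 : PP 8 4 T 0x1100000000001000000000000000040055500000008000000000005000000000008800 := rS 0x3e8516cb11a81d72b5 (k8 c7420 c6781 c83 c1330 c123 c10674 c11834 c1627 (k1 c387 k0)) (by decide +kernel)
def c12107 : PP 8 4 T 0x1400000002000000000000000000000040100000000000000000000000040000000000 := rS 0x15a5244b3d0e156318cfb435104d723d0d85da25158a4dca1988a54aa6745abc58a8258bc9e471b1249a9f508a462333483822d30489d4a2353c312261100291e5b1297cdc3f02808da56 (k8 c11764 c9753 c12003 c55 c12102 c12101 c1377 c225 (k8 c92 c1346 c12104 c302 c2885 c1076 c4486 c4330 (k8 c2775 c4385 c4324 c84 c11914 c342 c10992 c10793 (k8 c4294 c2245 c2776 c4329 c4384 c2248 c2247 c304 (k8 c3329 c4297 c4432 c4434 c2111 c12105 c982 c11588 (k8 c2926 c247 c2781 c4332 c10711 c11030 c12021 c123 (k8 c4435 c4298 c4431 c4292 c329 c6781 c7061 c12106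 (k8 c4393 c1354 c7471 c4473 c387 c10041 c1519 c7030 (k2 c2109 c949 (k1 c11686 k0)))))))))) (by decide +kernel)
def c12108 : PP 8 4 T 0x1400000002000000000000000000000000100000000000000000000000040000000000 := rS 0x44a1ca6130a98c7896459555e2c218655047349249a36070454a9f53a844f0c48984466714a7462200481c144b0d8bc2e4f19b44a2e52c9b5a6054796c4a5f370fcac02 (k8 c12003 c11764 c12102 c12101 c1377 c225 c92 c1346 (k8 c55 c11914 c9753 c63 c11030 c4435 c4298 c4294 (k8 c4297 c4431 c4432 c4292 c4434 c12104 c83 c84 (k8 c302 c2245 c966 c2776 c2926 c2775 c2885 c1076 (k8 c4486 c4324 c4329 c4330 c4384 c4385 c342 c10992 (k8 c304 c2248 c2247 c10793 c3329 c2111 c10711 c10552 (k8 c12105 c982 c247 c11588 c12107 c927 c2801 c2279 (k4 c1679 c332 c10041 c7030 (k1 c2109 k0))))))))) (by decide +kernel)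
def c12109 : PP 8 4 T 0x400000002000000000000000000000000100000000000000000000000140000000400 := rS 0x2a49a316586696c460b0c743d67b18925514c10c6753991e87175c2cd4697279046651729b5fa8f2d8dd6eb54aa4c68115883412a14fc30c27b34a9496230701802a713870421f2ca46282f69894be6e1f8140456 (k8 c11764 c12003 c55 c12102 c12101 c1377 c225 c11914 (k8 c4432 c12108 c4352 c63 c223 c799 c4466 c872 (k8 c4558 c28 c791 c1020 c1328 c4434 c10933 c10793 (k8 c1227 c880 c11620 c4384 c4329 c1058 c1290 c123 (k8 c608 c1019 c1030 c2764 c4389 c4353 c4386 c92 (k8 c1346 c4378 c9753 c11030 c4435 c4294 c4433 c4297 (k8 c11783 c11410 c1187 c2125 c4361 c4394 c1316 c3002 (k8 c8656 c7153 c4481 c794 c4406 c242 c2110 c1519 (k8 c330 c1452 c9009 c1580 c11892 c4429 c7523 c1756 (k4 c228 c244 c7105 c2111 k0)))))))))) (by decide +kernel)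
def c12110 : PP 8 4 T 0x400000002000000000000000000000000100000000000000000000000040000000400 := rS 0x31e86ce512a09a3123ab0329c3eb12330444a1c2ac161acce717459d49255318e92caf888a4587b3488d4aa7071e4ee2733819329b0e084962f0b93c823328b94dad3028043e591297cdc3f2b0092314 (k8 c12108 c4352 c12003 c11764 c12102 c12101 c1377 c225 (k8 c63 c223 c28 c55 c11914 c9753 c11030 c4435 (k8 c4294 c4433 c4297 c4431 c4432 c4434 c799 c4466 (k8 c764 c1031 c791 c2924 c872 c1023 c500 c1020 (k8 c4558 c10933 c1328 c10793 c1227 c12109 c142 c4332 (k8 c982 c912 c913 c2798 c247 c2159 c7271 c11588 (k8 c4360 c1084 c3027 c1047 c1580 c383 c10041 c7030 (k8 c4481 c9062 c2123 c4409 c4488 c4654 c1253 c1331 (k8 c228 c244 c2111 c948 c949 c4393 c1519 c4473 k0))))))))) (by decide +kernel)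
def c12111 : PP 8 4 T 0x400000002000000000000000000000000100000000000000000000000140000000000 := rS 0x27c90751e440a8a34b985229302b9452202e0401e378a34c120a370fcac02 (k8 c12003 c11764 c12102 c12101 c12110 c84 c11914 c12108 (k8 c4386 c304 c10992 c343 c302 c2776 c11030 c55 (k8 c12021 c4352 c880 c11783 c9384 c12070 c4468 c306 (k4 c1687 c346 c4414 c9046 k0)))) (by decide +kernel)
def c12112 : PP 8 4 T 0x1000000000000000008000000000100000600000001000000000000808 := rS 0x82854f863 (k4 c1611 c1339 c383 c4409 (k1 c7079 k0)) (by decide +kernel)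
def c12113 : PP 8 4 T 0x400000002000000000000000000200040100000000000000000000000040000000000 := rS 0x14d8a435526c629d100cc76485127cea3d2e17e1a8f2da4542c75cc452a2c49815ca260803c6ed304828dc3f2b0096f14 (k8 c12108 c4353 c12003 c11764 c12102 c12101 c12110 c84 (k8 c11914 c4386 c304 c10992 c342 c11030 c55 c12021 (k8 c12111 c2781 c4332 c6781 c2373 c895 c4352 c92 (k8 c1346 c4324 c1377 c343 c329 c11025 c12112 c5931 (k8 c935 c1722 c4294 c302 c966 c2245 c1971 c1470 (k4 c4567 c7718 c1942 c11242 k0)))))) (by decide +kernel)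
def c12114 : PP 8 4 T 0x400000002000000000000000040001000000004100000009400005400000001140000 := rS 0x4653699219e4d10945164dac320a242ee5 (k8 c11030 c4431 c7030 c4433 c9009 c9753 c63 c11828 (k8 c4322 c11588 c604 c10207 c1881 c805 c9828 c4488 k0)) (by decide +kernel)
def c12115 : PP 8 4 T 0x400000000000000000000000000001000000000000000040000000001000002000800 := rS 0x268ec42 (k4 c308 c309 c4567 c1889 k0) (by decide +kernel)
def c12116 : PP 8 4 T 0x400000002000000000000000000000040100000000000000000000000040000000000 := rS 0x531d85490635127d4a133aae47a5f47a456e7b0da4c0ae52e4344d1157a54aa67508b18e10078de28d3049b87e194e880663101028b656 (k8 c11764 c92 c12110 c12003 c2245 c4294 c302 c966 (k8 c12115 c12102 c12101 c84 c11914 c12108 c4386 c304 (k8 c10992 c2373 c12111 c895 c2926 c247 c2781 c982 (k8 c4332 c342 c4324 c343 c11030 c55 c12021 c4292 (k8 c702 c4353 c4352 c1346 c1377 c329 c6781 c11025 (k8 c7061 c12113 c12112 c5931 c2804 c935 c383 c1722 (k2 c12079 c12114 k0))))))) (by decide +kernel)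
def c12117 : PP 8 4 T 0x400000002000000000000000000000000100000000000000000000000040000000000 := rS 0x29944a556265966855d2d14535f90d129b5984c2a476298c78960ca84aaaf888b1522663a1420674e83c1a31100240e0a30af522375dc511e5f389b87e026986c2e337296cda56 (k8 c11764 c9753 c92 c11030 c4294 c4431 c4292 c11914 (k8 c12003 c12102 c12101 c94 c1377 c1346 c12108 c4390 (k8 c4386 c4352 c4354 c880 c12110 c83 c84 c302 (k8 c2245 c568 c304 c966 c2926 c10992 c710 c2373 (k8 c342 c974 c12111 c4332 c982 c247 c895 c12115 (k8 c12116 c927 c2801 c1252 c8078 c2279 c1679 c1188 (k8 c12096 c7030 c4567 c5760 c332 c11828 c4427 c1673 (k8 c11588 c1753 c1200 c4785 c1883 c12100 c11945 c941 k0)))))))) (by decide +kernel)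
def c12118 : PP 8 4 T 0x1400000002000000080004010000040050114000104000000000000000000000008204 := rS 0x20a9d5b458eebb52a458a9345a9d325d8626d1e1c349ac00055fb246c705888c722f0b9b622af6881cf64559984acfd2f9fd8e2a (k8 c12117 c291 c1455 c1376 c4376 c11764 c881 c1187 (k8 c4296 c1224 c1018 c4298 c1774 c4411 c9753 c4431 (k8 c4432 c4280 c4372 c1145 c4480 c1415 c586 c3487 (k8 c2187 c4461 c492 c756 c750 c2709 c2711 c11821 (k8 c752 c1072 c4532 c11588 c3050 c8820 c4328 c4385 (k4 c4825 c11833 c4487 c10674 (k2 c11805 c11277 (k1 c5279 k0)))))))) (by decide +kernel)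
def c12119 : PP 8 4 T 0x2000000001040000000200000000000000000000001000000084000000000 := rS 0x5223b2d9ead2688c964f28abda2a1 (k8 c1734 c4298 c1774 c4435 c4297 c4434 c1301 c1935 (k4 c2052 c1406 c1941 c1643 (k2 c2116 c293 k0))) (by decide +kernel)
def c12120 : PP 8 4 T 0x1000000000001000040040000000040051100000004000008001005000000000008204 := rS 0x24d1e1c002d40a471b2dce03958bf57235 (k8 c1059 c7514 c4376 c1147 c241 c4480 c9550 c4470 (k8 c3393 c2187 c7513 c4461 c750 c2709 c3050 c7468 k0)) (by decide +kernel)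
def c12121 : PP 8 4 T 0x2000000004001010000000000000000008004 := rS 0x1160012e435fa5f (k8 c1376 c4376 c4328 c4477 c2712 c809 c4461 c10032 k0) (by decide +kernel)
def c12122 : PP 8 4 T 0x1400000002000000000000000000040040114000104000000001001000000000008204 := rS 0x1a6c748984b2564ab0c82b9728d47e2a (k8 c12117 c289 c1059 c11030 c7514 c4433 c9009 c1694 (k4 c11764 c63 c881 c12121 (k2 c291 c12118 (k1 c12120 k0)))) (by decide +kernel)
def c12123 : PP 8 4 T 0x800080000000200 := rS 0x1241c (k2 c1641 c1640 (k1 c3050 k0)) (by decide +kernel)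
def c12124 : PP 8 4 T 0x1000000000000000000000000000080000001000000000080000100000 := rS 0x2705 (k2 c4408 c3575 (k1 c4464 k0)) (by decide +kernel)
def c12125 : PP 8 4 T 0x1400000002000000000000000000040040100000000000001000000000000000008404 := rS 0x475b8e46e8f3716d8e1124a1ca2890b9d572355ac587a3f1d9cc2a080395854e5 (k8 c11030 c12117 c11764 c1018 c4462 c2220 c12124 c12123 (k8 c289 c234 c4471 c4419 c1330 c7514 c11627 c4431 (k8 c7030 c4435 c9141 c242 c113 c291 c92 c12122 (k4 c1346 c1344 c1074 c1077 (k2 c7823 c8302 k0))))) (by decide +kernel)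
def c12126 : PP 8 4 T 0x400000002000000000000000000040040100000000000001000000000000000008404 := rS 0x119193cb7488dc728f8a24ce6b550c597295248f5ca151d8207ec7150d40e56 (k8 c11764 c1018 c1330 c12117 c291 c289 c4462 c12123 (k8 c2220 c11030 c234 c242 c1694 c7514 c4471 c1734 (k8 c4419 c12124 c1069 c12125 c4388 c4348 c4386 c4352 (k4 c4353 c2125 c2113 c3311 (k1 c1643 k0))))) (by decide +kernel)
def c12127 : PP 8 4 T 0x400000002000000000000000000040040100000000000000000000000000000008404 := rS 0x16cb55cac59239248dc7a1e310108e6582950fe357e835cb111d8200e672b0fd8e2a (k8 c12117 c291 c289 c11764 c920 c1018 c4462 c12123 (k8 c4411 c11030 c32 c4376 c1330 c1455 c12126 c4406 (k8 c1647 c1603 c4191 c4478 c262 c2188 c2187 c2191 (k4 c2190 c3655 c3161 c7514 (k2 c7513 c2113 (k1 c5279 k0)))))) (by decide +kernel)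
def c12128 : PP 8 4 T 0x1400000002000000080000000000040000000000004000009001004000080100004200 := rS 0x817ec210a6935aed4a2553a44010c0910d6c7f648648e0d1c8bc2e5b36c442a375cb1d4235089f562b58b0f5ca3b (k8 c12123 c11030 c234 c4471 c4419 c1146 c8975 c345 (k8 c1059 c1734 c291 c11342 c232 c2220 c4411 c9753 (k8 c92 c4431 c4432 c4280 c4371 c4374 c7626 c7550 (k8 c7517 c2113 c236 c9509 c5964 c1639 c4328 c4330 (k8 c4381 c4385 c4825 c492 c756 c5976 c4479 c11065 (k2 c4439 c11781 k0)))))) (by decide +kernel)
def c12129 : PP 8 4 T 0x1000000000001000040000011000040051100010000000009001000200080100114004 := rS 0x232d8fe8f0684c081e00874b2933989d92c7 (k8 c291 c8024 c354 c12124 c1069 c63 c1139 c750 (k8 c4466 c4461 c1639 c9820 c9056 c7517 c7468 c2107 (k1 c3581 k0))) (by decide +kernel)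
def c12130 : PP 8 4 T 0x1400000002000000040000000000000040400000004000009000000000080000084600 := rS 0x4e3155a430fa15361c349ac0a001785c8245289b4531157b446eb1499cc2ac18b0f5ca3f1d9846a11 (k8 c345 c1059 c881 c12123 c289 c11030 c234 c4471 (k8 c4420 c2220 c12124 c1069 c1146 c232 c4298 c1774 (k8 c4411 c59 c9753 c4435 c4296 c4433 c4431 c4432 (k8 c1639 c531 c492 c756 c750 c2711 c5976 c1066 (k4 c8832 c10622 c8820 c11271 (k1 c7615 k0)))))) (by decide +kernel)
def c12131 : PP 8 4 T 0x40000011100050050500050140005108000400200004000040414 := rS 0xfd2f894ca1c0f800ce93 (k8 c1069 c920 c4461 c1066 c750 c490 c280 c4647 (k2 c10398 c7622 k0)) (by decide +kernel)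
def c12132 : PP 8 4 T 0x1000000000001000040040011000050050500010140005109001400200004000154404 := rS 0x3c0102030ff42588200ec9 (k8 c8024 c1018 c4462 c1146 c4473 c4392 c2107 c12131 (k2 c54 c262 (k1 c9820 k0))) (by decide +kernel)
def c12133 : PP 8 4 T 0x1400000002000000000000000000040040100000004000001001000000000000000404 := rS 0x2b48665429a4d6006287136222304cba8f480e1a67d088d4c22f0b914a26d16c455ed11099c6eb10798d2ac3209d572c7499cc2ab560c587ae51f8ec10072b09d422a (k8 c12117 c1734 c354 c11764 c1018 c4462 c12123 c289 (k8 c11030 c234 c4471 c4420 c4419 c2220 c12124 c1069 (k8 c291 c11342 c11627 c4433 c9009 c1694 c1606 c12127 (k8 c1146 c232 c920 c799 c4298 c1774 c4411 c143 (k8 c9753 c4435 c4296 c4431 c4432 c881 c1059 c345 (k8 c8975 c12128 c4470 c12129 c130 c809 c12130 c12132 (k8 c1643 c2737 c768 c8820 c1058 c492 c756 c5976 (k4 c490 c8832 c10622 c9712 k0)))))))) (by decide +kernel)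
def c12134 : PP 8 4 T 0x1400000002000000000000000000040040100000000000001001000000000000000404 := rS 0x471c88c38353007d20b7479b84e5b888846e0f4aae58e93398556b161eb947e3b0401cac2a (k8 c12117 c11764 c1018 c4462 c12123 c289 c11030 c234 (k8 c4471 c4419 c2220 c12124 c1069 c291 c11342 c1694 (k8 c12127 c232 c799 c4411 c92 c354 c12133 c1346 (k8 c1077 c10674 c3074 c1076 c1036 c4466 c2733 c3073 (k2 c1643 c8302 k0))))) (by decide +kernel)
def c12135 : PP 8 4 T 0x1420200002000000000000440000501140414000100400008000005400105480000220 := rS 0x42114523ba6e30791796cdab361905ca43 (k8 c2189 c11030 c4433 c9009 c1187 c9753 c92 c4432 (k8 c11643 c10455 c805 c9834 c9828 c9062 c9826 c4322 k0)) (by decide +kernel)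
def c12136 : PP 8 4 T 0x400000002000000000000400001500541500000000000001002000000000800000220 := rS 0x6694978c52294622af68a558641499cc2a5660c587ae51f8ec5443 (k8 c2189 c12117 c12123 c289 c11030 c234 c4471 c4420 (k8 c11764 c2220 c12124 c1069 c4433 c9009 c1694 c4298 (k8 c1774 c4411 c4435 c4296 c8820 c10131 c2115 c6588 (k1 c373 k0)))) (by decide +kernel)
def c12137 : PP 8 4 T 0x1400000002000000000000000000040041100000104000001002000000000100004204 := rS 0x530ca2e12313c1a13422549ad334b5dab14aa7824311e431384c081e00a744a1d0d8bcb25616c455ed11da1ca2890b85586411f8a9ca8108b4c96bf1c0d47a45 (k8 c4296 c234 c1059 c4209 c1240 c4434 c4281 c345 (k8 c12056 c11030 c12117 c289 c4433 c9009 c2220 c4431 (k8 c7030 c4435 c9141 c12123 c4298 c1774 c4411 c143 (k8 c11764 c63 c4432 c4292 c1139 c281 c10547 c750 (k8 c4466 c4461 c1639 c353 c2189 c9056 c9821 c4464 (k8 c4558 c10933 c11271 c10310 c4458 c2050 c2048 c948 (k8 c12135 c12136 c804 c805 c1966 c4437 c604 c1958 (k2 c292 c9918 k0)))))))) (by decide +kernel)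
def c12138 : PP 8 4 T 0x400000002000000000100000000020000000000100000009002004200080100040200 := rS 0x3400430c44e8103a5321878ca231206cda2957b44f6454394512170ab0c82c18b0f5ca3b (k8 c12123 c11030 c234 c4471 c4420 c4433 c9009 c2220 (k8 c4431 c7030 c4435 c9141 c4296 c1224 c4298 c1774 (k8 c59 c9753 c4292 c1735 c770 c1736 c280 c2215 (k8 c2217 c1140 c1066 c1232 c2115 c12114 c750 c7856 (k1 c7519 k0))))) (by decide +kernel)
def c12139 : PP 8 4 T 0x1400000002000000000000000000040040100000004000001000000000000000000404 := rS 0xe0983e9e12a85921347c352038088d62221079d47a08039587e2a72b4e8648 (k8 c12134 c4421 c4281 c11030 c12117 c289 c11764 c1018 (k8 c4462 c234 c11627 c12127 c799 c4411 c1059 c345 (k8 c4209 c12137 c4328 c130 c12130 c10573 c12138 c283 (k4 c4489 c1154 c1663 c4466 (k1 c873 k0))))) (by decide +kernel)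
def c12140 : PP 8 4 T 0x1400000002000000000000000000040040100000000000001000000000000000000404 := rS 0x2053007d20b7479b9a6482c96e22955c8f58e3f499cc2a08038a9ca56 (k8 c11764 c11030 c12117 c1018 c4462 c2220 c12124 c1069 (k8 c289 c291 c234 c11342 c1694 c4411 c92 c63 (k8 c12134 c4281 c12139 c1346 c1077 c10674 c3074 c1076 (k2 c262 c7428 (k1 c4461 k0))))) (by decide +kernel)
def c12141 : PP 8 4 T 0x2100000000001000000100011500040000000000144044001000000000000000104000 := rS 0x13829f16e71 (k4 c4387 c4353 c11734 c10837 (k2 c1563 c4464 k0)) (by decide +kernel)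
def c12142 : PP 8 4 T 0x2000000000001000000000011500048000100000100041001000000000080000104000 := rS 0x414267c00970dcc986c44c673 (k8 c12124 c1606 c4411 c4384 c1665 c12141 c9688 c753 (k4 c1339 c1639 c4409 c4464 k0)) (by decide +kernel)
def c12143 : PP 8 4 T 0x400000002000000000000000000040040100000000000001000000000000000000404 := rS 0x1906f698d6085d24090270d5027cc21138add223947c516a938b2e4ea953998c7ae50a8ecceb31fb1c54b1078200e56 (k8 c11764 c1018 c4462 c12127 c1146 c12117 c291 c289 (k8 c1187 c920 c12123 c2220 c11030 c234 c1606 c12124 (k8 c1694 c11627 c11342 c4471 c1069 c4419 c12140 c4388 (k8 c4348 c4352 c4353 c4387 c344 c880 c12142 c2125 (k8 c4329 c3661 c1735 c1734 c810 c4464 c1369 c4281 (k2 c9688 c10795 (k1 c10573 k0))))))) (by decide +kernel)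
def c12144 : PP 8 4 T 0x2000000000000000001500000800000004000010000000041000000000420 := rS 0x25690bc9e33 (k4 c4294 c4297 c4432 c10034 (k2 c1423 c6996 k0)) (by decide +kernel)
def c12145 : PP 8 4 T 0x1400100002000000000420101001144045100102104000000000001041000081015420 := rS 0x9885a234d9ebf5dc316c8f53a84b2b32b0fd2a2a (k8 c12117 c1694 c289 c11764 c1187 c63 c4551 c4500 (k8 c12144 c7050 c4486 c10310 c1247 c1797 c11793 c8360 (k2 c603 c10080 (k1 c4451 k0)))) (by decide +kernel)
def c12146 : PP 8 4 T 0x2000000000000000000000002000002000000000000000001000081015000 := rS 0x10a4d69afc4838 (k4 c1153 c1154 c3259 c4280 (k2 c284 c603 (k1 c10080 k0))) (by decide +kernel)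
def c12147 : PP 8 4 T 0x11400100002000000000420100101140044100006404008000000001041000081015420 := rS 0x13e813e9d56a47728fc5491 (k8 c12146 c12117 c289 c11030 c3548 c7513 c3619 c8975 (k2 c7000 c1610 (k1 c12145 k0))) (by decide +kernel)
def c12148 : PP 8 4 T 0x11400100002000000000520100101140044100006400008000000001041004081014420 := rS 0x5ba3cdc910696cac014aae58eb523b947e2a (k8 c12117 c289 c11030 c3548 c7513 c291 c11342 c1694 (k8 c54 c11764 c92 c9820 c12146 c12147 c1346 c1078 (k1 c7468 k0))) (by decide +kernel)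
def c12149 : PP 8 4 T 0x400000002000000000000000000040040100000000000000000000000000000000404 := rS 0x4c5fb3e86485b8e628bd3c294329a18b2d10a93452c22775ab113319562e586951aa748e27218f43c013101126c93294e0a54588dc1ec720945cb1157b44427b228ec1007339587e2a (k8 c12117 c289 c11764 c920 c1018 c4462 c12123 c4296 (k8 c1224 c799 c4298 c1774 c4411 c11030 c4435 c4433 (k8 c291 c12127 c232 c1146 c12143 c4406 c9029 c1647 (k8 c1727 c1070 c4191 c4478 c54 c262 c2188 c2189 (k8 c2309 c3548 c1232 c1099 c1694 c9009 c11342 c11271 (k8 c9828 c4166 c11242 c7513 c9759 c9054 c4458 c820 (k8 c2809 c4903 c2027 c2046 c4488 c7519 c3950 c805 (k8 c9905 c12148 c4348 c4353 c2113 c4421 c1790 c9033 (k2 c11148 c10947 k0))))))))) (by decide +kernel)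
def c12150 : PP 8 4 T 0x1400000002000000000000000000080040000000004000009000000000080000008404 := rS 0x2b538c53ba2c86994d870d26b0f8000a36821c1922f36abda27b2299d66c320b062c3d4a886223f1da1ca2890ba4ce6150401dcafd1cac5227f (k8 c1456 c938 c1147 c241 c4376 c11030 c1018 c4462 (k8 c2220 c12124 c1069 c4431 c7030 c4435 c9141 c12123 (k8 c289 c4411 c799 c2782 c11368 c4471 c4420 c4433 (k8 c9009 c1187 c920 c4296 c1224 c4298 c1774 c9753 (k8 c4432 c7550 c4480 c5380 c1415 c2187 c4461 c1066 (k8 c492 c756 c750 c2711 c1072 c8832 c11588 c11833 (k4 c8820 c11277 c946 c7615 k0))))))) (by decide +kernel)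
def c12151 : PP 8 4 T 0x1400000002000000000000000000000040100000000000001000000000000000008404 := rS 0x958d0c5b8dd1e6e248e46a5b1d8fc8e2d5aac522b91ea554421889cc2a080395854e5 (k8 c11030 c12117 c11764 c1018 c4462 c2220 c12124 c4411 (k8 c799 c12149 c2782 c11368 c6781 c938 c1147 c1436 (k8 c143 c1314 c289 c12123 c92 c1330 c241 c242 (k8 c12150 c1346 c1344 c1077 c4486 c2113 c4381 c290 k0)))) (by decide +kernel)
def c12152 : PP 8 4 T 0x800010100000009000400040080000114004 := rS 0x6931c267f06bf5922500970e063 (k8 c1606 c801 c800 c2709 c1423 c586 c4377 c1288 (k4 c1458 c1639 c290 c4463 (k1 c9509 k0))) (by decide +kernel)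
def c12153 : PP 8 4 T 0x1420000002000000080000000000000005100000004000100000005000000000004204 := rS 0x807ec210a6b348000a430f8642e5b36ac4ac37538954abb (k8 c4825 c4385 c4381 c4330 c232 c11764 c1147 c9753 (k8 c92 c4431 c7626 c11793 c236 c262 c4461 c5130 (k4 c492 c5976 c4479 c11065 (k2 c11781 c4439 k0)))) (by decide +kernel)
def c12154 : PP 8 4 T 0x1400000002000000000000000000000040100000004000001000000000000000000404 := rS 0xa61945c24627834268446b54a66960456078029d8233c861d5f84c903869b1d76a512a9cbb0c478446a1b22abda23ba189c8e2d3e99d62913a96d863d4aa884311208fd0e514485d26730a8a9ca37078200e56 (k8 c11764 c1018 c4462 c12151 c232 c11030 c12117 c2220 (k8 c12124 c1069 c4431 c7030 c4435 c9141 c289 c4433 (k8 c4411 c799 c12149 c2782 c11368 c9009 c92 c11025 (k8 c938 c1147 c920 c1354 c143 c1314 c934 c4393 (k8 c12123 c4298 c1774 c4296 c4292 c1059 c345 c12152 (k8 c4486 c4628 c4330 c4381 c4385 c4825 c290 c12153 (k8 c4470 c4473 c12130 c1240 c1139 c365 c1790 c4464 (k8 c10547 c750 c4466 c11271 c4461 c4458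 c2050 c949 (k8 c2048 c12135 c12136 c804 c805 c1966 c4437 c604 (k2 c1958 c292 (k1 c9918 k0))))))))))) (by decide +kernel)
def c12155 : PP 8 4 T 0x1000000000000000080040015000000000000000000000000000405440000000000000 := rS 0x6a39 (k2 c4280 c4373 (k1 c8302 k0)) (by decide +kernel)
def c12156 : PP 8 4 T 0x400000002000000044000000000500044000000000001408000001000080000004602 := rS 0x2b4a4a86290cba1142a6c3869358bc2e45289b622af68b0c82c18b3947e3b (k8 c12123 c289 c11030 c4471 c4420 c4433 c9009 c4298 (k8 c1774 c4411 c9753 c4435 c4296 c4431 c4432 c492 (k8 c756 c750 c2711 c5976 c606 c753 c8832 c8820 (k4 c8696 c2115 c949 c293 k0)))) (by decide +kernel)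
def c12157 : PP 8 4 T 0x1400000002000000000000000000000040100000000000001000000000000000000404 := rS 0x52458c432774d4657abf54a6470ac1aa74861e0e84c080167921a6bb52a9d8f0c12add1e5f7e9b86e0f0d9b55ed13d9147743489848e2d5aae4ea5b618f52aa210c44823f439451217499cc2a08038a9ca56 (k8 c11764 c11030 c12117 c1018 c4462 c2220 c12124 c1069 (k8 c4431 c7030 c4435 c9141 c289 c4433 c4411 c799 (k8 c12149 c2782 c11368 c9009 c92 c11025 c6781 c1436 (k8 c143 c1314 c2941 c938 c4393 c12123 c4296 c1224 (k8 c4298 c1774 c9753 c4292 c12151 c232 c12154 c4378 (k8 c1377 c1346 c1077 c11222 c4486 c290 c4330 c4385 (k8 c4825 c12155 c4473 c1790 c12156 c4461 c1639 c1058 (k8 c262 c2189 c10547 c1099 c11271 c8302 c2050 c949 (k8 c1240 c12000 c9059 c11945 c4703 c4540 c1966 c4632 (k2 c2109 c292 k0)))))))))) (by decide +kernel)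
def c12158 : PP 8 4 T 0x400000002000000000000155000000000100000100000001000405140000000008204 := rS 0x29a2c32313b9e2329a0990c3c042e13448c6248d4befd0db44b62903958f6451da1ca2890bb942a2a (k8 c12117 c2220 c11030 c4431 c7030 c4435 c9141 c12123 (k8 c4296 c1224 c11764 c1018 c59 c92 c4298 c4292 (k8 c4376 c1376 c1330 c242 c2113 c290 c2228 c7325 (k8 c1336 c262 c2189 c531 c9123 c4448 c805 c1889 (k4 c1966 c4540 c604 c292 (k1 c2109 k0)))))) (by decide +kernel)
def c12159 : PP 8 4 T 0x400000002000000044000000000500044000000000001008000001000081000004602 := rS 0x5f (k2 c489 c12156 k0) (by decide +kernel)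
def c12160 : PP 8 4 T 0x400000002000000000040014000080040000000014000009000000140080000004600 := rS 0x326081300a9d4acf699204a4b17b4476b31f9844e4716ad562913a96c7a9510c4526730ab942235 (k8 c1059 c344 c11030 c2220 c12124 c1069 c4411 c799 (k8 c2782 c11368 c92 c11025 c938 c1147 c1436 c143 (k8 c1314 c934 c2941 c289 c1187 c12123 c4298 c4432 (k8 c4434 c1463 c2113 c4281 c1790 c10933 c4558 c12159 (k4 c1639 c4464 c10573 c10837 k0))))) (by decide +kernel)
def c12161 : PP 8 4 T 0x2000000000001000000080010500080054000000000040041000000000080000104000 := rS 0x5f7e9fcba0d12444c671 (k8 c4387 c1606 c4411 c290 c3435 c1335 c7517 c7058 (k2 c1465 c7325 k0)) (by decide +kernel)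
def c12162 : PP 8 4 T 0x80040015000000000000000000000000000405540000000000000 := rS 0x6a49 (k2 c4281 c4373 (k1 c2113 k0)) (by decide +kernel)
def c12163 : PP 8 4 T 0x400000002000000000000000000000040100000000000001000000000000000000404 := rS 0x28059e0c539214ad37e9b84ac707844e2bd5b8dc72bb8a24ce64b17b45ca151d8200e67598fe86611391c5ab558a4572752d8f52aa21095a222a (k8 c12117 c4411 c11764 c799 c12149 c2782 c11368 c92 (k8 c11025 c6781 c938 c1147 c1436 c143 c1314 c934 (k8 c2941 c4393 c289 c1187 c920 c1018 c4462 c12123 (k8 c2220 c11030 c4298 c4432 c4434 c12124 c1069 c12157 (k8 c4390 c4348 c4386 c4353 c4354 c4387 c344 c12158 (k8 c12161 c1463 c12160 c4378 c12162 c10933 c4473 c4558 (k4 c4463 c1790 c12159 c9677 (k1 c4461 k0)))))))) (by decide +kernel)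
def c12164 : PP 8 4 T 0x400000002000000000000000000000040100000000000000000000000000000000404 := rS 0x9a3154b4958fd07a944a9d53970fcc70690c3c622f810226529c14a83d3ea544ea21f99c5e4f199145b1157b44423b0401cac2a (k8 c12117 c11764 c1018 c4462 c12123 c799 c4298 c1774 (k8 c4411 c143 c4296 c4294 c4297 c4432 c920 c289 (k8 c12149 c934 c2782 c1354 c11368 c12163 c4406 c9029 (k8 c1647 c347 c4191 c1466 c4478 c262 c2189 c528 (k8 c2194 c819 c818 c2806 c1232 c1463 c3431 c1455 (k4 c4377 c11271 c4463 c2809 (k2 c2046 c4282 (k1 c4839 k0)))))))) (by decide +kernel)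
def c12165 : PP 8 4 T 0x400000002000000000010000000000000100000000000001000040040000080008200 := rS 0x29a2c32313bc6534be5eaee288f86a44484d1ca14364f689ec8a8728a242ee50aac46a1302158522a (k8 c12117 c59 c11764 c1066 c531 c1099 c3161 c2220 (k8 c11030 c4431 c7030 c4435 c9141 c4296 c1224 c4298 (k8 c4297 c4292 c1495 c241 c2192 c264 c1153 c4381 (k8 c1423 c4486 c4390 c4354 c11148 c9123 c4369 c1094 (k4 c1966 c4540 c7804 c292 (k1 c2109 k0)))))) (by decide +kernel)
def c12166 : PP 8 4 T 0x5000000000001000000040014000000000000000000000009000008010080000114000 := rS 0x9186894449e2334d9249589fcfb040983408270f0043a29 (k8 c59 c1180 c750 c288 c2316 c1066 c9820 c531 (k8 c4464 c4409 c4313 c3161 c371 c11399 c11768 c2107 (k4 c1642 c1643 c1372 c4384 (k2 c768 c9821 k0)))) (by decide +kernel)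
def c12167 : PP 8 4 T 0x400000002000000000000140000501401500000000000101400000000000001140000 := rS 0x1084ca28d61b369585b11578a9a28728a242ee5 (k8 c11030 c4431 c7030 c4435 c9141 c4298 c12117 c1774 (k8 c4411 c143 c11764 c9753 c4292 c9074 c2109 c1072 (k2 c7780 c4322 k0))) (by decide +kernel)
def c12168 : PP 8 4 T 0x400000002000000000000140000501401500000000000101400000000000100100025 := rS 0x264d66884860826d2b04c522a (k8 c12117 c59 c531 c11764 c9753 c4433 c12167 c4436 (k4 c269 c1919 c5568 c7780 k0)) (by decide +kernel)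
def c12169 : PP 8 4 T 0x4000000002000000000150040000000810000000000000009000440000000000155000 := rS 0x328b66b0cf1190d85da287289f608e5 (k8 c11030 c4464 c4409 c4435 c9141 c4298 c4431 c4292 (k4 c4448 c805 c2059 c10743 (k2 c605 c1958 (k1 c7101 k0)))) (by decide +kernel)
def c12170 : PP 8 4 T 0x400000000000400000002000000004000540000541481100000000000101000000000000100100025 := rS 0x132a965aae965216a3d8e2a (k8 c12117 c291 c930 c143 c12168 c4456 c1943 c2023 (k2 c7105 c1200 (k1 c2126 k0))) (by decide +kernel)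
def c12171 : PP 8 4 T 0x1400000002000000000000000000040080100000004000001000000000000100000204 := rS 0x690c26116ad29b2984cda2af136bf678e090d364aed4aa77e430e24748d0d700d2e84482d14aa242e2758a746ab700874fe7d8204c0856148541e37218798a3e1eb962e3b22a3d8e2a (k8 c12117 c291 c930 c4296 c12123 c4360 c11030 c234 (k8 c4471 c1248 c288 c2225 c2224 c12165 c2220 c59 (k8 c11764 c1066 c531 c4464 c4409 c4313 c1180 c750 (k8 c3175 c1099 c1232 c3161 c2316 c4431 c7030 c159 (k8 c4298 c4433 c345 c4628 c9820 c12166 c4394 c3215 (k8 c1315 c1473 c4486 c4480 c4330 c4385 c4825 c4305 (k8 c11768 c2107 c4470 c1790 c1240 c12169 c12170 c4454 (k8 c2069 c1207 c1208 c373 c6601 c1752 c8801 c11828 (k2 c5568 c269 k0))))))))) (by decide +kernel)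
def c12172 : PP 8 4 T 0x400000002000000040000000000001401100000008000001400000010000001000220 := rS 0x34265146b0d9b4ac2d88abda28728a242ee50a84c522a (k8 c12117 c59 c531 c2220 c11030 c4431 c7030 c4435 (k8 c9141 c4298 c1774 c4411 c143 c11764 c9753 c4292 (k4 c9074 c2109 c1072 c11588 (k1 c10362 k0)))) (by decide +kernel)
def c12173 : PP 8 4 T 0x400000002000000000000000000000000500000008000000000000000000182024005 := rS 0x4caa5066884904da042b3f50a1b (k8 c4292 c710 c4378 c11764 c1066 c9753 c4433 c4436 (k4 c269 c1999 c5323 c5568 (k1 c10335 k0))) (by decide +kernel)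
def c12174 : PP 8 4 T 0x400000002000000040010000000001001100000008000001400000010000001000220 := rS 0x1e5348a0db44ac8728a242ee50a84c522a (k8 c12117 c59 c531 c2220 c11030 c4431 c7030 c4435 (k8 c9141 c11764 c4298 c4292 c2109 c12172 c605 c805 k0)) (by decide +kernel)
def c12175 : PP 8 4 T 0x5400000002000000000000014000040000500000008000001000000000000100000204 := rS 0x178a94dab060524c9ac32bf1c34c20c9368b622af68a1ca2b14e8d4021d3fc1026042b0a42a0f1b90d8a4563a9d4abb862443c3e1eb94762a (k8 c12117 c12123 c11030 c234 c4471 c288 c3074 c4486 (k8 c4825 c4385 c4330 c291 c4296 c1248 c2225 c2224 (k8 c12165 c2220 c59 c11764 c1066 c531 c4464 c4313 (k8 c1180 c750 c1099 c1232 c3161 c4435 c9141 c4298 (k8 c1774 c4411 c143 c9753 c11399 c12166 c11768 c344 (k8 c1240 c12173 c9074 c1072 c12174 c292 c293 c1966 (k2 c948 c2126 (k1 c12000 k0)))))))) (by decide +kernel)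
def c12176 : PP 8 4 T 0x400000002000000080000040000500000100000008000001000040040005080000200 := rS 0x3154a697a9935864464d1c92c5e4f199b45b1157b450e1528b946a1302158522a (k8 c12117 c59 c11764 c1066 c531 c1099 c11030 c4435 (k8 c2220 c9141 c4298 c1774 c4411 c143 c9753 c4294 (k8 c4297 c4432 c4434 c4280 c4282 c4372 c7626 c9074 (k4 c1072 c12000 c9123 c2785 (k2 c1966 c2111 k0))))) (by decide +kernel)
def c12177 : PP 8 4 T 0x1400000002000000000000000000040080100000000000001000000000000100000204 := rS 0x136a95eb2c614b4c948d6195fb3c20382434e86b823aed4a9f5389618614897dfa6e63a3cda2d88abda2870a9444e9d1aadc021d09810ac29078dc861e628f87ae58b8ec5445 (k8 c4296 c12117 c12123 c4360 c11030 c234 c4471 c1248 (k8 c288 c2225 c2224 c12165 c59 c11764 c1066 c531 (k8 c1180 c750 c3175 c1099 c1232 c2316 c4435 c2220 (k8 c9141 c4298 c1774 c4411 c143 c9753 c930 c291 (k8 c12171 c4378 c1377 c3074 c880 c4486 c11222 c4330 (k8 c4384 c4385 c4825 c1642 c12175 c4394 c12176 c4473 (k8 c4470 c8928 c1790 c1240 c12173 c9074 c12174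 c1072 (k4 c4456 c292 c2023 c12000 (k2 c7105 c1966 (k1 c2126 k0)))))))))) (by decide +kernel)
def c12178 : PP 8 4 T 0x400000002000000004100064000581480100000000000101400000000000100100025 := rS 0xd2184c22d5aca613368abc20c5d12177284c522aa1a451e95 (k8 c159 c1476 c939 c4393 c12117 c59 c531 c11030 (k8 c4431 c7030 c4360 c4433 c12168 c4454 c2069 c9824 (k4 c1208 c6601 c1752 c8801 (k2 c11828 c5568 (k1 c269 k0))))) (by decide +kernel)
def c12179 : PP 8 4 T 0x1400000002000000000040000000080080100000004000001000008000000100114004 := rS 0x2f55299662b1565267a6c90c95da954efc2ec30e28f5c3452b176290d629d228d4021d3e91c5a915b834be7f8204c52e5020785456 (k8 c11764 c12117 c288 c1066 c11030 c59 c531 c4464 (k8 c4313 c1465 c528 c3175 c939 c143 c1314 c4409 (k8 c1180 c750 c1099 c4296 c1232 c3161 c2225 c1248 (k8 c4360 c159 c4298 c12166 c1476 c1473 c4486 c4628 (k8 c4480 c4330 c4385 c4825 c4305 c2107 c12169 c1790 (k8 c12178 c1943 c293 c373 c1200 c949 c2069 c11945 k0)))))) (by decide +kernel)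
def c12180 : PP 8 4 T 0x1000000000000000000000000000000001100000000000000000000040002000000000 := rS 0x11f0d (k2 c4381 c1423 (k1 c4486 k0)) (by decide +kernel)
def c12181 : PP 8 4 T 0x1400000002000000000000000000000080100000004000001000000000000100000204 := rS 0x442a0f21b148ac712a4544b70f0dc7c3d72c5c762a (k8 c12117 c12123 c4360 c11030 c234 c4471 c2224 c288 (k8 c3175 c12177 c939 c12180 c290 c4296 c1248 c2225 (k4 c12165 c2220 c345 c12179 k0))) (by decide +kernel)
def c12182 : PP 8 4 T 0x1400000002000000000000000000000080100000000000001000000000000100000204 := rS 0x1529b5eab06099291ac32bf67840704869aed4aa78623cdcc712a448f435116cda2d88abda2870a9444e9d1aadc021d09810ac29078dc861e628f87ae58b8ec5445 (k8 c4296 c12117 c12123 c4360 c11030 c234 c4471 c1248 (k8 c288 c2225 c2224 c12165 c59 c11764 c1066 c531 (k8 c1180 c750 c3175 c1099 c1232 c2316 c4435 c2220 (k8 c9141 c4298 c1774 c4411 c143 c9753 c92 c12177 (k8 c4393 c1314 c939 c12180 c290 c12181 c1346 c4486 (k8 c4330 c4385 c4825 c12176 c4473 c4470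 c8928 c1790 (k8 c1240 c12173 c9074 c12174 c1072 c292 c293 c12000 (k2 c1966 c949 (k1 c2126 k0))))))))) (by decide +kernel)
def c12183 : PP 8 4 T 0x40000000000000000000000000000200000000000000000014004 := rS 0x1afd (k2 c4377 c1288 (k1 c4463 k0)) (by decide +kernel)
def c12184 : PP 8 4 T 0x140000000000000000050000000001001000000080400114020 := rS 0x691c2629 (k4 c59 c531 c1643 c529 (k1 c2107 k0)) (by decide +kernel)
def c12185 : PP 8 4 T 0x400000002000000000000140000040481500000000000001001000140004180114005 := rS 0x2a532ac559494e222eb254ad3260bc5a9d228d4fe7d8204c085614b958e2a (k8 c12117 c291 c11030 c59 c11764 c1066 c531 c4464 (k8 c4409 c4313 c1099 c4296 c1232 c143 c4432 c9123 (k8 c4282 c1935 c8024 c12183 c12184 c772 c12168 c1943 (k4 c293 c1200 c948 c11945 k0)))) (by decide +kernel)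
def c12186 : PP 8 4 T 0x2000000000010000000000880014000000000008000040000080000040000 := rS 0x14b298651709560c4f0680d85da251 (k8 c4435 c4298 c4431 c4292 c804 c805 c1966 c932 (k4 c4437 c605 c1958 c292 (k2 c4458 c9918 k0))) (by decide +kernel)
def c12187 : PP 8 4 T 0x400000002000000000000000000000080100000000000001000000000000100000204 := rS 0x47a1b1da6a22626c22495ea44728f5dc501e13008d4081d138dc861e628f912871e85c8a51729585a290a8ec5517 (k8 c4360 c12117 c12123 c2220 c59 c143 c11764 c11030 (k8 c4435 c4296 c4431 c234 c9141 c7030 c4471 c1248 (k8 c288 c2225 c2224 c2316 c1180 c1066 c1099 c750 (k8 c531 c12165 c12182 c4390 c4388 c4348 c4352 c4354 (k8 c370 c344 c12186 c9123 c12185 c4282 c2228 c4393 (k2 c1314 c4473 k0)))))) (by decide +kernel)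
def c12188 : PP 8 4 T 0x400000002000000000000000000000000100000000000000000000000000000000404 := rS 0x198e6631e2ccca3f829522e961d8200ee5888a84256 (k8 c11764 c799 c12117 c4411 c11030 c1018 c4462 c12123 (k8 c12164 c4360 c12187 c4406 c8954 c1647 c1185 c4471 (k4 c817 c1615 c4478 c921 k0))) (by decide +kernel)
def c12189 : PP 8 4 T 0x1100000000000000000000010000040055500000040000008000000000000000008100 := rS 0x1b96cb1 (k4 c1147 c10674 c10635 c1077 k0) (by decide +kernel)
def c12190 : PP 8 4 T 0x1400000002000000000000000000000002000000000000008000080000000020008008 := rS 0xbd54134be5c12b49606f2c81939194c905362f7e9c41201 (k8 c28 c1058 c1416 c4376 c4432 c764 c4433 c1031 (k8 c4446 c4488 c791 c63 c2998 c4480 c12083 c11879 (k4 c1148 c544 c4282 c11883 (k2 c2014 c979 k0)))) (by decide +kernel)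
def c12191 : PP 8 4 T 0x8400000000000000000010000400000000050001440104008000000000000000000000 := rS 0x439ecdac1 (k4 c4420 c9753 c1227 c10041 (k1 c9460 k0)) (by decide +kernel)
def c12192 : PP 8 4 T 0x1400000002000000000000000000000000100000000000000000000000000000008400 := rS 0x1354a2541c314e91258cd1e315e9e84e23549a112ad4e46484c128915863d7284c2a3f4c99c5ac54bc45269b17abcf2173b9062d05009cc76060e07c428b2a34566642c98c0a02151590a4f (k8 c4297 c1495 c11764 c12117 c12188 c55 c1607 c63 (k8 c227 c552 c4298 c226 c1766 c799 c223 c4466 (k8 c791 c3583 c1021 c28 c4406 c5134 c4433 c1023 (k8 c4431 c500 c1774 c4432 c764 c1029 c4411 c4360 (k8 c8820 c143 c918 c1031 c12102 c382 c1639 c11030 (k8 c9050 c9009 c4296 c4435 c4420 c9770 c4446 c4488 (k8 c946 c4794 c12191 c827 c1328 c2155 c825 c3182 (k8 c1879 c2763 c4294 c4434 c12190 c4500 c4486 c2000 (k4 c4381 c4385 c245 c2111 k0))))))))) (by decide +kernel)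
def c12193 : PP 8 4 T 0x400000002000000000000000000040000100000000000000000000000000000008400 := rS 0x196494f334965363a852ab52389c46cf54a149eb753a449a8358c50f46844ab4ce790b9dd16b34e46484c54bc4526af60c58c605289cc766403115863d7284c03052a3442a2d150fd32414d8703e022c884ac2f (k8 c4432 c11764 c799 c63 c12188 c223 c4466 c764 (k8 c4433 c1031 c12102 c12117 c143 c382 c4298 c226 (k8 c4406 c28 c1639 c11030 c9050 c9009 c4296 c791 (k8 c227 c3583 c1021 c4435 c55 c1607 c5134 c4420 (k8 c1774 c1029 c4411 c4360 c8820 c9770 c4446 c4488 (k8 c552 c1766 c1023 c4431 c500 c918 c946 c4794 (k8 c12191 c825 c12192 c4350 c642 c245 c4352 c906 (k8 c4353 c4297 c1495 c827 c5286 c1328 c2155 c3584 (k8 c7513 c1695 c7295 c2137 c2138 c4434 c5446 c5153 (k2 c1663 c1669 (k1 c2116 k0))))))))))) (by decide +kernel)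
def c12194 : PP 8 4 T 0x400000002000000000000000000000000100000000000000000000000000000008400 := rS 0x14a252fa889aa741a456314549fc46274292c9e33638c4f46844ab4ce790b9dd16b34e46484c54bc4526af60c58c605289cc766403115863d7284c03052a3442a2d150fd32414d8703e022c884ac2f (k8 c4432 c11764 c799 c63 c12188 c223 c4466 c764 (k8 c4433 c1031 c12102 c12117 c143 c382 c4298 c226 (k8 c4406 c28 c1639 c11030 c9050 c9009 c4296 c791 (k8 c227 c3583 c1021 c4435 c55 c1607 c5134 c4420 (k8 c1774 c1029 c4411 c4360 c8820 c9770 c4446 c4488 (k8 c552 c1766 c1023 c4431 c500 c918 c946 c4794 (k8 c12191 c825 c1879 c2137 c4294 c4297 c4434 c1495 (k8 c2155 c1328 c1455 c827 c12192 c4350 c4352 c642 (k4 c906 c245 c12193 c1465 (k2 c1463 c1883 (k1 c2111 k0))))))))))) (by decide +kernel)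
def c12195 : PP 8 4 T 0x1400000002000000000000000000000001100000000000000000000000000000000400 := rS 0x388d0fed35da94be5d3ec314eb1479d572c75a91cf46844ab4ce790b9dd16b34e46484c54bc4526af60c58c605289cc766422b0c7ae5098060ad10a8b47e9920a6c5e2537818381f2c884acc907950042a (k8 c12117 c12188 c226 c12194 c1727 c11764 c799 c63 (k8 c223 c4466 c791 c1020 c224 c4432 c764 c4433 (k8 c1031 c12102 c143 c382 c4298 c4406 c28 c1639 (k8 c11030 c9050 c9009 c4296 c227 c3583 c1021 c4435 (k8 c55 c1607 c5134 c4420 c1774 c1029 c4411 c4360 (k8 c8820 c9770 c4446 c4488 c552 c1766 c1023 c4431 (k8 c500 c918 c946 c4794 c12191 c825 c3584 c7513 (k8 c2137 c11342 c499 c2763 c1147 c906 c4486 c8975 (k8 c4628 c4382 c4385 c4825 c5130 c554 c12006 c707 (k1 c9361 k0)))))))))) (by decide +kernel)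
def c12196 : PP 8 4 T 0x8410100002000000001140005401400000000048041200000000000001081400010000 := rS 0xa51393492fd38a15064b1793c6709 (k8 c4437 c4294 c4297 c4432 c4434 c2000 c11940 c706 (k4 c7787 c8735 c4248 c354 (k2 c12119 c2111 k0))) (by decide +kernel)
def c12197 : PP 8 4 T 0x400000002000000000100000000000002000000004000008000000000081100000008 := rS 0x713eac5765d53334feb754a8c470d36a8422755cb1d6a471c8c4f46844ab4ce790b9dd16b34e46484c54bc4526af60c58c605289cc766403115863d7284c03052a3442a2d1fa64829b0e07cb22f (k8 c4432 c63 c223 c4466 c764 c4433 c1031 c12102 (k8 c143 c382 c4298 c226 c4406 c28 c1639 c11030 (k8 c9050 c9009 c4296 c791 c227 c3583 c1021 c4435 (k8 c55 c1607 c5134 c4420 c1774 c1029 c4411 c4360 (k8 c8820 c9770 c4446 c4488 c552 c1766 c1023 c4431 (k8 c500 c918 c946 c4794 c12191 c825 c1879 c3151 (k8 c3584 c7513 c2137 c11342 c499 c2303 c7295 c9753 (k8 c4328 c2766 c938 c2816 c5964 c555 c5446 c12196 (k4 c2796 c1978 c1148 c1651 (k2 c707 c2121 k0)))))))))) (by decide +kernel)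
def c12198 : PP 8 4 T 0x400000002000000000000000000000000100000000000000000000000000000000400 := rS 0x1f4fe9f2fb4ce2b71bc504eb148b24de25078e56ab93a9cc0c471eacc761c2a1918e3f0f814042172964ac2a (k8 c12117 c11764 c63 c11030 c799 c12188 c55 c223 (k8 c12102 c2137 c227 c226 c4466 c3583 c552 c9050 (k8 c3584 c791 c1021 c499 c11342 c7513 c3151 c12194 (k8 c224 c1020 c1727 c12197 c1147 c872 c12195 c4386 (k8 c4353 c4387 c12162 c10439 c11480 c554 c1650 c2121 k0))))) (by decide +kernel)
def c12199 : PP 8 4 T 0x8820 := rS 0x869704811 (k4 c113 c264 c265 c4381 (k1 c5618 k0)) (by decide +kernel)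
def c12200 : PP 8 4 T 0x1100000000001000040040000000040055100000000000008000001500000000014020 := rS 0x90355b23cb2b9 (k4 c6781 c63 c9056 c10674 (k2 c1037 c9550 (k1 c4209 k0))) (by decide +kernel)
def c12201 : PP 8 4 T 0x1000000000001000080040001000040055100040000000009000005400000020144800 := rS 0x1bd1ec81a8356239 (k8 c1139 c1147 c4371 c4373 c11768 c4656 c11834 c7550 k0) (by decide +kernel)
def c12202 : PP 8 4 T 0x1000000000001000000000000000040041100000000000009000000000080000000800 := rS 0xb7478dc1a1069b1c7e130781002b11c871727f820f442033a8ed6b16499cc2a674a87cb711 (k8 c4411 c92 c271 c1695 c920 c287 c12124 c1069 (k8 c4487 c4419 c1640 c11025 c2244 c798 c11368 c7079 (k8 c4313 c6781 c4466 c1139 c1147 c566 c4461 c12199 (k8 c1639 c2223 c291 c12201 c12200 c112 c319 c4656 (k2 c7094 c10674 k0))))) (by decide +kernel)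
def c12203 : PP 8 4 T 0x1000000000001000000040010500000000000050144000001000401500000000155000 := rS 0xe2341b921a6c9 (k4 c7550 c11768 c2107 c322 (k2 c4209 c7095 (k1 c9361 k0))) (by decide +kernel)
def c12204 : PP 8 4 T 0x1000000000001000000040011500000000000050140000001000405500000000155100 := rS 0x5b8dda46e (k4 c12203 c10992 c1343 c1077 (k1 c12155 k0)) (by decide +kernel)
def c12205 : PP 8 4 T 0x400000002000000000000140000501001500000100000001002001000000000100000 := rS 0xcc542fca4af689ec363f09a6c5e990e07c42410c810025b01828769339b94ac2a (k8 c12117 c11764 c11030 c12124 c1069 c1640 c12198 c2244 (k8 c92 c566 c4461 c11941 c4433 c798 c271 c4466 (k8 c1031 c4432 c764 c1639 c2223 c4292 c702 c4298 (k4 c1774 c12114 c5760 c2126 (k2 c373 c1484 k0))))) (by decide +kernel)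
def c12206 : PP 8 4 T 0x1400000002000000000000000000000041100000000000001000000000000000000000 := rS 0x14d16ad3bc6538bd241b9a61063aed4a2553c311e0d2f91e86a25ab162c3b499f4fe7344c102a3d3aae4ce17729b45b1157b44127b0d8fd2a134d8bd32410c83c0801588e4381f2d884060a5998c5456 (k8 c11764 c12117 c1606 c1188 c12198 c2244 c798 c92 (k8 c271 c4466 c1139 c1147 c566 c4461 c12199 c11941 (k8 c4433 c1031 c4432 c764 c1639 c1695 c2223 c4292 (k8 c702 c84 c4298 c1774 c4411 c143 c9753 c11030 (k8 c4431 c920 c6781 c11025 c11368 c287 c7079 c7030 (k8 c12124 c4313 c4409 c1069 c1640 c4487 c8820 c4419 (k8 c12202 c4393 c1314 c1465 c528 c4656 c4486 c4330 (k8 c4381 c4385 c4825 c290 c12204 c4276 c7962 c4473 (k8 c12000 c12205 c4368 c1092 c946 c7804 c293 c11828 k0))))))))) (by decide +kernel)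
def c12207 : PP 8 4 T 0x2000000000000000040002000000004001000001000002000000001140000 := rS 0xa68b619de32c568a242ee5 (k8 c11030 c4431 c7030 c4298 c1782 c4368 c1092 c1214 (k2 c7804 c333 (k1 c11828 k0))) (by decide +kernel)
def c12208 : PP 8 4 T 0x40000000000001400000000000000010000000120041581100050000200001000400100080000144020 := rS 0xc90892572cd37d1578cb54a0c1abb5297d4f0c63a3e2eb7 (k8 c1165 c4360 c930 c291 c4486 c4330 c4382 c4385 (k8 c4825 c528 c2000 c948 c2027 c11945 c4454 c1080 (k4 c2069 c1208 c4573 c7962 (k2 c11399 c2107 k0)))) (by decide +kernel)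
def c12209 : PP 8 4 T 0x1400000002000000000000000000000001100000000000001000000000000000000000 := rS 0xbd54b2d9ea75c4316a8f0697e86a55da89586855d2d145321c617e9d3fc11127d0a91c783b8ba5966630bb94da2d57b44f61b1f84d362f4c904320f0200562390e07cb621018285456 (k8 c11764 c12117 c12198 c2244 c798 c92 c271 c4466 (k8 c1139 c1147 c566 c4461 c12199 c11941 c4433 c1031 (k8 c4432 c764 c1639 c2223 c4292 c702 c4298 c1774 (k8 c143 c9753 c11030 c4431 c1606 c1188 c12206 c4360 (k8 c1044 c4471 c8078 c327 c7516 c7030 c4464 c4313 (k8 c12207 c5760 c4488 c4446 c332 c11828 c4427 c1673 (k8 c11588 c4785 c12208 c4449 c1470 c4393 c1465 c528 (k8 c4656 c1435 c4486 c4793 c4330 c1525 c2026 c949 (k2 c1208 c11945 k0))))))))) (by decide +kernel)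
def c12210 : PP 8 4 T 0x2000000000000000000820 := rS 0x19e0a15 (k4 c141 c4406 c654 c10054 k0) (by decide +kernel)
def c12211 : PP 8 4 T 0x2000000000001000000000000000040051100000000000009000004100084100005000 := rS 0x202386b4d403b7ea4c8e7f39a7c2a3d3aae4ce5b14c45666330ac51e375b9c56ac7 (k8 c291 c4389 c4387 c4353 c4386 c4388 c1147 c880 (k8 c1606 c1188 c4411 c59 c92 c920 c6781 c11025 (k8 c11368 c287 c12142 c12124 c7517 c1642 c1069 c7058 (k4 c1640 c2125 c12162 c4329 (k2 c770 c4463 (k1 c7312 k0)))))) (by decide +kernel)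
def c12212 : PP 8 4 T 0x400000002000000000000000000040001100000000000000000000000000000010000 := rS 0x4aa624294bac95da3d7ac7509f48e7f399ad0e5188b4c6f09189a1145321c613a7b0da64829b17a242e151e0ec5b174b034e3141c89c380f4a87c423f72accc65509abda26d0c810025b2b00c540a (k8 c12198 c12117 c2244 c11764 c92 c566 c4461 c11941 (k8 c9753 c4298 c1774 c1639 c12210 c1606 c1188 c11030 (k8 c2223 c798 c271 c1695 c12199 c4466 c872 c1139 (k8 c12209 c4387 c568 c12211 c4360 c143 c1044 c4471 (k8 c327 c4431 c7030 c4432 c764 c4433 c1031 c4292 (k8 c702 c12207 c4488 c4446 c332 c11828 c11588 c1878 (k8 c4322 c4386 c5037 c4411 c4435 c9141 c9074 c1614 (k8 c10049 c8078 c7516 c898 c291 c4354 c4388 c4390 (k4 c10573 c12183 c10700 c2107 (k2 c7780 c283 (k1 c4558 k0))))))))))) (by decide +kernel)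
def c12213 : PP 8 4 T 0x400000002000000000000000000040001100000000000000000000000000000000000 := rS 0x14c255284152684514da6438c2fd3a890a8f077174b12c2ee5368b55ed13d86c7e9509a6c5e99208641eb3319844e390e07c42bb1b834e3142a810025b2b00c540a (k8 c12198 c12117 c2244 c11764 c92 c566 c4461 c12210 (k8 c12209 c4387 c568 c4386 c4390 c798 c271 c4466 (k8 c1139 c872 c880 c1606 c1188 c12199 c11941 c4433 (k8 c1031 c4432 c764 c1639 c1695 c2223 c4292 c702 (k8 c4298 c1774 c143 c9753 c11030 c4431 c4434 c12211 (k8 c4360 c1044 c4471 c327 c7030 c12207 c5760 c4488 (k8 c4446 c5037 c332 c11828 c11588 c10183 c12212 c10323 (k2 c279 c10851 (k1 c4558 k0))))))))) (by decide +kernel)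
def c12214 : PP 8 4 T 0x400000002000000000000000000000041100000000000000000000000000000100000 := rS 0x14d16ad3bc6538a7529204a1069b1d8afd1e9d5724b36c455ed13d86c7e9509a6c5e1907accc6615889c721c0f885768f1badd7ab5a191c5a674485cbe7f069c628a21da4ce65502004b60305394ac2a (k8 c12117 c11764 c11030 c12198 c2244 c92 c566 c4461 (k8 c12210 c12124 c1069 c1640 c12213 c12209 c4387 c568 (k8 c7517 c1465 c4431 c7030 c654 c143 c1314 c4393 (k8 c4389 c4354 c4353 c4386 c4388 c4390 c798 c271 (k8 c4466 c1139 c872 c1147 c880 c1606 c1188 c12199 (k8 c11941 c4432 c764 c1639 c1695 c2223 c4292 c702 (k8 c4298 c1774 c4411 c9753 c4434 c6781 c11025 c11368 (k8 c7058 c8820 c12161 c12162 c4463 c11222 c4473 c10323 (k8 c4558 c12205 c4368 c1092 c946 c7804 c293 c11828 k0))))))))) (by decide +kernel)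
def c12215 : PP 8 4 T 0x400000002000000000000000000000001100000000000000000000000000000100000 := rS 0x1a1508a53a94a6d321c617e254eb1c79174b0ed26734492c2ee536abda27b0d8fc269b17a648219138703e215d8de285502004b656018a814a2 (k8 c12213 c12198 c12117 c2244 c11764 c92 c566 c4461 (k8 c12210 c12209 c4386 c4390 c798 c271 c4466 c872 (k8 c11941 c4433 c1031 c4432 c764 c1639 c2223 c4292 (k8 c702 c4298 c1774 c9753 c11030 c4431 c4434 c7030 (k8 c12124 c1069 c1640 c12214 c4360 c4471 c330 c12207 (k8 c1463 c5760 c4488 c4446 c5037 c332 c10933 c4558 (k4 c11828 c10851 c11588 c10183 k0))))))) (by decide +kernel)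
def c12216 : PP 8 4 T 0x1000000000000400000000000000000004050000004000080060200000 := rS 0xee2e93330f45b11 (k8 c4411 c143 c327 c7301 c7102 c5282 c1640 c4471 k0) (by decide +kernel)
def c12217 : PP 8 4 T 0x1000000000001000080040011400000000000000140000001000005400000000144800 := rS 0xb1238347211049fcfb04 (k8 c4464 c4409 c4313 c84 c4276 c4280 c4371 c4374 (k2 c622 c12204 k0)) (by decide +kernel)
def c12218 : PP 8 4 T 0x1000040040010400000002100000100000001000001400080000154800 := rS 0x18471a9bd62390480ce67f3ec111f15 (k8 c4352 c130 c4464 c4409 c4313 c12124 c2244 c84 (k4 c358 c622 c10992 c7808 (k2 c7823 c12203 (k1 c569 k0)))) (by decide +kernel)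
def c12219 : PP 8 4 T 0x200000000000000000000010000000000000000000020 := rS 0x6f (k2 c123 c10032 k0) (by decide +kernel)
def c12220 : PP 8 4 T 0x100000002100000000000000000000100000020020001 := rS 0x60374362a5d (k4 c809 c4352 c4328 c7962 (k2 c1076 c4105 k0)) (by decide +kernel)
def c12221 : PP 8 4 T 0x2000000000000008000000200000020000820 := rS 0x1844e22128d4128f (k8 c130 c84 c116 c2214 c1140 c873 c615 c10157 k0) (by decide +kernel)
def c12222 : PP 8 4 T 0x10000000001000080000000000040000000000000001001000000000080000144000 := rS 0x2859049889fe08c7 (k8 c291 c4464 c4313 c4411 c4281 c11768 c1734 c7497 k0) (by decide +kernel)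
def c12223 : PP 8 4 T 0x1010000000001000000000000000040010000000000001001000400110080100155000 := rS 0x4b8f16c481b325a6c7889fcfb04 (k8 c4464 c4409 c4313 c4411 c291 c12222 c10573 c4470 (k4 c2107 c323 c322 c1166 (k1 c11368 k0))) (by decide +kernel)
def c12224 : PP 8 4 T 0x400000002000000000000000000000000100000000000000000000000000000000000 := rS 0x95a6481e45d72b64b2854435139841a112388c72b11dc551f0d49a40e6155998caa0f098103895108fc021f0181c142a2d964ace5 (k8 c11030 c11764 c63 c92 c12117 c12198 c83 c2244 (k8 c271 c566 c2223 c798 c1695 c4466 c4461 c1639 (k8 c12199 c12210 c1606 c1188 c12216 c12124 c12215 c1069 (k8 c4328 c130 c4352 c1640 c12219 c12221 c769 c7823 (k8 c12220 c529 c614 c350 c7808 c12223 c161 c938 (k8 c939 c1206 c4360 c4471 c1742 c11808 c283 c4467 k0)))))) (by decide +kernel)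
def c12225 : PP 8 4 T 0x200000000000000000000004000000000000000008442 := rS 0xd32d0e0b208 (k4 c4462 c486 c1145 c4476 (k2 c4280 c4528 k0)) (by decide +kernel)
def c12226 : PP 8 4 T 0x800000002000000000000000000000000015000000114000000000000040110100080 := rS 0x1586716a2cb63f17b94daaf35aac7a1e (k8 c4466 c274 c4445 c4442 c4346 c4342 c11030 c4432 (k4 c11031 c495 c8308 c392 (k2 c8324 c2120 (k1 c4554 k0)))) (by decide +kernel)
def c12227 : PP 8 4 T 0x1000001002000000000000000100000001100000010000000000000150000010000002 := rS 0x238dd0d2eb484712 (k8 c12224 c9135 c4470 c752 c5204 c4480 c4486 c1345 k0) (by decide +kernel)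
def c12228 : PP 8 4 T 0x2000000002000000080000000000000000081004000000000000041150000000000400 := rS 0x3f3a310eebe8c9348ae5 (k8 c11030 c4296 c4282 c5037 c11148 c1094 c7804 c4632 (k2 c1248 c11627 k0)) (by decide +kernel)
def c12229 : PP 8 4 T 0x1000000000002001000002000000040000000000000000000400000000000000040000000000008200 := rS 0x805f1041afd4293cf645 (k8 c4296 c1224 c4297 c1495 c4376 c32 c4433 c9674 (k2 c4484 c1364 k0)) (by decide +kernel)
def c12230 : PP 8 4 T 0x2000000000000000000000001100000000000005000000000040000108414 := rS 0x3199cc841515a7098a2295a71168dcce392d2ccf6b12c8200e431e8786a63329a4421d000bc8a6d578c4d6ab8921ca2890bb9422fd2fa149e49 (k8 c242 c4297 c1495 c1376 c4376 c113 c11030 c4431 (k8 c7030 c4435 c9141 c12224 c4445 c4442 c4441 c4346 (k8 c4342 c4296 c4432 c4461 c10867 c9668 c756 c491 (k8 c755 c8690 c4466 c274 c276 c12226 c4462 c486 (k8 c12225 c1224 c1186 c4476 c241 c11319 c11089 c910 (k8 c1415 c4554 c2120 c12227 c4322 c12228 c11725 c12229 (k4 c644 c645 c8024 c1519 k0)))))))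 (by decide +kernel)
def c12231 : PP 8 4 T 0x2000000000000000000000001100000000000005000000000040000108404 := rS 0x8b3dc6584b36918ca504638a426651d8f22f105c50d6e374bc513e953a9e4ee3f4791d463586ab5261f2c019425c120645a1c3396c420900810362f208cda26d4eabc626b55c490e514485dca49 (k8 c242 c11030 c4431 c7030 c4435 c9141 c12224 c4445 (k8 c4442 c4441 c4346 c4344 c4342 c4298 c4294 c4433 (k8 c4432 c4292 c12230 c54 c263 c310 c574 c655 (k8 c6846 c390 c268 c264 c265 c11818 c4462 c4476 (k8 c56 c1030 c4554 c4381 c1369 c1464 c3320 c1424 (k8 c11031 c1023 c500 c2484 c11432 c11776 c4486 c11783 (k8 c4386 c4353 c11164 c5931 c4489 c4361 c7514 c1045 (k8 c4412 c8248 c1680 c330 c4464 c11345 c11648 c7908 (k4 c4312 c333 c5037 c1211 (k2 c9998 c8117 k0)))))))))) (by decide +kernel)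
def c12232 : PP 8 4 T 0x2000000000000000000000001100000000000005000000000040000108004 := rS 0x4aa78623cba0011c540a4d370d81427258bc9e33548c54b12 (k8 c12224 c4444 c4441 c4345 c4294 c4297 c4432 c4434 (k8 c238 c12231 c304 c305 c2248 c12199 c4386 c3328 (k4 c4461 c752 c1345 c4486 (k2 c4330 c4381 (k1 c2111 k0))))) (by decide +kernel)
def c12233 : PP 8 4 T 0x10000000000000000000000200000000800000000000400000000000000000004402 := rS 0x1680c6004bf4425d (k8 c753 c9668 c4304 c1146 c4477 c4462 c848 c495 k0) (by decide +kernel)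
def c12234 : PP 8 4 T 0x1001000002000000080000000000000001100400000101400000000000001000000000 := rS 0x3b9e534bba2a985e4f198c54abf474355312 (k8 c12224 c4345 c5204 c4486 c1515 c4444 c4441 c4294 (k8 c4297 c4432 c6996 c4453 c1979 c852 c11641 c1888 (k1 c11594 k0))) (by decide +kernel)
def c12235 : PP 8 4 T 0x1000000002000000080000000000000001114000000004000000000000040080104402 := rS 0x8a0319d5a09168d8488384bf0c2b14717e1a0d729b552af189ad5712348bcca5d (k8 c753 c491 c4432 c756 c12224 c4445 c4442 c4441 (k8 c4346 c4345 c4342 c11030 c4371 c5204 c488 c4486 (k8 c12233 c849 c4477 c9457 c4306 c12234 c12180 c2360 (k4 c232 c4554 c4555 c4462 (k2 c2120 c8286 k0))))) (by decide +kernel)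
def c12236 : PP 8 4 T 0x1000000000000000040000000200000000000000000000000000000000000000004406 := rS 0x5803025fa21 (k4 c9668 c4304 c1146 c4462 (k2 c10598 c8563 k0)) (by decide +kernel)
def c12237 : PP 8 4 T 0x1000000000001801000002000000040001040000004044010015000155500000005600144000010000 := rS 0x493fb3978c48ca8d2ac78b30c82d14ea6556bf22ab5ca2f (k8 c4432 c11030 c4554 c4296 c1240 c4445 c4443 c4344 (k8 c4298 c4433 c9009 c4471 c410 c4418 c4241 c7972 (k4 c9627 c4493 c1176 c9749 (k2 c1790 c9121 k0)))) (by decide +kernel)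
def c12238 : PP 8 4 T 0x1000000000001000040040000100004001000010004054501000008050144000110000 := rS 0x3f56e61 (k4 c9302 c1162 c11098 c11093 k0) (by decide +kernel)
def c12239 : PP 8 4 T 0x10000000001000040080000000000045100000000055501000008200145000100000 := rS 0x22295513f04517 (k4 c4356 c4467 c4477 c1449 (k2 c11333 c4337 (k1 c4487 k0))) (by decide +kernel)
def c12240 : PP 8 4 T 0x1000000000001000000002000000040000000500004045102404004040501000001450044000110002 := rS 0xea7e4db092aa1862e56ccf24d0d8c73628f89e991298514af36b055a2d348bcd66531aad12174ec4a12bb3cafc70453ea1ca2e5 (k8 c11030 c4435 c9141 c1502 c4296 c4470 c1240 c603 (k8 c1442 c4321 c12224 c4344 c4431 c7030 c4445 c755 (k8 c491 c4442 c4432 c756 c910 c4554 c8008 c4342 (k8 c4346 c2120 c9302 c12180 c4443 c4297 c12237 c1248 (k8 c1082 c12238 c4391 c147 c1519 c411 c1202 c12239 (k4 c4329 c1746 c9627 c2058 (k2 c7306 c595 (k1 c8255 k0)))))))) (by decide +kernel)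
def c12241 : PP 8 4 T 0x1000000002000000000000000100000001100000000000081000000000040080104402 := rS 0x11c353c3ba2a112661538b4de8141894ce111bacc105f3d81c966d549ad4b12109a45e652e89c6a3d4bb4cc6890ba1ca2e5 (k8 c11030 c4435 c9141 c4431 c7030 c755 c12235 c1194 (k8 c274 c1099 c353 c753 c491 c4432 c756 c9668 (k8 c12224 c4444 c4442 c4345 c4342 c4434 c495 c704 (k8 c577 c4462 c1186 c232 c9117 c11319 c12180 c4570 (k8 c12056 c8928 c910 c4558 c9302 c11197 c2119 c9368 (k4 c1101 c12240 c4384 c1300 (k1 c4467 k0))))))) (by decide +kernel)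
def c12242 : PP 8 4 T 0x1000000002000000000000000000000001100000000000005000000000040000100414 := rS 0x1586716a2c7e062c16d62d336abcd6ab8921ca2890bb941e6917994c63d0f084001d (k8 c10867 c4461 c9668 c4466 c274 c755 c491 c4432 (k8 c756 c12232 c11030 c4431 c7030 c4435 c9141 c12224 (k8 c4445 c4442 c4346 c4342 c12235 c12236 c12241 c4476 (k4 c486 c11031 c8286 c392 (k2 c8324 c2120 (k1 c4554 k0)))))) (by decide +kernel)
def c12243 : PP 8 4 T 0x2800000002000000080000000000000000000000000000181000000010040080100402 := rS 0xb5586745acd0a083d81cdaaf35aad0e514485dca21348bcca631e9c61b191baf89a39218c4be0d (k8 c4371 c488 c4441 c276 c4348 c4282 c11148 c4386 (k8 c5037 c5204 c4387 c274 c755 c491 c4432 c756 (k8 c9668 c11030 c4431 c7030 c4435 c9141 c4445 c4442 (k8 c4346 c4342 c495 c704 c4462 c4136 c1186 c12228 (k4 c11319 c2120 c910 c4554 k0))))) (by decide +kernel)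
def c12244 : PP 8 4 T 0x2000000002000000080000000000000000100000000000105000000000040010100402 := rS 0x7a5cacd9281420fcc26f3a818b05b3e97cfebe8cc348e0d269b50e514485dca6917994c6351e90c3c2118c4962391badce2b5 (k8 c4389 c4387 c4353 c4386 c4348 c4350 c12224 c4441 (k8 c9668 c4466 c276 c274 c1099 c755 c491 c4432 (k8 c756 c11030 c4431 c7030 c4435 c9141 c4342 c4282 (k8 c4371 c4374 c5204 c5037 c11148 c7517 c488 c7516 (k8 c12243 c4476 c486 c2432 c1107 c617 c11031 c12226 (k4 c1363 c7308 c11612 c7514 (k2 c4136 c4032 k0))))))) (by decide +kernel)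
def c12245 : PP 8 4 T 0x2000000002000000040001000010000044180504004100000000045400004000000600 := rS 0x9b539d84b195f9312a798b1d5862f20b953aa918a654aab892ec6f09 (k8 c4322 c4386 c4390 c12224 c4445 c4444 c4443 c4441 (k8 c4345 c4344 c11030 c4433 c4432 c9009 c11627 c4471 (k8 c604 c4418 c9686 c7782 c7972 c284 c10474 c4558 (k2 c1888 c10851 k0)))) (by decide +kernel)
def c12246 : PP 8 4 T 0x2000000002000000040000000000000001100000000000081000000000040080104402 := rS 0x14c255f930f2c58b8fa97091db051493568b4de814199c22b3041ec0e4b229b53aa9579ad4aab43945121772884d22f3298c4e351ea5c8631892ed6237 (k8 c4386 c4350 c4390 c12224 c4441 c276 c1194 c274 (k8 c1099 c353 c755 c491 c4432 c756 c9668 c11030 (k8 c4431 c7030 c4435 c9141 c4445 c4444 c4442 c4346 (k8 c4345 c4344 c4342 c4296 c4434 c495 c704 c4462 (k8 c1186 c9117 c11319 c4570 c12056 c8928 c910 c4554 (k8 c11197 c2120 c8008 c1101 c4322 c4427 c12245 c4356 (k4 c1248 c605 c9686 c7782 (k2 c284 c8072 (k1 c4558 k0))))))))) (by decide +kernel)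
def c12247 : PP 8 4 T 0x2000000000000000000000001100000000000005000000000040000100414 := rS 0xad338b47e8b03160b6d31cc507a350f174c665348843a00179b55e6b55c490e514485dca0f (k8 c12232 c11030 c4431 c7030 c4435 c9141 c12224 c4445 (k8 c4442 c4346 c4342 c4432 c4461 c10867 c9668 c756 (k8 c491 c755 c753 c4466 c1099 c274 c12242 c4348 (k8 c12244 c12246 c4476 c486 c8483 c11031 c392 c8324 (k2 c4554 c2120 k0))))) (by decide +kernel)
def c12248 : PP 8 4 T 0x1000000002000000080000000000000001100000000000000000000000000020000000 := rS 0x47c344712 (k4 c12224 c4372 c5204 c760 (k1 c4486 k0)) (by decide +kernel)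
def c12249 : PP 8 4 T 0x10000000020000000000000002000000111000000000000210000000000400201040a0 := rS 0x19c48452e4c6b334c11049f09af9470c32af576b553a3c68252f841fa4b20b44da9d54abcd69952aae248728a242e674da4c4e39568bcc2971f8b5cad3 (k8 c12248 c11030 c390 c11031 c11783 c2598 c4432 c4554 (k8 c1139 c872 c1030 c764 c655 c4431 c7030 c4435 (k8 c9141 c12224 c4445 c4444 c4443 c4442 c4346 c4345 (k8 c4344 c4342 c4298 c4433 c4434 c4304 c10281 c545 (k8 c11222 c609 c7008 c4558 c7883 c1309 c1039 c11461 (k8 c4486 c11931 c2126 c530 c4384 c1243 c4464 c2000 (k4 c4312 c4407 c1203 c2120 (k2 c11516 c645 (k1 c1790 k0))))))))) (by decide +kernel)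
def c12250 : PP 8 4 T 0x1000000000001000000000000100000051100000114005101000002000000100100020 := rS 0x821f8ca1388324fafc (k8 c4480 c4379 c4305 c11368 c1678 c4412 c11433 c4464 (k1 c4313 k0)) (by decide +kernel)
def c12251 : PP 8 4 T 0x1000000002000000040004000500000455100000054015101000000100040000114020 := rS 0xbba2a109abd5f8359e36630d632b6623056a498b0a2227f8204c9e99558646312568b5ca2f50b24fafc (k8 c4480 c4379 c4305 c4551 c4432 c11030 c390 c4554 (k8 c12224 c4441 c268 c4445 c4443 c4297 c530 c4464 (k8 c4313 c11433 c4468 c4487 c1720 c4419 c4420 c7641 (k8 c7787 c7972 c1038 c9550 c4470 c1519 c1447 c1511 (k4 c1176 c325 c10080 c4397 (k2 c1441 c4493 k0)))))) (by decide +kernel)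
def c12252 : PP 8 4 T 0x1000000002000000040000000100000415100000154005101000004100040100114020 := rS 0x2ee8a8426af57e0d678d98c358cad988c15a924ff1609444c8c3598f49e414caac3231892b45e9716b9592fc (k8 c4480 c4305 c11030 c390 c11783 c4432 c4554 c12224 (k8 c4441 c268 c4445 c4443 c4433 c4297 c12250 c11612 (k8 c9009 c12251 c4412 c7854 c4487 c2490 c1718 c4419 (k8 c4420 c7641 c7787 c7972 c1038 c9550 c4470 c1519 (k8 c1447 c1511 c1176 c325 c10080 c4397 c1441 c4493 k0))))) (by decide +kernel)
def c12253 : PP 8 4 T 0x1000000000000000000000000000000008001000000000000000100004 := rS 0x2705 (k2 c4407 c1559 (k1 c4464 k0)) (by decide +kernel)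
def c12254 : PP 8 4 T 0x10000000020000000000000000000000111000000000000210000000000401201040a4 := rS 0x2e84562d331b95362f498e47e7538984e66f (k8 c1020 c1022 c2598 c2483 c2484 c11031 c1139 c1030 (k8 c4432 c764 c11030 c12253 c12248 c12249 c608 c12183 (k1 c12252 k0))) (by decide +kernel)
def c12255 : PP 8 4 T 0x10000000002000000080000140100000011100001554005001000006000040120114020 := rS 0xf4b36132208652904e202962b453aaf18aae248728a242e67568bd2e2d1a9f48ee5 (k8 c11030 c4374 c7516 c4373 c390 c11783 c4432 c4554 (k8 c655 c4431 c7030 c4435 c9141 c12224 c4445 c4441 (k8 c4346 c4344 c4298 c1782 c1680 c11368 c1678 c11345 (k4 c4412 c4464 c11431 c333 (k2 c4312 c8130 (k1 c1211 k0)))))) (by decide +kernel)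
def c12256 : PP 8 4 T 0x2000000002000000080000000000000011100001554005001000004000040120114020 := rS 0x311951642445068132178bafd5032172b31ea7cfaa33fc661a471a88c1a4d2586c2e4f35a95561918c493693568bd2e2d72aed628f1badd7ab5 (k8 c4389 c4354 c4353 c4386 c4388 c4350 c4390 c11030 (k8 c390 c11783 c4432 c4554 c1030 c764 c12224 c4441 (k8 c268 c4445 c4444 c4442 c4297 c4431 c4292 c4434 (k8 c4282 c4371 c4372 c4373 c4374 c5204 c5037 c7517 (k8 c11410 c7516 c11776 c12255 c11612 c7514 c2121 c2125 (k8 c4305 c810 c4477 c7308 c1381 c548 c4412 c2108 (k4 c4487 c717 c7641 c1756 k0))))))) (by decide +kernel)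
def c12257 : PP 8 4 T 0x800000002000000000000000000000050000001500044001000002000140121100000 := rS 0x8b3dc6566c221410ca5209c40523b0d8cda26d4eabc626b55a1ca2890bab5ca2f (k8 c4432 c11030 c4554 c4431 c7030 c4435 c9141 c4445 (k8 c4442 c4441 c4346 c4344 c4342 c4298 c4294 c4292 (k8 c89 c1680 c11368 c1678 c11345 c4412 c4464 c332 (k4 c333 c4312 c4446 c1211 (k2 c4632 c8117 k0))))) (by decide +kernel)
def c12258 : PP 8 4 T 0x2000000000001000040000000000000005100000114015001000005000044000114020 := rS 0x1f8251a31970c98204cce9716ac51eb3 (k8 c11612 c4388 c4350 c390 c11783 c655 c530 c4464 (k4 c10573 c9531 c11462 c7514 (k2 c1369 c11459 (k1 c11476 k0)))) (by decide +kernel)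
def c12259 : PP 8 4 T 0x2000000000000000000000001100000000000005000000000040000100404 := rS 0xc643f4feb98b1f42511322cc7a5d698456ab758c512e6f39a54c2713a9e4ee3f13a4cb0060c8b438672d88412010205c82318903cc6e5 (k8 c11030 c12253 c12232 c12224 c4441 c4433 c4431 c12247 (k8 c54 c263 c310 c574 c655 c6846 c390 c268 (k8 c4462 c4476 c1030 c872 c11031 c1023 c500 c2484 (k8 c2483 c2598 c11432 c1022 c1020 c11783 c12254 c4350 (k8 c4353 c4389 c608 c12256 c12183 c12257 c11612 c12258 (k8 c4412 c7854 c1651 c4487 c6781 c2490 c7787 c2121 (k2 c4463 c2487 k0))))))) (by decide +kernel)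
def c12260 : PP 8 4 T 0x1000000000000000000000000000020001100000000000000000000000000020000000 := rS 0x11f0d (k2 c4329 c2725 (k1 c4486 k0)) (by decide +kernel)
def c12261 : PP 8 4 T 0x1800000002000000040000000100414001080050000154500000000000000000054100 := rS 0x108cca29859281419bc961736aa4d6a5 (k8 c4444 c4442 c4345 c4342 c4431 c4434 c10992 c4570 (k4 c12056 c10573 c9302 c9368 (k2 c9372 c2119 (k1 c1481 k0)))) (by decide +kernel)
def c12262 : PP 8 4 T 0x1000000000000000000000000000000001100000000002000000000000000020000000 := rS 0x11f0d (k2 c4326 c2724 (k1 c4486 k0)) (by decide +kernel)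
def c12263 : PP 8 4 T 0x1800000002000000040000000100410001080010000114501000002000140000114140 := rS 0x1fa089f0991ccee5 (k8 c11030 c4555 c8078 c1679 c11776 c4464 c12261 c4313 k0) (by decide +kernel)
def c12264 : PP 8 4 T 0x1000000000000000000020000000510555182414204055580000000000000000000000 := rS 0x2393ea364af97b103c45e8abb (k8 c1442 c4397 c4417 c1785 c4487 c2016 c11641 c2588 (k4 c4337 c4414 c10985 c1516 k0)) (by decide +kernel)
def c12265 : PP 8 4 T 0x1000000002000000000000000000000001100000000004001000000000040000104812 := rS 0x1cced043ab1232c34a8f4fa8337a10226150a9da64154a654a0704ac4be5d4da4c4e971fa295e6d60ab4d22f35994ce2d2d070f61b55a1ca2890bb953b12 (k8 c12224 c4344 c11030 c4431 c7030 c4435 c9141 c4445 (k8 c4292 c702 c567 c566 c2920 c4555 c2539 c4442 (k8 c4432 c756 c4554 c8008 c4342 c4346 c8142 c398 (k8 c11783 c872 c1030 c764 c753 c2538 c2605 c84 (k8 c83 c4444 c4443 c4345 c4433 c12248 c10653 c12260 (k8 c12262 c606 c8696 c10992 c4570 c1502 c12263 c763 (k8 c9009 c7972 c2127 c12264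 c7079 c4632 c4408 c1095 k0))))))) (by decide +kernel)
def c12266 : PP 8 4 T 0x10000000000000000090001140001101101580054000100001000002040000000104040 := rS 0x1034553215facb41b2184766384d8b1784d2c2247 (k8 c4374 c4276 c4427 c4322 c4416 c1782 c1679 c330 (k8 c7804 c4494 c9509 c2002 c2028 c4305 c717 c10356 (k2 c4453 c1896 (k1 c4484 k0)))) (by decide +kernel)
def c12267 : PP 8 4 T 0x2000000002000000080001000000000001180044000100001000004000140020104040 := rS 0x3368aa65fb3d96a06250d72c34a8f53e7d51c661a471a88c82d14eaa55e9952aae249b49ab45e9772d2d768f1badd7ab5 (k8 c4389 c4354 c4353 c4386 c4388 c4390 c4427 c11030 (k8 c11783 c4432 c4554 c1030 c764 c12224 c4445 c4444 (k8 c4443 c4346 c4345 c4344 c4298 c4433 c4372 c4373 (k8 c4374 c5204 c5037 c11410 c7516 c11776 c12266 c763 (k8 c9009 c7514 c11164 c2127 c2125 c1756 c1794 c9033 (k4 c10851 c4453 c2066 c4495 k0)))))) (by decide +kernel)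
def c12268 : PP 8 4 T 0x2000000040041000010040400580004000054001000002100044000155100 := rS 0x488698446c97e1bd53123f9f48ee5 (k8 c11030 c8078 c7516 c7517 c12224 c4345 c10992 c4463 (k4 c10573 c10150 c4302 c7315 (k2 c2107 c7307 k0))) (by decide +kernel)
def c12269 : PP 8 4 T 0x2000000002000000040000000000000401180004000114001000002100144000105150 := rS 0x3bc654e851284146c709b1436d154a654ac1568bcd66755a1ca2890bb953b125da3c6ebd (k8 c4354 c4386 c4388 c4390 c12224 c4344 c11030 c4431 (k8 c7030 c4435 c9141 c4445 c4555 c4442 c4432 c4554 (k8 c8008 c4444 c4443 c4345 c4298 c4292 c1782 c1679 (k8 c330 c4241 c12268 c278 c710 c4558 c4539 c10356 (k1 c7804 k0))))) (by decide +kernel)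
def c12270 : PP 8 4 T 0x40000000000002000000002000000040000000100000415100000000114501000001000144000114800 := rS 0x3368acfa1a998cfc3793c8a095d8dc1a7165b11864160ab45e6b339ec368728a242e971fb95329d55abe24b7 (k8 c4353 c12224 c4346 c4445 c4344 c4443 c11030 c398 (k8 c11783 c4431 c7030 c4435 c9141 c4292 c702 c4555 (k8 c4442 c4432 c4554 c8008 c4433 c9009 c2127 c1756 (k8 c4387 c568 c4386 c4390 c84 c4296 c4297 c10992 (k8 c4463 c11475 c10640 c4391 c1519 c4453 c2066 c4495 k0))))) (by decide +kernel)
def c12271 : PP 8 4 T 0x2000000000000000000000001100000000000001000000000040000104814 := rS 0x33a86be5ca7d470d53b1c44601284196c461a547ad33f834e2b747aee294b60a292e67568b4722749a6cba652d17d621c348005e4136a7552af35a654aab8921ca2890b98dca07049ec363f (k8 c398 c4292 c702 c84 c83 c11030 c12253 c4431 (k8 c7030 c4435 c9141 c12224 c4445 c4444 c4443 c4442 (k8 c4346 c4345 c4344 c4342 c4433 c4432 c4461 c756 (k8 c567 c2605 c2538 c566 c2539 c753 c764 c1030 (k8 c872 c1139 c2920 c4554 c4555 c11783 c8142 c8008 (k8 c4427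 c12265 c4390 c4388 c4353 c4387 c568 c7517 (k8 c12267 c12269 c763 c9009 c2127 c1756 c12270 c278 (k8 c606 c607 c406 c4558 c4326 c936 c1300 c11342 (k4 c10851 c11164 c9033 c4150 k0))))))))) (by decide +kernel)
def c12272 : PP 8 4 T 0x2000000080000000000044000900000000054081000000000000001144001 := rS 0x32e96cf29319168464975f85f0d93da2a918a96248728a242e4d309fc1ae5 (k8 c11030 c4371 c7517 c5402 c4282 c4431 c7030 c4435 (k8 c9141 c12224 c4444 c4441 c4345 c4298 c4297 c4292 (k8 c577 c11548 c11069 c4305 c11065 c11308 c11768 c2109 (k4 c1519 c4456 c2022 c4184 k0)))) (by decide +kernel)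
def c12273 : PP 8 4 T 0x1000000002000000080000000010044000900004000054005000000000000000104060 := rS 0x1a2108b8ca694c253b9e4b05b098bc9e3336aa55e6b4ca95568728a242ee5008646312 (k8 c12224 c4441 c268 c54 c11030 c4431 c7030 c4435 (k8 c9141 c4445 c4444 c4443 c4442 c4346 c4345 c4342 (k8 c4294 c4297 c4432 c530 c12272 c4476 c540 c1111 (k8 c7033 c6996 c852 c4448 c9998 c4482 c2120 c4437 k0)))) (by decide +kernel)
def c12274 : PP 8 4 T 0x4000000000000000080820 := rS 0xb659 (k2 c2496 c2551 (k1 c4476 k0)) (by decide +kernel)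
def c12275 : PP 8 4 T 0x1000000002000000080000000000000001100004000014005000000000040000104060 := rS 0x4727d470d2388e2467568b5ca2f (k8 c4432 c11030 c390 c4554 c655 c12224 c4372 c4374 (k4 c5204 c11410 c11776 c4486 (k1 c12273 k0))) (by decide +kernel)
def c12276 : PP 8 4 T 0x1000040000000100000001100000000041401000000000140090155804 := rS 0x22c941db24ba393798c12b3329fcfb045c8f46a3f (k8 c398 c1099 c274 c7514 c4464 c4409 c4313 c7854 (k8 c662 c84 c12253 c10992 c358 c12183 c10573 c11288 (k2 c11337 c4471 (k1 c4418 k0)))) (by decide +kernel)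
def c12277 : PP 8 4 T 0x1000000000001000040000000000000001100000000000081000000000040000144824 := rS 0x3832146382ea858e377e840ea3d1a985625f0e8343c631f804ce65169fcfb04 (k8 c4464 c4409 c4313 c390 c7854 c655 c54 c398 (k8 c12253 c575 c2550 c758 c577 c2607 c6986 c1099 (k8 c274 c11468 c12276 c4300 c2202 c406 c11524 c11106 (k4 c4470 c4241 c5857 c359 (k1 c586 k0))))) (by decide +kernel)
def c12278 : PP 8 4 T 0x800000002000000000000000010000004014005000054000000006000100201000000 := rS 0x688422c84c58b8eda26d578c4d6ab (k8 c4445 c4442 c4441 c4346 c4342 c4298 c89 c4416 (k4 c1782 c8019 c10021 c10207 (k2 c2120 c4437 k0))) (by decide +kernel)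
def c12279 : PP 8 4 T 0x1000040000000000040000100050000055000000000000001210115020 := rS 0x23868d5f827 (k4 c350 c4463 c11358 c7315 (k2 c833 c4467 k0)) (by decide +kernel)
def c12280 : PP 8 4 T 0x1000000002000000000000000000000001100000000000005000000000040000100004 := rS 0x8c109146911ac02039518943a613783440582db4cdaa9578c4d6a555c490e514485cc6073d86c0267568bcca2d3f9f608130203c14e5 (k8 c11030 c12259 c12232 c12271 c12274 c4464 c4409 c4313 (k8 c390 c7854 c4432 c4554 c655 c54 c4292 c702 (k8 c83 c12253 c4431 c7030 c4435 c9141 c12224 c4445 (k8 c4444 c4442 c4441 c4346 c4345 c4342 c12275 c12277 (k8 c4476 c535 c2495 c1107 c617 c1025 c7033 c9384 (k8 c2322 c12279 c7962 c7007 c11179 c2120 c10002 c10949 (k1 c4446 k0))))))) (by decide +kernel)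
def c12281 : PP 8 4 T 0x2000000080000005400000000100040050000080000004000040000044020 := rS 0x22cb93abf07a5f0f395523152c480235 (k8 c4373 c54 c12224 c4444 c4441 c4345 c11030 c575 (k4 c577 c274 c11325 c11468 (k2 c7514 c8860 (k1 c7787 k0)))) (by decide +kernel)
def c12282 : PP 8 4 T 0x2000000002000000080000000410000000114044040014004000004000040000044020 := rS 0x1a2108b3b9e4b05b8c9b55e6b4caae24671badce2b5 (k8 c4389 c4387 c4353 c4386 c655 c12224 c4445 c4443 (k8 c4442 c4346 c4342 c5037 c12281 c4476 c540 c1111 (k4 c9998 c4482 c2120 c4437 k0))) (by decide +kernel)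
def c12283 : PP 8 4 T 0x1000040000000100000001100000000000081000000000040000155824 := rS 0x184ce2d0f074025f (k8 c577 c54 c758 c575 c390 c655 c614 c12276 k0) (by decide +kernel)
def c12284 : PP 8 4 T 0x800000002000000040000140010000001015004100056080000000150000000000020 := rS 0x778c9e612be45134d22436abcd6ab0c90c3c31 (k8 c4441 c575 c276 c268 c4445 c4442 c4346 c4342 (k8 c615 c10351 c284 c2120 c9891 c4322 c604 c4369 (k2 c1094 c4482 k0))) (by decide +kernel)
def c12285 : PP 8 4 T 0x2000000002000000040000000000000001100000000000081000000000040000144804 := rS 0x4964286186151b1d0afd081d47a352e97c3d12439451217319ec3667568bd2e3f328b4087f3ec11cabb58a3c72375ead41a71 (k8 c4387 c568 c4389 c4354 c4386 c4348 c4388 c4350 (k8 c4390 c11030 c4464 c4409 c4313 c12271 c390 c7854 (k8 c398 c11783 c4432 c4554 c655 c4292 c702 c12253 (k8 c4431 c7030 c4435 c9141 c12224 c575 c577 c840 (k8 c1099 c274 c11468 c12283 c4300 c710 c406 c4241 (k4 c12284 c4477 c11524 c5857 (k2 c11340 c11341 k0))))))) (by decide +kernel)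
def c12286 : PP 8 4 T 0x2000000000000000000000001100000000000005000000000040000100004 := rS 0x630407a235189526753c874c26f1007cb05b698356a7147ac6287d399fe086509a5d5a191699c08b31f9ec0e0a3183d12870d8bc2e51728c4d712 (k8 c12224 c4442 c4441 c11030 c4435 c4431 c4432 c4292 (k8 c9141 c7030 c12232 c12253 c12259 c83 c702 c398 (k8 c662 c12271 c655 c390 c268 c4554 c11783 c12274 (k8 c7854 c4464 c4313 c4408 c4409 c12280 c4350 c4388 (k8 c4387 c4389 c568 c12282 c12285 c4476 c271 c535 (k8 c1107 c617 c1025 c540 c538 c11351 c313 c9384 (k4 c832 c12278 c12279 c11343 (k1 c406 k0)))))))) (by decide +kernel)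
def c12287 : PP 8 4 T 0x1000000000000000000000000000000000004000000000040000200406 := rS 0x1297039685a282c9984213 (k8 c140 c9668 c646 c2630 c647 c911 c4476 c10598 (k2 c2745 c7431 (k1 c4462 k0))) (by decide +kernel)
def c12288 : PP 8 4 T 0x1000000000000000040000000000000000100000000000020000000000000020008120 := rS 0x2c0226f (k4 c1107 c113 c10635 c10281 k0) (by decide +kernel)
def c12289 : PP 8 4 T 0x11200000002000000000024000800000051100000010101020000000000000020014024 := rS 0xb95ab38bebb8623cfafc5b97502835892c2e6d54abcd71237a6c5e9f442f5a6a1 (k8 c12260 c12248 c3186 c1251 c4414 c4432 c764 c1107 (k8 c12224 c4442 c4346 c4345 c4342 c4431 c4434 c10281 (k8 c4570 c12056 c12183 c1163 c4480 c4379 c10309 c4486 (k4 c10310 c4382 c9577 c1789 (k2 c1526 c11040 k0))))) (by decide +kernel)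
def c12290 : PP 8 4 T 0x1000000100000800044044100000000000000000001800004100020080 := rS 0xb7638d0fe3f (k4 c11031 c2652 c609 c407 (k2 c1164 c11466 k0)) (by decide +kernel)
def c12291 : PP 8 4 T 0x11200000002000000000024000800000051100000010101020000000000000020010124 := rS 0x1cd3 (k2 c12248 c12289 (k1 c12288 k0)) (by decide +kernel)
def c12292 : PP 8 4 T 0x2200000000000000000100000000000051100000004001000000000000000000208004 := rS 0x2e5427c2fbf53eb5 (k8 c4389 c4414 c4376 c1376 c387 c11483 c1355 c11255 k0) (by decide +kernel)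
def c12293 : PP 8 4 T 0x2000000080000005000044055520400000001001000005000000000004000 := rS 0x679f540b91ab955f12 (k8 c12224 c4346 c11030 c4373 c7514 c2125 c1625 c1794 (k1 c5230 k0)) (by decide +kernel)
def c12294 : PP 8 4 T 0x800000002000000040000000010044000020040000055100000000000004001214000 := rS 0x445e12c34fa4c7e2141a6d54abc626b529a5024b (k8 c4434 c12056 c2040 c4444 c4442 c4441 c4346 c4345 (k8 c4342 c650 c684 c4463 c10080 c4379 c7315 c284 (k2 c9473 c4467 (k1 c1295 k0)))) (by decide +kernel)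
def c12295 : PP 8 4 T 0x40000000000012200000000000000000005000051100051120510001401500000000000000000000000 := rS 0x533319eb850a7cd2b5 (k8 c4389 c2040 c4414 c7527 c11255 c1526 c8268 c8425 (k1 c2066 k0)) (by decide +kernel)
def c12296 : PP 8 4 T 0x2000000040400000000000000020080000000000001000000000001015000 := rS 0x429359ec62393dcb43 (k8 c4392 c11030 c4297 c1311 c4473 c1519 c413 c685 (k1 c10080 k0)) (by decide +kernel)
def c12297 : PP 8 4 T 0x5000044055500000000000000000804000004000000000 := rS 0x142b9 (k2 c1316 c1585 (k1 c2125 k0)) (by decide +kernel)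
def c12298 : PP 8 4 T 0x2000000000000000000000001100000000000005000000000040000000404 := rS 0x1288e1a4c2f214fa7f7e0348e5d40b4c1ecb41ad56e8f58c50921134a20f54b4fa8e32c4882b582978bb0c4e934d9bc7465593252a61388fc385803064b62104810023d258bc8251729b53aa9578c4d69952aae2414 (k8 c12286 c12224 c4445 c4444 c4443 c4442 c4441 c4346 (k8 c4345 c4344 c4342 c11030 c4435 c4433 c4432 c4434 (k8 c326 c12287 c4461 c263 c310 c574 c268 c4462 (k8 c4476 c6846 c11031 c2483 c2598 c11432 c2610 c648 (k8 c2516 c649 c1107 c764 c1030 c872 c9009 c4358 (k8 c1196 c1580 c4809 c4487 c4553 c7972 c4337 c4414 (k8 c4429 c1250 c1251 c2040 c12290 c366 c12291 c4350 (k8 c4388 c4353 c4389 c642 c1756 c12292 c12293 c12056 (k8 c12183 c12297 c651 c4463 c12296 c4379 c684 c12295 (k4 c10080 c4382 c1295 c284 (k1 c4467 k0))))))))))) (by decide +kernel)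
def c12299 : PP 8 4 T 0x1000000000000000000000011100000055100000000004100000000000100000208100 := rS 0x11c6e (k2 c10635 c11513 (k1 c1345 k0)) (by decide +kernel)
def c12300 : PP 8 4 T 0x1000000002000000000000000100000015100004000004480000000000000020200112 := rS 0xcf442f8fb0941a101e1153985a61736aa4d6a582a2c36691684c4e5d5cad632c161a6696876245a22664b9d536ad140bd5712 (k8 c12224 c4445 c4432 c647 c780 c764 c2570 c929 (k8 c646 c4334 c4487 c7641 c1635 c4429 c4443 c4958 (k8 c4420 c7972 c4419 c6781 c2721 c872 c140 c911 (k8 c756 c4292 c718 c4308 c4444 c4442 c4345 c4342 (k8 c4431 c12248 c12262 c10653 c606 c12299 c8696 c4570 (k4 c4321 c1502 c10652 c4485 (k2 c4150 c8425 k0))))))) (by decide +kernel)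
def c12301 : PP 8 4 T 0x2000000080020044100000055500000410080000000000000140000000800 := rS 0x3ca0d026f42b3cfc605050d3ea38691c464d0892c2e4f729b55f125cc450e7b0d865960d (k8 c568 c1756 c309 c4292 c702 c1635 c4334 c6781 (k8 c12224 c4346 c4342 c11030 c4297 c4431 c4434 c4276 (k8 c4282 c4372 c4374 c5204 c11410 c11776 c11164 c5931 (k8 c896 c897 c1794 c712 c1459 c1462 c677 c4682 (k1 c9063 k0))))) (by decide +kernel)
def c12302 : PP 8 4 T 0x8800000000000000000000000010000044002004410004000000000000000000000002 := rS 0x1e0daab (k4 c4445 c4342 c9158 c602 k0) (by decide +kernel)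
def c12303 : PP 8 4 T 0x2000000002000000040000000000000401101000000100500000000000004001014800 := rS 0x2553131f86f17914629989024f61b5d8dc1a71 (k8 c4387 c568 c4386 c4390 c4292 c702 c84 c12224 (k8 c4443 c4441 c4296 c4432 c10992 c4463 c10080 c10640 (k2 c284 c4558 k0))) (by decide +kernel)
def c12304 : PP 8 4 T 0x2000000000000000000000001100000000000001000000000040000200814 := rS 0x51b1cc0fd08215a60d079c56e8f5dc503277622d5731656c452e5d4a89d3693169d5926314198b45f58acc38690f8005ee555c48270545824f61b (k8 c4292 c702 c84 c718 c4308 c140 c12224 c4445 (k8 c11030 c4432 c4461 c270 c756 c567 c2642 c2605 (k8 c2538 c566 c646 c647 c755 c2609 c2570 c911 (k8 c11351 c764 c872 c5073 c2721 c929 c4334 c780 (k8 c4487 c6781 c4419 c7641 c1096 c309 c12300 c4390 (k8 c4388 c4353 c4387 c11513 c568 c12301 c12302 c12303 (k4 c4300 c606 c407 c2748 (k1 c8857 k0)))))))) (by decide +kernel)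
def c12305 : PP 8 4 T 0x2000000000000100010000000040800000200014400000000000000000000000 := rS 0x16ea0 (k2 c10396 c1744 (k1 c851 k0)) (by decide +kernel)
def c12306 : PP 8 4 T 0x1000100002000000080100010010000001140000000054080000001000000000000820 := rS 0x1d9891934b05431661a547e751da4e204172a7532ab3d8752eb32187a12612e9e57e8e86d1508bb41a05f8a52faa41e010b84432318906c964d (k8 c4282 c4434 c4292 c12224 c4441 c268 c4276 c4431 (k8 c54 c12199 c4345 c577 c4444 c11325 c4380 c4306 (k8 c4735 c11065 c4397 c5204 c4486 c1515 c11641 c11069 (k8 c6986 c9457 c575 c276 c2645 c928 c758 c702 (k8 c4445 c4443 c4344 c11030 c4433 c4478 c4413 c1101 (k8 c12305 c399 c5073 c9009 c4471 c4551 c4420 c11233 (k4 c7972 c9627 c4482 c1096 k0))))))) (by decide +kernel)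
def c12307 : PP 8 4 T 0x1000000000000000000000000000000008080000001000000100000800 := rS 0x1283a (k2 c7109 c842 (k1 c1577 k0)) (by decide +kernel)
def c12308 : PP 8 4 T 0x1000000002000000080000000010000001100000000040080000001000000000200820 := rS 0x5c239930d08c49161b51c40c6212cb94cb05 (k8 c4308 c2556 c11030 c93 c311 c12307 c4478 c4337 (k8 c4292 c718 c12224 c4276 c5204 c630 c4486 c12306 (k1 c1475 k0))) (by decide +kernel)
def c12309 : PP 8 4 T 0x1000000002000000040000000400000001100000000045080000001000000081215804 := rS 0x1f982a18b30d12c54a8fe1345679d576846311d724d472fcfa362ebf102831cb24924b0b93c82e54586d2e271a90c63124f97d463b49c40cb05 (k8 c4308 c2556 c4478 c4413 c1101 c4337 c577 c6233 (k8 c12224 c4441 c276 c1099 c353 c928 c4292 c718 (k8 c11030 c4433 c4297 c4431 c4434 c366 c630 c358 (k8 c4570 c12056 c4463 c12183 c4470 c4379 c1511 c273 (k8 c2204 c1472 c1412 c9172 c10080 c4735 c12305 c1519 (k8 c4397 c4321 c399 c5073 c8360 c685 c9009 c4471 (k4 c4551 c4420 c4560 c11231 k0))))))) (by decide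 +kernel)
def c12310 : PP 8 4 T 0x40000000000000055500000008200000000020800 := rS 0x1f8e8fd (k4 c4300 c399 c11265 c2575 k0) (by decide +kernel)
def c12311 : PP 8 4 T 0x1000000002000000000000000000000001100000000000084000000000040000200824 := rS 0xa2a0e124c659a0a42967920fc7d5ac587e8164c30debf639c0ba3850a9c6e857e841a63b49a8e20635690c5a3d1a884c2b358994be0d0f164961b17915ca6d54abcd6a555c141267078646312 (k8 c12224 c4441 c268 c12199 c655 c84 c4308 c4445 (k8 c4444 c4442 c4346 c4345 c4342 c11030 c4296 c4432 (k8 c4292 c4434 c93 c575 c2550 c577 c2556 c2607 (k8 c2645 c6986 c311 c1099 c274 c2359 c276 c4554 (k8 c12307 c4478 c4337 c4413 c1101 c12308 c12309 c4300 (k8 c710 c2202 c11219 c11524 c4470 c11106 c359 c2377 (k8 c1240 c1073 c4477 c2564 c10235 c12310 c4471 c4419 (k8 c8975 c5857 c671 c1521 c1720 c11345 c11254 c2023 (k4 c4765 c4437 c2001 c4451 (k1 c4484 k0)))))))))) (by decide +kernel)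
def c12312 : PP 8 4 T 0x1000000002000000080000000000000001100000000000020000000000000001004800 := rS 0xe0827ea16111940a691cb1534349a11258bc2e4f19aa462a53d86c1a6f309e4d6774cc484a07 (k8 c83 c7033 c12224 c4443 c1111 c4442 c540 c617 (k8 c1107 c2495 c4292 c702 c4444 c4441 c4345 c4294 (k8 c4297 c4431 c4432 c4434 c4276 c4282 c5204 c6996 (k8 c622 c4486 c852 c1897 c4448 c4482 c4321 c5101 (k2 c2108 c4480 (k1 c2500 k0)))))) (by decide +kernel)
def c12313 : PP 8 4 T 0x800000002000000040100000510000044000515544005100001004000005200201000 := rS 0x1a4bf088646446c1618d62c951e905caa935a655705 (k8 c4308 c4445 c4443 c4442 c4345 c11030 c4433 c327 (k8 c5073 c7660 c11359 c9009 c4420 c833 c7972 c4467 (k4 c4482 c4382 c4437 c9576 k0))) (by decide +kernel)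
def c12314 : PP 8 4 T 0x800000002000000040000000000000000000000004015120000000000041040210820 := rS 0x3f22196c243908a43b1e45d64a349ab53e97168bdcaaf55c140e7b0d99c32313a9e4d6774c8fc402724b2562830ba04967d7e03c1a73 (k8 c1110 c2495 c12199 c4463 c4379 c4434 c12056 c4431 (k8 c4570 c622 c630 c366 c350 c535 c2367 c4443 (k8 c1111 c4442 c540 c2501 c4441 c268 c655 c4292 (k8 c702 c83 c4308 c4445 c4346 c11030 c4432 c391 (k8 c1196 c6237 c4554 c11351 c9384 c12313 c4358 c663 (k8 c1041 c4542 c8019 c1902 c333 c3932 c12278 c12294 (k1 c12296 k0))))))) (by decide +kernel)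
def c12315 : PP 8 4 T 0x1800000002000000040000000000000000000000004005124000000000041040210820 := rS 0x2d98e5f65afc990c620d846c1618d62c974aa256711321cc964f19b95523152aae0a8b3d86cea79359dd323f1c88092c958a9c4e2f3ebf01e0d (k8 c2495 c12199 c4463 c4379 c4432 c350 c4558 c622 (k8 c630 c366 c535 c2322 c2367 c4443 c1111 c4442 (k8 c540 c2501 c4292 c702 c718 c4308 c4445 c4444 (k8 c4441 c4345 c11030 c4294 c4297 c4434 c1110 c12314 (k8 c4412 c2519 c556 c1696 c1195 c7660 c11359 c4958 (k8 c4420 c833 c4470 c7254 c4467 c2111 c1511 c1757 (k4 c4382 c413 c9061 c9550 k0))))))) (by decide +kernel)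
def c12316 : PP 8 4 T 0x800000002000000040100000510000044000515544011100001000000005240201120 := rS 0x3497e110c8c88d8295618d62c3d20b95526b4caae0a3f (k8 c2367 c4308 c4445 c4443 c4442 c4345 c11030 c4433 (k8 c327 c7660 c11359 c9009 c7133 c4420 c833 c7972 (k4 c4467 c4482 c4382 c4437 (k1 c9576 k0)))) (by decide +kernel)
def c12317 : PP 8 4 T 0x1800000002000000040000000000000000000000004001024000000000041040210824 := rS 0x1422363978986942c20a429238ec78b239a4d5a9f518b52e65311f54e5d7e20506b1649244e4b1785dca6d54abd4aab45824f61b078646220068740e753c9acee99 (k8 c4443 c1111 c4442 c540 c2501 c83 c1025 c2495 (k8 c535 c4441 c268 c12199 c4292 c702 c84 c718 (k8 c4445 c4444 c4346 c4345 c4342 c11030 c4431 c4432 (k8 c4434 c350 c366 c630 c622 c4570 c12056 c4463 (k8 c12183 c4558 c4379 c12315 c67 c2801 c814 c818 (k8 c1610 c4554 c11351 c1109 c12316 c663 c1041 c8078 (k8 c1681 c4542 c9008 c4321 c4437 c10080 c2119 c2286 (k2 c1295 c4212 (k1 c2110 k0))))))))) (by decide +kernel)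
def c12318 : PP 8 4 T 0x800100000001000041000200000014400044000140114000001000000045650020820 := rS 0xb3628f56ec764a8d2688568b4daaf35aacce39 (k8 c2322 c655 c4445 c4442 c4346 c4342 c391 c6230 (k8 c6907 c11351 c9384 c637 c407 c9550 c11118 c1175 (k2 c663 c9491 k0))) (by decide +kernel)
def c12319 : PP 8 4 T 0x800000000001000040000600000014400044044000104024021000000045440220820 := rS 0xc75b32d88c161c596a974a9f512b388990e6ab828740e753c9acee991f8e440cd (k8 c2063 c535 c2322 c2367 c4443 c1111 c4442 c540 (k8 c2501 c83 c1025 c4308 c4445 c1110 c12318 c4412 (k8 c2519 c556 c9990 c1696 c1195 c11934 c7660 c4958 (k4 c2021 c7254 c9862 c1175 (k2 c413 c9550 k0))))) (by decide +kernel)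
def c12320 : PP 8 4 T 0x1000000002000000000000000000000001100000000000005000000000040000000004 := rS 0x4ab0d66c5608f56ecb63a4d5aa3648b52e653121d79458426c98bb4fa8484a7861a4922711afcfe361aac1fa10698e47e253c874c26f1007cb05b258bc9e4119b953aa9579ad32a55584e0a8b03824f61b0083c3204050506312 (k8 c12224 c4441 c12286 c12298 c12304 c268 c12199 c54 (k8 c4292 c702 c84 c83 c718 c4308 c140 c4445 (k8 c4444 c4443 c4442 c4346 c4345 c4344 c11030 c4294 (k8 c4433 c4297 c4432 c4434 c12311 c4476 c271 c535 (k8 c1107 c617 c1025 c540 c7033 c2367 c2322 c12312 (k8 c12317 c4300 c7962 c1033 c623 c2655 c1242 c7007 (k8 c4538 c11155 c11179 c7312 c4558 c10002 c4329 c4384 (k8 c4946 c2111 c11688 c10207 c4451 c325 c4440 c12319 (k8 c67 c2801 c814 c1728 c819 c820 c11351 c407 (k8 c8863 c9550 c11118 c8361 c1175 c663 c9009 c7133 (k1 c2127 k0))))))))))) (by decide +kernel)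
def c12321 : PP 8 4 T 0x2800000002000000080000000000000000000004000000480000040010000001004001 := rS 0x2117cfc8cc349a6d548c54a391b9c4ba8f (k8 c4388 c840 c4387 c4386 c4348 c4444 c4441 c4345 (k8 c4342 c4282 c5204 c5037 c11325 c11148 c11065 c4136 k0)) (by decide +kernel)
def c12322 : PP 8 4 T 0x2000000040000000000000000000004004000000010000150000001015000 := rS 0x21284 (k2 c10080 c4321 (k1 c10106 k0)) (by decide +kernel)
def c12323 : PP 8 4 T 0x2000000000040000000400000020000000010055404000000000005000200000 := rS 0x8e1aa03f9d0e71751c420a7d (k8 c4379 c4308 c4478 c4337 c4418 c1616 c5073 c10049 (k4 c10491 c7315 c11967 c4467 k0)) (by decide +kernel)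
def c12324 : PP 8 4 T 0x2000000000001000040000000400000051100010004055500000000000004800210000 := rS 0x2e0fca1639c56a9f51c420a49 (k8 c366 c4308 c4478 c4337 c6233 c4389 c4387 c1449 (k4 c11967 c9121 c11255 c7096 k0)) (by decide +kernel)
def c12325 : PP 8 4 T 0x2000000002000000040000000400000041100004000054504000000010004000215120 := rS 0x5c1f9430c11a544a4c3ebf0de617286463121c8dce2b54fa8e2105 (k8 c4308 c4478 c4337 c6233 c4389 c4387 c4386 c4348 (k8 c12224 c4441 c268 c11030 c614 c10992 c4463 c4379 (k8 c12322 c284 c12323 c12324 c4467 c4329 c7315 c11255 (k1 c7096 k0)))) (by decide +kernel)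
def c12326 : PP 8 4 T 0x2000000040008800000000000000000000000000001000000002000000000 := rS 0xc75c3389ee5 (k4 c11030 c4297 c1216 c1215 (k2 c1519 c7908 k0)) (by decide +kernel)
def c12327 : PP 8 4 T 0x800100000000000000004000400000020040000400114000000000000000000000000 := rS 0x10c7436abcd6ab (k4 c4445 c4442 c4346 c4342 (k2 c5073 c11067 (k1 c1693 k0))) (by decide +kernel)
def c12328 : PP 8 4 T 0x2000100002000000000000000000000001140000000012080000000000040000020820 := rS 0x1fb30ea8843b218d434ab0cee815f11c9a493488c490d689b55e6b55a3c72b75ea5d66274fa8c76938818c7a212cb94ced3218d43c5f0c8c41e013dc490a1b (k8 c4292 c710 c12224 c702 c54 c12199 c4441 c268 (k8 c577 c575 c1099 c276 c12321 c655 c11030 c93 (k8 c311 c274 c12307 c4478 c4413 c1101 c4337 c6233 (k8 c353 c2645 c928 c4354 c4353 c4348 c4388 c4445 (k8 c4442 c4346 c4342 c4298 c4326 c615 c766 c10351 (k8 c7307 c284 c1371 c11148 c1364 c1094 c12326 c12327 (k8 c11164 c4473 c407 c1733 c6907 c597 c637 c399 (k1 c7983 k0)))))))) (by decide +kernel)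
def c12329 : PP 8 4 T 0x10800000002000000000000101400410020000000010055500000040000005000200000 := rS 0xc329328982363320fa7f629d0e717258bc9e3354abc62a54fa8e2105 (k8 c4308 c4478 c4337 c6233 c4444 c4441 c4346 c4345 (k8 c4294 c4297 c4432 c4434 c4418 c1616 c5073 c1786 (k8 c10049 c1690 c2118 c631 c1449 c2111 c413 c412 (k2 c2028 c11827 k0)))) (by decide +kernel)
def c12330 : PP 8 4 T 0x2000000002000000000000000000000001100000000000084000000000040000200820 := rS 0x30ca4ca2608d8c496291c7d438bae12b195389618a130bf420d351c40c69f218f46a271097566973297c3c59258bc9e3322b9552a582a2c127b0d804ce0f0c8c6248f5ead41a71 (k8 c4387 c568 c4389 c4354 c4388 c12224 c4441 c268 (k8 c12199 c655 c54 c4292 c702 c84 c718 c4308 (k8 c4444 c4345 c11030 c4296 c4294 c4297 c4432 c4434 (k8 c93 c575 c577 c2556 c928 c2645 c840 c311 (k8 c353 c1099 c274 c276 c6233 c12307 c4478 c4337 (k8 c12321 c12325 c4300 c12328 c11524 c4477 c279 c11219 (k8 c8237 c12329 c11255 c4361 c4394 c7514 c1315 c1248 (k8 c2332 c4473 c1449 c2111 c413 c412 c2028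 c11827 k0)))))))) (by decide +kernel)
def c12331 : PP 8 4 T 0x2800000002000000080000000000000000000005404001000000000000001001005000 := rS 0xbc827e9a50b0853206324d0892c362f0b93c66a9189ad4a37 (k8 c4386 c4444 c4442 c4441 c4345 c4294 c4297 c4431 (k8 c4432 c4292 c4434 c4276 c4282 c5037 c8106 c6996 (k4 c4482 c4321 c4437 c5101 (k2 c2108 c4532 (k1 c548 k0))))) (by decide +kernel)
def c12332 : PP 8 4 T 0x2800000002000000040000000000000000000005400001000000000000001200014024 := rS 0x1a4bf0886464ba814189c9617549ac468f (k8 c4388 c832 c4442 c4345 c4431 c4434 c350 c4570 (k8 c12056 c12183 c9296 c4467 c4482 c4382 c4437 c9576 k0)) (by decide +kernel)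
def c12333 : PP 8 4 T 0x20100000000000000000005400040045500000104004000000000000000000000000 := rS 0x4aae5429f (k4 c4384 c4329 c4548 c5073 (k1 c2125 k0)) (by decide +kernel)
def c12334 : PP 8 4 T 0x2000100002000000000000000000000001140000100014020000000000044040020820 := rS 0x33890be628f22eb263b25834b51a4d10ad4b8b5a2e536a7552af52aacceb15bad43a07538bd429f861a50f088c88d1ed312880c26f069c43231079dd327935c48f61b (k8 c4292 c702 c12224 c4442 c540 c4443 c1111 c12199 (k8 c4441 c268 c4387 c568 c1107 c617 c535 c313 (k8 c12331 c4388 c832 c9296 c4482 c4440 c4437 c4467 (k8 c4384 c4329 c4432 c4558 c83 c1025 c4389 c4353 (k8 c4350 c655 c4445 c4444 c4346 c4345 c4344 c4342 (k8 c11030 c4298 c391 c1196 c6230 c6907 c11351 c9384 (k8 c4457 c1984 c8577 c407 c12333 c4358 c663 c1250 (k4 c8072 c11118 c4572 c1790 k0)))))))) (by decide +kernel)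
def c12335 : PP 8 4 T 0x2000100002000000000000000000000001140000100004424000000000040040020820 := rS 0x33e8716641f512b33221e111913ac56e2347b4c4a203ba64f26b309bc1a710c8c41e7b892143673 (k8 c1110 c4292 c710 c12224 c702 c12199 c4441 c268 (k8 c4387 c568 c1107 c617 c4442 c540 c4443 c1111 (k8 c535 c313 c12331 c4388 c832 c4353 c4350 c351 (k8 c9296 c4482 c4440 c12334 c2519 c556 c9990 c9061 (k4 c4481 c4422 c1792 c9154 k0))))) (by decide +kernel)
def c12336 : PP 8 4 T 0x40000000000000000100000000000010500804500000000000010154000000000000000000000020000 := rS 0x48669f97345 (k4 c4399 c4548 c5124 c1485 (k2 c671 c4573 k0)) (by decide +kernel)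
def c12337 : PP 8 4 T 0x100002000000040140944100000000020511554000000000000000000000020800 := rS 0x50970496111d9cc51e45d64cb60d2da2e53da143719 (k8 c4369 c4292 c710 c702 c11030 c4298 c4457 c1984 (k8 c2024 c12336 c4358 c663 c1250 c5956 c8078 c4494 (k4 c1790 c1215 c4473 c4394 k0))) (by decide +kernel)
def c12338 : PP 8 4 T 0x2000000002000000000000000000000001100000000004004000000000040000220820 := rS 0x7f59991128734c217cc741a04fac913178e66d57a9557054599d76b15baf43e756989440774c9e4d66137960b60d38864620f3dc490a1b (k8 c4292 c710 c12224 c702 c12199 c4441 c268 c4387 (k8 c568 c12330 c4476 c1107 c617 c4442 c540 c4443 (k8 c1111 c535 c313 c12331 c2501 c271 c4354 c4353 (k8 c4350 c4390 c655 c718 c4308 c4445 c4444 c4346 (k8 c4342 c1110 c12335 c543 c2510 c1380 c1381 c548 (k8 c2375 c7040 c7782 c4437 c4440 c12337 c6907 c2519 (k2 c2522 c5124 k0))))))) (by decide +kernel)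
def c12339 : PP 8 4 T 0x5400054045500000104010000000000000000040200120 := rS 0x4aae47b05 (k4 c4308 c327 c4548 c7133 (k1 c2125 k0)) (by decide +kernel)
def c12340 : PP 8 4 T 0x2000000002000000040000000000000001100000104008400000000000140250220820 := rS 0x662f8a4484d8ec78b263b2542a78627c4ed14eaa55e314ca9557120382576b75a8947e23479952ead17a4d46e5 (k8 c11030 c9384 c11351 c4432 c4554 c2801 c67 c4388 (k8 c832 c2367 c313 c4389 c4353 c4390 c84 c83 (k8 c12224 c4445 c4444 c4443 c4441 c4346 c4345 c4344 (k8 c4298 c351 c1611 c4467 c4558 c4329 c1728 c407 (k8 c12339 c663 c1041 c11122 c11118 c4542 c10851 c373 (k1 c7983 k0)))))) (by decide +kernel)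
def c12341 : PP 8 4 T 0x800000002000000000000804500000000000000154010800000000000140240220120 := rS 0x7c4fb2e214b290a52a3d68abc62ab82ab45e9372b258e26 (k8 c543 c2375 c2510 c11030 c11351 c4432 c4554 c4308 (k8 c4445 c4441 c4346 c4298 c327 c7133 c834 c11345 (k4 c9591 c4468 c2023 c4414 (k2 c12336 c1379 k0)))) (by decide +kernel)
def c12342 : PP 8 4 T 0x2000000000000000000000001100000000000005000000000040000000004 := rS 0x284b824b099a52238ec78b25f31d068113178e693568b4ca6242841a63f129dcf2750e984de200f960b60d38add62bb8a0641e043d8240e0a0a06c5ed172abc626b4ca955712 (k8 c12224 c4445 c4444 c4443 c4442 c4441 c4346 c11030 (k8 c4298 c4432 c4292 c12286 c12298 c83 c84 c702 (k8 c12304 c12199 c268 c12320 c4390 c4350 c4353 c4387 (k8 c568 c12330 c4476 c271 c535 c1107 c617 c1025 (k8 c2501 c540 c1111 c313 c2367 c12331 c12332 c710 (k8 c12338 c67 c814 c4554 c11351 c1109 c12340 c543 (k8 c1381 c548 c2375 c7040 c12341 c663 c1041 c8078 (k4 c4542 c7983 c333 c373 (k2 c1215 c4473 (k1 c4394 k0)))))))))) (by decide +kernel)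
def c12343 : PP 8 4 T 0x2000000080000000000000001900000000000004000000000000000008008 := rS 0x773cc25348234298b8252fbf45e4f19aa462a586c48c201 (k8 c28 c5402 c12224 c5204 c4444 c4441 c4345 c4294 (k8 c4297 c4432 c4376 c3401 c225 c4477 c6996 c812 (k4 c813 c852 c4437 c1961 (k2 c3906 c11594 k0)))) (by decide +kernel)
def c12344 : PP 8 4 T 0x2000000080101200000800000800050840055500000001040000240000200 := rS 0x1469f50a5127171f52d8a3b279048ad128b944f45219359a9a (k8 c852 c3982 c4282 c2014 c4453 c4278 c11030 c4435 (k8 c4298 c4296 c4433 c4297 c1061 c1095 c7558 c7719 (k4 c4356 c1121 c401 c11526 (k2 c1428 c2860 (k1 c2118 k0))))) (by decide +kernel)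
def c12345 : PP 8 4 T 0x1000000002000000080101000000800001100050800055500000001040000240000200 := rS 0x502560a724743624bc (k8 c4500 c12224 c5204 c4486 c12344 c4408 c1616 c8784 (k1 c4551 k0)) (by decide +kernel)
def c12346 : PP 8 4 T 0x1000000002000000080000000000000001100000000004481000000000000000104408 := rS 0xf9247432304ec6841b2612371e87df85d10020b267308051d0d530955231278bd4b1219a1ca27f069f5ca47 (k8 c4374 c11030 c7516 c4371 c7517 c4435 c9141 c4294 (k8 c12224 c4444 c4432 c4297 c4441 c4345 c224 c6996 (k8 c5204 c4486 c28 c5402 c919 c93 c839 c838 (k8 c11069 c11548 c223 c234 c232 c9457 c4305 c4306 (k8 c12234 c845 c1892 c12345 c578 c579 c11627 c1121 k0))))) (by decide +kernel)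
def c12347 : PP 8 4 T 0x802000002000000080000000000800000000000000001400000000000000000000000 := rS 0x2e1a55231 (k4 c4441 c4345 c4437 c9457 (k1 c812 k0)) (by decide +kernel)
def c12348 : PP 8 4 T 0x1000000002000000080000000000000001100000000000481000000000000000104408 := rS 0x18852e5 (k4 c11030 c2834 c12346 c11648 k0) (by decide +kernel)
def c12349 : PP 8 4 T 0x1000000002000000080000000000000001100000000000405000000000000000100008 := rS 0xf2772c16e126b05984029a530941ea91893c5ea519a3a1b12 (k8 c12224 c5204 c4486 c4294 c4444 c4432 c4297 c4441 (k8 c4345 c12343 c224 c6996 c852 c28 c5402 c303 (k4 c4442 c12347 c12348 c4476 (k2 c1889 c540 (k1 c11594 k0))))) (by decide +kernel)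
def c12350 : PP 8 4 T 0x10800000002000000000000200000000001800100000000800010000000000000015000 := rS 0x42866107b3b9e506b12c12c3617279ad3243 (k8 c2014 c4443 c4442 c4297 c4431 c4292 c4434 c1426 (k8 c545 c548 c540 c1111 c1171 c4482 c4540 c4321 (k1 c2108 k0))) (by decide +kernel)
def c12351 : PP 8 4 T 0x1000000002000000080000000000000001100000000000005000000000000000000008 := rS 0x1e4ee582d8b0c4148497e32814d2f14c2507a38c30d06934222f278cd523135a962401 (k8 c28 c12224 c4444 c4442 c4441 c4345 c4294 c4297 (k8 c4432 c4276 c4282 c4371 c5204 c5402 c4486 c12343 (k8 c224 c6996 c4500 c852 c1897 c4448 c12350 c12347 (k8 c12349 c383 c382 c2839 c4476 c1889 c540 c11594 k0)))) (by decide +kernel)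
def c12352 : PP 8 4 T 0x1000000002000000040000000000000000100000000000480000000000000000008008 := rS 0x362609c6a3953984104b1793c66a918a96240d7e88c0225 (k8 c225 c28 c1328 c4376 c32 c12224 c4444 c4441 (k8 c4345 c4294 c4297 c4432 c4434 c839 c6989 c11219 (k4 c4528 c1060 c239 c2111 (k2 c4470 c2147 k0)))) (by decide +kernel)
def c12353 : PP 8 4 T 0x801000000000000000000000400000040054005540154000000000000000000000000 := rS 0x4ac4584ac36abcd69955b158318 (k8 c4482 c4450 c4370 c4445 c4443 c4442 c4346 c4342 (k4 c2120 c2123 c4338 c10572 (k1 c4958 k0))) (by decide +kernel)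
def c12354 : PP 8 4 T 0x1000040000000000000000081800000000000021000000000000010000 := rS 0x31d90cb (k4 c1753 c644 c413 c8024 k0) (by decide +kernel)
def c12355 : PP 8 4 T 0x1000000000000000040000000000000000001008000000000020100010000000008000 := rS 0x1b8e57a09 (k4 c1224 c1172 c240 c325 (k1 c4470 k0)) (by decide +kernel)
def c12356 : PP 8 4 T 0x801000000000000000000000400000040054004000154020000000000000000000000 := rS 0xea79359dd3273 (k4 c1110 c4443 c1111 c4442 (k2 c540 c538 (k1 c12353 k0))) (by decide +kernel)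
def c12357 : PP 8 4 T 0x801000000001000000000000400000040054004000144021000000000000100000011 := rS 0x186754a8b2226439b1583183c9acee99 (k8 c4443 c1111 c4442 c540 c4482 c4450 c4370 c1110 (k4 c12356 c4412 c9676 c854 (k2 c539 c4958 (k1 c2123 k0)))) (by decide +kernel)
def c12358 : PP 8 4 T 0x800000002000000040000000000000000000004010101025000000200041000108008 := rS 0x6125694281698912870b9453aaf55814ce970e82d3f0c45a090a1172a6d8ac18c1e4d6774cc24304c5392c622f5288c023327aa442271e81c1ab9248ed6608 (k8 c240 c1186 c3112 c242 c1202 c32 c1138 c2158 (k8 c239 c360 c4345 c4297 c4294 c28 c1328 c4444 (k8 c4432 c4441 c4434 c4558 c2111 c244 c4436 c4443 (k8 c1111 c4442 c540 c4482 c4450 c4370 c4448 c11030 (k8 c113 c1495 c245 c12354 c11620 c4384 c303 c790 (k8 c11617 c919 c55 c4445 c4346 c4344 c4435 c4431 (k8 c9141 c7030 c12357 c815 c11648 c7770 c11639 c7251 (k1 c4459 k0)))))))) (by decide +kernel)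
def c12359 : PP 8 4 T 0x1000000002000000040000000000000000100000000000405000000000040000008008 := rS 0x28381b90e307b84860986953ac04e35389dcf26137960b625258bc6645548c4d69952c4822fd4293c4601 (k8 c28 c1328 c4297 c1495 c4376 c113 c12224 c4444 (k8 c4443 c4442 c4441 c4345 c4296 c4294 c4432 c4434 (k8 c225 c12352 c4476 c1107 c617 c540 c1111 c536 (k8 c1329 c239 c4480 c4558 c11637 c2111 c244 c4436 (k4 c12355 c4482 c4446 c324 (k2 c8612 c12358 (k1 c2353 k0))))))) (by decide +kernel)
def c12360 : PP 8 4 T 0x1000000002000000000000000000000001100000000000005000000000040000008000 := rS 0x8f86979a602 (k4 c12342 c12351 c12359 c4382 (k2 c3401 c4486 k0)) (by decide +kernel)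
def c12361 : PP 8 4 T 0x1800000000000000040000000000000000000500400000480000000040405600000200 := rS 0x42974186e478d0726d549ad4a69 (k8 c845 c4444 c4442 c4345 c4342 c360 c4470 c1305 (k4 c1059 c1060 c840 c1500 (k1 c9530 k0))) (by decide +kernel)
def c12362 : PP 8 4 T 0x2000001000000000000000000040800000200014400000001200000200000400 := rS 0x24ae07cc9 (k4 c4305 c11627 c12305 c2333 (k1 c1202 k0)) (by decide +kernel)
def c12363 : PP 8 4 T 0x801000000000000000000000400000040054005500154000000000000000000000000 := rS 0xe50436abcd6ab (k4 c4445 c4442 c4346 c4342 (k2 c6907 c12353 (k1 c4408 k0))) (by decide +kernel)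
def c12364 : PP 8 4 T 0x1000000000000000008000900000000000000000001400000200000000 := rS 0x8b8fd6895 (k4 c1699 c1427 c401 c4419 (k1 c4471 k0)) (by decide +kernel)
def c12365 : PP 8 4 T 0x1000000000000000000000000000000110000001004000882050000055500000000000000000000000 := rS 0xa05bb3696cb (k4 c1752 c4427 c1481 c7551 (k2 c9372 c851 k0)) (by decide +kernel)
def c12366 : PP 8 4 T 0x1000000040000000000000000080000000001000000000000000100000 := rS 0x2705 (k2 c4313 c515 (k1 c4464 k0)) (by decide +kernel)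
def c12367 : PP 8 4 T 0x1000000000000800002000001000000000000400000040916044400155500000001200000200000600 := rS 0x3b4f1cd1475649f58b18849e57ea9 (k8 c4345 c1515 c603 c4321 c4482 c4370 c4379 c4305 (k4 c12362 c12363 c1770 c12365 (k2 c1061 c12364 k0))) (by decide +kernel)
def c12368 : PP 8 4 T 0x1000000000000000000000000000000020080000001000000040000400 := rS 0xf92474 (k4 c578 c579 c11627 c1121 k0) (by decide +kernel)
def c12369 : PP 8 4 T 0x2002000000040000000400400040914044400155500000001200000200004600 := rS 0x14542394daa935a9624830ba04224b (k8 c4434 c2305 c12056 c4431 c4570 c12224 c4444 c4442 (k4 c4345 c4342 c11030 c8696 (k2 c9368 c12367 k0))) (by decide +kernel)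
def c12370 : PP 8 4 T 0x1000000002000000040000000400000041100000400055481000000000001600104600 := rS 0x62b0d9e955127c76a160d2e22735641117193ca697745531d4fec75f8e1f88e2ec344c6917aa55e6b4caad0e5144b94f66d890f46e830ba04224b (k8 c4434 c2305 c12056 c4431 c4570 c232 c234 c12224 (k8 c4342 c704 c11030 c7030 c4435 c9141 c4445 c4443 (k8 c4442 c4346 c4345 c4432 c845 c12361 c4324 c807 (k8 c4486 c4477 c847 c1515 c2378 c12366 c12362 c12369 (k8 c4453 c1979 c852 c11641 c4448 c4632 c6907 c2120 (k8 c4408 c4338 c4458 c1987 c2851 c1061 c12364 c4536 (k4 c2858 c1523 c4958 c8360 (k1 c9443 k0)))))))) (by decide +kernel)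
def c12371 : PP 8 4 T 0x14040400050000045510000008120000200002000 := rS 0x19049 (k2 c370 c9682 (k1 c507 k0)) (by decide +kernel)
def c12372 : PP 8 4 T 0x1000000002000000000000000000000001100000000000415000000000044000100000 := rS 0x11e86a2248b222b9619d52a3f3f9f58e5d5b830dcb5478d13ea11ca9e182f20915a251548c54b12088dc8676328f43e631488c400859968c22507b4d2e1d7299c1602 (k8 c12342 c303 c919 c11030 c790 c11617 c12351 c12360 (k8 c224 c879 c4476 c5025 c839 c838 c2833 c2834 (k8 c11648 c223 c234 c12368 c12370 c1887 c232 c2305 (k8 c12224 c4444 c4441 c4345 c4435 c4298 c4296 c4433 (k8 c4432 c4467 c4558 c360 c4329 c4384 c4470 c10003 (k8 c7883 c1059 c1060 c3053 c840 c3417 c1292 c12366 (k8 c12371 c11624 c11627 c9009 c9742 c11040 c4468 c368 (k4 c9121 c4393 c1313 c4473 k0)))))))) (by decide +kernel)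
def c12373 : PP 8 4 T 0x1000000000000000000002000000001000000000400000954000000155480000001000008200000200 := rS 0x1469f248ed42cba5c44e6ac82345ca6d579ad5712 (k8 c12224 c4445 c4442 c4346 c4342 c11030 c4298 c6907 (k8 c2120 c4408 c4338 c4458 c2026 c2851 c1061 c4573 (k2 c12364 c935 (k1 c4536 k0)))) (by decide +kernel)
def c12374 : PP 8 4 T 0x40000000000000000000000000000000500000040044000002050000055500000000000000000000000 := rS 0x19ca0 (k2 c2118 c4184 (k1 c1794 k0)) (by decide +kernel)
def c12375 : PP 8 4 T 0x1000000000000000008000900000000004080000001000000000000408 := rS 0xea2220 (k4 c838 c4414 c12364 c11556 k0) (by decide +kernel)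
def c12376 : PP 8 4 T 0x2000000040000000000404000914040000155480000001000008200004200 := rS 0x51281974b453368a8436aa55e6b52c4906174092d927d7e174230d (k8 c4324 c2305 c807 c4477 c4379 c7308 c4434 c12056 (k8 c4431 c4570 c12224 c4444 c4442 c4346 c4345 c4342 (k8 c8696 c9368 c1481 c12373 c4427 c1752 c9372 c12374 (k1 c161 k0)))) (by decide +kernel)
def c12377 : PP 8 4 T 0x1000000000001000000000000000040001100040000055484000001000008000000008 := rS 0x2507ea016b24fafc2e84410204fa3a1a0b (k8 c303 c4324 c4486 c12375 c838 c839 c2305 c807 (k8 c4477 c4379 c7308 c11748 c2118 c400 c4551 c11624 k0)) (by decide +kernel)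
def c12378 : PP 8 4 T 0x1000000002000000000000000000000001100000000000415000000000040000100000 := rS 0x4d460d1455ea9c98cc29314e63f1dc10909588a85449f3fb1cfabf1c3f1928e2ec344cbb219d8ca811e844c62310020521f5996896a94cc48ce970e82da6253083c048728a242ee5 (k8 c11030 c4431 c7030 c4435 c9141 c12342 c12360 c879 (k8 c224 c12351 c303 c790 c11617 c919 c12224 c4443 (k8 c4345 c4434 c4476 c5025 c223 c2834 c839 c838 (k8 c2833 c11648 c2305 c234 c12056 c12368 c12370 c1887 (k8 c1890 c12372 c4324 c807 c4486 c7308 c4477 c847 (k8 c1515 c4379 c2378 c12366 c12375 c12377 c161 c4337 (k8 c2858 c935 c8784 c11556 c401 c4408 c1095 c11242 (k8 c373 c372 c2067 c6588 c4451 c12376 c4493 c844 (k1 c4448 k0))))))))) (by decide +kernel)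
def c12379 : PP 8 4 T 0x1000000002000000040000000000000001900000000000420000000000004210004088 := rS 0x69841ed625d7e465780d211306c23860d49e33548c54a61379e4d6774cc48e2a7178950617408449639 (k8 c360 c4434 c342 c12056 c4431 c4570 c224 c4432 (k8 c4558 c536 c12224 c4443 c1111 c4442 c540 c1107 (k8 c879 c4444 c4441 c4345 c4294 c4297 c11696 c11631 (k8 c833 c4470 c2111 c10003 c1407 c325 c4446 c4463 (k4 c4377 c4304 c1171 c4482 (k2 c4437 c9576 k0)))))) (by decide +kernel)
def c12380 : PP 8 4 T 0x1000040000000000014040000000100055501020002000040200114000 := rS 0xfd3fb25467d6384c5a47 (k8 c8078 c329 c1678 c2286 c7516 c9384 c10573 c12366 (k2 c8715 c5857 k0)) (by decide +kernel)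
def c12381 : PP 8 4 T 0x1000001000000000040000000000000000000000004000420000000000004000014001 := rS 0x2c01871 (k4 c536 c4463 c4480 c4865 k0) (by decide +kernel)
def c12382 : PP 8 4 T 0x1000000000000820002000000000040000000000400000002040000155400000000000005400000000 := rS 0x11916a266c10daa9579ad565d649f5429f (k8 c4384 c4329 c4379 c4305 c4377 c4445 c4442 c4346 (k8 c4345 c4342 c8784 c1481 c7315 c9372 c10585 c1313 k0)) (by decide +kernel)
def c12383 : PP 8 4 T 0x820002002000000040000000000000000014000000155400000000000005400014000 := rS 0x22e0a7e4206da2e536abcd6ab2eb268a4c258c54a3327aa54e2f (k8 c4432 c4558 c4345 c4297 c4294 c4444 c4441 c4434 (k8 c2111 c4451 c4305 c4377 c4445 c4442 c4346 c4342 (k8 c11030 c4298 c4292 c8696 c12382 c4313 c9649 c6907 k0))) (by decide +kernel)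
def c12384 : PP 8 4 T 0x1020002002000000040004040400000050114041554055404020000100044400000000 := rS 0x7b62af17e8b650d99ac1630d492b65c8b16b115113dcaa98917562c93ea853f45 (k8 c4451 c4384 c4329 c4379 c4305 c4304 c4377 c12224 (k8 c4345 c11030 c4297 c7315 c4337 c1436 c11410 c6781 (k8 c11717 c368 c1038 c9550 c1749 c2063 c4470 c413 (k4 c9372 c1511 c325 c1757 (k2 c1171 c2123 k0))))) (by decide +kernel)
def c12385 : PP 8 4 T 0x1020002002000000040000040000000040100000000055425020000000044600114400 := rS 0x351bb1819053f30d66951e9d4828728a242ee5379e4d6774cc48e2732e8e47e060496d429f (k8 c4384 c4329 c93 c231 c4462 c11031 c360 c4377 (k8 c1110 c536 c12224 c4443 c1111 c4442 c540 c1107 (k8 c11030 c4431 c7030 c4435 c9141 c4433 c538 c12380 (k8 c9517 c11612 c9009 c12384 c4313 c7517 c12366 c1407 (k2 c8718 c4470 k0))))) (by decide +kernel)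
def c12386 : PP 8 4 T 0x1000000002000000000000000000000001100000000004405000000000044200100000 := rS 0x3da2d8abc5fb286cc1630d56cb95ab0cea951e925662c88990989f11aee188f1f81872092790466a918a940a674b87416614394512177296cf26b3ba66247139a9c5e254092d62c97e044de5807b4c0202 (k8 c12342 c28 c12351 c12360 c12378 c1107 c342 c12381 (k8 c4305 c4304 c4434 c12056 c224 c4432 c4558 c1110 (k8 c536 c12224 c4443 c1111 c4442 c540 c93 c11030 (k8 c4431 c7030 c4435 c9141 c879 c303 c790 c11617 (k8 c919 c55 c4444 c4441 c4345 c4294 c4433 c4297 (k8 c231 c360 c4462 c11031 c12379 c4486 c10310 c832 (k8 c4384 c2111 c12385 c4412 c9676 c553 c368 c329 (k8 c855 c499 c9009 c7420 c6781 c11717 c1038 c9550 (k8 c1749 c4470 c413 c1511 c325 c1757 c1752 c1171 (k1 c2123 k0)))))))))) (by decide +kernel)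
def c12387 : PP 8 4 T 0x820002000001000000011000400000040014045540055400020000000044500000000 := rS 0x45b0d9a95248b222a254a64bac93ea853f45 (k8 c4451 c4384 c4329 c4379 c4305 c4377 c4443 c4345 (k8 c7315 c4337 c11410 c368 c854 c2063 c4958 c9372 (k1 c2123 k0))) (by decide +kernel)
def c12388 : PP 8 4 T 0x1000000000000400000000000080050000001000000200000000100000 := rS 0xfa2cc6 (k4 c12366 c10049 c410 c4356 k0) (by decide +kernel)
def c12389 : PP 8 4 T 0x1800002002000000040000400400000040014044000055420000000000045500014000 := rS 0x60b1630cf84a88d075729e4d6774c9ccfabb862068a4c258c54a3327aa54e2f (k8 c4432 c4558 c4345 c4297 c4294 c4444 c4441 c4434 (k8 c2111 c4451 c12056 c4467 c4945 c4379 c1110 c4443 (k8 c1111 c4442 c540 c11030 c538 c12383 c7315 c4437 (k4 c1523 c4482 c8360 c4450 (k1 c12387 k0))))) (by decide +kernel)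
def c12390 : PP 8 4 T 0x1000000002000000000000000000000001100000000004405000000000044000100000 := rS 0x65b1914b660ad58ac33aae5243e4a9245911321fd7e38599ed3e37040d4990c0f08c427d64ac4bafc53844962f278cc8aa918a9556050099d2e1d05b4c4a61078090e514485dca6f3c9acee99891c4e658 (k8 c12378 c1110 c536 c12224 c4443 c1111 c4442 c540 (k8 c1107 c11030 c4431 c7030 c4435 c9141 c12342 c12360 (k8 c879 c224 c12351 c303 c790 c11617 c919 c28 (k8 c55 c4445 c4444 c4441 c4345 c4296 c4294 c4297 (k8 c4432 c4434 c342 c4558 c12381 c4377 c4304 c4305 (k8 c4379 c12386 c792 c4466 c4467 c2111 c1099 c222 (k8 c2130 c4384 c1224 c1186 c4470 c1240 c12388 c12389 (k8 c4412 c9676 c368 c854 c392 c393 c1202 c539 (k8 c4958 c1248 c1658 c1660 c4088 c7254 c1162 c1752 (k1 c413 k0)))))))))) (by decide +kernel)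
def c12391 : PP 8 4 T 0x1000000000000000040000000000000001100000010000020000000000009010000408 := rS 0xe094707e1a6f (k4 c1107 c4324 c353 c4486 (k2 c1105 c11631 (k1 c4462 k0))) (by decide +kernel)
def c12392 : PP 8 4 T 0x40000000000020200000400 := rS 0xe09 (k2 c231 c9410 (k1 c4462 k0)) (by decide +kernel)
def c12393 : PP 8 4 T 0x1000000002000000000000000000000001100000000000405000000000040000100000 := rS 0x18e47a18fd6d163facd2a381d8dc0e350f084e64949848fac9588a0eb057e1882227389bcb658728043a0b698941e02 (k8 c12342 c12360 c224 c12351 c303 c790 c28 c11030 (k8 c12378 c93 c1107 c536 c12391 c342 c12390 c12381 (k8 c4407 c1689 c11648 c4304 c4305 c4379 c4464 c3504 (k8 c1718 c1109 c12392 c4466 c1099 c1098 c2130 c1101 (k8 c4470 c7261 c512 c12388 c7153 c5124 c4356 c4424 (k2 c1586 c410 (k1 c4473 k0))))))) (by decide +kernel)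
def c12394 : PP 8 4 T 0x40000000000040000000000000000010200408 := rS 0x166064a824405b8887c5862 (k8 c383 c382 c2346 c4332 c2839 c4466 c231 c4534 (k2 c4462 c7239 (k1 c648 k0))) (by decide +kernel)
def c12395 : PP 8 4 T 0x1000000002000000000000000000000001100000000000005000000000040000000000 := rS 0x389604c5b2f0941ed3028552ee53382c3a02 (k8 c12342 c790 c303 c919 c11030 c11617 c12394 c55 (k8 c12351 c12360 c224 c12393 c577 c10439 c4476 c7014 (k1 c12391 k0))) (by decide +kernel)
def c12396 : PP 8 4 T 0x800000002000000000000000000000000400000000000415000000000004000108008 := rS 0x41116cda2a08ca4c34b4d030c1e98d4e5d040a43e5a258bc666d54abc626b52aac0a0b33a1ca2890bb944a1130bf50a4f249fc4601 (k8 c28 c1328 c1456 c242 c4297 c1495 c4376 c878 (k8 c342 c225 c11030 c4431 c7030 c4435 c9141 c919 (k8 c303 c55 c4445 c4444 c4442 c4441 c4346 c4345 (k8 c4342 c4294 c4432 c4434 c4476 c223 c2834 c839 (k8 c840 c11219 c11648 c234 c4477 c9279 c6996 c10793 (k8 c2111 c12368 c2119 c4451 c2063 c12354 c6907 c8638 k0))))))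 (by decide +kernel)
def c12397 : PP 8 4 T 0x2800000002000000080000000000000000000001400001400000000000001000008000 := rS 0x1e905092e29a330d1793c66a918a956237 (k8 c4386 c4350 c4444 c4441 c4345 c4294 c4297 c4432 (k8 c5204 c5037 c6996 c4046 c12347 c813 c4482 c642 k0)) (by decide +kernel)
def c12398 : PP 8 4 T 0x2000000002000000000000000000000001100000000000405000000000004000108008 := rS 0x3dc250418264654ed33b9e4b023258bc9e334eaa4626b4ca96240158a3c4a61 (k8 c878 c225 c4388 c4350 c28 c12224 c4444 c4443 (k8 c4442 c4441 c4345 c4344 c4294 c4297 c4432 c4434 (k8 c1328 c12396 c540 c1111 c12397 c4558 c4539 c2111 (k4 c244 c245 c4436 c642 (k1 c4482 k0))))) (by decide +kernel)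
def c12399 : PP 8 4 T 0x800000002000000000004000000000000004002200114000000001000000200000400 := rS 0x11694628f88ae536abcd6ab (k8 c4445 c4442 c4346 c4342 c11030 c4296 c11627 c1248 (k2 c401 c605 (k1 c11067 k0))) (by decide +kernel)
def c12400 : PP 8 4 T 0x12001000002000000000100000400000040114000404054080000001000000200000400 := rS 0x25622b839ab2088b3ab0cf069579ad56b1389ecdb12 (k8 c12224 c4342 c704 c4387 c4350 c4445 c4442 c4346 (k8 c845 c4482 c2056 c12399 c4632 c6907 c2120 c4408 (k4 c8522 c4338 c861 c6781 k0))) (by decide +kernel)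
def c12401 : PP 8 4 T 0x2000000002000000080000000400000040114000000055480000001000000200000600 := rS 0x86793b324df098cc349aa918aec6e7b36c48ba8f (k8 c4388 c840 c12224 c4342 c704 c4386 c4390 c4441 (k8 c4345 c4282 c5204 c5037 c9457 c9688 c7308 c12400 (k2 c98 c1887 (k1 c9686 k0)))) (by decide +kernel)
def c12402 : PP 8 4 T 0x10820000002000000040000000000400000000000410001580000000000000000014000 := rS 0x7984a10d2a935a94f66d4185d024b (k8 c4434 c12056 c4431 c4570 c4342 c704 c4444 c4442 (k4 c4345 c845 c8696 c9576 (k2 c602 c4482 k0))) (by decide +kernel)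
def c12403 : PP 8 4 T 0x1000040040000000080000000000000000000000000000044400000000 := rS 0x2411c5943 (k4 c4393 c11410 c1313 c4473 (k1 c368 k0)) (by decide +kernel)
def c12404 : PP 8 4 T 0x2020000000001000000000000000000041100000000000000002001000044000000000 := rS 0x168fc72b5 (k4 c4389 c4348 c370 c368 (k1 c11340 k0)) (by decide +kernel)
def c12405 : PP 8 4 T 0x1000001000040100000000010000000050000055500000000000044400002000 := rS 0x144c7 (k2 c1447 c5857 (k1 c12403 k0)) (by decide +kernel)
def c12406 : PP 8 4 T 0x1001002000000040000000000010000014000000055581021000001054400014000 := rS 0xa50b55a8b88414fcc93ea10181b17b45ca830ba049745 (k8 c4451 c4434 c12056 c4431 c4570 c11030 c4298 c4432 (k8 c4292 c4463 c4484 c1292 c507 c12405 c4313 c6629 (k4 c9649 c4903 c4332 c4485 (k1 c9591 k0)))) (by decide +kernel)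
def c12407 : PP 8 4 T 0x2000002000000000040000000400000040100040000055500000000000005400000000 := rS 0xe84739a8a08b1479c5429f86324de7d (k8 c4379 c4378 c4305 c4467 c4384 c4329 c4387 c4388 (k4 c4350 c8784 c2118 c4408 (k2 c1313 c9237 (k1 c10497 k0)))) (by decide +kernel)
def c12408 : PP 8 4 T 0x2000000000000000000000001100000000000415000000000044000000000 := rS 0x955c9d621053f1bdf849849d93ea12646618a7699947a632e88c40081487d665a258bc9e33548c54b1243945121747adce2b512844c20f8a0552ee53382c3a02 (k8 c12342 c790 c303 c919 c11030 c11617 c12394 c12395 (k8 c12398 c878 c342 c225 c4389 c4387 c4353 c4388 (k8 c4431 c7030 c4435 c9141 c12224 c4444 c4441 c4345 (k8 c4294 c4297 c4432 c4434 c4476 c5025 c223 c2834 (k8 c839 c838 c2833 c840 c11648 c234 c12368 c12401 (k8 c4558 c4467 c9296 c2111 c4329 c4384 c12402 c4438 (k8 c12404 c12406 c4378 c12407 c4313 c6629 c594 c7096 (k2 c5073 c11040 k0)))))))) (by decide +kernel)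
def c12409 : PP 8 4 T 0x1000080100000000000000000000100000001000002040000000104000 := rS 0x6384cfe0d (k4 c4371 c7517 c1678 c330 (k1 c11768 k0)) (by decide +kernel)
def c12410 : PP 8 4 T 0x1000080100005100000000000000154000001000004040000000104000 := rS 0x59ae47a353f834fa47 (k8 c4374 c7516 c4371 c7517 c4373 c12409 c7514 c11612 (k1 c2121 k0)) (by decide +kernel)
def c12411 : PP 8 4 T 0x2800000002000000080000000000000040000000004001421000000000001000104411 := rS 0x16990787464bf07e5d0320ce6093d4254d19868bc9e3322aa462a543945cab11badce2b53c9acee99 (k8 c4443 c1111 c4442 c540 c4389 c4387 c4353 c4386 (k8 c4350 c11030 c4435 c9141 c4444 c4441 c4345 c4296 (k8 c4294 c4297 c4432 c5204 c5037 c6996 c12347 c4482 (k8 c1224 c1231 c642 c4462 c813 c11031 c4477 c4305 (k4 c12410 c499 c538 c329 (k1 c9676 k0)))))) (by decide +kernel)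
def c12412 : PP 8 4 T 0x2000000000000005500000000154050010154020000000000044080002000 := rS 0x5cb252449162b0e62f729b55e6b55c48de75 (k8 c538 c1107 c12224 c4445 c4442 c4346 c4342 c11030 (k8 c4432 c1110 c2120 c4554 c368 c393 c507 c1125 (k1 c2121 k0))) (by decide +kernel)
def c12413 : PP 8 4 T 0x2000000000000005500010000140040010150021000000400044080102000 := rS 0x72093260a623aa1ca2890bb94de7d (k8 c1292 c1107 c11030 c4431 c7030 c4435 c9141 c538 (k4 c12412 c4407 c1728 c4464 (k2 c5124 c1560 k0))) (by decide +kernel)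
def c12414 : PP 8 4 T 0x10000000002000000000000005100000000500000010000025000000000044800000008 := rS 0x2e4eac949124e62c321a51708598ecf67f0431cfa1e0617142212281402154bb94ce0b0e96cde79359dd3312 (k8 c12224 c4443 c1111 c4442 c540 c1107 c93 c790 (k8 c303 c919 c11030 c11617 c12394 c28 c55 c4296 (k8 c832 c2767 c792 c793 c4466 c1292 c3416 c222 (k8 c12366 c1224 c3112 c1186 c4482 c9998 c4437 c12413 (k8 c9676 c1649 c368 c393 c507 c1657 c1125 c2121 k0))))) (by decide +kernel)
def c12415 : PP 8 4 T 0x2000000000001000040000000400000040100040000055501001000000045400014000 := rS 0x1927d063f5430c (k4 c4467 c4329 c12407 c4463 (k2 c1292 c507 (k1 c12405 k0))) (by decide +kernel)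
def c12416 : PP 8 4 T 0x2000000000001000040000000000000001100000104010501020000000044410004508 := rS 0x44173053f12566951e98c523f100183e154b99d1eb738ad4226150a7e1825 (k8 c225 c4467 c4384 c4329 c878 c342 c4389 c4387 (k8 c4353 c4388 c919 c11617 c12394 c222 c4462 c4466 (k8 c11031 c9410 c11648 c12380 c9517 c11612 c12404 c12415 (k4 c4313 c7096 c4478 c11040 k0)))) (by decide +kernel)
def c12417 : PP 8 4 T 0x2000000000000000000000001100000000010505000000000044000000000 := rS 0x69841ec10453c9acee994185d02118613047194ead4e2b747ac49631528cc9ea953b4cde0f30c502a674b875ca0b00816242f12808ea58 (k8 c12408 c538 c12342 c225 c4432 c12224 c55 c28 (k8 c303 c11030 c790 c11617 c919 c12394 c12395 c878 (k8 c12398 c1107 c12411 c4558 c4345 c4297 c4294 c4444 (k8 c4441 c4434 c4350 c4388 c4353 c4387 c4389 c4344 (k8 c4539 c12414 c2111 c4467 c342 c12056 c4431 c4570 (k8 c4443 c1111 c4442 c540 c4296 c12416 c1224 c4482 (k2 c4437 c9576 k0))))))) (by decide +kernel)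
def c12418 : PP 8 4 T 0x40000000000000000000000000000200000000000000400014000 := rS 0x1afd (k2 c4377 c1287 (k1 c4463 k0)) (by decide +kernel)
def c12419 : PP 8 4 T 0x2100000000001000040000000400004040100040044044404001001000000000014080 := rS 0x6bf591165ca54ea3f58adce2b5 (k8 c4389 c4387 c4353 c4350 c11031 c499 c9517 c6781 (k4 c12094 c11717 c7787 c507 (k1 c4463 k0))) (by decide +kernel)
def c12420 : PP 8 4 T 0x2000000000000000000000001100000000000405000000000044000000000 := rS 0x1a6107b0401c7a493facce62c8898cc85d4fc30471940a0d4ed33b9e4de5807984224b1785c8a9d549ad3312028042a977299c161d58a3d6e715ac504a02 (k8 c12342 c225 c12395 c4389 c4387 c4353 c4388 c4350 (k8 c790 c303 c919 c11030 c11617 c12394 c28 c55 (k8 c12224 c4443 c4442 c4345 c4344 c4296 c4431 c4432 (k8 c4434 c342 c878 c12398 c12408 c1107 c540 c1111 (k8 c12411 c4558 c4570 c12056 c4539 c12414 c4467 c4384 (k8 c12418 c12417 c67 c4412 c9676 c1649 c553 c554 (k8 c368 c329 c12419 c4462 c1224 c4482 c4437 c9576 k0))))))) (by decide +kernel)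
def c12421 : PP 8 4 T 0x12010000002000000000000000000040000114004600154000000001010000200008400 := rS 0x14350ae19abe2690d84ac4fc451694163147c45729b55e6b55c4872bd (k8 c4354 c4348 c12224 c4445 c4442 c4346 c4342 c11030 (k8 c4296 c11627 c1248 c400 c401 c7804 c4332 c1699 (k8 c2120 c11067 c2055 c4569 c11148 c1486 c1215 c901 (k2 c4394 c4489 k0)))) (by decide +kernel)
def c12422 : PP 8 4 T 0x2000000000001000040040000400000000000050144000000001400000000000010000 := rS 0x2e284c958adce2b5 (k8 c4389 c4387 c4353 c4350 c8024 c4473 c2121 c4394 k0) (by decide +kernel)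
def c12423 : PP 8 4 T 0x2000001002000000000000000000000000001004804000000000000000000000010600 := rS 0x26a0c867984aec6ebd (k8 c4354 c4386 c4390 c4438 c98 c1887 c2002 c4248 (k1 c9686 k0)) (by decide +kernel)
def c12424 : PP 8 4 T 0x800000002000000000040805020000000044000000150000001401550208200108000 := rS 0x2547cc35cd099ae5369ad56d3 (k8 c4278 c4445 c4442 c4342 c11030 c8645 c4473 c4394 (k4 c1215 c11730 c861 c401 k0)) (by decide +kernel)
def c12425 : PP 8 4 T 0x2000000000400805020000040144000000150000001401550208200108000 := rS 0x12ab861b3e86c627c4a234b (k8 c4458 c4338 c12224 c4297 c12424 c4391 c1519 c1216 (k2 c9033 c861 (k1 c6781 k0))) (by decide +kernel)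
def c12426 : PP 8 4 T 0x2000001002000000000001400020000000001000000000000011401410008000000200 := rS 0x140a763511728141c247e780c109cabb1c8dd6eb5 (k8 c4389 c4353 c4386 c4348 c4390 c11030 c11148 c236 (k8 c237 c405 c4436 c1998 c1962 c7514 c4484 c2113 (k2 c4453 c409 (k1 c900 k0)))) (by decide +kernel)
def c12427 : PP 8 4 T 0x12000001002000000000000000000040040115000400044080001001010048200108600 := rS 0x5c8fd86cd211317e471db2d822ca59f4e6ac8222cea6917abcd6ab1c8dd6ebd5ac34f66d891943ee5 (k8 c11030 c353 c12368 c12224 c4342 c704 c4324 c4389 (k8 c4354 c4353 c4386 c4348 c4445 c4442 c4346 c4432 (k8 c845 c12421 c4632 c6907 c2120 c4408 c4409 c4458 (k8 c4554 c1987 c2027 c1061 c1331 c12425 c12426 c4569 (k4 c2063 c2055 c405 c8268 (k1 c11730 k0)))))) (by decide +kernel)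
def c12428 : PP 8 4 T 0x2000001002000000000000000000000000001000800000000000000010000000010400 := rS 0x1357e8321c2472bd (k8 c4354 c4348 c4438 c1887 c2002 c1094 c4248 c11148 k0) (by decide +kernel)
def c12429 : PP 8 4 T 0x2000000002000000000000000400000040100000000002081000000000048200100408 := rS 0x7c953a2b2128b0c20898bf3c90e30693b8d4920d0728d0afd20abcd6ab33a1ca2890b8e5a607009ecdb12318a422651e8203ee5 (k8 c11030 c353 c839 c234 c12368 c2305 c2834 c11648 (k8 c12224 c4342 c704 c28 c494 c4278 c4348 c4431 (k8 c7030 c4435 c9141 c919 c4445 c4442 c4346 c4433 (k8 c4302 c4564 c2940 c879 c502 c4199 c1330 c12428 (k8 c845 c12427 c4446 c4447 c4369 c11148 c9674 c244 (k4 c12354 c4436 c2120 c12363 (k2 c10572 c11627 (k1 c401 k0)))))))) (by decide +kernel)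
def c12430 : PP 8 4 T 0x12000000002000000000000000400000040114000400045480000001000008200000600 := rS 0x67af940794fa8d849424b147d171db069711399fd590445a16106922abcd6ab5d8e56e715a9ecdb127e1bd92650fb961a5d47a0c2e8107845a64b (k8 c4434 c4278 c2305 c239 c12056 c4431 c4570 c4388 (k8 c840 c4324 c11030 c353 c12368 c7308 c9688 c4477 (k8 c12224 c4342 c704 c4389 c4387 c4353 c4348 c4390 (k8 c4445 c4442 c4346 c4296 c845 c12400 c4321 c4322 (k8 c6907 c2120 c4313 c4408 c4338 c4458 c1987 c1061 (k8 c7787 c4471 c1248 c370 c401 c4494 c935 c1699 (k4 c2056 c4536 c7040 c1794 (k1 c4572 k0)))))))) (by decide +kernel)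
def c12431 : PP 8 4 T 0x10000000000001000000000100000040000100001200045480020041000008200000400 := rS 0x1865265319409f88a5058c51f45cca1f (k8 c353 c12368 c4417 c11627 c1785 c400 c401 c4332 (k4 c1699 c4536 c895 c413 (k2 c412 c2028 (k1 c11827 k0)))) (by decide +kernel)
def c12432 : PP 8 4 T 0x1000000000002000000002000000001000000400040001100000100045504000005010058000000008 := rS 0x67b2e86c7a5a80a49356a7c5b105ca545e51578c624970e82dca8f5bad4df0d (k8 c4324 c9688 c4389 c4353 c4388 c11030 c303 c790 (k8 c11617 c12224 c4441 c4346 c4435 c4432 c11624 c7514 (k8 c11613 c4332 c4414 c4338 c4413 c7769 c11040 c9591 (k4 c408 c11164 c2023 c1794 (k1 c4495 k0))))) (by decide +kernel)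
def c12433 : PP 8 4 T 0x12000000002000000000000000400000001100001000045484021041000048000000008 := rS 0x18652653188f435c1cd8b171f1d59aa3228552ee505add7a715a8803e1d14bf28ad31a9be1a5d478207237 (k8 c4386 c4348 c839 c4388 c840 c4324 c9688 c1059 (k8 c4278 c11725 c4477 c2834 c790 c353 c4466 c4389 (k8 c4387 c4354 c4353 c303 c11030 c11617 c12394 c4296 (k8 c935 c2063 c12431 c12432 c4356 c1248 c1082 c8860 (k4 c4394 c1315 c4473 c413 (k2 c412 c2028 (k1 c11827 k0))))))) (by decide +kernel)
def c12434 : PP 8 4 T 0x1000040100000000000000000000014000001002001110000000110400 := rS 0x1045c9d4263f (k4 c370 c1718 c11627 c7514 (k2 c4464 c10795 k0)) (by decide +kernel)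
def c12435 : PP 8 4 T 0x12000000002000000000000000400000001114000000045484001001000048000000008 := rS 0x4c219e612764b82dcabb1b8803e1d041ecdb1237c34ba8f (k8 c4388 c840 c4324 c9688 c12224 c4342 c704 c839 (k8 c790 c353 c4466 c4386 c4390 c11030 c303 c11617 (k4 c12430 c4438 c98 c1887 (k2 c9686 c12433 k0)))) (by decide +kernel)
def c12436 : PP 8 4 T 0x100000044040400114000001455480020008000008200000000 := rS 0x196c6452815a9f88a505869 (k8 c844 c400 c401 c4332 c1699 c860 c4536 c2120 (k2 c895 c1752 (k1 c413 k0))) (by decide +kernel)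
def c12437 : PP 8 4 T 0x2000000000000000000000001100000000000415000000000040000000000 := rS 0xea3f669328abf4d90e30a3248d5926f309947a1131974102959968daaf35aae248728a242a973382c2ee5478e46e718a435a6200f8983a02 (k8 c12342 c790 c12420 c353 c4466 c4278 c4324 c12395 (k8 c4387 c4386 c4348 c4388 c11030 c4431 c303 c919 (k8 c11617 c12394 c7030 c4435 c9141 c12224 c4445 c4442 (k8 c4346 c4342 c4476 c5025 c2834 c839 c840 c11648 (k8 c2305 c234 c12368 c12429 c9688 c7308 c1059 c12434 (k8 c935 c12435 c4446 c4448 c4369 c11725 c11148 c2063 (k2 c12436 c11627 (k1 c12432 k0)))))))) (by decide +kernel)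
def c12438 : PP 8 4 T 0x800000002000000000000140100000040000100014041521000002040058000100011 := rS 0xb33d4110acfa184d96c2501d4ff4b2927ccaa356b1c5a4717abc62ab4485cf26b3ba64c6e5649f5f90d (k8 c4324 c4477 c4379 c4305 c11030 c11648 c4443 c1111 (k8 c4442 c540 c4431 c7030 c4445 c4441 c4346 c4432 (k8 c8078 c329 c330 c4554 c934 c9676 c11776 c11345 (k8 c9591 c12366 c538 c2118 c333 c2023 c1678 c4423 (k4 c1794 c12374 c4464 c8129 (k2 c4312 c1211 k0)))))) (by decide +kernel)
def c12439 : PP 8 4 T 0x2000000000001000000100010400040000000010144044001000000000008000114000 := rS 0x630b4fcb15b9c56ad3 (k8 c4278 c4389 c4387 c4353 c4350 c2121 c11735 c12366 (k1 c408 k0)) (by decide +kernel)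
def c12440 : PP 8 4 T 0x1000000000020000000050100000000000000000005000008000000000 := rS 0xb58d10 (k4 c6781 c11342 c4332 c408 k0) (by decide +kernel)
def c12441 : PP 8 4 T 0x2000000000000000000000001100000000000405000000000040000000000 := rS 0x145105ca54eab31e9f592fc40974e6111f98c0c0f14824c26f2d960401f69c344c4b8901402154bb94ce0b0e80976b11baf4e314 (k8 c12395 c4387 c4354 c4386 c4350 c4390 c12342 c790 (k8 c303 c919 c11030 c11617 c12394 c28 c55 c12224 (k8 c4434 c12420 c4324 c4278 c353 c4466 c12437 c93 (k8 c1107 c617 c1105 c12392 c239 c4462 c11648 c11031 (k8 c10687 c1022 c807 c12056 c4477 c4305 c4379 c12438 (k4 c11612 c499 c9517 c12440 (k2 c11613 c12439 (k1 c4337 k0)))))))) (by decide +kernel)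
def c12442 : PP 8 4 T 0x1000000000000000000040100000000000821000002040004010100008 := rS 0x3481ec93a894ca201687c0a01 (k8 c28 c55 c2131 c329 c4466 c9676 c313 c538 (k4 c546 c1375 c10439 c12409 k0)) (by decide +kernel)
def c12443 : PP 8 4 T 0x1000000000000000000000000000200000061000001000000000000411 := rS 0x422c041912807 (k4 c499 c539 c538 c4462 (k2 c9676 c231 (k1 c854 k0))) (by decide +kernel)
def c12444 : PP 8 4 T 0x1000000200000000000000000000000000801000000000004000000011 := rS 0x58a032434ba61 (k4 c122 c65 c4382 c7308 (k2 c547 c9676 (k1 c894 k0))) (by decide +kernel)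
def c12445 : PP 8 4 T 0x1000080100005100000000100000154000801000000040000200100400 := rS 0x7c06078244a5b (k4 c577 c313 c231 c1375 (k2 c4462 c12410 (k1 c11031 k0))) (by decide +kernel)
def c12446 : PP 8 4 T 0x2000000002000000080100000000000000100001544014801000000000040010000408 := rS 0x2d5624cd2b845c21667b1d90c101e109fe320d268bc8a6d579ad57124394512154b99c2ee55dac46eb738ad4527d (k8 c1380 c794 c4389 c4387 c4353 c4386 c4350 c4390 (k8 c11030 c4431 c919 c11617 c12394 c7030 c4435 c9141 (k8 c12224 c4445 c4442 c4346 c4342 c4296 c4432 c4282 (k8 c4371 c5037 c7517 c12445 c4466 c222 c2132 c1102 (k8 c1224 c1186 c9686 c4632 c2121 c4437 c1125 c2120 (k2 c7177 c4554 k0)))))) (by decide +kernel)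
def c12447 : PP 8 4 T 0x2000000002000000000000000000000000100001544014801000000000044010000408 := rS 0x2d5627cd28b5c421667b21820fe1e071344224698bc8a6d579ad57124394512154b99c2ebb588dd6e715ac3446c900815ca7d (k8 c1380 c11030 c55 c28 c12444 c1296 c4382 c4389 (k8 c4387 c4353 c4386 c4350 c4390 c4431 c919 c11617 (k8 c12394 c7030 c4435 c9141 c12224 c4445 c4442 c4346 (k8 c4342 c4296 c4432 c12446 c4467 c313 c2135 c224 (k8 c4466 c1456 c222 c2132 c1224 c1186 c9686 c2121 (k4 c4322 c4437 c1396 c2120 (k2 c395 c4554 k0))))))) (by decide +kernel)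
def c12448 : PP 8 4 T 0x2000000002000000000000000000000000100000004004821000000000044010000408 := rS 0x6989418a23f2e52ab388990fa7358adce2b53c9acee99891d47a370a99d2e5b648040ae5 (k8 c11030 c55 c28 c12444 c577 c11617 c919 c12394 (k8 c4386 c12442 c12443 c12224 c4443 c1111 c4442 c540 (k8 c4389 c4387 c4353 c4350 c1110 c1380 c12447 c4412 (k8 c553 c1696 c6781 c2121 c11734 c7517 c1464 c4371 (k1 c10439 k0))))) (by decide +kernel)
def c12449 : PP 8 4 T 0x2000000002000000000000000000000000100000000000805000000000044000000008 := rS 0x12b4c1e3f3f4596695039f4e61e4fa4c421214414c4c93a8f402154bb94ce0b0eac46eb738ad61a6f11814b05b (k8 c577 c4476 c55 c1296 c1378 c4382 c4389 c4387 (k8 c4353 c4386 c4350 c790 c303 c919 c11030 c11617 (k8 c12394 c28 c12442 c12443 c12444 c12448 c4407 c11648 (k8 c4464 c12392 c3504 c3505 c4466 c1109 c1379 c1098 (k8 c7261 c512 c7153 c5124 c4356 c1456 c12410 c224 (k1 c4467 k0)))))) (by decide +kernel)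
def c12450 : PP 8 4 T 0x2800000002000000040000000000000040000510044000021000006000050200110011 := rS 0xbe679ec90b38204e32c23a908fe5232ab58e931691e2e3b17b45caaf18aad76373c9acee99 (k8 c4443 c1111 c4442 c540 c4386 c4390 c4445 c4441 (k8 c4346 c11030 c4298 c4432 c89 c4416 c8078 c329 (k8 c1654 c330 c4554 c9676 c11345 c12366 c8019 c538 (k8 c333 c4446 c1678 c4464 c4312 c12422 c1211 c1790 (k2 c10474 c1216 k0))))) (by decide +kernel)
def c12451 : PP 8 4 T 0x2000000000001000000000010400000000000000144054801000000000008000110000 := rS 0xa36483cc27d (k4 c1380 c122 c239 c546 (k2 c1466 c12439 k0)) (by decide +kernel)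
def c12452 : PP 8 4 T 0x2000000000000000000000001100000000000005000000000040000000000 := rS 0xc73f285442c322e566953a8f4fa731f98c0c29048801e1f69898b0834096c226f309796b140aa5cce0b0e8040a02729ad4b12 (k8 c12224 c4444 c4442 c11030 c12342 c55 c28 c790 (k8 c303 c919 c11617 c12394 c12395 c4389 c12441 c122 (k8 c1378 c542 c577 c1381 c548 c4476 c12449 c4278 (k8 c353 c239 c4466 c1105 c12392 c4462 c11648 c11031 (k8 c1022 c1380 c12450 c12443 c9517 c11612 c12440 c12451 (k4 c9676 c11735 c161 c1465 (k2 c409 c12366 k0))))))) (by decide +kernel)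
def c12453 : PP 8 4 T 0x1000000002000000080000000000000001100000000000008000000000001000000000 := rS 0x11ca6868bc9e33548c54b12 (k8 c12224 c4444 c4441 c4345 c4294 c4297 c4432 c5204 (k2 c6996 c4486 (k1 c2780 k0))) (by decide +kernel)
def c12454 : PP 8 4 T 0x1000000000001000040000000000040001000000000010009000000010005000111020 := rS 0x7e430c20f (k4 c264 c880 c9821 c4463 (k1 c11932 k0)) (by decide +kernel)
def c12455 : PP 8 4 T 0x1000000002000000000000000000000055100000200000001000040010044000101620 := rS 0x8cd157abb2632d82521492170b547add8e6e081f608134fa8cca3e8845dca9d54abc629955c48b25b1ea845aa717afc70d3129586e45 (k8 c4296 c2187 c12452 c12180 c12453 c4470 c1240 c4432 (k8 c4558 c390 c4551 c234 c92 c63 c12224 c4445 (k8 c4443 c4441 c4346 c4345 c4344 c11030 c4417 c11025 (k8 c11627 c7044 c4337 c4414 c530 c4464 c4409 c12454 (k8 c345 c2374 c3077 c10321 c1347 c11040 c1202 c9115 (k8 c11345 c1982 c2023 c372 c1478 c1208 c4451 c9059 (k1 c4493 k0))))))) (by decide +kernel)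
def c12456 : PP 8 4 T 0x1000000000001000040000000000000041100000004000009000000000044010101404 := rS 0xa232c41f90c8b8447c5930a54c635498ec3c211683c4a370401c0801 (k8 c750 c4461 c1018 c4462 c2187 c12180 c264 c390 (k8 c798 c4466 c3062 c9125 c1099 c12253 c802 c880 (k8 c63 c11916 c345 c4356 c9821 c4463 c4487 c7044 (k2 c11932 c4337 k0)))) (by decide +kernel)
def c12457 : PP 8 4 T 0x1000000002000000000000000000000041100000000000401000000000044010100404 := rS 0x8cd157abb2632d82521492171104fade2ec7860f96a10479b8eabf538e1a60f12a4c1a2d1b90c6a3b02078022f22a7552af18a655712108200ea14a98dca56 (k8 c12452 c11030 c12253 c802 c4551 c1018 c4462 c798 (k8 c12224 c4445 c4443 c4441 c4346 c4345 c4344 c4296 (k8 c4432 c750 c4466 c4461 c3062 c1099 c276 c2187 (k8 c390 c528 c9125 c12180 c264 c12453 c4470 c4558 (k8 c1240 c12455 c12456 c10321 c8928 c1348 c11927 c4486 (k8 c2374 c4356 c3077 c4384 c4487 c11040 c1202 c9115 (k8 c11345 c1982 c2023 c372 c1478 c1208 c4451 c9059 (k1 c4493 k0)))))))) (by decide +kernel)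
def c12458 : PP 8 4 T 0x1000000002000000000000000000000041100000000000401000000000044000100404 := rS 0x1bce2fd881fd787d23c157eb63932d72b53b2ec4aa76242632a38630514c33aab51e65348fc5ad31c801269b0e19c5e4136aa55e6b4ca95567b4ec48c2b11e8200e8728a242ea14a98dca56 (k8 c12452 c11030 c12253 c802 c4551 c4431 c7030 c4435 (k8 c9141 c1018 c4462 c234 c1147 c880 c12224 c4344 (k8 c1226 c4445 c4444 c4443 c4442 c4346 c4345 c4342 (k8 c4433 c4432 c920 c12457 c764 c1030 c1058 c1139 (k8 c12248 c912 c1179 c756 c491 c2709 c4554 c11627 (k8 c9009 c2120 c8008 c4486 c11931 c7972 c4322 c4553 (k8 c4330 c4381 c4847 c4632 c1789 c3098 c9714 c1095 (k8 c7468 c1247 c4408 c1587 c1627 c2126 c9749 c4478 (k4 c10398 c7316 c3081 c4480 k0))))))))) (by decide +kernel)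
def c12459 : PP 8 4 T 0x1000000000001000001000040001101501580051004054408000001500000000000000 := rS 0x1794464afcba7b30ac5429584a9d3f0c (k8 c4486 c4384 c4330 c4322 c802 c4551 c1147 c880 (k4 c1226 c4628 c7782 c7550 (k2 c9372 c2126 (k1 c4454 k0)))) (by decide +kernel)
def c12460 : PP 8 4 T 0x1000000002000000000000000000000001100000000000401000000000044000100404 := rS 0x18341b9b99abb4fa9cfa7f3cc32088a698e4006547a6ccead1f0700a2816b14761f8bc4526964a98d12871785ca2e536a7552af4ca9557122d984423d598200e56 (k8 c12452 c1018 c4462 c1186 c234 c798 c880 c92 (k8 c12224 c4445 c4444 c4443 c4346 c4345 c4344 c4342 (k8 c11030 c4435 c4431 c4432 c9141 c7030 c12253 c802 (k8 c12458 c158 c4336 c4360 c1194 c3055 c1252 c7177 (k8 c4468 c262 c4466 c4471 c4554 c4555 c2747 c2746 (k8 c1567 c4461 c1139 c12248 c8142 c6342 c4486 c605 (k8 c4313 c4409 c4330 c4384 c4847 c7987 c12459 c1344 (k2 c4470 c1060 (k1 c9685 k0))))))))) (by decide +kernel)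
def c12461 : PP 8 4 T 0x1000000002000000000000410000000051100000084000008001008000005000001620 := rS 0x268f2cda293046c1632d96a7d5dbf10283478449617278cd3aa918a654b122cb148aa1538bda60f51c412717 (k8 c4356 c3067 c4487 c4337 c264 c12453 c4432 c4558 (k8 c4551 c4296 c1248 c63 c12224 c4444 c4443 c4441 (k8 c4345 c4344 c4294 c4297 c4431 c4434 c345 c10034 (k8 c4570 c12056 c4463 c10310 c4379 c1618 c7468 c1162 (k8 c1749 c1449 c2111 c4451 c2063 c11641 c10610 c805 k0))))) (by decide +kernel)
def c12462 : PP 8 4 T 0x1000000002000000000000000000000001100000000000401000000000044000000404 := rS 0x5b9fd6a8f7e9b972bf0699c70970234c3c01508946a1d49a549237390f8eb05098501045728840e56 (k8 c12452 c1018 c798 c11030 c4296 c4462 c12460 c140 (k8 c4308 c590 c384 c385 c2350 c2329 c11994 c3067 (k8 c3082 c3083 c12180 c4551 c750 c4466 c12453 c4461 (k8 c1194 c4470 c655 c528 c1240 c3085 c12461 c4378 (k4 c10321 c1348 c1459 c3077 (k1 c10373 k0)))))) (by decide +kernel)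
def c12463 : PP 8 4 T 0x1000000002000000000000000000000001100000000000401000000000044000100004 := rS 0x2933452485f0ee86bd5c11c68bb5aadc6e6e639f4e610823f426a332a5d2a2d1f98c964168b953aa9578c532a555c48c2b14d8bd26d307a9c4a9f8623c721c0f8841a0400828b656 (k8 c12452 c92 c12462 c566 c4461 c528 c798 c271 (k8 c4466 c1139 c4656 c4486 c4384 c4381 c4330 c12199 (k8 c12248 c1030 c4432 c764 c1147 c880 c12224 c4445 (k8 c4444 c4443 c4441 c4346 c4345 c4344 c11030 c4298 (k8 c4433 c4434 c12253 c398 c390 c802 c11783 c11930 (k8 c11931 c530 c11932 c4464 c4463 c4408 c4409 c406 (k8 c7962 c319 c1077 c1347 c9034 c4470 c12297 c7468 (k8 c1039 c4394 c1046 c2126 c4473 c8003 c7983 c11345 (k1 c373 k0))))))))) (by decide +kernel)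
def c12464 : PP 8 4 T 0x1000000002000000040000000510040455500000004000000000004100004000205000 := rS 0x33d89456330578b65fad46c7d5d8d5f88124845724b27a75529952aae24a74fc320a75618f482e5 (k8 c11030 c4433 c327 c9009 c591 c4308 c4486 c4384 (k8 c4330 c12224 c4445 c4444 c4443 c4345 c4344 c4297 (k8 c4434 c4548 c7962 c366 c12056 c4463 c11933 c10310 (k8 c4379 c4470 c11934 c1511 c7468 c2126 c1749 c9550 (k4 c4454 c4553 c1519 c8360 k0))))) (by decide +kernel)
def c12465 : PP 8 4 T 0x1000000002000000000000000000000041100000000000008000000000044020205120 := rS 0x641f98cb81a0dc206e569d52a3d518b47eb372965629b17a4da69f8623c7305 (k8 c4308 c1139 c4656 c4486 c4384 c12248 c1030 c4432 (k8 c764 c1147 c63 c11030 c1187 c1179 c912 c11931 (k8 c327 c7304 c591 c4554 c12464 c10992 c1343 c4470 (k4 c11948 c11342 c5280 c407 (k1 c155 k0))))) (by decide +kernel)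
def c12466 : PP 8 4 T 0x1000000002000000000000000000000001100000000000401000000000044000000004 := rS 0x312cce71788a552c140683cce040e0043e090516c4256 (k8 c12452 c798 c92 c12462 c84 c271 c566 c4466 (k8 c4461 c655 c12199 c528 c12463 c12465 c159 c4336 (k4 c4360 c1084 c7661 c7301 (k1 c7153 k0)))) (by decide +kernel)
def c12467 : PP 8 4 T 0x1000000000000000000000000000000001100000000000810000000000000000000000 := rS 0x11f0d (k2 c4382 c1426 (k1 c4486 k0)) (by decide +kernel)
def c12468 : PP 8 4 T 0x1000000002000000000000000000000001100000000000001000000000040000000004 := rS 0x11f0d1317cb256 (k4 c12452 c63 c12467 c12466 (k2 c4324 c2778 (k1 c4486 k0))) (by decide +kernel)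
def c12469 : PP 8 4 T 0x12800000002000000000000000010000044000000604004009010040000000000100620 := rS 0x3cc2584682922c26c5328fa2e1b22b44daaf35aacb27b4eaec6e3d4394512177299c3231 (k8 c4441 c268 c920 c11030 c4431 c7030 c4435 c9141 (k8 c234 c4386 c4390 c4344 c1226 c63 c4445 c4442 (k8 c4346 c4342 c4298 c4296 c4292 c4417 c11627 c7044 (k8 c1248 c530 c7804 c2109 c2120 c11827 c4437 c3968 (k1 c9686 k0))))) (by decide +kernel)
def c12470 : PP 8 4 T 0x2000000002000000080000800500000051100050104005400000005410140000100000 := rS 0x324e65d328a140c666ae5a231478e46eb738ad5264d86c4946234f91dcb45 (k8 c4399 c11030 c4374 c11776 c4372 c11410 c12224 c5204 (k8 c4282 c9125 c4389 c4387 c4353 c4386 c4348 c4388 (k8 c4441 c4298 c7514 c7983 c12162 c2125 c11601 c1737 (k4 c810 c9122 c7308 c2121 k0)))) (by decide +kernel)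
def c12471 : PP 8 4 T 0x2000000002000000080000000000000041100000004004401000040410040000100620 := rS 0x3c30a12523404ccac58b8f916753b9f57d19239343645689b55e6b55964f69d30ac576391b8f5668728a242e953395832318924d5a2d179fc1ae5 (k8 c11030 c528 c7517 c4432 c2356 c4554 c9125 c12224 (k8 c4441 c268 c12452 c920 c802 c4431 c7030 c4435 (k8 c9141 c1186 c234 c4386 c4348 c4390 c1147 c880 (k8 c4344 c1226 c63 c4445 c4442 c4346 c4342 c4298 (k8 c4296 c4292 c4282 c4374 c5037 c11148 c7516 c1093 (k8 c12469 c4632 c12470 c4356 c1248 c7044 c530 c2120 (k4 c2109 c4437 c11827 c9686 (k1 c3968 k0)))))))) (by decide +kernel)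
def c12472 : PP 8 4 T 0x2800000002000000040000000010000044000000204004009000040010000000108620 := rS 0x8c9dd7c4d42bf49e7b4e8dc2239 (k8 c4348 c344 c4386 c4344 c1226 c4297 c4376 c1495 (k4 c2192 c10065 c12423 c4369 (k1 c12469 k0))) (by decide +kernel)
def c12473 : PP 8 4 T 0x2000000002000000040000000000000040100000204001409000000000044010100404 := rS 0x462563130ba0f24a7d46653e8fa21172c96cf69d1bad47ab3088e52a63338d4861918c49263b0f0855a2d0401c5e7f0681002e5 (k8 c11030 c750 c4461 c528 c7517 c4432 c1018 c4462 (k8 c2356 c4554 c798 c4466 c3062 c9125 c12224 c4441 (k8 c268 c276 c1099 c920 c12253 c802 c4348 c344 (k8 c1186 c234 c4389 c4386 c4344 c1226 c92 c63 (k8 c4417 c11025 c11627 c1690 c7044 c4337 c4414 c370 (k4 c12472 c12183 c12322 c9121 (k2 c284 c1449 (k1 c12415 k0)))))))) (by decide +kernel)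
def c12474 : PP 8 4 T 0x2000000000001000040000000100000055100000104041001000004010044000101224 := rS 0x88191f80f5ca3d6e715a8f566111c98c5a7f (k8 c7517 c2356 c12253 c4348 c344 c1186 c234 c4389 (k8 c4387 c4353 c4388 c7514 c11956 c4463 c12258 c7058 (k1 c4412 k0))) (by decide +kernel)
def c12475 : PP 8 4 T 0x6000000002000000040010000000000000000004004000001001040010000001148620 := rS 0x29a2e32c33baf848857e86c9ed11b844728728a242ee5 (k8 c11030 c4431 c7030 c4435 c9141 c4348 c344 c4386 (k8 c4298 c4297 c4292 c4376 c1495 c264 c10065 c12423 (k4 c12326 c4369 c7804 c11827 (k1 c2109 k0)))) (by decide +kernel)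
def c12476 : PP 8 4 T 0x2000000000000000000000041100000004000401000000000044010100404 := rS 0x2312a81924c2e83cfa9f5184e091032924e6c58b8f8ead322964f69d30ac46eb3088e628953199c6a430c8c624931d878422d0401cfe0d02004ace5 (k8 c11030 c12452 c750 c4461 c528 c7517 c1018 c4462 (k8 c2356 c798 c4466 c3062 c9125 c12224 c4441 c268 (k8 c276 c1099 c920 c12253 c802 c12468 c4348 c344 (k8 c1186 c4386 c1147 c880 c4344 c1226 c63 c4296 (k8 c12471 c12473 c12474 c4356 c1248 c1082 c370 c7044 (k8 c4487 c4481 c530 c4337 c4414 c4409 c12475 c12183 (k4 c12322 c10573 c2118 c284 (k2 c771 c12415 k0)))))))) (by decide +kernel)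
def c12477 : PP 8 4 T 0x2000000002000000080000000000000045100000008004001000041010140000110420 := rS 0x7861424a46809b14ca3e8bc41708b3ba850a5ca1a7d47198691c461b22b44daa9579ad567b4e9851e391badd0e514485d2a672b064631256b945efd (k8 c4378 c4432 c11030 c4554 c12224 c4441 c268 c12452 (k8 c920 c802 c4431 c7030 c4435 c9141 c4353 c4386 (k8 c4348 c4388 c880 c4344 c1226 c4445 c4442 c4346 (k8 c4345 c4342 c4298 c4296 c4292 c4372 c4374 c5204 (k8 c5037 c11410 c11776 c11164 c9688 c1497 c810 c12428 (k8 c12228 c5931 c4489 c4361 c7514 c4412 c1248 c530 (k4 c2120 c2109 c4437 c11827 (k2 c4482 c3968 k0)))))))) (by decide +kernel)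
def c12478 : PP 8 4 T 0x2000000000000000000000041100000000000401000000000044010100404 := rS 0x534584d8a651f45e32c33bae17c2442839a6497e9b9260d0c8b486351d8103c010d93c8ad118964f69d890851e375bad47a110401c73144394512174a98dca56 (k8 c12452 c11030 c12253 c802 c4431 c7030 c4435 c9141 (k8 c12468 c4348 c1018 c4462 c344 c234 c4389 c4353 (k8 c4386 c4388 c798 c12224 c4344 c1226 c63 c4441 (k8 c4298 c4296 c4297 c4292 c750 c4466 c4461 c3062 (k8 c1099 c276 c2356 c268 c528 c9125 c12476 c4378 (k8 c4199 c12477 c8928 c1495 c264 c10065 c11956 c12428 (k8 c12326 c4369 c4361 c7514 c7044 c1248 c530 c7804 (k2 c11827 c2109 k0)))))))) (by decide +kernel)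
def c12479 : PP 8 4 T 0x2000000000000000000000041100000000000401000000000044000100404 := rS 0x2569a9898bf37b3e870d501753f1007c1506725cb2cec4362464f34b84b0514ad619d4ca69168fc00934d870ce4b1793c8245689b552af189ad32a5559ed3b1230aed1e391badd7ab58a0f410074394512174a98dca56 (k8 c12452 c11030 c12253 c802 c4431 c7030 c4435 c9141 (k8 c1018 c4462 c234 c12468 c4389 c4354 c4353 c4386 (k8 c4348 c4388 c4390 c880 c12224 c4344 c1226 c4445 (k8 c4444 c4443 c4442 c4441 c4346 c4345 c4342 c4298 (k8 c4296 c4433 c4297 c4432 c4434 c920 c12478 c764 (k8 c1030 c1058 c1179 c912 c756 c491 c11627 c9009 (k8 c4554 c2120 c8008 c4322 c4427 c604 c7972 c2127 (k8 c237 c4482 c9714 c9742 c1095 c2002 c4408 c9739 (k8 c4478 c6233 c753 c11040 c4329 c4423 c1794 c9688 (k4 c9033 c9686 c10851 c4282 (k2 c284 c4558 k0))))))))))) (by decide +kernel)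
def c12480 : PP 8 4 T 0x2001000002000000000000000000000400100005004000000000040000004000000200 := rS 0x14c2569afc982f4eaa4629952c497637 (k8 c4386 c4390 c12224 c4444 c4443 c4441 c4345 c4344 (k4 c4432 c9686 c7782 c4282 (k2 c284 c10851 (k1 c4558 k0)))) (by decide +kernel)
def c12481 : PP 8 4 T 0x2000000000000000000000001100000000000401000000000044000100404 := rS 0x13c5d64ae106cd4233a8ac23b2fa32a77e9b8867d3cd2e12c13fc111465349cccead4d8007c2d0e0158aa11d87e2f1149a592a6344a1c5e1728b94daa9579ad32a5559ed3b1230885768f5e9c6283d598200e56 (k8 c12452 c1018 c4462 c1186 c234 c12468 c4387 c4354 (k8 c4388 c4390 c798 c880 c12224 c4344 c1226 c4445 (k8 c4444 c4443 c4442 c4346 c4345 c4342 c11030 c4435 (k8 c4431 c4432 c9141 c7030 c12253 c802 c12479 c158 (k8 c4336 c4360 c1194 c3055 c898 c1252 c262 c4466 (k8 c913 c4471 c4461 c764 c4554 c4555 c1082 c756 (k8 c491 c8142 c6342 c10049 c8008 c4322 c4427 c605 (k8 c4409 c405 c12480 c4378 c4532 c4539 c2126 c7804 (k8 c4494 c4399 c4572 c1094 c1486 c2002 c1215 c1793 (k2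 c1497 c9372 (k1 c1395 k0))))))))))) (by decide +kernel)
def c12482 : PP 8 4 T 0x2010002002000000080000000000000000000004001000500000040010000001004000 := rS 0x2f90919268e46e71 (k8 c4387 c4386 c4348 c4282 c5037 c11065 c11148 c4136 k0) (by decide +kernel)
def c12483 : PP 8 4 T 0x2200000002000000000000000400004055100000104000408000040010004001211004 := rS 0x9098d32ebf0470d5003cda313da762461478e46eb75ac1592a3 (k8 c4337 c630 c4308 c4389 c4353 c4386 c4348 c4388 (k8 c880 c12224 c4344 c1226 c4441 c4342 c12292 c7050 (k8 c4329 c11967 c11483 c811 c12482 c12322 c4467 c284 k0))) (by decide +kernel)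
def c12484 : PP 8 4 T 0x2000000000000000000000001100000000000401000000000044000000404 := rS 0x431a45d079f8fab850bf4dca34fc401a1933a5c081e009946a1d49c5d2ac9219c87c758284c281159821ca318918442072b0e56b14 (k8 c12468 c4389 c4348 c12452 c1018 c798 c880 c12224 (k8 c4441 c11030 c4462 c1186 c344 c12481 c140 c4308 (k8 c590 c384 c385 c2351 c630 c11994 c4356 c3067 (k8 c3082 c3083 c1648 c750 c4466 c4461 c1194 c655 (k8 c268 c528 c4487 c6233 c4337 c12483 c4378 c11483 (k8 c11255 c1356 c1086 c387 c1457 c8928 c9688 c5204 k0)))))) (by decide +kernel)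
def c12485 : PP 8 4 T 0x2800000002000000080000000000000010000004004001401000002000140001145000 := rS 0xf27712b0884fd2932052c7578c556374485cfe7d823942247 (k8 c4374 c4276 c11030 c4464 c4409 c7517 c4431 c7030 (k8 c4386 c4445 c4441 c4346 c330 c1680 c9509 c11345 (k4 c4305 c332 c333 c11222 (k2 c1886 c2056 (k1 c12331 k0))))) (by decide +kernel)
def c12486 : PP 8 4 T 0x2000000002000000080000000000000041100000004014401000000000040020105020 := rS 0xb8a0642e4ea3d4fa8e1a471a88c227b4e985628f5b9c5261918c487e2d4aaccb2563ec1026e5 (k8 c11030 c530 c4464 c4409 c12452 c63 c1187 c7304 (k8 c912 c1179 c12224 c4441 c268 c1030 c4387 c4353 (k8 c4388 c1147 c880 c4344 c1226 c4276 c4372 c4373 (k8 c4374 c5204 c11410 c11776 c12485 c11468 c7514 c11431 (k2 c5931 c7308 (k1 c810 k0)))))) (by decide +kernel)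
def c12487 : PP 8 4 T 0x800000002000000000000000000000010000004200054001000004000140021140000 := rS 0xf28b3bb08845214b14783b0d8cda26d4eabc626b55ab45e8728a242ee5 (k8 c11030 c4431 c7030 c4435 c9141 c4432 c4554 c4445 (k8 c4442 c4441 c4346 c4344 c4342 c4298 c4294 c4292 (k8 c1574 c11468 c1782 c1680 c11345 c332 c333 c1886 (k2 c10021 c2056 (k1 c8117 k0))))) (by decide +kernel)
def c12488 : PP 8 4 T 0x800000002000000000000000000000010000000000000000000042000140000000000 := rS 0x5314abc62ab (k4 c4445 c4441 c4346 c1680 (k2 c332 c11345 k0)) (by decide +kernel)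
def c12489 : PP 8 4 T 0x2000000000001000040000000100000055100040104015401000005000144000104020 := rS 0x4313e482e32172a363bf4208f5b9c56a67399f60813 (k8 c530 c4464 c4409 c4408 c655 c4389 c4387 c4353 (k8 c4388 c12258 c4300 c406 c4241 c11342 c11462 c7622 (k4 c11341 c1665 c11966 c11340 k0))) (by decide +kernel)
def c12490 : PP 8 4 T 0x800000002000000000000000000000050000000100044001000002000040121100000 := rS 0x78611dca44214abc62ab16a242ee5 (k8 c11030 c4431 c7030 c912 c4445 c4441 c4346 c1680 (k4 c12488 c11345 c1886 c333 (k2 c12257 c2056 k0))) (by decide +kernel)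
def c12491 : PP 8 4 T 0x2000000002000000000000000000000041100000004014401000001000044020105020 := rS 0x6998562933fb94ea134aaccb22d1f86462673d9593b12 (k8 c12224 c4344 c12452 c1226 c655 c4441 c268 c1179 (k8 c912 c63 c1187 c7304 c530 c12487 c11030 c7517 (k4 c1030 c1147 c880 c12486 (k1 c12489 k0)))) (by decide +kernel)
def c12492 : PP 8 4 T 0x2000000002000000080000000000000055100000008005000000005000140000000000 := rS 0xa02e27d72a38691c6a2372c491eb7 (k8 c4353 c4388 c12224 c11030 c4372 c4373 c4374 c5204 (k4 c11410 c7514 c11776 c9688 (k2 c5931 c810 k0))) (by decide +kernel)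
def c12493 : PP 8 4 T 0x2000000000000000000000041100000000000401000000000044000100004 := rS 0x13ea15cc318e10699b87a753f98cf69d308241e37069c628933386463121f84cca2d4aacc381f10965ca0400828b656 (k8 c12452 c92 c12484 c566 c4461 c11030 c63 c798 (k8 c271 c4466 c1187 c7304 c912 c11930 c530 c1179 (k8 c12224 c4441 c268 c655 c1030 c12468 c4387 c568 (k8 c4386 c304 c84 c880 c4344 c1226 c12253 c7517 (k8 c12487 c12490 c12491 c12492 c10992 c406 c11979 c11342 (k2 c4329 c4384 (k1 c11980 k0))))))) (by decide +kernel)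
def c12494 : PP 8 4 T 0x2000000002000000080000010000004055100004000001400000000000140001204000 := rS 0x1e4850942175f8a051b261a3511845ca6d8923d6e71 (k8 c4387 c4353 c4388 c12224 c4342 c11030 c4276 c4372 (k8 c4373 c5204 c630 c11410 c5931 c11483 c811 c11065 (k4 c5101 c12482 c602 c10207 k0))) (by decide +kernel)
def c12495 : PP 8 4 T 0x2000000002000000000000000000004051100000004010408000000000044021245000 := rS 0x9824088d4464951c3540d35cb94627b4ec48c28f1c8dd26b316c14ea3f (k8 c1179 c591 c4308 c912 c1187 c1030 c4386 c4348 (k8 c4388 c880 c12224 c4344 c1226 c4441 c11030 c4548 (k8 c12494 c11971 c4329 c161 c7679 c11967 c11933 c7312 (k2 c4467 c12322 (k1 c284 k0))))) (by decide +kernel)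
def c12496 : PP 8 4 T 0x2000000002000000080000000000004055100004000001400000005000140001204000 := rS 0x2e06ae5 (k4 c11030 c4373 c12494 c7514 k0) (by decide +kernel)
def c12497 : PP 8 4 T 0x2000000000000000000000041100000000000401000000000044000000004 := rS 0x2e4fe4950c3020d33727cea3d8285026654a8b47eb372964f69d308241e37069c628930e07c42670c810020a2d9586312 (k8 c12224 c4441 c12452 c92 c12484 c566 c4461 c268 (k8 c655 c798 c271 c4466 c1030 c12468 c4387 c568 (k8 c4386 c304 c84 c880 c4344 c1226 c63 c11030 (k8 c1187 c1179 c912 c7304 c11930 c530 c12493 c4308 (k8 c327 c591 c6233 c12495 c12496 c10992 c11979 c4329 (k4 c12404 c671 c5280 c11980 k0)))))) (by decide +kernel)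
def c12498 : PP 8 4 T 0x2000000000000000000000001100000000000401000000000044000000004 := rS 0xf8522c4b19c081c0087c120a7296c4256 (k8 c12452 c798 c92 c11030 c12484 c84 c271 c566 (k8 c4466 c4461 c655 c12497 c11774 c142 c11815 c1180 k0)) (by decide +kernel)
def c12499 : PP 8 4 T 0x2000000002000000080000000000000000000504004000000000040000000001014200 := rS 0x3cc25080d2692c361727aec6e71 (k8 c4387 c4386 c4390 c4297 c4431 c4292 c4434 c4282 (k4 c4371 c2108 c4321 c602 (k1 c9686 k0))) (by decide +kernel)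
def c12500 : PP 8 4 T 0x2000000000001000040000000100000051100000000041801000005410044000100624 := rS 0x4963a7ce71164888c80c3aae4723738ad4de0f08a4c5a63 (k8 c12253 c2356 c9125 c543 c1376 c1377 c4389 c4387 (k8 c4386 c4348 c7514 c11627 c12474 c12258 c529 c2487 (k4 c4412 c1648 c1300 c3419 (k2 c12434 c11712 k0)))) (by decide +kernel)
def c12501 : PP 8 4 T 0x2000000002000000040000000000000000000004004000800000000011004001005000 := rS 0x9098231c8de1a11 (k8 c543 c4382 c4386 c4348 c1295 c12322 c4467 c284 k0) (by decide +kernel)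
def c12502 : PP 8 4 T 0x2000000000001000040000000000000041100000000000809000001410044000102624 := rS 0xb8232858f434fa8cff1032924e7171f254c65930ac51e395b9c61a6759a4c5a22 (k8 c529 c2356 c9125 c1187 c920 c4382 c4387 c4353 (k8 c4348 c4388 c1147 c880 c63 c12253 c802 c12500 (k8 c4356 c1082 c370 c7044 c4487 c10049 c1466 c4414 (k4 c11164 c1447 c771 c4473 (k2 c5931 c1315 k0))))) (by decide +kernel)
def c12503 : PP 8 4 T 0x2000000000000000000000041100000000000001000000000044010000004 := rS 0x2860a9f32918ea1411031a6192182c7a081a8ec081e00b94625b3da74428f5bad6285d3783c228152a0cbc6b8919d6656 (k8 c12452 c1187 c920 c12224 c4442 c12498 c548 c4444 (k8 c1381 c543 c1376 c1377 c65 c12468 c4389 c4353 (k8 c4388 c798 c4344 c1226 c92 c4441 c11030 c750 (k8 c4466 c4461 c3062 c1099 c1065 c274 c271 c276 (k8 c268 c12499 c12501 c529 c12502 c2571 c651 c2517 (k4 c1300 c4308 c1585 c10460 k0)))))) (by decide +kernel)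
def c12504 : PP 8 4 T 0x2000000002000000000000000010000400100000000040809000004000044000000002 := rS 0x10cf3093aa287a894398c10153282c2e51729b55eab3da76246f (k8 c1377 c12224 c4344 c1226 c4445 c4346 c4342 c11030 (k8 c4435 c4431 c2538 c491 c646 c751 c755 c9141 (k8 c7030 c234 c8142 c11627 c4322 c604 c237 c12480 k0))) (by decide +kernel)
def c12505 : PP 8 4 T 0x2000000002000000080000000000000000000504004000000000000000000001015000 := rS 0x435f9e612841a934961b0b93c7271 (k8 c4387 c4348 c4297 c4431 c4292 c4434 c4282 c4373 (k4 c2108 c4321 c602 c7782 (k2 c10207 c11148 k0))) (by decide +kernel)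
def c12506 : PP 8 4 T 0x2000000000000000000000041100000000000001000000000044000000004 := rS 0x9068d31183414190481002ad168fd361c338bdca313da740e5638c521a6f0784502a541978d712 (k8 c12224 c4442 c12498 c548 c4444 c1381 c543 c1376 (k8 c1377 c4382 c12468 c4387 c12452 c1018 c4344 c1226 (k8 c4441 c11030 c4432 c920 c12503 c764 c1179 c912 (k8 c4554 c12504 c4461 c1058 c268 c4462 c568 c1295 (k4 c12505 c12501 c4467 c1369 k0))))) (by decide +kernel)
def c12507 : PP 8 4 T 0x2000000002000000000000000000000480100000000000809000000000044000000002 := rS 0x433cc25828a44a1c7c675698c1015329a45a2f0b945ca6d579ad567b37b153b12 (k8 c12224 c4344 c1252 c1377 c1226 c4445 c4442 c4346 (k8 c4342 c11030 c4435 c4431 c4432 c2917 c756 c491 (k8 c2631 c751 c755 c4554 c4555 c11783 c9141 c7030 (k4 c8142 c8008 c4322 c605 (k2 c405 c12480 k0))))) (by decide +kernel)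
def c12508 : PP 8 4 T 0x2000000000000000000000001100000000000001000000000044000000004 := rS 0x3e148b0ce0902005361c0fa58bc2f72884ad14 (k8 c12468 c12452 c798 c11030 c4432 c12498 c12506 c1194 (k8 c4466 c764 c12507 c4461 c1058 c655 c11774 c142 (k2 c11815 c1180 k0))) (by decide +kernel)
def c12509 : PP 8 4 T 0x2000000000000000000000001100000000000001000000000040000000004 := rS 0x1d0f8984256 (k4 c12452 c798 c12508 c353 (k2 c872 c4466 k0)) (by decide +kernel)
def c12510 : PP 8 4 T 0x1000000000001800000000000000001000640000480454000000000000000000000000000000000000 := rS 0xad62b0586cf5ad0e229d54abd32ab (k8 c4445 c4443 c4346 c4345 c4344 c4337 c4393 c1436 (k4 c1523 c4958 c2021 c8360 (k2 c6601 c2127 k0))) (by decide +kernel)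
def c12511 : PP 8 4 T 0x1000000002000000000000000000000041100000000020001000000000044200000000 := rS 0x15ac567b1a86b624ae62c2c88aac028f51b3484bc4dafc6c351f9bc1e092d8468a4c5d88c72a525aa49e3318a4c14054a8a5caa717b4c4a5f2c808ad12 (k8 c12224 c12452 c12509 c63 c12467 c225 c12453 c4432 (k8 c4558 c11030 c2776 c12015 c55 c799 c12021 c4441 (k8 c4294 c4297 c4345 c4434 c4444 c360 c2775 c6931 (k8 c2111 c4451 c342 c92 c231 c2248 c10992 c12102 (k8 c12022 c4470 c1511 c11688 c325 c324 c3981 c12510 (k8 c12014 c28 c4445 c4412 c9676 c7044 c6781 c368 (k4 c10674 c4424 c9550 c1519 (k2 c8360 c6601 (k1 c7641 k0))))))))) (by decide +kernel)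
def c12512 : PP 8 4 T 0x1000040000000000040000000000000011001000000000015400105008 := rS 0x18cfe67 (k4 c919 c7517 c11648 c12066 k0) (by decide +kernel)
def c12513 : PP 8 4 T 0x1000000002000000000000000000000041100000000000001000000000044200000000 := rS 0x6332d6cac5a9d493050a19546cd3eaf0849b5fbf06c0d1aaccc2b11fa4c0a8f5d8e5429514b953f0ca29bc1e4c1192c62a717a94664f54c4814092d845a6252f9640456 (k8 c12452 c12509 c63 c12467 c225 c12453 c342 c92 (k8 c231 c799 c12224 c4345 c4297 c4294 c4444 c4432 (k8 c4558 c4441 c4434 c2775 c2111 c2248 c10992 c4451 (k8 c4467 c4384 c11030 c2776 c12015 c4551 c360 c6931 (k8 c12014 c55 c12021 c12102 c1147 c880 c1187 c12022 (k8 c569 c4470 c10457 c1511 c11688 c324 c325 c4379 (k8 c3981 c12510 c12511 c12512 c4308 c2328 c591 c11934 (k4 c12464 c7050 c2027 c9550 (k1 c413 k0))))))))) (by decide +kernel)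
def c12514 : PP 8 4 T 0x1000000002000000000000000000000001100000000000001000000000044010000000 := rS 0x29a2c32c33c2f97ab9380d2840c3fa250e7d4dacd8e130a91c92c5318f0589607931768f1c824460a1001c961b0b93c823368945ca9d548c532a58916c3e11538bda6252f9640456 (k8 c12452 c12509 c63 c12467 c225 c12453 c4432 c4558 (k8 c342 c223 c92 c12224 c4444 c4443 c4441 c4345 (k8 c4344 c11030 c4435 c4298 c4294 c4433 c4297 c4431 (k8 c4292 c4434 c1017 c4466 c799 c2775 c231 c360 (k8 c12014 c6931 c2111 c2248 c12513 c926 c927 c2801 (k8 c1252 c368 c8078 c2279 c1679 c2286 c1188 c12096 (k8 c7516 c9141 c7030 c12366 c12099 c4473 c569 c568 (k8 c4394 c1039 c2126 c1514 c1215 c1959 c605 c333 (k1 c2109 k0))))))))) (by decide +kernel)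
def c12515 : PP 8 4 T 0x1000000002000000000000000100400401500004000000000000000100005000008181 := rS 0x46612be0c2f498bb3708c962f278cd3aa918a654b123b904f217 (k8 c4431 c500 c4433 c1023 c12224 c4444 c4443 c4441 (k8 c4345 c4344 c4294 c4297 c4432 c4434 c1328 c10635 (k8 c6931 c2111 c3000 c244 c2126 c4436 c4369 c4482 k0))) (by decide +kernel)
def c12516 : PP 8 4 T 0x822000000000000000000000000000000000500000001500000000000000000000000 := rS 0x1a5526b (k4 c4442 c4345 c4437 c9576 k0) (by decide +kernel)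
def c12517 : PP 8 4 T 0x20800000002000000000000000000000050000000000000000000004000040020000000 := rS 0x1eb095a2d17905ca9955a4c86c1 (k8 c4450 c4446 c1030 c4445 c4443 c11030 c4433 c4432 (k4 c912 c4554 c7972 c12488 (k1 c9009 k0))) (by decide +kernel)
def c12518 : PP 8 4 T 0x1000000002000000000000000000000001100000000000001000000000044000000000 := rS 0x1a8dd78435fc62124c11975766f41a041e793bc3012390323d361c53b4c4a5f258bc2e4f208cd52314ca94b27b4ec48c2b12b0042202 (k8 c12509 c342 c28 c12452 c1147 c880 c12224 c4344 (k8 c1226 c63 c4444 c4443 c4441 c4345 c4294 c4433 (k8 c4297 c4431 c4432 c4434 c12467 c225 c12453 c4558 (k8 c12514 c764 c2763 c791 c1139 c1058 c4486 c1023 (k8 c500 c12515 c12056 c4570 c10992 c10310 c4628 c792 (k8 c2111 c12516 c4482 c7782 c4446 c2126 c324 c1039 (k1 c4470 k0))))))) (by decide +kernel)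
def c12519 : PP 8 4 T 0x2000000080000000000000041100000004000401000000000044200100000 := rS 0x18ea316a7d427d31b945223249348f19a29dd7a5c86b34d0fd41034e219088081e0a1ba054ca91893c5ea519894c3143d9593b12 (k8 c12224 c4344 c12452 c1226 c12518 c880 c313 c4294 (k8 c4444 c4432 c4297 c4441 c4345 c6996 c1897 c4386 (k8 c799 c304 c12509 c342 c7490 c4387 c568 c12505 (k8 c4306 c4532 c3976 c5204 c4477 c4354 c2002 c4453 (k8 c5037 c4374 c4282 c4281 c2775 c2776 c11030 c11648 (k4 c7516 c810 c1339 c11874 (k2 c9384 c11601 (k1 c2110 k0)))))))) (by decide +kernel)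
def c12520 : PP 8 4 T 0x2000000080000000000000041100000004000401000000000044200000000 := rS 0x1402c0a1a0eefd411ed3a11012f41e0d389361b191bc50320a40a995231278bd4b1219894c256 (k8 c12452 c880 c313 c4294 c12224 c4444 c4432 c4297 (k8 c4441 c4345 c6996 c1897 c799 c7490 c12518 c4386 (k8 c5037 c5204 c4282 c4387 c568 c304 c4354 c12509 (k8 c342 c4344 c1226 c12505 c4306 c2002 c4532 c12519 (k2 c382 c11874 (k1 c894 k0)))))) (by decide +kernel)
def c12521 : PP 8 4 T 0x2000000080000000000000041100000000000401000000000044010000000 := rS 0x621e8545a9a3c1dd04682e3f4dd09534661a2f278cd5231529ed3b12308fd6ebd5a8952a2949815ca0f050803e022c9586f14 (k8 c12518 c4386 c12452 c63 c12509 c223 c4466 c799 (k8 c304 c11030 c55 c12021 c2776 c12015 c313 c4389 (k8 c4354 c4353 c12102 c880 c12224 c4344 c1226 c4444 (k8 c4441 c4345 c4294 c4297 c4432 c5204 c5037 c6996 (k8 c12347 c12520 c4378 c9688 c4532 c813 c2002 c4482 (k4 c1960 c11912 c382 c11122 (k2 c12492 c11648 k0))))))) (by decide +kernel)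
def c12522 : PP 8 4 T 0x2000002000001000040000000500000054100000000041501000000000015400101000 := rS 0x17311321fcc671 (k4 c4387 c11648 c7517 c12407 (k2 c4412 c6781 (k1 c7058 k0))) (by decide +kernel)
def c12523 : PP 8 4 T 0x2000000000000000000000041100000000000401000000000044010000000 := rS 0x329d60a144fa85f86f2ec31a6b330ac47e6708a3d6eb511894125b4a8a526057283c6e0d050803e022c958e314 (k8 c12518 c4387 c12452 c63 c12509 c223 c4466 c799 (k8 c568 c4386 c304 c11030 c55 c12021 c2776 c12015 (k8 c92 c231 c313 c2775 c4389 c4353 c4388 c342 (k8 c919 c12102 c1147 c880 c1187 c12521 c4467 c12418 (k8 c10992 c4463 c4329 c4384 c12522 c4308 c591 c550 (k1 c10460 k0)))))) (by decide +kernel)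
def c12524 : PP 8 4 T 0x2000000000000000000000001100000000000401000000000044010000000 := rS 0x3b9e50509341714d1986bf5a4c83e9fd36b36384c2a4724b14c63c162585e4f19b955231529ed3b12308457a071283c6e0d050803e022c958e314 (k8 c12518 c4387 c12452 c63 c12509 c223 c4466 c799 (k8 c568 c4386 c304 c313 c1017 c4354 c342 c880 (k8 c12224 c4344 c1226 c4444 c4441 c4345 c11030 c4294 (k8 c4297 c4432 c12523 c926 c927 c2801 c1252 c368 (k8 c8078 c2279 c1679 c330 c1188 c12096 c7517 c7516 (k8 c2107 c12099 c4305 c5204 c5037 c6996 c4477 c4532 (k4 c12347 c813 c1960 c2002 (k1 c4482 k0)))))))) (by decide +kernel)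
def c12525 : PP 8 4 T 0x2000000000000000000000001100000000000001000000000044010000000 := rS 0x186920d026f2f0341e2505080d6a53da7624050f964ac11010dce314 (k8 c12518 c4387 c4386 c12509 c342 c12452 c63 c223 (k8 c55 c12224 c4344 c1226 c4444 c4442 c4466 c799 (k8 c313 c304 c568 c12524 c1377 c1381 c548 c10439 (k2 c12505 c7490 k0)))) (by decide +kernel)
def c12526 : PP 8 4 T 0x2800000002000000080000000000000000000005400001400000000000001000000000 := rS 0x210a68c8bc9e33548c54a37 (k8 c4386 c4444 c4441 c4345 c4294 c4297 c4432 c5037 (k2 c6996 c4482 (k1 c12347 k0))) (by decide +kernel)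
def c12527 : PP 8 4 T 0x2000000000000000000000041100000000000401000000000044000000000 := rS 0x24ae468a3094593e28829891265568545ab3729b55e6b55814023f33ad52a9339a2cd287844654ed3308bc4a8f8a1e42e770307004413d9593b12 (k8 c12224 c4344 c12452 c1226 c4433 c12509 c12525 c791 (k8 c1023 c4431 c500 c12518 c4388 c225 c4432 c880 (k8 c12526 c4558 c4539 c4482 c4440 c4437 c4322 c1022 (k8 c1030 c2764 c4389 c919 c12102 c28 c55 c4445 (k8 c4442 c4346 c4342 c11030 c1187 c912 c648 c4554 (k8 c9676 c7030 c2120 c4407 c11648 c1611 c7153 c4464 (k4 c2770 c12055 c4361 c3645 (k1 c11516 k0)))))))) (by decide +kernel)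
def c12528 : PP 8 4 T 0x2000000000000000000000001100000000000401000000000044000000000 := rS 0x442cd82c31d1d458c514c5e229643a2e111953b4c4a2f28b94f69d891847e5647c5016213b904f217398183802 (k8 c12509 c12525 c791 c1022 c4431 c500 c4433 c1023 (k8 c85 c302 c12518 c4388 c12452 c12102 c880 c12224 (k8 c4344 c1226 c11030 c4435 c4432 c225 c12526 c4558 (k8 c4539 c4482 c4322 c4440 c12527 c4336 c4360 c2769 (k8 c1252 c11783 c7271 c913 c1047 c1580 c3026 c2123 (k1 c7172 k0)))))) (by decide +kernel)
def c12529 : PP 8 4 T 0x2000000080000000000000041100000000000001000000000044000000000 := rS 0x20b433127ccaad168bcdaaf5599d1eb74aa4d9205459a50efd3fa8d127d0a8901c852586611191bc50f2173b818827b2b275066b0d8449e0d26a054b120e1761a5e00809ca47 (k8 c4374 c11030 c12509 c28 c12528 c4382 c65 c12525 (k8 c12224 c4444 c1381 c4282 c4371 c4297 c342 c4292 (k8 c4442 c548 c4344 c12452 c1226 c4433 c791 c1023 (k8 c4431 c500 c12518 c4386 c5037 c4482 c4436 c4434 (k8 c4321 c2108 c4094 c2347 c7516 c7030 c3438 c1456 (k8 c5101 c4440 c4437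 c4322 c55 c12444 c1030 c2764 (k8 c4353 c4388 c919 c4445 c4346 c4342 c4432 c912 (k4 c4554 c9676 c11776 c2120 (k2 c11164 c4407 (k1 c4483 k0)))))))))) (by decide +kernel)
def c12530 : PP 8 4 T 0x2000000080000000000000001100000000000001000000000044000000000 := rS 0xb9598e8c675160a622963e8554624070650b088c91c6a0d2692c364f3da747e56338446eb58a02c4277209e42e73030721a5d37a054a8335c49925e0081404e5 (k8 c11030 c12509 c55 c28 c12528 c12444 c12224 c4442 (k8 c548 c4444 c1381 c1377 c65 c4382 c12525 c791 (k8 c1022 c4431 c500 c4433 c1023 c85 c302 c12518 (k8 c4389 c4386 c342 c919 c12452 c12102 c4344 c1226 (k8 c4297 c4292 c4434 c4282 c4371 c4373 c4374 c5037 (k8 c4482 c4321 c4436 c2108 c4094 c3438 c2347 c7516 (k8 c12529 c4336 c2769 c11783 c7271 c11648 c913 c1188 (k2 c1045 c11734 k0)))))))) (by decide +kernel)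
def c12531 : PP 8 4 T 0x2000000000000000000000041100000000000001000000000044000000000 := rS 0x20b433127ccaad168bcdaaf5599d1eb74aa4e1ac951a1ca2893f83402fd3e91dca15459a610be42838480527b4cee4125a0cd68152ac46ebd8a1ecac9d891e40c1c0105cde5e (k8 c12528 c1377 c4431 c12509 c12525 c791 c500 c12224 (k8 c4344 c12452 c1226 c12518 c4354 c4386 c1147 c4444 (k8 c1381 c4442 c548 c4434 c4433 c1023 c12530 c4297 (k8 c55 c10439 c224 c1495 c9035 c7782 c4437 c4322 (k8 c2347 c11030 c3357 c7516 c4376 c28 c1368 c7517 (k8 c7030 c4435 c9141 c1464 c12444 c4382 c1030 c2764 (k8 c4353 c4388 c919 c4445 c4346 c4342 c4432 c912 (k4 c4554 c9676 c11776 c2120 (k2 c11164 c4407 (k1 c4483 k0)))))))))) (by decide +kernel)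
def c12532 : PP 8 4 T 0x2000000000000000000000001100000000000001000000000044000000000 := rS 0x1949e67b3458c58ba5916c384464fabe23a14fe89438341c151234c92c911a0d026f86978f277030716abd1bc50961727904a2e535a95567b4ec496205008fc0456 (k8 c12452 c12509 c12102 c28 c55 c1147 c12224 c4344 (k8 c1226 c4445 c4444 c4442 c11030 c4435 c4433 c4297 (k8 c4431 c4434 c12518 c4386 c4354 c4389 c12525 c791 (k8 c1023 c500 c12528 c4382 c1377 c1381 c548 c1296 (k8 c12444 c7307 c12530 c10439 c2347 c224 c1368 c9141 (k8 c7030 c7517 c1495 c3357 c9035 c7516 c4369 c7782 (k8 c12326 c4322 c12531 c4360 c1252 c11783 c1486 c4541 (k2 c395 c2124 (k1 c1668 k0))))))))) (by decide +kernel)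
def c12533 : PP 8 4 T 0x2000000000000000000000041100000000000001000000000140000000000 := rS 0x3f22c81848f4f0684d1ce8abf53a15070426330263b2450c8e9f3f94a20c70aa8d5a2f0bb453aa9578c532a555c487ed30798576b75aa54529302b941a0a100743e022c9c6288f868996656 (k8 c12452 c1187 c12532 c4324 c2778 c4486 c4387 c63 (k8 c12509 c223 c872 c4466 c799 c568 c11030 c55 (k8 c12021 c2776 c12015 c4389 c4353 c4390 c880 c239 (k8 c4278 c12102 c12224 c4445 c4444 c4443 c4441 c4346 (k8 c4345 c4344 c4298 c4431 c4432 c4554 c934 c382 (k8 c408 c4468 c11345 c7517 c4414 c12069 c11164 c4473 (k8 c1722 c1719 c373 c372 c4464 c7980 c1481 c2066 (k8 c7983 c4451 c4408 c10851 c804 c805 c11122 c4437 (k4 c1962 c4471 c4484 c7787 k0))))))))) (by decide +kernel)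
def c12534 : PP 8 4 T 0x2000001002000000000040010000080000101002100000009002000000000000144100 := rS 0xd1084d51506a75f93198cba594916810ca7532a55da242ee5a1b3d5312 (k8 c12224 c4345 c1523 c4393 c11030 c4431 c7030 c4390 (k8 c4444 c4443 c4344 c1959 c1962 c604 c11828 c4456 (k8 c2023 c373 c372 c9033 c941 c7980 c4451 c10851 (k2 c4484 c804 (k1 c4437 k0))))) (by decide +kernel)
def c12535 : PP 8 4 T 0x112001000000000000000000501115555514005040001400000000000000000000000 := rS 0x65d2d7cc43b9a516b75ac518316 (k8 c4487 c4420 c4486 c4389 c4353 c4322 c4437 c4438 (k4 c9460 c6348 c4429 c1756 (k1 c10725 k0))) (by decide +kernel)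
def c12536 : PP 8 4 T 0x2801200000000000000004000400080001505005500000000000000000000000000000 := rS 0xca4529a309d (k4 c4344 c4482 c4539 c9062 (k2 c941 c1753 k0)) (by decide +kernel)
def c12537 : PP 8 4 T 0x2000000000000000000000041100000000000401000000000040000100000 := rS 0x53afd067684a6cf2485131d429f42840b87d39bf608633fa250e1728aa54a7b4eac4ced30798576b75ead412930283414718a23e1ab31eb0d33125c9d4b613888b12a29728803a260f808b256 (k8 c12452 c63 c12509 c223 c12532 c872 c4466 c11030 (k8 c2776 c12015 c12533 c4332 c7061 c92 c11025 c6781 (k8 c12224 c4443 c4958 c329 c1187 c4324 c2778 c4486 (k8 c4387 c799 c568 c55 c12021 c231 c4389 c4354 (k8 c4353 c4390 c880 c239 c4278 c919 c1147 c4344 (k8 c1226 c4444 c4345 c4435 c4431 c9141 c7030 c7517 (k8 c11648 c7079 c7613 c4408 c4409 c4477 c4463 c1497 (k8 c1339 c810 c2373 c2125 c935 c12534 c805 c12535 (k4 c12536 c2002 c1094 c813 (k1 c10851 k0)))))))))) (by decide +kernel)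
def c12538 : PP 8 4 T 0x400000000000802100000000000004005054100000044000501114050008000000000000000000000 := rS 0x62ab4ee6942aacf69d (k8 c4344 c1226 c4445 c4321 c4437 c4438 c6230 c9063 (k1 c7130 k0)) (by decide +kernel)
def c12539 : PP 8 4 T 0x2801100000000000004005400000000455100405400051000000000000000000000000 := rS 0x8956212309d54a654aab (k8 c4445 c4444 c4443 c4345 c4344 c4482 c7469 c7972 (k2 c685 c4903 k0)) (by decide +kernel)
def c12540 : PP 8 4 T 0x400000000002900000000000000004000000000000055140501004058009000004000000010600000 := rS 0x86629d97f094dabd567b4e98562075dadce2b361a6572752db062d05 (k8 c4308 c4487 c4420 c92 c11025 c6781 c4443 c4958 (k8 c1187 c4387 c4353 c4390 c1017 c1147 c880 c4344 (k8 c1226 c4445 c4346 c805 c12538 c7782 c12539 c9760 (k2 c9784 c7276 k0)))) (by decide +kernel)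
def c12541 : PP 8 4 T 0x2000000000000000000000041100000000000401000000000040000000000 := rS 0x1a2109aa5b1512ad293299b45439310a193c20d026f08b3d8c5d5050d469f32924c48b8285183165cc44584b0d85c9eaf55c487e676983cc2b70496d2a2949815ca0d050803a1f01164e3144795a1a26 (k8 c12532 c4324 c12452 c2778 c4486 c4387 c63 c12509 (k8 c223 c872 c4466 c799 c568 c11030 c55 c12021 (k8 c2776 c12015 c92 c231 c4353 c880 c239 c4278 (k8 c919 c12102 c12224 c4445 c4346 c4297 c4431 c4292 (k8 c4434 c12533 c4332 c6781 c4487 c4420 c12537 c4308 (k8 c718 c383 c2328 c550 c6233 c2804 c11164 c5931 (k8 c2792 c895 c1794 c343 c9688 c12056 c4570 c12540 (k8 c1959 c602 c4682 c1964 c4451 c2063 c413 c412 (k8 c901 c6175 c1756 c4456 c7641 c7785 c804 c4437 k0))))))))) (by decide +kernel)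
def c12542 : PP 8 4 T 0x110000000000000000048000101155500500050000101401000400000200000145000 := rS 0x2fdfab9085099249 (k8 c369 c7497 c4489 c2107 c4394 c4300 c1215 c6348 k0) (by decide +kernel)
def c12543 : PP 8 4 T 0x40000000000006010000000000000000019000001181500500000000000000000000000000000000000 := rS 0xbf53b3d76b7 (k4 c4353 c4390 c1523 c7162 (k2 c4572 c10851 k0)) (by decide +kernel)
def c12544 : PP 8 4 T 0x6112000002000000000050000500010400504000000001401000002000200000044808 := rS 0xba104f32492a36152ca4c134865161b689453aa94ca96247d23a242e7f0a834e2e5 (k8 c11030 c4387 c568 c2279 c7517 c4431 c7030 c8078 (k8 c7516 c12224 c4444 c4443 c4345 c4344 c4435 c4298 (k8 c4292 c4322 c4436 c4437 c7824 c2109 c4456 c333 (k4 c12543 c369 c7497 c12542 (k2 c2107 c1339 (k1 c343 k0)))))) (by decide +kernel)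
def c12545 : PP 8 4 T 0x1000002000000000100100000800000004001000001001000002000000000160000 := rS 0xa48b3b865048168945121772bf50a1b (k8 c4292 c710 c4300 c11030 c4431 c7030 c4435 c4298 (k4 c1897 c5558 c349 c2002 (k2 c644 c2109 (k1 c9008 k0)))) (by decide +kernel)
def c12546 : PP 8 4 T 0x2000000000000000000040001100001000000401000000000040000000000 := rS 0x3b2fa32a74284192490daa54a7b5daf4fa473f8541a7184a1d566749815329514b955e9b5998c260763b153b12508f0591788a5814200e87cb31407a3e1a26012c4c256 (k8 c12452 c880 c1147 c12509 c12532 c4324 c2778 c239 (k8 c4486 c63 c223 c872 c4466 c799 c12541 c4336 (k8 c4360 c926 c927 c2904 c12224 c4344 c1252 c2285 (k8 c1017 c1679 c2801 c1188 c12096 c4346 c11030 c2776 (k8 c12015 c4443 c55 c12021 c919 c4445 c7276 c12544 (k8 c4387 c568 c2279 c7517 c8078 c7516 c4354 c4390 (k8 c1226 c4444 c4345 c4292 c369 c7497 c2107 c710 (k4 c12545 c4539 c10851 c4482 (k1 c1094 k0))))))))) (by decide +kernel)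
def c12547 : PP 8 4 T 0x6011000002000000040010000000090400500005000000001002000000000000154900 := rS 0x428c06116c1a594d86ca563354cbf649bd3aa94ca9624bb5ba242ee5 (k8 c11030 c4431 c7030 c4353 c4390 c12224 c4444 c4443 (k8 c4345 c4344 c10992 c10573 c7782 c10851 c2067 c940 (k8 c941 c7162 c373 c4458 c1986 c1752 c11828 c4494 (k2 c308 c4446 k0)))) (by decide +kernel)
def c12548 : PP 8 4 T 0x1000002000000004000000000810000004000000001001002000000000000160000 := rS 0x116530ca099a8168945121772bf50a1b (k8 c4292 c710 c4300 c11030 c4431 c7030 c4435 c4298 (k4 c1897 c2067 c5558 c349 (k2 c373 c645 (k1 c2109 k0)))) (by decide +kernel)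
def c12549 : PP 8 4 T 0x2000000000000000000000001100001000000401000000000040000000000 := rS 0xecbe8ca9d0a1067921441b54a94f6d35d824b61584a1d566749815329514b955e9b5998c260763b153b12508f0591788a5814200e87cb31407a3e1a26012c4c256 (k8 c12452 c880 c1147 c12509 c12532 c4324 c2778 c239 (k8 c4486 c63 c223 c872 c4466 c799 c12541 c4336 (k8 c4360 c926 c927 c2904 c12224 c4344 c1252 c2285 (k8 c1017 c1679 c2801 c1188 c12096 c4346 c11030 c2776 (k8 c12015 c4443 c55 c12021 c919 c4445 c7276 c12544 (k8 c2279 c92 c231 c4390 c4278 c1226 c4444 c4345 (k8 c4292 c12546 c935 c1523 c12547 c710 c12548 c4539 (k2 c10851 c4482 (k1 c1094 k0))))))))) (by decide +kernel)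
def c12550 : PP 8 4 T 0x2000000000000000000000001100000000000401000000000040000000000 := rS 0xa48b61864f08943a6d66130ab14c63c88a583617689453aaf4caae246703824b69514a4c14200e8983e5902808ace5 (k8 c11030 c12452 c12509 c55 c63 c223 c12532 c872 (k8 c4466 c799 c12021 c2776 c12015 c92 c231 c1017 (k8 c919 c12224 c4445 c4443 c4346 c4344 c4435 c4298 (k8 c4431 c4292 c12541 c4336 c927 c2801 c1252 c2279 (k8 c1679 c1188 c12096 c7276 c7030 c12549 c1959 c2056 (k2 c605 c2109 (k1 c333 k0))))))) (by decide +kernel)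
def c12551 : PP 8 4 T 0x2000000000000000000000041100000000000001000000000040000100000 := rS 0x5cc4458b133a5526fc089780a0f30b4d667f06828e31447c34c629100744c1f01164ace5 (k8 c11030 c12452 c63 c12509 c223 c12532 c872 c4466 (k8 c2776 c11648 c4324 c2778 c4486 c4387 c799 c568 (k8 c7517 c662 c4278 c880 c239 c55 c12550 c542 (k8 c4463 c12021 c12015 c919 c1147 c12533 c4332 c6781 (k1 c7058 k0))))) (by decide +kernel)
def c12552 : PP 8 4 T 0x2000000000000000000000001100000000000001000000000040000100000 := rS 0x136391c923c16259467f7281d927d7e044bc05079841a0a100743e022c9c6288f2b435a626 (k8 c12532 c4278 c4324 c12452 c2778 c4486 c4387 c63 (k8 c12509 c223 c872 c4466 c799 c568 c880 c239 (k8 c55 c12550 c542 c4463 c4379 c4305 c1017 c11030 (k8 c7517 c1465 c12551 c926 c927 c369 c8078 c2285 (k2 c1679 c2107 k0))))) (by decide +kernel)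
def c12553 : PP 8 4 T 0x2000000000000000000000001100000000000001000000000040000000000 := rS 0xd1084d52d8a895694994cda29310e850cb04f11667d0d41116328d2e9f32accea491618917050a1f5f81141a04de5d2f03526950482852b538adc4114078751ed3868983e671f81404612d964ac4b0d85c9ee535a955712 (k8 c12224 c4445 c4444 c4442 c11030 c4297 c4431 c4292 (k8 c4434 c12452 c63 c92 c880 c12509 c55 c12102 (k8 c919 c223 c12532 c4324 c4278 c2778 c872 c239 (k8 c4486 c4466 c4353 c4387 c4389 c2776 c799 c231 (k8 c12015 c12021 c568 c12550 c65 c1377 c1381 c548 (k8 c542 c4463 c4379 c12552 c4308 c718 c383 c382 (k8 c2328 c591 c7661 c550 c6237 c2801 c2804 c12073 (k8 c4332 c10460 c11164 c1519 c4487 c12540 c4420 c1959 (k8 c602 c1964 c4682 c4451 c2063 c413 c412 c901 (k4 c6175 c1756 c4456 c7641 (k2 c7785 c804 (k1 c4437 k0)))))))))))) (by decide +kernel)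
def c12554 : PP 8 4 T 0x800000000002004000000000000000008004 := rS 0x108181600581680a11 (k8 c113 c614 c848 c849 c4461 c622 c12225 c9668 (k1 c495 k0)) (by decide +kernel)
def c12555 : PP 8 4 T 0x200000404 := rS 0x14b201 (k4 c9668 c7039 c311 c4461 k0) (by decide +kernel)
def c12556 : PP 8 4 T 0x1000000000001000000000000000000040000000000000204000000010080100080400 := rS 0x168ea591e9900a004a8a6223f (k8 c289 c4411 c59 c3625 c1639 c531 c1638 c11368 (k4 c8197 c11627 c4476 c578 k0)) (by decide +kernel)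
def c12557 : PP 8 4 T 0x2000002000000000000000000000000000000000000001400000000000000140000 := rS 0x194586da28728a242ee5 (k8 c11030 c4431 c7030 c4435 c9141 c4298 c4292 c4322 (k2 c4436 c2109 k0)) (by decide +kernel)
def c12558 : PP 8 4 T 0x1000000000000000000000000000000020000000000000201000000010080000008400 := rS 0x1181872091e0783a29 (k8 c59 c762 c1695 c1694 c234 c2158 c4462 c9135 (k2 c1098 c752 k0)) (by decide +kernel)
def c12559 : PP 8 4 T 0x11800000000000000000000000000000000000000400000204000040010000002000004 := rS 0x164b6003d014da31 (k8 c4441 c4342 c268 c4540 c4461 c704 c8197 c4476 k0) (by decide +kernel)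
def c12560 : PP 8 4 T 0x810000002000000000000000000000000000000000001400000000000004000008800 := rS 0x6908d4e25371686c2f278cd523152844b8fd (k8 c4376 c4477 c113 c4444 c4441 c4345 c4294 c4297 (k8 c4432 c304 c6403 c305 c5618 c11219 c3328 c4467 (k1 c6996 k0))) (by decide +kernel)
def c12561 : PP 8 4 T 0x1800000002000000000004000000000000000000000000205000005010080010140400 := rS 0xa580316c127a45064ef196210c3c3b0d9048ad13694c628728a242e731080ceae5 (k8 c11030 c11627 c226 c12555 c12124 c4431 c7030 c4435 (k8 c9141 c4441 c292 c4342 c4298 c4296 c4433 c4292 (k8 c1641 c4466 c276 c11242 c9828 c1095 c12559 c2109 (k8 c4632 c1224 c704 c4462 c4476 c6846 c1098 c8197 k0)))) (by decide +kernel)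
def c12562 : PP 8 4 T 0x1010000002000000000000000000000041100000000000405000000000004000108000 := rS 0x4a040f8707ac309a54420b2e1846a8e72a662511018fc54fd (k8 c4376 c12553 c289 c226 c4411 c12224 c4443 c11030 (k8 c4486 c3313 c12554 c4477 c12560 c12555 c12558 c12556 (k4 c4958 c11368 c12561 c56 (k2 c10867 c1424 (k1 c264 k0))))) (by decide +kernel)
def c12563 : PP 8 4 T 0x1000000002000000000000000000000041100000000000405000000000004000108000 := rS 0x23269b814090e07c6c3958968b235108000ad312a9cc30c06844962f278cd523152c48062a (k8 c12553 c226 c12224 c4444 c4441 c4345 c4294 c4297 (k8 c4432 c4434 c113 c32 c12562 c4326 c4330 c4381 (k8 c5204 c264 c4461 c9668 c8690 c4522 c4476 c624 (k8 c4528 c4470 c272 c4466 c1057 c10867 c10635 c2248 (k2 c7099 c2111 k0))))) (by decide +kernel)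
def c12564 : PP 8 4 T 0x10000000000000000000000000000000800000000002400000000000000000004404 := rS 0x815605a (k4 c848 c849 c574 c12233 (k1 c4461 k0)) (by decide +kernel)
def c12565 : PP 8 4 T 0x1010001002000000000000000000000001100000000000404000000000004000004404 := rS 0x348221c379600c5b04810025c1a884c28e (k8 c4486 c12564 c12555 c1306 c4477 c753 c4461 c263 (k8 c574 c4462 c4476 c1346 c6846 c609 c12381 c12248 k0)) (by decide +kernel)
def c12566 : PP 8 4 T 0x2000000000000000000000000000000001000081400044400080000100400 := rS 0x9a2c327732c6588c33a8f410073d86c82d143945121739b944203 (k8 c226 c12555 c11030 c12124 c4431 c7030 c4435 c9141 (k8 c4298 c4433 c4292 c704 c495 c4462 c234 c11627 (k8 c9009 c11242 c9828 c578 c1095 c4540 c4632 c1638 (k1 c2109 k0)))) (by decide +kernel)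
def c12567 : PP 8 4 T 0x1010000002000000000000000100000041100000004000005000000000000000100410 := rS 0xb41eae5889550b0696c35ec65587a5999c8f098208c268b1c994ee713c9d40c582d90c3c3b34874002f20914daaf35a655711298c6246343945121739b947e3547084062a (k8 c12553 c226 c12555 c4486 c1306 c289 c11030 c12124 (k8 c4431 c7030 c4435 c9141 c1606 c12224 c4441 c292 (k8 c4411 c4445 c4443 c4442 c4346 c4342 c4296 c4433 (k8 c4432 c4461 c10867 c756 c1641 c4466 c276 c12566 (k8 c4476 c486 c2432 c2433 c2431 c1111 c8511 c8481 (k8 c8286 c1638 c9135 c4464 c12557 c1643 c4310 c4312 (k8 c12356 c8142 c4366 c1171 c1211 c4458 c1987 c2851 (k4 c10572 c4759 c6781 c11368 (k2 c8486 c7513 k0))))))))) (by decide +kernel)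
def c12568 : PP 8 4 T 0x1010000002000000000000000000000041100000000000405000000000004000100400 := rS 0x8ec74f9247a221b34c7295389d4fe1c0304c1a5b04804087d37b2422b12ebf0c23547394526307884062a (k8 c12553 c226 c12555 c12563 c1606 c59 c11030 c4486 (k8 c1306 c12564 c12565 c4377 c4304 c4300 c4305 c4378 (k8 c4379 c12567 c54 c263 c574 c528 c531 c4462 (k8 c6846 c7517 c2484 c2483 c11432 c1138 c12248 c761 (k4 c760 c12250 c12434 c3386 (k2 c1450 c1642 (k1 c2107 k0))))))) (by decide +kernel)
def c12569 : PP 8 4 T 0x1800000002000000040000000000000000000000000000005000004010081010100400 := rS 0x72c0e0b63721878766d298c44203 (k8 c226 c12555 c4441 c292 c4342 c1641 c4466 c276 (k4 c272 c12566 c4470 c4476 (k2 c8383 c4726 (k1 c486 k0)))) (by decide +kernel)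
def c12570 : PP 8 4 T 0x1800000002000000040000000000000040800000000000405000400000081000104400 := rS 0x64924223d098346c95020706a29888fc42033fb1cfae5 (k8 c11030 c7516 c290 c12366 c226 c12555 c289 c4411 (k8 c59 c1306 c12569 c10867 c762 c761 c528 c531 (k4 c11368 c318 c322 c10573 (k1 c2107 k0)))) (by decide +kernel)
def c12571 : PP 8 4 T 0x1000000002000000040000000000000000100000000000005000004000081010100400 := rS 0x340f4484203 (k4 c226 c12555 c12224 c4466 (k2 c12569 c1099 k0)) (by decide +kernel)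
def c12572 : PP 8 4 T 0x10000000000000000400400000000000004000500000000010000011100800001040a0 := rS 0x3244649088d82629 (k8 c59 c531 c4470 c609 c4209 c1409 c10573 c12184 k0) (by decide +kernel)
def c12573 : PP 8 4 T 0x1000001002000000041040800000000000080000014000000000000000000000045000 := rS 0x24b21968242ac0201b68b969745 (k8 c4399 c4427 c11030 c4298 c4292 c4463 c4480 c710 (k4 c1243 c1753 c644 c4573 (k1 c11341 k0))) (by decide +kernel)
def c12574 : PP 8 4 T 0x1000000002000000000000000000000041100000000000405000000000004000100400 := rS 0x196b664ac5f8cd5f2f57634451bce2b5599d47ab909834ce1903254b6041c825361c479f4fe4763b4d3e2553c30424b0d8bc82d14eaa532a514c44a6318900cc68728a242e73728fc540f (k8 c12563 c12553 c289 c11030 c12124 c4431 c7030 c4435 (k8 c9141 c1606 c226 c12224 c4441 c292 c4411 c59 (k8 c4444 c4443 c4345 c4344 c4298 c4433 c4432 c4292 (k8 c4434 c12555 c12568 c4330 c4381 c4384 c5204 c290 (k8 c1642 c12366 c7516 c12570 c12571 c764 c1057 c1139 (k8 c10867 c759 c762 c4462 c268 c654 c528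 c531 (k8 c6781 c11368 c11025 c7239 c7420 c2483 c1020 c2109 (k8 c12572 c1309 c1039 c2126 c1485 c12573 c4304 c4305 (k2 c11717 c1752 (k1 c1247 k0)))))))))) (by decide +kernel)
def c12575 : PP 8 4 T 0x1010000002000000000000000000000001100000000000401000000000004200104800 := rS 0x1f8345888886a738b4cdf0945184b0670cb1426041c8f04a010eb45caa95294c6312018a8f61b (k8 c4292 c702 c12553 c226 c12224 c4441 c292 c4444 (k8 c4345 c11030 c4298 c85 c9668 c313 c314 c2323 (k8 c4461 c1639 c1782 c268 c654 c311 c615 c11147 (k8 c12557 c1107 c12312 c536 c10010 c10021 c4467 c9988 (k2 c9135 c4480 (k1 c11358 k0)))))) (by decide +kernel)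
def c12576 : PP 8 4 T 0x800000002000000080000000000000000080000000000480000000000000001045001 := rS 0x7e2a462a5 (k4 c4444 c4441 c4345 c11325 (k1 c11308 k0)) (by decide +kernel)
def c12577 : PP 8 4 T 0x10001000000000040000000000000000000000000001480000000010000080004020 := rS 0xdcb825 (k4 c11222 c4477 c272 c11106 k0) (by decide +kernel)
def c12578 : PP 8 4 T 0x1010000002000000000000000000000000100000000000481000000010080110104800 := rS 0x66d159f43423189a49118d9963964845f8d3a59f5146182064081300878761b27b44a6318921ca2890b9fc1ae5 (k8 c11030 c569 c7517 c4431 c7030 c4435 c9141 c12224 (k8 c4441 c292 c4298 c4297 c4292 c1641 c4466 c567 (k8 c571 c270 c2201 c4464 c6986 c2109 c4409 c4427 (k8 c12576 c12577 c4300 c4305 c358 c1752 c4470 c9135 (k8 c2203 c2204 c12184 c10080 c4391 c1519 c4397 c1481 (k1 c4495 k0)))))) (by decide +kernel)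
def c12579 : PP 8 4 T 0x1010000002000000000000000000000041100000000000405000000000004000100000 := rS 0x11cfac909b1d3efc248f4ca11111746c9530800387f069686a5910a39ca29888a81e0a (k8 c12574 c12563 c12553 c4411 c59 c11030 c4486 c12575 (k8 c535 c1306 c4476 c569 c7517 c12578 c758 c12262 (k8 c762 c761 c2721 c760 c606 c2539 c11368 c322 (k8 c4477 c3386 c1450 c1638 c7308 c4379 c1642 c2107 k0)))) (by decide +kernel)
def c12580 : PP 8 4 T 0x1000000002000000000000000400404000100004000000401000000000081200100000 := rS 0x35112d962433a9c4de8a2c19c32c55aae426044a8ec723c490043e1d68aa462a58900ce67f639f48ee5 (k8 c11030 c1642 c7516 c290 c12366 c12124 c226 c12224 (k8 c4444 c4441 c4345 c4298 c85 c86 c9668 c315 (k8 c314 c2323 c1641 c1695 c4461 c1639 c1125 c1658 (k8 c1782 c268 c654 c311 c11147 c1107 c536 c539 (k4 c10021 c9988 c4088 c10023 (k2 c1037 c9135 k0)))))) (by decide +kernel)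
def c12581 : PP 8 4 T 0x1000000002000000040000000000400001100010000001405000004000001110100800 := rS 0x3225078c262c64ec9a342050afd41ae4debf081c1834b2e8e114671b86486041a84c3c3b0d9048ad136aa4d6a5298c6246343945121739824fec715394b459 (k8 c535 c4476 c11030 c12553 c290 c12366 c84 c12124 (k8 c4431 c7030 c4435 c9141 c1606 c12224 c4441 c292 (k8 c4444 c4442 c4345 c4342 c4298 c4296 c4433 c4292 (k8 c1641 c4466 c571 c1099 c270 c276 c2201 c272 (k8 c654 c2109 c4470 c11106 c4427 c9923 c359 c358 (k8 c1240 c1073 c1201 c2569 c4300 c710 c10235 c2119 (k8 c844 c845 c4448 c1095 c4759 c11242 c2059 c11326 (k1 c1697 k0)))))))) (by decide +kernel)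
def c12582 : PP 8 4 T 0x1000000002000000000000000000000041100000000000405000000000004000100000 := rS 0x33229930466d14268432844d25d00070b459109f4fe4763b4d3e2553a84c30c599ec140f0db94daa9579ad4aab8918c7e2a (k8 c12553 c289 c1606 c12224 c4445 c4444 c4442 c4346 (k8 c4345 c4342 c11030 c4292 c12563 c12574 c702 c662 (k8 c12579 c4326 c4329 c4330 c4381 c4384 c5204 c290 (k8 c1642 c12366 c7516 c12580 c535 c4476 c12581 c758 (k8 c2721 c2723 c606 c2539 c8696 c1638 c4397 c1481 (k4 c4464 c10573 c10585 c9372 (k1 c4310 k0))))))) (by decide +kernel)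
def c12583 : PP 8 4 T 0x1010000002000000000000000000000001100000000000008000000000000000000204 := rS 0xd2020946a012e1c11c21 (k8 c798 c4486 c801 c800 c2709 c1306 c3395 c4461 (k2 c9831 c12453 k0)) (by decide +kernel)
def c12584 : PP 8 4 T 0x2000000000004000000000000000004100000009000005001080010100000 := rS 0x3ba2a32c40c90c26040f00436416894d0e514485c42031da4ce6e5 (k8 c11030 c12124 c1069 c1640 c226 c798 c4431 c7030 (k8 c4435 c9141 c292 c4298 c4433 c4292 c750 c4466 (k8 c4461 c1639 c276 c268 c11242 c9828 c2109 c1095 (k1 c4632 k0)))) (by decide +kernel)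
def c12585 : PP 8 4 T 0x1100000000001000040040000000000055500000000000000001400100000000000000 := rS 0x515096eb9 (k4 c6781 c9550 c4473 c10674 (k1 c4393 k0)) (by decide +kernel)
def c12586 : PP 8 4 T 0x1000000002000000000000000000000041100000040000409000000000000020000400 := rS 0xc5219d8dc8440974680f2423cd2110011d8ed34f8954f0c0412c5ee536aa4d6a5298c6243f3081c7a953188407111da4c5439 (k8 c1139 c12553 c1069 c1640 c4411 c226 c798 c1606 (k8 c802 c11368 c1018 c880 c289 c12224 c4441 c292 (k8 c4444 c4442 c4345 c4342 c11030 c4432 c4434 c4462 (k8 c12583 c4330 c4381 c4384 c5204 c290 c1642 c1058 (k8 c344 c756 c2709 c12585 c242 c4209 c753 c12056 (k4 c8696 c1059 c1500 c8810 (k2 c1095 c11242 k0))))))) (by decide +kernel)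
def c12587 : PP 8 4 T 0x1000000002000000000000000000000041100000000000409000000000000000100000 := rS 0x778cb10867945066120409804141c1d8f5867549a54427b2d86c82d14ea66225318c48066343945121739b947e2a (k8 c12553 c289 c11030 c12124 c4431 c7030 c4435 c9141 (k8 c1606 c226 c12224 c4441 c292 c4411 c4443 c4344 (k8 c4298 c4433 c4292 c92 c1226 c798 c802 c1069 (k8 c11025 c4958 c11368 c1640 c12584 c12586 c566 c570 (k8 c4461 c12557 c268 c2109 c604 c10207 c11242 c9828 (k2 c1095 c4632 k0)))))) (by decide +kernel)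
def c12588 : PP 8 4 T 0x1000000002000000000000000000000041100000000000401000000000000000100000 := rS 0x2380b0d1315c062a (k8 c12553 c226 c12587 c12582 c4324 c351 c4486 c4461 (k1 c2845 k0)) (by decide +kernel)
def c12589 : PP 8 4 T 0x2010000002000000000000000000000040100000000000405000000000080010100400 := rS 0xbab907a5506ac3d2cccf098204cca8b3a9a40c773c800c26f04960b6431a878764b1793c824536abcd69955c44a6318918d0e514485dca3f588e44203 (k8 c226 c12555 c4348 c4350 c289 c11030 c4431 c7030 (k8 c4435 c9141 c1606 c12224 c4441 c292 c4411 c4445 (k8 c4443 c4442 c4346 c4342 c4296 c4433 c4297 c4432 (k8 c4434 c1641 c4466 c1099 c276 c12566 c4476 c1106 (k8 c1107 c617 c4726 c540 c1111 c4462 c756 c2432 (k8 c8483 c8511 c1638 c4464 c12557 c4310 c4312 c12356 (k4 c8142 c642 c10572 c8476 (k2 c6781 c753 (k1 c11613 k0))))))))) (by decide +kernel)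
def c12590 : PP 8 4 T 0x10000002000000000000000000000041100000000000405000000000000000100400 := rS 0x29d7ecf65a8892854fd0dfb4b2e320de8a82044c27559ae4b0130699c32064a96c08094d870362f68a755299528a6225318c48c68728a242e731539576b147af4e314 (k8 c12588 c4387 c4354 c4388 c4350 c4390 c11030 c12553 (k8 c12124 c4431 c7030 c4435 c9141 c1606 c12224 c4441 (k8 c292 c4411 c59 c4444 c4443 c4345 c4344 c4298 (k8 c4432 c4292 c12589 c764 c1057 c10867 c759 c762 (k8 c4462 c268 c654 c528 c531 c4476 c6781 c7239 (k8 c11025 c2598 c608 c4464 c2109 c1107 c8522 c11613 (k8 c4427 c4305 c4422 c1665 c1497 c4199 c5588 c1753 (k4 c1523 c9033 c941 c2126 k0)))))))) (by decide +kernel)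
def c12591 : PP 8 4 T 0x2010000002000000000000000000000000100004000000400000000000004200000020 := rS 0x1dcf2d230960462535a66248f (k8 c4388 c12224 c4443 c4442 c313 c832 c311 c615 (k4 c4467 c540 c1111 c12526 k0)) (by decide +kernel)
def c12592 : PP 8 4 T 0x2800000002000000000000000000000000080004000002000000044010000000040020 := rS 0x78c43a1de32be268910ad1729b46239 (k8 c4348 c4441 c4342 c11030 c4298 c712 c615 c284 (k4 c11148 c4369 c1094 c4632 (k2 c7804 c11468 (k1 c1782 k0)))) (by decide +kernel)
def c12593 : PP 8 4 T 0x2010000002000000000000000000000000100000000000401000004000084010100800 := rS 0x904766b1c78cb2645d92117e1bcc3456997486352d078434b451f433040204c023b6894c631201a1ca2890b9cd1e395bad4127b0dacc1e373f834e2e5 (k8 c11030 c4387 c568 c7517 c4386 c304 c662 c4292 (k8 c702 c84 c4389 c4353 c4348 c4388 c12124 c4431 (k8 c7030 c4435 c9141 c226 c12224 c4441 c292 c4298 (k8 c1641 c567 c571 c4461 c4464 c268 c4409 c2109 (k8 c4427 c12591 c4466 c6846 c1099 c276 c840 c12576 (k8 c11725 c12592 c9688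 c12577 c4300 c4305 c7787 c12322 (k4 c1752 c4471 c2228 c2062 (k2 c8078 c2107 (k1 c4573 k0))))))))) (by decide +kernel)
def c12594 : PP 8 4 T 0x10000000000000080040000000040000000010000054080000000000080000104010 := rS 0x4fd0d9049 (k4 c4281 c11199 c4422 c1664 (k1 c5588 k0)) (by decide +kernel)
def c12595 : PP 8 4 T 0x2010000002000000000000000000000001100000100102081000000000004000100812 := rS 0x8b0c9de32a712841a6c751a15fa2f689b53aa94ca945311298c624634394512175da3d7a7b0d83c6e0d3899cfb040999454e5 (k8 c11030 c12553 c2539 c1638 c4464 c4409 c4310 c4387 (k8 c568 c4386 c304 c4292 c702 c4354 c4388 c4390 (k8 c4431 c7030 c4435 c9141 c1606 c12224 c4441 c292 (k8 c4411 c59 c4444 c4443 c4345 c4344 c4342 c4298 (k8 c4432 c4302 c712 c936 c7343 c12594 c4463 c278 (k4 c4558 c4539 c10356 c309 (k2 c4632 c2109 k0))))))) (by decide +kernel)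
def c12596 : PP 8 4 T 0x10000002000000000000000000000041100000000000405000000000004000100000 := rS 0x6f3099e087509994d20002974b4b92ca543e1c598240e0a728a622631f8a91f14 (k8 c12588 c4388 c12553 c289 c1606 c4411 c59 c11030 (k8 c12590 c83 c84 c662 c12593 c56 c762 c1025 (k8 c6781 c4476 c840 c575 c758 c2723 c2539 c1638 (k4 c11423 c4464 c4310 c12595 (k2 c9688 c11613 k0))))) (by decide +kernel)
def c12597 : PP 8 4 T 0x20000002000000000000000000000040100000010000005000000140080010100400 := rS 0x1e32d2b4b5619e1304099951675348440c773c800de092c16c86350f0ec5e6d579ad32ab8894c626343945121739b947ea769c498e2523a7c4203 (k8 c226 c12555 c4384 c1642 c4381 c290 c12224 c5204 (k8 c4330 c289 c11030 c12124 c4431 c7030 c4435 c9141 (k8 c1606 c4441 c292 c4411 c4445 c4443 c4442 c4346 (k8 c4342 c4432 c1641 c4466 c1099 c276 c12566 c4476 (k8 c1106 c1107 c4726 c540 c1111 c4462 c10960 c756 (k8 c2432 c8483 c8511 c1638 c4464 c12557 c4310 c8142 (k4 c4458 c10572 c2026 c11762 (k1 c11368 k0)))))))) (by decide +kernel)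
def c12598 : PP 8 4 T 0x20000002000000000000005100000040100000010000405000000140080000100400 := rS 0xc937844eab35c9601e13338192a5b0202438298898ce6e512a7da712 (k8 c12224 c5204 c4384 c4381 c11030 c12124 c1606 c4411 (k8 c59 c12597 c1057 c10867 c759 c762 c4462 c654 (k8 c531 c264 c4476 c6781 c7239 c539 c608 c1020 (k2 c10573 c11717 k0)))) (by decide +kernel)
def c12599 : PP 8 4 T 0x2020000002000000000000000000000021100000000000485000000000000010100800 := rS 0x1bd7e803421506cb643f4ecc2519958b174eaa532a531aed7a6150a9e327f63894fa474f824f70933d2d828a4394ca2890bb95a219098ec365d47884b345218c472350f01002031534e2437 (k8 c4386 c12224 c5204 c12553 c226 c567 c4461 c575 (k8 c1099 c4348 c4441 c276 c11725 c93 c311 c4388 (k8 c840 c4292 c1641 c571 c268 c4298 c11030 c4431 (k8 c7030 c4435 c292 c9141 c2109 c9923 c4427 c654 (k8 c12557 c702 c84 c4384 c1642 c7516 c4381 c290 (k8 c12366 c8237 c4330 c4329 c4326 c4354 c4390 c1606 (k8 c4444 c4443 c4345 c4344 c4418 c3728 c1697 c858 (k8 c4494 c7804 c11932 c5857 c2028 c2002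 c717 c10356 (k4 c4484 c1094 c10361 c10235 k0))))))))) (by decide +kernel)
def c12600 : PP 8 4 T 0x20000002000000000000000000000041100000000000485000000000000010100000 := rS 0xee75620f58695218843c59209153311398fe327ba5b05148729945121772b4432040080c6312098ec14b538adc6e3958c50541b (k8 c4292 c12553 c12588 c4350 c4348 c4386 c4353 c4387 (k8 c4389 c12598 c1641 c571 c12224 c4441 c226 c567 (k8 c4461 c268 c4298 c11030 c4431 c7030 c4435 c292 (k8 c9141 c2109 c9923 c4427 c702 c8237 c289 c12124 (k8 c4411 c4443 c4296 c4433 c93 c575 c311 c276 (k4 c12599 c4958 c11368 c4759 (k2 c11468 c1095 (k1 c4632 k0)))))))) (by decide +kernel)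
def c12601 : PP 8 4 T 0x20000002000000000000000000000041100000000000405000000000000010100000 := rS 0x3b960b68a0c81026011db4532531880d0e514485dcb19891ec14b538adc6e3958c50541b (k8 c4292 c12553 c12588 c4350 c4348 c4386 c4353 c4387 (k8 c4389 c12598 c702 c12224 c8237 c11030 c4431 c7030 (k8 c4435 c9141 c226 c4441 c292 c4443 c4298 c1641 (k8 c567 c571 c4461 c268 c2109 c12600 c4476 c1111 (k1 c9998 k0))))) (by decide +kernel)
def c12602 : PP 8 4 T 0x20000002000000000000000000000041100000000000405000000000000000100000 := rS 0x104649bcea1308994005a5c9652a1c07acc12070534cc31214c44e62a72ac472375b9c56b14 (k8 c12588 c4389 c4387 c4353 c4386 c4348 c4350 c11030 (k8 c12553 c12124 c4411 c59 c12224 c4326 c5204 c12598 (k8 c83 c84 c662 c304 c12601 c762 c1025 c6781 (k8 c4476 c758 c2539 c606 c1638 c11423 c10992 c10573 (k2 c4464 c10837 k0))))) (by decide +kernel)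
def c12603 : PP 8 4 T 0x2000000000000000000000041100000000000405000000000000000100000 := rS 0x20506898150d018a8e314 (k8 c12588 c4387 c12553 c226 c12602 c12590 c12596 c568 (k2 c351 c871 (k1 c4461 k0))) (by decide +kernel)
def c12604 : PP 8 4 T 0x2010000000000000000000010400000054000000000041401000001000080000080042 := rS 0x18e471a924440e2e3f4fe7d320a622631fac472375b9c56a3b (k8 c1640 c4389 c4387 c4353 c4386 c4348 c4350 c289 (k8 c1606 c4411 c59 c1638 c3576 c2438 c7058 c4477 (k4 c753 c752 c242 c1330 (k2 c1331 c1450 (k1 c2113 k0))))) (by decide +kernel)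
def c12605 : PP 8 4 T 0x2010000000001000000000010400000054000000000041401000001000080000100042 := rS 0x18e471a924440e2e3f4ff04098a622631fac472375b9c56a3b (k8 c1640 c4389 c4387 c4353 c4386 c4348 c4350 c289 (k8 c1606 c4411 c59 c12604 c4464 c4313 c7058 c4477 (k4 c753 c752 c242 c1330 (k2 c1332 c1450 (k1 c2113 k0))))) (by decide +kernel)
def c12606 : PP 8 4 T 0x2920000000000000000000000000000455100000000000000000000000000000000000 := rS 0x65d2d88ad67d0d9b45512f93ea750a75529952aad768f5bad57316 (k8 c4487 c6781 c4389 c4353 c4388 c4390 c4445 c4444 (k8 c4443 c4345 c4344 c4329 c4330 c4384 c10851 c2125 (k8 c4399 c1485 c4393 c1523 c6601 c7641 c4429 c1756 (k1 c10725 k0)))) (by decide +kernel)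
def c12607 : PP 8 4 T 0x2000000000000000000000041100000000000401000000000000000100000 := rS 0xecc48c90cf34b454243213020061a9b608722c3b1eae586754999d2ab303884c27b2d95a283f0d8bc824568a753311298c6240331a1ca2890b9cc54e5 (k8 c11030 c12553 c12124 c4431 c7030 c4435 c9141 c1606 (k8 c226 c12224 c4441 c292 c4411 c4443 c4344 c4298 (k8 c4296 c4433 c4432 c4292 c289 c12588 c12603 c92 (k8 c1226 c880 c798 c1018 c1188 c802 c921 c1069 (k8 c11025 c4958 c6781 c11368 c1640 c4487 c12584 c4420 (k8 c764 c12606 c12605 c4461 c1639 c268 c12557 c2109 (k4 c4427 c604 c10207 c9828 (k2 c4759 c4632 (k1 c1095 k0))))))))) (by decide +kernel)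
def c12608 : PP 8 4 T 0x800000002000000000000004000000080800000000000000000000000080000000000 := rS 0x743e371e121a6c71291e86a25a29c5e4f19b95523152a54422d (k8 c143 c926 c159 c4444 c4441 c4345 c11030 c4294 (k8 c4297 c4432 c2935 c931 c930 c4393 c1314 c3410 (k8 c290 c6996 c4473 c1702 c323 c275 c761 c4466 k0))) (by decide +kernel)
def c12609 : PP 8 4 T 0x1000000000000000000080000000000000005000000000080080100000 := rS 0x653316800b32c814100b038f80693 (k8 c158 c226 c1193 c3204 c2223 c4462 c263 c1106 (k4 c1186 c4461 c4476 c928 (k2 c579 c11319 k0))) (by decide +kernel)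
def c12610 : PP 8 4 T 0x1000000000000000000080000000000000005000000000010120100404 := rS 0x41164132c0100c09 (k8 c1057 c4462 c10867 c10598 c531 c1195 c4464 c4312 k0) (by decide +kernel)
def c12611 : PP 8 4 T 0x1000000000000000000080000000000000005000000000080000100000 := rS 0x672d410b213050703e2901884762d (k8 c143 c1044 c926 c226 c59 c12609 c4466 c12610 (k4 c571 c535 c4464 c4476 (k2 c4310 c928 k0))) (by decide +kernel)
def c12612 : PP 8 4 T 0x11000002000000000010000000000401580004000001000000041050004000000620 := rS 0x2fc1d18699dd0a5c7e844dc398a2a62479 (k8 c605 c12224 c4345 c4486 c4348 c12480 c344 c4378 (k8 c9688 c1497 c12428 c12228 c7804 c8928 c4369 c10065 k0)) (by decide +kernel)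
def c12613 : PP 8 4 T 0x5000000000000000000000404101501501580001000000000000000000000004020200 := rS 0x642e504bc5db2cdc85 (k8 c710 c345 c1753 c1350 c2126 c1080 c1208 c644 (k1 c11399 k0)) (by decide +kernel)
def c12614 : PP 8 4 T 0x5000000002000000040041004000400401580001000000009000008050000000144200 := rS 0x178cb5db2570115f8e0364572a75529952c4854b1 (k8 c1147 c12553 c12224 c4444 c4443 c4345 c4344 c11030 (k8 c4296 c4292 c4470 c1240 c12613 c12166 c10573 c1478 (k2 c1752 c2126 (k1 c1208 k0)))) (by decide +kernel)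
def c12615 : PP 8 4 T 0x2000000000000000000000081100000000000001000000000000010100000 := rS 0x89b8731407b1da62553c30f2c14526e1219058dc7a431f0206a27098103c010db44a63101a1ca2890ba562e2116b151eb72d9ed3b123095854e5 (k8 c11030 c12553 c12611 c880 c12224 c4344 c1226 c92 (k8 c1165 c12608 c1252 c143 c926 c4360 c159 c4431 (k8 c7030 c4435 c9141 c226 c4441 c292 c4298 c4292 (k8 c750 c4466 c4461 c1639 c353 c1099 c1065 c1193 (k8 c276 c275 c273 c271 c268 c12557 c12186 c2109 (k8 c9923 c605 c12612 c4330 c4381 c5204 c290 c264 (k4 c12614 c4348 c12480 c344 (k1 c8928 k0)))))))) (by decide +kernel)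
def c12616 : PP 8 4 T 0x40000000000006010000002000000080011000000000400500000000001001000044400080000144000 := rS 0x184a28c9048ae54eaa532a5298c62437 (k8 c4386 c12224 c4441 c292 c4444 c4443 c4345 c4344 (k4 c11030 c4296 c4433 c5037 (k2 c12222 c4759 (k1 c12543 k0)))) (by decide +kernel)
def c12617 : PP 8 4 T 0x2001000002000000040000000100000001500005000000040000000000000020020000 := rS 0x3b2fa32a712a14369d54a654b124d8bc4ebb (k8 c4390 c872 c4432 c764 c12224 c4444 c4443 c4345 (k8 c4344 c4292 c710 c4115 c4558 c4539 c10851 c4482 (k1 c1094 k0))) (by decide +kernel)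
def c12618 : PP 8 4 T 0x40000000000004010000002000000000011000100010001500005000001041000040400000020145800 := rS 0x51a7e864864845a6c71bc52229b1789c127d238f07e298494c5431891fe08e5 (k8 c11030 c4464 c4313 c12224 c4441 c12553 c292 c12557 (k8 c59 c1180 c4471 c8078 c7516 c234 c872 c4432 (k8 c764 c4411 c4486 c4386 c330 c12616 c12617 c10573 (k4 c2107 c4421 c1663 c12547 (k1 c4489 k0))))) (by decide +kernel)
def c12619 : PP 8 4 T 0x1000000000000040000800000000000000005000000000000000000000004004100 := rS 0x84081d8dd19 (k4 c4369 c7782 c4482 c10992 (k2 c1094 c710 k0)) (by decide +kernel)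
def c12620 : PP 8 4 T 0x1000000002000000040000400000400401500000000000000000000140000000000000 := rS 0x178345d92c829d54a654b12 (k8 c12224 c4444 c4443 c4345 c4344 c4433 c4434 c9034 (k2 c4470 c2126 (k1 c1039 k0))) (by decide +kernel)
def c12621 : PP 8 4 T 0x40040004100000000400050000000001000000080080000144020 := rS 0x649244611 (k4 c319 c1409 c323 c10573 (k1 c12184 k0)) (by decide +kernel)
def c12622 : PP 8 4 T 0x2000000000000000000000001100000000000401000000000000000100000 := rS 0x1145d8dd7ec7698954f0c219e5834b45034327f07812130405004fa130491c783f1ca6c380758984f65b2b23c76c55ba862e9644a1c961b1785da25172a755299528b4525318c48062a (k8 c12553 c226 c12224 c4441 c292 c59 c143 c4444 (k8 c4443 c4345 c4344 c11030 c4435 c4298 c4431 c4432 (k8 c4292 c4434 c9141 c7030 c12607 c4360 c898 c1165 (k8 c1252 c1044 c12608 c12611 c92 c1226 c880 c1147 (k8 c1018 c12615 c764 c1139 c1180 c4471 c8078 c234 (k8 c1679 c7516 c751 c4462 c4464 c12557 c4461 c12199 (k8 c4313 c268 c528 c2109 c4427 c9923 c605 c10021 (k8 c12618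 c4330 c4381 c5204 c290 c12619 c12621 c9034 (k2 c12620 c10851 k0))))))))) (by decide +kernel)
def c12623 : PP 8 4 T 0x10800000002000000080000400000000000000004400001480000000000000001004001 := rS 0x3c212125d7e2a462a5 (k8 c4444 c4441 c4345 c11325 c11069 c9457 c11065 c4482 (k1 c603 k0)) (by decide +kernel)
def c12624 : PP 8 4 T 0x11010000002000000000000000000000001100000400000480000000000000001004821 := rS 0x1e61284268d872117e34d7e61472a6240d3d86c6a1e (k8 c575 c1099 c4292 c702 c528 c12224 c4345 c4486 (k8 c6986 c1515 c12623 c12577 c4300 c358 c4470 c2204 (k4 c10080 c4321 c10814 c4482 k0))) (by decide +kernel)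
def c12625 : PP 8 4 T 0x11000000000000000000002000000001450080000200000 := rS 0x418cfd14c15923f589641407330244204 (k8 c286 c2261 c2220 c287 c2635 c4462 c535 c12219 (k8 c2223 c2611 c4308 c59 c4302 c11270 c614 c2226 k0)) (by decide +kernel)
def c12626 : PP 8 4 T 0x10000002000000000000000000000001100000000000480000000000080000200000 := rS 0x89849fd084612b1c924c089bdf8612eb4d7ab71b8e51f141383c320106ae46b1961906967745ad62ce534a1d88431f8f5663b0f0a4a631891ec1407020243666 (k8 c287 c4292 c2220 c286 c2635 c4462 c702 c12224 (k8 c4441 c292 c59 c575 c1102 c2645 c327 c2223 (k8 c276 c11242 c1635 c925 c11030 c4471 c4419 c718 (k8 c1096 c4429 c4433 c9009 c9828 c1099 c7514 c528 (k8 c647 c2222 c2221 c2315 c12624 c4388 c4348 c4386 (k8 c4353 c4354 c12321 c840 c12625 c12577 c9688 c4300 (k8 c12322 c366 c2228 c284 c2113 c10582 c1311 c4321 (k2 c684 c7785 k0)))))))) (by decide +kernel)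
def c12627 : PP 8 4 T 0x10800100002000000000120000100400000000000400101500000000200000000000900 := rS 0x2d8febc41215fa8165840e06f5f914daa935a94f61b (k8 c4292 c702 c4444 c4442 c4345 c4342 c4296 c1240 (k8 c1073 c359 c358 c1757 c7000 c4300 c710 c2119 (k4 c589 c677 c1175 c5279 k0))) (by decide +kernel)
def c12628 : PP 8 4 T 0x2000000000000000000000001100000000000480000000000080000200000 := rS 0x8340a14fc102432ce2b71c9748e3763b4d3e255398618695a9dd0f198b31172c31d90c6a3d0f2cc82e536aa4d6a51494c631282a2c1e0d649ec363f589641407330244204 (k8 c286 c2261 c2220 c287 c2635 c4462 c535 c12219 (k8 c2223 c4292 c702 c2611 c528 c2221 c718 c4308 (k8 c12224 c4441 c292 c59 c4444 c4442 c4345 c4342 (k8 c11030 c4433 c2645 c575 c327 c1099 c276 c1102 (k8 c9009 c7514 c11242 c4471 c9828 c1635 c1096 c4419 (k8 c925 c12626 c4326 c4330 c4381 c4384 c5204 c290 (k8 c272 c1642 c11106 c12627 c7094 c7095 c1756 c2113 (k4 c12402 c367 c710 c1462 (k2 c677 c2119 k0))))))))) (by decide +kernel)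
def c12629 : PP 8 4 T 0x2000000000000000000000001100000000000401000000000000000000000 := rS 0xb30f870ac5b2c8fc14073301042090a394c62a (k8 c12553 c1606 c11030 c12622 c2220 c2261 c286 c287 (k8 c2635 c4462 c2223 c535 c12628 c4476 c6846 c271 (k2 c1188 c12216 k0))) (by decide +kernel)
def c12630 : PP 8 4 T 0x2000000000000000000000001100000000000005000000000000000100410 := rS 0x12ab859ab213043384cfe65638d5161e3ab24182434c50002f36abd5711298c4c70d37ac50e514485d2ee53c9acee998901812582d978062a (k8 c12553 c226 c12629 c577 c4476 c1106 c4462 c12224 (k8 c4443 c1111 c4442 c540 c11030 c12611 c4431 c7030 (k8 c4435 c9141 c545 c1377 c4382 c1606 c4441 c292 (k8 c4411 c4445 c4346 c4342 c4432 c4461 c12567 c756 (k8 c489 c488 c2435 c2432 c487 c8286 c1369 c8477 (k8 c8511 c12366 c1638 c658 c4464 c12557 c8142 c4312 (k2 c9531 c10572 (k1 c6781 k0)))))))) (by decide +kernel)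
def c12631 : PP 8 4 T 0x2000000000000000000000001100000000000005000000000000000100400 := rS 0xd36428e28b55caccfe8f4ac10e2750e04cce040881842298898e1a6137ac41e734bb9412582d978062a (k8 c12553 c226 c12629 c577 c4476 c1106 c11030 c12611 (k8 c12124 c1376 c545 c1377 c122 c4382 c1606 c4411 (k8 c59 c12555 c4462 c608 c12630 c654 c531 c6846 (k8 c2484 c2483 c4464 c762 c1425 c4313 c4312 c6781 (k4 c7420 c4486 c1465 c12141 (k2 c12222 c10573 k0)))))) (by decide +kernel)
def c12632 : PP 8 4 T 0x2000000000000000000000001100000000000005000000000000000100000 := rS 0x47a9e2ad364a8c86755ca84fe2384c11143949094320d0204cce20599ec14773c96036e5549ad32a5298c6250d309bd620f018a8b65e (k8 c12629 c577 c12553 c226 c1376 c545 c1377 c122 (k8 c4382 c12224 c4441 c292 c4444 c4443 c4442 c4345 (k8 c11030 c4292 c4476 c540 c1111 c12631 c702 c662 (k8 c535 c2638 c2496 c534 c2495 c309 c313 c315 (k8 c2323 c11147 c4464 c12557 c1295 c7517 c1735 c1125 (k8 c1657 c10207 c1465 c547 c12222 c9531 c10010 c10003 (k1 c4486 k0))))))) (by decide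 +kernel)
def c12633 : PP 8 4 T 0x1000000000005100000000000010054000808000001140080000100414 := rS 0xc65c9d546d3248fc18240f8007693088d41007 (k8 c1018 c4462 c1059 c344 c1069 c1640 c4461 c1066 (k8 c489 c488 c288 c9868 c4371 c3435 c11627 c7514 (k2 c11733 c291 k0))) (by decide +kernel)
def c12634 : PP 8 4 T 0x2000000000000000000000001100000000000001000000000000000100400 := rS 0x1d5863f4b87402041e8206299889bd625b3e9cdca7b4ec480e034a98c54391badce2b58a164ac5e (k8 c12629 c12632 c63 c12467 c4389 c4387 c4353 c4386 (k8 c4348 c12553 c1606 c802 c226 c1018 c12224 c4344 (k8 c1226 c11030 c12124 c1380 c577 c545 c1377 c4411 (k8 c4443 c4441 c4462 c234 c12633 c54 c1058 c12615 (k4 c289 c4958 c11025 c12584 k0))))) (by decide +kernel)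
def c12635 : PP 8 4 T 0x2000000000000000000000001100000000000001000000000000000100000 := rS 0x483469a8c4e193f88c080d0980414711dc5126213d964ac7372a74631286984deb107978062a (k8 c12553 c226 c12629 c1376 c545 c1377 c122 c4382 (k8 c12224 c4441 c4344 c11030 c12124 c12632 c63 c1226 (k8 c798 c1069 c12467 c1640 c4387 c12634 c2538 c571 (k8 c568 c4461 c1295 c7517 c268 c10203 c1465 c12222 (k2 c12501 c4467 (k1 c1369 k0)))))) (by decide +kernel)
def c12636 : PP 8 4 T 0x2000000000000000000000001100000000000001000000000000000000000 := rS 0x164562c8fc3e070e198082104850b65e318a454e5 (k8 c11030 c12553 c59 c1606 c12629 c577 c12635 c2220 (k8 c2261 c286 c287 c6846 c2635 c56 c1180 c1025 (k2 c4476 c12216 (k1 c1188 k0)))) (by decide +kernel)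
def c12637 : PP 8 4 T 0x80000000000000000000500 := rS 0x840c03 (k4 c839 c4462 c12555 c495 k0) (by decide +kernel)
def c12638 : PP 8 4 T 0x1010000002000000080000000000000001100000000000400000000000000000000202 := rS 0x2541c246efc2e9a45ea918c480e2330ac4728e (k8 c4486 c4280 c1145 c849 c4372 c30 c12224 c4441 (k8 c4345 c4432 c756 c752 c4477 c11924 c9457 c4306 (k2 c1423 c12234 k0))) (by decide +kernel)
def c12639 : PP 8 4 T 0x1010000002000000080000000000000041100000000000484000000000040000000200 := rS 0x621d8867941c2579451eaedf8a6160801e25148080261589347227258bc9e33578c54aab1f94d16d102afd1ca9890ec2654 (k8 c12636 c34 c1062 c12224 c4345 c4486 c1515 c266 (k8 c4298 c1766 c9029 c8954 c4445 c4444 c4441 c4346 (k8 c4294 c4297 c4432 c4434 c4278 c4280 c4282 c1145 (k8 c849 c12638 c4461 c1599 c225 c12343 c838 c11345 (k8 c6996 c11548 c6882 c329 c4453 c4500 c12347 c4306 (k4 c11641 c2014 c11594 c11242 (k1 c1096 k0))))))) (by decide +kernel)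
def c12640 : PP 8 4 T 0x800000002000000000000000000000000000000000000082000000400040010000002 := rS 0x948b1887a280f0b442e5578c556130ac147e53 (k8 c9029 c8954 c4406 c141 c34 c4445 c4441 c4346 (k8 c11030 c9668 c911 c4466 c11345 c274 c8448 c4471 (k2 c842 c4418 k0))) (by decide +kernel)
def c12641 : PP 8 4 T 0x11800002000000000000000500000000001100500000101580000000000000000000000 := rS 0xbba2a114ea935a94f66d (k8 c4342 c704 c4444 c4442 c4345 c4500 c7107 c9368 (k2 c1442 c4493 k0)) (by decide +kernel)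
def c12642 : PP 8 4 T 0x1100002002000000040040400000000011100500000081580000041400000000000000 := rS 0x14324ad99b455e1a59687a5c6588d14c94cf66d8930c823f7291cfa54 (k8 c12636 c4379 c1602 c11030 c8954 c4433 c9009 c12224 (k8 c4342 c704 c9029 c4443 c4298 c11242 c9828 c4429 (k8 c1635 c1757 c925 c12641 c4454 c6588 c1175 c4573 (k2 c4424 c4473 k0)))) (by decide +kernel)
def c12643 : PP 8 4 T 0x1010000002000000000000000000000041100000000000484000000000040000000400 := rS 0x21574421c3f102834a8f4cd11638986a5d088b01e23101844a2901005a63b041ec961736abc626b52aac263f298740a545fa395312 (k8 c12224 c4345 c4486 c1515 c12636 c266 c10867 c9029 (k8 c8954 c34 c4445 c4444 c4442 c4441 c4346 c4342 (k8 c4431 c4434 c704 c12637 c1062 c12639 c12640 c4461 (k8 c1599 c225 c2848 c838 c2833 c12352 c11345 c2305 (k8 c12418 c1305 c4467 c250 c4332 c247 c329 c855 (k8 c4570 c12056 c4477 c4538 c12642 c365 c1442 c6983 k0)))))) (by decide +kernel)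
def c12644 : PP 8 4 T 0x2000000080000000000000001900001400001400000000000001000000000 := rS 0x108530bc9e33548c54b12 (k8 c12224 c4444 c4441 c4345 c4294 c4297 c4432 c6996 (k2 c11594 c12347 k0)) (by decide +kernel)
def c12645 : PP 8 4 T 0x2000000080000000000000001900001400001400000000000040000000080 := rS 0x220f487a5c65883b61accd3093990c7a0033ab4ba1e018b4482f20b94daa9189ad57120a8fca68b68814ca54 (k8 c12636 c1646 c266 c4298 c1766 c9029 c8954 c141 (k8 c12224 c4445 c4442 c4441 c4345 c4342 c11030 c4433 (k8 c4432 c12644 c2166 c225 c1424 c1336 c4554 c4555 (k8 c4461 c274 c276 c3100 c9457 c756 c11612 c9009 (k8 c1600 c11242 c9828 c4429 c1634 c4482 c7525 c682 k0))))) (by decide +kernel)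
def c12646 : PP 8 4 T 0x10000000000000040000000000000001900000014000020000000000000210000480 := rS 0x425 (k2 c313 c7039 (k1 c11631 k0)) (by decide +kernel)
def c12647 : PP 8 4 T 0x1010000002000000000000000000000001100000004001420000000000040010000480 := rS 0xfeb7a131d6a473e83d623b8b1246cfc5cacce639000f46a1e10b4dca15828fd1c79359dd3312389d4ca54 (k8 c12636 c1646 c538 c536 c12224 c4443 c1111 c4442 (k8 c540 c4486 c8954 c4406 c141 c11030 c12645 c12646 (k8 c4466 c1306 c274 c1098 c8383 c3100 c11612 c7514 (k8 c8563 c4470 c4209 c4481 c1600 c4304 c4376 c4379 (k4 c1412 c4419 c250 c4473 (k2 c9550 c4392 (k1 c4088 k0))))))) (by decide +kernel)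
def c12648 : PP 8 4 T 0x1010000002000000000000000000000001100000000000444000000000040000000400 := rS 0x581e14820020737984b0af18aae24530e814a88e (k8 c4486 c12636 c266 c10867 c9029 c12224 c4445 c4441 (k8 c4346 c4476 c848 c1346 c12647 c486 c4462 c1599 (k2 c1105 c11345 (k1 c2165 k0)))) (by decide +kernel)
def c12649 : PP 8 4 T 0x1010000002000000000000000000000001100000000000404000000000040000000400 := rS 0xb006962d3947e54 (k8 c12636 c8954 c11030 c12648 c12643 c2933 c11783 c246 k0) (by decide +kernel)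
def c12650 : PP 8 4 T 0x2000000000000000000000010000000000000000000002002000001400200000000048 := rS 0x471a9258e0e51898263f1c8dd6eb5 (k8 c4389 c4353 c4386 c4348 c8954 c34 c878 c2940 (k4 c879 c2170 c369 c1330 (k2 c1332 c2113 k0))) (by decide +kernel)
def c12651 : PP 8 4 T 0x2000000002000000040000010000000000000000000000002002041410000000000000 := rS 0x1357ecc65d2e8ac41f94c72375bd0d9ed1 (k8 c4298 c1790 c4421 c4353 c4386 c4348 c9029 c8954 (k8 c11242 c11725 c4429 c1756 c4573 c9033 c2062 c11148 k0)) (by decide +kernel)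
def c12652 : PP 8 4 T 0x10801102000000000000101000000080000011000400000580000000000000000000000 := rS 0x53a1cd26b529ecda81 (k8 c4380 c4342 c704 c4444 c4442 c845 c10171 c6667 (k1 c4130 k0)) (by decide +kernel)
def c12653 : PP 8 4 T 0x2010000002000000000000000000000000100000000000482000000000040010000400 := rS 0x1d90a89849e0311921289a64823b1cfa3507b25f86f30b0573163aa547a66888b12e2514808023b0397410e5578c5571209c147e53029951e391badce2b5 (k8 c4389 c4387 c4353 c4386 c4348 c4388 c1646 c266 (k8 c9029 c8954 c4406 c34 c12224 c4445 c4441 c4346 (k8 c11030 c12637 c840 c30 c1062 c12640 c4461 c1599 (k8 c225 c11617 c11345 c4332 c247 c329 c855 c593 (k8 c4471 c6781 c4420 c12650 c9688 c4477 c7308 c4046 (k8 c1059 c4379 c250 c1602 c4559 c12162 c369 c12651 (k8 c4446 c236 c237 c4436 c2038 c602 c12652 c1887 k0))))))) (by decide +kernel)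
def c12654 : PP 8 4 T 0x800000002000000000000000000000040000000000000000400002000040000000410 := rS 0x2d14abc62ab (k4 c4445 c4441 c4346 c7860 (k2 c329 c11345 k0)) (by decide +kernel)
def c12655 : PP 8 4 T 0x2010000002000000000000010000044045100000000000020000001000000000000082 := rS 0x1318ebf67b2e9647a1a8188434a92c9e4122b955f12828fca68b2a345768f1c8dd6ebd5a9a45e27308ec6a1e (k8 c487 c1099 c1101 c617 c870 c4432 c756 c4389 (k8 c4354 c4353 c4386 c4348 c4388 c4390 c4298 c12636 (k8 c1766 c9029 c8954 c4406 c12224 c4346 c11030 c4296 (k8 c4433 c4297 c4434 c9517 c8579 c11242 c5931 c11164 (k8 c12297 c4429 c1756 c1794 c9033 c4246 c11148 c10947 k0))))) (by decide +kernel)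
def c12656 : PP 8 4 T 0x2010000002000000000000010000044045100000000000020000001000000000000002 := rS 0x7 (k2 c12655 c486 k0) (by decide +kernel)
def c12657 : PP 8 4 T 0x10000002000000000000000000000001100000000000404000000000040000000400 := rS 0x28cc493000a05a9f5c99d663d3aa5cde582dc51caaf18aae24130ac147e53328740a54 (k8 c12636 c266 c10867 c1646 c9029 c8954 c4406 c141 (k8 c34 c12224 c4445 c4441 c4346 c11030 c12649 c12653 (k8 c4476 c1107 c1196 c538 c12654 c11612 c656 c4548 (k8 c6233 c247 c11345 c1599 c3537 c8448 c2716 c12656 k0)))) (by decide +kernel)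
def c12658 : PP 8 4 T 0x2000000000000000000000000000000800000002000001400000000000400 := rS 0x18a431f94d16d1 (k4 c4298 c1766 c9029 c8954 (k2 c1887 c1096 (k1 c11242 k0))) (by decide +kernel)
def c12659 : PP 8 4 T 0x1020000002000000000000000000000000100000400000480000000000000000000208 := rS 0x820785da6201ba049823258c54e2f52894664f54c482227 (k8 c4324 c342 c12224 c4345 c4297 c4294 c4381 c4444 (k8 c4432 c4330 c4441 c4434 c2833 c2111 c1895 c2147 (k4 c838 c5204 c4431 c12352 (k2 c12361 c4570 k0)))) (by decide +kernel)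
def c12660 : PP 8 4 T 0x20000002000000000000000000000000100000000000482000000000040010000400 := rS 0x471a83a32718a1dcbaa35bad5723763c5892953344498391e8b022231025c5202008ec0e08258bc9e3372aa55e3152aac263f298144e6153895a712 (k8 c12224 c5204 c4381 c4330 c4326 c4324 c266 c9029 (k8 c8954 c34 c4445 c4444 c4441 c4346 c4345 c11030 (k8 c4294 c4297 c4432 c4434 c12637 c30 c1062 c12640 (k8 c4461 c1599 c11617 c838 c2833 c342 c11345 c12654 (k8 c360 c2111 c4332 c247 c855 c368 c4471 c2172 (k8 c2147 c6781 c4419 c9550 c12403 c922 c12658 c12659 (k4 c4387 c8237 c12402 c1330 (k2 c1332 c2113 k0)))))))) (by decide +kernel)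
def c12661 : PP 8 4 T 0x2000000000000000000000001100000000000404000000000040000000400 := rS 0x47ad56f14620dc72354aa8c76430f01976693124c002816ae4ceb31e9d52e6f2c16da69f12a86181d17b955e3155c482615828fca68b68814ca54 (k8 c12636 c1646 c266 c4298 c1766 c9029 c8954 c4406 (k8 c141 c34 c12224 c4445 c4441 c4346 c11030 c4432 (k8 c10867 c12657 c4329 c4381 c4384 c5204 c12660 c4476 (k8 c1107 c1196 c538 c12654 c11612 c656 c4548 c247 (k8 c11345 c1599 c3537 c8448 c756 c4847 c486 c487 (k8 c8579 c1101 c2716 c9517 c1099 c8383 c272 c11242 (k4 c4470 c7094 c1789 c4388 (k1 c2125 k0)))))))) (by decide +kernel)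
def c12662 : PP 8 4 T 0x800000002000000000000000000000000000000000000002000000000040000000800 := rS 0x148b4e43c578c55653 (k8 c9029 c4445 c4441 c4346 c306 c307 c2249 c3558 (k1 c11345 k0)) (by decide +kernel)
def c12663 : PP 8 4 T 0x2000000000000000000000001100000000000004000000000040000000000 := rS 0xda2a71060913e93000a05ab933acc7a754b961465b37c34bce5578c55615828fca6053282ca912 (k8 c12224 c12636 c12662 c1646 c266 c9029 c8954 c4406 (k8 c141 c4445 c4441 c4346 c11030 c12661 c4382 c1377 (k8 c577 c1466 c4476 c1196 c538 c12654 c11612 c656 (k8 c4548 c247 c11345 c1599 c3537 c3538 c489 c488 (k4 c2431 c12656 c12180 c1407 k0))))) (by decide +kernel)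
def c12664 : PP 8 4 T 0x800000000000008000000000000020000010 := rS 0x203 (k2 c2763 c2709 (k1 c4461 k0)) (by decide +kernel)
def c12665 : PP 8 4 T 0x800000002000000000000000000000004000000000000002000002000040000000000 := rS 0xb4523b72abc62ab1f94c0a0b (k8 c12662 c266 c9029 c8954 c4445 c4441 c4346 c11030 (k4 c89 c7860 c7859 c11345 k0)) (by decide +kernel)
def c12666 : PP 8 4 T 0x10000002000000000000000000000041100000000000400000000000040000000000 := rS 0x530957e4869b2e96c737b10bacf8b11e86a05c8ed46350401cc40001a7c50ad338b5ca6d4eaa55e314ca9556130ac147e5330a6c5e271c9d52a3d4999576375bad6288f0e07c420b891580a54 (k8 c12636 c266 c12663 c12224 c12662 c799 c1066 c4466 (k8 c12664 c4486 c4389 c4353 c4386 c4390 c1646 c1070 (k8 c12665 c763 c1686 c1139 c872 c4432 c764 c880 (k8 c9029 c8954 c4406 c141 c34 c4445 c4444 c4443 (k8 c4441 c4346 c4345 c4344 c4342 c11030 c912 c920 (k8 c4554 c11345 c6233 c795 c1599 c8448 c1018 c751 (k8 c10736 c2716 c1601 c7514 c2125 c11164 c12297 c4471 (k8 c1794 c2713 c7641 c9688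 c7526 c4429 c1756 c12162 (k4 c4559 c9033 c282 c10851 (k1 c4558 k0)))))))))) (by decide +kernel)
def c12667 : PP 8 4 T 0x1000000000000000000080000000000000002000001000040000000000 := rS 0x61d0b22e3f (k4 c8954 c4360 c11783 c4471 (k2 c1601 c8995 k0)) (by decide +kernel)
def c12668 : PP 8 4 T 0x20000002000000000000000000040054500000000000000000004110024020000200 := rS 0x464d1b45492d312a9d424b1793c66e5548c54b12 (k8 c12224 c4444 c4441 c4345 c11030 c4294 c4297 c4432 (k8 c4434 c4329 c4330 c4381 c5204 c1720 c12049 c4470 (k2 c2147 c1409 (k1 c2111 k0)))) (by decide +kernel)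
def c12669 : PP 8 4 T 0x2000000000000000000000001100000000000000000000000040000000000 := rS 0x3188e0f249bd6e373e97a289f86ad62c3b518d4100731000062816a5d2a751ea3c72270e07d26212b02cca05729b55e3155c482615828fca654 (k8 c12636 c9029 c8954 c4406 c141 c34 c12224 c4445 (k8 c4441 c4346 c4342 c11030 c266 c1646 c12662 c12663 (k8 c799 c1070 c1066 c4466 c872 c1139 c12664 c12665 (k8 c1686 c763 c12667 c912 c11345 c795 c1599 c8448 (k8 c1018 c751 c10736 c2716 c1601 c4471 c4419 c12668 (k8 c3538 c12583 c12666 c1379 c4386 c4353 c1377 c9868 (k4 c1376 c1602 c4559 c250 k0))))))) (by decide +kernel)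
def c12670 : PP 8 4 T 0x40002000002000080000000000 := rS 0x482c44ca03 (k4 c9050 c1647 c4411 c4406 (k2 c4191 c5433 (k1 c54 k0))) (by decide +kernel)
def c12671 : PP 8 4 T 0x6000002000080000000400 := rS 0x1f0ea540a661080c2a3f (k8 c8954 c141 c9050 c12555 c12670 c654 c5290 c10867 (k2 c275 c4466 k0)) (by decide +kernel)
def c12672 : PP 8 4 T 0x1010000002000000000000000000000001100000000080404000000040000010000402 := rS 0x41a04ba617e03d8e3812c452a271a90c3c2118afd1ca98900da6082d45876e51f8f45454 (k8 c12636 c12669 c12671 c8954 c11030 c1641 c4471 c5282 (k8 c12637 c12638 c28 c12224 c4345 c4486 c1515 c4441 (k8 c314 c4466 c276 c1099 c353 c1694 c4411 c1423 (k8 c4470 c290 c4528 c12565 c12564 c753 c4380 c4306 (k1 c12642 k0))))) (by decide +kernel)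
def c12673 : PP 8 4 T 0x1010000002000000000000000000000001100000000000404000000000000000000412 := rS 0xfd58838723604168cc6509c143c218b0ec3ae51f8f45454 (k8 c12636 c12669 c12671 c8954 c11030 c10867 c1641 c4471 (k8 c314 c4466 c4406 c34 c490 c4191 c5282 c12637 (k4 c12672 c117 c232 c1145 (k2 c4376 c11089 k0)))) (by decide +kernel)
def c12674 : PP 8 4 T 0x1010000002000000000000000000000001100000000000404000000000000000000410 := rS 0x44d33c9bc1061129600401471ae24771d89c3c1d108f4a82a (k8 c12669 c12636 c12671 c314 c10867 c4466 c353 c1641 (k8 c12658 c12224 c4442 c4486 c12673 c4461 c223 c225 (k4 c2848 c222 c1107 c540 (k2 c12644 c4467 (k1 c4547 k0))))) (by decide +kernel)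
def c12675 : PP 8 4 T 0x40000000000002000000002000000080400000000000000000000000000000000045410000000000000 := rS 0x19f435f3188e4d27ae56b16728e46eb7 (k8 c4353 c4386 c4348 c11030 c4471 c4419 c4361 c4297 (k4 c4282 c4374 c12162 c11148 (k2 c4391 c1519 (k1 c9033 k0)))) (by decide +kernel)
def c12676 : PP 8 4 T 0x2000000040000004000000000000000000000000401045551012000000000 := rS 0x19ac65f11c9ad15cad62ce5a5b2d8945 (k8 c11725 c11242 c1756 c4429 c11030 c4471 c4419 c4361 (k4 c4298 c284 c1372 c10063 (k2 c2113 c7983 (k1 c7284 k0)))) (by decide +kernel)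
def c12677 : PP 8 4 T 0x10000002000000000000000000000001100000000000404000000000000000000410 := rS 0x3f4ba653e278c2461131c222524b4d96b71b8e6294b622d572431a89e2c1e1d875ca31890fca629108f4a82a (k8 c12669 c12636 c12671 c314 c59 c9029 c8954 c12224 (k8 c4441 c11030 c10867 c1641 c4466 c4471 c353 c1099 (k8 c276 c4361 c4419 c11242 c4429 c12674 c4348 c4386 (k8 c4353 c1756 c12675 c12651 c12676 c346 c290 c4467 (k8 c2113 c767 c1642 c1602 c3584 c1340 c4379 c4477 k0))))) (by decide +kernel)
def c12678 : PP 8 4 T 0x1010000002000000000000000000000001100000050000020000001100000020001120 := rS 0x1fa84b77e1241e111ab4d1c21598558eb523c587662153947e54 (k8 c12636 c8954 c11030 c12669 c267 c3547 c4471 c1603 (k8 c7513 c2194 c141 c11612 c314 c4486 c12248 c1306 (k8 c7008 c12288 c4209 c4463 c9550 c4473 c7787 c4392 k0))) (by decide +kernel)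
def c12679 : PP 8 4 T 0x2800000002000000000000000000000414000001454000002000001510000000011020 := rS 0x87a5b11127a8cc2484fc2403da29d57a6556b30a98983165dac57ad31bad572e5238fd8eb7 (k8 c4353 c2194 c8954 c1603 c11030 c11342 c7513 c4386 (k8 c12162 c4354 c4350 c4390 c4471 c4420 c267 c141 (k8 c11612 c4445 c4443 c4346 c4344 c4298 c10297 c2113 (k8 c4463 c12651 c8859 c4446 c4482 c682 c7141 c4429 (k2 c1634 c4151 k0))))) (by decide +kernel)
def c12680 : PP 8 4 T 0x10000002000000000000000000000001100000000000404000000000000000000400 := rS 0x51175420f128d1a6115b8dd1eb18a1bd6a934d9ccf2772c2e47697388e48e9f0e018ca5b639881a670480c0895108f45e1720b962415828fca82a (k8 c12669 c12636 c8954 c4406 c141 c12224 c11030 c4433 (k8 c4431 c4432 c12671 c314 c1694 c12677 c55 c263 (k8 c654 c528 c267 c2194 c574 c1647 c4462 c6846 (k8 c6233 c1603 c1138 c496 c816 c3547 c11342 c4476 (k8 c1023 c500 c1021 c764 c1029 c7513 c1107 c12678 (k8 c4350 c4388 c4386 c4353 c608 c12162 c12679 c1369 (k4 c1329 c1735 c12183 c5931 (k1 c818 k0))))))))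 (by decide +kernel)
def c12681 : PP 8 4 T 0x6000000000080000000800 := rS 0x70b45933000ea051e00c1229 (k8 c59 c84 c303 c306 c12210 c1687 c4461 c12670 (k4 c534 c9052 c567 c7395 k0)) (by decide +kernel)
def c12682 : PP 8 4 T 0x1010000002000000000000000000000001101000000000820000000000004001000050 := rS 0x6935a40f12a38961b0b93d02a5419ae2411 (k8 c542 c12224 c4442 c548 c4444 c1381 c4297 c4431 (k8 c4292 c4434 c4486 c7033 c3401 c10439 c4282 c4371 (k1 c2108 k0))) (by decide +kernel)
def c12683 : PP 8 4 T 0x10000002000000000000000000000001100000000000004000000000000000000010 := rS 0xb71cc510a1984124f7191b8218eb50390c6a27008088e1e1d990461d228c4265310b0c82b937c14ea79359dd331233960b65e598f4162a1f854a8e5 (k8 c11030 c12636 c141 c8954 c12669 c12681 c12671 c11612 (k8 c12680 c577 c4476 c656 c12224 c4443 c1111 c4442 (k8 c540 c1686 c4406 c1377 c4548 c4433 c9009 c314 (k8 c9029 c34 c4441 c4296 c10867 c1296 c4191 c1641 (k8 c4466 c1643 c1647 c490 c353 c1099 c276 c1098 (k8 c7513 c2137 c222 c2130 c9828 c1224 c9869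 c4482 (k4 c4540 c4321 c12682 c4348 (k2 c4353 c2113 k0)))))))) (by decide +kernel)
def c12684 : PP 8 4 T 0x2000000002000000000000000000040445500001454040000000001110000000010020 := rS 0x140254f830fb124aae56615829d402c73280c76b52398854e51f9506eb7 (k8 c4353 c4386 c12636 c8954 c11030 c12669 c267 c3548 (k8 c7513 c3547 c55 c1647 c2194 c54 c1686 c4406 (k8 c141 c11612 c4548 c1694 c12224 c8221 c12679 c6237 (k2 c1368 c2125 (k1 c1735 k0))))) (by decide +kernel)
def c12685 : PP 8 4 T 0x10000002000000000000000000000001100000000000004000000000000000000000 := rS 0x9f5089468d35b8de288f5a9c4e6931ca6c22a3238ec0c1c6389cc4090180408674b9dcf2585c96cde5d2f0bcd699894152a75598f4162a1f854a8e5 (k8 c11030 c12636 c141 c8954 c12669 c12681 c12671 c11612 (k8 c1686 c1694 c4406 c12224 c4443 c4442 c4432 c12680 (k8 c65 c1377 c577 c4548 c4476 c540 c1111 c1195 (k8 c656 c12683 c54 c55 c263 c267 c2310 c2194 (k8 c4726 c4462 c3547 c3548 c818 c543 c764 c1139 (k8 c1029 c3008 c2483 c7513 c1425 c4486 c4386 c4353 (k4 c12162 c12684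 c1369 c1735 (k2 c11480 c5931 k0)))))))) (by decide +kernel)
def c12686 : PP 8 4 T 0x11820000002000000000020000000000000000000400000080000000600000100000210 := rS 0x3cd16128141974220007aed62690192c2e6d548c4d6a5139854e5f69afcf645 (k8 c4296 c1224 c1240 c5204 c4382 c4330 c4326 c4324 (k8 c4444 c4442 c4441 c4345 c4342 c4431 c4434 c838 (k8 c845 c624 c6984 c4528 c4461 c9117 c753 c4570 (k4 c12056 c9576 c9368 c11641 (k1 c4482 k0))))) (by decide +kernel)
def c12687 : PP 8 4 T 0x11020000002000000000020000000000000100000400000004000000400000100000410 := rS 0x2e03cd285264202223009e4de582d864f608038e09617278cc8a6d549ad4a2730a9cbed31a90c63121b8783a25 (k8 c4381 c10867 c4466 c272 c12224 c4441 c276 c1099 (k8 c5204 c4382 c4330 c4326 c4324 c4444 c4442 c4345 (k8 c4342 c4296 c4294 c4297 c4431 c4434 c4470 c8383 (k8 c4462 c1224 c4540 c12686 c4476 c1107 c540 c486 (k8 c4547 c10960 c4482 c4871 c4321 c4437 c244 c8696 (k1 c12418 k0)))))) (by decide +kernel)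
def c12688 : PP 8 4 T 0x2000000000000000000000001100000000000004000000000000000000010 := rS 0x495b8e62919620dc86353b878761d1894c42c320b4e24b9638956a474fc31ca3d058a87e54 (k8 c12636 c8954 c12669 c12681 c12671 c11030 c12685 c4384 (k8 c1642 c7513 c4381 c290 c11342 c12224 c5204 c4433 (k8 c9009 c314 c9029 c4441 c10867 c1641 c4466 c12658 (k8 c1099 c276 c272 c11242 c9828 c12687 c4348 c4353 (k2 c12651 c2113 k0))))) (by decide +kernel)
def c12689 : PP 8 4 T 0x1000000000000000040000011000000051100000000008000000000540000020000000 := rS 0x1607e512dd1e93 (k4 c1029 c761 c7094 c7468 (k2 c819 c7471 (k1 c675 k0))) (by decide +kernel)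
def c12690 : PP 8 4 T 0x2000000000000000000000001100000000000004000000000000000000000 := rS 0x7e3eade84b1248446d1549a6ce66f2c0ed2e711c8700c0f2d9881a09022d5724763b4d3e5f12c3166754a8847a0b17b9624151f952222a (k8 c12669 c4411 c12636 c8954 c141 c12224 c11030 c4432 (k8 c12681 c12671 c314 c1694 c1686 c11612 c12685 c4381 (k8 c4382 c4384 c5204 c290 c1642 c11342 c7513 c12688 (k8 c263 c528 c267 c574 c264 c4462 c6846 c1138 (k8 c496 c816 c3547 c4476 c1020 c1021 c764 c1029 (k8 c12606 c12689 c318 c322 c10281 c4473 c9550 c8975 (k2 c4088 c4392 k0))))))) (by decide +kernel)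
def c12691 : PP 8 4 T 0xa000002000080000000400 := rS 0xcc73 (k2 c1615 c12670 (k1 c921 k0)) (by decide +kernel)
def c12692 : PP 8 4 T 0x1000000002000000000000000000000001100000000000400000000400000000000410 := rS 0xf370240c715b9fce601010d0fa3732120ce9749c5827058896cf69d892c4eab34a98d362f13b4d4eb5238e5723d63896188f0e07c4256150fca8e5 (k8 c11030 c12636 c8954 c12669 c12690 c799 c1066 c4466 (k8 c12664 c4486 c4381 c290 c12691 c11342 c1139 c7823 (k8 c7513 c4330 c12248 c872 c4432 c764 c1607 c802 (k8 c1188 c1686 c1147 c12224 c4344 c1226 c92 c4411 (k8 c4406 c34 c4471 c1029 c4360 c5282 c12585 c4191 (k8 c322 c3588 c4209 c1647 c490 c1648 c554 c7094 (k4 c1304 c791 c1058 c4088 (k2 c12515 c1020 k0)))))))) (by decide +kernel)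
def c12693 : PP 8 4 T 0xa000000800080000000000 := rS 0xc92 (k2 c1640 c1601 (k1 c2996 k0)) (by decide +kernel)
def c12694 : PP 8 4 T 0x2000000000000000000000001100000000000400000000000000000000410 := rS 0x13ed37ec344a7f8a2a54a6158a55729731a848e27479cd27088cb11362f45b458299619040213438a5661555abd126b889dcf69d891e40c0232414cf161db947e3d1516ca81c0f884ac17 (k8 c4431 c12690 c799 c1066 c4466 c12636 c92 c12669 (k8 c12691 c8954 c11030 c12693 c4471 c5282 c4406 c4191 (k8 c1647 c791 c500 c12224 c4344 c1226 c12658 c4411 (k8 c4442 c556 c4346 c4445 c141 c11612 c59 c1652 (k8 c34 c490 c4433 c9009 c4443 c4420 c4298 c1766 (k8 c4432 c764 c7274 c4370 c4482 c1029 c1648 c12664 (k8 c872 c3584 c3663 c1607 c4360 c4361 c1694 c1147 (k8 c880 c4444 c4345 c12692 c554 c225 c12606 c7613 (k2 c12526 c11480 (k1 c12535 k0)))))))))) (by decide +kernel)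
def c12695 : PP 8 4 T 0x2000000000000000000000001100000000000000000000000000000000410 := rS 0x2569a896e37649f6286f2f1cd8e931c89c8ea101070c81f31c162259109d566155cad4cf161db947e3d15150b656 (k8 c12690 c92 c12636 c12669 c12691 c8954 c11030 c12693 (k8 c4471 c5282 c4419 c4361 c141 c11612 c1686 c799 (k8 c63 c4411 c4406 c1607 c1066 c4191 c4466 c1647 (k8 c3663 c3584 c872 c1139 c1029 c2137 c1648 c12694 (k8 c1377 c12467 c1380 c547 c4386 c4353 c11734 c12162 (k2 c1463 c10439 k0)))))) (by decide +kernel)
def c12696 : PP 8 4 T 0x1000000002000000000000000000000001100000000000400000000000000000000400 := rS 0x85241e286cb84ad97e8137a0cba8f1c03da62550c30961b0b914f69d309d566153b86463126391c6e35088792ab15ca5c4e93312d632c320d2d88430401cb2534f99e2c3b728fc7a2a2d95a0a65019501a04 (k8 c12695 c528 c12636 c55 c1647 c4406 c12690 c92 (k8 c12669 c12691 c8954 c11030 c12693 c4471 c5282 c6233 (k8 c9029 c63 c526 c4462 c2189 c11242 c4429 c4433 (k8 c9009 c9828 c4419 c267 c1609 c2310 c4360 c4361 (k8 c1147 c1694 c262 c9054 c1099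 c2187 c3548 c2194 (k8 c12224 c4441 c268 c12658 c141 c11612 c1686 c880 (k8 c4344 c1226 c4296 c4431 c4292 c4434 c12583 c4551 (k8 c12180 c5204 c264 c4470 c9056 c12183 c4570 c8928 (k8 c12056 c1240 c10460 c12516 c1757 c4424 c4482 c4473 (k2 c603 c9047 k0)))))))))) (by decide +kernel)
def c12697 : PP 8 4 T 0x2000000002000000000040000000000000000000000000002000441450000000000000 := rS 0x4869adc72b95ac59ca3f (k8 c8954 c11030 c4471 c4419 c4361 c4348 c4353 c12162 (k2 c2113 c12651 k0)) (by decide +kernel)
def c12698 : PP 8 4 T 0x2000000000000000000000001100000000000000000000000000000000400 := rS 0xbf151a90c6e1e0411c0ec7310107a591d9585454 (k8 c12636 c12669 c12690 c12693 c63 c12691 c12695 c267 (k8 c2194 c526 c3548 c4462 c262 c2187 c2189 c1099 (k2 c12697 c12467 (k1 c12696 k0)))) (by decide +kernel)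
def c12699 : PP 8 4 T 0x2000000000000000000000001100000000000000000000000000000000000 := rS 0x814060a2d9585454 (k8 c12636 c12669 c12690 c92 c12698 c2244 c12210 c566 (k1 c4461 k0)) (by decide +kernel)
def c12700 : PP 8 4 T 0x2100000000000004000000000000000000410 := rS 0x602d34cb2380389c3c000ea3c4203 (k8 c11757 c12555 c130 c10867 c4461 c4466 c353 c3165 (k4 c1153 c10545 c4280 c4476 (k2 c888 c7422 k0))) (by decide +kernel)
def c12701 : PP 8 4 T 0x800000002000000000000000000000010000000000000000000042000040000000020 := rS 0x2d (k2 c2282 c12488 k0) (by decide +kernel)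
def c12702 : PP 8 4 T 0x20000000800002000000000101020000000000000000005000401200050a0 := rS 0x3244024a163b256cce65b114697569fc5a1527abd32ab86c557e9d4d8bc4690a2aece25549b0c82c15a8f4864d893948e3f (k8 c11031 c4374 c11030 c12224 c4282 c2014 c12701 c7513 (k8 c2021 c4433 c9009 c1030 c266 c2483 c1441 c4397 (k8 c12699 c769 c4432 c764 c4344 c1244 c4352 c4328 (k8 c4445 c4443 c4346 c4297 c649 c913 c7517 c4554 (k8 c11783 c11410 c2127 c1757 c8360 c1175 c717 c1519 (k4 c1794 c11768 c5964 c530 (k1 c4412 k0))))))) (by decide +kernel)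
def c12703 : PP 8 4 T 0x20000000000000000000000101000000000000200000000000401200040a0 := rS 0x648804a86a163b24fe155b3390ecb59d2d889f568b546971d3056ac31ea4ce65520b955e9955c362abf4e8fd362f1c91e8b0944aece2435e21096170c8c5066b0d8349e8152c489ad2089796090 (k8 c12699 c1155 c1156 c2507 c10281 c4282 c12224 c4444 (k8 c1381 c4297 c2486 c4292 c4442 c548 c4441 c268 (k8 c4431 c4434 c2108 c715 c2014 c2483 c1441 c2668 (k8 c4321 c4397 c4374 c3153 c4432 c764 c11031 c4344 (k8 c1244 c4352 c4328 c4445 c4443 c4346 c11030 c4433 (k8 c266 c1022 c1030 c12701 c9009 c7513 c2021 c12702 (k8 c3029 c938 c912 c4554 c11776 c2127 c4429 c1251 (k8 c1757 c1634 c8360 c1175 c7785 c674 c717 c1519 (k4 c1794 c4424 c11768 c4489 (k2 c530 c4412 k0)))))))))) (by decide +kernel)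
def c12704 : PP 8 4 T 0x1000000000000000000012000000000001005000400110080020155404 := rS 0x1449786c544229 (k4 c59 c12555 c4352 c4328 (k2 c12610 c12223 (k1 c938 k0))) (by decide +kernel)
def c12705 : PP 8 4 T 0x2000000000000000000000000100000000000004000000000000000000400 := rS 0xb76228c763d32951421529c4492733384c54435e2108e4d690342283408d5605e1ca54ea611f96038060796c32090081042032e92c361727b94626b52c4a1a90 (k8 c12699 c4328 c12224 c4444 c4442 c4441 c11030 c4297 (k8 c4431 c4292 c4434 c808 c11757 c12555 c12700 c54 (k8 c263 c268 c574 c265 c4462 c6846 c4476 c11031 (k8 c2598 c2484 c11432 c3153 c1156 c1155 c3019 c1381 (k8 c548 c2507 c2486 c10281 c4282 c4374 c2108 c715 (k8 c2014 c12703 c1639 c2635 c3008 c4281 c4411 c292 (k8 c287 c1734 c12704 c1647 c9052 c1600 c1466 c11242 (k2 c5964 c1175 k0)))))))) (by decide +kernel)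
def c12706 : PP 8 4 T 0x800000002000000080000000000000000000000000000409000002000040000000410 := rS 0x14d080c9e4c202210180252438245a290a8fc764b1785c9e3328b9552af18a95567b4ea4c381f1089c9a23 (k8 c4372 c4282 c4278 c799 c1066 c4466 c1030 c4344 (k8 c1226 c4445 c4444 c4441 c4346 c4345 c11030 c4435 (k8 c4294 c4297 c4431 c4432 c4434 c89 c145 c326 (k8 c7860 c7859 c234 c9141 c11345 c751 c4462 c332 (k4 c4461 c5402 c500 c7639 (k2 c10207 c4639 (k1 c12347 k0))))))) (by decide +kernel)
def c12707 : PP 8 4 T 0x100000000000000000000015400810002080050154001008000000000000000000000 := rS 0x20cb8c95828e1b15 (k8 c4352 c4328 c939 c4088 c7497 c1148 c644 c813 k0) (by decide +kernel)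
def c12708 : PP 8 4 T 0x2000000080000000000000000100000000000401000000000040000000510 := rS 0x2c5fa846432944b666d2d422c454452cc162c60fa7f43a2613450aa996ac359ae44a75389ccde793b8fcc202030049617279046651729b552af18a654aab8aa40b27b4ea6c5e2726834463523a547b120e07c4256 (k8 c12705 c799 c1066 c4466 c12224 c12706 c763 c4374 (k8 c4373 c4372 c4371 c4282 c4278 c4432 c764 c4344 (k8 c1226 c63 c12699 c4352 c4445 c4444 c4443 c4441 (k8 c4346 c4345 c4342 c11030 c4435 c4294 c4433 c4297 (k8 c4431 c4434 c751 c4462 c4461 c5402 c11031 c1023 (k8 c500 c2998 c1022 c496 c499 c11879 c7514 c7628 (k8 c9009 c7513 c2111 c648 c4453 c12347 c7030 c9141 (k8 c7517 c7516 c4482 c4370 c4450 c12517 c7287 c2123 (k8 c11783 c899 c4427 c2067 c12707 c1166 c7551 c11904 (k4 c1753 c4305 c714 c5772 k0)))))))))) (by decide +kernel)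
def c12709 : PP 8 4 T 0x11000000000000000000000500000800400000000000000000000000000000000000000 := rS 0x17745 (k2 c4453 c1978 (k1 c4493 k0)) (by decide +kernel)
def c12710 : PP 8 4 T 0x800100000000000000500000000044000014050000156000000000000000000000000 := rS 0x6650942857e9b5526b (k8 c4442 c4345 c4342 c4302 c712 c5930 c4483 c8731 (k1 c4395 k0)) (by decide +kernel)
def c12711 : PP 8 4 T 0x40000000000000000000002000000000020004100044400114050800154510010000000000001011004 := rS 0x100857e03cde6141b257a4b0d85c9ea957a654b0d47b2d7e904ec4a0a72 (k8 c1095 c4408 c12224 c4344 c12699 c1244 c1757 c130 (k8 c4328 c4444 c4443 c4346 c4345 c4297 c4431 c4292 (k8 c4434 c1175 c1730 c2002 c12710 c1076 c12121 c6348 (k2 c12374 c2108 (k1 c4380 k0))))) (by decide +kernel)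
def c12712 : PP 8 4 T 0x2000000000020400000000000000001008000000010040110000000000400 := rS 0x2ed7a372593c8245 (k8 c4296 c4433 c4297 c4434 c1344 c3081 c1350 c2114 k0) (by decide +kernel)
def c12713 : PP 8 4 T 0x2000000080000000100000000114050000154500000045000140021000404 := rS 0x4283df8c9309be86b6659c8ecc48c9e52ec33a9057e902ca6d26111c9341a354aa8c469f23b04f6564ec26968a35ab5ca2f55abcdb12 (k8 c12224 c4342 c4346 c4445 c4432 c11030 c4554 c4442 (k8 c2120 c4427 c4322 c4344 c12705 c1226 c8008 c4374 (k8 c11776 c4372 c11410 c763 c4373 c4371 c4282 c4280 (k8 c4276 c1030 c764 c63 c12699 c1244 c4433 c11627 (k8 c9009 c11783 c604 c12517 c7130 c4482 c1095 c1757 (k8 c12711 c4424 c12712 c881 c1731 c4956 c12121 c12374 (k1 c11065 k0))))))) (by decide +kernel)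
def c12714 : PP 8 4 T 0x4000000002000000000000004100000000180001000002000010040110000000000400 := rS 0x642e504bc65aec6e853712c9e41229b62abf482762456 (k8 c12705 c12224 c4344 c12699 c1244 c4352 c4342 c4296 (k8 c4433 c4297 c4434 c881 c712 c1344 c1350 c1753 (k4 c2114 c1080 c1208 c644 (k1 c11399 k0)))) (by decide +kernel)
def c12715 : PP 8 4 T 0x2000000080000000000000000100000000000401000000000040000000410 := rS 0x32d08c97e03cde613cadd8b171f52d147d3fa250e154fa8d5a433199cba65348b40619588000e081e91c6a2306934721722b94daa9578c4d69952aae1a8f5fa413b122c96d361c0f884ac2f (k8 c4432 c12705 c799 c1066 c4466 c764 c92 c63 (k8 c12224 c4344 c12699 c1244 c130 c4328 c4445 c4444 (k8 c4443 c4442 c4441 c4346 c4345 c4342 c11030 c4296 (k8 c4431 c4280 c4282 c4371 c4372 c4373 c4374 c12706 (k8 c12708 c30 c1058 c3160 c7626 c791 c2917 c756 (k8 c491 c2712 c7399 c755 c5782 c4554 c11410 c11776 (k8 c646 c9156 c7030 c7517 c7516 c2120 c4427 c12713 (k8 c4356 c1248 c3172 c605 c12714 c1076 c12121 c6348 (k4 c7308 c11065 c1752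 c12374 k0))))))))) (by decide +kernel)
def c12716 : PP 8 4 T 0x2000000040000000000000000100000000000001000000000040000000510 := rS 0x1423a1625a31454220d02bd5d9c422b11a0dcba2607894e66f4a8e4f2771f8080c012585c82e58aafd20592d9ed3b120e07c4256 (k8 c12705 c799 c1066 c4466 c12224 c4344 c1226 c92 (k8 c63 c12699 c1244 c4352 c11030 c4433 c4431 c4434 (k8 c751 c4462 c4461 c11031 c1023 c500 c3151 c11432 (k8 c2998 c1022 c11879 c12083 c12087 c2787 c320 c873 (k8 c1148 c343 c497 c9034 c1039 c10263 c4570 c2122 (k4 c4397 c4493 c12517 c11783 (k2 c913 c2901 (k1 c12090 k0)))))))) (by decide +kernel)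
def c12717 : PP 8 4 T 0x1000000000000001000002000000040001040000004004110015000155500000005200144000010200 := rS 0x4d463a4bb1dcb128ab261a90 (k8 c12699 c4328 c7308 c4352 c12224 c11030 c410 c11783 (k4 c12237 c4241 c11097 c1062 k0)) (by decide +kernel)
def c12718 : PP 8 4 T 0x2000000000000000000000000100000000000401000000000040000000410 := rS 0x28d2cb71f2ecf284a2a7d4f0911095828a448e0fa83408450e151bbf15a613199cba27329a45ab11a8007a070434c2ee536aa55e6b4ca95570d47c557e902c96cf69d8926c5e930e07c4256 (k8 c12705 c799 c1066 c4466 c1030 c4432 c764 c12224 (k8 c4344 c1226 c92 c63 c12699 c1244 c4352 c130 (k8 c4328 c4445 c4444 c4443 c4442 c4346 c4345 c4342 (k8 c11030 c4431 c12715 c12716 c30 c234 c1058 c3052 (k8 c3160 c2917 c756 c491 c2874 c2712 c7399 c755 (k8 c7428 c4554 c6348 c11924 c646 c9156 c606 c4380 (k8 c4306 c4379 c4470 c7030 c2120 c8008 c280 c1140 (k8 c4322 c4558 c1300 c9368 c4130 c603 c1442 c12717 (k4 c3172 c1179 c939 c4613 k0))))))))) (by decide +kernel)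
def c12719 : PP 8 4 T 0x2000000080000000000000000100000000000001000000000040000000410 := rS 0x146b63fad572b31d1d458298bc452d18849c5f8733c9dc0c951f80802470685c82e58aa40f69d890703e2158978b256 (k8 c12705 c63 c12718 c544 c799 c1066 c4466 c12224 (k8 c4344 c1226 c12699 c4352 c11030 c4433 c4431 c4371 (k8 c4374 c488 c4461 c12102 c2764 c791 c1023 c500 (k8 c1022 c5772 c496 c5101 c4482 c12517 c4336 c4360 (k8 c777 c11783 c7271 c913 c3026 c3032 c1578 c10049 (k2 c8860 c1465 (k1 c1166 k0))))))) (by decide +kernel)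
def c12720 : PP 8 4 T 0x2000000000000000000000000100000000000001000000000040000000410 := rS 0xdc6a0003821a63958984ba5e86c5520590e07c4256 (k8 c12705 c799 c1066 c4466 c63 c12699 c4352 c4328 (k8 c12718 c65 c122 c544 c4647 c12719 c12716 c30 (k4 c1058 c3052 c11924 c4470 k0))) (by decide +kernel)
def c12721 : PP 8 4 T 0x10000000000000000000000000000000000000000000108000000080000000000442 := rS 0x180de08 (k4 c751 c1344 c11924 c881 k0) (by decide +kernel)
def c12722 : PP 8 4 T 0x200000008010001010000040010100000000800a000001040000000000006 := rS 0xfc07984de7d5b31cbe192383472a94ca961a8f8aafd3a590a9a45e082ea406a6d894156b161d81dca3f (k8 c8954 c11030 c1018 c1601 c4471 c4419 c4406 c12224 (k8 c4342 c10736 c12699 c2712 c751 c4432 c756 c141 (k8 c63 c4344 c1244 c4352 c130 c4328 c4444 c4443 (k8 c4345 c4280 c4371 c4374 c7626 c488 c7526 c8302 (k4 c1627 c1078 c883 c12121 (k2 c6348 c11065 k0)))))) (by decide +kernel)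
def c12723 : PP 8 4 T 0x2000000000000000000000000100000000000000000000000040000000410 := rS 0x5397c4a0f089bc7061698dd0b16588ec6a5d13820d207313240003144645ab94ba55863d4594c7f0509951264168b94daa9578c4d6a555c362abf48164b67b4ec49361c0f884ac2f (k8 c4432 c12705 c799 c1066 c4466 c764 c12224 c4344 (k8 c1226 c92 c63 c12699 c1244 c4352 c4328 c4445 (k8 c4444 c4442 c4441 c4346 c4345 c4342 c11030 c4298 (k8 c4433 c1030 c12720 c34 c4406 c8954 c9029 c1766 (k8 c12665 c9009 c763 c12667 c1205 c912 c12517 c11345 (k8 c795 c1599 c3652 c1598 c1018 c756 c751 c2874 (k8 c2712 c10736 c1601 c3160 c4471 c10652 c12721 c12722 (k8 c7428 c4470 c1076 c606 c12121 c280 c4647 c4558 (k1 c8696 k0))))))))) (by decide +kernel)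
def c12724 : PP 8 4 T 0x1000080000000000000002000000000000009000000000080000000410 := rS 0x5bb1d46975ac586e3d1d97410930001ce6038688622151f87c723523ae54249 (k8 c4281 c1734 c1206 c4374 c4373 c4280 c1066 c288 (k8 c286 c4411 c799 c4328 c226 c12124 c1018 c4461 (k8 c1069 c4462 c2712 c1640 c234 c12721 c4471 c7513 (k4 c4360 c938 c291 c5964 (k1 c2113 k0))))) (by decide +kernel)
def c12725 : PP 8 4 T 0x2000000080000000000000000100000000000000000000000000000000410 := rS 0x2f632a662094f26f04818e66143a2402025b991466760a5d86753ba4e2cc91e8ed17050995142491c85c9e4119b45caa9189ad4aab86c557e902c96cf69d8926c382117c447e1f5998c5456 (k8 c12705 c12723 c1607 c1188 c1066 c288 c4411 c4432 (k8 c799 c4466 c764 c12224 c4344 c1226 c92 c63 (k8 c12699 c1244 c4352 c4328 c4445 c4444 c4442 c4441 (k8 c4345 c11030 c4298 c4294 c4433 c4297 c4431 c4280 (k8 c4281 c1734 c12724 c34 c4406 c1766 c12693 c12691 (k8 c1726 c4471 c1029 c12658 c1686 c9009 c4360 c4420 (k8 c5282 c938 c4191 c5964 c1647 c490 c556 c1652 (k8 c618 c1648 c791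 c1058 c1076 c500 c11879 c2123 (k4 c6996 c4370 c1175 c12709 k0))))))))) (by decide +kernel)
def c12726 : PP 8 4 T 0x2000000000000000000000000100000000000001000000000000000000410 := rS 0x3bc6588433cc2508a72f89470c307844de37588d47a3b309744e690424c00073980c5e41729b5526b52c362abf48164b67b4e870425318c482a3f1507cacd3 (k8 c12725 c12705 c1066 c12723 c288 c286 c12224 c4441 (k8 c292 c799 c4466 c4344 c1226 c92 c63 c12699 (k8 c1244 c4352 c4328 c4444 c4442 c4345 c4342 c11030 (k8 c4433 c4432 c226 c12124 c1018 c4461 c1069 c4462 (k8 c756 c2874 c2712 c7428 c1640 c234 c3052 c3160 (k8 c12721 c1076 c606 c12121 c9009 c4470 c280 c4647 (k8 c4558 c8696 c4321 c603 c237 c11242 c9828 c1095 (k1 c4482 k0)))))))) (by decide +kernel)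
def c12727 : PP 8 4 T 0x2000000000000000000000000100000000000000000000000000000000410 := rS 0xe27d588d06e5d1303c4a6f64824c22303044e67f5080404645199d2eb93aa4e2c3d1dc14265469acc7e63888a8381f72c362a902c96c4256 (k8 c12705 c799 c92 c63 c12699 c4352 c4328 c11030 (k8 c1066 c4466 c12723 c4411 c1607 c288 c1188 c12725 (k8 c12726 c34 c4406 c12693 c12691 c4471 c1029 c1686 (k8 c4361 c4360 c5282 c938 c4191 c1647 c490 c3663 (k8 c555 c1648 c2303 c791 c2766 c2883 c1058 c7497 (k8 c2998 c11879 c12083 c12087 c12418 c2271 c873 c1148 (k2 c1651 c497 (k1 c9361 k0)))))))) (by decide +kernel)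
def c12728 : PP 8 4 T 0x801000002000000000000000010000454000005000000001000004400000000000220 := rS 0x13829c8ecc48cc59861520b94da9d35a65563d (k8 c2188 c4445 c4443 c4442 c4344 c4342 c11030 c4433 (k8 c384 c9009 c4471 c9825 c7641 c4482 c1095 c4408 (k2 c1560 c4464 k0))) (by decide +kernel)
def c12729 : PP 8 4 T 0x4000000000000000000010055544001556002000000040001001400200000000055200 := rS 0x1cd821444b2cff4263c557ec93ebf1a745 (k8 c4397 c4280 c4463 c4379 c4305 c1244 c4352 c411 (k8 c4492 c5095 c4425 c684 c2107 c8361 c7478 c385 k0)) (by decide +kernel)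
def c12730 : PP 8 4 T 0x2000000000000000000000000100000000000000000000000040000000400 := rS 0x7e0ab310f4b44b099ec15b2d48e134f99620c58b8f92a93569252e553386c5e4572abd32ab868dc4e2d1dacd72c93ebf1367984aed084d12044de0f2eac41a230e805a6380f0200e594806408313d9593b12 (k8 c12224 c4344 c12705 c1226 c4441 c12727 c268 c12699 (k8 c63 c526 c4462 c262 c1153 c4280 c54 c1058 (k8 c768 c529 c12219 c809 c265 c3074 c345 c1154 (k8 c284 c10080 c1442 c4321 c12146 c805 c4463 c4379 (k8 c4305 c3215 c3200 c3062 c2356 c2309 c2187 c4328 (k8 c4445 c4443 c4346 c11030 c4296 c4432 c4292 c655 (k8 c266 c1194 c7307 c4554 c9125 c11985 c12728 c4356 (k8 c1248 c4487 c7044 c4414 c530 c6900 c11986 c12729 (k8 c1749 c1796 c2127 c685 c4459 c1907 c1168 c7785 (k2 c1481 c7517 k0)))))))))) (by decide +kernel)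
def c12731 : PP 8 4 T 0x2000000000140000000000000002010000000001400000000080401114020 := rS 0x1974b66921147f4485da2e506d142601 (k8 c54 c1639 c4397 c529 c11030 c4298 c4431 c7030 (k4 c7517 c11828 c12184 c1481 (k2 c4427 c1752 (k1 c4573 k0)))) (by decide +kernel)
def c12732 : PP 8 4 T 0x2000000000000000000000000100000000000000000000000000000000400 := rS 0x118619dc7e5463854a62a849f592843cbf09ad3088344838378ec46430f0747a0f041740eb10c804087b2c95882e54e8c62490 (k8 c12699 c12224 c4441 c4344 c11030 c4433 c12705 c63 (k8 c1226 c12727 c54 c268 c12219 c526 c809 c4462 (k8 c265 c2188 c1058 c262 c2189 c768 c3062 c3074 (k8 c1153 c1154 c529 c345 c4280 c284 c4463 c12146 (k8 c10080 c4305 c4379 c4321 c12730 c292 c2220 c2227 (k4 c12731 c8954 c12658 c9009 (k2 c4482 c9828 k0))))))) (by decide +kernel)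
def c12733 : PP 8 4 T 0x2000000080000000000000000100000000000000000004000040000140002 := rS 0x7662464f309619d52a7360a28ce3d8221d121720944da9d579ad32ab8a81cf61b5884526693298cab1207c355a2f5ca5c5a5a050703e391089dca90 (k8 c12699 c11030 c4278 c886 c4280 c1153 c4466 c12732 (k8 c566 c2920 c11783 c1205 c4432 c4554 c4328 c5657 (k8 c12224 c12662 c755 c491 c756 c1030 c4276 c622 (k8 c4292 c702 c83 c4352 c4445 c4443 c4442 c4346 (k8 c4344 c4342 c4435 c4433 c4431 c7030 c9141 c4464 (k8 c11808 c4555 c2120 c8008 c4408 c763 c11468 c9009 (k4 c4322 c604 c7972 c9627 (k2 c4482 c1095 k0)))))))) (by decide +kernel)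
def c12734 : PP 8 4 T 0x2000000080000000000000000100000000000000000004400040000000002 := rS 0x5b1fd788240864eecb43b122c951eb24cc8b82850264b0b93d56bf4e9ec364d06ac4229b49acc1f0d7e95c127042980db12568b4b40a0e07c722113a41ca2f (k8 c4432 c11030 c12699 c4278 c886 c4280 c1153 c4466 (k8 c12732 c566 c2920 c4554 c12224 c4342 c888 c712 (k8 c889 c84 c751 c4550 c4328 c5657 c2642 c1030 (k8 c764 c4276 c622 c4371 c4282 c4292 c702 c4344 (k8 c1244 c4445 c4297 c4431 c4434 c571 c12733 c4308 (k8 c718 c646 c2609 c327 c2896 c4471 c7641 c1635 (k8 c1757 c1096 c389 c1422 c2108 c589 c677 c1175 (k1 c5279 k0)))))))) (by decide +kernel)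
def c12735 : PP 8 4 T 0x2000000080000000000000000100000000000000000004000040000100002 := rS 0x193c20ce88a0919d124b0b93d5e1126834ca632a9bcae0938214c06d43b11825155ab52e2d2d395864149a76249b0e07c722f4a8e84227481ec141b (k8 c4292 c12732 c702 c12699 c4278 c886 c12734 c1577 (k8 c4432 c4280 c1153 c4466 c764 c12224 c4344 c1030 (k8 c4433 c1047 c11030 c566 c2920 c11783 c4554 c4445 (k8 c4435 c1580 c4553 c1635 c4342 c888 c712 c889 (k8 c84 c751 c1075 c12662 c755 c491 c4371 c4282 (k8 c4276 c4346 c4297 c4431 c4434 c7030 c4555 c12733 (k4 c8142 c570 c2569 c1785 (k2 c1959 c4682 k0)))))))) (by decide +kernel)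
def c12736 : PP 8 4 T 0x2000000080000000000000000100000000000000000004000040000000002 := rS 0xb63faf104813b865928b8285196876230586951d25c961727904a2ab5fa74f61b2683562114da4c1f0d7e95c127042980db12568b4b40a0e07c722113a41ca2f (k8 c4432 c11030 c12699 c4278 c886 c4280 c1153 c4466 (k8 c12732 c566 c2920 c4554 c12224 c4342 c888 c712 (k8 c889 c84 c751 c4550 c4328 c5657 c1030 c764 (k8 c4276 c622 c4371 c4282 c4292 c702 c4344 c1244 (k8 c4445 c4435 c4433 c4297 c4431 c4434 c11783 c12734 (k8 c1577 c1047 c1580 c4553 c1635 c1757 c12735 c4308 (k8 c718 c2609 c389 c1096 c1422 c2108 c589 c677 (k2 c1175 c5279 k0)))))))) (by decide +kernel)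
def c12737 : PP 8 4 T 0x2000000080000000000000000100000000000000000000000040000000002 := rS 0x3a0507c0a (k4 c12732 c12736 c398 c399 (k1 c2570 k0)) (by decide +kernel)
def c12738 : PP 8 4 T 0x10000000002000000084020000010000000114000144054000000000000000001004000 := rS 0x42890d14453aed028b5e9dc9e3336aa55e3135a9557155fa76247b0dac4220a4d8703e391089d202f (k8 c4432 c12699 c4278 c886 c4280 c1153 c4466 c764 (k8 c12732 c4276 c622 c4292 c702 c12224 c4344 c1244 (k8 c4352 c4445 c4444 c4442 c4441 c4346 c4345 c4342 (k8 c4294 c4297 c1095 c1176 c4632 c7000 c11071 c12709 (k4 c4493 c2120 c6996 c4397 (k1 c11819 k0)))))) (by decide +kernel)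
def c12739 : PP 8 4 T 0x2000000080000000000000000100000000000000000004000040000100000 := rS 0x6022e2ec5679cd86c6821d47a7f31a1d121727905a2514eabd32ab8a81cf61b2a83536930c8c41e6737ab45eb98cc4826c932a5566044b8b406562c96c381f1c8844ee52eac4220a86a40c201 (k8 c12737 c5402 c12699 c4328 c12732 c4276 c622 c809 (k8 c11030 c4278 c886 c4280 c1153 c4466 c758 c1155 (k8 c4476 c302 c11815 c11783 c4461 c1187 c7304 c11930 (k8 c7308 c530 c12224 c12517 c1205 c4432 c4554 c1076 (k8 c655 c12199 c4441 c268 c1030 c764 c4371 c12662 (k8 c4292 c702 c83 c4352 c4445 c4443 c4346 c4344 (k8 c4435 c4298 c4433 c4297 c4431 c7030 c9141 c12253 (k8 c7517 c11808 c12487 c4464 c11768 c9009 c4408 c1519 (k4 c12738 c7641 c8095 c2127 (k1 c4687 k0)))))))))) (by decide +kernel)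
def c12740 : PP 8 4 T 0x2000000080000000000000000101100000001000000000000000001004000 := rS 0x5e413f4961b0b93cd712869341a5d588441490 (k8 c12699 c12732 c4276 c622 c809 c4371 c4282 c4328 (k8 c12224 c4442 c4297 c4431 c4292 c4434 c11065 c2108 (k2 c4477 c548 k0))) (by decide +kernel)
def c12741 : PP 8 4 T 0x10000000002000000080000000000000000100000400001000000000000000001004000 := rS 0x3cc2508815fa76247b0506cde90 (k8 c12699 c1076 c4292 c12732 c702 c12224 c4344 c1244 (k4 c7000 c12740 c4321 c603 (k1 c4482 k0))) (by decide +kernel)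
def c12742 : PP 8 4 T 0x2000000080000000000000000100000000000000000004000040000000000 := rS 0xc5609e4ecc31e9d516148ca5566ad4b8b4362f20b953a933086463120781006562d804381f1c8844e59588441490 (k8 c12699 c12732 c4276 c622 c1155 c4278 c886 c4280 (k8 c1153 c4466 c12737 c758 c4476 c302 c4461 c12199 (k8 c12224 c4441 c268 c5402 c1030 c4344 c11030 c4433 (k8 c4432 c4292 c11815 c11783 c4554 c1187 c7304 c12517 (k8 c12739 c718 c591 c327 c9009 c12741 c98 c1893 (k2 c1096 c9798 k0)))))) (by decide +kernel)
def c12743 : PP 8 4 T 0x2000000080000000000000000100000000000000000000000040000000000 := rS 0x5a961d8f8ac672d810021c019643e21588e44e1172a40120a (k8 c12732 c84 c12699 c11030 c4276 c4278 c4280 c622 (k8 c886 c1153 c1155 c302 c4466 c12737 c4461 c758 (k4 c655 c4476 c12742 c144 (k2 c1179 c913 (k1 c11774 k0))))) (by decide +kernel)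
def c12744 : PP 8 4 T 0x40000000000000002000000000000000000000000000000000802 := rS 0xd022277e9bcb41c5895e2a09 (k8 c84 c4352 c751 c2605 c567 c566 c1075 c4550 (k4 c2877 c10884 c10457 c1036 k0)) (by decide +kernel)
def c12745 : PP 8 4 T 0x2000000000010000000000040100000000000000000000000140000100010 := rS 0x4c783b611258252569047e9557aac6251178cda29314b24fafc4da0c1e261285d7e9d088d8de6110159727f2ac49ca0d1a87404016981d200a (k8 c12732 c12699 c83 c12743 c12744 c4461 c791 c1035 (k8 c569 c11030 c12224 c12662 c7517 c1205 c303 c302 (k8 c2885 c1076 c887 c2267 c4344 c1244 c4431 c2243 (k8 c12087 c239 c4570 c12040 c4463 c4379 c4305 c2776 (k8 c12021 c4298 c4294 c4432 c4435 c4441 c4445 c4346 (k8 c7488 c12102 c4433 c4554 c11345 c1983 c2275 c4553 (k4 c1047 c9009 c571 c11938 k0))))))) (by decide +kernel)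
def c12746 : PP 8 4 T 0x2000000000010000000000040100000000000000000000000040000100010 := rS 0x10a3018532f49aa06321596475630426b58b30c9311162651f154aabd5631288bc66d149a8d927d7e26d060f130942ebf4e8446c6f30880ac7f2ac49ca0d1a87404016981d200a (k8 c12732 c12699 c83 c12743 c12744 c4461 c791 c1035 (k8 c569 c11030 c12224 c12662 c7517 c303 c302 c2885 (k8 c1076 c887 c2267 c4344 c1244 c4431 c2243 c12087 (k8 c239 c4570 c12040 c4463 c4379 c4305 c2942 c12021 (k8 c4298 c4294 c4432 c4435 c4441 c4445 c4346 c7488 (k8 c4352 c130 c4443 c12745 c4332 c369 c4958 c4487 (k8 c7420 c7061 c4420 c7641 c1411 c2027 c12041 c2107 (k8 c409 c413 c7297 c900 c10080 c12709 c308 c4446 k0)))))))) (by decide +kernel)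
def c12747 : PP 8 4 T 0x1000000020000000000000000000000000000000001000000002100800 := rS 0x20a75391e4ec09 (k4 c84 c309 c1959 c1095 (k2 c1785 c4408 (k1 c7079 k0))) (by decide +kernel)
def c12748 : PP 8 4 T 0x10000000002000000000000100000000000100500000000000000000080000001015000 := rS 0x28abb42134961b0b93e2abf48276240a (k8 c12732 c12224 c4344 c12699 c1244 c4352 c4297 c4431 (k4 c4292 c4434 c325 c2108 (k2 c4735 c4397 (k1 c4493 k0)))) (by decide +kernel)
def c12749 : PP 8 4 T 0x2000000000000000000000040100000000000000000000000040000100010 := rS 0x3199cb65e064923d8cb109ed172c54720d1a8740e8125a0c1e2612984ac111b0800401052402ed3 (k8 c12743 c4431 c12699 c12732 c12744 c4461 c302 c887 (k8 c2267 c303 c2885 c2243 c12087 c239 c4570 c4434 (k8 c12056 c83 c791 c1035 c569 c2319 c4352 c11030 (k8 c4298 c4297 c12746 c4370 c1782 c4209 c12747 c12748 (k4 c1175 c1176 c9550 c1519 k0))))) (by decide +kernel)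
def c12750 : PP 8 4 T 0x2000000000010000000000040100000000000000000000000040000000010 := rS 0x42c60fe7984b2d10680c9dd588727a64f6672aa555eab189445e3368a4d460d1a8740e8125a6d060f130942ebf4ec4822363798440b382a2c366224996222c618f428411f958040169a4014e5 (k8 c11030 c12732 c12699 c12743 c12744 c4461 c303 c12102 (k8 c4433 c12749 c2279 c9009 c382 c4332 c550 c2328 (k8 c383 c4292 c718 c4308 c1187 c302 c2885 c1076 (k8 c887 c2267 c12224 c4344 c1244 c4431 c2243 c12087 (k8 c239 c4570 c12040 c4434 c12056 c83 c791 c1035 (k8 c569 c2942 c12021 c4298 c4294 c4432 c4435 c4441 (k8 c4445 c4346 c7488 c12662 c919 c702 c4443 c4297 (k8 c7276 c6342 c9784 c389 c820 c4903 c2027 c4437 (k4 c1960 c12296 c4482 c684 (k1 c7463 k0)))))))))) (by decide +kernel)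
def c12751 : PP 8 4 T 0x2000000000000000000000040100000000000000000000000040000000010 := rS 0x633396cbc0ca1e32c4248509ee53d86c720d1a8740e8125a0c1e2612984ac111b0800401052402ed3 (k8 c12743 c4431 c12699 c12732 c12744 c4461 c302 c887 (k8 c2267 c303 c2885 c2243 c12087 c239 c4570 c4434 (k8 c12056 c83 c791 c1035 c569 c2319 c4292 c702 (k8 c11030 c4297 c12749 c2328 c12750 c4370 c1635 c389 (k4 c12748 c1175 c1176 c9550 (k1 c1519 k0)))))) (by decide +kernel)
def c12752 : PP 8 4 T 0x2000000000000000000000000100000000000000000000000040000000010 := rS 0x3fae426490aa84783b1618d2c7d64bf0220f06a8c6c61130d440250e8fcac027281cab1200b4c1490 (k8 c12699 c12732 c12743 c12744 c12224 c12662 c83 c11030 (k8 c4461 c303 c12102 c791 c2243 c302 c1035 c12087 (k8 c2885 c887 c2942 c569 c239 c2267 c4463 c4305 (k8 c4379 c12751 c2801 c11783 c1043 c927 c2904 c383 (k4 c369 c571 c1206 c7517 (k1 c11938 k0)))))) (by decide +kernel)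
def c12753 : PP 8 4 T 0x2000000000000000000000040100000000000000000000000040000110000 := rS 0xcf6230d8cc11e84cec438c91cca7984d152abb4226cfac92b13438933fbf0b64912084b2230f8d81a83409bcc227588e46a4b0b93c82ab86a3e2abf48274127b0db4c3231078fcc6032a82a24ad16811ca2f (k8 c4432 c11030 c12752 c390 c4554 c12224 c12732 c12662 (k8 c55 c12253 c398 c12199 c4441 c268 c12743 c4292 (k8 c702 c84 c4344 c12699 c1244 c4352 c130 c4328 (k8 c4445 c4433 c4297 c4431 c4434 c7808 c358 c622 (k8 c350 c614 c10992 c12056 c4570 c569 c4470 c1153 (k8 c769 c1155 c886 c4467 c7307 c888 c10457 c7517 (k8 c11351 c4466 c284 c4476 c4305 c4379 c764 c2108 (k8 c4735 c802 c4397 c4321 c603 c11930 c11939 c12517 (k8 c10207 c4482 c530 c12701 c7477 c2107 c9009 c4553 (k2 c1519 c8360 k0)))))))))) (by decide +kernel)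
def c12754 : PP 8 4 T 0x40000000000000002000000000000000000000040000010000800 := rS 0x4a1e1c0862a35 (k4 c1035 c4352 c887 c4470 (k2 c4466 c2214 (k1 c1154 k0))) (by decide +kernel)
def c12755 : PP 8 4 T 0x40000000000000002000000000000000000000000000010020820 := rS 0x1009c3e36 (k4 c12754 c2202 c2270 c4466 (k1 c886 k0)) (by decide +kernel)
def c12756 : PP 8 4 T 0x40000000000000002100000000000000000000000000000020820 := rS 0x1c159625b2c8700e01 (k8 c12744 c83 c12755 c1025 c758 c12219 c4476 c12220 (k1 c12221 k0)) (by decide +kernel)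
def c12757 : PP 8 4 T 0x2000000000000000000000040100000000000000000000000040000000000 := rS 0x31582765e4655ac35aa547e2d1eacd161420b9557153d99cac5b30965627d7e1bc129b17a4c38210faee8b093ca109a241388c730d0c8c436812593d060f0b8346a116980c080a5fa413b12 (k8 c12224 c4344 c12699 c1244 c12732 c12752 c55 c12743 (k8 c12756 c7808 c569 c4431 c12199 c4570 c4297 c4434 (k8 c12056 c4292 c4441 c268 c4328 c358 c769 c350 (k8 c4467 c284 c2108 c603 c4321 c4397 c4735 c1153 (k8 c886 c4466 c1030 c4432 c764 c84 c10992 c10457 (k8 c4379 c622 c1155 c614 c888 c4476 c655 c702 (k8 c4352 c4445 c11030 c4433 c12753 c718 c5025 c327 (k8 c912 c1179 c7304 c11934 c9009 c4554 c12517 c4493 (k4 c4482 c2021 c1096 c4553 k0))))))))) (by decide +kernel)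
def c12758 : PP 8 4 T 0x2000000000000000000000000100000000000000000000000040000000000 := rS 0xf8522c4b158385b109643e6113ac472113380c08d372a40120a (k8 c12732 c84 c12699 c11030 c12743 c12752 c55 c655 (k8 c12756 c358 c622 c350 c614 c1153 c1155 c886 (k8 c888 c4466 c4476 c12757 c11774 c142 c11815 c1180 k0))) (by decide +kernel)
def c12759 : PP 8 4 T 0x1000000000000000000002000000000000000000000000080000000810 := rS 0x19cfac70791d46602ab48ca5a5895c00630ac341203 (k8 c2244 c84 c4328 c286 c1607 c4461 c751 c2605 (k8 c566 c2539 c12744 c12681 c888 c2943 c4374 c5657 (k4 c291 c7516 c7403 c12594 k0))) (by decide +kernel)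
def c12760 : PP 8 4 T 0x2000000080000000000000000100000000000000000000000000000000000 := rS 0x3f4be8a3fa89121559958385d2c96c3e21589841a39138442f0d298fc021918c481e131498caa0448394142a (k8 c12758 c12732 c11030 c12699 c12759 c12210 c1606 c59 (k8 c531 c12199 c12224 c4441 c268 c54 c2223 c292 (k8 c4328 c4431 c4276 c4278 c4280 c4371 c5402 c622 (k8 c886 c1153 c888 c1155 c809 c4466 c4476 c1188 (k8 c12216 c7030 c12222 c7517 c11828 c1465 c11308 c4477 k0))))) (by decide +kernel)
def c12761 : PP 8 4 T 0x2000000000000000000000000100000000000000000000000000000000000 := rS 0x1974b67d0d9a8a511fd1215a2acd0856268712a5b12084b2471187c1a6113ac4723564845a6630983c3255020fc0653148a8151547c35203154c482ee5 (k8 c11030 c4431 c12224 c4345 c4441 c12699 c4328 c130 (k8 c4352 c12732 c12758 c59 c292 c2244 c2223 c12759 (k8 c12210 c268 c12199 c531 c1606 c12760 c12756 c10573 (k8 c7808 c358 c622 c350 c614 c569 c1153 c769 (k8 c7823 c1155 c886 c4467 c888 c1695 c4466 c284 (k8 c4476 c10080 c1188 c4397 c12216 c7030 c7517 c12223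 (k4 c11828 c1481 c4393 c1523 (k2 c4427 c1752 (k1 c4495 k0))))))))) (by decide +kernel)
def c12762 : PP 8 4 T 0x2000000000002000000000000000000000000000000005000000000000000 := rS 0x1dc5ca2e5 (k4 c11030 c4435 c4420 c1580 (k1 c4471 k0)) (by decide +kernel)
def c12763 : PP 8 4 T 0x400000002000000080000200000000004000000000000000000045040000080000000 := rS 0x1354547a743a8c5cb946ac1 (k8 c12762 c4373 c11030 c7514 c12761 c1027 c10547 c100 (k2 c4454 c11034 (k1 c2019 k0))) (by decide +kernel)
def c12764 : PP 8 4 T 0x400000002000000080000400000000004000004008000000000045040000080000000 := rS 0x805226975195e92c9e4122a3c724d4e8746a8c (k8 c12761 c4373 c1027 c10547 c4282 c4280 c100 c4296 (k8 c4433 c4297 c4434 c12763 c5090 c2114 c5504 c1389 (k2 c1349 c6903 k0))) (by decide +kernel)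
def c12765 : PP 8 4 T 0x1000000000080000011000000000200040000000012000005000000100000004 := rS 0xed6e07588e48e3782b2492c7 (k8 c251 c4281 c1726 c4406 c1384 c4374 c4280 c1115 (k4 c10598 c5279 c1601 c12162 k0)) (by decide +kernel)
def c12766 : PP 8 4 T 0x1000000000000000000000000000200000010001014000000000000000000000 := rS 0x2f168bb0d (k4 c4383 c1338 c4476 c4477 (k1 c576 k0)) (by decide +kernel)
def c12767 : PP 8 4 T 0x200000000001040000000010000200008408 := rS 0x379700c5f04c3522fd (k8 c4376 c129 c4383 c231 c5407 c4462 c4477 c1019 (k1 c1337 k0)) (by decide +kernel)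
def c12768 : PP 8 4 T 0x1400000000000000000000000000005020004000000000000000000000000000000000000000000000 := rS 0x1974b (k2 c4429 c1756 (k1 c4495 k0)) (by decide +kernel)
def c12769 : PP 8 4 T 0x101000001000000000015000000041500000000051180000005400140000000000 := rS 0xfc63512562c9350a7e185f (k8 c577 c4477 c4384 c11524 c9125 c4471 c4418 c2125 (k2 c842 c8633 (k1 c6696 k0))) (by decide +kernel)
def c12770 : PP 8 4 T 0x1000000000000000000000000000000040080000000800140100000400 := rS 0xc6924a8203c1d (k4 c759 c4466 c12637 c1577 (k2 c1101 c842 (k1 c11197 k0))) (by decide +kernel)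
def c12771 : PP 8 4 T 0x1000001000040000000500000041100000104051180000005550140000002000 := rS 0x7364c10927147ade28b95a98d2b1650a7e185f (k8 c577 c4477 c4384 c11524 c4471 c4418 c842 c4419 (k8 c7514 c4470 c7094 c4388 c4387 c11340 c12769 c507 (k2 c4408 c9237 k0))) (by decide +kernel)
def c12772 : PP 8 4 T 0x1400000001000000000005540014501054000504001401500000050401010000000002 := rS 0x69a206632444c8b95e33 (k8 c950 c5815 c4469 c1840 c6161 c4364 c257 c4493 (k2 c757 c9368 k0)) (by decide +kernel)
def c12773 : PP 8 4 T 0x40000000000001400000001001000004405555014501054000504000001502402050400050080000002 := rS 0x1906d0ecc62a6e126c18b40d651 (k8 c1724 c9041 c4475 c300 c12772 c4318 c865 c7718 (k4 c2129 c1908 c429 c5814 (k1 c5697 k0))) (by decide +kernel)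
def c12774 : PP 8 4 T 0x1400000001000000040805540014501054000504000001582050050400010080000002 := rS 0x360cc323135914364a3cc61a345 (k8 c4455 c1751 c4493 c11641 c4474 c428 c4364 c580 (k4 c1914 c3780 c432 c12772 (k1 c5889 k0))) (by decide +kernel)
def c12775 : PP 8 4 T 0x1400000001001000004405555014501054000504000001502402050400050080000002 := rS 0x3159b4a (k4 c12773 c4460 c4429 c2129 k0) (by decide +kernel)
def c12776 : PP 8 4 T 0x400000001001000040005155014501054000504000001582412000600050080000002 := rS 0x32c824f8a90d7ecf (k8 c1791 c1241 c365 c4348 c451 c1143 c12774 c12775 k0) (by decide +kernel)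
def c12777 : PP 8 4 T 0x1000000000001000000001000000040000000000000000000005000000000014000050000000002000 := rS 0x424ef19421109c1b (k8 c691 c4474 c7248 c1487 c4364 c1090 c4321 c4482 k0) (by decide +kernel)
def c12778 : PP 8 4 T 0x400000001001000040005055014501054000104000001486412000610050080016202 := rS 0x6c0d8b8ec452013c94694d9e68abc418dcbb15 (k8 c4348 c753 c232 c9038 c12776 c4454 c2016 c2018 (k8 c844 c12777 c176 c1858 c1170 c1063 c1104 c424 (k2 c7751 c783 k0))) (by decide +kernel)
def c12779 : PP 8 4 T 0x400000001001000040000044014514041000104000001486402404610054080006202 := rS 0x115a23020944662f2627422b15ca4d86b54ab062c3d21a8d8e2d (k8 c392 c410 c4241 c365 c274 c4471 c4420 c4418 (k8 c4419 c4362 c9125 c7514 c1146 c9117 c4031 c12778 (k8 c1992 c376 c1997 c1995 c4469 c300 c297 c6159 k0))) (by decide +kernel)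
def c12780 : PP 8 4 T 0x1400100001000000000405540014555054000504000055502100250400010000002002 := rS 0x160da1a12a9429b0d68ba20c43319 (k8 c4364 c257 c297 c4493 c1767 c493 c12772 c4397 (k4 c4398 c4318 c8683 c690 (k2 c4465 c1836 k0))) (by decide +kernel)
def c12781 : PP 8 4 T 0x400100001000000040005140014555054000504000041582412014600050080002202 := rS 0x1b0d6313cb4036c58c0cc8a516593cca3d31c5486bf (k8 c1241 c365 c4348 c842 c274 c491 c451 c12774 (k8 c1724 c12780 c432 c4472 c4530 c424 c2115 c4447 (k4 c300 c580 c12772 c5814 k0))) (by decide +kernel)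
def c12782 : PP 8 4 T 0x1000000001000000040000200000000000000404000000000010010050000000002000 := rS 0x12cf345 (k4 c4454 c2016 c1858 c12777 k0) (by decide +kernel)
def c12783 : PP 8 4 T 0x2000000000000000080000000000000090000002 := rS 0x3678360bd329b (k4 c189 c188 c784 c968 (k2 c969 c687 (k1 c4123 k0))) (by decide +kernel)
def c12784 : PP 8 4 T 0x400100001000000040005040014555054000504000041582412014650050080002202 := rS 0x17b15 (k2 c4348 c12782 (k1 c12781 k0)) (by decide +kernel)
def c12785 : PP 8 4 T 0x400000001000000000000008000000000000000000000004000020000000080000202 := rS 0x369a436333b0648a07 (k8 c30 c174 c1873 c1063 c432 c424 c8502 c5889 (k1 c7751 k0)) (by decide +kernel)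
def c12786 : PP 8 4 T 0x400100001000000040005040014555054000104000041482412014610050080016202 := rS 0x20c6e5d (k4 c753 c232 c9038 c12784 k0) (by decide +kernel)
def c12787 : PP 8 4 T 0x400100001001000040000040014515041000104000041486402404610054080006202 := rS 0x45688c0a2331793082b608ac526c34ab062c3d21a8d8e2d (k8 c392 c410 c4241 c365 c274 c4471 c4420 c4418 (k8 c4362 c9125 c1146 c9117 c12779 c12785 c12786 c1992 (k4 c376 c1997 c4469 c300 (k2 c297 c6159 k0)))) (by decide +kernel)
def c12788 : PP 8 4 T 0x40000000001500000020010001501500012000000000000014000 := rS 0x19e83 (k2 c9038 c1791 (k1 c8425 k0)) (by decide +kernel)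
def c12789 : PP 8 4 T 0x1001001000040000000000000000100000000001084000004000040000104404 := rS 0xbd4113c988843a2cd2770c910821b8ca64d6af549b624ad5592052532a4408f438284cfcc9409ed467d3810d8f1552a7c70255da854f0c0617d22b31b9952e5d378d42227588213a00029d526c35ab04c6958b0ecce2d1e878421d (k8 c759 c12555 c4466 c274 c392 c4555 c12770 c4471 (k8 c4418 c842 c4420 c4419 c4362 c9125 c11627 c574 (k8 c4461 c12783 c12637 c1146 c353 c9117 c1099 c8928 (k8 c753 c6579 c491 c232 c1185 c12700 c577 c4463 (k8 c4477 c11219 c11524 c6994 c11222 c12771 c4384 c4385 (k8 c4348 c410 c365 c4480 c8975 c4241 c707 c1421 (k8 c586 c2118 c11097 c4313 c4392 c1312 c6629 c12366 (k8 c9747 c8448 c7091 c4415 c4338 c12787 c4342 c4345 (k8 c4346 c4442 c4443 c7972 c686 c1103 c6161 c257 (k8 c1090 c757 c1767 c10171 c2120 c12788 c177 c8722 (k2 c1170 c589 k0))))))))))) (by decide +kernel)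
def c12790 : PP 8 4 T 0x1800000001000000040005000014001055100510000051082002000400000080014002 := rS 0x1354ebd27b2d1087459a4ee1922104861b3dc654a99358c55ea93697cba63 (k8 c842 c753 c577 c4342 c4345 c4346 c4441 c4442 (k8 c4443 c4444 c7972 c704 c686 c276 c1103 c6161 (k8 c257 c1090 c757 c1767 c10171 c2120 c2024 c453 (k4 c1170 c4500 c8722 c12788 k0)))) (by decide +kernel)
def c12791 : PP 8 4 T 0x1620000001001000000405500000001054000504001001500412050400050000000002 := rS 0x3135b4296a919aad5acf53a957651 (k8 c1724 c4825 c4385 c4330 c1791 c4338 c4415 c950 (k4 c8354 c4690 c4475 c9041 (k2 c300 c12772 k0))) (by decide +kernel)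
def c12792 : PP 8 4 T 0x400000000000000000000000000001000000004002000000000210000000000000002 := rS 0xb8c8ec988cc253679 (k8 c601 c865 c4318 c4364 c4488 c4482 c1130 c1832 (k1 c951 k0)) (by decide +kernel)
def c12793 : PP 8 4 T 0x620000001001000040000100000001040000504000001582012014600040080000202 := rS 0x306806c664562a6cd8516593d262d61b062aab5694c52634ac587abf21a9d4abb (k8 c4825 c4385 c4330 c364 c1241 c274 c4471 c4418 (k8 c842 c1598 c9029 c4338 c4415 c4348 c4420 c4362 (k8 c392 c9125 c451 c12774 c1724 c12791 c865 c7718 (k4 c12792 c432 c424 c2115 (k2 c5814 c300 k0))))) (by decide +kernel)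
def c12794 : PP 8 4 T 0x400000000000000000000000054000000010000001554000000000000000000000000 := rS 0x86 (k2 c12033 c10041 k0) (by decide +kernel)
def c12795 : PP 8 4 T 0x400000000000620000001001000040000000000001040000504000041582012014650040080000202 := rS 0x1b55e44651a4d64b44a6cf3455e19586634ac587b1555ab59ea7 (k8 c4330 c1791 c4338 c4415 c4348 c274 c4471 c4418 (k8 c842 c4362 c491 c12793 c4454 c2016 c2018 c9160 (k8 c1858 c580 c844 c4599 c7248 c8140 c12792 c12794 k0))) (by decide +kernel)
def c12796 : PP 8 4 T 0x400000000000000000000000000000000000000000000004000020000000080000202 := rS 0x361a4362e3b0648a07 (k8 c30 c174 c1873 c1063 c1104 c424 c757 c7751 (k1 c783 k0)) (by decide +kernel)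
def c12797 : PP 8 4 T 0x400000001001000040005140014555054000504001001582012010600040080000002 := rS 0x189ada14b54945964f8a94c52635f90d9e33 (k8 c950 c1791 c364 c1241 c842 c1598 c9029 c4348 (k8 c451 c12774 c1724 c8354 c4545 c4475 c9041 c300 (k1 c12772 k0))) (by decide +kernel)
def c12798 : PP 8 4 T 0x400000000000400000001000000000004200014400000000400001054080012010000000000000000 := rS 0x15cca349ac96894d9e68acf (k8 c1791 c4454 c2016 c2018 c9160 c1858 c580 c844 (k2 c4599 c12794 (k1 c8140 k0))) (by decide +kernel)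
def c12799 : PP 8 4 T 0x400000000000400002001001000040005000014555054000004001041582012010600040080000002 := rS 0x6a4ca1574bd3298d0283 (k8 c4306 c4380 c842 c491 c12798 c12797 c1442 c1930 (k2 c9162 c581 k0)) (by decide +kernel)
def c12800 : PP 8 4 T 0x400000001000000000005000000001004000004002000002000054400040080000202 := rS 0x344a2300b86c66c522a6c7a53 (k8 c9029 c274 c865 c12792 c7718 c432 c424 c519 (k4 c5814 c1605 c300 c2115 k0)) (by decide +kernel)
def c12801 : PP 8 4 T 0x400000000000600002001001000040000000000005041100004000041182012014640040180000202 := rS 0x230ba1826d486d538891d0d2f89c6a9361b05028312a862a958b0f546c716aad5a43 (k8 c364 c4338 c4415 c392 c410 c4241 c274 c4471 (k8 c4418 c4348 c4551 c281 c4306 c4380 c4420 c4362 (k8 c9125 c1099 c353 c577 c12795 c4486 c4467 c773 (k4 c12800 c12799 c1971 c1302 (k2 c1429 c5755 (k1 c4449 k0)))))) (by decide +kernel)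
def c12802 : PP 8 4 T 0x400000000000000000000000000000000000008000000080000000000000000000202 := rS 0x170ccd2184d05cee07 (k8 c30 c182 c520 c705 c1225 c845 c951 c4153 (k1 c1870 k0)) (by decide +kernel)
def c12803 : PP 8 4 T 0x1000000000000400100000000000041100000004054000040410001555500000000004001000000010 := rS 0x10e85 (k2 c10705 c10041 (k1 c8581 k0)) (by decide +kernel)
def c12804 : PP 8 4 T 0x2001001000040000000000000001100000000001084000004600040110104212 := rS 0x4648a9a0c1a0da4335a2c2ecd19d14987b20c4ca6ad55920a91023a7e87053f28d42c712c54beb31b9952e5d0889d629d5c8d4ce9316b0d82634ac587a1e64a05067d (k8 c4379 c4306 c4380 c4305 c4466 c274 c4471 c4418 (k8 c842 c4420 c4362 c392 c9125 c4555 c1099 c7514 (k8 c12783 c1146 c353 c9117 c753 c6579 c491 c232 (k8 c1185 c577 c4348 c281 c410 c4551 c4241 c11451 (k8 c4313 c4392 c1394 c1312 c6629 c12366 c4473 c4415 (k8 c4338 c9029 c12790 c12796 c12802 c12801 c4451 c376 (k8 c2062 c1990 c725 c492 c10488 c12800 c12803 c757 (k4 c844 c257 c4448 c4701 k0))))))))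 (by decide +kernel)
def c12805 : PP 8 4 T 0x100000001000040140000000024000000010000055500000000000044000110000 := rS 0x28099214710 (k4 c4478 c4337 c4212 c11097 (k2 c11453 c8448 k0)) (by decide +kernel)
def c12806 : PP 8 4 T 0x1001000040000000000000000100000000001084000004000040000104404 := rS 0x1f81a731204846556343540a3884153e7147ade28393eb25f85f48acc6e654b974de1113ac40005042e46a7549ad4c6958b0ecce2d1e878421d (k8 c759 c12555 c4466 c274 c392 c4555 c12770 c4471 (k8 c4418 c842 c4419 c9125 c11627 c1099 c7514 c12637 (k8 c574 c4461 c1146 c353 c9117 c8928 c753 c6579 (k8 c491 c232 c1185 c12700 c577 c12789 c4305 c4379 (k8 c12804 c4470 c7094 c4388 c4387 c9687 c9531 c4478 (k8 c4337 c11255 c12333 c12805 c250 c1449 c4464 c4467 (k4 c1560 c1367 c5124 c7517 k0))))))) (by decide +kernel)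
def c12807 : PP 8 4 T 0x40000000000000000000000000002000000000000004000014000 := rS 0x1afd (k2 c4302 c503 (k1 c4463 k0)) (by decide +kernel)
def c12808 : PP 8 4 T 0x800000000000000000100000004400000000880000000000500000000150000002000 := rS 0x2f67b349885a18cd5e31 (k8 c4441 c4346 c4340 c4392 c185 c509 c2065 c1521 (k2 c1992 c7781 k0)) (by decide +kernel)
def c12809 : PP 8 4 T 0x400000000001000000000000000000002051000000000000000000000000000000000000000000000 := rS 0x16f17 (k2 c4420 c1749 (k1 c4492 k0)) (by decide +kernel)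
def c12810 : PP 8 4 T 0x1000001000000000000000001500000000500001401500040000000000001000002 := rS 0x42058d21b (k4 c686 c757 c4465 c2119 (k1 c523 k0)) (by decide +kernel)
def c12811 : PP 8 4 T 0x1000000000001000454001154000084100044000400050400000002000002 := rS 0x26ce6c262c611245 (k8 c257 c2038 c4472 c4530 c6161 c1088 c4448 c8255 k0) (by decide +kernel)
def c12812 : PP 8 4 T 0x1820000001000000040101000414401054000184100041500500040450150080002002 := rS 0xbd27134d21984a0c821b4c9ad5ea93698d4a38 (k8 c4470 c4385 c754 c4342 c4345 c4346 c4442 c4443 (k8 c686 c1103 c12808 c12516 c12811 c757 c8722 c12810 (k2 c12782 c451 k0))) (by decide +kernel)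
def c12813 : PP 8 4 T 0x1000000000005000000001000000000000000000500055402040000000000 := rS 0x8ad1 (k2 c300 c297 (k1 c6159 k0)) (by decide +kernel)
def c12814 : PP 8 4 T 0x400000000001000000001000000040008011000000000000404000000000400010050000000002000 := rS 0x4d5e3316d17 (k4 c4362 c4492 c1168 c1167 (k2 c2062 c12782 k0)) (by decide +kernel)
def c12815 : PP 8 4 T 0x1400000001000000040005040014501054000504001001500000010451010000002002 := rS 0x5eafc9a2e1990c706b (k8 c493 c4470 c365 c950 c4469 c1992 c1241 c12782 (k1 c12772 k0)) (by decide +kernel)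
def c12816 : PP 8 4 T 0x400000000001400000001000000040000041014501054000504000001500500014450050080002202 := rS 0x6c6645360c5863d21b057238 (k8 c4470 c1201 c12809 c365 c274 c12814 c12813 c12815 (k4 c12792 c432 c424 c5814 k0)) (by decide +kernel)
def c12817 : PP 8 4 T 0x1200001001002000040100040000000014000104100041584000004050044100112402 := rS 0x31178cd5ecf66858986d42d15044189b056b43829f95aab51acc10654b8b53a1e0e94c7651318a54ea13e91d3ea5862e48638 (k8 c4470 c365 c1201 c4477 c4385 c4384 c4404 c1291 (k8 c11524 c11219 c4402 c754 c4405 c4403 c4290 c759 (k8 c4466 c12783 c392 c6579 c491 c12637 c1185 c4337 (k8 c4415 c4338 c5857 c9288 c4392 c1434 c12809 c12812 (k8 c12796 c12816 c4452 c185 c2658 c509 c508 c2065 (k4 c1521 c5972 c950 c1992 (k2 c5847 c7781 k0))))))) (by decide +kernel)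
def c12818 : PP 8 4 T 0x200001000000000005000054001154000004001410000100050405010000040002 := rS 0x22cd2192218d0e1b (k8 c686 c4410 c754 c6161 c257 c757 c5853 c5842 k0) (by decide +kernel)
def c12819 : PP 8 4 T 0x1000000000005000000000000000004000000001500055400000002000000 := rS 0x315a245 (k4 c257 c260 c4530 c2115 k0) (by decide +kernel)
def c12820 : PP 8 4 T 0x820200001000000040045010400481054000104100011400500045400010080054002 := rS 0x109419348919459dc324f5fb2e96ac20b3c36ab4c9ac62af549b4665d52a1cab43 (k8 c4393 c4406 c4410 c4385 c753 c4340 c4342 c4345 (k8 c4346 c4441 c4442 c4443 c4445 c686 c1523 c1103 (k8 c12818 c4458 c2026 c9033 c6220 c12819 c9124 c5853 (k4 c9062 c4472 c379 c9038 (k2 c12516 c12810 k0))))) (by decide +kernel)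
def c12821 : PP 8 4 T 0x200001000000000000000010000000000800020110000100000001010000002002 := rS 0x668b3698d0e6b (k4 c493 c4410 c754 c2460 (k2 c2569 c950 (k1 c5842 k0))) (by decide +kernel)
def c12822 : PP 8 4 T 0x400000001000000000005000008001000000004000000000500055400040000000002 := rS 0x6c220c9a231 (k4 c12813 c1670 c5962 c6159 (k2 c950 c12792 k0)) (by decide +kernel)
def c12823 : PP 8 4 T 0x400000000001400200001000000040000041014501054000000020101500500014451050080002202 := rS 0x41994f681 (k4 c1421 c707 c491 c12821 (k1 c12816 k0)) (by decide +kernel)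
def c12824 : PP 8 4 T 0x1000001001002000040000040000000014000000100040484000004010044100104402 := rS 0x15283279350a2e368cd58ab349ac323120c4e86c15ab0d44558b4122205599952e3d16a743c1d298eca2c76484cc6290629d42254fa96185d309ed02703784562b9218e06e08 (k8 c12637 c232 c4470 c365 c1201 c1146 c9117 c8928 (k8 c4480 c1421 c707 c12807 c753 c4477 c4385 c4384 (k8 c11222 c11524 c11219 c4463 c4402 c754 c4401 c10573 (k8 c4289 c4405 c4403 c4290 c759 c4466 c12783 c392 (k8 c274 c6579 c491 c1185 c574 c12817 c5056 c4487 (k8 c4406 c9288 c4362 c4419 c4420 c4393 c12820 c12796 (k8 c12813 c12819 c493 c757 c12822 c12823 c942 c944 (k4 c4469 c10705 c1992 c1487 (k2 c9038 c787 (k1 c2119 k0)))))))))) (by decide +kernel)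
def c12825 : PP 8 4 T 0x2000000000010400014020000000100015500000000000044000110000 := rS 0x14704 (k2 c5073 c859 (k1 c9288 k0)) (by decide +kernel)
def c12826 : PP 8 4 T 0x11000000001000000040000040001500000000504001501500000010050000005002000 := rS 0xbd5fd149a38 (k4 c4470 c8722 c9368 c1241 (k2 c12782 c4493 k0)) (by decide +kernel)
def c12827 : PP 8 4 T 0x1000000000005000000000000040004000000000500055400000002000000 := rS 0x315a245 (k4 c257 c261 c4530 c2115 k0) (by decide +kernel)
def c12828 : PP 8 4 T 0x1820000001000000040000040000400000000504000001500000010050000001002002 := rS 0x1149d1884a9470a93586cda69 (k8 c757 c4342 c686 c4442 c4345 c4470 c4385 c12516 (k4 c12826 c12810 c4364 c450 k0)) (by decide +kernel)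
def c12829 : PP 8 4 T 0x1820000001000000040005040000400000000000020081500500005450000080002002 := rS 0x22c649e785e215041920a2d326d3da048638 (k8 c4470 c365 c1421 c707 c4342 c4443 c720 c1103 (k8 c12827 c12828 c185 c589 c588 c1487 c4447 c1170 (k1 c4472 k0))) (by decide +kernel)
def c12830 : PP 8 4 T 0x1400001001000000040000040004401054000504001091500500015451011000002012 := rS 0x1528534865588b1998d4b0c218e20ac360c5a226b (k8 c493 c4334 c4487 c4420 c4362 c4310 c4470 c365 (k8 c4477 c4385 c754 c950 c720 c12815 c12827 c757 (k2 c10705 c11272 (k1 c2119 k0)))) (by decide +kernel)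
def c12831 : PP 8 4 T 0x400000001000000000000000000001000000004002000000000010001000080000202 := rS 0x6c6645 (k4 c12792 c432 c424 c5814 k0) (by decide +kernel)
def c12832 : PP 8 4 T 0x1000001001002000040000040000000005000000000000484000004010044100104402 := rS 0x1305c82199b5563120c4d82c38b444cc9521ae5027b3a8e0e005598dcca971e9bd3a1e0e94c263b2898c52a750894fa0c23a7e185d308456208 (k8 c12637 c1146 c9117 c12807 c753 c4477 c4384 c4404 (k8 c4463 c1291 c11222 c11524 c11219 c4402 c754 c4405 (k8 c4403 c4401 c4290 c759 c4466 c12783 c8928 c274 (k8 c6579 c491 c232 c1185 c574 c4480 c4470 c10865 (k8 c707 c1421 c1201 c365 c12825 c12824 c4334 c4487 (k8 c4362 c4420 c12829 c12796 c12813 c12822 c12831 c950 (k4 c12830 c4469 c509 c1992 k0))))))) (by decide +kernel)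
def c12833 : PP 8 4 T 0x2800001001000000040000000000000000000000000001480000000000000080014002 := rS 0x1e10909409a506770c93488412186cf7194c9ac62a9368314ea5861747271 (k8 c4387 c4348 c753 c4477 c4385 c11219 c4463 c4342 (k8 c4345 c4441 c4442 c4443 c8237 c704 c686 c276 (k8 c1103 c4472 c378 c257 c1090 c9038 c757 c1294 (k4 c12516 c2119 c4482 c602 k0)))) (by decide +kernel)
def c12834 : PP 8 4 T 0x20100000002000000000005400000045500000104040000000000000000000000002 := rS 0x51440c629 (k4 c4402 c754 c5056 c12333 (k1 c4337 k0)) (by decide +kernel)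
def c12835 : PP 8 4 T 0x2020000000002000000100000500010045100000104051500000000000000000000002 := rS 0x738218c529f47adce2b5 (k8 c4389 c4387 c4353 c4388 c4384 c4402 c754 c12834 (k2 c4408 c9237 k0)) (by decide +kernel)
def c12836 : PP 8 4 T 0x2020000000002000000100000500010045100010004051500000000000000000000002 := rS 0x25622a23fc5ce86314a7d1e71 (k8 c4387 c4388 c4384 c4402 c754 c12835 c4417 c594 (k4 c2118 c4337 c858 c4487 k0)) (by decide +kernel)
def c12837 : PP 8 4 T 0x400000001000000040005000000501000000504000081500500054400041080002212 := rS 0x5413d0a690c8b91633369ac623d (k8 c274 c12813 c493 c12831 c950 c720 c4469 c12827 (k4 c757 c10705 c1487 c2119 (k1 c787 k0))) (by decide +kernel)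
def c12838 : PP 8 4 T 0x4000000080000080000000110000202 := rS 0xd499 (k2 c1927 c10488 (k1 c581 k0)) (by decide +kernel)
def c12839 : PP 8 4 T 0x400000000000000000000000000400000000800000400000000000004000000002000 := rS 0xbc2c4c (k4 c509 c508 c1992 c8580 k0) (by decide +kernel)
def c12840 : PP 8 4 T 0x1001000000040000000000000004100000000000084000004000040000104404 := rS 0x328045a0c666d358c486c161c592b11331ec83138a24566654b8f4de354e94c76516484d4ea15d894fa0c23b914b0c2e98422b10001410270f0843a5f (k8 c577 c759 c12555 c4466 c353 c12637 c574 c4461 (k8 c1146 c9117 c12807 c753 c4477 c4385 c12806 c4404 (k8 c4463 c1291 c11222 c6994 c11524 c11219 c4401 c10573 (k8 c4405 c4403 c4290 c12783 c1099 c8928 c274 c6579 (k8 c491 c1185 c12700 c12832 c12833 c12796 c12802 c12836 (k8 c4334 c5290 c4487 c4362 c4420 c12838 c12813 c493 (k4 c12831 c950 c12839 c720 (k2 c12837 c12827 (k1 c1294 k0))))))))) (by decide +kernel)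
def c12841 : PP 8 4 T 0x1820000001000000040101040000490050014154100055501500005450000080042002 := rS 0xcda2ab116823486586416786d569935abd526d4f90c7143 (k8 c4393 c4470 c365 c4384 c4342 c4345 c4346 c4442 (k8 c4443 c4445 c686 c1523 c1103 c8294 c12819 c757 (k4 c12828 c5853 c2120 c4452 (k2 c2065 c6601 k0)))) (by decide +kernel)
def c12842 : PP 8 4 T 0x400000000001400000001000000040001011000501000000504000001501500054450041080002212 := rS 0x5413c5c85199a4da6b0c8c5863d (k8 c274 c12814 c12813 c12819 c493 c12831 c757 c950 (k4 c10705 c4469 c1487 c2119 (k1 c787 k0))) (by decide +kernel)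
def c12843 : PP 8 4 T 0x1120000001002000040100051000410010000104100041584000004050045100112402 := rS 0x31178cc2c4c36a08831360d0d445544a1cff0402820ca971ea743c1d2984c7651318a4fa474fa948638 (k8 c4470 c365 c4385 c4384 c4404 c1291 c4402 c754 (k8 c4405 c4403 c4401 c4290 c759 c4466 c12783 c274 (k8 c6579 c491 c12637 c574 c5056 c6629 c4410 c4314 (k8 c4406 c9288 c4393 c12809 c12841 c12796 c12842 c2460 (k4 c509 c508 c950 c1992 (k2 c5847 c4469 k0)))))) (by decide +kernel)
def c12844 : PP 8 4 T 0x1820000001000000040000040000400048000000020081500500005450000080002002 := rS 0x182c355a652b11 (k4 c4413 c102 c4443 c4445 (k2 c4958 c1660 (k1 c12829 k0))) (by decide +kernel)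
def c12845 : PP 8 4 T 0x400000001000000000008000000000008000000000000000000010000040080000000 := rS 0x622f19ab13045 (k4 c3137 c1127 c1128 c432 (k2 c1840 c2047 (k1 c4469 k0))) (by decide +kernel)
def c12846 : PP 8 4 T 0x400000001000000040005000000501000000104000081500500054400041080002212 := rS 0x646d35a08623d (k4 c274 c12813 c12837 c493 (k2 c12831 c12839 (k1 c950 k0))) (by decide +kernel)
def c12847 : PP 8 4 T 0x1000001001002000040000050000000008000000000000484000004010044100104402 := rS 0x3318aa932446030c83133310d027b1c1c00a374b8f4de9d0f074a63b28b24260c53a844aa54ac44ea655aa7e185d308456208 (k8 c12637 c1146 c9117 c12807 c753 c4477 c4384 c1658 (k8 c491 c1656 c4413 c102 c4385 c11222 c11524 c11219 (k8 c4463 c4401 c10573 c4405 c4403 c4290 c759 c4466 (k8 c12783 c8928 c274 c6579 c232 c574 c4480 c4470 (k8 c707 c1421 c365 c12843 c12844 c12796 c12845 c12846 (k4 c6869 c1933 c1660 c297 (k2 c433 c5962 k0))))))) (by decide +kernel)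
def c12848 : PP 8 4 T 0x400000001000000040005000000501000000084000081500500054400041080002212 := rS 0x8b0c215003d (k4 c274 c12846 c184 c1294 (k2 c724 c12827 k0)) (by decide +kernel)
def c12849 : PP 8 4 T 0x1001000000040000000000000000100000000000084000004000040000104404 := rS 0x3318aa932446010d86663d904fd0589d0e28755cc452a92529f44abb53c30185f59994ba3d378d53a53238eca2c909b90c21113878421d588000a08 (k8 c12637 c574 c4461 c1146 c759 c12555 c4466 c353 (k8 c9117 c12807 c12806 c4401 c10573 c4405 c4403 c4404 (k8 c4290 c12783 c1099 c8928 c274 c753 c491 c1185 (k8 c577 c4463 c4477 c11219 c6994 c11222 c1291 c4385 (k8 c12840 c102 c4413 c1125 c1656 c12847 c8226 c12833 (k8 c9531 c4483 c12796 c12802 c5056 c12845 c12838 c12848 (k4 c6869 c1933 c1660 c297 (k2 c433 c5962 k0)))))))) (by decide +kernel)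
def c12850 : PP 8 4 T 0x800002001000000040101000400511054000000100055580400450400005002000002 := rS 0x45c119a7fa2a10e6694db16308922a05067d4faa55e6b4caacf66d (k8 c4342 c704 c4445 c4443 c4442 c4346 c4345 c11480 (k8 c4379 c4306 c4380 c257 c2038 c4472 c4530 c4448 (k8 c844 c7478 c4130 c9368 c8255 c1481 c8784 c9372 (k1 c10585 k0)))) (by decide +kernel)
def c12851 : PP 8 4 T 0x1820002001000000040000000000000000000004000001500000010050000001000002 := rS 0x2101a6940a0d4ea55d9ac366d (k8 c4342 c686 c4442 c4847 c4385 c4330 c4306 c4380 (k4 c757 c12828 c4130 c6224 k0)) (by decide +kernel)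
def c12852 : PP 8 4 T 0x1820002001000000040100000400001054000000100055580500400450005080000002 := rS 0xc022860827b4c9b542a75290d7638 (k8 c4470 c4847 c365 c4385 c4330 c4329 c4342 c4443 (k4 c704 c1103 c12851 c257 (k2 c12850 c6869 k0))) (by decide +kernel)
def c12853 : PP 8 4 T 0x1120000001002000040100000000000004000104100041584000004050045100112402 := rS 0xb48b25c3aa75da5572384f91d4263149956608 (k8 c12637 c1185 c491 c4402 c754 c4329 c4404 c11480 (k8 c4470 c1201 c12825 c4847 c4330 c759 c6579 c4487 (k2 c12843 c4419 k0))) (by decide +kernel)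
def c12854 : PP 8 4 T 0x1020002001002000040100000000000004000000000041584000004050045100112402 := rS 0x2d6867e56aad471040a0cfaa752aec827b89a553e7550ae4706314944764729a752e650f0756608 (k8 c12637 c1185 c759 c4466 c491 c6579 c12783 c4290 (k8 c4404 c4403 c4405 c4402 c754 c4470 c1201 c4329 (k8 c10870 c11480 c12825 c12852 c12802 c12796 c4847 c4385 (k8 c4330 c4379 c4306 c4380 c12853 c4337 c4415 c4338 (k4 c7315 c4392 c1434 c12816 k0))))) (by decide +kernel)
def c12855 : PP 8 4 T 0x1400000001000000000005440014501054000504001001500000050401010000000002 := rS 0x9b8caf0886b57a645c33 (k8 c950 c4469 c1840 c5815 c493 c6161 c12772 c4364 (k2 c2018 c4488 k0)) (by decide +kernel)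
def c12856 : PP 8 4 T 0x1420000001002000000105000000001054000514000041400000014200040080115202 := rS 0x10834aa49e192415608cb88ab17e4d170ccda6b558c4ba3d298eca22953a9486bb (k8 c4847 c365 c4385 c4330 c4402 c4405 c4403 c4290 (k8 c274 c753 c12813 c12822 c493 c12831 c950 c4469 (k8 c1992 c1241 c12855 c4338 c2026 c5056 c4406 c9269 (k4 c12819 c453 c8354 c757 (k2 c12810 c9576 k0))))) (by decide +kernel)
def c12857 : PP 8 4 T 0x1002000000008000000004054000000100051500000014000144000111200 := rS 0xc9d9107282a8c371022c5d6653 (k8 c4290 c1185 c4362 c1209 c4487 c424 c4337 c4520 (k4 c4481 c1088 c1087 c2038 (k1 c9124 k0))) (by decide +kernel)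
def c12858 : PP 8 4 T 0x1020002001002000040000000000000004000000000040484000004010045100104402 := rS 0x1566b349b534ad4c9dd12af2246580c3069ec83134a90ceabb50accca972e8b53a1e0e984a63b28b2426115898c5281419f53e475c8e06e08 (k8 c12637 c232 c4470 c1201 c4404 c11480 c4379 c4306 (k8 c4380 c4402 c754 c1146 c9117 c4401 c10573 c4405 (k8 c4403 c4290 c12807 c759 c4466 c12783 c392 c753 (k8 c6579 c491 c1185 c4329 c4847 c10870 c365 c12825 (k8 c12852 c12796 c12802 c12854 c12857 c12856 c4450 c6869 (k8 c1715 c1985 c1893 c1933 c1987 c4488 c12792 c845 (k2 c581 c1973 (k1 c12794 k0)))))))) (by decide +kernel)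
def c12859 : PP 8 4 T 0x800002001000000040101000400411054000000100055580440450400005000000002 := rS 0x1090834865028336aa4d6a5 (k8 c4444 c4442 c4345 c4342 c4306 c4380 c12850 c757 (k2 c12810 c4130 (k1 c4321 k0))) (by decide +kernel)
def c12860 : PP 8 4 T 0x1000000000000400000800000800000000000000000050000000800000000 := rS 0x8c915344c (k4 c773 c852 c379 c4448 (k1 c4472 k0)) (by decide +kernel)
def c12861 : PP 8 4 T 0x1800002001000000040100000400011055900000100055180500400400001880000002 := rS 0xd2bd3b91232c053904864f5fa6462a92f89d0283 (k8 c4306 c4380 c353 c577 c4345 c4441 c4443 c1515 (k8 c1489 c276 c1103 c12860 c12859 c4450 c6869 c1893 (k2 c1170 c845 (k1 c12641 k0)))) (by decide +kernel)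
def c12862 : PP 8 4 T 0x1500000001002000040001000000511054000504000041500000054050045080112212 := rS 0xa1ad544558b410ca531d944c6294f91d7238 (k8 c4470 c1201 c4404 c11480 c4402 c754 c4405 c4403 (k8 c4290 c491 c5056 c4487 c4406 c9288 c4419 c4393 (k1 c12842 k0))) (by decide +kernel)
def c12863 : PP 8 4 T 0x1400002001002000040001040000411054800004000041500000054050045080112212 := rS 0x16b433f2b556a38829566652991c7651318a50283 (k8 c4306 c4380 c4402 c754 c4405 c4403 c4404 c4290 (k8 c491 c1185 c1429 c12862 c4337 c4415 c4338 c10398 (k2 c4392 c1434 (k1 c12816 k0)))) (by decide +kernel)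
def c12864 : PP 8 4 T 0x400002001000000000000080000001000000004000000480000050000000800000002 := rS 0x294d66d189110b19 (k8 c4449 c1442 c4472 c297 c12792 c493 c1302 c9162 k0) (by decide +kernel)
def c12865 : PP 8 4 T 0x1400002001002000040001040000411044800004000040400000054010045080114212 := rS 0x8534aa432482ac119711562fc9a2e0d8ccda6b558c5860d1e8b4a63b28a05067d4a9d592135c8e06e9f2398c52612e99566a5 (k8 c1429 c1185 c491 c753 c12807 c4402 c754 c4404 (k8 c11480 c232 c4470 c1201 c4401 c10573 c12305 c12825 (k8 c4379 c4306 c4380 c4405 c4403 c4290 c392 c274 (k8 c12863 c12857 c12813 c12822 c493 c12831 c950 c686 (k8 c4469 c1992 c1241 c12855 c4338 c2026 c5056 c4406 (k4 c9269 c12819 c8354 c757 (k2 c6224 c2119 k0))))))) (by decide +kernel)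
def c12866 : PP 8 4 T 0x1000000000000000000800000800000000000000000050000000800000000 := rS 0x17ca9 (k2 c191 c12860 (k1 c1515 k0)) (by decide +kernel)
def c12867 : PP 8 4 T 0x1000000001000000040000000000000004100000000040014000004000040000104404 := rS 0x218d26d4d2b5327745a255e448cb014ebb219ec83134aa84ea2247434beb332a5cba9d298eca2c90998c52fc4f89522477218422b1000144eb91c0dc10350f0843a5a (k8 c4476 c759 c12555 c4466 c1099 c12637 c232 c4470 (k8 c1201 c353 c574 c4461 c1146 c9117 c12807 c12806 (k8 c4404 c12700 c12180 c11480 c12849 c4402 c754 c4401 (k8 c10573 c4405 c4403 c4290 c12783 c753 c6579 c491 (k8 c1185 c577 c12858 c4486 c4467 c12305 c770 c12825 (k8 c12861 c12796 c12802 c12838 c12864 c12866 c12865 c4450 (k8 c6869 c1715 c1985 c1713 c1893 c1933 c1987 c4488 (k4 c12792 c845 c11533 c10041 k0)))))))) (by decide +kernel)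
def c12868 : PP 8 4 T 0x1820002001000000040005000000000000000000000081580500005450000080000002 := rS 0x1920a2cf6993690d7638 (k8 c4470 c4847 c365 c4342 c4443 c704 c720 c1103 (k2 c12827 c12851 k0)) (by decide +kernel)
def c12869 : PP 8 4 T 0x1020002001000000040005000000001000000000000081584500004450041080000212 := rS 0x460889b25aa28abf429a49a990c8b9161b199b4d60d189ec831321aed4aa71ea050638 (k8 c4470 c4306 c4380 c274 c4330 c4385 c4847 c365 (k8 c12868 c12796 c12802 c12813 c12846 c493 c12831 c950 (k8 c686 c720 c4469 c12827 c1840 c1992 c757 c6224 (k8 c1241 c9368 c2119 c1322 c867 c7248 c4488 c4364 k0)))) (by decide +kernel)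
def c12870 : PP 8 4 T 0x800002001000000000005000000000000800000000081580500005400000880000002 := rS 0x1090834a9c32412193d167b52a64d631549b50283 (k8 c4306 c4380 c4342 c4345 c4441 c4442 c4443 c4444 (k8 c704 c720 c1489 c276 c1103 c12827 c12866 c757 (k2 c12810 c4130 (k1 c4321 k0)))) (by decide +kernel)
def c12871 : PP 8 4 T 0x1000000001000000040000000000000004100000000000014000004000040000104404 := rS 0x1182226c96a8a2afd0a6926a64322e4586c660d36a94d63153aed56433d90626224743582c38b25622662fa5cba3d4e94c76517218422b10009d02837e09522051c0dc10350f0843a5a (k8 c4476 c759 c12555 c4466 c1099 c12637 c232 c4470 (k8 c574 c12700 c12180 c12849 c4306 c4380 c353 c4461 (k8 c1146 c9117 c12807 c12806 c4405 c4403 c4290 c12783 (k8 c274 c753 c6579 c577 c12867 c4334 c5290 c4487 (k8 c4362 c4420 c12869 c4486 c4467 c12870 c12796 c12802 (k8 c12838 c12822 c12864 c12866 c12813 c661 c1429 c12831 (k8 c12846 c950 c686 c720 c4469 c12827 c1840 c1992 (k8 c757 c6224 c1241 c9368 c2119 c1322 c867 c7248 (k2 c4488 c4364 k0)))))))))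 (by decide +kernel)
def c12872 : PP 8 4 T 0x1820002001000000040001000000000008000000000001581500005450000080000002 := rS 0x1861904f6993690d7638 (k8 c4470 c4847 c365 c4342 c4443 c704 c1103 c1127 (k2 c12851 c12819 k0)) (by decide +kernel)
def c12873 : PP 8 4 T 0x400000000001020002001002000040000001000001008000000000041484000004010041080114212 := rS 0xca26ab1502e57a146669369ac3248558c5860d3d90626c121aed4aa7329747a531d9459213318a502833eae47037449560911 (k8 c4413 c5056 c4406 c4314 c232 c4470 c1201 c4379 (k8 c4306 c4380 c4402 c754 c4401 c10573 c4405 c4403 (k8 c4290 c274 c753 c491 c4330 c4385 c4847 c365 (k8 c12809 c12872 c12796 c12802 c12842 c12845 c12813 c12822 (k8 c9269 c12819 c493 c12831 c757 c950 c10705 c5815 (k4 c4469 c2119 c12794 c1992 (k2 c8354 c2026 k0))))))) (by decide +kernel)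
def c12874 : PP 8 4 T 0x800002001000000000000000000000008800000000001581500005400000880000002 := rS 0x42420d21953b0586412193cf6ab52a64d631549b50283 (k8 c4306 c4380 c4342 c4345 c4441 c4442 c4443 c4444 (k8 c4445 c704 c1489 c276 c1103 c1127 c1660 c12866 (k4 c12819 c757 c12810 c4130 (k1 c4321 k0)))) (by decide +kernel)
def c12875 : PP 8 4 T 0x1000002001002000040000000000000009100000000040084000004000040110104212 := rS 0xca26ab0962e45aa06708a2a14da6b34920621906b054aa75d90d867b20c4c448e86d0d445543c10be652e8f53a61298eca2c909845626314a05067d5c8e06b1150ad53e251b91c4e1e (k8 c4466 c353 c4404 c232 c12180 c11480 c1658 c1739 (k8 c4413 c1099 c4470 c1201 c4379 c4306 c4380 c4402 (k8 c754 c1146 c9117 c4401 c10573 c4405 c4403 c4290 (k8 c12807 c12783 c274 c753 c491 c577 c5056 c4410 (k8 c4406 c9288 c4393 c12873 c4486 c4467 c12874 c12796 (k8 c12802 c12845 c12838 c12864 c12866 c1429 c12809 c12842 (k8 c12819 c12813 c9269 c757 c493 c12831 c10110 c9368 (k8 c4479 c950 c2119 c4322 c4469 c1322 c5842 c1992 (k2 c4599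 c2026 k0))))))))) (by decide +kernel)
def c12876 : PP 8 4 T 0x1820002001000000040000000000000008000000000081580500005450000080000002 := rS 0xcb058641459ed56993690d7638 (k8 c4470 c4847 c365 c4342 c4443 c4445 c704 c720 (k4 c1103 c1127 c1660 c12827 (k1 c12851 k0))) (by decide +kernel)
def c12877 : PP 8 4 T 0x1020002001000000040000000000001008000000000081584500004450041080000212 := rS 0x66315526488c06190626435d8f47095 (k8 c102 c4470 c274 c4847 c365 c12876 c12796 c12845 (k4 c12869 c6869 c1933 c1660 (k2 c297 c433 (k1 c5962 k0)))) (by decide +kernel)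
def c12878 : PP 8 4 T 0x800002001000000000000000000000008800000000081580500005400000880000002 := rS 0x60b0d5699 (k4 c4443 c4445 c1127 c1660 (k1 c12870 k0)) (by decide +kernel)
def c12879 : PP 8 4 T 0x1400000001000000040005000000501000000504000081500500054450041080000212 := rS 0x112304b4daa28abf429a49a990c8b9161b199b4d60d18aac7a38 (k8 c4470 c274 c12822 c12813 c12846 c661 c12831 c950 (k8 c686 c720 c4469 c12827 c1840 c1992 c757 c6224 (k8 c1241 c9368 c2119 c867 c1322 c4488 c7248 c4364 k0))) (by decide +kernel)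
def c12880 : PP 8 4 T 0x1000000001000000040000000000000000100000000000014000004000040000104404 := rS 0x66315526488c052a9d7643619ec83131123a1a664aa484a5f488dcba351ea74a63b28b90c211588000a0813878421d40a0df85a (k8 c4476 c12849 c4306 c4380 c759 c12555 c4466 c353 (k8 c12637 c574 c4461 c1146 c9117 c12807 c12806 c4405 (k8 c4403 c4290 c12783 c274 c1099 c753 c232 c12700 (k8 c577 c12180 c12871 c102 c12875 c12877 c4486 c4467 (k8 c12878 c12796 c12802 c12845 c12838 c12864 c12866 c1429 (k4 c12879 c6869 c1933 c1660 (k2 c297 c433 (k1 c5962 k0)))))))) (by decide +kernel)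
def c12881 : PP 8 4 T 0x2020000000002000000100000500000045100010004051500000000000000000000002 := rS 0xa1 (k2 c4329 c12836 k0) (by decide +kernel)
def c12882 : PP 8 4 T 0x2000000000000000000100000500014060100000104055500000000000000000000000 := rS 0x410e671 (k4 c4387 c1616 c5073 c9237 k0) (by decide +kernel)
def c12883 : PP 8 4 T 0x2000040000005000000000000000000000400000005110042000114200 := rS 0x742a414920d598dcde471db1d9213 (k8 c4401 c10573 c4289 c4403 c4404 c8928 c232 c1185 (k4 c1367 c282 c10878 c10113 (k2 c4559 c1686 k0))) (by decide +kernel)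
def c12884 : PP 8 4 T 0x2200002000000000040000000400010051100000004054400000400000005000000000 := rS 0xfcb8519c56a9f (k4 c11480 c4389 c4387 c4337 (k2 c11255 c10398 (k1 c7096 k0))) (by decide +kernel)
def c12885 : PP 8 4 T 0x2000002000002000040100000500000045100000004051504000000000005000000002 := rS 0xb888a54eaa111434c6293ea3d3e47 (k8 c4404 c11480 c4388 c4379 c4402 c754 c12881 c4467 (k4 c770 c10497 c12882 c12884 (k2 c11613 c6781 k0))) (by decide +kernel)
def c12886 : PP 8 4 T 0x2820000001000000040005000000000000000510000081480502005400000080014002 := rS 0x43a242c693b93432442090d161b3dc263299358c5526d2e8e54ea5 (k8 c4385 c4330 c4348 c753 c4342 c4345 c4441 c4442 (k8 c4443 c8237 c12516 c704 c686 c720 c276 c1103 (k8 c4472 c12827 c378 c1090 c757 c4465 c12788 c10171 (k1 c8427 k0)))) (by decide +kernel)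
def c12887 : PP 8 4 T 0x2020000001000000040005000000000000100510000080084502004400041110004212 := rS 0x1509a429dcd2990c8b9161b199b4d60d18aac867b20c4d4aa72f9747a6f1aa74c2115889c3c8f (k8 c4388 c4466 c353 c1146 c9117 c12807 c12783 c1099 (k8 c8928 c274 c753 c577 c4330 c4385 c12886 c12796 (k8 c12802 c12838 c12822 c12813 c12846 c661 c12831 c950 (k8 c686 c720 c4469 c12827 c1840 c757 c9124 c6224 (k2 c10618 c2119 (k1 c866 k0)))))) (by decide +kernel)
def c12888 : PP 8 4 T 0x800002001000000000000000000400000000000000001500040000000000001000002 := rS 0x8484205066d549ad4a69 (k8 c757 c4444 c4442 c4345 c4342 c4306 c4380 c12810 (k2 c4130 c4321 k0)) (by decide +kernel)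
def c12889 : PP 8 4 T 0x400000000000800002001000000000005004000080000000000000081580500005500000880000002 := rS 0x315a245669328aa60c904864f67a2cf69918aa4daa1 (k8 c896 c4342 c4345 c4441 c4443 c704 c720 c1523 (k8 c1489 c276 c1103 c12827 c12888 c4453 c773 c2067 (k4 c378 c381 c12768 c2115 k0))) (by decide +kernel)
def c12890 : PP 8 4 T 0x2000002001002000040000000000000004100000000000084000004000041100004402 := rS 0x4d5311153194d214ee694c8645c8b0d8ccdaa5358c556433d906262286b0586a28b2e4907550a5623053317d2205598dcca972e9bd3a61299458ec909845620840a0cfa8f1cadd6b431d8d47a9f2389c3c1d (k8 c759 c4466 c353 c4404 c11480 c274 c1099 c4403 (k8 c8226 c4389 c4353 c4348 c4388 c4379 c4306 c4380 (k8 c12637 c1146 c9117 c4401 c10573 c4289 c4405 c4290 (k8 c12807 c12783 c8928 c753 c6579 c491 c232 c1185 (k8 c574 c12700 c577 c12885 c4310 c4334 c5290 c896 (k8 c593 c4559 c4548 c4487 c2125 c4362 c4420 c12887 (k8 c4467 c12889 c12796 c12802 c12838 c12822 c12813 c661 (k8 c1470 c12831 c950 c686 c720 c4469 c12827 c1840 (k8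 c757 c9124 c10110 c10618 c4448 c866 c4472 c2119 (k2 c378 c773 k0)))))))))) (by decide +kernel)
def c12891 : PP 8 4 T 0x1000000000008000000000008000000000000004000000000040080000202 := rS 0x1062698 (k4 c1127 c4443 c12796 c12845 k0) (by decide +kernel)
def c12892 : PP 8 4 T 0x100001002000000006000400000008000000100000080000001000000110000202 := rS 0x2290cf630199ace4aa4ca2482d18bb153a1e28a54cd11 (k8 c4413 c5056 c102 c4405 c4466 c12783 c195 c4420 (k8 c1710 c1852 c1985 c1933 c1660 c4481 c660 c433 (k4 c5962 c1230 c10488 c297 (k1 c5995 k0)))) (by decide +kernel)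
def c12893 : PP 8 4 T 0x1000000040000000000000000100000000000014000004000040000104404 := rS 0x9aa6222a6329a429dcd2990c8b9161b199b54a6b18aac867b20c4d442286b05866682920eab950c452a924f89686b55b8e51f143ea0d02fc6494476132394dc8614e9bc223d1a89cba973287800210297c3ab3588dc105a (k8 c4476 c12637 c232 c1146 c1185 c759 c577 c574 (k8 c12555 c4461 c4466 c491 c6579 c753 c353 c1099 (k8 c274 c9117 c8928 c12783 c12807 c12806 c4290 c4404 (k8 c4401 c4403 c4405 c10573 c12849 c4380 c4306 c4379 (k8 c12880 c4388 c4348 c4353 c4389 c8226 c12883 c11480 (k8 c12890 c102 c4413 c1739 c1125 c1656 c10839 c9531 (k8 c5056 c12891 c12892 c12887 c4467 c4489 c12889 c12796 (k8 c12802 c12838 c12822 c12813 c661 c1470 c12831 c950 (k8 c686 c720 c4469 c12827 c1840 c757 c9124 c10110 (k4 c10618 c4448 c866 c4472 (k2 c2119 c378 (k1 c773 k0)))))))))))) (by decide +kernel)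
def c12894 : PP 8 4 T 0x20820000000000000040000100000001001500000000000000000000020400000000000 := rS 0xbf13a955299 (k4 c4443 c4345 c4385 c4324 (k2 c4369 c10290 k0)) (by decide +kernel)
def c12895 : PP 8 4 T 0x1820000001000000040000000000001001100000000000080000010000401640004400 := rS 0x41a04ee172590a32451997c0eb108a3d7a341b8e44e08 (k8 c12637 c4324 c360 c232 c4470 c3054 c1305 c2305 (k8 c1146 c30 c577 c4340 c6169 c12894 c4472 c7803 (k4 c1951 c1887 c12056 c4570 (k1 c12361 k0)))) (by decide +kernel)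
def c12896 : PP 8 4 T 0x1000000040005000054045500000000000004000005000000000000008 := rS 0x17295 (k2 c11624 c11342 (k1 c2125 k0)) (by decide +kernel)
def c12897 : PP 8 4 T 0x1000001000040000000000000004100000000040084000004020040000004408 := rS 0xc93f9f4c6543991e2e3c32a440ab34ba853eb538a3d6ea3639b818278617422200408cc25f (k8 c577 c879 c2833 c12637 c838 c2305 c12418 c4477 (k8 c4324 c4463 c1059 c3417 c12403 c3053 c1305 c1304 (k8 c7883 c4384 c11524 c2933 c1185 c574 c12700 c579 (k8 c12896 c4416 c8078 c1615 c234 c7047 c1291 c10049 (k2 c1727 c12405 k0))))) (by decide +kernel)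
def c12898 : PP 8 4 T 0x1000001000040000000000000000100000000040014000004020040000004408 := rS 0xc824994fe2c1e98e229251b1cdc1f062844f0c2e844400811984be5a (k8 c4476 c577 c879 c2833 c12637 c838 c2305 c12418 (k8 c4477 c4324 c11524 c4463 c223 c1059 c3417 c12403 (k8 c12897 c4413 c1609 c1654 c11197 c6629 c12368 c368 (k2 c11710 c507 k0)))) (by decide +kernel)
def c12899 : PP 8 4 T 0x2000001000001000040000000000000005100000000041184000005010040000002008 := rS 0x3e9fd92a28898c92b94a88d2ea113a7e185f47add6a65 (k8 c579 c4389 c4353 c4388 c577 c4477 c4384 c4324 (k8 c11524 c2933 c2833 c11624 c7514 c12404 c842 c11255 (k4 c2125 c507 c6629 c1354 (k1 c12405 k0)))) (by decide +kernel)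
def c12900 : PP 8 4 T 0x1000001000040000000000000004100000000040084000004010040000004408 := rS 0x325467f3e98ca82d3991e2e3b1e19522055983142718a0dc722786174220811984be20 (k8 c838 c577 c879 c2833 c12637 c2305 c12418 c4477 (k8 c4324 c360 c232 c4470 c4387 c11524 c4463 c1185 (k8 c574 c12700 c579 c12899 c89 c4416 c8078 c1615 (k8 c7859 c234 c7047 c1291 c10049 c9384 c1727 c5857 k0)))) (by decide +kernel)
def c12901 : PP 8 4 T 0x1000001000040000000000000000100000000040014000004000040000004408 := rS 0x5524994fe2c1e98e22928a0d52205598dc4a1f4b8e44f0c2e84410233097c405a (k8 c4476 c838 c577 c879 c2833 c12637 c2305 c12418 (k8 c4477 c4324 c360 c2933 c223 c224 c232 c1185 (k8 c574 c12700 c12898 c4470 c12900 c4413 c1609 c1654 (k4 c11197 c6629 c12368 c12404 (k2 c247 c12415 k0))))) (by decide +kernel)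
def c12902 : PP 8 4 T 0x1000000000000000000001400100000502014000004000000004000040002200 := rS 0x84 (k2 c8965 c602 k0) (by decide +kernel)
def c12903 : PP 8 4 T 0x2820001001000000040000000000401000000000004000004000010000000040014200 := rS 0x20d02780b92c84458ca65523303ac41871 (k8 c4387 c4463 c1146 c30 c4340 c4345 c4443 c8237 (k8 c6169 c4472 c7803 c1951 c237 c12056 c4570 c12902 k0)) (by decide +kernel)
def c12904 : PP 8 4 T 0x2200001000000000000100000400010051100010004055500000000000000000000000 := rS 0x1f970a34fc30e2b5 (k8 c4389 c4387 c4477 c4384 c4337 c11255 c5857 c7096 k0) (by decide +kernel)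
def c12905 : PP 8 4 T 0x1000002000040100000400000055100010004041180000001150040000010000 := rS 0x1d608488b2e622635097d6e3b38ad62865 (k8 c579 c4470 c4389 c4387 c4403 c7094 c577 c11524 (k8 c842 c12904 c6781 c4487 c10839 c4478 c4417 c10795 k0)) (by decide +kernel)
def c12906 : PP 8 4 T 0x1000000000000100000400050020000010010055500000000000000000000000 := rS 0x1f8e717 (k4 c4418 c1616 c5857 c10049 k0) (by decide +kernel)
def c12907 : PP 8 4 T 0x2420000000000000000000000001401101100500000509500000000000000000000000 := rS 0x1b6129a52aed1ebd (k8 c4354 c4388 c4390 c4385 c11945 c9576 c2867 c4479 k0) (by decide +kernel)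
def c12908 : PP 8 4 T 0x400000001000000040000000002000000000000000108400012000000000400002000 := rS 0x1b508af273289745 (k8 c4398 c1321 c4599 c4474 c8140 c1487 c964 c10110 k0) (by decide +kernel)
def c12909 : PP 8 4 T 0x2420000000000000000000000001401101100400000509500000000008000000002000 := rS 0xc1b5009a52aed1ebd (k8 c4354 c4388 c4390 c4385 c11945 c12907 c2867 c1294 (k1 c255 k0)) (by decide +kernel)
def c12910 : PP 8 4 T 0x1000000000001000000000000040004082040000500055401000000000001 := rS 0x3091218 (k4 c7462 c680 c12827 c1088 k0) (by decide +kernel)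
def c12911 : PP 8 4 T 0x1001000000040000000000000001100000000048014502015410000000004208 := rS 0x40a14ee19369e5827b4c2a5568b419ac9a43348ca26011787d3a1b188314ea537aece3141b8e44f0c2e84446612f880e45a (k8 c4476 c843 c838 c577 c879 c2833 c2305 c12418 (k8 c4477 c4324 c360 c232 c4470 c4387 c4390 c8928 (k8 c4385 c11219 c4463 c11577 c2396 c2971 c223 c8877 (k8 c28 c12903 c4469 c823 c2151 c376 c6117 c9038 (k8 c1769 c1613 c12908 c12909 c1131 c1932 c1928 c12910 (k4 c255 c7751 c10110 c1294 (k1 c9322 k0))))))) (by decide +kernel)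
def c12912 : PP 8 4 T 0x2000000001000000000000000000500000100000000000080000020000000000000208 := rS 0x4caa62469849b4d69b5f9d83243038bd3abb (k8 c4390 c2971 c8877 c30 c91 c1873 c1063 c3059 (k8 c1848 c6117 c959 c4438 c844 c4479 c4345 c4443 (k1 c10851 k0))) (by decide +kernel)
def c12913 : PP 8 4 T 0x1001002000040000000000000005100000000040014000005010040000004208 := rS 0xc44851a5166294ba853e531d8b4a2c73e91c18c9099bd1e7120c506e3913a96185d0888046a73097cca5a (k8 c4476 c579 c577 c879 c11219 c2833 c838 c2305 (k8 c12418 c4477 c4385 c4324 c360 c232 c4470 c12912 (k8 c4387 c4388 c8928 c4401 c10573 c4463 c4404 c1291 (k8 c4289 c4405 c4286 c4403 c4290 c4384 c11524 c2933 (k4 c2834 c1185 c12905 c858 (k2 c4200 c12906 (k1 c12911 k0))))))) (by decide +kernel)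
def c12914 : PP 8 4 T 0x1001000000040000000000000004100000000040014000004010040000004408 := rS 0xa2829fcc65439c5c78654881566a13e91c18c909b90e3141b8e44f0c2e84410233097c405a (k8 c4476 c838 c577 c879 c2833 c12637 c2305 c12418 (k8 c4477 c4324 c360 c232 c4470 c4387 c12901 c4401 (k8 c10573 c4463 c4404 c1291 c11524 c1185 c574 c12700 (k8 c579 c12913 c4416 c1615 c234 c7047 c10049 c4406 (k2 c5857 c5380 k0))))) (by decide +kernel)
def c12915 : PP 8 4 T 0x1001000000040000000000000000100000000040014000004010040000004408 := rS 0x2050a77549b6329a689ecc8742ac10fe485c8f4c7114ab0d248335ab49a43348ca26415aa3e286f59ac45e250fa752e1b188314ea5298b4a2c909adc76e41c89e185d0888cc25f100dc105a (k8 c4476 c12637 c232 c838 c577 c879 c2833 c2305 (k8 c12418 c4477 c4324 c360 c12901 c4403 c7094 c4401 (k8 c10573 c4405 c4286 c4290 c4385 c11219 c4463 c11577 (k8 c2396 c2933 c2971 c223 c224 c8877 c1146 c1185 (k8 c8928 c4470 c4388 c4389 c12912 c12903 c4469 c823 (k8 c2151 c376 c942 c6117 c9038 c12914 c1128 c102 (k8 c4413 c1609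 c1654 c1125 c10839 c6629 c8735 c4406 (k8 c9531 c1656 c2690 c6715 c6792 c4448 c2865 c866 (k4 c1888 c10110 c7000 c9530 k0))))))))) (by decide +kernel)
def c12916 : PP 8 4 T 0x2400001001000000040000000004000001100004008048080502005400000000004208 := rS 0x421006d42b057e9854a0cd64d219a46401178953a1b188304e4152c30ba111008d4e612fa2ce494 (k8 c842 c843 c3708 c577 c879 c11219 c2833 c838 (k8 c2305 c12418 c4477 c4385 c12912 c4324 c4463 c11577 (k8 c2396 c2971 c224 c8877 c28 c4469 c823 c2151 (k8 c376 c6117 c9038 c12908 c12909 c1133 c1932 c1499 (k4 c12910 c9530 c4479 c4439 k0))))) (by decide +kernel)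
def c12917 : PP 8 4 T 0x2000001001000000040040000000000001100004008048084500405400140040004208 := rS 0x109a0458cabc6712242ad5a94519d60ab3178a53a3113a7c82a586174222011a9cc25f (k8 c577 c879 c11219 c2833 c838 c2305 c12418 c4477 (k8 c4385 c12912 c4384 c4324 c11577 c2971 c2834 c8877 (k8 c1185 c4407 c1689 c2840 c842 c2841 c10126 c4200 (k8 c12916 c4340 c4346 c8237 c6169 c2112 c4472 c340 k0)))) (by decide +kernel)
def c12918 : PP 8 4 T 0x1000000000000100000400010020400010010055500000000000000000000000 := rS 0xa3 (k2 c858 c12906 k0) (by decide +kernel)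
def c12919 : PP 8 4 T 0x420000001000000040000000000400000000400001501500040000008000400002000 := rS 0x4ba2aa103080ca949a27 (k8 c4324 c376 c4385 c255 c4479 c1294 c9576 c9368 (k2 c1321 c4474 k0)) (by decide +kernel)
def c12920 : PP 8 4 T 0x1000000000010000000000000010005080000000500055400000002000000 := rS 0x22d82c3 (k4 c1088 c1621 c1770 c12827 k0) (by decide +kernel)
def c12921 : PP 8 4 T 0x400001001000000040100000000000014000014008044480500015400000000004208 := rS 0x45e22c251410fec139b148a7944a6c306c419ac9a43348c8022f4ea5c363153a844f0c2e88cc24f060444065 (k8 c579 c838 c2305 c4463 c3462 c879 c2833 c12418 (k8 c4477 c4324 c11524 c11219 c11577 c2396 c2933 c2971 (k8 c8877 c28 c4469 c823 c2151 c376 c6117 c9038 (k8 c12919 c7462 c865 c680 c601 c257 c7718 c12920 (k8 c6869 c1460 c8784 c5857 c4503 c4337 c4362 c4487 k0))))) (by decide +kernel)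
def c12922 : PP 8 4 T 0x2820000001000000040000000000001000400000008000000000010000000040014608 := rS 0x10278259088b194caa466b1 (k8 c1146 c4340 c4345 c4443 c8237 c6169 c4472 c7803 (k2 c237 c12056 (k1 c8987 k0))) (by decide +kernel)
def c12923 : PP 8 4 T 0x2400001001000000040140000000000005500004018040084500405400140040004208 := rS 0x9531acd427d061054b0c2e844402353984be65 (k8 c579 c577 c879 c11219 c2833 c838 c2305 c12418 (k8 c4477 c4385 c12912 c4463 c1291 c11524 c1185 c12917 (k2 c12918 c12921 k0))) (by decide +kernel)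
def c12924 : PP 8 4 T 0x2000001001000000040140000000000004500004018040084500404400140040004408 := rS 0x414fe632a1ce2e3c32a440ab3509f4191320a954f0c2e88cc25f088813a08 (k8 c12637 c2971 c838 c2305 c577 c879 c2833 c12418 (k8 c4477 c11219 c4385 c12912 c12922 c4463 c1291 c11524 (k8 c1185 c574 c12700 c579 c12923 c4416 c1615 c234 (k4 c7047 c10049 c4406 c8784 k0)))) (by decide +kernel)
def c12925 : PP 8 4 T 0x2000001001000000040000000000000000100000000040014000004000040000004408 := rS 0x321520a3d31c458ac3493048a183620cd6ad2690cd23289904022f0fa7436315389d4b0c2e984be53238ec5a5163b2426e438a3c467b279b8680c08880105a (k8 c4476 c12637 c838 c2305 c4463 c12915 c1059 c3462 (k8 c3241 c2833 c1305 c1304 c12901 c4401 c10573 c4289 (k8 c4405 c4286 c4403 c4404 c4290 c577 c879 c12418 (k8 c4477 c4385 c4324 c11219 c11577 c2396 c2971 c223 (k8 c8877 c28 c12912 c12922 c4469 c823 c2151 c376 (k8 c942 c6117 c9038 c12919 c7462 c257 c6869 c12924 (k8 c1128 c4530 c4413 c1609 c1654 c4503 c12819 c4478 (k1 c1646 k0)))))))) (by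 decide +kernel)
def c12926 : PP 8 4 T 0x1820000001000000040000140000401001500000000000080040000000401640004400 := rS 0x4d90132a5 (k4 c4385 c4443 c12895 c1848 (k1 c7048 k0)) (by decide +kernel)
def c12927 : PP 8 4 T 0x400001001000000040100000000000004400014018040480500005400000000004208 := rS 0x250cab35098ce6c5229e53a8920860d8832689cd6433486c642f27a9e180c2e8444661008c44007 (k8 c30 c838 c11577 c28 c879 c2833 c2305 c12418 (k8 c4463 c4477 c11219 c3462 c8877 c4469 c2396 c823 (k8 c2151 c6117 c4324 c376 c9038 c12919 c7462 c1873 (k8 c680 c2971 c601 c257 c4530 c12920 c843 c11524 (k4 c1185 c579 c12921 c12918 k0))))) (by decide +kernel)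
def c12928 : PP 8 4 T 0x400001001000000040100000010000000400014018040480500005400040000004208 := rS 0xc854452bd8711491040ec162914306c419344e6b3486c9ea786030ba11119840243190c4402f (k8 c8877 c838 c11577 c4469 c2151 c28 c879 c2833 (k8 c2305 c12418 c4463 c4477 c11219 c3462 c2396 c823 (k8 c6117 c4324 c376 c9038 c12919 c7462 c257 c4530 (k8 c6869 c30 c1873 c12927 c4413 c1128 c1778 c12827 (k2 c12819 c5443 (k1 c1646 k0)))))) (by decide +kernel)
def c12929 : PP 8 4 T 0x1001000000040000000000000000100000000040014000004000040000004408 := rS 0x414fe653195126738b8f15a3289c55764f3d9b97a8f388d1927d288b476132394dc89102acc5e250fa752e3106430ba111002046a75097cc25a (k8 c4476 c879 c577 c11524 c11219 c2833 c12637 c838 (k8 c2305 c12418 c4477 c4463 c11577 c2933 c2971 c223 (k8 c224 c8877 c1185 c574 c12700 c12901 c4290 c4404 (k8 c4401 c4403 c4286 c4405 c1291 c10573 c12915 c1304 (k8 c1305 c3054 c1059 c3241 c3462 c3277 c12925 c12926 (k8 c4469 c942 c12928 c4416 c1615 c1654 c234 c7047 (k4 c7044 c10049 c4406 c8784 k0)))))))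 (by decide +kernel)
def c12930 : PP 8 4 T 0x1001000000040005011000000000100000000000086401005410000040044208 := rS 0x1e8a29b0c1b1066b2690cd23227c4d167c2091a286f008bd3a1b18a9d4ac7062dc72278617422233097c4037 (k8 c232 c838 c577 c879 c2833 c2305 c12418 c4477 (k8 c4324 c360 c7094 c4463 c1448 c4385 c11219 c11577 (k8 c2396 c2971 c8877 c28 c8928 c4470 c2113 c12912 (k8 c1602 c3703 c12903 c3463 c4469 c823 c2151 c376 (k8 c6117 c9038 c12919 c7462 c2865 c1877 c12827 c705 k0))))) (by decide +kernel)
def c12931 : PP 8 4 T 0x2020000001000000040004000000400008500000008000080400005400200040046408 := rS 0x28b4536183620cd64d219a465132097c022f30a7436312e84440081189d4a4f (k8 c3462 c4385 c4324 c2833 c12637 c838 c2305 c12418 (k8 c11577 c2396 c2971 c879 c8877 c28 c577 c12912 (k8 c12922 c4469 c823 c2151 c376 c6117 c9038 c12919 (k4 c7462 c2865 c2184 c1877 (k1 c6792 k0))))) (by decide +kernel)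
def c12932 : PP 8 4 T 0x1001000000040000000000000000100000000000014000004000040000104400 := rS 0xa2d120a6c306c419ac9a43348ca27155d93d246e5ea3c68c15ab0d47165b9258e531eae4762c72950269588c14c6661ca7c4ea153c30185f488140e37008bc4a610fa752e1b1897422200408c045a (k8 c4476 c12893 c2833 c12637 c838 c2305 c12418 c11577 (k8 c2396 c2933 c2971 c223 c879 c224 c8877 c28 (k8 c232 c30 c574 c12700 c577 c4463 c4477 c11219 (k8 c11524 c4324 c4384 c360 c12929 c150 c4310 c4334 (k8 c2855 c510 c919 c5084 c918 c11556 c6781 c7465 (k8 c9747 c1448 c368 c7094 c4471 c12403 c4362 c4419 (k8 c4420 c12930 c1305 c3054 c1059 c12896 c3462 c3277 (k8 c12931 c12926 c4469 c823 c2151 c376 c6117 c9038 (k4 c12919 c7462 c2865 c1873 (k2 c2184 c1877 (k1 c6792 k0))))))))))) (by decide +kernel)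
def c12933 : PP 8 4 T 0x2420000000000000000000000000001000100504005501504000000000000000000000 := rS 0x2653678541dd0abb479c54ea5 (k8 c4385 c4330 c4387 c4388 c4390 c10110 c7751 c2119 (k4 c9322 c866 c1928 c10618 k0)) (by decide +kernel)
def c12934 : PP 8 4 T 0x8000000000000000000000200000200 := rS 0x3044 (k2 c1224 c1225 (k1 c2178 k0)) (by decide +kernel)
def c12935 : PP 8 4 T 0x2420000001000000000000000000000000100500004000184000000000000000004208 := rS 0x2fc964f229e43109361ac9a43348c8be37008bcc29d0d8c46a7b102ec72bd139054aa7 (k8 c4330 c4385 c12912 c4324 c4354 c4348 c4390 c838 (k8 c12934 c1059 c11577 c2396 c2971 c879 c8877 c28 (k8 c232 c577 c4469 c823 c2151 c376 c6117 c12933 (k8 c4318 c7462 c601 c2178 c258 c1874 c7782 c2114 k0)))) (by decide +kernel)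
def c12936 : PP 8 4 T 0x2020002001000000000000000000000000100000000000184000000000000040004408 := rS 0x429a4f07721116326b19c4882a55397c109d40a0cde71 (k8 c4387 c4378 c4306 c4380 c2971 c12637 c577 c4330 (k8 c4385 c12912 c12935 c4340 c4442 c8237 c6169 c4472 (k4 c1887 c237 c845 c602 (k1 c4130 k0)))) (by decide +kernel)
def c12937 : PP 8 4 T 0x1002000000000000000001000040004082040000000055001000000000001 := rS 0xc03c94c7651 (k4 c4405 c4403 c4290 c601 (k2 c12910 c1621 k0)) (by decide +kernel)
def c12938 : PP 8 4 T 0x2400000000000000000000000000501000100504405501500000000000008000000000 := rS 0x4cc653678542ece285 (k8 c10110 c4387 c4390 c2119 c9322 c2868 c4447 c1928 (k1 c4488 k0)) (by decide +kernel)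

end Pool.Agent.H551.GP.E84
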