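import Pool.Agent.H551.GP.E84x3

/-! Certificate data. -/

set_option linter.all false
set_option maxRecDepth 100000

namespace Pool.Agent.H551.GP.E84

def c12939 : PP 8 4 T 0x2400000000000000000000000000201000101504404400000000000000000000000000 := rS 0x130784dafd7671 (k4 c4387 c4390 c1403 c1971 (k2 c7040 c10618 (k1 c1928 k0))) (by decide +kernel)
def c12940 : PP 8 4 T 0x2400000001002000000000000000001000100504004549184000015041408000000201 := rS 0x2334b62a69a0ca26a649c4b54d154ca561b04ee87429b62e4855a2ce4943ac14be35238ed8e395bad48632 (k8 c4469 c2151 c4389 c4353 c4348 c4289 c4403 c4404 (k8 c1059 c577 c4407 c1689 c842 c843 c1769 c1613 (k8 c4559 c4418 c12937 c10110 c11158 c7751 c1620 c1087 (k8 c12939 c12938 c4453 c191 c1856 c903 c2011 c377 (k4 c4599 c452 c10618 c3691 (k2 c4426 c4448 (k1 c4494 k0))))))) (by decide +kernel)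
def c12941 : PP 8 4 T 0x1000000000002400002000000000000000000500550045100000040045180000000000000000000000 := rS 0x955c9d6209f3f194bec937adce2b5 (k8 c4389 c4387 c4353 c4378 c4305 c577 c579 c11330 (k4 c1394 c6629 c594 c7096 (k2 c12882 c11255 k0))) (by decide +kernel)
def c12942 : PP 8 4 T 0x400000000000010000000002000000000005000040048100000000000000000000150040000000000 := rS 0x2427a2295 (k4 c102 c4413 c7994 c10839 (k1 c1662 k0)) (by decide +kernel)
def c12943 : PP 8 4 T 0x2400002001002000000000000500540005100004002045180040055050000000000008 := rS 0xa054514e64c62afc96454d9e51218848053a97409bca63b28aec72bd190c4402f (k8 c8877 c838 c11577 c4469 c4354 c4348 c4390 c4405 (k8 c4403 c4290 c4378 c4380 c2933 c2971 c28 c4318 (k8 c7462 c680 c601 c2865 c2178 c1874 c7782 c7718 (k4 c2114 c12920 c4451 c377 (k2 c12941 c7768 k0))))) (by decide +kernel)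
def c12944 : PP 8 4 T 0x2400002001002000000000000500540005100004000145184000055050008000000008 := rS 0x773697d3a81419bcd64f (k8 c449 c6117 c4378 c4306 c4380 c2971 c577 c12943 (k2 c7751 c12938 k0)) (by decide +kernel)
def c12945 : PP 8 4 T 0x2400002001002000000000000500440005100004000045184000055050008004000008 := rS 0xc1288a7626a1536bf5213cbe9d40a0cdebb1caf4d232188805e6b (k8 c6117 c8877 c838 c11577 c4469 c823 c4354 c4348 (k8 c4390 c4378 c4306 c4380 c2971 c577 c449 c12944 (k8 c1403 c1971 c1401 c1934 c12939 c441 c2114 c9124 (k1 c1874 k0)))) (by decide +kernel)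
def c12946 : PP 8 4 T 0x2000000000000000000000000511100845144500085555510000000000000000000000 := rS 0xa5a8110af8827d7295829d56aab (k8 c1973 c4389 c96 c4408 c1616 c1085 c9687 c4478 (k4 c868 c11210 c11255 c4457 (k1 c7527 k0))) (by decide +kernel)
def c12947 : PP 8 4 T 0x400000000000000000100000014850000040410001555500000000000000000000000 := rS 0x4fc1510afa2b350a87 (k8 c10041 c10110 c2066 c4453 c908 c12794 c4314 c6233 (k1 c8581 k0)) (by decide +kernel)
def c12948 : PP 8 4 T 0x2000002000000000000000000414800820044000041554010000000000000000000000 := rS 0xae67a2571043ac5d926f3eadd6ac3 (k8 c2058 c4389 c4353 c4379 c4378 c4305 c4418 c11102 (k4 c5073 c4073 c4314 c1526 (k2 c2120 c909 k0))) (by decide +kernel)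
def c12949 : PP 8 4 T 0x2410002001002000000000000100040001100000000041114000015040048000000208 := rS 0x2968857a55407355a6916873ba14329936a9552a632a4cc7432facc029d4bb2502833e8d4de7b098ec72b75a9a436ad169ac8632188805e5a (k8 c4476 c8877 c838 c11577 c4469 c2151 c6117 c4286 (k8 c942 c2396 c823 c4389 c4353 c4348 c4403 c4401 (k8 c12934 c4378 c1059 c4379 c4306 c4380 c4305 c2933 (k8 c2971 c28 c1185 c577 c8226 c12940 c12942 c579 (k8 c12945 c191 c133 c2910 c2011 c255 c10110 c7751 (k8 c10041 c5853 c10618 c1973 c12946 c12947 c12948 c868 (k2 c11210 c4457 (k1 c7527 k0)))))))) (by decide +kernel)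
def c12950 : PP 8 4 T 0x2000000000000000000000400000000000000100000000000050050050000202000000 := rS 0x4b22aec72bd (k4 c4354 c4348 c4390 c2178 (k2 c1874 c2114 k0)) (by decide +kernel)
def c12951 : PP 8 4 T 0x2400000001000000040000000000401000100504004401500010050050008204000008 := rS 0x2910a6d3b8657e4f348c8622f (k8 c8877 c11577 c4469 c823 c449 c8901 c12950 c9124 (k4 c959 c10110 c12938 c12939 k0)) (by decide +kernel)
def c12952 : PP 8 4 T 0x2410002001002000040000000100000000100000000041114000014040048000000408 := rS 0x9a571dd0a9936a989aa955a822089829958a743195127171e17d220503acd3a9740a0c6a6f3d9c546233486d5a2d3590c6431100bc105a (k8 c4476 c12637 c8877 c838 c11577 c4469 c2151 c6117 (k8 c4286 c942 c2396 c823 c2833 c9264 c4387 c12934 (k8 c4378 c1059 c4306 c4380 c2933 c2971 c1185 c30 (k8 c574 c12700 c577 c12949 c4416 c1654 c234 c7047 (k8 c235 c1783 c7044 c4406 c9049 c4478 c10491 c4415 (k8 c7768 c377 c12951 c2910 c2011 c10110 c7751 c12794 (k2 c10618 c869 k0))))))) (by decide +kernel)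
def c12953 : PP 8 4 T 0x2410002001002000040000000100000000100000000041114000004040048000000408 := rS 0x6d3b06480691901c5e1b040c4405a (k8 c4476 c838 c11577 c12637 c2396 c8877 c30 c4469 (k4 c823 c12952 c1873 c1063 (k2 c959 c7751 k0))) (by decide +kernel)
def c12954 : PP 8 4 T 0x22000002001000000000000000000000000000000000000000000010000000005400000 := rS 0x1083baf4e279 (k4 c4447 c4387 c4354 c9124 (k2 c4465 c8862 k0)) (by decide +kernel)
def c12955 : PP 8 4 T 0x2000000001002000000001400000000000040004000000000020055050000002000000 := rS 0x1974b68b08a64728b1c72b75ead6863b (k8 c4403 c8226 c4389 c4354 c4353 c4348 c4289 c4405 (k4 c4404 c4290 c12827 c261 (k2 c4459 c2028 (k1 c10947 k0)))) (by decide +kernel)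
def c12956 : PP 8 4 T 0x1000000000002000000001002000000111400500000000000015004000000020055050000002000000 := rS 0xeab92a339a07f65d2d1473a191c7651638e56e715ab351253 (k8 c4290 c2038 c2062 c4389 c4387 c4353 c4348 c4289 (k8 c4405 c4403 c4404 c8226 c12920 c12955 c4427 c1752 (k4 c725 c10947 c4495 c260 (k2 c1525 c1686 (k1 c2121 k0))))) (by decide +kernel)
def c12957 : PP 8 4 T 0x2800002001002000000000000100001041100004000040014040154041450004000200 := rS 0x6833d5aa082994e85449c5c78180b930974534a98f29b8c3157ec12f96966c9419f46a6f298ec5a515da3c72bd388cd5eab (k8 c4445 c4346 c4340 c4387 c4354 c4348 c4388 c4390 (k8 c4405 c4286 c4403 c4290 c4378 c1059 c4379 c4306 (k8 c4305 c1185 c4476 c577 c6869 c6330 c4530 c4472 (k8 c4448 c4447 c4539 c844 c4453 c1856 c2114 c1990 (k8 c12954 c12956 c4416 c1654 c234 c235 c7044 c4406 (k4 c10491 c6230 c1794 c2112 (k1 c381 k0))))))) (by decide +kernel)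
def c12958 : PP 8 4 T 0x2000040000000444000001100000000040080000080114048000000408 := rS 0x2a9fd729531d2e228744c24d2ac619e030776897c5e294b8c422200414c5a51 (k8 c4405 c4286 c4290 c12637 c838 c2305 c11577 c2933 (k8 c2834 c8877 c577 c2153 c1887 c236 c237 c2054 (k8 c2112 c845 c4436 c2038 c3870 c4338 c4458 c820 (k4 c861 c6781 c6629 c4151 (k1 c10570 k0))))) (by decide +kernel)
def c12959 : PP 8 4 T 0x2000002001002000040000000000000000100000000040014000004000040000004408 := rS 0x25d154c4d2010c9e4555a955e338909a1abd1ca440ab3588dc5e253087c529d4b86c625d0888c6a6f3d880105a (k8 c4476 c12637 c838 c12934 c4378 c1059 c2833 c2305 (k8 c12418 c11577 c2396 c2933 c2971 c2834 c223 c879 (k8 c224 c8877 c232 c1146 c1185 c574 c12700 c4348 (k8 c4354 c12936 c4467 c12953 c4340 c4346 c4444 c4445 (k8 c6169 c448 c12958 c12957 c1994 c12912 c4453 c1856 (k1 c4474 k0)))))) (by decide +kernel)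
def c12960 : PP 8 4 T 0x400000001000000000000000000001000000004000000000000010008000080000202 := rS 0xd831 (k2 c173 c950 (k1 c12831 k0)) (by decide +kernel)
def c12961 : PP 8 4 T 0x4000002000080000000200 := rS 0xa80b (k2 c84 c234 (k1 c12671 k0)) (by decide +kernel)
def c12962 : PP 8 4 T 0x2420000001002000040000000500401000100014000001084000055456000100016010 := rS 0x1066d358668a79262058abf60c60d29b259149e1b5d8e57a5d47894be6f529459213 (k8 c4401 c10573 c4405 c4385 c8928 c577 c1367 c4388 (k8 c840 c4354 c4348 c4390 c294 c298 c297 c1914 (k8 c1966 c1879 c5755 c6869 c6330 c4530 c12056 c2114 (k4 c4447 c4451 c12956 c580 (k2 c5889 c12839 (k1 c12933 k0)))))) (by decide +kernel)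
def c12963 : PP 8 4 T 0x2400000000000000000000000000501000100000001400100000010000800012000002 := rS 0x1184d11612bb47a457a99 (k8 c1840 c4354 c4352 c4388 c4390 c4436 c5733 c7780 (k2 c6988 c4448 k0)) (by decide +kernel)
def c12964 : PP 8 4 T 0x2420000001000000000000000000401000100004004001504000010001000080002202 := rS 0x102690ca0cda2e358754a33 (k8 c12960 c4385 c1057 c493 c4469 c12831 c12839 c12963 (k2 c757 c1294 (k1 c12933 k0))) (by decide +kernel)
def c12965 : PP 8 4 T 0x2000001001000000040000000000000000100000000000014000014000000000004200 := rS 0x114ad3314e0a5464860266c41994d675619e502c172c60d29b2892c8a1b1812172951e8ccfa4721a953e7b53c32269d309bc009713b1c6a030f094423b888a4ba5f1516816b11ba3d6e715a8302239598540a1d (k8 c1057 c263 c384 c1185 c4348 c344 c4463 c4389 (k8 c4387 c4353 c4388 c232 c1146 c84 c4476 c12932 (k8 c577 c840 c59 c4411 c12123 c2143 c1367 c4466 (k8 c838 c9684 c290 c353 c1193 c4461 c8928 c12807 (k8 c12783 c12833 c4477 c11219 c12802 c4384 c4385 c12838 (k8 c1642 c1291 c12960 c12961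 c1694 c6781 c2113 c12964 (k8 c294 c297 c1914 c1917 c1966 c1879 c5755 c12962 (k8 c6869 c12056 c4447 c9009 c11627 c580 c578 c12839 (k8 c12933 c1638 c5889 c10573 c12434 c9531 c9029 c4191 (k2 c2046 c12827 (k1 c721 k0))))))))))) (by decide +kernel)
def c12966 : PP 8 4 T 0x40000140000000000100000410000420000000008000000016200 := rS 0x85409ed06694d8649b13589b53a212d86c3c02 (k8 c1106 c1105 c2393 c93 c231 c3249 c4993 c1146 (k8 c4340 c2340 c6288 c862 c823 c9038 c1225 c1294 (k2 c10110 c6745 k0))) (by decide +kernel)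
def c12967 : PP 8 4 T 0x40000140100001000100000410000020000040002005000014009 := rS 0x2010a4b419a83017 (k8 c1911 c228 c229 c4570 c3827 c9077 c8937 c12056 k0) (by decide +kernel)
def c12968 : PP 8 4 T 0x12000000001000000040000000000000000000404404000020010000010000000002408 := rS 0x1390abe841c4b679 (k8 c9840 c93 c4387 c4482 c8902 c4321 c8901 c1487 k0) (by decide +kernel)
def c12969 : PP 8 4 T 0x2000000001002000000000000000000000000000000000020000200005000000000200 := rS 0x1176025c7a1e57c485e02 (k8 c1106 c8877 c4469 c4346 c1105 c2131 c3206 c9861 (k2 c4420 c9855 k0)) (by decide +kernel)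
def c12970 : PP 8 4 T 0x2000001000001000040040010000000050100000000001540000000410140080000000 := rS 0x24d463948ad53f0c (k8 c4477 c4384 c4389 c4352 c4348 c4241 c9125 c8554 k0) (by decide +kernel)
def c12971 : PP 8 4 T 0x2000001000001000040000010501100050100000100000124050000415100082014019 := rS 0x649cc26631531e22804fa84950c11a3d22b738ad4b66f3099cbea7178941827 (k8 c353 c4463 c1368 c8877 c4558 c10439 c656 c617 (k8 c1107 c93 c4389 c4387 c4353 c4352 c4388 c792 (k8 c4477 c2111 c4329 c4384 c1874 c11040 c3418 c12970 (k4 c1607 c1639 c1110 c10573 (k1 c11717 k0))))) (by decide +kernel)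
def c12972 : PP 8 4 T 0x2000000000001000000000010000000050100000000000000000000400140800000008 := rS 0x9347a456eb5 (k4 c4389 c4353 c4352 c4388 (k2 c9125 c9836 k0)) (by decide +kernel)
def c12973 : PP 8 4 T 0x2000001001000000040000000000000000100000000000004000014000000000004200 := rS 0x324e613318aa22a11127cb8b94a9d5ca4f0c05e127a41934891952aa6243119a9cbe770d90c5a3d138bc4a671a8792e3b01004de9d2c01c16b15da3d22b75e9c56a0c088e56605 (k8 c263 c1185 c4348 c344 c4463 c4389 c4387 c4354 (k8 c4353 c4352 c4388 c4390 c1146 c84 c30 c12965 (k8 c3249 c1107 c486 c1106 c3112 c3206 c1105 c3111 (k8 c656 c1368 c8877 c353 c2131 c392 c2132 c2393 (k8 c8951 c10439 c4558 c12966 c12967 c4469 c4345 c4444 (k8 c4539 c4472 c378 c9038 c12968 c4320 c520 c1225 (k8 c4501 c12969 c11627 c11624 c7514 c12971 c3274 c1287 (k8 c2767 c11040 c12972 c1607 c1639 c1110 c10573 c11717 k0)))))))) (by decide +kernel)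
def c12974 : PP 8 4 T 0x2000001001000000040000000000000000100000000000004000004000000000004200 := rS 0x226004c00c3c2115168b2400e8141615 (k8 c384 c84 c263 c1057 c12973 c3113 c4476 c12932 (k4 c2143 c4466 c838 c1103 (k2 c4461 c4443 (k1 c12796 k0)))) (by decide +kernel)
def c12975 : PP 8 4 T 0x10000000000000100000048 := rS 0x3e1d (k2 c791 c223 (k1 c4466 k0)) (by decide +kernel)
def c12976 : PP 8 4 T 0x8000010008000000000400 := rS 0xf0143a21 (k4 c799 c953 c6309 c4466 (k1 c1066 k0)) (by decide +kernel)
def c12977 : PP 8 4 T 0x2400001000000000000000000000001500100004005401500000000004800000002002 := rS 0x1dd0a8134c2106a853a9618255da3d22bd38afcf318 (k8 c4488 c4447 c5760 c4387 c4354 c4352 c4388 c4390 (k8 c1367 c4477 c1843 c4330 c10851 c12839 c7780 c2719 (k4 c1362 c4321 c4438 c9322 k0))) (by decide +kernel)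
def c12978 : PP 8 4 T 0x2000000000000000000000400000000000000100000000000010150050000002004000 := rS 0x4b27aec72bd (k4 c4354 c4348 c4390 c258 (k2 c1874 c2114 k0)) (by decide +kernel)
def c12979 : PP 8 4 T 0x2400001001000000040000000000001100100004000000108000150055000000014012 := rS 0x421a4ee1940935522411a0cbc6f061b4c2910d96cd62e5f9e6309b (k8 c2711 c4488 c4447 c5760 c4469 c493 c92 c5876 (k8 c4352 c880 c9753 c4463 c8928 c12977 c548 c1296 (k8 c489 c1506 c1993 c3347 c12978 c9124 c757 c12063 (k1 c10079 k0)))) (by decide +kernel)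
def c12980 : PP 8 4 T 0x2400001001000000040000000000001000100000000000008000050001000040004200 := rS 0x14ca9862949e6e128d17e451baecc2913d97422394c87136000280c4259038b8660b (k8 c84 c12976 c4469 c30 c63 c799 c12975 c262 (k8 c4461 c2711 c4466 c1031 c4348 c344 c12183 c7540 (k8 c4352 c880 c4390 c232 c6169 c5760 c12979 c1369 (k4 c1059 c1492 c1843 c9688 (k2 c787 c10851 (k1 c4330 k0)))))) (by decide +kernel)
def c12981 : PP 8 4 T 0x2001000000000000000000001000000000500000501500000000000000000000000 := rS 0x10c (k2 c4477 c9576 k0) (by decide +kernel)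
def c12982 : PP 8 4 T 0x12000001000002000000544400400000000045510004000000001005050000000000000 := rS 0x33112c5679fe2eb8a1aec72b738ad48e3b (k8 c4403 c4404 c4389 c4387 c4353 c4348 c4390 c8226 (k8 c2113 c4361 c7096 c1526 c1254 c4529 c2124 c10743 k0)) (by decide +kernel)
def c12983 : PP 8 4 T 0x12410001001002000000144400001400000045510004000000001044055000000000200 := rS 0x19a89679fd8a5439c5c78cb559440e0b5d9c56ab3 (k8 c1185 c4389 c4387 c4390 c84 c30 c4405 c5962 (k8 c5517 c12982 c4416 c1615 c234 c1783 c10049 c4541 (k2 c9049 c10743 (k1 c2124 k0)))) (by decide +kernel)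
def c12984 : PP 8 4 T 0x2010100000001000000000010000050014100010000040000000004000140000000002 := rS 0x13e9732a3d22b7 (k4 c4353 c4352 c4388 c491 (k2 c11783 c6237 (k1 c5931 k0))) (by decide +kernel)
def c12985 : PP 8 4 T 0x2010000000001000000140010000050014100010004040000001005010100400004202 := rS 0x238ec55053a82d62371cadd6ab3 (k8 c1185 c4389 c4353 c4348 c232 c1146 c84 c11627 (k4 c9531 c12984 c12123 c1643 (k1 c2113 k0))) (by decide +kernel)
def c12986 : PP 8 4 T 0x2010000000001000000140010000050014100010004040000001004010100400004202 := rS 0x828aca83c (k4 c12985 c234 c12670 c4406 (k1 c12984 k0)) (by decide +kernel)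
def c12987 : PP 8 4 T 0x12400001001000000040044000000400000145100000000800010044015000040004200 := rS 0xa15c99dca495f9bc6e5b13a45261c16a55066b5493c5d0d11b25467d120000a031082cb256038302239 (k8 c4348 c344 c4463 c30 c12974 c63 c84 c799 (k8 c12975 c262 c4461 c489 c3346 c1463 c2435 c1296 (k8 c4382 c4469 c1487 c787 c493 c12839 c2710 c2917 (k8 c4466 c3050 c4352 c872 c92 c232 c8928 c8901 (k4 c9868 c12983 c7399 c7908 (k2 c4212 c12986 k0)))))) (by decide +kernel)
def c12988 : PP 8 4 T 0x2400001001000000040000000000000000100000000000000000054001000040004200 := rS 0x1a090bca927a1d168141a1610c3268654e77349118f194e0b8d60c36985225d088e4661c00014062105964ac07 (k8 c30 c12974 c63 c84 c799 c12975 c262 c4461 (k8 c4466 c12976 c4348 c344 c12183 c4352 c880 c9753 (k8 c4463 c493 c4469 c12980 c4368 c7340 c785 c7322 (k8 c1092 c906 c4654 c378 c3221 c4479 c5976 c12839 (k8 c1294 c4322 c4440 c1487 c787 c12981 c489 c12987 (k1 c1369 k0)))))) (by decide +kernel)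
def c12989 : PP 8 4 T 0x2000000001002000000001400000001000000000000000000020055052040000000000 := rS 0x1974b68b0872b75ead4a64728b1e863b (k8 c4403 c8226 c4289 c4405 c4404 c4290 c4389 c4354 (k4 c4353 c4348 c12813 c300 (k2 c4459 c2028 (k1 c10947 k0)))) (by decide +kernel)
def c12990 : PP 8 4 T 0x2400000001002000000100000410000000100000004000008020055052000020000002 := rS 0x1a2c357a5a222a4ca757ec560c608a5b1794c7651 (k8 c4405 c4403 c4290 c61 c92 c5793 c4472 c4450 (k8 c4370 c4369 c4368 c1031 c12989 c4411 c10647 c4631 (k2 c8801 c301 (k1 c2115 k0)))) (by decide +kernel)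
def c12991 : PP 8 4 T 0x2400001001002000040000000000000000100000000000000000054010000040004200 := rS 0x28e0a673f950e7171e18ccac93e8a426471b9c5664c56859430c2fa08de8540864189d8c114b62f3b9a460990e1b53600029740621059640e111c984ac91 (k8 c4352 c12974 c880 c4348 c344 c30 c63 c84 (k8 c799 c12975 c12183 c262 c4461 c2711 c9753 c4466 (k8 c1031 c12988 c1879 c11833 c61 c92 c5793 c4472 (k8 c4368 c4463 c9671 c1294 c5976 c8928 c12045 c2436 (k8 c4477 c4329 c508 c3954 c509 c1185 c4387 c232 (k8 c4404 c4401 c4402 c1291 c10573 c490 c754 c12990 (k8 c4416 c1615 c234 c10049 c921 c4406 c5380 c4560 k0))))))) (by decide +kernel)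
def c12992 : PP 8 4 T 0x2000100000001000000000000400014000100000104000108000004000040000000002 := rS 0x12e6547a456eb53396c5a59 (k8 c63 c2917 c92 c7399 c4389 c4353 c4352 c4388 (k2 c491 c11783 (k1 c10460 k0))) (by decide +kernel)
def c12993 : PP 8 4 T 0x22000000000001000000000000510014004104804404000108000015000000000002412 := rS 0x1ccfa893211cc711154158675389e5828b3396c5a59 (k8 c63 c2917 c92 c7399 c2461 c4450 c4447 c4387 (k8 c11627 c9009 c9062 c12992 c4411 c1607 c1642 c4191 (k4 c4794 c1291 c1648 c11339 k0))) (by decide +kernel)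
def c12994 : PP 8 4 T 0x2400001001000000040000000000000000100000000000000000054010000040004200 := rS 0x146c932c14fa633f8ad8e543991e2e3c33b953ea156a1e18162fa08deb11b9c56661489ecba9316a5536774c8710a6940864da0c088e53b182296c00050188416592b01c5e30 (k8 c12988 c61 c30 c12974 c63 c84 c799 c12975 (k8 c262 c4461 c92 c5793 c4472 c4368 c4348 c344 (k8 c4463 c9753 c9671 c1294 c1879 c5976 c4466 c1031 (k8 c11833 c2711 c2710 c2917 c3050 c12183 c7540 c4352 (k8 c880 c1185 c4387 c232 c1146 c8928 c12045 c2436 (k8 c508 c4477 c3818 c3954 c4329 c4384 c12991 c7399 (k8 c12993 c4416 c8078 c1615 c234 c330 c12670 c10049 (k4 c7153 c1291 c4406 c1646 (k2 c1727 c4241 (k1 c4560 k0)))))))))) (by decide +kernel)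
def c12995 : PP 8 4 T 0x400000001002000040000000400014000000050400045540020055402000000014002 := rS 0xc368abd9f115119592cd56944265360c608a2f (k8 c61 c5793 c4472 c4450 c4290 c4401 c4405 c2046 (k8 c2062 c10573 c490 c2118 c4337 c1524 c989 c381 (k2 c5849 c6159 k0))) (by decide +kernel)
def c12996 : PP 8 4 T 0x2400001001000000040000000000000000100000000000000000054000000040004200 := rS 0xd70945459ca4ca292d50a54fa847a3b8618caa893e9ccce7f5397cdd04128d09ec55fa74f2853bc60d245178c17a0c5996cda6148974223919a64389b000140621059640e56 (k8 c12974 c30 c63 c84 c799 c12975 c262 c4461 (k8 c2711 c4466 c1031 c12976 c4348 c344 c12183 c4352 (k8 c880 c9753 c92 c1185 c4463 c4354 c12988 c61 (k8 c5793 c1879 c4472 c11833 c5976 c4447 c4368 c4369 (k8 c4370 c1487 c12994 c1369 c10736 c1059 c489 c2007 (k8 c4313 c4310 c4408 c4409 c4314 c4406 c4407 c9688 (k8 c1061 c234 c4329 c4384 c4385 c5724 c4799 c4398 (k4 c4474 c12995 c4471 c12191 (k2 c4322 c2442 (k1 c7393 k0)))))))))) (by decide +kernel)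
def c12997 : PP 8 4 T 0x2400001001000000040000000000000000100000000000000000014000000040004200 := rS 0x6817908389b000140621059640e56 (k8 c12974 c30 c63 c84 c799 c12975 c262 c4461 (k4 c2711 c4466 c12996 c1952 (k2 c8832 c756 k0))) (by decide +kernel)
def c12998 : PP 8 4 T 0x800000000000000000000000400000000044001000114008000002000000000000200 := rS 0x414ce892a1ce2e0b36abcd6ab (k8 c4445 c4442 c4346 c9753 c84 c4416 c1615 c234 (k4 c7172 c921 c4406 c6907 k0)) (by decide +kernel)
def c12999 : PP 8 4 T 0x2810001001002000000100000400040000100011004000008001000044000021800202 := rS 0x208ad3fa7e2f435c0f4c6874599452511d84c8e3948adce2b536a4c365b189ac6a69 (k8 c757 c1059 c4442 c4441 c92 c5876 c3050 c9753 (k8 c4389 c4387 c4353 c4352 c4348 c4404 c4401 c4403 (k8 c4405 c4402 c490 c5853 c1836 c754 c12998 c7430 (k4 c8226 c4361 c1395 c7096 (k2 c6448 c4483 (k1 c5842 k0)))))) (by decide +kernel)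
def c13000 : PP 8 4 T 0x801000000001000000015000000000014000005000100000000004000540000000000 := rS 0x4bab53aab (k4 c4445 c4344 c4554 c11783 (k1 c9627 k0)) (by decide +kernel)
def c13001 : PP 8 4 T 0x2000100000000000000000000000040000000000104000000001004040080400000200 := rS 0x31c8e3b1cadd6a35 (k8 c1059 c4389 c4353 c4348 c12123 c1643 c291 c4559 k0) (by decide +kernel)
def c13002 : PP 8 4 T 0x2000000000001000000111000044041514000000004140000001015000000400004202 := rS 0xac328ae230561ae4ea0b588dd6635 (k8 c1059 c1185 c232 c1146 c84 c11627 c7514 c9009 (k4 c9531 c7287 c13001 c491 (k2 c6342 c6230 k0))) (by decide +kernel)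
def c13003 : PP 8 4 T 0x2000001001000000040000000000000000100000000000000000054000000040004200 := rS 0x28572c71e19dca690b0649ca33e93592491208c6a8125978dea686b058abf3cc606ebb47af418b32d984ba111ca644e91498705a954d8000a03109640eaf18aac8a9d890ccac0b (k8 c84 c12974 c12976 c12997 c4344 c6169 c4445 c4441 (k8 c4346 c30 c63 c799 c12975 c262 c4461 c2711 (k8 c2710 c2917 c4466 c3050 c4352 c872 c1031 c4348 (k8 c344 c12183 c880 c92 c1185 c4463 c4354 c4388 (k8 c4390 c232 c4472 c4447 c4369 c4370 c4450 c8237 (k8 c4539 c9688 c4477 c1857 c1897 c1059 c1296 c489 (k8 c9868 c2435 c284 c3346 c3435 c2114 c12978 c1488 (k8 c757 c12999 c7399 c13002 c330 c7908 c4212 c12986 k0)))))))) (by decide +kernel)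
def c13004 : PP 8 4 T 0x2000001001000000040000000000000000100000000000000000014000000040004200 := rS 0x2fa88a742c2506813c0602e4b2129462a94ec493699000700abb38844725b30a44062105964ac07 (k8 c30 c12974 c63 c84 c799 c12975 c4352 c880 (k8 c92 c4348 c344 c4387 c4390 c262 c4466 c4461 (k8 c1031 c2711 c12997 c4344 c4345 c4441 c4444 c13003 (k8 c1954 c1951 c5782 c237 c12056 c4570 c4436 c602 (k4 c5558 c4484 c10851 c4399 k0))))) (by decide +kernel)
def c13005 : PP 8 4 T 0x2400000001000000000000000000001100100500004000008000110000000001000220 := rS 0xbc25089b3bc603643 (k8 c2189 c424 c4472 c9124 c4448 c12045 c4321 c2493 (k1 c4465 k0)) (by decide +kernel)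
def c13006 : PP 8 4 T 0x2400000001000000000000000000000000100500004000008000010001000080000200 := rS 0xbc24d01b4d46488990ca745c5b108cc1604 (k8 c1066 c84 c12976 c799 c92 c4469 c1233 c268 (k8 c1840 c13005 c4364 c4488 c6867 c804 c4437 c7300 (k1 c4465 k0))) (by decide +kernel)
def c13007 : PP 8 4 T 0x2400000000000000000000000000401400100000000000108000000000000802000004 := rS 0x98529ae12bb47a457a6d (k8 c9753 c4354 c4352 c4388 c4390 c4436 c1919 c7901 (k2 c7780 c1072 k0)) (by decide +kernel)
def c13008 : PP 8 4 T 0x2400000001000000000000000000401000100500004000108000010002000800000220 := rS 0x983b8648a031082cb2070d96d3643 (k8 c2189 c1966 c92 c6533 c30 c63 c84 c799 (k4 c12975 c297 c13007 c9124 (k2 c13005 c1071 k0))) (by decide +kernel)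
def c13009 : PP 8 4 T 0x2600000000000000000004000400014040104000004100108500000002000004540020 := rS 0x7582a20aad1159951e915bad4da67 (k8 c654 c9753 c4389 c4353 c4352 c4388 c4412 c4411 (k4 c300 c266 c7856 c4314 (k2 c597 c10460 k0))) (by decide +kernel)
def c13010 : PP 8 4 T 0x2400000000002000040004000411000040144000004100908400001412005805500024 := rS 0x345125557991451150a7e86292884c8f0d (k8 c4382 c4404 c4401 c4405 c4402 c8226 c11480 c770 (k8 c13009 c4489 c1466 c988 c1647 c557 c301 c2109 k0)) (by decide +kernel)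
def c13011 : PP 8 4 T 0x2000000000001000040000000000000040100000000000008000000410044000102220 := rS 0x554880c420b2c81c7a5e (k8 c528 c2188 c30 c63 c84 c799 c12975 c4352 (k2 c266 c12502 k0)) (by decide +kernel)
def c13012 : PP 8 4 T 0x2000000000001000040000000100000000100000000000108000004000000080002200 := rS 0x4f994c4545084c55055c9d51e915bad566031082cb2071d89c6a97338547a6f64894021d3e888bc04 (k8 c1066 c528 c529 c3283 c56 c750 c1368 c2487 (k8 c9677 c2188 c384 c654 c1193 c1099 c353 c3062 (k8 c30 c63 c84 c799 c12975 c1185 c4389 c4353 (k8 c4352 c4388 c11627 c7514 c9531 c13011 c1639 c1735 (k4 c4464 c267 c1647 c1610 (k1 c10460 k0)))))) (by decide +kernel)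
def c13013 : PP 8 4 T 0x2400000001002000040000000400000040100400004000908000010000001880100200 := rS 0x2a50e8545c2032c3349de329c56a9c2e1b1816cda7b018841659038ec4e35008747a4302204a613 (k8 c4401 c4290 c3284 c1066 c2189 c2188 c56 c750 (k8 c1099 c353 c3062 c30 c63 c84 c799 c12975 (k8 c7540 c9753 c92 c13006 c6533 c1911 c2007 c2046 (k8 c13008 c4368 c1092 c825 c3224 c4540 c4465 c5853 (k4 c4321 c4440 c1505 c13010 k0))))) (by decide +kernel)
def c13014 : PP 8 4 T 0x2000000001000000000000000100000000000504004000000000150010000001400200 := rS 0x10a79841de30bf0daed7a71 (k8 c4387 c4354 c4390 c424 c6330 c4472 c9124 c4465 (k2 c4447 c4321 (k1 c2122 k0))) (by decide +kernel)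
def c13015 : PP 8 4 T 0x2000001001000000040000000000000000100000000000000000014000000000004200 := rS 0x841a0369a5fa9c9a440b8654a99358c5529d89391024f12888bc6f4190c02971a8103a1e58aec18b30a96cf65d0188416592b01c2239 (k8 c4348 c344 c30 c12974 c63 c84 c799 c12975 (k8 c12183 c7540 c92 c384 c1185 c4463 c4390 c1146 (k8 c13004 c56 c1066 c1099 c1193 c750 c2189 c2488 (k8 c9677 c528 c529 c1368 c3464 c3284 c13012 c13013 (k8 c4344 c4345 c4441 c4442 c4443 c4444 c268 c532 (k8 c13014 c378 c773 c8901 c10851 c6867 c804 c4465 (k1 c4437 k0))))))) (by decide +kernel)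
def c13016 : PP 8 4 T 0x2010000000001000040000000000040014100010000040000001006040106000000202 := rS 0x142b9828ad8e54 (k4 c234 c330 c12670 c4406 (k2 c7908 c4212 (k1 c12984 k0))) (by decide +kernel)
def c13017 : PP 8 4 T 0x2000001001000000040000000000000000100000000000000000004000000000004200 := rS 0x65d2d8cc256a812e6515c1572751e99dcaa33eb346ac9248909c6f11978974586a994aa94a8b6249313a646600298c582690e0153679268583e9d5fb14ec19201740621309b4b6592b2cc0e0b588dd76915e8302239 (k8 c4348 c344 c4463 c4354 c4352 c4390 c232 c1146 (k8 c84 c30 c1185 c12974 c63 c92 c9753 c880 (k8 c799 c12975 c12183 c13015 c1873 c1063 c3060 c3059 (k8 c3058 c3063 c1064 c1994 c1847 c1849 c262 c4466 (k8 c7300 c3748 c3816 c3935 c4461 c952 c1032 c872 (k8 c3050 c11833 c2917 c2710 c4345 c4444 c10851 c4330 (k8 c4453 c1857 c4532 c773 c9688 c4474 c489 c9868 (k8 c2435 c1059 c3453 c3463 c3435 c12999 c7399 c13016 (k8 c11627 c7514 c9531 c13001 c491 c11783 c12984 c6230 (k4 c9798 c4212 c4459 c2028 (k1 c7284 k0))))))))))) (by decide +kernel)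
def c13018 : PP 8 4 T 0x1000000000000100000000000000500000010000004000008000000040002200 := rS 0x280c66730974be654a0b004012d24c40593eaccaa1d (k8 c1057 c8954 c1186 c1292 c1105 c4466 c1121 c4476 (k8 c9668 c230 c400 c401 c579 c577 c840 c502 (k4 c919 c2839 c12918 c11524 k0))) (by decide +kernel)
def c13019 : PP 8 4 T 0x2000000000000000040000000400000000000000004000000000008010000080012411 := rS 0x4663ae0fe753996cb0025b9c56a3d8bb94fa55649247221 (k8 c86 c4348 c370 c507 c8954 c1292 c4288 c4356 (k8 c145 c4389 c4387 c4353 c4461 c223 c838 c3117 (k4 c12443 c10049 c4073 c1447 (k2 c12422 c1315 k0)))) (by decide +kernel)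
def c13020 : PP 8 4 T 0x1000000000040000000500000000000000010040480000008050004000014002 := rS 0xca7f15a4ce697168562ee53e830c6554fc30ba61 (k8 c12807 c753 c4477 c4384 c8954 c755 c4463 c1292 (k8 c4288 c4356 c646 c910 c928 c1082 c1122 c289 (k2 c10049 c579 (k1 c11131 k0)))) (by decide +kernel)
def c13021 : PP 8 4 T 0x2000001000000000040000000000000000100000000000004000008000000000004200 := rS 0x15850ca662f968b203001bc6a270f0140e0b588dd1e7172accaac9248302239 (k8 c4348 c344 c4463 c370 c507 c8954 c1186 c4288 (k8 c4387 c4388 c232 c1146 c84 c30 c263 c13018 (k8 c353 c1099 c8928 c13019 c28 c486 c4476 c577 (k4 c13020 c151 c11319 c2220 (k1 c12287 k0))))) (by decide +kernel)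
def c13022 : PP 8 4 T 0x2400001001000000040000000000000000100000000000000000010001000040004200 := rS 0x569a488ab17270866b36b14503357a2609114b19c385b728f45a931082c76651598c000501958aa3e (k8 c13017 c8954 c13021 c12102 c262 c4461 c755 c288 (k8 c491 c144 c84 c799 c3067 c7177 c145 c4288 (k8 c92 c4466 c7335 c1179 c4336 c4478 c4314 c4631 (k8 c2957 c1180 c3265 c9753 c493 c8804 c12980 c4469 (k4 c1573 c785 c7322 c947 (k1 c12794 k0)))))) (by decide +kernel)
def c13023 : PP 8 4 T 0x2400001001000000040000000000000000100000000000000000010000000040004200 := rS 0x1357e162193c9619349145e30588dd76bd369ed366f1aa0c46a940890bca3639fce6b338c5cce5b728f45a931d98cc2a14b070420b4899456c924974fa550001406561f0302239 (k8 c4348 c344 c4463 c13017 c13021 c12102 c262 c4461 (k8 c8954 c1292 c12183 c370 c507 c288 c491 c4352 (k8 c84 c799 c4466 c1179 c898 c880 c755 c144 (k8 c3067 c7177 c145 c4288 c92 c7335 c4356 c4387 (k8 c1186 c3082 c10049 c1447 c4241 c5857 c489 c3347 (k8 c3476 c1296 c2436 c9685 c8928 c2711 c7540 c9753 (k8 c4354 c4390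 c232 c1146 c13022 c61 c5793 c1879 (k8 c9671 c1915 c299 c8832 c13014 c6330 c1990 c2114 k0)))))))) (by decide +kernel)
def c13024 : PP 8 4 T 0x2400001001000000040000000000000000100000000000000000000000000040004200 := rS 0x1a4ec192001cda000280d321c10958163e (k8 c13017 c84 c13021 c799 c4466 c3193 c12102 c262 (k8 c4461 c9753 c30 c13023 c1873 c1063 c757 c11833 k0)) (by decide +kernel)
def c13025 : PP 8 4 T 0x2000000001000000040000000001101500100000000000000054000010000000000000 := rS 0x535117ebb (k4 c4390 c8901 c4474 c10851 (k1 c4453 k0)) (by decide +kernel)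
def c13026 : PP 8 4 T 0x2000001001000000040000000000000000100000000000000000000000000040004200 := rS 0xad459a4a6160c938964d55a94629d892a4482386979468943b1e087f68a8622af0d98d3633338d4e6284b09d3265000705605388f62ee53eaccaac924830b661488b52621058ecba032b0f82239 (k8 c4348 c344 c13017 c13021 c12102 c12183 c144 c84 (k8 c799 c3067 c7177 c4352 c880 c92 c4463 c370 (k8 c507 c8954 c1186 c1292 c4288 c4356 c145 c4387 (k8 c262 c288 c4466 c4461 c491 c3193 c872 c1179 (k8 c1180 c3082 c9685 c7335 c2957 c2711 c755 c5876 (k8 c4631 c4336 c898 c1760 c10049 c4478 c1447 c4410 (k8 c4314 c4241 c5857 c4382 c1296 c489 c3476 c13024 (k8 c4344 c4441 c4444 c4445 c284 c9597 c13025 c258 (k4 c1488 c420 c757 c525 (k2 c781 c8137 k0)))))))))) (by decide +kernel)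
def c13027 : PP 8 4 T 0x6000000000001000040000000000010004100000000000109000001400040080002204 := rS 0x3ac14ca9f0a25c168f48add6ab32c89c6a6f339784404 (k8 c1066 c529 c528 c2636 c9677 c1099 c353 c63 (k8 c1186 c4389 c4353 c4352 c4388 c84 c1194 c12502 (k4 c1300 c7044 c4308 c590 (k1 c10460 k0)))) (by decide +kernel)
def c13028 : PP 8 4 T 0x2400000001000000000000000000000000100500004000108000008000081880000200 := rS 0x224a65143a2e10193b912329c68a9c2e1b178c1ca552d9b4f6210590486040a84c021d (k8 c56 c750 c1639 c2220 c1066 c2189 c3063 c84 (k8 c799 c7540 c9753 c92 c8954 c4288 c13006 c61 (k8 c6533 c1911 c2007 c2241 c13008 c4368 c1232 c1092 (k8 c4540 c4465 c4322 c4440 c1645 c2230 c7030 c2109 k0)))) (by decide +kernel)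
def c13029 : PP 8 4 T 0x2000001001000000040000000000000000100000000000000000000000000000004200 := rS 0x1083406d34bf5393488170ca95326b18aa53b1215285024f12888bc6f4190c0235208103a1e2e80d267b1096cac492ab9477171e8f818111caec16b1 (k8 c1146 c84 c4390 c4348 c344 c4463 c13017 c145 (k8 c4356 c144 c4288 c8954 c370 c13021 c92 c799 (k8 c7540 c3067 c12102 c12183 c13026 c56 c1066 c3063 (k8 c1099 c750 c2189 c2488 c9677 c528 c529 c1368 (k8 c3464 c3284 c771 c13027 c13028 c4344 c4345 c4441 (k8 c4442 c4443 c4444 c268 c532 c13014 c378 c773 (k4 c8901 c10851 c6867 c804 (k2 c4465 c4437 k0)))))))) (by decide +kernel)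
def c13030 : PP 8 4 T 0x1001000000040000000000000000100000000000004000000000000040004200 := rS 0xfc2764c44ce7d31996184916155ca3d2ea847c0c118a4c215088ac045f2d080b3150ea440a0b (k8 c84 c263 c12700 c1057 c13029 c1105 c4466 c4476 (k8 c12467 c230 c2143 c2305 c2349 c879 c2834 c2833 (k8 c4463 c12932 c11524 c12418 c145 c4288 c8954 c400 (k8 c2333 c4477 c12368 c11648 c1292 c919 c4332 c507 (k2 c4324 c12405 (k1 c6629 k0)))))) (by decide +kernel)
def c13031 : PP 8 4 T 0x400000001000000000000000000001000000000001000080000050001000002000002 := rS 0x4d460d045 (k4 c5733 c10711 c4472 c844 (k1 c4448 k0)) (by decide +kernel)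
def c13032 : PP 8 4 T 0x1400000001000000040000000000501000000104000001580000050051000080002202 := rS 0x8534865524f5e935062e369ac7033 (k8 c12960 c4470 c493 c12831 c4469 c12839 c1992 c12782 (k4 c451 c787 c13031 c757 (k2 c5976 c2119 k0))) (by decide +kernel)
def c13033 : PP 8 4 T 0x100000000000000000008000010000050000000000000000000000000000000000000 := rS 0x12717 (k2 c4362 c1128 (k1 c4487 k0)) (by decide +kernel)
def c13034 : PP 8 4 T 0x100000001002000000015000000000000000004000000000000155404000006000002 := rS 0x199150544b40a651 (k8 c4405 c4290 c6159 c2038 c4503 c12827 c5056 c4552 k0) (by decide +kernel)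
def c13035 : PP 8 4 T 0x21100001001002000040000000500000051000014004004500000155416000014010002 := rS 0x6782a2cee6d5721c32d061ab4ea510994d8ac1 (k8 c4450 c4370 c4290 c4401 c4405 c10865 c2046 c13033 (k8 c6159 c13034 c1631 c301 c5889 c9124 c5853 c9062 (k2 c984 c5056 k0))) (by decide +kernel)
def c13036 : PP 8 4 T 0x15000000000000000000002050000000155400080002000010 := rS 0x1495b04 (k4 c4191 c944 c4503 c293 k0) (by decide +kernel)
def c13037 : PP 8 4 T 0x1000000000015000000000000000004000010000000155402080002100012 := rS 0x8a5694e0a66361445213 (k8 c1638 c59 c1917 c9671 c13036 c4310 c9747 c2046 (k2 c12827 c721 k0)) (by decide +kernel)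
def c13038 : PP 8 4 T 0x1400001001000000040000000100500001000114000001404000044050080080002200 := rS 0x682bca66682a1d1677368642665619d4a2e560b148b1834a6c3630199041621598552e112e8a6223b31a547a9d0000c0a1d2d164e06f (k8 c1289 c4480 c536 c4476 c1057 c263 c223 c4461 (k8 c12783 c12961 c1694 c1607 c12123 c4411 c59 c1418 (k8 c112 c1193 c384 c1185 c86 c84 c12796 c12960 (k8 c13032 c294 c1966 c1879 c5755 c297 c4370 c4450 (k8 c13035 c1917 c11627 c9009 c578 c1638 c13037 c5889 (k8 c9124 c5853 c10041 c9062 c4478 c9747 c984 c6159 (k1 c301 k0))))))) (by decide +kernel)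
def c13039 : PP 8 4 T 0x1920000001000000040004040000001000000000020005500500005450000082002002 := rS 0x321520a6760b148aa70196486383d9b48299 (k8 c4443 c1103 c4342 c707 c4470 c365 c536 c223 (k8 c4330 c5733 c4530 c6869 c12829 c4503 c12819 c4478 (k1 c1647 k0))) (by decide +kernel)
def c13040 : PP 8 4 T 0x1001000000040000000000000000100000000000004000004000000000006200 := rS 0x8c9149e785e215041928b0c825355a646312409ec867d4eaec8e951e98c7711000a8065a2e9654a9f539c2186f30ac43a5f138952205058e06a378a8552e1e (k8 c13030 c1193 c384 c13029 c232 c1099 c4470 c84 (k8 c263 c12700 c12180 c353 c10439 c1057 c1146 c503 (k8 c1289 c6999 c4480 c4330 c4384 c4385 c536 c1418 (k8 c4476 c223 c12932 c4461 c4411 c12123 c1607 c12961 (k8 c1694 c1642 c6994 c12783 c1291 c365 c707 c1421 (k8 c13038 c4441 c4443 c4445 c292 c1103 c4958 c1644 (k8 c13039 c12828 c185 c589 c588 c1487 c1170 c4447 (k1 c4472 k0)))))))) (by decide +kernel)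
def c13041 : PP 8 4 T 0x1000000000040000000000000000100000000000004000000000004000005200 := rS 0x1680059019b82005 (k8 c263 c4463 c345 c342 c1107 c4461 c4476 c11235 k0) (by decide +kernel)
def c13042 : PP 8 4 T 0x1000001000000000040000000500004000000010004001404000008050044080014402 := rS 0xeb055c9f96c2d339ccca158bb94ba032c9c0c655 (k8 c8954 c755 c4480 c536 c223 c1418 c4288 c4356 (k8 c12287 c491 c1082 c11319 c910 c11093 c11131 c165 (k2 c4313 c595 (k1 c4481 k0)))) (by decide +kernel)
def c13043 : PP 8 4 T 0x1001000000040000000000000000100000000000004000000000000000004200 := rS 0x960a8a80003599f4b29f2ab94e10c1f1bcc2110617c6a270f095220505ac46f15 (k8 c13029 c232 c1146 c84 c263 c12700 c12180 c13030 (k8 c353 c1099 c10439 c13041 c112 c503 c1289 c13040 (k8 c6999 c4480 c4288 c8954 c4384 c536 c1292 c1186 (k4 c223 c4461 c13042 c2220 (k2 c289 c12611 k0))))) (by decide +kernel)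
def c13044 : PP 8 4 T 0x1000000000000000000100000000000000000001100000000200000020000400 := rS 0x434be90 (k4 c1139 c4647 c4328 c4477 k0) (by decide +kernel)
def c13045 : PP 8 4 T 0x400000001000000000000140000500101500000000001508040000001000120002002 := rS 0x8142864d2444e2a5062e359b4669b (k8 c2711 c2957 c9753 c493 c4469 c12839 c787 c11945 (k4 c785 c7322 c7547 c5976 (k2 c1294 c2119 k0))) (by decide +kernel)
def c13046 : PP 8 4 T 0x400001001000000040040145400514105510050040144408040055402000000004002 := rS 0x8357425448a4bae62ce526515509d3cc60ba954d83022612c92cee6d62914b62f (k8 c61 c92 c5793 c4530 c9753 c11833 c1914 c63 (k8 c7428 c606 c4463 c2711 c2710 c753 c4472 c4447 (k8 c4368 c11945 c4398 c4474 c12995 c4471 c11342 c4360 (k4 c12191 c2125 c4322 c11588 (k2 c2461 c5449 k0))))) (by decide +kernel)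
def c13047 : PP 8 4 T 0x400001001000000040000000000000000100000000000000000004000000040004200 := rS 0x201dc86691826566934dad56e5f12a854ebd3f99cfa893193d76c737030229f52c312227478ece63d2ac1068393096cba1c588de2a6d000140659109581607 (k8 c30 c84 c13043 c799 c63 c12975 c262 c4461 (k8 c9753 c13029 c232 c1146 c4466 c753 c92 c7428 (k8 c13044 c4470 c10736 c4406 c234 c4408 c1061 c12664 (k8 c2874 c1036 c4486 c4385 c4384 c606 c4463 c1059 (k8 c3417 c3277 c3462 c4407 c4314 c4409 c4310 c4313 (k8 c3054 c4500 c12260 c1369 c489 c3053 c7883 c2711 (k8 c3050 c3197 c3051 c13045 c1879 c8832 c11833 c13046 (k1 c5762 k0)))))))) (by decide +kernel)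
def c13048 : PP 8 4 T 0x800000001000000040000140000500001500000008000408000000000000020004202 := rS 0x1a4842f20a0632be229ad529d039b4f62105a64ba9b08984b25b (k8 c92 c63 c7428 c606 c2711 c753 c3051 c84 (k8 c799 c7540 c9753 c30 c4344 c4345 c4442 c1219 (k8 c2126 c4369 c1364 c3059 c4826 c4472 c756 c8810 k0))) (by decide +kernel)
def c13049 : PP 8 4 T 0x1001000000040000000000000000100000000000000000000000000040004200 := rS 0x1fc4d4abb53c30be6e5ea444a341c83022612e89d1e000e01562378a96c0659109581607 (k8 c30 c84 c13043 c799 c63 c12975 c92 c13029 (k8 c232 c1146 c262 c4466 c4461 c12664 c2874 c753 (k8 c7428 c606 c4463 c13044 c4470 c1369 c1036 c3054 (k8 c1059 c489 c4486 c4500 c3277 c4385 c13048 c9685 (k1 c13047 k0))))) (by decide +kernel)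
def c13050 : PP 8 4 T 0x1000000000000000000000000000000000000000000000008000000000004080002000 := rS 0x8810021d (k4 c56 c750 c1066 c112 (k1 c9820 k0)) (by decide +kernel)
def c13051 : PP 8 4 T 0x400000001000000000000040000500000500000008000008040000005000180000000 := rS 0xbc24d01b4d2f55299170653a5b368108291 (k8 c3074 c3063 c1066 c9753 c92 c1233 c268 c4469 (k8 c1840 c787 c12000 c11945 c6867 c804 c4437 c7300 (k1 c4465 k0))) (by decide +kernel)
def c13052 : PP 8 4 T 0x20020000000000000000000000100000000400000000000008000000000000006020024 := rS 0x264d06b (k4 c1919 c269 c1072 c9823 k0) (by decide +kernel)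
def c13053 : PP 8 4 T 0x1002000000001000400001000000001000000000000055402040005500020 := rS 0x8839c5da2c22a9dd16878414c2651 (k8 c4405 c4401 c4290 c4465 c4440 c4322 c9124 c266 (k4 c12813 c300 c4362 c1087 (k2 c2109 c7172 k0))) (by decide +kernel)
def c13054 : PP 8 4 T 0x1000000000001000000001002000000011010400001141500001000000000060055402000005500020 := rS 0x51a4d6eae65d2da0c35aa56222a66944a645 (k8 c297 c4290 c4405 c2062 c13053 c4411 c1694 c7420 (k8 c4958 c6159 c4426 c1751 c301 c7551 c1778 c989 (k1 c7468 k0))) (by decide +kernel)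
def c13055 : PP 8 4 T 0x1400000001000000040000000100001000100000000000008000004040000080020200 := rS 0x248c45482ad42695619d62c2a729328aa843a2d7a99841dc32c1629e57e458c00cb2071d9044eb31ea5d723833854365b0b8043a9b2192c60bb5393c662105a961891479b86a04 (k8 c1066 c1099 c345 c10321 c3074 c4486 c4385 c84 (k8 c799 c6309 c2414 c4330 c4825 c13051 c1914 c2189 (k8 c1966 c56 c750 c1911 c92 c6533 c384 c654 (k8 c4470 c1201 c1193 c2188 c3200 c353 c3063 c3062 (k8 c30 c63 c12975 c5755 c297 c5760 c4447 c4370 (k8 c4450 c13052 c9124 c4465 c1071 c1079 c4322 c4440 (k8 c9059 c4398 c7248 c13054 c11927 c4471 c11627 c9009 (k8 c1694 c1639 c4419 c9062 c4464 c267 c9054 c1609 k0)))))))) (by decide +kernel)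
def c13056 : PP 8 4 T 0x11000001000000000000000148100000000020040000000000000000000000000000000 := rS 0x288825f9f686cb (k4 c2025 c4424 c1627 c1247 (k2 c4529 c4493 (k1 c4452 k0))) (by decide +kernel)
def c13057 : PP 8 4 T 0x1000001000000000000004050100002041520040008041108000000000000000000000 := rS 0x63512dd6a95499d4caab82c657aad (k8 c946 c3080 c4368 c4314 c1945 c557 c597 c1239 (k4 c803 c1348 c13056 c7468 (k2 c819 c8633 k0))) (by decide +kernel)
def c13058 : PP 8 4 T 0x2000000000000000000000054000000000000400000002040005500020 := rS 0x689542651 (k4 c4405 c4401 c266 c300 (k1 c2109 k0)) (by decide +kernel)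
def c13059 : PP 8 4 T 0x400001001000000040000010100002050510040100041501544000006080005540000 := rS 0x14526aa198a23e9ce086549ab9574b6818d5a8b43c216b11 (k8 c4411 c7420 c4465 c4440 c4322 c946 c1606 c2109 (k8 c4426 c1671 c301 c1239 c1776 c4904 c4408 c4409 (k4 c7622 c989 c4526 c2062 (k2 c4398 c4474 k0)))) (by decide +kernel)
def c13060 : PP 8 4 T 0x400001001002000040000000000000000100000000000100000004000000000004200 := rS 0x124622a2d4ea95888a8a2132c8f4be4b29a2d0f080c910365b0b8c14aa7278cc420b0087512c34e2ee187f3385572384b9844a91478d40837370401a270f15a2ab1 (k8 c1146 c13029 c13043 c13049 c353 c13050 c4463 c345 (k8 c232 c1066 c1099 c10321 c3074 c2211 c615 c1193 (k8 c4470 c1201 c384 c654 c670 c4486 c4825 c13055 (k8 c3224 c13057 c56 c750 c84 c799 c6309 c2414 (k8 c4330 c4385 c13051 c1911 c92 c6533 c1232 c7547 (k8 c4465 c4440 c4322 c418 c1914 c543 c2188 c63 (k8 c4401 c4405 c13058 c4411 c1694 c11025 c7420 c13059 (k2 c267 c9054 (k1 c1609 k0))))))))) (by decide +kernel)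
def c13061 : PP 8 4 T 0x400001001000000040000000000000000100000000000100000004000000000004200 := rS 0x49188a8b52884d2a758b0a9ca89019640e3b1e97cc2254bae470673f8545e1b2d85c021d258c176a7278cd4b0c48a3cdc350230ca61922270200d13c546eb10f0841656 (k8 c13043 c84 c799 c13049 c1146 c232 c13029 c353 (k8 c13050 c4463 c13055 c1232 c7547 c418 c3224 c1066 (k8 c1099 c345 c10321 c3074 c4486 c4385 c6309 c2414 (k8 c4330 c4825 c13051 c1914 c56 c750 c1911 c92 (k8 c6533 c61 c384 c670 c654 c4470 c1201 c1193 (k8 c2211 c615 c543 c2188 c3062 c30 c63 c12975 (k8 c13057 c13060 c11927 c4471 c11627 c1694 c1639 c1645 (k4 c4419 c13059 c267 c9054 (k1 c1609 k0))))))))) (by decide +kernel)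
def c13062 : PP 8 4 T 0x1000001000000000000004050100002041520040008040008000000000000000000000 := rS 0x18e22a25aa5526b73aaad429f864657aad (k8 c946 c3080 c4368 c4486 c4384 c4329 c1945 c597 (k8 c13056 c1239 c803 c1348 c7468 c11040 c819 c4794 k0)) (by decide +kernel)
def c13063 : PP 8 4 T 0x1400000001000000040000010100002051510000008000201540000006080005540000 := rS 0x9b4567aa144b732a4d5caba5b40c64b52c315a8b43c216b11 (k8 c4411 c7420 c4465 c4440 c4322 c946 c4486 c4385 (k8 c1914 c1606 c2109 c4426 c1671 c301 c1239 c1776 (k4 c11567 c7468 c4526 c1524 (k2 c4398 c381 (k1 c4474 k0))))) (by decide +kernel)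
def c13064 : PP 8 4 T 0x1400000001002000040000010100002040510000000000208400000000000080120200 := rS 0x248c4545aa56222a2884cb2271e99d168784064881b2d85c60bb52a9e1891279b866041082c021d (k8 c56 c750 c84 c799 c1066 c6309 c345 c2414 (k8 c3074 c4486 c4330 c4385 c4825 c13051 c1911 c92 (k8 c6533 c1232 c7547 c4465 c4440 c4322 c654 c2188 (k8 c353 c63 c4401 c4405 c13058 c4411 c1694 c7420 (k4 c13063 c267 c9054 c1609 k0))))) (by decide +kernel)
def c13065 : PP 8 4 T 0x400001001000000040000000000000000100000000000000000004000000000004200 := rS 0x49188a8b52884d2b1615395125c0c94d86444e05c362f182ed625b0196442071d8043a33058f49ea752c31228f3725d72381a8dcce043f854200d13878ad15 (k8 c13029 c13043 c13049 c353 c13050 c4463 c384 c670 (k8 c1066 c654 c232 c1099 c4470 c1201 c1193 c345 (k8 c10321 c3074 c4486 c4385 c4330 c2414 c2188 c84 (k8 c6309 c56 c750 c3062 c30 c799 c63 c12975 (k8 c92 c1146 c4825 c13051 c61 c6533 c1911 c13055 (k8 c1232 c3224 c418 c7547 c13061 c13062 c13064 c11927 (k8 c4471 c1694 c1639 c1645 c4419 c13063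 c267 c9054 (k1 c1609 k0)))))))) (by decide +kernel)
def c13066 : PP 8 4 T 0x10000000001002000000004000044000460000000000000008000001005540000000000 := rS 0x14a683058aad8b94ca229 (k8 c4402 c4405 c4290 c4418 c2783 c1787 c9855 c2112 (k2 c4494 c4426 k0)) (by decide +kernel)
def c13067 : PP 8 4 T 0x1000000000000000000000010100000055500000008008100000000000000000000000 := rS 0xb75aa8d9275 (k4 c1688 c1729 c7471 c1348 (k2 c1078 c7468 k0)) (by decide +kernel)
def c13068 : PP 8 4 T 0x1000000000000000020000811001000055500000000000000060000000000000000000 := rS 0x51add9ccb (k4 c1751 c381 c1247 c1523 (k1 c7468 k0)) (by decide +kernel)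
def c13069 : PP 8 4 T 0x2000010000000044000000044000000540001000000005540005500000 := rS 0x32c1558882984ca229 (k8 c4402 c4405 c4401 c4290 c2109 c2112 c4314 c556 (k1 c6230 k0)) (by decide +kernel)
def c13070 : PP 8 4 T 0x800000000000000000000040000500001500000000000040040000200000108000220 := rS 0x5eafd36443b2755299 (k8 c4443 c4345 c4344 c425 c424 c6867 c3093 c1170 (k1 c2126 k0)) (by decide +kernel)
def c13071 : PP 8 4 T 0x1000001001002000040004810045000041500040000400008064001005140004100020 := rS 0x1ca0892649f686b56712182d04a954ce8b09a1d3669840642f458c8bd4f0c (k8 c4486 c4330 c1992 c4369 c4399 c532 c268 c4465 (k8 c4437 c804 c4440 c4401 c5853 c654 c266 c13066 (k8 c13069 c1710 c7073 c381 c1518 c4421 c1622 c1792 (k4 c13068 c4483 c1069 c4408 k0)))) (by decide +kernel)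
def c13072 : PP 8 4 T 0x20000000440001000000000080000000000 := rS 0xcb05 (k2 c4314 c556 (k1 c4904 k0)) (by decide +kernel)
def c13073 : PP 8 4 T 0x1000001000002000040000810001000051544040000440009064000000080005500000 := rS 0x821c9927da1a499c4868224a61328d156b11 (k8 c4411 c7420 c4399 c4405 c4401 c4290 c13072 c2109 (k8 c7073 c381 c13068 c4421 c1622 c1792 c1069 c4483 (k1 c4408 k0))) (by decide +kernel)
def c13074 : PP 8 4 T 0x1001002000040000040000000000100000000000000000004000000000004200 := rS 0x92311516a95888a8964c61af9368734af517083b86d62592d8848233058f45a4f53a961891479b92eb91c0d46e673f854200d13c553aa957a6556191885cd71202078ac13 (k8 c4401 c13043 c13049 c1066 c13065 c4442 c532 c4441 (k8 c268 c4445 c4443 c4346 c4345 c4344 c13029 c353 (k8 c13050 c4463 c384 c670 c654 c232 c1099 c4470 (k8 c1201 c1193 c345 c10321 c3074 c4486 c4385 c4330 (k8 c2414 c2356 c2188 c84 c6309 c3063 c799 c92 (k8 c63 c1146 c13070 c9124 c4465 c5853 c1079 c4437 (k8 c4440 c804 c2126 c3227 c1241 c1323 c13071 c4411 (k4 c1694 c7420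 c13073 c267 (k2 c9054 c1609 k0))))))))) (by decide +kernel)
def c13075 : PP 8 4 T 0x20000001000000000000080000000000000000008000000000000000000001400400 := rS 0xdc24f080 (k4 c4945 c1350 c4439 c598 (k1 c4465 k0)) (by decide +kernel)
def c13076 : PP 8 4 T 0x1000000000001000000000811001000051544000000000009560000000080005540000 := rS 0x49b40e689 (k4 c7314 c12124 c2109 c1069 (k1 c13068 k0)) (by decide +kernel)
def c13077 : PP 8 4 T 0x1001000000040000000000000000100000000000000000004000000000004200 := rS 0x49188a84c5f26d6a512984d2a8734a2d7b1615420eee50daec2e1955a64d63154a7624675ca5c2ab12d80cb2210581c7641008747a3827a9d4b0c48a3cdc100689e2a3502078ac37 (k8 c232 c13043 c13049 c1066 c1099 c13029 c353 c13050 (k8 c4463 c345 c10321 c3074 c4486 c4385 c4330 c2414 (k8 c4470 c2188 c56 c750 c3063 c3062 c30 c84 (k8 c799 c63 c12975 c92 c1146 c384 c1193 c1201 (k8 c654 c13065 c4344 c4345 c4441 c4442 c4443 c4445 (k8 c268 c532 c13075 c13070 c13074 c9124 c4465 c11927 (k8 c4471 c1079 c4322 c4437 c4440 c1694 c1639 c292 (k8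 c1644 c4419 c804 c2126 c1241 c13076 c267 c9054 (k1 c1609 k0))))))))) (by decide +kernel)
def c13078 : PP 8 4 T 0x20000001000000000000000100000000400000000000008000050000000106020024 := rS 0x23245 (k2 c7547 c13052 (k1 c4472 k0)) (by decide +kernel)
def c13079 : PP 8 4 T 0x1000000000001000011000004000040055544000008000001100000200000005540000 := rS 0x2e56a493e94a0889 (k8 c7030 c4464 c2109 c4409 c373 c1347 c1202 c7468 k0) (by decide +kernel)
def c13080 : PP 8 4 T 0x1000000000000000000000004000040055500000090000000000000200000000000000 := rS 0x172b5 (k2 c1619 c3085 (k1 c7468 k0)) (by decide +kernel)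
def c13081 : PP 8 4 T 0x5400000000001000050040104000000104544000018000009000000202040085000200 := rS 0x8a9c242a48f432933112153994557104a84ccaa34b82cb22d53aec2e010ea6c860425a961891 (k8 c3074 c4486 c4385 c1914 c1066 c2189 c1966 c56 (k8 c750 c1911 c4825 c4330 c2356 c63 c84 c1194 (k8 c4241 c7044 c530 c11994 c4487 c4415 c1916 c13080 (k8 c385 c7030 c13079 c2109 c4395 c1317 c1483 c4473 (k2 c11945 c2336 (k1 c1232 k0)))))) (by decide +kernel)
def c13082 : PP 8 4 T 0x1400000001000000040000000100000000500000000000008000008200000080020200 := rS 0x2864951335509d56114a4c544abca2474b04c2a2a43a2d7a99841dc32d14d85c362f182ecb6032c8840e410087466430231c9e7105a9d3ea5862462ee52aa4d6e6e (k8 c345 c3077 c3067 c8954 c4288 c4356 c3074 c4486 (k8 c4385 c4384 c4330 c84 c582 c2414 c2374 c1066 (k8 c2189 c6309 c56 c750 c3063 c30 c799 c63 (k8 c12975 c92 c4825 c13051 c61 c6533 c1911 c1966 (k8 c2241 c13078 c9124 c4465 c1071 c1079 c4322 c4440 (k8 c13081 c2220 c1639 c289 c1642 c1645 c1774 c7030 (k8 c3268 c2109 c419 c293 c1232 c11945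 c1484 c948 (k2 c373 c4393 (k1 c4473 k0))))))))) (by decide +kernel)
def c13083 : PP 8 4 T 0x5000000001001000010040004004000005500000010400009000000201440084000200 := rS 0x224c61539a54266551ab4ce972cacc660b16a2cd287840642e04 (k8 c1066 c532 c268 c4465 c4440 c4437 c4322 c2356 (k8 c84 c6309 c3200 c63 c1194 c655 c4554 c4241 (k8 c7044 c530 c11994 c13080 c385 c7153 c7030 c8058 k0))) (by decide +kernel)
def c13084 : PP 8 4 T 0x1001000000040000000000000000100000000000000000000000000000004200 := rS 0x892894c2615150bda24c61af9368734a2d7b083b86d76170caad326b18aa53b125ba4caae58b8f94aa7862451e7127b1cdc10068e0023513904081d0f084b6568a8dd620b (k8 c84 c1146 c232 c13029 c13043 c92 c799 c13049 (k8 c56 c1066 c3063 c353 c1099 c750 c4470 c13050 (k8 c4463 c345 c2374 c2414 c582 c10321 c3074 c4486 (k8 c4330 c4385 c13077 c4356 c4288 c8954 c3067 c3077 (k8 c13082 c4344 c4345 c4441 c4442 c4443 c4445 c268 (k8 c532 c13075 c13070 c9124 c4465 c1079 c4322 c4437 (k8 c4440 c804 c2126 c3227 c1241 c459 c1992 c13083 (k4 c2220 c1639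 c292 c1645 (k2 c7030 c2109 k0))))))))) (by decide +kernel)
def c13085 : PP 8 4 T 0x2020000000002000000000000000000040100000000000000001000010054400000000 := rS 0x9588a898e8f1c8dd6eb5 (k8 c4389 c4353 c4386 c4348 c4388 c4289 c7771 c4337 (k2 c858 c10839 k0)) (by decide +kernel)
def c13086 : PP 8 4 T 0x2400001000001000000000000010004000102400004001405000404010000040000200 := rS 0x39b26088b88a557275329f4c6671ea440a0b58adce2b50a9751e294b808401d59a84b459 (k8 c1105 c4476 c11524 c1185 c1057 c4466 c230 c2933 (k8 c2834 c4388 c840 c2349 c4389 c4387 c4353 c4350 (k8 c84 c263 c12700 c234 c919 c11648 c7516 c12368 (k8 c11627 c7514 c11624 c11040 c11317 c4478 c716 c4408 (k1 c8522 k0))))) (by decide +kernel)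
def c13087 : PP 8 4 T 0x1000000000000000014000000000000000000001006440045610000400 := rS 0x5131c5a93 (k4 c1654 c7859 c330 c11118 (k1 c9384 k0)) (by decide +kernel)
def c13088 : PP 8 4 T 0x2400001001000000040000000000000000100000000000004000004000000042000200 := rS 0xd06330cea3d288eca7052a3953ea1239be186124a104ec16293a30bf5692d0645361042e0d5d8e46eb75ead44a2b2fa440a0b118d40e294b968b243268c85e31010803a0e (k8 c13084 c1057 c4466 c230 c11577 c8877 c4469 c2162 (k8 c2151 c1105 c4476 c2933 c2834 c30 c1330 c833 (k8 c84 c263 c12700 c5407 c2143 c313 c4389 c4354 (k8 c4353 c4386 c4348 c4390 c32 c35 c1873 c255 (k8 c2178 c9104 c1875 c2949 c6330 c4472 c2114 c4370 (k8 c4450 c2181 c259 c2183 c878 c4467 c1499 c3471 (k8 c11524 c4384 c13085 c13086 c4406 c9029 c1601 c1605 (k4 c13087 c11627 c9009 c4559 (k2 c2115 c2186 k0))))))))) (by decide +kernel)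
def c13089 : PP 8 4 T 0x2000000000000020000000000000000000000000000000000100001500500000000000000000000000 := rS 0x419854ea5 (k4 c4385 c4330 c4326 c4452 (k1 c9368 k0)) (by decide +kernel)
def c13090 : PP 8 4 T 0x2020000001002000000000000010000040144100001540500010000010050400008000 := rS 0x8957b2a8aab8818ccb056415090a11392cfec7 (k8 c4289 c1455 c1333 c4324 c4329 c13085 c242 c243 (k8 c4406 c1646 c1728 c4478 c4415 c13089 c4599 c8140 (k2 c2025 c2120 k0))) (by decide +kernel)
def c13091 : PP 8 4 T 0x2010001000002000000000400410040840144400001142091000000000040000008200 := rS 0x2bd126332b14fa935c50c923d088346a071c8dd6eb5238ecfec7 (k8 c4289 c1455 c4403 c4404 c4389 c4353 c4386 c4348 (k8 c30 c1330 c32 c113 c234 c4199 c8226 c7430 (k8 c12942 c1356 c1254 c579 c883 c4529 c869 c11533 k0))) (by decide +kernel)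
def c13092 : PP 8 4 T 0x100000000000000000000008000000000000000450000000000000000000000000 := rS 0xc711 (k2 c4415 c1613 (k1 c4478 k0)) (by decide +kernel)
def c13093 : PP 8 4 T 0x2000001000002000000000000414000800044440001152012000001010000000010000 := rS 0x25112633e9217275a18e46eb75a91c7705 (k8 c4406 c4403 c4404 c4389 c4353 c4386 c4348 c8226 (k8 c1686 c5280 c7430 c1623 c883 c4529 c11210 c5073 k0)) (by decide +kernel)
def c13094 : PP 8 4 T 0x2010001001002000040000000410000000144000001100090054050000000200000200 := rS 0x2511274318f15665829513483225117e0b08aec72375e8ad2e6b0119cfec73009402a3118d41c07 (k8 c30 c13084 c1330 c833 c9264 c9668 c313 c11620 (k8 c4289 c1455 c5084 c230 c6117 c2933 c2143 c4354 (k8 c4386 c4348 c4390 c113 c84 c8901 c4474 c2114 (k8 c4452 c441 c13091 c4406 c1646 c13092 c13093 c7047 (k4 c235 c9049 c11210 c11102 k0))))) (by decide +kernel)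
def c13095 : PP 8 4 T 0x2000001000002000001000000400000000020040000000001000001010000000000000 := rS 0xc9828e46eb7 (k4 c4353 c4386 c4348 c4314 (k2 c637 c10069 k0)) (by decide +kernel)
def c13096 : PP 8 4 T 0x2410001000002000001000000011841040100000001542081000004000040000008200 := rS 0x3397eae4498d56653ea7d26b8a19247a11068d40e391badd6ab3238ecfec7 (k8 c4289 c1455 c4403 c4404 c1185 c4389 c4353 c4386 (k8 c4348 c30 c1330 c32 c113 c234 c4199 c8226 (k8 c2113 c12942 c1395 c1356 c579 c2013 c883 c13095 (k4 c12794 c9441 c909 c1525 k0)))) (by decide +kernel)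
def c13097 : PP 8 4 T 0x400000000000000001000000014800000000000001552000012000000000000008000 := rS 0x2bd126367b20fa11 (k8 c113 c1623 c243 c1791 c883 c637 c909 c12794 k0) (by decide +kernel)
def c13098 : PP 8 4 T 0x2000000000000000000040000400000000000040000000002001405410000000000000 := rS 0x2e0ea391badd6b05 (k8 c4406 c4389 c4353 c4386 c4348 c1686 c2113 c5280 k0) (by decide +kernel)
def c13099 : PP 8 4 T 0x2400001001002000040000000000000000100000001000490000014000000200000200 := rS 0xae50a24c63c649255665829519aa6272a5462630434fead33b1c5a3b2382c02251588c6a072ea3c529d4bacc9a8b4392d0308349ac8632178c4040e (k8 c13084 c230 c11577 c8877 c4469 c2151 c6117 c2842 (k8 c4479 c4439 c1333 c4440 c4322 c2162 c1185 c2933 (k8 c2971 c2834 c4388 c840 c30 c1330 c833 c2143 (k8 c313 c9668 c84 c4404 c4403 c4286 c4289 c5084 (k8 c942 c1455 c13090 c11620 c4467 c9264 c2979 c13094 (k8 c449 c1479 c13096 c4406 c1646 c13092 c13097 c1726 (k4 c13098 c7047 c9049 c5930 (k2 c12794 c908 k0)))))))) (by decide +kernel)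
def c13100 : PP 8 4 T 0x2420001001000000040000000000000000100000000000005000004000000040000200 := rS 0x662ad04a957a68a64460c651316820ec59114aae586753298cce3d3f8d40eb5128ac2a294bacd0a8b43b94827713a854e9fa2a06106d0c804d643348c85e312e968b28f2f83804200ea440a0b (k8 c84 c263 c12700 c1057 c4466 c230 c13084 c5407 (k8 c4388 c1105 c4476 c840 c11577 c8877 c4469 c2842 (k8 c2151 c6117 c9668 c13088 c7462 c4479 c4439 c13089 (k8 c4384 c4330 c4329 c4324 c7751 c1063 c13099 c4440 (k8 c4322 c1496 c1185 c2933 c2834 c2349 c2143 c313 (k8 c4389 c30 c1330 c1456 c234 c919 c11648 c12368 (k8 c11627 c9009 c7514 c11624 c11255 c4468 c11556 c4478 (k8 c4471 c4314 c9062 c4420 c4472 c418 c441 c983 (k4 c866 c9865 c1972 c8638 (k1 c2064 k0)))))))))) (by decide +kernel)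
def c13101 : PP 8 4 T 0x2420000000001000000000000000001041100004001500506000405410050000100008 := rS 0x56335108237abd9e7e3ed0c58c664c4492955c8e46eb75a89cc2a153a7e8a818404e0a53 (k8 c9029 c4406 c34 c4479 c4439 c13089 c4384 c4330 (k8 c4329 c4326 c4324 c4389 c4353 c4386 c4348 c7514 (k8 c11624 c12404 c11255 c1726 c2113 c4468 c4391 c1352 (k8 c7228 c1520 c983 c1459 c12933 c8144 c2065 c5289 (k1 c6601 k0))))) (by decide +kernel)
def c13102 : PP 8 4 T 0x2420001001000000040000000000000000100000000000004000004000000040000200 := rS 0x15eab652b4ce484498c5a931e0ec8e65829509d454fa844e0d1b894567b0a88c6a072ea3c529d4bacc9a4b40c20d64372904ee69190bcda19008c4be0e012440a0b2d0803a59 (k8 c1105 c1057 c4466 c4476 c84 c263 c12700 c230 (k8 c13084 c5407 c11577 c9668 c13088 c7462 c8877 c4469 (k8 c2842 c7751 c1063 c13099 c2151 c6117 c4479 c4439 (k8 c1333 c2162 c1185 c2933 c2971 c2834 c4388 c840 (k8 c30 c1330 c833 c2349 c12934 c2143 c313 c4386 (k8 c32 c4324 c4329 c4384 c13089 c4474 c13100 c4406 (k8 c1646 c1603 c1601 c13101 c1654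 c7859 c7047 c9049 (k4 c13087 c918 c942 c453 (k2 c13092 c8140 (k1 c12794 k0)))))))))) (by decide +kernel)
def c13103 : PP 8 4 T 0x1000000000000000000810054000001154010000000008150000000000 := rS 0x2ad5b10 (k4 c4468 c942 c4415 c11210 k0) (by decide +kernel)
def c13104 : PP 8 4 T 0x2400000001001000040000000000000010001000001010091041055010048200108408 := rS 0x158d155b188ec1a19f62d041dc4458af44a68a6cb41b3c89445faec72375e935168725a061069190bc626b3f99cc629 (k8 c2834 c11648 c919 c1456 c6117 c11577 c8877 c4469 (k8 c2842 c4479 c4439 c1333 c4440 c4322 c2162 c4354 (k8 c4386 c4348 c4390 c8901 c4474 c2114 c4400 c4452 (k8 c4455 c418 c441 c7314 c868 c13103 c4332 c11556 (k8 c4478 c4471 c4409 c4806 c4420 c1331 c4473 c1972 (k2 c2429 c12794 (k1 c943 k0))))))) (by decide +kernel)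
def c13105 : PP 8 4 T 0x2010000000001000040000000000040051100000000000000001004000158040000000 := rS 0xa191d3ec749c411eb7 (k8 c4353 c4388 c4468 c11351 c408 c4414 c12069 c11164 (k1 c4473 k0)) (by decide +kernel)
def c13106 : PP 8 4 T 0x2400001001000000040000000000000000100000000000005000004000000040000200 := rS 0x34558c655a688ec18c9f62d041dabe222c44a64a6a62725572c33a994c667248f4220d1c8dd6eb515854529d4bacd0a8b43c20d64372904ee69190bcda191897d220505968b226118d40ea3304344a0107008401d (k8 c1057 c4466 c230 c13084 c9668 c313 c13102 c11620 (k8 c2940 c30 c1330 c833 c4467 c1105 c4476 c84 (k8 c263 c12700 c5407 c11577 c13088 c7462 c8877 c4469 (k8 c2842 c7751 c1063 c13099 c2151 c6117 c4479 c4440 (k8 c4322 c1496 c1185 c2933 c2971 c2834 c2349 c2143 (k8 c4389 c4353 c4386 c4348 c32 c113 c234 c4199 (k8 c919 c11648 c12368 c11627 c9009 c7514 c11624 c13104 (k8 c449 c2391 c2011 c7314 c13105 c4332 c983 c11556 (k8 c4478 c4471 c4409 c9062 c4420 c1331 c4488 c1972 (k4 c2113 c12794 c2429 c943 k0)))))))))) (by decide +kernel)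
def c13107 : PP 8 4 T 0x400000000002000001001001000040000000000000010044050001154010054050018150200000000 := rS 0x1129a4191288bf5d8e46ebd (k8 c4354 c4386 c4348 c4390 c8901 c4474 c2114 c4452 (k2 c441 c4529 (k1 c13103 k0))) (by decide +kernel)
def c13108 : PP 8 4 T 0x2400001001001000040000000400000000000000001002016000055000048200008048 := rS 0x3354c4e55ab4ce7da198c5a484aae4223514935168725a061069190bc626b2d414ca47068ecfec7 (k8 c2170 c1455 c1601 c32 c1603 c1646 c4406 c4476 (k8 c6117 c11577 c8877 c4469 c2842 c4479 c4439 c1333 (k8 c4440 c4322 c2162 c2834 c1330 c113 c7514 c11624 (k8 c13098 c12650 c842 c4421 c1623 c918 c942 c13092 (k4 c13107 c449 c1479 c13097 k0))))) (by decide +kernel)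
def c13109 : PP 8 4 T 0x2400001001000000040000000000000000100000000000004000004000000040000200 := rS 0xa128092a6272fd96455730556ad33a24c62d498f18e3b239960a5454898c10d7292d0e8120c20ee6d0c9ac9a43348c81abb1c8dd7a01128c4565f48814167b118d41c0717a7404200e968b2b3 (k8 c1185 c1105 c4476 c1057 c4466 c230 c2971 c8877 (k8 c30 c13084 c1330 c833 c12934 c84 c263 c12700 (k8 c5407 c2143 c11577 c313 c9668 c4354 c4386 c4348 (k8 c4390 c32 c4469 c2842 c2151 c2162 c6117 c13088 (k8 c7462 c7751 c4479 c1063 c4439 c4440 c1333 c13099 (k8 c13102 c11620 c4467 c2979 c13106 c4406 c1646 c1603 (k8 c1601 c2170 c13108 c1654 c7859 c7047 c9049 c918 (k8 c942 c13092 c8008 c12794 c445 c8140 c9441 c2114 (k4 c449 c453 c908 c4473 (k1 c4423 k0)))))))))) (by decide +kernel)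
def c13110 : PP 8 4 T 0x2820000001002000000000000000000000100000000040080000100001040400008208 := rS 0x2b220d1319960a426415083192429d42271a81c5e294b8cd5ea55594c5a51 (k8 c4405 c4286 c4290 c4445 c4444 c4346 c4340 c2933 (k8 c2834 c8877 c30 c1330 c4324 c4329 c4330 c13085 (k8 c8237 c12912 c242 c243 c4472 c4406 c1646 c1728 (k4 c2153 c4478 c2112 c4338 k0)))) (by decide +kernel)
def c13111 : PP 8 4 T 0x2000000001002000004000000000000000000004000000000040145000000002008040 := rS 0x114822612c820d5d8e46ebd5f8d58251 (k8 c4405 c6869 c1330 c6330 c4354 c4386 c4348 c4390 (k4 c32 c1873 c1875 c2114 (k2 c245 c12955 (k1 c645 k0)))) (by decide +kernel)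
def c13112 : PP 8 4 T 0x2800000001000000000000000000001001100000000000000050150010400000000000 := rS 0xa78c129768f1c8dd7abf (k8 c6330 c4354 c4386 c4348 c4388 c4390 c2114 c4472 (k2 c1856 c4539 k0)) (by decide +kernel)
def c13113 : PP 8 4 T 0x2800000001000000040000000000000001100000000000080050140010000000000208 := rS 0x4b4da98802f4eaa532a5 (k8 c4444 c4443 c4345 c2971 c8877 c13112 c12912 c1848 (k2 c1856 c13025 k0)) (by decide +kernel)
def c13114 : PP 8 4 T 0x2800000001002000040000000400000001100004000000480000100001041400008209 := rS 0x5c9552a8731d2e229b44c24d2ac8c06102d12610c9ea3131821a7f33b1c5a472982c2235038e57a294b8cd5eab (k8 c4445 c4346 c4340 c2933 c2834 c4354 c4348 c30 (k8 c1330 c113 c84 c4290 c4404 c4286 c4289 c5084 (k8 c1455 c13110 c11620 c4467 c9264 c448 c12958 c13113 (k8 c2164 c1895 c244 c4569 c7129 c885 c4436 c2038 (k8 c4448 c4338 c4458 c820 c1905 c860 c4151 c5821 (k1 c10570 k0)))))) (by decide +kernel)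
def c13115 : PP 8 4 T 0x20001000001000041000000045000000001000001500181120000000000040508208 := rS 0x82a2cca894398cce491e9fc1611068a68a82 (k8 c245 c4451 c2834 c32 c113 c84 c1456 c234 (k8 c4199 c919 c11648 c9141 c7030 c12368 c12354 c8638 (k1 c6907 k0))) (by decide +kernel)
def c13116 : PP 8 4 T 0x2820001001001000040000000000000000100000000000080000100001041440100208 := rS 0x24d0c58ca56a8e94cf6391ca65466a08a26926214f0183b85c96d12790883194fa9d42270382c1a0e5d9751e2f148ccdaa9579ad4aab (k8 c4445 c4444 c4442 c4346 c4345 c4342 c4340 c2834 (k8 c8877 c4388 c840 c4390 c13084 c32 c84 c30 (k8 c4324 c4329 c4330 c4384 c8237 c12912 c4472 c2152 (k8 c2153 c1954 c1951 c1887 c236 c237 c1495 c2111 (k8 c845 c3863 c245 c3975 c13115 c9029 c1603 c2172 (k8 c7875 c4475 c12403 c4458 c4855 c2112 c4425 c368 (k1 c4473 k0))))))) (by decide +kernel)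
def c13117 : PP 8 4 T 0x2000000001000000040005010044041154000000000000000045555410000000000000 := rS 0x2b194bf5d8e46eb5 (k8 c4389 c4386 c4348 c4390 c6330 c8983 c6161 c2027 k0) (by decide +kernel)
def c13118 : PP 8 4 T 0x2000001001000000040000000000000000100000000000005000004000000042000200 := rS 0x14526a9996ac34a2cef192124d3ea0a1b188ec13ea1e2d041dc4458955cb0cea6568a24c667248f422391badd6a1b14a752eaf35a6556a33013c4d0d72accf65f00a440a0b22854563101168b2231a894401d19c482e410392c1a0e (k8 c13084 c32 c1875 c30 c1873 c35 c13109 c4340 (k8 c1057 c4466 c313 c1330 c833 c1105 c4476 c230 (k8 c11577 c2143 c2349 c440 c84 c263 c12700 c9668 (k8 c5407 c12934 c1185 c13114 c13116 c4467 c448 c11620 (k8 c2940 c4445 c4443 c4442 c4346 c2933 c2971 c2834 (k8 c2396 c4389 c4353 c4386 c4348 c113 c234 c4199 (k8 c919 c11648 c7030 c260 c12368 c11627 c9009 c7514 (k8 c11624 c13105 c4332 c11556 c4478 c4471 c4410 c4409 (k8 c4420 c1331 c2113 c4391 c409 c1391 c7994 c13117 (k8 c4446 c1887 c4632 c845 c8058 c2027 c900 c413 (k2 c4453 c4474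 k0))))))))))) (by decide +kernel)
def c13119 : PP 8 4 T 0x2801000001001000040000000000000001110000000002082140154001040000008208 := rS 0x1e0b186ad34d2916816893182111a8bc529719abd57051d81d8a53 (k8 c9029 c7493 c30 c1601 c4406 c4445 c4346 c4340 (k8 c2933 c2834 c8877 c1330 c113 c6869 c13113 c2164 (k8 c1895 c1766 c4475 c885 c8622 c4459 c2112 c2115 (k1 c329 k0)))) (by decide +kernel)
def c13120 : PP 8 4 T 0x2000001001000000040000000000000000100000000000004000004000000042000200 := rS 0x923d162b4d28b3bb4632423fb151251638ec8e538295083090b8345e294babd56a33013c4d0d72accf65f00a440a0b22854563101168b2231a8380e25100746712 (k8 c13109 c4340 c1057 c4466 c313 c30 c13084 c1330 (k8 c833 c1105 c4476 c230 c11577 c2143 c2349 c440 (k8 c84 c263 c12700 c9668 c5407 c12934 c1185 c13114 (k8 c13116 c4467 c448 c11620 c2940 c4445 c4346 c2933 (k8 c2834 c8877 c32 c35 c4436 c1873 c13118 c4406 (k8 c9029 c1603 c1601 c2170 c1605 c2038 c7493 c1455 (k8 c13119 c4446 c2153 c1887 c7804 c845 c8622 c2112 (k2 c329 c369 (k1 c13098 k0)))))))))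 (by decide +kernel)
def c13121 : PP 8 4 T 0x2000001001000000040000000000000000100000000000004000004000000040000200 := rS 0x9a430c93c4d0d72914671259968b201128c4565f012440a0b3d85446200e8d41c07 (k8 c30 c13084 c1330 c1057 c4466 c833 c2349 c12934 (k8 c84 c263 c12700 c230 c5407 c2143 c11577 c313 (k8 c9668 c1105 c4476 c1185 c13109 c4340 c440 c13114 (k4 c13116 c4467 c448 c13120 (k2 c236 c244 (k1 c13113 k0)))))) (by decide +kernel)
def c13122 : PP 8 4 T 0x2000000001001000010200000000000000000000000000000010050018000206001000 := rS 0x8b4214c9ccf5f92d06455d8e46ebd (k8 c4354 c4386 c4348 c4390 c2178 c9104 c1875 c6330 (k4 c1793 c2114 c421 c259 (k2 c7874 c716 k0))) (by decide +kernel)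
def c13123 : PP 8 4 T 0x2020000001001000050200000000000024000000000054490000010008200200008200 := rS 0x4648ac04daa95e532733e8a4b45a06106d0c9ad5a4d219a6260d1a81c021b18808ba8f43a260911 (k8 c4332 c4478 c4314 c4410 c4388 c840 c230 c11577 (k8 c2396 c9668 c30 c1330 c32 c4340 c2842 c2151 (k8 c2162 c943 c6117 c13122 c7462 c4479 c4439 c4322 (k8 c1333 c13089 c1792 c4474 c421 c983 c12794 c11533 (k4 c1700 c441 c4450 c4472 k0))))) (by decide +kernel)
def c13124 : PP 8 4 T 0x2020001001001000050000000000000024100040000054480000000000200240000200 := rS 0x224451990590a553a84c259128c45615118d41c072e8bc04a3479f60911 (k8 c4332 c4478 c4409 c4388 c858 c230 c8877 c840 (k8 c30 c13084 c1330 c833 c2349 c2143 c11577 c313 (k8 c1105 c4326 c4329 c4330 c4385 c5857 c12912 c13123 (k2 c440 c4469 (k1 c13116 k0))))) (by decide +kernel)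
def c13125 : PP 8 4 T 0x2000000001000000000000000000000000000000000000000010040000008202008040 := rS 0x2fc9e4b229041a355d8e46ebd (k8 c4354 c4386 c4348 c4390 c1330 c32 c1873 c2178 (k4 c1875 c2181 c6330 c2114 k0)) (by decide +kernel)
def c13126 : PP 8 4 T 0x10000004040000001154010000200000200200000000 := rS 0x2bd345343a260911 (k8 c4332 c4478 c4314 c4410 c2388 c441 c983 c11533 k0) (by decide +kernel)
def c13127 : PP 8 4 T 0x2000000001000000010000000000000024000000000054014000000008208200008200 := rS 0x2bd56a66093a30bf2292c828b409de106d0c9ad5a4d219a6263503aec72375e9680231012260911 (k8 c4332 c4478 c4314 c230 c11577 c9668 c4476 c4354 (k8 c4386 c4348 c4390 c30 c1330 c4340 c2842 c2151 (k8 c2162 c943 c6117 c13125 c7462 c4479 c7751 c4439 (k8 c4322 c1063 c1333 c13126 c6330 c4472 c2114 c4450 (k4 c449 c1700 c2914 c12794 k0))))) (by decide +kernel)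
def c13128 : PP 8 4 T 0x2800000001001000040000000044000021115000001454080041150000000000008208 := rS 0x116ad34a09364c8c0446a07 (k8 c30 c1330 c113 c4472 c13113 c4448 c245 c844 (k2 c860 c12354 (k1 c2120 k0))) (by decide +kernel)
def c13129 : PP 8 4 T 0x4001040014004000454080000088000000000000400 := rS 0x569a58077 (k4 c1887 c405 c845 c1987 (k1 c8008 k0)) (by decide +kernel)
def c13130 : PP 8 4 T 0x2000001001000000040000000000000000100000000000004000000000000040000200 := rS 0x1009843559ac9eaf892648a6d19a144c6086a250f048898cce7f32a50922c68a4caae51e8f92e9d148bc46153d97c622501004b4202c8d41c070ea440a0b (k8 c84 c263 c12700 c1057 c30 c13084 c1330 c1105 (k8 c4466 c4476 c9668 c230 c313 c11577 c5407 c12934 (k8 c2349 c833 c8877 c2834 c2971 c2933 c13121 c145 (k8 c4288 c8954 c1121 c2427 c400 c2333 c401 c12368 (k8 c1456 c919 c11648 c4332 c4478 c4410 c4314 c13124 (k8 c11620 c4467 c4564 c13127 c958 c440 c6171 c4469 (k8 c5815 c448 c581 c1701 c13129 c13113 c13128 c1995 k0))))))) (by decide +kernel)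
def c13131 : PP 8 4 T 0x1000000000000000080000000008000080000202 := rS 0xf641221b2262f (k4 c172 c4340 c950 c432 (k2 c1104 c12802 (k1 c12792 k0))) (by decide +kernel)
def c13132 : PP 8 4 T 0x2400000001000000000000000000000000000000000500000040150014000005008000 := rS 0x1024a84134dabb1c8dd7abf (k8 c6330 c4354 c4386 c4348 c4390 c5889 c244 c4479 (k2 c2114 c4439 (k1 c1333 k0))) (by decide +kernel)
def c13133 : PP 8 4 T 0x2400000001000000000000000000000000000000000500000040150014004404008000 := rS 0x3043104a7261b097090c2141abb1c8dd7abf (k8 c6330 c4354 c4386 c4348 c4390 c32 c1495 c13132 (k8 c4436 c1875 c4479 c2114 c905 c245 c9728 c640 (k1 c4326 k0))) (by decide +kernel)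
def c13134 : PP 8 4 T 0x400001001000000000000000000000000000000000100500080000004000002000000 := rS 0x30c3550241820c5e4d (k8 c177 c1870 c1998 c4469 c298 c299 c4381 c977 (k1 c4477 k0)) (by decide +kernel)
def c13135 : PP 8 4 T 0x2420000001000000000000400000001400100000000000000080010004000400000000 := rS 0x4c0b9523112a9d76a5 (k8 c1400 c4390 c4330 c4381 c298 c6029 c4469 c10851 (k1 c1840 k0)) (by decide +kernel)
def c13136 : PP 8 4 T 0x1000000000002000001001002000001000000000000000000000000000001000150000000000008200 := rS 0xcba5b09a2cf5c50c923d0883472375baf56a53238ec7ebf1a81d8251 (k8 c4405 c6869 c30 c1330 c6330 c4288 c4403 c4404 (k8 c4290 c4389 c4354 c4353 c4386 c4348 c32 c113 (k8 c234 c4199 c8226 c7430 c1525 c5846 c6159 c4459 (k2 c2028 c4495 k0)))) (by decide +kernel)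
def c13137 : PP 8 4 T 0x100000000000000000000000000000000040000010000002000000002000000010 := rS 0x199402a (k4 c282 c283 c4191 c897 k0) (by decide +kernel)
def c13138 : PP 8 4 T 0x4000002000000080000200 := rS 0x2a (k2 c274 c12961 k0) (by decide +kernel)
def c13139 : PP 8 4 T 0x2400001001002000040000000000001000100000000510000000151004004400000210 := rS 0x4882890a90d66d149c471d8fd667f6386d7e350701d3718 (k8 c4472 c4448 c30 c13084 c1330 c6330 c424 c4289 (k8 c1455 c10182 c4288 c4403 c4404 c13133 c4396 c1479 (k4 c13135 c13136 c4467 c4406 (k2 c13098 c13137 k0)))) (by decide +kernel)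
def c13140 : PP 8 4 T 0x2000001001002000040000000000000000100000000000084000110000000000000200 := rS 0x1220a54669389b45258914d0d528c6246b349e53718219ec6a910589c7a471d8fd66073fb1c465d47838ca1319a743a00018840a1e (k8 c13130 c263 c86 c838 c4461 c1057 c12783 c13131 (k8 c4401 c490 c13084 c4388 c840 c1327 c4289 c1455 (k8 c30 c10182 c4288 c4403 c4404 c13138 c353 c84 (k8 c12700 c1330 c1224 c12838 c4472 c4448 c4447 c844 (k8 c580 c13139 c4441 c4444 c8237 c4539 c4467 c9597 (k8 c4453 c284 c4474 c1479 c13136 c4406 c13098 c13137 k0)))))) (by decide +kernel)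
def c13141 : PP 8 4 T 0x2000004400445000000000000000000000000045201150000000000000 := rS 0x60d2da0cd62c5d7053238eca2c78c935863f (k8 c4288 c1209 c378 c4364 c4289 c4405 c4403 c4404 (k8 c4290 c7430 c4361 c1254 c10743 c2116 c4426 c1710 (k1 c8268 k0))) (by decide +kernel)
def c13142 : PP 8 4 T 0x1002000040000045000000000000100001510500040201150004000008010 := rS 0x20854240921acb67afe887f6388c9a4b (k8 c1333 c378 c1327 c4289 c1455 c4474 c8901 c4400 (k4 c4455 c13089 c4467 c13141 (k2 c242 c13137 (k1 c4406 k0)))) (by decide +kernel)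
def c13143 : PP 8 4 T 0x400000000000020001000000000001000000045000000055050001514100080000005000004000000 := rS 0xccc882a08c345 (k4 c4396 c4326 c8635 c8638 (k2 c8144 c6907 (k1 c632 k0))) (by decide +kernel)
def c13144 : PP 8 4 T 0x2000101000002000000000000444040000054040001500001000001010000000000002 := rS 0x66640e46eb73284cc629 (k8 c4402 c754 c4401 c490 c4353 c4386 c4348 c10069 (k2 c6907 c633 k0)) (by decide +kernel)
def c13145 : PP 8 4 T 0x2000001001002000040004000400000040145040001100101080001015000400011002 := rS 0x25622ac820ad470d3ea7d7089248e46eb75a91e863b3284cc66b54abc52ab2886d9ac7 (k8 c4289 c1479 c686 c4405 c5962 c4402 c5815 c6029 (k8 c493 c754 c4401 c490 c4403 c8226 c4404 c4389 (k8 c4353 c4386 c4348 c4199 c13095 c7430 c1395 c1356 (k8 c13143 c9264 c5588 c13144 c5842 c4338 c861 c10839 k0)))) (by decide +kernel)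
def c13146 : PP 8 4 T 0x2400001001002000040000000000001040100000000000080000211004004000000212 := rS 0x862244ac83e9220a546693902878422d0a690d864da7b0883576391badd6a47599fd8f431d8d40e5f3284cc6c31f9ad52232ea3c1caf14aac6251 (k8 c4405 c297 c5962 c4402 c5815 c13084 c4388 c840 (k8 c1327 c6029 c493 c4288 c1209 c754 c4401 c490 (k8 c577 c30 c1330 c4403 c8226 c4289 c1455 c10182 (k8 c4404 c4389 c4353 c4386 c4348 c4390 c32 c113 (k8 c12802 c12792 c257 c686 c757 c1496 c5853 c4479 (k8 c10041 c4439 c13142 c1479 c13145 c4406 c13098 c1623 (k4 c243 c13137 c637 c4467 (k1 c13143 k0)))))))) (by decide +kernel)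
def c13147 : PP 8 4 T 0x2000001001002000040004000400000040141040401100101080001015000400011002 := rS 0x1d60ab84312472375bad48e3b (k8 c4403 c4404 c4389 c4353 c4386 c4348 c4199 c13145 (k4 c7430 c4410 c1693 c5280 k0)) (by decide +kernel)
def c13148 : PP 8 4 T 0x2000001001002000040004000400000040141000401100100080001015004000008012 := rS 0x2188943895907d24414a8cd408441a471f9fd8f431d994266335aa446af14aaca21b (k8 c686 c4405 c5962 c4402 c5815 c1327 c6029 c493 (k8 c754 c4401 c490 c4403 c8226 c4289 c1455 c4288 (k8 c4404 c32 c113 c1360 c1479 c13147 c4406 c13098 (k4 c1623 c243 c13137 c1733 (k2 c637 c4467 (k1 c13143 k0)))))) (by decide +kernel)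
def c13149 : PP 8 4 T 0x2000001001002000040000000000000000100000000000084000010000000000000200 := rS 0x3cc25004f45a14d2770c86cf66d891ac62c38c9106a0e5d8e46eb75a89c7ab303a5c7e5f2ea3cca1319a743a00018840a1e (k8 c13130 c263 c86 c838 c4461 c1057 c12783 c13131 (k8 c4401 c490 c4388 c840 c577 c4288 c1193 c30 (k8 c10182 c13138 c353 c4389 c4353 c4386 c4348 c4390 (k8 c13084 c1330 c13140 c4364 c1209 c297 c493 c13146 (k8 c4342 c704 c686 c5733 c1090 c757 c1496 c5853 (k4 c13148 c13142 c4439 c1962 (k1 c4482 k0))))))) (by decide +kernel)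
def c13150 : PP 8 4 T 0x2000001001002000040000000000000000100000000000084000000000000000000200 := rS 0x89260800001814421e (k8 c13130 c86 c263 c838 c4461 c13149 c1103 c12796 (k1 c4443 k0)) (by decide +kernel)
def c13151 : PP 8 4 T 0x2020001000002000000000000000000040100000000000001000000010004400011008 := rS 0xac9229 (k4 c4402 c4199 c226 c13085 k0) (by decide +kernel)
def c13152 : PP 8 4 T 0x2000001001002000040000000000000040100000400000060000201000004104000200 := rS 0x8b120eb052a4304a5f411ec32325f8c5864d8c82c1ab138acd3a733fd0cfa6f1a8448e3f1cadc76c71bad44601038385e02 (k8 c1106 c8877 c13084 c30 c486 c1328 c4389 c4386 (k8 c4289 c4403 c4353 c4348 c4288 c4404 c113 c1330 (k8 c1107 c8221 c8226 c1455 c4956 c3249 c10182 c4387 (k8 c4350 c32 c84 c4364 c378 c1209 c297 c9858 (k8 c12969 c6288 c1225 c8902 c6467 c225 c4467 c13151 (k4 c4406 c1686 c13098 c4481 (k1 c9843 k0))))))) (by decide +kernel)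
def c13153 : PP 8 4 T 0x2000000001002000000000400000000000000000004000000000150002000400008008 := rS 0x20a124b2786072bd (k8 c4354 c4348 c228 c2140 c1915 c4436 c8260 c9113 k0) (by decide +kernel)
def c13154 : PP 8 4 T 0x2000001001002000040000000000000000100000000000004000000000000000000200 := rS 0x334aa4e249368a4b1229a1aa5890c630bf19914ee1b218bc4602009bd3a412c16cfe9759b1c7e3b238d41c0748814168f1089c7a1e (k8 c13130 c13138 c353 c86 c4388 c84 c263 c12700 (k8 c30 c13084 c1330 c4404 c4403 c4288 c4289 c10182 (k8 c1193 c1455 c13150 c4476 c3113 c3249 c1107 c486 (k8 c1106 c1328 c8877 c2132 c2393 c8951 c13152 c432 (k8 c6330 c4472 c13153 c4469 c4444 c8237 c4539 c4467 (k8 c9597 c4453 c2135 c2134 c4474 c13098 c1479 c13136 k0)))))) (by decide +kernel)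
def c13155 : PP 8 4 T 0x1000000000000008000800000000000044080000005000000000000200 := rS 0x1171db02220b (k4 c84 c4415 c1972 c9680 (k2 c4420 c4471 k0)) (by decide +kernel)
def c13156 : PP 8 4 T 0x4000000054000000554000200000004100004000000 := rS 0xad (k2 c1865 c8057 k0) (by decide +kernel)
def c13157 : PP 8 4 T 0x1000001000000000005000000800044000001500581080215144000080008202 := rS 0x86090c22a14c4558958b31876515599d1263248441a598c86d661516ae46a0729994ea0b (k8 c84 c11627 c578 c418 c30 c1330 c7514 c392 (k8 c384 c1185 c686 c4364 c93 c32 c113 c4199 (k8 c755 c7314 c11319 c13155 c13156 c1223 c4090 c4471 (k8 c4418 c11210 c4338 c781 c4468 c7343 c290 c4477 (k1 c4381 k0))))) (by decide +kernel)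
def c13158 : PP 8 4 T 0x1000000000040000011000000800100080000002082000001010104010100202 := rS 0x67 (k2 c11246 c672 k0) (by decide +kernel)
def c13159 : PP 8 4 T 0x1000001000040080015000000850500000000000086000001010104000100202 := rS 0x15096230c50984fc9f0ea440a0b2f9745263 (k8 c842 c1598 c840 c577 c84 c263 c12700 c1057 (k8 c1392 c251 c13158 c11524 c4477 c11040 c4381 c4468 (k1 c290 k0))) (by decide +kernel)
def c13160 : PP 8 4 T 0x2400001001000000040000000000000000100000000000084080214000000000000200 := rS 0x862244ac83ed0c90cd3fb1d5e634aaae2c511dc14a8655c9d45a970a82c2235038e46eb75a89c7ae52faa4465d47a6932338c86d0a0e45a1e10690c9b4f66b18a743a00018843c05 (k8 c263 c13130 c86 c838 c4461 c1057 c12783 c297 (k8 c493 c12802 c12792 c257 c757 c4479 c4440 c4322 (k8 c13084 c1496 c686 c4364 c13131 c1130 c4488 c4388 (k8 c840 c1327 c6029 c577 c13154 c13138 c353 c4389 (k8 c4353 c4386 c4348 c30 c1330 c113 c84 c384 (k8 c1193 c392 c11627 c7514 c578 c13157 c4406 c1601 (k8 c1604 c4471 c5962 c4418 c842 c868 c13159 c1455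 (k8 c1479 c4090 c4421 c1623 c243 c13137 c637 c4467 (k1 c13143 k0))))))))) (by decide +kernel)
def c13161 : PP 8 4 T 0x100000001000000000000004000000054000001554001000000000800000100000 := rS 0x3455c12 (k4 c4464 c6907 c1758 c789 k0) (by decide +kernel)
def c13162 : PP 8 4 T 0x400000000000000000080000044000044010000001552000000208000000000000002 := rS 0xd1610a129115645cc655 (k8 c8954 c755 c4356 c12794 c4338 c4487 c7343 c861 (k2 c1760 c1210 k0)) (by decide +kernel)
def c13163 : PP 8 4 T 0x80000800000000000000000000008000000000000000 := rS 0xc5 (k2 c4066 c869 k0) (by decide +kernel)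
def c13164 : PP 8 4 T 0x400000000001000000080000000000040000000001012084000208000800080000200 := rS 0x15a5282a21262d33aac2a2b059ac62690c9ed66632aabd349919a740003108143b19 (k8 c4364 c1057 c263 c86 c838 c4461 c12783 c13131 (k8 c1130 c4488 c13163 c8954 c755 c1186 c12802 c257 (k8 c757 c297 c493 c84 c289 c12287 c1845 c11319 (k4 c910 c11197 c13162 c4314 (k2 c7314 c6230 (k1 c2032 k0)))))) (by decide +kernel)
def c13165 : PP 8 4 T 0x1000000000000000000080000000000000005000000000000080000200 := rS 0x545473 (k4 c1083 c1194 c385 c12611 k0) (by decide +kernel)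
def c13166 : PP 8 4 T 0x1000000000000044000000044000001554001400000000140000100000 := rS 0x14c455889 (k4 c7314 c2120 c4338 c781 (k1 c4468 k0)) (by decide +kernel)
def c13167 : PP 8 4 T 0x2400001001000000040000000000000000100000000000084080210000000000000200 := rS 0x192a14f9f4c2ce63149462d33aacca1515a5d5e63599fcaa3e05b94be232ea3c1c2e4d264671945a1e10690c9b4f66b18a743a00018843c05 (k8 c263 c13130 c86 c838 c4461 c1057 c12783 c297 (k8 c493 c12802 c12792 c257 c757 c4479 c4440 c4322 (k8 c4364 c13131 c1130 c4488 c4469 c13084 c4388 c840 (k8 c1327 c577 c13154 c84 c13160 c8954 c1456 c1186 (k8 c755 c13163 c13165 c289 c12287 c491 c1845 c11319 (k8 c910 c11410 c13166 c420 c421 c13164 c1352 c1392 (k2 c1794 c1792 (k1 c2118 k0)))))))) (by decide +kernel)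
def c13168 : PP 8 4 T 0x1000001000000000005000000800044000001502081004205144800080008202 := rS 0x2b57b192a478b1f4770428a8d56674498c92110686d661516ae46a0729994ea0b (k8 c84 c11627 c578 c418 c30 c1330 c7514 c392 (k8 c384 c1185 c686 c32 c113 c4199 c755 c7314 (k8 c11319 c13155 c936 c13156 c13161 c1223 c4409 c4471 (k4 c1331 c4418 c4034 c868 (k2 c291 c13166 k0))))) (by decide +kernel)
def c13169 : PP 8 4 T 0x1000001000040000005000000800144000001102084004204140802080008200 := rS 0x24b1cfe5123c14265432ae4ea2d0a82c1a350389c7a33358c53a1d0000c4205 (k8 c263 c86 c838 c4461 c1057 c12783 c297 c493 (k8 c13131 c13138 c353 c30 c1330 c32 c84 c384 (k8 c392 c11627 c7514 c578 c13168 c34 c4406 c1603 (k4 c1604 c13158 c7228 c13137 (k1 c4034 k0))))) (by decide +kernel)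
def c13170 : PP 8 4 T 0x2400001001000000040000000000000000100000000000084000210000000000000200 := rS 0x25622c356344a4931699d8eab32854569731acd5e558b8f8486086a0e884f25a1d1681841a4326d4d0b8f60b1c8dd6eb513b94bf194c9ad523119a743a00018840a1e119751e0e (k8 c13084 c4388 c840 c1327 c13130 c263 c86 c838 (k8 c4461 c1057 c12783 c13131 c297 c6029 c493 c1130 (k8 c4364 c577 c13154 c353 c4389 c4353 c4386 c4348 (k8 c84 c12802 c4469 c4488 c12792 c257 c757 c4479 (k8 c4439 c4322 c4440 c1333 c13167 c6927 c4452 c13089 (k8 c12981 c4467 c13169 c4356 c8954 c13163 c1186 c755 (k8 c13165 c289 c12287 c491 c1845 c13164 c11319 c394 (k8 c11197 c13166 c179 c2032 c1210 c4338 c861 c4487 k0)))))))) (by decide +kernel)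
def c13171 : PP 8 4 T 0x1000001000000000005444000000040000001410501000205154000481111002 := rS 0x10d308918c471d8a6222a28ab0ce894398c921b348b57253 (k8 c418 c7514 c392 c757 c686 c4199 c755 c7313 (k8 c7314 c11319 c2120 c13156 c13166 c4338 c781 c1223 (k4 c1643 c2113 c290 c7343 (k2 c4381 c4477 k0)))) (by decide +kernel)
def c13172 : PP 8 4 T 0x80000000000000000080000002000000000000100000100000 := rS 0x67 (k2 c7342 c672 k0) (by decide +kernel)
def c13173 : PP 8 4 T 0x1000001000000080015000000051500000000000082000000000100000100000 := rS 0x15096230c509853e7e2f9745263 (k8 c842 c1598 c840 c577 c251 c1392 c13172 c11524 (k4 c4477 c11040 c4381 c4468 (k1 c290 k0))) (by decide +kernel)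
def c13174 : PP 8 4 T 0x2000001000001000040000000044000000100000001000084000204000000080008200 := rS 0x6715186182564120fec74ac5876478295116655c9d45a970aacc220d1a81d220b1c8dd6eb5138f4be232ea3c6719358c4f6194e874ee1b0000c4205 (k8 c263 c86 c838 c4461 c686 c1090 c1057 c12783 (k8 c5733 c704 c297 c493 c4364 c13131 c4388 c840 (k8 c1327 c577 c13138 c353 c4389 c4353 c4386 c4348 (k8 c84 c12700 c30 c1330 c32 c113 c1185 c384 (k8 c1193 c392 c11627 c7514 c578 c4632 c13171 c4406 (k8 c1603 c1601 c4471 c4418 c13173 c1455 c13098 c243 (k4 c13137 c4467 c4326 c12404 (k2 c632 c4191 k0)))))))) (by decide +kernel)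
def c13175 : PP 8 4 T 0x10000000000001000000000000044000000004004401554000400008000140000100000 := rS 0x2298a55 (k4 c8954 c1249 c13166 c7804 k0) (by decide +kernel)
def c13176 : PP 8 4 T 0x1000040060005000044055500000000000000001000000004000008000 := rS 0x2e19aa1 (k4 c4212 c8645 c2125 c1255 k0) (by decide +kernel)
def c13177 : PP 8 4 T 0x2000000000000000008004000040044055100000000000000000000000000000000000 := rS 0xb950a3d6eb5 (k4 c4389 c4353 c4388 c1794 (k2 c1526 c2125 k0)) (by decide +kernel)
def c13178 : PP 8 4 T 0x2000001001000000040000000000000000100000000000084000210000000000000200 := rS 0x842282e8941d109ecf259f686c64fab6209561b11a2512928d262d33a1cca1515a5cc6b33f924ab171f1a4ee190d9ed56af36c48d63126c65220b1cadd6a277288cba8f072740003108143c1d (k8 c1057 c13130 c263 c86 c838 c4461 c12783 c13084 (k8 c4388 c840 c1327 c13154 c353 c4389 c4353 c4348 (k8 c84 c12700 c4364 c378 c297 c493 c13170 c4342 (k8 c4346 c4445 c704 c686 c5733 c1090 c757 c13174 (k8 c4356 c8954 c370 c1456 c1186 c755 c13165 c289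 (k8 c12287 c491 c7313 c11319 c910 c11197 c11410 c13175 (k8 c148 c179 c419 c1210 c1786 c4487 c4338 c4414 (k8 c13176 c4391 c1352 c1454 c13177 c421 c4474 c4452 (k4 c4529 c2030 c2120 c4465 (k1 c4322 k0)))))))))) (by decide +kernel)
def c13179 : PP 8 4 T 0x100000001000000000000400000000044000001510001000000000800080100002 := rS 0xa68856aacce63 (k4 c755 c11319 c13092 c6230 (k2 c13161 c2032 (k1 c7314 k0))) (by decide +kernel)
def c13180 : PP 8 4 T 0x2400001001001000040000000400001001100000100000080000155004000084108050 := rS 0x120fec74ac5876472a0ba0a3143a2d530830090ee6d868649c0d1c8dd6eb51397c00031088cba8f5f9a5366b3cc612e2d61ae46a65 (k8 c578 c1330 c7514 c9009 c392 c1193 c4472 c4447 (k8 c580 c4448 c844 c6330 c4388 c840 c1327 c86 (k8 c838 c4461 c577 c353 c4389 c4353 c4386 c4348 (k8 c32 c13133 c13134 c13135 c5889 c9124 c4467 c4477 (k8 c4479 c976 c4322 c4440 c299 c9062 c4469 c13179 (k8 c1603 c1601 c4471 c4418 c13173 c1455 c2113 c13137 k0)))))) (by decide +kernel)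
def c13181 : PP 8 4 T 0x20000000000000000000004000444000000054000501554000000000000000000000000 := rS 0x105 (k2 c9062 c6907 k0) (by decide +kernel)
def c13182 : PP 8 4 T 0x1000000000020000001000001000040044000444000000001100501554001081000000000000110000 := rS 0x41c2514896494d0e19 (k8 c259 c7313 c420 c8024 c7314 c13181 c4322 c644 (k1 c4484 k0)) (by decide +kernel)
def c13183 : PP 8 4 T 0x22800001001001000040004000400001001100000400000081080005000000080111402 := rS 0xd0298a0a34b67c4558958b0ed262b4fd0d8ca33398c92b710b15826b3ca5c5a653aabd32aba2a054c694da14c10d2f9751e6d (k8 c4342 c4388 c840 c577 c8237 c4477 c712 c4448 (k8 c844 c4539 c1896 c4453 c4445 c4443 c4346 c11627 (k8 c578 c392 c1193 c4447 c580 c4450 c4370 c86 (k8 c4353 c4199 c755 c11319 c936 c13182 c4391 c1392 (k8 c291 c7994 c12770 c4471 c4418 c7641 c7287 c13177 (k4 c4458 c1865 c4468 c421 (k2 c4475 c1760 k0))))))) (by decide +kernel)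
def c13184 : PP 8 4 T 0x2000001001000000040000000000000000100000000000084000014000000000000200 := rS 0x241fd8e958b0ec8f052a1dc328527134c04b124354a3136c48cab9619d45a970aacc220d4882d76391badd7ab5138f5ca5f119751e334e86d7e350701e30433d80006210f0143a45 (k8 c13178 c1057 c263 c13130 c86 c838 c4461 c1224 (k8 c12838 c4472 c30 c13084 c1330 c6330 c424 c12783 (k8 c13131 c4388 c840 c1327 c577 c13154 c13138 c353 (k8 c4389 c4354 c4353 c4386 c4348 c4390 c84 c12700 (k8 c32 c113 c1185 c384 c1193 c392 c11627 c9009 (k8 c7514 c578 c13180 c4342 c4441 c4444 c8237 c4467 (k8 c9597 c4477 c284 c2114 c712 c259 c9124 c13183 (k8 c4406 c1603 c1601 c4471 c4418 c13173 c1455 c2113 (k1 c13137 k0))))))))) (by decide +kernel)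
def c13185 : PP 8 4 T 0x4000000000000000000000000020000444000000000000000000000000000000000000 := rS 0x12b11 (k2 c4338 c860 (k1 c4487 k0)) (by decide +kernel)
def c13186 : PP 8 4 T 0x2400001001000000010000000010001000114000000544500000150014044004008002 := rS 0x172a8628b54c20c06d868649c235fa6e3065 (k8 c491 c4472 c4448 c6330 c1327 c13133 c13134 c13135 (k8 c5889 c4477 c4479 c976 c4322 c299 c8137 c4469 (k1 c1845 k0))) (by decide +kernel)
def c13187 : PP 8 4 T 0x2000001001000000040000000000000000100000000000084000010000000000000200 := rS 0x610a4e2685e126025891150d55a9462af36c495a9316a1d1267399942a2b4b98d66d12ac5c7c6b34b04f29b8c2fc867b0d914163503aec72375e89dca5f119751e0e19a743a00018840a1e (k8 c13130 c263 c86 c838 c4461 c1057 c12783 c13131 (k8 c13084 c4388 c840 c1327 c577 c13154 c353 c4354 (k8 c4386 c4348 c4390 c30 c1330 c84 c13178 c424 (k8 c1224 c12838 c6330 c4472 c4448 c4447 c4450 c844 (k8 c580 c13184 c4356 c8954 c458 c1186 c755 c13165 (k8 c289 c12287 c491 c1082 c11319 c7172 c7043 c910 (k8 c11197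 c13185 c13186 c4342 c4346 c4441 c4444 c4445 (k8 c8237 c2120 c4467 c9597 c4477 c4322 c525 c284 (k4 c2114 c712 c4465 c259 k0))))))))) (by decide +kernel)
def c13188 : PP 8 4 T 0x2000001001000000040000000000000000100000000000084000000000000000000200 := rS 0x89260800001814421e (k8 c13130 c86 c263 c838 c4461 c13187 c1103 c12796 (k1 c4443 k0)) (by decide +kernel)
def c13189 : PP 8 4 T 0x20000000001000000000015000000051500000000000000000000400140400000000 := rS 0x49a8d429f (k4 c4384 c4329 c11410 c9125 (k1 c2125 k0)) (by decide +kernel)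
def c13190 : PP 8 4 T 0xa400000001001000040000010400000010100000400000044000200000104104008200 := rS 0x39aa8c62a86094be874120516bf429ecd29b0c8c9220505ac51eb738ad4de3b4b88c02071780a32314e99cb0c1 (k8 c4420 c4476 c656 c3249 c297 c4364 c1106 c8877 (k8 c30 c486 c1328 c3206 c3112 c1107 c4389 c4387 (k8 c4353 c4388 c4350 c84 c263 c12700 c4469 c6288 (k8 c862 c823 c1225 c1496 c5760 c10949 c7000 c8882 (k8 c10171 c6467 c225 c4467 c13189 c1607 c437 c1110 (k1 c11176 k0)))))) (by decide +kernel)
def c13191 : PP 8 4 T 0x1000040000015500000051500000110000021000000400104000108019 := rS 0x3e11d925e121ce1a93159fcde23 (k8 c1328 c1107 c1456 c226 c9125 c13189 c1109 c4467 (k4 c225 c12444 c3357 c2121 (k1 c7516 k0))) (by decide +kernel)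
def c13192 : PP 8 4 T 0x40000000001a000000001000000004000010000000000000410544000062000000000000001008200 := rS 0xcda2a217c8745a14f6713c80816c1 (k8 c4420 c84 c1106 c9840 c4387 c1225 c1496 c1767 (k4 c10171 c8902 c9154 c4399 (k2 c1485 c6175 k0))) (by decide +kernel)
def c13193 : PP 8 4 T 0x2000000001001000040000000044000011100000400110062000205004104000008200 := rS 0x6894430833eb18bccf5050c922439a7e210d49a8d5a2b478e46eb75a9bcc297118bc051918a74ea0b61905723529c5876675984e0a290081c8e0d (k8 c32 c1603 c30 c486 c1599 c4406 c34 c1185 (k8 c656 c3112 c4471 c418 c1330 c7514 c3113 c9009 (k8 c84 c11627 c3249 c297 c4364 c1106 c8877 c1328 (k8 c3206 c617 c1107 c4389 c4353 c4386 c4348 c4388 (k8 c227 c6230 c11410 c9125 c13189 c4468 c11776 c1109 (k8 c4467 c7307 c11164 c11040 c13177 c225 c2113 c1625 (k4 c6467 c13192 c1877 c2186 (k1 c2112 k0)))))))) (by decide +kernel)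
def c13194 : PP 8 4 T 0x40000000001a000000001000000004004010400000000014010544000062000000000000001008200 := rS 0x82459ed62713c80816c1 (k8 c4420 c84 c1106 c9840 c4387 c4350 c1225 c1767 (k2 c13192 c11339 k0)) (by decide +kernel)
def c13195 : PP 8 4 T 0xa000000001000000040004010005100000000000504420046000205004004000008200 := rS 0x9e4b0c29d9e25a19f490c744a1c5473088d46eb75a8ec4601038bc0519268e4629d2c2cc8e0d (k8 c32 c1603 c1185 c4476 c3249 c297 c4348 c378 (k8 c4364 c1106 c8877 c30 c486 c1328 c3112 c4389 (k8 c4353 c4386 c1330 c113 c1649 c1646 c1652 c556 (k8 c2137 c2113 c8221 c4421 c2134 c1791 c4558 c13194 (k2 c1875 c2183 (k1 c2111 k0)))))) (by decide +kernel)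
def c13196 : PP 8 4 T 0x2000000001001000040000000000000000100000000000044000204000000080008200 := rS 0x1a2c62886092a00bc253f0d49a8d5a68159948e292a2ad4a6b57aa467128b254a6b9619d45ab3068d5220505ac51eb738ad442271e904de3b4b88c020717854ee1b010c53a58 (k8 c4476 c3249 c297 c1106 c2393 c8951 c2346 c8877 (k8 c30 c486 c1328 c3206 c3112 c1107 c3113 c13138 (k8 c353 c86 c4389 c4387 c4353 c4388 c4350 c84 (k8 c263 c12700 c1330 c32 c1185 c392 c11627 c9009 (k8 c7514 c418 c11624 c4471 c13190 c4340 c4345 c4346 (k8 c4442 c4444 c4445 c13191 c1599 c1603 c13195 c227 (k8 c13193 c4554 c11410 c9125 c13189 c11776 c4437 c7300 (k4 c2125 c7307 c4465 c1605 (k2 c4212 c2186 (k1 c2112 k0)))))))))) (by decide +kernel)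
def c13197 : PP 8 4 T 0x10000000000001000000080140100000000000001514000020000008008000080008200 := rS 0x220aa16b0128c38420516cf62a14f69829864422b4ba250e2931c10e717599540543 (k8 c4391 c1106 c8954 c1186 c4356 c3117 c4481 c4407 (k8 c794 c4410 c7172 c3206 c289 c86 c6288 c2386 (k8 c433 c1225 c1496 c1249 c1520 c9998 c7000 c4482 (k4 c8129 c6803 c8131 c854 (k2 c1932 c4468 (k1 c4415 k0)))))) (by decide +kernel)
def c13198 : PP 8 4 T 0x10000000000000000000000000054000000014005400454020000000000000000000000 := rS 0x34421166d (k4 c4993 c9998 c4482 c2120 (k1 c4437 k0)) (by decide +kernel)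
def c13199 : PP 8 4 T 0x2000000001001000040000000000000000100000500000024000208004104000108200 := rS 0x27af99eb84ab10a45168b0c307a4fa8d5a65498d5220558a3d6e715a8ec460103c649a3915a5cce893c82d0e473eabc5263821ce2eb32a9ad571218a745e02 (k8 c1106 c8877 c3249 c297 c4469 c4445 c4442 c8954 (k8 c1186 c4356 c3117 c4481 c4407 c794 c5815 c4409 (k8 c1331 c4410 c84 c9840 c7172 c919 c3206 c289 (k8 c4348 c378 c4364 c30 c486 c1328 c3112 c4389 (k8 c4387 c4353 c4388 c4350 c263 c12700 c1330 c1122 (k8 c9676 c4554 c11410 c11776 c13198 c1225 c3222 c2185 (k8 c1876 c2112 c419 c1786 c13191 c13177 c1254 c421 (k1 c8901 k0)))))))) (by decide +kernel)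
def c13200 : PP 8 4 T 0x2000000001001000040000000000000000100000000000044000200000000080008200 := rS 0x67b110681459ec32a712a153ec860b0d72924ac4458ab52c49529919d0d8c473ea1e08893aaccfe73249562e3e1893632110681576b11cadd7a715a8844e3d4e9bcc23b4b9e416230081c5e153b86c0458 (k8 c4476 c1106 c2393 c8951 c2346 c8877 c30 c486 (k8 c1328 c84 c9840 c3206 c3112 c617 c1107 c3249 (k8 c13138 c353 c86 c4389 c4387 c4354 c4353 c4348 (k8 c4350 c4390 c263 c32 c113 c4364 c378 c297 (k8 c13196 c4356 c8954 c370 c3117 c1456 c1186 c12443 (k8 c7172 c4481 c4410 c4409 c1331 c12422 c4391 c13197 (k8 c1130 c6029 c4469 c4444 c4445 c13199 c4332 c854 (k8 c7177 c6781 c4958 c1660 c10837 c1665 c11877 c395 (k8 c4558 c8634 c1225 c9998 c7000 c11339 c2123 c1792 (k1 c9063 k0)))))))))) (by decide +kernel)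
def c13201 : PP 8 4 T 0x1000000000004000000000000000000000000000400155402010000000008 := rS 0x28b458318 (k4 c4472 c4450 c2141 c1917 (k1 c6159 k0)) (by decide +kernel)
def c13202 : PP 8 4 T 0x2000000001001000040000000000000000100000000000024000104000000080008200 := rS 0x31c922a124461aab4cabe2431238a4a6544aae5867516acc1a354881416b1478e46eb738ad44e3d4ea5c4601038bc2a33628ed36c18c1048602 (k8 c1106 c2132 c3113 c4472 c4450 c4448 c3112 c4530 (k8 c432 c2346 c8877 c30 c486 c1328 c3206 c3249 (k8 c13138 c353 c4389 c4387 c4353 c4386 c4348 c4388 (k8 c4350 c84 c263 c12700 c1330 c32 c1185 c392 (k8 c11627 c9009 c7514 c11624 c13191 c9029 c1599 c1603 (k8 c13201 c4469 c5815 c4443 c4445 c8237 c7223 c4467 (k4 c4468 c2134 c2137 c2113 k0))))))) (by decide +kernel)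
def c13203 : PP 8 4 T 0x2000000000000000000081400400000000014015544000000000150002000400008008 := rS 0x8b40b3d04852593d76b11caf4e343 (k8 c4391 c4387 c4354 c4348 c4350 c4390 c2140 c1915 (k4 c1495 c8260 c1519 c127 (k2 c645 c9666 k0))) (by decide +kernel)
def c13204 : PP 8 4 T 0x2000001001000000040000000000000000100000000000004000000000000000000200 := rS 0xa61867a11708364938bc4d4092c48a686a95331218b188e7d43c111275599fce6492ac5c7cc18c2fc667b229dc36431788cf20200984de9d20960b6e51e89c3c715e8e51eb1088346a0e03a440a0b (k8 c84 c263 c12700 c30 c13084 c1330 c32 c113 (k8 c4350 c4388 c4348 c4354 c4387 c13130 c353 c13138 (k8 c13154 c13188 c4476 c3113 c3249 c1107 c617 c486 (k8 c1106 c9840 c1328 c8877 c2132 c2393 c8951 c13200 (k8 c1224 c432 c6330 c4472 c4450 c13202 c4356 c8954 (k8 c370 c3117 c1456 c1186 c12443 c7172 c4481 c7043 (k8 c4409 c1331 c12422 c13203 c4469 c4443 c4444 c8237 (k8 c4539 c4467 c9597 c1897 c2135 c225 c4496 c12444 (k4 c6467 c8522 c5989 c1525 (k2 c6224 c421 (k1 c9495 k0))))))))))) (by decide +kernel)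
def c13205 : PP 8 4 T 0x1000001000000000040000000000000001100000000000080000000000000080008200 := rS 0xd962392f82c6a07 (k8 c30 c1330 c84 c577 c4528 c1145 c4470 c11089 k0) (by decide +kernel)
def c13206 : PP 8 4 T 0x1420000001002000000000400000080010000000440004020000200000000080000200 := rS 0x1514455d2d888967a1d167b56a60d219192ec426d3c82c5e1b0104c5ab3338040f1118a75863f (k8 c4288 c1209 c3249 c297 c4337 c30 c486 c5084 (k8 c10182 c4286 c4401 c1106 c2393 c8877 c84 c9840 (k8 c4993 c86 c4825 c4469 c6288 c823 c433 c942 (k8 c1225 c5853 c10041 c1524 c4794 c6803 c4429 c1675 (k2 c8360 c4526 (k1 c4398 k0)))))) (by decide +kernel)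
def c13207 : PP 8 4 T 0x400000000000000000000002000004000000044400000000000000000000081011205440000000000 := rS 0x1a2ad66af28a53169447e29 (k8 c4402 c4288 c4405 c4286 c4290 c4396 c451 c9060 (k2 c6601 c5846 (k1 c2112 k0))) (by decide +kernel)
def c13208 : PP 8 4 T 0x1020000001002000000000400000400010000000444004020001201200045080008200 := rS 0x3da00324a4293d9eab57aa46712268c6320d20a745e0252d0d44230081c52c7 (k8 c4289 c4402 c30 c486 c1328 c7771 c4393 c4385 (k8 c1106 c8877 c3249 c3113 c32 c4364 c297 c2163 (k8 c13206 c4340 c4345 c4346 c4445 c1523 c13207 c1495 (k4 c2111 c8634 c1333 c1225 (k1 c7000 k0))))) (by decide +kernel)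
def c13209 : PP 8 4 T 0x100000001002000000001000000001050000000000000000000051402040000000000 := rS 0xc25694ca23f (k4 c4288 c4405 c4290 c2047 (k2 c12813 c13033 k0)) (by decide +kernel)
def c13210 : PP 8 4 T 0x1000001001002000040000410000000000000040404000021000001000005080008200 := rS 0x21e12890b20106c32526556af892a462c11993cf645399f52a63a1c45442b249053a3b4b9e41643538bc7037010d54a53238b4a22963accce7508a853f0c118040e0d (k8 c32 c30 c486 c1328 c4467 c4384 c4329 c113 (k8 c10444 c5084 c10182 c4289 c4402 c4405 c4286 c4404 (k8 c4290 c4385 c1330 c1106 c2130 c4470 c8877 c4558 (k8 c2132 c84 c9840 c3206 c3112 c3249 c3113 c4199 (k8 c226 c7771 c4337 c4393 c819 c859 c1354 c4956 (k8 c13208 c1224 c450 c432 c6869 c13209 c6029 c4469 (k8 c5815 c5962 c4443 c9064 c4958 c1855 c1333 c1334 (k4 c4529 c4439 c1837 c7240 k0)))))))) (by decide +kernel)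
def c13211 : PP 8 4 T 0x100000000000000000000400001000044004500040020000000008080000000010 := rS 0x8b9cd5463 (k4 c1607 c437 c1110 c11176 (k1 c4481 k0)) (by decide +kernel)
def c13212 : PP 8 4 T 0x20001000000000000040000000000000000040000040002001400000154400000000 := rS 0x513253f05 (k4 c4406 c4384 c1726 c4200 (k1 c5380 k0)) (by decide +kernel)
def c13213 : PP 8 4 T 0x11420001001000000000044410400000000000040504040022010401001114080008210 := rS 0x22106c5a224d97104ac58c6c139b20fab5a1920ca2b4392e1081459ed30690c8c9761110a74f20b118040e2f0d8094305 (k8 c4406 c4329 c1106 c2393 c8877 c30 c486 c1328 (k8 c84 c9840 c3249 c86 c113 c4825 c4469 c6288 (k8 c823 c433 c1225 c1767 c7000 c4482 c1333 c4440 (k8 c13211 c1646 c13212 c4421 c1702 c1623 c243 c4956 (k8 c12809 c1728 c4481 c5073 c4478 c9862 c4413 c4599 (k4 c1135 c4452 c7750 c4529 k0)))))) (by decide +kernel)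
def c13214 : PP 8 4 T 0x1000000000000000000000000001500000000000004000420010000205005002001200 := rS 0x964f0b82c0207 (k4 c30 c486 c84 c35 (k2 c2182 c1875 (k1 c4871 k0))) (by decide +kernel)
def c13215 : PP 8 4 T 0x1000000000001020001000000000000044640404000000044045514440026001400000114400000018 := rS 0x2dd888939b04c863658a99305 (k8 c4406 c1726 c13212 c8863 c1607 c227 c8361 c1110 (k4 c556 c7254 c8560 c1175 k0)) (by decide +kernel)
def c13216 : PP 8 4 T 0x1020001001000000000040000400400000000000114040026000604200115080008200 := rS 0x117609cd947d5ad0c90bca29390e4b5dc21028b3d865566b548ce24c3268c63211068147a9d3c82c4601038bcbe770d8094a7f5cafd6105 (k8 c4406 c4480 c3257 c3213 c7243 c4385 c1106 c2393 (k8 c8951 c1375 c8877 c30 c486 c1328 c84 c9840 (k8 c3249 c13138 c263 c32 c113 c4364 c297 c2163 (k8 c1209 c13213 c4340 c4345 c4442 c4445 c13214 c1225 (k8 c1767 c7000 c4482 c4945 c1333 c4440 c4639 c4396 (k8 c451 c13215 c4421 c1702 c1623 c453 c4956 c12809 (k2 c9862 c4481 k0))))))) (by decide +kernel)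
def c13217 : PP 8 4 T 0x100001000000000000000400000000000005100000000500155402010000000008 := rS 0x22e7344b0830c5 (k4 c4530 c228 c13201 c2038 (k2 c12920 c4362 (k1 c4481 k0))) (by decide +kernel)
def c13218 : PP 8 4 T 0x11000404000150040005500400004000000000080000000008 := rS 0x44b0cc911 (k4 c4411 c227 c4958 c556 (k1 c7254 k0)) (by decide +kernel)
def c13219 : PP 8 4 T 0x20001000000000000051450445401541100045500440406540410005114401008008 := rS 0x1a14a56920ca2b4aa1cd3094732c2c8067a0d7a4a45934222f50a7d4b05 (k8 c4406 c4385 c4384 c4329 c8877 c113 c244 c1767 (k8 c4639 c1858 c1855 c3318 c1333 c1334 c1860 c2126 (k8 c4439 c7300 c1836 c7265 c13218 c1646 c13212 c6230 (k2 c4527 c2112 (k1 c4426 k0))))) (by decide +kernel)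
def c13220 : PP 8 4 T 0x1001002000040000000000000000100000000000004000000000000080000200 := rS 0x61b462c4c39a24309935aad5f12548c536bb42b0630c51993cf64582950ea6759b1c523f288b48e53088347a414e8ed2e792197d4e2f3b86c7037010d5429f52c304e23009fd72bf581c44a0737960b6910282c1d15 (k8 c13204 c13084 c84 c263 c12700 c13205 c4476 c1107 (k8 c30 c7033 c11634 c4480 c3257 c3213 c7243 c486 (k8 c1328 c353 c4467 c4385 c4384 c4329 c1330 c1106 (k8 c2130 c4470 c2393 c8951 c8877 c4558 c1375 c2132 (k8 c9840 c3206 c3112 c3249 c3113 c13138 c32 c113 (k8 c4290 c4404 c4286 c4405 c4288 c4402 c4289 c10182 (k8 c5084 c10444 c13210 c4406 c13216 c1224 c450 c432 (k8 c4530 c4472 c6869 c714 c4449 c4448 c13217 c6029 (k8 c4469 c5815 c5962 c4442 c4443 c13219 c2038 c12920 (k4 c8634 c4481 c2164 c4362 (k1 c2115 k0))))))))))) (by decide +kernel)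
def c13221 : PP 8 4 T 0x1000001000040040010400000200014005010141424005201208145400010200 := rS 0x11c52d028b098a734aa4c0e41010ed3f0c45c6592a3 (k8 c12403 c8024 c4364 c10949 c4467 c4384 c3112 c1106 (k8 c3113 c30 c9125 c11639 c1109 c1135 c7750 c1866 (k4 c1210 c957 c1765 c8998 k0))) (by decide +kernel)
def c13222 : PP 8 4 T 0x600000200054005500000000400200000200080000000 := rS 0x629cd82c31f255a221 (k8 c86 c2425 c854 c392 c1210 c1933 c3163 c1249 (k1 c2123 k0)) (by decide +kernel)
def c13223 : PP 8 4 T 0x400001001001000040000000200000000000000114001025000200200005080008200 := rS 0xc268b14e6c64aa4c5a4b40a2516873da60a6690c8c86319108f53a3b3c82c5e152f9dc369f8608c02075cacc920d0899c5602 (k8 c1106 c226 c919 c113 c32 c4199 c1186 c3213 (k8 c30 c486 c1328 c4467 c4384 c2393 c8951 c1375 (k8 c2346 c8877 c84 c9840 c3112 c3249 c13138 c86 (k8 c4364 c297 c4469 c6288 c823 c2386 c433 c1225 (k8 c7313 c10949 c7314 c7000 c1333 c13222 c9125 c11639 (k4 c13221 c1109 c1135 c2430 (k2 c7750 c1210 k0))))))) (by decide +kernel)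
def c13224 : PP 8 4 T 0x1400001001001000040000000000000000000000114001025000000000005080008200 := rS 0x5eada88c62691c527d31c122ec239a2d0e9549a8cca51448b4d4180bb0496308c314667b228147a6d20a747679058bc2a433b86c70371aa7d4b0c118040eb9582cc920d0899c5602 (k8 c1106 c226 c919 c113 c32 c4199 c1186 c4480 (k8 c3213 c30 c486 c1328 c4467 c4385 c4384 c1330 (k8 c2130 c4470 c2393 c8951 c2132 c2346 c8877 c84 (k8 c9840 c3112 c3249 c3113 c4993 c13138 c263 c13223 (k8 c1224 c432 c4530 c4472 c4469 c4799 c4450 c1911 (k8 c228 c229 c11755 c7030 c3828 c9676 c11410 c9125 (k8 c11639 c9141 c564 c1109 c2123 c9460 c4481 c7153 (k8 c4409 c794 c1331 c9114 c4200 c7248 c411 c4454 (k1 c1167 k0))))))))) (by decide +kernel)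
def c13225 : PP 8 4 T 0x1000001000040100210044000000044005414501025400001200105400110200 := rS 0x188c15bc5a0a73312552665029b402071da7e18b3338ac0489 (k8 c7314 c1106 c226 c919 c1186 c4467 c4384 c3112 (k8 c30 c486 c4993 c263 c9676 c9125 c11639 c13166 (k4 c1109 c4407 c7153 c8560 (k2 c4420 c9460 (k1 c1175 k0))))) (by decide +kernel)
def c13226 : PP 8 4 T 0x604000140054005500000000400000400200080000000 := rS 0xc539b05863e492562221 (k8 c86 c4332 c854 c7177 c392 c4958 c1660 c3163 (k2 c1249 c2123 k0)) (by decide +kernel)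
def c13227 : PP 8 4 T 0x1000001000001000040000000045000100000001514401025000200005005080008200 := rS 0x31320ca2d4494d784e3492e108145a1cf61926c64220d028f4da3b4b854bea7178e06e3550a9618230081d72b05999c5602 (k8 c1106 c226 c919 c1186 c4480 c3213 c30 c486 (k8 c1328 c4467 c4385 c4329 c1330 c2130 c4470 c8877 (k8 c4558 c1375 c2346 c3206 c3112 c4993 c13138 c263 (k8 c32 c113 c4364 c2163 c13214 c1225 c7313 c9998 (k8 c7000 c4482 c1333 c4437 c4639 c451 c2392 c7314 (k4 c13226 c9676 c13225 c13166 (k1 c1728 k0))))))) (by decide +kernel)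
def c13228 : PP 8 4 T 0x800000001001000004400100000515050800000000000000000150400540400000000 := rS 0x5b45d84cc49a8d5aa957a6556c55da6d8318 (k8 c4472 c4450 c4448 c4449 c4530 c4445 c4443 c4346 (k8 c4345 c4554 c11410 c9125 c2128 c6161 c7641 c4533 (k1 c1167 k0))) (by decide +kernel)
def c13229 : PP 8 4 T 0x800000001001000000000410600515041100005500000401041110400000481008008 := rS 0x8a888a458894a94d1ccb0b2019ebd2521c9a2717854563354abd32ab5da6e3043 (k8 c2132 c4472 c4448 c4449 c4445 c4443 c4346 c4345 (k8 c4340 c226 c2346 c8877 c353 c244 c7313 c4639 (k8 c1858 c3318 c1333 c1334 c1861 c2126 c3936 c7265 (k4 c7314 c13228 c142 c4332 (k2 c13226 c7270 k0))))) (by decide +kernel)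
def c13230 : PP 8 4 T 0x1001000000040000000000000000100000000000005000000000000080000200 := rS 0x61255274a140b4c48734945168226226121860a6d0b186293cf64555a64d63157aa467123a8acce49598441a211e9053a611da5cf2152197d4e2f3b86c7037010d5429f52c304e2300ae57eb0388940e6f2c16d22050583a2ae5 (k8 c13220 c13204 c13084 c84 c263 c12700 c13205 c4476 (k8 c1107 c30 c7033 c11634 c4480 c3257 c3213 c486 (k8 c1328 c353 c4467 c4385 c4384 c4329 c1330 c1106 (k8 c2130 c4470 c2393 c8951 c8877 c4558 c1375 c2132 (k8 c2346 c9840 c3206 c3112 c617 c3249 c3113 c13138 (k8 c86 c32 c113 c1186 c4199 c919 c226 c12443 (k8 c13224 c4340 c4345 c4346 c4441 c4442 c4443 c4445 (k8 c13227 c1224 c450 c4530 c4472 c714 c4448 c4450 (k8 c13229 c4436 c2039 c8634 c245 c12354 c3901 c2000 (k8 c9141 c12357 c815 c11648 c7770 c9125 c11639 c7285 (k1 c4459 k0))))))))))) (by decide +kernel)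
def c13231 : PP 8 4 T 0x1001000000040000000000000000100000000000004000000000000080000200 := rS 0x26861a05115445569935abe249b5daa50a318c314664f3d91582678b25586b33a91d8e291694c7e5472afd727f58294707738a9e185f1b86c86151788c4a794b8ec040137a7482582d8f44e0d1a8380e1d488141715 (k8 c13204 c84 c263 c12700 c1057 c30 c13084 c1330 (k8 c32 c353 c13138 c13205 c4476 c3113 c3249 c1107 (k8 c486 c1106 c3112 c3206 c9840 c7033 c1328 c8877 (k8 c2346 c2132 c2393 c2130 c1375 c4467 c4558 c11634 (k8 c8951 c4470 c4385 c4480 c7243 c3213 c3257 c13220 (k8 c13230 c8954 c9029 c2165 c1599 c2171 c1603 c1686 (k8 c1185 c9009 c11624 c4471 c8324 c4420 c13216 c1224 (k8 c450 c432 c4530 c4472 c13201 c714 c6029 c4449 (k8 c4448 c4469 c5815 c4442 c4443 c4445 c7223 c4468 (k4 c1645 c2115 c13219 c2164 (k1 c8634 k0))))))))))) (by decide +kernel)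
def c13232 : PP 8 4 T 0x1000000000040000000580000000000000000000515000005555400000000 := rS 0x15ad166d159e4e55abd5343 (k8 c4393 c6029 c5815 c5962 c2111 c1523 c4396 c1479 (k2 c5846 c6601 (k1 c2112 k0))) (by decide +kernel)
def c13233 : PP 8 4 T 0x400000000000420000001000000044045000000000000000100001500504515145400000000000200 := rS 0x335a04e20d14eec5 (k8 c4530 c7751 c13089 c1063 c4474 c2115 c1479 c5846 k0) (by decide +kernel)
def c13234 : PP 8 4 T 0x1020001001002000040000050000400000000104000000484015500001045400008209 := rS 0x104306c61b3cd6ad219a62632608f52ab5a1c44aa7f5119d8e3f288b47653178a52e5d088d40ea5 (k8 c4385 c30 c1330 c113 c4523 c2933 c2834 c8877 (k8 c4290 c4403 c4286 c4405 c4288 c4289 c5084 c7771 (k8 c1455 c13212 c4337 c4393 c1436 c859 c234 c12809 (k8 c13232 c4340 c2842 c2151 c942 c6117 c1524 c13033 (k4 c13233 c7462 c1873 c12819 k0))))) (by decide +kernel)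
def c13235 : PP 8 4 T 0x1000000000000000014000000050020055500000001000140200000400 := rS 0x641d5463f (k4 c400 c9384 c11627 c2118 (k1 c586 k0)) (by decide +kernel)
def c13236 : PP 8 4 T 0x1020001001001000000000040100000000000000000001581080000084000240008200 := rS 0x608253618fd821784b3d2ab5a19a1448b43b1592cd820eda31116194fa63338f4fe1b15854729750a7d726f0591ce04536aa4463503abc526b4caae24311780a8a43 (k8 c2152 c4396 c230 c8877 c11577 c4469 c4445 c6171 (k8 c581 c2834 c5815 c30 c1330 c833 c6029 c958 (k8 c443 c233 c3393 c84 c1344 c9738 c4384 c11524 (k8 c2933 c2157 c2349 c2143 c2396 c1456 c234 c919 (k8 c11648 c7516 c12368 c13235 c4332 c456 c11556 c4478 (k8 c1480 c7550 c4530 c4410 c9372 c5857 c8638 c4393 (k8 c1436 c859 c1523 c4437 c7300 c12809 c403 c4958 (k4 c421 c1064 c4465 c4503 k0)))))))) (by decide +kernel)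
def c13237 : PP 8 4 T 0x1001000000005000044001150000000000000000000140400550040000000 := rS 0x809a49c415ac5 (k4 c4530 c4554 c4468 c11351 (k2 c7287 c6161 (k1 c1848 k0))) (by decide +kernel)
def c13238 : PP 8 4 T 0x20000000000000010015000001000000001010400400182080101005000004000200 := rS 0x10e5041104d2431f94c7607 (k8 c30 c1601 c9029 c8954 c2152 c845 c1063 c8635 (k2 c2115 c2005 (k1 c1604 k0))) (by decide +kernel)
def c13239 : PP 8 4 T 0x20001000000000010015000001000000001110004400182080101005000004000200 := rS 0x41c24ed45 (k4 c4396 c13238 c4438 c2003 (k1 c4484 k0)) (by decide +kernel)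
def c13240 : PP 8 4 T 0x20001001001000000000000001000000000100024000106080501004000040001200 := rS 0x2890430174222da26616305867d8b2d52a1b159ed3a9736abc526b4c968b2ab890c45e02100747e53628ec0e43 (k8 c2152 c30 c1601 c4530 c9029 c8954 c1057 c4466 (k8 c230 c8877 c11577 c4469 c4445 c1105 c4476 c6171 (k8 c581 c2834 c5815 c958 c2933 c2971 c12934 c2143 (k8 c2396 c11624 c7513 c4471 c1419 c4362 c4420 c13237 (k8 c247 c456 c720 c13239 c522 c6224 c1064 c1605 (k1 c12827 k0)))))) (by decide +kernel)
def c13241 : PP 8 4 T 0x1020001001001000000000000100000000000000000001504000000084005040008200 := rS 0x2898e2d498f0763f2a139520d188ac4635038bc04a750968b29f52925726f0591d02455d92ce07b0d8803a4d (k8 c2147 c1057 c4466 c2396 c12934 c233 c3394 c4959 (k8 c443 c1421 c3393 c84 c1344 c9738 c2146 c4385 (k8 c4384 c1105 c4476 c11524 c11219 c230 c8877 c30 (k8 c1330 c833 c2143 c11577 c32 c6029 c2111 c13236 (k8 c8954 c1601 c13240 c1654 c7859 c331 c11118 c9384 k0))))) (by decide +kernel)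
def c13242 : PP 8 4 T 0x8400200000000000000010000400001400000004001500004000000000000000000000 := rS 0x115083ba1d12c3 (k4 c4362 c4314 c4410 c7751 (k2 c4479 c11277 (k1 c4322 k0))) (by decide +kernel)
def c13243 : PP 8 4 T 0x1400001001001000000000040100004400000000000101505000040080000040008200 := rS 0x14882af56a0c31093630e2c3f60ad686a262b26083b888b0ca7d3199d663d3f81c0231159ec2a3914a752ea15c9bc164738114d65a2c808401d (k8 c1057 c4466 c230 c1105 c4476 c6117 c443 c233 (k8 c3393 c84 c1344 c9738 c11524 c2933 c2971 c2834 (k8 c2157 c2349 c12934 c2143 c11577 c9668 c30 c1456 (k8 c234 c1186 c919 c11648 c7516 c12368 c13235 c4332 (k8 c11556 c4478 c7550 c4530 c2118 c4393 c1436 c12809 (k8 c403 c4471 c4362 c13242 c4318 c7462 c2568 c2949 (k4 c5449 c1873 c4503 c11686 k0))))))) (by decide +kernel)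
def c13244 : PP 8 4 T 0x400000000001400001001000000004005000100140000000000005505506001141000000000000200 := rS 0x2a1974b3cb42305120c210e771f94c7607 (k8 c30 c1601 c9029 c8954 c7751 c10041 c4479 c1063 (k8 c1604 c4472 c6159 c4447 c4426 c1750 c9304 c7105 k0)) (by decide +kernel)
def c13245 : PP 8 4 T 0x1400001001001000040000000100104000000010004505506001541000104200010200 := rS 0x5168904306c67d0d8c675180462020a84ca66515b1586c18b0fc7607 (k8 c30 c1601 c8954 c4471 c4420 c4362 c4530 c2143 (k8 c1646 c9029 c34 c2349 c230 c11577 c9668 c9384 (k8 c4555 c9172 c4391 c1520 c13244 c7462 c1873 c2186 (k2 c1877 c2115 k0)))) (by decide +kernel)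
def c13246 : PP 8 4 T 0x1400001001000000000005000100100000000000004515506000141001200001008201 := rS 0xa8561e5a1182890610873ba14db051f94c7607 (k8 c30 c1601 c9029 c8954 c4406 c7462 c1496 c7751 (k8 c10041 c4479 c1063 c1604 c4472 c6159 c4447 c457 (k2 c9304 c11272 k0))) (by decide +kernel)
def c13247 : PP 8 4 T 0x1400001001001000040000000100104000000000000101486000141000004200008200 := rS 0xa2d12086058c1619f4c7165aa5402312e844926f0591ce0361c8d4d602098fca66515b147607 (k8 c30 c1601 c4530 c2143 c1646 c9029 c8954 c34 (k8 c230 c6117 c1330 c2157 c4470 c233 c3393 c84 (k8 c1344 c2146 c113 c4523 c11577 c9668 c11624 c7513 (k8 c4471 c842 c1419 c4362 c4420 c13245 c13246 c1873 (k2 c2184 c1877 (k1 c2115 k0)))))) (by decide +kernel)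
def c13248 : PP 8 4 T 0x1001000000040000000000000000100000000000004000000000000000000200 := rS 0x5131c5a931e0ec7e544d90cd313193948a815d91c964d382e492a54fa854e365889e185d3088c727b158c44a020d804be5a101643f15488740a0b088d41c07 (k8 c30 c13084 c1330 c113 c84 c263 c1057 c12700 (k8 c13204 c13231 c1105 c4466 c4476 c12467 c9668 c2396 (k8 c230 c313 c11577 c2143 c12934 c2157 c833 c6989 (k8 c4523 c11620 c4538 c9348 c4470 c11219 c11524 c4384 (k8 c4385 c2146 c9738 c233 c2147 c3394 c3393 c4959 (k8 c1421 c443 c13234 c13241 c4340 c2842 c2151 c863 (k8 c13243 c8954 c1601 c13247 c1654 c7859 c331 c11118 (k1 c9384 k0)))))))) (by decide +kernel)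
def c13249 : PP 8 4 T 0x400000001000000000000000000001000000000000000008000200000000000000200 := rS 0x17849a0369a3b96cdb190c8841699 (k8 c3070 c84 c799 c7547 c4364 c9753 c92 c4703 (k4 c4488 c425 c804 c4437 (k2 c7300 c4465 k0))) (by decide +kernel)
def c13250 : PP 8 4 T 0x1001000000000000000000800000000000000001400000000000000001408000 := rS 0x8486cd081 (k4 c1897 c4532 c427 c4437 (k1 c4465 k0)) (by decide +kernel)
def c13251 : PP 8 4 T 0x2000001001002000044000000401501100100040000000008015001010000005400000 := rS 0x1a28966d149cbe4da1cd30845aeca613288568655638ec8e3f (k8 c4288 c4404 c4403 c4289 c13098 c8226 c4284 c4405 (k8 c4401 c4290 c4390 c5853 c4465 c4437 c4440 c804 (k4 c10851 c13025 c4399 c1479 (k2 c13095 c5846 (k1 c2109 k0))))) (by decide +kernel)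
def c13252 : PP 8 4 T 0x2000001001002000040000000000000000100000000000000000200001000080000200 := rS 0xbf4d9d834a70b9ae24a554a74b65f01965766148accfe332493446010e92d0a242e064420b4cb3d86b81e91d6a042b0d40e37638387e3b (k8 c4403 c4288 c13084 c4289 c4386 c30 c1330 c13248 (k8 c1066 c4389 c4404 c2188 c10104 c1209 c1526 c3070 (k8 c84 c799 c7547 c265 c264 c3472 c3321 c56 (k8 c750 c1328 c2192 c2191 c6309 c1455 c10182 c4352 (k8 c880 c4390 c63 c12975 c1376 c92 c1233 c6029 (k8 c5936 c13249 c4442 c532 c13250 c13251 c425 c6867 (k2 c1094 c10851 k0))))))) (by decide +kernel)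
def c13253 : PP 8 4 T 0x1000000000000020400000000020040000000000000054000000000000000 := rS 0xeb05 (k2 c4314 c5917 (k1 c5280 k0)) (by decide +kernel)
def c13254 : PP 8 4 T 0x2000001001002000040000000000000000100000000000000000200000000080000200 := rS 0x10d0834b442e1b898c0325b368841653099442a010e95456a34fc344849a199526598ba5d12b81e91d6a351b8ec860420958fec7072cc0e3f (k8 c4288 c30 c10182 c13084 c4289 c1455 c13248 c3063 (k8 c1066 c2189 c4403 c4386 c1330 c4389 c4404 c2188 (k8 c10104 c13253 c1193 c4361 c63 c3068 c7044 c8226 (k8 c2191 c264 c4381 c1395 c1463 c5588 c13098 c56 (k8 c750 c4284 c4405 c4401 c4290 c84 c799 c9753 (k8 c92 c7547 c13252 c4441 c6533 c1911 c300 c1878 (k2 c4465 c7856 (k1 c4440 k0)))))))) (by decide +kernel)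
def c13255 : PP 8 4 T 0x2000001001002000040000000000000000100000000000000000000000000080000200 := rS 0xcda29397e45259549a242490c7a5c208106a565d8e46ebd238ec7eb3039fd8e0e (k8 c13084 c4289 c1455 c30 c10182 c4288 c4403 c4404 (k8 c4354 c4386 c4348 c4390 c13248 c1330 c1066 c3063 (k8 c265 c2188 c2189 c2191 c264 c2192 c13098 c3321 (k4 c13254 c6330 c2114 c4396 (k2 c1479 c13136 k0))))) (by decide +kernel)
def c13256 : PP 8 4 T 0x400000000000000000001000000040044020444402000000040000514008010054010000000000000 := rS 0x27af996c4a5ab0cecf449ccdb13 (k8 c4344 c9753 c1086 c13253 c1526 c921 c12794 c4458 (k4 c947 c2026 c1254 c6220 (k1 c8901 k0))) (by decide +kernel)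
def c13257 : PP 8 4 T 0x2000000001002000040004000444102000000000000514008010051010004000008010 := rS 0x305429751c585710339cceb056427ca8485cd0d76391badd6a61238ec7e293fb1d4e91 (k8 c4352 c906 c4289 c1455 c4402 c4288 c4403 c4404 (k8 c880 c4389 c4353 c4386 c4348 c4390 c8226 c13256 (k8 c2113 c242 c1663 c243 c4406 c1686 c1730 c632 (k8 c4478 c4191 c4481 c4337 c4336 c11453 c4420 c4031 k0)))) (by decide +kernel)
def c13258 : PP 8 4 T 0x2000000001002000040000000000000000000000000000008000200000000020008210 := rS 0x5699d12c52a1cc78a525a06111334abd566b61a70322e26c6482431a9b44e3928accca133180006591082c0e29 (k8 c4402 c30 c84 c799 c63 c12975 c4461 c754 (k8 c4401 c490 c10182 c4405 c4348 c238 c9753 c1330 (k8 c175 c174 c4364 c378 c1220 c7547 c1219 c3221 (k8 c9032 c1844 c788 c757 c4344 c4479 c4439 c1333 (k8 c1842 c13257 c1615 c234 c1783 c9049 c921 c947 (k1 c12794 k0)))))) (by decide +kernel)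
def c13259 : PP 8 4 T 0x2400001001002000040000020000000000100000000000000000001001000001000200 := rS 0x150ac2722444414e9dc5c6d138fd66990d96cca133199ce67f639a59ebf218d48a1c071ad5e29558cc00050f80cb2210581cac51 (k8 c4405 c13248 c30 c84 c799 c63 c12975 c13255 (k8 c262 c4461 c2957 c5962 c4402 c5815 c493 c13084 (k8 c4466 c13258 c1330 c236 c6330 c1525 c757 c4289 (k8 c1455 c1086 c921 c754 c4401 c490 c92 c5876 (k8 c3051 c10182 c4288 c238 c9753 c4469 c11833 c785 (k4 c1063 c13139 c13253 c13132 (k2 c12794 c1489 (k1 c949 k0)))))))) (by decide +kernel)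
def c13260 : PP 8 4 T 0x2800000000000000000000400000400500100000000000000000000000000000000000 := rS 0x295529d5da3d22bd (k8 c4354 c4352 c4388 c4390 c4344 c4345 c4444 c2126 k0) (by decide +kernel)
def c13261 : PP 8 4 T 0x2000001001002000040000000000000000100000000400000000001000400001000200 := rS 0x111384e330d96cca134ec60827789a9cc2912fafc6a9b4c9b4d200019640e4322870420b0287cac0e (k8 c13084 c13248 c13255 c262 c84 c799 c4466 c13258 (k8 c236 c30 c63 c12975 c4461 c757 c9753 c3051 (k8 c2711 c1330 c6330 c1376 c4352 c880 c4532 c13260 (k8 c11833 c1063 c4472 c4368 c4401 c490 c92 c5876 (k4 c2957 c238 c13132 c13139 (k1 c1490 k0)))))) (by decide +kernel)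
def c13262 : PP 8 4 T 0x2000001001002000040000000000000000100000000000001000001000000001000200 := rS 0xcda293896810b1a85e41181de26a75f934d2433697d76bd30a458e994d800065922870420b0287cacb824834223b238e46eb55b8d41c07 (k8 c30 c13084 c1330 c4353 c4389 c4386 c4348 c4404 (k8 c4403 c113 c32 c4199 c7430 c13248 c13255 c262 (k8 c84 c799 c4466 c13258 c63 c12975 c4461 c2711 (k8 c3051 c4289 c4352 c880 c4354 c4390 c1376 c9753 (k8 c236 c757 c244 c6330 c4532 c13260 c11833 c13259 (k8 c1063 c61 c13261 c492 c3817 c1333 c2114 c4396 (k2 c1479 c13136 k0))))))) (by decide +kernel)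
def c13263 : PP 8 4 T 0x2000000001002000010000020000000000000004000000000000141000000002008040 := rS 0x2732e96cf613057ebd299447ec7a18ec6a41 (k8 c1873 c1330 c4403 c8226 c4289 c4288 c4405 c4290 (k8 c4354 c6330 c6869 c6159 c1525 c4459 c2028 c13111 (k1 c6220 k0))) (by decide +kernel)
def c13264 : PP 8 4 T 0x2000001001002000040000000000000000100000000000001000001000000000000200 := rS 0x15a8b66a0a8a4c5f29d9e8754a74d2c33c4485e4f212ad4ad1448c4966b0c19ce6b8248441a6d3d97d768f1c8dd6ebd5a985225323944fec74c8cd361b2d99426630000cb22922870420b0287cad431d8d41c07 (k8 c30 c13084 c1330 c4403 c8226 c13248 c13255 c262 (k8 c84 c799 c4466 c13258 c4402 c63 c12975 c4461 (k8 c754 c4401 c490 c92 c5876 c2711 c2957 c3051 (k8 c4289 c1455 c4405 c4404 c4290 c4352 c880 c4389 (k8 c4354 c4353 c4386 c4348 c4388 c4390 c1376 c7540 (k8 c9753 c32 c113 c4199 c7430 c1086 c921 c13262 (k8 c1919 c1875 c9671 c2039 c260 c5936 c5962 c13263 (k8 c2152 c1952 c8804 c237 c2054 c756 c4344 c4345 (k8 c1965 c1526 c4532 c2126 c13025 c4399 c245 c2063 (k2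 c645 c6601 (k1 c8058 k0))))))))))) (by decide +kernel)
def c13265 : PP 8 4 T 0x2000001001002000040000000000000000100000000000000000001000000000000200 := rS 0x1429715c422c6739b213eb9241d60a541a89d6eb530a448e3b1faccfec70725438650998c00050f80cb2212b02c0e29 (k8 c4402 c30 c84 c13248 c799 c63 c12975 c13255 (k8 c262 c4461 c754 c4401 c490 c4466 c762 c13084 (k8 c4289 c1455 c10182 c4288 c4403 c4404 c4352 c880 (k8 c4389 c4353 c238 c1330 c13264 c4406 c1686 c13098 (k8 c5280 c1663 c243 c1730 c632 c4481 c4478 c4191 (k2 c4360 c11453 (k1 c11255 k0))))))) (by decide +kernel)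
def c13266 : PP 8 4 T 0x400000001000000000000000014000000010000001150000000000005010000000002 := rS 0x2bcd663 (k4 c754 c493 c5815 c12794 k0) (by decide +kernel)
def c13267 : PP 8 4 T 0x2000001001002000040000000000000000100000000000000000000000000001000200 := rS 0x40058946a278c0827789a9d7e4d3490c6a6d5d8e46ebd30a64669b0d96c8aad44acd56486425d471031a4d3e673999400050997c065903a3d6e913fb1c1d053e9d16a950e07c4256058a4a83c (k8 c13265 c234 c4402 c84 c13248 c799 c13255 c4466 (k8 c762 c4389 c235 c1690 c4406 c13084 c4289 c1455 (k8 c4352 c4353 c4388 c30 c63 c12975 c1376 c4401 (k8 c262 c4461 c490 c1615 c921 c6233 c3050 c754 (k8 c4478 c4337 c4336 c10617 c1726 c4415 c10182 c9049 (k8 c4903 c13258 c92 c5876 c2711 c2957 c3051 c880 (k8 c4354 c4386 c4348 c4390 c9753 c1330 c236 c757 (k8 c244 c6330 c4532 c13260 c11833 c1063 c13266 c2239 (k4 c13132 c2114 c492 c1333 (k1 c3817 k0)))))))))) (by decide +kernel)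
def c13268 : PP 8 4 T 0x2000001001002000040000000000000000100000000000000000000000000000000200 := rS 0xb904d1262fc86af1893c96410c121909755a8e209f569f60a6715a24e854398f08a6332a6c66954980038050f9fd66c7149445a13298346a6d2f80cb2212b02c0e0e5da3c723748add7ab5 (k8 c4389 c4354 c4353 c4352 c4386 c4348 c4388 c4390 (k8 c13084 c30 c84 c13248 c799 c63 c12975 c1376 (k8 c9753 c1330 c32 c4290 c4401 c4286 c4405 c4402 (k8 c4289 c10182 c1455 c13255 c262 c4466 c4461 c3050 (k8 c762 c2957 c2711 c490 c754 c13258 c13265 c1615 (k8 c234 c235 c9049 c12691 c921 c4406 c1690 c4903 (k8 c6233 c4478 c4337 c4415 c4336 c10617 c1726 c13267 (k8 c1873 c1875 c2183 c9671 c5815 c6023 c6330 c2114 (k4 c2164 c245 c2112 c3899 k0))))))))) (by decide +kernel)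
def c13269 : PP 8 4 T 0x1000040040020000000000000000000000000001000010000000000000 := rS 0x8f43 (k2 c4394 c1315 (k1 c4473 k0)) (by decide +kernel)
def c13270 : PP 8 4 T 0x10000000001001000000004000000002000044000000140001000048005800064000002 := rS 0x2215aab3294da2c515c5c2a63 (k8 c755 c646 c4356 c288 c3265 c459 c11827 c491 (k4 c1845 c947 c8137 c7314 k0)) (by decide +kernel)
def c13271 : PP 8 4 T 0x1000040040005000010015500000000000000001605150100000000000 := rS 0x27856971d28e84b9 (k8 c13269 c4473 c4393 c2113 c3238 c1640 c2125 c11776 k0) (by decide +kernel)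
def c13272 : PP 8 4 T 0x1001001000040000005000002015500000001140001000201155104064008002 := rS 0x559955e2b689f02446298fd4263248441a438cb0d8e2e0aa2d0e4b40c22266b (k8 c493 c4344 c4479 c4439 c1333 c4440 c4322 c646 (k8 c1220 c7340 c3221 c4364 c175 c32 c113 c4199 (k8 c755 c4212 c13270 c418 c13271 c1332 c1331 c1765 (k4 c3576 c789 c491 c1845 (k1 c13166 k0))))) (by decide +kernel)
def c13273 : PP 8 4 T 0x2000001001000000040000000000000000100000000000000000201001000000000202 := rS 0xa014a8d2ec84fae456481d91cca3f82950fec7338b926b30f9a5381b4a8b43805068d4b66d3d97c4e032c81c1c8f1c8dd22b75ab94322119904ac0b (k8 c84 c13248 c174 c12976 c799 c7547 c13268 c4389 (k8 c4353 c4352 c4386 c4348 c4388 c13084 c30 c63 (k8 c12975 c238 c1376 c7540 c9753 c92 c1330 c32 (k8 c54 c750 c2917 c2710 c5876 c5776 c757 c1066 (k8 c3197 c3050 c1220 c7335 c7340 c1455 c13272 c4406 (k8 c8954 c1647 c1603 c1601 c13098 c4191 c7514 c6233 (k4 c243 c11783 c4241 c3652 (k2 c2125 c11453 k0)))))))) (by decide +kernel)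
def c13274 : PP 8 4 T 0x400000000004000000000000000000000800020014404000000000000000000000000002080000000 := rS 0x67b15449660d2e230d (k8 c4381 c4338 c4458 c1986 c13185 c4489 c3268 c3499 (k1 c4572 k0)) (by decide +kernel)
def c13275 : PP 8 4 T 0x80800000000000054000000000001500008000000005540000 := rS 0x3459ac5 (k4 c1249 c1486 c461 c2109 k0) (by decide +kernel)
def c13276 : PP 8 4 T 0x1000040000820044000000144000000500009000001011000085008005 := rS 0x29144262a4b1915a6344a84ce15630f8fa9f49d0e2e593697092245985c089b (k8 c804 c4461 c532 c3200 c264 c2191 c265 c9753 (k8 c63 c4361 c4394 c3068 c1395 c1356 c7514 c7908 (k8 c387 c923 c11818 c7030 c12253 c13274 c2120 c7044 (k4 c1194 c1639 c1644 c13275 (k1 c292 k0))))) (by decide +kernel)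
def c13277 : PP 8 4 T 0x80000000000000000000000220 := rS 0x282a (k2 c655 c654 (k1 c2220 k0)) (by decide +kernel)
def c13278 : PP 8 4 T 0x1000000000015000000045500000000000009000000000140000108024 := rS 0x12863 (k2 c12253 c11956 (k1 c802 k0)) (by decide +kernel)
def c13279 : PP 8 4 T 0x1000001000000000015000000001500000000000009000000000040080008220 := rS 0x140953e1ca0a130a24d2e5f01964420b039845a3b3f890b867 (k8 c13277 c265 c264 c3429 c3062 c2356 c880 c30 (k8 c84 c799 c63 c12975 c1376 c1194 c9125 c13278 (k4 c140 c4308 c385 c387 (k2 c11994 c10373 (k1 c1625 k0))))) (by decide +kernel)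
def c13280 : PP 8 4 T 0x2000001001000000040000000000000000100000000100001000201001000000000200 := rS 0x31c7ed044944a6130a8a99ac35ca1d17080daf8ee9b1aaed628f1c8dd6ebd5ab95328524aa4463b8691d4a4b12170664157aad4e1735c493a1e0e96c32614897c1c67020040659109581607 (k8 c30 c84 c13248 c799 c63 c12975 c13273 c4461 (k8 c13277 c13084 c1376 c4352 c880 c7547 c92 c7323 (k8 c4466 c1233 c13249 c4442 c532 c13250 c4445 c4346 (k8 c174 c12976 c265 c264 c3321 c5936 c3320 c4381 (k8 c3062 c1328 c6029 c2191 c1496 c3070 c13268 c4389 (k8 c4354 c4353 c4386 c4348 c4388 c4350 c4390 c1330 (k8 c804 c10356 c6348 c425 c4465 c4322 c4440 c13276 (k8 c1215 c1485 c13279 c2220 c1639 c292 c1644 c13072 (k4 c2109 c459 c461 c2113 k0))))))))) (by decide +kernel)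
def c13281 : PP 8 4 T 0x2800000000000000000000000000400100101000000000008000000000000008000220 := rS 0x17e9b3b16c420b (k4 c84 c799 c92 c425 (k2 c6867 c1094 (k1 c13260 k0))) (by decide +kernel)
def c13282 : PP 8 4 T 0x2000001001000000040000000000000000100000000000000000201001000000000200 := rS 0xc71f950d3080da9c2e6b8911cfe9d598ec48492e078081d008d4b65f019640e6148a650a191082cac0e (k8 c13084 c13248 c84 c799 c7547 c1496 c3070 c4352 (k8 c880 c30 c63 c12975 c1376 c92 c1330 c13273 (k8 c7323 c4461 c4466 c265 c2191 c264 c3062 c3200 (k8 c1233 c3429 c3320 c13249 c4442 c532 c13250 c13281 (k4 c4465 c4437 c13280 c8954 (k2 c2194 c13098 k0)))))) (by decide +kernel)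
def c13283 : PP 8 4 T 0x1000000044000020000000000000000000000000810200010000000000000 := rS 0x2f89ec4 (k4 c419 c421 c1254 c8901 k0) (by decide +kernel)
def c13284 : PP 8 4 T 0x1000010000020000000010004000000100009400000002140480500000 := rS 0x14026ab32c4146972cc4c366d0245d2689 (k8 c7030 c3068 c4361 c1066 c9753 c295 c4441 c63 (k8 c1194 c11410 c5821 c7044 c4415 c530 c7856 c1916 k0)) (by decide +kernel)
def c13285 : PP 8 4 T 0x1001000040000020000000000000000000000009010201012000001008004 := rS 0x2884c54534a98d12d10ab3c7c7d348b566c34e078468b43c202e011796c366d (k8 c9753 c295 c92 c61 c5793 c1911 c4465 c4440 (k8 c4322 c1328 c296 c297 c3224 c3200 c2363 c1878 (k8 c1356 c7514 c1526 c387 c459 c7030 c12253 c802 (k4 c13283 c13284 c1639 c1645 (k1 c2109 k0))))) (by decide +kernel)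
def c13286 : PP 8 4 T 0x2000001001000000040000000000000000100000000000001000201000000000000200 := rS 0x18e3f68224a2530985454b91a80cb207478dd22b75ab949a391db0d384923890b8040f03916878405c022f2d86c606d0c8841656 (k8 c13248 c84 c799 c7547 c9753 c13282 c295 c92 (k8 c61 c5793 c1911 c4465 c4440 c4322 c13084 c296 (k8 c1066 c265 c264 c3320 c2191 c297 c3224 c3062 (k8 c4348 c378 c13268 c4389 c4353 c4352 c4386 c4388 (k8 c30 c63 c12975 c1330 c13285 c13279 c2220 c1639 (k4 c2230 c1645 c7030 c2109 (k2 c459 c2242 (k1 c2113 k0)))))))) (by decide +kernel)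
def c13287 : PP 8 4 T 0x2000001001000000040000000000000000100000000000000000201000000000000200 := rS 0xc71f9508e7f12124b8b31d8103c301a8380e56 (k8 c13248 c30 c13084 c1330 c13282 c296 c1066 c3062 (k8 c3200 c265 c2191 c264 c3429 c3320 c13286 c8954 (k2 c2194 c13098 k0))) (by decide +kernel)
def c13288 : PP 8 4 T 0x2000001001000000040000000000000000100000000000000000200000000000000200 := rS 0x891a538ab56a2452000f994ced0159d00a54398c47e3c1986482433680cb2212b02c0ee5 (k8 c13268 c30 c84 c13248 c799 c63 c12975 c9753 (k8 c175 c174 c7547 c12976 c13287 c145 c2236 c1615 (k8 c234 c2188 c235 c12691 c444 c921 c1647 c1066 (k8 c4461 c7860 c6057 c7820 c1671 c6169 c757 c13266 (k1 c4344 k0))))) (by decide +kernel)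
def c13289 : PP 8 4 T 0x20000001000001000000010005400010015544044400140401000015010800000000402 := rS 0x56948ca8839c1586b93a854f2c1 (k8 c4450 c4447 c646 c11627 c7514 c9009 c9062 c10373 (k4 c2123 c2439 c7314 c6230 (k1 c2032 k0))) (by decide +kernel)
def c13290 : PP 8 4 T 0x2000001001000000040000000000000000100000000000001000001001000001000202 := rS 0x15aab32a25a273140ae2e3e50aa14a796293a308b4e906102e3bc4d4ebf439a48635369ecbe031082c0ebb47add7ab530a4436454aa6cd6991987c0ab3498702a671696dca592b1fc1c63 (k8 c755 c13084 c1456 c13248 c63 c13268 c92 c2917 (k8 c7399 c646 c750 c3050 c3197 c54 c1066 c2957 (k8 c6171 c493 c2711 c2710 c13288 c424 c4352 c880 (k8 c4389 c4354 c4353 c4388 c4390 c30 c84 c799 (k8 c12975 c1376 c7540 c9753 c1330 c236 c757 c7313 (k8 c6330 c4532 c13260 c11833 c4469 c4479 c1063 c785 (k8 c4322 c4472 c13132 c7718 c4447 c1400 c2126 c7768 (k8 c13289 c4356 c288 c1180 c3082 c458 c7172 c491 (k2 c1845 c2752 (k1 c8137 k0)))))))))) (by decide +kernel)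
def c13291 : PP 8 4 T 0x1000000000000044000000054000001544000000000000540000000002 := rS 0x15a65 (k2 c491 c4554 (k1 c2120 k0)) (by decide +kernel)
def c13292 : PP 8 4 T 0x2000001001000000040000000000000000100000000100001000005001000000000202 := rS 0x1594a62c58a63b1521ca28b3c1dc851955abd3a2f8929cda7b2f80c420e4798522454aa6cd6930e054ce2d2d964ac632081d12d10c1d416e5 (k8 c13268 c84 c11627 c13290 c260 c2039 c30 c1873 (k8 c755 c13248 c63 c92 c2917 c7399 c646 c750 (k8 c3050 c493 c2711 c2710 c13288 c4352 c880 c4388 (k8 c13084 c799 c12975 c1376 c7540 c9753 c4532 c10711 (k8 c1870 c4344 c4346 c4445 c4539 c4472 c1887 c237 (k8 c4632 c3863 c9141 c13291 c12123 c292 c4471 c7493 (k2 c4475 c7641 (k1 c4458 k0)))))))) (by decide +kernel)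
def c13293 : PP 8 4 T 0x1000000000000000000000800000000000000001400000000000000000000002 := rS 0xbb0d (k2 c4330 c2714 (k1 c4477 k0)) (by decide +kernel)
def c13294 : PP 8 4 T 0x2000001001000000040000000000000000100000000100001000001001000000000202 := rS 0x180875699484c515c65569d1f0be246d3da3c8a1c4aa6cd61f0299c5a5b72a9cc2912f80cb2212b02c1c632081d1218 (k8 c13290 c2039 c30 c1873 c755 c13084 c84 c13248 (k8 c799 c63 c12975 c1376 c4352 c880 c13293 c13268 (k8 c92 c2917 c7399 c54 c1066 c493 c2711 c2710 (k8 c750 c13288 c4388 c7540 c9753 c10711 c1870 c13292 (k8 c4344 c4445 c4539 c288 c3265 c4472 c491 c4554 (k2 c7591 c405 (k1 c8008 k0))))))) (by decide +kernel)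
def c13295 : PP 8 4 T 0x2000001001000000040000000000000000100000000000001000001001000000000202 := rS 0x2f8869d548b8d0a5258601a355da3d7a454da64661f02a9cc2912f80cb2212b02c0e0e (k8 c13084 c30 c84 c13248 c799 c63 c12975 c1376 (k8 c4352 c880 c13293 c54 c1066 c2957 c6171 c2711 (k8 c13288 c4354 c4388 c4390 c1330 c32 c13290 c1875 (k8 c5936 c13294 c756 c2719 c2718 c1952 c2126 c6330 k0)))) (by decide +kernel)
def c13296 : PP 8 4 T 0x2000001001000000040000000000000000100000000000000000001001000001000202 := rS 0xa064a8c50ae4e9045c7789ab57e69219b51eb75a9152a9b4c8cc3e930e29cc2914f97d7235072acd6971599406210599c5a5b2c95a0a0561b062c3b038fca8e5 (k8 c13268 c13295 c8954 c30 c1601 c4471 c4420 c4362 (k8 c54 c4406 c13248 c63 c92 c2917 c7399 c84 (k8 c799 c12975 c1647 c4191 c12667 c493 c13092 c13084 (k8 c1330 c7514 c1376 c6233 c4352 c880 c13293 c750 (k8 c3050 c1066 c2957 c6171 c2711 c2710 c13288 c4389 (k8 c4353 c4388 c9753 c236 c757 c6330 c6230 c13260 (k8 c11833 c4469 c1063 c785 c6161 c7662 c2762 c3652 (k2 c2125 c11483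 k0)))))))) (by decide +kernel)
def c13297 : PP 8 4 T 0x2000001001000000040000000000000000100000000000000000001001000000000202 := rS 0x13aa98c2fcd04389ab54ac528a2496410c459563b3294c7f05099501a3536a3d7a454aa6cd6991987c0a930e19c5a5b72a9cc2912f80cb2212b02c0e0e (k8 c13084 c30 c84 c13248 c799 c63 c12975 c1376 (k8 c4352 c880 c13293 c13268 c92 c2917 c7399 c750 (k8 c3050 c54 c1066 c2957 c6171 c493 c2711 c2710 (k8 c13288 c4354 c4388 c9753 c1330 c32 c13295 c34 (k8 c4406 c8954 c9029 c1647 c1601 c13092 c4471 c13296 (k8 c1873 c1875 c2038 c1877 c7493 c5936 c4903 c7641 (k4 c8804 c10711 c6330 c4472 (k2 c2719 c2718 (k1 c7959 k0))))))))) (by decide +kernel)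
def c13298 : PP 8 4 T 0x2000000001000000000000000014400500110000001050000000100015010001000202 := rS 0x892fcd243 (k4 c236 c757 c6330 c13266 (k1 c13260 k0)) (by decide +kernel)
def c13299 : PP 8 4 T 0x6000000000001000004010000054400510110000000154008500100005150022000200 := rS 0x52982d05f4653a8717c48da7b1082d1e91 (k8 c4352 c4388 c84 c799 c7540 c9753 c10711 c1870 (k8 c7591 c4344 c4539 c13260 c2112 c8128 c4572 c4426 k0)) (by decide +kernel)
def c13300 : PP 8 4 T 0x2000001001000000040000000000000000100000000000000000000001000000000202 := rS 0x26a75522e342949e4b0c1219ec855abd2e513eb154665829fd3e6344ab4522b3a14d8e543991e2e3f1d8f14e6749acd321f35a6d2a2d0e0cc0a0d1a96cda5f01964420b038391e375b9c56a6148959ca45 (k8 c13288 c13268 c13248 c4352 c880 c4389 c4387 c4353 (k8 c4386 c4388 c13084 c30 c84 c799 c63 c12975 (k8 c1376 c9753 c92 c1330 c32 c54 c2957 c750 (k8 c2917 c2710 c2711 c493 c1066 c6171 c3197 c3050 (k8 c7399 c13293 c13297 c89 c145 c4416 c8078 c1615 (k8 c234 c330 c2150 c235 c12691 c7860 c7821 c9049 (k8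 c7153 c11776 c10049 c4406 c1647 c4241 c3725 c1690 (k8 c3618 c11783 c5815 c13092 c10617 c3735 c1726 c13298 (k8 c1875 c2183 c5936 c13299 c756 c2719 c2718 c1992 (k1 c13025 k0)))))))))) (by decide +kernel)
def c13301 : PP 8 4 T 0x2000001001000000040000000000000000100000000000000000000001000000000200 := rS 0xb1a14c9952a6cee4b86c617e9d20aa4322421878b8331181002352f80cb2210581c1cbb58a3d7a61489583645 (k8 c13288 c424 c13248 c4352 c880 c4354 c4388 c4350 (k8 c4390 c13084 c30 c84 c799 c63 c12975 c1376 (k8 c1330 c13300 c4461 c1328 c6309 c265 c262 c2189 (k8 c264 c268 c6029 c3063 c1233 c6330 c4472 c4381 (k8 c3321 c9124 c4448 c5936 c1071 c2126 c6348 c13250 (k1 c7300 k0)))))) (by decide +kernel)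
def c13302 : PP 8 4 T 0x2400001001000000000000400000001400100000000001400080010004400000000002 := rS 0x1761a23 (k4 c1490 c13135 c752 c4477 k0) (by decide +kernel)
def c13303 : PP 8 4 T 0x2000001001000000040000000000000000100000000000000000000000000000000202 := rS 0x10016251a89e9d8c2fc824d21a64d2194d8706a6d2f80cb2210581c1cbb1c8dd7a6148958364517c4c6630 (k8 c13301 c173 c4441 c61 c13288 c424 c13248 c4352 (k8 c880 c4354 c4386 c4348 c4390 c13084 c30 c84 (k8 c799 c63 c12975 c1376 c9753 c1330 c750 c2711 (k8 c9671 c756 c3051 c236 c244 c1912 c6330 c4472 (k4 c4368 c13302 c13132 c2114 (k2 c492 c1333 (k1 c3817 k0))))))) (by decide +kernel)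
def c13304 : PP 8 4 T 0x20000001000001000040000005000000001544000400000009000014040000000008201 := rS 0x1215414fac661ae4ea15088d47a3b59878fe471217008032c8841607 (k8 c30 c84 c799 c63 c12975 c4461 c265 c264 (k8 c3320 c3429 c262 c3200 c3062 c2188 c1330 c113 (k8 c384 c11627 c7514 c9009 c10104 c7516 c9062 c13279 (k2 c7317 c1639 k0)))) (by decide +kernel)
def c13305 : PP 8 4 T 0x4000001000001000010000405000000005504000000000009080000002040400408220 := rS 0x4a94c2a13679f4cab84b82cb22d59878d219 (k8 c2197 c1878 c262 c3200 c2356 c63 c84 c1194 (k8 c13279 c7044 c1356 c1525 c530 c387 c421 c11994 (k1 c13284 k0))) (by decide +kernel)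
def c13306 : PP 8 4 T 0x20000001000001000040000405000000001544000400000009080100042000000008201 := rS 0x224a2530985454d149c5c7c1b1788c2e410e86408032c8841607 (k8 c30 c84 c799 c63 c12975 c4461 c2197 c1058 (k8 c1913 c1911 c1328 c61 c424 c13304 c4356 c3067 (k8 c458 c13305 c2220 c1639 c2231 c1645 c7030 c2109 k0))) (by decide +kernel)
def c13307 : PP 8 4 T 0x2000001001000000040000000000000000100000000000000000000000000000000200 := rS 0xc71f9510e8b3bc20324e239fe30bf598ec96412689092430f0f4b8171187408011806c8ae55aaf56e911b8e51ebb1a8380659109581607 (k8 c30 c84 c13248 c799 c63 c12975 c13084 c1330 (k8 c4390 c4388 c4348 c4386 c4352 c4353 c4354 c4389 (k8 c13268 c13288 c424 c13301 c13303 c4461 c1058 c1328 (k8 c1911 c265 c2188 c262 c2189 c2191 c264 c2192 (k8 c1913 c1915 c3062 c3200 c6330 c4472 c3429 c3320 (k8 c2114 c2197 c4465 c9124 c4322 c4440 c13306 c8954 (k2 c2194 c13098 k0))))))) (by decide +kernel)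
def c13308 : PP 8 4 T 0x1000000000000000040000000000000000000000000000008000200000000000008202 := rS 0x862449cba381bc6c3958984388f1a96cbe032c8841607 (k8 c30 c84 c799 c63 c12975 c1376 c92 c1330 (k8 c2709 c750 c7428 c3160 c241 c4470 c1344 c233 (k4 c443 c442 c12121 c4135 (k1 c4886 k0)))) (by decide +kernel)
def c13309 : PP 8 4 T 0x1000000000000000040000000000000000000000000000000000000000000000008220 := rS 0x1c8dc6a07 (k4 c30 c1330 c2187 c2190 (k1 c4470 k0)) (by decide +kernel)
def c13310 : PP 8 4 T 0x1000000000000000001500000000100021401500000100000000001008202 := rS 0x20c64f08234a14860b (k8 c84 c236 c1496 c757 c2119 c588 c4447 c1847 (k1 c4472 k0)) (by decide +kernel)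
def c13311 : PP 8 4 T 0x1000000000001000001001002000011000010545014000010045020505508000151000000002000002 := rS 0x229927d33add0f1739b08ca3f288ec265336b158318 (k8 c4472 c4450 c4370 c9753 c4290 c4401 c4403 c4405 (k8 c4288 c490 c6159 c12920 c4362 c1907 c1168 c921 (k4 c1420 c11399 c8388 c9372 k0))) (by decide +kernel)
def c13312 : PP 8 4 T 0x800000001001000010000000000000110000000000000000100155401500000000000 := rS 0x25987164eaad8318 (k8 c4472 c4450 c4445 c4344 c4471 c9009 c8293 c4360 k0) (by decide +kernel)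
def c13313 : PP 8 4 T 0x1000001001000000000000000000010000000000000101009000100081000020008202 := rS 0x220a332a59682b1f324765139a1ccee560b163043669e49cab57a75094517c48b67b138b52a9b4cacd26395cafc4a9f20a0c9a7f1e98d12d10c29496a9118ccd6815dc31225d37ac51e705397c06591082c0e6d (k8 c9753 c30 c84 c799 c63 c12975 c1376 c13293 (k8 c233 c2709 c3160 c1344 c4628 c12121 c4135 c4847 (k8 c1421 c493 c2957 c1409 c6029 c3394 c5936 c13310 (k8 c260 c2039 c755 c234 c1456 c2147 c1998 c1873 (k8 c4384 c4381 c3487 c9738 c241 c3050 c3197 c3051 (k8 c2711 c2710 c2917 c238 c7540 c92 c10711 c1870 (k8 c13089 c2119 c4344 c4346 c4445 c2111 c11641 c3455 (k8 c2152 c4472 c4370 c4450 c13311 c7399 c7591 c7478 (k8 c1876 c1061 c7550 c13312 c2224 c403 c1179 c491 (k2 c11410 c4629 (k1 c4336 k0))))))))))) (by decide +kernel)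
def c13314 : PP 8 4 T 0x1000000001002000001011010140004000002045020001509000051080000002000002 := rS 0x16b4351324fa675bb2e97173999584c71f944761329a3cc689 (k8 c2039 c755 c2709 c4290 c4401 c4403 c4405 c4288 (k8 c4289 c12819 c490 c12920 c4362 c4459 c2029 c1168 (k4 c921 c1420 c11399 c12374 (k2 c4393 c1435 (k1 c4989 k0))))) (by decide +kernel)
def c13315 : PP 8 4 T 0x1000000000001000001000001000041011010044411515500050020005540001415500100400000400 := rS 0xb715b2e96c65625e22b561c58eb0c (k8 c4135 c11627 c4471 c9009 c7513 c7316 c4360 c2127 (k4 c12585 c4458 c2026 c7325 (k2 c7551 c13189 k0))) (by decide +kernel)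
def c13316 : PP 8 4 T 0x1001000000040000000000000000100000000000001000000001000000000200 := rS 0x8828cca965a0ac7cc91d9ccfa6772b35084ea2b058abc8c2ac86794eabc5c6868a24c63d3f9ec5a954da65669324ae42abf23a853f0920a0c30a525aa4463335a05770c48974de8f381154e612d800be032c9b49a361cac4381f02884ac0b8a8d41c07 (k8 c30 c13084 c1330 c13307 c84 c13248 c799 c13309 (k8 c1066 c4466 c3160 c241 c4470 c2147 c9753 c63 (k8 c12975 c1376 c4461 c92 c7428 c13293 c13308 c233 (k8 c2709 c1344 c4628 c12121 c4135 c4847 c1421 c493 (k8 c2957 c1409 c6029 c3394 c5936 c13310 c1998 c1873 (k8 c4436 c4384 c12260 c3393 c3487 c2350 c9738 c2146 (k8 c3050 c3197 c3051 c2711 c2710 c2917 c7540 c1456 (k8 c234 c755 c2039 c260 c13313 c756 c2720 c2718 (k8 c1960 c1952 c3778 c4826 c2126 c4370 c4450 c4454 (k8 c7460 c4484 c1480 c13314 c7399 c7516 c7478 c1061 (k8 c7550 c13315 c2224 c403 c1179 c491 c11410 c4629 (k1 c4336 k0)))))))))))) (by decide +kernel)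
def c13317 : PP 8 4 T 0x100000000001000000000000000000500001000a000050400080002000410 := rS 0x73330f60a3f2885d1253 (k8 c9029 c2038 c35 c1605 c8954 c4406 c12691 c4191 (k2 c12920 c921 k0)) (by decide +kernel)
def c13318 : PP 8 4 T 0x1002000000000000000414000000000000000000515400005545400000000 := rS 0x5131c52a5 (k4 c5936 c4402 c4289 c2110 (k1 c13232 k0)) (by decide +kernel)
def c13319 : PP 8 4 T 0x102000000100000004000040000040000110010000410040a015500001004402000210 := rS 0xc21eb9456c16290cf24ea28be246d3d8b52a932eac51ea10e07c4a9f5d9ad52a5198021241418fca66501964420b1d81ca217 (k8 c35 c1605 c30 c1601 c84 c799 c63 c12975 (k8 c1647 c9029 c8954 c1998 c1873 c4436 c4461 c2957 (k8 c5936 c6029 c493 c4847 c4384 c4381 c1066 c4466 (k8 c12260 c2709 c3160 c4628 c3050 c2710 c2917 c7540 (k8 c9753 c10711 c1870 c13089 c2111 c11641 c2152 c4530 (k4 c6869 c13317 c13318 c11915 (k2 c13000 c9009 k0))))))) (by decide +kernel)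
def c13320 : PP 8 4 T 0x101000002000000000000000014000000000000011100001400000145400008002 := rS 0x7f5118d8e29 (k4 c4402 c4289 c754 c2110 (k2 c1455 c8633 k0)) (by decide +kernel)
def c13321 : PP 8 4 T 0x1001000000040000000000000000100000000000000000000001000000000200 := rS 0x619d55a734b8f4cee515b058a433ca755e2e342ad12511d994a63f8295082170c295526b369ec4e3316a5536a722a65669324934465d25afc8ea112a7d02bb86244de612d97d1e0001964e0361cac4381f02884ac0b8a8d41c07 (k8 c30 c13084 c1330 c13307 c84 c13248 c799 c13309 (k8 c1066 c4466 c3160 c241 c4470 c233 c63 c12975 (k8 c4461 c2709 c1376 c92 c7428 c1344 c12121 c4135 (k8 c4847 c1421 c4384 c4381 c12260 c3393 c3487 c3394 (k8 c4628 c1409 c2147 c2146 c3050 c3197 c3051 c13308 (k8 c13293 c2711 c2710 c2917 c2957 c238 c7540 c9753 (k8 c493 c6029 c5936 c13310 c35 c1873 c13316 c4406 (k8 c8954 c9029 c1647 c1601 c1605 c2038 c5962 c13319 (k8 c756 c2720 c2718 c1960 c1952 c4530 c6869 c13317 (k8 c13320 c7399 c11915 c11783 c7478 c4903 c1686 c9009 (k1 c4511 k0))))))))))) (by decide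 +kernel)
def c13322 : PP 8 4 T 0x1001000000040000000000000000100000000000000000000000000000000200 := rS 0x2755318a22f4871327904d23012c317e4b48934e06f1b0e5629922a9cc29b47870001f02c54be031096cb2561a8380e0b (k8 c84 c30 c13084 c1330 c13248 c63 c92 c799 (k8 c12975 c1376 c13307 c13309 c1066 c4461 c4466 c2709 (k8 c2711 c7428 c13293 c13308 c3051 c3160 c241 c4470 (k8 c1344 c233 c2147 c12121 c3394 c3487 c4135 c4381 (k8 c13321 c1879 c1912 c298 c4441 c8832 c7460 c4474 (k4 c4472 c4398 c4368 c9059 k0)))))) (by decide +kernel)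
def c13323 : PP 8 4 T 0x1002000080000000000000000000000000100000000000001000005000000 := rS 0x4242e86 (k4 c6832 c8394 c4440 c4465 k0) (by decide +kernel)
def c13324 : PP 8 4 T 0x2800001000001000000000000400000000040000001410001000205114000481111002 := rS 0x2ad5e375bad4be5d (k8 c752 c488 c4389 c4353 c4386 c4346 c4445 c13171 k0) (by decide +kernel)
def c13325 : PP 8 4 T 0x2000001001001000000000000000000000000000001002005004204110000401019202 := rS 0x1342e89a2cca873a85416375bad6323d4c8ccd6314e968b2070f0843a7b349dc36b3 (k8 c1186 c686 c1090 c757 c1225 c1057 c9668 c4466 (k8 c30 c486 c4476 c12783 c297 c493 c13131 c1130 (k8 c13138 c4364 c4389 c4353 c4386 c84 c384 c11627 (k4 c7313 c578 c4632 c13324 (k2 c4469 c4488 (k1 c13168 k0)))))) (by decide +kernel)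
def c13326 : PP 8 4 T 0x1000000000000044000040004004401554000000208000900000100000 := rS 0x1114aab188528cc5c5693 (k8 c1122 c289 c4356 c4364 c13175 c419 c2032 c1786 (k2 c4338 c4487 k0)) (by decide +kernel)
def c13327 : PP 8 4 T 0x10000000000000000000000000080001100000000000000000000008000000000000000 := rS 0x13713 (k2 c4346 c13163 (k1 c4488 k0)) (by decide +kernel)
def c13328 : PP 8 4 T 0x2010000000001000000000000040844040104004401554000000208000100000100000 := rS 0x19f4366a5586ad623445e5255d151e915bc645693 (k8 c1122 c289 c4364 c4353 c4352 c4388 c4453 c2013 (k8 c13175 c13326 c179 c419 c4554 c1210 c1786 c2066 (k2 c11164 c13177 (k1 c12768 k0)))) (by decide +kernel)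
def c13329 : PP 8 4 T 0x1000000000000000050000804014000001154010800000000000005000000 := rS 0x4242e8a (k4 c11533 c2030 c4322 c4465 k0) (by decide +kernel)
def c13330 : PP 8 4 T 0x1001000000000000440000840004004001554010000208000100005100000 := rS 0x1d60a8861ab5a22f292ae32778b8ace693 (k8 c1122 c1082 c289 c4356 c1090 c4364 c1973 c13175 (k8 c13326 c179 c4554 c1210 c13329 c4314 c597 c4481 k0)) (by decide +kernel)
def c13331 : PP 8 4 T 0x1001000000000000044000000014000001444000800000000440001000002 := rS 0x2108a0b9a4362d (k4 c910 c686 c757 c2030 (k2 c13291 c4465 (k1 c4322 k0))) (by decide +kernel)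
def c13332 : PP 8 4 T 0x2000001001000000000000000000000000100000000002005000200000000001008202 := rS 0x3ac1510b867d0d2ac365b1296d11794956be8926d4eaf4fa4d462d33a1cca15158fa1a0b088e49a0d1a91d6f19019acee7f5998d2ee50d9b50a7b5488d76a525a3d229919af4d2314e968b207690783a21 (k8 c9668 c1057 c4466 c13322 c30 c486 c4476 c12783 (k8 c297 c757 c4354 c13131 c1130 c4352 c4388 c4375 (k8 c5936 c4390 c4372 c6029 c1225 c1496 c8005 c686 (k8 c13323 c13165 c755 c1186 c1456 c1090 c493 c28 (k8 c4364 c4353 c4374 c4373 c4371 c4282 c4280 c4276 (k8 c84 c4326 c13325 c289 c12287 c491 c7313 c11319 (k8 c910 c936 c1122 c11776 c13327 c13328 c13330 c4488 (k8 c2126 c4445 c13175 c13326 c179 c4456 c419 c2022 (k8 c1210 c1786 c11164 c13177 c9033 c13331 c4314 c597 (k1 c5280 k0)))))))))) (by decide +kernel)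
def c13333 : PP 8 4 T 0x1001000000080000000400001040000044001001015000208004000081000402 := rS 0x6613910d11794957126426d462d339f50e650aabc56272691e32034ca9496a9359ddca1b348c4c6a7509684b0c2f834ba23 (k8 c4372 c752 c4371 c488 c4477 c4381 c4476 c11524 (k8 c11219 c755 c297 c757 c686 c13323 c1090 c493 (k8 c6029 c4375 c5936 c1130 c28 c4364 c4374 c4282 (k8 c4278 c289 c13327 c12287 c491 c7313 c7516 c11319 (k8 c910 c11410 c13330 c5857 c4488 c4445 c13175 c13326 (k4 c179 c13331 c4839 c637 (k1 c1480 k0))))))) (by decide +kernel)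
def c13334 : PP 8 4 T 0x2000001001000000000000000000000000100000000000005000200000000001008202 := rS 0x31a96cb28ab9569a8999d9a8b32a250e755c94c5a151fd15050c539852e63599fc16111c9246a471badd6b192f834ba3d359dd02e50d9b50a7b5488d76a525a3d229919af4d2314e968b2070f0843ad2 (k8 c13322 c1057 c9668 c4466 c30 c486 c4476 c12783 (k8 c297 c757 c4354 c13131 c1130 c4352 c4388 c4375 (k8 c5936 c4390 c4372 c6029 c1225 c1496 c8005 c686 (k8 c13323 c6395 c1090 c493 c13138 c752 c4371 c488 (k8 c4364 c4389 c4353 c4386 c4374 c4373 c4281 c4280 (k8 c4276 c84 c1456 c1186 c755 c13165 c13332 c11219 (k8 c4477 c2119 c13089 c13333 c384 c392 c418 c7514 (k8 c11627 c7313 c7314 c578 c4632 c2064 c11319 c13324 (k8 c4488 c13155 c13171 c13156 c8140 c4428 c4034 c7284 k0))))))))) (by decide +kernel)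
def c13335 : PP 8 4 T 0x2000001001000000000000000000000000100000000000004000200000000001008202 := rS 0x2558d164bae4762d1f854a8e50d9b4d2853d8e4923523aed1e3748add7ab51ea654a4b548c4669d2d1640e1e0e88446d2 (k8 c13322 c4372 c9668 c1057 c4466 c30 c486 c4476 (k8 c12783 c13131 c297 c6029 c4375 c5936 c1130 c13138 (k8 c4389 c4354 c4353 c4352 c4386 c4388 c4390 c4374 (k8 c4373 c4281 c4280 c1225 c1496 c757 c8005 c686 (k8 c13323 c13334 c141 c8954 c2165 c1601 c7514 c6579 (k4 c4471 c2113 c4418 c13173 k0)))))) (by decide +kernel)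
def c13336 : PP 8 4 T 0x1000000000000000000001000000000000000000000200004000002000002 := rS 0x1b03631 (k4 c297 c171 c5733 c5814 k0) (by decide +kernel)
def c13337 : PP 8 4 T 0x1001000000000000400001140000004001000015000208000000081000402 := rS 0x1d60ac3443445e5255c49362d339cd0e650aabc57178c80cd6313498cee1b (k8 c686 c1090 c755 c757 c297 c493 c28 c4364 (k8 c4356 c289 c13327 c12287 c491 c7313 c1082 c11319 (k8 c910 c13330 c4488 c4445 c13175 c13326 c179 c13331 (k4 c1210 c4314 c597 c4481 k0)))) (by decide +kernel)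
def c13338 : PP 8 4 T 0x2000001001001000000000000000000000000000001000005000200110000400011202 := rS 0x8b25076ae39aae089a1744cce8b32a1cea151f9dc360b1badd6b192f9747a99358c4f6690c8cd3a5a2c81d66634b8783a21 (k8 c9668 c1057 c4466 c13165 c755 c1186 c30 c486 (k8 c4476 c12783 c13131 c13336 c757 c1225 c297 c493 (k8 c1130 c13138 c752 c488 c4364 c4389 c4353 c4386 (k8 c84 c686 c1090 c13337 c384 c11627 c7313 c578 (k8 c4632 c11319 c13324 c4469 c4488 c13179 c13155 c4408 (k4 c13171 c1061 c868 c4471 (k1 c4418 k0))))))) (by decide +kernel)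
def c13339 : PP 8 4 T 0x1000000004002000000000200000000000000002 := rS 0x22641 (k2 c174 c4342 (k1 c12792 k0)) (by decide +kernel)
def c13340 : PP 8 4 T 0x2000001001001000080000000000000000000000000000004000200000000000004202 := rS 0x1723b638fca8111c8344635238dd6eb51e9b4f61919a74b45903878421d (k8 c1057 c9668 c4466 c30 c486 c4476 c12783 c13131 (k8 c13336 c1225 c13339 c13138 c4389 c4353 c4386 c4374 (k8 c4373 c4372 c4371 c4280 c4276 c13338 c8954 c250 (k2 c1601 c7514 (k1 c12162 k0))))) (by decide +kernel)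
def c13341 : PP 8 4 T 0x2000001001000000000000000000000000100000000000004000200000000000000202 := rS 0xe40d9b41e693d86462334e878b41d69084b207 (k8 c30 c486 c9668 c13322 c1057 c4476 c4466 c12783 (k8 c13131 c297 c13336 c1225 c757 c13335 c13339 c686 (k2 c13340 c13323 k0))) (by decide +kernel)
def c13342 : PP 8 4 T 0x2000000001001000080000000000016010144000000140001000200004100064000202 := rS 0x28856971d2e47e3d1c88c6a47478dd22b75a90e3293618c58e2e (k8 c1220 c7340 c296 c3221 c3050 c4364 c175 c4389 (k8 c4353 c4352 c4386 c4388 c4374 c4373 c4372 c4280 (k8 c234 c13270 c7514 c12162 c3238 c1640 c2125 c11410 k0))) (by decide +kernel)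
def c13343 : PP 8 4 T 0x2000001001000000000000000000000000100000000000000000200000000000000202 := rS 0x7ab851a5c563b328fe0a5443a2e10674fa8626e5189ae18694e06c3e951687066610c9ecda5b2b174be591080c0a070583446356923d22b75a90c8319 (k8 c4364 c174 c175 c4389 c4353 c4352 c4388 c13322 (k8 c4373 c4372 c4371 c84 c30 c54 c28 c9668 (k8 c486 c488 c752 c13341 c92 c9753 c7540 c7626 (k8 c880 c12976 c750 c2917 c2710 c1066 c5876 c5776 (k8 c757 c4477 c9032 c296 c13323 c4344 c4329 c4384 (k8 c7399 c4479 c4322 c4440 c13342 c4406 c8954 c1647 (k4 c1601 c4191 c11783 c11410 (k2 c13189 c11800 (k1 c7514 k0))))))))) (by decide +kernel)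
def c13344 : PP 8 4 T 0x2000000001001000000000000520000040104014500000020010208000040180000408 := rS 0x67d0d7cc865a0d725261a55a2c11614697115b9c56a2f2d9bd1719449ccf317 (k8 c4356 c9840 c3117 c7172 c4364 c9998 c1107 c838 (k8 c8877 c4389 c4387 c4353 c4338 c4458 c1864 c4554 (k8 c1987 c2425 c854 c1210 c4475 c6781 c11339 c2022 (k4 c4073 c8902 c4422 c1793 (k1 c9033 k0))))) (by decide +kernel)
def c13345 : PP 8 4 T 0x2000000001001000000000000544000040104014500400025010208400000180000411 := rS 0xbe65d2d9f4341b1190c15ca49869516444c8ad31a2608738badce2b5338acb66f3c8091719 (k8 c4364 c9998 c4461 c9840 c1107 c838 c226 c919 (k8 c4389 c4387 c4353 c4356 c3117 c4481 c7172 c4407 (k8 c13344 c13198 c4412 c9676 c1696 c13033 c7177 c6781 (k8 c1660 c4073 c7254 c11339 c4422 c1793 c4429 c1756 (k2 c8902 c9033 k0))))) (by decide +kernel)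
def c13346 : PP 8 4 T 0x2000000001001000080000000000001000105004400000005000200004000000000201 := rS 0x19f4339c35129f51a4e2cb94ab0ca62d1f9d516791d9bd566b57960b61e890840e4d118d5623947a456e715ac645e311eaccfa154b8acce0b0e8080a47 (k8 c4374 c263 c4461 c1058 c84 c919 c226 c11617 (k8 c12394 c7516 c1186 c234 c2139 c8877 c4364 c4389 (k8 c4387 c4353 c4352 c4388 c4280 c1145 c4373 c4372 (k8 c4282 c30 c440 c4469 c6169 c838 c12975 c4346 (k8 c4442 c4445 c1107 c3112 c9840 c9998 c12443 c13345 (k8 c392 c418 c1209 c11624 c7514 c4471 c9125 c11410 (k4 c11776 c7314 c13189 c1109 (k2 c11164 c13177 (k1 c9154 k0))))))))) (by decide +kernel)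
def c13347 : PP 8 4 T 0x400000000000000000010000410000200054005440000060400000000200100000000 := rS 0x61abd2b11 (k4 c4332 c854 c983 c5849 (k1 c6803 k0)) (by decide +kernel)
def c13348 : PP 8 4 T 0x1000000000002400001001001000001000000500001240114015500001401411608000004480000411 := rS 0x32e96c66132582ab8827d4665168a4c70456b14e7175daf4e2671596c426f459600519 (k8 c4364 c4461 c223 c9998 c1107 c86 c838 c226 (k8 c919 c4387 c4354 c4390 c4356 c3117 c3148 c13344 (k8 c4481 c4407 c794 c13347 c9676 c11410 c11776 c4468 (k8 c4415 c1932 c8130 c2123 c8998 c4459 c2028 c7284 k0)))) (by decide +kernel)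
def c13349 : PP 8 4 T 0x2000001001001000000000000000001000105104400000005000200000000080000200 := rS 0xc539b052695618b47ecd2fd1512823aa2c769b2d9e530532c0844e492688d62395daf4e2438c9845e311eaccfa154b8acce0b0e8080a47898c802d2 (k8 c13322 c13343 c13346 c4340 c4374 c263 c4461 c1058 (k8 c84 c919 c226 c11617 c12394 c7516 c1186 c234 (k8 c2139 c8877 c5402 c4364 c175 c4387 c4354 c4390 (k8 c4280 c1145 c4372 c4282 c4281 c4278 c86 c223 (k8 c2386 c433 c9864 c838 c862 c3112 c9998 c12443 (k8 c6745 c7314 c4452 c6467 c2064 c13348 c392 c1209 (k4 c11624 c9125 c1933 c1109 (k2 c1135 c2123 k0)))))))) (by decide +kernel)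
def c13350 : PP 8 4 T 0x40000001154010000208008000240000000 := rS 0x568b1a293 (k4 c1121 c2427 c400 c943 (k1 c13126 k0)) (by decide +kernel)
def c13351 : PP 8 4 T 0x2000001001001000000000000000001000100000000100005000200000000001000200 := rS 0x208af55a547ecda2a2cc6828642152a544994525d2f9ad34532d26440590fa9e263242a04ee1b2589d1e613d9b47a873f8552e2b3382c3a02028041ad2 (k8 c13322 c4371 c13343 c263 c4461 c1058 c84 c919 (k8 c226 c11617 c12394 c7517 c7313 c234 c959 c1225 (k8 c5402 c4388 c4278 c4375 c423 c1090 c6395 c6224 (k8 c13346 c4340 c902 c13349 c1105 c4466 c1129 c4476 (k8 c2388 c441 c581 c577 c840 c2834 c12368 c7314 (k8 c1971 c866 c4479 c4477 c2119 c11648 c4322 c13089 (k4 c2064 c13350 c11624 c13155 (k2 c868 c6907 (k1 c8638 k0))))))))) (by decide +kernel)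
def c13352 : PP 8 4 T 0x18000208 := rS 0x3e21 (k2 c2396 c2393 (k1 c4466 k0)) (by decide +kernel)
def c13353 : PP 8 4 T 0x2000001001001000000000000000000000100000000000004000200000000081000200 := rS 0x41178e6a051a4e1acf4f9f41c2ba1c597295631d5922d298fe0a5434c20f2971d9bcb6152c2747a210589c7249118d48e8f1ba456eb58c985a47b178c4ee1b010143a01 (k8 c13343 c1058 c263 c4461 c13352 c1090 c2139 c8877 (k8 c1225 c13322 c5402 c4364 c4389 c4353 c4352 c4386 (k8 c4388 c4374 c4373 c4372 c4281 c4280 c4278 c84 (k8 c86 c13138 c1233 c223 c2346 c838 c1107 c3112 (k8 c3206 c9840 c4482 c4437 c13351 c4406 c8954 c9029 (k8 c2165 c1726 c1686 c4559 c11624 c7514 c4471 c4391 (k8 c2137 c250 c1352 c1392 c1520 c13189 c9125 c11410 (k4 c5931 c1109 c11483 c13192 (k1 c6467 k0))))))))) (by decide +kernel)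
def c13354 : PP 8 4 T 0x2000001001001000000000000000000000100000000000004000200000000001000200 := rS 0x3d1d8fd3e548644cd29714a84ba5f35a74641515894b499101643e070589c92231a91d1e374890cc2d23d9b4ee1b010143a01 (k8 c13343 c1058 c263 c4461 c13352 c1090 c959 c1225 (k8 c13322 c5402 c175 c4352 c4386 c4388 c4374 c4373 (k8 c4372 c4281 c4278 c84 c30 c13353 c1105 c4466 (k8 c1129 c4476 c313 c2143 c2349 c440 c967 c581 (k8 c577 c840 c11524 c2834 c2933 c845 c4340 c4477 (k4 c13351 c4384 c8954 c1601 (k2 c13087 c13101 k0))))))) (by decide +kernel)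
def c13355 : PP 8 4 T 0x1002000080000000000000000000000000000000000000001000005000000 := rS 0x5e1268 (k4 c13323 c4437 c7300 c4465 k0) (by decide +kernel)
def c13356 : PP 8 4 T 0x2000001001000000000000000000000000100000000000004000200000000001000200 := rS 0x7206c620202b483a01 (k8 c13343 c1058 c13322 c263 c4461 c2139 c13352 c13354 (k1 c13355 k0)) (by decide +kernel)
def c13357 : PP 8 4 T 0x4802000000000000000000000000000444010000001144010000000000000000000000 := rS 0x2b4caaf35aad1687 (k8 c4440 c4322 c4445 c4442 c4346 c7044 c13185 c2120 k0) (by decide +kernel)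
def c13358 : PP 8 4 T 0x1000001000080400000000800000000000000101001000000000080000140004 := rS 0x7a8cbd0d (k4 c4330 c4532 c941 c1376 (k1 c12222 k0)) (by decide +kernel)
def c13359 : PP 8 4 T 0x2802001000001000080000000001000504100000001140011000009001100095100025 := rS 0x218244fd0c1cc951ae18ece5f29d96c16152da0510994d8a29508aa2296449fcfa63089241a4748985561735a2d0f17 (k8 c4356 c4440 c4322 c4442 c532 c4445 c5402 c4352 (k8 c4374 c4371 c4281 c4276 c12253 c7516 c7517 c7030 (k8 c13357 c4336 c1194 c898 c776 c3268 c4712 c1639 (k8 c1644 c2109 c4426 c459 c1710 c1750 c13358 c13260 (k8 c4572 c13275 c1215 c1523 c1792 c2107 c4394 c1395 (k2 c264 c4489 (k1 c4381 k0))))))) (by decide +kernel)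
def c13360 : PP 8 4 T 0x2000001000001000000000000000000000100000000000009000000000000080208200 := rS 0x5c1fd1e915bad408b3828acea0b (k8 c84 c590 c2220 c4308 c3200 c1066 c4389 c4353 (k4 c4352 c4388 c1456 c13279 (k1 c5280 k0))) (by decide +kernel)
def c13361 : PP 8 4 T 0x2000001001001000000000000000001000100000000100001000208000000005000200 := rS 0x33142a72fa081e4f17b2ca451a5b119ead60b0d3ea34ba54cac93934457050985126111391d22b7309b532032c81c7a2d33a6d4a4b548c4664111b495eab43c202e6b890103c21058740256 (k8 c13356 c13343 c1058 c84 c799 c4466 c1066 c13249 (k8 c4442 c532 c4465 c4440 c4445 c4346 c13322 c4372 (k8 c174 c12976 c297 c6029 c4375 c5936 c804 c13277 (k8 c2356 c2188 c30 c63 c12975 c3070 c9753 c5402 (k8 c4353 c4352 c4374 c4278 c4276 c3067 c13359 c140 (k8 c4308 c2220 c2423 c385 c630 c551 c11994 c1194 (k8 c11410 c11776 c1210 c1620 c6230 c13177 c4553 c4429 (k8 c7131 c1249 c1756 c7984 c421 c13360 c6153 c6467 (k4 c4532 c11483 c2128 c2065 k0))))))))) (by decide +kernel)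
def c13362 : PP 8 4 T 0x40000000000a800001001001000004000010000004050100000000100009400000000040085100200 := rS 0x32e96cda2b109cad41b44505e09445400f3228d26236923d22b75a9b4762d33a6d5eab45a1e101735810c6031082cb207 (k8 c30 c63 c84 c799 c12975 c12253 c1066 c4442 (k8 c532 c4465 c4440 c4322 c4445 c4346 c804 c13277 (k8 c2356 c3062 c9753 c4389 c4353 c4352 c4388 c13322 (k8 c4372 c9125 c11410 c13166 c13279 c2125 c4412 c7854 (k8 c1737 c4468 c1758 c548 c781 c6153 c7641 c4396 (k4 c1480 c4429 c1756 c4495 k0)))))) (by decide +kernel)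
def c13363 : PP 8 4 T 0x2000001001001000000000000000001000100000000100001000200000000005000200 := rS 0x2f9974b8697da02451144262a67a7e869563224ff163aae52e530a8fd0e8b841241a3523ac4728f1badd6a614c8ec7a2d4da9496a9188cc8223692ac2e6b890103c21058740256 (k8 c13356 c13343 c1058 c84 c799 c4466 c1066 c13249 (k8 c4442 c532 c4445 c13322 c4372 c174 c12976 c297 (k8 c6029 c4375 c5936 c804 c2356 c2188 c3062 c3070 (k8 c5402 c4389 c4353 c4386 c4388 c4280 c1145 c4374 (k8 c4373 c4371 c4281 c4465 c4322 c4440 c13361 c384 (k8 c418 c1193 c7514 c11627 c4471 c7517 c7030 c12162 (k8 c803 c4391 c1392 c1520 c13362 c1639 c1644 c291 (k8 c290 c2109 c1465 c4381 c4426 c1750 c6348 c9033 k0)))))))) (by decide +kernel)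
def c13364 : PP 8 4 T 0x2800001000000000000000000000000100101400000001008000000000000008000220 := rS 0x14d09 (k2 c4316 c13281 (k1 c5558 k0)) (by decide +kernel)
def c13365 : PP 8 4 T 0x4000000000000000080011100044001554002050000000011000200000000000104020 := rS 0xc963b2da0c209ab4ca11248348ecd (k8 c1481 c4374 c4371 c4281 c4276 c7044 c13185 c530 (k4 c2127 c1210 c2028 c461 (k2 c717 c2107 k0))) (by decide +kernel)
def c13366 : PP 8 4 T 0x40000000000014000000001001000080011100000000000002000000000001500000000000000144000 := rS 0x64b1d96d061044927d23b34fe0d (k8 c4371 c7517 c1481 c4374 c7516 c4281 c4276 c4494 (k4 c4475 c2028 c461 c717 (k1 c2107 k0))) (by decide +kernel)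
def c13367 : PP 8 4 T 0x1001001000080000100044001400002000800000109400208000000081100005 := rS 0xa22f319928ba5144262a4b3052a7f3ea1cc611248348f192c96d320407c5d26c5 (k8 c3096 c3067 c4356 c1496 c1066 c3070 c92 c63 (k8 c4364 c4374 c4371 c4281 c4276 c12253 c7313 c7516 (k8 c7517 c802 c1892 c13365 c1194 c1639 c1644 c13366 (k4 c4427 c716 c2107 c7325 (k2 c291 c1465 k0))))) (by decide +kernel)
def c13368 : PP 8 4 T 0x1001001000080000100000001400002000000000009000208000000009000201 := rS 0x60a252a726884c28c549a64065903accce040f0843aaf55c48a6763c9755231199041623 (k8 c4372 c84 c174 c12976 c297 c6029 c1497 c598 (k8 c425 c2383 c13249 c4445 c4346 c1058 c799 c4466 (k8 c1066 c13277 c3200 c30 c63 c12975 c3070 c3067 (k8 c3096 c13367 c140 c2423 c385 c11994 c679 c1621 (k1 c7478 k0))))) (by decide +kernel)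
def c13369 : PP 8 4 T 0x900000000001000000015000000001040000001100000008400000400140000000000 := rS 0x560a126ab (k4 c4445 c9125 c4468 c7130 (k1 c781 k0)) (by decide +kernel)
def c13370 : PP 8 4 T 0x2000001001001000000000000000001000100000000100001000200000000001000200 := rS 0x5e510aa22c567d0d9ac14ab18fe755ca5d86151f9741f454220cf2762986822271c8346a471ba456ebd5a984b6991d8f45a040f0843a014daa462332082c46d257aae2456 (k8 c13356 c13249 c4445 c4346 c13322 c4372 c84 c174 (k8 c12976 c297 c6029 c804 c13343 c1058 c799 c4466 (k8 c1066 c2356 c2188 c3062 c3070 c92 c5402 c4389 (k8 c4354 c4353 c4352 c4386 c4374 c4373 c4371 c4280 (k8 c4278 c4276 c13363 c2383 c425 c598 c638 c13364 (k8 c4397 c1496 c1497 c13368 c384 c1209 c1193 c7514 (k8 c11627 c7517 c12162 c803 c1893 c1481 c4391 c1520 (k4 c12768 c7223 c13369 c12211 (k2 c7325 c1465 k0))))))))) (by decide +kernel)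
def c13371 : PP 8 4 T 0x2000000000001000080000000000000000000000000000002000001400000000000020 := rS 0xb9638fc7235238dd6eb5 (k8 c4389 c4353 c4386 c4374 c4373 c4280 c8954 c2194 (k2 c7514 c12162 k0)) (by decide +kernel)
def c13372 : PP 8 4 T 0x40000000000012400000000001000000025000010040044100100000000009000000000140000108024 := rS 0xa2b317d0d52ae0485c47a456eb5 (k8 c4389 c4353 c4352 c4388 c265 c264 c13278 c1341 (k4 c4381 c1254 c8268 c4399 (k1 c5541 k0))) (by decide +kernel)
def c13373 : PP 8 4 T 0x2000000001001000084020000000000054110000000000000800000400140005404000 := rS 0x218b9a13368a8227a3d22b75aa8c469f23d2d964d (k8 c4282 c2022 c4456 c4374 c11776 c4372 c11410 c4389 (k8 c4353 c4352 c4388 c421 c6153 c4452 c2064 c4495 (k2 c1255 c11164 (k1 c13189 k0)))) (by decide +kernel)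
def c13374 : PP 8 4 T 0x2000000001001000080004000000002040100000000100009000208402100005500024 := rS 0x2e542ce07b11834b2914556134fa8e206515ab4464747add6a438c964db1353a45024b43c222e9368a252a63 (k8 c12253 c802 c7030 c2241 c3067 c4356 c4465 c4440 (k8 c4375 c6395 c4352 c906 c4344 c9753 c63 c4364 (k8 c175 c4389 c4353 c4388 c4374 c4372 c946 c289 (k8 c7044 c4487 c11410 c11776 c530 c4415 c1916 c7856 (k8 c4456 c1982 c419 c13372 c13373 c1795 c1526 c11040 k0))))) (by decide +kernel)
def c13375 : PP 8 4 T 0x2000000001001000080000000000002000100000000100009000208000500085100005 := rS 0x144a61315259123b61a2d0f080b811a230 (k8 c1233 c2241 c1066 c533 c4465 c4440 c4322 c3224 (k8 c3062 c7030 c13374 c1194 c1639 c2230 c1645 c2109 k0)) (by decide +kernel)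
def c13376 : PP 8 4 T 0x2000000000000000008005000004046040000000000000000000000000000000000000 := rS 0x5ca854abb5bad54e91 (k8 c4352 c906 c4389 c4353 c4390 c1405 c1795 c1526 (k1 c4031 k0)) (by decide +kernel)
def c13377 : PP 8 4 T 0x2200001001000000084100000000404050100000080001000800000000000005404000 := rS 0x5ca84fe5f4113d964d47a456eb5 (k8 c4389 c4353 c4352 c4388 c4282 c2022 c421 c6153 (k4 c549 c677 c11483 c1086 (k1 c11040 k0))) (by decide +kernel)
def c13378 : PP 8 4 T 0x1000001000000000020000000000115000080001001405000012000004604000 := rS 0x1217c9c6e (k4 c1085 c9801 c1377 c298 (k1 c11222 k0)) (by decide +kernel)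
def c13379 : PP 8 4 T 0x2000001001001000000000000000000000100000000100000000208000000001000200 := rS 0x4f419f5534350435728929b3d571060a7d46974a83d927215c14261468a4e2e4b08924463523a3d6eb53080cb207168c14e9161a141a878406e2633209b42e2f4e1547a3b690103c21058740256 (k8 c13356 c13343 c1058 c84 c799 c4466 c1066 c13322 (k8 c3062 c2188 c13371 c13370 c784 c533 c9753 c174 (k8 c12976 c4344 c9768 c4465 c4440 c4371 c6224 c3224 (k8 c4352 c906 c1233 c2356 c30 c63 c12975 c5402 (k8 c4389 c4353 c4388 c4374 c4373 c4372 c4281 c4276 (k8 c4375 c4356 c3067 c2241 c13375 c140 c4308 c2220 (k8 c385 c630 c13360 c11994 c1194 c11410 c11776 c1620 (k8 c4487 c4415 c13376 c13377 c4742 c13378 c13189 c11255 (k4 c11164 c7768 c1625 c8144 (k2 c299 c6153 k0)))))))))) (by decide +kernel)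
def c13380 : PP 8 4 T 0x2000001001001000000000010000404050100000000005008000000002040085400200 := rS 0x822f13cbaa9504341ea34988d1e915bad45a551e8ec08d2 (k8 c13322 c1066 c3062 c2188 c13371 c2356 c4389 c4353 (k8 c4352 c4388 c4372 c9125 c11410 c13279 c13189 c2125 (k4 c7768 c810 c299 c4477 (k2 c6153 c549 k0)))) (by decide +kernel)
def c13381 : PP 8 4 T 0x2000001001001000000000000000000000100000000100000000200000000001000200 := rS 0x144262a4fb452ac64498ceab94b94c2a3f43a2e10170da9c602f89a707235238dd22b75a984da332080cb207169547a3b02078420b0e804acd2 (k8 c13322 c13356 c13343 c1058 c84 c799 c4466 c1066 (k8 c3062 c2188 c13371 c2356 c30 c63 c12975 c174 (k8 c12976 c9753 c5402 c4389 c4353 c4352 c4386 c4374 (k8 c4373 c4280 c13370 c4344 c784 c1233 c906 c9768 (k8 c533 c4465 c4322 c4440 c13379 c384 c418 c1193 (k8 c7514 c11627 c12253 c7030 c12162 c803 c2242 c1392 (k4 c13380 c1639 c1645 c2109 k0))))))) (by decide +kernel)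
def c13382 : PP 8 4 T 0x2000001001001000000000000000000000100000000000000000200000000001000200 := rS 0x179442a88b159f4366b052ac63f9d57297618547e5da2aad5e844d9e4ec5354c49061a18a742f0934154720d118d48e375baf56a61691ecb69919904763d168103c21058740256 (k8 c13356 c13343 c1058 c84 c799 c4466 c1066 c2356 (k8 c2188 c3062 c174 c12976 c3070 c92 c1225 c13322 (k8 c5402 c4389 c4354 c4353 c4386 c4374 c4373 c4372 (k8 c4371 c4280 c13371 c13381 c4437 c7300 c825 c1878 (k8 c4465 c6833 c13249 c6029 c2383 c425 c598 c6867 (k8 c13364 c4346 c4445 c4397 c1497 c13368 c384 c1209 (k8 c1193 c7514 c11627 c7517 c12162 c803 c1893 c1481 (k8 c4391 c1520 c12768 c7223 c13369 c291 c7325 c1465 k0)))))))) (by decide +kernel)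
def c13383 : PP 8 4 T 0x2000001000002000000000020400000040108100000051101001001110004400000000 := rS 0xdd0d3f0ad93051badce229 (k8 c4402 c4387 c4353 c4386 c4410 c1733 c4904 c10069 (k2 c13085 c7096 (k1 c9688 k0))) (by decide +kernel)
def c13384 : PP 8 4 T 0x2000001001000000000000000000001000100000000000001000200000000001000200 := rS 0x1927f459d294c1439741e8156a118a9b419e4ecab0d2a624310889c1a2338c64c25b4c8cc8267099442ac7619f5666549ae076491e81072375aadc8e352cc5da4971fb903c212b02c3a01 (k8 c13343 c1058 c84 c13356 c799 c4466 c13382 c4288 (k8 c1193 c13322 c4963 c63 c4373 c4374 c4353 c4389 (k8 c4386 c4280 c1066 c2188 c4281 c3062 c7430 c3068 (k8 c7044 c3200 c1356 c1209 c4289 c4284 c4405 c4401 (k8 c13277 c174 c12976 c3070 c92 c5402 c4364 c4387 (k8 c4372 c4371 c4278 c4276 c297 c13249 c6029 c13355 (k8 c5962 c425 c598 c638 c6867 c3098 c13364 c13185 (k8 c184 c1496 c1497 c13383 c1892 c4494 c7130 c4427 (k2 c594 c716 (k1 c2107 k0)))))))))) (by decide +kernel)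
def c13385 : PP 8 4 T 0x1002000080000000000002000000004001000000000000004000011000020 := rS 0x4210c170d9a45f13 (k8 c4344 c784 c825 c9768 c533 c6832 c4465 c4440 k0) (by decide +kernel)
def c13386 : PP 8 4 T 0x2000001001000000000000000000000000100000000000000000200000000001000200 := rS 0x4a9d8c42a0d150629d618fca253720f4081e19a64426d2b1ec16d2219043a01 (k8 c13343 c1058 c174 c175 c13322 c84 c1225 c13356 (k8 c9753 c799 c3070 c12976 c4466 c1066 c2188 c13382 (k8 c4290 c4405 c4288 c1209 c13385 c297 c13384 c13355 (k4 c266 c267 c425 c1694 (k1 c9799 k0))))) (by decide +kernel)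
def c13387 : PP 8 4 T 0x40000000000010001001000000000000025020000000000000440004000000000000000000000000000 := rS 0x81a2a157ccc (k4 c8268 c1254 c1481 c4399 (k2 c1363 c4484 k0)) (by decide +kernel)
def c13388 : PP 8 4 T 0x6000001000001000000004000501100000000010144001001810200004004402001001 := rS 0x954e852fb2172cb6230696b738ad48719848bd063101014fe15 (k8 c2354 c7517 c2196 c4461 c2139 c1998 c1871 c4436 (k8 c4364 c175 c4389 c4387 c4353 c4456 c1982 c419 (k8 c2022 c13387 c2121 c12444 c11877 c7484 c225 c8634 k0))) (by decide +kernel)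
def c13389 : PP 8 4 T 0x2000001001001000000004000500100040100010100001021010208004004402001001 := rS 0x2984a854fb217295888b15b4a298a4a26343c10e7175b9c56b1984885066f54abd5712188bc560202b44fe15 (k8 c2354 c7517 c260 c2196 c4461 c226 c1871 c2139 (k8 c4469 c4445 c4346 c6029 c1107 c1998 c2178 c4436 (k8 c4364 c4389 c4387 c4353 c4356 c3117 c4481 c4410 (k8 c4407 c1876 c794 c13388 c4475 c4458 c2112 c4332 (k8 c854 c6781 c2121 c1665 c11877 c395 c8634 c5558 k0))))) (by decide +kernel)
def c13390 : PP 8 4 T 0x2000001001000000000000000000000000100000000000001000200000000000000200 := rS 0x2984a852fb20e68b49ae4a62d1f9fcfa75688ad660b138346a47588e56e715a9843709178f42a83268ed867a37a5dca582d95d4a4b548c4040519878421d0086046d2 (k8 c13322 c4372 c13386 c13343 c1058 c2178 c4466 c2175 (k8 c2196 c4461 c2139 c6029 c4375 c5936 c7547 c5066 (k8 c4476 c12969 c3206 c1107 c257 c3222 c3242 c4282 (k8 c1998 c2354 c2180 c1871 c4436 c171 c5402 c4389 (k8 c4387 c4353 c4280 c1145 c4374 c4373 c4371 c4278 (k8 c84 c1186 c226 c260 c12443 c7516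 c7517 c13389 (k8 c392 c418 c7514 c9125 c7874 c1109 c2121 c12444 (k4 c716 c225 c8634 c5558 k0)))))))) (by decide +kernel)
def c13391 : PP 8 4 T 0x2000001001000000000000000000000000100000000000000000200000000000000200 := rS 0x15ad115b18a275148b4a63f8295156af89394de31198ecb0020f1e8b6051e8bcae210b8603a011c9246a47690dd6eb5 (k8 c4389 c4353 c4386 c13322 c4374 c4373 c4281 c4280 (k8 c13343 c1058 c13386 c35 c2178 c7547 c1871 c2180 (k8 c2196 c5066 c257 c4466 c4461 c4476 c3242 c2175 (k8 c2139 c1107 c12969 c4469 c4346 c4445 c13390 c4406 (k8 c8954 c9029 c2165 c1599 c1686 c1605 c4559 c2137 (k2 c2186 c4554 (k1 c2112 k0))))))) (by decide +kernel)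
def c13392 : PP 8 4 T 0x2000001001001000000000000400001040104000041044480814148114000001000002 := rS 0x150601844d5c2f449ad5a794db398d18272ac82bb1baf57f171d8ad262d (k8 c910 c1122 c289 c144 c4356 c6330 c4354 c4386 (k8 c4390 c2035 c1943 c2114 c4472 c420 c421 c4448 (k8 c4447 c13185 c580 c7172 c2032 c13331 c4346 c4089 (k2 c13302 c299 (k1 c976 k0))))) (by decide +kernel)
def c13393 : PP 8 4 T 0x800000000001000000000000000000000044000001554001400000000140000100000 := rS 0x156af (k2 c4346 c4445 (k1 c13166 k0)) (by decide +kernel)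
def c13394 : PP 8 4 T 0x1001000010000000000000000044000001140001400000005040000100002 := rS 0x55abc5d133598cca2d (k8 c910 c491 c755 c493 c13393 c4469 c789 c1845 (k1 c13166 k0)) (by decide +kernel)
def c13395 : PP 8 4 T 0x2000001001001000000000000000000000100000000000005000008000000081000202 := rS 0x302a09c414dc4c5e304594cce7343968ca15319a4be590181c164b1c9341abb1baf57e431ab49661d4e9b4661b689145697 (k8 c13165 c289 c13391 c458 c424 c432 c5889 c1232 (k8 c56 c1186 c13322 c4373 c236 c6330 c4354 c4386 (k8 c4390 c4371 c4282 c4280 c4375 c84 c30 c28 (k8 c486 c488 c757 c755 c12287 c491 c4476 c7313 (k8 c1082 c11319 c13392 c7874 c13394 c61 c4441 c1966 (k4 c1913 c2114 c299 c13302 (k1 c976 k0))))))) (by decide +kernel)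
def c13396 : PP 8 4 T 0x1000000000000000000000000000000000200000000000000000005000000 := rS 0x2f09 (k2 c4437 c7300 (k1 c4465 k0)) (by decide +kernel)
def c13397 : PP 8 4 T 0x2000001001000000000000000000000000100000000000004000000000000081000201 := rS 0x21a9b2fa66308237aa54b12209dcb658188bc04610382c4e23588e51e713da04968506afc8635691a436214e8cc8a05 (k8 c263 c13391 c432 c1232 c86 c424 c13396 c13322 (k8 c4373 c236 c6330 c4371 c6224 c4375 c6395 c1224 (k8 c4387 c4388 c4280 c1145 c4372 c4278 c84 c30 (k8 c5402 c4461 c8877 c228 c12975 c838 c8951 c1104 (k8 c4469 c5936 c6029 c1107 c8882 c4472 c4443 c6467 (k2 c4448 c8237 (k1 c6348 k0))))))) (by decide +kernel)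
def c13398 : PP 8 4 T 0x2000000000001000000004000040040040100000000044080880405001100100000200 := rS 0x1164a0ed3e93670ac1691 (k8 c4352 c84 c292 c421 c11197 c11776 c12770 c13177 (k2 c4471 c4418 k0)) (by decide +kernel)
def c13399 : PP 8 4 T 0x2800001001001000000000000000000000100000000000005000000001000081000200 := rS 0xc71d858e70945224a6a330434f29b61c60ee4e20aad32af2691d62395da3c6eb75ead4f6855f90cd2214e9b436972f98c5ab91aa1cfe0d33994ea3d05968b2070a8fd666b0029496a91991446d2 (k8 c13322 c4372 c13391 c432 c6029 c4375 c5936 c13397 (k8 c493 c1186 c13395 c384 c30 c486 c4476 c84 (k8 c234 c11627 c578 c11319 c4371 c7517 c7313 c4373 (k8 c7514 c392 c755 c488 c13165 c424 c5889 c1232 (k8 c86 c13396 c236 c6330 c6224 c1224 c4389 c4354 (k8 c4353 c4386 c4388 c4390 c4280 c1145 c4374 c4282 (k8 c4346 c4443 c4445 c1103 c2114 c9124 c4472 c9009 (k8 c4448 c4447 c8237 c6348 c936 c13398 c7314 c13181 (k4 c4322 c1771 c4465 c1061 (k2 c9245 c12162 k0)))))))))) (by decide +kernel)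
def c13400 : PP 8 4 T 0x2000001001001000000000000000000000100000000000005000000001000081000200 := rS 0x82a2d8718841045c77899ac8669599b4661b22a1c2a653a8fc7a0b2d1640007 (k8 c30 c13397 c486 c4476 c84 c234 c13395 c11627 (k8 c578 c384 c7313 c13391 c424 c432 c5889 c1186 (k8 c13396 c236 c493 c13399 c7751 c4469 c12796 c4479 (k4 c4472 c9009 c4322 c9062 (k1 c13179 k0))))) (by decide +kernel)
def c13401 : PP 8 4 T 0x2000001001001000000000000000000000100000000000005000000000000081000200 := rS 0x181504e20a6e262f1817c004b1c9341abb1baf57e431ab483a9d368cc3645 (k8 c13391 c424 c432 c5889 c1232 c56 c13322 c4373 (k8 c236 c6330 c4354 c4386 c4390 c4371 c4282 c4280 (k8 c4375 c13397 c488 c13400 c61 c4441 c1966 c1913 (k4 c2114 c299 c13302 c976 k0)))) (by decide +kernel)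
def c13402 : PP 8 4 T 0x1000000000000010000000001000001011544140041555511105414000000000408000900000000000 := rS 0xcfa1a8184ab4fc405717 (k8 c4356 c289 c4487 c11776 c1845 c7287 c10261 c11164 (k2 c1794 c8129 k0)) (by decide +kernel)
def c13403 : PP 8 4 T 0x1000000000000010000000001000081011544140001401501105414000809000008000900080100004 := rS 0x4c54964aa8d12633f8348e6100875320f299a90493 (k8 c3067 c2122 c548 c3937 c1376 c1071 c56 c750 (k8 c880 c4374 c4371 c7517 c12253 c7314 c1465 c802 (k4 c13402 c1194 c1639 c12222 k0))) (by decide +kernel)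
def c13404 : PP 8 4 T 0x1000000000000010000000001000081011544000000001501101415100809000108000800080000200 := rS 0x9755ab52a72159951105098515ed14982d669d4d80cb221038b4ce044cc4c2c6a411ed6239 (k8 c4280 c1145 c1224 c2122 c548 c1838 c4442 c1071 (k8 c1066 c13277 c2356 c30 c86 c63 c12975 c804 (k8 c1232 c1186 c84 c3067 c458 c789 c13403 c140 (k8 c4308 c652 c2518 c2220 c385 c11994 c6230 c1945 (k2 c1194 c11990 k0))))) (by decide +kernel)
def c13405 : PP 8 4 T 0x2000001001001000000000000000000000100000000000001000000001000081000200 := rS 0xa11c98c893f9f62cb90a8fd0ecd29a2cd42e411bcba5e86a9952271191d628f5b9c56a7b40a141a3d59a74da6148a6cd2c51dd154a4e5eafc9637268d57639690cd32770d9e58318209588645 (k8 c13391 c236 c13401 c3063 c4472 c4450 c4447 c424 (k8 c9124 c1071 c432 c13322 c4280 c4390 c4373 c4282 (k8 c4386 c4375 c6330 c4354 c2114 c1400 c4396 c3062 (k8 c4530 c13396 c804 c4352 c880 c5889 c1232 c1186 (k8 c234 c4371 c6224 c6395 c1224 c4389 c4387 c4353 (k8 c4388 c1145 c4374 c4372 c4278 c6029 c10851 c4330 (k8 c4532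 c812 c9688 c2122 c6467 c548 c2515 c3937 (k8 c3979 c3912 c13404 c384 c7514 c4471 c7516 c7517 (k4 c7314 c12162 c9460 c4956 (k1 c4391 k0)))))))))) (by decide +kernel)
def c13406 : PP 8 4 T 0x1000001000000000405000000001544000000000009080108002000401108221 := rS 0x144a6131534527170d8bd1217 (k8 c1911 c7030 c61 c424 c4356 c3067 c458 c13305 (k4 c1639 c2231 c1645 c2109 k0)) (by decide +kernel)
def c13407 : PP 8 4 T 0x2000001001001000000000000000000000100000000000001000000000000081000200 := rS 0x1c855165c8fd121543a2c1d082f8902ea7898c1827952d16307727314823b02004c2561987496392688d768f1ba456ebd5a9ed0a1b06afc8635691147ab3 (k8 c1186 c234 c13391 c13322 c4373 c236 c6330 c4371 (k8 c424 c6224 c1224 c4389 c4354 c4353 c4352 c4386 (k8 c4388 c4390 c4372 c4282 c4280 c4375 c56 c432 (k8 c13401 c880 c750 c1066 c3062 c3063 c4530 c2114 (k8 c9124 c4472 c4396 c1400 c4447 c4450 c13405 c4441 (k8 c2006 c1911 c298 c7647 c4465 c11222 c4322 c4440 (k8 c13360 c7030 c13406 c7514 c4471 c13279 c9460 c12124 k0))))))) (by decide +kernel)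
def c13408 : PP 8 4 T 0x1000000000002000001000000000000001000400010440044011001555500080008000000240100000 := rS 0x296cb67d0d5c89642ad46cd569cd28d149c5d1e71 (k8 c4387 c4388 c4356 c1121 c2427 c401 c1082 c13185 (k8 c1480 c858 c1700 c12906 c7172 c2120 c4422 c1792 (k2 c8140 c4428 (k1 c4495 k0)))) (by decide +kernel)
def c13409 : PP 8 4 T 0x2000001001001000000000000000000000100000000000005000000000000001000200 := rS 0x20b11619d572951fa2e1113609e537183b938834552a7cc70c50a9cfa87149acce6d30a5d3a1501004ca5d2f880b41d058e49a475da3c6e915baf56a8125afc8635691a436451eaccb21f (k8 c13407 c1105 c1186 c234 c13391 c424 c13396 c13322 (k8 c4373 c236 c6330 c4375 c6395 c4389 c4354 c4353 (k8 c4352 c4386 c4388 c4390 c4374 c4282 c4280 c84 (k8 c1057 c4476 c4466 c577 c840 c12368 c9668 c230 (k8 c2349 c967 c927 c5402 c959 c919 c6117 c2834 (k8 c7313 c7516 c11219 c11524 c4477 c11648 c4384 c4385 (k8 c13089 c12912 c2114 c9124 c4472 c4448 c4447 c4450 (k8 c4539 c4479 c4322 c13408 c11624 c7514 c11627 c9009 (k2 c11040 c9062 (k1 c4478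 k0)))))))))) (by decide +kernel)
def c13410 : PP 8 4 T 0x2000001001001000000000000000000000100000000000001000000000000001000200 := rS 0x9c8c138827789c314e332e97c00990e26cc221369583e0b258e49a0d11aec6e915eafc8635691a43645 (k8 c13391 c424 c13396 c13322 c4373 c236 c6330 c4354 (k8 c4352 c4386 c4390 c4372 c4371 c4282 c4280 c4375 (k8 c84 c13407 c13409 c9753 c799 c880 c804 c4466 (k8 c3051 c1058 c488 c752 c2957 c13293 c4477 c13260 (k4 c11833 c1063 c2114 c4472 (k2 c13135 c4368 k0)))))) (by decide +kernel)
def c13411 : PP 8 4 T 0x2000001001001000000000000000000000100000000000004000000000000081000200 := rS 0x4ab18b5165c9647a001c8d48ed2478dd22b75a854760716a5c7e54 (k8 c13410 c8954 c1193 c2165 c30 c1601 c141 c4389 (k8 c4353 c4352 c4386 c4388 c13322 c4374 c4373 c4280 (k8 c13397 c13138 c486 c7514 c4471 c4476 c12162 c4418 (k1 c13173 k0)))) (by decide +kernel)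
def c13412 : PP 8 4 T 0x2000000000001000080000000000000000000000000000002000000000000000000220 := rS 0xf47607 (k4 c30 c1601 c2188 c13371 k0) (by decide +kernel)
def c13413 : PP 8 4 T 0x2000001001001000000000000000000000100000000000000000000000000081000200 := rS 0x2b014a8d2 (k4 c13322 c13410 c13412 c13411 (k1 c1066 k0)) (by decide +kernel)
def c13414 : PP 8 4 T 0x2000001001001000000000000000000000100000000000004000000000000001000200 := rS 0x23112208f54a9f862854e97359b4c2294e8ac4a0200974be202d07416272488c6a476923c6e913d90cd21b228547e3b2a01cb21f (k8 c13413 c1105 c30 c13410 c1601 c8954 c141 c13391 (k8 c424 c13396 c236 c1224 c4352 c4386 c4388 c13322 (k8 c4374 c4373 c4372 c4281 c4278 c84 c1057 c4476 (k8 c4466 c577 c840 c9668 c230 c313 c2143 c967 (k8 c835 c5402 c959 c6117 c2933 c11219 c11524 c4477 (k4 c4384 c4385 c13087 c12912 (k2 c13101 c4472 (k1 c4539 k0)))))))) (by decide +kernel)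
def c13415 : PP 8 4 T 0x2000001001001000000000000000000000100000000000000000000000000001000200 := rS 0x3d5c28d2e2b4fc30ce952e97cca2d0000c38611096cac590f814763f829500e0b0688c6ad247a456eb5 (k8 c4389 c4353 c4352 c4388 c13322 c4373 c4372 c4371 (k8 c84 c30 c13410 c4406 c8954 c1601 c13412 c13413 (k8 c1105 c13414 c92 c799 c880 c4466 c12975 c1058 (k8 c913 c1647 c488 c752 c2710 c7399 c4477 c6233 (k4 c4191 c11783 c11410 c13189 (k2 c11800 c7514 k0)))))) (by decide +kernel)
def c13416 : PP 8 4 T 0x2000001001000000000000000000000000100000000000000000000000000001000200 := rS 0x17849450ce434b483645 (k8 c13391 c424 c13322 c13396 c13415 c6832 c4405 c4440 (k2 c1836 c4465 k0)) (by decide +kernel)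
def c13417 : PP 8 4 T 0x22000001001000000000000400100001000100000000000004080000004000402001042 := rS 0x1861a99549b624692d174be5947a95089b (k8 c4448 c259 c1400 c4388 c486 c488 c752 c4476 (k8 c844 c13134 c4342 c4345 c4443 c8237 c712 c6348 k0)) (by decide +kernel)
def c13418 : PP 8 4 T 0x2000000001001000090100000400000000000015500000000000158000000002000000 := rS 0x651490eb839c5c9ab75a8558ac18c1bd084e5e8dd7e35 (k8 c4373 c6330 c4386 c4354 c6022 c259 c1499 c4472 (k8 c4450 c4370 c2355 c4389 c4353 c4282 c4356 c1082 (k4 c4073 c7043 c7648 c8183 (k1 c2022 k0)))) (by decide +kernel)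
def c13419 : PP 8 4 T 0x2000000001001000080000000000000000000000000000801000100000000082000201 := rS 0x49ab6229516b0c7ec93a8ad2e7d68acc1627239ed3a3d0aa6d8ac18c16c3a3b2c085326b849b4ee1b57aae24310113886790295c82075e8dc662f (k8 c1871 c432 c4386 c4354 c30 c1873 c7626 c263 (k8 c8961 c237 c6022 c4461 c2140 c4469 c4445 c4346 (k8 c424 c8951 c958 c4436 c1918 c8246 c86 c12975 (k8 c3112 c1057 c5066 c4472 c4450 c4370 c4448 c2355 (k8 c13138 c1232 c1224 c4374 c4278 c84 c1186 c260 (k8 c7516 c13165 c226 c12443 c12444 c13418 c9009 c392 (k4 c11624 c7223 c4554 c9125 (k1 c6031 k0)))))))) (by decide +kernel)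
def c13420 : PP 8 4 T 0x2000001001001000000000000000000000100000000000000000000000000080000200 := rS 0x6830d8c752894c7f052a17a1a5d892a476312c0bc0461009bd82848c1397e431e9e4669d109241a231a91d62391badd7ab52285c82070295c30d2 (k8 c13322 c13416 c7626 c263 c30 c1873 c35 c13391 (k8 c4389 c4354 c4353 c4386 c4280 c1145 c4374 c4373 (k8 c4372 c4371 c4281 c86 c1232 c432 c8961 c13138 (k8 c237 c6330 c6022 c4472 c259 c4450 c1499 c13417 (k8 c5402 c4461 c1871 c12975 c2140 c3112 c6029 c4469 (k8 c1497 c8237 c4477 c13419 c4406 c8954 c9029 c1605 (k4 c1686 c4559 c9009 c6159 (k1 c2186 k0)))))))) (by decide +kernel)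
def c13421 : PP 8 4 T 0x2800000001000000000000000000401040114004000454080000118000000000000400 := rS 0x438caad1e91 (k4 c4352 c4388 c4445 c4539 (k2 c13129 c4472 k0)) (by decide +kernel)
def c13422 : PP 8 4 T 0x2000001001001000000000000000000000100000000000001000008000000000000200 := rS 0x10c651343c1191114a0b09a0d1a9c4367b228bc82072ea3d3a97358c54ea130804beb344b44fa473398c52020a8803a651e82cb4592b861a41f (k8 c13420 c13322 c13416 c7626 c1105 c4476 c84 c234 (k8 c12368 c1057 c4466 c2349 c230 c2834 c11648 c919 (k8 c4374 c7516 c260 c2039 c1186 c577 c9668 c5402 (k8 c11524 c11219 c11577 c1918 c2933 c2971 c4388 c840 (k8 c30 c1873 c837 c13391 c1224 c424 c4387 c4373 (k8 c4371 c4282 c400 c401 c4332 c12918 c4478 c4410 (k4 c13421 c4469 c2151 c13122 k0))))))) (by decide +kernel)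
def c13423 : PP 8 4 T 0x2800000001000000080000000000501000100000000000000000110001401000000200 := rS 0x1089d19548cd1e91 (k8 c4352 c4388 c4340 c4345 c4539 c6996 c4472 c2152 k0) (by decide +kernel)
def c13424 : PP 8 4 T 0x2000001001001000000000000000000000100000000000001000000000000000000200 := rS 0x3f23a0c9a9f37a109cbd1bafc8635569b0651352c30ba8f53984025f4e968b225228c45e4103808401f0e95c30d2 (k8 c13322 c13416 c7626 c1057 c13420 c4466 c230 c30 (k8 c1873 c837 c11577 c13391 c313 c1105 c4476 c2971 (k8 c577 c9668 c5402 c11219 c4388 c840 c4477 c4385 (k8 c13423 c4469 c255 c2949 c4373 c2151 c6330 c4386 (k8 c4354 c6022 c259 c1499 c4384 c4282 c1998 c4374 (k2 c13422 c13086 k0)))))) (by decide +kernel)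
def c13425 : PP 8 4 T 0x2000001001001000000000000000000000100000000000000000000000000000000200 := rS 0x3418cc33a8f4a23b298fe0a54609bd0918272fc863289a953ea153c313a612e97c5e2b1889404012d080b21f0589c7249118d48e8f1badd7ab52285c82070e95c30d2 (k8 c13322 c13416 c7626 c1057 c30 c1873 c35 c13391 (k8 c4389 c4354 c4353 c4386 c4388 c4374 c4373 c4372 (k8 c4281 c4280 c4278 c84 c13420 c1105 c4466 c4476 (k8 c9668 c230 c313 c11577 c2143 c837 c577 c840 (k8 c5402 c2971 c4477 c11219 c11524 c4384 c4385 c13423 (k8 c4469 c2151 c6330 c6022 c4472 c259 c1499 c4450 (k8 c13424 c4406 c8954 c9029 c1601 c1605 c13087 c1686 (k4 c9009 c4559 c6159 c2186 k0)))))))) (by decide +kernel)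
def c13426 : PP 8 4 T 0x2000000001002000080000000000000000000000000000000000100000000082000200 := rS 0x19b456833c9c0e5fae286431e9e472491a91c6eb75ead4367b0bc2482070295c76c7 (k8 c4289 c4403 c7626 c263 c30 c1873 c4436 c35 (k8 c1224 c424 c4389 c4354 c4353 c4386 c4374 c4373 (k8 c4281 c4280 c8961 c13138 c237 c8226 c7430 c6330 (k4 c7574 c6022 c1525 c13263 (k2 c4396 c1479 (k1 c5846 k0)))))) (by decide +kernel)
def c13427 : PP 8 4 T 0x2000001001000000000000000000000000100000000000000000000000000000000200 := rS 0x86984ba5f4b8ac025a101643e2916b903a570c1151e272488c6ad2 (k8 c13322 c4373 c4372 c4281 c4278 c4388 c13391 c13416 (k8 c7626 c1057 c13425 c4286 c4402 c13426 c1105 c4466 (k8 c4476 c9668 c2143 c926 c577 c840 c5402 c13085 (k1 c4477 k0)))) (by decide +kernel)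
def c13428 : PP 8 4 T 0x1000000000000000000000000100000001100000000002000000000000000000000000 := rS 0x11f0d (k2 c4326 c849 (k1 c4486 k0)) (by decide +kernel)
def c13429 : PP 8 4 T 0x1001001000080000000000000000000000000001005000208000000081000202 := rS 0x368cd3a7f2d054b2030382c1a7b0eacc5697 (k8 c13165 c289 c1186 c1057 c1225 c4371 c84 c30 (k8 c28 c486 c12287 c4476 c7517 c12783 c13131 c13339 (k1 c13333 k0))) (by decide +kernel)
def c13430 : PP 8 4 T 0x1000001000000000000000000100000000100000000000420000000000000000000000 := rS 0xe26f (k2 c1107 c536 (k1 c4480 k0)) (by decide +kernel)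
def c13431 : PP 8 4 T 0x1000000000000820001000000000001000000001000000054040001554100000000000000000000000 := rS 0x41156af (k4 c4346 c4445 c6907 c8638 k0) (by decide +kernel)
def c13432 : PP 8 4 T 0x1001001000000000000000000000100000000000405000200000000081000200 := rS 0x683196eae289cd57044d0ba266e459c68a67669dd0465449fd0e1b35aa54a993aad45ab929856186d188cc7e63349753a37001680659259241a23239ec3a61588f632a75e8e5a4910282e2ab3 (k8 c1186 c13427 c84 c263 c12700 c13322 c4280 c1169 (k8 c4500 c4364 c13138 c1145 c13428 c1057 c1225 c4374 (k8 c4372 c4371 c4281 c4375 c13430 c223 c4476 c4461 (k8 c11089 c12783 c752 c757 c755 c13429 c13131 c297 (k8 c13339 c4477 c384 c418 c7328 c392 c7513 c11627 (k8 c1130 c5936 c6029 c493 c686 c7313 c7517 c7314 (k8 c578 c6517 c1090 c2064 c11319 c4452 c589 c4632 (k8 c4480 c13431 c4469 c4488 c13179 c13155 c4408 c13156 (k4 c8638 c1077 c4034 c789 (k1 c461 k0)))))))))) (by decide +kernel)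
def c13433 : PP 8 4 T 0x11000000000000000000000500000000000000000000000000080000040000000000000 := rS 0x17745 (k2 c4396 c1439 (k1 c4493 k0)) (by decide +kernel)
def c13434 : PP 8 4 T 0x1000000001001000000100410500000000005515104000021000609540000000915000 := rS 0x177456533580cf6294d86d1448498e735bc5d16773f93d7b19 (k8 c4364 c1169 c13433 c7517 c3120 c9998 c4356 c1161 (k8 c3117 c7557 c12203 c7172 c1758 c1210 c2030 c1249 (k4 c7875 c2123 c1989 c2124 (k2 c4455 c1981 (k1 c4493 k0))))) (by decide +kernel)
def c13435 : PP 8 4 T 0x1001001000000000000000000000100000000000005000200000000081000200 := rS 0xa519a65887360a4d131616b0ca63f0b13d528742854561b1b8bc62b93ea041ebf459d4ee253c8ec049d4720d92012c16cdf0d2f2cc0e11138348eb13d8747b1953af472d2488141715 (k8 c13427 c84 c263 c12700 c13322 c4280 c1169 c4500 (k8 c4364 c13138 c1057 c1225 c1145 c4374 c4371 c4278 (k8 c4276 c30 c1186 c13432 c4382 c1377 c577 c12467 (k8 c488 c12444 c549 c4486 c3249 c1106 c3112 c9840 (k8 c7033 c3120 c12443 c9998 c3491 c3401 c3403 c3402 (k8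 c3450 c297 c8877 c2130 c13352 c226 c2346 c6224 (k8 c7313 c1505 c13433 c6153 c13434 c418 c1209 c392 (k8 c4471 c7314 c9125 c4420 c1109 c2123 c1135 c433 (k2 c1430 c6996 k0))))))))) (by decide +kernel)
def c13436 : PP 8 4 T 0x1001000000000000011000000000100000000000406000200000000081000200 := rS 0x18eb73f9b8e2820d9ad52a5368c466692ea746e002d00cb24b1191cf61d30ac47aa75e8e5220505c547e3b03b2492d2 (k8 c13322 c4281 c1726 c30 c1601 c8954 c13427 c84 (k8 c263 c12700 c4280 c1169 c4500 c13138 c1145 c13428 (k8 c1057 c1225 c4374 c4372 c4375 c13430 c223 c4476 (k8 c4461 c11089 c12783 c752 c757 c13131 c297 c13339 (k8 c5936 c6029 c493 c686 c6517 c589 c4480 c1459 (k2 c1078 c251 (k1 c12155 k0))))))) (by decide +kernel)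
def c13437 : PP 8 4 T 0x1001001000000000000000000000100000000000004000200000000081000200 := rS 0x528cc554354ad90ac727a1c3637178c41ebf149dc4a024e99d1c012c16e1a5e50b052b165aa5d72b33a8b5163b1fc14a8a75ec640e4b1c9241a4769454f61d48814163d (k8 c13138 c84 c263 c12700 c1057 c1225 c13427 c13322 (k8 c4374 c4371 c4281 c4280 c4375 c30 c4364 c1169 (k8 c4500 c13435 c4406 c8954 c1601 c1767 c2165 c1686 (k8 c1185 c7328 c1193 c7513 c4471 c4418 c4420 c4551 (k8 c13436 c4382 c577 c12467 c488 c4486 c8996 c3249 (k8 c1106 c7033 c3120 c1599 c3491 c3401 c297 c8877 (k8 c2130 c13352 c10171 c13433 c250 c6224 c12155 c1505 (k4 c4424 c8900 c13211 c5936 (k1 c6996 k0))))))))) (by decide +kernel)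
def c13438 : PP 8 4 T 0x1000000080000020000000000000000000000000800140440000000000000 := rS 0xcb209357e35 (k4 c4373 c6330 c4282 c2035 (k2 c2022 c8183 k0)) (by decide +kernel)
def c13439 : PP 8 4 T 0x1000000000000000001001000000000000540000401001100800000000100000000005000000000200 := rS 0xbe2698479b882718c1dd62398aaa446d2 (k8 c13322 c4372 c6029 c13427 c4280 c1145 c2002 c4493 (k8 c589 c1063 c4480 c1345 c9059 c4443 c1840 c4469 k0)) (by decide +kernel)
def c13440 : PP 8 4 T 0x1000001001000000000000200100000000000800000000000000150000000005000000 := rS 0x71379e4ef18 (k4 c4472 c9124 c4447 c1079 (k2 c588 c4480 k0)) (by decide +kernel)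
def c13441 : PP 8 4 T 0x4000020000000080000202 := rS 0x22498 (k2 c1103 c12796 (k1 c4443 k0)) (by decide +kernel)
def c13442 : PP 8 4 T 0x1000000000000000001001000000000000000000401001100000000000000000110005000001000202 := rS 0x5ea08c315588e57e355d90d024b42834d26d0d97446d2 (k8 c13322 c4372 c752 c424 c5889 c13396 c4371 c6224 (k8 c4375 c6395 c236 c6870 c4373 c6330 c4280 c1145 (k4 c13427 c13428 c5947 c13440 (k1 c13439 k0)))) (by decide +kernel)
def c13443 : PP 8 4 T 0x1001000000000000000000000000100000000000404000100000000081000200 := rS 0x38e0835e13c2e30a29acf31820c304a5d1b800b403539649a2330a440a0b8aac472215f8d576434ea0496d2349b4661b (k8 c424 c432 c5889 c13396 c13322 c4375 c6395 c1232 (k8 c236 c6870 c4373 c6330 c86 c4280 c1145 c13427 (k8 c84 c263 c12700 c13428 c4372 c4282 c13430 c4532 (k8 c223 c4476 c4461 c11089 c752 c12180 c4477 c13441 (k8 c4472 c4447 c580 c13089 c13442 c5847 c298 c2114 (k4 c13440 c6133 c6153 c1415 k0)))))) (by decide +kernel)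
def c13444 : PP 8 4 T 0x21000000001001000000000010400000000044000500000020080118140000000000000 := rS 0xa34b6114e08c739adda317 (k8 c4356 c458 c1161 c3117 c7557 c4481 c420 c9062 (k2 c4459 c1866 (k1 c4475 k0))) (by decide +kernel)
def c13445 : PP 8 4 T 0x1000000001001000000000010044000100044000400000065080140100000080000201 := rS 0xad49a55862d1f8aceab3058147a9d1da5c5e37013063041 (k8 c3113 c4472 c4450 c1106 c2130 c8877 c3206 c3112 (k8 c1232 c13138 c263 c84 c1186 c12443 c226 c13444 (k4 c392 c9009 c11624 c9125 (k2 c4554 c6161 k0)))) (by decide +kernel)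
def c13446 : PP 8 4 T 0x1001001000000000000000000000100000000000004000000000000081000200 := rS 0x19d43683356cc35a9458e531f9510e8b845149cab4cabd4f1260a6d8a311b8be308352ae41e77128ec04413823952012c16cdf0d2f1a50a335d86c8a3d0392c4e49268344647588e5a51521a440a0b (k8 c84 c263 c12700 c236 c13427 c13322 c4280 c1145 (k8 c4374 c4372 c4371 c4282 c4281 c4278 c4375 c30 (k8 c13138 c13437 c424 c6870 c432 c6224 c13396 c13443 (k8 c4382 c1377 c577 c12467 c488 c1505 c4486 c4480 (k8 c3113 c1106 c3112 c7033 c1112 c3401 c3450 c1429 (k8 c2500 c4472 c8877 c2130 c228 c4530 c4448 c4450 (k8 c4469 c852 c4346 c4443 c4445 c2111 c4396 c6655 (k8 c4322 c4440 c13445 c8954 c9029 c250 c1604 c7513 (k4 c9009 c12155 c1479 c6159 (k2 c4424 c5846 (k1 c1796 k0))))))))))) (by decide +kernel)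
def c13447 : PP 8 4 T 0x40000000000011000000000000000020480110000000000000000000000000400000040000000000000 := rS 0x5fb3c9d43 (k4 c4391 c460 c1520 c9033 (k1 c13433 k0)) (by decide +kernel)
def c13448 : PP 8 4 T 0x400000000000110000010000010000a0400110500000000000000140000001400005440000000140000 := rS 0x71c0deb663844727f069f56a47 (k8 c4374 c7513 c7516 c4371 c7517 c4280 c4276 c13447 (k4 c12155 c1077 c4480 c12203 (k1 c1415 k0))) (by decide +kernel)
def c13449 : PP 8 4 T 0x400001000000000000000000000000000000000000001480000200080000000000400 := rS 0x86975746f (k4 c1344 c443 c841 c4825 (k1 c4477 k0)) (by decide +kernel)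
def c13450 : PP 8 4 T 0x1000001000001000080000000000400000000000001500005000200040000040000200 := rS 0x263b39b2da14b88c11582c57aad2a755c8fcca893199d663d05ac4561514808b4598caf472534d22d0f08898c8401d (k8 c1057 c4466 c440 c4340 c4479 c4440 c4322 c441 (k8 c2388 c4280 c1169 c4364 c1105 c4476 c230 c2834 (k8 c2349 c2143 c1145 c84 c234 c1186 c919 c11648 (k8 c7314 c12368 c13350 c7328 c11627 c11624 c13155 c868 (k8 c13103 c11210 c6907 c4332 c4458 c943 c2026 c4408 (k2 c11556 c1758 (k1 c13448 k0))))))) (by decide +kernel)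
def c13451 : PP 8 4 T 0x1000000000000000080000011000000000000000000004282000001440000000000000 := rS 0x63adcfe6e238fd9249 (k8 c4281 c1726 c8954 c4374 c841 c1458 c1078 c251 (k1 c12155 k0)) (by decide +kernel)
def c13452 : PP 8 4 T 0x1400001000001000080000000100000000001100001501486000201440000000000008 := rS 0xc75b9fcdc715f515770c2e98d2ab55c91e32bd1c8fd9249 (k8 c4281 c1726 c8954 c4280 c1169 c4364 c4374 c7328 (k8 c7513 c11624 c842 c13451 c4477 c4825 c13089 c4493 (k4 c1513 c4480 c1459 c1078 (k2 c251 c12155 k0)))) (by decide +kernel)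
def c13453 : PP 8 4 T 0x1000001000001000080000000000000000001100001501404000200000001040000200 := rS 0x9e168f0763f2a0de26320382c4e491191d6239010ac401d53a84b459 (k8 c1105 c4476 c11524 c11219 c1057 c4466 c2143 c230 (k8 c4280 c1145 c4374 c4372 c4281 c4278 c84 c30 (k8 c440 c4340 c13449 c13450 c8954 c1601 c13452 c2148 (k2 c13087 c11776 k0)))) (by decide +kernel)
def c13454 : PP 8 4 T 0x10000000004000044014000000554000000028004400004000200 := rS 0x15a8b2826c2d17 (k4 c4356 c1064 c1848 c1184 (k2 c525 c13185 (k1 c8057 k0))) (by decide +kernel)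
def c13455 : PP 8 4 T 0x1000000000000000040000040004000000454000000108004000241000200 := rS 0x450595b094dc6082898244458d149c5c86593486cdaab890c45e02 (k8 c230 c8877 c11577 c4469 c4445 c959 c2396 c13396 (k8 c1105 c236 c4356 c1121 c2427 c400 c4332 c4478 (k8 c4314 c13454 c4472 c4448 c13357 c13185 c4465 c2120 (k1 c525 k0)))) (by decide +kernel)
def c13456 : PP 8 4 T 0x1001000000011000044001550014000001554000400145404450040800000 := rS 0x51a5ab1a28b164458716 (k8 c4471 c4362 c7223 c13237 c7270 c456 c2120 c4458 (k2 c1864 c4475 k0)) (by decide +kernel)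
def c13457 : PP 8 4 T 0x1001000000000000044001110004000001100081000164004040040100208 := rS 0x441863a4494d36c10b314ec2f4b9acce63149947a0b (k8 c84 c234 c12368 c2834 c11648 c919 c6117 c2933 (k8 c8877 c1063 c3060 c1064 c1853 c1848 c3935 c7314 (k4 c13456 c3057 c11556 c7223 k0))) (by decide +kernel)
def c13458 : PP 8 4 T 0x1001000000000000000000000000000000000005000100004000041000200 := rS 0x1784a29a3041644582c54db0cef1820a54ea3f3298cce87598f4162b0aa74d21b36a5cd6434cabc525a2caae243117808401d (k8 c1057 c4466 c230 c8877 c11577 c4469 c4445 c1105 (k8 c4476 c2834 c5815 c6171 c236 c6117 c2933 c959 (k8 c2396 c13396 c967 c2349 c2143 c84 c234 c1186 (k8 c7313 c919 c11648 c12368 c13455 c11627 c11624 c13457 (k8 c4472 c9124 c9009 c4448 c4370 c4450 c7223 c4468 (k4 c4478 c456 c9062 c4322 (k2 c525 c4465 k0))))))) (by decide +kernel)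
def c13459 : PP 8 4 T 0x1000000000001000001000000000080004011000000000001100000000002000021000000000000200 := rS 0x1badd8e713fa0913093c9d81647588e60a3f1d81d9249 (k8 c4281 c1726 c30 c1601 c8954 c4406 c4280 c1145 (k8 c4374 c84 c1063 c1847 c4438 c2042 c4484 c676 (k4 c588 c251 c5279 c233 (k1 c12155 k0)))) (by decide +kernel)
def c13460 : PP 8 4 T 0x1001001000000000000000000000100000000000004000001004000001000200 := rS 0x372e1c57a8284a18f2508c105a22c60b0cc7164aae56a4715a752ebf1aaed32af14d149ca752935522313aae2431178fca63b2a114d6432d1b4046942835021b25894401d2f964c2910282d62398ab483e07 (k8 c30 c13446 c13322 c13427 c4280 c1145 c84 c263 (k8 c12700 c13428 c1105 c12467 c1057 c4466 c313 c4375 (k8 c2396 c6395 c4371 c6224 c13396 c230 c959 c4476 (k8 c236 c6117 c13453 c13458 c1601 c9029 c8954 c8877 (k8 c11577 c4469 c4445 c4278 c4372 c6029 c4282 c5936 (k8 c11219 c2111 c4396 c2834 c5815 c6171 c6870 c4373 (k8 c6330 c2933 c967 c2143 c4374 c7513 c7514 c11624 (k8 c4471 c842 c4362 c4420 c13237 c456 c13459 c4472 (k8 c6159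 c4447 c1604 c4440 c4484 c13440 c588 c13439 (k2 c233 c13451 k0)))))))))) (by decide +kernel)
def c13461 : PP 8 4 T 0x1001001000000000000000000000100000000000004000000004000001000200 := rS 0x13ea316c5c783b2a01c8e2b508a48a6b21968da0234a141a810d92c4a200e97cb21f30a440a0b588e62ad2 (k8 c13322 c13427 c4280 c1145 c84 c263 c12700 c13428 (k8 c13446 c1105 c12467 c1057 c4466 c313 c4375 c2396 (k8 c6395 c4371 c6224 c13396 c230 c959 c4476 c236 (k8 c6117 c13453 c2834 c11524 c2143 c4374 c30 c13458 (k4 c1601 c13460 c4416 c2148 (k2 c9384 c11776 (k1 c11536 k0))))))) (by decide +kernel)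
def c13462 : PP 8 4 T 0x5000000001000000080400004100014020000050400055480800150040000000000000 := rS 0x1786e279718ec951ae4724d5f8d5764b (k8 c4375 c6870 c4373 c6330 c4282 c4280 c8183 c859 (k4 c11399 c7557 c2118 c420 (k2 c841 c2114 (k1 c1079 k0)))) (by decide +kernel)
def c13463 : PP 8 4 T 0x400001001001000000000000000000400100000001100005000148000000040000200 := rS 0x2e1bc1c362932d5c8955a7d5a735ba5058938ba84c2b11c97e2a9102a5cd6bb259e58318209dd667f0699cfa476918c52020a8803a651e82cb459 (k8 c1105 c4476 c84 c234 c12368 c1057 c4466 c2349 (k8 c230 c2834 c11648 c13322 c4374 c7516 c919 c4371 (k8 c7517 c1186 c7751 c1063 c4472 c4450 c4447 c4375 (k8 c6870 c6117 c2933 c263 c12700 c13427 c12467 c4280 (k8 c1145 c13428 c11524 c4356 c1121 c400 c401 c1161 (k8 c1082 c13185 c1699 c1700 c7172 c12794 c8140 c983 (k4 c13462 c232 c1344 c13243 (k1 c841 k0)))))))) (by decide +kernel)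
def c13464 : PP 8 4 T 0x1001001000000000000000000000100000001100005000140008000040000200 := rS 0x28d2d5c5316b4620ab09414eac31f994c667598f4162b0a8a5368b43c20d60210074b4598c104ef13 (k8 c4340 c7751 c1063 c4472 c1105 c4476 c1057 c4466 (k8 c230 c6117 c4479 c4440 c4322 c863 c2834 c2349 (k8 c2143 c84 c234 c1186 c919 c11648 c12368 c13463 (k8 c9009 c11627 c9062 c4464 c13092 c4478 c1758 c4332 (k4 c416 c13166 c4428 c1592 (k1 c4475 k0)))))) (by decide +kernel)
def c13465 : PP 8 4 T 0x1400001001001000080000000000010001000000001505506000141040111200000200 := rS 0x1b99e7ea1b19464911ac4722b60c60a6c3209dd723f1aa7d4b0c (k8 c4477 c4385 c4384 c4373 c8954 c7514 c7751 c1063 (k8 c9009 c9029 c4472 c4450 c2143 c4280 c1145 c4372 (k8 c4281 c9384 c8916 c4563 c251 c1520 c13244 c1459 k0))) (by decide +kernel)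
def c13466 : PP 8 4 T 0x1001001000000000000000000000100000000000004000001040000001000200 := rS 0x8f5e9b904a94cab058a5861753aa7508a57e798299456b523ae46ad01d81d825328a1e10c58c30c82778998d2a3f2a0c88a6b42835024b1297cc2910282d62398ab48da023486c401d21968b21f (k8 c13446 c1105 c4476 c236 c1057 c4466 c2396 c13396 (k8 c230 c959 c13322 c13427 c4280 c1145 c84 c263 (k8 c12700 c13428 c12467 c313 c4375 c6395 c4371 c6224 (k8 c6117 c13453 c13461 c13464 c8954 c11624 c842 c4340 (k8 c7751 c1063 c9009 c4472 c4370 c4479 c4440 c1604 (k8 c9029 c4450 c30 c1601 c2115 c4373 c7514 c4374 (k8 c7513 c2143 c1646 c4406 c4447 c6330 c2834 c11524 (k8 c11219 c967 c13451 c4477 c4385 c13465 c457 c2050 (k4 c11272 c2119 c9304 c13440 (k2 c1345 c7959 k0)))))))))) (by decide +kernel)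
def c13467 : PP 8 4 T 0x1001001000000000000000000000100000000000004000001000000001000200 := rS 0x19867518b68aa54faa218833e974e06f070d95663682556ac32380462a1459e58ac18c104ef051f94c760764924ca2b289508a8506a0496252f985220505ac473156921e1113191ac865a2c9b404690d8803e1d (k8 c1057 c13446 c4466 c2396 c13396 c230 c959 c1105 (k8 c4476 c236 c6117 c13461 c4340 c4479 c4440 c13322 (k8 c13427 c4280 c1145 c84 c263 c12700 c13428 c12467 (k8 c313 c4375 c6395 c4371 c6224 c13453 c13464 c1604 (k8 c2143 c1646 c4281 c1726 c30 c1601 c9029 c8954 (k8 c4406 c7751 c1063 c4472 c4450 c4370 c4447 c4322 (k8 c11524 c11577 c9668 c4374 c9009 c7513 c11624 c2115 (k8 c842 c1670 c13466 c232 c1344 c233 c841 c8975 (k8 c588 c4477 c12981 c4384 c4385 c13089 c13246 c9384 (k2 c918 c8581 (k1 c1483 k0))))))))))) (by decide +kernel)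
def c13468 : PP 8 4 T 0x1001001000000000000000000000100000000000004000000000000001000200 := rS 0x13ea3638b47829508ac4a022f96840590f985221d0282c9247588e5a515 (k8 c13427 c13322 c4280 c1145 c4374 c4281 c84 c263 (k8 c1057 c12700 c13428 c13446 c1105 c4466 c4476 c12467 (k8 c230 c313 c2143 c11524 c2834 c13467 c2148 c2149 (k2 c9384 c11776 (k1 c8916 k0))))) (by decide +kernel)
def c13469 : PP 8 4 T 0x4802000000001000080000804400014414500800001144010800240000100080000000 := rS 0x1055c220fe755aa8d2ecb62304564d11a44728b (k8 c4322 c4280 c1153 c4372 c4282 c2230 c1982 c419 (k8 c2022 c1194 c11410 c1518 c1784 c677 c13357 c2125 (k2 c4314 c5280 k0))) (by decide +kernel)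
def c13470 : PP 8 4 T 0x10802000001001000000000000000000404000004401544010400008000140080400200 := rS 0xd00a220ca978ba1d5eab (k8 c4445 c4346 c4440 c4356 c1194 c7044 c13357 c13175 (k2 c4742 c2423 k0)) (by decide +kernel)
def c13471 : PP 8 4 T 0x800001001001000000000000000000000100000000404101000208000000085000200 := rS 0x19ec1a5b21a07f28b1d12130a8a98a534faf976828623c867b36c6532b300874c2b12f9654ebd1e8b4ce0f128de2e935ba049685069dd366945a1e10170227552a555a852a568aa4472d2 (k8 c13322 c4280 c1153 c13427 c13468 c802 c4551 c4445 (k8 c4444 c4345 c4344 c1066 c532 c4465 c4440 c4322 (k8 c13396 c804 c1090 c4371 c6224 c4375 c6395 c1161 (k8 c3067 c4356 c2187 c12180 c264 c13277 c2356 c2188 (k8 c1169 c4500 c63 c12467 c1145 c13428 c56 c750 (k8 c3200 c3070 c4364 c9753 c1225 c236 c800 c4477 (k8 c2119 c10310 c2126 c4384 c13469 c1249 c13470 c2220 (k8 c1639 c13072 c290 c1644 c7517 c2109 c11768 c4426 (k2 c1710 c1792 (k1 c4572 k0)))))))))) (by decide +kernel)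
def c13472 : PP 8 4 T 0x1802000000000000080000000000400000000040000144008800208044001080000000 := rS 0xc65c93a0a2f442b4ea97620ac4e4d2c9b5671749adc729b45aa462a5 (k8 c4444 c4441 c4345 c4322 c804 c4280 c1161 c3067 (k8 c4356 c3200 c9753 c63 c4282 c4278 c2230 c419 (k8 c1194 c1784 c13185 c13357 c2032 c4314 c4839 c5280 (k2 c420 c7557 k0)))) (by decide +kernel)
def c13473 : PP 8 4 T 0x800001001001000000000000000000000100000000404001000208000000085000200 := rS 0x5fb3d768f60d2d90b8681458e890985454c5299fcb895088d4f65936c6532332082c021d53af47a2d3383c4a378aa462e935b8e5a4774d9a516878405c08564eaa54aab (k8 c4445 c4444 c4345 c4344 c13468 c1066 c532 c4465 (k8 c4440 c4322 c13396 c804 c1090 c13322 c4280 c1161 (k8 c3067 c4356 c1153 c13427 c2187 c12180 c264 c13277 (k8 c2356 c2188 c1169 c4500 c56 c750 c84 c174 (k8 c12976 c3070 c4364 c9753 c63 c1225 c4373 c4276 (k8 c802 c13471 c1458 c13472 c1249 c13470 c2220 c1639 (k8 c13072 c290 c1644 c2109 c12166 c11768 c4426 c1710 (k4 c1476 c1478 c1792 c4572 (k1 c2126 k0)))))))))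 (by decide +kernel)
def c13474 : PP 8 4 T 0x800001001001000000000000000000000100000000400001000208000000085000200 := rS 0x7d3fb199c4e17948a34b62305867268c412aad0a25c2705312ad4a3157aa53a111393406591081d32332082d663b53af41e251bc5522398ba4d0a0d6926cd2878405c0856 (k8 c13468 c1066 c532 c4465 c4440 c13396 c804 c13322 (k8 c4371 c6224 c3067 c4356 c4280 c1153 c13427 c2187 (k8 c12180 c264 c1169 c4500 c3062 c3200 c84 c174 (k8 c12976 c3070 c30 c799 c63 c12975 c4282 c4278 (k8 c4276 c4344 c4345 c4346 c4441 c4444 c4445 c13473 (k8 c4407 c1559 c817 c12253 c820 c11994 c4487 c2423 (k8 c385 c1210 c1620 c7223 c4429 c1594 c1249 c7984 (k4 c4839 c421 c420 c1521 (k2 c1351 c7317 k0))))))))) (by decide +kernel)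
def c13475 : PP 8 4 T 0x20000000001000080000804400000010540800000000000800240400100080000000 := rS 0x4441198b83f9d56a9765b11822b2688d2239 (k8 c4280 c1153 c4372 c4282 c2230 c1982 c419 c2022 (k8 c1194 c1518 c1784 c677 c13189 c1255 c5280 c2064 (k1 c4314 k0))) (by decide +kernel)
def c13476 : PP 8 4 T 0x20000000001000010000005000000011504040000100009400000002040480400200 := rS 0x1cc28b84b8ec5a04 (k8 c1066 c2356 c3062 c1194 c13189 c13284 c1086 c385 k0) (by decide +kernel)
def c13477 : PP 8 4 T 0x20000001001000090000804000000010500800000000009040200002400085400200 := rS 0x1442615152d4fecf4494c464359a44723b008745a0434a2d0f08 (k8 c4465 c4440 c4322 c13396 c1066 c2356 c56 c750 (k8 c3062 c4280 c1153 c3200 c236 c4372 c13475 c4742 (k8 c7875 c676 c1517 c13476 c2220 c1639 c1645 c2109 k0))) (by decide +kernel)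
def c13478 : PP 8 4 T 0x1000000000000000000020000000000000009000000000000000000404 := rS 0x2462 (k2 c802 c11994 (k1 c1559 k0)) (by decide +kernel)
def c13479 : PP 8 4 T 0x1001001000000000000000000000100000000400001000208000000085000200 := rS 0x10c47af97745413449e3017a72261758c657a1d078946f15488112a032c8840e5605adc72d2 (k8 c13322 c4280 c1161 c84 c13468 c30 c799 c63 (k8 c12975 c13478 c1066 c1153 c13427 c2187 c12180 c264 (k8 c56 c1169 c4364 c1145 c532 c13474 c13249 c784 (k8 c1233 c298 c2241 c6153 c4452 c1977 c4493 c971 (k2 c4486 c13477 k0))))) (by decide +kernel)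
def c13480 : PP 8 4 T 0x1001001000000000000000000000100000000000001000208000000085000200 := rS 0x2188f5f2ee8a826893c2e3017a72266a58c657a1d078946f15488112a032c8840e5605adc72d2 (k8 c13322 c4280 c1161 c84 c13468 c30 c799 c63 (k8 c12975 c13478 c1066 c1153 c13427 c2187 c12180 c264 (k8 c56 c1169 c4364 c1145 c13479 c4442 c13249 c784 (k8 c1233 c533 c298 c2241 c6153 c4452 c1977 c4493 (k2 c971 c4486 (k1 c13477 k0)))))) (by decide +kernel)
def c13481 : PP 8 4 T 0x4000000000001000084414000045511514000000800000000000000000140080000000 := rS 0x663015aa34fa5c4647 (k8 c4374 c4372 c1194 c11776 c11410 c13185 c2127 c2128 (k1 c3807 k0)) (by decide +kernel)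
def c13482 : PP 8 4 T 0x1000000000001000084014440001101400100000800000009000208000000080000200 := rS 0x558e2a5cb2d1d44088d54ebd1683c4a37022852a032c8840e0b48c5d26b71cabd57128c96cda99 (k8 c3070 c9753 c92 c4364 c4703 c4445 c13327 c4280 (k8 c1161 c3067 c4356 c1153 c84 c30 c799 c63 (k8 c12975 c13478 c4551 c1066 c2187 c12180 c264 c2356 (k8 c1169 c4500 c4373 c4276 c4493 c2126 c4455 c1476 (k4 c13481 c7557 c2220 c12166 k0))))) (by decide +kernel)
def c13483 : PP 8 4 T 0x1001001000010000400001101400100000800000009440208000000080000200 := rS 0x15638a972cb3820174cf618446aa75e8b41e251b811429501964420705c55231749adc72d262abd57128c96cda99 (k8 c3070 c9753 c92 c4364 c4703 c4445 c13327 c1249 (k8 c13322 c4280 c1161 c3067 c4356 c1153 c13427 c84 (k8 c30 c799 c63 c12975 c13478 c4551 c1066 c2187 (k8 c12180 c264 c2356 c1169 c4500 c4373 c4276 c1210 (k8 c7875 c13482 c1890 c1891 c1981 c3448 c13481 c7557 (k2 c2220 c12166 k0)))))) (by decide +kernel)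
def c13484 : PP 8 4 T 0x1000000000001000000208500101101501100000000000040000001500000000000000 := rS 0x8f5d9b96aa7 (k4 c4500 c1705 c7550 c2061 (k2 c1346 c2126 k0)) (by decide +kernel)
def c13485 : PP 8 4 T 0x1001001000000000000000000000100000000000001000208000000081000200 := rS 0x1fd92c70a84d84d05f93d0aa952a7536833b0c4a7090b86896110688d625b368857a9919904163b008747a0f128de2a911cb480856 (k8 c13468 c1066 c13322 c4280 c1153 c13427 c2187 c12180 (k8 c264 c2188 c56 c750 c3062 c84 c174 c12976 (k8 c3070 c1169 c799 c9753 c92 c1145 c4372 c4371 (k8 c4276 c4375 c13480 c170 c4316 c2383 c295 c425 (k8 c638 c6867 c1233 c5936 c6029 c13368 c6655 c1094 (k8 c13483 c459 c1759 c2423 c460 c13484 c7517 c11768 k0)))))) (by decide +kernel)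
def c13486 : PP 8 4 T 0x1000000000001000080000014000000051500000000000000000005440100000000000 := rS 0xa98c2312ad48f0c (k8 c4486 c4374 c7513 c12180 c4372 c12155 c13189 c290 k0) (by decide +kernel)
def c13487 : PP 8 4 T 0x1000000000000000000000000000080000001000000400000000100000 := rS 0x2705 (k2 c4408 c1560 (k1 c4464 k0)) (by decide +kernel)
def c13488 : PP 8 4 T 0x1000000001000000080000000000000000800000000000008000200040000005404000 := rS 0x4f41afce1195e8e53669 (k8 c13396 c804 c4280 c1169 c4364 c801 c1516 c589 (k2 c13433 c6153 k0)) (by decide +kernel)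
def c13489 : PP 8 4 T 0x1001001000000000000000001000100000000000001000200000000085000200 := rS 0x379c56cbe5da3c2e6b54a96243111ac5323320a9d7a2d078946f15488e52a032c8840e0b4bae47a04398547e3b4092d0a0d6926cd256 (k8 c13468 c13396 c804 c13322 c4371 c6224 c4375 c6395 (k8 c3062 c13485 c384 c13487 c1066 c2188 c7328 c1193 (k8 c84 c30 c799 c63 c12975 c13478 c4280 c1153 (k8 c13427 c2187 c12180 c264 c2356 c1169 c4500 c174 (k8 c12976 c3070 c1145 c4372 c297 c13249 c5936 c6029 (k8 c4442 c532 c13488 c10310 c2126 c13486 c1513 c1077 (k1 c4480 k0))))))) (by decide +kernel)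
def c13490 : PP 8 4 T 0x1001001000000000000000000000100000000000001000200000000085000200 := rS 0x379c56c824793c2e3017a7162bd0e8b41e251bc5522396925406591081c16975c8f408730a8fc7656 (k8 c13468 c3062 c13485 c384 c13487 c1066 c2188 c7328 (k8 c1193 c84 c30 c799 c63 c12975 c13478 c13322 (k8 c4280 c1153 c13427 c2187 c12180 c264 c2356 c56 (k8 c1169 c1145 c13489 c784 c1233 c533 c298 c13488 (k4 c6153 c13486 c589 c1077 (k1 c4480 k0)))))) (by decide +kernel)
def c13491 : PP 8 4 T 0x1001001000000000000000000000100000000000001000200000000081000200 := rS 0xd00994452cba5aad58c589274f27618869267360c58eab94bb0ca6151f82c4e4d58c54b66d8caf472d24cacc763d1b8b40856 (k8 c13468 c1066 c2356 c2187 c2188 c3062 c3200 c3070 (k8 c13322 c4280 c1169 c4364 c9753 c92 c13427 c1145 (k8 c4282 c4278 c84 c13485 c384 c418 c1209 c1193 (k8 c7328 c11627 c4471 c4420 c13487 c1069 c13490 c295 (k8 c425 c598 c1233 c4703 c1095 c9798 c4445 c4458 (k4 c7111 c781 c1865 c531 (k2 c4475 c13448 k0))))))) (by decide +kernel)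
def c13492 : PP 8 4 T 0x1001001000000000000000000000100000000000000000200000000081000200 := rS 0x276262e350589e835fa14e01b379dd6c514aad572c36398854c9298fca80f128dc7a3b022443a490691d63152190632bd1cb493256 (k8 c13468 c3070 c13322 c4280 c1169 c4364 c174 c236 (k8 c13427 c1145 c4374 c4371 c4281 c56 c1153 c1066 (k8 c3062 c2188 c2187 c12180 c264 c13491 c8954 c9029 (k8 c1726 c266 c267 c2194 c1209 c7328 c7513 c1694 (k8 c3549 c12155 c9799 c1078 c425 c4480 c6224 c1513 (k8 c589 c13433 c6153 c532 c533 c4442 c784 c13249 k0)))))) (by decide +kernel)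
def c13493 : PP 8 4 T 0x10000000001001000000004000000002000044000000140000000048005800064000002 := rS 0x55 (k2 c8954 c13270 k0) (by decide +kernel)
def c13494 : PP 8 4 T 0x1000000000001000080040004000000015500000000000000000205040100000000000 := rS 0x510ad2e3a11ae56a47 (k8 c4374 c7513 c7328 c4372 c12155 c3238 c1640 c7468 (k1 c11410 k0)) (by decide +kernel)
def c13495 : PP 8 4 T 0x1002001001001000080040000100000015510100001544000000205005100004000002 := rS 0xcaab68ab4e4c467d0d6c6e669c46f45412ee18a73092632bd1caa4be0d2e88d1687 (k8 c4440 c4322 c4372 c752 c4371 c488 c6029 c4280 (k8 c1169 c4364 c4281 c13428 c4500 c4486 c10310 c12981 (k8 c13089 c443 c589 c2064 c4480 c13494 c4424 c1797 (k4 c7634 c1077 c6601 c5846 (k2 c1674 c1648 (k1 c8137 k0)))))) (by decide +kernel)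
def c13496 : PP 8 4 T 0x2001001001000000040000400000004500100000500009000204001900000000210 := rS 0x3984d963ba5c11a0ab328dc570d481d57289318f492b18a9b632bd1c8cc825d11b492a1b45a1c2a672d80006591082c0e53 (k8 c418 c30 c84 c799 c63 c12975 c4461 c92 (k8 c7399 c646 c4440 c4322 c5876 c2710 c13322 c4372 (k8 c752 c174 c12976 c4280 c1169 c4364 c9753 c13427 (k8 c1145 c4281 c234 c755 c7314 c7328 c11627 c13495 (k8 c4328 c12724 c12721 c491 c1845 c13394 c13161 c4426 (k4 c1763 c1750 c1758 c4408 (k1 c13448 k0))))))) (by decide +kernel)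
def c13497 : PP 8 4 T 0x1002001000001000080040000001004015500100000500502000204000140000000210 := rS 0x1b8c4b9388a07a828618416272491d62bd1ca5d4623 (k8 c4372 c11410 c11783 c4280 c1169 c1145 c4374 c4281 (k8 c4278 c84 c13428 c4486 c12981 c11800 c4200 c589 (k4 c7328 c1598 c4480 c13067 k0))) (by decide +kernel)
def c13498 : PP 8 4 T 0x1000000000001000000040014000000000000000000000000000405550000000000000 := rS 0xb5 (k2 c7513 c8302 k0) (by decide +kernel)
def c13499 : PP 8 4 T 0x1001001000000000000000000000100000000000000000200000000001000200 := rS 0x448a478b7371806eb986a412ead15aad3e65648ee0a541fa1d168133c218e1b4a974be6916c4d526b618b926b34780138310e0143e338c904963924834463523b4a2a432d9b40659109581607 (k8 c30 c84 c13468 c799 c63 c12975 c9753 c92 (k8 c236 c13427 c13322 c4374 c4373 c4372 c4371 c4281 (k8 c4280 c4375 c174 c4364 c12976 c13492 c262 c4466 (k8 c296 c6169 c4461 c12664 c3197 c3050 c1220 c3221 (k8 c9032 c6029 c4344 c2923 c7322 c488 c752 c2710 (k8 c5876 c7340 c4479 c7399 c6395 c4322 c4440 c13493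 (k8 c13496 c4406 c1601 c1726 c1647 c6233 c13092 c4191 (k8 c6230 c11783 c13497 c4328 c1205 c12721 c4477 c881 (k4 c1078 c13498 c7860 c9049 (k1 c13266 k0)))))))))) (by decide +kernel)
def c13500 : PP 8 4 T 0x1802000001001000010011014000001100000000000100008400008010000080014200 := rS 0x12c2b31854e6890baacd6af36a6d666749a54aa032c8840e0b63c5c6e04 (k8 c1066 c2187 c4356 c7557 c84 c30 c799 c63 (k8 c12975 c8954 c13478 c3067 c13277 c3200 c804 c9753 (k8 c4346 c4442 c4445 c532 c4742 c7478 c385 c7153 (k2 c12166 c13357 (k1 c1194 k0))))) (by decide +kernel)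
def c13501 : PP 8 4 T 0x4000000000000000000015000040001514000000000000000000000000840080000000 := rS 0x2b55697 (k4 c1194 c1845 c13185 c2127 k0) (by decide +kernel)
def c13502 : PP 8 4 T 0x1000000000001000000040014000000000000000000000008000008010080000014200 := rS 0x562e55 (k4 c8954 c4356 c2220 c12166 k0) (by decide +kernel)
def c13503 : PP 8 4 T 0x1001001000000000100000000100101000000100008000148001000080000200 := rS 0x14696ad6125c56af1744ca70863a0d72704713822bf1aa6d3ac51da9cc2b12fb063041078946f15488122e9368adc72952a80cb2210382d4a4b548cc46d2 (k8 c13322 c4372 c432 c6029 c4375 c5936 c84 c30 (k8 c799 c63 c12975 c8954 c13478 c4280 c1161 c458 (k8 c3067 c4356 c1066 c1153 c13427 c2187 c12180 c264 (k8 c3063 c4472 c4450 c12467 c1145 c13428 c4532 c3062 (k8 c4530 c1232 c804 c4373 c6330 c4276 c6022 c7959 (k8 c801 c1476 c589 c7557 c6655 c420 c13500 c4469 (k8 c789 c13502 c1194 c13501 c13185 c4459 c1866 c7984 k0))))))) (by decide +kernel)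
def c13504 : PP 8 4 T 0x1000000000220000000000000000020000001000000000000000001200 := rS 0x54fc73 (k4 c3086 c1473 c385 c7517 k0) (by decide +kernel)
def c13505 : PP 8 4 T 0x1802000001001000090011010000001000000400000000008000008000000085004200 := rS 0x2785ca46b088d4d2993b9058f175b8e46e04 (k8 c1066 c2187 c4280 c1161 c4356 c7557 c3063 c9124 (k8 c1071 c13396 c4373 c4276 c4442 c13500 c532 c420 (k1 c6153 k0))) (by decide +kernel)
def c13506 : PP 8 4 T 0x1001001000000000000000000000100000000000000000008001000081000200 := rS 0xa34b612bc5d1356a5c56c75cc20e0835e0446ab14283536694e8cd8a3b60c6086993b904360f128de2a910245d26d122adc72d24a95406591081cac0b (k8 c84 c13468 c30 c799 c63 c12975 c8954 c13478 (k8 c13322 c4280 c1161 c13499 c458 c3067 c4356 c1066 (k8 c1153 c13427 c2187 c12180 c264 c424 c3063 c9124 (k8 c1071 c236 c4472 c4450 c3062 c4530 c432 c1232 (k8 c13396 c804 c4371 c6224 c1145 c4373 c4276 c13503 (k8 c13440 c6133 c4507 c13504 c7557 c13502 c1194 c13185 (k4 c13505 c4469 c789 c13501 (k2 c4459 c1866 (k1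 c7984 k0))))))))) (by decide +kernel)
def c13507 : PP 8 4 T 0x1000001001000000080000000100000000000000000000000000150042001005004001 := rS 0x104bc2785c724d5f8d5764b (k8 c4375 c6870 c4373 c6330 c4282 c4280 c1911 c298 (k2 c2114 c6153 (k1 c13440 k0))) (by decide +kernel)
def c13508 : PP 8 4 T 0x28000000000001000000014000400000000044004540000001000000000000000100020 := rS 0x1382a20f2c1 (k4 c4450 c4447 c9460 c9062 (k2 c2491 c4464 k0)) (by decide +kernel)
def c13509 : PP 8 4 T 0x1000000000000000000000000080000000000000000000000000005000020 := rS 0x2f09 (k2 c4322 c2494 (k1 c4465 k0)) (by decide +kernel)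
def c13510 : PP 8 4 T 0x28000000000001000000014000400000000040004500000001000000400000001100020 := rS 0xe687 (k2 c7313 c13487 (k1 c13508 k0)) (by decide +kernel)
def c13511 : PP 8 4 T 0x1001001000000000000000000000100000000000000000000000000081000200 := rS 0x2aca2ad4998854293294e0a5445a562c7561a5c2a3f1883d32c1129de30c5338dc7a0119a74823b02245661d588e5a515219ec06591082c0e9b3486c8a56 (k8 c13468 c13499 c424 c13396 c804 c30 c84 c799 (k8 c63 c12975 c1225 c236 c13427 c13322 c4280 c1145 (k8 c56 c3200 c1153 c1066 c3062 c3063 c1232 c432 (k8 c750 c2188 c2187 c13277 c4530 c4472 c9124 c12180 (k8 c4450 c1071 c264 c13507 c13506 c384 c1193 c9009 (k8 c11627 c4471 c803 c13509 c13510 c4406 c9029 c1647 (k8 c1599 c266 c267 c1070 c6230 c3549 c9757 c7662 k0))))))) (by decide +kernel)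
def c13512 : PP 8 4 T 0x1001001000000000000000000001100000000000000000010001000001000200 := rS 0x28aa78618562398a9b5024b3486d1e1c2f834ba23690cd3b1821914d6000287c0659109581607 (k8 c30 c84 c13468 c799 c63 c12975 c13511 c262 (k8 c4461 c493 c13499 c236 c4472 c4368 c2957 c13322 (k8 c4372 c752 c4371 c488 c4466 c12664 c424 c13396 (k8 c4375 c6395 c9753 c13427 c4280 c1145 c13428 c4486 (k2 c13293 c13089 (k1 c13442 k0)))))) (by decide +kernel)
def c13513 : PP 8 4 T 0x1001000010000000044000000004000001554001400000000140004100000 := rS 0x8b (k2 c7874 c13166 k0) (by decide +kernel)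
def c13514 : PP 8 4 T 0x1001001000000000000000000000100000000000000000018001000001000200 := rS 0xc65cb2ca44e5e9b8c03786a41566b26c54dabf1a90cd25f0697446d28badc50d131a1caa15338b4b665158000a032c81d5e960e07c4256059dc3645 (k8 c13499 c424 c9124 c84 c13468 c799 c13511 c4466 (k8 c1179 c4631 c30 c63 c12975 c262 c4461 c288 (k8 c491 c92 c2917 c7399 c646 c8954 c7313 c755 (k8 c458 c1180 c3172 c4356 c13322 c4372 c752 c4371 (k8 c488 c13396 c236 c4373 c6330 c9753 c13427 c4282 (k8 c493 c1573 c13512 c4328 c12721 c4477 c881 c1079 (k4 c6022 c13513 c2022 c8183 (k2 c420 c7557 k0)))))))) (by decide +kernel)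
def c13515 : PP 8 4 T 0x1000001000001000000004440100040001500010000050100014158112000020001002 := rS 0xdd7a4f5ad0c4ac886284c25f0ac5caab7 (k8 c3172 c8954 c4356 c646 c488 c13428 c12260 c4486 (k8 c11917 c4381 c4422 c1705 c298 c8143 c403 c2114 k0)) (by decide +kernel)
def c13516 : PP 8 4 T 0x1001001000000000000000000000100000000000000000018000000001000200 := rS 0x5e1b89e601baa61a9061ab54f1318274ef1826ac473150dafc6abb2292c86994797c1a5d19a58387d2a91c2a672d995462b11b485a000287c06591082c0e56 (k8 c13468 c30 c84 c799 c63 c12975 c13511 c262 (k8 c4461 c2917 c13322 c4372 c288 c11410 c491 c92 (k8 c7399 c646 c4374 c8954 c7516 c4466 c1179 c2957 (k8 c752 c4371 c488 c12664 c3051 c236 c4375 c13499 (k8 c6870 c4373 c6330 c424 c13427 c4280 c1145 c4282 (k8 c4472 c9124 c4368 c13514 c4441 c2006 c2047 c8801 (k8 c13515 c4328 c978 c12721 c4477 c4646 c881 c2114 (k1 c1079 k0)))))))) (by decide +kernel)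
def c13517 : PP 8 4 T 0x1001001000000000000000000000100000000000000000008000000001000200 := rS 0x2b5568b3594062163b1011304889950e63688a12c2b2a9a436454c8706615338b4b6000287c0659109581607 (k8 c30 c84 c13468 c799 c63 c12975 c13511 c262 (k8 c4461 c92 c2917 c7399 c646 c2957 c4466 c3051 (k8 c13499 c424 c13396 c8954 c288 c1179 c1180 c458 (k8 c755 c7313 c491 c4336 c4478 c4314 c13516 c1063 (k8 c1064 c1912 c1184 c1920 c525 c1573 c1865 c8057 k0))))) (by decide +kernel)
def c13518 : PP 8 4 T 0x29800001000000000000004010400000514005000500150000080150000100004000000 := rS 0x10445ab156c5 (k4 c4370 c4445 c7641 c8296 (k2 c6230 c9062 k0)) (by decide +kernel)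
def c13519 : PP 8 4 T 0x1000001001001000000000010400000514005004501550001080155405100004100000 := rS 0x2b4a5054422e102e89c58e6c33cb158318 (k8 c4472 c4450 c4370 c4447 c9009 c13487 c4471 c13518 (k8 c4469 c4479 c4322 c2123 c9062 c7314 c6230 c2032 k0)) (by decide +kernel)
def c13520 : PP 8 4 T 0x1001001000000000000000000000100000000000001000010001000001000200 := rS 0x573398cab881491705689c8744e5e9b8ca97300dc570d60b153a90619de3115219ecda854d9a436454cacd261c2f834ba2319a54c6870a99c5a5b5c8d5a4751e8fcd6000287c0659109581607 (k8 c30 c84 c13468 c799 c63 c12975 c13511 c262 (k8 c4461 c493 c13517 c234 c11627 c13322 c4373 c7514 (k8 c92 c2917 c7399 c646 c7313 c755 c2710 c2957 (k8 c4372 c752 c4371 c488 c4466 c3050 c3197 c3051 (k8 c13499 c424 c13396 c804 c6224 c9753 c1225 c236 (k8 c13427 c4472 c9124 c9009 c13512 c4368 c4370 c4450 (k8 c4328 c12724 c12721 c4477 c11783 c491 c881 c1079 (k8 c6022 c13519 c1061 c1763 c4408 c1771 c13394 c4478 (k4 c13092 c420 c421 c7223 (k1 c4089 k0)))))))))) (by decide +kernel)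
def c13521 : PP 8 4 T 0x1001001000000000000000000000100000000000001000000001000001000200 := rS 0xdd6ecd3751504a7861859691680a8a34b88ab12ec38b0ece68955abca712609e42c9d629d880a9529ac92b11cc54da8125a1536690d915328f59a4c385f0697446334a854ce2d2d8000a1f01964425603ae46ad23a8f47e0b (k8 c84 c13517 c234 c11627 c13322 c4373 c7514 c30 (k8 c13468 c799 c63 c12975 c13511 c262 c4461 c92 (k8 c2917 c7399 c646 c2710 c2957 c4372 c752 c4371 (k8 c488 c4466 c3050 c3197 c12664 c3051 c13499 c424 (k8 c13396 c804 c6224 c4375 c6395 c9753 c13427 c4280 (k8 c1145 c4281 c493 c5936 c6029 c13520 c1063 c3060 (k8 c3058 c1064 c1847 c1853 c11833 c3935 c4346 c4445 (k8 c7314 c7478 c1061 c4471 c4362 c4360 c7641 c7223 (k8 c4458 c1865 c13369 c4475 c12724 c1750 c13428 c4486 (k8 c13293 c2119 c13089 c2003 c3977 c7551 c1344 c13486 k0)))))))))) (by decide +kernel)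
def c13522 : PP 8 4 T 0x100000000001000080100000000010000000000000041001000000000140000000002 := rS 0xa0ca5f2e88cc67f069f48e15 (k8 c646 c4374 c7516 c4371 c7517 c755 c4372 c752 (k4 c488 c491 c4468 c7581 k0)) (by decide +kernel)
def c13523 : PP 8 4 T 0x101000000000000100001500014045500040104040008000000000000000000000 := rS 0x16ea3 (k2 c5380 c5279 (k1 c7050 k0)) (by decide +kernel)
def c13524 : PP 8 4 T 0x80000001000000000000002000000000012 := rS 0xd709 (k2 c4322 c2442 (k1 c7393 k0)) (by decide +kernel)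
def c13525 : PP 8 4 T 0x15000400000004044005500020000000000000000000000002 := rS 0xe689 (k2 c2439 c1648 (k1 c2123 k0)) (by decide +kernel)
def c13526 : PP 8 4 T 0x1600000000000000000015011010005555500000000000000000000000000020000000 := rS 0x2d99ca1 (k4 c12260 c11393 c11040 c1796 k0) (by decide +kernel)
def c13527 : PP 8 4 T 0x1001001000000000000000000000100000000000001000000000000001000200 := rS 0x13c6ea986a417a97882b53e2b32c1516c162a74f2c38c1dc82a7898c0eab95a9f50e631e8e49a478a9ecdabf1aaec96434d9a436454ca3d66930e17446d219a542a671696c00050f80cb2212b02c0e3f (k8 c13517 c30 c84 c13468 c799 c63 c12975 c13511 (k8 c262 c4461 c92 c2917 c7399 c646 c2710 c2957 (k8 c13322 c4372 c752 c4466 c3050 c3197 c12664 c3051 (k8 c13499 c424 c13396 c804 c236 c4375 c6870 c4373 (k8 c6330 c9753 c1225 c13427 c4374 c4282 c4280 c234 (k8 c755 c7313 c7516 c7513 c7514 c11627 c13521 c4441 (k8 c2006 c1912 c11833 c4472 c9009 c4447 c4368 c4370 (k8 c4450 c13524 c9062 c13525 c4191 c6237 c6230 c4478 (k8 c11783 c7666 c13526 c4328 c978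 c12721 c4646 c2114 k0))))))))) (by decide +kernel)
def c13528 : PP 8 4 T 0x1001001000000000000000000001100000000000000000010000000001000200 := rS 0xb218a0c3688f4610c8aa3c383f298ed3e5f06a8c56653396e0a5411b485a000287c06591082c0e5660c608645 (k8 c13499 c236 c4472 c4450 c13468 c30 c84 c799 (k8 c63 c12975 c13511 c262 c4461 c2917 c13322 c4372 (k8 c13527 c4406 c92 c7399 c1647 c4191 c11410 c4371 (k8 c488 c6233 c1601 c9029 c13517 c4466 c12664 c13427 (k8 c4486 c13512 c11800 c300 c9009 c6159 c1604 c1605 (k1 c3818 k0)))))) (by decide +kernel)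
def c13529 : PP 8 4 T 0x1001001000000000000000000000100000000000000000010000000001000200 := rS 0x156af4398cd710448a4e71718a94784e63add7a7f371806ea95cc3520c14e9de30391a91e2a4336acc385f0697446334a8ed92496922d5a690d9152e2b3299cb7052a0fc5a000287c06591082c0e56 (k8 c13468 c30 c84 c799 c63 c12975 c13511 c262 (k8 c4461 c2917 c13517 c13527 c4406 c92 c7399 c1647 (k8 c4191 c11783 c13499 c424 c13396 c6230 c1767 c13322 (k8 c4281 c1726 c1601 c2710 c2957 c4372 c752 c4371 (k8 c488 c4466 c3197 c9753 c236 c13427 c4374 c4373 (k8 c4280 c4472 c9124 c4368 c4450 c13528 c4328 c1205 (k8 c978 c12721 c4477 c881 c672 c1079 c1078 c251 (k8 c6022 c13498 c1400 c299 c4416 c1615 c7860 c9049 (k4 c11368 c621 c7153 c7043 (k2 c5815 c4415 (k1 c2120 k0))))))))))) (by decide +kernel)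
def c13530 : PP 8 4 T 0x1001001000000000000000000000100000000000000000000000000001000200 := rS 0x2207887a5c5d84ab60c48d7090b274ec404bab456c5328ee0a541f99d2a2d49acd32000e0143e9b3486c8a03109b4b6592b01c1643 (k8 c236 c84 c30 c13468 c63 c92 c9753 c799 (k8 c12975 c13499 c424 c13396 c804 c13511 c262 c4466 (k8 c4461 c3051 c3197 c3050 c2917 c2710 c7399 c13517 (k8 c13527 c4406 c1601 c1647 c4530 c4191 c6230 c11783 (k8 c13529 c1063 c3058 c1064 c4438 c1920 c11833 c3748 (k8 c13092 c4553 c7641 c4459 c1907 c4471 c7179 c9049 k0)))))) (by decide +kernel)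
def c13531 : PP 8 4 T 0x4000000004000200000000008000200 := rS 0x1b4009d019d80a1d (k8 c1057 c263 c425 c13352 c1091 c4461 c13339 c686 k0) (by decide +kernel)
def c13532 : PP 8 4 T 0x1002000080000000000000000000000000000000000000000000005000000 := rS 0x1784a18d251 (k4 c4405 c13396 c6832 c4440 (k2 c1836 c4465 k0)) (by decide +kernel)
def c13533 : PP 8 4 T 0x800000000000000000015000014001044008001000000008000000000000000000000 := rS 0x75 (k2 c1692 c7130 k0) (by decide +kernel)
def c13534 : PP 8 4 T 0x20000000002000080000000000000040000000200000008000000000040000000000 := rS 0x4a28a225b (k4 c92 c4962 c5243 c11025 (k1 c2782 k0)) (by decide +kernel)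
def c13535 : PP 8 4 T 0x1000000000002000080020000040000001104000800050400000000001041101000004 := rS 0x9f51c1542724a89c9223238b452c7 (k8 c4289 c4402 c4286 c4374 c4372 c4281 c4278 c1786 (k4 c1095 c4551 c4408 c6868 (k2 c6233 c2110 k0))) (by decide +kernel)
def c13536 : PP 8 4 T 0x1000100000002000080000000000000001104000000050408000000001041101000004 := rS 0x8e504353ea3248b452c7 (k8 c4289 c4402 c4286 c4281 c6868 c6233 c5243 c8916 (k2 c4486 c2779 k0)) (by decide +kernel)
def c13537 : PP 8 4 T 0x1000001000002000080004000144001541104000800050408000000041040101004004 := rS 0xde715b1d622b54ab20c67d39c118a111c9241a350a96c4ac1 (k8 c1892 c12180 c92 c4284 c4373 c4371 c4281 c4280 (k8 c4276 c13535 c13536 c4408 c4409 c4407 c9269 c802 (k4 c1705 c7223 c11025 c10839 (k2 c586 c1077 (k1 c4480 k0))))) (by decide +kernel)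
def c13538 : PP 8 4 T 0x1000001000002000080000000000050001100040000021009000000000041000004000 := rS 0x702e2393d0d248b452c7 (k8 c4289 c4402 c4286 c4281 c5243 c8916 c4486 c6371 (k2 c801 c3396 k0)) (by decide +kernel)
def c13539 : PP 8 4 T 0x1000001000002000080004000144001541104000800041019000000041040101004004 := rS 0xde715b320e67d5ac114475509fd2b113204472490688c6a151f96c4a5f (k8 c12467 c12180 c92 c4288 c4284 c4373 c4372 c4371 (k8 c4281 c4280 c4276 c13537 c4412 c1697 c554 c1737 (k8 c11025 c13538 c6868 c5129 c1354 c4408 c9269 c10839 (k2 c586 c1077 (k1 c4480 k0))))) (by decide +kernel)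
def c13540 : PP 8 4 T 0x1000001000002000000000010100000040000000000050009005601140080000015000 := rS 0xdcb638ad5907d39c5a0893288547ec73ac44b695 (k8 c1694 c92 c4411 c11025 c4289 c4288 c4284 c4405 (k8 c1070 c4904 c4487 c4408 c4409 c9269 c4419 c586 (k2 c4034 c4480 (k1 c1077 k0)))) (by decide +kernel)
def c13541 : PP 8 4 T 0x100000000000000000002400000000000000100020000000000000000000000000 := rS 0xe717 (k2 c4419 c3586 (k1 c4481 k0)) (by decide +kernel)
def c13542 : PP 8 4 T 0x101000000000000040010501501401100040900020009105605140080000114004 := rS 0xe2ba47b217e7d5b2d57a99 (k8 c3070 c1169 c13541 c4034 c1627 c3095 c5279 c12152 (k2 c2126 c586 (k1 c1891 k0))) (by decide +kernel)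
def c13543 : PP 8 4 T 0x1000001000002000000000000501101441100000800000009005601140080000015004 := rS 0xdcb638ad5907d39c10fe645c9d52b11288547ec72d99c021d2f9654ebd (k8 c1169 c4500 c3120 c12467 c3089 c750 c5084 c92 (k8 c4289 c4288 c4284 c4405 c4411 c1694 c11025 c6781 (k8 c13540 c554 c13542 c4408 c4409 c9269 c1705 c586 (k2 c4034 c4480 (k1 c1077 k0))))) (by decide +kernel)
def c13544 : PP 8 4 T 0x1000001000002000080000000045100000100001800000009000200041000101000200 := rS 0x1f592b9381711d0d5b9cce9176024d5a6562a18563d25844920d23ac4f6b361a6c06074b8fd3b122dc64da993099c025f2c83c4a911c8103c1d (k8 c3089 c4466 c1066 c4280 c1153 c12180 c264 c3120 (k8 c12467 c750 c5084 c5402 c3070 c9753 c4364 c92 (k8 c4703 c1233 c4288 c1193 c30 c12975 c805 c1209 (k8 c10182 c1225 c1145 c4374 c4371 c4281 c4276 c4375 (k8 c234 c13543 c13539 c1635 c1652 c1905 c1070 c13533 (k8 c4420 c1893 c1621 c3675 c13534 c4486 c4477 c801 (k4 c3447 c587 c1420 c10189 k0))))))) (by decide +kernel)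
def c13545 : PP 8 4 T 0x1001000000000000000000000000100000000000000000000000000001000200 := rS 0x95310a87a5457aad52a5020cc3cc34c87482312b0dc4279221d82e1a148fca253721ec860b2588da515 (k8 c13427 c13322 c4372 c4375 c84 c236 c1225 c13530 (k8 c4290 c4405 c4288 c4402 c13532 c170 c425 c424 (k8 c598 c2396 c2397 c13531 c2232 c1064 c3089 c3070 (k8 c1209 c4466 c12976 c1066 c5936 c6029 c5962 c5815 (k4 c13544 c2398 c266 c267 (k2 c1694 c9799 k0)))))) (by decide +kernel)
def c13546 : PP 8 4 T 0x1000001001000000080000000100400000100000000000004000200001001082000000 := rS 0x71789c581796c02a9529b53a4b1186cf433 (k8 c2175 c257 c171 c4372 c4375 c1233 c5814 c5936 (k8 c6029 c13336 c704 c1871 c4476 c6996 c13430 c258 (k1 c1375 k0))) (by decide +kernel)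
def c13547 : PP 8 4 T 0x1000001001000000080000000100000001100000000000004000210000000012000010 := rS 0x1018c04a1e539e46e215ec648639 (k8 c4280 c175 c4364 c1169 c2178 c2179 c1958 c4500 (k4 c4466 c12180 c13546 c2139 (k2 c9670 c4461 k0))) (by decide +kernel)
def c13548 : PP 8 4 T 0x1000001000000000080000000101100400100000000000000000000005001102000051 := rS 0x14e4f4703ce05e379605e02 (k8 c4461 c1871 c12975 c1107 c13430 c4480 c1375 c537 (k2 c258 c852 (k1 c6996 k0))) (by decide +kernel)
def c13549 : PP 8 4 T 0x1000001000000000000000400100000000000400000000000080000040000002000000 := rS 0xe00e40d143709 (k4 c4436 c171 c4396 c1360 (k2 c258 c7086 (k1 c1415 k0))) (by decide +kernel)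
def c13550 : PP 8 4 T 0x1000001001000000080000000100000000100000000001004000100041001082000050 := rS 0xb8d24f2d29cbe590026e30bf54a9486331092c1a231a905064d (k8 c4282 c1998 c1873 c4373 c4372 c4371 c4375 c86 (k8 c2175 c276 c5936 c6029 c6330 c4472 c4448 c13548 (k8 c486 c488 c13293 c4476 c13549 c844 c6996 c1870 k0))) (by decide +kernel)
def c13551 : PP 8 4 T 0x1000001001000000000000000100000000000400000000000080100050000002000200 := rS 0x17c43 (k2 c2152 c13549 (k1 c6330 k0)) (by decide +kernel)
def c13552 : PP 8 4 T 0x1000000080000000000400000000000000000000040000005401000000000 := rS 0x54a949623 (k4 c4372 c4375 c5936 c6029 (k1 c6996 k0)) (by decide +kernel)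
def c13553 : PP 8 4 T 0x1000001000001000000000200000000000000000024001580000408100000240001200 := rS 0x144b96498cfa7f3399528551d8f416b10aa845202 (k8 c230 c2834 c11524 c2349 c1145 c84 c145 c144 (k8 c8954 c401 c12368 c919 c7517 c7516 c11648 c7550 (k2 c13504 c5857 (k1 c859 k0)))) (by decide +kernel)
def c13554 : PP 8 4 T 0x1000001000000011000000000000000400020001581000504008000242001200 := rS 0x292bc76a282445922c619d4ca633e9fcce3d05c2482071585542290110d3f0c (k8 c4477 c4384 c2151 c230 c2834 c11524 c2349 c2143 (k8 c30 c1873 c4436 c84 c234 c919 c7517 c7516 (k8 c11648 c12368 c11627 c9009 c13235 c586 c4332 c8784 (k4 c5857 c11556 c5449 c4503 (k1 c417 k0))))) (by decide +kernel)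
def c13555 : PP 8 4 T 0x1001001000000000000000000000100000000000000000000041000000000200 := rS 0x3f2299ab661ae47ac728b247653829507e0f37a7d82c586174e0815e460d8431913d42a7178acbe5a101643e25139241a231a91c2e8326984f6454882c3a052b9040e188aac472d2 (k8 c13322 c4280 c1145 c13427 c13545 c30 c1873 c7626 (k8 c263 c1057 c84 c12700 c13547 c1224 c13428 c4282 (k8 c1998 c35 c4374 c4373 c4372 c4371 c4281 c4278 (k8 c12180 c13550 c1105 c4466 c4476 c12467 c2143 c837 (k8 c11219 c11524 c13551 c13552 c2151 c255 c4472 c6022 (k8 c1899 c6133 c963 c4477 c4370 c4450 c4384 c1080 (k8 c1415 c13553 c13554 c4406 c9029 c1601 c1726 c1605 (k8 c250 c13087 c7514 c9009 c13498 c2068 c12827 c5279 (k1 c725 k0))))))))) (by decide +kernel)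
def c13556 : PP 8 4 T 0x1100000000080000080000210 := rS 0x10d000900607 (k4 c30 c2130 c272 c4461 (k2 c4381 c11924 k0)) (by decide +kernel)
def c13557 : PP 8 4 T 0x1000100001001000000100000110010000000004004011584500555400000002008008 := rS 0x7e33b1cc68a681f52ac35ab158318 (k8 c4472 c4450 c4370 c7513 c9009 c11624 c8975 c2115 (k4 c12827 c842 c2186 c721 (k2 c8784 c1455 k0))) (by decide +kernel)
def c13558 : PP 8 4 T 0x1001001000000000000000000000100000000000000000000080000000000200 := rS 0x510b4785132b2476531fc155a543626c866989aec649f8628456250117cb4202c87cba70378389627249348e1b0b984f6454882c3a052b9040e188aac472d2 (k8 c13322 c4280 c1145 c13427 c13545 c30 c1873 c7626 (k8 c263 c1057 c84 c12700 c13547 c1224 c13428 c35 (k8 c171 c4374 c4282 c4281 c4278 c4375 c232 c1344 (k8 c233 c1418 c13556 c1105 c4466 c4476 c12467 c230 (k8 c313 c2143 c11524 c4477 c4384 c13241 c4959 c4340 (k8 c2842 c2151 c863 c255 c13243 c2949 c4406 c8954 (k8 c9029 c1601 c1726 c1646 c1605 c13557 c2148 c11800 (k1 c9384 k0)))))))) (by decide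 +kernel)
def c13559 : PP 8 4 T 0x1000001000001000000000000000000000000000004001504000408100000480001206 := rS 0x2885a7d3f99c2a651598d2eb364954760b588f5430c (k8 c4477 c4329 c13138 c1145 c84 c144 c8954 c7550 (k8 c1186 c13165 c755 c289 c491 c12287 c11319 c7517 (k4 c7516 c910 c5857 c11410 k0))) (by decide +kernel)
def c13560 : PP 8 4 T 0x1000001000001000000111000400000000000010002011501000555050000482101002 := rS 0x52150ed5b045119cfe6350c305ac3 (k8 c9009 c392 c4477 c4329 c755 c7517 c11319 c5857 (k4 c8784 c944 c4178 c11410 (k2 c4503 c293 k0))) (by decide +kernel)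
def c13561 : PP 8 4 T 0x1001001000000000000000000000100000000000400000000000000000000200 := rS 0xaca23b2995192653eb0ceab50aacc7e0001968d8590688c8e17309ee26691ea758ac18c1bd094540c24ba705e10cf21e108c09e371a915220b0e81482078aa0c9ab11c95c30d2 (k8 c13322 c13545 c7626 c4280 c1145 c4282 c1998 c13427 (k8 c30 c1873 c263 c1057 c84 c12700 c13547 c4373 (k8 c13558 c13551 c13555 c2144 c4466 c8961 c237 c6022 (k8 c6133 c1418 c4436 c1899 c4454 c4484 c1080 c4472 (k8 c4450 c4370 c1232 c13138 c1879 c4441 c1224 c13428 (k8 c35 c4374 c4372 c4371 c13430 c10110 c4476 c12975 (k8 c5066 c13559 c1185 c384 c7513 c11627 c9009 c8975 (k8 c578 c586 c13560 c9029 c1601 c1605 c13037 c12813 k0)))))))) (by decide +kernel)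
def c13562 : PP 8 4 T 0x1001001000000000000000000000100000000000000000000000000000000200 := rS 0x294fa8cc62d3fa256f17438acaa3e2952da21566a8572511d809508e369a8b10d2f21102a5a2b058abc8c10d3a3d3c878d22189a9c604f128dc4e490688c6a4784a0c9a454882c3a052b9040e188aac472d2 (k8 c13322 c4280 c1145 c13427 c13545 c30 c1873 c7626 (k8 c263 c1057 c84 c12700 c13547 c4282 c1998 c4436 (k8 c4374 c4373 c4372 c4371 c4281 c4278 c13558 c12180 (k8 c13551 c13555 c2007 c4441 c2144 c1879 c4466 c8961 (k8 c13138 c1232 c237 c4472 c6022 c4370 c4450 c4454 (k8 c1939 c1899 c4484 c13561 c4382 c12467 c7137 c699 (k8 c4486 c11940 c1106 c3112 c3828 c3450 c7768 c3458 (k8 c2346 c2141 c7558 c4475 c7719 c9029 c2138 c1903 (k8 c4356 c1161 c2039 c7517 c11755 c7770 c1465 c11776 (k2 c794 c7249 k0)))))))))) (by decide +kernel)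
def c13563 : PP 8 4 T 0x1000001001000000080000000100000001100000000000004000100041000082000050 := rS 0x4a61 (k2 c13428 c12180 (k1 c13550 k0)) (by decide +kernel)
def c13564 : PP 8 4 T 0x1001000000000000000000000000100000000000000000000001000080000200 := rS 0x5c380d8c2454882c3a052b9040e188aac472d2 (k8 c13322 c4280 c1145 c13427 c13545 c30 c1873 c7626 (k8 c263 c1057 c84 c12700 c13547 c13428 c13563 c233 (k2 c13556 c1418 k0))) (by decide +kernel)
def c13565 : PP 8 4 T 0x1002000080000000000000000000000000000000000100009400002000200 := rS 0x3c3ab0d16c14310e261b209eca63b288fd6607 (k8 c30 c10182 c4288 c4405 c4403 c4290 c1224 c1873 (k8 c171 c4340 c2151 c9101 c6869 c186 c1907 c1692 (k2 c12827 c235 k0))) (by decide +kernel)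
def c13566 : PP 8 4 T 0x1001000000000000000000000000100000000000000000000001000000000200 := rS 0x2ec3624a3528cd4e2f15894be5a101643e4b139249a2330915220b0e814ae41038622ab11cb48a62d288a58ee4 (k8 c13562 c4289 c4402 c4405 c4286 c4290 c13322 c4280 (k8 c1145 c13427 c13545 c30 c1873 c7626 c263 c1057 (k8 c84 c12700 c13547 c13428 c4372 c4282 c4281 c4278 (k8 c4375 c13564 c1105 c4466 c4476 c12467 c313 c2143 (k8 c837 c11219 c13565 c5936 c13232 c4469 c5243 c7642 (k1 c4477 k0)))))) (by decide +kernel)
def c13567 : PP 8 4 T 0x1001000000000000000000000000100000000000000000000000000000000200 := rS 0x30086c3458f4f2860f1a44230598fca23b29b90f645488740a57208622ab11cb480e0b (k8 c84 c30 c13322 c4280 c1145 c13427 c13545 c1873 (k8 c7626 c263 c1057 c12700 c13547 c1224 c13562 c4290 (k8 c4403 c4405 c4288 c10182 c13566 c2144 c1879 c4466 (k8 c6832 c8961 c13138 c186 c1907 c237 c12827 c6869 k0)))) (by decide +kernel)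
def c13568 : PP 8 4 T 0x1001000000000000000001000000000000000014000208000000081000200 := rS 0x98199b400030382cf60510acd2e55 (k8 c8954 c13165 c1186 c86 c263 c1225 c84 c30 (k4 c12975 c4461 c13339 c950 (k2 c13337 c1130 k0))) (by decide +kernel)
def c13569 : PP 8 4 T 0x2000000001000000080000000000001000100000000000004000208000000081000200 := rS 0xcd0e990aaf804012d960aa0705a0cdefc38c64ee8506b94367b (k8 c1225 c13531 c13532 c4371 c6224 c1090 c4364 c4387 (k8 c13567 c4378 c4306 c84 c30 c8954 c13568 c93 (k8 c486 c1106 c8902 c2346 c1133 c7313 c433 c13346 k0))) (by decide +kernel)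
def c13570 : PP 8 4 T 0x2000000000000000080000010000000000000000000000002000005040000000004040 := rS 0x18e3b1cadd6a47 (k4 c4374 c4389 c4353 c4348 (k2 c1601 c250 (k1 c12162 k0))) (by decide +kernel)
def c13571 : PP 8 4 T 0x2000000001000000080000000000000000100000000000004000200001000081000200 := rS 0x16cb2671d0ac24723f9560a755c8b42ab31fa747a210382d62c9378dc1efc5b9c56a4906b94367b (k8 c1225 c13531 c13532 c4371 c4281 c4389 c4387 c4353 (k8 c13567 c4376 c232 c4378 c4305 c4304 c84 c30 (k8 c86 c13138 c1233 c13569 c1185 c384 c392 c7328 (k8 c11627 c9531 c13570 c7517 c12410 c7126 c12124 c13487 (k4 c511 c3112 c12770 c4476 k0))))) (by decide +kernel)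
def c13572 : PP 8 4 T 0x2000000001000000080000000000000000100000000000004000200001000001000200 := rS 0x14553c4d52a53697cd6324d004b499101643e694286cba8141985f87b0ea3c4e0d (k8 c4371 c4278 c4388 c1057 c1225 c13567 c4302 c4306 (k8 c4380 c4377 c13531 c6224 c13396 c13571 c1105 c4466 (k8 c1129 c4476 c9668 c441 c440 c581 c577 c7462 (k4 c1971 c866 c4340 c902 (k2 c9368 c8517 k0))))) (by decide +kernel)
def c13573 : PP 8 4 T 0x1000000080000000000000000100000010000004000100001000081000202 := rS 0x784c9de30a620ac50283309bc867b48bf10a0d349b4661b (k8 c424 c432 c5889 c13396 c4371 c6224 c13567 c4550 (k8 c1225 c236 c4378 c4302 c4306 c4380 c4304 c13441 (k4 c5947 c4472 c9124 c2011 (k2 c5989 c4447 k0)))) (by decide +kernel)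
def c13574 : PP 8 4 T 0x2000000001000000080000000000000000100000000000004000000001000081000200 := rS 0x1dcb65801004420705ac502833d814e2bf1a9bdf8434286c8a0d (k8 c4371 c13572 c424 c6224 c236 c13567 c4378 c1059 (k8 c6330 c4387 c263 c1225 c4306 c4380 c4304 c84 (k8 c30 c86 c13573 c4461 c12975 c838 c8951 c8882 k0))) (by decide +kernel)
def c13575 : PP 8 4 T 0x1000000100000000000000500010000001180000008000004240101408 := rS 0xa34fa84c6673f995282c2a8f4be29 (k8 c2834 c577 c145 c8954 c400 c401 c12368 c7517 (k4 c919 c11648 c894 c1699 (k2 c858 c2118 k0))) (by decide +kernel)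
def c13576 : PP 8 4 T 0x2000002000000000000000400000001000101004001500004000100008000000000000 := rS 0xf0983ba6e2681419bd7671 (k8 c4387 c4390 c4378 c4306 c4380 c4340 c863 c7751 (k2 c10618 c7040 (k1 c1928 k0))) (by decide +kernel)
def c13577 : PP 8 4 T 0x2000000001000000080000000000000000100000000000004000000001000001000200 := rS 0x682195a2d28a24ce3c319d156c732a2c765382abe2454198fcd697148bcda9d0a8ac04012d080b21f729a50abf0d9148e0d2489c0e0b2eb24c27d1b83c6a6f7e10cf61d478e56eb5 (k8 c4389 c4353 c4348 c4388 c1057 c1225 c236 c13567 (k8 c4378 c1059 c4376 c232 c4379 c4302 c4305 c4377 (k8 c84 c30 c4278 c4281 c4371 c4374 c13572 c424 (k8 c6330 c6224 c13396 c13532 c13574 c1105 c4466 c4476 (k8 c9668 c230 c2143 c2349 c967 c7462 c8877 c2834 (k8 c2933 c6117 c13575 c13576 c13458 c4469 c5815 c4406 (k8 c9029 c1601 c1767 c1646 c250 c4445 c4559 c1689 (k8 c1686 c593 c6057 c3618 c2148 c6230 c6907 c2112 (k1 c1631 k0))))))))) (by decide +kernel)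
def c13578 : PP 8 4 T 0x2800002001000000040005000000000000001000000580480512005400004080000002 := rS 0x2386a994a5d08a05060f3e8954261 (k8 c4302 c896 c283 c4379 c4376 c4306 c4380 c4300 (k4 c4377 c4444 c4130 c12886 (k2 c773 c4467 k0))) (by decide +kernel)
def c13579 : PP 8 4 T 0x2000002001000000040005000000001100101004401580084512005400000080000002 := rS 0xa75488934a586c4cba81419bd1e272f8954261 (k8 c4302 c896 c283 c577 c353 c4388 c4378 c4306 (k8 c4380 c4377 c13578 c12933 c12939 c10618 c4467 c866 (k2 c773 c2119 k0))) (by decide +kernel)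
def c13580 : PP 8 4 T 0x10000000000000000000000000000000000002004410000000000000000000000000000 := rS 0xf309 (k2 c4321 c602 (k1 c4482 k0)) (by decide +kernel)
def c13581 : PP 8 4 T 0x2000000001001000040000000000001000100000000400014000200000000081000200 := rS 0x14490876391d82548b1987665828a8eab96194c2ab31f82d62c9309f46e0f1a9bdf8b75a9347269429dc3719388f4b499199b400031081c0a7b (k8 c1225 c263 c30 c86 c12975 c4461 c13339 c950 (k8 c1130 c4476 c13138 c4387 c4364 c13531 c1090 c13580 (k8 c13396 c4348 c378 c4389 c4353 c13567 c4378 c1059 (k8 c4376 c232 c4379 c4302 c4305 c4304 c84 c13568 (k8 c1185 c384 c418 c1209 c7328 c11627 c12806 c9531 (k8 c578 c12123 c4191 c4471 c11319 c4420 c1602 c250 (k4 c10171 c4559 c1604 c13579 k0))))))) (by decide +kernel)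
def c13582 : PP 8 4 T 0x2000002000000000040000010400000040000000000054080002001010080000000010 := rS 0x491d0ff0458845926f1c9c62295 (k8 c1694 c4411 c4387 c4348 c4378 c4305 c4300 c4304 (k4 c4191 c6629 c10795 c7058 (k1 c1656 k0))) (by decide +kernel)
def c13583 : PP 8 4 T 0x2000000001000000000000000000000000100000000000014000200001000081000200 := rS 0x49c5d80758299890b94ac44c697618a8cab3148fc2a511d84c8e5372264d63336800065a0382c6e0f1a9bdf8050eadd6ad3268e4d2853b86e32713d8847a9d (k8 c1233 c13138 c86 c1225 c4387 c4364 c13531 c1090 (k8 c13580 c13396 c4348 c378 c13577 c4389 c4353 c1057 (k8 c263 c13567 c4378 c1059 c4376 c232 c84 c30 (k8 c4476 c12975 c4461 c13339 c950 c493 c1130 c13581 (k8 c4290 c4404 c4401 c4403 c4405 c4284 c4288 c4402 (k8 c10182 c490 c12893 c1209 c1193 c754 c4411 c1694 (k8 c6781 c7430 c13582 c4310 c593 c13579 c4420 c12892 (k1 c4487 k0)))))))) (by decide +kernel)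
def c13584 : PP 8 4 T 0x2000000001000000000000000000000000100000000000004000200001000081000200 := rS 0x226332fa9c9699528344a2317af8045b2c2744e0b2ea0c1e3537bf00a7169c64ee4d1c9a4367b (k8 c1225 c13531 c13396 c4348 c378 c1090 c4364 c13577 (k8 c4387 c263 c13567 c4378 c1059 c4376 c4306 c4377 (k8 c84 c353 c1233 c13583 c93 c1106 c8902 c8877 (k8 c792 c224 c12968 c1404 c1133 c1323 c4558 c10439 (k2 c433 c4502 (k1 c4469 k0)))))) (by decide +kernel)
def c13585 : PP 8 4 T 0x1000000000000000000000000000001100090000208000000240100408 := rS 0x5618cce651634526551e8a51708898c8d699 (k8 c1129 c581 c440 c4340 c4479 c4322 c2834 c145 (k8 c8954 c1121 c2427 c400 c12368 c919 c11648 c13126 (k1 c943 k0))) (by decide +kernel)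
def c13586 : PP 8 4 T 0x400100000001000000000000040000800000000001514081400005000000000100208 := rS 0x55ab51267 (k4 c919 c7314 c6230 c13155 (k1 c12794 k0)) (by decide +kernel)
def c13587 : PP 8 4 T 0x1000000000002000000000001000000100000100040000000410005100004080201040008040000200 := rS 0x4419d9e2da19219ac7238eca8af31c152a755c9940e355bad49a3915a68a62945a1e1113191ad32b31f854045a10074b20b (k8 c84 c1105 c1057 c4466 c4476 c230 c2349 c13585 (k8 c1185 c1129 c581 c440 c4340 c4479 c4440 c4322 (k8 c2834 c2388 c441 c2143 c4348 c378 c4389 c4353 (k8 c1059 c30 c12368 c7328 c11627 c11624 c9531 c842 (k8 c868 c13586 c1601 c1602 c2170 c1479 c2113 c4421 (k4 c369 c1791 c918 c13103 (k1 c6175 k0))))))) (by decide +kernel)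
def c13588 : PP 8 4 T 0x1000000000002000000001001000000100000100041000000410005100004080200040008040000200 := rS 0x2ad5ead3399512d06018c5a541e2cc7e0705808561535a64b459898c8401d (k8 c1057 c4466 c440 c4340 c1105 c4476 c1129 c581 (k8 c2349 c2143 c230 c84 c30 c13585 c1185 c13587 (k8 c234 c2148 c7047 c445 c444 c9049 c1646 c918 (k4 c942 c1715 c1670 c12794 k0)))) (by decide +kernel)
def c13589 : PP 8 4 T 0x2000000001000000000000000000000000100000000000004000200001000001000200 := rS 0x1987ee42728e8aa6132a54b0d3697cd69d19268462b12808025a4c880b21f429a4ee1b8c82cbab164a0506613e8dc1e3537bf0867b0ea3ce2d3 (k8 c13577 c4387 c4388 c1057 c1225 c236 c13567 c4378 (k8 c1059 c4376 c232 c4379 c4302 c4306 c4380 c4305 (k8 c4304 c4377 c84 c4364 c13531 c1090 c13396 c13580 (k8 c13584 c1105 c4466 c1129 c4476 c9668 c230 c313 (k8 c2143 c833 c441 c440 c967 c581 c577 c7462 (k8 c12936 c1971 c866 c4467 c2119 c4453 c2944 c903 (k4 c13588 c4288 c12959 c5084 k0))))))) (by decide +kernel)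
def c13590 : PP 8 4 T 0x2000000001000000000000000000000000100000000000014000000001000081000200 := rS 0x2386aa44a4e8903108793b85a30410017c065a03ac502831a9bdf8433d8157a71699a44227368cc3645 (k8 c13589 c424 c432 c5889 c353 c86 c13396 c13577 (k8 c4387 c4354 c263 c1225 c236 c13567 c4378 c1059 (k8 c4306 c4380 c4304 c30 c4476 c12975 c577 c4461 (k8 c13441 c4472 c13014 c9124 c4447 c6225 c6224 c5976 (k4 c523 c1367 c4345 c8237 (k2 c1489 c4467 k0)))))) (by decide +kernel)
def c13591 : PP 8 4 T 0x2000000001000000000000000000000000100000000000004000000001000081000200 := rS 0x4c9ae24a74dc25082517c60ee7901104b658368cc4e0b58a05060f3daf4e2d35f8d4defc219a43645 (k8 c13589 c424 c13396 c236 c13567 c4378 c1059 c6330 (k8 c13577 c4387 c4354 c1225 c4376 c4306 c4380 c4304 (k8 c84 c353 c432 c5889 c13590 c93 c3113 c1106 (k8 c9840 c1112 c4472 c8877 c224 c8882 c8862 c4448 (k4 c4558 c4469 c9077 c8246 (k1 c13260 k0)))))) (by decide +kernel)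
def c13592 : PP 8 4 T 0x2000002000000000000000400000001000100004001500404000100008000000000000 := rS 0x10913 (k2 c4340 c13576 (k1 c10110 k0)) (by decide +kernel)
def c13593 : PP 8 4 T 0x2000000001000000000000000000000000100000000000004000000001000001000200 := rS 0x5c824c8913c6626869ac5e6d2fa74462501004b4202c87cd2bf0d915a60b2eac50283078d4de433d87522fc (k8 c13567 c4550 c1057 c1225 c236 c4378 c1059 c4376 (k8 c4306 c4380 c4304 c4377 c84 c13577 c13589 c424 (k8 c6330 c13396 c13591 c1105 c4466 c4476 c9668 c230 (k8 c313 c833 c967 c577 c7462 c8877 c6117 c12936 (k8 c4467 c13592 c448 c4469 c13113 c1995 c1990 c13014 k0))))) (by decide +kernel)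
def c13594 : PP 8 4 T 0x2000000001000000000000000000000000100000000000004000000000000001000200 := rS 0x8c05d3a5a0f000b26d4d904421b018cc600b7e10c0a1d (k8 c1057 c263 c236 c13567 c84 c13593 c173 c228 (k8 c2232 c2144 c1913 c1966 c5889 c1106 c4461 c4466 (k4 c4476 c12783 c5847 c5755 (k1 c12954 k0)))) (by decide +kernel)
def c13595 : PP 8 4 T 0x1000002001000000080000000000000001100000001000000000200001000005000002 := rS 0xa742af41a3940a0cc269 (k8 c757 c4302 c4306 c4380 c4280 c4371 c1169 c6224 (k2 c4500 c5947 k0)) (by decide +kernel)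
def c13596 : PP 8 4 T 0x800000001000000040000000000000000101000000400404000010000004001000202 := rS 0x891ca686a94ba81308d4de433d8962a911b83df869 (k8 c757 c13567 c4376 c232 c4550 c13594 c12180 c1225 (k8 c236 c4378 c1059 c4302 c4380 c4377 c4444 c12851 (k4 c4130 c4486 c4467 c12866 k0))) (by decide +kernel)
def c13597 : PP 8 4 T 0x2000000000000000000000500800001000001500400000000200800000000000 := rS 0x2f89aa82ea050661 (k8 c4302 c4306 c4380 c4377 c2119 c1992 c867 c1241 k0) (by decide +kernel)
def c13598 : PP 8 4 T 0x1000000001000000040000000000800001100000000000000000050000005000000000 := rS 0x891d0d (k4 c4330 c4486 c4467 c12866 k0) (by decide +kernel)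
def c13599 : PP 8 4 T 0x1000000000000000000000000101000000000014000200001000081000200 := rS 0x14a9a1744cbe6935c6532332d0e06a6f53b4cda9d0d9ec8200018840e05138946e0f8aa45f843 (k8 c236 c13567 c4550 c13594 c4376 c232 c12180 c353 (k8 c263 c30 c86 c12975 c4461 c13441 c1225 c13531 (k8 c1233 c13339 c13595 c13598 c4378 c1059 c4470 c4476 (k8 c13131 c1130 c4364 c493 c757 c12467 c13596 c4469 (k2 c4488 c1843 (k1 c13597 k0)))))) (by decide +kernel)
def c13600 : PP 8 4 T 0x1000000000000000000000000100000000000014000200001000081000200 := rS 0x5444976a5062114ed33686e325d40a0cc2353790cf6251b83c4e9d2fc5522fc34904d600018840e05 (k8 c263 c30 c86 c12975 c4461 c493 c13441 c757 (k8 c13567 c4550 c13594 c12467 c1233 c353 c4376 c232 (k8 c12180 c1225 c236 c4378 c1059 c4302 c4306 c4380 (k8 c4377 c4364 c13531 c13339 c13595 c13598 c13599 c6224 (k4 c1402 c1442 c5976 c12826 (k1 c4345 k0)))))) (by decide +kernel)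
def c13601 : PP 8 4 T 0x1000000000000000000000000000800401100000000000000000000000000000000000 := rS 0x11f0d (k2 c4330 c852 (k1 c4486 k0)) (by decide +kernel)
def c13602 : PP 8 4 T 0x2001000000080000000000400000000000001000000000000001000005000002 := rS 0x1080d40a0cc269 (k4 c757 c4302 c4306 c4380 (k2 c4371 c5947 (k1 c6224 k0))) (by decide +kernel)
def c13603 : PP 8 4 T 0x1000000000000000000000000100000000000014000000001000081000200 := rS 0x2a54a851744c9e3869a9d366d8c06c8a3335904d2002f80cb4072ea0506611a9bc860512c55223707bf0429d (k8 c1233 c86 c13567 c4376 c232 c4550 c13594 c12180 (k8 c263 c236 c4378 c1059 c4302 c4306 c4380 c4377 (k8 c30 c4476 c12975 c12467 c4461 c757 c13441 c493 (k8 c13131 c13600 c424 c4472 c5889 c4448 c13601 c13602 (k8 c4470 c450 c12888 c4469 c10705 c1843 c787 c2119 k0))))) (by decide +kernel)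
def c13604 : PP 8 4 T 0x11000000001000000080000100000000001101000000100000000000005404404000200 := rS 0x23e1abe2f1ac9ca98917506251b83df8a7 (k8 c4500 c13567 c4376 c232 c12180 c4306 c4377 c4469 (k8 c6029 c13552 c4442 c8052 c13433 c8635 c3491 c4486 k0)) (by decide +kernel)
def c13605 : PP 8 4 T 0x1000000001001000000100410100000000005514004000020000609100000000915210 := rS 0x1d566551b96c02071d9e4040b (k8 c84 c1106 c9840 c3112 c30 c486 c93 c232 (k4 c8954 c1186 c12443 c13434 k0)) (by decide +kernel)
def c13606 : PP 8 4 T 0x8400000000001000000001000400001400044005400000001400000400100000100008 := rS 0xc449a24e62b (k4 c226 c13487 c7314 c9125 (k2 c9460 c7718 k0)) (by decide +kernel)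
def c13607 : PP 8 4 T 0x1000000001001000080000080000001000100004000000024000200008000080800200 := rS 0x50c56c714c14a89f60a862cb54a9d4ce2d598fd72a4472c422c940a0cfa35378144a911b83c7a5b0081c761511975f88b42a1e11193b86c3a790102c72490691e26534d8857e98 (k8 c433 c1133 c86 c862 c2386 c4340 c4374 c4371 (k8 c4281 c4280 c84 c1106 c9840 c1057 c13352 c8951 (k8 c4364 c4482 c4440 c4321 c9998 c13567 c4377 c792 (k8 c2346 c3112 c30 c486 c93 c13138 c4376 c232 (k8 c4550 c12180 c263 c4378 c1059 c4379 c4306 c4380 (k8 c4305 c4300 c4304 c1931 c11766 c3451 c13605 c1185 (k8 c392 c8324 c11627 c11624 c7513 c4471 c4551 c1933 (k8 c1427 c13606 c4406 c1599 c250 c13211 c4563 c8900 k0)))))))) (by decide +kernel)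
def c13608 : PP 8 4 T 0x1000000080000000000000000100000000000004000200001000081000200 := rS 0xa18ad8e29829513ec150c596a953a8b5663f5ca38ce5e382ec2c4f5fa6d3053898c97ae5238349239588459281419f46a6f028962a911b83c42271ea7402071d8bc2a232ebf0d28b42a1e11193d9dc361d3c808b00b (k8 c84 c13603 c1106 c9840 c1057 c13352 c8951 c1225 (k8 c4364 c4482 c4440 c4321 c9998 c13396 c13567 c4377 (k8 c792 c2346 c8877 c3112 c30 c486 c1233 c13138 (k8 c353 c86 c4376 c232 c4550 c13594 c12180 c263 (k8 c4378 c1059 c4379 c4306 c4380 c4305 c4300 c4304 (k8 c4280 c4281 c4371 c4374 c13532 c1169 c13604 c4340 (k8 c2386 c433 c862 c1133 c13433 c6153 c13607 c6745 (k8 c536 c2639 c537 c3450 c13605 c1185 c392 c11627 (k8 c11624 c7513 c4471 c4551 c1933 c1427 c13606 c4406 (k4 c1599 c250 c13211 c4563 (k1 c8900 k0))))))))))) (by decide +kernel)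
def c13609 : PP 8 4 T 0x2000001000040008000000004001000000000044400000208600044100100011 := rS 0x65638b5a0932e844fa55 (k8 c8954 c4379 c4300 c4377 c3137 c1210 c7177 c2430 (k2 c9676 c11098 k0)) (by decide +kernel)
def c13610 : PP 8 4 T 0x2000001000040000200000000200000005410100024400209200005100100200 := rS 0x5a9456b0cc704449d4ceb3159cd8a558b82c22912d8040e3b45a1d3f138608c048384465025f02974c2b9 (k8 c3217 c4302 c4377 c263 c10439 c4380 c4364 c4482 (k8 c4306 c1106 c792 c4467 c12516 c4384 c4440 c9998 (k8 c3112 c30 c486 c93 c4550 c4300 c84 c4356 (k8 c8954 c3185 c1082 c2136 c1186 c919 c12443 c7314 (k4 c4481 c4407 c13609 c2050 (k2 c7750 c13347 (k1 c11639 k0))))))) (by decide +kernel)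
def c13611 : PP 8 4 T 0x2000001000040000200000001400000005410100024000200208005080000200 := rS 0x2219f43629cc9093518ac52478295183164a9d4cec316b1d663f059f43a211e96c02071d85516874fa62270c1180907084097c0a5d30c649a53 (k8 c2386 c2340 c4364 c4302 c4377 c263 c10439 c4380 (k8 c4482 c4306 c1106 c792 c4467 c12516 c4488 c4384 (k8 c4440 c9998 c2346 c3112 c30 c486 c93 c13138 (k8 c86 c1057 c4379 c84 c13610 c1185 c410 c392 (k8 c1209 c8324 c11627 c11624 c4471 c1933 c13606 c4406 (k8 c1602 c1599 c13211 c12403 c9125 c4200 c1109 c7718 (k4 c4421 c1791 c7750 c9160 k0))))))) (by decide +kernel)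
def c13612 : PP 8 4 T 0x14020100000002000000004200400000000004000100000120090000000044400000000 := rS 0x52d8ad0679214662609c852c7 (k8 c4289 c4402 c4481 c1620 c1110 c818 c7771 c1791 (k4 c452 c1176 c4426 c4494 k0)) (by decide +kernel)
def c13613 : PP 8 4 T 0x20102000000000000040000000000000000000000040401001400000154400141000 := rS 0x3298e227e511741e9f (k8 c4384 c4376 c4377 c4200 c7126 c4337 c818 c554 (k1 c4478 k0)) (by decide +kernel)
def c13614 : PP 8 4 T 0x10420102001002000000004200400000400044004100040421084000008044480101000 := rS 0x110492ae96af62a25a0ca67d0c90c18b175066d26d148e1314b1d5a2d (k8 c4286 c942 c4289 c4402 c4401 c4404 c4454 c2340 (k8 c4993 c4306 c4377 c13612 c4420 c13613 c4421 c1791 (k8 c4599 c452 c9160 c1176 c8140 c4426 c1670 c7746 (k2 c4491 c4413 k0)))) (by decide +kernel)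
def c13615 : PP 8 4 T 0x11020002001002000000004210400000400000005500040421084001008044480101000 := rS 0x31582cf5ad0c908939c1022c9079f516875dc4d070840974c24d (k8 c2340 c4302 c4377 c4380 c4482 c4306 c12516 c4825 (k8 c4440 c9998 c4379 c4376 c4305 c4300 c13614 c4408 (k8 c4314 c9269 c4421 c1702 c1791 c12809 c1176 c2123 k0))) (by decide +kernel)
def c13616 : PP 8 4 T 0x11020002001002000000004210400000400000005400040421084001008004080001008 := rS 0x22e7415845920f3e854465d (k8 c4377 c792 c2346 c4379 c4376 c4305 c4300 c226 (k2 c13615 c4417 (k1 c10189 k0))) (by decide +kernel)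
def c13617 : PP 8 4 T 0x100000000000000000000000080000000000000050100000000000000000000000 := rS 0xc711 (k2 c4337 c818 (k1 c4478 k0)) (by decide +kernel)
def c13618 : PP 8 4 T 0x1000000000000000000000000100000000000004000200001000081000200 := rS 0x44124aba5abd8a89683299f432428d82658b0aceb052a30d5a6759b1c523f16b901a4e25ae68abc26a6c64bb89c30e25f1c34d0e858422e32b140a0cc235379ec0a258aa446e0f138f53a5b3690402073c82c5e7711975f8690d808b01d (k8 c1057 c13603 c1106 c13352 c13396 c13567 c4377 c792 (k8 c8951 c8877 c84 c9840 c30 c486 c3113 c4993 (k8 c93 c1233 c13138 c353 c4376 c232 c4550 c13594 (k8 c12180 c263 c1225 c4378 c1059 c4302 c4306 c4380 (k8 c4304 c4364 c9998 c4482 c4321 c4440 c13608 c4470 (k8 c10439 c11634 c4467 c12516 c4825 c4469 c4728 c2340 (k8 c6745 c4454 c3217 c1858 c1170 c12782 c13611 c4286 (k8 c4288 c4402 c4289 c10182 c5084 c942 c1209 c13616 (k8 c4406 c1686 c13211 c13612 c1646 c4420 c13617 c7771 (k8 c4421 c1791 c4599 c452 c9160 c1176 c8140 c4426 (k4 c1670 c7746 c4491 c4413 k0))))))))))) (by decide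 +kernel)
def c13619 : PP 8 4 T 0x1800000001001000000000010000000000000000000000025080100100000081000200 := rS 0x12ac3498b47f1014b40a61631946968984a2856873d8f4b601039e4162f0a9dcd21b0107466c51db06304320abd32ab (k8 c4445 c4443 c4346 c3113 c236 c4472 c4450 c3112 (k8 c4530 c432 c1057 c1106 c13352 c13396 c8951 c2346 (k8 c8877 c84 c9840 c30 c486 c93 c13138 c1225 (k8 c7313 c226 c13445 c4322 c187 c4427 c1591 c1768 (k8 c4465 c2030 c4475 c794 c7270 c458 c456 c4413 (k2 c9009 c11624 (k1 c13000 k0))))))) (by decide +kernel)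
def c13620 : PP 8 4 T 0x1000000080000000000000000100000000000004000000001000081000200 := rS 0x11115a5586b33a8a45a8b1f951728e86a14bc4e7283472833d8946e0f138f53a0103a5cf20b3b9a4361d628ed82a9119754e9b8c10c831548bf15e6b4caae2433228bc0458 (k8 c13603 c1106 c8877 c13618 c432 c4469 c4445 c4443 (k8 c4442 c4346 c13567 c4550 c13594 c3113 c236 c4472 (k8 c4448 c13601 c4377 c792 c6029 c4450 c3112 c4530 (k8 c1057 c13352 c13396 c8951 c84 c9840 c3206 c30 (k8 c486 c1233 c13138 c353 c4376 c232 c12180 c1225 (k8 c4306 c4280 c4371 c13532 c13552 c8052 c6224 c8635 (k8 c4486 c3450 c13619 c8954 c1767 c2165 c1599 c1686 (k4 c1185 c9009 c11624 c13218 (k2 c7287 c4468 k0))))))))) (by decide +kernel)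
def c13621 : PP 8 4 T 0x1000000000000000000000000100000000000004000000001000081000200 := rS 0x25135084f2f8e1a6a535a9d53124d8ce30453488c362f01104da58139750283308d4de43028744b15488dc1efc (k8 c13567 c4376 c232 c4550 c13594 c12180 c1057 c263 (k8 c236 c4378 c1059 c4302 c4306 c4380 c4377 c353 (k8 c13603 c4993 c3113 c1106 c8877 c13352 c792 c13396 (k8 c13618 c4472 c432 c4448 c4469 c6029 c13601 c4442 (k8 c4444 c13620 c4470 c10439 c450 c4130 c8722 c2111 (k1 c1320 k0)))))) (by decide +kernel)
def c13622 : PP 8 4 T 0x1000000100800100410000044010015101505000600000000040001200 := rS 0x5b32ce6ac822ad6a953aae4ca89319fcce3d14a68a6b31f854045a10074b20b (k8 c84 c1105 c1057 c4466 c4476 c230 c2349 c13585 (k8 c1185 c2388 c441 c2834 c234 c919 c7517 c11648 (k8 c7314 c12368 c7328 c11627 c11624 c7513 c13155 c8784 (k4 c11210 c4408 c2026 c10837 (k1 c1247 k0))))) (by decide +kernel)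
def c13623 : PP 8 4 T 0x1001000000000000000001000101000001500404001600100005040001200 := rS 0x296d1623296cb55c8f4a2c71d9513e715f239428745aa210a553c4c7e534d0c80e0b2eac5928141984fa3707968b2021585446200e8d4defc (k8 c13567 c4378 c1059 c1057 c4466 c833 c2349 c2143 (k8 c230 c1105 c4476 c4376 c232 c4379 c4302 c4306 (k8 c4380 c4305 c4304 c4377 c84 c30 c6169 c441 (k8 c2388 c13585 c4340 c902 c1971 c4479 c2119 c4322 (k8 c4440 c7768 c866 c867 c1513 c3492 c13622 c1601 (k8 c250 c1604 c13087 c7328 c7513 c2113 c1247 c1246 (k2 c1750 c4429 (k1 c4475 k0)))))))) (by decide +kernel)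
def c13624 : PP 8 4 T 0x1000000000000000000000800000000000000000000140000400000000000 := rS 0x8319 (k2 c4448 c1848 (k1 c4472 k0)) (by decide +kernel)
def c13625 : PP 8 4 T 0x2001000000080000000000400000000000000100400000000005401404000000 := rS 0x22427 (k2 c4278 c4469 (k1 c8052 k0)) (by decide +kernel)
def c13626 : PP 8 4 T 0x20000002000001000000000000400000400144040401554480000008040004240101408 := rS 0x38d2d96b85728956ad4fa85128e39a51263b8b97592613ea5cf2c1 (k8 c4450 c4447 c2933 c4379 c4302 c4305 c4377 c4356 (k8 c144 c1121 c401 c1082 c13575 c7172 c11526 c1428 (k8 c13185 c1700 c2118 c2120 c859 c8140 c4428 c1473 (k1 c8242 k0)))) (by decide +kernel)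
def c13627 : PP 8 4 T 0x21000002000001000000000000000000400144000401500005000000000004040001200 := rS 0x146a182a54eac31f994c67f33acc7a0b2eb24c27d1b83cbe910a8a404200e968b241 (k8 c1063 c1105 c4476 c1057 c4466 c230 c2834 c2349 (k8 c4550 c12467 c4376 c232 c4379 c4302 c4305 c4377 (k8 c84 c234 c1186 c919 c7517 c11648 c12368 c13626 (k4 c9009 c11627 c11624 c9062 (k2 c4551 c13617 (k1 c4560 k0)))))) (by decide +kernel)
def c13628 : PP 8 4 T 0x1000000001001000080040000000000000100000000000004500155400000040000200 := rS 0x66d1558bc1613d9f4365d2d42b6682d52ab9618d4de251b83c56292d164724923a9d362f010803a917e3158318 (k8 c4472 c4450 c4370 c13567 c4550 c1057 c4466 c230 (k8 c8877 c13624 c13601 c4374 c4281 c4280 c1105 c4476 (k8 c2834 c2143 c4376 c232 c12180 c4378 c1059 c9009 (k8 c7514 c11624 c7513 c2115 c2113 c4551 c4426 c1750 (k8 c4424 c1796 c6220 c8900 c6022 c457 c4454 c2068 (k1 c6601 k0)))))) (by decide +kernel)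
def c13629 : PP 8 4 T 0x1000000080000000000000000100000000000004000000001000001000200 := rS 0x11ca086d0d3ea316c5c7851638eca63f2a4608287459de11131929d364542b948e0d248e44e07058144a370797e2a911588c6a6f7e274da013486c5e2935808401d21968b21f (k8 c13621 c1105 c4476 c236 c1057 c4466 c230 c6117 (k8 c2834 c8877 c2396 c13396 c9668 c7462 c967 c13567 (k8 c4378 c1059 c833 c2143 c4550 c13594 c12467 c4376 (k8 c232 c12180 c263 c84 c30 c4278 c4280 c4281 (k8 c4371 c4374 c13532 c6224 c13623 c13624 c13601 c13625 (k8 c4340 c4479 c7751 c4322 c4440 c1063 c4472 c13627 (k8 c8954 c9029 c1601 c250 c1604 c13628 c4416 c2148 (k4 c9384 c11776 c4563 c11800 (k2 c7091 c4486 (k1 c11526 k0)))))))))) (by decide +kernel)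
def c13630 : PP 8 4 T 0x2000000000000000000000001000800000001500400040200000008240000000 := rS 0x42aa54aa789a6932322ea050661 (k8 c4302 c4306 c4380 c4377 c6169 c1129 c441 c4340 (k4 c903 c1430 c2868 c10110 (k1 c2119 k0))) (by decide +kernel)
def c13631 : PP 8 4 T 0x1800002001000000040000000000400000000000001400400000100050000005000000 := rS 0x12e8a8426a95525d40a0cc269 (k8 c13396 c4302 c4306 c4380 c4377 c4345 c4444 c8722 (k4 c4130 c9368 c1320 c7248 k0)) (by decide +kernel)
def c13632 : PP 8 4 T 0x21000002000001000000000000010010000144000400000005000000200000040000200 := rS 0x1849588c1144753298cfe67598f4165d64984fa5f48854529701168b2264731c401d (k8 c1057 c4466 c2378 c361 c360 c1105 c4476 c230 (k8 c2933 c2834 c2349 c4550 c12467 c4379 c4302 c4305 (k8 c4377 c84 c234 c1186 c919 c12366 c11648 c12368 (k4 c12362 c12377 c8784 c4337 (k2 c2858 c9062 (k1 c13033 k0)))))) (by decide +kernel)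
def c13633 : PP 8 4 T 0x1000000000000400102000001000000011000010010000900000001510484520155400040200000008 := rS 0x2885aaba598d3ed04ab0cbac941984fa8545a1e10cd (k8 c2062 c4479 c4440 c4322 c10110 c4379 c4302 c4306 (k8 c4305 c4377 c9009 c11624 c2115 c12364 c842 c4426 (k4 c1670 c2344 c8582 c9384 k0))) (by decide +kernel)
def c13634 : PP 8 4 T 0x1400000001001000000000000000000000100000001100004000040200000040000200 := rS 0x11263168f16651328eca63f829500e0b3e8ac2a8b43c218ac1a2a855a4c542957718209dd0a5d53a6c8a8e27a745e612fa44d6022d16506817e098401d (k8 c1057 c4466 c360 c13567 c4380 c4306 c1105 c4476 (k8 c230 c6117 c4550 c12467 c4302 c8877 c967 c2418 (k8 c361 c13630 c13624 c13601 c4377 c10110 c7751 c1063 (k8 c4472 c4449 c1429 c2119 c975 c2954 c7768 c9368 (k8 c4450 c4370 c4479 c4440 c4322 c2349 c2143 c4379 (k8 c84 c30 c13632 c4406 c8954 c9029 c1601 c1646 (k4 c1604 c1185 c13633 c2325 (k2 c7047 c9049 (k1 c9391 k0))))))))) (by decide +kernel)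
def c13635 : PP 8 4 T 0x1000000000000400102000000000061010000010050000801000000440480064001000040000000000 := rS 0x948b188feb5a1adccace2432d574b2eb24c27d (k8 c4379 c4302 c4305 c4377 c4426 c1670 c1751 c7073 (k8 c381 c7555 c7551 c4421 c1702 c1521 c4560 c4521 (k2 c842 c4418 k0))) (by decide +kernel)
def c13636 : PP 8 4 T 0x10011000400000000044001400000001500155400000005540000 := rS 0x39c5d10c2 (k4 c2115 c2109 c4362 c1087 (k1 c7172 k0)) (by decide +kernel)
def c13637 : PP 8 4 T 0x1000000000000400002000000000040011000412540000845001400440481564104400040005140200 := rS 0xc67f4f99608ce55d2da03d2e9f486415085d06cd (k8 c2062 c4306 c1990 c7768 c1063 c236 c4379 c4377 (k8 c234 c13636 c4426 c1670 c381 c13635 c7555 c1510 (k2 c1521 c4407 (k1 c11058 k0)))) (by decide +kernel)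
def c13638 : PP 8 4 T 0x1000000000000000000000000100000000000004000000001000001000200 := rS 0x611c9a2621ea7d5665829519aa333acc7e511d84ca6e42612d5aa1a2aa14ac1629e5771820a1d167742c2226a74d9161a8e1313c70d3358bcd26d4e88c2a2b0106c025f2d080b21f03975928141984fa37078d4de430ea45f915 (k8 c13594 c13567 c4550 c1057 c236 c4378 c1059 c4376 (k8 c232 c4379 c4302 c4306 c4380 c4305 c4377 c30 (k8 c13621 c1105 c4466 c4476 c12467 c9668 c2396 c230 (k8 c2143 c2349 c833 c967 c7462 c13396 c8877 c6117 (k8 c13629 c4470 c2418 c360 c361 c4324 c13630 c13624 (k8 c13601 c13631 c4479 c10110 c7751 c4322 c4440 c1063 (k8 c4472 c4449 c4447 c4370 c4450 c1429 c2119 c9368 (k8 c7768 c2954 c1321 c975 c13634 c4290 c4401 c4403 (k8 c4405 c4288 c10182 c5084 c9264 c2062 c13637 c4406 (k8 c1646 c13092 c6233 c11626 c8581 c13635 c843 c2115 (k1 c1087 k0))))))))))) (by decide +kernel)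
def c13639 : PP 8 4 T 0x1000002000001000040000000400000040100000000000405000008200000080000406 := rS 0x1d16d05631f93ea350c412a93169ccce15328ac77172e845927d4889cc263 (k8 c755 c4302 c870 c4550 c4379 c4305 c4300 c4377 (k8 c4356 c144 c289 c491 c12287 c11319 c13487 c910 (k8 c1122 c11333 c4487 c4551 c4337 c4414 c2118 c11098 (k4 c4313 c411 c4481 c1744 k0)))) (by decide +kernel)
def c13640 : PP 8 4 T 0x1000000001001000040001000000000000144001400000005000150000000084400204 := rS 0x731da24eac3150547e975982cc20002968be59488f47037078d4defc (k8 c13567 c4378 c1059 c4376 c232 c4470 c13138 c4550 (k8 c1106 c12467 c4476 c263 c4461 c4302 c84 c1186 (k8 c13165 c13639 c384 c12806 c9009 c11627 c7030 c12123 (k2 c12124 c8505 k0)))) (by decide +kernel)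
def c13641 : PP 8 4 T 0x1000000001001000040000000000000000104000401000004000040002000000000204 := rS 0x57199a0c315144ca3b298fe0a152a01c1e617e06d163d0b82c8a7960c613a5a2c878000520874429b (k8 c1966 c2144 c1057 c1913 c263 c4461 c4466 c1106 (k8 c4476 c12783 c5755 c4450 c4447 c297 c84 c5847 (k8 c13138 c13524 c2232 c13567 c4302 c4376 c30 c13640 (k8 c141 c4406 c8954 c9029 c1601 c1647 c1604 c12806 (k4 c9009 c6159 c4191 c301 (k1 c984 k0)))))) (by decide +kernel)
def c13642 : PP 8 4 T 0x1000000000000000000000000100000000000004000000000000001000200 := rS 0x1995d05681d586a14ac44c62a4bae4caad598a47e15288ec264729b90708760b4e11182285d3a3d4589cbe5a3b878da002c93d36411086c0633180962a910e8140e0b419846e0f1a9bdf843 (k8 c236 c13567 c4378 c1059 c4376 c232 c4302 c4306 (k8 c84 c30 c263 c1057 c4550 c13594 c12180 c13638 (k8 c173 c228 c2232 c2144 c1913 c1966 c298 c1106 (k8 c4461 c5889 c4466 c9124 c4476 c12467 c870 c13524 (k8 c13138 c12783 c5847 c297 c5755 c4465 c6153 c4450 (k8 c4440 c4470 c13641 c4290 c4404 c4401 c4403 c4405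 (k8 c4284 c4288 c4402 c10182 c2046 c490 c1201 c1193 (k8 c12893 c754 c4411 c1694 c1735 c13033 c10870 c6159 (k4 c9062 c301 c5056 c984 k0))))))))) (by decide +kernel)
def c13643 : PP 8 4 T 0x2010000000001000000000000040844040104004401550001000208000100000100004 := rS 0x63 (k2 c12253 c13328 k0) (by decide +kernel)
def c13644 : PP 8 4 T 0x1000000000002810000000001000080000000000801000104004404100108000208000040080000200 := rS 0x6233d82c3501d4e4d1828519b43569953ea34b9b51eb31699c4647488e56eb5579ad569b4a954763d0200cb2210382e2e93 (k8 c3067 c4356 c84 c30 c799 c63 c12975 c1066 (k8 c2188 c3062 c13371 c13478 c804 c4445 c4442 c4346 (k8 c4389 c4353 c4280 c1153 c4374 c4372 c13277 c2356 (k8 c3200 c800 c9753 c1194 c11410 c11776 c7044 c13185 (k8 c11164 c2066 c13643 c4308 c2423 c385 c590 c10460 (k4 c1210 c1620 c1794 c4553 (k1 c12768 k0))))))) (by decide +kernel)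
def c13645 : PP 8 4 T 0x1000000000002810000000001000080000000000800000144000404101108000208001000085004200 := rS 0x341868951144a6130a8a8f68f00874ce9d5baac2e6b2a8ec7a04 (k8 c1066 c2188 c3062 c13371 c4442 c532 c4445 c4353 (k8 c1233 c13277 c56 c750 c800 c1225 c13644 c2220 (k8 c1639 c292 c1644 c12222 c13072 c7162 c2109 c459 k0))) (by decide +kernel)
def c13646 : PP 8 4 T 0x1000000100005500000000000010014000001000205400000000001200 := rS 0xe67f3aae42a0b (k4 c84 c384 c7328 c11627 (k2 c7517 c13487 (k1 c2121 k0))) (by decide +kernel)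
def c13647 : PP 8 4 T 0x4802000000001000000000000000000444000000001140011000000000000000500004 := rS 0x11263 (k2 c12253 c7030 (k1 c13357 k0)) (by decide +kernel)
def c13648 : PP 8 4 T 0x4812000000001000080000005000001004100000004100109080200000040080000200 := rS 0xc467b059ac3501d4e4d18285286ad32a7d469736a3d662d3388c8e911cabd32ab0b9ac089ba2a1d2a032c8840e0b (k8 c84 c30 c799 c63 c12975 c13478 c4440 c4396 (k8 c804 c1066 c4442 c532 c4445 c4443 c4346 c4280 (k8 c1153 c4374 c4372 c13277 c2356 c3200 c800 c9753 (k8 c1194 c11410 c11776 c7044 c13185 c11164 c13647 c4308 (k8 c2423 c385 c590 c10460 c1210 c1480 c1620 c1794 (k2 c2127 c12768 k0)))))) (by decide +kernel)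
def c13649 : PP 8 4 T 0x2000000001000000080000000000000000100000000000000000000001000085000200 := rS 0x3fa882615151794e938b8f90f0da2956104e42b94ee8b3497422c907984fa6d598ec021d1e9341a9d5292d52231982d6e715a9102e6b890110643408d482563d9bd62fc (k8 c13567 c4304 c4378 c1225 c13642 c3063 c1059 c4380 (k8 c236 c4306 c1066 c13006 c4442 c532 c13014 c4389 (k8 c4387 c4353 c84 c6309 c4372 c6029 c4375 c5936 (k8 c1233 c4371 c4282 c2188 c56 c750 c3062 c3200 (k8 c9753 c4379 c4302 c4376 c4305 c4300 c4377 c13396 (k8 c13509 c9124 c13532 c6224 c2108 c4465 c13371 c4396 (k8 c8635 c4440 c13646 c4356 c3067 c13645 c6517 c13648 (k4 c2220 c1639 c12222 c7517 (k1 c1465 k0))))))))) (by decide +kernel)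
def c13650 : PP 8 4 T 0x10000444001514000000000040000000000000000008200200 := rS 0x1828939344f20b (k4 c84 c598 c2423 c385 (k2 c679 c1621 (k1 c7478 k0))) (by decide +kernel)
def c13651 : PP 8 4 T 0x14000000000000000000011004000880000500000000000000000000000000000000000 := rS 0xa52b1870d (k4 c4330 c7162 c940 c4494 (k1 c4458 k0)) (by decide +kernel)
def c13652 : PP 8 4 T 0x10002000001000080000000000040000000000000000001000000000080000100001 := rS 0x4c1e61 (k4 c4302 c4376 c1639 c12222 k0) (by decide +kernel)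
def c13653 : PP 8 4 T 0x2000002000001000080000000044801100100000000000008000200000000089000200 := rS 0xd0633099a13569952e2b51b050e7f0ab1527171f254aab16483cde7d47974065903acc76010e8f4ce0d5b9c56b19299d936210596c090d (k8 c4330 c1066 c92 c84 c799 c6867 c425 c2383 (k8 c4364 c4389 c4387 c4353 c4371 c13277 c2188 c56 (k8 c750 c3062 c3200 c30 c63 c12975 c4377 c800 (k8 c4379 c4378 c4376 c4305 c4304 c13371 c13478 c13646 (k8 c4356 c3067 c1249 c13650 c7517 c7313 c1892 c13651 (k8 c13652 c1194 c7044 c13185 c530 c2066 c2127 c11768 (k2 c1210 c461 k0))))))) (by decide +kernel)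
def c13654 : PP 8 4 T 0x2000000001000000080000000000000000100000000000000000000001000081000200 := rS 0x2a9fce8b882b1c7ee4532fd367984868881755a64d6af892d4e2b758a05067d1b83c6a6f7e10cf65b1082d663b208f408561c9248e9d (k8 c1233 c4374 c4281 c4280 c13642 c1066 c2188 c3063 (k8 c3062 c3200 c84 c799 c92 c1225 c236 c13567 (k8 c4378 c1059 c4376 c232 c4379 c4306 c4380 c4304 (k8 c4353 c4387 c4389 c13006 c4346 c4442 c4443 c4445 (k8 c532 c13014 c13649 c4316 c598 c6867 c7782 c13260 (k8 c13653 c4288 c4289 c4961 c7430 c4559 c7096 c1686 (k1 c6684 k0))))))) (by decide +kernel)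
def c13655 : PP 8 4 T 0x20000001000000000000000001101001100000000000400000200100000001000220 := rS 0x2fd36760d05e126b892f53283309bcb62105aed1e562ea05f8a7 (k8 c4330 c13567 c4380 c4377 c13642 c800 c10310 c84 (k8 c799 c92 c4378 c4302 c4306 c3070 c1169 c13249 (k8 c4442 c12516 c532 c4465 c425 c6867 c1093 c2126 k0))) (by decide +kernel)
def c13656 : PP 8 4 T 0x1001000010008000000000000000000000000000400010000000000000000 := rS 0xa34b (k2 c4459 c1866 (k1 c4475 k0)) (by decide +kernel)
def c13657 : PP 8 4 T 0x1000000001001000000011200000001510000000000000008400108110800080014200 := rS 0x31c54b961abd6ed149c5c6e41 (k8 c3063 c232 c4356 c3067 c458 c1161 c789 c13656 (k4 c1207 c13501 c7557 c13502 k0)) (by decide +kernel)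
def c13658 : PP 8 4 T 0x1000000001001000000000200000001000000000000000009400100110800081014200 := rS 0x22c75618547e953d80cb2210581d663d628ed16044db0630434c9dc3641 (k8 c3063 c424 c9124 c1071 c236 c4472 c4450 c4448 (k8 c1066 c13509 c3062 c4530 c2188 c3200 c30 c84 (k8 c799 c63 c12975 c1225 c13478 c13657 c384 c9009 (k2 c11627 c4471 (k1 c13510 k0))))) (by decide +kernel)
def c13659 : PP 8 4 T 0x1000000080000000000000000100000000000000000000001000081000200 := rS 0x2ad2aaf49b0d2ead289885429328fe0a544394d7899171a9829b729dcd2c58c2fc364553c30be258aaa54a9d08a0cc237078d4de433680cb221038ec82010e8cc163d3381096235da44728f2b17502fc (k8 c13567 c4380 c4377 c13642 c800 c4280 c1153 c10310 (k8 c4372 c4375 c1066 c13277 c2188 c84 c6309 c56 (k8 c750 c3063 c3062 c30 c799 c63 c12975 c9753 (k8 c236 c4378 c1059 c4376 c232 c4302 c4306 c4300 (k8 c1233 c5936 c6029 c13654 c12180 c12467 c4486 c4330 (k8 c13655 c424 c6330 c4472 c4530 c13396 c9124 c13532 (k8 c4448 c4450 c6517 c13625 c1071 c2126 c3937 c3756 (k8 c13658 c4406 c8954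 c1647 c1599 c266 c267 c1604 (k8 c6230 c1193 c9009 c1070 c788 c1694 c9757 c2127 k0))))))))) (by decide +kernel)
def c13660 : PP 8 4 T 0x1000000080000000000000000100000000000000000000000000081000200 := rS 0x146974f994ea2b82851263e2a91138b55b9c6290d5097c48a852d15324e42b94eea70ba6cd21b898bc6091118349a3925ac422c940a0cfa37078d4de433da3cbafc019644207598ec82010e8cc163d1699c0856 (k8 c13642 c1066 c13277 c2356 c2188 c84 c6309 c56 (k8 c750 c3063 c3062 c3200 c30 c799 c63 c12975 (k8 c13567 c4377 c800 c1225 c236 c4378 c1059 c4376 (k8 c232 c4379 c4306 c4380 c4305 c4300 c4304 c4375 (k8 c4280 c4282 c4371 c4372 c1153 c13659 c61 c4441 (k8 c2232 c1878 c1966 c1911 c2006 c9124 c13532 c6224 (k8 c2108 c1071 c4396 c1400 c299 c298 c7647 c7768 (k8 c4381 c12180 c4135 c4353 c4389 c12045 c13014 c13371 (k8 c13646 c3067 c13375 c4308 c2220 c590 c551 c6233 (k2 c1194 c11410 (k1 c7050 k0))))))))))) (by decide +kernel)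
def c13661 : PP 8 4 T 0x1000000000006812000000001000000000000000001414500000001140011080200000140480400204 := rS 0x33d88c166b0e867268a7c291056a8d2eaf55a1d22b7 (k8 c4353 c4352 c4440 c4445 c4346 c1194 c11410 c13185 (k8 c4487 c13647 c4414 c2423 c385 c11164 c1210 c1480 (k4 c1620 c4553 c13177 c12768 k0))) (by decide +kernel)
def c13662 : PP 8 4 T 0x2000000001001000000000000000400000100000000000001000208001000085000200 := rS 0x18e7f23a24a2530985454230693a8b0d5f17822c94083cfa35379b51e5d7e0043a2d33b4d32a555a2d366942a1e101735c493a0426a5406591081c1717499589239 (k8 c4348 c370 c13642 c3067 c4356 c84 c30 c799 (k8 c63 c12975 c13478 c378 c1066 c1233 c13249 c4442 (k8 c532 c4465 c4440 c4321 c13396 c804 c13509 c4445 (k8 c4444 c3070 c13660 c13277 c2356 c56 c750 c13567 (k8 c4377 c800 c9753 c4378 c1059 c4379 c4376 c4380 (k8 c4305 c4300 c4130 c13260 c4382 c4399 c8901 c1487 (k8 c3464 c13661 c2220 c1639 c292 c1644 c13072 c1643 (k2 c7517 c13275 (k1 c2107 k0))))))))) (by decide +kernel)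
def c13663 : PP 8 4 T 0x2000000001001000000000000000000000100000000000001000208001000085000200 := rS 0x633419a7f23a24a2a12984c2a2a06938464ba2c354c4949c5c22c9079f4da8f2ebf04e010e8b4ced355a2d366943c202e6b89274084d1ca540659109580e0b (k8 c84 c30 c13642 c799 c63 c12975 c13478 c4348 (k8 c378 c1066 c1233 c13249 c4442 c532 c4465 c4440 (k8 c13396 c804 c13509 c4445 c13660 c13277 c2356 c56 (k8 c750 c353 c13567 c4377 c800 c9753 c4379 c4376 (k8 c4305 c4300 c4356 c3067 c370 c13662 c4330 c4453 (k8 c1857 c773 c4474 c529 c13661 c2220 c1639 c292 (k8 c1734 c1644 c13072 c1643 c7517 c2067 c2109 c2107 (k1 c461 k0)))))))) (by decide +kernel)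
def c13664 : PP 8 4 T 0x2000000001001000000000000000000000100000000000001000200001000085000200 := rS 0xc1f97562c9379f5f8b31d8f4085669adce2b5 (k8 c4389 c4387 c4353 c13660 c13642 c1066 c2188 c3062 (k8 c3200 c13567 c4379 c4378 c4305 c4304 c4377 c13663 (k2 c13646 c13012 k0))) (by decide +kernel)
def c13665 : PP 8 4 T 0x2000000001001000000000000000000000100000000000000000200001000085000200 := rS 0x2792d962386b1140484ac45469306c592e9f569d58e2a149948e3f82951621140a0cfa37078d4de8f2ebf006591082c0e27598ec021d1e99da6a555a6cd2858405cd7124e810ac915bad49a39 (k8 c4348 c378 c4389 c4353 c4352 c13642 c1066 c1233 (k8 c13249 c4442 c532 c4465 c4321 c13396 c804 c4445 (k8 c4444 c13660 c13277 c2188 c56 c750 c3062 c3200 (k8 c353 c30 c84 c799 c63 c12975 c13567 c4377 (k8 c800 c4378 c1059 c4376 c232 c4379 c4306 c4380 (k8 c4300 c4304 c13664 c4406 c8954 c1602 c1647 c1599 (k8 c266 c2194 c1686 c6230 c6237 c1193 c4471 c13012 (k8 c1070 c13617 c4411 c1694 c4559 c7050 c7641 c12606 (k4 c770 c1756 c9597 c453 (k1 c2108 k0))))))))))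 (by decide +kernel)
def c13666 : PP 8 4 T 0x2800000001000000040040000400400500101000000100001010405400044000140200 := rS 0x90230693a1abe2f17422811b83c6a6f7e1ad4a39 (k8 c4348 c4444 c4442 c13567 c4378 c1059 c4376 c232 (k8 c4380 c4300 c4377 c4130 c13260 c4382 c8901 c1487 (k2 c3464 c10113 (k1 c7307 k0)))) (by decide +kernel)
def c13667 : PP 8 4 T 0x2800000001000000040040000400000500101000000100001010404400044000140220 := rS 0x490688e1aa6088dc1e3537bf07a39 (k8 c4348 c2188 c13567 c4378 c1059 c4376 c232 c4300 (k4 c13666 c4330 c773 c529 (k2 c7307 c10113 k0))) (by decide +kernel)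
def c13668 : PP 8 4 T 0x2800000001000000040000000000400500101000000100000010000000005000000200 := rS 0x1113a1abe2f175023537bf0d6a5 (k8 c4444 c4442 c13567 c4378 c1059 c4380 c4377 c4130 (k4 c13260 c4382 c8901 c4467 (k1 c3464 k0))) (by decide +kernel)
def c13669 : PP 8 4 T 0x2800000001000000040000000000000500101000000100000010000000005000000200 := rS 0x8e1aa6 (k4 c13668 c4330 c773 c4467 k0) (by decide +kernel)
def c13670 : PP 8 4 T 0x400000000002800000001000000040040000400001540101000000100001090404400004000141220 := rS 0x2b582c549a81a0cf4fa562248150446e0f1a9bdf83d558e56f0d518928acd (k8 c1479 c4396 c13669 c1463 c4381 c4353 c4348 c4445 (k8 c2188 c13567 c4378 c1059 c4376 c232 c4300 c13667 (k8 c10113 c4411 c1694 c1663 c1791 c452 c283 c7994 (k4 c12768 c1710 c901 c6031 k0)))) (by decide +kernel)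
def c13671 : PP 8 4 T 0x2000000001000000000000000000000000100000000000000000200001000085000200 := rS 0xc467a5622ad49920ea2a32c14a8cda2938960d1225e86c71f8542647721356ab71c84502831b83c6a6f7e00cb2210581c4eb31d8043a3d33b4d32af52aad366942c202e6b892740856 (k8 c13642 c1066 c1233 c13249 c4442 c532 c4465 c4321 (k8 c13396 c804 c4445 c4444 c4346 c3070 c13660 c13277 (k8 c2188 c56 c750 c3062 c3200 c353 c30 c84 (k8 c799 c63 c12975 c13567 c4378 c1059 c4376 c232 (k8 c4306 c4380 c4300 c4348 c4353 c4389 c378 c13665 (k8 c4404 c4401 c4284 c4288 c4289 c8226 c1193 c13669 (k8 c1368 c1373 c2108 c4396 c1479 c13670 c4406 c1647 (k8 c266 c1686 c4559 c1070 c6230 c4411 c1694 c1791 (k2 c6342 c12768 k0))))))))) (by decide +kernel)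
def c13672 : PP 8 4 T 0x1800002000000000000000000000400000101000000100008040000040400085000000 := rS 0x48094bc5d08a05065900874d6a5 (k8 c4444 c4442 c56 c750 c63 c4306 c4380 c4300 (k4 c4377 c4130 c9055 c12467 (k1 c1154 k0))) (by decide +kernel)
def c13673 : PP 8 4 T 0x1802002000001000000000000000001040100000000100009000208200000085000200 := rS 0xbe482985e4f5e94988c1619c9a310568506e0f3699e329957aac2e6b0226d0a874a80cb2210382e2e93 (k8 c3067 c4356 c84 c30 c799 c63 c12975 c13478 (k8 c4440 c4321 c804 c1066 c4442 c532 c4445 c4346 (k8 c3070 c4364 c13277 c9753 c4376 c232 c13647 c13185 (k8 c4487 c2423 c385 c1210 c1620 c7287 c1249 c3185 (k4 c2392 c2032 c13672 c4500 (k2 c12709 c1244 k0)))))) (by decide +kernel)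
def c13674 : PP 8 4 T 0x1802002000001000000000000000000000140000000100009000208201000085000200 := rS 0x5f29d76c25ea45a0b8449458e130a94d6e29154452c114083c6a6f47974021d1699d3a9954a955617358113687 (k8 c4440 c804 c1066 c4442 c532 c4445 c4444 c4345 (k8 c3070 c1233 c13277 c2356 c56 c750 c4377 c800 (k8 c4378 c1059 c4376 c4380 c4300 c13673 c4336 c1194 (k8 c776 c3175 c4712 c2220 c1639 c2227 c1644 c13072 (k8 c13502 c2109 c3215 c3217 c459 c10310 c13601 c2126 (k1 c3227 k0)))))) (by decide +kernel)
def c13675 : PP 8 4 T 0x9800000001001000000044000000401000110040140000000400000000000085000200 := rS 0x47a1b4092515b52d96c43caed7945272fc964d11a421a5e2e84502833d965663305a94d28b3b9050a878405cd6040689c703707b4c6a6f7e3052656 (k8 c13642 c1069 c4420 c13567 c4378 c1059 c13660 c4376 (k8 c232 c4470 c353 c13050 c1066 c4442 c532 c4465 (k8 c4440 c4321 c3063 c9124 c13509 c13396 c4444 c84 (k8 c6309 c3200 c63 c1225 c4306 c4380 c4300 c4377 (k8 c4130 c4382 c12467 c1295 c9728 c9597 c1244 c2108 (k8 c4396 c451 c1439 c11641 c2123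 c9862 c4429 c1175 (k4 c7131 c453 c4475 c4424 (k2 c3700 c4473 k0)))))))) (by decide +kernel)
def c13676 : PP 8 4 T 0x1001000000000000000000000100000000000001000200001000085000200 := rS 0x47a1b4092515b52d96c4271e5784d5fa41764ba2a9926c1449ccff163ab0ca6c70a8fc2281419ed663b1982c7b19459dc829b34a150f080b9ae249d02034ac271c4546e0f698d4defc (k8 c13567 c4378 c1059 c13660 c4376 c232 c13671 c4470 (k8 c353 c13642 c13050 c1066 c1233 c13249 c4442 c532 (k8 c4465 c4440 c4321 c13396 c804 c3063 c9124 c13509 (k8 c4364 c2188 c84 c6309 c3062 c3200 c1225 c4306 (k8 c4380 c4300 c13674 c384 c410 c418 c1209 c11627 (k8 c4471 c7517 c13487 c7030 c4420 c1069 c13675 c4453 (k8 c1857 c1978 c13601 c1244 c379 c12709 c11641 c2108 (k8 c2123 c9862 c4429 c1175 c7131 c453 c4475 c4424 (k2 c3700 c4473 k0))))))))) (by decide +kernel)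
def c13677 : PP 8 4 T 0x1800002000000000000020000000445000101000000100010000000200084005401000 := rS 0xa12d892bc659397e4b2688d210d2f17422814183cd6a5 (k8 c4444 c4442 c4376 c4306 c4380 c4300 c4377 c4130 (k8 c4382 c12467 c1295 c9728 c9597 c1244 c2108 c1757 (k4 c451 c453 c1175 c5588 (k1 c4424 k0)))) (by decide +kernel)
def c13678 : PP 8 4 T 0x180000200000000000000000040000100010100000014000a000201200004005001024 := rS 0xa19256c4e65af09abf4812e1aa66225622ad51a4d3e2a32c14ba1140a0c1e7d2cc6532af5585cd69b (k8 c804 c4442 c532 c4445 c4346 c3070 c4364 c63 (k8 c4379 c4376 c4306 c4380 c4300 c4377 c4406 c1647 (k8 c266 c6237 c1070 c13617 c6230 c4411 c1694 c6342 (k8 c13677 c4330 c1857 c13601 c1244 c379 c12709 c1757 (k4 c2108 c1175 c453 c4424 (k1 c5588 k0)))))) (by decide +kernel)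
def c13679 : PP 8 4 T 0x1800000000002000040104210000001002001011000100009001000000000080015200 := rS 0x62a4d827567a7d6a7e56c146eb3338108e130aa8d2e3f (k8 c4288 c1193 c938 c4284 c4401 c4404 c1066 c13277 (k8 c3200 c232 c9269 c10107 c9900 c11986 c1394 c1521 (k4 c595 c2021 c1158 c1176 (k1 c9798 k0)))) (by decide +kernel)
def c13680 : PP 8 4 T 0x1800002000002000040004000000401100101000000100009000000000000085000200 := rS 0xc549a5582a01527d6b43241e576bca293946245f92c9a2348434bc5d08b2502833e9647aaf52aac2e6b0226c1a275c8e06e0f1a9bd2e3f (k8 c4288 c1193 c4378 c1059 c4376 c232 c4470 c1201 (k8 c353 c13050 c804 c1066 c4442 c532 c4445 c4444 (k8 c4346 c2188 c63 c4379 c4306 c4380 c4305 c4300 (k8 c4377 c4130 c4382 c12467 c1295 c9728 c9597 c1244 (k8 c1154 c938 c2108 c4396 c451 c1439 c11641 c13679 (k8 c4421 c1702 c1663 c282 c283 c12809 c891 c1158 (k2 c13677 c7297 k0))))))) (by decide +kernel)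
def c13681 : PP 8 4 T 0x1000000000000000000000000100000000000000000200001000085000200 := rS 0x62a4d2ac15033d3eb5a1920f2bc268917e905dd154cc35c8fdc8551c0362a854dc20d21164a0cfa37078d4defc01964420b0389d663d33b4e329957aac2e6b892740856 (k8 c13642 c1066 c1233 c13249 c4442 c532 c4445 c4346 (k8 c3070 c4364 c13660 c13277 c2188 c3200 c353 c30 (k8 c84 c799 c63 c12975 c13567 c4378 c1059 c4376 (k8 c232 c4379 c4306 c4305 c4300 c13396 c4465 c804 (k8 c4321 c13671 c13050 c4470 c13678 c13676 c4288 c1201 (k8 c1209 c13680 c4453 c1978 c13601 c1244 c1154 c379 (k8 c12709 c11641 c13679 c4421 c1702 c1663 c1791 c283 (k4 c12809 c891 c1158 c1176 (k1 c7297 k0))))))))) (by decide +kernel)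
def c13682 : PP 8 4 T 0x80000000a400251000000000400020 := rS 0x2558651310a87e99 (k8 c3070 c8954 c266 c267 c1605 c1209 c1694 c9799 k0) (by decide +kernel)
def c13683 : PP 8 4 T 0x6800000000000000000011400000041554500000000000000000000000000000000000 := rS 0x19f4365d2d409f6133620ad57aad22b75ec368aa6 (k8 c13260 c4453 c4330 c4354 c4353 c4352 c4445 c4346 (k8 c13185 c4487 c2066 c4553 c4414 c10261 c4459 c2028 (k2 c11164 c1794 (k1 c4495 k0)))) (by decide +kernel)
def c13684 : PP 8 4 T 0x2800000000001000000100000100001000500010004000008000200000000089014200 := rS 0x18e2a4b28d82873f8558a4949c5c7c95019640eb31d99e32af55954a63d2090c72b738ad4461735c24021d0692d4c995f9d936210596c0827 (k8 c353 c1066 c92 c84 c799 c6867 c425 c1093 (k8 c3070 c13260 c1857 c691 c56 c750 c4316 c4442 (k8 c532 c8081 c4389 c4387 c4353 c4348 c236 c3063 (k8 c2188 c2383 c13682 c4445 c4346 c4364 c13277 c3062 (k8 c3200 c30 c63 c12975 c13478 c13646 c4356 c3067 (k8 c370 c3096 c13650 c7517 c7313 c1892 c13651 c13683 (k2 c1194 c291 (k1 c12184 k0))))))))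 (by decide +kernel)
def c13685 : PP 8 4 T 0x2000000001000000000000000000001000100000000000000000200000000089000200 := rS 0x2b582c54ac4526a06833c549f243352ea3a1b1c7e150991dc82427034464ba2c354cb71cac422c93e8dc1e35479744eb31d8043ad34caa54aab8493536210596d7e6f7e154ec530b9ae243d20810ac43 (k8 c236 c13642 c1066 c3063 c2188 c13249 c4442 c532 (k8 c2383 c425 c13682 c13567 c4378 c1093 c92 c84 (k8 c799 c6867 c2338 c4316 c4445 c4444 c4345 c3070 (k8 c13660 c56 c750 c3062 c3200 c353 c4377 c800 (k8 c1059 c4376 c232 c4379 c4305 c4300 c4304 c4348 (k8 c4353 c13260 c4330 c4453 c1857 c8081 c691 c13025 (k8 c4467 c13684 c4404 c4401 c4284 c4288 c4289 c8226 (k8 c9264 c1193 c1479 c10113 c1663 c282 c1791 c452 (k8 c283 c7994 c4411 c1694 c12768 c1710 c901 c6031 k0))))))))) (by decide +kernel)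
def c13686 : PP 8 4 T 0x1000000000001000040111000044001400100010004000009000208200040080114404 := rS 0x633408e4909b093e235cc34cb104825cb21d022652b17499fc1a27 (k8 c353 c13050 c7517 c3067 c4356 c13478 c3070 c1066 (k8 c56 c63 c1194 c12456 c4487 c7044 c4328 c3215 (k8 c768 c4414 c7287 c530 c371 c6900 c1210 c2107 (k1 c2430 k0)))) (by decide +kernel)
def c13687 : PP 8 4 T 0x1000000000000000000000460001101500500000000000000000200000000080000000 := rS 0x2997a91 (k4 c3215 c3217 c2126 c13601 k0) (by decide +kernel)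
def c13688 : PP 8 4 T 0x1000000000001000040100010044001000100010004000009000208000000089014200 := rS 0x5bb1c54c1438558a935999d32764d96c08381b8d52a032c8840e0b (k8 c84 c30 c799 c63 c12975 c13478 c1059 c232 (k8 c4470 c1066 c92 c6867 c425 c3070 c13277 c3200 (k8 c3067 c3096 c13650 c7313 c1892 c13686 c2227 c1162 (k1 c13502 k0)))) (by decide +kernel)
def c13689 : PP 8 4 T 0x2000000000000040000000010002000040000000001000000000080080100020 := rS 0x2488c48116483cfa1d (k8 c56 c4379 c4376 c4305 c4300 c1154 c768 c283 (k1 c12184 k0)) (by decide +kernel)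
def c13690 : PP 8 4 T 0x2000000000000440000001000000000040000000001080000000080000100020 := rS 0x922308b241e7d (k4 c4379 c4376 c4305 c4300 (k2 c1489 c453 (k1 c12184 k0))) (by decide +kernel)
def c13691 : PP 8 4 T 0x1800002000001000040000000000001000100000000000008000200000000089000200 := rS 0xa14829d7a4f1532e22ac62a4d82733f9d52ec3638547e9508b24fa032c81c762d8cabd564d2a94c2e6b1e904860d138e06e0f1aae57e7637aee127b409e536210596c08a554a651e5d (k8 c4377 c800 c3070 c4345 c4444 c1066 c92 c84 (k8 c799 c6867 c598 c4380 c1225 c4316 c11057 c4378 (k8 c425 c1093 c13687 c1059 c4376 c232 c4470 c353 (k8 c13050 c236 c3063 c2188 c4442 c532 c2383 c13682 (k8 c2338 c4445 c4346 c4364 c2356 c3062 c30 c63 (k8 c12975 c4379 c4305 c4300 c13478 c13688 c384 c410 (k8 c1209 c1193 c11627 c7517 c13487 c1893 c1069 c1095 (k8 c2127 c7223 c7111 c13369 c13690 c1170 c12709 c2126 (k2 c900 c13689 k0))))))))) (by decide +kernel)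
def c13692 : PP 8 4 T 0x11001002000000000040060000000001404010004800040009000400010044080140000 := rS 0x48c344aa3241960a7f319c8ba116483cc27d022fcde0d (k8 c13050 c4378 c1093 c1066 c4379 c4302 c4376 c4305 (k8 c4300 c4377 c1095 c9760 c9749 c4408 c1648 c2107 (k4 c13617 c282 c7315 c1154 (k1 c9821 k0)))) (by decide +kernel)
def c13693 : PP 8 4 T 0x1800000000000000040054450000401155500000000000040000400240054108000220 := rS 0x2b582cf5ad0c90a36688e8a9f5e13a18251e8b552af52aac9a9b (k8 c6867 c2338 c4445 c4444 c4346 c4345 c2356 c2188 (k8 c12180 c4486 c13070 c2126 c11480 c4396 c1489 c1479 (k8 c12510 c4200 c4421 c1702 c1791 c12809 c6601 c2127 k0))) (by decide +kernel)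
def c13694 : PP 8 4 T 0x1800000000002000000114050000001006010011000000009000000000040080015200 := rS 0xad609d4cb435a9fa0a49518906eb3338108e130ab1d2e3f (k8 c4288 c1193 c4289 c4284 c4401 c4404 c1066 c13277 (k8 c3200 c232 c1154 c938 c282 c9269 c2107 c11986 (k4 c4392 c555 c595 c12809 (k2 c4903 c9798 k0)))) (by decide +kernel)
def c13695 : PP 8 4 T 0x1000002000002000000000010000000020000000000000009000001000000000001000 := rS 0xe91708b241e7d (k4 c4379 c4376 c4305 c4300 (k2 c4418 c803 (k1 c10189 k0))) (by decide +kernel)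
def c13696 : PP 8 4 T 0x11800002000002000040004010000001104100004000000009000000000040088000200 := rS 0xa748b1422c93ea3cba674d884b6bb84a04f20b5f9d87037078d4de47098a58e890aa5c7e950689c7a04 (k8 c1066 c2188 c353 c13050 c13695 c4288 c1193 c4284 (k8 c678 c4289 c4402 c4401 c4404 c4378 c1059 c4376 (k8 c232 c4470 c425 c1093 c84 c598 c4380 c4316 (k8 c11057 c92 c799 c6867 c13277 c4377 c800 c4379 (k4 c4305 c4300 c13692 c13694 (k2 c13601 c13693 k0)))))) (by decide +kernel)
def c13697 : PP 8 4 T 0x11800000000000000000160440000000008500014000000041000400200004108155220 := rS 0x53a449e9f241fd96a5849d93689 (k8 c678 c6867 c425 c4316 c4444 c9714 c9749 c2107 (k4 c1663 c453 c1158 c13601 (k1 c13070 k0))) (by decide +kernel)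
def c13698 : PP 8 4 T 0x1800000000000000010140040000400001500010000020051000400200000108155220 := rS 0x493f938bea5 (k4 c4444 c12467 c13070 c554 (k2 c452 c2107 k0)) (by decide +kernel)
def c13699 : PP 8 4 T 0x2000000000000040000000000042000000000020001000400000040080141000 := rS 0x3f925462408b241e7d (k8 c4379 c4376 c4305 c4300 c1154 c938 c282 c555 (k1 c2107 k0)) (by decide +kernel)
def c13700 : PP 8 4 T 0x11800002000002000040004010000001100100004000000009000000000040088000200 := rS 0xa748b4694c543990e49208b24fa5947975569b1096c08bb84a04f20b5f9d81a271c0dc1e353791c26c7448552e3f (k8 c4288 c1193 c4284 c678 c4289 c4401 c4404 c4378 (k8 c1059 c4376 c232 c4470 c353 c13050 c425 c1093 (k8 c84 c598 c4380 c4316 c11057 c1066 c92 c799 (k8 c6867 c4445 c4377 c800 c63 c4379 c4305 c4300 (k8 c13696 c1069 c1070 c1652 c13697 c7619 c4426 c13699 (k2 c13601 c13698 k0)))))) (by decide +kernel)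
def c13701 : PP 8 4 T 0x4000000080040001000000000080000000000 := rS 0xcb05 (k2 c4408 c1648 (k1 c4904 k0)) (by decide +kernel)
def c13702 : PP 8 4 T 0x40000000000001800000000000000040450451000411155500000000000040000400240004108000220 := rS 0x2d946cda2a7d784e12aa54a9b (k8 c6867 c4444 c4345 c12180 c13070 c2126 c11480 c4396 (k4 c1479 c12510 c2125 c7551 k0)) (by decide +kernel)
def c13703 : PP 8 4 T 0x1800002000000000040040050000401154100000000000009000400000080088100200 := rS 0x32c14fca34828596275f8e06e0f1a9bd6a8f2ed2d58c53999d569b1082c08c13ac44b676 (k8 c425 c92 c4411 c11025 c1893 c1066 c84 c799 (k8 c6867 c4445 c13277 c13701 c1095 c6031 c4458 c4377 (k8 c800 c7420 c4378 c1059 c4376 c232 c4470 c1093 (k8 c353 c2026 c900 c13702 c938 c13689 c4313 c555 (k1 c4904 k0))))) (by decide +kernel)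
def c13704 : PP 8 4 T 0x11800000001000000040040050000001114100000000000009000404000080088100200 := rS 0x105459f99acb272f0464ba2a9a968756314e61113acc82010e8f4cea957aac2e6b849353621058117e6f7e22582758896d2e76 (k8 c425 c1193 c92 c4411 c11025 c1893 c678 c13567 (k8 c4378 c1093 c1066 c84 c799 c6867 c2338 c4316 (k8 c4442 c532 c4445 c4346 c4345 c13277 c2188 c56 (k8 c750 c3063 c3200 c353 c4300 c13701 c1095 c6031 (k8 c7276 c4458 c13703 c4453 c1857 c8081 c12709 c4474 (k4 c7113 c9060 c13690 c725 (k2 c4313 c4485 k0))))))) (by decide +kernel)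
def c13705 : PP 8 4 T 0x2000000000000040000000010042000000000020001000000000080080100020 := rS 0xfca3 (k2 c938 c13689 (k1 c555 k0)) (by decide +kernel)
def c13706 : PP 8 4 T 0x1000000000000000000000000100000000000000000200001000081000200 := rS 0x14e9168d290ec550990e492152552ec344b1c7e150991dc8b91c0362a555faed36793b14e121a0baad4a6b54c49331908b25027d1b83c6a6f219ecb25b1082d1e5d7e09c823d02159a69d (k8 c1233 c13660 c13642 c1066 c2188 c3063 c353 c13567 (k8 c4377 c800 c84 c799 c92 c63 c1225 c236 (k8 c4378 c1059 c4376 c232 c4379 c4380 c4305 c4300 (k8 c4364 c3070 c13249 c4345 c4442 c4444 c4445 c532 (k8 c13681 c4316 c2383 c425 c598 c6867 c11057 c1093 (k8 c13682 c13685 c13050 c4470 c13687 c13691 c4404 c4401 (k8 c4284 c4288 c4289 c678 c1209 c1193 c13695 c13700 (k8 c13704 c1069 c1070 c1739 c13697 c1652 c7619 c4426 (k2 c13705 c13601 (k1 c13698 k0)))))))))) (by decide +kernel)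
def c13707 : PP 8 4 T 0x2000000001000000000000000000000000100000000000000000000001000081000200 := rS 0x1ac2d1258a05063537bf0867b02104ac45 (k8 c13706 c13642 c3063 c1066 c1225 c236 c13567 c4378 (k8 c1059 c4306 c4380 c4304 c13006 c13014 c4442 c532 k0)) (by decide +kernel)
def c13708 : PP 8 4 T 0x4802000000001000000011000000001444000000400140009000000000000000400200 := rS 0xe4c20a440da9957aad2a032c8840e0b (k8 c84 c30 c799 c63 c12975 c13478 c4445 c4346 (k4 c1071 c9753 c4487 c13647 (k2 c7287 c385 (k1 c1087 k0)))) (by decide +kernel)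
def c13709 : PP 8 4 T 0x28000000000001000000010000400000000040000400000001000000400000001000220 := rS 0x141f9d5867b (k4 c1225 c4362 c4417 c4356 (k2 c13510 c384 k0)) (by decide +kernel)
def c13710 : PP 8 4 T 0x20802000000001000000010000000000000040000400100009000100001000081000200 := rS 0x892884c2a53148aa229668a4c7d17598ec021d1e8b4ce9d0da6d82ab0b9ac0887 (k8 c4440 c1066 c4442 c532 c4445 c4450 c4448 c424 (k8 c1233 c13277 c2356 c2188 c56 c750 c3062 c3200 (k8 c13709 c4471 c3067 c458 c13708 c4336 c1194 c776 (k4 c4712 c2220 c1639 c1644 (k2 c13072 c2109 k0))))) (by decide +kernel)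
def c13711 : PP 8 4 T 0x20802000000001000000010000000000000040000400100008000100001000081000200 := rS 0x12aad49b0d2e2a328fe0a5401964420b039047a670230532ab (k8 c4445 c1071 c4450 c1066 c13277 c2188 c3063 c30 (k8 c84 c799 c63 c12975 c13710 c4406 c8954 c1647 (k4 c266 c1193 c9009 c1070 (k2 c6230 c1694 (k1 c7972 k0))))) (by decide +kernel)
def c13712 : PP 8 4 T 0x21800002000002000040014000000001004145000400100009000000000040085000200 := rS 0x6482a40c675532b2225b5999d36c14cabd5647098558e974a8344eb91f8e06e0f1a9bc7a04 (k8 c1066 c2188 c4378 c1059 c4376 c232 c4470 c4288 (k8 c1201 c353 c13050 c13695 c1193 c4289 c4284 c4401 (k8 c4404 c4445 c4346 c1071 c4450 c4448 c13277 c3200 (k8 c92 c7287 c7972 c13680 c11025 c820 c13601 c9062 (k2 c4478 c13699 k0))))) (by decide +kernel)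
def c13713 : PP 8 4 T 0x800000001000000000000000000000004100000000000001000000001040081000200 := rS 0x10431ab4ca7539c5d8411649f4b26d598cc169d4da150e5114a5d2a0d13ae47ee48405cd677459a436c51dc608641228e22a3707b4c6a6f1e810acfc (k8 c13567 c13642 c1066 c2188 c4378 c1059 c13660 c4376 (k8 c232 c13707 c4470 c13706 c3063 c236 c4472 c3062 (k8 c4530 c424 c13396 c13509 c9124 c4442 c532 c4465 (k8 c13711 c4288 c1201 c353 c13050 c13695 c1193 c4402 (k8 c4405 c4440 c6224 c4448 c1233 c84 c6309 c3200 (k8 c9753 c63 c4379 c4305 c4300 c13712 c4362 c1087 (k4 c10189 c7044 c13185 c7153 (k2 c4481 c5842 k0)))))))) (by decide +kernel)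
def c13714 : PP 8 4 T 0x800000001000000000000000000000000100000000000001000000001040081000200 := rS 0x48a98c8c3493f1a69d4da650a0d8a89c8e130ab1d2e3f724202e6b3ba2c08690db147718219048a56 (k8 c13642 c13706 c3063 c236 c4472 c3062 c4530 c424 (k8 c13396 c1066 c13509 c9124 c4442 c532 c4465 c13711 (k8 c4288 c1193 c4289 c4284 c4401 c4404 c353 c13707 (k8 c13050 c6224 c1071 c4448 c1233 c13660 c13567 c13713 (k4 c3069 c1070 c13680 c13699 (k1 c13601 k0)))))) (by decide +kernel)
def c13715 : PP 8 4 T 0x800000001000000000000000000000000100000000000001000000001000081000200 := rS 0x24142a63230cea8931c4454956496cdab31e99d3a9b4ca141a2757aad0e1563ae471151b83da63537bf12e3f724202e6b3ba2c08690db147718219048a56 (k8 c13642 c13706 c3063 c236 c4472 c3062 c4530 c424 (k8 c13396 c1066 c13509 c9124 c4442 c532 c4465 c13711 (k8 c4288 c1193 c13567 c4378 c1059 c13660 c4376 c232 (k8 c13707 c4470 c1201 c4289 c4284 c4440 c4445 c4346 (k8 c353 c13050 c6224 c1071 c4448 c1233 c13277 c2188 (k8 c3200 c9753 c92 c4305 c13695 c13714 c4411 c1606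 (k8 c13072 c11025 c4958 c13181 c13680 c1736 c13601 c13705 k0))))))) (by decide +kernel)
def c13716 : PP 8 4 T 0x800000001000000000000000000000000100000000000000000000001000081000200 := rS 0x12b1156a4c5465829512e3f724202eab3580cb2210581c7a674eb1476694581136c18c10d32770d9148256 (k8 c13642 c3063 c13706 c424 c9124 c1071 c236 c4472 (k8 c4450 c4448 c1066 c13509 c13396 c3062 c4530 c1233 (k8 c13277 c2188 c30 c84 c799 c63 c12975 c4442 (k8 c4445 c532 c4465 c13711 c4288 c1193 c13715 c4406 (k4 c1647 c266 c1070 c6230 (k2 c4411 c1694 (k1 c6031 k0))))))) (by decide +kernel)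
def c13717 : PP 8 4 T 0x4000000001001000010011000000001514000000000000000000010000840080000000 := rS 0x5256b092eaf (k4 c789 c1194 c13501 c13185 (k2 c13656 c2032 k0)) (by decide +kernel)
def c13718 : PP 8 4 T 0x1001000000000000000000000100000000000001000000001000081000200 := rS 0xa75ea4570c35b94d8e2a68a4c7d174a8451e5d019644207598f53abf628ed169b60c6086993b86c82a91744c66042b02c9e388a8dc1ed31a9bdf845 (k8 c13706 c13567 c4378 c1059 c13660 c4376 c232 c13707 (k8 c4470 c450 c84 c13642 c1066 c6309 c13716 c4469 (k8 c787 c3063 c424 c9124 c1071 c236 c4472 c4450 (k8 c4448 c13509 c3062 c4530 c6330 c1233 c2188 c3200 (k8 c30 c799 c63 c12975 c4377 c800 c4300 c13478 (k8 c13709 c4471 c3067 c458 c13717 c2227 c292 c1162 (k4 c13656 c13502 c3215 c1207 (k2 c13601 c9059 k0)))))))) (by decide +kernel)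
def c13719 : PP 8 4 T 0x1001000000000000000000000100000000000000000000001000081000200 := rS 0x156514aabd5a9361a5cc42a14994a63f8295006591081c021d1e99d3ac51d9a5831821a64ee1b229045d1319810ac0b (k8 c84 c13642 c1066 c6309 c13716 c4469 c3063 c13706 (k8 c424 c9124 c1071 c236 c4472 c4450 c13396 c3062 (k8 c4530 c1233 c13277 c2188 c56 c750 c30 c799 (k8 c63 c12975 c13718 c4406 c8954 c9029 c1647 c1599 (k8 c266 c267 c1193 c9009 c1070 c6230 c788 c1694 (k2 c3549 c9757 (k1 c6161 k0))))))) (by decide +kernel)
def c13720 : PP 8 4 T 0x21000000001000000040000400000001101500000000000000000110000800000000200 := rS 0x974526af14e9b5493c7037078d4defc (k8 c13567 c4378 c1059 c4376 c232 c4470 c450 c787 (k4 c4448 c13601 c9059 c1992 (k2 c4454 c1858 (k1 c7248 k0)))) (by decide +kernel)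
def c13721 : PP 8 4 T 0x400002001002000000000010044001112000000000140009000140000040080001000 := rS 0x22e73611d55a7e82a4c926508b241e7d36acd8a3b4db0630412384c2ac71228d2e3f (k8 c4288 c1193 c938 c1154 c4289 c4284 c4401 c4404 (k8 c3063 c4472 c4450 c4448 c3062 c4530 c3200 c9753 (k8 c4379 c4376 c4305 c4300 c13699 c282 c1070 c9269 (k4 c2107 c10107 c595 c6161 (k2 c11990 c4362 (k1 c4481 k0)))))) (by decide +kernel)
def c13722 : PP 8 4 T 0x1400002001002000000000010044001002040000400140009000141000000080001000 := rS 0xa1324158675888a92ac92dacc091820a642ac74b8fd0e6d (k8 c9753 c11158 c4288 c1193 c4289 c4284 c1071 c3063 (k8 c4472 c1066 c3200 c92 c4305 c13695 c13721 c4411 (k4 c11025 c4958 c9062 c4904 (k2 c1736 c13705 k0)))) (by decide +kernel)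
def c13723 : PP 8 4 T 0x1000000000000000000000000100000000000000000000001000081000200 := rS 0x2562293568a8cb052a2415eb9558a47e51720ba263806c55329b3ba2cd2c58c2fc36454e8dc1e353790d1e5d7e00cb2210389d663b208cc163d33810acd3 (k8 c13660 c13642 c1066 c13277 c2188 c84 c6309 c3063 (k8 c3062 c3200 c353 c30 c799 c63 c12975 c13567 (k8 c4377 c800 c236 c4378 c1059 c4376 c232 c1233 (k8 c13706 c424 c6330 c4472 c4530 c13396 c13509 c9124 (k8 c4448 c1071 c13707 c13050 c4470 c13716 c4469 c13719 (k8 c4405 c4288 c4402 c5962 c1201 c788 c13720 c13722 (k8 c4406 c1647 c266 c6230 c1070 c4411 c1694 c6342 k0))))))) (by decide +kernel)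
def c13724 : PP 8 4 T 0x1200000000001000040400000000000041501510004000009040008002044011015200 := rS 0x63ad898b55c92ce4a550852181b0b8052a032c8840e0b1c0dc6a9f (k8 c4414 c1059 c232 c4470 c84 c30 c799 c63 (k8 c12975 c13478 c750 c1911 c2232 c4486 c12456 c4551 (k8 c4385 c385 c1914 c3085 c1618 c2108 c11040 c413 (k1 c1162 k0)))) (by decide +kernel)
def c13725 : PP 8 4 T 0x1200000000001000040000000080000000101510004000109040008002040081014200 := rS 0x63a8098a62592448b94832c6e8f1786c2e010e8344e97 (k8 c1194 c353 c13050 c56 c750 c1911 c2232 c61 (k8 c800 c232 c8140 c13724 c3215 c1154 c371 c1374 (k4 c9055 c2108 c908 c413 (k1 c4212 k0)))) (by decide +kernel)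
def c13726 : PP 8 4 T 0x5000000000001000040010000000001100101511004000109000000002040081014200 := rS 0x29c486a4818d121539abd5665882b52e6d598043a6717c4c36694d90d2a032c8840e0b0689c9e381b8d48a931f0f4083b (k8 c3062 c1066 c2188 c4471 c3067 c297 c1059 c232 (k8 c4470 c450 c353 c13050 c84 c30 c799 c63 (k8 c12975 c13478 c236 c1966 c1878 c2232 c4441 c61 (k8 c13277 c56 c750 c3200 c9753 c1194 c2047 c4487 (k8 c7044 c4415 c13725 c11990 c385 c7172 c7153 c12456 (k4 c12794 c1154 c2008 c9055 k0)))))) (by decide +kernel)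
def c13727 : PP 8 4 T 0x1001000000000000000001000100000000000001000000000000081000200 := rS 0x1c5974b5c1496e7f449458e130a8a9a23e8b8e01a7962c5630452e84502833e8dc1e3537bf0f6210589d663b1eb4c5f134d90d16044c9dc828543c202e010e9583630 (k8 c13723 c2232 c13642 c56 c750 c1911 c4465 c4440 (k8 c4321 c3063 c9124 c1071 c1066 c13509 c236 c1966 (k8 c4441 c61 c13660 c2188 c3062 c3200 c353 c84 (k8 c799 c1225 c13567 c4378 c1059 c4376 c232 c4379 (k8 c4306 c4380 c4300 c4377 c297 c5755 c10618 c4530 (k8 c4447 c13050 c4470 c13709 c4471 c458 c13726 c2220 (k8 c1639 c2227 c1645 c7030 c7517 c1162 c2109 c13502 (k4 c4456 c2023 c1473 c8242 k0)))))))) (by decide +kernel)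
def c13728 : PP 8 4 T 0x2200000001000000000020000000002050100000000000000000008000000081000200 := rS 0x470d50095724f67949821140a0c6e0f1a9bd1e5d7e09da62f42c202e010e958363061a8d569f5bad49a44248e54e91 (k8 c4352 c906 c4348 c370 c1232 c378 c4389 c4353 (k8 c4414 c4415 c4337 c3224 c13723 c2232 c13642 c56 (k8 c750 c1911 c4465 c4321 c61 c13660 c353 c13567 (k8 c4377 c800 c4378 c1059 c4376 c232 c4306 c4380 (k8 c4300 c195 c1249 c13376 c421 c13283 c9055 c11040 (k2 c4329 c771 (k1 c4467 k0))))))) (by decide +kernel)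
def c13729 : PP 8 4 T 0x2000000001001000000000000000000000100000000000001000008000040081000200 := rS 0x484f11aa61aa03ac14288929b154e495aadd223908a05066f1b83cda8f2ebf04eb319b4c5f1334a150f080b8043a1b22271a2a34f84cca5155c422e9501964420705a4c762d021592e30 (k8 c13723 c1194 c13642 c1066 c2356 c3062 c9125 c84 (k8 c30 c799 c63 c12975 c13478 c4356 c4487 c4415 (k8 c1916 c7044 c530 c4414 c4337 c300 c13727 c1232 (k8 c2232 c56 c750 c1911 c4465 c4440 c4321 c1878 (k8 c4441 c61 c13660 c6309 c3200 c353 c13567 c4377 (k8 c800 c9753 c4376 c232 c4378 c4306 c4380 c4300 (k8 c4348 c4352 c4353 c4389 c370 c906 c13728 c419 (k8 c4742 c7856 c4308 c590 c7050 c4329 c7768 c771 (k2 c4646 c4467 (k1 c9055 k0)))))))))) (by decide +kernel)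
def c13730 : PP 8 4 T 0x1200000000001000040020000000000041501510004000009000008002044011015200 := rS 0x17cb65ab2942bb4a80cb2210382d3e4f5c8e06e35 (k8 c1059 c232 c4470 c3270 c2238 c4414 c84 c30 (k8 c799 c63 c12975 c13478 c10310 c4551 c13724 c1789 (k2 c11040 c1757 (k1 c3261 k0)))) (by decide +kernel)
def c13731 : PP 8 4 T 0x2002001500000000108040000040400085010000 := rS 0xa65f890021d (k4 c56 c750 c1154 c3259 (k2 c9055 c907 k0)) (by decide +kernel)
def c13732 : PP 8 4 T 0x1001000000000000000000000100000000000001000008000040081000200 := rS 0x5b2d68a7582b1594a10a2ed224f1c0362a9f51c422e1140a0cfa37078d4de8f2ebf04eb3698bd0b080b8043a1b1825406591081c17195ea712e931d8b40856 (k8 c13642 c1066 c2356 c3062 c9125 c1194 c13727 c3183 (k8 c4368 c84 c30 c799 c63 c12975 c13478 c13723 (k8 c2232 c56 c750 c1911 c4465 c4321 c61 c13660 (k8 c3200 c353 c13567 c4377 c800 c4378 c1059 c4376 (k8 c232 c4379 c4306 c4380 c4300 c4356 c4487 c4337 (k8 c4414 c13729 c13050 c4470 c2238 c13731 c10310 c12456 (k8 c4551 c13724 c13730 c4308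 c590 c4455 c1709 c7050 (k1 c7634 k0)))))))) (by decide +kernel)
def c13733 : PP 8 4 T 0x2000000000001000040000000100000000100000004001109000004000040080000200 := rS 0x3122351399d2a032c8840e97498ec5a153a82c7a04 (k8 c1066 c2188 c84 c11627 c384 c2356 c3062 c9125 (k8 c1194 c30 c799 c63 c12975 c13478 c13277 c353 (k4 c1059 c4352 c12474 c13012 k0))) (by decide +kernel)
def c13734 : PP 8 4 T 0x1001000000000000000000000100000000000001000000000040081000200 := rS 0x27a4071151f975621140a0cc237078d4defc01964420b03b4c5e858405c021d2b06c609c (k8 c13727 c13723 c2232 c13642 c56 c750 c1911 c4465 (k8 c4321 c61 c13660 c30 c84 c799 c63 c12975 (k8 c13567 c4378 c1059 c4376 c232 c4302 c4306 c4380 (k8 c4300 c4304 c4377 c13732 c13733 c4470 c11916 c2238 (k1 c13731 k0))))) (by decide +kernel)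
def c13735 : PP 8 4 T 0x1001000000000000000000000100000000000001000000000000081000200 := rS 0x4c662a144254893c903806c54ca47659d572ae638fcfed082224a2530985454c322270bab108b2502833e8dc1e3537bf04eb31982c7ad317a2c088543c202e010e9583630 (k8 c13723 c2232 c13642 c56 c750 c1911 c4465 c4440 (k8 c4321 c1066 c13509 c61 c13660 c2188 c84 c6309 (k8 c3200 c353 c13567 c4378 c1059 c4376 c232 c4379 (k8 c4306 c4380 c4305 c4300 c4304 c4377 c13727 c1232 (k8 c3224 c13734 c2220 c1639 c2230 c1645 c7030 c4464 (k8 c2109 c4313 c459 c2242 c301 c7328 c11627 c8140 (k8 c3713 c1776 c9531 c13050 c4470 c2107 c2238 c13731 (k4 c12180 c12454 c988 c989 (k2 c8354 c2062 k0))))))))) (by decide +kernel)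
def c13736 : PP 8 4 T 0x1100002000000000020010010000040055501000000000000040000002000005401000 := rS 0x9a4b67a956d0c08a05060f (k8 c4376 c4306 c4380 c4300 c4486 c10674 c4385 c1796 (k2 c1914 c381 (k1 c2108 k0))) (by decide +kernel)
def c13737 : PP 8 4 T 0x1001000000000000000001000100000000000000000000000000081000200 := rS 0x9a4b122409e3806b418b152284502831b83c6a7b4789da62f89a6c86993ba16101b299442e300087572b3379d52ec320a4d466501964420b0399e0a5d7e4452a2a60c587e541e8107656 (k8 c13642 c3062 c1066 c2188 c13735 c8954 c4471 c4420 (k8 c266 c1694 c4411 c13567 c4377 c4406 c13277 c30 (k8 c84 c799 c63 c12975 c1647 c13617 c1070 c3063 (k8 c9009 c1193 c1686 c4378 c3200 c4548 c56 c750 (k8 c13723 c1911 c1605 c9029 c2232 c4465 c4321 c9124 (k8 c1071 c236 c1966 c4441 c61 c13660 c353 c800 (k8 c1225 c1059 c4376 c232 c4306 c4380 c4300 c297 (k8 c10618 c7718 c6159 c13050 c4470 c450 c13736 c1154 (k2 c1374 c2219 (k1 c2108 k0)))))))))) (by decide +kernel)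
def c13738 : PP 8 4 T 0x2000100000000000000040011000046054101500104000108000404442080011010200 := rS 0x2527a814e485ba447235478045e1b (k8 c2232 c61 c750 c800 c1059 c4348 c4352 c4353 (k4 c4559 c906 c2125 c2239 (k2 c9055 c1735 k0))) (by decide +kernel)
def c13739 : PP 8 4 T 0x1001000000000000000000000100000000000000000000000000081000200 := rS 0x14a623468a4c25b3d4ab6862ed224f1c0362abd8ca712b1151a4d6a975ca7ca275638a8ca47298fe0a5408a05067d1b83c6a6f47975f8032c884160713acc763d33811a62f42c202e010e9583630 (k8 c13723 c2232 c13642 c56 c750 c1911 c4465 c4321 (k8 c61 c13660 c1066 c13277 c2188 c3062 c3200 c353 (k8 c30 c84 c799 c63 c12975 c13567 c4377 c800 (k8 c4378 c1059 c4376 c232 c4379 c4306 c4380 c4300 (k8 c13735 c4406 c8954 c9029 c1602 c1647 c266 c2194 (k8 c1686 c1605 c6237 c4548 c1193 c7513 c1070 c13617 (k8 c4411 c1694 c13737 c4368 c3183 c13738 c13050 c4470 (k8 c2238 c13731 c10310 c4486 c10674 c4385 c1797 c1914 (k4 c2108 c4451 c381 c7634 (k2 c4475 c4429 k0)))))))))) (by decide +kernel)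
def c13740 : PP 8 4 T 0x1002000000000000400001000000000000000000000051402040105400020 := rS 0x460f09b1fb0510878414c2a8b (k8 c13509 c4284 c4290 c4465 c4440 c13058 c1985 c4288 (k4 c1966 c13053 c5755 c4447 k0)) (by decide +kernel)
def c13741 : PP 8 4 T 0x2000100000000000000040010000044054500000104000000000404440054000000200 := rS 0x28090b55ba447235 (k8 c1059 c4348 c4352 c4353 c4389 c4559 c2125 c11453 k0) (by decide +kernel)
def c13742 : PP 8 4 T 0x1000000000000000000000000100000000000000000000000040081000200 := rS 0x2dd6abe2612d4b0c4893c700d8a91138a349a55729f32b2ceac182a202281419f46e0f1a9bc862105a3cbafc13acc76411e99da62f458110a878405c021d2b06c8e1514b1d5a531825c7ee4 (k8 c13739 c4288 c1193 c13723 c4290 c2046 c4289 c4402 (k8 c4284 c4404 c2232 c13642 c56 c750 c1911 c4465 (k8 c4440 c4321 c1066 c13509 c61 c13660 c13277 c2188 (k8 c3063 c3062 c3200 c353 c13567 c4377 c800 c84 (k8 c799 c236 c4378 c1059 c4376 c232 c4379 c4306 (k8 c4380 c4300 c13058 c4314 c1985 c5917 c2024 c557 (k8 c6237 c4548 c803 c1070 c13617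 c13740 c1232 c13741 (k8 c13050 c4470 c2238 c13731 c4486 c4385 c1914 c2108 (k4 c379 c1518 c1247 c7468 k0))))))))) (by decide +kernel)
def c13743 : PP 8 4 T 0x1000000000000000000000000100000000000001000000000000081000200 := rS 0x4c6612d44a5862449e3806a722b193fc10caae68224c6b108b250283309f46e0f1a9bc420b47975f8275999da62f4d90d168543c202e010e84ca2155694d86993b86c60413a96d73114b8fdc895150f40856 (k8 c13642 c1066 c2188 c13742 c1694 c13739 c4288 c1193 (k8 c4411 c6781 c92 c11025 c3063 c13723 c2232 c9124 (k8 c1071 c4958 c4290 c2046 c4284 c4405 c4401 c56 (k8 c750 c1911 c4465 c4440 c4321 c13509 c236 c1966 (k8 c61 c13660 c13277 c3200 c353 c13567 c4377 c800 (k8 c84 c799 c4378 c1059 c4376 c232 c4379 c4302 (k8 c4306 c4380 c4305 c4300 c4304 c1606 c4794 c2109 (k8 c301 c1776 c4904 c4313 c9062 c9531 c5755 c13050 (k8 c4470 c2238 c13731 c4486 c4385 c7315 c1914 c989 (k2 c2108 c2062 k0)))))))))) (by decide +kernel)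
def c13744 : PP 8 4 T 0x2000100000000000000040000000044054101500404000108000404442080011010200 := rS 0x272269b21a656a8f3a96d7311 (k8 c4411 c6781 c92 c11025 c800 c7420 c1071 c236 (k4 c1966 c4441 c12045 c13738 k0)) (by decide +kernel)
def c13745 : PP 8 4 T 0x1100002001000000000004000000041014500000000000000540055402000085401000 := rS 0x2692c4890683148a1140a0c1e2f89a6d0b085cb062c97 (k8 c1193 c4487 c4420 c6781 c4465 c4321 c1966 c4441 (k8 c61 c4376 c4306 c4380 c4300 c297 c7718 c6159 (k4 c13736 c1154 c1374 c2219 (k1 c2108 k0)))) (by decide +kernel)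
def c13746 : PP 8 4 T 0x1000000000000000000000000100000000000000000000000000081000200 := rS 0x15ec468d14984b67a956d0c5da457b194e13c700d8aa8d269f32c14a8b961a56222a4bb1c7e512394dc8854cc20ee174d86e262f1834cce3d009047604138742281419f46e0f1a9bc868f2ebf00659109581607 (k8 c30 c84 c13642 c799 c63 c12975 c13567 c4377 (k8 c800 c236 c4378 c1059 c4376 c232 c4379 c4306 (k8 c4380 c4300 c56 c353 c1066 c3062 c3063 c750 (k8 c2188 c13277 c13660 c13723 c61 c4441 c2232 c1966 (k8 c1911 c9124 c4465 c1071 c4321 c13739 c4290 c4404 (k8 c4405 c4288 c4289 c1193 c13742 c4411 c1694 c4958 (k8 c6781 c13743 c4406 c1647 c6237 c1070 c13617 c13744 (k8 c13050 c4470 c2238 c13745 c4368 c3183 c13731 c10310 (k8 c4486 c10674 c4385 c1797 c1914 c2108 c4451 c381 (k2 c7634 c1774 (k1 c8820 k0))))))))))) (by decide +kernel)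
def c13747 : PP 8 4 T 0x2000000001000000000000000100000000010500004000000800100400000001000200 := rS 0x17208d4867b (k4 c1225 c236 c1059 c2035 (k2 c2030 c13014 k0)) (by decide +kernel)
def c13748 : PP 8 4 T 0x2000000001001000000000000000001000100000000000000000008000040001000200 := rS 0x7742c4c608b299156281419bdf86d4ca6c86691986c76870ab4450af44c10c65588a583865338b400050f80c420b0396cb256 (k8 c13642 c63 c92 c30 c84 c799 c12975 c13746 (k8 c262 c4461 c2917 c7399 c491 c4466 c1179 c4336 (k8 c8954 c755 c4478 c4314 c4631 c1180 c1760 c646 (k8 c7313 c144 c5876 c2957 c757 c236 c765 c3051 (k8 c9753 c13567 c4378 c4306 c4380 c4304 c1219 c13747 (k4 c7874 c13394 c4441 c5976 (k2 c11833 c12045 k0))))))) (by decide +kernel)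
def c13749 : PP 8 4 T 0x4000000001001000010010000040002000004000001140001000040004040040000202 := rS 0x302991116c320c662615 (k8 c646 c4344 c4368 c3058 c1214 c11588 c4472 c11827 (k2 c13394 c296 k0)) (by decide +kernel)
def c13750 : PP 8 4 T 0x1001000000000000000000001100000000000000000008001040001000200 := rS 0xd250b24c28f2ea662abf1a9bdf82e44c122318209495663329ac363b22a75a22857a590e15629562e671696c6669000140659039b4861c0f884ac0b (k8 c84 c13642 c799 c13746 c4466 c236 c9753 c30 (k8 c63 c12975 c262 c4461 c757 c2957 c92 c2917 (k8 c7399 c4356 c8954 c3265 c646 c7313 c1179 c4631 (k8 c1180 c1760 c13749 c1219 c144 c5876 c493 c491 (k8 c755 c1573 c13513 c2035 c4472 c4336 c4478 c4314 (k8 c13331 c13567 c4378 c1059 c6330 c13748 c3051 c4377 (k4 c800 c4302 c4305 c12260 (k2 c13720 c13522 k0)))))))) (by decide +kernel)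
def c13751 : PP 8 4 T 0x1001000000000000000000000100000000000000000008001040001000200 := rS 0xb95034872a34832c5c41292acd6c9308dc1e1b1dadd130431c44cb155f9153ad1142bd2c870ab14ab17338b4b633348000a032c81cda1c0f884ac0b1a9bdf843 (k8 c236 c13567 c4378 c1059 c84 c13642 c799 c13746 (k8 c4466 c9753 c30 c63 c12975 c262 c4461 c757 (k8 c2957 c92 c2917 c7399 c4356 c8954 c3265 c646 (k8 c7313 c1179 c4631 c1180 c1760 c13749 c1219 c6330 (k8 c13748 c491 c4336 c755 c4478 c4314 c3172 c144 (k8 c5876 c4376 c232 c4302 c4305 c493 c1573 c13513 (k8 c2035 c13331 c3924 c13750 c939 c4613 c4470 c13522 (k2 c8183 c899 k0)))))))) (by decide +kernel)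
def c13752 : PP 8 4 T 0x1100000000001000000100000000000001100000000041001000000050140020000002 := rS 0x3494239 (k4 c1139 c12260 c4470 c13522 k0) (by decide +kernel)
def c13753 : PP 8 4 T 0x1001000000000000000000000100000000000000000008000040001000200 := rS 0x2e178a0690e49ea354a408313184548a9d68c455e87143152cb72ac5d92611b83c6a6f7e10cda990e1a46615338b4b6000287c0659109581607 (k8 c30 c84 c13642 c799 c63 c12975 c13746 c262 (k8 c4461 c92 c2917 c7399 c646 c2957 c757 c4466 (k8 c3051 c9753 c236 c13567 c4378 c1059 c4376 c232 (k8 c4302 c4305 c4356 c8954 c3172 c1179 c3265 c1180 (k8 c7313 c4631 c4336 c1760 c13749 c1219 c13748 c13751 (k8 c4441 c1912 c13752 c978 c939 c299 c4613 c4470 (k4 c13522 c6022 c899 c5089 k0))))))) (by decide +kernel)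
def c13754 : PP 8 4 T 0x2000002001000000000000400000000000001004000000000000150000000005000000 := rS 0xf1183bac5028337aed7a71 (k8 c4387 c4354 c4390 c4378 c4306 c4380 c4304 c9124 (k2 c4472 c2122 (k1 c4447 k0))) (by decide +kernel)
def c13755 : PP 8 4 T 0x2000002001001000000000400014000154000004001000000000155000000005000002 := rS 0x226c14230e3069 (k4 c757 c4472 c9009 c13754 (k2 c4450 c7972 (k1 c5976 k0))) (by decide +kernel)
def c13756 : PP 8 4 T 0x2000000001001000000000000000001040100000000410000000005000000001000200 := rS 0x8b44982c53b10156a356c14eab958b24f66d4797532b349a6cd2950d99c5a000280c0e5b2cafc8a1c0f884ac0b1a9bdf843 (k8 c236 c13567 c4378 c1059 c84 c13642 c799 c13746 (k8 c4466 c1219 c6330 c63 c92 c30 c12975 c262 (k8 c4461 c2917 c7399 c5876 c2710 c757 c765 c3050 (k8 c3197 c3051 c4377 c800 c9753 c1225 c4305 c4304 (k8 c7514 c11627 c9531 c6230 c13617 c13092 c13755 c1063 (k4 c3060 c1853 c11833 c13683 (k1 c7641 k0))))))) (by decide +kernel)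
def c13757 : PP 8 4 T 0x2000000001001000000000000000001000100000000000000000000001040001000200 := rS 0x11260aaca2a38831512ad149d18e548b8ec786b36a3cba9959a4d366919a54ca672da5c7e2d00014065903afc8a1c0f884ac0b1a9bdf843 (k8 c236 c13567 c4378 c1059 c84 c13642 c799 c13746 (k8 c4466 c1219 c6330 c30 c63 c12975 c262 c4461 (k8 c2917 c13753 c11783 c92 c7399 c491 c2710 c2957 (k8 c757 c765 c3050 c3197 c3051 c4377 c800 c9753 (k8 c493 c13756 c89 c4416 c234 c2149 c235 c7860 (k8 c7821 c9049 c1783 c11368 c4241 c3618 c4415 c6869 (k2 c13266 c13683 k0))))))) (by decide +kernel)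
def c13758 : PP 8 4 T 0x2000000001001000000000000000001000100000000000000000000000040001000200 := rS 0x1dd0b1318205066f7e1b5329b0e10cd2000287c0659109581607 (k8 c30 c84 c13642 c799 c63 c12975 c13746 c262 (k8 c4461 c757 c236 c4466 c765 c3051 c9753 c13567 (k8 c4378 c4306 c4380 c13757 c4441 c5976 c11833 c12045 k0))) (by decide +kernel)
def c13759 : PP 8 4 T 0x2000000001001000000000000000000000100000000000001000000000040001000200 := rS 0x882853e285c9fc92d04498c7ab108b256693138d4de334a9942a671c9c56aad4b8b4a63f45a1e106b34c4da6313686cb6000280cb20753a45f8c7558b8884121c65381c0f884ac0b (k8 c84 c13642 c799 c13746 c4466 c13758 c4368 c236 (k8 c3058 c4472 c1220 c1845 c7340 c13567 c4352 c906 (k8 c30 c63 c12975 c262 c4461 c92 c5876 c9753 (k8 c296 c13602 c4344 c757 c9032 c4479 c4440 c4322 (k8 c13753 c418 c2917 c11783 c946 c4389 c4387 c4348 (k8 c7399 c646 c491 c2710 c2957 c4378 c1059 c873 (k8 c3050 c3197 c4305 c4300 c4304 c234 c755 c7314 (k8 c13394 c12434 c12366 c7514 c13266 c3695 c4212 c7058 (k1 c11255 k0)))))))))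 (by decide +kernel)
def c13760 : PP 8 4 T 0x100000001000040140020400000010000010014051000000004010004000000412 := rS 0x18c527f399207917 (k8 c4361 c7514 c13269 c1085 c7096 c7860 c7153 c8222 k0) (by decide +kernel)
def c13761 : PP 8 4 T 0x2000000001001000000000000000000000100000000000000000000000040001000200 := rS 0x14a5f11121530d502e53f052a28d8ed3170c4886b42a9c831989a716a715ba45928141984fa4336a3cbab34989c383537bf0d2950d994ce5b4b8fc5a000287c06591082c0e56 (k8 c13642 c30 c84 c799 c63 c12975 c13746 c262 (k8 c4461 c2917 c13753 c11783 c92 c7399 c491 c5876 (k8 c2710 c757 c13567 c4378 c1059 c4466 c873 c3050 (k8 c3197 c4377 c800 c9753 c236 c4379 c4302 c4306 (k8 c4380 c4305 c4352 c4353 c4387 c4389 c13758 c4344 (k8 c4368 c3058 c906 c5976 c9032 c4472 c296 c1220 (k8 c13602 c7340 c4241 c13759 c4406 c6237 c13760 c2125 (k4 c4329 c7768 c4212 c7307 (k2 c9868 c1302 (k1 c2119 k0)))))))))) (by decide +kernel)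
def c13762 : PP 8 4 T 0x800000000001000000011440004021514000000000000000014155150140000000000 := rS 0x1a0282733222bd5630d2eaf (k8 c4346 c11783 c9009 c4553 c7297 c7287 c901 c2114 (k2 c4468 c1480 (k1 c1760 k0))) (by decide +kernel)
def c13763 : PP 8 4 T 0x1800000001001000000001000004821514004000001554001015144150140004100200 := rS 0xac8833052d029858ec4062b3d5ebf1eaee8b43 (k8 c4423 c4453 c6870 c234 c6330 c4346 c1794 c8360 (k8 c13762 c1063 c1064 c3935 c13513 c1760 c5846 c4468 (k2 c2066 c4338 k0))) (by decide +kernel)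
def c13764 : PP 8 4 T 0x1000002001001000080000000400001514000000001040001000104005140005000202 := rS 0x53442b60ac345906102e8c1de26c1a1aad409f5aa8cfe5f5da988e230693492392597592613e8dc1e4334994d663438557235379d47a0b (k8 c84 c234 c11627 c4378 c1059 c7514 c646 c7313 (k8 c755 c493 c491 c757 c236 c4376 c232 c4379 (k8 c4302 c4305 c4377 c4375 c4280 c4281 c4282 c4371 (k8 c4372 c4374 c13602 c6870 c488 c7517 c11410 c7513 (k8 c11776 c2118 c2013 c4423 c12809 c13763 c11833 c4488 (k8 c4469 c4479 c1063 c4322 c9009 c9062 c6230 c13161 (k2 c2032 c7314 k0))))))) (by decide +kernel)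
def c13765 : PP 8 4 T 0x1000002001001000000000000000001010000000001040001000004005140025000202 := rS 0xef1361c598a89458ed56ad8204d407f4fa9546c72f889203869a1cc63d05975621164984fa37079ed32b34989c6a6f4d90cd2650aa5cd645 (k8 c1219 c493 c11783 c646 c491 c757 c236 c765 (k8 c4378 c1059 c873 c3050 c3197 c3051 c1225 c4376 (k8 c232 c4379 c4302 c4305 c4300 c4304 c4377 c84 (k8 c234 c755 c7313 c13764 c4470 c1139 c1140 c4647 (k8 c410 c938 c1302 c1300 c12366 c8715 c11097 c12805 (k8 c2740 c1741 c1062 c5853 c4314 c4530 c4471 c4362 (k2 c7641 c11833 (k1 c11277 k0)))))))) (by decide +kernel)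
def c13766 : PP 8 4 T 0x800000001001000000000000400000414040000001550002000144000000000000200 := rS 0xc143144c6893a1cc79175782d5aab82b147607 (k8 c30 c1601 c4530 c4406 c13092 c6230 c84 c4346 (k8 c7641 c4471 c1615 c235 c9049 c7153 c3618 c2120 (k2 c6869 c7043 k0))) (by decide +kernel)
def c13767 : PP 8 4 T 0x11008014801554000000000000000000000000000000000000 := rS 0xce (k2 c11987 c1796 k0) (by decide +kernel)
def c13768 : PP 8 4 T 0x400000001000000000000000400000000000000001150002000002005000000000212 := rS 0x448a40e0b56aae0a6b (k8 c493 c4406 c13092 c6230 c84 c30 c7860 c9049 (k1 c13266 k0)) (by decide +kernel)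
def c13769 : PP 8 4 T 0x1000002001000000080051011014001554000000001000000000405441000005000002 := rS 0x16ca6 (k2 c13602 c12155 (k1 c13767 k0)) (by decide +kernel)
def c13770 : PP 8 4 T 0x1001000000000000000001000100000000000000000000001040001000200 := rS 0x53a95525f11095203869ab986b55ca147ac1208ba307789b1556ad63a2c8e3b829517e4558a0506613e8dc1e35379b51e5d7e26566934d870866919a5436653396d2e3f16c54d6000287c0659109581607 (k8 c30 c84 c13642 c799 c63 c12975 c13746 c262 (k8 c4461 c493 c13761 c2917 c13753 c11783 c92 c7399 (k8 c491 c5876 c2710 c2957 c757 c236 c4466 c765 (k8 c3050 c3197 c3051 c13567 c4377 c800 c9753 c4378 (k8 c1059 c4376 c232 c4379 c4302 c4306 c4380 c4304 (k8 c1219 c6330 c13765 c4406 c1601 c1602 c1767 c250 (k8 c6230 c13092 c4530 c13766 c11833 c4488 c4469 c1063 (k8 c4450 c13768 c5976 c7514 c7513 c9009 c2127 c13769 (k8 c4470 c13720 c280 c1140 c4647 c978 c1843 c2742 (k1 c2119 k0)))))))))) (by decide +kernel)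
def c13771 : PP 8 4 T 0x1001000000000000000000000100000000000001000000001040001000200 := rS 0xa75297c44251c2a5a69009c35a07f31ac5928141984fa37078d4de8f2ebf0ca153396e2a8529ab52e3f45a1e1069369ad7a442090e321c51b1c5d1319a705a000287c06591082c0e56 (k8 c13642 c30 c84 c799 c63 c12975 c13746 c262 (k8 c4461 c2917 c13770 c2957 c4344 c4469 c7340 c4241 (k8 c4466 c4368 c236 c3058 c4472 c3180 c493 c9753 (k8 c757 c4479 c4440 c4322 c13753 c11783 c946 c2032 (k8 c5976 c13761 c92 c7399 c646 c491 c13567 c4377 (k8 c800 c4378 c1059 c4376 c232 c4379 c4302 c4306 (k8 c4380 c4305 c4304 c755 c12366 c13394 c7315 c1758 (k8 c4486 c11768 c979 c4470 c280 c1140 c4647 c1843 (k2 c2741 c2119 k0))))))))) (by decide +kernel)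
def c13772 : PP 8 4 T 0x11000002001001000080040110010000400000000001000000500405441000005000002 := rS 0xa5b4588cfa1b3577455b29892b5 (k8 c7513 c4281 c13602 c12155 c4453 c1978 c2066 c4424 (k4 c1797 c7634 c5846 c4429 (k1 c4475 k0))) (by decide +kernel)
def c13773 : PP 8 4 T 0x1001000000000000000000000100000000000000000000001040001000200 := rS 0x53aa54a5f112404a3869ae4a23d238eca8bd4394d8e44840b90aad20c66269c35975628141984fa37078d4defc36acd361c219a4661b3299cb6971f8b400050f80cb2210581cad15 (k8 c13761 c13642 c30 c84 c799 c63 c12975 c13746 (k8 c262 c4461 c2917 c13753 c11783 c92 c7399 c491 (k8 c5876 c2957 c757 c236 c4466 c765 c3197 c9753 (k8 c13567 c4378 c1059 c4376 c232 c4379 c4302 c4306 (k8 c4380 c4304 c4377 c493 c13770 c4344 c4368 c3058 (k8 c946 c5976 c4469 c4479 c4472 c7340 c2032 c4440 (k8 c3180 c13771 c1601 c1602 c13768 c1604 c7514 c13772 (k8 c4470 c280 c1139 c1140 c4647 c1843 c979 c2741 (k1 c2119 k0))))))))) (by decide +kernel)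
def c13774 : PP 8 4 T 0x1000000001001000080000000000000040100000000010001000004002000001000200 := rS 0x5493940bd5a9fcbea7238349ac9308dc1e8f49a553ac15c8d4de9f3ea8cbafc8841586870ac608a43209d47a8b599de266d4c870d263338b400050f80c420b0396cb256 (k8 c13642 c63 c92 c30 c84 c799 c12975 c13746 (k8 c262 c4461 c2917 c7399 c755 c757 c4466 c3051 (k8 c9753 c4441 c11833 c3197 c13524 c234 c11627 c1912 (k8 c236 c296 c4472 c646 c7313 c9009 c9062 c4478 (k8 c13567 c4377 c13617 c4379 c6237 c4378 c1059 c7514 (k8 c4450 c4368 c2710 c3050 c800 c4376 c232 c4302 (k8 c4305 c4282 c4371 c4374 c2006 c488 c7517 c7513 (k4 c7666 c2118 c6022 c7768 (k1 c299 k0))))))))) (by decide +kernel)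
def c13775 : PP 8 4 T 0x1000000001001000000000000000000040100000000010001000004002000001000200 := rS 0x18e5f1c34d469f0941586754398c7a5d5884592613e8dc1eb3138d4defc0a99c5a5b459de266d348000a032c81e304521905321c0f884ac0b (k8 c84 c13642 c799 c13746 c4466 c3051 c1912 c236 (k8 c296 c4472 c30 c63 c12975 c262 c4461 c757 (k8 c9753 c4441 c11833 c13524 c92 c2917 c7399 c646 (k8 c13567 c4378 c1059 c873 c3197 c4376 c232 c4379 (k8 c4302 c4305 c4300 c4304 c4377 c234 c755 c7313 (k8 c11627 c9009 c9062 c4464 c6237 c13617 c13774 c4470 (k2 c4647 c410 (k1 c11097 k0)))))))) (by decide +kernel)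
def c13776 : PP 8 4 T 0x2200000002000000000000 := rS 0x2c86 (k2 c1604 c1605 (k1 c3818 k0)) (by decide +kernel)
def c13777 : PP 8 4 T 0x1001000000000000000000000100000000000000000000000040001000200 := rS 0xaa882bc794a28b0c76532a3053b1868ab48a41184552e3f21a65261c16a54ca000287c0659109581607 (k8 c30 c84 c13642 c799 c63 c12975 c13746 c262 (k8 c4461 c491 c2710 c2917 c4466 c3050 c3051 c236 (k8 c13753 c11783 c13761 c13773 c1912 c296 c2047 c300 (k8 c4472 c4368 c4450 c13775 c9029 c1601 c13656 c13776 (k4 c4475 c6159 c4428 c11368 (k2 c6161 c4415 k0)))))) (by decide +kernel)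
def c13778 : PP 8 4 T 0x2400002000000000000000000000001500100000000100008000000000000000000002 := rS 0xee8540a0cde6d (k4 c9753 c4378 c4306 c4380 (k2 c5976 c11833 (k1 c12045 k0))) (by decide +kernel)
def c13779 : PP 8 4 T 0x2800002000002000000011400404001544100000000000008000000000000020000002 := rS 0x11656a8e20c937a3cba95 (k8 c2710 c4377 c800 c4378 c4305 c10647 c4337 c4338 (k2 c13683 c7641 k0)) (by decide +kernel)
def c13780 : PP 8 4 T 0x6110000000002000040000000000010000100000000000000000001010044400000000 := rS 0xb84f12546395bad6863b (k8 c4403 c8226 c4389 c4353 c4348 c9264 c7307 c4489 (k2 c7114 c1395 k0)) (by decide +kernel)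
def c13781 : PP 8 4 T 0x2000000001000000000000000004001000100000000000000000001000040001000200 := rS 0x2e4126089431788a5a1aa6893058abf22ac502833da656693138d4defc4d87086691d945a6e40d8000a1f01964420b0396cac91 (k8 c4352 c13642 c92 c30 c84 c799 c63 c12975 (k8 c13746 c262 c4461 c5876 c13777 c13532 c4405 c4403 (k8 c757 c236 c4466 c765 c13567 c4378 c1059 c873 (k8 c3050 c3197 c3051 c1225 c4306 c4380 c4304 c1219 (k8 c6330 c4530 c6869 c13778 c13260 c4330 c13779 c4336 (k4 c4360 c898 c13780 c773 (k2 c1995 c1990 (k1 c13014 k0)))))))) (by decide +kernel)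
def c13782 : PP 8 4 T 0x2000000001000000000000000000002040100000000000000000000001040001000200 := rS 0x1707582a7d468856c40cec91b83c868f2eacd26270e0d4defc4a9948e3b1fb1d16130d96cd6ab28abc664143c4cd26d318a5c8000287c0659109581607 (k8 c30 c84 c13642 c799 c63 c12975 c13746 c262 (k8 c4461 c13777 c4402 c754 c9753 c757 c4344 c10041 (k8 c3058 c2957 c5815 c4405 c5962 c493 c92 c5876 (k8 c4401 c5853 c4289 c4288 c4403 c4404 c491 c2710 (k8 c13567 c4378 c1059 c4466 c873 c3050 c3197 c4377 (k8 c800 c236 c4376 c232 c4305 c920 c10647 c946 (k4 c12794 c4337 c4414 c5842 (k2 c5917 c13741 (k1 c4548 k0))))))))) (by decide +kernel)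
def c13783 : PP 8 4 T 0x400000000002000000001002000040100000500002080040000004150008000050011000000000002 := rS 0x1d188b9561fe08731fb1ce26b5594586af439b4c62926a9d222e898ce2317 (k8 c4360 c4336 c2957 c4344 c4469 c4352 c906 c1992 (k8 c4402 c754 c9753 c10041 c5815 c1214 c4405 c5962 (k8 c493 c4387 c4289 c4288 c1084 c5056 c10049 c5842 (k4 c13256 c947 c8522 c1784 k0)))) (by decide +kernel)
def c13784 : PP 8 4 T 0x2000000001000000000000000000000000100000000000000000001001040001000200 := rS 0x294d05693950a567894be483ac14cc96268b90aa720c4d39432eac59281419846e0f1a9bdf84336acc38693291c763f63b4d16130d96c72915bad4d6ab28b9066000287c06591082c0e56 (k8 c13642 c30 c84 c799 c63 c12975 c13746 c262 (k8 c4461 c2957 c13777 c4405 c5962 c493 c4389 c4353 (k8 c4352 c4348 c92 c5876 c4401 c5853 c13532 c4289 (k8 c4288 c4403 c4404 c491 c757 c4466 c3197 c9753 (k8 c236 c13567 c4378 c1059 c4376 c232 c4302 c4306 (k8 c4380 c4305 c4304 c4377 c8226 c13781 c4344 c3058 (k8 c906 c5976 c4469 c1992 c13782 c13783 c4310 c592 (k8 c4559 c9868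 c282 c1791 c1843 c2119 c787 c949 (k2 c452 c4785 (k1 c4426 k0)))))))))) (by decide +kernel)
def c13785 : PP 8 4 T 0x1000000000000000000000000008000000000000100000000000005000000 := rS 0x2f09 (k2 c4440 c1836 (k1 c4465 k0)) (by decide +kernel)
def c13786 : PP 8 4 T 0x2000002001000000000000000000000100000004001000000000040012000045000002 := rS 0x17e85229062669 (k4 c757 c4441 c1912 c296 (k2 c5976 c6330 (k1 c13754 k0))) (by decide +kernel)
def c13787 : PP 8 4 T 0x2000000001000000000000000000000000100000000000000000000000040001000200 := rS 0xad8299d1254398f15eab358c46a6f7e10cf66d4cacc3869199951613318a50e517206c00050f80cb2210581cb656 (k8 c13642 c92 c30 c84 c799 c63 c12975 c13746 (k8 c262 c4461 c5876 c13777 c4405 c13785 c4402 c754 (k8 c4401 c5853 c491 c2957 c757 c4466 c3197 c3051 (k8 c9753 c1225 c236 c13567 c4378 c1059 c13786 c493 (k8 c5962 c5815 c13784 c1615 c234 c9049 c921 c4406 (k2 c4903 c2120 k0)))))) (by decide +kernel)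
def c13788 : PP 8 4 T 0x1000002001002000000011010400011546000000000000408000100051045001000002 := rS 0x4a531022476611c95b103f41546753397422c9309f4da694a9942a631c27da61b2d91cd6ab28abc6629 (k8 c4402 c2957 c5815 c4405 c5962 c493 c4404 c92 (k8 c5876 c13532 c11480 c4470 c754 c4284 c491 c2710 (k8 c757 c9753 c4379 c4302 c4305 c4300 c4377 c920 (k8 c10870 c938 c9288 c2118 c5056 c6230 c8255 c7223 (k4 c1087 c11990 c9124 c13631 (k2 c1144 c1857 k0)))))) (by decide +kernel)
def c13789 : PP 8 4 T 0x1000000001000000000011408400810400054404140000000000000200004005000000 := rS 0x3b30c827966aec9745 (k8 c4453 c1857 c1978 c2067 c11641 c1144 c1168 c2123 (k1 c9124 k0)) (by decide +kernel)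
def c13790 : PP 8 4 T 0x1010002001000000040000000001500000000000001500400000100050000005000000 := rS 0x289132ea050661 (k4 c4302 c4306 c4380 c4377 (k2 c13631 c4490 (k1 c9368 k0))) (by decide +kernel)
def c13791 : PP 8 4 T 0x1000002001002000000000000400001104000000000000409000041051041021000002 := rS 0x1435192196d03b85c8279262ec9745534452c4f60b155245419b53669298ec2a3f4584d0e515cafd3e4713c3520a1149ad4a221c34c365b (k8 c92 c5876 c13532 c4470 c1140 c1302 c493 c4402 (k8 c770 c1139 c4328 c873 c4404 c11480 c3256 c3212 (k8 c4405 c13785 c4401 c5853 c4288 c4284 c4403 c4290 (k8 c757 c765 c9753 c4306 c1219 c978 c4530 c6869 (k8 c450 c13788 c4336 c13790 c4453 c1857 c1978 c773 (k8 c11641 c1144 c1990 c9124 c13636 c1751 c7073 c941 (k2 c4421 c4489 k0))))))) (by decide +kernel)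
def c13792 : PP 8 4 T 0x1000002001002000000000000400000104000000000000409000041051041021000002 := rS 0xa8172154f134e294d65d40a0cc26d348cd20221c34c365b (k8 c92 c5876 c13532 c4470 c1140 c1139 c2957 c757 (k8 c9753 c4302 c4306 c4380 c4377 c493 c1302 c13791 (k4 c4344 c2741 c5976 c4469 (k2 c2119 c2759 k0)))) (by decide +kernel)
def c13793 : PP 8 4 T 0x1000002001002000000000000000000000000000000000009000000000040041000200 := rS 0x1043aa8d52734baae97174eb0a30c1629dda2ad2290626301e9742261219b532b3499a4ca531d9442a3f31ae5205f58a7c4a4713a8444381b83da61b0001406590396c6a6f0e0841629 (k8 c4402 c84 c799 c4466 c4378 c1059 c92 c30 (k8 c63 c12975 c262 c4461 c5876 c13532 c4376 c232 (k8 c4470 c1140 c770 c873 c4404 c280 c11480 c4304 (k8 c4647 c1139 c3212 c754 c4288 c4284 c4405 c4403 (k8 c4290 c491 c757 c3050 c3197 c3051 c9753 c236 (k8 c4302 c4300 c4377 c234 c13792 c4441 c1912 c296 (k8 c2047 c300 c11833 c4530 c6869 c4472 c2115 c4368 (k8 c4362 c4459 c1946 c8801 c1087 c978 c4526 c10870 (k2 c4481 c9288 k0))))))))) (by decide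 +kernel)
def c13794 : PP 8 4 T 0x1000102001002000000000000400001104000000000000008000040051041021000402 := rS 0x1435192196d0618f4e47733106224ba2a594c4f60b15524536a6cd2531d9447eb92fac53e4713c3520a1149ad4a221c34c365b (k8 c92 c5876 c13532 c4470 c1140 c1302 c493 c4402 (k8 c770 c1139 c4328 c873 c4404 c11480 c4304 c4647 (k8 c3212 c4288 c4405 c4403 c4290 c757 c765 c9753 (k8 c1219 c978 c4530 c6869 c450 c13790 c13788 c4453 (k8 c1857 c4336 c1144 c5056 c9124 c921 c1615 c1087 (k4 c2115 c1751 c7073 c941 (k2 c4421 c4489 k0))))))) (by decide +kernel)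
def c13795 : PP 8 4 T 0x1000102001002000000000000400000104000000000000008000040051041021000402 := rS 0x2a05c8553c4d38a5359750283309b4d23348088be386986cb6b1 (k8 c4304 c92 c5876 c13532 c4470 c4647 c1140 c1139 (k8 c2957 c757 c9753 c4302 c4306 c4380 c4377 c493 (k8 c1302 c13794 c4344 c2741 c5976 c4469 c2119 c2759 k0))) (by decide +kernel)
def c13796 : PP 8 4 T 0x1000102001002000050000010400010054000004000014408000150000145000000200 := rS 0x3584b5a18f4fc753397422c941984fa37078d4de530a8fd3e47628ed8251 (k8 c4405 c6869 c4403 c4530 c4404 c11480 c4288 c4284 (k8 c4290 c4378 c1059 c4376 c232 c4379 c4302 c4306 (k8 c4305 c4300 c4377 c920 c10870 c8784 c235 c4392 (k4 c1434 c2115 c12814 c12857 k0)))) (by decide +kernel)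
def c13797 : PP 8 4 T 0x1000000000000000000000000100000000000000000000000040001000200 := rS 0x6639c455e9668914823082951425f1109572388a98da629288eca6e432ac46e0f219ecda9959a4c4e1c1a9bdf82d4a86c00050f80cb2210581cb656 (k8 c13642 c92 c30 c84 c799 c63 c12975 c13746 (k8 c262 c4461 c5876 c2710 c2917 c13567 c4378 c1059 (k8 c4466 c873 c3050 c3197 c3051 c9753 c1225 c236 (k8 c4376 c232 c4304 c491 c13777 c4290 c4403 c4405 (k8 c4402 c13532 c754 c13787 c4470 c3212 c280 c1140 (k8 c4647 c770 c13793 c4406 c13795 c1912 c296 c300 (k4 c13796 c4631 c4336 c8803 (k2 c5056 c921 k0)))))))) (by decide +kernel)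
def c13798 : PP 8 4 T 0x2000000000001000000100000500000004000010004040001000004000080000000202 := rS 0x32c14fc755c9cc7a0b1aadce2b5 (k8 c4389 c4387 c4353 c1059 c84 c234 c13701 c7514 (k4 c11627 c2121 c9531 c2438 (k1 c4904 k0))) (by decide +kernel)
def c13799 : PP 8 4 T 0x2000000000001000000100000500000004000010004004050000004000180000000206 := rS 0x6582950cf11 (k4 c4411 c7399 c13798 c4406 (k2 c1647 c4478 k0)) (by decide +kernel)
def c13800 : PP 8 4 T 0x400000000000110000000002000040000005000010000100000000000000000001550004400000000 := rS 0x172494f0914647 (k4 c4404 c9264 c4467 c4489 (k2 c283 c1395 (k1 c7430 k0))) (by decide +kernel)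
def c13801 : PP 8 4 T 0x2000000001000000000000000000001000100000000000000000001000000001000200 := rS 0x2e412608a1aa65fc488a81418dc1e7b4c89d3643348e56eb56986d429688a46863b720fcc62a16a4d661c000143e031082c0e5b2c958fac9588d4defc (k8 c13567 c4378 c1059 c4304 c4305 c4379 c13642 c63 (k8 c92 c30 c84 c799 c12975 c13746 c262 c4461 (k8 c4466 c3197 c3050 c2917 c13797 c1607 c288 c13799 (k8 c12123 c8226 c4352 c4411 c10647 c898 c5876 c13532 (k8 c4389 c4353 c4348 c757 c236 c765 c873 c3051 (k8 c1225 c4376 c232 c4306 c4380 c1219 c13778 c6330 (k4 c13260 c4330 c13800 c773 (k2 c1995 c1990 (k1 c13014 k0))))))))) (by decide +kernel)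
def c13802 : PP 8 4 T 0x2000000001000000000000000000000000100000000000000000001000000001000200 := rS 0xa53415a4e542959e252f9209a75828b90a6653906269ca19750283308dc1e691d8e56eb53591d8ed34599426ab288c43699369ec863519a852ce41f98c5a932d9f562c900014065903acc381f10958166f7e4445491 (k8 c4352 c13797 c4411 c13567 c4378 c84 c13642 c799 (k8 c13746 c4466 c3197 c30 c63 c12975 c262 c4461 (k8 c4305 c4304 c4379 c92 c3050 c2917 c1607 c288 (k8 c13799 c10647 c898 c2957 c1059 c236 c1225 c9753 (k8 c3051 c5876 c13786 c4405 c5962 c4401 c490 c5853 (k8 c13532 c4289 c4404 c493 c4389 c4353 c4348 c12123 (k8 c757 c4376 c232 c4302 c4306 c4380 c4377 c8226 (k8 c13801 c4344 c3058 c906 c13783 c5976 c4469 c4310 (k8 c592 c1992 c4559 c9868 c283 c1791 c1843 c2119 (k4 c787 c949 c452 c4785 (k1 c4426 k0))))))))))) (by decide +kernel)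
def c13803 : PP 8 4 T 0x8000002000080000000200 := rS 0xa80b (k2 c84 c234 (k1 c12691 k0)) (by decide +kernel)
def c13804 : PP 8 4 T 0x1001000080000000000000000100000000000001000000001000001000200 := rS 0x91533f0da9b0e10c36000287c06591082c0e5b8a8f45456 (k8 c13642 c13797 c13803 c13802 c92 c30 c84 c799 (k8 c63 c12975 c13746 c262 c4461 c5876 c236 c4466 (k4 c765 c9753 c13567 c13602 (k2 c12724 c13601 k0)))) (by decide +kernel)
def c13805 : PP 8 4 T 0x9000002001000000040000000400101000014004041500400000040450000025000000 := rS 0x22a10770b904f24c5d92e8aa662aa48a8313a6d82225fc352038 (k8 c4470 c1139 c4328 c3256 c1140 c4420 c765 c873 (k8 c4306 c1219 c978 c4530 c13790 c4453 c1857 c1978 (k8 c773 c11641 c1144 c1990 c9124 c4465 c9460 c4322 k0))) (by decide +kernel)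
def c13806 : PP 8 4 T 0x1001000000000000000000000100000000000001000000001000001000200 := rS 0xa8172154f134e294be22480e1a689359756281419846e0f1a9bdf8433d9b5661c348cc3715338b400050188416072d9662c3f0f8f4ac87398ec2a2a (k8 c13797 c2220 c12123 c13487 c7313 c13642 c13803 c13746 (k8 c288 c4471 c63 c92 c30 c84 c799 c12975 (k8 c262 c4461 c2917 c7399 c13802 c5876 c2957 c757 (k8 c4466 c3197 c9753 c1225 c236 c13567 c4378 c1059 (k8 c4376 c232 c4302 c4306 c4380 c4304 c4377 c493 (k8 c13072 c13804 c4470 c1139 c1140 c4647 c1302 c13805 (k4 c4344 c2741 c5976 c4469 (k2 c2119 c2759 k0)))))))) (by decide +kernel)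
def c13807 : PP 8 4 T 0x1001000000000000000000000100000000000001000000000000001000200 := rS 0x1e230c53b991164520c4c6087219ecda9959a4c38690001406591081c2b153a82d869760c587e1f1d8f45456 (k8 c13642 c13797 c13803 c12123 c13746 c288 c4471 c4420 (k8 c4360 c4362 c84 c11627 c13802 c2220 c30 c799 (k8 c63 c12975 c262 c4461 c757 c4466 c3050 c3197 (k8 c3051 c9753 c1225 c236 c7313 c13806 c4441 c1912 (k8 c296 c13524 c13775 c11833 c4530 c4472 c13525 c4447 k0))))) (by decide +kernel)
def c13808 : PP 8 4 T 0x1001000000000000000000000100000000000000000000000000001000200 := rS 0xcb052a19cb62d0000cb2210581cad11318a80a1f (k8 c13746 c262 c13797 c1607 c4411 c13642 c30 c84 (k8 c799 c63 c12975 c4461 c2917 c92 c7399 c13807 (k2 c4406 c1647 (k1 c4478 k0)))) (by decide +kernel)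
def c13809 : PP 8 4 T 0x1000002001000000040001008401111480054004041500400000000050000025000000 := rS 0x2998a454189d7f0d480e0eac9 (k8 c4305 c1744 c4470 c1139 c4328 c3256 c873 c4306 (k4 c1219 c1252 c13790 c13789 k0)) (by decide +kernel)
def c13810 : PP 8 4 T 0x1000002001002000000000000444100404000004001444401000000050081025000002 := rS 0x14453c4d38b64b28952c13fab112738217502833089cd31123a2cca134394444a186a4070d3 (k8 c13532 c4470 c1139 c4328 c1735 c1140 c4405 c13785 (k8 c4401 c490 c5853 c4404 c4411 c757 c873 c4302 (k8 c4306 c4380 c4377 c5056 c13701 c13072 c2120 c4313 (k8 c1986 c2956 c10398 c938 c939 c13809 c4344 c2741 (k2 c4490 c9368 k0))))) (by decide +kernel)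
def c13811 : PP 8 4 T 0x1000002001000000040000000400101000000000000580409500045450000025140000 := rS 0x286a32432da0770b904f24c5d92e8aa627b15524541984fa6d13a6d16225fc3520384b304e487 (k8 c13785 c921 c1620 c920 c4470 c1139 c4328 c3256 (k8 c1140 c5853 c765 c873 c9753 c4379 c4302 c4306 (k8 c1219 c978 c1252 c450 c13790 c4453 c1857 c1978 (k8 c773 c11641 c1144 c1990 c9124 c13636 c1751 c7073 (k2 c941 c4421 (k1 c7569 k0)))))) (by decide +kernel)
def c13812 : PP 8 4 T 0x1000002001002000000000000400000004000004000004409000045451081021100002 := rS 0xa8172154f134e1994aab579acba8141984da9b348cc52530994520221c34c365b (k8 c92 c5876 c13532 c4470 c1140 c1139 c4405 c4401 (k8 c4290 c59 c2957 c757 c765 c9753 c4302 c4306 (k8 c4380 c4377 c493 c5815 c5962 c1302 c13810 c13811 (k4 c4344 c2741 c5976 c4469 (k2 c2119 c2759 k0))))) (by decide +kernel)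
def c13813 : PP 8 4 T 0x400002001002000040000000410000106044001000144409000140400085000000002 := rS 0x3ab0d6c965145cfe8939c1192950d96e22473284d427736b158251 (k8 c4405 c6869 c4530 c9753 c11833 c1735 c4401 c490 (k8 c4404 c4411 c92 c5876 c2710 c4305 c5056 c13701 (k8 c4794 c4313 c12191 c10398 c4487 c939 c8801 c1744 (k1 c8505 k0)))) (by decide +kernel)
def c13814 : PP 8 4 T 0x1000002001002000000000000400000104000004000004009000041450080041100402 := rS 0x12c7257998f318569148313181b44e691f94d1613439444a902f8e1a61b2dac43821 (k8 c799 c4466 c4304 c92 c5876 c13532 c4470 c4647 (k8 c1139 c280 c4405 c13785 c4401 c5853 c4290 c288 (k8 c757 c873 c9753 c13812 c4441 c1912 c296 c2046 (k4 c4472 c4447 c13813 c2988 (k2 c921 c920 (k1 c8803 k0)))))) (by decide +kernel)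
def c13815 : PP 8 4 T 0x1000002001000000040000000000101000000000000580408500045450000025000000 := rS 0x286a32432da0c33b90497455313d8aa922984fa6d13c3520384b304e487 (k8 c13785 c921 c1620 c920 c4470 c1139 c4328 c873 (k8 c9753 c4379 c4302 c1219 c978 c1252 c450 c13790 (k8 c4453 c1857 c1144 c9124 c1087 c2115 c1751 c7073 (k2 c941 c4421 (k1 c7569 k0))))) (by decide +kernel)
def c13816 : PP 8 4 T 0x1000000000000000000000000100000000000000000000000000001000200 := rS 0xa8172154f134e294d6314b1c95e6682950be22480e1a65129b922a3d1f98c7615888a8363334a4d6699000700a1f01884da5b2c958f6430382cbab140a0cc237078d4defc (k8 c13567 c4378 c1059 c4376 c232 c4302 c4306 c4380 (k8 c4304 c4377 c84 c30 c236 c1225 c13642 c63 (k8 c92 c9753 c799 c12975 c13746 c262 c4466 c4461 (k8 c3051 c3197 c3050 c757 c2957 c5876 c13797 c4411 (k8 c2220 c12123 c1607 c288 c13803 c13802 c13808 c4290 (k8 c4405 c13532 c4470 c1139 c1140 c4647 c13814 c4406 (k8 c5056 c2988 c921 c920 c8803 c493 c1302 c13815 (k4 c4344 c2741 c5976 c4469 (k2 c2119 c2759 k0)))))))))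 (by decide +kernel)
def c13817 : PP 8 4 T 0x2000000001000000040000400000000400100000000000000020000005404000000000 := rS 0x4ca9e2425 (k4 c284 c4469 c4558 c4443 (k1 c13260 k0)) (by decide +kernel)
def c13818 : PP 8 4 T 0x2000000001001000000000000000000000100000000000005000000000040000000202 := rS 0x1d6084750a7c4aa2539b22630179fcd3174da968a3e8c131a6bf219cd26793d8ec5a454b99d3a5f0f054b41d0597562c91b8d4de1b8490496812783c0a03109640e2730bf0d6330b861768f1cadd7a715aaccc665 (k8 c491 c755 c1186 c4389 c4387 c4354 c4353 c4348 (k8 c4388 c4390 c13816 c35 c951 c492 c13567 c4302 (k8 c870 c30 c486 c9668 c28 c54 c4376 c258 (k8 c4380 c1874 c1873 c4436 c171 c4378 c1059 c232 (k8 c4305 c4304 c4377 c84 c1057 c4476 c12287 c4466 (k8 c577 c12783 c11319 c1194 c13336 c910 c12770 c1224 (k8 c8961 c9125 c13487 c12838 c7782 c7574 c2114 c4472 (k8 c12893 c4451 c1935 c4448 c4356 c844 c10049 c1870 (k8 c13817 c4441 c7393 c904 c11330 c285 c160 c161 (k4 c1314 c13617 c10497 c9237 k0)))))))))) (by decide +kernel)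
def c13819 : PP 8 4 T 0x2000000001001000000000000000000000100000000000001000040000040000000202 := rS 0x3fa8e082888a853f0d112bd4c5f170959b4560b153a4c8c2fcba813e8dc1e410289cc23347a456ebd6898c8a214aa6d326b0ba4cca31369242a672d8b4b2076995830393882c22c91a9bdf83d (k8 c234 c13567 c4378 c1059 c4305 c4300 c84 c4387 (k8 c4348 c13816 c13818 c7626 c30 c486 c2917 c92 (k8 c7399 c646 c12434 c9753 c9671 c491 c1070 c35 (k8 c492 c1072 c2711 c2710 c9668 c7547 c755 c260 (k8 c4354 c4353 c4352 c4388 c951 c4302 c870 c54 (k8 c1873 c4376 c232 c4379 c4380 c4377 c6330 c4472 (k8 c12978 c4368 c4370 c4450 c4451 c2063 c284 c13817 (k8 c10439 c1992 c789 c1993 c4330 c1300 c771 c10261 (k4 c4468 c4478 c2749 c4313 (k1 c2118 k0)))))))))) (by decide +kernel)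
def c13820 : PP 8 4 T 0x2000000001001000000000000000000000100000000000001000000000040000000202 := rS 0xa72f89498a94e9a50a77890be3242528c5329b0e34cf66d2d958165d1a9bc96812783c0a2113985f86b1985c3071 (k8 c4387 c13816 c35 c951 c492 c13567 c4302 c870 (k8 c9668 c54 c4376 c258 c4380 c1874 c4378 c1059 (k8 c4377 c84 c13818 c92 c9753 c7540 c7626 c750 (k8 c2711 c1072 c9671 c5936 c13819 c4446 c1952 c8804 (k8 c1887 c13580 c756 c4344 c4345 c13025 c284 c10439 (k2 c4558 c4130 k0)))))) (by decide +kernel)
def c13821 : PP 8 4 T 0x1000000080000100000000000000000001000000040040040000002000204 := rS 0x2215c8207 (k4 c30 c1873 c7626 c6022 (k1 c4828 k0)) (by decide +kernel)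
def c13822 : PP 8 4 T 0x2000000000001000000100000100000000000010004000009000000000080000000202 := rS 0x1fa4cce1c598a4e615 (k8 c2220 c12124 c59 c1186 c750 c921 c1069 c1180 (k1 c13798 k0)) (by decide +kernel)
def c13823 : PP 8 4 T 0x2000000001001000000000000000000000100000000000001000000000000000000202 := rS 0x4e0a653aae47e972d15d2a15888a9663d05ac5926f3ebf0b207 (k8 c30 c486 c13567 c4379 c4378 c4305 c4304 c84 (k8 c234 c1186 c13820 c4411 c2220 c1694 c13822 c4476 (k8 c12611 c289 c6781 c11627 c578 c9531 c1638 c4464 k0))) (by decide +kernel)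
def c13824 : PP 8 4 T 0x2000000001000000000000000000000000100000000000006000000000040000000202 := rS 0xe83d24879a41d058dc6a6f01884b2395bad42b051f8ec0e473eb1c1efc (k8 c13567 c4376 c250 c4379 c1602 c30 c1601 c8954 (k8 c4406 c141 c4389 c4353 c4348 c486 c9668 c28 (k8 c4378 c1059 c232 c84 c1057 c12893 c4466 c4281 (k2 c13138 c4559 (k1 c1686 k0))))) (by decide +kernel)
def c13825 : PP 8 4 T 0x2000000001001000000000000000000000100000000000000000000000040000000202 := rS 0x2144d82d18b30d163d1412140b9628c536950e115a66d2d9595aab5199d269f4b82d9235379040a2113984d68f48adce2b50ac147607239f45a6501b1c1efc2885d663f4494ca818 (k8 c13816 c13823 c9029 c2038 c8954 c1185 c35 c1605 (k8 c13567 c4376 c250 c28 c1647 c246 c4379 c1602 (k8 c30 c1601 c4406 c141 c4389 c4387 c4353 c4352 (k8 c4388 c492 c4302 c870 c9668 c54 c1873 c4378 (k8 c1059 c4305 c84 c11783 c11776 c9125 c4555 c4241 (k8 c13092 c4903 c13824 c92 c9753 c7626 c7547 c750 (k8 c2710 c2711 c9671 c7493 c13760 c2125 c4212 c11453 (k8 c7860 c3701 c9009 c4471 c261 c4420 c7641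 c2115 (k1 c8804 k0))))))))) (by decide +kernel)
def c13826 : PP 8 4 T 0x2000000001001000000000000000000000100000000000000000000000000000000202 := rS 0x45340867b22b053b16618787a1d2b968cc2a44944ca2d1d94c7f052a02c36410280c4259038cc2e18 (k8 c13816 c35 c951 c30 c486 c9668 c28 c54 (k8 c1873 c171 c84 c13823 c4406 c8954 c9029 c1601 (k8 c246 c1647 c1605 c2038 c13825 c4191 c7399 c92 (k8 c759 c12961 c4466 c9009 c4471 c12783 c4420 c13336 (k4 c1224 c12838 c6159 c12827 (k1 c4552 k0)))))) (by decide +kernel)
def c13827 : PP 8 4 T 0x2000000001000000000000000000000000100000000000004000000000040000000202 := rS 0x274881e691683a0b07bf006212c81c66170c0547ee4 (k8 c13826 c4288 c4284 c13816 c35 c951 c30 c486 (k8 c9668 c28 c13567 c4376 c84 c1057 c4476 c12893 (k4 c4466 c13426 c12783 c13336 k0))) (by decide +kernel)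
def c13828 : PP 8 4 T 0x2000000001002000000100000500000000000114004000000000151050000002004000 := rS 0x145263058abf3c8eca23f (k8 c4288 c4405 c4403 c1958 c6330 c4530 c6869 c12978 (k2 c4451 c12956 k0)) (by decide +kernel)
def c13829 : PP 8 4 T 0x2000000001002000000100000100000000000110004000004000001000000002004202 := rS 0x211ec8a9d0f1683a371a90442591985d6607 (k8 c30 c10182 c35 c951 c486 c9668 c1873 c1059 (k8 c232 c1057 c4476 c4466 c12783 c13336 c1224 c13828 (k1 c12838 k0))) (by decide +kernel)
def c13830 : PP 8 4 T 0x2000000001000000000000000000000000100000000000000000001000000000000202 := rS 0x14e5f12931529d34a14ef1217c654a4218a65361c22b4cf66d2d958165d58b24fa371a9bc824b4093c1e051089cc2fc358cc2e1838acdc807 (k8 c30 c13826 c10182 c4387 c13816 c35 c951 c492 (k8 c13567 c4302 c870 c9668 c54 c4376 c258 c4380 (k8 c1874 c1873 c4378 c1059 c232 c4379 c4305 c4304 (k8 c4377 c84 c13829 c92 c9753 c7540 c7626 c7547 (k8 c750 c2711 c1072 c9671 c13828 c5936 c4446 c1952 (k8 c8804 c1887 c13580 c756 c4344 c4345 c13025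 c284 (k2 c10439 c4558 (k1 c4130 k0)))))))) (by decide +kernel)
def c13831 : PP 8 4 T 0x2000000001000000000000000000000000100000000000004000000000000000000202 := rS 0x563c (k2 c13830 c12961 (k1 c13827 k0)) (by decide +kernel)
def c13832 : PP 8 4 T 0x2000000001000000000000000000000000100000000000000000000000000000000202 := rS 0x14b68a1d849d2630630bf21a5d5e4956aae2031338ad329b4a9b4acc5829fc8a742a1ce2e3c3199512b3149442653721c416c9409f46e0f1a9be12410389cc2fc358cc2e18 (k8 c13816 c35 c951 c492 c13567 c4302 c870 c30 (k8 c1873 c4436 c4378 c1059 c4376 c232 c4379 c4380 (k8 c4305 c84 c4387 c13826 c4290 c4401 c4405 c4402 (k8 c10182 c2038 c490 c754 c13830 c4416 c1615 c234 (k8 c235 c2180 c10049 c4406 c3725 c13831 c9753 c2710 (k8 c2711 c1072 c13803 c921 c9671 c5056 c13092 c4903 (k8 c8222 c5815 c4336 c6023 c6330 c4472 c6869 c12978 (k4 c4368 c7223 c7043 c380 (k2 c4459 c4151 k0))))))))) (by decide +kernel)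
def c13833 : PP 8 4 T 0x1001000040000000000000000100000000000005000000000040000000202 := rS 0x1f0e06e0f1a9bcbe917e1640f1559a5c3c1d108541603 (k8 c28 c84 c12287 c9668 c1057 c4466 c13165 c1186 (k8 c13832 c30 c486 c13567 c4550 c12467 c4378 c1059 (k4 c4376 c232 c4470 c12893 (k1 c13639 k0)))) (by decide +kernel)
def c13834 : PP 8 4 T 0x1001000000000000000000000100000000000005000000000040000000202 := rS 0x14b454fa8cff135e11c460d690b4ce153282cba7d0d93c0627308946e0f2f9a54e9b8c10cf6454e878425a2c8746617208600e917e4556663 (k8 c755 c1186 c13832 c13567 c4550 c30 c13816 c1873 (k8 c35 c951 c1057 c486 c4476 c9668 c4466 c12783 (k8 c13336 c1224 c12838 c4472 c4448 c13601 c844 c12467 (k8 c4376 c232 c12180 c4302 c870 c28 c258 c171 (k8 c4379 c4377 c84 c491 c12287 c11319 c910 c13833 (k8 c4371 c4372 c4374 c6022 c8052 c7517 c11410 c11776 (k2 c4454 c1939 (k1 c11058 k0)))))))) (by decide +kernel)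
def c13835 : PP 8 4 T 0x1001000000000000000000000100000000000005000000000000000000202 := rS 0x6065291d5863f288ec2a2a4b82c0a3d62b045e694dc60867b22a743c210e8cc2e412d1640e18 (k8 c13816 c30 c486 c4476 c1873 c35 c951 c1057 (k8 c9668 c4466 c12783 c13336 c1224 c12838 c4472 c4448 (k8 c844 c1870 c4450 c4370 c13138 c54 c84 c13165 (k8 c13834 c2220 c12123 c1645 c289 c9009 c11627 c12819 (k2 c578 c292 (k1 c13037 k0)))))) (by decide +kernel)
def c13836 : PP 8 4 T 0x1001000000000000000000000100000000000004000000000000000000202 := rS 0x18b4856674534112c32899476531fc142a540586c9e05018946e0f1eb054e917e4545e694dc60867b22a743c210e8cc2e412d1640e18 (k8 c13816 c30 c486 c4476 c1873 c35 c951 c1057 (k8 c9668 c4466 c12783 c13336 c1224 c12838 c4472 c4448 (k8 c844 c1870 c13832 c13567 c4550 c13601 c4450 c13138 (k8 c4376 c232 c12180 c28 c54 c258 c171 c84 (k8 c13835 c141 c4406 c8954 c9029 c1601 c1647 c1605 (k8 c9009 c2038 c6159 c12827 c4552 c4191 c12893 c12813 (k1 c13552 k0))))))) (by decide +kernel)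
def c13837 : PP 8 4 T 0x1000000000008000000000000100000000000004000000000000000000202 := rS 0x6313562612b111534d0e0b07bf0063d179a53718219ec8a9d0f084661720968b2182985566074b8fdc81d (k8 c1057 c13836 c4288 c6579 c30 c10182 c4284 c4290 (k8 c13816 c486 c4476 c1873 c35 c951 c9668 c4466 (k8 c12783 c13336 c1224 c12838 c4472 c4448 c844 c1870 (k8 c13138 c28 c13567 c4376 c84 c1907 c6832 c12893 (k4 c4411 c1694 c4958 c13033 (k2 c4443 c2046 (k1 c4469 k0))))))) (by decide +kernel)
def c13838 : PP 8 4 T 0x1000000000000000000000000100000000000004000000000000000000202 := rS 0xd2438ada110618fc2a511d94dc86960b153718219ec8a9d1e878b41d0583df81b2080c4259038cc2e18 (k8 c13816 c35 c951 c30 c486 c9668 c28 c1873 (k8 c171 c13567 c4376 c84 c1057 c4476 c4466 c13138 (k8 c12783 c13336 c1224 c12838 c4472 c4448 c4370 c4450 (k8 c844 c13836 c4290 c4403 c4405 c4284 c4288 c13837 (k4 c13034 c6159 c4411 c1631 (k2 c12893 c6832 k0)))))) (by decide +kernel)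
def c13839 : PP 8 4 T 0x40008000008200040000000002 := rS 0xa34b2dd201c (k4 c750 c1139 c3172 c1179 (k2 c939 c4613 k0)) (by decide +kernel)
def c13840 : PP 8 4 T 0x1000000000005000014000154000004000000001100155405000002000000 := rS 0x17c4ca518 (k4 c4472 c12819 c7972 c2032 (k1 c4469 k0)) (by decide +kernel)
def c13841 : PP 8 4 T 0x1000002000000000000000000000100400000004000400440000080241000020000002 := rS 0x210d2a75eaea242f8c97502bf (k8 c3256 c4380 c4377 c4446 c1952 c8804 c365 c2015 (k4 c12709 c756 c4130 c1442 k0)) (by decide +kernel)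
def c13842 : PP 8 4 T 0x2001001000040040000000000114000004000040401000145001140802000202 := rS 0xab5694476a0099fcc65d08b24fa2730a94661725a0583180a9953e9751b0c8207 (k8 c30 c1873 c9009 c4241 c11783 c1300 c491 c646 (k8 c4472 c4450 c4380 c1874 c35 c951 c5936 c4302 (k8 c870 c4379 c4305 c4300 c4377 c755 c12366 c11097 (k4 c8715 c1062 c1877 c2740 (k2 c1741 c13840 k0))))) (by decide +kernel)
def c13843 : PP 8 4 T 0x1000002001001000000000000000000000000000000000008000000000040002000202 := rS 0x52ad4522556511d94e0a54618f52ec71f99406954ca4d20224eb0630432fac416a51992d0238698d4de3136a6c387b3585c6e0f2288482671696cb207 (k8 c30 c486 c92 c2917 c7399 c1873 c9668 c7547 (k8 c4376 c232 c35 c492 c7540 c750 c2711 c9753 (k8 c9671 c4378 c1059 c7626 c4470 c4380 c1874 c951 (k8 c5936 c84 c4304 c4647 c13841 c4472 c4450 c4368 (k8 c1140 c1139 c3050 c1072 c2710 c28 c491 c13839 (k8 c410 c11783 c11919 c9009 c13842 c4406 c9029 c1601 (k4 c1605 c13092 c2038 c12827 (k2 c4903 c3701 (k1 c7662 k0))))))))) (by decide +kernel)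
def c13844 : PP 8 4 T 0x1000002001001000000000000000000000000000000000008000000000000002000202 := rS 0x21ca0122a9920ac3298fc7a3b1519c06591687c0ac560c60865f5882d4a3325a0470d31a9bc626d4d870f65b3585c6e0f228848207 (k8 c30 c1873 c9668 c7547 c4376 c232 c35 c492 (k8 c92 c7540 c750 c2711 c9753 c9671 c4378 c1059 (k8 c7626 c4470 c4380 c1874 c951 c5936 c84 c4304 (k8 c4647 c13841 c4472 c4450 c4370 c54 c1066 c2917 (k8 c486 c28 c7399 c13843 c12123 c13803 c288 c292 (k8 c9009 c4503 c4191 c1647 c490 c12819 c3577 c1876 k0)))))) (by decide +kernel)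
def c13845 : PP 8 4 T 0x1000002001002000050000010400010056000004000014408000150000145000000200 := rS 0x8228cba11308553e47 (k8 c4404 c11480 c4284 c4302 c4300 c4377 c938 c13796 (k1 c9288 k0)) (by decide +kernel)
def c13846 : PP 8 4 T 0x1000002001000000000000000000000000000000000000009000000000040002000202 := rS 0x14526af198b651258cec239b447a27308b52ab349ae44a1f02a40f2c560c60865f5882d4a3325a04626d4d9ecb66b0b9144241038eca23f4494cca1331a8452e4110e1a637078d4de1c (k8 c750 c4378 c1059 c4376 c232 c7626 c4470 c1140 (k8 c13844 c4402 c770 c754 c4401 c490 c4290 c2038 (k8 c4288 c4405 c4403 c30 c1873 c9668 c7547 c35 (k8 c492 c92 c7540 c2711 c9753 c9671 c4380 c1874 (k8 c951 c5936 c84 c4304 c4647 c13841 c4472 c4450 (k8 c4370 c1958 c1139 c54 c1066 c280 c3212 c3050 (k8 c3197 c2710 c2917 c4302 c870 c234 c260 c12920 (k8 c12819 c921 c13845 c4613 c939 c1168 c1167 c2062 (k2 c4454 c7248 k0))))))))) (by decide +kernel)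
def c13847 : PP 8 4 T 0x100200000000000040000000000000400000000a000051000000002000002 := rS 0x25d87108b19cea734aa6d326b3ca758ac18c114423b1fa24a6ab28abc52330b8c4db05 (k8 c4406 c9753 c9671 c35 c951 c4402 c5815 c4405 (k8 c5962 c4290 c2038 c4288 c4403 c9668 c7547 c4472 (k8 c4450 c4370 c4368 c1958 c492 c1072 c2711 c2710 (k8 c12920 c1686 c921 c4481 c5056 c4362 c4360 c7223 k0)))) (by decide +kernel)
def c13848 : PP 8 4 T 0x100200000010000000000000000001000000100a000040200000002000202 := rS 0x3f99c9074398f20a0b2081c4e7b10acd721c3284cc629 (k8 c4402 c754 c4401 c490 c750 c3212 c3197 c9668 (k8 c7540 c870 c30 c1873 c84 c4406 c13847 c1615 (k4 c235 c362 c921 c595 (k1 c8222 k0)))) (by decide +kernel)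
def c13849 : PP 8 4 T 0x1000000000000000000000000100000000000000000000000000000000202 := rS 0x5149abc662d9447f8219d8473150f4aaa1319953e89148fca23b0991ca6e460b1630792197c449012a9470310fa6c3845699ecda5b2b454666b138840a0b2eac592613e8dc1e353785c82072586102fc (k8 c13567 c4380 c13816 c1874 c30 c1873 c35 c4378 (k8 c1059 c4376 c232 c4379 c4302 c4305 c4304 c4377 (k8 c84 c54 c9668 c870 c492 c951 c13832 c13838 (k8 c92 c9753 c7540 c7626 c7547 c750 c2711 c1066 (k8 c9671 c4470 c5936 c280 c1139 c1140 c4647 c13841 (k8 c1958 c4472 c4370 c4450 c13844 c4290 c4404 c4401 (k8 c4403 c4405 c4288 c4402 c2038 c11480 c490 c754 (k8 c770 c13848 c234 c13846 c12920 c12819 c921 c4904 (k8 c4313 c2118 c939 c1168 c1167 c2062 c4454 c7248 k0))))))))) (by decide +kernel)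
def c13850 : PP 8 4 T 0x2000000001001000080000000000000000100000000000001000040001040000000210 := rS 0x188cd292b452511698d0ecf49d0e08b8a2aad5e7353448ea3b19960b6c33d084fe4406ac5926f3e8dc8207278bc4a0f7e0f566d10c054ce970587404015baf4e2b5 (k8 c4389 c4387 c4354 c4353 c13849 c4461 c1058 c84 (k8 c11617 c919 c12394 c13816 c260 c1186 c234 c13567 (k8 c4376 c224 c1871 c258 c30 c1873 c232 c4379 (k8 c4378 c4305 c4304 c4371 c6022 c7517 c2178 c257 (k8 c1210 c5066 c12975 c6288 c3242 c12443 c4469 c13552 (k8 c13487 c4346 c4445 c4453 c2121 c5124 c4394 c1125 (k8 c1526 c4410 c4407 c7177 c1876 c794 c4554 c2112 (k2 c2066 c419 (k1 c12768 k0))))))))) (by decide +kernel)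
def c13851 : PP 8 4 T 0x2000000000000001000444040400110000001454080020008000008200100000 := rS 0x10c738bb24c25f (k4 c577 c4302 c4305 c4356 (k2 c1082 c12436 (k1 c7043 k0))) (by decide +kernel)
def c13852 : PP 8 4 T 0x2000000001001000040011400000001440100000000000005020000005000000000200 := rS 0x444eac35ca547e6314994be5a10165569957a8c3f0d89098da5d309040e2f59a24d61824854ce1d0101402393882c22c91a9bdf83d (k8 c234 c13567 c4378 c1059 c4305 c4300 c84 c4387 (k8 c4348 c13849 c263 c4461 c1058 c919 c12394 c12434 (k8 c13816 c1918 c2039 c1186 c1871 c30 c1873 c4302 (k8 c4377 c958 c13817 c4469 c4324 c353 c935 c4346 (k8 c4443 c4445 c1105 c4466 c4476 c577 c12368 c2834 (k8 c11648 c13851 c11624 c7514 c9009 c11627 c7223 c11613 k0)))))) (by decide +kernel)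
def c13853 : PP 8 4 T 0x2000000001001000040000000000000040100004000000005000040001000000000200 := rS 0x248e8738218d42b93fa8c52652faa18ea7131683e20898c94b4560b153a4c4dc617e452eac502613e8de12410393c1e2f48accf21824854ce1d0101402393882c22c91a9bdf83d (k8 c234 c13567 c4378 c1059 c4305 c4300 c84 c4387 (k8 c4348 c13849 c263 c4461 c1058 c919 c12394 c12434 (k8 c13816 c1958 c1186 c4550 c1871 c4376 c258 c30 (k8 c1873 c4436 c232 c4379 c4302 c4380 c4304 c4377 (k8 c257 c7782 c4472 c13624 c12978 c4368 c4370 c4450 (k8 c4451 c1934 c13852 c4340 c6288 c2175 c6737 c376 (k8 c903 c2380 c377 c577 c12368 c2834 c935 c12366 (k8 c13269 c7768 c11648 c4560 c4408 c8522 c12941 c1656 k0)))))))) (by decide +kernel)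
def c13854 : PP 8 4 T 0x2000000001001000000000000000000000100000000000005000040001040000000200 := rS 0xa754a944f44198789a21221e9a64b4093c5e18119744a0f7e25c161d010140239 (k8 c4348 c13849 c263 c4461 c1058 c84 c11617 c13567 (k8 c4376 c224 c4377 c792 c13816 c1871 c258 c4380 (k8 c1874 c13850 c13853 c1224 c12934 c378 c4466 c6288 (k4 c4474 c353 c5936 c6029 (k2 c4453 c2111 k0))))) (by decide +kernel)
def c13855 : PP 8 4 T 0x2000000001001000000000000000000000100000000000005000040000040000000200 := rS 0x853b961a6bf3d9b4b669109146713181c57a0705ac502831a9bc3617848604a02028041efc (k8 c13567 c4376 c13849 c263 c4461 c224 c13816 c4436 (k8 c35 c171 c4378 c1059 c4306 c4380 c4304 c84 (k8 c30 c4354 c4387 c13854 c4441 c173 c2139 c2144 (k8 c1879 c5527 c958 c1224 c6330 c7574 c12975 c1112 (k2 c10705 c8882 k0))))) (by decide +kernel)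
def c13856 : PP 8 4 T 0x400000000001000090111200410000000100050000045580040159040000242100408 := rS 0xafa5a88a2cd55a7d431143adce68e4a0b07717138e41a65 (k8 c12368 c4371 c4280 c4278 c4356 c144 c400 c401 (k8 c13575 c1082 c1161 c7043 c4332 c2849 c1699 c1700 (k4 c2069 c1876 c2118 c7558 (k2 c989 c4491 k0)))) (by decide +kernel)
def c13857 : PP 8 4 T 0x1000000001001000080000000000000000100000000000005000140001000000100200 := rS 0x14a1d944e6878233542c34a8fcc6293297d5a5a0f882263252d154ec162af137180597592613e8dc3617849040e4f17a444a0f7e0f566d1338080a0135860fe0d (k8 c4371 c7517 c13816 c1918 c13849 c263 c4461 c919 (k8 c260 c1186 c234 c13567 c4376 c224 c4550 c1871 (k8 c258 c30 c1873 c4436 c35 c171 c232 c4379 (k8 c4302 c4305 c4377 c84 c4472 c13624 c7574 c4370 (k8 c4450 c13601 c4454 c1939 c13552 c4340 c6288 c2175 (k8 c6737 c943 c7137 c12368 c2834 c11648 c13856 c11624 (k8 c9009 c4551 c2068 c8784 c4410 c4408 c1876 c1061 (k2 c7719 c7558 k0)))))))) (by decide +kernel)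
def c13858 : PP 8 4 T 0x1000000001001000080000000000000000100000000000005000040001000000100200 := rS 0x538cd7a21220e49e2f0c2444a02028041efc (k8 c13567 c4376 c13849 c263 c4461 c224 c4550 c13816 (k8 c1871 c258 c4280 c13857 c2178 c1169 c6288 c4500 (k1 c13552 k0))) (by decide +kernel)
def c13859 : PP 8 4 T 0x20002000000000000040000400040040500040150040000000008000000000000000 := rS 0x172b54ac44c863822de2eb164984de7d (k8 c4379 c4378 c4302 c4305 c4304 c4356 c1162 c4481 (k4 c4407 c7315 c4412 c1696 (k2 c7420 c6781 (k1 c10837 k0)))) (by decide +kernel)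
def c13860 : PP 8 4 T 0x1000002000001000040000000001101000100000000000005000200005040002000201 := rS 0x9247a18a16cb53119527165ca545a3f47a8d7cc7509fc990c2f9cce27513a9c76582d8797a7a1081c9681278bd22232e8947ab30a99d2e0b0e8080a381b83c6a6f (k8 c4378 c1059 c4376 c232 c4470 c263 c4461 c1058 (k8 c84 c11617 c919 c12394 c1186 c234 c224 c4377 (k8 c792 c4550 c1871 c258 c4380 c1874 c30 c2178 (k8 c257 c1170 c6169 c5066 c12975 c3242 c4500 c353 (k8 c12443 c11634 c13487 c10439 c4467 c2111 c12388 c4329 (k8 c2381 c379 c12403 c1515 c13859 c392 c11624 c7514 (k8 c4471 c9125 c9676 c11451 c4419 c7787 c11648 c4424 (k2 c1586 c1721 (k1 c4473 k0))))))))) (by decide +kernel)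
def c13861 : PP 8 4 T 0x24820000001001000000000000000000000100045410000401020000000040100000210 := rS 0x32d6ccd452d5724961a492a2c88d2cc85231a1e08c93088cbab344a658ac113878ea5b0c0f68a6f41ac502fc398ecb0070a99d2e0b0e808029f (k8 c4384 c13849 c4461 c1058 c84 c11617 c919 c12394 (k8 c30 c12975 c3112 c13487 c13567 c4380 c4304 c4306 (k8 c4378 c8243 c234 c13816 c5066 c12443 c4466 c353 (k8 c4450 c4370 c4443 c2039 c1186 c4377 c792 c4302 (k8 c4305 c4481 c7043 c4407 c9495 c12387 c4456 c4412 (k8 c9676 c1696 c4487 c4958 c2331 c6781 c1658 c9062 (k4 c2063 c10837 c1752 c7551 k0))))))) (by decide +kernel)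
def c13862 : PP 8 4 T 0x20000000001001000040000000000400400100005000000005000000205040100000200 := rS 0x29888b52a3f61c58fe7326430be711d9dc4e580f01c364f488941eb30a99d2e0b0ea9496815488c04052ebf13aaf4caae242f008618ac1 (k8 c4450 c4370 c13816 c13849 c1871 c4469 c4445 c4443 (k8 c4346 c4344 c13567 c4377 c263 c4461 c792 c6029 (k8 c4380 c1874 c5936 c1058 c84 c11617 c919 c12394 (k8 c1186 c4376 c224 c4550 c258 c171 c30 c4466 (k8 c12975 c353 c8951 c3112 c11634 c10439 c4467 c2111 (k8 c13487 c12388 c13861 c4362 c4356 c4418 c392 c7223 (k2 c7251 c4468 k0))))))) (by decide +kernel)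
def c13863 : PP 8 4 T 0x1001000000000000000000000100000000000005000040005040000000200 := rS 0x4341286a145b353ea2a2a10c67f348a4ca5f63a384c5a0f8814ec54dc60f64555abd3aa989294dac941984fa410392d022f4888cba3d449e4d6181c34c2a674b82c3a02028046e0f8a8d4defc (k8 c13567 c4378 c1059 c13855 c4376 c232 c13849 c263 (k8 c4461 c1058 c84 c11617 c919 c12394 c13858 c4470 (k8 c13816 c1918 c1958 c2039 c234 c4377 c792 c4550 (k8 c1871 c4380 c1874 c30 c1873 c4379 c4302 c4306 (k8 c4305 c958 c5936 c4469 c6029 c4344 c4346 c4445 (k8 c13860 c1224 c4472 c13624 c4370 c13601 c13862 c86 (k8 c231 c360 c361 c2378 c577 c12368 c2834 c844 (k8 c12366 c11648 c4130 c9368 c12377 c12375 c1481 c12365 (k4 c161 c4393 c13617 c8385 (k1 c4410 k0)))))))))) (by decide +kernel)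
def c13864 : PP 8 4 T 0x1001000000000000000000000100000000000005000040001040000000200 := rS 0x531fb0c770457a5622a260b14c67f8c0a4ca5f638988aad2d07c40321c34cba611b83c6a6f2081d22fc1eb44301533a5c161d010140315 (k8 c13855 c13849 c263 c4461 c1058 c84 c11617 c919 (k8 c12394 c13816 c260 c234 c13567 c4550 c30 c1873 (k8 c4378 c1059 c4376 c232 c4302 c4377 c13858 c4470 (k8 c13863 c6288 c2175 c6737 c943 c2178 c360 c2378 (k8 c577 c12368 c2834 c4472 c12366 c11648 c4370 c4450 (k8 c12377 c4337 c2858 c2993 c13617 c11556 c13033 c401 (k2 c417 c4503 k0))))))) (by decide +kernel)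
def c13865 : PP 8 4 T 0x1001000000000000000000000100000000000005000040000040000000200 := rS 0x2856e395c91c92d24727e1b101f1fc53178218d174b32a8ca47316a1cea3b13b058a9d289dcb01e8c1ecda6a2d9a4424519c4c61153c984fa371a9be124103a44465d1283df83d59a25a2180a99d2e0b0e8080a01 (k8 c13849 c263 c4461 c1058 c84 c11617 c919 c12394 (k8 c13816 c260 c2039 c1186 c234 c13567 c4376 c224 (k8 c4377 c792 c4550 c30 c1873 c4436 c4378 c1059 (k8 c232 c4379 c4302 c1958 c13855 c13864 c4441 c173 (k8 c2139 c2144 c1879 c5527 c229 c958 c1224 c4472 (k8 c4466 c12975 c1112 c3828 c4368 c4370 c4450 c353 (k8 c3112 c12443 c9141 c11755 c13487 c7648 c11410 c9676 (k8 c4456 c564 c7770 c4485 c9460 c794 c4313 c4471 (k8 c4468 c7315 c4414 c4486 c4467 c7307 c6900 c1475 (k4 c4280 c1161 c851 c7249 k0)))))))))) (by decide +kernel)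
def c13866 : PP 8 4 T 0x1001000000000000000000000100000000000005000000000040000000200 := rS 0x1cb4d7ca78ac1116755c8fcc6af890a4ca5f43aacd69d18968a2694c880b26d3daf4f0770f8ce324521054ce89598f4bab164a0506611b8d4de4f17861222507bf12e0b0e8080a01 (k8 c13849 c263 c4461 c1058 c84 c11617 c13567 c4376 (k8 c224 c4550 c13816 c1871 c258 c4378 c1059 c232 (k8 c4302 c4306 c4380 c4305 c4304 c4377 c234 c1186 (k8 c2039 c919 c12394 c13865 c175 c4446 c2151 c2132 (k8 c1887 c237 c2015 c1224 c958 c1105 c4466 c3841 (k8 c1961 c3863 c4476 c11577 c966 c581 c5962 c9141 (k8 c577 c12368 c2834 c11699 c5815 c11648 c13129 c7514 (k8 c11627 c4632 c6907 c9531 c4500 c12641 c13552 c1240 (k1 c4470 k0))))))))) (by decide +kernel)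
def c13867 : PP 8 4 T 0x2000000001001000080040000000000000000000000000000104444000000002004200 := rS 0x5c8f488491b86c2f091cadd7ab5 (k8 c4389 c4354 c4353 c4348 c4436 c35 c171 c232 (k4 c4281 c7574 c2180 c7328 (k1 c4034 k0))) (by decide +kernel)
def c13868 : PP 8 4 T 0x2000000000001000000040000000000041100000000000006004600440040412000008 := rS 0x868b44e484a879723d108fca217478e56eb5 (k8 c4389 c4353 c4348 c4388 c35 c1605 c8954 c2178 (k8 c2180 c7328 c4466 c11624 c4034 c353 c2165 c13189 (k1 c7307 k0))) (by decide +kernel)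
def c13869 : PP 8 4 T 0x1001000000010000044000140000000000000004500155404450040000008 := rS 0xb1a0c34ab053b18 (k8 c4472 c4368 c6869 c11624 c9009 c2115 c13237 c456 k0) (by decide +kernel)
def c13870 : PP 8 4 T 0x2000000001001000000000000000000000100000000000004000040005040000000200 := rS 0x19ed0502b4ce7f318b4e7171e17cb4590fa644cab57c499261828a4cab338b4c7e9b17b14a217299317e35379158e473e8eca8970588cba0202a443a01259043007408dc1efc (k8 c13567 c4376 c232 c4380 c30 c13816 c1873 c1874 (k8 c13849 c1058 c4550 c263 c4461 c4377 c792 c84 (k8 c11617 c13866 c1601 c4379 c1602 c250 c13868 c4378 (k8 c1059 c6330 c12978 c9029 c35 c1605 c7493 c1871 (k8 c13624 c8954 c13867 c4387 c1185 c1646 c1599 c4406 (k8 c4302 c4305 c4469 c5815 c5962 c13817 c4443 c353 (k8 c1105 c4476 c577 c13869 c4416 c1615 c2148 c7047 (k4 c10049 c918 c4554 c8784 (k2 c2112 c1794 (k1 c381 k0)))))))))) (by decide +kernel)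
def c13871 : PP 8 4 T 0x1001000001111004500000000000014014000002000051400000002000000 := rS 0x3f228e6c33ac147e510ba24a679 (k8 c1958 c9029 c2038 c35 c1605 c8954 c4406 c1686 (k4 c9009 c12920 c12827 c5124 (k1 c725 k0))) (by decide +kernel)
def c13872 : PP 8 4 T 0x2000000001001000000000000000000000100000000000004000040001040000000200 := rS 0xc6a12faa14e5a1044c64a5359849f0532d14ff173999c5a3c669317e3560b14a217299ec8ac723a5c16232ea443a4b408dc1e715bacc7e3b2a1040e183e9bd92b17e0080a01 (k8 c13849 c263 c4461 c13567 c4304 c4305 c4378 c4379 (k8 c13816 c30 c1873 c13866 c1601 c8954 c1185 c4353 (k8 c4387 c4376 c232 c4380 c1874 c1058 c4550 c4377 (k8 c792 c84 c11617 c1602 c250 c13868 c1224 c9029 (k8 c35 c1605 c7493 c6869 c1059 c6330 c12978 c2062 (k8 c13871 c2148 c918 c1615 c4416 c10049 c4451 c1646 (k8 c4406 c258 c4302 c1918 c1934 c13870 c4340 c6288 (k4 c6737 c903 c377 c7137 (k2 c7768 c7047 (k1 c8784 k0)))))))))) (by decide +kernel)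
def c13873 : PP 8 4 T 0x2000000001001000000000000000000000100000000000004000040000040000000200 := rS 0x803e30338b478cd263058abf3d914e2b758b246e353790496814888cba9705874040500c14a63b0391cfac707bf0a2170c2cc7e54 (k8 c13866 c8954 c1185 c13816 c35 c1605 c13567 c4376 (k8 c250 c4379 c1602 c30 c1601 c9029 c4406 c13849 (k8 c263 c4461 c1058 c84 c11617 c4377 c792 c4550 (k8 c4380 c1874 c1873 c4378 c1059 c232 c4305 c4304 (k8 c4353 c4387 c13868 c1224 c6330 c7493 c6869 c12978 (k8 c2062 c13871 c2148 c918 c13872 c2131 c5184 c2144 k0)))))) (by decide +kernel)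
def c13874 : PP 8 4 T 0x1000000001001000000000000000000000100000000000004000200000040000000200 := rS 0x23d7cd02624d5aab57aa54a2d1399d4eb54a8cc3c5b5c8c57a3d1092d024f17a44465d1283d2e0b0e8080b051d81c8e7d7e0a402652885d663f4494ca818 (k8 c13816 c13866 c9029 c2038 c8954 c1185 c35 c1605 (k8 c1646 c13849 c1599 c13567 c4379 c1602 c30 c1601 (k8 c4406 c263 c4461 c1058 c84 c11617 c4376 c224 (k8 c4377 c792 c4550 c1871 c258 c4380 c1874 c2178 (k8 c2180 c1170 c2139 c7328 c5066 c4466 c6288 c11624 (k8 c7513 c4500 c8996 c353 c2165 c5936 c6029 c5815 (k8 c5962 c4903 c9125 c2111 c2112 c379 c1515 c13068 k0))))))) (by decide +kernel)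
def c13875 : PP 8 4 T 0x1001000000000000000000000100000000000004000041000040000000200 := rS 0x5154b0d662111c263f0e0c65f699683e201944d5a935199c5a8755d2d428a39b40631661a5592613e8dc6a6f0dc25222301014bb051f8ed8e0f32a24f27b5d92d02fc4d8bc02c529b04a2540ba7630458a9043007 (k8 c30 c13816 c1873 c13873 c13874 c4472 c4368 c35 (k8 c13866 c1605 c6869 c9029 c7493 c13849 c1871 c13624 (k8 c13567 c4380 c1874 c6870 c1224 c1958 c2038 c1646 (k8 c4376 c250 c1601 c8954 c4406 c4377 c263 c4461 (k8 c792 c4550 c4436 c171 c4378 c1059 c232 c4379 (k8 c4302 c4305 c11624 c9009 c4471 c12813 c2115 c12920 (k8 c12827 c4551 c4426 c1670 c1631 c2184 c918 c11410 (k8 c9125 c4554 c7641 c4469 c6288 c2175 c6737 c13628 (k8 c577 c843 c4470 c8784 c360 c361 c4235 c725 (k4 c4324 c1429 c4397 c5541 k0)))))))))) (by decide +kernel)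
def c13876 : PP 8 4 T 0x1000000000000000040000000000044000100000000050080000002050000200000008 := rS 0x11e38 (k2 c4470 c11626 (k1 c361 k0)) (by decide +kernel)
def c13877 : PP 8 4 T 0x1001000000000000000000000100000000000004000040000040000000200 := rS 0x8f86a804ed22d080b29f5199c3e2d8b8f22a0b1b8d4de1d4888cba25010141e3b0391cfafc14804ca54 (k8 c13866 c1646 c13849 c1599 c13567 c4379 c1602 c30 (k8 c1601 c4376 c263 c4461 c224 c4377 c792 c4550 (k8 c1058 c4378 c1059 c232 c84 c13873 c13875 c4416 (k8 c2148 c2131 c918 c11410 c11776 c1105 c4466 c4476 (k4 c13876 c4278 c11536 c11800 (k2 c11526 c4486 k0)))))) (by decide +kernel)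
def c13878 : PP 8 4 T 0x12801102000000000000041001000000000010002500000480000404400200000000200 := rS 0x5121490715b8e4bac91b83c6a6f (k8 c4378 c1059 c4376 c232 c4305 c4377 c4348 c4353 (k4 c4387 c4559 c602 c369 (k1 c12652 k0))) (by decide +kernel)
def c13879 : PP 8 4 T 0x1001000000000000000000000100000000000004000000000040000000200 := rS 0xe5a6be53c5582b58b1d47a2c55c48be9d189695aaf34880b28b36af4f0770fb446719229091251638a48e3b298fe0a544b81c165d40a0cc27d1b8d4de178493c3a2f0c2444a02028041efc (k8 c13567 c4376 c13849 c263 c4461 c224 c4550 c13816 (k8 c1871 c1058 c258 c4436 c35 c4378 c1059 c232 (k8 c4379 c4302 c4306 c4380 c4377 c84 c30 c11617 (k8 c13866 c4406 c8954 c9029 c1601 c1602 c1599 c250 (k8 c1605 c2038 c13877 c175 c4446 c2151 c2153 c2132 (k8 c1887 c237 c2015 c958 c1766 c1105 c4466 c1961 (k8 c9756 c8622 c4476 c11577 c966 c577 c11699 c5962 (k8 c2112 c329 c1686 c4471 c7513 c4420 c13878 c4500 (k4 c12641 c13552 c1240 c4470 k0))))))))) (by decide +kernel)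
def c13880 : PP 8 4 T 0x2000100001001000000140000100000000000010104020004104444000005002004200 := rS 0x5e69adc0ab3 (k4 c1185 c263 c4353 c13867 (k2 c9061 c10439 k0)) (by decide +kernel)
def c13881 : PP 8 4 T 0x1101100001000000080140011000010000014000000000000040405445401100000000 := rS 0xa386ad94c39 (k4 c4280 c13552 c12155 c4330 (k2 c6667 c5964 k0)) (by decide +kernel)
def c13882 : PP 8 4 T 0x8001102000000000000000048000000000014000050000000060200000000000000000 := rS 0xa5a2d88be5ec64df45 (k8 c4451 c4378 c4364 c1170 c379 c7634 c10311 c4429 (k1 c4485 k0)) (by decide +kernel)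
def c13883 : PP 8 4 T 0x1001000000000000000000000100000000000004000000001000000000200 := rS 0x33da0c522aed6c4c8617d4e7169a1d56a95282c6f0927a4622a1199ccc6584494d66b91ab0c82075ab062c3b8a90c4e1e10874ea3d829508e232e9445e3f3231c542501014024b40860fa6f07b2562fc (k8 c13567 c4304 c4305 c4376 c4378 c4379 c13816 c4380 (k8 c1874 c13849 c263 c4461 c224 c13879 c2137 c227 (k8 c2136 c1871 c1645 c4377 c792 c1643 c226 c4406 (k8 c12961 c1686 c1058 c2143 c4466 c353 c2132 c13880 (k8 c12123 c4471 c4420 c7513 c30 c1873 c9009 c1059 (k8 c7514 c1185 c2138 c2038 c12975 c1607 c1110 c2177 (k8 c7295 c4411 c4550 c258 c4436 c232 c84 c5936 (k8 c6029 c5962 c1652 c13881 c11634 c4558 c10439 c4467 (k8 c2111 c9061 c4945 c13882 c7493 c6159 c1796 c381 k0))))))))) (by decide +kernel)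
def c13884 : PP 8 4 T 0x1001000000000000000000000100000000000004000000000000000000200 := rS 0x1146043618787a3f2988476291510430070e8080a01 (k8 c13849 c263 c4461 c1058 c30 c13816 c1873 c13879 (k8 c59 c12123 c2143 c2138 c2136 c12961 c4466 c9009 (k4 c2132 c13883 c2139 c13201 k0))) (by decide +kernel)
def c13885 : PP 8 4 T 0x2000000001002000000100000100000000000110004000000000141000000002004200 := rS 0xf6371a9056607 (k4 c30 c10182 c1873 c1059 (k2 c232 c1224 (k1 c13828 k0))) (by decide +kernel)
def c13886 : PP 8 4 T 0x2000000001002000000100000100000000000110004000000000041000000002004208 := rS 0x6658108c48807 (k4 c30 c13885 c2139 c2178 (k2 c12975 c6288 (k1 c12969 k0))) (by decide +kernel)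
def c13887 : PP 8 4 T 0x1000000000000000000000000100000000000004000241001040100000200 := rS 0x2dd0e75673056b435c9fd9abb244313e711c13146d353af4f40b1b8d49e2f48894a647168fd8eb38a9f4de0f64ac4b007138783aa525a0552232ebf15e2955945c8330c0080a01 (k8 c13849 c263 c4461 c13816 c6288 c13884 c4405 c5962 (k8 c4402 c5815 c13567 c4377 c792 c6029 c4380 c1874 (k8 c5936 c1058 c4466 c353 c30 c12975 c4304 c4305 (k8 c4376 c4378 c4379 c13886 c10182 c4289 c4288 c4286 (k8 c4404 c4290 c224 c4550 c1871 c258 c1059 c232 (k8 c84 c257 c1170 c4500 c13552 c9064 c2111 c4470 (k8 c11634 c11480 c4467 c4200 c1974 c2062 c8698 c1201 (k8 c4421 c1702 c12809 c7781 c709 c1636 c1797 c4032 k0)))))))) (by decide +kernel)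
def c13888 : PP 8 4 T 0x1000000000000000000000000100000000000004000041001040100000200 := rS 0x45d6ece5ad0d727f66922189f388e098a369a9ce6c54d9ec8aab57aa54a0b1b8d4824b278bd22232e8948e3b169447e2963acd12533cc55c87d3783d02c958bf0b007198600405138783a01 (k8 c13849 c1058 c4466 c353 c263 c4461 c13816 c6288 (k8 c30 c12975 c13567 c4304 c4305 c4380 c4376 c4378 (k8 c4379 c13884 c13886 c1958 c4290 c2038 c10182 c4289 (k8 c4402 c4288 c4405 c4286 c4403 c4404 c224 c4377 (k8 c792 c4550 c1871 c258 c1874 c1873 c1059 c232 (k8 c84 c5936 c6029 c5815 c5962 c13887 c1224 c13624 (k8 c4530 c12920 c13601 c13552 c9064 c2111 c4470 c11634 (k8 c11480 c4467 c4200 c2062 c8698 c1201 c4421 c1702 (k4 c7781 c1796 c7787 c4492 k0))))))))) (by decide +kernel)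
def c13889 : PP 8 4 T 0x1000000000000000000000000100000000000004000041000040100000200 := rS 0x16b430628892cd2632cff455ca7ce2382ab4d0f4b8b9cd84c58c1eda269228c0ee272c0781611418dc6a1b84904964f0ea44465d1291c263b169442a3f14b1d66074494cf315720080a010c1f4de0f40b2562fc (k8 c13567 c4304 c4305 c4380 c4376 c4378 c4379 c13816 (k8 c13849 c263 c4461 c13884 c13886 c1958 c4290 c2038 (k8 c30 c10182 c4289 c4402 c4288 c4284 c4405 c4286 (k8 c4403 c4401 c4404 c224 c4377 c792 c4550 c1058 (k8 c258 c1874 c1873 c4436 c171 c1059 c232 c4306 (k8 c4300 c84 c4466 c12975 c353 c8951 c13888 c2139 (k8 c1879 c300 c1224 c4472 c4530 c13201 c12920 c4362 (k8 c4459 c1907 c6832 c4151 c4470 c11634 c11480 c1201 (k8 c8243 c10049 c2029 c4474 c2062 c4573 c9114 c2107 (k2 c4393 c5129 (k1 c12814 k0))))))))))) (by decide +kernel)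
def c13890 : PP 8 4 T 0x1000000000001000000000540000004000000001520455405150402000000 := rS 0x24e2eac613455eab (k8 c5962 c5815 c260 c12819 c7129 c4362 c1127 c13185 k0) (by decide +kernel)
def c13891 : PP 8 4 T 0x1000000000000000000000000100000000000004000041004040000000200 := rS 0x50254ea6582950fe4ca2a8da6ab57aa54a9936a0cc24b2788cba25238a566670fa5c5a6b1897d82a748c5404053e9bc1e8164ac5f8694d8bc026339b148a89299ecf24103860a23b1fb90b420 (k8 c13889 c231 c13884 c4288 c4403 c4405 c13816 c30 (k8 c1873 c1958 c12934 c4290 c2038 c2178 c4530 c12920 (k8 c843 c13849 c1871 c13624 c844 c13567 c4304 c4305 (k8 c4380 c4376 c4378 c4379 c263 c4461 c13886 c4550 (k8 c13601 c6869 c577 c11577 c1918 c4286 c926 c86 (k8 c5084 c10182 c4402 c4404 c224 c4377 c792 c258 (k8 c1874 c4302 c4306 c958 c6171 c5936 c6029 c5815 (k8 c5962 c13552 c9064 c9368 c4474 c8698 c13890 c4406 (k4 c1646 c1686 c5073 c4560 (k1 c4551 k0)))))))))) (by decide +kernel)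
def c13892 : PP 8 4 T 0x400002000000000000008010410540040800000040444400000000000000000000000 := rS 0xbd5b511407f821d53e6549aae97172eb24c27d (k8 c4379 c4302 c4305 c4377 c4362 c4459 c1947 c1128 (k8 c7555 c1428 c12305 c4481 c4313 c2118 c11058 c851 (k2 c4454 c1167 k0))) (by decide +kernel)
def c13893 : PP 8 4 T 0x1000000000000000000000000100000000000004000041000040000000200 := rS 0x14566210fca14a9d4ca87a59520a8a6830d4aa386ae51c261c2b5a7131918ce6a760b1536bb2f9ad2e453d96862208a97562c940984fa37078d4de1b849045e917e0080a3b169447eb30399c028929b90f218 (k8 c13816 c1958 c13884 c4290 c2038 c13849 c5084 c30 (k8 c10182 c4288 c4405 c4286 c4403 c263 c4461 c13567 (k8 c4550 c1871 c1873 c4436 c171 c4378 c1059 c4376 (k8 c232 c4379 c4302 c4380 c4305 c4304 c4377 c13886 (k8 c13889 c11577 c231 c12934 c2178 c926 c1918 c577 (k8 c11057 c13624 c4530 c6869 c13601 c12920 c843 c13891 (k8 c4340 c13565 c942 c4470 c360 c361 c1201 c4324 (k8 c934 c1429 c13892 c6159 c12827 c4503 c12819 c4426 (k8 c1631 c1646 c1686 c5073 c4551 c8784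 c4235 c725 (k2 c4397 c5541 k0)))))))))) (by decide +kernel)
def c13894 : PP 8 4 T 0x1000000000000000000000000100000000000004000040000040000000200 := rS 0x455a68734969469f60a6c405932c148a1f2a1ce2e3c05974fa37078d4defc0e8bc3002029447eb30399dc801 (k8 c13849 c13884 c5084 c30 c10182 c4288 c4405 c263 (k8 c4461 c13816 c1871 c1058 c13567 c4378 c1059 c4376 (k8 c232 c4379 c4377 c84 c13893 c4416 c1615 c234 (k8 c2131 c2180 c4406 c1646 c1105 c4466 c13624 c6869 (k8 c6237 c13617 c4476 c844 c7043 c6832 c12959 c13876 k0))))) (by decide +kernel)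
def c13895 : PP 8 4 T 0x1000000000000000000000000100000000000004000000000040000000200 := rS 0xbe1c455a687562ad5f122fa74625a34880b26d5e9e03ed119c648a42059750283308dc1e35378745e1848bf00405298b4a23f1499dc801 (k8 c13849 c13884 c5084 c4402 c4288 c4405 c4286 c4290 (k8 c263 c4461 c13567 c4550 c13816 c1871 c1058 c4378 (k8 c1059 c4376 c232 c4302 c4306 c4380 c4377 c84 (k8 c13894 c175 c4446 c2151 c2153 c2132 c237 c2015 (k8 c958 c1105 c4466 c1961 c4476 c11577 c966 c577 (k8 c11699 c5815 c5962 c2112 c1904 c6832 c12959 c4470 (k2 c12641 c1240 k0))))))) (by decide +kernel)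
def c13896 : PP 8 4 T 0x1000000000000000000000000100000000000004000000001000000000200 := rS 0x67b418a455d9316ca78627cbe7169a1d32ab54c494a6b058dc2f092092c9e2f4888cba25238ec5a516399d1253509b466273b86d3ab94aa5c7f115a9922a430f074307d3783d02c958bf186c18b1d47b052a2cdc87331960422a010140207 (k8 c30 c13849 c263 c4461 c13895 c2143 c12975 c1607 (k8 c1110 c13884 c10182 c226 c4406 c12961 c1686 c4481 (k8 c4420 c4362 c13567 c4304 c4305 c4380 c4376 c4378 (k8 c4379 c13816 c1058 c4466 c2132 c13886 c227 c13541 (k8 c4411 c4288 c1193 c3628 c6781 c3249 c171 c8951 (k8 c353 c2177 c958 c7295 c4290 c2038 c5084 c4289 (k8 c4405 c4286 c4403 c4404 c224 c4377 c792 c4550 (k8 c1871 c258 c1874 c1873 c4436 c35 c232 c84 (k8 c1918 c5936 c4469 c6029 c5962 c8246 c1652 c13881 (k8 c11634 c10439 c11480 c4467 c4558 c11717 c4871 c4945 (k4 c13882 c4530 c8293 c1796 (k1 c381 k0)))))))))))) (by decide +kernel)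
def c13897 : PP 8 4 T 0x1000000000000000000000000100000000000004000000000000000000200 := rS 0x228c18716219d60a732c0787a543188454b3148fc7653720080a410c01c3a01 (k8 c13849 c1058 c30 c13816 c1873 c263 c4461 c13884 (k8 c4290 c4403 c4288 c4402 c10182 c13895 c2143 c1607 (k8 c226 c12961 c4466 c12975 c1110 c4406 c1686 c2132 (k4 c4481 c4362 c13896 c2139 (k1 c13201 k0))))) (by decide +kernel)
def c13898 : PP 8 4 T 0x2000000001000000000000000000000000100000000000000000000000040000000200 := rS 0xc367b298d4323a7e20498ba8c470d1f25526a6263957ab7488e562c9309f46e4f07b4d1e9d138ec7a2d4c9ac06595f8d4debb25a6c5f1352a0552682ebf183182191482072aa5d5a3002078420b0e804ac18 (k8 c13816 c13897 c13849 c1058 c84 c799 c4466 c1066 (k8 c268 c2047 c1194 c266 c30 c1873 c7547 c2189 (k8 c4472 c4450 c13567 c4377 c269 c826 c4380 c1882 (k8 c4441 c1871 c13624 c1874 c6870 c4378 c1059 c6330 (k8 c63 c12975 c1919 c1072 c2356 c2188 c3062 c353 (k8 c1232 c800 c7626 c4376 c258 c232 c4379 c4302 (k8 c4305 c4304 c4348 c4352 c4353 c4354 c13885 c12978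 (k8 c10851 c9125 c13478 c13733 c4330 c772 c940 c4356 (k8 c370 c4487 c4414 c6900 c11164 c4473 c413 c1519 (k2 c2028 c11444 k0)))))))))) (by decide +kernel)
def c13899 : PP 8 4 T 0x1000000000000000011000404001514010000001040000000000000000004200200 := rS 0x579c91705 (k4 c4308 c718 c385 c9756 (k1 c7478 k0)) (by decide +kernel)
def c13900 : PP 8 4 T 0x4000000001001000000000000000000000100000000000000000000000040000000200 := rS 0x511784d5b31996472488d730d48308fe1509a7d56a332c4192613e86e124b4093cda9d5999d326b4d8bd8a89343063043229052ead180344e111c4546e0f698606a6f7e24c762d4a954081e0e80406212c9580e0b (k8 c84 c30 c13897 c63 c799 c12975 c13849 c1058 (k8 c4466 c1066 c266 c13478 c2356 c3062 c9125 c13567 (k8 c4378 c1059 c13816 c7626 c4376 c232 c13898 c4470 (k8 c4300 c353 c9820 c268 c2047 c1194 c1873 c7547 (k8 c2189 c4472 c4450 c269 c3948 c4530 c1871 c13624 (k8 c1919 c1072 c13277 c3200 c1232 c9753 c258 c4380 (k8 c1874 c4436 c171 c4379 c4302 c4305 c4487 c7044 (k8 c4337 c4415 c4414 c530 c13899 c7517 c9825 c12456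 (k8 c11932 c3215 c768 c7307 c6900 c2029 c2107 c411 (k4 c413 c1167 c4474 c4454 k0)))))))))) (by decide +kernel)
def c13901 : PP 8 4 T 0x1001000000000000000000000100000000000000000000000040000000200 := rS 0x55854a43f61c592a93849b53a3b1e8b5326b01965362f289a183182191482072aa5d5a3002078420b0e804ac18 (k8 c13816 c13897 c13849 c1058 c84 c799 c4466 c1066 (k8 c268 c2047 c1194 c266 c30 c1873 c7547 c2189 (k8 c4472 c4450 c269 c3786 c1871 c13624 c63 c12975 (k8 c1919 c1072 c2356 c2188 c3062 c1232 c9753 c4436 (k8 c9125 c13478 c13900 c4362 c4356 c12813 c384 c3793 (k1 c9825 k0)))))) (by decide +kernel)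
def c13902 : PP 8 4 T 0x1000000000000000000000000100000000000000000000000040000000200 := rS 0x11c34905e4fc10cb103aa5527175c9cd843f0a94dc83806c552e552e84592613e8dc1e3537bf0b27b69a744eb31e8b4ce79628eca289340c18318218103c1d009144256059043007 (k8 c30 c13816 c1873 c84 c13897 c799 c7547 c13849 (k8 c1058 c4466 c1066 c2189 c4472 c4450 c268 c269 (k8 c3948 c3786 c3062 c4530 c1958 c13277 c2356 c2188 (k8 c3200 c353 c1232 c7626 c7540 c63 c13567 c4378 (k8 c1059 c4376 c232 c4379 c4302 c4305 c4300 c4377 (k8 c266 c1194 c13898 c9820 c4470 c13901 c4290 c4284 (k8 c4288 c12813 c12920 c1201 c4362 c3069 c13695 c10189 (k8 c4487 c7044 c4481 c4414 c12857 c9269 c4382 c1295 (k1 c7307 k0))))))))) (by decide +kernel)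
def c13903 : PP 8 4 T 0x2000000001001000000000000000000000100000000000000000000000000000000200 := rS 0x927f2a91c1acd1231d4c4c38adc72b108b24fa37079eda69d598f460993580cb2bf1a9bd764b4d8bd8a3b52a0552682ebf18318218103c1d22884ac0b208600e290a84c5401 (k8 c13849 c13902 c1639 c2220 c59 c30 c13816 c1873 (k8 c84 c13897 c799 c7547 c1058 c4466 c1066 c2189 (k8 c4472 c4450 c13567 c4377 c269 c826 c4380 c1882 (k8 c3062 c4530 c1871 c13624 c1874 c6870 c4378 c1059 (k8 c6330 c63 c12975 c1919 c1072 c268 c2188 c3200 (k8 c1232 c7626 c7540 c4376 c232 c4379 c4305 c4300 (k8 c4304 c4348 c4353 c4387 c12978 c10851 c2228 c2007 (k4 c3978 c1368 c1372 c13871 (k2 c7517 c12434 (k1 c2107 k0)))))))))) (by decide +kernel)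
def c13904 : PP 8 4 T 0x1001000000000000000000000100000000000000000008000000000000200 := rS 0xa6c266af14e4848d0d6ab85b9562e1147a75a2993580cb2bf8c1040e9b219145ea93417622154a8f4081e1082c3a01638e22a3707b4cac181a9bdf82a (k8 c13902 c13567 c4378 c1059 c13816 c13897 c7626 c4376 (k8 c232 c13903 c4470 c2227 c13849 c1058 c84 c799 (k8 c4466 c1066 c2188 c1694 c2220 c4411 c4377 c269 (k8 c826 c1871 c7547 c2189 c13624 c30 c1873 c4472 (k8 c6330 c63 c12975 c1919 c1072 c2198 c1232 c800 (k8 c4300 c4356 c8954 c1162 c12166 c164 c4394 c3215 (k4 c1202 c13601 c9059 c6588 (k2 c8143 c373 (k1 c13656 k0))))))))) (by decide +kernel)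
def c13905 : PP 8 4 T 0x1001000000000000000000000100000000000000000000000000000000200 := rS 0x4911891207f86954a4c34b8fd8e3806c5422c93e8dc1e3537c24dad347975f89d138f45ad14c9ac06594d8bd8a3b28a24d03060c6086040f07402451095816410c01c2a2a (k8 c13902 c2220 c30 c13816 c1873 c84 c13897 c799 (k8 c7547 c13849 c1058 c4466 c1066 c2189 c4472 c4450 (k8 c268 c269 c3948 c3786 c3062 c4530 c1871 c13624 (k8 c63 c12975 c1919 c1072 c2198 c2356 c2188 c353 (k8 c1232 c13567 c4377 c800 c7626 c9753 c4436 c4378 (k8 c1059 c4376 c232 c4379 c4305 c4300 c13903 c9820 (k8 c4470 c2227 c13904 c1193 c9009 c2115 c9029 c9826 (k4 c7517 c4486 c1154 c768 (k2 c2217 c12184 k0))))))))) (by decide +kernel)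
def c13906 : PP 8 4 T 0x1000000000000000000000000100000000000000000000000000000000200 := rS 0x4bb087e5372256222a6094630993434460431e9ac7604018788a212c9583a01208601607 (k8 c30 c84 c13816 c1873 c13849 c1058 c13897 c63 (k8 c799 c7547 c4466 c12975 c1066 c3062 c1919 c2188 (k8 c2189 c268 c2198 c269 c1072 c4472 c3786 c4450 (k8 c13902 c4411 c1694 c13905 c4290 c4288 c6159 c1193 (k1 c4958 k0))))) (by decide +kernel)
def c13907 : PP 8 4 T 0x1000000000001454000000208004000080000120 := rS 0x45a1d1269579e1321a8c9cda2173a2ad5b10828501407 (k8 c11031 c4462 c398 c4308 c4478 c4338 c4415 c399 (k8 c2572 c2426 c1081 c4364 c438 c1130 c7132 c13327 (k4 c7139 c679 c1965 c2589 (k1 c2120 k0)))) (by decide +kernel)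
def c13908 : PP 8 4 T 0x2000000001000000080000000000000000014050001444480000150000000001600001 := rS 0xa4cf452be25090d3f140c93093822375ea8cba8f55ab62065829a53718 (k8 c4472 c4448 c844 c4308 c2556 c4478 c4338 c4415 (k8 c4388 c840 c13617 c4354 c4386 c4276 c6022 c5402 (k8 c630 c4560 c11524 c12954 c4316 c4479 c4346 c2120 (k2 c1794 c719 (k1 c421 k0))))) (by decide +kernel)
def c13909 : PP 8 4 T 0x2000000001000000050000000000001000114050001554500800150015000000200020 := rS 0x5018592ce668468a8a272bd524d890bd22274faad5b1082afd3718 (k8 c4472 c4448 c6330 c4308 c4478 c4338 c4415 c6237 (k8 c351 c4352 c2032 c4469 c13817 c4345 c4346 c13112 (k8 c2120 c4396 c2390 c1480 c421 c630 c614 c9372 (k1 c1794 k0)))) (by decide +kernel)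
def c13910 : PP 8 4 T 0x6000000001000000010000000400000000100010040044080000150001000001600021 := rS 0x1080d2b9165369a1d1269609e537183f9c4be5d478d556ad881960a6b19a743c6d (k8 c7462 c575 c1233 c6119 c6097 c4308 c2556 c4478 (k8 c4338 c4415 c1099 c4388 c840 c577 c4387 c10049 (k8 c4472 c4448 c4447 c4450 c844 c7172 c7043 c13908 (k4 c13909 c719 c6907 c8058 (k2 c9756 c4316 k0))))) (by decide +kernel)
def c13911 : PP 8 4 T 0x2000000001000000000000000400000000100000000044080000048001000000000020 := rS 0x22626af34941302e4d9008a6d4e9ae2e736886402173ead4661e10964e8ab56c40cb050a0280e09 (k8 c13906 c11031 c4462 c398 c4308 c2556 c4478 c4338 (k8 c4415 c399 c2501 c311 c575 c6119 c4389 c1690 (k8 c2572 c2570 c308 c2426 c1081 c4356 c6097 c1233 (k8 c7462 c13907 c13910 c1849 c1104 c1103 c1184 c844 (k4 c789 c4443 c1862 c12794 k0))))) (by decide +kernel)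
def c13912 : PP 8 4 T 0x2000000001000000080000400400041044100040040054500000150006000000000001 := rS 0x7e4354b45539849c23268dd6ebd38ad6269b (k8 c1966 c4441 c4389 c4387 c4354 c4353 c4386 c4282 (k8 c4372 c6022 c5402 c2006 c4396 c1400 c13135 c4477 (k1 c11330 k0))) (by decide +kernel)
def c13913 : PP 8 4 T 0x2000000000000000000200400000000000014000000554000000150012000000200020 := rS 0x15e6d45b28364c2593d8c105d8e46ebd28aae2105 (k8 c4308 c4478 c4415 c1916 c4354 c4386 c4348 c4390 (k8 c630 c631 c2237 c1454 c2114 c2379 c413 c718 (k2 c694 c8140 (k1 c6907 k0)))) (by decide +kernel)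
def c13914 : PP 8 4 T 0x2000100001000000040100000000000000010050001454500800150012004001405001 := rS 0x4c11c34966053b349ea1a1041faae0daec72375eaad5b10899a57f18 (k8 c4472 c6330 c1878 c4441 c4478 c4338 c4415 c4354 (k8 c4386 c4348 c4390 c295 c12794 c12954 c4463 c4483 (k8 c5930 c2237 c4395 c908 c8784 c2036 c4326 c766 (k2 c2114 c9728 k0)))) (by decide +kernel)
def c13915 : PP 8 4 T 0x2000101000000000040100400000000000000050000054500800150012000008005020 := rS 0x4c1212cc0cd27a8684105d8e46ebd (k8 c4354 c4386 c4348 c4390 c4463 c4483 c5930 c2237 (k4 c4395 c8784 c2036 c615 (k2 c2114 c2218 k0))) (by decide +kernel)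
def c13916 : PP 8 4 T 0x2000100001001000040100000000000000010040200450504801150016000001405021 := rS 0x4f25aa54ec626c35406108bf0346c5d8e46ebd3889d3e7d5aa8e265155c40c6bf (k8 c6330 c1689 c4478 c4415 c1916 c4441 c13617 c4389 (k8 c1690 c6237 c351 c4387 c4354 c4386 c4348 c4390 (k8 c13914 c694 c13915 c4300 c4302 c10491 c7315 c374 (k4 c9121 c904 c7768 c1454 (k2 c4646 c2114 k0))))) (by decide +kernel)
def c13917 : PP 8 4 T 0x80000000000022000101000000000000110000000000000004050000000000000000000000000000000 := rS 0x172cba12dd7ab5 (k4 c4389 c4354 c4353 c4483 (k2 c8863 c4394 (k1 c8864 k0))) (by decide +kernel)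
def c13918 : PP 8 4 T 0x2000000001001000000000000000000000100000000000004000049000040000000000 := rS 0x2792d52a7631361aa030845f81a362be945364b4cd689439e5831862afd3a51209a48b13182b556938828d3e971a89cce652e8743c5f19810b47d0b804b263829fce8140683d661901b4414493981c771704aed1e391baf4e2b5 (k8 c4389 c4387 c4354 c4386 c4348 c4388 c4390 c13906 (k8 c4356 c144 c11031 c1081 c370 c4462 c2426 c303 (k8 c308 c663 c304 c568 c398 c399 c10049 c4308 (k8 c1689 c2501 c2570 c2572 c1690 c4476 c4461 c6119 (k8 c577 c575 c758 c840 c2556 c655 c351 c1099 (k8 c1194 c6237 c13617 c4478 c1656 c4415 c4338 c13911 (k8 c4441 c2235 c1878 c1913 c1916 c1232 c6330 c4530 (k8 c4472 c6869 c4447 c7043 c7172 c580 c13912 c13913 (k8 c13916 c4475 c4428 c12794 c694 c13917 c4300 c4302 (k8 c10491 c7315 c374 c9121 c904 c7768 c1454 c4646 (k1 c2114 k0))))))))))) (by decide +kernel)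
def c13919 : PP 8 4 T 0x2000000001001000080000000000000000101000001000004000205000040080000000 := rS 0x433051316a1b3c76cd4aa4d5b05881bd934586a993ea3419848e2358a456ec35ca5d6617208043a815d97cc6212ea3cce6516aa55ea555c4a126b2d1a4088b3a84c34780501c6a09 (k8 c13906 c1099 c8444 c4462 c439 c438 c2582 c11468 (k8 c604 c270 c7139 c271 c2559 c4316 c4479 c4445 (k8 c4444 c4346 c4345 c392 c7854 c655 c4388 c840 (k8 c86 c12307 c577 c4390 c1962 c56 c567 c174 (k8 c573 c663 c1194 c7328 c1209 c4353 c4352 c4350 (k8 c4372 c4374 c5402 c6833 c11410 c11776 c2119 c4330 (k8 c4453 c7308 c9688 c11613 c9531 c4338 c4413 c5073 (k8 c2066 c1101 c13177 c11164 c4471 c6175 c4420 c2120 (k1 c1964 k0))))))))) (by decide +kernel)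
def c13920 : PP 8 4 T 0x1001000000000000044000000040002001554000400050800000080400000 := rS 0x10e8956b05a228 (k4 c1102 c1763 c1581 c781 (k2 c4742 c1964 (k1 c2120 k0))) (by decide +kernel)
def c13921 : PP 8 4 T 0x2000000001001000000000000000000000100000000000004000241001040080000000 := rS 0x83308458c4914b4296a023a215a9f51c14288760a5527161db4d16ab52abd52653ac48ce5d3197c2681369acd30942810b4173c0681e553d8280e9d16a5c6a2710aed1e391ba456e715a90632b93b824a63f (k8 c13918 c418 c13906 c1089 c7328 c4364 c174 c4389 (k8 c4387 c4353 c4352 c4386 c4348 c4388 c4390 c86 (k8 c353 c1099 c1194 c392 c1233 c8444 c4462 c703 (k8 c2407 c304 c438 c439 c573 c271 c270 c13580 (k8 c4316 c7139 c2559 c601 c1962 c2582 c577 c12307 (k8 c840 c655 c4479 c11468 c7854 c4345 c4346 c4444 (k8 c4445 c604 c13919 c13920 c4471 c9125 c4418 c4420 (k8 c1964 c13393 c4308 c13617 c6233 c6230 c6907 c12297 (k8 c2125 c4457 c679 c1760 c11453 c2113 c2428 c614 (k2 c4570 c7527 k0)))))))))) (by decide +kernel)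
def c13922 : PP 8 4 T 0x4000200000000040000500 := rS 0x19448406b0e9a4da058496036163d16c0c41 (k8 c174 c4462 c12637 c1217 c1218 c689 c4476 c4320 (k8 c2492 c4270 c7300 c3233 c8429 c4466 c4479 c440 (k1 c4340 k0))) (by decide +kernel)
def c13923 : PP 8 4 T 0x4000200000000040000100 := rS 0x216802593c068060a (k8 c13922 c303 c438 c439 c2504 c2581 c4476 c4461 (k1 c575 k0)) (by decide +kernel)
def c13924 : PP 8 4 T 0x2000000001001000000000000000000000100000000000004000241001040000000000 := rS 0x3e09 (k2 c13906 c13921 (k1 c13923 k0)) (by decide +kernel)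
def c13925 : PP 8 4 T 0x6000000000000000000015410400001400100005100400000000000000000080000080 := rS 0xa554a654e688497d14c843a25fb045dac56e715a9dce66f001b4c258 (k8 c1097 c617 c4993 c1098 c9199 c3100 c3101 c4389 (k8 c4387 c4353 c4350 c4390 c4481 c8860 c7172 c7043 (k8 c9531 c2123 c2435 c4322 c8286 c13293 c8246 c2719 (k2 c1883 c10851 k0)))) (by decide +kernel)
def c13926 : PP 8 4 T 0x15000500001450010005100550000000000000000080000080 := rS 0x31c4524ab892655ead82c250c8b3b9ccda58 (k8 c1097 c4993 c3100 c3101 c8286 c2123 c4440 c4410 (k8 c1905 c1633 c8246 c4479 c13092 c4553 c7287 c1608 (k1 c4478 k0))) (by decide +kernel)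
def c13927 : PP 8 4 T 0x22000000000000000000004410400001050110001100450000000000000000080000080 := rS 0x1246256c15925d86c454ca555a6430a9578b8d0b147a456ebd38ad4ee7337800c2583da6d8ac1 (k8 c4450 c4370 c4448 c4366 c1097 c617 c1098 c9199 (k8 c3100 c3101 c4389 c4387 c4354 c4353 c4352 c4388 (k8 c4350 c13926 c756 c2720 c2719 c757 c1880 c1885 (k8 c3777 c7959 c7287 c4330 c2714 c7308 c10837 c4903 (k2 c4478 c2127 (k1 c1608 k0)))))) (by decide +kernel)
def c13928 : PP 8 4 T 0x2a000000001001000000004410010001050120001440041000100110015140000000082 := rS 0x126a11daa1a099518ba269f5397d4a8225bf50a81842ed1e915baf4e2b5378456265359ed36c560c1696ab (k8 c1945 c4457 c4314 c4450 c4370 c4448 c4366 c493 (k8 c491 c4350 c608 c9199 c4389 c4387 c4354 c4353 (k8 c4352 c4388 c4390 c9028 c4439 c4321 c8859 c9350 (k8 c2122 c5936 c2436 c13293 c6233 c4539 c4469 c9082 (k4 c1840 c7984 c10851 c1763 (k2 c7768 c9125 (k1 c2125 k0))))))) (by decide +kernel)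
def c13929 : PP 8 4 T 0x2000000001001000000000000000000000100000000000000000155001040080000400 := rS 0x18e22ac28c15111660b15367b61c6066974eae57e353a9e4ee734a984ca6b5999c2a002c018122d (k8 c392 c13906 c4462 c1097 c1098 c2630 c4555 c11612 (k8 c493 c491 c617 c9517 c3100 c3101 c501 c11627 (k8 c1099 c6330 c7514 c1233 c1194 c432 c4472 c9009 (k8 c4366 c4448 c4370 c4450 c13925 c13927 c4314 c1863 (k4 c13928 c4338 c2717 c4478 k0))))) (by decide +kernel)
def c13930 : PP 8 4 T 0x1000000011000100001440014005100550000000005000000080000080 := rS 0xee2ec23b9cd2ab30a800b08b (k8 c8286 c1097 c1098 c2630 c11612 c9517 c3100 c3101 (k4 c13926 c9460 c3107 c4471 k0)) (by decide +kernel)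
def c13931 : PP 8 4 T 0x2000000001001000000000000000000000100000000000000000145001040080000400 := rS 0x67aa61aa049a8d863b4fab62c5482a20be8240a1d0aab841a54f13608b8f69b62a608067599acca15309b52a6f39800b0773c9d4b60604aed628f48add7a715a8852e2d4eae57e35 (k8 c1099 c6330 c7514 c1233 c392 c1194 c86 c4389 (k8 c4387 c4354 c4353 c4352 c4388 c4350 c4390 c13906 (k8 c4462 c12637 c11627 c501 c3101 c1097 c1098 c3100 (k8 c9199 c9517 c4993 c617 c2630 c491 c493 c11612 (k8 c4555 c13929 c5810 c3110 c1849 c3108 c1104 c1853 (k8 c4443 c2011 c1880 c8246 c1845 c5976 c11158 c4439 (k8 c2122 c2436 c13930 c4314 c9478 c7172 c6230 c6233 (k8 c1600 c4362 c9082 c9125 c2125 c4329 c7768 c1795 (k1 c11166 k0))))))))) (by decide +kernel)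
def c13932 : PP 8 4 T 0x1001000010000000000000000080000000000000000000000000001140020 := rS 0x29068a34b (k4 c4427 c1590 c13509 c4475 (k1 c414 k0)) (by decide +kernel)
def c13933 : PP 8 4 T 0x20000200001001000000004000400000000000000100504001000010801140081140020 := rS 0x34523b22d5eab68a485067369958a87 (k8 c7313 c4370 c7854 c695 c655 c1102 c1101 c1763 (k4 c1573 c1778 c13932 c9062 (k2 c13166 c9124 (k1 c414 k0)))) (by decide +kernel)
def c13934 : PP 8 4 T 0x22000000001001000000000400000000000100004000400004000015001040081100800 := rS 0x2714820d3118a05c4ba298222ac5343556a54cabd52fd8925527161d9ccff0458a3d22b75a89d2e2d4e955660d388043a5f31884da750981186c5609a5365a (k8 c271 c4448 c844 c4450 c4370 c9009 c270 c2551 (k8 c11468 c695 c86 c12307 c577 c56 c567 c4387 (k8 c568 c663 c306 c1233 c392 c1194 c353 c4389 (k8 c4353 c4352 c4388 c4350 c7079 c7517 c4408 c13933 (k8 c4471 c9125 c4418 c13242 c7787 c4345 c4346 c4443 (k8 c4444 c4445 c8237 c4539 c4553 c7287 c6348 c4453 (k8 c1857 c4554 c4468 c766 c5402 c614 c781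 c6927 (k1 c2390 k0)))))))) (by decide +kernel)
def c13935 : PP 8 4 T 0x1000000000015000000001450010000001554000000000005000000200000 := rS 0xae1744d5ad155a4e2105 (k8 c4308 c4478 c4413 c13092 c455 c4903 c4553 c4469 (k2 c12794 c789 k0)) (by decide +kernel)
def c13936 : PP 8 4 T 0x2000000001001000000000000000000000100000000000004000051001040080000000 := rS 0xdb42102e28d2e26ad4424e20ab4ac14286960b1536c38c25d3abf1a9ec32b331884ce6d3a994262d3585c085a050fc6645 (k8 c13924 c432 c13918 c13931 c271 c270 c2552 c6097 (k8 c392 c2551 c7854 c11468 c695 c655 c86 c12307 (k8 c663 c308 c703 c1099 c6330 c1233 c1194 c4472 (k8 c9009 c4448 c4370 c4450 c844 c13934 c4308 c5073 (k8 c13092 c4478 c4413 c13935 c6230 c4553 c4457 c1862 (k4 c4469 c4479 c7984 c4316 (k1 c454 k0))))))) (by decide +kernel)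
def c13937 : PP 8 4 T 0x400000000001000000010000000001400040004101554004400005000940000100800 := rS 0x3a6845d5d042aacd0eab (k8 c1845 c11158 c663 c306 c7079 c13166 c13242 c789 (k2 c4471 c1762 k0)) (by decide +kernel)
def c13938 : PP 8 4 T 0x2000000001001000000000000000000000100000000000004000041001040080000000 := rS 0x44ab5a3050a22c36878444d565334a605c9b62900d6653a9b4ce173184c085a3d8293a2d198847e45 (k8 c13924 c13918 c86 c432 c392 c1233 c13931 c703 (k8 c271 c270 c2551 c12307 c2552 c655 c695 c11468 (k8 c7854 c6097 c13936 c3110 c1849 c1104 c1103 c844 (k8 c3938 c1845 c4443 c7115 c11158 c4316 c4322 c13937 (k4 c4308 c454 c6230 c4742 (k1 c8058 k0)))))) (by decide +kernel)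
def c13939 : PP 8 4 T 0x20000100000000000000004000404000010010001500514020000000000000000000000 := rS 0x8b43c2226938b440e66d3da6d3ac560a5d5a67 (k8 c656 c6230 c1195 c4450 c4370 c4368 c4448 c4366 (k8 c4993 c1110 c4478 c4481 c4413 c4553 c8229 c11158 (k2 c4322 c2123 k0))) (by decide +kernel)
def c13940 : PP 8 4 T 0x20000100000001000000004000404000010010001500510020000000000040040100000 := rS 0x4344ce693458b4c46d3da6d3ac560a5d5a67 (k8 c656 c6230 c1195 c4450 c4370 c4368 c4448 c4366 (k8 c4993 c13939 c815 c1769 c11351 c1109 c4553 c2123 (k1 c11158 k0))) (by decide +kernel)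
def c13941 : PP 8 4 T 0x22000100000000000000004000414000010120001500414020000000000000000000000 := rS 0xbc822ec4e1afd42a0540934fa8e1116881cd76b147a456ebd38ad4c27b4da758ac133a5d726f (k8 c1107 c4548 c1195 c656 c4450 c4370 c4368 c4448 (k8 c4366 c617 c4389 c4387 c4354 c4353 c4352 c4388 (k8 c4350 c4390 c1110 c4478 c4481 c9028 c4337 c4414 (k8 c4413 c11255 c4439 c4321 c8862 c12333 c4553 c810 (k2 c6745 c4477 (k1 c548 k0)))))) (by decide +kernel)
def c13942 : PP 8 4 T 0x22000100000001000000004000404000010100001500510020000000000040040100000 := rS 0x2a61acf5029d3ea32fa09fa8540c222d1339a4c5a62442e55abb58a3d22b75e9c56a6f309ed369d62b04ce97 (k8 c1195 c656 c4450 c4370 c4368 c4448 c4366 c617 (k8 c1107 c4389 c4387 c4354 c4353 c4352 c4388 c4350 (k8 c4390 c6230 c4548 c13940 c13941 c815 c11351 c1109 (k8 c4553 c4481 c9028 c4439 c4321 c8862 c6745 c548 (k8 c9082 c6233 c4532 c2125 c1795 c4329 c7768 c11166 k0))))) (by decide +kernel)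
def c13943 : PP 8 4 T 0x22000000000001000000004000404000010100001500510020000000000040040100000 := rS 0x64ae4bb11534355f124cc251487822c51e91369bcc29b4eb158297 (k8 c1195 c4450 c4370 c4368 c4448 c617 c1107 c4993 (k8 c4352 c4388 c4350 c13942 c4410 c9062 c4322 c8246 (k8 c4479 c4346 c8237 c4539 c7287 c812 c6781 c7308 (k1 c9531 k0)))) (by decide +kernel)
def c13944 : PP 8 4 T 0x22000000000001000000004000400000010100001500510020000000000040040100000 := rS 0x43c11166389aa8da67 (k8 c656 c4993 c13943 c4445 c1613 c1672 c13092 c10041 (k1 c9062 k0)) (by decide +kernel)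
def c13945 : PP 8 4 T 0x1000000000000000000000000080000000000000000000001000004000020 := rS 0x19 (k2 c268 c13509 k0) (by decide +kernel)
def c13946 : PP 8 4 T 0x2000000001001000000004000400000010100000100500004000150001040040100400 := rS 0x6692142a21334c9e0f0c1484a1768880522c0e814bc7d2ea054d0d19c48a34b84a29728744abcaa738898cc88f1ba457ab53c845626d3798402770d818f69d62b0630674b960b609 (k8 c13906 c12637 c4476 c1195 c656 c4472 c4450 c4370 (k8 c4368 c4366 c4462 c689 c1023 c487 c617 c1107 (k8 c4993 c4350 c608 c501 c4389 c4354 c4352 c4386 (k8 c4388 c13944 c67 c4412 c1649 c1646 c1777 c556 (k8 c1653 c6781 c2123 c4322 c4427 c1591 c11588 c4340 (k8 c8237 c4539 c1897 c812 c1773 c11613 c13945 c10867 (k8 c9676 c1567 c4466 c456 c7270 c313 c4475 c4465 (k8 c4046 c258 c6022 c10439 c11735 c161 c935 c2067 (k1 c373 k0))))))))) (by decide +kernel)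
def c13947 : PP 8 4 T 0x22800000000000000000000000000000000000000000000200000000004401602010000 := rS 0x1a627 (k2 c807 c7642 (k1 c9296 k0)) (by decide +kernel)
def c13948 : PP 8 4 T 0x2000000001001000000000000000000000100000000400004000051001040000100400 := rS 0x18e7e50a884cd3279f41e5e2e9ccaa63162e452258888c40a686aad5e020ec480a2f0c2646617849a12e6759a3c6e915ead4ea9508ac4de6100960b61f618fcee1b03025369d62b063045 (k8 c13924 c4472 c4450 c4370 c4368 c4448 c13906 c4462 (k8 c689 c1023 c13918 c9009 c13938 c12637 c4476 c487 (k8 c617 c1107 c4350 c608 c9517 c11627 c4389 c4354 (k8 c4352 c4386 c4388 c11612 c656 c1195 c13946 c4437 (k8 c7300 c823 c1880 c13396 c4819 c268 c4469 c10867 (k8 c4461 c4346 c4445 c8237 c4539 c4466 c2768 c7287 (k8 c313 c12392 c6781 c4468 c815 c247 c1110 c13947 (k8 c11613 c4046 c1380 c258 c6022 c10439 c11735 c161 (k2 c1465 c409 (k1 c12366 k0)))))))))) (by decide +kernel)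
def c13949 : PP 8 4 T 0x80001000000000040000000001 := rS 0x605 (k2 c655 c919 (k1 c4461 k0)) (by decide +kernel)
def c13950 : PP 8 4 T 0x1000000010015000014001554000000000000000000000005000000000000 := rS 0xb95d13 (k4 c4553 c2127 c4469 c789 k0) (by decide +kernel)
def c13951 : PP 8 4 T 0x2000000001001000000000000000000000100000000400004000051001040000000400 := rS 0x158334c870062d8824d56678ba5da2b232c14aa144a804b05b0fb0c7e1b03025369d62b063045 (k8 c13924 c4472 c4450 c4370 c4368 c4448 c13906 c4462 (k8 c689 c13918 c9009 c13938 c12637 c4476 c487 c9517 (k8 c13948 c141 c4308 c2516 c7508 c454 c1196 c4358 (k8 c13949 c13092 c1124 c7239 c4332 c382 c4726 c1032 (k2 c953 c13950 (k1 c13185 k0)))))) (by decide +kernel)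
def c13952 : PP 8 4 T 0x2000100000000000000005000404001410100004500814020000000000000000000000 := rS 0x671f99281429f4baa986a81269f51c40e6b147a456e715a98626674bab5726f (k8 c1107 c4548 c2049 c1195 c656 c4442 c617 c4389 (k8 c4387 c4353 c4352 c4388 c4350 c1110 c4478 c4337 (k8 c4414 c4413 c11255 c12333 c7768 c810 c1624 c563 (k4 c1923 c7308 c5124 c11166 (k1 c1521 k0))))) (by decide +kernel)
def c13953 : PP 8 4 T 0x1000000000000000000000000000000808000000000000840000100000 := rS 0x1500803 (k4 c8877 c1839 c12253 c266 k0) (by decide +kernel)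
def c13954 : PP 8 4 T 0x22000000001001000000004000404000010100001500810020000014001040040100000 := rS 0x699244cce53295024d429f5530d5027c76a311c40a8201494c3a32179451073498b4c4b982a1d76b147a456eb537984f69b4eafd8ac189a5d5a8b (k8 c564 c2049 c1195 c4442 c4450 c4370 c4369 c4368 (k8 c4448 c4366 c617 c1107 c4389 c4353 c4352 c4388 (k8 c4350 c4390 c1924 c9062 c4548 c13952 c815 c11351 (k8 c1109 c2123 c1863 c13953 c4469 c953 c416 c957 (k8 c4466 c7314 c4468 c832 c9384 c1600 c4414 c11255 (k8 c13189 c7768 c1625 c563 c377 c2045 c9959 c9957 (k4 c11166 c902 c1791 c4278 (k1 c13105 k0)))))))) (by decide +kernel)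
def c13955 : PP 8 4 T 0x22000000001001000000004000400000010100001500810020000014001040040100000 := rS 0x873998c588914c45548b3db158267 (k8 c656 c4450 c4370 c4366 c564 c13954 c4415 c1573 (k4 c1945 c4468 c815 c1110 (k2 c1925 c2123 k0))) (by decide +kernel)
def c13956 : PP 8 4 T 0x1001000000015000400000000010005540820001000000001000004000001 := rS 0x1a02c0b016128a568650e69 (k8 c69 c1653 c1918 c2048 c2123 c4322 c13945 c4465 (k2 c9676 c525 (k1 c457 k0))) (by decide +kernel)
def c13957 : PP 8 4 T 0x22000000001001000000004000400000010100001100800024000014001040040000080 := rS 0x2f19abca48b44154e6640a804ee1b3db158313 (k8 c4442 c4450 c4370 c4366 c689 c1023 c487 c648 (k8 c13955 c1649 c1646 c13956 c187 c7314 c1776 c417 (k2 c3937 c4469 k0))) (by decide +kernel)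
def c13958 : PP 8 4 T 0x2000000001001000000000000000000000100000000000004000051001040000000400 := rS 0x334c870062d55c4126ad33a5da2652a8e82917591a982c54ea6c36c38c114ea794a8187e012c16c121f (k8 c13938 c13906 c12637 c4476 c487 c13918 c4462 c9517 (k8 c501 c11627 c13924 c4472 c9009 c689 c4448 c4368 (k8 c4370 c4450 c13951 c13957 c4358 c11612 c4471 c141 (k8 c2516 c454 c3029 c13949 c2049 c1124 c7239 c4415 (k4 c4332 c382 c4726 c1032 (k2 c953 c13950 k0)))))) (by decide +kernel)
def c13959 : PP 8 4 T 0x12800000000001000020000010404000010100001500410020500020800040040100000 := rS 0x20a1364868ba7a31a261a55502b53e738824c522d578cd62915b9c56a6f3099d2e87 (k8 c3570 c1195 c656 c617 c1107 c4389 c4387 c4353 (k8 c4352 c4350 c4340 c4346 c456 c1760 c11351 c4468 (k8 c1109 c4414 c4338 c11255 c1600 c4329 c7314 c11648 (k4 c13198 c810 c1050 c7308 (k2 c693 c10837 (k1 c4464 k0)))))) (by decide +kernel)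
def c13960 : PP 8 4 T 0x100000001000020000000000000000000000000150020000000800040040140000 := rS 0x16950e4ad (k4 c6230 c4158 c4464 c457 (k1 c8997 k0)) (by decide +kernel)
def c13961 : PP 8 4 T 0x12000000001001000020025010400000000000005104010020000000800040041000080 := rS 0x19f4341b21127d39c10266940a2d0a1b5dac56e710a99cee87 (k8 c3570 c3122 c656 c648 c4387 c4353 c4350 c4390 (k8 c688 c13580 c4632 c7000 c13396 c1758 c13960 c4408 (k4 c4409 c4314 c9531 c11339 (k2 c4422 c1792 (k1 c9063 k0))))) (by decide +kernel)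
def c13962 : PP 8 4 T 0x12000000001001000000025000400000010100001100410020000120000040040000400 := rS 0x219881341a3d44c327755ae5a0511d1b4de9d0a8181253 (k8 c2034 c13906 c4462 c648 c3040 c1107 c4993 c1055 (k8 c1595 c1056 c3048 c1675 c3122 c1872 c13959 c13961 (k4 c1050 c7035 c1849 c863 (k2 c7039 c422 k0)))) (by decide +kernel)
def c13963 : PP 8 4 T 0x10800000001001000000015000404000010000005540100024000160000040040100400 := rS 0x170745a3b028a4a88800a74ce9743a2d5e99 (k8 c4443 c4346 c4632 c10171 c1195 c656 c3040 c487 (k8 c2123 c9478 c1599 c266 c1600 c247 c10867 c13237 (k1 c4724 k0))) (by decide +kernel)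
def c13964 : PP 8 4 T 0x1000000000000000000000000000080000020000000000040040000080 := rS 0xb4a83a (k4 c1021 c1022 c8995 c8997 k0) (by decide +kernel)
def c13965 : PP 8 4 T 0x12000000001001000000021000400000010100001100410020000120000040040000400 := rS 0xc3 (k2 c196 c13962 k0) (by decide +kernel)
def c13966 : PP 8 4 T 0x12000000001001000000015000404000010100004500000004000160000040040000400 := rS 0x14ea55fa61530d4d8bd409f014405a0514ae4a90589a20d28145a150e195dac51e9138ad4f26f308053a730a99d2e582d86c0c09 (k8 c13906 c4462 c688 c12637 c4476 c1195 c656 c648 (k8 c13964 c3040 c487 c617 c1107 c501 c4389 c4387 (k8 c4352 c4388 c4350 c4390 c1872 c10171 c13580 c4632 (k8 c7000 c13396 c2123 c13963 c4314 c9478 c4548 c1599 (k8 c266 c247 c4468 c4461 c4414 c11255 c8877 c4727 (k4 c4329 c7768 c4488 c5760 (k2 c9959 c2011 (k1 c9957 k0)))))))) (by decide +kernel)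
def c13967 : PP 8 4 T 0x1000000000000000000000000000000800000020000000001000040000080 := rS 0x19a60306d (k4 c4993 c1024 c1111 c255 (k1 c6171 k0)) (by decide +kernel)
def c13968 : PP 8 4 T 0x800000000001000000015000004000150000000000000020000020000040008000401 := rS 0x2988ab05a934d8704203578cd3a53 (k8 c2034 c3040 c4340 c4346 c422 c12555 c4726 c1849 (k4 c1030 c912 c2127 c7287 (k2 c781 c4468 k0))) (by decide +kernel)
def c13969 : PP 8 4 T 0x12000000001001000000015000404000010100000500000004000160000040040000400 := rS 0x866204d44d321a3d1b4029d4b960b609 (k8 c13906 c12637 c4476 c1195 c3040 c487 c4993 c13966 (k8 c1050 c1132 c13968 c7035 c1849 c863 c7039 c422 k0)) (by decide +kernel)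
def c13970 : PP 8 4 T 0x12000000001001000000005000400000010100000500410004000160000040040000400 := rS 0x10e7b44a2cc66989aa8da9d3999d8a582d9e40c09 (k8 c13906 c4462 c501 c12637 c4476 c13965 c656 c13964 (k8 c3040 c4993 c13969 c4445 c1885 c1613 c1672 c1945 (k2 c4055 c10041 (k1 c2123 k0)))) (by decide +kernel)
def c13971 : PP 8 4 T 0x12000000000001000000009000400000000000001544000000000005000000000000000 := rS 0x19f4341320fabf40a2d0a89820e9967b43d2e2ebb58add7a71 (k8 c4387 c4354 c4353 c4350 c4390 c4362 c4459 c1907 (k8 c1211 c2028 c4471 c4481 c7172 c13580 c4632 c7000 (k4 c3036 c4409 c8103 c10474 (k2 c4422 c1792 (k1 c9666 k0))))) (by decide +kernel)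
def c13972 : PP 8 4 T 0x12000000001001000000025010400000000000005104010020000020000040041000080 := rS 0x1a03a (k2 c1055 c1056 (k1 c13961 k0)) (by decide +kernel)
def c13973 : PP 8 4 T 0x12000000001001000000000000400000000100000000010004000041001040000000400 := rS 0x442a98ab91a835fa8243a050abf4c22cf69b34c4cd4c35d9c48a753ca547e11589bd824d5ea74e6193b8183e4033960b609 (k8 c13906 c12637 c4476 c656 c13958 c13938 c4462 c13967 (k8 c1872 c13964 c3040 c4354 c1994 c1853 c1107 c4350 (k8 c608 c13918 c9517 c501 c11627 c13924 c4387 c4390 (k8 c13971 c13970 c4442 c69 c3764 c561 c564 c4488 (k8 c5760 c13580 c7000 c10171 c7040 c4306 c509 c8124 (k4 c7514 c13972 c13969 c7750 (k1 c1945 k0))))))) (by decide +kernel)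
def c13974 : PP 8 4 T 0x2000000001001000000008400400000000000005544000000000005000000005000000 := rS 0x19f4366d15908245a1503080b94913041d32e97175dadd7a71 (k8 c4387 c4354 c4353 c4390 c4362 c4459 c2028 c4471 (k8 c4481 c7172 c1048 c2030 c4465 c4439 c4321 c4322 (k4 c7040 c8103 c4452 c2064 (k2 c4422 c1792 (k1 c4495 k0))))) (by decide +kernel)
def c13975 : PP 8 4 T 0x22000000000001000000005000404000010100001540810020000020000040000100001 := rS 0x3fb25face412050a7d54d0e1aa04f88e2002498b40a29310ed72132a41510875dac51e915baf4e2b5379853a674b9ed36c529c4d5a8b (k8 c564 c2049 c4442 c2034 c4370 c4448 c4366 c1195 (k8 c656 c3040 c617 c1107 c4389 c4387 c4354 c4353 (k8 c4352 c4388 c4350 c4390 c1924 c2123 c9062 c9478 (k8 c517 c4548 c4158 c13952 c1599 c266 c247 c9125 (k8 c4461 c4468 c12972 c4414 c11255 c13189 c4423 c7768 (k8 c1625 c563 c2045 c6745 c11166 c4306 c3736 c1521 (k1 c4483 k0))))))) (by decide +kernel)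
def c13976 : PP 8 4 T 0x2000000001001000000000000400000000100000000010004000041001040000000400 := rS 0xc6861622453115522cd4c33486d8abf3dc60ea794a8fcde01609cc32770f9002a0633960b609 (k8 c13906 c12637 c4476 c656 c4462 c648 c13958 c13938 (k8 c13967 c1872 c13964 c1853 c487 c1107 c13918 c9517 (k8 c501 c11627 c13973 c4366 c4369 c4370 c688 c13396 (k8 c13974 c13944 c564 c13975 c4415 c1573 c1945 c4468 (k2 c2123 c815 (k1 c1925 k0)))))) (by decide +kernel)
def c13977 : PP 8 4 T 0x10000000001001000000020000040001000000000000020000000160000040000000000 := rS 0x2269b190bc58294cb40a311 (k8 c4412 c1595 c1056 c1136 c3693 c4468 c917 c456 (k2 c13624 c4340 (k1 c4488 k0))) (by decide +kernel)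
def c13978 : PP 8 4 T 0x12000000001001000000015000400000010114000500000004000160000040040000400 := rS 0x7b45a6e26aa3c9b53a732c16c0c09 (k8 c13906 c4462 c12637 c4476 c13964 c3040 c4993 c501 (k4 c13969 c4445 c1972 c1673 (k2 c7035 c2123 k0))) (by decide +kernel)
def c13979 : PP 8 4 T 0x12000000001001000000000000400000000100000000000004000041001040000000400 := rS 0x5a2957341885361914ea951f9bd829d88a1c327744954c8732c16c3e403c8540c09 (k8 c13906 c4462 c648 c501 c13958 c13938 c12637 c4476 (k8 c13964 c13976 c1646 c9478 c13967 c1872 c7313 c4412 (k8 c3040 c1853 c1107 c13918 c9517 c11627 c13924 c13971 (k4 c2034 c13978 c1056 c13977 (k2 c3693 c983 (k1 c4468 k0)))))) (by decide +kernel)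
def c13980 : PP 8 4 T 0x2000000001001000000000000400000000100000000000004000041001040000000400 := rS 0x3214c482c05849ad14c33486d8abf3dc6112872ac44c8153a8fcf26d3780582730c9dcb05b030243e40 (k8 c13958 c13938 c13906 c4462 c12637 c4476 c13967 c1872 (k8 c13964 c1853 c487 c1107 c4993 c501 c13918 c11627 (k8 c648 c13976 c4412 c1646 c7313 c9478 c13979 c4366 (k8 c4369 c4370 c688 c13396 c13974 c2123 c13956 c4322 (k4 c13945 c8238 c4479 c1567 (k2 c7270 c4340 k0)))))) (by decide +kernel)
def c13981 : PP 8 4 T 0x2000000001001000000000000000000000100000000000004000041001040000000400 := rS 0x44c5ebf28d2d84334ca6c382101ab45aab51c41266768a5caa3a628522eb24eb0480012c254b60604a3c7e1f (k8 c13938 c13918 c4388 c13906 c4462 c12637 c9517 c4476 (k8 c487 c13958 c1853 c3040 c13980 c4358 c11612 c3046 (k8 c4471 c141 c3029 c1762 c13949 c1124 c7239 c4337 (k8 c4415 c4332 c4338 c382 c12555 c4726 c1849 c1032 (k8 c952 c13950 c4459 c1867 c3036 c7984 c13683 c4469 k0))))) (by decide +kernel)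
def c13982 : PP 8 4 T 0x2001001001000000020204010001000100100404002000000000150000820000004000 := rS 0x2463b4d484f662159ebb478dd22b75ead53abf62b0630cb (k8 c3681 c4472 c4450 c4370 c4369 c4368 c4389 c4354 (k8 c4353 c4352 c4386 c4388 c4390 c1793 c717 c2129 (k4 c6655 c8005 c6022 c460 (k2 c1843 c7927 k0)))) (by decide +kernel)
def c13983 : PP 8 4 T 0x2000000001001000000000000000000040100000540010000000155001040000100802 := rS 0x660918ed367a909e853732552a07eae5469f65c595c281dab5a02e3620ca6510d52e12ab451f4ce7f43c1176b147a456ebd5a9ec32555983c6e0d38b0d369d5fb1583181985c5a134ca55261c (k8 c567 c1030 c763 c1032 c570 c911 c573 c951 (k8 c4472 c4450 c4370 c4369 c4368 c4448 c9009 c4387 (k8 c568 c4386 c304 c663 c306 c308 c703 c4389 (k8 c4354 c4353 c4352 c4388 c4350 c4390 c7079 c7313 (k8 c7517 c4555 c4409 c9062 c9421 c4322 c4427 c5853 (k8 c1590 c414 c2620 c686 c687 c4475 c944 c1763 (k8 c7662 c2127 c4471 c3681 c3695 c2762 c4361 c7787 (k8 c2125 c7768 c13982 c10837 c1499 c6655 c8005 c8730 (k4 c6022 c460 c1843 c2129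 (k1 c7927 k0)))))))))) (by decide +kernel)
def c13984 : PP 8 4 T 0x2010100001000000000500010400040010000000144080080800150000040044000902 := rS 0x27b498ea13e1fd04b1478e56ebd3d83c6e0d389e57e9749871fb1840c203217 (k8 c573 c308 c4465 c4439 c4472 c12954 c567 c1030 (k8 c929 c4369 c4447 c4387 c568 c4386 c304 c703 (k8 c4354 c4353 c4348 c4388 c4350 c7055 c677 c5124 (k4 c897 c1351 c7454 c420 (k1 c6022 k0))))) (by decide +kernel)
def c13985 : PP 8 4 T 0x2000000001001000000004010400000010120000140000080000150001040040200802 := rS 0x8e9e69284fe6e51c354ca565aa45c52563f5a2510dd2c128f1c8dd22b75ead4320d38a6d3abf62b0630971985c5a134ca4c3905333255628 (k8 c647 c1573 c2609 c646 c4308 c567 c1030 c1032 (k8 c570 c911 c573 c951 c929 c4472 c4450 c4370 (k8 c4369 c4368 c4448 c4387 c568 c308 c4389 c4354 (k8 c4353 c4352 c4386 c4348 c4388 c13906 c4457 c2660 (k8 c1862 c454 c12954 c13950 c4475 c4554 c2752 c3924 (k8 c3939 c7959 c4330 c941 c13984 c1459 c897 c7454 (k2 c2125 c4374 (k1 c1570 k0)))))))) (by decide +kernel)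
def c13986 : PP 8 4 T 0x2000000001001000000000000000000000100000540010080000155001040040000802 := rS 0x2b10cd144aad722845c58287b59b0cf29d62b04d29b8c25c66174ca55261c (k8 c567 c1030 c763 c1032 c573 c951 c929 c4472 (k8 c4448 c844 c4450 c4370 c4368 c4447 c9009 c663 (k8 c703 c13983 c7660 c2700 c647 c4361 c1573 c13985 (k4 c455 c9460 c13950 c1904 k0)))) (by decide +kernel)
def c13987 : PP 8 4 T 0x2010001000000000001415400060040050100000000000080000000000040040200802 := rS 0x466927942ce5da3c723748add7ab5069c5261c142e62266 (k8 c646 c4334 c6781 c647 c567 c1030 c4387 c568 (k8 c4389 c4354 c4353 c4352 c4386 c4348 c4388 c4390 (k4 c2129 c901 c13177 c7454 (k2 c1570 c4374 k0)))) (by decide +kernel)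
def c13988 : PP 8 4 T 0x22000100001001000000004000000000050150000400000080000000001140041600802 := rS 0xd31193d06a06628c974586a99faa56586d530817148daac57b451e915e83c6e794eafd8ac134a6c4e0d388cd32930e1995628 (k8 c647 c1573 c646 c567 c1030 c1032 c951 c4387 (k8 c568 c871 c4448 c844 c4450 c4370 c4369 c4368 (k8 c4447 c4386 c304 c4354 c4352 c4388 c455 c985 (k8 c13950 c2750 c781 c4554 c8622 c2752 c686 c3924 (k8 c3939 c8862 c7959 c4330 c4453 c1857 c941 c13987 (k4 c2067 c2064 c1480 c2738 (k2 c6153 c6927 k0))))))) (by decide +kernel)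
def c13989 : PP 8 4 T 0x2000000001001000000000000000000000100000500010080000155001040040000802 := rS 0x34c464f41a8198a325d161aa665a95522e562bca4fd689b4a21ba5a2156283305116c9829c91e915baf4320f1bb0d369d5fb1583184b89c1a711985c5a134ca55261c (k8 c567 c1030 c763 c1032 c570 c911 c573 c951 (k8 c4387 c568 c871 c929 c4472 c4450 c4370 c4369 (k8 c4368 c4448 c9009 c4386 c304 c308 c4354 c4353 (k8 c4352 c4388 c13986 c4408 c1730 c1771 c7079 c646 (k8 c647 c1573 c13988 c4457 c2660 c1862 c5889 c454 (k8 c12954 c4475 c984 c13950 c4554 c2752 c3939 c3924 (k8 c7959 c4330 c4453 c1857 c941 c13987 c2067 c2065 (k4 c1480 c2738 c6153 c6927 k0)))))))) (by decide +kernel)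
def c13990 : PP 8 4 T 0x2001000001001000000000000000000154100400102000000000155005940000100800 := rS 0x1982463b4d9ea427a14dcc954a81fab94fc594628658ed5cd0569f4e6673fc1176b147a456ebd5a9ecaab3078dc1a7161a6d3abf62b0630ab (k8 c1845 c4472 c4450 c4370 c4369 c4368 c4448 c9009 (k8 c4387 c568 c4386 c304 c663 c306 c703 c4389 (k8 c4354 c4353 c4352 c4388 c4350 c4390 c7079 c7517 (k8 c4555 c4408 c4409 c944 c13950 c2127 c1763 c8140 (k8 c5815 c2762 c4471 c3695 c4361 c7787 c2125 c7768 (k8 c13982 c10837 c1499 c6655 c8005 c8730 c6022 c460 (k2 c1843 c2129 (k1 c7927 k0)))))))) (by decide +kernel)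
def c13991 : PP 8 4 T 0x2000000001001000000000000000000000100000100010080000155001040040000804 := rS 0xad68a2e0a14558b8d8894186a127649a55322d198700097348157a196185d369d62b063013 (k8 c570 c4472 c4450 c4370 c4368 c4448 c573 c9009 (k8 c308 c4354 c575 c844 c929 c4461 c567 c951 (k8 c911 c1032 c763 c1030 c13989 c4438 c9124 c2002 (k8 c2042 c686 c687 c1845 c13990 c4308 c2700 c455 (k2 c8622 c13950 k0))))) (by decide +kernel)
def c13992 : PP 8 4 T 0x22000000001001000000004000400000010100004100010020000014001040240000020 := rS 0xce3f2050ac93eaa61a8850415161443868d43289a7d57101482562915b9c56a9b3ca758ac1379852e775188d1ead179cd262d (k8 c391 c11351 c1109 c837 c4554 c4388 c832 c11410 (k8 c7135 c1195 c617 c1107 c4450 c4370 c4368 c4447 (k8 c4448 c4389 c4387 c4353 c4352 c4350 c13906 c834 (k8 c4468 c4415 c4414 c4553 c4469 c431 c430 c7128 (k8 c13955 c564 c4308 c12339 c2123 c4329 c7768 c1625 (k4 c2617 c563 c2045 c5124 (k2 c11166 c1521 k0))))))) (by decide +kernel)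
def c13993 : PP 8 4 T 0x2000000001001000000000000000000000100000100010004000051001040000000000 := rS 0x34514871d2242b174a1cd262d3b81040582d84c121f3d80c32b30530c7e7962b063045 (k8 c13924 c4472 c4450 c4370 c4447 c13918 c9009 c13981 (k8 c663 c308 c303 c703 c13938 c13906 c570 c13991 (k8 c4476 c535 c534 c7135 c391 c11351 c1109 c13992 (k8 c4418 c7133 c9931 c4471 c7043 c2123 c3697 c13932 k0)))) (by decide +kernel)
def c13994 : PP 8 4 T 0x2000000001001000000000000000000000100000000010004000051001040000000000 := rS 0x2aa20994a8cc3821568012ed10299cb43a49848b3173a00d863f0b829369d62b063045 (k8 c13924 c4472 c4450 c4370 c4368 c4448 c13981 c573 (k8 c13918 c9009 c303 c13993 c4417 c538 c11468 c1656 (k8 c4471 c4476 c2544 c530 c1759 c928 c4461 c13185 (k8 c9668 c567 c951 c1577 c1032 c4487 c13950 c4415 k0)))) (by decide +kernel)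
def c13995 : PP 8 4 T 0x22100000001000000000000010400000000184004545045000000000001400400200020 := rS 0x28cfac9422994b12548cd326b41949130947a456a9b3ca757f05 (k8 c4308 c4369 c4368 c4447 c4448 c4389 c4352 c4388 (k8 c4322 c187 c719 c2627 c2535 c8246 c2385 c6029 (k8 c4469 c4444 c4539 c7469 c2697 c1502 c6667 c11734 k0))) (by decide +kernel)
def c13996 : PP 8 4 T 0x1000000000000000000000000020000000020000000000001000000400020 := rS 0xccd41b (k4 c2525 c556 c430 c6097 k0) (by decide +kernel)
def c13997 : PP 8 4 T 0x22000000001000000000004010404000000110004505021004000000001400400200020 := rS 0x8a439e58ac13199e2273 (k8 c1649 c4412 c151 c67 c4450 c4370 c4447 c1652 (k2 c7254 c13995 k0)) (by decide +kernel)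
def c13998 : PP 8 4 T 0x2000000001001000000000000000000000100000000000004000051001040000000000 := rS 0x10c3245c4d54895c9dc5e234b880c26f0a254b02c3a96c2604369cc0311323058a790bb0e308f1f9143e7b01865660a (k8 c13981 c663 c308 c303 c703 c13938 c13924 c13918 (k8 c4388 c4472 c9009 c573 c4447 c4370 c4450 c13994 (k8 c4412 c491 c1649 c7462 c4461 c12274 c575 c11468 (k8 c7854 c4476 c1696 c390 c1107 c617 c535 c1195 (k8 c832 c837 c7135 c6781 c13996 c13997 c4445 c1673 (k2 c4469 c2123 (k1 c7128 k0))))))) (by decide +kernel)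
def c13999 : PP 8 4 T 0x800000000001000000000000000000000044000001514001400000000140000100000 := rS 0x66 (k2 c13393 c4555 k0) (by decide +kernel)
def c14000 : PP 8 4 T 0x10000000001001000020000000000000010004000000010081400020001040041040804 := rS 0x15459b6241b4ea64669b169a4386b10800c605 (k8 c575 c842 c4461 c9668 c2540 c567 c757 c911 (k8 c1849 c2958 c1032 c1052 c4149 c4488 c5889 c5853 (k2 c454 c13999 k0))) (by decide +kernel)
def c14001 : PP 8 4 T 0x1001000000020000400000010000004000010005400020001040041040800 := rS 0xae319ac66154c9a43693840b45279459dc08200b9b4ce582daad0ed04b8ea3203 (k8 c303 c4370 c1055 c3047 c1056 c1635 c3602 c14000 (k8 c4476 c8996 c4993 c2497 c535 c534 c3122 c9998 (k8 c1846 c834 c391 c4482 c11351 c4316 c4437 c1135 (k4 c454 c430 c6183 c12253 (k2 c13166 c5815 k0))))) (by decide +kernel)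
def c14002 : PP 8 4 T 0x10000000001001000000000000000000010000000000050081400020001040041140804 := rS 0x2ad5e6d0dc49a263439acd22d4d885329d198700005 (k8 c575 c4461 c567 c2958 c1052 c1032 c9668 c1849 (k8 c911 c757 c2540 c7313 c12253 c14000 c4488 c4149 (k4 c4342 c4346 c4445 c13513 k0))) (by decide +kernel)
def c14003 : PP 8 4 T 0x1001000000000020400155511001101500454156000001000405540860000145010 := rS 0x34c921163928483527a910ac8 (k8 c2121 c717 c8005 c6655 c7934 c1843 c1842 c460 (k4 c278 c282 c4375 c10113 k0)) (by decide +kernel)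
def c14004 : PP 8 4 T 0x20000200001001000000015145500001555500004510014501400145145040001145012 := rS 0x6992422c7250909ea4429b952473027dfab951b2c5116570ed5ad0171b106510d52e12ab4521cfe67399f44ebf (k8 c4369 c871 c4409 c4408 c4310 c7517 c7313 c9062 (k8 c9421 c4322 c4427 c5853 c1590 c2620 c686 c687 (k8 c4475 c944 c1762 c2127 c4471 c7662 c8140 c2762 (k8 c4361 c7787 c3695 c7622 c12297 c977 c14003 c1499 (k8 c8005 c6655 c1843 c1842 c460 c278 c282 c4375 (k1 c9020 k0)))))) (by decide +kernel)
def c14005 : PP 8 4 T 0x1001000000014145100000011500000110010080000165141040040100804 := rS 0x1a64908b1c942427a910a6e54a808efd5ca7e2ca31432c76ae682ad5a2e3620c35093b2fe309d49a64669b1387042004b9740a5f049ec32b307b042653319fc1a55339ccfb04 (k8 c7079 c4409 c4408 c4310 c306 c568 c7517 c12253 (k8 c2034 c570 c1853 c304 c663 c308 c703 c13906 (k8 c577 c575 c840 c929 c4461 c9668 c567 c871 (k8 c1849 c2958 c1032 c1030 c1052 c14002 c4369 c14004 (k8 c4438 c6033 c2002 c686 c687 c944 c1845 c13950 (k8 c2127 c1762 c8140 c5815 c2762 c4471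 c3695 c4361 (k8 c7787 c12297 c2125 c7768 c14003 c1499 c8005 c6655 (k4 c1843 c1842 c460 c278 (k2 c282 c4375 (k1 c9020 k0)))))))))) (by decide +kernel)
def c14006 : PP 8 4 T 0x2000000001001000000004000000000010100000100010004000041001040000100000 := rS 0x13699569ae30ab84a4e208a168a4ee794ba7408200b9b4b05b39a250f045dac51e391ba456ebd38ad47e4501b058a530990166550c9ec141f (k8 c13938 c13981 c703 c308 c306 c663 c13998 c570 (k8 c2034 c14001 c1853 c303 c13924 c13918 c4389 c4387 (k8 c4354 c4353 c4352 c4386 c4348 c4388 c4350 c4390 (k8 c7079 c7313 c7314 c4408 c14005 c4476 c4993 c2497 (k8 c535 c534 c1234 c1195 c1846 c7135 c834 c391 (k8 c2123 c4468 c11351 c4322 c1673 c9998 c564 c4338 (k2 c8246 c4448 (k1 c9825 k0)))))))) (by decide +kernel)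
def c14007 : PP 8 4 T 0x1000000000015000000000010000000100000080000020001040040200804 := rS 0xb95d134eab5571149a64669b1419838210025c0a53 (k8 c2034 c575 c929 c4461 c9668 c567 c646 c647 (k8 c1849 c2958 c1032 c1030 c4334 c1573 c781 c1052 (k4 c6031 c2127 c4469 c2761 k0))) (by decide +kernel)
def c14008 : PP 8 4 T 0x18000000001001000000011000400000000000005440000000400000000000000600000 := rS 0x1a01b444210e8b (k4 c719 c10171 c4482 c9460 (k2 c4316 c4742 (k1 c454 k0))) (by decide +kernel)
def c14009 : PP 8 4 T 0x2000000001001000000004000000000010100000100010004000041001040000000000 := rS 0x19c7e40b25108543868d432898bd37183eaa61b1639a815a9f55a4e202d149dd72794ba740820309bc2e012c16d17050a31412b147a456e715a87cf6030c95566c109828a640 (k8 c13998 c2034 c13981 c570 c1853 c663 c306 c308 (k8 c303 c703 c13938 c4389 c4387 c4353 c4352 c4388 (k8 c4350 c13906 c14001 c14006 c4308 c719 c14007 c4476 (k8 c566 c2497 c1107 c617 c535 c534 c1234 c1195 (k8 c1846 c4548 c7135 c834 c391 c4468 c11351 c4415 (k8 c4414 c4338 c11255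 c1109 c6198 c4329 c7768 c1625 (k8 c14008 c4448 c836 c4553 c4469 c431 c430 c7128 (k4 c563 c9460 c2617 c2045 (k2 c5124 c11166 (k1 c1521 k0)))))))))) (by decide +kernel)
def c14010 : PP 8 4 T 0x2000000001001000000004000000000000100000100010004000041001040000000000 := rS 0x11679449cd0e770a85d8b040234402201d07527174a0247e1f3d80c32b360900260a (k8 c13981 c570 c13998 c1853 c663 c308 c303 c703 (k8 c13938 c13918 c13906 c14009 c4418 c102 c763 c4471 (k8 c4466 c567 c3697 c4461 c6198 c1056 c6610 c7133 (k4 c7135 c4410 c4408 c4314 (k2 c1846 c13932 (k1 c2123 k0)))))) (by decide +kernel)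
def c14011 : PP 8 4 T 0x2000000001001000000004000000000000100000100000004000041001040000000000 := rS 0x662f89a195477449e516c51005c28d12c010585b39804c8530f9ec06b360900260a (k8 c13981 c570 c13998 c1853 c663 c303 c703 c13938 (k8 c2034 c14010 c491 c1649 c578 c7854 c4461 c4476 (k8 c2424 c390 c2497 c535 c1056 c719 c1846 c4742 (k4 c7135 c7254 c2123 c4445 (k2 c1845 c7128 (k1 c4469 k0)))))) (by decide +kernel)
def c14012 : PP 8 4 T 0x2000000001001000000008000004000000100004100010004000005001040041100800 := rS 0x15a9319870006b4b814b459371dd16693999c368931c1012032a84d0eb30b9e5a2c55f9487517 (k8 c4362 c4471 c1048 c3036 c196 c1762 c2057 c572 (k8 c663 c1907 c570 c306 c303 c13906 c7079 c12253 (k8 c7030 c414 c4310 c4408 c13396 c5853 c6033 c13974 (k8 c1107 c4476 c575 c929 c580 c4461 c567 c951 (k2 c1030 c4809 (k1 c8058 k0)))))) (by decide +kernel)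
def c14013 : PP 8 4 T 0x1000000000008000000000000000000080000000800000000000001000100 := rS 0xd9d916c5 (k4 c196 c1770 c1087 c415 (k1 c6033 k0)) (by decide +kernel)
def c14014 : PP 8 4 T 0x2000000001001000000000000000000000100000100000004000041001040000000000 := rS 0x416004c81539aaca43a8bb0826091f87cf6030cacc1440 (k8 c13998 c13981 c663 c308 c303 c703 c13938 c13918 (k8 c13906 c570 c14011 c4362 c4471 c1048 c3851 c14013 (k4 c7660 c14012 c491 c7854 (k2 c4461 c390 k0)))) (by decide +kernel)
def c14015 : PP 8 4 T 0x2000000001001000000000000000000000100000000000004000041001040000000000 := rS 0x898bd7e51a5b0956a3882755a934c8cd2a9b0e0852ec500169a2052c99c74128b9d18240018291e3f (k8 c13918 c4388 c13981 c303 c13998 c1853 c14014 c4417 (k8 c11468 c4471 c2544 c2496 c12274 c3696 c4476 c4461 (k8 c1056 c928 c9668 c567 c1849 c1577 c2958 c1032 (k8 c1030 c4809 c1052 c4487 c4337 c4415 c13950 c4459 (k4 c1867 c3036 c7984 c13683 (k1 c4469 k0)))))) (by decide +kernel)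
def c14016 : PP 8 4 T 0x22000000000000000010004000414001010140001540110020000155002000000100004 := rS 0x6a3184a0a8843944f71336a6d8ac1 (k8 c4450 c4370 c1966 c4993 c4441 c7035 c1916 c11158 (k4 c2123 c9062 c9770 c1559 (k2 c13941 c13952 k0))) (by decide +kernel)
def c14017 : PP 8 4 T 0x2000000001000000010004000410000010100000100010020000055002000080100080 := rS 0x2c863522554c162a2cd27b8c1140a730027406350e825622f898853679369dd2e67 (k8 c656 c1196 c1023 c4993 c501 c1966 c316 c4441 (k8 c61 c4350 c13906 c56 c1099 c222 c3247 c1098 (k8 c3100 c527 c8444 c5755 c7035 c756 c13524 c4370 (k4 c4450 c14016 c1945 c13926 (k2 c2123 c492 (k1 c3818 k0)))))) (by decide +kernel)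
def c14018 : PP 8 4 T 0x2000000001001000000004000000000000100000100010020000055002040000100080 := rS 0x6b84aad148782224265560b153a7b0ba4d32048c1cc021c2287d662168a6d5a794a9b4ee97 (k8 c1196 c1023 c4993 c9517 c501 c2047 c1966 c300 (k8 c316 c11612 c14017 c296 c4466 c487 c13964 c4472 (k8 c1026 c1031 c1030 c1911 c4366 c4368 c4370 c4450 (k8 c266 c530 c7030 c4464 c4410 c2123 c9421 c4322 (k2 c564 c9825 k0))))) (by decide +kernel)
def c14019 : PP 8 4 T 0x2000000001001000000004000000000000100000000010004000051000040000000400 := rS 0x2819ca75c9389ad27e864a40d43d2d9647571458abf4e83d3eab51c62209313a648ac10b99c081c1d32402b2019542897478e46e915baf56ad14dab4ea951f8440cb137984366d2c16c1230 (k8 c14015 c13906 c12637 c4476 c4993 c295 c617 c1107 (k8 c4350 c4462 c608 c13918 c9517 c11627 c2047 c1966 (k8 c300 c4389 c4354 c4353 c4352 c4386 c4348 c4388 (k8 c1196 c14018 c141 c2348 c7508 c12287 c2610 c649 (k8 c4726 c4461 c13949 c1911 c1581 c3237 c1031 c10053 (k8 c1030 c7239 c4472 c4337 c4415 c4414 c12292 c4368 (k8 c4369 c4370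 c1916 c2127 c12297 c8140 c4428 c1633 (k8 c651 c4475 c389 c12954 c4463 c4282 c6022 c8183 (k4 c2006 c421 c11255 c1795 k0))))))))) (by decide +kernel)
def c14020 : PP 8 4 T 0x2000000001001000000004000000000000100000000000004000051000040000000400 := rS 0x4e84b481a8a7eb210e493f9f4501260b14f60f16a4c08038c2e438454b85c3eb3449cc02158899cc6643ba3c6e915baf4e2b510ab4ea794a8fc2206589bc366d2c16c1230 (k8 c14015 c13906 c12637 c4476 c4993 c295 c1107 c4350 (k8 c4462 c608 c13918 c9517 c501 c11627 c2047 c316 (k8 c4389 c4387 c4354 c4353 c4352 c4386 c4388 c1023 (k8 c14019 c67 c151 c4412 c2516 c491 c1649 c557 (k8 c11612 c1098 c1911 c1195 c296 c4466 c6781 c4472 (k8 c790 c1026 c1030 c912 c11956 c4366 c4370 c4450 (k8 c7854 c4468 c1563 c2490 c3648 c3515 c2121 c7058 (k4 c2123 c507 c4463 c4322 (k2 c6022 c4501 k0))))))))) (by decide +kernel)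
def c14021 : PP 8 4 T 0x2000000001001000000004000000000000100000000000004000041000040000000400 := rS 0x2e53ea1518d4cac98297cfe0d7eac9048742a0513080b99d16194bafcee9339810a67b629354ec134a6038405da3d22b75e9c56a2f689d4f2951f8440cb137984366d2c16c1230 (k8 c14015 c13906 c12637 c4476 c4993 c295 c617 c1107 (k8 c4350 c4462 c608 c13918 c9517 c501 c11627 c300 (k8 c61 c4389 c4387 c4354 c4353 c4352 c4388 c4390 (k8 c14020 c1913 c1912 c3784 c3821 c3909 c1994 c1056 (k8 c1050 c2034 c1026 c3008 c1030 c3009 c1133 c1199 (k8 c269 c7874 c655 c533 c4465 c4742 c4439 c4321 (k8 c4440 c2122 c2123 c4306 c509 c676 c549 c4312 (k8 c634 c553 c8124 c5380 c11483 c6233 c7514 c2125 k0)))))))) (by decide +kernel)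
def c14022 : PP 8 4 T 0x2000000001001000000000000000000000100000000000004000041000040000000400 := rS 0x172a11a97dfad24103d0a81648513f085905e20193b81006975f9ec9aa734870749d201ce2ec20d984de6d2c0452a793a96c0c095dac522bd38ad47e2f89a6d5a30 (k8 c14015 c2047 c1966 c4441 c61 c13918 c4389 c4387 (k8 c4354 c4352 c4350 c4390 c13906 c4462 c12637 c11627 (k8 c501 c9517 c608 c4476 c4993 c1107 c617 c295 (k8 c14021 c4362 c3003 c9009 c3225 c4471 c1913 c3784 (k8 c3909 c1994 c1050 c5760 c3029 c790 c1026 c3009 (k8 c269 c13033 c533 c13974 c4465 c4414 c11612 c634 (k8 c4439 c4321 c12292 c2122 c9038 c4306 c549 c4373 (k2 c11483 c7514 (k1 c11255 k0))))))))) (by decide +kernel)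
def c14023 : PP 8 4 T 0x20000200001000000000004000400000000004000100000000000000000000005040100 := rS 0x11677 (k2 c6033 c5853 (k1 c9062 k0)) (by decide +kernel)
def c14024 : PP 8 4 T 0x1000000000000000a00000000000000044400000000000000000000000000000000 := rS 0x10afd (k2 c4305 c716 (k1 c5740 k0)) (by decide +kernel)
def c14025 : PP 8 4 T 0x1200000000000000800415500000000044400110000000000000000000000000000 := rS 0x857e9b99273 (k4 c4408 c14024 c10837 c4378 (k2 c1499 c5740 k0)) (by decide +kernel)
def c14026 : PP 8 4 T 0x20000000001001000010004145100000000100000110000000000005002000001100800 := rS 0x19e2866aa8a14b65ae46a834594c3c6c02424348782024aab309afd8ac1 (k8 c4450 c4370 c4369 c570 c663 c306 c13906 c7079 (k8 c7313 c14023 c4316 c294 c295 c7896 c414 c13932 (k8 c2622 c1099 c7514 c14025 c8864 c4475 c1916 c3825 (k2 c1917 c3519 (k1 c2129 k0))))) (by decide +kernel)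
def c14027 : PP 8 4 T 0x22000000001000000000004000000000450100004000404000000010002040101200814 := rS 0xde833f1f686ca66b3ca0895caa9028757c4526997ec20dac914198381b0007c12bb5baf56b1319ab41a713485cf29d5fb158305 (k8 c4308 c4450 c4370 c4369 c4368 c4447 c573 c1878 (k8 c4387 c568 c2047 c173 c4441 c4389 c4354 c4353 (k8 c4390 c13906 c270 c4461 c294 c4466 c646 c647 (k8 c2609 c5889 c4465 c12954 c1031 c1030 c4334 c984 (k8 c10041 c4439 c2127 c6781 c5289 c1572 c3519 c3825 (k4 c2129 c4425 c1628 c8863 (k2 c8144 c1459 (k1 c7055 k0)))))))) (by decide +kernel)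
def c14028 : PP 8 4 T 0x2000000001001000000004000000000000100000100000080000055002040000000804 := rS 0x19cae6326492a666a968a4c6993c96a986949403b5c9448e931aaad469f8809c3c67022560a1435b058abf4e9e630bb588e46e915baf4e2b5898cda29b569ec32b32297cba8f318852e65 (k8 c578 c929 c316 c12307 c4388 c840 c577 c2235 (k8 c663 c308 c703 c2047 c1966 c300 c173 c4441 (k8 c4389 c4387 c4354 c4353 c4352 c4386 c4348 c4350 (k8 c4390 c4472 c4447 c4368 c4369 c4370 c4450 c580 (k8 c14026 c4308 c5073 c14027 c655 c575 c351 c4478 (k8 c6233 c13617 c13092 c1099 c4413 c12297 c1916 c7514 (k8 c1101 c11255 c2115 c4329 c7768 c2037 c299 c6022 (k8 c2114 c4451 c1935 c5541 c4490 c373 c2011 c2113 (k2 c13117 c11444 (k1 c4103 k0)))))))))) (by decide +kernel)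
def c14029 : PP 8 4 T 0x12000100000000000000900410000000000014105400000000000000000000000000000 := rS 0x1fdfa6e419f686bb (k8 c4390 c4425 c1628 c8144 c10474 c4378 c1459 c8863 k0) (by decide +kernel)
def c14030 : PP 8 4 T 0x80000000000002000000000000000000415410000000000000000000000000000000000000000000000 := rS 0x19ecd5dadd7ab5 (k4 c4389 c4354 c4353 c4390 (k2 c4460 c4430 (k1 c2129 k0))) (by decide +kernel)
def c14031 : PP 8 4 T 0x2100000001001000010415410050000000000000000000000400000002020000000000 := rS 0x19ecd5514296bb5baf56b13 (k8 c4441 c4389 c4354 c4353 c4390 c14030 c4475 c4491 (k2 c3825 c3519 (k1 c2129 k0))) (by decide +kernel)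
def c14032 : PP 8 4 T 0x2000000001001000000004000000000000100000100000080000045002040000000804 := rS 0xfc6e7ea0e307da1b2972af888a0cc1464c15027243c20ee6d44a2c2ebf0da54005362b04f2980f87080095baf45f1319b455a7b59834e2690c98c4297 (k8 c929 c316 c12307 c308 c1878 c4387 c568 c663 (k8 c703 c2047 c300 c173 c4441 c61 c4354 c4353 (k8 c13906 c14028 c1913 c1104 c1912 c3819 c3821 c1056 (k8 c2034 c758 c763 c7896 c1133 c572 c7874 c4742 (k8 c5889 c6033 c4465 c10041 c2123 c4439 c4408 c1730 (k8 c7079 c646 c647 c4334 c984 c6781 c14031 c4425 (k4 c1628 c14029 c8144 c8862 (k2 c7055 c8863 (k1 c1459 k0))))))))) (by decide +kernel)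
def c14033 : PP 8 4 T 0x1000000000020000000000000000008000000000005000000000104100 := rS 0x8b4d8c34 (k4 c7514 c11342 c4373 c406 (k1 c10992 k0)) (by decide +kernel)
def c14034 : PP 8 4 T 0x2000000001001000000000000000000000100000100000080000045002040000000804 := rS 0x66d1504112788d9ea9a1c3540b92591d026e4fa8e10853ba242b100d89c00734a9257e1726a9c3e1c290e93a93659e48051a5c5d849704a3d22b75ead45f1319885a29b569ec32b3078dc1a71 (k8 c4387 c568 c4386 c304 c663 c308 c703 c2047 (k8 c1966 c300 c316 c173 c4441 c61 c4389 c4354 (k8 c4353 c4352 c4388 c13906 c929 c14032 c4362 c4459 (k8 c3824 c9009 c2057 c2028 c1128 c1213 c4471 c4475 (k8 c1913 c1104 c3909 c1994 c572 c5760 c1722 c1577 (k8 c14013 c758 c2877 c7896 c13033 c7660 c7172 c6033 (k8 c6224 c4465 c4337 c4414 c13974 c4439 c12297 c2037 (k8 c14033 c11255 c4329 c4423 c7768 c1795 c771 c4646 (k4 c607 c2108 c4452 c2064 (k1 c4495 k0)))))))))) (by decide +kernel)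
def c14035 : PP 8 4 T 0x2200000001001000000000000000001054100000000000000000055002000004180802 := rS 0x150a0272e5a4357e82442073d83c6e45428657e9b898448ea35aa3d3eb713834e291 (k8 c4352 c4387 c568 c871 c4353 c4414 c4388 c4389 (k8 c4337 c12297 c611 c4441 c1966 c5760 c308 c6224 (k8 c2235 c4386 c304 c703 c83 c316 c13906 c13754 (k4 c11467 c4463 c7514 c9672 (k2 c11255 c299 (k1 c7768 k0)))))) (by decide +kernel)
def c14036 : PP 8 4 T 0x1000000008560100000000011105410000000000005000000000104100 := rS 0x1bd9f43 (k4 c4394 c1525 c14033 c8129 k0) (by decide +kernel)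
def c14037 : PP 8 4 T 0x2000000001001000000000000000000000100000000000004000041000040000000000 := rS 0xcda2a089ecf54d0e1aa05cb089aa73c9009652a5b2c22ae23a7d56a340afe208b842742e93429dcda2d13994d61c0d8003e974a814ce89438e824158b9d0c65a349641a0f2a864067b052b536d1108ce262f180fd6a715eadd223747ac57609 (k8 c13906 c4390 c4350 c4388 c4386 c4352 c4353 c4354 (k8 c4387 c4389 c13918 c14015 c61 c4441 c173 c316 (k8 c300 c1966 c2047 c14022 c703 c303 c308 c306 (k8 c304 c568 c535 c1878 c4476 c12307 c14034 c4417 (k8 c591 c11468 c4471 c7313 c2546 c2544 c12274 c1577 (k8 c928 c270 c4461 c294 c4466 c2540 c2539 c871 (k8 c910 c5889 c6033 c6224 c1030 c1910 c968 c4479 (k8 c13524 c4487 c5760 c4439 c4337 c4415 c4414 c12297 (k8 c13291 c611 c8140 c4428 c8139 c2037 c14035 c3819 (k8 c3909 c1994 c2034 c14036 c11255 c4329 c4423 c7768 (k4 c1795 c4646 c2108 c4452 (k2 c2064 c4495 k0)))))))))))) (by decide +kernel)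
def c14038 : PP 8 4 T 0x1000000000000000000000020400000050100000104041000000000000000000000080 := rS 0xcaa37e1fe1863881c4e68f3eac52317 (k8 c4361 c1205 c1203 c1356 c1476 c3002 c1474 c6781 (k4 c7153 c4486 c10049 c4480 (k2 c4337 c4412 (k1 c7315 k0)))) (by decide +kernel)
def c14039 : PP 8 4 T 0x200000001000000000015000000001450000000000000000800000005000000000000 := rS 0x2f89a4d5aab (k4 c1942 c4338 c4413 c4553 (k2 c2032 c4469 k0)) (by decide +kernel)
def c14040 : PP 8 4 T 0x20000000001000000000004000400001050004005501144004800000001040000000494 := rS 0x422c1148982444666b32878001d4db158221 (k8 c12555 c4450 c4370 c4448 c10867 c4461 c4466 c491 (k8 c493 c950 c14039 c4478 c4314 c9062 c13926 c8308 (k1 c714 k0))) (by decide +kernel)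
def c14041 : PP 8 4 T 0x20000000000001000000014000400000000044004540000001000000000000000100020 := rS 0x20b17 (k2 c13508 c9062 (k1 c4481 k0)) (by decide +kernel)
def c14042 : PP 8 4 T 0x20000000001001000000004000400000000004004540000001000000001000004100020 := rS 0x116c5 (k2 c4370 c13945 (k1 c14041 k0)) (by decide +kernel)
def c14043 : PP 8 4 T 0x20000000001001000000004000400001050004005501140004800000001040000100494 := rS 0xc655 (k2 c9029 c12253 (k1 c14040 k0)) (by decide +kernel)
def c14044 : PP 8 4 T 0x1000000010000000000000000080000000000000000000000000005000000 := rS 0x2f09 (k2 c4322 c525 (k1 c4465 k0)) (by decide +kernel)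
def c14045 : PP 8 4 T 0x200000001000000000015000000001450000000000000000800000001000000000000 := rS 0x642d (k2 c4332 c14039 (k1 c416 k0)) (by decide +kernel)
def c14046 : PP 8 4 T 0x20000100001001000010004000400000010024005540100004800000001040004100500 := rS 0x113199a958648898c52200f8bc041d029540c6d33a5d3a582da6d8ac1 (k8 c4450 c4370 c4448 c12637 c4476 c1234 c1195 c656 (k8 c4993 c4462 c9029 c14042 c10867 c14043 c8877 c222 (k8 c4466 c12392 c11648 c14045 c4478 c4794 c556 c943 (k2 c4442 c4469 k0)))) (by decide +kernel)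
def c14047 : PP 8 4 T 0x1001000010000000000000000044004040100004000051001040000100500 := rS 0x265129a20f2950db1583053bc608a7561acc7e06 (k8 c4462 c11031 c11612 c9009 c499 c1217 c4472 c1023 (k8 c9062 c4450 c4370 c689 c9517 c501 c2123 c14046 (k2 c1863 c517 (k1 c9770 k0)))) (by decide +kernel)
def c14048 : PP 8 4 T 0x1000000000000000000000000000080000020000000000040000000080 := rS 0x1f (k2 c3100 c13964 k0) (by decide +kernel)
def c14049 : PP 8 4 T 0x1001000000000000000000000000004000000004800051001040001100500 := rS 0x8b43b44e6582d9a43606 (k8 c4462 c689 c13396 c12637 c4476 c14048 c179 c1902 (k2 c14044 c14047 k0)) (by decide +kernel)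
def c14050 : PP 8 4 T 0x80004000100000000000000000080000080 := rS 0x108b0 (k2 c8286 c8308 (k1 c714 k0)) (by decide +kernel)
def c14051 : PP 8 4 T 0x28200000000000000000004000000000050080000401004000000000000000000000000 := rS 0xd6935699612ab (k4 c1673 c4322 c4412 c4338 (k2 c4413 c564 (k1 c8229 k0))) (by decide +kernel)
def c14052 : PP 8 4 T 0x20000000001001000000000000000000040080004000000044400011001040001000480 := rS 0x89abc642c888a4401f8b0ec3a1668014c7094a9b4b0c31f9dcd21b (k8 c689 c13396 c1023 c11031 c9009 c4476 c4993 c9517 (k8 c4322 c1769 c13945 c7874 c4465 c10867 c1763 c4471 (k8 c14050 c4466 c12392 c14051 c4468 c7270 c983 c4340 (k1 c11588 k0)))) (by decide +kernel)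
def c14053 : PP 8 4 T 0x21402000000000000000000000101400000001001415501100000000000800000000000 := rS 0x14b455e20df881 (k4 c4439 c4480 c4306 c8862 (k2 c8243 c3759 (k1 c8517 k0))) (by decide +kernel)
def c14054 : PP 8 4 T 0x21400100001000000000004010410401000120001440100022000001401000010000414 := rS 0x6391c6eb7691fc1a5f7eac192a911924ba2e840e46a85199ace21e00084b63f03024da6f30a6d8ac15599d6b16 (k8 c7172 c4419 c656 c1945 c4450 c4370 c4448 c617 (k8 c1107 c4993 c13906 c4462 c11031 c12637 c12555 c4461 (k8 c4466 c2431 c493 c950 c5976 c1099 c8383 c9028 (k8 c4469 c8197 c4209 c9135 c786 c1726 c14053 c4304 (k8 c2434 c505 c674 c8563 c8560 c8300 c1603 c251 (k1 c12155 k0)))))) (by decide +kernel)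
def c14055 : PP 8 4 T 0x40000000000021602100000000000000104000114410001044011415515000000000000000000000000 := rS 0x2fb354b455e20cbafc51a7d0285 (k8 c4321 c4439 c4414 c4337 c4480 c4377 c4306 c8862 (k4 c8243 c1939 c2068 c7647 (k1 c8582 k0))) (by decide +kernel)
def c14056 : PP 8 4 T 0x1200000000000000000040000000010001100000020000020000401100151000000488 := rS 0x12446271a975469f (k8 c4414 c4337 c4878 c1304 c7014 c792 c4209 c2110 k0) (by decide +kernel)
def c14057 : PP 8 4 T 0x1200000000000000000040001000010001100000010000020001000010150210000408 := rS 0x36230e44ed312a8d3e23 (k8 c833 c4414 c4337 c313 c8916 c12391 c360 c2110 (k2 c4470 c1411 k0)) (by decide +kernel)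
def c14058 : PP 8 4 T 0x1200000000000000000040001000010001100000010000020000001010150210000408 := rS 0x271c34c9025 (k4 c313 c14057 c4281 c4209 (k2 c12391 c360 k0)) (by decide +kernel)
def c14059 : PP 8 4 T 0x1200000000000000000000001600010001100000000000022000001000050210000488 := rS 0x10078d18e7f389bc5a67 (k8 c656 c247 c1107 c124 c674 c251 c14058 c1329 (k2 c1034 c10687 k0)) (by decide +kernel)
def c14060 : PP 8 4 T 0x1200000000000000000000001400000011100000000000022000001400050010000508 := rS 0x2dd1e343891d8e7d078e5629f5ca5cc26f3a8185a6750894401f (k8 c222 c4466 c313 c4551 c656 c247 c4462 c499 (k8 c1107 c617 c1195 c14038 c4414 c14059 c1137 c10635 (k8 c8975 c250 c1602 c14056 c14058 c11002 c1037 c11040 k0))) (by decide +kernel)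
def c14061 : PP 8 4 T 0x1001000000000000000000000104004000000004000051001040001100400 := rS 0x1111480a26a749ab5221d169940ab51d950271655b420a883c9cd86775c99cc26f4a9d62a9d4db1582690da2ca71822a5d663f2c16c0c09 (k8 c13906 c4462 c12637 c4476 c11031 c11612 c1195 c1217 (k8 c4472 c14049 c14052 c689 c13396 c4450 c4370 c4448 (k8 c1234 c14037 c499 c9517 c1107 c617 c656 c14038 (k8 c1023 c9009 c14048 c501 c2123 c9062 c14047 c1945 (k8 c7172 c517 c7314 c1763 c4419 c266 c1646 c247 (k8 c10867 c12700 c6230 c9125 c13601 c4553 c14054 c795 (k2 c14060 c4468 k0))))))) (by decide +kernel)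
def c14062 : PP 8 4 T 0x28001100000000000000000000010000014000000001550000000000000000000000000 := rS 0x892ad36c5 (k4 c4370 c4448 c13092 c4479 (k1 c7641 k0)) (by decide +kernel)
def c14063 : PP 8 4 T 0x1001000000000000000000000100004000000004000051001040001100400 := rS 0x44452aa009a9262d1d9502716569960b09431a52a6d3986cceb31f960b6c18c1140c09 (k8 c13906 c4462 c1217 c4472 c4450 c12637 c4476 c11031 (k8 c11612 c656 c689 c14048 c4993 c9517 c13396 c14061 (k8 c4440 c4410 c1653 c1905 c7043 c1565 c7313 c4158 (k8 c247 c9125 c14062 c493 c1924 c1599 c4415 c4468 k0)))) (by decide +kernel)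
def c14064 : PP 8 4 T 0x9000000001000000000000000600400001100004040100020000040001200212100401 := rS 0x9a231b03492111c89da64f4297ce26f198bd52a5891b44a02 (k8 c7039 c313 c4993 c10711 c4444 c4345 c1870 c255 (k8 c1107 c124 c545 c714 c259 c13552 c12391 c360 (k4 c342 c368 c4865 c8612 (k2 c11693 c324 (k1 c8634 k0))))) (by decide +kernel)
def c14065 : PP 8 4 T 0x21000100001001000000004000400000011180004500100020000040001040012100400 := rS 0x3368a8465ad902c92e9fdf85f139c5a64f419f41eb15a9922c7939ae52e67309bc0a33538bd52a544d2c0225010b052200f818b60988abd326b84a6d829d55c48dac5 (k8 c4370 c4993 c10711 c4445 c1234 c4450 c4448 c4436 (k8 c1918 c8246 c4346 c7287 c13906 c12637 c4462 c14050 (k8 c4466 c12392 c4468 c7039 c313 c487 c4427 c187 (k8 c4444 c4345 c1870 c13601 c255 c268 c1107 c617 (k8 c656 c1195 c14038 c14048 c501 c4481 c13940 c4419 (k8 c14064 c10635 c8975 c1999 c258 c13552 c11634 c12391 (k8 c10439 c4480 c554 c4377 c4305 c4380 c4088 c1752 (k4 c2119 c8243 c1481 c7551 k0)))))))) (by decide +kernel)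
def c14066 : PP 8 4 T 0x21100000001000000000000010500000008180041540100004000000001001002000408 := rS 0xb55ba7d9b0ca2a11962340b24bafc2f89ce2d327a0c1e6f3099d8a6b198754e9102a6c5ea952c48da582d8269663 (k8 c1769 c4427 c13906 c12637 c4476 c4993 c10711 c4444 (k8 c4345 c1870 c4448 c268 c12700 c13601 c10867 c255 (k8 c1918 c4370 c656 c617 c1107 c10635 c1999 c258 (k8 c13552 c11634 c12391 c10439 c4480 c4377 c4305 c4380 (k8 c792 c1752 c2119 c8243 c4467 c1481 c4384 c7551 (k2 c1658 c11717 k0)))))) (by decide +kernel)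
def c14067 : PP 8 4 T 0x1000000001000000000000000200400001100004000100020000040001000052000400 := rS 0x134464b1b034223913b4c9e852f9c4662f54a96246d008940420 (k8 c4466 c7039 c313 c487 c4993 c10711 c4444 c4345 (k8 c1870 c255 c124 c545 c714 c259 c13552 c12391 (k8 c360 c342 c4865 c8612 c1875 c793 c324 c2111 k0))) (by decide +kernel)
def c14068 : PP 8 4 T 0x21000000001001000000004000400000010180004500100004000040001040006100400 := rS 0x9a4b11b188e495b09ce2cb5ab4d591627a4c1e111cac4fa7f82149a22c148084a200f9e4e6b94b99cc26f030cc3aa7488145ea952c455e9935c2536c14eaae246d2c16c12c5 (k8 c4370 c13906 c12637 c4476 c4993 c10711 c4445 c1234 (k8 c4450 c4448 c4436 c1918 c8246 c4346 c7287 c4444 (k8 c4345 c1870 c268 c12700 c13601 c10867 c255 c4462 (k8 c1107 c617 c656 c1195 c14038 c14048 c501 c14050 (k8 c4466 c313 c7039 c12392 c4468 c2184 c7874 c14065 (k8 c4313 c4409 c14067 c1137 c608 c10635 c14066 c258 (k8 c4487 c2127 c13552 c4419 c2026 c11634 c12391 c4088 (k4 c368 c1587 c9550 c11693 (k2 c2037 c413 (k1 c2111 k0))))))))))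 (by decide +kernel)
def c14069 : PP 8 4 T 0x1001000000000000000000000100004000100004000051001040000100400 := rS 0x31248cb0543345171155abe25153aa54e6c30d99d663f4ea6d8ac18c115326b3b81a121836960b609 (k8 c13906 c12637 c4476 c4993 c14063 c4436 c4462 c1023 (k8 c1918 c8246 c1217 c4472 c4450 c4370 c4448 c1234 (k8 c11031 c11612 c656 c689 c9009 c14048 c9517 c499 (k8 c14037 c10711 c4346 c4445 c7287 c14068 c261 c14047 (k4 c4410 c1653 c7276 c4478 (k1 c1608 k0)))))) (by decide +kernel)
def c14070 : PP 8 4 T 0x100000000000000015000004001510080000000240000000000000040000000002 := rS 0x31c455e65 (k4 c491 c2720 c7287 c1768 (k1 c4478 k0)) (by decide +kernel)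
def c14071 : PP 8 4 T 0x40000000000009000000001001000000400000500400001100000040000020100000001600212180408 := rS 0x4c6312d6c23409fc92fc139c5a64f078447206049bc0ab512aa54b12199b4aa67 (k8 c656 c247 c4993 c255 c4469 c4444 c4345 c313 (k8 c4419 c268 c1107 c13906 c4462 c1137 c608 c10635 (k8 c258 c13552 c11634 c12391 c4480 c368 c9565 c4380 (k4 c11693 c7787 c1874 c9550 (k2 c2111 c413 k0))))) (by decide +kernel)
def c14072 : PP 8 4 T 0x9000000000000000000000000601500001100004040200020000000001600212100401 := rS 0x119341a490889da64f4297dfa7137c240a3336a0c0425 (k8 c313 c4726 c2000 c4993 c255 c268 c4436 c1107 (k8 c124 c4304 c545 c714 c259 c7643 c12391 c342 (k4 c368 c4865 c4248 c11693 (k1 c8634 k0)))) (by decide +kernel)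
def c14073 : PP 8 4 T 0x9000100001001000000015400400000511180004000200020000000001040016100400 := rS 0xe2fd642068aca5894824d12a8b222a557aa45312100bc041f00945574b2d9cc0c0933a742f09199b506a7 (k8 c13601 c2000 c4993 c255 c4436 c35 c1234 c656 (k8 c13906 c4462 c14048 c12637 c4427 c1673 c1591 c14070 (k8 c1098 c4726 c4819 c4466 c4469 c12392 c4345 c4346 (k8 c4444 c7287 c4468 c247 c2184 c4464 c7874 c14072 (k4 c14071 c4455 c3809 c1752 (k2 c4305 c2447 (k1 c7086 k0))))))) (by decide +kernel)
def c14074 : PP 8 4 T 0x100100000000000000011000444001510000000040240000000000000040002000002 := rS 0x93449885c65 (k4 c491 c756 c4478 c3945 (k2 c1608 c7141 k0)) (by decide +kernel)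
def c14075 : PP 8 4 T 0x100000001000000015000404000510040005500200044000000000040012100480 := rS 0x11264318b052200f806227333a74b0af (k8 c829 c4476 c1234 c656 c14048 c7287 c14074 c1098 (k4 c4466 c12392 c4468 c815 (k2 c4478 c2041 (k1 c7254 k0)))) (by decide +kernel)
def c14076 : PP 8 4 T 0x1000000000000000008000000000000000000000000000005040000000000 := rS 0x5f13 (k2 c4445 c1845 (k1 c4469 k0)) (by decide +kernel)
def c14077 : PP 8 4 T 0x1000100001001000000015400400000410100005500200004000000001040006100400 := rS 0x45458e6064c9ae121d48815563336960b609 (k8 c13906 c12637 c4476 c4993 c255 c14076 c268 c12700 (k8 c10867 c4436 c1918 c8246 c4462 c14048 c4481 c14075 (k1 c14073 k0))) (by decide +kernel)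
def c14078 : PP 8 4 T 0x5000000000001000000000010400010000100050100200021000100800040010100494 := rS 0xd2fb2546b02ebf684b51c8d56e6538878002137984e667 (k8 c656 c14048 c617 c1107 c12555 c4461 c4466 c2431 (k8 c491 c8502 c1099 c8383 c6954 c4492 c8860 c8197 (k4 c4088 c4393 c4422 c2434 (k2 c505 c11917 k0)))) (by decide +kernel)
def c14079 : PP 8 4 T 0x21100000001000000000000010500000008180401540004004000000001200002000408 := rS 0x16cb566a7c990ca292d962340b24ba497e17c4e716993c1e6f33b154e914dd2d52a5890bc666d2c16c4a200f8243a05 (k8 c268 c10867 c13906 c222 c4466 c313 c12637 c4476 (k8 c4993 c255 c8877 c4469 c4444 c4345 c4427 c4448 (k8 c12700 c13601 c4370 c656 c1107 c10635 c258 c13552 (k8 c11634 c12391 c10439 c4480 c368 c4377 c4305 c4380 (k8 c792 c1752 c1874 c8243 c4467 c2111 c4384 c2063 (k2 c1658 c11717 (k1 c7551 k0))))))) (by decide +kernel)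
def c14080 : PP 8 4 T 0x25100000001001000000000000000000000180055400204005000001001040002100400 := rS 0x232683422276993d0a5f7e9c5602552aa458208907c5e010124874735ca5cceb3309bcea45848ccda582d87542951f818128353a440a9b (k8 c4448 c268 c12700 c13601 c2000 c13906 c4462 c11031 (k8 c9517 c4551 c10867 c12637 c4476 c4993 c255 c4436 (k8 c1217 c499 c1107 c617 c11612 c656 c1195 c14038 (k8 c14048 c4471 c4487 c14078 c28 c8877 c222 c4469 (k8 c4466 c11351 c4345 c4444 c313 c14079 c124 c4304 (k8 c545 c714 c259 c7643 c12391 c342 c4865 c4248 (k2 c793 c8634 k0))))))) (by decide +kernel)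
def c14081 : PP 8 4 T 0x9000200000000000000000450400400000100004140200060800050000000012000494 := rS 0x270dd0a5f5e92cbab07e91c9a391aadc5c71088780021379dc8b09419fcfab5 (k8 c4419 c4409 c4313 c2000 c4436 c1217 c1023 c1107 (k8 c12555 c4461 c4466 c2592 c2431 c756 c8502 c1099 (k8 c8383 c1992 c9127 c7787 c4088 c8197 c2037 c7175 (k4 c2434 c714 c8300 c2114 (k1 c259 k0))))) (by decide +kernel)
def c14082 : PP 8 4 T 0x1001000000000000000000000100004000000004000051001040000100400 := rS 0x4d2588d8c4724ad84e7165b4d584f4983c2239588954aa91608224290f8bc02025ac5a22af29228c6553ea1cff0455a0cd0a7488753233029ae121860b157e9b5dc613a453c9b4e6c33b86d729733accc26f2c16d2a3f3a8181315 (k8 c14037 c13906 c4462 c499 c11031 c9517 c12637 c4476 (k8 c1107 c617 c11612 c656 c1195 c14038 c689 c1023 (k8 c9009 c14048 c4993 c501 c1217 c1234 c4472 c4449 (k8 c4448 c4369 c4370 c4450 c14063 c4436 c1918 c268 (k8 c255 c8246 c10867 c12700 c13601 c14069 c2000 c14076 (k8 c14077 c4313 c4410 c4409 c4406 c4407 c9062 c9495 (k8 c828 c14045 c14080 c4419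 c14081 c28 c8877 c222 (k8 c794 c4469 c4466 c4468 c4345 c4444 c313 c14072 (k8 c1137 c608 c10635 c14079 c258 c2127 c13552 c2026 (k8 c11634 c12391 c4088 c368 c1587 c9550 c11693 c2037 (k2 c413 c2111 k0))))))))))) (by decide +kernel)
def c14083 : PP 8 4 T 0x100000000000004000200000000000000180 := rS 0x681e (k2 c13923 c8444 (k1 c1099 k0)) (by decide +kernel)
def c14084 : PP 8 4 T 0x1001000000000000000000000100000000000004000051001040000000400 := rS 0x132330e010062d55ab6209333c5d2ed100ac8ca550a3058a9d4d9ee301b61a547e582d9140c09 (k8 c13906 c4462 c14083 c12637 c4476 c11031 c9517 c9009 (k8 c689 c4472 c4366 c4448 c4368 c4370 c4450 c14082 (k8 c141 c2516 c7508 c2630 c454 c1196 c4358 c13949 (k8 c1124 c7239 c13185 c4415 c4332 c382 c4461 c4726 (k2 c6309 c1032 (k1 c13950 k0)))))) (by decide +kernel)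
def c14085 : PP 8 4 T 0x200000000001000000020000000001400044000001104001400000000040000100000 := rS 0x6b8924c5a65 (k4 c4412 c4332 c4413 c7718 (k2 c4442 c13999 k0)) (by decide +kernel)
def c14086 : PP 8 4 T 0x20020000000001400000000000000000400000000200000000000 := rS 0x1134c8c95f19 (k4 c4370 c983 c456 c1136 (k2 c4340 c4488 k0)) (by decide +kernel)
def c14087 : PP 8 4 T 0x1000020020000000001400044000001104001400000000040040100000 := rS 0x15d121424c5b11 (k4 c14085 c14086 c11351 c4468 (k2 c7718 c1760 (k1 c4346 k0))) (by decide +kernel)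
def c14088 : PP 8 4 T 0x1000000020000000000000000004440100020400060000040000100400 := rS 0xe8b9329a31c10265545a1da01f1d464da9d (k8 c3040 c4993 c4370 c1055 c3110 c1056 c1635 c9998 (k8 c1600 c1758 c4158 c4407 c14087 c104 c1848 c765 (k1 c4724 k0))) (by decide +kernel)
def c14089 : PP 8 4 T 0x1000100000000000000100011600000000000000044000162000001100000080000082 := rS 0x23b1c6eb769034fe5f7e8fc7671 (k8 c2431 c1600 c11031 c4304 c2434 c674 c505 c8563 (k4 c8560 c8300 c251 c1603 (k1 c12155 k0))) (by decide +kernel)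
def c14090 : PP 8 4 T 0x9000100001001000000000000400400000100000040000022000001001000015000414 := rS 0x3f5096ed323b1df87d07ac592492e8e46a710f000425b36ae52e67309bd2a3f3a81812b5 (k8 c4419 c13906 c4462 c499 c11031 c9517 c1107 c617 (k8 c656 c1195 c14038 c4993 c12637 c12555 c4461 c4466 (k8 c2431 c1099 c8383 c8197 c4209 c1726 c14089 c10635 (k8 c8975 c4480 c250 c1602 c13602 c9550 c4473 c7787 (k1 c4392 k0))))) (by decide +kernel)
def c14091 : PP 8 4 T 0x1000000000001000000000001400000001100000000000022000001000040010040508 := rS 0x11114a547e3b398185a67 (k8 c656 c247 c4462 c14048 c1600 c11031 c9517 c795 (k2 c14060 c4468 k0)) (by decide +kernel)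
def c14092 : PP 8 4 T 0x1000000001001000000000000400000000120001000000004400021001040005000400 := rS 0x2614c0001a443ab50284e2c54829ccb05b0a9dc0c09 (k8 c13906 c4462 c1024 c648 c12637 c4476 c14048 c4314 (k8 c9478 c7172 c517 c266 c4419 c10867 c12700 c14091 (k4 c4461 c14090 c5810 c2011 k0))) (by decide +kernel)
def c14093 : PP 8 4 T 0x100001001000000015000400000010090005100000060000020001040011000480 := rS 0x22432358a4c82000c442c1f31c60ab093699d2e773486e2c73 (k8 c14048 c4481 c688 c13396 c1024 c1195 c656 c4993 (k8 c4322 c1767 c9998 c1769 c14050 c8238 c14051 c487 (k4 c4466 c4478 c12392 c13956 (k2 c7270 c4479 (k1 c4340 k0))))) (by decide +kernel)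
def c14094 : PP 8 4 T 0x1000100001001000000014000400000400100005000000004000021001040011000400 := rS 0x1950268645a9d22054a8fd82153ba24a61b5ac58e6582d9d40c09 (k8 c13906 c4462 c499 c12637 c4476 c14048 c4481 c4419 (k8 c688 c2034 c14092 c1024 c648 c1853 c11031 c9517 (k8 c527 c12700 c13601 c14093 c9460 c1565 c7313 c14091 (k1 c14090 k0)))) (by decide +kernel)
def c14095 : PP 8 4 T 0x8000000001001000000011000400000000010005440000000000000001040005100020 := rS 0x21d1655 (k4 c266 c13945 c7313 c9460 k0) (by decide +kernel)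
def c14096 : PP 8 4 T 0x1000100001001000000014000400000000100005000000004000021001040001000400 := rS 0x11943269161d02c58ea951f9ccb05b60854ee892986c0c09 (k8 c13906 c4462 c688 c2034 c14092 c1024 c648 c1853 (k8 c12637 c4476 c14048 c11031 c9517 c499 c4481 c14095 (k4 c10867 c14093 c14094 c9460 (k2 c4448 c10171 k0)))) (by decide +kernel)
def c14097 : PP 8 4 T 0x1001000000004000400000000100004000000004000041001040001000400 := rS 0xaf898b0651114c58403b0e8583ed002c62128a31a1e0889629a4ef153c9d52a3f369cd821b0a8192e582d824a640 (k8 c14084 c2034 c13906 c12637 c4476 c1195 c4462 c648 (k8 c688 c1853 c14048 c4993 c11031 c9517 c499 c501 (k8 c14037 c1024 c13396 c14088 c14092 c14096 c4410 c4407 (k8 c2123 c4322 c9998 c13945 c14044 c14050 c8238 c10867 (k8 c1762 c4466 c4471 c12392 c14051 c7270 c4468 c4340 (k2 c983 c11588 k0)))))) (by decide +kernel)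
def c14098 : PP 8 4 T 0x1000000000000000000000000000000800000020000000001000000000080 := rS 0x1f (k2 c3101 c13967 k0) (by decide +kernel)
def c14099 : PP 8 4 T 0x200000001000000010000000004000000054000000144000800000001000004000000 := rS 0xd433568b4ca17 (k4 c2030 c4412 c4332 c4338 (k2 c416 c8058 (k1 c6097 k0))) (by decide +kernel)
def c14100 : PP 8 4 T 0x1001000000000000400000000100004000000004000041001040000000400 := rS 0xcd30ac88a2ca41f68a24c63a55a1e2ec56125cce794a8fce6690c9dcb05b2006c0c09 (k8 c13906 c4462 c688 c14084 c12637 c4476 c14098 c1872 (k8 c13396 c14048 c11031 c9517 c501 c656 c1195 c14097 (k8 c196 c4362 c1907 c1947 c4471 c7153 c7172 c1762 (k8 c3107 c1048 c14044 c14099 c13033 c4958 c943 c6171 k0)))) (by decide +kernel)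
def c14101 : PP 8 4 T 0x1000000000000000000000000000000001100000010000800000000000000000000000 := rS 0x11f0d (k2 c4382 c1425 (k1 c4486 k0)) (by decide +kernel)
def c14102 : PP 8 4 T 0x800002000000000000000000000400000001100000500400000000000000000000000 := rS 0xbaa5 (k2 c4444 c4377 (k1 c4130 k0)) (by decide +kernel)
def c14103 : PP 8 4 T 0x40000000000001a00000000001000010410440800001405101100000500020000041005400120000080 := rS 0xcc5b2d49c25865151ebc2388d72d2583f4be115389d4295649c52e3a8ba8d3e04018b402141fa6552a5 (k8 c4444 c4345 c1032 c11031 c11612 c2630 c4332 c382 (k8 c4461 c4414 c4337 c4358 c4471 c3029 c2633 c2610 (k8 c9517 c4551 c872 c13601 c12290 c14101 c14102 c13430 (k8 c10281 c1204 c4372 c4374 c7138 c760 c4454 c4486 (k4 c4381 c6996 c7513 c11040 (k2 c7551 c1480 k0)))))) (by decide +kernel)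
def c14104 : PP 8 4 T 0x1001000000000000000000000100004000000004000041001040000000400 := rS 0x7f633389cd23ea0c220d0797960fd47a410a81891ae10bb658bc2e525f94696c24c8cd361c02084069f16aad5b104999d2ed100994aa3a62850271782ac8d21b8aa547ec14e864ee582d8181240 (k8 c14084 c13906 c4462 c12637 c4476 c14098 c1872 c3040 (k8 c1853 c11031 c9517 c14037 c688 c13396 c14100 c4312 (k8 c4358 c513 c11612 c3046 c4471 c141 c2516 c2630 (k8 c454 c3029 c13949 c1124 c7239 c6230 c4415 c4332 (k8 c4414 c382 c12555 c4461 c4726 c1849 c6309 c1032 (k8 c13950 c4459 c1867 c3036 c1048 c653 c7984 c3925 (k8 c3942 c4465 c6097 c4469 c4439 c4321 c14103 c130 (k8 c4550 c1155 c1156 c11363 c2486 c2507 c548 c1379 (k4 c4463 c6153 c421 c420 (k2 c1521 c7317 k0)))))))))) (by decide +kernel)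
def c14105 : PP 8 4 T 0x1800000000001000000000000100040401100408010110021000000000000000100020 := rS 0x3f17a8e369bcc319 (k8 c4366 c617 c1107 c4993 c8104 c1171 c4480 c10309 k0) (by decide +kernel)
def c14106 : PP 8 4 T 0x40000000000000000000000000000000400000041044000002050000055400000000000000000000000 := rS 0x1925d (k2 c1497 c717 (k1 c12374 k0)) (by decide +kernel)
def c14107 : PP 8 4 T 0x1000000000000000000000000000000000100000000000020000000000000040008024 := rS 0x11c24 (k2 c264 c11363 (k1 c1424 k0)) (by decide +kernel)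
def c14108 : PP 8 4 T 0x40000000000001000000000001000020400000000000411100458010150020000061000040020100000 := rS 0x47aec6e486393c4b436611d9ebd42afdfab02fa9c4ea130c2532393195552a555a8d3ead880a55f124e9b45a0f01810341f (k8 c3108 c1050 c4160 c423 c14107 c390 c4993 c3040 (k8 c4055 c4346 c1760 c4468 c4338 c4414 c4337 c4445 (k8 c4444 c4345 c266 c12253 c3158 c1132 c4320 c617 (k8 c4551 c872 c13601 c14101 c14105 c4304 c3043 c14106 (k8 c1172 c8730 c1764 c2128 c4395 c11222 c6655 c460 (k4 c7091 c322 c9053 c761 (k1 c2126 k0))))))) (by decide +kernel)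
def c14109 : PP 8 4 T 0x1001000000000000400000000100000000100004000041001040000000400 := rS 0x1446793976c62591c92270883592231a979605d5fc35200f4f9f4ff10820a5961332b40a23aa5b1136ab52abc5a550e0862403024552a3f30915829d8c87d326d1ca0ce20133a5cb05b6194c2a0604868f440 (k8 c14084 c14104 c1050 c13906 c4462 c648 c414 c1211 (k8 c12637 c4476 c1195 c656 c5876 c2673 c2621 c3158 (k8 c4993 c1132 c3108 c4366 c3040 c1853 c14083 c617 (k8 c11031 c9517 c14037 c4160 c423 c4055 c310 c527 (k8 c266 c390 c4346 c4444 c4445 c1849 c13968 c4429 (k8 c1055 c1595 c1056 c13977 c693 c3682 c1760 c13960 (k8 c4468 c4313 c4409 c4414 c14107 c14108 c4328 c3044 (k8 c808 c1155 c1156 c3019 c769 c7308 c2676 c2507 (k8 c873 c4209 c6900 c9597 c2107 c6870 c460 c1520 (k2 c8360 c4396 k0)))))))))) (by decide +kernel)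
def c14110 : PP 8 4 T 0x1000000000000000000000011500044015000050154054400000000000000000000000 := rS 0xb8fc (k2 c4480 c9616 (k1 c4377 k0)) (by decide +kernel)
def c14111 : PP 8 4 T 0x40000000000001000000000001000020400011445101511100458154055000000061000140020004000 := rS 0x8f5d8dc914363b308e4f678957efd582f50a5f5389d43091ca4c3ea34fab62029 (k8 c1760 c4468 c4338 c4414 c4337 c3108 c11351 c3158 (k8 c4320 c4551 c872 c13601 c14101 c14106 c1172 c14110 (k8 c4304 c3043 c11222 c8730 c6655 c1764 c2128 c460 (k4 c4395 c7091 c322 c9053 (k2 c761 c2126 k0))))) (by decide +kernel)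
def c14112 : PP 8 4 T 0x1001000000020000400000400100000000000004000041001040000000400 := rS 0x288cf272ed8c4b239244e1106b2446352f2c0babf86a401e1c0227c071052aa4662d8907d326d1ca0ce20129ae52e67309bd2a3f3ac555655a5c250e890c9dd96b53f9f4cb194e8a55e638204ca2450d1e8e6582d8540c091d1a1a040 (k8 c14084 c1056 c14109 c1055 c13906 c4462 c648 c12637 (k8 c4476 c14048 c14104 c1050 c14083 c1595 c693 c4158 (k8 c4407 c828 c1760 c3040 c4366 c13977 c4409 c4313 (k8 c3698 c3682 c14098 c1872 c2661 c1634 c4320 c4429 (k8 c7179 c1675 c14037 c499 c11031 c9517 c1107 c617 (k8 c656 c1195 c14038 c414 c5876 c2673 c2621 c3158 (k8 c4993 c1132 c3108 c7035 c14086 c4340 c4345 c4444 (k8 c4468 c422 c4414 c4461 c4726 c14107 c14111 c4328 (k8 c3044 c808 c1155 c1156 c3019 c769 c7308 c2676 (k8 c2507 c873 c4209 c6900 c9597 c2107 c6870 c460 (k2 c1520 c8360 (k1 c4396 k0)))))))))))) (by decide +kernel)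
def c14113 : PP 8 4 T 0x800000000000000020000120000000008000400 := rS 0x86620 (k4 c1849 c863 c7039 c422 k0) (by decide +kernel)
def c14114 : PP 8 4 T 0x1001000000000000400000000100000000000004000041001040000000400 := rS 0xc561a5d2a3f60a6402ab8926c3445031e8da9d20160b609 (k8 c13906 c12637 c4476 c14084 c3040 c4993 c14104 c4462 (k8 c14083 c1050 c14113 c7035 c4445 c5876 c1132 c1853 (k4 c11031 c9517 c1195 c1211 (k2 c14112 c13968 k0)))) (by decide +kernel)
def c14115 : PP 8 4 T 0x1001000000000000000000000100000000000004000041001040000000400 := rS 0x56b0d2e9333b44ca3a0e0118a148bc1406b2558ce249b00a25321a3d27582404a8fcda582d9140c09 (k8 c13906 c4462 c14083 c12637 c4476 c4993 c11031 c9517 (k8 c14084 c1853 c3040 c14104 c1050 c1132 c2661 c5876 (k8 c14113 c7035 c4340 c4445 c14114 c422 c4312 c4358 (k8 c11612 c3046 c4461 c4726 c4471 c2516 c455 c655 (k4 c1030 c3029 c3034 c4903 (k1 c13950 k0)))))) (by decide +kernel)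
def c14116 : PP 8 4 T 0x21000100000000000000004010500040015021001554054500000000000000000000000 := rS 0x33e86bc419f9f87d3da7d6b16 (k8 c4481 c4419 c6233 c4366 c8975 c4480 c9616 c4306 (k4 c6225 c4392 c1521 c9160 k0)) (by decide +kernel)
def c14117 : PP 8 4 T 0x1000100001001000010000000414040001100000040110160000151002000080000080 := rS 0x33178c8279f44a471bb48fefd5824e20632aa202487289e5867762b042ab94b984de7550a547e0304a2cf718429b6269f3397ce200 (k8 c1098 c2431 c14101 c656 c6233 c4441 c4993 c5976 (k8 c4472 c4366 c14050 c13906 c222 c11031 c9517 c4551 (k8 c499 c1107 c617 c1195 c14038 c648 c4450 c4370 (k8 c1023 c9009 c501 c1916 c11158 c9770 c2123 c34 (k8 c1559 c4794 c4413 c14116 c4304 c674 c8563 c8300 (k8 c4374 c12180 c7516 c298 c2118 c6022 c637 c2068 k0)))))) (by decide +kernel)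
def c14118 : PP 8 4 T 0x1000100001001000010000000410040001100000040110160000151002000080000080 := rS 0x16431a955163a9dd3a670022cf718 (k8 c4472 c4366 c14050 c1098 c656 c4368 c1023 c499 (k4 c4481 c14117 c13092 c11176 (k2 c492 c3818 k0))) (by decide +kernel)
def c14119 : PP 8 4 T 0x1001000000000000400000000100000000100004000051000040000000410 := rS 0x21e08a33288cba8b1c8005a350f2443b153a9ccb05b10b455a30618fcee7b8c1140c09 (k8 c13906 c4462 c14083 c4472 c4366 c1023 c11031 c9009 (k8 c14115 c2047 c300 c316 c12637 c4476 c14048 c499 (k8 c14037 c10867 c12700 c4466 c1099 c392 c1098 c8383 (k8 c14050 c8197 c9135 c491 c11410 c14118 c4410 c9062 k0)))) (by decide +kernel)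
def c14120 : PP 8 4 T 0x1001000000000000400000000100000000100004000051000040000000400 := rS 0x45a250e190b95408793a9cc5ed10d8c0da582db0c7e773db158318228540c09 (k8 c13906 c4462 c648 c14083 c4472 c4450 c4370 c4366 (k8 c1023 c11031 c9009 c12637 c4476 c4993 c14115 c295 (k8 c300 c61 c14048 c499 c501 c14119 c266 c533 (k4 c269 c7313 c7030 c14044 (k1 c2123 k0))))) (by decide +kernel)
def c14121 : PP 8 4 T 0x1001000000000000400000000100000000000004000051000040000000400 := rS 0x55a4d0e550e145320435c24d0970aa54da582da6d5a30618fcee9d8c1140c09 (k8 c13906 c4462 c14083 c4472 c4368 c1023 c11031 c9009 (k8 c14115 c2047 c1966 c12637 c4476 c4993 c9517 c648 (k8 c1195 c14120 c4437 c69 c1879 c1880 c3786 c527 (k4 c266 c9141 c1030 c1884 (k1 c9825 k0))))) (by decide +kernel)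
def c14122 : PP 8 4 T 0x1000000001000000000000214000040055500000000000000000040902000000000000 := rS 0x699349e461b095690c (k8 c4486 c7468 c4381 c1579 c1578 c298 c324 c4374 (k1 c7460 k0)) (by decide +kernel)
def c14123 : PP 8 4 T 0x21000000001000000000400000900040055100001414000000000040802000025415000 := rS 0x4f268886c8e5c92d78837e2dc5e7b1ca050b08 (k8 c4465 c4321 c4439 c3155 c4366 c61 c1163 c4480 (k8 c4306 c6225 c1859 c1208 c14122 c761 c760 c324 (k2 c1490 c2108 k0))) (by decide +kernel)
def c14124 : PP 8 4 T 0x21200000001001000000004000810000105100000400000020000041002000020000080 := rS 0x16a8f2388da4b958034225f139e4df131086d92710b83c08010187d469f658650eae4ab0536ab62a5c75174e9b4283f (k8 c11031 c11612 c4993 c4368 c4358 c4471 c3029 c4370 (k8 c4415 c1966 c4450 c9517 c7223 c1633 c389 c8140 (k8 c4414 c4337 c3105 c2348 c2630 c4461 c14107 c1911 (k8 c2633 c2610 c295 c316 c4441 c1107 c501 c872 (k8 c14101 c12290 c528 c14123 c1204 c10281 c4372 c4374 (k2 c760 c7513 (k1 c13526 k0))))))) (by decide +kernel)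
def c14125 : PP 8 4 T 0x1001000000000000000000000100000000000004000051000040000000400 := rS 0x53a089ad20893c1a5e54ac1fa900ca1d5cab4c83e20930e0102e674b87c02032a8e82917593058a9d8c1dd87154a8fc8a064dab4363036960b609 (k8 c13906 c12637 c4476 c4993 c14115 c295 c2047 c1966 (k8 c4462 c14083 c11031 c9517 c14037 c9009 c1023 c4472 (k8 c4368 c4370 c4450 c14121 c4358 c11612 c4471 c141 (k8 c2348 c2630 c3105 c3029 c13949 c1911 c4461 c4726 (k8 c1124 c7239 c14107 c1031 c4415 c7223 c1633 c389 (k8 c14124 c4550 c1155 c978 c1156 c2486 c299 c2507 (k4 c4463 c4282 c6153 c2006 (k1 c549 k0)))))))) (by decide +kernel)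
def c14126 : PP 8 4 T 0x1000000000001000000000010500044055100050154054000000004000140000100000 := rS 0xc65a3f1425f (k4 c14101 c4551 c4480 c14110 (k2 c11451 c1432 k0)) (by decide +kernel)
def c14127 : PP 8 4 T 0x1000000008010000044045500000000000000000000800004100120080 := rS 0x2d98e34 (k4 c609 c406 c8004 c3022 k0) (by decide +kernel)
def c14128 : PP 8 4 T 0x1200001001001000000008010000000045510000000000420040001800004105504081 := rS 0xb666ad5044769044dea34fa852a3f (k8 c11031 c9517 c4551 c4414 c4337 c1107 c14127 c12381 (k4 c4374 c6153 c7513 c2064 (k2 c11040 c1168 k0))) (by decide +kernel)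
def c14129 : PP 8 4 T 0x1000000001001000000008000400000001110050000004020000001802040121004081 := rS 0xd2110451c4f12bf5605f139cc366d499c42e2f16855726702184de75519953f104bab52a3f (k8 c11031 c9517 c2047 c1195 c13033 c4414 c4412 c4337 (k8 c499 c1107 c617 c1026 c655 c14038 c648 c390 (k8 c61 c533 c2483 c1030 c4993 c295 c14048 c872 (k8 c14101 c14126 c4304 c11222 c298 c14128 c7008 c760 (k2 c12381 c4372 k0))))) (by decide +kernel)
def c14130 : PP 8 4 T 0x4000000010000000000000000004010020000000000000240000000040000054040a0 := rS 0x1a483088349e5e54ac1fb0d (k8 c4328 c4550 c1155 c978 c1156 c4646 c2486 c2507 (k2 c549 c4463 (k1 c6153 k0))) (by decide +kernel)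
def c14131 : PP 8 4 T 0x1000000001001000000000000400000001100001000000020000021002040100000084 := rS 0x7c820ea2ec23f98d12153aa547e734c3058a7b3b804aa0f0fa2da28784064d2171786cda0d2f9c4081c (k8 c1913 c1026 c2483 c14101 c528 c4993 c295 c61 (k8 c533 c3784 c269 c4465 c4440 c300 c14044 c1104 (k8 c14107 c266 c487 c3009 c1050 c1056 c3821 c1912 (k8 c14048 c11031 c9517 c499 c648 c9478 c12253 c7517 (k4 c6803 c9460 c4471 c4481 (k2 c14129 c4409 k0)))))) (by decide +kernel)
def c14132 : PP 8 4 T 0x1000000001000000000004000900040055100001414000000000060902000005415000 := rS 0x4f268886a8e5c92d78837e2dc5e215d870f6bf4c2050b08 (k8 c4465 c4321 c4439 c1912 c1133 c1050 c1913 c3820 (k8 c316 c61 c1163 c4480 c4306 c2122 c1859 c1207 (k4 c14122 c1306 c760 c1995 (k2 c1490 c2108 k0)))) (by decide +kernel)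
def c14133 : PP 8 4 T 0x1200000001001000010104000800004015100001010000020000065002000000014000 := rS 0xfeb6412d51e4f2388c4ad25cbf56089299bcc21b369dc72193485c5ea10697c081c4b8ea2ea3 (k8 c4337 c4358 c4471 c3029 c1913 c1026 c14101 c528 (k8 c4551 c61 c533 c3784 c269 c3153 c3009 c4993 (k8 c295 c617 c1107 c2034 c4742 c14132 c4304 c1204 (k8 c10281 c11222 c4372 c4374 c298 c760 c7513 c6153 (k2 c11040 c676 (k1 c1164 k0)))))) (by decide +kernel)
def c14134 : PP 8 4 T 0x1000000001000000000000000900040055101105414000000000060902000000000000 := rS 0x4f699344435472e578837e2dc5e215d8717e98 (k8 c1912 c1133 c1913 c3820 c316 c61 c1163 c4480 (k8 c4306 c2122 c3033 c14122 c1306 c760 c1995 c4372 (k2 c1490 c7460 k0))) (by decide +kernel)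
def c14135 : PP 8 4 T 0x1001000000000000000000000100000000000004000041000040000000400 := rS 0xfeb6412d51e4f2388c4ad25cbf560cb2930822a38827d2ec9328e8291782ac8be2750a450a818403c2e7133864727749810067b0fa754e690e10036d1108ce262f18184de6d2c254f23f2d8181315 (k8 c14037 c13906 c4462 c12637 c11031 c501 c9517 c4476 (k8 c4993 c1107 c617 c14115 c61 c4441 c173 c316 (k8 c300 c295 c14125 c1913 c3784 c3909 c3040 c1104 (k8 c1050 c790 c1026 c1030 c3009 c3153 c269 c655 (k8 c2483 c533 c14107 c4465 c4439 c4321 c14130 c4551 (k8 c872 c14101 c14131 c4312 c4358 c11612 c4471 c2516 (k8 c2610 c3029 c6233 c7239 c4337 c12290 c14133 c1048 (k8 c3925 c14134 c4304 c1204 c10281 c11222 c4372 c4374 (k4 c298 c760 c7513 c6153 (k2 c11040 c677 (k1 c1164 k0))))))))))) (by decide +kernel)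
def c14136 : PP 8 4 T 0x1001000020000000400000000054000400000001000155000000004100000 := rS 0x3a1cc263b3cb0630c3 (k8 c9009 c4472 c4450 c4447 c1763 c1758 c13487 c8505 (k1 c11468 k0)) (by decide +kernel)
def c14137 : PP 8 4 T 0x1001000000000000404000044000000000554001000155005000025500100 := rS 0x1d22caf5634517083b9b536994aa758ac18c21d12c3 (k8 c9009 c7030 c7313 c4472 c4450 c4370 c4368 c763 (k8 c1032 c765 c5889 c6033 c4465 c4322 c14136 c13950 (k4 c193 c4809 c13181 c4417 k0))) (by decide +kernel)
def c14138 : PP 8 4 T 0x1000000000001000000000011100044045100050140054500000001400000020000000 := rS 0x471b9fac8509847295 (k8 c763 c1139 c13428 c4551 c2118 c4305 c7550 c7622 (k1 c1345 k0)) (by decide +kernel)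
def c14139 : PP 8 4 T 0x1001000000000000000000000100000000000504000151001140000100002 := rS 0x2884e662958c4b07b48df0d481f4feb55ca7e08758b1cd4628098ee96ae682b6262e3642434976199d12871f8262ab335ac4ca690c98caa9b4ca55261c558cc2e0a4eb158318 (k8 c4472 c4450 c4370 c4368 c14135 c573 c951 c14076 (k8 c567 c1030 c763 c1032 c765 c306 c755 c308 (k8 c757 c2539 c2605 c2540 c663 c14037 c13906 c398 (k8 c7313 c7030 c4555 c9009 c11783 c14137 c4316 c686 (k8 c687 c4342 c944 c13950 c2127 c4426 c1763 c1759 (k8 c5815 c2762 c7619 c4471 c11468 c4464 c3695 c4361 (k8 c4419 c4313 c4409 c14138 c4328 c1075 c12744 c305 (k4 c4375 c12217 c5936 c461 (k2 c460 c5541 (k1 c4396 k0)))))))))) (by decide +kernel)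
def c14140 : PP 8 4 T 0x1000000001000000000000000101100155101100001404500000150000900025200002 := rS 0x44d25ebf5044d0883d4e61049a536bb4eafe30b95ac5a2266 (k8 c646 c4334 c4487 c4419 c6781 c4472 c4369 c4368 (k8 c4449 c765 c757 c13906 c13428 c13601 c12299 c606 (k4 c1992 c2119 c4306 c13440 (k2 c9038 c7138 (k1 c4372 k0))))) (by decide +kernel)
def c14141 : PP 8 4 T 0x1001000000000000000000000100000000000084000051001040004000010 := rS 0x7f633389c833e8441ed2383f4de9052aa45c525621502d1841b62a1935ac4c6554daac66173ca758ac18c04e0ac34cad62d113325c5014169748a1f0497d26950e000060a (k8 c14135 c303 c4461 c567 c763 c1030 c577 c13906 (k8 c270 c13923 c2721 c2920 c14139 c647 c2745 c646 (k8 c4334 c4487 c4419 c1032 c4958 c4308 c140 c4472 (k8 c4450 c4370 c4368 c4447 c573 c951 c14076 c765 (k8 c306 c755 c2605 c2540 c308 c14037 c5889 c4465 (k8 c454 c4439 c4321 c13950 c781 c4554 c2752 c3939 (k8 c14140 c1075 c4550 c889 c12744 c305 c10884 c8975 (k4 c588 c6153 c421 c420 (k2 c1521 c7317 k0))))))))) (by decide +kernel)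
def c14142 : PP 8 4 T 0x1001000000000000000000000100000000000084000051001040000000010 := rS 0x68ab513090d30d2f11458a0cd050a3058a9d558b4ba934aa653718199a438450007c12030c97c2e0a (k8 c14135 c573 c577 c308 c303 c13906 c270 c4461 (k8 c13923 c567 c757 c951 c4472 c765 c1032 c763 (k8 c1030 c2721 c2920 c14076 c4368 c4370 c4450 c14139 (k8 c4308 c646 c647 c2700 c4334 c2745 c4958 c14141 (k4 c4316 c2660 c8622 c455 (k1 c13950 k0)))))) (by decide +kernel)
def c14143 : PP 8 4 T 0x200001000000000004000400000000004000100000000000050000000004040900 := rS 0x4648a19 (k4 c308 c438 c14023 c4472 k0) (by decide +kernel)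
def c14144 : PP 8 4 T 0x1001000000000000004001010000000001404000000051000040080140920 := rS 0x4dc418b18148ec8ad03cb05149957c48a66984868eac38221c7e192aaccca2d (k8 c2359 c7854 c663 c306 c308 c398 c7313 c4464 (k8 c9009 c11468 c14143 c4316 c7139 c414 c4479 c4346 (k8 c4443 c13999 c1712 c604 c13932 c439 c1763 c1760 (k4 c4472 c4530 c4468 c4448 (k1 c7287 k0))))) (by decide +kernel)
def c14145 : PP 8 4 T 0x1001000000000000004001050000000000054000000051405000004200800 := rS 0x1843f291d510c13ca6d0ec58c22da30834914326b0bab62105 (k8 c4308 c4478 c4338 c573 c6097 c308 c438 c13396 (k8 c4465 c454 c718 c4472 c4530 c4440 c4448 c4447 (k4 c4450 c8058 c596 c4742 (k2 c399 c14045 (k1 c9009 k0))))) (by decide +kernel)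
def c14146 : PP 8 4 T 0x1000000000004000054001154000000000000000000150400000000000000 := rS 0x18118 (k2 c4472 c6161 (k1 c4450 k0)) (by decide +kernel)
def c14147 : PP 8 4 T 0x1000101000001000000000001141010000020000004555480410000000145008001000 := rS 0x496391e86ce3f20e187d381753ea38832452d0 (k8 c679 c1760 c2617 c4478 c4337 c6233 c841 c4480 (k8 c8975 c4477 c2567 c4560 c9577 c4392 c1311 c1520 (k2 c1791 c7091 k0))) (by decide +kernel)
def c14148 : PP 8 4 T 0x1000101000001000000000011141010000020000000555480410201010144088005100 := rS 0xc665b48927f5e8e4dc3712a7d47108cd2c52d0 (k8 c679 c1760 c4457 c4364 c4478 c4337 c6233 c11222 (k8 c272 c14147 c1073 c3079 c1459 c4209 c4470 c2025 (k2 c8916 c13447 k0))) (by decide +kernel)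
def c14149 : PP 8 4 T 0x1000000000001000000000000104010000100000001414080000241000040008600920 := rS 0x632dc6ece23af94e7e5eb2c92393ea0d02112ebf1928843b056b165ca2c7e53269e0ef193d83c1a331397d3a3516a44c2a31da4e210533aa55ea589424d21e (k8 c575 c7139 c4316 c4479 c4444 c4346 c4345 c655 (k8 c4308 c4478 c4413 c1101 c4337 c6986 c888 c2359 (k8 c1099 c968 c577 c351 c6119 c2550 c12199 c703 (k8 c4364 c1089 c7132 c2341 c2387 c13907 c2589 c7514 (k8 c4471 c4419 c4420 c10171 c6907 c2617 c14148 c4377 (k8 c4300 c4380 c4306 c4379 c358 c366 c2024 c2016 (k8 c4560 c4500 c12641 c1311 c8425 c1512 c1247 c2113 (k1 c1520 k0)))))))) (by decide +kernel)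
def c14150 : PP 8 4 T 0x1000001000000000000000000100010000000040204055480000000000000000200000 := rS 0x320e07d2ea8e2105 (k8 c4308 c4478 c4337 c841 c1691 c4480 c4560 c2564 k0) (by decide +kernel)
def c14151 : PP 8 4 T 0x1000102001000000000000000000000051180000200055400800150000000080000800 := rS 0x2e1a47e658e46e7d64844baa151c417e35 (k8 c1099 c6330 c4478 c4337 c4551 c4377 c4300 c4305 (k8 c4379 c11297 c358 c1752 c4560 c4470 c595 c8183 k0)) (by decide +kernel)
def c14152 : PP 8 4 T 0x1001001001000000000000000000000000000400008000000000150050000000004100 := rS 0x9cd242af472bf (k4 c6330 c1073 c1080 c1499 (k2 c4470 c6022 (k1 c6655 k0))) (by decide +kernel)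
def c14153 : PP 8 4 T 0x1000000001001000000000000100000010100000000004080000051001040000040820 := rS 0x34996b808b24fc70378dc4afd41a28a4893a344e6871f52e2ec23cafe30454cabe246984868769356c420a1450825665f078352e674e9b46aab358cc2e91309945a1e (k8 c575 c2359 c7854 c6986 c888 c573 c6119 c6097 (k8 c14076 c1099 c695 c968 c655 c928 c2550 c12199 (k8 c577 c663 c13906 c4551 c14144 c4308 c4478 c4338 (k8 c4413 c1101 c14145 c4316 c7139 c4479 c4346 c4443 (k8 c14149 c4472 c6330 c599 c14146 c14062 c4459 c9009 (k8 c1907 c1081 c2426 c399 c7172 c13656 c4485 c2627 (k8 c14151 c11222 c272 c14152 c4480 c14150 c2564 c2575 (k4 c595 c1752 c4463 c8183 k0)))))))) (by decide +kernel)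
def c14154 : PP 8 4 T 0x1000000010000000004000000014000000554000000000005000004200000 := rS 0x45ab62105 (k4 c4308 c4478 c4338 c718 (k1 c8058 k0)) (by decide +kernel)
def c14155 : PP 8 4 T 0x1001001001000000000000000100000000080000200055480000150010000080205100 := rS 0x1a4cb5c045927e381bc6ea112afca483 (k8 c2627 c719 c6330 c11222 c11524 c272 c14152 c4480 (k4 c14150 c2564 c2575 c595 (k2 c1752 c4463 (k1 c8183 k0)))) (by decide +kernel)
def c14156 : PP 8 4 T 0x1001000000000000000000000100000000000014000051001040000000000 := rS 0x698dce0b85a9f99639421f502c908975f852a5a294aaf89424348744a9cd2ad51b04f29b882fe3105229d028d11f1cc769f8ba50ca91319ad562d1aa74c22119878da6706ac4260f020262ab32f9682e0a (k8 c14135 c573 c4476 c577 c663 c14037 c13906 c14142 (k8 c12199 c12274 c12219 c2550 c655 c695 c575 c6119 (k8 c311 c6986 c968 c1099 c2359 c14076 c6097 c12307 (k8 c888 c7854 c14153 c4418 c1699 c1577 c1616 c4471 (k8 c2426 c398 c399 c13907 c4308 c4472 c6330 c4478 (k8 c4448 c4447 c4450 c4337 c4338 c844 c13601 c7172 (k8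 c7043 c14154 c4316 c4479 c4346 c4444 c2120 c4427 (k8 c719 c14155 c4377 c4300 c4305 c4380 c4379 c4130 (k8 c358 c1752 c12374 c1434 c595 c594 c403 c8183 (k1 c7095 k0)))))))))) (by decide +kernel)
def c14157 : PP 8 4 T 0x1001000000005000000000000054001400000000000141400000004100800 := rS 0xe87309955663f (k4 c398 c663 c306 c571 (k2 c13487 c8505 (k1 c11468 k0))) (by decide +kernel)
def c14158 : PP 8 4 T 0x1000000000000000000000002000001000000084000000002000001400810 := rS 0x1060f27b48e06f5486c0003 (k8 c303 c4461 c294 c2982 c1075 c889 c12744 c299 (k2 c305 c588 (k1 c6153 k0))) (by decide +kernel)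
def c14159 : PP 8 4 T 0x80410054051100001555500000000800000000080800 := rS 0x104cc54d154acf8650d909f51c40fb173f9d1974b (k8 c4428 c8140 c570 c2545 c4417 c3521 c4487 c4337 (k8 c4414 c2118 c4422 c7308 c1792 c4385 c13089 c7105 (k2 c4495 c2119 (k1 c2064 k0)))) (by decide +kernel)
def c14160 : PP 8 4 T 0x20000000000001000000004000400000000044000400000001000005000000000140000 := rS 0xeb04 (k2 c4464 c11468 (k1 c9062 k0)) (by decide +kernel)
def c14161 : PP 8 4 T 0x400000001001000000000000010410014040000401515500000151000140004100800 := rS 0x4415517579d0243a4bb0cce891f955667960c610a8740c203217 (k8 c573 c308 c4465 c4439 c10041 c10110 c4472 c4450 (k8 c4447 c663 c306 c398 c7030 c4555 c9009 c11783 (k8 c14157 c14160 c570 c14159 c4417 c12794 c4487 c4415 k0))) (by decide +kernel)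
def c14162 : PP 8 4 T 0x101001001000001000000000000000000480004401500401000002000005404802 := rS 0xd018d32593d5025429b4671334a061011 (k8 c606 c4465 c4439 c1878 c4441 c173 c5889 c10110 (k8 c11222 c12981 c298 c1322 c6153 c9787 c10457 c8851 k0)) (by decide +kernel)
def c14163 : PP 8 4 T 0x100000000000000000000000000000000000001000000000000000000000002802 := rS 0x34 (k2 c569 c8851 k0) (by decide +kernel)
def c14164 : PP 8 4 T 0x1001000000000000000000000000000400000001400000000002000005415000 := rS 0x13da425 (k4 c11222 c4463 c298 c6153 k0) (by decide +kernel)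
def c14165 : PP 8 4 T 0x400000000021100002000001000000000000000044055101500001400000005000002004025015800 := rS 0x34478dda64f12c30d23950ae56b16 (k8 c4487 c4419 c6781 c12260 c1139 c1878 c4489 c4381 (k4 c298 c5968 c7463 c761 (k2 c4470 c11516 k0))) (by decide +kernel)
def c14166 : PP 8 4 T 0x21100000001001000004100000000000051114440000401400201000002164025415800 := rS 0x9a4f23895444b4fd0d947d7e22da293429b4671334a0610cd (k8 c3825 c4465 c4439 c1878 c4441 c173 c5889 c10110 (k8 c1030 c300 c14044 c14164 c4379 c2124 c4425 c3518 (k4 c3823 c14165 c1464 c1314 (k2 c298 c1997 (k1 c2108 k0))))) (by decide +kernel)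
def c14167 : PP 8 4 T 0x1100100001001000004100000100000051114040000400400201050002164024015800 := rS 0xb765af5fa820c85d76bf62b06304530b0d32b95ac5926cd (k8 c3825 c1030 c4487 c4419 c6781 c1031 c4958 c13428 (k8 c2235 c4472 c4450 c4370 c4369 c4449 c573 c308 (k4 c14166 c4306 c13440 c8863 (k2 c5279 c2129 k0)))) (by decide +kernel)
def c14168 : PP 8 4 T 0x400000000021100002000001000000000000000044055101500001400000001000002004025015800 := rS 0x5292a18a1 (k4 c12260 c4489 c14165 c4385 (k1 c1914 k0)) (by decide +kernel)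
def c14169 : PP 8 4 T 0x1001000000000000000000000100000000000084000051002040000000010 := rS 0x964f6309544fc41a7cdf433f0359a0f679416aaa4494e2cb961a5d5f111419a0a496485022a750985228143a15322d2ea4d2a2732ac517083b9b438000d87c13150197c2f1319b4536ad34864c6214eb15826b3cc608a0a (k8 c14135 c2235 c4472 c4447 c580 c4450 c4370 c4368 (k8 c316 c12307 c308 c1878 c2047 c1966 c300 c173 (k8 c4441 c573 c577 c303 c14037 c13906 c270 c294 (k8 c4461 c4466 c5889 c6033 c4465 c14044 c2605 c2539 (k8 c2877 c763 c1030 c2721 c2920 c1031 c10110 c10041 (k8 c4439 c14158 c13428 c12260 c13601 c606 c14161 c630 (k8 c366 c4308 c646 c647 c4334 c984 c2745 c4958 (k8 c6781 c4487 c4179 c5289 c2127 c4419 c1572 c3519 (k8 c12299 c3825 c14163 c14167 c4392 c1459 c1393 c676 (k4 c14162 c14168 c1464 c4241 (k2 c298 c1453 (k1 c9787 k0)))))))))))) (by decide +kernel)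
def c14170 : PP 8 4 T 0x20000000000001000000000000000000000044000400000000000011000000000140800 := rS 0x618fcaab3 (k4 c663 c306 c398 c9009 (k1 c14160 k0)) (by decide +kernel)
def c14171 : PP 8 4 T 0x1000001001001000000000000100410000000440000455500800001012000085605800 := rS 0x3f8b8e168d31ba942025861a4da3342a0610a31da4e2105 (k8 c4308 c4478 c4413 c1101 c4337 c4465 c4439 c6224 (k8 c173 c5889 c1878 c4477 c11222 c14164 c4385 c272 (k4 c4276 c11254 c4470 c4419 (k2 c11265 c4471 k0)))) (by decide +kernel)
def c14172 : PP 8 4 T 0x102000000000000000000000010000000040000055500000000000000000000000 := rS 0x7d64a7d4710 (k4 c4478 c4337 c6233 c4305 (k2 c4379 c2118 k0)) (by decide +kernel)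
def c14173 : PP 8 4 T 0x1000000001001000000000000100410000000040000455500800051012000084205801 := rS 0x39699c46e8212bf432173cc608b05 (k8 c4308 c2235 c4472 c4447 c573 c308 c14172 c11222 (k4 c14171 c272 c588 c13507 (k2 c359 c4470 k0))) (by decide +kernel)
def c14174 : PP 8 4 T 0x1000000000000000000000000000000400000280000150012000000004020 := rS 0x13da4375e894dc8e (k8 c840 c841 c1335 c1079 c1343 c10321 c298 c6022 k0) (by decide +kernel)
def c14175 : PP 8 4 T 0x1001000010000000010000000044000001554000500000000000000600000 := rS 0xaea52255705 (k4 c4308 c13092 c4742 c4934 (k2 c2120 c4428 k0)) (by decide +kernel)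
def c14176 : PP 8 4 T 0x40000000000001002000000000000000000040014440001155080001555500000000000000000000000 := rS 0x11ca486aa596835720686cf (k8 c1521 c4392 c4439 c2120 c676 c8140 c7105 c9576 (k2 c2119 c4486 (k1 c1429 k0))) (by decide +kernel)
def c14177 : PP 8 4 T 0x1000000001001000000000000110010001140000000455500800051002000084205801 := rS 0x11ca486aa59683381bd72c31f9d510cfa19f5927e5d9e630451aa9d367704a150e6d199a62681840642eab51c420b4b (k8 c4456 c4308 c4478 c4337 c13092 c573 c308 c4465 (k8 c4439 c4441 c1878 c173 c5889 c10041 c6224 c13906 (k8 c6033 c1966 c13601 c1099 c2235 c4472 c4447 c4449 (k8 c14173 c155 c154 c4392 c1521 c14176 c596 c399 (k8 c9009 c7514 c1459 c14055 c588 c2024 c7105 c9576 (k2 c2119 c4486 (k1 c1429 k0))))))) (by decide +kernel)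
def c14178 : PP 8 4 T 0x1000000001001000010000000110000000100000000050080000051002000004040820 := rS 0x20c9a4b27845f82323aa61aa029174a2ab82851028742a2e1077368242f13199a43263109acf318228041e0d1397c6a1e53a44c29b (k8 c1966 c6986 c888 c13601 c575 c1099 c577 c351 (k8 c2550 c12199 c54 c2235 c4472 c4447 c580 c316 (k8 c12307 c308 c1878 c173 c4441 c573 c13906 c5889 (k8 c6033 c4465 c13509 c6224 c10041 c4439 c14170 c4308 (k8 c13092 c1916 c14174 c14175 c14177 c4329 c7768 c1585 (k8 c11967 c11524 c7312 c4646 c2037 c9728 c4306 c2108 k0)))))) (by decide +kernel)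
def c14179 : PP 8 4 T 0x1001000001000000000200000100000000000400100001400000150010000080004100 := rS 0x3737094e2fd (k4 c4305 c586 c11222 c4480 (k2 c272 c14152 k0)) (by decide +kernel)
def c14180 : PP 8 4 T 0x1001000001000000000000000000000000000400000000280000150010000000004100 := rS 0xdcdcfd (k4 c4377 c841 c1343 c14152 k0) (by decide +kernel)
def c14181 : PP 8 4 T 0x1001000001001000000000000100000000100400000004080000151000040000140824 := rS 0x1171da5126a064a7d4647119f4ead23fc107e552f834ce91309945a5d1a8781e09 (k8 c13906 c12199 c575 c1099 c14180 c2359 c7854 c6986 (k8 c888 c655 c2550 c577 c306 c398 c4464 c7517 (k8 c12277 c11468 c4409 c4372 c4374 c11410 c11776 c14179 (k4 c2118 c1739 c4551 c1101 (k2 c4418 c4471 k0))))) (by decide +kernel)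
def c14182 : PP 8 4 T 0x1001000001001000000000000100010000000440000055480000151010000080204900 := rS 0x5a9f22cc91f9c0ea6f1b895fa5d1da4e2105 (k8 c4308 c4478 c4413 c1101 c14180 c14172 c11222 c272 (k8 c14152 c14150 c4480 c399 c14179 c4471 c8784 c4419 (k1 c1419 k0))) (by decide +kernel)
def c14183 : PP 8 4 T 0x400000000001000004000440010040000080080000000400000551010000088200800 := rS 0x3e5b309783712c314b45268e49e4b423302252 (k8 c719 c2706 c725 c724 c2037 c421 c358 c374 (k8 c4397 c1401 c5541 c4381 c272 c2114 c2068 c2069 (k2 c9009 c1161 k0))) (by decide +kernel)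
def c14184 : PP 8 4 T 0x1000000001001000000000000000040001100080000000400100051402040088201800 := rS 0x34c9e395e89422b71b9d22e3e6194d16cf23ad686c959c4d5abb4eafd8318228d512d1 (k8 c300 c679 c1099 c2235 c4472 c4450 c4369 c4368 (k8 c4449 c2047 c4441 c663 c155 c4392 c1434 c1311 (k8 c1522 c14183 c415 c13656 c12813 c4356 c399 c403 (k8 c1744 c2575 c12180 c8143 c358 c298 c6022 c4470 k0)))) (by decide +kernel)
def c14185 : PP 8 4 T 0x1001000000000000000000000100000000000014000051000040000000000 := rS 0x2e0e8c9473f1290d501fc769328a8e20ab82850ba83364243465488b46a9730878ce0d5884c1e04359e6306322ab5a221180262a0359828be5a (k8 c4476 c577 c14135 c663 c303 c14037 c13906 c14156 (k8 c316 c300 c2047 c2235 c12307 c4472 c4447 c580 (k8 c14169 c12199 c12274 c12219 c2550 c655 c575 c6986 (k8 c928 c1099 c2359 c888 c7854 c14178 c4316 c295 (k8 c2622 c14180 c14181 c4308 c13092 c4478 c13617 c1916 (k8 c4413 c1101 c14184 c14182 c4329 c4551 c11524 c4486 (k4 c7308 c5073 c12305 c1475 k0))))))) (by decide +kernel)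
def c14186 : PP 8 4 T 0x1000000000000000000400001100000400001500000060005000000008802 := rS 0x176a554af57f0c119b86afd03a64389d (k8 c1052 c567 c1032 c83 c4376 c1330 c305 c1327 (k4 c4477 c1053 c1079 c6029 (k2 c4385 c4847 (k1 c7138 k0)))) (by decide +kernel)
def c14187 : PP 8 4 T 0x100001001000000000000004000000000000000454000000001005000005100800 := rS 0x116d11d2255a123a1a50e55 (k8 c306 c7313 c13396 c7079 c4464 c6230 c2546 c571 (k2 c3696 c14044 (k1 c8058 k0))) (by decide +kernel)
def c14188 : PP 8 4 T 0x1000000000000000004000044014000000454000000000005000025080800 := rS 0x22d5ad18b8e8e869 (k8 c13396 c570 c571 c4417 c3696 c4809 c14044 c8058 k0) (by decide +kernel)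
def c14189 : PP 8 4 T 0x1001000010000000000000040054000001550001000020005040024100002 := rS 0x45984ac2918d26ab (k8 c14076 c1030 c755 c13394 c8058 c2034 c4809 c4362 k0) (by decide +kernel)
def c14190 : PP 8 4 T 0x1001000000000000000000000000004000000004000021005140045100802 := rS 0x5f136294da0754584d13044b99d0e3f349acca632aa6c42930e2ad3a6d (k8 c5889 c1052 c14076 c567 c1030 c9668 c1849 c306 (k8 c755 c2539 c2540 c13396 c398 c7313 c4555 c11783 (k8 c14187 c4314 c14188 c5853 c11468 c14189 c179 c14087 (k2 c13999 c13937 (k1 c4469 k0))))) (by decide +kernel)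
def c14191 : PP 8 4 T 0x1001000000000000000000000000004000000084000021001040005000810 := rS 0x186c54bc45a27514198282d4aa64661c0007c06c1 (k8 c1853 c303 c270 c4461 c567 c2958 c1032 c763 (k8 c2920 c14190 c646 c647 c2570 c454 c4334 c2745 (k2 c1056 c4958 (k1 c14007 k0)))) (by decide +kernel)
def c14192 : PP 8 4 T 0x400000000001000000010000000001400040004001544004400001000940000140800 := rS 0x1d07e65 (k4 c7854 c398 c13937 c11468 k0) (by decide +kernel)
def c14193 : PP 8 4 T 0x1001000000000000000000000000004000000014000021001040005000900 := rS 0x88688510e538999610634d9ad569816b145c9d4585c42330f1b4ce13021a4ee5a (k8 c4476 c6033 c13396 c14191 c12274 c655 c695 c575 (k8 c6119 c311 c2552 c13945 c968 c1104 c3110 c2359 (k8 c1103 c14076 c6097 c1849 c12307 c8238 c7854 c4443 (k4 c3938 c4440 c14192 c454 (k2 c14154 c4742 k0))))) (by decide +kernel)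
def c14194 : PP 8 4 T 0x1000000000011000014001554000000000000000400000005000000480800 := rS 0x30da23a (k4 c571 c1759 c1048 c13950 k0) (by decide +kernel)
def c14195 : PP 8 4 T 0x1400000001001000020011000014001444100000000040084000141005800000140802 := rS 0x144273314ac625b241ed2381be1a904fa8c50ae5ab0d73161d97d626531a652a5d0e1d47e7f399f60855 (k8 c306 c4464 c4409 c4408 c4313 c398 c11468 c567 (k8 c2721 c763 c1032 c755 c2539 c2605 c577 c1762 (k8 c4471 c4361 c4362 c4419 c2127 c7662 c2762 c3695 (k8 c14138 c4328 c1075 c889 c12744 c305 c586 c4375 (k4 c11768 c5936 c461 c460 (k2 c5541 c4396 k0)))))) (by decide +kernel)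
def c14196 : PP 8 4 T 0x1001000000000000000000000100000000000014000041001040000100002 := rS 0x3b8bb09a21356a5ca6671fc55829d3c91536691985d2a9316aac5d1336316301a20064f6094c870145a (k8 c4476 c14135 c567 c1032 c13906 c703 c308 c14185 (k8 c14193 c4149 c4370 c686 c4342 c687 c1845 c2920 (k8 c1030 c763 c170 c951 c757 c5870 c174 c599 (k8 c969 c1853 c14037 c398 c4555 c414 c11783 c944 (k4 c14194 c14195 c13950 c4362 (k2 c1048 c4471 k0)))))) (by decide +kernel)
def c14197 : PP 8 4 T 0x1001000000000000000000000100000000000014000041001040000000010 := rS 0x25e22c23a8a0cc1462c612a990e0003e032d30434400c9ec1409 (k8 c13906 c14135 c703 c308 c14185 c14193 c1853 c4476 (k8 c303 c270 c4461 c567 c1032 c763 c4149 c4370 (k8 c14196 c646 c647 c2570 c14007 c4334 c2745 c4958 k0))) (by decide +kernel)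
def c14198 : PP 8 4 T 0x1001000000000000000000000100000000000014000041001040000000000 := rS 0x34878086b84868127b0c828b440 (k8 c14185 c4476 c14135 c308 c703 c13906 c14193 c4316 (k4 c2559 c14197 c575 c7139 (k1 c7115 k0))) (by decide +kernel)
def c14199 : PP 8 4 T 0x10410054055100001555500000000000000000080800 := rS 0x220aa8babc7474 (k4 c570 c571 c14159 c4417 (k2 c2120 c4487 (k1 c4415 k0))) (by decide +kernel)
def c14200 : PP 8 4 T 0x402000000001000000010000010411414040005401515504000025000140000100800 := rS 0x19882a2aa59f0ca1bf590cb4fa8ca54b880e985173e9ccff043a84d12672aacd82174ba050a87 (k8 c4440 c4321 c4439 c11783 c572 c1853 c663 c306 (k8 c4555 c7030 c14199 c11468 c4464 c4313 c4408 c4409 (k8 c13242 c2123 c4471 c4487 c4459 c1048 c4337 c4414 (k8 c3925 c2118 c4305 c4422 c7308 c1792 c7105 c13089 (k2 c12981 c4495 (k1 c2064 k0)))))) (by decide +kernel)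
def c14201 : PP 8 4 T 0x400000000000000002000001000000000000000000000001100001400000445400002000005415000 := rS 0xc62634cd283 (k4 c4306 c1878 c8510 c2108 (k2 c4473 c412 k0)) (by decide +kernel)
def c14202 : PP 8 4 T 0x1000000000000000000000000000000001100000000000080000000000002000000110 := rS 0x10d (k2 c4381 c5022 k0) (by decide +kernel)
def c14203 : PP 8 4 T 0x1001000001000000000000000010080000000000541000000000005405000 := rS 0x63129a68323d0d0b08 (k8 c4465 c4321 c4392 c1311 c676 c6153 c9787 c4473 (k1 c1454 k0)) (by decide +kernel)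
def c14204 : PP 8 4 T 0x1001000005100000000000000050400000401400541000002000005415000 := rS 0x4725d0d947d7e1b4668142a1e107f (k8 c14203 c4465 c4440 c4321 c4439 c173 c5889 c14164 (k4 c4379 c2124 c4425 c1860 (k2 c1588 c14201 k0))) (by decide +kernel)
def c14205 : PP 8 4 T 0x1100100001001000010105011154000000000000400401400441020002000001415000 := rS 0x1786e5bb2ce2fd411fd9ecda5145767945a1e101b0f8bd1313 (k8 c4441 c5289 c61 c1104 c7896 c4465 c4440 c14044 (k8 c3819 c3820 c1916 c4491 c4460 c4430 c14203 c14204 (k4 c4306 c588 c8863 c5279 (k2 c4480 c8642 (k1 c1079 k0))))) (by decide +kernel)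
def c14206 : PP 8 4 T 0x1001000005100001000004055150440000401400441044102104025415000 := rS 0x8e5ba8c6e462612e86ca3ebf0da3340a150f08 (k8 c4465 c4440 c4321 c4439 c173 c5889 c14164 c4379 (k8 c2124 c4425 c3823 c2108 c14201 c324 c1314 c1587 (k2 c12297 c761 k0))) (by decide +kernel)
def c14207 : PP 8 4 T 0x1000100001001000011105011100004055110040000400400441060002104001415000 := rS 0x2f0dcb7659c5fa825d9e47e394c070ee0945a1e101b0f8bcc2cf (k8 c7875 c13428 c61 c1104 c7896 c4465 c4440 c14044 (k8 c13906 c6033 c1913 c1912 c3154 c3193 c3819 c3820 (k8 c14206 c4306 c588 c8863 c5279 c4480 c8642 c1079 k0))) (by decide +kernel)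
def c14208 : PP 8 4 T 0x1001000000000000000000000100000000000014000041000040000000000 := rS 0x18c4a69a0c8f433f334a0aa4f93c4a0f5aa24a6c38b2e55f1106b24506624c142811509850a91459b4ef084b99562050d9ac2e3f169752695138018a634e87d4e794c070d2ad4db444233898bc60c12017cb4098a9ec320a (k8 c14135 c308 c703 c14037 c13906 c4476 c577 c14185 (k8 c1853 c14198 c61 c4441 c173 c316 c300 c1966 (k8 c2047 c1878 c1913 c1912 c3819 c3909 c1104 c1052 (k8 c12307 c1056 c758 c2877 c763 c1030 c2721 c2920 (k8 c3193 c572 c580 c7896 c575 c2605 c2539 c11783 (k8 c4465 c6033 c5889 c14044 c14158 c4321 c13428 c12260 (k8 c606 c14200 c4308 c11517 c646 c647 c2609 c14163 (k8 c4334 c984 c6781 c4487 c13033 c4179 c5289 c4419 (k8 c12299 c14202 c298 c1571 c14205 c1572 c3825 c14207 (k4 c4392 c1311 c676 c6153 (k2 c9787 c4473 (k1 c1453 k0)))))))))))) (by decide +kernel)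
def c14209 : PP 8 4 T 0x100001001000010001000400000000044005400000020000020000140240440105 := rS 0x29a2187163999526c5 (k8 c1056 c11351 c7854 c1109 c6198 c4362 c9460 c2034 (k1 c4742 k0)) (by decide +kernel)
def c14210 : PP 8 4 T 0x1001000000001000400000000004004100000024000020001040244640125 := rS 0x112c34a992222c62b460a971f9dd16ab4c9e4d633 (k8 c430 c6097 c540 c6171 c14076 c13945 c7135 c2367 (k8 c1195 c4308 c454 c1056 c14209 c4332 c391 c855 (k2 c4958 c13996 (k1 c7254 k0)))) (by decide +kernel)
def c14211 : PP 8 4 T 0x200001001000000000000000000000044000001514000100000005150000000000 := rS 0x220ac (k2 c5842 c4468 (k1 c4338 k0)) (by decide +kernel)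
def c14212 : PP 8 4 T 0x1001000000000000000000000004000001140001000000001040204540024 := rS 0x3455a941d0a0a26582224c62d45aacd633 (k8 c430 c6097 c14076 c13945 c390 c12253 c7030 c4464 (k8 c7854 c13156 c14211 c835 c834 c2829 c3697 c8058 k0)) (by decide +kernel)
def c14213 : PP 8 4 T 0x1001000000000000400000000004004000000024000021001040244640125 := rS 0x304ea3f (k4 c2367 c11468 c1853 c14210 k0) (by decide +kernel)
def c14214 : PP 8 4 T 0x1001000010015000400001440000000000000000000001005540040240120 := rS 0x128ad32a4d5699 (k4 c6171 c14076 c11351 c7854 (k2 c4554 c13950 (k1 c7133 k0))) (by decide +kernel)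
def c14215 : PP 8 4 T 0x1001000000000000400000000000004000040025000041000040245440125 := rS 0x4499058c162a6d871817905a2143c9ad5687458ce106936a752e453b8c4ea3f (k8 c2367 c11468 c316 c7135 c2408 c1195 c1234 c4993 (k8 c13396 c4465 c430 c13945 c4440 c14076 c6097 c540 (k8 c14212 c454 c14213 c837 c4472 c9009 c13624 c4370 (k4 c4450 c14214 c391 c13996 (k1 c7254 k0))))) (by decide +kernel)
def c14216 : PP 8 4 T 0x2000000000000020000000000000000000800 := rS 0xbcb0 (k2 c1155 c1156 (k1 c2508 k0)) (by decide +kernel)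
def c14217 : PP 8 4 T 0x40000000000001401000000000000000404011500000000104505540100420000000000000000000000 := rS 0x199455e3f10a71369bd8b18 (k8 c4482 c4370 c1107 c4993 c536 c10110 c13430 c6225 (k2 c8243 c7649 (k1 c2068 k0))) (by decide +kernel)
def c14218 : PP 8 4 T 0x1400000000001000000004001500010001124004540100020000000000151208201020 := rS 0x5109ccc632948e8e86978463565a049283139f422395dae60a6f51ab45e9b8c424f29f8852da0c9 (k8 c2617 c679 c4457 c4468 c4414 c2504 c4316 c4482 (k8 c4448 c836 c4554 c9384 c1107 c4308 c4548 c4449 (k8 c2322 c7962 c8975 c350 c638 c366 c2045 c2024 (k8 c11359 c833 c14217 c4382 c4486 c6900 c1429 c2110 (k4 c461 c460 c5541 c4396 k0))))) (by decide +kernel)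
def c14219 : PP 8 4 T 0x1000000001001000000000000000000000100004000000020000001001140008200804 := rS 0x11d8e491388c6c101aac076d04421cd23245c4ca69f55c416ac3508a62c9539ab4caa3498241a010e8940e9d4bacc7275098fd8ac117a6e31093b87cb6043c8812305 (k8 c4308 c14216 c535 c2504 c534 c93 c271 c7135 (k8 c4316 c4482 c4448 c836 c4450 c4370 c2367 c2496 (k8 c11468 c2322 c663 c1195 c1234 c83 c7033 c1025 (k8 c486 c2495 c13906 c11351 c9384 c7854 c4554 c1109 (k8 c7133 c6198 c834 c4551 c4362 c4419 c4468 c4415 (k8 c4414 c14045 c4553 c719 c4469 c822 c7128 c9460 (k8 c679 c1762 c14218 c1033 c622 c623 c7007 c4538 (k4 c4209 c2428 c1412 c2110 k0)))))))) (by decide +kernel)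
def c14220 : PP 8 4 T 0x40000000000001800100000000000000510000500400000100400100520424000000000000000000000 := rS 0x66d159f4342204bab67e1fcda61529f4deb5 (k8 c13541 c1107 c8975 c4444 c617 c4993 c554 c13430 (k8 c9061 c4377 c4380 c14102 c4424 c1796 c9368 c1481 (k1 c4495 k0))) (by decide +kernel)
def c14221 : PP 8 4 T 0x40000000000021000000000001000010000000500000009100400100520024801000000001208201020 := rS 0x50d46b7633399b452727da48e86978463565b249a273e844de39628bd4e9b39ad60a3354c4a126d (k8 c4993 c4316 c4479 c4345 c2385 c4308 c13541 c1649 (k8 c4448 c13601 c836 c4370 c2322 c1107 c7962 c8975 (k8 c350 c374 c630 c2022 c11359 c833 c14220 c4382 (k8 c4486 c4467 c1427 c8064 c4396 c1480 c421 c420 (k4 c7551 c1523 c4391 c7994 k0))))) (by decide +kernel)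
def c14222 : PP 8 4 T 0x1000000000000000000000000201500000000000000000020800010001401008000804 := rS 0x259349e27118d82035008740e39102446604 (k8 c534 c2385 c14216 c535 c2322 c83 c1025 c486 (k8 c1033 c622 c623 c7007 c4538 c2390 c2276 c1414 (k1 c2111 k0))) (by decide +kernel)
def c14223 : PP 8 4 T 0x1100000000001000010000000400010000110004500120024001000001000008200800 := rS 0x50d46c6671393ed247434465e1ab2d924d13a4cfa1158a95531219904d6832952d1487019b4de0d1281c72c5608bd4e914dc6212795ac158716398fc4004 (k8 c534 c535 c2367 c1649 c7660 c4362 c4308 c13541 (k8 c2504 c4316 c4482 c4448 c14216 c13601 c836 c4450 (k8 c4370 c2322 c83 c7033 c2495 c1107 c4993 c303 (k8 c1653 c9460 c4427 c719 c2627 c2535 c2034 c2385 (k8 c4479 c4345 c4444 c14222 c7962 c8975 c14221 c350 (k8 c374 c630 c2022 c11359 c14220 c833 c4382 c4486 (k8 c4467 c1428 c8064 c421 c420 c1523 c4391 c4489 k0))))))) (by decide +kernel)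
def c14224 : PP 8 4 T 0x10008001500000000000000000000810000105405400000000 := rS 0x2792d9e47 (k4 c1587 c1796 c2037 c421 (k1 c2111 k0)) (by decide +kernel)
def c14225 : PP 8 4 T 0x1000000001001000000000000000000000100004000000024000001001040008200800 := rS 0x27a86a3633389cd247434bcb7118d5924d139f422b1209494aa94544956333430e2ca15aa24e6d124a54c9111641406b33685cde0d1281c7275098fd8ac117a9d229b8c424ee200f96c0879 (k8 c2504 c534 c93 c271 c535 c7135 c4316 c4482 (k8 c4448 c14216 c13601 c836 c4450 c4370 c2367 c2496 (k8 c11468 c2322 c83 c7033 c2495 c1107 c2497 c4993 (k8 c663 c303 c4308 c14219 c4332 c391 c855 c2330 (k8 c2424 c1649 c13996 c13541 c4551 c7660 c4362 c14223 (k8 c822 c14076 c9768 c7254 c4345 c4444 c719 c2034 (k8 c14222 c7962 c8975 c350 c374 c630 c11359 c833 (k8 c14224 c9061 c4382 c4486 c4467 c8064 c421 c420 (k4 c1523 c4391 c4489 c1427 k0))))))))) (by decide +kernel)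
def c14226 : PP 8 4 T 0x1000000011000400000000054005540000000400005000000000000000 := rS 0xe98517 (k4 c9460 c2123 c4471 c1048 k0) (by decide +kernel)
def c14227 : PP 8 4 T 0x1001000000000000000000000100000000000004000041000040000000000 := rS 0x89a562c331d9ada08a559cd5a6549c10a68931a1c5a1517b058a9b8c1e6121a3a9dc7e310fa5c26010219c40173696cb0b32a864067b0382a2a09 (k8 c13906 c14037 c14135 c83 c703 c303 c308 c306 (k8 c663 c14208 c93 c4993 c2497 c535 c2638 c534 (k8 c486 c2496 c1195 c271 c316 c2367 c7135 c11468 (k8 c14215 c4316 c2504 c4482 c4448 c4370 c4450 c836 (k8 c14225 c390 c7313 c12253 c678 c414 c4464 c11351 (k8 c7854 c4554 c1110 c9421 c14226 c13932 c564 c1762 (k4 c431 c4471 c4418 c7641 (k1 c9768 k0)))))))) (by decide +kernel)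
def c14228 : PP 8 4 T 0x1001000000000000000000000000000001404000500000002140005140002 := rS 0x2ad5f05a5150ca8b338bd0f1334a25a217 (k8 c1910 c300 c4742 c13396 c4441 c10041 c61 c4555 (k8 c5853 c7854 c2109 c4475 c4406 c4428 c13092 c13291 k0)) (by decide +kernel)
def c14229 : PP 8 4 T 0x1001000000000000000000000000000001404000400002002140005140002 := rS 0x3008050 (k4 c14228 c1685 c1684 c3821 k0) (by decide +kernel)
def c14230 : PP 8 4 T 0x100001001000000011000014001444000000400004000000000005000020140800 := rS 0x30d5e95390a4a899 (k8 c1032 c4464 c8448 c307 c762 c5815 c1087 c2127 k0) (by decide +kernel)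
def c14231 : PP 8 4 T 0x40000000000005000000000001000000400444100045101140050000050080000040000960020000112 := rS 0x5eaa446b867d0dfaa56412422a712a84c25f3189d365d (k8 c2721 c765 c2877 c2722 c577 c13428 c12260 c14202 (k8 c13601 c606 c1720 c2118 c1843 c4305 c4422 c1792 (k4 c11399 c9733 c7105 c1208 (k1 c7138 k0)))) (by decide +kernel)
def c14232 : PP 8 4 T 0x40000000000001000000000001000000400440000041100140050000000085000042000860000000900 := rS 0xf692e4de908b81cca971fa7c8eb10e19c2ab3000143e2d0184c76b7 (k8 c3671 c89 c571 c303 c7822 c274 c575 c4461 (k8 c2642 c327 c4555 c567 c2605 c8078 c11776 c145 (k8 c11783 c7854 c83 c4416 c14231 c1075 c1205 c12744 (k2 c305 c11808 k0)))) (by decide +kernel)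
def c14233 : PP 8 4 T 0x1001000000000040540080001001140050000000001000440005000020155000 := rS 0x14ca952b3c464b643489299 (k8 c1032 c4199 c4463 c2107 c4375 c4372 c1792 c5936 (k2 c6029 c7138 (k1 c909 k0))) (by decide +kernel)
def c14234 : PP 8 4 T 0x1001000000001000000000000100000000000014000040000040004400800 := rS 0xa752888c025083f41ac7079c57a911bc50f2bb51c617ecb172ba26d0a58a0aa893e9ccff0428c5c8e9362ab40e654b8fcee0934a2d36674ea655631368556663358b4263b298cc38000287c78032d21e1019 (k8 c308 c4465 c4440 c4476 c303 c14227 c274 c575 (k8 c4461 c567 c2958 c332 c89 c571 c7822 c2540 (k8 c2722 c2642 c327 c5889 c14229 c14076 c1032 c968 (k8 c4555 c765 c5853 c13396 c13906 c6033 c145 c11783 (k8 c7854 c83 c7821 c1783 c1654 c8078 c4416 c1684 (k8 c14230 c4313 c4408 c4409 c4314 c4406 c14211 c8107 (k8 c8058 c13357 c2120 c1761 c3681 c5760 c4488 c2762 (k8 c4449 c4447 c14232 c4386 c4352 c4354 c4387 c304 (k8 c330 c568 c8862 c14233 c278 c606 c607 c1843 (k2 c2742 c10661 k0)))))))))) (by decide +kernel)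
def c14235 : PP 8 4 T 0x1001000000000000000000000100000000000014000040000040004400800 := rS 0x898cb010f083dab40e6534a6cce9d558c4da155998cd62d098ec32531987000050f8f0065a (k8 c4476 c303 c14227 c274 c575 c4461 c567 c2958 (k8 c332 c308 c89 c571 c7822 c2540 c2722 c2642 (k8 c327 c5889 c14229 c14076 c968 c4555 c765 c13396 (k8 c7854 c83 c7821 c703 c4465 c4440 c14234 c4450 (k2 c1985 c8128 k0))))) (by decide +kernel)
def c14236 : PP 8 4 T 0x1001000000000000000000000100000000000014000040000040004000800 := rS 0x18305441515f1243c6480780b2ad32314e99cda154d98c66b30e1ac00052d14d26c55681c3e654b8b4063f3b824d28b098ec7819 (k8 c308 c14227 c89 c571 c5853 c13396 c13906 c6033 (k8 c145 c303 c7822 c11783 c7854 c274 c83 c7821 (k8 c1783 c1654 c332 c4476 c575 c4461 c2540 c567 (k8 c2642 c2958 c2722 c765 c327 c5889 c4555 c968 (k8 c14229 c1032 c14076 c14235 c572 c573 c4447 c3763 (k4 c4488 c4346 c13999 c2120 (k2 c4406 c3770 (k1 c14230 k0)))))))) (by decide +kernel)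
def c14237 : PP 8 4 T 0x1002000000000000000000000101154001101000000500420011002000155000000000 := rS 0xc65c88d1ca686a0cbafc239b4c281 (k8 c4439 c617 c4993 c8078 c13430 c4377 c4306 c9576 (k4 c2119 c4486 c773 c1475 (k2 c2110 c331 k0))) (by decide +kernel)
def c14238 : PP 8 4 T 0x1002000000000000000000000101154001101000100500020010002100151000201020 := rS 0x18cb9119c0bc49138448e6f (k8 c1107 c8078 c7962 c350 c366 c14237 c14101 c1295 (k2 c1474 c2110 (k1 c331 k0))) (by decide +kernel)
def c14239 : PP 8 4 T 0x1002000000000000000000000000054000101000100500020000002000840000200804 := rS 0x1258e27118d820355811c5a13068043a07488e408291daa54a2526a688020 (k8 c535 c837 c836 c3898 c313 c1843 c2831 c89 (k8 c835 c534 c2322 c14216 c83 c1025 c486 c2495 (k8 c571 c7822 c8078 c14238 c1033 c622 c623 c7007 (k4 c4538 c2284 c2273 c2110 k0)))) (by decide +kernel)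
def c14240 : PP 8 4 T 0x1002000000000000000000000000044000101000100500020000002000840000200804 := rS 0x4813ad91cb5a1c354117488a4403b (k8 c89 c535 c835 c14216 c4416 c14239 c4329 c4423 (k4 c1707 c4486 c4521 c2847 (k2 c1742 c11453 k0))) (by decide +kernel)
def c14241 : PP 8 4 T 0x12000000000001000000140000000040000010105404001000000420000151400210020 := rS 0x5f0d506d23ed0d404913a7e0abb (k8 c4390 c4308 c11776 c350 c366 c2110 c4423 c1625 (k4 c4212 c8144 c4373 c10474 (k1 c1053 k0))) (by decide +kernel)
def c14242 : PP 8 4 T 0x1001000000000000000000000110004000400020000002000840005200804 := rS 0x25d1504bf27b4c20c7118dd1f148ca68809f239dc12693798408753289452a3100b4263b4283503080b9e592b2 (k8 c327 c2614 c540 c2497 c4465 c4439 c2495 c6224 (k8 c89 c571 c7822 c535 c9384 c835 c313 c7854 (k8 c538 c534 c617 c1107 c13396 c13906 c6033 c8078 (k8 c11776 c837 c836 c4448 c14240 c4388 c4386 c832 (k8 c330 c14241 c4276 c446 c1054 c7055 c4452 c1854 (k1 c6927 k0)))))) (by decide +kernel)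
def c14243 : PP 8 4 T 0x1000000000000000000000004000020001100000000000000000000000000000000000 := rS 0x11f0d (k2 c4329 c851 (k1 c4486 k0)) (by decide +kernel)
def c14244 : PP 8 4 T 0x1002000000000000005000004055144400101000100500020010002000140000200800 := rS 0xfefd652c142a706a444a39020a4403b43c1592b2 (k8 c327 c2614 c4308 c4440 c89 c535 c835 c534 (k8 c2322 c313 c14216 c2495 c13601 c14243 c14238 c2128 (k2 c4304 c2655 (k1 c8863 k0)))) (by decide +kernel)
def c14245 : PP 8 4 T 0x1001000000000000000000000100000000000004000040000040004000800 := rS 0xbc82532fc9efd698418e235e8dd1ebb8a336324d67add804052aa4a1124d8bd12c968ac8f21435abd32ab43a050a332aa8c523112c20ea914e834086710184de1736960d27729914127b0cab40e1f32a7c5a03098ec8e3c (k8 c14227 c8078 c89 c571 c303 c7822 c11776 c7854 (k8 c274 c83 c7821 c308 c703 c13906 c13923 c332 (k8 c6033 c13396 c14236 c4993 c2497 c1107 c617 c535 (k8 c2638 c534 c2495 c1234 c14216 c538 c4465 c313 (k8 c316 c835 c9384 c12210 c430 c6224 c4439 c4440 (k8 c14076 c6171 c5815 c6097 c14212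 c540 c327 c454 (k8 c2614 c4742 c14242 c13624 c4469 c2112 c4345 c4444 (k8 c1685 c1684 c3672 c3615 c1997 c4450 c3771 c14244 (k8 c4390 c4388 c4386 c4354 c832 c330 c14241 c4276 (k4 c4300 c446 c1054 c7048 (k2 c7055 c4532 (k1 c548 k0)))))))))))) (by decide +kernel)
def c14246 : PP 8 4 T 0x40000000000000000000000000000000091040900000000021404404000000400002000000000004000 := rS 0x102bd38b3cfab85a8fe2ecb (k8 c2024 c4416 c145 c1432 c331 c1351 c1520 c667 (k2 c1208 c2045 (k1 c5956 k0))) (by decide +kernel)
def c14247 : PP 8 4 T 0x40000000000001800000000000000000011040900454000021404404500020401002000155000015001 := rS 0x205f85f698898e47 (k8 c8078 c14246 c2110 c8916 c1295 c12381 c4380 c14102 k0) (by decide +kernel)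
def c14248 : PP 8 4 T 0x40000000000001800000000001000000011040000400000120004400500000400002000140008210820 := rS 0xc7a1b38fc8450adc92835889d3e0f0691cde91128a476a310160ce012aa5c7eb2 (k8 c327 c145 c11783 c141 c2642 c13949 c5025 c535 (k8 c9384 c89 c835 c313 c14216 c1107 c8078 c651 (k8 c2280 c11776 c350 c622 c638 c366 c1163 c14243 (k4 c14247 c684 c685 c4392 (k2 c1520 c7091 k0))))) (by decide +kernel)
def c14249 : PP 8 4 T 0x1800000000001000020011040000000400100004400400000400002000040008200804 := rS 0x495089c46362fac0e2c77e8414e9f238e59204379843a91128a546202c19c02554b8fd642d09d2cd2885681c761f (k8 c274 c89 c83 c7821 c455 c2040 c4426 c571 (k8 c7822 c327 c145 c11783 c141 c2642 c13949 c5025 (k8 c535 c9384 c835 c313 c14216 c1025 c617 c1107 (k8 c4461 c2614 c2324 c8078 c11776 c13601 c14248 c4300 (k8 c2428 c2648 c7962 c14101 c623 c7007 c351 c11483 (k2 c2273 c2110 k0)))))) (by decide +kernel)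
def c14250 : PP 8 4 T 0x2000000000000000000040000040044000020105404000000000400000151408210020 := rS 0x339408424a0c4ebf5dc621271 (k8 c4387 c4316 c4482 c4449 c7782 c350 c638 c366 (k4 c7040 c2110 c685 c1794 k0)) (by decide +kernel)
def c14251 : PP 8 4 T 0x1001000000010000000000000100005001000000400002004040008200804 := rS 0x27099a61025a068ac711a9a1a3747c51104d682be246b5681d3e470b9bcc29d4889546bb55c40522f4d94583183b880b0672aa5c5a131d8fc621f020056509 (k8 c4316 c327 c2642 c4461 c274 c7896 c145 c89 (k8 c571 c7822 c11783 c141 c13949 c5025 c535 c7135 (k8 c4482 c4450 c1684 c4448 c836 c835 c4468 c4415 (k8 c4449 c9384 c313 c14216 c1234 c617 c1107 c170 (k8 c8078 c11776 c83 c7821 c6097 c9768 c5815 c2112 (k8 c2343 c455 c14249 c4388 c4386 c8237 c4539 c832 (k8 c330 c4453 c1897 c1856 c14250 c4276 c7312 c4474 (k1 c2415 k0)))))))) (by decide +kernel)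
def c14252 : PP 8 4 T 0x21400000000000000000084000900000001100405405100000000002000000000000000 := rS 0x10afc2faf4e2b5a18fe2eb7 (k8 c1163 c4416 c145 c4391 c1432 c667 c8143 c14101 (k2 c4480 c10110 (k1 c6225 k0))) (by decide +kernel)
def c14253 : PP 8 4 T 0x1000000000001000000000000010000000110005401100000400002009140008210820 := rS 0x20196a81a17e842263a856e4941ac44e9f0691d16915f9bc4aa35daae20291d8bd36202c19c02554b8fca2c18c44da2c3a52c90f09 (k8 c4316 c7128 c327 c7658 c4459 c455 c4340 c4482 (k8 c4450 c1684 c145 c11783 c141 c2642 c13949 c5025 (k8 c535 c4448 c836 c89 c835 c4468 c4415 c4449 (k8 c9384 c313 c1107 c7782 c14216 c719 c8078 c651 (k8 c11776 c350 c622 c638 c366 c1163 c14243 c14252 (k8 c2110 c7091 c1295 c833 c954 c4425 c7845 c1362 k0)))))) (by decide +kernel)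
def c14254 : PP 8 4 T 0x1000000000000000000000000000044000100000000000020000002000040000220804 := rS 0x1254227118d8beb0639c5fa471684c72c902005646f308740e91128a4403b (k8 c89 c535 c835 c313 c14216 c83 c1025 c617 (k8 c1107 c327 c2642 c4461 c2614 c2324 c571 c7822 (k8 c8078 c4300 c2648 c2284 c7962 c14101 c623 c7007 (k4 c351 c11483 c2273 c2110 k0)))) (by decide +kernel)
def c14255 : PP 8 4 T 0x20091040900000000060404404000000400002000000000004000 := rS 0x211994b (k4 c4457 c461 c14246 c1482 k0) (by decide +kernel)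
def c14256 : PP 8 4 T 0x1000000000001000000010000000000000100005401000000400002009040008200804 := rS 0xbd429c502342f97444d363a85a0b74412506b1138455a070fa7c1e0d23a2d22bf3789452a310160ce554b8fc5a131daed831884c4c9a6a020056469 (k8 c822 c327 c2642 c4461 c431 c2339 c4340 c4316 (k8 c4482 c4450 c4449 c89 c571 c7822 c145 c11783 (k8 c141 c13949 c5025 c535 c9384 c835 c313 c1107 (k8 c7782 c14216 c719 c8078 c651 c2280 c11776 c274 (k8 c83 c7821 c14254 c350 c622 c638 c366 c14253 (k8 c1163 c679 c14243 c14255 c8916 c2110 c12183 c1295 (k4 c833 c1923 c536 c10110 (k2 c1040 c2122 k0)))))))) (by decide +kernel)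
def c14257 : PP 8 4 T 0x140000100044000400005404000020000400008151408210020 := rS 0x2050a5d54a821aa724a0c4ebf5dc62126a (k8 c431 c4316 c4482 c4449 c7782 c350 c638 c366 (k8 c902 c4200 c2110 c7768 c811 c563 c1923 c6353 k0)) (by decide +kernel)
def c14258 : PP 8 4 T 0x40100100054000001005414801000000400000155408220000 := rS 0x106813f294910c5faee3109 (k8 c4316 c4482 c4449 c7782 c7312 c2110 c4385 c367 (k2 c1922 c2657 (k1 c2122 k0))) (by decide +kernel)
def c14259 : PP 8 4 T 0x100000000401005404000020000000008008008000024 := rS 0x20d4e81279761abf5dc62126a (k8 c431 c4316 c4482 c4449 c7782 c4324 c806 c2415 (k4 c1923 c903 c639 c6353 k0)) (by decide +kernel)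
def c14260 : PP 8 4 T 0x1001000000010000000000000100005000000000400002000040009200804 := rS 0x504304e850831c46715e8dd1eb18a1a89a32518a4ee2510184de5833810dac900ac8aa971fa7c5a131d91c621f (k8 c274 c7896 c8078 c89 c571 c7822 c11776 c145 (k8 c11783 c141 c327 c2642 c2614 c7462 c4461 c13949 (k8 c5025 c1107 c617 c535 c313 c7135 c835 c9384 (k8 c14251 c2339 c431 c14256 c4350 c4388 c4386 c4354 (k8 c4387 c832 c330 c14257 c711 c14259 c7312 c14258 (k1 c4329 k0)))))) (by decide +kernel)
def c14261 : PP 8 4 T 0x1000200000001000000040004100044001100000004014500000000000140020100000 := rS 0x38321faa13099cfe7d (k8 c4409 c4313 c4555 c13428 c12260 c8715 c2118 c4480 (k1 c587 k0)) (by decide +kernel)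
def c14262 : PP 8 4 T 0x1000200000001000000040004000040000100000004004100000002000140000100802 := rS 0x692e5200f03994263b4b8fd3e472fac43855 (k8 c4406 c567 c2605 c2538 c8078 c11776 c145 c11783 (k8 c89 c571 c7854 c83 c305 c14261 c1205 c12744 (k1 c11808 k0))) (by decide +kernel)
def c14263 : PP 8 4 T 0x21001000000000000000000400000001500100400408000104000000000000000000000 := rS 0x2a54e8f5ea1522fd (k8 c4378 c1075 c1500 c1079 c1345 c13601 c8675 c9059 k0) (by decide +kernel)
def c14264 : PP 8 4 T 0x40000000000020001000000000000020080000000000000000441400000000000002000000000004000 := rS 0x42bf4e2cb273317049 (k8 c147 c331 c461 c460 c1750 c1473 c8242 c1481 (k1 c6655 k0)) (by decide +kernel)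
def c14265 : PP 8 4 T 0x80040000000000000000000002000000120000000 := rS 0x12b11 (k2 c4337 c2728 (k1 c11368 k0)) (by decide +kernel)
def c14266 : PP 8 4 T 0x1000000000001000000080000100040040100000004054000000002000000000100800 := rS 0x3f4e30c309fd228f5b835707d5a95493431fc5c263b (k8 c89 c571 c4416 c145 c4391 c147 c2250 c1432 (k8 c1352 c331 c1448 c1742 c4521 c1205 c7517 c13428 (k4 c4486 c1473 c7315 c4480 k0))) (by decide +kernel)
def c14267 : PP 8 4 T 0x1000000000001000000000000000000000100000004004100000002000160000100802 := rS 0x1045bb1d461c10ac4ce971f994263b (k8 c89 c571 c7854 c145 c11783 c4555 c2605 c9668 (k4 c567 c14265 c14266 c3671 (k2 c8448 c14262 k0))) (by decide +kernel)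
def c14268 : PP 8 4 T 0x1000000001001000000011000010001400100000004004100000002000140008100802 := rS 0x9ecb69af090b95b410aa73612bd2a2963934721107a4c0e65098ed666744ac532310faac5ca30e0852e3f (k8 c145 c11783 c9668 c567 c14265 c687 c1845 c274 (k8 c7896 c1032 c2605 c678 c4555 c662 c89 c571 (k8 c7854 c83 c1654 c305 c10884 c358 c374 c14266 (k8 c14267 c762 c788 c2127 c7478 c307 c4464 c14262 (k4 c165 c1742 c1167 c11808 (k2 c2029 c453 (k1 c7460 k0))))))) (by decide +kernel)
def c14269 : PP 8 4 T 0x1000000001001000000000000000000000100000000000004000040000040000000810 := rS 0x2a14e8f42af522fd370b426ad038ee12153db14a683319757f133626cd2194e9e48a0960c6132310f8f0341c0000cb459 (k8 c534 c4476 c303 c4461 c567 c14245 c14227 c274 (k8 c7896 c1032 c4149 c4450 c13906 c13923 c599 c969 (k8 c308 c757 c5870 c686 c4342 c5760 c2721 c2722 (k8 c2620 c332 c1783 c703 c14260 c4316 c89 c83 (k8 c7821 c571 c7822 c14268 c4378 c1075 c1080 c1499 (k4 c1345 c13601 c9059 c8675 k0)))))) (by decide +kernel)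
def c14270 : PP 8 4 T 0x22001000000000000000000000000001500101405406000100000000000800000010800 := rS 0x4b523486aa97ea9d7f135daf41a71 (k8 c4387 c568 c4354 c4449 c4342 c5760 c905 c6225 (k4 c8675 c8124 c10457 c10851 (k2 c4375 c1842 k0))) (by decide +kernel)
def c14271 : PP 8 4 T 0x200001001000000040000000000000002400000000000501400000000000155000 := rS 0x52da28a67d0d907d2ad159a7f (k8 c4313 c1481 c4397 c4406 c4409 c2107 c4422 c1793 (k4 c716 c5846 c4427 c4475 k0)) (by decide +kernel)
def c14272 : PP 8 4 T 0x22001200001001000000040000000001500100405406100100500400000820000150802 := rS 0x54c35f8a024295085f58c4d7a0f1b834e255 (k8 c4406 c4387 c568 c4386 c304 c4354 c4342 c2605 (k8 c2538 c14270 c1401 c14271 c1720 c4199 c4329 c7768 (k1 c10776 k0))) (by decide +kernel)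
def c14273 : PP 8 4 T 0x140000001101500404002000000000000000800000020012 := rS 0xa952a14c025 (k4 c278 c606 c2691 c1843 (k2 c977 c8005 k0)) (by decide +kernel)
def c14274 : PP 8 4 T 0x22001000001001000000050000014045444100405406154100510400005800000150802 := rS 0x653f15e4825d1452553e9fd09042fa6438c1078dc1a71 (k8 c4387 c568 c4386 c304 c4450 c567 c1032 c2538 (k8 c14230 c14270 c4313 c4409 c4406 c14272 c4397 c1319 (k4 c14271 c788 c4199 c4599 (k1 c7087 k0)))) (by decide +kernel)
def c14275 : PP 8 4 T 0x2001000001000000000200440000401500101400000000100000000005000000054000 := rS 0xa425aa5a4fd (k4 c4305 c10573 c8675 c4375 (k2 c10851 c5936 k0)) (by decide +kernel)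
def c14276 : PP 8 4 T 0x2001000001000000000040040000001500101450802100101000400005860000155000 := rS 0x54a954025243254ebf89a3d22bd (k8 c4354 c4352 c4388 c4342 c5760 c905 c14275 c2107 (k4 c282 c1720 c1843 c7768 (k1 c10356 k0))) (by decide +kernel)
def c14277 : PP 8 4 T 0x2001000001001000000000040400045500100400802154500510002005860000155000 := rS 0x15efc651209745421f4ff042a9ce2e47559c58e37 (k8 c4386 c330 c4387 c1845 c8078 c4416 c3558 c1598 (k8 c8448 c10049 c7516 c14276 c4397 c1319 c14271 c4599 (k2 c4199 c8140 (k1 c7087 k0)))) (by decide +kernel)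
def c14278 : PP 8 4 T 0x2200000000001000000140000400000050100040004054401000400000054000155000 := rS 0x3f1422569921227d (k8 c7516 c4352 c2107 c11768 c282 c11453 c4199 c12884 k0) (by decide +kernel)
def c14279 : PP 8 4 T 0x22001000001001000000010000010001400110405006104100410002005944000110802 := rS 0xa642b20fe55659cd84af8825452768ba4cca131da7c8eb33397d32ab5fc4d765160a8c38214b8fd7a0f638dc1a71 (k8 c4387 c568 c4386 c330 c304 c4354 c145 c11783 (k8 c9668 c567 c14265 c4450 c1684 c4449 c4342 c5760 (k8 c1845 c1032 c2538 c4555 c662 c8078 c11776 c89 (k8 c571 c7854 c1654 c4416 c14274 c14277 c762 c4468 (k8 c788 c2127 c7478 c2028 c307 c10049 c14278 c717 (k2 c14275 c905 k0)))))) (by decide +kernel)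
def c14280 : PP 8 4 T 0x1001000000000000000000000100000000000004000040000040000000810 := rS 0x5212d4ea969215fa6e268441ebd488dd1f145dafe31134c9744e634e8cd3683360b8d21c2d000b22d09ab40e3b0bc2462890a9e48a1f04864067b6294c781a (k8 c14245 c14227 c332 c1783 c703 c303 c308 c13906 (k8 c274 c13923 c599 c14260 c678 c7896 c4316 c170 (k8 c89 c83 c7821 c571 c7822 c534 c4461 c4476 (k8 c567 c757 c687 c686 c2620 c5870 c951 c969 (k8 c2722 c2877 c2721 c1032 c4342 c4149 c5760 c4449 (k8 c14269 c4388 c4386 c4352 c4354 c304 c14273 c374 (k8 c14279 c4378 c1499 c10992 c8675 c905 c4375 c10851 (k1 c5936 k0)))))))) (by decide +kernel)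
def c14281 : PP 8 4 T 0x1000001001000000040000000440000100400000055001500400005400210155020 := rS 0x1f8856413892d23e9fe0825 (k8 c313 c4464 c4313 c7516 c12279 c4281 c13552 c11768 (k2 c14271 c6655 (k1 c4305 k0))) (by decide +kernel)
def c14282 : PP 8 4 T 0x21000000001001000020000000000040000100401400050020400002005000008100824 := rS 0x4b2689c46362f93d60710831c8f090083cc67f82154263b379841a1d0389472bb28b054e9154a96246d17a6c414b (k8 c4426 c535 c4448 c836 c695 c9768 c4444 c4345 (k8 c14216 c13601 c4450 c1684 c4449 c2322 c313 c83 (k8 c1025 c2495 c617 c1107 c89 c571 c12210 c4464 (k8 c4313 c12253 c12199 c54 c4316 c8078 c14264 c14281 (k8 c2498 c7962 c447 c14101 c623 c7007 c351 c2276 (k2 c1413 c2111 k0)))))) (by decide +kernel)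
def c14283 : PP 8 4 T 0x1000000001001000000000000000000000104005000000020400002004040008100824 := rS 0x121970c4508c4ec7269a49c5f258410b454134152af892b40e9f2385cce893698cc22951aae085559a5c7e75328b4263b1794582a748a6e3077100c43f09 (k8 c4316 c274 c7896 c535 c7135 c4482 c4448 c14216 (k8 c13601 c4450 c1684 c836 c89 c571 c7822 c7854 (k8 c538 c145 c11783 c662 c12210 c4464 c9421 c9384 (k8 c835 c617 c12253 c695 c678 c4555 c170 c8078 (k8 c11776 c83 c7821 c9768 c5815 c4345 c2112 c14282 (k8 c4452 c185 c638 c1854 c2513 c639 c2000 c375 (k8 c2428 c351 c1489 c12356 c7312 c1753 c4200 c4599 k0))))))) (by decide +kernel)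
def c14284 : PP 8 4 T 0x1000000000000000080040000000044001100000000000000000002000151000000000 := rS 0x2dd4049 (k4 c4281 c8916 c1742 c14243 k0) (by decide +kernel)
def c14285 : PP 8 4 T 0x21001000000001000020008000000000000100401400800020000002000040000100824 := rS 0x498609d6e231b17d7ab038a15fa1069b1cca9f338041e633e91cff042a9bcc20d0e81d22251c8a546201684c774b (k8 c4459 c89 c571 c7822 c535 c9384 c835 c2322 (k8 c313 c14216 c83 c1025 c2495 c617 c1107 c12210 (k8 c4464 c4313 c8078 c7516 c12253 c12199 c54 c4555 (k8 c11776 c7854 c14264 c14284 c12279 c4300 c2532 c2498 (k8 c7962 c4507 c14101 c623 c7007 c1167 c351 c7312 (k2 c323 c4200 k0)))))) (by decide +kernel)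
def c14286 : PP 8 4 T 0x1000000001001000000010000000000000104005000000020400002000040008100824 := rS 0x24c306cb71388d60c76697c96104134296c2459a8649f2385d668939954de613a9947229518b4263b28b063077100c43f09 (k8 c4316 c274 c7896 c535 c7135 c4482 c4450 c1684 (k8 c89 c571 c7822 c9384 c835 c2322 c7854 c538 (k8 c617 c1107 c12210 c1614 c678 c662 c170 c8078 (k8 c11776 c14283 c431 c564 c14041 c4459 c4475 c14285 (k8 c638 c1854 c2513 c2064 c2428 c7962 c955 c351 (k4 c1168 c623 c7312 c323 (k1 c4200 k0))))))) (by decide +kernel)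
def c14287 : PP 8 4 T 0x2000000001001000000040000414001001100415144005001500000004150258145020 := rS 0x2633c20b869b24ba846829a1aa554abd33123299cda7f822fc4aa317a6e307718c2562b738ad4468f (k8 c4388 c832 c4389 c4387 c4353 c4350 c4316 c7896 (k8 c7135 c4482 c4448 c836 c9384 c313 c7782 c4464 (k8 c4313 c695 c4555 c7854 c9768 c6171 c5815 c6029 (k8 c4444 c8237 c4539 c2112 c7469 c813 c7308 c11768 (k4 c2121 c12279 c1525 c711 (k1 c381 k0)))))) (by decide +kernel)
def c14288 : PP 8 4 T 0x1000001000000040000000000000100000000005001000400000150610155020 := rS 0x1721aa064125a42732a7cce7d3fc104aa3 (k8 c9384 c313 c4464 c4313 c7516 c4555 c11776 c7854 (k8 c350 c12279 c4199 c11768 c8916 c4200 c7308 c810 k0)) (by decide +kernel)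
def c14289 : PP 8 4 T 0x2000000001001000000050000414000001104405040000021500400000150258145024 := rS 0x431482740215a6107eb2e96c2459a864633e9fe08614e9d4cabf3789577183b8c612b15e9c4468f (k8 c4388 c832 c4387 c4354 c4350 c4316 c7896 c7135 (k8 c4482 c4449 c313 c1107 c7782 c7854 c538 c1234 (k8 c617 c4464 c4313 c7516 c12253 c14287 c431 c564 (k8 c14041 c4459 c2028 c8253 c14288 c4276 c2532 c7040 (k4 c14259 c1922 c4467 c4385 k0))))) (by decide +kernel)
def c14290 : PP 8 4 T 0x1001000000000000000000000100000000000004000040000040000000800 := rS 0x22d9f4335120650c8989c9ad32fa1502826388ce23747ac6285117aad829b5dc6146293b894ea910e834406f2c1f608873996c1e550222566153c8c612170d27d2e65568b42619019ec0e3b1f91ca6c52287c7809 (k8 c13906 c14227 c274 c13923 c1783 c332 c8078 c145 (k8 c89 c83 c703 c303 c308 c571 c7822 c7821 (k8 c7854 c11783 c11776 c14245 c170 c4316 c7896 c599 (k8 c14260 c662 c678 c14280 c12210 c12199 c575 c1614 (k8 c7313 c4464 c7516 c4476 c1107 c535 c2495 c1025 (k8 c14216 c538 c313 c7135 c835 c9384 c4482 c4449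 (k8 c4448 c4450 c9421 c836 c1684 c14286 c4350 c4388 (k8 c4386 c4387 c832 c330 c14289 c127 c185 c2513 (k8 c6833 c375 c351 c9296 c4467 c4469 c4200 c431 (k4 c4421 c1791 c564 c9666 k0)))))))))) (by decide +kernel)
def c14291 : PP 8 4 T 0x1020000000001000000000020000040000100010000054421000000000000000141000 := rS 0x162fd599fe0861 (k4 c617 c4464 c7517 c4312 (k2 c7315 c1203 (k1 c13430 k0))) (by decide +kernel)
def c14292 : PP 8 4 T 0x1000000000000000000080004000000000000000004000002000000000000000000100 := rS 0x2c0fc0e (k4 c250 c251 c10635 c675 k0) (by decide +kernel)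
def c14293 : PP 8 4 T 0x1000000000001000000080000000040001100000000050020000002000010000100100 := rS 0xc6552fc30e28f5b835707d5a926863f8b9bc2675 (k8 c538 c1678 c1107 c4416 c145 c4391 c147 c1432 (k8 c1352 c331 c1448 c1742 c4521 c1474 c4486 c14101 (k2 c14292 c11648 (k1 c14291 k0)))) (by decide +kernel)
def c14294 : PP 8 4 T 0x200001000000000000000010000000044000001114000100000005410000000000 := rS 0xd512 (k2 c4469 c5842 (k1 c4442 k0)) (by decide +kernel)
def c14295 : PP 8 4 T 0x1000040040000000040000000000000001001000400000155000101008 := rS 0x1201d0c11a7ccb10 (k8 c4468 c4412 c11776 c793 c4467 c12512 c4200 c242 k0) (by decide +kernel)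
def c14296 : PP 8 4 T 0x1000000000001000040040000000000000100000050004421000002000154200100008 := rS 0xd1f8375883c18b33fc108e6737984021f12a8c267532c407211 (k8 c342 c360 c4468 c4412 c538 c1678 c9384 c313 (k8 c274 c487 c617 c1107 c4555 c8078 c4464 c12366 (k8 c4312 c14295 c32 c4865 c1407 c12381 c4470 c11356 k0))) (by decide +kernel)
def c14297 : PP 8 4 T 0x1000001000000000040040000800044000100000000000420000400100155000010001 := rS 0x90b7861fc4636072c0de61 (k8 c617 c1107 c13430 c12381 c8612 c1328 c1455 c11620 (k2 c1164 c4200 (k1 c323 k0))) (by decide +kernel)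
def c14298 : PP 8 4 T 0x11000000000001000040040000000401400100005450004420000002000154010100088 := rS 0x5f44d7637862dc90233ea0d625d7e2ca0a548b99d3e47308045e25519d4cb101c8803e11409bd0b08 (k8 c4482 c4321 c1107 c7000 c342 c274 c4466 c360 (k8 c4468 c4412 c538 c9384 c313 c8877 c487 c617 (k8 c8078 c11776 c4555 c4416 c14296 c4406 c4481 c14297 (k8 c4377 c4304 c4306 c4379 c792 c9172 c1163 c4467 (k4 c323 c4945 c12516 c9081 (k1 c5760 k0)))))) (by decide +kernel)
def c14299 : PP 8 4 T 0x11000000000001000040040000000401400100005450000420000002000154010100088 := rS 0x17e3789921770c5b88d06b12ebf165053121503088ba7c8e6f308045e25519d4cb101c8803e11 (k8 c342 c274 c4466 c360 c4468 c4412 c538 c9384 (k8 c313 c8877 c487 c617 c1107 c8078 c11776 c4416 (k8 c4482 c7000 c4321 c14298 c4407 c4481 c14297 c4377 (k8 c4304 c4306 c792 c1163 c4467 c4945 c4200 c12516 (k2 c323 c5760 (k1 c9081 k0)))))) (by decide +kernel)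
def c14300 : PP 8 4 T 0x1000000000001000040040000000000000100000050000421000002000154200100008 := rS 0x63 (k2 c11648 c14296 k0) (by decide +kernel)
def c14301 : PP 8 4 T 0x22000000000000040000440100400000000505404001500000000140400410000080 := rS 0x22685 (k2 c4321 c12516 (k1 c9081 k0)) (by decide +kernel)
def c14302 : PP 8 4 T 0x1000000001001000040040000000401400100005050000420000002000154015100088 := rS 0xbd429342d0927afd7718379845e7718a0506341b92218232eadd62fc08a8c4a014f91d65052a45cea65880e4401f (k8 c274 c4466 c360 c4468 c4412 c538 c4416 c14300 (k8 c4406 c4481 c8078 c11776 c487 c313 c9384 c342 (k8 c14297 c4304 c1163 c4377 c792 c4467 c4200 c323 (k8 c4470 c4306 c4380 c11577 c13967 c8877 c617 c1107 (k8 c14299 c4449 c4369 c1491 c14301 c4465 c1990 c523 (k2 c1040 c6225 k0)))))) (by decide +kernel)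
def c14303 : PP 8 4 T 0x1000000001001000040040000000401400100001050000420000102000154015100088 := rS 0x5e127a (k4 c14302 c4320 c521 c4465 k0) (by decide +kernel)
def c14304 : PP 8 4 T 0x1000000001001000000000000000000000100000000000004000040000040004000010 := rS 0x17ea94caf630333590612181a23c6eb5a19214b0c5b88d625d7e2ca0a54088e4be2738b4d8e75539dcca9b518c44b10178813a29012443b17229ccf206338553e2d1d8fd264736804b05b058243e3c (k8 c14227 c274 c13906 c14290 c12637 c4476 c487 c4993 (k8 c8078 c1654 c145 c89 c7859 c11776 c326 c4555 (k8 c4462 c501 c1615 c13923 c4416 c10867 c12700 c4461 (k8 c7860 c4731 c4466 c8877 c4468 c313 c11577 c9384 (k8 c13624 c4412 c13967 c13601 c538 c14293 c14284 c11634 (k8 c12391 c10439 c360 c342 c14300 c4406 c4481 c14297 (k8 c4377 c4304 c792 c1163 c4467 c4385 c4200 c4421 (k8 c1703 c323 c4521 c4470 c14303 c4436 c1872 c1918 (k4 c255 c4472 c1039 c8246 (k2 c6029 c4369 (k1 c7959 k0))))))))))) (by decide +kernel)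
def c14305 : PP 8 4 T 0x10000000000010000000000000000400111000000400000200000020001400001000a0 := rS 0xb75aa3c681069895fab02fa8476934f870e20f0f98c067d238a4ca7f63ae5670409954ce754b8fcc26f (k8 c1107 c617 c145 c11783 c2484 c4555 c266 c1678 (k8 c4464 c4312 c14038 c331 c4313 c7854 c1680 c8078 (k8 c7516 c55 c12253 c274 c14107 c2483 c527 c11776 (k8 c1654 c89 c12260 c14101 c14126 c11451 c11222 c14284 (k4 c10281 c609 c7008 c7883 (k2 c1037 c7468 k0)))))) (by decide +kernel)
def c14306 : PP 8 4 T 0x1000000001001000000000000000000000100000000000004000040000040004000000 := rS 0x1a61164979605d86a418eb9599fe086509a8d2a0f3a9543821018100c73338552e2d1da4c7e6f30804b05b058243e3c (k8 c14227 c274 c13906 c14290 c12637 c4476 c487 c617 (k8 c1107 c145 c1654 c89 c7859 c11783 c326 c4555 (k8 c1615 c4462 c14304 c55 c310 c527 c266 c2484 (k8 c14107 c11432 c14265 c1678 c7854 c4464 c4313 c4312 (k8 c14038 c331 c14305 c4328 c808 c1155 c1156 c7308 (k2 c2507 c11768 (k1 c10281 k0))))))) (by decide +kernel)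
def c14307 : PP 8 4 T 0x800000000001000000000000000000000044000001114001400000000140000100000 := rS 0x6b (k2 c4442 c13999 k0) (by decide +kernel)
def c14308 : PP 8 4 T 0x2000000000001000040040000400000000001850144001001000400008000000010000 := rS 0x980c07921fa4b (k4 c1855 c4306 c12422 c242 (k2 c4199 c9038 (k1 c9058 k0))) (by decide +kernel)
def c14309 : PP 8 4 T 0x2002000001001000000000000000001400140004000000421400002000040010000410 := rS 0x150a086b494ea57ed150432899a50a8139a7cda6f30aed7a7108ac5462f129dc6220010040c090f9f48e633fb1c6eb343c102a133a9962029168ec7e93 (k8 c1654 c145 c89 c7859 c7860 c4468 c4412 c538 (k8 c1678 c326 c4464 c4410 c4312 c4386 c330 c12366 (k8 c11648 c8078 c7516 c274 c13906 c4462 c487 c4461 (k8 c4466 c11577 c13967 c313 c8877 c4241 c4350 c608 (k8 c4387 c4354 c4390 c617 c1107 c4993 c11776 c1615 (k8 c4439 c4321 c4437 c14307 c4469 c6745 c4452 c4306 (k4 c1937 c4532 c14308 c11782 (k2 c11072 c4490 (k1 c7768 k0))))))))) (by decide +kernel)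
def c14310 : PP 8 4 T 0x40000000000006000201000001000040440400000000000001055544000001000400000000000850000 := rS 0x4003d92485dadce2b3 (k8 c4312 c4387 c4353 c4390 c12422 c9529 c242 c8103 (k1 c1835 k0)) (by decide +kernel)
def c14311 : PP 8 4 T 0x2000000001001000000000000000000400100005000000421400002000040014000410 := rS 0xa852a81030d692154f137e858d2cba586584bf8c4262e7333a5d3e6f30aed1ebd3884562a34e9b44a77188800401030243e7d23a24c67f638dd16b343c102a133a9962029168ec7e93 (k8 c1654 c145 c89 c7859 c7860 c4468 c4412 c538 (k8 c1678 c326 c4464 c4410 c4312 c8133 c4386 c330 (k8 c12366 c11648 c7314 c8078 c7516 c274 c13906 c4462 (k8 c487 c4461 c4466 c11577 c13967 c313 c4993 c4731 (k8 c4241 c4350 c608 c4387 c4354 c4388 c4390 c617 (k8 c1107 c11776 c11783 c4555 c1615 c4416 c14309 c4482 (k8 c7782 c9062 c9495 c4459 c2028 c13396 c4465 c8253 (k8 c12356 c4532 c10110 c14310 c11782 c8106 c11072 c9959 (k2 c9957 c7768 k0))))))))) (by decide +kernel)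
def c14312 : PP 8 4 T 0x1000000000000000000000000000008000000000000140000000004000000 := rS 0x8319 (k2 c4366 c1050 (k1 c4472 k0)) (by decide +kernel)
def c14313 : PP 8 4 T 0x2002000001001000040040000400001400144004440014021400400001540000110000 := rS 0x410ca266942a04da6f30aed62bd389d4fa7f (k8 c12366 c7516 c538 c4387 c4354 c4350 c4390 c617 (k8 c1107 c4993 c4439 c4321 c4437 c14307 c4469 c6745 (k1 c14308 k0))) (by decide +kernel)
def c14314 : PP 8 4 T 0x2000000001001000000000000000000400100005000000021400002000040014000410 := rS 0x857e93c2ccba5b3c32c25fc6213435c34d920f43accbc8b821fcc67d8b91c2a7337af4e21158b1c6e9d368bc4a77188800401030243e133a9962029168ec7e93 (k8 c1654 c145 c89 c7859 c7860 c4468 c4412 c538 (k8 c1678 c274 c13906 c4462 c487 c4461 c4466 c11577 (k8 c13967 c313 c8877 c4993 c4731 c4386 c330 c4350 (k8 c608 c4387 c4354 c1107 c1615 c326 c8078 c4416 (k8 c7516 c11648 c12366 c4464 c8133 c14311 c4312 c4410 (k8 c1375 c546 c11768 c9531 c4394 c14313 c4482 c7782 (k8 c9062 c9495 c1525 c4459 c2028 c4465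 c6220 c8253 (k2 c523 c14310 k0)))))))) (by decide +kernel)
def c14315 : PP 8 4 T 0x2002002001000000040000000000001400100004400000420000020000001400000408 := rS 0x4f0d1993a24be41974b6093798576b15e9c50285 (k8 c4321 c4439 c4387 c4354 c4350 c4390 c617 c1107 (k8 c13906 c12637 c4377 c4306 c8882 c6745 c1054 c4340 (k2 c12516 c448 (k1 c4467 k0)))) (by decide +kernel)
def c14316 : PP 8 4 T 0x1000000000000000000000000000000000000001400000000000008000010000 := rS 0xbb0d (k2 c4324 c807 (k1 c4477 k0)) (by decide +kernel)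
def c14317 : PP 8 4 T 0x2002000001000000040000000000045440100004100000422000022000140010000408 := rS 0x449065d07922182750bf49a9330aed7a7108b1c6e2511a3cee3110018121f64aca0b1739ac50285 (k8 c4321 c4439 c4350 c1615 c4416 c4406 c4481 c634 (k8 c274 c13906 c4462 c4466 c11577 c13967 c4388 c832 (k8 c313 c4386 c330 c608 c4387 c4354 c4390 c617 (k8 c1654 c1994 c14315 c11483 c14316 c4467 c11118 c243 (k4 c9046 c9038 c6745 c12516 k0))))) (by decide +kernel)
def c14318 : PP 8 4 T 0x2002000001000000040000000000045040100004100000422000142000140010000408 := rS 0x1341e322444c4ea153a09fabf8c104f26f30aed22bd388458e371288d1e9b179dc6220030243ec9594162e7358a050a69 (k8 c4437 c4321 c4439 c4350 c1615 c4416 c4406 c4481 (k8 c634 c274 c13906 c4462 c4466 c11577 c13967 c8877 (k8 c13624 c4388 c832 c313 c4386 c330 c608 c4387 (k8 c4354 c4352 c4390 c617 c1107 c501 c14317 c4472 (k8 c4369 c8862 c7040 c4532 c11483 c14316 c4539 c11118 (k4 c4469 c243 c376 c9038 k0)))))) (by decide +kernel)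
def c14319 : PP 8 4 T 0x2002000001000000000000000000045040100004100000422000142000150010000408 := rS 0x46506bf7e0d492276911cb679379857a71638dc468f3b8c440060487d92b282c5ce6b1 (k8 c4350 c1615 c4416 c4406 c4481 c634 c274 c13906 (k8 c4462 c4466 c11577 c13967 c4388 c832 c4386 c330 (k8 c4387 c4354 c617 c1107 c501 c12637 c8078 c14318 (k8 c4278 c4281 c4373 c8998 c6330 c4306 c8862 c8902 k0)))) (by decide +kernel)
def c14320 : PP 8 4 T 0x2000000001000000040000000000001400101104400000020000020000008000004408 := rS 0xcc9d125f20c9a5b37aed7a7108ac40c09 (k8 c13906 c4462 c4350 c608 c4387 c4354 c4390 c1107 (k8 c12637 c1994 c9038 c8882 c6745 c1054 c4340 c448 k0)) (by decide +kernel)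
def c14321 : PP 8 4 T 0x2000000001000000040000000000001000101104400000820000140001001000000418 := rS 0x3389930d4825fc6082263c9bd767108ac40c094d8bc1ea9 (k8 c1505 c1375 c8877 c13624 c13906 c4462 c4350 c608 (k8 c4387 c4390 c1107 c501 c10439 c14320 c4472 c4369 (k4 c7040 c548 c9038 c4442 (k2 c377 c4469 k0)))) (by decide +kernel)
def c14322 : PP 8 4 T 0x2002000001000000000000000000045040100004100000022000142000140010000410 := rS 0x2fd063513b48bc854096cdeb1388a45e253b8c4400200818121f (k8 c274 c13906 c4462 c487 c4461 c4466 c11577 c13967 (k8 c313 c8877 c7860 c4387 c4350 c1107 c12637 c4439 (k8 c4321 c14319 c14321 c4278 c4373 c6467 c6330 c8882 k0))) (by decide +kernel)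
def c14323 : PP 8 4 T 0x22000100001000000000140400000045000101405400000420100400000150204000408 := rS 0x606486899204ea77ea00b66f30a457a7108ac40c09178c4468f (k8 c4388 c832 c11577 c8877 c13906 c4462 c4350 c608 (k8 c4387 c4354 c4352 c617 c1107 c12637 c8882 c6225 (k8 c1897 c14316 c8998 c4539 c9324 c4469 c13785 c6737 k0))) (by decide +kernel)
def c14324 : PP 8 4 T 0x22000000001000000040140000000044000000800000001400000400000150200010008 := rS 0x130640f899204efd178c4468f (k8 c4388 c832 c11577 c8877 c4306 c14316 c8998 c9296 (k4 c243 c4469 c9038 c376 k0)) (by decide +kernel)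
def c14325 : PP 8 4 T 0x22001000000000000040100000000145540100000101400002000002000154200000008 := rS 0xf2e122270c5391d26bb48af58e3717894468f (k8 c4388 c832 c313 c8877 c4386 c330 c4354 c4352 (k8 c4390 c1654 c8078 c4558 c4467 c9296 c4200 c7780 (k2 c243 c9046 k0))) (by decide +kernel)
def c14326 : PP 8 4 T 0x400000001000000000000000000000000002000001000400000000001400004000000 := rS 0xd032 (k2 c4469 c10110 (k1 c823 k0)) (by decide +kernel)
def c14327 : PP 8 4 T 0x2001000001000000040000000014045440100005100000422400002000150204000408 := rS 0xc3402eaf19c4a1a264c9ad4a844191cda6108b1c6e2f1288d1ec958a2d65058b9cd7e6f28b06307718818121f (k8 c274 c13906 c4462 c11577 c13967 c4482 c4450 c1684 (k8 c1107 c7782 c1615 c4416 c4406 c4481 c722 c4350 (k8 c634 c4388 c832 c313 c8877 c4386 c330 c608 (k8 c617 c4993 c8078 c14324 c14323 c1402 c562 c8246 (k8 c14325 c4324 c14326 c4340 c4346 c7196 c2112 c4465 (k1 c261 k0)))))) (by decide +kernel)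
def c14328 : PP 8 4 T 0x2001000001000000000000000014044040100000100000422000142000150014000408 := rS 0x821841a041efc500d41a4d2489da447299858e374e9b4022511a3d362f3b8c4401f64aca0b1739ac57e6f3d9e40c09 (k8 c13906 c4462 c501 c14312 c1107 c7782 c4350 c1615 (k8 c4416 c4406 c4481 c634 c274 c4466 c11577 c13967 (k8 c8877 c13624 c4388 c832 c313 c487 c4993 c4731 (k8 c4386 c330 c617 c332 c8078 c14327 c4278 c4281 (k8 c4282 c4371 c4373 c11072 c8998 c11538 c4380 c4306 (k2 c7055 c1872 (k1 c12978 k0))))))) (by decide +kernel)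
def c14329 : PP 8 4 T 0x1000000000000000000000000000200000000800000000001400004000000 := rS 0x19c4cd0a4 (k4 c1381 c1382 c4444 c823 (k1 c4469 k0)) (by decide +kernel)
def c14330 : PP 8 4 T 0x401000001000000000000000000000000002000001000040000000001408204000000 := rS 0x1355016348646483 (k8 c185 c4469 c6737 c823 c4465 c10079 c1990 c975 k0) (by decide +kernel)
def c14331 : PP 8 4 T 0x2001000001000000040000000014001000140000400000820500140000150204000418 := rS 0x61a017578ce24841316c126d3d894468f86a04622f (k8 c8877 c11577 c14329 c4382 c4388 c832 c313 c14312 (k8 c4993 c13906 c12637 c10439 c14321 c14330 c4340 c4346 (k4 c7196 c2112 c4465 c261 k0))) (by decide +kernel)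
def c14332 : PP 8 4 T 0x1001000000000000000000000100000000000004000040000040004000010 := rS 0x8218418d41a4d13b49020f2f14582bf8c42516b282950ea77559955a9b18896202f1027452020ec5ca6733c8192e9f239b4de012c16d46c71bc505a0b1d8fd267b2287c7809 (k8 c13906 c14227 c274 c13923 c14312 c1654 c145 c89 (k8 c14290 c7859 c14306 c4386 c330 c4241 c12637 c4476 (k8 c487 c1107 c4993 c8078 c11776 c11783 c4462 c501 (k8 c1615 c332 c4416 c10867 c4461 c7860 c4731 c4466 (k8 c8877 c4468 c313 c11577 c13624 c4554 c4412 c4415 (k8 c13967 c538 c14314 c4406 c4481 c722 c14322 c4482 (k8 c7782 c4450 c1684 c14328 c1375 c14329 c14331 c4278 (k4 c4282 c4371 c4373 c6467 (k2 c7055 c1872 (k1 c12978 k0)))))))))) (by decide +kernel)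
def c14333 : PP 8 4 T 0x1000000000000000002000000050000000110020400000404050420000000 := rS 0x144602f (k4 c786 c6029 c1917 c7042 k0) (by decide +kernel)
def c14334 : PP 8 4 T 0x2002000001001000000040000000000400140004140000020400400404150020150020 := rS 0x1920f2ea99530d11b4892a5a2a0a266942a053e6d3798576b15e9c5469d139dcc6033ea24fe6559a1e0855 (k8 c266 c4464 c4410 c4312 c7854 c12366 c7314 c7516 (k8 c55 c12253 c3009 c350 c1234 c4241 c4387 c4354 (k8 c4350 c4390 c617 c1107 c4993 c11776 c4439 c4321 (k8 c4437 c14307 c6745 c4452 c1937 c8085 c12422 c4372 (k4 c4200 c14333 c4490 c812 (k2 c265 c7308 (k1 c11768 k0))))))) (by decide +kernel)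
def c14335 : PP 8 4 T 0x1001000000000000000000000100000000000004000040000040004000000 := rS 0x67d0d9081428b8d41665d2c32c25fc62128759a2e082909a24ee954d9d4aa1c19810f6c7089c57ab71bac577148b91ca6450a9cc5a3b1fa4cf20637804b05b058243e3c (k8 c14227 c274 c13906 c14290 c12637 c4476 c487 c1107 (k8 c4462 c501 c1654 c145 c89 c7859 c1615 c326 (k8 c13923 c332 c8078 c4416 c14306 c4390 c4350 c4386 (k8 c4353 c4354 c4387 c608 c330 c14312 c14332 c6309 (k8 c527 c266 c2484 c765 c11432 c3009 c7314 c1678 (k8 c1680 c4464 c8133 c4312 c4410 c14334 c4482 c7782 (k8 c9062 c9495 c4459 c2028 c4465 c532 c533 c2493 (k4 c3755 c8103 c4422 c1792 (k1 c8129 k0))))))))) (by decide +kernel)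
def c14336 : PP 8 4 T 0x4000000021000500000100250000020000000081000a4 := rS 0x4808835925e58175fa8f869842675 (k8 c2674 c1678 c617 c4328 c130 c4550 c808 c1155 (k4 c1156 c7308 c2676 c2507 (k2 c8102 c4199 k0))) (by decide +kernel)
def c14337 : PP 8 4 T 0x2200000000001000040040000000000050100000144054401000400000054000151000 := rS 0x3241e483e9fd6704 (k8 c4464 c4312 c4313 c7516 c12422 c242 c10573 c14278 k0) (by decide +kernel)
def c14338 : PP 8 4 T 0x2a00000001001000000040000000040550100400144001400000540000154008150020 := rS 0x1920f2ea054cbf868d4464969034ce9f3298c06333face0855 (k8 c266 c4464 c4312 c4313 c4340 c422 c12253 c7854 (k8 c11776 c4555 c528 c14337 c4281 c4372 c4373 c4200 (k4 c6330 c13260 c1897 c813 (k2 c427 c7308 (k1 c14278 k0))))) (by decide +kernel)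
def c14339 : PP 8 4 T 0x1001000000000000000000000100000000000004000040000040000000000 := rS 0x29d7e4a27921a7436483e1a5e638446e8f58c504e915b941a2c061accfe2988410faa34a95438041080d563332c495a9d09a66329b18900ea7a418680261379b53e972c0b4e6152d81816450fa4c8f171f8ec7809 (k8 c13906 c14227 c89 c145 c4416 c8078 c1654 c274 (k8 c13923 c14290 c4462 c12637 c326 c1615 c7859 c4476 (k8 c11783 c11776 c4993 c1107 c617 c487 c14335 c2621 (k8 c688 c2674 c689 c7896 c14113 c4366 c1132 c1678 (k8 c3040 c13185 c4488 c7854 c4340 c4445 c422 c12555 (k8 c4461 c4726 c266 c11432 c14265 c7516 c4464 c7465 (k8 c1680 c4313 c4312 c1211 c7662 c1711 c6869 c3672 (k8 c14336 c872 c14305 c4350 c4388 c4386 c608 c330 (k8 c14338 c4382 c1376 c546 c11164 c11768 c4473 c452 (k4 c1725 c1054 c1857 c13260 k0)))))))))) (by decide +kernel)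
def c14340 : PP 8 4 T 0x1000000000001000000000001100040055500000000004100000005000100000008800 := rS 0x145c9b86a07 (k4 c83 c1330 c305 c7514 (k2 c11834 c11513 k0)) (by decide +kernel)
def c14341 : PP 8 4 T 0x10022000000000000000000000000000500000500000001580000000000000000000000 := rS 0x276266d (k4 c4318 c12516 c968 c4488 k0) (by decide +kernel)
def c14342 : PP 8 4 T 0x20000001001000000080000000000401500500104001084000001000040020004800 := rS 0x622f1563154b057e9d67c48ec4f0c4255a2f0bb45865f19a55265d348b4369920c64849753a957600 (k8 c758 c4847 c4385 c4330 c929 c14339 c4446 c91 (k8 c1031 c4149 c2920 c2723 c2721 c1030 c763 c2958 (k8 c577 c2055 c340 c573 c1952 c4554 c14341 c4465 (k8 c4501 c309 c5907 c1519 c1091 c1093 c1893 c4345 (k4 c4441 c4445 c2126 c13950 (k1 c1176 k0)))))) (by decide +kernel)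
def c14343 : PP 8 4 T 0x1000000001001000040080001000040000100000100000084000001000040020000800 := rS 0x2127754a68de814183c96bb8618522098c85c82422f98d2a932e9a45a6b589ec22004788c7e97 (k8 c929 c399 c1449 c760 c758 c607 c2686 c2605 (k8 c2540 c2920 c2723 c2721 c1030 c763 c2722 c577 (k8 c14339 c91 c573 c4446 c13906 c12744 c13428 c4486 (k8 c4847 c1954 c14340 c4570 c12056 c10992 c14342 c2731 (k2 c1888 c9576 (k1 c6924 k0)))))) (by decide +kernel)
def c14344 : PP 8 4 T 0x1000000001000000080000000001001000501400000500100000080005000005404000 := rS 0x48c357c4e (k4 c6153 c339 c8635 c1244 (k1 c4486 k0)) (by decide +kernel)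
def c14345 : PP 8 4 T 0x1000000001000000080000000101001000501000004500100000080005000005000800 := rS 0x38bf5040f0b9057a4d (k8 c4282 c2014 c91 c573 c305 c14344 c4306 c589 (k1 c4480 k0)) (by decide +kernel)
def c14346 : PP 8 4 T 0x1000000000001000080000001000040054500000008000004000005000000000000800 := rS 0x2457235 (k4 c4373 c7514 c1075 c11907 k0) (by decide +kernel)
def c14347 : PP 8 4 T 0x1002000001000000080000000000000400100000004000080000080000000420000800 := rS 0x152314e8650a6d108ccba6935ac4001b4c906328f (k8 c760 c4446 c91 c1031 c4149 c758 c2605 c2540 (k8 c2723 c2721 c2958 c85 c4318 c4321 c4436 c968 (k2 c5755 c6029 (k1 c14345 k0)))) (by decide +kernel)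
def c14348 : PP 8 4 T 0x1000000001001000080000000000000400100000104000084000001000040420000800 := rS 0x21c294b622ac62c14ec48ec890c4255a2f0bb4586334aa4cd22d3d800369920c648497 (k8 c929 c14339 c4446 c91 c1031 c4149 c758 c2686 (k8 c2920 c2723 c1030 c763 c2958 c2055 c340 c573 (k8 c1952 c4554 c14347 c4465 c7474 c309 c5907 c1091 (k8 c1893 c4441 c4445 c13950 c4429 c12747 c1635 c7785 k0)))) (by decide +kernel)
def c14349 : PP 8 4 T 0x1000000001001000000080000000040000100000100000084000401000040020000800 := rS 0x10a193b8c5529d4d1bda4b506a5c7e130f8cd2a932e9a4d6b10006d32418c9091e23 (k8 c1449 c760 c14339 c4446 c91 c1031 c4149 c758 (k8 c2605 c2540 c2723 c2721 c1030 c763 c2958 c56 (k8 c570 c399 c929 c1448 c7513 c14343 c14346 c14348 (k4 c189 c2731 c1967 c1888 (k2 c309 c6224 (k1 c14345 k0)))))) (by decide +kernel)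
def c14350 : PP 8 4 T 0x1000000000001000040000000000040044500040000040080000405000000020011900 := rS 0xfd07a844a912f98c4e952e8b40a1f5899400b5 (k8 c7513 c758 c2539 c2605 c56 c575 c2920 c2721 (k8 c763 c2877 c2722 c577 c12744 c14202 c12260 c14340 (k2 c10398 c4463 k0))) (by decide +kernel)
def c14351 : PP 8 4 T 0x1000000001001000080000000014000444104000004000084000081000000420100800 := rS 0x3053ac5891d831090bb0d2a690da648319 (k8 c4446 c91 c1031 c4149 c2723 c763 c2055 c573 (k8 c14347 c4465 c309 c5907 c12747 c1091 c1892 c4553 k0)) (by decide +kernel)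
def c14352 : PP 8 4 T 0x1000000001001000000080000000040000100000000000084000401000040020000800 := rS 0x307718a68ded206aad0e7f882b474125aa5cce3f448562e744784446096187c66634aa4cd22d35994001b4c9063242 (k8 c14339 c4446 c91 c1031 c4149 c758 c2539 c2540 (k8 c2920 c2723 c1030 c763 c2722 c2958 c56 c2055 (k8 c13906 c1449 c607 c760 c14349 c4417 c2570 c597 (k8 c398 c4555 c11783 c7513 c11468 c4471 c4809 c4487 (k8 c2545 c3522 c4415 c1447 c14350 c14346 c14351 c1967 (k2 c1888 c14188 (k1 c309 k0))))))) (by decide +kernel)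
def c14353 : PP 8 4 T 0x1000002001000000004001400014001555100400000101180000081004000100000000 := rS 0x178c4890c4831968b0cbe81 (k8 c4380 c577 c2055 c340 c4446 c91 c5755 c4488 (k2 c13950 c12641 (k1 c1176 k0))) (by decide +kernel)
def c14354 : PP 8 4 T 0x1000000000000000000002000000000000000080000010000000024000000 := rS 0x193644c6669 (k4 c2723 c2958 c4344 c968 (k2 c5907 c5889 k0)) (by decide +kernel)
def c14355 : PP 8 4 T 0x1000002001001000004001400004000441100400000001080000081000040020000000 := rS 0x1582f108cd2a932e9a45a9d0da663241 (k8 c91 c4446 c1031 c4149 c14354 c2920 c2723 c2721 (k4 c1030 c763 c2958 c85 (k2 c1952 c14353 (k1 c4554 k0)))) (by decide +kernel)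
def c14356 : PP 8 4 T 0x1000000001001000000080000000000000100000000000084000401000040020000800 := rS 0x9b45171b534ab2794502bf25b05f8361ac58de83470454e9752b3c1ed3308a0449188a8872090b904845f4aa4cba69169ad6200 (k8 c758 c2605 c2540 c2920 c2723 c2721 c1030 c763 (k8 c577 c14339 c91 c573 c13906 c2377 c14352 c4337 (k8 c2943 c11410 c4468 c13428 c4372 c1327 c3494 c3421 (k8 c2745 c2749 c606 c11931 c4570 c10992 c4487 c7949 (k8 c761 c10457 c4420 c1955 c3486 c4380 c1956 c339 (k4 c1572 c14355 c2730 c764 (k2 c9368 c1992 (k1 c4474 k0)))))))) (by decide +kernel)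
def c14357 : PP 8 4 T 0x1000000000001000040040001100000041100000004014000000001000140420010800 := rS 0x44452340a9216c8f2aa5526a31c985723f (k8 c1179 c11342 c13428 c1139 c4241 c1030 c763 c306 (k8 c760 c7468 c9550 c366 c4209 c1721 c12017 c4468 k0)) (by decide +kernel)
def c14358 : PP 8 4 T 0x1000000000001000040040011100010055500000004014001000000100140800010800 := rS 0x1111485490345b0dd4661 (k8 c13428 c4241 c1409 c7468 c4470 c9550 c366 c1720 (k2 c12017 c4468 k0)) (by decide +kernel)
def c14359 : PP 8 4 T 0x1800000000001000040040000100000441100004005514500000481000144020010800 := rS 0x45d171182a1102667e12c92bf1aa38447d5cad47f1961954429549a7d463930a841ea7 (k8 c13601 c305 c12260 c13428 c1139 c4241 c11776 c1030 (k8 c763 c85 c306 c2055 c4446 c1179 c7513 c11342 (k8 c8975 c14357 c14358 c1306 c1516 c4209 c1955 c10457 (k8 c9172 c12056 c14102 c4310 c4334 c720 c10652 c4487 k0)))) (by decide +kernel)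
def c14360 : PP 8 4 T 0x1000000000000000000080000000000000080000000000140000000000 := rS 0x5311 (k2 c4336 c2745 (k1 c4468 k0)) (by decide +kernel)
def c14361 : PP 8 4 T 0x1000000001001000040040000100001441100004004514500000481004144024010800 := rS 0x1b624318c8853241 (k8 c91 c1031 c85 c4446 c5755 c4488 c5814 c14359 k0) (by decide +kernel)
def c14362 : PP 8 4 T 0x1000000001001000040040000100001041100004004514500000481004144024010800 := rS 0x9b45171b5344f40afc96a51b29c6a8e418881e172a8852a934c9056ab91f8e4c2a1 (k8 c12260 c13428 c1139 c1179 c11342 c7513 c91 c1031 (k8 c1030 c763 c85 c306 c573 c305 c14357 c4570 (k8 c14358 c1306 c2726 c761 c1430 c1955 c3486 c12056 (k4 c339 c14361 c2730 c764 (k2 c9368 c1992 (k1 c4474 k0)))))) (by decide +kernel)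
def c14363 : PP 8 4 T 0x1000000001001000040040000000001040100000000104500000481004144024000802 := rS 0x723cdc1130a441295499ad62653da8d6a3f (k8 c1179 c7513 c4241 c2686 c2539 c2605 c2540 c1030 (k8 c763 c13906 c12744 c13428 c606 c14362 c1345 c10992 (k1 c14340 k0))) (by decide +kernel)
def c14364 : PP 8 4 T 0x1000000001001000000000000000000400100000000000084000401000040020000800 := rS 0xe90c158baad5a74188bc426f4788d6a3f6925d3a1b4c90632692e89cc6001997c84a3638b52695 (k8 c763 c1030 c2920 c14356 c4241 c14339 c577 c2958 (k8 c758 c2722 c2877 c2721 c2723 c4446 c91 c1031 (k8 c4149 c14354 c14360 c14363 c1179 c7513 c4372 c760 (k8 c14346 c85 c1952 c5755 c14348 c4554 c14076 c4417 (k4 c2570 c14351 c4471 c3522 k0))))) (by decide +kernel)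
def c14365 : PP 8 4 T 0x1000000001001000000000000000000000100000000000084000401000040020000800 := rS 0x214327718aa5346f4788c1ad25aa8d8e5f0f8ccc6274aa4cba6935ac4009d0da663241210fd2e2d (k8 c2920 c14360 c1179 c14339 c91 c4446 c1031 c4149 (k8 c14354 c758 c2605 c2540 c2723 c2721 c1030 c763 (k8 c2877 c2722 c2958 c56 c577 c14356 c4241 c7513 (k8 c14363 c4371 c4372 c760 c14346 c14364 c2731 c1967 (k4 c1888 c309 c6224 c14345 k0))))) (by decide +kernel)
def c14366 : PP 8 4 T 0x1000000000001000040140014100050041100000004014500000001000145420010800 := rS 0xf8fc339fc6a9f882d2188f59a552661 (k8 c13428 c1030 c763 c663 c760 c4467 c14357 c10674 (k4 c4384 c7883 c1434 c4334 (k2 c10457 c2118 (k1 c4379 k0)))) (by decide +kernel)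
def c14367 : PP 8 4 T 0x1000000000001000040000010000044055500000000000000001000100004800000000 := rS 0x6a37 (k2 c1409 c11933 (k1 c4470 k0)) (by decide +kernel)
def c14368 : PP 8 4 T 0x1000000000001000000000000100000041100000004014500000801000145020010800 := rS 0xa1f568fc1b0d51c9f1115566214aa4da64963ae47ea350adc72c9 (k8 c1583 c1139 c1587 c1585 c1314 c1179 c1316 c146 (k8 c118 c4374 c1030 c763 c85 c663 c306 c14366 (k8 c1300 c14367 c1306 c761 c10457 c1411 c4379 c11475 (k1 c11934 k0)))) (by decide +kernel)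
def c14369 : PP 8 4 T 0x1000000001001000000000000000000000100000000000084000001000040020000800 := rS 0x37071b8222530a45a6464b9956205169744e630007c125f (k8 c577 c13906 c56 c758 c2722 c2877 c2721 c2920 (k8 c575 c2605 c2539 c14360 c14365 c4374 c12744 c13428 (k4 c14202 c606 c14368 c10992 (k2 c3329 c304 k0)))) (by decide +kernel)
def c14370 : PP 8 4 T 0x1000000000000000040000000100000000001100004000000044000110000085405000 := rS 0x419342236 (k4 c4470 c7962 c2204 c4570 (k1 c2108 k0)) (by decide +kernel)
def c14371 : PP 8 4 T 0x1000000001000000040000000100500000000000005401480000080010000080005800 := rS 0xa94193174701c1742e414e9149e695ea68608540864961b (k8 c2208 c1955 c2201 c6395 c6224 c276 c277 c3920 (k8 c1878 c2209 c175 c1232 c91 c573 c841 c14370 (k4 c359 c365 c364 c589 (k2 c1444 c8722 k0)))) (by decide +kernel)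
def c14372 : PP 8 4 T 0x1000000001000000040000000100500000000000001401480000080010000080005900 := rS 0xdc726e (k4 c14371 c1073 c1343 c4470 k0) (by decide +kernel)
def c14373 : PP 8 4 T 0x2000414001000004004000554000000000000000000000000 := rS 0x89 (k2 c1985 c8008 k0) (by decide +kernel)
def c14374 : PP 8 4 T 0x1000001000000080000410000004044014009154010000081010000080050000 := rS 0x111044a9fe2cb91fb05563b4e914d69a (k8 c277 c1969 c175 c1232 c1101 c1973 c14373 c405 (k4 c7514 c4471 c1459 c4418 (k2 c7317 c11210 (k1 c4314 k0)))) (by decide +kernel)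
def c14375 : PP 8 4 T 0x400000000000000010000000010000108004000000154001100000000100004440020 := rS 0x54a689822be226d (k8 c694 c4413 c1779 c4478 c4794 c4179 c4308 c7856 k0) (by decide +kernel)
def c14376 : PP 8 4 T 0x1000000001001000000000000000000000100000000000014000001000040000000800 := rS 0x3eb196e884a9fe2cb95a8fd82ab1da4c6e6e5f094e2bba2bf504471c845a4a743a14d6bd52a2cda5134c4ccaad4c98d22194d06c604f4e8b46a0d3d884c2b10f04c1e04338bc021d2f96812458c80c2e4168908aab3 (k8 c663 c306 c14339 c340 c91 c573 c303 c4446 (k8 c175 c13906 c4476 c577 c14369 c567 c1953 c13949 (k8 c4461 c12199 c12274 c575 c2607 c6986 c311 c2688 (k8 c2550 c1099 c2359 c1232 c2209 c276 c2208 c277 (k8 c2201 c888 c12307 c1927 c4554 c7854 c4441 c1878 (k8 c3874 c694 c13509 c1971 c3920 c1969 c6224 c13785 (k8 c4500 c14372 c4276 c4280 c4374 c6153 c8510 c4452 (k8 c1977 c589 c11222 c4493 c4480 c272 c14375 c1101 (k8 c1973 c14373 c405 c1518 c7514 c4471 c1459 c4418 (k4 c11210 c13056 c12162 c1351 (k1 c14374 k0))))))))))) (by decide +kernel)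
def c14377 : PP 8 4 T 0x20000001000000000084000500000014100500400000120100000004401004400800 := rS 0x67a2178c53c93d309b1844d0e858422cf6610687cb619022744073a1aece25f (k8 c4382 c536 c4945 c4391 c1109 c535 c966 c534 (k8 c2257 c93 c271 c2495 c617 c702 c13509 c4465 (k8 c6224 c13785 c12516 c4469 c1967 c317 c298 c541 (k4 c7718 c6745 c6803 c1519 (k1 c9160 k0))))) (by decide +kernel)
def c14378 : PP 8 4 T 0x1001000040080000100000000100000000000120000081000141000010800 := rS 0x17c8a271495ea9268c434ab28c4182298b254e24b0a294bf0c11825a2c32aaccc23f199dc32830ba9c4e0440bf01e6f06ab45e413284d462039a4c3e5b (k8 c93 c271 c11351 c1109 c535 c9384 c2496 c7854 (k8 c91 c837 c4554 c2495 c1107 c305 c4463 c4380 (k8 c534 c350 c4558 c573 c4570 c2257 c1886 c2293 (k8 c2367 c617 c663 c306 c2055 c340 c13906 c1449 (k8 c4467 c4382 c4385 c11932 c7803 c536 c7133 c7660 (k8 c834 c4420 c4468 c1956 c4415 c14377 c6268 c374 (k4 c6029 c5815 c2112 c2111 (k2 c415 c339 (k1 c10311 k0))))))))) (by decide +kernel)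
def c14379 : PP 8 4 T 0x4000400001414054004400000020000000002000200000000 := rS 0xc54c44ce679 (k4 c541 c1109 c4441 c317 (k2 c7718 c6803 k0)) (by decide +kernel)
def c14380 : PP 8 4 T 0x2001000000000000000000400000001000000100400000000005400000400000 := rS 0x448d681 (k4 c4380 c6097 c4469 c14102 k0) (by decide +kernel)
def c14381 : PP 8 4 T 0x2000001000040140000500000000000000154051101000001080141250011120 := rS 0x2545014861244639139f526a3 (k8 c9384 c11351 c4379 c350 c2322 c1410 c322 c4467 (k4 c11932 c11184 c7133 c834 k0)) (by decide +kernel)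
def c14382 : PP 8 4 T 0x40000000000000000000000000000800000000000005000001000 := rS 0x470d (k2 c4382 c1295 (k1 c4467 k0)) (by decide +kernel)
def c14383 : PP 8 4 T 0x1000000001001000040000000100000000100000000000120000081000140000000800 := rS 0x1260a141a0dd8e7332a4c125559984ce1d0f96cea3f6484cfafc079c4be27088e4406f020940e0d (k8 c2495 c83 c7033 c534 c1107 c535 c2322 c7962 (k8 c350 c14382 c536 c305 c4463 c4379 c2496 c10573 (k8 c2367 c11468 c93 c271 c1025 c2638 c617 c663 (k8 c306 c13906 c11351 c7854 c1109 c14378 c14381 c4470 (k4 c11358 c4308 c366 c11359 k0))))) (by decide +kernel)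
def c14384 : PP 8 4 T 0x1001000010000048100500000000000000000000104080004605408010000 := rS 0xa5310a745679397aa9269e86319 (k8 c4446 c2362 c335 c374 c6029 c1171 c2111 c1797 (k4 c4396 c421 c7634 c4475 (k1 c4429 k0))) (by decide +kernel)
def c14385 : PP 8 4 T 0x1000000001001000040000000100000000100000000000004000001000040000000800 := rS 0x558c10e8534a2cf61b5da9618512588d82355b4596b053f9cd721424a54c911161c4be7d40a9d92fc2e89c22030bb44ce0d4bacc4a07079bc722f209d47e133b8653a33021084058 (k8 c14376 c535 c14339 c534 c2293 c966 c2257 c1886 (k8 c2496 c2367 c11468 c91 c837 c2322 c1107 c305 (k8 c83 c7033 c663 c1195 c2495 c2638 c340 c573 (k8 c303 c7962 c350 c12183 c4463 c10573 c4558 c4380 (k8 c4379 c14382 c536 c14383 c4332 c391 c855 c2330 (k8 c390 c6781 c1649 c554 c4308 c11934 c7660 c4088 (k8 c11359 c4420 c833 c1955 c1956 c4467 c10933 c4945 (k8 c14384 c702 c13509 c13396 c6224 c13785 c14380 c11176 (k1 c397 k0))))))))) (by decide +kernel)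
def c14386 : PP 8 4 T 0x20000001000000040084000600100014000010400000020144000004405404000800 := rS 0x26d123041aa6884d659e57687459ec3e5b0ca75fa7f53afc6d4360c582810398fc4004 (k8 c534 c535 c2367 c1109 c622 c406 c7660 c4420 (k8 c4391 c623 c1511 c4558 c2655 c4304 c966 c2257 (k8 c93 c271 c702 c13509 c13785 c4946 c629 c9862 (k8 c413 c4474 c4398 c4452 c2111 c4529 c1967 c14379 k0)))) (by decide +kernel)
def c14387 : PP 8 4 T 0x20000001000000040080000200100004000000000010020000081000005400004900 := rS 0x15283268c6121a28b062c950a1f586b33687cb63f199dc32047ea1496350393c20a7178808273 (k8 c1109 c91 c535 c837 c4558 c622 c2296 c83 (k8 c1033 c1955 c2695 c4304 c534 c2257 c1886 c2293 (k8 c2367 c93 c271 c4993 c663 c2055 c1351 c406 (k8 c7133 c7660 c4420 c1956 c14386 c4316 c6268 c2379 (k2 c639 c5323 (k1 c2111 k0)))))) (by decide +kernel)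
def c14388 : PP 8 4 T 0x20000001001000000044040400000010000005440040021001000080144604440024 := rS 0x13230448558b175a118526d1fa7d468b34a1e1019 (k8 c2257 c4465 c4440 c13396 c13509 c9384 c4384 c2367 (k8 c4993 c834 c4200 c1411 c4419 c1789 c7660 c7172 (k2 c14212 c6803 (k1 c317 k0)))) (by decide +kernel)
def c14389 : PP 8 4 T 0x10020000001001000000044000200001000000000400000020005001000544004400904 := rS 0x60b153713558c0c63a0aa262e943ca1d770834a2cf655599b4ce193a8fc40041b08c3a0103ab4ca1339a4c3e5b (k8 c93 c271 c11351 c1109 c2496 c7854 c4554 c83 (k8 c486 c1025 c7007 c623 c534 c535 c2367 c11468 (k8 c2257 c2638 c4993 c663 c306 c702 c13509 c13396 (k8 c4465 c4946 c4440 c629 c14388 c4418 c9931 c7133 (k8 c4471 c12253 c14212 c3525 c4441 c1967 c7718 c8128 (k1 c2123 k0)))))) (by decide +kernel)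
def c14390 : PP 8 4 T 0x1000000000000000000000500000001000001000040044080084405408000000 := rS 0xa9419346309 (k4 c4316 c6268 c2276 c639 (k2 c5323 c2111 k0)) (by decide +kernel)
def c14391 : PP 8 4 T 0x20000001001000040000000200100000000000000000020001081000145000004904 := rS 0x318ca938c85d86130f9dc329d0da9c9e10258d4461d0081d0a367e8cc082f10104da5b (k8 c93 c4993 c91 c535 c837 c534 c2293 c4304 (k8 c623 c2695 c83 c486 c1025 c7007 c1033 c1955 (k8 c622 c2296 c4558 c14390 c966 c2257 c1886 c271 (k8 c2496 c2055 c573 c4446 c11351 c7854 c14389 c14387 k0)))) (by decide +kernel)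
def c14392 : PP 8 4 T 0x1000000001001000040000000000000000100000000000004000001000040000000800 := rS 0x9a5e131531218aae2c730a18cc82c43c20d28b3d86d3ea15fa954f0c279249627119fd0a36080d5fab00480c2eb336984ce010ea444a070f96c1e6f1f8e45e413b8653a33021084058 (k8 c14376 c535 c14339 c534 c2293 c966 c2257 c1886 (k8 c91 c837 c2322 c2367 c1107 c305 c93 c271 (k8 c83 c7033 c14216 c1025 c486 c2638 c617 c4993 (k8 c663 c573 c303 c13906 c14385 c4304 c1033 c622 (k8 c623 c2695 c2655 c7007 c4538 c1955 c4209 c2296 (k8 c7312 c4558 c10323 c1511 c4329 c4384 c14390 c702 (k8 c13509 c13396 c4465 c4440 c14391 c391 c814 c390 (k8 c1649 c7660 c11176 c397 c4469 c6029 c2111 c325 (k2 c12319 c2018 k0))))))))) (by decide +kernel)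
def c14393 : PP 8 4 T 0x11000000000000000000000100100001000101100000000000014000002001045415000 := rS 0x2ee8a825f93d3713 (k8 c4441 c1967 c298 c5760 c2108 c4452 c1977 c4493 k0) (by decide +kernel)
def c14394 : PP 8 4 T 0x1000000001000000080000000000401000100000004000000000080004401045001800 := rS 0x2ea3d7ca9271ac6281429a632172083c9623588457a4d (k8 c4282 c2014 c4276 c622 c4372 c4375 c305 c91 (k8 c573 c4446 c13396 c6224 c6395 c14393 c6097 c13552 (k4 c6029 c339 c1515 c4628 (k1 c14345 k0)))) (by decide +kernel)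
def c14395 : PP 8 4 T 0x11000000000001000010000100544010041500000014001001080501005540240040120 := rS 0xa05314b119e955b0513ea332ab526755a8fe8abb (k8 c1440 c4396 c2367 c7513 c11468 c11351 c4554 c7854 (k8 c9384 c11776 c8104 c12339 c7133 c1797 c7634 c834 (k2 c421 c2112 (k1 c1595 k0)))) (by decide +kernel)
def c14396 : PP 8 4 T 0x1000000001001000000000000000000000100000000000004000001000040000000800 := rS 0xa0c15b1ccc66488a7c58c97e17d428f38c317cbb57a95524e55c48f4310d29d6ab95eac48e35119344e1125b493a75198bc323f0f895229709834086710184de6d2d96166556882482458c9080e03 (k8 c303 c83 c14339 c4446 c175 c91 c13906 c340 (k8 c306 c663 c14376 c93 c4993 c1107 c617 c535 (k8 c2638 c534 c2495 c2496 c1195 c14216 c7033 c271 (k8 c2367 c2257 c837 c2293 c11468 c966 c14392 c4375 (k8 c4276 c4278 c4282 c4372 c4373 c4374 c622 c2014 (k8 c7514 c7513 c4500 c14394 c6268 c335 c9768 c14076 (k8 c13552 c6029 c5936 c4346 c1440 c339 c5807 c707 (k8 c1515 c4329 c4382 c4480 c4305 c14395 c4384 c4332 (k4 c391 c814 c1649 c11717 (k2 c1749 c14384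 (k1 c1956 k0))))))))))) (by decide +kernel)
def c14397 : PP 8 4 T 0x1000000000000000000001000000000000000000000080002000140000000 := rS 0x26c8319 (k4 c4446 c91 c1967 c5755 k0) (by decide +kernel)
def c14398 : PP 8 4 T 0x1000000040040000104054000000000000555500100480005155404554000 := rS 0x298605e4c82c268a7e4093cfa4b53aa4910c36a0d92af (k8 c5815 c10573 c4570 c5814 c4467 c2110 c6029 c4330 (k8 c7803 c1623 c2298 c12056 c2118 c13089 c9576 c4313 (k4 c4474 c6927 c4465 c9747 (k1 c8698 k0)))) (by decide +kernel)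
def c14399 : PP 8 4 T 0x800000001000000000000000000400000000404004501500040080000000001400002 := rS 0x205fb083bc6436a9 (k8 c4345 c335 c4446 c1886 c4465 c12888 c7000 c12981 k0) (by decide +kernel)
def c14400 : PP 8 4 T 0x1000000001001000040140000010040000100000004011080100480001550800100812 := rS 0x429fcfa8165956964b291d9a2185493e24a704a7cbe6b4898c4e5d34870ce6d0d9ed060f08aae20af1985c82a5 (k8 c1302 c91 c573 c951 c5815 c4468 c4415 c606 (k8 c305 c4570 c2686 c335 c5814 c4555 c567 c2723 (k8 c2721 c2877 c2722 c12744 c2540 c577 c11776 c13906 (k8 c10653 c4469 c1490 c4345 c14399 c2254 c309 c2112 (k8 c3797 c4456 c9029 c2023 c12056 c7516 c12366 c12374 (k1 c2119 k0)))))) (by decide +kernel)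
def c14401 : PP 8 4 T 0x1000000001001000040000000110000000100000004000080000082000140000000802 := rS 0x2114f0840aa57a774d0b94a2255c41928314b1c1f192899426074f91cbe6b51a5c7e6313974d2250282542670aacc2261489b4629d0e0843e330b904367b (k8 c2686 c335 c91 c573 c951 c274 c9668 c567 (k8 c14354 c14397 c5814 c12744 c13428 c606 c2642 c327 (k8 c4555 c12260 c13906 c575 c14202 c2723 c2721 c2877 (k8 c2722 c145 c11783 c14265 c2540 c577 c8078 c11776 (k8 c83 c1679 c7854 c1685 c4446 c305 c14266 c14267 (k8 c4570 c10573 c4468 c4415 c14398 c1302 c14400 c1952 (k8 c3796 c3916 c2731 c7000 c6924 c4500 c2119 c4321 k0))))))) (by decide +kernel)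
def c14402 : PP 8 4 T 0x1000000080000000000000044000000000000400082000000005100800 := rS 0x44b44aa17289042607 (k8 c83 c1679 c91 c1685 c573 c2250 c2301 c7030 (k1 c2109 k0)) (by decide +kernel)
def c14403 : PP 8 4 T 0x1000000001001000040000000100000000100000000000080000082000040000000804 := rS 0x2a0a0f8c729939048143a2c32775ea1576a55492c9a3624a9e188f118381afd371b462114e99cc21b0a9a4ba2731a8d3291199ed661c3588400052f8242e5120ab4761f4b8fcca9f1684c0e47 (k8 c8078 c83 c1679 c7822 c11776 c7854 c145 c11783 (k8 c274 c89 c7821 c91 c1685 c573 c13906 c577 (k8 c575 c4461 c9668 c2540 c567 c2642 c2686 c951 (k8 c12744 c1927 c14265 c2722 c2877 c2721 c2723 c327 (k8 c335 c13428 c4555 c14354 c606 c14397 c5814 c14401 (k8 c4378 c1290 c10992 c7099 c1345 c9688 c11219 c2247 (k8 c304 c2248 c1334 c6029 c4385 c4847 c3475 c2014 (k8 c10356 c309 c5853 c13785 c6395 c2119 c8514 c2289 (k4 c14402 c9172 c4200 c7516 (k1 c1598 k0)))))))))) (by decide +kernel)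
def c14404 : PP 8 4 T 0x1001000040000000100000000100000000000020000082000141004010800 := rS 0x12446141b1898f455e29498bb25afcf24f4c26e263042c20d27b8b87cca134f91cc2670e81ce6931c8a476a32a9dc329d19a0c2ea71788082817e03cde712f89c080d (k8 c2495 c534 c350 c14382 c536 c1107 c305 c4463 (k8 c4380 c91 c535 c837 c4558 c573 c4570 c2293 (k8 c966 c2257 c1886 c12210 c9384 c89 c835 c2322 (k8 c1654 c1109 c83 c1025 c2638 c617 c8078 c11776 (k8 c1679 c7854 c274 c4416 c702 c13396 c4465 c6224 (k8 c14380 c4441 c1967 c317 c298 c541 c5760 c3839 (k8 c10397 c2108 c9930 c2122 c4451 c2286 c11127 c2015 (k4 c11648 c1410 c2273 c11448 k0)))))))) (by decide +kernel)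
def c14405 : PP 8 4 T 0x1000000001001000040000000100000000100000000000004000000000040000000800 := rS 0xfc630ab415e3129868faab7e44022332aa8c522f1c83c4a1d06810ce20309bcb05b2890484ad1d87cca2d0184c7807 (k8 c83 c14396 c1679 c303 c7822 c7854 c274 c89 (k8 c7821 c14339 c91 c1685 c14403 c4476 c1107 c617 (k8 c535 c2638 c534 c2495 c1025 c7033 c305 c2322 (k8 c837 c835 c9384 c12210 c2293 c7962 c4468 c4463 (k8 c4415 c4379 c14404 c2287 c6268 c5815 c2112 c2299 (k2 c12253 c12279 (k1 c7517 k0))))))) (by decide +kernel)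
def c14406 : PP 8 4 T 0x1000000001001000040000000000000000100000000000004000000000040000000800 := rS 0x3462653181a516480dc314e874498c462917a942a2510184da272c16c66a30219caa196393c9601428d820357eac02e3b0f944824232a7c5a030981c8e3c (k8 c14396 c8078 c83 c1679 c303 c7822 c11776 c7854 (k8 c14339 c91 c1685 c274 c89 c573 c14405 c4304 (k8 c1033 c622 c623 c2695 c2605 c1955 c2296 c2284 (k8 c2269 c2268 c13949 c4461 c4241 c2293 c575 c12219 (k8 c2270 c4993 c617 c535 c7033 c14254 c10933 c837 (k8 c835 c833 c12253 c7030 c9141 c4558 c7312 c14390 (k8 c4200 c13509 c13396 c14212 c2275 c14307 c300 c7856 k0))))))) (by decide +kernel)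
def c14407 : PP 8 4 T 0x1000000001001000080000000010000000100000004000080000082000140004000802 := rS 0x5ed10c214c053484161aaf638a4a2971f99426074f91c4eb108adc92a335974c6694799c2ab3559b552314e870421f118cc2e41 (k8 c91 c573 c951 c4372 c274 c9668 c567 c14354 (k8 c14397 c6029 c5814 c14076 c2642 c327 c4555 c760 (k8 c2723 c2722 c752 c2540 c11410 c4281 c1742 c4276 (k8 c622 c4278 c8078 c11776 c83 c1679 c7854 c145 (k8 c11783 c1685 c14267 c14266 c5815 c4200 c14262 c4486 (k4 c9747 c888 c712 c14345 (k2 c2254 c1870 (k1 c2112 k0)))))))) (by decide +kernel)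
def c14408 : PP 8 4 T 0x1001000000080140015501001500000008154000000082001000004000802 := rS 0x1dd14c542a1d12d11b15632513d8cc2e414c8842ab3 (k8 c2642 c327 c9668 c1927 c91 c573 c951 c702 (k8 c1685 c4446 c2250 c330 c2301 c7030 c9141 c3475 (k4 c1782 c8137 c10356 c7804 k0))) (by decide +kernel)
def c14409 : PP 8 4 T 0x1000000001001000000000000000000000100000000000084000000000040004000800 := rS 0x70dd147d44ae1a2873f9558ac14a1cc50c75dc314e917e9b952a55599c62154ea3cd2634c97466b30e08400052fc642e418bab4761f32a7c8e4b0889c920d5e93484a311b485a03098f00e7b (k8 c702 c83 c14396 c1679 c303 c7822 c14406 c4372 (k8 c11410 c14339 c4282 c2014 c4371 c4281 c4278 c4276 (k8 c4375 c8078 c11776 c7854 c274 c89 c7821 c4416 (k8 c91 c573 c4446 c577 c575 c4461 c9668 c567 (k8 c2642 c951 c752 c1927 c2722 c2723 c760 c14354 (k8 c327 c14397 c4555 c14076 c5936 c6029 c14407 c4378 (k8 c1075 c4500 c4486 c4847 c14408 c4200 c3558 c1680 (k8 c8013 c3723 c1598 c1460 c7043 c341 c11400 c7030 (k4 c7516 c8137 c1471 c12266 (k1 c304 k0)))))))))) (by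 decide +kernel)
def c14410 : PP 8 4 T 0x1000000001001000000000000000000000100000000000004000000000040004000800 := rS 0x14e33178653a2548810406f2c16cf6410387c780d5e935a442 (k8 c14339 c14406 c4282 c2014 c4371 c14396 c274 c83 (k8 c91 c702 c14409 c4476 c1107 c535 c534 c14216 (k4 c7033 c1234 c2257 c837 (k2 c2293 c4500 (k1 c14394 k0))))) (by decide +kernel)
def c14411 : PP 8 4 T 0x1000000001001000000000000000000000100000000000004000000000040000000800 := rS 0xd0632bd22291789556201996d3a6d4c804d679189e8a7090c869462313b493ead1684ca21f238ec7841229080e03 (k8 c303 c83 c14339 c175 c91 c14396 c89 c8078 (k8 c274 c1685 c1679 c7822 c7821 c11776 c14406 c4278 (k8 c4372 c11410 c14410 c171 c4316 c2287 c335 c7896 (k8 c599 c2530 c2686 c1926 c7462 c7784 c704 c337 (k8 c6841 c14076 c313 c837 c835 c886 c5815 c14284 (k2 c2112 c2301 k0)))))) (by decide +kernel)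
def c14412 : PP 8 4 T 0x2000000000000000000000000000000000000000100000000500001501500000000000000000000000 := rS 0xa7 (k2 c4453 c9368 k0) (by decide +kernel)
def c14413 : PP 8 4 T 0x1000000084004004001150000000000000000020000000140020000000 := rS 0x15a9b608bd8aaf29329263f (k8 c1179 c1030 c413 c412 c8140 c1756 c3924 c1983 (k2 c764 c4554 (k1 c2127 k0))) (by decide +kernel)
def c14414 : PP 8 4 T 0x1001000040004005100001101500000005000080044001001040000415802 := rS 0x4fa861a75141260a145ca8d8e252651506fc30a05665f2e9acca632a89d2a93348fd2e2d0e2ad4a33 (k8 c951 c5936 c14076 c567 c2920 c14360 c1179 c2723 (k8 c1030 c763 c871 c306 c755 c2539 c2540 c840 (k8 c577 c663 c12056 c12807 c4463 c4570 c14412 c4474 (k8 c284 c14413 c4241 c11342 c11475 c4308 c11517 c647 (k4 c2570 c12333 c4212 c1571 (k1 c5931 k0)))))) (by decide +kernel)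
def c14415 : PP 8 4 T 0x80000000000000000000000000000000000000000000020002 := rS 0x19014 (k2 c406 c407 (k1 c2609 k0)) (by decide +kernel)
def c14416 : PP 8 4 T 0x1001000050004005000001001500000000000080004001141040044421802 := rS 0xc5891e43109453050e893a9442aad3384c90a023d0d72a363a7e1a22301fdfa7b599acca632a89d2a93348fd2e2d0e1b55633 (k8 c951 c14076 c5814 c567 c2920 c14360 c1179 c2723 (k8 c1030 c763 c871 c306 c755 c2539 c2540 c663 (k8 c702 c4300 c2651 c606 c607 c4326 c1300 c14415 (k8 c4241 c11342 c11164 c12297 c7454 c4473 c611 c2738 (k8 c2740 c367 c1725 c11468 c7030 c9141 c14373 c8137 (k4 c4322 c5853 c604 c4479 (k2 c12747 c9627 k0))))))) (by decide +kernel)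
def c14417 : PP 8 4 T 0x1001000040000005100000001500000000000080004081140040004001814 := rS 0xde11368c53a991987042000f8242e410793da2c3 (k8 c2055 c340 c338 c304 c91 c573 c13906 c270 (k8 c4461 c9668 c567 c951 c1927 c14354 c14397 c5814 (k2 c14416 c10992 (k1 c14414 k0)))) (by decide +kernel)
def c14418 : PP 8 4 T 0x40000000051120000020100001500500000000000004000414000 := rS 0x20cc34b (k4 c4457 c12807 c4570 c7527 k0) (by decide +kernel)
def c14419 : PP 8 4 T 0x1001000040000000000000000100000000000014000001000040004000800 := rS 0xc0fd08435409f8841510af4ac59723f60aac769340a1d16a935a94a26956c4cca993186534304e8b46a97109b44e1e3384c085d2f9688a030b905628f1ca456eb525aec1e37069c6287b68908aab3 (k8 c663 c306 c14339 c340 c702 c14411 c4387 c568 (k8 c4386 c304 c4390 c1954 c4389 c4353 c4352 c4348 (k8 c4388 c4350 c91 c573 c303 c175 c4476 c577 (k8 c840 c14417 c12274 c655 c575 c351 c694 c311 (k8 c928 c1099 c2359 c1232 c276 c277 c2201 c12307 (k8 c1927 c7854 c4441 c2047 c1878 c3874 c1971 c1969 (k8 c866 c5853 c13785 c6395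 c14375 c1101 c1973 c14373 (k8 c405 c7514 c4471 c4418 c868 c11210 c4314 c4794 (k4 c6233 c11255 c4329 c14418 (k2 c4300 c12577 (k1 c11260 k0))))))))))) (by decide +kernel)
def c14420 : PP 8 4 T 0x400000000001000010004005400014401544000500000021100000000140004400900 := rS 0x3051215629cd4665499bc26974e9ec3e5b0c8800879 (k8 c541 c534 c535 c2257 c93 c271 c702 c1234 (k8 c1195 c2496 c1107 c11351 c7854 c9384 c1109 c7718 (k4 c12339 c7030 c4687 c2123 k0))) (by decide +kernel)
def c14421 : PP 8 4 T 0x1001000040000000000000000100000000000004000001002040004000800 := rS 0x1827d39a24c69532444589f50c304e10a2a94a2825f9e54e9856a6e260901ac472915baf56a4f1bb458655599bcc2674e9ec3e5b1288d1e751f9dd161342834e28125aee28878406440042c05c8242 (k8 c14339 c91 c573 c14419 c534 c535 c2257 c4465 (k8 c4440 c14411 c4390 c1954 c6395 c4387 c568 c6224 (k8 c2496 c5853 c1886 c2367 c11468 c4388 c832 c313 (k8 c93 c271 c702 c1234 c2638 c617 c1107 c663 (k8 c306 c2055 c340 c4386 c338 c4389 c4354 c4353 (k8 c4352 c4348 c4350 c303 c13906 c4441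 c1967 c2047 (k8 c317 c2007 c541 c5760 c6745 c3840 c9930 c4452 (k8 c8514 c357 c7312 c4329 c4384 c14420 c4332 c391 (k4 c855 c814 c4794 c1649 (k2 c1650 c1933 (k1 c8512 k0))))))))))) (by decide +kernel)
def c14422 : PP 8 4 T 0x1000000040000000001100000000000001401000044000000401005415024 := rS 0xa72f931065d139a50a81 (k8 c6395 c6224 c13396 c350 c12183 c4570 c2108 c14382 (k2 c4558 c8722 k0)) (by decide +kernel)
def c14423 : PP 8 4 T 0x2020000000001000000000000400000040100000104000000000000000140240240120 := rS 0xa332a4d1e915bad5429f (k8 c4384 c4329 c4389 c4353 c4352 c4388 c11351 c7854 (k2 c9384 c12339 k0)) (by decide +kernel)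
def c14424 : PP 8 4 T 0x1001000040000000400000040145005104001004000000001044240260820 := rS 0xcfa1c5990893e9ccc82c4fc30be098c85c82b15b834e2251f88d1f143b8648505 (k8 c4308 c14339 c2257 c1886 c14411 c4388 c832 c2367 (k8 c313 c4387 c568 c4353 c4350 c91 c573 c4446 (k8 c13906 c14382 c7312 c4384 c14423 c391 c1649 c1650 (k4 c13996 c9061 c7660 c4422 (k2 c1792 c9154 k0))))) (by decide +kernel)
def c14425 : PP 8 4 T 0x2000000000001000041000000444000040100000000000000000081001148240240125 := rS 0x148905114b052b1656a8cca9348b447e2f208ce0b0d (k8 c4324 c4308 c2293 c91 c837 c2367 c340 c4352 (k8 c11351 c7854 c9384 c4554 c6198 c7133 c4420 c834 (k4 c1956 c13105 c2112 c373 k0))) (by decide +kernel)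
def c14426 : PP 8 4 T 0x1001000040000000000000000100000000000004000001000040004000800 := rS 0x1467d39924c664888b19abe41b24bc26082e60aaf3c851531252aacd63143a050a8b841a4ea33118bc323f1287d2e1300810ce20309bcda5b2c2ccaa090380c2e4147ad496bb0793c6e42069c6287b (k8 c702 c14411 c4387 c568 c14339 c4386 c338 c304 (k8 c4390 c1954 c4389 c4388 c91 c573 c303 c83 (k8 c13906 c306 c663 c14419 c93 c4993 c1107 c617 (k8 c535 c2638 c534 c486 c2496 c1195 c271 c313 (k8 c2367 c2257 c837 c832 c2293 c11468 c13396 c4465 (k8 c5853 c6224 c6395 c4440 c14421 c6097 c14076 c5936 (k8 c4469 c6029 c14212 c540 c4346 c4308 c4548 c14422 (k8 c14424 c351 c2510 c548 c7055 c1485 c14425 c4332 (k4 c391 c814 c2330 c1649 (k2 c9990 c935 (k1 c11734 k0))))))))))) (by decide +kernel)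
def c14427 : PP 8 4 T 0x1000000000000000000000000000000000000080000080002000044000804 := rS 0x4e070420002906329b (k8 c1967 c4446 c91 c575 c4461 c9668 c567 c5755 (k1 c14354 k0)) (by decide +kernel)
def c14428 : PP 8 4 T 0x1001000040000000000000000100000000000004000000002040004000800 := rS 0x1fc288929b34914513a094a8740a15167753afcab081488c32253ca74082037960b69b68c4c2e8f1c92d760f27834e27b1d87ca2412127c8ea31680c2607638f06f14 (k8 c14411 c4386 c14426 c330 c83 c1679 c303 c7822 (k8 c4241 c8078 c11776 c14339 c91 c1685 c274 c89 (k8 c702 c4387 c568 c338 c304 c4390 c1954 c4348 (k8 c4388 c573 c4441 c300 c1967 c14427 c4476 c1107 (k8 c535 c534 c1234 c541 c313 c2257 c832 c835 (k8 c9983 c12210 c5760 c2007 c1886 c5853 c6224 c6395 (k8 c13785 c9930 c7040 c357 c4452 c11448 c7980 c373 (k4 c4742 c2109 c676 c367 k0)))))))) (by decide +kernel)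
def c14429 : PP 8 4 T 0x2001000000040000000000000000001000000100400000000005405000400000 := rS 0xa6 (k2 c14380 c4558 k0) (by decide +kernel)
def c14430 : PP 8 4 T 0x400000000002000002001000000040000000414044044100500004555510100080005005025441000 := rS 0x67a54e68857b354ca961a685c8742a2d6291265154a6d25aec9e37 (k8 c4386 c338 c4390 c1954 c5814 c5936 c14412 c4474 (k8 c4352 c4350 c5853 c6224 c13785 c14429 c1952 c3965 (k8 c787 c1992 c3973 c2732 c11533 c12946 c12948 c13177 (k1 c6175 k0)))) (by decide +kernel)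
def c14431 : PP 8 4 T 0x2000000001001000040040000410044044100000000554510100480005044024050800 := rS 0x9b5f8bcec1812d0c9848a29f506fc3798502090b9041e4f1b834e26d55a9496bb (k8 c4390 c1954 c5936 c14076 c5814 c4387 c568 c4386 (k8 c338 c304 c91 c573 c13906 c12056 c12807 c10992 (k8 c4463 c4570 c4379 c14412 c9172 c4474 c4421 c282 (k4 c14430 c309 c1870 c1093 (k2 c1888 c13817 k0))))) (by decide +kernel)
def c14432 : PP 8 4 T 0x200001000000000000000014000000010000000554000000082005000005040002 := rS 0x620a1a08745944826d (k8 c5814 c91 c1685 c5853 c13785 c8137 c5842 c341 (k1 c3723 k0)) (by decide +kernel)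
def c14433 : PP 8 4 T 0x140001101101501000000100000000000000000002020800 := rS 0x2990076 (k4 c309 c349 c10356 c1896 k0) (by decide +kernel)
def c14434 : PP 8 4 T 0x1001000000000000014000000000000000554001000082001000005540002 := rS 0x4111233 (k4 c951 c7030 c4464 c14432 k0) (by decide +kernel)
def c14435 : PP 8 4 T 0x1001000040000000000000000100000000000014000000000040004000800 := rS 0x142955c8a4eb052a065530d42888c07f0819d4aab368553a693189c66b30e000d6052e97cb4090ba3d22b75e92d760d38a4ca241568ec3e971fa7c8e65518b4061303b1c78378a2646242 (k8 c14339 c14428 c1926 c14411 c4386 c14426 c330 c83 (k8 c1679 c303 c7822 c4241 c7854 c8078 c11776 c145 (k8 c11783 c274 c89 c7821 c91 c1685 c1654 c4387 (k8 c568 c4390 c1954 c4354 c4353 c4352 c4388 c573 (k8 c13906 c4476 c577 c840 c575 c581 c4461 c567 (k8 c2642 c951 c871 c2722 c2723 c14354 c327 c5814 (k8 c14076 c5936 c4555 c14431 c2651 c606 c607 c2691 (k8 c4326 c976 c14433 c14434 c4406 c1687 c1598 c5280 (k2 c5073 c770 (k1 c5931 k0)))))))))) (by decide +kernel)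
def c14436 : PP 8 4 T 0x40000000000006800000000000000050051000000044500100000000000000000400000555400000000 := rS 0xce242fa18a7 (k4 c4558 c4467 c13260 c4200 (k2 c4572 c1790 k0)) (by decide +kernel)
def c14437 : PP 8 4 T 0x1001000040000000000000000100000000000004000000000040004000800 := rS 0x50c92b8672f9065e1326d82c2a59498ab2689e428ab35abe248734a1502332a8a4462f0c894ee0433880de6d2c26462a34fb1d5a2d099443e478b8fc763c3d82632070185c82425dac51e375e834e314 (k8 c14411 c4387 c568 c4354 c4386 c4388 c4350 c4390 (k8 c14339 c91 c573 c303 c83 c4446 c13906 c702 (k8 c14426 c89 c145 c4416 c8078 c274 c1685 c1679 (k8 c7822 c7821 c330 c11776 c4241 c14428 c1926 c14435 (k8 c4993 c1107 c535 c2638 c534 c1111 c313 c2257 (k8 c837 c832 c835 c12210 c2293 c7000 c13580 c13396 (k8 c13785 c4469 c5815 c6097 c14076 c14212 c540 c2299 (k8 c327 c1782 c2112 c4456 c333 c1983 c2058 c14436 (k8 c351 c548 c7055 c5956 c1215 c1790 c4394 c4473 k0))))))))) (by decide +kernel)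
def c14438 : PP 8 4 T 0x800000001001000010000000000000000000000001500001000000000140008140024 := rS 0x116872998c3265 (k4 c7854 c171 c12253 c414 (k2 c7313 c13932 (k1 c13999 k0))) (by decide +kernel)
def c14439 : PP 8 4 T 0x2000000000001000040000000444000000100000044000000000081005140208240120 := rS 0x299449029133052b0d8b2444a2347b44ea3f4ba4c3e65568bc82a3 (k8 c9384 c91 c837 c4554 c7854 c2208 c11351 c927 (k8 c2371 c11468 c340 c4388 c832 c313 c4352 c7660 (k8 c14423 c7133 c4420 c4467 c834 c13105 c1956 c2335 (k1 c2112 k0)))) (by decide +kernel)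
def c14440 : PP 8 4 T 0x2000000000001000040000000444000000100000000040020000081005140218045124 := rS 0xc6081f4ff0431854e6a332a4d629138ad4aa1f379844a23479d47e97 (k8 c927 c2371 c11468 c4388 c832 c313 c617 c1107 (k8 c2208 c2292 c4389 c4387 c4352 c4350 c11351 c7854 (k8 c9384 c1109 c14439 c12253 c4464 c7517 c4409 c12279 (k2 c11343 c406 k0)))) (by decide +kernel)
def c14441 : PP 8 4 T 0x40000004501100000000010104020004044000005405408201000 := rS 0x18c4c6429cbf05 (k4 c4308 c14382 c4558 c9061 (k2 c2111 c631 (k1 c2379 k0))) (by decide +kernel)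
def c14442 : PP 8 4 T 0x2000000000001000040000000005100000100000000000004000081001040008000900 := rS 0x192a32f098fa735c85092634a992222c4b9d566b15bad496bb0793c6e0d388fc26672a9bc3a5803894468f57c485e202d810061f209b4021919a74f2454cc24d67a (k8 c335 c2530 c4316 c1926 c175 c599 c7784 c337 (k8 c171 c2686 c7462 c91 c2208 c303 c4461 c575 (k8 c6841 c837 c9768 c4346 c4388 c832 c313 c83 (k8 c4476 c1025 c1107 c2292 c13949 c2687 c2371 c4387 (k8 c568 c4386 c338 c304 c4390 c1954 c4389 c4353 (k8 c4350 c663 c11468 c927 c14440 c4332 c391 c855 (k8 c814 c2330 c390 c6781 c1649 c9990 c14441 c351 (k2 c935 c2510 (k1 c11734 k0))))))))) (by decide +kernel)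
def c14443 : PP 8 4 T 0x1001000040000000000000000100000000000004000000000040000000800 := rS 0xbac886ae5fa104a9f4ff0431acd82c40ad2cead061a8d2e654f8a4e653568b4a293238ec78af54c48462f12874c26f101614aab2d8ccda0433a753201099ad06791887cf4551fc24321a049048b190380d628f48add6a4b5d83c9e3721034e314 (k8 c14411 c4387 c568 c14339 c4386 c338 c304 c4390 (k8 c1954 c4389 c4353 c4352 c4388 c4350 c303 c83 (k8 c4446 c175 c91 c13906 c14437 c171 c4316 c2371 (k8 c2292 c335 c2208 c7896 c599 c639 c2530 c2687 (k8 c2686 c1926 c7784 c13949 c4461 c7462 c337 c575 (k8 c14076 c5936 c4476 c6841 c1107 c617 c1025 c313 (k8 c837 c832 c9768 c6029 c4346 c14442 c89 c8078 (k8 c1654 c1685 c7822 c7821 c2287 c1614 c1681 c11776 (k8 c7854 c11783 c9384 c2054 c2112 c538 c4426 c2299 (k8 c341 c1711 c662 c12253 c4464 c7517 c7516 c1786 (k4 c12279 c4300 c13387 c13189 (k2 c8522 c11966 (k1 c7308 k0))))))))))))) (by decide +kernel)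
def c14444 : PP 8 4 T 0x1000000000000000000000000000000000000004000080002000004000810 := rS 0x2d07cb203 (k4 c303 c534 c270 c4476 (k1 c14427 k0)) (by decide +kernel)
def c14445 : PP 8 4 T 0x2400000000000000000000400000520000001105404000020000000000000000000000 := rS 0xa986aed628f (k4 c4388 c4350 c4390 c4329 (k2 c7768 c9957 k0)) (by decide +kernel)
def c14446 : PP 8 4 T 0x400000000001000010004005400010401544000500000021100400000140004400900 := rS 0x9f (k2 c11776 c14420 k0) (by decide +kernel)
def c14447 : PP 8 4 T 0x1000000000005000010401540000000000024000481002040004000920 := rS 0x458e6aa0a190587559b0c2e4189b44aa1333a747e7743c20f2193d9453020 (k8 c535 c317 c3840 c702 c2257 c541 c9983 c4440 (k8 c1886 c2367 c1234 c655 c12274 c12210 c300 c4441 (k8 c91 c573 c2055 c663 c11468 c14446 c391 c390 (k4 c397 c1649 c7660 c11176 k0)))) (by decide +kernel)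
def c14448 : PP 8 4 T 0x1001000000000000000000000100000000000004000000002040044000800 := rS 0x13ea3168f142a5412050a8b3bafc32253ca743a2037960b69b0481c061720a3d22b75a92d760f278dc1a718a11cf7135393426610210822d2 (k8 c14443 c4276 c14339 c14444 c614 c12274 c4282 c2006 (k8 c4441 c702 c4374 c14411 c4387 c568 c4386 c338 (k8 c304 c4390 c1954 c4389 c4353 c4352 c4388 c91 (k8 c573 c303 c83 c13906 c1967 c14427 c4476 c1107 (k8 c535 c1025 c1234 c541 c313 c2257 c5760 c1886 (k8 c5853 c6224 c6395 c6153 c1937 c14445 c14447 c7822 (k2 c9384 c11776 (k1 c11072 k0)))))))) (by decide +kernel)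
def c14449 : PP 8 4 T 0x1001000000000000000000000100000000000004000000002040004000800 := rS 0x2522cb91fb0542ab1dbf52687429a4a26b2fa7d466559a64c6194d274b42d4b8f4421e309b4ce132a8115ad1899142e4147a456eb5278dc840d38c5022231a91da47b (k8 c702 c14443 c4374 c4373 c4372 c4276 c14411 c4387 (k8 c568 c14339 c4386 c338 c4389 c4353 c4352 c4388 (k8 c91 c573 c175 c4441 c300 c2047 c14444 c12210 (k8 c12274 c655 c694 c614 c14448 c86 c274 c1194 (k8 c2359 c271 c1232 c277 c2201 c12307 c1927 c663 (k8 c7854 c11410 c11776 c577 c581 c3874 c13396 c6224 (k8 c10041 c14375 c8510 c1101 c1973 c11524 c14373 c405 (k4 c7514 c4471 c2125 c4418 k0)))))))) (by decide +kernel)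
def c14450 : PP 8 4 T 0x400000000000000000001001000010000005000044055500810000004000010000000000000600002 := rS 0x14994883f3260afd (k8 c4306 c4308 c2609 c10617 c8144 c677 c4742 c2022 k0) (by decide +kernel)
def c14451 : PP 8 4 T 0x1001000090000005000020055500000000114001040000001140005444002 := rS 0x19aac4499c2a874122e104d558cd46234f91e867d (k8 c1624 c4423 c4374 c11776 c4372 c11410 c951 c14076 (k8 c4282 c4465 c5853 c6153 c4440 c14450 c4555 c7030 (k2 c8137 c2064 (k1 c901 k0)))) (by decide +kernel)
def c14452 : PP 8 4 T 0x400000000000000000000000000004020004010800000000000000000000000000000000000000000 := rS 0x19b45 (k2 c4453 c2066 (k1 c12768 k0)) (by decide +kernel)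
def c14453 : PP 8 4 T 0x1001000090004005000000001500000000000080040011001040004044802 := rS 0x1443d2d88c117c48f27644c2430750485cf665319a4aaa05c8fc6a9f23a552ea31688d261c (k8 c567 c1030 c4372 c2920 c11410 c14360 c763 c4374 (k8 c11776 c4373 c1179 c7514 c2125 c306 c2723 c2722 (k8 c2539 c702 c573 c13906 c11468 c14451 c4436 c7474 (k8 c309 c1959 c5907 c1870 c1893 c13000 c4429 c1635 (k2 c12747 c7785 k0))))) (by decide +kernel)
def c14454 : PP 8 4 T 0x1001000080000005000000001500000000000080040081001040004004802 := rS 0x628be247984b0430ad43c5c7467449d02a124ab0da2093d9accab331a4cd29d558cc2e411fa5c5a1c (k8 c567 c2920 c14360 c1179 c91 c573 c951 c14076 (k8 c14354 c2723 c1030 c2722 c2642 c2539 c2540 c702 (k8 c13906 c340 c2055 c763 c14453 c140 c570 c2546 (k8 c2544 c571 c4417 c3522 c4809 c14188 c14373 c4436 (k4 c1959 c5907 c1870 c12747 (k1 c13000 k0)))))) (by decide +kernel)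
def c14455 : PP 8 4 T 0x2000000001001000080000000410000044100000000514000000082001140005444002 := rS 0x342868867b361aaf61a5592293a94e0b452a21d048b04a3d22b72789c926d558cd46234f91ca241638dcce15 (k8 c327 c4555 c4386 c330 c91 c1685 c4374 c11776 (k8 c4372 c11410 c951 c14076 c5814 c4281 c4278 c338 (k8 c4353 c4352 c4388 c13906 c5853 c6153 c13785 c14434 (k8 c4452 c4406 c9029 c1687 c1598 c1727 c5073 c2054 (k8 c5815 c4200 c2065 c13177 c6907 c11164 c4742 c5846 k0))))) (by decide +kernel)
def c14456 : PP 8 4 T 0x10000000001001000090000140414101101510004000554001100002045000004005042 := rS 0x8a609f4fe8723aa44615 (k8 c327 c4372 c6029 c4374 c9141 c7517 c7516 c14373 (k2 c8137 c12266 k0)) (by decide +kernel)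
def c14457 : PP 8 4 T 0x1001000000000000000000000100000000000004000000000040004000810 := rS 0x4322c5253829515e2f893451218338555a13288ec789752aacda9d169a5266319accca1c3596800598c81c061720a3d22b75ead496bb0793c6e0d38c51a47b0fa646242 (k8 c14339 c14449 c1926 c276 c702 c14443 c14411 c4387 (k8 c568 c4386 c338 c304 c4390 c1954 c4389 c4354 (k8 c4353 c4352 c4388 c91 c573 c303 c83 c4446 (k8 c534 c4461 c4476 c2540 c567 c2539 c2642 c951 (k8 c2722 c1030 c2723 c2920 c14354 c5814 c14076 c5936 (k8 c14360 c14454 c89 c1685 c1679 c7821 c327 c4555 (k8 c14455 c7474 c2254 c5907 c1870 c4346 c14456 c4406 (k4 c9029 c1598 c1766 c6907 (k1 c7441 k0))))))))) (by decide +kernel)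
def c14458 : PP 8 4 T 0x1001000000000000000000000100000000000004000000000040004000800 := rS 0x4aa72fbf45e8234aa54a5b3086466040f8c40e172092d760f278de28420889c46d2 (k8 c14443 c4372 c4278 c4276 c14339 c14411 c4386 c338 (k8 c304 c4390 c1954 c91 c573 c83 c14449 c276 (k8 c14457 c2293 c268 c614 c575 c5936 c6029 c13396 (k4 c6153 c6259 c4306 c6467 (k2 c4532 c11222 (k1 c6996 k0)))))) (by decide +kernel)
def c14459 : PP 8 4 T 0x2000000000001000080000000004800000100000000000020000081001140008000920 := rS 0xa48b289f9827d14c594095828519ac939ab53ea332a4d628f48adce2b50791caa1f309be1a5d4193c6eaf890bc826d0086466d159a5c405b4e9e48a99849ad72353a8fc267a (k8 c335 c2687 c2371 c11468 c4373 c7514 c2530 c4316 (k8 c1926 c175 c599 c7784 c2688 c6841 c927 c663 (k8 c340 c337 c171 c2686 c7462 c91 c837 c9768 (k8 c4346 c4386 c338 c639 c813 c4330 c1107 c5402 (k8 c2208 c2292 c4374 c304 c4389 c4387 c4353 c4352 (k8 c4388 c4350 c11351 c7854 c9384 c11776 c4554 c1109 (k8 c7308 c2066 c12410 c9531 c11125 c12339 c7660 c834 (k4 c1625 c4420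 c5124 c1956 (k2 c725 c2112 (k1 c415 k0)))))))))) (by decide +kernel)
def c14460 : PP 8 4 T 0x2000000000001000080000000004800000100000000000004000081001040008000900 := rS 0x146c9829f50e730a18cc911161d572b35a8446b091fa2426672a9bcb05b02004067a2ea0c9e37 (k8 c4386 c338 c639 c813 c335 c303 c2686 c4461 (k8 c2688 c4476 c1107 c2292 c13949 c2687 c2664 c2371 (k8 c4316 c4373 c4276 c4389 c663 c7514 c11468 c14459 (k8 c4332 c391 c814 c390 c1649 c1652 c1651 c4308 (k2 c630 c6667 (k1 c11734 k0)))))) (by decide +kernel)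
def c14461 : PP 8 4 T 0x1001000000000000000000000100000000000004000000000040000000800 := rS 0x67d0da0a066a7d462929b1d5a2d288ec78afa2c494c2f12874405854a95565b199b4089d4c804266b3c8c43e7a8486434471193492276913c96375dc500607049048a42 (k8 c14339 c175 c91 c13906 c83 c303 c14411 c4390 (k8 c4386 c1954 c338 c14443 c4278 c4281 c4282 c4372 (k8 c4374 c14458 c171 c4316 c335 c2208 c7896 c599 (k8 c2530 c2687 c2686 c1926 c7784 c4461 c7462 c337 (k8 c2688 c14076 c5936 c6029 c4476 c6841 c1025 c313 (k8 c837 c2111 c9768 c4453 c4346 c14460 c89 c1685 (k8 c7822 c7821 c330 c2287 c1681 c9384 c11776 c2066 (k4 c11118 c2112 c4423 c1794 (k1 c5846 k0))))))))) (by decide +kernel)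
def c14462 : PP 8 4 T 0x1000000000000000040000000000000000100000000000020000080002000010000494 := rS 0x3625a049e391abf10a19388443c001086cdb130b9e45e69 (k8 c1879 c61 c7034 c1950 c4441 c4993 c334 c12555 (k8 c4461 c4466 c2592 c2431 c9671 c5976 c8563 c1099 (k4 c8383 c2209 c4380 c1955 (k2 c4470 c8569 k0)))) (by decide +kernel)
def c14463 : PP 8 4 T 0x100000000000002000010000108 := rS 0x421f (k2 c222 c6830 (k1 c4466 k0)) (by decide +kernel)
def c14464 : PP 8 4 T 0x1000000000000008000000000000000000000100000000140000000000 := rS 0x5311 (k2 c4415 c1572 (k1 c4468 k0)) (by decide +kernel)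
def c14465 : PP 8 4 T 0x1000000000000000000000000000000000004000080002040000000510 := rS 0x95570f5566344a1ca304841ecce9a16a2cd69d328543c001080cd21d8c9dc7e6d89ab42e7917960b606 (k8 c4462 c12637 c4476 c61 c7034 c1950 c2047 c4441 (k8 c4993 c11031 c1887 c4446 c10867 c1879 c14463 c12555 (k8 c4461 c4466 c2630 c491 c4733 c492 c13524 c2361 (k8 c277 c4555 c4055 c7393 c8579 c3874 c4440 c4314 (k4 c4407 c14464 c274 c13198 (k2 c9517 c868 k0)))))) (by decide +kernel)
def c14466 : PP 8 4 T 0x1001000000000000000000000000000000000004000080002040000000500 := rS 0x84864f4694e07c42010205cf22f0306cb05b (k8 c12637 c4476 c334 c4462 c61 c7034 c1950 c14465 (k8 c54 c310 c1098 c14397 c824 c1234 c269 c4320 (k1 c4465 k0))) (by decide +kernel)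
def c14467 : PP 8 4 T 0x1000000001000000040000000000000000000000014100420000080005405005410000 := rS 0x4f2588c9abf072c1fa853dc20021f54a9624a7 (k8 c4558 c4469 c4444 c4345 c276 c487 c4465 c4320 (k8 c4321 c14380 c4480 c12381 c1242 c244 c1328 c1334 (k2 c339 c2111 k0))) (by decide +kernel)
def c14468 : PP 8 4 T 0x1000000000000000040000000201100000000008004000420040100005405002000009 := rS 0x98852588c1c3506bf422a7 (k8 c4558 c342 c4304 c4865 c1034 c12381 c793 c1875 (k2 c1495 c2111 (k1 c12355 k0))) (by decide +kernel)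
def c14469 : PP 8 4 T 0x1000000000001000040000000001100005100008010000020040101105551012000509 := rS 0xc47f2a84d8eb51a0dc984b11a04babd7e2c4e65f5389d42b9598552a3f4b984ce6f031d4cb10 (k8 c4468 c4412 c538 c4462 c1107 c918 c617 c11617 (k8 c11031 c9517 c382 c11612 c14038 c4551 c12391 c4558 (k8 c14101 c14048 c14468 c4480 c1171 c4377 c4380 c792 (k8 c1874 c2111 c325 c4470 c7883 c1451 c12026 c14091 (k2 c12366 c11451 (k1 c11648 k0)))))) (by decide +kernel)
def c14470 : PP 8 4 T 0x1000000000001000040000000001100001100001010000020000081001140012000508 := rS 0x2c17a84071349c7a849163277378cc022f1496c722712881261f (k8 c276 c11351 c4466 c313 c12391 c360 c12637 c12392 (k8 c1953 c487 c6257 c1107 c1887 c4446 c175 c4436 (k8 c4482 c14469 c177 c258 c259 c2014 c10635 c715 k0))) (by decide +kernel)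
def c14471 : PP 8 4 T 0x1000000001000000040000000000000000000000014000420000080005405005410000 := rS 0x69 (k2 c13396 c14467 k0) (by decide +kernel)
def c14472 : PP 8 4 T 0x1000000000001000040000000045100001100001010000020000080001140012000508 := rS 0x31512d05914e0a54639462e3c3a99620a3338555a41398186601178a4b65f13894401f (k8 c276 c4466 c313 c12391 c14101 c12637 c12392 c1953 (k8 c487 c6257 c4462 c14048 c91 c4554 c382 c918 (k8 c9384 c4468 c4412 c538 c14470 c4416 c1685 c14293 (k8 c14300 c4406 c9029 c4481 c2112 c2038 c1251 c341 k0)))) (by decide +kernel)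
def c14473 : PP 8 4 T 0x1000000000000000000000000000000000000000004000000080080000000002000100 := rS 0xb05ea101c4d (k4 c177 c258 c259 c2014 (k2 c10635 c715 k0)) (by decide +kernel)
def c14474 : PP 8 4 T 0x1000000001001000040000000000000000100000000000004000000000040000000010 := rS 0x19d661531a4946b763ad51e345f27c6f455dc30984b11a05925d5ebf1624f5c9d542494a8f6222c3d42430a7088e44e5f22c6436771f9bce60655a5c2e79012a55ea5890bc660138960b691128803a1f1882c1242 (k8 c14339 c13906 c14461 c14466 c276 c10867 c4466 c313 (k8 c12700 c12637 c4476 c11634 c487 c6257 c1953 c4469 (k8 c4444 c4346 c4345 c4461 c9840 c1950 c11617 c14076 (k8 c4462 c14048 c1107 c11031 c1887 c334 c4446 c175 (k8 c14101 c12391 c360 c342 c4558 c14471 c4436 c4482 (k8 c14472 c4332 c329 c855 c368 c894 c11025 c6781 (k8 c14473 c14468 c4480 c1171 c4377 c4305 c4380 c792 (k8 c1874 c2111 c4467 c6931 c4451 c325 c4384 c4493 (k8 c4470 c1515 c7883 c1451 c1038 c12403 c12896 c1608 (k4 c383 c11612 c8996 c11717 k0)))))))))) (by decide +kernel)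
def c14475 : PP 8 4 T 0x10000000001001000050000040150000000000001404440020044410045150405500080 := rS 0x6344954a44ca2af90e853da0d030855844cb10 (k8 c4468 c4412 c608 c14076 c4465 c6395 c8514 c4320 (k8 c4321 c4440 c9037 c4399 c4474 c7129 c9029 c7030 (k2 c11648 c13198 k0))) (by decide +kernel)
def c14476 : PP 8 4 T 0x12000000000001000050004000045100051100000000000000044005005555400000000 := rS 0x30696cd5c14892a1264314eb556a7c8f10 (k8 c4468 c12069 c4414 c4554 c4389 c4558 c4467 c2111 (k8 c4329 c12404 c7129 c11255 c2063 c4456 c1983 c8268 k0)) (by decide +kernel)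
def c14477 : PP 8 4 T 0x2000000000001000040000000045140041100000154001000000081005551400100080 := rS 0x29414265164ae4905d86899669561b46323f0fadd6a4b5d845624f1bab4cb10 (k8 c4468 c4412 c4554 c4386 c338 c4350 c608 c4390 (k8 c1954 c4389 c4353 c276 c11031 c4446 c340 c2055 (k8 c9517 c11612 c14476 c4324 c807 c13105 c12440 c7308 (k4 c1725 c1718 c10837 c2112 (k1 c9747 k0))))) (by decide +kernel)
def c14478 : PP 8 4 T 0x2000000001001000040000000050040041100000010400020000480001150401000408 := rS 0x19e4c4ab0e8ac429af90a7b6820d030820c643677378cc025b0b9e496bb08ac40c09278dd261f0a99d3f10 (k8 c4468 c4414 c918 c382 c276 c11351 c4386 c338 (k8 c13906 c4462 c4350 c608 c4390 c1954 c9840 c1950 (k8 c12637 c487 c6257 c1107 c1887 c334 c4446 c91 (k8 c4465 c6395 c8514 c14475 c4320 c4321 c8882 c179 (k4 c341 c4399 c2054 c1786 (k2 c4474 c13177 (k1 c381 k0))))))) (by decide +kernel)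
def c14479 : PP 8 4 T 0x4000000000000000000000000054000000000000140000002100080005550002000000 := rS 0x18a89682c8a705 (k4 c4406 c9029 c4481 c2112 (k2 c2038 c1251 (k1 c341 k0))) (by decide +kernel)
def c14480 : PP 8 4 T 0x2000000001001000040000000000000041100000010000020000080001540200000408 := rS 0x309665282344aa7a84860265123c5c787532c41461556906327737984e606559e44a2954abcd6a5890cc021f2d824468f (k8 c4388 c832 c13906 c12637 c276 c487 c6257 c4469 (k8 c4444 c4442 c4346 c4345 c12392 c313 c9840 c14076 (k8 c4462 c14048 c617 c1107 c1887 c4446 c91 c4554 (k8 c382 c9384 c4468 c4412 c538 c14477 c4416 c8078 (k8 c1685 c1678 c14478 c4436 c4482 c14479 c260 c4464 (k4 c2112 c4312 c333 c1211 k0)))))) (by decide +kernel)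
def c14481 : PP 8 4 T 0x40000000000000000000000000000010200408 := rS 0xcc55 (k2 c141 c12394 (k1 c919 k0)) (by decide +kernel)
def c14482 : PP 8 4 T 0x2000000000000000040000000000101000101505415501100000000000405000000010 := rS 0x29cbebb (k4 c4390 c10439 c4558 c9322 k0) (by decide +kernel)
def c14483 : PP 8 4 T 0x2000000001001000040000010400101000100000540440004044000000601405500418 := rS 0x31cfca1511f4bd0d131741e4ca2af90a7b41a061069369bcc27938960b6915a845620604c44c655 (k8 c247 c815 c4332 c13906 c4462 c4350 c608 c4389 (k8 c12700 c12637 c4476 c11634 c9840 c617 c1107 c4993 (k8 c13396 c4465 c6395 c8514 c4320 c4321 c8882 c4399 (k8 c4474 c244 c12418 c14482 c4324 c11613 c1380 c11735 (k4 c161 c1465 c409 c12366 k0))))) (by decide +kernel)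
def c14484 : PP 8 4 T 0x2000000000001000040000000401100040100400154044004044000005605400000090 := rS 0xfcc807a7c98498629cbeb75a845623d5cc452a3f (k8 c11031 c855 c4332 c6781 c329 c4350 c608 c4389 (k8 c4353 c10439 c4558 c4467 c368 c2111 c4384 c245 (k2 c11717 c12419 (k1 c155 k0)))) (by decide +kernel)
def c14485 : PP 8 4 T 0x1001000040000000000000000100000000000004000000000040000000010 := rS 0x639f942a23e978ba0f86899067a84860aa675998d72754a8f6222c2788c224b5a8dd1eb15dc50e3193b8fcde6139819229d3686c4a200b9e5526b52c485e330aa5c04010f8c484582d8243a0b (k8 c14461 c10867 c13906 c12637 c4476 c14339 c14466 c276 (k8 c487 c4461 c11617 c14481 c6257 c1953 c4469 c4444 (k8 c4442 c4345 c9840 c1950 c4466 c313 c334 c4993 (k8 c4731 c12700 c4462 c14048 c617 c1107 c11031 c1887 (k8 c4446 c11634 c14474 c4390 c4350 c4388 c4386 c4389 (k8 c1954 c608 c832 c338 c14480 c4332 c329 c855 (k8 c11025 c6781 c815 c11612 c8996 c247 c14483 c4436 (k8 c4482 c642 c14484 c4324 c239 c807 c11613 c1380 (k4 c11735 c161 c1465 c409 (k1 c12366 k0))))))))))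 (by decide +kernel)
def c14486 : PP 8 4 T 0x1000000001000000080000000000000001100000004000000000080005401004400080 := rS 0x581edfb08348657c4e5397c12a952c484e235e934e20d (k8 c4371 c496 c4282 c2014 c4372 c4278 c4469 c4444 (k8 c4345 c13906 c14101 c4500 c6996 c339 c14473 c13396 (k4 c4465 c8052 c4320 c5772 (k1 c1242 k0)))) (by decide +kernel)
def c14487 : PP 8 4 T 0x1000000080000000000800000000000000001000040000001401005400000 := rS 0x2fbf5040f2e9a44f0d (k8 c4330 c4278 c13396 c812 c4046 c6153 c4306 c6467 (k1 c4532 k0)) (by decide +kernel)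
def c14488 : PP 8 4 T 0x10000000001000080000005144000000000000054001120000084045550002504000 := rS 0xf22cd02894ca8c93a99620ad (k8 c4554 c4468 c4412 c538 c7308 c12410 c9029 c1605 (k4 c2112 c14479 c340 c4416 k0)) (by decide +kernel)
def c14489 : PP 8 4 T 0x1001000000000000000000000100000000000004000000000040000000010 := rS 0x1905e2a99d66b93a98d2a3d888b01e5d0c4354c4f5aadc6eb18a1c41a27690554aaf5485c5225891e52e2017809221d0d8fcde613981956330087cb05b1882c8409 (k8 c13906 c14339 c14461 c14466 c12637 c4476 c276 c487 (k8 c6257 c14076 c4462 c14048 c617 c1107 c11031 c334 (k8 c10867 c12700 c4461 c1953 c4466 c11617 c9840 c4469 (k8 c313 c12392 c1950 c4345 c4346 c4444 c14481 c14485 (k8 c4278 c4371 c496 c14486 c4350 c4386 c4353 c4389 (k8 c338 c6996 c4330 c14487 c7642 c4046 c14488 c4332 (k8 c329 c855 c815 c11025 c6781 c11612 c8996 c247 (k2 c11613 c12410 (k1 c12444 k0))))))))) (by decide +kernel)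
def c14490 : PP 8 4 T 0x1000000001000000040000000000000001100000010000020000080005401025400080 := rS 0x176bf5ea3d60340829cbe27209bd329d359ed03084daa54b12 (k8 c4469 c4444 c4345 c764 c4465 c4439 c4320 c6097 (k8 c1235 c1926 c1107 c91 c872 c14101 c13601 c14471 (k4 c609 c608 c7008 c1039 (k2 c1242 c10310 (k1 c2126 k0))))) (by decide +kernel)
def c14491 : PP 8 4 T 0x400000000000000021000000000000200000000000000000000a0 := rS 0x8179601c (k4 c527 c1155 c1156 c10281 (k1 c2507 k0)) (by decide +kernel)
def c14492 : PP 8 4 T 0x1000000001000000040000000000000001100000010000020000080005400025404080 := rS 0xfc53891366134a16105f (k8 c14101 c4465 c4321 c13396 c617 c764 c14490 c13601 (k2 c11222 c14380 k0)) (by decide +kernel)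
def c14493 : PP 8 4 T 0x1000000000000000044044100000000000000000001000004100220480 := rS 0x1d325643f (k4 c11031 c7508 c2610 c649 (k1 c12290 k0)) (by decide +kernel)
def c14494 : PP 8 4 T 0x1000000001001000050000000044000011104000100540021010001000140124020404 := rS 0x92b9292ccc6154fa8e1865478d0da6f30a4c72274b8fc0c09 (k8 c13906 c4462 c11031 c11783 c872 c3153 c1030 c617 (k8 c1107 c4993 c609 c7008 c11461 c4486 c11931 c4384 (k4 c14493 c12253 c11612 c13513 (k2 c14038 c372 (k1 c11933 k0))))) (by decide +kernel)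
def c14495 : PP 8 4 T 0x40000000001500000001100001501400000000000000000414004 := rS 0x1065d (k2 c12183 c4570 (k1 c2119 k0)) (by decide +kernel)
def c14496 : PP 8 4 T 0x1000000001001000040000000044000011104000100540021010081000140120020404 := rS 0x1a21b (k2 c334 c340 (k1 c14494 k0)) (by decide +kernel)
def c14497 : PP 8 4 T 0x1000000001001000040000000000000000100000000000020000080001040000000420 := rS 0x151e28d1e1026a5d4e2d57aa57aa54d0b8be0f1f9b4c2735580c42672a9d4e2934a8e43869358cc021f2da050a878405cf21b0ca440c09 (k8 c13906 c4462 c14491 c268 c334 c2485 c1950 c4465 (k8 c4440 c4321 c4439 c12637 c276 c487 c6257 c6097 (k8 c13396 c527 c3153 c11432 c1030 c2483 c2484 c266 (k8 c655 c310 c55 c14076 c14048 c617 c4993 c11031 (k8 c14107 c14101 c14492 c1952 c3857 c3916 c2731 c2732 (k8 c2921 c4500 c11783 c1992 c14495 c7008 c11931 c14496 (k2 c326 c14305 k0))))))) (by decide +kernel)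
def c14498 : PP 8 4 T 0x10010000000001000040140005044004015504005400440021000004000544000402004 := rS 0x1951263098549047a1a8d5a97 (k8 c11783 c4554 c4241 c11164 c12297 c4473 c651 c1718 (k4 c12253 c7030 c7854 c13198 k0)) (by decide +kernel)
def c14499 : PP 8 4 T 0x2000000000a0 := rS 0x2864 (k2 c391 c390 (k1 c2516 k0)) (by decide +kernel)
def c14500 : PP 8 4 T 0x12000000001001000040000000000000015100001410000020044004005544004410020 := rS 0x27d8ec911434185e57aa54f123698556672a9a53a6b42a1d1eb75aa944a5d079328abe419bcf681840657603 (k8 c55 c4390 c268 c4465 c4439 c4320 c1107 c8514 (k8 c10474 c4399 c4474 c2192 c12183 c284 c5936 c4389 (k8 c4353 c4388 c4440 c4321 c6097 c1235 c13396 c266 (k8 c655 c14076 c617 c4993 c4469 c4558 c4345 c4346 (k8 c9322 c14422 c4382 c529 c2487 c3419 c1300 c14498 k0))))) (by decide +kernel)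
def c14501 : PP 8 4 T 0x1001000040000000000000000100000000000020000080001040000000420 := rS 0x128b94cfa3b0ab44a2892433c8f4351c353ec757b354c2261a685c4ca2af9064f0892d6ab71ba3d62bb8a09d23193b9bce69955954ea7145a4d2a1c4e9ac66010f96cf68142a1e10173c86c3297168fc0c09 (k8 c13906 c4462 c11031 c14499 c11783 c268 c334 c2485 (k8 c1950 c4465 c4440 c4321 c4439 c4320 c12637 c276 (k8 c487 c6257 c6097 c1235 c527 c11432 c1030 c13945 (k8 c2483 c2484 c266 c14076 c1926 c14048 c1107 c1887 (k8 c4446 c14491 c872 c14497 c4390 c4350 c4388 c4386 (k8 c4353 c4389 c1954 c608 c338 c8514 c10474 c4399 (k8 c4474 c14500 c1952 c3965 c6927 c1992 c3973 c2732 (k8 c14413 c1300 c4330 c4241 c11164 c12297 c13177 c4473 (k8 c6175 c1997 c381 c366 c1722 c1623 c373 c9154 (k2 c2109 c8248 k0)))))))))) (by decide +kernel)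
def c14502 : PP 8 4 T 0x1000000001000000080000000000000001500000004000000000080005400004400080 := rS 0x490c (k2 c4486 c14486 (k1 c4381 k0)) (by decide +kernel)
def c14503 : PP 8 4 T 0x1000000001000000080000000000000002500000000000024000080005000005404000 := rS 0x1045e2e9a53a6b42c215223 (k8 c4372 c6029 c4465 c4321 c6097 c1235 c13396 c808 (k2 c1156 c14344 (k1 c548 k0))) (by decide +kernel)
def c14504 : PP 8 4 T 0x1000000001001000000000000000040055500000040040000005480010800001605400 := rS 0x9c833eafcfd4344ad8a6b55cab592b21e995a3051f818126940a16101b (k8 c334 c4465 c4321 c4439 c13396 c13906 c4462 c11031 (k8 c4308 c2299 c2516 c326 c7508 c2610 c6230 c7514 (k8 c7513 c2032 c7468 c4742 c4424 c1164 c3262 c1626 (k2 c8144 c9781 (k1 c339 k0))))) (by decide +kernel)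
def c14505 : PP 8 4 T 0x1000000001001000000000000000000000100000000000004000000000040000000000 := rS 0xa22097e4f65949594b621459ec15b2d572b3688f51215618b9769107c64ee6f398cc06672a9d516934a8043e7b40a150f080b9e436194b8fc9611248346a475e9351e1c5188da4312c16c842d020181609 (k8 c13906 c14461 c4462 c14489 c14499 c14339 c12637 c4476 (k8 c14466 c14501 c4372 c11410 c527 c760 c4282 c2014 (k8 c4374 c4373 c4371 c4281 c4276 c4375 c11031 c11783 (k8 c268 c334 c2485 c1950 c4465 c4440 c4321 c4439 (k8 c4320 c276 c487 c11432 c1030 c13945 c2484 c266 (k8 c655 c55 c6257 c14048 c1107 c1887 c4446 c14107 (k8 c14503 c10310 c14502 c3965 c14504 c7030 c14305 c340 (k8 c11612 c7514 c7513 c7468 c1749 c1797 c1956 c2123 (k8 c4429 c7984 c4475 c2027 c421 c1247 c2108 c4493 (k1 c4452 k0)))))))))) (by decide +kernel)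
def c14506 : PP 8 4 T 0x1000000000000000000000000000000000001000054000005404405415000 := rS 0x29c4a5f7ea08d28142c214aa9 (k8 c6029 c5936 c4465 c4321 c4439 c13396 c2108 c4306 (k4 c6467 c11222 c4532 c2111 k0)) (by decide +kernel)
def c14507 : PP 8 4 T 0x2000000000000000000000000000000050100000004041000000000000000000208484 := rS 0x11064ac87e91 (k4 c4352 c11031 c7508 c2610 (k2 c7239 c12292 k0)) (by decide +kernel)
def c14508 : PP 8 4 T 0x12000000001001000000000000000000010100000400000020054000005444404411420 := rS 0x110322e112630a8395ead891bcc2ab0199caa79499acf687840652e2d1fa3c380604a456eb5 (k8 c4389 c4353 c4352 c13906 c4462 c527 c760 c11031 (k8 c14499 c11783 c268 c4465 c4440 c4320 c6097 c1030 (k8 c2485 c266 c655 c55 c14076 c617 c1107 c4469 (k8 c4554 c4346 c14506 c14507 c12253 c7030 c11956 c13198 (k2 c6781 c4412 k0))))) (by decide +kernel)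
def c14509 : PP 8 4 T 0x2000001000001000000000000000004050100000000041400000000010000000200480 := rS 0xa1882e592b21e8fd22b5 (k8 c4389 c4352 c11031 c326 c7508 c2610 c7514 c7239 (k2 c11483 c11255 k0)) (by decide +kernel)
def c14510 : PP 8 4 T 0x12000000000001000084000000044004054145105550540021040000000000005404484 := rS 0x1103245d5b4366b20fa89318554e5f7ed15043f379849611268346a47588dd6eb5 (k8 c4389 c4353 c4386 c4350 c4374 c4373 c4371 c4282 (k8 c4276 c4375 c617 c1107 c11031 c2108 c4452 c4306 (k8 c548 c4532 c14509 c12253 c7030 c7516 c12410 c2064 (k4 c4422 c6601 c9154 c13198 (k2 c4487 c4412 k0))))) (by decide +kernel)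
def c14511 : PP 8 4 T 0x1001000000000000000000000100000000000004000000000040000000000 := rS 0x1955b108bae112630a8399eaf61a685c4f5aadd22378a27d468f2388c1a4d1384496d24b8b50e85409ee106b0b9a52a933ca2c32713a954ce1c0181156330087c6273309bcb03f3b86cb60605c648409 (k8 c13906 c14339 c4446 c14461 c4462 c12637 c334 c1887 (k8 c11031 c4476 c1107 c617 c14048 c14466 c276 c487 (k8 c6257 c14076 c14489 c55 c527 c655 c266 c2484 (k8 c2483 c268 c13945 c2485 c1030 c11432 c13396 c1950 (k8 c6097 c4465 c4320 c4439 c4321 c4440 c14499 c11783 (k8 c14501 c4375 c4276 c4278 c4282 c4371 c4372 c4374 (k8 c760 c11410 c11776 c14505 c4386 c4352 c4353 c4389 (k8 c338 c14508 c1952 c3965 c2732 c13177 c14510 c14507 (k8 c12253 c7030 c11956 c4361 c6781 c4809 c4412 c13198 k0))))))))) (by decide +kernel)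
def c14512 : PP 8 4 T 0x400000000002000010000000010000000044000001480080000000000000025400002 := rS 0x44abcab112984ca215 (k8 c4284 c4405 c4401 c4290 c4334 c5961 c984 c5289 (k1 c2109 k0)) (by decide +kernel)
def c14513 : PP 8 4 T 0x20000000002000000000005400000045520001004040000000000000000000000002 := rS 0xeb05 (k2 c4314 c596 (k1 c12834 k0)) (by decide +kernel)
def c14514 : PP 8 4 T 0x1000000001002000010000000400000045100001005540500000040002005425000002 := rS 0x1d60a5444ad56e341b9328b0c4792c1253098ec2a8b69a1ca2818405c724f (k8 c298 c1139 c1910 c4465 c4439 c4405 c13785 c13532 (k8 c14044 c4284 c4403 c4401 c4290 c13906 c1915 c760 (k8 c4467 c13089 c4474 c324 c4470 c7094 c7883 c14513 (k4 c2109 c4406 c1687 c12834 k0)))) (by decide +kernel)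
def c14515 : PP 8 4 T 0x1002000000002000050011000000400000144001401140101000140002005004004806 := rS 0x11f0d522a59f435d9f880fc518f41a7565d2e0a882991c263b288fd66152f994c6290ca050aa10e20c226148ac42e6b (k8 c2540 c1910 c2605 c12744 c13428 c606 c4570 c567 (k8 c12260 c4321 c4439 c308 c4402 c754 c2539 c2538 (k8 c4284 c662 c4288 c4405 c4403 c4401 c4404 c4290 (k8 c2109 c4314 c4457 c2024 c596 c14163 c10368 c13617 (k8 c4463 c13636 c10398 c3820 c4392 c1521 c7105 c14495 (k2 c9576 c1429 (k1 c4486 k0))))))) (by decide +kernel)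
def c14516 : PP 8 4 T 0x1000000001002000010000000000400044100001001140100000140002005004004806 := rS 0x1294a4d1b2da86b53f1f5f9175ca8c1a75390f20a54111bd064759854be65318a58a3b609dc128b4394502858405cd6a10e13c226148b4c32b1 (k8 c2605 c308 c13532 c12744 c13428 c606 c298 c567 (k8 c12260 c2540 c1910 c4465 c4321 c4439 c4405 c13785 (k8 c14044 c13906 c6033 c6869 c4403 c4530 c4402 c754 (k8 c2539 c2538 c4284 c662 c4404 c4570 c10992 c14514 (k8 c14515 c4406 c306 c307 c1687 c14163 c13617 c4548 (k8 c4416 c4463 c4379 c10398 c1618 c4392 c4492 c1743 (k4 c324 c3387 c2108 c1914 k0))))))) (by decide +kernel)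
def c14517 : PP 8 4 T 0x1000000040000000000000000000100001501500040000000001000408800 := rS 0xa292e184d (k4 c2248 c4046 c1334 c13089 (k1 c4474 k0)) (by decide +kernel)
def c14518 : PP 8 4 T 0x1000000000000000000000000000002000000000000140002000000000000 := rS 0x8319 (k2 c4447 c3819 (k1 c4472 k0)) (by decide +kernel)
def c14519 : PP 8 4 T 0x1000000001002000010000000000000004100000000040080000140002000000000814 := rS 0x389e6112a9c125f5889cba69179b4661c40c202e6b48b4c321b0f8012e79 (k8 c14518 c928 c4461 c270 c7896 c308 c13532 c12744 (k8 c2540 c1910 c4465 c4439 c567 c2958 c5889 c61 (k8 c2723 c2721 c2877 c2605 c2538 c13906 c10653 c14202 (k4 c13428 c298 c14516 c14517 k0)))) (by decide +kernel)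
def c14520 : PP 8 4 T 0x2000000000000000040000400000000000001105400000000000000000000000414100 := rS 0x37a0d7671 (k4 c4387 c4390 c4570 c10992 (k1 c7040 k0)) (by decide +kernel)
def c14521 : PP 8 4 T 0x1000000000000000000000000100000000000004000000002040000000810 := rS 0x8839c5d70a14fa8e1a22301fc200f5b8dd1f143ca5ccebf48a750a8143b4d166d3bc2032174d90c36ad68c4ca63b288fd66152287c1221359ec665a2ca4d2a1c0000c52e4 (k8 c14511 c4402 c303 c4461 c567 c762 c1030 c534 (k8 c4476 c2958 c2686 c2540 c9668 c13906 c270 c13923 (k8 c4284 c662 c4288 c4405 c4403 c4290 c4441 c300 (k8 c2047 c7896 c14444 c1967 c1910 c308 c4465 c6033 (k8 c5889 c14044 c13532 c13785 c4439 c4321 c968 c12744 (k8 c5760 c14512 c928 c14518 c14519 c4388 c4386 c4353 (k8 c304 c14520 c2651 c606 c607 c4326 c936 c1300 (k4 c770 c5931 c4361 c1086 (k2 c7682 c7172 k0))))))))) (by decide +kernel)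
def c14522 : PP 8 4 T 0x1000000001002000040000000004000004101100001080080000140001001000404802 := rS 0xce3f2b092c31ea5cea35272a14abf1744cfafc069562305238ed8eb30a9acbe3313974d29514a64729d609454e9b0e20d921130a456213 (k8 c4401 c2605 c12744 c13428 c606 c10573 c4570 c567 (k8 c765 c13601 c4405 c6869 c968 c1139 c1032 c4402 (k8 c762 c2723 c2721 c2877 c2958 c2538 c2540 c4284 (k8 c662 c4289 c4403 c4404 c4310 c4334 c5961 c14163 (k8 c4463 c4379 c14102 c14429 c5760 c1843 c2119 c787 (k8 c1491 c10883 c929 c10368 c4958 c4209 c7662 c2107 (k2 c949 c1521 k0))))))) (by decide +kernel)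
def c14523 : PP 8 4 T 0x2000001000000040000000000000000000400000101500000000005405000400000 := rS 0x10d7ec490285 (k4 c4321 c4439 c4469 c14429 (k2 c12516 c4477 k0)) (by decide +kernel)
def c14524 : PP 8 4 T 0x1000000000000000100000000000001100000004014000045410001555500000000000000000000000 := rS 0xa3 (k2 c13617 c8581 k0) (by decide +kernel)
def c14525 : PP 8 4 T 0x1002000001002000040000000004000004144000001000084000140001001000404802 := rS 0x45d59043ebf01acd2744e8aa8528b92e6764a0c265159854d65f329ecc65d34abc662950a7c8e2708985629d628ed4e9b0e2450285 (k8 c4321 c4439 c12744 c567 c765 c13601 c4403 c4530 (k8 c968 c2605 c13428 c606 c2877 c4404 c11480 c12260 (k8 c4402 c2958 c5815 c2723 c2721 c754 c2686 c2539 (k8 c2538 c2540 c4284 c662 c4405 c4401 c4570 c10573 (k8 c14522 c928 c14523 c1843 c2119 c14412 c4345 c787 (k8 c1484 c1487 c4463 c4379 c14524 c5842 c13242 c4809 k0)))))) (by decide +kernel)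
def c14526 : PP 8 4 T 0x1000000001002000040000000004000004100000000000084000140001001004400802 := rS 0x2e952a55eafc470c370d41c8153c210e8b3ba6c3209099440e5d4c98522b14e9b4661c (k8 c567 c2958 c5814 c968 c2605 c12744 c13428 c1032 (k8 c2721 c83 c4405 c4401 c13906 c308 c765 c6033 (k8 c5853 c13785 c4465 c13601 c4439 c14525 c1330 c305 (k8 c4046 c1327 c6330 c1079 c4385 c6029 c7138 c1349 k0)))) (by decide +kernel)
def c14527 : PP 8 4 T 0x1002000001000000040000000000000001100000001501500000080005005020414004 := rS 0xa754af54a9a1720d0285 (k8 c4321 c4439 c4570 c14523 c1952 c3857 c3916 c2731 (k2 c4500 c14495 k0)) (by decide +kernel)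
def c14528 : PP 8 4 T 0x1000000001002000040000000000000000100000000100100000080005045005400806 := rS 0x33608a9a2938fe2386125fa0e40c210e8b098b4a2c73597cca63578a556a10e27c8e1130a45626d (k8 c5814 c2605 c12744 c13428 c606 c4404 c11480 c567 (k8 c12260 c14076 c4402 c5815 c754 c2539 c2538 c2540 (k8 c4289 c4405 c4286 c4401 c5853 c13785 c4465 c4439 (k8 c14527 c4376 c2247 c4046 c1327 c1455 c14517 c13089 (k4 c6029 c13320 c1479 c8638 k0))))) (by decide +kernel)
def c14529 : PP 8 4 T 0x1000000001000000050040000001500000000004800501501540480005150006554144 := rS 0x3492363fb35784c3ed1576845fb25026d8cc24f24b41d2d0ecb562ad5e2f (k8 c1870 c5815 c14076 c2112 c2026 c1904 c4458 c3905 (k8 c3797 c1959 c4436 c4446 c5814 c12056 c10573 c12619 (k8 c14495 c1890 c14412 c1502 c4474 c4493 c2062 c8698 (k4 c2015 c4573 c1408 c2107 k0)))) (by decide +kernel)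
def c14530 : PP 8 4 T 0x1000000001000000040000000000000000100000000000004000000000040004400810 := rS 0x464d24838aa87a5a9d4aa925ab05f123b345124f8486082422984c5a510ab1c0e450f9acbe7b49974d2af14aac623350a7c4a0923b904e1c2d164226148ac40003 (k8 c303 c4461 c2605 c12744 c13428 c606 c534 c4476 (k8 c567 c2877 c14511 c4404 c13906 c14202 c11480 c12260 (k8 c2958 c14521 c14076 c4402 c5815 c2723 c2721 c1030 (k8 c2686 c2538 c2540 c270 c13923 c83 c4289 c4284 (k8 c4405 c4286 c4401 c4290 c14526 c91 c14528 c4436 (k8 c2253 c7474 c2254 c309 c5907 c1870 c2112 c3797 (k8 c4345 c4444 c10653 c4458 c1904 c4151 c14529 c2247 (k2 c2248 c1327 (k1 c13318 k0))))))))) (by decide +kernel)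
def c14531 : PP 8 4 T 0x1401000001002000040000040004501405114000000080081050140001800120014800 := rS 0x14b3f2b092c31ea5d0a75a21f496fc068d86a8e5eaa48e3b63acc2a334a8a5323960944de096484e0b11 (k8 c4334 c4310 c4401 c10573 c13906 c10992 c4405 c6869 (k8 c1139 c1032 c4402 c762 c2958 c4284 c662 c4289 (k8 c4403 c4404 c787 c7460 c11945 c1306 c761 c569 (k8 c10457 c1413 c4379 c4474 c10883 c4397 c929 c10368 (k4 c4958 c4209 c7662 c2107 (k2 c4458 c4235 k0)))))) (by decide +kernel)
def c14532 : PP 8 4 T 0x1001000001002000040000440004501405114000002080081010140001800120414800 := rS 0x228fcac24b0c7a973a9f5f835668349d118291c76c759854669514a6472c128c4d9213 (k8 c4401 c10573 c4342 c4405 c6869 c1139 c1032 c4402 (k8 c762 c2958 c4284 c662 c4289 c4403 c4404 c4310 (k8 c4334 c14531 c1488 c1479 c1491 c4463 c4379 c10883 (k8 c929 c10368 c4958 c4209 c7662 c2107 c945 c725 k0)))) (by decide +kernel)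
def c14533 : PP 8 4 T 0x1000000001002000040000000000105401104004002015480000100001840128414800 := rS 0xbd478d0fa8a3a4154710a5c5d847356a5cce555989d265d4aabc52ab19a8612890a9358a3b6090ca2a75dafe3099378259213 (k8 c4401 c10573 c13906 c10992 c1032 c4149 c4369 c4449 (k8 c904 c4405 c335 c6869 c4403 c4530 c374 c4284 (k8 c678 c4316 c12260 c2958 c14076 c4402 c5815 c762 (k8 c2721 c1030 c2877 c662 c429 c14532 c928 c944 (k8 c7478 c2127 c4362 c4459 c4958 c4337 c9288 c4481 (k4 c4485 c1691 c10883 c1306 (k2 c1040 c10985 k0))))))) (by decide +kernel)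
def c14534 : PP 8 4 T 0x11000444001514008000000100080000000000000000000000 := rS 0x4b1d55ac3 (k4 c1907 c1904 c1692 c2127 (k1 c929 k0)) (by decide +kernel)
def c14535 : PP 8 4 T 0x1000000001000000040000000000000000100000000000004000000000040000400810 := rS 0x17aa94288cdcfd0721d7ebb53a9582c54ec61366c1720cf24384864343b28acc2a450f884d65f329ecc6932e9a52a99578a5563119a7c4a0923b904e1c2d164226148ac40003 (k8 c303 c4461 c2605 c12744 c13428 c606 c534 c4476 (k8 c567 c2877 c14511 c4404 c13906 c14202 c11480 c2958 (k8 c14521 c14076 c4402 c5815 c1032 c762 c2723 c2721 (k8 c1030 c754 c2686 c2539 c2538 c2540 c9668 c270 (k8 c13923 c4284 c662 c4405 c4403 c14530 c171 c4316 (k8 c335 c599 c638 c687 c686 c5870 c4149 c7784 (k8 c4530 c6869 c1843 c904 c4449 c4369 c14534 c14533 (k4 c4376 c305 c1327 c1496 (k2 c8675 c1080 (k1 c7138 k0)))))))))) (by decide +kernel)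
def c14536 : PP 8 4 T 0x1000000001000000040000000000000000100000000000004000000000040000000810 := rS 0x8352aa41f1253a6d3a8126c64867720214da780b044c20903884d65f588ccba692d16532310e2440003 (k8 c303 c4461 c12744 c567 c14521 c1032 c534 c4476 (k8 c2723 c2721 c2958 c2605 c2538 c2540 c9668 c83 (k8 c13906 c13428 c606 c14535 c572 c2547 c2548 c573 (k8 c1833 c1951 c4447 c3897 c3762 c968 c1849 c13601 (k4 c4488 c14186 c4345 c4444 (k2 c9038 c2119 k0)))))) (by decide +kernel)
def c14537 : PP 8 4 T 0x2000002001000000000000400000000000000404004000000000140000000005401100 := rS 0x403c2150308 (k4 c4465 c4439 c6224 c7055 (k2 c13754 c1846 k0)) (by decide +kernel)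
def c14538 : PP 8 4 T 0x2000000001000000040000000000001500100004000501500000140100004005405002 := rS 0x231293468be86a9a24837e1bc22853b8250308 (k8 c4465 c4439 c13906 c6033 c6224 c606 c10992 c4463 (k8 c4570 c10618 c14102 c12516 c14537 c6330 c9875 c1369 (k2 c773 c4467 k0))) (by decide +kernel)
def c14539 : PP 8 4 T 0x2000000001000000040000000000001501100000000000000040140005405000000000 := rS 0x80be8ca9e248f (k4 c4388 c4469 c4558 c4539 (k2 c13260 c4472 (k1 c1054 k0))) (by decide +kernel)
def c14540 : PP 8 4 T 0x2000000001000000000000000001501501100000000000000040140000000000000000 := rS 0x10632be892ed1ebd (k8 c4354 c4388 c4390 c11945 c10851 c4539 c1054 c4472 k0) (by decide +kernel)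
def c14541 : PP 8 4 T 0x110001000000000040011004001010050544001400000081520154440040044541802 := rS 0x67289a0b91eacc42931ca443819 (k8 c308 c567 c12744 c1139 c1030 c9668 c662 c11368 (k4 c6781 c13636 c7454 c381 (k1 c1523 k0))) (by decide +kernel)
def c14542 : PP 8 4 T 0x110000000000000060000000000814000000000000000000044000000000000000000 := rS 0x143519219745 (k4 c4453 c1751 c7073 c941 (k2 c4421 c4489 k0)) (by decide +kernel)
def c14543 : PP 8 4 T 0x110001000002000040011004001010000544001400040080020150040040044401802 := rS 0x2a4112e53098eca2151fa543829 (k8 c4402 c567 c762 c4288 c4284 c4405 c4403 c4401 (k4 c4290 c928 c5056 c14541 (k1 c4406 k0))) (by decide +kernel)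
def c14544 : PP 8 4 T 0x100000000002000050011004001000000544001400002080020150040040044401802 := rS 0xe8884b154cc53098eca2151fa54330d7ea844410138701e29 (k8 c4402 c304 c567 c2877 c12807 c607 c770 c4302 (k8 c4326 c308 c762 c4288 c4284 c4405 c4403 c4401 (k4 c4290 c14543 c5625 c14541 (k2 c2109 c929 (k1 c596 k0))))) (by decide +kernel)
def c14545 : PP 8 4 T 0x2000000001002000040000000000000000100000000000080000140001040044400802 := rS 0x1e1a318889057ecd2612e8aa650a953e4f11041530d302750e8b3b9b412133597cf62749974d2954cabc66291ca451eb75e83c6e0d38b1476c128865361c (k8 c567 c765 c308 c4405 c6869 c4403 c4530 c4387 (k8 c568 c4386 c304 c4354 c4353 c4388 c12744 c1139 (k8 c4402 c2958 c5815 c1032 c762 c2723 c2721 c1030 (k8 c2877 c2686 c2538 c2540 c4401 c13906 c5814 c6033 (k8 c5853 c13785 c968 c14538 c4326 c976 c12807 c607 (k8 c446 c1300 c1302 c770 c14540 c4453 c1857 c773 (k8 c2067 c9875 c1994 c10261 c4472 c14542 c14544 c4447 k0))))))) (by decide +kernel)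
def c14546 : PP 8 4 T 0x1100000002000000111000444001514054010012000005080000000000000015000 := rS 0x7e39c5c929668b0e94ad2384c2ac7 (k8 c4289 c4284 c4401 c4404 c945 c4485 c4459 c4426 (k4 c2127 c452 c4360 c1083 (k2 c2107 c10049 k0))) (by decide +kernel)
def c14547 : PP 8 4 T 0x1000000000000001102001002000001111000444001514014000012000005094000000000000015000 := rS 0x124fecb4504c2a7d (k8 c4379 c4284 c4401 c14546 c1752 c725 c4599 c7108 k0) (by decide +kernel)
def c14548 : PP 8 4 T 0x2001000001002000040011000506001515114000002010585010000005804000015002 := rS 0x9733c119a252712e8aaf149c4c26f04b2426fc (k8 c4463 c4401 c10573 c13906 c10992 c12807 c4387 c4402 (k8 c5815 c4398 c1322 c787 c1504 c1484 c14547 c4310 (k2 c928 c12885 k0))) (by decide +kernel)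
def c14549 : PP 8 4 T 0x1000000040000000000000000100000000000004000040000040000400810 := rS 0xea3c3f414923512291527d539549afc649bcc28708c4d3a83360b912798486936c16291c263b288fd8eb30a9143e093597d62653d89d265d34a5532af14b91563119968b2394887000035da3d7a0f1b834e314 (k8 c14536 c4387 c568 c4386 c304 c4354 c4388 c4390 (k8 c303 c4461 c567 c12744 c1139 c534 c4476 c2958 (k8 c14521 c14076 c14511 c4402 c5815 c1032 c762 c2723 (k8 c2721 c1030 c2877 c2686 c2539 c2605 c2538 c2540 (k8 c13906 c270 c13923 c4284 c662 c4289 c4288 c4405 (k8 c4403 c4401 c4404 c4530 c6869 c765 c14545 c4316 (k8 c599 c678 c687 c686 c2620 c7784 c4342 c14273 (k8 c14534 c12807 c10992 c10573 c4463 c374 c429 c904 (k8 c4379 c14548 c11945 c1843 c1369 c282 c10878 c2107 (k2 c10113 c594 (k1 c10368 k0))))))))))) (by decide +kernel)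
def c14550 : PP 8 4 T 0x2000002000000000040000000000001501100004004100500000180001005000001000 := rS 0xa7890bd7637 (k4 c4386 c4390 c1952 c4567 (k2 c4558 c10640 k0)) (by decide +kernel)
def c14551 : PP 8 4 T 0x2000002000002000040100000500000005100000004051584000000000005000000002 := rS 0x97 (k2 c928 c12885 k0) (by decide +kernel)
def c14552 : PP 8 4 T 0x2000000001002000040000000000000004100000000000084000180001000000410802 := rS 0x28d2eb965b06968868956226650a1d16a6110661b08171dd529a4fb344a4ca2a0506fc649bcc2092384ca2b30a9acbeb13289cba694a8a5329147adc1e0d38c658653278dd3a413686cf6a525aec661c (k8 c567 c2958 c4390 c1954 c5936 c2686 c335 c5814 (k8 c91 c14354 c4386 c338 c4290 c2054 c4446 c4387 (k8 c568 c304 c4353 c4388 c12744 c1032 c4402 c762 (k8 c2723 c2721 c2877 c2539 c2605 c2538 c2540 c4284 (k8 c662 c4405 c4401 c4404 c13906 c12807 c10992 c10573 (k8 c4463 c4570 c12056 c14412 c4474 c284 c2062 c11480 (k8 c14550 c2731 c1888 c764 c6924 c9576 c309 c6927 (k8 c1992 c4322 c4440 c770 c14551 c4334 c5961 c14542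 (k8 c2109 c4457 c1985 c2024 c8268 c933 c941 c5931 k0))))))))) (by decide +kernel)
def c14553 : PP 8 4 T 0x805045415415500000000082000540080005150000000000 := rS 0x966252d96d056c461a2f (k8 c1952 c4326 c4334 c10729 c2112 c8762 c4426 c341 (k2 c10725 c1253 k0)) (by decide +kernel)
def c14554 : PP 8 4 T 0x2000000001000000040000000001015515100000000002080500080005155000000000 := rS 0x33e86a34b99d9a4ca2af94f1217abd568f5bad5864b5d93c6f0d (k8 c4326 c4386 c338 c4390 c1954 c2054 c4389 c4353 (k8 c4388 c14076 c5815 c1952 c4567 c4558 c13260 c4399 (k8 c4474 c2062 c14553 c928 c936 c11164 c13177 c7781 k0))) (by decide +kernel)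
def c14555 : PP 8 4 T 0x100001000000000040000004000010050544400000002081500080040040041541802 := rS 0x1908851345723d10a4c72910e06cf70d (k8 c4326 c2686 c335 c567 c12744 c1139 c1030 c9668 (k4 c11368 c6781 c340 c7454 (k2 c2109 c937 (k1 c636 k0)))) (by decide +kernel)
def c14556 : PP 8 4 T 0x4000400000880044000000000080100100000000005400802 := rS 0x443458074 (k4 c929 c933 c1711 c4688 (k1 c597 k0)) (by decide +kernel)
def c14557 : PP 8 4 T 0x1000002000040000004000010040544400000082080000080040040041401802 := rS 0x558894c26510aa543829 (k8 c4402 c567 c762 c4284 c4405 c4401 c4290 c4334 (k2 c5625 c14555 k0)) (by decide +kernel)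
def c14558 : PP 8 4 T 0x1000002000040000005044014040544440001002080000080040040041401802 := rS 0x44ab4fb17a1ae1466759854d66531a4cd2950e0a5230d (k8 c4326 c12744 c4402 c567 c762 c2723 c1030 c754 (k8 c2539 c2540 c4284 c662 c14557 c936 c2125 c11164 (k4 c4361 c1356 c4809 c4529 (k1 c2120 k0)))) (by decide +kernel)
def c14559 : PP 8 4 T 0x1000002000041000004000814040544000000082080044000040040045401802 := rS 0x192a2442e5a2558894c26510aa4d2a291ca44390d (k8 c4326 c567 c12744 c1139 c4402 c762 c1030 c4284 (k8 c4405 c4401 c4290 c4334 c5625 c14542 c6781 c2109 (k2 c7454 c637 (k1 c937 k0)))) (by decide +kernel)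
def c14560 : PP 8 4 T 0x1000000040000000000000000100000000000004000000000040000400810 := rS 0x7582a20aaad689f62ecf5c28ccea6669328a824b8b9348745865429f548950a22301fdfa10529b53a4f2586d86412114c262d28acc2a450f824d6653d98c4e9334a5532af14b91563119870b4594880006bb478dd6ebd5a834e314 (k8 c14536 c4387 c568 c4389 c4354 c4353 c4386 c4388 (k8 c4390 c303 c4461 c12744 c534 c4476 c567 c2958 (k8 c14521 c14076 c14511 c4402 c5815 c1032 c762 c2723 (k8 c1030 c2877 c754 c2686 c2539 c2540 c13906 c270 (k8 c13923 c4284 c662 c4405 c4286 c4401 c4290 c14549 (k8 c91 c2054 c335 c1954 c338 c14354 c5814 c5936 (k8 c14552 c4300 c2651 c606 c607 c2691 c278 c976 (k8 c1300 c770 c14433 c5853 c13785 c14554 c764 c14556 (k8 c14558 c4452 c4474 c2062 c1992 c14559 c936 c2125 (k8 c13177 c4361 c1356 c381 c4809 c347 c2109 c5842 (k2 c597 c5280 k0))))))))))) (by decide +kernel)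
def c14561 : PP 8 4 T 0x10000000002000000100000000040000000010000081490000000000002020011002 := rS 0x111 (k2 c4334 c10789 k0) (by decide +kernel)
def c14562 : PP 8 4 T 0x800000001002000040000000044000100045100001410490010020000040020015002 := rS 0x296ad442813e9733c159aa312138464b86a98fb4541bf1926109b1cc63313a4cba694a8a536216094552a5 (k8 c4444 c4345 c4405 c1852 c9668 c1849 c4402 c762 (k8 c2723 c2721 c1030 c2877 c2958 c754 c4289 c4401 (k8 c12807 c10573 c4463 c9038 c14412 c4379 c14102 c4330 (k8 c1857 c773 c4474 c4467 c9264 c1479 c10878 c14561 (k4 c928 c6233 c14524 c6907 (k2 c6230 c7085 (k1 c7527 k0))))))) (by decide +kernel)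
def c14563 : PP 8 4 T 0x1000000040000000000000000100000000000004000000000040000000810 := rS 0x5393c441052aa6249b4ec649a814390c8085459b4f01b0b0341e711bc512251039143e09109acbe654cabc52e4558c4661c0000cb459 (k8 c534 c4476 c303 c4461 c567 c2958 c14521 c14076 (k8 c14511 c4402 c5815 c1032 c2539 c2538 c2540 c9668 (k8 c13906 c270 c13923 c83 c4405 c12744 c14536 c4386 (k8 c4387 c304 c568 c14560 c170 c572 c2547 c2549 (k8 c2548 c573 c1951 c1836 c1835 c1991 c4447 c968 (k8 c1849 c4488 c4345 c4444 c14562 c607 c446 c773 (k1 c14540 k0))))))) (by decide +kernel)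
def c14564 : PP 8 4 T 0x11000444000514008000000100080000000000000000000000 := rS 0xf29c (k2 c14534 c1964 (k1 c969 k0)) (by decide +kernel)
def c14565 : PP 8 4 T 0x1000000000010000444000114008000000000080100140000000020000000 := rS 0x26d8269 (k4 c2723 c6869 c765 c14564 k0) (by decide +kernel)
def c14566 : PP 8 4 T 0x1000000000000000000000000100000000000004000000000040000000810 := rS 0x2e0c06c84ad62a19a4ab57a64629534a4c66633d8708a5a0007cb209298b4a22901acc2ae4 (k8 c14511 c4284 c662 c303 c4402 c4405 c4286 c4290 (k8 c13906 c534 c270 c4461 c4476 c13923 c567 c2686 (k8 c754 c2958 c1030 c2723 c762 c14521 c1032 c5815 (k8 c14076 c14563 c6832 c1635 c1904 c14565 c335 c13532 (k2 c7441 c1870 k0))))) (by decide +kernel)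
def c14567 : PP 8 4 T 0x1400000000002000040008040010400000000000040444481000001010000080015800 := rS 0xa551ae51c7e3e8d892c97e0e48e1363acc2a97 (k8 c928 c4284 c662 c4289 c4401 c4404 c358 c4463 (k8 c10573 c4209 c4470 c4379 c2107 c273 c1471 c6696 (k2 c1429 c13892 k0))) (by decide +kernel)
def c14568 : PP 8 4 T 0x1001000000000000608000000000000000500020000000000000000000000000000 := rS 0xa22f10ab6 (k4 c587 c717 c1167 c4484 (k1 c4454 k0)) (by decide +kernel)
def c14569 : PP 8 4 T 0x1401000001002000040008000010000004100000042454080000151000000000000820 := rS 0x12b115132596813eae4e03837a84fe377e8414e5d308242a3f2a83cbeb106a5c6a1e5dc622e83 (k8 c2622 c4362 c4472 c4449 c575 c1099 c928 c2550 (k8 c2607 c577 c12199 c12210 c4288 c4284 c13906 c6986 (k8 c14180 c904 c14567 c4300 c2202 c670 c11524 c14152 (k8 c4470 c4480 c1201 c1420 c1421 c2029 c14568 c5857 (k2 c4337 c859 (k1 c4487 k0)))))) (by decide +kernel)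
def c14570 : PP 8 4 T 0x40000000000000000000001000000040440005004000000000040000054501010405556054000155100 := rS 0x28952a14f920fac93798626ad (k8 c2047 c4441 c12807 c10992 c10573 c8221 c2107 c1663 (k4 c11453 c8354 c2118 c4526 k0)) (by decide +kernel)
def c14571 : PP 8 4 T 0x1002000040000000000000000100000000000080000040002040000000820 := rS 0x21a6152088944f7e840fecb269756a715eadc6e3947c5106733298d126c84a1d26aba5c5d766b0d30a30bf3cb058a092991c263b288fc52c759854aa0f338cc2e0d109644e5f1a8f626ad2087402690ca748a1e (k8 c575 c2235 c1232 c2201 c1878 c54 c758 c1913 (k8 c2047 c4441 c274 c1099 c577 c351 c93 c311 (k8 c2550 c2552 c6119 c655 c12199 c12210 c4284 c662 (k8 c4289 c4402 c4288 c4405 c4403 c4401 c4404 c4290 (k8 c13906 c4530 c6869 c14518 c6330 c4472 c12813 c13740 (k8 c580 c4449 c4362 c4459 c9076 c12845 c1907 c4316 (k8 c295 c678 c7770 c7555 c7619 c2622 c14569 c4388 (k8 c4348 c4386 c4353 c4354 c4387 c4389 c840 c12989 (k8 c2028 c10049 c14570 c4300 c447 c2114 c1915 c1914 (k2 c766 c4385 (k1 c12577 k0)))))))))))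 (by decide +kernel)
def c14572 : PP 8 4 T 0x1000000001000000040000100000000000100000000000080000080000000000000820 := rS 0xa648984120f2fac41a3535a6442593686cf6330ca95341e (k8 c575 c277 c1971 c2201 c6119 c2688 c335 c5889 (k8 c93 c311 c1927 c581 c1099 c2550 c2607 c577 (k4 c12199 c13906 c6986 c888 (k2 c14372 c4500 k0)))) (by decide +kernel)
def c14573 : PP 8 4 T 0x1000000040040000401100000000000001401001044405550440005555124 := rS 0x120486f (k4 c10992 c14422 c10113 c282 k0) (by decide +kernel)
def c14574 : PP 8 4 T 0x2400100001002000050000000411100100100000100111081044000000440005004064 := rS 0x24d2a7d31ae590733fbf420092384c762d0a8fd8e5f5885c1a971a8f43c6b368cd0e511c8dd6eb5519751e67 (k8 c655 c4388 c840 c13617 c4389 c4353 c4386 c4348 (k8 c4405 c13785 c6119 c5889 c581 c575 c274 c1099 (k8 c928 c2550 c2552 c2607 c577 c4289 c4288 c4284 (k8 c4286 c4403 c4401 c4404 c13906 c14573 c4300 c670 (k8 c10327 c10069 c5280 c843 c125 c5073 c14375 c7622 k0))))) (by decide +kernel)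
def c14575 : PP 8 4 T 0x1002000040000000000000000100000000000080000000002040000000824 := rS 0x5c1fcc0a91ba3e287532c1510bd52a2d0e4b4d13c369961908d2ad68c4c5e532881d66152a83cf617109644e5f1a8f4321e (k8 c575 c2201 c274 c1099 c577 c351 c93 c311 (k8 c2552 c2688 c12199 c12210 c4284 c662 c83 c4405 (k8 c4290 c61 c4441 c300 c2047 c1878 c14571 c2054 (k8 c1927 c335 c2209 c277 c1955 c13785 c13509 c1971 (k8 c3920 c13058 c4314 c2558 c597 c14572 c4388 c4386 (k4 c866 c14574 c2653 c10213 (k1 c5280 k0))))))) (by decide +kernel)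
def c14576 : PP 8 4 T 0x1000000001002000040000000000000000040000001001401000001015000084415804 := rS 0x112d166d149ca525b3e868e12134fc7d1b124bac941bf072532384c2ac735a1ca26942a061019 (k8 c2201 c4465 c4439 c6224 c13396 c4405 c13785 c6097 (k8 c4289 c4284 c4401 c4404 c4290 c358 c4463 c4570 (k8 c10573 c12183 c4209 c4470 c4379 c2107 c2204 c272 (k8 c273 c4392 c1521 c3400 c5936 c2108 c14412 c1479 (k2 c5846 c6175 (k1 c2109 k0)))))) (by decide +kernel)
def c14577 : PP 8 4 T 0x1002001001000000000000000100100200000000005501500040000005000000000000 := rS 0x540b8f313 (k4 c4443 c1928 c4469 c9304 (k1 c787 k0)) (by decide +kernel)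
def c14578 : PP 8 4 T 0x1000000001002000040000000000000000100000000000080000001001000004000824 := rS 0xb950833cc608299379c14a5d1c4304a3727bf4208b34c208a092a83d620d1397c6a1921878da6b1985d2261 (k8 c6986 c888 c2552 c6119 c6097 c695 c575 c276 (k8 c2201 c1099 c577 c351 c2550 c2607 c12199 c12210 (k8 c13906 c438 c4465 c13396 c13509 c14576 c4300 c446 (k8 c2202 c6936 c12577 c4470 c11106 c4385 c359 c1073 (k8 c14577 c1103 c4472 c4447 c588 c9304 c14523 c787 k0))))) (by decide +kernel)
def c14579 : PP 8 4 T 0x1800002000000000000000400000000000100400000101180000200100000000000000 := rS 0xbd8c97d2281 (k4 c4380 c888 c577 c4364 (k2 c1169 c12641 k0)) (by decide +kernel)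
def c14580 : PP 8 4 T 0x1000000001002000040000000000000000100000001501081000051010000008415804 := rS 0x39c5d84c122b459a4e67d0cea4b5fc14fd453ea046c492eb249a837e0e4a647098eca23f63accbe890aa962509 (k8 c4316 c4479 c4444 c4284 c678 c577 c662 c4289 (k8 c4288 c4405 c4403 c4401 c4404 c4290 c358 c4463 (k8 c4570 c374 c10573 c12183 c4209 c4470 c4380 c4379 (k8 c14412 c2107 c9269 c1512 c1414 c10194 c4392 c1522 (k8 c4474 c1479 c5846 c14579 c6869 c6159 c4362 c1088 (k1 c4481 k0)))))) (by decide +kernel)
def c14581 : PP 8 4 T 0x1000000000000000000000044000000014000000108080500000005550000000000 := rS 0x34294ad (k4 c2841 c7770 c2112 c4426 k0) (by decide +kernel)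
def c14582 : PP 8 4 T 0x1200000044400000000400000000000520000005150000000000 := rS 0x33e862f (k4 c1992 c4422 c1793 c7781 k0) (by decide +kernel)
def c14583 : PP 8 4 T 0x1000000000000820001000000000001100000000014000014050001555500000000000000000000000 := rS 0x114a9 (k2 c4345 c13431 (k1 c9372 k0)) (by decide +kernel)
def c14584 : PP 8 4 T 0x1021000001000000040000010000004000014440021541580540155405150000021000 := rS 0x49685096ac35bc5d24953a444c8c9318bd9a7d2612d094540aee30c1629652eaf55aa532a58929d42fd (k8 c4300 c11524 c11219 c4479 c4444 c4443 c4345 c14076 (k8 c5815 c928 c93 c4530 c6869 c4472 c4449 c1421 (k8 c13089 c2119 c1319 c711 c1502 c1481 c1992 c14581 (k8 c14582 c14583 c4412 c578 c1697 c579 c4417 c1744 (k4 c4958 c1658 c4492 c2115 (k2 c4421 c7073 k0)))))) (by decide +kernel)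
def c14585 : PP 8 4 T 0x1500000000404005501500000200000000000420100 := rS 0x85409e0ef19 (k4 c4364 c1089 c7132 c7000 (k2 c2586 c2119 k0)) (by decide +kernel)
def c14586 : PP 8 4 T 0x1000000001002000040000000000000000100000000000080000000000040000000824 := rS 0xd161a1982c522a0d726f3813d3e5d1c4314e7f128ddfa1052aa48312449a6121a489841253238ec5a511f8a566152a83cce7b0689cbe351e90c3c6d358c46617 (k8 c2552 c6119 c14575 c6097 c695 c575 c276 c274 (k8 c1099 c577 c351 c2550 c2688 c655 c12199 c12210 (k8 c4284 c662 c4402 c4288 c4405 c4286 c4403 c4404 (k8 c4290 c13906 c6986 c888 c14578 c4316 c7139 c678 (k8 c4479 c7115 c4345 c4444 c14580 c4300 c2202 c6936 (k8 c670 c11219 c12577 c4470 c11106 c11480 c2417 c359 (k8 c1073 c1201 c639 c14585 c4530 c6869 c14584 c1907 (k2 c1630 c2115 k0)))))))) (by decide +kernel)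
def c14587 : PP 8 4 T 0x2000000001000000040000400000000000000004000000000000140000000005415100 := rS 0x1bd06fc (k4 c4463 c4570 c10992 c14537 k0) (by decide +kernel)
def c14588 : PP 8 4 T 0x1000000000000000002000000000000000000000040000005000000000000 := rS 0x5f13 (k2 c4345 c787 (k1 c4469 k0)) (by decide +kernel)
def c14589 : PP 8 4 T 0x2000000001000000040000000000000000100000000001080000000001000004000820 := rS 0x9b17930968254d1618a727bf420815f9a610450483cf60d1397c6a1921878da6b1985cba8f (k8 c4388 c840 c2552 c6119 c6097 c695 c575 c276 (k8 c2201 c1099 c577 c351 c2550 c2688 c12199 c13906 (k8 c438 c4465 c13396 c6330 c4439 c14587 c4300 c446 (k8 c11219 c12577 c13089 c14588 c12981 c1854 c4474 c1992 (k2 c13624 c13817 k0))))) (by decide +kernel)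
def c14590 : PP 8 4 T 0x22800000000000000040000000000001000100000000000000010000000005000000000 := rS 0x2386a991e91 (k4 c4352 c4388 c4539 c8237 (k2 c773 c4467 k0)) (by decide +kernel)
def c14591 : PP 8 4 T 0x2000000001000000040040000400001000100004001501401000455410044008555004 := rS 0x2386a990a77224644a48409bc9afc048e46e7154a962509 (k8 c4316 c4479 c4444 c4345 c4387 c4386 c4348 c13906 (k8 c4463 c374 c10992 c4380 c10113 c282 c14590 c4472 (k4 c1089 c13580 c14495 c4330 (k2 c773 c4467 k0)))) (by decide +kernel)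
def c14592 : PP 8 4 T 0x1002000040000000000000000100000000001080000000000040000000824 := rS 0xea648b18d834b62a2d0ed0679f490236693a8a8240a149a783bb0c89198629cfefd08295524189224d3090d0248e131f8a58eb30a9541e7b06a5cce272f90d3a6d358c466175da456e71a18ec7a350f1751f14 (k8 c14586 c4388 c840 c575 c1099 c274 c4403 c8226 (k8 c4387 c4353 c4352 c4390 c2552 c6119 c14575 c6097 (k8 c695 c1233 c276 c577 c351 c655 c928 c2550 (k8 c2688 c12199 c12210 c4284 c662 c4289 c4402 c4288 (k8 c4401 c4404 c13906 c14589 c4316 c7139 c678 c4479 (k8 c7115 c4345 c4444 c14591 c4300 c670 c11219 c12577 (k8 c4539 c4472 c1209 c1089 c7132 c2341 c13580 c1962 (k8 c2119 c13089 c639 c2064 c1489 c13085 c1622 c1791 (k8 c452 c2005 c645 c12768 c4426 c1710 c7770 c4494 (k2 c13431 c4417 (k1 c578 k0))))))))))) (by decide +kernel)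
def c14593 : PP 8 4 T 0x4000000000000000000000000444000044044000041554000000020000000100400000 := rS 0x56a253679 (k4 c1846 c1849 c7172 c13185 (k1 c2120 k0)) (by decide +kernel)
def c14594 : PP 8 4 T 0x10000001002000000000160044004044000040001454000010040150004505420820 := rS 0xa45612912415f93d166943914a23f598562e73 (k8 c1086 c4361 c4284 c662 c4288 c4405 c438 c13785 (k8 c13396 c13509 c446 c6330 c14593 c13253 c2114 c2120 (k2 c9597 c2053 k0))) (by decide +kernel)
def c14595 : PP 8 4 T 0x1000000000000160444000044010000041554000114150150000000020000 := rS 0x22d5a824d9399e878c2fd8317 (k8 c4361 c6869 c6330 c4472 c7043 c1525 c2114 c4448 (k4 c447 c13185 c645 c2120 k0)) (by decide +kernel)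
def c14596 : PP 8 4 T 0x1001002000044000045000000000005000000000000055201150000008000000 := rS 0x652fd0709 (k4 c4316 c639 c8901 c13141 (k1 c5740 k0)) (by decide +kernel)
def c14597 : PP 8 4 T 0x1002000040000000000000000100000000000080000000000040000000824 := rS 0x143115622d9a822721d9e786191096a520c49126984868c665399f53f174993492b8519fd0a101208dfb0d3050d6abd5b8dc72bb8a1acdaab5790c62191e8d44e214b85c661e2f964123b288fc52c7598540267 (k8 c655 c54 c4284 c662 c4289 c4402 c4288 c4405 (k8 c4403 c13906 c93 c577 c575 c6119 c2552 c928 (k8 c311 c351 c1099 c274 c2201 c14575 c276 c5815 (k8 c14076 c695 c6097 c14586 c4390 c4348 c4386 c4353 (k8 c4354 c4389 c8226 c14592 c4326 c4302 c766 c615 (k8 c614 c2693 c2653 c936 c10213 c7307 c284 c12942 (k8 c4361 c1395 c1356 c1086 c579 c883 c14594 c4316 (k8 c7139 c678 c4479 c7115 c4444 c9597 c14595 c1209 (k8 c7132 c1526 c1965 c14596 c447 c1479 c645 c2120 (k2 c4338 c901 (k1 c13780 k0))))))))))) (by decide +kernel)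
def c14598 : PP 8 4 T 0x400100000000000040040000000501400101004400050020040481000154000014804 := rS 0x92231b51546bc2ea0d62170e81d031937aed3e712f894400d (k8 c2495 c535 c313 c14382 c536 c11480 c11766 c1107 (k8 c4446 c7000 c83 c1025 c2497 c622 c4570 c12183 (k4 c6745 c13617 c4454 c2015 (k2 c1410 c322 (k1 c11448 k0))))) (by decide +kernel)
def c14599 : PP 8 4 T 0x100000000000000000000000080000000040000050000000000000000000000000 := rS 0xc711 (k2 c4337 c819 (k1 c4478 k0)) (by decide +kernel)
def c14600 : PP 8 4 T 0x1000000000000000000040000000044011100000000000020000401100155000020045 := rS 0x124463558284de1d (k8 c1025 c1107 c4551 c7962 c1033 c7007 c4209 c2110 k0) (by decide +kernel)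
def c14601 : PP 8 4 T 0x1000000040000000000000000100000000000004000000002040000000800 := rS 0x508907d6488d42b55ba3d6314519fdfa104f8f44e95329d54a8882a0496bf3ca151708439ee329d3ba9c9e9834a6c36ad210ce2653238b4a2296381c02550799c3e6d0b9bc1a914bacc2a251c86440582d80dc804 (k8 c14566 c14511 c303 c14597 c4476 c535 c2257 c2322 (k8 c313 c4284 c662 c1195 c14216 c2495 c1107 c2497 (k8 c4993 c271 c655 c12199 c12210 c54 c83 c4289 (k8 c4402 c4405 c4286 c4404 c4290 c4441 c173 c316 (k8 c2047 c7896 c1967 c1878 c317 c2265 c2007 c7751 (k8 c966 c4446 c702 c13785 c4465 c13509 c6224 c541 (k8 c5760 c3839 c7000 c5845 c13058 c9930 c2503 c557 (k8 c9931 c357 c10368 c11480 c14598 c4300 c670 c14599 (k8 c14600 c4350 c4388 c4353 c4389 c14445 c832 c8577 (k4 c10070 c2110 c4483 c4421 k0)))))))))) (by decide +kernel)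
def c14602 : PP 8 4 T 0x1000000040000000000000000000000001001000000000001001204415024 := rS 0x470d53295522e2f97506fc139a50a8184064d633 (k8 c430 c6097 c2257 c4465 c4439 c6224 c13396 c350 (k8 c4463 c4570 c12183 c14382 c14429 c2831 c1843 c14495 (k2 c9576 c2826 (k1 c4467 k0)))) (by decide +kernel)
def c14603 : PP 8 4 T 0x20001001000000040040000600400000044144400540020140540585155600000000 := rS 0xb66112146cb41b3d35445e8b89ac162a5d5eab3caa5729f50a9496bb (k8 c4945 c1413 c4385 c4329 c11480 c1203 c14588 c540 (k8 c14076 c5815 c1195 c4530 c6869 c324 c2111 c7460 (k8 c4474 c836 c4400 c4452 c4455 c4772 c2110 c4775 (k2 c323 c1167 k0)))) (by decide +kernel)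
def c14604 : PP 8 4 T 0x1000000001002000040000000000000000100000000000020000100001040004000824 := rS 0x4c680bc844b5da9618a71388c6c5f5811c762d63acc0255339bc3a07488e4ee1f2d9ed0e5134a2d03080cabc52ab35bf4e27f0aaa49e101283440610b9b41e33 (k8 c430 c12199 c4993 c2497 c617 c535 c2495 c313 (k8 c14602 c446 c14588 c4284 c670 c2498 c4300 c6097 (k8 c14076 c4402 c5815 c2257 c4465 c4439 c13509 c13396 (k8 c4405 c13785 c702 c14597 c271 c7135 c2322 c14216 (k8 c83 c1025 c1107 c655 c12210 c54 c662 c4289 (k8 c4286 c4403 c4404 c7962 c14101 c623 c7007 c351 (k8 c4532 c7312 c4385 c4945 c1413 c14603 c6259 c13069 (k2 c2111 c2278 k0)))))))) (by decide +kernel)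
def c14605 : PP 8 4 T 0x1000000040000140100000800001105414000000040140000000400400000 := rS 0x25d1504bf269005d19 (k8 c4448 c13624 c4472 c1993 c1054 c2122 c4452 c1854 (k1 c4474 k0)) (by decide +kernel)
def c14606 : PP 8 4 T 0x2000000001000000040000000000001101101105414000000040140005000200400020 := rS 0x4c5f12e8a83531794a26890bd36251c9ad52bb58af4468f (k8 c4388 c832 c4354 c4350 c4390 c14588 c6097 c2322 (k8 c313 c14605 c836 c4469 c14539 c4444 c351 c14540 (k4 c548 c4453 c1856 c7040 (k2 c4474 c9875 k0)))) (by decide +kernel)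
def c14607 : PP 8 4 T 0x1002000040000000000000000100000000000020000100001040004000824 := rS 0x2b4ca8931c412a7349c5d883c680be32428a13ce2103c9ad56af4ca053a85459a46708439ec5a511481caa0f339b42e6f308352297598544a193b8803e5b (k8 c14597 c271 c535 c7135 c2257 c313 c4284 c662 (k8 c1195 c14216 c2495 c617 c1107 c2497 c4993 c655 (k8 c12199 c12210 c83 c4402 c4405 c4286 c702 c13785 (k8 c4465 c430 c13396 c13509 c6224 c1234 c4439 c6171 (k8 c5815 c14076 c6097 c540 c14602 c2498 c446 c14604 (k8 c14606 c4446 c6259 c13069 c340 c341 c4416 c1654 (k8 c1614 c1786 c4487 c7153 c7172 c4412 c4338 c13198 k0))))))) (by decide +kernel)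
def c14608 : PP 8 4 T 0x1000000000001000000001002000040011400000401540000000000000000014000105445000000000 := rS 0x2229549c5d6c3c242846d0c1a88d9a4e298b4a2c74f91d5312 (k8 c4469 c4345 c4404 c11480 c4289 c4405 c4286 c4290 (k8 c4474 c1479 c1489 c1491 c4467 c4470 c4329 c13318 (k4 c322 c323 c4416 c1654 (k2 c1746 c10610 (k1 c4487 k0))))) (by decide +kernel)
def c14609 : PP 8 4 T 0x440100000000000505414000000008000100000000001000 := rS 0x10abd (k2 c1859 c1319 (k1 c2122 k0)) (by decide +kernel)
def c14610 : PP 8 4 T 0x1000000000001000000001002000040011400000401440000000000000000014000105445040000000 := rS 0x99 (k2 c6171 c14608 k0) (by decide +kernel)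
def c14611 : PP 8 4 T 0x20002000002000000100000000000000000000000040401001000000044400015000 := rS 0x8291c262d0a8a58e7d (k8 c4379 c4289 c4402 c4284 c4286 c4401 c4404 c9269 (k1 c13613 k0)) (by decide +kernel)
def c14612 : PP 8 4 T 0x1001000001002000040000000000000040000405414041101010000100045200015800 := rS 0x4412a7349c5d6c3c2428618751b08c6a4e258be8a9b5dafe30b30aac592132fa04fafc (k8 c4463 c4379 c4380 c14382 c4401 c10573 c622 c4284 (k8 c662 c4482 c7782 c11057 c4448 c8243 c836 c14609 (k8 c4474 c1491 c1490 c4470 c10883 c4467 c4329 c14611 (k8 c322 c323 c4416 c1654 c1614 c1746 c4487 c10636 k0)))) (by decide +kernel)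
def c14613 : PP 8 4 T 0x1000000000000000104000520000040111010414040040000000420000000000000 := rS 0x5c9ccfe754aa1e9711 (k8 c4338 c4458 c1905 c861 c11025 c4235 c4683 c6781 (k1 c9361 k0)) (by decide +kernel)
def c14614 : PP 8 4 T 0x1000001002000040100000500400040110118414040041054080005444200000000 := rS 0x5c9fd0ec4a59d5a0c156add6a345fa144544298ec5a5112b0d5e2955aa54b12 (k8 c4469 c4444 c4345 c14076 c4402 c5815 c1211 c313 (k8 c4405 c4286 c4403 c4290 c4474 c2111 c4397 c4399 (k8 c833 c7883 c1037 c14613 c5957 c2112 c709 c4426 (k4 c341 c1630 c4235 c1254 (k1 c4032 k0))))) (by decide +kernel)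
def c14615 : PP 8 4 T 0x1000000000000000100000544000040110118414040041508190405550000001000 := rS 0x1a2ad42ae868c3 (k4 c1211 c1955 c1954 c1319 (k2 c14613 c4912 (k1 c2112 k0))) (by decide +kernel)
def c14616 : PP 8 4 T 0x1001000001002000040000000000000041110401014001140010100001040210011820 := rS 0x8288e18492712d531255abd4e3317af4844135c64f453238ec5a5114b1c0eb30a954ce393b87d62c90997c4e25409f5f80f (k8 c12199 c4463 c4379 c4380 c313 c350 c14382 c4401 (k8 c10573 c622 c271 c7135 c2322 c655 c12210 c4284 (k8 c662 c83 c4289 c4402 c4405 c4286 c4403 c4404 (k8 c4290 c14612 c4366 c2530 c1049 c703 c1171 c6988 (k8 c431 c4500 c5815 c14076 c4469 c4345 c14615 c14614 (k4 c2298 c5807 c1490 c9269 (k1 c13613 k0))))))) (by decide +kernel)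
def c14617 : PP 8 4 T 0x2001002001000000040000000000000000000405410000400000000001004200000020 := rS 0xd63217a12269b8c2f4468f (k8 c4388 c832 c4354 c4482 c4448 c9296 c6225 c836 (k2 c4469 c562 (k1 c431 k0))) (by decide +kernel)
def c14618 : PP 8 4 T 0x1002000040000000000000000100000000000020000100001040000010824 := rS 0x9e4b198bc844135c64f4a78608c6e8f5dc50e27d4097cbac926a0df8275884caa0f3385cde61068740e914bacc4a771007cb7093ca243415 (k8 c4284 c14607 c678 c2504 c4316 c14597 c271 c535 (k8 c7135 c313 c662 c1195 c14216 c83 c1025 c2495 (k8 c617 c1107 c2497 c655 c12199 c12210 c4401 c622 (k8 c350 c4463 c4570 c374 c10573 c12183 c14382 c4380 (k8 c4379 c536 c14616 c4390 c4388 c4386 c832 c4467 (k8 c4330 c14617 c4366 c2530 c1049 c703 c6988 c431 (k2 c1954 c338 (k1 c14614 k0)))))))) (by decide +kernel)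
def c14619 : PP 8 4 T 0x1000000001002000040011400000501440000000000000000014000105445440000000 := rS 0x13a88a9 (k4 c6029 c14610 c2111 c4396 k0) (by decide +kernel)
def c14620 : PP 8 4 T 0x1000000000000011100600010040014045404800001002000180040000000000 := rS 0xc9104530d2a7549c5ce6b63ead47943 (k8 c4421 c322 c1703 c1622 c323 c4956 c4416 c1654 (k4 c627 c1746 c1167 c2123 (k2 c4487 c564 (k1 c4412 k0)))) (by decide +kernel)
def c14621 : PP 8 4 T 0x400001001000000040051000610010040015045405840041040400180155408000000 := rS 0x11673619d55e7d4ad0e22a224aa57a8384ae49a9f (k8 c11480 c2276 c1203 c4316 c639 c7460 c5323 c14620 (k8 c2110 c4337 c4393 c859 c1354 c988 c11025 c5849 (k2 c4956 c565 (k1 c2123 k0)))) (by decide +kernel)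
def c14622 : PP 8 4 T 0x400000000000000001011010410080040014805440000040000000000000000000000 := rS 0x22d867557b3d2b11 (k8 c4337 c859 c1524 c989 c11025 c5849 c645 c2123 k0) (by decide +kernel)
def c14623 : PP 8 4 T 0x400000000000000001051000610014040014805440000040010400180155400000000 := rS 0x8b619d59eb65a92146b9 (k8 c1203 c14622 c2110 c1703 c323 c1791 c627 c1168 (k2 c645 c2123 k0)) (by decide +kernel)
def c14624 : PP 8 4 T 0x1000000000000000000040000000004001100040080040045000400100155000020045 := rS 0x146951e9960a58 (k4 c4476 c4408 c1649 c1614 (k2 c1617 c14599 (k1 c14600 k0))) (by decide +kernel)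
def c14625 : PP 8 4 T 0x1000000001002000040000000000510040000001045000040000140001045608020820 := rS 0x19a82272b50e6a898c85e4b4daee30bf60b153a7b1d8b4a22963accaa673b87e12897e9fc2a3503a149a36580e53e47 (k8 c4404 c11480 c2322 c7962 c623 c2276 c2695 c83 (k8 c1033 c4284 c670 c4300 c678 c4316 c271 c7135 (k8 c655 c12210 c662 c4289 c4402 c4405 c4286 c4403 (k8 c703 c967 c4530 c6869 c6330 c4482 c4449 c4448 (k8 c1413 c836 c14619 c4340 c431 c7128 c942 c14621 (k2 c447 c1479 (k1 c14623 k0))))))) (by decide +kernel)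
def c14626 : PP 8 4 T 0x1000000001000000040000000000000000100000000000004000000000040000000800 := rS 0x2593c5e33211cd4aa750a7e182711a146c352fac08e2d14b1c0255339b4de610e81d22975989472203c869fa713f84062450f824b05b0200c2ae4 (k8 c14511 c4284 c303 c14566 c14597 c4476 c13906 c271 (k8 c13923 c14601 c14618 c670 c2498 c4300 c14607 c2504 (k8 c535 c2322 c313 c662 c1195 c14216 c83 c1025 (k8 c617 c1107 c4993 c655 c12210 c54 c4289 c4402 (k8 c4286 c4404 c7962 c14101 c1033 c623 c2695 c7007 (k8 c351 c7312 c11480 c4329 c4330 c4385 c14624 c14625 (k4 c2293 c1953 c2296 c1955 (k1 c14390 k0)))))))) (by decide +kernel)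
def c14627 : PP 8 4 T 0x2011000000000000001000000420040440114010404041040000000000000000000000 := rS 0x17073649d52aa131d2e22b5 (k8 c4389 c4338 c4458 c821 c901 c860 c11025 c7497 (k2 c4683 c11734 (k1 c6781 k0))) (by decide +kernel)
def c14628 : PP 8 4 T 0x2011000000000000040000400444840400116440410040060560000005550000000000 := rS 0x64881d142b94fd0d927367121974b682b4fa6f30a5d62b75ad1496cd (k8 c2062 c1856 c4453 c4389 c4353 c4350 c1195 c617 (k8 c1107 c1502 c14627 c2112 c4426 c1751 c7073 c381 (k8 c4683 c7484 c4421 c1662 c1525 c1794 c2121 c4489 (k2 c538 c4412 k0)))) (by decide +kernel)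
def c14629 : PP 8 4 T 0x2000000001000000040000000400001001110044410000061500000005150208000020 := rS 0xad68a19084c4192d03455193e1aa61344956af33985762347afcde2f4dc60f309 (k8 c4316 c2504 c4482 c4448 c836 c1107 c7782 c4388 (k8 c832 c4390 c617 c655 c5815 c14076 c4469 c9296 (k8 c4539 c8237 c2415 c934 c4453 c1897 c1856 c639 (k4 c4474 c7040 c14628 c1630 (k2 c1905 c2112 k0))))) (by decide +kernel)
def c14630 : PP 8 4 T 0x2000000001002000040000000000000000100000000000020000140001040000000824 := rS 0x192207457aae96c3459cd94d0679f686481a939048152c304e8556a1cd44d898c97ec162a74f6531d8b4a2292a9bcc2914baccee1f2dc24f2890d3f4e27f0805576b15e88d1e20 (k8 c535 c4388 c832 c4354 c4350 c4390 c4284 c14618 (k8 c670 c2498 c4300 c14607 c678 c2504 c4316 c14597 (k8 c271 c7135 c662 c1195 c14216 c617 c1107 c12210 (k8 c4402 c4405 c4286 c4403 c4290 c703 c967 c4530 (k8 c6869 c7782 c14629 c4340 c2339 c431 c7128 c942 (k8 c711 c14259 c7312 c4385 c1922 c7040 c639 c1491 (k8 c13085 c4421 c1622 c1791 c452 c453 c4956 c645 (k8 c8129 c4426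 c1670 c8140 c2123 c4491 c538 c4412 k0)))))))) (by decide +kernel)
def c14631 : PP 8 4 T 0x40044005545100000000448014001001544400005555400020000 := rS 0x745cb04e6ce3ed0c90c966a8d424c53c313efd (k8 c4300 c11480 c7312 c4558 c2111 c4329 c9064 c2062 (k8 c14582 c2110 c4421 c1622 c7781 c4956 c1716 c1526 (k2 c2121 c709 k0))) (by decide +kernel)
def c14632 : PP 8 4 T 0x1001000002000000100005554000000000458054000000000080005440200000000 := rS 0x5c3129675683045a5114c658653 (k8 c4290 c2054 c4446 c4402 c4405 c4286 c5957 c2112 (k4 c709 c4426 c341 c2121 (k1 c13387 k0))) (by decide +kernel)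
def c14633 : PP 8 4 T 0x2001001000002000001100000444040040016448014040040000080005440200000000 := rS 0x5c9d52ac131d2e22ac3e9cd62b75ac658653 (k8 c4290 c2054 c4446 c4389 c4353 c4350 c1231 c1502 (k8 c14632 c4338 c4458 c821 c1987 c861 c11025 c8268 (k1 c11734 k0))) (by decide +kernel)
def c14634 : PP 8 4 T 0x44000000008000000040001500000005550000000000 := rS 0x15ad1 (k2 c1630 c1905 (k1 c2112 k0)) (by decide +kernel)
def c14635 : PP 8 4 T 0x2000001000002000000000000444040040004440014040840020080005440208000000 := rS 0x3455acf503219a84298b4a22984a242a7a (k8 c335 c4284 c678 c4316 c4402 c4405 c4286 c4290 (k8 c375 c2062 c14633 c547 c1793 c901 c381 c2112 k0)) (by decide +kernel)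
def c14636 : PP 8 4 T 0x1001000002000004000005554000040014448014000800000080005440200000000 := rS 0xc91064254fac41e52da053169445273 (k8 c1231 c4402 c4405 c4286 c4290 c2112 c4426 c340 (k4 c341 c4634 c1786 c14632 (k2 c7465 c546 (k1 c4412 k0)))) (by decide +kernel)
def c14637 : PP 8 4 T 0x1000000040000000000000000100000000000004000000000040000000800 := rS 0xb93a9f5929550b0697115633d4f4442934e6875197a1a2652aa556af4192c9e2f199e9864211ad56e8f58aee287f38bf4208984868622522a5c3a20309bc3e582d824a6471694452c70380d661572154ce04 (k8 c14566 c655 c12210 c14511 c4284 c662 c303 c83 (k8 c4289 c4402 c4405 c4286 c4404 c4290 c13906 c14597 (k8 c4476 c271 c1107 c617 c535 c1025 c1195 c13923 (k8 c313 c14601 c14607 c4316 c678 c14618 c4300 c2498 (k8 c670 c14626 c4390 c4350 c4388 c4353 c4389 c832 (k8 c14630 c2054 c335 c2293 c1953 c2296 c1954 c2625 (k8 c5815 c14076 c6029 c5936 c14631 c4324 c351 c934 (k8 c14634 c1231 c14635 c711 c4474 c5558 c4400 c14636 (k8 c4338 c4458 c1987 c900 c861 c7497 c4634 c709 (k2 c6781 c2121 k0))))))))))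 (by decide +kernel)
def c14638 : PP 8 4 T 0x1000000000000000000000000000000000000004000000002000002000820 := rS 0x9c1087cec42 (k4 c308 c309 c2201 c2257 (k2 c14397 c1091 k0)) (by decide +kernel)
def c14639 : PP 8 4 T 0x1002000080000000000000000000000000000004000000002040000000820 := rS 0xc16190d3a3d43104d65a0f424d21a0c914a63b288fd6615 (k8 c4284 c662 c4288 c4405 c4403 c4290 c2235 c14638 (k8 c13532 c1878 c4316 c7896 c6533 c2559 c7115 c6832 (k4 c274 c1232 c2208 c1907 (k2 c6869 c12813 k0)))) (by decide +kernel)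
def c14640 : PP 8 4 T 0x1002000010004000000000000000000000000000000151000000000000000 := rS 0xc1298eca23f (k4 c4288 c4405 c4403 c4290 (k2 c6869 c6159 k0)) (by decide +kernel)
def c14641 : PP 8 4 T 0x11000000000002000080000000001500000100406405551080000000000040000000000 := rS 0x2397d0d4228d025d2fa460a86 (k8 c6832 c4410 c888 c577 c841 c7000 c13617 c2119 (k4 c5243 c603 c4486 c1515 k0)) (by decide +kernel)
def c14642 : PP 8 4 T 0x1000000001002000080000000000000000100000000000080000040001040000000820 := rS 0x3f289702550add6a377e9b992a7391d580bd3c1de32444fb45870532a1882a554aacd23d35a44661e2f8248e2d288fc52c759854aa0f3392c4e392488cc2013685e12830d064227b (k8 c703 c4276 c268 c13532 c638 c4316 c170 c695 (k8 c54 c5402 c4372 c4281 c4280 c4278 c4375 c655 (k8 c12199 c12210 c4284 c662 c4289 c4402 c4288 c4405 (k8 c4286 c4404 c13906 c577 c575 c6119 c888 c2559 (k8 c274 c7139 c14076 c6029 c5936 c7115 c6832 c1652 (k8 c4410 c1907 c1630 c6233 c14640 c4364 c1089 c7132 (k8 c1169 c10171 c1693 c1965 c4500 c3660 c14641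 c4378 (k8 c1343 c1348 c1078 c11524 c11222 c4034 c2110 c1086 (k1 c6696 k0))))))))) (by decide +kernel)
def c14643 : PP 8 4 T 0x2000002000080000000000000000000040000000001000000000000000000000 := rS 0x7d (k2 c4379 c6684 k0) (by decide +kernel)
def c14644 : PP 8 4 T 0x1000000000002000080000000100000000900040000000021000000000000000004000 := rS 0xc93e9c0bcfd2384c2ac7089241a6f (k8 c1107 c4371 c4281 c4276 c4289 c4284 c4401 c4404 (k4 c14643 c13430 c4480 c3402 (k2 c2499 c2107 k0))) (by decide +kernel)
def c14645 : PP 8 4 T 0x1000000001002000080000000100400001110000000000021000000005441000004000 := rS 0x68ab59f433f23a1acda2a8c9ca555abca62d288a58e4b139249a23 (k8 c4372 c4282 c4281 c4278 c4375 c4289 c4402 c4405 (k8 c4286 c4290 c5815 c14076 c5936 c13552 c13232 c4396 (k8 c1479 c5243 c4486 c14644 c4392 c1522 c6601 c5846 (k1 c2112 k0)))) (by decide +kernel)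
def c14646 : PP 8 4 T 0x2000080000000000000000000000000000000000000008000000000024 := rS 0x10e69 (k2 c822 c7128 (k1 c6832 k0)) (by decide +kernel)
def c14647 : PP 8 4 T 0x1000000001000000000000000000000000100000000000004000040000040000000800 := rS 0x14e2f4dc60ee2548880f21f2c16c12072a83d621184a2434191885466d20200dc87b (k8 c703 c14511 c303 c14566 c14637 c14646 c4284 c14639 (k8 c268 c13532 c678 c4316 c4276 c622 c12199 c12210 (k8 c83 c13906 c14642 c4476 c271 c7136 c535 c14216 (k4 c7033 c7135 c4482 c4448 (k2 c836 c13601 (k1 c14645 k0)))))) (by decide +kernel)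
def c14648 : PP 8 4 T 0x2000000000002000080000000400000000100000000000081000000000040000000020 := rS 0x1fcfafc37ae21a3d2ea5c3c5f238ec5267138e492231a984028f1badce2b5 (k8 c4389 c4387 c4353 c4386 c4388 c54 c5402 c4373 (k8 c4372 c4281 c4280 c4278 c655 c4402 c4403 c4404 (k8 c577 c575 c928 c840 c274 c13085 c7430 c9688 (k4 c4477 c1356 c7096 c6684 k0)))) (by decide +kernel)
def c14649 : PP 8 4 T 0x10000000002000080000000000000000002050000001101000000005441000004000 := rS 0xac5017990cd7e91c261563844920d (k8 c4371 c4281 c4276 c4289 c4284 c4401 c4404 c14643 (k4 c1481 c2107 c4477 c547 (k2 c6231 c901 k0))) (by decide +kernel)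
def c14650 : PP 8 4 T 0x1000000000000000000000000100000000000004000040000040000000800 := rS 0x1eae4eb053f1f50e5d420bd4c9b8c434ee255fa653a97101bcf21f2c16d6a715eadd223747c50f6092991c762d288fd8eb30a9541e67138e492353080612830d06422af14aad5223528cc06310239096d2 (k8 c14637 c4375 c14511 c14566 c14639 c303 c14646 c5936 (k8 c4372 c6029 c14076 c4402 c5815 c4276 c268 c13532 (k8 c638 c4316 c54 c5402 c4373 c4281 c4280 c4278 (k8 c655 c12199 c12210 c4284 c662 c4289 c4288 c4405 (k8 c4286 c4403 c4404 c4290 c13906 c703 c14647 c4388 (k8 c4386 c4352 c4353 c4354 c4387 c4389 c14648 c4476 (k8 c271 c7136 c1107 c535 c1195 c1234 c6171 c7782 (k8 c313 c7135 c13085 c4482 c4448 c7959 c836 c7469 (k8 c813 c14634 c1502 c14649 c4313 c2502 c7096 c10368 (k1 c2113 k0)))))))))) (by decide +kernel)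
def c14651 : PP 8 4 T 0x1000000001002000080000100100000001110000000000021000000005441000004000 := rS 0xa7 (k2 c4500 c14645 k0) (by decide +kernel)
def c14652 : PP 8 4 T 0x1000000000000000000000000100000000000004000000000040000000800 := rS 0x7c42175faa63f93e1b17388de2873438bc4a9748880b09d2d9e57a993d114824252aa4d6ab578cd06898485c341918ac4c2351193492270892da4670795402045980ca62d2885452e4 (k8 c14511 c4402 c4284 c4405 c4286 c4290 c303 c662 (k8 c14566 c54 c12210 c12199 c655 c14637 c4375 c4276 (k8 c4278 c4281 c4282 c4372 c4373 c5402 c622 c14639 (k8 c268 c13532 c170 c4316 c678 c638 c14646 c5815 (k8 c14076 c6097 c6029 c5936 c14650 c91 c175 c335 (k8 c1926 c2014 c599 c2688 c7784 c4476 c6841 c14216 (k8 c1195 c313 c837 c14634 c1231 c14651 c4386 c4387 (k8 c4963 c13085 c338 c10049 c4839 c14643 c813 c5558 (k2 c14649 c1502 k0))))))))) (by decide +kernel)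
def c14653 : PP 8 4 T 0x1000000001000000040000000000000000100000000000004000040002040000000010 := rS 0x2d686b73f3353e67519392717470909aa525d1584365e1f5068158974be391e8d50afc31994e21e0029e3077019ec429b209a436ad68c4c52c772114da6f2c16c3a913c8181609 (k8 c13906 c14652 c4462 c501 c12700 c10867 c12637 c4476 (k8 c1107 c4993 c14083 c14511 c4289 c4402 c4441 c300 (k8 c2047 c294 c1879 c1913 c1966 c316 c14312 c14463 (k8 c7751 c4472 c13601 c10353 c4466 c2431 c491 c754 (k8 c8563 c5976 c1099 c274 c8383 c14101 c4377 c4304 (k8 c4380 c4306 c4379 c6225 c4470 c14640 c8243 c1859 (k8 c1939 c2204 c272 c273 c4362 c1128 c4474 c1464 (k8 c657 c1428 c1479 c11058 c1168 c4392 c1433 c4989 k0)))))))) (by decide +kernel)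
def c14654 : PP 8 4 T 0x1000000001000000040000000000000001100000000000020000140001000094000090 := rS 0x99531a4324e5e29576852583d06815897d1c2426835f86b38aa57e36119747200198d4da6f309e4ee7b (k8 c14312 c14098 c501 c617 c1107 c4993 c1099 c432 (k8 c1098 c8383 c8197 c9135 c4470 c6330 c6029 c2431 (k8 c493 c8563 c1407 c2204 c272 c273 c14101 c4304 (k8 c4380 c4306 c4376 c3400 c8500 c6870 c5936 c2122 (k4 c7460 c258 c757 c2119 (k2 c2011 c5989 k0)))))) (by decide +kernel)
def c14655 : PP 8 4 T 0x21821000000000000040000000100001001100000414000000020040100000004000008 := rS 0xbd4790468171b8bd06fc (k8 c4480 c4306 c8877 c324 c1990 c4470 c8238 c11002 (k2 c1039 c12894 k0)) (by decide +kernel)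
def c14656 : PP 8 4 T 0x1000000001002000040011000100001441100005414001000000040105045044000008 := rS 0x42af4944d8c2fe130c11a0d025d7e03c125f53a96242f (k8 c8877 c4469 c4444 c13601 c14101 c13906 c10635 c4480 (k8 c4377 c4380 c4306 c792 c4467 c12516 c12619 c4482 (k4 c14655 c14619 c1859 c1320 (k1 c6225 k0)))) (by decide +kernel)
def c14657 : PP 8 4 T 0x1000000001002000040011000000000441100005410000020000040105045044000008 := rS 0x232805d1289a23072fc6c0d7eac14b12379853a011797d4e11 (k8 c342 c13601 c14101 c8877 c487 c1234 c617 c1107 (k8 c4469 c4444 c14656 c4304 c505 c8612 c1242 c12381 (k4 c793 c324 c14619 c1413 (k2 c1333 c4449 (k1 c7000 k0))))) (by decide +kernel)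
def c14658 : PP 8 4 T 0x20000000002000000000000100000040000000140001500002000080044400010000 := rS 0x8825566938bad878a1 (k8 c4329 c322 c323 c4416 c1654 c1163 c1746 c4487 (k1 c10636 k0)) (by decide +kernel)
def c14659 : PP 8 4 T 0x1400000000002000040000400100400040001005414041400010000100045010000188 := rS 0xcb0551150920d1b2ee18233ea04ba8364bf01e1514b1cea13398ec5e11 (k8 c342 c8877 c4403 c1021 c4401 c498 c4289 c4402 (k8 c4284 c10635 c4480 c10573 c9038 c4377 c4380 c4379 (k8 c792 c4467 c4825 c9081 c1407 c14658 c14611 c7771 (k2 c9269 c1646 (k1 c13617 k0))))) (by decide +kernel)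
def c14660 : PP 8 4 T 0x1000000000001010010080040044041540040000000140400000004000000 := rS 0x186895998d2b11 (k4 c4337 c859 c819 c7239 (k2 c4794 c13033 (k1 c8505 k0))) (by decide +kernel)
def c14661 : PP 8 4 T 0x1000000001002000040000000000000001100000000000020000140001040014000410 := rS 0x20b172a0f16648519fe18b9118386c0d7eac1168742afc9aad0cc4c649f088e54e272fa6ce22f4b8940467100043e9d3d91c5a296396cea13399b4de613cb1476c1289dc0c09 (k8 c13906 c4462 c14098 c4405 c6869 c4403 c4530 c501 (k8 c617 c1107 c4993 c1021 c4401 c498 c12637 c4289 (k8 c4402 c4286 c4404 c14312 c1234 c14654 c487 c4466 (k8 c5084 c4461 c313 c926 c8877 c11634 c13624 c14101 (k8 c12391 c13601 c360 c342 c11480 c14657 c4340 c6737 (k8 c942 c376 c5760 c14326 c13785 c5853 c14659 c4304 (k8 c505 c8612 c12381 c793 c1471 c11620 c1455 c14660 (k4 c4200 c14297 c322 c242 (k2 c4416 c4406 (k1 c4481 k0)))))))))) (by decide +kernel)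
def c14662 : PP 8 4 T 0x20000100000000008000490 := rS 0x33014493a014d900f46d (k8 c4993 c688 c689 c14113 c686 c3040 c7035 c4461 (k2 c4340 c422 k0)) (by decide +kernel)
def c14663 : PP 8 4 T 0x1000000001000000040000000000000000100000000000004000040000040000000010 := rS 0xc5c81d4886cb05b22818120b (k8 c14652 c13906 c4462 c14083 c12637 c4476 c14662 c12700 (k4 c10867 c14511 c14653 c14661 k0)) (by decide +kernel)
def c14664 : PP 8 4 T 0x1000000000000000040000000000000000100000000000020000080002000010000510 := rS 0x8d206 (k4 c4462 c1879 c14462 c14463 k0) (by decide +kernel)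
def c14665 : PP 8 4 T 0x1000000001000000040000000000000000100000000000004000000000040000000010 := rS 0x1161e2e5a0ce5bad686cd1b92098a38612c46812eaf5f8b13d13e121853a7c22391397d4aa938c4956af128cc04200087c62173c8bceec38c908a6471d8b4a22963b90de1d4886cb05b22818120b (k8 c14652 c13906 c4462 c14083 c12637 c4476 c14662 c12700 (k8 c10867 c1107 c14511 c4289 c4402 c4405 c4286 c4403 (k8 c4404 c4290 c14663 c4446 c2054 c1887 c1953 c7034 (k8 c1950 c14664 c276 c487 c4466 c4461 c6257 c313 (k8 c5815 c14076 c4469 c11634 c4345 c4444 c14101 c12391 (k8 c360 c342 c11480 c4558 c14471 c4436 c14473 c4482 (k8 c14468 c4480 c1171 c4377 c4380 c792 c1874 c4467 (k8 c9064 c2111 c4200 c325 c2062 c4421 c1703 c7094 (k4 c7781 c1790 c1526 c340 (k2 c4492 c4416 k0)))))))))) (by decide +kernel)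
def c14666 : PP 8 4 T 0x22000000000000000000000000000000000100000000000040008000002000005000000 := rS 0x425482258af4e22f (k8 c61 c4387 c4354 c4350 c1915 c1914 c7899 c7900 k0) (by decide +kernel)
def c14667 : PP 8 4 T 0x2000000001000000000000000000000000100000000000004000040002040000000010 := rS 0x179044e4092dfa4d428647a35000797f183b80c429b209a46713178fcda6f3087576391baf4e27960945c89d3d86c8a062c16c1609 (k8 c13906 c14652 c12637 c4476 c4462 c14083 c14662 c14312 (k8 c1234 c14511 c4405 c6869 c501 c4387 c4354 c4386 (k8 c4348 c4390 c10867 c617 c1107 c4993 c4288 c61 (k8 c4441 c173 c1879 c1913 c1966 c316 c14463 c7751 (k8 c4472 c5760 c4466 c4461 c1099 c274 c9671 c5976 (k8 c12989 c13754 c14666 c6395 c2114 c7040 c13302 c2436 k0)))))) (by decide +kernel)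
def c14668 : PP 8 4 T 0x2000000001000000040000000000001000100000000000000000140005405080000000 := rS 0x4609b1220a6d7e35 (k8 c1099 c6330 c13624 c1104 c4469 c13817 c4472 c14590 k0) (by decide +kernel)
def c14669 : PP 8 4 T 0x2000000001002000000000000000000000000011004011400020141010800004000002 := rS 0x1648a0c05d06c98c3f0bb0d20a9a8a3f588dd8a3b60944f6bf (k8 c6330 c14312 c4405 c6869 c4403 c4530 c4386 c4350 (k8 c4288 c4451 c1992 c1995 c4330 c2714 c13293 c4472 (k4 c7308 c4306 c1990 c12954 (k2 c12955 c12956 (k1 c722 k0))))) (by decide +kernel)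
def c14670 : PP 8 4 T 0x2000002001000000040000400000000000100005400000020010000000001004000002 := rS 0x58d04e8992e13458c2101e83409b4debb38a744e61 (k8 c617 c870 c1234 c4387 c4390 c1107 c4993 c4380 (k8 c4306 c4376 c7040 c10474 c4397 c4321 c1320 c14590 (k4 c4474 c5976 c4501 c7300 k0))) (by decide +kernel)
def c14671 : PP 8 4 T 0x400000000012020001001000000040041000045100000000010004015560012140011000004000082 := rS 0x88669fd944e06d16264b411a5308540a1d1708202ece211589e4f677358ccdaa7 (k8 c13293 c4993 c950 c493 c14098 c14312 c501 c4350 (k8 c608 c4387 c4390 c4472 c4482 c9998 c10171 c7000 (k8 c13580 c5810 c4437 c12981 c9350 c4443 c8506 c12839 (k4 c4474 c4599 c7414 c1479 (k2 c13143 c2025 k0))))) (by decide +kernel)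
def c14672 : PP 8 4 T 0x2000000001002000040000000000000041100000000000060000140001041484000082 := rS 0x44334feca270368a4b412050e8545c20d29889c6090a986175768f5e9c582513598d5e2955d0d4aa77e9345c27199b53a7d2384562371cad476b71fb1c7a6537afc6a773d9e4be61 (k8 c617 c489 c501 c14312 c14098 c1099 c6330 c1107 (k8 c491 c274 c4289 c4288 c4353 c4403 c4389 c4348 (k8 c4386 c4350 c608 c4404 c8221 c1234 c4993 c950 (k8 c870 c14668 c14669 c14670 c13293 c1843 c8226 c14076 (k8 c4402 c5815 c754 c493 c4405 c6869 c4387 c4354 (k8 c4388 c4390 c752 c4467 c6029 c13085 c14671 c14590 (k8 c7959 c1880 c8246 c14050 c10110 c10041 c4439 c12981 (k8 c9350 c8506 c12839 c4474 c4599 c7414 c1479 c13143 (k1 c2025 k0))))))))) (by decide +kernel)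
def c14673 : PP 8 4 T 0x1000000000002000001001002000001000400004000440144040005150000001001011000004010002 := rS 0x3260a8868ab59e938bae08e511fb1c72375bad4d663148ce863b (k8 c4403 c8226 c950 c4402 c754 c493 c4389 c4353 (k8 c4386 c4348 c4289 c4288 c4405 c4404 c7430 c4361 (k8 c1125 c1525 c13185 c5846 c8137 c5842 c637 c8525 k0))) (by decide +kernel)
def c14674 : PP 8 4 T 0x12000001001002000040000000004100040100000000010460010141011000904000082 := rS 0x1668956b2194cf2419d50cd2e1fc9c0e06c4c9745411a5309b42a050e8b84100ea1339aed7a713cb1582514e9ecee6b318a4666d5fd0cfa473784562371cad476b71fb1d4e61 (k8 c617 c13293 c4289 c4288 c4353 c4403 c4389 c4348 (k8 c4386 c4350 c608 c1107 c4404 c8221 c8226 c6330 (k8 c4993 c950 c4402 c754 c493 c14098 c14312 c1234 (k8 c4405 c6869 c4530 c501 c4387 c4354 c4390 c1021 (k8 c4401 c498 c4472 c4482 c9998 c10171 c7000 c13580 (k8 c1849 c5810 c4437 c10474 c8506 c9350 c4443 c12839 (k8 c9038 c4474 c7414 c1327 c1479 c1489 c923 c14673 (k4 c1791 c8354 c243 c6601 (k2 c2025 c634 (k1 c8130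 k0)))))))))) (by decide +kernel)
def c14675 : PP 8 4 T 0x2000000000000000000000400000100401101405400400020000000000000000000000 := rS 0x132a984a00da6f30aece29d (k8 c1234 c4387 c4390 c617 c1107 c4993 c7040 c4439 (k2 c1362 c8246 (k1 c7469 k0))) (by decide +kernel)
def c14676 : PP 8 4 T 0x1000000040000000000000000002000000000000014000000000004404000 := rS 0x1381945 (k4 c4397 c8500 c4474 c1488 k0) (by decide +kernel)
def c14677 : PP 8 4 T 0x1000000040000000000000000002000000000000010000000000004404000 := rS 0x4a (k2 c14676 c1320 k0) (by decide +kernel)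
def c14678 : PP 8 4 T 0x400000001000000040000000000000000002000001000000010000000000804000002 := rS 0x5cd00f (k4 c3469 c5976 c7300 c14677 k0) (by decide +kernel)
def c14679 : PP 8 4 T 0x2000000001002000040000000000000041100000000000060000140001041184000082 := rS 0x112ad6533c906754334b87f459390e69070349619a2a090b134dc6044a77e9354a2e2f84cf29d3d9dcca6b3189cc2af14aac666d5fd0cfa3d238d4de11588dc72b51dadc7ec7 (k8 c4289 c4288 c4353 c4403 c4389 c4348 c4386 c4350 (k8 c608 c1107 c1099 c4404 c274 c8221 c8226 c6330 (k8 c4993 c950 c14076 c4402 c5815 c617 c870 c754 (k8 c493 c491 c14098 c14312 c1234 c501 c4401 c489 (k8 c14668 c1843 c14669 c14670 c13293 c14672 c14674 c4448 (k8 c14590 c14678 c14675 c4452 c3899 c1855 c12839 c9038 (k8 c2000 c2005 c4474 c5853 c7414 c1327 c1479 c1489 (k4 c923 c14673 c1791 c8354 (k2 c6601 c2025 (k1 c12794 k0)))))))))) (by decide +kernel)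
def c14680 : PP 8 4 T 0x400000000006000000001000000004040000000000044000000000000000500140015552080000000 := rS 0xcda2b409cad2590536bb1c8dd7aaf55afc9a49 (k8 c282 c284 c6330 c14076 c5815 c4354 c4386 c4348 (k8 c4390 c13624 c1104 c1374 c13185 c2114 c2112 c4396 (k2 c1479 c5846 k0))) (by decide +kernel)
def c14681 : PP 8 4 T 0x2000000001000000040000400000000000000005404001500010000000002004000000 := rS 0x25a101e8340bf01abb588e4e30d (k8 c4381 c4387 c4348 c4350 c4390 c1367 c4477 c4380 (k4 c4306 c4376 c7040 c14609 (k1 c8500 k0))) (by decide +kernel)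
def c14682 : PP 8 4 T 0x2000000001002000040000000000000001100000000000020000140001040010000414 := rS 0xad43a2cd2894d85909184083d060c2f33e2e675c24c92a3269761a24a1afd56af1e8d466634b9acca1e000848e131d9447e292d9b4de615d8e46eb738ad4f27b0d9dc0c09 (k8 c13906 c4462 c14098 c14662 c14312 c501 c4389 c4387 (k8 c4353 c4386 c4348 c4390 c617 c1107 c4993 c12637 (k8 c4402 c4288 c4405 c4403 c4401 c4404 c12555 c4461 (k8 c4466 c491 c493 c6579 c754 c950 c1099 c274 (k8 c5815 c14076 c6330 c8226 c14679 c4381 c1336 c284 (k8 c1464 c282 c12942 c7430 c657 c4361 c1525 c14681 (k8 c488 c2436 c1376 c3347 c10474 c7040 c14677 c4448 (k4 c685 c7300 c524 c1836 (k2 c13185 c2120 k0))))))))) (by decide +kernel)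
def c14683 : PP 8 4 T 0x100000044040000002010000041502420400005150402000000 := rS 0x7f31b2d154b682b53e658293d9a89 (k8 c2038 c2062 c177 c4406 c1646 c6237 c4903 c7129 (k4 c4426 c261 c1751 c1768 (k2 c725 c12374 k0))) (by decide +kernel)
def c14684 : PP 8 4 T 0x22000000001000000000100400000040440100105404041540520400005550404000000 := rS 0x166ac68a1caa890c2102f093ea0df8bb38b3482bd57aae1b12 (k8 c4469 c8237 c14076 c5815 c4354 c1994 c2062 c4387 (k8 c4390 c4477 c4306 c4379 c8862 c1990 c7040 c12954 (k4 c2038 c14683 c14634 c260 (k2 c2112 c10962 (k1 c14627 k0))))) (by decide +kernel)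
def c14685 : PP 8 4 T 0x2000002001000000040000000010000000100000140000820520540005150200000418 := rS 0x1fd66cba5a29a06f389e4468f27b3630415eabd5709421dd021158a744a7b0d818127d (k8 c4379 c13906 c4462 c14662 c14312 c313 c1234 c4350 (k8 c608 c1895 c14098 c14321 c4321 c14076 c5815 c4354 (k8 c1994 c4472 c2062 c177 c4388 c832 c501 c4387 (k8 c1107 c7129 c14331 c4426 c1751 c722 c725 c8253 k0)))) (by decide +kernel)
def c14686 : PP 8 4 T 0x2000002001000000040000000000000000100000140000820520540005150200000418 := rS 0x10eb3561f4b66f3099d2ecd86c6082bd518997e394da243017419ae242f84a10ee8108ac53a253d86c0c09 (k8 c13906 c4462 c14662 c14312 c313 c1234 c4350 c608 (k8 c1895 c14098 c14321 c4321 c8877 c4469 c4442 c548 (k8 c1990 c4465 c2038 c13624 c4348 c9875 c13817 c934 (k8 c4354 c1994 c4472 c8237 c2062 c926 c918 c617 (k4 c1107 c12637 c4379 c14685 (k2 c10962 c1905 (k1 c14627 k0))))))) (by decide +kernel)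
def c14687 : PP 8 4 T 0x2000001001000000040100000000000000100000000000022520540005150200000418 := rS 0xfe48453415a658292e8a4f66abd56890c05d066b89425085e519744d1820af57e3911a3d2e9b338bcf2613796cee8108ac53a253d86c0c09 (k8 c13906 c4462 c14662 c14312 c313 c1234 c4350 c608 (k8 c1895 c14098 c12637 c1107 c617 c501 c8877 c918 (k8 c13624 c926 c4388 c832 c4348 c9875 c4354 c1994 (k8 c4472 c13817 c807 c934 c14684 c14321 c4321 c4469 (k8 c4442 c548 c1990 c4465 c2038 c14076 c5815 c2062 (k8 c177 c4451 c120 c4406 c1646 c4903 c7129 c14331 (k2 c7073 c725 (k1 c8735 k0)))))))) (by decide +kernel)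
def c14688 : PP 8 4 T 0x2000000001000000040000000000000000100000040000020520540005150200040418 := rS 0x59ab1a2872a9f418fd4486212174220cbcc9519741f0d3589a24ab5796cea6f309e53a7b0d9dcce9b178952e2347afc728108ac40c0966c6082bd (k8 c4354 c1994 c4472 c2062 c13906 c4462 c4350 c608 (k8 c1895 c4348 c9875 c4388 c832 c926 c313 c8877 (k8 c13624 c918 c14098 c14662 c14312 c1234 c501 c617 (k8 c1107 c498 c12637 c5815 c14076 c4469 c13817 c4442 (k8 c8237 c239 c807 c934 c10573 c14684 c548 c14321 (k8 c1990 c4321 c4465 c2038 c14686 c4463 c1291 c14687 (k4 c14634 c260 c2112 c10962 (k1 c14627 k0)))))))) (by decide +kernel)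
def c14689 : PP 8 4 T 0x2410000001000000000000400000000000000000001001500000150001400005000000 := rS 0x215f87b (k4 c14312 c4477 c14326 c13754 k0) (by decide +kernel)
def c14690 : PP 8 4 T 0x2000000001000000040000000000000000100000040000020520540001150200040418 := rS 0x425085e2ec3550260cc4c64415f96cda610d8e57a1158818122f (k8 c8877 c13906 c4462 c4350 c608 c4354 c4348 c14662 (k8 c617 c4993 c12637 c9875 c1994 c14688 c4340 c6737 (k8 c376 c377 c4324 c807 c14689 c1505 c4321 c14330 k0))) (by decide +kernel)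
def c14691 : PP 8 4 T 0x1000000040000000000800000000000000000000010000004401000000000 := rS 0x2712c4d45 (k4 c4453 c4558 c1856 c4474 (k1 c448 k0)) (by decide +kernel)
def c14692 : PP 8 4 T 0x2000000001000000040000000000000001100000000000020010140005001400000418 := rS 0x5f7e034d227258d10a81841397d1953a955299891bd1e7108ac4f29d3d86cee060f825362f (k8 c8877 c13624 c13906 c222 c4462 c14098 c14662 c14312 (k8 c1234 c501 c4350 c608 c4387 c4388 c1107 c4469 (k8 c6171 c6029 c4444 c14691 c4539 c13260 c14540 c4482 (k8 c7000 c13580 c6330 c1324 c449 c4437 c1487 c8124 (k2 c14321 c4502 k0))))) (by decide +kernel)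
def c14693 : PP 8 4 T 0x2000002001000000000000400000000000001004404000060000000000000000000408 := rS 0x41a056271 (k4 c4387 c4350 c4380 c4306 (k1 c8882 k0)) (by decide +kernel)
def c14694 : PP 8 4 T 0x2020001000002000040000000000004041100800104000000010000000044400010008 := rS 0x28d906582920a87f1a8341c2963ac51eb75a99c5aa1 (k8 c4329 c4286 c918 c4389 c4353 c4388 c4350 c4289 (k8 c4402 c9038 c509 c1329 c1455 c13151 c13085 c4406 (k4 c1646 c243 c14599 c8577 k0))) (by decide +kernel)
def c14695 : PP 8 4 T 0x2000001000002000040000400000000441101005500000020010000000045400010008 := rS 0xd48041a96189f239bd7671 (k8 c4387 c4390 c1107 c4404 c11480 c4467 c4385 c14694 (k2 c7040 c14675 (k1 c1922 k0))) (by decide +kernel)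
def c14696 : PP 8 4 T 0x2400000001002000040000000000000441100005000000420010000001041404000408 := rS 0x267ea14b675099b4de6108ac4ee06048bd7e9d (k8 c1234 c5760 c8877 c13906 c4462 c14098 c4350 c608 (k8 c617 c1107 c4993 c4401 c498 c12637 c14326 c14693 (k2 c14695 c14316 k0))) (by decide +kernel)
def c14697 : PP 8 4 T 0x1000000040000000000000000100000000000004000040000040000000010 := rS 0x2128440898bd1319134469712881361f17808ee314e9ecf2532384c5a51149cc76e436875221b2c16c8a060482d1f14 (k8 c14665 c4388 c14652 c13906 c4462 c14083 c12637 c4476 (k8 c14662 c12700 c10867 c4993 c14511 c4403 c1021 c4402 (k8 c4405 c4286 c4401 c4404 c4290 c501 c14312 c1234 (k8 c14667 c14098 c14682 c8877 c222 c13624 c4466 c313 (k8 c926 c832 c14690 c14692 c4340 c14696 c10439 c14329 (k2 c14321 c4321 (k1 c14330 k0))))))) (by decide +kernel)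
def c14698 : PP 8 4 T 0x20500080002050014140190 := rS 0x2aa26088745864c600019a5a3133685cf22f (k8 c1953 c7034 c1950 c4993 c4441 c300 c1879 c14463 (k8 c4461 c754 c9671 c13524 c10041 c8579 c4314 c4406 (k1 c2109 k0))) (by decide +kernel)
def c14699 : PP 8 4 T 0x2000000000000000060004000040040041100000000000000020080000040000000000 := rS 0x4fa5526ce24310784b5d93c6f45 (k8 c4451 c4386 c338 c4390 c1954 c340 c341 c7073 (k4 c381 c1654 c1786 c1662 (k1 c13177 k0))) (by decide +kernel)
def c14700 : PP 8 4 T 0x2000000001002000040000000000000041100005440000420020080005440404010010 := rS 0x3c4ac16225431ab1a31751bf21a5d07a0d0e690ca2e104716854c2b75e9c56b196194c96bb338043eaf14aad524f1b9ac2e81 (k8 c1895 c1950 c6097 c4386 c338 c14588 c14076 c4402 (k8 c5815 c276 c487 c5084 c4390 c1954 c4290 c2054 (k8 c4446 c4389 c4387 c4354 c4353 c617 c4284 c4286 (k8 c4404 c4482 c9998 c4436 c4437 c4440 c8514 c244 (k8 c12418 c9576 c12981 c9264 c8859 c14699 c7129 c5654 (k4 c13069 c4338 c4406 c861 (k2 c5159 c7465 k0))))))) (by decide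 +kernel)
def c14701 : PP 8 4 T 0x2000000000000000040040000045100041100000000000000520480005555400000000 := rS 0x19f4368921470c53a7d864b5d93c6ecd (k8 c2062 c4386 c338 c4390 c1954 c2054 c11480 c4558 (k4 c4467 c9064 c4200 c14699 (k2 c4421 c1790 (k1 c7781 k0)))) (by decide +kernel)
def c14702 : PP 8 4 T 0x2000000001002000040000000000000041100001540000420020080005448404010010 := rS 0x1f0fefc3d2c56e715aa050eb9a5b0632b3338043e9564c44c30d50ab1a2a361aad5e2d1491d9a53 (k8 c4290 c2062 c4404 c4402 c4286 c5815 c14076 c2054 (k8 c934 c14699 c7129 c901 c4324 c617 c4338 c7497 (k8 c861 c276 c487 c5084 c7239 c4446 c1987 c4458 (k8 c8268 c1905 c1895 c4389 c4387 c4353 c4350 c14700 (k4 c14316 c5121 c4032 c4379 k0))))) (by decide +kernel)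
def c14703 : PP 8 4 T 0x10000100000002000010000000064000000000005400440020000000005440004400000 := rS 0x642a1a4328b840b42a87 (k8 c1905 c4284 c4286 c4482 c9998 c4436 c4437 c13069 (k2 c6230 c1646 k0)) (by decide +kernel)
def c14704 : PP 8 4 T 0x2000000001002000040000000000000001100001540000020020080005440204010010 := rS 0xf863449e8bd0564acd72a14ab06971156345470d133348e51639bcc2b15b9c632c32999c021f12a5c5a2347abc52ab5493c6e6b0ba9496bb (k8 c4390 c1954 c5936 c1950 c6097 c4386 c338 c14588 (k8 c14076 c4402 c5815 c4388 c832 c4286 c926 c313 (k8 c276 c487 c5084 c4290 c2054 c4446 c4387 c4353 (k8 c4350 c617 c1107 c4289 c4405 c4404 c2062 c14701 (k8 c4324 c934 c14699 c7129 c4338 c4458 c1987 c861 (k8 c901 c8268 c7239 c7497 c9358 c14702 c14703 c682 (k2 c821 c10961 (k1 c1380 k0)))))))) (by decide +kernel)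
def c14705 : PP 8 4 T 0x2000000000000000000104000020040040110010144040000000000000000000000000 := rS 0x172b331a5622b5 (k4 c4389 c4338 c861 c821 (k2 c10962 c6781 (k1 c11734 k0))) (by decide +kernel)
def c14706 : PP 8 4 T 0x54000000000000140000000500080005550002000000 := rS 0x8b95078d0 (k4 c2112 c340 c260 c4416 (k1 c14479 k0)) (by decide +kernel)
def c14707 : PP 8 4 T 0x1000000040000000000000000100000000000004000000000040000000010 := rS 0x7c43d2d58890c326120f3d28c4c8367afd4f4426a9552ab5788d2e2519808ce200087c62173c93c962f3bb0e3242089c46e8f58aee2853169442a293a84ce63b721bcc21d4886cb05b22818120b (k8 c14652 c13906 c4462 c14083 c12637 c4476 c14662 c12700 (k8 c10867 c617 c1107 c14511 c4403 c1021 c4401 c498 (k8 c4402 c4284 c4405 c4286 c4290 c14665 c4390 c4350 (k8 c4388 c4386 c4387 c608 c14697 c4446 c2054 c1887 (k8 c1953 c1954 c338 c7034 c1950 c14698 c276 c487 (k8 c4466 c5084 c4461 c6257 c313 c926 c832 c5815 (k8 c14076 c14588 c5936 c14704 c4474 c14691 c4399 c4400 (k8 c4452 c2111 c9064 c8902 c239 c4320 c10573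 c4465 (k4 c2038 c14706 c4458 c1905 (k2 c14705 c4634 k0)))))))))) (by decide +kernel)
def c14708 : PP 8 4 T 0x1000000000040002000012000080 := rS 0x780221 (k4 c316 c9671 c4466 c1098 k0) (by decide +kernel)
def c14709 : PP 8 4 T 0x2000080000000004000000000000000000000000000001440004000002 := rS 0x56218d25316944c629 (k8 c4402 c754 c4405 c4286 c4290 c756 c6832 c7441 (k1 c1904 k0)) (by decide +kernel)
def c14710 : PP 8 4 T 0x1002000000000000000008140100000000000000000151004000006000002 := rS 0xc24ac447ec51db04a27b (k8 c14312 c4405 c6869 c4403 c4530 c4288 c4414 c1699 (k2 c13034 c4958 k0)) (by decide +kernel)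
def c14711 : PP 8 4 T 0x1000000001002000080000004000014000100000404000000000140004041184000400 := rS 0x3f563045999d0f4b4a2e184b588a886e47168fd8e271c924463584a24a67106b1476c1289ec82181ea5cca63000181229 (k8 c4402 c13906 c4462 c1098 c754 c491 c1194 c274 (k8 c13532 c1872 c14312 c4405 c6869 c4403 c4530 c4371 (k8 c496 c4290 c2038 c4436 c4373 c4372 c4281 c4280 (k8 c4278 c4289 c4288 c4286 c4404 c272 c2110 c4337 (k8 c1436 c13034 c12162 c10839 c4459 c1906 c5290 c7658 (k4 c4478 c1203 c4961 c4480 k0)))))) (by decide +kernel)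
def c14712 : PP 8 4 T 0x1002000000000000000000100000000000080020000151000000006000002 := rS 0x30925111f8ccdac51db04a27b (k8 c14312 c4405 c6869 c4403 c4530 c4993 c255 c4288 (k4 c4334 c657 c13034 c1127 k0)) (by decide +kernel)
def c14713 : PP 8 4 T 0x1000000001002000080000000000000001100000000000020000140000040114000400 := rS 0x45964b5a19f8cf057e0d9470d1227d42b717174c6650025c7a1e0ab1cea13399bcc2111388d8a3b609453aaf14aac66414c9ad37183b8c4da7b849e4305f388340c09 (k8 c13906 c4462 c4371 c496 c14101 c13532 c1959 c4436 (k8 c14312 c4993 c14708 c14098 c4482 c4448 c1918 c8246 (k8 c1872 c255 c14076 c4402 c5815 c1234 c4405 c6869 (k8 c4403 c4530 c4372 c4278 c4276 c617 c1107 c1021 (k8 c4401 c498 c4289 c4284 c4466 c274 c1194 c1098 (k8 c491 c754 c752 c14709 c4518 c14243 c14710 c14711 (k8 c4381 c1464 c12180 c4477 c9288 c14712 c14172 c4392 (k4 c1433 c8255 c4989 c4358 k0)))))))) (by decide +kernel)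
def c14714 : PP 8 4 T 0x1000000001002000080000000000000001100000000000020000140000040014000400 := rS 0x72c49c841789440a73789c9a0d5488d4a4b19a6e3077189b40c7b849e43009 (k8 c13906 c13532 c1959 c4436 c14312 c4462 c4993 c14708 (k8 c14098 c4482 c4448 c255 c4375 c5936 c4372 c6029 (k8 c4371 c4282 c4278 c1107 c13601 c14713 c313 c836 (k4 c8634 c4839 c714 c258 (k1 c10635 k0))))) (by decide +kernel)
def c14715 : PP 8 4 T 0x1002000080000000000000001100000000000020000140000040014000400 := rS 0x3c011097848fd071761a4e532f46f144da66304152aa4d67718a757ebb3d818c24b1c8344635849e4123336a0c304d (k8 c4282 c13532 c1998 c4993 c255 c13906 c1959 c4436 (k8 c4373 c4372 c4371 c4280 c4375 c617 c4462 c14312 (k8 c6870 c6330 c1234 c14708 c14098 c1918 c6029 c5936 (k8 c1872 c4482 c8246 c4448 c14714 c4386 c4354 c10851 (k8 c2114 c4330 c813 c258 c4376 c4046 c4477 c313 (k2 c488 c4466 (k1 c1098 k0))))))) (by decide +kernel)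
def c14716 : PP 8 4 T 0x1000000000000000000000000100000000000004000000000040000000010 := rS 0x5aadc6e3d5cc512b114b895582055abc3e3117b0c84330b8d492390c34836910e94c8e2d2885452453a84ce6061db90da6f2c16c1609 (k8 c13906 c14652 c12637 c4476 c1107 c4993 c14511 c4403 (k8 c4462 c1021 c4401 c498 c14083 c4402 c4284 c4405 (k8 c4286 c4404 c4290 c10867 c12700 c14662 c14707 c13532 (k8 c4280 c4281 c4373 c35 c255 c14715 c2054 c1953 (k8 c14698 c276 c5815 c14076 c4466 c14706 c313 c926 (k8 c4338 c861 c14486 c6781 c7465 c4386 c4353 c4389 (k1 c7430 k0))))))) (by decide +kernel)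
def c14717 : PP 8 4 T 0x1000000000000020002000000000011040000000000000020000000040401000400000154400141000 := rS 0xcb2420e0b4b (k4 c4457 c4314 c4306 c13613 (k2 c2024 c4573 k0)) (by decide +kernel)
def c14718 : PP 8 4 T 0x1000000001000000050041000010000055564001540040421420540500154404141000 := rS 0xa35c9fd60fd5ab256e34668de8aa14f9960b0c (k8 c4486 c4314 c557 c6233 c4551 c4451 c324 c2062 (k8 c4470 c7094 c637 c7883 c14717 c13430 c675 c1204 (k2 c14660 c2125 k0))) (by decide +kernel)
def c14719 : PP 8 4 T 0x1000000001002000040000000000000011160001010040021000140002040425405080 := rS 0x2867f7e9f4901058325468354d117a4d2789618bb4792ca6471685452c73a84ce63b499dc722760a6da29d3da850e5142a061097a5aae269f32ab60a5f (k8 c14101 c4314 c2047 c557 c6233 c4441 c1945 c4457 (k8 c4785 c4465 c4439 c6224 c4405 c13785 c4551 c14312 (k8 c1234 c300 c765 c6869 c872 c3153 c3009 c1030 (k8 c4403 c1021 c4401 c498 c4289 c4402 c4284 c4286 (k8 c4404 c4290 c1915 c760 c6870 c4486 c4381 c298 (k8 c14718 c7460 c4474 c4398 c4452 c4526 c636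 c6745 (k4 c2108 c4200 c10070 c4304 (k2 c2652 c4421 (k1 c4483 k0))))))))) (by decide +kernel)
def c14720 : PP 8 4 T 0x400002000000000000000045000014455521104410050020000000000000000000000 := rS 0xb85e32d4683589753b05 (k8 c4314 c1234 c4377 c4304 c4306 c13617 c2024 c6745 (k2 c2125 c1208 k0)) (by decide +kernel)
def c14721 : PP 8 4 T 0x1400000001000000040001000010000015165101150040020420140400000024000000 := rS 0xa23fae560fd5ab256e3447b346ebb3b8e5367b50a5e96ab4f9960a5f (k8 c14101 c4314 c557 c6233 c1945 c4457 c4785 c4551 (k8 c14312 c765 c3153 c3009 c1975 c324 c2062 c761 (k8 c4470 c7094 c637 c7883 c14720 c13430 c1204 c675 (k2 c2125 c14660 k0)))) (by decide +kernel)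
def c14722 : PP 8 4 T 0x2001000000000000100000000400101105410000020000140002000000000000 := rS 0x101751941ac6269d (k8 c1234 c4441 c4304 c4306 c6225 c6745 c4472 c3820 k0) (by decide +kernel)
def c14723 : PP 8 4 T 0x10000000010020000400000000000000101000000000000200001400020400050000a0 := rS 0x1444112cfb4352ae218b75aa8d1e343f841fabd2693c449732aae970540a210b0845a1ca6153a84ce63b3799caa79499dc72c128a6c382f89ab42e7b0780c3e010697d2271 (k8 c2483 c14491 c14101 c528 c54 c1098 c55 c14107 (k8 c14312 c1911 c2047 c4441 c61 c527 c765 c4405 (k8 c6869 c3153 c3009 c1030 c2485 c266 c655 c1107 (k8 c4403 c1021 c4401 c498 c4284 c4290 c13785 c13509 (k8 c4465 c6224 c13058 c4439 c4314 c4457 c1945 c557 (k8 c4785 c14719 c1490 c14721 c7460 c14722 c4463 c2652 (k8 c609 c7008 c14599 c7883 c1037 c4486 c7468 c4385 (k4 c4394 c1355 c1914 c4529 (k2 c4474 c4452 k0))))))))) (by decide +kernel)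
def c14724 : PP 8 4 T 0x21400000000000000040000040000101501100000001000000000010140000022004004 := rS 0x41025c542f4688f5fa9e126b (k8 c1919 c4436 c13601 c5760 c761 c4470 c1039 c9059 (k4 c7780 c1362 c12183 c349 k0)) (by decide +kernel)
def c14725 : PP 8 4 T 0x1000000001002000040000000000000000100000000000020000140002040000000420 := rS 0x51102b1268446cbb52a6630414192c9e680c034be0f369bc06713c87d2a013b8e5229b0e01a269d3d86cb609 (k8 c13906 c12637 c6533 c14312 c1234 c4441 c4462 c527 (k8 c765 c14491 c3153 c3009 c54 c11432 c1098 c2485 (k8 c2483 c55 c1107 c4993 c14107 c14101 c528 c14723 (k8 c269 c2197 c1875 c1999 c1872 c4540 c1880 c1883 (k8 c6870 c14724 c318 c324 c10281 c12056 c4474 c8243 k0))))) (by decide +kernel)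
def c14726 : PP 8 4 T 0x2000000001002000040000000000000415100001410000020000140002044005010020 := rS 0x1f170c950d0d3ecd54434fe232e0d5464e2492d2e0e413f4caaba5c150a814442116870494ca21514b1cde672aab42e015fa74f7135da3d6ebd (k8 c4354 c4353 c4388 c4390 c4441 c14312 c1234 c5760 (k8 c54 c1911 c2047 c266 c655 c1107 c4289 c4402 (k8 c4284 c4405 c4290 c13906 c13785 c13509 c4465 c13058 (k8 c4439 c4321 c4314 c4457 c1945 c557 c14722 c7040 (k8 c14520 c4785 c1855 c8085 c8514 c9082 c1329 c265 (k8 c1328 c1455 c13085 c299 c1479 c1340 c11164 c7768 (k4 c637 c5931 c4483 c1355 k0))))))) (by decide +kernel)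
def c14727 : PP 8 4 T 0x1002000040000000000000000100000000000020000140002040000000420 := rS 0x21e96c24baad646557c14fc8b3ebf22e0d248f14623124346aa6549314a5d64a11020f4ca0c9718209ad124f3442430115e8dd1eb15dc517e9d3d85c36ad68c4c5e532384c2a3f639cc766d3780cce55389e526950096cee3913a4582514d8700c09 (k8 c13906 c4462 c527 c765 c4405 c6869 c14491 c872 (k8 c3153 c3009 c12637 c54 c11432 c1030 c2485 c2483 (k8 c266 c655 c55 c1107 c4993 c4403 c1021 c4289 (k8 c4288 c4284 c4401 c4404 c4290 c61 c4441 c300 (k8 c2047 c6533 c1911 c14312 c1234 c5760 c14725 c4390 (k8 c4350 c4388 c4386 c4354 c608 c14726 c4436 c269 (k8 c2197 c2038 c1919 c1872 c4540 c3785 c3902 c1880 (k8 c8476 c12056 c9035 c10573 c12183 c1882 c14677 c826 (k8 c7780 c10290 c4330 c2007 c772 c940 c12989 c7307 (k8 c1368 c4416 c4463 c4379 c10087 c2107 c9269 c829 (k8 c555 c10049 c13092 c1196 c14146 c4459 c1906 c7658 k0))))))))))) (by decide +kernel)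
def c14728 : PP 8 4 T 0x1000000001002000040000000000001011140000000040001020040105040025001000 := rS 0x12ca3a1ae59c4865b416abc35a7d6e3447aa42e2f128dd76a55f93e8a4b238ec5a154989d5e2955a650e5134a9d36a1 (k8 c4551 c765 c13601 c13396 c4405 c13785 c1032 c14076 (k8 c4402 c5815 c872 c1030 c4284 c4286 c4403 c4404 (k8 c120 c4451 c177 c9875 c1934 c1975 c324 c284 (k8 c1992 c1991 c14588 c761 c4470 c7094 c11480 c6097 (k8 c2126 c7883 c13069 c1751 c7073 c381 c1208 c4421 (k2 c1523 c2125 (k1 c4793 k0))))))) (by decide +kernel)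
def c14729 : PP 8 4 T 0x1000002000002000040000000001001541501000141141401010000100044400005000 := rS 0x5e0d22637352ec908340b2422b12ea9d4b0c (k8 c4486 c4385 c13601 c4377 c4304 c4300 c4305 c4380 (k8 c4306 c14611 c10310 c2119 c14658 c4442 c4470 c11945 (k1 c1040 k0))) (by decide +kernel)
def c14730 : PP 8 4 T 0x1000000001002000040000000000000041101004000140421010040005040420005080 := rS 0x2f576345f84160fd52c31528f3a84ce63b3698472274ca754e9b (k8 c765 c13601 c1234 c1032 c872 c3153 c617 c4993 (k8 c4403 c1021 c4401 c498 c760 c6029 c4486 c4385 (k8 c14729 c13430 c4463 c1242 c609 c1310 c1040 c2126 k0))) (by decide +kernel)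
def c14731 : PP 8 4 T 0x1000002001000000040000000000001501501005410000000010140100000800000000 := rS 0x8caf468bb860dd0283 (k8 c4306 c4380 c1409 c4486 c10310 c4470 c1040 c6225 (k1 c7320 k0)) (by decide +kernel)
def c14732 : PP 8 4 T 0x1148000000000000000010010000001000400080000000155000 := rS 0x16b433f1256f17 (k4 c4362 c1168 c323 c2107 (k2 c4392 c1433 (k1 c4989 k0))) (by decide +kernel)
def c14733 : PP 8 4 T 0x2000000111000044001554800010010040001080000100000920015000 := rS 0x631eab222c3543348e130ab1c6a36 (k8 c761 c1306 c4289 c4284 c4401 c4404 c1479 c1489 (k4 c14732 c7223 c2127 c11368 (k2 c2809 c10316 k0))) (by decide +kernel)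
def c14734 : PP 8 4 T 0x1000002001002000040000000004001055101005411141001010140105000920005000 := rS 0x89c64d4bd5493d1c7d41a0592112eb1476c128abc52992fa9d36a5 (k8 c1302 c765 c13601 c14101 c1032 c4402 c5815 c4405 (k8 c6869 c4403 c4530 c4377 c4300 c4305 c4380 c4306 (k8 c4379 c14731 c14733 c14588 c7460 c2119 c6225 c4442 (k1 c4488 k0)))) (by decide +kernel)
def c14735 : PP 8 4 T 0x1000000001002000040000000000000051101001010140021010140005040124005080 := rS 0x54af5764f478d17e10583f54a223698526771caad329d3d97d4e9b (k8 c765 c13601 c14101 c14312 c1234 c1032 c14076 c3153 (k8 c3009 c1030 c617 c4993 c14730 c1302 c14734 c13430 (k8 c4463 c1242 c609 c7008 c446 c1310 c1040 c14588 (k1 c2126 k0)))) (by decide +kernel)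
def c14736 : PP 8 4 T 0x1000102000000000040000004001001501501040001101401010000100000000145000 := rS 0xbc1a44c6e6a5d92106812ea9d4b0c (k8 c4486 c4385 c13601 c4377 c4380 c4306 c7126 c10310 (k4 c2119 c323 c4442 c4470 (k2 c11945 c1040 k0))) (by decide +kernel)
def c14737 : PP 8 4 T 0x1000100001000000040000004000000001101044000100421010040005000420145080 := rS 0x17abb1a2fc20b07ea9618a9479b4c2394ca754e9b (k8 c765 c13601 c1234 c1032 c3153 c617 c4993 c760 (k8 c6029 c4486 c4385 c14736 c13430 c4463 c1242 c609 (k2 c1310 c1040 (k1 c2126 k0)))) (by decide +kernel)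
def c14738 : PP 8 4 T 0x1000102001000000040000000000001581101045410000001010140100000800145000 := rS 0x2d0908e (k4 c14731 c7126 c931 c1703 k0) (by decide +kernel)
def c14739 : PP 8 4 T 0x10000000010020000400000000000000101000000000000200001400050401040000a0 := rS 0x54af5764f478d17e10583f54a22829fd64645ba589a8506a9cbe0f0985406672a9c4f21f009dc72914da64388b348653a7b (k8 c14312 c1234 c268 c13396 c13945 c527 c1032 c765 (k8 c14491 c3153 c3009 c54 c1098 c2485 c2483 c266 (k8 c655 c55 c4284 c4401 c14107 c14101 c13601 c528 (k8 c6224 c14728 c14735 c3176 c1196 c1195 c554 c4312 (k8 c14737 c1302 c14738 c13430 c4463 c1242 c609 c7008 (k4 c446 c1310 c1040 c14588 (k1 c2126 k0))))))) (by decide +kernel)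
def c14740 : PP 8 4 T 0x2000000001000000040000000000000400100005400000000020040105004004010020 := rS 0x109080b9ac5c815f83c1219 (k8 c268 c13906 c2192 c9875 c1894 c13817 c3896 c532 (k2 c4465 c14520 (k1 c4321 k0))) (by decide +kernel)
def c14741 : PP 8 4 T 0x2000002001000000040000000000001500101005414001400000140000004400000000 := rS 0x12c346908892fa32834097576bd (k8 c4354 c4390 c4377 c4380 c4306 c6225 c7040 c10618 (k4 c4482 c6330 c12516 c1369 (k1 c4467 k0))) (by decide +kernel)
def c14742 : PP 8 4 T 0x2010000001000000040000000000000000100501004000000000140000004405000020 := rS 0x6abe12034127b (k4 c14312 c13906 c529 c4467 (k2 c7055 c1369 (k1 c6330 k0))) (by decide +kernel)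
def c14743 : PP 8 4 T 0x2000000001000000040000000000001501100001004000800010140005004004010020 := rS 0x54a9d4a4f1120d020f8680cd219 (k8 c268 c13396 c55 c4382 c1376 c1382 c9038 c14742 (k4 c3464 c1302 c773 c14588 (k1 c14540 k0))) (by decide +kernel)
def c14744 : PP 8 4 T 0x2000000001000000040000000000001501101005414101400000140005004400010020 := rS 0x1484b5f890b83553839faa95da3d7a0d (k8 c528 c4354 c4388 c4390 c6029 c14741 c4463 c4532 (k4 c8124 c265 c264 c6330 (k2 c3321 c2126 (k1 c5936 k0)))) (by decide +kernel)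
def c14745 : PP 8 4 T 0x10020000400000000000000101000000000000200001400050401040000a0 := rS 0x46626fc419754e0f112141a5f268457a3758aee289d349ecde610080ce2793b8e44e914d865321c (k8 c527 c1032 c268 c765 c14491 c872 c3153 c3009 (k8 c2485 c2483 c55 c54 c617 c1107 c14312 c13396 (k8 c1234 c14739 c4390 c4350 c4386 c4354 c608 c14740 (k8 c14743 c528 c6224 c14744 c1328 c773 c12183 c9038 (k4 c4463 c10640 c6225 c4488 k0))))) (by decide +kernel)
def c14746 : PP 8 4 T 0x20000000000008000080 := rS 0x10810 (k2 c374 c375 (k1 c2692 k0)) (by decide +kernel)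
def c14747 : PP 8 4 T 0x1800000000002000040011100004000111100000000040421010060000040420015001 := rS 0x45e96ad683368abe2733e86bb24205f8c909b1cde9313a7552a553a6e188f (k8 c760 c4486 c765 c13601 c4444 c4345 c3040 c872 (k8 c1030 c1107 c4289 c4401 c10573 c12381 c4380 c14611 (k8 c10310 c4421 c1791 c7048 c7138 c4396 c1479 c452 (k4 c6601 c4426 c7641 c4572 k0)))) (by decide +kernel)
def c14748 : PP 8 4 T 0x1800000000002000040011100004000111100400000040421010060000040420005081 := rS 0xbb278d0209d52a9d368f (k8 c760 c765 c13601 c4444 c3040 c14747 c609 c447 (k2 c1310 c7048 k0)) (by decide +kernel)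
def c14749 : PP 8 4 T 0x400002000000000001000080000000200000000000000000000a0 := rS 0x8ac06a1c (k4 c527 c3023 c1171 c609 (k1 c10281 k0)) (by decide +kernel)
def c14750 : PP 8 4 T 0x500001501501500100000000000000000000000000000000 := rS 0xba (k2 c2126 c10310 k0) (by decide +kernel)
def c14751 : PP 8 4 T 0x800000000002000000115000044001554810010010040001000000100000120014000 := rS 0x631eab22235 (k4 c1306 c7287 c4553 c11368 (k2 c821 c10316 k0)) (by decide +kernel)
def c14752 : PP 8 4 T 0x2000000111040044001554810018010040001000000100000120015000 := rS 0xa3664416f176111c261563c4a3236 (k8 c761 c4366 c4488 c4289 c4284 c4401 c4404 c14751 (k4 c4362 c3177 c4958 c14732 (k2 c4337 c4533 k0))) (by decide +kernel)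
def c14753 : PP 8 4 T 0x2000000100010000000080800010010040425000000010000020015000 := rS 0x1fc923c322dcc711098547236 (k8 c761 c3153 c4284 c4401 c4336 c816 c3176 c1196 (k4 c10316 c323 c554 c11938 k0)) (by decide +kernel)
def c14754 : PP 8 4 T 0x1000000001000000040000000000000000100000000000004000040000040000010000 := rS 0x214fd0524ac90eba6152d2eb91b0d51c7d40bf192130a8fcde931c89c32af14c2512a553afc9e225e834be710780c3e4d41aad8251628ed225533aa625193d275329b2006862950e004423302160b645720181609 (k8 c13906 c14652 c4462 c14511 c14083 c12637 c4476 c14716 (k8 c6309 c310 c54 c527 c11432 c14727 c14745 c689 (k8 c765 c1032 c3040 c688 c4366 c4488 c4345 c655 (k8 c266 c14491 c4403 c4530 c4405 c6869 c14076 c2621 (k8 c14746 c1098 c55 c14107 c2483 c14101 c528 c14749 (k8 c14748 c1489 c1054 c13601 c4444 c2661 c4316 c4402 (k8 c5815 c268 c872 c3153 c1030 c1107 c4288 c4284 (k8 c4401 c10573 c12381 c4380 c4379 c14750 c1306 c761 (k8 c1476 c14753 c7085 c14751 c14752 c7659 c1211 c4924 (k4 c4312 c7126 c1441 c4235 k0))))))))))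 (by decide +kernel)
def c14755 : PP 8 4 T 0x1000000001000000040000000000000000100000000000004000040000040000000000 := rS 0xbb478d020bf278881aa72f83c06672a9c43e91628ed825155a0d52a5894653a404ca6c9abd3d06862950e004423322b9008582d8181609 (k8 c13906 c14652 c4462 c12637 c4476 c14716 c14511 c14083 (k8 c6309 c310 c54 c527 c11432 c14727 c14745 c688 (k8 c14749 c14746 c765 c1032 c689 c3040 c4366 c4488 (k8 c4444 c4345 c2621 c14076 c4405 c6869 c4403 c4530 (k8 c14491 c1098 c2483 c266 c655 c55 c14107 c14101 (k8 c13601 c528 c14748 c1489 c1054 c14754 c609 c7008 (k2 c1310 c2126 k0))))))) (by decide +kernel)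
def c14756 : PP 8 4 T 0x12000000001002000040000000004401515100000000040401010140000044400015000 := rS 0x117a5b0d5ad067d0c910c12b346945272f98a3b6094552a58932426fc (k8 c4463 c4401 c10573 c4488 c4444 c4345 c4405 c6869 (k8 c4403 c4530 c13260 c14540 c4399 c6330 c1486 c1369 (k8 c4467 c14611 c4421 c1791 c452 c6601 c1216 c4426 (k2 c7641 c4494 k0)))) (by decide +kernel)
def c14757 : PP 8 4 T 0x2000000001002000040000000000001515110008000040421010140005044400015000 := rS 0x61ab52ed1459959f43669fa0a4e24a8c484ba2c354c470ab1d8a3b6094557196484cfafc (k8 c4463 c4379 c4401 c10573 c4366 c14076 c4405 c6869 (k8 c4403 c4530 c4289 c4284 c4404 c14756 c4330 c4453 (k8 c1857 c4467 c9264 c7307 c4474 c10878 c2107 c1479 (k8 c4392 c1522 c555 c725 c5846 c1196 c4903 c1212 (k1 c13950 k0))))) (by decide +kernel)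
def c14758 : PP 8 4 T 0x2000000001000000000000000001101501100000000000000010140000000800000000 := rS 0x9ea7 (k2 c773 c1489 (k1 c14540 k0)) (by decide +kernel)
def c14759 : PP 8 4 T 0x2000000001002000040000000000001515110008000040021010140005044000015000 := rS 0x4595a9732afe0a7e1a9254624869f4bcfc6491c261563b1476c128aad1e2352aa62519 (k8 c4366 c4488 c4345 c4444 c14758 c4388 c14076 c4405 (k8 c6869 c4403 c4530 c4289 c4284 c4401 c4404 c10573 (k8 c4463 c14757 c4379 c4382 c14382 c9264 c7307 c1369 (k8 c2107 c9269 c6330 c555 c1196 c4903 c13683 c7641 k0)))) (by decide +kernel)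
def c14760 : PP 8 4 T 0x1000000040000000000000000100000000000004000040000040000000000 := rS 0x2fd4e5f1abf41c0d11845631426a9553124ec64807a4485c34990c8c536e4229bcc20319884ce5549a54022748960b61c020181609 (k8 c13906 c14652 c4462 c14716 c527 c12637 c4476 c14491 (k8 c872 c54 c11432 c1030 c266 c655 c310 c6309 (k8 c55 c617 c1107 c14083 c14511 c765 c14727 c268 (k8 c1032 c14745 c170 c2661 c688 c689 c4366 c3040 (k8 c4488 c4345 c4444 c14746 c14755 c4350 c608 c14758 (k8 c529 c14759 c4376 c1329 c1376 c13250 c6330 c13260 k0)))))) (by decide +kernel)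
def c14761 : PP 8 4 T 0x1000000000000000000002000000000000000024000000000000004400020 := rS 0x84864f469 (k4 c824 c1234 c269 c4320 (k1 c4465 k0)) (by decide +kernel)
def c14762 : PP 8 4 T 0x1000000001000000000000005200000055520440000040000000000001000000400020 := rS 0xb951b24cb05 (k4 c4314 c13996 c636 c14599 (k2 c1204 c7468 k0)) (by decide +kernel)
def c14763 : PP 8 4 T 0x1000000001000000000000005200000055500440000040001500080001000124540020 := rS 0xb951b1078d044a2d0e19 (k8 c268 c13785 c13945 c14762 c2109 c340 c341 c14265 (k2 c3271 c7468 k0)) (by decide +kernel)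
def c14764 : PP 8 4 T 0x1000000000000000000000080000000000000021500080001000004540020 := rS 0x225a26462a2d0e19 (k8 c268 c13785 c13945 c3269 c1196 c341 c13996 c2109 k0) (by decide +kernel)
def c14765 : PP 8 4 T 0x10000000010000000400000000000000141000000000400215000804050001041400a0 := rS 0x288825dafd6eb547ac0687f0829d52bd52a685c5f079b4c2030e1c43e0148c64d6693da052e85840642e79 (k8 c2485 c1950 c268 c4465 c4321 c14764 c4439 c4320 (k8 c13396 c6097 c4446 c14491 c54 c1098 c2483 c527 (k8 c55 c617 c4993 c14107 c14101 c14492 c1952 c3857 (k8 c3916 c2731 c4500 c14495 c2652 c609 c608 c7008 (k4 c7883 c1037 c1242 c10310 (k2 c14763 c4493 (k1 c4452 k0))))))) (by decide +kernel)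
def c14766 : PP 8 4 T 0x2000000000000000060004000040000041100000000000000020080000040120000000 := rS 0x1443c (k2 c340 c14699 (k1 c14265 k0)) (by decide +kernel)
def c14767 : PP 8 4 T 0x1000000040000000000000000100000000000004000000000040000000000 := rS 0x5ca8d426560d2e0a22440b9a29f2eb344a0f265157c832784496b55b8dd1eb15dc510a97409ee1069439ad16ab57864629d0b86d8719209084e912991c263b169442a29721bc06331099caa790fa4d2a013b87008062c16c1609 (k8 c13906 c14652 c12637 c4476 c4462 c14716 c527 c3009 (k8 c54 c11432 c1030 c1098 c2485 c266 c655 c310 (k8 c6309 c55 c1107 c14511 c4402 c4284 c4405 c4286 (k8 c4403 c4401 c4404 c4290 c14491 c872 c14760 c91 (k8 c4446 c2054 c334 c1950 c14761 c14397 c268 c5815 (k8 c14076 c13945 c6097 c13785 c13396 c4465 c4320 c4439 (k8 c14764 c4321 c14765 c4390 c4350 c4388 c4386 c4353 (k8 c4389 c1954 c608 c338 c8514 c9037 c4399 c4474 (k8 c2192 c284 c2062 c12183 c11480 c14766 c13069 c2109 (k8 c6927 c4314 c4457 c9920 c13996 c770 c13617 c8268 (k1 c2125 k0))))))))))) (by decide +kernel)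
def c14768 : PP 8 4 T 0x100000001002000000001000000001050000000000000000000050002040100000000 := rS 0x783b (k2 c4403 c13209 (k1 c11368 k0)) (by decide +kernel)
def c14769 : PP 8 4 T 0x20000001002000080000000000001110400000000000020040150002040100000000 := rS 0x17ac35bc5d2cb5a1a8a223f11b1476c128aec96bf1ac4da2ad (k8 c2047 c300 c4441 c4373 c6330 c4375 c6870 c4405 (k8 c6869 c4403 c4530 c4372 c4288 c4962 c5243 c4393 (k4 c5129 c14768 c4360 c3176 (k2 c8801 c9824 (k1 c5761 k0))))) (by decide +kernel)
def c14770 : PP 8 4 T 0x2000090011540200000000000080010000000040150000000000000000 := rS 0x61ad56d43 (k4 c4392 c675 c1433 c1167 (k1 c5761 k0)) (by decide +kernel)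
def c14771 : PP 8 4 T 0x200000000000000080040000000000000000040000000801000400000000000144000 := rS 0x7d64a7cca11 (k4 c4276 c4412 c4414 c546 (k2 c1379 c9509 k0)) (by decide +kernel)
def c14772 : PP 8 4 T 0x1000000001000000000000000000000000100000000000004000040002040000000000 := rS 0x509912d113faf5725e58175fa900791c26156398406553887d8a3b60945764b5f8d5a27b84a0c9b0d4c9a08277278613a170da3c46d24a870022102160b6450302c12e4 (k8 c14511 c13906 c14652 c4462 c14083 c12637 c4476 c14716 (k8 c310 c54 c527 c11432 c14767 c4372 c760 c6533 (k8 c1911 c14761 c13532 c2197 c3009 c1872 c269 c1880 (k8 c14769 c4282 c1998 c4436 c14312 c300 c4373 c6330 (k8 c4375 c6870 c4405 c6869 c4403 c4530 c1098 c2483 (k8 c266 c55 c617 c4289 c4284 c4401 c4404 c14107 (k8 c4486 c4550 c808 c1155 c1156 c3216 c7175 c14770 (k4 c14771 c14768 c1196 c899 (k1 c6371 k0))))))))) (by decide +kernel)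
def c14773 : PP 8 4 T 0x1000000000000000000000000100000000000004000040002040000000000 := rS 0x17a378a1049e180db908a770e0100c582d82c12d2 (k8 c14767 c13906 c14652 c12637 c4476 c4462 c14716 c527 (k8 c3009 c14083 c14511 c6533 c13532 c2197 c1872 c14772 (k2 c4386 c4354 (k1 c6022 k0)))) (by decide +kernel)
def c14774 : PP 8 4 T 0x1000000000002000080000440001101111100008000000000000040000040120000000 := rS 0x12ecd5cd156b435e28a22a7860fd268f11c4a329b (k8 c765 c4366 c4488 c4372 c760 c1030 c4288 c4486 (k8 c13601 c4962 c5243 c7138 c4393 c5129 c4454 c3218 (k2 c6588 c4793 (k1 c12510 k0)))) (by decide +kernel)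
def c14775 : PP 8 4 T 0x800000000000000000011000204001454010088000040000000000000000000000000 := rS 0xc356ad8cb05 (k4 c4313 c2523 c675 c4903 (k2 c3177 c4553 k0)) (by decide +kernel)
def c14776 : PP 8 4 T 0x80040000020000000006040000000801000400000000000144000 := rS 0xc93ea859a11 (k4 c4276 c1481 c901 c1502 (k2 c547 c9509 k0)) (by decide +kernel)
def c14777 : PP 8 4 T 0x1001000000000080051000204001554010408000041801000400000000000144000 := rS 0xa16429cfa8531a1d59113f8462519 (k8 c4366 c4488 c4276 c14775 c14771 c6031 c1905 c821 (k4 c14776 c1380 c5558 c9509 (k2 c900 c547 k0))) (by decide +kernel)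
def c14778 : PP 8 4 T 0x1001000000002000080011440005101110110408000000024000040000040160000020 := rS 0x1fd42645ba59725e58175fb0d4803c8e130ab1cc20333955269b (k8 c765 c1030 c266 c655 c55 c617 c4289 c4284 (k8 c4401 c4404 c14107 c14774 c4328 c4550 c808 c1155 (k8 c1156 c3216 c14777 c3176 c1196 c899 c675 c6371 k0))) (by decide +kernel)
def c14779 : PP 8 4 T 0x1000000000000000000000000100000000000004000040000040000000000 := rS 0x4b1941ea32ea061aa68badd63148927632403d20d13090d2a54a995586462bf5da6d82c51d945c8453096066212a87d26950096c96354788da41c020181609 (k8 c13906 c14652 c4462 c14716 c527 c14767 c4372 c760 (k8 c4373 c4375 c12637 c54 c11432 c1030 c1098 c266 (k8 c310 c6309 c4476 c617 c14083 c14511 c4405 c4403 (k8 c4530 c6869 c765 c6870 c6330 c14773 c268 c14076 (k8 c1032 c5936 c6029 c13532 c4316 c2661 c2621 c688 (k8 c689 c4366 c3040 c4488 c14778 c4350 c4353 c4963 (k8 c13260 c4330 c1897 c813 c13651 c427 c6871 c13683 (k1 c1196 k0)))))))) (by decide +kernel)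
def c14780 : PP 8 4 T 0x1000000000000000000000000100000000000004000000000040000000000 := rS 0x609d0c05c36426907cf22100810b05b0302dc809 (k8 c13906 c14511 c14652 c4462 c12637 c4476 c14716 c54 (k8 c310 c2485 c1098 c14767 c14779 c334 c1950 c13532 (k2 c14761 c268 (k1 c14397 k0)))) (by decide +kernel)
def c14781 : PP 8 4 T 0x100000000000000000001000400000050054005540000000000020002000020000000 := rS 0x61b155a98 (k4 c1912 c3955 c3017 c13033 (k1 c2123 k0)) (by decide +kernel)
def c14782 : PP 8 4 T 0x1001000000000000000000000000000000000084000040002080000000110 := rS 0x8c90512750985c7a8b329e5821c4a9dcda8739a5c00450f864aa3f599ec060a88854661b4d884a229 (k8 c59 c1917 c316 c1966 c294 c173 c286 c4411 (k8 c12637 c839 c705 c662 c2223 c12681 c308 c270 (k8 c2235 c4461 c12611 c12124 c9141 c5889 c6033 c1695 (k8 c4466 c6869 c14518 c2539 c13524 c11368 c572 c1638 (k4 c11468 c7030 c14781 c14170 (k1 c4472 k0)))))) (by decide +kernel)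
def c14783 : PP 8 4 T 0x1001000000001000000000000044004500010040000151000080010000090 := rS 0x411866716854763f (k8 c11031 c1641 c286 c143 c8324 c9009 c4191 c5806 k0) (by decide +kernel)
def c14784 : PP 8 4 T 0x40000000000021000000000000000040400000000000000000051400000021000002010000080140082 := rS 0x1a495c83d92367e0e42271 (k8 c2431 c2592 c8383 c8563 c4470 c4305 c4376 c8242 (k2 c2203 c1407 (k1 c11938 k0))) (by decide +kernel)
def c14785 : PP 8 4 T 0x1001000040000000000000000100000000000004000040002000000000010 := rS 0x40b2496fd58c5196aea5b09667f5b9f55ac782251265523c5c781342a2cea65388457ebb3db052e35004608a3f0f00c32411d8190e793b9cc3a0b379b4b05b2888536690dc4c12298898c2a2a (k8 c14780 c286 c1607 c4411 c59 c13906 c4441 c294 (k8 c1879 c1966 c316 c1917 c14782 c4476 c4993 c1107 (k8 c535 c1026 c1110 c1112 c541 c10041 c4462 c1641 (k8 c1913 c14708 c14463 c4466 c11031 c14083 c4472 c4461 (k8 c1099 c1193 c6869 c14312 c4449 c4369 c2592 c2431 (k8 c8511 c2432 c13524 c5976 c1638 c14783 c4416 c8078 (k8 c9052 c1655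 c275 c8472 c2206 c13185 c7516 c3676 (k8 c4313 c4312 c5806 c4459 c5849 c8140 c14784 c4350 (k4 c8253 c14666 c9529 c6395 (k1 c8103 k0)))))))))) (by decide +kernel)
def c14786 : PP 8 4 T 0x10000000000000000040000000001500000000105401501400000000000000000014804 := rS 0x2121017 (k4 c572 c4482 c14495 c4321 k0) (by decide +kernel)
def c14787 : PP 8 4 T 0x11000000001000000040000000001100001100000401000500000060005000000000806 := rS 0x20d0a4d0b1e1026f078454e61049ecd21935ac5361c (k8 c567 c765 c2605 c2540 c308 c757 c703 c13906 (k8 c13428 c13601 c606 c14186 c10992 c7000 c14786 c1846 (k4 c3897 c2548 c9038 c2119 k0))) (by decide +kernel)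
def c14788 : PP 8 4 T 0x200001000000040004010400000001104000100000080000140001000004040002 := rS 0x649bc22232683d7a378a29553124ec6480773697c0619588ccba9b4c8701409 (k8 c13906 c12637 c567 c1032 c765 c2721 c2958 c2605 (k8 c308 c839 c577 c5814 c6033 c14143 c14023 c968 (k8 c4488 c4345 c4444 c14787 c4386 c4354 c304 c1994 (k4 c14758 c607 c10992 c10573 (k1 c9531 k0))))) (by decide +kernel)
def c14789 : PP 8 4 T 0x1000200000000000040040400102000000000000004000001100001104000008144002 := rS 0x8e3506938962e (k4 c687 c1322 c787 c691 (k2 c1491 c1494 (k1 c10891 k0))) (by decide +kernel)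
def c14790 : PP 8 4 T 0x21000000000000000000000000001401101100000000000000010000020000100000000 := rS 0x2f51ebf (k4 c4369 c1306 c1040 c9059 k0) (by decide +kernel)
def c14791 : PP 8 4 T 0x21000200001000000040040000000001451100000000000001100000005080008104802 := rS 0x461b0346aa95a8e924ab578f442390999586990e4455a6c33afd8ac126a9c5c6f089856209 (k8 c13906 c2605 c13428 c606 c10992 c687 c13601 c1992 (k8 c4450 c4370 c4369 c4310 c686 c944 c4411 c567 (k8 c1032 c4958 c2539 c1638 c1139 c9668 c11368 c1775 (k8 c5962 c2127 c1029 c3579 c14789 c14790 c569 c4470 (k2 c10891 c1411 k0))))) (by decide +kernel)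
def c14792 : PP 8 4 T 0x4140000002000000000050000000001200000004800008154000 := rS 0x47248349c4b (k4 c1322 c787 c691 c1725 (k2 c1493 c2107 k0)) (by decide +kernel)
def c14793 : PP 8 4 T 0x21000200001000000040040000000001451100000000000001000000005080008104802 := rS 0x4f0888c36068d552cf28324de091e88622394c87026653f9f42261589354e2e (k8 c687 c13601 c1992 c2605 c13428 c606 c4409 c4313 (k8 c2539 c1638 c567 c1032 c1139 c4411 c9668 c11368 (k8 c13906 c10992 c10573 c14791 c3582 c14792 c14790 c569 (k4 c4470 c10891 c1643 c1642 (k1 c3386 k0))))) (by decide +kernel)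
def c14794 : PP 8 4 T 0x1000200001000000040000000000000041100000000000081000040001080008000010 := rS 0x2a57a2338a01fa0e52b1d4e250aa543eb119975368317274f2bb5fc61321c0000c1409 (k8 c13906 c12637 c839 c4461 c567 c1032 c4149 c4369 (k8 c4449 c2581 c969 c687 c2620 c765 c2721 c2958 (k8 c2605 c270 c1695 c286 c14202 c13601 c290 c1843 (k8 c14793 c4376 c427 c1416 c1327 c6133 c1361 c7138 k0)))) (by decide +kernel)
def c14795 : PP 8 4 T 0x1001000040000000000000000100000000000084000040000000000000010 := rS 0x1926f0883d7a3747c51769d8c0b9066c3c86a08c33a84d323d5c99438b1109152a874b8003e193d955223f5980c1409888545431 (k8 c14785 c14780 c286 c4411 c13906 c12637 c839 c662 (k8 c2223 c12759 c12681 c703 c308 c270 c4461 c12611 (k8 c7313 c1695 c13923 c9668 c2605 c567 c2539 c6781 (k8 c11368 c1032 c1638 c11468 c4958 c4464 c14788 c2581 (k8 c686 c2620 c687 c4149 c969 c4449 c14794 c4388 (k4 c4386 c4354 c304 c14273 (k2 c10992 c10573 (k1 c9531 k0)))))))) (by decide +kernel)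
def c14796 : PP 8 4 T 0x1001000000000000000000000000000500010040400141000080014000090 := rS 0x1145543b0587048b19c5a151d8fcf613 (k8 c1638 c14312 c11031 c1641 c286 c143 c8324 c4471 (k4 c4191 c4362 c4420 c4410 (k2 c4406 c5806 (k1 c8133 k0)))) (by decide +kernel)
def c14797 : PP 8 4 T 0x1001000040000000000000000100000000000004000040000000000000012 := rS 0x448d3090cb3da0b8a5b25840fa1b049087599fd465133a2d127d63c1128932a91c78135aaf51eb15d9957f141aa5cea1e359c4222188854a66d379ccc6911f9e4ee31628ec3a2a3d86c8a0605960b609 (k8 c13906 c14795 c4476 c534 c4462 c14083 c14662 c14312 (k8 c14780 c1026 c1641 c4530 c14785 c14098 c501 c11031 (k8 c12700 c1607 c1110 c1107 c4993 c292 c286 c4411 (k8 c9668 c2592 c2431 c493 c487 c2432 c6579 c1099 (k8 c14654 c6330 c8511 c4390 c4350 c4388 c4354 c4389 (k8 c1638 c14796 c8078 c9052 c1655 c275 c8472 c2206 (k8 c7516 c7314 c8133 c657 c3627 c858 c4313 c4312 (k8 c4410 c12422 c6869 c4421 c242 c5806 c10573 c4459 (k8 c11734 c4475 c1525 c261 c8131 c757 c4479 c12356 k0))))))))) (by decide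 +kernel)
def c14798 : PP 8 4 T 0x1001000040000000000000000100000000000004000040000000000000010 := rS 0x80041f008183a0b2c16c122a (k8 c14780 c13906 c14795 c4476 c534 c1026 c4462 c14797 (k4 c1098 c4461 c4466 c10518 k0)) (by decide +kernel)
def c14799 : PP 8 4 T 0x2000000000000000000000044000001480080000000002000025400002 := rS 0xd057c4d5a53 (k4 c4290 c2046 c4441 c984 (k2 c14512 c301 k0)) (by decide +kernel)
def c14800 : PP 8 4 T 0x1002000000000000000000000000000000000084000040002080000000110 := rS 0x45a08973385d269d329ad8a790e254da8b438008a1f0caccf603054442a131d94626330d9a53621 (k8 c316 c1966 c1879 c294 c173 c4441 c4405 c4403 (k8 c4401 c286 c4411 c12637 c839 c705 c662 c308 (k8 c270 c2235 c4461 c13785 c5853 c5889 c1695 c4466 (k8 c14518 c4530 c2540 c2539 c968 c1029 c572 c14799 (k4 c928 c4191 c4487 c13242 k0))))) (by decide +kernel)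
def c14801 : PP 8 4 T 0x1000000000000000000000010040000501010000500154402080080000090 := rS 0x6657415a0c31ec455a8734c4cc69762b04f61b (k8 c294 c14312 c6869 c4530 c1193 c1607 c4441 c1879 (k8 c10041 c2046 c4411 c275 c13033 c2115 c5806 c301 (k2 c4191 c984 k0))) (by decide +kernel)
def c14802 : PP 8 4 T 0x1000000040000000000000000100000000000004000040002000000000010 := rS 0xcfa1b368ac841204963758c5196aea5b08fab33fa2608555b99c79174a214ca715faecf6350022e3075228780619208190e793b874166f36960b6ad10a6cd21b8982622630a8a8a6131d9447ee4 (k8 c14798 c4288 c4405 c4403 c4401 c4290 c14780 c286 (k8 c1607 c4411 c13906 c4441 c294 c1879 c1966 c316 (k8 c2046 c14800 c4476 c4993 c1107 c534 c1026 c1112 (k8 c541 c10041 c4462 c1913 c14708 c14463 c4466 c14083 (k8 c498 c4472 c5853 c4461 c1099 c14312 c4449 c4369 (k8 c2431 c490 c5976 c14801 c4418 c1694 c5290 c3676 (k8 c9052 c8472 c4794 c4313 c4312 c4409 c14023 c4459 (k8 c5849 c8140 c14784 c4350 c4386 c14666 c6395 c9037 (k4 c8103 c4452 c2064 c4422 (k2 c1792 c4495 k0)))))))))) (by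 decide +kernel)
def c14803 : PP 8 4 T 0x1000000001000000040000000000000000100000000000004000040000000024000012 := rS 0xa554a0e240f409363240429e02216539844a6b4ca4c76450f97d629134a6cba7704aac625172274da19050ccb459 (k8 c1026 c4476 c2958 c10867 c308 c5889 c968 c14798 (k8 c4405 c14802 c5962 c13906 c6033 c2721 c765 c844 (k8 c12744 c2605 c2538 c56 c13923 c4403 c1029 c1032 (k8 c493 c14202 c13428 c13601 c14526 c606 c572 c2548 (k8 c573 c4447 c3897 c3762 c14186 c4488 c9038 c4345 (k2 c4444 c2119 k0)))))) (by decide +kernel)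
def c14804 : PP 8 4 T 0xa000000001000000040041010400001554144001001180100000540101004004000802 := rS 0x39afd94c82629944a54fa849e223f84152fd3005cd67b2fa44ee1904a3d6eb5078dc1a71 (k8 c4387 c568 c4386 c304 c4389 c4353 c4388 c13906 (k8 c308 c6033 c12744 c2538 c703 c493 c572 c14538 (k8 c4302 c976 c12807 c7414 c607 c446 c897 c1299 (k8 c1302 c2125 c14540 c14758 c937 c941 c9875 c1730 (k1 c9862 k0))))) (by decide +kernel)
def c14805 : PP 8 4 T 0x2000000001002000040000000000000040100000000000080000140001080024000812 := rS 0x1f1f8c930a8c481111c354aa926c4881193c19a0a758b30d731123b1cca9514a65263b59964125f34a6d82272ea1ca28b098e5229d3686466bd078dc1a71 (k8 c4387 c568 c4386 c304 c4354 c2958 c308 c5889 (k8 c968 c12744 c1139 c4401 c5853 c4405 c13785 c2721 (k8 c2877 c6869 c765 c844 c2538 c13906 c1026 c4991 (k8 c4403 c1029 c1032 c59 c762 c490 c4289 c4404 (k8 c4411 c6781 c4958 c4487 c4417 c14788 c4191 c14804 (k8 c4447 c4472 c4488 c1994 c4345 c4444 c12606 c14758 (k8 c607 c4467 c9264 c12807 c10573 c4463 c14561 c4379 k0)))))))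 (by decide +kernel)
def c14806 : PP 8 4 T 0x2100000001000000040000000000011501110004001100501500540101004005545002 := rS 0x96a652a7c9e22082a61ad0301ad0e8b (k8 c5853 c13785 c493 c14538 c2109 c4326 c976 c12807 (k4 c607 c446 c1299 c1302 (k2 c14540 c1857 (k1 c14542 k0)))) (by decide +kernel)
def c14807 : PP 8 4 T 0x6100000001000000040054000000011500100040201100101500540101004004140802 := rS 0x4b27d15944841b24222368a9552cd67d2a251926a04f016449ecbe9160a1d16bb078dd0a0d38864fab5 (k8 c4389 c1690 c308 c4387 c568 c6224 c4386 c304 (k8 c4390 c5853 c13785 c6869 c12744 c2538 c703 c597 (k8 c14806 c572 c1835 c1991 c4447 c4488 c4494 c4541 (k8 c10743 c4345 c4444 c4426 c14758 c607 c10573 c9038 (k4 c2107 c2124 c9863 c452 (k2 c1860 c4474 k0)))))) (by decide +kernel)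
def c14808 : PP 8 4 T 0x6100000001000000040000000400011500100001041100101500540101004004140802 := rS 0x112173d864be91078dc1a71 (k8 c4387 c568 c4386 c304 c12744 c2538 c308 c703 (k2 c572 c7172 (k1 c14806 k0))) (by decide +kernel)
def c14809 : PP 8 4 T 0x1000000040000000000000000100000000000004000040000000024000012 := rS 0x66b3e87455312106fc649bc222352aa49b1220206327865d2d847d3f9d142738ba590a0d07ad4e2bd1baee289d1c9b4ba2719b14d2912f864f655599688a994d828b21f04c442a2a2991c263b28b1dc831 (k8 c14802 c14798 c4289 c4405 c4403 c4401 c4404 c4290 (k8 c14780 c286 c4411 c13906 c56 c1026 c10867 c765 (k8 c1032 c13923 c4476 c4991 c12681 c703 c308 c2538 (k8 c12744 c844 c4530 c2958 c2877 c2721 c5889 c1139 (k8 c968 c14803 c4390 c4386 c4354 c4387 c4389 c304 (k8 c568 c6224 c14805 c4360 c1083 c2905 c929 c10049 (k8 c1690 c14807 c4459 c2028 c14808 c4447 c3969 c4472 (k8 c4488 c1994 c4345 c4444 c14758 c607 c10992 c10573 (k8 c4463 c9038 c2107 c10640 c9863 c4421 c1791 c2067 (k1 c4495 k0)))))))))) (by decide +kernel)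
def c14810 : PP 8 4 T 0x2000000001002000040000000000001451100001505000020000140101080085014012 := rS 0x8929e30847ea0c9aa517095425f4099a0a9f241f5723d8891c763f639acca275f8d4f633309c5768f1badd6a69439459213 (k8 c4401 c10573 c4405 c13785 c757 c4389 c4353 c4386 (k8 c4388 c4390 c2431 c617 c432 c14312 c1099 c6330 (k8 c353 c490 c493 c4289 c4288 c4403 c4404 c4411 (k8 c275 c6781 c8221 c7430 c1663 c10795 c4191 c9324 (k8 c659 c896 c283 c14668 c1843 c14669 c9038 c14670 (k4 c14675 c10474 c4532 c10705 (k1 c4539 k0))))))) (by decide +kernel)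
def c14811 : PP 8 4 T 0x100000000000000000000000044000420044000001514000000004000000100000400 := rS 0x2255a67 (k4 c5290 c860 c4794 c2120 k0) (by decide +kernel)
def c14812 : PP 8 4 T 0x2000000001002000040000000000000441100000000000000000140001080085000412 := rS 0x6782b20a848072e47a9545a1cd3113191c763f57884d6653ba74de393c960ea133696c2235030255633288dd6eb5 (k8 c4389 c4353 c4386 c4405 c432 c5962 c13906 c4462 (k8 c1099 c609 c12637 c6017 c4401 c498 c1097 c501 (k8 c8383 c3099 c3247 c3101 c490 c493 c9668 c1775 (k8 c4288 c4403 c4404 c1607 c4411 c757 c13785 c5853 (k8 c14811 c275 c6781 c14810 c7430 c242 c243 c4406 (k2 c2612 c4191 k0)))))) (by decide +kernel)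
def c14813 : PP 8 4 T 0x100000001002000000000000000000150000000000000000000150000000086000002 := rS 0xc31e8fd8a3b60944f633 (k8 c432 c14312 c4405 c6869 c4403 c4530 c4288 c275 (k2 c4958 c13034 k0)) (by decide +kernel)
def c14814 : PP 8 4 T 0x400000040014004001154000000000001000082000080 := rS 0x8922cb109 (k4 c4436 c1097 c14050 c10711 (k1 c12356 k0)) (by decide +kernel)
def c14815 : PP 8 4 T 0x400000000002000000000000000040000400001045501100405400400020040000000880006000000 := rS 0x280450d25d154c84528a622bb (k8 c4390 c4411 c59 c3777 c14675 c10851 c4397 c1320 (k4 c4330 c6927 c4489 c770 k0)) (by decide +kernel)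
def c14816 : PP 8 4 T 0x6000200001000000040000000000045501100001504400020000140015084006054000 := rS 0x4c890be86b854a0c9ec95f9ed6e41 (k8 c1872 c4353 c14312 c6330 c10573 c258 c1999 c14588 (k4 c7081 c4394 c14815 c4469 (k2 c13112 c13817 k0))) (by decide +kernel)
def c14817 : PP 8 4 T 0x1000000040000000000000400100000000000004000040000000004000012 := rS 0x29d4aa92fbf4d00e43ace08a3338f13f174a26482898486222631514c066b32a5c7e273ba74de793a84dc86d2d8457e353d8ccc2bb47c50b0314887842450302c3a09 (k8 c13906 c14809 c567 c4462 c14083 c9668 c4466 c12700 (k8 c14802 c1097 c14654 c4388 c4390 c617 c432 c14312 (k8 c1099 c6330 c609 c12637 c6017 c14798 c4401 c498 (k8 c501 c3099 c3247 c3101 c353 c4288 c6579 c490 (k8 c493 c28 c4290 c14780 c1607 c4411 c14812 c4436 (k8 c2038 c1872 c8246 c14813 c4418 c1699 c1694 c5290 (k8 c858 c8472 c4312 c4410 c14816 c14814 c4376 c1376 (k4 c2719 c1883 c13293 c10851 k0)))))))) (by decide +kernel)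
def c14818 : PP 8 4 T 0x1000000040000000000000000100000000000004000040000000004000012 := rS 0x5c698ca65347b2c1140c1e058744209 (k8 c13906 c9668 c14809 c567 c4466 c4462 c14083 c1097 (k4 c14312 c14817 c104 c4448 (k2 c4701 c13624 (k1 c4724 k0)))) (by decide +kernel)
def c14819 : PP 8 4 T 0x4000000000080000000108 := rS 0x843e1d (k4 c790 c222 c10518 c4466 k0) (by decide +kernel)
def c14820 : PP 8 4 T 0x21001000000000000000000400100101501100400000100104000000000000001008900 := rS 0x11e7654af50a71373f576a7 (k8 c13601 c4449 c4376 c305 c1416 c1496 c6133 c8675 (k2 c14263 c1345 (k1 c10356 k0))) (by decide +kernel)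
def c14821 : PP 8 4 T 0x1000000001000000040000000000000000100000000000004000040000000000000010 := rS 0x978219c1e4d08a954e6112c44430944855065d5fc4cd89d2aac5228760accb2ab171455ec5229e536931db912a690caee30990f8c466170e028b41a0000c5409 (k8 c13906 c14780 c14819 c4461 c14818 c5876 c12637 c567 (k8 c170 c951 c14802 c270 c6171 c4149 c4449 c171 (k8 c757 c1695 c14798 c4403 c1029 c5870 c2581 c7132 (k8 c4530 c1775 c4405 c687 c1844 c2669 c4991 c6869 (k8 c14564 c12744 c2605 c12681 c969 c686 c4342 c5760 (k8 c2754 c2620 c286 c678 c4316 c9668 c4411 c14202 (k8 c13428 c13601 c1843 c606 c1992 c14820 c14532 c5056 (k2 c928 c14794 k0)))))))) (by decide +kernel)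
def c14822 : PP 8 4 T 0x1000000040000000000000000100000000000004000040000000000000010 := rS 0x184975699d462486a90faa754bf0c24d64834220f38af46e8f8a2ed0f1849a652a910e2c43e7b2aafd82c5559744eb34d82a269d348cc8a5f17164b48336224f3090c85c3465579447613000c5c8158880c5409 (k8 c13906 c14780 c14819 c4411 c286 c14798 c14802 c4461 (k8 c4401 c4403 c4405 c1775 c490 c14818 c170 c171 (k8 c4316 c2581 c678 c686 c2620 c5876 c2669 c687 (k8 c2670 c7132 c951 c757 c969 c4342 c12637 c5870 (k8 c4991 c2882 c2754 c1844 c4530 c6869 c5760 c12681 (k8 c703 c270 c2605 c567 c12744 c1695 c6171 c1029 (k8 c4149 c14564 c4449 c14821 c4388 c4386 c4354 c4387 (k8 c304 c14273 c568 c10573 c374 c12807 c4463 c14548 (k8 c904 c4379 c7959 c4385 c1843 c1470 c10789 c944 (k2 c928 c2127 (k1 c13033 k0))))))))))) (by decide +kernel)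
def c14823 : PP 8 4 T 0x1100000000001000040001000000000050144005000000020000020002000020144020 := rS 0x1fa84b77e12422365a91d8e3b8b188a905442b402753782ce6771c89c1a5f489c5723d10accce06 (k8 c1025 c2635 c7239 c85 c11368 c6781 c2483 c14491 (k8 c14101 c528 c872 c3153 c3009 c3008 c535 c1107 (k8 c539 c54 c3955 c14781 c4314 c9478 c4794 c7172 (k8 c4158 c2194 c1603 c4419 c12689 c318 c322 c12381 (k4 c9550 c4473 c7787 c4392 k0))))) (by decide +kernel)
def c14824 : PP 8 4 T 0x1100000001001000040001000000000050144004000000020000144002000020144020 := rS 0xfd425bbf092111b2d62c471db1cc5052a30e3041598f572013a9bcf29b05884e6771c99c4e0d2fa44e206 (k8 c1025 c2483 c14491 c14101 c528 c872 c2635 c3153 (k8 c3009 c3008 c85 c535 c765 c541 c1107 c539 (k8 c54 c6781 c11368 c7239 c14823 c4472 c9009 c14160 (k8 c9062 c267 c2194 c1600 c1603 c4481 c7513 c12689 (k4 c318 c322 c12381 c9550 (k2 c4473 c7787 (k1 c4392 k0))))))) (by decide +kernel)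
def c14825 : PP 8 4 T 0x1000000000000000000080000000000000004000000000080000100020 := rS 0xa863 (k2 c816 c12611 (k1 c267 k0)) (by decide +kernel)
def c14826 : PP 8 4 T 0x1100000001001000040000000000000050100000000000020100144002000025144020 := rS 0x45a1cf6c1 (k4 c6869 c14312 c13785 c13509 (k1 c14824 k0)) (by decide +kernel)
def c14827 : PP 8 4 T 0x1000000001001000040000000000000000100000000000004000040002000024000000 := rS 0xbd42a05624d088d976a54c92d0718209ac9e68848601a5f07c44061336a547e9b05884ee394e9ec8a1f04a44e2970a99c0c582dc4ca2291505c0204 (k8 c14822 c54 c1911 c14780 c59 c1917 c4441 c758 (k8 c4476 c1025 c2635 c287 c14825 c2483 c14491 c13906 (k8 c56 c13923 c14312 c1234 c3153 c3009 c85 c535 (k8 c765 c1180 c762 c694 c531 c14819 c4411 c14107 (k8 c14101 c528 c14826 c4436 c269 c2197 c1919 c1872 (k8 c4540 c1999 c1875 c8246 c1883 c4449 c14724 c318 (k4 c324 c10281 c12056 c14677 (k2 c7460 c6745 k0)))))))) (by decide +kernel)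
def c14828 : PP 8 4 T 0x2000000000001000000004000400000210044045000000020001405010000020140000 := rS 0xc71d9520a8862900e677 (k8 c3009 c3008 c1031 c3017 c6803 c4314 c9478 c4158 (k2 c7228 c13098 k0)) (by decide +kernel)
def c14829 : PP 8 4 T 0x2000000001001000040000000400000010100000000000020100145002000025140020 := rS 0x3b639518b184c9fc8e49121706a0d073f5048540b0e108b43824ea6f3c9ccee710b8057f134e9ed36bb5e8456206 (k8 c1025 c4350 c608 c4354 c4390 c765 c14312 c1234 (k8 c4441 c5760 c54 c1911 c2483 c3009 c3008 c541 (k8 c1107 c539 c13906 c13785 c13509 c4465 c13974 c4439 (k8 c4321 c2122 c14722 c14520 c2488 c8124 c265 c264 (k8 c2191 c1332 c3429 c14828 c4488 c4370 c14041 c2194 (k2 c1600 c13098 k0)))))) (by decide +kernel)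
def c14830 : PP 8 4 T 0x1001000040000000000000000100000000000004000040002000024000000 := rS 0x82325860f4192d8a4127b44d1090c0456ab758c518251098fcea7b2287c126f399dc72715c8f442b34b854ce062c16c02044a8a6222a (k8 c14780 c4411 c59 c762 c14822 c54 c758 c4476 (k8 c1025 c2635 c287 c14825 c7239 c85 c11368 c6781 (k8 c2483 c3153 c3009 c3008 c1107 c13906 c56 c13923 (k8 c14312 c539 c1180 c531 c1917 c6869 c14827 c4350 (k8 c4353 c4389 c608 c14829 c4436 c269 c2198 c2197 (k8 c1872 c7523 c3785 c3902 c8476 c9009 c10573 c9770 (k1 c10837 k0))))))) (by decide +kernel)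
def c14831 : PP 8 4 T 0x100001001000000004000000001040000000040100000100140005010020100020 := rS 0x2b526621d95026954da6582ab (k8 c5962 c6869 c1032 c765 c762 c531 c4464 c4158 (k4 c267 c1029 c820 c7662 k0)) (by decide +kernel)
def c14832 : PP 8 4 T 0x800002000000000000000000000400000001000000100500000000000000000000000 := rS 0x294d681 (k4 c4380 c4442 c4444 c4130 k0) (by decide +kernel)
def c14833 : PP 8 4 T 0x20000000001001000000004000400001040004000540000000000140001010024100020 := rS 0x28c14a8333da2cd219 (k8 c268 c13396 c13945 c14312 c430 c14042 c9062 c1604 (k1 c14831 k0)) (by decide +kernel)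
def c14834 : PP 8 4 T 0x1000000001001000040000000000000000104000000000004000040000000024000000 := rS 0x188bc44afe088f1a2c0a2107e85d56a535aa58312409023233368fcea6f309e4e6774e9ec8a3d10acca68b34b0d32970a99d2a298883c062a0487d4e9b42834be9138818b05b008646204 (k8 c14822 c14830 c268 c54 c758 c4476 c1025 c2483 (k8 c14491 c14101 c528 c6224 c765 c13601 c56 c13906 (k8 c14780 c14819 c14107 c4411 c59 c762 c2635 c287 (k8 c14825 c1032 c4958 c13396 c13945 c292 c7239 c85 (k8 c11368 c13923 c14312 c1234 c3009 c3008 c541 c617 (k8 c1107 c539 c1180 c694 c430 c14833 c4472 c7000 (k8 c4488 c1853 c4345 c4442 c4444 c4445 c532 c14102 (k8 c14495 c1644 c13430 c609 c7008 c14831 c1242 c4314 (k2 c14750 c14226 (k1 c3025 k0)))))))))) (by decide +kernel)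
def c14835 : PP 8 4 T 0x1001000000000000000000000008000000000000000000000080005100020 := rS 0x188a054 (k4 c7313 c13785 c267 c3549 k0) (by decide +kernel)
def c14836 : PP 8 4 T 0x1001000040000000000000000100000000000004000040000000024000000 := rS 0x1197c9a1152aa57ab142c4881148ca1d86694c86462b34bc4466754a8a4de613ca6ce6774e9ec8a1f049c44e910a99c0c582d804082a (k8 c14780 c14822 c54 c758 c4476 c1025 c2635 c287 (k8 c14491 c872 c2483 c13906 c56 c13923 c14312 c1234 (k8 c3009 c3008 c765 c541 c617 c1107 c59 c762 (k8 c539 c430 c4411 c14825 c7239 c14830 c268 c1032 (k8 c13396 c4958 c14835 c14833 c14834 c4472 c4488 c13580 (k8 c4350 c4354 c4345 c4444 c608 c1994 c14743 c14758 (k1 c14744 k0))))))) (by decide +kernel)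
def c14837 : PP 8 4 T 0x1000000001000000040000000000000040100000000000004000040002000025000000 := rS 0x16e236693a8abc51bf0ba11658d93eae26988cb4b82aad6a8861c5966b9889d4de794d82c42733b8e53a7b3389d26c51db048a2f89ab4a60f018243ea14a8a4548b43945c8850697d227103160b6818405c0204 (k8 c14822 c54 c1911 c4465 c4439 c758 c4476 c1025 (k8 c2483 c14491 c14101 c528 c6224 c14836 c4405 c13785 (k8 c13509 c14780 c59 c762 c4551 c56 c13906 c14819 (k8 c14107 c4290 c2046 c4441 c61 c13923 c6869 c4403 (k8 c4530 c1029 c872 c2635 c14312 c1234 c3153 c3009 (k8 c3008 c85 c535 c765 c541 c1107 c539 c4411 (k8 c6781 c7239 c4487 c13033 c8505 c4419 c11176 c5806 (k8 c4457 c557 c4794 c14721 c4491 c6233 c12689 c8140 (k8 c318 c12183 c12381 c13617 c14722 c4454 c7460 c2068 (k2 c1490 c7551 (k1 c5153 k0))))))))))) (by decide +kernel)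
def c14838 : PP 8 4 T 0x1000000001000000040000000000000000100000000000004000040002000025000000 := rS 0x44955a26357a590e8b8884c521533818b05b151442e01022b4a6e4 (k8 c14836 c4290 c2046 c14822 c54 c1911 c4405 c14780 (k8 c758 c4476 c1025 c2635 c287 c59 c531 c4411 (k8 c13509 c13785 c14837 c4631 c816 c301 c267 c4794 (k1 c2109 k0)))) (by decide +kernel)
def c14839 : PP 8 4 T 0x1000000001000000040000000000000000100000000000004000040002000024000000 := rS 0xa2205624d088d976a54c92d0718209ac9e68848601a5f0780c546d379e5360b109dc729d3d9143e09489c40c582d8040913 (k8 c4441 c14822 c54 c758 c4476 c1025 c2483 c14491 (k8 c13906 c56 c13923 c14312 c1234 c3153 c3009 c85 (k8 c535 c765 c541 c1107 c694 c14780 c14819 c14107 (k8 c14101 c528 c14838 c4436 c269 c2197 c1919 c1872 (k8 c4540 c1999 c1875 c8246 c1883 c4449 c14724 c318 (k4 c324 c10281 c12056 c4474 (k1 c8243 k0))))))) (by decide +kernel)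
def c14840 : PP 8 4 T 0x2100000000000000040040000000000050100000014000000000404400000100008020 := rS 0x3d5cac56a35 (k4 c1329 c4389 c4350 c6781 (k2 c11368 c10297 k0)) (by decide +kernel)
def c14841 : PP 8 4 T 0x2000000001000000040040400000000010100005414040004500404402000105010020 := rS 0x892ab44c6af4b0390a818421d16098884c52151505c02ad (k8 c2046 c54 c1911 c14780 c287 c59 c531 c4411 (k8 c13906 c13509 c13785 c4465 c4439 c4321 c14520 c14840 (k4 c4631 c816 c301 c267 (k2 c4794 c2109 k0)))) (by decide +kernel)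
def c14842 : PP 8 4 T 0x1000000040000000000000000100000000000004000040002000024000000 := rS 0x24c14fea1591912c551e22df80d3ea8c48cf1aa99524c52b24ba844083d5e8325a6630413593da2688486022b55e8dd1eb15dc517ead0bc4c5f110184cda211f9d52a29379e536771ca74f67113a442a6703160b601020a8a6471db1d8251721143e09 (k8 c13906 c56 c13923 c14836 c4405 c6869 c4289 c4403 (k8 c4404 c4290 c14780 c14822 c54 c758 c4476 c1025 (k8 c2635 c287 c14491 c872 c2483 c14312 c1234 c3153 (k8 c3009 c765 c541 c1107 c59 c762 c539 c1180 (k8 c85 c694 c531 c14819 c4411 c61 c4441 c1911 (k8 c2046 c5760 c14839 c4390 c4350 c4388 c4386 c4354 (k8 c4389 c608 c14841 c4436 c269 c2198 c2197 c1919 (k8 c1872 c4540 c8246 c3785 c3902 c1774 c8476 c12056 (k8 c10618 c12183 c10573 c1882 c14677 c826 c7780 c10290 (k8 c5286 c2007 c940 c1501 c1368 c4463 c10087 c12955 (k8 c9052 c11368 c1196 c1195 c7302 c555 c4312 c283 (k1 c7108 k0)))))))))))) (by decide +kernel)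
def c14843 : PP 8 4 T 0x1000100000000000040000011400000000100040100000021000001400000020154020 := rS 0x1a1f490c97e2c4026f398e44e0d2fa44e206 (k8 c1025 c2483 c14491 c14101 c528 c872 c3153 c3008 (k8 c1107 c54 c10281 c12381 c10573 c7108 c8975 c4209 (k1 c9361 k0))) (by decide +kernel)
def c14844 : PP 8 4 T 0x1000000001000000040001000004000040104000000000020000140401080024004020 := rS 0x5413c68108c44c9a7f35058aa6431ab20ab54430e2cb31eae6221319884ea95149e4e6774e9ec2a6749a2d32690ca9d360d2fa44e206 (k8 c1025 c2483 c14491 c14101 c528 c765 c13601 c268 (k8 c13396 c1032 c13945 c1029 c2635 c287 c14312 c1234 (k8 c3009 c3008 c541 c59 c762 c539 c85 c430 (k8 c531 c4411 c6781 c11368 c7239 c4487 c4958 c8505 (k8 c4419 c5806 c7662 c820 c6230 c267 c13996 c556 (k8 c554 c1991 c4442 c4488 c14843 c609 c446 c14790 (k1 c14588 k0))))))) (by decide +kernel)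
def c14845 : PP 8 4 T 0x1000100001000000040000004000400500001044414100421000000105004000155005 := rS 0xbc268d2302e1bc4d06487e174f29d (k8 c1234 c541 c12183 c12381 c7108 c4306 c14832 c323 (k4 c4469 c4488 c4470 c1992 (k2 c6225 c1040 k0))) (by decide +kernel)
def c14846 : PP 8 4 T 0x1000000001000000040000000000000000100000000000004000040000000024000000 := rS 0x50d724865b41121725d15787d52aa53f0c5faec9e2547ac068fd08414fe55591916e634b2141a5f5383c061314a6cde613b8e53a7b3889d221533818b05b008a8a6471db048a1f04a2d32ab199a50e1918810a2e4 (k8 c14836 c4405 c14822 c14842 c268 c13785 c13396 c430 (k8 c5962 c1032 c13945 c13906 c56 c13923 c6869 c4403 (k8 c4404 c4290 c14780 c54 c758 c4476 c1025 c2635 (k8 c287 c14491 c872 c2483 c14312 c1234 c3153 c3009 (k8 c617 c1107 c765 c59 c531 c14819 c14107 c13601 (k8 c14101 c528 c6224 c14844 c816 c3176 c1196 c1195 (k8 c267 c554 c4312 c14845 c4300 c609 c608 c7008 (k8 c279 c446 c1310 c1242 c4486 c11480 c14588 c4385 (k8 c1650 c2126 c4454 c1859 c613 c13996 c2109 c1751 (k4 c7073 c1208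 c4421 c4531 k0)))))))))) (by decide +kernel)
def c14847 : PP 8 4 T 0x1000000040000000000000000100000000000004000040000000024000000 := rS 0x2062683542941e2242834be4d08ac628694c864622738a453a393b818f261379ecb0454d96c3e09008ccda04 (k8 c14822 c694 c430 c54 c13906 c56 c758 c765 (k8 c13923 c4476 c14312 c1107 c617 c541 c1025 c3009 (k8 c3153 c1234 c14491 c2483 c872 c14842 c268 c1032 (k8 c13396 c14846 c4350 c608 c14740 c14743 c528 c6224 (k8 c14744 c1328 c1302 c14758 c9038 c4345 c1362 c10618 k0))))) (by decide +kernel)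
def c14848 : PP 8 4 T 0x1001000000000000400000000000000000000000500154402000000200000 := rS 0xc31eb458ac1 (k4 c6869 c4530 c2240 c327 (k2 c13656 c2115 k0)) (by decide +kernel)
def c14849 : PP 8 4 T 0x1001000000100010400000000044010400000001501154402000000055800 := rS 0x1e1fc2b18 (k4 c4472 c14848 c7517 c14170 (k1 c11938 k0)) (by decide +kernel)
def c14850 : PP 8 4 T 0x1000000001000000040000000400000000044000400000081000040012080014055801 := rS 0x3f19d8e157214d724e47090924b239f46c237e20d9239888ec7e63288a43c218c1048a8142c202e19 (k8 c308 c1911 c4465 c4321 c4439 c438 c1913 c4472 (k8 c316 c4466 c59 c1917 c1606 c2223 c1641 c4411 (k8 c358 c10573 c4570 c4463 c9135 c4470 c4379 c1643 (k8 c1915 c2203 c272 c273 c7463 c3449 c2231 c14849 (k4 c4284 c4289 c5084 c2107 (k1 c6629 k0)))))) (by decide +kernel)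
def c14851 : PP 8 4 T 0x1001001000000000000402000000001000000005180000154402080000200000 := rS 0x15a5232c14a229 (k4 c59 c1917 c4308 c2556 (k2 c14848 c11272 (k1 c293 k0))) (by decide +kernel)
def c14852 : PP 8 4 T 0x1001001000000000000002000000045000404001581000550642080080000820 := rS 0x64499f4787f3385426293188630b306a45723f (k8 c2223 c1201 c888 c2550 c2645 c4472 c316 c1606 (k8 c59 c531 c14851 c654 c7517 c14170 c7516 c1655 (k2 c11326 c579 k0))) (by decide +kernel)
def c14853 : PP 8 4 T 0x1000000001000000040000000000000000100000000000001000040002080014000020 := rS 0xc93ea8ccace242b9574b68224fecd5699c2a53722a0984b239be8aa54f8e1430c278ddfa103084c663b459445287899b4d263359e4beb15983502858405c025d1a878ee192283c1407209684209 (k8 c13906 c316 c6846 c1913 c527 c4462 c12199 c438 (k8 c308 c6033 c4466 c1099 c14174 c54 c1911 c4465 (k8 c4321 c4439 c2550 c2645 c2607 c577 c14518 c580 (k8 c1606 c13396 c694 c4441 c10041 c59 c1917 c13509 (k8 c1641 c430 c531 c6986 c14850 c4300 c2202 c2237 (k8 c12577 c11524 c4470 c4384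 c4385 c13089 c1073 c1642 (k8 c1914 c4474 c9304 c14852 c4290 c4284 c5084 c2046 (k8 c2062 c670 c13072 c2109 c4426 c1671 c301 c7073 (k4 c381 c7555 c989 c1622 (k2 c1792 c5857 k0)))))))))) (by decide +kernel)
def c14854 : PP 8 4 T 0x1001001000000000101000000001501000000004180000150452084000220820 := rS 0x14aa75492d32615630d7252328f60a3f288a4beb35fa74f3134daee30c7 (k8 c2226 c4472 c4449 c1966 c4441 c14518 c969 c5760 (k8 c2645 c577 c59 c1917 c2223 c4308 c327 c2556 (k8 c14848 c7514 c9009 c293 c11262 c2050 c3956 c11272 (k2 c11219 c10323 (k1 c2126 k0))))) (by decide +kernel)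
def c14855 : PP 8 4 T 0x1000000000020000000400040020040010010054500020000000080000000020 := rS 0xc9509859c25 (k4 c2219 c381 c615 c1735 (k2 c1792 c12906 k0)) (by decide +kernel)
def c14856 : PP 8 4 T 0x2001000000000000000000000000000000000000500500008000006000000000001 := rS 0xc2a91120c2e81 (k4 c4439 c1911 c1854 c1915 (k2 c1322 c766 (k1 c12981 k0))) (by decide +kernel)
def c14857 : PP 8 4 T 0x1001001000000000101000000001500000010000084020050442000084020820 := rS 0xa332b41289329c5cfa3c44c10e6670a84cf68b62a6c425114a1e266d3498caa6b4e9e6305f5989d2e3f152161017009746a770c8248a0f (k8 c12199 c438 c13906 c308 c6033 c1099 c14174 c54 (k8 c1911 c4465 c4321 c14780 c2223 c1193 c353 c2645 (k8 c577 c4472 c14518 c969 c580 c12681 c1606 c13396 (k8 c694 c4441 c10041 c59 c1917 c316 c1966 c4530 (k8 c13509 c703 c531 c14854 c654 c12124 c4464 c7030 (k8 c14170 c4409 c13242 c332 c1655 c275 c7682 c579 (k2 c858 c14855 k0))))))) (by decide +kernel)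
def c14858 : PP 8 4 T 0x1000000040000000000000000100000000000004000040002000004000000 := rS 0x4a1f572a151a7d2665243384aae55d2da08966ab4ce1529b914a4c2593dfa105a9c57ab7488dc728f8a17576bf42a052e3513accbf184e9ae101e2d21c82790b944429b898042629199b47e7b0798caa8b349dc32c5228280e04048ec3a2a (k8 c14780 c14847 c1641 c13906 c14822 c527 c4462 c438 (k8 c4530 c308 c6033 c13396 c13509 c12681 c1606 c12199 (k8 c703 c2223 c694 c430 c59 c531 c54 c4441 (k8 c1966 c316 c1917 c1911 c14518 c1913 c10041 c6846 (k8 c4466 c4465 c580 c969 c4472 c577 c2645 c353 (k8 c1099 c1193 c4439 c4321 c5760 c4449 c14174 c14853 (k8 c4388 c4348 c4386 c4352 c4353 c4354 c4387 c4389 (k8 c14520 c12954 c2237 c14856 c2114 c1935 c14857 c4290 (k8 c4284 c5084 c2046 c2062 c13072 c2109 c4426 c1671 (k8 c301 c2219 c381 c380 c7555 c1778 c1781 c989 (k4 c1735 c1525 c1622 c2125 (k1 c14855 k0)))))))))))) (by decide +kernel)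
def c14859 : PP 8 4 T 0x1000000001000000040000000000000000100000000000004000040000000004210000 := rS 0x11920a6932a65292d1c2454a046c2342c20d6354897c1a170f168cc21018a8666d2283cd219188e414070e824c204 (k8 c14822 c614 c13906 c14847 c527 c4462 c358 c14858 (k8 c308 c13396 c12199 c438 c694 c430 c14780 c14819 (k8 c2261 c287 c6846 c4466 c2637 c2636 c577 c888 (k8 c1099 c6097 c4465 c6224 c9135 c4470 c4439 c6029 (k8 c272 c273 c3400 c5936 c14495 c2011 c13601 c1103 (k2 c4448 c4472 k0)))))) (by decide +kernel)
def c14860 : PP 8 4 T 0x1000000040000000000000000100000000000004000000001000054010020 := rS 0x181712960405b018a8da0f0501c1261 (k8 c614 c13906 c527 c4462 c12199 c694 c14780 c14819 (k4 c575 c4466 c4476 c313 (k2 c6610 c14602 (k1 c2495 k0)))) (by decide +kernel)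
def c14861 : PP 8 4 T 0x1000000001000000040000000000000000100000000000004000040000000004010000 := rS 0x60b0d2ab572af1323d43b18fa7f44a5cf34553295764b5cc20d68340a3848495491d0a172fbf06c235f835225a1a878ce1564974de611cc440613148ccda3b1f9141e632a8a916693b86414070e8101231 (k8 c14858 c13906 c14822 c14847 c527 c4462 c308 c6033 (k8 c13396 c13509 c14780 c12681 c1606 c12199 c438 c2223 (k8 c1641 c694 c430 c59 c531 c14819 c4411 c358 (k8 c614 c10992 c12183 c10573 c14859 c654 c14860 c1099 (k8 c271 c1153 c569 c6330 c9135 c4470 c10457 c577 (k8 c2552 c6224 c1643 c6029 c2203 c272 c273 c4380 (k8 c4306 c6097 c4465 c3449 c3400 c6870 c5936 c14495 (k8 c14412 c11641 c928 c13072 c6629 c4379 c2107 c4440 (k8 c11938 c2011 c4500 c4289 c1432 c1694 c4958 c2021 (k1 c14157 k0)))))))))) (by decide +kernel)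
def c14862 : PP 8 4 T 0x1000000000000000000000000000000400000004000040001080054000820 := rS 0x60a1cf28928ace106b3a9cccec34925c2e3c2c264405b4a8b622333d98caa8b0cb148a3b (k8 c1641 c438 c4530 c308 c13509 c12681 c1606 c703 (k8 c430 c4411 c143 c1695 c575 c4466 c6171 c4476 (k8 c314 c6610 c926 c315 c4958 c2638 c1110 c539 (k8 c6097 c4465 c7239 c3594 c13072 c540 c4440 c6869 (k1 c2123 k0))))) (by decide +kernel)
def c14863 : PP 8 4 T 0x1000000001000000040000000000000000100000000000004000040000000004000000 := rS 0x2f482824ca94de70860e0c25d2f8dd524f7e840da453489c6ab1358cd03080b9683c313b8a8320a038740809 (k8 c13906 c14822 c14847 c527 c4462 c308 c14780 c6033 (k8 c14858 c14862 c271 c2552 c4465 c4439 c430 c6097 (k8 c2607 c1099 c353 c13396 c438 c694 c14861 c4300 (k8 c446 c14588 c2202 c543 c11106 c6986 c4470 c4477 (k8 c359 c1073 c4385 c14577 c12981 c1103 c13440 c589 k0))))) (by decide +kernel)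
def c14864 : PP 8 4 T 0x40001000000000000000000002000000004450010080200820 := rS 0x1703d649d60ab159969fa7f (k8 c2653 c4302 c271 c2645 c2607 c4308 c591 c631 (k2 c2205 c11270 (k1 c5280 k0))) (by decide +kernel)
def c14865 : PP 8 4 T 0x200001001000000000140440000000154005441144080140144545012080400000 := rS 0x1294a415627cca94498f22eab60b1442975f8d4d64d (k8 c284 c6097 c1099 c6330 c1193 c86 c4530 c6869 (k8 c5962 c9460 c4471 c1655 c275 c579 c1699 c5842 (k4 c14593 c2053 c2114 c1373 k0))) (by decide +kernel)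
def c14866 : PP 8 4 T 0x40005000000000100000000000000200404540082080000000 := rS 0x5c8f4929550c446a97 (k8 c1193 c1099 c4411 c3662 c3627 c283 c275 c6781 (k1 c2113 k0)) (by decide +kernel)
def c14867 : PP 8 4 T 0x1000000000000000000000000000002000000000000140000000000400000 := rS 0x8319 (k2 c4447 c1846 (k1 c4472 k0)) (by decide +kernel)
def c14868 : PP 8 4 T 0x1001000000000140400000000144004401140081140144545082080540000 := rS 0x821cc526357a24d679 (k8 c14867 c6097 c13072 c1775 c1606 c59 c12124 c4464 (k1 c14865 k0)) (by decide +kernel)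
def c14869 : PP 8 4 T 0x40000000000000100000000000000000040005044000200100000000000000000404550002100000000 := rS 0x5c8f4929250ab14f13 (k8 c4443 c2011 c4491 c900 c2051 c283 c1655 c1125 (k1 c2113 k0)) (by decide +kernel)
def c14870 : PP 8 4 T 0x1000000040000000000000000100000000000004000040000000004000000 := rS 0x92b91ea852aac89a9d364a8c10532e4a5b4156514499c2a4d2393d8e2411840c0b55eadc6e395d8362887841ac2eb35f9692e35138843c53578c4ee694583c8a193d9547e0a1d81c3a6d19826220109810522a (k8 c14780 c59 c14822 c531 c54 c4411 c13906 c430 (k8 c694 c14847 c527 c1641 c4462 c2223 c12681 c703 (k8 c308 c438 c12199 c13509 c13396 c6033 c14858 c1775 (k8 c292 c14862 c86 c353 c1099 c1193 c271 c6330 (k8 c2645 c2552 c6097 c4465 c4440 c14863 c569 c4390 (k8 c4348 c4386 c4353 c4354 c4389 c14589 c14587 c766 (k8 c615 c2226 c446 c1643 c284 c14864 c654 c13072 (k8 c14866 c5962 c2109 c4426 c14868 c14869 c1103 c4472 (k8 c2114 c4448 c1857 c13260 c4491 c860 c900 c275 (k2 c6781 c283 (k1 c7430 k0))))))))))) (by decide +kernel)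
def c14871 : PP 8 4 T 0x1000000000000000400000000000000000000000500154402000000200000 := rS 0xe5 (k2 c4284 c14848 k0) (by decide +kernel)
def c14872 : PP 8 4 T 0x91000000000000000000000000000500144402000080000000 := rS 0x186d11eb94822f (k4 c61 c1104 c4289 c2206 (k2 c2242 c9009 (k1 c2115 k0))) (by decide +kernel)
def c14873 : PP 8 4 T 0x1000000000000000040040000000000000000050000000001000000110080090114020 := rS 0x903611b242629 (k4 c59 c531 c10573 c9135 (k2 c4470 c12184 (k1 c2203 k0))) (by decide +kernel)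
def c14874 : PP 8 4 T 0x140000000000000000050000000001080000002080000114020 := rS 0x8c922f (k4 c61 c2239 c1490 c12184 k0) (by decide +kernel)
def c14875 : PP 8 4 T 0x40100000000010000400050000045580000002000005180000000 := rS 0x146654fa512647 (k4 c8078 c1655 c275 c11480 (k2 c579 c858 (k1 c2118 k0))) (by decide +kernel)
def c14876 : PP 8 4 T 0x1000000040000000000000000100000000000004000040002000000010000 := rS 0xaf68248e8c35ca547b0d50a904a222513d7a3747c50fa917e324ba6f3093472030484c420f13ab4beb10687402bf1aa5d77183f99c2ab3208be22632ab1d82c5228fc145a020eca2290f14c342a (k8 c14780 c14870 c2229 c7896 c59 c1917 c1102 c14822 (k8 c6533 c574 c2223 c2235 c4530 c6869 c14872 c2234 (k8 c1606 c4411 c61 c1104 c2645 c14871 c654 c6629 (k8 c4472 c4449 c1193 c1099 c6330 c54 c758 c2550 (k8 c2607 c577 c2046 c2317 c2233 c316 c531 c13906 (k8 c14819 c358 c374 c614 c10992 c12183 c10573 c4463 (k8 c1153 c4379 c14873 c4388 c4386 c4354 c14874 c2114 (k8 c1915 c1374 c1914 c770 c4385 c14875 c1694 c6781 (k4 c13033 c11613 c7613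 c6159 (k2 c3717 c301 k0)))))))))) (by decide +kernel)
def c14877 : PP 8 4 T 0x1001001000000000000000000010040010440022041501400155402080000000000 := rS 0x1d591163ea8d266539a1d5caba5b418695888cd5a6362b04a229 (k8 c59 c1917 c6869 c4530 c1606 c2046 c173 c4411 (k8 c1694 c13033 c6159 c4426 c1671 c301 c1630 c7619 (k8 c701 c1778 c5449 c1420 c4487 c5857 c4417 c586 k0))) (by decide +kernel)
def c14878 : PP 8 4 T 0x1001001001000000040000000000000001100000002000081400040042080080004020 := rS 0x1d0faa332add68734a24c789f5c9c1430c1c18412212fa0d12973f99c2a451f82876b3208bca2298898cba35 (k8 c1099 c11106 c1606 c4411 c59 c1917 c61 c1104 (k8 c2645 c1102 c574 c2223 c2235 c14871 c654 c6629 (k8 c1193 c2662 c2622 c577 c316 c13906 c6986 c4470 (k8 c12577 c11524 c359 c1201 c4384 c14877 c1655 c275 (k8 c1614 c363 c1743 c579 c859 c1420 c4254 c11104 k0))))) (by decide +kernel)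
def c14879 : PP 8 4 T 0x1001001000000000000005000014041500440000000100400155402080000000000 := rS 0xa349ab9a0c35ca5622ad62b04a229 (k8 c59 c1917 c6869 c4530 c2046 c4411 c1694 c6781 (k4 c13033 c6159 c301 c1778 (k2 c5449 c2125 k0))) (by decide +kernel)
def c14880 : PP 8 4 T 0x1001000000040000000000000001100000000001000040040042080008000020 := rS 0x1908b3ea8cca8739a5127171e210984b52a7d430c898855a5f41afd2ec15dc60fe670a9147e0a1dacc822f288a622632e8d51e395baf4e2b58a1541e1e36168a709 (k8 c4316 c2229 c6533 c295 c7896 c2233 c2234 c14878 (k8 c4389 c4387 c4354 c4353 c4348 c4388 c1099 c11106 (k8 c1606 c4411 c59 c1917 c61 c1104 c2645 c1102 (k8 c574 c2223 c2235 c14871 c654 c6629 c4472 c4449 (k8 c6869 c1193 c6330 c2622 c577 c2046 c316 c4441 (k8 c12577 c11524 c4384 c4385 c1914 c2114 c375 c14879 (k8 c4416 c1655 c275 c1614 c7043 c579 c858 c1502 (k2 c11317 c12906 (k1 c716 k0))))))))) (by decide +kernel)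
def c14881 : PP 8 4 T 0x1000000040000000000000000100000000000004000040002000000000000 := rS 0x2692c4823302f473141ba449efd082ee30bf228d414412a83c3c6c2d0bc02048494c342a (k8 c14780 c14870 c2229 c4316 c14822 c54 c61 c6533 (k8 c295 c7896 c2233 c2234 c1104 c574 c1099 c2235 (k8 c6330 c4472 c4449 c14876 c4300 c2237 c12756 c2202 (k8 c14878 c4348 c4354 c14880 c766 c615 c1915 c2218 (k1 c2114 k0))))) (by decide +kernel)
def c14882 : PP 8 4 T 0x1000000040000000000000000100000000000004000040000000040010800 := rS 0x8b61b28974560aed0e483f9c4fa8144c6173046291e2e5f39bf166c70a9dd2e3c12b257e63588e41a671003cf65516c442629848c4f245049bcea582da54542702135061a (k8 c14870 c638 c374 c14822 c350 c14780 c1695 c575 (k8 c4476 c539 c1107 c13906 c13923 c599 c14881 c4316 (k8 c59 c531 c4411 c143 c12681 c703 c12199 c535 (k8 c2638 c2495 c358 c622 c1606 c7782 c10573 c313 (k8 c314 c926 c7135 c2261 c2262 c7239 c4463 c1110 (k8 c14382 c4416 c8078 c1783 c10368 c6781 c4482 c678 (k8 c4380 c4379 c536 c10049 c2107 c4410 c4449 c4450 (k4 c8243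 c14609 c4599 c2029 (k2 c1752 c2123 k0))))))))) (by decide +kernel)
def c14883 : PP 8 4 T 0x1100000000000000000100005500004010100000050044424000000000000000000080 := rS 0xb94b9bcc275 (k4 c539 c617 c1107 c1195 (k2 c14038 c11717 k0)) (by decide +kernel)
def c14884 : PP 8 4 T 0x1000000000000000040011100101100511100000050040025010020520084100055080 := rS 0x14a6833c907f3245e0ab22727d7c475bb1d1e255ac453a1531a9cbec9409f5f86f (k8 c1107 c4480 c4379 c4380 c10573 c14101 c13601 c1606 (k8 c287 c3040 c4411 c7883 c1369 c1306 c1452 c1037 (k8 c7823 c14750 c11480 c1054 c14883 c4312 c4358 c4904 (k4 c554 c2107 c1791 c452 (k2 c4572 c4426 k0))))) (by decide +kernel)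
def c14885 : PP 8 4 T 0x1100000000000000000151000540001510810008014040021000400400000120155000 := rS 0x1fdca3d61a5cea731caae25193ebf126b9 (k8 c1476 c1029 c4480 c4379 c4366 c4488 c4445 c3153 (k8 c3008 c539 c1195 c1211 c11368 c14751 c7517 c12203 k0)) (by decide +kernel)
def c14886 : PP 8 4 T 0x1000000001000000040000000000000000100000000000005000040400000040010000 := rS 0xe44b41564c75c8888e8e1b2fc6ac588abd2a2726a24e6395e854cea952b04a2ab89464f49d20264663122a9d36216483c2629409f5f8b10e004062a37834be710d2440c0b04960b604 (k8 c14822 c575 c4476 c13906 c14882 c4462 c14491 c14870 (k8 c2673 c14101 c528 c1107 c14780 c14819 c54 c4726 (k8 c10281 c4480 c4379 c4380 c59 c531 c14107 c10573 (k8 c12555 c6867 c13601 c13923 c14881 c6309 c6171 c689 (k8 c3040 c688 c4366 c4488 c4445 c1644 c6869 c4444 (k8 c4345 c2635 c287 c14749 c3153 c3008 c2661 c374 (k8 c350 c1695 c1775 c4411 c4530 c14884 c6330 c4470 (k8 c14750 c1412 c760 c1476 c1450 c14885 c4312 c7239 (k2 c4464 c14753 k0))))))))) (by decide +kernel)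
def c14887 : PP 8 4 T 0x1000000001000000040000000000000000100000000000005000040000000040010000 := rS 0x639244435472fc8eb65c9fd0eb35aa49ca3a069f502c92fbf14e0f098a4326f3aa5522711cac438015e854cea952c4a327a4e9000c584c8cc629b1082c062a0496c081a (k8 c14870 c14822 c575 c13906 c14780 c14819 c14882 c12555 (k8 c6867 c14881 c6309 c6171 c4476 c4462 c689 c3040 (k8 c688 c4366 c4488 c4444 c4345 c2635 c287 c14749 (k8 c54 c4726 c10281 c3153 c2673 c14491 c1695 c539 (k8 c1107 c171 c59 c531 c14107 c13601 c4480 c14101 (k8 c10573 c4380 c4379 c528 c14886 c4403 c1640 c3579 (k8 c1042 c7313 c7517 c3014 c4032 c1587 c3045 c14750 (k4 c1306 c760 c1723 c1450 (k1 c2107 k0))))))))) (by decide +kernel)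
def c14888 : PP 8 4 T 0x2900002001000000040011000000001515100000000000021010140000005000145000 := rS 0x294d0679220a7f591922e4e5f2594f0c2f88d52a5 (k8 c4444 c4345 c14758 c14382 c4467 c4330 c12606 c13260 (k8 c14540 c4360 c1196 c1195 c554 c4312 c7126 c1791 (k2 c452 c4572 (k1 c4426 k0)))) (by decide +kernel)
def c14889 : PP 8 4 T 0x2101000000000000000110000544801514110010040044020000000000000000000000 := rS 0x5141572874b9bceab5 (k8 c4389 c539 c1107 c1195 c7276 c6781 c9531 c11734 (k1 c6667 k0)) (by decide +kernel)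
def c14890 : PP 8 4 T 0x12001002001000000040100000140001511110000000040021010140400084020045000 := rS 0x124fea1519912d1782ac94cbf1a8918a93889cc721554a95825155c48c6bb47add6a7d (k8 c4379 c4389 c4353 c4388 c4390 c1606 c4488 c4445 (k8 c1644 c6869 c4444 c4345 c287 c3153 c3008 c4411 (k8 c1029 c4530 c14888 c1369 c6330 c10851 c14889 c4312 (k8 c4358 c7239 c4904 c13651 c7302 c555 c283 c7126 k0)))) (by decide +kernel)
def c14891 : PP 8 4 T 0x12001000001000000040000000140001511110000010040021010140000084020055000 := rS 0xb959c11243a7e324de75398556eb5 (k8 c4389 c4353 c287 c3008 c539 c1107 c10573 c4463 (k4 c14890 c1640 c4158 c1042 (k2 c3014 c10837 k0))) (by decide +kernel)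
def c14892 : PP 8 4 T 0x1000000040000000000000000100000000000005000040000000040010000 := rS 0xbf5397c6afd070344714098a42e1984abd2a45379844e4d48a24e2675887002a952c4a327a4e9000c584c8cc629b1082c062a0496c081a (k8 c14870 c14822 c575 c13906 c14780 c14819 c14882 c12555 (k8 c6867 c14881 c6309 c6171 c4476 c4462 c689 c3040 (k8 c688 c4366 c4488 c4444 c4345 c54 c4726 c10281 (k8 c2635 c2673 c2661 c14491 c374 c350 c617 c1107 (k8 c13923 c1695 c1775 c4316 c171 c170 c59 c531 (k8 c14887 c14758 c529 c14891 c4376 c1329 c1376 c13250 (k2 c6330 c13260 k0))))))) (by decide +kernel)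
def c14893 : PP 8 4 T 0x1000000040000000000000000100000000000004000040000000040010000 := rS 0x164c549a5d0c622a2ae249d8c9cd329b33900f41c198840c0b8880c12010d2bc629515160b604 (k8 c14822 c575 c4476 c14780 c1695 c14881 c1775 c14870 (k8 c54 c13906 c14819 c4411 c14882 c4462 c12555 c6309 (k8 c4726 c688 c689 c2635 c6867 c6171 c3008 c4366 (k8 c3040 c4488 c4445 c14892 c267 c429 c816 c1608 (k2 c1634 c7276 (k1 c7239 k0)))))) (by decide +kernel)
def c14894 : PP 8 4 T 0x80020000000000000000000120 := rS 0x1607 (k2 c2635 c2638 (k1 c4462 k0)) (by decide +kernel)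
def c14895 : PP 8 4 T 0x1000000000010000400000240014005441000020000000001080040000000 := rS 0x55309163234c4d5e95 (k8 c1695 c1775 c4443 c1880 c6171 c11588 c7750 c437 (k1 c1947 k0)) (by decide +kernel)
def c14896 : PP 8 4 T 0x1000000001000000040040040000000408180000000000020000002005000008020824 := rS 0x50990494113952cb5aa953e4b2689c46851b29cbeb0009bdfa7112985221d0391c5e20 (k8 c535 c836 c8078 c83 c1025 c14216 c617 c279 (k8 c2498 c4300 c1107 c54 c4480 c14101 c13601 c623 (k8 c2695 c7007 c351 c2276 c1413 c11480 c10323 c1658 (k8 c1753 c6029 c2111 c447 c453 c644 c5531 c4422 k0)))) (by decide +kernel)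
def c14897 : PP 8 4 T 0x1000000040000000000000000100000000000005000040000000040000800 := rS 0x44b55ba3d6314890cd568a61a645ec14daecfa878c2e608c5491dd2e3c59880f62d8880e126d189e48a6f3aa558e7150894c27f082242a6704868e66315160b604 (k8 c14822 c575 c4476 c14780 c1606 c1110 c14870 c13906 (k8 c14894 c287 c678 c14893 c670 c617 c279 c1735 (k8 c2498 c2226 c1695 c539 c1107 c13923 c599 c14881 (k8 c695 c4316 c14819 c4411 c143 c703 c535 c662 (k8 c314 c926 c7135 c315 c1783 c10368 c6781 c4482 (k8 c4410 c4409 c4449 c4448 c4450 c836 c14895 c4958 (k8 c2123 c1673 c437 c9768 c14896 c4350 c4388 c4353 (k2 c4389 c10014 (k1 c832 k0))))))))) (by decide +kernel)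
def c14898 : PP 8 4 T 0x1000000040000000000000000100000000000020000040001000048020424 := rS 0x148a74ec6552bf5eaed1e994da1560403d20d22340e0cc420604806126d2d9bcc2fd (k8 c4300 c617 c1107 c575 c695 c4316 c54 c13906 (k8 c4462 c12555 c6309 c4726 c10960 c14491 c2621 c688 (k8 c689 c608 c2692 c6867 c6171 c7008 c1310 c3023 (k4 c1243 c5323 c4366 c3040 (k2 c5558 c2126 (k1 c7884 k0)))))) (by decide +kernel)
def c14899 : PP 8 4 T 0x1000000040000000000000000100000000000004000040000000040000000 := rS 0x15414102c16c062a048103431 (k8 c14881 c14870 c14822 c13906 c14780 c14819 c575 c4476 (k4 c14893 c14898 c12681 c14897 k0)) (by decide +kernel)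
def c14900 : PP 8 4 T 0x1000000040000000400000000002000000080001501554400000000000020 := rS 0x508fcc74434186cd1e9d5ca8b0a41402c1 (k8 c6869 c54 c4310 c654 c2702 c5084 c2573 c10368 (k8 c1482 c9009 c6159 c455 c461 c684 c4473 c4392 k0)) (by decide +kernel)
def c14901 : PP 8 4 T 0x1000000001000000040000000000000000100000000000004000040000000000010000 := rS 0x30da2e5668f58c7f0a99d08a74db0630c522ae48ebf4709092231b4442e531d97d660d1f904c65554a94a2ab891a6126b368c5061a1c97406c9098a4549130968421d409f5f8353783c14070f0040809 (k8 c13906 c14822 c54 c14899 c1098 c4462 c12199 c10992 (k8 c1099 c10457 c4379 c4380 c56 c86 c6846 c614 (k8 c888 c14780 c59 c531 c10573 c14819 c12183 c358 (k8 c14870 c638 c14881 c695 c2559 c4316 c7139 c4479 (k8 c4445 c1644 c4444 c4345 c12681 c1606 c7115 c2223 (k8 c2550 c2645 c577 c1102 c2229 c170 c4411 c4470 (k8 c9135 c2203 c272 c273 c1512 c1412 c3449 c14579 (k8 c4530 c4472 c6869 c4448 c13601 c14495 c14900 c287 (k8 c6629 c12184 c11938 c1481 c4289 c461 c9009 c2115 k0))))))))) (by decide +kernel)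
def c14902 : PP 8 4 T 0x1000000000002800000001000000040005010000011001100000000000000511155510014000000000 := rS 0xc76691d974b53091a118478dd6eb5 (k8 c4389 c4353 c4386 c4388 c4472 c6159 c14590 c4539 (k4 c4426 c1750 c1372 c2067 (k2 c7284 c2113 k0))) (by decide +kernel)
def c14903 : PP 8 4 T 0x1000000000002801002001000000040100000400001001100404004180501410054510084000010020 := rS 0x4433d45436311d9a4b11a990e853bc6488c161c5892b91ea84eae50a41412290094556611badce2b5 (k8 c4389 c4387 c4353 c4386 c614 c4445 c1644 c54 (k8 c59 c13906 c4310 c654 c5084 c2573 c896 c10368 (k8 c4548 c366 c4471 c9009 c4420 c14902 c4364 c1089 (k8 c13580 c10171 c14832 c773 c1857 c2067 c1643 c4034 (k4 c4391 c291 c1520 c6667 (k1 c6175 k0)))))) (by decide +kernel)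
def c14904 : PP 8 4 T 0x1000000000002800002001000000040000000500001041100040000044400410155510084000000000 := rS 0x24a8524c35ca5453114ca3d8251558921b18 (k8 c4472 c8237 c14590 c4445 c1644 c6869 c4388 c4443 (k8 c4411 c59 c1694 c6781 c4958 c7613 c1739 c283 (k1 c14902 k0))) (by decide +kernel)
def c14905 : PP 8 4 T 0x1000000000002800002001000000040100000040001001100000001540001410150100080080000020 := rS 0x8a651950ead639cd27171e13896244db0630271a8ec525f58acd2e3f0501c02a95294556153f96842090ec44c689 (k8 c13072 c1606 c4411 c56 c13906 c86 c6846 c6629 (k8 c287 c4445 c1644 c4444 c4345 c54 c1098 c4462 (k8 c2223 c1193 c2645 c2607 c577 c59 c1102 c1099 (k8 c353 c4472 c6869 c4448 c14590 c1373 c4474 c14904 (k8 c4416 c1655 c1614 c2206 c13185 c7043 c579 c13690 (k2 c2120 c1752 k0)))))) (by decide +kernel)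
def c14906 : PP 8 4 T 0x2010002000000000000000000500000041100040004045504000405510082000040000 := rS 0x24b914274492e52b11478dd6eb5 (k8 c4389 c4353 c4386 c4388 c4411 c1694 c6781 c7613 (k4 c11613 c1739 c11468 c283 (k1 c7430 k0))) (by decide +kernel)
def c14907 : PP 8 4 T 0x1000000040000000000000000100000000000004000040000000000010000 := rS 0x21d5a65601cd28931e0908e2386a990a783bb0e3244449fcce718a51502916497472fc419bcc24d8880c261729abc4e354e8ec525f589ed660f20a5c7e632a8a94aab891a4140700c24d65a108243a1e0d1b46204 (k8 c14822 c14881 c695 c14870 c14899 c56 c13906 c86 (k8 c6846 c2559 c4316 c54 c1098 c4462 c7139 c4479 (k8 c4445 c4444 c14780 c12681 c1606 c2223 c1193 c7115 (k8 c12199 c2645 c2688 c2607 c577 c59 c1102 c1233 (k8 c1099 c353 c1775 c2229 c170 c531 c14819 c4411 (k8 c374 c614 c10992 c638 c10457 c358 c12183 c10573 (k8 c888 c4380 c14412 c14901 c4387 c14903 c6629 c13072 (k8 c14905 c4364 c1209 c1089 c7132 c13580 c14832 c4330 (k8 c773 c1643 c4467 c14906 c1655 c275 c1614 c445 (k4 c579 c861 c1965 c8008 k0))))))))))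 (by decide +kernel)
def c14908 : PP 8 4 T 0x800000001000000000000000400000000010000000080000100154601500000000020 := rS 0x3447a95728500299 (k8 c4443 c54 c654 c5084 c857 c2324 c455 c13312 k0) (by decide +kernel)
def c14909 : PP 8 4 T 0x1000000000001820001001000000000000010000000040012400001541581420155400080000000000 := rS 0x748b1916b435bb24fa486721da0c34aa65429f62b04a2ab669fe2263 (k8 c1606 c4411 c6629 c2062 c4445 c1644 c6869 c4530 (k8 c4384 c11524 c4443 c1694 c4958 c6159 c1630 c381 (k8 c380 c1502 c1793 c1796 c4421 c1702 c14583 c4492 (k2 c578 c4417 k0)))) (by decide +kernel)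
def c14910 : PP 8 4 T 0x1000000001000000040000000000000000100000000000001000040001080088020020 := rS 0x45324fa6556a1d687349c5c787f33b345e4c44a128a814daed831822a0d3eb9379c09ea18629c706116c442e53578ec525f589ed660f20a5c7e6354a94a2ab891a4140700c24d66d7e9746e352d084121d (k8 c56 c13906 c86 c6846 c1099 c2202 c11106 c4300 (k8 c695 c2559 c4316 c54 c1098 c4462 c7139 c4479 (k8 c4445 c1644 c4444 c4345 c1606 c2223 c1193 c7115 (k8 c12199 c2645 c2688 c2607 c577 c59 c1102 c1775 (k8 c2229 c170 c4411 c143 c6986 c4470 c11219 c12577 (k8 c11524 c2417 c359 c1073 c1201 c4384 c639 c14585 (k8 c4472 c6869 c4449 c4448 c1421 c13089 c2119 c2666 (k8 c711 c1992 c2062 c14908 c6629 c14909 c4416 c1655 (k8 c1614 c363 c7043 c13185 c579 c1420 c1705 c2120 (k1 c9372 k0)))))))))) (by decide +kernel)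
def c14911 : PP 8 4 T 0x2000001001000000040040000000001001100000001080000000040040080088000020 := rS 0x2089e8142920f077239113f198629d72611eb9428171d8a4be7b1f83c82a952c48d20a03806126b2e8d4b42104875768f1cadce2b5 (k8 c4389 c4387 c4353 c4348 c4388 c4390 c56 c13906 (k8 c86 c6846 c1099 c11106 c2559 c4316 c54 c1098 (k8 c4462 c7139 c4479 c4444 c4345 c7115 c12199 c2223 (k8 c2688 c577 c59 c1102 c170 c654 c5084 c2205 (k8 c14864 c7514 c11219 c12577 c4539 c4384 c4472 c1642 (k8 c1089 c7132 c2113 c13580 c1962 c2419 c2119 c639 k0)))))) (by decide +kernel)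
def c14912 : PP 8 4 T 0x1000000000040005044000140100800001542001410555550086000000000 := rS 0x116ad32a1d9ea04fb4090c35ca562263609459a89 (k8 c13072 c2064 c1644 c6869 c1606 c4411 c1694 c6781 (k8 c4958 c2113 c6159 c1663 c283 c1791 c1630 c619 (k2 c901 c645 (k1 c2120 k0)))) (by decide +kernel)
def c14913 : PP 8 4 T 0x2001001001000000040040000000000001100000000540001400140041080080000020 := rS 0xa192590cb4527ccaad439cd28938b8f09a474128d0a241192d03453029a1a9b60c615e271aa7476292faccb4210e83c82971f8280e010498d325155c48da8f1cadd6a89 (k8 c13072 c4389 c4353 c4348 c4388 c695 c4479 c4445 (k8 c1644 c4443 c1606 c13906 c54 c1098 c4462 c2223 (k8 c1193 c7115 c12199 c56 c86 c6846 c2645 c577 (k8 c59 c1102 c1233 c1099 c353 c1775 c4472 c6869 (k8 c4448 c8237 c4539 c12577 c4453 c1896 c1857 c766 (k8 c615 c2693 c936 c4484 c1643 c284 c14912 c4416 (k8 c1655 c275 c1614 c7043 c13185 c579 c1699 c2120 (k4 c1753 c644 c4599 c4422 (k1 c5588 k0))))))))) (by decide +kernel)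
def c14914 : PP 8 4 T 0x10000001000000000040044015040000000011100001145481110005150000088004020 := rS 0x3a458c8c1a5a2d0ec556b419e7da19219a4ea2a0a18a720aa54aab89424d65d (k8 c11106 c2559 c4316 c4479 c4445 c4444 c4345 c7115 (k8 c11219 c12577 c2119 c13089 c639 c2064 c4090 c4421 (k8 c1622 c1791 c452 c6601 c12768 c2005 c645 c4426 (k4 c1710 c2120 c4494 c578 (k1 c4417 k0))))) (by decide +kernel)
def c14915 : PP 8 4 T 0x1001000000040040005040000000101100001040001000201140080088000020 := rS 0x288a665ab1167543c58e66549a813f432412c8ea31208e1a605ca5622271a97cf60f4b98d4a5155c48d309449acb4210ec65863f3b9e02e4d0501c0209 (k8 c13906 c54 c1098 c4462 c2341 c170 c7132 c1089 (k8 c2223 c1209 c4364 c56 c86 c6846 c2559 c13072 (k8 c4316 c7139 c4479 c4445 c1644 c4444 c1606 c1193 (k8 c12199 c2688 c577 c1099 c353 c4411 c1694 c6781 (k8 c14914 c4326 c766 c615 c936 c1643 c9597 c4034 (k8 c4421 c1663 c283 c7994 c619 c13701 c4487 c1965 (k4 c4417 c4632 c2120 c2027 (k2 c900 c4599 (k1 c4453 k0))))))))) (by decide +kernel)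
def c14916 : PP 8 4 T 0x1000000040000000000000000100000000000004000040000000000000000 := rS 0x10ead32b00e694498f102853c1dd871922224ceb538adc72bb8a2446ec77e8415712319a4aa3f359ec145a4e81c421d0f1b55e3129c242e1a00810122a (k8 c14780 c13906 c14822 c54 c14870 c170 c4316 c2229 (k8 c14881 c1775 c695 c14899 c56 c86 c1098 c1233 (k8 c6846 c4462 c2688 c2559 c2223 c12681 c7139 c1606 (k8 c4479 c4445 c14907 c4300 c2226 c2202 c12755 c14910 (k8 c4390 c4348 c4353 c4387 c4389 c14911 c13072 c14913 (k8 c4364 c1209 c1089 c7132 c13580 c1962 c14915 c1655 (k4 c275 c1614 c445 c579 (k2 c861 c1965 (k1 c8008 k0))))))))) (by decide +kernel)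
def c14917 : PP 8 4 T 0x1000102001002000040100000000000011140000000401084000000001001024411800 := rS 0x3aa586d175e3157e9b569d913120c424fa6f07a0d03110182632272e97cd25536a4c76ab288cc842a (k8 c14780 c14916 c2295 c4405 c5962 c4403 c1029 c5814 (k8 c12681 c2723 c577 c2721 c2877 c4446 c13906 c14819 (k8 c4411 c4380 c4306 c4376 c4378 c4379 c14527 c4465 (k8 c4479 c7474 c309 c8622 c1888 c1093 c1096 c12641 (k4 c7641 c2015 c4487 c10194 (k1 c929 k0)))))) (by decide +kernel)
def c14918 : PP 8 4 T 0x1000000001000000040000000000000010100000000084084000000001001020510802 := rS 0x1a28943b14e8194b1dd52bd47ae50abb52add4623269b86d0c539fc1cfd49944760d72325170588974d65f34954da334e86d32218c90426656194c846148ac58e2a (k8 c14780 c290 c2605 c12744 c13428 c14916 c292 c2054 (k8 c2539 c1638 c91 c4446 c9668 c1927 c4149 c14354 (k8 c2295 c5814 c12681 c2723 c577 c581 c2721 c4411 (k8 c4310 c720 c632 c4464 c14163 c4403 c4405 c1029 (k8 c14917 c4463 c7414 c13293 c4477 c304 c305 c2248 (k8 c1327 c8633 c5279 c4385 c4847 c3475 c1471 c1345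 (k8 c2014 c6029 c10356 c10674 c309 c929 c1252 c13785 (k2 c597 c341 (k1 c2109 k0))))))))) (by decide +kernel)
def c14919 : PP 8 4 T 0x1000202001000000040000000000000000100000000000084000001001001020110842 := rS 0x9e111181a351b2f17e7689062126f07a0d0203049044e5d3597cd2172a9b4369910c64664209994726148ac58e2a (k8 c14780 c290 c2605 c12744 c13428 c1139 c2539 c1638 (k8 c14916 c2295 c4446 c9668 c1927 c4149 c5814 c12681 (k8 c1951 c2723 c577 c581 c2721 c2877 c91 c13906 (k8 c14819 c4380 c4306 c4376 c4378 c14527 c4465 c4479 (k8 c309 c1093 c12641 c2015 c1039 c1408 c10891 c1643 (k2 c1642 c3386 k0)))))) (by decide +kernel)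
def c14920 : PP 8 4 T 0x1000001001000000040000040000000001100000000501500000080005005024414804 := rS 0xbe5e9da8a340c205066f84824831936a96184b (k8 c1954 c4477 c4385 c5814 c4446 c91 c13906 c14527 (k8 c10992 c4570 c12056 c4465 c10457 c14412 c309 c1039 (k2 c4493 c1093 k0))) (by decide +kernel)
def c14921 : PP 8 4 T 0x200080000080000000000 := rS 0x1542e (k2 c1645 c1644 (k1 c3858 k0)) (by decide +kernel)
def c14922 : PP 8 4 T 0x1000000040000000000000010100000000080084000000000000020410010 := rS 0x12c55263b724148a630a95522310da6443192104cca0a0000c122a (k8 c14780 c13906 c14819 c4461 c10867 c2539 c1638 c14916 (k8 c4446 c9668 c1927 c4149 c14444 c12744 c12681 c286 (k8 c1607 c175 c4310 c4464 c4403 c1029 c14552 c14202 (k1 c14918 k0)))) (by decide +kernel)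
def c14923 : PP 8 4 T 0x1000200001000000040000000000000000100000000000084000001000000020010050 := rS 0x8c9a0e5dc31faa7308944e5d2fac5224f17aa54b12349acda33259d83109689942a511886d32210000c54098c85c1442 (k8 c14916 c10867 c1951 c4446 c13906 c14780 c14819 c4461 (k8 c9668 c1927 c4149 c14444 c14921 c286 c2539 c340 (k8 c9383 c4465 c309 c3797 c2295 c5814 c581 c2723 (k8 c4479 c4444 c4345 c1870 c2253 c12744 c2605 c577 (k8 c2721 c2877 c14202 c13428 c10653 c14919 c4477 c4847 (k4 c14920 c2248 c1327 c2111 k0)))))) (by decide +kernel)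
def c14924 : PP 8 4 T 0x1000000040000000400000010100000000000084000000000000020010050 := rS 0x923a3f1926f0683ce2378a0f573043fa5ccf11318842e425884cca0a0000c122a (k8 c14780 c13906 c14819 c4461 c10867 c2539 c1638 c2605 (k8 c14916 c1951 c9668 c1607 c4411 c14922 c928 c6629 (k8 c4191 c6781 c11368 c14923 c4386 c4387 c304 c568 (k4 c10992 c10573 c4463 c9531 (k2 c7058 c1656 k0))))) (by decide +kernel)
def c14925 : PP 8 4 T 0x100001000000040004004400014015520040000002080444000000000000000000 := rS 0x9b456620990a25ca5ceb0d (k8 c4326 c597 c929 c5280 c5931 c937 c636 c637 (k2 c4452 c2062 (k1 c4474 k0))) (by decide +kernel)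
def c14926 : PP 8 4 T 0x100000000000000020000000000001010000000000000000000080000000100000000 := rS 0x259883c (k4 c340 c341 c11368 c1252 k0) (by decide +kernel)
def c14927 : PP 8 4 T 0x1000000040000000000000000100000000000004000000000000040000010 := rS 0x49a7c7647722220ad143c21164b0cadd76bd50a955314478dc9e2542888c07f0830ca6134e9b4629132ac4aa173486c4e0a03accb4990e16442000a8a62203049063233289092a2a (k8 c14780 c1695 c14916 c14921 c2295 c4446 c91 c13906 (k8 c14819 c4411 c59 c286 c4461 c9668 c487 c4466 (k8 c1927 c4476 c4991 c10598 c10867 c2877 c4149 c2723 (k8 c1951 c12681 c2605 c2539 c12744 c14444 c5814 c14354 (k8 c1638 c292 c2054 c14924 c2651 c606 c607 c2691 (k8 c278 c446 c319 c2724 c12262 c976 c1302 c770 (k8 c2015 c4390 c4353 c14433 c1954 c5853 c4465 c13785 (k8 c14926 c9383 c2109 c4464 c4404 c4403 c11480 c1029 (k1 c14925 k0))))))))) (by decide +kernel)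
def c14928 : PP 8 4 T 0x1000000040000000000000000014000001001001500000000001204555024 := rS 0x68a2c6019 (k4 c2257 c14602 c13509 c2266 (k1 c2109 k0)) (by decide +kernel)
def c14929 : PP 8 4 T 0x1000000040000010000000000000000144001061500082404001000150824 := rS 0xa9268c434a52588c6a7127a9cbe4864ac44e6d078342e2f10104fe873ea2608b3 (k8 c662 c10368 c4314 c4409 c4410 c4313 c91 c535 (k8 c837 c573 c2495 c12199 c4993 c350 c622 c10573 (k8 c11938 c14382 c4558 c2298 c536 c9361 c833 c1955 (k4 c10933 c14928 c6268 c374 (k2 c14588 c2111 k0))))) (by decide +kernel)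
def c14930 : PP 8 4 T 0x1000000000000000020000000001100000100000000100020040010104000000020824 := rS 0x2692c46365389d605f009bcc2910e81c4a2f7e9c46220 (k8 c535 c2266 c2498 c4300 c837 c313 c83 c1025 (k8 c14216 c617 c1107 c54 c14101 c7962 c351 c4532 (k4 c623 c7007 c1414 c2278 (k1 c2111 k0)))) (by decide +kernel)
def c14931 : PP 8 4 T 0x10000200001000000000004010000000000100000540000021540110104000004160824 := rS 0x19f435f20d90b15dc514a7954c48d6cb608c696d040a14d28b3d9bc1ab30b8645e20439f51271 (k8 c2498 c4314 c4409 c4410 c535 c837 c2257 c573 (k8 c662 c2495 c1107 c702 c13509 c13396 c6224 c7000 (k8 c2109 c4426 c2266 c1711 c1751 c6097 c4469 c14588 (k8 c540 c4444 c14930 c4390 c4350 c9531 c11339 c7040 (k2 c4422 c1793 (k1 c9033 k0)))))) (by decide +kernel)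
def c14932 : PP 8 4 T 0x1000000000000000040000000001000000100000000000020040010105000008020824 := rS 0x2692d4e231b09d605f009bd221d03894e2a5891b45e20 (k8 c535 c837 c4993 c9768 c4444 c2498 c313 c83 (k8 c1025 c14216 c1107 c54 c14101 c7962 c351 c623 (k4 c7007 c4558 c1414 c2276 (k1 c2111 k0)))) (by decide +kernel)
def c14933 : PP 8 4 T 0x1000000040000000000000000100000000000004000000000000040000800 := rS 0x14e4d13a153e2325b216e8f58aee28a554a0e2431848689efd082e4eec38245ce63b17a5c32531c8f04a630eacc4055038b62203209163233289082629369bcc2754a854ce582d810122a (k8 c14780 c13906 c14927 c575 c4476 c14894 c287 c1695 (k8 c539 c617 c1107 c4993 c59 c531 c14916 c14921 (k8 c2295 c4446 c175 c91 c14819 c4411 c143 c83 (k8 c12681 c535 c662 c1025 c1606 c313 c314 c2323 (k8 c2263 c2257 c926 c837 c1641 c1110 c4416 c10368 (k8 c2054 c1886 c6781 c14929 c4300 c2296 c14931 c4316 (k8 c6268 c9768 c639 c14588 c4444 c14932 c4390 c4350 (k8 c4388 c4353 c9531 c1954 c832 c1665 c11877 c355 (k2 c375 c5558 (k1 c2111 k0)))))))))) (by decide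 +kernel)
def c14934 : PP 8 4 T 0x10000000000000000044000000440001500000000080005440000 := rS 0x11015 (k2 c287 c2109 (k1 c13072 k0)) (by decide +kernel)
def c14935 : PP 8 4 T 0x10000000010000000400000000000000001000000000000200000800050000640100a4 := rS 0x532a57aa54d0b8be0f369852271359a50285840642e79 (k8 c2485 c1950 c268 c4465 c4321 c4439 c13396 c6097 (k8 c2483 c14491 c617 c4993 c14107 c14101 c14492 c1952 (k4 c3857 c3916 c2731 c14495 (k1 c4500 k0)))) (by decide +kernel)
def c14936 : PP 8 4 T 0x1000000040000000000000000100000000000004000000000000040010000 := rS 0x9f50c34445e5183152832ebf49e0f5eadc6e8f5dc507e6f309dd227134a0610c71d91d72b58b25d26622a21cd6334594c323168a7442950b9e40c1b3384c5251211cc380b0080c12582d812222a (k8 c14780 c4411 c14927 c575 c4476 c13906 c14819 c54 (k8 c14933 c4726 c3008 c14916 c14921 c59 c531 c14894 (k8 c334 c4462 c2485 c1950 c1695 c12555 c14761 c14926 (k8 c14397 c268 c292 c13945 c2295 c6097 c13785 c14934 (k8 c267 c1608 c816 c4487 c4419 c6781 c3548 c1600 (k8 c2194 c4465 c4439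 c13396 c2483 c14491 c1887 c617 (k8 c1107 c2225 c14935 c4390 c4388 c4386 c4353 c4354 (k8 c14840 c338 c8859 c12183 c4570 c14588 c4463 c818 (k4 c12981 c529 c4382 c770 (k2 c1299 c5931 k0)))))))))) (by decide +kernel)
def c14937 : PP 8 4 T 0x1000000040000000000000000100000000000004000000000000040000000 := rS 0x114580dc20b58b2e526971d988a88735a2ca619688c53a171c9ccf2910d87042060599cb05b09804089514c44060919944842a (k8 c14780 c14916 c14921 c2295 c13906 c14819 c4411 c59 (k8 c1695 c14927 c54 c531 c575 c4476 c14894 c14933 (k8 c4462 c12555 c4726 c334 c14491 c2485 c3008 c3153 (k8 c1950 c14761 c14397 c14926 c268 c292 c13945 c6097 (k8 c13785 c14934 c267 c1600 c816 c1608 c6781 c4487 (k4 c4419 c14936 c2268 c608 (k2 c12689 c4350 k0))))))) (by decide +kernel)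
def c14938 : PP 8 4 T 0x1000000040000000000000000100000000000004000000000000000000010 := rS 0x92b964b952a3d07b1ca4c426304aa893eacd7d0441a056ab71bac50e853da2c32138a1d4e26d3284472733c9bcb05b031a416000a98e2203049443a1b27b4476294e9152e3f1512c6b130baf586774d0c03c42 (k8 c14916 c14937 c276 c277 c3799 c3970 c3920 c3872 (k8 c4441 c1099 c1955 c14780 c2225 c1193 c175 c1232 (k8 c59 c1102 c2210 c2209 c2208 c56 c14921 c13906 (k8 c14819 c4411 c1607 c286 c4461 c270 c1879 c4462 (k8 c12637 c1097 c9199 c500 c3100 c8383 c609 c8511 (k8 c6017 c2431 c2432 c14462 c1638 c9671 c13524 c4055 (k8 c5976 c10041 c4350 c4386 c4353 c4389 c6395 c8514 (k8 c8579 c9035 c4312 c4409 c4314 c4406 c9669 c8901 (k8 c2123 c2109 c2228 c244 c1782 c3728 c4290 c10573 (k2 c6781 c12434 (k1 c11733 k0))))))))))) (by decide +kernel)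
def c14939 : PP 8 4 T 0x11000000000000000044000000400001102000000080005410020 := rS 0x67298542629 (k4 c59 c531 c366 c373 (k2 c654 c14934 k0)) (by decide +kernel)
def c14940 : PP 8 4 T 0x1000000050000005001100000000000000500501144004152480085415024 := rS 0x5c8f5ca143fa8492a36391d9a4c3ec3448a664a0df861888ec26298422d5e8536c4d0e81 (k8 c6395 c13785 c4441 c694 c10110 c1774 c11588 c4479 (k8 c59 c531 c1102 c4411 c614 c4463 c8514 c10573 (k8 c14495 c14422 c9576 c4379 c2108 c3978 c1372 c2228 (k8 c1463 c14939 c1734 c5121 c2107 c4284 c2205 c7514 (k1 c2113 k0))))) (by decide +kernel)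
def c14941 : PP 8 4 T 0x1000000010000000000000000000810000080000002000000000000404020 := rS 0x29a219ac972c140343 (k8 c4421 c54 c4310 c5084 c2611 c7980 c8144 c373 (k1 c4742 k0)) (by decide +kernel)
def c14942 : PP 8 4 T 0x2001001000000010040015001000000040100000501501100005550080005404020 := rS 0xcd29224ce7d2411d3e828604c5287 (k8 c13785 c59 c531 c4477 c12981 c4384 c1642 c2113 (k4 c1622 c14941 c13072 c14934 (k2 c2064 c373 k0))) (by decide +kernel)
def c14943 : PP 8 4 T 0x2001001000000010040005001000010140100000500101100004140080084400020 := rS 0x1982a53302e47b111a8ed2e131497c1e0a03a1c325a048744201 (k8 c54 c86 c56 c13906 c6846 c5066 c13785 c527 (k8 c4462 c12199 c577 c59 c531 c1193 c1102 c1099 (k8 c4411 c275 c6781 c14942 c11262 c14864 c14934 c654 k0))) (by decide +kernel)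
def c14944 : PP 8 4 T 0x1000000040000000000000000100000000000004000000000000000000000 := rS 0x4414cce731e45d28c77e841525d5aadc6e3947a050e0f2aa2e10698a1ac320d5997c146d2d01c0204579dd86bd5285e264b4c8bd2e3b68a689e300d8d4421d0f1447e421480c5409 (k8 c13906 c14780 c14819 c59 c14916 c2225 c14921 c14937 (k8 c56 c86 c1099 c2208 c276 c2209 c277 c2210 (k8 c1102 c1193 c1953 c1927 c1955 c4441 c3872 c1971 (k8 c3920 c3970 c3799 c1774 c14938 c54 c527 c6846 (k8 c694 c4462 c577 c2645 c2550 c5066 c581 c14572 (k8 c845 c4479 c11588 c12681 c12199 c13785 c6395 c4388 (k8 c4348 c4386 c4353 c4389 c840 c866 c14940 c4300 (k8 c2226 c14943 c4418 c1694 c3561 c857 c333 c7682 (k1 c13072 k0))))))))) (by decide +kernel)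
def c14945 : PP 8 4 T 0x1800200001000000080000000140000401545140001514080000000005000004000012 := rS 0xcd7ed1504a7861844a091397c1a5d5488d12ab (k8 c4445 c4314 c4372 c6029 c752 c4371 c488 c4278 (k8 c13906 c14202 c13428 c4486 c13601 c5947 c13089 c8052 (k2 c2064 c8638 k0))) (by decide +kernel)
def c14946 : PP 8 4 T 0x1000000000000000000000000100000000000004000040000000044000010 := rS 0x18ca366c341ea61bc5196d0a5ab0a2ab89465868933a64a6af4e9d4fe7d43a5e083148a15028b36b96224b0691d4249318552ab34788c66692d164aa6b5884ccabf228d5a49b0c82838210000c5409 (k8 c13906 c14780 c14819 c4461 c9668 c4466 c10867 c308 (k8 c765 c14944 c4373 c13923 c6330 c2539 c1638 c2605 (k8 c2540 c12681 c487 c4476 c2723 c2958 c4372 c760 (k8 c4991 c1695 c286 c1607 c4281 c1734 c4374 c4371 (k8 c4375 c4411 c13532 c5889 c5853 c6395 c6224 c12759 (k8 c14782 c4464 c12611 c7313 c7516 c7517 c11423 c968 (k8 c1775 c292 c6171 c4310 c4314 c4958 c14023 c4488 (k8 c4445 c1644 c2120 c4458 c4475 c1750 c14945 c4386 (k4 c13260 c304 c4330 c2067 (k2 c941 c12594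 (k1 c461 k0))))))))))) (by decide +kernel)
def c14947 : PP 8 4 T 0x1002000080011000440000510000000000000080000000001000020000000 := rS 0x2ad2686288ec6669 (k8 c2723 c2958 c4403 c4405 c6832 c1029 c5962 c14564 k0) (by decide +kernel)
def c14948 : PP 8 4 T 0x21001000000000000080000400001101501100450100000004000000000080041000110 := rS 0x1c5fabc6429c1e110a9751e2334968b2555884cca0a0e0840003 (k8 c14819 c4461 c9668 c4466 c10867 c2539 c1638 c2605 (k8 c12681 c487 c4476 c2723 c4372 c760 c752 c286 (k8 c4276 c14820 c13601 c11438 c9059 c4305 c586 c6133 k0))) (by decide +kernel)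
def c14949 : PP 8 4 T 0x1000000000000000000000000100000000000004000040000000040000010 := rS 0xcd65a98e2bd5ba2d9f1456ad572c3339d4fe7d43a5e089172b058b1889a95529957a75066c189e6121a0ca6d7ebb8892c1a3523a8492154a915668f11b48665a2c95562133282838210000c122a (k8 c14780 c13906 c14819 c4461 c9668 c4466 c10867 c2539 (k8 c1638 c2605 c12681 c487 c4476 c2958 c14944 c4372 (k8 c760 c4991 c13923 c1695 c286 c4281 c1734 c4374 (k8 c4373 c4371 c4375 c4411 c6870 c6330 c765 c308 (k8 c14946 c4316 c2581 c294 c686 c2620 c969 c1775 (k8 c6171 c6029 c5936 c4342 c4149 c4370 c4450 c14947 (k8 c12759 c4464 c12611 c7313 c7516 c7517 c11423 c4310 (k8 c4958 c6781 c7420 c944 c14948 c5286 c5443 c4353 (k4 c4354 c4387 c10851 c14025 (k2 c2067 c2129 k0)))))))))) (by decide +kernel)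
def c14950 : PP 8 4 T 0x1000000001000000000000000000000000100000000080004000000000000040000010 := rS 0x14e2548985469b179d89ead0c2198ee48289c9a1534955621332aa446a51886cf60a210ccb4590e08400031502496d2 (k8 c14944 c4375 c13906 c14780 c14819 c4461 c9668 c4466 (k8 c487 c4476 c2958 c14949 c10867 c2686 c335 c14444 (k8 c5936 c4372 c6029 c2539 c1638 c2605 c12681 c2723 (k8 c286 c4282 c4278 c4310 c4464 c4289 c6832 c13532 (k8 c1904 c2253 c309 c1870 c1888 c7587 c7403 c888 (k2 c14202 c13601 (k1 c4839 k0))))))) (by decide +kernel)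
def c14951 : PP 8 4 T 0x1000000090000000000000000000000000554001100000005080004000000 := rS 0x1594a45b950f044484ca6ab (k8 c5962 c292 c1638 c13072 c4904 c4410 c6832 c8133 (k2 c4475 c8058 (k1 c4458 k0))) (by decide +kernel)
def c14952 : PP 8 4 T 0x1000000000000000000000000100000000000004000000000000040000010 := rS 0x7d3fb24e87351a585ead4993c1e184331c77175a9c46ee48a414cca554b44629d0d9448242099ecca6b2a9a4660a5996838594ac4496112483446476918c2a210000c5409 (k8 c13906 c14780 c14819 c4461 c9668 c286 c1607 c14944 (k8 c4374 c4372 c4371 c4281 c4276 c4375 c4411 c1695 (k8 c487 c4466 c4476 c4991 c10867 c2958 c2723 c12681 (k8 c2540 c2539 c2686 c1638 c14949 c91 c14921 c335 (k8 c14354 c14444 c14926 c6029 c5936 c14951 c4310 c14950 (k8 c4464 c4386 c4387 c4389 c4963 c4403 c4289 c6832 (k8 c13532 c304 c338 c1029 c1904 c1870 c4487 c7587 (k4 c1083 c929 c633 c10049 (k2 c1690 c2107 k0))))))))) (by decide +kernel)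
def c14953 : PP 8 4 T 0x5000000000000000080200004400000000000000100000000000000000000000000080 := rS 0xb8582d686fd (k4 c4305 c4422 c1704 c5772 (k2 c4492 c1203 k0)) (by decide +kernel)
def c14954 : PP 8 4 T 0x5000000001001000080041004410014040044001544051501000140400000004140180 := rS 0x2c1700e51324fe0d (k8 c4371 c7517 c14953 c11825 c11768 c14660 c10635 c1204 k0) (by decide +kernel)
def c14955 : PP 8 4 T 0x1000000000000000000000000100000000000004000040002000000000010 := rS 0x4f7eaf46f1459a7ccead5bb1e089449954a7171e30536bf509242a212e88c3a3b37a5ce633309e4ea13328d45e5114904ee8b4297c1a87319ecd29d89b94326d2d800062a0d914b006058243cd2 (k8 c14944 c14952 c13906 c270 c4462 c1097 c14083 c14662 (k8 c14780 c14819 c4461 c12637 c6017 c9671 c13532 c4441 (k8 c3247 c1879 c4055 c1607 c10041 c4371 c488 c10110 (k8 c13524 c3101 c5762 c59 c1917 c61 c4373 c8511 (k8 c1638 c2432 c2433 c617 c432 c3100 c3204 c9199 (k8 c1102 c56 c4372 c752 c9668 c286 c4281 c1734 (k8 c6330 c1966 c6869 c14783 c4416 c332 c9052 c1655 (k8 c275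 c8472 c2206 c1742 c2046 c657 c1699 c4312 (k4 c14954 c4386 c4354 c13754 (k2 c13302 c6022 k0)))))))))) (by decide +kernel)
def c14956 : PP 8 4 T 0x1000000000000000000000000100000000000004000000002000000000010 := rS 0x2fe2ab6a2ae56abb860dd8ecb1eb11fa526095512b3339ad87040bb45344f5ec648481729ed0e8545864d2518992c724d2398cbe0d2e88c76291f86c8a774ea5ce66d2d984f2752c04cca06058786ad20000c122a (k8 c14780 c13906 c14819 c4461 c14944 c4373 c14952 c270 (k8 c4462 c8511 c1638 c1097 c2432 c2433 c617 c12637 (k8 c6017 c3100 c3204 c3247 c3101 c14083 c14662 c11031 (k8 c59 c1102 c4372 c752 c4371 c488 c1607 c4374 (k8 c4282 c4280 c4375 c4441 c1917 c1879 c9671 c13524 (k8 c10110 c10041 c4055 c13532 c6395 c14955 c4446 c2014 (k8 c2209 c277 c2210 c1950 c8579 c3970 c1968 c4310 (k8 c4312 c4314 c4406 c9669 c14934 c8510 c2123 c2207 (k8 c2022 c7325 c8300 c4477 c7032 c1789 c7514 c13089 (k4 c12162 c4353 c1247 c4493 k0)))))))))) (by decide +kernel)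
def c14957 : PP 8 4 T 0x100000001000000080000000000000040000000400480041000140000000084140002 := rS 0x4c9061218722560a6d (k8 c6017 c4310 c856 c4464 c13532 c4436 c1872 c8246 (k1 c14813 k0)) (by decide +kernel)
def c14958 : PP 8 4 T 0x1000000001001000000000000000000000100000000000005000000000000000000010 := rS 0x160b807289929f5bb1d29171e28492632f834ba230e9bcc275299fd667d8219cd6431884d2e770d9608a5b0ac44ca06058786ad20000c122a (k8 c14780 c13906 c14819 c4461 c14944 c4373 c14952 c270 (k8 c4462 c8511 c4411 c286 c12637 c14083 c1097 c14662 (k8 c3101 c3204 c1638 c14956 c276 c493 c14957 c4904 (k8 c4409 c4312 c4313 c292 c2432 c617 c9199 c56 (k8 c4372 c752 c4371 c488 c1607 c4281 c1734 c14796 (k8 c4416 c275 c2206 c1742 c1699 c14953 c2118 c11768 (k2 c859 c10635 (k1 c1204 k0)))))))) (by decide +kernel)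
def c14959 : PP 8 4 T 0x1000000001000000000000000000000000100000000000005000000000000000000010 := rS 0x10a4e5eac06e8320c25fa1872134be5d119c41a7b8219cd6431884d2e770d9608a5b0ac44ca06058786ad20000c122a (k8 c14780 c13906 c14819 c4461 c14944 c4373 c14952 c270 (k8 c4462 c8511 c4411 c286 c12637 c14083 c1097 c14662 (k8 c3101 c3204 c1638 c14956 c276 c493 c14957 c4904 (k8 c14312 c4371 c496 c4372 c752 c488 c4282 c14958 (k8 c13532 c4961 c4436 c1872 c1998 c8300 c5772 c7175 (k2 c6022 c714 (k1 c259 k0))))))) (by decide +kernel)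
def c14960 : PP 8 4 T 0x2000200001000000080000000000000000010000000001000000100001080081000112 := rS 0x2aa185166bf68a94410f1028b729a496632f834ba1d379dcda5b3c9d426655794cd6a91988d7e353d90c36580302cfe87 (k8 c4410 c4313 c270 c4462 c1097 c14662 c276 c14312 (k8 c4373 c6330 c4372 c432 c6029 c493 c292 c1775 (k8 c8511 c1638 c2432 c2433 c12637 c6017 c3101 c9199 (k8 c56 c752 c4371 c488 c1607 c4375 c757 c13532 (k8 c5853 c6395 c14796 c7055 c275 c4452 c4306 c2064 (k4 c3627 c4477 c8638 c5962 k0)))))) (by decide +kernel)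
def c14961 : PP 8 4 T 0x1000000000000000000000000100000000000005000000000000000000010 := rS 0x7ea99c89b4cc6212185ea3e28b382224cf110a97c1a911c9dd3a97399b4b6613c9d42665299ac0003152a446a519aec96bf1ab48f6431886c8a580302c121e (k8 c14952 c13906 c270 c4462 c1097 c14083 c14662 c14956 (k8 c276 c14312 c14944 c4373 c6330 c4375 c6870 c432 (k8 c5936 c4372 c6029 c14780 c14819 c4461 c493 c292 (k8 c8511 c1638 c2432 c2433 c617 c12637 c6017 c3100 (k8 c3204 c3247 c3101 c4280 c1153 c4371 c488 c286 (k8 c4411 c14957 c13072 c4904 c4312 c14959 c4388 c4354 (k8 c14960 c4436 c4540 c8246 c4448 c9495 c2126 c4961 (k1 c13293 k0)))))))) (by decide +kernel)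
def c14962 : PP 8 4 T 0x1000000000000000000000000100000000000004000000000000000000010 := rS 0x4c9061218721987b052a1ac863136994ee1b2c1147e5b0302c3a1e000545a03150246ad2 (k8 c14944 c4373 c13906 c14780 c14819 c143 c286 c4461 (k8 c14952 c56 c270 c4462 c12637 c11031 c14083 c1097 (k8 c14662 c3101 c8511 c6017 c14956 c276 c493 c14961 (k8 c4406 c12671 c4191 c8324 c13532 c4436 c1872 c8246 (k1 c14712 k0))))) (by decide +kernel)
def c14963 : PP 8 4 T 0x100000001000000080000000000000010000000540040005000144002010025540404 := rS 0x8c30c82b31ea26089745b950e7b109e58251 (k8 c1917 c6869 c14518 c316 c14312 c13785 c13532 c5853 (k8 c12610 c4464 c7030 c11368 c7239 c14781 c9009 c4472 (k1 c9062 k0))) (by decide +kernel)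
def c14964 : PP 8 4 T 0x100000001002000010000000000000150000000000000000000150000000100000000 := rS 0x1863d (k2 c11368 c4958 (k1 c14640 k0)) (by decide +kernel)
def c14965 : PP 8 4 T 0x4000000000002000090815444000000000000000000000000040150000000000000000 := rS 0x2f16b43 (k4 c4425 c1708 c5761 c8143 k0) (by decide +kernel)
def c14966 : PP 8 4 T 0x80000000000000000000000002000080400000000000000000000000000000040000000000000000000 := rS 0xcf (k2 c4430 c6615 k0) (by decide +kernel)
def c14967 : PP 8 4 T 0x1100001000000090010000000000110010004000240021040150002080000040000 := rS 0x66b3d5486a5b2d86b25bc5d2cad63990a6e4889249a470aaec96bf1ac4c42c1288a55e63 (k8 c1606 c828 c59 c1917 c6869 c316 c4441 c4373 (k8 c6330 c4375 c6870 c287 c4374 c4282 c4281 c4411 (k8 c4464 c9747 c4904 c4289 c2046 c14964 c4360 c3176 (k8 c1195 c8801 c14965 c14966 c7658 c4491 c3592 c3795 (k1 c2116 k0))))) (by decide +kernel)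
def c14968 : PP 8 4 T 0x1401000000001000080400000000001500100050000200005000000000080060100424 := rS 0x215fac84883c720d1a91c2629308452a772c16d1e23 (k8 c4372 c760 c575 c4476 c3009 c1695 c4276 c614 (k8 c59 c531 c4374 c4373 c4371 c4280 c14107 c12704 (k4 c11438 c4305 c717 c11381 k0))) (by decide +kernel)
def c14969 : PP 8 4 T 0x1000000000000000000000000100000000000005000040002000044000000 := rS 0x1f8b18a32e965245395863d4b9f50eb33fc11328344b1630413593da26884860e2770302c38173ca6c43138880c9ad20084c523f369bcea950a99ce66315274f64504960b604 (k8 c14962 c575 c4476 c13906 c13923 c14312 c1234 c14780 (k8 c1606 c1110 c14894 c287 c1695 c539 c1107 c4993 (k8 c288 c59 c531 c54 c14944 c4282 c14819 c4411 (k8 c4441 c316 c1967 c14518 c1911 c6846 c535 c1025 (k8 c3009 c2483 c14963 c4436 c269 c2198 c2197 c1919 (k8 c1872 c4540 c7523 c2039 c1998 c8246 c14967 c4313 (k8 c4312 c4410 c4409 c1195 c11368 c4958 c14964 c14160 (k4 c9495 c4427 c2022 c14968 (k2 c4350 c7644 (k1 c8253 k0)))))))))) (by decide +kernel)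
def c14970 : PP 8 4 T 0x1000000000001000080020440001101500140000000000005000000000080060100024 := rS 0x2f19ea7642441e391a84c526108a54fa473f8351e2305884b05b (k8 c575 c4476 c85 c535 c4372 c760 c4371 c7517 (k8 c4374 c7516 c1695 c4276 c614 c59 c531 c4373 (k8 c4280 c14107 c12704 c11438 c13601 c1792 c2126 c1176 k0))) (by decide +kernel)
def c14971 : PP 8 4 T 0x10000000000001000080000440401100100154104400000005000060000080060100024 := rS 0x412c628c4609e4e23d4d818426f3a9ccc69d2c16cfa4761a5d2b11 (k8 c4411 c1695 c14825 c4958 c4374 c7516 c575 c4476 (k8 c1234 c1606 c1110 c539 c1107 c85 c1025 c765 (k8 c11368 c2483 c2485 c1853 c2123 c14970 c4350 c10474 (k1 c11339 k0)))) (by decide +kernel)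
def c14972 : PP 8 4 T 0x1000000000000000000000000100000000000005000040000000044000000 := rS 0x141d2046586b343a5d12813bb954aa94ca2ca619189ed7ebb8880c96231ab4802453aa542a67048cce66315160b604 (k8 c14962 c575 c4476 c14780 c1606 c1110 c430 c13906 (k8 c14894 c287 c1695 c539 c13923 c54 c14944 c4373 (k8 c4372 c4375 c14819 c4411 c6870 c6330 c14312 c14969 (k8 c268 c292 c13945 c6171 c6029 c5936 c13532 c6033 (k8 c6395 c7314 c14825 c7313 c7239 c4958 c14042 c4472 (k2 c14971 c4726 (k1 c14862 k0))))))) (by decide +kernel)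
def c14973 : PP 8 4 T 0x1000000000000000000000000010000000000005000080002080045100020 := rS 0xd1298813a1700960b68b098a50e51 (k8 c14921 c13785 c59 c531 c5853 c575 c4476 c54 (k4 c1911 c14761 c14397 c2263 (k2 c2266 c2109 k0))) (by decide +kernel)
def c14974 : PP 8 4 T 0x100000000000000000000000000000050054000000000021500080000000025140020 := rS 0x2ed13c8f40c21 (k4 c85 c1025 c11368 c2485 (k2 c340 c1950 (k1 c2109 k0))) (by decide +kernel)
def c14975 : PP 8 4 T 0x1000000000000000000000000100000000000005000000000000045000000 := rS 0x1b4509cb10b83c782f0501c401d298c512b98225d0e8b72c44064b139341a230084c526108b492a450a99cb05b048cc08418c944842a (k8 c14780 c14972 c14921 c4446 c91 c14962 c430 c13906 (k8 c575 c4476 c14894 c287 c13923 c1695 c14944 c4276 (k8 c614 c59 c531 c54 c4372 c4371 c4282 c4278 (k8 c4375 c14819 c4411 c13532 c5853 c13785 c14825 c4464 (k8 c6781 c4314 c14973 c292 c14974 c4466 c527 c4726 (k8 c6988 c314 c2255 c6610 c622 c14506 c11808 c338 (k1 c4386 k0))))))) (by decide +kernel)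
def c14976 : PP 8 4 T 0x1000000000000000000000000100000000000005000000000000044000000 := rS 0x9d108c02e1821160b604 (k8 c14962 c575 c4476 c14972 c14975 c35 c268 c2257 (k2 c14761 c14397 k0)) (by decide +kernel)
def c14977 : PP 8 4 T 0x1000000000000000000000000100000000000004000040000000045000000 := rS 0x5ba8dfa82278953f0c2fa442ea707c4d10ab184555a87729a4524d509bc2a33328f5924945944e2793bae526b54788da4c360c59669733c44ea95829cc0c9b0e02c0203628ecc45415274f64504960b604 (k8 c14962 c575 c4476 c13906 c13923 c14312 c1234 c14780 (k8 c14976 c267 c3547 c4530 c14819 c54 c12210 c4726 (k8 c765 c4462 c1021 c4406 c1695 c539 c4411 c14894 (k8 c816 c7239 c4481 c4420 c4362 c14944 c4372 c760 (k8 c7420 c1029 c6781 c3009 c2485 c2483 c3549 c3704 (k8 c4281 c1726 c12671 c1647 c430 c287 c1107 c1734 (k8 c4282 c59 c13396 c13532 c13785 c6230 c13371 c14831 (k8 c1612 c9460 c4553 c14107 c2006 c1911 c14130 c14101 (k8 c4486 c6233 c4381 c298 c6153 c4306 c5335 c8560 (k1 c2125 k0)))))))))) (by decide +kernel)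
def c14978 : PP 8 4 T 0x1000000000000000000000000100000000000004000040000000044000000 := rS 0x82183d9147e531ea2ca2770e00406c360c59669733c44ea582da560a730302c123b31150082a (k8 c14780 c14962 c14976 c267 c3547 c13906 c12210 c4462 (k8 c1021 c4406 c1695 c575 c4476 c539 c4411 c14894 (k8 c816 c7239 c4481 c4420 c4362 c14819 c54 c4726 (k8 c3009 c3549 c3704 c12671 c9029 c288 c13923 c14312 (k2 c14977 c1872 (k1 c12827 k0)))))) (by decide +kernel)
def c14979 : PP 8 4 T 0x1000000000000000000000000100000000000004000000000000044000000 := rS 0xc53da26950843b9432314e85da24260b0e2cb33b9ccf2511da5d161c030f442620594e0a548880da4013aa5454672c16c0809 (k8 c13906 c14962 c575 c4476 c14894 c14780 c1695 c539 (k8 c54 c14944 c14819 c4411 c14976 c4406 c9029 c12210 (k8 c267 c2256 c12671 c4462 c4726 c3704 c816 c3547 (k8 c3549 c2485 c1021 c3009 c7239 c4481 c4362 c4420 (k8 c14978 c340 c1950 c14761 c14397 c268 c13532 c13785 (k4 c4465 c4475 c4742 c4320 (k2 c4429 c2123 k0))))))) (by decide +kernel)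
def c14980 : PP 8 4 T 0x1000000000001000080000440001101100140008000000005000040000080060100024 := rS 0x2f10aa7642441e39118d42629308452a7d239fc1a9b05884b05b (k8 c575 c4476 c85 c535 c765 c4371 c7517 c4374 (k8 c7516 c1695 c4276 c614 c59 c531 c4373 c4372 (k8 c4280 c14107 c12704 c11438 c13601 c716 c7138 c1172 k0))) (by decide +kernel)
def c14981 : PP 8 4 T 0x1000000001000080000440401101100144408000000005000040000080060100024 := rS 0x32d90a65bac62861089bcea7331c1026295ca6ce2062c16d6a8f11c452e95 (k8 c1695 c14825 c4411 c4372 c760 c7420 c575 c4476 (k8 c1025 c2483 c765 c6781 c59 c531 c4464 c1606 (k8 c1110 c539 c1107 c4276 c614 c14980 c4350 c4353 (k4 c10851 c8522 c14025 c7484 k0)))) (by decide +kernel)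
def c14982 : PP 8 4 T 0x1000000000001000080400440001101100100008000000005000040000080060100024 := rS 0x2f10aa7642441e39118d42629308452a7d239fc1a9b05884b05b (k8 c575 c4476 c85 c535 c765 c4371 c7517 c4374 (k8 c7516 c1695 c4276 c614 c59 c531 c4373 c4372 (k8 c4280 c14107 c12704 c11438 c13601 c717 c7138 c1172 k0))) (by decide +kernel)
def c14983 : PP 8 4 T 0x1001000000000000000000000100000000000005000040000000060000000 := rS 0x3214cb18a32da08a52aa53a333d100e20b4da640c21019244661379d6123141845764b5f9146ad23998d0e190d41026295cacd2e1533960b60404a56222a (k8 c14780 c4411 c1695 c13906 c14962 c575 c4476 c14894 (k8 c287 c14825 c7239 c6781 c59 c531 c4464 c14979 (k8 c171 c7313 c1606 c1110 c14944 c4373 c13923 c6330 (k8 c4375 c6870 c4276 c638 c7896 c4316 c539 c1107 (k8 c614 c4372 c4281 c14819 c85 c1025 c1032 c765 (k8 c535 c2483 c689 c688 c6309 c3040 c6029 c5936 (k8 c14981 c13932 c1750 c14982 c4350 c10851 c8522 c7484 k0))))))) (by decide +kernel)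
def c14984 : PP 8 4 T 0x1001000000000000000000000100000000000005000040000000040000000 := rS 0x56c4d574b5229d528a4db0d0a9f7ec62289928b20f6b13ba498e9d4883c78c50501c403b0eacd727f3ec110e978880c4e490691c021314984da754a86612533ca242a67418455e310d2fc8a091ab48e66315160b604 (k8 c14962 c575 c4476 c14780 c1606 c1110 c14944 c4373 (k8 c13906 c13923 c6330 c14979 c7896 c1775 c4276 c638 (k8 c14894 c287 c678 c599 c2229 c4316 c171 c1695 (k8 c539 c4993 c614 c59 c531 c54 c4374 c4371 (k8 c4281 c4278 c14819 c4411 c14825 c7313 c4464 c7516 (k8 c7517 c6781 c7239 c14983 c1641 c4466 c527 c4726 (k8 c4530 c314 c2255 c886 c967 c2262 c315 c7135 (k8 c622 c703 c11938 c3594 c14895 c11808 c4482 c4305 (k8 c1665 c14271 c4958 c4448 c14041 c5323 c5558 c7469 (k4 c4427 c1673 c13260 c2053 (k1 c4491 k0))))))))))) (by decide +kernel)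
def c14985 : PP 8 4 T 0x1000000000005000000000000000084044444000000000100048100000021000000000000040140024 := rS 0x3eb2508bc078448f19 (k8 c4366 c4374 c4276 c14107 c4493 c1172 c11877 c1501 (k1 c9509 k0)) (by decide +kernel)
def c14986 : PP 8 4 T 0x100001000000000000000000000000140000000000005000040000000060000000 := rS 0xf2ea061aa68a2de2efd4b5155acf3fd29468732284921314984ea950cc25121533a0c22bb5f8d58ec56091532a911a9496ab288c442931d902249b4e9ac66e46900c540936b0cf4062c16c081a (k8 c14979 c14962 c575 c4476 c1025 c688 c1212 c4993 (k8 c13906 c14780 c14819 c14944 c14984 c14646 c559 c1235 (k8 c765 c7035 c689 c4403 c1029 c85 c7896 c4405 (k8 c5962 c4375 c5936 c4372 c6029 c6171 c13923 c6869 (k8 c4530 c4289 c4373 c6330 c6870 c4276 c638 c14894 (k8 c287 c678 c4316 c171 c1695 c539 c614 c59 (k8 c531 c4281 c1734 c4904 c1652 c6868 c4485 c555 (k8 c4430 c4458 c6679 c7085 c14643 c7641 c3176 c14985 (k4 c10851 c4330 c1897 c813 (k2 c427 c6371 k0)))))))))) (by decide +kernel)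
def c14987 : PP 8 4 T 0x1000000000000000000000000140000000000005000040000000060000000 := rS 0x53af522852fb21600f8ac592efd3eaccff048891c262930a5612890a99d06115dafc6ac762b048a995488d4a4b55944629d358cda4031502536931db90f4062c16c081a (k8 c14979 c14962 c575 c4476 c1025 c688 c14984 c4403 (k8 c1029 c765 c13906 c14780 c14819 c14944 c14646 c559 (k8 c1235 c7896 c4405 c5962 c4375 c5936 c4372 c6029 (k8 c6171 c13923 c6869 c4530 c4289 c4373 c6330 c6870 (k8 c4276 c638 c14894 c287 c678 c4316 c1695 c614 (k8 c59 c531 c4374 c4411 c14986 c4313 c4312 c4409 (k8 c4961 c1195 c4487 c4963 c14107 c5772 c9509 c14777 (k4 c716 c1156 c1172 c5558 (k1 c7138 k0))))))))) (by decide +kernel)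
def c14988 : PP 8 4 T 0x1101001000000000080051440045141154110408000041021000040000000020144000 := rS 0x19b4567d0d78b653a44beac61ae48e8f11a6d6006 (k8 c1025 c5772 c765 c4372 c760 c4374 c6781 c4958 (k8 c2127 c14777 c1156 c13601 c10674 c7138 c4424 c1796 (k2 c4454 c2068 (k1 c6601 k0)))) (by decide +kernel)
def c14989 : PP 8 4 T 0x1000000000000000000000000000000000500020000024020000000000000000000000 := rS 0x86a453c5f (k4 c1380 c1650 c1156 c4384 (k1 c4486 k0)) (by decide +kernel)
def c14990 : PP 8 4 T 0x1101001000000000080051440045141114190408000064021000040000000060140024 := rS 0xa665af522855c320fab24b03c8e6108a3c467f (k8 c555 c4372 c760 c4276 c614 c4374 c14107 c14988 (k8 c1195 c14989 c9509 c635 c2699 c3216 c3218 c1753 (k2 c7138 c7484 k0))) (by decide +kernel)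
def c14991 : PP 8 4 T 0x100000002000080011440005100100180000000040021000040001080068000024 := rS 0x7975030d53451fa7f5199222a12484c52614a86612890aa0c22af31b1d3a6b1988536931d9e80c87 (k8 c186 c1025 c688 c4403 c1029 c765 c85 c14646 (k8 c559 c1235 c4289 c1606 c1775 c4276 c638 c287 (k8 c678 c4316 c171 c1695 c614 c59 c531 c4281 (k8 c1734 c4411 c4904 c6868 c555 c14643 c14990 c10851 (k4 c4330 c1897 c813 c427 (k1 c6371 k0)))))) (by decide +kernel)
def c14992 : PP 8 4 T 0x1000000000000000000000000100000000000005000040000000060000000 := rS 0x19b455e29d22a207c562cc34bbf5670445448f4934da3c0d11098a4c29536c25121533a0c22af5dafc6ac7628ed82454caa446a525aaca2314e9ac66e46900c54090d160b604 (k8 c14962 c575 c4476 c14979 c13906 c14780 c14819 c14944 (k8 c14984 c14646 c559 c1235 c7896 c4405 c5962 c4375 (k8 c5936 c4372 c6029 c6171 c13923 c6869 c4403 c4530 (k8 c4289 c4373 c6330 c6870 c1775 c4276 c638 c14894 (k8 c287 c678 c4316 c4993 c1695 c614 c59 c531 (k8 c4411 c1025 c760 c765 c1029 c688 c7035 c14987 (k8 c14991 c4312 c4961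 c1195 c1211 c4487 c4963 c14107 (k4 c14988 c938 c13601 c2126 (k2 c4454 c2068 (k1 c12510 k0)))))))))) (by decide +kernel)
def c14993 : PP 8 4 T 0x1000000000000000000000000100000000000005000040000000040000000 := rS 0x1761aa689450be2f6426dfa7d3fc6208b95bc5cf6b159a5c1e3c0501c401d3ba754aa94c9ac66e416c44060d11a849201098a4c2754a854ce582d81055093c8c5061a08aec96bf228246ad2 (k8 c14944 c4373 c13906 c13923 c6330 c4375 c6870 c4276 (k8 c14979 c638 c7896 c599 c4316 c14780 c14962 c575 (k8 c4476 c14894 c287 c1695 c539 c614 c59 c531 (k8 c54 c4281 c1734 c4372 c4371 c14819 c4411 c143 (k8 c14984 c14646 c559 c6171 c6029 c5936 c1235 c1111 (k8 c14992 c4466 c527 c4726 c314 c2255 c926 c10182 (k8 c622 c703 c4416 c1742 c6781 c10368 c4482 c4313 (k8 c4409 c4961 c4448 c11938 c836 c547 c11399 c4469 (k4 c10851 c8237 c813 c4477 k0))))))))) (by decide +kernel)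
def c14994 : PP 8 4 T 0x1000000000000000000000000100000000000004000040000000040000000 := rS 0x275269935a6d56c1618ed2e1c568cc7a2132b410c6205c14a829018052a451f86462890d054ce582d810122a (k8 c14780 c13906 c14962 c575 c4476 c14894 c287 c14979 (k8 c678 c7896 c171 c288 c13923 c1695 c54 c14819 (k8 c59 c14993 c4406 c12210 c267 c429 c428 c1647 (k8 c2256 c12671 c2404 c4903 c4726 c816 c3547 c7659 (k8 c1710 c1671 c6867 c559 c6171 c1029 c1235 c7662 k0))))) (by decide +kernel)
def c14995 : PP 8 4 T 0x1000000000000000000000000100000000000004000000000000040000000 := rS 0x14e4f42bf5907d3fae56f17820bd2e3c12acc40a5549541ec3050ce32412120c6253848682a673a960b695048b6224b139249a0d1184c522a3081022d2 (k8 c14944 c4276 c14962 c614 c14780 c59 c531 c4372 (k8 c4371 c4282 c4281 c4278 c4375 c4411 c143 c13906 (k8 c1695 c575 c4476 c539 c14894 c287 c14979 c4316 (k8 c2229 c7896 c638 c14994 c91 c4446 c2295 c334 (k8 c2054 c2291 c2292 c6029 c5936 c535 c662 c313 (k8 c314 c926 c837 c10368 c4416 c1742 c6781 c4313 (k4 c4409 c11938 c4305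 c11877 (k2 c6655 c5558 (k1 c4839 k0))))))))) (by decide +kernel)
def c14996 : PP 8 4 T 0x1000000080000000400000000040000000001480000040002080081604800 := rS 0x6c2566d15fa82429b49e1b5652cd6523cb15a26922904a20d0eb2422b91ab062ce51d8a47e3d (k8 c2205 c2223 c59 c1102 c4284 c4471 c4420 c4373 (k8 c7514 c4276 c630 c56 c4371 c1917 c1913 c2235 (k8 c1878 c2240 c4530 c14867 c14871 c580 c4456 c293 (k8 c2229 c2231 c945 c6224 c6153 c8510 c4452 c2065 (k2 c11222 c7552 (k1 c272 k0)))))) (by decide +kernel)
def c14997 : PP 8 4 T 0x100001000000094115451101500000000400001405484000000000000005404000 := rS 0xb765af4fe6e38bf59a5c271a5024b428350f08 (k8 c4465 c4440 c4371 c6224 c4375 c6395 c13396 c6153 (k8 c2119 c1480 c4377 c1418 c841 c1458 c6133 c8863 (k2 c1078 c2129 k0))) (by decide +kernel)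
def c14998 : PP 8 4 T 0x100000000000000100011100000000010800000001400001405110080080004000 := rS 0x638dd6e253fbf47629 (k8 c59 c1102 c4306 c676 c11222 c5279 c272 c290 (k1 c2113 k0)) (by decide +kernel)
def c14999 : PP 8 4 T 0x100001000000010115451041100200100400001400004000000000000004000000 := rS 0xce56a9e271130845a45f5885c325a0e8841e632a8280e1e00810122a (k8 c14780 c13906 c14962 c54 c14995 c1098 c4462 c12681 (k8 c1606 c12199 c86 c56 c6846 c5066 c2552 c2607 (k8 c577 c14944 c4276 c614 c4411 c4443 c2011 c2050 (k2 c14997 c5286 k0)))) (by decide +kernel)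
def c15000 : PP 8 4 T 0x1000000000000000000000000100000000000004000040000000004200000 := rS 0x37c50bb0d5333d36508c1053283449e58abf5db450245248352239589ecc65582b2572355a91d86c18b39476291f8f55e6d29aa446a5259ac628b3303c32b32f8280e0130845a42a1985cb421048743c04 (k8 c14962 c14995 c56 c13906 c86 c6846 c2552 c6119 (k8 c14780 c14944 c4276 c614 c54 c1098 c4462 c577 (k8 c2645 c5066 c12199 c287 c2702 c14996 c6097 c4375 (k8 c5936 c4372 c6029 c292 c695 c1775 c2205 c2223 (k8 c59 c1102 c4284 c4471 c4420 c4362 c4374 c7513 (k8 c4373 c7514 c630 c4308 c12681 c1606 c2688 c2607 (k8 c4280 c1153 c4371 c4281 c438 c6395 c454 c6870 (k8 c6330 c4530 c14867 c4742 c14998 c14999 c1103 c4472 (k8 c6159 c4448 c3582 c14997 c4330 c2838 c13601 c9688 (k1 c7055 k0)))))))))) (by decide +kernel)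
def c15001 : PP 8 4 T 0x1000000000000000000400000100000000000004000140000000000200000 := rS 0x218243f0d908b751b1d02ce3e9bcbb15888e5424958ae56a474eaa446a541a65764b5f8d58a9b8c1dd10d020b04a65155c4a12690d1ac666d18a2ccc0f0c85d665f2d0843a6108b498716728ec523f0501c0204048a87a1e (k8 c14995 c2205 c14780 c13906 c14962 c54 c1098 c4462 (k8 c2223 c59 c1102 c4284 c4471 c4362 c14944 c4276 (k8 c614 c56 c86 c6846 c577 c2645 c2552 c5066 (k8 c12199 c287 c2702 c14996 c695 c6119 c6097 c15000 (k8 c7139 c4316 c4479 c4445 c1644 c292 c4420 c7115 (k8 c6159 c455 c2042 c4472 c4448 c4530 c4373 c6330 (k8 c4375 c6870 c4443 c638 c5936 c4372 c6029 c1233 (k8 c4374 c7513 c7514 c2607 c4281 c1734 c4280 c4411 (k8 c10851 c14180 c14263 c8975 c8425 c2045 c1520 c1523 (k4 c1796 c2119 c2113 c684 (k2 c272 c5121 (k1 c4381 k0)))))))))))) (by decide +kernel)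
def c15002 : PP 8 4 T 0x1000000000000000000000000100000000000004000140000000000200000 := rS 0xc71badd46cd8a4354ccb4db4231115092522395c8d56a4761b062ce51d8a47e3d29904a2ab89424d21a358ccda31459981e190baccbe0a03804b421048743c6108b48082a (k8 c14780 c14962 c14944 c4276 c614 c14995 c56 c13906 (k8 c86 c6846 c54 c1098 c4462 c577 c2645 c2552 (k8 c5066 c12199 c287 c2702 c14996 c695 c6119 c6097 (k8 c15000 c7139 c4316 c4479 c4445 c1644 c7115 c292 (k8 c2205 c2223 c59 c1102 c4284 c4471 c4420 c4362 (k8 c4374 c7513 c4373 c7514 c4280 c1153 c4281 c1734 (k8 c4411 c4472 c6159 c4448 c1750 c15001 c4330 c13601 (k4 c2067 c941 c5964 c4386 (k2 c461 c2113 k0))))))))) (by decide +kernel)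
def c15003 : PP 8 4 T 0x1000000000000000000100051001500001101402001501080105605100080000000000 := rS 0x5b1b98e5c12a046e5f (k8 c577 c443 c1962 c12180 c2119 c290 c841 c4034 (k1 c1078 k0)) (by decide +kernel)
def c15004 : PP 8 4 T 0x1000000000000000000100011101500000101406401581080105605100080080004000 := rS 0x812e9bcfab6638dc4afd5d244bf19 (k8 c4364 c577 c1153 c15003 c6983 c11222 c272 c290 (k4 c4034 c1627 c1078 c923 (k2 c7000 c2119 k0))) (by decide +kernel)
def c15005 : PP 8 4 T 0x1000000001001000000100000001500010100400001580004500201000000000000000 := rS 0x52da2c467d0d6c8f1bb357cbba2a105a4b24984223b14a45627b07a5d72355a8fc1407008a88e8b3b9e02e5a108743c0404af472d2 (k8 c14944 c4280 c1169 c13906 c14962 c14995 c56 c86 (k8 c6846 c2552 c7132 c1089 c2702 c4374 c14780 c54 (k8 c1098 c4462 c2223 c7513 c4373 c7514 c1193 c12199 (k8 c2688 c2607 c1153 c59 c1102 c4276 c614 c4281 (k8 c4375 c143 c15004 c4397 c1442 c603 c1482 c443 (k8 c1515 c13486 c4424 c1797 c1246 c5846 c4429 c4475 k0)))))) (by decide +kernel)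
def c15006 : PP 8 4 T 0x1001000000100000001500010100400001580004500201000000000000000 := rS 0x10a5d409c51ebb8a18422d22f9ee32773c05cb4210e8780809 (k8 c13906 c14962 c14995 c56 c86 c6846 c2552 c7132 (k8 c1089 c4364 c2688 c577 c14944 c4276 c614 c15005 (k4 c4390 c4388 c4387 c1962 (k2 c840 c13580 (k1 c2119 k0))))) (by decide +kernel)
def c15007 : PP 8 4 T 0x1000000000000000000000000100000000000004000040000000000200000 := rS 0x112cf5150d8cb71bb3629455321d7a778c910a2ab891a507090d1ad4aa9299b462c145a562cb55c8f5927533415ca4b118d48ea124984223b14a4472d22f9ed66330b864b41d108fc1e632a8280e1e00810122a (k8 c14780 c13906 c14962 c54 c14995 c1098 c4462 c12681 (k8 c1606 c12199 c2223 c86 c56 c6846 c5066 c2552 (k8 c6119 c2645 c2688 c577 c14944 c4280 c1153 c59 (k8 c1102 c4276 c614 c4281 c1734 c4374 c4373 c4372 (k8 c4375 c4284 c4308 c287 c591 c630 c2205 c7514 (k8 c7513 c4471 c5073 c2702 c4420 c14996 c695 c292 (k8 c6029 c5936 c6097 c15000 c4316 c638 c7139 c4479 (k8 c4445 c1644 c15002 c4364 c1089 c1169 c10171 c15006 (k8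 c4453 c4500 c2067 c4386 c4353 c2113 c4391 c291 (k2 c1520 c6175 (k1 c6667 k0))))))))))) (by decide +kernel)
def c15008 : PP 8 4 T 0x100000001000000080000000500011000004044401400005000040002010085544800 := rS 0x5e8dc9eb567d0d96aea5b21a0b76394c79178c1053651899243a2134a2d8a451dc1112e5 (k8 c13532 c7030 c4464 c1102 c438 c4530 c5853 c13396 (k8 c86 c56 c4281 c4441 c1917 c1966 c1913 c5755 (k8 c13242 c14170 c332 c2206 c1742 c2109 c11768 c4426 (k8 c301 c1750 c4422 c1792 c1705 c6220 c4989 c5748 (k1 c6022 k0))))) (by decide +kernel)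
def c15009 : PP 8 4 T 0x1000000010000400000000054005440000000400005400000000040000 := rS 0x3022c75 (k4 c11468 c4471 c14226 c4420 k0) (by decide +kernel)
def c15010 : PP 8 4 T 0x1000000080000000000000000000000000000004000040000080084100120 := rS 0x1184d10558ab2899528938b8f0a6af189ad1304399e58a9d43a2ceee534914daa12484c7629589ed66330b8641e971f9fcce5a1087622632a8280e01 (k8 c54 c1098 c4462 c12681 c1606 c4411 c56 c86 (k8 c6846 c654 c6629 c2223 c1193 c12199 c5066 c2552 (k8 c6119 c2645 c2688 c2607 c59 c1102 c531 c4281 (k8 c1734 c694 c438 c13396 c13532 c6033 c5853 c14835 (k8 c968 c4530 c14867 c12124 c4464 c7030 c580 c15008 (k8 c1775 c292 c15009 c4416 c1655 c275 c579 c3627 (k4 c5962 c5842 c14593 c860 (k2 c4472 c4448 k0)))))))) (by decide +kernel)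
def c15011 : PP 8 4 T 0x1000001001000080000000100000000000440000001401400054002010080144800 := rS 0x40d15783727895fa856431d8ac12294422490691c7704 (k8 c4464 c1102 c4374 c4371 c4281 c4276 c1917 c2235 (k8 c6869 c4530 c14872 c11768 c14271 c4305 c11222 c6655 (k4 c272 c6022 c4454 c1899 (k1 c4484 k0)))) (by decide +kernel)
def c15012 : PP 8 4 T 0x800000000000000020480000000000000000040000101400000000000080000014800 := rS 0x42a9df85d86b314424 (k8 c290 c291 c461 c4381 c5618 c11222 c941 c1481 (k1 c14832 k0)) (by decide +kernel)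
def c15013 : PP 8 4 T 0x1001000000000000000000000100000000000004000141000000000000000 := rS 0x8f53c5190c765b4186b55c9d4920d1a8ed2239599ccfa474ec61825155c48da3120a0ca67f33c44c60f2a8fd625f308442629348280e0135968421d848682a1e02348122a (k8 c14780 c13906 c14944 c14962 c14995 c15007 c15010 c4316 (k8 c56 c86 c6846 c2559 c54 c1098 c4462 c7139 (k8 c59 c531 c4276 c614 c577 c2607 c2223 c12681 (k8 c12199 c1606 c4411 c654 c6629 c2229 c638 c7115 (k8 c15011 c695 c4479 c4445 c1644 c6869 c4472 c1233 (k8 c4374 c7516 c12124 c2645 c4280 c1153 c1102 c4373 (k8 c4371 c4281 c11468 c7514 c7513 c9009 c6159 c1750 (k4 c15012 c11768 c12204 c7484 (k2 c4388 c4539 k0))))))))) (by decide +kernel)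
def c15014 : PP 8 4 T 0x1001000000000000000000000100000000000004000140000000000000000 := rS 0x3727af56b437e9c50ac85bb1c78490691e085155c48da3120a0ca67f33c44c60f2a8fd625f308442629348280e0135968421d848682a1e02348122a (k8 c14780 c13906 c14944 c14962 c14995 c15007 c15010 c4316 (k8 c56 c86 c6846 c2559 c54 c1098 c4462 c7139 (k8 c59 c531 c4276 c614 c577 c2607 c2223 c12681 (k8 c12199 c1606 c4411 c654 c6629 c2229 c638 c7115 (k8 c15011 c695 c4479 c4445 c1644 c4464 c4374 c4371 (k8 c4281 c15013 c2206 c1742 c11768 c14271 c587 c4305 (k4 c4422 c1705 c6133 c6655 (k2 c5531 c6022 k0)))))))) (by decide +kernel)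
def c15015 : PP 8 4 T 0x1001000000000000040000000000000001000411015601110084088111120 := rS 0x16e378a31da14b5632d16655aae4ea13308ec52b13dacc7e0f3f99e226329a24e6870c9f4a2ab891a41407009acb4210ec263277 (k8 c1089 c4364 c4316 c56 c86 c6846 c2559 c54 (k8 c1098 c4462 c7139 c4479 c4445 c1644 c7516 c5066 (k8 c7313 c12124 c678 c2229 c1606 c4411 c654 c6629 (k8 c12199 c2223 c2645 c2688 c2607 c59 c1102 c614 (k8 c531 c11468 c7514 c7513 c578 c4632 c7112 c2120 (k4 c4458 c4475 c15012 c12204 (k2 c4386 c4353 (k1 c4034 k0)))))))) (by decide +kernel)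
def c15016 : PP 8 4 T 0x1001000000000000000000000100000000000004000040000000000000000 := rS 0x569958094498f1864455c493a6d578c50e4b138e4924d068d48e1314984b2032fac4f6191f83cfe678898caa5344a0c2241348280e0135968421d848682a1e023485409 (k8 c13906 c14780 c14944 c14962 c14995 c15007 c15010 c4316 (k8 c56 c86 c6846 c2559 c54 c1098 c4462 c7139 (k8 c7115 c4276 c638 c678 c2229 c12681 c1606 c4411 (k8 c654 c6629 c12199 c2223 c5066 c2688 c2607 c577 (k8 c14819 c10353 c614 c59 c531 c4374 c4373 c4371 (k8 c4282 c4281 c4280 c4278 c4375 c7313 c15011 c1775 (k8 c695 c1233 c4479 c4445 c15014 c1209 c15015 c1655 (k4 c275 c445 c579 c861 (k1 c8008 k0))))))))) (by decide +kernel)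
def c15017 : PP 8 4 T 0x1000000000000000000000000100000000000004000040000000000000000 := rS 0x32c150ce434868ce15888a9a45a1087414070f0040809 (k8 c13906 c14962 c54 c14995 c1098 c4462 c56 c86 (k8 c6846 c14944 c14780 c4411 c15007 c654 c15010 c7139 (k4 c15016 c6832 c4410 c1653 (k1 c6109 k0)))) (by decide +kernel)
def c15018 : PP 8 4 T 0x1000001000000040000100000000000000010000000001404550000080210000 := rS 0x1be2ab65aae47ac9 (k8 c630 c2205 c7514 c7513 c2113 c4353 c1078 c4480 k0) (by decide +kernel)
def c15019 : PP 8 4 T 0x1000000000000000000000000100000000000004000000000000000000000 := rS 0xcba5b3e86cd29321127f338558e37129c5fb4535a0916e543b45344f0daf4a242079547e190b9ed625f05164b4071d8843a1e3084c0204238d41a4d248e422d2018a45409 (k8 c13906 c14780 c59 c14819 c14944 c4276 c4280 c4281 (k8 c4282 c4371 c4373 c4374 c14962 c54 c531 c614 (k8 c14995 c56 c86 c1102 c1098 c6846 c10353 c4462 (k8 c577 c2607 c2688 c2552 c5066 c2223 c12681 c12199 (k8 c15017 c14921 c2014 c335 c2209 c277 c2210 c13785 (k8 c13532 c5853 c6153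 c1969 c4452 c4306 c589 c11222 (k8 c272 c290 c15018 c654 c7517 c7030 c11768 c14934 (k4 c2064 c4422 c1792 c4456 (k2 c2022 c4495 k0))))))))) (by decide +kernel)
def c15020 : PP 8 4 T 0x1000000010020000000000000000000000000000000140000000000000000 := rS 0x8319 (k2 c4370 c1056 (k1 c4472 k0)) (by decide +kernel)
def c15021 : PP 8 4 T 0x1000000000000000008000000000000000048000000000000000005200000 := rS 0x8485d0c89 (k4 c1945 c1612 c652 c4440 (k1 c4465 k0)) (by decide +kernel)
def c15022 : PP 8 4 T 0x100000000000050010001480004040500000104050108080000000201000000008 := rS 0x9150add9a27a2b2e9652 (k8 c983 c4428 c8140 c4396 c2391 c1480 c7551 c894 (k2 c12087 c10460 k0)) (by decide +kernel)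
def c15023 : PP 8 4 T 0x21100000000000000040000000000000054501500000000000841400108000205614800 := rS 0x2458e372603496e5 (k8 c4284 c2037 c651 c2108 c7463 c2380 c887 c12585 k0) (by decide +kernel)
def c15024 : PP 8 4 T 0x20000000000000000040010400080000000101504400050008000000008000005214108 := rS 0x480dd6ea12313d3e7d51c54ba6f58a3e0ad124894ea23100743eb58b24d2a554b98a2239052cc7ae51f9485817288a42679 (k8 c4447 c140 c795 c1592 c653 c382 c983 c12102 (k8 c4284 c2279 c7628 c7508 c2319 c4332 c383 c817 (k8 c141 c12015 c1070 c4487 c4419 c1065 c2798 c4466 (k8 c2799 c591 c2347 c2328 c2422 c4308 c12014 c622 (k8 c10992 c12418 c14520 c818 c8975 c1610 c15022 c15023 (k4 c1584 c1587 c1411 c7050 (k1 c887 k0))))))) (by decide +kernel)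
def c15025 : PP 8 4 T 0x40000000000000000100000000040008000000000000200220018 := rS 0x245468f50add3e5c1331cbf0524ae56b16499952a551484d2e62888b0720a598f5ca3f (k8 c12102 c4284 c2279 c7628 c7508 c2319 c382 c4332 (k8 c383 c817 c140 c795 c141 c12015 c550 c1070 (k8 c4487 c4419 c6781 c2328 c4308 c542 c2373 c342 (k8 c343 c6233 c9550 c895 c2778 c2804 c2790 c2125 k0)))) (by decide +kernel)
def c15026 : PP 8 4 T 0x20000000000000000040010400080000000101104400050008000000008000005214108 := rS 0x830b9445213 (k4 c140 c795 c1592 c653 (k2 c4570 c15024 k0)) (by decide +kernel)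
def c15027 : PP 8 4 T 0x8000000000000000000100000100000054400000000040000000000000001200208800 := rS 0x3e288ab05 (k4 c4308 c141 c9790 c387 (k1 c1354 k0)) (by decide +kernel)
def c15028 : PP 8 4 T 0x1000000040010000000001400100004000050000000000000000005210008 := rS 0x10a818405e30bf288ca26ae4cab5567734c1462d161b041eb14788d92200e87c120a8b4445897312cc7e3d49a54aae51484cac25 (k8 c2347 c15019 c140 c795 c4284 c141 c12015 c1070 (k8 c2279 c12102 c7628 c383 c817 c382 c4332 c4487 (k8 c7508 c13906 c1065 c2798 c4466 c630 c2799 c12014 (k8 c622 c15027 c4420 c4362 c2422 c2348 c4308 c13396 (k8 c6033 c15021 c820 c1071 c6342 c7641 c13950 c1592 (k4 c5760 c4488 c653 c4465 (k2 c4439 c4321 (k1 c15026 k0)))))))) (by decide +kernel)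
def c15029 : PP 8 4 T 0x1000000040000000000000000100000000040000000040000000000200010 := rS 0x2bd5aab4c94d126b0d0458a9b4e864f645100283b1159a4d2a29689887a2c1f8bcca020087cac0909955cb05 (k8 c4308 c4284 c141 c140 c13906 c15019 c1065 c751 (k8 c4461 c550 c8877 c12102 c382 c2279 c383 c2422 (k8 c795 c12015 c1070 c7628 c4332 c2798 c7508 c4466 (k8 c2406 c703 c308 c967 c13624 c15020 c15025 c15028 (k8 c558 c7473 c2382 c1072 c1613 c4903 c983 c6342 k0))))) (by decide +kernel)
def c15030 : PP 8 4 T 0x21100000000001000040040000000000054501500000000000801400000004005015800 := rS 0x6a374813c724b (k4 c2037 c358 c420 c12585 (k2 c7463 c1036 (k1 c4470 k0))) (by decide +kernel)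
def c15031 : PP 8 4 T 0x40000000000000000100000000000010410001400005040500000104050108080000002000000000000 := rS 0x122a15bb355145 (k4 c4396 c299 c1480 c7551 (k2 c7768 c978 (k1 c10460 k0))) (by decide +kernel)
def c15032 : PP 8 4 T 0x21100000000000000040400000000000054501100000000000840400000004005614800 := rS 0x318980d25b949283 (k8 c4570 c366 c4284 c2037 c651 c2108 c15030 c413 k0) (by decide +kernel)
def c15033 : PP 8 4 T 0x100000001000000040000000400000000100000000000000000040002040004210000 := rS 0xd120375b9189e524fd2d967d574553a8540c610708289042eb14c9b4ee271c9bd465d3a8fd6a8f07c4d566256c14d2190526d8ad12280c0f1649a5c5a6572a5438212c810ce012a824b656 (k8 c15019 c92 c13906 c141 c751 c13949 c15029 c63 (k8 c311 c6846 c7304 c4284 c7134 c391 c11774 c1030 (k8 c4487 c526 c55 c7323 c454 c15020 c765 c4462 (k8 c308 c13396 c4308 c6230 c7301 c15021 c7641 c12199 (k8 c9056 c7420 c1179 c591 c12183 c13617 c10992 c358 (k8 c350 c6033 c9753 c7664 c12219 c1911 c1912 c1916 (k8 c4465 c4570 c4472 c4439 c4321 c4368 c12045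 c6342 (k8 c8975 c8140 c4428 c1610 c4475 c15031 c15032 c1587 (k4 c1411 c12297 c4470 c1036 k0))))))))) (by decide +kernel)
def c15034 : PP 8 4 T 0x100000001000000040000000400000000100000000000000000040000040004210000 := rS 0xb9383189b05571661989326d49a6c66c568914069556c14d2190501d2e2d3287042592d811ca67009581255 (k8 c141 c13906 c15019 c751 c13949 c4284 c15029 c92 (k8 c63 c311 c6846 c7134 c391 c11774 c526 c4462 (k8 c308 c13396 c4308 c6230 c7304 c55 c7323 c454 (k8 c15020 c430 c765 c1030 c9753 c7664 c7301 c4958 (k8 c4487 c15021 c4420 c7641 c15033 c13950 c4469 c785 k0))))) (by decide +kernel)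
def c15035 : PP 8 4 T 0x21200000000000000040011000410000554501500004040108800400002004025214800 := rS 0x371a93d20b50692da23932ae4eb054fc4d974b5727586411fb947aab (k8 c4415 c327 c4284 c1179 c1912 c9009 c4368 c2127 (k8 c4428 c8140 c4441 c4414 c4308 c591 c4548 c7134 (k8 c358 c454 c2037 c651 c7513 c13526 c15031 c1036 (k2 c7463 c4470 k0)))) (by decide +kernel)
def c15036 : PP 8 4 T 0x1600000000000000040015011010001554500000000000000000800100004020000000 := rS 0x1a8dd209f (k4 c4414 c13526 c1411 c1036 (k1 c4470 k0)) (by decide +kernel)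
def c15037 : PP 8 4 T 0x40000002400000000000000004000000000004000000000210800 := rS 0x3f0f835 (k4 c7883 c11934 c10457 c4379 k0) (by decide +kernel)
def c15038 : PP 8 4 T 0x1000000040000000400000000100000000000000000040002040004210000 := rS 0x29d2c8eae8aa750a8160c61868384144821789a64da934d9dd8ad12289c725d01a3d2a3d569a432b93ac1557105a8fd2e2d32b9438212d9bc1e0a03810ce012a964ac09 (k8 c13906 c15019 c63 c141 c751 c13949 c15029 c526 (k8 c4462 c12199 c10992 c92 c311 c6846 c4284 c7134 (k8 c391 c11774 c1179 c15037 c15034 c4415 c4308 c591 (k8 c4548 c308 c13396 c6230 c327 c7304 c9056 c55 (k8 c12183 c358 c350 c7323 c454 c15020 c6033 c765 (k8 c1030 c9753 c7664 c4441 c1911 c1912 c1916 c4465 (k8 c4570 c9009 c4472 c6869 c4439 c4321 c4368 c12045 (k4 c2127 c15036 c4428 c15035 (k1 c4475 k0))))))))) (by decide +kernel)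
def c15039 : PP 8 4 T 0x1000000000010000404000454000001100054000000000005000005600100 := rS 0x611c93b1217948a2c1a5a21ca8b09b455b05349ad0f08 (k8 c4465 c4440 c6097 c13396 c4308 c6230 c454 c140 (k8 c5853 c4284 c8058 c4457 c1984 c1862 c4742 c7984 (k4 c4469 c4344 c9491 c4553 (k1 c14013 k0)))) (by decide +kernel)
def c15040 : PP 8 4 T 0x400000001000000010010000404001514010000000048000000000005000000000000 := rS 0x7360abe302e (k4 c4469 c4488 c789 c4450 (k2 c7478 c7141 k0)) (by decide +kernel)
def c15041 : PP 8 4 T 0x1001000010010000414001514010000000048000000045005000000000000 := rS 0x182721d45d5f12 (k4 c15040 c4346 c7641 c4471 (k2 c7153 c1581 (k1 c7478 k0))) (by decide +kernel)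
def c15042 : PP 8 4 T 0x1001000010010000414001554000001000048000000045005000001400100 := rS 0xe717611498288 (k4 c15041 c1984 c4742 c13950 (k2 c4362 c14013 (k1 c7153 k0))) (by decide +kernel)
def c15043 : PP 8 4 T 0x1000000040000000400000000100000000000000000040000040004210000 := rS 0x5f134e188f21718aae20751fa5d5a2d328f52ae582a64da934d8ccd21905315a2450e08406070219caa592d804ac09 (k8 c13906 c15019 c751 c92 c63 c141 c13949 c15029 (k8 c526 c55 c311 c6846 c7323 c454 c15020 c4462 (k8 c308 c13396 c430 c765 c1030 c9753 c7664 c4308 (k8 c4284 c7304 c327 c7134 c391 c6230 c11774 c1179 (k8 c591 c15034 c4415 c15038 c6343 c14867 c15039 c15042 (k2 c4344 c785 (k1 c4469 k0))))))) (by decide +kernel)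
def c15044 : PP 8 4 T 0x800000000000000000000008000000000040000200800 := rS 0x75 (k2 c153 c7830 k0) (by decide +kernel)
def c15045 : PP 8 4 T 0x100000000000000040000000400000051100000008041000000000040140020220000 := rS 0x10d8a0d546493f84caae5498f47e3947a7cbe2732c14c4b9 (k8 c6781 c7301 c4308 c7134 c872 c543 c6233 c761 (k8 c1139 c1179 c327 c1030 c4284 c141 c140 c1459 (k4 c367 c819 c11933 c4470 (k2 c12049 c11979 k0)))) (by decide +kernel)
def c15046 : PP 8 4 T 0x20000000000000001000000000000004000220000 := rS 0x8e1a5f (k4 c543 c4329 c11967 c7312 k0) (by decide +kernel)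
def c15047 : PP 8 4 T 0x100000000000000040000000500000051100000000040008000000000140020224000 := rS 0x22a6f5c84dca933a8fc1a371ca7cbe6582a844e61 (k8 c880 c872 c15046 c4308 c7134 c543 c6233 c1139 (k8 c319 c112 c1179 c591 c1030 c4284 c140 c6781 (k2 c15045 c11971 (k1 c7962 k0)))) (by decide +kernel)
def c15048 : PP 8 4 T 0x40000000000021000000000000000040400000100044155500000400000000000000100404000220000 := rS 0xcfa1aa170a55e8d2186e728dd3abf (k8 c4369 c4368 c319 c4284 c7962 c4486 c4470 c1079 (k4 c4385 c11948 c10290 c4394 (k2 c1525 c7105 k0))) (by decide +kernel)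
def c15049 : PP 8 4 T 0x1000000040000000000000000100000000000000000040002040004200000 := rS 0x2a19f4352ae096b55eade294b65ab97e9d5db0630c3289045e9936a4d363d1f9dd8ad12280c728f1ba7e0aa72fbf4d2195089cc2a355c4122104bb945a654aacc1e0a03870425b58810b26700824aa56 (k8 c15019 c141 c13906 c751 c13949 c63 c15029 c12219 (k8 c92 c311 c6846 c526 c4462 c12199 c15044 c7304 (k8 c7134 c391 c4284 c11774 c15043 c12756 c15047 c4415 (k8 c4337 c880 c872 c15046 c308 c13396 c4300 c543 (k8 c4532 c4308 c6233 c319 c761 c1139 c55 c7323 (k8 c454 c15020 c6033 c1179 c327 c765 c1030 c9753 (k8 c7664 c61 c1912 c1916 c9009 c4472 c6869 c4449 (k8 c4368 c4369 c7287 c8140 c4428 c15048 c4353 c4354 (k8 c4389 c14666 c11040 c10323 c4394 c1525 c2126 c7105 k0))))))))) (by decide +kernel)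
def c15050 : PP 8 4 T 0x1000000040000000000000000100000000000000000040000040004200000 := rS 0xbe269c311e42e3155c4122ad08315a26919c15620f4c9b432934d91406951e9d47e9716995660a03b9438212c810ce012a824b656 (k8 c15019 c92 c13906 c141 c751 c13949 c15029 c63 (k8 c311 c6846 c4284 c526 c4462 c15044 c7134 c391 (k8 c11774 c1179 c591 c327 c7304 c55 c7323 c765 (k8 c1030 c308 c9753 c7664 c12199 c12219 c4308 c430 (k8 c13396 c454 c15020 c15043 c6230 c12756 c15047 c4415 (k8 c15049 c6343 c14867 c15039 c15042 c4344 c785 c4469 k0)))))) (by decide +kernel)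
def c15051 : PP 8 4 T 0x1000000010010000404001554000001000058000000044005000009200100 := rS 0x1588972c147a17 (k4 c170 c327 c4308 c4284 (k2 c679 c15042 (k1 c4903 k0))) (by decide +kernel)
def c15052 : PP 8 4 T 0x1000000000000020000000000000000000000001400000000000000020000200000 := rS 0x2266956ab91053 (k4 c179 c455 c1760 c781 (k2 c2040 c4346 (k1 c4479 k0))) (by decide +kernel)
def c15053 : PP 8 4 T 0x1000000000000000400001054100001000048000000140000020029200000 := rS 0x315a26b19a64da9b328fe12ab1887cac09 (k8 c13906 c15019 c1065 c7896 c1573 c4316 c1179 c7134 (k8 c765 c9753 c7664 c952 c559 c15052 c15020 c15051 k0)) (by decide +kernel)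
def c15054 : PP 8 4 T 0x1000000000000000000000000002000000005001000000000000000000000000000 := rS 0xef19 (k2 c4368 c1092 (k1 c4482 k0)) (by decide +kernel)
def c15055 : PP 8 4 T 0x100000001000000000000000400001010100001000000000000140000140029200000 := rS 0xc42849a5dca67009581255 (k8 c141 c13906 c15019 c751 c13949 c4284 c11774 c1030 (k2 c4468 c7301 (k1 c15053 k0))) (by decide +kernel)
def c15056 : PP 8 4 T 0x10000100001000000000010000414001514010000100044000000141000000000000000 := rS 0x7257b062440 (k4 c4472 c4488 c1853 c4346 (k2 c9491 c7478 k0)) (by decide +kernel)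
def c15057 : PP 8 4 T 0x100001000000010010000414001554000000100044000000141005000008000000 := rS 0xe717613063089 (k4 c679 c15056 c4450 c13950 (k2 c4362 c1088 (k1 c4481 k0))) (by decide +kernel)
def c15058 : PP 8 4 T 0x1000001000000020010000014001554000000001400000000145005000000200000 := rS 0x18516148ed82e5 (k4 c4284 c1710 c1762 c15052 (k2 c4471 c7662 (k1 c4362 k0))) (by decide +kernel)
def c15059 : PP 8 4 T 0x1000000000010000414001554100001000040000000144004000009200000 := rS 0xc6d136b960a3d3a85e12310f958126b (k8 c559 c13906 c15019 c1065 c7896 c4316 c170 c591 (k4 c327 c4308 c4284 c9753 (k2 c15058 c15042 (k1 c15057 k0)))) (by decide +kernel)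
def c15060 : PP 8 4 T 0x1000000040000000000000000100000000000000000040000040000200000 := rS 0x110533b100a34b61c6588ad882ac669d3c8c6121a1fa5c5a654aacc8a9b49a64327b0e028420701810ce592d9b4021f2b024aae5 (k8 c4284 c141 c13906 c15019 c1065 c751 c9753 c92 (k8 c63 c13949 c15029 c55 c526 c311 c4462 c6846 (k8 c703 c308 c7664 c1030 c765 c7323 c15044 c7304 (k8 c7134 c391 c11774 c1179 c15050 c4316 c7896 c7136 (k8 c15054 c952 c14076 c15055 c4338 c15059 c4370 c196 (k4 c4429 c1595 c4472 c4482 (k2 c2034 c4934 (k1 c2042 k0)))))))) (by decide +kernel)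
def c15061 : PP 8 4 T 0x8000000000080000200100 := rS 0x2cc3863020847e592d87caae5 (k8 c4284 c141 c1065 c92 c63 c288 c2261 c286 (k4 c1606 c6846 c1188 c12216 k0)) (by decide +kernel)
def c15062 : PP 8 4 T 0x40000000000001100100000000000010410010010000055101010000000008880000000000000050000 := rS 0xb8fc471fd46b766b199d45 (k8 c4396 c421 c420 c1480 c7551 c1524 c1521 c10674 (k2 c7317 c800 (k1 c4377 k0))) (by decide +kernel)
def c15063 : PP 8 4 T 0x40000000000001100000001000000000400011010000055100000004000000800040000000004604800 := rS 0xe2bd7ea089e7d09c156211428641ad21595812c522b4482c3 (k8 c13033 c2034 c454 c438 c15020 c13906 c15019 c15061 (k8 c15060 c4371 c308 c6224 c4276 c622 c4308 c140 (k4 c8975 c15062 c6153 c4306 (k2 c13440 c589 (k1 c4480 k0))))) (by decide +kernel)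
def c15064 : PP 8 4 T 0x1000000001000000000000000400000000100000000000000000040000000004204010 := rS 0x1468f3716d62115c8d56a3f1e91d2e9113b49974b2905ca2ae888b13277559898a4568a55369372a744059569960a6715954d2190501c5202009581213 (k8 c140 c13906 c15019 c751 c4461 c795 c648 c4462 (k8 c308 c13396 c141 c15061 c13949 c4308 c550 c6230 (k8 c63 c12975 c967 c4284 c12021 c804 c12015 c454 (k8 c438 c15020 c383 c15021 c6033 c1071 c382 c4332 (k8 c6342 c1592 c653 c983 c4428 c8140 c15060 c4278 (k8 c886 c817 c4374 c327 c12102 c7513 c4373 c7514 (k4 c4276 c622 c92 c15063 (k2 c1346 c7471 (k1 c11907 k0))))))))) (by decide +kernel)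
def c15065 : PP 8 4 T 0x1000000000000000400000000100000000000000000040000000004204010 := rS 0xfa7f633389cfd5e8de281142835a5188985ca241292b9327755b148ad14da4d3a202cb0d5a658299c56690c8280f111625cc4952ab945202008242656 (k8 c15019 c140 c13906 c751 c4461 c795 c4284 c141 (k8 c12015 c383 c817 c382 c4332 c648 c4462 c308 (k8 c13396 c15061 c13949 c4308 c550 c6230 c13033 c63 (k8 c12975 c967 c12021 c804 c454 c438 c15020 c15021 (k8 c6033 c1071 c6342 c983 c2034 c1592 c653 c4346 (k8 c4488 c15060 c4371 c6224 c4276 c15064 c4386 c4354 (k4 c12954 c6022 c421 c420 (k2 c1521 c1351 (k1 c7317 k0))))))))) (by decide +kernel)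
def c15066 : PP 8 4 T 0x1000000000000000400000000100000000000000000040000000004200010 := rS 0x11c6e074592f11102545225310b126022c96c26e533804aac9588280e11690acac09 (k8 c13906 c15019 c15061 c15060 c4276 c648 c4462 c622 (k8 c630 c141 c751 c13949 c4284 c140 c92 c63 (k8 c4461 c12021 c382 c383 c2347 c795 c12015 c12975 (k4 c4332 c817 c4487 c15065 (k2 c305 c15027 (k1 c1346 k0)))))) (by decide +kernel)
def c15067 : PP 8 4 T 0x1100000001000000000000000400001000100000004000000000040000000004200000 := rS 0xa5a2a09530d279752061588441e8f1c8353e755c8d56a3f1e91e26cb0ba9c60c360c592e2d26b48a54b729455c993baacc4c522a5536935699438212c96e0a6715804ac55348641407048cc08d1 (k8 c454 c15066 c430 c13906 c648 c4462 c308 c13396 (k8 c141 c15019 c751 c15061 c13949 c4308 c92 c63 (k8 c311 c6846 c7134 c6230 c1030 c804 c7304 c438 (k8 c15020 c4478 c15021 c6033 c1071 c6342 c1593 c4284 (k8 c4428 c4475 c15060 c4282 c391 c11774 c4487 c4420 (k8 c13033 c13950 c2006 c1911 c8140 c7641 c4374 c327 (k8 c1179 c7513 c4373 c7514 c591 c11776 c4371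 c4280 (k8 c4656 c12199 c4276 c622 c5402 c15063 c4628 c15031 (k4 c4328 c978 c6153 c4452 (k2 c1937 c4490 k0)))))))))) (by decide +kernel)
def c15068 : PP 8 4 T 0x1100000001000000000000000400001000100000000000000000040000000004200000 := rS 0x1226e308280e93478e41a955188d72355a8fd2e2d3299c02550e084b2042db947a47690acac09 (k8 c13906 c15019 c15061 c15060 c4374 c327 c4284 c92 (k8 c15066 c63 c311 c6846 c141 c751 c13949 c7134 (k8 c391 c11774 c1179 c7513 c4373 c7514 c4372 c11410 (k8 c7304 c4371 c4280 c4656 c1030 c648 c4462 c5402 (k2 c15067 c1076 (k1 c11907 k0)))))) (by decide +kernel)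
def c15069 : PP 8 4 T 0x100000001000000000000000400001000100000000000000000040000000004200000 := rS 0x1524e502f56e911bc50823062915a29b4c9dc668f1c83546234fae46ab51f8f48ed261ab4d2ab31414320a03b062c934aa5c5a650e084b25b02394ce2b009581255 (k8 c141 c13906 c15019 c751 c15061 c13949 c4284 c15066 (k8 c92 c63 c311 c6846 c7134 c391 c11774 c7304 (k8 c1030 c4487 c4420 c648 c4462 c308 c4308 c4478 (k8 c15021 c13396 c6230 c13033 c15060 c4374 c327 c1179 (k8 c7513 c4373 c7514 c11776 c4372 c11410 c4371 c4280 (k8 c4656 c430 c6033 c1071 c804 c454 c438 c15020 (k8 c13950 c1912 c15068 c4386 c4352 c4353 c4354 c2125 (k2 c6022 c7768 (k1 c299 k0))))))))) (by decide +kernel)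
def c15070 : PP 8 4 T 0x1000000000000000000002000000000000000000000140004000000000000 := rS 0x8319 (k2 c4368 c1052 (k1 c4472 k0)) (by decide +kernel)
def c15071 : PP 8 4 T 0x40000000000000000100001000000090410001500005042500000100050000000000002000005004000 := rS 0x52d15044f549bcbb0d30c4c2e012b0254e4d (k8 c4282 c2006 c13906 c15019 c751 c1911 c4441 c5402 (k8 c4328 c809 c1076 c978 c15031 c6153 c4452 c1937 (k1 c4490 k0))) (by decide +kernel)
def c15072 : PP 8 4 T 0x1000000000000000400000000100000000000000000040002000004200000 := rS 0x2a49ca05e8de2891a5b2d5cc1619448313588458ad14da64ee0f49a3c720d4aab60a690ca7ceab91aad47e9716994ce012a87042592db947a47690acacab882746604228280e09 (k8 c13906 c648 c4462 c438 c15066 c430 c15070 c15069 (k8 c4415 c15019 c15061 c15060 c4374 c327 c4284 c92 (k8 c63 c311 c6846 c141 c751 c13949 c7134 c391 (k8 c11774 c1179 c7513 c4373 c7514 c591 c11776 c308 (k8 c13396 c4308 c6230 c7304 c4371 c4280 c4656 c1030 (k8 c12199 c6033 c1071 c804 c454 c15020 c4276 c622 (k8 c4441 c1912 c1916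 c9009 c6869 c7287 c8140 c4428 (k8 c15071 c13526 c4386 c4354 c11255 c6022 c7768 c299 k0)))))))) (by decide +kernel)
def c15073 : PP 8 4 T 0x1000000000000000400000000100000000000000000040000000004200000 := rS 0x311e42e3155c413a751fa5d5a2d32a55261c1988408994db14ee6922864143d03964b6e58299c56012b024aad1 (k8 c454 c141 c13906 c15019 c751 c15061 c13949 c4308 (k8 c4284 c92 c63 c648 c327 c4462 c308 c438 (k8 c13396 c6033 c15020 c804 c1071 c15066 c311 c430 (k8 c6846 c1030 c7304 c7134 c391 c6230 c11774 c1179 (k8 c591 c15070 c15069 c4415 c15072 c6343 c14867 c15039 (k1 c15042 k0)))))) (by decide +kernel)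
def c15074 : PP 8 4 T 0x800000000000000000000008000000000000000200100 := rS 0x382c762b (k4 c15061 c3026 c15044 c649 (k1 c4462 k0)) (by decide +kernel)
def c15075 : PP 8 4 T 0x100000001000000000000000000000014100000000000000000040000000000200010 := rS 0x15ead62a7536ab4c94d124510344c42c179acca022cc14ce2b00954340a03accac09 (k8 c13906 c15019 c15074 c648 c4462 c15073 c141 c751 (k8 c15061 c13949 c4308 c63 c4461 c550 c558 c8877 (k8 c382 c383 c2422 c12975 c2406 c7473 c2382 c1072 (k4 c1613 c13624 c967 c15020 (k2 c4903 c983 (k1 c6342 k0)))))) (by decide +kernel)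
def c15076 : PP 8 4 T 0x100000001000000000000000000000010100000000000000000040000000000200020 := rS 0x328b13a450e1e442592d9b4561984868f60a03accac09 (k8 c13906 c15019 c15074 c648 c4462 c703 c15073 c4316 (k8 c171 c15061 c9753 c92 c63 c311 c7136 c6846 (k4 c439 c15054 c15055 c7134 (k1 c391 k0)))) (by decide +kernel)
def c15077 : PP 8 4 T 0x100000001000000000000000000000010100000000000000000040000000000200000 := rS 0x9302b94560a03accac09 (k8 c13906 c15019 c15074 c648 c4462 c15061 c4284 c15076 (k2 c12021 c15075 k0)) (by decide +kernel)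
def c15078 : PP 8 4 T 0x400000020000000000000008000000000000040200000 := rS 0x100f8e61d16c5cb63d (k8 c327 c92 c4418 c2781 c763 c1617 c7660 c4466 (k1 c400 k0)) (by decide +kernel)
def c15079 : PP 8 4 T 0x1000000000000000000000000100000000000000000040000000000200000 := rS 0x441d9a0c38cb10669d1f91532794d870082101a4d5a2d4baae20953dc24320a0d01d666715954b66d0087cac09 (k8 c13906 c15019 c1065 c751 c9753 c92 c141 c15061 (k8 c13949 c15074 c648 c15073 c4462 c171 c4316 c703 (k8 c15078 c15077 c4415 c4336 c4332 c4338 c4413 c382 (k8 c798 c4461 c6846 c6867 c7136 c7664 c7323 c1179 (k8 c15054 c952 c15059 c4370 c196 c15020 c4482 c455 (k1 c2042 k0)))))) (by decide +kernel)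
def c15080 : PP 8 4 T 0x8100000001001000000004000400001514000000100000000000041000450004140900 := rS 0x28d2d58c568aac665389102322c8221c7e453b9551619 (k8 c308 c5853 c306 c6033 c438 c398 c7313 c4464 (k8 c4468 c14160 c14143 c4488 c2034 c4340 c4445 c456 (k4 c15020 c7641 c4458 c1864 (k1 c4475 k0)))) (by decide +kernel)
def c15081 : PP 8 4 T 0x1100000000002000000000000100000055500000000008000000000100050400000000 := rS 0x90271ac316ca35c8f476c7 (k8 c4289 c4403 c7465 c6781 c7471 c10674 c4486 c1037 (k2 c4324 c7771 (k1 c4209 k0))) (by decide +kernel)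
def c15082 : PP 8 4 T 0x40000000000000000800000000000008000000100000400000108 := rS 0x2070 (k2 c801 c12014 (k1 c583 k0)) (by decide +kernel)
def c15083 : PP 8 4 T 0x1100000000002000000000000000000055500000000008008000000100050400000000 := rS 0xb1 (k2 c1147 c15081 k0) (by decide +kernel)
def c15084 : PP 8 4 T 0x40000000000021100000000002000040400000000000054501100000018008000000008000005100808 := rS 0xcfa1938fc833eb25624b24834224d079bcba3654c35205b1c8a44661098800e595ac58aa3d1591d8ebb (k8 c4449 c4289 c4404 c2244 c7465 c306 c4487 c4419 (k8 c63 c83 c12975 c7061 c2885 c2775 c2776 c2319 (k8 c92 c15083 c4328 c2981 c887 c2790 c1076 c6403 (k8 c377 c2267 c1408 c322 c1413 c1148 c7308 c8975 (k4 c9038 c2107 c7463 c4392 (k2 c1521 c6220 k0)))))) (by decide +kernel)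
def c15085 : PP 8 4 T 0x100000001000000000000000414000054100000000000000000060000000004000808 := rS 0x52aa61a5c130409a0f5ea446f1442a06101731414f2bb32d2d96bf8c2ba26323d8c4cec145b147645439451ed37204c7ac38b1d4b69d148ac5e993ba6cd2150c88c40072c8e4ac09 (k8 c13906 c15019 c2319 c63 c83 c12975 c2775 c308 (k8 c15079 c13396 c804 c6033 c1071 c8877 c2244 c2776 (k8 c967 c92 c11025 c4487 c4958 c7465 c7061 c15080 (k8 c13532 c15082 c4405 c13785 c438 c4403 c4530 c5853 (k8 c4420 c2926 c228 c703 c7662 c7641 c2127 c4488 (k8 c5760 c8140 c4428 c1776 c4449 c4447 c9062 c4478 (k8 c572 c4465 c4439 c4321 c15084 c4386 c4352 c4354 (k8 c304 c1994 c14520 c342 c343 c4324 c975 c1341 (k1 c10979 k0))))))))) (by decide +kernel)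
def c15086 : PP 8 4 T 0x100000001000000010000000410000054100000000000000000040000000004000808 := rS 0x3c85a308989aa8804533955165343945c8131eb0e2c752da74522003964562f4c9dd36692b0541219 (k8 c308 c13906 c15079 c15019 c13396 c804 c6033 c1071 (k8 c8877 c2244 c63 c83 c12975 c2776 c967 c92 (k8 c11025 c4487 c4958 c7465 c7061 c15080 c4405 c13785 (k8 c4290 c5853 c306 c2926 c438 c14640 c15085 c4445 (k4 c1945 c4488 c2109 c4447 (k1 c572 k0)))))) (by decide +kernel)
def c15087 : PP 8 4 T 0x100000001000000000000000410000054100000000000000000040000000004000810 := rS 0xa054295470d5393cb8262f8413e0f7eadd22378a2150262841e60a17659957f1820aba263255d2da07b1899cc2b9609545ac51d9150e5147b4dc8131eb0e2c752da74522b17a64ee9b3485432231001cb23901004ac09 (k8 c13906 c15019 c751 c4461 c2319 c63 c83 c12975 (k8 c2775 c308 c15079 c13396 c804 c6033 c1071 c8877 (k8 c2244 c2776 c967 c92 c11025 c4487 c4958 c7465 (k8 c7061 c15080 c13532 c15082 c4405 c13785 c438 c4403 (k8 c4530 c4286 c306 c4420 c6781 c2885 c2926 c228 (k8 c703 c15086 c4426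 c1670 c7662 c7641 c2127 c15085 (k8 c4488 c5760 c6715 c8140 c573 c14143 c4447 c4465 (k8 c4478 c4439 c4321 c15084 c4386 c4352 c4353 c12954 (k8 c304 c7077 c14520 c542 c342 c343 c2413 c4532 (k4 c4324 c934 c1341 c14540 (k2 c5931 c7768 k0))))))))))) (by decide +kernel)
def c15088 : PP 8 4 T 0x101000000000040000001500014045500040100040008000000000000000054100 := rS 0xdec9 (k2 c10573 c10992 (k1 c13523 k0)) (by decide +kernel)
def c15089 : PP 8 4 T 0x1000100001002000040000001500010045101100100120000010000005000000040808 := rS 0x4b2483822277e9fe185f4f8acce53238b4a28f118800e591c958126b8929c4a2f (k8 c8877 c2243 c14691 c4469 c4442 c13906 c15019 c2319 (k8 c63 c83 c12975 c2775 c15082 c4405 c4286 c4404 (k8 c4290 c2926 c2244 c7077 c12467 c4486 c554 c14102 (k4 c4324 c342 c15088 c2247 (k2 c1333 c13318 k0))))) (by decide +kernel)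
def c15090 : PP 8 4 T 0x100000000002000000000000020010002000000000161040000001000000200000808 := rS 0x3e9241a116483d465d1b4340e55 (k8 c306 c83 c4328 c887 c2790 c2942 c6403 c7497 (k4 c2267 c1408 c322 c1651 (k1 c10107 k0))) (by decide +kernel)
def c15091 : PP 8 4 T 0x100100001000000000000000420000054100000000000000000040000000004000808 := rS 0x5f2de289f48b2d42a726ac480168ca15027884224e66422894ce615ab05163b439451ed31cd2cc6a9119ae243316b90263d61c58ea5b4e8a440072c8ad32774d9a4ac15048c4322f (k8 c8877 c308 c228 c13906 c15079 c15019 c13396 c804 (k8 c6033 c1071 c2244 c63 c83 c12975 c2776 c967 (k8 c92 c11025 c4487 c4958 c7465 c7061 c15080 c4286 (k8 c942 c4469 c4442 c2775 c6029 c820 c4458 c2319 (k8 c13532 c15082 c4405 c13785 c4403 c5853 c4420 c4419 (k8 c2885 c2926 c2243 c438 c4478 c1648 c556 c4485 (k8 c8505 c4439 c4321 c4447 c14867 c4472 c2606 c3897 (k8 c14691 c900 c2026 c15090 c7077 c15089 c4353 c13260 (k1 c10725 k0))))))))) (by decide +kernel)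
def c15092 : PP 8 4 T 0x22000000000000040000000001000000000100000501400010000000000400014000 := rS 0x1065d (k2 c12418 c9038 (k1 c9576 k0)) (by decide +kernel)
def c15093 : PP 8 4 T 0x1002000000000000000414000000100000000000010000005445400008800 := rS 0x96492991c5a51 (k4 c4405 c4286 c4404 c4290 (k2 c2247 c1333 (k1 c13318 k0))) (by decide +kernel)
def c15094 : PP 8 4 T 0x1000000001002000040000000000010001101100000100000010000005000000000808 := rS 0x31065d078444efd8617d3e6d15a3c72095488c40072c958d6a58929c4a2f (k8 c8877 c2243 c14691 c4469 c4444 c4442 c15019 c63 (k8 c83 c12975 c2775 c6029 c13906 c2319 c15082 c2244 (k8 c9753 c7077 c12467 c4486 c14102 c4324 c342 c15093 (k4 c12418 c9038 c4463 c9530 k0)))) (by decide +kernel)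
def c15095 : PP 8 4 T 0x100200000002000040000000400000012100000000000000000000000000200000808 := rS 0x2235130d83a07 (k4 c83 c791 c887 c886 (k2 c1035 c2267 (k1 c10817 k0))) (by decide +kernel)
def c15096 : PP 8 4 T 0x100000001000000000000000400000054100000000000000000040000000004000810 := rS 0x5f2de289f48b2d42a742a049a163c1011273824495233a5ab11e87699445a3b7222d82b5098f587163a96c2a454d9a53277178ac6219128e452234e88004010481cb256 (k8 c15019 c63 c83 c13906 c751 c4461 c12975 c967 (k8 c2775 c2776 c2319 c2243 c308 c228 c2244 c8877 (k8 c6033 c1071 c13396 c804 c438 c15079 c92 c11025 (k8 c4487 c4958 c7465 c7061 c4419 c4420 c5853 c15080 (k8 c4403 c4286 c4405 c13532 c13785 c15082 c15087 c4458 (k8 c942 c6029 c4469 c15091 c4408 c4314 c14143 c8505 (k8 c1846 c3897 c3762 c2548 c14691 c900 c2026 c15095 (k4 c7077 c15094 c4353 c13260 (k1 c10725 k0))))))))) (by decide +kernel)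
def c15097 : PP 8 4 T 0x800001000000000040000000000000000001100001100400010000000405400014000 := rS 0x18832eaa4d6a5 (k4 c4444 c4442 c4345 c12418 (k2 c9038 c4463 (k1 c9530 k0))) (by decide +kernel)
def c15098 : PP 8 4 T 0x100000000000000000000000000010002000000000001040000002000200200140808 := rS 0x2483422c907ae546368681cfa473fc11ca55 (k8 c2249 c4286 c4464 c4313 c8078 c7516 c83 c4328 (k8 c887 c2942 c1206 c6403 c7497 c2267 c1408 c2274 (k1 c11938 k0))) (by decide +kernel)
def c15099 : PP 8 4 T 0x20000001000000040000000040001500000000000001401400002001641405554000 := rS 0x31d44cd541ad58d028b06304d898c9065d34a2d0e897289d0308 (k8 c4465 c4439 c4324 c4286 c7314 c7313 c5853 c13396 (k8 c12418 c4570 c14523 c12516 c376 c4488 c4450 c1684 (k8 c2109 c457 c2048 c15092 c1484 c948 c461 c12403 k0))) (by decide +kernel)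
def c15100 : PP 8 4 T 0x1000000001000000040000000040001001500000000001000000042001641404450800 := rS 0x5131d58d028b0630cda2aa17abf370d41cbb40c200e454c9dc128b43a24a6152ab954e9b34864be592b09d4b0c (k8 c4486 c4385 c4324 c15019 c63 c12467 c308 c13396 (k8 c804 c13601 c4286 c2249 c15079 c332 c7314 c7313 (k8 c5853 c13906 c6033 c1071 c438 c83 c4465 c4439 (k8 c10310 c15099 c1330 c305 c6330 c1079 c2126 c4398 (k8 c1484 c4493 c4450 c1684 c2109 c457 c461 c948 (k1 c12403 k0)))))) (by decide +kernel)
def c15101 : PP 8 4 T 0x1000000040000000000501001501002400100400000160000405400010800 := rS 0x17abf370d41cfd5d935026d03aa4d7128ca6d3256 (k8 c15019 c1071 c804 c4447 c4488 c4442 c4345 c83 (k8 c9753 c3762 c3897 c10310 c14102 c15097 c1330 c305 (k2 c6330 c1079 (k1 c2126 k0)))) (by decide +kernel)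
def c15102 : PP 8 4 T 0x1000000001000000040000000040000001100000000000000000042000200004040808 := rS 0x41429e02c115289e185f53914ee9b348bc56310c894c29d4788c40072c8e4ac09 (k8 c13906 c15019 c2319 c63 c83 c12975 c2775 c15082 (k8 c967 c2885 c2243 c308 c228 c2244 c8877 c13396 (k8 c804 c6033 c438 c13601 c12467 c4486 c4324 c4385 (k4 c342 c15100 c572 c2548 (k2 c15101 c573 k0))))) (by decide +kernel)
def c15103 : PP 8 4 T 0x2000000001000000040040000000000000000001000000000000440100200004150900 := rS 0x271209a4b41b257c7b229dcfa7f82394aa0f1ba141a7140c202e19 (k8 c308 c572 c4465 c4439 c4387 c568 c6224 c4386 (k8 c304 c2249 c4286 c4464 c4313 c7516 c6033 c438 (k8 c703 c14520 c10573 c4570 c1324 c9875 c2107 c2108 (k1 c2420 k0)))) (by decide +kernel)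
def c15104 : PP 8 4 T 0x2000000001000000040000000000000001100001000000000000042000200004040810 := rS 0x689455a41542954e4f2e17dfa1040c202e454d9a5327730a7516870ca24a68f118800e591caed7a26069c41e0200958127d239fe08e50a9558e37 (k8 c4386 c330 c2249 c15079 c4286 c4464 c4313 c8078 (k8 c7516 c13906 c15019 c751 c4461 c304 c4387 c568 (k8 c12099 c4354 c4390 c2319 c63 c83 c12975 c2775 (k8 c15082 c332 c7314 c308 c7313 c5853 c967 c2885 (k8 c6033 c1071 c13396 c804 c438 c572 c4465 c4439 (k8 c15103 c4300 c542 c343 c2413 c4532 c1341 c14540 (k4 c7048 c2954 c1685 c457 (k1 c2109 k0)))))))) (by decide +kernel)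
def c15105 : PP 8 4 T 0x1000000040000000040000001100000000000000000042000200004040810 := rS 0x5393d4aa91993624168c9e04c0d6383ce2378a11536694c9dc322f12a744002008240e592b1f48e7f82394aa15 (k8 c15079 c2249 c4286 c4464 c4313 c8078 c7516 c15019 (k8 c63 c83 c13906 c751 c4461 c12975 c967 c2243 (k8 c8877 c308 c6033 c1071 c13396 c804 c438 c15102 (k8 c4386 c4387 c304 c330 c568 c12099 c15104 c4447 (k8 c14867 c4488 c1991 c4340 c4345 c4444 c448 c14691 (k1 c14540 k0)))))) (by decide +kernel)
def c15106 : PP 8 4 T 0x400000000000000000000000000004000000042001500054000000000001401002000000005540000 := rS 0x304a11868b362745 (k8 c4398 c4345 c1484 c5846 c4488 c2109 c4450 c1684 k0) (by decide +kernel)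
def c15107 : PP 8 4 T 0x1100000000000000000000460040001511154000000000001401002000000005540000 := rS 0xa2d166b068abc54a9618cf47d0d6aa7 (k8 c13601 c164 c4394 c1476 c1525 c4486 c4385 c15106 (k4 c2126 c4454 c2021 c6588 (k2 c5846 c1684 (k1 c2109 k0)))) (by decide +kernel)
def c15108 : PP 8 4 T 0x1000000001000000080000450000001481100000400001000400002000200000100800 := rS 0xa2d1a5b055b1865a8e8b42542d57a8f529ba180e2d81d32c53e91dca55589596ea7 (k8 c13601 c1165 c15019 c1147 c2249 c4286 c8078 c7516 (k8 c1252 c1071 c83 c92 c11808 c6403 c305 c4385 (k8 c1346 c1079 c1347 c2126 c4793 c4398 c4393 c4425 (k4 c4493 c948 c8361 c8864 (k2 c457 c1684 (k1 c4475 k0)))))) (by decide +kernel)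
def c15109 : PP 8 4 T 0x1100000001000000080000440000001091100000000001000400002000200005140800 := rS 0x2a224bd8ca94f10c0b23ce2b853a6cd2993b824acaf45a1d127f82394aa49 (k8 c4281 c2249 c4286 c4464 c4313 c7314 c7313 c5853 (k8 c4631 c15019 c13906 c6033 c1071 c13396 c804 c13601 (k8 c15108 c1473 c1476 c15107 c4486 c572 c4385 c4447 (k4 c2017 c4488 c2126 c4345 k0)))) (by decide +kernel)
def c15110 : PP 8 4 T 0x100000001000000000000000400000014100000000000000000040000000004000810 := rS 0x2b148d0549442ec13cc6226a76797d3f437eb218e0f5e8dd1f145faec6a4925b49227f44c110e8b29955ca13508f0583b57a593a610e88004592d8042a0722a6cd2993b8641256 (k8 c15019 c13906 c308 c6033 c1071 c13396 c804 c438 (k8 c83 c15079 c751 c92 c63 c4461 c12975 c791 (k8 c2885 c967 c15096 c4631 c1043 c926 c927 c2904 (k8 c571 c4286 c2249 c332 c5853 c7313 c4464 c7314 (k8 c4313 c15098 c15105 c4375 c4281 c4373 c6870 c6330 (k8 c15109 c4388 c4386 c4354 c304 c330 c11768 c4305 (k8 c4422 c1665 c547 c1792 c4532 c13260 c4488 c4447 (k8 c4450 c572 c1684 c15106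 c2109 c2126 c457 c2053 k0)))))))) (by decide +kernel)
def c15111 : PP 8 4 T 0x8000000001001000000004000400001004140001100000001000041000000004000804 := rS 0x1a02b29b10744039a24c7043687c2a7b229dc129b3495826c143c202e19 (k8 c308 c572 c4465 c4440 c4420 c570 c15019 c13396 (k8 c804 c13906 c6033 c438 c703 c15079 c1065 c9753 (k8 c4464 c12253 c7030 c4408 c14143 c14157 c9460 c2034 (k2 c1640 c15020 (k1 c14087 k0))))) (by decide +kernel)
def c15112 : PP 8 4 T 0x100001000000000005000400000554050001500040001500140404010005540000 := rS 0x2b462ab328ada07234a750f08 (k8 c4465 c4440 c15070 c13396 c8505 c2109 c13701 c1648 (k4 c1670 c300 c6230 c7662 k0)) (by decide +kernel)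
def c15113 : PP 8 4 T 0x100001000000000000000020000000020000000140000000000000040000400020 := rS 0xc831 (k2 c2047 c6230 (k1 c13996 k0)) (by decide +kernel)
def c15114 : PP 8 4 T 0x100100001002000000000000000000554020000000140000000141004040000400020 := rS 0x803056a7586c18b0ec52ab (k8 c1945 c4402 c4403 c4487 c4420 c4958 c15070 c15113 (k2 c7662 c13209 (k1 c1912 k0))) (by decide +kernel)
def c15115 : PP 8 4 T 0x100100001002000000000000400000554000001500000001000141000000005540020 := rS 0x3056190c62a441a4666745b0d8316298eca229 (k8 c4402 c4405 c4403 c4290 c4487 c4420 c4958 c13509 (k8 c654 c430 c13396 c15112 c15114 c1606 c4904 c4794 (k2 c13996 c2046 k0))) (by decide +kernel)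
def c15116 : PP 8 4 T 0x100000001000000000000000400000054100001000000000000040000000004000800 := rS 0x112738231476e443c202e153da6cd2032aa2d3a33228f442042cb0d32770c82426752d9598316 (k8 c4487 c4420 c15019 c92 c11025 c570 c13906 c308 (k8 c6033 c1071 c4958 c63 c15110 c311 c11368 c438 (k8 c430 c15070 c13509 c12210 c55 c13396 c804 c703 (k8 c15079 c572 c4465 c4440 c15111 c4403 c4530 c15115 (k2 c4408 c4314 (k1 c9460 k0)))))) (by decide +kernel)
def c15117 : PP 8 4 T 0x1000000000000000000000100000002000000000000140004000000000820 := rS 0x2c31 (k2 c14518 c14867 (k1 c6343 k0)) (by decide +kernel)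
def c15118 : PP 8 4 T 0x11000000001000000040000000000000001100000000400000000040000000004000820 := rS 0x5eafcdc4f082a624403680d620f4ea14c2a74d9a576818405cf2334c9dc8a1952c311e0d2f8e438212c824b656 (k8 c15019 c92 c13906 c63 c311 c6846 c1139 c12467 (k8 c528 c4656 c4486 c4385 c308 c438 c6033 c1071 (k8 c430 c15117 c572 c4465 c4439 c10310 c13396 c804 (k8 c13601 c880 c4321 c15070 c12199 c12219 c55 c9753 (k8 c4472 c4488 c4345 c14495 c446 c7962 c1054 c1079 (k1 c2126 k0)))))) (by decide +kernel)
def c15119 : PP 8 4 T 0x1002000000400404022000000400000000000000010001505000000000000 := rS 0x172b51a8dc92ce511384447 (k8 c4404 c6029 c14588 c948 c949 c8354 c1409 c1491 (k2 c1435 c1525 (k1 c7430 k0))) (by decide +kernel)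
def c15120 : PP 8 4 T 0x40000000000000400000001002000040000400004501081500000000000400000001505000005404004 := rS 0x9c105e2a49acb172b0da9b34a64ee09429acc2565baed0308 (k8 c4465 c4439 c10310 c1165 c15019 c880 c6097 c4321 (k8 c13906 c6033 c1071 c13396 c804 c9753 c4785 c4469 (k4 c2026 c1992 c15119 c11945 (k2 c14495 c7460 (k1 c446 k0))))) (by decide +kernel)
def c15121 : PP 8 4 T 0x40000000000001000000001000000040000000004000081100000000000000000041001000004000820 := rS 0x6f082f153125fc614b0c47834bea71c984da9b3480d620f0e084b25b4ea050b08720fe2e3b16854d6173c8cd32770c824ac45 (k8 c438 c15019 c13906 c308 c6033 c1071 c430 c15117 (k8 c572 c6097 c15079 c390 c1044 c4360 c398 c4471 (k8 c4465 c4321 c4439 c15070 c92 c63 c311 c6846 (k8 c12199 c12219 c55 c13396 c804 c9753 c880 c1139 (k8 c13601 c12467 c528 c4656 c4486 c4385 c15118 c4369 (k4 c15120 c4345 c7959 c14495 (k2 c1079 c7962 k0))))))) (by decide +kernel)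
def c15122 : PP 8 4 T 0x1100000001000000040000000400000084100000000000000000041000000004000820 := rS 0x2267582ab4fa491ab25f80d51844463986a4136690183c38212c96cc6c54ed2d5631681451273098a4ce878422ca6e41fc5c762d0a85cf2334c9dc125622864aaaf (k8 c4631 c12210 c308 c438 c15019 c13906 c6033 c1071 (k8 c430 c15117 c572 c15079 c390 c1044 c4360 c398 (k8 c4471 c4290 c13509 c4465 c4440 c654 c4604 c531 (k8 c1084 c7172 c4405 c2109 c301 c1671 c4426 c15070 (k8 c1252 c817 c92 c63 c311 c6846 c12199 c55 (k8 c13396 c804 c15121 c4328 c12221 c769 c12756 c9264 (k8 c529 c4463 c10573 c7808 c4209 c4379 c10107 c9269 (k2 c10883 c9491 (k1 c4491 k0))))))))) (by decide +kernel)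
def c15123 : PP 8 4 T 0x40000000000002400000001000000040000000104000080100001000000000000041405000024004804 := rS 0x14ea52f89420fd172fe305b3da6cd2993b8253a458405c32e41f8562e8f1caf4c25613a441a71 (k8 c4387 c568 c4352 c872 c15019 c880 c4354 c4348 (k8 c4388 c4360 c15079 c398 c4471 c308 c572 c4465 (k8 c438 c15070 c13906 c6033 c1071 c13396 c804 c703 (k8 c92 c4488 c5760 c4469 c8862 c14587 c4115 c543 (k2 c1843 c4532 (k1 c15120 k0)))))) (by decide +kernel)
def c15124 : PP 8 4 T 0x40000000000006800000001000000000059000400401000140040000000001000440000000004044800 := rS 0x649f49211672e09cbe0a91536694c9dc32092b2441a7154a9596bd (k8 c4354 c2028 c4444 c4345 c4387 c568 c4352 c15019 (k8 c13906 c308 c6033 c1071 c13396 c804 c438 c15079 (k8 c13260 c14540 c1215 c4572 c446 c453 c1356 c1792 (k1 c2107 k0)))) (by decide +kernel)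
def c15125 : PP 8 4 T 0x40000000000016800000001000000040010000400001000140040000000001000041400004004044800 := rS 0xd4de4912044ba4ba2c354c236593584404d9a532770c8248ec760945c83f0a91472375e9852256069c552a5 (k8 c4444 c4345 c4387 c568 c15019 c4352 c880 c4354 (k8 c4386 c4348 c438 c15079 c398 c4471 c4405 c6869 (k8 c4289 c4404 c13906 c308 c6033 c1071 c13396 c804 (k8 c4472 c4494 c1994 c2028 c14758 c15124 c4330 c4453 (k8 c1857 c812 c7312 c4467 c4599 c9688 c1369 c10113 k0))))) (by decide +kernel)
def c15126 : PP 8 4 T 0x100000001000000040000000400000084100000000000000000041000000004000820 := rS 0x5e08435fabf8c29553123f8344e6138af5228f8a0c5574b68144a6e41f9ed366901ac41e554587042592dabc76c54ea1e101744c5cf2334c9dc32453984c52092b0b4ce15 (k8 c15079 c654 c390 c15019 c13906 c4604 c531 c1084 (k8 c438 c308 c6033 c1071 c430 c15117 c4360 c7172 (k8 c572 c4465 c4440 c15070 c1252 c1044 c4631 c92 (k8 c63 c311 c6846 c13509 c12210 c12199 c12219 c55 (k8 c13396 c804 c703 c398 c4471 c4290 c4405 c2109 (k8 c4426 c1671 c301 c15122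 c4388 c4352 c4354 c4387 (k8 c880 c872 c568 c10049 c15123 c4345 c4444 c15125 (k4 c4369 c8862 c8237 c14587 (k2 c6348 c543 k0))))))))) (by decide +kernel)
def c15127 : PP 8 4 T 0x1400000001000000000000000040001001150000000000001400002024000105540000 := rS 0x135522e18b40a24f60afe30993b8250f0853a6cd256 (k8 c15019 c13396 c804 c13601 c4465 c4440 c13906 c6033 (k8 c1071 c4488 c5760 c4450 c1491 c1684 c2109 c301 (k4 c4469 c14588 c1992 c14790 k0))) (by decide +kernel)
def c15128 : PP 8 4 T 0x1000000001001000040000000000000081110000000000000000042000000004000820 := rS 0x5e2fcdd187e9ad53121a1c46ec712c311e0d2fa9d6e394d9a5620f4587042592da755e8142c202e7919a64ee450c94c543f3e91cff04098a412561699caa15 (k8 c15079 c12210 c654 c390 c15019 c13906 c4604 c531 (k8 c4464 c4313 c8078 c7516 c398 c11783 c332 c308 (k8 c438 c6033 c1071 c430 c15117 c572 c4465 c4321 (k8 c4439 c4631 c15070 c92 c63 c311 c6846 c13509 (k8 c12199 c12219 c13396 c804 c1139 c1165 c13601 c12467 (k8 c528 c4656 c4486 c4381 c290 c12621 c7095 c4470 (k8 c15127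 c4345 c4442 c14102 c15118 c4480 c4369 c9059 (k1 c1079 k0)))))))) (by decide +kernel)
def c15129 : PP 8 4 T 0x1000000001001000040000000000000090110000000000000000042000000004000820 := rS 0x1256ca1122886a611383422231cc35202a1f80c1e550e084b25b098a412561699c2a47 (k8 c8078 c15079 c654 c390 c15019 c13906 c4604 c531 (k8 c92 c63 c311 c6846 c12210 c12199 c55 c398 (k8 c11783 c15128 c4328 c12221 c769 c12756 c529 c350 (k8 c614 c7808 c12223 c4467 c161 c939 c283 c1742 k0)))) (by decide +kernel)
def c15130 : PP 8 4 T 0x1000000040000000100500000401100001101400000000085000000404004 := rS 0x5408c226b (k4 c6097 c319 c1409 c14495 (k1 c6029 k0)) (by decide +kernel)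
def c15131 : PP 8 4 T 0x1000000001000000040000000040000001110000000000000000042001000004040820 := rS 0xdcbc7eaa62434388dd4b0c47afc1b182fa9c726136855366901ac41e554587042592da7502858414cd6173c8cd32770c824ac45 (k8 c438 c15019 c13906 c308 c6033 c1071 c430 c15117 (k8 c572 c6097 c332 c4465 c4321 c4439 c15070 c92 (k8 c63 c311 c6846 c13509 c12210 c12199 c12219 c55 (k8 c13396 c804 c15079 c9753 c880 c1139 c13601 c12467 (k8 c15118 c528 c4369 c4656 c4486 c4385 c15130 c7095 (k4 c4470 c15127 c4345 c14102 (k2 c9059 c4480 (k1 c1079 k0)))))))) (by decide +kernel)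
def c15132 : PP 8 4 T 0x1000000001000000040000000400000090100000000000000000042000000004000820 := rS 0x104249d46c7d5b8d592fc5183422231cc35203168145c80307955161c10964b6af43c202e898b9e466993b8648a73098a412561699c2a53 (k8 c332 c15079 c654 c390 c15019 c13906 c4604 c531 (k8 c1084 c438 c308 c6033 c1071 c430 c15117 c4360 (k8 c7172 c572 c4465 c4440 c4631 c92 c63 c311 (k8 c6846 c13509 c12210 c12199 c55 c15129 c4405 c2109 (k8 c301 c15131 c4328 c12221 c769 c12756 c529 c9264 (k8 c4463 c10573 c7808 c1166 c4379 c4470 c10194 c323 (k2 c10368 c9269 k0))))))) (by decide +kernel)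
def c15133 : PP 8 4 T 0x2400000001000000040000000100000080150001000000001000042004000024044800 := rS 0x14aa9560c5574b53a7da05f27894a2107eb057f182d854f69b34a64ee094e9155e878405c324729af4c25613a441a71 (k8 c4387 c568 c4352 c872 c15019 c880 c4354 c332 (k8 c8078 c308 c572 c4465 c4440 c4631 c438 c15070 (k8 c13906 c6033 c1071 c13396 c804 c703 c15079 c92 (k8 c4488 c5760 c4450 c8862 c14587 c1684 c4115 c446 (k8 c543 c2109 c11480 c4532 c4426 c1671 c301 c4785 (k2 c14588 c2053 (k1 c14540 k0))))))) (by decide +kernel)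
def c15134 : PP 8 4 T 0x12900000001001000000040000400000080100000000000000400440000000004000820 := rS 0x1924908a8c974586a9996c2a5b4182513e8a87e0f2aa2d8a878405d1279098a45a8f5b9844e1c10964b6a13f9c62e73338555623269017aa54d9a552993b86412564e8cd2245 (k8 c438 c4352 c430 c15070 c15019 c13906 c308 c6033 (k8 c1071 c4345 c13396 c804 c4444 c4354 c4472 c1994 (k8 c14758 c4445 c15079 c654 c1084 c4360 c4387 c10049 (k8 c898 c92 c63 c311 c6846 c872 c880 c4353 (k8 c4388 c390 c4604 c531 c15117 c7172 c572 c4465 (k8 c4440 c1252 c13509 c12210 c12199 c398 c11783 c7516 (k8 c1644 c6869 c2109 c4426 c4494 c2028 c15124 c4330 (k4 c4453 c1857 c13651 c7312 (k2 c4599 c7497 (k1 c12184 k0)))))))))) (by decide +kernel)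
def c15135 : PP 8 4 T 0x12900000001000000040040000400000080100000000000000400440000000004000820 := rS 0x2f9bc225d86a99854b68304a2e411934807b4d9a41e5545b153a8543c202e893c8cd32770c914262916af4c2274887042590496cac7f38c5ce6670aaa462a5 (k8 c4444 c4441 c4345 c15079 c654 c1084 c4360 c4387 (k8 c10049 c15019 c92 c13906 c63 c311 c6846 c4352 (k8 c872 c880 c4354 c390 c4604 c531 c438 c308 (k8 c6033 c1071 c430 c15117 c7172 c572 c4465 c4440 (k8 c4321 c15070 c1252 c13509 c12210 c12199 c13396 c804 (k8 c703 c4472 c1994 c14758 c15134 c4405 c6869 c2109 (k8 c4426 c4494 c15124 c4330 c812 c7312 c9688 c14743 (k1 c14744 k0)))))))) (by decide +kernel)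
def c15136 : PP 8 4 T 0x100000001000000040000000400000014100000000000000000040000000004000800 := rS 0xbc107ec357f1852aa6240d139858e715ea446e8f8a14c8e3c3da6cd2b107955161c10964b69d8405d13173984c52963c8cd32770c91412561699c2a04 (k8 c15110 c15079 c654 c390 c15019 c13906 c438 c308 (k8 c6033 c1071 c430 c15117 c15116 c4604 c531 c1084 (k8 c4360 c7172 c572 c4465 c15070 c92 c63 c311 (k8 c6846 c13509 c12210 c12199 c12219 c13396 c804 c703 (k8 c15126 c8078 c332 c15132 c4388 c4386 c4352 c4354 (k8 c4387 c330 c880 c872 c568 c15133 c4345 c4444 (k4 c15135 c4369 c8237 c8862 (k2 c14587 c6348 (k1 c543 k0))))))))) (by decide +kernel)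
def c15137 : PP 8 4 T 0x1100000000001000080000440140011510154000000000001400002000000005544040 := rS 0x2457049 (k4 c4281 c11808 c1206 c15107 k0) (by decide +kernel)
def c15138 : PP 8 4 T 0x100000001000000000000000400000014100000000000000000040000000004000800 := rS 0x5d86a9152a76797e86fd6431d7a911bc50a6bf3fa3d42bb3e8f05461238d4460d248e4224b72b48268943a04e63b14c5d5f084b05cf29d0e22caa671683c662158810b25b0081c7e1522a6cd2993b8641256 (k8 c15019 c13906 c308 c6033 c1071 c13396 c804 c438 (k8 c15079 c398 c83 c751 c92 c63 c15110 c12219 (k8 c311 c430 c12199 c390 c654 c12210 c13509 c6846 (k8 c15070 c15117 c572 c15116 c4465 c4631 c4360 c4604 (k8 c1044 c1084 c4439 c4440 c7172 c531 c15136 c6832 (k8 c4375 c4276 c4280 c4281 c4371 c4372 c4373 c4374 (k8 c5402 c11783 c4471 c7516 c6870 c1734 c4656 c7517 (k8 c6330 c332 c15137 c4386 c4352 c4354 c330 c12184 (k8 c4305 c4422 c547 c1792 c4532 c15106 c14750 c4385 (k2 c1341 c4477 k0)))))))))) (by decide +kernel)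
def c15139 : PP 8 4 T 0x1000000001002000060000000000010001501100080120000000000005400000400808 := rS 0x32422486709cfefd26430bea72ca6cad05 (k8 c4408 c15019 c804 c63 c13601 c12467 c4486 c15094 (k8 c14380 c554 c4324 c381 c380 c342 c3737 c8735 k0)) (by decide +kernel)
def c15140 : PP 8 4 T 0x100000000000000000040000000010002000000000021040000401000000200140808 := rS 0x7f649f4920d0883d465d1b4340e55 (k8 c306 c83 c4328 c887 c2790 c2942 c6403 c2267 (k4 c1408 c322 c1651 c7497 (k2 c555 c2107 k0))) (by decide +kernel)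
def c15141 : PP 8 4 T 0x1000000001002000000000000040010001500000080060000000000005440005500808 := rS 0x689ad568b3b8250e692a8f45a5169a050b08 (k8 c4465 c4321 c4439 c13532 c4405 c4286 c3585 c306 (k8 c13396 c1653 c13906 c6033 c1771 c5962 c6097 c15139 (k1 c13069 k0))) (by decide +kernel)
def c15142 : PP 8 4 T 0x100000001000000000000000000000000040000000064001500000008140005540000 := rS 0x1a28956c4d0e69 (k4 c13396 c1653 c4340 c942 (k2 c4794 c6715 (k1 c2109 k0))) (by decide +kernel)
def c15143 : PP 8 4 T 0x2000000001000000040000000000101000100005000401000000140104401405415010 := rS 0x4e1313496832e9bd7c6d2b1a4ee0940a161071 (k8 c4387 c4465 c4321 c4439 c13906 c6033 c13396 c15019 (k8 c9753 c14520 c10992 c12418 c4570 c1324 c9875 c14482 (k2 c2108 c448 k0))) (by decide +kernel)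
def c15144 : PP 8 4 T 0x100000001002000000000000040011001100001080065000000040001441404000818 := rS 0xa72797dfa100683ce23752c50d6a9890cc2e7b22a6cd299459dca70509854aa3d169451ed30c8e4ac09 (k8 c13906 c15019 c2319 c308 c13532 c15082 c4405 c4286 (k8 c3585 c306 c15079 c1561 c4408 c9747 c6033 c1771 (k8 c1071 c13396 c804 c438 c703 c572 c15142 c4469 (k8 c6029 c6097 c15141 c4444 c4386 c4387 c304 c568 (k4 c15143 c4300 c542 c2413 (k2 c4532 c14540 k0)))))) (by decide +kernel)
def c15145 : PP 8 4 T 0x100000001000000000000000400000010100000000000000000040000000004000800 := rS 0x5f138449ca78a295523326a050b122005a327848a3c7205158c44a61118085e204e8758ad3638ec8ee41e84e0a67579d54263321c92e924ca6cee6922864b25b0f9581215 (k8 c15079 c13906 c15019 c1065 c92 c63 c308 c438 (k8 c13396 c6033 c804 c1071 c15138 c158 c1069 c1070 (k8 c1609 c1739 c1657 c1779 c920 c4408 c1561 c3585 (k8 c7079 c4404 c4403 c4289 c13532 c4530 c1029 c1238 (k8 c4466 c2777 c798 c2775 c2885 c313 c11577 c314 (k8 c311 c2319 c15082 c15140 c15144 c4447 c14867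 c4472 (k8 c4488 c2548 c3762 c3897 c4340 c4345 c4444 c15094 (k4 c14691 c14540 c2413 c449 (k2 c10439 c15101 k0))))))))) (by decide +kernel)
def c15146 : PP 8 4 T 0x100000001000000000000000400000554000000500040001000140004100005540088 := rS 0x64442b20a511db9056793d9a586c18b22ca6294e9ad5712178c50f08 (k8 c4465 c4440 c228 c8877 c4469 c4445 c4442 c15070 (k8 c795 c4712 c5853 c4487 c4420 c4958 c13396 c14312 (k8 c501 c226 c4468 c4403 c4405 c5806 c7662 c15112 (k2 c6230 c556 k0)))) (by decide +kernel)
def c15147 : PP 8 4 T 0x100001000000000005000400000004044000500440000000140000080004000090 := rS 0x88399907679 (k4 c501 c1640 c4191 c1021 (k2 c8505 c556 k0)) (by decide +kernel)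
def c15148 : PP 8 4 T 0x100000001000000000000000400000554000000500040000000140004100005540098 := rS 0xad1d995c82b829510f0834b0d8316458a53a6b55c485e31 (k8 c228 c8877 c4469 c4445 c4442 c15070 c795 c5853 (k8 c4487 c4420 c4958 c13396 c4465 c4440 c15146 c4406 (k4 c15147 c4468 c1646 c4403 (k2 c6230 c7662 k0)))) (by decide +kernel)
def c15149 : PP 8 4 T 0x100000001000000000000000400000554040000500140001000140005110004800088 := rS 0x19110ac828edc887159ccf27b61b062c9d35aae242f (k8 c8877 c4469 c4445 c4442 c15070 c4487 c4420 c4958 (k8 c14312 c501 c1022 c226 c1837 c4468 c4403 c5806 (k4 c7662 c8505 c6230 c556 k0))) (by decide +kernel)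
def c15150 : PP 8 4 T 0x100001000000000005000400000004040000500540000000140000080004000090 := rS 0x10c64 (k2 c4191 c15147 (k1 c1653 k0)) (by decide +kernel)
def c15151 : PP 8 4 T 0x100000001000000000000000400000554000000500040000000140004100005140098 := rS 0x568eccae415c14a816559ae249d179a462c360c591629 (k8 c795 c5853 c4487 c4420 c4958 c228 c13396 c8877 (k8 c15070 c4469 c4442 c4445 c15148 c15149 c4406 c15150 (k4 c4468 c1646 c4403 c6230 (k1 c7662 k0)))) (by decide +kernel)
def c15152 : PP 8 4 T 0x1100000000000000040000000000000055500000000008008000000100050020000000 := rS 0xd844b95a8edc82d (k8 c912 c4468 c4403 c7420 c6781 c15083 c12689 c1409 k0) (by decide +kernel)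
def c15153 : PP 8 4 T 0x1100000001000000040000000400000050100000100000001000040000000005040000 := rS 0xbb5893c6e5d1309506bf3788d2062440edc82b39884728f18b0d1629899015aa743c65831640a16109c190b4ee674d814b20249a642a1c3c9ec8a0605824da56 (k8 c15019 c9753 c13906 c15145 c4462 c3230 c14312 c501 (k8 c1017 c15079 c2997 c2996 c1018 c63 c526 c2765 (k8 c2924 c6033 c912 c15151 c952 c15054 c4321 c4439 (k8 c4487 c4420 c4368 c10171 c2909 c2948 c953 c4340 (k8 c795 c5853 c4958 c228 c12664 c3151 c799 c1022 (k8 c226 c4468 c4403 c8505 c4794 c15152 c2960 c2998 (k8 c1245 c9103 c11879 c12087 c2787 c320 c449 c1148 (k2 c1851 c9044 k0)))))))) (by decide +kernel)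
def c15154 : PP 8 4 T 0x100000001000000000005000410000004044000500040000000140000080004000090 := rS 0x883998c7679 (k4 c501 c1640 c1607 c1021 (k2 c8505 c4794 k0)) (by decide +kernel)
def c15155 : PP 8 4 T 0x1100000001000000040000000400000050100000100000000000040000000005040000 := rS 0xbb5893c6e5d1309506bf3788d206232b9057052a2150287844654ead4e102263214a2cda15108e4f29b47814b2673d914ee310130d322d0e3062c930302c1256 (k8 c15019 c13906 c15145 c4462 c2996 c4487 c4420 c1017 (k8 c912 c2997 c4958 c1018 c228 c6033 c3230 c14312 (k8 c2924 c63 c526 c12664 c2765 c501 c3151 c799 (k8 c15079 c9753 c5853 c795 c15151 c4340 c953 c952 (k8 c2948 c2909 c4368 c15054 c10171 c4439 c4321 c15153 (k8 c4406 c15154 c4468 c1646 c4478 c15152 c2960 c2998 (k8 c1245 c9103 c11879 c12087 c2787 c320 c449 c1148 (k2 c1851 c9044 k0)))))))) (by decide +kernel)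
def c15156 : PP 8 4 T 0x100000001000000000000000400000054100005400100000000140000000021080008 := rS 0x82324444d8a8b55b44c42856a1ce62b72954025604855362f188b58316 (k8 c4487 c4420 c912 c228 c8877 c2765 c15079 c13906 (k8 c15019 c751 c34 c4401 c1639 c1561 c1565 c4554 (k8 c4468 c794 c1761 c1573 c1769 c15020 c7641 c9460 (k2 c4469 c9478 (k1 c953 k0))))) (by decide +kernel)
def c15157 : PP 8 4 T 0x100000000002000040000005000000050100000000009001000000140054000008001 := rS 0x11c304aa31a1fc92c7 (k8 c4289 c242 c1456 c10839 c819 c1369 c11620 c1328 (k1 c7771 k0)) (by decide +kernel)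
def c15158 : PP 8 4 T 0x12000001000000000040000000000000000000105400000000000020000000000004080 := rS 0x27af8188337aec22b126af50a71 (k8 c4387 c13580 c4354 c1994 c4350 c608 c4390 c1020 (k4 c9038 c4463 c10474 c1487 (k1 c1054 k0))) (by decide +kernel)
def c15159 : PP 8 4 T 0x100001000000000040000005000000050100040000040002001000140154400000000 := rS 0x4b0d1a11d8ee4 (k4 c4468 c4289 c4404 c10839 (k2 c13212 c1369 (k1 c4467 k0))) (by decide +kernel)
def c15160 : PP 8 4 T 0x100000001000000040000000400000050100000100000000000040000000005000000 := rS 0x2853e4851950fe2307189fa8839b1c76e415a050e2784464e2bd5ba446ebb56a708114190a5161360ad45ac38b1b402154ca4c72794da3c0a593099c38023d9140c0b2b1a4ee09 (k8 c13906 c6033 c13396 c15019 c15145 c4462 c3230 c14312 (k8 c1018 c1017 c2924 c2883 c63 c526 c12664 c2765 (k8 c501 c3151 c2996 c2997 c15079 c751 c9753 c4487 (k8 c4958 c912 c7420 c4420 c15156 c5853 c795 c15151 (k8 c15155 c953 c952 c2948 c4390 c4386 c4352 c4353 (k8 c4354 c4387 c4368 c15054 c872 c10171 c4439 c15154 (k8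 c4468 c4403 c4289 c1021 c8505 c8859 c4794 c15158 (k8 c1328 c1455 c15157 c819 c15159 c1663 c11453 c5153 k0)))))))) (by decide +kernel)
def c15161 : PP 8 4 T 0x1802000000000000000000400000001001100001000100008000000000000000000080 := rS 0x5d37bf5785f53ac4da994da3c0a593087004a935a950285 (k8 c4321 c4439 c4444 c4442 c4345 c1018 c1017 c2883 (k8 c63 c526 c12664 c2765 c2997 c9753 c1147 c13601 (k4 c12467 c14750 c14102 c3000 (k2 c4628 c9304 k0)))) (by decide +kernel)
def c15162 : PP 8 4 T 0x1802000000000000040000400000011080100001000100008000000800000000000500 := rS 0x27129bd20590e008e606 (k8 c4462 c3001 c1018 c1017 c63 c15161 c2998 c11879 (k2 c12090 c12087 k0)) (by decide +kernel)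
def c15163 : PP 8 4 T 0x100000001001000040000000400000080140000000000000000041004000005000400 := rS 0x17dfaa63745210175f94984c1508e858994d984ce7b349dd5e291fa24f287821d6242f558ae2e1c02964e601188098a9d228181256 (k8 c15019 c13906 c4462 c3230 c15070 c1252 c1018 c228 (k8 c751 c3001 c63 c526 c1017 c4360 c7194 c14076 (k8 c8877 c4469 c499 c4481 c4410 c501 c7172 c11031 (k8 c777 c4631 c6033 c13396 c14312 c2924 c2883 c2765 (k8 c2997 c11783 c4471 c2901 c1581 c7274 c14226 c3036 (k8 c2030 c4465 c15162 c13974 c13260 c4378 c1377 c4532 k0)))))) (by decide +kernel)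
def c15164 : PP 8 4 T 0x1002000001002000000008000000000081100000000100000000040005000000000080 := rS 0x2408d9c4d25af6329f12af9770c2fa9d42274c8e4f29b478ae2e1c02964e60104a748b1217808ac53238b4a281 (k8 c4439 c4405 c4286 c4404 c4290 c15019 c1018 c8877 (k8 c4469 c3230 c15070 c13906 c751 c3001 c63 c526 (k8 c1017 c4360 c7194 c12664 c2765 c501 c3151 c2997 (k8 c872 c898 c13601 c12467 c4486 c10310 c15161 c225 (k8 c4384 c4369 c194 c1324 c9875 c1216 c7320 c13318 (k1 c1791 k0)))))) (by decide +kernel)
def c15165 : PP 8 4 T 0x1000000001002000040008000400000080100000100000000000040004000005440400 := rS 0x178b841b2d76b538845624f1a0dcba265b8941ea35f88cdf0d4821502d0841642a210e0e4f6693b8c404893c9fd0e7d2ac10e71745a748a0604958a651 (k8 c4405 c4290 c15019 c13906 c4462 c3230 c15070 c5853 (k8 c4360 c3001 c4481 c4406 c4409 c4410 c4313 c501 (k8 c7172 c1018 c228 c6033 c13396 c14312 c3151 c1017 (k8 c799 c15079 c63 c4465 c2109 c4439 c4321 c15164 (k8 c4328 c2998 c769 c1244 c9264 c12083 c11879 c1166 (k8 c12087 c2787 c320 c873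 c448 c1148 c343 c497 (k4 c7883 c1310 c1751 c4570 (k2 c4088 c2122 (k1 c1208 k0))))))))) (by decide +kernel)
def c15166 : PP 8 4 T 0x21821000000000000040000000100401101100000404000000000040140000104000088 := rS 0x268d0e2a9 (k4 c4345 c497 c4470 c14655 (k1 c14790 k0)) (by decide +kernel)
def c15167 : PP 8 4 T 0x1000000001002000040008000000000081100000400100000000041005000004000400 := rS 0x1249a3611974de4b5e2fe309f12c26185f53a844eb110a6472794da3cf62b8b8700a59398053a4554a96242f0101812562991c5a51 (k8 c4405 c4286 c4404 c4290 c15019 c13906 c4462 c1018 (k8 c8877 c4469 c4444 c4345 c3230 c15070 c751 c3001 (k8 c63 c526 c1017 c4360 c7194 c14312 c12664 c2765 (k8 c501 c3151 c2997 c799 c1147 c872 c898 c13601 (k8 c12467 c4486 c15164 c225 c4384 c4482 c4369 c7959 (k8 c1859 c3000 c4628 c792 c15166 c324 c322 c13318 k0)))))) (by decide +kernel)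
def c15168 : PP 8 4 T 0x1000000001002000040008000400000080100000000000000000041004000005040400 := rS 0xbc26a0df8bb38ac468372e89902851283d7e2337c3520162c88438393c9ecea693b8c4049d228181256 (k8 c15019 c13906 c4462 c3230 c15070 c1018 c228 c6033 (k8 c13396 c499 c14312 c501 c3151 c1017 c799 c63 (k8 c15165 c15167 c4328 c2998 c769 c1244 c12083 c11879 (k8 c7196 c1835 c12087 c2787 c320 c873 c1148 c497 (k4 c1310 c4480 c4306 c1990 (k2 c2122 c1040 k0)))))) (by decide +kernel)
def c15169 : PP 8 4 T 0x6100000000002000040000000000810000100000000000000000001000044000000008 := rS 0x341208e1a2f (k4 c8877 c4330 c2768 c4558 (k2 c13780 c1369 k0)) (by decide +kernel)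
def c15170 : PP 8 4 T 0x100000001000000040000000400000080100000000000000000041004000005040400 := rS 0x27c4a4911ae09a4b1a1397ca765a844ebd48c5184c1288b48e537229552c555c493a991ca6cce7b228bcee31578a47e2b0e014b20200959127943c10e7173a818128b (k8 c5853 c13906 c4462 c499 c4360 c3001 c4481 c4410 (k8 c501 c7172 c15019 c751 c1018 c63 c526 c1017 (k8 c7194 c11031 c777 c4631 c228 c6033 c8877 c3230 (k8 c14312 c2924 c2765 c3151 c2997 c15070 c4469 c14076 (k8 c1252 c4345 c4444 c15163 c4290 c4404 c4286 c4405 (k8 c6869 c7274 c15168 c4352 c4354 c872 c898 c2028 (k8 c15169 c13260 c14540 c6330 c1324 c9875 c1215 c1489 (k4 c453 c1369 c1395 c13318 k0)))))))) (by decide +kernel)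
def c15171 : PP 8 4 T 0x100000001000000040000000400000080100000000000000000041000000005040400 := rS 0x61b1582ad4e102263245871327b22958ee893ca1e08738b9d40c09 (k8 c13906 c4462 c499 c4360 c3001 c4481 c4410 c501 (k8 c7172 c6033 c15019 c3230 c14312 c2997 c1017 c5853 (k8 c15170 c4340 c953 c952 c2948 c1853 c3047 c9725 (k1 c2123 k0)))) (by decide +kernel)
def c15172 : PP 8 4 T 0x100000001000000040000000400000080100000000000000000041004000005000400 := rS 0xd1450b1ca1215c5c38052c9cc04012b0fc0c09 (k8 c13906 c4462 c11031 c15019 c751 c1018 c3001 c63 (k8 c526 c1017 c4360 c7194 c15171 c4401 c11783 c15163 (k2 c456 c14044 k0))) (by decide +kernel)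
def c15173 : PP 8 4 T 0x100000001000000040000000400000010100000000000000000041000000005000000 := rS 0x18a8b299022632608e9ca1243c1112738babd2c77349b47e1c3c9ec8a563a8181609 (k8 c13906 c15145 c4462 c499 c15019 c3230 c14312 c501 (k8 c1017 c11031 c9753 c13396 c6033 c15160 c4631 c4360 (k8 c3001 c7172 c4481 c4410 c15171 c4401 c8248 c1581 (k4 c15172 c4340 c953 c417 (k2 c11588 c3047 (k1 c14226 k0)))))) (by decide +kernel)
def c15174 : PP 8 4 T 0x100000001001000000005000000000004040004000000000000055000100002040008 := rS 0x531d8a8a229 (k4 c795 c1877 c4468 c1640 (k2 c2138 c12827 k0)) (by decide +kernel)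
def c15175 : PP 8 4 T 0x8100000001001000000014000400000514140005400040000000045000100002000008 := rS 0x154af312185089398ac2441008242e9d849b4acc1 (k8 c4420 c15019 c9753 c4436 c15054 c35 c13906 c751 (k8 c1872 c15174 c1639 c1561 c516 c4468 c9460 c794 (k2 c3511 c7276 (k1 c3506 k0)))) (by decide +kernel)
def c15176 : PP 8 4 T 0x100000001001000000000000400000050140004000000000000041000000002000080 := rS 0xa34b562ae245318900ec3f3ca6cce2f01314666d8b24d869916870acd1 (k8 c261 c15019 c1017 c912 c2997 c4958 c2996 c4487 (k8 c9753 c255 c7539 c1018 c8877 c2924 c2765 c501 (k8 c11031 c15175 c1023 c1912 c2034 c4469 c4445 c7641 (k2 c4458 c3781 (k1 c4475 k0))))) (by decide +kernel)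
def c15177 : PP 8 4 T 0x40000000000001900000000000000000010440020001555500000000000000000000000000000000000 := rS 0x16ca366d153ecb5e4314ea15cad552a5 (k8 c4444 c4345 c7420 c6781 c4551 c13601 c4486 c2126 (k4 c2026 c4384 c4454 c6588 (k2 c12510 c2125 (k1 c7551 k0)))) (by decide +kernel)
def c15178 : PP 8 4 T 0x40000000000001900000000000000040010440420001050100050100000008000000400000100000180 := rS 0xb738ac46e5d13094de904ca4c729b012e56a8f0e014b273 (k8 c1021 c63 c526 c1017 c12664 c7420 c6781 c1018 (k8 c2765 c3151 c2996 c2997 c15177 c2998 c11879 c12087 (k4 c2787 c320 c1148 c497 (k2 c7094 c4088 k0)))) (by decide +kernel)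
def c15179 : PP 8 4 T 0x100000001000000040000000400000050140004000000000000041000000102000080 := rS 0x3551891962753434e2b7488dd63143e9fc57042a98d0eac5fabd57125da0cec31a59cd12401494476537234412451ca6cce2f011d58a334ec24f26d5cb0d32b5478700a5960c592656 (k8 c15019 c2996 c4487 c4420 c63 c526 c1017 c12664 (k8 c7420 c2997 c4958 c6781 c9753 c501 c4436 c15054 (k8 c255 c7539 c499 c1018 c8877 c2924 c2765 c3151 (k8 c3230 c13906 c261 c15176 c4290 c4403 c4405 c4402 (k8 c14640 c2038 c1021 c7085 c1912 c1872 c3900 c3779 (k8 c4469 c5962 c5815 c3005 c7641 c7276 c7141 c4151 (k8 c4485 c226 c4313 c4409 c15178 c4350 c4386 c4352 (k8 c4353 c4387 c12606 c13260 c872 c14025 c4558 c941 (k2 c1369 c10783 k0))))))))) (by decide +kernel)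
def c15180 : PP 8 4 T 0x40000000000021900000000000000040010000420001050100000100020008000000400000100010180 := rS 0x1f0ba7f07a8c466f4826526394d8091e1c0296576bf (k8 c4369 c4449 c63 c526 c1017 c12664 c1018 c2765 (k8 c3151 c2996 c2997 c15177 c2998 c769 c938 c12083 (k4 c555 c12418 c15178 c1651 k0))) (by decide +kernel)
def c15181 : PP 8 4 T 0x20100000001001000040010000400001050180000000000000000051004010100000080 := rS 0x1209a4ba28d44ea65eadd22378a29552ac890c48ecb3231ca6111d95054091f914729b17808eab961a645ab5478700a5960c59274b559b4acbf (k8 c4369 c15019 c9753 c1673 c4427 c2996 c4487 c4420 (k8 c63 c526 c1017 c12664 c7420 c912 c2997 c4958 (k8 c6781 c499 c1018 c8877 c2765 c3151 c3230 c11031 (k8 c13906 c4468 c226 c1640 c2303 c2138 c2137 c227 (k8 c3683 c3703 c13201 c4469 c7662 c4345 c4444 c15180 (k8 c4386 c4352 c4353 c4354 c13260 c872 c10290 c4453 (k4 c1857 c13817 c2113 c4599 k0))))))) (by decide +kernel)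
def c15182 : PP 8 4 T 0x1000000000015000004001554080000000000000000000004020000000018 := rS 0x606b68ab4ca2f (k4 c8877 c1567 c2771 c1761 (k2 c564 c13950 (k1 c229 k0))) (by decide +kernel)
def c15183 : PP 8 4 T 0x100000001000000040000000400000050100004400000000100041000000102000080 := rS 0x50c463513a9a1abd5ba446ea18a2955264564482254828c5a03b29b917f18208247e451c99c5e755aa3d134b14aad14c18b30d3b093cb14666d4d8700a590124d3256 (k8 c15019 c2997 c2996 c1018 c63 c526 c1017 c2765 (k8 c9753 c255 c7539 c501 c4436 c15054 c4958 c4487 (k8 c4420 c15179 c1673 c15182 c4427 c187 c12664 c7420 (k8 c499 c8877 c2924 c3151 c3230 c11031 c13906 c1872 (k8 c4540 c4369 c15181 c4290 c4403 c14640 c13201 c4503 (k8 c12819 c2308 c4469 c7662 c4903 c4345 c4444 c15180 (k8 c3663 c4386 c4352 c4353 c4354 c12606 c13260 c872 (k4 c10290 c2768 c8226 c13800 k0)))))))) (by decide +kernel)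
def c15184 : PP 8 4 T 0x40000000000001900000000000000040010440420001050100000100000008000000000080100000180 := rS 0x3e174fe0f5188cde904c8e5368f0e014b23b49844c802 (k8 c1018 c227 c2303 c2996 c1640 c63 c526 c1017 (k8 c12664 c2765 c3151 c2997 c15177 c2998 c769 c938 (k4 c12083 c555 c12418 c15178 (k1 c1651 k0)))) (by decide +kernel)
def c15185 : PP 8 4 T 0x901000000000000040010440400001050180400100000008000000000080100000180 := rS 0x1bcfac92ea8d02a686a4628cb2a184cec34ca2696735626c38028b24d566d (k8 c9753 c1673 c2996 c4487 c1018 c1017 c2765 c7641 (k8 c1770 c4427 c187 c2997 c4958 c2924 c2883 c226 (k8 c3683 c15184 c4352 c12606 c13260 c1897 c941 c813 (k4 c7484 c1773 c9688 c14705 k0)))) (by decide +kernel)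
def c15186 : PP 8 4 T 0x40000000000001900000000000000040010440420001050110000140000008000000400000100040180 := rS 0x65829f9927d5b9c422b11b9744c2507a8cde904ca4c729b3380972b5478700a59 (k8 c63 c526 c1017 c12664 c7420 c6781 c1018 c2924 (k8 c2765 c3151 c2996 c2997 c15177 c2998 c938 c12083 (k8 c11879 c12087 c2787 c320 c1148 c343 c497 c7094 (k4 c8975 c10573 c15178 c10837 (k2 c555 c4903 k0))))) (by decide +kernel)
def c15187 : PP 8 4 T 0x100000001000000040000000400000050100000000000000000041000000004000000 := rS 0x1a924482313a9a1ab7488de283b09b9056ac892ed06315f900ec29289cd574b44a2982b516b0e2c214ca4c729b478700a5917808eac519a7612183c9ec8a0605824da56 (k8 c15019 c9753 c13906 c15145 c4462 c3230 c14312 c501 (k8 c15173 c4436 c15054 c255 c7539 c499 c1018 c8877 (k8 c63 c526 c1017 c12664 c2765 c3151 c2996 c2997 (k8 c799 c4487 c4958 c912 c7420 c4420 c15179 c187 (k8 c4427 c1673 c1770 c1591 c15182 c15183 c1023 c3005 (k8 c1912 c3900 c3779 c4469 c7641 c15185 c4468 c4401 (k8 c4403 c15186 c4386 c4352 c4353 c12606 c13260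 c872 (k4 c2768 c4558 c7307 c1369 (k1 c10839 k0))))))))) (by decide +kernel)
def c15188 : PP 8 4 T 0x40000000000000000000000000000000000000004000080000000000000000000000002040000000000 := rS 0x15b13 (k2 c4441 c2047 (k1 c4785 k0)) (by decide +kernel)
def c15189 : PP 8 4 T 0x40000000000021101000001002000050000000020000091100000400000000100040005000104000080 := rS 0x13446491b1759a6f25d153e2565af2185f53a844eb14c8e5368f4e9e4f645368ae2e1c02964e60104aed7e53238b552a5890bc0456 (k8 c15019 c1018 c8877 c4469 c4444 c4345 c4286 c4404 (k8 c4290 c4369 c4449 c13906 c751 c3001 c63 c526 (k8 c1017 c4360 c7194 c9753 c3230 c14312 c501 c15054 (k8 c12664 c2765 c3151 c2997 c1147 c872 c898 c13601 (k8 c12467 c4486 c2126 c2026 c225 c4384 c4454 c1859 (k8 c3000 c6588 c4628 c15166 c4573 c792 c324 c13318 k0)))))) (by decide +kernel)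
def c15190 : PP 8 4 T 0x40000000000021101000001002000050000000420000090100000500000000100040005000004000000 := rS 0x5c3f16a71588d06e5d65adc4ca31288cdf0d48164421c010e4ac793f9f608730302c1317 (k8 c4360 c13906 c15145 c4462 c3001 c4481 c4409 c4313 (k8 c501 c15019 c3151 c1018 c1017 c799 c63 c15189 (k8 c4328 c2998 c769 c11879 c9264 c12087 c1166 c2027 (k8 c2787 c320 c873 c1148 c497 c7883 c4480 c4088 (k1 c8242 k0))))) (by decide +kernel)
def c15191 : PP 8 4 T 0x100000001000000040008000400000010100000400000000000041000000004000000 := rS 0x5089d4c918a2b224311694dc8aba5885329b17c24666d578a47e2b0e014b202009450ed12ac10e7174b1d482bf8c060f6450302c1256 (k8 c15019 c13906 c15145 c4462 c3230 c14312 c15173 c4540 (k8 c4369 c1872 c499 c15187 c4360 c3001 c4481 c4406 (k8 c260 c4410 c1876 c751 c1018 c63 c526 c1017 (k8 c7194 c11031 c777 c4631 c9753 c255 c4436 c8877 (k8 c2765 c2997 c799 c4459 c9076 c9009 c4290 c4286 (k8 c15188 c4469 c2112 c15190 c4352 c13260 c872 c898 (k1 c15169 k0))))))) (by decide +kernel)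
def c15192 : PP 8 4 T 0x1800000001000000040000000000000001100000400000000000040000000006000400 := rS 0x2693c6c0f37af218a75888532394d8091e1c029653b093c9b576bf8c1ec8a060495952a5 (k8 c4444 c4345 c15019 c13906 c4462 c3230 c14312 c4540 (k8 c4369 c4449 c9753 c501 c4436 c15054 c63 c526 (k8 c1017 c12664 c1018 c2765 c3151 c2997 c799 c1147 (k8 c13601 c4486 c2126 c3000 c12083 c15166 c258 c324 (k1 c7460 k0))))) (by decide +kernel)
def c15193 : PP 8 4 T 0x1800000001000000040000000000010080100000400000000000040800000006000400 := rS 0x9c4a6f4816438022b1cc0c09 (k8 c13906 c4462 c3001 c15019 c1018 c1017 c63 c15192 (k4 c2998 c11879 c12090 c12087 k0)) (by decide +kernel)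
def c15194 : PP 8 4 T 0x100000001000000040000000400000010100000400000000000041000000004000000 := rS 0x320bc6f5c8906a27532d4e2bd5ba45631452aa624a1188e858aba5b9514c35fc60823f4ca6d1e2f628cd3b093d9b4561c029640401449e4fe7d68955825143c10e7174b1d430450302c1256 (k8 c15019 c13906 c15145 c4462 c3230 c15173 c499 c15187 (k8 c4360 c3001 c4481 c4410 c1876 c6869 c4406 c260 (k8 c4409 c4313 c501 c7172 c751 c1018 c63 c526 (k8 c1017 c7194 c9753 c14312 c4436 c15054 c255 c7539 (k8 c8877 c12664 c2765 c2997 c11031 c1872 c4540 c4369 (k8 c15191 c2123 c14640 c4427 c1673 c11783 c4471 c15188 (k8 c2901 c4469 c4345 c4444 c15193 c4350 c4352 c4353 (k8 c4354 c4387 c4389 c13260 c872 c10290 c4558 c7514 (k4 c1019 c225 c2121 c12444 k0))))))))) (by decide +kernel)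
def c15195 : PP 8 4 T 0x1000000001000000040000440401101081100400100000000000040800000002000080 := rS 0xfc5a9c46e4c2783d726f5e29d6eb104a64729b0123c38052c95a2e73 (k8 c3001 c4360 c15019 c63 c526 c1017 c12664 c1018 (k8 c2765 c3151 c2997 c13906 c1147 c1165 c13601 c2126 (k8 c3000 c3033 c12083 c258 c7460 c324 c497 c1579 (k2 c6133 c8860 k0)))) (by decide +kernel)
def c15196 : PP 8 4 T 0x1000000001000000040000440401111080100400100000000000040800000002000400 := rS 0x9c4a6f4816438022b1cc0c09 (k8 c13906 c4462 c3001 c15019 c1018 c1017 c63 c15195 (k4 c2998 c11879 c12090 c12087 k0)) (by decide +kernel)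
def c15197 : PP 8 4 T 0x900000001001000040000440400001080100400000000000000041000000002000400 := rS 0xc95c9bd465e1a974490d13a996a918a284742c1fa653661338bcc62b0e014b20200958fa55821ce2e750302552a5 (k8 c4444 c4345 c13906 c4462 c499 c4360 c3001 c4481 (k8 c4406 c4409 c15019 c751 c1018 c63 c526 c1017 (k8 c7194 c817 c8877 c2924 c2883 c2765 c2997 c11031 (k8 c11783 c4471 c2901 c15196 c4352 c4389 c13260 c872 (k8 c4330 c4558 c813 c1369 c225 c1464 c9688 c7514 (k2 c12444 c11734 k0)))))) (by decide +kernel)
def c15198 : PP 8 4 T 0x1100000000002000050000440045101011100000000000008100000001050002000180 := rS 0x5188c9e492e83d9a6f25d1596bc8629c4eb14c8e5368f0e014b2c7a5ab0a62d17808666d (k8 c9753 c255 c1018 c8877 c4286 c4290 c2112 c4458 (k8 c4289 c63 c526 c1017 c12664 c2765 c3151 c2997 (k8 c1147 c872 c13601 c4486 c2126 c2026 c4454 c1859 (k8 c3000 c6588 c12083 c4628 c4573 c258 c792 c9064 (k1 c7771 k0))))) (by decide +kernel)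
def c15199 : PP 8 4 T 0x1100000001002000050000400440001010100050140000000100020000050102000080 := rS 0x9aa65ea8170c93884562341b9759626518941e2337c3520092c87072bb54a9624131dab0a62d558c5322f010ccda56 (k8 c15019 c9753 c255 c1018 c8877 c2997 c1912 c5962 (k8 c4286 c4290 c2112 c4403 c4401 c4469 c4444 c4345 (k8 c3779 c3151 c1017 c63 c13906 c15198 c4328 c2998 (k8 c769 c12083 c11879 c9264 c12087 c2027 c2787 c320 (k8 c873 c1148 c343 c497 c10573 c9361 c1206 c1208 (k2 c900 c1994 (k1 c14691 k0))))))) (by decide +kernel)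
def c15200 : PP 8 4 T 0x100000001000000040000000400000010100000000000000000041000000004000000 := rS 0xa113a99231472449768318afc807668944aa7d439fe082b149ce2eaf4b27467090c1b402211fa640a593ca6c387b228bc04563a8181609 (k8 c13906 c15145 c4462 c499 c15019 c1018 c8877 c3230 (k8 c14312 c1017 c2765 c501 c63 c526 c2997 c11031 (k8 c799 c751 c9753 c15173 c4436 c255 c15054 c15187 (k8 c4631 c4360 c3001 c777 c7194 c4481 c4313 c4410 (k8 c4409 c4406 c1876 c260 c15194 c1023 c3005 c1912 (k8 c3900 c3779 c4469 c15197 c15199 c4352 c13260 c872 (k2 c898 c15169 k0))))))) (by decide +kernel)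
def c15201 : PP 8 4 T 0x100000001001000000000000400000050100000100000000000040000000005000000 := rS 0x4398d5b13150c8528b6084c5ac38b1b42a9949814b2794d99c38023d9140c0b2b1a4ee09 (k8 c13906 c6033 c13396 c15019 c15145 c4462 c3230 c14312 (k8 c1018 c1017 c2924 c2765 c501 c63 c526 c2996 (k8 c2997 c15079 c9753 c4487 c4958 c912 c15156 c4420 (k8 c5853 c795 c15151 c4468 c4340 c2948 c1607 c10041 (k1 c15154 k0))))) (by decide +kernel)
def c15202 : PP 8 4 T 0x5000000001000000080010011000400000000000000000000800000105401000000000 := rS 0x284c65b9384e4d5292d5223 (k8 c4372 c6029 c4375 c5936 c4282 c4278 c13552 c14224 (k2 c420 c4492 (k1 c4391 k0))) (by decide +kernel)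
def c15203 : PP 8 4 T 0x100000001000000080000000400000080100000000000000000041004000005000400 := rS 0x162b72eb354c258ab08a48b62b45569d4c8e536673d8bd7e45379a4ee315a91d5e2950ae46a893c9fce20d160ac38052c8080256608e87ee5439f608738b9d40c09 (k8 c13906 c4462 c499 c4360 c3001 c4481 c4409 c4410 (k8 c13532 c11031 c4471 c1581 c15019 c751 c1018 c63 (k8 c526 c1017 c7194 c11783 c4371 c496 c10049 c501 (k8 c7172 c4373 c7514 c899 c777 c4631 c4374 c7513 (k8 c228 c6033 c13396 c1019 c3230 c6330 c8877 c14312 (k8 c2924 c2765 c3151 c2997 c15070 c14076 c456 c1252 (k8 c14044 c14226 c7274 c13974 c11879 c15202 c2067 c812 (k2 c1168 c1148 (k1 c4088 k0))))))))) (by decide +kernel)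
def c15204 : PP 8 4 T 0x100000001000000000000000400000010100000000000000000041000000005000000 := rS 0x18a8b29902263243b06083a449ce2eaf4b394ee69368fc38793d914ac750302c12d2 (k8 c15200 c13906 c15145 c4462 c499 c15019 c3230 c14312 (k8 c501 c1017 c11031 c9753 c13396 c6033 c13532 c15201 (k8 c4631 c4360 c3001 c7172 c4471 c4481 c1581 c4410 (k4 c15203 c4340 c953 c417 (k2 c11588 c3047 (k1 c14226 k0)))))) (by decide +kernel)
def c15205 : PP 8 4 T 0x40000000000001900100000000000080110440020011554500000154020008000000500000102000108 := rS 0x5b9f562a38697520252c8bc666d (k8 c9753 c255 c8877 c63 c11879 c15177 c7642 c4328 (k4 c938 c1148 c1651 c5964 (k1 c10862 k0))) (by decide +kernel)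
def c15206 : PP 8 4 T 0x100000001001000080000000400000050100004000000000000051000000102000080 := rS 0x5b8de28ac890c59305509918e531d950542939aae968a048fc729b17808ea4923aec967106afc8a6f1ab14669d849e4dab961a645ab5478700a5960c592656 (k8 c15019 c2996 c4487 c4420 c63 c526 c1017 c12664 (k8 c7420 c912 c2997 c4958 c6781 c9753 c501 c4436 (k8 c15054 c255 c7539 c4373 c1019 c3230 c6330 c4371 (k8 c496 c4375 c6870 c4374 c4281 c499 c1018 c8877 (k8 c2765 c3151 c11031 c13906 c15176 c4427 c1673 c1770 (k8 c15182 c4468 c226 c1640 c2138 c2137 c227 c7295 (k8 c4406 c1726 c13201 c4469 c7662 c15205 c4386 c4353 (k1 c12162 k0)))))))) (by decide +kernel)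
def c15207 : PP 8 4 T 0x100000001000000080000000400000050100004000000000000051000000102000080 := rS 0x50324c8ac8952d5654828c4e6896845452511d94dc8091f8e5368f02964ce1c17808ea495d92ce20d5f914de35628cd3b093c9b5869960c592656 (k8 c15019 c2996 c4487 c4420 c2997 c4958 c9753 c501 (k8 c4436 c15054 c255 c7539 c4373 c1019 c3230 c6330 (k8 c4371 c496 c4375 c6870 c4281 c499 c1018 c8877 (k8 c1017 c2924 c63 c526 c12664 c2765 c3151 c11031 (k8 c13906 c15206 c4290 c4403 c4405 c4402 c4963 c14640 (k8 c2038 c12920 c13201 c4503 c12819 c5962 c4426 c4469 (k4 c7662 c4903 c1726 c15205 (k1 c3663 k0)))))))) (by decide +kernel)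
def c15208 : PP 8 4 T 0x900000000000000080010440000001554500000154000008000005100080102000108 := rS 0x16e378a3260aa13231c76542491d72b5a5ab22cab (k8 c4445 c4487 c7641 c4458 c7420 c6781 c4374 c4281 (k8 c226 c1640 c2137 c227 c7295 c4406 c1726 c15205 (k2 c4386 c4353 (k1 c12162 k0)))) (by decide +kernel)
def c15209 : PP 8 4 T 0x100000001000000080000000400000050100004000000000000041000000102000080 := rS 0x20a657e2c5465d480962ae415d2c5273562ad5f12448c480c116b0e2c091fa6526394da3c0a59338705e023aaec967106afc8a6f1ab14669d849e4da56 (k8 c15019 c9753 c501 c4436 c15054 c255 c7539 c4373 (k8 c1019 c3230 c6330 c4371 c496 c4375 c6870 c499 (k8 c1018 c8877 c1017 c2924 c63 c526 c12664 c2765 (k8 c3151 c2996 c2997 c11031 c13906 c4487 c4958 c912 (k8 c4420 c15207 c1912 c3946 c4469 c4346 c4445 c7641 (k8 c7273 c7285 c4458 c15208 c4468 c4963 c11879 c15177 (k4 c7642 c938 c1148 c5772 (k2 c6062 c4961 (k1 c4903 k0))))))))) (by decide +kernel)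
def c15210 : PP 8 4 T 0x5100000001000000080010011400010000180000140000000800000005000000000080 := rS 0xb666a428aa612824b2394d984382f01158de353f9c41a7d8252d964d (k8 c4282 c2022 c4456 c4481 c4409 c4371 c496 c10049 (k8 c4373 c1019 c15019 c1018 c8877 c1017 c2883 c2765 (k8 c3151 c63 c13906 c11879 c15202 c4453 c13601 c2067 (k2 c12707 c7551 k0)))) (by decide +kernel)
def c15211 : PP 8 4 T 0x100000001001000080000000400000080100004400000000000041000000002000080 := rS 0x642996f14890c556cba5a2986528c10532794d9845ebf37c258a3336a0c9a2b0e014b20200824fad12ab04a287821ce2e75229596a4750ae46a3f (k8 c11031 c4373 c7514 c899 c4374 c7513 c15019 c3230 (k8 c499 c4360 c3001 c4481 c4410 c1876 c6869 c4406 (k8 c260 c4409 c13906 c751 c1018 c63 c526 c1017 (k8 c7194 c4282 c1998 c9753 c255 c7539 c4436 c1019 (k8 c6330 c8877 c2883 c2765 c501 c2997 c1872 c4540 (k8 c7648 c9009 c9062 c4456 c2022 c1673 c15188 c4469 (k4 c15210 c4353 c13260 c4073 (k1 c7484 k0)))))))) (by decide +kernel)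
def c15212 : PP 8 4 T 0x1000000001001000080000011400000080100000154000000000020001000002000008 := rS 0x52ca6ac65299444f5b03d625d12824b27f3e9450ed12ac122f12178ccda56 (k8 c15019 c9753 c255 c8877 c4469 c4360 c4481 c4406 (k8 c260 c4410 c1876 c4409 c10049 c63 c13906 c11879 (k8 c7642 c1148 c10635 c4088 c258 c1166 c13552 c941 (k4 c940 c3925 c4458 c4475 k0)))) (by decide +kernel)
def c15213 : PP 8 4 T 0x100000001001000080000000400000080100004000000000000041000000002000080 := rS 0x17cbb0d7eb214cb78a44862403b2856ab91fa6536610e0bc0447388357e45378d4666d2b20c9a7d821ce2e75 (k8 c499 c4360 c3001 c4481 c4409 c4282 c1998 c15019 (k8 c9753 c255 c4373 c1019 c3230 c6330 c4371 c496 (k8 c4374 c1018 c8877 c1017 c2883 c2765 c2997 c11031 (k8 c7514 c7513 c899 c15211 c1023 c1912 c4469 c15212 (k8 c4353 c13260 c4073 c8860 c4330 c813 c547 c4477 k0))))) (by decide +kernel)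
def c15214 : PP 8 4 T 0x1800001000000000080000000000000000000000000000008000000000000002000180 := rS 0xbab0129645e02378d4666d (k8 c9753 c255 c4373 c1019 c1018 c8877 c63 c11879 (k2 c5772 c7642 (k1 c1148 k0))) (by decide +kernel)
def c15215 : PP 8 4 T 0x100000001000000000000000400000010100000000000000000041000000004000000 := rS 0x28d3e5e86ae16e5d50d0d4cb5488de291218bf4d03b7221e087f39c5d2c83198617e71238d41a4d24b48ea6d10a6472052ca6cc21c3d9145e020302c1256 (k8 c15019 c13906 c15145 c4462 c1018 c8877 c3230 c14312 (k8 c1017 c2883 c2765 c63 c526 c3151 c2997 c799 (k8 c9753 c499 c15200 c4281 c4282 c4371 c4373 c4374 (k8 c496 c6330 c15204 c255 c1998 c15209 c4360 c3001 (k8 c10049 c4481 c4410 c15213 c4403 c6832 c4961 c1879 (k8 c4469 c15214 c4386 c4352 c4389 c13260 c8226 c898 (k8 c813 c4353 c7430 c4330 c4477 c1395 c1465 c4489 k0))))))) (by decide +kernel)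
def c15216 : PP 8 4 T 0x1000000001000000040008400000000081100100404100000400440001150104000080 := rS 0x14449268d896238c2f13e5d5dc2618a75b89d62991c9e5368f029ec8a5163b90cea952c48669d578705e2501024b256 (k8 c15019 c63 c13906 c1018 c11879 c8877 c1017 c4631 (k8 c1214 c952 c4469 c4444 c4345 c2924 c11774 c4289 (k8 c4405 c3230 c14312 c526 c12664 c2765 c501 c3151 (k8 c2997 c1147 c872 c1165 c13601 c4486 c15164 c10310 (k8 c4628 c11480 c2126 c4482 c792 c1859 c15166 c324 (k2 c323 c4597 (k1 c13232 k0))))))) (by decide +kernel)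
def c15217 : PP 8 4 T 0x1000000001000000040008400000000080100000404100000400460001150104800080 := rS 0x1784d41bf17671588d06e5d42898470d482044a0f0496404393c9ec8a334eabc3856 (k8 c15019 c1017 c4631 c1214 c952 c3230 c14312 c501 (k8 c3151 c1018 c63 c13906 c12083 c11879 c1835 c15216 (k8 c4328 c769 c12087 c7196 c2787 c320 c873 c1148 (k4 c497 c1851 c4480 c4306 (k2 c1990 c2122 (k1 c1040 k0)))))) (by decide +kernel)
def c15218 : PP 8 4 T 0x1000000001000000040008400000000080100000400100000400460001150104800080 := rS 0x53aed7a912fbf4dc993ca6d1e052c98552a5890cd3aaf0e0bc0456 (k8 c15019 c1018 c8877 c1017 c4631 c1214 c952 c4469 (k8 c4444 c4345 c2883 c63 c526 c12664 c2765 c501 (k8 c2997 c15217 c4378 c1377 c1076 c3000 c1350 c4532 (k1 c2126 k0)))) (by decide +kernel)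
def c15219 : PP 8 4 T 0x1000000001002000000008800000000080100004400100000000040001000000000080 := rS 0x10848c64f2334eabc3856 (k8 c15019 c1017 c4631 c1214 c952 c501 c4369 c1244 (k2 c4482 c15164 k0)) (by decide +kernel)
def c15220 : PP 8 4 T 0x1000000001000000040008000000000080100000404100000400440001150104800080 := rS 0x7e208e2b11b9750a2611c3520811283cb2393c8cd3aaf5dc6082bf72024ce1c011ec8a56 (k8 c15019 c3230 c14312 c1018 c1017 c2924 c13906 c11774 (k8 c15219 c15218 c4472 c4449 c4631 c1214 c952 c501 (k8 c3151 c63 c12083 c11879 c1835 c15216 c4328 c769 (k8 c12087 c7196 c2787 c320 c1148 c497 c9037 c4480 (k1 c4306 k0))))) (by decide +kernel)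
def c15221 : PP 8 4 T 0x1000000001000000000008000400000080100000100000000400440000150005000400 := rS 0x138457a344897dfab13746082bf0b085328f02964c27b2284cd27769b90cea952c48669d578705e31010181256 (k8 c15019 c13906 c4462 c1018 c228 c8877 c1017 c4631 (k8 c1214 c952 c4469 c4444 c4345 c2924 c11774 c13532 (k8 c6033 c13396 c4401 c3230 c14312 c2883 c63 c526 (k8 c12664 c2997 c799 c15165 c15219 c15218 c4472 c15220 (k8 c123 c4378 c1377 c1076 c1019 c3000 c608 c14316 (k1 c10290 k0)))))) (by decide +kernel)
def c15222 : PP 8 4 T 0x2800000001000000040000400000000000100005000000000000000000000005000400 := rS 0x1f88307178ba2440c354c0110a640a594d9845e02349ac4e910e0181256 (k8 c15019 c13906 c4462 c1017 c4352 c872 c4442 c13396 (k8 c1018 c8877 c2883 c2765 c63 c526 c2997 c799 (k8 c751 c13260 c4330 c1897 c4558 c812 c225 c224 (k2 c548 c7146 (k1 c4376 k0))))) (by decide +kernel)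
def c15223 : PP 8 4 T 0x1000000000010000400000080114000140000000400440000150005000400 := rS 0x9f5392446255c1349634a2af996a113af5231452aa624334eb0916d3189dd32393ca6cf62f5784d82517219c3802228181256 (k8 c15019 c13906 c4462 c3230 c1018 c1017 c2924 c11774 (k8 c4405 c6869 c4401 c4631 c8877 c14312 c2765 c501 (k8 c3151 c2997 c6033 c228 c13532 c5853 c2123 c1214 (k8 c952 c4469 c4345 c4444 c15221 c4352 c4354 c872 (k8 c898 c2028 c15222 c4399 c6330 c1324 c9875 c1215 (k4 c1369 c14758 c4599 c14691 (k2 c1395 c13318 k0))))))) (by decide +kernel)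
def c15224 : PP 8 4 T 0x101200000000000000000000040000000000004000000008000000002040000440080 := rS 0x22c826956c4cb66d4c814b287 (k8 c4410 c63 c526 c2997 c9753 c92 c4441 c2047 (k4 c1879 c1912 c11588 c9112 k0)) (by decide +kernel)
def c15225 : PP 8 4 T 0x1100000001000000040000000400000010100000400000000000040000000004000000 := rS 0x118a5ab156318485c267b228ccda517219d5e2f688610e893ca585a216294c8e55821d4522b0e014b20203004ac098b9cc780b (k8 c15145 c15215 c1615 c4416 c13906 c15019 c751 c4462 (k8 c1018 c63 c526 c1017 c7194 c7860 c7271 c4481 (k8 c4406 c8078 c332 c1783 c799 c328 c11368 c501 (k8 c7172 c4410 c15223 c260 c8877 c4631 c2924 c11774 (k8 c4405 c9753 c255 c3230 c14312 c4401 c35 c4436 (k4 c15224 c14076 c2112 c4458 (k2 c4540 c15190 k0))))))) (by decide +kernel)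
def c15226 : PP 8 4 T 0x1100000001000000040000000400000010100000000000000000040000000004000000 := rS 0x17e403b2bca2e4339fcfad12aa76121843c10ea8915c5c380200a5852052c9cc5a216294c8e3c3c9ec8a0605824da56 (k8 c15019 c9753 c13906 c15145 c4462 c3230 c14312 c501 (k8 c15215 c8078 c332 c1783 c799 c328 c1615 c63 (k8 c526 c7860 c11368 c751 c1018 c1017 c4416 c7194 (k8 c7172 c7271 c4481 c4410 c15223 c4436 c15054 c4406 (k8 c260 c4409 c4313 c2924 c11774 c4405 c4631 c15225 (k2 c1023 c3005 (k1 c15199 k0))))))) (by decide +kernel)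
def c15227 : PP 8 4 T 0x26000000001000000040040000420011000100000140000000000000001000002000080 := rS 0x19f435c325968337b344745268d54cbf4ca6d1e052c984fb0484aa54b1217808666da5add7ab513a443856 (k8 c15019 c1017 c4352 c872 c4389 c4354 c4353 c4458 (k8 c9753 c255 c1018 c8877 c4469 c4444 c4345 c4436 (k8 c4481 c4409 c2883 c63 c526 c12664 c2765 c2997 (k8 c4369 c4539 c10290 c13817 c4453 c2768 c2067 c1019 (k4 c1998 c7113 c7484 c4073 (k2 c4394 c1525 (k1 c4495 k0))))))) (by decide +kernel)
def c15228 : PP 8 4 T 0x100000001000000040000000400000010100000000000000000040000000004000000 := rS 0x33e86b837b24bacda2c354ccb5fa0d84762046542b55eadd23144ca6cc2c7609f53b12a5ab156318485c267b228ccda517219d5e2f688610e893ca585a216294c8e55821d4522b0e014b20203004ac098b9cc780b (k8 c15145 c15215 c1615 c4416 c13906 c15019 c751 c4462 (k8 c1018 c63 c526 c1017 c7194 c7860 c7271 c4481 (k8 c4406 c8078 c332 c1783 c799 c328 c11368 c501 (k8 c7172 c4410 c15223 c260 c8877 c4631 c2924 c11774 (k8 c4405 c9753 c255 c3230 c14312 c4401 c35 c4436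 (k8 c15224 c14076 c2112 c4458 c4469 c15054 c4409 c6869 (k8 c4289 c2883 c2765 c2997 c15226 c4352 c4353 c4354 (k8 c4389 c898 c15227 c4472 c4482 c4494 c3900 c3005 (k8 c2028 c13260 c4330 c4453 c2067 c813 c7484 c9688 (k4 c4073 c4394 c1525 c4495 k0)))))))))) (by decide +kernel)
def c15229 : PP 8 4 T 0x100000001000000000000000400000010100000000000000000040000000004000000 := rS 0x33e86b865b2546cd2f285085da2c356a9153450debf5ba0dfa3524b4a96ac55c4862d119c242e182a9f50e7f8214426af3ab91122b4b0a4e62d6294c8f171e0bcf66730a6cf20501115321c10818165936804ac09 (k8 c13906 c15019 c751 c9753 c63 c15145 c4462 c799 (k8 c1017 c2997 c3230 c1018 c526 c501 c2765 c2883 (k8 c2924 c14312 c8877 c15215 c4416 c8078 c332 c1783 (k8 c328 c1615 c7860 c11368 c7194 c7172 c11774 c7271 (k8 c4631 c4401 c4405 c4481 c4313 c4410 c4409 c4406 (k8 c15223 c35 c4436 c255 c260 c15224 c4469 c14076 (k8 c2112 c4458 c15228 c4281 c4373 c4961 c6833 c1742 (k8 c6330 c1019 c15214 c13260 c4352 c4389 c4330 c4453 (k8 c813 c5558 c898 c4477 c1481 c1465 c547 c2027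 (k4 c4073 c4394 c1525 c4495 k0)))))))))) (by decide +kernel)
def c15230 : PP 8 4 T 0x1000000000002000000000000000000022000000200009041000001000000200000848 := rS 0x3eb241a1107ae5405d1b4352f17 (k8 c4418 c159 c4328 c887 c2790 c890 c1205 c6403 (k4 c2267 c1408 c1729 c1625 (k1 c10189 k0))) (by decide +kernel)
def c15231 : PP 8 4 T 0x20000420001501501500100000000000000000020000000000000 := rS 0x32d784f (k4 c1491 c14750 c1751 c1208 k0) (by decide +kernel)
def c15232 : PP 8 4 T 0x1000000001002000060001000001101521104000000000000000040100001400000008 := rS 0x19c4d5f2e102b5a184468c92409c6ea18629e2e2d51a7c561f82add8a623a11c52c747958134b (k8 c4426 c13906 c15019 c15082 c4289 c4402 c4404 c803 (k8 c802 c3726 c3674 c4407 c1065 c1695 c1699 c2782 (k8 c2781 c4418 c13601 c4486 c14243 c8630 c4324 c4200 (k8 c1728 c4470 c342 c4421 c1703 c9324 c4492 c15231 (k2 c9875 c4572 (k1 c1791 k0)))))) (by decide +kernel)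
def c15233 : PP 8 4 T 0x1000000000000000000000000400000022000000200009041000000000000200100848 := rS 0x3e9fd9249068441e3c5ca81685d1b4352eb77204c7705 (k8 c4407 c3520 c571 c4464 c3674 c159 c4328 c887 (k8 c2790 c891 c890 c1205 c15230 c6403 c2267 c1408 (k4 c323 c1729 c1434 c1625 (k1 c11938 k0)))) (by decide +kernel)
def c15234 : PP 8 4 T 0x1000000001002000040001000000001121104000000100000000040105401400000018 := rS 0xd157aa556623a26c52a58623cac09 (k8 c13906 c15019 c15082 c4486 c4385 c4402 c804 c803 (k4 c802 c3621 c6029 c5815 (k2 c15232 c5654 k0))) (by decide +kernel)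
def c15235 : PP 8 4 T 0x1000000001000000040001000400000020100000400100000000040000000000000040 := rS 0x69c1507941af50abf8c13626325d9bd02111a03d92485289c6ea18617d4eb14896cda2d51a7cc22b5b9ed36994391c52c7721560a2f128c40a9d4788c720210074260a1d9d0c4590a87cac09 (k8 c13906 c15019 c1065 c15079 c63 c802 c803 c3520 (k8 c4462 c571 c7045 c4466 c798 c2319 c2775 c15082 (k8 c967 c311 c11577 c313 c2777 c4407 c1687 c4464 (k8 c4289 c4402 c4404 c1693 c1071 c804 c1227 c3674 (k8 c1695 c2886 c1699 c2782 c2781 c9753 c92 c15233 (k8 c1147 c13601 c12467 c4486 c14243 c8630 c4324 c4385 (k8 c4200 c1728 c304 c4470 c342 c9324 c10992 c1310 (k8 c15234 c4340 c376 c4488 c5760 c10110 c1040 c9038 (k4 c4447 c2126 c2122 c12908 (k1 c1303 k0)))))))))) (by decide +kernel)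
def c15236 : PP 8 4 T 0x2000000001000000040000000000901000100000000401000000140104401405005018 := rS 0x3c8442e5d261ecd256 (k8 c15019 c13396 c1227 c14691 c812 c1991 c343 c14867 (k1 c15143 k0)) (by decide +kernel)
def c15237 : PP 8 4 T 0x1000000040000000400000020100000000000000000040004000005000040 := rS 0xc38ca9e96a535b4224af8b98556c54591c52c71789462054ea3c4639010803a590fa441e37069fce31460945c8131d9560a620a9141477049a4e856 (k8 c15019 c803 c13396 c13906 c6033 c4462 c438 c15079 (k8 c802 c4407 c1687 c3520 c571 c4464 c4405 c6869 (k8 c15235 c4387 c594 c568 c4386 c304 c4352 c1065 (k8 c63 c7045 c4466 c798 c2319 c2775 c15082 c967 (k8 c311 c11577 c313 c2777 c4289 c4402 c4404 c1769 (k8 c3726 c3621 c2886 c4418 c5815 c4469 c5654 c4442 (k4 c4444 c4426 c15236 c4539 (k2 c15124 c4494 k0)))))))) (by decide +kernel)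
def c15238 : PP 8 4 T 0x100000001000000040000000400000000100000000000000000040000000005000040 := rS 0x1422412d4345542961aae279704d4b40841a1084485cf2bf8c44c640d079c57a911baee288f1cb053a230114440e429874264505164b61f0aab5469f2a8ee0aab3da6d1669312650e77049d12856 (k8 c15019 c15229 c803 c13906 c6033 c1693 c1071 c802 (k8 c13396 c1769 c804 c1227 c3621 c4407 c3520 c1687 (k8 c1699 c2782 c2783 c15079 c1065 c92 c63 c4462 (k8 c438 c571 c7045 c9747 c4464 c4466 c4405 c798 (k8 c2775 c967 c6869 c2319 c15082 c15235 c4390 c4386 (k8 c4352 c4354 c4387 c304 c568 c15237 c4340 c4488 (k8 c5760 c4447 c572 c9931 c4465 c2109 c14587 c4439 (k8 c4426 c342 c343 c2413 c4491 c4324 c1341 c10979 (k4 c4398 c7768 c1321 c7073 (k2 c4489 c4421 k0)))))))))) (by decide +kernel)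
def c15239 : PP 8 4 T 0x20000000000000008000000000000000000081 := rS 0x385b (k2 c92 c1017 (k1 c11432 k0)) (by decide +kernel)
def c15240 : PP 8 4 T 0x100000001000000000000000400000000100000000000000000040000000004000000 := rS 0x69865c8130501e0a3b2a988e894009581215 (k8 c15079 c13906 c15019 c751 c15229 c803 c802 c1687 (k8 c3520 c4407 c15239 c4462 c571 c4464 c308 c13532 (k1 c15238 k0))) (by decide +kernel)
def c15241 : PP 8 4 T 0x1001000000000000004001000100000000010000000040002040005000800 := rS 0x290f112132a81116878c14482030bb46266d0085536694c9dc1256 (k8 c15019 c13906 c6033 c1071 c13396 c804 c15079 c751 (k8 c9753 c4441 c300 c1911 c2245 c1912 c1916 c4488 (k8 c11158 c14044 c4461 c12210 c530 c7030 c14170 c2109 (k1 c332 k0)))) (by decide +kernel)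
def c15242 : PP 8 4 T 0x1001000000000000400000010100000000000000000040004000005000804 := rS 0xeac5298f5a02828b04e66b8218d0e890b9e4268b2a810da010f99c5aad3da6cd2993b824ac3f0a8c53a4515aaccb10 (k8 c15240 c4412 c4415 c4411 c438 c15070 c15241 c15079 (k8 c398 c15019 c13906 c6033 c1071 c13396 c804 c1227 (k8 c4338 c4332 c4334 c1065 c751 c9753 c4461 c12210 (k8 c13509 c530 c15117 c6343 c7030 c7313 c12253 c4464 (k8 c6097 c4408 c8008 c13156 c14211 c8058 c1680 c179 (k2 c14087 c11468 (k1 c14226 k0))))))) (by decide +kernel)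
def c15243 : PP 8 4 T 0x1001000000000000014000000000000101050000000001005410005100800 := rS 0x141126343c10aa6935c491613 (k8 c570 c5853 c4469 c4442 c13396 c306 c7079 c7313 (k4 c11648 c4314 c14294 c8057 k0)) (by decide +kernel)
def c15244 : PP 8 4 T 0x200000001000000000000000000000510000000480000000000142005010000000000 := rS 0xc028b0d569756a4d3a3b (k8 c89 c15070 c4413 c4338 c4336 c4415 c1087 c3560 (k2 c7662 c6869 k0)) (by decide +kernel)
def c15245 : PP 8 4 T 0x200000001001000000000000400000510000000501000000000040005410005100800 := rS 0x10e632a9cca7171e22c266533aac5aad159a48b12 (k8 c4469 c438 c13396 c4411 c4338 c4332 c4415 c4334 (k8 c4412 c570 c5853 c15243 c4416 c332 c15244 c307 (k2 c7153 c7313 (k1 c14307 k0)))) (by decide +kernel)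
def c15246 : PP 8 4 T 0x1001000000000000054000000004000201454000000005000000005000800 := rS 0x229a2891d048d317 (k8 c4417 c13396 c11468 c4471 c2546 c3696 c2120 c14044 k0) (by decide +kernel)
def c15247 : PP 8 4 T 0x1001000000000000400000010100000000000000000040004000005000040 := rS 0x4584ca63c4398caa7435abc5312100bc04314e964da6533aac5aad15c4136694c9dcac3f0a9141409 (k8 c13906 c4462 c438 c15079 c398 c15019 c6033 c1071 (k8 c13396 c804 c15240 c4411 c4338 c4332 c4415 c4334 (k8 c4412 c9753 c63 c15070 c15241 c15242 c8877 c12975 (k8 c4469 c2776 c4346 c4442 c15245 c1687 c1688 c1693 (k4 c15246 c332 c1679 c8133 (k1 c14307 k0)))))) (by decide +kernel)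
def c15248 : PP 8 4 T 0x1000000011000400000000044005500000000400001000000000100800 := rS 0x7344c10aa3f (k4 c398 c306 c7079 c7314 (k2 c4408 c14226 k0)) (by decide +kernel)
def c15249 : PP 8 4 T 0x21200000000001000060000400000001411500040500001009000400000010000100808 := rS 0x662a18cbd069b8e2fd13c30bea750ac4b2a33299c5a2b4c894c67d (k8 c7516 c11648 c2243 c1071 c4411 c4332 c4334 c4412 (k8 c4337 c63 c1147 c4551 c13601 c12467 c4486 c4324 (k8 c7315 c7316 c4480 c568 c1079 c14295 c9059 c461 (k1 c1483 k0)))) (by decide +kernel)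
def c15250 : PP 8 4 T 0x1200000001001000040000000400001010100000100000001000000008000005100040 := rS 0x13890cb6492c1a112683d725d1b2a61a90611fda07d44c10b6654b8a4c28f11880b2390101402bf5da142647288f117080b9e58a9343aacda5316828f6c18c26cd3134c9dc1256 (k8 c15019 c13906 c6033 c1071 c4340 c13396 c804 c4488 (k8 c4450 c1227 c4462 c4332 c416 c9753 c4415 c11158 (k8 c4413 c7718 c4447 c572 c4465 c4322 c15248 c1684 (k8 c8078 c570 c4321 c4449 c5760 c751 c430 c4461 (k8 c2319 c63 c12975 c2775 c15082 c2885 c2776 c4336 (k8 c4412 c92 c10368 c7314 c7516 c2109 c4313 c14023 (k8 c15249 c4328 c2981 c887 c2790 c1205 c6403 c377 (k8 c2267 c1408 c1413 c7308 c2029 c11938 c7777 c453 k0)))))))) (by decide +kernel)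
def c15251 : PP 8 4 T 0x40000000000001200000000000000000444000000001501500000000000000000400008010400000008 := rS 0xcf5450c9a485289e18a7518b53e2b5faee3113 (k8 c4340 c4488 c4449 c5760 c4411 c4414 c4332 c4337 (k8 c13601 c4486 c4324 c4385 c4200 c376 c4421 c7282 (k2 c1791 c7105 k0))) (by decide +kernel)
def c15252 : PP 8 4 T 0x1200000001001000040000000400001010100000100000000000000008000005100040 := rS 0x5050892a65a938fa837e12c1a11079bc6a261b435214b65ab986c7391508e3c2d99d2ead3d94c5a87559b43a2930a3c46202c8e4040500b1526bb60a050a8b8405cf3184d9a626993b9581409 (k8 c13906 c4462 c15019 c6033 c1071 c4340 c13396 c804 (k8 c4488 c4447 c572 c4465 c4322 c4321 c4439 c4450 (k8 c4449 c4413 c7718 c751 c430 c4461 c2319 c63 (k8 c12975 c2775 c15082 c2885 c2776 c791 c9753 c4415 (k8 c11158 c4332 c416 c1227 c4338 c4336 c4334 c92 (k8 c15248 c8078 c15250 c307 c2250 c1087 c11990 c8140 (k8 c4428 c15251 c4328 c887 c886 c1035 c1076 c6403 (k8 c2267 c1408 c1413 c10457 c4570 c4379 c7463 c1618 (k4 c449 c453 c5531 c908 (k1 c4423 k0))))))))))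 (by decide +kernel)
def c15253 : PP 8 4 T 0x200000001001000000011000000001510000000200000000400005000010000400000 := rS 0x51a5ab986d11d0495717 (k8 c4417 c4415 c11468 c4471 c1759 c1048 c7287 c4428 (k2 c1592 c4475 k0)) (by decide +kernel)
def c15254 : PP 8 4 T 0x200000001001000060000000002000000001000000001001010400000015400100008 := rS 0xd639399a4ba2a8c5a2b (k8 c4411 c4332 c4337 c4398 c1321 c1483 c4474 c461 (k2 c1487 c14295 k0)) (by decide +kernel)
def c15255 : PP 8 4 T 0x1200000001001000060000000000001401101040400005001000400008010400100808 := rS 0xd4debc5493422fd13c314ea33299c4a8f1c82630992b2fe267d (k8 c7516 c4340 c5760 c15019 c1071 c4488 c13906 c2319 (k8 c15082 c2243 c4334 c4412 c4337 c13601 c4486 c4324 (k8 c7315 c342 c376 c15254 c9059 c1079 c1040 c10457 k0))) (by decide +kernel)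
def c15256 : PP 8 4 T 0x1200000001001000040000000400001010100000000000000000000008000005100040 := rS 0xb7243241a1107ae4ba3686a40fed0821f4a213238f112632a9d0b6654b8fca62d43aacda2911984400202804b2c549b050a8b8405cf3184d9a626993b9581409 (k8 c13906 c4462 c15019 c6033 c1071 c4340 c13396 c804 (k8 c4488 c4447 c572 c4465 c4322 c4321 c4450 c4413 (k8 c7718 c63 c751 c430 c4461 c12975 c2885 c2775 (k8 c2776 c9753 c4415 c11158 c4332 c416 c398 c4336 (k8 c4412 c92 c15252 c1687 c1688 c596 c15253 c8078 (k8 c1679 c1684 c7516 c4464 c2109 c4313 c15255 c4328 (k8 c887 c2790 c1205 c6403 c2267 c1408 c7308 c11938 (k2 c1744 c323 k0)))))))) (by decide +kernel)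
def c15257 : PP 8 4 T 0x1001000040000000400000010100000000000000000040000000005000040 := rS 0x52d96cf572e19aa1a2d0d50a586a9c9e5c1317c20fd07ad4e2bd5ba446f1442a061017609e57f1862a3d3a61118e4400202c4c64590085546974fa4e207b4d9a532772b1141409 (k8 c13906 c4462 c438 c15019 c6033 c1071 c13396 c804 (k8 c1227 c15240 c4413 c4414 c4336 c4337 c15079 c751 (k8 c63 c15247 c4340 c430 c4461 c12975 c2319 c2775 (k8 c2885 c967 c15082 c7718 c4488 c5760 c4447 c4450 (k8 c572 c4465 c4439 c4321 c15256 c4386 c4352 c4353 (k8 c4354 c4387 c4389 c304 c8862 c14520 c542 c342 (k8 c343 c2413 c4532 c4324 c1341 c14540 c11164 c4398 (k8 c7768 c1483 c11255 c10261 c1525 c8140 c4428 c4495 k0)))))))) (by decide +kernel)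
def c15258 : PP 8 4 T 0x1002000000001000400001100000001000000000000045002040005500020 := rS 0x823b (k2 c4403 c1912 (k1 c13053 k0)) (by decide +kernel)
def c15259 : PP 8 4 T 0x200000001000000000001000400000510044001401100000000140405010000400000 := rS 0x1126339c5cd6af61194ceab4bab5269d (k8 c15070 c4413 c4338 c4336 c4415 c4334 c4412 c7662 (k4 c5815 c6097 c4362 c1087 (k2 c7153 c7172 (k1 c2120 k0)))) (by decide +kernel)
def c15260 : PP 8 4 T 0x200000001002000000000000400000510000000401000000000040004000005100820 := rS 0xe9051e22082300b9e4aa2b348fca63b14a2c26c1439453a45 (k8 c438 c15070 c4405 c13785 c6869 c4401 c5853 c4402 (k8 c4403 c4290 c398 c13396 c4411 c12210 c15117 c572 (k4 c15259 c1912 c13058 c15258 (k2 c4314 c10368 (k1 c5917 k0))))) (by decide +kernel)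
def c15261 : PP 8 4 T 0x1000000001002000040000000000000011101100000100000010000004000000000808 := rS 0x14231 (k2 c2245 c4551 (k1 c15094 k0)) (by decide +kernel)
def c15262 : PP 8 4 T 0x1000000001002000040000000000000010101100200100001010000004000210000808 := rS 0x1f0220f378d46d0d4816cc256 (k8 c15019 c2885 c92 c15261 c4328 c887 c1035 c1076 (k4 c6403 c2267 c10883 c1691 k0)) (by decide +kernel)
def c15263 : PP 8 4 T 0x1000000040000000400000010100000000000000000040004000005000040 := rS 0xfe0f388de28a726a1480813a1e20a8831954e74b8b9ad5ec289094621d100bc04054e964da013299d569756a4e209b34a64ee561f8548e2963a2c26c51db048a0a04a1ca2e4 (k8 c15257 c4405 c13785 c13906 c4462 c438 c6869 c4403 (k8 c4530 c4401 c5853 c4289 c4402 c4404 c15079 c398 (k8 c15019 c6033 c1071 c13396 c804 c15240 c4413 c4338 (k8 c4336 c4415 c4334 c4412 c751 c9753 c63 c15070 (k8 c15260 c4461 c8877 c12975 c791 c2245 c2243 c4469 (k8 c7662 c5815 c4442 c7641 c4459 c1087 c307 c7153 (k8 c2120 c5842 c7172 c9491 c3969 c5917 c2580 c3897 (k4 c14691 c15262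 c4386 c4387 (k2 c304 c10049 (k1 c15124 k0)))))))))) (by decide +kernel)
def c15264 : PP 8 4 T 0x1200000000002000040000000400000011100000100001008000001000000400100908 := rS 0xc7045b974de3707ad4224813c30bea12ca8cca674ba7c563b14b1d1e39 (k8 c2319 c15082 c4289 c4402 c4403 c4411 c4414 c4336 (k8 c4334 c4412 c4337 c63 c4551 c12467 c4486 c4324 (k8 c7771 c342 c1703 c2247 c322 c10992 c12418 c7094 (k2 c10460 c4407 (k1 c9288 k0))))) (by decide +kernel)
def c15265 : PP 8 4 T 0x1000000000000000000000000000001000000000000000054080000000001501000000000005540000 := rS 0x33da143 (k4 c4392 c2109 c1522 c5846 k0) (by decide +kernel)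
def c15266 : PP 8 4 T 0x40040040000000002045100000011040500401008000205540848 := rS 0xce4450cfccda29f49c837e3249649068449a0f379746a3654c343a55 (k8 c306 c791 c4328 c2981 c887 c1035 c2790 c1076 (k8 c6403 c377 c2267 c1408 c322 c1413 c7308 c10457 (k8 c9038 c2108 c4379 c4396 c1479 c2107 c4392 c15265 (k2 c6175 c1521 k0)))) (by decide +kernel)
def c15267 : PP 8 4 T 0x1000000040000000400000010100000100000000000041000000005000040 := rS 0x19cb8681314241542954e4f2e098be107e83d6a715e8de28912a96cca974fc40f63f0a94c8ec74584d8a3b609150e51721851e231cafd768142c202e798c274400202804b29b34c4c64993b9581409 (k8 c13906 c4462 c15019 c6033 c1071 c15263 c4340 c13396 (k8 c804 c63 c751 c430 c4461 c12975 c967 c4488 (k8 c4447 c572 c4465 c4321 c4439 c4449 c5760 c2319 (k8 c2775 c15082 c2885 c15257 c4405 c13785 c438 c6869 (k8 c4403 c4530 c4401 c5853 c4289 c4404 c4290 c15079 (k8 c398 c1227 c15240 c4414 c4336 c4412 c92 c306 (k8 c15266 c15264 c4386 c4354 c4387 c4389 c304 c8862 (k8 c14520 c542 c342 c343 c2413 c4532 c1341 c14540 (k4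 c7048 c7768 c975 c13636 (k2 c11255 c381 (k1 c1525 k0))))))))))) (by decide +kernel)
def c15268 : PP 8 4 T 0x1200200000002000040000000000000011500000000005010000000000000400100808 := rS 0x1e5c089204f0c2fa8546654f8ac52c7 (k8 c4289 c4402 c4411 c4414 c4412 c4337 c4551 c12467 (k4 c4486 c4324 c7771 c342 (k2 c9288 c2247 (k1 c12418 k0)))) (by decide +kernel)
def c15269 : PP 8 4 T 0x1000000001000000040000000400000010100000100000001000040000000005000040 := rS 0x9c4865b24960d089341eb92e8d9530d481f4fec244c10e6632d854ca97880ed1613609150e51721851e231caed0b080b9e6309d100080a012ca6cd31319264ee56050262e3c (k8 c15267 c4416 c13906 c4462 c15019 c6033 c1071 c15263 (k8 c4340 c13396 c804 c63 c751 c430 c4461 c12975 (k8 c967 c4488 c4447 c572 c4465 c4321 c4449 c2319 (k8 c2775 c15082 c2885 c15257 c4405 c13785 c438 c6869 (k8 c4401 c5853 c4403 c15240 c4336 c4412 c15079 c92 (k8 c9785 c1614 c10368 c7172 c8505 c4313 c4409 c15268 (k8 c4328 c2981 c887 c2790 c1205 c6403 c377 c2267 (k4 c1408 c1413 c7308 c2029 (k2 c11938 c7777 (k1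 c453 k0)))))))))) (by decide +kernel)
def c15270 : PP 8 4 T 0x1000000001000000040000000400000010100000100000000000040000000005000040 := rS 0x142502dd6aa63e93906fc25834224d079bc6a261b2a61a90a5b2d5cc339150b66d33aad2ead49c408e2963b1476c128b908a1d30a3c46395da050b080b9e6309d100080a012ca6cd31319264ee56050262e3c (k8 c15267 c4416 c13906 c4462 c15019 c6033 c1071 c15263 (k8 c4340 c13396 c804 c63 c751 c430 c4461 c12975 (k8 c967 c4488 c4447 c572 c4465 c4321 c4439 c4449 (k8 c2319 c2775 c15082 c2885 c791 c438 c15257 c4405 (k8 c6869 c4403 c4530 c4289 c4402 c4404 c15240 c4413 (k8 c4338 c4336 c4415 c4334 c9753 c92 c15269 c307 (k8 c1087 c11990 c8140 c4428 c15251 c4328 c2981 c887 (k8 c886 c1035 c1076 c6403 c377 c2267 c1408 c1413 (k8 c10457 c9038 c2108 c4379 c449 c1618 c13767 c908 (k2 c4989 c4423 k0)))))))))) (by decide +kernel)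
def c15271 : PP 8 4 T 0x2000000001000000040000000400000010100000000000000000040000000005000040 := rS 0xd02ab3d127d5c1314241542954e7f279704c5f083f41eb538af522374ba7e207b1f8548a534584d0e51721851e231cafd768142c202e798c274400202804b29b34c4c64993b9581409 (k8 c13906 c4462 c15019 c6033 c1071 c15263 c4340 c13396 (k8 c804 c63 c751 c430 c4461 c12975 c967 c4488 (k8 c4447 c572 c4465 c4321 c4439 c4449 c5760 c2319 (k8 c2775 c15082 c2885 c15257 c4405 c13785 c4401 c5853 (k8 c4290 c438 c15079 c398 c1227 c15240 c4414 c4336 (k8 c4386 c4352 c4354 c4387 c4389 c304 c8862 c14520 (k8 c542 c342 c343 c2413 c670 c4532 c1341 c14540 (k8 c7048 c7768 c975 c11255 c1356 c13253 c1525 c347 (k2 c2109 c381 k0))))))))) (by decide +kernel)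
def c15272 : PP 8 4 T 0x21200000000002000060000400000001111500000200001011000000008000400100808 := rS 0x32d50bd278d19e0fa19f49a11242944f058628546674f8ac52c717894c74b (k8 c4426 c1688 c2243 c172 c4289 c4402 c4411 c4414 (k8 c4334 c4337 c4551 c4486 c15268 c4324 c4385 c7771 (k8 c342 c376 c10070 c4421 c2247 c1791 c10883 c1491 (k4 c1040 c10290 c1751 c7105 k0)))) (by decide +kernel)
def c15273 : PP 8 4 T 0x1000000040000000400000010100000000000000000040000000005000040 := rS 0xf811079bc6a3686a41a0892a9d22a173cafe308f4e98446390e8800405898c90e8b2884ca6e405164b6010ac4136694c9dc1256 (k8 c15019 c13906 c6033 c1071 c13396 c804 c15240 c15079 (k8 c751 c92 c63 c4462 c15257 c4290 c4401 c4405 (k8 c5853 c13785 c15263 c4340 c430 c4461 c12975 c791 (k8 c2319 c2775 c2885 c967 c15082 c4488 c5760 c4447 (k8 c572 c15271 c15270 c1687 c596 c2109 c15272 c4328 (k4 c887 c1035 c1076 c6403 (k2 c2267 c10883 (k1 c1691 k0)))))))) (by decide +kernel)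
def c15274 : PP 8 4 T 0xa00000001001000000000000400000410000000040008001000140000000000100000 := rS 0x68b10511655ab526af (k8 c4346 c4413 c4338 c4415 c7153 c11648 c7641 c1760 (k1 c15020 k0)) (by decide +kernel)
def c15275 : PP 8 4 T 0x1001000000001000044000050184000100454000000144004450005000000 := rS 0x1d3147a530b461a01244c24da1f3da6cd2993b824ac9d (k8 c15070 c15019 c13906 c6033 c1071 c13396 c804 c1227 (k8 c1065 c9753 c4322 c187 c5853 c14044 c4632 c4465 (k4 c2030 c1678 c4370 c13456 (k1 c1762 k0)))) (by decide +kernel)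
def c15276 : PP 8 4 T 0x1001000000000000400000010100000100000001000040004000005000080 := rS 0x3160ad14414916c11498d0e7336854ca6755a5c5aad15a4e207b4d9a47e9d22abcd712188bc0456 (k8 c15019 c1018 c8877 c228 c4469 c4442 c4346 c3230 (k8 c15070 c11031 c13396 c804 c1227 c15240 c4413 c4411 (k8 c4338 c4332 c4336 c4415 c4334 c4412 c15079 c9753 (k8 c1022 c7313 c15274 c794 c14373 c15275 c14307 c2120 (k4 c179 c4314 c15020 c9491 k0))))) (by decide +kernel)
def c15277 : PP 8 4 T 0x1202000001001000020001000000000111100000000100000000041005000000000080 := rS 0x63ae19ab72708c80b52692c68bd8c89576be8617d4e2751a5d269b1f8e4f28f0e014b29d22aa54b1217808ac81 (k8 c4439 c15019 c1018 c8877 c4469 c4444 c4345 c3230 (k8 c15070 c63 c526 c1017 c12664 c501 c3151 c11031 (k8 c804 c4413 c4336 c4337 c872 c13601 c12467 c4486 (k8 c15161 c10310 c225 c4369 c194 c6330 c1324 c9875 (k8 c1518 c4472 c7320 c2111 c3045 c3454 c7468 c461 (k1 c11342 k0)))))) (by decide +kernel)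
def c15278 : PP 8 4 T 0x201100000001000020000000000000010000005401500000000005000000000000000 := rS 0x1dc5d8b183299d5a93 (k8 c4413 c4338 c4334 c4412 c4482 c4370 c14062 c1762 (k1 c4471 k0)) (by decide +kernel)
def c15279 : PP 8 4 T 0x1200000001001000040000000000000010100000400100002100040005000000000080 := rS 0xee2ec55e20df8bb38ac468372e8984abf37a410a8184341826d558b55a2b499ed36991f870f29d22abcd71217808a6291ec152e1f02964420b33804ac09 (k8 c13906 c15019 c751 c4334 c83 c799 c63 c526 (k8 c1065 c4336 c4406 c5184 c1599 c9029 c1018 c8877 (k8 c4469 c4442 c4346 c3230 c15070 c501 c1017 c11031 (k8 c1071 c804 c1227 c4413 c4411 c4338 c4332 c4415 (k8 c9753 c6869 c2112 c15278 c4439 c4321 c15277 c2998 (k8 c1244 c11879 c12087 c2787 c320 c873 c1148 c497 (k8 c1310 c4480 c4306 c2122 c3025 c7641 c1762 c4471 k0))))))) (by decide +kernel)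
def c15280 : PP 8 4 T 0xa00100001001000000000000400000510000001100000008200145005000000100000 := rS 0x1186018d868962b44ceab4bab5269d (k8 c15070 c4413 c4338 c4336 c4415 c4334 c178 c1595 (k4 c1863 c1867 c15041 c9798 (k2 c15056 c4450 k0))) (by decide +kernel)
def c15281 : PP 8 4 T 0x1001000040000000400000010100000100000000000040004000005000000 := rS 0xc724a859b0c119384a4d258d28a275f11d2314681447a2929c14a8010f855466755a5c5a9f568ae207b4d9a53277048fc383902964f22105a748aa957a962431178080c56 (k8 c15019 c15273 c1018 c8877 c228 c4469 c4444 c4346 (k8 c4345 c3230 c15070 c83 c799 c501 c63 c526 (k8 c3151 c1017 c11031 c13906 c6033 c1071 c13396 c804 (k8 c1227 c15240 c4411 c4338 c4414 c4332 c4336 c4415 (k8 c4334 c4337 c15079 c1065 c751 c15276 c4406 c9029 (k8 c1599 c5184 c15280 c2112 c15279 c4352 c12069 c15222 (k8 c872 c4399 c6330 c1324 c9875 c1369 c4474 c14758 (k4 c4467 c3454 c4329 c12404 (k2 c461 c2110 k0))))))))) (by decide +kernel)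
def c15282 : PP 8 4 T 0x40000000000001201000000000000000400440041101401100050400004008000000000000000000080 := rS 0x70411bdfa855e430bea758a8cca674fa651e052c9843802 (k8 c1018 c1017 c2883 c63 c526 c12664 c1071 c4414 (k8 c4334 c4412 c4337 c1147 c13601 c12467 c4486 c2126 (k4 c14106 c7315 c3000 c4507 (k2 c4480 c2448 k0)))) (by decide +kernel)
def c15283 : PP 8 4 T 0x1001000040000000400000010100000000000000000040004000005000000 := rS 0x1784d38a0c92341bb2562851317502250788cdf0d4845596bf5d85a96d08c425147d29b1424113fa247887319562e742c9b42a6533aad2e2d568ad27103b824f69b348fc72791082cc21c4e91552af35a962431178080c56 (k8 c15019 c15273 c1018 c8877 c228 c4469 c4444 c4442 (k8 c4346 c4345 c3230 c15070 c1017 c2883 c83 c799 (k8 c501 c3151 c11031 c13396 c804 c1227 c13906 c6033 (k8 c15240 c4413 c4411 c4338 c4332 c4336 c4415 c4334 (k8 c4412 c15079 c9753 c63 c15281 c4417 c1687 c1688 (k8 c1693 c11627 c596 c2450 c2595 c498 c1785 c332 (k8 c3607 c2120 c13357 c7804 c13513 c4427 c4465 c4449 (k8 c4369 c3680 c15222 c15282 c4328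 c2998 c769 c12083 (k8 c11879 c1835 c12418 c12087 c7196 c1148 c7308 c320 (k4 c873 c1718 c644 c497 (k2 c380 c2122 (k1 c1040 k0)))))))))))) (by decide +kernel)
def c15284 : PP 8 4 T 0x1000000040000000400000010100000000000000000040004000005000000 := rS 0x8218e2e8739b15167514944761372448da6555ab527104d9a48a2f188080c56 (k8 c15019 c15273 c1018 c228 c8877 c3230 c13396 c804 (k8 c15240 c4413 c4338 c4415 c4412 c9753 c4469 c15283 (k8 c4401 c4403 c4405 c4402 c498 c5853 c4530 c1021 (k4 c13785 c7641 c7153 c4481 (k1 c14294 k0))))) (by decide +kernel)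
def c15285 : PP 8 4 T 0x1200000001001000040000000400000001104004500000001000041008000000000080 := rS 0xc93f9741f04379f4c6135b0a5a0b55c94588c104a8cca6755a5d3e3f22984044005a2ce6890a94c5aa12faed03084e1e4da1158a96188f0e014b256 (k8 c15019 c63 c526 c1017 c12664 c4486 c4385 c1147 (k8 c608 c9753 c501 c952 c15054 c4439 c10310 c12467 (k8 c12260 c4332 c416 c15079 c7314 c1022 c4322 c83 (k8 c12976 c1018 c2883 c3230 c11031 c4414 c4336 c4415 (k8 c4334 c4412 c4337 c13906 c1853 c14226 c1595 c3048 (k8 c1789 c15020 c957 c4031 c1758 c11648 c1627 c2999 (k4 c4464 c12083 c4628 c4313 (k2 c10573 c2118 k0)))))))) (by decide +kernel)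
def c15286 : PP 8 4 T 0x1200000001001000040000000400000011104004500000001000040008000000000080 := rS 0x18e0d1b9b8e2fd3f9f4c7041491c78258617d4227588242aa33299c5a2b05a3c0a59308700456 (k8 c15019 c1018 c1017 c2883 c63 c526 c12664 c83 (k8 c4411 c4332 c4334 c4412 c4337 c15079 c13906 c1147 (k8 c872 c12260 c12467 c4486 c225 c15285 c8078 c7860 (k8 c10368 c9785 c7516 c4313 c7315 c7316 c4480 c1344 (k2 c1290 c330 (k1 c14295 k0)))))) (by decide +kernel)
def c15287 : PP 8 4 T 0x1200000001001000040000000400000010104004500000001000040008000000000080 := rS 0x2097611589349e372eaa44c2507afcde2348024b2021090016a740a16109c0e1e4da56 (k8 c15019 c9753 c501 c1017 c952 c15054 c4321 c4439 (k8 c2909 c83 c12976 c799 c1018 c63 c13906 c15286 (k8 c2960 c2998 c1245 c12083 c11879 c12087 c2977 c2787 (k8 c320 c449 c377 c1148 c343 c1851 c9044 c9038 k0)))) (by decide +kernel)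
def c15288 : PP 8 4 T 0x1001000040000000400000010100000100000001000041000000005000000 := rS 0x324df042ec34c63509a805249682e4a23a6230546654ba7d263f22a3c0a5930808800b61a655a8b84270f27344854a62d58adce2b513a46288789aacda323d9a4ee09880700c56 (k8 c15019 c15273 c1017 c15240 c13906 c6033 c13396 c1227 (k8 c15284 c9753 c4415 c4340 c11158 c15287 c4352 c872 (k8 c4389 c4387 c4353 c4350 c4332 c416 c15079 c7314 (k8 c1022 c501 c952 c15054 c4322 c4338 c1071 c9725 (k8 c83 c12976 c1018 c2883 c63 c526 c12664 c3230 (k8 c11031 c4413 c4414 c4336 c4412 c4337 c1853 c14226 (k8 c8505 c1595 c3048 c15020 c1722 c957 c11255 c1758 (k8 c11516 c11648 c4329 c810 c4464 c1019 c7308 c8522 k0)))))))) (by decide +kernel)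
def c15289 : PP 8 4 T 0x12220000000001000040040000000000000000145400005001000420000014000100088 := rS 0x1c0c7e8954665338b4567d (k8 c7516 c4411 c4332 c4334 c4412 c4337 c4381 c7315 (k2 c14295 c15158 (k1 c32 k0))) (by decide +kernel)
def c15290 : PP 8 4 T 0x1001000040000000400000010100000100000001000040000000005000000 := rS 0xfd2f83d42252450e1a7f6398c53171e11c4eb538add22378a055466533a5d3e2b499dc123f47814b26101100168789aae211940c2138320e1e4f66936958e606 (k8 c15273 c1022 c15019 c9753 c13396 c1227 c501 c1017 (k8 c15284 c952 c15054 c4439 c4368 c15240 c4415 c4340 (k8 c11158 c83 c12976 c1018 c2883 c63 c526 c12664 (k8 c11031 c13906 c6033 c4413 c4411 c4414 c4336 c4334 (k8 c4412 c4337 c15079 c15287 c4386 c4352 c4353 c4387 (k8 c4389 c872 c12297 c15288 c4416 c7860 c9785 c330 (k8 c10049 c15289 c11164 c4473 c2134 c11453 c242 c10439 (k2 c10398 c15158 k0)))))))) (by decide +kernel)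
def c15291 : PP 8 4 T 0x1200001000001000040000000100000000000000000001001000002040015000100188 := rS 0x61b98e71518b45647 (k8 c8078 c4411 c4332 c4337 c497 c330 c4480 c14295 (k1 c1290 k0)) (by decide +kernel)
def c15292 : PP 8 4 T 0x1200000000001000040000004000000001100050000004009000002000000000100180 := rS 0x632e49223378d9fa258617d422758a8cca6716a7c560b47814b2610e0a40447 (k8 c8078 c1018 c794 c1017 c2883 c63 c526 c12664 (k8 c83 c4411 c4414 c4332 c4334 c4412 c4337 c1147 (k8 c872 c12260 c12467 c4486 c225 c7315 c15291 c1344 (k4 c1409 c323 c12018 c2110 (k1 c331 k0))))) (by decide +kernel)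
def c15293 : PP 8 4 T 0x1200000001001000040000004000000000100055400004001000002008000000110080 := rS 0x825d9349e3754ac44c5d1283d7e6f11a40125901084800b53a050b084e070da56 (k8 c15019 c9753 c1017 c952 c15054 c4321 c4439 c2909 (k8 c83 c12976 c799 c1018 c63 c13906 c15292 c2960 (k8 c2998 c1245 c12083 c11879 c12418 c12087 c1148 c2977 (k4 c320 c449 c377 c1851 (k2 c9044 c9038 k0))))) (by decide +kernel)
def c15294 : PP 8 4 T 0x1001000040000000400000010100000000000001000040000000005000000 := rS 0xfd2f83d42252450e1a2763a446f145b9f48e2909044fe3c319d02aa332a5d3e2b49c40ee091fa3c0a5930808800b8ca06109c19070f2063d9a4da56 (k8 c15019 c9753 c13396 c1227 c15273 c501 c1017 c15284 (k8 c952 c15054 c4439 c4368 c83 c12976 c1018 c2883 (k8 c63 c526 c12664 c11031 c13906 c6033 c15240 c4413 (k8 c4411 c4414 c4336 c4412 c4337 c15079 c15290 c1688 (k8 c11627 c2450 c2595 c498 c794 c8078 c3607 c3670 (k8 c15293 c4386 c4352 c330 c872 c15289 c11164 c4473 (k4 c2134 c11453 c242 c10439 (k2 c10497 c15158 k0)))))))) (by decide +kernel)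
def c15295 : PP 8 4 T 0x120000000000100004000000000000001110000000000000a000000080000000000180 := rS 0xf6308d726f1a8b45693010e51e291ec152e1f02964420b338044e1c (k8 c1017 c872 c751 c4334 c83 c799 c63 c526 (k8 c1065 c4336 c4406 c5184 c1599 c12664 c3151 c1018 (k8 c4413 c4411 c4332 c87 c1344 c1472 c1409 c12012 (k2 c12083 c250 k0)))) (by decide +kernel)
def c15296 : PP 8 4 T 0x120000000000000004000010140001000150110541400000a010020000000000010108 := rS 0xbf41ad8ba0f3299d2e9f829d562bb (k8 c10310 c1147 c1687 c4406 c4414 c4336 c4334 c4412 (k4 c12083 c4628 c10460 c9038 (k2 c3045 c2122 k0))) (by decide +kernel)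
def c15297 : PP 8 4 T 0x120000000000100004000000040000001110000540000000a000000008000000000180 := rS 0x7f5c0396e6e5a8d0e2372684542bd13ac5469749808728f02964800b40a16109c0e1b60a75 (k8 c1687 c4406 c9753 c1017 c952 c15054 c4321 c4439 (k8 c83 c12976 c63 c526 c12664 c3151 c1018 c4413 (k8 c4336 c4337 c1147 c872 c1173 c12260 c608 c376 (k8 c15295 c497 c4470 c7883 c15296 c2999 c1020 c7468 (k2 c3427 c5280 k0))))) (by decide +kernel)
def c15298 : PP 8 4 T 0x1200000001001000040000000400000010100005400000002000000008000000000080 := rS 0x104bb08ac49a4f1b97552261283d7e6f11a40125901084800b53a050b084e070da56 (k8 c15019 c9753 c1017 c952 c15054 c4321 c4439 c2909 (k8 c83 c12976 c799 c1018 c63 c13906 c15297 c2960 (k8 c2998 c1245 c12083 c11879 c12087 c2977 c2787 c320 (k4 c449 c377 c1148 c343 (k2 c1851 c9044 (k1 c9038 k0)))))) (by decide +kernel)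
def c15299 : PP 8 4 T 0x200100000000000040001045400002001100100108001000000000000004000000089 := rS 0x142b952c30fe4b12838685f51aad2e9f (k8 c4414 c4336 c4415 c4337 c1377 c1019 c1020 c225 (k4 c1333 c3427 c11620 c10933 (k2 c5280 c4329 (k1 c4031 k0)))) (by decide +kernel)
def c15300 : PP 8 4 T 0x1001000040000000400000010100000000000000000040000000005000000 := rS 0x1045e1243446a05c9bc4eb55ba45771460944eb052a005469716a7c56934da64ee0922a3c0a59308bc620243c4d571040a16109c19070f2063d9a4da56 (k8 c15019 c9753 c13396 c1227 c15273 c501 c1017 c15284 (k8 c952 c15054 c4321 c4439 c15240 c4415 c4340 c11158 (k8 c1018 c228 c8877 c2883 c63 c526 c12664 c3230 (k8 c13906 c6033 c1071 c804 c4413 c4411 c4414 c4332 (k8 c4336 c4337 c751 c15294 c4406 c1687 c1604 c6869 (k8 c15298 c4390 c4352 c4353 c4389 c872 c15299 c4548 (k4 c7050 c9836 c4329 c4467 (k2 c225 c12063 (k1 c6467 k0))))))))) (by decide +kernel)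
def c15301 : PP 8 4 T 0x1200000000002000040000011400000011100000000000008000000000000000000080 := rS 0x232e8d8de115b430bea113ac54697498e51e052c98438023a84ce63b (k8 c4403 c1021 c4401 c498 c1018 c1017 c2883 c63 (k8 c526 c12664 c3151 c4413 c4336 c4337 c1147 c872 (k8 c12260 c12467 c4486 c7468 c608 c2999 c7094 c4628 (k2 c1409 c10636 k0)))) (by decide +kernel)
def c15302 : PP 8 4 T 0x1200000001002000040000011400000010100005400000000000000009000000000080 := rS 0x2ed624f1b9744c8312afcde2348024b20210c4c800b53a050b084e070da56 (k8 c15019 c9753 c1017 c952 c15054 c4321 c4439 c2909 (k8 c83 c12976 c4340 c799 c1018 c63 c13906 c15301 (k8 c2960 c2998 c1245 c11879 c9103 c12087 c2787 c320 (k4 c449 c1148 c1851 c9044 k0)))) (by decide +kernel)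
def c15303 : PP 8 4 T 0x1000000040000000400000010100000000000000000040000000005000000 := rS 0x3412124470d13a816e911bc516ab91ec5910c139b14ea29288ec26477222e10c343a722632189e47202228700c993d9dcd2093695956974fab45710 (k8 c15240 c4411 c4338 c4414 c4336 c4415 c15019 c9753 (k8 c13906 c13396 c6033 c1227 c1071 c15273 c1017 c3230 (k8 c1018 c3151 c501 c228 c15284 c4340 c952 c11158 (k8 c9725 c15054 c4322 c15300 c4404 c4401 c4403 c4405 (k8 c4402 c498 c4530 c1021 c6869 c2123 c7172 c4416 (k8 c4361 c4419 c15302 c4386 c4352 c4353 c11255 c872 (k4 c4329 c2961 c11453 c4467 (k2 c7430 c1369 k0)))))))) (by decide +kernel)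
def c15304 : PP 8 4 T 0x1000000001001000040000000400000001100000500000001000040000000006000000 := rS 0x1eb08a48b439a8d23060c4e304132aae207917804f6451f8080a59628ccda56398181609448542ed1 (k8 c260 c35 c15079 c7030 c13906 c308 c4462 c1022 (k8 c15019 c9753 c255 c7539 c63 c526 c1018 c11031 (k8 c256 c14312 c751 c1871 c1959 c15240 c4415 c4412 (k8 c1872 c4540 c15192 c4450 c4469 c1879 c229 c11158 (k4 c564 c7648 c2123 c332 (k1 c9009 k0)))))) (by decide +kernel)
def c15305 : PP 8 4 T 0x1000000001001000040000000400000011100000100000001000040000000004000000 := rS 0x2d5fa5d5c9f4fe6f822f0c71754c4976315f900ec730aa8cca6755a5d3ead49c405e014e91532c5199b4c20258a9d36792fa96188f0e0140c0b0c024b256 (k8 c15019 c63 c13906 c15303 c308 c4462 c526 c1017 (k8 c12664 c4486 c4385 c12467 c1959 c805 c13601 c1147 (k8 c1018 c2883 c9753 c255 c7539 c2997 c256 c15070 (k8 c751 c1871 c15240 c4413 c4338 c4414 c4336 c4415 (k8 c4334 c4412 c4337 c15079 c1022 c15304 c1023 c3005 (k8 c1912 c3779 c4469 c4345 c7641 c15274 c2126 c4481 (k8 c3000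 c4313 c4409 c14038 c4628 c7315 c9620 c7622 k0))))))) (by decide +kernel)
def c15306 : PP 8 4 T 0x1200000001001000040000000000000011100000400000002000040000000006000000 := rS 0x33e874b65aa170ae5eb0e264151aad3ead49a747e99628ccdaa74d9e54b0c478707a970f814b221338060ac12885c8ab55d8d06e390302c1256 (k8 c15019 c13906 c308 c4462 c3151 c15295 c4470 c1310 (k8 c7883 c256 c35 c1605 c6869 c4406 c751 c4334 (k8 c799 c63 c526 c1065 c4336 c5184 c1017 c12664 (k8 c4486 c4385 c1959 c805 c13601 c9753 c255 c7539 (k8 c2997 c11031 c15070 c4413 c4338 c4414 c4415 c4337 (k8 c1872 c15192 c9009 c1039 c7287 c13526 c11945 c8140 (k4 c4428 c4394 c1526 c7105 k0))))))) (by decide +kernel)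
def c15307 : PP 8 4 T 0x1000000001001000040000000400000011100000100000000000040000000004000000 := rS 0x1ce2eaf890c4807660a24a22929c14a86755ab527100b8bc029b3ca748a9962818160919860da56 (k8 c15019 c9753 c15303 c255 c13906 c308 c4462 c7539 (k8 c2997 c256 c15070 c1959 c805 c751 c1871 c35 (k8 c15240 c4413 c4338 c4415 c4334 c15305 c4406 c9029 (k8 c1599 c1605 c2038 c6869 c15306 c1023 c1912 c4469 (k4 c5815 c7641 c7478 c4481 k0))))) (by decide +kernel)
def c15308 : PP 8 4 T 0x1000000001001000040000000400000011100000000000000000040000000004000000 := rS 0x5b1f4247f1e18caa742b056203f0302c3009 (k8 c13906 c15303 c308 c4462 c11031 c15240 c15079 c15019 (k8 c15307 c1687 c1688 c11627 c2450 c498 c3607 c15292 (k1 c3670 k0))) (by decide +kernel)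
def c15309 : PP 8 4 T 0x1210000001001000040040450501001010000405104000009000000060000002100080 := rS 0x3ba14826953c4c60ae31b0586295b04cfed139aad2ead49a6d3202628ccda7d5aa05f871 (k8 c497 c4480 c4380 c7883 c8975 c9753 c255 c7539 (k8 c1018 c2997 c805 c4413 c4338 c4336 c4415 c1022 (k8 c260 c12366 c12026 c4088 c795 c3022 c1749 c11648 (k8 c7287 c13950 c9798 c13767 c828 c1912 c11940 c11833 (k1 c9037 k0))))) (by decide +kernel)
def c15310 : PP 8 4 T 0x200000001001000000000000000000010100504404000002000040000008002000000 := rS 0x1829626bd61c6082ab56a4cf233368bc7e9958974e2375d8d0383d4b87c0a062c88416670095a0ac12885c8a09 (k8 c13906 c256 c35 c1605 c6869 c4406 c15019 c751 (k8 c4334 c308 c799 c63 c4462 c526 c1065 c4336 (k8 c5184 c1017 c873 c1310 c320 c497 c2787 c1148 (k8 c2997 c11031 c1871 c9753 c255 c1959 c4413 c4338 (k8 c4415 c1872 c4540 c9009 c1039 c7972 c12024 c4469 (k1 c357 k0)))))) (by decide +kernel)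
def c15311 : PP 8 4 T 0x1210000001001000040000410401000010100004104000000000040000008002000000 := rS 0x738babe2431201d98289288a4a7052a054ceab56a4c2e2f00a6cf29d22a658a3336a0c1e02638b5763440bf0e23710ac4ba1c0302c1256 (k8 c15019 c13906 c308 c4462 c1017 c2787 c1148 c799 (k8 c320 c497 c4480 c4380 c873 c1310 c4332 c408 (k8 c1018 c12083 c1999 c9753 c255 c7539 c2997 c256 (k8 c15070 c1959 c805 c751 c1871 c35 c4413 c4338 (k8 c4415 c4334 c15079 c15309 c4406 c9029 c1599 c1605 (k8 c2038 c6869 c15310 c1023 c1912 c4469 c5815 c7641 (k2 c7478 c4481 k0))))))) (by decide +kernel)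
def c15312 : PP 8 4 T 0x1000000001001000040000000400000010100000000000000000040000000004000000 := rS 0x89b0d0869a530596cd28b3d17424394c52d15b848fe891e18cab173a205f87d5a9c592b11a0dcba2627a0c4a0f5caa57e6f86a40caab4b8b55a2b49c42127917804f6214e9147e052cb14666d308700406058601256 (k8 c15019 c13906 c15303 c308 c4462 c1018 c1017 c2883 (k8 c9753 c255 c7539 c63 c526 c11031 c256 c15070 (k8 c799 c14312 c751 c1871 c1959 c4436 c15240 c4413 (k8 c4411 c4338 c4332 c4336 c4415 c4412 c15308 c4328 (k8 c2998 c1244 c978 c1205 c12083 c11879 c1999 c258 (k8 c12087 c2787 c320 c873 c1148 c7308 c497 c7883 (k8 c8975 c4480 c4380 c15311 c4417 c1687 c1688 c11627 (k8 c596 c2450 c498 c1744 c260 c794 c332 c3608 (k8 c4492 c7874 c7875 c1876 c4395 c4425 c6869 c4475 (k4 c7083 c2124 c4459 c13000 (k1 c10079 k0))))))))))) (by decide +kernel)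
def c15313 : PP 8 4 T 0x600000001001000010010000400000000010005541000000000044000400002000018 := rS 0x7ac22922d0e6a348c0caab199058318 (k8 c4540 c4450 c1872 c255 c4415 c4412 c4469 c1879 (k4 c229 c11158 c564 c7648 (k2 c2123 c332 (k1 c9009 k0)))) (by decide +kernel)
def c15314 : PP 8 4 T 0x2200000001001000000000000400000010100004500000001000040000000002000000 := rS 0x45e24c15fc6146ab4bab5262f00a6cf29d228fd3202628ccda8f0e014b256398181609448542ed1 (k8 c260 c35 c15079 c7030 c13906 c308 c4462 c1022 (k8 c15019 c63 c526 c1017 c12664 c9753 c255 c7539 (k8 c1018 c2997 c11031 c256 c15070 c1959 c805 c751 (k8 c1871 c4413 c4338 c4336 c4415 c4337 c4540 c4369 (k4 c4450 c15313 c7641 c13683 k0))))) (by decide +kernel)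
def c15315 : PP 8 4 T 0x2200000001000000000010000000001410100000900000000000000004400000000080 := rS 0x117890c582bf2028d569756a4d328f0e014b256 (k8 c15019 c63 c526 c1017 c12664 c2997 c4413 c4338 (k8 c4336 c4415 c4337 c1023 c3005 c1893 c1912 c4469 (k2 c7641 c13683 k0))) (by decide +kernel)
def c15316 : PP 8 4 T 0x2200000001001000000000000400000010100004100000000000040000000002000000 := rS 0x340614b5730ca23d1494e0ac12a46082770f99d56971585c5e0110a6cf29d228fd32052cb140c0b048ccda56 (k8 c15019 c9753 c255 c13906 c308 c4462 c7539 c63 (k8 c526 c2997 c11031 c256 c15070 c1959 c805 c799 (k8 c751 c1871 c35 c4411 c4336 c4415 c4334 c1065 (k8 c15315 c1872 c4540 c15314 c4450 c4406 c9029 c1599 (k8 c5184 c1605 c9009 c7287 c4428 c5815 c4475 c300 k0))))) (by decide +kernel)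
def c15317 : PP 8 4 T 0x1001000040000000400000010100000000000000000040000000004000000 := rS 0x15ec3a5304a28729b44243c2a9d228ab881ed36794e9147e9962818160919860da56 (k8 c15019 c9753 c15303 c255 c13906 c308 c4462 c7539 (k8 c2997 c11031 c256 c15070 c1959 c805 c14312 c15240 (k8 c4415 c15312 c15316 c1687 c11627 c498 c260 c332 (k4 c3608 c1876 c6869 c4475 (k2 c4459 c4428 (k1 c7287 k0)))))) (by decide +kernel)
def c15318 : PP 8 4 T 0x1000000001000000040000000400000011100000400000000000040000000004000000 := rS 0x152bd7e9f4ff0431c5d168543a0cd4691844e185f53a8cca6755c42122f00a6cf29d4cb14666d47814b2610e008ac89299d426731d81816c128b917f183d9143009 (k8 c13906 c15303 c256 c14312 c4540 c4369 c15317 c4405 (k8 c6869 c308 c4462 c4403 c1021 c4401 c498 c4290 (k8 c2038 c15019 c1018 c1017 c2883 c63 c526 c12664 (k8 c9753 c255 c7539 c2997 c15070 c1959 c805 c751 (k8 c1871 c4436 c15240 c4415 c4334 c4412 c4337 c13601 (k8 c12467 c4486 c15192 c4469 c1879 c229 c9113 c11158 (k8 c10110 c564 c9460 c7153 c4481 c4313 c4409 c7315 (k2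 c4507 c5323 (k1 c9059 k0))))))))) (by decide +kernel)
def c15319 : PP 8 4 T 0x1000000001000000040000000400000010100000400000001000040000000004000000 := rS 0x1863d8b414fc7d5aadce2c9588d06e5d13095726f86a4082590a994ce97880847e39628ccda610e008ac75099cc760605b04a2e422825a218 (k8 c15303 c260 c13906 c256 c15317 c4405 c6869 c308 (k8 c4462 c4403 c1021 c4401 c498 c15019 c1018 c1017 (k8 c2883 c9753 c255 c7539 c3151 c11031 c799 c15240 (k8 c4336 c4334 c4412 c15079 c63 c1872 c15318 c4328 (k8 c2998 c1205 c11879 c12087 c2787 c320 c873 c1148 (k8 c7308 c497 c7094 c7883 c8975 c9361 c10837 c5095 (k2 c10368 c4362 (k1 c9770 k0)))))))) (by decide +kernel)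
def c15320 : PP 8 4 T 0x1000000001000000040000000400000010100000000000001000040000000004000000 := rS 0x578c4807668aac5aad15c40666d1780532060586012562994452e4 (k8 c15317 c4402 c4405 c4290 c15019 c13906 c15303 c308 (k8 c4462 c2997 c751 c1871 c9753 c255 c15240 c4411 (k8 c4338 c4332 c4415 c260 c15319 c1023 c1912 c5815 (k1 c2112 k0)))) (by decide +kernel)
def c15321 : PP 8 4 T 0x200000001000000000000000400000110100005140000002500144404010100000018 := rS 0x823061c587b050087c126755a5d5a934d9593ac1 (k8 c6869 c15070 c15019 c805 c4413 c4338 c4336 c4415 (k8 c4334 c13906 c1065 c751 c4406 c5184 c4481 c4362 (k2 c7662 c1912 (k1 c13217 k0)))) (by decide +kernel)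
def c15322 : PP 8 4 T 0x2621000000000000040000400000401500100450001105000000000004000000000010 := rS 0xa842bf54a2551994cebb (k8 c4390 c4334 c4412 c4337 c4381 c4385 c7315 c10705 (k2 c10851 c5323 k0)) (by decide +kernel)
def c15323 : PP 8 4 T 0x40000000000006400200000000000040400400000000000000405505100000044150104000000050018 := rS 0x8540b244a0f5dadd7a71 (k8 c4387 c4354 c4353 c4390 c8260 c224 c10573 c12056 (k2 c10705 c8103 k0)) (by decide +kernel)
def c15324 : PP 8 4 T 0x1000000040000000400000010100000000000000000040002000004000000 := rS 0x4a0e2f9ba1a7d65d2cff0431b0a2e8b25a9d0e833513cd31332aae12393087112c15e9c422b120afe30778a154e629288eca6052c809323f109d426e462a7536790302c5e01199b4ad103d9143009 (k8 c13906 c15303 c256 c14312 c15240 c15019 c9753 c255 (k8 c751 c1871 c308 c4462 c1959 c805 c15070 c7539 (k8 c15317 c4401 c498 c799 c11031 c2997 c1018 c63 (k8 c526 c4290 c4403 c4405 c4402 c1021 c15321 c15320 (k8 c15315 c4540 c4369 c1872 c4350 c608 c4387 c4354 (k8 c6869 c2038 c1017 c2883 c3151 c4436 c4415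 c4412 (k8 c4441 c1879 c2140 c229 c9113 c11158 c3910 c3827 (k8 c564 c9460 c8505 c7153 c4481 c10049 c4459 c2028 (k4 c4409 c15322 c15323 c1377 (k2 c1020 c225 (k1 c11620 k0))))))))))) (by decide +kernel)
def c15325 : PP 8 4 T 0x1000000040000000400000010100000000000000000040000000004000000 := rS 0x2bc62d12a9ccea29288ec26537201404991f8840c7b178ccf20b22860b26d0095812ab16ab45710 (k8 c15240 c4411 c4338 c4332 c4415 c13906 c15019 c751 (k8 c9753 c63 c15303 c256 c308 c1959 c255 c1871 (k8 c14312 c4462 c799 c11031 c2997 c1018 c526 c15317 (k8 c4290 c4401 c4403 c4405 c4402 c498 c1021 c15321 (k4 c260 c15324 c5815 c2112 k0))))) (by decide +kernel)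
def c15326 : PP 8 4 T 0x1000000001000000000000000400000010100000100000000000040000000005000040 := rS 0x2a596bda5b40dcc2449cd1e515b98e2e3b67ad4ab431e05d8cc13ca8630c548a745225100090e8b5fa9ca6058984d62451f8c81459368042aa33299d569716a7c5693880444e49118d48ee5691ed36694c9dc1256 (k8 c15019 c13906 c6033 c1071 c13396 c804 c1227 c15325 (k8 c13532 c4374 c4373 c4372 c4281 c4278 c4276 c15240 (k8 c4413 c4411 c4414 c4332 c4336 c4415 c4334 c4412 (k8 c4337 c15079 c751 c9753 c63 c4462 c15247 c398 (k8 c438 c622 c570 c4340 c430 c416 c902 c6330 (k8 c5853 c11158 c4461 c12975 c2243 c795 c967 c886 (k8 c7718 c4488 c4551 c4447 c4450 c2110 c572 c15248 (k8 c4391 c2250 c1432 c1520 c89 c4416 c9785 c1742 (k8 c1684 c4521 c13487 c7030 c8505 c14266 c2109 c4459 (k4 c1079 c1750 c7105 c9059 k0)))))))))) (by decide +kernel)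
def c15327 : PP 8 4 T 0x1200000000000000000000011400000011100050154004008000000000000000000000 := rS 0x2fac4b2a33299d3e93 (k8 c4413 c4414 c4334 c4412 c4337 c63 c1147 c12467 (k1 c14110 k0)) (by decide +kernel)
def c15328 : PP 8 4 T 0x1000000000000000080020440100000000001155400000001400000000000000140180 := rS 0x19ebc6320d920f7e044924738834de35 (k8 c4373 c1019 c4371 c496 c4374 c4281 c4276 c5772 (k4 c10635 c4305 c4306 c2107 (k2 c2122 c1520 (k1 c1176 k0)))) (by decide +kernel)
def c15329 : PP 8 4 T 0x1000000001000000000000000400000010100000100000001000040000000005000000 := rS 0x5109ccf63284b8b03184c52d028b1116c38cb05129c29902267f3e8c90e730aab44e491191d0285069ecd2993b870f2bb25afc8a3d5a8fdca25012e4de353398402094b8b456d251814b256058193f10 (k8 c15240 c4414 c15326 c83 c15019 c63 c526 c4337 (k8 c15325 c4411 c4332 c4336 c13906 c751 c5402 c4334 (k8 c4373 c1019 c14038 c1018 c11879 c13532 c11031 c11890 (k8 c11891 c3230 c6330 c4375 c6870 c501 c1017 c6033 (k8 c1071 c13396 c1227 c4371 c6224 c6395 c4374 c4372 (k8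 c4281 c4278 c4338 c15079 c1022 c7313 c15276 c7516 (k8 c7517 c4340 c12976 c416 c952 c9478 c1853 c4368 (k8 c9725 c4632 c2123 c1595 c15020 c957 c1758 c11648 (k8 c15328 c1148 c810 c2110 c1520 c460 c8360 c4396 k0))))))))) (by decide +kernel)
def c15330 : PP 8 4 T 0x1200000000000000080020440140000000001105400000002000000000011000000180 := rS 0x33940bc63a0c1efc518b53e2b13924464738834de35 (k8 c4373 c1019 c4371 c496 c4374 c4372 c4281 c4278 (k8 c4411 c4414 c4332 c4337 c5772 c10635 c4306 c250 (k4 c2122 c2110 c1176 c1794 k0))) (by decide +kernel)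
def c15331 : PP 8 4 T 0x12000000000000000a0000440440000000001105480000012000000000010000000188 := rS 0x7f2fbf560c41d28c5a9f1589c922323894de35 (k8 c4373 c1019 c11879 c4374 c4372 c4281 c4278 c4411 (k8 c4414 c4332 c4337 c1021 c1762 c15330 c4304 c544 (k2 c674 c11895 k0))) (by decide +kernel)
def c15332 : PP 8 4 T 0x1200000001001000080000000400000410101104500000002000040005000000000080 := rS 0x3b39b40a2af8905556ad4c9e442bb25afc8a2f1ead47e25012e4de35339852e2d15a8c0a5905a7e0a5314804ac09 (k8 c13906 c15019 c751 c1599 c9029 c4406 c4414 c83 (k8 c63 c526 c4337 c4411 c4332 c4336 c5402 c4334 (k8 c4373 c1019 c14038 c1018 c11879 c11031 c11890 c11891 (k8 c8877 c3230 c6330 c4375 c6870 c799 c501 c1071 (k8 c4338 c4415 c15079 c4469 c5815 c15280 c2112 c15331 (k2 c1600 c15321 k0)))))) (by decide +kernel)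
def c15333 : PP 8 4 T 0x1200000000000000080000440100002000001105400000002000000000011000000180 := rS 0x2a140bc63a0c1efc518b53e2b13924464738834de35 (k8 c4373 c1019 c4371 c496 c4374 c4372 c4281 c4278 (k8 c4411 c4414 c4332 c4337 c5772 c10635 c4306 c250 (k4 c2122 c2110 c1174 c7768 k0))) (by decide +kernel)
def c15334 : PP 8 4 T 0x1000000001000000000000000400000010100000100000000000040000000005000000 := rS 0xc63f97dfab04e0c992292a09462bf5d9bcf202228700c59518b53e2b8809c92231a91cc2013b825ca8125a141ad23da6cd256 (k8 c15019 c13396 c804 c1227 c15325 c4371 c6224 c4375 (k8 c6395 c13532 c13906 c6033 c751 c5402 c4374 c4373 (k8 c4372 c4281 c4278 c15240 c4411 c4414 c4332 c4337 (k8 c63 c15326 c1017 c3230 c1018 c501 c1019 c6870 (k8 c6330 c228 c11879 c15329 c1599 c1726 c15332 c952 (k4 c15333 c4304 c544 c674 (k2 c8998 c251 k0))))))) (by decide +kernel)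
def c15335 : PP 8 4 T 0x1000000000000000400000010100000100000000000040000000005000040 := rS 0x1064f522a5403c0bb04f31862a744a1d100090e8b5fa9ca6058983c264519028b26d0aa8d562d4f8ad2710138d4c20172b48f69b34a64ee092b2ec6f14 (k8 c15334 c4386 c4390 c15019 c13906 c6033 c1071 c13396 (k8 c804 c1227 c15325 c13532 c751 c5402 c4373 c4278 (k8 c15240 c4413 c4411 c4414 c4332 c4415 c4337 c15079 (k8 c9753 c63 c4462 c15247 c438 c570 c304 c4340 (k8 c430 c416 c902 c6330 c5853 c11158 c4461 c12975 (k8 c791 c2243 c967 c7718 c4488 c4447 c4450 c572 (k4 c15248 c11072 c7768 c10851 (k2 c1399 c1937 (k1 c6153 k0))))))))) (by decide +kernel)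
def c15336 : PP 8 4 T 0x1000000000000600000000000000080000000000500000000000000000000000002040001000000410 := rS 0xa8504358e29518b53e2b139244647 (k8 c4374 c4372 c4281 c4278 c4411 c4414 c4332 c4337 (k4 c7860 c330 c11782 c2110 (k2 c4490 c7768 k0))) (by decide +kernel)
def c15337 : PP 8 4 T 0x1000000000000000400000010100000100000000000040000000005000000 := rS 0x2a61aa05c8f626a712a94befda2a08622f5f9bcf205011147e0b032d4e2911baee28594ba7e20271a98402e54092d0a0d691ed36694c9dc1256 (k8 c15019 c13906 c6033 c1071 c13396 c804 c1227 c15325 (k8 c4371 c6224 c4375 c6395 c13532 c751 c5402 c4373 (k8 c4278 c15240 c4414 c4336 c63 c15334 c4390 c4386 (k8 c4352 c4387 c4389 c15335 c83 c11031 c3230 c1018 (k8 c526 c501 c1019 c6330 c8877 c228 c7040 c4452 (k8 c4306 c6467 c1937 c225 c4532 c13260 c15336 c7514 (k4 c11255 c4329 c7768 c4490 k0))))))) (by decide +kernel)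
def c15338 : PP 8 4 T 0x1000000001000000000000000400000010100000000000000000040000000005000040 := rS 0x2a1974b5eb411e6e28adc268b1e4219eb5a185d8cc13ca8630c548a7452251022404bf5394c0b13589147e3205164021551994ce9716a7c5693880444e49118d48ee56926cd2992b45caa63439d0ee09 (k8 c13906 c6033 c15337 c1693 c1688 c1687 c4417 c15019 (k8 c1071 c13396 c804 c15325 c13532 c4374 c4373 c4372 (k8 c4281 c4278 c4276 c15240 c4413 c4411 c4414 c4332 (k8 c4336 c4334 c4412 c4337 c15079 c751 c63 c4462 (k8 c15247 c398 c438 c622 c4340 c430 c416 c902 (k8 c6330 c4461 c7314 c12975 c2243 c794 c967 c886 (k8 c7718 c4488 c4551 c4447 c4450 c2110 c572 c4391 (k8 c1432 c1520 c4465 c15253 c4322 c1679 c1742 c1684 (k8 c14266 c4521 c2109 c1079 c4426 c1750 c9059 c7105 k0))))))))) (by decide +kernel)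
def c15339 : PP 8 4 T 0x1000000001000000000000000400000010100000000000000000040000000005000000 := rS 0x86a45f8b858ad44a8f1e1bc0a020e0fc16062ca8cca674b8b53e2b880d4c2012b18cfa473f954e8090a835cad2 (k8 c15325 c13532 c4371 c15079 c13906 c15337 c1687 c7517 (k8 c4374 c7516 c1688 c15019 c751 c5402 c4373 c15240 (k8 c4411 c4414 c4332 c4336 c4334 c4412 c4337 c63 (k8 c15338 c83 c11031 c1017 c1018 c526 c1019 c499 (k8 c12664 c11879 c11890 c627 c11891 c5772 c1205 c7315 (k1 c4486 k0)))))) (by decide +kernel)
def c15340 : PP 8 4 T 0x1000000000000000400000010100000000000000000040000000005000040 := rS 0x17cbb0d63a8026fd1e4202ec13cc618a9d148943a200114c0b13078fc640a2ca8c5a9f15a4e20473080536694c9dcac633f954e8090a835cad21baf4e314 (k8 c15339 c4387 c4354 c4386 c15325 c13532 c4371 c15079 (k8 c13906 c15337 c1687 c7517 c1688 c15019 c6033 c1071 (k8 c13396 c804 c751 c5402 c4374 c15240 c4413 c4411 (k8 c4414 c4332 c4337 c63 c4462 c15247 c398 c304 (k8 c4340 c430 c416 c4461 c12975 c791 c2243 c794 (k8 c967 c7718 c4488 c4447 c4450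 c572 c4465 c15253 (k8 c8862 c1679 c11072 c330 c4329 c810 c14771 c4477 k0))))))) (by decide +kernel)
def c15341 : PP 8 4 T 0x1000000000000000400000010100000000000000000040000000005000000 := rS 0x140252e50cbefd86b1d0429188bd7e3c379e40a022282c0c715ba446e8f5dc50c6743da1502e53b9a4b2a34b8b53e2b49c409627248346a6169004ac09 (k8 c13906 c15019 c751 c15325 c5402 c4373 c4371 c4281 (k8 c4278 c4375 c15240 c4413 c4411 c4414 c4332 c4336 (k8 c4337 c63 c13396 c6033 c13532 c6395 c6224 c1227 (k8 c15337 c1688 c15339 c4390 c4388 c4386 c4352 c4353 (k8 c4387 c15340 c83 c3230 c1018 c526 c501 c1019 (k8 c499 c6330 c8877 c228 c794 c7040 c330 c11782 (k4 c4306 c6467 c11164 c4477 (k2 c225 c8900 (k1 c810 k0))))))))) (by decide +kernel)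
def c15342 : PP 8 4 T 0x200000001001000000010000400001110000005500000008000045000400002000008 := rS 0x2260a5545948d4d128a1e96305744d82c38c104caab4bab45693848ccda9b (k8 c805 c9753 c255 c4436 c4413 c4411 c4338 c4336 (k8 c4415 c4412 c1872 c4540 c9009 c4450 c9798 c7287 (k8 c4469 c4428 c1633 c1593 c300 c229 c4475 c564 (k4 c9029 c9062 c2039 c9756 k0)))) (by decide +kernel)
def c15343 : PP 8 4 T 0x1200000001001000080000000400000010100004100000000000040000000002000000 := rS 0x14e525b0e8e717613f15ea952c49123160900ec3d5aa8d562d4fab456932589c724d118bd8a9b3ca74666d228fd3205388344a022cae4ce61009592e6f0302c1235 (k8 c4373 c13906 c308 c4462 c1019 c4336 c15019 c751 (k8 c5402 c4334 c14038 c63 c1018 c11879 c4371 c496 (k8 c526 c2997 c11031 c256 c9753 c255 c15070 c1959 (k8 c805 c7546 c1871 c4372 c4282 c4280 c4278 c4375 (k8 c4413 c4411 c4338 c4414 c4332 c4415 c4337 c11890 (k8 c11891 c15342 c1023 c1893 c1912 c3946 c4469 c5936 (k8 c6029 c4346 c15214 c4553 c7641 c7478 c4471 c8860 (k2 c1048 c13767 (k1 c14224 k0)))))))))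 (by decide +kernel)
def c15344 : PP 8 4 T 0x1200000001000000080000000400000010100004100000000000040000000002000000 := rS 0x439a626305031c52e412a8d562d4fab456272488c8e33368bc020202964ac6f0302c1235 (k8 c4373 c13906 c308 c4462 c1019 c15019 c63 c526 (k8 c1018 c751 c1871 c9753 c255 c4374 c4372 c4281 (k8 c4278 c4411 c4338 c4414 c4332 c4415 c4337 c11879 (k8 c15343 c4402 c4289 c2110 c6231 c4441 c1879 c11158 (k1 c6832 k0))))) (by decide +kernel)
def c15345 : PP 8 4 T 0x1000000000000000400000010100000100000000000040000000004000000 := rS 0xc6264e43b04e6418b9447677722f46f1451a5d2710178058a7b5f8d5a49b3ca74666d22a64048f0e0140c0b0c024b256 (k8 c15019 c63 c13906 c15341 c308 c4462 c526 c1017 (k8 c12664 c1018 c2997 c256 c9753 c255 c15070 c1959 (k8 c805 c15325 c4373 c6330 c14312 c7546 c751 c1871 (k8 c15240 c4413 c4336 c4337 c15344 c4386 c4354 c15316 (k8 c15315 c4403 c4405 c4963 c1872 c1021 c6869 c7043 (k4 c6022 c13683 c2140 c9101 k0)))))) (by decide +kernel)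
def c15346 : PP 8 4 T 0x1000000000000000400000010100000000000000000040000000004000000 := rS 0xaf61d29825143b94a6d1090f0aa744ca753606628ccf20b22861a409369595710 (k8 c15240 c4415 c15019 c9753 c13906 c15325 c15341 c256 (k8 c308 c1959 c255 c7546 c4462 c805 c15070 c2997 (k8 c15345 c1687 c499 c498 c260 c332 c4401 c3608 (k4 c1876 c6869 c4475 c4459 (k2 c4428 c7287 k0))))) (by decide +kernel)
def c15347 : PP 8 4 T 0x1000000000000000400000000100000000000000000040000000004000000 := rS 0x1436492096a1a2aa14aa727970befd40b4021084485cf27d3f8341f185fad4e2bd1baee2714193053a05118090e994db4ca2203b9a5c81d29a2c8a193d84c143b829540e7330988e9174a164b6010f9581215 (k8 c15079 c13906 c15019 c1065 c751 c92 c63 c15346 (k8 c4418 c803 c802 c2886 c1617 c15239 c1687 c4407 (k8 c3520 c4462 c571 c703 c308 c438 c5853 c9747 (k8 c7045 c4464 c13396 c6033 c4466 c4405 c13532 c804 (k8 c1071 c1693 c798 c2775 c311 c967 c6869 c15237 (k8 c15235 c4340 c4390 c4386 c4354 c4387 c4389 c5760 (k8 c4488 c304 c568 c10049 c1690 c4447 c572 c9931 (k8 c4465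 c14587 c2109 c4439 c8862 c542 c343 c2413 (k8 c4532 c1341 c10851 c4398 c7768 c1321 c7073 c1728 (k2 c4421 c4483 k0)))))))))) (by decide +kernel)
def c15348 : PP 8 4 T 0x1100000001001000040011000440040000100005500000000400001000001001100820 := rS 0x22904bae58f16150ec52d0451587e13078b50e55 (k8 c12210 c7313 c390 c12199 c570 c398 c15019 c15248 (k8 c13932 c1760 c1762 c4468 c4471 c290 c4361 c4360 (k2 c12202 c12756 (k1 c12218 k0)))) (by decide +kernel)
def c15349 : PP 8 4 T 0x20000200001001000010000000400000000004000500000000500000000000001140020 := rS 0x30d174a (k4 c4475 c13932 c4459 c9062 k0) (by decide +kernel)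
def c15350 : PP 8 4 T 0x21000000000000000040000000001001500100000000000000000000040004108010800 := rS 0xa6488d09a39 (k4 c358 c374 c4470 c1036 (k2 c14790 c13601 k0)) (by decide +kernel)
def c15351 : PP 8 4 T 0x1401000000000000040000000100001500500000400200000000000000000020020820 := rS 0x6f1ca1122fd (k4 c4300 c12756 c11381 c1139 (k2 c1500 c7962 k0)) (by decide +kernel)
def c15352 : PP 8 4 T 0x1500000001001000040000000400040010100004500000000000000004001008100800 := rS 0x9c22a95652da03763add1e2a28a58523c29a64621c0fa6c42b12c83c5a9d3f9f6081362b0630792dabc5cab341ae126d439540803009581219 (k8 c171 c13906 c15019 c751 c422 c4461 c12210 c7313 (k8 c9753 c4316 c559 c4479 c1884 c9768 c7311 c92 (k8 c7136 c4482 c4450 c4370 c570 c4464 c4409 c4313 (k8 c15054 c390 c12199 c63 c12219 c798 c6867 c1065 (k8 c4466 c7896 c6171 c414 c15348 c1680 c11368 c1684 (k8 c4468 c930 c1166 c290 c12621 c15349 c4426 c4491 (k4 c948 c15351 c350 c15350 k0))))))) (by decide +kernel)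
def c15353 : PP 8 4 T 0x1501000001001000040000000440080500100005500200000400001000001021100820 := rS 0x411e391ba4490975cb1e2c2a1d8a5a0b5450247eb12c83d3a6d2b21ce67d62b063143238b41a5f3fc10aa13 (k8 c570 c12210 c4464 c4313 c1465 c528 c390 c1314 (k8 c4393 c4482 c4450 c4370 c4409 c4408 c7313 c15019 (k8 c9753 c15054 c12199 c63 c12219 c398 c13906 c15248 (k8 c7513 c13932 c1760 c1762 c4468 c4471 c290 c4361 (k8 c4360 c4473 c938 c322 c1139 c761 c12204 c15351 k0))))) (by decide +kernel)
def c15354 : PP 8 4 T 0x21400000001001000040000000020001000100000400000000002000044004008100800 := rS 0x65aa09a114794d32310e07d36212dac4b2ab341ae126d439540803009581219 (k8 c171 c13906 c15019 c751 c422 c4461 c12210 c7313 (k8 c9753 c4316 c559 c4479 c1884 c63 c12219 c92 (k8 c798 c6867 c1065 c4466 c7896 c6171 c414 c761 (k4 c15351 c374 c15350 c7111 (k1 c8354 k0))))) (by decide +kernel)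
def c15355 : PP 8 4 T 0x1500000001001000040000000400000010100004500000000000000004001008100800 := rS 0x21a234823d6c391b2b0914b63b4054514b0a4780d2397c4f435114d32310e07d362116a74ff0409b0630792dabc5cab341ae126d439540803009581219 (k8 c171 c13906 c15019 c751 c422 c4461 c12210 c7313 (k8 c9753 c4316 c559 c4479 c1884 c9768 c7311 c92 (k8 c7136 c4482 c4450 c570 c4464 c4313 c15054 c390 (k8 c798 c6867 c1065 c4466 c7896 c6171 c414 c15352 (k8 c4393 c934 c1465 c1314 c528 c15353 c1680 c11368 (k8 c1684 c4468 c15349 c290 c4426 c4473 c4491 c15354 (k4 c117 c323 c4656 c1165 (k2 c1409 c4328 (k1 c4467 k0))))))))) (by decide +kernel)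
def c15356 : PP 8 4 T 0x20101000000001000000000000004000114000000400444008400000000140000000100 := rS 0x15ac38b0a12e6d (k4 c9753 c11774 c4468 c4487 (k2 c4958 c781 (k1 c8229 k0))) (by decide +kernel)
def c15357 : PP 8 4 T 0x1500000001001000040000000400000010100004500000000000000004000008100800 := rS 0x5393998c650b414447288a8c2112eaa51e0d1c8d44627868915668299ad32310e07d3621589641e2d33a74da63438652673821542718849e4080300824b656 (k8 c15019 c92 c13906 c751 c422 c4461 c7136 c4316 (k8 c4482 c570 c12210 c4464 c4408 c1069 c171 c7313 (k8 c12253 c9753 c15054 c654 c390 c12199 c63 c12219 (k8 c798 c6867 c1065 c4466 c7896 c6171 c559 c414 (k8 c4479 c1884 c15355 c4381 c115 c58 c1369 c2214 (k8 c1368 c1424 c1504 c1335 c15351 c7310 c15356 c1644 (k8 c1643 c12223 c15349 c161 c1463 c461 c460 c2067 (k1 c4646 k0)))))))) (by decide +kernel)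
def c15358 : PP 8 4 T 0x100000000100000000001000000000000008100000824 := rS 0x1b8bb0d (k4 c4324 c806 c10203 c9688 k0) (by decide +kernel)
def c15359 : PP 8 4 T 0x1100000001001000040000000400040010100004500000000000000004001008100800 := rS 0x6e5e29c72910809c6eb747a5878610c8713621589641e9d369fcfabb5fb1582a957a958e2a55c4a30792da4ce7040998caa671681006014c8c43e6b29c24ac09 (k8 c13906 c15019 c4316 c414 c559 c1065 c7896 c6171 (k8 c751 c422 c4461 c390 c654 c12210 c12253 c570 (k8 c4464 c4408 c1069 c92 c7136 c4482 c15357 c4445 (k8 c15356 c291 c4444 c4346 c4345 c4450 c4370 c4369 (k8 c4449 c4409 c4313 c9753 c15054 c12199 c63 c12219 (k8 c798 c6867 c4466 c171 c615 c15348 c11368 c930 (k8 c1166 c12621 c15358 c15350 c12756 c1139 c13601 c2126 (k2 c7962 c1079 k0)))))))) (by decide +kernel)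
def c15360 : PP 8 4 T 0x1100000001001000040000000400040010100004500000000000000004000008100800 := rS 0x898520472ea3c1a391a89e1a241083c522a55c4a30792da4ce7040998caa671681006014c8c43e6b29c24ac09 (k8 c13906 c15019 c4316 c414 c559 c1065 c7896 c6171 (k8 c751 c422 c4461 c390 c654 c12210 c12253 c570 (k8 c4464 c4408 c1069 c92 c7136 c4482 c15357 c4445 (k8 c15356 c59 c12199 c798 c15359 c4381 c115 c1369 (k8 c2214 c1368 c1424 c1335 c1372 c4486 c7310 c12756 (k1 c12223 k0)))))) (by decide +kernel)
def c15361 : PP 8 4 T 0x800000000000008000000000000020001000 := rS 0x7091 (k2 c130 c4656 (k1 c1139 k0)) (by decide +kernel)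
def c15362 : PP 8 4 T 0x40000000000021900000000000000000000000000081554500000000000000000000000000000000000 := rS 0x24558bb5fb1582ab (k8 c4445 c4450 c4370 c4369 c4449 c6031 c938 c15177 k0) (by decide +kernel)
def c15363 : PP 8 4 T 0x21000000001000000040040000001101581500050000000001010100100080100144020 := rS 0x25d146a375e29d6eb12c95976bf (k8 c4369 c4449 c15019 c63 c12219 c1165 c13601 c2126 (k4 c12621 c14790 c4454 c1859 (k1 c7248 k0))) (by decide +kernel)
def c15364 : PP 8 4 T 0x21000000001000000040000000001101580500050000000001010100100085100144020 := rS 0x11c3520c7 (k4 c290 c15363 c4328 c769 (k1 c4467 k0)) (by decide +kernel)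
def c15365 : PP 8 4 T 0x1100000001001000040000000400000010100004500000000000100004000008100800 := rS 0x20822c6120e479174b2d51e4d06b3cbe2730a8a96d0288ec54ab52aa624531f9ad32310e07d3621078b4ce9d3698d0e193f9f52673821542718849e4080300824b656 (k8 c15019 c92 c13906 c751 c422 c4461 c7136 c4316 (k8 c4482 c570 c12210 c4464 c4408 c1069 c4409 c4313 (k8 c171 c7313 c12253 c9753 c15054 c654 c390 c12199 (k8 c798 c6867 c1065 c4466 c7896 c6171 c559 c398 (k8 c414 c15357 c4345 c4444 c4445 c15356 c1640 c1644 (k8 c15349 c4426 c15360 c2941 c934 c1465 c1523 c528 (k8 c381 c15361 c1435 c15362 c4360 c4471 c363 c15364 (k4 c1463 c279 c14264 c9038 k0)))))))) (by decide +kernel)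
def c15366 : PP 8 4 T 0x21400000000001000040000000100041500500000400210000000000000001128100924 := rS 0x218fc118d46ca92e9bc2309079544e61 (k8 c615 c15358 c12210 c12199 c4316 c15351 c10992 c12183 (k4 c826 c15350 c87 c1409 (k2 c10457 c4467 (k1 c11932 k0)))) (by decide +kernel)
def c15367 : PP 8 4 T 0x40000000000000000800000000000008000000000000020004020 := rS 0x39081c12259 (k4 c63 c130 c801 c9056 (k2 c1139 c583 k0)) (by decide +kernel)
def c15368 : PP 8 4 T 0x21400000000001000040000000100041540500000401410000000002000040128140905 := rS 0x18e4906b24de24089a2120f3398cfe7d821540847 (k8 c8078 c4461 c12210 c4464 c4409 c4313 c12253 c654 (k8 c12199 c4316 c4479 c15351 c15366 c10992 c10573 c1368 (k2 c282 c14266 (k1 c2107 k0)))) (by decide +kernel)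
def c15369 : PP 8 4 T 0x1000000000001000040080000100040040100000000054000000002000000000104900 := rS 0xdc11 (k2 c2284 c14266 (k1 c10992 k0)) (by decide +kernel)
def c15370 : PP 8 4 T 0x200000000001000040000000100000000400000000000000000000080005000100820 := rS 0x431f823378446a0f2aa8cca61 (k8 c615 c4412 c4337 c12210 c12199 c87 c319 c1343 (k4 c1409 c10457 c4467 c11932 k0)) (by decide +kernel)
def c15371 : PP 8 4 T 0x1000000000000000040000440101101500500000400000000000000000000020020820 := rS 0x6e5e29c7291 (k4 c12756 c1139 c13601 c2126 (k2 c7962 c1079 k0)) (by decide +kernel)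
def c15372 : PP 8 4 T 0x1000000001001000040000000400000010100004500000000000000004000008100040 := rS 0x240901a366489c22c752aa624471e0ee2ec215ab52eab32a8e20bf5dc60a63f35a64629b58964ce454e9e4b7093698cfe7d499ce085509a3c1e0a0e0843e04018041256 (k8 c15019 c13906 c751 c422 c4461 c1065 c798 c4466 (k8 c4462 c12199 c15367 c570 c12210 c4464 c4408 c1069 (k8 c4409 c4313 c12253 c9753 c4316 c92 c7136 c15054 (k8 c7323 c654 c63 c12219 c6867 c7896 c6171 c559 (k8 c398 c414 c4482 c4449 c4369 c15365 c4337 c4412 (k8 c4415 c4336 c4338 c4411 c9825 c4362 c1048 c4471 (k8 c8078 c15368 c4345 c4444 c15369 c15371 c350 c10573 (k4 c15350 c1408 c15370 c2107 (k1 c282 k0))))))))) (by decide +kernel)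
def c15373 : PP 8 4 T 0x100000000001000000011000044001514000000000040008400000000140000000100 := rS 0x56b0c5097 (k4 c11774 c4468 c4958 c781 (k1 c2127 k0)) (by decide +kernel)
def c15374 : PP 8 4 T 0x1100000000001000040000000400040050100000100000008000000000080100100820 := rS 0x82407ab9078ed26738215426c7 (k8 c291 c570 c12210 c4464 c4408 c1069 c1640 c12199 (k4 c5821 c11368 c12202 c12218 (k1 c12756 k0))) (by decide +kernel)
def c15375 : PP 8 4 T 0x21000000000000000040000000000001500100000000200000000000040004108014804 := rS 0x1505d (k2 c12183 c15350 (k1 c826 k0)) (by decide +kernel)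
def c15376 : PP 8 4 T 0x21000000001000000040000400000001180100050000200000000100040881008140804 := rS 0xa942935066e538e522fd0809d4a6136c25365b58964aa8f07870421f020041256 (k8 c15019 c13906 c751 c4461 c1065 c798 c4466 c12199 (k8 c15367 c12210 c63 c12219 c92 c6867 c4316 c9753 (k8 c615 c1843 c15358 c15375 c4300 c12756 c1139 c13601 (k4 c7962 c2000 c1992 c1499 (k2 c5323 c15364 k0))))) (by decide +kernel)
def c15377 : PP 8 4 T 0x1500000001001000040000000400041010100000900000000000100004000008100800 := rS 0x444e90120dd6e96638a956af344617e2e3694d32314d96d62591699d0e7f3ea4d1e0f0e0843ec10c8fd8a73821540803009581213 (k8 c570 c13906 c15019 c751 c422 c4461 c12210 c4464 (k8 c4408 c1095 c398 c171 c7477 c1065 c798 c4466 (k8 c12199 c15367 c1069 c4409 c4313 c7313 c654 c390 (k8 c63 c12219 c92 c6867 c7896 c6171 c414 c9753 (k8 c9768 c5760 c4488 c11833 c7311 c1884 c15373 c291 (k8 c15374 c1166 c12621 c15376 c12180 c115 c12756 c15375 k0)))))) (by decide +kernel)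
def c15378 : PP 8 4 T 0x1000000000000000040000040001101500500005000000000000000040004008014900 := rS 0xa75ea457e34379347309 (k8 c4316 c358 c374 c10992 c4470 c7782 c1036 c1040 (k2 c13601 c2126 k0)) (by decide +kernel)
def c15379 : PP 8 4 T 0x800000000000000000000440000401501500000008000000000000020000008000000 := rS 0x8227af152a5 (k4 c4444 c4345 c2126 c1491 (k2 c1080 c639 k0)) (by decide +kernel)
def c15380 : PP 8 4 T 0x1000000000000800000000000000000800000000000040100000000020000 := rS 0x1084d (k2 c9875 c1094 (k1 c711 k0)) (by decide +kernel)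
def c15381 : PP 8 4 T 0x1800000001000000040000040000000500100000800000000000040040004028000820 := rS 0xa75f9b868394884162594e9e4125b3dc24da8f0795952a5 (k8 c4444 c4345 c15019 c12199 c15367 c9753 c4316 c703 (k8 c92 c13906 c7136 c15054 c63 c12219 c15378 c12756 (k4 c1139 c4470 c7962 c15380 (k2 c13601 c15379 k0)))) (by decide +kernel)
def c15382 : PP 8 4 T 0x1000000000000080000000000000000000000000000140040000000000000 := rS 0x8319 (k2 c4449 c1851 (k1 c4472 k0)) (by decide +kernel)
def c15383 : PP 8 4 T 0x100000000100000000000000000000000008100000824 := rS 0xc025 (k2 c115 c15358 (k1 c615 k0)) (by decide +kernel)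
def c15384 : PP 8 4 T 0x1100000001001000040000000400040010100000900000000000140004000000000800 := rS 0x2ec6eb74b31c54ab57c48a69918a6c5a674e9e4b67b849b4fe7d49a3c1e1c0fb04323f629ce0855098544eb12c810020910958061a (k8 c15347 c422 c15019 c798 c13906 c751 c4461 c63 (k8 c12219 c15383 c15079 c570 c12210 c4464 c4408 c1095 (k8 c398 c171 c7477 c1065 c4466 c12199 c15367 c1069 (k8 c4409 c4313 c9753 c4316 c703 c92 c7136 c15054 (k8 c654 c390 c6867 c7896 c6171 c414 c15377 c4346 (k8 c4445 c15373 c291 c15374 c1166 c12621 c15382 c15381 k0)))))) (by decide +kernel)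
def c15385 : PP 8 4 T 0x21100000000000000040000401500081554100040041200000002000400804128004804 := rS 0xa942bf49a83389b868105ba9c7237488f62d09 (k8 c4316 c4487 c11368 c938 c322 c1139 c13601 c7094 (k8 c15375 c4209 c7962 c583 c2000 c1992 c7787 c1499 (k2 c5323 c14790 k0))) (by decide +kernel)
def c15386 : PP 8 4 T 0x21100000001001000040000400400080010100000000200000000140004881000040800 := rS 0xa81193472364b1218e9918a6d3a792d9ee126d3e89d6259a191c5ab54783c38210fa94be7f1da4ce7042a810061a008242a56 (k8 c15019 c15079 c13906 c751 c15347 c422 c4461 c12210 (k8 c4464 c4408 c1069 c1640 c4313 c1465 c1883 c1065 (k8 c798 c4466 c12199 c15367 c1435 c390 c1314 c4393 (k8 c63 c12219 c15383 c4409 c9753 c4316 c703 c92 (k8 c7136 c15054 c6867 c7896 c6171 c290 c4473 c15385 (k4 c15376 c117 c324 c1409 (k2 c15364 c6029 k0))))))) (by decide +kernel)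
def c15387 : PP 8 4 T 0x1500000001001000040000000400080010100000800000000000140004000000040800 := rS 0x7b175b259204986890762a55abcd1185f8b8a69918a6c5a674e9e4b67b849b50e934783c38210fb04323f629ce08550200c34012b0242aa1 (k8 c161 c15079 c13906 c15019 c751 c15347 c422 c4461 (k8 c12210 c4464 c4408 c1095 c398 c171 c7477 c1065 (k8 c798 c4466 c12199 c15367 c1069 c7313 c9753 c4316 (k8 c703 c92 c7136 c15054 c654 c390 c6867 c7896 (k8 c6171 c414 c9768 c5760 c4488 c11833 c7311 c1884 (k8 c15373 c1640 c15386 c4381 c283 c4486 c938 c939 (k2 c4360 c1742 (k1 c4471 k0)))))))) (by decide +kernel)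
def c15388 : PP 8 4 T 0x1800000001000000040000000000000500100000800000000000140040004028000820 := rS 0xbb (k2 c15382 c15381 k0) (by decide +kernel)
def c15389 : PP 8 4 T 0x400000000001100000000001000040000001000000010000000000000000000400080085500000000 := rS 0x2452d0c1e2e490c7 (k8 c290 c4473 c1471 c322 c4467 c11368 c4328 c4793 k0) (by decide +kernel)
def c15390 : PP 8 4 T 0x1100000001001000040000000400000010100000900000000000140004000000000800 := rS 0x1ec5d6c96481261a24118d8762a55abe24b523d0d42a229a64629b1699d3a792d9ee126d49a3c1e1c0fb04323f629ce0855098544eb12c810020910958061a (k8 c15347 c422 c15019 c798 c13906 c751 c4461 c63 (k8 c12219 c15383 c15079 c570 c12210 c4464 c4408 c1095 (k8 c398 c171 c7477 c1065 c4466 c12199 c15367 c1069 (k8 c9753 c4316 c703 c92 c7136 c15054 c654 c390 (k8 c6867 c7896 c6171 c414 c15384 c161 c4393 c1314 (k8 c1435 c15387 c4346 c4445 c15373 c1640 c15388 c1409 (k8 c15389 c4381 c283 c4486 c938 c939 c4360 c1742 (k1 c4471 k0)))))))) (by decide +kernel)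
def c15391 : PP 8 4 T 0x21000000000000000040000400100001500100000001200000000000040800128000824 := rS 0x1528526a0cdc34538e522fd084241e27 (k8 c15383 c12199 c4316 c15375 c4300 c12756 c1139 c13601 (k4 c4470 c7962 c2000 c1992 (k2 c1499 c5323 (k1 c14790 k0)))) (by decide +kernel)
def c15392 : PP 8 4 T 0x1600000000001000040000000100001514500000801000000000000004000128140160 := rS 0x24b257224068446cc71e0ee2ec2344617e2e8494c7e6b0799cc67f3ec10aa2701829466555a5d5a2b (k8 c4411 c4338 c4336 c4415 c4412 c4337 c4462 c422 (k8 c15383 c12210 c4464 c4409 c4313 c12253 c654 c12199 (k8 c559 c398 c414 c4316 c9768 c5760 c4488 c11833 (k8 c9825 c4362 c1048 c4471 c15369 c15391 c319 c1408 (k4 c15370 c1471 c10573 c282 (k1 c11938 k0)))))) (by decide +kernel)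
def c15393 : PP 8 4 T 0x1000000001001000040000000400000010100000100000000000040004000000000040 := rS 0x18e4923b24783b120342317610da242b56a7d2eab32a8e202762b04ec8f499f4e67f31c113a452a99cf20f58a6c380410a6406592d9b402198494c621a0f9587e153d84c1409 (k8 c13906 c4462 c570 c703 c15079 c398 c15019 c1065 (k8 c15347 c7896 c414 c4316 c171 c751 c9753 c92 (k8 c63 c422 c6171 c798 c4461 c4466 c6867 c12219 (k8 c12199 c7136 c654 c12210 c7323 c15054 c4464 c12253 (k8 c4313 c4408 c4409 c1069 c15367 c15372 c7477 c1095 (k8 c15383 c15390 c4337 c4412 c4415 c4336 c4414 c4338 (k8 c4411 c15392 c15388 c4553 c7641 c319 c1408 c15370 (k4 c1048 c4471 c10573 c1371 (k2 c282 c15369 (k1 c2107 k0)))))))))) (by decide +kernel)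
def c15394 : PP 8 4 T 0x4000000008000000009000040000005 := rS 0xe010422f (k4 c172 c798 c4461 c4466 (k1 c7669 k0)) (by decide +kernel)
def c15395 : PP 8 4 T 0x1101000000001000040000000044541155500000040400008001000108000400010100 := rS 0xcc5e3418c5d562d81ec35c9b58abb60c613713 (k8 c4340 c2784 c4488 c4450 c4449 c7718 c9753 c5821 (k8 c4958 c12189 c10674 c2127 c12418 c9550 c943 c7780 (k2 c461 c6588 k0))) (by decide +kernel)
def c15396 : PP 8 4 T 0x1500000001001000040000000000401510100004000000000001002000004008144048 := rS 0x14a6134570c606b346cbc54975926d8494cd67922a3c46395d9fcfb042a8b0522b08a4440592b294be05128281268239458318 (k8 c4488 c4450 c1684 c8078 c423 c13906 c4462 c2243 (k8 c55 c10439 c1883 c15019 c63 c12975 c886 c342 (k8 c2244 c795 c4468 c2400 c4464 c4409 c4313 c4449 (k8 c2319 c2775 c15082 c2406 c599 c558 c414 c4316 (k8 c9753 c10573 c12418 c826 c7780 c15378 c6588 c1408 (k4 c12099 c11938 c461 c1207 (k2 c4475 c4459 k0))))))) (by decide +kernel)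
def c15397 : PP 8 4 T 0x1100000001001000040000000000041010100004400000000000000008004008140040 := rS 0x215fa0e1e2594aa72fa44230989a6c4a6b498151e231016472995794ce70455a1caa1934124582915808621f009581409 (k8 c13906 c4462 c15019 c751 c1065 c7896 c15394 c2244 (k8 c795 c4468 c369 c423 c171 c2400 c7313 c1884 (k8 c4464 c4408 c414 c983 c1071 c2319 c63 c12975 (k8 c2775 c15082 c55 c12021 c558 c2243 c2784 c4340 (k8 c4316 c342 c886 c10439 c902 c1883 c15395 c927 (k4 c15396 c4376 c1496 c11381 k0)))))) (by decide +kernel)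
def c15398 : PP 8 4 T 0x100000000000000000100000044001554400050000000001001000088008000155000 := rS 0x18cd023ab16ac362b063113 (k8 c4340 c4488 c4450 c7718 c4958 c7420 c2127 c1411 (k2 c943 c2107 (k1 c2429 k0))) (by decide +kernel)
def c15399 : PP 8 4 T 0x1100000001001000040000000000041010100004400000000000000008000008140040 := rS 0x28478966483422364803e1a262496d3693029851e231016472995794cfe7d822ad0e55160a4560a0c9a004310f8041256 (k8 c15019 c13906 c751 c1065 c7896 c15394 c423 c171 (k8 c4462 c2244 c795 c4468 c2400 c7313 c1884 c4464 (k8 c4409 c4313 c414 c983 c1071 c2319 c63 c12975 (k8 c2775 c15082 c2885 c55 c12021 c2784 c92 c369 (k8 c15397 c4324 c2399 c4486 c887 c2267 c1408 c10573 (k4 c15398 c927 c2904 c15098 k0)))))) (by decide +kernel)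
def c15400 : PP 8 4 T 0x100000000000000004080000020501511500000000000000000000008000000000000 := rS 0x5e33152d05faee3113 (k8 c4340 c4488 c4449 c5760 c943 c949 c461 c2126 (k1 c6588 k0)) (by decide +kernel)
def c15401 : PP 8 4 T 0x1100000001001000040000000400001010100004500000000000000008000008100040 := rS 0x8aa530d5acf6309e18a553a4544ab39a1e08af2a8b0b61929a24d029099e48a8f11880b23962a4c0a2b010c43e010502583184dc4d3256 (k8 c15019 c1071 c4340 c2784 c4488 c4450 c13906 c4462 (k8 c751 c1065 c7896 c15394 c2244 c55 c12021 c7718 (k8 c2319 c63 c12975 c2775 c15082 c2406 c599 c570 (k8 c795 c423 c678 c414 c171 c92 c4468 c2400 (k8 c983 c4464 c7313 c4408 c1884 c15399 c2942 c2944 (k8 c1470 c4486 c4324 c12403 c1520 c15400 c5849 c4491 (k2 c2123 c4427 k0))))))) (by decide +kernel)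
def c15402 : PP 8 4 T 0x401000000000000000000000414001554010000001040002000000000000001000800 := rS 0xaf3922e0ac5 (k4 c7718 c4406 c1767 c307 (k2 c9756 c11990 k0)) (by decide +kernel)
def c15403 : PP 8 4 T 0x1601000000000000040000000000001410500050500204008000000000005200000008 := rS 0x6f38a11faa18617d22b12c814ce2330a654665 (k8 c4412 c4337 c1071 c2885 c2775 c2926 c55 c63 (k8 c10634 c886 c10439 c4467 c4551 c7315 c11381 c7316 (k2 c1500 c4480 k0))) (by decide +kernel)
def c15404 : PP 8 4 T 0x1000000001001000040000000400001010100004500000000000000008000008100040 := rS 0x179445b12196c92583422b92e8d9200f868f04c3b8bb095e7d3f98e085556a5d56658830577184c9b4330929a247e25340a4264d339851e231016472c54dc4d260515808621f008281256 (k8 c15019 c13906 c4462 c751 c1065 c7896 c15394 c2244 (k8 c55 c12021 c4340 c2784 c7718 c2319 c63 c12975 (k8 c2775 c15082 c2885 c2926 c2337 c570 c795 c423 (k8 c2243 c398 c678 c414 c4316 c171 c9753 c1071 (k8 c4488 c4449 c4450 c15401 c4412 c4415 c4336 c4338 (k8 c15402 c4464 c11648 c4313 c4409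 c828 c7287 c4362 (k8 c1048 c15403 c4471 c4324 c2399 c4486 c887 c2790 (k8 c1205 c2267 c1408 c1413 c7308 c2029 c11938 c323 (k2 c4599 c1167 (k1 c4454 k0)))))))))) (by decide +kernel)
def c15405 : PP 8 4 T 0x1100000001001000040000000000041010100004000000000000000008004008140040 := rS 0x2f55285373f41c3c4b2954e5f48844db0912a0cd69302a3c46201cafd77184dc4d32595794ce70455a1caa1934124582915808621f009581409 (k8 c13906 c4462 c15019 c751 c1065 c7896 c15394 c2244 (k8 c795 c4468 c369 c423 c171 c2400 c7313 c1884 (k8 c4464 c4408 c414 c983 c63 c1881 c4340 c2784 (k8 c4488 c4449 c5760 c2319 c12975 c2775 c15082 c55 (k8 c12021 c558 c9105 c2243 c4316 c9753 c342 c886 (k8 c10439 c902 c1883 c15395 c927 c15396 c4376 c305 (k4 c1496 c5323 c12000 c2126 k0))))))) (by decide +kernel)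
def c15406 : PP 8 4 T 0x1100000001001000040000000000041010100004000000000000000008000008140040 := rS 0x28478966483422364803e1a262496d3693029851e23100e532595794cfe7d822ad0e55160a4560a0c9a004310f8041256 (k8 c15019 c13906 c751 c1065 c7896 c15394 c423 c171 (k8 c4462 c2244 c795 c4468 c2400 c7313 c1884 c4464 (k8 c4409 c4313 c414 c983 c63 c1881 c2319 c12975 (k8 c2775 c15082 c2885 c55 c12021 c2784 c92 c369 (k8 c15405 c4324 c2399 c4486 c887 c2267 c1408 c10573 (k4 c15398 c927 c2904 c15098 k0)))))) (by decide +kernel)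
def c15407 : PP 8 4 T 0x1100000001001000040001000000001010100004000000000000000008000008140040 := rS 0x80540397ab71e45d2cc3a52b59ec62489e18a55aa9d2343512ad0eaf2a8b0da19298a51e23100e58a93028ac14bb8c26e269934008621f00824b256 (k8 c15019 c63 c13906 c751 c1065 c7896 c15394 c423 (k8 c1881 c4340 c2784 c4488 c4449 c4462 c2244 c55 (k8 c12021 c7718 c2319 c12975 c2775 c15082 c795 c414 (k8 c171 c9753 c4468 c2400 c983 c7313 c1884 c15406 (k8 c4393 c2942 c2944 c1435 c1470 c4486 c4324 c368 (k8 c12403 c1520 c15400 c4491 c4459 c2127 c4360 c927 (k4 c1165 c8143 c15396 c11945 (k2 c427 c1362 k0)))))))) (by decide +kernel)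
def c15408 : PP 8 4 T 0x1200000000000000040000000000001010500450100204008000000008005200000008 := rS 0x150855e9b8e2fd52a8618a72fa4562053388cc2bf5dc6137134c9654665 (k8 c4412 c4337 c63 c1881 c4340 c2784 c4488 c4449 (k8 c5760 c2885 c2775 c2926 c55 c10634 c886 c10439 (k8 c902 c4467 c4551 c1883 c7315 c7316 c4480 c6133 (k2 c1499 c11945 (k1 c827 k0))))) (by decide +kernel)
def c15409 : PP 8 4 T 0x1000000001001000040000000400000010100000100000000000040000000000000040 := rS 0x5e5116c4865b24960d08ae4ba364831c1f0d1311c783b8bb095e7d3f98e0855568b52eab32c4176c18c264ecc547a74c22333a4c9a291c9a10625100ac0a024dc4c6459368043309298c43e56448687e153d84c1409 (k8 c13906 c4462 c570 c703 c15079 c398 c15347 c678 (k8 c15019 c1065 c7896 c414 c4316 c171 c751 c9753 (k8 c63 c15393 c4340 c2784 c15394 c55 c2244 c12975 (k8 c2243 c9105 c423 c2319 c795 c2337 c12021 c2926 (k8 c2775 c2885 c967 c15082 c7718 c15404 c1881 c4488 (k8 c7477 c4449 c15407 c4412 c4415 c4336 c4332 c4338 (k8 c15402 c4464 c11648 c4313 c4409 c828 c7287 c4362 (k8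 c1048 c4471 c8078 c15408 c4324 c2399 c408 c4486 (k8 c887 c2790 c1205 c2267 c1408 c1413 c7308 c2029 (k4 c2107 c323 c4599 c1167 (k1 c4454 k0))))))))))) (by decide +kernel)
def c15410 : PP 8 4 T 0x22100000000000000060000000001011100100000000000000000400000805000000000 := rS 0x138444b86a993ea547a457abf (k8 c4369 c4354 c4352 c4388 c1843 c11480 c7959 c4330 (k4 c1857 c4467 c14542 c1489 k0)) (by decide +kernel)
def c15411 : PP 8 4 T 0x22500000001001000040000000400041010100000500000000000000004000008100800 := rS 0xc908924470d122a48eac1e52d4317682598e511d8a956af340b8db09298fc720f1b985226b4c8c43e9b2d8b4ce27588850e193f834e27d499ce08550200c0209099598ac1 (k8 c4450 c4370 c15019 c570 c13906 c751 c422 c4461 (k8 c12210 c4464 c4408 c1069 c4409 c4387 c568 c7517 (k8 c171 c7313 c798 c4350 c15383 c654 c390 c92 (k8 c6867 c1065 c7896 c6171 c559 c4352 c880 c4386 (k8 c304 c4348 c398 c414 c4316 c9753 c9768 c4479 (k8 c7311 c1884 c15373 c1640 c1644 c291 c12211 c15349 (k8 c4360 c898 c4426 c4471 c4491 c8078 c948 c15410 (k4 c4381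 c58 c283 c279 (k2 c7497 c12184 k0))))))))) (by decide +kernel)
def c15412 : PP 8 4 T 0x22100000000000000060000000001811100100000000000000000000000005000000000 := rS 0xbc8e4b (k4 c1857 c1765 c15410 c4558 k0) (by decide +kernel)
def c15413 : PP 8 4 T 0x22100000001001000040000000400041010100000500000000000000004000008100800 := rS 0x112488c48c950b412cc7288aa1aa655abd5312298fc720f1b98522991887d365b1699c4eb110a1c327f069c4fa9339c10aa040180412132b2fd8ac1 (k8 c4450 c4370 c4369 c15019 c570 c13906 c751 c422 (k8 c4461 c12210 c4464 c4408 c1069 c4409 c4387 c568 (k8 c7517 c171 c7313 c798 c4350 c15383 c654 c390 (k8 c92 c6867 c1065 c7896 c6171 c4352 c880 c4386 (k8 c304 c4348 c398 c414 c15411 c4345 c4346 c4445 (k8 c13260 c8237 c15373 c1644 c291 c12211 c15349 c898 (k4 c7497 c15412 c58 c283 (k2 c279 c12184 k0)))))))) (by decide +kernel)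
def c15414 : PP 8 4 T 0x22100000000001000060000000400081154100000000244041000400000884000105000 := rS 0x4d4229d501012bf58eb9589c4fea1 (k8 c161 c7517 c4387 c4350 c6781 c12161 c7058 c1463 (k4 c4463 c15410 c191 c827 (k2 c1992 c711 k0))) (by decide +kernel)
def c15415 : PP 8 4 T 0x22500000001001000040000000400001010100000500000000000000004000008100800 := rS 0x8135085c53aa04ac71e45d2cd0288ec54ab579a05c6d8494c7e0f1b834e26b4c8c43e9b2d99c4eb11098d0e19499ce085509b1582a123a885a0401804ac09 (k8 c13906 c15019 c751 c422 c4461 c390 c15413 c1314 (k8 c161 c4450 c4370 c570 c12210 c4464 c4408 c1069 (k8 c171 c7313 c12253 c798 c4350 c15383 c654 c92 (k8 c6867 c1065 c7896 c6171 c559 c4387 c568 c4386 (k8 c304 c398 c414 c4316 c9753 c9768 c4479 c7311 (k8 c1884 c15373 c1640 c1644 c15349 c15414 c4360 c4471 (k8 c330 c1463 c15410 c191 c826 c827 c1992 c12183 (k1 c711 k0)))))))) (by decide +kernel)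
def c15416 : PP 8 4 T 0x2100000001001000040000000400000010100004500000000000000004000008100800 := rS 0x68130a2ca560a99ea655abd5312513058abf8c14d32310fa6c5a6713ac4429d3c96e126d438652673821540803008242656 (k8 c15019 c570 c13906 c751 c422 c4461 c12210 c4464 (k8 c4408 c1069 c171 c7313 c9753 c4316 c92 c7136 (k8 c15054 c798 c4350 c15383 c654 c390 c6867 c1065 (k8 c7896 c6171 c414 c4482 c4369 c4370 c4450 c15413 (k8 c15415 c4345 c4346 c4445 c13260 c1523 c15373 c940 (k4 c941 c1644 c7111 c15349 (k1 c381 k0))))))) (by decide +kernel)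
def c15417 : PP 8 4 T 0x40000000002000000000000000200000000000000800000004004 := rS 0x1026a10b8a7 (k4 c191 c826 c827 c1992 (k2 c12183 c711 k0)) (by decide +kernel)
def c15418 : PP 8 4 T 0x22100000000000000040000400401051100100410140045000000400000805000000000 := rS 0xb937b26845d86a993ea547a457ab5 (k8 c4389 c4354 c4352 c4388 c1843 c11480 c7959 c4330 (k4 c813 c4489 c7497 c9688 (k2 c4394 c11734 k0))) (by decide +kernel)
def c15419 : PP 8 4 T 0x2500000000001000040011000400041110100410140000009000004004004008105100 := rS 0xc908924470d122a48e3c50c5d2cc71d8a956af8c2fcd02e36c24a63930a44d69b1096c5a6702004c60343864fe93 (k8 c1069 c7517 c171 c7313 c422 c12253 c751 c4461 (k8 c654 c390 c92 c798 c6867 c559 c4352 c880 (k8 c4348 c414 c4316 c9753 c9768 c4479 c5760 c4488 (k8 c7311 c1884 c15373 c1640 c291 c12211 c4360 c898 (k8 c4471 c8078 c15417 c15418 c4381 c58 c283 c279 (k2 c7497 c12184 k0)))))) (by decide +kernel)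
def c15420 : PP 8 4 T 0x1000000040000800000000000000000800000000000040100000000004100 := rS 0x226e (k2 c1093 c15380 (k1 c10992 k0)) (by decide +kernel)
def c15421 : PP 8 4 T 0x2100200000001000040011400400041110100400100000009000004004004008105100 := rS 0x27e86b837b24bb0d532852c2a55abe2453588e4e26148a6c425b1699c0803009f52673 (k8 c4408 c1069 c4409 c751 c422 c4461 c654 c390 (k8 c92 c798 c6867 c4352 c880 c4387 c4348 c4350 (k8 c414 c15419 c4346 c4445 c15373 c12211 c898 c13260 (k8 c4330 c813 c7497 c9688 c8522 c4394 c1395 c4489 k0)))) (by decide +kernel)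
def c15422 : PP 8 4 T 0x500000001001000040011140000081015504000000000400000000004004008104000 := rS 0x6813296ca561454ccf1529552ab579a05c6d8494cd6991887d36212d8b4ce0401804ac09 (k8 c13906 c15019 c751 c422 c4461 c654 c390 c92 (k8 c798 c6867 c1065 c7896 c6171 c559 c414 c4316 (k8 c9753 c9768 c4479 c7311 c1884 c15417 c1883 c15373 (k8 c1523 c11945 c1644 c940 c941 c4458 c7111 c4475 (k1 c381 k0))))) (by decide +kernel)
def c15423 : PP 8 4 T 0x2100000001001000040000000400000010100000100000000000040004000000000800 := rS 0xd02652ca2ca560a99ea655abd53122fa897e8362b04ec531faed1e3948af41e374c8c43e9b1699c4eb110a74f25b3dc24da870c9fc1a71499ce08550200c34010484c2a56 (k8 c15019 c15079 c570 c13906 c751 c15347 c422 c4461 (k8 c12210 c4464 c4408 c1069 c4387 c568 c7517 c171 (k8 c7313 c9753 c4316 c703 c92 c7136 c15054 c798 (k8 c4350 c15383 c654 c390 c6867 c1065 c7896 c6171 (k8 c4386 c304 c4354 c4352 c4348 c4388 c4390 c398 (k8 c414 c15416 c7477 c1095 c2002 c15420 c15421 c1465 (k8 c15422 c4345 c4346 c4445 c13260 c1523 c15373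 c940 (k4 c941 c1644 c4458 c7111 (k2 c4475 c381 k0))))))))) (by decide +kernel)
def c15424 : PP 8 4 T 0x40000000000000000000001000000000040000040200000010050000211001500000001844000045000 := rS 0x6484492cf2f08c490d (k8 c4385 c1843 c1302 c1883 c1406 c7307 c279 c546 (k1 c4935 k0)) (by decide +kernel)
def c15425 : PP 8 4 T 0x600000001001000040000144000001011500000000000001000404044004008145000 := rS 0x485050d9b4586a994ac7148f07651a5c5d84c154abd8b185f9a05c6d8494d126135a64621f4d884080300824b67f3ea4ce7042b28ccaab4ba7d5a2b (k8 c4411 c4338 c4414 c4336 c4415 c4412 c4337 c15019 (k8 c4464 c4408 c1069 c4409 c7517 c92 c13906 c751 (k8 c422 c4461 c798 c6867 c1065 c7896 c6171 c559 (k8 c880 c678 c414 c4316 c9753 c9768 c4479 c5760 (k8 c4488 c7718 c7311 c15417 c4450 c9825 c4362 c4459 (k8 c1867 c1048 c4471 c1680 c330 c15424 c11945 c4330 (k4 c4453 c2066 c11164 c10261 (k2 c4473 c11453 k0)))))))) (by decide +kernel)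
def c15426 : PP 8 4 T 0x22800000000000000000000000014041554100000000000000000000000000000000000 := rS 0x11660b157e8f (k4 c4388 c4369 c4370 c4450 (k2 c13683 c7641 k0)) (by decide +kernel)
def c15427 : PP 8 4 T 0x2000000001001000040000000400000010100000100000000000040004000000000800 := rS 0x8bafd8ac13b466244756a7d2eab51c412673822744e553ca6c08214c80cb66d0086612310d07cac091f854f6135dac51e3948add7ab5078dc1a71 (k8 c4387 c568 c4386 c304 c4389 c4354 c4353 c4352 (k8 c4348 c4388 c4350 c4390 c570 c703 c15079 c398 (k8 c13906 c15019 c1065 c15347 c7896 c4316 c171 c751 (k8 c9753 c92 c422 c6171 c798 c4461 c6867 c7136 (k8 c12210 c15383 c15054 c4464 c4408 c1069 c15423 c4337 (k8 c4415 c4336 c4414 c4338 c12297 c15425 c15426 c4482 (k4 c7477 c1095 c15420 c7641 (k1 c13683 k0)))))))) (by decide +kernel)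
def c15428 : PP 8 4 T 0x1000000000000040000140000001501500000001600000000000008005400004008 := rS 0x294baa72f8462605 (k8 c55 c4340 c342 c10439 c902 c12418 c1883 c7780 k0) (by decide +kernel)
def c15429 : PP 8 4 T 0x2100000000001000040000000400040054000000104040001000000000000000100808 := rS 0xf57249160a4262b (k8 c2244 c570 c795 c4468 c369 c5821 c7465 c12072 k0) (by decide +kernel)
def c15430 : PP 8 4 T 0x2110000000001000040000000400040014000000104041001000000000000200100808 := rS 0x5c50992c723a84789658ad41e37319ce0849160a4262b (k8 c2244 c570 c795 c4468 c369 c4464 c4408 c815 (k8 c4386 c304 c4389 c4350 c15429 c927 c2904 c8078 (k4 c330 c7497 c4473 c12141 (k1 c4394 k0)))) (by decide +kernel)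
def c15431 : PP 8 4 T 0x10000000000000000000140001001501500000008201000000000008000000000000 := rS 0xa752970bf13 (k4 c4340 c1377 c9688 c1883 (k2 c2795 c11945 k0)) (by decide +kernel)
def c15432 : PP 8 4 T 0x2110000000001000040000000401001514100000100041000000000008000208100808 := rS 0x2954ea255a1caa2c0c8ac52135fc4cde685ea451ebb (k8 c4390 c4388 c4352 c4354 c423 c15431 c4340 c5760 (k8 c570 c795 c2244 c171 c4468 c2400 c7313 c1884 (k4 c15430 c2944 c1470 c2126 k0))) (by decide +kernel)
def c15433 : PP 8 4 T 0x1001000040000000400000010100000100000000000040000000000000040 := rS 0x3f422802f2914e4f65d2d84af31b3cab432431d5a9f16a5d56a3882a61a2660b1630bf4ca74ce933588c9a2934094402b02809371319034c20f38af56e911ba3d77142c9b40219848c43e56448687e153d84c1409 (k8 c13906 c4462 c570 c703 c15079 c398 c15347 c678 (k8 c15019 c1065 c7896 c4316 c171 c751 c9753 c63 (k8 c15409 c4390 c4388 c4386 c4352 c4353 c4354 c4387 (k8 c304 c880 c568 c15427 c4340 c2784 c15394 c55 (k8 c2244 c12975 c2243 c423 c795 c2337 c793 c558 (k8 c12021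 c2926 c967 c1881 c5760 c4488 c7718 c4450 (k8 c15428 c4324 c2815 c15432 c4337 c4415 c4336 c4332 (k8 c4414 c4338 c408 c13105 c11164 c15402 c1791 c11648 (k8 c828 c7287 c4459 c2028 c6220 c903 c2126 c1883 (k4 c1882 c542 c4380 c4463 k0)))))))))) (by decide +kernel)
def c15434 : PP 8 4 T 0x1000000000001100000000000000001011010044041555500000000000000000000000000000000000 := rS 0x33e86ac5b2d586a7 (k8 c13601 c4958 c7420 c7468 c2127 c4424 c1796 c6601 k0) (by decide +kernel)
def c15435 : PP 8 4 T 0x100000000002000000111000044041554010010000040001000000080000100155000 := rS 0x643f41492ac1eb0c8ec7 (k8 c4289 c4404 c4958 c11368 c2127 c322 c9269 c2107 (k2 c4903 c555 k0)) (by decide +kernel)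
def c15436 : PP 8 4 T 0x100000000002000000111000444041514010010100040001000000080000100155000 := rS 0x93045bc5d2c73 (k4 c7478 c15435 c4360 c1166 (k2 c4481 c323 (k1 c9269 k0))) (by decide +kernel)
def c15437 : PP 8 4 T 0x1500000001002000040011000400001010100000100000000000000004000008100040 := rS 0x158cda2b0d789753a459eb58650d447d52b25f8b93792c460d088d46cbb54c617e68171b6128909b1cce6b4caaca2af188a5365b58964aa931da3c1e0a0e0843e04018041256 (k8 c15019 c13906 c751 c422 c4461 c1065 c798 c4466 (k8 c4462 c12199 c15367 c4403 c1029 c12210 c63 c12219 (k8 c92 c6867 c4402 c7896 c5815 c4405 c5962 c6171 (k8 c559 c5084 c4289 c570 c678 c4316 c9753 c9768 (k8 c4479 c5760 c4488 c15417 c4449 c15391 c87 c319 (k8 c1408 c1409 c1413 c1343 c1471 c10457 c10573 c5936 (k8 c4379 c15436 c4393 c9264 c1435 c1523 c4328 c4330 (k4 c4793 c2126 c4958 c4454 (k2 c6588 c2127 (k1 c6601 k0)))))))))) (by decide +kernel)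
def c15438 : PP 8 4 T 0x1100000000000000000000004000040055500000000000000000000000000000000000 := rS 0x16ab9 (k2 c5821 c7420 (k1 c7468 k0)) (by decide +kernel)
def c15439 : PP 8 4 T 0x1800000001000000040000000000000500100000000000000000140040004028000820 := rS 0x2fa30103baed62594783d3a790496cf7093695952a5 (k8 c4444 c4345 c15019 c9753 c4316 c703 c92 c13906 (k8 c7136 c15054 c12199 c15367 c63 c12219 c15382 c15388 (k4 c15378 c4482 c15371 c4369 k0))) (by decide +kernel)
def c15440 : PP 8 4 T 0x1100000001000000040000000400000010100000100000000000040004000000000040 := rS 0x66d152ebc53a456b0ca1a89767d40bf192b911afc1a111b29553124485426c733a6556af188a5365513ac4b2934783d3a79021ec150936b1476c122870421f01868b6012b024a2e4 (k8 c15433 c4405 c13906 c15019 c751 c92 c15347 c422 (k8 c1065 c798 c4466 c7323 c6869 c4403 c4530 c9753 (k8 c4316 c4462 c703 c4461 c7136 c15054 c12199 c15367 (k8 c1029 c63 c12219 c15383 c12210 c6867 c4402 c7896 (k8 c5815 c5962 c6171 c5084 c4289 c570 c15079 c678 (k8 c15437 c4345 c4444 c15439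 c319 c1408 c1512 c1409 (k8 c1471 c10573 c4463 c4380 c4379 c11057 c15436 c4393 (k8 c9264 c1435 c4328 c4330 c2126 c4793 c4454 c6588 (k1 c12510 k0))))))))) (by decide +kernel)
def c15441 : PP 8 4 T 0x200000002000040000000100044000000000000050000000000080044000144064 := rS 0x48482f324ba61068445a7d (k8 c4409 c4286 c319 c1408 c614 c12183 c10573 c4520 (k2 c9269 c14382 (k1 c282 k0))) (by decide +kernel)
def c15442 : PP 8 4 T 0x1000000001000000040000000400000010100000100000000000040004000000000040 := rS 0x1185f9a05d131bc122ec215a7ccaa38804cd60f13ac4b27362a6cce931daad5e294485582450e084a2e44c8c43e9d3c81006012d9ec140984868da56 (k8 c15019 c9753 c15347 c4316 c13906 c4462 c703 c92 (k8 c751 c422 c4461 c7136 c15054 c1065 c7896 c6171 (k8 c15433 c4405 c798 c4466 c7323 c6869 c15079 c678 (k8 c4402 c5815 c5962 c4403 c1029 c5084 c6867 c4530 (k8 c7478 c63 c12219 c15383 c12199 c559 c570 c15440 (k8 c4337 c4412 c4414 c4411 c7287 c4362 c4481 c15441 (k4 c15439 c9768 c4479 c5760 (k2 c4488 c15391 k0)))))))) (by decide +kernel)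
def c15443 : PP 8 4 T 0x2000000000000000040004000020040040110000140040000000000000000000055100 := rS 0x3e3f1926f (k4 c10992 c10573 c4463 c14705 (k1 c4379 k0)) (by decide +kernel)
def c15444 : PP 8 4 T 0x2100000000000000040011400145041554510000140040040000400000804020045100 := rS 0x8e1aa05327d4a25082b186b95da456eb5 (k8 c4389 c4353 c4352 c4390 c5821 c4958 c2127 c15443 (k8 c4115 c1843 c11480 c10851 c2125 c4330 c2740 c4467 k0)) (by decide +kernel)
def c15445 : PP 8 4 T 0x22100200000002000040000400401051100100000140045000000000000804008155000 := rS 0x12048c9419348e7d (k8 c4409 c4404 c374 c9038 c10573 c15418 c9269 c283 k0) (by decide +kernel)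
def c15446 : PP 8 4 T 0x2500000000002000040011000544041510500000101041040000000004004028145100 := rS 0x23869394c8252894207d822862e9654c617e68174248e033598ce6931da257691 (k8 c4352 c4390 c678 c4403 c1029 c7478 c7141 c559 (k8 c422 c4404 c4316 c9768 c4479 c5760 c4488 c15417 (k8 c15444 c4360 c898 c4481 c4409 c15445 c4115 c1843 (k4 c15418 c10851 c639 c4330 (k2 c1489 c4467 k0))))) (by decide +kernel)
def c15447 : PP 8 4 T 0x2900000000000000040011000104041554510000140041040000400000014020045100 := rS 0x50a7c4425082b21ac35ca456eb5 (k8 c4389 c4353 c4352 c5821 c4958 c12606 c6031 c15443 (k4 c4115 c7312 c11480 c770 (k1 c2125 k0))) (by decide +kernel)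
def c15448 : PP 8 4 T 0x2801000001000000040000000000400500500005000000000000040000000000004000 := rS 0x778caf8129d369587291 (k8 c4352 c4348 c15019 c9753 c15054 c13906 c13260 c4539 (k2 c15420 c4482 k0)) (by decide +kernel)
def c15449 : PP 8 4 T 0x200000002000040100000000810000000000000000000000000000004008115001 := rS 0x9090230bc24fb0d (k8 c4330 c4409 c4316 c170 c8081 c9269 c4467 c283 k0) (by decide +kernel)
def c15450 : PP 8 4 T 0x100000001000000040000000400040010100000100000000000040004000000000040 := rS 0x8227970445f7e841930d5341143174b2a624132389d62594783ce6c54d99d263b55abc52890ab048a1c10945c8991887d3a790200c025b3dc24346d30a44ac0d38c501409 (k8 c13906 c4462 c15442 c4387 c568 c15019 c4352 c880 (k8 c9753 c15347 c4316 c703 c92 c751 c422 c4461 (k8 c7136 c15054 c1065 c7896 c6171 c15433 c4405 c798 (k8 c4466 c7323 c6869 c15079 c678 c4402 c5815 c5962 (k8 c4403 c1029 c5084 c6867 c4530 c7478 c12199 c15367 (k8 c63 c12219 c15383 c4404 c570 c15446 c4345 c15447 (k8 c4360 c898 c4481 c15448 c4330 c7497 c15449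 c4300 (k4 c543 c7312 c4477 c1489 (k2 c813 c639 k0))))))))) (by decide +kernel)
def c15451 : PP 8 4 T 0x2400000000002000040000000000181500100000001001400000000004000008004001 := rS 0x5c41bf49e10114354ca95f9a05c178480cd6bb (k8 c4390 c559 c422 c4316 c170 c9768 c4479 c5760 (k8 c15417 c10851 c4330 c9264 c8081 c1489 c4300 c639 (k2 c4477 c813 k0))) (by decide +kernel)
def c15452 : PP 8 4 T 0x2000000001002000040000000000080000100005000000000000040004004008005000 := rS 0x17106fd27840450d532a6245f12a942ec74caaca2314d96d1e1c1087c0803008253b09369852256 (k8 c15019 c4352 c880 c9753 c4316 c15054 c13906 c751 (k8 c422 c4461 c1065 c798 c4466 c15367 c92 c6867 (k8 c7896 c4405 c5962 c6171 c4289 c170 c1470 c1463 (k8 c14382 c15451 c4345 c15448 c4330 c9264 c8081 c1489 (k4 c4300 c639 c4477 c813 k0))))) (by decide +kernel)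
def c15453 : PP 8 4 T 0x2600000001000000040051000040041014110050000000001500000004004008045000 := rS 0x19ca0a1b368b0d5329552bf340b8db0935a3c38bb5b98522654ba7d5a2ba5b2d849b1081006012da6556310f95812bd (k8 c4354 c13906 c15019 c1065 c7896 c5962 c6171 c92 (k8 c751 c422 c4461 c798 c6867 c7287 c2028 c4459 (k8 c4411 c4338 c4414 c4336 c4412 c4352 c880 c4353 (k8 c4390 c4466 c15367 c559 c4316 c9753 c9768 c4479 (k8 c5760 c15417 c15424 c10851 c4330 c4453 c2066 c11164 (k2 c10261 c4495 (k1 c1794 k0))))))) (by decide +kernel)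
def c15454 : PP 8 4 T 0x1000000040000000400000010100000100000000000040004000000000040 := rS 0x1d97d19891f4ff048bb095a978828c1a711cc50e6c162a751e932289caa7907ac5361c020855eab4c80cb25b36c24a6310fa2434153d84c143b288a58e6772004ac09 (k8 c13906 c15019 c751 c15433 c5084 c4289 c4402 c4405 (k8 c4403 c4462 c570 c703 c15079 c15347 c678 c1065 (k8 c7896 c414 c4316 c9753 c92 c63 c422 c6171 (k8 c5962 c5815 c798 c4461 c4466 c6867 c12219 c12199 (k8 c7136 c12210 c15383 c7323 c1029 c15367 c15054 c4530 (k8 c6869 c7478 c15442 c4348 c4387 c568 c15452 c15450 (k8 c4336 c4338 c7287 c4362 c4481 c10049 c4409 c15453 (k4 c15426 c13683 c4482 c15420 k0)))))))) (by decide +kernel)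
def c15455 : PP 8 4 T 0x1001000000002000040000000000041500500000001600000010001108045600004008 := rS 0x6a485e431222963aee3113 (k8 c4340 c4488 c4449 c4289 c4402 c886 c4467 c15428 (k2 c7771 c1040 (k1 c4209 k0))) (by decide +kernel)
def c15456 : PP 8 4 T 0x1101000000002000040010000400041010510000000640008010000008000000144848 := rS 0x4229d0f4b572ad26cf32a7cfcc93eac4920d089be0a5d1b241530d131b48ec789a6d5a251c88cc2995a9547a2b4b880b22d (k8 c4286 c63 c12975 c926 c2244 c7465 c306 c7420 (k8 c1881 c2885 c2775 c2319 c2243 c942 c2784 c4340 (k8 c4289 c4404 c9753 c15455 c4324 c2815 c4486 c887 (k8 c2790 c15095 c1076 c2267 c1408 c322 c1148 c8975 (k8 c10573 c2107 c1394 c555 c1522 c1158 c13092 c6342 (k4 c4428 c1633 c909 c4235 (k1 c11940 k0))))))) (by decide +kernel)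
def c15457 : PP 8 4 T 0x1100000000002000040010000400001010500000000040008000000008000008144848 := rS 0xfc2483592353792c22bc2fc314e2748a88db0944894724d3581446bb8c26e2699341547a2b4b880b22d (k8 c4286 c63 c12975 c926 c2244 c7465 c306 c423 (k8 c1881 c4340 c2784 c4488 c4449 c2775 c55 c558 (k8 c2337 c2319 c2243 c678 c4316 c9753 c15456 c2942 (k8 c934 c2944 c9264 c12467 c15428 c342 c1859 c12000 (k4 c1040 c10573 c691 c4209 (k2 c10457 c14611 k0)))))) (by decide +kernel)
def c15458 : PP 8 4 T 0x1500500000001001040000000008000208008800 := rS 0x54af54aa748a00dd0c13aee3113 (k8 c4340 c4488 c4449 c2246 c6403 c305 c427 c886 (k4 c902 c4385 c12000 c1362 (k1 c11945 k0))) (by decide +kernel)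
def c15459 : PP 8 4 T 0x1001000000002000040000000400045510500000101611001010000108045600104008 := rS 0x6382284ba3c2fa442205 (k8 c55 c342 c886 c10439 c15455 c12418 c4551 c10368 (k2 c9785 c9288 k0)) (by decide +kernel)
def c15460 : PP 8 4 T 0x600000001002000000111010450001550000010101040000010000080000000115000 := rS 0x179445b12208cb8b9cd84ab4992d7718 (k8 c4488 c4449 c1413 c4413 c4415 c7287 c11990 c4362 (k4 c2029 c4481 c9269 c323 (k2 c4599 c1167 (k1 c4454 k0)))) (by decide +kernel)
def c15461 : PP 8 4 T 0x1000000001002000040011000400001010100000100000000000000008000008100048 := rS 0xa2211987e8b414e68a3121e96ae529f502c97e12c1a115c9bcba351b2421a262aa4d3eab32a8e201984a24263b1499c022f568ac3a25269ac0a9716afd77188983d1e231ca64d06110165360a049b4b656 (k8 c15019 c92 c9753 c13906 c4462 c2784 c63 c12975 (k8 c2885 c423 c1881 c2319 c2775 c15082 c15458 c4340 (k8 c4488 c4449 c5760 c4286 c926 c55 c558 c2337 (k8 c2243 c791 c2244 c942 c172 c751 c5084 c4402 (k8 c4403 c570 c678 c4316 c171 c15457 c4337 c4412 (k8 c4415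 c4414 c4413 c15402 c15459 c4324 c4486 c887 (k8 c1035 c2790 c1076 c1205 c2267 c1408 c1413 c10457 (k8 c7308 c12056 c4379 c1882 c15460 c4428 c1633 c828 (k8 c829 c7619 c4407 c7153 c9764 c725 c4235 c5541 (k1 c4397 k0)))))))))) (by decide +kernel)
def c15462 : PP 8 4 T 0x101000001000000000011540414045415510000000600000010000400510001140048 := rS 0x522059e5d3f414e66243d2d5d162d9b40a2330b0d32551e8ad2e202c9581409 (k8 c13906 c4462 c15019 c63 c12975 c926 c2244 c7465 (k8 c306 c1881 c4958 c2885 c2775 c55 c9753 c92 (k8 c4487 c2127 c4428 c1633 c828 c7619 c4407 c9764 (k4 c1457 c1522 c1462 c10978 (k1 c1882 k0))))) (by decide +kernel)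
def c15463 : PP 8 4 T 0x2511000001000000000011000414045410510000000600000010000400510001144048 := rS 0x1fa493ed28fe8764c168464392497ebb8c26522b75e834e2551e8ad2e202c9581409 (k8 c13906 c4462 c15019 c63 c12975 c926 c2244 c7465 (k8 c306 c4387 c568 c4354 c4353 c4352 c1881 c4488 (k8 c4449 c5760 c15462 c1069 c1070 c7994 c4408 c1730 (k4 c1652 c555 c7555 c1650 (k2 c4421 c7126 (k1 c13917 k0)))))) (by decide +kernel)
def c15464 : PP 8 4 T 0x2111000001000000000011000400045010510000000600000010000408110001144048 := rS 0x652859ecd43344c8aa61ae45ead158281297102fd77184dc4d32592b2dd7ab5 (k8 c4389 c4354 c4353 c15019 c63 c1881 c4340 c2784 (k8 c4488 c4449 c5760 c12975 c926 c13906 c4462 c2244 (k8 c942 c172 c6781 c4958 c15463 c1885 c1670 c1884 (k4 c3795 c1676 c3665 c2129 (k1 c7119 k0))))) (by decide +kernel)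
def c15465 : PP 8 4 T 0x1000000040440100001001101500054010000001000400008000001155008 := rS 0xa627a9502487e324126d5fc4d3656 (k8 c15019 c2784 c4340 c5760 c9753 c13906 c10573 c4463 (k4 c2107 c4380 c7054 c453 (k2 c14750 c903 k0))) (by decide +kernel)
def c15466 : PP 8 4 T 0x2000000001000000000000000001001000100000000200000000140008000000020008 := rS 0x29d4a4f2e17d36054c964ac91 (k8 c4352 c15019 c63 c1881 c55 c2784 c542 c343 (k4 c2413 c1883 c2795 c14540 k0)) (by decide +kernel)
def c15467 : PP 8 4 T 0x1400000000000210000000000000001011504040005511500000000000000000000000000000000000 := rS 0x33d974b503095693 (k8 c4413 c4415 c7287 c10261 c4459 c2028 c1794 c4495 k0) (by decide +kernel)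
def c15468 : PP 8 4 T 0x1000000040000000400000010100000100000000000040000000000000040 := rS 0x7e4532d5ccda2a994a7d40bf023432aa4d571051aa61a0d1327ce2bd5ba46280f5dc617e8f4cb058a974e984466b268e4d025228800aad0126e263233b1c5251168ec8ee4099ec14592d9b40219848c43e5604a243415 (k8 c15079 c15347 c678 c13906 c15019 c1065 c7896 c4316 (k8 c171 c751 c9753 c92 c63 c4462 c703 c570 (k8 c15433 c4404 c4403 c4286 c4405 c4402 c4289 c5084 (k8 c15454 c4340 c2784 c15394 c942 c55 c12975 c2406 (k8 c2243 c423 c2319 c2337 c558 c2775 c2885 c967 (k8 c926 c4530 c6869 c1881 c15082 c5760 c4488 c4449 (k8 c15458 c15461 c4352 c4353 c4354 c4387 c7077 c15428 (k8 c568 c4324 c2815 c934 c15464 c4415 c4413 c15402 (k8 c11164 c15466 c4463 c4380 c4379 c7054 c14750 c4453 (k4 c2066 c15467 c8140 c829 (k2 c15465 c725 k0))))))))))) (by decide +kernel)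
def c15469 : PP 8 4 T 0x8000000000000008000080 := rS 0x41c (k2 c1017 c1018 (k1 c7082 k0)) (by decide +kernel)
def c15470 : PP 8 4 T 0x1400000000001000080000040101101501500400100000001000000000080020144000 := rS 0x178717ea9d90113f834fa47 (k8 c4374 c7516 c4371 c7517 c4276 c11438 c13601 c4305 (k2 c586 c11945 (k1 c6133 k0))) (by decide +kernel)
def c15471 : PP 8 4 T 0x1500000000001000080000040001101110100400100000008000000004000008100100 := rS 0x4592c3d512e61a90508ec54c155abe30c5340b8db09298fc72491a91cc2b1089ad365b078b4ce8f0e0843e0d4386526738204caa04018041407 (k8 c15469 c4462 c751 c422 c4461 c12210 c570 c4464 (k8 c4408 c1069 c171 c7313 c4371 c1065 c798 c4466 (k8 c15361 c654 c390 c12199 c92 c6867 c559 c4276 (k8 c622 c5402 c4374 c4373 c4281 c4280 c398 c414 (k8 c4316 c9753 c9768 c4479 c7718 c4488 c7311 c1884 (k8 c4450 c15373 c1640 c1734 c15470 c4328 c1206 c12223 (k4 c11808 c938 c4471 c4360 k0))))))) (by decide +kernel)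
def c15472 : PP 8 4 T 0x200001001000000000000004000000002400000000000401400000081000155000 := rS 0x18e51 (k2 c1644 c290 (k1 c14271 k0)) (by decide +kernel)
def c15473 : PP 8 4 T 0x20000000001000000000011100040054500050140015501000000000000000100020 := rS 0x1f867 (k2 c654 c7622 (k1 c11932 k0)) (by decide +kernel)
def c15474 : PP 8 4 T 0x120000000001000000000000100000010500050100005509000000000040400140120 := rS 0x144b55c9952e2d33a4ce704 (k8 c4464 c4408 c1069 c654 c390 c11774 c7854 c6781 (k2 c7420 c15473 (k1 c11410 k0))) (by decide +kernel)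
def c15475 : PP 8 4 T 0x1100000001001000080000440005101511100000100004000000000000000028100020 := rS 0xfd42b20545d37a068a255e430bea72c94c922330805061784ac4220f479fc1b04099f4aa0a039581247 (k8 c4374 c13906 c15019 c15469 c4462 c12210 c7516 c570 (k8 c4464 c4371 c7517 c15361 c12199 c4276 c622 c4316 (k8 c170 c6833 c751 c5402 c4372 c4281 c414 c63 (k8 c13601 c12467 c4486 c2126 c4381 c4454 c1899 c1080 (k4 c4628 c15474 c11438 c15472 (k2 c4305 c4484 k0)))))) (by decide +kernel)
def c15476 : PP 8 4 T 0x100000000001000000010000044001514000000000040008400000000140000000100 := rS 0x4598097 (k4 c11774 c15373 c4487 c4420 k0) (by decide +kernel)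
def c15477 : PP 8 4 T 0x1000000000001000080000000100000016000000000001001000004000080100144040 := rS 0x22e3d4b2e544a11d8447249068d48f0d (k8 c4328 c4374 c4373 c4371 c4281 c4280 c4276 c1640 (k4 c1734 c12223 c1206 c938 (k2 c11808 c4360 (k1 c4471 k0)))) (by decide +kernel)
def c15478 : PP 8 4 T 0x1100000001001000080000000000000010100000100000000000040004000008000000 := rS 0x68b10502b482ad5f12298fcc2830bac4229952aa446314d83c5a674e9e4f70936aec96bf22870421f2d8d4c69339c1026550200c020a038242a56 (k8 c15019 c15079 c13906 c15469 c4462 c751 c422 c4461 (k8 c12210 c570 c4464 c4408 c1069 c12253 c4373 c92 (k8 c1065 c798 c4466 c7323 c6330 c4375 c6870 c9753 (k8 c4316 c703 c7136 c15054 c654 c390 c12199 c6867 (k8 c7896 c4372 c6029 c5936 c6171 c4276 c622 c170 (k8 c6833 c5402 c398 c414 c15471 c4346 c4445 c15475 (k4 c15477 c4468 c15476 c1760 (k1 c15020 k0)))))))) (by decide +kernel)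
def c15479 : PP 8 4 T 0x1200000000001000000000440101101511500450100005011000000000000000100020 := rS 0xe26f7eaf2185f53a854665 (k8 c4412 c4337 c4551 c13601 c12467 c4486 c2126 c11932 (k2 c1080 c7316 (k1 c4480 k0))) (by decide +kernel)
def c15480 : PP 8 4 T 0x1000000008000000000000000000000000000400005000000000000000 := rS 0x7717 (k2 c4362 c1048 (k1 c4471 k0)) (by decide +kernel)
def c15481 : PP 8 4 T 0x1000000001001000080000000000000010100000100000000000040004000008000000 := rS 0xc43b44a32c360d0d6ac61eb25725d86a415a97559962093399f4c7043f964a63f0a84c8e614185d621135a654aa9118c5360f2aa3c1a9d3c810f60a849b5764b5f91438210f80c0e5b009581235 (k8 c4373 c13906 c15019 c751 c92 c15469 c422 c1065 (k8 c798 c4466 c7323 c6330 c4375 c6870 c9753 c4316 (k8 c4462 c703 c4461 c7136 c15054 c4371 c15361 c12210 (k8 c12199 c6867 c7896 c4372 c6029 c5936 c6171 c559 (k8 c4276 c622 c170 c6833 c5402 c4374 c570 c15079 (k8 c398 c414 c63 c7517 c4464 c12253 c7516 c4408 (k8 c1069 c15478 c4412 c4415 c4336 c4338 c15479 c4328 (k8 c809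 c1205 c7308 c11808 c9509 c7513 c4391 c12809 (k4 c15480 c9825 c4488 c4482 (k2 c9798 c1095 k0)))))))))) (by decide +kernel)
def c15482 : PP 8 4 T 0x1000000000001100000001000000001001000005001455500000000000000000140405010000000000 := rS 0xcfa1ab144c35ca643e5604b155ea7 (k8 c13601 c5815 c4530 c13906 c15019 c1065 c6171 c6781 (k4 c4958 c15434 c7662 c4393 (k2 c1523 c6601 k0))) (by decide +kernel)
def c15483 : PP 8 4 T 0x1100000001000000000000000400000011100000100000000000040004000000000000 := rS 0xe0c87e9f609174b1bd9b455e29c92830bac422a55488c1e8f06aec96bf1a9cd5e294d99d26ab628ed121560945c8d22287042991887d3a790200c025b3d8280e0984868da56 (k8 c15019 c9753 c15347 c4316 c13906 c15469 c4462 c703 (k8 c92 c751 c422 c4461 c7136 c15054 c1065 c7896 (k8 c6171 c798 c4466 c7323 c15468 c15481 c4405 c6869 (k8 c15079 c678 c4403 c4530 c5962 c1029 c654 c6867 (k8 c4402 c5815 c7478 c4373 c6330 c4375 c6870 c4371 (k8 c15361 c12199 c4372 c6029 c5936 c4276 c622 c170 (k8 c6833 c4281 c13601 c2126 c4454 c6588 c1080 c15482 (k4 c4360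 c4481 c4409 c4961 (k2 c9269 c4480 (k1 c586 k0)))))))))) (by decide +kernel)
def c15484 : PP 8 4 T 0x1100000001002000080000000100001552410000000041001000140005000020104000 := rS 0x64c10ca7d5628d6ac3089241a29498ed56c128c34ba6f (k8 c1076 c809 c4328 c4405 c6869 c5962 c4403 c1029 (k8 c4402 c4371 c4281 c4276 c4958 c7420 c938 c7662 (k4 c8975 c6871 c4903 c7308 (k1 c9269 k0)))) (by decide +kernel)
def c15485 : PP 8 4 T 0x1100000001000000000000000400000010100000100000000000040004000000000000 := rS 0x38321fa7d8245d2c6f48124c2b10883caa8f069cd5e294d99d26ab628ed121560945c8d22287042991887d3a790200c025b3d8280e0984868da56 (k8 c15019 c9753 c15347 c4316 c13906 c15469 c4462 c703 (k8 c92 c751 c422 c4461 c7136 c15054 c1065 c7896 (k8 c6171 c798 c4466 c7323 c15468 c15481 c4405 c6869 (k8 c15079 c678 c4403 c4530 c5962 c1029 c654 c6867 (k8 c4402 c5815 c7478 c4371 c15361 c12210 c12199 c4276 (k8 c622 c5402 c4281 c15483 c1076 c15484 c4360 c4481 (k4 c4409 c4961 c9269 c4480 (k1 c586 k0)))))))) (by decide +kernel)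
def c15486 : PP 8 4 T 0x1000000001000000000000000400000010100000100000000000040004000000000000 := rS 0x3eb26085d8ba41850d32c40e6af60aad8a931494476e444924c2b108a64629b0799c2a4547870421f06b493a790200c025b3d8280e0984868da56 (k8 c15019 c9753 c15347 c4316 c13906 c15469 c4462 c703 (k8 c92 c751 c422 c4461 c7136 c15054 c15468 c4371 (k8 c1065 c798 c4466 c15361 c7323 c15079 c654 c12199 (k8 c6867 c7896 c6171 c4276 c622 c5402 c4281 c678 (k8 c15481 c4403 c4405 c4402 c1029 c4530 c5962 c6869 (k8 c5815 c7478 c15485 c4412 c4962 c7287 c4486 c4362 (k4 c809 c4481 c7308 c4409 (k1 c9269 k0)))))))) (by decide +kernel)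
def c15487 : PP 8 4 T 0x1000001001000080000005100800000000400114001001000004040000001144020 := rS 0x4534594c839a1e0849 (k8 c4281 c4464 c7313 c4408 c12410 c7484 c1750 c14024 (k1 c13932 k0)) (by decide +kernel)
def c15488 : PP 8 4 T 0x1000000000000000400000010100000100000000000040004000000000000 := rS 0x280c85e643f4fb0439abd82ab62a4e2e29288edc86f2ec354cb538adc6f145faed3a452a99cf20f4d870082154a9532032d9b432310fa247e153d84c96490688c6a6100a0c2f0958845a40a03868ac09 (k8 c13906 c15019 c15347 c15469 c4462 c15468 c4276 c622 (k8 c4316 c170 c6833 c751 c5402 c4373 c4372 c4371 (k8 c4281 c4375 c570 c703 c15079 c398 c678 c1065 (k8 c7896 c171 c9753 c92 c422 c6171 c5936 c6029 (k8 c798 c4461 c4466 c6867 c12199 c7136 c654 c12210 (k8 c7323 c15054 c6870 c6330 c15486 c4386 c4353 c4387 (k8 c4389 c10851 c4330 c813 c9688 c15487 c4403 c4405 (k8 c4402 c4963 c1029 c4530 c5962 c6869 c5815 c7478 (k8 c4481 c4409 c4961 c9269 c4477 c7308 c547 c7303 k0))))))))) (by decide +kernel)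
def c15489 : PP 8 4 T 0x1100000000001000000000000504501555500000100000001400404108200000155100 := rS 0x19ec61db4158b561ae47ac560c6226af3f9f4e704 (k8 c4464 c4408 c7516 c7517 c983 c4340 c4488 c4450 (k8 c4370 c329 c6781 c4958 c7420 c2127 c943 c1762 (k2 c12204 c1520 (k1 c15400 k0)))) (by decide +kernel)
def c15490 : PP 8 4 T 0x1001000000000000000000400102000000000400011200000000000000000000000000 := rS 0x7e1710345 (k4 c4398 c1362 c826 c7086 (k1 c4377 k0)) (by decide +kernel)
def c15491 : PP 8 4 T 0x1101000000001000080000440404101514500400101200001400000008200200104140 := rS 0x2b584cda2af152cf38d0d6ab85b8f22e961f84c720d23ac4220a89a9d2227 (k8 c4278 c886 c902 c4340 c4462 c4276 c622 c4374 (k8 c4371 c4280 c570 c398 c15489 c4360 c927 c1165 (k8 c11808 c164 c4394 c1474 c1525 c15490 c11945 c4454 (k4 c6588 c8143 c6601 c8801 k0)))) (by decide +kernel)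
def c15492 : PP 8 4 T 0x1100000000001000080000440400001014100400100200008000000008050208104100 := rS 0x10a4e54b4158cf61a5d8c3d7eb25725c38239567d439fd5e55161b43309298fc260d23ac4220a03b1583184dc4d32a52fa444e59 (k8 c63 c4278 c886 c12467 c1883 c1881 c4340 c2784 (k8 c4488 c4450 c4370 c15469 c4462 c4276 c622 c4374 (k8 c4371 c570 c398 c414 c4316 c171 c9753 c4468 (k8 c2400 c983 c7517 c7313 c7516 c1884 c15491 c801 (k8 c800 c1476 c586 c4377 c11808 c9509 c927 c15480 (k4 c1520 c2127 c943 c949 (k2 c460 c1497 (k1 c6655 k0)))))))) (by decide +kernel)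
def c15493 : PP 8 4 T 0x1000000000001000080000440400001014100400100200008000000008051218104100 := rS 0xdc361e3095e632ab195a9f16a5d566551c40da198494d123f24ac4220a0399d8ac18c26e26992ca852227 (k8 c4278 c886 c4551 c63 c1881 c4340 c2784 c4488 (k8 c4450 c4370 c2926 c15469 c4462 c4276 c622 c4281 (k8 c398 c678 c414 c4316 c171 c9753 c15492 c4337 (k8 c4412 c4415 c4336 c4332 c4414 c4338 c8916 c15402 (k4 c11648 c828 c7287 c15480 (k2 c11072 c14266 (k1 c1343 k0))))))) (by decide +kernel)
def c15494 : PP 8 4 T 0x1500100000001001040000000008000208008800 := rS 0x11c6e (k2 c305 c15458 (k1 c1346 k0)) (by decide +kernel)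
def c15495 : PP 8 4 T 0x1000000000001000080000440400001010100400100200008000000008051218100110 := rS 0x24c1e992ca6cc2010501cda5b (k8 c92 c9753 c15469 c4462 c751 c5402 c2784 c63 (k4 c1881 c15494 c12021 c15493 k0)) (by decide +kernel)
def c15496 : PP 8 4 T 0x21000000000000000080040400108401001100010100200009000000000000000144000 := rS 0x23d52bd38a01907f43190da1123a64be59 (k8 c63 c12467 c1881 c4374 c4276 c9753 c1885 c1884 (k8 c554 c9509 c1733 c586 c1899 c1362 c801 c9059 k0)) (by decide +kernel)
def c15497 : PP 8 4 T 0x1000000000000000080000440400001010100400100200008000000008051218100110 := rS 0x9ecb42b21fa7f43c14c87245a4a94ab2a8f586af3ec45449756a7d8e2d7217d4309099241a47588454e674889d8ac18c44c1e992ca6cc2010501cda5b (k8 c92 c9753 c15469 c4462 c751 c5402 c2784 c63 (k8 c1881 c15494 c4340 c4488 c4450 c4370 c4278 c886 (k8 c2926 c902 c4276 c622 c4374 c4371 c4281 c570 (k8 c4316 c4551 c12467 c15495 c4286 c4289 c7077 c942 (k8 c926 c8916 c4337 c1354 c2820 c4958 c7465 c306 (k8 c15496 c4491 c2127 c4427 c1069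 c1070 c4408 c1652 (k4 c554 c7108 c9509 c716 (k2 c14024 c6655 (k1 c14966 k0))))))))) (by decide +kernel)
def c15498 : PP 8 4 T 0x100000000000000000000005004401555500000000000000401404158201000000000 := rS 0x2959e9f630eda0ac61ae47ac560c6226af (k8 c983 c4340 c4488 c4450 c4370 c329 c6781 c4958 (k8 c2127 c943 c1762 c2113 c1391 c1520 c2053 c15400 k0)) (by decide +kernel)
def c15499 : PP 8 4 T 0x100000001001000080000145000001010500000100200000000000048051208100010 := rS 0x14aa92fa1590c7288f12cab43c10aa2c0c94c7e13088e4920d1a91d061784a9d222760c62260f4c9653661009b4b6930501c1256 (k8 c15019 c13906 c15469 c4462 c12021 c92 c9753 c751 (k8 c5402 c2784 c63 c1881 c15494 c4340 c4488 c4450 (k8 c4278 c886 c902 c4316 c170 c6833 c4374 c4373 (k8 c4371 c4281 c4280 c4276 c570 c398 c414 c171 (k8 c4468 c2400 c4464 c7313 c1884 c15498 c927 c1684 (k4 c330 c12409 c14271 c12444 (k2 c827 c1883 (k1 c11945 k0)))))))) (by decide +kernel)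
def c15500 : PP 8 4 T 0x1001000080000145400001010500000100200000000000048051218100010 := rS 0x2ec3590a01e3095e632aab53e2d4baaccaa38824c330929a247e6762b06311307a64b29b308041407049b4b656 (k8 c15019 c92 c9753 c13906 c15469 c4462 c751 c5402 (k8 c2784 c63 c1881 c15494 c4340 c4488 c4450 c4370 (k8 c2926 c398 c678 c414 c4316 c171 c12021 c15499 (k8 c4337 c4412 c4415 c4336 c4332 c4414 c4338 c15402 (k8 c11648 c828 c7287 c15480 c11072 c12409 c4329 c810 (k1 c7308 k0)))))) (by decide +kernel)
def c15501 : PP 8 4 T 0x1000000000000000400000010100000100000000000040000000000000000 := rS 0x3d5cc14fc5e37a9152555024d56a386c412ead4fb1c5a3b722d4e2bd5b8dd1f1407a657ebb48a74ce29340948a1d100ac0aa70126e2632419848e351192472272584da4592d9b402170cc24621f44854f60a03868ac09 (k8 c13906 c15019 c15347 c15469 c4462 c703 c15079 c678 (k8 c1065 c7896 c4316 c171 c170 c751 c9753 c92 (k8 c63 c15468 c570 c4375 c4278 c4280 c4281 c4372 (k8 c4373 c4374 c5402 c6833 c15488 c4340 c2784 c15394 (k8 c902 c55 c2244 c12975 c791 c2406 c2243 c423 (k8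 c795 c2926 c967 c886 c6870 c6330 c1881 c15494 (k8 c15497 c4388 c4386 c4353 c4354 c4387 c4389 c15500 (k8 c4403 c4286 c4289 c7077 c942 c926 c10839 c13085 (k8 c4337 c4415 c4413 c8916 c15402 c7768 c11945 c15431 (k4 c1883 c14771 c4313 c7096 (k2 c10368 c7430 k0))))))))))) (by decide +kernel)
def c15502 : PP 8 4 T 0x100000000000000000000000000000000200 := rS 0xf0 (k2 c13906 c12761 k0) (by decide +kernel)
def c15503 : PP 8 4 T 0x100000000000004000000000000000000000 := rS 0xf0 (k2 c15019 c12761 k0) (by decide +kernel)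
def c15504 : PP 8 4 T 0x8000102000000 := rS 0x3 (k2 c6288 c254 k0) (by decide +kernel)
def c15505 : PP 8 4 T 0x8000200000000002000000 := rS 0x20 (k2 c7547 c2178 k0) (by decide +kernel)
def c15506 : PP 8 4 T 0x2000000000000200000000002 := rS 0x67 (k2 c7376 c910 k0) (by decide +kernel)
def c15507 : PP 8 4 T 0x20008000000002 := rS 0x20 (k2 c8775 c9668 k0) (by decide +kernel)
def c15508 : PP 8 4 T 0x2000048000000 := rS 0xf0 (k2 c7896 c4292 k0) (by decide +kernel)
def c15509 : PP 8 4 T 0x2000000800200000000000 := rS 0x7 (k2 c8995 c1601 k0) (by decide +kernel)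
def c15510 : PP 8 4 T 0x2000080000000008 := rS 0x55 (k2 c9050 c226 k0) (by decide +kernel)
def c15511 : PP 8 4 T 0x200000000000000000000010000000000000000000020 := rS 0x6e (k2 c10032 c123 k0) (by decide +kernel)
def c15512 : PP 8 4 T 0x20220 := rS 0x8d (k2 c10349 c15502 k0) (by decide +kernel)
def c15513 : PP 8 4 T 0x8000208 := rS 0x1c (k2 c13352 c7082 k0) (by decide +kernel)
def c15514 : PP 8 4 T 0x2000080000000200 := rS 0x57 (k2 c13803 c12961 k0) (by decide +kernel)
def c15515 : PP 8 4 T 0x80020000000000000000000020 := rS 0x8 (k2 c14894 c13277 k0) (by decide +kernel)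
def c15516 : PP 8 4 T 0x8000000000080000200000 := rS 0x8 (k2 c15061 c2220 k0) (by decide +kernel)
def c15517 : PP 8 4 T 0x100000000000000000040000000000200000 := rS 0xf0 (k2 c15079 c12761 k0) (by decide +kernel)
def c15518 : PP 8 4 T 0x20000000000000008000000000000000000080 := rS 0x0 (k2 c15239 c2710 k0) (by decide +kernel)
def c15519 : PP 8 4 T 0x1000000000200000000002000004 := rS 0x56 (k2 c4828 c15505 k0) (by decide +kernel)
def c15520 : PP 8 4 T 0x400000000000000000000000000802000000000000000000000000080000000000000 := rS 0xbf (k2 c4109 c907 k0) (by decide +kernel)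
def c15521 : PP 8 4 T 0x80000080800000000000000000000000000004000000000000 := rS 0xcf (k2 c4103 c909 k0) (by decide +kernel)
def c15522 : PP 8 4 T 0x200000000000200000000000002000000000001 := rS 0x40 (k2 c5553 c3784 k0) (by decide +kernel)
def c15523 : PP 8 4 T 0x80000000000000102000001 := rS 0x1c (k2 c5066 c758 k0) (by decide +kernel)
def c15524 : PP 8 4 T 0x200080004020000000000000000000000000 := rS 0xa3 (k2 c6609 c555 k0) (by decide +kernel)
def c15525 : PP 8 4 T 0x800000000000100000000000000000008000002 := rS 0x5b (k2 c5870 c5876 k0) (by decide +kernel)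
def c15526 : PP 8 4 T 0x40000000002000008000020 := rS 0xf0 (k2 c6533 c4292 k0) (by decide +kernel)
def c15527 : PP 8 4 T 0x200000000000000000088000800 := rS 0x5 (k2 c7139 c270 k0) (by decide +kernel)
def c15528 : PP 8 4 T 0x200800000204000000000000000000000000000000 := rS 0x118 (k2 c6903 c4448 k0) (by decide +kernel)
def c15529 : PP 8 4 T 0x200800000000008000000000000200000000 := rS 0x60 (k2 c7476 c2885 k0) (by decide +kernel)
def c15530 : PP 8 4 T 0x200000000000000000000000020004000200000000 := rS 0x1c (k2 c9161 c85 k0) (by decide +kernel)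
def c15531 : PP 8 4 T 0x20000000000000000000000000020000000081 := rS 0x5a (k2 c8134 c494 k0) (by decide +kernel)
def c15532 : PP 8 4 T 0x1000000000000000000020000000000000000000001000000000000080 := rS 0x3e (k2 c9517 c11031 k0) (by decide +kernel)
def c15533 : PP 8 4 T 0x1000000000000000000000000000000020088 := rS 0xe (k2 c10687 c113 k0) (by decide +kernel)
def c15534 : PP 8 4 T 0x10000000020002000000001 := rS 0xc (k2 c10096 c1368 k0) (by decide +kernel)
def c15535 : PP 8 4 T 0x80000000020000100000400 := rS 0x8e (k2 c9684 c1306 k0) (by decide +kernel)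
def c15536 : PP 8 4 T 0x40002000000000000000000820 := rS 0x104 (k2 c10054 c4406 k0) (by decide +kernel)
def c15537 : PP 8 4 T 0x8000004000200000000004 := rS 0x2a (k2 c11815 c143 k0) (by decide +kernel)
def c15538 : PP 8 4 T 0x80000001000000000000002000000000002 := rS 0x4 (k2 c13524 c54 k0) (by decide +kernel)
def c15539 : PP 8 4 T 0x20000000080000202 := rS 0x56 (k2 c13441 c3063 k0) (by decide +kernel)
def c15540 : PP 8 4 T 0x6000002000080000000000 := rS 0xa (k2 c12671 c12681 k0) (by decide +kernel)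
def c15541 : PP 8 4 T 0x2000002000080000000400 := rS 0x57 (k2 c12691 c15540 k0) (by decide +kernel)
def c15542 : PP 8 4 T 0x20000000000000000000000000000020000081 := rS 0x5a (k2 c11432 c494 k0) (by decide +kernel)
def c15543 : PP 8 4 T 0x2000000000000000000000000000000090000002 := rS 0x5b (k2 c12783 c4733 k0) (by decide +kernel)
def c15544 : PP 8 4 T 0x4000000004000000000000008000200 := rS 0x45 (k2 c13531 c424 k0) (by decide +kernel)
def c15545 : PP 8 4 T 0x2000080000000000000000000000000000000000000000000005000000 := rS 0xf0 (k2 c13532 c11030 k0) (by decide +kernel)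
def c15546 : PP 8 4 T 0x80040000000000000000000002000000020000000 := rS 0x20 (k2 c14265 c85 k0) (by decide +kernel)
def c15547 : PP 8 4 T 0x2000080000000000000000000000000000000000000008000000000020 := rS 0x2 (k2 c14646 c55 k0) (by decide +kernel)
def c15548 : PP 8 4 T 0x800000000000000000000008000000000040000000800 := rS 0x15 (k2 c15044 c662 k0) (by decide +kernel)
def c15549 : PP 8 4 T 0x400000000100000000000000000040000000004000000 := rS 0xf0 (k2 c15347 c12761 k0) (by decide +kernel)
def c15550 : PP 8 4 T 0x1000000000000800000000000000200008008 := rS 0xfc (k2 c5407 c4376 k0) (by decide +kernel)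
def c15551 : PP 8 4 T 0x10000000002000000000000000000001000000000000200000000000002000000000000 := rS 0x112 (k2 c5554 c4441 k0) (by decide +kernel)
def c15552 : PP 8 4 T 0x4000000000000000000000000000000008000000040040002000000000000000000000 := rS 0x104 (k2 c5190 c4406 k0) (by decide +kernel)
def c15553 : PP 8 4 T 0x80000200000004080010000000000000000000000 := rS 0x104 (k2 c6566 c4310 k0) (by decide +kernel)
def c15554 : PP 8 4 T 0x400000000000000000000000000000000000000000000080000010000000022000000 := rS 0x68 (k2 c5907 c2723 k0) (by decide +kernel)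
def c15555 : PP 8 4 T 0x40002000000000080000000801 := rS 0x104 (k2 c6212 c4406 k0) (by decide +kernel)
def c15556 : PP 8 4 T 0x400000020000000000000008000000000000020000020 := rS 0x58 (k2 c7304 c63 k0) (by decide +kernel)
def c15557 : PP 8 4 T 0x1000000000000000000000000002000000001000400000000000000000000000800 := rS 0x98 (k2 c7784 c188 k0) (by decide +kernel)
def c15558 : PP 8 4 T 0x20080000000000000000000000100084000000000 := rS 0xb4 (k2 c7302 c3637 k0) (by decide +kernel)
def c15559 : PP 8 4 T 0x2000000000000000008001100000000000000000000000000200000000 := rS 0x57 (k2 c7077 c15503 k0) (by decide +kernel)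
def c15560 : PP 8 4 T 0x2008000000100004000000020 := rS 0x5c (k2 c7310 c121 k0) (by decide +kernel)
def c15561 : PP 8 4 T 0x40000200000000020000041 := rS 0x2 (k2 c7323 c791 k0) (by decide +kernel)
def c15562 : PP 8 4 T 0x1000000000000020000000000000000000000000002000040100000000 := rS 0x1e (k2 c7820 c274 k0) (by decide +kernel)
def c15563 : PP 8 4 T 0x2000000040000000000000008000120 := rS 0xb (k2 c7136 c598 k0) (by decide +kernel)
def c15564 : PP 8 4 T 0x200000000001000008000000000000021000000 := rS 0x8 (k2 c7664 c3051 k0) (by decide +kernel)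
def c15565 : PP 8 4 T 0x1000000000000000000000000000000800000000000000001000200000020 := rS 0x1e (k2 c7135 c86 k0) (by decide +kernel)
def c15566 : PP 8 4 T 0x1000000000000000000000000000000800000004000000000000080000008 := rS 0x1a (k2 c8951 c2393 k0) (by decide +kernel)
def c15567 : PP 8 4 T 0x800000000002000000000002000000000000000000000000000000000000000001010000000000000 := rS 0x3a (k2 c8226 c4403 k0) (by decide +kernel)
def c15568 : PP 8 4 T 0x1000001000000000040000000000000000000000000000020000000000000000000002 := rS 0x7 (k2 c8563 c486 k0) (by decide +kernel)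
def c15569 : PP 8 4 T 0x2000200000000000000000000020000100000400 := rS 0xa5 (k2 c7885 c1237 k0) (by decide +kernel)
def c15570 : PP 8 4 T 0x2002000000080000000000000000001000000000000000000000000001000000 := rS 0xe (k2 c11065 c4376 k0) (by decide +kernel)
def c15571 : PP 8 4 T 0x200000008000020000000020000010000000 := rS 0x56 (k2 c10772 c63 k0) (by decide +kernel)
def c15572 : PP 8 4 T 0x1000000000000000000000200004000002000002 := rS 0xf0 (k2 c13336 c4296 k0) (by decide +kernel)
def c15573 : PP 8 4 T 0x1000000000000000000000000000000000010001014000000000000000000000 := rS 0x8d (k2 c12766 c15503 k0) (by decide +kernel)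
def c15574 : PP 8 4 T 0x2100000000000000000000000000000020820 := rS 0xd2 (k2 c12756 c4276 k0) (by decide +kernel)
def c15575 : PP 8 4 T 0x800000002000000000000000000000000000000000000002000002000040000000000 := rS 0x92 (k2 c12665 c1654 k0) (by decide +kernel)
def c15576 : PP 8 4 T 0x2000000000000000000000000000000800000002000001400000000000000 := rS 0xa (k2 c12658 c306 k0) (by decide +kernel)
def c15577 : PP 8 4 T 0x1000000000000000000000000000080000020000000000040000000080 := rS 0x1e (k2 c13964 c3100 k0) (by decide +kernel)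
def c15578 : PP 8 4 T 0x1000000000000000000000000000000800000020000000001000000000080 := rS 0x1e (k2 c13967 c3101 k0) (by decide +kernel)
def c15579 : PP 8 4 T 0x1000000000000000000000000000000000000000004000000080080000000002000000 := rS 0x8 (k2 c14473 c2152 k0) (by decide +kernel)
def c15580 : PP 8 4 T 0x1000000000000000000000000000000000000004000000000000002000820 := rS 0x31 (k2 c14638 c268 k0) (by decide +kernel)
def c15581 : PP 8 4 T 0x20000100000000008000090 := rS 0xa (k2 c14662 c534 k0) (by decide +kernel)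
def c15582 : PP 8 4 T 0x40000000000000000800000000000008000000000000020004000 := rS 0x5 (k2 c15367 c12664 k0) (by decide +kernel)
def c15583 : PP 8 4 T 0x40000000002000000000000000200000000000000800000004000 := rS 0x2 (k2 c15417 c8877 k0) (by decide +kernel)
def c15584 : PP 8 4 T 0x2000000000000000020000000000000014000401 := rS 0x6c (k2 c4731 c4993 k0) (by decide +kernel)
def c15585 : PP 8 4 T 0x400000000000000000000000000000000000008001000010000000000000011000000 := rS 0x108 (k2 c4780 c4320 k0) (by decide +kernel)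
def c15586 : PP 8 4 T 0x200000008001400000000020000010000000 := rS 0x8e (k2 c4037 c100 k0) (by decide +kernel)
def c15587 : PP 8 4 T 0x80000000000000220000000000000000400000011000000000000000000000000000000000000000000 := rS 0xce (k2 c4690 c4430 k0) (by decide +kernel)
def c15588 : PP 8 4 T 0x4000000000000000000000000000000000000000040004002000000000000020000001 := rS 0x104 (k2 c5134 c4406 k0) (by decide +kernel)
def c15589 : PP 8 4 T 0x4000000000000000000000004000000042000080000040000000000000000000000000 := rS 0xb0 (k2 c5095 c675 k0) (by decide +kernel)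
def c15590 : PP 8 4 T 0x200010004000000000000200040100 := rS 0x0 (k2 c5096 c9668 k0) (by decide +kernel)
def c15591 : PP 8 4 T 0x100000000000000000000000000000000000000000040002000002000080000000001 := rS 0x104 (k2 c5433 c4406 k0) (by decide +kernel)
def c15592 : PP 8 4 T 0x20000000080000400000000000000000000080000080100000000 := rS 0x110 (k2 c5794 c4411 k0) (by decide +kernel)
def c15593 : PP 8 4 T 0x100000000000000000000000000000000000000020044000000000080000000800 := rS 0xb2 (k2 c6379 c2519 k0) (by decide +kernel)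
def c15594 : PP 8 4 T 0x100000000000000000000000000000000000000050080000000000080000000001 := rS 0x110 (k2 c6109 c4411 k0) (by decide +kernel)
def c15595 : PP 8 4 T 0x10000000000000000000000000000021400080000000008000000000000000000000 := rS 0x5a (k2 c6307 c92 k0) (by decide +kernel)
def c15596 : PP 8 4 T 0x1000000000002000000000200000000000000000002000001040000000 := rS 0x3e (k2 c7809 c145 k0) (by decide +kernel)
def c15597 : PP 8 4 T 0x4000000000000000000006400200000000400 := rS 0xe4 (k2 c7859 c4286 k0) (by decide +kernel)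
def c15598 : PP 8 4 T 0x800000000000000080000000000000000000000000000200000000000401002000000 := rS 0x32 (k2 c7642 c4340 k0) (by decide +kernel)
def c15599 : PP 8 4 T 0x80092000000000010020000000 := rS 0x1 (k2 c7395 c758 k0) (by decide +kernel)
def c15600 : PP 8 4 T 0x100000000000000000000000000000000000000200000000000000000050020000080 := rS 0xa (k2 c7271 c83 k0) (by decide +kernel)
def c15601 : PP 8 4 T 0x4000000000000000000000000000000000000000040000000000000000080020000011 := rS 0x3 (k2 c7194 c4461 k0) (by decide +kernel)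
def c15602 : PP 8 4 T 0x20000000000000000000000100000000000000000000000008080000000000014000 := rS 0xd2 (k2 c7803 c4375 k0) (by decide +kernel)
def c15603 : PP 8 4 T 0x200000000800000000000000001000208000800 := rS 0x0 (k2 c7772 c9668 k0) (by decide +kernel)
def c15604 : PP 8 4 T 0x2000000000001008000000000004800000100 := rS 0x8e (k2 c10157 c130 k0) (by decide +kernel)
def c15605 : PP 8 4 T 0x20002002000000000000000100000000000000001010000000000000000000000000000 := rS 0x76 (k2 c8862 c4438 k0) (by decide +kernel)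
def c15606 : PP 8 4 T 0x1000012000000000000000002000000000000002000000000004000000 := rS 0xc6 (k2 c7979 c147 k0) (by decide +kernel)
def c15607 : PP 8 4 T 0x1000000002000000000000000000000000800000000000000000002000002000008 := rS 0xf0 (k2 c9113 c11030 k0) (by decide +kernel)
def c15608 : PP 8 4 T 0x8008000100000000100000000000000082 := rS 0x6a (k2 c8450 c2440 k0) (by decide +kernel)
def c15609 : PP 8 4 T 0x100000000000000000000000000000040000000100020000080000000000000002 := rS 0x7 (k2 c8579 c486 k0) (by decide +kernel)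
def c15610 : PP 8 4 T 0x8000002000000000000000800000000000080000050000000000000000000000000000 := rS 0x6e (k2 c10311 c4378 k0) (by decide +kernel)
def c15611 : PP 8 4 T 0x1000000000000000000000000000000000000000010000000020000080001020 := rS 0x1c (k2 c10354 c56 k0) (by decide +kernel)
def c15612 : PP 8 4 T 0x2000000002000000000000400000000000000000000000000010040010000000000000 := rS 0x38 (k2 c11148 c4348 k0) (by decide +kernel)
def c15613 : PP 8 4 T 0x40000000000200800000000000000000000000050000200000000 := rS 0x98 (k2 c9866 c104 k0) (by decide +kernel)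
def c15614 : PP 8 4 T 0x2000000000000000000000800000000000000000000002000140010000000 := rS 0x1e (k2 c11122 c274 k0) (by decide +kernel)
def c15615 : PP 8 4 T 0x40000000000000000000020000020000000000000001400000020 := rS 0x62 (k2 c9990 c67 k0) (by decide +kernel)
def c15616 : PP 8 4 T 0x2000000000000000000000200000000000014000000020000000000008 := rS 0x1c (k2 c10771 c790 k0) (by decide +kernel)
def c15617 : PP 8 4 T 0x40000000200000000000000000000008000000000004400000008 := rS 0x58 (k2 c10634 c63 k0) (by decide +kernel)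
def c15618 : PP 8 4 T 0x200000000000000000000020004010000018 := rS 0xd2 (k2 c10770 c4373 k0) (by decide +kernel)
def c15619 : PP 8 4 T 0x100000000000000000000400000000000000000010000000000000200080000002 := rS 0x94 (k2 c11228 c2854 k0) (by decide +kernel)
def c15620 : PP 8 4 T 0x1000000200000000000000000000000000801000000000004000000010 := rS 0x0 (k2 c12444 c2435 k0) (by decide +kernel)
def c15621 : PP 8 4 T 0x1000000000000000000000000000000000004000000000040000200402 := rS 0x2 (k2 c12287 c28 k0) (by decide +kernel)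
def c15622 : PP 8 4 T 0x100000002000000000000000000000100000020020001 := rS 0x8c (k2 c12220 c129 k0) (by decide +kernel)
def c15623 : PP 8 4 T 0x2800000000000000000000400000400400100000000000000000000000000000000000 := rS 0x98 (k2 c13260 c4443 k0) (by decide +kernel)
def c15624 : PP 8 4 T 0x4000000080000080000000010000202 := rS 0x20 (k2 c12838 c9668 k0) (by decide +kernel)
def c15625 : PP 8 4 T 0x1000000000000000000000000000000000000004000080002000000000810 := rS 0x1a (k2 c14444 c294 k0) (by decide +kernel)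
def c15626 : PP 8 4 T 0x1000000000000000000002000000000000000020000000000000004400020 := rS 0x56 (k2 c14761 c63 k0) (by decide +kernel)
def c15627 : PP 8 4 T 0x800002000000000000000000000400000001000000100400000000000000000000000 := rS 0x5c (k2 c14832 c4377 k0) (by decide +kernel)
def c15628 : PP 8 4 T 0x100000000100000000000000000000000008100000820 := rS 0x2 (k2 c15383 c302 k0) (by decide +kernel)
def c15629 : PP 8 4 T 0x4000000008000000008000040000005 := rS 0x30 (k2 c15394 c173 k0) (by decide +kernel)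
def c15630 : PP 8 4 T 0x400000000000000000000000000002000000000400100008000000000000022000000 := rS 0x118 (k2 c4654 c4368 k0) (by decide +kernel)
def c15631 : PP 8 4 T 0x14000000000000000000014000000000000000000000000000000020008080000000000 := rS 0x2e (k2 c4791 c172 k0) (by decide +kernel)
def c15632 : PP 8 4 T 0x1000000000000020000000000000000000000000002000040040000044 := rS 0x3a (k2 c7821 c89 k0) (by decide +kernel)
def c15633 : PP 8 4 T 0x8800000000000000000010000010000414000000000000000000000000000000000000 := rS 0xaa (k2 c7641 c4445 k0) (by decide +kernel)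
def c15634 : PP 8 4 T 0x8000002000000000000000005000000000000040050000000000000000000000000000 := rS 0xb2 (k2 c7787 c4358 k0) (by decide +kernel)
def c15635 : PP 8 4 T 0x1010000000000000000000000000000000200000000000000000000010004400020000 := rS 0x38 (k2 c6909 c1114 k0) (by decide +kernel)
def c15636 : PP 8 4 T 0x400000000000000000000000000004008000100000000082040000000000000000000000000000000 := rS 0x82 (k2 c7306 c645 k0) (by decide +kernel)
def c15637 : PP 8 4 T 0x1000000040000000000000000000800000000000040000000000001410000 := rS 0x4a (k2 c8514 c1855 k0) (by decide +kernel)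
def c15638 : PP 8 4 T 0x4000000000000000000000000800000000000000000000022000000000000020000081 := rS 0x72 (k2 c8861 c152 k0) (by decide +kernel)
def c15639 : PP 8 4 T 0x20000200000000000000004000000000000044000500000000000000000000000000000 := rS 0xb2 (k2 c9062 c4312 k0) (by decide +kernel)
def c15640 : PP 8 4 T 0x80000000000020000000000000000000400115000000000000000000000000000000000000000000000 := rS 0xc4 (k2 c8864 c4429 k0) (by decide +kernel)
def c15641 : PP 8 4 T 0x1000000000040000000000000000000000000000080000000000000000005202 := rS 0x26 (k2 c11235 c871 k0) (by decide +kernel)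
def c15642 : PP 8 4 T 0x1000040240000000000000000000000000001000000000000000050000 := rS 0xfc (k2 c9529 c4305 k0) (by decide +kernel)
def c15643 : PP 8 4 T 0x2000200000000000000100010100000000000000104000000000000000000000000000 := rS 0xb2 (k2 c9531 c4312 k0) (by decide +kernel)
def c15644 : PP 8 4 T 0x20010000002000000080000000000400000400000000000000000000000000080000000 := rS 0x36 (k2 c9822 c273 k0) (by decide +kernel)
def c15645 : PP 8 4 T 0x1000000000000000000000000000000080000000000000140080000202 := rS 0x6 (k2 c11229 c30 k0) (by decide +kernel)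
def c15646 : PP 8 4 T 0x2002000000080000000000000000080000000000000000000000000001041000 := rS 0xe (k2 c11308 c4376 k0) (by decide +kernel)
def c15647 : PP 8 4 T 0x2200000000000000000000000000000010100000000000000000804000010000000000 := rS 0x96 (k2 c12069 c4336 k0) (by decide +kernel)
def c15648 : PP 8 4 T 0x822000000000000000000000000000000000400000001500000000000000000000000 := rS 0x80 (k2 c12516 c4439 k0) (by decide +kernel)
def c15649 : PP 8 4 T 0x1000000000000000000800000000000000001400000000000000001408000 := rS 0xfc (k2 c13250 c4376 k0) (by decide +kernel)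
def c15650 : PP 8 4 T 0x40080000000800140100000400 := rS 0xe4 (k2 c12770 c4403 k0) (by decide +kernel)
def c15651 : PP 8 4 T 0x2000000000002000000000000000000000000000000000020000200005000000000200 := rS 0xf0 (k2 c12969 c11030 k0) (by decide +kernel)
def c15652 : PP 8 4 T 0x1000000000000400000000000000000080001000000000000080100002 := rS 0x64 (k2 c11319 c151 k0) (by decide +kernel)
def c15653 : PP 8 4 T 0x200000000001040000000010000200008400 := rS 0x3 (k2 c12767 c12555 k0) (by decide +kernel)
def c15654 : PP 8 4 T 0x1000040000000000000000080800000000000021000000000000010000 := rS 0x84 (k2 c12354 c185 k0) (by decide +kernel)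
def c15655 : PP 8 4 T 0x1000000000000000008000000000100000200000001000000000000808 := rS 0x5e (k2 c12112 c65 k0) (by decide +kernel)
def c15656 : PP 8 4 T 0x80000000000002000000000000000000405410000000000000000000000000000000000000000000000 := rS 0xc4 (k2 c14030 c4429 k0) (by decide +kernel)
def c15657 : PP 8 4 T 0x2000010004000000000000000000000000000000151000000000000000 := rS 0xf0 (k2 c14640 c11030 k0) (by decide +kernel)
def c15658 : PP 8 4 T 0x10000000000000000000800000000000002004011000500000000000000000000000 := rS 0x118 (k2 c4136 c4369 k0) (by decide +kernel)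
def c15659 : PP 8 4 T 0x40000000000040002000002000000140000011 := rS 0x104 (k2 c5184 c4406 k0) (by decide +kernel)
def c15660 : PP 8 4 T 0x20000002000000000000000100000000000001005410000000000000000000000000000 := rS 0x82 (k2 c6225 c4306 k0) (by decide +kernel)
def c15661 : PP 8 4 T 0x2000080000000010020000000000000000000000000005401000000000 := rS 0x2a (k2 c6231 c1735 k0) (by decide +kernel)
def c15662 : PP 8 4 T 0x20000000002000000040000000040000000000000000000001000000050400000000 := rS 0x26 (k2 c7771 c4324 k0) (by decide +kernel)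
def c15663 : PP 8 4 T 0x80000000500000000000020140000000000000000000000100080 := rS 0x3e (k2 c7640 c11031 k0) (by decide +kernel)
def c15664 : PP 8 4 T 0x102000000000000000000000000000000040000000001001000000000000141000 := rS 0xe (k2 c7126 c4376 k0) (by decide +kernel)
def c15665 : PP 8 4 T 0x400000020000000000010000000001000000040200120 := rS 0x92 (k2 c7133 c102 k0) (by decide +kernel)
def c15666 : PP 8 4 T 0x100000000000000040000020000000048000000000000000000000000101400000000 := rS 0x94 (k2 c8464 c102 k0) (by decide +kernel)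
def c15667 : PP 8 4 T 0x40000000000020000002000000000000400020000000000000040410000000000000000000000000000 := rS 0x78 (k2 c8242 c4447 k0) (by decide +kernel)
def c15668 : PP 8 4 T 0x2000000000020000000000000000000000000100000000000101414000000000000000000000000000 := rS 0x82 (k2 c8243 c4452 k0) (by decide +kernel)
def c15669 : PP 8 4 T 0x200000002000000100000000000000000010000000000001000000000000015000 := rS 0x14 (k2 c9269 c4308 k0) (by decide +kernel)
def c15670 : PP 8 4 T 0x20000000002000000000004000000000000000000000000000400015400000000000000 := rS 0x42 (k2 c9828 c4446 k0) (by decide +kernel)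
def c15671 : PP 8 4 T 0x1000000000000000000008000000000044080000000000140000000200 := rS 0xa (k2 c11197 c84 k0) (by decide +kernel)
def c15672 : PP 8 4 T 0x20000200000000000000000000008000040004000500010000000000000000000000000 := rS 0xb2 (k2 c9421 c4312 k0) (by decide +kernel)
def c15673 : PP 8 4 T 0x80000000000000000000002001000000000000010000000000000000000000000000001150000000000 := rS 0x2e (k2 c9591 c4432 k0) (by decide +kernel)
def c15674 : PP 8 4 T 0x20002000001000000000000000040000000000000010001000000000000000100020 := rS 0x60 (k2 c11932 c4326 k0) (by decide +kernel)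
def c15675 : PP 8 4 T 0x1000000000000000000000000000200000061000001000000000000410 := rS 0x0 (k2 c12443 c2432 k0) (by decide +kernel)
def c15676 : PP 8 4 T 0x2000000000000000008001000004046040000000000000000000000000000000000000 := rS 0xc2 (k2 c13376 c1213 k0) (by decide +kernel)
def c15677 : PP 8 4 T 0x1000080140000000000000000000000000001000000000000000144000 := rS 0x7e (k2 c11768 c12366 k0) (by decide +kernel)
def c15678 : PP 8 4 T 0x400000000000000000000000000001000000000001000080000080001000000000408 := rS 0x58 (k2 c11699 c93 k0) (by decide +kernel)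
def c15679 : PP 8 4 T 0x2000000000000000000000010000000000000000000002002000001000200000000048 := rS 0x3a (k2 c12650 c15509 k0) (by decide +kernel)
def c15680 : PP 8 4 T 0x800000000000000200000000000004400000000000000045500000000000000000000000000000000 := rS 0x7e (k2 c4806 c4313 k0) (by decide +kernel)
def c15681 : PP 8 4 T 0x4100000000000000000000000000000000000000040044002000001000000040000001 := rS 0x104 (k2 c5159 c4406 k0) (by decide +kernel)
def c15682 : PP 8 4 T 0x2000000000080000000000000000001000001500000040000002000004000000 := rS 0x82 (k2 c5968 c4306 k0) (by decide +kernel)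
def c15683 : PP 8 4 T 0x8000001000002000080000010100000000000000010000020000000040000000000000 := rS 0x3c (k2 c6392 c4416 k0) (by decide +kernel)
def c15684 : PP 8 4 T 0x4000100000000000000000000400000004000000000010000000000000000200040104 := rS 0x0 (k2 c6198 c9668 k0) (by decide +kernel)
def c15685 : PP 8 4 T 0x2000000000000000000000400001501500100000000000000000000000000000000000 := rS 0xba (k2 c10851 c4390 k0) (by decide +kernel)
def c15686 : PP 8 4 T 0x200000000000000000015000040001510000000000000000000000000000000000000 := rS 0xaa (k2 c7287 c4415 k0) (by decide +kernel)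
def c15687 : PP 8 4 T 0x80040000000054000000000000000000000000000151000000000 := rS 0x48 (k2 c8916 c4281 k0) (by decide +kernel)
def c15688 : PP 8 4 T 0x20800000000000000000005000010000154000000000000000000000000000000000000 := rS 0xaa (k2 c7972 c4445 k0) (by decide +kernel)
def c15689 : PP 8 4 T 0x800000002000000000000000000000000080000000100060000000110000000000002 := rS 0x7 (k2 c8483 c486 k0) (by decide +kernel)
def c15690 : PP 8 4 T 0x2000000000000110020000000000080044410000000000000000000000000000 := rS 0x78 (k2 c9363 c605 k0) (by decide +kernel)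
def c15691 : PP 8 4 T 0x1002000000002000040000040000000000000000000001005400000000000 := rS 0x116 (k2 c9855 c4420 k0) (by decide +kernel)
def c15692 : PP 8 4 T 0x12000000000000000000000440000000000000405404000000000000000000000000000 := rS 0x80 (k2 c10474 c7000 k0) (by decide +kernel)
def c15693 : PP 8 4 T 0x2200000000000000000000010000014051100000000000000000000000000000000000 := rS 0xb4 (k2 c11255 c4389 k0) (by decide +kernel)
def c15694 : PP 8 4 T 0x2000000040400000000000000020080000000000001000000000001005000 := rS 0x10 (k2 c12296 c671 k0) (by decide +kernel)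
def c15695 : PP 8 4 T 0x1000000000001000004000010002240000100008 := rS 0x112 (k2 c11755 c4441 k0) (by decide +kernel)
def c15696 : PP 8 4 T 0x2920000000000000000000000000000454100000000000000000000000000000000000 := rS 0x90 (k2 c12606 c4328 k0) (by decide +kernel)
def c15697 : PP 8 4 T 0x40000000000011000000000000000020480110000000000000000000000000000000040000000000000 := rS 0x52 (k2 c13447 c179 k0) (by decide +kernel)
def c15698 : PP 8 4 T 0x2000000002000000000040000000000000000000000000002000441410000000000000 := rS 0x36 (k2 c12697 c4386 k0) (by decide +kernel)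
def c15699 : PP 8 4 T 0x2020000000001000000000000000000041100000000000000002001000040000000000 := rS 0x26 (k2 c12404 c4324 k0) (by decide +kernel)
def c15700 : PP 8 4 T 0x800002001000000000000000000400000000000000001400040000000000001000002 := rS 0x5c (k2 c12888 c4377 k0) (by decide +kernel)
def c15701 : PP 8 4 T 0x20000000000000080000000000040000000000000000000000002040140000000410 := rS 0x9e (k2 c11782 c4384 k0) (by decide +kernel)
def c15702 : PP 8 4 T 0x80000000a000251000000000400020 := rS 0x52 (k2 c13682 c9029 k0) (by decide +kernel)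
def c15703 : PP 8 4 T 0x80000000000022000101000000000000100000000000000004050000000000000000000000000000000 := rS 0xc4 (k2 c13917 c4429 k0) (by decide +kernel)
def c15704 : PP 8 4 T 0x102000000000000000000000010000000040000054500000000000000000000000 := rS 0x60 (k2 c14172 c4302 k0) (by decide +kernel)
def c15705 : PP 8 4 T 0x2000000000000000000000000000000000000000100000000100001501500000000000000000000000 := rS 0x82 (k2 c14412 c4452 k0) (by decide +kernel)
def c15706 : PP 8 4 T 0x200000000000000080040000000000000000040000000801000000000000000144000 := rS 0x46 (k2 c14771 c4374 k0) (by decide +kernel)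
def c15707 : PP 8 4 T 0x2001000000000000000000000000000000000000400500008000006000000000001 := rS 0x68 (k2 c14856 c4437 k0) (by decide +kernel)
def c15708 : PP 8 4 T 0x6000000000000000000100014400000000000010144000000000000000000000000000 := rS 0xb4 (k2 c4073 c4389 k0) (by decide +kernel)
def c15709 : PP 8 4 T 0x20000000000000000040000000044000000000000000000001400000150400000000 := rS 0x26 (k2 c4200 c4324 k0) (by decide +kernel)
def c15710 : PP 8 4 T 0x800000000000000000015000014000454000000000000000000000000000000000000 := rS 0x9c (k2 c4553 c4344 k0) (by decide +kernel)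
def c15711 : PP 8 4 T 0x44080000000000000000000000080151500000000 := rS 0xb6 (k2 c4597 c1166 k0) (by decide +kernel)
def c15712 : PP 8 4 T 0x80000000001500000000000000000000040000005405000000000 := rS 0x4c (k2 c4839 c4282 k0) (by decide +kernel)
def c15713 : PP 8 4 T 0x10000000002000080000000000010000000040000021101000000000000000004000 := rS 0xfc (k2 c6371 c14643 k0) (by decide +kernel)
def c15714 : PP 8 4 T 0x200000000000000000015000040001550000000000000000000000000000000000000 := rS 0xaa (k2 c7223 c4415 k0) (by decide +kernel)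
def c15715 : PP 8 4 T 0x2000000000015000000000000000000000000001001550000000000000 := rS 0x46 (k2 c7430 c4404 k0) (by decide +kernel)
def c15716 : PP 8 4 T 0x10000000044000020000000000000008100000005000000000808 := rS 0x2e (k2 c7488 c8877 k0) (by decide +kernel)
def c15717 : PP 8 4 T 0x2000000000000000000000400000000000001505414000000000000000000000000000 := rS 0xba (k2 c7040 c4390 k0) (by decide +kernel)
def c15718 : PP 8 4 T 0x80000000000000000000000000000000001000000000554000000000000000100020004000000000000 := rS 0xf0 (k2 c7085 c4433 k0) (by decide +kernel)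
def c15719 : PP 8 4 T 0x2000000000000100020000000000000021100000000000000020015000 := rS 0x54 (k2 c7303 c3663 k0) (by decide +kernel)
def c15720 : PP 8 4 T 0x100000000000000010800000000054000000000000000000010000008110000000000 := rS 0x2a (k2 c7119 c436 k0) (by decide +kernel)
def c15721 : PP 8 4 T 0x8002002000000000000000145000000000000001050000000000000000000000000000 := rS 0x76 (k2 c8859 c4438 k0) (by decide +kernel)
def c15722 : PP 8 4 T 0x20800000000000000000010000000001040000000000000000000010800150000000000 := rS 0x94 (k2 c8713 c1576 k0) (by decide +kernel)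
def c15723 : PP 8 4 T 0x2001000000000000000000000000000000000400004000000044150000000000008000 := rS 0x38 (k2 c8476 c4348 k0) (by decide +kernel)
def c15724 : PP 8 4 T 0x20000000000000000000000100001501101500000000000000000000000000000000000 := rS 0xbe (k2 c7959 c4369 k0) (by decide +kernel)
def c15725 : PP 8 4 T 0x2000000000000000000000020044000100010000000000000000081100080 := rS 0x1 (k2 c11032 c1098 k0) (by decide +kernel)
def c15726 : PP 8 4 T 0x8000000000000000000010000400000000054005440000000000000000000000000000 := rS 0xc0 (k2 c9460 c4420 k0) (by decide +kernel)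
def c15727 : PP 8 4 T 0x80140000000000000000050000000001000000000000000154000 := rS 0x46 (k2 c9509 c4374 k0) (by decide +kernel)
def c15728 : PP 8 4 T 0x8000000000000000000000000408000000044004440040020000000000000000000000 := rS 0x9c (k2 c11176 c1234 k0) (by decide +kernel)
def c15729 : PP 8 4 T 0x2001000002000000000000040000000000000005004000000010000040000000000200 := rS 0x42 (k2 c9686 c237 k0) (by decide +kernel)
def c15730 : PP 8 4 T 0x800000000000000000015000010000044000001100000008000000000000000000000 := rS 0x9c (k2 c9798 c4344 k0) (by decide +kernel)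
def c15731 : PP 8 4 T 0x200000000000000000000015000014011500000000000000000000000000000000000 := rS 0x96 (k2 c11040 c4336 k0) (by decide +kernel)
def c15732 : PP 8 4 T 0x200000000000000100015100000000000000154000000000000000000000000000 := rS 0xb2 (k2 c10837 c4312 k0) (by decide +kernel)
def c15733 : PP 8 4 T 0x2000000000000000054000000020000040001000000000005400000000 := rS 0x104 (k2 c10070 c4409 k0) (by decide +kernel)
def c15734 : PP 8 4 T 0x1000000000000000000000010500000000000000154000000000000020000000080000 := rS 0xc6 (k2 c12026 c1451 k0) (by decide +kernel)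
def c15735 : PP 8 4 T 0x400000002000000000000000050001000000000000000000000045400080000000000 := rS 0x110 (k2 c11271 c4411 k0) (by decide +kernel)
def c15736 : PP 8 4 T 0x80040015000000000000000000000000000005540000000000000 := rS 0x46 (k2 c12162 c4374 k0) (by decide +kernel)
def c15737 : PP 8 4 T 0x40000000000000001001000000000000025020000000000000440004000000000000000000000000000 := rS 0x118 (k2 c13387 c4370 k0) (by decide +kernel)
def c15738 : PP 8 4 T 0x2000000000000000000000400000000000000100000000000010150010000002004000 := rS 0x36 (k2 c12978 c4386 k0) (by decide +kernel)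
def c15739 : PP 8 4 T 0x2000000000000000000000000400000000000040000000002001405410000000000000 := rS 0xc6 (k2 c13098 c251 k0) (by decide +kernel)
def c15740 : PP 8 4 T 0x2000002001000000000000400000000000001000000000000000150000000005000000 := rS 0x7a (k2 c13754 c14312 k0) (by decide +kernel)
def c15741 : PP 8 4 T 0x400000001000000000000000000000000002000001000040000000001408204000000 := rS 0x108 (k2 c14330 c4321 k0) (by decide +kernel)
def c15742 : PP 8 4 T 0x80000000000000044000000000000400082000000005100800 := rS 0xe4 (k2 c14402 c4289 k0) (by decide +kernel)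
def c15743 : PP 8 4 T 0x1000000080000000000800000000000000001000040000000401005400000 := rS 0x30 (k2 c14487 c2007 k0) (by decide +kernel)
def c15744 : PP 8 4 T 0x2000000001000000000000000001001000100000000200000000100008000000020008 := rS 0x42 (k2 c15466 c337 k0) (by decide +kernel)
def c15745 : PP 8 4 T 0x1000000000000000000000015500000000000040154000000000000000000000000000 := rS 0x7c (k2 c4088 c8975 k0) (by decide +kernel)
def c15746 : PP 8 4 T 0x10001000000000000000000000000001400000004000900040000010000000000000408 := rS 0x112 (k2 c5528 c4442 k0) (by decide +kernel)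
def c15747 : PP 8 4 T 0x900000000000000000011000014000554000000000000000000000000000000000000 := rS 0x9c (k2 c6031 c4344 k0) (by decide +kernel)
def c15748 : PP 8 4 T 0x1000000010004000000000000000000000000000500155400000000000000 := rS 0xc0 (k2 c6159 c6869 k0) (by decide +kernel)
def c15749 : PP 8 4 T 0x100000000000000000000040000000054000001554000000000000000000000000 := rS 0xaa (k2 c6907 c13092 k0) (by decide +kernel)
def c15750 : PP 8 4 T 0x1000000000001056000000000005411000 := rS 0xe (k2 c7777 c242 k0) (by decide +kernel)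
def c15751 : PP 8 4 T 0x800000000000000000015000014000044000001100000008000000000000000000000 := rS 0x9c (k2 c7130 c4344 k0) (by decide +kernel)
def c15752 : PP 8 4 T 0x2000084000400054000001000000000004000040010000000 := rS 0x68 (k2 c7742 c829 k0) (by decide +kernel)
def c15753 : PP 8 4 T 0x4000000002000000000000000054000004000000000000000000040401100200000000 := rS 0x3e (k2 c8019 c400 k0) (by decide +kernel)
def c15754 : PP 8 4 T 0x20000200001001000000000000400000000000001540000000400000000000002000000 := rS 0x7a (k2 c9495 c4366 k0) (by decide +kernel)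
def c15755 : PP 8 4 T 0x8000000000000000000800400400000000044045440000000000000000000000000000 := rS 0xc0 (k2 c9862 c4420 k0) (by decide +kernel)
def c15756 : PP 8 4 T 0x20000000000000000000000001000000000402004501500000000000000000000080 := rS 0x6c (k2 c9583 c2452 k0) (by decide +kernel)
def c15757 : PP 8 4 T 0x2000000000000000000000054000000000000400000002040005400020 := rS 0x14 (k2 c13058 c4284 k0) (by decide +kernel)
def c15758 : PP 8 4 T 0x4802000000000000000000000000000444010000000144010000000000000000000000 := rS 0x6c (k2 c13357 c4342 k0) (by decide +kernel)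
def c15759 : PP 8 4 T 0x40000001154010000208000000240000000 := rS 0x33 (k2 c13350 c440 k0) (by decide +kernel)
def c15760 : PP 8 4 T 0x8400200000000000000010000400001400000000001500004000000000000000000000 := rS 0x7a (k2 c13242 c4055 k0) (by decide +kernel)
def c15761 : PP 8 4 T 0x2000000000002000000000400000000000000000004000000000150002000400008008 := rS 0xf0 (k2 c13153 c11030 k0) (by decide +kernel)
def c15762 : PP 8 4 T 0x1000000000004000000000000000000000000000400055402010000000008 := rS 0x44 (k2 c13201 c2139 k0) (by decide +kernel)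
def c15763 : PP 8 4 T 0x400000000000000000000100001501501500000000000000000000000000000000000 := rS 0xba (k2 c11945 c11766 k0) (by decide +kernel)
def c15764 : PP 8 4 T 0x1000000000000000000000000000001100090000208000000040100408 := rS 0x21 (k2 c13585 c838 k0) (by decide +kernel)
def c15765 : PP 8 4 T 0x1000000000001454000000208000000080000120 := rS 0x32 (k2 c13907 c431 k0) (by decide +kernel)
def c15766 : PP 8 4 T 0x28001100000000000000000000000000014000000001550000000000000000000000000 := rS 0xac (k2 c14062 c6230 k0) (by decide +kernel)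
def c15767 : PP 8 4 T 0x11000444000514008000000000080000000000000000000000 := rS 0x68 (k2 c14564 c844 k0) (by decide +kernel)
def c15768 : PP 8 4 T 0x2000000000000000020004000040040041100000000000000020080000040000000000 := rS 0xd2 (k2 c14699 c4282 k0) (by decide +kernel)
def c15769 : PP 8 4 T 0x40001000000000000000000002000000004050010080200820 := rS 0x3a (k2 c14864 c1102 k0) (by decide +kernel)
def c15770 : PP 8 4 T 0x100000020208000000000000000045150100000080000000 := rS 0x94 (k2 c4216 c102 k0) (by decide +kernel)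
def c15771 : PP 8 4 T 0x500000800000000000000000000054150110000080000000 := rS 0x90 (k2 c4496 c1153 k0) (by decide +kernel)
def c15772 : PP 8 4 T 0x1500000000000000000400054000004004401000008 := rS 0x2e (k2 c4639 c8877 k0) (by decide +kernel)
def c15773 : PP 8 4 T 0x200001000000000005000000000000044004500000000000040400000000000080 := rS 0x44 (k2 c5806 c1217 k0) (by decide +kernel)
def c15774 : PP 8 4 T 0x2100002000000000000000010400000054000040010044000000000000000000000000 := rS 0xb0 (k2 c7058 c4304 k0) (by decide +kernel)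
def c15775 : PP 8 4 T 0x100000000000000000010000044001514010000080040000000000000000000000000 := rS 0xb2 (k2 c7273 c152 k0) (by decide +kernel)
def c15776 : PP 8 4 T 0x11000044001514010000080040000000000000000000000000 := rS 0xb2 (k2 c7478 c152 k0) (by decide +kernel)
def c15777 : PP 8 4 T 0x11000444001510010000040008000000000000000000000000 := rS 0x92 (k2 c7141 c1608 k0) (by decide +kernel)
def c15778 : PP 8 4 T 0x80001100001000000000000000044000105401400000000 := rS 0xa6 (k2 c6931 c1979 k0) (by decide +kernel)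
def c15779 : PP 8 4 T 0x120000000002000000000000000050051000000000000000000000100040420000000 := rS 0x26 (k2 c7455 c4324 k0) (by decide +kernel)
def c15780 : PP 8 4 T 0x814000004000000801000000400000001100240000020 := rS 0x3a (k2 c7844 c3028 k0) (by decide +kernel)
def c15781 : PP 8 4 T 0x40000000000000000000002000000000040000082044000000000000000000000400000150400000000 := rS 0x112 (k2 c7774 c4346 k0) (by decide +kernel)
def c15782 : PP 8 4 T 0x10002000000000000000000000000001601004411000000000040000000002000000 := rS 0x82 (k2 c8920 c4306 k0) (by decide +kernel)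
def c15783 : PP 8 4 T 0x2000014001400014004000154000000000000000000000000 := rS 0x118 (k2 c8128 c4450 k0) (by decide +kernel)
def c15784 : PP 8 4 T 0x200000002000000040000000000000000042000001000000400000000051000000018 := rS 0x82 (k2 c8927 c185 k0) (by decide +kernel)
def c15785 : PP 8 4 T 0x40000000000000000000002000000000400000000000000001100000000000402000000000001415000 := rS 0x1a (k2 c9047 c4292 k0) (by decide +kernel)
def c15786 : PP 8 4 T 0x2000000000000800000000000000040000000000000000000500001100500000000000004000014000 := rS 0x84 (k2 c9863 c4397 k0) (by decide +kernel)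
def c15787 : PP 8 4 T 0x2000101000002000000100004400000000000040000000001000001110000000000000 := rS 0x36 (k2 c10069 c4386 k0) (by decide +kernel)
def c15788 : PP 8 4 T 0x140000000000000000800000000044150140000000008002 := rS 0x82 (k2 c9739 c2002 k0) (by decide +kernel)
def c15789 : PP 8 4 T 0x801000000000000000000000400000000054004000154020000000000000000000000 := rS 0x96 (k2 c12356 c1195 k0) (by decide +kernel)
def c15790 : PP 8 4 T 0x2100000000000000000100010400040000000010144044000000000000000000000000 := rS 0xb4 (k2 c11734 c4389 k0) (by decide +kernel)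
def c15791 : PP 8 4 T 0x20001000000000000000000000000000000040000040002001400000154400000000 := rS 0xc6 (k2 c13212 c251 k0) (by decide +kernel)
def c15792 : PP 8 4 T 0x1000040100000000000000000000014000001002001110000000100400 := rS 0x10 (k2 c12434 c10960 k0) (by decide +kernel)
def c15793 : PP 8 4 T 0x1000000000001800000000000000001000640000480054000000000000000000000000000000000000 := rS 0x9a (k2 c12510 c2018 k0) (by decide +kernel)
def c15794 : PP 8 4 T 0x200000001000000000000000004000000054000000144000800000001000004000000 := rS 0xd0 (k2 c14099 c179 k0) (by decide +kernel)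
def c15795 : PP 8 4 T 0x100000000401004404000020000000008008008000024 := rS 0x78 (k2 c14259 c2504 k0) (by decide +kernel)
def c15796 : PP 8 4 T 0x800000000001000000000000000000000044000000114001400000000140000100000 := rS 0x6c (k2 c14307 c4342 k0) (by decide +kernel)
def c15797 : PP 8 4 T 0x1000000084004004001150000000000000000020000000100020000000 := rS 0x2a (k2 c14413 c2228 k0) (by decide +kernel)
def c15798 : PP 8 4 T 0x2000000000000000060004000040000040100000000000000020080000040120000000 := rS 0x90 (k2 c14766 c4352 k0) (by decide +kernel)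
def c15799 : PP 8 4 T 0x22800000000000000000000000014040554100000000000000000000000000000000000 := rS 0x9c (k2 c15426 c4344 k0) (by decide +kernel)
def c15800 : PP 8 4 T 0x800002000000000000000000000500000000000000100400014000000005404001000 := rS 0x32 (k2 c4502 c4340 k0) (by decide +kernel)
def c15801 : PP 8 4 T 0x400000000000000008000000000444000000000000000000041400004150400000000 := rS 0xc6 (k2 c4579 c1519 k0) (by decide +kernel)
def c15802 : PP 8 4 T 0x100000000000000040005000000000000000104000000001404540000000000200 := rS 0x34 (k2 c4559 c1059 k0) (by decide +kernel)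
def c15803 : PP 8 4 T 0x200001000000000000000010000000044000001510000100000005010000000000 := rS 0x62 (k2 c5842 c4407 k0) (by decide +kernel)
def c15804 : PP 8 4 T 0x2001000000000000000000201500000104011000000000000000000001000108 := rS 0xbc (k2 c7054 c1938 k0) (by decide +kernel)
def c15805 : PP 8 4 T 0x80000000000000000000000000000090001200000000000000000000000000140151440000000000000 := rS 0xc4 (k2 c7558 c4429 k0) (by decide +kernel)
def c15806 : PP 8 4 T 0x14000000040000008000001400000155400100000 := rS 0xa2 (k2 c7230 c819 k0) (by decide +kernel)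
def c15807 : PP 8 4 T 0x2000001000000040000000014000000040000015400000000000140000100000 := rS 0x5c (k2 c8715 c4377 k0) (by decide +kernel)
def c15808 : PP 8 4 T 0x200000002000000000000000054000000000000011500000000000044000110000 := rS 0x62 (k2 c9288 c4407 k0) (by decide +kernel)
def c15809 : PP 8 4 T 0x100001000001505000000000000080020000190000080 := rS 0xd2 (k2 c8567 c4373 k0) (by decide +kernel)
def c15810 : PP 8 4 T 0x400000000000000000000000000004008140100000000011104414000000000000000000000000000 := rS 0x78 (k2 c8129 c2056 k0) (by decide +kernel)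
def c15811 : PP 8 4 T 0x40000440100000000001505004000000000010040000000000080 := rS 0x76 (k2 c9037 c1023 k0) (by decide +kernel)
def c15812 : PP 8 4 T 0x80000000000010000000000000000000000000004000000014000001054000000148000000000000002 := rS 0xac (k2 c8543 c4458 k0) (by decide +kernel)
def c15813 : PP 8 4 T 0x801000000000000000015000014000054000005000100000000000000000000000000 := rS 0x9c (k2 c9627 c4344 k0) (by decide +kernel)
def c15814 : PP 8 4 T 0x440100200000401105404001020000000000000000000000 := rS 0x10c (k2 c9959 c4385 k0) (by decide +kernel)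
def c15815 : PP 8 4 T 0x1000000000015000000054500000000000000000000000140800000008 := rS 0x90 (k2 c9836 c2766 k0) (by decide +kernel)
def c15816 : PP 8 4 T 0x20410002000000000000000100001100000000404410100000000000000000000000002 := rS 0xb0 (k2 c10776 c4304 k0) (by decide +kernel)
def c15817 : PP 8 4 T 0x1000000000000400002000000000000000000000544000000050000054400000000000000000000000 := rS 0x5c (k2 c11058 c4377 k0) (by decide +kernel)
def c15818 : PP 8 4 T 0x1000000000010000000000000010001080000000500055400000002000000 := rS 0x7a (k2 c12920 c1230 k0) (by decide +kernel)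
def c15819 : PP 8 4 T 0x10000000000000000000000000054000000014004400454020000000000000000000000 := rS 0x78 (k2 c13198 c540 k0) (by decide +kernel)
def c15820 : PP 8 4 T 0x400000000000000000000000014800000000000001552000012000000000000008000 := rS 0xcc (k2 c13097 c2066 k0) (by decide +kernel)
def c15821 : PP 8 4 T 0x4001000014004000454080000088000000000000400 := rS 0x96 (k2 c13129 c928 k0) (by decide +kernel)
def c15822 : PP 8 4 T 0x1000000000000000020000811001000055500000000000000020000000000000000000 := rS 0x4e (k2 c13068 c177 k0) (by decide +kernel)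
def c15823 : PP 8 4 T 0x2000000001002000000100000000000000000110004000000000141000000002004200 := rS 0xb0 (k2 c13885 c1146 k0) (by decide +kernel)
def c15824 : PP 8 4 T 0x1000000000000000004000000014000000554000000000005000004200000 := rS 0xd0 (k2 c14154 c454 k0) (by decide +kernel)
def c15825 : PP 8 4 T 0x2000000001000000040000400000000000000000000000000000140000000005415100 := rS 0x7a (k2 c14587 c14312 k0) (by decide +kernel)
def c15826 : PP 8 4 T 0x1000000040000000000000000000000001000000000000001001204415024 := rS 0x60 (k2 c14602 c615 k0) (by decide +kernel)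
def c15827 : PP 8 4 T 0x20002000002000000000000000000000000000000040401001000000044400015000 := rS 0xc8 (k2 c14611 c4305 k0) (by decide +kernel)
def c15828 : PP 8 4 T 0x20500080002050014140180 := rS 0x4 (k2 c14698 c527 k0) (by decide +kernel)
def c15829 : PP 8 4 T 0x10000000000000000004404002045554400000000000000000000000000000000000000 := rS 0xc4 (k2 c4854 c1788 k0) (by decide +kernel)
def c15830 : PP 8 4 T 0x100000000000000000005400054045500000104000000000000000000000000000 := rS 0x57 (k2 c7050 c15503 k0) (by decide +kernel)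
def c15831 : PP 8 4 T 0x400000000000000010000000000000000014000000110001500000000000004540020 := rS 0x6c (k2 c7856 c694 k0) (by decide +kernel)
def c15832 : PP 8 4 T 0x40000000000000000100000000000000000540900000000004545004000000000000000000000000000 := rS 0x8a (k2 c7834 c722 k0) (by decide +kernel)
def c15833 : PP 8 4 T 0x2000000001000000000000400000000000001504414000060000000000000000000408 := rS 0xb0 (k2 c8882 c4350 k0) (by decide +kernel)
def c15834 : PP 8 4 T 0x1000000000000140000000044000000000000000400001400000154400000008 := rS 0x60 (k2 c8998 c878 k0) (by decide +kernel)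
def c15835 : PP 8 4 T 0x40000000000022000002000000000000400000400000000000051554000000000000000000000000000 := rS 0xb0 (k2 c8253 c4304 k0) (by decide +kernel)
def c15836 : PP 8 4 T 0x10000000000000000800000045400000000000000000000540000004550000000000 := rS 0xac (k2 c8762 c2026 k0) (by decide +kernel)
def c15837 : PP 8 4 T 0x2110200000002000040100000100000050000000144000000000000000000200000000 := rS 0x70 (k2 c9358 c4387 k0) (by decide +kernel)
def c15838 : PP 8 4 T 0x2000000000005000040040000000000080000000000150002180010400 := rS 0x110 (k2 c10779 c4334 k0) (by decide +kernel)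
def c15839 : PP 8 4 T 0x2000000000000000000100014420040000010010154040000000000000000000000000 := rS 0xb0 (k2 c10961 c4350 k0) (by decide +kernel)
def c15840 : PP 8 4 T 0x40000000000000100000000000000000400804001014055500000000000000000000000000000000000 := rS 0xb4 (k2 c10725 c7420 k0) (by decide +kernel)
def c15841 : PP 8 4 T 0x1000000000000044000000054000001444000000000000540000000002 := rS 0x68 (k2 c13291 c756 k0) (by decide +kernel)
def c15842 : PP 8 4 T 0x2000000000000000040000010400040000000010144044000000000000200000014000 := rS 0xb4 (k2 c11735 c4389 k0) (by decide +kernel)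
def c15843 : PP 8 4 T 0x1000000000011000044055500000000000000001000020004000000000 := rS 0xd2 (k2 c11516 c4373 k0) (by decide +kernel)
def c15844 : PP 8 4 T 0x2000000000000000002014000000000000000000011400001151600000000 := rS 0x26 (k2 c12105 c975 k0) (by decide +kernel)
def c15845 : PP 8 4 T 0x900000000001000000015000000000040000001100000008400000400140000000000 := rS 0x9c (k2 c13369 c4344 k0) (by decide +kernel)
def c15846 : PP 8 4 T 0x40000000000000000100000000000010500800500000000000010154000000000000000000000020000 := rS 0xb6 (k2 c12336 c1247 k0) (by decide +kernel)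
def c15847 : PP 8 4 T 0x2000004400445000000000000000000000000045201110000000000000 := rS 0x36 (k2 c13141 c443 k0) (by decide +kernel)
def c15848 : PP 8 4 T 0x400000000000000000010000454001514000000081040000000000000000000000000 := rS 0x96 (k2 c11990 c1084 k0) (by decide +kernel)
def c15849 : PP 8 4 T 0x2010000000000000040040000000040050100000004008008000000000200000000808 := rS 0xe4 (k2 c12073 c4286 k0) (by decide +kernel)
def c15850 : PP 8 4 T 0x40000000000006010000000000000000009000001181500500000000000000000000000000000000000 := rS 0xc4 (k2 c12543 c196 k0) (by decide +kernel)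
def c15851 : PP 8 4 T 0x6800000000000000000011400000041554100000000000000000000000000000000000 := rS 0x8e (k2 c13683 c4388 k0) (by decide +kernel)
def c15852 : PP 8 4 T 0x2000000100000000040000000010000081490000000000002020011002 := rS 0x10c (k2 c14561 c4381 k0) (by decide +kernel)
def c15853 : PP 8 4 T 0x10000000002000080000000000000000002050000001101000000005441000000000 := rS 0xe (k2 c14649 c4046 k0) (by decide +kernel)
def c15854 : PP 8 4 T 0x1001000000000000000000000000000500010040400141000080014000080 := rS 0x4 (k2 c14796 c527 k0) (by decide +kernel)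
def c15855 : PP 8 4 T 0x400000000000000000040000000444000000800000001100001400004150400000000 := rS 0xa4 (k2 c4582 c1937 k0) (by decide +kernel)
def c15856 : PP 8 4 T 0x40000000000000000000000000000004011140900000000001504414000000000000000000000000000 := rS 0x116 (k2 c5956 c4358 k0) (by decide +kernel)
def c15857 : PP 8 4 T 0x100000000000000000005400014041400000104050108000000000000000000000 := rS 0x8c (k2 c10460 c1067 k0) (by decide +kernel)
def c15858 : PP 8 4 T 0x1000000000000000000810054000001154010000000008140000000000 := rS 0x28 (k2 c13103 c2864 k0) (by decide +kernel)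
def c15859 : PP 8 4 T 0x1000000000000044000000044000001514001400000000140000100000 := rS 0x66 (k2 c13166 c4555 k0) (by decide +kernel)
def c15860 : PP 8 4 T 0x1000000100005100000000000010014000001000205400000000001200 := rS 0xb2 (k2 c13646 c1185 k0) (by decide +kernel)
def c15861 : PP 8 4 T 0x20091040900000000060404404000000000002000000000004000 := rS 0x52 (k2 c14255 c179 k0) (by decide +kernel)
def c15862 : PP 8 4 T 0x1000000000005000014000554000000000000000000140405010000000000 := rS 0x9c (k2 c7662 c15070 k0) (by decide +kernel)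
def c15863 : PP 8 4 T 0x45480000000000000000000544000005550400000000 := rS 0xa4 (k2 c9064 c1470 k0) (by decide +kernel)
def c15864 : PP 8 4 T 0x20001000000001000000004000014000554000000001400001000000000000000100020 := rS 0x9c (k2 c9825 c4368 k0) (by decide +kernel)
def c15865 : PP 8 4 T 0x100001000000000000000400000000000005100000000400155402010000000008 := rS 0x50 (k2 c13217 c1917 k0) (by decide +kernel)
def c15866 : PP 8 4 T 0x100000000000000140011100000000000000000002000000005450010000200820 := rS 0xfc (k2 c11270 c4302 k0) (by decide +kernel)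
def c15867 : PP 8 4 T 0x2000000000000000000200400000000000014000000514000000150012000000200020 := rS 0x66 (k2 c13913 c2611 k0) (by decide +kernel)
def c15868 : PP 8 4 T 0x400000000000000010000000010000108004000000154000100000000100004440020 := rS 0x54 (k2 c14375 c267 k0) (by decide +kernel)
def c15869 : PP 8 4 T 0x40100000000010000400050000045480000002000005180000000 := rS 0x5c (k2 c14875 c840 k0) (by decide +kernel)
def c15870 : PP 8 4 T 0x1000000800000000000000040000001100091410004400004088100020 := rS 0x12 (k2 c7112 c2551 k0) (by decide +kernel)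
def c15871 : PP 8 4 T 0x1001000000000000400000000000000505000000908000000000000105000419 := rS 0x10c (k2 c7146 c4382 k0) (by decide +kernel)
def c15872 : PP 8 4 T 0x40000440100400000001505404000000040000048000400000080 := rS 0xf0 (k2 c9044 c4294 k0) (by decide +kernel)
def c15873 : PP 8 4 T 0x400000000000002000000000000004011140500000000014005154000000000000000000000000000 := rS 0x76 (k2 c8131 c4438 k0) (by decide +kernel)
def c15874 : PP 8 4 T 0x40040000400000000000000000000001001405550000000155000 := rS 0x6e (k2 c10113 c8928 k0) (by decide +kernel)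
def c15875 : PP 8 4 T 0x1001000010000000044000000004000001514001400000000140004100000 := rS 0x66 (k2 c13513 c4555 k0) (by decide +kernel)
def c15876 : PP 8 4 T 0x400000000000000040000440100400000001505404000000000000040400410000080 := rS 0x38 (k2 c9081 c1137 k0) (by decide +kernel)
def c15877 : PP 8 4 T 0x40400411000000000000000000000000045555550000000000000 := rS 0xba (k2 c8983 c9034 k0) (by decide +kernel)
def c15878 : PP 8 4 T 0x2000010000000044000000044000000540001000000005440005500000 := rS 0x2c (k2 c13069 c4286 k0) (by decide +kernel)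
def c15879 : PP 8 4 T 0x1000000000040000000580000000000000000000515000005554400000000 := rS 0x24 (k2 c13232 c1464 k0) (by decide +kernel)
def c15880 : PP 8 4 T 0x1002000000000000000414000000000000000000515400005445400000000 := rS 0x2c (k2 c13318 c4286 k0) (by decide +kernel)
def c15881 : PP 8 4 T 0x1000000040000000001100000000000001400000044000000401005415024 := rS 0x60 (k2 c14422 c614 k0) (by decide +kernel)
def c15882 : PP 8 4 T 0x10000100000002000010000000060000000000005400440020000000005440004400000 := rS 0xaa (k2 c14703 c162 k0) (by decide +kernel)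
def c15883 : PP 8 4 T 0x1000000000000040000140000001501500000001200000000000008005400004008 := rS 0x6a (k2 c15428 c69 k0) (by decide +kernel)
def c15884 : PP 8 4 T 0x12801102000000000000041001000000000010002100000480000404400200000000200 := rS 0x76 (k2 c13878 c98 k0) (by decide +kernel)
def c15885 : PP 8 4 T 0x1000002000044000045000000000005000000000000055201150000008000000 := rS 0xf0 (k2 c14596 c4296 k0) (by decide +kernel)
def c15886 : PP 8 4 T 0x1000040040011100000000000010154000000001005550000000110000 := rS 0xb6 (k2 c11733 c7094 k0) (by decide +kernel)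
def c15887 : PP 8 4 T 0x1000000000000000100000000000001100000004010000045410001555500000000000000000000000 := rS 0x9e (k2 c14524 c6237 k0) (by decide +kernel)
def c15888 : PP 8 4 T 0x2000001000002000000000000444000040004440014040840020080005440208000000 := rS 0xa2 (k2 c14635 c1465 k0) (by decide +kernel)
def c15889 : PP 8 4 T 0x1001000002000004000005554000040014048014000800000080005440200000000 := rS 0x82 (k2 c14636 c642 k0) (by decide +kernel)
def c15890 : PP 8 4 T 0x80020000000000000000000000000000000000000 := rS 0x2352657 (k4 c2782 c102 c1468 c15503 k0) (by decide +kernel)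
def c15891 : PP 8 4 T 0x8000000000000000000002 := rS 0x711808 (k4 c751 c15502 c750 c3049 k0) (by decide +kernel)
def c15892 : PP 8 4 T 0x20000000000000020020000 := rS 0x58a30ae06 (k4 c1025 c63 c15503 c3010 (k1 c608 k0)) (by decide +kernel)
def c15893 : PP 8 4 T 0x20000000000000000000000000002000000 := rS 0xa852 (k2 c2038 c2039 (k1 c9029 k0)) (by decide +kernel)
def c15894 : PP 8 4 T 0x80000000000000008000400 := rS 0x3d15cec08 (k4 c12637 c425 c92 c15544 (k1 c182 k0)) (by decide +kernel)
def c15895 : PP 8 4 T 0x400000000000000000008000000002000000000000000000000000000000000000000 := rS 0x572b13296 (k4 c1213 c188 c8801 c1214 (k1 c193 k0)) (by decide +kernel)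
def c15896 : PP 8 4 T 0x8000000200000020000020 := rS 0x8d0fa40200a048040e03 (k8 c55 c1018 c54 c1058 c4462 c358 c1139 c56 (k2 c1113 c15574 k0)) (by decide +kernel)
def c15897 : PP 8 4 T 0x200000000000000110000080 := rS 0x378791857 (k4 c1017 c15503 c4466 c3099 (k1 c1337 k0)) (by decide +kernel)
def c15898 : PP 8 4 T 0x400000000000000000000800000001000100000000000000000000000000000000000 := rS 0x680c86cf04519a6a32990f95812f1 (k8 c12761 c15502 c15503 c1065 c3071 c4369 c4488 c2784 (k4 c6169 c805 c599 c1959 (k2 c804 c13396 k0))) (by decide +kernel)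
def c15899 : PP 8 4 T 0x20000000000000004000000000020000000008 := rS 0xe01 (k2 c28 c15531 (k1 c7261 k0)) (by decide +kernel)
def c15900 : PP 8 4 T 0x100040000080000800000000000 := rS 0x813d9bd6277031e4b08342c202e0401804626b0c86d3a4578af57f44698d096230fa961a270e13c6e8c2ba684241 (k8 c91 c837 c1952 c804 c15503 c1384 c338 c1953 (k8 c2879 c4383 c3857 c56 c1298 c9597 c1027 c4373 (k8 c6927 c4399 c3916 c4432 c175 c785 c6841 c1870 (k8 c3856 c61 c5782 c8877 c4461 c532 c4465 c4321 (k8 c4452 c4476 c540 c1025 c3796 c3010 c3007 c4320 (k2 c4439 c9035 k0)))))) (by decide +kernel)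
def c15901 : PP 8 4 T 0x1000000050000005001100000000000000500501044004152480085415024 := rS 0x50 (k2 c14940 c1645 k0) (by decide +kernel)
def c15902 : PP 8 4 T 0x110000000000000000440150101145501580404104005001000400000000000145008 := rS 0x66 (k2 c11028 c919 k0) (by decide +kernel)
def c15903 : PP 8 4 T 0x1000000000000800000000100000000000000000000000000000100000 := rS 0x2a028705a061099cc40b4b45ce61f049640256 (k8 c15503 c15891 c63 c15502 c1065 c152 c4358 c1187 (k8 c662 c1188 c921 c799 c4462 c815 c4466 c526 (k2 c11774 c15601 k0))) (by decide +kernel)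
def c15904 : PP 8 4 T 0x1000000000000000400000000100000100000000000040000000000000000 := rS 0x12a56 (k2 c15503 c803 (k1 c15501 k0)) (by decide +kernel)
def c15905 : PP 8 4 T 0x1000000001000000040000400400000081100050000000000000040004080000000000 := rS 0x2302e3444c6ec712ade18553a264626d4d89d625922a74f25b849ad1e0f0200438210f84c762d018fc2a0a03868ac09 (k8 c15502 c15503 c15549 c15469 c4462 c15517 c398 c422 (k8 c15537 c1044 c571 c1065 c798 c4466 c15891 c4461 (k8 c12199 c15582 c559 c4316 c92 c15563 c15557 c439 (k8 c63 c15511 c15628 c6867 c9753 c295 c6171 c15904 (k8 c1687 c4486 c1165 c4381 c290 c12621 c15439 c4479 (k2 c4469 c4488 (k1 c15376 k0))))))) (by decide +kernel)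
def c15906 : PP 8 4 T 0x1000000000001000040000000100010012000000000001001000402100084120144801 := rS 0xa363834481111ae46b0d (k8 c4328 c1036 c1206 c769 c15622 c4467 c569 c331 (k2 c1463 c12223 k0)) (by decide +kernel)
def c15907 : PP 8 4 T 0x1000001000000040000800000000000000005000000000000040100000000004100 := rS 0xef19 (k2 c4369 c15420 (k1 c4482 k0)) (by decide +kernel)
def c15908 : PP 8 4 T 0x1000000001001000040000000000000090100000000000000000040004000000000000 := rS 0x7f489f608471e04d422a1dc5cce553a0b47e8f3089d62595f8e438210f83cf20401804b67b0501cad090d2cc2a09 (k8 c15502 c15517 c15903 c15549 c4316 c15503 c15469 c4462 (k8 c703 c92 c15891 c422 c4461 c15563 c12199 c1065 (k8 c798 c4466 c15896 c15907 c63 c15511 c15628 c15560 (k8 c15582 c398 c15537 c15904 c1687 c592 c4417 c1044 (k8 c11774 c15558 c571 c4471 c7823 c4464 c7516 c15906 (k2 c4313 c15905 k0)))))) (by decide +kernel)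
def c15909 : PP 8 4 T 0x1000000001001000040000000000000011100000000000000000040004000000000000 := rS 0x5ec4d76b7370dc20257e83618a75097d3231368b536454e9e6126b47984721c0f89c429f159fe085523b1c78131f99547104ba4e2e63339d0b60f5881006012c8280e1a599582a09 (k8 c15502 c15517 c15503 c15903 c15549 c15469 c4462 c63 (k8 c15891 c422 c4461 c15511 c12199 c92 c15904 c592 (k8 c1688 c4417 c1657 c15908 c4487 c4337 c7044 c398 (k8 c530 c11468 c15369 c8078 c1687 c4464 c4313 c4411 (k8 c4414 c798 c15628 c1065 c4466 c15896 c15560 c15582 (k8 c559 c4316 c15563 c15557 c439 c6867 c15537 c9753 (k8 c295 c6171 c12467 c4551 c13601 c4486 c528 c15807 (k8 c4381 c4463 c15370 c7962 c1743 c15382 c15439 c12000 (k1 c15425 k0))))))))) (by decide +kernel)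
def c15910 : PP 8 4 T 0x1000000001001000040000000000000010100000000000000000040004000000000000 := rS 0x6b24921111975723586a40fa7f1e410262b32c412e611c89c380f5888408030f964023f0501c35172a825267459854b656 (k8 c15503 c92 c15517 c15903 c15904 c1657 c15502 c1687 (k8 c4417 c15549 c15469 c4462 c398 c15891 c63 c1065 (k8 c422 c4461 c798 c15511 c12199 c4466 c15628 c15896 (k8 c15560 c15908 c4487 c7044 c4411 c530 c4464 c11468 (k8 c4313 c4409 c15909 c4328 c1036 c1205 c809 c769 (k4 c15622 c7307 c7308 c569 (k1 c11938 k0))))))) (by decide +kernel)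
def c15911 : PP 8 4 T 0x5100000001001000040000000000000014100004000000000000000008000008100000 := rS 0xec2496050740ec18c27537134c9a004010f824b256 (k8 c15503 c63 c15502 c1065 c15891 c15629 c423 c1881 (k8 c4340 c2784 c825 c4488 c4450 c15469 c791 c4462 (k4 c4487 c15407 c1043 c571 k0))) (by decide +kernel)
def c15912 : PP 8 4 T 0x1000000000001000040000000000044041100040000055001000002000101400104808 := rS 0x2d6860c2409d8f0c588ac528f1c824ac47 (k8 c8078 c15503 c15502 c2319 c15082 c794 c226 c1147 (k8 c4486 c15369 c4324 c15709 c14295 c4421 c1703 c7778 k0)) (by decide +kernel)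
def c15913 : PP 8 4 T 0x1000000001001000040000000000000010100000000000000000040000000000000000 := rS 0x485b83422c7649746c2686a40ff043e84c8e3c4f8b52e6551c41820f62c61326111a74402934094049b898c8c61f2c9b40217299ec7e0a0386a2e672a825267459854b656 (k8 c15503 c92 c15517 c15903 c15904 c1657 c15502 c1687 (k8 c592 c4417 c15549 c15469 c4462 c398 c703 c414 (k8 c170 c15891 c9753 c63 c1065 c1688 c15910 c4340 (k8 c2784 c15629 c2394 c423 c794 c302 c825 c2811 (k8 c2889 c1881 c4488 c7718 c15494 c4450 c15911 c4337 (k8 c4412 c4336 c4332 c4414 c15253 c8078 c1679 c7516 (k8 c4464 c4313 c15912 c4328 c886 c887 c2790 c7308 (k4 c408 c2267 c1408 c1744 (k2 c2107 c323 k0))))))))) (by decide +kernel)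
def c15914 : PP 8 4 T 0x1000000001001000040000000000000000100000000000000000040000000000000000 := rS 0x243b8298928553a0280e1a59824ac15 (k8 c15517 c15503 c15502 c15903 c15549 c15469 c4462 c15904 (k4 c1687 c15913 c802 c4407 (k2 c3520 c4464 (k1 c571 k0)))) (by decide +kernel)
def c15915 : PP 8 4 T 0x20000000000000000000800000001000100405004001500000000000000000000000 := rS 0x22508 (k2 c7782 c15898 (k1 c15648 k0)) (by decide +kernel)
def c15916 : PP 8 4 T 0x400000001000000040000440100000100000505005100000000000044401000000090 := rS 0x1050a30 (k4 c4469 c10705 c1912 c15811 k0) (by decide +kernel)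
def c15917 : PP 8 4 T 0x1002000040000460040501501500505000108000000000064000000004080 := rS 0x1a2ab18aa6246d029645e6f128096256 (k8 c15503 c1147 c1018 c224 c1020 c8877 c63 c526 (k4 c9753 c15916 c4345 c4441 (k2 c4445 c15231 (k1 c5654 k0)))) (by decide +kernel)
def c15918 : PP 8 4 T 0x1000000001000000040000000800000011100000000000000000040004000000004000 := rS 0x68aa46218559a17e8340ae1f8b5a18d17671240dc46a352a7cbb0c5397d62092394452c78badd3311108b5368f309e4728b57a58c42b02c14ca5933804f61b4e914de2501019c856 (k8 c15503 c15914 c10182 c1018 c224 c1020 c3230 c15070 (k8 c15469 c14312 c15891 c5084 c63 c552 c4312 c526 (k8 c4191 c1188 c1187 c4631 c1768 c3151 c501 c2888 (k8 c2802 c2803 c4286 c926 c4336 c3202 c3174 c4358 (k8 c4289 c4402 c4405 c4404 c15502 c1147 c12467 c13601 (k8 c4486 c4628 c6233 c4385 c13617 c792 c15711 c15709 (k8 c497 c15382 c4470 c4421 c1703 c4480 c4492 c4380 (k8 c4306 c15915 c15917 c1885 c13396 c1879 c826 c261 (k1 c15198 k0))))))))) (by decide +kernel)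
def c15919 : PP 8 4 T 0x1000000040000440100000000000505414000000050000020000004004000 := rS 0x5d08bd (k4 c1040 c2122 c523 c14677 k0) (by decide +kernel)
def c15920 : PP 8 4 T 0x100001000000000000000040000000040000000250000500000004510004000010 := rS 0x2b5a28918861562b (k8 c4191 c1885 c13396 c1879 c15893 c261 c4903 c2112 k0) (by decide +kernel)
def c15921 : PP 8 4 T 0x1000000001000000040000000800000010100000000000000000040004000000004000 := rS 0x28686ce24130ee19682ac631241a053efc3e9c576b5588dc9e342e8997ea386a404a6f3682c2a998888438793da748a691780916620d8140caf4b194b30533804ac29288b4a6e4 (k8 c15914 c4290 c4286 c4405 c4402 c15503 c15891 c5084 (k8 c4312 c63 c552 c1187 c4631 c10182 c526 c15469 (k8 c1188 c1768 c1018 c8877 c15920 c3230 c15070 c14312 (k8 c501 c1017 c926 c4336 c3202 c15517 c662 c9753 (k8 c1020 c224 c15918 c4328 c2805 c1244 c12087 c2787 (k8 c873 c448 c320 c1148 c7883 c1310 c1304 c8975 (k8 c4480 c6237 c4380 c4306 c15916 c4441 c4445 c5654 (k8 c261 c1024 c15919 c380 c381 c4421 c1794 c4489 k0))))))))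 (by decide +kernel)
def c15922 : PP 8 4 T 0x1000000000000000040040000800000000100000000040000000400000150000008008 := rS 0x1253ec92f9f170b15188cdc273fbf4220900c14ca59309892c56 (k8 c15503 c1187 c1188 c2888 c63 c552 c4312 c15891 (k8 c15502 c113 c4376 c1455 c239 c12083 c1328 c14599 (k8 c15617 c1189 c1190 c1377 c634 c1395 c1623 c15834 k0))) (by decide +kernel)
def c15923 : PP 8 4 T 0x1000100000000000010040000000000091500405404050000000420008111000000080 := rS 0x2f89e712432c6e23519353e5d5daf44ea12fac62221010ac0a5940c650b084e070da56 (k8 c15503 c9753 c1017 c952 c15054 c4321 c4368 c7000 (k8 c63 c526 c4191 c1018 c926 c4336 c1147 c12467 (k8 c4551 c872 c1173 c10310 c4628 c6233 c376 c13617 (k8 c792 c15711 c15720 c2110 c497 c453 c2122 c1054 k0)))) (by decide +kernel)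
def c15924 : PP 8 4 T 0x1000000001000000040000000800000010100000000000000000040000000000000000 := rS 0x176b1278dc685d132fc469068a16948184465867741a9d38ad201a4631319094de0f609ec561b22808f21c02a3c42654c8198a6205a5a2f052c9b42a471694452c733b900256 (k8 c15503 c15891 c15914 c5084 c4289 c4402 c4405 c4286 (k8 c4404 c15517 c9753 c63 c4312 c4358 c1187 c662 (k8 c1188 c3267 c10182 c3202 c552 c926 c2802 c526 (k8 c1017 c501 c1018 c3230 c15469 c4191 c14312 c6869 (k8 c15922 c1020 c224 c15921 c4340 c173 c823 c12976 (k8 c2807 c952 c2909 c9103 c11833 c8801 c4368 c15054 (k8 c7000 c4494 c4321 c4426 c15923 c2960 c1245 c12087 (k4 c2787 c873 c320 c449 (k2 c1148 c1310 (k1 c15872 k0)))))))))) (by decide +kernel)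
def c15925 : PP 8 4 T 0x1000000000002000040000000100000000000000200000001000000080000000004800 := rS 0x3e1bc2235 (k4 c87 c319 c1343 c10883 (k1 c1691 k0)) (by decide +kernel)
def c15926 : PP 8 4 T 0x1000000001000000040000000400000000100000000000000000040004000000000000 := rS 0x344605d131bafc729d2289d361c079e56221021ad32030f964b60172424626d2a9d0f60a03868ac09 (k8 c15502 c15503 c15549 c15469 c4462 c703 c15904 c1687 (k8 c9753 c295 c4316 c15914 c15891 c92 c63 c1065 (k8 c422 c6171 c559 c4461 c798 c15511 c15563 c12199 (k8 c4466 c6867 c15628 c439 c15054 c15896 c15907 c15925 (k4 c15439 c4469 c4488 c4479 (k1 c15391 k0)))))) (by decide +kernel)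
def c15927 : PP 8 4 T 0x1001000000000000040000000000001000100000000200000010000148001200004008 := rS 0x13af61834489b51e0911aee309b89a64b256 (k8 c15503 c63 c1881 c4340 c2784 c4488 c4449 c2811 (k8 c15502 c15082 c9753 c887 c4470 c4486 c1040 c4324 (k1 c15883 k0))) (by decide +kernel)
def c15928 : PP 8 4 T 0x1000000001000000040000000400000000100000000000000000040000000000000000 := rS 0x160111b03d32614e934403934094049b191ec145503c24e81a0f824b25b36804ace4 (k8 c15914 c15503 c15891 c9753 c92 c63 c15502 c1065 (k8 c15549 c15904 c4316 c15469 c1687 c4462 c703 c15926 (k8 c2784 c15629 c2394 c423 c2319 c302 c2337 c825 (k4 c2889 c1881 c15494 c15927 (k2 c2267 c15925 (k1 c622 k0)))))) (by decide +kernel)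
def c15929 : PP 8 4 T 0x1000000001000000040000000000000000100000000000000000040000000000000000 := rS 0x4a1d56456 (k4 c15503 c15928 c153 c15924 (k1 c803 k0)) (by decide +kernel)
def c15930 : PP 8 4 T 0x1000000000000040000000000800000000000000001100000000000005000401001 := rS 0x107e088bf0d (k4 c4330 c14382 c4467 c4477 (k2 c8081 c4300 k0)) (by decide +kernel)
def c15931 : PP 8 4 T 0x6800000000000000000010400000001544114004000144000000000000000020000000 := rS 0xc151ab4cb102ca54acab (k8 c4445 c15503 c802 c63 c4487 c7044 c4809 c4337 (k2 c15783 c15851 k0)) (by decide +kernel)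
def c15932 : PP 8 4 T 0x6001000000001000040010400000001504114054000544001000004000104020505020 := rS 0x18e491e284543b4b325f81111890baa689024da011b9852256 (k8 c15503 c4352 c880 c4386 c15891 c9753 c15502 c4479 (k8 c15623 c812 c15930 c58 c279 c4463 c4305 c15931 (k4 c1044 c11774 c898 c4471 (k2 c283 c330 (k1 c12184 k0))))) (by decide +kernel)
def c15933 : PP 8 4 T 0x400000001001000040000000000000040100000000000000000040004000000000000 := rS 0x2384d3ea332c40b2bb47a456ebd5ac5d263f078dc1a711388563144a98caa744e9e408030096e126d3d8280e1a59854ac09 (k8 c15502 c15503 c15517 c15903 c15549 c15469 c4462 c703 (k8 c9753 c4316 c92 c15891 c422 c4461 c15563 c15054 (k8 c15904 c1687 c12253 c802 c15929 c4350 c798 c15628 (k8 c4387 c568 c4386 c304 c398 c1657 c4417 c4389 (k8 c4354 c4353 c4352 c4388 c4390 c63 c4487 c7044 (k4 c4337 c4414 c530 c12297 (k1 c15425 k0))))))) (by decide +kernel)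
def c15934 : PP 8 4 T 0x2000000000000000040000400001001500100000000000000000000000805008000000 := rS 0x4f41088b90d5329402bb47af4c2910bc241a0a039581271 (k8 c4387 c15502 c15503 c15469 c4462 c568 c4316 c170 (k8 c4352 c880 c4354 c4388 c4390 c15891 c1843 c2126 (k4 c4330 c15930 c4467 c813 (k2 c1489 c639 k0)))) (by decide +kernel)
def c15935 : PP 8 4 T 0x400000001001000040000000000000000100000000000000000040004000000000000 := rS 0x32546490888e1a24638f1422a1dc452ca91718522685f8e53ac53c89d629b0e0845a630200c026b4c87c626d0683c6e3f3d8280e870c9f56a7f38a4caa093396cad173a22612170d2ce2815 (k8 c15517 c15929 c15903 c15549 c170 c4316 c678 c15904 (k8 c4417 c15503 c92 c592 c15502 c1687 c1657 c4387 (k8 c594 c4389 c1690 c171 c7313 c15469 c4462 c703 (k8 c398 c4386 c304 c568 c9753 c295 c1065 c6171 (k8 c559 c15891 c422 c4461 c12253 c15537 c798 c4466 (k8 c6867 c4350 c15628 c15563 c1785 c15054 c4348 c15907 (k8 c15932 c4352 c880 c4469 c15583 c15933 c4336 c1044 (k8 c11774 c898 c4471 c330 c15934 c4381 c58 c279 (k4 c283 c1463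 c7497 c12184 k0))))))))) (by decide +kernel)
def c15936 : PP 8 4 T 0x2000000000000000040000400001801500100000000000000000000000005008000000 := rS 0x2e (k2 c4558 c15934 k0) (by decide +kernel)
def c15937 : PP 8 4 T 0x6801000000000000000010400004000554104005000000000000000000000020000000 := rS 0x766046546ad88274da56 (k8 c15503 c9753 c15054 c4487 c4809 c4337 c15799 c15851 (k2 c4482 c1892 k0)) (by decide +kernel)
def c15938 : PP 8 4 T 0x1001000040000000000000000100000000000000000040004000000000000 := rS 0x6392478a1150ed2cc97e0444624532a624ab342fd3ac54a89d361c3c8b4c621021ad32030f805623930a442f09189b5131733a4cb67f3ead50e192a9d0f63f078dc1a0a0386966152b024e314 (k8 c15929 c4387 c15502 c15503 c15517 c15903 c15549 c15469 (k8 c4462 c568 c4386 c304 c398 c703 c15904 c1687 (k8 c171 c7313 c4389 c1690 c594 c92 c1657 c592 (k8 c4417 c678 c9753 c295 c4316 c170 c4352 c880 (k8 c4348 c4350 c15891 c1065 c422 c6171 c559 c4461 (k8 c798 c12253 c15537 c15563 c4466 c6867 c15628 c802 (k8 c1785 c15054 c15907 c15932 c1884 c15935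 c4345 c15623 (k8 c15936 c58 c279 c4463 c4305 c15937 c1044 c11774 (k4 c898 c4471 c283 c330 (k1 c12184 k0)))))))))) (by decide +kernel)
def c15939 : PP 8 4 T 0x1001000040000000000000040100000000000000000040000000000000000 := rS 0x24c7658f08e2d614402e1929c5cfe7d5a8fd8a932da55831889abcc6292a9d022a9132ee12254c9653623069c51ebd078dd226d8a1153a68010c8027b0501c34b30a87c1256 (k8 c15503 c15502 c1065 c15517 c15903 c15549 c15469 c4462 (k8 c703 c15891 c15938 c15629 c423 c825 c2406 c15929 (k8 c9753 c4352 c4386 c304 c4354 c4388 c4387 c568 (k8 c793 c2784 c63 c1881 c2394 c4316 c4390 c15883 (k8 c2815 c15744 c15904 c1687 c2812 c11648 c828 c4340 (k8 c4488 c4450 c12015 c92 c1657 c7718 c398 c4389 (k8 c1690 c594 c4417 c414 c171 c170 c4487 c15714 (k4 c4332 c15647 c15253 c2028 (k2 c408 c15465 (k1 c1679 k0)))))))))) (by decide +kernel)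
def c15940 : PP 8 4 T 0x1001000040000000000000000100000000000000000040000000000000000 := rS 0x8ec72484c78a1160ed2ca35329502c97e04552265fa653a2322880566812874049b898c81a0f3d828fa7f2a99c0f090c9d034b30f824b25b36804ac155da3c6e915e9c56b14 (k8 c15929 c4389 c4387 c4354 c4352 c4386 c4388 c4390 (k8 c15517 c15503 c15891 c9753 c92 c63 c15502 c1065 (k8 c15903 c15549 c15904 c171 c4316 c15469 c592 c1687 (k8 c594 c1690 c4462 c703 c304 c568 c15938 c4340 (k8 c2784 c15629 c791 c2394 c423 c226 c302 c2406 (k8 c793 c825 c1881 c15898 c15883 c2815 c15744 c4463 (k8 c4305 c4380 c15804 c14750 c2944 c15939 c1043 c11774 (k4 c2904 c927 c571 c369 (k2 c409 c8078 (k1 c2107 k0)))))))))) (by decide +kernel)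
def c15941 : PP 8 4 T 0x2400000001000000040000000000001500100005000100000000000004000000014018 := rS 0x6290b8fd4005cd47742c617e30049b402565e9c45e25 (k8 c224 c8877 c4387 c4354 c15503 c15891 c9753 c15502 (k8 c4469 c15898 c4488 c10705 c11833 c229 c1911 c14520 (k4 c15660 c1923 c1922 c4463 (k1 c3275 k0)))) (by decide +kernel)
def c15942 : PP 8 4 T 0x1000000040000000000000000100000000000000000040004000004004000 := rS 0x7e034464b42934684e842f94a31891a54e5f4e9ec4a2f13a2cde1122808f21c02a6d5e654c818c49682ac8b2b1478e52314298b4a22933b900256 (k8 c15503 c15891 c15940 c5084 c4402 c4405 c4286 c4290 (k8 c15929 c4352 c4348 c4388 c4350 c63 c15549 c4312 (k8 c1187 c1188 c10182 c3202 c552 c4631 c2803 c526 (k8 c1017 c501 c1018 c3230 c608 c1020 c1768 c872 (k8 c8877 c224 c14312 c15070 c10439 c4558 c15920 c15941 (k8 c4441 c4444 c15623 c15448 c14539 c6330 c9875 c4321 (k4 c176 c1490 c1487 c8124 (k1 c15800 k0)))))))) (by decide +kernel)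
def c15943 : PP 8 4 T 0x6000000000000000040050400000041504104054000544001000400000004028144000 := rS 0x1924908a86222486a594ca9891b4c29184a241a0a039581271 (k8 c4387 c15502 c15503 c15469 c4462 c568 c678 c4316 (k8 c4352 c880 c9753 c4479 c4345 c15623 c15931 c4330 (k4 c15936 c4336 c898 c279 (k2 c283 c7497 (k1 c2107 k0))))) (by decide +kernel)
def c15944 : PP 8 4 T 0x400000001000000040000000000000000100000000000000000040004000000004000 := rS 0x90c9508452c2454c445c614894d12af149a10ec122944c6954eb14fab53fa4e2e7459a8c1a715f8e4f30913ac5365b0e084aa04019ec14074c8c4da1f049ac3467009598e1323b922815 (k8 c15517 c15929 c15940 c4404 c4401 c4289 c15503 c15891 (k8 c5084 c15942 c559 c15502 c1065 c9753 c295 c6171 (k8 c15469 c4462 c703 c422 c4461 c15536 c798 c4466 (k8 c92 c6867 c4350 c15628 c4316 c15563 c4348 c15907 (k8 c4387 c568 c15452 c10182 c15904 c4417 c1657 c594 (k8 c4389 c1690 c1785 c15054 c15556 c1688 c4405 c439 (k8 c6869 c1692 c15943 c4402 c5815 c678 c4290 c4352 (k8 c880 c4469 c15453 c15583 c15934 c4487 c279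 c898 (k2 c10573 c2107 (k1 c283 k0)))))))))) (by decide +kernel)
def c15945 : PP 8 4 T 0x1000000040000000000000000100000000000000000040004000000004000 := rS 0x92c908a86222486a594ca98921d82954eb148a7d3fa4e2ea35f89d361c3c9d01a553d88408b3052ad3203038c6121a0f824b66d0aac472715a98523142384ca2c733b900256 (k8 c15503 c15891 c15940 c5084 c4289 c4405 c4401 c4404 (k8 c15929 c4352 c880 c4389 c4387 c4348 c4350 c15517 (k8 c9753 c92 c15502 c1065 c15942 c4316 c295 c15469 (k8 c422 c6171 c5962 c4462 c10182 c4461 c798 c703 (k8 c15536 c568 c15904 c15563 c4466 c6867 c15628 c15907 (k8 c15452 c4417 c1657 c594 c1690 c439 c1785 c15054 (k8 c15556 c6869 c1692 c15944 c4345 c15623 c15937 c4330 (k4 c15936 c4336 c898 c279 (k2 c7497 c283 (k1 c2107 k0)))))))))) (by decide +kernel)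
def c15946 : PP 8 4 T 0x2000000000002000000000400000000100000000004000000000140002000400008008 := rS 0x41 (k2 c1912 c15761 k0) (by decide +kernel)
def c15947 : PP 8 4 T 0x1000000040000000000000000100000000000000000040004000000000000 := rS 0x30d0892ac62bf378d4bc2456c34d249578ad46c9329892d0545ac8f62f4c86d2a45011e40a061182cfe0e04965623730a4628531694452c733b900256 (k8 c15503 c15891 c15940 c5084 c4289 c4402 c4405 c4286 (k8 c4290 c15929 c4352 c880 c4386 c4350 c63 c15502 (k8 c15945 c1455 c304 c1328 c4462 c526 c501 c1018 (k8 c3230 c15518 c15469 c2997 c8877 c14312 c15325 c722 (k8 c4312 c1187 c1188 c552 c634 c14599 c4191 c4631 (k8 c243 c15920 c15662 c820 c11620 c225 c1369 c1377 (k4 c6330 c15946 c5962 c4469 (k2 c2112 c15222 (k1 c261 k0))))))))) (by decide +kernel)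
def c15948 : PP 8 4 T 0x1000000040000000000000000100000000000000000040000000004004000 := rS 0x2488d464e2eaf9f8814fc65a2274e20e946f3c87080a110c455e2b12aacf665031881696828090e7734ac80a092c85576918a11ca2296399c031318864da56568c85ae4 (k8 c15940 c4286 c15947 c942 c15503 c9753 c255 c173 (k8 c4340 c15891 c5084 c4289 c4402 c4405 c4404 c15929 (k8 c4352 c4390 c15517 c63 c15502 c430 c15549 c823 (k8 c6033 c13785 c4461 c4312 c1187 c662 c1188 c10182 (k8 c552 c1227 c1612 c224 c4191 c4631 c4336 c926 (k8 c898 c12976 c1017 c501 c1020 c4491 c9103 c952 (k8 c872 c4426 c4368 c11480 c7000 c15158 c15692 c4377 (k4 c1054 c818 c792 c452 (k1 c2110 k0))))))))) (by decide +kernel)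
def c15949 : PP 8 4 T 0x1000000040000000000000000100000000000000000040000000000004000 := rS 0x82d2cc4d04a138908b6192d5f4564b2822ab54a1cca2660b152e994e9348a2034094fa7f499562e23011d01a7b598280e89848683e092c96c02155da3d22bd38ad62847098eca2c70c9b53656568c85ae4 (k8 c15940 c4286 c15947 c942 c15503 c2784 c9753 c255 (k8 c4289 c4405 c4403 c4401 c4404 c15929 c4389 c4387 (k8 c4354 c4352 c4388 c4390 c15517 c15891 c92 c63 (k8 c15502 c1065 c15948 c4316 c678 c15469 c4462 c10182 (k8 c703 c568 c15904 c15629 c793 c4417 c1687 c1657 (k8 c594 c1690 c2394 c423 c302 c2406 c2337 c825 (k8 c1881 c926 c4530 c6869 c15883 c7044 c1692 c2815 (k8 c1885 c15744 c15465 c10573 c4455 c8140 c1860 c2028 (k8 c1752 c2107 c4474 c2127 c452 c802 c4426 c4407 (k1 c4485 k0)))))))))) (by decide +kernel)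
def c15950 : PP 8 4 T 0x1000000040000000000000000100000000000000000040000000000000000 := rS 0x2fd065d2f290490d24a8d022b649962f0561c2232b24e314f61b4a9e438022001842051182cfefd07066263233b1c523b72185223758c503e092c9b40256 (k8 c15503 c15891 c9753 c63 c15502 c1065 c15929 c4350 (k8 c4386 c4352 c880 c15940 c4403 c4402 c4289 c5084 (k8 c15947 c4340 c255 c15949 c4376 c1455 c304 c1328 (k8 c2403 c799 c4462 c12976 c4461 c4466 c501 c15518 (k8 c15469 c3037 c1055 c952 c15325 c4368 c15054 c15895 (k8 c4312 c4358 c552 c634 c15631 c4439 c14599 c243 (k8 c15662 c11620 c435 c225 c1336 c1937 c1403 c15871 k0))))))) (by decide +kernel)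
def c15951 : PP 8 4 T 0x1000000000000000040000400001501101101100400500000000000000000000404004 := rS 0x82ecbe6d479844e0a03ac4b2390e0843e09020053656 (k8 c15503 c804 c15891 c4461 c15502 c1065 c798 c4466 (k8 c15896 c63 c15511 c1018 c4462 c15628 c15560 c15582 (k4 c9753 c12467 c10310 c14495 (k1 c15371 k0)))) (by decide +kernel)
def c15952 : PP 8 4 T 0x40000000000000002000000000000000000000100005000000000 := rS 0x470d (k2 c4328 c769 (k1 c4467 k0)) (by decide +kernel)
def c15953 : PP 8 4 T 0x1000000000001000040000000404001151500000008000000020010120004020200000 := rS 0x3196eb851a4d862b328f53f0c339587e2d (k8 c912 c1179 c15503 c920 c4486 c4384 c327 c551 (k8 c287 c9009 c1070 c11931 c11948 c165 c11342 c15797 k0)) (by decide +kernel)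
def c15954 : PP 8 4 T 0x1000001000000000000000000050100000000000000000000020000000180004 := rS 0x1243d3a16c4e210501c12b12c8100256 (k8 c15503 c15891 c4461 c63 c15511 c15502 c1018 c4462 (k4 c798 c15628 c92 c570 (k2 c1679 c11467 (k1 c1657 k0)))) (by decide +kernel)
def c15955 : PP 8 4 T 0x1002001000001000040000000400001041540000008100000020080021000004020004 := rS 0x14148a2a288b4582b91ec596e9339c1026c7448545a67369042e9913ac4b2550501c721943aae249b4a81002a10e0843e092b27e18b5 (k8 c7883 c4486 c4384 c15503 c15502 c1065 c798 c4466 (k8 c12260 c15891 c4461 c15556 c804 c4567 c4445 c4440 (k8 c268 c15896 c1018 c4462 c12210 c63 c15511 c15628 (k8 c1927 c1951 c91 c9753 c920 c912 c15953 c7030 (k8 c406 c15954 c4464 c4408 c1069 c1077 c13647 c4416 (k8 c4361 c4420 c340 c15731 c2125 c1956 c2109 c4712 (k1 c779 k0))))))) (by decide +kernel)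
def c15956 : PP 8 4 T 0x400000080000000000000008000000000000020200020 := rS 0x330ae2263 (k4 c817 c4336 c15516 c7301 (k1 c655 k0)) (by decide +kernel)
def c15957 : PP 8 4 T 0x1000000000000404001080044000000400009000080001000104400120 := rS 0xa213298a85a670ab4622010ca54381f (k8 c1065 c4466 c15556 c268 c15891 c4336 c14926 c15956 (k4 c654 c390 c11774 c292 (k2 c1639 c1644 (k1 c14934 k0)))) (by decide +kernel)
def c15958 : PP 8 4 T 0x1000000001001000040000000400001000100000000000000000000004001004004004 := rS 0x4c278d0dc71a292c20377eaf9765f48a9cda99479844eb12c8e438771796d028554a952eab8926cd28784065166b2a828621f0b81c420400908ac09 (k8 c15502 c15503 c15950 c15891 c4461 c798 c1018 c1951 (k8 c1065 c14397 c4462 c12210 c6097 c13945 c268 c4465 (k8 c4440 c13396 c804 c4567 c4445 c15957 c4444 c4345 (k8 c4321 c4439 c92 c15900 c1886 c4466 c15896 c63 (k8 c15511 c15628 c15560 c15582 c1927 c9753 c4558 c15952 (k8 c12467 c10310 c15951 c15627 c15130 c14495 c1954 c4399 (k4 c1513 c4480 c4470 c338 (k2 c4474 c15955 k0))))))))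 (by decide +kernel)
def c15959 : PP 8 4 T 0x1000000001000000040000000000001000100000000000000000000004002004004004 := rS 0x288bf5d9397a834812c1a4d0888e1b19479844e0a58964721c179a4b6818406462210f82408010b81cac42 (k8 c15950 c15503 c1018 c1951 c15891 c4461 c15502 c1065 (k8 c798 c14397 c268 c4465 c4439 c92 c13396 c15900 (k8 c4466 c15896 c63 c15511 c4462 c15628 c15560 c15582 (k8 c4446 c4381 c58 c279 c284 c1368 c1374 c4486 (k4 c4570 c2014 c14506 c4735 (k2 c1244 c4493 (k1 c4396 k0))))))) (by decide +kernel)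
def c15960 : PP 8 4 T 0x1000000001001000040000000000001000100000000000000000000004000004004004 := rS 0x5164250501c1256 (k8 c15503 c15502 c1018 c4462 c15959 c15958 c662 c15074 k0) (by decide +kernel)
def c15961 : PP 8 4 T 0x1000000000000000000001400000000000000000000080002000000000008 := rS 0x848319 (k4 c4446 c91 c11577 c5755 k0) (by decide +kernel)
def c15962 : PP 8 4 T 0x444001104100000800140000000000000000000200008 := rS 0xc588ab4ca95310b20a1f048153656 (k8 c15503 c804 c55 c15502 c1065 c4308 c382 c383 (k4 c15078 c550 c6230 c4332 (k2 c9760 c6342 k0))) (by decide +kernel)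
def c15963 : PP 8 4 T 0x1000040100000044040050002010000040440020000005114402105808 := rS 0x4729950ca25308acba11 (k8 c342 c12418 c2244 c879 c224 c11930 c12512 c9029 (k2 c1602 c14683 k0)) (by decide +kernel)
def c15964 : PP 8 4 T 0x1000000000001800000000001000041100240000001551102010000000000020000005004002105808 := rS 0x182c55cc587b111628cb65f2ca9c5e2557aad2605158a4ce8f11880acbf3b1bc2209 (k8 c15502 c342 c10992 c309 c1093 c15503 c302 c2775 (k8 c12014 c2926 c2776 c2244 c55 c12021 c4445 c4346 (k8 c224 c8877 c4558 c63 c12467 c92 c15793 c15963 (k4 c4332 c329 c4487 c6781 (k2 c12747 c4420 (k1 c15434 k0)))))) (by decide +kernel)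
def c15965 : PP 8 4 T 0x1000000000000000000020000000000000008000000000000200000008 := rS 0x2a964b629 (k4 c2776 c92 c63 c7046 (k1 c12015 k0)) (by decide +kernel)
def c15966 : PP 8 4 T 0x1000000001001000040000000400001001100000000100000000000004004004004800 := rS 0x3f31c92552384c782c1da592a153eb25f80d668d86abc5f930ed45422ec9e1840c24965d8623cce2341875262b1005c0e6d20814c2b12fa9c4a6f08825326b2caa55ea555c48629b2b1085e02 (k8 c15960 c8877 c15950 c15503 c804 c15961 c4469 c4445 (k8 c4444 c4346 c4345 c63 c7466 c1926 c15502 c342 (k8 c10992 c224 c4558 c12467 c1147 c879 c55 c91 (k8 c9753 c83 c573 c302 c2244 c12021 c791 c4570 (k8 c2775 c2926 c12014 c4467 c12418 c15602 c15648 c12056 (k8 c4465 c4501 c10310 c2119 c15786 c309 c2111 c1093 (k8 c14750 c1039 c2015 c3981 c569 c10457 c4305 c4379 (k8 c15962 c15965 c15964 c1043 c926 c927 c571 c1412 (k4 c247 c368 c2286 c2107 (k1 c7517 k0)))))))))) (by decide +kernel)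
def c15967 : PP 8 4 T 0x1822000000000000000000000100400000000000004101500000000000000000000080 := rS 0x38bf50485 (k4 c4321 c15648 c15627 c2448 (k1 c4480 k0)) (by decide +kernel)
def c15968 : PP 8 4 T 0x1000000001001000040000000400001001100000000100000000000004004004004000 := rS 0x1c5fa82429e2125d8623c38770308416a9891ac629b0fc64847b30ac4be592b29c5e25378440409 (k8 c15502 c15960 c342 c10992 c224 c8877 c4558 c15503 (k8 c63 c12467 c1147 c879 c1226 c15950 c4446 c1065 (k8 c804 c15961 c7466 c4469 c4345 c15966 c799 c4462 (k8 c1887 c4466 c15582 c4486 c4628 c15967 c4482 c2453 (k4 c15756 c15627 c2448 c4480 k0))))) (by decide +kernel)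
def c15969 : PP 8 4 T 0x444001514010000800040000000000000000000200008 := rS 0x62c455a65310b20a05 (k8 c55 c4308 c382 c383 c550 c4903 c4332 c9760 (k1 c6342 k0)) (by decide +kernel)
def c15970 : PP 8 4 T 0x1001000040000000000040050000000000240040000000004114404105808 := rS 0x8b2894e0a5432894c21757c486205178ada218 (k8 c13396 c2254 c2244 c8877 c55 c1879 c4469 c4346 (k8 c7300 c879 c224 c11930 c12512 c4406 c9029 c1605 (k2 c1766 c15920 k0))) (by decide +kernel)
def c15971 : PP 8 4 T 0x1000000001001000040000000000001041100000000200000000000004004004104000 := rS 0x3058ab98b0f6222c5196d5eab8924c562933a557639a29319a0d1aaf1024b862c532a7178951e231004536bf5493c2e31028094a5f2c90414763c86013098c9ecac42 (k8 c15950 c15503 c1226 c4446 c4437 c15502 c13396 c1959 (k8 c4482 c1887 c91 c63 c12467 c1883 c15960 c55 (k8 c1879 c7300 c4501 c14588 c12619 c805 c342 c302 (k8 c2775 c12014 c224 c8877 c4558 c3787 c1147 c4467 (k8 c15602 c12056 c14750 c1039 c569 c3981 c2111 c4451 (k8 c2319 c15778 c15965 c2926 c2776 c2244 c12021 c4469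 (k8 c4445 c4346 c92 c15793 c15970 c4332 c329 c4487 (k4 c6781 c12747 c4420 c15434 k0)))))))) (by decide +kernel)
def c15972 : PP 8 4 T 0x1000000001001000040000000400001001100000000000000000000004004004004000 := rS 0x7e63924aa47098f0583b4b054fac97e0346c355e131024b8623d2a6711875262b1001c14ab57afcec9b54c48f28927a9462184c85e126837a9c220920c64847b028bc4a025897cb256 (k8 c15503 c63 c12467 c1147 c15960 c224 c8877 c55 (k8 c1226 c15950 c4446 c91 c15502 c342 c4558 c10992 (k8 c15968 c4437 c7300 c3787 c13396 c1879 c1883 c4501 (k8 c15893 c1959 c4469 c14588 c805 c4482 c12619 c4346 (k8 c4445 c1887 c1023 c302 c2244 c12021 c791 c2775 (k8 c2926 c15965 c12014 c4467 c15602 c12056 c2111 c14750 (k8 c1039 c2015 c569 c10457 c4305 c4379 c15969 c15971 (k8 c1043 c926 c927 c571 c1412 c247 c368 c2286 (k2 c2107 c7517 k0))))))))) (by decide +kernel)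
def c15973 : PP 8 4 T 0x1000000001001000040000000400001001100000000000000000000004000004004000 := rS 0x47c344c56 (k4 c15503 c15972 c4324 c2778 (k1 c4486 k0)) (by decide +kernel)
def c15974 : PP 8 4 T 0x1000040000600444001514000000000140000020000100000000200008 := rS 0x31996b6624455a65248b20a05 (k8 c55 c4308 c382 c2328 c550 c6230 c4332 c6342 (k4 c1175 c1757 c9550 c413 k0)) (by decide +kernel)
def c15975 : PP 8 4 T 0x1001000010000000044000000044000001550001000000001150004500000 := rS 0x44948c710 (k4 c4468 c11648 c15875 c7030 (k1 c15794 k0)) (by decide +kernel)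
def c15976 : PP 8 4 T 0x1001000010000000000000050044010000540008020000005550404500800 := rS 0x8e532a1955a5b36abd5712 (k8 c4469 c4445 c4346 c9753 c92 c4554 c11930 c15975 (k2 c9029 c1602 (k1 c7129 k0))) (by decide +kernel)
def c15977 : PP 8 4 T 0x1001000000100400400000054444015400500008020080085440605114800 := rS 0x196c6289cc8ec13fc116a7509c58aa3d888b0b617208a4ce0d03b459abc (k8 c325 c3981 c2278 c83 c1408 c2926 c2776 c91 (k8 c573 c92 c15976 c4332 c329 c247 c4487 c7061 (k8 c11025 c7420 c7079 c7517 c4420 c1411 c4408 c1956 (k2 c7101 c15755 (k1 c413 k0))))) (by decide +kernel)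
def c15978 : PP 8 4 T 0x1002000001001000040000000400001000100000000100000000000004000004004800 := rS 0x98f1422c1dc452c153caf177452621cee1945a14b67b4788c9ebf4c9acb2af55c48629b178e526051599d2a560692d06172090992813ebf06a1d038446c2037a40c202 (k8 c15960 c879 c15973 c1076 c302 c887 c2267 c83 (k8 c791 c1035 c10457 c4379 c4380 c4305 c15950 c91 (k8 c573 c4570 c1955 c1408 c15503 c15965 c2926 c2244 (k8 c55 c12021 c2319 c8877 c804 c15961 c4469 c4445 (k8 c4346 c63 c7466 c1926 c1244 c339 c2766 c130 (k8 c1226 c92 c4321 c4322 c4436 c4438 c4440 c2108 (k8 c4451 c1975 c325 c11641 c15974 c15977 c4336 c1043 (k4 c926 c2904 c927 c571 (k1 c15098 k0))))))))) (by decide +kernel)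
def c15979 : PP 8 4 T 0x1000000000200000000000008000000000001020080000000000100800 := rS 0x2d074ca60048a105 (k8 c4410 c9141 c4464 c1956 c1996 c571 c2021 c3527 k0) (by decide +kernel)
def c15980 : PP 8 4 T 0x1001000050140010044001110100010800510001020000180150004114800 := rS 0x4c78c262adc925260a1cc67f3690936560681e20bc (k8 c325 c4468 c83 c1408 c15503 c804 c15950 c9753 (k8 c7517 c11648 c15979 c1892 c15875 c2275 c9550 c1175 (k4 c15686 c2055 c1679 c11938 k0))) (by decide +kernel)
def c15981 : PP 8 4 T 0x1001000050140010054001010100010800110000020000185150404114800 := rS 0x2394ca89935908b256 (k8 c15503 c63 c15950 c7466 c1926 c15980 c9029 c1602 (k1 c7129 k0)) (by decide +kernel)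
def c15982 : PP 8 4 T 0x4540010045544400000050000000001001080080010000155000 := rS 0x186a15a0f48d19 (k4 c4446 c2107 c11938 c1411 (k2 c1584 c2055 (k1 c15829 k0))) (by decide +kernel)
def c15983 : PP 8 4 T 0x1001000014540010045540400004011801550001010080081150004114800 := rS 0x61b162e3a3a048934b2922983190b9053f103f8340e63 (k8 c11648 c83 c1408 c7517 c4468 c4414 c91 c573 (k8 c4446 c1892 c15975 c15875 c4427 c372 c15982 c570 (k4 c571 c4417 c1785 c1047 (k1 c4494 k0)))) (by decide +kernel)
def c15984 : PP 8 4 T 0x1000000001001000014540050055540400000111801550001010080081150004114800 := rS 0x5ad0c74c050048a0cd82a193f10 (k8 c4468 c4414 c15983 c4410 c1908 c9141 c4464 c2128 (k4 c1956 c571 c4423 c3526 (k1 c12809 k0))) (by decide +kernel)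
def c15985 : PP 8 4 T 0x1000000001001000050000040000001042100001800100000000000004100004104800 := rS 0x512995196cfa229c9a6556b1cb66d5488c4c2527afcd65957a95571218a6c5e17208e4562933a54aca32590992813ebf06a1d038446c203798404b9 (k8 c1205 c15960 c879 c1076 c302 c887 c2267 c83 (k8 c791 c1035 c10457 c4379 c4380 c4305 c15950 c1955 (k8 c2942 c15503 c15965 c2926 c2776 c2244 c2319 c91 (k8 c573 c8877 c804 c15961 c4469 c4445 c4444 c4346 (k8 c63 c7466 c1244 c339 c224 c12087 c2766 c978 (k8 c9753 c92 c408 c4554 c11930 c15981 c14691 c4474 (k4 c4400 c4455 c15984 c9029 (k2 c1605 c2112 k0)))))))) (by decide +kernel)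
def c15986 : PP 8 4 T 0x1000000001001000040000040000001042100000000100000000000004000006104800 := rS 0xa626a8196c65611cfec55a84e2c492a8f6222c478984b1218a6c842f4981456674a959460d649f5f8350e81c2236101bcc2023c824ecd1 (k8 c2254 c309 c15502 c1959 c15960 c879 c1076 c302 (k8 c887 c2267 c83 c791 c1035 c10457 c4379 c4305 (k8 c1408 c2942 c15503 c15965 c2926 c2244 c55 c12021 (k8 c8877 c15950 c804 c15961 c4469 c224 c12087 c130 (k8 c15985 c4332 c329 c247 c2274 c4487 c7061 c7420 (k8 c12747 c7517 c1411 c15633 c2107 c2027 c409 c413 (k2 c900 c14691 k0))))))) (by decide +kernel)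
def c15987 : PP 8 4 T 0x1000000001001000040000000400001000100000000100000000000004000004004800 := rS 0x4c78a1160ee22960aaecec790c42502fc088d46c670ea4c56200b81c125b209ec0a6f4818532af55c48629b2b1085e02 (k8 c15960 c8877 c15950 c15503 c804 c15961 c4469 c4445 (k8 c4346 c1926 c879 c15973 c1076 c55 c1226 c91 (k8 c92 c15502 c83 c573 c302 c2244 c12021 c791 (k8 c2926 c887 c1035 c2267 c10457 c4380 c15978 c4465 (k8 c1959 c309 c11057 c15962 c15986 c4336 c1043 c926 (k4 c2904 c927 c571 c15098 k0)))))) (by decide +kernel)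
def c15988 : PP 8 4 T 0x100010500040054000010014000040000000020080000000008 := rS 0xe67f3a8ecc911 (k4 c4411 c227 c1640 c11025 (k2 c555 c1648 (k1 c9361 k0))) (by decide +kernel)
def c15989 : PP 8 4 T 0x1000000000000000000000010500000010000000054000000000000020020000000088 := rS 0x1d07a12 (k4 c795 c1680 c15734 c499 k0) (by decide +kernel)
def c15990 : PP 8 4 T 0x1002000000001000000040010554000000000000014540009000000020100000100088 := rS 0x2d8eb054418c527f329ccda0102a54fab564bf11687 (k8 c4440 c4322 c4480 c4305 c7883 c8975 c15518 c55 (k8 c15891 c9753 c1022 c9676 c12366 c15989 c11648 c2120 (k4 c4314 c2451 c5124 c8692 k0))) (by decide +kernel)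
def c15991 : PP 8 4 T 0x1002000000001000000000000444000042000000004500008000080005008140100088 := rS 0x1a2511e8a4a654568ad8eb91696c020517a552667519f56a3464bf0e237589743887 (k8 c4440 c4466 c2787 c1148 c320 c497 c4480 c4305 (k8 c873 c7883 c8975 c2939 c2924 c2996 c15518 c8877 (k8 c55 c15891 c92 c912 c1205 c408 c15988 c4554 (k4 c15990 c9029 c1599 c15659 (k2 c1604 c340 (k1 c2112 k0)))))) (by decide +kernel)
def c15992 : PP 8 4 T 0x2000001000000000000400000082100000010000000000000020000020000088 := rS 0x5c0e8ea2c15adc52738bc4412012b014ceb5 (k8 c7883 c2924 c55 c15503 c15891 c15502 c4336 c4360 (k8 c3001 c2769 c3021 c15601 c11774 c15600 c913 c8860 (k1 c3032 k0))) (by decide +kernel)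
def c15993 : PP 8 4 T 0x1800000000001000000000010500000000040000014540009000000020140000900088 := rS 0x7509220a463149950e73368040aaf55a555a2f (k8 c8877 c4554 c15518 c4445 c4346 c55 c15891 c9753 (k8 c1022 c1837 c9676 c15989 c11648 c15796 c2120 c2031 (k2 c2451 c15734 k0))) (by decide +kernel)
def c15994 : PP 8 4 T 0x1000000001001000040000000400001000100000000100000000000004000004004000 := rS 0x3b8bb00a0d11e8a4a654458595a7815c25722d4bb24fafc5aac4e2a31a174ce934a8dc387703054420b55abe246b18a6c3e092c96c0319211ec0a2f1f958de61132404a02 (k8 c15960 c224 c15973 c12087 c879 c1076 c15503 c12102 (k8 c8877 c55 c1226 c15950 c4446 c15891 c92 c63 (k8 c15502 c1065 c804 c15961 c7466 c4469 c4346 c4445 (k8 c15987 c799 c7508 c4462 c1887 c4466 c320 c15518 (k8 c2996 c2924 c2787 c873 c2939 c497 c1148 c7883 (k8 c4480 c8975 c4305 c15992 c912 c1205 c15991 c15988 (k8 c4482 c4554 c500 c2454 c15993 c9029 c1599 c15659 (k4 c340 c2112 c1956 c4420 (k2 c3541 c4471 k0))))))))) (by decide +kernel)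
def c15995 : PP 8 4 T 0x1000040140010044001510000010800000001020080185550002114000 := rS 0x4c78c262adc9252609450ebc688281a0720ab6207f (k8 c12366 c4468 c4554 c91 c1023 c1408 c1887 c2254 (k8 c325 c15979 c1876 c1892 c2112 c2275 c9550 c1175 (k4 c15686 c2055 c1679 c11938 k0))) (by decide +kernel)
def c15996 : PP 8 4 T 0x4540010055544400004051800000001010080085550002114000 := rS 0xc362c5c74740912696526094632d1050340e41 (k8 c91 c1023 c1408 c1887 c2254 c4446 c1876 c1892 (k8 c2112 c4456 c372 c15982 c570 c571 c4417 c1785 (k2 c1047 c4494 k0))) (by decide +kernel)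
def c15997 : PP 8 4 T 0x1000000001001000040140050001041510000111800000001044080185551002114000 := rS 0x5ad0c74c050048a0cd82a1996cfa229c9a7f57a955712052b53f10 (k8 c4468 c4414 c4554 c1887 c4469 c4445 c4444 c4346 (k8 c12366 c15995 c14691 c4474 c4400 c4455 c15996 c4410 (k8 c1908 c9141 c4464 c2128 c1956 c571 c4423 c3526 (k1 c12809 k0)))) (by decide +kernel)
def c15998 : PP 8 4 T 0x1000000001001000040000000400001040100000000000000000000004100004004000 := rS 0x8b2894e0a5432b1cb6a9130949ebf0b8e5a229518552a67498ad56af890c40a2f4da25324b649f576817e0d43a07208446c20051da324237984047b2b1e43009849a17290 (k8 c15973 c1205 c15994 c4437 c15502 c13396 c1959 c15503 (k8 c1226 c15960 c879 c1076 c15950 c4446 c4482 c1887 (k8 c302 c887 c2267 c91 c1023 c791 c1035 c10457 (k8 c4380 c11057 c4379 c4305 c1955 c3787 c15893 c805 (k8 c8877 c55 c1879 c4469 c4346 c4445 c2244 c12021 (k8 c2926 c15965 c15969 c2942 c2776 c2254 c2319 c7300 (k8 c1244 c339 c224 c12087 c978 c92 c408 c11930 (k4 c15997 c4406 c9029 c1605 (k2 c1766 c15920 k0)))))))))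 (by decide +kernel)
def c15999 : PP 8 4 T 0x1000000001001000040000000400001040100000000000000000000004000004004000 := rS 0xa7501358ccb23ab1827f62ad4ea1361c5892551ec44585b478984aa30aa54ce9315aad5f12188145e9b44a641ac93ebf06a1d03904223610028ec790c02612688c9ecac4237a40c202 (k8 c15960 c879 c15973 c1076 c15950 c15503 c1226 c4446 (k8 c15994 c4437 c15502 c13396 c1959 c4482 c1887 c302 (k8 c887 c2267 c91 c1023 c791 c1035 c10457 c4379 (k8 c4305 c1408 c3787 c15893 c805 c8877 c55 c1879 (k8 c4469 c4346 c4445 c2244 c12021 c2926 c15965 c15969 (k8 c2942 c224 c12087 c130 c92 c15998 c4332 c329 (k8 c247 c2274 c4487 c4958 c7061 c11025 c7420 c12747 (k8 c7517 c4420 c15751 c1411 c2027 c2107 c413 c409 (k2 c14691 c900 k0))))))))) (by decide +kernel)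
def c16000 : PP 8 4 T 0x1000000001001000040000000400001000100000000000000000000004000004004000 := rS 0x98f1422c1dc452c154a99c3a93158800e0a55abcec9b891e512310c266126848024b6418c908f656028bcc202 (k8 c15960 c879 c8877 c55 c15503 c1226 c15950 c4446 (k8 c91 c92 c15502 c15973 c15994 c4437 c3787 c13396 (k8 c1879 c15893 c1959 c4469 c805 c4482 c4346 c4445 (k8 c1887 c1023 c302 c2244 c12021 c791 c2926 c15965 (k8 c15969 c15999 c4336 c1043 c926 c2904 c927 c571 (k1 c15098 k0)))))) (by decide +kernel)
def c16001 : PP 8 4 T 0x1000000000000800000000100000000000000000000000000000000000 := rS 0x541256 (k4 c15503 c15502 c15074 c15903 k0) (by decide +kernel)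
def c16002 : PP 8 4 T 0x100000001000040000000000044055500000100000000001000020004000004000 := rS 0x40fc6e5c02566b5 (k8 c7883 c16001 c15502 c15843 c4548 c5280 c10992 c671 k0) (by decide +kernel)
def c16003 : PP 8 4 T 0x1000000000001000000000000100000000000000000000000002005100000000200000 := rS 0x6e5c9f820c7 (k4 c147 c366 c367 c11342 (k2 c7962 c1459 k0)) (by decide +kernel)
def c16004 : PP 8 4 T 0x1000100000001000040000000000042051501100100050000001080102004005004020 := rS 0x4193422361a93c96254f835770c5e97c2e01589652656 (k8 c15503 c1070 c63 c15511 c15891 c1911 c12467 c1173 (k8 c4486 c10310 c528 c6233 c4381 c1954 c298 c16002 (k4 c4470 c319 c325 c4570 (k1 c2108 k0)))) (by decide +kernel)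
def c16005 : PP 8 4 T 0x1000000000000000040000000000002002101100000000000000080100004004404820 := rS 0x13c9abf5392c6c0d418d446118682626193b9b4c256 (k8 c15503 c15560 c9753 c1092 c309 c4344 c15502 c4328 (k8 c15574 c15604 c1036 c4570 c529 c4470 c1955 c15520 (k4 c1245 c9728 c339 c2108 k0))) (by decide +kernel)
def c16006 : PP 8 4 T 0x1000000000001000040000000000002001101100000000000000080002004025204020 := rS 0x124eaa31f99c5a934b8acca3d82a3d62591ca54acb3 (k8 c16001 c15503 c15556 c15896 c63 c15511 c15582 c4308 (k8 c327 c7134 c15516 c15956 c1070 c391 c655 c1179 (k4 c11931 c591 c16003 c16004 k0))) (by decide +kernel)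
def c16007 : PP 8 4 T 0x1000000000001000040004000000000041144000000000000000000002040105104800 := rS 0x14ca23b1e45d56b8882d56ec7371f4e610823f4266551b45265b588e52ab350834be594fc311e1c0f824ce2d1fa242e550200c0256 (k8 c15503 c15891 c302 c4461 c12210 c1911 c7030 c398 (k8 c390 c654 c15502 c1065 c4466 c15582 c4486 c4384 (k8 c63 c12467 c528 c12260 c16001 c15556 c15896 c15511 (k8 c92 c1030 c300 c11931 c11930 c530 c15674 c4464 (k8 c4463 c4408 c4409 c7962 c406 c1077 c1347 c15438 (k8 c2125 c4415 c4361 c11342 c1046 c1916 c333 c7682 k0)))))) (by decide +kernel)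
def c16008 : PP 8 4 T 0x1000000000001000040000000000002041144000000000000000080002000104104800 := rS 0x3407a532884e222a568bc8ac389864ee6d4aacc381f04a242e550200c0256 (k8 c15503 c15891 c302 c4461 c12210 c1911 c7030 c15502 (k8 c1065 c4466 c16001 c15556 c9753 c1092 c309 c4344 (k8 c15895 c175 c785 c946 c16007 c4411 c1639 c1645 (k4 c293 c11368 c2109 c340 k0)))) (by decide +kernel)
def c16009 : PP 8 4 T 0x1000000001001000040000000000002000100000000000000000000002000104004800 := rS 0x148785109b44762a14c5d5e96448fc5a670aa444e8742a04aa3958c2116040c80cb22f22908ee6d61c4c381f0485c0256 (k8 c15503 c15891 c1911 c15502 c1065 c4466 c4344 c15895 (k8 c9753 c1092 c15950 c175 c785 c63 c302 c309 (k8 c4461 c13509 c4465 c15511 c15896 c12210 c4439 c4321 (k8 c4440 c15628 c16005 c16006 c654 c390 c398 c7030 (k8 c16008 c4631 c4360 c777 c11774 c1044 c301 c531 (k4 c1645 c4471 c2109 c333 k0)))))) (by decide +kernel)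
def c16010 : PP 8 4 T 0x1000000001001000040000000000000000100000000000000000000004000004004000 := rS 0x18348080a0605870607717886269c0f824b26d2b11484b3 (k8 c16001 c15950 c175 c15503 c9753 c63 c15502 c1065 (k8 c16000 c4344 c966 c785 c1092 c4469 c4466 c16009 (k4 c4462 c526 c1018 c1879 (k2 c228 c15630 k0)))) (by decide +kernel)
def c16011 : PP 8 4 T 0x8000080004000008000000 := rS 0x270f26b051ea1245 (k8 c175 c4316 c335 c334 c559 c599 c1226 c15557 k0) (by decide +kernel)
def c16012 : PP 8 4 T 0x11000000000000000021004801001000055500000000000000020100000000000000000 := rS 0x2e1834b (k4 c4426 c1711 c15822 c8268 k0) (by decide +kernel)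
def c16013 : PP 8 4 T 0x2000010000000044000000044000000540001000000005400005400000 := rS 0x2a2984ca215 (k4 c4284 c4405 c4401 c4290 (k2 c15878 c14934 k0)) (by decide +kernel)
def c16014 : PP 8 4 T 0x1000000001000000040000000000001000100000000000000000000004000100004800 := rS 0x12cc46833498b5a28d09ebe1b841524b52bf41b125dc314e5f42a045e9b48a1e10693b89cc2194595472b1128115eab35a55268f018c5321c0f824b25b36916323b288a4ce016194dc81b2b05c8242 (k8 c15950 c91 c573 c15503 c16011 c16010 c4290 c2054 (k8 c15891 c5084 c4402 c4405 c4403 c4446 c175 c9753 (k8 c92 c63 c15502 c1065 c4466 c1927 c14397 c302 (k8 c15582 c1029 c762 c7466 c5962 c5815 c4461 c15959 (k8 c15511 c15896 c12210 c13945 c268 c615 c15628 c1886 (k8 c13396 c4465 c13785 c15952 c804 c15900 c4439 c4321 (k8 c12467 c13601 c4486 c10310 c4488 c528 c14429 c4385 (k8 c1954 c4345 c4463 c15130 c15951 c446 c4470 c4399 (k4 c7883 c4474 c2062 c16013 (k2 c341 c16012 (k1 c1252 k0))))))))))) (by decide +kernel)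
def c16015 : PP 8 4 T 0x1000000001000000040000000000000001100000000001000000000005441400004808 := rS 0x19f43561219b4568a8c981827c2496832e8454e278617d62592991c5a516385c82a94782472ab578a5c81b211594b12 (k8 c4469 c4444 c15503 c15950 c16011 c16010 c4402 c5815 (k8 c14076 c2319 c15502 c15082 c6029 c91 c573 c4289 (k8 c4405 c4286 c4404 c4290 c63 c1147 c12467 c4486 (k8 c4324 c4330 c342 c12418 c4570 c15602 c15648 c4501 (k8 c4465 c2111 c15863 c2254 c4451 c2062 c15662 c7129 (k2 c4421 c1790 (k1 c6601 k0))))))) (by decide +kernel)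
def c16016 : PP 8 4 T 0x2000000002000000000000044000040000500000400008044000085440404404808 := rS 0xf2225456255a24c439a4328b4294c8e2d288545267008441a07 (k8 c83 c1408 c2267 c15891 c5084 c4402 c4284 c4405 (k8 c4286 c4404 c4290 c4321 c4322 c4436 c4437 c4440 (k8 c2108 c2278 c15716 c7129 c15878 c4338 c306 c7465 k0))) (by decide +kernel)
def c16017 : PP 8 4 T 0x1000000001000000040000000000001000100000000000000000000004000000004800 := rS 0x3f1909255828f622ac4ab45121884a0506fc25834224f1a8d946bf37a415e6b55a5c622b11808c2251787440b30b81cb2412984c5a510a8a4cee40d9080256 (k8 c15503 c15891 c15950 c16011 c16010 c5084 c4402 c4284 (k8 c4405 c4286 c4401 c4290 c91 c63 c83 c573 (k8 c662 c16014 c85 c2777 c313 c2885 c798 c2775 (k8 c10518 c11577 c926 c14076 c7466 c5815 c16015 c1076 (k8 c1244 c938 c887 c1035 c339 c2267 c1408 c1955 (k8 c10457 c4570 c12056 c16016 c4465 c15893 c2254 c15716 (k8 c2112 c4338 c7465 c15095 c306 c322 c4903 c15664 (k1 c555 k0)))))))) (by decide +kernel)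
def c16018 : PP 8 4 T 0x1822000000000000000000000100400000000000004001500000000000000000000080 := rS 0x69 (k2 c4437 c15967 k0) (by decide +kernel)
def c16019 : PP 8 4 T 0x11800000000000000000000000000000401500004404401000000000000000000000080 := rS 0x1c5fa8234a14f1092ea9e185f58964aca9 (k8 c4345 c15503 c63 c1147 c12467 c4486 c13601 c4628 (k8 c16018 c4482 c2453 c1960 c15756 c15627 c2448 c4480 k0)) (by decide +kernel)
def c16020 : PP 8 4 T 0x2000002000000100004144040056000010154100008000080025000000000008 := rS 0x68ab47a658b414567e5caccb6531d8b4a229338045eb5 (k8 c7883 c8877 c15891 c5084 c4402 c4405 c4286 c4403 (k8 c4290 c92 c1187 c1205 c9361 c15988 c15732 c8860 (k4 c555 c4416 c6230 c340 (k1 c2112 k0)))) (by decide +kernel)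
def c16021 : PP 8 4 T 0x2000000000000044001490000000040000000000080005400120000011 := rS 0x1834b560ada2c58bc46322d288a58653 (k8 c4290 c2054 c4402 c4405 c4286 c4446 c4336 c4360 (k4 c1252 c14926 c15601 c2112 (k2 c4458 c1986 (k1 c4494 k0)))) (by decide +kernel)
def c16022 : PP 8 4 T 0x1000000001000000040000000000001000100000000000000000000004000000004000 := rS 0x64829f8d0b959a5cfac97e2d422b15b9c4685d1ba8c4c2386a42248b308945eaf559ad368f399d4de934a8e4040518a64387703084167b0f824b3192984c762d288a4cee40d9080256 (k8 c15503 c15891 c15950 c16011 c16010 c5084 c4402 c4405 (k8 c4286 c4403 c4401 c4290 c4446 c63 c15502 c1065 (k8 c1226 c16017 c799 c4462 c1887 c4466 c1927 c14397 (k8 c526 c1018 c3151 c15518 c2996 c1020 c498 c1021 (k8 c15582 c2765 c7466 c5962 c5815 c8877 c224 c879 (k8 c4632 c4488 c16019 c4328 c2766 c12087 c9264 c320 (k8 c2787 c873 c497 c7094 c1148 c343 c7883 c4480 (k8 c10573 c8975 c16021 c1187 c1205 c16020 c9361 c15732 (k2 c15920 c555 k0))))))))) (by decide +kernel)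
def c16023 : PP 8 4 T 0x1000100000000000040000000400050055500000100000000000000540000000104000 := rS 0x207e372e16ab71a0253f0c (k8 c4486 c4384 c15502 c4470 c7094 c7883 c2125 c15830 (k2 c5280 c10992 (k1 c670 k0))) (by decide +kernel)
def c16024 : PP 8 4 T 0x20000000002000040000000100000000400000000040401000001080044000005800 := rS 0x1f849119bc2235 (k4 c87 c319 c1343 c1409 (k2 c322 c10457 (k1 c15827 k0))) (by decide +kernel)
def c16025 : PP 8 4 T 0x1000000000002000040004000000000041144000000000000000000002044025004820 := rS 0x6388a886e3d3ac151067498ed2a290b8055a535985562392aa86188f0697cb256 (k8 c15503 c63 c12467 c528 c15582 c4486 c12260 c12210 (k8 c15896 c15511 c4284 c662 c4290 c2046 c15891 c1911 (k8 c4402 c762 c4403 c1029 c5084 c15757 c4314 c597 (k4 c10368 c16024 c16023 c4337 (k2 c15152 c4794 k0))))) (by decide +kernel)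
def c16026 : PP 8 4 T 0x1000000000002000040000000000000041144000000000000000080002000105004800 := rS 0x345123d31c44541328854cec34a8703e091485d5a532a89d62590200c0256 (k8 c15503 c15891 c302 c4461 c63 c15511 c15628 c12210 (k8 c4290 c2046 c1911 c4402 c15502 c1065 c4466 c762 (k8 c2054 c5084 c4284 c4405 c4401 c16025 c4411 c1606 (k4 c11368 c4794 c340 c2109 k0)))) (by decide +kernel)
def c16027 : PP 8 4 T 0x1000000001002000040000000000002000100000000000000000000002000104004800 := rS 0x44b44c71157a59222742a04aa3958a1d17080206406b32c90826510a99cee6d0e07c1217009595a53 (k8 c4290 c2046 c15503 c15891 c1911 c15502 c1065 c4466 (k8 c9753 c1092 c5084 c4284 c4405 c4401 c15950 c63 (k8 c662 c302 c309 c4461 c4465 c5853 c13785 c15511 (k8 c15896 c12210 c4439 c4321 c15628 c16005 c16026 c4631 (k4 c4336 c817 c301 c4794 (k1 c2109 k0)))))) (by decide +kernel)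
def c16028 : PP 8 4 T 0x1000000001000000040000000000000000100000000000000000000004000000004000 := rS 0x3069010140c0b18070ee2f10c4d38e40f824b26d2286c8456 (k8 c15503 c15950 c16011 c175 c9753 c63 c15502 c1065 (k8 c16010 c16022 c4344 c966 c785 c1092 c4466 c4469 (k4 c16027 c4462 c526 c1018 (k2 c1879 c228 (k1 c15630 k0))))) (by decide +kernel)
def c16029 : PP 8 4 T 0x1000000000001000000000000000000041100000000000000000000000000000208800 := rS 0x222a3328f45905479c4123f3f8d8dc67498ad2a20010140256 (k8 c15503 c15891 c12199 c4461 c302 c15965 c2244 c12021 (k8 c2926 c305 c304 c3432 c2365 c15502 c1416 c801 (k4 c4308 c382 c2279 c550 (k2 c14599 c4332 (k1 c12106 k0))))) (by decide +kernel)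
def c16030 : PP 8 4 T 0x820001000001000000000000000004050044040000140040401400000155400100800 := rS 0x3298caaa1 (k4 c4329 c15791 c15806 c11930 (k1 c15796 k0)) (by decide +kernel)
def c16031 : PP 8 4 T 0x820001000001000000000000000004054044040000100008401480004045601100800 := rS 0x14182898b04da255888b0b61b0b9045267 (k8 c2926 c2776 c91 c573 c16011 c92 c16030 c4332 (k8 c247 c456 c7061 c4487 c7030 c4420 c2109 c1956 k0)) (by decide +kernel)
def c16032 : PP 8 4 T 0x1820000000001000000000000001004041144000000100000080080004000001008800 := rS 0x144b5670f4a4157e88d1e710489c923f1a81cfe471297c6c6e498ad2a20010140256 (k8 c15503 c15891 c12199 c4461 c302 c15965 c2244 c12021 (k8 c305 c304 c3359 c225 c3329 c3432 c83 c1330 (k8 c2365 c2247 c2246 c15502 c1416 c801 c1328 c4376 (k4 c16029 c16031 c2289 c421 (k2 c7513 c11834 (k1 c1523 k0)))))) (by decide +kernel)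
def c16033 : PP 8 4 T 0x1000000001000000040000000000001000100000000000000000000004000000000800 := rS 0x1125328854aa13688f0583b62a59ca8745a0610692706542a98919d22a74fc30c22b0e8c4402f52894044b4291cbe051385cdc4d1b01c821b210347209118380256 (k8 c15503 c15891 c16028 c1328 c15502 c240 c32 c15950 (k8 c16011 c91 c83 c304 c2248 c305 c573 c2246 (k8 c12199 c3359 c3329 c3475 c1334 c4461 c225 c10933 (k8 c8877 c302 c2245 c791 c2244 c878 c11620 c11480 (k8 c4558 c15952 c2926 c4469 c6029 c4329 c8634 c2111 (k8 c13396 c4465 c6395 c4322 c4440 c15093 c16032 c1252 (k8 c1043 c926 c927 c341 c571 c247 c2279 c1685 (k2 c2289 c4742 (k1 c2109 k0))))))))) (by decide +kernel)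
def c16034 : PP 8 4 T 0x1000000001000000040000000000001000100000000000000000000004000000000000 := rS 0x7984860984b2789576a7528d12227891b8c22f54a6c04314c870ee061082cf61f049063242118380256 (k8 c15503 c15891 c16028 c1328 c15950 c4446 c91 c15502 (k8 c1065 c1226 c16033 c799 c4462 c1887 c4466 c1927 (k8 c14397 c1018 c2765 c6029 c8877 c2883 c12083 c4488 (k8 c239 c1076 c1019 c4444 c13601 c3315 c1369 c1492 (k4 c1954 c2111 c244 c4436 (k2 c1959 c4482 k0)))))) (by decide +kernel)
def c16035 : PP 8 4 T 0x100008801 := rS 0x605 (k2 c12199 c302 (k1 c4461 k0)) (by decide +kernel)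
def c16036 : PP 8 4 T 0x1000000001000000040000000000000000100000000000000000000004000000000000 := rS 0x3069010140c0b18070ee2f10c4d380e0f824b26d009588a42 (k8 c15950 c175 c15503 c15891 c9753 c63 c15502 c1065 (k8 c16028 c16034 c4344 c966 c785 c1092 c4466 c4469 (k4 c16035 c4462 c526 c1018 (k2 c1879 c228 (k1 c15630 k0))))) (by decide +kernel)
def c16037 : PP 8 4 T 0x11400000000001000040000100000010441501100000040100014004000040005604810 := rS 0xc457d14a64e678356d111aad4ea6516414aab349aed3e6f04a0c2227860080256 (k8 c15503 c15891 c4461 c4486 c4324 c342 c4570 c15502 (k8 c10992 c4384 c10310 c12021 c15548 c141 c4308 c382 (k8 c550 c591 c15037 c12022 c4332 c15857 c569 c1797 (k4 c2108 c421 c4396 c983 (k2 c7634 c8820 k0))))) (by decide +kernel)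
def c16038 : PP 8 4 T 0x1000000000001000040000000000040055500000000000000000004140040000104808 := rS 0x76758295068b32b01d426f0889e1809 (k8 c15502 c4486 c4324 c342 c10992 c4551 c83 c15503 (k4 c15548 c4470 c12022 c4406 (k2 c1687 c1601 (k1 c16023 k0)))) (by decide +kernel)
def c16039 : PP 8 4 T 0x1000000000001000040000000000000055101100000001000010084100151405104808 := rS 0x6391c927d2a139f80d1a8d8caa32d81d429f25aecde830889e188f049582e41 (k8 c91 c573 c15503 c15502 c15082 c4486 c4324 c342 (k8 c4570 c10992 c10310 c1954 c4384 c4551 c83 c92 (k8 c11410 c11930 c16038 c87 c1408 c10457 c2108 c12512 (k4 c4379 c2298 c1602 c2250 (k1 c2110 k0))))) (by decide +kernel)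
def c16040 : PP 8 4 T 0x1400000000001000040000100000000441145100000000000010084100051605004810 := rS 0x5b9c596be29138a2733f83583041aa262cb53a84d72d12ac4458152dc65666133a4d62a14a92d766f2ea0c22278623c1202009582e41 (k8 c91 c573 c15503 c15891 c4461 c15502 c15082 c4486 (k8 c4324 c342 c4570 c12418 c10992 c10310 c1954 c15965 (k8 c4551 c1147 c12021 c2926 c2885 c15548 c4446 c92 (k8 c16037 c16039 c4332 c247 c2300 c6781 c7061 c11025 (k8 c7420 c4487 c7030 c12022 c4464 c4420 c569 c4313 (k8 c4408 c1956 c2108 c2109 c339 c2022 c1513 c1247 (k1 c15745 k0))))))) (by decide +kernel)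
def c16041 : PP 8 4 T 0x80044000000040000000080008000001000808 := rS 0x8928855a2550994cc63c160ee22af0eab42e410d9a53820 (k8 c336 c337 c2813 c423 c91 c573 c2952 c953 (k8 c4631 c4336 c1043 c926 c927 c2801 c417 c571 (k4 c247 c2300 c2279 c1685 (k2 c4794 c2109 k0)))) (by decide +kernel)
def c16042 : PP 8 4 T 0x1000000000001000040000000000000001145100000000000000080008000000004000 := rS 0x1393218bd89894569b1f8a51e23048e436694e25cce200101414012d864da56 (k8 c15503 c9753 c255 c92 c15891 c6257 c2293 c4461 (k8 c336 c2926 c16041 c337 c2813 c423 c2327 c15502 (k8 c2969 c15082 c2970 c2372 c2784 c2295 c2294 c4340 (k4 c1173 c4486 c16040 c4324 (k1 c376 k0))))) (by decide +kernel)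
def c16043 : PP 8 4 T 0x1000000040000000000000002000000000000000000080008000001404048 := rS 0x20c960d268449e351b0984a1d20a050b080d9a53820 (k8 c336 c337 c2813 c423 c4465 c4321 c4439 c91 (k8 c953 c2294 c12087 c887 c1035 c2297 c2267 c2277 (k4 c1408 c1955 c15637 c2108 k0))) (by decide +kernel)
def c16044 : PP 8 4 T 0x1100000000002000000000000010000055544000000040001000080100050405400000 := rS 0xd1448f4c6562984ca215 (k8 c4284 c4405 c4401 c4290 c15503 c15083 c7465 c4794 (k2 c340 c2109 k0)) (by decide +kernel)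
def c16045 : PP 8 4 T 0x220000000000000000404405011000011544000020000000100080000000005100800 := rS 0xd144b018a748bd2d71190b905429f (k8 c4384 c4329 c91 c573 c4446 c15731 c15587 c4361 (k4 c1474 c1254 c4494 c597 (k2 c341 c4687 k0))) (by decide +kernel)
def c16046 : PP 8 4 T 0x1100000000002000000000000010002051544000000040001000080100050405400000 := rS 0x8855345243d2984ca215 (k8 c4284 c4405 c4401 c4290 c7465 c16044 c340 c1239 (k2 c2109 c1945 k0)) (by decide +kernel)
def c16047 : PP 8 4 T 0x220000001002000040000000000000010100000000000000000000008000000004000 := rS 0xb7380d196bf5483288b527921462b14ab5871342a2d0e4b5da440e8f1182472818406cd29c10064da3b288558e4d418444e020285c14012d9588242 (k8 c15950 c91 c15503 c92 c15891 c6257 c573 c2293 (k8 c4461 c4324 c342 c4570 c376 c4289 c4284 c4405 (k8 c4403 c9753 c255 c336 c337 c2813 c423 c4465 (k8 c4439 c2327 c15502 c2969 c15082 c83 c16043 c10310 (k8 c1954 c4440 c4322 c4321 c4340 c15895 c2952 c2970 (k8 c2295 c4337 c15662 c2298 c1703 c4474 c2108 c4398 (k4 c4399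 c4455 c569 c568 (k2 c1037 c16045 k0)))))))) (by decide +kernel)
def c16048 : PP 8 4 T 0x1000000001000000040000000000000010100000000000000000000000000000004000 := rS 0x541ec44562956a5ccf0c4788c1239722440e8745a1503080b828b6410d8080a0134a704019369586442 (k8 c15950 c16036 c15503 c9753 c255 c336 c337 c2813 (k8 c15891 c2293 c4461 c423 c91 c92 c6257 c573 (k8 c4465 c4439 c4321 c4322 c4440 c83 c16043 c16042 (k8 c2327 c15502 c2969 c15082 c4486 c2926 c16041 c2952 (k4 c2970 c2295 c16047 c7465 (k2 c16046 c306 k0)))))) (by decide +kernel)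
def c16049 : PP 8 4 T 0x4000000002520044000000000008000004000040010000000 := rS 0x112c0572ace86d (k4 c9753 c803 c1701 c972 (k2 c973 c597 (k1 c15752 k0))) (by decide +kernel)
def c16050 : PP 8 4 T 0x1100000001001000040000000000000000100000000000001000000000000000000000 := rS 0x511504f57148a2cf60a89a3161e8b0262956a3c46091c9346a0725a4d12b53e855230c129852e67238d8dc0e4aa1d17080b86c040534880326d61c4d32310e9047e9b15a70143200908b656 (k8 c15503 c92 c15950 c15891 c16036 c6257 c337 c2295 (k8 c2784 c2372 c91 c953 c173 c1926 c4340 c15895 (k8 c9753 c255 c336 c2813 c2293 c4461 c423 c573 (k8 c4465 c4322 c4440 c16049 c16048 c305 c304 c3329 (k8 c2926 c16041 c2885 c2294 c11620 c4328 c16029 c7516 (k8 c1347 c7030 c12021 c1334 c83 c1330 c2162 c2327 (k8 c15502 c2969 c15082 c2952 c2970 c7061 c4468 c7465 (k8 c4487 c2300 c11834 c4420 c1524 c1956 c2109 c417 (k4 c421 c988 c4474 c4398 k0))))))))) (by decide +kernel)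
def c16051 : PP 8 4 T 0x1000000001001000040000000000000000100000000000001000000000000000000000 := rS 0x78c6298b556a3882d4fa63448a51e23048e44e491a81d429f238d8dc930aa46180e4ab0e2699188747e9b15894c29743a2e10172086cd29c33880040505004b619369586442 (k8 c15950 c16036 c15503 c9753 c255 c92 c15891 c6257 (k8 c2293 c4461 c336 c2926 c337 c2813 c423 c91 (k8 c573 c4465 c4322 c4440 c16041 c2885 c2294 c2295 (k8 c2784 c2372 c953 c173 c1926 c4340 c15895 c16049 (k8 c16048 c11620 c4328 c16029 c12021 c305 c304 c3329 (k8 c4384 c4329 c83 c1330 c2247 c2246 c2327 c15502 (k8 c2969 c15082 c2970 c7030 c11648 c7516 c1347 c16050 (k4 c4337 c4415 c4332 c15794 (k2 c2110 c11834 (k1 c15742 k0)))))))))) (by decide +kernel)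
def c16052 : PP 8 4 T 0x20001000000000000000000000000000000040000040002001400000054400000000 := rS 0x2d (k2 c247 c15791 k0) (by decide +kernel)
def c16053 : PP 8 4 T 0x1000000001000000040000000000000000100000000000000000000000000000000000 := rS 0x514418e2d721548e7f4fa852249139b86d0c7e8392a9743a2e101b4799cc2170130cd2ad1488d321d100287e9b15894323902a70631319024b66d009588242 (k8 c15950 c91 c15503 c15891 c9753 c92 c15502 c16036 (k8 c4340 c173 c337 c2293 c2327 c255 c2294 c2295 (k8 c2784 c2372 c6257 c336 c953 c1926 c2969 c2970 (k8 c2952 c2813 c15895 c4461 c573 c2885 c2926 c15082 (k8 c423 c4465 c4322 c4440 c16041 c16049 c16048 c4376 (k8 c11620 c304 c305 c2246 c2247 c4328 c4329 c4384 (k8 c3432 c3329 c16052 c16051 c4286 c4289 c16046 c2110 (k1 c4337 k0)))))))) (by decide +kernel)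
def c16054 : PP 8 4 T 0x1001000040000000000041554100000000000000001000010000420000000 := rS 0x258693096bb278dd523152c4a324213a46283f (k8 c1179 c16053 c4352 c872 c15950 c4446 c4488 c4444 (k8 c4441 c4345 c4386 c338 c4390 c1954 c13025 c12049 (k2 c284 c4467 k0))) (by decide +kernel)
def c16055 : PP 8 4 T 0x1001000040000000000001050100000000000000000000004060421000000 := rS 0x18eb82627d4e251a125468f5b92d764f1b8bcb6a918a9557124c9de329b3486cac2748c51263f16b0c7a42 (k8 c15950 c1680 c2055 c912 c1179 c1030 c16053 c4352 (k8 c872 c15503 c16011 c13396 c804 c4446 c1886 c1071 (k8 c4488 c4445 c4444 c4441 c4345 c92 c15900 c4386 (k8 c338 c4390 c1954 c4353 c4388 c11410 c1721 c16054 (k4 c1369 c4558 c1571 c2111 (k2 c11933 c15797 (k1 c11342 k0))))))) (by decide +kernel)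
def c16056 : PP 8 4 T 0x1001000040000000000001000100000000000000000000004060101000800 := rS 0xba1586a8172a3639328abe7ea7c20a72f89444c31e9b51eb75a92d764f30a441e3742834e31417aa54a931f84cca2d2da54381f4b95566ab459ad0f0818c4932778ca6cd2172086c84090200c0256 (k8 c15503 c15891 c302 c4461 c15502 c15950 c16011 c91 (k8 c573 c13396 c804 c4446 c1886 c1071 c4488 c4441 (k8 c4465 c4440 c4442 c4322 c4445 c16001 c12210 c15957 (k8 c1065 c4466 c15556 c92 c912 c11930 c530 c1179 (k8 c1030 c4444 c4345 c15900 c16053 c4387 c568 c6224 (k8 c4386 c304 c4352 c880 c338 c4390 c1954 c4389 (k8 c4353 c4388 c9753 c1680 c2055 c16055 c58 c1295 (k8 c772 c15881 c1571 c15627 c15685 c4399 c4474 c15797 (k4 c4241 c11342 c2125 c4329 (k2 c11967 c11966 (k1 c4477 k0))))))))))) (by decide +kernel)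
def c16057 : PP 8 4 T 0x1000000000000000000000000000000000001000044000005406405405000 := rS 0x9a11 (k2 c279 c284 (k1 c14506 k0)) (by decide +kernel)
def c16058 : PP 8 4 T 0x1001000040000000000001000100000000000000000000004040501000800 := rS 0xc3688f4e4148bc157051509317d0c53894da8f5bad496bb279841e37069c552af5289d2293568bc26652da8d3e47880b453141fa5caaab459ad0f0818c4932778ca6cd2172086c84950200c02b30e07c1256 (k8 c15503 c15502 c1065 c4466 c16001 c15891 c302 c4461 (k8 c15556 c15950 c16011 c91 c573 c13396 c804 c4446 (k8 c1886 c1071 c4488 c4441 c4465 c4440 c4442 c4322 (k8 c4445 c12210 c15957 c1179 c16053 c16056 c912 c4468 (k8 c15647 c4414 c4337 c92 c11930 c530 c15900 c4554 (k8 c1030 c4352 c872 c4444 c4346 c4345 c4387 c568 (k8 c4386 c304 c880 c338 c4390 c1954 c4389 c4353 (k8 c4388 c9753 c16057 c4558 c4467 c15685 c2111 c4329 (k8 c1997 c2125 c15803 c4361 c4464 c7660 c327 c454 (k2 c3088 c14476 k0)))))))))) (by decide +kernel)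
def c16059 : PP 8 4 T 0x1001000040000000000001000100000000000000000000004040101000800 := rS 0x141e45d70a1638893ea3880a45a3f4b99caa950224c061c0f824b26d00a3d22b75ac51668b43c202e41189ad57124c9de329b3486c8456 (k8 c15503 c15950 c16011 c13396 c804 c4446 c1886 c1071 (k8 c4488 c4445 c4442 c4441 c91 c573 c4465 c4440 (k8 c4322 c16001 c16053 c4389 c4353 c4352 c4388 c15891 (k8 c9753 c63 c15502 c1065 c4466 c302 c1030 c4461 (k8 c15556 c12210 c655 c15957 c1179 c912 c16056 c4468 (k8 c4337 c4414 c16058 c1450 c770 c2125 c4361 c11342 (k2 c13647 c327 k0))))))) (by decide +kernel)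
def c16060 : PP 8 4 T 0x1000000040000000000001054100000000000000000000000000205200800 := rS 0x319964c51c3588832e9be226508988590504adc9e172083c6e7b4092d7685069c629124c9de32424d9a40a590108cce56 (k8 c15503 c2926 c2775 c798 c63 c311 c13396 c804 (k8 c15950 c4446 c1886 c1071 c4488 c16053 c4387 c568 (k8 c6224 c4390 c1954 c6395 c702 c4386 c304 c91 (k8 c573 c338 c4353 c15502 c4308 c382 c383 c15025 (k8 c550 c4332 c10992 c12418 c4570 c15028 c15696 c13617 (k4 c2108 c1756 c15849 c413 k0)))))) (by decide +kernel)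
def c16061 : PP 8 4 T 0x1001000040000000000001054100000000040001000000000010015100818 := rS 0x5f32d429f2fb1cb90d0844696fd291f4e6518204da2c13a8f62c63449fcb2b1478e56eb530a441e37069c6288b43c202e41548c54aab89264ef192126cd256 (k8 c15503 c13396 c804 c15950 c4446 c1886 c1071 c4488 (k8 c4445 c4444 c4441 c4345 c91 c573 c4465 c4440 (k8 c4322 c16053 c4387 c568 c4386 c304 c4352 c880 (k8 c4389 c4353 c4348 c4388 c4350 c63 c7517 c7030 (k8 c11648 c15758 c4416 c4417 c4420 c340 c570 c7079 (k8 c1956 c4408 c4409 c2109 c15634 c4456 c15794 c4463 (k8 c15696 c4120 c2373 c542 c1339 c810 c2023 c6348 (k1 c15840 k0)))))))) (by decide +kernel)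
def c16062 : PP 8 4 T 0x1001000040000000000001040100000000000000000000004040001000800 := rS 0x83089353ed051ab586471e1445a656494e0a540aa3d22b52785c820f1bacd024b5da141a718a0bcb6af18aae24993bc6536690d9083a2933a54049302880b256 (k8 c15503 c63 c16059 c311 c12021 c798 c15965 c2926 (k8 c2776 c85 c15950 c16011 c13396 c804 c4446 c1886 (k8 c1071 c4488 c4445 c4441 c4346 c92 c15900 c16053 (k8 c4387 c568 c6224 c4390 c1954 c6395 c16001 c4386 (k8 c304 c91 c573 c338 c4389 c4352 c4388 c16060 (k8 c16061 c4406 c9029 c1727 c1646 c247 c1605 c306 (k8 c1603 c2054 c6230 c9384 c2112 c11776 c15768 c7776 (k2 c9038 c2108 k0)))))))) (by decide +kernel)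
def c16063 : PP 8 4 T 0x1001000040000000000001000100000000000000000000004040001000800 := rS 0x17e5f7eae421426492546c2a5c34a426449f4fec7609442a472a84da2731e284583b62c5e2296338080a1d1029553122cc65628f30a441e37069c628b34c9dd366945a1e101b2b05c8242 (k8 c15950 c91 c573 c15503 c16011 c4465 c4440 c4322 (k8 c13396 c804 c1886 c1071 c16001 c16053 c4387 c568 (k8 c4386 c304 c4352 c880 c4388 c4350 c4446 c63 (k8 c4488 c4345 c4444 c16059 c85 c311 c798 c2926 (k8 c16062 c4336 c4360 c1252 c1043 c926 c2904 c927 (k8 c1084 c341 c571 c247 c8078 c2279 c1685 c7824 (k8 c330 c10049 c7516 c7030 c12099 c2109 c4324 c4456 (k8 c333 c15850 c369 c7497 c4473 c2107 c4394 c4300 (k2 c542 c1215 (k1 c6348 k0)))))))))) (by decide +kernel)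
def c16064 : PP 8 4 T 0x2020000000001000040000000000040054100000000000000001000000000020204000 := rS 0x1a27d1e2748c14ea3f (k8 c1179 c591 c4308 c4352 c872 c4388 c4384 c12049 (k1 c16002 k0)) (by decide +kernel)
def c16065 : PP 8 4 T 0x2000000000001000040000000000400054101100000000000044000000020425605000 := rS 0x1064d08c3492a3309584e91 (k8 c4352 c872 c15503 c880 c778 c1721 c16064 c7312 (k2 c9728 c4570 (k1 c2108 k0))) (by decide +kernel)
def c16066 : PP 8 4 T 0x40000000500080041100000000010000000000000040020204004 := rS 0x225c88a54ce04009585b05 (k8 c4308 c912 c15503 c15891 c4461 c655 c15556 c4337 (k2 c13617 c15047 (k1 c12183 k0))) (by decide +kernel)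
def c16067 : PP 8 4 T 0x2000000000001000040000000000440054101100000000000044000000020025605000 := rS 0x5c31d3ea12f894448f5bad4c2912b0fc7ab3 (k8 c16001 c327 c1179 c15503 c4352 c880 c4389 c4353 (k8 c4388 c16065 c58 c1295 c11967 c1571 c1449 c2125 (k1 c11342 k0))) (by decide +kernel)
def c16068 : PP 8 4 T 0x2020000000001000040000000000040050100000000000000000000000040020204000 := rS 0x4948a4c7ab3 (k4 c16001 c327 c1030 c4352 (k2 c15699 c16064 k0)) (by decide +kernel)
def c16069 : PP 8 4 T 0x10000000000000040000000000400000001100000001000044000000004405405000 := rS 0x20c9a11 (k4 c7312 c9728 c4570 c2108 k0) (by decide +kernel)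
def c16070 : PP 8 4 T 0x2000000000001000040000000000400040101100000010000044000000040025605004 := rS 0x172a16388a1a9f880a5463d589844e9149a5408012b2cc7e2d (k8 c912 c1179 c16001 c15503 c15891 c4461 c15556 c1030 (k8 c4352 c872 c880 c4350 c327 c16066 c16067 c4468 (k4 c4414 c16068 c16069 c1450 (k2 c770 c11342 (k1 c15693 k0))))) (by decide +kernel)
def c16071 : PP 8 4 T 0x2020000000001000040000000000040054100040000014001000005000144000104020 := rS 0x1b9709f2fa8412b147add6a6148958ea13 (k8 c530 c11468 c15503 c4352 c880 c4389 c4353 c4388 (k8 c4350 c15502 c4329 c4382 c4384 c2125 c12489 c14033 k0)) (by decide +kernel)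
def c16072 : PP 8 4 T 0x2000000000001000040000000000440040101100000014001044000000060025505020 := rS 0x105c9b93ec72f894450d04ac4c22748a4cce2d3f9d47a952b2cc263f (k8 c1179 c530 c16001 c15503 c15556 c1680 c11468 c7517 (k8 c912 c655 c1030 c4352 c872 c880 c4350 c15502 (k8 c16071 c16069 c58 c1295 c1449 c1571 c12489 c11342 (k2 c10992 c11978 k0)))) (by decide +kernel)
def c16073 : PP 8 4 T 0x2000000000001000040000000000400040101100000014001044000000060025505020 := rS 0x89b98c5f511d47a09589844e9149a54acb31f8b4267f (k8 c7517 c530 c912 c1179 c16001 c15503 c15556 c1030 (k8 c4352 c872 c880 c4350 c15502 c1680 c11468 c16072 (k4 c1465 c779 c12489 c406 (k1 c10992 k0)))) (by decide +kernel)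
def c16074 : PP 8 4 T 0x2400000000001000040004000000400040105100000100000044000002040025400804 := rS 0x5ca858e22868f4a4514faad471014a24fe630a84cca2d1f96d1eb75a9841e37069c5a22748a4d2ab32a8100256 (k8 c15503 c15891 c4461 c12210 c16001 c15556 c1030 c4352 (k8 c872 c300 c4387 c568 c4386 c304 c880 c4389 (k8 c4353 c4388 c92 c1179 c912 c11930 c530 c16070 (k8 c12253 c7517 c7030 c16073 c4468 c4337 c4415 c4414 (k8 c1916 c15831 c333 c16071 c16069 c1450 c770 c11342 (k1 c2125 k0)))))) (by decide +kernel)
def c16075 : PP 8 4 T 0x1001000040000000000000000100000000000000000000004040001000800 := rS 0x2c0aa58ce040187060a761886269c0f8240291278dd668125aed0a0d38c505e692da1e101b2b05c8242 (k8 c15950 c91 c573 c15503 c16011 c4465 c4440 c92 (k8 c13396 c15900 c16053 c4387 c568 c6224 c4390 c1954 (k8 c6395 c16001 c4386 c338 c4352 c15891 c15502 c1065 (k8 c16063 c4344 c966 c15895 c906 c4469 c4466 c302 (k4 c4461 c655 c16074 c15956 (k2 c11774 c390 k0)))))) (by decide +kernel)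
def c16076 : PP 8 4 T 0x1000000000000000000000450010000000000001100080000080105540000 := rS 0x4e8c15852688f4831945a1e1111 (k8 c4411 c4465 c4440 c4322 c4446 c91 c11368 c340 (k4 c2109 c293 c292 c946 (k1 c5755 k0))) (by decide +kernel)
def c16077 : PP 8 4 T 0x1000000000000000000001000010000000000001100080000080145540000 := rS 0x29b44628b43c222295 (k8 c1695 c4411 c4465 c4440 c4322 c14397 c14926 c292 (k1 c2109 k0)) (by decide +kernel)
def c16078 : PP 8 4 T 0x1001000040000000000000000100000000000000000000004000001000800 := rS 0x344a63061c4d383c8babd2c3b49a24e65510810a2134a8547e031521d162f4dc20d21f0496c02172086c8456 (k8 c15503 c15950 c16011 c91 c573 c15891 c92 c15502 (k8 c1065 c13396 c4465 c804 c15900 c4322 c4440 c16075 (k8 c2244 c2223 c15516 c1695 c1639 c1645 c4461 c798 (k8 c12210 c12124 c7030 c1069 c1640 c16076 c4631 c4360 (k8 c4471 c16077 c4344 c15895 c4469 c333 c301 c2109 k0))))) (by decide +kernel)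
def c16079 : PP 8 4 T 0x2000000000001000050000000044800050100000000000000020004005548200000000 := rS 0x5323b3490a35687c12918688c5256 (k8 c15503 c2776 c772 c4330 c4352 c15502 c1065 c4554 (k4 c9384 c13105 c2066 c118 (k2 c373 c7129 k0))) (by decide +kernel)
def c16080 : PP 8 4 T 0x2100002000001000000000010400000054000000000040001000000000010000101000 := rS 0x18cfe71 (k4 c4387 c7517 c11648 c15774 k0) (by decide +kernel)
def c16081 : PP 8 4 T 0x2000002000001000050000000044800054100000000000000020004005448200101000 := rS 0x2a2e6222c598a4ce56 (k8 c15503 c2926 c2776 c16001 c16079 c4332 c6781 c16080 (k1 c247 k0)) (by decide +kernel)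
def c16082 : PP 8 4 T 0x1001000040000000000000000100000000000000000000004000000000800 := rS 0x28c90c13f91d8e5509a1ce63c508b076c58bc452c153eb25269533bf04c2b0e880224c011768a05532ac62af89264d69d4dafda276179e47e8344c2430b30496cda018ca3d6e4b5d93c0e0f1b834e3143d86c8456 (k8 c15503 c15950 c16011 c702 c16053 c4387 c568 c4386 (k8 c304 c83 c338 c4390 c1954 c4353 c4388 c4446 (k8 c15891 c9753 c92 c15502 c16001 c16078 c4436 c15893 (k8 c1999 c2366 c1959 c1871 c309 c2254 c12619 c805 (k8 c15054 c3829 c1072 c4703 c4346 c4441 c4445 c15623 (k8 c268 c4453 c813 c4461 c4474 c343 c302 c791 (k8 c2244 c13817 c4463 c2926 c15965 c12021 c4305 c4379 (k8 c15969 c16081 c4336 c4360 c3097 c1043 c926 c2904 (k8 c927 c1084 c7276 c571 c247 c409 c8078 c10049 (k4 c1892 c2107 c13651 c369 k0)))))))))) (by decide +kernel)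
def c16083 : PP 8 4 T 0x1002000000000000400001000000000001040011000080004440145400000 := rS 0x10456994c675880f188d057aacd6314a87052694584d0e51 (k8 c4405 c13785 c4401 c5853 c13396 c4402 c4466 c762 (k8 c14397 c7466 c14076 c5815 c16013 c341 c340 c14926 (k4 c1784 c9785 c4412 c4338 (k2 c10368 c14294 k0)))) (by decide +kernel)
def c16084 : PP 8 4 T 0x100000000002000040000000000440041001100000001000044000100040425405000 := rS 0xa18609d2a29 (k4 c4402 c762 c872 c16069 (k2 c4329 c15779 k0)) (by decide +kernel)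
def c16085 : PP 8 4 T 0x100000000002000040000005000440041501100000000000044000100040025405000 := rS 0x13ea1112e4c25623a4d2a29 (k8 c4402 c762 c1030 c4404 c15503 c880 c6781 c16084 (k2 c770 c1299 (k1 c2125 k0))) (by decide +kernel)
def c16086 : PP 8 4 T 0x2200100000000000040000000400050054100000100000000000000000000000104000 := rS 0x207e372e0128f48add6a9f (k8 c4414 c4389 c4353 c4352 c4388 c15502 c15693 c15830 (k2 c5280 c10992 (k1 c670 k0))) (by decide +kernel)
def c16087 : PP 8 4 T 0x40000000000420000001100000001000044000000014005405000 := rS 0x470d (k2 c4329 c770 (k1 c16069 k0)) (by decide +kernel)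
def c16088 : PP 8 4 T 0x2000100000002000040000000400440040101100100000000044000000040025405000 := rS 0x2208f1cadd6a1549a554227149852256 (k8 c15503 c4352 c880 c4402 c872 c16087 c762 c1030 (k4 c4284 c4389 c4353 c4348 (k2 c4388 c16085 (k1 c16086 k0)))) (by decide +kernel)
def c16089 : PP 8 4 T 0x1000000040000000000000040100000000000000000000004040101000800 := rS 0x81f8b8a23a9960a88182b54f134e0bd0e8b42a04d2592d9b5224b5d93c2e41078dc1a718a06c26510a99d66076194dc8420e07c12550200c0256 (k8 c15503 c15891 c302 c4461 c12210 c15502 c1065 c4466 (k8 c15950 c16082 c4290 c2054 c83 c10182 c5084 c4284 (k8 c4405 c4401 c16011 c16053 c4387 c568 c4386 c304 (k8 c91 c573 c338 c4390 c1954 c4352 c9753 c92 (k8 c63 c13396 c6395 c6224 c5853 c13785 c15900 c16083 (k8 c4344 c906 c946 c4469 c15757 c4314 c557 c597 (k4 c16088 c13617 c14599 c12183 (k1 c670 k0)))))))) (by decide +kernel)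
def c16090 : PP 8 4 T 0x10000000000000000000000000000000100000000001000040000000000000002000820 := rS 0x4486076 (k4 c309 c268 c4703 c4441 k0) (by decide +kernel)
def c16091 : PP 8 4 T 0x1000000040000000000000000100000000000000000000004040100000800 := rS 0x442b461134e18e222f4b21d16690c95408034c87c12592d9b632172086c845309944ce012b2cdc807 (k8 c83 c16082 c10182 c15503 c15891 c5084 c4405 c4401 (k8 c4290 c15950 c16011 c91 c573 c4446 c9753 c92 (k8 c63 c15502 c1065 c1927 c302 c4461 c12210 c16090 (k8 c13396 c5853 c13785 c16089 c15900 c4336 c817 c16083 (k4 c4344 c4469 c2047 c15757 (k1 c4794 k0)))))) (by decide +kernel)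
def c16092 : PP 8 4 T 0x802000000002000000000000444000450044000000540011000080005440005400000 := rS 0x888218d27173a8f188d0 (k8 c16013 c341 c340 c1784 c4416 c1654 c9785 c10368 (k2 c15758 c4314 k0)) (by decide +kernel)
def c16093 : PP 8 4 T 0x2802000000002000040000000044000010145100000100000000080004040201000800 := rS 0x830893546d0882b5263c32b260a5447ad496bb2785c820f1b834e21b288a4ce015981d865317a7d2297169ac62024e9653656 (k8 c15503 c804 c63 c966 c798 c11577 c7466 c4286 (k8 c926 c4352 c15559 c2777 c4290 c2054 c83 c10182 (k8 c15891 c5084 c4402 c4405 c16011 c4387 c568 c4386 (k8 c304 c91 c573 c338 c4390 c1954 c4389 c4388 (k8 c16092 c4406 c1727 c1646 c306 c1070 c6230 c7465 (k4 c2112 c4337 c15768 c7776 (k2 c4570 c2108 k0))))))) (by decide +kernel)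
def c16094 : PP 8 4 T 0x1000000040000000000000000100000000000000000000004040001000800 := rS 0x3418a944da1d168584204d24b5d85c820d38c50364209946242f55abc62021015852e4 (k8 c16082 c4402 c15503 c16091 c798 c11577 c5815 c14076 (k8 c2777 c4469 c4405 c4401 c15950 c16011 c16053 c4387 (k8 c568 c91 c573 c4390 c1954 c13396 c6395 c4465 (k8 c6224 c5853 c13785 c804 c16093 c1787 c15716 c341 k0)))) (by decide +kernel)
def c16095 : PP 8 4 T 0x1000000040000000000000000100000000000000000000004040000000800 := rS 0x82a2d0ecb39154de11518f4eab92ec34c74b88a992aac4dafda27941a26121857aad4b124caa52e9f18a74460217880125b58a3d7a4b5d985220f1b834e3143d86c8e13169442a296399c02566194dc842 (k8 c15950 c16082 c4290 c2054 c15503 c15891 c5084 c4289 (k8 c4402 c4284 c4405 c4286 c4401 c4404 c16011 c702 (k8 c16053 c4387 c568 c4386 c304 c4352 c880 c4390 (k8 c1954 c4354 c4388 c4350 c92 c15502 c16091 c2777 (k8 c798 c2775 c966 c11577 c15559 c926 c6029 c1926 (k8 c4469 c5936 c14076 c5815 c16094 c4436 c15893 c1999 (k8 c1959 c2254 c12619 c805 c2112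 c15716 c15623 c4338 (k8 c4458 c821 c4330 c813 c6781 c11025 c7465 c9264 (k8 c343 c9688 c306 c15443 c2027 c14634 c15902 c4408 (k1 c4485 k0)))))))))) (by decide +kernel)
def c16096 : PP 8 4 T 0x1000000000000000000000000020000000040001400000004080000400000 := rS 0x30561aa2263 (k4 c1606 c4411 c13072 c4794 (k2 c6097 c2046 k0)) (by decide +kernel)
def c16097 : PP 8 4 T 0x1000000040000000000000000100000000000000000000004000000000800 := rS 0xc15f1368271122f4da1d16690ca6442042a80c54670a94426537206c3e092d9b402568c85c8242 (k8 c15950 c91 c573 c4446 c15503 c15891 c9753 c92 (k8 c15502 c1065 c16011 c16082 c4290 c4401 c4405 c4284 (k8 c5084 c16095 c2244 c15555 c4461 c798 c1927 c16090 (k8 c13396 c5853 c13785 c804 c15900 c16096 c16077 c2109 (k4 c4344 c15592 c4469 c301 k0))))) (by decide +kernel)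
def c16098 : PP 8 4 T 0x2000000000001000040000000000000044101100000000001044000008000204600810 := rS 0x18ea32620cba6f3284459050483c6e0d38864da2301004ce56 (k8 c15503 c2926 c15891 c4461 c955 c9753 c255 c4387 (k8 c568 c4386 c304 c15502 c4308 c382 c15025 c550 (k4 c10992 c12418 c4570 c2108 (k2 c13617 c2380 (k1 c12078 k0))))) (by decide +kernel)
def c16099 : PP 8 4 T 0x2100000000001000040000000400040054100000000000001000000000010210105000 := rS 0xa14f970207d7ec117213478e522b75a99cac63 (k8 c11648 c15503 c2926 c4389 c4353 c4352 c4348 c4388 (k8 c7061 c6781 c4464 c16080 c4409 c4463 c4120 c1339 (k2 c810 c2125 k0))) (by decide +kernel)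
def c16100 : PP 8 4 T 0x1001000040000000000040000100000000000001000000000000000000800 := rS 0x2e4b8bf085109acf60b11a051099221a2629a7c5aab32c403e0922a3c72b730a441e0d1288d66954da6462c31fa24c615498ad2e8b33a1e10810d8080269429dce3193d87626590c9b4ac050b9049e3725aee28294e0806442 (k8 c15950 c16097 c336 c337 c2970 c16053 c4390 c1954 (k8 c4386 c338 c91 c573 c2293 c15503 c9753 c255 (k8 c63 c4340 c953 c15585 c4446 c4387 c1092 c13580 (k8 c2813 c15891 c4461 c423 c6395 c4465 c4440 c2926 (k8 c4322 c16041 c2295 c12021 c16098 c11648 c7030 c2372 (k8 c15895 c173 c1926 c2784 c16049 c15548 c955 c2294 (k8 c568 c304 c4352 c880 c4353 c4348 c4388 c175 (k8 c15502 c1065 c16099 c4412 c4415 c4332 c4414 c15794 (k8 c12512 c4324 c13105 c1719 c7104 c2109 c341 c1711 (k8 c15676 c381 c4474 c15750 c4399 c4120 c1254 c11966 k0)))))))))) (by decide +kernel)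
def c16101 : PP 8 4 T 0x1001000040000000000000000100000000000001000000000000000000800 := rS 0xaf29098a21060bf5a3165c84c5911512242a4f078dc1a2959a14ee718c9ecb28125aee28954da6462c3898fc3a974599d0f080d9a538200b90404010c9b52656158146442 (k8 c15950 c16097 c2293 c2295 c15503 c12021 c9753 c255 (k8 c15891 c4461 c91 c573 c336 c337 c2813 c423 (k8 c4465 c4440 c2926 c4322 c16041 c953 c2372 c4340 (k8 c15895 c173 c1926 c2784 c16049 c16053 c4390 c1954 (k8 c6395 c63 c15585 c4446 c4387 c1092 c13580 c15548 (k8 c2970 c568 c4386 c304 c338 c16098 c7030 c16100 (k8 c4337 c9384 c7061 c6781 c4487 c2300 c16080 c4420 (k4 c4463 c1956 c342 c2109 (k2 c2993 c417 k0))))))))) (by decide +kernel)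
def c16102 : PP 8 4 T 0x1001000040000000000000000100000000000000000000000000000000800 := rS 0x8326845529f5028e20473a8f05ac982854a89304a3d6a4f078dc1a2314acd0a7738c64f6594092d77144aa6d323161c4c7e1d15a5d166743c2036694e0802e41010140219369586442 (k8 c15950 c16097 c15503 c9753 c255 c15891 c2293 c4461 (k8 c91 c573 c336 c337 c2813 c423 c4465 c4440 (k8 c2926 c4322 c16041 c2295 c953 c2372 c4340 c15895 (k8 c173 c1926 c2784 c16049 c16053 c4390 c1954 c6395 (k8 c63 c15585 c4446 c4387 c1092 c13580 c15548 c2970 (k8 c955 c568 c4386 c304 c338 c4389 c4388 c15502 (k8 c12021 c16101 c141 c4406 c1727 c247 c306 c1687 (k8 c1603 c4468 c11410 c16086 c11776 c7768 c7776 c377 (k2 c4570 c2108 k0))))))))) (by decide +kernel)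
def c16103 : PP 8 4 T 0x100000001000000040000000000040000100000000000001000000000000000000800 := rS 0x17420c941d109aa95024d5688688f5728f1cadd6a4f078dc1a853b9c6327b2ca0496bb4aa6d323161c4c7e1d15a5d166743c2036694e05c820202804326d2b14c26510aa7dc8918a0806442 (k8 c15950 c16097 c336 c16053 c4352 c16102 c15559 c4284 (k8 c4405 c4401 c4290 c15503 c9753 c255 c15891 c2293 (k8 c4461 c91 c573 c337 c2813 c423 c4465 c4440 (k8 c2926 c4322 c16041 c2295 c953 c2372 c4340 c15895 (k8 c173 c1926 c2784 c16049 c4390 c1954 c6395 c63 (k8 c15585 c4446 c4387 c1092 c13580 c568 c4386 c304 (k8 c338 c4389 c4353 c4348 c4388 c6781 c7465 c340 (k8 c2109 c1945 c1239 c2125 c7768 c377 c4474 c4452 (k4 c636 c2108 c811 c4120 k0))))))))) (by decide +kernel)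
def c16104 : PP 8 4 T 0x1000000060000000000040000100000000000001000000000000000000800 := rS 0x17140105ca0d7f442698d9e3c60b108a392783c6e0d59a14ee718c9ecb28125aed2a9b4c8c587131f87456974599d0f080d9a53817208080a010c9b4ac9f722462820191095710 (k8 c16103 c4415 c15950 c16097 c336 c16053 c4352 c16102 (k8 c15559 c15503 c9753 c255 c15891 c2293 c4461 c91 (k8 c573 c337 c2813 c423 c4465 c4440 c2926 c4322 (k8 c16041 c2295 c953 c2372 c4340 c15895 c173 c1926 (k8 c2784 c16049 c4390 c1954 c6395 c63 c15585 c4446 (k8 c4387 c1092 c13580 c15548 c568 c4386 c304 c338 (k8 c4348 c175 c341 c1711 c340 c15676 c9785 c381 (k8 c4474 c4399 c4452 c1254 c2108 c15693 c4120 c810 k0)))))))) (by decide +kernel)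
def c16105 : PP 8 4 T 0x1000000040000000000040000100000000000001000000000000000000800 := rS 0x17420c941d109aa9501d60a8868a4e20392783c6e0d59a14ee718c9ecb28125aee28954da6462c3898fc3a2b4ba2cce878406cd29c1005c820202804326d2b0c88453099442ae4 (k8 c16102 c4284 c4405 c4401 c4290 c15950 c16097 c15503 (k8 c9753 c255 c15891 c2293 c4461 c91 c573 c336 (k8 c337 c2813 c423 c4465 c4440 c2926 c4322 c16041 (k8 c2295 c953 c2372 c4340 c15895 c173 c1926 c2784 (k8 c16049 c16053 c4390 c1954 c6395 c63 c15585 c4446 (k8 c4387 c1092 c13580 c15548 c568 c4386 c304 c338 (k8 c4348 c16103 c4413 c16104 c2109 c4314 c597 c16086 (k8 c7768 c377 c4474 c4452 c636 c2108 c811 c4120 k0)))))))) (by decide +kernel)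
def c16106 : PP 8 4 T 0x40000000000000000001100000000000044000008004005405008 := rS 0x20c9a11 (k4 c342 c376 c4570 c2108 k0) (by decide +kernel)
def c16107 : PP 8 4 T 0x1000000040000000000000000100000000000000000000000000000000800 := rS 0x9a83548454110499d4786564c14a8a31327c2a2d7225d2a8745c21021b429ecceb30130cee694c874403f4d8ac32054e0c626320683c2e092c9b4025620c651e9138ad496bb278de2842 (k8 c15950 c16053 c4386 c338 c4390 c1954 c4389 c4387 (k8 c4352 c4388 c4446 c91 c15503 c15891 c9753 c63 (k8 c15502 c573 c304 c568 c16097 c4340 c173 c337 (k8 c2293 c255 c2295 c2784 c2372 c336 c953 c1926 (k8 c2813 c1092 c15895 c4461 c15548 c2926 c15585 c13580 (k8 c423 c6395 c4465 c4322 c4440 c16049 c16041 c16102 (k8 c4286 c4284 c15559 c16106 c934 c16105 c4406 c1727 (k8 c1646 c306 c1687 c1070 c7465 c16086 c7776 c7768 (k2 c4570 c377 (k1 c2108 k0)))))))))) (by decide +kernel)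
def c16108 : PP 8 4 T 0x800000001001000000040005000000040544001000100000000000001040904000080 := rS 0xaa5331a24ca3c881ce2eb8008fc0a594aa4cce0255855662d0e07c1256 (k8 c15503 c15502 c1065 c4466 c912 c16001 c648 c4445 (k8 c1018 c2924 c2996 c15518 c63 c526 c11031 c15891 (k8 c15815 c4361 c3002 c6781 c11342 c7044 c7172 c7153 (k2 c15794 c15659 (k1 c15796 k0))))) (by decide +kernel)
def c16109 : PP 8 4 T 0x1001000040000000000000040100000000000000000000000000001400000 := rS 0x9e239cd130d2a192222a47add6a994aa4d36a554a74d6b345a1d422263831faa7429c6327707970be25265157c79890c4f64b5d814b2330096c4e1c1087e1061488bc04563486d064f1b9082206058256314 (k8 c16053 c4350 c15502 c16107 c4462 c608 c15950 c4386 (k8 c338 c15637 c334 c13396 c15503 c1018 c8877 c4352 (k8 c880 c4465 c1065 c799 c4466 c872 c92 c15891 (k8 c6257 c63 c526 c4390 c1954 c1227 c228 c4469 (k8 c500 c15222 c4399 c4474 c2135 c10439 c14523 c244 (k8 c1887 c4446 c4387 c13580 c4558 c15627 c4463 c3416 (k8 c12418 c2767 c4440 c4322 c16001 c4442 c4344 c14588 (k8 c5936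 c2765 c2996 c15518 c1927 c4389 c4353 c4388 (k8 c16108 c4411 c227 c226 c15696 c556 c1648 c3584 (k2 c12535 c11480 k0)))))))))) (by decide +kernel)
def c16110 : PP 8 4 T 0x1001000040000000000000000100000000000000000000000000001400000 := rS 0x172491d1d4582b149ce2f114b31c18fd2e17d4e6f1283c99455f20e107925aec9e37308fc0a5908ac44e1c1087d2312188cc025b178080c09429ecd21b2b1c629193b82c84b3 (k8 c16001 c15950 c16107 c1887 c4446 c16053 c4387 c15503 (k8 c334 c13396 c1227 c13580 c15502 c4462 c1018 c8877 (k8 c92 c15891 c6257 c228 c4469 c4352 c1065 c799 (k8 c4466 c872 c4350 c608 c63 c526 c11031 c880 (k8 c4386 c338 c4390 c1954 c500 c4465 c15637 c15222 (k8 c4399 c4474 c244 c2135 c1020 c4558 c10439 c14523 (k8 c15627 c4463 c3416 c16109 c4336 c4360 c3001 c2769 (k4 c15601 c11783 c15600 c913 (k2 c368 c1046 (k1 c12094 k0)))))))))) (by decide +kernel)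
def c16111 : PP 8 4 T 0x1001000040000000000000040100000000000001000000000040001004000 := rS 0x8972283ac14c4893fb1da27d260328afd5f17d4e2537a3d6ebd5aa652a9308ac536274899d4a4b5daa49e37429ecd21b38c5232774eabcd6ab890c4665b0aacd868b3c1095a2f011cd0e16328045a1c1087c0a0605824b256 (k8 c15503 c63 c15502 c16107 c4462 c526 c1065 c799 (k8 c4466 c912 c15891 c9676 c16110 c1837 c1022 c1018 (k8 c8877 c4554 c15950 c1950 c2454 c3964 c16001 c648 (k8 c92 c6257 c228 c4469 c4445 c4442 c4346 c4344 (k8 c1887 c4446 c16053 c4387 c334 c13396 c1227 c13580 (k8 c4386 c338 c14588 c4390 c1954 c5936 c2924 c4352 (k8 c872 c2765 c4350 c608 c2996 c15518 c1927 c4389 (k8 c4354 c4353 c4388 c1020 c224 c4558 c10439 c2126 (k8 c15627 c4399 c4463 c4474 c1292 c15798 c15797 c12366 (k8 c9438 c8058 c4407 c1688 c11648 c4548 c16055 c15815 k0)))))))))) (by decide +kernel)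
def c16112 : PP 8 4 T 0x2000000000002800000000000000000000000000000400100000000000000000000000000000000000 := rS 0x14ebf (k2 c4399 c4453 (k1 c15623 k0)) (by decide +kernel)
def c16113 : PP 8 4 T 0x1001000040000000000000040100000000000000000000000040001000000 := rS 0x2327ca0293294e0aa3689515a8f5a8fd26675783cbe25029644e9163a645ac30b2ad3ab74a9328b12188cc025b17a6c38210f8080c0b0495896bb278de2842 (k8 c15950 c16053 c4386 c338 c4390 c1954 c15503 c15502 (k8 c16107 c4462 c1018 c1065 c799 c4466 c2765 c8877 (k8 c92 c15891 c6257 c228 c4469 c16112 c4474 c15518 (k8 c4353 c4344 c4445 c16110 c3964 c912 c1927 c15797 (k8 c4352 c872 c63 c526 c2135 c10439 c244 c4346 (k8 c2924 c2996 c11031 c4389 c4388 c4554 c16111 c15798 (k8 c4241 c4406 c9029 c1646 c1599 c2112 c6233 c1997 (k1 c12297 k0)))))))) (by decide +kernel)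
def c16114 : PP 8 4 T 0x1001000040000000000000040100000000000000000000000000001000000 := rS 0x4f4148e7f3a95026a132444548f5aa5526115899c1e5f12814b22748acdfa8226516243119804b62f4d870421f0101816092b12d764f1bc508416 (k8 c16110 c15950 c16053 c4386 c338 c4390 c1954 c15503 (k8 c15502 c16107 c4462 c1018 c1065 c799 c4466 c2765 (k8 c8877 c92 c15891 c6257 c228 c4469 c16112 c4474 (k8 c1990 c4306 c16001 c4352 c872 c63 c526 c2135 (k8 c10439 c244 c2924 c4350 c608 c2996 c15518 c4389 (k8 c4388 c16113 c4411 c227 c7295 c1639 c226 c11025 (k4 c554 c3584 c4406 c15088 (k1 c11480 k0)))))))) (by decide +kernel)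
def c16115 : PP 8 4 T 0x1001000040000000000000000100000000000000000000000000001000000 := rS 0xb9248e8ea2c638acfe2939c5e22960605966711f814b2115889d226f079328b12188cc025b17a6c38210f808ac4b5d93c6f14210181609 (k8 c15502 c16107 c4462 c15950 c16053 c4386 c338 c4390 (k8 c1954 c15503 c1018 c1065 c799 c4466 c2765 c8877 (k8 c92 c15891 c6257 c228 c4469 c16112 c4474 c244 (k8 c1020 c4352 c872 c4350 c608 c63 c526 c11031 (k8 c4387 c16001 c16110 c1991 c16114 c4336 c4360 c3001 (k8 c2769 c10049 c15601 c1447 c11783 c15600 c913 c368 (k2 c1046 c12094 k0))))))) (by decide +kernel)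
def c16116 : PP 8 4 T 0x2000000000002000040100000045100050100010144100000020080005040100000018 := rS 0x5c444fe5c5618c44d158adce2b5138703e09488bc4a471694452c76194d6656 (k8 c15503 c1187 c4290 c2054 c4289 c4402 c4405 c4286 (k8 c4404 c2135 c8877 c4352 c15502 c1065 c4466 c872 (k8 c4389 c4387 c4353 c4350 c15798 c14701 c5654 c2112 (k4 c792 c1458 c4338 c2121 (k1 c6781 k0))))) (by decide +kernel)
def c16117 : PP 8 4 T 0x1000000040000000000000000100000000000000000000000000001000000 := rS 0xfeb93244454b34b9cd92753e830761323bf5c85f539bc4a0f2651556af4ea1552a5891ec62698cadce2b525aec9e3719804b61b3b9080a594a845629b13870421f48c505e020302c1256 (k8 c15503 c15502 c16107 c4462 c1018 c8877 c16053 c4352 (k8 c1065 c799 c4466 c872 c2765 c4350 c608 c15518 (k8 c63 c526 c15950 c1887 c334 c92 c15891 c6257 (k8 c4386 c338 c4390 c1954 c4389 c4387 c4353 c4446 (k8 c13396 c228 c1227 c4469 c5936 c14588 c13580 c4344 (k8 c4346 c4445 c16112 c4474 c244 c2135 c1020 c4558 (k8 c10439 c16115 c15627 c4404 c4401 c4403 c4463 c1291 (k8 c498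 c10573 c1021 c16021 c1187 c16116 c4411 c227 (k2 c6781 c554 (k1 c2121 k0)))))))))) (by decide +kernel)
def c16118 : PP 8 4 T 0x1000000040000000000000000100000000000000000000000000000000000 := rS 0x1124e0c4f46b3cc24302f01014ee3303084171920908026d2d964ac09 (k8 c15502 c15503 c63 c92 c9753 c15891 c15950 c91 (k8 c4446 c16107 c799 c4462 c6257 c1887 c526 c1018 (k8 c8877 c16117 c4436 c1959 c5310 c4482 c7393 c1226 (k2 c4469 c4344 k0)))) (by decide +kernel)
def c16119 : PP 8 4 T 0x1400000000000000040000040000001400201105400000000000000000000100005814 := rS 0x5fa0cdea95e89022711a09c38231c8003f0d04ac46e17 (k8 c572 c1384 c623 c84 c4383 c270 c4461 c1113 (k8 c1298 c4466 c871 c4470 c7095 c607 c4467 c3012 (k4 c3477 c10992 c4570 c4566 (k1 c2122 k0)))) (by decide +kernel)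
def c16120 : PP 8 4 T 0x1400000001000000040000000000001400001101400000080000140000400100005804 := rS 0x3f17a711a46072411387808593daec6e8c (k8 c16118 c1384 c15382 c703 c535 c16119 c575 c2312 (k8 c1104 c1114 c4472 c4470 c7095 c3104 c15611 c15660 k0)) (by decide +kernel)
def c16121 : PP 8 4 T 0x200000000000080000000000000000002804 := rS 0x178007002c351e91 (k8 c129 c100 c4383 c2550 c568 c4461 c4135 c2538 k0) (by decide +kernel)
def c16122 : PP 8 4 T 0x1000000001000000040000000000001000000000000000080000040002000105004804 := rS 0x1084005cf29b898bcee0922a141a8c (k8 c16118 c16121 c6224 c438 c84 c6033 c61 c4441 (k4 c1966 c14518 c572 c16120 (k2 c4465 c4439 k0))) (by decide +kernel)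
def c16123 : PP 8 4 T 0x1400000001000000040000040000001000001000401100000000040005000100005814 := rS 0x3ca06309b84264386b0fa30f62e (k8 c4469 c703 c16118 c270 c1839 c4466 c6171 c4479 (k4 c765 c4488 c4439 c4447 (k1 c16119 k0))) (by decide +kernel)
def c16124 : PP 8 4 T 0x1400000001001000040000000000000000000000000000004000040004040105004804 := rS 0x1f8bd388d133181c904f2271e85c3c04171ecda693b82576374283518312d1653a45 (k8 c438 c15070 c535 c4476 c16122 c16118 c16121 c6224 (k8 c1384 c15382 c84 c6033 c13396 c5889 c703 c4469 (k8 c16123 c575 c2552 c274 c2312 c14867 c14193 c1114 (k4 c4472 c1840 c4470 c7095 (k2 c1119 c15611 (k1 c15660 k0)))))) (by decide +kernel)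
def c16125 : PP 8 4 T 0x1000000001001000040000000000100010000004001400004000000001040105004814 := rS 0xce9f638548e3c2013a8a7d51934c2813792c5a491204468272f99438231c8003f0d04ac46e5d3483566632d1656a8c (k8 c16118 c1388 c535 c4476 c842 c665 c16121 c13396 (k8 c1338 c1384 c623 c84 c4383 c270 c4461 c1113 (k8 c1298 c4466 c491 c2538 c871 c4470 c607 c4467 (k8 c7307 c2920 c9597 c10992 c12056 c12807 c284 c1464 (k8 c8975 c15705 c4474 c1492 c14191 c8078 c327 c330 (k2 c11776 c4555 (k1 c9172 k0))))))) (by decide +kernel)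
def c16126 : PP 8 4 T 0x1000000001000000040000000000000100001000400000090000140044000000001820 := rS 0x7e9c469181c9044e790f1ed7a8c (k8 c16118 c1119 c703 c575 c15117 c2312 c1103 c1114 (k4 c4472 c4470 c7095 c15660 (k1 c15611 k0))) (by decide +kernel)
def c16127 : PP 8 4 T 0x1000000001001000040000000000000000000000000000004000040004040105004804 := rS 0x43b44aa530a8a0c63c1699cca1c4a0003e0552a64d6af892ac6285069686e8c2c9ecda693b8253a45 (k8 c438 c15070 c84 c6033 c13396 c5889 c703 c535 (k8 c16118 c1384 c4476 c16121 c6224 c16122 c14076 c16124 (k8 c4346 c4442 c4443 c4444 c16126 c270 c4461 c16125 (k8 c4466 c491 c2727 c2854 c763 c2722 c762 c646 (k4 c332 c1598 c1760 c7313 (k1 c15875 k0)))))) (by decide +kernel)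
def c16128 : PP 8 4 T 0x200000000000008000000000000100000100 := rS 0xe87cc291 (k4 c129 c880 c1065 c7472 (k1 c4466 k0)) (by decide +kernel)
def c16129 : PP 8 4 T 0x100000000001000000100004100040050000000014054000000001020000000040000 := rS 0xe8731fc1172b5 (k4 c7883 c5821 c4478 c1181 (k2 c4408 c15732 (k1 c11468 k0))) (by decide +kernel)
def c16130 : PP 8 4 T 0x2000001000040040000000044000000000000055500000000000004800201000 := rS 0x118fc4950c14227d (k8 c4379 c4300 c4308 c11967 c366 c15704 c9172 c1311 k0) (by decide +kernel)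
def c16131 : PP 8 4 T 0x200002001001000050040000000040000000000000055500000041002000808001800 := rS 0x186531f854765149a7d5645139045e1e (k8 c15508 c61 c1104 c2317 c2235 c4415 c4414 c4413 (k4 c1916 c1101 c16130 c398 (k2 c414 c9009 (k1 c15748 k0)))) (by decide +kernel)
def c16132 : PP 8 4 T 0x1000000001001000040000000000000040000000000000000000040002040108001800 := rS 0xfc77174fa50507f889bd921151984befc638896e25329c468633384c723d008104e2d68878d82f588dcba5a2b8251859 (k8 c535 c16118 c84 c16128 c4476 c1338 c1384 c623 (k8 c61 c295 c15508 c300 c2362 c2317 c294 c687 (k8 c274 c1114 c2680 c655 c12307 c4470 c7095 c7854 (k8 c15534 c3103 c1100 c7786 c15611 c576 c615 c4241 (k8 c4300 c4305 c4378 c16131 c6629 c4468 c16129 c1571 (k4 c4418 c1577 c4259 c4471 k0)))))) (by decide +kernel)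
def c16133 : PP 8 4 T 0x1001000000011000000001554010000002080000000000005140000000000 := rS 0x2b5a2c31405222ab (k8 c14076 c4334 c4555 c4468 c4958 c455 c2750 c13950 k0) (by decide +kernel)
def c16134 : PP 8 4 T 0x100000000001000000100004100040050000000014054000000000020040000040000 := rS 0x3d (k2 c7465 c16129 k0) (by decide +kernel)
def c16135 : PP 8 4 T 0x1001000040111004000001554000010014005100041004065146008010802 := rS 0x61b447ac623a7e201329ab42a675885d566c44994bea3 (k8 c1464 c2538 c491 c2660 c686 c14076 c170 c623 (k8 c16133 c646 c944 c414 c14194 c16134 c4414 c1371 (k4 c9172 c330 c460 c15480 (k1 c13950 k0)))) (by decide +kernel)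
def c16136 : PP 8 4 T 0x1000000001001000040000000000000040000000000000000000040004040101004814 := rS 0x1fd8e9f398eccf174a324fac162a8cc2fc3793d6a3f5ba4e306316a74922408afce2344d9e44eb32f994d2990e11446390007e1a7b588dcbb0918834b4590d15c128c (k8 c16118 c84 c16128 c16127 c535 c4476 c16121 c16132 (k8 c4316 c1338 c1384 c623 c703 c4383 c270 c4461 (k8 c1113 c1298 c13923 c4466 c6171 c757 c491 c2538 (k8 c2642 c871 c2581 c15525 c4470 c7095 c15907 c607 (k8 c4467 c7307 c15070 c2920 c2722 c4149 c1030 c3011 (k8 c3192 c7883 c1491 c10992 c4463 c12807 c1464 c4370 (k8 c4450 c8975 c4305 c16135 c4418 c2727 c1577 c1616 (k4 c1698 c1452 c10049 c9121 k0)))))))) (by decide +kernel)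
def c16137 : PP 8 4 T 0x1000000001001000040000000000000040000000000000000000040004040101004804 := rS 0x1289a84a2a0c228153984be4f7e0884a711a44872413489c3c6d00810626b8485c1a1a2d15cba5904c346e8c (k8 c16118 c1384 c4383 c84 c535 c1338 c16128 c4476 (k8 c16127 c16121 c170 c4316 c2559 c16132 c16136 c54 (k8 c695 c575 c2312 c15527 c7115 c1114 c4479 c4470 (k8 c7095 c15534 c1100 c15611 c1492 c576 c615 c15930 (k8 c8086 c4300 c4306 c15786 c15627 c374 c4474 c1319 k0))))) (by decide +kernel)
def c16138 : PP 8 4 T 0x1000000001000000040000000000000000001000401000004000040002000100001414 := rS 0x1fa585e96cf2348c114f6711ca74be270f104001d1ba32269b (k8 c1966 c4441 c16118 c1384 c10867 c4461 c1913 c4466 (k8 c871 c488 c15543 c1114 c1385 c7035 c297 c5755 (k4 c4470 c14518 c15535 c3104 (k2 c4476 c15660 (k1 c15568 k0))))) (by decide +kernel)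
def c16139 : PP 8 4 T 0x1000000001000000040000000000000000000000001000004000040002000105005404 := rS 0x17ca941a04f6bd1a091626f4e9e4220684070b0710485cb6043b9a45f135da6d1885 (k8 c6224 c16118 c1966 c1390 c4441 c61 c13396 c7751 (k8 c16138 c574 c533 c263 c1386 c4476 c6846 c4465 (k8 c4462 c15892 c7034 c15626 c3007 c3010 c1028 c1027 (k4 c3012 c4320 c4439 c4570 (k2 c3477 c2122 (k1 c4566 k0)))))) (by decide +kernel)
def c16140 : PP 8 4 T 0x1000000001000000040000000000000000000000001000000000040002000105005404 := rS 0x68081c9586e8c (k4 c16118 c1384 c16139 c3064 (k2 c16128 c4470 (k1 c1060 k0))) (by decide +kernel)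
def c16141 : PP 8 4 T 0x1000000001000000040000000000000000000000001100004000040002000100002414 := rS 0x2f4e2797e0d230453d984729d13a143c41000746e9b2ea30ef13 (k8 c4441 c7751 c16118 c3273 c1966 c1384 c10867 c4461 (k8 c1913 c4466 c5976 c9118 c15543 c1114 c503 c7035 (k8 c297 c5755 c4470 c8265 c14518 c1304 c3104 c15660 k0))) (by decide +kernel)
def c16142 : PP 8 4 T 0x1000000001000000040000000000000000000000001100004000040002000100002404 := rS 0x9438092d804088c (k8 c16118 c16141 c54 c2550 c263 c6846 c1368 c1028 k0) (by decide +kernel)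
def c16143 : PP 8 4 T 0x1000000001000000040000000000000000000000001000000000040002000105004404 := rS 0x10dc012b0311869 (k8 c13396 c16118 c16140 c16142 c15891 c1067 c4461 c9677 k0) (by decide +kernel)
def c16144 : PP 8 4 T 0x1000000001001000040000000000000000000000000000004000040004040105005414 := rS 0xb13212a68b20d02b959aa4c2fc3a844e6791f93d4a580331c44bd5b96c12bb5a8d0e2391e97c4e1558974d61e000746e8c348c4da85 (k8 c6224 c5889 c16143 c13396 c16118 c1384 c10867 c4461 (k8 c4466 c493 c753 c12236 c15621 c871 c488 c274 (k8 c1114 c1385 c4470 c7883 c1310 c1060 c15535 c3103 (k8 c3104 c1100 c7786 c4462 c4476 c1302 c3465 c11031 (k8 c501 c15577 c608 c499 c15568 c4213 c14588 c11612 (k8 c11342 c4380 c4306 c8860 c2119 c15721 c773 c4465 (k1 c1991 k0))))))) (by decide +kernel)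
def c16145 : PP 8 4 T 0x1000000000000800014001554000004000000000000040005000004200080 := rS 0x186c162b4474b2 (k4 c648 c649 c454 c1250 (k2 c1581 c3036 (k1 c13950 k0))) (by decide +kernel)
def c16146 : PP 8 4 T 0x1000000001001000040000000000000040000000000000004000040004040105005004 := rS 0x224c61532c415a178ba1cd6af844497d1941a04f69d5aaa576fc4a9e4e6b75e91468b149a65366f3b818b0710e024b68b33954020486a30d2ab189b41685 (k8 c6224 c16137 c5889 c16143 c14076 c13396 c16118 c4383 (k8 c16144 c54 c266 c655 c13509 c574 c263 c6846 (k8 c1386 c4476 c4462 c6033 c3007 c765 c1032 c1030 (k8 c3010 c1027 c3234 c3012 c3011 c3008 c541 c15542 (k8 c4480 c1390 c1508 c7883 c15569 c14312 c4380 c4306 (k8 c15660 c2122 c4488 c4482 c9441 c4442 c4440 c15721 (k8 c532 c13185 c4487 c4412 c16145 c12253 c7030 c2120 k0))))))) (by decide +kernel)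
def c16147 : PP 8 4 T 0x1000000001001000040000000000000040000000000000000000040004040105005004 := rS 0x68081c9586e8c (k4 c16118 c1384 c16146 c3064 (k2 c16128 c4470 (k1 c1060 k0))) (by decide +kernel)
def c16148 : PP 8 4 T 0x1000000000001000040000000000000000200000001000004000000000040100006414 := rS 0xfd7075031cd667f2c1be08c75b96ce2b57e0d0c239138f5621e000746e5d (k8 c3273 c1384 c10867 c4461 c4466 c12236 c274 c9118 (k8 c1114 c503 c4470 c8265 c7883 c1304 c15535 c3103 (k8 c7786 c8851 c4378 c4476 c4313 c4312 c4408 c486 (k4 c2432 c15745 c11031 c11342 k0)))) (by decide +kernel)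
def c16149 : PP 8 4 T 0x1000000000001000040000000000000000200000001000004000000000040100006404 := rS 0x4a1c0496c0204 (k4 c16148 c54 c2550 c263 (k2 c6846 c1368 (k1 c1028 k0))) (by decide +kernel)
def c16150 : PP 8 4 T 0x1000000000001000040000000000000000200000001000000000000000040100006404 := rS 0x21b80256 (k4 c16149 c15891 c1067 c4461 (k1 c9677 k0)) (by decide +kernel)
def c16151 : PP 8 4 T 0x1000000001001000040000000000000040000000000000000000040004040105004004 := rS 0x61b5180b (k4 c16137 c16118 c5889 c16147 (k1 c16150 k0)) (by decide +kernel)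
def c16152 : PP 8 4 T 0x1000000000000000004001554010008000040000000060005000000200080 := rS 0xc161b155ad1328e96505 (k8 c4308 c648 c649 c2516 c455 c4903 c3046 c3034 (k2 c1581 c13950 k0)) (by decide +kernel)
def c16153 : PP 8 4 T 0x1000000001001000000000000000000040200000001000004000040004040108005404 := rS 0x182c5618f570b3634108e134f99620ad8b9fc2aaf3eb2624b524bf112403d254ea1139adc682458a4d326f0327438092c0dcd6712a99d36ab18810025b (k8 c15894 c5876 c4461 c15526 c14076 c6867 c655 c266 (k8 c1386 c559 c1384 c4476 c263 c10353 c1235 c4462 (k8 c3007 c1032 c1030 c3010 c1028 c1027 c3011 c3008 (k8 c15892 c2484 c15542 c688 c689 c2661 c4480 c282 (k8 c7883 c7035 c4305 c4379 c4346 c16152 c7517 c15634 (k8 c13185 c4487 c4412 c4414 c530 c1371 c4464 c2107 (k4 c4312 c15732 c330 c1211 (k2 c3048 c1853 (k1 c2127 k0))))))))) (by decide +kernel)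
def c16154 : PP 8 4 T 0x1000000001001000040000000000000040000000000000000000040004040101004004 := rS 0x68081c9581a6d18810025b0d02c6e8c (k8 c16118 c1384 c16137 c16151 c15894 c5876 c4461 c15526 (k4 c7462 c16150 c16153 c3064 (k2 c16128 c4470 (k1 c1060 k0)))) (by decide +kernel)
def c16155 : PP 8 4 T 0x1000000001000000040000000000000000000000000000004000080040000005005814 := rS 0x4b26a0d7624088d04e231c800621f86a309e8540c202e41 (k8 c91 c573 c4465 c4439 c6224 c338 c16118 c4383 (k8 c270 c15625 c4461 c1113 c1298 c871 c4470 c607 (k4 c4467 c3350 c4570 c284 (k2 c1954 c2108 k0)))) (by decide +kernel)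
def c16156 : PP 8 4 T 0x1000000001000000040000000000000100000000000000014000080044000005004804 := rS 0x454e612fa95f822388d0722f138743c01022053a85841b632a90b9041a8c349dcd65a (k8 c4476 c581 c1886 c845 c16118 c16121 c91 c573 (k8 c1508 c4446 c5889 c4465 c6224 c968 c4439 c16155 (k8 c54 c575 c758 c2312 c1953 c1114 c4470 c7095 (k8 c1100 c15611 c7884 c576 c766 c772 c4300 c14495 k0)))) (by decide +kernel)
def c16157 : PP 8 4 T 0x1000000001000000040000000000000000000000000000000000080004000101004804 := rS 0x743e1a2d1646f194c95c128c (k8 c16118 c236 c16128 c1927 c4446 c1384 c535 c4476 (k4 c16156 c2208 c4149 c4466 k0)) (by decide +kernel)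
def c16158 : PP 8 4 T 0x1000000000000000000000000000000000001000040000005406405405000 := rS 0x4a (k2 c16057 c1374 k0) (by decide +kernel)
def c16159 : PP 8 4 T 0x1000000001001000040000000000000040000000000000000000000004040101004004 := rS 0x48273085c461c020bc1a1f2c004d26d18818b61b0595c9e09212446e8c (k8 c16118 c1384 c129 c16154 c236 c338 c16128 c16157 (k8 c334 c12637 c4462 c14466 c5889 c13396 c5782 c4476 (k8 c1098 c16150 c15900 c4461 c10353 c1298 c533 c2598 (k2 c872 c1028 (k1 c16158 k0))))) (by decide +kernel)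
def c16160 : PP 8 4 T 0x2000000001000000040000000001001400001104400400000000140002000000014100 := rS 0x5f85cf313 (k4 c4441 c14518 c1910 c4566 (k1 c14520 k0)) (by decide +kernel)
def c16161 : PP 8 4 T 0x1000040000000400040000000010000015500001002040144000010000 := rS 0x674fb1c2a47 (k4 c8078 c327 c330 c11776 (k2 c4555 c9172 k0)) (by decide +kernel)
def c16162 : PP 8 4 T 0x2000000001001000040000000000001000000000000000000000040000040105004814 := rS 0x178c1047a313ea0552a330bf0686316a6c92240889d666b3287046000fc346e7b229dcba850697cb4592b8251871 (k8 c4387 c16118 c84 c16128 c535 c4476 c576 c568 (k8 c6224 c1338 c6033 c438 c703 c1384 c4383 c270 (k8 c4461 c1298 c4466 c491 c2540 c2642 c871 c607 (k8 c4467 c7307 c765 c2920 c2722 c1027 c4463 c12807 (k8 c1464 c3477 c4380 c4379 c16160 c16161 c14193 c4472 (k2 c573 c12954 k0)))))) (by decide +kernel)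
def c16163 : PP 8 4 T 0x2000000000000000001200400000000000004000000514000000150012000000200020 := rS 0x89 (k2 c637 c15867 k0) (by decide +kernel)
def c16164 : PP 8 4 T 0x2000000001001000040000000000000000000000000004014000040046040005004820 := rS 0xe517440f95eb965a858ec91db348e9324a994b454fc40fea31208c984f8292cc03508051fabf8c1055b1386aec72bd5a9b4d20d3b824ba8c33a2d66272f9c43a011e9945a1e099acf24543c202e5a (k8 c4476 c2552 c4465 c4440 c438 c14867 c580 c12274 (k8 c575 c2359 c7854 c274 c54 c758 c4387 c576 (k8 c351 c2645 c13509 c655 c16118 c1338 c84 c6033 (k8 c568 c13396 c5889 c4389 c4354 c4348 c4390 c4383 (k8 c4441 c2047 c1913 c4472 c4369 c12954 c14170 c15825 (k8 c15611 c15573 c15707 c4308 c446 c2114 c1297 c9120 (k8 c936 c672 c4478 c6233 c4451 c1935 c285 c7307 (k8 c4413 c1371 c5541 c1101 c16163 c407 c5930 c8863 (k4 c7908 c908 c15877 c15749 (k2 c4356 c7172 (k1 c1081 k0))))))))))) (by decide +kernel)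
def c16165 : PP 8 4 T 0x1001000040000000000000040000000000000000000040004040105004804 := rS 0x4aa4ceb104441428c54dc6082ab18a1cd66531c20f22d1e85d661e09a2cce044e968ee57229ecb2091ba322869 (k8 c13396 c16159 c16118 c1384 c84 c535 c703 c438 (k8 c16128 c6033 c4476 c15070 c16162 c655 c13509 c12274 (k8 c575 c2645 c2552 c274 c2359 c14867 c4465 c12307 (k8 c7854 c580 c4440 c16164 c14076 c14193 c4472 c4448 (k8 c4370 c14170 c4308 c15824 c4478 c596 c4413 c5073 (k1 c15039 k0)))))) (by decide +kernel)
def c16166 : PP 8 4 T 0x2000000000000000000000000000000000000000000000000000000000000000020400 := rS 0x38256239 (k4 c4348 c4350 c344 c608 (k1 c4462 k0)) (by decide +kernel)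
def c16167 : PP 8 4 T 0x2000002001000000000000000000001000001000000000000000040002000015000000 := rS 0x5f4608a41 (k4 c1913 c297 c4472 c15740 (k1 c4369 k0)) (by decide +kernel)
def c16168 : PP 8 4 T 0x2000002001001000000000000400000000200001140400500000005025000085001000 := rS 0x2c4c84a9a2ca95c93d4ac7112ed6ebd38ad4da6942a050661 (k8 c4302 c4306 c4380 c6224 c13396 c5889 c4389 c4387 (k8 c4354 c4353 c4390 c1100 c7786 c1302 c3465 c11342 (k4 c14588 c8860 c2119 c15721 (k2 c773 c4465 (k1 c1991 k0))))) (by decide +kernel)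
def c16169 : PP 8 4 T 0x2000002001001000000000000000000000200000000400504000040005040085101500 := rS 0xf6bf228d56675399e47e580316ceebb58af4e28540a0cde3d (k8 c274 c4378 c4306 c4380 c6224 c4387 c4354 c4350 (k8 c4390 c6033 c12637 c4462 c4476 c11031 c501 c15577 (k4 c499 c11612 c16168 c8444 (k2 c6330 c14312 (k1 c2122 k0))))) (by decide +kernel)
def c16170 : PP 8 4 T 0x2000000001001000000100000000001000000010004000014001200040040181005602 := rS 0x8ec72a41476675c9d45a3f588e56e715a8f46a5a (k8 c4476 c1059 c274 c4389 c4387 c4353 c4348 c4350 (k8 c13568 c392 c11627 c7514 c15645 c15650 c15643 c15860 (k2 c250 c1603 (k1 c15802 k0)))) (by decide +kernel)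
def c16171 : PP 8 4 T 0x2000002001001000000000000000000000200000000000104000040004040105005414 := rS 0x2fc8a49119046a59041ac629d2f89c2a1e000761a3742b24de7d (k8 c4379 c4378 c4305 c6224 c1384 c4383 c10867 c4461 (k8 c4466 c15621 c871 c488 c15543 c16167 c493 c16169 (k8 c1106 c1059 c15539 c1297 c7307 c16170 c6330 c15740 k0))) (by decide +kernel)
def c16172 : PP 8 4 T 0x1001000040000000000000040000000000000004000040004040105005004 := rS 0x224c6650ac415a178ba1d566b18c215f124cc657c7b4eaa52a451a091269b399e438063b960125b33954020437a0d02fc42c3518bb5baf4e2b52e8441714 (k8 c16159 c16165 c16166 c12183 c4389 c4387 c4354 c4353 (k8 c4390 c16118 c4383 c6224 c4463 c4380 c4306 c4378 (k8 c16171 c54 c266 c655 c574 c263 c4476 c6033 (k8 c4462 c6846 c501 c15577 c765 c1030 c1028 c1027 (k8 c3234 c15542 c3477 c15569 c14312 c7055 c15660 c3016 (k8 c4566 c9441 c12619 c4441 c4442 c4445 c4440 c15721 (k8 c532 c13185 c4487 c16145 c4412 c12253 c7030 c15819 k0))))))) (by decide +kernel)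
def c16173 : PP 8 4 T 0x2000000001000000040000000000000000000000001000104000040002000105002414 := rS 0x12d0083121bc0c5e2c2fcf27b7e986309d13a14821e000761a37462ed6271348be269b (k8 c1966 c4441 c61 c13396 c4387 c4350 c4390 c16118 (k8 c1384 c4383 c10867 c4461 c4466 c1913 c5976 c9118 (k8 c15543 c5755 c503 c16167 c7035 c4447 c4369 c15573 (k8 c4477 c486 c1108 c489 c2436 c15811 c1374 c6395 k0)))) (by decide +kernel)
def c16174 : PP 8 4 T 0x200000000000004000000000000100002020 := rS 0x1c12824b601 (k4 c54 c2550 c263 c1368 (k2 c6846 c1028 k0)) (by decide +kernel)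
def c16175 : PP 8 4 T 0x2000000000001000000100000000000000000000105000000000005020000080002002 := rS 0x5cc118eb1 (k4 c4350 c7786 c8851 c11342 (k1 c15643 k0)) (by decide +kernel)
def c16176 : PP 8 4 T 0x2000000001001000040100000000000000000000001400004000040000040095006502 := rS 0x10a8184319271823d0d3e838b1f8fb052f28c92bf3dae44823228d5666716a54ea733c8fcb06f0316cef0d462ed62b738ad4d211328547a27 (k8 c9118 c274 c15621 c491 c16166 c13396 c4389 c4387 (k8 c4353 c4350 c4390 c16118 c4383 c6033 c12637 c4462 (k8 c10992 c4476 c11031 c501 c15577 c499 c15532 c392 (k8 c8324 c11612 c16175 c8444 c1297 c9120 c7514 c14312 (k8 c6330 c7307 c11410 c1367 c15643 c3346 c2121 c15708 (k8 c2436 c6237 c4392 c3351 c15692 c7994 c4473 c15766 (k2 c3418 c4321 (k1 c15717 k0)))))))) (by decide +kernel)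
def c16177 : PP 8 4 T 0x1001000040000000000000040000000000000004000040004040105004004 := rS 0x242f8d4b45904324c227359943c31000740a0c86a30e26d2e8441714 (k8 c16159 c16165 c16166 c12183 c5889 c4387 c16118 c4383 (k8 c16172 c16174 c10867 c4461 c16173 c4466 c491 c493 (k8 c9118 c503 c7308 c16176 c1106 c4476 c15535 c576 (k2 c9120 c1367 k0)))) (by decide +kernel)
def c16178 : PP 8 4 T 0x1001000040000000000000040000000000000000000040004040105004004 := rS 0x1afd021b802560882d1914 (k8 c16159 c16118 c16165 c16166 c16177 c15891 c1067 c4461 (k2 c4378 c9677 (k1 c4463 k0))) (by decide +kernel)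
def c16179 : PP 8 4 T 0x1000000040000000000000000000000000000004044080000000005005814 := rS 0x13506240889c46001887e1a8c4085c8285 (k8 c6224 c91 c573 c6395 c16118 c4383 c270 c15625 (k8 c4461 c1298 c871 c607 c4467 c4570 c284 c2108 k0)) (by decide +kernel)
def c16180 : PP 8 4 T 0x1000000000000000100000001000040100000000800000045410001555500021000004004000000000 := rS 0x2255eca6328156cd (k8 c2063 c13092 c15887 c4212 c413 c15521 c2024 c15749 k0) (by decide +kernel)
def c16181 : PP 8 4 T 0x2000000001001000040000000001100000000000000414500044001004440015454924 := rS 0x755c8fc2b04248d68aa6261f448c930a0df86f589b4d28142834e28b43c20ce27 (k8 c351 c655 c4465 c4440 c4322 c4387 c568 c6224 (k8 c6395 c13396 c5889 c4350 c10992 c4463 c4570 c614 (k8 c10573 c15881 c4379 c2108 c2119 c15705 c1370 c282 (k4 c16180 c4308 c398 c7514 (k2 c11468 c15643 k0))))) (by decide +kernel)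
def c16182 : PP 8 4 T 0x2010100000001000000000000410041000044004001554410001081050002080060000 := rS 0x1456620910c84ab18eab91d8fd264760c413eab1cadd6b131829534bb (k8 c4390 c277 c1970 c276 c4441 c4389 c4353 c4348 (k8 c13092 c6233 c4478 c14373 c1371 c4413 c405 c1101 (k8 c7514 c11468 c2113 c5073 c407 c11210 c636 c637 (k2 c4452 c5541 k0)))) (by decide +kernel)
def c16183 : PP 8 4 T 0x1000000000000010000810054000001154010000000000140000000000 := rS 0x50c088a4954af (k4 c868 c11210 c11533 c4415 (k2 c1972 c4468 (k1 c3517 k0))) (by decide +kernel)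
def c16184 : PP 8 4 T 0x2000000001001000040000000000000000000000000000000000080004040105004804 := rS 0x1dc5d283f0aa260849518906a607e8414a6531ab45e9a168f4601d598782667008110e8b35a74bf082d1742e7b069661a71369a4824f1b92d765704aa5328c (k8 c16118 c1927 c1508 c236 c16128 c4390 c1954 c1384 (k8 c338 c91 c13396 c5889 c4387 c4383 c535 c568 (k8 c702 c573 c1338 c4476 c4465 c576 c968 c581 (k8 c4322 c4440 c16179 c54 c655 c12274 c575 c2645 (k8 c758 c276 c274 c2359 c277 c1953 c2047 c12307 (k8 c7854 c1970 c16181 c4300 c4477 c15611 c615 c936 (k8 c282 c16182 c4314 c4308 c398 c16183 c4418 c1577 (k1 c4471 k0)))))))) (by decide +kernel)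
def c16185 : PP 8 4 T 0x1001000040000000000000040000000000000000000000004040105004004 := rS 0x48270688c2e610e0103e2f2c00462062d84416572782484691ba316314 (k8 c16159 c4350 c16118 c1384 c13396 c16178 c236 c338 (k8 c16128 c16184 c16166 c12637 c4462 c14466 c5782 c4476 (k8 c15900 c1098 c4461 c10353 c616 c533 c1298 c16174 (k2 c350 c1028 (k1 c16158 k0))))) (by decide +kernel)
def c16186 : PP 8 4 T 0x1001000040000000000000040000000000000000000040004040101004814 := rS 0x1283d3e93d92c162a8df86f5f98627181f8d1266316a74922408a6cf22759994d26c4c8708a23000c43f0d1b8e56f090d1ec1a5d2f968b25704a30e314 (k8 c16159 c4387 c16118 c84 c16128 c535 c4476 c576 (k8 c1338 c568 c703 c16185 c4316 c4353 c4348 c1384 (k8 c4383 c270 c294 c4461 c1298 c13923 c4466 c6171 (k8 c686 c757 c491 c2642 c871 c2581 c15525 c607 (k8 c4467 c7307 c15070 c2920 c2722 c1030 c1027 c3192 (k8 c4149 c4342 c12807 c15907 c10992 c4463 c1464 c7718 (k4 c4450 c7308 c1491 c4379 (k2 c16161 c16135 (k1 c763 k0))))))))) (by decide +kernel)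
def c16187 : PP 8 4 T 0x2001001000040100004100000040000000014041000000040002045188050800 := rS 0x7e3b8ba7d28283fc4546c7110d21a0d2e97cc63d2d164ae09461945ad1 (k8 c300 c2359 c7854 c16118 c84 c16128 c535 c4476 (k8 c274 c12307 c576 c1338 c568 c4383 c9120 c4467 (k8 c7786 c4241 c16131 c6629 c4468 c16129 c1571 c4418 (k2 c1577 c4259 (k1 c4471 k0))))) (by decide +kernel)
def c16188 : PP 8 4 T 0x1001000040000144100000040000000010041000000050102044198054800 := rS 0x12c6a2427aa57e79228bc6e8c849ec9a6f04bf01ac9 (k8 c10573 c568 c4463 c84 c10992 c374 c703 c4316 (k8 c16118 c1384 c61 c2235 c14518 c15907 c1507 c299 (k4 c16187 c1370 c1374 c2114 k0))) (by decide +kernel)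
def c16189 : PP 8 4 T 0x1000000000000800002001000000040000000000000000000000000101500010010000005008001001 := rS 0x252109ea71a2302f09 (k8 c4316 c170 c16118 c9120 c15930 c1492 c15627 c4474 (k1 c1319 k0)) (by decide +kernel)
def c16190 : PP 8 4 T 0x1100001001000000000000404001040010000001554000000055400000000040800 := rS 0x21d16773c46488c14ac598675049ed5e99892b52710 (k8 c4478 c4413 c6230 c4479 c4443 c4346 c703 c84 (k8 c11468 c9009 c4471 c5073 c4420 c14146 c15766 c439 (k4 c1089 c4632 c1964 c2120 k0))) (by decide +kernel)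
def c16191 : PP 8 4 T 0x1002001001000000000000404001040010000011554404080041000000080200820 := rS 0x1168729b059f18501cc8a748b8f8121320abe24ad1da4e2105 (k8 c4308 c4478 c4413 c1101 c6230 c4479 c4346 c7115 (k8 c12274 c84 c16190 c4356 c399 c15765 c1081 c10491 (k4 c4472 c1794 c4450 c421 (k2 c7043 c719 (k1 c2120 k0))))) (by decide +kernel)
def c16192 : PP 8 4 T 0x2001001000040000000404041040000000011454504081041000002088210820 := rS 0xa767b30a6d045a218c474fab60a2741984faa952c4a1269 (k8 c15527 c4316 c4479 c4444 c4345 c4379 c614 c638 (k8 c351 c4308 c6230 c6233 c1371 c9172 c16191 c187 (k4 c679 c415 c461 c1520 (k2 c2066 c8425 k0)))) (by decide +kernel)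
def c16193 : PP 8 4 T 0x2000000001001000040000000000000040000000000000000000040004040109014820 := rS 0x2e4eb041f8549c4b24a8c6a24a2a96249d36aac628164985f86f4193576b11cadd7a0d2e954ceb31397ce21d0098c7a651684c826984878b4592b825186b (k8 c559 c16118 c84 c16128 c535 c4476 c575 c4316 (k8 c15527 c7115 c12274 c2359 c7854 c274 c12307 c54 (k8 c758 c4387 c576 c351 c2645 c655 c12210 c1338 (k8 c568 c4354 c4353 c4348 c4350 c4390 c374 c638 (k8 c10992 c4463 c614 c10573 c4380 c16188 c14076 c7462 (k8 c1233 c4479 c4444 c15786 c16189 c1370 c1464 c282 (k8 c1373 c4474 c16192 c398 c4464 c11468 c7514 c15643 k0))))))) (by decide +kernel)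
def c16194 : PP 8 4 T 0x2000000001000000000000000000000000000000000000000010050052002000020800 := rS 0x5f92c9e4517aec72bd (k8 c4354 c4348 c4390 c61 c2235 c2237 c1374 c6330 (k1 c2114 k0)) (by decide +kernel)
def c16195 : PP 8 4 T 0x2000000001001000040000000004000000000000001406000040040050040088060820 := rS 0xc714b25a08882a1e961460a562c3b459d572c31f9dca6788cb2c89445faed62395ead42e093d99c7a6516a74624d20abc96a589424d224 (k8 c615 c15527 c4316 c4479 c4444 c1373 c4346 c7115 (k8 c2218 c16194 c1233 c2359 c7854 c274 c655 c703 (k8 c84 c170 c4389 c4354 c4348 c4350 c4390 c8901 (k8 c4474 c2114 c4455 c4364 c439 c2387 c1089 c15765 (k8 c1209 c7328 c11468 c4632 c13920 c4471 c4418 c4420 (k8 c14144 c15656 c1964 c4308 c4485 c679 c2617 c1760 (k2 c2428 c15866 k0))))))) (by decide +kernel)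
def c16196 : PP 8 4 T 0x100001001000000000005404001040000000001554000001455550000008060800 := rS 0xd0632217309 (k4 c4316 c7514 c16190 c2113 (k2 c679 c2428 k0)) (by decide +kernel)
def c16197 : PP 8 4 T 0x1001000000000005404001040000800401454400001051150002088260800 := rS 0x43a24e83e1da4c8f104fab5170557c4a1269 (k8 c15527 c4316 c4479 c4346 c4308 c2627 c6230 c6233 (k8 c4478 c1371 c4413 c1101 c16196 c399 c2578 c1693 (k1 c2120 k0))) (by decide +kernel)
def c16198 : PP 8 4 T 0x1001000040000000000000040000000000000000000040004040101004804 := rS 0x1d91d72d0638fc2a774113896a589274daab189249a241a981fa1020994c669168f5661e0999caa010217cb45d2b834b209868dd18395baf4e2b58a424d61a (k8 c16185 c559 c4316 c16159 c4389 c4387 c4354 c4353 (k8 c4348 c16118 c1384 c4383 c84 c535 c568 c16128 (k8 c1338 c4476 c576 c16186 c54 c12210 c655 c12274 (k8 c575 c2645 c274 c2359 c15527 c12307 c7854 c7115 (k8 c16193 c4300 c4477 c15611 c615 c2218 c282 c16194 (k8 c14076 c7462 c1233 c4479 c4444 c1373 c16195 c447 (k8 c2002 c16197 c398 c406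 c14438 c7514 c1765 c1763 (k1 c2113 k0)))))))) (by decide +kernel)
def c16199 : PP 8 4 T 0x2000000001001000040000000000000040000000001000000000040004040108005404 := rS 0xc162b0c7ab859b1a084709a7ccb108b9fc2b12249d512403d2652a731224c0c9d0e024b0573e9bd92fc1ba3162b738ad4d6112a99d36ab18810025b (k8 c15894 c5876 c4461 c15526 c14076 c6867 c655 c266 (k8 c16166 c559 c4389 c4387 c4353 c4350 c16118 c1384 (k8 c4463 c4305 c4378 c4379 c1067 c4476 c263 c10353 (k8 c1235 c4462 c1030 c1028 c3008 c15542 c1032 c688 (k8 c689 c2661 c2674 c282 c7035 c16152 c7517 c15634 (k8 c4487 c4412 c4414 c530 c1371 c4464 c2107 c4312 (k4 c15643 c330 c1211 c3048 (k2 c1853 c13968 k0)))))))) (by decide +kernel)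
def c16200 : PP 8 4 T 0x200000000000000000000000000100002020 := rS 0xde56 (k2 c16174 c9677 (k1 c1067 k0)) (by decide +kernel)
def c16201 : PP 8 4 T 0x1001000040000000000000040000000000000000000040004040101004004 := rS 0x186d18810025b05a32281a (k8 c16185 c16159 c16118 c16198 c15894 c5876 c4461 c15526 (k2 c7462 c16199 (k1 c16200 k0))) (by decide +kernel)
def c16202 : PP 8 4 T 0x1001000040000000000000040000000000000000000000004040101004004 := rS 0xb41c2c804ae1f051e8841a (k8 c16185 c16201 c335 c334 c2208 c16011 c2686 c535 (k2 c4466 c4476 (k1 c758 k0))) (by decide +kernel)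
def c16203 : PP 8 4 T 0x140001001000000000000000000010050152002000000000 := rS 0x2fc964f22a6e262f (k8 c61 c4441 c1966 c297 c299 c1374 c4566 c2114 k0) (by decide +kernel)
def c16204 : PP 8 4 T 0x2000001001001000000000000400001000000040001000014001201510000481011202 := rS 0x11ca83f (k4 c13568 c13338 c1603 c15739 k0) (by decide +kernel)
def c16205 : PP 8 4 T 0x2000001000000000000000404000444000001000150000000108005000004100002 := rS 0xc68956b44e6558b9ad1687 (k8 c4440 c4322 c493 c4356 c8954 c1082 c458 c13185 (k2 c7172 c755 (k1 c8058 k0))) (by decide +kernel)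
def c16206 : PP 8 4 T 0x22002000001001000000010000404000044000040401150400001111415002084100402 := rS 0x551711e269f56a560b163ab0c7e87459ad3679 (k8 c4447 c4448 c493 c4322 c4440 c16205 c9009 c11627 (k8 c4471 c15639 c4418 c6230 c6233 c15633 c1371 c4469 (k2 c15739 c13179 k0))) (by decide +kernel)
def c16207 : PP 8 4 T 0x20001000000001000000010000004001040000000401550080000015400140000800400 := rS 0xd01422a230443a562c7561acd269b60a655f12 (k8 c4479 c4346 c8246 c4450 c4448 c9125 c664 c9009 (k8 c11627 c4471 c4418 c15767 c15766 c15714 c15639 c4468 (k2 c525 c1760 k0))) (by decide +kernel)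
def c16208 : PP 8 4 T 0x1001000040000000000000040000000000000000000040004040105000014 := rS 0x1166343a255ad1399562e3e0b42582794db16304535aac627749904767f59820ce5a03af576a916966289d1e9802a651a878ba000e835fa4d0595cbe242488e1ab11c89c220e1ba30da69 (k8 c13396 c5889 c16118 c1384 c16202 c113 c238 c1114 (k8 c8612 c4383 c3310 c7307 c4467 c1376 c1068 c304 (k8 c244 c4376 c32 c10867 c4461 c1336 c4466 c1370 (k8 c491 c15621 c4477 c274 c15543 c4470 c616 c15506 (k8 c976 c4390 c4354 c1097 c4476 c4555 c4462 c664 (k8 c672 c15650 c15539 c9125 c9124 c16203 c14076 c493 (k8 c16204 c4472 c4530 c4448 c4447 c4450 c16206 c4465 (k8 c16207 c4356 c8954 c1082 c458 c13185 c7172 c7043 (k2 c755 c14044 (k1 c8058 k0)))))))))) (by decide +kernel)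
def c16209 : PP 8 4 T 0x200000000000004000000000000100008020 := rS 0xe160dc092d9701637 (k8 c1384 c304 c265 c574 c263 c1337 c1338 c6846 (k1 c3007 k0)) (by decide +kernel)
def c16210 : PP 8 4 T 0x1001000000000000000000000000000000000004000080000040081000400 := rS 0x6209 (k2 c236 c14466 (k1 c276 k0)) (by decide +kernel)
def c16211 : PP 8 4 T 0x1001000040000000000000040000000000000000000000004040101000004 := rS 0x1683459219803c5d0e81562241c95c4e5f1182dfa11070de1a8c (k8 c16118 c4383 c1384 c16202 c113 c4376 c304 c3310 (k8 c1376 c238 c1068 c1114 c4467 c8612 c16209 c10867 (k8 c1336 c4466 c4477 c16210 c616 c16208 c4476 c15894 k0))) (by decide +kernel)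
def c16212 : PP 8 4 T 0x1000000001000000040000100001000000001104400500400000140000000200000004 := rS 0x269484053aea32bf419bdf836088904f0d4888c120f369c51eb130960148c3c85c0801 (k8 c9668 c4461 c6610 c14867 c16118 c12555 c311 c2599 (k8 c1116 c100 c537 c4993 c12199 c230 c832 c129 (k8 c4383 c351 c4467 c7312 c312 c11222 c10992 c4570 (k8 c1512 c15660 c2122 c8272 c4472 c14786 c1390 c3765 k0)))) (by decide +kernel)
def c16213 : PP 8 4 T 0x1000000001000000040000000000000000001100400100000000040004000204000004 := rS 0xba52afc80368c891f811419bcbc571c8341e6d38ac4c2583d828f2455488d1e6b0b81002bd4c8c43e8c (k8 c16118 c86 c316 c6171 c1119 c9668 c4461 c6610 (k8 c6097 c100 c832 c6029 c440 c14867 c12555 c702 (k8 c311 c2599 c1116 c537 c4993 c12199 c529 c361 (k8 c798 c16212 c1378 c548 c7962 c4480 c15826 c15660 (k4 c312 c4472 c1512 c15530 (k2 c2122 c1389 k0)))))) (by decide +kernel)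
def c16214 : PP 8 4 T 0x1000000040000000000000000000000000000000000040004000205000004 := rS 0x20c657c833793cbc26128de286b3c8c61a452b9a4ee093d8290a0d11a3d18818405c0801 (k8 c9668 c4461 c6610 c4465 c4439 c16118 c100 c832 (k8 c529 c6224 c12555 c702 c230 c6033 c13396 c798 (k8 c440 c4383 c316 c14867 c6097 c16213 c4386 c312 (k8 c4467 c351 c2415 c1378 c548 c7055 c4369 c1054 (k1 c4472 k0))))) (by decide +kernel)
def c16215 : PP 8 4 T 0x2102000001000000000141400000000200001000010000000000000040200000004 := rS 0x4596e73498b43e0909828ae712c010028f (k8 c100 c9668 c4461 c311 c537 c798 c12555 c12274 (k8 c230 c86 c391 c11351 c1109 c1117 c15684 c15721 k0)) (by decide +kernel)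
def c16216 : PP 8 4 T 0x2102000001000000100140000000000200001104000400000401000040200000004 := rS 0x16ca1322d566571fac4c25802004147d (k8 c4379 c12555 c9668 c4461 c311 c2599 c1116 c2367 (k4 c798 c663 c7513 c16215 (k2 c1736 c9061 (k1 c1118 k0)))) (by decide +kernel)
def c16217 : PP 8 4 T 0x1001000040000000000000040000000000000400000000004040005000004 := rS 0xa25314ab45a3c689d60a790a1ad56af18af9764e5eaa48e83649bc96fc268d8222413c343e9d0481c1e553384cae6d30960146942834468f462050f080b8100241179083a20 (k8 c16211 c85 c16214 c1953 c91 c9668 c4461 c6610 (k8 c4465 c4440 c4439 c16118 c100 c832 c529 c6224 (k8 c13396 c12555 c311 c2599 c4993 c798 c12274 c655 (k8 c12210 c12199 c83 c230 c966 c86 c4383 c351 (k8 c4467 c7312 c312 c2260 c11222 c1374 c10992 c10573 (k8 c4570 c3367 c3481 c2014 c2108 c4735 c339 c2265 (k8 c9441 c14076 c6097 c14212 c540 c4308 c2501 c454 (k4 c16216 c329 c15632 c1681 (k2 c2289 c1685 (k1 c2112 k0)))))))))) (by decide +kernel)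
def c16218 : PP 8 4 T 0x2102000001000000100140000000000200001104000000000401000040200000004 := rS 0x16e7f39a84c8b55995c7e7147ac4c25802004147d (k8 c4379 c12555 c9668 c4461 c311 c2599 c1116 c100 (k8 c537 c2367 c798 c663 c7513 c16215 c1736 c1649 (k2 c15524 c1118 (k1 c5124 k0)))) (by decide +kernel)
def c16219 : PP 8 4 T 0x1000000001001000040000000000000040000000000000000000000004040005000004 := rS 0x51298a55a2d1e344eb053c850d6ab578c57cbb272f48e4b268d848836489df8118687d3a390383caa67099b4e2b130960146940a1e1017208bc841d3795d525e42834468f460100220 (k8 c16211 c9668 c4461 c16118 c100 c832 c529 c6224 (k8 c16217 c1505 c798 c1378 c85 c16214 c1953 c91 (k8 c6610 c4465 c4440 c4439 c13396 c12555 c311 c2599 (k8 c1116 c537 c4993 c12274 c655 c12210 c12199 c83 (k8 c361 c966 c86 c4383 c7962 c4480 c350 c10573 (k8 c4570 c4467 c312 c2260 c1374 c3367 c2014 c2108 (k8 c4735 c339 c2265 c9441 c14076 c6097 c14212 c540 (k8 c4308 c2501 c454 c16218 c329 c15632 c1681 c2289 (k2 c1685 c2112 k0))))))))) (by decide +kernel)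
def c16220 : PP 8 4 T 0x40100000000201104404000860000000002001200000000 := rS 0x419e57ea74c4351ea9 (k8 c1505 c100 c4383 c317 c2007 c1134 c1929 c549 (k1 c6353 k0)) (by decide +kernel)
def c16221 : PP 8 4 T 0x1000011000004144000000000000010110800000081005040200220004 := rS 0x124fc523e9453ec188458e62949a555a2d0f824ce1317874de57829d4b00400b25660a (k8 c12555 c663 c2510 c9668 c4461 c311 c2501 c4308 (k8 c798 c1378 c85 c1953 c12274 c655 c230 c86 (k8 c391 c6230 c15665 c11351 c834 c1109 c15684 c4468 (k8 c4420 c4414 c1956 c1379 c2112 c5124 c373 c671 k0)))) (by decide +kernel)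
def c16222 : PP 8 4 T 0x2000000000001000050000800044000000200000000100800000081005040200200004 := rS 0x1ccfb11319919aa35caccce3f38ac4c20a3795d6e10638984a378688d1e752c01002c9 (k8 c2510 c9668 c4461 c311 c2501 c100 c832 c4383 (k8 c4386 c312 c4467 c2375 c350 c4353 c798 c1378 (k8 c12555 c2599 c1116 c537 c2367 c655 c663 c11342 (k8 c1467 c1485 c16221 c67 c4412 c15615 c1649 c15790 k0)))) (by decide +kernel)
def c16223 : PP 8 4 T 0x1001000040000000000000040000000000000000000000004040005000004 := rS 0xa12e092c22933452ad1691c763c265157caf68a0cf3120a1ad5631638989e25258dd7714379785f192121d0308429ecee6986874120d11a3c0e553384cae5b0f8fc2e6d58984b00400828408c (k8 c16118 c16211 c12555 c9668 c4461 c311 c2599 c1116 (k8 c4993 c6610 c2367 c86 c575 c798 c12274 c655 (k8 c12210 c83 c100 c832 c529 c230 c85 c4383 (k8 c13396 c6033 c702 c6224 c4465 c4439 c4440 c16214 (k8 c4446 c1953 c16217 c1378 c16219 c4390 c4386 c1954 (k8 c312 c338 c4467 c2375 c16220 c14076 c6097 c14212 (k8 c4469 c540 c548 c454 c4346 c15692 c4399 c4474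 (k8 c16222 c89 c8078 c329 c15632 c1681 c7983 c7129 (k4 c333 c373 c1215 c4473 (k1 c4394 k0)))))))))) (by decide +kernel)
def c16224 : PP 8 4 T 0x2001000000001000000000400044000040010000000000800020052005440600000004 := rS 0xb959b3a9675649f5a08732a7ce65114ab4a62d23c5c3a1f0481caa6709810027b051bcaeb7 (k8 c4353 c798 c1378 c12555 c703 c9668 c4461 c12274 (k8 c655 c12210 c83 c230 c86 c85 c4416 c8078 (k8 c329 c332 c15632 c1681 c1685 c1614 c11776 c7854 (k8 c14634 c7129 c1379 c546 c15590 c4426 c381 c7658 (k2 c1525 c15708 k0))))) (by decide +kernel)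
def c16225 : PP 8 4 T 0x20800000000000000040040015500000000000000114000004000000000201600020020 := rS 0x733e9fd4264 (k4 c391 c895 c2522 c15615 (k2 c1649 c10014 k0)) (by decide +kernel)
def c16226 : PP 8 4 T 0x10000000001000040000500104000040000000410000000000040104041608000004 := rS 0x560a9464ab4ca9316ae4eac3598f48289262d56e848a204de8363840bc260f82426571f8c576c560abd4b1217a6e307b05424f245369600801 (k8 c9668 c4461 c311 c4993 c440 c599 c4316 c12555 (k8 c703 c4482 c4448 c836 c9768 c4444 c4346 c4450 (k8 c4370 c4449 c2264 c2367 c798 c12274 c230 c86 (k8 c4467 c351 c350 c2375 c2513 c1378 c1381 c7962 (k8 c2122 c4353 c4389 c711 c2666 c1994 c16224 c663 (k8 c9009 c11468 c11342 c16225 c11351 c7854 c4554 c546 (k4 c15710 c15643 c15665 c7079 k0))))))) (by decide +kernel)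
def c16227 : PP 8 4 T 0x20001000000001000000000000000000000000000000510000000001000040200200004 := rS 0x8ba4d2a2d0f824ce132b9b4b00400acc1505 (k8 c4308 c12555 c663 c9668 c4461 c311 c4993 c798 (k8 c12274 c655 c230 c86 c391 c15665 c11351 c15766 (k1 c15684 k0))) (by decide +kernel)
def c16228 : PP 8 4 T 0x800000000001000000010000000000400000000000010000000001000040200200004 := rS 0x4595a934a8b43e0909810025717acc1505 (k8 c4308 c12555 c663 c836 c798 c9668 c4461 c12274 (k8 c230 c86 c391 c15665 c11351 c4554 c15684 c15633 k0)) (by decide +kernel)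
def c16229 : PP 8 4 T 0x1001000060011540100000000004505404000000401402000000000204000 := rS 0x143639f9108b59414a34b (k8 c4426 c1684 c4308 c327 c719 c4934 c15832 c15861 (k2 c4392 c4473 k0)) (by decide +kernel)
def c16230 : PP 8 4 T 0x20000002001001000040000400040000040000501004000000001442005040200000004 := rS 0x1707f59855974b5a9d5a0874f994a2735b8a55a5316c5c3a090688c0e0f2a99c265738a3d62612c2acee0400af5321f461ec14bb62b045e9b (k8 c4448 c836 c4450 c4370 c4449 c12555 c703 c16118 (k8 c86 c6171 c1119 c9668 c4461 c15565 c14076 c311 (k8 c2599 c1116 c100 c537 c798 c12274 c655 c12210 (k8 c12199 c83 c832 c529 c230 c85 c4416 c329 (k8 c332 c15632 c1681 c1742 c1614 c1684 c7854 c11776 (k8 c14634 c2112 c15590 c1387 c4426 c1750 c16229 c662 (k2 c7517 c8860 (k1 c15667 k0)))))))) (by decide +kernel)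
def c16231 : PP 8 4 T 0x20800000000000000040100011500000000200010104020004000000000000200000020 := rS 0x5b9fce6a1119c4b08f (k8 c100 c311 c537 c832 c1736 c1649 c15524 c1118 (k1 c10014 k0)) (by decide +kernel)
def c16232 : PP 8 4 T 0x1001000040000000000000040000000000000000000040004040208000004 := rS 0x16e738224c2a2d329d56ab9598f4fa8164bf08e833792c92111b134ba2457c485ec54dc617e7b868e4120d1183c26571f9b4e28f58984b00a849e48aab3b81002bd4c8c43e8c (k8 c16118 c86 c2264 c6171 c1119 c9668 c4461 c15565 (k8 c14076 c440 c599 c4316 c12555 c311 c2599 c1116 (k8 c100 c537 c4993 c2367 c798 c12274 c12199 c832 (k8 c529 c230 c361 c4383 c703 c15907 c4482 c4448 (k8 c4370 c836 c9768 c4346 c16226 c1335 c2218 c312 (k8 c279 c2259 c1374 c1108 c9038 c3367 c4463 c10573 (k8 c12056 c4379 c16230 c663 c1472 c7513 c11468 c16231 (k4 c391 c16228 c11351 c7079 (k2 c1109 c1117 (k1 c15732 k0)))))))))) (by decide +kernel)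
def c16233 : PP 8 4 T 0x1000000000004104000000000000010010800000081004040208220004 := rS 0x124fc523e9453ec188458e62949a555a2d0f824ce31449e95f1217874da5837acda27509828ae3f020060ac9 (k8 c2510 c4308 c9668 c4461 c2367 c798 c12555 c12274 (k8 c11468 c340 c663 c1378 c311 c4993 c85 c1953 (k8 c9768 c4346 c335 c2664 c2264 c655 c230 c86 (k8 c391 c4903 c15665 c11351 c834 c1109 c15684 c4468 (k8 c4420 c4414 c1956 c1379 c2112 c5124 c2335 c671 k0))))) (by decide +kernel)
def c16234 : PP 8 4 T 0x2000000000001000040000010104040000000000010000800000081004041608220004 := rS 0x733ec44c6646499cdeb7599d4260a2b8fc0801 (k8 c9668 c4461 c2367 c798 c12555 c12274 c11468 c663 (k8 c4353 c1378 c655 c2510 c16233 c67 c4412 c15615 (k2 c1649 c15790 k0))) (by decide +kernel)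
def c16235 : PP 8 4 T 0x1000040000000004000000200000000000000000081004041208000004 := rS 0x64196082d0aa8d7275098fce2c78a1bcbc570809a1a2358984b00400828728f (k8 c100 c361 c12555 c9668 c4461 c311 c2599 c1116 (k8 c832 c4383 c4467 c350 c798 c351 c1378 c7962 (k8 c2375 c537 c2367 c12274 c11468 c11342 c1467 c16234 (k4 c390 c7079 c7854 c15643 (k1 c546 k0))))) (by decide +kernel)
def c16236 : PP 8 4 T 0x1000040000000004000040200000000000000000080004041208000004 := rS 0x1707f59b042ac4a59d5927d6830cca9f289cca629568b48f171e2de28fd37840bc268687c8a231ca3c12072a84caeb130c24624141a24f40a57c485e1d369600801 (k8 c9668 c4461 c311 c4993 c85 c1953 c9768 c4346 (k8 c12555 c335 c2664 c2625 c91 c2264 c4316 c2599 (k8 c1116 c798 c12274 c12210 c83 c230 c100 c361 (k8 c832 c440 c86 c4383 c4467 c351 c350 c1378 (k8 c4300 c7962 c4353 c16235 c4416 c8078 c329 c15632 (k8 c1681 c2287 c1614 c1685 c11776 c7854 c2054 c2112 (k8 c1379 c546 c15590 c4426 c341 c2299 c1711 c1251 (k2 c670 c15708 (k1 c15737 k0))))))))) (by decide +kernel)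
def c16237 : PP 8 4 T 0x1001000001001000040000011040000000010000004010000014081005040201200004 := rS 0xa22109e87a5948a2cf609fa2cb7398a52695568b43e09339c51eb13096118ab1787566d13a84c14571f8100305 (k8 c4308 c9668 c4461 c2367 c798 c12555 c12274 c11468 (k8 c340 c663 c85 c1953 c14076 c16118 c311 c2599 (k8 c1116 c100 c537 c655 c230 c86 c391 c4903 (k8 c15665 c11351 c834 c1109 c1117 c15684 c15745 c4420 (k8 c1522 c1956 c2112 c4456 c1902 c421 c4235 c4474 (k1 c4397 k0)))))) (by decide +kernel)
def c16238 : PP 8 4 T 0x1000000000000000000100011500000000200000114020004000000000000000000000 := rS 0x3fadce6a1 (k4 c1736 c1649 c1118 c15524 (k1 c15745 k0)) (by decide +kernel)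
def c16239 : PP 8 4 T 0x1000001001000040100000040000000010000004000000014081085040201000004 := rS 0x16e738224c2a2d329d56ab95987c26571f9c51eb1309600801054548e8c (k8 c16118 c3367 c4386 c12555 c9668 c4461 c311 c2599 (k8 c1116 c100 c537 c2367 c798 c12274 c86 c663 (k8 c1472 c7513 c11468 c16238 c391 c16237 c11351 c7079 (k2 c1109 c1117 (k1 c15732 k0))))) (by decide +kernel)
def c16240 : PP 8 4 T 0x1001000040000000000000040000000000000000000000004040001000004 := rS 0x7e0ab1da051298a55a2d1e1f592fc239bc92111b134ba2425aed4aaf892245e7a20909563184868c26d099541e5803834080a1195c021f0e8811e8c (k8 c16118 c100 c16211 c85 c86 c9668 c798 c832 (k8 c12555 c4461 c529 c83 c311 c12199 c12210 c12274 (k8 c4993 c2599 c16223 c4316 c2264 c14076 c16232 c91 (k8 c335 c1953 c2664 c9768 c4346 c4444 c1389 c1954 (k8 c16236 c1335 c2218 c312 c279 c2259 c1108 c3367 (k8 c4463 c10573 c4379 c16239 c329 c15632 c1681 c2287 (k4 c1685 c2112 c2301 c2299 (k2 c2107 c7517 k0)))))))) (by decide +kernel)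
def c16241 : PP 8 4 T 0x2002000001000000000140544000000200005410450020000000400550000000000 := rS 0xc50444c5d6a9f5b9ce209356a1e3275 (k8 c538 c15605 c4440 c4554 c9125 c4468 c1109 c1117 (k4 c4414 c1387 c15721 c8855 (k2 c4481 c15819 (k1 c4407 k0)))) (by decide +kernel)
def c16242 : PP 8 4 T 0x2002000001000000040140544000040200005400410060000000600450180100000 := rS 0x172b739c5d6a95490fa222c33a3ce275 (k8 c538 c1386 c100 c8996 c16241 c4332 c392 c393 (k4 c854 c7420 c4356 c1082 (k2 c1162 c3135 (k1 c8860 k0)))) (by decide +kernel)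
def c16243 : PP 8 4 T 0x800000000000000000000000000000000000000000200 := rS 0x7c54 (k2 c1186 c1185 (k1 c8954 k0)) (by decide +kernel)
def c16244 : PP 8 4 T 0x1000000000000500000000200000004020060000000200040080040410 := rS 0xb55ca48eab73f9cc585550a3c7a5764bf22a71 (k8 c1386 c4348 c4480 c4305 c1066 c274 c100 c1736 (k8 c1646 c7854 c1649 c15524 c1118 c15675 c393 c3135 (k2 c1659 c15745 k0))) (by decide +kernel)
def c16245 : PP 8 4 T 0x1002001000000000000100000000000000005410000000040000000000005000000 := rS 0x2163016 (k4 c4465 c4482 c523 c15660 k0) (by decide +kernel)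
def c16246 : PP 8 4 T 0x2000000001000000040140044000040200005404400000000000200040180140008 := rS 0xca29028bc163b2c3f22ab13896d6608 (k8 c222 c16243 c838 c1386 c3125 c4348 c4480 c223 (k4 c3112 c302 c8877 c55 (k2 c795 c16244 (k1 c16242 k0)))) (by decide +kernel)
def c16247 : PP 8 4 T 0x100000500000000000050154000000000000400028000000008 := rS 0x5bc148c62 (k4 c794 c875 c4407 c1586 (k1 c5124 k0)) (by decide +kernel)
def c16248 : PP 8 4 T 0x1001000040000000000000040000000000000000000000004041101000000 := rS 0xb44a99052b93a924e67f2a84a10b33eb25f91537b1c9e3807898f2611a9ed623b3b95cb0081e8442a1e0ec340a010daad5e6b5ea6576a5890bc620b3896c048c (k8 c16118 c16240 c838 c1386 c302 c228 c8877 c4469 (k8 c4444 c1389 c4443 c1119 c4442 c4346 c14076 c422 (k8 c28 c55 c4383 c1028 c4466 c14481 c2302 c274 (k8 c222 c223 c1066 c15566 c3112 c3125 c1225 c3111 (k8 c616 c9840 c9120 c11620 c352 c448 c2376 c8928 (k8 c4348 c4480 c4305 c4379 c16243 c16245 c16246 c34 (k8 c515 c1560 c1718 c15675 c1202 c16247 c16242 c1696 (k2 c16238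 c1388 k0)))))))) (by decide +kernel)
def c16249 : PP 8 4 T 0x12000000001001000000100010100000000000410554000060000000000000001148200 := rS 0xcfa1950fd058b2dd6ab3 (k8 c16243 c4389 c4353 c15708 c15643 c2121 c4464 c4392 (k2 c3496 c13192 k0)) (by decide +kernel)
def c16250 : PP 8 4 T 0x12000000001001000000000000144000000004001414450860000000000540001148200 := rS 0x6344c122eb83e9cd3e935691d063b3dacd9275 (k8 c538 c546 c16243 c1225 c3112 c548 c3357 c4554 (k8 c9125 c11776 c1109 c1379 c16249 c4361 c4548 c7172 (k2 c4407 c15819 k0))) (by decide +kernel)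
def c16251 : PP 8 4 T 0x12000000001001000000000000144040040004001414410860000000000440101148200 := rS 0x1730431a56222c3ab24ceb3 (k8 c16243 c8996 c546 c538 c16250 c4332 c854 c815 (k2 c4478 c5821 (k1 c15643 k0))) (by decide +kernel)
def c16252 : PP 8 4 T 0x12000000001001000000000000144040040004001410400960000000000444181148610 := rS 0xb849324ea733e8b0aa64418f4ae6f (k8 c1108 c1066 c274 c548 c16251 c1646 c7854 c1651 (k4 c1649 c15675 c15620 c393 (k2 c16249 c1126 k0))) (by decide +kernel)
def c16253 : PP 8 4 T 0x1001000040000000000000040000000000000000000000004040101000000 := rS 0xc82d29a4cc6cf5c41186c93a9fcfad13995424874593a10448caf8de79599ec76772b960103d21ad56e1e8a0750a814191c6ab12ea8c1a15071789a390889c48710596c6e914601402690daad5e6b890bc6202 (k8 c16240 c228 c8877 c4469 c4442 c4346 c14076 c422 (k8 c13396 c28 c55 c16118 c129 c1384 c838 c302 (k8 c1386 c16248 c115 c278 c281 c2135 c225 c224 (k8 c2347 c1368 c1464 c1336 c8612 c3356 c3357 c548 (k8 c14329 c1496 c1027 c4470 c4466 c4353 c4389 c2132 (k8 c274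 c222 c223 c1066 c15566 c3112 c1225 c16243 (k8 c9840 c1108 c15833 c4369 c6330 c7782 c8901 c9998 (k8 c4440 c16252 c34 c1560 c1758 c1562 c514 c15675 (k8 c15620 c1210 c5124 c2121 c1526 c4407 c1126 c421 (k2 c393 c15796 (k1 c9676 k0))))))))))) (by decide +kernel)
def c16254 : PP 8 4 T 0x40000000000000000200000000000000000000000000200000808 := rS 0x4e252b434468f (k4 c100 c832 c4383 c303 (k2 c2243 c7053 (k1 c4467 k0))) (by decide +kernel)
def c16255 : PP 8 4 T 0x802000001001000000000000004000040000000000100016000140004040040000408 := rS 0x674498d26748b8f0a241439dd5e9914acc109b1794c7ec51d81cb401 (k8 c28 c4476 c494 c1601 c4530 c8954 c9029 c8877 (k8 c13624 c839 c16243 c2834 c4443 c4346 c4438 c4440 (k8 c1063 c1604 c13869 c4416 c235 c1654 c7047 c9049 (k2 c593 c15758 k0)))) (by decide +kernel)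
def c16256 : PP 8 4 T 0x2000000001001000000040004044001140200000114000016000140140040040000008 := rS 0x7d233f092611630547164ab0d723d178a566088294c7e3b0396802b5 (k8 c4389 c28 c4476 c494 c1601 c8954 c9029 c4406 (k8 c839 c16243 c2834 c8877 c235 c4548 c15480 c11624 (k8 c4471 c1467 c4420 c13237 c15679 c369 c15573 c15802 (k2 c4379 c1602 k0)))) (by decide +kernel)
def c16257 : PP 8 4 T 0x100001000000000000000040000040040000201510004000044000000000800200 := rS 0xc03b218c68933c5ce6b3 (k8 c16243 c96 c4417 c593 c6057 c1689 c15749 c1693 (k2 c7043 c3748 k0)) (by decide +kernel)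
def c16258 : PP 8 4 T 0x1001000040040000044001140000000104000016000140140040040000008 := rS 0x1c6285f1aa3010b71d81cb401 (k8 c28 c4476 c494 c1601 c7094 c839 c16118 c1059 (k4 c9867 c4470 c1385 c16256 k0)) (by decide +kernel)
def c16259 : PP 8 4 T 0x1001000040000000000000040000000000000010000000004041001000000 := rS 0x358a838c05f7e9b858c15cc592ac31e9d42d09638ed16651f94e0a54218a40e0808968ba01369a436ab4eabcd699890bc621f228e4ae0b010dc4d0d118811e8c (k8 c16118 c100 c16253 c832 c4383 c4467 c1383 c16240 (k8 c16254 c799 c361 c440 c86 c228 c8877 c4469 (k8 c4443 c4442 c4346 c4344 c14076 c422 c13396 c959 (k8 c28 c1338 c4476 c343 c839 c494 c2834 c236 (k8 c13458 c4406 c9029 c8954 c1646 c1767 c1601 c2170 (k8 c16255 c4465 c16257 c235 c15480 c11624 c4471 c11342 (k8 c4420 c13237 c16258 c4378 c1378 c14316 c879 c15679 (k2 c1330 c4470 k0)))))))) (by decide +kernel)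
def c16260 : PP 8 4 T 0x2002001001000010000140544000000200001041550020000000001550004500000 := rS 0x1d150e28f3b9ed1687 (k8 c4440 c4322 c4320 c1112 c100 c537 c15975 c16241 (k1 c1600 k0)) (by decide +kernel)
def c16261 : PP 8 4 T 0x200000000000000100010100000000200000154000000000000020200000000000 := rS 0x24ad946b5 (k4 c7883 c1467 c15732 c369 (k1 c1038 k0)) (by decide +kernel)
def c16262 : PP 8 4 T 0x2002001001000000100140544000040200001145510020020085021450004100000 := rS 0x65b196eb86230558898218cab11163458671479dcf68b4385cce5b (k8 c93 c8996 c1950 c4440 c4322 c4320 c1112 c100 (k8 c537 c2055 c340 c16260 c4332 c247 c815 c4478 (k8 c7030 c2120 c1987 c2123 c16261 c165 c11342 c1756 (k1 c413 k0)))) (by decide +kernel)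
def c16263 : PP 8 4 T 0x2002001001000000100140544000040200001145510020020084021450004100000 := rS 0x2d1d8f0ce5b38a3cee7b (k8 c4320 c1112 c100 c537 c93 c8996 c16262 c89 (k2 c329 c16241 k0)) (by decide +kernel)
def c16264 : PP 8 4 T 0x1002000001001000040100000100000040000001145110020040104145450404100000 := rS 0x2b1a22d2394c26c51e415644c2590883455f46506fc1a2ad5e6b5ea6576a5891c51e8c3b9ed0285 (k8 c4321 c4439 c4320 c1112 c16118 c100 c537 c4469 (k8 c4444 c1389 c4443 c1119 c4442 c4346 c14076 c4470 (k8 c4480 c4306 c15605 c2122 c4399 c1054 c4472 c1954 (k8 c4474 c16263 c4312 c11612 c1250 c513 c9747 c8078 (k4 c329 c341 c7129 c4554 k0))))) (by decide +kernel)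
def c16265 : PP 8 4 T 0x2800000001001000000100000504000050000005104010020000141000558041000080 := rS 0x105a1191d31182c38b41572ad49b1d3aaf4c8fce69b (k8 c13624 c15577 c11031 c4443 c4346 c4344 c408 c11351 (k8 c4554 c11342 c15643 c4481 c4362 c4420 c15633 c13237 (k4 c15688 c15020 c13972 c1763 k0))) (by decide +kernel)
def c16266 : PP 8 4 T 0x2002000001001000000100000500000050000001104110024000141005458041100400 := rS 0x1828920315870431b46222c55a66247739818127b45a1cce5b (k8 c93 c8996 c4440 c4322 c4320 c1105 c4462 c15577 (k8 c1112 c4469 c4443 c14076 c16265 c4332 c456 c815 (k4 c4478 c4958 c15020 c14047 (k2 c4314 c1853 (k1 c2123 k0))))) (by decide +kernel)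
def c16267 : PP 8 4 T 0x2000001001000010000000000000000000000001150000000000005550004500000 := rS 0xa2532a2b556af35c491687 (k8 c4440 c4322 c4469 c4442 c4346 c14076 c4554 c15975 (k2 c9029 c1604 (k1 c2112 k0))) (by decide +kernel)
def c16268 : PP 8 4 T 0x2002000001001000000100000500000040000000104010024000101004058041100408 := rS 0x28144c65c410c711163442e424a8bcda313486cf23f03024ce5b (k8 c93 c8996 c1105 c4462 c11031 c9840 c422 c13396 (k8 c228 c959 c8877 c11624 c16266 c1950 c340 c16267 (k8 c4332 c815 c4478 c15643 c11342 c5821 c409 c161 k0))) (by decide +kernel)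
def c16269 : PP 8 4 T 0x2002000001001000000100000500000040000000104010024000100004058041100408 := rS 0x31ab6088916c5c7867369a436ab579ae242f1896cf273030251687 (k8 c4440 c4322 c1105 c4462 c15577 c9840 c93 c228 (k8 c8877 c4469 c4442 c4346 c14076 c422 c13396 c959 (k8 c8996 c16268 c4416 c329 c7172 c4481 c4554 c4407 (k1 c2120 k0)))) (by decide +kernel)
def c16270 : PP 8 4 T 0x2002002001000000000000100000000000000000414000020040140000000000000408 := rS 0x1017d192d9e4f685 (k8 c4321 c4320 c9840 c93 c15605 c14693 c4472 c1054 k0) (by decide +kernel)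
def c16271 : PP 8 4 T 0x2000001001000040000000000000040000000100010000000000004041001000000 := rS 0x964da2b397c832f3f58243a5b40a2ad299505a4709b14790559451926d55abcd6bd4caed4b12178c48a570a8749e713c9dcd21b1496c7e73588dcc2393797422060487c16024889a1a231023d18583da050a87 (k8 c4440 c4321 c4439 c4320 c16259 c16118 c100 c16253 (k8 c832 c4383 c4467 c129 c16240 c16254 c86 c1105 (k8 c4462 c15533 c807 c1108 c361 c4565 c1383 c8612 (k8 c15577 c11031 c93 c12392 c422 c13396 c1112 c9840 (k8 c537 c448 c85 c14481 c799 c440 c228 c8877 (k8 c4469 c4444 c1389 c4443 c1119 c4442 c4346 c14076 (k8 c959 c7308 c16264 c16269 c4312 c11612 c1250 c513 (k8 c8078 c329 c4464 c9747 c4554 c1604 c2112 c4426 (k8 c341 c1711 c16270 c14316 c548 c15833 c15856 c4399 (k2 c9875 c1325 (k1 c4474 k0))))))))))) (by decide +kernel)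
def c16272 : PP 8 4 T 0x1000000000001000000000000500000000200000114020004000005000008000000000 := rS 0x31d70a164bf16a95 (k8 c1696 c1388 c4480 c4305 c1736 c16238 c409 c11342 k0) (by decide +kernel)
def c16273 : PP 8 4 T 0x1000000100005500000000000050154020000000005000008000000000 := rS 0x31d70a1 (k4 c1736 c2121 c409 c11342 k0) (by decide +kernel)
def c16274 : PP 8 4 T 0x2000001001000040000000000000040000000100000000000000004041001000000 := rS 0x2428c185e7eb216f145a8f52a7f3e8b0aab332014ae711f9cd6237379741e6108818121f05a4472581308c408f0080a1a8c (k8 c16118 c4383 c16240 c28 c100 c16253 c832 c4467 (k8 c16259 c361 c129 c16254 c86 c1105 c4462 c15533 (k8 c4565 c11620 c807 c1108 c1383 c8612 c15577 c11031 (k8 c537 c799 c55 c16271 c553 c1646 c9676 c1651 (k8 c15524 c1696 c329 c1388 c16272 c4353 c16273 c4305 (k4 c14316 c4463 c1465 c507 (k1 c369 k0))))))) (by decide +kernel)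
def c16275 : PP 8 4 T 0x1000000000000000000000000000200000020000004000000000000108 := rS 0x5a55322500a01 (k4 c28 c55 c539 c538 (k2 c1687 c855 (k1 c9676 k0))) (by decide +kernel)
def c16276 : PP 8 4 T 0x1001000040000000000000040000000000000000000000004041001000000 := rS 0x5e413f57e814290cf616849d41e6f3097562111f81812773c9c4b04f130de1a91009a4366b5ea6576a5890bc621f2288c728f05880048c (k8 c16118 c16240 c16253 c16254 c100 c361 c832 c440 (k8 c86 c228 c8877 c4469 c4444 c1389 c4443 c1119 (k8 c4442 c422 c13396 c28 c129 c4383 c1383 c4467 (k8 c448 c16259 c537 c9840 c1112 c1105 c4462 c11031 (k8 c15533 c8612 c807 c4565 c1108 c11620 c16275 c16274 (k8 c4465 c521 c1950 c523 c1835 c15907 c16245 c2122 (k2 c14316 c548 k0))))))) (by decide +kernel)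
def c16277 : PP 8 4 T 0x1001000040000000000000040000000000000000000000004040001000000 := rS 0x38bc2410009228c (k8 c16118 c129 c16240 c16253 c16276 c225 c224 c15550 k0) (by decide +kernel)
def c16278 : PP 8 4 T 0x1002000001000000040000140000001000000400014000090040000044000001000824 := rS 0x152be4c0c4f24307ac4f681429dc8a1b068851817 (k8 c2552 c16118 c311 c16200 c4316 c438 c4438 c4321 (k8 c4439 c4320 c623 c304 c16157 c14867 c16122 c16126 (k2 c2122 c14588 (k1 c1134 k0)))) (by decide +kernel)
def c16279 : PP 8 4 T 0x2002002001000000040000040000001000000000000000080040000022001101004024 := rS 0x35aa54a4b4cc64842f0e86cda8506a302e11 (k8 c4300 c2552 c16118 c16200 c4321 c4318 c4316 c1028 (k8 c61 c16167 c4446 c1927 c1954 c7884 c1508 c581 (k1 c15881 k0))) (by decide +kernel)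
def c16280 : PP 8 4 T 0x2000001000000040000000000000000000000000000010000000004001001000804 := rS 0x4d532f952a53590c631441844debd7e13d76711a17c44390ba744e5a06878425d868241e3730810021d461ed026d429a48a1b (k8 c4316 c438 c4437 c4321 c4318 c4439 c4320 c16118 (k8 c1028 c567 c4461 c615 c1383 c304 c84 c4383 (k8 c1338 c311 c4466 c16200 c6846 c2312 c1232 c2552 (k8 c1114 c4467 c14382 c9120 c7095 c3287 c3465 c4477 (k8 c3104 c15586 c4300 c4306 c16278 c16279 c276 c6097 (k4 c1302 c14588 c14537 c14495 (k2 c9875 c773 k0))))))) (by decide +kernel)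
def c16281 : PP 8 4 T 0x1000040000000000000040200000000000020000000000081000000800 := rS 0xc937978fab95a9d44d043facd24230a9cc40713396caf0d478b622c75ba856237098ecc655020043a03 (k8 c2244 c1028 c567 c4461 c12210 c1606 c1641 c571 (k8 c1383 c623 c1735 c1118 c290 c4411 c143 c100 (k8 c4383 c63 c93 c15515 c537 c535 c1110 c287 (k8 c832 c315 c662 c12366 c4464 c4467 c1657 c1659 (k4 c15666 c4409 c351 c1378 (k2 c547 c2121 k0)))))) (by decide +kernel)
def c16282 : PP 8 4 T 0x2000001000040040005000010000400000010004481000004400005180100020 := rS 0x1ec5cfe7333985927d (k8 c4379 c4305 c615 c654 c13487 c12366 c15634 c15869 (k1 c4471 k0)) (by decide +kernel)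
def c16283 : PP 8 4 T 0x1000000000000000400000000000000000000000400054402080000200800 := rS 0x1408a2f (k4 c61 c2235 c14871 c1645 k0) (by decide +kernel)
def c16284 : PP 8 4 T 0x1001000040000000000000040000000000000000000000004001001000800 := rS 0x14589294da310a1348211219a4a66b7e2056a710d17c44390bacc4e5a0687a12212e964c6612a810020304c351e3f1bb1c761d5ba84548c (k8 c16118 c16277 c1735 c1118 c1028 c1641 c290 c1383 (k8 c289 c100 c4383 c84 c2244 c567 c4461 c12210 (k8 c615 c1606 c16281 c1338 c311 c16280 c4466 c16200 (k8 c6846 c2312 c2645 c2552 c1114 c4467 c14382 c4465 (k8 c7095 c3286 c8086 c4477 c559 c2229 c15527 c2208 (k8 c4300 c7115 c374 c16282 c16283 c7462 c1302 c4479 (k2 c15705 c16189 k0))))))) (by decide +kernel)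
def c16285 : PP 8 4 T 0x10000000020000180000400 := rS 0xb657 (k2 c3061 c15535 (k1 c4476 k0)) (by decide +kernel)
def c16286 : PP 8 4 T 0x40000000000000000200000000000010000000000001000000404 := rS 0x1028986a0803878421d (k8 c1028 c12555 c4466 c1097 c4462 c16285 c9120 c2309 (k2 c9118 c4461 k0)) (by decide +kernel)
def c16287 : PP 8 4 T 0x2002001000000000000040100000000000000010000020000000020000110000082 := rS 0x2090d7d1922a74ee85409ecb67937af43c83 (k8 c4306 c4466 c3104 c9199 c2433 c93 c4320 c4439 (k8 c4321 c4438 c1234 c5776 c15605 c2122 c15809 c3109 (k1 c4472 k0))) (by decide +kernel)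
def c16288 : PP 8 4 T 0x1000000040000000000000000000000000000000000000000001001000404 := rS 0x2989b120b1e8ee694e86cdb0941bf17a4f5d98562341117472791397c0c1100024e25b2c078430d478746e8c (k8 c16118 c1383 c1028 c100 c4383 c12555 c4466 c16286 (k8 c93 c537 c1106 c10353 c2592 c4462 c489 c9118 (k8 c2433 c3123 c15897 c4467 c9120 c8612 c4213 c3287 (k8 c3465 c3104 c8265 c4306 c16287 c4993 c2669 c4733 (k8 c757 c1024 c16245 c4465 c4055 c1990 c15700 c773 k0))))) (by decide +kernel)
def c16289 : PP 8 4 T 0x1001000040000000000000040000000000000000000000004001001000000 := rS 0x12192fd13184fe731aac54658041c56b165cc143c5b2398c7a541099022050102d6e3b63a843b0d464447e2a (k8 c16277 c289 c4411 c16118 c4383 c1028 c1735 c290 (k8 c1641 c1118 c16284 c16288 c55 c2303 c227 c10518 (k8 c226 c15510 c1607 c3584 c838 c4466 c4406 c11342 (k8 c4471 c7513 c1386 c222 c223 c1467 c3125 c3111 (k8 c1110 c555 c616 c9120 c15634 c7497 c354 c8735 k0))))) (by decide +kernel)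
def c16290 : PP 8 4 T 0x1000040000000000000040200000000000010000000000082140000800 := rS 0x745cb24266f309fcfa735199422151ead566b71a0000a950e436223f1391c525d5883caa7106968ae09018dc7291 (k8 c129 c281 c1384 c2243 c84 c16128 c4476 c16121 (k8 c7095 c12681 c304 c1115 c1338 c59 c1372 c115 (k8 c289 c4411 c4383 c4466 c1695 c575 c758 c1027 (k8 c3011 c665 c1388 c11368 c286 c278 c2539 c3436 (k8 c12124 c7516 c7517 c12807 c10992 c1638 c7308 c5821 (k2 c2121 c11468 k0)))))) (by decide +kernel)
def c16291 : PP 8 4 T 0x2000002001000000000000000000000000000404004000000000140010000005401100 := rS 0xbf (k2 c6330 c14537 k0) (by decide +kernel)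
def c16292 : PP 8 4 T 0x1000000040000000000000000000004000100181000104110080185015124 := rS 0x14a6b5492da29a278bc60992120df86f2f9c43a175b8ec52bb5ac506e8c (k8 c16118 c1384 c4470 c4389 c4390 c59 c1102 c7094 (k8 c2552 c56 c7095 c576 c10992 c4463 c4570 c16291 (k8 c1927 c276 c1953 c338 c277 c2210 c1954 c1508 (k2 c581 c1970 (k1 c15901 k0))))) (by decide +kernel)
def c16293 : PP 8 4 T 0x1000000040005000000000000000000000000800404540002080000000 := rS 0xb9248f46a23 (k4 c58 c1100 c2207 c2217 (k2 c7514 c2113 k0)) (by decide +kernel)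
def c16294 : PP 8 4 T 0x54000000000001400080000080085540000 := rS 0x1a251 (k2 c14921 c2210 (k1 c2109 k0)) (by decide +kernel)
def c16295 : PP 8 4 T 0x2000000001000000000000000000000000014000000110001400040052082014560820 := rS 0x1a05126106262f (k4 c61 c4441 c1913 c16194 (k2 c1645 c15831 (k1 c2219 k0))) (by decide +kernel)
def c16296 : PP 8 4 T 0x540000000000000000000000000050140140402080000000 := rS 0x2092c6a23 (k4 c58 c1100 c1374 c1104 (k1 c2114 k0)) (by decide +kernel)
def c16297 : PP 8 4 T 0x200002000800080000000 := rS 0x2618040 (k4 c1685 c1684 c1103 c3758 k0) (by decide +kernel)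
def c16298 : PP 8 4 T 0x2000001001000040000000000000040000000000000010000000004000101000800 := rS 0x8c26882ac559445c4d578c4ca934a0f22e6b5fb14f24329a26086739854c0c7278408a873b9a5166d0d9ee1a3f1391cba0f319541a030e84d661702168ae095b8ec52bb5ead628350f0a84639122446e8c (k8 c16118 c1384 c129 c16289 c281 c58 c16277 c16290 (k8 c1100 c4470 c4389 c4354 c4390 c59 c1102 c7094 (k8 c84 c16128 c4476 c270 c2552 c2645 c12274 c56 (k8 c2243 c16121 c12681 c1606 c304 c1338 c1372 c115 (k8 c289 c4383 c4320 c4316 c4318 c4322 c4437 c4438 (k8 c4440 c438 c16292 c446 c2226 c7312 c15769 c12124 (k8 c654 c4464 c7030 c16293 c16294 c14867 c4530 c6330 (k8 c580 c15726 c15009 c275 c1655 c1697 c16295 c1775 (k8 c284 c16296 c16297 c5962 c15803 c14593 c860 c6988 (k1 c4448 k0)))))))))) (by decide +kernel)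
def c16299 : PP 8 4 T 0x5400000000200000004000010000404150080080210000 := rS 0x18ca35c924ea661ec147629 (k8 c59 c1102 c4308 c2205 c287 c591 c366 c4548 (k2 c15553 c2113 (k1 c291 k0))) (by decide +kernel)
def c16300 : PP 8 4 T 0x1202001000000000140140000000020204040000510001010140044082081100021 := rS 0x114ca56938a24b55a96246d18a6d53185fa745239488d44641 (k8 c7115 c58 c1100 c129 c281 c59 c1232 c6330 (k8 c4472 c1507 c4448 c16203 c7462 c4479 c4444 c4445 (k4 c1373 c1644 c2114 c860 (k2 c13690 c15803 (k1 c1752 k0))))) (by decide +kernel)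
def c16301 : PP 8 4 T 0x1000001001000040000000400000040000004000500011010040044000081055121 := rS 0xdaad458c4a2c0221958e941e45e087f439cc2ac97e1bc7e4738adc7629152ed7ab58a0d44639122451841 (k8 c7115 c16118 c129 c16289 c281 c58 c1100 c4470 (k8 c4389 c4354 c4390 c16277 c59 c1102 c7094 c7095 (k8 c1372 c289 c10992 c4463 c10573 c16299 c12124 c7313 (k8 c7517 c4464 c15634 c4471 c275 c2206 c1697 c16300 (k4 c445 c1685 c2236 c1713 (k2 c1987 c7462 (k1 c15803 k0))))))) (by decide +kernel)
def c16302 : PP 8 4 T 0x1000000050005400000000014805440000000410405550000000040000 := rS 0x6712114b9 (k4 c7514 c15009 c2113 c645 (k1 c1791 k0)) (by decide +kernel)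
def c16303 : PP 8 4 T 0x200001001000040040000400000000014004041100010514514155010088060000 := rS 0x4865b2114ad32a5078774126c9d185fb14f2b71daed7ab58a1ac8685 (k8 c711 c2208 c559 c4470 c4389 c4354 c4390 c1102 (k8 c7094 c599 c4530 c6330 c4472 c2114 c4448 c447 (k8 c2002 c16302 c275 c1697 c860 c15803 c644 c1753 (k2 c11341 c453 k0)))) (by decide +kernel)
def c16304 : PP 8 4 T 0x10000000001001000000040005000000000004000401100091504005145012088140020 := rS 0x29a88ac65a811665241d57227238ec6a233d9ac9b04 (k8 c4464 c2218 c559 c2688 c58 c1100 c1102 c1372 (k8 c115 c7514 c11468 c2113 c578 c4632 c283 c15870 (k4 c15803 c4599 c900 c4453 k0))) (by decide +kernel)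
def c16305 : PP 8 4 T 0x1001000040000000000000040000000000000010000000004000101000800 := rS 0xc8ad4a30078778c910a24b55a96250433a1ce6894e9b42a313031c20412690cd25335868f7095ac516e175984c02351d8103a1e0698cb4550795c6f0d1f89c463948a308e29150240624 (k8 c16289 c2243 c84 c16277 c59 c1372 c16118 c129 (k8 c281 c58 c115 c289 c4383 c1384 c16128 c304 (k8 c12681 c4476 c1606 c16121 c16290 c56 c270 c1102 (k8 c1100 c567 c12274 c2645 c2552 c7094 c4470 c4389 (k8 c16298 c2688 c4465 c559 c2229 c15527 c2208 c2218 (k8 c7115 c16301 c2226 c7312 c16194 c15769 c7462 c1233 (k8 c678 c12124 c7313 c654 c4464 c4479 c4444 c4445 (k8 c1373 c1644 c16303 c4364 c1089 c16304 c445 c275 (k2 c1987 c14373 (k1 c1697 k0)))))))))) (by decide +kernel)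
def c16306 : PP 8 4 T 0x1001000040000000000000040000000000000010000000004000001000800 := rS 0x5008800624 (k4 c16289 c2243 c16305 c9668 (k2 c311 c4461 k0)) (by decide +kernel)
def c16307 : PP 8 4 T 0x1001000040000000000000040000000000000000000000004000001000800 := rS 0x16e7f3eac49236638f02a0f2a834081330880b6572c4351e8c23890522a (k8 c16277 c59 c16289 c1372 c16118 c100 c4383 c16306 (k8 c63 c93 c535 c2599 c2496 c534 c2495 c12681 (k8 c6403 c2261 c314 c2262 c312 c2259 c1116 c7516 (k2 c7517 c1742 (k1 c12621 k0))))) (by decide +kernel)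
def c16308 : PP 8 4 T 0x2000000000001000000000010400000054000000000000001002000000080080111002 := rS 0x7e19c5311 (k4 c4411 c59 c15652 c4199 (k1 c16080 k0)) (by decide +kernel)
def c16309 : PP 8 4 T 0x1000040000000000000040200000000000080000000000082100000410 := rS 0x1f8603f19a0a5449a8090c706a8cca5f5bae56a754a8003d141dacc7a030e8d4103f138e52247148dc2a11 (k8 c278 c286 c1384 c59 c1372 c129 c281 c115 (k8 c289 c12637 c15535 c759 c838 c15514 c16243 c12123 (k8 c4470 c4466 c4461 c1694 c11627 c7513 c7514 c7094 (k8 c9119 c578 c1467 c1367 c291 c2113 c283 c1738 (k4 c16308 c4406 c4191 c13137 (k2 c896 c7414 (k1 c4302 k0))))))) (by decide +kernel)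
def c16310 : PP 8 4 T 0x1000040000000000000040200000000000010000000000082100000410 := rS 0x203804ac5b (k4 c16309 c4476 c15891 c2995 (k2 c4461 c12975 k0)) (by decide +kernel)
def c16311 : PP 8 4 T 0x1000040000000000000040200000000000010000000000082100000400 := rS 0x1137074ac350696c1e01020e5225d (k8 c1338 c129 c281 c16310 c54 c265 c574 c16200 (k4 c15534 c4476 c10380 c1067 (k2 c4120 c8928 k0))) (by decide +kernel)
def c16312 : PP 8 4 T 0x80200000400 := rS 0x3 (k2 c10518 c12555 k0) (by decide +kernel)
def c16313 : PP 8 4 T 0x54001000000001400080000080085140000 := rS 0x17 (k2 c1950 c16294 k0) (by decide +kernel)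
def c16314 : PP 8 4 T 0x200002000080080000000 := rS 0x2e (k2 c1645 c16297 k0) (by decide +kernel)
def c16315 : PP 8 4 T 0x2000000001001000040100000100000000040001554000001000404410080085150080 := rS 0x42bf49f180b32e970961304f6515f90d9ea02427d8aa329b1d283ca1c5d7089599fe08873ec3519115daf56a45 (k8 c8444 c4389 c4354 c4390 c4411 c16118 c4383 c7516 (k8 c7313 c4464 c4313 c4312 c4314 c15643 c4361 c4394 (k8 c7514 c275 c2206 c2207 c15890 c3728 c1698 c12422 (k8 c4489 c3738 c16313 c6330 c16314 c14312 c6869 c15773 (k8 c15873 c4459 c2028 c4465 c4482 c453 c15835 c523 (k1 c14310 k0)))))) (by decide +kernel)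
def c16316 : PP 8 4 T 0x2000000001001000040000000100000000000000040001120000404010080091110002 := rS 0x10c7a5382951921322a2cee650d9e4ea0634c34b67147a30de3b (k8 c1641 c1108 c16118 c100 c537 c93 c4383 c757 (k8 c486 c2432 c2433 c2669 c8511 c1112 c8286 c8444 (k8 c1638 c7308 c16315 c4406 c9029 c9052 c15609 c15854 k0))) (by decide +kernel)
def c16317 : PP 8 4 T 0x1001000040000000000000000000000000000020000004000082101000010 := rS 0x5c9d4fa491e9518e0200ad628b70f0d4766f30ac4e61d2e844c6151ca448e291b9c51e8c (k8 c16118 c100 c537 c1384 c59 c1372 c129 c281 (k8 c286 c1607 c278 c1336 c1026 c1110 c8612 c4213 (k8 c1108 c1641 c1370 c4466 c7094 c4470 c4389 c16316 (k8 c4461 c2137 c226 c15510 c2134 c8221 c1686 c7514 (k1 c15886 k0))))) (by decide +kernel)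
def c16318 : PP 8 4 T 0x1100001001000000004000000001040000001040000002000100004080025100020 := rS 0x1890ca216439a45201 (k8 c54 c59 c13396 c14835 c4465 c1604 c1950 c1911 (k1 c14831 k0)) (by decide +kernel)
def c16319 : PP 8 4 T 0x1001000040000000000000040000000000000000000000004000001000000 := rS 0x2bd8aab4ca253631219ac34621d996125460b0e0a7e8b2e4fab364a8d3abb5abf0f2754a844e6b75e91468b13b9bc3e060a87012670684c1e0300810e26d2d95cb021058907f11148a91e8c (k8 c16118 c100 c16277 c59 c4411 c289 c16289 c16307 (k8 c16312 c16311 c63 c93 c4993 c537 c16317 c54 (k8 c55 c16209 c531 c16200 c15515 c263 c4726 c287 (k8 c4462 c56 c3007 c3009 c3010 c1027 c3234 c3012 (k8 c3011 c3008 c15892 c15542 c2484 c2485 c8124 c7883 (k8 c3350 c15569 c3436 c10573 c7239 c4379 c5821 c8860 (k8 c2121 c15732 c4362 c4420 c11887 c15721 c555 c4158 (k8 c267 c16318 c559 c334 c15508 c6867 c678 c8246 (k4 c13092 c4530 c1775 c15777 k0))))))))) (by decide +kernel)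
def c16320 : PP 8 4 T 0x200000000000000000000008000100000800 := rS 0xb41c2b9643e09 (k4 c84 c2405 c535 c16128 (k2 c4466 c4476 (k1 c2958 k0))) (by decide +kernel)
def c16321 : PP 8 4 T 0x40000000000000000200000000000010000000000001100000400 := rS 0x78041d (k4 c1028 c16286 c4466 c223 k0) (by decide +kernel)
def c16322 : PP 8 4 T 0x40000000000000000200000000000010000000008000100000000 := rS 0x4168009d0395c061e0e8d49ca4120c40a0b (k8 c16320 c6309 c173 c16321 c435 c434 c3377 c1027 (k8 c4466 c223 c1066 c1097 c1233 c4461 c4476 c4462 (k1 c13131 k0))) (by decide +kernel)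
def c16323 : PP 8 4 T 0x40000140100000000201105410001000010000010001080010001 := rS 0x2fd066f1c03c4d0d (k8 c4383 c9120 c11620 c352 c8928 c9038 c1241 c2122 k0) (by decide +kernel)
def c16324 : PP 8 4 T 0x1000000040000000000000000000000000000000000000008000100000000 := rS 0xbe37a904e24409861085588d4f6bd8c9dc109d4c1109a1101078021d3c9c4da572c01416bb4da3d1831 (k8 c173 c16118 c100 c862 c1390 c16320 c6309 c16322 (k8 c63 c4993 c537 c541 c1026 c950 c4466 c4461 (k8 c2302 c2340 c432 c433 c1233 c222 c15566 c4364 (k8 c3129 c3142 c3141 c3125 c13580 c4482 c616 c4439 (k4 c16323 c115 c435 c9852 (k2 c15814 c1404 k0)))))) (by decide +kernel)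
def c16325 : PP 8 4 T 0x200000000000080000000020000010000448 := rS 0xbe61371c41e08 (k4 c12637 c1330 c1304 c1059 (k2 c879 c576 (k1 c15586 k0))) (by decide +kernel)
def c16326 : PP 8 4 T 0x20000001000001000000000000400800000054044405554000400005000000000000400 := rS 0x142ae64c14e4c33a9e58ac1 (k8 c4450 c4370 c4447 c11627 c15480 c14226 c15639 c1731 (k2 c15749 c5930 (k1 c908 k0))) (by decide +kernel)
def c16327 : PP 8 4 T 0x1001000040000000000000000000000004000011000100008000001100000 := rS 0x24da294160f91253531394a4b411fc1c4da29e5fa6054c617e2f2eac4f61b5989a1a23209dd028545a1e106b219a4da31899c4bebb5ec506a070e8e51e371299cc629328f4101f2d15c1602028051820 (k8 c16324 c16118 c9668 c311 c4461 c16254 c799 c4476 (k8 c86 c12637 c234 c12368 c2834 c11648 c919 c2142 (k8 c1383 c100 c361 c85 c494 c16325 c4470 c4354 (k8 c4390 c9867 c1385 c4340 c173 c7462 c2842 c236 (k8 c6117 c4479 c4440 c4322 c4321 c4439 c7751 c1063 (k8 c832 c4383 c4467 c16243 c15894 c15585 c1115 c1338 (k8 c172 c6330 c4472 c1507 c14689 c15740 c4447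 c15668 (k8 c377 c879 c672 c2122 c1333 c1936 c4474 c4490 (k8 c2391 c7314 c16326 c400 c401 c2427 c1121 c13127 k0))))))))) (by decide +kernel)
def c16328 : PP 8 4 T 0x1001000040000000000000000000000004000011000000008000001100000 := rS 0xfa73638ec930468445462c562e4ea9544aac7e534d110ca631e99d622b0897452268688d1687841ac8669368c626712f87d6b141a81c3a39478dc4a082d15c160202804408c (k8 c16118 c16324 c9668 c311 c4461 c16254 c799 c4476 (k8 c12637 c2142 c1383 c100 c361 c85 c494 c16325 (k8 c4470 c4389 c86 c9867 c1385 c4340 c173 c7462 (k8 c2842 c236 c6117 c4479 c4440 c4322 c832 c4383 (k8 c4467 c2834 c1338 c343 c10518 c1115 c919 c234 (k8 c11648 c12368 c16327 c441 c2388 c15759 c13155 c7314 (k8 c11624 c11627 c7514 c11210 c15858 c1467 c4338 c943 (k4 c6230 c369 c11556 c2429 (k2 c4408 c4409 (k1 c15886 k0)))))))))) (by decide +kernel)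
def c16329 : PP 8 4 T 0x1001000040000000000000040000000004000010000100000000001000000 := rS 0x284a024ab9566756a99126316a4ce9175291c7882071368a797e98153185fa6c5e5d589ec36b3209dd0285459c4be1f5daf62835038e46e13828fcca2b638984b0d11a3ca2540a8750f083590c10692d15c160202a30da01100c62632 (k8 c16319 c4340 c173 c16324 c9668 c7462 c16118 c311 (k8 c4461 c16254 c799 c4476 c2842 c12637 c236 c6117 (k8 c4479 c4440 c85 c14481 c16328 c1604 c100 c832 (k8 c4383 c2142 c4467 c2170 c10518 c1646 c8954 c4406 (k8 c34 c1383 c361 c494 c16325 c4470 c4354 c4390 (k8 c86 c9867 c1385 c4322 c4321 c4439 c7751 c1063 (k8 c16243 c15894 c15585 c1115 c1338 c172 c863 c6330 (k8 c4472 c1507 c14689 c15740 c4447 c15668 c377 c879 (k8 c2122 c13108 c1332 c1936 c4416 c235 c1654 c329 (k8 c7047 c9049 c4490 c13185 c593 c14464 c15749 c15820 (k2 c908 c4473 (k1 c4423 k0)))))))))))) (by decide +kernel)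
def c16330 : PP 8 4 T 0x2010000000001000000000000101140000000000015411514000201048008040000200 := rS 0x27a98fa83a2b25f881841a4b513 (k8 c4340 c4476 c2842 c4479 c4439 c15573 c7308 c15705 (k4 c4306 c4379 c4490 c13587 (k1 c903 k0))) (by decide +kernel)
def c16331 : PP 8 4 T 0x1001000040000000000000000000000005000012000241008000000000000 := rS 0x39fa6051ae4bab1599ac827734c4e28393897c3e3f328ad524d13434468f52a686e25040d40e5a2b82c0405008751820 (k8 c16324 c16118 c85 c9668 c311 c4461 c16254 c799 (k8 c4476 c494 c16325 c12637 c2142 c1383 c441 c15613 (k8 c100 c832 c4383 c4467 c2342 c975 c10518 c1646 (k8 c8954 c86 c9867 c1385 c361 c4470 c4340 c2842 (k8 c7751 c1063 c6117 c16243 c1115 c1338 c7514 c1467 (k4 c16330 c4302 c879 c13108 k0)))))) (by decide +kernel)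
def c16332 : PP 8 4 T 0x1001000040000000000000040000000004000010000000000000001000000 := rS 0x56aacce636024ce83c4d110ca543d8ac2a1d4eacd0f083590c10692d15c160202a30da01100c62632 (k8 c16319 c4340 c173 c16324 c9668 c7462 c16118 c311 (k8 c4461 c16254 c799 c4476 c2842 c12637 c236 c6117 (k8 c4479 c4440 c16243 c968 c85 c14481 c10518 c15585 (k8 c16328 c1646 c16329 c441 c16331 c235 c1654 c445 (k4 c7047 c593 c1973 c1987 (k1 c14373 k0)))))) (by decide +kernel)
def c16333 : PP 8 4 T 0x20000001000001000000000004400800000054044401554000400005000000000000400 := rS 0x142ae64c14e4c33a9e58ac1 (k8 c4450 c4370 c4447 c11627 c15480 c14226 c15639 c1730 (k2 c15749 c5930 (k1 c908 k0))) (by decide +kernel)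
def c16334 : PP 8 4 T 0x2000000001000000000000000000000000000000000054014000008008008200008200 := rS 0x9368a50581f (k4 c86 c400 c401 c2427 (k2 c1121 c13127 k0)) (by decide +kernel)
def c16335 : PP 8 4 T 0x1001001000040000000000000000000004001000011000040008000000109000 := rS 0xc728b4158ab4d465129929a989cb94a8fcca7f2498c7a671787c56112e8a53ab31343446413ba151687841acd3135baf56b141a81c3a39478dc4a082d15c160202804408c (k8 c16118 c16324 c9668 c311 c4461 c16254 c799 c4476 (k8 c12637 c2142 c1383 c100 c361 c85 c494 c16325 (k8 c4470 c4389 c4354 c4353 c4340 c2842 c6117 c4479 (k8 c4440 c4322 c4321 c7751 c1063 c832 c4383 c4467 (k8 c16243 c968 c2834 c1338 c343 c10518 c86 c172 (k8 c919 c234 c11648 c4199 c1456 c12368 c16334 c11624 (k8 c7514 c13104 c449 c2391 c2010 c7314 c16333 c4488 (k4 c13155 c11210 c943 c1864 (k2 c2429 c4090 k0))))))))) (by decide +kernel)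
def c16336 : PP 8 4 T 0x1001000040000000000000040000000000000010000000000000001000000 := rS 0x142501254c4e22afd96c1572ad5a674498c5a741e11ca2c7328fe0a545492c9a6006839fa6e5eaee285f1aa1d1681841044c37359dd662521a74d20704168ae110a82c56023d814bb0d898743e231ca3d186d008806232 (k8 c16319 c173 c16324 c9668 c7462 c16118 c100 c361 (k8 c832 c86 c85 c4340 c4383 c1338 c311 c15585 (k8 c4461 c10518 c16254 c14481 c343 c799 c4476 c12637 (k8 c494 c2842 c968 c236 c2142 c16243 c7751 c6117 (k8 c1383 c4467 c1063 c4479 c4439 c4322 c4440 c16325 (k8 c9867 c4470 c4390 c4354 c16332 c4378 c8928 c1289 (k8 c14316 c2162 c1333 c2979 c16335 c4406 c8954 c1646 (k8 c2170 c1604 c1603 c13108 c235 c329 c7047 c9049 (k8 c593 c942 c14464 c15749 c8008 c8140 c9441 c445 (k4 c2114 c449 c453 c908 (k2 c4473 c4423 k0))))))))))) (by decide +kernel)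
def c16337 : PP 8 4 T 0x40000440000000000201005404001020000000008000400404024 := rS 0x2090211539744f0d47ac4d41a (k8 c430 c431 c1116 c100 c4383 c15795 c1337 c902 (k4 c7312 c1923 c6353 c4570 k0)) (by decide +kernel)
def c16338 : PP 8 4 T 0x1000000040000000000000000000000001000020000000008000000000800 := rS 0x4e102e1b90aa95fc24f6770d10cd20f0205cc20386c4c62231ca3cb6bb461e536450487c4057 (k8 c63 c16324 c86 c1105 c13923 c863 c541 c16118 (k8 c1390 c93 c100 c361 c832 c173 c4340 c4383 (k8 c16254 c2599 c2497 c534 c6403 c822 c2293 c430 (k8 c15565 c703 c4316 c15907 c1507 c10079 c16337 c1108 (k2 c10992 c806 (k1 c7312 k0)))))) (by decide +kernel)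
def c16339 : PP 8 4 T 0x2001000000040000440100000000001005414000000000000028000000000000 := rS 0x9abc27aa4722047a310283 (k8 c4306 c4380 c16118 c100 c16324 c361 c1507 c1491 (k2 c2122 c377 (k1 c7460 k0))) (by decide +kernel)
def c16340 : PP 8 4 T 0x400000001000000000000800000001400000000000000000000040100008000000000 := rS 0x1504d (k2 c9875 c4566 (k1 c975 k0)) (by decide +kernel)
def c16341 : PP 8 4 T 0x1000000040000000000000000000000405000020000000028000000000000 := rS 0x100832f29c9afd27aa57e853083c4cb11bc345e310e88c727147aecf211012443606029ed3a4305804b7134d914121f1015cba8c (k8 c16118 c1337 c63 c16324 c86 c1105 c13923 c863 (k8 c4340 c93 c9668 c16338 c6257 c967 c7035 c6309 (k8 c4462 c15581 c129 c12555 c15533 c541 c1390 c100 (k8 c537 c361 c832 c85 c173 c172 c4383 c87 (k8 c1034 c15618 c1329 c616 c15741 c16340 c1507 c1491 (k4 c16339 c377 c903 c4477 (k2 c9038 c15876 (k1 c14329 k0)))))))) (by decide +kernel)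
def c16342 : PP 8 4 T 0x40000000000000000200000000000040000000010004200000400 := rS 0x38c2248688d1e02 (k8 c12555 c100 c832 c4383 c4467 c878 c224 c15653 k0) (by decide +kernel)
def c16343 : PP 8 4 T 0x1000000040000000000000000000000405000020000000008000000000000 := rS 0x802f20dfa0f8a1844c8526aa57e352ec345e311c9c51e1101245187b4e90c025b89a6cd21b0301416450487c4057 (k8 c63 c16324 c86 c1105 c13923 c16338 c6309 c4462 (k8 c15581 c823 c863 c4340 c93 c9668 c6257 c967 (k8 c7035 c16118 c129 c12555 c15533 c100 c537 c361 (k8 c173 c172 c4383 c1337 c16341 c6330 c1507 c377 (k8 c10079 c16342 c4565 c4538 c15653 c14693 c9038 c4477 (k2 c15833 c14329 k0)))))) (by decide +kernel)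
def c16344 : PP 8 4 T 0x1001000040000000000000040000000000000000000000000000001000000 := rS 0xd0dc770302c1258368043e1d100c4648c (k8 c16118 c16319 c173 c16324 c85 c86 c9668 c7462 (k8 c16336 c1105 c16338 c4462 c1024 c16343 c1019 c15571 k0)) (by decide +kernel)
def c16345 : PP 8 4 T 0x1000000000000000000080200000000000010000000000000100000800 := rS 0x15028a8e8662d15caa09398b5263b (k8 c3030 c158 c7177 c3084 c84 c307 c16128 c4476 (k4 c928 c929 c14360 c2573 (k2 c286 c12611 k0))) (by decide +kernel)
def c16346 : PP 8 4 T 0x1000040000020000058000000000000000000000000000102000000000 := rS 0xc6151248f43 (k4 c4394 c3352 c283 c11776 (k2 c4473 c291 k0)) (by decide +kernel)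
def c16347 : PP 8 4 T 0x1000040000000000000080200000000000000000000000000100000000 := rS 0x248d47c1e638744a2d5c278723b50a454693 (k8 c158 c1468 c129 c898 c3030 c3209 c1198 c1197 (k8 c7177 c16346 c1028 c1391 c4466 c1193 c3205 c370 (k1 c13269 k0))) (by decide +kernel)
def c16348 : PP 8 4 T 0x1001000040000000000000000000000000000000000000000000001000000 := rS 0x2050147e3c16004403b4aa4d2c8c (k8 c16118 c16344 c158 c159 c3030 c16347 c9668 c926 (k4 c927 c401 c2282 c15597 (k2 c4461 c16254 k0))) (by decide +kernel)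
def c16349 : PP 8 4 T 0x1000000040000000001001400000004000400080000140002000105010800 := rS 0x45102fc078dcee0942834068c (k8 c16118 c302 c16121 c6224 c84 c6033 c1384 c304 (k4 c4463 c4380 c16122 c16160 k0)) (by decide +kernel)
def c16350 : PP 8 4 T 0x2000000000000000005000000054000000010044084000000000080000000800 := rS 0x7f8b1ccab11 (k4 c4411 c12681 c13701 c4487 (k2 c6629 c15634 k0)) (by decide +kernel)
def c16351 : PP 8 4 T 0x102000002000000008000000000000000000410000000001000000000000001800 := rS 0x154fe738b84d6615 (k8 c4284 c662 c4401 c4362 c1087 c10049 c307 c15664 k0) (by decide +kernel)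
def c16352 : PP 8 4 T 0x1000000040005000015001040000004000400080000040000000125010800 := rS 0x260629b19915189514a4c76e4 (k8 c16348 c4403 c1029 c4402 c762 c16118 c3234 c16324 (k4 c765 c16349 c15862 c1032 k0)) (by decide +kernel)
def c16353 : PP 8 4 T 0x100001000000040000040001000040000000011040080001000000000101000802 := rS 0x4b2790986c1439dc369d28acc2a57049ecc629723f022240e0141a03078dd18ad34aacca6b (k8 c2540 c2539 c13092 c757 c6230 c16118 c1384 c304 (k8 c302 c16121 c54 c567 c1028 c278 c4463 c16348 (k8 c4402 c754 c2686 c84 c16128 c4284 c662 c4405 (k8 c968 c686 c6033 c13785 c14373 c16351 c16352 c338 (k2 c1954 c16179 k0))))) (by decide +kernel)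
def c16354 : PP 8 4 T 0x1000000040000000000000040000000000000010000000020000101000802 := rS 0x7e8b955847360b153a995790cf23144869366c55ab60a491599cfafc30b2422a95da8d2695228904e6335994387b348148e13288a58e33078dd66155aadc76e42f9c41a032d15c128c (k8 c16118 c84 c16128 c4476 c302 c16121 c1303 c576 (k8 c16348 c4403 c1037 c7883 c4284 c662 c1384 c304 (k8 c16324 c4289 c4402 c4405 c4401 c4404 c54 c757 (k8 c2686 c567 c2539 c2540 c754 c871 c1028 c3234 (k8 c762 c1029 c1463 c3350 c3477 c278 c10573 c12807 (k8 c4463 c4379 c15852 c16350 c282 c10878 c6230 c13092 (k8 c16353 c865 c5889 c680 c294 c2581 c335 c5815 (k8 c1032 c969 c4530 c6869 c15776 c15862 c307 c4362 (k2 c2107 c10049 k0))))))))) (by decide +kernel)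
def c16355 : PP 8 4 T 0x1002001000000040000000000000000000000001501500000010000005008005001 := rS 0x2891240a0c9a11 (k4 c4300 c374 c4306 c4380 (k2 c4479 c16189 (k1 c15786 k0))) (by decide +kernel)
def c16356 : PP 8 4 T 0x20000000001000000040000440100000000000505414000000050000100000000001000 := rS 0x28a4b (k2 c14609 c15668 (k1 c4474 k0)) (by decide +kernel)
def c16357 : PP 8 4 T 0x401002000000000040008000411010040010000010540400000404000005001100000 := rS 0x6351994fe8739aae9717 (k8 c4362 c4459 c1947 c1088 c7659 c10049 c7555 c4526 (k2 c7770 c10398 k0)) (by decide +kernel)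
def c16358 : PP 8 4 T 0x1002000000005000000001000000000000000000000050002040080000000 := rS 0x3d298eca23f (k4 c4288 c4405 c4403 c4290 (k2 c274 c12813 k0)) (by decide +kernel)
def c16359 : PP 8 4 T 0x1002001000000040000000000011040000000010000180000000100001101000801 := rS 0x144aba5d0da0481e9fcc7111530d52c15f9155a791844cd87d648461a8f099447ec70483c6eb306a30ce55309ed3e272f91c86890ab90826b199a434170f0740803 (k8 c302 c4461 c758 c4466 c2552 c4465 c15527 c16324 (k8 c559 c7115 c16348 c4284 c678 c2208 c4404 c576 (k8 c351 c11480 c2688 c615 c12210 c5084 c16118 c16121 (k8 c662 c1384 c304 c84 c4289 c4288 c4405 c4401 (k8 c100 c4383 c4300 c4305 c4379 c16355 c4342 c695 (k8 c2583 c944 c2235 c15907 c6869 c1507 c16357 c16358 (k8 c4411 c1606 c6629 c15869 c2107 c15657 c4421 c4426 (k2 c1671 c4489 (k1 c4526 k0))))))))) (by decide +kernel)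
def c16360 : PP 8 4 T 0x1000000040000000000000040000000000000010000000020000101000800 := rS 0x1faa14e88a121e128103a01388e452e4199741a5a2b824068c (k8 c16118 c302 c84 c16128 c4476 c16121 c1338 c16324 (k8 c16348 c4402 c116 c1303 c16354 c758 c4461 c15534 (k4 c4466 c16280 c1100 c3248 (k2 c770 c16359 (k1 c15611 k0))))) (by decide +kernel)
def c16361 : PP 8 4 T 0x2000002001000000000000000000001000000000001000400000040002000011000000 := rS 0x429a43713 (k4 c4441 c295 c1878 c10110 (k1 c16167 k0)) (by decide +kernel)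
def c16362 : PP 8 4 T 0x2000002001000000000000000000000000000004000000000000040010000005401800 := rS 0x22825066f (k4 c4378 c4306 c84 c438 (k1 c16291 k0)) (by decide +kernel)
def c16363 : PP 8 4 T 0x2000040000000400000000000000000000001000000150042080015000 := rS 0x248f48e131d8547ec7 (k8 c4289 c4288 c4284 c4403 c4401 c4404 c274 c282 (k1 c15874 k0)) (by decide +kernel)
def c16364 : PP 8 4 T 0x2001000000040000000000000000000000001000180000040010000101000800 := rS 0x43995a0a056a2c90ca3f98e222a2712e8aa589224d3090d1ad5eab54934627d41a0592112384ca229638cc1eb30aa8caa6700b90490d119ec2e048a17ce239138783a370680d189d (k8 c968 c16118 c302 c16121 c1384 c1027 c4466 c2312 (k8 c1114 c7095 c576 c4470 c270 c2552 c2688 c1297 (k8 c4383 c4467 c16348 c567 c5084 c2200 c9264 c4284 (k8 c662 c304 c16324 c4289 c4402 c4405 c4401 c4404 (k8 c4300 c4305 c4380 c4306 c4379 c16361 c284 c1504 (k8 c5962 c5815 c6097 c16362 c4316 c15527 c678 c4479 (k8 c4444 c15786 c1373 c4474 c16363 c4411 c1606 c6629 (k8 c13690 c2107 c1752 c2027 c283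 c452 c1736 c1630 (k1 c2120 k0))))))))) (by decide +kernel)
def c16365 : PP 8 4 T 0x2000000001000000000000000000000000000000000440000500044452002095560800 := rS 0x158f1a24c20accaa8b021dc128762b04f245 (k8 c438 c14867 c6869 c4530 c13785 c84 c6033 c270 (k8 c13509 c2200 c662 c1913 c16194 c2219 c13636 c14934 (k1 c274 k0))) (by decide +kernel)
def c16366 : PP 8 4 T 0x1000000000000020444040040044040001140090000140000000100400000 := rS 0x4d46158413298d129339c5cd679 (k8 c14867 c580 c4361 c1086 c1126 c7172 c843 c7044 (k4 c14593 c2120 c4472 c13185 (k1 c4448 k0))) (by decide +kernel)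
def c16367 : PP 8 4 T 0x2000000000015000000000000000000000000000000150042080000000 := rS 0x923d238ec7ec7 (k4 c4289 c4288 c4403 c4404 (k2 c274 c282 (k1 c2113 k0))) (by decide +kernel)
def c16368 : PP 8 4 T 0x2000000010015400000040054005400040001000001150082000000000 := rS 0x458e693501212a471d8fd8f11 (k8 c4411 c4289 c4288 c4403 c4404 c1694 c2113 c283 (k4 c1738 c13701 c4487 c15726 k0)) (by decide +kernel)
def c16369 : PP 8 4 T 0x2000000001002000000000004000040040000040001000090000040154002115020800 := rS 0x2309a20ab0ca7349a522e3c31a2454b957aac626b3cb150e7722a2cd253098eca23f1482566152a99c027b0b8103cb5 (k8 c4389 c4466 c270 c2552 c2688 c567 c5084 c2200 (k8 c4284 c662 c84 c4402 c4288 c4405 c4403 c4401 (k8 c4290 c13396 c13509 c438 c6033 c13785 c4530 c14867 (k8 c580 c16365 c5962 c5815 c16366 c16367 c13072 c1606 (k8 c16368 c4416 c275 c1655 c1614 c1697 c2120 c14593 (k2 c860 c4472 (k1 c4448 k0))))))) (by decide +kernel)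
def c16370 : PP 8 4 T 0x1000000000001420444040040000840001140090000140000000100400000 := rS 0x8b43b3ce717 (k4 c4361 c1086 c1525 c7043 (k2 c645 c16366 k0)) (by decide +kernel)
def c16371 : PP 8 4 T 0x2000000010015400000040015005400040001080001150082000000000 := rS 0x3291448238ec7ec7 (k8 c4289 c4288 c4403 c4404 c2113 c16368 c453 c1753 k0) (by decide +kernel)
def c16372 : PP 8 4 T 0x10000000002000000010015444040440015805401540011080000150002180000000 := rS 0x934365b21149f32ab526948b8f0c62a (k8 c16367 c1606 c16371 c4416 c275 c1655 c13185 c1697 (k4 c1698 c2120 c644 c1753 (k2 c4422 c453 (k1 c5588 k0)))) (by decide +kernel)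
def c16373 : PP 8 4 T 0x10000001002000000000145444040040001044001540091000150150002188420000 := rS 0x1960a86152e4ee824d93a30c1629e57e3b28935121525a962509 (k8 c4316 c4479 c4444 c1373 c4284 c678 c2218 c4405 (k8 c4403 c6330 c599 c4530 c6869 c4472 c2114 c4448 (k8 c447 c2002 c16370 c16367 c16372 c4410 c1652 c4904 k0))) (by decide +kernel)
def c16374 : PP 8 4 T 0x4020020040040000000000000000000000000000000000000 := rS 0x12b11 (k2 c4338 c861 (k1 c5821 k0)) (by decide +kernel)
def c16375 : PP 8 4 T 0x1000002000040000020454001000005004001554000015201150000008000000 := rS 0x14a66a29824e63adc76bb5ac5112158cb3d863f (k8 c4288 c1209 c1526 c4364 c4284 c678 c4470 c4389 (k8 c4390 c4403 c7094 c4289 c15885 c14373 c2120 c1479 (k2 c8268 c4427 k0))) (by decide +kernel)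
def c16376 : PP 8 4 T 0x1000002000040000000444040040001044401540090000200150042088000000 := rS 0x3ac150cad3298d26738bae0923d5b8ed6b144e93496a589425863f (k8 c4288 c1209 c4316 c4479 c4444 c1373 c2218 c968 (k8 c4470 c4389 c4403 c7094 c274 c282 c16367 c4361 (k8 c1086 c1126 c843 c7044 c16374 c16375 c4410 c1693 (k1 c4481 k0)))) (by decide +kernel)
def c16377 : PP 8 4 T 0x10000000001002000000000005144040040014000401546080014001150082000000820 := rS 0x14565a9958a04599490755ca548e3b1fb1cf711 (k8 c4411 c2688 c4289 c4288 c4403 c4404 c1694 c5821 (k8 c10223 c2113 c578 c4632 c283 c2120 c900 c2027 (k2 c4453 c4599 k0))) (by decide +kernel)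
def c16378 : PP 8 4 T 0x1002000000000005144040040014000001542090014200150082080000800 := rS 0xad32b01283c59854f6044ec65863f3b824c655 (k8 c2200 c1606 c84 c1089 c4288 c1209 c4364 c968 (k8 c270 c2688 c4284 c662 c16377 c275 c445 c1697 (k2 c861 c14373 k0))) (by decide +kernel)
def c16379 : PP 8 4 T 0x1000000040000000000000040000000001000010000040000000101000800 := rS 0x1960a86151dc884b52abd5641890c5124d349ae121a3fa1420607e94452332eac41eb30aa8caa67008921a233d85c08b71db90be710680cb45704aed7ab58a0e44e1e0e8d46e8c (k8 c16118 c1384 c16360 c1027 c4466 c2312 c1114 c4470 (k8 c4389 c4354 c4390 c84 c16128 c4476 c302 c16121 (k8 c7095 c576 c16348 c4403 c7094 c270 c2552 c2688 (k8 c1297 c4383 c4467 c567 c5084 c2200 c9264 c4284 (k8 c662 c304 c1115 c1338 c16324 c4402 c4405 c16364 (k8 c4477 c4463 c2693 c2653 c16369 c4316 c559 c15527 (k8 c2218 c678 c295 c4479 c7115 c5962 c5815 c4444 (k8 c1373 c16373 c1089 c16376 c16378 c4410 c1652 c4904 k0)))))))) (by decide +kernel)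
def c16380 : PP 8 4 T 0x1000000040000000400000000000000000040081000080110002101005020 := rS 0xfcb808124eb0515a210e8b35b0da21b4c94c26510a8783a7b0badc76e45ac506e8c (k8 c16118 c1384 c4470 c4389 c16348 c4403 c7094 c2552 (k8 c2688 c1027 c4466 c4284 c4405 c4401 c4290 c1927 (k8 c335 c2210 c2054 c581 c13509 c13785 c2109 c14934 (k4 c4314 c597 c282 c16363 (k2 c16367 c5280 (k1 c671 k0)))))) (by decide +kernel)
def c16381 : PP 8 4 T 0x1000000040000000000000040000000000000010000000000000101000800 := rS 0x542fd3a4d209e43430359a6126c21af577143d89072672a8104e010f08c3a3506968aeb30780c130d0ab906e8c (k8 c16118 c1384 c16348 c4284 c4383 c84 c302 c304 (k8 c662 c16128 c4476 c16121 c16360 c1027 c1297 c4466 (k8 c567 c2312 c270 c2200 c5084 c1114 c4467 c2688 (k8 c4470 c4390 c4354 c16380 c16379 c4318 c180 c181 (k8 c695 c694 c2583 c7115 c2218 c969 c15907 c16203 (k1 c1507 k0)))))) (by decide +kernel)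
def c16382 : PP 8 4 T 0x200000000000010000000020002100000400 := rS 0x6070b623 (k4 c58 c15535 c1370 c10380 (k1 c4113 k0)) (by decide +kernel)
def c16383 : PP 8 4 T 0x1000000040000000000001000000000000000000000050052002005011000 := rS 0x9aa9072fdfa450eaed7b141ca451885 (k8 c6224 c16118 c129 c281 c4470 c4354 c4390 c1027 (k4 c297 c16167 c6330 c4463 (k2 c1507 c244 (k1 c16203 k0)))) (by decide +kernel)
def c16384 : PP 8 4 T 0x1000000000000020444040440044040001554000000054000000000000000 := rS 0x56a252717 (k4 c4361 c1126 c13253 c13185 (k1 c2120 k0)) (by decide +kernel)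
def c16385 : PP 8 4 T 0x1000000040000000444000040000000001040000000151050002085011012 := rS 0x2a410902a5c9fc1c9b7ec617e471fa8d8eb71dad62839489a516872898c526509b910a6b18a743a8c (k8 c16118 c1027 c15543 c16383 c493 c6224 c16348 c4401 (k8 c490 c4402 c754 c4405 c13785 c5853 c13396 c129 (k8 c281 c4470 c4389 c4403 c7094 c4289 c1463 c4288 (k8 c4404 c6330 c4472 c15740 c4448 c4463 c7414 c16384 (k4 c16367 c2113 c4191 c242 (k1 c4406 k0)))))) (by decide +kernel)
def c16386 : PP 8 4 T 0x1002000040004000444000040044000001554400000051050042080010200 := rS 0x441fd5a0e5c0547ea363adc76b58a0e5228c (k8 c16118 c129 c281 c4470 c4389 c4403 c7094 c4289 (k8 c1463 c4288 c4284 c16367 c12883 c16374 c1455 c2120 (k1 c13253 k0))) (by decide +kernel)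
def c16387 : PP 8 4 T 0x1000000040000000000000040000000000000090000000000000101000000 := rS 0x3f490555cc112b111530c886b57aac629d32904c60d43a2cd26d000f4be1b0295c8e13288fc52333880cce1e5aadc76118a0e5223751b1d66430401c3a3512231c80b (k8 c16381 c16348 c16118 c16321 c16382 c1027 c10458 c4462 (k8 c236 c10182 c4289 c1463 c1384 c129 c281 c4470 (k8 c16166 c4403 c7094 c4389 c4466 c15838 c223 c4387 (k8 c16324 c4402 c4288 c4405 c4401 c4404 c92 c574 (k8 c15894 c576 c13138 c4461 c5889 c13396 c5853 c13785 (k8 c1367 c754 c15539 c490 c15543 c16383 c5962 c5815 (k8 c493 c16385 c1209 c16386 c4411 c1694 c4191 c5821 (k4 c4406 c2113 c13582 c4199 k0)))))))) (by decide +kernel)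
def c16388 : PP 8 4 T 0x1000000040000000000000040000000000000010000000000000101000000 := rS 0xf37178ac5b018443d140e8d4722405a446e8c (k8 c16118 c1384 c129 c16381 c16321 c281 c16382 c1027 (k8 c4470 c4466 c16166 c223 c16387 c4476 c1068 c1067 (k2 c1376 c8928 k0))) (by decide +kernel)
def c16389 : PP 8 4 T 0x1000000040000000000000000000000000000000000000000001101000500 := rS 0xf0083a8c (k4 c16118 c1028 c16288 c4466 (k1 c222 k0)) (by decide +kernel)
def c16390 : PP 8 4 T 0x2001000000000010145101001044000001455000000100140104010025141020 := rS 0xab053f9245665674415a6b18c5e971226a6610405f4650a873da2cd29540a0d36c1 (k8 c6869 c765 c4306 c4380 c762 c13396 c13509 c14312 (k8 c13785 c6224 c15660 c2122 c4472 c4482 c3016 c9875 (k8 c4566 c15718 c15721 c1912 c4442 c4809 c4487 c4572 (k4 c4412 c4411 c1791 c1521 (k2 c15803 c266 (k1 c15664 k0)))))) (by decide +kernel)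
def c16391 : PP 8 4 T 0x40000000000001800002001002000000100140000000554010008000040000000140005042000015020 := rS 0x84a22297ec28bab59e653f414aa490985452a3639f58a3b60aaca319 (k8 c4366 c4405 c5962 c6869 c4403 c4530 c4379 c4289 (k8 c1463 c4402 c4284 c4401 c282 c266 c15669 c15664 (k8 c555 c1522 c4903 c15633 c15862 c4572 c1212 c4493 (k2 c724 c4397 k0)))) (by decide +kernel)
def c16392 : PP 8 4 T 0x40000000000001800002001002000000100145100000554210008154040004000140005002000015020 := rS 0xcb05562e567111528d8ec51db055651 (k8 c4405 c5962 c6869 c4403 c4530 c4289 c1463 c16391 (k4 c4411 c7239 c5821 c15747 (k2 c15732 c16238 (k1 c4903 k0)))) (by decide +kernel)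
def c16393 : PP 8 4 T 0x40000000000000800002001002000040000000000000140010008000040000014040025042000015020 := rS 0xa22109e8a5fb0a2ead67994fd052a9242aa363a5452936484cfa9b628ed82450e2315651 (k8 c4405 c5962 c16118 c1370 c3234 c6869 c4403 c4530 (k8 c765 c4379 c4401 c10573 c1029 c4402 c762 c4289 (k8 c1463 c4284 c282 c266 c15669 c15664 c555 c1522 (k8 c4903 c15633 c15862 c4572 c1212 c1491 c724 c4474 (k1 c4397 k0))))) (by decide +kernel)
def c16394 : PP 8 4 T 0x10000000400000000000010400000000150400040000400240020010110a0 := rS 0x158b959c44551425a9697128caad3289201e89a3135c2434c162a6ca2151cad56e77399d546c75daa43e23589157a8c4a8a5261c1d9e5920f09b90fafc (k8 c8124 c4379 c16348 c4401 c1329 c10573 c2485 c4403 (k8 c1370 c1029 c4402 c762 c16118 c3012 c3234 c3010 (k8 c58 c1100 c3477 c3350 c4289 c1463 c498 c1021 (k8 c1024 c1037 c7883 c116 c4284 c4405 c765 c4530 (k8 c6869 c16390 c4316 c559 c15508 c2218 c688 c689 (k8 c2661 c8246 c5962 c4366 c7035 c15718 c7884 c1373 (k4 c16392 c16393 c4411 c7239 (k2 c5821 c15747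 (k1 c15839 k0))))))))) (by decide +kernel)
def c16395 : PP 8 4 T 0x1000000040000000000000040000000000000000000000020000101000000 := rS 0x4d4292c2e4f1886c8483409e4cefc078441a043787d761c2e88c480604a746e332b96cda7147a301658 (k8 c16388 c535 c16118 c100 c537 c4993 c93 c63 (k8 c16324 c1384 c15569 c3111 c4462 c16389 c58 c3319 (k8 c1370 c3350 c1100 c1108 c10867 c4113 c15892 c1329 (k8 c8124 c15515 c2485 c4380 c4306 c16394 c334 c14397 (k4 c338 c1950 c1954 c6224 (k2 c284 c2108 k0)))))) (by decide +kernel)
def c16396 : PP 8 4 T 0x10000000002000000100015554040000055010114550020020000005440000000000 := rS 0x12672a19fc90ce4fb40c45316944526d (k8 c4993 c4402 c4405 c4286 c4290 c2120 c2112 c1610 (k4 c381 c380 c1521 c4421 (k2 c2121 c7994 (k1 c1109 k0)))) (by decide +kernel)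
def c16397 : PP 8 4 T 0x10000000002000000100015544040000055010114550020020000005440000000000 := rS 0x39c10c6ac (k4 c16396 c821 c6230 c1110 (k1 c15732 k0)) (by decide +kernel)
def c16398 : PP 8 4 T 0x2000001000108044000000200000000000000020000005440000000000 := rS 0x56b4540cf298b4a229 (k8 c4402 c4405 c4286 c4290 c1797 c1118 c381 c901 (k1 c2112 k0)) (by decide +kernel)
def c16399 : PP 8 4 T 0x1000000040000000000000040000000000000000000000000001101000000 := rS 0x48a1341249f569ca0a885b994eab566b0c98be8ca1610bb5e9f5068160a95326b15bf15eab43a2cd312649857315599ed626f0899cee791886c5e010793c7a051c02004262984c5a511f8a4665738a3c16580f07546231ab921a8c (k8 c16118 c4383 c16348 c16395 c1297 c9264 c1027 c4466 (k8 c16388 c535 c100 c537 c63 c16324 c4402 c4288 (k8 c4405 c4286 c4401 c4290 c9120 c16288 c16389 c352 (k8 c2309 c2313 c448 c2154 c9118 c8877 c422 c228 (k8 c9840 c15566 c918 c2302 c10965 c3125 c1225 c16243 (k8 c4348 c1201 c879 c10573 c4469 c13396 c5853 c13785 (k8 c5962 c5815 c4480 c10833 c4442 c4443 c4444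 c15691 (k8 c4380 c4306 c4379 c1119 c1389 c16245 c4321 c15605 (k8 c2122 c16323 c3227 c1485 c1518 c9847 c16238 c16398 (k8 c16397 c4314 c8855 c6230 c6237 c1109 c2112 c7994 (k2 c380 c4421 k0))))))))))) (by decide +kernel)
def c16400 : PP 8 4 T 0x44000000140020500080002010095140082 := rS 0x5435c1054d10b8240679 (k8 c2433 c228 c1106 c1950 c2210 c15828 c15609 c492 (k2 c14934 c4406 k0)) (by decide +kernel)
def c16401 : PP 8 4 T 0x1000000040000000000000040000000000000000000000002000105000010 := rS 0xd21a740c000490406530a8a4ae5b3699d6a1e0eadc76118a0e5223705a8c463586a31161343945c87734960ba24 (k8 c16399 c1336 c16388 c13396 c1112 c16348 c4405 c13785 (k8 c4401 c5853 c16118 c4383 c16395 c1297 c9264 c535 (k8 c1384 c129 c281 c4470 c16166 c4403 c7094 c1027 (k8 c4466 c4389 c15838 c4993 c93 c63 c4402 c4284 (k8 c4290 c228 c5762 c1106 c4726 c4462 c4733 c16400 (k2 c16173 c16383 k0)))))) (by decide +kernel)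
def c16402 : PP 8 4 T 0x11560144040440044415455554000000000000000000000000 := rS 0xb242a06968856b3d2717 (k8 c4361 c1126 c1525 c13185 c2120 c4457 c2045 c685 (k2 c7172 c15856 k0)) (by decide +kernel)
def c16403 : PP 8 4 T 0x1002000040000000044000040044000415141000000000051002084000090 := rS 0x828a9729b8c1f506c92f1acca6360b157e7b3c800ea732284ca2295188e1ab71daed62bd5ac507291461749a43 (k8 c276 c284 c1336 c16118 c129 c281 c4470 c4389 (k8 c4354 c4350 c4390 c4403 c7094 c4383 c1297 c9264 (k8 c4402 c4405 c4401 c8444 c1021 c498 c1098 c501 (k8 c14312 c6330 c4530 c6869 c754 c8511 c493 c14681 (k8 c7308 c548 c1380 c15692 c4448 c16402 c16367 c15732 (k1 c4191 k0)))))) (by decide +kernel)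
def c16404 : PP 8 4 T 0x1000000040000000000000040000000000000000000000000000105000010 := rS 0x8340a157e5e178348a7b01004100757aac8631378a4665b369c51e2730ac4ceb50f0756e3b08c507224488dc16a3118d61a8c4584d0e51721dcd258 (k8 c16388 c13396 c1112 c16348 c4405 c13785 c4401 c5853 (k8 c16118 c4383 c16395 c1297 c9264 c535 c1384 c129 (k8 c16399 c281 c4470 c16166 c4403 c7094 c1027 c4466 (k8 c4389 c15838 c4350 c616 c115 c100 c537 c4993 (k8 c93 c16324 c4402 c9852 c16401 c276 c5962 c5815 (k8 c16403 c4462 c486 c1106 c1225 c15651 c1368 c8877 (k4 c225 c6330 c6224 c14329 (k2 c6467 c15833 k0)))))))) (by decide +kernel)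
def c16405 : PP 8 4 T 0x44000000000000110000020 := rS 0x9 (k2 c263 c6846 k0) (by decide +kernel)
def c16406 : PP 8 4 T 0x1000000040000000000000040000000000000000000000000000101000000 := rS 0x1018680a1d1a82cda5b2b9611833 (k8 c16324 c16118 c16388 c63 c93 c4993 c535 c16395 (k4 c1027 c16405 c16404 c422 (k2 c686 c4726 k0))) (by decide +kernel)
def c16407 : PP 8 4 T 0x4000000000002000040000020000000000200000040000010001000020002500000000 := rS 0x3e9fd921106955660f000288e130ab1c6e71 (k8 c3348 c1384 c4289 c4284 c4401 c4404 c16382 c15534 (k8 c304 c662 c307 c568 c607 c10573 c10049 c1356 (k1 c2107 k0))) (by decide +kernel)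
def c16408 : PP 8 4 T 0x1000000040000000000000000000000000000000000000000000101000000 := rS 0x7e1fcab05068440c0137991645b2c12468240e08c3e7350a7971174b2451847098547ee4 (k8 c16348 c4288 c4284 c4401 c4404 c16118 c129 c16406 (k8 c4360 c1197 c1198 c898 c3084 c1193 c1299 c4466 (k8 c1028 c1027 c283 c16407 c93 c1195 c1196 c3207 (k8 c487 c1025 c15892 c4113 c4312 c15638 c15524 c8124 (k1 c15664 k0))))) (by decide +kernel)
def c16409 : PP 8 4 T 0x2000002001000000000000400000000000000000000000000040150000000005000000 := rS 0x2102d18 (k4 c4472 c12954 c15740 c523 k0) (by decide +kernel)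
def c16410 : PP 8 4 T 0x2001000000040000000000000000000000000000010000000004000001000000 := rS 0x53a149a16201a4365f0f9697b141b8e51f12178c49e2612afc8a352b90c100b01014028c03b903a20 (k8 c16408 c85 c16348 c10458 c16118 c9668 c311 c4461 (k8 c16254 c4462 c236 c799 c15616 c440 c6330 c2142 (k8 c9120 c448 c228 c8877 c4469 c100 c361 c1383 (k8 c4470 c4354 c4476 c86 c9867 c2396 c13396 c16409 (k4 c1064 c1994 c523 c14691 (k1 c15627 k0)))))) (by decide +kernel)
def c16411 : PP 8 4 T 0x1000000000000000040000040040000001510004000046000000000800200 := rS 0x410a874 (k4 c235 c234 c16257 c4406 k0) (by decide +kernel)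
def c16412 : PP 8 4 T 0x2000040000000000040041000040000060410000000110048000010008 := rS 0x170952ac44c6b3 (k4 c5025 c67 c4412 c1646 (k2 c1697 c10570 (k1 c5821 k0))) (by decide +kernel)
def c16413 : PP 8 4 T 0x20001000000000000000440115000000000004400000000000000405550000001008000 := rS 0x914b (k2 c15640 c2113 (k1 c4527 k0)) (by decide +kernel)
def c16414 : PP 8 4 T 0x1000000000440145444040440044000001552004040514550000001008200 := rS 0xc47d5c0f612830b20095185f90cfe4d (k8 c244 c672 c236 c6330 c4472 c2114 c1333 c1334 (k4 c127 c4439 c16411 c16413 (k2 c1356 c16384 (k1 c883 k0)))) (by decide +kernel)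
def c16415 : PP 8 4 T 0x2001000000000000000441414000000000004400000000000000405550000001008000 := rS 0x61d2890b5 (k4 c4389 c2113 c4527 c4459 (k1 c15656 k0)) (by decide +kernel)
def c16416 : PP 8 4 T 0x1000000040000000000000000000000000000010000000004000001000000 := rS 0x224c6ad3ea4e2eb8a1a0e123d3b058806565a9c9a7f07181fac15fa6c9eaf55aa48a912991c7e2963a8c470d59a5c5a67179b4622b08974d643131a516134386ca2b71d97c3e5a5daf56b141b89410070e8e51e352b82d18e4010140220 (k8 c16408 c9668 c311 c4461 c16348 c16118 c16254 c799 (k8 c15616 c100 c361 c85 c10458 c4462 c2142 c1383 (k8 c4470 c4389 c4354 c4390 c4476 c86 c9867 c4403 (k8 c7094 c4405 c2396 c13785 c4401 c5853 c13396 c9120 (k8 c236 c6117 c1338 c343 c10518 c228 c959 c8877 (k8 c5084 c4286 c926 c5025 c4383 c832 c9264 c4289 (k8 c4402 c4288 c4404 c4290 c129 c440 c6029 c5962 (k8 c5815 c448 c13624 c6330 c6869 c16410 c4477 c879 (k8 c672 c244 c14691 c15836 c16412 c16414 c1064 c1063 (k8 c16411 c4438 c2002 c15567 c16415 c4361 c1126 c1356 (k4 c13185 c883 c4529 c2120 k0)))))))))))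 (by decide +kernel)
def c16417 : PP 8 4 T 0x2410000001000000000000000000000000000000001001500000150011400005000000 := rS 0xbf (k2 c6330 c14689 k0) (by decide +kernel)
def c16418 : PP 8 4 T 0x1000000000002400000000002000001000014054000000000400001550080094201150000000000000 := rS 0x1291631306968962b419e48a191ca2c75ac65863f (k8 c4288 c1209 c4364 c4389 c4289 c4405 c4404 c15567 (k8 c4034 c1791 c452 c12768 c6175 c4426 c1710 c12794 (k2 c4494 c842 (k1 c4418 k0)))) (by decide +kernel)
def c16419 : PP 8 4 T 0x414000000004004000550080000202000000000000008 := rS 0x300c69d (k4 c2971 c7047 c445 c14373 k0) (by decide +kernel)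
def c16420 : PP 8 4 T 0x1000000000002400000000002000001000014014000000000400001550080094201150000000000000 := rS 0x652b89047288fd8eb5 (k8 c4389 c4289 c4288 c4405 c4404 c4034 c16418 c453 (k1 c8140 k0)) (by decide +kernel)
def c16421 : PP 8 4 T 0x1000000000002400000001002000001000004414000800004404005150080094250150000000000008 := rS 0x2b8c6c5449ccfeb81e8fcd671 (k8 c4387 c6117 c4288 c16419 c16420 c7096 c1086 c13253 (k4 c1255 c843 c12794 c869 k0)) (by decide +kernel)
def c16422 : PP 8 4 T 0x2001000000040000000000000000000000000010010000000000000001000000 := rS 0x1d4e7044aa498111552c56697339ed0e515b8ed926f4cd149c4b66a99524d132061085419ad4a9a22184827734c4cbe1f2d450728f0d90c626d179761a37128200e1d1a95c168c010140220568c85ae4 (k8 c16348 c4286 c16416 c942 c16408 c9668 c311 c4461 (k8 c16118 c16254 c799 c15616 c85 c10458 c4462 c2142 (k8 c1383 c4383 c1338 c8877 c959 c228 c236 c2396 (k8 c100 c361 c4470 c4476 c86 c9867 c4340 c13396 (k8 c7751 c1063 c4302 c16417 c441 c15613 c6117 c4306 (k8 c14326 c4479 c4439 c9120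 c2342 c975 c2119 c2066 (k8 c1856 c903 c15705 c1129 c4378 c4305 c4403 c7094 (k8 c4405 c13785 c12934 c5084 c926 c5025 c1115 c16421 (k8 c4415 c1972 c1973 c1701 c13092 c1620 c1656 c15837 k0))))))))) (by decide +kernel)
def c16423 : PP 8 4 T 0x2000040000000000040041000000000060490000000110048000010008 := rS 0x7f (k2 c2557 c16412 k0) (by decide +kernel)
def c16424 : PP 8 4 T 0x2400001001002000000000000410000000000000001152080010150150008000000448 := rS 0x50ab91263648f092ab829519aa6a29397e471d8fd8e085daf4fe4b07206106b (k8 c6117 c4479 c4439 c879 c1333 c672 c4354 c4390 (k8 c4462 c4289 c4288 c4403 c4404 c6330 c2114 c4396 (k8 c449 c1479 c13136 c4406 c13092 c15820 c15739 c1726 (k4 c7047 c9049 c12794 c5930 (k1 c908 k0))))) (by decide +kernel)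
def c16425 : PP 8 4 T 0x2410001000002000000000000415100800044000001552010012001010000000018000 := rS 0x1444129ca87f (k4 c672 c242 c15820 c13093 (k2 c4490 c4452 k0)) (by decide +kernel)
def c16426 : PP 8 4 T 0x2410001001002000000000004414100800044004001152090010250150000000010008 := rS 0x272fe96cb5718d9e893eae093431e91ca2c74eaed6aa93f92c1c81841ad863f (k8 c4288 c1209 c6117 c4479 c4439 c879 c1333 c672 (k8 c2979 c4389 c4390 c2971 c4289 c4405 c4404 c16419 (k8 c15567 c16425 c4034 c1356 c13253 c1526 c883 c2120 (k4 c8140 c4428 c9441 c15847 (k1 c6220 k0))))) (by decide +kernel)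
def c16427 : PP 8 4 T 0x1000000040000000000000000000000000000010000000000000001000000 := rS 0xaab91e9ce2e634aa49a2c088aa94a994d1109a7f54981fa65209dd5b131917e28b743a2cd2261b9ec3625218d4b4082b844162b3680966070297522131d9443a1f1ca5c5a6700a8c462047b921a8c (k8 c16118 c4383 c16348 c100 c16408 c832 c9264 c9668 (k8 c5084 c4286 c926 c361 c86 c85 c4405 c4403 (k8 c4401 c129 c1338 c311 c10458 c5025 c4461 c959 (k8 c10518 c16254 c343 c799 c4462 c4476 c15616 c236 (k8 c2142 c2396 c12934 c1383 c9120 c13396 c5853 c13785 (k8 c7094 c4470 c9867 c16416 c4340 c942 c7751 c1063 (k8 c16423 c16422 c4477 c2979 c672 c377 c16424 c441 (k8 c1129 c15613 c16426 c4415 c1972 c1670 c1973 c1701 (k4 c1612 c4420 c1620 c444 (k2 c15666 c15681 (k1 c10570 k0))))))))))) (by decide +kernel)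
def c16428 : PP 8 4 T 0x2001000000000000140000000000000001414000000040140000000005000000 := rS 0x405f4650b083dac50283 (k8 c4306 c4380 c4304 c14312 c16245 c4321 c15605 c2122 (k2 c4472 c1054 k0)) (by decide +kernel)
def c16429 : PP 8 4 T 0x1000000000005000000000000000040100015144000000000000154150000544000005550000000000 := rS 0xd1569260b42 (k4 c4492 c15732 c4421 c6230 (k2 c7073 c2112 k0)) (by decide +kernel)
def c16430 : PP 8 4 T 0x4020044040040000000000000000520000005550000000000 := rS 0x3455acf (k4 c1526 c16374 c381 c2112 k0) (by decide +kernel)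
def c16431 : PP 8 4 T 0x1000002001000000040000000000000000000000000000000000000020000001000000 := rS 0xc8b25c9328abe8ba14f7086192c2e425daf54a4f4cabd5712348cc3675399dc0c79158c45e0b0101506816484562530994452971699c02a3369c48a090f95d6ab71db90de58130943b0d118811e8c (k8 c16118 c100 c16408 c832 c4383 c85 c1370 c4467 (k8 c16427 c15571 c16348 c4403 c1037 c7883 c63 c86 (k8 c1105 c13923 c537 c4993 c9264 c9668 c5084 c4286 (k8 c926 c4402 c4405 c4401 c4290 c4304 c4300 c4305 (k8 c4380 c4306 c350 c4461 c534 c8877 c228 c10518 (k8 c9840 c4462 c1024 c1021 c498 c15581 c16343 c13396 (k8 c4469 c5962 c5815 c6171 c448 c4444 c1119 c1389 (k8 c16428 c1950 c1954 c2054 c4465 c4320 c4321 c15721 (k4 c2122 c4399 c4474 c16430 (k2 c8860 c16429 (k1 c553 k0))))))))))) (by decide +kernel)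
def c16432 : PP 8 4 T 0x200000000200000000000000000000040000200004000 := rS 0x8c00b (k4 c623 c1116 c12555 c879 k0) (by decide +kernel)
def c16433 : PP 8 4 T 0x2001000000040000000000000000000000000000000000000020000001000000 := rS 0x1a2ad629960ab25c9328abe8b9ee10c32585e324227abd56691986cea733b818f22b188bc16025eaec0b143ea0d92112984ca2294b8b4ce01519b4e2450487caeb55b8edc82612c34468f5883cde580e8dc408c (k8 c16118 c16408 c87 c85 c16427 c15571 c1329 c16432 (k8 c100 c832 c4383 c1370 c4467 c16348 c4403 c1037 (k8 c7883 c63 c86 c1105 c13923 c537 c4993 c9264 (k8 c9668 c5084 c4286 c926 c4402 c4405 c4401 c4290 (k8 c4300 c4305 c4306 c4379 c16431 c350 c4390 c4354 (k8 c4461 c534 c8877 c228 c10518 c9840 c4462 c1024 (k8 c1021 c498 c15581 c16343 c13396 c5962 c5815 c448 (k8 c16428 c4446 c1950 c1954 c2054 c4465 c4320 c15721 (k8 c15692 c4399 c4474 c16430 c15708 c15732 c553 c1250 (k2 c6230 c341 (k1 c2112 k0))))))))))) (by decide +kernel)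
def c16434 : PP 8 4 T 0x1000000040000000000000000000000000000000000000020000005000004 := rS 0xc95cb399a4c3ed14c6738b9d52abe608f1894b419e5a0af559ac62816192c5f1942c20ee8745908f6692984ca2293396c8a090f95d6e3b2f184babb8a3f5620f378dce217068ccda5859855c8550513c0801130943b0d118811e8c (k8 c16118 c100 c16408 c832 c4383 c85 c1370 c4467 (k8 c9668 c4461 c2415 c12555 c12210 c16348 c4284 c662 (k8 c16427 c4993 c16338 c2495 c2497 c537 c87 c15571 (k8 c1329 c16432 c16433 c4480 c4390 c1337 c616 c4477 (k8 c4403 c1037 c63 c86 c1105 c13923 c93 c5084 (k8 c4402 c4405 c4401 c4290 c13396 c702 c16214 c5853 (k8 c13785 c6033 c4465 c6224 c4446 c1953 c1954 c2054 (k8 c4439 c16220 c6097 c5962 c5815 c16013 c540 c548 (k8 c4426 c341 c340 c1711 c7055 c1786 c1784 c4416 (k8 c1614 c9785 c4399 c1380 c4474 c2062 c381 c8268 (k2 c1792 c15708 k0))))))))))) (by decide +kernel)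
def c16435 : PP 8 4 T 0x20001001000000000000100010544000000012040514050001500000425510000000000 := rS 0x1ca967d438ae0b14 (k8 c4480 c15643 c4904 c14634 c1502 c15703 c9361 c4683 k0) (by decide +kernel)
def c16436 : PP 8 4 T 0x420044040400000000000000000520000005110200000000 := rS 0x68ab456cf49c5d2e2f (k8 c836 c926 c4361 c1126 c1525 c315 c13185 c381 (k1 c2112 k0)) (by decide +kernel)
def c16437 : PP 8 4 T 0x20001001000000000000000010544000000012040414050821500000425510000000000 := rS 0x19275 (k2 c538 c546 (k1 c16435 k0)) (by decide +kernel)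
def c16438 : PP 8 4 T 0x1000000000000110000000000000060000000040040000000000000000000064000000040000000000 := rS 0xa14fd0d9c48 (k4 c7073 c381 c4421 c1662 (k2 c1794 c4489 k0)) (by decide +kernel)
def c16439 : PP 8 4 T 0x20800000000000000041000015520000000000050054000020000000000000600000020 := rS 0x3aa852a9b (k4 c4448 c860 c901 c539 (k1 c10014 k0)) (by decide +kernel)
def c16440 : PP 8 4 T 0x1000000000000110000000000000040000000054040000000000000000000564000005550000000000 := rS 0xd1 (k2 c16438 c2112 k0) (by decide +kernel)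
def c16441 : PP 8 4 T 0x1000000040000000000000000000000000000000000040020000001000004 := rS 0x1d54295152b4e67d8899172cd262128a4b40a96242f4dafe307b298b472675195c121f5aadc76bb5ec50e20d599549e7f080984a2347c24f2890aa0cbcfd86985620f1b974de1d461dc0801559455e310d0cc14203696052e4 (k8 c16348 c4402 c16427 c4993 c16408 c12555 c16338 c16434 (k8 c2264 c5815 c4405 c5962 c9668 c4461 c15565 c16118 (k8 c85 c15571 c1337 c87 c1329 c16432 c616 c4383 (k8 c16433 c4477 c2513 c4284 c678 c2504 c4316 c100 (k8 c832 c1370 c4467 c350 c670 c2415 c12210 c662 (k8 c2495 c537 c4480 c4354 c4390 c4403 c1037 c7883 (k8 c86 c1105 c63 c9264 c5084 c361 c4286 c4290 (k8 c703 c4482 c15907 c4448 c836 c9768 c4444 c1381 (k8 c14609 c15668 c2122 c16356 c1481 c16436 c16437 c4412 (k8 c15615 c1649 c16439 c16440 c1695 c1735 c539 c10014 k0)))))))))) (by decide +kernel)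
def c16442 : PP 8 4 T 0x100000000000000000000444000000010000100050001500080005510000000000 := rS 0x682b47a2b (k4 c4904 c10368 c4903 c2112 (k1 c340 k0)) (by decide +kernel)
def c16443 : PP 8 4 T 0x1001000002000000000005544040000010048014010821000080005000200000000 := rS 0x15ab59e935c1cd0f04649d4a2294b8b4ce01178758653 (k8 c4290 c2054 c85 c1953 c9668 c5084 c4286 c926 (k8 c4402 c4405 c538 c546 c16442 c4410 c4408 c15732 (k4 c1126 c1526 c16374 c315 (k1 c15889 k0)))) (by decide +kernel)
def c16444 : PP 8 4 T 0x1000000040000010000000000000000000000000000000020040001000004 := rS 0xc93aa8582ac67d114e4d4b8b4ce5b27a0c5e4b5dc50c7113e9ccae87321e884af14a26127f080984a550200566152f184bafd5883c6e6f0eadc76b538a8c468f86a3156310d0cc142036960a2e4 (k8 c16348 c4405 c16427 c4993 c16408 c12555 c16338 c16434 (k8 c2264 c5962 c16118 c4383 c100 c832 c9264 c537 (k8 c7883 c4403 c1037 c85 c15571 c87 c1329 c16432 (k8 c16433 c1337 c616 c4477 c4284 c662 c9668 c4461 (k8 c12210 c1370 c4467 c350 c670 c4316 c678 c4402 (k8 c5815 c16441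 c335 c16443 c1652 c63 c1649 c15615 (k8 c4412 c67 c4480 c4390 c1954 c1953 c2513 c2415 (k8 c93 c5084 c4286 c926 c15888 c14691 c4474 c4400 (k4 c15889 c1987 c900 c709 (k2 c547 c15790 k0)))))))))) (by decide +kernel)
def c16445 : PP 8 4 T 0x1000000040000010000000000000000000000000000000020000001000004 := rS 0x19275822852a2a0f96ce6643d1095e2955945123184868fe1013094aa0400acc2a33051b4bc612ebf5620f1b9bc3ab71dad4e2a311a3e1a8c10390ae58 (k8 c16427 c63 c16348 c16408 c16118 c4383 c100 c832 (k8 c9264 c537 c7883 c4403 c1037 c85 c15571 c87 (k8 c1329 c16432 c16433 c1337 c616 c4477 c4993 c12555 (k8 c16338 c4284 c662 c9668 c4461 c12210 c1370 c4467 (k8 c350 c670 c16434 c4316 c2264 c678 c4405 c5962 (k8 c4402 c5815 c16441 c335 c16443 c1649 c93 c86 (k4 c16444 c1695 c1735 c15593 (k2 c539 c547 (k1 c15732 k0))))))))) (by decide +kernel)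
def c16446 : PP 8 4 T 0x1000000040000000000000000000000000000000000000020000001000004 := rS 0xad5acf49ae10e643d30c5e4257aad123184868fe102aacc66040514ca215148052e2d519b4e2b55b8edc8261288d1e5e7ec34c2b1078dcba6f2c074408c (k8 c16118 c16408 c85 c16427 c15571 c1337 c87 c1329 (k8 c16432 c616 c4383 c16433 c4477 c100 c832 c1370 (k8 c4467 c16348 c4403 c1037 c7883 c537 c4993 c9264 (k8 c4286 c926 c9668 c4402 c4284 c4405 c4290 c12555 (k8 c4461 c16338 c662 c12210 c350 c670 c16434 c4316 (k8 c2264 c678 c5962 c5815 c16441 c1953 c2054 c335 (k8 c16443 c1652 c16445 c1126 c1526 c16374 c315 c15889 k0))))))) (by decide +kernel)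
def c16447 : PP 8 4 T 0x1000000000000800000000000000000000000000040140000000000000000 := rS 0x8319 (k2 c4369 c1054 (k1 c4472 k0)) (by decide +kernel)
def c16448 : PP 8 4 T 0x10000001000000000000000000000000002000000000000000000004001405000000 := rS 0x2f09 (k2 c4321 c7196 (k1 c4465 k0)) (by decide +kernel)
def c16449 : PP 8 4 T 0x2000000001000000000000000000000000001500414000020040140000000004000408 := rS 0x2fcf65b (k4 c93 c14312 c16447 c15833 k0) (by decide +kernel)
def c16450 : PP 8 4 T 0x1000000000000000101000000000060100000000000000001000000000000064000000000000010000 := rS 0x1f99c48 (k4 c7073 c381 c8735 c1521 k0) (by decide +kernel)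
def c16451 : PP 8 4 T 0x1000000000010000101000002000040100000044000000001005400440020064000005440004410000 := rS 0x158d1298b4a229 (k4 c4402 c4405 c4286 c4290 (k2 c16450 c2112 (k1 c15882 k0))) (by decide +kernel)
def c16452 : PP 8 4 T 0x1000000040000000000000000000000000000000000000020000001000000 := rS 0x17304265157c7b8430c96178c9090a8335abd571227a04661b3a9cceec903044f20b158c45e05012ecbd147e985620f2e898de255bad46e53098eca2290ea5c5a6700a8c46e48696cda7147a308a090f880ae58 (k8 c16427 c63 c16408 c86 c1105 c13923 c16118 c100 (k8 c537 c4993 c93 c4383 c16348 c832 c9264 c9668 (k8 c5084 c4286 c926 c85 c4402 c4405 c4403 c4401 (k8 c4290 c87 c7883 c1037 c1370 c15571 c4467 c1337 (k8 c1329 c16432 c616 c16433 c4480 c4477 c4390 c16446 (k8 c55 c8877 c228 c10518 c16254 c9840 c343 c4462 (k8 c10573 c1024 c1021 c498 c15581 c16343 c14329 c448 (k8 c4469 c5962 c5815 c4442 c548 c16448 c16449 c4446 (k8 c1950 c1954 c2054 c4465 c4320 c15833 c4399 c4474 (k2 c16451 c16430 (k1 c15732 k0))))))))))) (by decide +kernel)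
def c16453 : PP 8 4 T 0x40000000000000000201100400000020004080002000205000800 := rS 0x6e2f1744a2653aec9e9811a3c0617020341f0d2dac4c27b (k8 c702 c2599 c1116 c93 c4383 c6403 c2495 c534 (k8 c2497 c16254 c100 c832 c317 c2265 c1931 c3913 (k4 c16069 c115 c806 c351 (k2 c16220 c1108 k0)))) (by decide +kernel)
def c16454 : PP 8 4 T 0x1000000040000000000000000000000000000000000000000000005000800 := rS 0x192b96733498be419bcbc5d8a2dc9e261bc104a733aad576c11e312967952b415eab549ac62816192c5f1984214ee8745908f6694894c263b288a43a231c99c027147914121f2b8d406200b834666d59855c80f8696d6261461540858 (k8 c16427 c534 c12210 c16118 c2599 c1116 c93 c4383 (k8 c6403 c16348 c4284 c662 c4993 c16338 c2495 c2497 (k8 c16408 c16254 c16452 c63 c86 c1105 c13923 c100 (k8 c537 c9668 c5084 c361 c832 c85 c4402 c4405 (k8 c4403 c4401 c4290 c129 c13396 c702 c16214 c5853 (k8 c13785 c6033 c6224 c4465 c4446 c1953 c1955 c2054 (k8 c4439 c16453 c6097 c6029 c5962 c5815 c16013 c5936 (k8 c540 c4426 c341 c340 c1711 c1389 c1789 c1784 (k8 c1614 c10013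 c10368 c1383 c9120 c5807 c7094 c4470 (k8 c806 c351 c1108 c548 c15717 c8901 c2062 c381 (k2 c8268 c1792 (k1 c15732 k0)))))))))))) (by decide +kernel)
def c16455 : PP 8 4 T 0x1000000001000000040000000000000000000000004000000000040000000001000800 := rS 0x1a2ad6799686cd159fa0b45270f4927d40a0d922426bf022271b244a647098b58e3933805462338a3c2e0d5983e1a5b589851855448555651578ccda29722fc6a450487caebb17a6e307b849e4ee310d010b020 (k8 c16408 c16427 c534 c16454 c2264 c15565 c2504 c4316 (k8 c703 c4482 c4448 c836 c4449 c63 c86 c1105 (k8 c13923 c16452 c6330 c16348 c4402 c4993 c16338 c5815 (k8 c4405 c5962 c4284 c678 c12210 c16118 c2599 c1116 (k8 c93 c4383 c6403 c662 c2495 c2497 c100 c537 (k8 c832 c9264 c9668 c5084 c361 c4289 c4286 c4401 (k8 c4404 c4290 c129 c4470 c4538 c15635 c4480 c2276 (k8 c1383 c10573 c4570 c4380 c4379 c2259 c10013 c16356 (k8 c15668 c15669 c2107 c314 c1479 c4392 c555 c1522 (k2 c4903 c5846 (k1 c2112 k0))))))))))) (by decide +kernel)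
def c16456 : PP 8 4 T 0x2000001000002000000000010500000000000040004010821000000110000000000000 := rS 0x3d82b24eab7 (k4 c4353 c538 c546 c15643 (k2 c10368 c15787 k0)) (by decide +kernel)
def c16457 : PP 8 4 T 0x1000000000020910000000000000040000015544040000002040054040021564000005150600000020 := rS 0x1587d438bd36cd (k4 c1481 c4448 c836 c14634 (k2 c1502 c16440 (k1 c16439 k0))) (by decide +kernel)
def c16458 : PP 8 4 T 0x1000000000022810000000002000040000010544000000002000014000021024000115000600000020 := rS 0x3aa852a7d151ce2264298b4a2290f99c02a32badd6a251b9789efd3f8404c15 (k8 c4284 c9296 c350 c670 c4300 c2415 c351 c4386 (k8 c312 c4389 c4353 c63 c9264 c9668 c5084 c86 (k8 c4402 c4405 c4286 c4290 c16456 c4412 c1649 c16457 (k4 c15615 c1695 c1735 c539 (k1 c10014 k0))))) (by decide +kernel)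
def c16459 : PP 8 4 T 0x1000000040000000000000000000000004000000000040000000001000800 := rS 0xb8a2930968440a0c9e5e13450a62d1ca8c470d38a3c1ab30aac4c25535aaca2af14b917a99462fc6a450487caebb52c485e9b8c1ee12793b8c40820199b4b01a (k8 c16454 c16427 c4993 c16338 c16408 c534 c2264 c15565 (k8 c2504 c4316 c703 c4482 c4448 c836 c9768 c4444 (k8 c4449 c63 c86 c1105 c13923 c16452 c6330 c16118 (k8 c6171 c1119 c16348 c4402 c5815 c4405 c5962 c559 (k8 c12210 c2599 c1116 c4284 c662 c2495 c100 c537 (k8 c4383 c832 c9264 c361 c4286 c4290 c16455 c9296 (k8 c351 c2415 c548 c1381 c2122 c14609 c16356 c15668 (k2 c16458 c16436 k0)))))))) (by decide +kernel)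
def c16460 : PP 8 4 T 0x10000000000000040000000000000000000000008001020000000000000400004104 := rS 0x9c205c (k4 c1108 c10992 c806 c7312 k0) (by decide +kernel)
def c16461 : PP 8 4 T 0x1000000000002000040000000144000000210000014000001000080015000200005800 := rS 0x190fd05249f59275123f022271b244a647098b4a229638e4ce015188d1f0d598545e1d (k8 c85 c1953 c4284 c662 c4383 c100 c832 c9264 (k8 c9668 c5084 c361 c4289 c4402 c4405 c4286 c4401 (k8 c4404 c4290 c129 c4470 c4538 c15635 c4480 c1383 (k8 c15925 c10573 c4379 c2259 c15669 c2107 c16442 c555 k0)))) (by decide +kernel)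
def c16462 : PP 8 4 T 0x2010000000002000040000000100000000000000004020820000000000080200000800 := rS 0x19075822852a1f4b8b4b6251bc44e657 (k8 c63 c1649 c4412 c4386 c312 c93 c4286 c926 (k4 c86 c1695 c1735 c15593 (k2 c539 c15837 (k1 c547 k0)))) (by decide +kernel)
def c16463 : PP 8 4 T 0x1000000040000000000000000000000000000000000000000000001000800 := rS 0x5c324eaa160ab19e85539345687399f62263321fdfa102f0984ab55b8de28833d30c5e4237abd568918c2434555883d663306810c203299442a290ea5c5a6700a8c46e48695cb66d38a3d18092c07c4035 (k8 c16452 c16408 c86 c16427 c1105 c16118 c100 c537 (k8 c4993 c93 c63 c4383 c16348 c832 c9264 c9668 (k8 c5084 c4286 c926 c85 c4402 c4284 c4405 c4290 (k8 c16254 c2599 c534 c2495 c16338 c662 c6403 c1116 (k8 c12210 c16454 c4316 c2264 c678 c5962 c5815 c16460 (k8 c16459 c1953 c2054 c335 c2625 c16461 c4386 c4353 (k8 c4389 c312 c9120 c351 c350 c4300 c670 c16443 (k8 c67 c4412 c15615 c1649 c1652 c16462 c15888 c14691 (k8 c711 c8730 c15889 c1987 c900 c709 c547 c15790 (k1 c16374 k0)))))))))) (by decide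 +kernel)
def c16464 : PP 8 4 T 0x2010000001000000000000000000100000001000414401120040140010000005000408 := rS 0x102832f3f57e7b2d9e576bd (k8 c4354 c4390 c9840 c93 c14312 c6330 c16428 c4477 (k2 c548 c1381 (k1 c15833 k0))) (by decide +kernel)
def c16465 : PP 8 4 T 0x1000000040000000000000000000000000000000000000000000001000000 := rS 0xd156b14cab28bbf20ab9265157c7b40c2106c32585e3241213254a6b07abd571227ad57abb5ba14d2612eac467141b894366f089d4e6773c8c45e2603014042b058d48a09389b4b6572c28cce971c88c021f100a4a22d1d84ca6e486a3d228c (k8 c16118 c129 c100 c4383 c16348 c4290 c4401 c4403 (k8 c4286 c4405 c4402 c16408 c86 c9668 c832 c361 (k8 c926 c5084 c9264 c16427 c63 c93 c4993 c537 (k8 c1105 c13923 c16452 c16463 c16312 c12555 c310 c4462 (k8 c16342 c8877 c228 c9840 c1024 c1021 c498 c609 (k8 c1019 c15581 c115 c321 c4538 c16343 c8612 c807 (k8 c4565 c13396 c16448 c7094 c4390 c4354 c4389 c448 (k8 c4469 c5962 c5815 c15653 c4442 c4444 c10573 c16464 (k8 c91 c4446 c1950 c1955 c2054 c4570 c4465 c6395 (k8 c4320 c15811 c4399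 c8901 c16430 c15643 c16451 c15721 (k4 c4481 c553 c1250 c6230 (k2 c341 c2112 k0)))))))))))) (by decide +kernel)
def c16466 : PP 8 4 T 0x1000000040000000000000000000000000000010000000020000100000800 := rS 0x288614097cda4d0892cd200188904ea52d0153a1c119ad33192b83cec1f2780c840986a4436182e8dd1833 (k8 c16324 c16118 c1384 c1338 c16465 c171 c129 c4383 (k8 c84 c308 c302 c2253 c2201 c309 c304 c16128 (k8 c4446 c1927 c1919 c1298 c4466 c1091 c15580 c4476 (k8 c7884 c872 c1028 c14397 c4461 c2723 c9597 c2213 (k4 c284 c5814 c2538 c12056 (k2 c12807 c4474 (k1 c15705 k0))))))) (by decide +kernel)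
def c16467 : PP 8 4 T 0x1000000040000000000000000000000000000010000000020000100000000 := rS 0x90168c (k4 c16118 c16466 c16321 c16382 k0) (by decide +kernel)
def c16468 : PP 8 4 T 0x1000000040000000000001000000000000500000000050056002000000002 := rS 0x615303c984f3644c36231384576bd8a0e522a95f914308c (k8 c16118 c16465 c15572 c6330 c1507 c129 c281 c4470 (k8 c4354 c4390 c2213 c115 c1297 c171 c4441 c9671 (k4 c299 c16203 c13133 c285 (k2 c12807 c904 k0)))) (by decide +kernel)
def c16469 : PP 8 4 T 0x1000000040000000000000000000000000000014000040000000100000000 := rS 0xc2fd420389c4d368c45e694dc617e454e800b41b199040e6b01aed7a718a0e4480b0f07522351ba30f218 (k8 c16465 c1958 c16118 c1384 c16467 c129 c1027 c4466 (k8 c2201 c16321 c281 c4470 c4387 c4354 c4390 c223 (k8 c1919 c1097 c1873 c16324 c171 c4476 c15523 c969 (k8 c15572 c6330 c4472 c4448 c844 c1870 c16468 c5814 (k4 c284 c16296 c258 c259 (k2 c4376 c712 (k1 c15573 k0))))))) (by decide +kernel)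
def c16470 : PP 8 4 T 0x40000000000000000200000000000008000000010000000010004 := rS 0x3cdc5e (k4 c1068 c1067 c1376 c8928 k0) (by decide +kernel)
def c16471 : PP 8 4 T 0x1000000040000000000000000000000000000010000000000000100000000 := rS 0xf44500108b457089ac10240181c161e0e8d51818 (k8 c16465 c16118 c16467 c1027 c4466 c2201 c1097 c223 (k8 c16321 c4462 c1919 c2213 c16470 c4476 c16469 c15523 (k2 c175 c10488 (k1 c1224 k0)))) (by decide +kernel)
def c16472 : PP 8 4 T 0x1001000040000000000000000000000004080010000040004000000000000 := rS 0x31cea54228e51e9d4b8dc4c25040d40e1d558ad321f578a4b45705a306202028600220 (k8 c16471 c9668 c16465 c2257 c4461 c11577 c16118 c16254 (k8 c799 c4476 c2834 c5815 c86 c6171 c10518 c14076 (k8 c85 c494 c16325 c12637 c2142 c9120 c1383 c2933 (k8 c2971 c100 c361 c2178 c919 c593 c2170 c16258 k0)))) (by decide +kernel)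
def c16473 : PP 8 4 T 0x1001000000000000004000000004000000144081500000005000042000400 := rS 0x15865a522c7ad10da24d608 (k8 c12637 c1918 c15893 c171 c260 c234 c7874 c4475 (k2 c12368 c8058 (k1 c4458 k0))) (by decide +kernel)
def c16474 : PP 8 4 T 0x1000000100000004000000000010000041500220000000010002100000 := rS 0x63509fccb052a9190c17 (k8 c35 c1876 c1997 c1605 c4410 c1652 c1312 c1584 (k2 c11648 c8784 k0)) (by decide +kernel)
def c16475 : PP 8 4 T 0x800000000000000000000000400000040044005500144080000000000000002000000 := rS 0x1961289 (k4 c15893 c4436 c578 c12363 k0) (by decide +kernel)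
def c16476 : PP 8 4 T 0x1000000000000000000000000000000020080000000000040040000400 := rS 0xf0aa08 (k4 c12637 c1646 c12368 c234 k0) (by decide +kernel)
def c16477 : PP 8 4 T 0x2000000001001000000110010414040000004010104150001000000005018002114000 := rS 0x228e4636886d126b (k8 c1918 c15893 c171 c260 c11648 c12439 c8058 c1770 k0) (by decide +kernel)
def c16478 : PP 8 4 T 0x1001000040000000000000000000000104000012000040004000000000000 := rS 0xc7228e51e9d4b8dc4c25040d40e1d558ad321f578a4b45705a306202028600220 (k8 c16471 c9668 c16465 c2257 c4461 c11577 c16118 c16254 (k8 c799 c4476 c2834 c5815 c86 c6171 c10518 c14076 (k8 c85 c494 c16325 c12637 c2142 c9120 c1383 c2933 (k4 c2971 c100 c361 c2178 (k2 c2170 c16258 k0))))) (by decide +kernel)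
def c16479 : PP 8 4 T 0x1001000040000010000000000000000104000010000040004000000004000 := rS 0x10e5556c156211598998b1834a6c5e513393103141ca3c82175f914fac97e1c4c2ab1897c6e251a81c3a15040a4ba652d15c162b0101430010f881468c (k8 c16118 c1467 c16471 c86 c9668 c16465 c2257 c4461 (k8 c10518 c16254 c799 c4476 c16476 c1338 c2834 c12637 (k8 c2349 c85 c494 c16325 c2142 c1383 c9867 c11577 (k8 c14076 c879 c1385 c15573 c4305 c4379 c2178 c6330 (k8 c35 c1064 c100 c361 c4470 c4380 c15738 c16472 (k8 c16474 c1871 c13624 c844 c4472 c4370 c9120 c16243 (k4 c343 c1115 c15643 c6230 (k2 c16478 c9141 (k1 c16477 k0))))))))) (by decide +kernel)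
def c16480 : PP 8 4 T 0x40001000040000000000000055480000008000008200000000 := rS 0x9f50c45282c (k4 c400 c401 c4332 c895 (k2 c1698 c4536 k0)) (by decide +kernel)
def c16481 : PP 8 4 T 0x1001000040000010000000000000000004000010000040004000000004000 := rS 0x19ca06827ca62d238f07ec765a295a934398cff173a28d122335a5c2a265ab0630694d8bcdaab578a462c926205f8613897e2837128e51e410405d7e35038748a6732968ae0b460ac04050c0043e20 (k8 c16471 c86 c9668 c16465 c2257 c4461 c10518 c16118 (k8 c16254 c799 c4476 c16476 c16472 c2178 c85 c494 (k8 c16325 c6330 c35 c12637 c1064 c100 c361 c2142 (k8 c1383 c4470 c9867 c1385 c879 c15573 c4380 c15738 (k8 c4305 c11577 c2834 c5815 c14076 c958 c1871 c13624 (k8 c844 c4472 c4450 c4389 c9120 c2349 c2933 c1918 (k8 c832 c15893 c1467 c16479 c4417 c594 c1689 c1692 (k8 c1656 c13185 c2120 c1752 c413 c16480 c11627 c8078 (k4 c329 c2150 c11776 c7129 (k2 c15807 c381 (k1 c1794 k0))))))))))) (by decide +kernel)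
def c16482 : PP 8 4 T 0x1001000040000000000000000000000104000010000040004000000004000 := rS 0x22994ada5b352852248f8aa3d44abe8a6b52c48d29b179b4a267262062839479f592fc3898556312f8dc4a1514974ca2b0fd0d9ebf1a81c3a63439cd83182085c8b175c2cc105a2b82c04050c004408c (k8 c16118 c16471 c9668 c16465 c2257 c4461 c16254 c799 (k8 c4476 c12637 c16243 c16481 c4361 c2178 c35 c1064 (k8 c4472 c4450 c1085 c7043 c843 c85 c494 c16325 (k8 c6330 c1525 c4394 c86 c10518 c16476 c1338 c2834 (k8 c2349 c2142 c1383 c9867 c11577 c14076 c879 c1385 (k8 c15573 c4305 c4379 c100 c361 c4470 c4380 c15738 (k8 c16472 c16474 c958 c1871 c13624 c844 c4469 c4444 (k8 c1918 c15705 c5815 c15893 c235 c16478 c7514 c15792 (k8 c16473 c401 c2063 c4456 c860 c4495 c2120 c1752 k0))))))))) (by decide +kernel)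
def c16483 : PP 8 4 T 0x1001000040000000000000000000000004000010000040004000000004000 := rS 0x923d63954a4cb452b5267468a1cc6cf39c5d70653386d126b4b85566c18c1a5362f36aac56af148c5924c40bf0c2712f87e2837128e51e410405d7e3503968ae0b01014021d461144018 (k8 c16465 c16471 c2178 c16118 c85 c9668 c2257 c4461 (k8 c16254 c799 c4476 c494 c16325 c6330 c35 c12637 (k8 c1064 c100 c361 c2142 c1383 c4470 c86 c9867 (k8 c1385 c879 c15573 c4380 c15738 c4305 c11577 c2834 (k8 c5815 c10518 c14076 c958 c1871 c13624 c844 c4472 (k8 c4450 c16243 c2349 c2933 c1918 c15893 c171 c16472 (k8 c16476 c16481 c4361 c1085 c1525 c843 c7043 c381 (k8 c16482 c1656 c13185 c2120 c1752 c7874 c1766 c413 (k2 c2150 c15792 (k1 c13269 k0)))))))))) (by decide +kernel)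
def c16484 : PP 8 4 T 0x1000000040000000000000000000000004000010000040004000000004000 := rS 0x296cfa1b2d14a042c150e543a1ccc71732b34ce3c518b48e5372514987d40b25f86186a45122308974d6975989a2839479c4be371287d7e35038758318208202e694d914daab15abc525a2b82d18a5890c40405178044018 (k8 c16465 c16471 c9668 c1871 c2257 c4461 c11577 c4469 (k8 c4444 c16118 c16254 c799 c4476 c2834 c5815 c10518 (k8 c14076 c958 c2178 c13624 c844 c35 c12637 c1064 (k8 c4472 c4450 c85 c494 c16325 c6330 c86 c2142 (k8 c1383 c9867 c1385 c100 c361 c4470 c9120 c16243 (k8 c2933 c1918 c1338 c343 c832 c15893 c129 c4383 (k8 c879 c15573 c4305 c4380 c4379 c15738 c15705 c16483 (k8 c4290 c4404 c4286 c9264 c15823 c5084 c2062 c16423 (k8 c4416 c7047 c1615 c235 c234 c7043 c4406 c14683 (k4 c10491 c15749 c1753 c4423 (k2 c1794 c4427 (k1 c4495 k0)))))))))))) (by decide +kernel)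
def c16485 : PP 8 4 T 0x1001000040000000000000000000000104000010000040004000000000000 := rS 0x25620c382a1916493195512112ea752e153daccf2c560c60d29b4cc485eaf148c49877414249e2622904960e0baf6283712820728f1a81c3a6732968ae0b460ac04050c0043e20 (k8 c16471 c86 c9668 c16465 c2257 c4461 c10518 c16118 (k8 c16254 c799 c4476 c16476 c16472 c85 c494 c16325 (k8 c100 c361 c12637 c2142 c1383 c4470 c4354 c35 (k8 c16484 c1334 c1064 c2178 c9120 c2181 c4436 c15723 (k8 c2002 c13125 c11577 c2834 c5815 c1871 c4469 c6171 (k8 c13624 c844 c4472 c4450 c4370 c1958 c16243 c12934 (k8 c2349 c2933 c2971 c1338 c343 c15893 c16478 c11648 (k8 c242 c15654 c12363 c4410 c1906 c4478 c5073 c15714 k0)))))))) (by decide +kernel)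
def c16486 : PP 8 4 T 0x1001000040000000000000000000000004000010000040004000000000000 := rS 0xcb2452d14ad49a1cc7173a194ce890f844ba6b4bb0630694d8bcdaab15abc523142d15a24c66a0a13141b8e51e4f130946a070e91482082d15c160202804408c258382e18 (k8 c16465 c35 c16484 c1334 c16118 c16471 c9668 c2257 (k8 c4461 c16254 c799 c4476 c12637 c1064 c2178 c85 (k8 c494 c16325 c2142 c9120 c2181 c100 c361 c1383 (k8 c4470 c4436 c15723 c3975 c13125 c2164 c4451 c1495 (k8 c11577 c2834 c5815 c10518 c14076 c958 c1871 c13624 (k8 c844 c4472 c4450 c2933 c1918 c1338 c343 c86 (k8 c15893 c16472 c16476 c16485 c4417 c1689 c1692 c1656 (k4 c13185 c2120 c4427 c15654 (k2 c1753 c4573 k0))))))))) (by decide +kernel)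
def c16487 : PP 8 4 T 0x1000000040000000000000000000000004000010000040004000000000000 := rS 0x20aac2a194ce511694dc8cd68d15468225930c0fd074352309089752e410b97c3f141b8e51e4f13094103503874d29b228bd562b578a4b45705a306202028600220 (k8 c16471 c9668 c16465 c2257 c4461 c11577 c16118 c16254 (k8 c799 c4476 c2834 c5815 c10518 c14076 c1871 c2178 (k8 c13624 c844 c85 c494 c16325 c12637 c2142 c9120 (k8 c2181 c100 c361 c1383 c4470 c86 c9867 c35 (k8 c1064 c2933 c1338 c343 c4436 c129 c4383 c16484 (k8 c4376 c11620 c13125 c1334 c15723 c2940 c4451 c2164 (k8 c3975 c16486 c4290 c4286 c4405 c5084 c16423 c13136 (k2 c2112 c4406 (k1 c6230 k0))))))))) (by decide +kernel)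
def c16488 : PP 8 4 T 0x2000000000000000000000000000000040000000000082000000000000000000000048 := rS 0x7ab9508b0a8a3 (k4 c2940 c919 c918 c2902 (k2 c7402 c329 (k1 c15679 k0))) (by decide +kernel)
def c16489 : PP 8 4 T 0x800000000001000040011000440001540000805500150001020000000010002118000 := rS 0x12b1061c150c8b2498e1289 (k8 c15893 c4436 c11648 c242 c15654 c12363 c4410 c1906 (k2 c4478 c5073 (k1 c15714 k0))) (by decide +kernel)
def c16490 : PP 8 4 T 0x1001000040000000000000000000000100000010000040004000000000000 := rS 0x186511d8fca6541ea742a7b599e58ac18c1042e694da66242f578a462d13ba090abf229301c2684844babd33981fa6e3897e283712820728f1a8752e0732968ae0b460ac04050c0043e20 (k8 c16471 c86 c9668 c16465 c2257 c4461 c10518 c16118 (k8 c16254 c799 c4476 c16476 c494 c2933 c85 c16325 (k8 c100 c361 c12637 c2142 c1383 c4470 c9867 c1385 (k8 c16487 c4378 c15573 c16488 c4354 c1338 c343 c4436 (k8 c9120 c8928 c13125 c2178 c6330 c1499 c4248 c2002 (k8 c2164 c11577 c2834 c5815 c1871 c4469 c6171 c13624 (k8 c844 c35 c1064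 c4472 c4450 c4370 c1958 c16243 (k8 c12934 c2349 c2971 c235 c16489 c9029 c8954 c1601 (k2 c1605 c13656 (k1 c2115 k0)))))))))) (by decide +kernel)
def c16491 : PP 8 4 T 0x1001000040000000000000000000000000000010000040004000000000000 := rS 0xcb2452d14ad49a1cc7173a195126b60c60821734a6c5e6d558ad5e2918d15a2cd412157e45260384d0908974ce607e9b8e25f0fc506e25040e51e350ea5c0e5a2b82d1802028600220 (k8 c16471 c9668 c16465 c2257 c4461 c16118 c16254 c799 (k8 c4476 c494 c2933 c85 c16325 c100 c361 c12637 (k8 c2142 c1383 c4470 c86 c9867 c1385 c16487 c4378 (k8 c15573 c16488 c1338 c343 c4436 c9120 c8928 c13125 (k8 c2178 c6330 c1499 c4248 c3975 c2164 c4451 c11577 (k8 c2834 c5815 c10518 c14076 c958 c1871 c13624 c844 (k8 c35 c1064 c4472 c4450 c1918 c15893 c16476 c16490 (k8 c4417 c1689 c1692 c1656 c13185 c2120 c4427 c15654 (k2 c1753 c4573 k0))))))))) (by decide +kernel)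
def c16492 : PP 8 4 T 0x1000000040000000000000000000000000000010000040004000000000000 := rS 0x4155854329445a537219d9ad1a2a8d044c302141cfd372bd5691848ac62112e8a52e410b89a2839479c4be37128203ebf1a81c3a694d9145e5a2b82c04050c0051820 (k8 c16471 c16118 c9668 c16465 c2257 c4461 c16254 c799 (k8 c4476 c1871 c2178 c13624 c844 c85 c494 c16325 (k8 c6330 c86 c12637 c2142 c1383 c9867 c1385 c100 (k8 c361 c4470 c9120 c35 c1064 c2933 c2834 c1338 (k8 c343 c11577 c10518 c4436 c129 c14076 c5815 c16487 (k8 c4378 c8928 c1499 c15573 c13125 c4248 c2940 c4451 (k8 c2164 c3975 c16488 c16491 c4290 c4286 c4405 c16423 (k4 c13136 c2112 c4406 c6230 k0)))))))) (by decide +kernel)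
def c16493 : PP 8 4 T 0x1000000040000000000000000000000000000010000040000000000000000 := rS 0x1fa614003c9a3254afc8a410bc50728f27898e25f1b8941035038743e5a2b82c04050c004408c (k8 c16118 c16471 c9668 c16465 c2257 c4461 c16254 c799 (k8 c4476 c86 c85 c494 c16325 c12637 c2142 c1383 (k8 c9867 c1385 c9120 c2181 c100 c361 c4470 c35 (k8 c1064 c2178 c6330 c1507 c16492 c377 c13125 c12950 (k2 c879 c4380 (k1 c15573 k0)))))) (by decide +kernel)
def c16494 : PP 8 4 T 0x12800000000000000000000000000000000000002010080414000000000008002000409 := rS 0x23b04fb167e0f58e3f1d985ca7516152230531c25120803a5cb4b5 (k8 c4389 c4476 c2933 c494 c12637 c15893 c4436 c150 (k8 c4310 c4334 c919 c918 c593 c5084 c16488 c11556 (k8 c8954 c2170 c329 c15573 c4471 c4379 c4420 c1602 (k1 c15884 k0)))) (by decide +kernel)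
def c16495 : PP 8 4 T 0x1000000100005144001000010004115550081100080010010000100400 := rS 0x1cd73041fa1cc63d0422e3277 (k8 c1887 c4446 c4632 c12637 c235 c11648 c9141 c15821 (k4 c15749 c7514 c4408 c15732 k0)) (by decide +kernel)
def c16496 : PP 8 4 T 0x10000000044000000000010000150002020000005050400000000 := rS 0xad238b4a705 (k4 c4406 c9029 c247 c1602 (k2 c6230 c7129 k0)) (by decide +kernel)
def c16497 : PP 8 4 T 0x1001000040000000000000000000000004000010000000000000000004000 := rS 0x7e744398c7a55289f498c97e298c28386a24bab135a742ab75ab450a773d9b556a911abc52815d9a54a4b33c486631179e2324238c50728f2f8dc4c25040d40e1d32968ae0b460ac04050c0043e20 (k8 c16471 c86 c9668 c16465 c2257 c4461 c10518 c16118 (k8 c16254 c799 c4476 c16476 c85 c494 c16325 c12637 (k8 c2142 c9120 c1383 c9867 c100 c361 c4470 c1385 (k8 c16493 c4446 c237 c1871 c11577 c2151 c4469 c16494 (k8 c1955 c5936 c1961 c4390 c1962 c2834 c5815 c832 (k8 c6029 c14076 c958 c12934 c1887 c13580 c2153 c4389 (k8 c4353 c2349 c2971 c1918 c1115 c1338 c15893 c4383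 (k8 c1999 c879 c2119 c15573 c7308 c14691 c4379 c16474 (k4 c16496 c234 c11648 c9141 (k2 c16495 c15821 (k1 c11627 k0))))))))))) (by decide +kernel)
def c16498 : PP 8 4 T 0x1000000000000000000001001000001000005104041000004004115150081000080011010042100400 := rS 0xcfa1b2e96c856148a28935abc660845c64ee63 (k8 c11648 c1887 c4446 c4632 c12637 c2151 c5815 c1918 (k8 c15893 c1876 c16473 c2120 c16495 c4456 c2027 c4422 (k2 c1792 c4495 k0))) (by decide +kernel)
def c16499 : PP 8 4 T 0x1000000000000000001001001000000000005104041000000904115150081000080011010042100400 := rS 0x123e32a0a8642c64eecd (k8 c3975 c1887 c4446 c13580 c16498 c4410 c7075 c2005 (k2 c4464 c3510 k0)) (by decide +kernel)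
def c16500 : PP 8 4 T 0x1001000000000005100041000000104115140080020080011050442108400 := rS 0x5691c5a5382951054568aad5e33041941afd (k8 c4376 c32 c16476 c12637 c2151 c5815 c14076 c2153 (k8 c4451 c245 c16499 c4406 c9029 c247 c1603 c6230 (k1 c7129 k0))) (by decide +kernel)
def c16501 : PP 8 4 T 0x10000001001000004400005104441000004504115150081000080011010042100400 := rS 0x4f28622c8a1c1158522886d126b42abc660845c64ee63 (k8 c11648 c1887 c4446 c4632 c12637 c2151 c5815 c13580 (k8 c1918 c15893 c171 c1876 c16473 c2120 c15749 c15680 (k4 c16495 c15794 c900 c4489 (k1 c1664 k0)))) (by decide +kernel)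
def c16502 : PP 8 4 T 0x10001001001000004400005105441000000544115150481000080011010042100400 := rS 0xa14fb259aad82a18c6af5292c6608 (k8 c12637 c2151 c1955 c5936 c5815 c11648 c16501 c4410 (k4 c1904 c1908 c1732 c6233 (k2 c5930 c2128 k0))) (by decide +kernel)
def c16503 : PP 8 4 T 0x10000000044000000000000000150002000000005450000400000 := rS 0xad16944a705 (k4 c4406 c9029 c1605 c247 (k2 c6230 c2112 k0)) (by decide +kernel)
def c16504 : PP 8 4 T 0x1001000040000000000000000000000104000010000000000000000000000 := rS 0x65b3e88a741935629d0a9ec9eb75a92cdaa911a057655329a55eab688a456177ea8cfe6007434cf12198c45e788c908e3141ca3cbe370f8984a081a81cb41d2b82d1802028044018 (k8 c16465 c16471 c9668 c2257 c4461 c16118 c16254 c799 (k8 c85 c4476 c494 c16325 c12637 c2142 c9120 c86 (k8 c1383 c9867 c100 c361 c4470 c1385 c16493 c4446 (k8 c237 c1871 c11577 c2151 c4469 c16494 c4383 c16497 (k8 c11620 c672 c2940 c4376 c35 c10518 c2834 c2153 (k8 c14076 c5815 c1961 c16476 c16503 c4390 c1962 c832 (k8 c6029 c958 c1955 c4389 c4353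 c2181 c12934 c2349 (k8 c2971 c1115 c16500 c1998 c14691 c4474 c4400 c4455 (k1 c16502 k0))))))))) (by decide +kernel)
def c16505 : PP 8 4 T 0x1000000000000004001000010004200454080000081000000000000400 := rS 0xf90e77 (k4 c1887 c1693 c11627 c15821 k0) (by decide +kernel)
def c16506 : PP 8 4 T 0x1001000000000005004040000004004000154081021080151000042008408 := rS 0x8ec71d9f596b988c11583f29144366d578cc528b3a8f4109d35a263277 (k8 c1887 c4446 c15893 c1918 c2971 c12637 c234 c16505 (k8 c4632 c2834 c2151 c5815 c958 c171 c1876 c16473 (k8 c15821 c2120 c15749 c15794 c7514 c2027 c4409 c11556 (k2 c413 c1331 (k1 c2113 k0))))) (by decide +kernel)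
def c16507 : PP 8 4 T 0x1001001000000000005004040000001104000150081021080151000042108408 := rS 0x123e32a0a8641514c629 (k8 c2834 c11648 c4451 c245 c16506 c4410 c7075 c2005 (k2 c4464 c3510 k0)) (by decide +kernel)
def c16508 : PP 8 4 T 0x1001000000000005004400000004004000154081001080151008042008408 := rS 0x8ec71d9f542b988c11583f29144366d578cc528b3a8f4109d35a263277 (k8 c1887 c4446 c15893 c1918 c2971 c12637 c234 c16505 (k8 c4632 c2834 c2151 c5815 c958 c171 c1876 c16473 (k8 c15821 c2120 c15749 c15794 c7514 c900 c4409 c11556 (k2 c409 c1331 (k1 c2113 k0))))) (by decide +kernel)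
def c16509 : PP 8 4 T 0x1001000040000000000000000000000000000010000000000000000000000 := rS 0x50a7d92cd56c150ccb67d114e4d519fc926006839fa6e3a98c7a553285d12112e9ad3a1527add6ad1429dcf6ab15aa446af14a0576695292ccf12198c45e788c908e3141ca3cbe370f8984a081a81cb41d2b82d1802028044018 (k8 c16465 c16471 c9668 c2257 c4461 c16118 c16254 c799 (k8 c85 c4476 c494 c16325 c12637 c2142 c9120 c86 (k8 c1383 c9867 c100 c361 c4470 c1385 c16493 c4446 (k8 c237 c1871 c11577 c2151 c4469 c16494 c1955 c5936 (k8 c1961 c4390 c1962 c2834 c5815 c832 c6029 c10518 (k8 c14076 c12934 c1887 c13580 c2153 c4389 c4353 c2181 (k8 c2349 c2971 c1918 c1338 c343 c15893 c35 c16476 (k8 c16503 c234 c11648 c16505 c16504 c4378 c8928 c1289 (k8 c15573 c4199 c1456 c2940 c16507 c14691 c4474 c4400 (k8 c4455 c16508 c4410 c1904 c1908 c1732 c6233 c5930 (k1 c2128 k0))))))))))) (by decide +kernel)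
def c16510 : PP 8 4 T 0x1000000040000000000000000000000000000010000000000000000000000 := rS 0xfe955cc44aaac3199546511694dc867619a55f1255b44f0338c908e3142f8986eb3128d52e2903820b457088c4162b010bc7223028043e1d101761a8f48a302e18 (k8 c16465 c35 c16118 c129 c100 c4383 c1338 c16471 (k8 c85 c86 c9668 c2257 c832 c361 c1871 c4461 (k8 c10518 c16254 c11577 c343 c799 c4476 c12637 c494 (k8 c2834 c2933 c16325 c2142 c16243 c1383 c9120 c9867 (k8 c4470 c1385 c16493 c4446 c2151 c237 c2153 c14076 (k8 c4469 c5815 c1961 c3967 c16494 c16509 c4290 c4286 (k8 c4405 c9264 c16423 c5654 c2112 c16503 c4338 c16374 (k2 c861 c6629 (k1 c10570 k0))))))))) (by decide +kernel)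
def c16511 : PP 8 4 T 0x1000000000000000000000000000000080021000000000000000000400 := rS 0x5007050987524b2 (k8 c656 c657 c3013 c2462 c4310 c919 c4464 c4726 (k1 c2630 k0)) (by decide +kernel)
def c16512 : PP 8 4 T 0x100000000000010015000000000008000000140000042000154000000000440000 := rS 0x158f0a215 (k4 c141 c1605 c9770 c9052 (k1 c1654 k0)) (by decide +kernel)
def c16513 : PP 8 4 T 0x1000000000000000000000000000000000080020000040000000002000000 := rS 0x85c8032ab05863f8c264820622b44eec5049cd2e6b09a54ea8b492ca2305319942f094496cda0b (k8 c308 c4993 c93 c15893 c4436 c35 c151 c150 (k8 c4310 c4334 c656 c657 c2703 c592 c856 c2462 (k8 c660 c1196 c1110 c16243 c1251 c3134 c261 c256 (k8 c4462 c1872 c8246 c4472 c11031 c1127 c4450 c16512 (k4 c919 c16511 c12555 c14964 k0))))) (by decide +kernel)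
def c16514 : PP 8 4 T 0x1001000040000000000000000000000000110101000040020040000000004 := rS 0x8bbf10cb33f9847ac758add82110a87a309b00074ee2f02a24ae71479e4ce754b8853a6b3d86d8a4536b447e39461cc0c092c02c30b5 (k8 c7883 c16465 c308 c16510 c1106 c4462 c1022 c16118 (k8 c3123 c11031 c260 c4993 c15519 c15020 c171 c14312 (k8 c1919 c1235 c12555 c1196 c538 c16513 c1958 c100 (k8 c537 c63 c15893 c269 c1870 c1112 c10867 c4461 (k8 c13624 c4540 c4466 c2630 c2592 c4450 c3103 c3102 (k8 c7786 c274 c4213 c12366 c11612 c13930 c8265 c15634 (k1 c7043 k0))))))) (by decide +kernel)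
def c16515 : PP 8 4 T 0x10000000000040000000000040020000040000000002200004 := rS 0x186998826d5e7760a54388b1d1490cb200c143709449b442060482d3a6b (k8 c1919 c1235 c308 c1106 c4462 c12555 c4993 c15893 (k8 c4436 c171 c4308 c2630 c648 c389 c388 c649 (k8 c718 c10353 c15542 c1982 c3028 c9756 c765 c7239 (k2 c8246 c1906 (k1 c15714 k0))))) (by decide +kernel)
def c16516 : PP 8 4 T 0x1000000000000004000000200004004410021000040020040142100080 := rS 0x19f4365d2d9b455c30a088440b26309909ab4927f7e0bd2a934d844ee0416add7ab113834021c11c3522572d9b4e28f059d52e735aafe1279 (k8 c1958 c4436 c7782 c7883 c1022 c1196 c538 c308 (k8 c100 c537 c4993 c93 c63 c129 c4383 c1298 (k8 c4466 c487 c4113 c872 c3010 c3012 c3011 c912 (k8 c10867 c3009 c15892 c765 c1030 c15542 c1871 c8124 (k8 c7517 c7307 c4554 c530 c8246 c4540 c4305 c4380 (k8 c15782 c15664 c15864 c15732 c15668 c1481 c4459 c2028 (k2 c4394 c1525 (k1 c4495 k0)))))))) (by decide +kernel)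
def c16517 : PP 8 4 T 0x1001000040000000000000000000000004010001000040020040000000004 := rS 0x22efc59ae4fe611e8018eb71107956682e9c51e8c3a884d67b0d8fce6060482c2ac5229b5a2973396030b5 (k8 c7883 c16465 c16510 c16513 c1196 c260 c4993 c15519 (k8 c15020 c16515 c308 c1106 c4462 c1022 c11031 c171 (k8 c14312 c1919 c12555 c538 c16118 c100 c537 c1337 (k8 c16514 c1885 c16516 c1100 c3103 c7786 c1098 c274 (k4 c2735 c12366 c11342 c11612 (k2 c8265 c15634 (k1 c8860 k0))))))) (by decide +kernel)
def c16518 : PP 8 4 T 0x200000008000020000000020000000000000 := rS 0x1d (k2 c3007 c15571 k0) (by decide +kernel)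
def c16519 : PP 8 4 T 0x200000000000000000000000000000000004000554020000000000000102000480 := rS 0x7c3a8a8901612892b9b56687 (k8 c4410 c4312 c4993 c63 c15893 c4436 c269 c4479 (k4 c15789 c10867 c14050 c4466 k0)) (by decide +kernel)
def c16520 : PP 8 4 T 0x1000000000000400000000200000000010021000000020080140100080 := rS 0xb84928e2efc08adc480d4a870465b38a3cea9739ad4df11 (k8 c4411 c16518 c7883 c1022 c1196 c538 c100 c537 (k8 c93 c1298 c4466 c1695 c4113 c1028 c3011 c15892 (k4 c8124 c11887 c3436 c4487 (k2 c8860 c1126 k0)))) (by decide +kernel)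
def c16521 : PP 8 4 T 0x1001000040000000000000000000000000010001000040020000000000004 := rS 0x14862770e879825143ace082a37a30f275109ec367303024161562914dad14b99cb018 (k8 c16465 c16510 c16513 c1196 c260 c4993 c15519 c15020 (k8 c16515 c308 c1106 c4462 c1022 c171 c14312 c12555 (k8 c538 c1958 c16118 c16518 c16517 c4904 c4312 c4410 (k8 c1876 c6869 c16520 c56 c3101 c14708 c7648 c292 k0)))) (by decide +kernel)
def c16522 : PP 8 4 T 0x1001000040000000000000000000000000010001000040000000000000004 := rS 0x1482e4013c1e0c2f1344841139dd7a612e878003137c5022bf118746a395d9ec0c3722824430d4606c2e6d2c1e41618 (k8 c16465 c308 c1958 c16510 c4993 c35 c171 c16118 (k8 c4383 c12555 c1106 c15519 c1384 c4462 c14312 c15382 (k8 c3123 c16521 c1027 c1297 c6330 c609 c4470 c1019 (k8 c14708 c4726 c4466 c15897 c4213 c4354 c15578 c9118 (k8 c1872 c4467 c284 c14681 c488 c1376 c1488 c15738 (k2 c16296 c1381 (k1 c3777 k0))))))) (by decide +kernel)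
def c16523 : PP 8 4 T 0x20800100001001000000010000004001140000000100050001000150000450040100080 := rS 0xed8695168f620121fabcc6c1 (k8 c4450 c11648 c4346 c11031 c4464 c4478 c1678 c4332 (k4 c15532 c9009 c15722 c13237 k0)) (by decide +kernel)
def c16524 : PP 8 4 T 0x1001000040000000000000000000000000010001000040020000000000000 := rS 0xc633f5702c4544586951e9490eb33fc1182af8c105922955c48ee99589844031089cc7e9b629ec1e5d0f8188a6f048dc730d4896ce28f460ccda7933b44ea2f158552e9d0082c36180e808ae58 (k8 c16510 c63 c16522 c790 c16465 c171 c308 c28 (k8 c15584 c1196 c14481 c227 c8877 c538 c260 c16513 (k8 c1958 c4993 c255 c16118 c100 c537 c93 c129 (k8 c4383 c116 c87 c3111 c16518 c256 c4462 c222 (k8 c1337 c1329 c14312 c15020 c13624 c11031 c1022 c15533 (k8 c14708 c4466 c879 c8612 c6171 c15578 c4469 c14076 (k8 c12392 c7308 c1872 c4540 c4346 c4450 c16523 c4313 (k8 c4312 c4410 c15754 c332 c15532 c9009 c15686 c15639 (k4 c4468 c16261 c15690 c11342 (k2 c4463 c1447 k0)))))))))) (by decide +kernel)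
def c16525 : PP 8 4 T 0x410000001000000000000040101000000400005404000120000000000000002000008 := rS 0x52a1502a7350c0666d179857f09 (k8 c4436 c7782 c616 c8877 c4993 c255 c4469 c229 (k4 c3910 c1923 c563 c15814 (k1 c9957 k0))) (by decide +kernel)
def c16526 : PP 8 4 T 0x800100000001000000010000400000400010000140050000000000400040080000000 := rS 0x5a924a8fe2cad (k4 c4903 c4481 c4356 c4418 (k2 c15633 c392 (k1 c9125 k0))) (by decide +kernel)
def c16527 : PP 8 4 T 0x1000000000002000000000200000000000000000000000050100000000 := rS 0x16c45289e (k4 c1387 c1388 c4414 c854 (k1 c4468 k0)) (by decide +kernel)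
def c16528 : PP 8 4 T 0x40000000000000000202000000000000110001100000000280004555000000000040000000002000000 := rS 0xb666d15728440c351e913cc60fecb (k8 c1752 c4313 c4540 c1958 c129 c100 c4383 c4380 (k4 c15782 c15690 c15668 c1481 (k2 c15732 c7551 k0))) (by decide +kernel)
def c16529 : PP 8 4 T 0x1001000040000000000000000080004004010001000040000000100000000 := rS 0x9a4f25b199e4940ae0725e8a3f5961b369c46a3d20b24c2315ea6696528c2d452638244952bf84aec6e5d589dcf28f86a6c5ec522b44e6154b82c76b3040783a573a99cb0890c0ac048c (k8 c16118 c16522 c227 c16465 c15893 c16510 c16513 c538 (k8 c63 c790 c4466 c222 c16243 c3112 c308 c1196 (k8 c14481 c13487 c260 c257 c15020 c8877 c13624 c4383 (k8 c100 c1958 c15566 c3125 c1337 c1384 c15382 c4436 (k8 c7782 c1507 c16525 c16526 c4407 c794 c16527 c4540 (k8 c15754 c4456 c4443 c1119 c4441 c616 c7308 c1104 (k8 c2131 c16524 c537 c4993 c171 c1752 c16528 c4480 (k8 c4477 c4348 c15643 c14329 c15792 c1525 c13269 c1874 (k2 c421 c413 (k1 c2114 k0)))))))))) (by decide +kernel)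
def c16530 : PP 8 4 T 0x1001000040000000000000000000004004010001000040000000100000000 := rS 0x13894720f8a12c9efd23b3d70b765a0d846845ad696292918d0e7f822f5331254aed36c58c2fc8b09449c51e7933b44ea2b1a8dcee4117acce63b0aa5c161864974c2b1040783a57011621a8c (k8 c16118 c4383 c16510 c16522 c63 c790 c4466 c222 (k8 c3125 c616 c1337 c7308 c16465 c308 c1196 c14481 (k8 c3112 c13487 c16243 c8877 c1104 c15566 c1384 c16524 (k8 c227 c538 c260 c16513 c1958 c100 c537 c15893 (k8 c4436 c257 c7782 c4540 c15020 c13624 c15382 c1507 (k8 c16525 c4443 c1119 c16526 c4313 c4410 c4407 c15754 (k8 c794 c4456 c16527 c16529 c15789 c15639 c2001 c2028 (k8 c1167 c15732 c1525 c1315 c15667 c421 c2037 c4480 (k4 c15723 c4348 c224 c352 (k1 c9120 k0)))))))))) (by decide +kernel)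
def c16531 : PP 8 4 T 0x8000002001001000040000004000000000000000000000001000000010000080100008 := rS 0x4c39129f81e7147a3166731d820b0b5 (k8 c4419 c16510 c222 c3112 c13487 c16243 c16118 c100 (k4 c537 c4376 c15634 c224 (k2 c12388 c9120 (k1 c352 k0)))) (by decide +kernel)
def c16532 : PP 8 4 T 0x8000000001001000040100000000000000000000004000001000200010040080100008 := rS 0x3e11c1a0e1209c725e8a3f56e93168fd6b0d38a3c02231e8ecc2b104160ba8c (k8 c16118 c1337 c16510 c222 c3125 c616 c3112 c2131 (k8 c1297 c28 c100 c537 c4383 c4419 c4356 c392 (k8 c9125 c1117 c16531 c4480 c4477 c4348 c352 c4467 (k4 c224 c1368 c3357 c15860 (k1 c7516 k0))))) (by decide +kernel)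
def c16533 : PP 8 4 T 0x10004020044000040200000000000000100200605450100000000 := rS 0x15a5316a8c9093 (k4 c3135 c1202 c1468 c7177 (k2 c2336 c16374 (k1 c2112 k0))) (by decide +kernel)
def c16534 : PP 8 4 T 0x1001000040000000000000000000000004010001000040000000100000000 := rS 0x2c49ab4a6fd518341c242689e28395c2d452515b98cfa871f410ff1752abd571218aa586444c9e9925d869c51e3336b44ea2f15a74021b118d46e3d599cc76154b82c3061588203c1d2b8091858 (k8 c16510 c16118 c16522 c63 c790 c4466 c222 c3125 (k8 c616 c16465 c308 c1196 c14481 c3112 c13487 c16243 (k8 c2131 c1384 c16524 c1297 c171 c28 c15584 c227 (k8 c8877 c538 c260 c4993 c255 c100 c537 c4383 (k8 c1337 c7308 c16530 c1132 c1224 c3222 c1508 c297 (k8 c4469 c14076 c4346 c4444 c16532 c10049 c4481 c4471 (k8 c4410 c4409 c4407 c3127 c1876 c794 c16527 c2121 (k8 c16533 c4470 c352 c378 c4467 c224 c1368 c1464 (k4 c4376 c13388 c16374 c1126 (k2 c2112 c7177 k0)))))))))) (by decide +kernel)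
def c16535 : PP 8 4 T 0x1001000040000000000000000000000000010001000040000000100000000 := rS 0x1317dfa6e30ac422080f2300a1d0115cb035 (k8 c16524 c16510 c63 c16522 c790 c55 c16118 c4466 (k8 c222 c2302 c3125 c616 c16534 c4378 c1378 c9852 (k1 c14316 k0))) (by decide +kernel)
def c16536 : PP 8 4 T 0x1001000040000000000000000000000000010001000040000000000000000 := rS 0x1eae0a4b364c10c25d58904de11398fe311455c48ee9903314f626188a412392287c40354e854561d008bc04973ac351e914606cae5b199b4f20b33961a218 (k8 c16465 c260 c16510 c16513 c308 c1958 c4993 c255 (k8 c93 c63 c171 c16118 c129 c100 c4383 c538 (k8 c1196 c16522 c8877 c28 c790 c227 c14481 c15584 (k8 c16524 c16535 c86 c2178 c361 c231 c12392 c316 (k8 c16342 c14312 c15020 c4462 c6171 c15578 c4469 c14076 (k8 c4538 c4540 c11031 c1022 c15533 c1019 c1872 c4350 (k8 c807 c4565 c16523 c7308 c4312 c15754 c15643 c332 (k1 c7514 k0)))))))) (by decide +kernel)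
def c16537 : PP 8 4 T 0x1000000000000000000040200000004020021000000000040100000084 := rS 0x3f22c0d5aa4c22b71a0112a1c00c456615 (k8 c2516 c553 c4412 c491 c10353 c15542 c4461 c1027 (k8 c3011 c15892 c1030 c1388 c16200 c4487 c8124 c11887 k0)) (by decide +kernel)
def c16538 : PP 8 4 T 0x100000000001000000000000400000050200000144000021000000020000140100080 := rS 0x24970a38bbf022b71203438232d9c51eb5 (k8 c7883 c100 c537 c93 c1298 c4466 c4113 c1028 (k8 c3011 c15892 c8124 c11887 c3436 c8860 c4487 c1126 k0)) (by decide +kernel)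
def c16539 : PP 8 4 T 0x1000000000000000000040200000104060021000000020000100000080 := rS 0x22a125c984be050031d62220e8787a958696ce28f31c44e657598fc2a5d (k8 c1337 c2516 c11031 c553 c63 c1649 c4412 c67 (k8 c100 c537 c93 c4383 c1696 c11368 c16538 c56 (k8 c1100 c3102 c7786 c1098 c16405 c1296 c616 c11342 (k2 c490 c11613 (k1 c15734 k0))))) (by decide +kernel)
def c16540 : PP 8 4 T 0x240000020000000000080100000084 := rS 0xe8140317 (k4 c4417 c2432 c2484 c15601 (k1 c10353 k0)) (by decide +kernel)
def c16541 : PP 8 4 T 0x200000000020020000000010000000000404 := rS 0x8740c09 (k4 c1106 c4462 c1027 c8511 (k1 c4726 k0)) (by decide +kernel)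
def c16542 : PP 8 4 T 0x1001000040000000000000000000000000000001000040000000000000004 := rS 0x151d0de340325c12214602cce1839990ae58 (k8 c16510 c63 c16536 c1649 c16465 c16513 c308 c16118 (k8 c12555 c1106 c16347 c4462 c16541 c16518 c16539 c16537 (k1 c16540 k0))) (by decide +kernel)
def c16543 : PP 8 4 T 0x4000002000000000000010005400000000080004550000000000000000000000000000 := rS 0x2e1927f (k4 c10049 c4305 c8860 c15690 k0) (by decide +kernel)
def c16544 : PP 8 4 T 0x110001000000000000000000500010008000050154045100000000000000000000000 := rS 0xb964a8cbd14 (k4 c4480 c4477 c1465 c547 (k2 c1126 c15790 k0)) (by decide +kernel)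
def c16545 : PP 8 4 T 0x4100002001000000040000004400000050000000140000000001000010000000000008 := rS 0x4ca212ae01e712c23d6a8c (k8 c16118 c1388 c100 c16510 c537 c4376 c8860 c224 (k2 c5821 c9120 (k1 c935 k0))) (by decide +kernel)
def c16546 : PP 8 4 T 0x100001000000000000000000500010008200050154045000000000000000000000000 := rS 0xbb0d (k2 c4383 c1337 (k1 c16544 k0)) (by decide +kernel)
def c16547 : PP 8 4 T 0x100000001000000040000000400000050000000140044000000000000200080000008 := rS 0x4c39373f4fb043f98542b78b8d56249490f810712c23d1805 (k8 c55 c16118 c100 c16510 c537 c222 c392 c393 (k8 c2331 c3125 c3111 c4356 c3127 c1738 c616 c10049 (k4 c4481 c4409 c16545 c16546 (k2 c3114 c9852 (k1 c352 k0))))) (by decide +kernel)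
def c16548 : PP 8 4 T 0x1000000000000400000000200000104020020000005120200000010008 := rS 0x28c905e063f590b730c516226869c51e7302874aeb54a9fcfa5d (k8 c1337 c1651 c15524 c1696 c1388 c63 c790 c55 (k8 c1649 c100 c537 c4383 c15618 c1034 c16272 c4565 (k8 c4353 c16273 c4305 c8124 c4477 c507 c1465 c369 k0))) (by decide +kernel)
def c16549 : PP 8 4 T 0x1001000040000000000000000000000004000001000040000000000000000 := rS 0x3cc3145189972353e974723f100440c090fa54ea3d2dacc580102a5c561d3995e22633219cb00b0c009228c (k8 c16118 c129 c16542 c16465 c308 c16510 c16513 c16536 (k8 c67 c4412 c63 c1649 c790 c226 c11617 c55 (k8 c28 c9676 c553 c93 c329 c15675 c1696 c16547 (k8 c1105 c4462 c15533 c4466 c401 c1113 c1337 c1651 (k8 c16548 c7514 c16342 c1467 c4538 c4565 c239 c15842 k0))))) (by decide +kernel)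
def c16550 : PP 8 4 T 0x1001000040000000000000000000000000000001000040000000000000000 := rS 0xd0dc060487d2a751eacc5897158740205011ce226332230ae5b0599cb018 (k8 c16465 c16510 c16513 c308 c93 c63 c16118 c16536 (k8 c67 c4412 c1649 c16542 c55 c28 c790 c226 (k8 c11617 c9676 c553 c329 c15675 c1696 c16547 c1105 (k4 c4462 c16549 c1019 c15571 k0)))) (by decide +kernel)
def c16551 : PP 8 4 T 0x1000000000000000000000000000080000020000000000000000000080 := rS 0xa83a3a (k4 c1021 c3008 c15577 c1641 k0) (by decide +kernel)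
def c16552 : PP 8 4 T 0x1000000011000000000000000000140050042000140000080002000000 := rS 0x82d1340c186041e84c2b05298fca217 (k8 c35 c1605 c8954 c9029 c4406 c141 c34 c9052 (k4 c4191 c15480 c268 c269 (k2 c2198 c3784 (k1 c9770 k0)))) (by decide +kernel)
def c16553 : PP 8 4 T 0x1001000000000000000000000000000000010022000040000000002000004 := rS 0x3426d15184c9062c95619dc7a310024c0a2b1d9cd8ac13daad3a06229ac121b8496cda0b8294c7e510b8b4ce75 (k8 c538 c16513 c247 c35 c1605 c8954 c9029 c4406 (k8 c308 c4993 c93 c4436 c171 c1106 c1919 c15519 (k8 c4462 c1235 c13092 c14312 c6869 c7523 c16551 c1600 (k8 c16552 c266 c9125 c4461 c7393 c9051 c15578 c15480 (k8 c15532 c4471 c1872 c8246 c4540 c12827 c4448 c15766 (k1 c14070 k0)))))) (by decide +kernel)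
def c16554 : PP 8 4 T 0x100001001000000000000010000040000000100000020500044400150002000108 := rS 0x16717450f1a041579dd3231629ec3e062286c666d058bc3a57559cd2710 (k8 c4468 c4413 c1109 c14464 c63 c790 c8877 c308 (k8 c4993 c255 c171 c256 c4462 c222 c14312 c4530 (k8 c14708 c6171 c15578 c5815 c1872 c2112 c13869 c261 (k2 c4416 c722 (k1 c4481 k0))))) (by decide +kernel)
def c16555 : PP 8 4 T 0x8000002001000000040000005000000000080000040000000000200000000000000000 := rS 0x2884d4213c96bf3f03d0218389611e8c (k8 c16118 c100 c16510 c537 c16465 c4380 c4376 c15634 (k4 c15610 c1874 c258 c724 (k2 c379 c4474 (k1 c4397 k0)))) (by decide +kernel)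
def c16556 : PP 8 4 T 0x10000000000000000040015000000000000000000000000000405550040480000000 := rS 0x9027 (k2 c352 c2113 (k1 c7307 k0)) (by decide +kernel)
def c16557 : PP 8 4 T 0x1001000040000000000000000000000000010000000040000000000000000 := rS 0x37c5470fd239e98e8a2234132af358c572956188cef161b8f46ab12087966081dadce6b549a7e20ab4e8a4561d008bc04ad4b9d61a1b84a24ae7147a30666d0584e0a531f9442e2d2a19cb018 (k8 c16465 c16510 c16513 c16550 c247 c35 c1605 c8954 (k8 c9029 c4406 c34 c308 c4993 c255 c16118 c100 (k8 c537 c63 c15893 c4436 c171 c4383 c538 c1196 (k8 c4903 c16553 c8877 c28 c790 c227 c795 c15584 (k8 c14464 c4468 c4414 c4413 c1387 c1109 c1117 c1600 (k8 c16554 c16243 c1105 c3113 c3125 c3111 c13138 c233 (k8 c4481 c15566 c1297 c15480 c11624 c7514 c15762 c1918 (k8 c5815 c8246 c2112 c14146 c261 c2186 c257 c3703 (k4 c16555 c16556 c4348 c3245 (k1 c4480 k0)))))))))) (by decide +kernel)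
def c16558 : PP 8 4 T 0x1001000040000000000000000000000000000000000040000000000000000 := rS 0x3813925fac93fa8cc2b98b0d562375bad58e3d0882042a13991c043b15444c83f829521a57389611e8c (k8 c16118 c100 c16510 c537 c63 c4383 c16550 c4406 (k8 c8954 c16557 c4412 c1646 c3583 c1647 c3584 c1649 (k8 c3663 c10518 c14819 c2303 c15540 c2137 c7513 c1118 (k8 c1384 c3125 c3111 c4471 c7514 c616 c1467 c555 (k4 c7497 c15634 c8735 c354 (k2 c2113 c1114 k0)))))) (by decide +kernel)
def c16559 : PP 8 4 T 0x100001000000040000000000000000000000000000001000041020040040000004 := rS 0x19acba5b3e874526308fc818c10492fc089dd7ab113834382386a45125b38a3ca6131d8547ec128b9176371082d7f093d914da1b3ca0c9e0f379611818 (k8 c16465 c16118 c16510 c16518 c1329 c258 c1999 c1958 (k8 c171 c4993 c15519 c14312 c4436 c7782 c308 c12555 (k8 c1384 c15382 c16558 c4405 c6869 c4288 c4284 c4403 (k8 c4401 c4290 c100 c537 c93 c15893 c129 c4383 (k8 c1298 c4466 c4113 c872 c3010 c3012 c3009 c15892 (k8 c8124 c7307 c1872 c4540 c4380 c15664 c12819 c15919 (k4 c15668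 c4392 c1522 c4459 (k2 c2028 c2063 (k1 c4495 k0))))))))) (by decide +kernel)
def c16560 : PP 8 4 T 0x100001000000040000000000000000000000000010001000041020040000000004 := rS 0xb243d2cfc9b613f15ea12fc6132410698c223102888ee000e87a12892b96c66531f8a4429d3d86d825162914da75099cc0c09058edc8972e9bd18ab3599cb018 (k8 c16465 c16510 c16513 c1919 c13092 c16118 c16518 c1337 (k8 c1196 c16558 c4403 c308 c1106 c4462 c1021 c4401 (k8 c498 c4993 c15519 c4530 c4405 c6869 c171 c14312 (k8 c1235 c12555 c4402 c4288 c4290 c255 c93 c63 (k8 c15893 c4436 c16559 c56 c1098 c3101 c1100 c16405 (k8 c14708 c2592 c755 c8851 c1872 c8246 c4540 c1296 (k8 c770 c5815 c8124 c12819 c4448 c15704 c4459 c1906 (k2 c8255 c7658 k0)))))))) (by decide +kernel)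
def c16561 : PP 8 4 T 0x100001000000040000000000000000000000000010001000040020040000000004 := rS 0x10f4b612655e9b3bc4116950e2c8023c84a24b66710a74d67b0db04a2c5229b4767503024161809b912e58 (k8 c16510 c1196 c16558 c4401 c16465 c308 c1106 c4462 (k8 c498 c4403 c4993 c15519 c4530 c4405 c6869 c171 (k8 c14312 c1919 c1235 c12555 c16513 c93 c15893 c4436 (k8 c16560 c9051 c10368 c10353 c15542 c722 c7239 c3009 (k4 c765 c9756 c8246 c15686 (k2 c4459 c1906 (k1 c4485 k0))))))) (by decide +kernel)
def c16562 : PP 8 4 T 0x200001002000040000000000000000000000000000000000000000040020004000 := rS 0x3241a490088c22241387e1a9146160267d (k8 c4409 c4401 c16510 c16118 c129 c4383 c56 c872 (k8 c1028 c15892 c1298 c487 c7307 c1368 c10573 c15669 k0)) (by decide +kernel)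
def c16563 : PP 8 4 T 0x1000000040000000000000000000000000010001000040020040000000004 := rS 0x1843d4ac4544a120a653e612f888ee2e138444a1e00074d063821741e6f3394c8e3b0a8fc5221359ec36c1229b4a2e41c818120b0c2312e58 (k8 c16510 c1196 c16118 c16465 c308 c1106 c4462 c3123 (k8 c16558 c4405 c4993 c15519 c6869 c171 c14312 c1919 (k8 c12555 c4402 c4288 c4284 c4403 c4404 c4290 c16513 (k8 c16518 c1329 c1337 c16561 c4407 c16519 c16562 c4726 (k8 c4466 c1370 c2592 c15507 c756 c3101 c1100 c489 (k8 c4213 c11480 c3776 c1872 c770 c15808 c4337 c15890 (k2 c274 c12819 (k1 c4958 k0)))))))) (by decide +kernel)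
def c16564 : PP 8 4 T 0x1000000040000000000000000000000000010001000040000040000000004 := rS 0x8107a94bc2e26a4d9f17a190448b81e9dc4eb530a8cba310f00228bf37844461d1ac3466792991c5a511f8a58e7b229b436b71c818123b720dc420b0c2312e58 (k8 c16510 c1196 c16118 c16465 c308 c12555 c1384 c16558 (k8 c4403 c1106 c4462 c3123 c7094 c171 c4993 c15519 (k8 c14312 c4289 c4402 c4288 c4405 c4286 c4404 c4290 (k8 c1958 c255 c4383 c16563 c1027 c1297 c609 c1019 (k8 c6330 c4470 c4726 c4466 c14708 c15897 c9264 c4213 (k8 c4389 c9118 c3101 c274 c16556 c9120 c1872 c15567 (k8 c4361 c1525 c1126 c284 c14680 c14681 c3777 c1376 (k2 c1381 c15738 k0)))))))) (by decide +kernel)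
def c16565 : PP 8 4 T 0x100000001002000010000000000000050000000401000000000040000000002000004 := rS 0x26483091082cd645 (k8 c15519 c1919 c308 c12555 c4436 c1872 c8246 c14964 k0) (by decide +kernel)
def c16566 : PP 8 4 T 0x800000020000000000000100000080 := rS 0x3a1f (k2 c3101 c3009 (k1 c4466 k0)) (by decide +kernel)
def c16567 : PP 8 4 T 0x100000000000020000050000055100000000020010180000010 := rS 0xbc9f112856aa3 (k4 c15890 c7883 c4543 c1100 (k2 c1698 c2118 (k1 c1296 k0))) (by decide +kernel)
def c16568 : PP 8 4 T 0x1000000040000000000000000000000000010001000040000000000000004 := rS 0x7938bc4b2689228231ab254a6117044ba05139bc001d0f1a0fa7f4a18e09111525e1a572d9e4ce29722ec6e3920af5330935a317f183b8181221059ec8a6d2c06da218 (k8 c16465 c260 c171 c16510 c4993 c15519 c14312 c308 (k8 c12555 c1106 c4462 c16566 c4540 c4369 c16118 c1919 (k8 c4436 c8246 c1119 c1872 c3123 c1384 c15382 c16558 (k8 c4402 c16513 c1958 c93 c63 c4383 c1196 c16564 (k8 c4411 c4904 c1606 c16565 c4313 c4409 c16519 c1695 (k8 c762 c1098 c3099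 c352 c16405 c15897 c2592 c756 (k8 c4213 c3777 c7308 c16567 c1297 c4470 c9120 c1993 (k4 c9597 c14681 c2114 c1376 (k1 c258 k0))))))))) (by decide +kernel)
def c16569 : PP 8 4 T 0x1000000040000000000000000000000000000001000040000000000000004 := rS 0x249f542c93f9741a11122581e6f020712a3400c44c8d148a30da470ab1cea13721dc0c091082c3058 (k8 c16510 c16465 c308 c12555 c1106 c4462 c16566 c16558 (k8 c4401 c498 c4289 c4284 c4404 c4993 c16118 c129 (k8 c260 c16568 c4412 c490 c16541 c1696 c10353 c4461 (k8 c16518 c1329 c16565 c1028 c15892 c16200 c1337 c15524 (k4 c10573 c898 c1651 c283 (k1 c2107 k0)))))) (by decide +kernel)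
def c16570 : PP 8 4 T 0x100000000000000008000000000000000004540000000000000000000002000000 := rS 0x16487a5c5e1289 (k4 c15893 c4436 c4362 c4459 (k2 c1906 c4481 (k1 c7658 k0))) (by decide +kernel)
def c16571 : PP 8 4 T 0x100001002000000004000000001540000000001050040000050000000002000114 := rS 0x93578f620310042466531f8a5825162914ea1339818163b559ad5a89 (k8 c15893 c4903 c1919 c13092 c4403 c308 c4462 c1021 (k8 c4401 c498 c15519 c4530 c4405 c6869 c4402 c4288 (k8 c4290 c255 c4436 c4461 c7393 c5056 c9051 c5815 (k2 c4413 c4511 k0)))) (by decide +kernel)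
def c16572 : PP 8 4 T 0x1000000040000000000000000000000000000000000040000000000000004 := rS 0x782a68811869732c14a89b8c2648277399d4f69d03114d6091086e12572d9b416672c060a6131d9447ee4 (k8 c16558 c4288 c4405 c4403 c4401 c4290 c16465 c16510 (k8 c16513 c308 c4993 c93 c63 c4436 c171 c12555 (k8 c1106 c1919 c15519 c4462 c1235 c14312 c498 c1021 (k8 c16566 c1872 c8246 c4540 c4448 c16569 c4406 c1647 (k4 c1196 c16570 c16571 c2198 (k2 c266 c15748 (k1 c15540 k0))))))) (by decide +kernel)
def c16573 : PP 8 4 T 0x100001000000000000000000001000000000481040001500055400110002000008 := rS 0x21956af189e988c145b0e1289199e45e2b (k8 c226 c8877 c1958 c255 c15893 c4436 c1088 c1771 (k8 c1621 c15818 c12819 c15762 c9756 c1675 c1231 c14634 k0)) (by decide +kernel)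
def c16574 : PP 8 4 T 0x100001000000000000000400001000000000501050001500055400110002000008 := rS 0x57aac62c38b1cd5a89198bda22b (k8 c226 c260 c8877 c255 c15893 c4903 c16573 c4481 (k4 c4362 c15762 c14076 c5815 (k1 c2112 k0))) (by decide +kernel)
def c16575 : PP 8 4 T 0x800000000000000010008000004000440000000000000000500000004550000000000 := rS 0x126ac4c8c55f17 (k4 c4362 c4346 c4441 c4443 (k2 c2112 c1127 (k1 c13185 k0))) (by decide +kernel)
def c16576 : PP 8 4 T 0x1000000040000000000000000000004000010001000040000000100000000 := rS 0x241c89c9afd5ea154e83279a8611354aad7ec24daee3045849c51e333cb4456971ba30223543c116608208bcee3d0f1d53a010586c3a57010a47e51168eca6e4339b4b018 (k8 c16465 c16510 c4993 c16513 c16558 c4290 c4403 c4286 (k8 c4405 c4288 c4402 c16572 c63 c790 c171 c308 (k8 c28 c15584 c538 c4466 c2131 c15566 c8877 c1104 (k8 c222 c16243 c16574 c4410 c3111 c2302 c16118 c1384 (k8 c1196 c226 c260 c1958 c255 c100 c537 c4436 (k8 c257 c4540 c15382 c13624 c15657 c6330 c15672 c1507 (k8 c16575 c4469 c229 c2140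 c15607 c3910 c563 c1120 (k4 c15660 c4248 c356 c1114 (k2 c9120 c16296 k0))))))))) (by decide +kernel)
def c16577 : PP 8 4 T 0x1000000040000000000000000000000000010001000040000000100000000 := rS 0x14cbf502d96a9565ae4deac1c2bd571518b0c88bd8c9e8e67f8228c463558acc82771e8203c3786a44e28f460ccda67298ec5a511f8a5c82f4e804161b0e95da21815808ea58 (k8 c16510 c538 c16572 c226 c16465 c260 c63 c790 (k8 c171 c308 c28 c15584 c8877 c16558 c4402 c4288 (k8 c4405 c4286 c4403 c4290 c16513 c4993 c255 c16118 (k8 c100 c537 c129 c4383 c1384 c4466 c222 c2131 (k8 c15566 c1104 c16243 c3125 c3111 c1297 c9264 c16574 (k8 c4313 c4408 c16576 c4366 c3181 c1224 c3222 c297 (k8 c15651 c14076 c5815 c4470 c2112 c3245 c1201 c2027 (k4 c861 c1388 c15745 c1118 (k2 c1247 c900 (k1 c8272 k0)))))))))) (by decide +kernel)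
def c16578 : PP 8 4 T 0x1000000040000000000000000000000000010001000040000000000000000 := rS 0x3c4ac4586ac20c495eab3b81936c13d8c412451025c365b199b4b00b298ec5a511f8a5c82f688605602 (k8 c16572 c226 c16465 c260 c8877 c16558 c4402 c4288 (k8 c4405 c4286 c4403 c4290 c308 c16510 c4993 c255 (k8 c93 c171 c1196 c16577 c2178 c231 c316 c14312 (k8 c6869 c13624 c4462 c15578 c14076 c5815 c4469 c1872 (k4 c2112 c16575 c4338 c861 (k2 c12819 c7465 k0)))))) (by decide +kernel)
def c16579 : PP 8 4 T 0x1000000040000000000000000000004400000001000041000000100000000 := rS 0x241c89c9afd5ea154e83279a860a989aad7ebb6126c8b0d48c24e28f199b4a62d288a45ed1159043037460452e3f720d4101e0e95c0458 (k8 c16510 c16572 c63 c790 c4466 c222 c3111 c16558 (k8 c4288 c1193 c2302 c16118 c1384 c16465 c1872 c226 (k8 c260 c8877 c4402 c4405 c4286 c4290 c4993 c255 (k8 c100 c537 c4436 c129 c4383 c257 c13624 c15657 (k8 c15382 c6330 c1947 c16575 c1507 c4469 c229 c2140 (k8 c15607 c3910 c563 c1120 c15782 c4248 c356 c1114 (k2 c9120 c16296 k0))))))) (by decide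 +kernel)
def c16580 : PP 8 4 T 0x1000000040000000000000000000000400000001000041000000100000000 := rS 0x2d592955c83cde75560e182ab57c5462c335910f43558acd2e11040786e7147a30666d2984c5a511f8a5c82f4e804161b0e95cb0d10c0ac0464 (k8 c16578 c16572 c226 c16465 c260 c16510 c63 c790 (k8 c171 c308 c28 c15584 c8877 c16558 c4402 c4288 (k8 c4405 c4286 c4401 c4290 c4993 c255 c16118 c100 (k8 c537 c1384 c4466 c222 c2302 c1193 c16243 c3125 (k8 c3111 c16579 c1224 c561 c3222 c297 c15651 c1777 (k8 c14076 c15691 c4470 c2112 c709 c3245 c241 c1201 (k4 c861 c10573 c1388 c16238 k0))))))) (by decide +kernel)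
def c16581 : PP 8 4 T 0x1000000040000000000000000000000400000001000041000000000000000 := rS 0x224ab6126d2e3122880823336960a62d288a5c82f688605602 (k8 c16572 c226 c16465 c260 c8877 c16558 c4402 c4405 (k8 c4286 c4290 c16510 c4993 c255 c1872 c16580 c2178 (k4 c316 c926 c13624 c15657 (k2 c14076 c4469 (k1 c16575 k0))))) (by decide +kernel)
def c16582 : PP 8 4 T 0x1000000000000000000000000000000800000020000000004000000000008 := rS 0x601f34260ae01 (k4 c28 c63 c1111 c1112 (k2 c15566 c6171 (k1 c15522 k0))) (by decide +kernel)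
def c16583 : PP 8 4 T 0x1000000040000000000000000000000000000001000040000000000000000 := rS 0x250ea9703080121f1e444c82b0584c5ae40e95cee02199b43058 (k8 c16510 c16465 c4993 c255 c16572 c16582 c63 c790 (k8 c16558 c4286 c4401 c308 c226 c16578 c4412 c16581 (k8 c2131 c234 c4466 c4462 c926 c498 c7465 c1696 k0))) (by decide +kernel)
def c16584 : PP 8 4 T 0x100001000000000000000400001000000001100000000400055402010000000008 := rS 0x1ec8a6a (k4 c229 c297 c561 c15865 k0) (by decide +kernel)
def c16585 : PP 8 4 T 0x1000000040000000000000000000000000010000000041000000100000000 := rS 0xdd151c3f4f4445bc6526b561ae52b108b18ce68a68265831257aacd631118d562b3040786f0d849c51e8c3c94c8e3b169447e2963b905e9d0082c361d2b904ee33369d52e2b012b4ce58448620a54 (k8 c16583 c4406 c16465 c15893 c16510 c16513 c4903 c16572 (k8 c227 c1196 c1686 c4993 c255 c16582 c1872 c63 (k8 c790 c171 c308 c28 c15584 c8877 c16558 c4289 (k8 c4402 c4288 c4405 c4286 c4403 c4404 c4290 c1958 (k8 c16118 c100 c537 c4436 c4383 c1384 c4466 c222 (k8 c16243 c3125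 c3111 c1297 c16584 c1918 c14076 c5815 (k8 c4469 c15691 c8246 c2112 c261 c1771 c1768 c4481 (k8 c4478 c5073 c4361 c4362 c4419 c4413 c15688 c1117 (k4 c14146 c9998 c16555 c16556 (k2 c15651 c4480 (k1 c3245 k0))))))))))) (by decide +kernel)
def c16586 : PP 8 4 T 0x1000000040000000000000000000000000010000000041000000000000000 := rS 0x8898d248a61b40e6af55a6536c5609ec62450f8815a2b4ba24f267298ec5a511f8a5c82f4e804161b0e95c8277010ccda580c414ea54 (k8 c16583 c1686 c4406 c16465 c16510 c4993 c255 c16572 (k8 c16582 c1872 c63 c790 c171 c308 c28 c15584 (k8 c8877 c16558 c4402 c4288 c4405 c4286 c4403 c4290 (k8 c16513 c1958 c15893 c1196 c227 c4903 c16585 c86 (k8 c2178 c316 c14312 c6869 c4530 c13624 c6171 c14076 (k8 c5815 c15818 c2112 c16570 c261 c4511 c1768 c4413 (k1 c4478 k0))))))) (by decide +kernel)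
def c16587 : PP 8 4 T 0x1000000040000000000000000000000000000000000041000000000000000 := rS 0x702724bf5927f51ae446618b0d562b31badd6a110408542734a8aa22643ac34ae712c23d183b7200a0a54 (k8 c16583 c4406 c16572 c16558 c4403 c16118 c100 c16510 (k8 c537 c63 c4383 c1686 c16586 c4412 c1646 c3628 (k8 c1649 c3663 c10518 c14819 c2303 c1388 c1118 c1384 (k8 c16243 c3125 c3111 c4481 c616 c1297 c4361 c9264 (k4 c555 c7497 c15634 c8735 (k2 c354 c15715 (k1 c1114 k0))))))) (by decide +kernel)
def c16588 : PP 8 4 T 0x1000000040000000000000000000000000000000000040000000000000000 := rS 0x8a593415eab569d462653d8244073159143f171e414a81d1780852511694dc8670586d1257199b4b018 (k8 c16465 c16510 c4993 c255 c63 c15893 c171 c308 (k8 c16513 c16558 c4290 c4286 c4405 c4402 c16572 c8877 (k8 c790 c16583 c4406 c16587 c4416 c2131 c2180 c15541 (k8 c1615 c4466 c1105 c14312 c1646 c316 c1687 c4903 (k4 c14076 c5815 c2112 c4481 (k2 c261 c722 k0)))))) (by decide +kernel)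
def c16589 : PP 8 4 T 0x1001000000000000000000000000000000000020000080000040102000100 := rS 0x3a1f028c41657 (k4 c63 c535 c14466 c268 (k2 c276 c10867 (k1 c4466 k0))) (by decide +kernel)
def c16590 : PP 8 4 T 0x202000004 := rS 0xa01 (k2 c9668 c2257 (k1 c4461 k0)) (by decide +kernel)
def c16591 : PP 8 4 T 0x1000000000080000000082000080 := rS 0x6000 (k2 c1098 c276 (k1 c9671 k0)) (by decide +kernel)
def c16592 : PP 8 4 T 0x1000000000000000000000000000000000000020000080000000002000004 := rS 0x20c4381f0302c429d35824ae6d (k8 c4993 c63 c1106 c1919 c1235 c16590 c535 c4462 (k4 c16591 c4466 c14397 c10867 (k1 c268 k0))) (by decide +kernel)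
def c16593 : PP 8 4 T 0x100000000000000000015400000000204008100010020004000120000000090008 := rS 0x1907f3e984ba8163ac41e2637c34e28f028741657 (k8 c63 c303 c790 c55 c100 c537 c4383 c16518 (k8 c15618 c1329 c1034 c8718 c10263 c1337 c4565 c1563 (k2 c515 c4032 (k1 c7308 k0)))) (by decide +kernel)
def c16594 : PP 8 4 T 0x100001001000040000000000000000000000000010001000001000000000000000 := rS 0x7d6483cc3142e898de35439456ec15ca4d47168804a1a393d1de12798c845224b5da962431199b45e753999cc6292dacc2a97158803a3f5aa540c0b2b8243e020c108b08c (k8 c16118 c16510 c16588 c16465 c16592 c2132 c1105 c63 (k8 c303 c4462 c15532 c1388 c11031 c790 c4466 c16312 (k8 c11617 c14481 c11612 c93 c12392 c11648 c919 c16551 (k8 c16275 c8877 c4993 c255 c11577 c4469 c4444 c1389 (k8 c1954 c129 c15533 c4446 c9840 c4436 c16582 c4482 (k8 c1113 c4383 c4464 c4478 c4481 c4337 c4413 c4361 (k8 c4420 c1117 c1956 c9141 c16593 c1019 c16342 c1337 (k4 c4538 c4565 c239 c7308 (k2 c1563 c12439 k0))))))))) (by decide +kernel)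
def c16595 : PP 8 4 T 0x100200000001000000100000100000050200000154000000000005020058000000000 := rS 0xa051319702c (k4 c4468 c16261 c11342 c5821 (k2 c409 c161 k0)) (by decide +kernel)
def c16596 : PP 8 4 T 0x200000001000000000000000000010200000140010020000005120050000010008 := rS 0xb95bb1d262d88324c25d58898df0d38a3c0a9705874aeb5 (k8 c1388 c63 c790 c303 c11617 c55 c100 c537 (k8 c4383 c16518 c15618 c1034 c1337 c4565 c7308 c16595 (k4 c4332 c4413 c408 c1117 (k2 c11342 c15732 k0)))) (by decide +kernel)
def c16597 : PP 8 4 T 0x1001000040000000000000000000000000010001000001000000000000000 := rS 0x162c930c506e5d5c898de358243472292d8ac401d08a4518751f9cd2a060595c121f010608458 (k8 c16510 c16588 c16465 c16592 c2132 c1105 c63 c303 (k8 c4462 c15532 c16551 c11031 c16275 c16118 c129 c15533 (k8 c790 c4466 c16312 c93 c12392 c1113 c4383 c16594 (k8 c16596 c1019 c16342 c7514 c1337 c321 c4538 c4565 (k2 c7308 c8612 (k1 c15643 k0)))))) (by decide +kernel)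
def c16598 : PP 8 4 T 0x1000000000000400000000200000100020020000005120200000010008 := rS 0x6f (k2 c16518 c16548 k0) (by decide +kernel)
def c16599 : PP 8 4 T 0x1001000040000010000000000000000000000001000001000000000000000 := rS 0x28ce667318a6280f30898b67d2e9bc6a2c0081566154b8ac401d3a845223f1c81816570487c0418211611864 (k8 c16597 c16118 c16510 c16588 c16465 c16592 c2132 c1105 (k8 c63 c303 c4462 c1113 c11031 c129 c15533 c16275 (k8 c790 c4466 c16312 c11617 c14481 c11612 c55 c28 (k8 c9676 c16598 c1019 c1337 c1651 c93 c16342 c4565 (k8 c239 c4538 c12392 c11648 c919 c16551 c1467 c15842 k0))))) (by decide +kernel)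
def c16600 : PP 8 4 T 0x1001000040000000000000000000000000000001000001000000000000000 := rS 0x2e06a2c322cc0a011c845228c3a8fc0c090aa5c56200f82c3a0221060ae58 (k8 c16510 c63 c16465 c16588 c16592 c790 c303 c2132 (k8 c4466 c16312 c11617 c14481 c1105 c4462 c11031 c16275 (k8 c16118 c129 c15533 c1113 c28 c55 c11612 c16597 (k4 c9676 c16598 c16599 c7514 k0)))) (by decide +kernel)
def c16601 : PP 8 4 T 0x1001000040000000000000000000000000000001000000000000000000000 := rS 0x59b0a08525684ca22d1e344822f3d1de12798cabc525b558c4666d3a8fc0c090aa5c56200f82c3a0221060ae58 (k8 c16510 c63 c16465 c16588 c16592 c790 c303 c2132 (k8 c4466 c16312 c11617 c14481 c1105 c4462 c11031 c16275 (k8 c4993 c255 c11577 c14076 c93 c12392 c5815 c4446 (k8 c9840 c4436 c16582 c4482 c8877 c91 c260 c16600 (k8 c329 c1685 c1678 c4554 c2112 c9747 c333 c4312 (k1 c1211 k0)))))) (by decide +kernel)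
def c16602 : PP 8 4 T 0x1001000000000000000000000000000000000022100085005450000100000 := rS 0x2d5699e94b368abd5653 (k8 c9029 c14076 c5815 c340 c11612 c4475 c656 c4458 (k2 c247 c2112 k0)) (by decide +kernel)
def c16603 : PP 8 4 T 0x1001000040000000000000000000000000000000000000000000000000000 := rS 0x560b62e3c289502a97399d42e2f1f81812af1496d5631158803e1d058088457199b4b018 (k8 c16465 c16510 c4993 c255 c63 c16588 c16592 c303 (k8 c790 c2132 c4466 c16312 c11577 c14076 c93 c12392 (k8 c5815 c1105 c4462 c11031 c8877 c35 c16275 c16551 (k8 c11617 c14481 c16601 c1605 c16602 c4416 c329 c14479 (k1 c4554 k0))))) (by decide +kernel)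
def c16604 : PP 8 4 T 0x200001000000040000000000000000000000000000000000000020000000000000 := rS 0x192b1079bce28f08a4566893380572ac17abd562b3a84c525b199b4a2731d818160918b0ca6a311c35189716b90401f0e80884182b960fe7d (k8 c4409 c4313 c16510 c63 c16465 c16588 c16592 c790 (k8 c2132 c4466 c16603 c4286 c926 c16118 c4383 c1298 (k8 c9264 c4290 c2054 c11577 c1105 c303 c4462 c4403 (k8 c1021 c4405 c4993 c255 c93 c12392 c4401 c498 (k8 c16312 c14076 c5815 c8877 c14706 c16374 c28 c5084 (k8 c15893 c10962 c129 c15533 c100 c537 c16518 c1329 (k2 c1034 c10573 (k1 c9361 k0)))))))) (by decide +kernel)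
def c16605 : PP 8 4 T 0x1000000040000000000000000000000000010000000000000000000000000 := rS 0x58b24c3141b9744c6f1ac11123908a44ce015cab05eaf558acea131496c666d289cc76060582462c329a8c470d4625c5ae41007c3a0221060ae58 (k8 c16510 c63 c16465 c16588 c16592 c790 c2132 c4466 (k8 c16603 c4286 c926 c16118 c4383 c1298 c9264 c4290 (k8 c2054 c11577 c1105 c303 c4462 c4403 c1021 c4405 (k8 c4993 c255 c93 c12392 c4401 c498 c16312 c14076 (k8 c5815 c8877 c14706 c16374 c28 c5084 c129 c15533 (k8 c1113 c15893 c4903 c16604 c1019 c16342 c1337 c321 (k4 c4538 c4565 c7308 c8612 (k1 c15643 k0)))))))) (by decide +kernel)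
def c16606 : PP 8 4 T 0x100001000000040000000000000000080000000000000000000020000000000000 := rS 0x1f592b740ac41e6f38a3c229125aed4b1259ab05eaf558acea131496c666d29944e63b0302c123144a5c5a200e95cce013f99146e41187c04580c10a1a8c (k8 c16118 c4383 c16588 c16465 c16510 c16592 c2132 c1298 (k8 c16603 c9264 c16605 c555 c28 c5084 c63 c790 (k8 c4466 c4286 c926 c15893 c11577 c1105 c303 c4462 (k8 c4403 c1021 c4405 c4290 c4993 c255 c93 c12392 (k8 c4401 c498 c16312 c14076 c5815 c8877 c14706 c10962 (k8 c4469 c4444 c1389 c1954 c129 c15533 c100 c537 (k8 c16518 c1329 c1034 c10263 c1037 c10573 c1773 c5124 k0))))))) (by decide +kernel)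
def c16607 : PP 8 4 T 0x1000000040000000000000000000000000000000000000010000000000000 := rS 0x1907d07986285d131bc721148c44c6b34499c02b9560bd5eab159d426292d8ccda51398ec0c0b048c586535188e1a8c4b8b5c8200f87404420c15cb064 (k8 c16605 c16510 c63 c16465 c16588 c16592 c790 c2132 (k8 c4466 c16603 c4286 c926 c16118 c4383 c1298 c9264 (k8 c4290 c2054 c11577 c1105 c303 c4462 c4403 c1021 (k8 c4405 c4993 c255 c93 c12392 c4401 c498 c16312 (k8 c14076 c5815 c8877 c14706 c16374 c28 c5084 c15893 (k8 c10962 c821 c4338 c129 c15533 c1113 c1019 c16342 (k4 c1337 c4538 c4565 c239 (k2 c1651 c15790 (k1 c10573 k0))))))))) (by decide +kernel)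
def c16608 : PP 8 4 T 0x1000000040000000000000000000000000000000000000000000000000000 := rS 0x8645c146864a5ab0e675288b4761329b9156af188ac520604880161f0e8bc0442199b4b6572c2261218 (k8 c16465 c4436 c15893 c16510 c63 c93 c4993 c255 (k8 c16588 c16592 c8877 c790 c2132 c303 c4466 c1105 (k8 c4462 c12392 c16312 c11577 c5815 c14076 c16603 c4290 (k8 c4401 c4403 c4286 c4405 c498 c1021 c14706 c4458 (k4 c16605 c16607 c16604 c16606 (k2 c4485 c1652 k0)))))) (by decide +kernel)
def c16609 : PP 8 4 T 0x400002002000000000005000000000450000504000100080000000020140141205000 := rS 0x44ab8ecc58c274cca554801322449870961b0b93e1a8c5e904e2ad17aadca51 (k8 c4435 c11030 c14464 c4432 c4554 c1303 c4433 c1039 (k8 c12761 c4383 c4297 c4431 c4292 c4434 c4466 c11351 (k8 c1028 c1031 c758 c3477 c7886 c646 c1237 c4488 (k4 c7718 c15816 c2127 c2042 (k1 c985 k0))))) (by decide +kernel)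
def c16610 : PP 8 4 T 0x400100000000000040005000400000400000000100114180000000020160101211800 := rS 0x13c671288808270e8798ea330ae5f881419bc96174bb94127b0d83c6e8c78254be71 (k8 c1303 c576 c5073 c16608 c12761 c1384 c304 c4292 (k8 c702 c84 c11030 c16347 c4431 c4434 c10992 c4570 (k8 c12056 c8124 c4548 c4302 c1467 c1451 c16609 c56 (k4 c2312 c270 c1100 c1370 (k2 c655 c16130 (k1 c1571 k0)))))) (by decide +kernel)
def c16611 : PP 8 4 T 0x200000000000080000000000000140020000 := rS 0x43823 (k4 c1298 c4466 c607 c758 k0) (by decide +kernel)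
def c16612 : PP 8 4 T 0x200000000000010000000020000100021800 := rS 0x81e7e968ae09 (k4 c84 c16128 c4476 c4300 (k2 c16611 c270 (k1 c15611 k0))) (by decide +kernel)
def c16613 : PP 8 4 T 0x100000000000040005000400000000000000100014181000040022140101211800 := rS 0x9f338884f1000878529b34c4d2ee53d86d2a5f38a0c2e8125985f8a363ae4de0f1ba31e009 (k8 c84 c16608 c12761 c1384 c304 c10992 c4548 c1451 (k8 c1467 c8124 c4302 c4434 c12056 c4431 c4570 c1303 (k8 c576 c5073 c4292 c702 c11030 c16347 c4441 c1878 (k8 c1966 c16610 c16609 c647 c4468 c2312 c1100 c13949 (k2 c4414 c16130 k0))))) (by decide +kernel)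
def c16614 : PP 8 4 T 0x2002000000000005000000000050000504000000080000040021140141215000 := rS 0x1d8f309624650912269a5329b1224c384b0b93c828c4586ce2ad17aadca51 (k8 c4435 c11030 c14464 c4432 c4554 c1303 c4292 c718 (k8 c12761 c4433 c4297 c4431 c4434 c4466 c11351 c1028 (k8 c765 c1031 c2723 c284 c16609 c2108 c15688 c15710 (k4 c4321 c602 c4482 c1096 k0)))) (by decide +kernel)
def c16615 : PP 8 4 T 0x102000000000040040000000040000000000000014500000000020040080201800 := rS 0x4f19c440413b95e061 (k8 c4302 c16608 c11030 c2312 c270 c1100 c655 c16130 (k1 c6233 k0)) (by decide +kernel)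
def c16616 : PP 8 4 T 0x100000000000040005000400000000000000100014011000040020040101201800 := rS 0x31168703ec751ae5f881419bc225f3892c2e5d4bb94f61b078dcb45704a31e095 (k8 c5073 c16608 c12761 c84 c16128 c4476 c1384 c304 (k8 c4292 c702 c11030 c16347 c1338 c4431 c4434 c1303 (k8 c576 c16612 c10992 c4570 c12056 c8124 c4548 c1467 (k4 c1451 c16615 c4466 c2920 (k2 c16613 c16614 k0))))) (by decide +kernel)
def c16617 : PP 8 4 T 0x200000000000000004005140001001050000000000000000000050152002000000000 := rS 0x57a654cc52626e2693 (k8 c4413 c4441 c1966 c16203 c7718 c285 c2010 c909 (k1 c15714 k0)) (by decide +kernel)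
def c16618 : PP 8 4 T 0x100000000000040000000000000000000000100010011000041000040101000804 := rS 0xc8441acd21043abd9a993ba1632be268c59ec61d91d7ab72fa4d3ea98a1c577102489072673689c021e4eae4461d1aad52a630696982c34595c7e145983cf6092586c9e4168c34ba374bb9518f0 (k8 c16608 c12761 c11030 c16347 c1384 c1338 c4383 c4298 (k8 c4433 c4297 c4292 c4434 c84 c702 c304 c663 (k8 c7079 c399 c16128 c718 c9009 c12762 c4476 c16121 (k8 c12307 c5073 c1388 c16616 c1027 c1297 c7514 c10547 (k8 c4466 c567 c2312 c5028 c13949 c1114 c9120 c7307 (k8 c4478 c9034 c7095 c4470 c1503 c4414 c4413 c576 (k8 c4353 c4354 c6900 c1101 c2113 c1519 c16617 c284 (k8 c15612 c4369 c15658 c1094 c1134 c7983 c9441 c10171 (k4 c10080 c845 c581 c15749 (k2 c407 c637 k0)))))))))) (by decide +kernel)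
def c16619 : PP 8 4 T 0x100000000000040000000000000000000000100010011000041000040101000004 := rS 0x1346c62a2d5ecd4cc657ccfa19dc9ac6070fd86477ec59829f881cd72ab568ecce89438492a7f16854c66b34834005f029696a715eadcaf14a2aec3c9d548446a391189cf61d59890100b03a5c6e4b1785c9e4122b44a2e586a4518f0 (k8 c16608 c12761 c129 c4383 c11030 c4435 c4298 c4296 (k8 c4433 c4297 c4431 c4432 c4434 c1384 c16347 c10598 (k8 c16618 c4462 c16286 c16243 c3049 c1225 c115 c58 (k8 c281 c16382 c2211 c1503 c10547 c4466 c9034 c11725 (k8 c4470 c16470 c4353 c4354 c4387 c4389 c4476 c263 (k8 c576 c4461 c1367 c757 c492 c755 c15621 c15619 (k8 c7517 c5073 c4464 c9141 c7030 c15652 c15650 c4554 (k8 c14464 c5280 c1560 c4478 c6233 c14373 c4481 c15634 (k8 c6900 c4362 c4356 c15641 c16556 c244 c15788 c4391 (k8 c1519 c15612 c4369 c1134 c7983 c9441 c4632 c12768 (k2 c15841 c15714 (k1 c865 k0)))))))))))) (by decide +kernel)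
def c16620 : PP 8 4 T 0x10000000000000200000004 := rS 0xa01 (k2 c9668 c311 (k1 c4461 k0)) (by decide +kernel)
def c16621 : PP 8 4 T 0x40000000000000000000000100020010000000000040000000004 := rS 0x6a1107834106e02158025b2ea31e021 (k8 c16620 c16608 c12761 c1338 c578 c491 c4476 c4461 (k4 c1067 c16128 c16200 c265 (k2 c15512 c1060 (k1 c8928 k0)))) (by decide +kernel)
def c16622 : PP 8 4 T 0x100000000000040000000000000000000000100000011000040000040001000004 := rS 0xb4010e028aeb20f824788c7801c4265 (k8 c16621 c16620 c10598 c16608 c12761 c16619 c234 c274 (k4 c10368 c16128 c4462 c4466 (k2 c2642 c4476 (k1 c758 k0)))) (by decide +kernel)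
def c16623 : PP 8 4 T 0x200000000000040000000100000000000000104010080000045020040141055000 := rS 0xa789ab98acda2a109ac64ec4170a554a8d56ad4ca4d2a9b5b8905a1c1186c5e17278cca30d4ba30fe673998d86e520b056a714092de0c9 (k8 c10573 c16608 c4434 c12056 c1303 c7883 c12762 c4433 (k8 c11030 c9009 c4407 c4408 c4310 c4313 c12761 c16347 (k8 c4383 c4435 c4294 c4297 c4431 c4432 c4292 c1298 (k8 c4466 c2920 c1028 c3011 c765 c763 c1030 c1031 (k8 c4554 c14464 c11410 c1503 c7886 c15732 c16129 c1237 (k8 c11342 c15797 c10080 c4397 c1481 c1255 c15686 c15710 (k2 c15521 c4490 k0))))))) (by decide +kernel)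
def c16624 : PP 8 4 T 0x200000000000040000000000000000000000100010010000041020040101001800 := rS 0xb863adc3cc937844e2b572ac4e60f1b84c7e5a2b82518f0 (k8 c16608 c12761 c84 c16128 c4476 c399 c570 c1384 (k8 c304 c4408 c1115 c11030 c7883 c1303 c16612 c10992 (k4 c10573 c16623 c3103 c7786 (k2 c15732 c11342 k0)))) (by decide +kernel)
def c16625 : PP 8 4 T 0x2000200000000000040000010100000000000000100000000000000000000000054100 := rS 0x1926f (k2 c10992 c10573 (k1 c15643 k0)) (by decide +kernel)
def c16626 : PP 8 4 T 0x400000000000000000000140015011000010000001056000000050152006001000000 := rS 0x15e6b532949869 (k4 c1878 c16203 c1935 c285 (k2 c621 c908 (k1 c12794 k0))) (by decide +kernel)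
def c16627 : PP 8 4 T 0x200000000000040000000000000000000000100000010000041000040001000804 := rS 0x341dd5ebe531ac9aa518c4d426042b1c20bd54c528abb2489072ab569b40827168043c9d5c88c3a3506968ae3f0983cf6092586c5e4f20945cb0d48ac46e21463c0ca6743a242a63 (k8 c4407 c4308 c4314 c4410 c4310 c16621 c16608 c12761 (k8 c16620 c1384 c1115 c129 c4383 c11030 c4435 c4433 (k8 c4297 c4432 c4292 c4434 c84 c702 c304 c570 (k8 c399 c16128 c4476 c16121 c16624 c1027 c1297 c7514 (k8 c10547 c4466 c567 c2359 c2312 c270 c5028 c4554 (k8 c14464 c1114 c9120 c7307 c9034 c11725 c4470 c1503 (k8 c4354 c16625 c406 c710 c7312 c4212 c12284 c16626 (k8 c11724 c284 c621 c4490 c15612 c908 c1094 c12794 (k1 c845 k0))))))))) (by decide +kernel)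
def c16628 : PP 8 4 T 0x40001000001000000014050140054080000045110040501001202 := rS 0x1346c62a2d9f4357b353319632f8ee4726839fa955cc59864f20915a30d4b9ed3a1e0eadc76bb25d157a715ac506e8c568bd5651498b5caf0 (k8 c16608 c11030 c910 c15671 c4435 c14464 c4432 c4554 (k8 c12761 c1384 c4470 c4389 c4387 c4354 c11725 c4434 (k8 c9034 c1061 c7094 c3049 c4466 c10547 c1225 c16347 (k8 c4383 c4298 c4296 c4433 c4297 c9009 c4471 c7514 (k8 c4418 c15634 c15641 c244 c1331 c15788 c15612 c16556 (k8 c4369 c1134 c7983 c9441 c4391 c1519 c4632 c12768 (k2 c8142 c2127 (k1 c865 k0)))))))) (by decide +kernel)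
def c16629 : PP 8 4 T 0x200000000000000180000014000000000000000501000020000004002000000002 := rS 0x116af3694994a633a1d1263 (k8 c4407 c4314 c4410 c4310 c285 c413 c412 c904 (k2 c15521 c1752 (k1 c7031 k0))) (by decide +kernel)
def c16630 : PP 8 4 T 0x6000200000000000040000000014000000000004100010100001040010002001015002 := rS 0xef19422f89ac664ae0c26f19b961a8c599cc4e71349ac2ef0 (k8 c16608 c4431 c492 c757 c4387 c115 c4408 c4312 (k8 c12761 c4383 c11030 c4294 c8928 c12807 c12094 c7308 (k4 c7908 c16629 c15612 c10080 (k2 c4369 c1093 (k1 c13580 k0))))) (by decide +kernel)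
def c16631 : PP 8 4 T 0x200000000000040000000000000000000000100000010000041000040001000004 := rS 0xf06c45abd87195f1dc9a0e62c5c7cc155ab45a6b34834005f02968e2bd2bc51769d5492422351c88cf61d12020164b1785c9e4122945cb0d489746e8c7801c42653f99d6687399f51263 (k8 c4407 c4314 c4409 c4408 c4410 c4312 c4310 c4313 (k8 c16621 c16620 c10598 c16608 c12761 c1384 c1338 c129 (k8 c4383 c11030 c4435 c4296 c4433 c4297 c4431 c4432 (k8 c4434 c16627 c4462 c16286 c3049 c1225 c58 c281 (k8 c16382 c2211 c282 c1503 c10547 c9034 c4470 c16470 (k8 c4354 c4387 c4476 c263 c576 c4461 c1367 c757 (k8 c492 c910 c4554 c14464 c14373 c16628 c4356 c1248 (k8 c16630 c244 c15788 c15612 c4369 c12326 c9441 c4632 (k2 c8142 c2123 (k1 c601 k0)))))))))) (by decide +kernel)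
def c16632 : PP 8 4 T 0x40000000000000000000000100000011000040000040001000004 := rS 0x5f2498422001383cb41c11a8c14574fb1c3e93048b48e3c319f4ce7f821961a912e8dd2ee5463c00e21 (k8 c16620 c10598 c16608 c12761 c11030 c16347 c1384 c1338 (k8 c129 c4383 c16621 c16622 c4313 c4310 c4409 c4407 (k8 c16631 c8078 c329 c234 c1654 c274 c330 c11776 (k8 c16128 c4462 c1468 c1298 c4466 c4476 c304 c872 (k4 c758 c16611 c12807 c7307 (k2 c2538 c9121 k0)))))) (by decide +kernel)
def c16633 : PP 8 4 T 0x40000000000501000000000001011500000045402080001014000 := rS 0x1526b56214d31357b4546b98b39518f0 (k8 c16608 c12761 c11030 c4471 c4361 c1467 c4298 c1774 (k4 c4441 c1878 c10110 c15735 (k2 c2049 c948 (k1 c8696 k0)))) (by decide +kernel)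
def c16634 : PP 8 4 T 0x40000000000000000040000000010090000041020084101005821 := rS 0x429a4d6a93ba658919298c54aa730894224b17b44a25d3d9b4369d228ec3c292f9c46e3961905823f4bb9518f0 (k8 c16608 c12761 c11030 c16347 c289 c12762 c4433 c9009 (k8 c1114 c1384 c7095 c576 c59 c575 c1102 c4296 (k8 c1232 c4292 c694 c2688 c1338 c4435 c4298 c4432 (k8 c4434 c16612 c15534 c614 c4558 c10933 c16633 c292 (k8 c15670 c2115 c4166 c1096 c1508 c581 c845 c13580 (k1 c8696 k0)))))) (by decide +kernel)
def c16635 : PP 8 4 T 0x100000000000040000000000000000000000100010011000040000000001000004 := rS 0x125424712184463563a8d72b55bc592a3b1e8e5661e0682802270781116092d050ae133306c6e291fa5c42e5463c0c62a (k8 c16632 c1606 c16608 c12761 c11030 c16620 c16347 c289 (k8 c59 c1384 c4292 c4904 c1638 c920 c4464 c4476 (k8 c384 c718 c286 c2221 c2315 c647 c12637 c16121 (k8 c575 c2645 c1114 c2205 c1102 c5073 c4471 c7094 (k8 c1388 c4361 c1467 c291 c16634 c1297 c15769 c9120 (k4 c1643 c896 c283 c2113 k0)))))) (by decide +kernel)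
def c16636 : PP 8 4 T 0x100000000000040000000000000000000000100000011000040000000001000004 := rS 0x2122b054b66472bc05a2a (k8 c16632 c143 c16608 c11030 c16635 c578 c551 c4476 (k2 c4464 c15891 (k1 c1639 k0))) (by decide +kernel)
def c16637 : PP 8 4 T 0x40000000000000000000000000000010000000000080100000802 := rS 0x1207c38054bb9518f0 (k8 c16608 c12761 c11030 c16347 c54 c567 c270 c1028 (k1 c16290 k0)) (by decide +kernel)
def c16638 : PP 8 4 T 0x40000001000000000000000000000011000000020080100101820 := rS 0x2dd8ea113895f86f2f844e28f588fd2ee53183c6e1e1d874025a2b82518f0 (k8 c16608 c12761 c84 c16128 c4476 c16637 c758 c1641 (k8 c4466 c1384 c304 c1606 c11030 c16347 c289 c1115 (k8 c100 c1303 c16612 c576 c10992 c4463 c15534 c10203 (k4 c1735 c290 c3103 c16282 k0)))) (by decide +kernel)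
def c16639 : PP 8 4 T 0x40000000000000000000000100000011000041000000001040804 := rS 0x7645312325363adc8ea31c89046b9138d62c3b0f0103a0106968ae7b0486c2e45689446e8739a242b0461905823f4b885cab54a8a918f0 (k8 c16608 c12761 c16632 c1694 c1388 c11030 c16620 c16347 (k8 c289 c12762 c4433 c9009 c16636 c4308 c4314 c4408 (k8 c4410 c1384 c4435 c4298 c4296 c4431 c4292 c84 (k8 c702 c16128 c4476 c16121 c16637 c758 c4461 c4466 (k8 c1641 c4471 c16638 c2312 c4361 c1297 c9120 c1114 (k8 c1467 c1643 c7094 c291 c16293 c15670 c2115 c2109 (k2 c4632 c1095 k0))))))) (by decide +kernel)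
def c16640 : PP 8 4 T 0x40000000000000000000000000000010000000000080000000404 := rS 0x489710b9518f0 (k4 c16608 c12761 c11030 c16620 (k2 c16347 c16286 (k1 c16311 k0))) (by decide +kernel)
def c16641 : PP 8 4 T 0x40000000000000000000000000000011000000020080100100820 := rS 0x5a83518f0 (k4 c16608 c12761 c16200 c7883 (k1 c16638 k0)) (by decide +kernel)
def c16642 : PP 8 4 T 0x40000000000000000000000100010011000040000000001000004 := rS 0x15b13181317e7984a28a6c51e04c2ed128a1d127b0d83c6e39120d42b041387808012d15c1221463c0142a (k8 c16632 c16640 c16608 c12761 c16620 c84 c16128 c4476 (k8 c16637 c4461 c575 c2312 c16636 c4308 c16641 c9120 (k8 c1114 c1384 c304 c4292 c702 c4314 c4410 c4435 (k8 c4298 c4431 c1638 c16639 c1783 c332 c2109 c12557 (k4 c605 c12619 c10063 c284 (k2 c4441 c2046 (k1 c11322 k0))))))) (by decide +kernel)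
def c16643 : PP 8 4 T 0x40000000000000000000000100000011000040000000001000004 := rS 0x642d15c120a15231e021 (k8 c16620 c16608 c12761 c16632 c16640 c84 c16128 c4476 (k2 c16642 c578 k0)) (by decide +kernel)
def c16644 : PP 8 4 T 0x100000000000040001000000000000000040140054080000041010042102000200 := rS 0x1306282678398cfd1fb0c8f165ca7e209520c352ee584acc4e235493d3a1e0eaec97455baf56a0d2f9c628371ca4518f01d8b4000b (k8 c308 c15523 c910 c15650 c16608 c12761 c129 c281 (k8 c1384 c4470 c4387 c576 c1367 c4389 c4354 c4353 (k8 c11725 c4434 c9034 c3049 c4466 c10547 c4297 c1503 (k8 c58 c115 c16243 c4436 c11030 c16347 c4383 c4433 (k8 c5073 c4478 c6233 c5280 c4481 c6900 c4362 c4356 (k8 c15634 c16556 c15641 c1519 c12229 c16617 c1998 c284 k0)))))) (by decide +kernel)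
def c16645 : PP 8 4 T 0x1200000000000040000000014000000000041140400080001000050002000014202 := rS 0x63131711764984defc19b95667b2289d764b5bad4d22f0697ce3141ca4518f0 (k8 c16608 c12761 c129 c281 c4470 c4387 c576 c1367 (k8 c4432 c756 c4389 c4353 c4434 c9034 c115 c4296 (k8 c1224 c16243 c11030 c4294 c15641 c8928 c12807 c4305 (k4 c15634 c8860 c15729 c7908 (k1 c16629 k0))))) (by decide +kernel)
def c16646 : PP 8 4 T 0x40000000000000000000000100000011000040000000000000004 := rS 0x3036931040e821cd823b55ab45a7f33a1c1a690a98cbe003896a29452b8793a65549246a39089ec7a1d598ac4808059e4d7090c0bc9e4528b952237463c00e21 (k8 c16620 c10598 c16608 c12761 c1384 c129 c11030 c4435 (k8 c4296 c4297 c4432 c16643 c4436 c1919 c1958 c308 (k8 c4462 c16286 c16640 c16243 c3049 c234 c1224 c2213 (k8 c281 c16382 c282 c1503 c16621 c10547 c4466 c16470 (k8 c11725 c4470 c4476 c4387 c15523 c576 c755 c15621 (k8 c756 c1367 c9141 c15652 c7517 c910 c4554 c14464 (k8 c15650 c14373 c13487 c16644 c16645 c12229 c1998 c641 (k2 c284 c9671 k0))))))))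 (by decide +kernel)
def c16647 : PP 8 4 T 0x102000000000040005000400000000000500104104181020000020040101001800 := rS 0x1121826c482d0e07d8ea35c8512a2f4bb94f61b078dd18f009994be71 (k8 c1303 c576 c578 c570 c16608 c12761 c1384 c304 (k8 c4292 c702 c11030 c16347 c4432 c5073 c4464 c4548 (k8 c1467 c1451 c16615 c4466 c2920 c1028 c764 c284 (k2 c16609 c4441 k0)))) (by decide +kernel)
def c16648 : PP 8 4 T 0x200002000000000100001100000000000000114501000020001000040000000802 := rS 0x63ae156ad5b8905a1c178cca2e54604c7e73 (k8 c4408 c399 c570 c12761 c11030 c4435 c4294 c4432 (k8 c567 c911 c1028 c3011 c4554 c14464 c15732 c16629 (k1 c11342 k0))) (by decide +kernel)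
def c16649 : PP 8 4 T 0x40000000000000000000000100000011000001020040001000004 := rS 0x52a9c4e25021b403043093192fc40a0cde852f844e2b5258bc2e5d58c65527b0d83c6e13069ad32693bb0d666372968ae8c608fc14092101c42f0 (k8 c16608 c16620 c10598 c16646 c236 c4462 c399 c12762 (k8 c12761 c16128 c4476 c11030 c12307 c663 c2055 c1886 (k8 c845 c1927 c581 c16121 c570 c1384 c304 c4292 (k8 c702 c1508 c4446 c1115 c1338 c4431 c4432 c4434 (k8 c7883 c1303 c16612 c576 c13580 c10992 c4570 c12056 (k8 c4463 c10573 c10080 c4302 c16647 c16648 c5028 c4461 (k4 c15534 c350 c4558 c10933 (k1 c8696 k0)))))))) (by decide +kernel)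
def c16650 : PP 8 4 T 0x40000000000000000000000100000011000001000040001000004 := rS 0x1453e9314c617e20d92110a41510958b0ed025f52a4e10858a1c577132489072ad339b534300209c5aa3008793ab9118746a876098d664b1785c66d128b961a5d5483c6e131f834ca6b4c9a4b4574622cf60a0481c421b78464ee42 (k8 c16646 c1886 c4446 c16608 c4292 c16620 c10598 c236 (k8 c4462 c702 c4632 c12761 c16128 c4476 c845 c1927 (k8 c581 c578 c16121 c399 c570 c1384 c304 c1508 (k8 c1338 c4383 c11030 c4435 c4298 c4294 c4431 c4432 (k8 c4434 c663 c12307 c12762 c10171 c16649 c1027 c1297 (k8 c7514 c10547 c4466 c567 c1467 c2359 c2312 c270 (k8 c276 c277 c5028 c13949 c4554 c1114 c4467 c7307 (k8 c4441 c9034 c7095 c4470 c10079 c4479 c15868 c1970 (k8 c576 c4439 c1101 c4471 c4418 c16183 c4314 c7030 (k8 c16182 c630 c4570 c4463 c12807 c11942 c10080 c4379 (k2 c15705 c16180 k0))))))))))) (by decide +kernel)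
def c16651 : PP 8 4 T 0x40000000000000000000000100000011000000000040001000004 := rS 0xfab32497cc2fc0009ce2110e08c72a33187d2673168f21a912ea5dca0f1b834140732968ae092108518f0 (k8 c16608 c12761 c16620 c16646 c236 c16128 c4476 c578 (k8 c10598 c4462 c16121 c1384 c304 c11030 c16347 c1338 (k8 c129 c4383 c16650 c329 c1614 c1654 c274 c843 (k8 c1468 c1113 c1298 c4466 c16611 c7095 c872 c758 (k4 c4463 c12807 c576 c7307 (k2 c2642 c4379 (k1 c16161 k0))))))) (by decide +kernel)
def c16652 : PP 8 4 T 0x40000000001100000001100000500410000000020004000001805 := rS 0x531844a111785c1e3710a30daf0 (k8 c16608 c5028 c12761 c16620 c1384 c304 c4431 c4432 (k4 c16612 c15534 c12807 c14495 (k1 c4558 k0))) (by decide +kernel)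
def c16653 : PP 8 4 T 0x40000000000000000000000100000011000000000000001000004 := rS 0xa120a6471208c6ac751ae56b164aa047a5f52c210a875b9c577131ca6860271d8783a0436804c62a459a4d60d1f84cf65a0515cee092586dca3703c6552991090918f0 (k8 c16608 c12761 c16646 c16620 c1927 c1508 c4446 c10598 (k8 c1384 c11030 c4292 c4434 c236 c1886 c16128 c4462 (k8 c4476 c702 c570 c399 c16121 c581 c845 c4632 (k8 c16651 c1606 c16637 c5028 c4461 c758 c575 c1641 (k8 c2312 c276 c277 c1114 c4441 c9034 c7095 c7094 (k8 c10041 c10079 c4479 c1970 c576 c11100 c4439 c1694 (k8 c4471 c1388 c4361 c1467 c291 c16652 c1297 c9120 (k4 c1643 c16293 c2113 c12557 (k1 c2216 k0))))))))) (by decide +kernel)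
def c16654 : PP 8 4 T 0x40000000000000000000000100000010000080000040002000804 := rS 0x288a62255863d3e985f8b32f92546ab568441b120018cd293138b4b4c10e08cf257079ecec1f0486c5e4128c35225d1ba5c42e5463c21265 (k8 c16621 c4436 c16608 c12761 c11030 c16620 c16347 c1384 (k8 c1338 c129 c4383 c4435 c4433 c4432 c4292 c84 (k8 c2201 c309 c702 c304 c16128 c1959 c1298 c4466 (k8 c1893 c4476 c2920 c872 c1030 c2723 c2722 c758 (k8 c15554 c16121 c16611 c4554 c14464 c11410 c7307 c2538 (k8 c2642 c4463 c12807 c4379 c16161 c2055 c763 c15813 (k2 c1096 c12747 (k1 c718 k0)))))))) (by decide +kernel)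
def c16655 : PP 8 4 T 0x2000000000000000000000000000000000000000000080000000102000200 := rS 0x3c053c0748a8c (k4 c12761 c4296 c3049 c237 (k2 c2189 c4466 (k1 c8961 k0))) (by decide +kernel)
def c16656 : PP 8 4 T 0x40000000000000000000000100000011000000000000000000004 := rS 0xa8b40a2b82430420388518f0 (k8 c16608 c12761 c16620 c10598 c16646 c16653 c16655 c16128 (k4 c4462 c4476 c16654 c15523 (k1 c16637 k0))) (by decide +kernel)
def c16657 : PP 8 4 T 0x40000000000000000000000000000000000000000000000000808 := rS 0x8118f0 (k4 c16608 c12761 c302 c16254 k0) (by decide +kernel)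
def c16658 : PP 8 4 T 0x200000000000010000000000000100000008 := rS 0x15cb606 (k4 c12975 c838 c2995 c4476 k0) (by decide +kernel)
def c16659 : PP 8 4 T 0x102000000000040000000000000000000040000054500001000000018000000000 := rS 0x6391e862d50441caf0 (k8 c16608 c11030 c4478 c15704 c4332 c4423 c1584 c408 (k1 c4473 k0)) (by decide +kernel)
def c16660 : PP 8 4 T 0x2000000000004010165545044040014144555555400000000000000000000000 := rS 0x856132e96ac459f62f43 (k8 c4394 c15634 c4379 c16543 c2120 c4458 c2027 c16374 (k2 c14106 c15810 k0)) (by decide +kernel)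
def c16661 : PP 8 4 T 0x2000002002000000000190060545044040014144145555400000000040000000000200 := rS 0x8a652b4989b3cc24ecbd8badd6a714624d9e4f (k8 c4297 c1519 c1126 c12761 c1385 c4389 c4353 c15634 (k8 c4354 c16660 c4438 c98 c1888 c15729 c13185 c413 (k2 c2120 c1752 k0))) (by decide +kernel)
def c16662 : PP 8 4 T 0x40000000000000000000000100000011000000000000001005000 := rS 0x186526546498794d424d06b892ad5e9f5031458c61f45d70738228c92c97e204c26f22c3562112eaccce653d9b4c6294394512171eaec96a9131c4beb75ac514a371290c103503968ae014e8cc721f189fc2a971582c3a2001231caf0 (k8 c16608 c11030 c12761 c16656 c16658 c85 c16657 c226 (k8 c11617 c14481 c7517 c228 c223 c1113 c4294 c966 (k8 c28 c799 c4476 c494 c16325 c12637 c236 c2142 (k8 c1383 c11724 c4470 c4389 c4353 c9867 c1385 c9120 (k8 c974 c4434 c9034 c234 c4431 c7030 c4435 c9141 (k8 c2834 c11648 c958 c704 c16476 c919 c5025 c1338 (k8 c343 c1115 c4383 c4296 c10965 c879 c12056 c4463 (k8 c7308 c15792 c935 c16659 c4408 c15643 c15634 c7514 (k8 c13269 c400 c1248 c409 c1391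 c982 c1741 c11751 (k8 c4442 c16661 c4437 c844 c1961 c15729 c4448 c413 (k2 c412 c3933 (k1 c11827 k0)))))))))))) (by decide +kernel)
def c16663 : PP 8 4 T 0x2000000000000000040000000054000001554000000000000140000000000 := rS 0xab568bca2e5 (k4 c11030 c4435 c4432 c4554 (k2 c14464 c2120 k0)) (by decide +kernel)
def c16664 : PP 8 4 T 0x2000000000000805040100000054000001554000001405550008000000000 := rS 0x56aad40c666ae5a2e5 (k8 c11030 c4298 c7514 c7983 c2113 c409 c1741 c901 (k1 c2120 k0)) (by decide +kernel)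
def c16665 : PP 8 4 T 0x40000000000000000000000100010081000000100000201018008 := rS 0xa12e142c256335569f62a507d111611c767d39c11166957a66326b519dd7c49302149afd22c34ce7b3698c528728a242a971585dca3d548996eb58a2946e25218206a070082c3a8c4e8cde031 (k8 c228 c16608 c4294 c966 c12761 c85 c16657 c28 (k8 c494 c16325 c12637 c236 c2142 c1383 c11724 c4470 (k8 c4389 c4353 c9120 c974 c234 c11030 c4431 c226 (k8 c11617 c14481 c7030 c4435 c9141 c2834 c11648 c958 (k8 c704 c919 c4383 c4296 c4376 c244 c1496 c11620 (k8 c242 c15612 c12428 c2940 c621 c4369 c1134 c9441 (k8 c845 c4632 c15749 c4408 c4409 c1061 c1331 c16663 (k8 c4332 c16664 c401 c1248 c1698 c1701 c1486 c2120 (k4 c861 c901 c1215 c4489 (k1 c4394 k0)))))))))) (by decide +kernel)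
def c16666 : PP 8 4 T 0x102000000000040000000000000000000000000050501001000000018000100000 := rS 0x3185a7e8818dcaf0 (k8 c16608 c11030 c11648 c4478 c16659 c4332 c12366 c408 k0) (by decide +kernel)
def c16667 : PP 8 4 T 0x40000000000000000000000100000011000000000000001000000 := rS 0x18eb8399fe084964bf018613783e1ab108974ce154b8a4cae5158f44c712fadd6b141b894103503968ae010587440390f80918f0 (k8 c16608 c12761 c16656 c223 c1113 c16658 c85 c16657 (k8 c28 c799 c4476 c494 c16325 c12637 c2142 c1383 (k8 c4470 c4389 c4353 c9867 c1385 c9120 c234 c226 (k8 c11030 c16476 c2834 c11617 c14481 c919 c1338 c343 (k8 c1115 c4383 c16665 c10965 c879 c16662 c15573 c7308 (k4 c15792 c16666 c4313 c4408 (k2 c15732 c1447 (k1 c13269 k0)))))))) (by decide +kernel)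
def c16668 : PP 8 4 T 0x40000000000000000000000100000011000040000000000004000 := rS 0x135183430d56af293293ea0163187d1762ae0e67f66c11464964bf09881309be1ab1089756667329ecda6314a1ca2890aa5c5617728f5764b54898e25f5baf56b14849ad4a37128206a072d15c020b0ea7466390f8c4408c78008f218 (k8 c16667 c1958 c16656 c16608 c12761 c16658 c11577 c223 (k8 c1113 c4294 c966 c85 c16657 c28 c799 c4476 (k8 c494 c16325 c12637 c2142 c1383 c11724 c1918 c4436 (k8 c4470 c4389 c4354 c4353 c9867 c1385 c9120 c974 (k8 c4434 c9034 c234 c11030 c4431 c226 c11617 c14481 (k8 c7030 c4435 c9141 c2834 c11648 c958 c704 c16476 (k8 c919 c5025 c1338 c343 c1115 c4383 c10965 c879 (k8 c12056 c15729 c15573 c7308 c15792 c935 c16666 c2063 (k8 c4313 c4408 c15732 c1255 c15634 c7514 c13269 c400 (k8 c409 c1391 c413 c412 c982 c1741 c2028 c16661 (k2 c11827 c844 (k1 c4448 k0)))))))))))) (by decide +kernel)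
def c16669 : PP 8 4 T 0x40000000000000000000000100000011000040000000000000000 := rS 0x2248b34930ee8242924c0fd071e68a4f86844bab3339ecda33318a50e154b8adca518a0dc4a081a81cb4570082c3a390f8c4408c7800a1218 (k8 c16667 c4436 c16656 c16608 c12761 c16658 c11577 c223 (k8 c1113 c85 c16657 c28 c799 c4476 c494 c16325 (k8 c12637 c2142 c1383 c4470 c4435 c11030 c226 c11617 (k8 c14481 c9141 c2834 c11648 c4294 c958 c704 c919 (k8 c5025 c1338 c343 c4383 c4297 c11725 c1958 c16668 (k8 c4376 c11620 c242 c1495 c12229 c12428 c1998 c2001 (k2 c15654 c10553 (k1 c16475 k0)))))))) (by decide +kernel)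
def c16670 : PP 8 4 T 0x40000000000000000000000100000011000000000000000000000 := rS 0x98c65f91c1c607eb2c9316518ed72c13e9ccff111fab2082c55a955e6942a2e24778c908d6310c2d56e718a17c4c37128f51287319ecca351481c10152d25cae9d0e88016391599cda1f008082e3328b9518f0 (k8 c16608 c12761 c11030 c4435 c4294 c4431 c16656 c28 (k8 c223 c958 c919 c226 c1113 c16657 c16658 c85 (k8 c966 c799 c11617 c4476 c14481 c12637 c494 c2834 (k8 c16325 c16476 c704 c11648 c9141 c7030 c234 c2142 (k8 c1383 c9120 c9867 c4470 c1385 c4353 c4389 c16667 (k8 c11577 c1918 c16669 c4446 c1887 c11721 c4632 c13580 (k8 c845 c4346 c4444 c4445 c16663 c15749 c2120 c15821 (k8 c4332 c4313 c4408 c4409 c1987 c7514 c11556 c1467 (k8 c4471 c369 c2027 c15634 c15573 c879 c1331 c16664 (k2 c2113 c12426 (k1 c413 k0))))))))))) (by decide +kernel)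
def c16671 : PP 8 4 T 0x40000000000000000000000000000012000000000000000000804 := rS 0x7e7e1f1426124834225f4f98cce272d001462b2387046292b8158e3c0f9c81e0986a44ba15328b46e9710b9518f0 (k8 c16608 c12761 c11030 c16620 c16347 c1384 c246 c1647 (k8 c141 c1338 c129 c4383 c84 c304 c307 c2200 (k8 c306 c2250 c12210 c16128 c3558 c1298 c4466 c8078 (k8 c15540 c15546 c4461 c4476 c872 c15599 c2722 c11776 (k8 c2538 c607 c16121 c7307 c12807 c4212 c9172 c4463 (k2 c15807 c154 k0)))))) (by decide +kernel)
def c16672 : PP 8 4 T 0x40000000000000000000000100000010000000000000000000004 := rS 0x14abc62634d44d2ac4219acb51660b0d3a002b9ec7a1d49aac0a111a8205624058ec0e2d1085c824568945ca8c7814c7e54 (k8 c16670 c8954 c9029 c16608 c12761 c11030 c4435 c4298 (k8 c4296 c4433 c4431 c16620 c246 c10598 c1601 c16671 (k8 c16286 c16640 c4462 c16382 c2212 c266 c14464 c9125 (k8 c3049 c235 c1224 c16470 c4461 c10547 c15480 c12762 (k8 c4471 c4476 c492 c10488 c2115 c4418 c12640 c7718 (k4 c842 c1966 c868 c1598 (k1 c11345 k0))))))) (by decide +kernel)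
def c16673 : PP 8 4 T 0x10000016000800000000000000008 := rS 0xfd309f01e13 (k4 c34 c1332 c1602 c879 (k2 c4379 c15573 k0)) (by decide +kernel)
def c16674 : PP 8 4 T 0x40000000000000000000000100000010000000000000000000000 := rS 0x848b4d618241088e7163c50beb551adc4c378b2e476251e8d40e082d15c622b4e8747220059b43e01010fc265419b9518f0 (k8 c16608 c12761 c11030 c4294 c16670 c34 c8954 c16672 (k8 c28 c223 c958 c16657 c16658 c1113 c85 c966 (k8 c16312 c11577 c799 c4476 c12637 c494 c16325 c235 (k8 c2142 c1062 c7514 c4471 c1383 c9120 c7094 c1467 (k8 c4419 c9867 c4470 c2170 c1385 c16673 c15698 c2113 (k4 c236 c7466 c369 c4436 (k1 c11888 k0))))))) (by decide +kernel)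
def c16675 : PP 8 4 T 0x40000000000000040000010010004090000001000040021015000 := rS 0xa65744d8a79a2a109ac64fa76206560b0d4a4955a8c469556a6d32931f8904e2d0f86c5e1727904665172c35225d4645cce5f5b9fce88125bc0c2fc (k8 c4463 c4302 c16608 c4434 c12056 c16674 c594 c1745 (k8 c576 c593 c4417 c12761 c1338 c129 c4383 c11030 (k8 c4435 c4294 c4433 c4297 c4431 c4432 c4292 c56 (k8 c2920 c872 c1028 c3192 c1030 c1031 c764 c4809 (k8 c763 c1298 c11410 c14464 c7307 c7886 c9009 c12762 (k8 c7044 c4487 c1237 c4414 c9121 c15797 c10080 c4397 (k4 c602 c1785 c15710 c15686 (k2 c15817 c15521 k0)))))))) (by decide +kernel)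
def c16676 : PP 8 4 T 0x40000000000000000000000000000010000001020040101001800 := rS 0x9588a4d3c651f28c26c70209c5a1e0e9762e674bb94c67d5a97cb4573f9c4e86f04985f811078dd18f0 (k8 c16608 c12761 c1384 c304 c16612 c4463 c4302 c84 (k8 c10992 c16674 c1303 c594 c16128 c4476 c576 c7883 (k8 c1690 c1689 c11030 c16347 c593 c4417 c1338 c16675 (k8 c4466 c2359 c2312 c270 c7786 c2551 c4241 c11468 (k4 c7854 c4259 c3132 c4414 (k2 c1698 c4487 k0)))))) (by decide +kernel)
def c16677 : PP 8 4 T 0x1000000000000000000040000000200000000000001000080000000000 := rS 0xec7f17 (k4 c4417 c289 c3578 c4471 k0) (by decide +kernel)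
def c16678 : PP 8 4 T 0x100000000000040000000000000000040410001555500001040052004001005000 := rS 0xa642a1c9913208cdca9d0eaec9745548909ebd8a0e4222364c3518f0 (k8 c16608 c12761 c4383 c7308 c1297 c7312 c1114 c4470 (k8 c4354 c4297 c4467 c1503 c11725 c4434 c9034 c1027 (k8 c10547 c11030 c4294 c4433 c4441 c16203 c10041 c10079 (k2 c11942 c16180 k0)))) (by decide +kernel)
def c16679 : PP 8 4 T 0x2000000000000000040000000000000000000004011000500010040010000001015000 := rS 0x845f43518f0 (k4 c16608 c12761 c4383 c15612 (k2 c10080 c15658 k0)) (by decide +kernel)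
def c16680 : PP 8 4 T 0x100000000000040000000000000000040004001011014001040010004101005000 := rS 0x1ac60a6261a4de8308bf0ba674bb94c6248688d764b2f9c4b4bd3ead628391ba31e074 (k8 c16674 c16608 c12761 c1384 c1114 c4470 c4389 c1690 (k8 c4354 c4476 c7095 c576 c4434 c9034 c1297 c4383 (k8 c4467 c1689 c11030 c16347 c593 c1338 c15573 c7312 (k8 c4306 c4378 c11291 c16679 c9728 c284 c2009 c16678 k0)))) (by decide +kernel)
def c16681 : PP 8 4 T 0x2000000002000000000200040000000000000000001514000001040152002000200020 := rS 0x19a875f9313713209153a1d462a49ebd (k8 c4354 c4297 c1503 c12761 c1027 c10547 c4296 c4433 (k4 c4441 c1966 c16203 c4566 (k2 c10041 c2063 (k1 c16163 k0)))) (by decide +kernel)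
def c16682 : PP 8 4 T 0x100000000000040000800000001000041000201554000001000000002000000000 := rS 0x1128757b0cef0d462a49ef0 (k8 c16608 c4297 c1503 c12761 c4383 c1094 c12326 c9441 (k2 c1693 c597 (k1 c15749 k0))) (by decide +kernel)
def c16683 : PP 8 4 T 0x40000000014000000000040201516000001040010004101200020 := rS 0x220f2a18c32537134c8c14c4c5f90566738b99d2ee54e875764b548921a2327af628391ba320a8b0dbc1fa85 (k8 c2693 c4302 c16608 c4292 c718 c4308 c12761 c1384 (k8 c1114 c4470 c4354 c4297 c1297 c4383 c4467 c1503 (k8 c4434 c9034 c1027 c10547 c11030 c16347 c593 c4417 (k8 c96 c153 c4433 c16682 c10063 c9728 c284 c2010 (k8 c4441 c1966 c16681 c4488 c5930 c4447 c16626 c7172 k0))))) (by decide +kernel)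
def c16684 : PP 8 4 T 0x2000000000000100000000000001000000202080000040110002081000000 := rS 0x4d5fa9862762593c8245 (k8 c4296 c4433 c4297 c4434 c845 c1878 c884 c1094 (k2 c284 c15771 k0)) (by decide +kernel)
def c16685 : PP 8 4 T 0x40000000000000000000000000000010000041000000100001800 := rS 0x17e4d521a8d2853022e0a145e9fcca3e8a1c42649120e556ad368104e2d008793a230e8d4322f28c34f61b078dcb4632b8245697461d1caf0 (k8 c16608 c11030 c16674 c12761 c16347 c16677 c84 c16128 (k8 c1689 c4476 c1384 c304 c4292 c702 c4383 c4435 (k8 c4432 c308 c16676 c1027 c1297 c10547 c4466 c567 (k8 c2359 c2312 c270 c5028 c4554 c14464 c1114 c4467 (k8 c7307 c2551 c7095 c4470 c11468 c7854 c594 c4354 (k8 c398 c4308 c718 c16680 c2693 c16684 c16683 c621 (k2 c1935 c1404 (k1 c15612 k0)))))))) (by decide +kernel)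
def c16686 : PP 8 4 T 0x10000000002000000000004000000000140000000200000080000001000000102000800 := rS 0xab4aab583124db15262d348707e760f8005e5139c5cce5704a3056e5 (k8 c11030 c16677 c12761 c84 c16128 c593 c4417 c96 (k8 c4435 c4432 c15523 c2201 c309 c2366 c567 c756 (k8 c910 c11351 c1095 c1888 c4679 c12762 c4809 c763 (k2 c14464 c15710 k0)))) (by decide +kernel)
def c16687 : PP 8 4 T 0x40000000000000000000000000000010000001000000100001800 := rS 0x15c651f44c26ab569b46004168043c9d34874ee350ca24d6c34cc64842b17944ce9772968c65704a31e074 (k8 c16674 c16608 c12761 c84 c16128 c1689 c4476 c11030 (k8 c16347 c593 c4435 c4432 c16677 c16685 c4446 c1927 (k8 c2055 c581 c597 c16686 c16676 c1886 c1027 c845 (k8 c10547 c4466 c567 c2359 c270 c276 c5028 c4554 (k4 c14464 c2551 c4441 c11468 (k2 c7854 c12794 (k1 c13327 k0))))))) (by decide +kernel)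
def c16688 : PP 8 4 T 0x40040000000000000000000000000001400400000000001155000 := rS 0x66d1508cb24325024b3e9fe968a68a1ca21b4485dcaf0 (k8 c16608 c11030 c4431 c7030 c4292 c4435 c9141 c4298 (k8 c2109 c4427 c12366 c7516 c4434 c12056 c10573 c2107 (k4 c1752 c15785 c4397 c1481 (k1 c4573 k0)))) (by decide +kernel)
def c16689 : PP 8 4 T 0x40000000000000000000000000000011000040000000100041800 := rS 0x1a17a6d1cc4c4914118104e71300d43c852fbf4206b45424a61968c34ba7b0d83cb457048fc8ec71ba310e514485478b33a05dcaf0 (k8 c16608 c11030 c4431 c16674 c153 c16687 c327 c7030 (k8 c4435 c9141 c12761 c1384 c330 c8078 c145 c84 (k8 c16128 c4476 c304 c4292 c702 c1338 c4383 c4298 (k8 c308 c332 c12557 c2109 c2561 c16688 c4300 c2553 (k8 c710 c16611 c16612 c4477 c1385 c2312 c270 c1297 (k8 c15635 c615 c12592 c359 c694 c4354 c4479 c16684 k0)))))) (by decide +kernel)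
def c16690 : PP 8 4 T 0x40040140100000000000004014000001000082000000001155000 := rS 0x30d0a523ba242f194092e86cf24324fa7f7291da2f0 (k8 c16608 c4298 c8078 c11030 c12366 c7516 c10573 c2107 (k8 c1790 c4421 c4434 c12056 c4446 c4431 c7030 c1886 (k4 c16688 c13580 c15810 c333 k0))) (by decide +kernel)
def c16691 : PP 8 4 T 0x40000000000000000000000000000011000000020000100041800 := rS 0x2415870001824324de1138aec96b13d86c1e5a2b824fa473fb1dca151e2cce8bd210dd18f0 (k8 c16608 c12761 c1384 c16689 c2015 c16674 c153 c16687 (k8 c327 c11030 c330 c12366 c8078 c7516 c84 c16128 (k8 c4476 c304 c4292 c702 c1115 c4434 c1309 c1303 (k8 c16612 c10992 c10573 c2107 c16690 c15523 c567 c16637 (k2 c1028 c282 k0))))) (by decide +kernel)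
def c16692 : PP 8 4 T 0x40000000000000000000000000000011000000000000000000804 := rS 0x114190f0746a42438558a131e034b4573d82436d128b9518f0599d00e21 (k8 c16620 c10598 c16674 c153 c16608 c12761 c11030 c4435 (k8 c4298 c4292 c84 c702 c16128 c4476 c16121 c16687 (k8 c1679 c1782 c327 c9141 c16689 c16691 c1027 c4466 (k2 c2201 c11100 (k1 c10021 k0))))) (by decide +kernel)
def c16693 : PP 8 4 T 0x2000200000000000040000000014040000000014001054500001040010002001014002 := rS 0x2851713638c14c4c19b944671069acd22f4185d926113c3518f0 (k8 c16608 c12761 c4383 c115 c12807 c7308 c4431 c4570 (k8 c4432 c756 c492 c1367 c4387 c58 c11030 c4294 (k8 c16679 c9728 c284 c16629 c4441 c15538 c4212 c12947 k0))) (by decide +kernel)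
def c16694 : PP 8 4 T 0x2000000002000000000000040000000000000000006001000000000040004400000200 := rS 0x98a73cc261a7b22a743a8c (k8 c12761 c3049 c10547 c4296 c1224 c4383 c4318 c601 (k2 c904 c15729 (k1 c9728 k0))) (by decide +kernel)
def c16695 : PP 8 4 T 0x40000000014040000000000000014014001000010002101004202 := rS 0x8a18414986d37984ba674bb944e2308aec967d5a9d01a5f38c5072911b90cf6452d07518f0 (k8 c16608 c12761 c3049 c4476 c4296 c1224 c15624 c1384 (k8 c129 c281 c4470 c4387 c576 c1367 c16674 c4389 (k8 c1690 c4434 c9034 c2211 c58 c115 c11030 c16347 (k8 c593 c1338 c12807 c8928 c16694 c16679 c16693 c284 (k2 c16680 c15538 k0))))) (by decide +kernel)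
def c16696 : PP 8 4 T 0x40000000000000000000000000000011000000000000001000004 := rS 0x4dc4cd85345abd87195f1dc9a0e20c362ea35493c92874485cc6155d92d3abd8a0e52237628f87a65219ec8a5a0e9a55a2f558b400052b8d422240401cce9710a30e82b05b94a2f0 (k8 c16608 c4435 c11030 c16692 c16640 c16674 c12761 c16620 (k8 c16347 c593 c10598 c4462 c16286 c2211 c16382 c16470 (k8 c263 c4461 c910 c14464 c4432 c4554 c756 c3049 (k8 c4476 c4296 c1224 c15624 c491 c234 c11627 c1248 (k8 c1384 c129 c281 c4470 c4354 c10547 c4434 c9034 (k8 c590 c12253 c4431 c7030 c9141 c282 c4297 c1503 (k8 c1464 c4417 c4383 c4433 c16695 c244 c15788 c15612 (k8 c4369 c12326 c9441 c7804 c11827 c8142 c15796 c865 (k1 c4566 k0))))))))) (by decide +kernel)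
def c16697 : PP 8 4 T 0x40000000000000000000001000000000000000050002002004202 := rS 0x624c369bcc22711844f6455d92e283948a31e109 (k8 c4436 c16608 c12761 c129 c281 c4470 c4434 c9034 (k8 c4296 c1224 c2211 c58 c115 c12807 c8928 c16694 (k2 c15729 c9671 (k1 c284 k0)))) (by decide +kernel)
def c16698 : PP 8 4 T 0x40000000000000000000000000000011000000000000000000004 := rS 0x181b49882071e61218a290c00052d15e287b0eaa422351c820480b038dc424f22a4518f0 (k8 c16608 c12761 c129 c4296 c4297 c16620 c1384 c10598 (k8 c16692 c16286 c4462 c281 c16382 c2211 c1503 c3049 (k8 c1224 c4470 c16470 c4476 c263 c4461 c15624 c11725 (k8 c16696 c4436 c1958 c16697 c12229 c1998 c641 c284 (k1 c9671 k0))))) (by decide +kernel)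
def c16699 : PP 8 4 T 0x40000000000000000000000000000011000040000000001004000 := rS 0x136688c22d8652651301aab35b199312309be1b170897462870a944f66d1328d2665159258a455d92d5e333897d7a7f888b0ce634fad62837128d40e010e8e43e941f0f4105a2bb94e80b1000918f0 (k8 c16608 c12761 c16698 c16658 c16657 c16674 c11030 c799 (k8 c4476 c12637 c234 c11627 c401 c223 c1113 c85 (k8 c28 c494 c16325 c2142 c1383 c4470 c4389 c1698 (k8 c1689 c919 c400 c4332 c6629 c4354 c9867 c1385 (k8 c4294 c982 c4434 c9034 c4296 c1248 c2333 c226 (k8 c16476 c1656 c1468 c9120 c958 c704 c4435 c590 (k8 c9141 c11577 c1338 c343 c4417 c4383 c10965 c879 (k8 c11751 c7308 c16480 c4442 c4445 c1447 c16679 c413 (k4 c412 c2028 c1752 c11827 (k2 c11067 c4448 (k1 c844 k0))))))))))) (by decide +kernel)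
def c16700 : PP 8 4 T 0x40000000000000000000000000000011000040000000001000000 := rS 0x18cce5c309568b34a66326b3baf8c08526bf41c4f86844ba870a944c665159ecda9424b148b14548995e2c1f0f5ca74528dc4a081a81cb4570082c3a9d198e43e3110231e002 (k8 c16698 c16608 c12761 c16658 c11577 c223 c1113 c4294 (k8 c966 c85 c16657 c28 c799 c4476 c494 c16325 (k8 c12637 c2142 c1383 c11724 c16674 c11030 c234 c11627 (k8 c400 c982 c9120 c974 c4470 c4296 c1248 c2333 (k8 c401 c958 c704 c226 c16476 c1689 c4435 c590 (k8 c9141 c1338 c343 c4383 c4297 c16699 c4376 c244 (k8 c1496 c11620 c15612 c12428 c621 c4369 c1134 c845 (k4 c7804 c1701 c11067 c1215 (k2 c1216 c13269 (k1 c1519 k0)))))))))) (by decide +kernel)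
def c16701 : PP 8 4 T 0x40000000000000000000000000000011000040000000000004000 := rS 0x136688c22d8652652ad8cc926448c26f86c5c225d33a1c2a51319ecda2651a4cca2b24b148abb25abc58333897d7a9f5ac506e251a81c021d1c87d283e1e820b457729d017093c9ac303110231e002 (k8 c16698 c16608 c12761 c16658 c11577 c16700 c1918 c1958 (k8 c4436 c16657 c16674 c11030 c799 c4476 c12637 c234 (k8 c11627 c401 c223 c1113 c85 c28 c494 c16325 (k8 c2142 c1383 c4470 c4389 c1698 c4354 c9867 c1385 (k8 c4294 c400 c982 c4434 c9034 c4296 c1248 c2333 (k8 c226 c16476 c1656 c1468 c9120 c958 c704 c1689 (k8 c4435 c590 c9141 c919 c1338 c343 c4417 c4383 (k8 c10965 c879 c11751 c15729 c7308 c16480 c4445 c413 (k4 c412 c2028 c1752 c11827 (k2 c11067 c4448 (k1 c844 k0))))))))))) (by decide +kernel)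
def c16702 : PP 8 4 T 0x40000000000000000000000000000011000040000000000000000 := rS 0x562ad169934930ee8242bf41c6b3cc243145279b4225d338c50e51448542e63328ad28498a0dc4a35038043a390fabc583e1e820b457729d016200123066f0 (k8 c16608 c4294 c12761 c16698 c16658 c16657 c16674 c11030 (k8 c799 c4476 c12637 c234 c11627 c400 c982 c223 (k8 c1113 c85 c28 c494 c16325 c2142 c1383 c4470 (k8 c2333 c401 c226 c16476 c1689 c4431 c590 c7030 (k8 c4435 c9141 c11577 c919 c1338 c343 c958 c4297 (k8 c11725 c16700 c4436 c1958 c1918 c16701 c4376 c1495 (k8 c12229 c12428 c1998 c2001 c8246 c15654 c1701 c2120 (k1 c10572 k0)))))))) (by decide +kernel)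
def c16703 : PP 8 4 T 0x40000000000000000000000000000011000000000000000000000 := rS 0x551ae24421e9ecca0831969125718a742a20058acce6d0f8082e3372a31e074 (k8 c16674 c16608 c12761 c11030 c4294 c4431 c16698 c223 (k8 c958 c919 c226 c16657 c16658 c590 c966 c11577 (k8 c799 c7030 c4476 c1689 c12637 c16476 c704 c234 (k4 c16702 c11721 c7466 c16505 (k1 c4445 k0))))) (by decide +kernel)
def c16704 : PP 8 4 T 0x40000000000000000000000000000010000000000000000000000 := rS 0x14324a819aa665a968a261b8d55d4b219b44a5a2b8c40401100e626ab56a743ec7158b5461d0382c8e3c498a4105309950e674178cda25172c3518f0 (k8 c16608 c12761 c4383 c11030 c4435 c4298 c4294 c4432 (k8 c16674 c96 c16703 c34 c9029 c1687 c3616 c3595 (k8 c1686 c3617 c307 c498 c3049 c1468 c2148 c15541 (k8 c2149 c274 c10547 c4554 c14464 c15575 c1113 c4466 (k8 c9668 c12555 c11577 c799 c231 c2142 c5028 c11721 (k8 c15673 c11345 c16325 c1383 c9120 c11725 c11724 c8140 (k4 c4568 c5541 c908 c4573 (k2 c4423 c4473 k0)))))))) (by decide +kernel)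
def c16705 : PP 8 4 T 0x40000000000000000000000100004000001001020000000000800 := rS 0xb9598fd6ab78a1bc1e5b0195c12b1308e4e2c96384dca7f081ccfa5e130943a078688c408f463c00858 (k8 c16704 c534 c16608 c12761 c100 c535 c832 c4383 (k8 c83 c1025 c1370 c4467 c351 c1380 c1110 c350 (k8 c671 c11030 c2496 c2375 c11341 c537 c359 c2599 (k8 c1116 c84 c63 c303 c93 c6403 c16460 c7962 (k4 c4353 c7883 c2367 c663 (k2 c11342 c2121 k0)))))) (by decide +kernel)
def c16706 : PP 8 4 T 0x40000000000000000000000000004000001042000108000000800 := rS 0x13100cf41a9cee695fb2e26794fab9369355ab4962f27b44a26d3d87d3a191897952334286e28103783cb6032b824462086ac4c23938a3d182b518ee2e290e81ca6cd50d088ee57831c0858 (k8 c16704 c534 c2375 c16608 c11030 c8078 c4473 c4423 (k8 c4395 c332 c83 c1025 c1681 c4416 c89 c935 (k8 c354 c12761 c100 c537 c359 c2599 c1116 c4383 (k8 c535 c832 c84 c63 c303 c93 c6403 c16460 (k8 c350 c7962 c4292 c710 c4294 c974 c351 c316 (k8 c16590 c966 c271 c702 c4993 c4435 c4298 c4297 (k8 c4432 c4434 c4554 c14464 c11351 c15614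 c15753 c11776 (k8 c541 c4346 c8140 c9441 c828 c7751 c908 c549 (k4 c15801 c15717 c2116 c1894 k0))))))))) (by decide +kernel)
def c16707 : PP 8 4 T 0x40000000000000000000000100004000001040020000000000800 := rS 0x583c020984a1d03c3446202c23d18f0 (k8 c16608 c12761 c100 c16704 c535 c832 c4383 c83 (k4 c1025 c1370 c4467 c534 (k2 c16705 c16706 (k1 c2282 k0)))) (by decide +kernel)
def c16708 : PP 8 4 T 0x100000000000040100000000000000000040100010000000001000148000200800 := rS 0x888a53c953e2ccbcb78a040086f0780cae09118821ab1308e4e28f461cd26e57807cb658 (k8 c16704 c93 c271 c16608 c11030 c11351 c1109 c12761 (k8 c100 c537 c359 c2599 c1116 c4383 c535 c832 (k8 c84 c63 c303 c6403 c16460 c534 c350 c7962 (k8 c4353 c351 c663 c5124 c15665 c1379 c834 c4414 (k1 c4468 k0))))) (by decide +kernel)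
def c16709 : PP 8 4 T 0x40000000000000000000000100000000001040020000000000800 := rS 0x13100cf41a9d42cd5fb2e26773cd093eae5914c529b23c5c763c49aad5a1416c14ca623fb25462b258bc9ed128b94da133d87d3a192a8c58e5e548cd0a1b8a0404c250e81c086f0796c06570488c410d5898472712c23d18f0 (k8 c16608 c12761 c100 c16704 c537 c359 c2599 c1116 (k8 c4383 c535 c832 c84 c63 c303 c93 c6403 (k8 c16460 c534 c83 c1025 c1370 c4467 c350 c7962 (k8 c4292 c710 c4294 c974 c351 c2375 c316 c12210 (k8 c16590 c966 c271 c702 c2496 c4993 c11030 c4435 (k8 c4298 c4297 c4432 c4434 c354 c935 c11341 c671 (k8 c16707 c67 c4407 c814 c12253 c4554 c14464 c11351 (k8 c16708 c89 c4416 c8078 c15614 c1681 c332 c10368 (k8 c15753 c11776 c4473 c541 c15780 c4346 c8140 c9441 (k8 c4395 c4423 c908 c549 c15801 c15717 c2116 c1894 k0)))))))))) (by decide +kernel)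
def c16710 : PP 8 4 T 0x1000000000000400000002000000000000004011140000000000000000000002045000000000000000 := rS 0xa6c566a9a1a8ca18ed9ed1 (k8 c4298 c1790 c1722 c4421 c12761 c4383 c4490 c5541 (k2 c14452 c373 (k1 c11242 k0))) (by decide +kernel)
def c16711 : PP 8 4 T 0x40000000000000000000000100000000022041000048000000800 := rS 0xeebf65a0cf2524c9ad5f1252a068ad13d864bca919a1436b73e95546ab28d2d5a2f188a4e6930face0ab91fb1e28101c9c562c932b945a0409974de0f2d98406570488c405847c3518f0 (k8 c16608 c12761 c4383 c100 c16704 c535 c832 c84 (k8 c63 c303 c2599 c93 c6403 c16460 c1337 c2496 (k8 c534 c2330 c11030 c7854 c7308 c1116 c537 c359 (k8 c350 c7962 c2375 c2367 c11342 c15643 c663 c271 (k8 c11351 c1109 c1721 c316 c4432 c4554 c15673 c4435 (k8 c14464 c934 c12210 c1622 c4353 c4292 c710 c4294 (k8 c974 c351 c16590 c702 c4298 c4451 c1894 c1934 (k8 c16710 c4346 c4442 c4443 c2112 c540 c548 c2023 (k2 c15846 c1111 (k1 c15717 k0)))))))))) (by decide +kernel)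
def c16712 : PP 8 4 T 0x40000000000000000000000100000000002041000048000000800 := rS 0x137134cc655cc4299352b16619053a331f8c476b78a040de0f0195c12231043562611c9c51e8c568bd565149b95e02d0207cb658 (k8 c16704 c93 c271 c534 c2330 c16608 c11030 c11351 (k8 c4435 c14464 c4432 c4554 c12761 c100 c537 c359 (k8 c2599 c1116 c4383 c535 c832 c84 c63 c303 (k8 c6403 c16460 c350 c7962 c4353 c1722 c316 c2367 (k8 c4294 c966 c4433 c9009 c4471 c4418 c16711 c372 (k4 c11242 c4542 c15670 c1135 (k2 c4346 c868 (k1 c4488 k0)))))))) (by decide +kernel)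
def c16713 : PP 8 4 T 0x400000000000000040000400000000000000401000100000000000000000000020800 := rS 0x1ae12803b9b4f65d4286e286f0796c06570488c410d5898472712c23d18f0 (k8 c16608 c12761 c100 c16704 c537 c359 c2599 c1116 (k8 c4383 c535 c832 c84 c63 c303 c93 c6403 (k8 c16460 c7962 c4292 c710 c1337 c702 c4993 c7751 (k4 c15717 c4439 c1923 c4479 k0)))) (by decide +kernel)
def c16714 : PP 8 4 T 0x40000000000000000000000100000000000040020000000000800 := rS 0x5114623420d4ebf899e55c9b8b8f126ab568ad2ecf1d8b4901b17b44a2e50fa74aa312f2a466b78a0404c250e81c086f0796c06570488c410d5898472712c23d18f0 (k8 c16608 c12761 c100 c16704 c537 c359 c2599 c1116 (k8 c4383 c535 c832 c84 c63 c303 c93 c6403 (k8 c16460 c534 c83 c1025 c1370 c4467 c350 c7962 (k8 c4353 c4294 c974 c351 c316 c12210 c966 c271 (k8 c11030 c4435 c4298 c4432 c4292 c16709 c2330 c1722 (k8 c1790 c926 c16281 c4554 c14464 c11351 c16712 c4416 (k8 c15614 c15753 c541 c4346 c9441 c909 c549 c16713 (k4 c828 c829 c12253 c718 k0)))))))) (by decide +kernel)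
def c16715 : PP 8 4 T 0x40000000000000000000000200000000000000000000000000800 := rS 0x2d1599128e57804c3e5b1f8104058 (k8 c16704 c535 c534 c2367 c93 c271 c2496 c16608 (k4 c11030 c539 c538 c1695 (k2 c855 c7854 k0))) (by decide +kernel)
def c16716 : PP 8 4 T 0x40000010000000000000000000000000001001001104000000800 := rS 0xcc14a2d8c950a50e2c7ea2ad4fa8423bf09a360889036710686562551f810eab339add261f6499456e509974de0f2d98406570488c405847c3518f0 (k8 c16608 c12761 c4383 c100 c16704 c535 c832 c84 (k8 c63 c303 c2599 c93 c6403 c16460 c1337 c2496 (k8 c11030 c314 c7854 c7308 c271 c11351 c1117 c1109 (k8 c663 c16715 c534 c2367 c12210 c1116 c16590 c2495 (k8 c537 c4292 c4467 c7312 c312 c2260 c4463 c3367 (k8 c10080 c4379 c7513 c4397 c2121 c8860 c4392 c7517 (k4 c4418 c4473 c718 c834 (k2 c11601 c1482 k0)))))))) (by decide +kernel)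
def c16717 : PP 8 4 T 0x40000000000000000000000000000000001041000100000000800 := rS 0x143fc1421141324472715895462b91f8106a756499456e509974de0f2d98406570488c405847c3518f0 (k8 c16608 c12761 c4383 c100 c16704 c535 c832 c84 (k8 c63 c303 c2599 c93 c6403 c16460 c1337 c2496 (k8 c11030 c314 c7854 c7308 c16715 c16714 c534 c2367 (k8 c7514 c316 c12210 c1116 c537 c359 c129 c16716 (k4 c4538 c350 c15643 c671 (k2 c4464 c16708 k0)))))) (by decide +kernel)
def c16718 : PP 8 4 T 0x40000000000000000000000000000000000041000100000000800 := rS 0x98902b8688c405847a31e075 (k8 c16715 c16608 c12761 c100 c16704 c535 c832 c4383 (k4 c314 c16717 c7307 c16712 k0)) (by decide +kernel)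
def c16719 : PP 8 4 T 0x40000000080000000000000000000000401400000004000000800 := rS 0xc70aa982224199b4260d07c34b66111a3d18f00c88006572a810b113 (k8 c4346 c16704 c534 c12210 c63 c303 c535 c16590 (k8 c16608 c12761 c100 c832 c2599 c93 c4383 c6403 (k8 c2495 c2496 c4993 c4294 c4467 c7312 c11942 c11991 (k2 c15521 c16688 k0)))) (by decide +kernel)
def c16720 : PP 8 4 T 0x40000000080000000000000000000000001042000000000000800 := rS 0xa153216854552840bcc71b89836e5020e4e28f4627466f018880b0353a91ca713 (k8 c4346 c332 c8078 c16715 c16714 c16704 c535 c316 (k8 c16608 c4294 c966 c12761 c100 c537 c359 c534 (k8 c11030 c4292 c16719 c2270 c2375 c351 c350 c11724 (k4 c11725 c4473 c710 c7647 (k2 c4423 c908 k0))))) (by decide +kernel)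
def c16721 : PP 8 4 T 0x40000000000000000000000000000000000040000140000000800 := rS 0x14f4552aa59e37a192197135bd2d5c9355ab5462f68945cb0d0f96c727147a313a33780c440353a8ee2e291e0740e58 (k8 c16704 c83 c1025 c16718 c1681 c4416 c89 c16715 (k8 c16714 c535 c316 c16608 c4294 c966 c12761 c100 (k8 c537 c359 c93 c271 c4383 c11030 c4435 c4298 (k8 c4432 c9384 c4554 c14464 c11351 c15753 c15673 c1117 (k8 c4346 c8140 c16720 c4421 c323 c1790 c7105 c11724 (k2 c11725 c909 (k1 c4490 k0))))))) (by decide +kernel)
def c16722 : PP 8 4 T 0x40000000000000000000000000000000000040000100000000800 := rS 0x101231c2a2a2991c78977284c1a0f86a31e05b3086440032b9540858 (k8 c16704 c534 c12210 c63 c303 c535 c16590 c2599 (k8 c93 c16608 c12761 c4383 c6403 c2495 c2496 c11030 (k8 c926 c16718 c8078 c332 c16721 c2261 c2262 c16281 (k2 c16688 c2258 k0)))) (by decide +kernel)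
def c16723 : PP 8 4 T 0x40000000000000000000000000000000000000000204000000800 := rS 0xb77e2842271069fcc86f0796cc20911a3e1ab54aa31e116598f426733180cae3f100500858 (k8 c16704 c534 c390 c535 c2367 c63 c303 c814 (k8 c1110 c2496 c7822 c663 c7660 c16608 c12761 c855 (k8 c1388 c4383 c100 c832 c84 c2599 c93 c6403 (k8 c16460 c391 c15524 c2495 c537 c7312 c894 c4463 (k2 c1118 c15634 k0))))) (by decide +kernel)
def c16724 : PP 8 4 T 0x40000000000000000000000000000000000040000000000000800 := rS 0x64c518e26519f572b339850c83d31c44583572a4426671c9c47e042e9bc1e5b3080cae0911880b08f86a31e075 (k8 c16715 c16608 c12761 c4383 c100 c16704 c535 c832 (k8 c84 c63 c303 c2599 c93 c6403 c16460 c1337 (k8 c534 c2367 c537 c359 c2638 c2496 c129 c11030 (k8 c16714 c16722 c4332 c814 c7822 c391 c390 c1110 (k8 c663 c7514 c1651 c1467 c16723 c2375 c4538 c631 (k1 c15790 k0)))))) (by decide +kernel)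
def c16725 : PP 8 4 T 0x400000002000000000000000000141010000000000000000002080001150000000000 := rS 0x14566130a4af4d43518ad17aadca51 (k8 c4435 c11030 c14464 c4432 c4554 c12761 c4383 c4567 (k4 c868 c11345 c372 c373 (k2 c4451 c5541 k0))) (by decide +kernel)
def c16726 : PP 8 4 T 0x40000000000000000000000000000000000001020100000000800 := rS 0x5f32d0679291ad5f12a58a59e48a1a54fc1482ae4205e638994a255dad43a074e8cd623f3aaf53231429c4968151ab45eab289cd6e930fb24cae515a2cee7b0dc6484672a81032132e9bc1e5b3080cae0911880b08f86a31e0b3 (k8 c663 c16608 c12761 c4383 c100 c16704 c535 c832 (k8 c84 c63 c303 c2599 c93 c6403 c16460 c1337 (k8 c2496 c16590 c534 c12210 c2638 c16724 c4446 c4292 (k8 c702 c1886 c9998 c11147 c11030 c7854 c7308 c271 (k8 c11351 c1117 c1109 c4435 c14464 c4432 c4554 c9384 (k8 c7000 c4434 c537 c13580 c16453 c1926 c1119 c16715 (k8 c2367 c1116 c4294 c966 c83 c1025 c7883 c1309 (k8 c1370 c7884 c4467 c2375 c351 c350 c11342 c15732 (k8 c4464 c16708 c15665 c4392 c671 c1521 c834 c15673 (k8 c16725 c4346 c4442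 c11345 c540 c548 c2023 c2122 (k1 c9033 k0))))))))))) (by decide +kernel)
def c16727 : PP 8 4 T 0x40000000000000000000000000000000000001000104000000800 := rS 0x248c50a7125a04de0f2d984122347c35182b459dcf61b8c908ce132a86406575c8d5caf01f8104058 (k8 c16704 c535 c534 c2367 c16608 c11030 c16726 c7514 (k8 c63 c303 c16590 c12210 c2496 c2638 c16724 c4446 (k8 c4292 c702 c1886 c9998 c11147 c12761 c4383 c100 (k8 c832 c84 c2599 c93 c6403 c16460 c7000 c4434 (k4 c537 c13580 c16453 c7307 (k1 c16716 k0)))))) (by decide +kernel)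
def c16728 : PP 8 4 T 0x400000000000000040000000000000000000000000000000000001000100000000800 := rS 0x1489a4e8cc628525a05463714a543e483f0520b14488e4e2b15c8d47ec932b94ba6f0796cc20911a3e1a8c15a2cee7b0dc64846709955e0191000cae75080980858 (k8 c16704 c534 c16727 c350 c16715 c63 c303 c535 (k8 c16590 c16608 c12210 c2496 c2638 c16724 c4446 c4292 (k8 c702 c1886 c9998 c11147 c12761 c4383 c100 c832 (k8 c84 c2599 c93 c6403 c16460 c1337 c11030 c7854 (k8 c7308 c2367 c16726 c7514 c1116 c537 c359 c129 (k8 c4538 c15643 c4464 c16708 c671 c271 c11125 c834 (k8 c2270 c9384 c7000 c4434 c13580 c16453 c4294 c966 (k2 c4567 c16725 (k1 c15613 k0))))))))) (by decide +kernel)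
def c16729 : PP 8 4 T 0x40000000000000000000000000000000000001000100000000800 := rS 0x2f996833c948d6af8933e867ea585053054aaecbd14638dc4cb91aa443e39588fceabd4c8c50a7125a055a2f559459265728ad16773d86e324233954081909974de0f2d98406570488c405847c3518f0 (k8 c16608 c12761 c4383 c100 c16704 c535 c832 c84 (k8 c63 c303 c2599 c93 c6403 c16460 c1337 c2496 (k8 c16590 c534 c12210 c2638 c16724 c4446 c4292 c702 (k8 c1886 c9998 c11147 c11030 c7854 c7308 c4435 c14464 (k8 c4432 c4554 c7000 c4434 c537 c13580 c16453 c1926 (k8 c1119 c16715 c2367 c1116 c359 c271 c129 c16726 (k8 c7514 c16727 c2270 c2375 c4538 c351 c9034 c11125 (k8 c15643 c834 c4464 c15673 c16708 c4392 c1521 c16728 (k8 c4346 c4442 c11345 c540 c548 c2023 c2122 c9033 k0))))))))) (by decide +kernel)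
def c16730 : PP 8 4 T 0x40000000000000000000000000000000000000020100000000800 := rS 0x14324ae19abe419784cc712b45623f5e8ec8ebb3c9ad845257c49369d19a64521d038c50a7125a04de0f2d984122347c3518ab15a2cee7b0dc6484670995408191000cae5872945e03c (k8 c16729 c16608 c4435 c11030 c16704 c63 c303 c535 (k8 c16590 c534 c12210 c2496 c2638 c16724 c4446 c4292 (k8 c702 c1886 c9998 c11147 c14464 c12761 c4383 c100 (k8 c832 c84 c2599 c93 c6403 c16460 c7000 c4434 (k8 c537 c13580 c16453 c83 c1025 c1681 c1926 c4294 (k8 c966 c15614 c4488 c4346 c11345 c333 c4442 c541 (k8 c1390 c8078 c89 c1119 c2367 c1116 c4298 c1370 (k8 c1452 c4467 c351 c548 c2122 c7983 c1215 c373 (k2 c4394 c4473 k0))))))))) (by decide +kernel)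
def c16731 : PP 8 4 T 0x40000000000000000000000000000000000000000004000000800 := rS 0x26844480d07c34b66111a14ee191000cae7b0dc6484712c23d18f0 (k8 c16608 c12761 c100 c16704 c537 c16724 c4446 c4292 (k8 c702 c63 c303 c535 c16590 c1886 c13580 c832 (k8 c2599 c93 c4383 c6403 c2495 c4467 c7312 c2260 (k1 c10080 k0)))) (by decide +kernel)
def c16732 : PP 8 4 T 0x40000000000000000000000000000000000000000100000000800 := rS 0x12570cd5f20c6ac2291ad5f123caed36291d8f156d128b943a074e8cd623f15a2cce132aaf53231429c496818c9ecde0f2d984122347c34ee1b0c880065721231e0c72f0980858 (k8 c16704 c534 c16731 c351 c2375 c16608 c12761 c16724 (k8 c63 c303 c535 c16590 c4292 c1886 c4383 c100 (k8 c832 c84 c2599 c93 c6403 c16460 c702 c4446 (k8 c7000 c4434 c537 c13580 c16453 c1926 c1119 c12210 (k8 c2496 c2638 c9998 c11147 c2367 c1116 c4294 c966 (k8 c83 c1025 c11030 c4435 c4298 c14464 c16729 c89 (k8 c1681 c15614 c1390 c541 c4488 c4346 c4442 c11345 (k8 c333 c16730 c548 c2122 c7983 c1215 c373 c13269 k0)))))))) (by decide +kernel)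
def c16733 : PP 8 4 T 0x40000000000000000000000000000000000000000000000000800 := rS 0x1fd667d39ad592b7320f4c714508b0205e63898ea3f37ac446390781026610188012e58695cb6712c23d18f0 (k8 c16608 c12761 c100 c16704 c537 c93 c63 c4383 (k8 c11030 c84 c535 c303 c2599 c2496 c534 c6403 (k8 c359 c832 c1116 c16460 c2367 c16715 c16731 c2375 (k8 c351 c350 c16732 c895 c7962 c814 c7822 c391 (k8 c1118 c547 c4389 c1110 c1380 c663 c15524 c16273 k0))))) (by decide +kernel)
def c16734 : PP 8 4 T 0x40084004004000410000000000000000000000022104100010000 := rS 0x29d084d5fa65521c1207c464f20c346ebb3c8181297729ee269d059b506174083cde584612de0b1 (k8 c1034 c16608 c4434 c12761 c16704 c16518 c1329 c12056 (k8 c4431 c4570 c4993 c16733 c15569 c4441 c7035 c11030 (k8 c16347 c3111 c4462 c500 c1309 c87 c4383 c4433 (k8 c4297 c3420 c7786 c4467 c4466 c1503 c1031 c4566 (k4 c15797 c15811 c2006 c11940 k0))))) (by decide +kernel)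
def c16735 : PP 8 4 T 0x400000000000000040005000100010410000500000000000000000020144500000000 := rS 0x29d08ae5fb1532a949870481f279061a3737aec9679030242e97568bd56e5289ed3a0b463c0da58 (k8 c16704 c4993 c16608 c12761 c16733 c15569 c7035 c4435 (k8 c11030 c14464 c4432 c4554 c16347 c4431 c3111 c4462 (k8 c500 c4434 c1309 c16518 c87 c4383 c4433 c4297 (k8 c1100 c4467 c4466 c11351 c1503 c1031 c7718 c4566 (k4 c2127 c15811 c908 c11940 k0))))) (by decide +kernel)
def c16736 : PP 8 4 T 0x40000000000000400000000000000000001001022144100010000 := rS 0x8bace10fc358540a000e8784a2282b2572a163ac50283309b4e28f1cad41ebd5d92cba6f461e42e733aa558641608fc0c092c02d56e528bc16f13 (k8 c4441 c1038 c16608 c4435 c11030 c14464 c16733 c16704 (k8 c3111 c4462 c11031 c12762 c4433 c9009 c15532 c499 (k8 c16551 c4431 c500 c12761 c16518 c1337 c4434 c1309 (k8 c1039 c1329 c7883 c1114 c100 c537 c4993 c4213 (k8 c4570 c12056 c1034 c16734 c4212 c11342 c8024 c15732 (k8 c16735 c58 c1298 c1028 c1098 c527 c2630 c492 (k4 c8265 c7393 c11612 c15721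 (k1 c4481 k0)))))))) (by decide +kernel)
def c16737 : PP 8 4 T 0x40000000000000000000000000000000000000000004000020000 := rS 0x1d01804b00b (k4 c16733 c16704 c2592 c342 (k2 c15892 c4726 k0)) (by decide +kernel)
def c16738 : PP 8 4 T 0x40000000000000000000000000000000001041022144100000000 := rS 0x13611 (k2 c16737 c1966 (k1 c16736 k0)) (by decide +kernel)
def c16739 : PP 8 4 T 0x400000000000000044005000014001554000000000000000000000000002001015000 := rS 0x572998b0d463c0da58 (k8 c16704 c4993 c16608 c12761 c4383 c7718 c11942 c2127 (k1 c909 k0)) (by decide +kernel)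
def c16740 : PP 8 4 T 0x40085000000000010000000000000000000000021144100000000 := rS 0xfecc59b122489420653699021341a034987002248b87c46cf5c06c9e41869c51e73030250617408441e6f2c12d2e9d05a315a2f55b94a2f0 (k8 c16608 c4435 c11030 c14464 c4432 c4554 c12761 c16733 (k8 c15569 c16347 c4434 c16704 c16518 c1329 c16737 c12056 (k8 c4431 c4570 c3111 c4462 c16551 c100 c537 c4383 (k8 c4433 c4297 c4292 c1451 c3495 c3420 c7786 c4361 (k8 c4467 c487 c4466 c11351 c224 c1368 c284 c4461 (k8 c1031 c764 c268 c2108 c685 c16739 c15710 c1251 (k2 c1255 c10049 (k1 c1481 k0)))))))) (by decide +kernel)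
def c16741 : PP 8 4 T 0x400000000000000040005000000010010000000000000000000000020144500000000 := rS 0x71341f17a0c2e81079bcb08c25bc16211 (k8 c16737 c1034 c16608 c4434 c12761 c16704 c16518 c1329 (k8 c12056 c4431 c4570 c4432 c1100 c16735 c4466 c764 k0)) (by decide +kernel)
def c16742 : PP 8 4 T 0x100000000000040100000100000000000000000001000001001020000080000000 := rS 0x1f566fc06854006d2e9bd183f39b95e07503024b00b (k8 c16733 c16704 c3111 c4462 c499 c16608 c11030 c16551 (k8 c11031 c12761 c16518 c1337 c4993 c1098 c2630 c8851 (k4 c8265 c11612 c4379 c11359 k0))) (by decide +kernel)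
def c16743 : PP 8 4 T 0x40000000000000000000000000000000001041020144100000000 := rS 0xfc88591f508cb7e065884d06a6c09121224c38230fc1592b950b1c62b70d93e1a572d9c51eb5399d52ac320b047e060482d06174092d62610883cde584ba315a2f55b94a2f0 (k8 c16608 c4435 c11030 c14464 c4432 c4554 c12761 c16347 (k8 c16704 c16518 c1329 c16737 c12807 c1034 c4434 c12056 (k8 c4431 c4570 c16733 c3111 c4462 c11031 c12762 c4433 (k8 c9009 c15532 c499 c16551 c7883 c100 c537 c93 (k8 c63 c4383 c4297 c4292 c1038 c16738 c16740 c4212 (k8 c11342 c8024 c15732 c16742 c1298 c4466 c11351 c4467 (k8 c16741 c10867 c764 c4113 c284 c15710 c268 c4463 (k4 c1756 c2108 c4379 c11359 (k2 c1251 c684 (k1 c15694 k0)))))))))) (by decide +kernel)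
def c16744 : PP 8 4 T 0x40000000000000000000000000000000000041020144100000000 := rS 0x11287a59e9891984c14271645b2526fc34994d6b7002ccce1d0f2e546154f89444c7a192156ad17915a2518696cda7147ad57abb25974f2173b9ccea9561b9482c11f818120b58984220f3796118f0 (k8 c16608 c12761 c16704 c16518 c1329 c16737 c12807 c1034 (k8 c16733 c3111 c4462 c11031 c12762 c4433 c11030 c9009 (k8 c15532 c499 c16551 c1023 c4431 c500 c1337 c4434 (k8 c1309 c1039 c7883 c100 c537 c4993 c93 c4383 (k8 c4435 c4298 c4296 c4432 c4554 c14464 c16743 c4421 (k8 c147 c7307 c282 c1662 c366 c4241 c11342 c1298 (k8 c1028 c8324 c11612 c1098 c3103 c492 c491 c756 (k8 c8265 c7994 c7308 c8286 c8860 c1718 c15732 c15721 (k4 c15766 c9770 c4482 c4429 (k2 c1634 c682 (k1 c7525 k0))))))))))) (by decide +kernel)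
def c16745 : PP 8 4 T 0x80000000000000000000000000000000000020080000000000 := rS 0x14424 (k2 c290 c291 (k1 c3436 k0)) (by decide +kernel)
def c16746 : PP 8 4 T 0x40000000000000000000000000001000001001020080100010000 := rS 0x3eaccfefc33d081a042387002230fc1592b72d9c51eb5079bce6754aac52e8c8880caeb963b95e03f03024b00b (k8 c16733 c16704 c3111 c4462 c11031 c16608 c11030 c16745 (k8 c11342 c63 c14819 c4411 c12761 c16347 c1034 c15532 (k8 c499 c16551 c16518 c1329 c7883 c100 c537 c93 (k8 c1038 c8024 c15732 c16742 c1298 c487 c4466 c1643 (k8 c4461 c4113 c4473 c15515 c4463 c4392 c7239 c4379 (k1 c2121 k0)))))) (by decide +kernel)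
def c16747 : PP 8 4 T 0x100000000000000040000000000000000000000000000000002041020004500000000 := rS 0xf48884a1e97168cbf076c482adca60d2a07002240fb461a7147ad41e6f5eaec96790b9dce6754ab0c82c14ba31661508b95e03f03024b00b (k8 c16733 c16704 c3111 c4462 c11031 c16608 c11030 c16737 (k8 c366 c11612 c12761 c16347 c12762 c4433 c9009 c15532 (k8 c499 c16551 c1023 c4431 c500 c4434 c1309 c1039 (k8 c16518 c1329 c7883 c100 c537 c4383 c4298 c1100 (k8 c4467 c487 c4466 c16538 c1368 c2217 c3011 c4406 (k8 c11893 c1600 c4463 c15670 c4481 c4429 c1634 c15721 (k2 c4151 c4482 (k1 c682 k0)))))))) (by decide +kernel)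
def c16748 : PP 8 4 T 0x40000000000000000000000000000000000041020104100000000 := rS 0x9f508888f432428d72c7888a454e5868fc0c0905984220f3796118f0 (k8 c16608 c12761 c16704 c16518 c1329 c16737 c12807 c16733 (k8 c3111 c4462 c11031 c4383 c11030 c16744 c59 c4411 (k8 c16745 c11342 c1467 c16746 c4421 c118 c16747 c770 (k2 c1299 c4489 k0)))) (by decide +kernel)
def c16749 : PP 8 4 T 0x40080000000000000000000000000000001001020144100000000 := rS 0x26c601f08a5586e520b047e060496016f0 (k8 c16608 c16733 c16704 c3111 c4462 c11031 c12762 c4433 (k8 c11030 c9009 c15532 c16737 c7786 c16740 c1967 c16736 k0)) (by decide +kernel)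
def c16750 : PP 8 4 T 0x40000000000000000000000000000000001001020144100000000 := rS 0xfc8859210facb0c935f8c418835360489091261c1187e0ac95ca858eb70d93e1a572d9c51eb5399d52ac320b047e060482d06174092d62610883cde584ba315a2f55b94a2f0 (k8 c16608 c4435 c11030 c14464 c4432 c4554 c12761 c16347 (k8 c16704 c16518 c1329 c16737 c12807 c1034 c4434 c12056 (k8 c4431 c4570 c16733 c3111 c4462 c11031 c12762 c4433 (k8 c9009 c15532 c499 c16551 c7883 c100 c537 c93 (k8 c63 c4383 c4297 c4292 c1038 c16749 c4212 c11342 (k8 c8024 c15732 c16742 c1298 c4466 c11351 c4467 c16741 (k8 c10867 c764 c4113 c4441 c15710 c4463 c284 c268 (k4 c1756 c4379 c2108 c11359 (k2 c1251 c684 (k1 c15694 k0)))))))))) (by decide +kernel)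
def c16751 : PP 8 4 T 0x40000000000000000000000000000000000001020144100000000 := rS 0x5180743c2511121cb0d463c0ae06049601642 (k8 c16748 c16733 c16704 c3111 c4462 c63 c16608 c12761 (k8 c4383 c11030 c16750 c7307 c282 c1298 c1028 c276 (k2 c527 c14465 k0))) (by decide +kernel)
def c16752 : PP 8 4 T 0x100000000000000040001000440000010000000100000000002080020004500000004 := rS 0xc466d1512843d0649b0918c5a24ab7e18a0a9b5b811400d2a07002240f86c5e4f869c51eb55e90576793981812830ba041e6f2c12d2ee552c65329d05a3286cf68bc02a11 (k8 c16737 c366 c16608 c4298 c1790 c4421 c12761 c16733 (k8 c15569 c1927 c4446 c7884 c11030 c16347 c4434 c16704 (k8 c16518 c1329 c12056 c4431 c4570 c3111 c4462 c16551 (k8 c500 c1309 c4433 c1039 c7883 c100 c537 c4383 (k8 c4297 c4432 c4292 c1100 c4467 c487 c4466 c16538 (k8 c1368 c283 c4461 c3011 c764 c4406 c267 c4463 (k8 c1741 c4488 c4481 c4441 c15721 c284 c268 c10207 (k4 c2108 c682 c4397 c15606 (k2 c15777 c12768 k0))))))))) (by decide +kernel)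
def c16753 : PP 8 4 T 0x40000000000000000000000000000000000001020104100000000 := rS 0x2853e2259a8c2a47a1ae490c75780e222915109a30d2b9d52ae5608fc0c0905984220f3796118f0 (k8 c16608 c12761 c16704 c16518 c1329 c16737 c12807 c16733 (k8 c3111 c4462 c11031 c12762 c11030 c15532 c499 c63 (k8 c4383 c4298 c16748 c16751 c59 c4411 c14819 c1774 (k8 c16745 c16746 c11342 c4421 c118 c366 c1467 c11612 (k4 c16752 c1299 c770 c4489 k0))))) (by decide +kernel)
def c16754 : PP 8 4 T 0x40000000000000000000000000000000000001020104000000000 := rS 0x1288c403786a3d18f0 (k8 c16608 c12761 c100 c4383 c87 c16753 c832 c312 (k1 c4467 k0)) (by decide +kernel)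
def c16755 : PP 8 4 T 0x40080000014000004000000000000000000041012004000000000 := rS 0x4a0642a0645b0d8299579d4006504b28a4a62a80d0e8562930d29b899061a6d11a740a570f0752ee554891764b5ec506e212d96016394633c9ef0 (k8 c16608 c4297 c1519 c12761 c1114 c16733 c16704 c93 (k8 c16342 c1384 c4470 c4354 c4434 c9034 c9120 c1503 (k8 c11030 c16347 c1027 c4466 c63 c16405 c10547 c1297 (k8 c4993 c4383 c4433 c4441 c1966 c1879 c16203 c7718 (k8 c10079 c11158 c2135 c2172 c9728 c412 c413 c1106 (k8 c16541 c4726 c15675 c909 c2010 c1982 c2028 c1753 (k4 c4462 c2630 c9671 c2127 (k1 c15725 k0)))))))) (by decide +kernel)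
def c16756 : PP 8 4 T 0x1400000000000000000002000000004000804000000000000000000000000010045400000000000000 := rS 0x32e965262b35a2e5 (k8 c11030 c4298 c7983 c12768 c11242 c4456 c2022 c4495 k0) (by decide +kernel)
def c16757 : PP 8 4 T 0x40080000000000000000000000000000000041000144000000000 := rS 0x12862142cc0453040058b17038f95ec38caf89a311d9cd269f6791e86452ba743c1d548909eb78a2b45eab28a8dca4911c368a371096cb00b1a8e518f0 (k8 c16608 c12761 c1114 c16754 c16733 c16704 c93 c16342 (k8 c1384 c11725 c4383 c1297 c7307 c11030 c11410 c4435 (k8 c14464 c4432 c4554 c4470 c4353 c4297 c9120 c1503 (k8 c1027 c4466 c10547 c63 c4296 c4391 c146 c1519 (k8 c11776 c7994 c1109 c1101 c16755 c284 c15612 c4369 (k8 c12326 c9441 c16756 c11031 c4356 c1248 c486 c4462 (k4 c11827 c4726 c16243 c11345 (k2 c794 c7153 (k1 c15899 k0))))))))) (by decide +kernel)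
def c16758 : PP 8 4 T 0x100000000000000040005000000000000000104000020001004140002080000008 := rS 0x471d9781c08 (k4 c222 c224 c225 c3112 (k2 c3357 c15802 k0)) (by decide +kernel)
def c16759 : PP 8 4 T 0x100000000000000000000000008000000000000050000000000000002000000002 := rS 0x34bc7c (k4 c6237 c6233 c3346 c488 k0) (by decide +kernel)
def c16760 : PP 8 4 T 0x40040000000000000000000000000000000005000144000000000 := rS 0x3f4aa7f1d5088e9f8b19d66730a81800650480e0a7538a3c3c6f02874aeb15bad628371096cb00b1cb2422b91239492231ac3518f0 (k8 c16608 c12761 c4383 c16754 c1297 c7307 c11030 c9120 (k8 c7908 c16737 c8024 c1114 c16733 c16704 c93 c16342 (k8 c1384 c4470 c4389 c4353 c8612 c63 c1027 c16405 (k8 c9852 c4466 c100 c537 c11627 c15643 c16758 c1106 (k8 c16541 c4726 c4462 c2630 c16551 c11612 c4555 c4481 (k8 c16759 c6900 c4473 c16556 c4392 c1600 c15634 c9157 k0)))))) (by decide +kernel)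
def c16761 : PP 8 4 T 0x40040000000000000000000000000000000001000144000000000 := rS 0x59414ea08399562e071f2e592e538a3c486f02874aeb108add6b141b884b658058e492231ac3518f0 (k8 c16608 c12761 c4383 c16754 c1297 c7307 c1114 c16733 (k8 c16704 c93 c16342 c1384 c4470 c4389 c4353 c16737 (k8 c8612 c63 c1027 c16405 c9852 c9120 c100 c537 (k8 c11030 c8024 c7908 c16760 c11031 c4356 c8954 c3117 (k4 c4462 c15675 c15732 c4481 (k1 c16243 k0)))))) (by decide +kernel)
def c16762 : PP 8 4 T 0x40000000000000000000000000000000000001000144000000000 := rS 0x91800c84c672814ae1e0e8846a5b2c02d18f0 (k8 c16608 c12761 c16733 c16704 c93 c16754 c16342 c1027 (k8 c4466 c63 c16405 c11030 c16761 c16757 c2132 c276 (k2 c1106 c14465 k0))) (by decide +kernel)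
def c16763 : PP 8 4 T 0x40000000000000000000000000000000000001000104000000000 := rS 0x3200d90483eb1cbca33999d66b9318548e3b3a8fe222a5aade286f2e9852e370289042230e8d4223972c3518f02b96cb00b (k8 c16733 c16704 c93 c63 c16608 c12761 c4383 c11030 (k8 c1114 c16737 c16754 c1027 c1297 c16342 c9120 c16405 (k8 c1384 c16347 c4213 c1336 c9852 c4470 c4353 c4389 (k8 c16762 c4411 c289 c16677 c1641 c1643 c286 c1607 (k8 c7514 c11612 c8324 c1110 c1467 c11613 c291 c1380 (k4 c2113 c15790 c2134 c546 (k1 c16541 k0))))))) (by decide +kernel)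
def c16764 : PP 8 4 T 0x40040000000000000000080000000000001000000000000100000 := rS 0x23d0dcaf0 (k4 c16608 c11030 c4392 c1312 (k1 c4473 k0)) (by decide +kernel)
def c16765 : PP 8 4 T 0x8000000000000000000100015500004000000040154001000000000000008000010000 := rS 0x17dfa7c (k4 c2121 c15634 c1379 c14316 k0) (by decide +kernel)
def c16766 : PP 8 4 T 0x40000000000000000000000000000000000001020140000000000 := rS 0x1e97f13429a55c3b4594ca87e8b415929f32c41668340ae56eb1148c4c215088152a75399e47e9310008ba060f805760f378256a392585c82d18696cda712c23c1623128dd523363a743a2648a315a2f55b94a2f0 (k8 c16608 c4435 c11030 c14464 c4432 c4554 c12761 c129 (k8 c16763 c872 c10547 c408 c4294 c974 c321 c115 (k8 c114 c16733 c100 c16704 c537 c4993 c93 c4383 (k8 c4298 c4433 c4431 c4434 c116 c7883 c3111 c16518 (k8 c1329 c1309 c15507 c1100 c4462 c1337 c4726 c4466 (k8 c11351 c11031 c500 c16551 c499 c15532 c527 c343 (k8 c382 c879 c11577 c12392 c16432 c1117 c11342 c10263 (k8 c4570 c11612 c4468 c4412 c4414 c7308 c16596 c4481 (k8 c16765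 c12366 c9029 c1766 c1600 c4542 c829 c15784 (k4 c4346 c9441 c7037 c4055 k0)))))))))) (by decide +kernel)
def c16767 : PP 8 4 T 0x40000000000000000000000000000000001005000140080000000 := rS 0x1fd6ab739ac566158b24c10021d81cdf15008e0e25847875228c5cb1c4c353ab95e00b (k8 c16733 c16608 c11030 c11627 c16766 c16763 c408 c13269 (k8 c12761 c129 c872 c100 c16704 c537 c352 c9118 (k8 c4348 c3114 c3123 c3124 c4726 c4462 c9125 c4471 (k8 c382 c16243 c3125 c1109 c1117 c4419 c16764 c15745 k0)))) (by decide +kernel)
def c16768 : PP 8 4 T 0x40000000000000000000000000000000001005000140000000000 := rS 0x8b03d3e7f59b24c3103785422b5589cc5206012de28931002402390f9d4b6712c23c161d48a3172e57831c4c35 (k8 c16766 c16763 c408 c16608 c11030 c13269 c12761 c129 (k8 c872 c16733 c100 c16704 c537 c93 c11627 c16767 (k8 c1113 c487 c1105 c4466 c11351 c4538 c9550 c4726 (k8 c4462 c12392 c1109 c4350 c4389 c16166 c382 c1019 (k8 c4468 c616 c8024 c11612 c16764 c4414 c15653 c12094 (k1 c16765 k0)))))) (by decide +kernel)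
def c16769 : PP 8 4 T 0x40000000000000000000000000000000001001000140000000000 := rS 0xb4149f5926f8a9fe08111c1d562b3010780a0800adce6212a8ee2e071f2e5ca572d9c4b08f05875228c7831c4c35 (k8 c16766 c16763 c408 c16608 c12761 c129 c872 c16733 (k8 c100 c16704 c537 c93 c63 c11030 c13269 c16768 (k8 c11031 c4356 c144 c8954 c400 c3117 c3127 c486 (k8 c4462 c16405 c4466 c4726 c16243 c3125 c15675 c352 (k8 c2302 c4481 c10049 c4348 c3114 c8024 c4409 c16247 (k2 c15745 c16527 k0)))))) (by decide +kernel)
def c16770 : PP 8 4 T 0x40000000000000000000000000000000000005000140080000000 := rS 0x9b89ab862194cc64eec42995027053f1ed92b104044ba610101cde0f008e0864568c34e28f4e87522ab28ad53e735ba4d187532c40522313161864160ae52a1559c59caf01d9206a0b (k8 c16733 c16766 c16769 c1723 c16608 c11030 c4471 c4358 (k8 c7508 c4418 c7514 c12762 c4433 c9009 c16704 c16763 (k8 c114 c1721 c4468 c4412 c538 c12761 c9125 c1117 (k8 c1109 c1662 c1702 c4435 c14464 c129 c872 c10547 (k8 c100 c537 c4383 c4298 c4296 c2314 c352 c9118 (k8 c2154 c3114 c3123 c4726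 c879 c1337 c10960 c4462 (k8 c1116 c7308 c1224 c16765 c15732 c1718 c12388 c9747 (k8 c9770 c15576 c15670 c1135 c4540 c228 c11345 c4346 (k2 c868 c4488 k0))))))))) (by decide +kernel)
def c16771 : PP 8 4 T 0x40000000000000000000000000000000000005000140000000000 := rS 0x26e26995746484532a324ba613784562310300a282004804721f0aa556716619061a712c23c16c74e875228c568bd565123a4c763532c40524811899caf0 (k8 c16608 c11030 c16763 c114 c16769 c1721 c4468 c4412 (k8 c16766 c1723 c9125 c118 c4435 c14464 c4432 c4554 (k8 c12761 c129 c872 c10547 c408 c16733 c100 c16704 (k8 c537 c4383 c4433 c9009 c4471 c4358 c4418 c7508 (k8 c16770 c1113 c487 c1105 c4466 c4538 c4726 c4462 (k8 c11577 c4350 c16166 c1019 c616 c807 c7308 c15792 (k8 c9029 c15698 c15670 c4542 c1926 c4346 c868 c4488 k0))))))) (by decide +kernel)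
def c16772 : PP 8 4 T 0x40000400100000000000104004000000000040002008000000010 := rS 0x3b9e57685521a5371319a3d18f036894c258 (k8 c16704 c616 c115 c4993 c16608 c12761 c100 c4294 (k8 c4441 c1966 c1879 c357 c10705 c1390 c541 c1112 (k1 c15814 k0))) (by decide +kernel)
def c16773 : PP 8 4 T 0x400000000000000040000000000000000000000000000001400000001150000140010 := rS 0x359a6121b19b44da58568bd56658818d121743b94a2f0 (k8 c16608 c4435 c11030 c9141 c4431 c7030 c11648 c4468 (k8 c4412 c14464 c4432 c4554 c16704 c4993 c4298 c4294 (k4 c4292 c12557 c7083 c7865 (k1 c4479 k0)))) (by decide +kernel)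
def c16774 : PP 8 4 T 0x400000000000000040000000000040000000000000000001002000001150000140010 := rS 0x2968acc2614a1a8c56b945ef0 (k8 c16608 c4432 c11030 c4554 c12761 c4383 c16773 c372 (k4 c373 c4451 c1934 c5541 k0)) (by decide +kernel)
def c16775 : PP 8 4 T 0x40000000000000000000000000000000000001000140000000000 := rS 0x232cb3b949326b57c4a963109a0592874498cfefc30844ba153dacd62bf37c540a085c03c7043109540e3e3299ce710498a476481aaad5a4b1785c8a5172c34ae5b389611e0b11875228c7831d4626 (k8 c16763 c934 c408 c16608 c12761 c129 c872 c114 (k8 c16733 c100 c16704 c537 c93 c63 c4383 c11030 (k8 c4435 c4296 c4431 c4432 c4434 c4554 c14464 c16766 (k8 c16769 c1723 c1721 c9125 c4468 c1109 c657 c4412 (k8 c16771 c11031 c8954 c400 c2334 c370 c2160 c371 (k8 c4462 c16405 c4348 c3114 c1240 c3213 c16243 c1224 (k8 c385 c1337 c10960 c616 c4480 c7096 c11648 c7030 (k8 c9141 c7308 c12056 c1718 c16772 c15673 c16774 c4346 (k4 c4442 c4443 c11345 c1111 (k2 c2023 c15667 (k1 c15819 k0))))))))))) (by decide +kernel)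
def c16776 : PP 8 4 T 0x40000000000000000000000000000000000001000100000000000 := rS 0x42c0040737c540238598780ab90a8847e2a51b1c3a2672a4518f02b96cb00b (k8 c16733 c16704 c93 c63 c16608 c12761 c129 c11030 (k8 c16763 c872 c408 c934 c16775 c2316 c314 c2315 (k8 c11342 c16405 c4466 c11612 c352 c9118 c4348 c3114 (k4 c3123 c4726 c10833 c4462 (k1 c3125 k0))))) (by decide +kernel)
def c16777 : PP 8 4 T 0x40000000000000000000000000000000001002000042020010000 := rS 0x267d649fd72553abf18e0f3781068e5463c0ae3b0a83402060487cb00b (k8 c16733 c16704 c274 c1105 c4462 c487 c1368 c326 (k8 c89 c63 c16608 c12761 c11030 c1027 c10867 c3007 (k8 c1329 c1452 c8124 c2484 c266 c7908 c16764 c8024 (k2 c4379 c1678 (k1 c11938 k0))))) (by decide +kernel)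
def c16778 : PP 8 4 T 0x40000000000000000000000000000000000002000044000000000 := rS 0x40350e92448230fc3518f02d9601611 (k8 c16737 c16733 c16704 c93 c16608 c12761 c4383 c274 (k4 c1298 c4467 c7307 c16777 (k2 c1370 c4466 (k1 c16342 k0)))) (by decide +kernel)
def c16779 : PP 8 4 T 0x40000000000000000000000000000000000002000004000000000 := rS 0x2b5568b892646a6935c25925d02800a665098743c7f3a9dcf294638190e893e98cce614b8dc1203579544311148a822391785c82d128b9518f02b96cda5823854e60b (k8 c16733 c1615 c326 c8078 c16704 c4993 c93 c63 (k8 c16608 c12761 c11030 c4435 c4298 c4433 c4431 c4432 (k8 c1114 c16737 c16778 c59 c4411 c16312 c15540 c1774 (k8 c15510 c15514 c1384 c16347 c4213 c16511 c1606 c7516 (k8 c7030 c9141 c4462 c330 c11368 c500 c1023 c16540 (k8 c12366 c1695 c762 c3625 c1696 c2207 c1098 c527 (k8 c15897 c15642 c12557 c492 c756 c16567 c8246 c4479 (k4 c15689 c1701 c10572 c8142 k0)))))))) (by decide +kernel)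
def c16780 : PP 8 4 T 0x100000000000040000000000000000000000000000000000000020100000000000 := rS 0x7b5fa16268b2995082d1368544aa919a7576053ca6e202b100a48e133ab947eb11b9bcba830ba041e611c84404010e818121f130f0b00b48a3096f0 (k8 c16608 c4434 c12761 c129 c16733 c16704 c16776 c16779 (k8 c2313 c1105 c4462 c872 c487 c4726 c15533 c1113 (k8 c4565 c239 c12056 c4431 c4570 c807 c1108 c321 (k8 c8612 c145 c11030 c16275 c1678 c8078 c875 c4466 (k8 c16312 c4468 c15614 c500 c310 c9034 c10547 c4294 (k8 c974 c115 c326 c4993 c4298 c4433 c4464 c9747 (k4 c1766 c15575 c15784 c4566 (k2 c7035 c7037 k0)))))))) (by decide +kernel)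
def c16781 : PP 8 4 T 0x40000000000000000000000000000000000000020100000000000 := rS 0x210f6cc6114a24cf2450d705544accff045eb44e28f0a9cd8ea35a8956ebb028c52e772084cea3f588dcdec92ec34cb1015880524772a041e611c84404010e818121f130f0b00b48a3096f0 (k8 c16608 c4434 c12761 c129 c16733 c16704 c16776 c16779 (k8 c2313 c1105 c4462 c872 c487 c4726 c15533 c1113 (k8 c4565 c239 c12056 c11030 c8078 c875 c4466 c16312 (k8 c4468 c4412 c4383 c807 c7308 c1108 c321 c8612 (k8 c145 c16275 c1678 c4433 c1023 c926 c11577 c310 (k8 c9034 c1743 c115 c15596 c934 c2285 c1615 c326 (k8 c100 c537 c4298 c1039 c16780 c4313 c4312 c4314 (k8 c4406 c15732 c4394 c4473 c1790 c16774 c12654 c333 (k4 c373 c1211 c15810 c1481 k0))))))))) (by decide +kernel)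
def c16782 : PP 8 4 T 0x100000000000040000000000000000000000000000000000000000100000000000 := rS 0x1ed7e8589a2ca654689b4e28f0a89552334eaec0a793b9053710158805247099d5ca3f588dcde5d4185d020f3084404010e81812580592d7b141aa44721f130f118f0 (k8 c16608 c12761 c16776 c16779 c2313 c1113 c129 c16781 (k8 c4538 c4354 c4434 c16733 c16704 c1105 c4462 c872 (k8 c487 c4726 c15533 c4565 c239 c12056 c4431 c4570 (k8 c807 c1108 c321 c8612 c145 c11030 c16275 c1678 (k8 c8078 c875 c4466 c16312 c4468 c15614 c4433 c1023 (k8 c500 c310 c9034 c10547 c4294 c974 c115 c326 (k8 c100 c537 c4993 c4298 c4464 c9747 c1766 c15575 (k4 c15784 c4566 c7035 c2122 k0)))))))) (by decide +kernel)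
def c16783 : PP 8 4 T 0x40000000000000000000000000000000000000000100000000000 := rS 0x44c90553eaccff048a0d50283079bcc25d09844ea971881456060108012011c8a546c70f8744c730a91c7e3c2585dca91463c0b00b (k8 c16733 c16704 c16608 c12761 c129 c11030 c4431 c4434 (k8 c16776 c145 c8078 c326 c1615 c16779 c872 c2313 (k8 c2285 c934 c875 c1113 c487 c1105 c4466 c4726 (k8 c4462 c16312 c310 c11577 c926 c16275 c15533 c1678 (k8 c807 c4565 c1108 c239 c4570 c12056 c16781 c4538 (k8 c16782 c4313 c4312 c4409 c4406 c12422 c12450 c16774 k0)))))) (by decide +kernel)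
def c16784 : PP 8 4 T 0x40000000000000000000000000000000000001020000000000000 := rS 0x410ca675998c2a114b80840010e87c0a953a9cc7e06048e5ca91463c0b00b148ae222c (k8 c16783 c4332 c143 c142 c16733 c16704 c16608 c12761 (k8 c129 c11030 c116 c3111 c4462 c11031 c16551 c499 (k8 c15532 c14499 c392 c1026 c487 c4466 c4726 c927 (k8 c15533 c14481 c815 c11612 c656 c16598 c4478 c16596 k0)))) (by decide +kernel)
def c16785 : PP 8 4 T 0x40000000000000000000000000000000000001000004000000000 := rS 0x1ce2f05599d4de3e64ac628b933a540a1e30a5c6ea32a8844811508e5cb0d2b96cb00b15c44581d118d518f0 (k8 c16608 c12761 c16784 c1297 c1027 c16783 c4332 c143 (k8 c16733 c16704 c93 c63 c4383 c11030 c1114 c894 (k8 c16737 c4467 c16342 c2166 c1464 c1384 c16347 c4213 (k8 c4466 c16405 c854 c16511 c5821 c4470 c8612 c7497 (k8 c392 c9852 c15675 c7239 c15643 c4356 c3117 c4481 k0))))) (by decide +kernel)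
def c16786 : PP 8 4 T 0x40000000000000000000000000000000000005000000000000000 := rS 0x5e3e19c1eb331974c26f3985422b10300a28a34b82402395c87ceae586a44ae5805c44581d1aa31e026 (k8 c16785 c16608 c12761 c16784 c1027 c16783 c4332 c16733 (k8 c16704 c63 c129 c4383 c11030 c11627 c392 c7514 (k8 c1113 c487 c1105 c1197 c1467 c4538 c4726 c4462 (k8 c4350 c16166 c14481 c16551 c1019 c616 c807 c815 (k4 c11612 c239 c656 c15842 (k2 c11613 c1380 k0)))))) (by decide +kernel)
def c16787 : PP 8 4 T 0x40000000000000000000000000000000000001000000000000000 := rS 0xb937c556a75490e0fe2102ac43cb3042dce6558b81c7c267295cb6712c23d18f0058a4562c (k8 c16783 c143 c142 c16733 c16608 c12761 c100 c16704 (k8 c537 c93 c63 c11030 c16785 c16786 c11031 c4356 (k8 c8954 c3117 c3127 c4462 c16243 c1105 c3125 c263 (k8 c231 c10049 c352 c393 c15675 c16527 c4348 c3114 (k2 c3135 c15745 k0))))) (by decide +kernel)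
def c16788 : PP 8 4 T 0x40000000000000000000000000000000000000000000000000000 := rS 0x24c7e3b1e0ac580b (k8 c16733 c16783 c143 c16787 c89 c145 c1654 c15597 k0) (by decide +kernel)
def c16789 : PP 8 4 T 0x8000000000000000000 := rS 0xd2 (k2 c16788 c4375 k0) (by decide +kernel)
def c16790 : PP 8 4 T 0x20000 := rS 0xd2 (k2 c16788 c4276 k0) (by decide +kernel)
def c16791 : PP 8 4 T 0x8000000000 := rS 0xd2 (k2 c16788 c4278 k0) (by decide +kernel)
def c16792 : PP 8 4 T 0x200000000000000 := rS 0xd2 (k2 c16788 c4280 k0) (by decide +kernel)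
def c16793 : PP 8 4 T 0x2000000000000000000 := rS 0xd2 (k2 c16788 c4281 k0) (by decide +kernel)
def c16794 : PP 8 4 T 0x20000000000000000000 := rS 0xd2 (k2 c16788 c4282 k0) (by decide +kernel)
def c16795 : PP 8 4 T 0x2000 := rS 0xd2 (k2 c16788 c4371 k0) (by decide +kernel)
def c16796 : PP 8 4 T 0x800000000 := rS 0xd2 (k2 c16788 c4372 k0) (by decide +kernel)
def c16797 : PP 8 4 T 0x20000000000000 := rS 0xd2 (k2 c16788 c4373 k0) (by decide +kernel)
def c16798 : PP 8 4 T 0x800000000000000000 := rS 0xd2 (k2 c16788 c4374 k0) (by decide +kernel)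
def c16799 : PP 8 4 T 0x20100000000000000000001400044044500000104000000000000004000000000800 := rS 0x38bf5044f1844d39155b0954ea14887c12b10785c0ebd179a43619213c4b656690349a11 (k8 c16790 c16794 c16795 c16788 c15503 c92 c12761 c15904 (k8 c7490 c16011 c13396 c15900 c2014 c83 c1951 c305 (k8 c622 c15502 c1065 c4328 c4329 c4330 c4381 c15830 (k8 c4353 c14394 c4344 c4469 c298 c6153 c4306 c589 (k1 c4480 k0))))) (by decide +kernel)
def c16800 : PP 8 4 T 0x810000000000000000000000000000000500000000000000000080004000001404000 := rS 0x22a911b2f89c314e984022f3486de25b2b03496230889c9ad2 (k8 c16788 c16794 c16791 c16790 c16796 c16789 c16795 c15503 (k8 c92 c12761 c16011 c13396 c15900 c15891 c5402 c4344 (k4 c4441 c14506 c339 c338 (k2 c1244 c4386 (k1 c4486 k0))))) (by decide +kernel)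
def c16801 : PP 8 4 T 0x410000000000000000000000001400000100000000000000000000004000005404000 := rS 0xa5a2a089ef130804acd2 (k8 c16788 c15503 c15891 c5402 c12761 c4646 c6153 c4452 (k2 c1937 c4490 k0)) (by decide +kernel)
def c16802 : PP 8 4 T 0x1000000000011000000140500000184000000000000004140000000800 := rS 0x228b648aed42a55429d383089c35565160c15469f4987c120f8caf5362f3496d0f080d864ac17212cc0ef126b488e23 (k8 c16796 c16798 c16788 c16794 c12761 c83 c16001 c15904 (k8 c1951 c15503 c7490 c16011 c4465 c4440 c92 c13396 (k8 c15900 c804 c2014 c4446 c305 c15502 c1065 c11351 (k8 c11776 c11410 c4408 c1620 c1956 c14464 c16799 c16800 (k8 c4469 c4488 c2006 c16801 c190 c7768 c1443 c979 (k2 c4031 c4486 (k1 c4353 k0))))))) (by decide +kernel)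
def c16803 : PP 8 4 T 0x20000000001000000000011000044054500000144010001000000000000000000820 := rS 0x5c8a98c2a7d3fada085f50a44c2012b2c4664259bc422d2 (k8 c16788 c16790 c12761 c16001 c15904 c2293 c622 c15503 (k8 c15891 c5402 c4328 c4329 c4382 c16799 c2125 c4313 (k4 c4409 c4308 c4407 c4353 (k2 c15473 c4628 k0)))) (by decide +kernel)
def c16804 : PP 8 4 T 0x1000000000000000000000100000004000000000005000140020000800 := rS 0x228b648a8550a71844e1a73179a436bd1985c847509994089501a651ef12d9b566a34fa4c3e070ca5cce5500824acb95a83c9a0d238d5a423 (k8 c16796 c16788 c16797 c16798 c16795 c16794 c305 c7513 (k8 c7514 c15503 c15502 c15891 c306 c13949 c11774 c7490 (k8 c83 c1065 c11351 c11776 c11410 c16001 c9753 c92 (k8 c12761 c15361 c15564 c791 c763 c4461 c11930 c530 (k8 c11468 c15904 c1951 c2293 c2014 c16011 c13396 c15900 (k8 c16802 c16803 c16800 c4469 c2006 c16801 c7768 c979 (k2 c2125 c4486 (k1 c4353 k0)))))))) (by decide +kernel)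
def c16805 : PP 8 4 T 0x1000000000000000000000000000080000000000001000000000100800 := rS 0x20a75 (k2 c96 c4408 (k1 c7079 k0)) (by decide +kernel)
def c16806 : PP 8 4 T 0x20000000001000000002011000000040100100000000000000000000140200000000 := rS 0x1438ab1976a151a7d22950144052561191c9227 (k8 c16791 c16793 c16798 c16796 c15503 c2776 c4468 c798 (k8 c15965 c886 c11776 c11410 c4329 c4945 c15709 c15693 (k2 c4391 c12809 k0))) (by decide +kernel)
def c16807 : PP 8 4 T 0x1210000000000000000000011400002011100050144004000000000000000004000800 := rS 0x41ae8e08e0b81d7a4240864acf12684496d2 (k8 c16788 c16789 c16790 c16794 c12761 c15503 c7490 c6395 (k8 c15904 c2014 c83 c1951 c4486 c15327 c971 c589 (k1 c4735 k0))) (by decide +kernel)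
def c16808 : PP 8 4 T 0x1000000000000000000000100000104010000000005000140000000800 := rS 0x5d64282290d6014138531922cd28144b4436178204c84f136985669f03ac52e6700ae56a914a8c55a2f31a1c327f3e9555710149cc2a02100743e092b12c8e0d6909c6a11 (k8 c16790 c16797 c16791 c16788 c16795 c16798 c16789 c15503 (k8 c15502 c1065 c16804 c4466 c798 c382 c16805 c2776 (k8 c4468 c4415 c306 c7516 c7517 c7490 c7313 c11648 (k8 c2777 c4554 c2245 c15965 c886 c7513 c7514 c15891 (k8 c13949 c11774 c622 c83 c11776 c16001 c5402 c9753 (k8 c12761 c15904 c570 c7079 c1951 c2290 c340 c4314 (k8 c6395 c13396 c14044 c15243 c15794 c337 c2109 c1956 (k4 c16806 c16807 c15693 c15643 (k2 c810 c7308 k0))))))))) (by decide +kernel)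
def c16809 : PP 8 4 T 0x200000000001000000000000000000000100000200000000000145000000200000010 := rS 0x260d6530bb053a1a62a6de2b3178a52a022b3447517 (k8 c4417 c4471 c3696 c15503 c798 c15965 c2776 c2777 (k8 c16001 c12761 c13624 c15020 c15549 c967 c1581 c170 (k4 c2382 c558 c15253 c1072 k0))) (by decide +kernel)
def c16810 : PP 8 4 T 0x1000000000000000000000000000000020000000000080000000005404000 := rS 0x272fd06bd42b481a4d (k8 c16794 c16795 c16788 c6224 c2014 c589 c1513 c6153 (k1 c339 k0)) (by decide +kernel)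
def c16811 : PP 8 4 T 0x1000000000000000000000100000004000010000005000140000000800 := rS 0x52d15044f54c346ea05ba3d4e71898c937083486c2e4268a2474128b9d0c710189142a654a8a45e91010144a200e83de26d30a8d3e930f81c32973395402092b2e56ad21391c6a23 (k8 c16796 c16797 c16798 c16791 c16788 c7513 c7514 c15503 (k8 c15502 c15891 c306 c13949 c11774 c7490 c83 c1065 (k8 c11351 c11776 c11410 c5402 c9753 c12761 c305 c16804 (k8 c4466 c313 c311 c798 c886 c2777 c2776 c15965 (k8 c9676 c382 c2406 c2245 c4468 c11648 c16808 c4417 (k8 c11468 c4471 c2546 c3696 c16809 c1951 c2290 c13396 (k8 c4465 c804 c16267 c15758 c16810 c902 c801 c1745 (k8 c2125 c9813 c4329 c7768 c338 c6153 c4452 c1937 (k1 c4490 k0))))))))) (by decide +kernel)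
def c16812 : PP 8 4 T 0x1000000000000000044044100000108000000000005000000000000800 := rS 0x821882a5c6443540b78a25572b57ea3cb65f48984025608b488e35 (k8 c16797 c16798 c16788 c16790 c15503 c15891 c5402 c1076 (k8 c1377 c92 c1346 c4378 c7513 c7514 c803 c11907 (k8 c4353 c2125 c4329 c11483 c9688 c630 c810 c7079 (k1 c4407 k0)))) (by decide +kernel)
def c16813 : PP 8 4 T 0x1000000000000000000000100000000000010000005000140000000800 := rS 0x1761aa04a98c74b78b9d1228f389b96ab92d985469f4987d2e672a8041256238d446d2 (k8 c16788 c16796 c16797 c16798 c15503 c15502 c15891 c306 (k8 c13949 c11774 c1065 c11351 c11776 c11410 c5402 c92 (k8 c7514 c7513 c16811 c94 c1346 c1076 c16812 c4417 (k8 c1745 c4471 c3520 c802 c2125 c4329 c810 c9688 k0)))) (by decide +kernel)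
def c16814 : PP 8 4 T 0x1000000000000000000000100000000000010000001000140000000800 := rS 0x421d1f25cce550087cac09 (k8 c15502 c15503 c1065 c15891 c306 c13949 c11774 c16813 (k2 c1179 c400 (k1 c4466 k0))) (by decide +kernel)
def c16815 : PP 8 4 T 0x2001000000000000000000400000000000000000400000000004001005000008 := rS 0x69188bda423 (k4 c16796 c16788 c8877 c228 (k2 c13396 c13625 k0)) (by decide +kernel)
def c16816 : PP 8 4 T 0x20000000000000000000011000044054500000014000010000080004000104000008 := rS 0x606b279e612187e4556cb12f8954ea148bc412561790632d2 (k8 c16788 c4446 c91 c8877 c15503 c15502 c12761 c4328 (k8 c4329 c4330 c4381 c4382 c1147 c2125 c4353 c4480 (k4 c16815 c4436 c1959 c15579 (k2 c5310 c13552 (k1 c229 k0))))) (by decide +kernel)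
def c16817 : PP 8 4 T 0x10000000001000000000015100020000100000100000001040000004100000000090 := rS 0x14c69188650e5160c58c4252e17dfac83f994e6f14a9c4de1517808841b599f4c2012b3481a35 (k8 c16797 c16795 c16788 c15503 c15891 c5402 c1625 c16001 (k8 c15469 c15549 c1018 c8877 c648 c1019 c496 c15518 (k8 c12761 c1022 c9676 c7517 c2121 c4305 c546 c7308 (k8 c225 c810 c7153 c4420 c1956 c9141 c7639 c228 (k2 c13396 c13552 (k1 c4532 k0)))))) (by decide +kernel)
def c16818 : PP 8 4 T 0x1000010005000000000150100000400000002000000004140024000018 := rS 0xc1a4609c89abd8b4a28bc5261f0499d364259ab45f0529a2ccaab880a40256 (k8 c15503 c15891 c1599 c4468 c4415 c1646 c1766 c9029 (k8 c4406 c8877 c4554 c16001 c15549 c2765 c2924 c15502 (k8 c1065 c11351 c12761 c1956 c4475 c4429 c4428 c15710 (k4 c15686 c2112 c15920 c228 (k1 c15630 k0))))) (by decide +kernel)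
def c16819 : PP 8 4 T 0x1000000000000000000110100000400000002000005004140024000018 := rS 0x1dc5d809761b4484b3 (k8 c16001 c15549 c340 c2055 c11783 c16818 c4420 c3541 (k1 c4471 k0)) (by decide +kernel)
def c16820 : PP 8 4 T 0x10000000001000000000011000044045100000100000001000000004100000000090 := rS 0xa027adc6f1458a551e1c2106cacb3 (k8 c16001 c15503 c15469 c15549 c1017 c12664 c15518 c1147 (k4 c4486 c4386 c4353 c338 (k2 c2125 c16817 k0))) (by decide +kernel)
def c16821 : PP 8 4 T 0x1000000000000000000000402000000000000000000080005401000000000 := rS 0x14e4f5fa7625195ec55a44d (k8 c16794 c16788 c4352 c2014 c4446 c4469 c4344 c1244 (k2 c339 c12709 (k1 c13552 k0))) (by decide +kernel)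
def c16822 : PP 8 4 T 0x1000000000000000000000100000000000010000001000140000000000 := rS 0x30694e44c60258aa40ab0d3b8cc849b17a3d6ab94b9bcea714c86d2a020e0147e210302d269f51acde25b0087cac09238d41a23 (k8 c16796 c16795 c16797 c16798 c15502 c15503 c1065 c15891 (k8 c92 c12761 c16001 c11410 c11776 c11351 c16814 c4462 (k8 c799 c11031 c526 c1017 c1018 c15518 c15469 c2997 (k8 c496 c499 c1019 c11783 c7514 c7513 c12664 c8877 (k8 c2765 c15549 c6257 c1887 c16816 c16819 c16820 c4352 (k4 c11879 c16821 c4441 c14397 (k2 c1879 c228 (k1 c15630 k0)))))))) (by decide +kernel)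
def c16823 : PP 8 4 T 0x2000000000000000000000000000000000008000080000000008000000 := rS 0x41900c02d2 (k4 c16788 c15891 c2290 c16011 (k2 c4461 c15547 k0)) (by decide +kernel)
def c16824 : PP 8 4 T 0x20000000002000000000440101101100104000200000001000000000040101004004 := rS 0xfe705c4116b438aaf12cfd5117d4e911f99c6283218703e094d96c340400959a423088344e49 (k8 c16793 c16791 c16795 c16790 c16796 c16788 c15503 c15891 (k8 c4461 c15545 c92 c6867 c15502 c1065 c4466 c16823 (k8 c638 c15508 c5084 c4288 c4328 c4330 c4382 c5243 (k8 c15827 c13534 c7138 c15685 c4393 c5129 c6868 c4793 (k2 c6133 c4313 (k1 c1473 k0)))))) (by decide +kernel)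
def c16825 : PP 8 4 T 0x10000000002000000000010100000000400000204001001000001000000020004000 := rS 0x50990bb155b2d686c83f84c2ac78b9f5a40d088e49235 (k8 c16797 c16793 c16792 c16790 c16795 c16788 c1691 c4417 (k8 c4289 c4284 c4401 c595 c15727 c4422 c1705 c7114 (k4 c4353 c4628 c7308 c15719 (k1 c15713 k0)))) (by decide +kernel)
def c16826 : PP 8 4 T 0x2010000000002000000000400101101500100410200000001000000000000020004000 := rS 0x50991905d3fa98e26100958261563b481a11 (k8 c16790 c16795 c16788 c4289 c4284 c4401 c15503 c15891 (k8 c5402 c4387 c15685 c594 c813 c15727 c7308 c15719 (k1 c15713 k0))) (by decide +kernel)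
def c16827 : PP 8 4 T 0x2000000000000000000000100000004000010000001000040000000804 := rS 0x326086588a812c5d48455710d43b0576bf4e98c8a8f54a9532794aa6c383302084b66d30944ce0103ac4ab091887c12833d83cfa7421868325659bc4920d0892c46d2 (k8 c16788 c16796 c16789 c16790 c16795 c16793 c12761 c663 (k8 c15503 c7490 c15545 c16823 c15904 c1691 c305 c703 (k8 c638 c15502 c1065 c15508 c4316 c306 c622 c83 (k8 c15891 c5084 c4405 c5402 c9753 c92 c16620 c4461 (k8 c15629 c4466 c6867 c15556 c15563 c6171 c5936 c6029 (k8 c15361 c15561 c1688 c15054 c7782 c6870 c6869 c1692 (k8 c16824 c16825 c16826 c4486 c4628 c1205 c1206 c4336 (k4 c15719 c4478 c7308 c15669 k0)))))))) (by decide +kernel)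
def c16828 : PP 8 4 T 0x2000000000010000004041100010000010000000001000041000004800 := rS 0x5144142954718e2ab62e2d686c83f96cc201098558eb12ac5e1a7421868325659bc47223248d5a411 (k8 c16790 c16788 c16797 c16793 c16796 c16792 c12761 c663 (k8 c15503 c7490 c15545 c16823 c15904 c13534 c4417 c306 (k8 c622 c4289 c4284 c4401 c15891 c5402 c92 c595 (k8 c15727 c4422 c1705 c7308 c7114 c4353 c3674 c4486 (k4 c802 c810 c11025 c9933 (k1 c4337 k0)))))) (by decide +kernel)
def c16829 : PP 8 4 T 0x20000000000800000000000008000000000000000000000 := rS 0xb870 (k2 c801 c800 (k1 c3447 k0)) (by decide +kernel)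
def c16830 : PP 8 4 T 0x100000004000010000001000140000000800 := rS 0x2be228a5121142a852971907f38c511eb84f9961a9956a9e26bf4da75226b4b9a06425228805e05011f41e1f0498402130a8a58e072ac5d26742186832e459bc4b656690444e35 (k8 c16797 c16791 c16790 c16788 c15503 c92 c12761 c663 (k8 c16822 c7490 c15545 c16823 c15904 c1657 c4417 c306 (k8 c83 c4289 c4402 c4284 c4401 c15891 c5402 c15502 (k8 c1065 c305 c1691 c16827 c55 c8877 c12975 c2406 (k8 c2243 c422 c423 c9886 c558 c886 c967 c13624 (k8 c6330 c4340 c902 c942 c1881 c13534 c7044 c15559 (k8 c16828 c16829 c4486 c4387 c594 c15727 c7308 c1342 (k8 c15685 c7768 c827 c15687 c716 c4337 c2820 c5443 k0)))))))) (by decide +kernel)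
def c16831 : PP 8 4 T 0x100004008000010000040000000008000044 := rS 0x85532fd769d22aa54a993c870660410bc4b66d848c43e097ea44c2012b2f506231a92c22d2 (k8 c16788 c16790 c16789 c16797 c16796 c638 c1080 c15503 (k8 c15891 c5402 c1076 c4378 c15502 c1065 c15508 c4316 (k8 c9753 c92 c12761 c16620 c4461 c15629 c4466 c15563 (k8 c6171 c5936 c6029 c15561 c15054 c1350 c6330 c7138 (k2 c1499 c5558 k0))))) (by decide +kernel)
def c16832 : PP 8 4 T 0x100000000000010000001000140000000800 := rS 0x2a10aa54ca9e26bf4da74d032228805e025ea44be8f7e9b8f64341c24341903bc4b66d30804ace4138d422d2 (k8 c16788 c16790 c16797 c16791 c16822 c15503 c15891 c5402 (k8 c9753 c92 c12761 c83 c7490 c15545 c4316 c638 (k8 c16823 c703 c16830 c4378 c1346 c1377 c1076 c1080 (k8 c16831 c8877 c12975 c2406 c422 c423 c967 c13624 (k8 c6330 c4340 c902 c1881 c1883 c1499 c15763 c5323 k0))))) (by decide +kernel)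
def c16833 : PP 8 4 T 0x1002000000000000000000100000000000000008000001002000162000018 := rS 0x1864343274ee4134c4cda531d8fc52d2 (k8 c16788 c4402 c4288 c4403 c4290 c9753 c4441 c1879 (k4 c1912 c11833 c15630 c6832 (k2 c14397 c1906 (k1 c15762 k0)))) (by decide +kernel)
def c16834 : PP 8 4 T 0x844000000000004000040010500000005550002000000 := rS 0x1a2ad459960a89 (k4 c15893 c4312 c552 c722 (k2 c4903 c261 (k1 c2112 k0))) (by decide +kernel)
def c16835 : PP 8 4 T 0x100000000000010000001000140000000000 := rS 0x1de3242599ed3b1257aac62333cc24302f4c86c041c028840c0b338a4a2537207c026d2b025e2d2 (k8 c16788 c12761 c15502 c15503 c9753 c15891 c1065 c16822 (k8 c4290 c4405 c4402 c5084 c16832 c4462 c799 c526 (k8 c1017 c1018 c15469 c2997 c8877 c15545 c4436 c1959 (k8 c255 c16833 c14076 c5815 c4469 c4344 c1226 c16834 (k4 c15549 c4446 c1887 c4482 k0))))) (by decide +kernel)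
def c16836 : PP 8 4 T 0x1000000000000000000000000200000000000000000140042000000000000 := rS 0x17a4f539043aa95fb489a35 (k8 c16797 c16794 c16788 c6330 c1507 c1027 c1913 c2006 (k2 c299 c1120 (k1 c6022 k0))) (by decide +kernel)
def c16837 : PP 8 4 T 0x1001000000000000004000040000000100054000000051005000005640800 := rS 0x24a209582b0c7e09599e50f084db163045 (k8 c438 c4472 c4370 c4448 c4465 c4440 c14867 c663 (k8 c84 c399 c9009 c14143 c5073 c4478 c15039 c4413 k0)) (by decide +kernel)
def c16838 : PP 8 4 T 0x1001000000000000000000040200000000010014000041000040004000800 := rS 0x3a220291820aac626b439e610693ba2c8a09339546e333186442133d85c080300874b435 (k8 c16797 c4476 c1027 c567 c303 c4461 c2552 c2688 (k8 c2551 c16620 c15523 c12307 c16320 c1384 c306 c13949 (k8 c84 c438 c13509 c6033 c13396 c4465 c14867 c4440 (k8 c580 c16836 c14076 c14193 c4472 c14170 c15824 c16837 (k1 c596 k0))))) (by decide +kernel)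
def c16839 : PP 8 4 T 0x1000000000000000000000000200000000000000000040042000000000800 := rS 0x45 (k2 c2235 c16836 k0) (by decide +kernel)
def c16840 : PP 8 4 T 0x1001000000000000054001144000000000000000000155000000080000000 := rS 0x8b25076c3 (k4 c9009 c1101 c14146 c4471 (k1 c4418 k0)) (by decide +kernel)
def c16841 : PP 8 4 T 0x1001000000000000004001008000000001454000000051000040080040820 := rS 0x1040a4452a09 (k4 c84 c102 c4413 c14144 (k2 c4478 c4308 k0)) (by decide +kernel)
def c16842 : PP 8 4 T 0x1001000000000105005101040000000001055180000045040040088004820 := rS 0x178e2a767c51985365b4296448ca215b050a1f52ac68b2e412b341abd33121da4c8269849ac26352491c7211 (k8 c16790 c16792 c16798 c16793 c16797 c2551 c2559 c4316 (k8 c15527 c7115 c16841 c1101 c4479 c4443 c4346 c638 (k8 c663 c84 c7514 c4471 c2113 c4418 c1351 c14144 (k8 c4308 c6230 c16190 c15766 c16840 c4457 c679 c2024 (k8 c2387 c461 c15697 c1520 c2066 c4387 c8425 c576 k0))))) (by decide +kernel)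
def c16843 : PP 8 4 T 0x1001000000000000000044000200000000010014000041000040000000800 := rS 0x7d2f9c628a163339727f292290ecd60ab49d185fc15124568850e9171f0ed6e935ea655f125da74daa952aac6241349ae121a4bad412672a8dc3c330798c322109810065a64984021d86975a4351c9349623 (k8 c16796 c16789 c16794 c16792 c16797 c16788 c1338 c4383 (k8 c1027 c567 c5402 c7308 c4476 c303 c4461 c2551 (k8 c16620 c15523 c12307 c16035 c16320 c4466 c1384 c306 (k8 c13949 c84 c1387 c1198 c16838 c4316 c2559 c15527 (k8 c7115 c16839 c14076 c5936 c6029 c7462 c1233 c1389 (k8 c4479 c4346 c4443 c1119 c16841 c1117 c1101 c16842 (k8 c4356 c399 c398 c2426 c15765 c2578 c4308 c6330 (k8 c4472 c2114 c4903 c4450 c1480 c1692 c2120 c719 (k8 c725 c13438 c421 c420 c1794 c7557 c4387 c576 (k2 c1690 c2118 k0)))))))))) (by decide +kernel)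
def c16844 : PP 8 4 T 0x1001000000000000000044000200000000010014000001000040000000800 := rS 0x1fa6b34a14da7127a68601b211846e1e0786442170200c021d2d3481a35 (k8 c16797 c16795 c16788 c4476 c1027 c567 c303 c4461 (k8 c2552 c16620 c15523 c16035 c4466 c1384 c5402 c16843 (k8 c2208 c276 c277 c338 c16810 c694 c6224 c13396 (k2 c1969 c15682 (k1 c15573 k0))))) (by decide +kernel)
def c16845 : PP 8 4 T 0x2000000000000000000000000200004001001014000040042000081000000 := rS 0x857e1c550be8caf5767734a9d371386a3c9e4122a743ad21a8e49a4b (k8 c16789 c16794 c16792 c16797 c16788 c1027 c10547 c4296 (k8 c4433 c4297 c100 c4383 c4441 c1966 c2006 c1878 (k8 c7751 c1390 c1120 c15644 c2114 c4566 c3482 c15573 (k2 c13580 c15570 k0)))) (by decide +kernel)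
def c16846 : PP 8 4 T 0x2001000000000000000001204400000000000000000045040000080000000 := rS 0x19b45a5af8a4bd628ec9e456894582c320a6e26d2 (k8 c16788 c4443 c104 c4433 c9009 c12762 c4435 c4298 (k8 c4296 c4297 c1101 c7718 c12763 c2115 c5504 c4456 (k2 c4399 c7983 (k1 c7719 k0)))) (by decide +kernel)
def c16847 : PP 8 4 T 0x2001000000100000010044200200000001054091000045040100080004020 := rS 0x2f188a05750ca4c60a9f5127f82445248734c4e1a8f0985c364f20915a2514e874924b1cb482235 (k8 c16797 c16790 c16788 c16792 c16789 c16793 c1027 c10547 (k8 c4435 c4298 c4296 c4433 c4297 c4292 c2552 c2551 (k8 c100 c4383 c4443 c1881 c10041 c16846 c4413 c4478 (k8 c6629 c4794 c4409 c4308 c15727 c15831 c4391 c4179 (k4 c4489 c1778 c15770 c3130 k0))))) (by decide +kernel)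
def c16848 : PP 8 4 T 0x400000000000000000002000000004000804000000000000000000000000000045400000000000000 := rS 0x28a4d (k2 c16794 c4399 (k1 c16756 k0)) (by decide +kernel)
def c16849 : PP 8 4 T 0x80100000000200004000000000000000000000005400800 := rS 0x201348352134224b (k8 c16789 c16790 c16794 c1389 c1977 c1390 c4735 c15528 k0) (by decide +kernel)
def c16850 : PP 8 4 T 0x2000000000000811000000004200000000000000000045040000080000000 := rS 0x19f43630ed6e4f1a9248e39 (k8 c16792 c16798 c16793 c16797 c4297 c1117 c1101 c2113 (k2 c4391 c1519 (k1 c16848 k0))) (by decide +kernel)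
def c16851 : PP 8 4 T 0x1000000000000000000000000000000000014000045000140000000800 := rS 0x34a2ca677652da86c60a9f50e7f8244524af5f1ad7aa94cae56a672a8dc3c0f31b24c30d2e93c82454e9b55a2f55945761b78194269f5185cf6040c884065a00875628c26b4822351c92c4647 (k8 c16798 c16796 c16789 c16792 c16797 c16790 c16788 c16794 (k8 c16835 c1115 c1027 c567 c4476 c303 c16620 c15523 (k8 c4461 c2688 c2552 c11410 c11776 c2551 c7854 c16844 (k8 c4292 c16849 c4435 c14464 c4432 c4554 c5028 c10547 (k8 c4296 c4433 c4297 c1338 c4383 c5402 c7308 c12307 (k8 c16035 c4466 c1384 c306 c13949 c1387 c7514 c16847 (k8 c1508 c1119 c581 c2114 c9441 c16850 c4413 c4478 (k8 c6629 c4410 c4409 c4308 c15727 c4391 c7994 c1247 (k4 c3095 c2022 c1752 c845 (k1 c15859 k0)))))))))) (by decide +kernel)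
def c16852 : PP 8 4 T 0x400000002000000000000200000000000200000400100080000000001000001404001 := rS 0x5e413f50aa940a957e910d93cdad20892c9a0d (k8 c16795 c16794 c16789 c16790 c16788 c5028 c4297 c4292 (k8 c129 c194 c1939 c1898 c1507 c10079 c15570 c2108 (k2 c11325 c2555 k0))) (by decide +kernel)
def c16853 : PP 8 4 T 0x4000000000000000000000000402044000200010040055180000000000000000000000 := rS 0xfe5f38a85930d (k4 c4383 c7308 c7768 c3482 (k2 c576 c10049 (k1 c2118 k0))) (by decide +kernel)
def c16854 : PP 8 4 T 0x2000000000000040001000200200000000000014000040041000001404001 := rS 0x178775f9a6265a279048a6d1a8e49a4b (k8 c16789 c16794 c16792 c16797 c5028 c4296 c4433 c4297 (k4 c4476 c4443 c1881 c1134 (k2 c7751 c2114 (k1 c16852 k0)))) (by decide +kernel)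
def c16855 : PP 8 4 T 0x10000000000000000000800000000000000004801000104000000000000000000000 := rS 0x5e389b90879 (k4 c98 c1094 c1093 c1514 (k2 c15658 c1378 k0)) (by decide +kernel)
def c16856 : PP 8 4 T 0x2000000000000800000000000001000000001014000000000000001000000 := rS 0x1c5fad2 (k4 c16788 c15570 c1513 c15573 k0) (by decide +kernel)
def c16857 : PP 8 4 T 0x1000000000000000000000000000000000014000041000140000000800 := rS 0x110694221ceeaf5f464d6bd4caa5167d0a1d0e7171f0c61a5d5a82566672a9846e1e0798c9e4122a74daad17aaca2bb0dbc0ca134fa8c2e7b0206442032d0043ab1460d4724d25b484647 (k8 c16798 c16796 c16788 c16789 c16794 c16792 c16797 c16835 (k8 c1115 c1027 c567 c4476 c303 c16620 c15523 c4461 (k8 c2688 c2552 c11410 c11776 c2551 c7854 c16844 c4292 (k8 c16849 c4435 c14464 c4432 c4554 c5028 c10547 c4296 (k8 c4433 c4297 c12307 c16035 c4466 c1384 c5402 c306 (k8 c13949 c663 c84 c1387 c1338 c4383 c16845 c16851 (k8 c4356 c1081 c399 c398 c1690 c718 c16853 c16854 (k8 c1119 c581 c5090 c2114 c13327 c16855 c1693 c16856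 (k2 c845 c2120 (k1 c2580 k0)))))))))) (by decide +kernel)
def c16858 : PP 8 4 T 0x1000000000000000000000000000000000014000001000140000000800 := rS 0x20d0344842154a6b54a9e26694d0c232425d9b53a4f0dbc0ca173d84c320f0f01042032d4351eb151a7c021d46044964d068d48e23 (k8 c16796 c16798 c16797 c16795 c16794 c16789 c16790 c16835 (k8 c1027 c567 c11776 c11410 c1115 c100 c4383 c4476 (k8 c303 c16620 c4461 c4466 c16035 c15523 c2551 c2688 (k8 c2552 c7854 c16844 c4292 c4297 c10547 c5028 c16849 (k8 c16857 c4446 c276 c277 c15551 c4441 c2006 c866 (k8 c1969 c1970 c10079 c4479 c4490 c4439 c4452 c2108 k0)))))) (by decide +kernel)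
def c16859 : PP 8 4 T 0x1000000000000000000000200000000000000008000000000000200000800 := rS 0x68ec091886404d2 (k8 c16788 c798 c7490 c228 c84 c1071 c6033 c15603 k0) (by decide +kernel)
def c16860 : PP 8 4 T 0x1001000000000000014001500000000101050000000005001510005100800 := rS 0x61c60a71345c10641343954ee09 (k8 c84 c6033 c306 c7313 c570 c15243 c7079 c5853 (k4 c4340 c416 c4488 c15480 (k1 c15639 k0))) (by decide +kernel)
def c16861 : PP 8 4 T 0x1001000000000000000001110000000001050000000145001550005100800 := rS 0x2307889858a68b62b05a2891d04a2e7434ab4c6872aaae209b (k8 c13624 c4468 c4415 c306 c7313 c11648 c4554 c13396 (k8 c16860 c4417 c11468 c4471 c2546 c3696 c1581 c15020 (k4 c14044 c15794 c15253 c15796 (k2 c572 c4488 (k1 c4447 k0))))) (by decide +kernel)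
def c16862 : PP 8 4 T 0x1001000000000100000000040000400008050008000041040140200004800 := rS 0x182c5202be26c3279a064538486932855fa6cdafd1fa55261f048c43245568bcc61501155571014a75a435 (k8 c16797 c16788 c967 c2776 c4468 c4415 c306 c798 (k8 c382 c11648 c2777 c4554 c2406 c7490 c228 c84 (k8 c1065 c11351 c15965 c400 c4378 c9753 c13624 c6330 (k8 c1499 c16859 c16861 c4316 c2382 c422 c423 c6655 (k4 c15480 c4340 c828 c6022 (k2 c7718 c1853 (k1 c2127 k0))))))) (by decide +kernel)
def c16863 : PP 8 4 T 0x10000000001000000000140001000040000400008050008000041040140200004800 := rS 0x33e86a063b355f455f52d964127bc13aa34f89452310c91404b91fab45e232389c924d1a8e496d2 (k8 c16788 c16789 c16792 c16797 c16794 c16793 c16791 c16798 (k8 c16796 c2777 c4554 c400 c7514 c798 c2406 c7490 (k8 c228 c2776 c312 c11776 c11410 c967 c16862 c4297 (k8 c4433 c11546 c15673 c2114 c4399 c9441 c1485 c11601 (k4 c2110 c4423 c1794 c4495 k0))))) (by decide +kernel)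
def c16864 : PP 8 4 T 0x1000000000000000000000000000000000010000001000140000000800 := rS 0xf309402149e1b3b85c84654181576a91b83c32205e9ecdc5e2d958c267009541207868752e9f46044964d06b488e35 (k8 c16797 c16798 c16788 c16795 c16794 c16789 c16790 c16835 (k8 c11776 c1198 c1027 c4383 c83 c84 c306 c567 (k8 c13949 c5402 c16858 c92 c1068 c1067 c3244 c3066 (k8 c16128 c7490 c6403 c3359 c3479 c3361 c311 c15529 (k8 c9676 c16863 c1951 c1886 c335 c338 c1500 c2108 (k2 c4439 c1962 (k1 c10207 k0))))))) (by decide +kernel)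
def c16865 : PP 8 4 T 0x1000000000000000000000200200000000000000000050044000000000000 := rS 0x188bc8b13 (k4 c4443 c1130 c1840 c16836 (k1 c4469 k0)) (by decide +kernel)
def c16866 : PP 8 4 T 0x1000000000000000000001000200000000000000000040042000000000000 := rS 0x45 (k2 c297 c16836 k0) (by decide +kernel)
def c16867 : PP 8 4 T 0x8400000001001000000010000400001400004000001510005000000005000080100002 := rS 0x45c145d08 (k4 c4479 c4469 c15760 c4322 (k1 c13179 k0)) (by decide +kernel)
def c16868 : PP 8 4 T 0x1001000000000000000000000000000000000014000145000140101000000 := rS 0x44542af8921e86952ab1a2cc35cc3546975aa7d661532add266b55aed4a31349b57ec51da6d827f303f57a9919a750a798c1ecee410d9c4be37338783a8c0400006052d02c724b1a935a4492389c1a23 (k8 c16796 c16795 c16791 c16798 c16793 c16788 c16794 c16797 (k8 c16789 c16792 c16864 c4476 c574 c838 c4461 c12637 (k8 c16835 c1027 c4466 c15645 c1384 c9119 c1385 c15894 (k8 c15539 c9124 c1225 c4472 c4447 c6224 c15543 c13131 (k8 c16865 c1119 c15660 c15573 c672 c4450 c4448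 c15650 (k8 c4530 c6330 c5889 c13396 c16866 c5936 c1389 c14076 (k8 c581 c9125 c1117 c491 c15621 c16243 c11776 c1387 (k8 c1198 c11410 c4383 c7514 c9009 c4471 c2113 c12765 (k8 c4418 c4391 c7313 c16867 c4346 c13762 c15714 c4489 k0))))))))) (by decide +kernel)
def c16869 : PP 8 4 T 0x1001000000000000000000000000000000000014000141000140101000000 := rS 0x8b31a1d12ad39b44ab171f304f29b8c25d3eb320854ca931d99d56311b8cd3a080f075180001814d21b2d02c6a47 (k8 c16798 c16797 c16864 c4476 c15894 c13396 c574 c838 (k8 c4461 c16835 c1027 c4466 c12637 c15543 c13131 c1384 (k8 c16866 c14076 c15645 c15650 c9125 c491 c15621 c15539 (k8 c16243 c11776 c1198 c4472 c4448 c4447 c4450 c16868 (k8 c4356 c8954 c458 c1082 c13185 c7172 c7043 c755 (k2 c14044 c8137 k0)))))) (by decide +kernel)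
def c16870 : PP 8 4 T 0x10000000000001000000000000004001110044000001514001400000000140000100000 := rS 0x26e26ae (k4 c15859 c15796 c868 c4488 k0) (by decide +kernel)
def c16871 : PP 8 4 T 0x1001000000000000000000000000000000000014000041000140101000000 := rS 0x7e9841c7e2a21cc6c14aa2d8d163a94d723f8c910da77349ee1a5d5aa7c365f0a9956e931d99cd69920aac623719a74101e0ea3000030296816352491c7227 (k8 c16791 c16792 c16798 c16793 c16797 c16864 c4476 c574 (k8 c838 c4461 c16835 c1027 c4466 c12637 c15543 c13131 (k8 c1384 c16866 c14076 c15539 c16865 c581 c15645 c15650 (k8 c9125 c1117 c491 c15621 c9119 c15894 c11776 c1387 (k8 c1338 c4383 c1225 c13396 c9124 c5889 c16869 c4364 (k8 c13568 c7328 c418 c11627 c4471 c2113 c4632 c4418 (k8 c4420 c842 c10171 c16870 c251 c250 c672 c4376 (k1 c4477 k0)))))))) (by decide +kernel)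
def c16872 : PP 8 4 T 0x1001000000000000000000000000000000000014000041000140100000000 := rS 0x185fa840713a12173686062bd4c9c4665f20a74001e018dc3a8c0406c0a5a05b484e35 (k8 c16797 c16791 c16788 c16864 c4476 c574 c15894 c12637 (k8 c16835 c1027 c1384 c838 c4466 c4461 c15543 c15539 (k8 c9119 c13131 c1385 c16865 c1119 c16866 c16871 c5814 (k8 c35 c4436 c13821 c4501 c259 c4376 c712 c15573 k0)))) (by decide +kernel)
def c16873 : PP 8 4 T 0x1001000000000000014044214200000001100004000145001101040000200 := rS 0xa5a2b309cc365b3d7a4129a9ceec1628ca270d5a8dd72b75daa57e351c9349627 (k8 c16791 c16789 c16794 c16792 c16797 c6330 c1507 c6870 (k8 c1117 c7514 c1383 c1387 c4383 c4443 c6171 c1135 (k8 c1933 c7751 c902 c416 c1063 c1120 c6873 c5517 (k4 c15480 c2114 c2129 c4396 (k2 c1399 c5541 k0))))) (by decide +kernel)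
def c16874 : PP 8 4 T 0x1000000000000000000000000000001100004000021000140200000600 := rS 0x61c4a125360b14f2760b1ed261f17a54043f (k8 c400 c12555 c11624 c8877 c86 c11351 c12934 c1064 (k8 c1063 c1847 c3060 c1853 c3935 c4438 c7751 c15480 (k1 c13000 k0))) (by decide +kernel)
def c16875 : PP 8 4 T 0x1001000000000000014044014200000001100004000155001501040000200 := rS 0x14c3252d1626c1274617a9954aed7f0d4b8dd86271a8e49a4b (k8 c16789 c16794 c16792 c16797 c16791 c9009 c1383 c1198 (k8 c4383 c6330 c6870 c1507 c16873 c1119 c4472 c2114 (k4 c4450 c15688 c4396 c1399 (k2 c4469 c4490 (k1 c902 k0))))) (by decide +kernel)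
def c16876 : PP 8 4 T 0x15000000000000000000000002000005040000000004040 := rS 0x18e3b1a9248e39 (k4 c16792 c16798 c16793 c16797 (k2 c1601 c250 (k1 c2113 k0))) (by decide +kernel)
def c16877 : PP 8 4 T 0x1001000000000000004000000200000000414005000041000140205000600 := rS 0x22d32538c910ee41439a4daa34f8c4f6250aa75261f4a9d47ead178088e23 (k8 c16796 c16798 c12555 c8877 c4554 c400 c11627 c11624 (k8 c86 c11351 c967 c2349 c2142 c12934 c2144 c11776 (k8 c11410 c959 c13396 c7313 c16874 c9124 c16875 c4364 (k4 c2388 c1129 c4632 c16870 k0)))) (by decide +kernel)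
def c16878 : PP 8 4 T 0x1001000000000000000000000000000000000014000041000140000000000 := rS 0x1b14c695e26c9e4520860aaab8818d5a0f5bae46e6b14a545e6132a4c7e2518808021f10434baa35aa7d181b03820b40b690d48e23 (k8 c16796 c16798 c16797 c16788 c16864 c4476 c12637 c30 (k8 c15894 c16835 c11776 c1387 c11410 c1338 c4383 c16872 (k8 c86 c9668 c12555 c2144 c2142 c400 c11351 c16476 (k8 c5402 c8877 c11624 c2834 c6117 c1383 c7514 c1117 (k8 c4046 c4554 c842 c4468 c4415 c16876 c16877 c1873 (k8 c2178 c258 c13624 c6022 c844 c1120 c16875 c904 k0)))))) (by decide +kernel)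
def c16879 : PP 8 4 T 0x2001000000000001100000004200004010000000000045040000081000000 := rS 0xdefd89a1548ba8aaf57e995ca3c9e4122a743ad21a8e49a4b (k8 c16789 c16794 c16792 c16797 c16788 c1027 c10547 c4296 (k8 c4433 c4297 c100 c7514 c16846 c16850 c1119 c15612 (k4 c2114 c1389 c1442 c4444 (k2 c15570 c12764 (k1 c4480 k0))))) (by decide +kernel)
def c16880 : PP 8 4 T 0x10000002000000000000000100001201400000001000004000040000000000000402 := rS 0x6f8aafd52603bc4d366917b486a4d (k8 c16794 c16797 c16788 c4432 c756 c104 c4443 c7751 (k4 c11821 c976 c1134 c15612 (k2 c11572 c9302 k0))) (by decide +kernel)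
def c16881 : PP 8 4 T 0x2000000000001001114000000214004001050104000048040000000000402 := rS 0x2f8ecbb4530a96af8caf5330d47a449e414e8762ec52298caa351c93496d2 (k8 c16788 c16789 c16794 c16792 c16797 c8954 c755 c4296 (k8 c1248 c4356 c1027 c10547 c4433 c4297 c129 c100 (k8 c4383 c16880 c1119 c5090 c13327 c15812 c4494 c8142 (k4 c2061 c7804 c2114 c16855 k0)))) (by decide +kernel)
def c16882 : PP 8 4 T 0x4401000002000000000000000400444600200015040054180000040040000080000000 := rS 0x60422a0ecbe8caf61a8f4e875a435 (k8 c16797 c16788 c1027 c10547 c100 c4383 c1120 c15644 (k4 c5504 c4482 c1134 c1094 (k2 c16853 c713 k0))) (by decide +kernel)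
def c16883 : PP 8 4 T 0x4000000002000000000000000500044200200014052054180000040040000080000000 := rS 0xfd41af0c0a95344e129b3ca743a35 (k8 c16797 c1027 c10547 c601 c865 c4318 c4342 c16882 (k4 c191 c904 c2010 c641 (k2 c4302 c6133 k0))) (by decide +kernel)
def c16884 : PP 8 4 T 0x2001000000000000114044000200000000050184000048040000080100402 := rS 0x8c2f5329b899b18287449f4c6732ac5d6ab328a743a7b229a45e6b0b9c4be086911c4e35 (k8 c16797 c16791 c16798 c16788 c12637 c9119 c1385 c4431 (k8 c492 c4432 c756 c4296 c1224 c1027 c10547 c4435 (k8 c16243 c1387 c4356 c8954 c1082 c755 c7516 c7030 (k8 c9141 c14373 c16881 c4342 c865 c16883 c1119 c4488 (k1 c5090 k0))))) (by decide +kernel)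
def c16885 : PP 8 4 T 0x1000000000000000000000000000000000014000041000140100000000 := rS 0x3b2ea32bd0c2fd32b91fa4ce23b359942a5f338003c031ba3cbab151ad53e050b93c829d0ea315a2f3d914105a05aaca2f01a8e49a4b6909c8e23 (k8 c16796 c16798 c16791 c16788 c16789 c16794 c16792 c16797 (k8 c16878 c4435 c14464 c16864 c4476 c12637 c4296 c1224 (k8 c4432 c4554 c16835 c1027 c10547 c4433 c4297 c4431 (k8 c574 c11776 c1387 c11410 c1115 c1338 c100 c1384 (k8 c838 c4466 c4461 c15645 c9119 c15621 c491 c492 (k8 c15650 c1385 c9125 c16884 c7514 c16846 c16850 c16879 (k4 c1119 c5090 c2114 c4152 (k1 c1891 k0)))))))) (by decide +kernel)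
def c16886 : PP 8 4 T 0x2000000000000000002004000000000000000000000000001151200000000 := rS 0xa123924464d (k4 c16794 c16796 c16793 c16798 (k2 c7768 c15844 k0)) (by decide +kernel)
def c16887 : PP 8 4 T 0x2000000000000000001000200200000000000014000040041000001004001 := rS 0x2ed1e17 (k4 c4431 c100 c1931 c16854 k0) (by decide +kernel)
def c16888 : PP 8 4 T 0x10400000000000000000000000014001110010000001554000000000000000000000000 := rS 0x134ae (k2 c12794 c4488 (k1 c868 k0)) (by decide +kernel)
def c16889 : PP 8 4 T 0x2000000000000000014000110214004101554104000040040140000000000 := rS 0x5f1d9768a52abe250d279048a9d0ec657a351c93496d2 (k8 c16788 c16789 c16794 c16792 c16797 c1119 c5090 c1027 (k8 c10547 c4296 c4433 c4297 c4383 c16888 c4346 c4444 (k4 c16663 c1389 c4632 c2114 (k1 c16855 k0)))) (by decide +kernel)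
def c16890 : PP 8 4 T 0x2000000000000000014000110214004101050184000040040140000000000 := rS 0xbb5fa953476341ad7b0d279048a631a8e49a4b (k8 c16789 c16794 c16792 c16797 c842 c4296 c4433 c4297 (k8 c4383 c1119 c581 c16889 c845 c844 c3800 c16855 (k2 c1389 c2114 k0))) (by decide +kernel)
def c16891 : PP 8 4 T 0x1000000000000000000000000000000000014000041000140000000000 := rS 0xc1a6269854a1d125507adceab91b8a52a6736984ca930a8fc4a31010043e20559ed5a512285c5ef0869756a9f4601c105a058d5a447 (k8 c16798 c16788 c16797 c16864 c4476 c12637 c30 c16835 (k8 c11776 c1387 c1338 c4383 c16878 c4432 c4431 c4296 (k8 c4435 c4554 c1224 c14464 c16885 c86 c9668 c12555 (k8 c2144 c2142 c400 c2349 c11351 c16476 c5402 c5028 (k8 c918 c11624 c2834 c1383 c7514 c11627 c1117 c4046 (k8 c16876 c7030 c9141 c16886 c16890 c4443 c1881 c16887 (k1 c10711 k0))))))) (by decide +kernel)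
def c16892 : PP 8 4 T 0x1000000000000000000000000000000000014000001000140000000000 := rS 0x738b84981054322d56af31954eab91bc48da9507add3a3f128c4046132a4c406b00ab43e994499cd27b179e030153b8ce3245212cc0e050416a1a1d2ead53e8c058d5a447 (k8 c16798 c16788 c16797 c16864 c16835 c11776 c1387 c1338 (k8 c1027 c4383 c4476 c12637 c574 c30 c16243 c16891 (k8 c175 c4446 c2151 c1887 c2351 c236 c237 c1953 (k8 c1224 c845 c4555 c15893 c3841 c8961 c4554 c15624 (k8 c581 c4466 c11351 c16476 c5402 c4461 c229 c2142 (k8 c400 c966 c1117 c4046 c11624 c958 c15678 c1383 (k8 c7514 c11627 c16876 c842 c4346 c4445 c4632 c2120 (k4 c4410 c1964 c4464 c4420 (k2 c3508 c4481 k0))))))))) (by decide +kernel)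
def c16893 : PP 8 4 T 0x1001000000004000400000000200004140000001000110040000001100220 := rS 0xee318c06c8687 (k4 c7313 c236 c424 c4472 (k2 c16836 c9124 (k1 c14042 k0))) (by decide +kernel)
def c16894 : PP 8 4 T 0x1000000000000000001000000000000001000800000000002000001004001 := rS 0x2089ea70b86da44d (k8 c16794 c16788 c295 c1911 c2006 c299 c6153 c549 k0) (by decide +kernel)
def c16895 : PP 8 4 T 0x1001000004180010000000000080400008000000000000000000001144020 := rS 0x85272fd96d0a5c25fb43 (k8 c4391 c4378 c4322 c4427 c13932 c1752 c9033 c460 (k2 c1499 c6655 k0)) (by decide +kernel)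
def c16896 : PP 8 4 T 0x800000001001000000005000000001150000000140200008400000400140100000220 := rS 0x222c53b26cf21a2d8655ed2 (k8 c16788 c4346 c7626 c92 c13396 c7106 c6867 c425 (k2 c1095 c15686 (k1 c15845 k0))) (by decide +kernel)
def c16897 : PP 8 4 T 0x10000000001001000000080010004001110000000009514800400000000140001104020 := rS 0x2299213439559e83 (k8 c548 c1520 c266 c7313 c530 c546 c16870 c16895 k0) (by decide +kernel)
def c16898 : PP 8 4 T 0x1001000000000000000000000200000000000008000005000140000000404 := rS 0xa34b622b5a22809444c89b3485cd71229c6488c1319cd8d16619d42ab94bad53e7b59add263b4a95532411b90d3a1e108755631078641007549b8bc6d1981002352491c72d2 (k8 c16788 c16792 c16798 c16793 c16797 c15891 c4461 c6309 (k8 c9753 c1068 c1067 c3479 c2995 c4462 c7626 c1376 (k8 c16894 c14076 c1027 c799 c4466 c1233 c236 c3359 (k8 c3063 c16865 c266 c13478 c3062 c9125 c3065 c3201 (k8 c3244 c11776 c1387 c1198 c7514 c7508 c11627 c9009 (k8 c4471 c2113 c13487 c12253 c4420 c16893 c4364 c418 (k8 c13249 c4442 c532 c16896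 c804 c16897 c4412 c7854 (k4 c4468 c1759 c781 c15633 (k2 c4429 c7131 (k1 c4475 k0)))))))))) (by decide +kernel)
def c16899 : PP 8 4 T 0x1001000000000000000000114000000000000008000108005040080000220 := rS 0x844482e2f60a6cee6945b458b180d8ec82430ca762ed2 (k8 c16788 c4356 c1233 c7626 c236 c3063 c3062 c424 (k8 c4472 c4530 c458 c13509 c13396 c9124 c4448 c4450 (k4 c13717 c533 c4469 c4465 (k1 c13711 k0)))) (by decide +kernel)
def c16900 : PP 8 4 T 0x1001000000020000010001004000010008001000000008005000001644200 := rS 0x3fb199c4e4286c5e51291de96fd82b44220d2588c4e4d (k8 c16794 c16791 c16796 c16789 c16795 c16790 c2423 c4308 (k8 c4378 c4429 c3096 c1249 c7131 c7984 c425 c1500 (k4 c14506 c421 c420 c1521 (k1 c7317 k0)))) (by decide +kernel)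
def c16901 : PP 8 4 T 0x1001000000000000404001554000010008041000000208005000001644200 := rS 0x868406d80c5619c9a2ad8845d5f19 (k8 c4364 c13327 c4356 c4487 c4338 c2423 c385 c1210 (k4 c16900 c13950 c13650 c4465 (k2 c1620 c4440 k0))) (by decide +kernel)
def c16902 : PP 8 4 T 0x1001000000100000504001154000410008101019000208005000000004204 := rS 0x2159e4e6114da01a4550e12896321cc67f0aa6cda677e864266556c422eaf8c85cd71202005a40d (k8 c16795 c16788 c15891 c4461 c13249 c4442 c532 c4364 (k8 c13327 c4356 c4487 c4338 c7044 c530 c7626 c4378 (k8 c920 c9753 c804 c16901 c7517 c12253 c7313 c15677 (k8 c7030 c13647 c4391 c2120 c4465 c13932 c2383 c459 (k4 c460 c1520 c15636 c6655 k0))))) (by decide +kernel)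
def c16903 : PP 8 4 T 0x1001000000000000000000000000000000000010000001000140000000000 := rS 0x4e42b417ec267b058c870ab14ec9b2986a12684185cd6af8946488ad6484e20658b8f9569d18a65625b36accc29133a5c6e7d4fbf5526e0797882430c8200e33498ec3c1d4a954080101885180b2b3486a47 (k8 c16798 c16797 c16788 c16892 c16864 c16835 c799 c16658 (k8 c15891 c4461 c266 c13478 c1027 c4466 c3062 c9125 (k8 c6309 c2995 c4462 c7626 c236 c3063 c1068 c1376 (k8 c1067 c3479 c4378 c11776 c1379 c3359 c1198 c920 (k8 c129 c880 c3201 c9753 c92 c1115 c16865 c16894 (k8 c1233 c14076 c16898 c4356 c7044 c4487 c530 c546 (k8 c4338 c16899 c4364 c13249 c13327 c4442 c532 c548 (k8 c16902 c4437 c13396 c2383 c6867 c425 c1249 c16901 (k8 c7313 c15677 c1892 c1520 c2127 c1216 c1210 c1499 (k2 c460 c6655 k0)))))))))) (by decide +kernel)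
def c16904 : PP 8 4 T 0x800000000000000000010800010000044000001800000008000000000000000200600 := rS 0x61304e475 (k4 c590 c385 c1893 c15730 (k1 c3088 k0)) (by decide +kernel)
def c16905 : PP 8 4 T 0x10000000002001000000010800540001044000004010110808000000000140000000604 := rS 0x6133e868a60a258c87319fc2a763cc25088335c49366d338641e952a86c2e4f568bd56514ca054a130200592d206844964d (k8 c16794 c16789 c16790 c16795 c16788 c546 c15891 c4461 (k8 c530 c1404 c1381 c3071 c4435 c14464 c4432 c4554 (k8 c4297 c4431 c4292 c266 c13478 c1376 c7626 c920 (k8 c9753 c804 c4488 c4442 c548 c2108 c4321 c602 (k8 c13580 c16904 c7517 c12253 c7313 c15677 c7030 c14373 (k4 c16663 c4391 c1519 c15813 (k1 c15636 k0))))))) (by decide +kernel)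
def c16906 : PP 8 4 T 0x1000000000000000000000000000000000010000001000140000000000 := rS 0x184cf60b190e158926cec794220e12686484d026557a654b458baad8abe568fa329d289149e2f78255265521904760f020643c03042ed52fd1b9c442b35e81cf66e2f004da5b2b02d6a974fc343a5d58a31a4351c9349647 (k8 c16798 c16789 c16794 c16792 c16797 c16788 c16835 c1115 (k8 c1338 c1027 c4383 c11776 c1198 c1387 c16864 c16892 (k8 c92 c9753 c15891 c1068 c1067 c3244 c2995 c3066 (k8 c3201 c799 c1386 c3359 c4378 c3479 c3361 c4462 (k8 c16658 c4466 c7626 c4461 c1376 c3062 c3063 c236 (k8 c266 c9125 c13478 c16903 c4432 c4297 c4296 c4435 (k8 c10547 c5090 c16879 c4554 c2114 c1248 c14464 c4356 (k8 c4399 c1404 c3071 c9441 c7044 c1381 c530 c546 (k8 c16905 c4437 c2001 c4484 c602 c13580 c805 c4703 (k4 c16904 c7313 c15677 c1892 (k2 c1519 c2127 (k1 c1216 k0)))))))))))) (by decide +kernel)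
def c16907 : PP 8 4 T 0x20000000000000000180001014000000000000000000000 := rS 0x3f4e26e (k4 c1085 c1474 c4378 c15573 k0) (by decide +kernel)
def c16908 : PP 8 4 T 0x2000000000000000000000200000000000014000001000000001000000 := rS 0xe07c5a2e4e4b78b9d580778caec88a561b460a314310486693d8cc3c3702084c20300954120a35c24343b0a8fde2b303874b4351c92496d2 (k8 c16788 c16789 c16793 c16792 c16797 c4476 c1027 c10458 (k8 c10182 c11030 c4288 c4284 c4403 c15545 c4316 c2559 (k8 c15894 c84 c306 c567 c303 c5402 c16620 c4461 (k8 c1384 c4466 c16320 c2688 c15527 c2208 c7115 c6832 (k8 c16839 c4410 c1630 c7659 c5936 c15657 c1389 c4364 (k8 c1089 c10171 c1693 c4420 c1749 c4481 c16907 c15715 (k2 c1618 c1619 (k1 c3370 k0)))))))) (by decide +kernel)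
def c16909 : PP 8 4 T 0x1000000000000000000000000000000000000084000000000000012000140 := rS 0x2804060a (k4 c4462 c839 c567 c15580 (k1 c4461 k0)) (by decide +kernel)
def c16910 : PP 8 4 T 0x1000000000000000000000000200000000000014000010000000102000200 := rS 0x617ea101c4e36af576bf18a64867b38914be9d198003c370e96836351c9349627 (k8 c16791 c16789 c16794 c16792 c16797 c171 c4476 c1027 (k8 c1384 c4466 c15523 c15504 c15543 c9119 c15572 c1385 (k8 c1224 c15624 c16865 c16866 c6330 c6870 c1119 c5814 (k4 c2114 c258 c259 c4376 (k2 c712 c15573 k0))))) (by decide +kernel)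
def c16911 : PP 8 4 T 0x1000000000000200000000000200000000000000000000001000040000000 := rS 0x19a614c27 (k4 c16791 c1120 c1119 c902 (k1 c6171 k0)) (by decide +kernel)
def c16912 : PP 8 4 T 0x2000000000000000000000200000000000014000001000100000000000 := rS 0x2198269579dc6719212f49e0f1b9845e454b894f6310087c400b04104305a8697452f103875a435 (k8 c16797 c16788 c1027 c10458 c11030 c4402 c1338 c4383 (k8 c4476 c16908 c1873 c16909 c84 c16910 c86 c9668 (k8 c2144 c12934 c2142 c926 c2178 c837 c5402 c1383 (k8 c4046 c258 c16911 c6022 c4446 c2151 c1887 c5815 (k4 c845 c15691 c6832 c10171 k0))))) (by decide +kernel)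
def c16913 : PP 8 4 T 0x2000000000000000000000200000000000010000001000100000000100 := rS 0xae459c92a7e42b258aab4eab54e9b8999486681911434994b8081e192a880150d47974261563bc4b66d3d985226700aa62e933eae16a3b5b8dcbc6e2b2cc0e1d239241a1113b486a39 (k8 c16792 c16797 c16788 c16791 c16790 c16795 c16793 c16798 (k8 c1027 c10458 c10182 c16912 c1067 c1068 c3359 c3065 (k8 c4403 c3360 c15715 c1356 c3068 c4361 c3479 c15891 (k8 c5084 c129 c880 c3244 c9753 c92 c11030 c4289 (k8 c4284 c4401 c1338 c100 c4383 c4462 c16128 c306 (k8 c7490 c6403 c798 c926 c16859 c15545 c2406 c422 (k8 c423 c2290 c7044 c4340 c863 c902 c942 c825 (k8 c1885 c4530 c7308 c11940 c2107 c15595 c1460 c724 (k2 c15848 c829 k0))))))))) (by decide +kernel)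
def c16914 : PP 8 4 T 0x10000001000140000000000 := rS 0x182753f3255a658930d8a554ea6c82970781088763cc242e1e0186886210c82c107d49c5d70b51b9c4c2b73d9b8bc013696cacb303bc58e3f0a8ec26e42e875230d460e46ad2088349247 (k8 c16798 c16793 c16795 c16790 c16788 c16797 c16792 c16835 (k8 c4383 c129 c1027 c1338 c16906 c4401 c4403 c4284 (k8 c4288 c4289 c11030 c10458 c10182 c16912 c92 c9753 (k8 c15891 c1068 c1067 c3244 c3065 c880 c1386 c3359 (k8 c3360 c15715 c4361 c3068 c1356 c16913 c84 c7626 (k8 c231 c236 c15545 c16658 c4466 c170 c4316 c598 (k8 c425 c424 c4461 c1376 c1193 c3063 c805 c15054 (k8 c15702 c3098 c1209 c13249 c7044 c13185 c7308 c2107 (k2 c594 c1893 (k1 c15730 k0)))))))))) (by decide +kernel)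
def c16915 : PP 8 4 T 0x1000000000000004000000040005540100000000025040140080104000 := rS 0x5b24d8e3b2a04e0a8861a1ca713608b98a9836ad53e8c2b96172b3690e46a47 (k8 c16798 c16797 c16792 c16788 c11612 c7514 c16914 c63 (k8 c15503 c11776 c1387 c4993 c1103 c3110 c1104 c1853 (k8 c4443 c3938 c11158 c15480 c2123 c4314 c517 c7314 (k4 c4158 c250 c9125 c15736 (k1 c1117 k0))))) (by decide +kernel)
def c16916 : PP 8 4 T 0x1000000015000400000000040005540000001400000000000001100000 := rS 0x11287 (k2 c7313 c7314 (k1 c2123 k0)) (by decide +kernel)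
def c16917 : PP 8 4 T 0x1001000000000001000000000000000000000020000011000040101000100 := rS 0x3260a548aac0c0fd5eb058a9929c618671869ccea7737974f2314e8dd72334297d16693d86c0a5b2290d6615000783a8c2b8fc0c0b1c9246a0d (k8 c16795 c16797 c16793 c16792 c535 c4462 c11031 c63 (k8 c15503 c1027 c4466 c1098 c2630 c11612 c16210 c8444 (k8 c93 c16405 c15581 c14312 c13396 c14050 c488 c6224 (k8 c432 c7514 c1384 c3247 c16866 c501 c15897 c1019 (k8 c16566 c499 c16551 c4383 c1386 c9009 c4472 c14049 (k8 c16865 c4370 c4450 c1119 c15660 c4477 c616 c4350 (k4 c16916 c4406 c1726 c14089 k0))))))) (by decide +kernel)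
def c16918 : PP 8 4 T 0x1001000000000000000000000000000000000000000001000140101000100 := rS 0x455930558151106061a1dfa5389839822e62a6080b345aacbe15349ec66b9189e4005d379dcea730d9147e9d218180a1e058dcb66d868756a9f4615cb039248346a47 (k8 c16798 c16797 c16795 c16793 c16792 c16914 c63 c15503 (k8 c11776 c1387 c1027 c4383 c4993 c93 c1384 c535 (k8 c4466 c16405 c4462 c16210 c3247 c11031 c8444 c15581 (k8 c16551 c499 c16566 c1019 c15897 c1098 c501 c16866 (k8 c7514 c432 c14312 c13396 c2630 c488 c14076 c14050 (k8 c11612 c16917 c1103 c3110 c1104 c1853 c16915 c4443 (k8 c3938 c4376 c11158 c15480 c4477 c2123 c16916 c616 (k4 c4314 c1726 c4350 c14089 k0)))))))) (by decide +kernel)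
def c16919 : PP 8 4 T 0x1000001001000000000000400000200000404000100000000061040140200444124 := rS 0x638ec9ed082b0dfa8b4394d0a6a1944cda712dad53e015cadd26bd54afd18653a8fd8ac18c1e48a1f2b960ee31690e46a47 (k8 c16798 c16797 c16792 c16788 c316 c15565 c16914 c63 (k8 c86 c13923 c14867 c4482 c4450 c4370 c400 c11468 (k8 c7854 c15503 c6330 c1507 c16911 c11351 c1117 c7514 (k8 c9668 c11776 c1387 c93 c1386 c4993 c4443 c6171 (k8 c8246 c10079 c416 c7128 c564 c15660 c15480 c15639 (k4 c14209 c6655 c1762 c460 (k1 c15736 k0))))))) (by decide +kernel)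
def c16920 : PP 8 4 T 0x1001000000000000400000000000004000100000000061040140208644124 := rS 0x18e3b27b41fa8745a14646a89c14da712dad53e015c8fd6e935eaa57e8c32a0d8ac117a6e31093c9143e572c1dc62d21c8446a47 (k8 c16798 c16797 c16790 c16792 c16788 c316 c15565 c16914 (k8 c63 c86 c13923 c14867 c4316 c4482 c4448 c836 (k8 c4450 c4370 c638 c7854 c15503 c6330 c1507 c16911 (k8 c11351 c1117 c400 c7514 c9668 c11776 c1387 c93 (k8 c1386 c4993 c4308 c16228 c16227 c9768 c10079 c564 (k4 c7128 c15660 c14209 c6655 (k2 c1762 c460 (k1 c15736 k0)))))))) (by decide +kernel)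
def c16921 : PP 8 4 T 0x1001000000000000000000000000000000100000000061040140001000900 := rS 0x22c941d9ada0c3452aca68782055326d4ba7c1f0d4616cc2653a8fd06c560ab45e9b8c424341333a4c06b32a804f6790b9143e573b810b03110045a447 (k8 c16798 c16788 c16790 c16918 c316 c16914 c534 c15565 (k8 c63 c86 c13923 c2497 c14867 c703 c9668 c306 (k8 c663 c303 c11351 c657 c2496 c14215 c4316 c4482 (k8 c4448 c836 c4554 c4450 c4370 c638 c400 c11468 (k8 c7854 c5402 c93 c15503 c4383 c6403 c11776 c1198 (k8 c4993 c16919 c16920 c4464 c7313 c414 c15672 c15248 (k4 c15480 c13932 c564 c1762 (k2 c15864 c4471 (k1 c4418 k0))))))))) (by decide +kernel)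
def c16922 : PP 8 4 T 0x1001000000000000010000044000005401210000000005000040209040824 := rS 0x1171da51a0c34514d0e15892646655599d58ac117a6e3109 (k8 c4316 c4482 c4448 c836 c4450 c4370 c11468 c663 (k8 c306 c822 c1880 c9768 c16228 c7313 c414 c15248 (k4 c15480 c13932 c15688 c1762 (k2 c4418 c4471 k0)))) (by decide +kernel)
def c16923 : PP 8 4 T 0x1000000000000010000000000000000000100001100200000000000000000000000000000000000000 := rS 0x14f13 (k2 c4443 c2010 (k1 c4490 k0)) (by decide +kernel)
def c16924 : PP 8 4 T 0x1000000000020011000000001000000000000001100000000400000110000000001000040200200004 := rS 0xa63544d36c5 (k4 c4370 c4448 c16228 c16227 (k2 c4490 c2008 k0)) (by decide +kernel)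
def c16925 : PP 8 4 T 0x1001000000000000000000000000000000000000000041040140001000900 := rS 0x459283b35b41568a43c102a9952d149cc3208961abd54afcea83629a55a2f4dc62121a33accaa013b8c4ca790b914f6030204d261f1f8812e9f4615cda586911c2235 (k8 c16797 c16790 c16798 c16788 c16914 c4993 c63 c15503 (k8 c11776 c1198 c16918 c400 c86 c11351 c2496 c534 (k8 c303 c703 c13923 c2497 c14867 c7854 c316 c15565 (k8 c9668 c306 c663 c657 c14215 c4316 c4482 c4448 (k8 c836 c4554 c16922 c4370 c638 c11468 c6330 c1507 (k8 c16911 c4383 c312 c16921 c9009 c6022 c4396 c1399 (k8 c16923 c16924 c4464 c7313 c14170 c15672 c13932 c564 (k4 c1762 c15864 c4471 c4418 k0)))))))) (by decide +kernel)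
def c16926 : PP 8 4 T 0x1001000000000000000000000000000000000000000041000140001000900 := rS 0xd4954245a0afc3f1be2a3634ab45e9b8c42434773a994f27b0780d66550204c2e6d3896e1a975aa7d723f39adcce935898402bd18aa57e450f88118572c0d5a447 (k8 c16798 c16788 c16797 c16914 c63 c15503 c16918 c86 (k8 c13923 c6330 c1507 c316 c16911 c9668 c5402 c1116 (k8 c11351 c657 c1117 c1109 c400 c7514 c11776 c1387 (k8 c1198 c4383 c93 c1386 c4993 c2497 c2496 c534 (k8 c306 c663 c303 c6403 c703 c14867 c7854 c11468 (k8 c15565 c14215 c4316 c4482 c4448 c836 c4554 c16922 (k8 c16925 c4386 c1343 c15745 c4480 c4313 c10049 c15660 (k2 c4418 c15766 (k1 c563 k0))))))))) (by decide +kernel)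
def c16927 : PP 8 4 T 0x1001000000000000000000000000000000000000000041000140001000100 := rS 0x5f7ea08ba7b42a045e793b9bc36050101816bd5f8c576712dc348a1f5898402204615cb0270692c6ad2 (k8 c16788 c16797 c16789 c16795 c16791 c16914 c63 c15503 (k8 c16918 c9668 c5402 c1116 c86 c13923 c4383 c93 (k8 c1386 c6870 c316 c6330 c16911 c16926 c4462 c12555 (k8 c310 c15581 c1019 c1024 c501 c8877 c6395 c6224 (k4 c14312 c1337 c2122 c4306 (k2 c6467 c4477 k0)))))) (by decide +kernel)
def c16928 : PP 8 4 T 0x1001000000004000400000000000004100000020000080044140201404000 := rS 0x284c6678a59695a5a2182ab3f944b87962aa0be9b4c44d0ea57ed154e3084209161b2dc35469f30804e6930fc64ee2f0ea30ae9d1293c464713925a40d258449a35 (k8 c16797 c16794 c16790 c16789 c16795 c16788 c16793 c16791 (k8 c16798 c16796 c338 c312 c966 c63 c15503 c1027 (k8 c1953 c1886 c4446 c86 c11351 c1109 c9668 c5402 (k8 c11776 c11410 c4383 c93 c335 c9998 c6153 c4465 (k8 c14506 c15743 c4452 c4306 c1937 c4440 c4441 c317 (k8 c1967 c549 c4490 c7718 c1929 c4477 c9398 c3430 (k8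 c14464 c1932 c2123 c4457 c9931 c2025 c834 c15801 (k2 c11448 c7105 (k1 c4391 k0))))))))) (by decide +kernel)
def c16929 : PP 8 4 T 0x1001000000000000000000000000000000000000000001040140001000900 := rS 0x42bf4f87f43a28a451608a62c950a324decd2eabd4ca555c4862a94186933093d13c4a6d38ad53eb939add261f58b0da2ad178742e555983e1a8c2b96cc201329d4263f100cc08582134846272692c6a47 (k8 c16798 c16797 c16789 c16794 c16791 c16796 c16788 c16927 (k8 c16914 c534 c2293 c16918 c400 c2496 c11468 c7854 (k8 c9668 c5402 c93 c63 c15503 c4383 c6403 c663 (k8 c306 c2497 c1027 c1953 c4554 c340 c2055 c1116 (k8 c86 c11351 c1117 c1109 c7514 c11776 c1387 c1386 (k8 c4993 c312 c338 c16928 c4320 c1132 c702 c2625 (k8 c1508 c317 c9768 c14076 c5936 c2111 c4346 c813 (k8 c2066 c1108 c7308 c15487 c15665 c7660 c834 c4420 (k8 c1956 c2112 c415 c1902 c725 c2121 c15634 c1502 (k1 c5558 k0)))))))))) (by decide +kernel)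
def c16930 : PP 8 4 T 0x8000002001000000000000005000000000000004040000020000080000000201000800 := rS 0x1acf0315dc209c1b38ac57a1707c3518572d98402330220da44d (k8 c16794 c16788 c4306 c534 c2293 c9668 c5402 c93 (k8 c63 c15503 c4383 c6403 c2497 c2014 c1116 c1386 (k8 c335 c6153 c4465 c16849 c2265 c15721 c6097 c540 k0))) (by decide +kernel)
def c16931 : PP 8 4 T 0x1001000000000000000000000000000000000000000001000140001000900 := rS 0xa2afd08874552ca4bb57a9462890d266127a5594452c14ac59f87e37c546c333a83d6604099b4e25b86ad53eb91f9cd6e930fac4c201104657ad1568bc841d4615cb04b1a935a447 (k8 c16798 c16788 c16794 c16797 c16789 c16914 c63 c15503 (k8 c1027 c16927 c1953 c4554 c340 c2014 c4446 c16918 (k8 c9668 c5402 c1116 c86 c11351 c1117 c1109 c400 (k8 c7514 c11776 c1387 c4383 c93 c1386 c4993 c2496 (k8 c534 c663 c6403 c11468 c2293 c16929 c4386 c1343 (k8 c15745 c4480 c10049 c4418 c4420 c834 c1956 c14464 (k8 c16930 c4320 c1132 c702 c2664 c317 c5936 c5815 (k8 c1389 c2112 c4456 c415 c1902 c4235 c8266 c4397 (k1 c4493 k0)))))))))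 (by decide +kernel)
def c16932 : PP 8 4 T 0x1001000000000000000000000000000000000000000001000140001000100 := rS 0x2785d52253c8c466020786c0c0b17908c2011016e1a910ea30ae580692c4611139346ad2 (k8 c16788 c16797 c16794 c16791 c16790 c16796 c16789 c16795 (k8 c16914 c63 c15503 c1027 c129 c4383 c93 c16918 (k8 c9668 c5402 c16927 c1953 c16931 c4462 c334 c15653 (k8 c12555 c6257 c14466 c7034 c224 c6029 c1950 c5807 (k1 c14506 k0))))) (by decide +kernel)
def c16933 : PP 8 4 T 0x1001000000000000000000000000000000000020000000000040102000100 := rS 0x617ea101c4e5ea64be4135800ba7701818861e058dcdb0d0ea30af0922b481a35 (k8 c16797 c16795 c16788 c256 c4436 c63 c15503 c1027 (k8 c4383 c4993 c1384 c535 c4466 c16589 c4462 c222 (k8 c16566 c15897 c1098 c1919 c1872 c488 c8246 c1119 (k4 c6022 c258 c259 c4376 (k2 c2694 c4477 k0))))) (by decide +kernel)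
def c16934 : PP 8 4 T 0x1001000000000000000000000000000000000000000001000140000000100 := rS 0x2815084c9328dcbb1027894de415e8a41e0658adce67718854167517985263f010043e20228cc2e18369c4b70d5aa7d18572c3486a47 (k8 c16798 c16797 c16788 c16914 c63 c15503 c11776 c1387 (k8 c4383 c93 c1386 c4993 c16932 c35 c255 c256 (k8 c16933 c86 c9668 c16590 c400 c11351 c5402 c1871 (k8 c16275 c303 c382 c11577 c16582 c1109 c1117 c1116 (k8 c4462 c15653 c12392 c16911 c1872 c1019 c224 c258 (k8 c4468 c1337 c1383 c4412 c7308 c6022 c12410 c16602 (k1 c1605 k0))))))) (by decide +kernel)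
def c16935 : PP 8 4 T 0x2000000000000000000000000000005400001120000040040000000000402 := rS 0x230bd84a65f8b136c351e914e87518572fb481a35 (k8 c16797 c16795 c16788 c488 c63 c15503 c1027 c10547 (k8 c129 c100 c4383 c4993 c1116 c4477 c16880 c5101 (k2 c1119 c4482 (k1 c5090 k0)))) (by decide +kernel)
def c16936 : PP 8 4 T 0x2001000000000200014000000040000040050020000045040000080000002 := rS 0x895798d0e554944d8a9836a3c2e9d0ea30aec10a9a45e35 (k8 c16797 c4432 c756 c2630 c12762 c63 c15503 c1027 (k8 c10547 c4431 c100 c4993 c1119 c3130 c4443 c16846 (k4 c11893 c11158 c1608 c1778 (k2 c7030 c8142 k0)))) (by decide +kernel)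
def c16937 : PP 8 4 T 0x2001000000000000040000000044000001010001000000000140000100002 := rS 0x224c66b0b9a45e67 (k8 c4555 c4432 c756 c4431 c492 c755 c7030 c16663 k0) (by decide +kernel)
def c16938 : PP 8 4 T 0x2001000000000000000000000000004400010100000041040140080000480 := rS 0x3260a5457a690eba8caf57f1558181165b36ad53e8c2b93c824556aaca2734a9bcf2b9609a45eb31f99c2a002c0e492352692da447 (k8 c16798 c16788 c16789 c16794 c16797 c16793 c16792 c16914 (k8 c1098 c2630 c4555 c11031 c11612 c4432 c756 c12762 (k8 c7514 c7034 c1019 c15532 c16551 c4435 c14464 c4554 (k8 c4296 c4433 c4297 c63 c15503 c11776 c1387 c4993 (k8 c93 c14050 c16935 c616 c4350 c1242 c16936 c5090 (k8 c2114 c10171 c1390 c868 c16937 c4406 c1726 c14089 k0)))))) (by decide +kernel)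
def c16939 : PP 8 4 T 0x2001000000000000000000000000000400010100000041040140080000480 := rS 0x312945445abe248744c24f45b36915a29d0ea30aead55944e6c13585cd22f598fcce15001607235 (k8 c16797 c16792 c16914 c1098 c2630 c4555 c11031 c11612 (k8 c4432 c756 c4431 c492 c12762 c16551 c4435 c14464 (k8 c4554 c63 c15503 c1027 c10547 c4298 c4296 c4993 (k8 c93 c16938 c4320 c682 c15608 c4055 c4346 c15689 (k4 c16937 c7525 c11893 c4429 k0))))) (by decide +kernel)
def c16940 : PP 8 4 T 0x1000000000000000000000000000000000000000001000140100000100 := rS 0x604232974ee03030143c0b1b96c3a8c2b961e035 (k8 c16797 c16934 c16914 c63 c15503 c1027 c93 c1384 (k8 c535 c4466 c16405 c4462 c222 c16566 c15897 c16541 (k2 c16939 c276 (k1 c14465 k0)))) (by decide +kernel)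
def c16941 : PP 8 4 T 0x2000000000000200100000000000000400000020000000000000001000000 := rS 0x210d31354bf1306f5fc54da712da30aed2 (k8 c16788 c63 c15503 c93 c1386 c4993 c4354 c194 (k8 c3116 c1119 c4480 c1507 c4443 c1880 c15570 c10079 k0)) (by decide +kernel)
def c16942 : PP 8 4 T 0x10000002001000001000800000001000000000000000000000000001151200000000 := rS 0xcfa1abd40a963d2d96a34fab45f45691348e23 (k8 c16796 c16798 c16794 c16788 c4399 c4432 c4554 c11776 (k8 c11410 c11546 c15673 c11601 c16886 c15687 c9441 c4423 (k2 c1794 c4495 k0))) (by decide +kernel)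
def c16943 : PP 8 4 T 0x1000000000000000000000000000400000000000041040140000000900 := rS 0x2a134ae6214912158ba5050cd43a2d7d195ec351e4f22b44a29d0e87d72c1618fc82555999426bb3d86c2ef00c811626100a30ae581889440351c93496d2 (k8 c16788 c16789 c16794 c16792 c16797 c16940 c312 c316 (k8 c16914 c63 c15503 c9668 c5402 c1116 c534 c2257 (k8 c16934 c4431 c4292 c702 c16849 c2496 c7854 c663 (k8 c306 c4433 c400 c9009 c12762 c7514 c86 c1027 (k8 c10547 c4435 c4298 c4296 c4297 c100 c4383 c16941 (k8 c5090 c2114 c9998 c10171 c1485 c16942 c834 c4418 (k8 c15665 c7030 c2109 c11827 c1786 c1787 c9441 c866 k0))))))) (by decide +kernel)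
def c16944 : PP 8 4 T 0x1000000000000000000000000000000000000000041040140000000900 := rS 0xa5b2c52cfa1a54fd16669be8afc5e45506895f9a130763896d6a9f279155a2f5cb0c82735ba4c3eb33a84c7ebb3d86c2ef00c811626100a30ae58188809a351c92da447 (k8 c16798 c16788 c16789 c16792 c16797 c16794 c16940 c316 (k8 c16914 c63 c15503 c9668 c5402 c1116 c534 c2257 (k8 c16934 c4431 c4292 c702 c16849 c400 c2496 c11468 (k8 c663 c86 c11351 c1117 c1109 c4433 c9009 c7514 (k8 c4432 c4554 c4296 c4297 c11776 c1387 c93 c1386 (k8 c16943 c1111 c1112 c3121 c2043 c3903 c15612 c2114 (k8 c6133 c4454 c3116 c2068 c8860 c15745 c4418 c4392 (k4 c1522 c834 c11546 c15673 (k1 c4495 k0))))))))) (by decide +kernel)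
def c16945 : PP 8 4 T 0x1000000000000000000000000000000000000000041000140000000900 := rS 0x8c1a4ee886752d96294ab34d745a1c162c8445c24fcfc549be2a36189b4e2b54fab45eb961904e6b733a4c3eb15983e1a8c2b96cc2013d86de0653a84c7e1902160404d690346a47 (k8 c16798 c16797 c16795 c16788 c16794 c16940 c16914 c534 (k8 c2257 c400 c2496 c11468 c7854 c16934 c4292 c702 (k8 c9668 c5402 c93 c63 c15503 c4383 c6403 c663 (k8 c1116 c86 c11351 c657 c1117 c1109 c4433 c9009 (k8 c7514 c4432 c4554 c11776 c1387 c1386 c4993 c316 (k8 c16944 c4386 c1343 c3481 c4480 c15745 c5101 c15646 (k8 c15570 c8860 c4313 c4392 c4397 c563 c1482 c4418 (k8 c834 c11546 c15673 c4495 c1522 c2042 c2040 c13580 (k1 c15766 k0))))))))) (by decide +kernel)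
def c16946 : PP 8 4 T 0x2001000000005000400000000240004140000040000080002140201044000 := rS 0x1f4fec62e2968a8214a052b0584220f2c553a6d311386a8d3e1b0b93d3a1d4987cc20143bf50a7738c6422232389c92d2259341a35 (k8 c16797 c16795 c16794 c16789 c16788 c16793 c16791 c16798 (k8 c16796 c16790 c4446 c1386 c1886 c13580 c15570 c10171 (k8 c9668 c5402 c86 c11351 c1027 c10547 c4297 c4431 (k8 c4292 c11776 c11410 c4383 c4441 c317 c1967 c2006 (k8 c7718 c1929 c2123 c10207 c4314 c9931 c4439 c834 (k8 c2108 c4452 c1937 c7667 c11448 c3430 c1351 c7317 k0)))))) (by decide +kernel)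
def c16947 : PP 8 4 T 0x40000201000000000000000000000080001000000000000 := rS 0x13713 (k2 c4444 c1970 (k1 c4567 k0)) (by decide +kernel)
def c16948 : PP 8 4 T 0x1000000000000000800000000000000100000000001000140000000900 := rS 0xa594953f450fac937978bab54fae56eb132bf4628b3aacc26734987d8641608fd048127a14ee19021ec36718c9081f0d4615cb658308044017781346a0d6912c2247 (k8 c16798 c16790 c16789 c16788 c16795 c16797 c16794 c16934 (k8 c4431 c16940 c9668 c5402 c16914 c93 c63 c15503 (k8 c4383 c6403 c16945 c4446 c1386 c4292 c702 c534 (k8 c2257 c1886 c13580 c4297 c6923 c2108 c400 c12762 (k8 c4433 c9009 c86 c11351 c1109 c2496 c663 c11468 (k8 c9998 c16946 c15570 c7854 c1116 c1117 c7514 c11776 (k8 c1387 c812 c4532 c1108 c7308 c1379 c4480 c2121 (k4 c11125 c677 c834 c11546 k0)))))))) (by decide +kernel)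
def c16949 : PP 8 4 T 0x4000200004000080000000001000000 := rS 0xf309 (k2 c4437 c1961 (k1 c10207 k0)) (by decide +kernel)
def c16950 : PP 8 4 T 0x1000000000000000000000000000000000000000001000140000000900 := rS 0x37c546c24539a54aa94c8c5fa85459de32425d864ea7b07acc08133896e1a1b1785c9e334e87582c31f905e0734987d62610088118572c3484e35 (k8 c16797 c16791 c16788 c16914 c63 c15503 c16940 c9668 (k8 c5402 c1116 c86 c11351 c1109 c16934 c4433 c400 (k8 c9009 c12762 c1027 c10547 c4294 c4297 c4431 c4432 (k8 c4292 c4383 c93 c1386 c2496 c534 c663 c6403 (k8 c702 c11468 c2257 c16849 c16945 c4446 c1886 c9998 (k8 c13580 c15570 c16946 c1926 c1508 c16947 c16949 c16948 (k4 c15712 c312 c4386 c1343 (k1 c4480 k0)))))))) (by decide +kernel)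
def c16951 : PP 8 4 T 0x1000000000000000000000000000000000000000001000140000000100 := rS 0x31c7654649946e5d880544a6f3a8a4040f0302d62b739ae4c2931f8043e203896e1ab54fa30ae58690e46a47 (k8 c16798 c16797 c16792 c16788 c16914 c63 c15503 c11776 (k8 c1387 c4383 c93 c1386 c16940 c86 c9668 c400 (k8 c11351 c5402 c7514 c1109 c1117 c1116 c16950 c4462 (k8 c15653 c12555 c12392 c11627 c1019 c224 c382 c4468 (k8 c1337 c1383 c4412 c7308 c12410 c1600 c250 c15736 k0))))) (by decide +kernel)
def c16952 : PP 8 4 T 0x1001000000081001400040204240005540001000040055040100001100040 := rS 0x5c3f038a825298c98b0d5bae58635 (k8 c16797 c9009 c7514 c1117 c4383 c1135 c16865 c416 (k4 c434 c16916 c16876 c251 (k2 c4046 c1457 k0))) (by decide +kernel)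
def c16953 : PP 8 4 T 0x400000000000000000001001000004005005410000000040005540000000440005045000001104048 := rS 0x62298aa2517ae5a435 (k8 c16797 c16788 c7514 c8877 c224 c16876 c13552 c16916 (k1 c14452 k0)) (by decide +kernel)
def c16954 : PP 8 4 T 0x10000001000000000000000000000000000000000100000040000005001000008008 := rS 0xb8a617985a427 (k4 c16791 c16788 c878 c8877 (k2 c13552 c4046 (k1 c812 k0))) (by decide +kernel)
def c16955 : PP 8 4 T 0x1001000000080001010040044000000000000020040005000100001000200 := rS 0x2ab16288337978480e7ec20a7195d91224a55e8cd328b68b3e1a0759ac45e6139adcee791890c6e712da75188134a14361e3dae586413a82d2a5760c5877433e85404276912c6a0d (k8 c16795 c16797 c16789 c16788 c16791 c1106 c382 c1352 (k8 c4391 c3112 c4471 c4420 c63 c11624 c84 c11627 (k8 c3113 c9009 c7514 c1225 c1105 c2393 c6224 c13396 (k8 c6395 c15503 c3249 c93 c1386 c233 c2132 c16866 (k8 c9840 c15566 c1117 c1109 c878 c8877 c3125 c16243 (k8 c30 c4383 c1519 c460 c14044 c16952 c433 c1119 (k8 c5936 c4469 c6022 c1389 c15688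 c418 c4482 c15721 (k8 c16953 c16954 c225 c1378 c6467 c4480 c9063 c13192 (k1 c16916 k0))))))))) (by decide +kernel)
def c16956 : PP 8 4 T 0x1001000000080041000040204000000000000020000005000100001000200 := rS 0x822f450ba6f3f039fa548422e32cf5e910a6a7193161a0759ac45e6139adcee791890c3c373896d3a8c2b9ed72c3209d416c18b0ee867d0a8084e35 (k8 c16797 c16791 c1106 c382 c1352 c4391 c3112 c4471 (k8 c4420 c84 c11627 c3113 c9009 c7514 c1225 c63 (k8 c15503 c3249 c93 c1386 c233 c1105 c2132 c16866 (k8 c9840 c15566 c1117 c1109 c878 c8877 c3125 c16243 (k8 c30 c4383 c1135 c16865 c902 c416 c432 c1120 (k8 c1520 c4364 c9998 c4482 c16916 c15721 c16876 c251 (k4 c1459 c1457 c4480 c4477 (k2 c13192 c6467 k0)))))))) (by decide +kernel)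
def c16957 : PP 8 4 T 0x1001000000005000444001004044005541500001400000004540001100011 := rS 0x3405051a59898865 (k8 c9676 c16916 c15859 c4429 c7131 c11648 c4475 c1761 k0) (by decide +kernel)
def c16958 : PP 8 4 T 0x1001000000000000000000000000000000000000000005000140001000000 := rS 0x2f450ba6f3f038ca132a3f4a70843a2c891935abe24ab5e8cd32bb273058d164a9d586b936c3546975aa7d664158814420103854c2ad179cd6e931d9dcf20b1890c6e712da7518573486c041e2c1ec1039238d44627 (k8 c16791 c16796 c16797 c16798 c16792 c16951 c1225 c16914 (k8 c1105 c1106 c2393 c13396 c63 c15503 c3249 c93 (k8 c1386 c233 c2132 c16866 c84 c9840 c15566 c3112 (k8 c9125 c1117 c1109 c8877 c4554 c878 c382 c30 (k8 c486 c231 c263 c3125 c3113 c16243 c11776 c1387 (k8 c1198 c11410 c4383 c4993 c7514 c9009 c11627 c11624 (k8 c4471 c16556 c4420 c16955 c3372 c16956 c433 c1119 (k8 c14076 c4469 c4346 c4442 c15688 c16840 c9998 c10171 (k8 c4482 c418 c15721 c16957 c34 c1646 c16876 c251 (k4 c1459 c1457 c4480 c4477 (k1 c16251 k0))))))))))) (by decide +kernel)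
def c16959 : PP 8 4 T 0x1001000000000000500000204011105500004021040050040150081100000 := rS 0x6e2eb3e86a063b41848b8caf4882529a9d823262aece25b47a30aea34f9cd57106909c8e23 (k8 c16796 c16798 c16791 c16788 c4468 c4415 c1109 c11776 (k8 c11410 c63 c15503 c100 c93 c1386 c1931 c1135 (k8 c16865 c1932 c902 c416 c434 c432 c1120 c4364 (k8 c9998 c16916 c1210 c460 c15687 c4423 c1795 c810 (k2 c15810 c1108 k0))))) (by decide +kernel)
def c16960 : PP 8 4 T 0x1001000000000000500000004011105500014021040050041550081100000 := rS 0x8c9ac88af892f466994615ccead43aae20d2 (k8 c16788 c4468 c4415 c7313 c4554 c656 c63 c15503 (k8 c16959 c433 c1119 c4469 c5815 c6022 c4442 c4364 (k1 c15819 k0))) (by decide +kernel)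
def c16961 : PP 8 4 T 0x10000000000000020000100010044200000000000000000080000000151000000000 := rS 0x63a859aa852d1626d2 (k8 c16788 c4443 c4396 c1399 c16923 c5541 c7768 c461 (k1 c15687 k0)) (by decide +kernel)
def c16962 : PP 8 4 T 0x1001000000000000500000204000005100000021080010041150081000008 := rS 0x6f5fa90bca912341848b8caf4885353b0464c586a3d469f21854c2ad179ccee814286d57105da30ae270692c8e23 (k8 c16796 c16798 c16789 c16795 c16791 c63 c15503 c3372 (k8 c4468 c4415 c2393 c6224 c6395 c15566 c1109 c8877 (k8 c4554 c878 c382 c2132 c11776 c11410 c100 c4383 (k8 c1135 c16865 c1932 c902 c416 c432 c1120 c4364 (k8 c9998 c16916 c1210 c16961 c1504 c225 c435 c1134 (k2 c1378 c15814 k0)))))) (by decide +kernel)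
def c16963 : PP 8 4 T 0x1001000000000000000000000000000000000000000001000140001000000 := rS 0x8ad08c228d6af890cd324e55c4052638221cea65449562e3e3da14d2813690562050081cceb30d8555a2f39a4c76773c82c6243010786e712da74108c2b9601a4b (k8 c16789 c16795 c16914 c63 c15503 c16951 c3249 c93 (k8 c1386 c233 c1105 c1106 c2132 c16866 c84 c9840 (k8 c15566 c3112 c9125 c1109 c8877 c4554 c382 c2393 (k8 c16243 c656 c30 c486 c263 c3125 c3113 c4993 (k8 c6395 c13396 c6224 c1225 c16958 c4356 c8954 c7172 (k8 c9676 c15675 c7313 c4481 c4407 c794 c4468 c4415 (k8 c16960 c16962 c433 c4469 c5815 c4442 c2120 c15819 (k2 c14044 c4364 (k1 c458 k0))))))))) (by decide +kernel)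
def c16964 : PP 8 4 T 0x1001000000000000514001044000004000000020000011040100082000419 := rS 0x3262875329f4bafd439562e8407305a23e5f93a30452dc34c2733b9e506a95ea655f12199b462434615c5ed21a88c9a27 (k8 c16791 c16794 c16796 c16797 c16788 c8877 c63 c15503 (k8 c2132 c16866 c4993 c255 c4469 c4346 c16865 c1119 (k8 c6029 c1998 c9840 c15566 c1109 c878 c4383 c93 (k8 c257 c4540 c6426 c6330 c16840 c458 c4450 c258 (k8 c259 c4356 c8954 c7043 c4376 c1497 c1502 c9676 (k4 c15675 c13549 c7308 c13418 k0)))))) (by decide +kernel)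
def c16965 : PP 8 4 T 0x800000000001000000000005100000000000000140010021000004040000002104008 := rS 0xc9379744a712dc35185717985a427 (k8 c16791 c16788 c878 c8877 c63 c15503 c4383 c93 (k4 c1386 c224 c15598 c1108 (k2 c7308 c12410 k0))) (by decide +kernel)
def c16966 : PP 8 4 T 0x800000000001000000000005001100000000010040000021040205001100002000200 := rS 0x649bcbc2453a141cfd3f99562051b9c4b68c2b8040e2f0a9840509418ccda7505c58760d1388c9a4b (k8 c16789 c16794 c16796 c16791 c16795 c3112 c4471 c84 (k8 c11627 c4993 c255 c1998 c4436 c1106 c878 c382 (k8 c8877 c30 c486 c63 c15503 c93 c1386 c233 (k8 c263 c3125 c9676 c7517 c15634 c16965 c1495 c5558 (k4 c2111 c225 c1378 c15620 (k1 c15860 k0)))))) (by decide +kernel)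
def c16967 : PP 8 4 T 0x10000000054000000000000000000002400000005540000400001 := rS 0xa229 (k2 c1599 c1605 (k1 c2112 k0)) (by decide +kernel)
def c16968 : PP 8 4 T 0x1001000000000000000000000000000000000000000005000140000000000 := rS 0x649bd084e2aa2cfad129b19730d5a86c2a735b9dc2ea952abe24443d2ac666d1890c30ad17a4c7601038dce25b02ac53a4101079660b4ba7d18572c0201a39238d4464b (k8 c16789 c16796 c16797 c16798 c16792 c16795 c16951 c16914 (k8 c63 c15503 c11776 c1198 c84 c16243 c1105 c1106 (k8 c3113 c3249 c3125 c263 c93 c1386 c233 c30 (k8 c486 c3112 c9125 c8877 c4554 c16963 c2132 c16866 (k8 c4993 c255 c14076 c16964 c1224 c4469 c4346 c5936 (k8 c6029 c35 c15566 c1117 c1109 c382 c2393 c1387 (k8 c4383 c7514 c16556 c418 c2186 c1352 c7874 c16967 (k4 c16966 c259 c1500 c716 (k1 c15860 k0))))))))) (by decide +kernel)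
def c16969 : PP 8 4 T 0x200001000000000420005110000000000000140001020040000001401002000000 := rS 0xb937b259a5d531c4b68c2bc250712199b5a44d (k8 c16794 c16788 c4993 c255 c4469 c1998 c4436 c63 (k8 c15503 c93 c1386 c13552 c15598 c2066 c7484 c1108 (k2 c1255 c15732 k0))) (by decide +kernel)
def c16970 : PP 8 4 T 0x4000000000001000000004000501100000000010140000021800200000002002000009 := rS 0x8a9bdfa5e071c4b68c2b984666d2688c4e0d (k8 c16795 c16791 c16796 c16794 c4993 c255 c878 c63 (k8 c15503 c93 c1386 c224 c225 c4376 c1378 c13388 (k1 c4480 k0))) (by decide +kernel)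
def c16971 : PP 8 4 T 0x1001000000000000000000000000000000000000000001000140000000000 := rS 0x1e4e2e89596c4290a4a26343c10fa75689562e3e61910f4af8929556a919860626d86a5d6a9f05acc829d588146e712d8040e430f054c2ad17808e6b7498ec108c2b961a44d2392c4627 (k8 c16791 c16796 c16789 c16798 c16794 c16788 c16914 c63 (k8 c15503 c16951 c3112 c9125 c1117 c1109 c1106 c8877 (k8 c4554 c878 c382 c1105 c2132 c30 c486 c93 (k8 c1386 c233 c263 c3125 c3249 c3113 c16243 c84 (k8 c11776 c1387 c1198 c4383 c4993 c16866 c16963 c255 (k8 c6029 c14076 c5936 c4469 c4346 c16964 c1224 c3222 (k8 c16968 c4356 c8954 c2185 c15675 c7516 c4481 c4410 (k8 c4407 c1876 c794 c2112 c419 c2022 c16970 c15598 (k2 c16969 c4046 (k1 c258 k0)))))))))) (by decide +kernel)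
def c16972 : PP 8 4 T 0x40000000000004400000002000000000010100004045200400000000000000000040040150000000000 := rS 0x33d7ca760a6c9e33119248ed2 (k8 c16788 c16798 c16793 c16796 c4294 c4297 c104 c1932 (k4 c2010 c5504 c15801 c4572 k0)) (by decide +kernel)
def c16973 : PP 8 4 T 0x40000000000000400000002000000000000100014045000400000000000000000048041150000000000 := rS 0x186524d2bd33176291632d2 (k8 c16788 c5090 c4296 c1248 c4356 c16972 c13327 c4488 (k2 c11345 c2058 (k1 c11827 k0))) (by decide +kernel)
def c16974 : PP 8 4 T 0x40000000000000000000002000000000000000114045000014004400054020000048041150001000000 := rS 0x6b57c4a32bd47a30aed2 (k8 c16788 c63 c15503 c100 c16941 c5090 c16973 c4346 (k2 c4442 c15819 k0)) (by decide +kernel)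
def c16975 : PP 8 4 T 0x1000000000000000000000000000000000000000001000140001000000 := rS 0x2e4debc8ac4d36bf4c1da96cb1498e0889439d4ca7f2ac5c7c3147a8d6a9f05a7562051b9c4b6010399d66430f0555a2f011cd6e931da30ae580b9ec8a0855945e0d21a9348e23 (k8 c16796 c16798 c16794 c16797 c16788 c16971 c4435 c14464 (k8 c16951 c4296 c1224 c4431 c16914 c63 c15503 c3112 (k8 c9125 c1117 c1109 c1106 c8877 c4554 c382 c1105 (k8 c2132 c16243 c656 c30 c486 c93 c1386 c233 (k8 c263 c3125 c3249 c84 c11776 c1387 c11410 c100 (k8 c228 c16879 c4356 c8954 c10049 c9676 c15675 c7313 (k8 c7030 c4481 c4407 c794 c11546 c15673 c16974 c1111 (k8 c3121 c1889 c4443 c15612 c5504 c3116 c1208 c15745 k0)))))))) (by decide +kernel)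
def c16976 : PP 8 4 T 0x1000002000000000000000000001000000004000000020000010002000080000418 := rS 0x118539a8d29b2dc351e8c2b90da44d (k8 c16794 c16788 c2132 c63 c15503 c100 c4383 c93 (k4 c1966 c1879 c229 c2006 (k2 c15746 c15644 k0))) (by decide +kernel)
def c16977 : PP 8 4 T 0x2000000000000000000000100000004000000020000040040000002000000 := rS 0x232775ea30aed2 (k4 c16788 c63 c15503 c1119 (k2 c1111 c5090 (k1 c4540 k0))) (by decide +kernel)
def c16978 : PP 8 4 T 0x1000000000000000000000000000000000000000001000140000000000 := rS 0x32d70293798d7915822fe2e761f44d36983f9d4aa6b18c24307b22bc16e7349854863702ac4769d208083cb3058216a9f369c4b68f4615cb04d690d41a47 (k8 c16798 c16795 c16797 c16788 c16794 c16914 c63 c15503 (k8 c100 c93 c1386 c4993 c11776 c1387 c16951 c84 (k8 c16243 c1105 c1106 c3113 c3249 c3112 c3125 c263 (k8 c233 c2132 c382 c9125 c1109 c1117 c16971 c4296 (k8 c1224 c16975 c4436 c16976 c1918 c11888 c15675 c7517 (k8 c16977 c104 c4443 c16846 c8246 c4356 c3121 c4481 (k8 c15612 c5504 c4407 c3116 c794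 c15745 c11546 c1208 k0))))))) (by decide +kernel)
def c16979 : PP 8 4 T 0x8000000000002000000000004000000000000000000000000000001040000000000000 := rS 0x16ab91d8d47249 (k4 c16793 c16792 c16797 c4403 (k2 c4361 c4419 (k1 c15715 k0))) (by decide +kernel)
def c16980 : PP 8 4 T 0x400000404000000000000001000001044140208000000 := rS 0x371762ab44a4453ca17eab4ff175ba8ce6712d8a58ee4189b5626100a30ae584b8945ed2 (k8 c16788 c836 c312 c926 c16914 c63 c15503 c2669 (k8 c5402 c1116 c4993 c295 c16978 c4289 c4402 c93 (k8 c1386 c1109 c1468 c1117 c16979 c10049 c13185 c14643 (k8 c15661 c15687 c4414 c4487 c1698 c4389 c3323 c4480 (k1 c1108 k0))))) (by decide +kernel)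
def c16981 : PP 8 4 T 0x1000000000000000010000044000000014000080040004500000005550000000000 := rS 0xd156d28cb05 (k4 c4408 c1649 c7619 c4903 (k2 c4426 c2112 k0)) (by decide +kernel)
def c16982 : PP 8 4 T 0x8100000000002000000000000000000000000000000004020000000040040000000001 := rS 0x6582a8df8b93896cceb130a30aed2 (k8 c16788 c63 c15503 c5402 c1116 c5084 c93 c1386 (k4 c4361 c15683 c1467 c4961 (k2 c6062 c4478 k0))) (by decide +kernel)
def c16983 : PP 8 4 T 0x1000002000000000000400014008000050040000020000000004441008000000 := rS 0x2e298dc7129945e283189b4ceb1308051857889d4b6632688c96492389da411 (k8 c16790 c16788 c16791 c16798 c16793 c16789 c16796 c16794 (k8 c1608 c93 c1657 c4413 c63 c15503 c2669 c5402 (k8 c1116 c5084 c4993 c295 c638 c11030 c4405 c4290 (k4 c1386 c16546 c15880 c1108 (k1 c813 k0))))) (by decide +kernel)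
def c16984 : PP 8 4 T 0x1000002000000000000100020048000000050000000000000000000000000000 := rS 0xdf155b25622d2 (k4 c16788 c4413 c102 c1738 (k2 c5771 c1077 (k1 c4480 k0))) (by decide +kernel)
def c16985 : PP 8 4 T 0x10000000000000000004000000000000001040140208000100 := rS 0x27944a1641f5fb043fc5cc6733ac45248717a6e30ab579dc660f2a81014b3039c4b70d2984ca22963bc61279189b5121533b91626100a30ae584b895a411 (k8 c16790 c16788 c312 c926 c16914 c63 c15503 c2669 (k8 c5402 c1116 c16978 c5084 c4284 c678 c4993 c295 (k8 c2504 c4316 c11030 c4289 c4402 c4405 c4401 c4290 (k8 c4383 c93 c1386 c688 c10182 c4462 c534 c306 (k8 c6403 c15547 c15565 c5815 c14076 c4482 c4448 c836 (k8 c14634 c16980 c4413 c1657 c16981 c1608 c16982 c10049 (k8 c4481 c14643 c4409 c15727 c16984 c7497 c16983 c160 k0))))))) (by decide +kernel)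
def c16986 : PP 8 4 T 0x41040140208000100 := rS 0x2818167a62914f2580bbc476e4 (k8 c16978 c4403 c11030 c170 c16914 c2504 c7132 c4530 (k4 c16985 c703 c4462 c310 (k1 c15581 k0))) (by decide +kernel)
def c16987 : PP 8 4 T 0x20000000000000100000101 := rS 0x41e0ea30ae35 (k4 c16797 c63 c15503 c1027 (k2 c4466 c10353 (k1 c222 k0))) (by decide +kernel)
def c16988 : PP 8 4 T 0x41000140008000100 := rS 0x399890f11490bd2a9b5ad0d5b184caad5ec33f1960a77199ed66557e010146f0197448a38a8d92e1f1027582c55fac48a6730a24627900c242e6d3896d18572c14c76510a8a5e2e406925a435 (k8 c16797 c16788 c16793 c16795 c16978 c11030 c4402 c4284 (k8 c4405 c4403 c4290 c16914 c63 c15503 c93 c1386 (k8 c4993 c170 c4316 c2669 c2504 c295 c678 c5402 (k8 c5084 c7132 c1116 c6330 c4530 c6869 c1236 c16987 (k8 c86 c926 c16986 c4386 c3440 c1383 c3322 c2394 (k8 c1108 c12555 c4461 c4480 c306 c663 c703 c15547 (k8 c15565 c4961 c6062 c14643 c16351 c5815 c14076 c6171 (k8 c4482 c4903 c4392 c1434 c4448 c6194 c836 c15862 (k4 c15714 c14634 c4478 c16981 (k1 c1608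 k0)))))))))) (by decide +kernel)
def c16989 : PP 8 4 T 0x20080000000000002000500 := rS 0x884bc617ea101c5b86974de064615c1a35 (k8 c16797 c16795 c63 c15503 c4462 c1019 c1337 c4383 (k8 c93 c258 c259 c4376 c2694 c4477 c15653 c488 (k1 c16987 k0))) (by decide +kernel)
def c16990 : PP 8 4 T 0x41000140000000100 := rS 0x718404011007c483627af532413b9ac62060591612180d96cda8f0ea30ae5878b906ad2 (k8 c16788 c16797 c16978 c11030 c16914 c63 c15503 c1027 (k8 c100 c4993 c93 c16988 c15545 c4436 c256 c308 (k8 c4462 c14708 c1918 c15578 c1872 c8246 c1119 c16989 (k8 c6022 c1383 c273 c1384 c487 c16590 c5402 c224 (k1 c15653 k0))))) (by decide +kernel)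
def c16991 : PP 8 4 T 0x1040140008000100 := rS 0x1f542fd82248ff1739a54c71137a1d58756097556af530cc4a9759ac40820339851255051e862833c804da712d94ca21514bc5c91961b445e1d4615cb04f213482235 (k8 c16797 c16790 c16788 c16990 c338 c16914 c63 c15503 (k8 c1027 c1953 c340 c2055 c4446 c16978 c11030 c4402 (k8 c4284 c4405 c4290 c93 c1386 c4993 c2669 c2504 (k8 c638 c295 c335 c334 c2292 c678 c5402 c5084 (k8 c16987 c534 c622 c663 c926 c312 c15547 c13552 (k8 c5815 c14076 c813 c15691 c9847 c2112 c14634 c1108 (k8 c4338 c821 c861 c1231 c16982 c10049 c4487 c4481 (k4 c14643 c16984 c4409 c16546 k0)))))))) (by decide +kernel)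
def c16992 : PP 8 4 T 0x1040140000000100 := rS 0x194fd42b210e7f2a9f62eb331c4558c12eaad5ea6399bcea3112a5c1eb103080c20b3387c020219a0d13090c06c9e6d3896e1a53098eca21514b1de2e4688bc841d4615cb0d2088d44e4d (k8 c16794 c16791 c16797 c16790 c16788 c16914 c63 c15503 (k8 c1027 c16990 c1953 c340 c16978 c11030 c4289 c4402 (k8 c4284 c4405 c4403 c4401 c4290 c4383 c93 c1386 (k8 c4993 c338 c16991 c15545 c4436 c15893 c1998 c255 (k8 c16592 c28 c2132 c918 c303 c878 c16987 c4462 (k8 c1116 c15653 c926 c312 c11577 c499 c1019 c1021 (k8 c13552 c5815 c14076 c1337 c15691 c2112 c4338 c821 (k8 c10962 c16982 c15663 c15681 c10049 c7043 c15727 c15853 (k2 c14643 c7484 (k1 c5740 k0)))))))))) (by decide +kernel)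
def c16993 : PP 8 4 T 0x1000140000000100 := rS 0x156af448c434b32a9d4320a32c1406fc07ac4ce613780466202e87c48a38a8d85e42369c4b68f0ea30ae58299442a2978b91a435 (k8 c16797 c16788 c16978 c11030 c4402 c4284 c4405 c4290 (k8 c16914 c63 c15503 c1027 c100 c93 c1386 c4993 (k8 c16990 c1953 c16992 c4386 c3440 c1383 c273 c3322 (k8 c1384 c2294 c487 c1108 c5402 c5084 c1116 c10635 (k8 c4480 c224 c4961 c6062 c12555 c16590 c538 c306 (k4 c663 c15545 c295 c678 (k2 c5815 c14076 (k1 c16442 k0)))))))) (by decide +kernel)
def c16994 : PP 8 4 T 0x4000000001000000000000000020000044000000000000000000044000400000000000 := rS 0xc2222513511 (k4 c4338 c13185 c4487 c13624 (k2 c861 c1209 k0)) (by decide +kernel)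
def c16995 : PP 8 4 T 0x1000001000140000000000 := rS 0xa665a8988b88cadc88a161ad52a927e9fe2e7331d2e22ac43b451e53288fd8e4158884020733acd129935c24eeab52b055e29178cc301b36a5c62373896c86020f274108c2b961e2e42688c96491391c72d2 (k8 c16788 c16792 c16798 c16791 c16793 c16789 c16796 c16794 (k8 c16978 c11030 c16914 c63 c15503 c16993 c3249 c1105 (k8 c1106 c2132 c93 c1386 c233 c16866 c3206 c4993 (k8 c2393 c15545 c255 c8877 c4402 c5815 c15691 c5936 (k8 c14076 c15566 c4436 c1918 c8246 c15893 c16243 c656 (k8 c30 c486 c231 c3125 c3113 c4289 c4288 c4405 (k8 c4290 c100 c260 c14634 c2112 c4338 c4458 c821 (k8 c4683 c16982 c10049 c14643 c16994 c102 c1659 c1127 (k8 c16984 c14964 c1118 c4364 c4034 c4494 c1126 c1756 (k2 c15879 c941 k0)))))))))) (by decide +kernel)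
def c16996 : PP 8 4 T 0x1000140000000000 := rS 0x16c938b440e663453415a653ac14a8ab578cd1218189dc36431799c6e9d010796608788a4a253721c5186d2d95cb0d2 (k8 c16788 c16914 c63 c93 c4993 c15503 c1386 c16978 (k8 c4290 c4405 c4402 c11030 c16993 c16243 c1105 c1106 (k8 c3249 c233 c656 c8877 c2132 c2393 c15566 c16866 (k8 c15545 c15893 c255 c5815 c14076 c16995 c4406 c1686 (k8 c1646 c4903 c2112 c261 c1768 c1771 c4478 c4481 (k2 c4413 c16979 (k1 c1117 k0))))))) (by decide +kernel)
def c16997 : PP 8 4 T 0x1001000000000000000000000100000000000000000041000080000000000 := rS 0x1f8ee2e1f3a2ccac09 (k8 c15502 c15503 c16001 c15904 c1065 c4417 c3578 c288 (k1 c4471 k0)) (by decide +kernel)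
def c16998 : PP 8 4 T 0x1000000000000000000000200000000000000000005040080000000000 := rS 0xc651ae56a955ba84761d690e46a49 (k8 c16793 c16797 c16792 c16788 c1027 c1641 c1734 c1118 (k4 c1694 c1388 c7514 c1467 (k2 c15736 c291 k0))) (by decide +kernel)
def c16999 : PP 8 4 T 0x1000000000000000000000200000000000010000001040100000000000 := rS 0x784cc25e009582aa30424d2c0b2a8f80e1e01875230d108a9a435 (k8 c16797 c16788 c16996 c314 c4383 c129 c1027 c16658 (k8 c4466 c10598 c16998 c8954 c2223 c289 c1122 c4462 (k8 c1468 c2220 c13165 c15891 c1068 c880 c1639 c1376 (k1 c12222 k0)))) (by decide +kernel)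
def c17000 : PP 8 4 T 0x1000000000000000000000100000000000010000001002080001000000 := rS 0x45c769649a24e655050100e030b8852a090a9447e1300a6cd21b19909e256 (k8 c15503 c12761 c16997 c2295 c16011 c13396 c804 c15891 (k8 c1639 c2225 c14921 c15516 c15502 c1694 c314 c1911 (k8 c228 c10598 c4461 c4462 c12210 c16805 c7030 c1069 (k4 c16076 c1640 c4360 c4471 k0)))) (by decide +kernel)
def c17001 : PP 8 4 T 0x10000000000000000054000000000000500011000000005140800 := rS 0x2e55 (k2 c306 c573 (k1 c2109 k0)) (by decide +kernel)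
def c17002 : PP 8 4 T 0x1000000000000000000000100000000000010000001000100001000000 := rS 0x1173999ca863498080a0605ab512c54ed2a24ab298c45e9b43a2cd3114a96c2a4128a6426010e07c12210d8ccacaf68909e22a (k8 c16996 c12761 c16997 c340 c1774 c15503 c2295 c16011 (k8 c314 c15502 c1065 c4466 c15891 c1639 c1927 c14921 (k8 c91 c15516 c92 c1694 c4411 c13396 c14044 c13785 (k8 c804 c15900 c17000 c292 c5962 c4469 c4475 c4344 (k8 c4429 c4457 c4458 c17001 c4462 c526 c1018 c2996 (k4 c1607 c226 c918 c15775 (k2 c15633 c15588 k0))))))) (by decide +kernel)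
def c17003 : PP 8 4 T 0x1000000000000000000000100000000000010000001000100000000000 := rS 0x2a86264340080a7a3b8190c7905c24305119c64845604bc454d2 (k8 c16788 c16996 c12761 c15502 c15503 c16997 c4446 c2295 (k8 c14921 c17002 c4436 c7490 c1959 c7639 c4462 c1887 (k8 c4482 c526 c1018 c1227 c227 c1879 c1652 c5962 k0))) (by decide +kernel)
def c17004 : PP 8 4 T 0x1000000000000000000000000000000000010000001000100000000000 := rS 0x1ba30422a (k4 c16996 c314 c17003 c1384 (k1 c16999 k0)) (by decide +kernel)
def c17005 : PP 8 4 T 0x1000000000000000000000000000000000000000001000100000000000 := rS 0x2006071f0dd180b2b960422a (k8 c16996 c314 c17004 c63 c535 c15503 c1384 c16998 (k4 c11031 c2136 c4462 c1106 k0)) (by decide +kernel)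
def c17006 : PP 8 4 T 0x1000000000002000000000000100000000000000214000001000000000000000000000 := rS 0x3f0fed2 (k4 c16788 c594 c4480 c14643 k0) (by decide +kernel)
def c17007 : PP 8 4 T 0x1000000000002000000000000100000080400040204001001000001000000020004000 := rS 0x915ad0e18c85c84c2ac73e9c1a411 (k8 c16790 c16788 c17006 c1691 c4289 c4284 c4401 c1473 (k4 c15727 c16825 c4422 c1705 (k2 c4328 c4793 k0))) (by decide +kernel)
def c17008 : PP 8 4 T 0x2000000000000000000000100080240000011000000000080000000000 := rS 0x122645c415426700959a449 (k8 c16793 c16788 c15503 c15891 c5084 c1734 c4313 c595 (k2 c4904 c1206 (k1 c6671 k0))) (by decide +kernel)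
def c17009 : PP 8 4 T 0x2000000000000000000000100000000000010000041000080001000000 := rS 0x4314d143f9f4de9652aa4e69d5f9ece80f588ccaa45052cc083103a0c06990d4452af12d9b4c26700a3d263b4d8703e560488496231ab48220d (k8 c16795 c16790 c16788 c16797 c16796 c16789 c314 c15502 (k8 c15503 c1065 c4466 c765 c4403 c1029 c15361 c15891 (k8 c5084 c5402 c9753 c92 c11030 c1694 c4411 c15545 (k8 c15564 c2395 c638 c15469 c295 c4461 c10182 c4462 (k8 c15561 c12210 c15547 c15511 c12199 c15904 c703 c6330 (k8 c15070 c13701 c6029 c5936 c11025 c16831 c1691 c17008 (k4 c17007 c15685 c16826 c4330 k0))))))) (by decide +kernel)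
def c17010 : PP 8 4 T 0x2000000000000000000000100000000000010000041000080000000000 := rS 0x162e73032c8161b0c004381f2b02442d2 (k8 c16788 c314 c15502 c15503 c1065 c4466 c15891 c17009 (k8 c171 c7490 c15549 c4462 c152 c4358 c526 c15601 k0)) (by decide +kernel)
def c17011 : PP 8 4 T 0x2000000000000000000000100000000000010000001000080000000000 := rS 0x550c4c80202c140c8605861321b1990838670f804ac0910945e2d2 (k8 c16788 c11030 c4405 c314 c15502 c15503 c15891 c1065 (k8 c5084 c4466 c17010 c2295 c16823 c1927 c15545 c7490 (k8 c7639 c4462 c4410 c526 c1018 c4191 c16833 c1652 (k1 c5962 k0)))) (by decide +kernel)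
def c17012 : PP 8 4 T 0x10000001000100000000000 := rS 0x5125cdc5e5c078acb70ea3222214aa84543f723486a49 (k8 c16793 c16797 c16788 c17005 c4288 c16996 c1734 c1694 (k8 c314 c4411 c17011 c1027 c1118 c16912 c4466 c5990 (k4 c1068 c1067 c1193 c5821 (k1 c3439 k0)))) (by decide +kernel)
def c17013 : PP 8 4 T 0x2000000000140000000000000000000001020000040000001100000100 := rS 0x13c82bf0c03cee450d9740c007882e1a374615c6a392692da423 (k8 c16796 c16788 c16789 c16794 c16792 c16797 c63 c15503 (k8 c1384 c4383 c535 c11030 c16987 c4462 c752 c2669 (k8 c8444 c16566 c4046 c15545 c6330 c1872 c258 c2114 k0))) (by decide +kernel)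
def c17014 : PP 8 4 T 0x4000000000000000000000000000000008000000040000020000000000080000000200 := rS 0x2a19c04b3 (k4 c16243 c1106 c656 c226 (k1 c15552 k0)) (by decide +kernel)
def c17015 : PP 8 4 T 0x1000100000000000 := rS 0xd8648400018257abb1298524a239a5d71170f2dc6e1d4616cae5878b1c7ee450a544311151246ad2 (k8 c16788 c16797 c16793 c16996 c4411 c314 c1694 c1734 (k8 c17005 c4288 c4289 c11030 c17012 c63 c93 c15503 (k8 c1027 c1384 c1118 c4466 c16979 c5990 c1193 c3118 (k8 c5821 c4487 c6594 c1463 c3442 c3136 c17014 c14819 (k4 c16987 c17013 c16592 c2669 (k1 c15545 k0)))))) (by decide +kernel)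
def c17016 : PP 8 4 T 0x200000000000000000040000000044000000050000015001000000000150000144000 := rS 0x50894b8fd2fc3590d21191c9211 (k8 c16790 c16793 c16798 c16796 c16788 c15727 c15709 c15706 (k4 c4305 c7308 c11222 c810 (k1 c15687 k0))) (by decide +kernel)
def c17017 : PP 8 4 T 0x1000000000000000000000100000000000000000040000140000000004 := rS 0x4506cc6079bc42a34f99cca5949c5cc2013e9fd627b054412e3f14a54c7042a8242a13039d1e21a5995878110691da423 (k8 c16796 c16788 c16798 c16795 c16790 c17015 c15503 c16001 (k8 c15549 c12761 c15904 c2674 c1679 c327 c15502 c1687 (k8 c4464 c4407 c802 c1680 c145 c11783 c7465 c4462 (k8 c703 c622 c7517 c7516 c15891 c5402 c4416 c1654 (k8 c63 c7044 c920 c11776 c11410 c16620 c16831 c16035 (k4 c17016 c330 c14266 c4386 k0)))))) (by decide +kernel)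
def c17018 : PP 8 4 T 0x1000000000000000000000100000000000000000040000140000000000 := rS 0x1be2a366303d3a994d8c88a201780853104a98d63043f9f414132a81c347451a7de2092d9b4ce1559994b2971fa4e2e3c30804ac110691da423 (k8 c16796 c16788 c16798 c16795 c16790 c15503 c15891 c5402 (k8 c17015 c4416 c1654 c145 c11783 c63 c7044 c16001 (k8 c327 c920 c9753 c92 c15502 c12761 c11776 c11410 (k8 c15904 c15549 c2674 c1687 c1679 c4462 c7516 c7517 (k8 c4464 c622 c4407 c802 c7465 c1680 c17017 c8877 (k8 c12975 c2406 c422 c13624 c16859 c967 c15494 c17016 (k4 c330 c4386 c1343 c14266 k0))))))) (by decide +kernel)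
def c17019 : PP 8 4 T 0x1000000000000000000000100000000000000000000000140000000804 := rS 0x1849c2944d36c68422cd2298818d0e7f3e86d2a551983c38041087d469f789b4ce1559994b2971fa4e2e6100c64263b1e05c82993b86484560691da423 (k8 c16796 c16788 c16798 c16795 c15503 c17018 c7490 c1886 (k8 c1071 c91 c573 c17015 c89 c571 c4446 c15891 (k8 c5402 c4416 c1654 c145 c11783 c63 c7044 c16001 (k8 c327 c920 c9753 c12761 c11776 c11410 c274 c16620 (k8 c4461 c4466 c16035 c336 c12210 c15556 c16011 c7516 (k8 c7517 c7313 c12253 c7465 c1680 c13396 c5853 c4465 (k4 c17016 c804 c13647 c15742 (k2 c4488 c333 (k1 c15895 k0))))))))) (by decide +kernel)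
def c17020 : PP 8 4 T 0x1000000000000000000000100000000000001000000000140000000800 := rS 0x1d0d6394cc6893f9f5469f2d99c2ab3329652e3f49c5cc2015585c626943944828b0d908325678c405202098ec7823239241ad2 (k8 c16788 c16795 c16793 c16798 c16796 c17015 c89 c571 (k8 c17019 c795 c4468 c12761 c15503 c7490 c17018 c2290 (k8 c5853 c91 c1685 c13785 c13396 c2245 c573 c14464 (k8 c15891 c5402 c4416 c1654 c145 c11783 c63 c7044 (k8 c16001 c327 c920 c92 c11776 c11410 c7516 c7517 (k4 c7030 c11648 c15794 c15742 (k2 c15709 c17016 (k1 c6403 k0)))))))) (by decide +kernel)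
def c17021 : PP 8 4 T 0x1000000000000000000000100000000000000000000000140000000800 := rS 0x226a5a28c904a7278dc1f1486b1ca8911486c6225100bc0417098640e3b1e28d3ef12c96cc2012b10484232389c920d258449ad2 (k8 c16788 c16794 c16790 c16789 c16795 c16793 c16791 c16798 (k8 c16796 c17018 c91 c15503 c15891 c5402 c92 c63 (k8 c12761 c11776 c11410 c17015 c89 c83 c7490 c571 (k8 c573 c17019 c8877 c12975 c2243 c2245 c2290 c795 (k8 c886 c17020 c2250 c15709 c14284 c6403 c4386 c338 (k4 c15743 c6153 c14506 c4452 (k2 c1937 c4340 (k1 c11448 k0)))))))) (by decide +kernel)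
def c17022 : PP 8 4 T 0x1000000000001000014044450000050000015001000080045550005104000 := rS 0x61b142c1249c4224c71e13c1a4b118444e4d (k8 c16794 c16791 c16790 c16796 c16789 c16795 c338 c17015 (k8 c330 c4469 c7465 c1654 c17016 c14506 c3722 c3964 (k1 c15710 k0))) (by decide +kernel)
def c17023 : PP 8 4 T 0x1000014044040104050000004000000080040140000100400 := rS 0x115088220d93455aa44bc5d8a091fa0e27c356e6d32a4e2e6128a54de8f149540a590099d361c1087c788134a14371218865e22f0101812332b1044ed20692c6a49 (k8 c16793 c16797 c16789 c16795 c16788 c16791 c91 c15503 (k8 c12976 c15502 c4462 c1018 c8877 c12761 c7639 c228 (k8 c4469 c334 c6224 c13396 c6395 c17015 c274 c799 (k8 c4466 c2765 c920 c15891 c63 c526 c15659 c7860 (k8 c15361 c1019 c15518 c1685 c5402 c4416 c1654 c7044 (k8 c9753 c1742 c15701 c338 c17022 c4376 c16954 c11879 (k8 c1336 c225 c4352 c4389 c16112 c7308 c6467 c10617 (k2 c4484 c14294 (k1 c4322 k0))))))))) (by decide +kernel)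
def c17024 : PP 8 4 T 0x1000000000000000000000100000000000000000000000140000000000 := rS 0x120258a8d9826b4ec48f631348650e7d3f98d362f2aa3cde714a8080a1c569dc3606398cc420b55946324121184ca1533804b2b32b025e3170fa4d2e3f1e28d3ed2238346a23 (k8 c16796 c16797 c16795 c16798 c16788 c11776 c11410 c17015 (k8 c145 c11783 c1654 c274 c4416 c12761 c15502 c15503 (k8 c16001 c63 c15891 c920 c327 c7044 c5402 c17018 (k8 c91 c4446 c1685 c14464 c17021 c799 c12976 c1615 (k8 c4462 c334 c1887 c15562 c4466 c526 c1018 c15518 (k8 c496 c1019 c15361 c15659 c8877 c2765 c7153 c10049 (k8 c7516 c9141 c7639 c13396 c228 c1227 c4469 c4344 (k4 c4442 c14373 c17023 c4386 (k2 c11879 c16019 (k1 c16821 k0)))))))))) (by decide +kernel)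
def c17025 : PP 8 4 T 0x400000000000210000001001000004050000401001514001480181000000400040001410005104800 := rS 0xb93e967965aba30a7898c9027733aad5a09258349227 (k8 c16791 c16793 c16795 c16789 c84 c4338 c4415 c4334 (k8 c6033 c6395 c15245 c4340 c902 c4488 c15848 c5517 (k4 c4447 c4428 c6220 c572 (k1 c9781 k0)))) (by decide +kernel)
def c17026 : PP 8 4 T 0x1001000000000000000000000000000000000010000040000140000000800 := rS 0xc0579e513090d33cfc8b391d60a54a1b1d0aa97e9f41ea01ba6d7e994aa0cdc5e368948a130c958123b49a8d3eab29b153a3159a5c7e6764974c20132c40530d1785404200ea303e3c690d48e23 (k8 c16796 c16798 c16797 c16788 c17015 c274 c17024 c1027 (k8 c4466 c16620 c382 c8877 c4383 c1681 c4468 c4412 (k8 c9668 c5402 c1338 c7308 c4334 c145 c11783 c5025 (k8 c316 c967 c1783 c332 c4415 c11776 c11410 c1654 (k8 c89 c84 c303 c7490 c571 c2406 c2243 c9753 (k8 c1068 c1067 c15529 c15965 c16859 c6330 c13624 c1383 (k8 c11072 c4046 c1379 c4378 c3479 c1499 c330 c4423 (k8 c15677 c4406 c1687 c307 c1767 c4483 c3498 c17025 (k4 c4316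 c678 c599 c9756 (k2 c15776 c1621 k0)))))))))) (by decide +kernel)
def c17027 : PP 8 4 T 0x1001000000000000004000040000000200010012000044004050241000400 := rS 0x21217892bc8a2f041ac0505368c402690d968ae8b (k8 c1767 c799 c4476 c15894 c13396 c9668 c316 c7462 (k8 c4406 c16620 c6117 c12637 c8877 c440 c5815 c4469 (k2 c16257 c16255 (k1 c4465 k0)))) (by decide +kernel)
def c17028 : PP 8 4 T 0x10000001001000000000100015020040000000000050010000042040050201000400 := rS 0x2752c8a4167ab996873ba9e2632349b47e1f1898ce61b35808e8c73da240e012a020b45759d0da427 (k8 c16791 c16788 c4423 c5025 c799 c4476 c12637 c234 (k8 c9668 c494 c9049 c12934 c2149 c235 c16620 c6117 (k8 c15894 c1615 c843 c316 c274 c145 c7462 c13396 (k8 c17027 c4340 c902 c7751 c11158 c5517 c12794 c1795 (k4 c1063 c16419 c4428 c6022 (k1 c6220 k0)))))) (by decide +kernel)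
def c17029 : PP 8 4 T 0x1001000000000000000000000000000000000010000040000140000000000 := rS 0x13c82450c2a41ea01b9f44a7403820c65a3995c16bd1dc5d470d5aa7ccaab5698402311007cbab34b8fccf1014875183c690d48e23 (k8 c16796 c16798 c16797 c16788 c17015 c17024 c1027 c1681 (k8 c4468 c4334 c145 c11783 c5025 c1338 c274 c4466 (k8 c316 c9668 c5402 c4338 c4415 c4412 c11776 c1387 (k8 c4383 c11410 c4416 c89 c16911 c17026 c799 c1615 (k8 c4476 c843 c12637 c494 c235 c2142 c1690 c1383 (k8 c11536 c4046 c16853 c17028 c2180 c1873 c258 c6022 k0)))))) (by decide +kernel)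
def c17030 : PP 8 4 T 0x2000000000000000080004000200000000000000000040000140000000808 := rS 0x2f952375e894ad0d14a7462200f93c82455da6c3a3c1a8e49a4b (k8 c16789 c16794 c16792 c16797 c17015 c1027 c15614 c1390 (k8 c4296 c4433 c4297 c274 c4466 c316 c967 c1681 (k8 c4383 c303 c2243 c3066 c1383 c16886 c2114 c9441 k0))) (by decide +kernel)
def c17031 : PP 8 4 T 0x1000000000000000000000000000000000010000040000140000000000 := rS 0xbd5f83c6ea93b8644ac734820b45705c4d76aea59b536452093c2ef001174771749a8d3f0d55ab62029308053a3110075181f1e0d4724d2591c46d2 (k8 c16788 c16796 c16798 c16789 c16794 c16792 c16797 c17015 (k8 c274 c17024 c1027 c4466 c316 c967 c9668 c5402 (k8 c1681 c4468 c4338 c4415 c4383 c11776 c11410 c1654 (k8 c4416 c89 c1338 c16620 c17029 c4431 c4297 c4433 (k8 c4296 c15614 c5028 c15673 c15753 c1390 c4346 c17030 (k8 c799 c4476 c12637 c844 c2149 c2142 c10711 c7751 (k4 c15781 c1383 c4046 c9441 (k2 c16852 c2114 k0)))))))) (by decide +kernel)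
def c17032 : PP 8 4 T 0x1001000000000540100020000000005011040001400002001040205440024 := rS 0x1048937b4592b2828510f08429a50277a19f4c2010883496d2 (k8 c16788 c16789 c16795 c16790 c9668 c5402 c1625 c4423 (k8 c15565 c6395 c13396 c6224 c4465 c4440 c14212 c4308 (k4 c327 c630 c454 c1190 (k2 c4742 c2122 (k1 c8144 k0))))) (by decide +kernel)
def c17033 : PP 8 4 T 0x1000000000000400000000000000000000020000000040140000000800 := rS 0x319fc2b1738a3c267532c4052032b83e1a5b2a9cd26c73ea804aa34f98402200ea303e3c690d48e23 (k8 c16796 c16798 c16797 c16788 c17015 c274 c17024 c1027 (k8 c4466 c9668 c5402 c11776 c11410 c312 c11072 c1625 (k8 c330 c1654 c1109 c307 c93 c4383 c6403 c63 (k8 c303 c1681 c4468 c4412 c538 c1678 c100 c537 (k4 c4416 c327 c10049 c12253 (k1 c17016 k0)))))) (by decide +kernel)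
def c17034 : PP 8 4 T 0x1000000000000540114020000000415414000000500000005550000200000 := rS 0x10285443419eaf (k4 c5815 c1794 c2112 c455 (k2 c685 c2045 (k1 c2122 k0))) (by decide +kernel)
def c17035 : PP 8 4 T 0x1001000000000000000000000000000000000000000040040140000000800 := rS 0x40a14d4a734c4c645d37b2428b2288bd829b8c20e121a3ea804aa34fc34ceab56ac4c201299b4e28f099d4cb1014af576a95f80c327b2a9cd26790b91412573b810b03110075181f1e09c22d21a92c8e23 (k8 c16796 c16798 c16789 c16797 c16788 c16790 c16791 c17015 (k8 c274 c17024 c1027 c4466 c316 c17031 c534 c15565 (k8 c63 c1105 c13923 c2497 c14867 c1654 c1109 c307 (k8 c703 c308 c303 c6330 c1507 c6870 c16911 c1681 (k8 c4468 c4412 c538 c1678 c100 c537 c4993 c332 (k8 c9668 c5402 c1116 c4338 c4415 c4334 c4383 c11776 (k8 c11410 c312 c11072 c1625 c17032 c4316 c638 c4482 (k8 c4448 c4450 c836 c1684 c17033 c662 c2614 c1190 (k8 c811 c17034 c4340 c822 c902 c431 c10079 c1923 (k1 c6353 k0)))))))))) (by decide +kernel)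
def c17036 : PP 8 4 T 0x40000000000021000000000000000000400001500000000000000554000000000002000000000000000 := rS 0x1707f8baddf849 (k4 c16793 c4480 c1742 c4416 (k2 c10049 c15745 (k1 c15667 k0))) (by decide +kernel)
def c17037 : PP 8 4 T 0x1001000000000000000000000000000000000000000040000140000000800 := rS 0x286c73f22117055932e96d0439445eaf60a6c671852c25088340bf0de248a8d8ee792a83cf6040bc356a9f33aad5ab130804a6c52d9b4e69338a3cea65880a57a311007518bb5f91412572c07c78491a92da447 (k8 c16798 c16788 c16789 c16797 c16793 c17015 c274 c17031 (k8 c63 c1105 c13923 c6330 c6870 c17024 c1027 c4466 (k8 c316 c16911 c1681 c4468 c4412 c538 c100 c537 (k8 c1654 c1109 c4993 c93 c1783 c332 c9668 c5402 (k8 c1116 c4338 c4415 c4334 c11776 c1387 c4383 c2497 (k8 c534 c703 c6403 c307 c14867 c15565 c17035 c4386 (k8 c1383 c1343 c4480 c4380 c4306 c2122 c4321 c1402 (k8 c13580 c435 c4448 c4450 c5815 c836 c1684 c14634 (k8 c2112 c4426 c1750 c17036 c4312 c2704 c7658 c15832 (k2 c15861 c4392 (k1 c5531 k0))))))))))) (by decide +kernel)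
def c17038 : PP 8 4 T 0x10000001000000000000000000000000000800000001100000000001400000000000 := rS 0x17dfa27 (k4 c16791 c4306 c6467 c4477 k0) (by decide +kernel)
def c17039 : PP 8 4 T 0x1000000000000540100000000000405414000000000000000000005000000 := rS 0x42a041a4b (k4 c16789 c16795 c6395 c6224 (k1 c2122 k0)) (by decide +kernel)
def c17040 : PP 8 4 T 0x1001000000000000000000000000000000000000000040000140000000000 := rS 0x500b86107052a324f6372e9dc3625379e45e06078540a0205afd76bd1dadd2e3f86ad53ead58984025318880b673499c51e7532c40521d4611412572c07c78d21a92c8e49 (k8 c16793 c16798 c16789 c16797 c16788 c17015 c274 c17031 (k8 c63 c1105 c13923 c17024 c1027 c1681 c4468 c4412 (k8 c538 c100 c537 c1654 c1109 c93 c4466 c316 (k8 c332 c9668 c5402 c1116 c4338 c11776 c1387 c4383 (k8 c145 c11783 c1742 c89 c16911 c6870 c6330 c17037 (k8 c12555 c310 c326 c15653 c4462 c8877 c9840 c1020 (k8 c224 c15581 c15578 c1337 c1383 c14312 c7308 c12410 (k4 c4406 c17038 c17039 c35 (k2 c16554 c1605 k0))))))))) (by decide +kernel)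
def c17041 : PP 8 4 T 0x1000000000000000000000000000000000000000040040140000000800 := rS 0xbd5f9dd52b263a8d3f0d47ac4c20129a74da9ba5c4d5cf055ab62029188ee2e9310075181f1e010b0196911c4635 (k8 c16797 c16796 c16798 c16788 c308 c17031 c534 c17015 (k8 c274 c17024 c1027 c4466 c1654 c4416 c89 c316 (k8 c1681 c4468 c4338 c4415 c17040 c15753 c4346 c15673 (k8 c15614 c4993 c967 c332 c9668 c5402 c1116 c100 (k8 c4383 c11776 c11410 c330 c17033 c15781 c15780 c9441 (k2 c16941 c5504 k0)))))) (by decide +kernel)
def c17042 : PP 8 4 T 0x1000000000000000000000000000000000000000040000140000000800 := rS 0x6845a11f86f54c546c0f0cc3562610096cda714784cea5832c4d5cf055ab62029188ee2e9310075181f1e035a435 (k8 c16797 c16788 c16795 c17015 c274 c17024 c1027 c4466 (k8 c1654 c4416 c89 c316 c1681 c4468 c4338 c4415 (k8 c17040 c15753 c4346 c4412 c17031 c538 c1678 c100 (k8 c537 c4993 c93 c9668 c5402 c1116 c4383 c308 (k8 c6403 c17041 c4386 c3481 c1343 c4480 c15570 c15646 (k2 c10079 c829 k0)))))) (by decide +kernel)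
def c17043 : PP 8 4 T 0x1000000000000000000000000000000000000000040000140000000000 := rS 0x5c2f22abf548dc4a0f0280817135732d36f02d960629d1dc5d26a386a3d6a9f55ab6202930804401d4607c78d21a9348e23 (k8 c16796 c16798 c16794 c16797 c16788 c17015 c274 c17024 (k8 c1027 c4466 c9668 c5402 c1681 c4468 c4338 c4415 (k8 c11776 c1387 c100 c4383 c11410 c1654 c4416 c89 (k8 c967 c316 c17031 c93 c17040 c15614 c11546 c15753 (k8 c4346 c17042 c12555 c310 c15653 c224 c1383 c16886 (k4 c9441 c15612 c5504 c11891 (k1 c1208 k0))))))) (by decide +kernel)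
def c17044 : PP 8 4 T 0x1000000000000000000000000000000000010000000000140000000800 := rS 0x8984ab9165382a01e0544293d8e773883c6e1941978da7b2d894ac1b1885592022ea4e1a6555ab6202930804401d4607e3209098ec781720908224b26835a435 (k8 c16797 c16788 c16795 c16794 c16789 c16790 c17043 c91 (k8 c573 c17015 c89 c571 c84 c4446 c274 c17024 (k8 c1027 c4466 c9668 c5402 c1681 c4468 c4338 c4415 (k8 c4412 c4383 c1654 c1338 c16620 c7308 c382 c2245 (k8 c2290 c303 c2243 c839 c702 c9753 c1068 c15529 (k8 c7490 c1383 c4046 c1386 c1886 c330 c338 c13580 (k8 c15677 c6153 c2108 c4406 c9029 c1767 c4542 c4439 (k2 c7475 c9756 k0)))))))) (by decide +kernel)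
def c17045 : PP 8 4 T 0x1000000000040000000044000000000001001100040000006150001404000 := rS 0x825386e26491191da44d (k8 c16794 c16788 c16798 c16796 c16793 c4441 c295 c2006 (k2 c6153 c15855 k0)) (by decide +kernel)
def c17046 : PP 8 4 T 0x1001000000000000000000000000000000000000000000040140000000800 := rS 0x29abc34312eb459214502c84a4f63a8d3eab56c40522f2885c826d0796e1a6100864401d4607c783302160840d2588c222726b486a47 (k8 c16798 c16797 c16788 c16794 c16791 c16790 c16796 c16789 (k8 c16795 c17043 c17044 c534 c2293 c17015 c274 c17024 (k8 c1027 c4466 c2257 c9668 c5402 c4383 c93 c6403 (k8 c4993 c91 c573 c1685 c1953 c1681 c4468 c4338 (k8 c4415 c11776 c11410 c330 c338 c312 c17033 c11072 (k8 c662 c2614 c2299 c811 c17045 c14506 c5815 c2287 (k1 c2112 k0))))))) (by decide +kernel)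
def c17047 : PP 8 4 T 0x1000000000000000000000000000400001000000000000002000201404000 := rS 0x13c36d2 (k4 c16788 c295 c2265 c6153 k0) (by decide +kernel)
def c17048 : PP 8 4 T 0x1001000000000000000000000000000000000000000000000140004000800 := rS 0x1a014299a49c8733aad5b1017944263b0195caa7349abc62837e4556271479bc6c190796e1a61009b42e411007c66042c108521d460f1a435 (k8 c16797 c16788 c17015 c17024 c1027 c1681 c17043 c17044 (k8 c534 c2293 c274 c4466 c91 c573 c4993 c9668 (k8 c5402 c4383 c93 c6403 c2257 c17046 c1343 c100 (k8 c537 c1116 c4386 c4480 c4306 c17047 c5815 c1654 (k8 c1109 c307 c63 c303 c89 c571 c1685 c1953 (k8 c4468 c4338 c4415 c4334 c13785 c6153 c13396 c2289 (k2 c14212 c2112 (k1 c2299 k0)))))))) (by decide +kernel)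
def c17049 : PP 8 4 T 0x1001000000000000000000000000000000000000000000000140000000800 := rS 0x1563b40a61a578c506c97e1bcbb151b19556ad880a5622f2884c7617209b4e28f0796e1a6100954e6930c8803a8c0f8f066042c109a435 (k8 c16797 c16788 c17043 c17044 c534 c2293 c17015 c274 (k8 c17024 c1027 c4466 c2257 c1654 c1109 c307 c9668 (k8 c5402 c4383 c93 c6403 c100 c537 c4993 c91 (k8 c573 c89 c571 c1685 c1953 c1116 c1681 c4468 (k8 c4338 c4415 c4412 c17046 c4386 c3322 c1343 c4480 (k8 c7308 c4306 c17047 c5815 c17048 c2287 c2112 c2301 (k2 c2299 c15677 k0))))))) (by decide +kernel)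
def c17050 : PP 8 4 T 0x1000000000000000000000000000000000100000144000200000000000000040000002140000000000 := rS 0x6ec65429d3113868a4401d0f8f04647139249a35 (k8 c16797 c16794 c16793 c16791 c16798 c16796 c17015 c274 (k8 c1027 c4466 c1681 c4383 c4441 c317 c2006 c16923 (k2 c11448 c3481 (k1 c330 k0)))) (by decide +kernel)
def c17051 : PP 8 4 T 0x1000000000000000000000000000000000000000000000140000000800 := rS 0x14e252f9ad53124c8c54b4541205fb08429a4f27b4d93c36f04e9dc661907810e25b2b9602ea34fc351e61008803e3c20c657a2f21075182313934961106b486a47 (k8 c16798 c16797 c16788 c16795 c16790 c16789 c16794 c16791 (k8 c16796 c17024 c1027 c17043 c1953 c2014 c4446 c91 (k8 c17015 c274 c4466 c9668 c5402 c100 c4383 c11776 (k8 c11410 c573 c17044 c63 c93 c537 c534 c6403 (k8 c2257 c2293 c1886 c966 c17049 c4292 c4297 c15614 (k8 c702 c541 c16949 c13580 c10207 c15570 c4439 c2108 (k8 c4452 c1937 c17050 c1926 c4567 c1508 c4442 c548 (k2 c11222 c4532 (k1 c2111 k0))))))))) (by decide +kernel)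
def c17052 : PP 8 4 T 0x1000000000000000000000000200000000000000000080000000201000400 := rS 0x9e17129e41e332c018b60986a44c20117874ae1b54a6462020692c4611139346ad2 (k8 c16788 c16797 c16794 c16791 c16790 c16796 c16789 c16795 (k8 c12555 c11577 c1926 c1508 c334 c799 c1027 c1953 (k8 c9668 c5402 c129 c4383 c236 c12637 c4462 c4476 (k4 c6257 c15653 c7034 c224 (k2 c1950 c5807 (k1 c14506 k0)))))) (by decide +kernel)
def c17053 : PP 8 4 T 0x1000000000000000014000000000000000000000000080001550000400201 := rS 0x15ed11994ca83c (k4 c17015 c234 c2150 c2151 (k2 c2153 c5815 (k1 c16967 k0))) (by decide +kernel)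
def c17054 : PP 8 4 T 0x1001000000000000000000000000000000000000000000000140000000000 := rS 0x372a89624af3a83c66582d8242e181fc5d6eb54f99556ad880a56261008bca2412115c2a731880816200ea303e3c1ab488e49 (k8 c16793 c16798 c16788 c16797 c17015 c274 c17024 c1027 (k8 c4466 c17051 c12555 c11577 c1615 c326 c799 c17043 (k8 c91 c1685 c1953 c9668 c5402 c1116 c1681 c4468 (k8 c4338 c4415 c4412 c11776 c1387 c1742 c4416 c145 (k8 c17052 c35 c17053 c12637 c4476 c6257 c15653 c538 (k4 c5815 c4469 c224 c14479 (k2 c1383 c16965 k0))))))) (by decide +kernel)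
def c17055 : PP 8 4 T 0x1000000000000000000000000000000000000000000000140000000000 := rS 0x208b2099e8ea582da24c68761024aa5235abe249b4e85de0313b8540a022b82ca319209095aab3399620201487518970f8fc7835 (k8 c16797 c17015 c145 c274 c11783 c17024 c1027 c1681 (k8 c4466 c4468 c4412 c4334 c4415 c4338 c17043 c91 (k8 c4446 c1685 c17051 c799 c12555 c310 c326 c1887 (k8 c11577 c17054 c4431 c10547 c15614 c4567 c4346 c4442 (k8 c12654 c15575 c2150 c333 c9141 c11648 c7030 c12637 (k4 c4476 c538 c15819 c1678 (k2 c1211 c9747 (k1 c4312 k0)))))))) (by decide +kernel)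
def c17056 : PP 8 4 T 0x100000001001000000000000000000000100000000000000000040002000000000000 := rS 0x368696656 (k4 c15503 c16001 c15240 c9753 (k1 c295 k0)) (by decide +kernel)
def c17057 : PP 8 4 T 0x100000001001000000000000000000000000000000000000000040002000100000800 := rS 0x6c8c (k2 c17056 c16839 (k1 c1384 k0)) (by decide +kernel)
def c17058 : PP 8 4 T 0x200404101111500100400004000000000000000000000000000 := rS 0x1761aa68a1c4befd30804acd2 (k8 c16788 c15503 c15891 c5402 c4305 c547 c587 c4480 (k4 c15685 c4330 c813 c4477 k0)) (by decide +kernel)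
def c17059 : PP 8 4 T 0x1001000000000000000000000100000000000000000042000080100000800 := rS 0x4362a241b2458cb864afd3a8f54a654a794d9acfe7d0e0cc1e0437a0e12172a87c025b0d054e8b32b2dc06095081d627b098ecb23188b4822490688c9647 (k8 c16798 c16789 c16796 c16795 c16793 c16790 c16788 c4411 (k8 c17057 c535 c89 c571 c703 c622 c83 c1734 (k8 c15514 c15510 c1742 c15503 c16001 c15904 c15517 c15240 (k8 c92 c15891 c1065 c1687 c170 c4316 c638 c16831 (k8 c4461 c16035 c15629 c4466 c7516 c7517 c6097 c6867 (k8 c15563 c5936 c6171 c6029 c15361 c15557 c7782 c17058 (k8 c11938 c15727 c1206 c330 c290 c4386 c4381 c4486 k0))))))) (by decide +kernel)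
def c17060 : PP 8 4 T 0x1001000000000000000000000000000000000000000042000080100000800 := rS 0x649842a5507b1cca010f174ae374b8761a8c2ca4e2e09098eda435 (k8 c16797 c16788 c89 c571 c15514 c4416 c1655 c535 (k8 c17059 c4383 c1027 c16345 c1384 c16128 c1338 c4466 (k8 c567 c7044 c330 c304 c15540 c2205 c5402 c7308 (k1 c15677 k0)))) (by decide +kernel)
def c17061 : PP 8 4 T 0x1001000000000000000000000000000000000000000040000100000000800 := rS 0x64ab1793d149b53a16305c61a0e12fd2f895321a642890e893fc34f304399dc1e752aa302e5b5998cda0430a5462572c1158e154925c021f0e8822f11018a8a6c50c9ec263b1e348220d (k8 c16795 c16790 c16788 c17015 c89 c571 c703 c308 (k8 c1783 c332 c17055 c15510 c4411 c4416 c17060 c85 (k8 c86 c9668 c926 c315 c2261 c2262 c2409 c16620 (k8 c798 c316 c1695 c5402 c4461 c7462 c3550 c662 (k8 c93 c2497 c15503 c15540 c11025 c2255 c15565 c1110 (k8 c4481 c14867 c4383 c7517 c7314 c7313 c12222 c15677 (k8 c14862 c14895 c1463 c1465 c4305 c4316 c638 c1127 (k8 c4477 c4482 c3473 c813 c4448 c15639 c6655 c836 (k2 c1673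 c13552 (k1 c437 k0)))))))))) (by decide +kernel)
def c17062 : PP 8 4 T 0x1000000000000000000000200000000001001000002000080100044000 := rS 0xaa8c3c9386875a435 (k8 c16797 c16788 c1027 c4383 c1655 c4466 c1468 c2205 (k1 c12222 k0)) (by decide +kernel)
def c17063 : PP 8 4 T 0x1000000000000000000000000000000000000000040000100000000800 := rS 0x17ebd60d2c6ecf5c228eaa23396d2a154925c3e20079540861008761abb46114824f0b86de0133d865623b8bc44062a628f06a392692da411 (k8 c16790 c16788 c16789 c16794 c16792 c16797 c17015 c1783 (k8 c17055 c15510 c4411 c4416 c89 c622 c308 c703 (k8 c571 c17061 c4292 c4431 c4297 c4433 c4296 c12761 (k8 c16849 c4383 c1027 c567 c5402 c4461 c12210 c12199 (k8 c17062 c86 c926 c315 c2261 c1695 c575 c654 (k8 c12222 c11025 c11147 c1467 c3501 c3440 c4427 c1712 (k2 c3136 c4572 (k1 c2114 k0)))))))) (by decide +kernel)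
def c17064 : PP 8 4 T 0x1001000000000000000000000000000000000000000042000080000000400 := rS 0x2322e4ca6958690cb42966b55abd84c118a2cf63b1fa24a6453b9d4e61d1ba512e158b86c666d09a1e086749c44c65532a30ae510f000b006048840635 (k8 c16797 c15510 c12555 c15514 c4462 c10598 c16987 c487 (k8 c16314 c1018 c15503 c16541 c15541 c1606 c4411 c1655 (k8 c657 c4478 c4410 c1638 c4993 c950 c2669 c4416 (k8 c326 c12611 c4487 c1384 c1027 c1615 c16540 c16566 (k8 c8444 c332 c7314 c145 c89 c14312 c8133 c16836 (k8 c6869 c15773 c1775 c5962 c493 c4459 c4475 c261 (k4 c757 c2120 c14811 c2051 (k2 c16994 c4448 (k1 c4724 k0))))))))) (by decide +kernel)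
def c17065 : PP 8 4 T 0x1000000000000000000000000000000000000000040000100000000000 := rS 0xad45aae2499579acd3096885c5ef04384e089432800ce6d4ba30ee792c15cc68949818b6550a88416538bc440609150f07235 (k8 c16797 c16792 c17015 c17055 c15514 c15510 c4411 c4416 (k8 c332 c17063 c12555 c326 c15541 c12637 c4462 c1655 (k8 c7314 c1606 c1018 c10598 c501 c16566 c15503 c12611 (k8 c4993 c657 c16987 c16541 c4487 c4478 c1638 c4410 (k8 c17064 c4432 c4431 c4298 c12557 c756 c492 c1774 (k4 c8246 c4479 c1701 c15689 (k2 c10572 c2120 k0))))))) (by decide +kernel)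
def c17066 : PP 8 4 T 0x1001000000000000000000000000000000000008000082000080000000800 := rS 0x344a63061c4d38af448bd2c55459a526954381036191087c2a012dc5e2203048cca2131d85c82d2 (k8 c16788 c91 c573 c89 c571 c14921 c2295 c15514 (k8 c15510 c4411 c4416 c92 c15891 c15516 c1065 c798 (k8 c7490 c16011 c4461 c14835 c1695 c1655 c13396 c5853 (k8 c12210 c4487 c15900 c7030 c4631 c16077 c4344 c15895 (k4 c4469 c333 c301 c2109 k0))))) (by decide +kernel)
def c17067 : PP 8 4 T 0x1000000000000000000000000010000000000005000080002080201000020 := rS 0x6c3e15 (k4 c2261 c86 c2264 c14973 k0) (by decide +kernel)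
def c17068 : PP 8 4 T 0x1001000000000000000000000000000000000000000082000080000000800 := rS 0x20d4c1a189709efd2f8dc4ac8511fd12c70a94c400f0c810c22f008761a554615c2e131d80c823308b481a4b1189c9a35 (k8 c16797 c16794 c16791 c16796 c16789 c16795 c16788 c16790 (k8 c2295 c91 c15510 c89 c571 c573 c17066 c15503 (k8 c15540 c4383 c1027 c567 c1953 c5402 c4461 c15580 (k8 c12199 c17062 c2263 c2261 c2262 c7314 c7517 c12222 (k8 c15677 c1463 c3440 c1465 c4305 c338 c4477 c17067 (k4 c14506 c13552 c638 c813 k0)))))) (by decide +kernel)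
def c17069 : PP 8 4 T 0x1001000000000000000000000000000000000000000082000080000000000 := rS 0x22ca613348c03c1d0c994006736a30b05743a4c0c5b2a86c2a21058a4060920c64a235 (k8 c16797 c14921 c4446 c91 c15514 c15510 c59 c17068 (k8 c12555 c326 c334 c15541 c12637 c4462 c1655 c9141 (k8 c1018 c10598 c15503 c4993 c657 c16987 c16541 c16592 (k8 c1027 c487 c5782 c8015 c1638 c2207 c15538 c16400 k0)))) (by decide +kernel)
def c17070 : PP 8 4 T 0x1000000000000000000000000000000000000000082000080000000800 := rS 0x22912190a94c400f2a810c2013d84c76030db15a21d463c1a435 (k8 c16797 c16788 c17069 c12761 c1027 c4298 c1782 c4292 (k8 c15510 c89 c571 c702 c567 c5402 c4461 c12210 (k8 c12199 c17062 c2263 c2261 c16590 c7314 c11828 c10021 k0))) (by decide +kernel)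
def c17071 : PP 8 4 T 0x1000000000000000000000000000000000000000000000100000000000 := rS 0x8b0c9a42667368c000534a1610e1e49818aa151082c3a8c0dbc0a319209081203148a87835 (k8 c16797 c17015 c17055 c59 c15510 c15514 c17065 c91 (k8 c4446 c14921 c17069 c4292 c12761 c1027 c17070 c12555 (k8 c326 c15541 c4462 c1655 c4466 c9141 c10598 c275 (k8 c2207 c1098 c276 c4993 c657 c3625 c8015 c9671 (k2 c15538 c16400 k0))))) (by decide +kernel)
def c17072 : PP 8 4 T 0x100000000000000000040000140100000800 := rS 0x96881fa0a6551b24ba90384561a8760afd769d319f552a54c9153695479bc660f0e00e2eb7288a40eb13da0c621a0c87c78593699cb6553a2cc2af172024c2012b348920d088d49623 (k8 c16796 c16789 c16797 c16790 c16795 c16793 c16788 c15503 (k8 c15891 c5402 c84 c17071 c11030 c4284 c662 c15904 (k8 c1687 c92 c592 c9753 c63 c17015 c274 c308 (k8 c15545 c15508 c638 c703 c622 c83 c4402 c4405 (k8 c1742 c4416 c12975 c4466 c16035 c15629 c16831 c15361 (k8 c762 c765 c15561 c15564 c5936 c6029 c1691 c9785 (k8 c15070 c6870 c6330 c6869 c1692 c16824 c16826 c17006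 (k8 c4486 c4628 c587 c939 c6871 c15669 c6037 c4478 (k2 c15589 c4336 k0))))))))) (by decide +kernel)
def c17073 : PP 8 4 T 0x10000000000000000000400000405521100000000210001000000040141010004000 := rS 0xc82f1fd487d47aa628a051adc78130a8a58ee430804ac472483422d2 (k8 c16788 c16790 c16795 c16793 c16798 c15503 c15891 c5402 (k8 c17071 c4289 c4402 c4284 c4401 c17015 c1742 c15890 (k8 c11072 c14284 c7768 c851 c1625 c15685 c15595 c1883 (k2 c2107 c546 k0)))) (by decide +kernel)
def c17074 : PP 8 4 T 0x10000000000000000000400400405541100000040200001000000040141010004000 := rS 0x1f8e27d8a281471031a54261514b1dc86100994b25649c5c78d2 (k8 c16788 c17015 c4416 c1654 c15503 c63 c7044 c15891 (k8 c5402 c17071 c4289 c4402 c4284 c4401 c17073 c9785 (k8 c4487 c4337 c11072 c14284 c1625 c4387 c17016 c10049 k0))) (by decide +kernel)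
def c17075 : PP 8 4 T 0x100000000000000000040000140000000800 := rS 0x1927d5c9be2a3653afc1e9b340c88b0d4c8bd3e254e80922970e880c25539804b6593a15a2eb71e31de20958acc2a1a0cb90220d138d5a449 (k8 c16793 c16788 c16797 c16791 c16795 c16790 c17071 c308 (k8 c15545 c4284 c662 c622 c84 c11030 c4289 c17015 (k8 c1742 c4416 c15503 c15904 c63 c92 c15891 c96 (k8 c1687 c5402 c17072 c85 c926 c886 c16620 c967 (k8 c313 c15559 c2777 c16859 c13534 c2406 c422 c423 (k8 c13624 c6403 c6330 c902 c17074 c4386 c1343 c1471 (k2 c1691 c11399 (k1 c10194 k0)))))))) (by decide +kernel)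
def c17076 : PP 8 4 T 0x1000000000000000002100000000200000000000020000000000000000000000 := rS 0x6e2ec54e28f (k4 c100 c537 c4389 c3323 (k2 c4480 c1108 k0)) (by decide +kernel)
def c17077 : PP 8 4 T 0x1000008040000000000000000000002000040000000000 := rS 0x12b11 (k2 c4414 c1698 (k1 c7465 k0)) (by decide +kernel)
def c17078 : PP 8 4 T 0x10044000000000000000000000000045540010000000 := rS 0x2804ae41007c78d2 (k8 c16788 c17015 c274 c4466 c17071 c312 c11072 c15661 k0) (by decide +kernel)
def c17079 : PP 8 4 T 0x200004000000001000000000140008000804 := rS 0x1be2a364fad55a2f4dbf6307f3b83c667938810b11778ac5661572424628f51a4c0297100743e731e3486a11 (k8 c16790 c16797 c16788 c17015 c1614 c274 c1027 c4466 (k8 c926 c567 c1654 c1468 c100 c15508 c4316 c17071 (k8 c4284 c662 c622 c11030 c4416 c16620 c4461 c537 (k8 c2504 c15547 c12199 c15565 c10049 c4482 c14643 c4448 (k8 c836 c13185 c17076 c17077 c17078 c4386 c1343 c4480 k0))))) (by decide +kernel)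
def c17080 : PP 8 4 T 0x200004000000001000000000140008000800 := rS 0x2853e7c3fad59265079b8bc592d894ac05011ce2e130ab1c130d51a4d2e200f8f0c26700875c82711b482235 (k8 c16797 c16790 c16788 c16796 c16791 c17071 c1027 c567 (k8 c5084 c5402 c17015 c274 c4466 c926 c1654 c1468 (k8 c4383 c84 c4289 c4284 c4401 c4416 c1614 c17079 (k8 c55 c303 c2243 c839 c534 c1068 c1067 c6403 (k8 c7044 c546 c3360 c1460 c15727 c17077 c1625 c15733 k0))))) (by decide +kernel)
def c17081 : PP 8 4 T 0x40000140000000800 := rS 0x220954da64ac2f55abcd60261b05a08645814e47522c14a86d33a7402200ea31123184869667b0c824a21578b918a1f498f06ad2 (k8 c16788 c16797 c17015 c1654 c274 c1783 c17071 c11030 (k8 c4284 c4405 c84 c308 c703 c662 c15545 c4316 (k8 c15508 c678 c17075 c1027 c4466 c567 c967 c5084 (k8 c7462 c17080 c4406 c2407 c1687 c307 c12210 c1767 (k8 c429 c428 c6869 c1088 c4461 c558 c9756 c1670 (k4 c8877 c303 c1072 c13624 (k2 c803 c7276 (k1 c15686 k0)))))))) (by decide +kernel)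
def c17082 : PP 8 4 T 0x10000000010000180000000001108000000140002100000000008 := rS 0x16abda1b319ecb5530c824f89c5d6e5363b1478bb5fb04a2f143391a44d2591c9235 (k8 c16797 c16793 c16798 c16789 c16794 c16788 c17071 c6832 (k8 c11030 c4405 c6869 c6330 c6870 c17015 c1783 c4289 (k8 c4290 c1742 c4416 c4441 c2140 c1912 c8801 c11158 (k4 c14965 c3557 c2116 c4395 (k2 c2068 c1438 (k1 c5761 k0)))))) (by decide +kernel)
def c17083 : PP 8 4 T 0x100000000000000000040000140000000000 := rS 0x1563134b455ead45994c496828cd127b590605e054c86c8a0233884da59031581253288a5e2e43982c78d2 (k8 c16788 c17015 c17081 c1615 c17071 c11030 c4402 c4405 (k8 c4290 c15502 c15503 c4462 c63 c9753 c799 c921 (k8 c1018 c3230 c15469 c2997 c526 c8877 c15545 c15549 (k8 c14312 c15893 c15504 c4312 c1187 c1188 c552 c722 (k4 c4903 c4631 c261 c15920 (k2 c17082 c14076 (k1 c2112 k0))))))) (by decide +kernel)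
def c17084 : PP 8 4 T 0x1000000000440000000040040014000000000100000000000 := rS 0x34a1cb4b38b8f1c8d2 (k8 c16788 c17071 c17015 c4416 c5025 c4476 c7043 c844 (k1 c6832 k0)) (by decide +kernel)
def c17085 : PP 8 4 T 0x40000140002000000 := rS 0x82373b894660f27824b6584db048a5139a5cae61338045e0205af462200ea31e2e40f8f1a435 (k8 c16797 c16788 c17015 c274 c17071 c11030 c17083 c1027 (k8 c4466 c316 c16911 c17081 c12555 c8877 c9668 c5084 (k8 c5402 c799 c926 c1615 c4405 c2180 c6869 c13624 (k8 c17084 c93 c1105 c16989 c15653 c6737 c224 c16582 (k2 c1383 c1872 (k1 c6022 k0)))))) (by decide +kernel)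
def c17086 : PP 8 4 T 0x40000140000000000 := rS 0x8a062c024b61a0c814ae200ea30161f1e391a435 (k8 c16797 c16788 c17071 c17015 c274 c17081 c17083 c1027 (k8 c4466 c799 c310 c17085 c15545 c15894 c2396 c4476 (k2 c4462 c13923 (k1 c15581 k0)))) (by decide +kernel)
def c17087 : PP 8 4 T 0x100000000000000000040000100100000800 := rS 0xbf6427536793faa54a9935810627d07954e6330f804da5b379d0acb709b1de203048f1422a03ac4f6b30a96612830d065c8d20888c9649 (k8 c16793 c16789 c16796 c16790 c16788 c17071 c308 c15545 (k8 c638 c4316 c535 c4284 c662 c703 c622 c83 (k8 c17086 c1734 c17015 c15514 c15510 c11030 c4289 c4401 (k8 c1742 c15503 c15904 c16831 c92 c9753 c15891 c1065 (k8 c15629 c96 c1687 c305 c1691 c295 c4461 c559 (k8 c6171 c5936 c6029 c17008 c15563 c6867 c15557 c15727 (k2 c7782 c17058 k0))))))) (by decide +kernel)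
def c17088 : PP 8 4 T 0x40000100100000800 := rS 0x8682194ce692d0043c570ea3034590cb90122a498f1a435 (k8 c16797 c16788 c17015 c1655 c17086 c15514 c17071 c308 (k8 c535 c15545 c17087 c1027 c16128 c4466 c567 c4476 (k4 c15527 c5084 c579 c15594 (k2 c6832 c4410 k0)))) (by decide +kernel)
def c17089 : PP 8 4 T 0x40000100100000000 := rS 0x5e9049e8384bf4f6188206c6e6500230ee58229c4ae062d82de2e401824543c691346a0d (k8 c16795 c16797 c16794 c16788 c17015 c17086 c15514 c15510 (k8 c17071 c11030 c17088 c12637 c4462 c1018 c496 c8444 (k8 c10598 c16566 c15503 c16987 c16541 c1384 c2669 c9051 (k8 c15545 c14312 c4961 c4436 c1998 c16989 c1872 c7175 (k1 c6022 k0))))) (by decide +kernel)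
def c17090 : PP 8 4 T 0x40000100000000000 := rS 0x538949ecba58bd0a5c2fb3e868a4d9b990c38c3f4fa7f52a64e28384aa50f04449dc1e33399d4f25b4606982bf31accf6b102154ce614a960ae310c915240a0087c40a101c4454c58b8f026510ab1de2e41189c9a4b690446a49 (k8 c16793 c16797 c16790 c16788 c16789 c16794 c16791 c16796 (k8 c17071 c11030 c4289 c4284 c4405 c4401 c17015 c4416 (k8 c1783 c17086 c4411 c15510 c1734 c17089 c86 c9668 (k8 c16312 c315 c2409 c16590 c316 c798 c16620 c1695 (k8 c5402 c5084 c15591 c4461 c622 c703 c662 c3550 (k8 c6330 c6869 c15545 c15503 c93 c2504 c539 c1614 (k8 c15547 c12199 c15565 c7172 c4481 c7043 c1507 c4316 (k8 c638 c1386 c6171 c5936 c4313 c4409 c4961 c4482 (k8 c1127 c15727 c16546 c4448 c2123 c4422 c1793 c547 (k8 c1108 c1499 c836 c4427 c1753 c6220 c11222 c813 (k1 c2111 k0))))))))))) (by decide +kernel)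
def c17091 : PP 8 4 T 0x8000000004100000000800 := rS 0x1b0cb9084d2 (k4 c16788 c17090 c17071 c7490 (k2 c16011 c15545 k0)) (by decide +kernel)
def c17092 : PP 8 4 T 0x100100000800 := rS 0xd078321d2d230ae590481de2e419909a435 (k8 c16797 c16788 c17090 c336 c17071 c11030 c83 c84 (k8 c535 c17091 c15503 c4476 c1027 c16909 c4466 c15545 (k1 c2208 k0))) (by decide +kernel)
def c17093 : PP 8 4 T 0x100000000000000000000000100100000000 := rS 0xc8b2579a20a8b17814f4754319c026d2c9e40c5604c5ca613288a5e319199cc787784a24301b05909c8d2 (k8 c16788 c17071 c17090 c17092 c334 c15545 c15893 c4436 (k8 c1887 c17015 c1615 c336 c4446 c11030 c4402 c4405 (k8 c4401 c4290 c4416 c15502 c15503 c4462 c1959 c63 (k8 c9753 c15891 c921 c7639 c498 c4482 c526 c1871 (k4 c186 c4410 c1227 c9756 (k2 c4481 c15920 (k1 c552 k0))))))) (by decide +kernel)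
def c17094 : PP 8 4 T 0x100100000000 := rS 0x70496454030f07518180d82c78f1721086ad2 (k8 c16788 c16797 c17090 c17071 c11030 c17015 c17092 c334 (k8 c15545 c17093 c1027 c4466 c2131 c274 c16592 c15514 (k2 c10458 c4462 k0))) (by decide +kernel)
def c17095 : PP 8 4 T 0x8000000000100000000800 := rS 0x1b0cb9084d2 (k4 c16788 c17090 c17071 c7490 (k2 c16823 c15545 k0)) (by decide +kernel)
def c17096 : PP 8 4 T 0x1000000000000000000100000000000000010000000000000080000000004000 := rS 0xdf15 (k2 c4386 c1343 (k1 c4480 k0)) (by decide +kernel)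
def c17097 : PP 8 4 T 0x140000000800 := rS 0xba7d56281469f498752f0d5aa114c4f128dc1eb119bc4625b1790484837e9fce7171e1c4b08f462cc2a550242434190195dc86100881a411 (k8 c16790 c16788 c17094 c9668 c5402 c17071 c17095 c303 (k8 c16590 c15545 c4316 c4461 c12210 c4284 c662 c15503 (k8 c100 c16620 c537 c17015 c4416 c1614 c10049 c14643 (k8 c638 c17090 c91 c837 c93 c15526 c11030 c15547 (k8 c622 c12199 c17096 c312 c338 c13552 c5558 c17076 (k8 c4383 c926 c85 c1654 c17077 c1468 c11072 c17078 (k2 c1625 c2794 (k1 c15853 k0)))))))) (by decide +kernel)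
def c17098 : PP 8 4 T 0x1001000002000000000005544000000010048014010821000080005000200000000 := rS 0xa2 (k2 c16443 c1465 k0) (by decide +kernel)
def c17099 : PP 8 4 T 0x100000000800 := rS 0x2f195426f2e8a908a61293c6eb57e9fd56af39a24f483848c41e332a9c4b6770d010b01947c34068c2bacd63175b8f0a21514bc5c82f20908c201103489211 (k8 c16790 c16793 c16788 c17094 c9668 c5402 c17090 c91 (k8 c837 c17071 c11030 c4402 c4284 c4405 c17015 c1742 (k8 c4416 c622 c662 c17095 c15503 c303 c4383 c100 (k8 c16590 c16620 c4461 c15545 c1886 c93 c537 c12210 (k8 c15547 c12199 c15526 c4316 c638 c335 c678 c1614 (k8 c5815 c5962 c10049 c14643 c17076 c17096 c338 c312 (k8 c13552 c5558 c17097 c813 c1500 c1734 c15713 c4477 (k1 c17098 k0)))))))) (by decide +kernel)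
def c17100 : PP 8 4 T 0x10000000000100000000000 := rS 0x218e869041680e3c72074ee422b82c40d2 (k8 c16788 c17094 c17099 c799 c17090 c1887 c85 c17071 (k8 c17015 c10458 c4476 c4462 c845 c235 c6832 c1693 k0)) (by decide +kernel)
def c17101 : PP 8 4 T 0x100000000000 := rS 0x4ac45587555abc0c330496cb03149860042b0d9cc162f4b8043e206190484f11494426537245c78d2 (k8 c16788 c17015 c4416 c17071 c4290 c4401 c4405 c4402 (k8 c11030 c17090 c91 c2054 c17094 c86 c9668 c926 (k8 c837 c17099 c1615 c334 c16312 c12555 c15545 c1654 (k8 c11577 c17100 c93 c1105 c6257 c4462 c5815 c5962 (k4 c498 c14706 c4338 c861 (k1 c4487 k0)))))) (by decide +kernel)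
def c17102 : PP 8 4 T 0x20000000000 := rS 0x2c (k2 c17101 c142 k0) (by decide +kernel)
def c17103 : PP 8 4 T 0x80000000000 := rS 0x2c (k2 c17101 c143 k0) (by decide +kernel)
def c17104 : PP 8 4 T 0x2000000000000000000000000000000000000000000000000000000000 := rS 0x2c (k2 c17101 c4286 k0) (by decide +kernel)
def c17105 : PP 8 4 T 0x200000000000000000000000000000000000000000000000000000000000000000000 := rS 0x2c (k2 c17101 c4332 k0) (by decide +kernel)
def c17106 : PP 8 4 T 0x20000000000000000000000000000000000000000 := rS 0x4e2c (k2 c17101 c16791 (k1 c894 k0)) (by decide +kernel)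
def c17107 : PP 8 4 T 0x8000000000000100000800 := rS 0x7c1c0187c522c (k4 c17101 c17102 c2359 c302 (k2 c4466 c15537 (k1 c1180 k0))) (by decide +kernel)
def c17108 : PP 8 4 T 0x200000000000000100000000000000000040000000000000800 := rS 0xa52295a84542951ebd38b3cbeb57eac40a5941abca6a755a1c2a550c9a16e963a254b6918c44c641a59a753645010bd32207895a2227728b1a411 (k8 c16790 c16788 c17101 c17104 c16791 c17105 c15503 c12761 (k8 c17107 c16859 c2777 c798 c2406 c13624 c967 c16001 (k8 c15240 c422 c4340 c4488 c886 c92 c2781 c15904 (k8 c11025 c1165 c423 c7490 c2249 c15517 c7313 c1884 (k8 c902 c2382 c983 c638 c63 c311 c622 c4305 (k8 c1705 c15620 c1793 c587 c6133 c931 c1883 c15724 (k4 c827 c949 c716 c4491 (k1 c4427 k0)))))))) (by decide +kernel)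
def c17109 : PP 8 4 T 0x100000000000000000040000000000000800 := rS 0x15ac266d1578a554c322a7147b3d6a36a1ae18cc909c616e3c1d83d4f134b45cfe7d340c9065384afd369d3a05434b10f955665b36984021d1fa55222f4cbc48a0210158920d08b49ca278891c6a2c (k8 c17101 c16797 c16798 c17105 c16791 c17104 c16788 c16790 (k8 c16795 c16793 c15503 c17107 c798 c2406 c12761 c16859 (k8 c2777 c886 c2781 c401 c85 c15891 c5402 c9753 (k8 c92 c16001 c2249 c2359 c622 c15240 c15517 c15904 (k8 c967 c13624 c6330 c4316 c2382 c638 c422 c423 (k8 c7516 c7517 c4417 c11025 c4340 c902 c15494 c1043 (k8 c9886 c1165 c4488 c571 c17108 c15677 c11938 c4391 (k8 c330 c1432 c1520 c16829 c1473 c4386 c4486 c15490 (k4 c4385 c15724 c4454 c2069 (k2 c8143 c6601 (k1 c8801 k0))))))))))) (by decide +kernel)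
def c17110 : PP 8 4 T 0x100000000000000000000004000000004800 := rS 0x539be2b0c1b1383e193080522251785c0e1b21275523101080acf16903496230889c9a2c (k8 c17101 c16794 c16791 c16790 c16796 c16789 c16795 c16788 (k8 c12761 c15503 c17107 c798 c2245 c6029 c966 c17109 (k8 c2290 c83 c1951 c2777 c313 c886 c15891 c5402 (k8 c7490 c2359 c14506 c338 c5807 c4386 c1343 c4330 (k1 c14394 k0))))) (by decide +kernel)
def c17111 : PP 8 4 T 0x40100000000000000000000004000000000800 := rS 0x2727e2aa72fc306c0e892a4b66100a444a2f18a2da26943c2036021005c84070c959e2e56908c5827 (k8 c16791 c17101 c16796 c16788 c17104 c12761 c15503 c7490 (k8 c83 c17109 c1951 c17107 c798 c2290 c4465 c4440 (k8 c13396 c2300 c14044 c2245 c2777 c313 c886 c15891 (k8 c5402 c92 c6029 c4469 c17110 c304 c6403 c15550 (k4 c15649 c4386 c4384 c13552 (k1 c16032 k0)))))) (by decide +kernel)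
def c17112 : PP 8 4 T 0x1000000000000000011100004045500040000040000000000000000000200010 := rS 0x16ea3649960a952b284222c (k8 c17101 c16790 c17106 c15503 c2781 c4308 c550 c630 (k2 c14599 c5279 (k1 c2125 k0))) (by decide +kernel)
def c17113 : PP 8 4 T 0x4000100840010000000000001000000000000800 := rS 0x11537ad9466555ab99a7329224fa630aac566672aa2da2878405c0eb95a8fcea5b0994583164aa4c0a594e0c92ebb47a0436420ca45faa530804be31013c45e202b39542471609da44b888ac6a11 (k8 c16790 c16797 c17103 c17105 c16789 c16788 c16791 c17101 (k8 c16798 c17106 c17104 c15503 c17107 c2777 c12761 c798 (k8 c2245 c6467 c15891 c5402 c1937 c4306 c886 c7490 (k8 c17109 c2290 c6395 c801 c10310 c927 c17111 c337 (k8 c63 c311 c12021 c2781 c4487 c4420 c1956 c7061 (k8 c92 c11025 c401 c7513 c7514 c83 c1951 c4465 (k8 c4440 c2300 c14044 c2249 c13949 c16001 c622 c17112 (k8 c815 c7516 c7030 c2109 c16805 c2064 c417 c1942 (k4 c1776 c989 c4031 c16812 (k2 c4353 c14110 k0)))))))))) (by decide +kernel)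
def c17114 : PP 8 4 T 0x1000000010000000000000000000880000000000000000000000000400000 := rS 0x52652209ae5 (k4 c17104 c16794 c676 c677 (k2 c4742 c2022 k0)) (by decide +kernel)
def c17115 : PP 8 4 T 0x100800010000000000001000000000000800 := rS 0x1761a9e3f97dfaf1308045e31013442e42039d52e204a96cace5138b222d2 (k8 c16788 c17105 c17101 c16791 c17104 c15503 c92 c2781 (k8 c17107 c927 c11025 c83 c17109 c1951 c2300 c798 (k8 c2245 c2777 c15891 c5402 c12761 c4306 c6467 c17114 (k4 c17113 c4384 c15655 c4477 k0)))) (by decide +kernel)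
def c17116 : PP 8 4 T 0x1000000000010400000000000000000000948000000444000000000000000000000000000000000000 := rS 0x57b119511 (k4 c17105 c1247 c7634 c8140 (k1 c8820 k0)) (by decide +kernel)
def c17117 : PP 8 4 T 0x100000000000000000001000000000004800 := rS 0x14d12156798d44b72e9be2a365f5149c835da3ce2b133804aa918caf516814d9a50f080d8082e070cbc572b51f84ca2c18b25526052cc4d5a324b880acd121445a42c728ac8e35259344e11 (k8 c16790 c16791 c16794 c16789 c16797 c16798 c17103 c17104 (k8 c17101 c16788 c17105 c17109 c2300 c15503 c17107 c927 (k8 c17111 c943 c4340 c63 c311 c12021 c2781 c4487 (k8 c4420 c1956 c7061 c401 c7513 c7514 c12761 c7490 (k8 c83 c1951 c798 c2290 c4465 c4440 c13396 c804 (k8 c6395 c14044 c2014 c4446 c886 c2249 c15891 c13949 (k8 c622 c16810 c801 c10310 c17115 c6153 c4396 c339 (k8 c338 c4386 c1343 c4628 c17116 c7468 c818 c1524 (k4 c383 c4794 c421 c2109 k0))))))))) (by decide +kernel)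
def c17118 : PP 8 4 T 0x100000000000000000001000000000000800 := rS 0x5157ea865aae96cfa1949441544a7d768f8a9fe186e1b3f41cad4e44c64516084e2cc35aae52eb12d984ce012a8fd2a9118a4c0a5920c657a8b68a050f080d80840172101c325678935a4e58891c6a4b160ac4e11 (k8 c16790 c16791 c17103 c17101 c16789 c16797 c16798 c17105 (k8 c17104 c16788 c16794 c12761 c15503 c7490 c83 c17109 (k8 c1951 c17107 c798 c2290 c4465 c4440 c6395 c2300 (k8 c14044 c2014 c4446 c91 c63 c311 c12021 c2245 (k8 c886 c2781 c401 c2249 c15891 c13949 c5402 c92 (k8 c622 c927 c7514 c7513 c2055 c4487 c7061 c4420 (k8 c1956 c17111 c4340 c337 c943 c17117 c4376 c304 (k8 c305 c6403 c1456 c4386 c1346 c1349 c4384 c13062 (k8 c17112 c11907 c17001 c4393 c1524 c4456 c1942 c2022 (k4 c4526 c9033 c4398 c4493 k0)))))))))) (by decide +kernel)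
def c17119 : PP 8 4 T 0x100000000000000000000000000000000800 := rS 0x5397c9e0e2922466510a84d2c3c43c21161b0bb448242188bc042548880ce610c80566567881caad2728b04e2b (k8 c17103 c16791 c17101 c17104 c16788 c2249 c83 c12761 (k8 c15503 c16001 c15891 c7490 c5402 c13949 c17107 c886 (k8 c313 c798 c2777 c2245 c17109 c91 c2300 c1951 (k8 c2290 c14044 c4465 c4440 c17118 c329 c1679 c327 (k8 c1685 c16041 c7030 c2109 c17110 c2289 c15550 c15649 (k1 c13552 k0)))))) (by decide +kernel)
def c17120 : PP 8 4 T 0x1000000000000000000000000000000000000004000041000000004000800 := rS 0x985c085801824401f338043a8c2a864f6b315b945835 (k8 c16797 c17101 c17104 c17103 c663 c703 c308 c2249 (k8 c17119 c1027 c567 c13949 c2359 c4466 c84 c303 (k4 c16620 c4461 c2497 c2496 (k1 c14215 k0)))) (by decide +kernel)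
def c17121 : PP 8 4 T 0x1000000000000000000000000000000000000000000041000000004000800 := rS 0x2968a4e0b9454eae1944d8aab56995a26282851831649b0c4a750781536134c8bc049541978b6592b214d20986984ce012a8653a3122acd2e200ea303ed21489c5711728b01a35 (k8 c16797 c16795 c17101 c17104 c17105 c17103 c16791 c17102 (k8 c16788 c2359 c17119 c1027 c4466 c927 c663 c438 (k8 c316 c967 c308 c2249 c567 c13949 c5402 c4383 (k8 c84 c13396 c6224 c17120 c63 c92 c1068 c15529 (k8 c2781 c798 c2777 c16859 c7061 c804 c311 c6403 (k8 c11025 c2243 c4958 c12021 c4487 c4420 c15080 c4308 (k8 c383 c2422 c550 c6230 c15021 c15020 c15633 c13950 (k8 c2127 c902 c1592 c653 c6153 c4396 c1399 c7647 k0)))))))) (by decide +kernel)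
def c17122 : PP 8 4 T 0x1002000000000000040100000000000404010000020000140000000005004000 := rS 0x1e61280429dd7d195e85c9e411b844964d068d472d2 (k8 c16788 c16792 c16797 c16795 c16794 c16789 c16790 c17096 (k8 c4433 c4297 c4431 c6133 c5090 c2114 c3121 c13580 (k4 c2108 c4439 c1962 c4482 k0))) (by decide +kernel)
def c17123 : PP 8 4 T 0x2000000000000000000100000200002000000420000000001001000000000 := rS 0x54a9d326a1793c665b1189c9a4b (k8 c16789 c16794 c16791 c16796 c93 c4294 c4297 c4432 (k4 c540 c1929 c2009 c1508 (k1 c2111 k0))) (by decide +kernel)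
def c17124 : PP 8 4 T 0x100011400000000000000140020120000000000000000000800 := rS 0x1f4deb15b9c51e7f51a314211 (k8 c16790 c17106 c17119 c1467 c555 c100 c537 c1118 (k4 c622 c1108 c1651 c2121 k0)) (by decide +kernel)
def c17125 : PP 8 4 T 0x41000000004000804 := rS 0x2258aad4c2a14e6943c20ef195e9e4dc5f2e29504251bbf4fea345c5992c360ad572953a83c28641f9c4267302160c68f5b984ce012a8c4401d0f915662f279057617589ec328c578cde1111189c9a4b69045ca471a8b056a1 (k8 c17106 c17103 c17101 c16797 c16798 c17104 c16790 c16788 (k8 c16789 c16794 c16791 c16796 c17105 c17121 c4294 c982 (k8 c17119 c308 c703 c622 c4431 c16849 c4433 c4297 (k8 c4432 c663 c438 c2359 c1027 c4466 c316 c2249 (k8 c567 c13949 c5402 c1118 c100 c814 c16620 c4461 (k8 c1110 c2496 c537 c2367 c391 c390 c2357 c11468 (k8 c855 c7514 c7513 c12762 c9009 c630 c7660 c718 (k8 c1467 c555 c15634 c17096 c312 c17122 c1937 c17124 (k8 c65 c1337 c17123 c3116 c5090 c2002 c4482 c10171 (k8 c4437 c812 c2111 c1508 c948 c1136 c4794 c6803 k0)))))))))) (by decide +kernel)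
def c17126 : PP 8 4 T 0x41000000004000800 := rS 0x9fa1b182aab8926d12763ca1102a54cafa327f54b25460f388dc26835e9b8bcb949a54b6252b0fc0a0257aec66412785de09759825630d3099caa7b4e9b462200f8043a8c0c915431169394224b268346a39138ac522c (k8 c17101 c17102 c17103 c16791 c16792 c16797 c16795 c16794 (k8 c16789 c16790 c17104 c16788 c17105 c17106 c438 c308 (k8 c17119 c1027 c567 c2359 c4466 c316 c7462 c967 (k8 c703 c2249 c13949 c5402 c4383 c622 c84 c663 (k8 c927 c17121 c4431 c4297 c4433 c4294 c16849 c982 (k8 c17125 c55 c2364 c303 c2243 c839 c12015 c12021 (k8 c7514 c1068 c1067 c3066 c15529 c7061 c1383 c1386 (k8 c6403 c1468 c15620 c3479 c1459 c5090 c2114 c1134 (k8 c1404 c1381 c2108 c602 c13580 c684 c805 c4703 (k4 c4445 c15969 c15677 c4391 (k2 c1391 c4489 k0))))))))))) (by decide +kernel)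
def c17127 : PP 8 4 T 0x2000000000000800 := rS 0xc907b1c2aa31b8082693128140e5586984021d46349cb11508ac5835 (k8 c16797 c17101 c17103 c17106 c17105 c17104 c16788 c17119 (k8 c1027 c567 c5402 c4383 c2249 c83 c2282 c2283 (k8 c1654 c1679 c4461 c1383 c1468 c2279 c330 c304 (k2 c7497 c15677 k0)))) (by decide +kernel)
def c17128 : PP 8 4 T 0x40000000000000804 := rS 0x11687298c8804f17a9c4a851bbf536c32e4622cc962a256ab93a9dc1e14323447e7909914e6042c15cc60900accf70941af5e21a1e8c4401d4607da41123b946a2c (k8 c17101 c16797 c17104 c16798 c16790 c16788 c2359 c17119 (k8 c1027 c4466 c316 c17127 c17126 c4292 c16911 c638 (k8 c4316 c703 c663 c567 c84 c814 c798 c16620 (k8 c4461 c1110 c13923 c2496 c2504 c2367 c2424 c391 (k8 c390 c2357 c15565 c11468 c7514 c7513 c679 c15020 (k8 c630 c7660 c4482 c17124 c4362 c4448 c4377 c3322 (k8 c3473 c1335 c813 c836 c6655 c6022 c13552 c2034 (k2 c7128 c719 (k1 c15726 k0))))))))) (by decide +kernel)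
def c17129 : PP 8 4 T 0x40000000000200800 := rS 0x15aab3298a0a6700acd2a5535a655e5362c4c649302959362f22809e21a1ea74401d4607e222c1ab945629 (k8 c17102 c17103 c17104 c16797 c17101 c17105 c2359 c17119 (k8 c1027 c4466 c967 c17127 c17126 c4292 c17128 c2406 (k8 c8877 c13624 c303 c55 c12021 c422 c4340 c7718 (k8 c2382 c983 c16859 c558 c2249 c12015 c663 c567 (k4 c13949 c4308 c383 c550 (k2 c13092 c2807 (k1 c6342 k0))))))) (by decide +kernel)
def c17130 : PP 8 4 T 0x40000000000000800 := rS 0x4fd0d8c1564a8c1e132f24d2a5b129580a02049561a6100a5c7a200ea303ea188b49ca27158a45835 (k8 c16797 c17101 c17102 c17103 c16791 c17104 c16788 c17105 (k8 c17106 c2359 c17119 c1027 c4466 c17127 c927 c567 (k8 c5402 c4383 c2249 c84 c17128 c55 c303 c2243 (k8 c839 c12015 c12021 c1068 c7061 c6403 c1468 c15620 (k4 c17129 c15677 c4391 c1391 (k1 c4489 k0)))))) (by decide +kernel)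
def c17131 : PP 8 4 T 0x4000804 := rS 0x2a54a9918aad4e8734a2cf6672ac645e573b8653a3360c5976250793c6e5c64850e6635c9d426b51f99008012c0803a1f598f518426909c58357291c222b (k8 c17103 c16790 c16798 c17104 c16797 c17101 c16791 c16788 (k8 c17130 c17119 c17127 c663 c2359 c1027 c4466 c16620 (k8 c567 c4461 c391 c2367 c7513 c2496 c11468 c7514 (k8 c814 c1110 c390 c630 c17124 c3322 c338 c2357 (k8 c1335 c3324 c7660 c4420 c2293 c966 c16590 c1886 (k8 c798 c1953 c4446 c2249 c13949 c702 c718 c16949 (k8 c10171 c812 c15728 c397 c1926 c16947 c1508 c15712 k0))))))) (by decide +kernel)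
def c17132 : PP 8 4 T 0x804 := rS 0x14e8318c25e21a278950a377e97192b55c9d4660f0a1907e1339810b0631007cc201598f45e420ea31a4111611dca35 (k8 c16797 c17104 c16798 c17101 c16790 c16788 c17119 c1027 (k8 c17130 c1953 c17127 c663 c567 c5402 c2359 c4466 (k8 c814 c16620 c4461 c1110 c2496 c2367 c391 c390 (k8 c2357 c2293 c11468 c7514 c7513 c630 c17124 c4377 (k8 c3322 c3473 c1335 c338 c17131 c4292 c4316 c2362 (k2 c638 c5558 (k1 c13552 k0))))))) (by decide +kernel)
def c17133 : PP 8 4 T 0x800 := rS 0x5227500f04293ceebb078dc32833d9b8bc1b2d894ac310105c8461008803b0d4607d620903844964d06b486a2c (k8 c17101 c16797 c16788 c16795 c16794 c16789 c16790 c83 (k8 c84 c622 c2359 c17119 c4383 c1027 c4466 c567 (k8 c5402 c17130 c1951 c17132 c2245 c303 c2243 c839 (k8 c2290 c1068 c1067 c3244 c15529 c7490 c1383 c6403 (k8 c16849 c1886 c338 c1500 c6153 c2108 c10547 c1381 (k1 c16947 k0)))))) (by decide +kernel)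
def c17134 : PP 8 4 T 0x100000000000000000040000000000000000 := rS 0x60d2ccac097882e22e5 (k8 c17104 c17105 c17133 c12761 c15502 c15503 c16001 c15240 (k2 c4462 c15469 k0)) (by decide +kernel)
def c17135 : PP 8 4 T 0x10000004 := rS 0x660a8000ab30415c0e921f0784255728b0162b (k8 c17103 c17133 c17101 c17104 c246 c12555 c4466 c392 (k8 c393 c11031 c3067 c4462 c16243 c2356 c4461 c15621 (k2 c910 c15652 k0))) (by decide +kernel)
def c17136 : PP 8 4 T 0x1000000010004000400000008200001540000000000008005000005004200 := rS 0xa34fd0d9cc62705ca4c4459ee1ab7179850e898245c4a020eb05560d2588c2227268ac6aa1 (k8 c17106 c16797 c17103 c16794 c16791 c16790 c16796 c16789 (k8 c16795 c14076 c1660 c1027 c17135 c224 c4356 c4481 (k8 c4314 c4410 c878 c8877 c1118 c4383 c1225 c14044 (k8 c2123 c1249 c2030 c14506 c420 c421 c4391 c1391 (k2 c3501 c7994 k0))))) (by decide +kernel)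
def c17137 : PP 8 4 T 0x1000000000000000400000000000000000000004000040004000104004000 := rS 0x1594a512e1f8cd8c9bd4c442e93c30c161af624ab3c9dd32b7589852a375aa4810d1339c51e752d8147a73319f4fe558b8f8626d4e96002410f0bc2a97128083a8c88a85a42b058d5ca2c0691c5227 (k8 c16791 c17102 c16798 c16795 c17101 c17104 c16797 c17133 (k8 c17103 c16788 c17106 c17105 c17134 c1027 c17135 c224 (k8 c11617 c14481 c8877 c4466 c1104 c28 c16658 c15584 (k8 c4993 c15695 c392 c4356 c2165 c7517 c7516 c815 (k8 c1110 c329 c55 c838 c15675 c100 c537 c16511 (k8 c2425 c222 c393 c16527 c1384 c854 c878 c1116 (k8 c1118 c16865 c15566 c9840 c14076 c4469 c1119 c4958 (k8 c1660 c17136 c258 c15598 c6022 c13552 c1108 c4364 (k4 c2067 c16546 c8860 c5821 (k2 c8268 c940 (k1 c4458 k0))))))))))) (by decide +kernel)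
def c17138 : PP 8 4 T 0x4000200002000000010010001000040008000010100000020000050040000000000000 := rS 0x19e5363b2d86cda12fa329f5daf4b86e64ae61ab758984e28f3998c2a9701075184f229449a4b2392543111a8e5a42c058adca27 (k8 c16791 c17104 c17103 c17133 c17101 c16788 c16792 c16797 (k8 c17105 c17106 c16793 c16798 c16789 c16794 c4435 c4296 (k8 c4297 c17134 c1027 c17135 c11617 c14481 c815 c1110 (k8 c100 c537 c878 c1116 c1118 c4383 c1126 c7497 (k8 c15732 c1108 c3116 c3324 c1339 c5090 c2114 c4489 (k4 c1485 c3139 c4425 c4391 (k2 c11827 c4541 (k1 c2116 k0)))))))) (by decide +kernel)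
def c17139 : PP 8 4 T 0x400000000000000000000004000040004000104004000 := rS 0xa754ab532c03ca2d86a53bafa32bd2faed70a23db148a4f782546eb549021a27d3f8c4da9d009045e8744c10ea5b029547b171f078e658318552e250107518d2138d4724d258b0162b728348e29 (k8 c17102 c16798 c16795 c17104 c17103 c17133 c17101 c16789 (k8 c16794 c16792 c16797 c16791 c16788 c17134 c1027 c17135 (k8 c224 c11617 c14481 c815 c16658 c1110 c4466 c392 (k8 c4356 c329 c2165 c55 c838 c15675 c4481 c4314 (k8 c4410 c8877 c1104 c28 c15584 c4993 c15695 c7517 (k8 c7516 c2425 c222 c393 c16527 c1384 c854 c17137 (k8 c4297 c4296 c1248 c1224 c17138 c1467 c3442 c1465 (k8 c3136 c5090 c2114 c3121 c1404 c3139 c4632 c17123 (k4 c2123 c6803 c1987 c1508 (k2 c940 c15712 k0)))))))))) (by decide +kernel)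
def c17140 : PP 8 4 T 0x400001000014000040000024000000008000184000008 := rS 0xc5459e4eec33da61361978c4d2a3e49344822f3682c562c (k8 c17101 c17103 c17133 c4993 c8877 c1104 c2425 c393 (k8 c392 c854 c4340 c4294 c2175 c862 c433 c7035 (k4 c12845 c15566 c9840 c14044 (k2 c3148 c6803 k0)))) (by decide +kernel)
def c17141 : PP 8 4 T 0x1000000000000000400000000000000000000004000040000000104000000 := rS 0x28e86ce631489cc4459a4f61960b0e24ab3c9dd330d5ba546e08688c4da41178953e5c373f41c3344a1e09171f27402733a96c0a3d58984fe7147a48ce632c1f4aa1e0aa5c041d4634a222b0591dca35162841a27 (k8 c16791 c16795 c17106 c17101 c16797 c17104 c16798 c17133 (k8 c17103 c17105 c16788 c17134 c1027 c17135 c11617 c14481 (k8 c4466 c2165 c7516 c16658 c815 c16511 c393 c100 (k8 c537 c7517 c878 c1116 c329 c55 c838 c15675 (k8 c1110 c28 c15584 c392 c4356 c4481 c4410 c4314 (k8 c17140 c17139 c4376 c16546 c1108 c1339 c1336 c8877 (k8 c1104 c4993 c15695 c2425 c222 c1384 c854 c1118 (k8 c4383 c16865 c15566 c9840 c14076 c4469 c4958 c1660 (k8 c15598 c1225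 c13396 c14044 c2123 c16954 c1249 c420 (k4 c421 c4391 c3501 c7994 k0)))))))))) (by decide +kernel)
def c17142 : PP 8 4 T 0x400000000000000000000004000040000000104000000 := rS 0x89a9d52aa56a65807945b0d4a77a2a897c7b62c648a4f78095765f5e970dcfd070cd1287820c62e7f3e9cd3a753899cda4168821243e2a96cb0b51b8792b0d478145e01589847a630aa5c041d460d4724d25b4a22a1160ac1ae52382c5227 (k8 c16791 c17102 c17133 c16798 c17104 c16795 c17103 c17101 (k8 c17106 c17105 c16788 c16789 c16794 c16792 c16797 c17134 (k8 c1027 c17135 c11617 c14481 c815 c329 c878 c1116 (k8 c28 c8877 c55 c100 c4383 c854 c4466 c1384 (k8 c16527 c16658 c838 c2165 c392 c393 c222 c2425 (k8 c1104 c4993 c16511 c537 c15675 c15584 c1110 c7516 (k8 c7517 c4356 c15695 c4481 c4410 c4314 c17140 c17139 (k8 c4376 c16546 c1108 c3116 c1378 c3324 c1336 c17141 (k8 c4297 c4296 c5090 c1248 c1224 c2114 c17138 c4399 (k8 c3121 c1404 c3139 c7804 c17123 c2123 c6803 c1987 (k4 c1660 c1508 c940 c4445 (k1 c4490 k0)))))))))))) (by decide +kernel)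
def c17143 : PP 8 4 T 0x200000000000002000000400000000004000 := rS 0x5aae58e3f5b8f52e37128083ad21c91dca351602c56a1 (k8 c17106 c17103 c17133 c17101 c16797 c17104 c16798 c16792 (k8 c16788 c1027 c17135 c224 c1383 c11617 c329 c1118 (k4 c8954 c250 c7514 c7513 (k1 c15736 k0)))) (by decide +kernel)
def c17144 : PP 8 4 T 0x1000000000000100000000000000000000000084000140004000040004000 := rS 0x13c82182a8ec0e080098c2a971b894041d46349ca0b888d4582b (k8 c17103 c17101 c16797 c17105 c17133 c17104 c16788 c17134 (k8 c1027 c17135 c224 c1383 c11617 c14481 c815 c28 (k8 c12637 c494 c11556 c17143 c13458 c1873 c258 c6022 k0))) (by decide +kernel)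
def c17145 : PP 8 4 T 0x400000000200000000000044000000000000200004000 := rS 0x51b216ab9379d47e5539818ce712c0261ab7589847a630aa5c6e250107622a1693948e351602c5627 (k8 c16791 c17103 c17133 c17101 c16797 c16798 c17104 c16788 (k8 c17106 c17105 c1027 c17135 c224 c1383 c11617 c14481 (k8 c815 c329 c878 c1116 c1118 c4383 c231 c4476 (k8 c1386 c8996 c4462 c1110 c247 c11031 c499 c1019 (k4 c7514 c7513 c12410 c1467 (k1 c7497 k0)))))) (by decide +kernel)
def c17146 : PP 8 4 T 0x1000000000000000000000000000000000000084000040004000200004000 := rS 0xbd4607c6245 (k4 c440 c316 c86 c17134 (k2 c16911 c17144 k0)) (by decide +kernel)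
def c17147 : PP 8 4 T 0x200000000000000000004400001000000000 := rS 0x27e86a3632d5730d5b8f52e020e8dd4311690e48ee51a8b0162b (k8 c17103 c17133 c17101 c16797 c17104 c16798 c16792 c16788 (k8 c17105 c17106 c1383 c1027 c17135 c11617 c329 c1118 (k8 c4383 c7514 c7513 c15736 c1467 c4391 c1391 c4489 k0))) (by decide +kernel)
def c17148 : PP 8 4 T 0x2000000000000110044000020000000405410080000140000000001004000 := rS 0x30d58be45aecd2b130a1d130433954f64f20b147c3b318552f191b894041d460d4724d25b48580b15b962227 (k8 c16791 c17105 c17104 c17103 c17133 c17101 c16788 c16789 (k8 c16794 c16792 c16797 c17134 c1027 c17135 c224 c1383 (k8 c5090 c11617 c14481 c815 c11556 c17147 c1248 c4433 (k8 c4297 c704 c17143 c919 c4478 c4314 c4410 c878 (k8 c1116 c845 c11071 c7804 c2114 c2120 c1215 c861 k0))))) (by decide +kernel)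
def c17149 : PP 8 4 T 0x2000000000000000440044020000000001010084000140001000001004000 := rS 0x9a522e97e76559ad7ab94c9be84a92f0046e59649861a5d4799cfa7f399562e3e1d98c2a97128083a8c3d93c82351c93496a1888b0162b728348e27 (k8 c16791 c16798 c16795 c17104 c17103 c17133 c17101 c17105 (k8 c17106 c16789 c16794 c16792 c16797 c4433 c4297 c704 (k8 c17134 c1027 c17135 c224 c11617 c14481 c815 c11556 (k8 c17147 c4356 c17143 c13487 c7517 c7516 c919 c100 (k8 c840 c4383 c878 c7308 c93 c1383 c28 c2118 (k8 c16853 c4489 c1378 c16887 c4394 c1119 c581 c1701 (k4 c17148 c16855 c2114 c1389 (k2 c1390 c3800 k0)))))))) (by decide +kernel)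
def c17150 : PP 8 4 T 0x2000000000000000440040020000000001010084000140001000001004000 := rS 0x26948ba5f9d9566b5ea65526f5cad13d0d008dc4a592ea3cfa551d98c2a9701075187b279046a392692c8ee5058ac5911 (k8 c17105 c17101 c17103 c17133 c17104 c16798 c16789 c16794 (k8 c16792 c16797 c4433 c4297 c704 c17134 c1027 c17135 (k8 c11617 c14481 c815 c11556 c17143 c7516 c100 c840 (k8 c93 c224 c1383 c28 c4383 c17149 c1698 c164 (k8 c1347 c3483 c16887 c1119 c581 c1701 c17148 c16855 (k4 c2114 c1389 c1390 c3800 k0)))))) (by decide +kernel)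
def c17151 : PP 8 4 T 0x4000000000000000010000201040004004000000000000000140150440000000000000 := rS 0x11355ab696c14c299368f1ea5c041d46445a42c058adca35 (k8 c16797 c17104 c17103 c17133 c17101 c16788 c17105 c17134 (k8 c1027 c17135 c11617 c329 c100 c2019 c1120 c1119 (k4 c2021 c15805 c13185 c2013 (k2 c4443 c4491 k0)))) (by decide +kernel)
def c17152 : PP 8 4 T 0x4000000002000000010000001040000024000054000050080000140040000002000000 := rS 0x26948765d4657abf381793e3b318552ec9308083b0d2ea3d468c27904a2791a8e49a4b692844e2c058adcb11 (k8 c17105 c17104 c17103 c17133 c17101 c16791 c17106 c16788 (k8 c16789 c16794 c16792 c16797 c1958 c4435 c4433 c4297 (k8 c17134 c1468 c100 c840 c4383 c1027 c17135 c878 (k8 c7308 c11617 c14481 c815 c11556 c1698 c2118 c576 (k8 c1514 c17151 c5090 c2114 c4540 c1389 c1390 c3800 k0))))) (by decide +kernel)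
def c17153 : PP 8 4 T 0x200000000000200000001000080000000001000002000000 := rS 0x11334a61368f (k4 c100 c2019 c1119 c844 (k2 c4443 c10711 k0)) (by decide +kernel)
def c17154 : PP 8 4 T 0x400000000000000000000004000040004000200004000 := rS 0x134a43b2ea32bd5f9bd687984860824f781eda2af3691462373299cfa7f2ac5d28a3498f8765a318552e25010743e8c1a8e49a4b690b0162b72c441a47 (k8 c16798 c16795 c17105 c17104 c17103 c17133 c17101 c16788 (k8 c16789 c16794 c16792 c16797 c17134 c86 c1027 c17135 (k8 c224 c11617 c14481 c815 c17145 c11556 c17147 c1121 (k8 c1468 c401 c4356 c17143 c7517 c7516 c919 c16476 (k8 c1383 c316 c440 c958 c982 c456 c704 c17146 (k8 c4297 c4433 c17150 c4436 c1958 c17152 c1347 c7782 (k4 c17153 c5090 c2114 c4540 (k2 c1389 c1390 (k1 c3800 k0))))))))) (by decide +kernel)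
def c17155 : PP 8 4 T 0x400000001000000000000100000000000000000001100084040048040000040000000 := rS 0x100ee450aa5c041d4616410d27282c6a2b (k8 c17103 c16797 c17133 c17104 c16788 c12637 c93 c17134 (k8 c1027 c17135 c11617 c14481 c15764 c7751 c6022 c1063 k0)) (by decide +kernel)
def c17156 : PP 8 4 T 0x400000001000000000000000000000000000000000100084040048040000200000000 := rS 0x82450c1b00e01010757a8c1887da435 (k8 c16797 c16788 c86 c316 c17134 c16911 c1027 c17135 (k4 c28 c494 c17155 c959 (k2 c2178 c1873 (k1 c6022 k0)))) (by decide +kernel)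
def c17157 : PP 8 4 T 0x400000000000000000000004000040000000200004000 := rS 0x17c45541b54a19a29394e6978c4c643e1d964b43712c34c6154b8083a8c0f8d5ca0b13c44582b (k8 c17103 c17101 c17105 c16791 c17133 c17104 c16797 c86 (k8 c17134 c1027 c17135 c11617 c14481 c815 c4383 c224 (k8 c1383 c17145 c93 c11556 c17147 c17154 c4340 c4294 (k8 c2842 c902 c17156 c4396 c258 c1399 c959 c4490 (k2 c15764 c1507 (k1 c6330 k0)))))) (by decide +kernel)
def c17158 : PP 8 4 T 0x400000000000000000000004000040000000004000000 := rS 0x582d1c5fa0e10184041d4602c6a27 (k8 c16791 c16797 c17133 c17134 c1027 c17135 c878 c17142 (k4 c17157 c4376 c3369 c15653 (k2 c15573 c93 k0))) (by decide +kernel)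
def c17159 : PP 8 4 T 0x800000000000000000000000000000000000010000000 := rS 0x187c091e8552e0205b94562c (k8 c17101 c17103 c17104 c17133 c17135 c11617 c14481 c329 (k4 c16243 c11612 c4462 c11031 k0)) (by decide +kernel)
def c17160 : PP 8 4 T 0x200000000000008000000000000000000000 := rS 0x4259010741635 (k4 c16797 c17133 c1027 c17135 (k2 c63 c799 (k1 c16658 k0))) (by decide +kernel)
def c17161 : PP 8 4 T 0x40000000000000000 := rS 0x1140c580f824b61a2bacc0a020ea301635 (k8 c16797 c17133 c17134 c1027 c17135 c55 c17159 c17160 (k8 c17158 c15894 c15513 c2393 c4476 c4462 c13923 c15581 k0)) (by decide +kernel)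
def c17162 : PP 8 4 T 0x20000000000000000 := rS 0x42 (k2 c17161 c91 k0) (by decide +kernel)
def c17163 : PP 8 4 T 0x20000000000000000000000000000000000000000000000000000000000000000000000 := rS 0x42 (k2 c17161 c4446 k0) (by decide +kernel)
def c17164 : PP 8 4 T 0x80000000 := rS 0x5842 (k2 c17161 c17101 (k1 c2361 k0)) (by decide +kernel)
def c17165 : PP 8 4 T 0x8000000 := rS 0x1642 (k2 c17161 c17133 (k1 c334 k0)) (by decide +kernel)
def c17166 : PP 8 4 T 0x800000000000000000000000000000 := rS 0x1642 (k2 c17161 c17133 (k1 c1887 k0)) (by decide +kernel)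
def c17167 : PP 8 4 T 0x1100000000000000000000000000000000000 := rS 0xa72797c6efd644516eb138814de6100ae56a8f4d9f4fe550aa95527b349ae24310ca1e09173a8fc7a2139a58ce1c59bc4662f0101812561189c964d21396327705905a42c0d8348e35 (k8 c16797 c16798 c16795 c17165 c17101 c16788 c17162 c17133 (k8 c17166 c17163 c17104 c17161 c16794 c16789 c16791 c16796 (k8 c15503 c15502 c4462 c1018 c8877 c12976 c12761 c16001 (k8 c1017 c2924 c912 c1084 c799 c328 c11031 c11627 (k8 c4360 c4481 c4410 c7639 c228 c4469 c4442 c13396 (k8 c1227 c6029 c5936 c648 c247 c7517 c7516 c2765 (k8 c2763 c7513 c7514 c15891 c5402 c1019 c14499 c496 (k8 c1147 c1165 c16019 c2121 c8860 c4386 c15620 c338 (k2 c4532 c15772 k0))))))))) (by decide +kernel)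
def c17168 : PP 8 4 T 0x100000000000000000000000000000000000 := rS 0x4915480c43287821ce2e9633a6c5e751e870de021f8cc4259032ccac0978909a42c7282c6a41 (k8 c17162 c16797 c17133 c17104 c17101 c16788 c17161 c12761 (k8 c15502 c15503 c16001 c4462 c63 c799 c12976 c11031 (k8 c1018 c1019 c1017 c328 c11627 c8877 c2765 c2924 (k8 c912 c4360 c1084 c4481 c4410 c7639 c228 c17167 (k2 c4352 c16821 (k1 c11879 k0)))))) (by decide +kernel)
def c17169 : PP 8 4 T 0x20000000 := rS 0x6a8c (k2 c17168 c16797 (k1 c1027 k0)) (by decide +kernel)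
def c17170 : PP 8 4 T 0x8000000000000000000000 := rS 0x8c (k2 c17168 c17160 k0) (by decide +kernel)
def c17171 : PP 8 4 T 0x4 := rS 0x1d (k2 c17169 c17135 k0) (by decide +kernel)
def c17172 : PP 8 4 T 0x800000000000000000000000000000000000000000000 := rS 0x1d (k2 c17169 c17159 k0) (by decide +kernel)
def c17173 : PP 8 4 T 0x100000000 := rS 0x3e1d (k2 c17169 c17164 (k1 c4466 k0)) (by decide +kernel)
def c17174 : PP 8 4 T 0x2000000000000000000000000 := rS 0x4e02 (k2 c17171 c16791 (k1 c878 k0)) (by decide +kernel)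
def c17175 : PP 8 4 T 0x80000000000000000000000000000000000000 := rS 0xb15b943a02 (k4 c17171 c17169 c17104 c17103 (k2 c17133 c11617 k0)) (by decide +kernel)
def c17176 : PP 8 4 T 0x2000000000000 := rS 0x420 (k2 c17173 c17171 (k1 c11577 k0)) (by decide +kernel)
def c17177 : PP 8 4 T 0x200000 := rS 0x102c3a97 (k4 c17175 c17169 c17133 c17171 (k1 c14481 k0)) (by decide +kernel)
def c17178 : PP 8 4 T 0x200000000000000000000000000000000000000 := rS 0x8431 (k2 c17176 c17161 (k1 c1926 k0)) (by decide +kernel)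
def c17179 : PP 8 4 T 0x8000000000000000000000000 := rS 0x5815 (k2 c17177 c17101 (k1 c815 k0)) (by decide +kernel)
def c17180 : PP 8 4 T 0x4000 := rS 0x8756a2d565133b00a489579b4aa3e0c0ccf66b348ecca082d094c6e50aa5c6202210b118204c9dc17110f8ad6657 (k8 c17170 c17172 c17103 c17164 c17105 c17133 c17166 c17178 (k8 c17173 c17168 c17101 c17161 c17171 c17176 c17175 c17177 (k8 c17104 c17179 c224 c17145 c12637 c16476 c11556 c845 (k8 c581 c12934 c2151 c236 c17147 c17143 c958 c982 (k8 c15893 c404 c405 c919 c148 c1942 c1713 c1987 (k2 c9141 c2120 k0)))))) (by decide +kernel)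
def c17181 : PP 8 4 T 0x2000000000000000000000000000000000000000000000000000000000000000 := rS 0xe (k2 c17180 c4376 k0) (by decide +kernel)
def c17182 : PP 8 4 T 0x20000000000000000000000000000 := rS 0x1180e (k2 c17180 c17168 (k1 c3369 k0)) (by decide +kernel)
def c17183 : PP 8 4 T 0x40000000000000000000000 := rS 0x6a2030a30160e (k4 c17180 c17133 c17168 c17174 (k2 c17173 c16797 (k1 c15653 k0))) (by decide +kernel)
def c17184 : PP 8 4 T 0x10000000000000000000000 := rS 0x7e95cc271 (k4 c17182 c17174 c17170 c17181 (k1 c15573 k0)) (by decide +kernel)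
theorem fin : ∀ d, Hyp 8 4 d → False := fS (T := T) (rS 0xb05a (k2 c17183 c17184 (k1 c93 k0)) (by decide +kernel))

end Pool.Agent.H551.GP.E84
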