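import Pool.Agent.H551.GP.Step

/-! Certificate data. -/

set_option linter.all false
set_option maxRecDepth 100000

namespace Pool.Agent.H551.GP.E91

def T : Nat := 0x108d0104d00d0901009010c900c09010410104900c4100c4900d0100d05009010090501005010c1010c5008c1008c500c05010810108500c8100c8500805

def c1 : PP 9 1 T 0x1a := iS 0x501002 0x2c001c000c3014 (by decide +kernel)
def c2 : PP 9 1 T 0x182 := iS 0x902002 0x2c001c000c4014 (by decide +kernel)
def c3 : PP 9 1 T 0x6800 := iS 0xf0380c 0x2c001c000c2014 (by decide +kernel)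
def c4 : PP 9 1 T 0x60800 := iS 0x130480c 0x2c001c000c4014 (by decide +kernel)
def c5 : PP 9 1 T 0x1a00000 := iS 0x1906016 0x2c001c000c2014 (by decide +kernel)
def c6 : PP 9 1 T 0x18200000 := iS 0x1d07016 0x2c001c000c3014 (by decide +kernel)
def c7 : PP 9 1 T 0x180000002 := iS 0x2108002 0x2c001c000c3024 (by decide +kernel)
def c8 : PP 9 1 T 0x1800000002 := iS 0x2509002 0x2c001c000c4024 (by decide +kernel)
def c9 : PP 9 1 T 0x28000040000 := iS 0x130a828 0x2c001c000c4024 (by decide +kernel)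
def c10 : PP 9 1 T 0x280010000000 := iS 0x1d0b82c 0x2c001c000c3024 (by decide +kernel)
def c11 : PP 9 1 T 0x801000000800 := iS 0x250c00c 0x2c001c000c4034 (by decide +kernel)
def c12 : PP 9 1 T 0x2008000000100 := iS 0x90c828 0x2c001c000c4034 (by decide +kernel)
def c13 : PP 9 1 T 0x1510444411044 := iS 0xb4310a41b0bc1105c2301c0d07c03 0x10c85 (by decide +kernel)
def c14 : PP 9 1 T 0x200000000 := iS 0x22 0x317 (by decide +kernel)
def c15 : PP 9 1 T 0x2000000000 := iS 0x26 0x417 (by decide +kernel)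
def c16 : PP 9 1 T 0x20 := iS 0x6 0x327 (by decide +kernel)
def c17 : PP 9 1 T 0x200 := iS 0xa 0x427 (by decide +kernel)
def c18 : PP 9 1 T 0x8000 := iS 0x10 0x237 (by decide +kernel)
def c19 : PP 9 1 T 0x80000 := iS 0x14 0x437 (by decide +kernel)
def c20 : PP 9 1 T 0x2000000 := iS 0x1a 0x247 (by decide +kernel)
def c21 : PP 9 1 T 0x20000000 := iS 0x1e 0x347 (by decide +kernel)
def c22 : PP 9 1 T 0x1 := iS 0x1 0x21f (by decide +kernel)
def c23 : PP 9 1 T 0x400 := iS 0xb 0x31f (by decide +kernel)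
def c24 : PP 9 1 T 0x100000 := iS 0x15 0x41f (by decide +kernel)
def c25 : PP 9 1 T 0x4000000000 := iS 0x27 0x32f (by decide +kernel)
def c26 : PP 9 1 T 0x40000000000 := iS 0x2b 0x42f (by decide +kernel)
def c27 : PP 9 1 T 0x8 := rS 0xa00 (k2 c22 c16 (k1 c1 k0)) (by decide +kernel)
def c28 : PP 9 1 T 0x80 := rS 0x1200 (k2 c22 c17 (k1 c2 k0)) (by decide +kernel)
def c29 : PP 9 1 T 0x80000000 := rS 0x4200 (k2 c22 c14 (k1 c7 k0)) (by decide +kernel)
def c30 : PP 9 1 T 0x800000000 := rS 0x4a00 (k2 c22 c15 (k1 c8 k0)) (by decide +kernel)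
def c31 : PP 9 1 T 0x2000 := rS 0x1e0a (k2 c23 c18 (k1 c3 k0)) (by decide +kernel)
def c32 : PP 9 1 T 0x20000 := rS 0x260a (k2 c23 c19 (k1 c4 k0)) (by decide +kernel)
def c33 : PP 9 1 T 0x800000000000 := rS 0x4a0a (k2 c23 c15 (k1 c11 k0)) (by decide +kernel)
def c34 : PP 9 1 T 0x800000 := rS 0x3214 (k2 c24 c20 (k1 c5 k0)) (by decide +kernel)
def c35 : PP 9 1 T 0x8000000 := rS 0x3a14 (k2 c24 c21 (k1 c6 k0)) (by decide +kernel)
def c36 : PP 9 1 T 0x20000000000 := rS 0x2626 (k2 c25 c19 (k1 c9 k0)) (by decide +kernel)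
def c37 : PP 9 1 T 0x2000000000000 := rS 0x1226 (k2 c25 c17 (k1 c12 k0)) (by decide +kernel)
def c38 : PP 9 1 T 0x100000000000 := rS 0xa43617068bc221f1181c0631 (k8 c37 c27 c28 c30 c29 c32 c33 c31 (k4 c34 c35 c36 c13 k0)) (by decide +kernel)
def c39 : PP 9 1 T 0x80000000000 := rS 0x3a2c (k2 c38 c21 (k1 c10 k0)) (by decide +kernel)
theorem fin : ∀ d, Hyp 9 1 d → False := fS (T := T) (rS 0x2b (k2 c39 c26 k0) (by decide +kernel))

end Pool.Agent.H551.GP.E91
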