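import Pool.Agent.H551.GP.Step

/-! Certificate data. -/

set_option linter.all false
set_option maxRecDepth 100000

namespace Pool.Agent.H551.GP.E93n

def T : Nat := 0x201d0201901c19020d901e150201501c1501815010c1010810104101e1101a110201101c110181101411020c101cc1018c1014c1008c1004c10208101c81018810148100c81004810204101c41018410144100c410084101e0d01a0d0160d006010200d01c0d0180d009410140d0100d0205d02059020550205101a1502159021d502191021cd0204d0204901e0901a09016090120900e0100e0902009005c101c09021890058101809005410140900c090050101009021d9021d102151020dd020d5020d10209d02099020950209101e190219d0215d0211d021190161102195021150120d0218d0214d0210d0208d021c90214902109020c902085020c501e0101e0501a0101a050160101605012010120500e0500a0100a0502005021c1021c5019c1015c1011c100dc1009c101c05021810218501d81015810118100d810098101805021410214501d41019410114100d4101405021010210501d01019010150100d0100c05009010080501005019c9015c500dc501d8d0118d01c9901d890118900d89019c50158500985019d501d9501d5901d4d0194d0114d01d490194900d4901c5501d4501855019450114500d4500945019d101d9101d19015d101d5101d15015910195101915011cd01cd101d0d018d10190d014d10150d018910190901149014910150900d09011c501905014510150500d0500905019cd01cd9015cd01cd50158d018d501cc901c4d01cc5018c50104d010c5015c901c950158901895011c901d0901c9100dc901c8d018c90188d014c90148d010c90108d0184901885014490148501d8501c5901d0501c51011850185100d850184d014c50144d009c501c8501c490108501049008c500c8500c49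

end Pool.Agent.H551.GP.E93n
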