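import Pool.Agent.H551.GP.E93na
import Pool.Agent.H551.GP.E93nb
import Pool.Agent.H551.GP.E93nc
import Pool.Agent.H551.GP.E93nd
import Pool.Agent.H551.GP.E93ne
import Pool.Agent.H551.GP.E93nf

/-! Certificate data. -/

set_option linter.all false
set_option maxRecDepth 100000

namespace Pool.Agent.H551.GP.E93n

def z1 : PP 9 3 T 0x40000000000000000000000000000000000000000000000000000000000000000004000000000000000000000000000000000000000000000000000000010 := rS 0x45 (k2 e1578 f5207 k0) (by decide +kernel)
def z2 : PP 9 3 T 0x40000000000000000000000000000000000000000000000000000000000000000000000000000000000000000000000000000000000000000000000000010 := rS 0xe7 (k2 b4132 z1 k0) (by decide +kernel)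
def z3 : PP 9 3 T 0x10 := rS 0x1f3 (k2 a3830 z2 k0) (by decide +kernel)
def z4 : PP 9 3 T 0x20 := rS 0x1a7 (k2 c2788 d3255 k0) (by decide +kernel)
theorem fin : ∀ d, Hyp 9 3 d → False := fS (T := T) (rS 0x4 (k2 z3 z4 k0) (by decide +kernel))

end Pool.Agent.H551.GP.E93n
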